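import Pool.Agent.Lib.MP_5854e1_co.DtD

/-!
# Windows and cells of the rings
-/

set_option autoImplicit false
set_option maxRecDepth 100000
set_option deprecated.oldSectionVars true

namespace Pool.Agent.Lib.MP_5854e1_co.Cz

open Pool.Agent.Lib.MP_5854e1_co

noncomputable section

noncomputable def tv5565 : DT := (.nd (nat_lit 0) (.nd (nat_lit 1) (.nd (nat_lit 2) (.nd (nat_lit 3) (.nd (nat_lit 4) (.nd (nat_lit 5) (.nd (nat_lit 6) (.nd (nat_lit 7) (.nd (nat_lit 8) (.nd (nat_lit 9) 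
(.lf (nat_lit 517120) (.g (nat_lit 3177) (.e (nat_lit 196666) (nat_lit 13) (.e (nat_lit 65610) (nat_lit 10) (.e (nat_lit 344117) (nat_lit 21) (.e (nat_lit 516151) (nat_lit 9) (.e (nat_lit 426037) (nat_lit 0) (.e (nat_lit 3369) (nat_lit 208) (.e (nat_lit 622622) (nat_lit 13) (.e (nat_lit 2668) (nat_lit 167) .nil)))))))) (.g (nat_lit 1) (.e (nat_lit 216007) (nat_lit 0) .nil) .nil))) 
(.lf (nat_lit 517632) (.g (nat_lit 2983) (.e (nat_lit 196666) (nat_lit 13) (.e (nat_lit 65610) (nat_lit 10) (.e (nat_lit 344129) (nat_lit 26) (.e (nat_lit 557090) (nat_lit 12) (.e (nat_lit 163841) (nat_lit 0) (.e (nat_lit 6255) (nat_lit 337) (.e (nat_lit 2630) (nat_lit 164) (.e (nat_lit 172064) (nat_lit 2) .nil)))))))) (.g (nat_lit 1) (.e (nat_lit 216680) (nat_lit 0) .nil) .nil)))) 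
(.nd (nat_lit 9) 
(.lf (nat_lit 517376) (.g (nat_lit 4081) (.e (nat_lit 196666) (nat_lit 13) (.e (nat_lit 65610) (nat_lit 10) (.e (nat_lit 344117) (nat_lit 21) (.e (nat_lit 516151) (nat_lit 9) (.e (nat_lit 426047) (nat_lit 0) (.e (nat_lit 2424) (nat_lit 157) (.e (nat_lit 4849) (nat_lit 285) (.e (nat_lit 163870) (nat_lit 2) .nil)))))))) (.g (nat_lit 1) (.e (nat_lit 216263) (nat_lit 0) .nil) .nil))) 
(.lf (nat_lit 517888) (.g (nat_lit 3219) (.e (nat_lit 196666) (nat_lit 13) (.e (nat_lit 65617) (nat_lit 10) (.e (nat_lit 344130) (nat_lit 26) (.e (nat_lit 557090) (nat_lit 12) (.e (nat_lit 163854) (nat_lit 0) (.e (nat_lit 6427) (nat_lit 342) (.e (nat_lit 229399) (nat_lit 12) (.e (nat_lit 426125) (nat_lit 2) .nil)))))))) (.g (nat_lit 1) (.e (nat_lit 216993) (nat_lit 0) .nil) .nil))))) 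
(.nd (nat_lit 8) (.nd (nat_lit 9) 
(.lf (nat_lit 517248) (.g (nat_lit 3237) (.e (nat_lit 196666) (nat_lit 13) (.e (nat_lit 65610) (nat_lit 10) (.e (nat_lit 344117) (nat_lit 21) (.e (nat_lit 516151) (nat_lit 9) (.e (nat_lit 426040) (nat_lit 0) (.e (nat_lit 3370) (nat_lit 208) (.e (nat_lit 630528) (nat_lit 13) (.e (nat_lit 2666) (nat_lit 167) .nil)))))))) (.g (nat_lit 1) (.e (nat_lit 216135) (nat_lit 0) .nil) .nil))) 
(.lf (nat_lit 517760) (.g (nat_lit 1865) (.e (nat_lit 196666) (nat_lit 13) (.e (nat_lit 65617) (nat_lit 10) (.e (nat_lit 344127) (nat_lit 26) (.e (nat_lit 557090) (nat_lit 12) (.e (nat_lit 163843) (nat_lit 0) .nil))))) (.g (nat_lit 0) (.e (nat_lit 216847) (nat_lit 0) .nil) .nil)))) (.nd (nat_lit 9) 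
(.lf (nat_lit 517504) (.g (nat_lit 3377) (.e (nat_lit 196666) (nat_lit 13) (.e (nat_lit 65610) (nat_lit 10) (.e (nat_lit 344117) (nat_lit 21) (.e (nat_lit 516185) (nat_lit 16) (.e (nat_lit 491530) (nat_lit 0) (.e (nat_lit 7936) (nat_lit 357) (.e (nat_lit 2668) (nat_lit 167) .nil))))))) (.g (nat_lit 1) (.e (nat_lit 216465) (nat_lit 0) .nil) .nil))) 
(.lf (nat_lit 518016) (.g (nat_lit 3412) (.e (nat_lit 196666) (nat_lit 13) (.e (nat_lit 65619) (nat_lit 10) (.e (nat_lit 344117) (nat_lit 21) (.e (nat_lit 516139) (nat_lit 7) (.e (nat_lit 409623) (nat_lit 10) (.e (nat_lit 5664) (nat_lit 312) (.e (nat_lit 2661) (nat_lit 167) .nil))))))) (.g (nat_lit 1) (.e (nat_lit 217136) (nat_lit 0) .nil) .nil)))))) 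
(.nd (nat_lit 7) (.nd (nat_lit 8) (.nd (nat_lit 9) 
(.lf (nat_lit 517184) (.g (nat_lit 4418) (.e (nat_lit 196666) (nat_lit 13) (.e (nat_lit 65610) (nat_lit 10) (.e (nat_lit 344117) (nat_lit 21) (.e (nat_lit 516151) (nat_lit 9) (.e (nat_lit 426038) (nat_lit 0) (.e (nat_lit 3369) (nat_lit 208) (.e (nat_lit 622620) (nat_lit 13) (.e (nat_lit 2663) (nat_lit 167) .nil)))))))) (.g (nat_lit 1) (.e (nat_lit 216071) (nat_lit 0) .nil) .nil))) 
(.lf (nat_lit 517696) (.g (nat_lit 3555) (.e (nat_lit 196666) (nat_lit 13) (.e (nat_lit 65610) (nat_lit 10) (.e (nat_lit 344129) (nat_lit 26) (.e (nat_lit 557094) (nat_lit 12) (.e (nat_lit 164022) (nat_lit 46) .nil))))) (.g (nat_lit 0) (.e (nat_lit 216765) (nat_lit 0) .nil) .nil)))) (.nd (nat_lit 9) 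
(.lf (nat_lit 517440) (.g (nat_lit 3589) (.e (nat_lit 196666) (nat_lit 13) (.e (nat_lit 65610) (nat_lit 10) (.e (nat_lit 344117) (nat_lit 21) (.e (nat_lit 516159) (nat_lit 10) (.e (nat_lit 434275) (nat_lit 39) (.e (nat_lit 663552) (nat_lit 0) (.e (nat_lit 164) (nat_lit 11) .nil))))))) (.g (nat_lit 1) (.e (nat_lit 216363) (nat_lit 0) .nil) .nil))) 
(.lf (nat_lit 517952) (.g (nat_lit 2594) (.e (nat_lit 196666) (nat_lit 13) (.e (nat_lit 65617) (nat_lit 10) (.e (nat_lit 344133) (nat_lit 26) (.e (nat_lit 557089) (nat_lit 12) (.e (nat_lit 163843) (nat_lit 0) (.e (nat_lit 6252) (nat_lit 337) (.e (nat_lit 2630) (nat_lit 164) (.e (nat_lit 172062) (nat_lit 2) .nil)))))))) (.g (nat_lit 1) (.e (nat_lit 217066) (nat_lit 0) .nil) .nil))))) 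
(.nd (nat_lit 8) (.nd (nat_lit 9) 
(.lf (nat_lit 517312) (.g (nat_lit 4692) (.e (nat_lit 196666) (nat_lit 13) (.e (nat_lit 65610) (nat_lit 10) (.e (nat_lit 344117) (nat_lit 21) (.e (nat_lit 516151) (nat_lit 9) (.e (nat_lit 426045) (nat_lit 0) (.e (nat_lit 3369) (nat_lit 208) (.e (nat_lit 622625) (nat_lit 13) (.e (nat_lit 2663) (nat_lit 167) .nil)))))))) (.g (nat_lit 1) (.e (nat_lit 216199) (nat_lit 0) .nil) .nil))) 
(.lf (nat_lit 517824) (.g (nat_lit 2795) (.e (nat_lit 196666) (nat_lit 13) (.e (nat_lit 65617) (nat_lit 10) (.e (nat_lit 344130) (nat_lit 26) (.e (nat_lit 557067) (nat_lit 9) (.e (nat_lit 22) (nat_lit 0) (.e (nat_lit 6234) (nat_lit 335) (.e (nat_lit 164359) (nat_lit 246) (.e (nat_lit 2661) (nat_lit 167) .nil)))))))) (.g (nat_lit 1) (.e (nat_lit 216916) (nat_lit 0) .nil) .nil)))) (.nd (nat_lit 9) 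
(.lf (nat_lit 517568) (.g (nat_lit 1563) (.e (nat_lit 196666) (nat_lit 13) (.e (nat_lit 65610) (nat_lit 10) (.e (nat_lit 344129) (nat_lit 26) (.e (nat_lit 557074) (nat_lit 9) (.e (nat_lit 2742) (nat_lit 174) .nil))))) (.g (nat_lit 0) (.e (nat_lit 216580) (nat_lit 0) .nil) .nil))) 
(.lf (nat_lit 518080) (.g (nat_lit 1613) (.e (nat_lit 196666) (nat_lit 13) (.e (nat_lit 65630) (nat_lit 14) (.e (nat_lit 401424) (nat_lit 2) (.e (nat_lit 196668) (nat_lit 14) .nil)))) (.g (nat_lit 0) (.e (nat_lit 217239) (nat_lit 0) .nil) .nil))))))) (.nd (nat_lit 6) (.nd (nat_lit 7) (.nd (nat_lit 8) (.nd (nat_lit 9) 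
(.lf (nat_lit 517152) (.g (nat_lit 3897) (.e (nat_lit 196666) (nat_lit 13) (.e (nat_lit 65610) (nat_lit 10) (.e (nat_lit 344117) (nat_lit 21) (.e (nat_lit 516151) (nat_lit 9) (.e (nat_lit 426038) (nat_lit 0) (.e (nat_lit 2423) (nat_lit 157) (.e (nat_lit 4818) (nat_lit 281) (.e (nat_lit 2477) (nat_lit 157) (.e (nat_lit 2663) (nat_lit 167) .nil))))))))) (.g (nat_lit 1) (.e (nat_lit 216039) (nat_lit 0) .nil) .nil))) 
(.lf (nat_lit 517664) (.g (nat_lit 3384) (.e (nat_lit 196666) (nat_lit 13) (.e (nat_lit 65610) (nat_lit 10) (.e (nat_lit 344129) (nat_lit 26) (.e (nat_lit 557090) (nat_lit 12) (.e (nat_lit 163848) (nat_lit 0) (.e (nat_lit 6418) (nat_lit 341) (.e (nat_lit 163900) (nat_lit 12) (.e (nat_lit 426125) (nat_lit 2) .nil)))))))) (.g (nat_lit 1) (.e (nat_lit 216730) (nat_lit 0) .nil) .nil)))) 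
(.nd (nat_lit 9) 
(.lf (nat_lit 517408) (.g (nat_lit 3541) (.e (nat_lit 196666) (nat_lit 13) (.e (nat_lit 65610) (nat_lit 10) (.e (nat_lit 344117) (nat_lit 21) (.e (nat_lit 516151) (nat_lit 9) (.e (nat_lit 426047) (nat_lit 0) (.e (nat_lit 3370) (nat_lit 208) (.e (nat_lit 622622) (nat_lit 13) (.e (nat_lit 2668) (nat_lit 167) .nil)))))))) (.g (nat_lit 1) (.e (nat_lit 216295) (nat_lit 0) .nil) .nil))) 
(.lf (nat_lit 517920) (.g (nat_lit 1405) (.e (nat_lit 196666) (nat_lit 13) (.e (nat_lit 65617) (nat_lit 10) (.e (nat_lit 344132) (nat_lit 26) (.e (nat_lit 557091) (nat_lit 12) .nil)))) (.g (nat_lit 0) (.e (nat_lit 217029) (nat_lit 0) .nil) .nil))))) (.nd (nat_lit 8) (.nd (nat_lit 9) 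
(.lf (nat_lit 517280) (.g (nat_lit 2993) (.e (nat_lit 196666) (nat_lit 13) (.e (nat_lit 65610) (nat_lit 10) (.e (nat_lit 344117) (nat_lit 21) (.e (nat_lit 516151) (nat_lit 9) (.e (nat_lit 426042) (nat_lit 0) (.e (nat_lit 3370) (nat_lit 208) (.e (nat_lit 630528) (nat_lit 13) (.e (nat_lit 2666) (nat_lit 167) .nil)))))))) (.g (nat_lit 1) (.e (nat_lit 216167) (nat_lit 0) .nil) .nil))) 
(.lf (nat_lit 517792) (.g (nat_lit 2530) (.e (nat_lit 196666) (nat_lit 13) (.e (nat_lit 65617) (nat_lit 10) (.e (nat_lit 344127) (nat_lit 26) (.e (nat_lit 557090) (nat_lit 12) (.e (nat_lit 164016) (nat_lit 44) (.e (nat_lit 688138) (nat_lit 5) (.e (nat_lit 2883) (nat_lit 184) (.e (nat_lit 426125) (nat_lit 2) .nil)))))))) (.g (nat_lit 1) (.e (nat_lit 216881) (nat_lit 0) .nil) .nil)))) 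
(.nd (nat_lit 9) 
(.lf (nat_lit 517536) (.g (nat_lit 2785) (.e (nat_lit 196666) (nat_lit 13) (.e (nat_lit 65610) (nat_lit 10) (.e (nat_lit 344129) (nat_lit 26) (.e (nat_lit 557067) (nat_lit 9) (.e (nat_lit 20) (nat_lit 0) (.e (nat_lit 6233) (nat_lit 335) (.e (nat_lit 164359) (nat_lit 246) (.e (nat_lit 2661) (nat_lit 167) .nil)))))))) (.g (nat_lit 1) (.e (nat_lit 216527) (nat_lit 0) .nil) .nil))) 
(.lf (nat_lit 518048) (.g (nat_lit 2172) (.e (nat_lit 196666) (nat_lit 13) (.e (nat_lit 65624) (nat_lit 12) (.e (nat_lit 385068) (nat_lit 26) (.e (nat_lit 532509) (nat_lit 2) .nil)))) (.g (nat_lit 0) (.e (nat_lit 217183) (nat_lit 0) .nil) .nil)))))) (.nd (nat_lit 7) (.nd (nat_lit 8) (.nd (nat_lit 9) 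
(.lf (nat_lit 517216) (.g (nat_lit 4922) (.e (nat_lit 196666) (nat_lit 13) (.e (nat_lit 65610) (nat_lit 10) (.e (nat_lit 344117) (nat_lit 21) (.e (nat_lit 516151) (nat_lit 9) (.e (nat_lit 426040) (nat_lit 0) (.e (nat_lit 2423) (nat_lit 157) (.e (nat_lit 4849) (nat_lit 285) (.e (nat_lit 163870) (nat_lit 2) .nil)))))))) (.g (nat_lit 1) (.e (nat_lit 216103) (nat_lit 0) .nil) .nil))) 
(.lf (nat_lit 517728) (.g (nat_lit 3544) (.e (nat_lit 196666) (nat_lit 13) (.e (nat_lit 65617) (nat_lit 10) (.e (nat_lit 344117) (nat_lit 21) (.e (nat_lit 516106) (nat_lit 0) (.e (nat_lit 6986) (nat_lit 377) (.e (nat_lit 2819) (nat_lit 181) (.e (nat_lit 311312) (nat_lit 2) .nil))))))) (.g (nat_lit 1) (.e (nat_lit 216804) (nat_lit 0) .nil) .nil)))) (.nd (nat_lit 9) 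
(.lf (nat_lit 517472) (.g (nat_lit 2681) (.e (nat_lit 196666) (nat_lit 13) (.e (nat_lit 65610) (nat_lit 10) (.e (nat_lit 344117) (nat_lit 21) (.e (nat_lit 516160) (nat_lit 10) (.e (nat_lit 434275) (nat_lit 39) (.e (nat_lit 663561) (nat_lit 0) (.e (nat_lit 7936) (nat_lit 11) .nil))))))) (.g (nat_lit 1) (.e (nat_lit 216425) (nat_lit 0) .nil) .nil))) 
(.lf (nat_lit 517984) (.g (nat_lit 4497) (.e (nat_lit 196666) (nat_lit 13) (.e (nat_lit 65617) (nat_lit 10) (.e (nat_lit 344133) (nat_lit 26) (.e (nat_lit 557091) (nat_lit 12) (.e (nat_lit 164018) (nat_lit 45) (.e (nat_lit 696330) (nat_lit 5) (.e (nat_lit 2884) (nat_lit 184) (.e (nat_lit 426125) (nat_lit 2) .nil)))))))) (.g (nat_lit 1) (.e (nat_lit 217098) (nat_lit 0) .nil) .nil))))) 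
(.nd (nat_lit 8) (.nd (nat_lit 9) 
(.lf (nat_lit 517344) (.g (nat_lit 3986) (.e (nat_lit 196666) (nat_lit 13) (.e (nat_lit 65610) (nat_lit 10) (.e (nat_lit 344117) (nat_lit 21) (.e (nat_lit 516151) (nat_lit 9) (.e (nat_lit 426050) (nat_lit 0) (.e (nat_lit 2449) (nat_lit 157) (.e (nat_lit 7936) (nat_lit 285) (.e (nat_lit 163870) (nat_lit 2) .nil)))))))) (.g (nat_lit 1) (.e (nat_lit 216231) (nat_lit 0) .nil) .nil))) 
(.lf (nat_lit 517856) (.g (nat_lit 4272) (.e (nat_lit 196666) (nat_lit 13) (.e (nat_lit 65617) (nat_lit 10) (.e (nat_lit 344130) (nat_lit 26) (.e (nat_lit 557089) (nat_lit 12) (.e (nat_lit 164020) (nat_lit 45) (.e (nat_lit 696327) (nat_lit 5) (.e (nat_lit 2884) (nat_lit 184) (.e (nat_lit 426125) (nat_lit 2) .nil)))))))) (.g (nat_lit 1) (.e (nat_lit 216960) (nat_lit 0) .nil) .nil)))) 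
(.nd (nat_lit 9) 
(.lf (nat_lit 517600) (.g (nat_lit 2554) (.e (nat_lit 196666) (nat_lit 13) (.e (nat_lit 65610) (nat_lit 10) (.e (nat_lit 344129) (nat_lit 26) (.e (nat_lit 557088) (nat_lit 12) (.e (nat_lit 164020) (nat_lit 45) (.e (nat_lit 696343) (nat_lit 8) (.e (nat_lit 172064) (nat_lit 2) .nil))))))) (.g (nat_lit 1) (.e (nat_lit 216645) (nat_lit 0) .nil) .nil))) 
(.lf (nat_lit 518112) (.g (nat_lit 642) (.e (nat_lit 196668) (nat_lit 14) (.e (nat_lit 73746) (nat_lit 3) (.e (nat_lit 516115) (nat_lit 1) .nil))) (.g (nat_lit 0) (.e (nat_lit 217314) (nat_lit 0) .nil) .nil)))))))) (.nd (nat_lit 5) (.nd (nat_lit 6) (.nd (nat_lit 7) (.nd (nat_lit 8) (.nd (nat_lit 9) 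
(.lf (nat_lit 517136) (.g (nat_lit 3229) (.e (nat_lit 196666) (nat_lit 13) (.e (nat_lit 65610) (nat_lit 10) (.e (nat_lit 344117) (nat_lit 21) (.e (nat_lit 516151) (nat_lit 9) (.e (nat_lit 426038) (nat_lit 0) (.e (nat_lit 2416) (nat_lit 157) (.e (nat_lit 4778) (nat_lit 281) (.e (nat_lit 2445) (nat_lit 157) (.e (nat_lit 2668) (nat_lit 167) .nil))))))))) (.g (nat_lit 1) (.e (nat_lit 216023) (nat_lit 0) .nil) .nil))) 
(.lf (nat_lit 517648) (.g (nat_lit 3681) (.e (nat_lit 196666) (nat_lit 13) (.e (nat_lit 65610) (nat_lit 10) (.e (nat_lit 344129) (nat_lit 26) (.e (nat_lit 557090) (nat_lit 12) (.e (nat_lit 163843) (nat_lit 0) (.e (nat_lit 6420) (nat_lit 341) (.e (nat_lit 171776) (nat_lit 12) (.e (nat_lit 426123) (nat_lit 2) .nil)))))))) (.g (nat_lit 1) (.e (nat_lit 216709) (nat_lit 0) .nil) .nil)))) 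
(.nd (nat_lit 9) 
(.lf (nat_lit 517392) (.g (nat_lit 3764) (.e (nat_lit 196666) (nat_lit 13) (.e (nat_lit 65610) (nat_lit 10) (.e (nat_lit 344117) (nat_lit 21) (.e (nat_lit 516151) (nat_lit 9) (.e (nat_lit 426047) (nat_lit 0) (.e (nat_lit 3366) (nat_lit 208) (.e (nat_lit 622622) (nat_lit 13) (.e (nat_lit 2662) (nat_lit 167) .nil)))))))) (.g (nat_lit 1) (.e (nat_lit 216279) (nat_lit 0) .nil) .nil))) 
(.lf (nat_lit 517904) (.g (nat_lit 2005) (.e (nat_lit 196666) (nat_lit 13) (.e (nat_lit 65617) (nat_lit 10) (.e (nat_lit 344130) (nat_lit 26) (.e (nat_lit 557090) (nat_lit 12) (.e (nat_lit 171776) (nat_lit 48) .nil))))) (.g (nat_lit 0) (.e (nat_lit 217010) (nat_lit 0) .nil) .nil))))) (.nd (nat_lit 8) (.nd (nat_lit 9) 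
(.lf (nat_lit 517264) (.g (nat_lit 3055) (.e (nat_lit 196666) (nat_lit 13) (.e (nat_lit 65610) (nat_lit 10) (.e (nat_lit 344117) (nat_lit 21) (.e (nat_lit 516151) (nat_lit 9) (.e (nat_lit 426042) (nat_lit 0) (.e (nat_lit 2423) (nat_lit 157) (.e (nat_lit 4848) (nat_lit 285) (.e (nat_lit 163866) (nat_lit 2) .nil)))))))) (.g (nat_lit 1) (.e (nat_lit 216151) (nat_lit 0) .nil) .nil))) 
(.lf (nat_lit 517776) (.g (nat_lit 2567) (.e (nat_lit 196666) (nat_lit 13) (.e (nat_lit 65617) (nat_lit 10) (.e (nat_lit 344127) (nat_lit 26) (.e (nat_lit 557090) (nat_lit 12) (.e (nat_lit 163847) (nat_lit 0) (.e (nat_lit 6416) (nat_lit 341) (.e (nat_lit 163900) (nat_lit 12) (.e (nat_lit 426125) (nat_lit 2) .nil)))))))) (.g (nat_lit 1) (.e (nat_lit 216864) (nat_lit 0) .nil) .nil)))) 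
(.nd (nat_lit 9) 
(.lf (nat_lit 517520) (.g (nat_lit 3420) (.e (nat_lit 196666) (nat_lit 13) (.e (nat_lit 65610) (nat_lit 10) (.e (nat_lit 344128) (nat_lit 26) (.e (nat_lit 557090) (nat_lit 12) (.e (nat_lit 164020) (nat_lit 45) (.e (nat_lit 696330) (nat_lit 5) (.e (nat_lit 2884) (nat_lit 184) (.e (nat_lit 426125) (nat_lit 2) .nil)))))))) (.g (nat_lit 1) (.e (nat_lit 216508) (nat_lit 0) .nil) .nil))) 
(.lf (nat_lit 518032) (.g (nat_lit 268) (.e (nat_lit 196666) (nat_lit 13) (.e (nat_lit 65622) (nat_lit 12) (.e (nat_lit 385074) (nat_lit 31) .nil))) (.g (nat_lit 0) (.e (nat_lit 217158) (nat_lit 0) .nil) .nil)))))) (.nd (nat_lit 7) (.nd (nat_lit 8) (.nd (nat_lit 9) 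
(.lf (nat_lit 517200) (.g (nat_lit 4033) (.e (nat_lit 196666) (nat_lit 13) (.e (nat_lit 65610) (nat_lit 10) (.e (nat_lit 344117) (nat_lit 21) (.e (nat_lit 516151) (nat_lit 9) (.e (nat_lit 426038) (nat_lit 0) (.e (nat_lit 3370) (nat_lit 208) (.e (nat_lit 622626) (nat_lit 13) (.e (nat_lit 2666) (nat_lit 167) .nil)))))))) (.g (nat_lit 1) (.e (nat_lit 216087) (nat_lit 0) .nil) .nil))) 
(.lf (nat_lit 517712) (.g (nat_lit 1147) (.e (nat_lit 196666) (nat_lit 13) (.e (nat_lit 65617) (nat_lit 10) (.e (nat_lit 344091) (nat_lit 18) (.e (nat_lit 3928) (nat_lit 239) .nil)))) (.g (nat_lit 0) (.e (nat_lit 216782) (nat_lit 0) .nil) .nil)))) (.nd (nat_lit 9) 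
(.lf (nat_lit 517456) (.g (nat_lit 2595) (.e (nat_lit 196666) (nat_lit 13) (.e (nat_lit 65610) (nat_lit 10) (.e (nat_lit 344117) (nat_lit 21) (.e (nat_lit 516160) (nat_lit 10) (.e (nat_lit 434208) (nat_lit 18) (.e (nat_lit 4751) (nat_lit 281) (.e (nat_lit 2513) (nat_lit 157) (.e (nat_lit 2664) (nat_lit 167) .nil)))))))) (.g (nat_lit 1) (.e (nat_lit 216395) (nat_lit 0) .nil) .nil))) 
(.lf (nat_lit 517968) (.g (nat_lit 3054) (.e (nat_lit 196666) (nat_lit 13) (.e (nat_lit 65617) (nat_lit 10) (.e (nat_lit 344133) (nat_lit 26) (.e (nat_lit 557091) (nat_lit 12) (.e (nat_lit 163840) (nat_lit 0) (.e (nat_lit 6255) (nat_lit 337) (.e (nat_lit 2630) (nat_lit 164) (.e (nat_lit 172062) (nat_lit 2) .nil)))))))) (.g (nat_lit 1) (.e (nat_lit 217082) (nat_lit 0) .nil) .nil))))) 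
(.nd (nat_lit 8) (.nd (nat_lit 9) 
(.lf (nat_lit 517328) (.g (nat_lit 3598) (.e (nat_lit 196666) (nat_lit 13) (.e (nat_lit 65610) (nat_lit 10) (.e (nat_lit 344117) (nat_lit 21) (.e (nat_lit 516151) (nat_lit 9) (.e (nat_lit 426049) (nat_lit 0) (.e (nat_lit 2416) (nat_lit 157) (.e (nat_lit 4848) (nat_lit 285) (.e (nat_lit 163870) (nat_lit 2) .nil)))))))) (.g (nat_lit 1) (.e (nat_lit 216215) (nat_lit 0) .nil) .nil))) 
(.lf (nat_lit 517840) (.g (nat_lit 2583) (.e (nat_lit 196666) (nat_lit 13) (.e (nat_lit 65617) (nat_lit 10) (.e (nat_lit 344130) (nat_lit 26) (.e (nat_lit 557087) (nat_lit 11) (.e (nat_lit 24581) (nat_lit 0) (.e (nat_lit 6691) (nat_lit 357) (.e (nat_lit 2663) (nat_lit 167) .nil))))))) (.g (nat_lit 1) (.e (nat_lit 216943) (nat_lit 0) .nil) .nil)))) (.nd (nat_lit 9) 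
(.lf (nat_lit 517584) (.g (nat_lit 2341) (.e (nat_lit 196666) (nat_lit 13) (.e (nat_lit 65610) (nat_lit 10) (.e (nat_lit 344129) (nat_lit 26) (.e (nat_lit 557087) (nat_lit 11) (.e (nat_lit 24578) (nat_lit 0) (.e (nat_lit 7936) (nat_lit 357) (.e (nat_lit 2666) (nat_lit 167) .nil))))))) (.g (nat_lit 1) (.e (nat_lit 216627) (nat_lit 0) .nil) .nil))) 
(.lf (nat_lit 518096) (.g (nat_lit 641) (.e (nat_lit 196667) (nat_lit 14) (.e (nat_lit 73746) (nat_lit 3) (.e (nat_lit 516115) (nat_lit 1) .nil))) (.g (nat_lit 0) (.e (nat_lit 217272) (nat_lit 0) .nil) .nil))))))) (.nd (nat_lit 6) (.nd (nat_lit 7) (.nd (nat_lit 8) (.nd (nat_lit 9) 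
(.lf (nat_lit 517168) (.g (nat_lit 3810) (.e (nat_lit 196666) (nat_lit 13) (.e (nat_lit 65610) (nat_lit 10) (.e (nat_lit 344117) (nat_lit 21) (.e (nat_lit 516151) (nat_lit 9) (.e (nat_lit 426038) (nat_lit 0) (.e (nat_lit 2427) (nat_lit 157) (.e (nat_lit 4778) (nat_lit 281) (.e (nat_lit 2477) (nat_lit 157) (.e (nat_lit 2663) (nat_lit 167) .nil))))))))) (.g (nat_lit 1) (.e (nat_lit 216055) (nat_lit 0) .nil) .nil))) 
(.lf (nat_lit 517680) (.g (nat_lit 2744) (.e (nat_lit 196666) (nat_lit 13) (.e (nat_lit 65610) (nat_lit 10) (.e (nat_lit 344129) (nat_lit 26) (.e (nat_lit 557090) (nat_lit 12) (.e (nat_lit 164019) (nat_lit 45) (.e (nat_lit 696327) (nat_lit 5) (.e (nat_lit 2884) (nat_lit 184) (.e (nat_lit 426125) (nat_lit 2) .nil)))))))) (.g (nat_lit 1) (.e (nat_lit 216749) (nat_lit 0) .nil) .nil)))) 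
(.nd (nat_lit 9) 
(.lf (nat_lit 517424) (.g (nat_lit 2968) (.e (nat_lit 196666) (nat_lit 13) (.e (nat_lit 65610) (nat_lit 10) (.e (nat_lit 344117) (nat_lit 21) (.e (nat_lit 516151) (nat_lit 9) (.e (nat_lit 426142) (nat_lit 4) (.e (nat_lit 229610) (nat_lit 215) (.e (nat_lit 2477) (nat_lit 157) (.e (nat_lit 2666) (nat_lit 167) .nil)))))))) (.g (nat_lit 1) (.e (nat_lit 216311) (nat_lit 0) .nil) .nil))) 
(.lf (nat_lit 517936) (.g (nat_lit 2028) (.e (nat_lit 196666) (nat_lit 13) (.e (nat_lit 65617) (nat_lit 10) (.e (nat_lit 344133) (nat_lit 26) (.e (nat_lit 557065) (nat_lit 9) (.e (nat_lit 230) (nat_lit 21) .nil))))) (.g (nat_lit 0) (.e (nat_lit 217046) (nat_lit 0) .nil) .nil))))) (.nd (nat_lit 8) (.nd (nat_lit 9) 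
(.lf (nat_lit 517296) (.g (nat_lit 4196) (.e (nat_lit 196666) (nat_lit 13) (.e (nat_lit 65610) (nat_lit 10) (.e (nat_lit 344117) (nat_lit 21) (.e (nat_lit 516151) (nat_lit 9) (.e (nat_lit 426045) (nat_lit 0) (.e (nat_lit 2423) (nat_lit 157) (.e (nat_lit 4849) (nat_lit 285) (.e (nat_lit 163870) (nat_lit 2) .nil)))))))) (.g (nat_lit 1) (.e (nat_lit 216183) (nat_lit 0) .nil) .nil))) 
(.lf (nat_lit 517808) (.g (nat_lit 3320) (.e (nat_lit 196666) (nat_lit 13) (.e (nat_lit 65617) (nat_lit 10) (.e (nat_lit 344128) (nat_lit 26) (.e (nat_lit 557090) (nat_lit 12) (.e (nat_lit 164020) (nat_lit 45) (.e (nat_lit 696329) (nat_lit 5) (.e (nat_lit 2884) (nat_lit 184) (.e (nat_lit 426125) (nat_lit 2) .nil)))))))) (.g (nat_lit 1) (.e (nat_lit 216899) (nat_lit 0) .nil) .nil)))) 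
(.nd (nat_lit 9) 
(.lf (nat_lit 517552) (.g (nat_lit 2232) (.e (nat_lit 196666) (nat_lit 13) (.e (nat_lit 65610) (nat_lit 10) (.e (nat_lit 344129) (nat_lit 26) (.e (nat_lit 557067) (nat_lit 9) (.e (nat_lit 2472) (nat_lit 157) (.e (nat_lit 3467) (nat_lit 217) (.e (nat_lit 696344) (nat_lit 8) (.e (nat_lit 172064) (nat_lit 2) .nil)))))))) (.g (nat_lit 1) (.e (nat_lit 216556) (nat_lit 0) .nil) .nil))) 
(.lf (nat_lit 518064) (.g (nat_lit 2792) (.e (nat_lit 196666) (nat_lit 13) (.e (nat_lit 65628) (nat_lit 14) (.e (nat_lit 401425) (nat_lit 2) (.e (nat_lit 196666) (nat_lit 13) (.e (nat_lit 65540) (nat_lit 0) .nil))))) (.g (nat_lit 0) (.e (nat_lit 217220) (nat_lit 0) .nil) .nil)))))) (.nd (nat_lit 7) (.nd (nat_lit 8) (.nd (nat_lit 9) 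
(.lf (nat_lit 517232) (.g (nat_lit 3254) (.e (nat_lit 196666) (nat_lit 13) (.e (nat_lit 65610) (nat_lit 10) (.e (nat_lit 344117) (nat_lit 21) (.e (nat_lit 516151) (nat_lit 9) (.e (nat_lit 426040) (nat_lit 0) (.e (nat_lit 3366) (nat_lit 208) (.e (nat_lit 630528) (nat_lit 13) (.e (nat_lit 2666) (nat_lit 167) .nil)))))))) (.g (nat_lit 1) (.e (nat_lit 216119) (nat_lit 0) .nil) .nil))) 
(.lf (nat_lit 517744) (.g (nat_lit 1464) (.e (nat_lit 196666) (nat_lit 13) (.e (nat_lit 65617) (nat_lit 10) (.e (nat_lit 344119) (nat_lit 21) (.e (nat_lit 516139) (nat_lit 7) (.e (nat_lit 409650) (nat_lit 19) .nil))))) (.g (nat_lit 0) (.e (nat_lit 216820) (nat_lit 0) .nil) .nil)))) (.nd (nat_lit 9) 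
(.lf (nat_lit 517488) (.g (nat_lit 3660) (.e (nat_lit 196666) (nat_lit 13) (.e (nat_lit 65610) (nat_lit 10) (.e (nat_lit 344117) (nat_lit 21) (.e (nat_lit 516160) (nat_lit 10) (.e (nat_lit 434279) (nat_lit 39) (.e (nat_lit 663555) (nat_lit 0) (.e (nat_lit 7936) (nat_lit 11) .nil))))))) (.g (nat_lit 1) (.e (nat_lit 216442) (nat_lit 0) .nil) .nil))) 
(.lf (nat_lit 518000) (.g (nat_lit 2429) (.e (nat_lit 196666) (nat_lit 13) (.e (nat_lit 65617) (nat_lit 10) (.e (nat_lit 344133) (nat_lit 26) (.e (nat_lit 557093) (nat_lit 12) (.e (nat_lit 164023) (nat_lit 46) .nil))))) (.g (nat_lit 0) (.e (nat_lit 217114) (nat_lit 0) .nil) .nil))))) (.nd (nat_lit 8) (.nd (nat_lit 9) 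
(.lf (nat_lit 517360) (.g (nat_lit 3191) (.e (nat_lit 196666) (nat_lit 13) (.e (nat_lit 65610) (nat_lit 10) (.e (nat_lit 344117) (nat_lit 21) (.e (nat_lit 516151) (nat_lit 9) (.e (nat_lit 426047) (nat_lit 0) (.e (nat_lit 2422) (nat_lit 157) (.e (nat_lit 4778) (nat_lit 281) (.e (nat_lit 2444) (nat_lit 157) (.e (nat_lit 2668) (nat_lit 167) .nil))))))))) (.g (nat_lit 1) (.e (nat_lit 216247) (nat_lit 0) .nil) .nil))) 
(.lf (nat_lit 517872) (.g (nat_lit 2985) (.e (nat_lit 196666) (nat_lit 13) (.e (nat_lit 65617) (nat_lit 10) (.e (nat_lit 344130) (nat_lit 26) (.e (nat_lit 557090) (nat_lit 12) (.e (nat_lit 163844) (nat_lit 0) (.e (nat_lit 6255) (nat_lit 337) (.e (nat_lit 2622) (nat_lit 164) (.e (nat_lit 172062) (nat_lit 2) .nil)))))))) (.g (nat_lit 1) (.e (nat_lit 216977) (nat_lit 0) .nil) .nil)))) 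
(.nd (nat_lit 9) 
(.lf (nat_lit 517616) (.g (nat_lit 3020) (.e (nat_lit 196666) (nat_lit 13) (.e (nat_lit 65610) (nat_lit 10) (.e (nat_lit 344129) (nat_lit 26) (.e (nat_lit 557089) (nat_lit 12) (.e (nat_lit 163850) (nat_lit 0) (.e (nat_lit 6425) (nat_lit 342) (.e (nat_lit 237312) (nat_lit 12) (.e (nat_lit 426123) (nat_lit 2) .nil)))))))) (.g (nat_lit 1) (.e (nat_lit 216664) (nat_lit 0) .nil) .nil))) 
(.lf (nat_lit 518128) (.g (nat_lit 1450) (.e (nat_lit 196668) (nat_lit 14) (.e (nat_lit 73746) (nat_lit 3) (.e (nat_lit 516117) (nat_lit 1) (.e (nat_lit 164158) (nat_lit 152) (.e (nat_lit 1288) (nat_lit 95) .nil))))) (.g (nat_lit 0) (.e (nat_lit 217374) (nat_lit 0) .nil) .nil))))))))) (.nd (nat_lit 4) (.nd (nat_lit 5) (.nd (nat_lit 6) (.nd (nat_lit 7) (.nd (nat_lit 8) (.nd (nat_lit 9) 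
(.lf (nat_lit 517128) (.g (nat_lit 3237) (.e (nat_lit 196666) (nat_lit 13) (.e (nat_lit 65610) (nat_lit 10) (.e (nat_lit 344117) (nat_lit 21) (.e (nat_lit 516151) (nat_lit 9) (.e (nat_lit 426037) (nat_lit 0) (.e (nat_lit 3370) (nat_lit 208) (.e (nat_lit 622622) (nat_lit 13) (.e (nat_lit 2662) (nat_lit 167) .nil)))))))) (.g (nat_lit 1) (.e (nat_lit 216015) (nat_lit 0) .nil) .nil))) 
(.lf (nat_lit 517640) (.g (nat_lit 2620) (.e (nat_lit 196666) (nat_lit 13) (.e (nat_lit 65610) (nat_lit 10) (.e (nat_lit 344129) (nat_lit 26) (.e (nat_lit 557090) (nat_lit 12) (.e (nat_lit 163843) (nat_lit 0) (.e (nat_lit 6250) (nat_lit 337) (.e (nat_lit 2725) (nat_lit 172) (.e (nat_lit 237589) (nat_lit 2) .nil)))))))) (.g (nat_lit 1) (.e (nat_lit 216698) (nat_lit 0) .nil) .nil)))) 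
(.nd (nat_lit 9) 
(.lf (nat_lit 517384) (.g (nat_lit 3481) (.e (nat_lit 196666) (nat_lit 13) (.e (nat_lit 65610) (nat_lit 10) (.e (nat_lit 344117) (nat_lit 21) (.e (nat_lit 516151) (nat_lit 9) (.e (nat_lit 426047) (nat_lit 0) (.e (nat_lit 2426) (nat_lit 157) (.e (nat_lit 4778) (nat_lit 281) (.e (nat_lit 2444) (nat_lit 157) (.e (nat_lit 2668) (nat_lit 167) .nil))))))))) (.g (nat_lit 1) (.e (nat_lit 216271) (nat_lit 0) .nil) .nil))) 
(.lf (nat_lit 517896) (.g (nat_lit 4995) (.e (nat_lit 196666) (nat_lit 13) (.e (nat_lit 65617) (nat_lit 10) (.e (nat_lit 344130) (nat_lit 26) (.e (nat_lit 557090) (nat_lit 12) (.e (nat_lit 164020) (nat_lit 45) (.e (nat_lit 696344) (nat_lit 8) (.e (nat_lit 172062) (nat_lit 2) .nil))))))) (.g (nat_lit 1) (.e (nat_lit 217001) (nat_lit 0) .nil) .nil))))) (.nd (nat_lit 8) (.nd (nat_lit 9) 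
(.lf (nat_lit 517256) (.g (nat_lit 2525) (.e (nat_lit 196666) (nat_lit 13) (.e (nat_lit 65610) (nat_lit 10) (.e (nat_lit 344117) (nat_lit 21) (.e (nat_lit 516151) (nat_lit 9) (.e (nat_lit 426042) (nat_lit 0) (.e (nat_lit 2416) (nat_lit 157) (.e (nat_lit 4850) (nat_lit 286) (.e (nat_lit 229387) (nat_lit 2) .nil)))))))) (.g (nat_lit 1) (.e (nat_lit 216143) (nat_lit 0) .nil) .nil))) 
(.lf (nat_lit 517768) (.g (nat_lit 2779) (.e (nat_lit 196666) (nat_lit 13) (.e (nat_lit 65617) (nat_lit 10) (.e (nat_lit 344127) (nat_lit 26) (.e (nat_lit 557090) (nat_lit 12) (.e (nat_lit 163844) (nat_lit 0) (.e (nat_lit 6255) (nat_lit 337) (.e (nat_lit 2622) (nat_lit 164) (.e (nat_lit 172062) (nat_lit 2) .nil)))))))) (.g (nat_lit 1) (.e (nat_lit 216856) (nat_lit 0) .nil) .nil)))) 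
(.nd (nat_lit 9) 
(.lf (nat_lit 517512) (.g (nat_lit 2574) (.e (nat_lit 196666) (nat_lit 13) (.e (nat_lit 65610) (nat_lit 10) (.e (nat_lit 344126) (nat_lit 25) (.e (nat_lit 548889) (nat_lit 9) (.e (nat_lit 65541) (nat_lit 0) .nil))))) (.g (nat_lit 0) (.e (nat_lit 216497) (nat_lit 0) .nil) .nil))) 
(.lf (nat_lit 518024) (.g (nat_lit 2710) (.e (nat_lit 196666) (nat_lit 13) (.e (nat_lit 65619) (nat_lit 10) (.e (nat_lit 344129) (nat_lit 26) (.e (nat_lit 557087) (nat_lit 11) (.e (nat_lit 24584) (nat_lit 0) .nil))))) (.g (nat_lit 0) (.e (nat_lit 217144) (nat_lit 0) .nil) .nil)))))) (.nd (nat_lit 7) (.nd (nat_lit 8) (.nd (nat_lit 9) 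
(.lf (nat_lit 517192) (.g (nat_lit 4438) (.e (nat_lit 196666) (nat_lit 13) (.e (nat_lit 65610) (nat_lit 10) (.e (nat_lit 344117) (nat_lit 21) (.e (nat_lit 516151) (nat_lit 9) (.e (nat_lit 426038) (nat_lit 0) (.e (nat_lit 3369) (nat_lit 208) (.e (nat_lit 622627) (nat_lit 13) (.e (nat_lit 2663) (nat_lit 167) .nil)))))))) (.g (nat_lit 1) (.e (nat_lit 216079) (nat_lit 0) .nil) .nil))) 
(.lf (nat_lit 517704) (.g (nat_lit 3066) (.e (nat_lit 196666) (nat_lit 13) (.e (nat_lit 65610) (nat_lit 10) (.e (nat_lit 344131) (nat_lit 26) (.e (nat_lit 557090) (nat_lit 12) (.e (nat_lit 164020) (nat_lit 45) (.e (nat_lit 696344) (nat_lit 8) (.e (nat_lit 172062) (nat_lit 2) .nil))))))) (.g (nat_lit 1) (.e (nat_lit 216773) (nat_lit 0) .nil) .nil)))) (.nd (nat_lit 9) 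
(.lf (nat_lit 517448) (.g (nat_lit 3332) (.e (nat_lit 196666) (nat_lit 13) (.e (nat_lit 65610) (nat_lit 10) (.e (nat_lit 344117) (nat_lit 21) (.e (nat_lit 516159) (nat_lit 10) (.e (nat_lit 434276) (nat_lit 39) (.e (nat_lit 663552) (nat_lit 0) (.e (nat_lit 163) (nat_lit 11) .nil))))))) (.g (nat_lit 1) (.e (nat_lit 216371) (nat_lit 0) .nil) .nil))) 
(.lf (nat_lit 517960) (.g (nat_lit 4372) (.e (nat_lit 196666) (nat_lit 13) (.e (nat_lit 65617) (nat_lit 10) (.e (nat_lit 344133) (nat_lit 26) (.e (nat_lit 557089) (nat_lit 12) (.e (nat_lit 164020) (nat_lit 45) (.e (nat_lit 696344) (nat_lit 8) (.e (nat_lit 172062) (nat_lit 2) .nil))))))) (.g (nat_lit 1) (.e (nat_lit 217074) (nat_lit 0) .nil) .nil))))) (.nd (nat_lit 8) (.nd (nat_lit 9) 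
(.lf (nat_lit 517320) (.g (nat_lit 4850) (.e (nat_lit 196666) (nat_lit 13) (.e (nat_lit 65610) (nat_lit 10) (.e (nat_lit 344117) (nat_lit 21) (.e (nat_lit 516151) (nat_lit 9) (.e (nat_lit 426045) (nat_lit 0) (.e (nat_lit 3370) (nat_lit 208) (.e (nat_lit 622625) (nat_lit 13) (.e (nat_lit 2663) (nat_lit 167) .nil)))))))) (.g (nat_lit 1) (.e (nat_lit 216207) (nat_lit 0) .nil) .nil))) 
(.lf (nat_lit 517832) (.g (nat_lit 974) (.e (nat_lit 196666) (nat_lit 13) (.e (nat_lit 65617) (nat_lit 10) (.e (nat_lit 344130) (nat_lit 26) (.e (nat_lit 557084) (nat_lit 10) .nil)))) (.g (nat_lit 0) (.e (nat_lit 216934) (nat_lit 0) .nil) .nil)))) (.nd (nat_lit 9) 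
(.lf (nat_lit 517576) (.g (nat_lit 3268) (.e (nat_lit 196666) (nat_lit 13) (.e (nat_lit 65610) (nat_lit 10) (.e (nat_lit 344129) (nat_lit 26) (.e (nat_lit 557085) (nat_lit 11) (.e (nat_lit 24580) (nat_lit 0) (.e (nat_lit 6696) (nat_lit 357) (.e (nat_lit 2666) (nat_lit 167) .nil))))))) (.g (nat_lit 1) (.e (nat_lit 216619) (nat_lit 0) .nil) .nil))) 
(.lf (nat_lit 518088) (.g (nat_lit 2383) (.e (nat_lit 196666) (nat_lit 13) (.e (nat_lit 65630) (nat_lit 14) (.e (nat_lit 401425) (nat_lit 2) (.e (nat_lit 196667) (nat_lit 14) (.e (nat_lit 73781) (nat_lit 32) .nil))))) (.g (nat_lit 0) (.e (nat_lit 217250) (nat_lit 0) .nil) .nil))))))) (.nd (nat_lit 6) (.nd (nat_lit 7) (.nd (nat_lit 8) (.nd (nat_lit 9) 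
(.lf (nat_lit 517160) (.g (nat_lit 3855) (.e (nat_lit 196666) (nat_lit 13) (.e (nat_lit 65610) (nat_lit 10) (.e (nat_lit 344117) (nat_lit 21) (.e (nat_lit 516151) (nat_lit 9) (.e (nat_lit 426038) (nat_lit 0) (.e (nat_lit 2426) (nat_lit 157) (.e (nat_lit 4758) (nat_lit 281) (.e (nat_lit 2517) (nat_lit 157) (.e (nat_lit 2663) (nat_lit 167) .nil))))))))) (.g (nat_lit 1) (.e (nat_lit 216047) (nat_lit 0) .nil) .nil))) 
(.lf (nat_lit 517672) (.g (nat_lit 2692) (.e (nat_lit 196666) (nat_lit 13) (.e (nat_lit 65610) (nat_lit 10) (.e (nat_lit 344129) (nat_lit 26) (.e (nat_lit 557090) (nat_lit 12) (.e (nat_lit 163850) (nat_lit 0) (.e (nat_lit 6427) (nat_lit 342) (.e (nat_lit 237312) (nat_lit 12) (.e (nat_lit 426123) (nat_lit 2) .nil)))))))) (.g (nat_lit 1) (.e (nat_lit 216738) (nat_lit 0) .nil) .nil)))) 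
(.nd (nat_lit 9) 
(.lf (nat_lit 517416) (.g (nat_lit 3506) (.e (nat_lit 196666) (nat_lit 13) (.e (nat_lit 65610) (nat_lit 10) (.e (nat_lit 344117) (nat_lit 21) (.e (nat_lit 516151) (nat_lit 9) (.e (nat_lit 426047) (nat_lit 0) (.e (nat_lit 3371) (nat_lit 208) (.e (nat_lit 622624) (nat_lit 13) (.e (nat_lit 2668) (nat_lit 167) .nil)))))))) (.g (nat_lit 1) (.e (nat_lit 216303) (nat_lit 0) .nil) .nil))) 
(.lf (nat_lit 517928) (.g (nat_lit 3606) (.e (nat_lit 196666) (nat_lit 13) (.e (nat_lit 65617) (nat_lit 10) (.e (nat_lit 344132) (nat_lit 26) (.e (nat_lit 557093) (nat_lit 12) (.e (nat_lit 164022) (nat_lit 46) (.e (nat_lit 704629) (nat_lit 9) (.e (nat_lit 391) (nat_lit 32) (.e (nat_lit 426121) (nat_lit 2) .nil)))))))) (.g (nat_lit 1) (.e (nat_lit 217037) (nat_lit 0) .nil) .nil))))) 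
(.nd (nat_lit 8) (.nd (nat_lit 9) 
(.lf (nat_lit 517288) (.g (nat_lit 3737) (.e (nat_lit 196666) (nat_lit 13) (.e (nat_lit 65610) (nat_lit 10) (.e (nat_lit 344117) (nat_lit 21) (.e (nat_lit 516151) (nat_lit 9) (.e (nat_lit 426045) (nat_lit 0) (.e (nat_lit 2416) (nat_lit 157) (.e (nat_lit 4849) (nat_lit 285) (.e (nat_lit 163869) (nat_lit 2) .nil)))))))) (.g (nat_lit 1) (.e (nat_lit 216175) (nat_lit 0) .nil) .nil))) 
(.lf (nat_lit 517800) (.g (nat_lit 3079) (.e (nat_lit 196666) (nat_lit 13) (.e (nat_lit 65617) (nat_lit 10) (.e (nat_lit 344127) (nat_lit 26) (.e (nat_lit 557090) (nat_lit 12) (.e (nat_lit 164018) (nat_lit 45) (.e (nat_lit 696343) (nat_lit 8) (.e (nat_lit 172062) (nat_lit 2) .nil))))))) (.g (nat_lit 1) (.e (nat_lit 216891) (nat_lit 0) .nil) .nil)))) (.nd (nat_lit 9) 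
(.lf (nat_lit 517544) (.g (nat_lit 1924) (.e (nat_lit 196666) (nat_lit 13) (.e (nat_lit 65610) (nat_lit 10) (.e (nat_lit 344129) (nat_lit 26) (.e (nat_lit 557067) (nat_lit 9) (.e (nat_lit 2464) (nat_lit 157) .nil))))) (.g (nat_lit 0) (.e (nat_lit 216547) (nat_lit 0) .nil) .nil))) 
(.lf (nat_lit 518056) (.g (nat_lit 2573) (.e (nat_lit 196666) (nat_lit 13) (.e (nat_lit 65624) (nat_lit 12) (.e (nat_lit 385074) (nat_lit 31) (.e (nat_lit 573488) (nat_lit 14) (.e (nat_lit 81664) (nat_lit 32) .nil))))) (.g (nat_lit 0) (.e (nat_lit 217196) (nat_lit 0) .nil) .nil)))))) (.nd (nat_lit 7) (.nd (nat_lit 8) (.nd (nat_lit 9) 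
(.lf (nat_lit 517224) (.g (nat_lit 4092) (.e (nat_lit 196666) (nat_lit 13) (.e (nat_lit 65610) (nat_lit 10) (.e (nat_lit 344117) (nat_lit 21) (.e (nat_lit 516151) (nat_lit 9) (.e (nat_lit 426040) (nat_lit 0) (.e (nat_lit 2438) (nat_lit 157) (.e (nat_lit 4817) (nat_lit 281) (.e (nat_lit 2477) (nat_lit 157) (.e (nat_lit 2663) (nat_lit 167) .nil))))))))) (.g (nat_lit 1) (.e (nat_lit 216111) (nat_lit 0) .nil) .nil))) 
(.lf (nat_lit 517736) (.g (nat_lit 4399) (.e (nat_lit 196666) (nat_lit 13) (.e (nat_lit 65617) (nat_lit 10) (.e (nat_lit 344117) (nat_lit 21) (.e (nat_lit 516139) (nat_lit 7) (.e (nat_lit 409617) (nat_lit 10) (.e (nat_lit 5612) (nat_lit 312) (.e (nat_lit 2668) (nat_lit 167) .nil))))))) (.g (nat_lit 1) (.e (nat_lit 216812) (nat_lit 0) .nil) .nil)))) (.nd (nat_lit 9) 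
(.lf (nat_lit 517480) (.g (nat_lit 3081) (.e (nat_lit 196666) (nat_lit 13) (.e (nat_lit 65610) (nat_lit 10) (.e (nat_lit 344117) (nat_lit 21) (.e (nat_lit 516160) (nat_lit 10) (.e (nat_lit 434276) (nat_lit 39) (.e (nat_lit 663559) (nat_lit 0) (.e (nat_lit 7936) (nat_lit 11) .nil))))))) (.g (nat_lit 1) (.e (nat_lit 216434) (nat_lit 0) .nil) .nil))) 
(.lf (nat_lit 517992) (.g (nat_lit 4472) (.e (nat_lit 196666) (nat_lit 13) (.e (nat_lit 65617) (nat_lit 10) (.e (nat_lit 344133) (nat_lit 26) (.e (nat_lit 557091) (nat_lit 12) (.e (nat_lit 164022) (nat_lit 46) (.e (nat_lit 704628) (nat_lit 9) (.e (nat_lit 391) (nat_lit 32) (.e (nat_lit 426121) (nat_lit 2) .nil)))))))) (.g (nat_lit 1) (.e (nat_lit 217106) (nat_lit 0) .nil) .nil))))) 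
(.nd (nat_lit 8) (.nd (nat_lit 9) 
(.lf (nat_lit 517352) (.g (nat_lit 4731) (.e (nat_lit 196666) (nat_lit 13) (.e (nat_lit 65610) (nat_lit 10) (.e (nat_lit 344117) (nat_lit 21) (.e (nat_lit 516151) (nat_lit 9) (.e (nat_lit 426050) (nat_lit 0) (.e (nat_lit 3366) (nat_lit 208) (.e (nat_lit 622626) (nat_lit 13) (.e (nat_lit 2663) (nat_lit 167) .nil)))))))) (.g (nat_lit 1) (.e (nat_lit 216239) (nat_lit 0) .nil) .nil))) 
(.lf (nat_lit 517864) (.g (nat_lit 2332) (.e (nat_lit 196666) (nat_lit 13) (.e (nat_lit 65617) (nat_lit 10) (.e (nat_lit 344130) (nat_lit 26) (.e (nat_lit 557090) (nat_lit 12) (.e (nat_lit 163842) (nat_lit 0) .nil))))) (.g (nat_lit 0) (.e (nat_lit 216968) (nat_lit 0) .nil) .nil)))) (.nd (nat_lit 9) 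
(.lf (nat_lit 517608) (.g (nat_lit 3141) (.e (nat_lit 196666) (nat_lit 13) (.e (nat_lit 65610) (nat_lit 10) (.e (nat_lit 344129) (nat_lit 26) (.e (nat_lit 557089) (nat_lit 12) (.e (nat_lit 163844) (nat_lit 0) (.e (nat_lit 6420) (nat_lit 341) (.e (nat_lit 171776) (nat_lit 12) (.e (nat_lit 426123) (nat_lit 2) .nil)))))))) (.g (nat_lit 1) (.e (nat_lit 216654) (nat_lit 0) .nil) .nil))) 
(.lf (nat_lit 518120) (.g (nat_lit 3453) (.e (nat_lit 196668) (nat_lit 14) (.e (nat_lit 73746) (nat_lit 3) (.e (nat_lit 516115) (nat_lit 1) (.e (nat_lit 164179) (nat_lit 154) (.e (nat_lit 57378) (nat_lit 3) (.e (nat_lit 98340) (nat_lit 20) (.e (nat_lit 221212) (nat_lit 22) .nil))))))) (.g (nat_lit 1) (.e (nat_lit 217342) (nat_lit 0) .nil) .nil)))))))) 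
(.nd (nat_lit 5) (.nd (nat_lit 6) (.nd (nat_lit 7) (.nd (nat_lit 8) (.nd (nat_lit 9) 
(.lf (nat_lit 517144) (.g (nat_lit 4378) (.e (nat_lit 196666) (nat_lit 13) (.e (nat_lit 65610) (nat_lit 10) (.e (nat_lit 344117) (nat_lit 21) (.e (nat_lit 516151) (nat_lit 9) (.e (nat_lit 426038) (nat_lit 0) (.e (nat_lit 2422) (nat_lit 157) (.e (nat_lit 4848) (nat_lit 285) (.e (nat_lit 163869) (nat_lit 2) .nil)))))))) (.g (nat_lit 1) (.e (nat_lit 216031) (nat_lit 0) .nil) .nil))) 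
(.lf (nat_lit 517656) (.g (nat_lit 4099) (.e (nat_lit 196666) (nat_lit 13) (.e (nat_lit 65610) (nat_lit 10) (.e (nat_lit 344129) (nat_lit 26) (.e (nat_lit 557090) (nat_lit 12) (.e (nat_lit 163847) (nat_lit 0) (.e (nat_lit 6254) (nat_lit 337) (.e (nat_lit 2725) (nat_lit 172) (.e (nat_lit 237589) (nat_lit 2) .nil)))))))) (.g (nat_lit 1) (.e (nat_lit 216721) (nat_lit 0) .nil) .nil)))) 
(.nd (nat_lit 9) 
(.lf (nat_lit 517400) (.g (nat_lit 3792) (.e (nat_lit 196666) (nat_lit 13) (.e (nat_lit 65610) (nat_lit 10) (.e (nat_lit 344117) (nat_lit 21) (.e (nat_lit 516151) (nat_lit 9) (.e (nat_lit 426047) (nat_lit 0) (.e (nat_lit 3369) (nat_lit 208) (.e (nat_lit 622622) (nat_lit 13) (.e (nat_lit 2668) (nat_lit 167) .nil)))))))) (.g (nat_lit 1) (.e (nat_lit 216287) (nat_lit 0) .nil) .nil))) 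
(.lf (nat_lit 517912) (.g (nat_lit 1770) (.e (nat_lit 196666) (nat_lit 13) (.e (nat_lit 65617) (nat_lit 10) (.e (nat_lit 344132) (nat_lit 26) (.e (nat_lit 557070) (nat_lit 9) (.e (nat_lit 296) (nat_lit 22) .nil))))) (.g (nat_lit 0) (.e (nat_lit 217018) (nat_lit 0) .nil) .nil))))) (.nd (nat_lit 8) (.nd (nat_lit 9) 
(.lf (nat_lit 517272) (.g (nat_lit 3968) (.e (nat_lit 196666) (nat_lit 13) (.e (nat_lit 65610) (nat_lit 10) (.e (nat_lit 344117) (nat_lit 21) (.e (nat_lit 516151) (nat_lit 9) (.e (nat_lit 426042) (nat_lit 0) (.e (nat_lit 2427) (nat_lit 157) (.e (nat_lit 4850) (nat_lit 286) (.e (nat_lit 229386) (nat_lit 2) .nil)))))))) (.g (nat_lit 1) (.e (nat_lit 216159) (nat_lit 0) .nil) .nil))) 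
(.lf (nat_lit 517784) (.g (nat_lit 2546) (.e (nat_lit 196666) (nat_lit 13) (.e (nat_lit 65617) (nat_lit 10) (.e (nat_lit 344127) (nat_lit 26) (.e (nat_lit 557090) (nat_lit 12) (.e (nat_lit 163849) (nat_lit 0) (.e (nat_lit 6255) (nat_lit 337) (.e (nat_lit 2630) (nat_lit 164) (.e (nat_lit 172062) (nat_lit 2) .nil)))))))) (.g (nat_lit 1) (.e (nat_lit 216872) (nat_lit 0) .nil) .nil)))) 
(.nd (nat_lit 9) 
(.lf (nat_lit 517528) (.g (nat_lit 1864) (.e (nat_lit 196666) (nat_lit 13) (.e (nat_lit 65610) (nat_lit 10) (.e (nat_lit 344129) (nat_lit 26) (.e (nat_lit 557065) (nat_lit 9) (.e (nat_lit 249) (nat_lit 21) .nil))))) (.g (nat_lit 0) (.e (nat_lit 216518) (nat_lit 0) .nil) .nil))) 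
(.lf (nat_lit 518040) (.g (nat_lit 2653) (.e (nat_lit 196666) (nat_lit 13) (.e (nat_lit 65623) (nat_lit 12) (.e (nat_lit 385074) (nat_lit 31) (.e (nat_lit 573480) (nat_lit 13) (.e (nat_lit 65630) (nat_lit 14) .nil))))) (.g (nat_lit 0) (.e (nat_lit 217166) (nat_lit 0) .nil) .nil)))))) (.nd (nat_lit 7) (.nd (nat_lit 8) (.nd (nat_lit 9) 
(.lf (nat_lit 517208) (.g (nat_lit 4198) (.e (nat_lit 196666) (nat_lit 13) (.e (nat_lit 65610) (nat_lit 10) (.e (nat_lit 344117) (nat_lit 21) (.e (nat_lit 516151) (nat_lit 9) (.e (nat_lit 426040) (nat_lit 0) (.e (nat_lit 2422) (nat_lit 157) (.e (nat_lit 4848) (nat_lit 285) (.e (nat_lit 163870) (nat_lit 2) .nil)))))))) (.g (nat_lit 1) (.e (nat_lit 216095) (nat_lit 0) .nil) .nil))) 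
(.lf (nat_lit 517720) (.g (nat_lit 3002) (.e (nat_lit 196666) (nat_lit 13) (.e (nat_lit 65617) (nat_lit 10) (.e (nat_lit 344117) (nat_lit 21) (.e (nat_lit 516097) (nat_lit 0) (.e (nat_lit 7581) (nat_lit 405) (.e (nat_lit 57750) (nat_lit 201) (.e (nat_lit 2663) (nat_lit 167) .nil))))))) (.g (nat_lit 1) (.e (nat_lit 216796) (nat_lit 0) .nil) .nil)))) (.nd (nat_lit 9) 
(.lf (nat_lit 517464) (.g (nat_lit 2668) (.e (nat_lit 196666) (nat_lit 13) (.e (nat_lit 65610) (nat_lit 10) (.e (nat_lit 344117) (nat_lit 21) (.e (nat_lit 516160) (nat_lit 10) (.e (nat_lit 434274) (nat_lit 39) (.e (nat_lit 663554) (nat_lit 0) (.e (nat_lit 7936) (nat_lit 11) .nil))))))) (.g (nat_lit 1) (.e (nat_lit 216417) (nat_lit 0) .nil) .nil))) 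
(.lf (nat_lit 517976) (.g (nat_lit 3249) (.e (nat_lit 196666) (nat_lit 13) (.e (nat_lit 65617) (nat_lit 10) (.e (nat_lit 344133) (nat_lit 26) (.e (nat_lit 557091) (nat_lit 12) (.e (nat_lit 163843) (nat_lit 0) (.e (nat_lit 6420) (nat_lit 341) (.e (nat_lit 163843) (nat_lit 0) (.e (nat_lit 7936) (nat_lit 388) (.e (nat_lit 2668) (nat_lit 167) .nil))))))))) (.g (nat_lit 1) (.e (nat_lit 217090) (nat_lit 0) .nil) .nil))))) 
(.nd (nat_lit 8) (.nd (nat_lit 9) 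
(.lf (nat_lit 517336) (.g (nat_lit 3701) (.e (nat_lit 196666) (nat_lit 13) (.e (nat_lit 65610) (nat_lit 10) (.e (nat_lit 344117) (nat_lit 21) (.e (nat_lit 516151) (nat_lit 9) (.e (nat_lit 426049) (nat_lit 0) (.e (nat_lit 3366) (nat_lit 208) (.e (nat_lit 622622) (nat_lit 13) (.e (nat_lit 2668) (nat_lit 167) .nil)))))))) (.g (nat_lit 1) (.e (nat_lit 216223) (nat_lit 0) .nil) .nil))) 
(.lf (nat_lit 517848) (.g (nat_lit 2021) (.e (nat_lit 196666) (nat_lit 13) (.e (nat_lit 65617) (nat_lit 10) (.e (nat_lit 344130) (nat_lit 26) (.e (nat_lit 557087) (nat_lit 11) (.e (nat_lit 24589) (nat_lit 0) .nil))))) (.g (nat_lit 0) (.e (nat_lit 216951) (nat_lit 0) .nil) .nil)))) (.nd (nat_lit 9) 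
(.lf (nat_lit 517592) (.g (nat_lit 2392) (.e (nat_lit 196666) (nat_lit 13) (.e (nat_lit 65610) (nat_lit 10) (.e (nat_lit 344129) (nat_lit 26) (.e (nat_lit 557087) (nat_lit 11) (.e (nat_lit 24594) (nat_lit 0) (.e (nat_lit 7936) (nat_lit 357) (.e (nat_lit 2666) (nat_lit 167) .nil))))))) (.g (nat_lit 1) (.e (nat_lit 216635) (nat_lit 0) .nil) .nil))) 
(.lf (nat_lit 518104) (.g (nat_lit 2342) (.e (nat_lit 196667) (nat_lit 14) (.e (nat_lit 73754) (nat_lit 8) (.e (nat_lit 557105) (nat_lit 14) (.e (nat_lit 180251) (nat_lit 10) (.e (nat_lit 573477) (nat_lit 12) .nil))))) (.g (nat_lit 0) (.e (nat_lit 217282) (nat_lit 0) .nil) .nil))))))) (.nd (nat_lit 6) (.nd (nat_lit 7) (.nd (nat_lit 8) (.nd (nat_lit 9) 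
(.lf (nat_lit 517176) (.g (nat_lit 4494) (.e (nat_lit 196666) (nat_lit 13) (.e (nat_lit 65610) (nat_lit 10) (.e (nat_lit 344117) (nat_lit 21) (.e (nat_lit 516151) (nat_lit 9) (.e (nat_lit 426038) (nat_lit 0) (.e (nat_lit 2515) (nat_lit 157) (.e (nat_lit 5948) (nat_lit 322) (.e (nat_lit 65280) (nat_lit 63) .nil)))))))) (.g (nat_lit 1) (.e (nat_lit 216063) (nat_lit 0) .nil) .nil))) 
(.lf (nat_lit 517688) (.g (nat_lit 2815) (.e (nat_lit 196666) (nat_lit 13) (.e (nat_lit 65610) (nat_lit 10) (.e (nat_lit 344129) (nat_lit 26) (.e (nat_lit 557090) (nat_lit 12) (.e (nat_lit 164020) (nat_lit 45) (.e (nat_lit 696328) (nat_lit 5) (.e (nat_lit 2878) (nat_lit 184) (.e (nat_lit 426125) (nat_lit 2) .nil)))))))) (.g (nat_lit 1) (.e (nat_lit 216757) (nat_lit 0) .nil) .nil)))) 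
(.nd (nat_lit 9) 
(.lf (nat_lit 517432) (.g (nat_lit 2454) (.e (nat_lit 196666) (nat_lit 13) (.e (nat_lit 65610) (nat_lit 10) (.e (nat_lit 344117) (nat_lit 21) (.e (nat_lit 516159) (nat_lit 10) (.e (nat_lit 434202) (nat_lit 18) (.e (nat_lit 4751) (nat_lit 281) (.e (nat_lit 2536) (nat_lit 157) (.e (nat_lit 2666) (nat_lit 167) .nil)))))))) (.g (nat_lit 1) (.e (nat_lit 216339) (nat_lit 0) .nil) .nil))) 
(.lf (nat_lit 517944) (.g (nat_lit 1442) (.e (nat_lit 196666) (nat_lit 13) (.e (nat_lit 65617) (nat_lit 10) (.e (nat_lit 344133) (nat_lit 26) (.e (nat_lit 557073) (nat_lit 9) .nil)))) (.g (nat_lit 0) (.e (nat_lit 217056) (nat_lit 0) .nil) .nil))))) (.nd (nat_lit 8) (.nd (nat_lit 9) 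
(.lf (nat_lit 517304) (.g (nat_lit 4774) (.e (nat_lit 196666) (nat_lit 13) (.e (nat_lit 65610) (nat_lit 10) (.e (nat_lit 344117) (nat_lit 21) (.e (nat_lit 516151) (nat_lit 9) (.e (nat_lit 426045) (nat_lit 0) (.e (nat_lit 3366) (nat_lit 208) (.e (nat_lit 622626) (nat_lit 13) (.e (nat_lit 2663) (nat_lit 167) .nil)))))))) (.g (nat_lit 1) (.e (nat_lit 216191) (nat_lit 0) .nil) .nil))) 
(.lf (nat_lit 517816) (.g (nat_lit 1823) (.e (nat_lit 196666) (nat_lit 13) (.e (nat_lit 65617) (nat_lit 10) (.e (nat_lit 344130) (nat_lit 26) (.e (nat_lit 557065) (nat_lit 9) (.e (nat_lit 305) (nat_lit 22) .nil))))) (.g (nat_lit 0) (.e (nat_lit 216907) (nat_lit 0) .nil) .nil)))) (.nd (nat_lit 9) 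
(.lf (nat_lit 517560) (.g (nat_lit 2398) (.e (nat_lit 196666) (nat_lit 13) (.e (nat_lit 65610) (nat_lit 10) (.e (nat_lit 344129) (nat_lit 26) (.e (nat_lit 557068) (nat_lit 9) .nil)))) (.g (nat_lit 0) (.e (nat_lit 216570) (nat_lit 0) .nil) .nil))) 
(.lf (nat_lit 518072) (.g (nat_lit 2224) (.e (nat_lit 196666) (nat_lit 13) (.e (nat_lit 65629) (nat_lit 14) (.e (nat_lit 401424) (nat_lit 2) (.e (nat_lit 196668) (nat_lit 14) (.e (nat_lit 73782) (nat_lit 32) .nil))))) (.g (nat_lit 0) (.e (nat_lit 217230) (nat_lit 0) .nil) .nil)))))) (.nd (nat_lit 7) (.nd (nat_lit 8) (.nd (nat_lit 9) 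
(.lf (nat_lit 517240) (.g (nat_lit 5225) (.e (nat_lit 196666) (nat_lit 13) (.e (nat_lit 65610) (nat_lit 10) (.e (nat_lit 344117) (nat_lit 21) (.e (nat_lit 516151) (nat_lit 9) (.e (nat_lit 426040) (nat_lit 0) (.e (nat_lit 3370) (nat_lit 208) (.e (nat_lit 622620) (nat_lit 13) (.e (nat_lit 2663) (nat_lit 167) .nil)))))))) (.g (nat_lit 1) (.e (nat_lit 216127) (nat_lit 0) .nil) .nil))) 
(.lf (nat_lit 517752) (.g (nat_lit 2333) (.e (nat_lit 196666) (nat_lit 13) (.e (nat_lit 65617) (nat_lit 10) (.e (nat_lit 344126) (nat_lit 25) (.e (nat_lit 548889) (nat_lit 9) (.e (nat_lit 65539) (nat_lit 0) .nil))))) (.g (nat_lit 0) (.e (nat_lit 216833) (nat_lit 0) .nil) .nil)))) (.nd (nat_lit 9) 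
(.lf (nat_lit 517496) (.g (nat_lit 4046) (.e (nat_lit 196666) (nat_lit 13) (.e (nat_lit 65610) (nat_lit 10) (.e (nat_lit 344117) (nat_lit 21) (.e (nat_lit 516185) (nat_lit 16) (.e (nat_lit 491520) (nat_lit 0) (.e (nat_lit 7936) (nat_lit 357) (.e (nat_lit 2666) (nat_lit 167) .nil))))))) (.g (nat_lit 1) (.e (nat_lit 216457) (nat_lit 0) .nil) .nil))) 
(.lf (nat_lit 518008) (.g (nat_lit 1348) (.e (nat_lit 196666) (nat_lit 13) (.e (nat_lit 65619) (nat_lit 10) (.e (nat_lit 344117) (nat_lit 21) (.e (nat_lit 516138) (nat_lit 7) .nil)))) (.g (nat_lit 0) (.e (nat_lit 217128) (nat_lit 0) .nil) .nil))))) (.nd (nat_lit 8) (.nd (nat_lit 9) 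
(.lf (nat_lit 517368) (.g (nat_lit 4321) (.e (nat_lit 196666) (nat_lit 13) (.e (nat_lit 65610) (nat_lit 10) (.e (nat_lit 344117) (nat_lit 21) (.e (nat_lit 516151) (nat_lit 9) (.e (nat_lit 426047) (nat_lit 0) (.e (nat_lit 2423) (nat_lit 157) (.e (nat_lit 4848) (nat_lit 285) (.e (nat_lit 163869) (nat_lit 2) .nil)))))))) (.g (nat_lit 1) (.e (nat_lit 216255) (nat_lit 0) .nil) .nil))) 
(.lf (nat_lit 517880) (.g (nat_lit 2398) (.e (nat_lit 196666) (nat_lit 13) (.e (nat_lit 65617) (nat_lit 10) (.e (nat_lit 344130) (nat_lit 26) (.e (nat_lit 557090) (nat_lit 12) (.e (nat_lit 163849) (nat_lit 0) .nil))))) (.g (nat_lit 0) (.e (nat_lit 216985) (nat_lit 0) .nil) .nil)))) (.nd (nat_lit 9) 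
(.lf (nat_lit 517624) (.g (nat_lit 2585) (.e (nat_lit 196666) (nat_lit 13) (.e (nat_lit 65610) (nat_lit 10) (.e (nat_lit 344129) (nat_lit 26) (.e (nat_lit 557090) (nat_lit 12) (.e (nat_lit 163840) (nat_lit 0) (.e (nat_lit 6416) (nat_lit 341) (.e (nat_lit 163900) (nat_lit 12) (.e (nat_lit 426125) (nat_lit 2) .nil)))))))) (.g (nat_lit 1) (.e (nat_lit 216672) (nat_lit 0) .nil) .nil))) 
(.lf (nat_lit 518136) (.g (nat_lit 1327) (.e (nat_lit 196668) (nat_lit 14) (.e (nat_lit 73746) (nat_lit 3) (.e (nat_lit 516117) (nat_lit 1) (.e (nat_lit 164184) (nat_lit 155) .nil)))) (.g (nat_lit 0) (.e (nat_lit 217416) (nat_lit 0) .nil) .nil)))))))))) (.nd (nat_lit 3) (.nd (nat_lit 4) (.nd (nat_lit 5) (.nd (nat_lit 6) (.nd (nat_lit 7) (.nd (nat_lit 8) (.nd (nat_lit 9) 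
(.lf (nat_lit 517124) (.g (nat_lit 4781) (.e (nat_lit 196666) (nat_lit 13) (.e (nat_lit 65610) (nat_lit 10) (.e (nat_lit 344117) (nat_lit 21) (.e (nat_lit 516151) (nat_lit 9) (.e (nat_lit 426037) (nat_lit 0) (.e (nat_lit 3369) (nat_lit 208) (.e (nat_lit 622626) (nat_lit 13) (.e (nat_lit 2663) (nat_lit 167) .nil)))))))) (.g (nat_lit 1) (.e (nat_lit 216011) (nat_lit 0) .nil) .nil))) 
(.lf (nat_lit 517636) (.g (nat_lit 2316) (.e (nat_lit 196666) (nat_lit 13) (.e (nat_lit 65610) (nat_lit 10) (.e (nat_lit 344129) (nat_lit 26) (.e (nat_lit 557090) (nat_lit 12) (.e (nat_lit 163842) (nat_lit 0) (.e (nat_lit 6371) (nat_lit 337) (.e (nat_lit 2628) (nat_lit 164) (.e (nat_lit 172062) (nat_lit 2) .nil)))))))) (.g (nat_lit 1) (.e (nat_lit 216689) (nat_lit 0) .nil) .nil)))) 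
(.nd (nat_lit 9) 
(.lf (nat_lit 517380) (.g (nat_lit 4233) (.e (nat_lit 196666) (nat_lit 13) (.e (nat_lit 65610) (nat_lit 10) (.e (nat_lit 344117) (nat_lit 21) (.e (nat_lit 516151) (nat_lit 9) (.e (nat_lit 426047) (nat_lit 0) (.e (nat_lit 2425) (nat_lit 157) (.e (nat_lit 4849) (nat_lit 285) (.e (nat_lit 163870) (nat_lit 2) .nil)))))))) (.g (nat_lit 1) (.e (nat_lit 216267) (nat_lit 0) .nil) .nil))) 
(.lf (nat_lit 517892) (.g (nat_lit 3185) (.e (nat_lit 196666) (nat_lit 13) (.e (nat_lit 65617) (nat_lit 10) (.e (nat_lit 344130) (nat_lit 26) (.e (nat_lit 557090) (nat_lit 12) (.e (nat_lit 164017) (nat_lit 44) (.e (nat_lit 688139) (nat_lit 5) (.e (nat_lit 2887) (nat_lit 184) (.e (nat_lit 426120) (nat_lit 2) .nil)))))))) (.g (nat_lit 1) (.e (nat_lit 216997) (nat_lit 0) .nil) .nil))))) 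
(.nd (nat_lit 8) (.nd (nat_lit 9) 
(.lf (nat_lit 517252) (.g (nat_lit 3440) (.e (nat_lit 196666) (nat_lit 13) (.e (nat_lit 65610) (nat_lit 10) (.e (nat_lit 344117) (nat_lit 21) (.e (nat_lit 516151) (nat_lit 9) (.e (nat_lit 426041) (nat_lit 0) (.e (nat_lit 3366) (nat_lit 208) (.e (nat_lit 622627) (nat_lit 13) (.e (nat_lit 2666) (nat_lit 167) .nil)))))))) (.g (nat_lit 1) (.e (nat_lit 216139) (nat_lit 0) .nil) .nil))) 
(.lf (nat_lit 517764) (.g (nat_lit 2729) (.e (nat_lit 196666) (nat_lit 13) (.e (nat_lit 65617) (nat_lit 10) (.e (nat_lit 344127) (nat_lit 26) (.e (nat_lit 557090) (nat_lit 12) (.e (nat_lit 163843) (nat_lit 0) (.e (nat_lit 6255) (nat_lit 337) (.e (nat_lit 2620) (nat_lit 164) (.e (nat_lit 172064) (nat_lit 2) .nil)))))))) (.g (nat_lit 1) (.e (nat_lit 216852) (nat_lit 0) .nil) .nil)))) 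
(.nd (nat_lit 9) 
(.lf (nat_lit 517508) (.g (nat_lit 1908) (.e (nat_lit 196666) (nat_lit 13) (.e (nat_lit 65610) (nat_lit 10) (.e (nat_lit 344117) (nat_lit 21) (.e (nat_lit 524032) (nat_lit 18) .nil)))) (.g (nat_lit 0) (.e (nat_lit 216476) (nat_lit 0) .nil) .nil))) 
(.lf (nat_lit 518020) (.g (nat_lit 1148) (.e (nat_lit 196666) (nat_lit 13) (.e (nat_lit 65619) (nat_lit 10) (.e (nat_lit 344126) (nat_lit 25) (.e (nat_lit 548889) (nat_lit 9) .nil)))) (.g (nat_lit 0) (.e (nat_lit 217140) (nat_lit 0) .nil) .nil)))))) (.nd (nat_lit 7) (.nd (nat_lit 8) (.nd (nat_lit 9) 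
(.lf (nat_lit 517188) (.g (nat_lit 3511) (.e (nat_lit 196666) (nat_lit 13) (.e (nat_lit 65610) (nat_lit 10) (.e (nat_lit 344117) (nat_lit 21) (.e (nat_lit 516151) (nat_lit 9) (.e (nat_lit 426038) (nat_lit 0) (.e (nat_lit 3369) (nat_lit 208) (.e (nat_lit 622622) (nat_lit 13) (.e (nat_lit 2668) (nat_lit 167) .nil)))))))) (.g (nat_lit 1) (.e (nat_lit 216075) (nat_lit 0) .nil) .nil))) 
(.lf (nat_lit 517700) (.g (nat_lit 3898) (.e (nat_lit 196666) (nat_lit 13) (.e (nat_lit 65610) (nat_lit 10) (.e (nat_lit 344131) (nat_lit 26) (.e (nat_lit 557087) (nat_lit 11) (.e (nat_lit 24662) (nat_lit 14) (.e (nat_lit 401425) (nat_lit 2) .nil)))))) (.g (nat_lit 1) (.e (nat_lit 216769) (nat_lit 0) .nil) .nil)))) (.nd (nat_lit 9) 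
(.lf (nat_lit 517444) (.g (nat_lit 2877) (.e (nat_lit 196666) (nat_lit 13) (.e (nat_lit 65610) (nat_lit 10) (.e (nat_lit 344117) (nat_lit 21) (.e (nat_lit 516159) (nat_lit 10) (.e (nat_lit 434275) (nat_lit 39) (.e (nat_lit 663560) (nat_lit 0) (.e (nat_lit 7936) (nat_lit 11) .nil))))))) (.g (nat_lit 1) (.e (nat_lit 216367) (nat_lit 0) .nil) .nil))) 
(.lf (nat_lit 517956) (.g (nat_lit 4044) (.e (nat_lit 196666) (nat_lit 13) (.e (nat_lit 65617) (nat_lit 10) (.e (nat_lit 344133) (nat_lit 26) (.e (nat_lit 557089) (nat_lit 12) (.e (nat_lit 163849) (nat_lit 0) (.e (nat_lit 6416) (nat_lit 341) (.e (nat_lit 163900) (nat_lit 12) (.e (nat_lit 426125) (nat_lit 2) .nil)))))))) (.g (nat_lit 1) (.e (nat_lit 217070) (nat_lit 0) .nil) .nil))))) 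
(.nd (nat_lit 8) (.nd (nat_lit 9) 
(.lf (nat_lit 517316) (.g (nat_lit 4645) (.e (nat_lit 196666) (nat_lit 13) (.e (nat_lit 65610) (nat_lit 10) (.e (nat_lit 344117) (nat_lit 21) (.e (nat_lit 516151) (nat_lit 9) (.e (nat_lit 426045) (nat_lit 0) (.e (nat_lit 3370) (nat_lit 208) (.e (nat_lit 622620) (nat_lit 13) (.e (nat_lit 2663) (nat_lit 167) .nil)))))))) (.g (nat_lit 1) (.e (nat_lit 216203) (nat_lit 0) .nil) .nil))) 
(.lf (nat_lit 517828) (.g (nat_lit 2226) (.e (nat_lit 196666) (nat_lit 13) (.e (nat_lit 65617) (nat_lit 10) (.e (nat_lit 344130) (nat_lit 26) (.e (nat_lit 557067) (nat_lit 9) (.e (nat_lit 2606) (nat_lit 163) .nil))))) (.g (nat_lit 0) (.e (nat_lit 216929) (nat_lit 0) .nil) .nil)))) (.nd (nat_lit 9) 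
(.lf (nat_lit 517572) (.g (nat_lit 2599) (.e (nat_lit 196666) (nat_lit 13) (.e (nat_lit 65610) (nat_lit 10) (.e (nat_lit 344129) (nat_lit 26) (.e (nat_lit 557084) (nat_lit 10) (.e (nat_lit 8533) (nat_lit 225) (.e (nat_lit 2506) (nat_lit 157) (.e (nat_lit 5664) (nat_lit 312) (.e (nat_lit 2661) (nat_lit 167) .nil)))))))) (.g (nat_lit 1) (.e (nat_lit 216615) (nat_lit 0) .nil) .nil))) 
(.lf (nat_lit 518084) (.g (nat_lit 1417) (.e (nat_lit 196666) (nat_lit 13) (.e (nat_lit 65630) (nat_lit 14) (.e (nat_lit 401425) (nat_lit 2) (.e (nat_lit 196628) (nat_lit 9) .nil)))) (.g (nat_lit 0) (.e (nat_lit 217244) (nat_lit 0) .nil) .nil))))))) (.nd (nat_lit 6) (.nd (nat_lit 7) (.nd (nat_lit 8) (.nd (nat_lit 9) 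
(.lf (nat_lit 517156) (.g (nat_lit 5332) (.e (nat_lit 196666) (nat_lit 13) (.e (nat_lit 65610) (nat_lit 10) (.e (nat_lit 344117) (nat_lit 21) (.e (nat_lit 516151) (nat_lit 9) (.e (nat_lit 426038) (nat_lit 0) (.e (nat_lit 2423) (nat_lit 157) (.e (nat_lit 4848) (nat_lit 285) (.e (nat_lit 163870) (nat_lit 2) .nil)))))))) (.g (nat_lit 1) (.e (nat_lit 216043) (nat_lit 0) .nil) .nil))) 
(.lf (nat_lit 517668) (.g (nat_lit 4419) (.e (nat_lit 196666) (nat_lit 13) (.e (nat_lit 65610) (nat_lit 10) (.e (nat_lit 344129) (nat_lit 26) (.e (nat_lit 557090) (nat_lit 12) (.e (nat_lit 163849) (nat_lit 0) (.e (nat_lit 6255) (nat_lit 337) (.e (nat_lit 2630) (nat_lit 164) (.e (nat_lit 172062) (nat_lit 2) .nil)))))))) (.g (nat_lit 1) (.e (nat_lit 216734) (nat_lit 0) .nil) .nil)))) 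
(.nd (nat_lit 9) 
(.lf (nat_lit 517412) (.g (nat_lit 3585) (.e (nat_lit 196666) (nat_lit 13) (.e (nat_lit 65610) (nat_lit 10) (.e (nat_lit 344117) (nat_lit 21) (.e (nat_lit 516151) (nat_lit 9) (.e (nat_lit 426047) (nat_lit 0) (.e (nat_lit 3370) (nat_lit 208) (.e (nat_lit 622627) (nat_lit 13) (.e (nat_lit 2666) (nat_lit 167) .nil)))))))) (.g (nat_lit 1) (.e (nat_lit 216299) (nat_lit 0) .nil) .nil))) 
(.lf (nat_lit 517924) (.g (nat_lit 2777) (.e (nat_lit 196666) (nat_lit 13) (.e (nat_lit 65617) (nat_lit 10) (.e (nat_lit 344132) (nat_lit 26) (.e (nat_lit 557091) (nat_lit 12) (.e (nat_lit 164022) (nat_lit 46) .nil))))) (.g (nat_lit 0) (.e (nat_lit 217033) (nat_lit 0) .nil) .nil))))) (.nd (nat_lit 8) (.nd (nat_lit 9) 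
(.lf (nat_lit 517284) (.g (nat_lit 3024) (.e (nat_lit 196666) (nat_lit 13) (.e (nat_lit 65610) (nat_lit 10) (.e (nat_lit 344117) (nat_lit 21) (.e (nat_lit 516151) (nat_lit 9) (.e (nat_lit 426042) (nat_lit 0) (.e (nat_lit 3371) (nat_lit 208) (.e (nat_lit 622625) (nat_lit 13) (.e (nat_lit 2665) (nat_lit 167) .nil)))))))) (.g (nat_lit 1) (.e (nat_lit 216171) (nat_lit 0) .nil) .nil))) 
(.lf (nat_lit 517796) (.g (nat_lit 2576) (.e (nat_lit 196666) (nat_lit 13) (.e (nat_lit 65617) (nat_lit 10) (.e (nat_lit 344127) (nat_lit 26) (.e (nat_lit 557090) (nat_lit 12) (.e (nat_lit 164016) (nat_lit 44) (.e (nat_lit 688141) (nat_lit 5) (.e (nat_lit 2883) (nat_lit 184) (.e (nat_lit 426125) (nat_lit 2) .nil)))))))) (.g (nat_lit 1) (.e (nat_lit 216886) (nat_lit 0) .nil) .nil)))) 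
(.nd (nat_lit 9) 
(.lf (nat_lit 517540) (.g (nat_lit 1996) (.e (nat_lit 196666) (nat_lit 13) (.e (nat_lit 65610) (nat_lit 10) (.e (nat_lit 344129) (nat_lit 26) (.e (nat_lit 557067) (nat_lit 9) (.e (nat_lit 2459) (nat_lit 157) .nil))))) (.g (nat_lit 0) (.e (nat_lit 216543) (nat_lit 0) .nil) .nil))) 
(.lf (nat_lit 518052) (.g (nat_lit 3431) (.e (nat_lit 196666) (nat_lit 13) (.e (nat_lit 65624) (nat_lit 12) (.e (nat_lit 385074) (nat_lit 31) (.e (nat_lit 573482) (nat_lit 13) (.e (nat_lit 65540) (nat_lit 0) .nil))))) (.g (nat_lit 0) (.e (nat_lit 217192) (nat_lit 0) .nil) .nil)))))) (.nd (nat_lit 7) (.nd (nat_lit 8) (.nd (nat_lit 9) 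
(.lf (nat_lit 517220) (.g (nat_lit 3770) (.e (nat_lit 196666) (nat_lit 13) (.e (nat_lit 65610) (nat_lit 10) (.e (nat_lit 344117) (nat_lit 21) (.e (nat_lit 516151) (nat_lit 9) (.e (nat_lit 426040) (nat_lit 0) (.e (nat_lit 2426) (nat_lit 157) (.e (nat_lit 4778) (nat_lit 281) (.e (nat_lit 2477) (nat_lit 157) (.e (nat_lit 2663) (nat_lit 167) .nil))))))))) (.g (nat_lit 1) (.e (nat_lit 216107) (nat_lit 0) .nil) .nil))) 
(.lf (nat_lit 517732) (.g (nat_lit 3876) (.e (nat_lit 196666) (nat_lit 13) (.e (nat_lit 65617) (nat_lit 10) (.e (nat_lit 344117) (nat_lit 21) (.e (nat_lit 516139) (nat_lit 7) (.e (nat_lit 409608) (nat_lit 10) (.e (nat_lit 5616) (nat_lit 312) (.e (nat_lit 2668) (nat_lit 167) .nil))))))) (.g (nat_lit 1) (.e (nat_lit 216808) (nat_lit 0) .nil) .nil)))) (.nd (nat_lit 9) 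
(.lf (nat_lit 517476) (.g (nat_lit 3569) (.e (nat_lit 196666) (nat_lit 13) (.e (nat_lit 65610) (nat_lit 10) (.e (nat_lit 344117) (nat_lit 21) (.e (nat_lit 516160) (nat_lit 10) (.e (nat_lit 434276) (nat_lit 39) (.e (nat_lit 663552) (nat_lit 0) (.e (nat_lit 163) (nat_lit 11) .nil))))))) (.g (nat_lit 1) (.e (nat_lit 216430) (nat_lit 0) .nil) .nil))) 
(.lf (nat_lit 517988) (.g (nat_lit 2055) (.e (nat_lit 196666) (nat_lit 13) (.e (nat_lit 65617) (nat_lit 10) (.e (nat_lit 344133) (nat_lit 26) (.e (nat_lit 557091) (nat_lit 12) (.e (nat_lit 164022) (nat_lit 46) .nil))))) (.g (nat_lit 0) (.e (nat_lit 217102) (nat_lit 0) .nil) .nil))))) (.nd (nat_lit 8) (.nd (nat_lit 9) 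
(.lf (nat_lit 517348) (.g (nat_lit 3221) (.e (nat_lit 196666) (nat_lit 13) (.e (nat_lit 65610) (nat_lit 10) (.e (nat_lit 344117) (nat_lit 21) (.e (nat_lit 516151) (nat_lit 9) (.e (nat_lit 426050) (nat_lit 0) (.e (nat_lit 3366) (nat_lit 208) (.e (nat_lit 622622) (nat_lit 13) (.e (nat_lit 2662) (nat_lit 167) .nil)))))))) (.g (nat_lit 1) (.e (nat_lit 216235) (nat_lit 0) .nil) .nil))) 
(.lf (nat_lit 517860) (.g (nat_lit 2705) (.e (nat_lit 196666) (nat_lit 13) (.e (nat_lit 65617) (nat_lit 10) (.e (nat_lit 344130) (nat_lit 26) (.e (nat_lit 557089) (nat_lit 12) (.e (nat_lit 171776) (nat_lit 48) (.e (nat_lit 720909) (nat_lit 11) (.e (nat_lit 426124) (nat_lit 2) .nil))))))) (.g (nat_lit 1) (.e (nat_lit 216964) (nat_lit 0) .nil) .nil)))) (.nd (nat_lit 9) 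
(.lf (nat_lit 517604) (.g (nat_lit 3113) (.e (nat_lit 196666) (nat_lit 13) (.e (nat_lit 65610) (nat_lit 10) (.e (nat_lit 344129) (nat_lit 26) (.e (nat_lit 557089) (nat_lit 12) (.e (nat_lit 163843) (nat_lit 0) (.e (nat_lit 6252) (nat_lit 337) (.e (nat_lit 2630) (nat_lit 164) (.e (nat_lit 172064) (nat_lit 2) .nil)))))))) (.g (nat_lit 1) (.e (nat_lit 216649) (nat_lit 0) .nil) .nil))) 
(.lf (nat_lit 518116) (.g (nat_lit 1663) (.e (nat_lit 196668) (nat_lit 14) (.e (nat_lit 73746) (nat_lit 3) (.e (nat_lit 516115) (nat_lit 1) (.e (nat_lit 164177) (nat_lit 154) .nil)))) (.g (nat_lit 0) (.e (nat_lit 217319) (nat_lit 0) .nil) .nil)))))))) (.nd (nat_lit 5) (.nd (nat_lit 6) (.nd (nat_lit 7) (.nd (nat_lit 8) (.nd (nat_lit 9) 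
(.lf (nat_lit 517140) (.g (nat_lit 5140) (.e (nat_lit 196666) (nat_lit 13) (.e (nat_lit 65610) (nat_lit 10) (.e (nat_lit 344117) (nat_lit 21) (.e (nat_lit 516151) (nat_lit 9) (.e (nat_lit 426038) (nat_lit 0) (.e (nat_lit 2416) (nat_lit 157) (.e (nat_lit 4849) (nat_lit 285) (.e (nat_lit 163870) (nat_lit 2) .nil)))))))) (.g (nat_lit 1) (.e (nat_lit 216027) (nat_lit 0) .nil) .nil))) 
(.lf (nat_lit 517652) (.g (nat_lit 3042) (.e (nat_lit 196666) (nat_lit 13) (.e (nat_lit 65610) (nat_lit 10) (.e (nat_lit 344129) (nat_lit 26) (.e (nat_lit 557090) (nat_lit 12) (.e (nat_lit 163844) (nat_lit 0) (.e (nat_lit 6374) (nat_lit 337) (.e (nat_lit 2628) (nat_lit 164) (.e (nat_lit 172064) (nat_lit 2) .nil)))))))) (.g (nat_lit 1) (.e (nat_lit 216715) (nat_lit 0) .nil) .nil)))) 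
(.nd (nat_lit 9) 
(.lf (nat_lit 517396) (.g (nat_lit 3481) (.e (nat_lit 196666) (nat_lit 13) (.e (nat_lit 65610) (nat_lit 10) (.e (nat_lit 344117) (nat_lit 21) (.e (nat_lit 516151) (nat_lit 9) (.e (nat_lit 426047) (nat_lit 0) (.e (nat_lit 3366) (nat_lit 208) (.e (nat_lit 630528) (nat_lit 13) (.e (nat_lit 2666) (nat_lit 167) .nil)))))))) (.g (nat_lit 1) (.e (nat_lit 216283) (nat_lit 0) .nil) .nil))) 
(.lf (nat_lit 517908) (.g (nat_lit 3115) (.e (nat_lit 196666) (nat_lit 13) (.e (nat_lit 65617) (nat_lit 10) (.e (nat_lit 344130) (nat_lit 26) (.e (nat_lit 557091) (nat_lit 12) (.e (nat_lit 164020) (nat_lit 45) (.e (nat_lit 696343) (nat_lit 8) (.e (nat_lit 172062) (nat_lit 2) .nil))))))) (.g (nat_lit 1) (.e (nat_lit 217014) (nat_lit 0) .nil) .nil))))) (.nd (nat_lit 8) (.nd (nat_lit 9) 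
(.lf (nat_lit 517268) (.g (nat_lit 2623) (.e (nat_lit 196666) (nat_lit 13) (.e (nat_lit 65610) (nat_lit 10) (.e (nat_lit 344117) (nat_lit 21) (.e (nat_lit 516151) (nat_lit 9) (.e (nat_lit 426042) (nat_lit 0) (.e (nat_lit 2426) (nat_lit 157) (.e (nat_lit 4850) (nat_lit 286) (.e (nat_lit 229386) (nat_lit 2) .nil)))))))) (.g (nat_lit 1) (.e (nat_lit 216155) (nat_lit 0) .nil) .nil))) 
(.lf (nat_lit 517780) (.g (nat_lit 2824) (.e (nat_lit 196666) (nat_lit 13) (.e (nat_lit 65617) (nat_lit 10) (.e (nat_lit 344127) (nat_lit 26) (.e (nat_lit 557090) (nat_lit 12) (.e (nat_lit 163847) (nat_lit 0) (.e (nat_lit 6421) (nat_lit 341) (.e (nat_lit 163900) (nat_lit 12) (.e (nat_lit 426125) (nat_lit 2) .nil)))))))) (.g (nat_lit 1) (.e (nat_lit 216868) (nat_lit 0) .nil) .nil)))) 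
(.nd (nat_lit 9) 
(.lf (nat_lit 517524) (.g (nat_lit 318) (.e (nat_lit 196666) (nat_lit 13) (.e (nat_lit 65610) (nat_lit 10) (.e (nat_lit 344129) (nat_lit 26) .nil))) (.g (nat_lit 0) (.e (nat_lit 216512) (nat_lit 0) .nil) .nil))) 
(.lf (nat_lit 518036) (.g (nat_lit 1917) (.e (nat_lit 196666) (nat_lit 13) (.e (nat_lit 65622) (nat_lit 12) (.e (nat_lit 385074) (nat_lit 31) (.e (nat_lit 573486) (nat_lit 14) .nil)))) (.g (nat_lit 0) (.e (nat_lit 217162) (nat_lit 0) .nil) .nil)))))) (.nd (nat_lit 7) (.nd (nat_lit 8) (.nd (nat_lit 9) 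
(.lf (nat_lit 517204) (.g (nat_lit 4422) (.e (nat_lit 196666) (nat_lit 13) (.e (nat_lit 65610) (nat_lit 10) (.e (nat_lit 344117) (nat_lit 21) (.e (nat_lit 516151) (nat_lit 9) (.e (nat_lit 426040) (nat_lit 0) (.e (nat_lit 2416) (nat_lit 157) (.e (nat_lit 4849) (nat_lit 285) (.e (nat_lit 163869) (nat_lit 2) .nil)))))))) (.g (nat_lit 1) (.e (nat_lit 216091) (nat_lit 0) .nil) .nil))) 
(.lf (nat_lit 517716) (.g (nat_lit 385) (.e (nat_lit 196666) (nat_lit 13) (.e (nat_lit 65617) (nat_lit 10) (.e (nat_lit 344115) (nat_lit 20) .nil))) (.g (nat_lit 0) (.e (nat_lit 216792) (nat_lit 0) .nil) .nil)))) (.nd (nat_lit 9) 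
(.lf (nat_lit 517460) (.g (nat_lit 2389) (.e (nat_lit 196666) (nat_lit 13) (.e (nat_lit 65610) (nat_lit 10) (.e (nat_lit 344117) (nat_lit 21) (.e (nat_lit 516160) (nat_lit 10) (.e (nat_lit 434264) (nat_lit 34) (.e (nat_lit 622625) (nat_lit 13) (.e (nat_lit 2665) (nat_lit 167) .nil))))))) (.g (nat_lit 1) (.e (nat_lit 216412) (nat_lit 0) .nil) .nil))) 
(.lf (nat_lit 517972) (.g (nat_lit 3754) (.e (nat_lit 196666) (nat_lit 13) (.e (nat_lit 65617) (nat_lit 10) (.e (nat_lit 344133) (nat_lit 26) (.e (nat_lit 557091) (nat_lit 12) (.e (nat_lit 163843) (nat_lit 0) (.e (nat_lit 6252) (nat_lit 337) (.e (nat_lit 2725) (nat_lit 172) (.e (nat_lit 237589) (nat_lit 2) .nil)))))))) (.g (nat_lit 1) (.e (nat_lit 217086) (nat_lit 0) .nil) .nil))))) 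
(.nd (nat_lit 8) (.nd (nat_lit 9) 
(.lf (nat_lit 517332) (.g (nat_lit 4214) (.e (nat_lit 196666) (nat_lit 13) (.e (nat_lit 65610) (nat_lit 10) (.e (nat_lit 344117) (nat_lit 21) (.e (nat_lit 516151) (nat_lit 9) (.e (nat_lit 426049) (nat_lit 0) (.e (nat_lit 2515) (nat_lit 157) (.e (nat_lit 5948) (nat_lit 322) (.e (nat_lit 65280) (nat_lit 63) .nil)))))))) (.g (nat_lit 1) (.e (nat_lit 216219) (nat_lit 0) .nil) .nil))) 
(.lf (nat_lit 517844) (.g (nat_lit 2842) (.e (nat_lit 196666) (nat_lit 13) (.e (nat_lit 65617) (nat_lit 10) (.e (nat_lit 344130) (nat_lit 26) (.e (nat_lit 557087) (nat_lit 11) (.e (nat_lit 24584) (nat_lit 0) (.e (nat_lit 7936) (nat_lit 357) (.e (nat_lit 2661) (nat_lit 167) .nil))))))) (.g (nat_lit 1) (.e (nat_lit 216947) (nat_lit 0) .nil) .nil)))) (.nd (nat_lit 9) 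
(.lf (nat_lit 517588) (.g (nat_lit 2574) (.e (nat_lit 196666) (nat_lit 13) (.e (nat_lit 65610) (nat_lit 10) (.e (nat_lit 344129) (nat_lit 26) (.e (nat_lit 557087) (nat_lit 11) (.e (nat_lit 24591) (nat_lit 0) (.e (nat_lit 7936) (nat_lit 357) (.e (nat_lit 2666) (nat_lit 167) .nil))))))) (.g (nat_lit 1) (.e (nat_lit 216631) (nat_lit 0) .nil) .nil))) 
(.lf (nat_lit 518100) (.g (nat_lit 1769) (.e (nat_lit 196667) (nat_lit 14) (.e (nat_lit 73753) (nat_lit 8) (.e (nat_lit 557103) (nat_lit 14) (.e (nat_lit 180244) (nat_lit 5) .nil)))) (.g (nat_lit 0) (.e (nat_lit 217278) (nat_lit 0) .nil) .nil))))))) (.nd (nat_lit 6) (.nd (nat_lit 7) (.nd (nat_lit 8) (.nd (nat_lit 9) 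
(.lf (nat_lit 517172) (.g (nat_lit 3825) (.e (nat_lit 196666) (nat_lit 13) (.e (nat_lit 65610) (nat_lit 10) (.e (nat_lit 344117) (nat_lit 21) (.e (nat_lit 516151) (nat_lit 9) (.e (nat_lit 426038) (nat_lit 0) (.e (nat_lit 2438) (nat_lit 157) (.e (nat_lit 7936) (nat_lit 285) (.e (nat_lit 163870) (nat_lit 2) .nil)))))))) (.g (nat_lit 1) (.e (nat_lit 216059) (nat_lit 0) .nil) .nil))) 
(.lf (nat_lit 517684) (.g (nat_lit 2543) (.e (nat_lit 196666) (nat_lit 13) (.e (nat_lit 65610) (nat_lit 10) (.e (nat_lit 344129) (nat_lit 26) (.e (nat_lit 557090) (nat_lit 12) (.e (nat_lit 164019) (nat_lit 45) (.e (nat_lit 696342) (nat_lit 8) (.e (nat_lit 172062) (nat_lit 2) .nil))))))) (.g (nat_lit 1) (.e (nat_lit 216753) (nat_lit 0) .nil) .nil)))) (.nd (nat_lit 9) 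
(.lf (nat_lit 517428) (.g (nat_lit 3618) (.e (nat_lit 196666) (nat_lit 13) (.e (nat_lit 65610) (nat_lit 10) (.e (nat_lit 344117) (nat_lit 21) (.e (nat_lit 516151) (nat_lit 9) (.e (nat_lit 426394) (nat_lit 15) (.e (nat_lit 2015) (nat_lit 139) (.e (nat_lit 679968) (nat_lit 13) (.e (nat_lit 2663) (nat_lit 167) .nil)))))))) (.g (nat_lit 1) (.e (nat_lit 216325) (nat_lit 0) .nil) .nil))) 
(.lf (nat_lit 517940) (.g (nat_lit 1830) (.e (nat_lit 196666) (nat_lit 13) (.e (nat_lit 65617) (nat_lit 10) (.e (nat_lit 344133) (nat_lit 26) (.e (nat_lit 557068) (nat_lit 9) (.e (nat_lit 290) (nat_lit 21) .nil))))) (.g (nat_lit 0) (.e (nat_lit 217052) (nat_lit 0) .nil) .nil))))) (.nd (nat_lit 8) (.nd (nat_lit 9) 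
(.lf (nat_lit 517300) (.g (nat_lit 3264) (.e (nat_lit 196666) (nat_lit 13) (.e (nat_lit 65610) (nat_lit 10) (.e (nat_lit 344117) (nat_lit 21) (.e (nat_lit 516151) (nat_lit 9) (.e (nat_lit 426045) (nat_lit 0) (.e (nat_lit 3366) (nat_lit 208) (.e (nat_lit 622622) (nat_lit 13) (.e (nat_lit 2662) (nat_lit 167) .nil)))))))) (.g (nat_lit 1) (.e (nat_lit 216187) (nat_lit 0) .nil) .nil))) 
(.lf (nat_lit 517812) (.g (nat_lit 3202) (.e (nat_lit 196666) (nat_lit 13) (.e (nat_lit 65617) (nat_lit 10) (.e (nat_lit 344129) (nat_lit 26) (.e (nat_lit 557087) (nat_lit 11) (.e (nat_lit 24584) (nat_lit 0) .nil))))) (.g (nat_lit 0) (.e (nat_lit 216903) (nat_lit 0) .nil) .nil)))) (.nd (nat_lit 9) 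
(.lf (nat_lit 517556) (.g (nat_lit 2791) (.e (nat_lit 196666) (nat_lit 13) (.e (nat_lit 65610) (nat_lit 10) (.e (nat_lit 344129) (nat_lit 26) (.e (nat_lit 557067) (nat_lit 9) (.e (nat_lit 2739) (nat_lit 174) (.e (nat_lit 253989) (nat_lit 11) (.e (nat_lit 16413) (nat_lit 2) .nil))))))) (.g (nat_lit 1) (.e (nat_lit 216565) (nat_lit 0) .nil) .nil))) 
(.lf (nat_lit 518068) (.g (nat_lit 3636) (.e (nat_lit 196666) (nat_lit 13) (.e (nat_lit 65628) (nat_lit 14) (.e (nat_lit 401425) (nat_lit 2) (.e (nat_lit 196681) (nat_lit 17) (.e (nat_lit 131073) (nat_lit 0) (.e (nat_lit 6684) (nat_lit 357) (.e (nat_lit 2664) (nat_lit 167) .nil))))))) (.g (nat_lit 1) (.e (nat_lit 217225) (nat_lit 0) .nil) .nil)))))) 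
(.nd (nat_lit 7) (.nd (nat_lit 8) (.nd (nat_lit 9) 
(.lf (nat_lit 517236) (.g (nat_lit 3266) (.e (nat_lit 196666) (nat_lit 13) (.e (nat_lit 65610) (nat_lit 10) (.e (nat_lit 344117) (nat_lit 21) (.e (nat_lit 516151) (nat_lit 9) (.e (nat_lit 426040) (nat_lit 0) (.e (nat_lit 3369) (nat_lit 208) (.e (nat_lit 622624) (nat_lit 13) (.e (nat_lit 2668) (nat_lit 167) .nil)))))))) (.g (nat_lit 1) (.e (nat_lit 216123) (nat_lit 0) .nil) .nil))) 
(.lf (nat_lit 517748) (.g (nat_lit 1641) (.e (nat_lit 196666) (nat_lit 13) (.e (nat_lit 65617) (nat_lit 10) (.e (nat_lit 344125) (nat_lit 25) (.e (nat_lit 548890) (nat_lit 10) (.e (nat_lit 73782) (nat_lit 32) (.e (nat_lit 2663) (nat_lit 167) .nil)))))) (.g (nat_lit 1) (.e (nat_lit 216825) (nat_lit 0) .nil) .nil)))) (.nd (nat_lit 9) 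
(.lf (nat_lit 517492) (.g (nat_lit 1473) (.e (nat_lit 196666) (nat_lit 13) (.e (nat_lit 65610) (nat_lit 10) (.e (nat_lit 344117) (nat_lit 21) (.e (nat_lit 516185) (nat_lit 16) .nil)))) (.g (nat_lit 0) (.e (nat_lit 216453) (nat_lit 0) .nil) .nil))) 
(.lf (nat_lit 518004) (.g (nat_lit 957) (.e (nat_lit 196666) (nat_lit 13) (.e (nat_lit 65619) (nat_lit 10) (.e (nat_lit 344117) (nat_lit 21) (.e (nat_lit 516098) (nat_lit 0) .nil)))) (.g (nat_lit 0) (.e (nat_lit 217124) (nat_lit 0) .nil) .nil))))) (.nd (nat_lit 8) (.nd (nat_lit 9) 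
(.lf (nat_lit 517364) (.g (nat_lit 4013) (.e (nat_lit 196666) (nat_lit 13) (.e (nat_lit 65610) (nat_lit 10) (.e (nat_lit 344117) (nat_lit 21) (.e (nat_lit 516151) (nat_lit 9) (.e (nat_lit 426047) (nat_lit 0) (.e (nat_lit 2422) (nat_lit 157) (.e (nat_lit 4849) (nat_lit 285) (.e (nat_lit 163869) (nat_lit 2) .nil)))))))) (.g (nat_lit 1) (.e (nat_lit 216251) (nat_lit 0) .nil) .nil))) 
(.lf (nat_lit 517876) (.g (nat_lit 2501) (.e (nat_lit 196666) (nat_lit 13) (.e (nat_lit 65617) (nat_lit 10) (.e (nat_lit 344130) (nat_lit 26) (.e (nat_lit 557090) (nat_lit 12) (.e (nat_lit 163847) (nat_lit 0) (.e (nat_lit 6420) (nat_lit 341) (.e (nat_lit 163843) (nat_lit 0) (.e (nat_lit 7936) (nat_lit 388) (.e (nat_lit 2668) (nat_lit 167) .nil))))))))) (.g (nat_lit 1) (.e (nat_lit 216981) (nat_lit 0) .nil) .nil)))) 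
(.nd (nat_lit 9) 
(.lf (nat_lit 517620) (.g (nat_lit 2229) (.e (nat_lit 196666) (nat_lit 13) (.e (nat_lit 65610) (nat_lit 10) (.e (nat_lit 344129) (nat_lit 26) (.e (nat_lit 557090) (nat_lit 12) (.e (nat_lit 163840) (nat_lit 0) (.e (nat_lit 6252) (nat_lit 337) (.e (nat_lit 2725) (nat_lit 172) (.e (nat_lit 237589) (nat_lit 2) .nil)))))))) (.g (nat_lit 1) (.e (nat_lit 216668) (nat_lit 0) .nil) .nil))) 
(.lf (nat_lit 518132) (.g (nat_lit 2159) (.e (nat_lit 196668) (nat_lit 14) (.e (nat_lit 73746) (nat_lit 3) (.e (nat_lit 516117) (nat_lit 1) (.e (nat_lit 164182) (nat_lit 154) (.e (nat_lit 57378) (nat_lit 3) .nil))))) (.g (nat_lit 0) (.e (nat_lit 217389) (nat_lit 0) .nil) .nil))))))))) (.nd (nat_lit 4) (.nd (nat_lit 5) (.nd (nat_lit 6) (.nd (nat_lit 7) (.nd (nat_lit 8) (.nd (nat_lit 9) 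
(.lf (nat_lit 517132) (.g (nat_lit 4609) (.e (nat_lit 196666) (nat_lit 13) (.e (nat_lit 65610) (nat_lit 10) (.e (nat_lit 344117) (nat_lit 21) (.e (nat_lit 516151) (nat_lit 9) (.e (nat_lit 426037) (nat_lit 0) (.e (nat_lit 3370) (nat_lit 208) (.e (nat_lit 622627) (nat_lit 13) (.e (nat_lit 2663) (nat_lit 167) .nil)))))))) (.g (nat_lit 1) (.e (nat_lit 216019) (nat_lit 0) .nil) .nil))) 
(.lf (nat_lit 517644) (.g (nat_lit 4257) (.e (nat_lit 196666) (nat_lit 13) (.e (nat_lit 65610) (nat_lit 10) (.e (nat_lit 344129) (nat_lit 26) (.e (nat_lit 557090) (nat_lit 12) (.e (nat_lit 163843) (nat_lit 0) (.e (nat_lit 6255) (nat_lit 337) (.e (nat_lit 2725) (nat_lit 172) (.e (nat_lit 237587) (nat_lit 2) .nil)))))))) (.g (nat_lit 1) (.e (nat_lit 216705) (nat_lit 0) .nil) .nil)))) 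
(.nd (nat_lit 9) 
(.lf (nat_lit 517388) (.g (nat_lit 4009) (.e (nat_lit 196666) (nat_lit 13) (.e (nat_lit 65610) (nat_lit 10) (.e (nat_lit 344117) (nat_lit 21) (.e (nat_lit 516151) (nat_lit 9) (.e (nat_lit 426047) (nat_lit 0) (.e (nat_lit 2438) (nat_lit 157) (.e (nat_lit 4817) (nat_lit 281) (.e (nat_lit 2477) (nat_lit 157) (.e (nat_lit 2663) (nat_lit 167) .nil))))))))) (.g (nat_lit 1) (.e (nat_lit 216275) (nat_lit 0) .nil) .nil))) 
(.lf (nat_lit 517900) (.g (nat_lit 2540) (.e (nat_lit 196666) (nat_lit 13) (.e (nat_lit 65617) (nat_lit 10) (.e (nat_lit 344130) (nat_lit 26) (.e (nat_lit 557090) (nat_lit 12) (.e (nat_lit 164022) (nat_lit 46) (.e (nat_lit 704628) (nat_lit 9) (.e (nat_lit 435) (nat_lit 32) (.e (nat_lit 426122) (nat_lit 2) .nil)))))))) (.g (nat_lit 1) (.e (nat_lit 217005) (nat_lit 0) .nil) .nil))))) 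
(.nd (nat_lit 8) (.nd (nat_lit 9) 
(.lf (nat_lit 517260) (.g (nat_lit 3234) (.e (nat_lit 196666) (nat_lit 13) (.e (nat_lit 65610) (nat_lit 10) (.e (nat_lit 344117) (nat_lit 21) (.e (nat_lit 516151) (nat_lit 9) (.e (nat_lit 426042) (nat_lit 0) (.e (nat_lit 2423) (nat_lit 157) (.e (nat_lit 4762) (nat_lit 281) (.e (nat_lit 2463) (nat_lit 157) (.e (nat_lit 2666) (nat_lit 167) .nil))))))))) (.g (nat_lit 1) (.e (nat_lit 216147) (nat_lit 0) .nil) .nil))) 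
(.lf (nat_lit 517772) (.g (nat_lit 2955) (.e (nat_lit 196666) (nat_lit 13) (.e (nat_lit 65617) (nat_lit 10) (.e (nat_lit 344127) (nat_lit 26) (.e (nat_lit 557090) (nat_lit 12) (.e (nat_lit 163847) (nat_lit 0) (.e (nat_lit 6252) (nat_lit 337) (.e (nat_lit 2630) (nat_lit 164) (.e (nat_lit 172062) (nat_lit 2) .nil)))))))) (.g (nat_lit 1) (.e (nat_lit 216860) (nat_lit 0) .nil) .nil)))) 
(.nd (nat_lit 9) 
(.lf (nat_lit 517516) (.g (nat_lit 440) (.e (nat_lit 196666) (nat_lit 13) (.e (nat_lit 65610) (nat_lit 10) (.e (nat_lit 344128) (nat_lit 26) .nil))) (.g (nat_lit 0) (.e (nat_lit 216504) (nat_lit 0) .nil) .nil))) 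
(.lf (nat_lit 518028) (.g (nat_lit 2377) (.e (nat_lit 196666) (nat_lit 13) (.e (nat_lit 65622) (nat_lit 12) (.e (nat_lit 385066) (nat_lit 26) (.e (nat_lit 532515) (nat_lit 3) (.e (nat_lit 114697) (nat_lit 11) (.e (nat_lit 426122) (nat_lit 2) .nil)))))) (.g (nat_lit 1) (.e (nat_lit 217149) (nat_lit 0) .nil) .nil)))))) (.nd (nat_lit 7) (.nd (nat_lit 8) (.nd (nat_lit 9) 
(.lf (nat_lit 517196) (.g (nat_lit 3143) (.e (nat_lit 196666) (nat_lit 13) (.e (nat_lit 65610) (nat_lit 10) (.e (nat_lit 344117) (nat_lit 21) (.e (nat_lit 516151) (nat_lit 9) (.e (nat_lit 426038) (nat_lit 0) (.e (nat_lit 3370) (nat_lit 208) (.e (nat_lit 622621) (nat_lit 13) (.e (nat_lit 2662) (nat_lit 167) .nil)))))))) (.g (nat_lit 1) (.e (nat_lit 216083) (nat_lit 0) .nil) .nil))) 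
(.lf (nat_lit 517708) (.g (nat_lit 235) (.e (nat_lit 196666) (nat_lit 13) (.e (nat_lit 65616) (nat_lit 10) (.e (nat_lit 344126) (nat_lit 25) .nil))) (.g (nat_lit 0) (.e (nat_lit 216778) (nat_lit 0) .nil) .nil)))) (.nd (nat_lit 9) 
(.lf (nat_lit 517452) (.g (nat_lit 2777) (.e (nat_lit 196666) (nat_lit 13) (.e (nat_lit 65610) (nat_lit 10) (.e (nat_lit 344117) (nat_lit 21) (.e (nat_lit 516159) (nat_lit 10) (.e (nat_lit 434276) (nat_lit 39) (.e (nat_lit 663559) (nat_lit 0) (.e (nat_lit 7936) (nat_lit 11) .nil))))))) (.g (nat_lit 1) (.e (nat_lit 216375) (nat_lit 0) .nil) .nil))) 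
(.lf (nat_lit 517964) (.g (nat_lit 4349) (.e (nat_lit 196666) (nat_lit 13) (.e (nat_lit 65617) (nat_lit 10) (.e (nat_lit 344133) (nat_lit 26) (.e (nat_lit 557090) (nat_lit 12) (.e (nat_lit 164020) (nat_lit 45) (.e (nat_lit 696327) (nat_lit 5) (.e (nat_lit 2884) (nat_lit 184) (.e (nat_lit 426125) (nat_lit 2) .nil)))))))) (.g (nat_lit 1) (.e (nat_lit 217078) (nat_lit 0) .nil) .nil))))) 
(.nd (nat_lit 8) (.nd (nat_lit 9) 
(.lf (nat_lit 517324) (.g (nat_lit 4170) (.e (nat_lit 196666) (nat_lit 13) (.e (nat_lit 65610) (nat_lit 10) (.e (nat_lit 344117) (nat_lit 21) (.e (nat_lit 516151) (nat_lit 9) (.e (nat_lit 426045) (nat_lit 0) (.e (nat_lit 3371) (nat_lit 208) (.e (nat_lit 622625) (nat_lit 13) (.e (nat_lit 2663) (nat_lit 167) .nil)))))))) (.g (nat_lit 1) (.e (nat_lit 216211) (nat_lit 0) .nil) .nil))) 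
(.lf (nat_lit 517836) (.g (nat_lit 2403) (.e (nat_lit 196666) (nat_lit 13) (.e (nat_lit 65617) (nat_lit 10) (.e (nat_lit 344130) (nat_lit 26) (.e (nat_lit 557087) (nat_lit 11) (.e (nat_lit 24576) (nat_lit 0) (.e (nat_lit 7936) (nat_lit 357) (.e (nat_lit 2668) (nat_lit 167) .nil))))))) (.g (nat_lit 1) (.e (nat_lit 216939) (nat_lit 0) .nil) .nil)))) (.nd (nat_lit 9) 
(.lf (nat_lit 517580) (.g (nat_lit 2915) (.e (nat_lit 196666) (nat_lit 13) (.e (nat_lit 65610) (nat_lit 10) (.e (nat_lit 344129) (nat_lit 26) (.e (nat_lit 557087) (nat_lit 11) (.e (nat_lit 24576) (nat_lit 0) (.e (nat_lit 6619) (nat_lit 357) (.e (nat_lit 2668) (nat_lit 167) .nil))))))) (.g (nat_lit 1) (.e (nat_lit 216623) (nat_lit 0) .nil) .nil))) 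
(.lf (nat_lit 518092) (.g (nat_lit 4626) (.e (nat_lit 196666) (nat_lit 13) (.e (nat_lit 65630) (nat_lit 14) (.e (nat_lit 401428) (nat_lit 3) (.e (nat_lit 204846) (nat_lit 24) (.e (nat_lit 319490) (nat_lit 0) (.e (nat_lit 5664) (nat_lit 312) (.e (nat_lit 2661) (nat_lit 167) .nil))))))) (.g (nat_lit 1) (.e (nat_lit 217262) (nat_lit 0) .nil) .nil))))))) 
(.nd (nat_lit 6) (.nd (nat_lit 7) (.nd (nat_lit 8) (.nd (nat_lit 9) 
(.lf (nat_lit 517164) (.g (nat_lit 4033) (.e (nat_lit 196666) (nat_lit 13) (.e (nat_lit 65610) (nat_lit 10) (.e (nat_lit 344117) (nat_lit 21) (.e (nat_lit 516151) (nat_lit 9) (.e (nat_lit 426038) (nat_lit 0) (.e (nat_lit 2426) (nat_lit 157) (.e (nat_lit 4778) (nat_lit 281) (.e (nat_lit 2479) (nat_lit 157) (.e (nat_lit 2663) (nat_lit 167) .nil))))))))) (.g (nat_lit 1) (.e (nat_lit 216051) (nat_lit 0) .nil) .nil))) 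
(.lf (nat_lit 517676) (.g (nat_lit 2664) (.e (nat_lit 196666) (nat_lit 13) (.e (nat_lit 65610) (nat_lit 10) (.e (nat_lit 344129) (nat_lit 26) (.e (nat_lit 557090) (nat_lit 12) (.e (nat_lit 164018) (nat_lit 45) (.e (nat_lit 696326) (nat_lit 5) (.e (nat_lit 2878) (nat_lit 184) (.e (nat_lit 426125) (nat_lit 2) .nil)))))))) (.g (nat_lit 1) (.e (nat_lit 216745) (nat_lit 0) .nil) .nil)))) 
(.nd (nat_lit 9) 
(.lf (nat_lit 517420) (.g (nat_lit 2714) (.e (nat_lit 196666) (nat_lit 13) (.e (nat_lit 65610) (nat_lit 10) (.e (nat_lit 344117) (nat_lit 21) (.e (nat_lit 516151) (nat_lit 9) (.e (nat_lit 426097) (nat_lit 1) (.e (nat_lit 164405) (nat_lit 257) (.e (nat_lit 130816) (nat_lit 63) .nil))))))) (.g (nat_lit 1) (.e (nat_lit 216307) (nat_lit 0) .nil) .nil))) 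
(.lf (nat_lit 517932) (.g (nat_lit 2977) (.e (nat_lit 196666) (nat_lit 13) (.e (nat_lit 65617) (nat_lit 10) (.e (nat_lit 344132) (nat_lit 26) (.e (nat_lit 557094) (nat_lit 12) (.e (nat_lit 164022) (nat_lit 46) (.e (nat_lit 704628) (nat_lit 9) (.e (nat_lit 373) (nat_lit 32) (.e (nat_lit 426120) (nat_lit 2) .nil)))))))) (.g (nat_lit 1) (.e (nat_lit 217041) (nat_lit 0) .nil) .nil))))) 
(.nd (nat_lit 8) (.nd (nat_lit 9) 
(.lf (nat_lit 517292) (.g (nat_lit 4082) (.e (nat_lit 196666) (nat_lit 13) (.e (nat_lit 65610) (nat_lit 10) (.e (nat_lit 344117) (nat_lit 21) (.e (nat_lit 516151) (nat_lit 9) (.e (nat_lit 426045) (nat_lit 0) (.e (nat_lit 2423) (nat_lit 157) (.e (nat_lit 4821) (nat_lit 281) (.e (nat_lit 2477) (nat_lit 157) (.e (nat_lit 2663) (nat_lit 167) .nil))))))))) (.g (nat_lit 1) (.e (nat_lit 216179) (nat_lit 0) .nil) .nil))) 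
(.lf (nat_lit 517804) (.g (nat_lit 3004) (.e (nat_lit 196666) (nat_lit 13) (.e (nat_lit 65617) (nat_lit 10) (.e (nat_lit 344127) (nat_lit 26) (.e (nat_lit 557090) (nat_lit 12) (.e (nat_lit 164019) (nat_lit 45) (.e (nat_lit 696344) (nat_lit 8) (.e (nat_lit 172062) (nat_lit 2) .nil))))))) (.g (nat_lit 1) (.e (nat_lit 216895) (nat_lit 0) .nil) .nil)))) (.nd (nat_lit 9) 
(.lf (nat_lit 517548) (.g (nat_lit 2792) (.e (nat_lit 196666) (nat_lit 13) (.e (nat_lit 65610) (nat_lit 10) (.e (nat_lit 344129) (nat_lit 26) (.e (nat_lit 557067) (nat_lit 9) (.e (nat_lit 2467) (nat_lit 157) .nil))))) (.g (nat_lit 0) (.e (nat_lit 216552) (nat_lit 0) .nil) .nil))) 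
(.lf (nat_lit 518060) (.g (nat_lit 1287) (.e (nat_lit 196666) (nat_lit 13) (.e (nat_lit 65628) (nat_lit 14) (.e (nat_lit 401423) (nat_lit 2) (.e (nat_lit 196663) (nat_lit 13) .nil)))) (.g (nat_lit 0) (.e (nat_lit 217215) (nat_lit 0) .nil) .nil)))))) (.nd (nat_lit 7) (.nd (nat_lit 8) (.nd (nat_lit 9) 
(.lf (nat_lit 517228) (.g (nat_lit 3537) (.e (nat_lit 196666) (nat_lit 13) (.e (nat_lit 65610) (nat_lit 10) (.e (nat_lit 344117) (nat_lit 21) (.e (nat_lit 516151) (nat_lit 9) (.e (nat_lit 426040) (nat_lit 0) (.e (nat_lit 3366) (nat_lit 208) (.e (nat_lit 622622) (nat_lit 13) (.e (nat_lit 2662) (nat_lit 167) .nil)))))))) (.g (nat_lit 1) (.e (nat_lit 216115) (nat_lit 0) .nil) .nil))) 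
(.lf (nat_lit 517740) (.g (nat_lit 3978) (.e (nat_lit 196666) (nat_lit 13) (.e (nat_lit 65617) (nat_lit 10) (.e (nat_lit 344117) (nat_lit 21) (.e (nat_lit 516139) (nat_lit 7) (.e (nat_lit 409623) (nat_lit 10) (.e (nat_lit 5664) (nat_lit 312) (.e (nat_lit 2661) (nat_lit 167) .nil))))))) (.g (nat_lit 1) (.e (nat_lit 216816) (nat_lit 0) .nil) .nil)))) (.nd (nat_lit 9) 
(.lf (nat_lit 517484) (.g (nat_lit 2874) (.e (nat_lit 196666) (nat_lit 13) (.e (nat_lit 65610) (nat_lit 10) (.e (nat_lit 344117) (nat_lit 21) (.e (nat_lit 516160) (nat_lit 10) (.e (nat_lit 434278) (nat_lit 39) (.e (nat_lit 663555) (nat_lit 0) (.e (nat_lit 7936) (nat_lit 11) .nil))))))) (.g (nat_lit 1) (.e (nat_lit 216438) (nat_lit 0) .nil) .nil))) 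
(.lf (nat_lit 517996) (.g (nat_lit 1344) (.e (nat_lit 196666) (nat_lit 13) (.e (nat_lit 65617) (nat_lit 10) (.e (nat_lit 344133) (nat_lit 26) (.e (nat_lit 557092) (nat_lit 12) .nil)))) (.g (nat_lit 0) (.e (nat_lit 217110) (nat_lit 0) .nil) .nil))))) (.nd (nat_lit 8) (.nd (nat_lit 9) 
(.lf (nat_lit 517356) (.g (nat_lit 2864) (.e (nat_lit 196666) (nat_lit 13) (.e (nat_lit 65610) (nat_lit 10) (.e (nat_lit 344117) (nat_lit 21) (.e (nat_lit 516151) (nat_lit 9) (.e (nat_lit 426046) (nat_lit 0) (.e (nat_lit 3366) (nat_lit 208) (.e (nat_lit 622627) (nat_lit 13) (.e (nat_lit 2666) (nat_lit 167) .nil)))))))) (.g (nat_lit 1) (.e (nat_lit 216243) (nat_lit 0) .nil) .nil))) 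
(.lf (nat_lit 517868) (.g (nat_lit 3127) (.e (nat_lit 196666) (nat_lit 13) (.e (nat_lit 65617) (nat_lit 10) (.e (nat_lit 344130) (nat_lit 26) (.e (nat_lit 557090) (nat_lit 12) (.e (nat_lit 163843) (nat_lit 0) (.e (nat_lit 6420) (nat_lit 341) (.e (nat_lit 163843) (nat_lit 0) (.e (nat_lit 7936) (nat_lit 388) (.e (nat_lit 2668) (nat_lit 167) .nil))))))))) (.g (nat_lit 1) (.e (nat_lit 216972) (nat_lit 0) .nil) .nil)))) 
(.nd (nat_lit 9) 
(.lf (nat_lit 517612) (.g (nat_lit 3228) (.e (nat_lit 196666) (nat_lit 13) (.e (nat_lit 65610) (nat_lit 10) (.e (nat_lit 344129) (nat_lit 26) (.e (nat_lit 557089) (nat_lit 12) (.e (nat_lit 163848) (nat_lit 0) (.e (nat_lit 6421) (nat_lit 341) (.e (nat_lit 163900) (nat_lit 12) (.e (nat_lit 426125) (nat_lit 2) .nil)))))))) (.g (nat_lit 1) (.e (nat_lit 216659) (nat_lit 0) .nil) .nil))) 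
(.lf (nat_lit 518124) (.g (nat_lit 2395) (.e (nat_lit 196668) (nat_lit 14) (.e (nat_lit 73746) (nat_lit 3) (.e (nat_lit 516115) (nat_lit 1) (.e (nat_lit 164182) (nat_lit 154) (.e (nat_lit 57378) (nat_lit 3) .nil))))) (.g (nat_lit 0) (.e (nat_lit 217347) (nat_lit 0) .nil) .nil)))))))) (.nd (nat_lit 5) (.nd (nat_lit 6) (.nd (nat_lit 7) (.nd (nat_lit 8) (.nd (nat_lit 9) 
(.lf (nat_lit 517148) (.g (nat_lit 3815) (.e (nat_lit 196666) (nat_lit 13) (.e (nat_lit 65610) (nat_lit 10) (.e (nat_lit 344117) (nat_lit 21) (.e (nat_lit 516151) (nat_lit 9) (.e (nat_lit 426038) (nat_lit 0) (.e (nat_lit 2422) (nat_lit 157) (.e (nat_lit 7936) (nat_lit 285) (.e (nat_lit 163870) (nat_lit 2) .nil)))))))) (.g (nat_lit 1) (.e (nat_lit 216035) (nat_lit 0) .nil) .nil))) 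
(.lf (nat_lit 517660) (.g (nat_lit 2724) (.e (nat_lit 196666) (nat_lit 13) (.e (nat_lit 65610) (nat_lit 10) (.e (nat_lit 344129) (nat_lit 26) (.e (nat_lit 557090) (nat_lit 12) (.e (nat_lit 163848) (nat_lit 0) (.e (nat_lit 6255) (nat_lit 337) (.e (nat_lit 2630) (nat_lit 164) (.e (nat_lit 172062) (nat_lit 2) .nil)))))))) (.g (nat_lit 1) (.e (nat_lit 216726) (nat_lit 0) .nil) .nil)))) 
(.nd (nat_lit 9) 
(.lf (nat_lit 517404) (.g (nat_lit 3618) (.e (nat_lit 196666) (nat_lit 13) (.e (nat_lit 65610) (nat_lit 10) (.e (nat_lit 344117) (nat_lit 21) (.e (nat_lit 516151) (nat_lit 9) (.e (nat_lit 426047) (nat_lit 0) (.e (nat_lit 3369) (nat_lit 208) (.e (nat_lit 630528) (nat_lit 13) (.e (nat_lit 2666) (nat_lit 167) .nil)))))))) (.g (nat_lit 1) (.e (nat_lit 216291) (nat_lit 0) .nil) .nil))) 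
(.lf (nat_lit 517916) (.g (nat_lit 1279) (.e (nat_lit 196666) (nat_lit 13) (.e (nat_lit 65617) (nat_lit 10) (.e (nat_lit 344132) (nat_lit 26) (.e (nat_lit 557073) (nat_lit 9) .nil)))) (.g (nat_lit 0) (.e (nat_lit 217023) (nat_lit 0) .nil) .nil))))) (.nd (nat_lit 8) (.nd (nat_lit 9) 
(.lf (nat_lit 517276) (.g (nat_lit 3053) (.e (nat_lit 196666) (nat_lit 13) (.e (nat_lit 65610) (nat_lit 10) (.e (nat_lit 344117) (nat_lit 21) (.e (nat_lit 516151) (nat_lit 9) (.e (nat_lit 426042) (nat_lit 0) (.e (nat_lit 3370) (nat_lit 208) (.e (nat_lit 622622) (nat_lit 13) (.e (nat_lit 2662) (nat_lit 167) .nil)))))))) (.g (nat_lit 1) (.e (nat_lit 216163) (nat_lit 0) .nil) .nil))) 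
(.lf (nat_lit 517788) (.g (nat_lit 2813) (.e (nat_lit 196666) (nat_lit 13) (.e (nat_lit 65617) (nat_lit 10) (.e (nat_lit 344127) (nat_lit 26) (.e (nat_lit 557090) (nat_lit 12) (.e (nat_lit 163852) (nat_lit 0) (.e (nat_lit 6425) (nat_lit 342) (.e (nat_lit 229399) (nat_lit 12) (.e (nat_lit 426125) (nat_lit 2) .nil)))))))) (.g (nat_lit 1) (.e (nat_lit 216876) (nat_lit 0) .nil) .nil)))) 
(.nd (nat_lit 9) 
(.lf (nat_lit 517532) (.g (nat_lit 1854) (.e (nat_lit 196666) (nat_lit 13) (.e (nat_lit 65610) (nat_lit 10) (.e (nat_lit 344129) (nat_lit 26) (.e (nat_lit 557065) (nat_lit 9) (.e (nat_lit 2740) (nat_lit 174) .nil))))) (.g (nat_lit 0) (.e (nat_lit 216522) (nat_lit 0) .nil) .nil))) 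
(.lf (nat_lit 518044) (.g (nat_lit 1547) (.e (nat_lit 196666) (nat_lit 13) (.e (nat_lit 65624) (nat_lit 12) (.e (nat_lit 385066) (nat_lit 26) (.e (nat_lit 532514) (nat_lit 3) .nil)))) (.g (nat_lit 0) (.e (nat_lit 217176) (nat_lit 0) .nil) .nil)))))) (.nd (nat_lit 7) (.nd (nat_lit 8) (.nd (nat_lit 9) 
(.lf (nat_lit 517212) (.g (nat_lit 4808) (.e (nat_lit 196666) (nat_lit 13) (.e (nat_lit 65610) (nat_lit 10) (.e (nat_lit 344117) (nat_lit 21) (.e (nat_lit 516151) (nat_lit 9) (.e (nat_lit 426040) (nat_lit 0) (.e (nat_lit 2423) (nat_lit 157) (.e (nat_lit 4821) (nat_lit 281) (.e (nat_lit 2477) (nat_lit 157) (.e (nat_lit 2663) (nat_lit 167) .nil))))))))) (.g (nat_lit 1) (.e (nat_lit 216099) (nat_lit 0) .nil) .nil))) 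
(.lf (nat_lit 517724) (.g (nat_lit 3080) (.e (nat_lit 196666) (nat_lit 13) (.e (nat_lit 65617) (nat_lit 10) (.e (nat_lit 344117) (nat_lit 21) (.e (nat_lit 516106) (nat_lit 0) (.e (nat_lit 6966) (nat_lit 377) (.e (nat_lit 2815) (nat_lit 181) (.e (nat_lit 311311) (nat_lit 2) .nil))))))) (.g (nat_lit 1) (.e (nat_lit 216800) (nat_lit 0) .nil) .nil)))) (.nd (nat_lit 9) 
(.lf (nat_lit 517468) (.g (nat_lit 2764) (.e (nat_lit 196666) (nat_lit 13) (.e (nat_lit 65610) (nat_lit 10) (.e (nat_lit 344117) (nat_lit 21) (.e (nat_lit 516160) (nat_lit 10) (.e (nat_lit 434275) (nat_lit 39) (.e (nat_lit 663552) (nat_lit 0) (.e (nat_lit 163) (nat_lit 11) .nil))))))) (.g (nat_lit 1) (.e (nat_lit 216421) (nat_lit 0) .nil) .nil))) 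
(.lf (nat_lit 517980) (.g (nat_lit 4088) (.e (nat_lit 196666) (nat_lit 13) (.e (nat_lit 65617) (nat_lit 10) (.e (nat_lit 344133) (nat_lit 26) (.e (nat_lit 557091) (nat_lit 12) (.e (nat_lit 164016) (nat_lit 44) (.e (nat_lit 688141) (nat_lit 5) (.e (nat_lit 2883) (nat_lit 184) (.e (nat_lit 426125) (nat_lit 2) .nil)))))))) (.g (nat_lit 1) (.e (nat_lit 217094) (nat_lit 0) .nil) .nil))))) 
(.nd (nat_lit 8) (.nd (nat_lit 9) 
(.lf (nat_lit 517340) (.g (nat_lit 4173) (.e (nat_lit 196666) (nat_lit 13) (.e (nat_lit 65610) (nat_lit 10) (.e (nat_lit 344117) (nat_lit 21) (.e (nat_lit 516151) (nat_lit 9) (.e (nat_lit 426049) (nat_lit 0) (.e (nat_lit 3366) (nat_lit 208) (.e (nat_lit 622627) (nat_lit 13) (.e (nat_lit 2665) (nat_lit 167) .nil)))))))) (.g (nat_lit 1) (.e (nat_lit 216227) (nat_lit 0) .nil) .nil))) 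
(.lf (nat_lit 517852) (.g (nat_lit 1058) (.e (nat_lit 196666) (nat_lit 13) (.e (nat_lit 65617) (nat_lit 10) (.e (nat_lit 344130) (nat_lit 26) (.e (nat_lit 557089) (nat_lit 12) .nil)))) (.g (nat_lit 0) (.e (nat_lit 216956) (nat_lit 0) .nil) .nil)))) (.nd (nat_lit 9) 
(.lf (nat_lit 517596) (.g (nat_lit 4465) (.e (nat_lit 196666) (nat_lit 13) (.e (nat_lit 65610) (nat_lit 10) (.e (nat_lit 344129) (nat_lit 26) (.e (nat_lit 557087) (nat_lit 11) (.e (nat_lit 24662) (nat_lit 14) (.e (nat_lit 401424) (nat_lit 2) .nil)))))) (.g (nat_lit 1) (.e (nat_lit 216641) (nat_lit 0) .nil) .nil))) 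
(.lf (nat_lit 518108) (.g (nat_lit 1600) (.e (nat_lit 196667) (nat_lit 14) (.e (nat_lit 73755) (nat_lit 8) (.e (nat_lit 557105) (nat_lit 14) (.e (nat_lit 180252) (nat_lit 10) .nil)))) (.g (nat_lit 0) (.e (nat_lit 217287) (nat_lit 0) .nil) .nil))))))) (.nd (nat_lit 6) (.nd (nat_lit 7) (.nd (nat_lit 8) (.nd (nat_lit 9) 
(.lf (nat_lit 517180) (.g (nat_lit 4398) (.e (nat_lit 196666) (nat_lit 13) (.e (nat_lit 65610) (nat_lit 10) (.e (nat_lit 344117) (nat_lit 21) (.e (nat_lit 516151) (nat_lit 9) (.e (nat_lit 426038) (nat_lit 0) (.e (nat_lit 3366) (nat_lit 208) (.e (nat_lit 622625) (nat_lit 13) (.e (nat_lit 2663) (nat_lit 167) .nil)))))))) (.g (nat_lit 1) (.e (nat_lit 216067) (nat_lit 0) .nil) .nil))) 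
(.lf (nat_lit 517692) (.g (nat_lit 4284) (.e (nat_lit 196666) (nat_lit 13) (.e (nat_lit 65610) (nat_lit 10) (.e (nat_lit 344129) (nat_lit 26) (.e (nat_lit 557091) (nat_lit 12) (.e (nat_lit 164022) (nat_lit 46) .nil))))) (.g (nat_lit 0) (.e (nat_lit 216761) (nat_lit 0) .nil) .nil)))) (.nd (nat_lit 9) 
(.lf (nat_lit 517436) (.g (nat_lit 2491) (.e (nat_lit 196666) (nat_lit 13) (.e (nat_lit 65610) (nat_lit 10) (.e (nat_lit 344117) (nat_lit 21) (.e (nat_lit 516159) (nat_lit 10) (.e (nat_lit 434274) (nat_lit 39) (.e (nat_lit 663557) (nat_lit 0) (.e (nat_lit 7936) (nat_lit 11) .nil))))))) (.g (nat_lit 1) (.e (nat_lit 216359) (nat_lit 0) .nil) .nil))) 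
(.lf (nat_lit 517948) (.g (nat_lit 2936) (.e (nat_lit 196666) (nat_lit 13) (.e (nat_lit 65617) (nat_lit 10) (.e (nat_lit 344133) (nat_lit 26) (.e (nat_lit 557087) (nat_lit 11) (.e (nat_lit 24580) (nat_lit 0) (.e (nat_lit 6696) (nat_lit 357) (.e (nat_lit 2663) (nat_lit 167) .nil))))))) (.g (nat_lit 1) (.e (nat_lit 217062) (nat_lit 0) .nil) .nil))))) (.nd (nat_lit 8) (.nd (nat_lit 9) 
(.lf (nat_lit 517308) (.g (nat_lit 3395) (.e (nat_lit 196666) (nat_lit 13) (.e (nat_lit 65610) (nat_lit 10) (.e (nat_lit 344117) (nat_lit 21) (.e (nat_lit 516151) (nat_lit 9) (.e (nat_lit 426045) (nat_lit 0) (.e (nat_lit 3369) (nat_lit 208) (.e (nat_lit 622621) (nat_lit 13) (.e (nat_lit 2668) (nat_lit 167) .nil)))))))) (.g (nat_lit 1) (.e (nat_lit 216195) (nat_lit 0) .nil) .nil))) 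
(.lf (nat_lit 517820) (.g (nat_lit 1981) (.e (nat_lit 196666) (nat_lit 13) (.e (nat_lit 65617) (nat_lit 10) (.e (nat_lit 344130) (nat_lit 26) (.e (nat_lit 557067) (nat_lit 9) (.e (nat_lit 20) (nat_lit 0) .nil))))) (.g (nat_lit 0) (.e (nat_lit 216912) (nat_lit 0) .nil) .nil)))) (.nd (nat_lit 9) 
(.lf (nat_lit 517564) (.g (nat_lit 2398) (.e (nat_lit 196666) (nat_lit 13) (.e (nat_lit 65610) (nat_lit 10) (.e (nat_lit 344129) (nat_lit 26) (.e (nat_lit 557072) (nat_lit 9) .nil)))) (.g (nat_lit 0) (.e (nat_lit 216576) (nat_lit 0) .nil) .nil))) 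
(.lf (nat_lit 518076) (.g (nat_lit 802) (.e (nat_lit 196666) (nat_lit 13) (.e (nat_lit 65630) (nat_lit 14) (.e (nat_lit 401410) (nat_lit 0) .nil))) (.g (nat_lit 0) (.e (nat_lit 217234) (nat_lit 0) .nil) .nil)))))) (.nd (nat_lit 7) (.nd (nat_lit 8) (.nd (nat_lit 9) 
(.lf (nat_lit 517244) (.g (nat_lit 3734) (.e (nat_lit 196666) (nat_lit 13) (.e (nat_lit 65610) (nat_lit 10) (.e (nat_lit 344117) (nat_lit 21) (.e (nat_lit 516151) (nat_lit 9) (.e (nat_lit 426040) (nat_lit 0) (.e (nat_lit 3370) (nat_lit 208) (.e (nat_lit 622624) (nat_lit 13) (.e (nat_lit 2668) (nat_lit 167) .nil)))))))) (.g (nat_lit 1) (.e (nat_lit 216131) (nat_lit 0) .nil) .nil))) 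
(.lf (nat_lit 517756) (.g (nat_lit 3234) (.e (nat_lit 196666) (nat_lit 13) (.e (nat_lit 65617) (nat_lit 10) (.e (nat_lit 344127) (nat_lit 26) (.e (nat_lit 557088) (nat_lit 12) (.e (nat_lit 164020) (nat_lit 45) (.e (nat_lit 696344) (nat_lit 8) (.e (nat_lit 172062) (nat_lit 2) .nil))))))) (.g (nat_lit 1) (.e (nat_lit 216843) (nat_lit 0) .nil) .nil)))) (.nd (nat_lit 9) 
(.lf (nat_lit 517500) (.g (nat_lit 3745) (.e (nat_lit 196666) (nat_lit 13) (.e (nat_lit 65610) (nat_lit 10) (.e (nat_lit 344117) (nat_lit 21) (.e (nat_lit 516185) (nat_lit 16) (.e (nat_lit 491528) (nat_lit 0) (.e (nat_lit 7936) (nat_lit 357) (.e (nat_lit 2666) (nat_lit 167) .nil))))))) (.g (nat_lit 1) (.e (nat_lit 216461) (nat_lit 0) .nil) .nil))) 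
(.lf (nat_lit 518012) (.g (nat_lit 4227) (.e (nat_lit 196666) (nat_lit 13) (.e (nat_lit 65619) (nat_lit 10) (.e (nat_lit 344117) (nat_lit 21) (.e (nat_lit 516139) (nat_lit 7) (.e (nat_lit 409617) (nat_lit 10) (.e (nat_lit 5616) (nat_lit 312) (.e (nat_lit 2668) (nat_lit 167) .nil))))))) (.g (nat_lit 1) (.e (nat_lit 217132) (nat_lit 0) .nil) .nil))))) (.nd (nat_lit 8) (.nd (nat_lit 9) 
(.lf (nat_lit 517372) (.g (nat_lit 3892) (.e (nat_lit 196666) (nat_lit 13) (.e (nat_lit 65610) (nat_lit 10) (.e (nat_lit 344117) (nat_lit 21) (.e (nat_lit 516151) (nat_lit 9) (.e (nat_lit 426047) (nat_lit 0) (.e (nat_lit 2423) (nat_lit 157) (.e (nat_lit 7936) (nat_lit 285) (.e (nat_lit 163870) (nat_lit 2) .nil)))))))) (.g (nat_lit 1) (.e (nat_lit 216259) (nat_lit 0) .nil) .nil))) 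
(.lf (nat_lit 517884) (.g (nat_lit 3478) (.e (nat_lit 196666) (nat_lit 13) (.e (nat_lit 65617) (nat_lit 10) (.e (nat_lit 344130) (nat_lit 26) (.e (nat_lit 557090) (nat_lit 12) (.e (nat_lit 163850) (nat_lit 0) (.e (nat_lit 6273) (nat_lit 337) (.e (nat_lit 2632) (nat_lit 164) (.e (nat_lit 172062) (nat_lit 2) .nil)))))))) (.g (nat_lit 1) (.e (nat_lit 216989) (nat_lit 0) .nil) .nil)))) 
(.nd (nat_lit 9) 
(.lf (nat_lit 517628) (.g (nat_lit 2858) (.e (nat_lit 196666) (nat_lit 13) (.e (nat_lit 65610) (nat_lit 10) (.e (nat_lit 344129) (nat_lit 26) (.e (nat_lit 557090) (nat_lit 12) (.e (nat_lit 163841) (nat_lit 0) (.e (nat_lit 6252) (nat_lit 337) (.e (nat_lit 2630) (nat_lit 164) (.e (nat_lit 172062) (nat_lit 2) .nil)))))))) (.g (nat_lit 1) (.e (nat_lit 216676) (nat_lit 0) .nil) .nil))) 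
(.lf (nat_lit 518140) (.g (nat_lit 1957) (.e (nat_lit 196668) (nat_lit 14) (.e (nat_lit 73746) (nat_lit 3) (.e (nat_lit 516118) (nat_lit 1) (.e (nat_lit 164183) (nat_lit 154) (.e (nat_lit 57379) (nat_lit 3) .nil))))) (.g (nat_lit 0) (.e (nat_lit 217422) (nat_lit 0) .nil) .nil))))))))))) 
(.nd (nat_lit 2) (.nd (nat_lit 3) (.nd (nat_lit 4) (.nd (nat_lit 5) (.nd (nat_lit 6) 
(.nd (nat_lit 7) (.nd (nat_lit 8) (.nd (nat_lit 9) 
(.lf (nat_lit 517122) (.g (nat_lit 3416) (.e (nat_lit 196666) (nat_lit 13) (.e (nat_lit 65610) (nat_lit 10) (.e (nat_lit 344117) (nat_lit 21) (.e (nat_lit 516151) (nat_lit 9) (.e (nat_lit 426037) (nat_lit 0) (.e (nat_lit 3369) (nat_lit 208) (.e (nat_lit 622624) (nat_lit 13) (.e (nat_lit 2668) (nat_lit 167) .nil)))))))) (.g (nat_lit 1) (.e (nat_lit 216009) (nat_lit 0) .nil) .nil))) 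
(.lf (nat_lit 517634) (.g (nat_lit 2075) (.e (nat_lit 196666) (nat_lit 13) (.e (nat_lit 65610) (nat_lit 10) (.e (nat_lit 344129) (nat_lit 26) (.e (nat_lit 557090) (nat_lit 12) (.e (nat_lit 163841) (nat_lit 0) (.e (nat_lit 6421) (nat_lit 341) (.e (nat_lit 163900) (nat_lit 12) (.e (nat_lit 426125) (nat_lit 2) .nil)))))))) (.g (nat_lit 1) (.e (nat_lit 216682) (nat_lit 0) .nil) .nil)))) 
(.nd (nat_lit 9) 
(.lf (nat_lit 517378) (.g (nat_lit 3784) (.e (nat_lit 196666) (nat_lit 13) (.e (nat_lit 65610) (nat_lit 10) (.e (nat_lit 344117) (nat_lit 21) (.e (nat_lit 516151) (nat_lit 9) (.e (nat_lit 426047) (nat_lit 0) (.e (nat_lit 2425) (nat_lit 157) (.e (nat_lit 4848) (nat_lit 285) (.e (nat_lit 163870) (nat_lit 2) .nil)))))))) (.g (nat_lit 1) (.e (nat_lit 216265) (nat_lit 0) .nil) .nil))) 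
(.lf (nat_lit 517890) (.g (nat_lit 2984) (.e (nat_lit 196666) (nat_lit 13) (.e (nat_lit 65617) (nat_lit 10) (.e (nat_lit 344130) (nat_lit 26) (.e (nat_lit 557090) (nat_lit 12) (.e (nat_lit 164016) (nat_lit 44) (.e (nat_lit 688139) (nat_lit 5) (.e (nat_lit 2887) (nat_lit 184) (.e (nat_lit 426120) (nat_lit 2) .nil)))))))) (.g (nat_lit 1) (.e (nat_lit 216995) (nat_lit 0) .nil) .nil))))) 
(.nd (nat_lit 8) (.nd (nat_lit 9) 
(.lf (nat_lit 517250) (.g (nat_lit 2703) (.e (nat_lit 196666) (nat_lit 13) (.e (nat_lit 65610) (nat_lit 10) (.e (nat_lit 344117) (nat_lit 21) (.e (nat_lit 516151) (nat_lit 9) (.e (nat_lit 426039) (nat_lit 0) (.e (nat_lit 3366) (nat_lit 208) (.e (nat_lit 622627) (nat_lit 13) (.e (nat_lit 2666) (nat_lit 167) .nil)))))))) (.g (nat_lit 1) (.e (nat_lit 216137) (nat_lit 0) .nil) .nil))) 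
(.lf (nat_lit 517762) (.g (nat_lit 3793) (.e (nat_lit 196666) (nat_lit 13) (.e (nat_lit 65617) (nat_lit 10) (.e (nat_lit 344127) (nat_lit 26) (.e (nat_lit 557090) (nat_lit 12) (.e (nat_lit 163843) (nat_lit 0) (.e (nat_lit 6252) (nat_lit 337) (.e (nat_lit 2630) (nat_lit 164) (.e (nat_lit 172062) (nat_lit 2) .nil)))))))) (.g (nat_lit 1) (.e (nat_lit 216849) (nat_lit 0) .nil) .nil)))) 
(.nd (nat_lit 9) 
(.lf (nat_lit 517506) (.g (nat_lit 2734) (.e (nat_lit 196666) (nat_lit 13) (.e (nat_lit 65610) (nat_lit 10) (.e (nat_lit 344117) (nat_lit 21) (.e (nat_lit 516188) (nat_lit 17) .nil)))) (.g (nat_lit 0) (.e (nat_lit 216470) (nat_lit 0) .nil) .nil))) 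
(.lf (nat_lit 518018) (.g (nat_lit 3395) (.e (nat_lit 196666) (nat_lit 13) (.e (nat_lit 65619) (nat_lit 10) (.e (nat_lit 344117) (nat_lit 21) (.e (nat_lit 516139) (nat_lit 7) (.e (nat_lit 409647) (nat_lit 18) .nil))))) (.g (nat_lit 0) (.e (nat_lit 217138) (nat_lit 0) .nil) .nil)))))) (.nd (nat_lit 7) (.nd (nat_lit 8) (.nd (nat_lit 9) 
(.lf (nat_lit 517186) (.g (nat_lit 3687) (.e (nat_lit 196666) (nat_lit 13) (.e (nat_lit 65610) (nat_lit 10) (.e (nat_lit 344117) (nat_lit 21) (.e (nat_lit 516151) (nat_lit 9) (.e (nat_lit 426038) (nat_lit 0) (.e (nat_lit 3369) (nat_lit 208) (.e (nat_lit 622621) (nat_lit 13) (.e (nat_lit 2668) (nat_lit 167) .nil)))))))) (.g (nat_lit 1) (.e (nat_lit 216073) (nat_lit 0) .nil) .nil))) 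
(.lf (nat_lit 517698) (.g (nat_lit 2163) (.e (nat_lit 196666) (nat_lit 13) (.e (nat_lit 65610) (nat_lit 10) (.e (nat_lit 344129) (nat_lit 26) (.e (nat_lit 557111) (nat_lit 16) .nil)))) (.g (nat_lit 0) (.e (nat_lit 216767) (nat_lit 0) .nil) .nil)))) (.nd (nat_lit 9) 
(.lf (nat_lit 517442) (.g (nat_lit 3816) (.e (nat_lit 196666) (nat_lit 13) (.e (nat_lit 65610) (nat_lit 10) (.e (nat_lit 344117) (nat_lit 21) (.e (nat_lit 516159) (nat_lit 10) (.e (nat_lit 434275) (nat_lit 39) (.e (nat_lit 663554) (nat_lit 0) (.e (nat_lit 7936) (nat_lit 11) .nil))))))) (.g (nat_lit 1) (.e (nat_lit 216365) (nat_lit 0) .nil) .nil))) 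
(.lf (nat_lit 517954) (.g (nat_lit 3546) (.e (nat_lit 196666) (nat_lit 13) (.e (nat_lit 65617) (nat_lit 10) (.e (nat_lit 344133) (nat_lit 26) (.e (nat_lit 557089) (nat_lit 12) (.e (nat_lit 163843) (nat_lit 0) (.e (nat_lit 6420) (nat_lit 341) (.e (nat_lit 163900) (nat_lit 12) (.e (nat_lit 426125) (nat_lit 2) .nil)))))))) (.g (nat_lit 1) (.e (nat_lit 217068) (nat_lit 0) .nil) .nil))))) 
(.nd (nat_lit 8) (.nd (nat_lit 9) 
(.lf (nat_lit 517314) (.g (nat_lit 4146) (.e (nat_lit 196666) (nat_lit 13) (.e (nat_lit 65610) (nat_lit 10) (.e (nat_lit 344117) (nat_lit 21) (.e (nat_lit 516151) (nat_lit 9) (.e (nat_lit 426045) (nat_lit 0) (.e (nat_lit 3369) (nat_lit 208) (.e (nat_lit 622627) (nat_lit 13) (.e (nat_lit 2663) (nat_lit 167) .nil)))))))) (.g (nat_lit 1) (.e (nat_lit 216201) (nat_lit 0) .nil) .nil))) 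
(.lf (nat_lit 517826) (.g (nat_lit 1797) (.e (nat_lit 196666) (nat_lit 13) (.e (nat_lit 65617) (nat_lit 10) (.e (nat_lit 344130) (nat_lit 26) (.e (nat_lit 557067) (nat_lit 9) (.e (nat_lit 290) (nat_lit 21) .nil))))) (.g (nat_lit 0) (.e (nat_lit 216927) (nat_lit 0) .nil) .nil)))) (.nd (nat_lit 9) 
(.lf (nat_lit 517570) (.g (nat_lit 814) (.e (nat_lit 196666) (nat_lit 13) (.e (nat_lit 65610) (nat_lit 10) (.e (nat_lit 344129) (nat_lit 26) (.e (nat_lit 557084) (nat_lit 10) .nil)))) (.g (nat_lit 0) (.e (nat_lit 216586) (nat_lit 0) .nil) .nil))) 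
(.lf (nat_lit 518082) (.g (nat_lit 308) (.e (nat_lit 196666) (nat_lit 13) (.e (nat_lit 65630) (nat_lit 14) (.e (nat_lit 401425) (nat_lit 2) .nil))) (.g (nat_lit 0) (.e (nat_lit 217242) (nat_lit 0) .nil) .nil))))))) (.nd (nat_lit 6) (.nd (nat_lit 7) (.nd (nat_lit 8) (.nd (nat_lit 9) 
(.lf (nat_lit 517154) (.g (nat_lit 3574) (.e (nat_lit 196666) (nat_lit 13) (.e (nat_lit 65610) (nat_lit 10) (.e (nat_lit 344117) (nat_lit 21) (.e (nat_lit 516151) (nat_lit 9) (.e (nat_lit 426038) (nat_lit 0) (.e (nat_lit 2423) (nat_lit 157) (.e (nat_lit 4848) (nat_lit 285) (.e (nat_lit 163865) (nat_lit 2) .nil)))))))) (.g (nat_lit 1) (.e (nat_lit 216041) (nat_lit 0) .nil) .nil))) 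
(.lf (nat_lit 517666) (.g (nat_lit 1920) (.e (nat_lit 196666) (nat_lit 13) (.e (nat_lit 65610) (nat_lit 10) (.e (nat_lit 344129) (nat_lit 26) (.e (nat_lit 557090) (nat_lit 12) (.e (nat_lit 163849) (nat_lit 0) .nil))))) (.g (nat_lit 0) (.e (nat_lit 216732) (nat_lit 0) .nil) .nil)))) (.nd (nat_lit 9) 
(.lf (nat_lit 517410) (.g (nat_lit 3276) (.e (nat_lit 196666) (nat_lit 13) (.e (nat_lit 65610) (nat_lit 10) (.e (nat_lit 344117) (nat_lit 21) (.e (nat_lit 516151) (nat_lit 9) (.e (nat_lit 426047) (nat_lit 0) (.e (nat_lit 3370) (nat_lit 208) (.e (nat_lit 622626) (nat_lit 13) (.e (nat_lit 2666) (nat_lit 167) .nil)))))))) (.g (nat_lit 1) (.e (nat_lit 216297) (nat_lit 0) .nil) .nil))) 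
(.lf (nat_lit 517922) (.g (nat_lit 2843) (.e (nat_lit 196666) (nat_lit 13) (.e (nat_lit 65617) (nat_lit 10) (.e (nat_lit 344132) (nat_lit 26) (.e (nat_lit 557091) (nat_lit 12) (.e (nat_lit 164018) (nat_lit 45) .nil))))) (.g (nat_lit 0) (.e (nat_lit 217031) (nat_lit 0) .nil) .nil))))) (.nd (nat_lit 8) (.nd (nat_lit 9) 
(.lf (nat_lit 517282) (.g (nat_lit 2109) (.e (nat_lit 196666) (nat_lit 13) (.e (nat_lit 65610) (nat_lit 10) (.e (nat_lit 344117) (nat_lit 21) (.e (nat_lit 516151) (nat_lit 9) (.e (nat_lit 426042) (nat_lit 0) (.e (nat_lit 3371) (nat_lit 208) (.e (nat_lit 622622) (nat_lit 13) (.e (nat_lit 2654) (nat_lit 167) .nil)))))))) (.g (nat_lit 1) (.e (nat_lit 216169) (nat_lit 0) .nil) .nil))) 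
(.lf (nat_lit 517794) (.g (nat_lit 2397) (.e (nat_lit 196666) (nat_lit 13) (.e (nat_lit 65617) (nat_lit 10) (.e (nat_lit 344127) (nat_lit 26) (.e (nat_lit 557090) (nat_lit 12) (.e (nat_lit 164016) (nat_lit 44) (.e (nat_lit 688139) (nat_lit 5) (.e (nat_lit 2883) (nat_lit 184) (.e (nat_lit 426125) (nat_lit 2) .nil)))))))) (.g (nat_lit 1) (.e (nat_lit 216884) (nat_lit 0) .nil) .nil)))) 
(.nd (nat_lit 9) 
(.lf (nat_lit 517538) (.g (nat_lit 1990) (.e (nat_lit 196666) (nat_lit 13) (.e (nat_lit 65610) (nat_lit 10) (.e (nat_lit 344129) (nat_lit 26) (.e (nat_lit 557067) (nat_lit 9) (.e (nat_lit 2436) (nat_lit 157) .nil))))) (.g (nat_lit 0) (.e (nat_lit 216535) (nat_lit 0) .nil) .nil))) 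
(.lf (nat_lit 518050) (.g (nat_lit 2061) (.e (nat_lit 196666) (nat_lit 13) (.e (nat_lit 65624) (nat_lit 12) (.e (nat_lit 385074) (nat_lit 31) (.e (nat_lit 573454) (nat_lit 9) .nil)))) (.g (nat_lit 0) (.e (nat_lit 217188) (nat_lit 0) .nil) .nil)))))) (.nd (nat_lit 7) (.nd (nat_lit 8) (.nd (nat_lit 9) 
(.lf (nat_lit 517218) (.g (nat_lit 3299) (.e (nat_lit 196666) (nat_lit 13) (.e (nat_lit 65610) (nat_lit 10) (.e (nat_lit 344117) (nat_lit 21) (.e (nat_lit 516151) (nat_lit 9) (.e (nat_lit 426040) (nat_lit 0) (.e (nat_lit 2426) (nat_lit 157) (.e (nat_lit 4758) (nat_lit 281) (.e (nat_lit 2517) (nat_lit 157) (.e (nat_lit 2664) (nat_lit 167) .nil))))))))) (.g (nat_lit 1) (.e (nat_lit 216105) (nat_lit 0) .nil) .nil))) 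
(.lf (nat_lit 517730) (.g (nat_lit 2816) (.e (nat_lit 196666) (nat_lit 13) (.e (nat_lit 65617) (nat_lit 10) (.e (nat_lit 344117) (nat_lit 21) (.e (nat_lit 516106) (nat_lit 0) (.e (nat_lit 7016) (nat_lit 377) .nil))))) (.g (nat_lit 0) (.e (nat_lit 216806) (nat_lit 0) .nil) .nil)))) (.nd (nat_lit 9) 
(.lf (nat_lit 517474) (.g (nat_lit 2665) (.e (nat_lit 196666) (nat_lit 13) (.e (nat_lit 65610) (nat_lit 10) (.e (nat_lit 344117) (nat_lit 21) (.e (nat_lit 516160) (nat_lit 10) (.e (nat_lit 434275) (nat_lit 39) (.e (nat_lit 671488) (nat_lit 0) (.e (nat_lit 163) (nat_lit 11) .nil))))))) (.g (nat_lit 1) (.e (nat_lit 216428) (nat_lit 0) .nil) .nil))) 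
(.lf (nat_lit 517986) (.g (nat_lit 4978) (.e (nat_lit 196666) (nat_lit 13) (.e (nat_lit 65617) (nat_lit 10) (.e (nat_lit 344133) (nat_lit 26) (.e (nat_lit 557091) (nat_lit 12) (.e (nat_lit 164020) (nat_lit 45) (.e (nat_lit 696327) (nat_lit 5) (.e (nat_lit 2884) (nat_lit 184) (.e (nat_lit 426125) (nat_lit 2) .nil)))))))) (.g (nat_lit 1) (.e (nat_lit 217100) (nat_lit 0) .nil) .nil))))) 
(.nd (nat_lit 8) (.nd (nat_lit 9) 
(.lf (nat_lit 517346) (.g (nat_lit 4998) (.e (nat_lit 196666) (nat_lit 13) (.e (nat_lit 65610) (nat_lit 10) (.e (nat_lit 344117) (nat_lit 21) (.e (nat_lit 516151) (nat_lit 9) (.e (nat_lit 426050) (nat_lit 0) (.e (nat_lit 3366) (nat_lit 208) (.e (nat_lit 622620) (nat_lit 13) (.e (nat_lit 2663) (nat_lit 167) .nil)))))))) (.g (nat_lit 1) (.e (nat_lit 216233) (nat_lit 0) .nil) .nil))) 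
(.lf (nat_lit 517858) (.g (nat_lit 2319) (.e (nat_lit 196666) (nat_lit 13) (.e (nat_lit 65617) (nat_lit 10) (.e (nat_lit 344130) (nat_lit 26) (.e (nat_lit 557089) (nat_lit 12) (.e (nat_lit 171776) (nat_lit 48) (.e (nat_lit 720909) (nat_lit 11) (.e (nat_lit 426114) (nat_lit 2) .nil))))))) (.g (nat_lit 1) (.e (nat_lit 216962) (nat_lit 0) .nil) .nil)))) (.nd (nat_lit 9) 
(.lf (nat_lit 517602) (.g (nat_lit 1077) (.e (nat_lit 196666) (nat_lit 13) (.e (nat_lit 65610) (nat_lit 10) (.e (nat_lit 344129) (nat_lit 26) (.e (nat_lit 557089) (nat_lit 12) .nil)))) (.g (nat_lit 0) (.e (nat_lit 216647) (nat_lit 0) .nil) .nil))) 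
(.lf (nat_lit 518114) (.g (nat_lit 2765) (.e (nat_lit 196668) (nat_lit 14) (.e (nat_lit 73746) (nat_lit 3) (.e (nat_lit 516115) (nat_lit 1) (.e (nat_lit 164151) (nat_lit 152) (.e (nat_lit 1285) (nat_lit 95) .nil))))) (.g (nat_lit 0) (.e (nat_lit 217316) (nat_lit 0) .nil) .nil)))))))) (.nd (nat_lit 5) (.nd (nat_lit 6) (.nd (nat_lit 7) (.nd (nat_lit 8) (.nd (nat_lit 9) 
(.lf (nat_lit 517138) (.g (nat_lit 3705) (.e (nat_lit 196666) (nat_lit 13) (.e (nat_lit 65610) (nat_lit 10) (.e (nat_lit 344117) (nat_lit 21) (.e (nat_lit 516151) (nat_lit 9) (.e (nat_lit 426038) (nat_lit 0) (.e (nat_lit 2416) (nat_lit 157) (.e (nat_lit 4848) (nat_lit 285) (.e (nat_lit 163869) (nat_lit 2) .nil)))))))) (.g (nat_lit 1) (.e (nat_lit 216025) (nat_lit 0) .nil) .nil))) 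
(.lf (nat_lit 517650) (.g (nat_lit 3910) (.e (nat_lit 196666) (nat_lit 13) (.e (nat_lit 65610) (nat_lit 10) (.e (nat_lit 344129) (nat_lit 26) (.e (nat_lit 557090) (nat_lit 12) (.e (nat_lit 163844) (nat_lit 0) (.e (nat_lit 6254) (nat_lit 337) (.e (nat_lit 2725) (nat_lit 172) (.e (nat_lit 237589) (nat_lit 2) .nil)))))))) (.g (nat_lit 1) (.e (nat_lit 216713) (nat_lit 0) .nil) .nil)))) 
(.nd (nat_lit 9) 
(.lf (nat_lit 517394) (.g (nat_lit 3164) (.e (nat_lit 196666) (nat_lit 13) (.e (nat_lit 65610) (nat_lit 10) (.e (nat_lit 344117) (nat_lit 21) (.e (nat_lit 516151) (nat_lit 9) (.e (nat_lit 426047) (nat_lit 0) (.e (nat_lit 3366) (nat_lit 208) (.e (nat_lit 622626) (nat_lit 13) (.e (nat_lit 2666) (nat_lit 167) .nil)))))))) (.g (nat_lit 1) (.e (nat_lit 216281) (nat_lit 0) .nil) .nil))) 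
(.lf (nat_lit 517906) (.g (nat_lit 3009) (.e (nat_lit 196666) (nat_lit 13) (.e (nat_lit 65617) (nat_lit 10) (.e (nat_lit 344130) (nat_lit 26) (.e (nat_lit 557090) (nat_lit 12) (.e (nat_lit 171776) (nat_lit 49) (.e (nat_lit 729098) (nat_lit 11) (.e (nat_lit 426121) (nat_lit 2) .nil))))))) (.g (nat_lit 1) (.e (nat_lit 217012) (nat_lit 0) .nil) .nil))))) (.nd (nat_lit 8) (.nd (nat_lit 9) 
(.lf (nat_lit 517266) (.g (nat_lit 2965) (.e (nat_lit 196666) (nat_lit 13) (.e (nat_lit 65610) (nat_lit 10) (.e (nat_lit 344117) (nat_lit 21) (.e (nat_lit 516151) (nat_lit 9) (.e (nat_lit 426042) (nat_lit 0) (.e (nat_lit 2425) (nat_lit 157) (.e (nat_lit 4821) (nat_lit 281) (.e (nat_lit 2477) (nat_lit 157) (.e (nat_lit 2666) (nat_lit 167) .nil))))))))) (.g (nat_lit 1) (.e (nat_lit 216153) (nat_lit 0) .nil) .nil))) 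
(.lf (nat_lit 517778) (.g (nat_lit 2584) (.e (nat_lit 196666) (nat_lit 13) (.e (nat_lit 65617) (nat_lit 10) (.e (nat_lit 344127) (nat_lit 26) (.e (nat_lit 557090) (nat_lit 12) (.e (nat_lit 163847) (nat_lit 0) (.e (nat_lit 6420) (nat_lit 341) (.e (nat_lit 163843) (nat_lit 0) (.e (nat_lit 7366) (nat_lit 388) (.e (nat_lit 2663) (nat_lit 167) .nil))))))))) (.g (nat_lit 1) (.e (nat_lit 216866) (nat_lit 0) .nil) .nil)))) 
(.nd (nat_lit 9) 
(.lf (nat_lit 517522) (.g (nat_lit 4236) (.e (nat_lit 196666) (nat_lit 13) (.e (nat_lit 65610) (nat_lit 10) (.e (nat_lit 344128) (nat_lit 26) (.e (nat_lit 557090) (nat_lit 12) (.e (nat_lit 164020) (nat_lit 45) (.e (nat_lit 696343) (nat_lit 8) (.e (nat_lit 172064) (nat_lit 2) .nil))))))) (.g (nat_lit 1) (.e (nat_lit 216510) (nat_lit 0) .nil) .nil))) 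
(.lf (nat_lit 518034) (.g (nat_lit 2650) (.e (nat_lit 196666) (nat_lit 13) (.e (nat_lit 65622) (nat_lit 12) (.e (nat_lit 385074) (nat_lit 31) (.e (nat_lit 573484) (nat_lit 13) (.e (nat_lit 65540) (nat_lit 0) (.e (nat_lit 6681) (nat_lit 357) (.e (nat_lit 2664) (nat_lit 167) .nil))))))) (.g (nat_lit 1) (.e (nat_lit 217160) (nat_lit 0) .nil) .nil)))))) 
(.nd (nat_lit 7) (.nd (nat_lit 8) (.nd (nat_lit 9) 
(.lf (nat_lit 517202) (.g (nat_lit 4346) (.e (nat_lit 196666) (nat_lit 13) (.e (nat_lit 65610) (nat_lit 10) (.e (nat_lit 344117) (nat_lit 21) (.e (nat_lit 516151) (nat_lit 9) (.e (nat_lit 426038) (nat_lit 0) (.e (nat_lit 3370) (nat_lit 208) (.e (nat_lit 622627) (nat_lit 13) (.e (nat_lit 2666) (nat_lit 167) .nil)))))))) (.g (nat_lit 1) (.e (nat_lit 216089) (nat_lit 0) .nil) .nil))) 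
(.lf (nat_lit 517714) (.g (nat_lit 431) (.e (nat_lit 196666) (nat_lit 13) (.e (nat_lit 65617) (nat_lit 10) (.e (nat_lit 344095) (nat_lit 18) .nil))) (.g (nat_lit 0) (.e (nat_lit 216787) (nat_lit 0) .nil) .nil)))) (.nd (nat_lit 9) 
(.lf (nat_lit 517458) (.g (nat_lit 2821) (.e (nat_lit 196666) (nat_lit 13) (.e (nat_lit 65610) (nat_lit 10) (.e (nat_lit 344117) (nat_lit 21) (.e (nat_lit 516160) (nat_lit 10) (.e (nat_lit 434214) (nat_lit 18) (.e (nat_lit 4823) (nat_lit 281) (.e (nat_lit 2416) (nat_lit 157) (.e (nat_lit 2666) (nat_lit 167) .nil)))))))) (.g (nat_lit 1) (.e (nat_lit 216406) (nat_lit 0) .nil) .nil))) 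
(.lf (nat_lit 517970) (.g (nat_lit 2991) (.e (nat_lit 196666) (nat_lit 13) (.e (nat_lit 65617) (nat_lit 10) (.e (nat_lit 344133) (nat_lit 26) (.e (nat_lit 557091) (nat_lit 12) (.e (nat_lit 163841) (nat_lit 0) (.e (nat_lit 6252) (nat_lit 337) (.e (nat_lit 2630) (nat_lit 164) (.e (nat_lit 172062) (nat_lit 2) .nil)))))))) (.g (nat_lit 1) (.e (nat_lit 217084) (nat_lit 0) .nil) .nil))))) 
(.nd (nat_lit 8) (.nd (nat_lit 9) 
(.lf (nat_lit 517330) (.g (nat_lit 4639) (.e (nat_lit 196666) (nat_lit 13) (.e (nat_lit 65610) (nat_lit 10) (.e (nat_lit 344117) (nat_lit 21) (.e (nat_lit 516151) (nat_lit 9) (.e (nat_lit 426049) (nat_lit 0) (.e (nat_lit 2416) (nat_lit 157) (.e (nat_lit 4849) (nat_lit 285) (.e (nat_lit 163870) (nat_lit 2) .nil)))))))) (.g (nat_lit 1) (.e (nat_lit 216217) (nat_lit 0) .nil) .nil))) 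
(.lf (nat_lit 517842) (.g (nat_lit 1820) (.e (nat_lit 196666) (nat_lit 13) (.e (nat_lit 65617) (nat_lit 10) (.e (nat_lit 344130) (nat_lit 26) (.e (nat_lit 557087) (nat_lit 11) (.e (nat_lit 24584) (nat_lit 0) .nil))))) (.g (nat_lit 0) (.e (nat_lit 216945) (nat_lit 0) .nil) .nil)))) (.nd (nat_lit 9) 
(.lf (nat_lit 517586) (.g (nat_lit 2692) (.e (nat_lit 196666) (nat_lit 13) (.e (nat_lit 65610) (nat_lit 10) (.e (nat_lit 344129) (nat_lit 26) (.e (nat_lit 557087) (nat_lit 11) (.e (nat_lit 24584) (nat_lit 0) (.e (nat_lit 6664) (nat_lit 357) (.e (nat_lit 2654) (nat_lit 167) .nil))))))) (.g (nat_lit 1) (.e (nat_lit 216629) (nat_lit 0) .nil) .nil))) 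
(.lf (nat_lit 518098) (.g (nat_lit 431) (.e (nat_lit 196667) (nat_lit 14) (.e (nat_lit 73746) (nat_lit 3) (.e (nat_lit 516117) (nat_lit 1) .nil))) (.g (nat_lit 0) (.e (nat_lit 217274) (nat_lit 0) .nil) .nil))))))) (.nd (nat_lit 6) (.nd (nat_lit 7) (.nd (nat_lit 8) (.nd (nat_lit 9) 
(.lf (nat_lit 517170) (.g (nat_lit 3575) (.e (nat_lit 196666) (nat_lit 13) (.e (nat_lit 65610) (nat_lit 10) (.e (nat_lit 344117) (nat_lit 21) (.e (nat_lit 516151) (nat_lit 9) (.e (nat_lit 426038) (nat_lit 0) (.e (nat_lit 2427) (nat_lit 157) (.e (nat_lit 4850) (nat_lit 286) (.e (nat_lit 229387) (nat_lit 2) .nil)))))))) (.g (nat_lit 1) (.e (nat_lit 216057) (nat_lit 0) .nil) .nil))) 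
(.lf (nat_lit 517682) (.g (nat_lit 2235) (.e (nat_lit 196666) (nat_lit 13) (.e (nat_lit 65610) (nat_lit 10) (.e (nat_lit 344129) (nat_lit 26) (.e (nat_lit 557090) (nat_lit 12) (.e (nat_lit 164019) (nat_lit 45) (.e (nat_lit 696329) (nat_lit 5) (.e (nat_lit 2884) (nat_lit 184) (.e (nat_lit 426125) (nat_lit 2) .nil)))))))) (.g (nat_lit 1) (.e (nat_lit 216751) (nat_lit 0) .nil) .nil)))) 
(.nd (nat_lit 9) 
(.lf (nat_lit 517426) (.g (nat_lit 2964) (.e (nat_lit 196666) (nat_lit 13) (.e (nat_lit 65610) (nat_lit 10) (.e (nat_lit 344117) (nat_lit 21) (.e (nat_lit 516151) (nat_lit 9) (.e (nat_lit 426365) (nat_lit 15) (.e (nat_lit 1049) (nat_lit 81) (.e (nat_lit 5979) (nat_lit 326) (.e (nat_lit 2433) (nat_lit 157) (.e (nat_lit 2668) (nat_lit 167) .nil))))))))) (.g (nat_lit 1) (.e (nat_lit 216319) (nat_lit 0) .nil) .nil))) 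
(.lf (nat_lit 517938) (.g (nat_lit 1281) (.e (nat_lit 196666) (nat_lit 13) (.e (nat_lit 65617) (nat_lit 10) (.e (nat_lit 344133) (nat_lit 26) (.e (nat_lit 557068) (nat_lit 9) .nil)))) (.g (nat_lit 0) (.e (nat_lit 217048) (nat_lit 0) .nil) .nil))))) (.nd (nat_lit 8) (.nd (nat_lit 9) 
(.lf (nat_lit 517298) (.g (nat_lit 5041) (.e (nat_lit 196666) (nat_lit 13) (.e (nat_lit 65610) (nat_lit 10) (.e (nat_lit 344117) (nat_lit 21) (.e (nat_lit 516151) (nat_lit 9) (.e (nat_lit 426045) (nat_lit 0) (.e (nat_lit 3366) (nat_lit 208) (.e (nat_lit 622620) (nat_lit 13) (.e (nat_lit 2663) (nat_lit 167) .nil)))))))) (.g (nat_lit 1) (.e (nat_lit 216185) (nat_lit 0) .nil) .nil))) 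
(.lf (nat_lit 517810) (.g (nat_lit 677) (.e (nat_lit 196666) (nat_lit 13) (.e (nat_lit 65617) (nat_lit 10) (.e (nat_lit 344129) (nat_lit 26) .nil))) (.g (nat_lit 0) (.e (nat_lit 216901) (nat_lit 0) .nil) .nil)))) (.nd (nat_lit 9) 
(.lf (nat_lit 517554) (.g (nat_lit 2055) (.e (nat_lit 196666) (nat_lit 13) (.e (nat_lit 65610) (nat_lit 10) (.e (nat_lit 344129) (nat_lit 26) (.e (nat_lit 557067) (nat_lit 9) (.e (nat_lit 2739) (nat_lit 174) .nil))))) (.g (nat_lit 0) (.e (nat_lit 216561) (nat_lit 0) .nil) .nil))) 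
(.lf (nat_lit 518066) (.g (nat_lit 4003) (.e (nat_lit 196666) (nat_lit 13) (.e (nat_lit 65628) (nat_lit 14) (.e (nat_lit 401425) (nat_lit 2) (.e (nat_lit 196668) (nat_lit 14) (.e (nat_lit 73782) (nat_lit 32) (.e (nat_lit 2663) (nat_lit 167) .nil)))))) (.g (nat_lit 1) (.e (nat_lit 217222) (nat_lit 0) .nil) .nil)))))) (.nd (nat_lit 7) (.nd (nat_lit 8) (.nd (nat_lit 9) 
(.lf (nat_lit 517234) (.g (nat_lit 3203) (.e (nat_lit 196666) (nat_lit 13) (.e (nat_lit 65610) (nat_lit 10) (.e (nat_lit 344117) (nat_lit 21) (.e (nat_lit 516151) (nat_lit 9) (.e (nat_lit 426040) (nat_lit 0) (.e (nat_lit 3369) (nat_lit 208) (.e (nat_lit 622621) (nat_lit 13) (.e (nat_lit 2668) (nat_lit 167) .nil)))))))) (.g (nat_lit 1) (.e (nat_lit 216121) (nat_lit 0) .nil) .nil))) 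
(.lf (nat_lit 517746) (.g (nat_lit 1327) (.e (nat_lit 196666) (nat_lit 13) (.e (nat_lit 65617) (nat_lit 10) (.e (nat_lit 344120) (nat_lit 21) (.e (nat_lit 516139) (nat_lit 7) (.e (nat_lit 409651) (nat_lit 19) .nil))))) (.g (nat_lit 0) (.e (nat_lit 216822) (nat_lit 0) .nil) .nil)))) (.nd (nat_lit 9) 
(.lf (nat_lit 517490) (.g (nat_lit 1672) (.e (nat_lit 196666) (nat_lit 13) (.e (nat_lit 65610) (nat_lit 10) (.e (nat_lit 344117) (nat_lit 21) (.e (nat_lit 516184) (nat_lit 16) .nil)))) (.g (nat_lit 0) (.e (nat_lit 216451) (nat_lit 0) .nil) .nil))) 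
(.lf (nat_lit 518002) (.g (nat_lit 968) (.e (nat_lit 196666) (nat_lit 13) (.e (nat_lit 65619) (nat_lit 10) (.e (nat_lit 344117) (nat_lit 21) (.e (nat_lit 516097) (nat_lit 0) .nil)))) (.g (nat_lit 0) (.e (nat_lit 217122) (nat_lit 0) .nil) .nil))))) (.nd (nat_lit 8) (.nd (nat_lit 9) 
(.lf (nat_lit 517362) (.g (nat_lit 3694) (.e (nat_lit 196666) (nat_lit 13) (.e (nat_lit 65610) (nat_lit 10) (.e (nat_lit 344117) (nat_lit 21) (.e (nat_lit 516151) (nat_lit 9) (.e (nat_lit 426047) (nat_lit 0) (.e (nat_lit 2422) (nat_lit 157) (.e (nat_lit 4848) (nat_lit 285) (.e (nat_lit 163869) (nat_lit 2) .nil)))))))) (.g (nat_lit 1) (.e (nat_lit 216249) (nat_lit 0) .nil) .nil))) 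
(.lf (nat_lit 517874) (.g (nat_lit 2616) (.e (nat_lit 196666) (nat_lit 13) (.e (nat_lit 65617) (nat_lit 10) (.e (nat_lit 344130) (nat_lit 26) (.e (nat_lit 557090) (nat_lit 12) (.e (nat_lit 163846) (nat_lit 0) .nil))))) (.g (nat_lit 0) (.e (nat_lit 216979) (nat_lit 0) .nil) .nil)))) (.nd (nat_lit 9) 
(.lf (nat_lit 517618) (.g (nat_lit 2865) (.e (nat_lit 196666) (nat_lit 13) (.e (nat_lit 65610) (nat_lit 10) (.e (nat_lit 344129) (nat_lit 26) (.e (nat_lit 557089) (nat_lit 12) (.e (nat_lit 164019) (nat_lit 45) (.e (nat_lit 696343) (nat_lit 8) (.e (nat_lit 172062) (nat_lit 2) .nil))))))) (.g (nat_lit 1) (.e (nat_lit 216666) (nat_lit 0) .nil) .nil))) 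
(.lf (nat_lit 518130) (.g (nat_lit 1521) (.e (nat_lit 196668) (nat_lit 14) (.e (nat_lit 73746) (nat_lit 3) (.e (nat_lit 516117) (nat_lit 1) (.e (nat_lit 164176) (nat_lit 154) .nil)))) (.g (nat_lit 0) (.e (nat_lit 217376) (nat_lit 0) .nil) .nil))))))))) (.nd (nat_lit 4) (.nd (nat_lit 5) (.nd (nat_lit 6) (.nd (nat_lit 7) (.nd (nat_lit 8) (.nd (nat_lit 9) 
(.lf (nat_lit 517130) (.g (nat_lit 3674) (.e (nat_lit 196666) (nat_lit 13) (.e (nat_lit 65610) (nat_lit 10) (.e (nat_lit 344117) (nat_lit 21) (.e (nat_lit 516151) (nat_lit 9) (.e (nat_lit 426037) (nat_lit 0) (.e (nat_lit 3370) (nat_lit 208) (.e (nat_lit 622624) (nat_lit 13) (.e (nat_lit 2668) (nat_lit 167) .nil)))))))) (.g (nat_lit 1) (.e (nat_lit 216017) (nat_lit 0) .nil) .nil))) 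
(.lf (nat_lit 517642) (.g (nat_lit 2999) (.e (nat_lit 196666) (nat_lit 13) (.e (nat_lit 65610) (nat_lit 10) (.e (nat_lit 344129) (nat_lit 26) (.e (nat_lit 557090) (nat_lit 12) (.e (nat_lit 163843) (nat_lit 0) (.e (nat_lit 6254) (nat_lit 337) (.e (nat_lit 2725) (nat_lit 172) (.e (nat_lit 237590) (nat_lit 2) .nil)))))))) (.g (nat_lit 1) (.e (nat_lit 216702) (nat_lit 0) .nil) .nil)))) 
(.nd (nat_lit 9) 
(.lf (nat_lit 517386) (.g (nat_lit 3486) (.e (nat_lit 196666) (nat_lit 13) (.e (nat_lit 65610) (nat_lit 10) (.e (nat_lit 344117) (nat_lit 21) (.e (nat_lit 516151) (nat_lit 9) (.e (nat_lit 426047) (nat_lit 0) (.e (nat_lit 2426) (nat_lit 157) (.e (nat_lit 4850) (nat_lit 286) (.e (nat_lit 229387) (nat_lit 2) .nil)))))))) (.g (nat_lit 1) (.e (nat_lit 216273) (nat_lit 0) .nil) .nil))) 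
(.lf (nat_lit 517898) (.g (nat_lit 3538) (.e (nat_lit 196666) (nat_lit 13) (.e (nat_lit 65617) (nat_lit 10) (.e (nat_lit 344130) (nat_lit 26) (.e (nat_lit 557090) (nat_lit 12) (.e (nat_lit 164022) (nat_lit 46) (.e (nat_lit 704628) (nat_lit 9) (.e (nat_lit 373) (nat_lit 32) (.e (nat_lit 426120) (nat_lit 2) .nil)))))))) (.g (nat_lit 1) (.e (nat_lit 217003) (nat_lit 0) .nil) .nil))))) 
(.nd (nat_lit 8) (.nd (nat_lit 9) 
(.lf (nat_lit 517258) (.g (nat_lit 2328) (.e (nat_lit 196666) (nat_lit 13) (.e (nat_lit 65610) (nat_lit 10) (.e (nat_lit 344117) (nat_lit 21) (.e (nat_lit 516151) (nat_lit 9) (.e (nat_lit 426042) (nat_lit 0) (.e (nat_lit 2422) (nat_lit 157) (.e (nat_lit 4850) (nat_lit 286) (.e (nat_lit 229386) (nat_lit 2) .nil)))))))) (.g (nat_lit 1) (.e (nat_lit 216145) (nat_lit 0) .nil) .nil))) 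
(.lf (nat_lit 517770) (.g (nat_lit 2817) (.e (nat_lit 196666) (nat_lit 13) (.e (nat_lit 65617) (nat_lit 10) (.e (nat_lit 344127) (nat_lit 26) (.e (nat_lit 557090) (nat_lit 12) (.e (nat_lit 163844) (nat_lit 0) (.e (nat_lit 6255) (nat_lit 337) (.e (nat_lit 2725) (nat_lit 172) (.e (nat_lit 237586) (nat_lit 2) .nil)))))))) (.g (nat_lit 1) (.e (nat_lit 216858) (nat_lit 0) .nil) .nil)))) 
(.nd (nat_lit 9) 
(.lf (nat_lit 517514) (.g (nat_lit 436) (.e (nat_lit 196666) (nat_lit 13) (.e (nat_lit 65610) (nat_lit 10) (.e (nat_lit 344127) (nat_lit 26) .nil))) (.g (nat_lit 0) (.e (nat_lit 216502) (nat_lit 0) .nil) .nil))) 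
(.lf (nat_lit 518026) (.g (nat_lit 4127) (.e (nat_lit 196666) (nat_lit 13) (.e (nat_lit 65619) (nat_lit 10) (.e (nat_lit 344129) (nat_lit 26) (.e (nat_lit 557090) (nat_lit 12) (.e (nat_lit 164020) (nat_lit 45) .nil))))) (.g (nat_lit 0) (.e (nat_lit 217146) (nat_lit 0) .nil) .nil)))))) (.nd (nat_lit 7) (.nd (nat_lit 8) (.nd (nat_lit 9) 
(.lf (nat_lit 517194) (.g (nat_lit 3337) (.e (nat_lit 196666) (nat_lit 13) (.e (nat_lit 65610) (nat_lit 10) (.e (nat_lit 344117) (nat_lit 21) (.e (nat_lit 516151) (nat_lit 9) (.e (nat_lit 426038) (nat_lit 0) (.e (nat_lit 3369) (nat_lit 208) (.e (nat_lit 630528) (nat_lit 13) (.e (nat_lit 2666) (nat_lit 167) .nil)))))))) (.g (nat_lit 1) (.e (nat_lit 216081) (nat_lit 0) .nil) .nil))) 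
(.lf (nat_lit 517706) (.g (nat_lit 4982) (.e (nat_lit 196666) (nat_lit 13) (.e (nat_lit 65610) (nat_lit 10) (.e (nat_lit 344133) (nat_lit 26) (.e (nat_lit 557087) (nat_lit 11) (.e (nat_lit 24662) (nat_lit 14) (.e (nat_lit 401425) (nat_lit 2) .nil)))))) (.g (nat_lit 1) (.e (nat_lit 216775) (nat_lit 0) .nil) .nil)))) (.nd (nat_lit 9) 
(.lf (nat_lit 517450) (.g (nat_lit 3238) (.e (nat_lit 196666) (nat_lit 13) (.e (nat_lit 65610) (nat_lit 10) (.e (nat_lit 344117) (nat_lit 21) (.e (nat_lit 516159) (nat_lit 10) (.e (nat_lit 434276) (nat_lit 39) (.e (nat_lit 663555) (nat_lit 0) (.e (nat_lit 7936) (nat_lit 11) .nil))))))) (.g (nat_lit 1) (.e (nat_lit 216373) (nat_lit 0) .nil) .nil))) 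
(.lf (nat_lit 517962) (.g (nat_lit 2501) (.e (nat_lit 196666) (nat_lit 13) (.e (nat_lit 65617) (nat_lit 10) (.e (nat_lit 344133) (nat_lit 26) (.e (nat_lit 557089) (nat_lit 12) (.e (nat_lit 171776) (nat_lit 48) (.e (nat_lit 720909) (nat_lit 11) (.e (nat_lit 426122) (nat_lit 2) .nil))))))) (.g (nat_lit 1) (.e (nat_lit 217076) (nat_lit 0) .nil) .nil))))) (.nd (nat_lit 8) (.nd (nat_lit 9) 
(.lf (nat_lit 517322) (.g (nat_lit 4089) (.e (nat_lit 196666) (nat_lit 13) (.e (nat_lit 65610) (nat_lit 10) (.e (nat_lit 344117) (nat_lit 21) (.e (nat_lit 516151) (nat_lit 9) (.e (nat_lit 426045) (nat_lit 0) (.e (nat_lit 3370) (nat_lit 208) (.e (nat_lit 622627) (nat_lit 13) (.e (nat_lit 2663) (nat_lit 167) .nil)))))))) (.g (nat_lit 1) (.e (nat_lit 216209) (nat_lit 0) .nil) .nil))) 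
(.lf (nat_lit 517834) (.g (nat_lit 2153) (.e (nat_lit 196666) (nat_lit 13) (.e (nat_lit 65617) (nat_lit 10) (.e (nat_lit 344130) (nat_lit 26) (.e (nat_lit 557087) (nat_lit 11) (.e (nat_lit 24576) (nat_lit 0) (.e (nat_lit 6654) (nat_lit 357) (.e (nat_lit 2664) (nat_lit 167) .nil))))))) (.g (nat_lit 1) (.e (nat_lit 216937) (nat_lit 0) .nil) .nil)))) (.nd (nat_lit 9) 
(.lf (nat_lit 517578) (.g (nat_lit 4022) (.e (nat_lit 196666) (nat_lit 13) (.e (nat_lit 65610) (nat_lit 10) (.e (nat_lit 344129) (nat_lit 26) (.e (nat_lit 557085) (nat_lit 11) (.e (nat_lit 24664) (nat_lit 14) (.e (nat_lit 401423) (nat_lit 2) .nil)))))) (.g (nat_lit 1) (.e (nat_lit 216621) (nat_lit 0) .nil) .nil))) 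
(.lf (nat_lit 518090) (.g (nat_lit 328) (.e (nat_lit 196666) (nat_lit 13) (.e (nat_lit 65630) (nat_lit 14) (.e (nat_lit 401428) (nat_lit 3) .nil))) (.g (nat_lit 0) (.e (nat_lit 217260) (nat_lit 0) .nil) .nil))))))) (.nd (nat_lit 6) (.nd (nat_lit 7) (.nd (nat_lit 8) (.nd (nat_lit 9) 
(.lf (nat_lit 517162) (.g (nat_lit 4220) (.e (nat_lit 196666) (nat_lit 13) (.e (nat_lit 65610) (nat_lit 10) (.e (nat_lit 344117) (nat_lit 21) (.e (nat_lit 516151) (nat_lit 9) (.e (nat_lit 426038) (nat_lit 0) (.e (nat_lit 2426) (nat_lit 157) (.e (nat_lit 4778) (nat_lit 281) (.e (nat_lit 2454) (nat_lit 157) (.e (nat_lit 2663) (nat_lit 167) .nil))))))))) (.g (nat_lit 1) (.e (nat_lit 216049) (nat_lit 0) .nil) .nil))) 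
(.lf (nat_lit 517674) (.g (nat_lit 2337) (.e (nat_lit 196666) (nat_lit 13) (.e (nat_lit 65610) (nat_lit 10) (.e (nat_lit 344129) (nat_lit 26) (.e (nat_lit 557090) (nat_lit 12) (.e (nat_lit 163854) (nat_lit 0) .nil))))) (.g (nat_lit 0) (.e (nat_lit 216740) (nat_lit 0) .nil) .nil)))) (.nd (nat_lit 9) 
(.lf (nat_lit 517418) (.g (nat_lit 4559) (.e (nat_lit 196666) (nat_lit 13) (.e (nat_lit 65610) (nat_lit 10) (.e (nat_lit 344117) (nat_lit 21) (.e (nat_lit 516151) (nat_lit 9) (.e (nat_lit 426047) (nat_lit 0) (.e (nat_lit 3371) (nat_lit 208) (.e (nat_lit 622626) (nat_lit 13) (.e (nat_lit 2663) (nat_lit 167) .nil)))))))) (.g (nat_lit 1) (.e (nat_lit 216305) (nat_lit 0) .nil) .nil))) 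
(.lf (nat_lit 517930) (.g (nat_lit 1940) (.e (nat_lit 196666) (nat_lit 13) (.e (nat_lit 65617) (nat_lit 10) (.e (nat_lit 344132) (nat_lit 26) (.e (nat_lit 557093) (nat_lit 12) (.e (nat_lit 171776) (nat_lit 48) .nil))))) (.g (nat_lit 0) (.e (nat_lit 217039) (nat_lit 0) .nil) .nil))))) (.nd (nat_lit 8) (.nd (nat_lit 9) 
(.lf (nat_lit 517290) (.g (nat_lit 3205) (.e (nat_lit 196666) (nat_lit 13) (.e (nat_lit 65610) (nat_lit 10) (.e (nat_lit 344117) (nat_lit 21) (.e (nat_lit 516151) (nat_lit 9) (.e (nat_lit 426045) (nat_lit 0) (.e (nat_lit 2422) (nat_lit 157) (.e (nat_lit 4778) (nat_lit 281) (.e (nat_lit 2445) (nat_lit 157) (.e (nat_lit 2668) (nat_lit 167) .nil))))))))) (.g (nat_lit 1) (.e (nat_lit 216177) (nat_lit 0) .nil) .nil))) 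
(.lf (nat_lit 517802) (.g (nat_lit 2284) (.e (nat_lit 196666) (nat_lit 13) (.e (nat_lit 65617) (nat_lit 10) (.e (nat_lit 344127) (nat_lit 26) (.e (nat_lit 557090) (nat_lit 12) (.e (nat_lit 164019) (nat_lit 45) (.e (nat_lit 696343) (nat_lit 8) (.e (nat_lit 172062) (nat_lit 2) .nil))))))) (.g (nat_lit 1) (.e (nat_lit 216893) (nat_lit 0) .nil) .nil)))) (.nd (nat_lit 9) 
(.lf (nat_lit 517546) (.g (nat_lit 2015) (.e (nat_lit 196666) (nat_lit 13) (.e (nat_lit 65610) (nat_lit 10) (.e (nat_lit 344129) (nat_lit 26) (.e (nat_lit 557067) (nat_lit 9) (.e (nat_lit 2466) (nat_lit 157) .nil))))) (.g (nat_lit 0) (.e (nat_lit 216550) (nat_lit 0) .nil) .nil))) 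
(.lf (nat_lit 518058) (.g (nat_lit 257) (.e (nat_lit 196666) (nat_lit 13) (.e (nat_lit 65625) (nat_lit 13) (.e (nat_lit 393225) (nat_lit 9) .nil))) (.g (nat_lit 0) (.e (nat_lit 217201) (nat_lit 0) .nil) .nil)))))) (.nd (nat_lit 7) (.nd (nat_lit 8) (.nd (nat_lit 9) 
(.lf (nat_lit 517226) (.g (nat_lit 3523) (.e (nat_lit 196666) (nat_lit 13) (.e (nat_lit 65610) (nat_lit 10) (.e (nat_lit 344117) (nat_lit 21) (.e (nat_lit 516151) (nat_lit 9) (.e (nat_lit 426040) (nat_lit 0) (.e (nat_lit 3366) (nat_lit 208) (.e (nat_lit 622620) (nat_lit 13) (.e (nat_lit 2666) (nat_lit 167) .nil)))))))) (.g (nat_lit 1) (.e (nat_lit 216113) (nat_lit 0) .nil) .nil))) 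
(.lf (nat_lit 517738) (.g (nat_lit 4240) (.e (nat_lit 196666) (nat_lit 13) (.e (nat_lit 65617) (nat_lit 10) (.e (nat_lit 344117) (nat_lit 21) (.e (nat_lit 516139) (nat_lit 7) (.e (nat_lit 409617) (nat_lit 10) (.e (nat_lit 5710) (nat_lit 312) (.e (nat_lit 2664) (nat_lit 167) .nil))))))) (.g (nat_lit 1) (.e (nat_lit 216814) (nat_lit 0) .nil) .nil)))) (.nd (nat_lit 9) 
(.lf (nat_lit 517482) (.g (nat_lit 2897) (.e (nat_lit 196666) (nat_lit 13) (.e (nat_lit 65610) (nat_lit 10) (.e (nat_lit 344117) (nat_lit 21) (.e (nat_lit 516160) (nat_lit 10) (.e (nat_lit 434278) (nat_lit 39) (.e (nat_lit 663552) (nat_lit 0) (.e (nat_lit 161) (nat_lit 11) .nil))))))) (.g (nat_lit 1) (.e (nat_lit 216436) (nat_lit 0) .nil) .nil))) 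
(.lf (nat_lit 517994) (.g (nat_lit 3294) (.e (nat_lit 196666) (nat_lit 13) (.e (nat_lit 65617) (nat_lit 10) (.e (nat_lit 344133) (nat_lit 26) (.e (nat_lit 557091) (nat_lit 12) (.e (nat_lit 164022) (nat_lit 46) (.e (nat_lit 704629) (nat_lit 9) (.e (nat_lit 375) (nat_lit 32) (.e (nat_lit 426117) (nat_lit 2) .nil)))))))) (.g (nat_lit 1) (.e (nat_lit 217108) (nat_lit 0) .nil) .nil))))) 
(.nd (nat_lit 8) (.nd (nat_lit 9) 
(.lf (nat_lit 517354) (.g (nat_lit 4903) (.e (nat_lit 196666) (nat_lit 13) (.e (nat_lit 65610) (nat_lit 10) (.e (nat_lit 344117) (nat_lit 21) (.e (nat_lit 516151) (nat_lit 9) (.e (nat_lit 426050) (nat_lit 0) (.e (nat_lit 3366) (nat_lit 208) (.e (nat_lit 622627) (nat_lit 13) (.e (nat_lit 2666) (nat_lit 167) .nil)))))))) (.g (nat_lit 1) (.e (nat_lit 216241) (nat_lit 0) .nil) .nil))) 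
(.lf (nat_lit 517866) (.g (nat_lit 2813) (.e (nat_lit 196666) (nat_lit 13) (.e (nat_lit 65617) (nat_lit 10) (.e (nat_lit 344130) (nat_lit 26) (.e (nat_lit 557090) (nat_lit 12) (.e (nat_lit 163843) (nat_lit 0) (.e (nat_lit 6254) (nat_lit 337) (.e (nat_lit 2725) (nat_lit 172) (.e (nat_lit 237588) (nat_lit 2) .nil)))))))) (.g (nat_lit 1) (.e (nat_lit 216970) (nat_lit 0) .nil) .nil)))) 
(.nd (nat_lit 9) 
(.lf (nat_lit 517610) (.g (nat_lit 2589) (.e (nat_lit 196666) (nat_lit 13) (.e (nat_lit 65610) (nat_lit 10) (.e (nat_lit 344129) (nat_lit 26) (.e (nat_lit 557089) (nat_lit 12) (.e (nat_lit 163848) (nat_lit 0) (.e (nat_lit 6255) (nat_lit 337) (.e (nat_lit 2725) (nat_lit 172) (.e (nat_lit 237589) (nat_lit 2) .nil)))))))) (.g (nat_lit 1) (.e (nat_lit 216657) (nat_lit 0) .nil) .nil))) 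
(.lf (nat_lit 518122) (.g (nat_lit 1679) (.e (nat_lit 196668) (nat_lit 14) (.e (nat_lit 73746) (nat_lit 3) (.e (nat_lit 516115) (nat_lit 1) (.e (nat_lit 164182) (nat_lit 154) .nil)))) (.g (nat_lit 0) (.e (nat_lit 217344) (nat_lit 0) .nil) .nil)))))))) (.nd (nat_lit 5) (.nd (nat_lit 6) (.nd (nat_lit 7) (.nd (nat_lit 8) (.nd (nat_lit 9) 
(.lf (nat_lit 517146) (.g (nat_lit 4697) (.e (nat_lit 196666) (nat_lit 13) (.e (nat_lit 65610) (nat_lit 10) (.e (nat_lit 344117) (nat_lit 21) (.e (nat_lit 516151) (nat_lit 9) (.e (nat_lit 426038) (nat_lit 0) (.e (nat_lit 2422) (nat_lit 157) (.e (nat_lit 4849) (nat_lit 285) (.e (nat_lit 163869) (nat_lit 2) .nil)))))))) (.g (nat_lit 1) (.e (nat_lit 216033) (nat_lit 0) .nil) .nil))) 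
(.lf (nat_lit 517658) (.g (nat_lit 3001) (.e (nat_lit 196666) (nat_lit 13) (.e (nat_lit 65610) (nat_lit 10) (.e (nat_lit 344129) (nat_lit 26) (.e (nat_lit 557090) (nat_lit 12) (.e (nat_lit 163847) (nat_lit 0) (.e (nat_lit 6420) (nat_lit 341) (.e (nat_lit 171776) (nat_lit 12) (.e (nat_lit 426123) (nat_lit 2) .nil)))))))) (.g (nat_lit 1) (.e (nat_lit 216723) (nat_lit 0) .nil) .nil)))) 
(.nd (nat_lit 9) 
(.lf (nat_lit 517402) (.g (nat_lit 4719) (.e (nat_lit 196666) (nat_lit 13) (.e (nat_lit 65610) (nat_lit 10) (.e (nat_lit 344117) (nat_lit 21) (.e (nat_lit 516151) (nat_lit 9) (.e (nat_lit 426047) (nat_lit 0) (.e (nat_lit 3369) (nat_lit 208) (.e (nat_lit 622627) (nat_lit 13) (.e (nat_lit 2663) (nat_lit 167) .nil)))))))) (.g (nat_lit 1) (.e (nat_lit 216289) (nat_lit 0) .nil) .nil))) 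
(.lf (nat_lit 517914) (.g (nat_lit 1837) (.e (nat_lit 196666) (nat_lit 13) (.e (nat_lit 65617) (nat_lit 10) (.e (nat_lit 344132) (nat_lit 26) (.e (nat_lit 557072) (nat_lit 9) (.e (nat_lit 290) (nat_lit 21) .nil))))) (.g (nat_lit 0) (.e (nat_lit 217020) (nat_lit 0) .nil) .nil))))) (.nd (nat_lit 8) (.nd (nat_lit 9) 
(.lf (nat_lit 517274) (.g (nat_lit 3273) (.e (nat_lit 196666) (nat_lit 13) (.e (nat_lit 65610) (nat_lit 10) (.e (nat_lit 344117) (nat_lit 21) (.e (nat_lit 516151) (nat_lit 9) (.e (nat_lit 426042) (nat_lit 0) (.e (nat_lit 3366) (nat_lit 208) (.e (nat_lit 622627) (nat_lit 13) (.e (nat_lit 2665) (nat_lit 167) .nil)))))))) (.g (nat_lit 1) (.e (nat_lit 216161) (nat_lit 0) .nil) .nil))) 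
(.lf (nat_lit 517786) (.g (nat_lit 2658) (.e (nat_lit 196666) (nat_lit 13) (.e (nat_lit 65617) (nat_lit 10) (.e (nat_lit 344127) (nat_lit 26) (.e (nat_lit 557090) (nat_lit 12) (.e (nat_lit 163849) (nat_lit 0) (.e (nat_lit 6255) (nat_lit 337) (.e (nat_lit 2725) (nat_lit 172) (.e (nat_lit 237589) (nat_lit 2) .nil)))))))) (.g (nat_lit 1) (.e (nat_lit 216874) (nat_lit 0) .nil) .nil)))) 
(.nd (nat_lit 9) 
(.lf (nat_lit 517530) (.g (nat_lit 1876) (.e (nat_lit 196666) (nat_lit 13) (.e (nat_lit 65610) (nat_lit 10) (.e (nat_lit 344129) (nat_lit 26) (.e (nat_lit 557065) (nat_lit 9) (.e (nat_lit 2612) (nat_lit 163) .nil))))) (.g (nat_lit 0) (.e (nat_lit 216520) (nat_lit 0) .nil) .nil))) 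
(.lf (nat_lit 518042) (.g (nat_lit 506) (.e (nat_lit 196666) (nat_lit 13) (.e (nat_lit 65624) (nat_lit 12) (.e (nat_lit 385065) (nat_lit 26) .nil))) (.g (nat_lit 0) (.e (nat_lit 217172) (nat_lit 0) .nil) .nil)))))) (.nd (nat_lit 7) (.nd (nat_lit 8) (.nd (nat_lit 9) 
(.lf (nat_lit 517210) (.g (nat_lit 4338) (.e (nat_lit 196666) (nat_lit 13) (.e (nat_lit 65610) (nat_lit 10) (.e (nat_lit 344117) (nat_lit 21) (.e (nat_lit 516151) (nat_lit 9) (.e (nat_lit 426040) (nat_lit 0) (.e (nat_lit 2422) (nat_lit 157) (.e (nat_lit 4849) (nat_lit 285) (.e (nat_lit 163870) (nat_lit 2) .nil)))))))) (.g (nat_lit 1) (.e (nat_lit 216097) (nat_lit 0) .nil) .nil))) 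
(.lf (nat_lit 517722) (.g (nat_lit 1205) (.e (nat_lit 196666) (nat_lit 13) (.e (nat_lit 65617) (nat_lit 10) (.e (nat_lit 344117) (nat_lit 21) (.e (nat_lit 516106) (nat_lit 0) .nil)))) (.g (nat_lit 0) (.e (nat_lit 216798) (nat_lit 0) .nil) .nil)))) (.nd (nat_lit 9) 
(.lf (nat_lit 517466) (.g (nat_lit 2550) (.e (nat_lit 196666) (nat_lit 13) (.e (nat_lit 65610) (nat_lit 10) (.e (nat_lit 344117) (nat_lit 21) (.e (nat_lit 516160) (nat_lit 10) (.e (nat_lit 434274) (nat_lit 39) (.e (nat_lit 663560) (nat_lit 0) (.e (nat_lit 7936) (nat_lit 11) .nil))))))) (.g (nat_lit 1) (.e (nat_lit 216419) (nat_lit 0) .nil) .nil))) 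
(.lf (nat_lit 517978) (.g (nat_lit 3080) (.e (nat_lit 196666) (nat_lit 13) (.e (nat_lit 65617) (nat_lit 10) (.e (nat_lit 344133) (nat_lit 26) (.e (nat_lit 557091) (nat_lit 12) (.e (nat_lit 164016) (nat_lit 44) (.e (nat_lit 688138) (nat_lit 5) (.e (nat_lit 2887) (nat_lit 184) (.e (nat_lit 426120) (nat_lit 2) .nil)))))))) (.g (nat_lit 1) (.e (nat_lit 217092) (nat_lit 0) .nil) .nil))))) 
(.nd (nat_lit 8) (.nd (nat_lit 9) 
(.lf (nat_lit 517338) (.g (nat_lit 4060) (.e (nat_lit 196666) (nat_lit 13) (.e (nat_lit 65610) (nat_lit 10) (.e (nat_lit 344117) (nat_lit 21) (.e (nat_lit 516151) (nat_lit 9) (.e (nat_lit 426049) (nat_lit 0) (.e (nat_lit 3366) (nat_lit 208) (.e (nat_lit 622625) (nat_lit 13) (.e (nat_lit 2663) (nat_lit 167) .nil)))))))) (.g (nat_lit 1) (.e (nat_lit 216225) (nat_lit 0) .nil) .nil))) 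
(.lf (nat_lit 517850) (.g (nat_lit 2764) (.e (nat_lit 196666) (nat_lit 13) (.e (nat_lit 65617) (nat_lit 10) (.e (nat_lit 344130) (nat_lit 26) (.e (nat_lit 557087) (nat_lit 11) (.e (nat_lit 24593) (nat_lit 0) (.e (nat_lit 6659) (nat_lit 357) (.e (nat_lit 2663) (nat_lit 167) .nil))))))) (.g (nat_lit 1) (.e (nat_lit 216953) (nat_lit 0) .nil) .nil)))) (.nd (nat_lit 9) 
(.lf (nat_lit 517594) (.g (nat_lit 2982) (.e (nat_lit 196666) (nat_lit 13) (.e (nat_lit 65610) (nat_lit 10) (.e (nat_lit 344129) (nat_lit 26) (.e (nat_lit 557087) (nat_lit 11) (.e (nat_lit 24595) (nat_lit 0) (.e (nat_lit 7936) (nat_lit 357) (.e (nat_lit 2668) (nat_lit 167) .nil))))))) (.g (nat_lit 1) (.e (nat_lit 216637) (nat_lit 0) .nil) .nil))) 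
(.lf (nat_lit 518106) (.g (nat_lit 3437) (.e (nat_lit 196667) (nat_lit 14) (.e (nat_lit 73754) (nat_lit 8) (.e (nat_lit 557105) (nat_lit 14) (.e (nat_lit 180252) (nat_lit 10) (.e (nat_lit 573474) (nat_lit 12) .nil))))) (.g (nat_lit 0) (.e (nat_lit 217285) (nat_lit 0) .nil) .nil))))))) (.nd (nat_lit 6) (.nd (nat_lit 7) (.nd (nat_lit 8) (.nd (nat_lit 9) 
(.lf (nat_lit 517178) (.g (nat_lit 3443) (.e (nat_lit 196666) (nat_lit 13) (.e (nat_lit 65610) (nat_lit 10) (.e (nat_lit 344117) (nat_lit 21) (.e (nat_lit 516151) (nat_lit 9) (.e (nat_lit 426038) (nat_lit 0) (.e (nat_lit 3366) (nat_lit 208) (.e (nat_lit 622621) (nat_lit 13) (.e (nat_lit 2668) (nat_lit 167) .nil)))))))) (.g (nat_lit 1) (.e (nat_lit 216065) (nat_lit 0) .nil) .nil))) 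
(.lf (nat_lit 517690) (.g (nat_lit 3997) (.e (nat_lit 196666) (nat_lit 13) (.e (nat_lit 65610) (nat_lit 10) (.e (nat_lit 344129) (nat_lit 26) (.e (nat_lit 557091) (nat_lit 12) (.e (nat_lit 164020) (nat_lit 45) .nil))))) (.g (nat_lit 0) (.e (nat_lit 216759) (nat_lit 0) .nil) .nil)))) (.nd (nat_lit 9) 
(.lf (nat_lit 517434) (.g (nat_lit 3289) (.e (nat_lit 196666) (nat_lit 13) (.e (nat_lit 65610) (nat_lit 10) (.e (nat_lit 344117) (nat_lit 21) (.e (nat_lit 516159) (nat_lit 10) (.e (nat_lit 434208) (nat_lit 18) (.e (nat_lit 4754) (nat_lit 281) (.e (nat_lit 7936) (nat_lit 157) (.e (nat_lit 2666) (nat_lit 167) .nil)))))))) (.g (nat_lit 1) (.e (nat_lit 216352) (nat_lit 0) .nil) .nil))) 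
(.lf (nat_lit 517946) (.g (nat_lit 2712) (.e (nat_lit 196666) (nat_lit 13) (.e (nat_lit 65617) (nat_lit 10) (.e (nat_lit 344133) (nat_lit 26) (.e (nat_lit 557084) (nat_lit 10) (.e (nat_lit 16128) (nat_lit 225) .nil))))) (.g (nat_lit 0) (.e (nat_lit 217059) (nat_lit 0) .nil) .nil))))) (.nd (nat_lit 8) (.nd (nat_lit 9) 
(.lf (nat_lit 517306) (.g (nat_lit 4126) (.e (nat_lit 196666) (nat_lit 13) (.e (nat_lit 65610) (nat_lit 10) (.e (nat_lit 344117) (nat_lit 21) (.e (nat_lit 516151) (nat_lit 9) (.e (nat_lit 426045) (nat_lit 0) (.e (nat_lit 3369) (nat_lit 208) (.e (nat_lit 622620) (nat_lit 13) (.e (nat_lit 2663) (nat_lit 167) .nil)))))))) (.g (nat_lit 1) (.e (nat_lit 216193) (nat_lit 0) .nil) .nil))) 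
(.lf (nat_lit 517818) (.g (nat_lit 1720) (.e (nat_lit 196666) (nat_lit 13) (.e (nat_lit 65617) (nat_lit 10) (.e (nat_lit 344130) (nat_lit 26) (.e (nat_lit 557065) (nat_lit 9) (.e (nat_lit 2741) (nat_lit 174) .nil))))) (.g (nat_lit 0) (.e (nat_lit 216909) (nat_lit 0) .nil) .nil)))) (.nd (nat_lit 9) 
(.lf (nat_lit 517562) (.g (nat_lit 5058) (.e (nat_lit 196666) (nat_lit 13) (.e (nat_lit 65610) (nat_lit 10) (.e (nat_lit 344129) (nat_lit 26) (.e (nat_lit 557070) (nat_lit 9) (.e (nat_lit 2744) (nat_lit 174) (.e (nat_lit 253991) (nat_lit 11) (.e (nat_lit 16409) (nat_lit 2) .nil))))))) (.g (nat_lit 1) (.e (nat_lit 216574) (nat_lit 0) .nil) .nil))) 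
(.lf (nat_lit 518074) (.g (nat_lit 3111) (.e (nat_lit 196666) (nat_lit 13) (.e (nat_lit 65629) (nat_lit 14) (.e (nat_lit 401425) (nat_lit 2) (.e (nat_lit 196668) (nat_lit 14) (.e (nat_lit 73782) (nat_lit 32) .nil))))) (.g (nat_lit 0) (.e (nat_lit 217232) (nat_lit 0) .nil) .nil)))))) (.nd (nat_lit 7) (.nd (nat_lit 8) (.nd (nat_lit 9) 
(.lf (nat_lit 517242) (.g (nat_lit 3297) (.e (nat_lit 196666) (nat_lit 13) (.e (nat_lit 65610) (nat_lit 10) (.e (nat_lit 344117) (nat_lit 21) (.e (nat_lit 516151) (nat_lit 9) (.e (nat_lit 426040) (nat_lit 0) (.e (nat_lit 3370) (nat_lit 208) (.e (nat_lit 622622) (nat_lit 13) (.e (nat_lit 2662) (nat_lit 167) .nil)))))))) (.g (nat_lit 1) (.e (nat_lit 216129) (nat_lit 0) .nil) .nil))) 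
(.lf (nat_lit 517754) (.g (nat_lit 198) (.e (nat_lit 196666) (nat_lit 13) (.e (nat_lit 65617) (nat_lit 10) (.e (nat_lit 344127) (nat_lit 26) .nil))) (.g (nat_lit 0) (.e (nat_lit 216837) (nat_lit 0) .nil) .nil)))) (.nd (nat_lit 9) 
(.lf (nat_lit 517498) (.g (nat_lit 2504) (.e (nat_lit 196666) (nat_lit 13) (.e (nat_lit 65610) (nat_lit 10) (.e (nat_lit 344117) (nat_lit 21) (.e (nat_lit 516185) (nat_lit 16) (.e (nat_lit 491526) (nat_lit 0) .nil))))) (.g (nat_lit 0) (.e (nat_lit 216459) (nat_lit 0) .nil) .nil))) 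
(.lf (nat_lit 518010) (.g (nat_lit 4292) (.e (nat_lit 196666) (nat_lit 13) (.e (nat_lit 65619) (nat_lit 10) (.e (nat_lit 344117) (nat_lit 21) (.e (nat_lit 516139) (nat_lit 7) (.e (nat_lit 409615) (nat_lit 10) .nil))))) (.g (nat_lit 0) (.e (nat_lit 217130) (nat_lit 0) .nil) .nil))))) (.nd (nat_lit 8) (.nd (nat_lit 9) 
(.lf (nat_lit 517370) (.g (nat_lit 4562) (.e (nat_lit 196666) (nat_lit 13) (.e (nat_lit 65610) (nat_lit 10) (.e (nat_lit 344117) (nat_lit 21) (.e (nat_lit 516151) (nat_lit 9) (.e (nat_lit 426047) (nat_lit 0) (.e (nat_lit 2423) (nat_lit 157) (.e (nat_lit 4849) (nat_lit 285) (.e (nat_lit 163869) (nat_lit 2) .nil)))))))) (.g (nat_lit 1) (.e (nat_lit 216257) (nat_lit 0) .nil) .nil))) 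
(.lf (nat_lit 517882) (.g (nat_lit 3099) (.e (nat_lit 196666) (nat_lit 13) (.e (nat_lit 65617) (nat_lit 10) (.e (nat_lit 344130) (nat_lit 26) (.e (nat_lit 557090) (nat_lit 12) (.e (nat_lit 163849) (nat_lit 0) (.e (nat_lit 6252) (nat_lit 337) (.e (nat_lit 2630) (nat_lit 164) (.e (nat_lit 172064) (nat_lit 2) .nil)))))))) (.g (nat_lit 1) (.e (nat_lit 216987) (nat_lit 0) .nil) .nil)))) 
(.nd (nat_lit 9) 
(.lf (nat_lit 517626) (.g (nat_lit 2684) (.e (nat_lit 196666) (nat_lit 13) (.e (nat_lit 65610) (nat_lit 10) (.e (nat_lit 344129) (nat_lit 26) (.e (nat_lit 557090) (nat_lit 12) (.e (nat_lit 163840) (nat_lit 0) (.e (nat_lit 6421) (nat_lit 341) (.e (nat_lit 171776) (nat_lit 12) (.e (nat_lit 426123) (nat_lit 2) .nil)))))))) (.g (nat_lit 1) (.e (nat_lit 216674) (nat_lit 0) .nil) .nil))) 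
(.lf (nat_lit 518138) (.g (nat_lit 1318) (.e (nat_lit 196668) (nat_lit 14) (.e (nat_lit 73746) (nat_lit 3) (.e (nat_lit 516118) (nat_lit 1) (.e (nat_lit 164179) (nat_lit 154) .nil)))) (.g (nat_lit 0) (.e (nat_lit 217418) (nat_lit 0) .nil) .nil)))))))))) (.nd (nat_lit 3) (.nd (nat_lit 4) (.nd (nat_lit 5) (.nd (nat_lit 6) (.nd (nat_lit 7) (.nd (nat_lit 8) (.nd (nat_lit 9) 
(.lf (nat_lit 517126) (.g (nat_lit 5165) (.e (nat_lit 196666) (nat_lit 13) (.e (nat_lit 65610) (nat_lit 10) (.e (nat_lit 344117) (nat_lit 21) (.e (nat_lit 516151) (nat_lit 9) (.e (nat_lit 426037) (nat_lit 0) (.e (nat_lit 3370) (nat_lit 208) (.e (nat_lit 622620) (nat_lit 13) (.e (nat_lit 2663) (nat_lit 167) .nil)))))))) (.g (nat_lit 1) (.e (nat_lit 216013) (nat_lit 0) .nil) .nil))) 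
(.lf (nat_lit 517638) (.g (nat_lit 2284) (.e (nat_lit 196666) (nat_lit 13) (.e (nat_lit 65610) (nat_lit 10) (.e (nat_lit 344129) (nat_lit 26) (.e (nat_lit 557090) (nat_lit 12) (.e (nat_lit 163843) (nat_lit 0) (.e (nat_lit 6250) (nat_lit 337) (.e (nat_lit 2630) (nat_lit 164) (.e (nat_lit 172062) (nat_lit 2) .nil)))))))) (.g (nat_lit 1) (.e (nat_lit 216696) (nat_lit 0) .nil) .nil)))) 
(.nd (nat_lit 9) 
(.lf (nat_lit 517382) (.g (nat_lit 4206) (.e (nat_lit 196666) (nat_lit 13) (.e (nat_lit 65610) (nat_lit 10) (.e (nat_lit 344117) (nat_lit 21) (.e (nat_lit 516151) (nat_lit 9) (.e (nat_lit 426047) (nat_lit 0) (.e (nat_lit 2425) (nat_lit 157) (.e (nat_lit 7936) (nat_lit 285) (.e (nat_lit 163870) (nat_lit 2) .nil)))))))) (.g (nat_lit 1) (.e (nat_lit 216269) (nat_lit 0) .nil) .nil))) 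
(.lf (nat_lit 517894) (.g (nat_lit 2701) (.e (nat_lit 196666) (nat_lit 13) (.e (nat_lit 65617) (nat_lit 10) (.e (nat_lit 344130) (nat_lit 26) (.e (nat_lit 557090) (nat_lit 12) (.e (nat_lit 164019) (nat_lit 45) (.e (nat_lit 696327) (nat_lit 5) (.e (nat_lit 2884) (nat_lit 184) (.e (nat_lit 426125) (nat_lit 2) .nil)))))))) (.g (nat_lit 1) (.e (nat_lit 216999) (nat_lit 0) .nil) .nil))))) 
(.nd (nat_lit 8) (.nd (nat_lit 9) 
(.lf (nat_lit 517254) (.g (nat_lit 3687) (.e (nat_lit 196666) (nat_lit 13) (.e (nat_lit 65610) (nat_lit 10) (.e (nat_lit 344117) (nat_lit 21) (.e (nat_lit 516151) (nat_lit 9) (.e (nat_lit 426041) (nat_lit 0) (.e (nat_lit 3370) (nat_lit 208) (.e (nat_lit 622626) (nat_lit 13) (.e (nat_lit 2663) (nat_lit 167) .nil)))))))) (.g (nat_lit 1) (.e (nat_lit 216141) (nat_lit 0) .nil) .nil))) 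
(.lf (nat_lit 517766) (.g (nat_lit 2271) (.e (nat_lit 196666) (nat_lit 13) (.e (nat_lit 65617) (nat_lit 10) (.e (nat_lit 344127) (nat_lit 26) (.e (nat_lit 557090) (nat_lit 12) (.e (nat_lit 163844) (nat_lit 0) .nil))))) (.g (nat_lit 0) (.e (nat_lit 216854) (nat_lit 0) .nil) .nil)))) (.nd (nat_lit 9) 
(.lf (nat_lit 517510) (.g (nat_lit 2933) (.e (nat_lit 196666) (nat_lit 13) (.e (nat_lit 65610) (nat_lit 10) (.e (nat_lit 344126) (nat_lit 25) (.e (nat_lit 548889) (nat_lit 9) (.e (nat_lit 65537) (nat_lit 0) (.e (nat_lit 6676) (nat_lit 357) (.e (nat_lit 2664) (nat_lit 167) .nil))))))) (.g (nat_lit 1) (.e (nat_lit 216492) (nat_lit 0) .nil) .nil))) 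
(.lf (nat_lit 518022) (.g (nat_lit 1950) (.e (nat_lit 196666) (nat_lit 13) (.e (nat_lit 65619) (nat_lit 10) (.e (nat_lit 344129) (nat_lit 26) (.e (nat_lit 557066) (nat_lit 9) (.e (nat_lit 297) (nat_lit 22) .nil))))) (.g (nat_lit 0) (.e (nat_lit 217142) (nat_lit 0) .nil) .nil)))))) (.nd (nat_lit 7) (.nd (nat_lit 8) (.nd (nat_lit 9) 
(.lf (nat_lit 517190) (.g (nat_lit 4984) (.e (nat_lit 196666) (nat_lit 13) (.e (nat_lit 65610) (nat_lit 10) (.e (nat_lit 344117) (nat_lit 21) (.e (nat_lit 516151) (nat_lit 9) (.e (nat_lit 426038) (nat_lit 0) (.e (nat_lit 3369) (nat_lit 208) (.e (nat_lit 622625) (nat_lit 13) (.e (nat_lit 2663) (nat_lit 167) .nil)))))))) (.g (nat_lit 1) (.e (nat_lit 216077) (nat_lit 0) .nil) .nil))) 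
(.lf (nat_lit 517702) (.g (nat_lit 2607) (.e (nat_lit 196666) (nat_lit 13) (.e (nat_lit 65610) (nat_lit 10) (.e (nat_lit 344131) (nat_lit 26) (.e (nat_lit 557090) (nat_lit 12) (.e (nat_lit 164020) (nat_lit 45) (.e (nat_lit 696329) (nat_lit 5) (.e (nat_lit 2884) (nat_lit 184) (.e (nat_lit 426125) (nat_lit 2) .nil)))))))) (.g (nat_lit 1) (.e (nat_lit 216771) (nat_lit 0) .nil) .nil)))) 
(.nd (nat_lit 9) 
(.lf (nat_lit 517446) (.g (nat_lit 3326) (.e (nat_lit 196666) (nat_lit 13) (.e (nat_lit 65610) (nat_lit 10) (.e (nat_lit 344117) (nat_lit 21) (.e (nat_lit 516159) (nat_lit 10) (.e (nat_lit 434275) (nat_lit 39) (.e (nat_lit 663561) (nat_lit 0) (.e (nat_lit 7936) (nat_lit 11) .nil))))))) (.g (nat_lit 1) (.e (nat_lit 216369) (nat_lit 0) .nil) .nil))) 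
(.lf (nat_lit 517958) (.g (nat_lit 3405) (.e (nat_lit 196666) (nat_lit 13) (.e (nat_lit 65617) (nat_lit 10) (.e (nat_lit 344133) (nat_lit 26) (.e (nat_lit 557089) (nat_lit 12) (.e (nat_lit 164017) (nat_lit 44) (.e (nat_lit 688139) (nat_lit 5) (.e (nat_lit 2887) (nat_lit 184) (.e (nat_lit 426120) (nat_lit 2) .nil)))))))) (.g (nat_lit 1) (.e (nat_lit 217072) (nat_lit 0) .nil) .nil))))) 
(.nd (nat_lit 8) (.nd (nat_lit 9) 
(.lf (nat_lit 517318) (.g (nat_lit 3440) (.e (nat_lit 196666) (nat_lit 13) (.e (nat_lit 65610) (nat_lit 10) (.e (nat_lit 344117) (nat_lit 21) (.e (nat_lit 516151) (nat_lit 9) (.e (nat_lit 426045) (nat_lit 0) (.e (nat_lit 3370) (nat_lit 208) (.e (nat_lit 622623) (nat_lit 13) (.e (nat_lit 2668) (nat_lit 167) .nil)))))))) (.g (nat_lit 1) (.e (nat_lit 216205) (nat_lit 0) .nil) .nil))) 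
(.lf (nat_lit 517830) (.g (nat_lit 1135) (.e (nat_lit 196666) (nat_lit 13) (.e (nat_lit 65617) (nat_lit 10) (.e (nat_lit 344130) (nat_lit 26) (.e (nat_lit 557070) (nat_lit 9) .nil)))) (.g (nat_lit 0) (.e (nat_lit 216931) (nat_lit 0) .nil) .nil)))) (.nd (nat_lit 9) 
(.lf (nat_lit 517574) (.g (nat_lit 2645) (.e (nat_lit 196666) (nat_lit 13) (.e (nat_lit 65610) (nat_lit 10) (.e (nat_lit 344129) (nat_lit 26) (.e (nat_lit 557085) (nat_lit 11) (.e (nat_lit 24579) (nat_lit 0) (.e (nat_lit 6619) (nat_lit 357) (.e (nat_lit 2668) (nat_lit 167) .nil))))))) (.g (nat_lit 1) (.e (nat_lit 216617) (nat_lit 0) .nil) .nil))) 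
(.lf (nat_lit 518086) (.g (nat_lit 2947) (.e (nat_lit 196666) (nat_lit 13) (.e (nat_lit 65630) (nat_lit 14) (.e (nat_lit 401425) (nat_lit 2) (.e (nat_lit 196666) (nat_lit 13) (.e (nat_lit 65540) (nat_lit 0) (.e (nat_lit 6681) (nat_lit 357) (.e (nat_lit 2664) (nat_lit 167) .nil))))))) (.g (nat_lit 1) (.e (nat_lit 217248) (nat_lit 0) .nil) .nil))))))) 
(.nd (nat_lit 6) (.nd (nat_lit 7) (.nd (nat_lit 8) (.nd (nat_lit 9) 
(.lf (nat_lit 517158) (.g (nat_lit 4539) (.e (nat_lit 196666) (nat_lit 13) (.e (nat_lit 65610) (nat_lit 10) (.e (nat_lit 344117) (nat_lit 21) (.e (nat_lit 516151) (nat_lit 9) (.e (nat_lit 426038) (nat_lit 0) (.e (nat_lit 2423) (nat_lit 157) (.e (nat_lit 7936) (nat_lit 285) (.e (nat_lit 163870) (nat_lit 2) .nil)))))))) (.g (nat_lit 1) (.e (nat_lit 216045) (nat_lit 0) .nil) .nil))) 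
(.lf (nat_lit 517670) (.g (nat_lit 2294) (.e (nat_lit 196666) (nat_lit 13) (.e (nat_lit 65610) (nat_lit 10) (.e (nat_lit 344129) (nat_lit 26) (.e (nat_lit 557090) (nat_lit 12) (.e (nat_lit 163849) (nat_lit 0) (.e (nat_lit 6418) (nat_lit 341) (.e (nat_lit 163900) (nat_lit 12) (.e (nat_lit 426125) (nat_lit 2) .nil)))))))) (.g (nat_lit 1) (.e (nat_lit 216736) (nat_lit 0) .nil) .nil)))) 
(.nd (nat_lit 9) 
(.lf (nat_lit 517414) (.g (nat_lit 3516) (.e (nat_lit 196666) (nat_lit 13) (.e (nat_lit 65610) (nat_lit 10) (.e (nat_lit 344117) (nat_lit 21) (.e (nat_lit 516151) (nat_lit 9) (.e (nat_lit 426047) (nat_lit 0) (.e (nat_lit 3371) (nat_lit 208) (.e (nat_lit 622620) (nat_lit 13) (.e (nat_lit 2668) (nat_lit 167) .nil)))))))) (.g (nat_lit 1) (.e (nat_lit 216301) (nat_lit 0) .nil) .nil))) 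
(.lf (nat_lit 517926) (.g (nat_lit 1756) (.e (nat_lit 196666) (nat_lit 13) (.e (nat_lit 65617) (nat_lit 10) (.e (nat_lit 344132) (nat_lit 26) (.e (nat_lit 557093) (nat_lit 12) (.e (nat_lit 163849) (nat_lit 0) .nil))))) (.g (nat_lit 0) (.e (nat_lit 217035) (nat_lit 0) .nil) .nil))))) (.nd (nat_lit 8) (.nd (nat_lit 9) 
(.lf (nat_lit 517286) (.g (nat_lit 2792) (.e (nat_lit 196666) (nat_lit 13) (.e (nat_lit 65610) (nat_lit 10) (.e (nat_lit 344117) (nat_lit 21) (.e (nat_lit 516151) (nat_lit 9) (.e (nat_lit 426042) (nat_lit 0) (.e (nat_lit 3371) (nat_lit 208) (.e (nat_lit 622627) (nat_lit 13) (.e (nat_lit 2666) (nat_lit 167) .nil)))))))) (.g (nat_lit 1) (.e (nat_lit 216173) (nat_lit 0) .nil) .nil))) 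
(.lf (nat_lit 517798) (.g (nat_lit 3330) (.e (nat_lit 196666) (nat_lit 13) (.e (nat_lit 65617) (nat_lit 10) (.e (nat_lit 344127) (nat_lit 26) (.e (nat_lit 557090) (nat_lit 12) (.e (nat_lit 164017) (nat_lit 44) (.e (nat_lit 688138) (nat_lit 5) (.e (nat_lit 2887) (nat_lit 184) (.e (nat_lit 426120) (nat_lit 2) .nil)))))))) (.g (nat_lit 1) (.e (nat_lit 216888) (nat_lit 0) .nil) .nil)))) 
(.nd (nat_lit 9) 
(.lf (nat_lit 517542) (.g (nat_lit 1996) (.e (nat_lit 196666) (nat_lit 13) (.e (nat_lit 65610) (nat_lit 10) (.e (nat_lit 344129) (nat_lit 26) (.e (nat_lit 557067) (nat_lit 9) (.e (nat_lit 2461) (nat_lit 157) .nil))))) (.g (nat_lit 0) (.e (nat_lit 216545) (nat_lit 0) .nil) .nil))) 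
(.lf (nat_lit 518054) (.g (nat_lit 3367) (.e (nat_lit 196666) (nat_lit 13) (.e (nat_lit 65624) (nat_lit 12) (.e (nat_lit 385074) (nat_lit 31) (.e (nat_lit 573484) (nat_lit 13) (.e (nat_lit 65540) (nat_lit 0) (.e (nat_lit 6681) (nat_lit 357) (.e (nat_lit 2664) (nat_lit 167) .nil))))))) (.g (nat_lit 1) (.e (nat_lit 217194) (nat_lit 0) .nil) .nil)))))) 
(.nd (nat_lit 7) (.nd (nat_lit 8) (.nd (nat_lit 9) 
(.lf (nat_lit 517222) (.g (nat_lit 3612) (.e (nat_lit 196666) (nat_lit 13) (.e (nat_lit 65610) (nat_lit 10) (.e (nat_lit 344117) (nat_lit 21) (.e (nat_lit 516151) (nat_lit 9) (.e (nat_lit 426040) (nat_lit 0) (.e (nat_lit 2426) (nat_lit 157) (.e (nat_lit 4850) (nat_lit 286) (.e (nat_lit 229387) (nat_lit 2) .nil)))))))) (.g (nat_lit 1) (.e (nat_lit 216109) (nat_lit 0) .nil) .nil))) 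
(.lf (nat_lit 517734) (.g (nat_lit 3679) (.e (nat_lit 196666) (nat_lit 13) (.e (nat_lit 65617) (nat_lit 10) (.e (nat_lit 344117) (nat_lit 21) (.e (nat_lit 516139) (nat_lit 7) (.e (nat_lit 409616) (nat_lit 10) (.e (nat_lit 5627) (nat_lit 312) (.e (nat_lit 2668) (nat_lit 167) .nil))))))) (.g (nat_lit 1) (.e (nat_lit 216810) (nat_lit 0) .nil) .nil)))) (.nd (nat_lit 9) 
(.lf (nat_lit 517478) (.g (nat_lit 3542) (.e (nat_lit 196666) (nat_lit 13) (.e (nat_lit 65610) (nat_lit 10) (.e (nat_lit 344117) (nat_lit 21) (.e (nat_lit 516160) (nat_lit 10) (.e (nat_lit 434276) (nat_lit 39) (.e (nat_lit 663555) (nat_lit 0) (.e (nat_lit 7936) (nat_lit 11) .nil))))))) (.g (nat_lit 1) (.e (nat_lit 216432) (nat_lit 0) .nil) .nil))) 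
(.lf (nat_lit 517990) (.g (nat_lit 2707) (.e (nat_lit 196666) (nat_lit 13) (.e (nat_lit 65617) (nat_lit 10) (.e (nat_lit 344133) (nat_lit 26) (.e (nat_lit 557091) (nat_lit 12) (.e (nat_lit 164022) (nat_lit 46) (.e (nat_lit 704627) (nat_lit 9) (.e (nat_lit 391) (nat_lit 32) (.e (nat_lit 426122) (nat_lit 2) .nil)))))))) (.g (nat_lit 1) (.e (nat_lit 217104) (nat_lit 0) .nil) .nil))))) 
(.nd (nat_lit 8) (.nd (nat_lit 9) 
(.lf (nat_lit 517350) (.g (nat_lit 3662) (.e (nat_lit 196666) (nat_lit 13) (.e (nat_lit 65610) (nat_lit 10) (.e (nat_lit 344117) (nat_lit 21) (.e (nat_lit 516151) (nat_lit 9) (.e (nat_lit 426050) (nat_lit 0) (.e (nat_lit 3366) (nat_lit 208) (.e (nat_lit 622623) (nat_lit 13) (.e (nat_lit 2668) (nat_lit 167) .nil)))))))) (.g (nat_lit 1) (.e (nat_lit 216237) (nat_lit 0) .nil) .nil))) 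
(.lf (nat_lit 517862) (.g (nat_lit 1061) (.e (nat_lit 196666) (nat_lit 13) (.e (nat_lit 65617) (nat_lit 10) (.e (nat_lit 344130) (nat_lit 26) (.e (nat_lit 557090) (nat_lit 12) .nil)))) (.g (nat_lit 0) (.e (nat_lit 216966) (nat_lit 0) .nil) .nil)))) (.nd (nat_lit 9) 
(.lf (nat_lit 517606) (.g (nat_lit 2594) (.e (nat_lit 196666) (nat_lit 13) (.e (nat_lit 65610) (nat_lit 10) (.e (nat_lit 344129) (nat_lit 26) (.e (nat_lit 557089) (nat_lit 12) (.e (nat_lit 163843) (nat_lit 0) (.e (nat_lit 6418) (nat_lit 341) (.e (nat_lit 163900) (nat_lit 12) (.e (nat_lit 426125) (nat_lit 2) .nil)))))))) (.g (nat_lit 1) (.e (nat_lit 216651) (nat_lit 0) .nil) .nil))) 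
(.lf (nat_lit 518118) (.g (nat_lit 1792) (.e (nat_lit 196668) (nat_lit 14) (.e (nat_lit 73746) (nat_lit 3) (.e (nat_lit 516115) (nat_lit 1) (.e (nat_lit 164179) (nat_lit 154) .nil)))) (.g (nat_lit 0) (.e (nat_lit 217322) (nat_lit 0) .nil) .nil)))))))) (.nd (nat_lit 5) (.nd (nat_lit 6) (.nd (nat_lit 7) (.nd (nat_lit 8) (.nd (nat_lit 9) 
(.lf (nat_lit 517142) (.g (nat_lit 4052) (.e (nat_lit 196666) (nat_lit 13) (.e (nat_lit 65610) (nat_lit 10) (.e (nat_lit 344117) (nat_lit 21) (.e (nat_lit 516151) (nat_lit 9) (.e (nat_lit 426038) (nat_lit 0) (.e (nat_lit 2422) (nat_lit 157) (.e (nat_lit 4778) (nat_lit 281) (.e (nat_lit 2477) (nat_lit 157) (.e (nat_lit 2663) (nat_lit 167) .nil))))))))) (.g (nat_lit 1) (.e (nat_lit 216029) (nat_lit 0) .nil) .nil))) 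
(.lf (nat_lit 517654) (.g (nat_lit 3621) (.e (nat_lit 196666) (nat_lit 13) (.e (nat_lit 65610) (nat_lit 10) (.e (nat_lit 344129) (nat_lit 26) (.e (nat_lit 557090) (nat_lit 12) (.e (nat_lit 163844) (nat_lit 0) (.e (nat_lit 6421) (nat_lit 341) (.e (nat_lit 171776) (nat_lit 12) (.e (nat_lit 426123) (nat_lit 2) .nil)))))))) (.g (nat_lit 1) (.e (nat_lit 216717) (nat_lit 0) .nil) .nil)))) 
(.nd (nat_lit 9) 
(.lf (nat_lit 517398) (.g (nat_lit 3746) (.e (nat_lit 196666) (nat_lit 13) (.e (nat_lit 65610) (nat_lit 10) (.e (nat_lit 344117) (nat_lit 21) (.e (nat_lit 516151) (nat_lit 9) (.e (nat_lit 426047) (nat_lit 0) (.e (nat_lit 3369) (nat_lit 208) (.e (nat_lit 622620) (nat_lit 13) (.e (nat_lit 2668) (nat_lit 167) .nil)))))))) (.g (nat_lit 1) (.e (nat_lit 216285) (nat_lit 0) .nil) .nil))) 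
(.lf (nat_lit 517910) (.g (nat_lit 2703) (.e (nat_lit 196666) (nat_lit 13) (.e (nat_lit 65617) (nat_lit 10) (.e (nat_lit 344130) (nat_lit 26) (.e (nat_lit 557091) (nat_lit 12) (.e (nat_lit 164022) (nat_lit 46) .nil))))) (.g (nat_lit 0) (.e (nat_lit 217016) (nat_lit 0) .nil) .nil))))) (.nd (nat_lit 8) (.nd (nat_lit 9) 
(.lf (nat_lit 517270) (.g (nat_lit 2658) (.e (nat_lit 196666) (nat_lit 13) (.e (nat_lit 65610) (nat_lit 10) (.e (nat_lit 344117) (nat_lit 21) (.e (nat_lit 516151) (nat_lit 9) (.e (nat_lit 426042) (nat_lit 0) (.e (nat_lit 2427) (nat_lit 157) (.e (nat_lit 4751) (nat_lit 281) (.e (nat_lit 2518) (nat_lit 157) (.e (nat_lit 2664) (nat_lit 167) .nil))))))))) (.g (nat_lit 1) (.e (nat_lit 216157) (nat_lit 0) .nil) .nil))) 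
(.lf (nat_lit 517782) (.g (nat_lit 2461) (.e (nat_lit 196666) (nat_lit 13) (.e (nat_lit 65617) (nat_lit 10) (.e (nat_lit 344127) (nat_lit 26) (.e (nat_lit 557090) (nat_lit 12) (.e (nat_lit 163849) (nat_lit 0) (.e (nat_lit 6254) (nat_lit 337) (.e (nat_lit 2630) (nat_lit 164) (.e (nat_lit 172064) (nat_lit 2) .nil)))))))) (.g (nat_lit 1) (.e (nat_lit 216870) (nat_lit 0) .nil) .nil)))) 
(.nd (nat_lit 9) 
(.lf (nat_lit 517526) (.g (nat_lit 2439) (.e (nat_lit 196666) (nat_lit 13) (.e (nat_lit 65610) (nat_lit 10) (.e (nat_lit 344129) (nat_lit 26) (.e (nat_lit 557064) (nat_lit 9) (.e (nat_lit 328) (nat_lit 25) .nil))))) (.g (nat_lit 0) (.e (nat_lit 216516) (nat_lit 0) .nil) .nil))) 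
(.lf (nat_lit 518038) (.g (nat_lit 2546) (.e (nat_lit 196666) (nat_lit 13) (.e (nat_lit 65622) (nat_lit 12) (.e (nat_lit 385074) (nat_lit 31) (.e (nat_lit 573488) (nat_lit 14) (.e (nat_lit 73781) (nat_lit 32) .nil))))) (.g (nat_lit 0) (.e (nat_lit 217164) (nat_lit 0) .nil) .nil)))))) (.nd (nat_lit 7) (.nd (nat_lit 8) (.nd (nat_lit 9) 
(.lf (nat_lit 517206) (.g (nat_lit 3301) (.e (nat_lit 196666) (nat_lit 13) (.e (nat_lit 65610) (nat_lit 10) (.e (nat_lit 344117) (nat_lit 21) (.e (nat_lit 516151) (nat_lit 9) (.e (nat_lit 426040) (nat_lit 0) (.e (nat_lit 2422) (nat_lit 157) (.e (nat_lit 4778) (nat_lit 281) (.e (nat_lit 2444) (nat_lit 157) (.e (nat_lit 2668) (nat_lit 167) .nil))))))))) (.g (nat_lit 1) (.e (nat_lit 216093) (nat_lit 0) .nil) .nil))) 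
(.lf (nat_lit 517718) (.g (nat_lit 2464) (.e (nat_lit 196666) (nat_lit 13) (.e (nat_lit 65617) (nat_lit 10) (.e (nat_lit 344117) (nat_lit 21) (.e (nat_lit 516097) (nat_lit 0) (.e (nat_lit 6949) (nat_lit 377) .nil))))) (.g (nat_lit 0) (.e (nat_lit 216794) (nat_lit 0) .nil) .nil)))) (.nd (nat_lit 9) 
(.lf (nat_lit 517462) (.g (nat_lit 2500) (.e (nat_lit 196666) (nat_lit 13) (.e (nat_lit 65610) (nat_lit 10) (.e (nat_lit 344117) (nat_lit 21) (.e (nat_lit 516160) (nat_lit 10) (.e (nat_lit 434273) (nat_lit 39) (.e (nat_lit 663552) (nat_lit 0) (.e (nat_lit 163) (nat_lit 11) .nil))))))) (.g (nat_lit 1) (.e (nat_lit 216415) (nat_lit 0) .nil) .nil))) 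
(.lf (nat_lit 517974) (.g (nat_lit 3877) (.e (nat_lit 196666) (nat_lit 13) (.e (nat_lit 65617) (nat_lit 10) (.e (nat_lit 344133) (nat_lit 26) (.e (nat_lit 557091) (nat_lit 12) (.e (nat_lit 163843) (nat_lit 0) (.e (nat_lit 6255) (nat_lit 337) (.e (nat_lit 2630) (nat_lit 164) (.e (nat_lit 172063) (nat_lit 2) .nil)))))))) (.g (nat_lit 1) (.e (nat_lit 217088) (nat_lit 0) .nil) .nil))))) 
(.nd (nat_lit 8) (.nd (nat_lit 9) 
(.lf (nat_lit 517334) (.g (nat_lit 3311) (.e (nat_lit 196666) (nat_lit 13) (.e (nat_lit 65610) (nat_lit 10) (.e (nat_lit 344117) (nat_lit 21) (.e (nat_lit 516151) (nat_lit 9) (.e (nat_lit 426049) (nat_lit 0) (.e (nat_lit 3366) (nat_lit 208) (.e (nat_lit 622620) (nat_lit 13) (.e (nat_lit 2666) (nat_lit 167) .nil)))))))) (.g (nat_lit 1) (.e (nat_lit 216221) (nat_lit 0) .nil) .nil))) 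
(.lf (nat_lit 517846) (.g (nat_lit 3231) (.e (nat_lit 196666) (nat_lit 13) (.e (nat_lit 65617) (nat_lit 10) (.e (nat_lit 344130) (nat_lit 26) (.e (nat_lit 557087) (nat_lit 11) (.e (nat_lit 24587) (nat_lit 0) (.e (nat_lit 7936) (nat_lit 357) (.e (nat_lit 2668) (nat_lit 167) .nil))))))) (.g (nat_lit 1) (.e (nat_lit 216949) (nat_lit 0) .nil) .nil)))) (.nd (nat_lit 9) 
(.lf (nat_lit 517590) (.g (nat_lit 2499) (.e (nat_lit 196666) (nat_lit 13) (.e (nat_lit 65610) (nat_lit 10) (.e (nat_lit 344129) (nat_lit 26) (.e (nat_lit 557087) (nat_lit 11) (.e (nat_lit 24593) (nat_lit 0) (.e (nat_lit 7936) (nat_lit 357) (.e (nat_lit 2666) (nat_lit 167) .nil))))))) (.g (nat_lit 1) (.e (nat_lit 216633) (nat_lit 0) .nil) .nil))) 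
(.lf (nat_lit 518102) (.g (nat_lit 3308) (.e (nat_lit 196667) (nat_lit 14) (.e (nat_lit 73753) (nat_lit 8) (.e (nat_lit 557105) (nat_lit 14) (.e (nat_lit 180252) (nat_lit 10) (.e (nat_lit 573474) (nat_lit 12) .nil))))) (.g (nat_lit 0) (.e (nat_lit 217280) (nat_lit 0) .nil) .nil))))))) (.nd (nat_lit 6) (.nd (nat_lit 7) (.nd (nat_lit 8) (.nd (nat_lit 9) 
(.lf (nat_lit 517174) (.g (nat_lit 3947) (.e (nat_lit 196666) (nat_lit 13) (.e (nat_lit 65610) (nat_lit 10) (.e (nat_lit 344117) (nat_lit 21) (.e (nat_lit 516151) (nat_lit 9) (.e (nat_lit 426038) (nat_lit 0) (.e (nat_lit 2458) (nat_lit 157) (.e (nat_lit 7936) (nat_lit 285) (.e (nat_lit 163870) (nat_lit 2) .nil)))))))) (.g (nat_lit 1) (.e (nat_lit 216061) (nat_lit 0) .nil) .nil))) 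
(.lf (nat_lit 517686) (.g (nat_lit 2252) (.e (nat_lit 196666) (nat_lit 13) (.e (nat_lit 65610) (nat_lit 10) (.e (nat_lit 344129) (nat_lit 26) (.e (nat_lit 557090) (nat_lit 12) (.e (nat_lit 164019) (nat_lit 45) (.e (nat_lit 696348) (nat_lit 12) (.e (nat_lit 237589) (nat_lit 2) .nil))))))) (.g (nat_lit 1) (.e (nat_lit 216755) (nat_lit 0) .nil) .nil)))) (.nd (nat_lit 9) 
(.lf (nat_lit 517430) (.g (nat_lit 4015) (.e (nat_lit 196666) (nat_lit 13) (.e (nat_lit 65610) (nat_lit 10) (.e (nat_lit 344117) (nat_lit 21) (.e (nat_lit 516151) (nat_lit 9) (.e (nat_lit 426414) (nat_lit 15) (.e (nat_lit 2015) (nat_lit 139) (.e (nat_lit 679968) (nat_lit 13) (.e (nat_lit 2663) (nat_lit 167) .nil)))))))) (.g (nat_lit 1) (.e (nat_lit 216327) (nat_lit 0) .nil) .nil))) 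
(.lf (nat_lit 517942) (.g (nat_lit 875) (.e (nat_lit 196666) (nat_lit 13) (.e (nat_lit 65617) (nat_lit 10) (.e (nat_lit 344133) (nat_lit 26) (.e (nat_lit 557071) (nat_lit 9) .nil)))) (.g (nat_lit 0) (.e (nat_lit 217054) (nat_lit 0) .nil) .nil))))) (.nd (nat_lit 8) (.nd (nat_lit 9) 
(.lf (nat_lit 517302) (.g (nat_lit 3705) (.e (nat_lit 196666) (nat_lit 13) (.e (nat_lit 65610) (nat_lit 10) (.e (nat_lit 344117) (nat_lit 21) (.e (nat_lit 516151) (nat_lit 9) (.e (nat_lit 426045) (nat_lit 0) (.e (nat_lit 3366) (nat_lit 208) (.e (nat_lit 622623) (nat_lit 13) (.e (nat_lit 2668) (nat_lit 167) .nil)))))))) (.g (nat_lit 1) (.e (nat_lit 216189) (nat_lit 0) .nil) .nil))) 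
(.lf (nat_lit 517814) (.g (nat_lit 953) (.e (nat_lit 196666) (nat_lit 13) (.e (nat_lit 65617) (nat_lit 10) (.e (nat_lit 344130) (nat_lit 26) (.e (nat_lit 557065) (nat_lit 9) .nil)))) (.g (nat_lit 0) (.e (nat_lit 216905) (nat_lit 0) .nil) .nil)))) (.nd (nat_lit 9) 
(.lf (nat_lit 517558) (.g (nat_lit 1956) (.e (nat_lit 196666) (nat_lit 13) (.e (nat_lit 65610) (nat_lit 10) (.e (nat_lit 344129) (nat_lit 26) (.e (nat_lit 557067) (nat_lit 9) (.e (nat_lit 2743) (nat_lit 174) .nil))))) (.g (nat_lit 0) (.e (nat_lit 216567) (nat_lit 0) .nil) .nil))) 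
(.lf (nat_lit 518070) (.g (nat_lit 322) (.e (nat_lit 196666) (nat_lit 13) (.e (nat_lit 65628) (nat_lit 14) (.e (nat_lit 401428) (nat_lit 3) .nil))) (.g (nat_lit 0) (.e (nat_lit 217228) (nat_lit 0) .nil) .nil)))))) (.nd (nat_lit 7) (.nd (nat_lit 8) (.nd (nat_lit 9) 
(.lf (nat_lit 517238) (.g (nat_lit 4631) (.e (nat_lit 196666) (nat_lit 13) (.e (nat_lit 65610) (nat_lit 10) (.e (nat_lit 344117) (nat_lit 21) (.e (nat_lit 516151) (nat_lit 9) (.e (nat_lit 426040) (nat_lit 0) (.e (nat_lit 3369) (nat_lit 208) (.e (nat_lit 622626) (nat_lit 13) (.e (nat_lit 2663) (nat_lit 167) .nil)))))))) (.g (nat_lit 1) (.e (nat_lit 216125) (nat_lit 0) .nil) .nil))) 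
(.lf (nat_lit 517750) (.g (nat_lit 1948) (.e (nat_lit 196666) (nat_lit 13) (.e (nat_lit 65617) (nat_lit 10) (.e (nat_lit 344126) (nat_lit 25) (.e (nat_lit 548874) (nat_lit 5) (.e (nat_lit 1455) (nat_lit 108) .nil))))) (.g (nat_lit 0) (.e (nat_lit 216827) (nat_lit 0) .nil) .nil)))) (.nd (nat_lit 9) 
(.lf (nat_lit 517494) (.g (nat_lit 4219) (.e (nat_lit 196666) (nat_lit 13) (.e (nat_lit 65610) (nat_lit 10) (.e (nat_lit 344117) (nat_lit 21) (.e (nat_lit 516185) (nat_lit 16) (.e (nat_lit 491520) (nat_lit 0) (.e (nat_lit 6654) (nat_lit 357) (.e (nat_lit 2664) (nat_lit 167) .nil))))))) (.g (nat_lit 1) (.e (nat_lit 216455) (nat_lit 0) .nil) .nil))) 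
(.lf (nat_lit 518006) (.g (nat_lit 1184) (.e (nat_lit 196666) (nat_lit 13) (.e (nat_lit 65619) (nat_lit 10) (.e (nat_lit 344117) (nat_lit 21) (.e (nat_lit 516106) (nat_lit 0) .nil)))) (.g (nat_lit 0) (.e (nat_lit 217126) (nat_lit 0) .nil) .nil))))) (.nd (nat_lit 8) (.nd (nat_lit 9) 
(.lf (nat_lit 517366) (.g (nat_lit 3168) (.e (nat_lit 196666) (nat_lit 13) (.e (nat_lit 65610) (nat_lit 10) (.e (nat_lit 344117) (nat_lit 21) (.e (nat_lit 516151) (nat_lit 9) (.e (nat_lit 426047) (nat_lit 0) (.e (nat_lit 2422) (nat_lit 157) (.e (nat_lit 4850) (nat_lit 286) (.e (nat_lit 229387) (nat_lit 2) .nil)))))))) (.g (nat_lit 1) (.e (nat_lit 216253) (nat_lit 0) .nil) .nil))) 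
(.lf (nat_lit 517878) (.g (nat_lit 2949) (.e (nat_lit 196666) (nat_lit 13) (.e (nat_lit 65617) (nat_lit 10) (.e (nat_lit 344130) (nat_lit 26) (.e (nat_lit 557090) (nat_lit 12) (.e (nat_lit 163848) (nat_lit 0) (.e (nat_lit 6252) (nat_lit 337) (.e (nat_lit 2725) (nat_lit 172) (.e (nat_lit 237589) (nat_lit 2) .nil)))))))) (.g (nat_lit 1) (.e (nat_lit 216983) (nat_lit 0) .nil) .nil)))) 
(.nd (nat_lit 9) 
(.lf (nat_lit 517622) (.g (nat_lit 2583) (.e (nat_lit 196666) (nat_lit 13) (.e (nat_lit 65610) (nat_lit 10) (.e (nat_lit 344129) (nat_lit 26) (.e (nat_lit 557090) (nat_lit 12) (.e (nat_lit 163840) (nat_lit 0) (.e (nat_lit 6255) (nat_lit 337) (.e (nat_lit 2725) (nat_lit 172) (.e (nat_lit 237589) (nat_lit 2) .nil)))))))) (.g (nat_lit 1) (.e (nat_lit 216670) (nat_lit 0) .nil) .nil))) 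
(.lf (nat_lit 518134) (.g (nat_lit 3453) (.e (nat_lit 196668) (nat_lit 14) (.e (nat_lit 73746) (nat_lit 3) (.e (nat_lit 516117) (nat_lit 1) (.e (nat_lit 164182) (nat_lit 154) (.e (nat_lit 57379) (nat_lit 3) (.e (nat_lit 98342) (nat_lit 20) (.e (nat_lit 221212) (nat_lit 22) .nil))))))) (.g (nat_lit 1) (.e (nat_lit 217392) (nat_lit 0) .nil) .nil))))))))) 
(.nd (nat_lit 4) (.nd (nat_lit 5) (.nd (nat_lit 6) (.nd (nat_lit 7) (.nd (nat_lit 8) 
(.nd (nat_lit 9) 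
(.lf (nat_lit 517134) (.g (nat_lit 3177) (.e (nat_lit 196666) (nat_lit 13) (.e (nat_lit 65610) (nat_lit 10) (.e (nat_lit 344117) (nat_lit 21) (.e (nat_lit 516151) (nat_lit 9) (.e (nat_lit 426037) (nat_lit 0) (.e (nat_lit 3370) (nat_lit 208) (.e (nat_lit 630528) (nat_lit 13) (.e (nat_lit 2666) (nat_lit 167) .nil)))))))) (.g (nat_lit 1) (.e (nat_lit 216021) (nat_lit 0) .nil) .nil))) 
(.lf (nat_lit 517646) (.g (nat_lit 2965) (.e (nat_lit 196666) (nat_lit 13) (.e (nat_lit 65610) (nat_lit 10) (.e (nat_lit 344129) (nat_lit 26) (.e (nat_lit 557090) (nat_lit 12) (.e (nat_lit 163843) (nat_lit 0) (.e (nat_lit 6416) (nat_lit 341) (.e (nat_lit 171776) (nat_lit 12) (.e (nat_lit 426123) (nat_lit 2) .nil)))))))) (.g (nat_lit 1) (.e (nat_lit 216707) (nat_lit 0) .nil) .nil)))) 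
(.nd (nat_lit 9) 
(.lf (nat_lit 517390) (.g (nat_lit 3750) (.e (nat_lit 196666) (nat_lit 13) (.e (nat_lit 65610) (nat_lit 10) (.e (nat_lit 344117) (nat_lit 21) (.e (nat_lit 516151) (nat_lit 9) (.e (nat_lit 426047) (nat_lit 0) (.e (nat_lit 3366) (nat_lit 208) (.e (nat_lit 622620) (nat_lit 13) (.e (nat_lit 2666) (nat_lit 167) .nil)))))))) (.g (nat_lit 1) (.e (nat_lit 216277) (nat_lit 0) .nil) .nil))) 
(.lf (nat_lit 517902) (.g (nat_lit 2670) (.e (nat_lit 196666) (nat_lit 13) (.e (nat_lit 65617) (nat_lit 10) (.e (nat_lit 344130) (nat_lit 26) (.e (nat_lit 557090) (nat_lit 12) (.e (nat_lit 164022) (nat_lit 46) (.e (nat_lit 704629) (nat_lit 9) (.e (nat_lit 398) (nat_lit 32) (.e (nat_lit 426122) (nat_lit 2) .nil)))))))) (.g (nat_lit 1) (.e (nat_lit 217007) (nat_lit 0) .nil) .nil))))) 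
(.nd (nat_lit 8) (.nd (nat_lit 9) 
(.lf (nat_lit 517262) (.g (nat_lit 2792) (.e (nat_lit 196666) (nat_lit 13) (.e (nat_lit 65610) (nat_lit 10) (.e (nat_lit 344117) (nat_lit 21) (.e (nat_lit 516151) (nat_lit 9) (.e (nat_lit 426042) (nat_lit 0) (.e (nat_lit 2423) (nat_lit 157) (.e (nat_lit 4821) (nat_lit 281) (.e (nat_lit 2478) (nat_lit 157) (.e (nat_lit 2666) (nat_lit 167) .nil))))))))) (.g (nat_lit 1) (.e (nat_lit 216149) (nat_lit 0) .nil) .nil))) 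
(.lf (nat_lit 517774) (.g (nat_lit 3000) (.e (nat_lit 196666) (nat_lit 13) (.e (nat_lit 65617) (nat_lit 10) (.e (nat_lit 344127) (nat_lit 26) (.e (nat_lit 557090) (nat_lit 12) (.e (nat_lit 163847) (nat_lit 0) (.e (nat_lit 6255) (nat_lit 337) (.e (nat_lit 2630) (nat_lit 164) (.e (nat_lit 172062) (nat_lit 2) .nil)))))))) (.g (nat_lit 1) (.e (nat_lit 216862) (nat_lit 0) .nil) .nil)))) 
(.nd (nat_lit 9) 
(.lf (nat_lit 517518) (.g (nat_lit 3779) (.e (nat_lit 196666) (nat_lit 13) (.e (nat_lit 65610) (nat_lit 10) (.e (nat_lit 344128) (nat_lit 26) (.e (nat_lit 557090) (nat_lit 12) (.e (nat_lit 164020) (nat_lit 45) (.e (nat_lit 696328) (nat_lit 5) (.e (nat_lit 2884) (nat_lit 184) (.e (nat_lit 426125) (nat_lit 2) .nil)))))))) (.g (nat_lit 1) (.e (nat_lit 216506) (nat_lit 0) .nil) .nil))) 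
(.lf (nat_lit 518030) (.g (nat_lit 1790) (.e (nat_lit 196666) (nat_lit 13) (.e (nat_lit 65622) (nat_lit 12) (.e (nat_lit 385067) (nat_lit 26) (.e (nat_lit 532511) (nat_lit 2) (.e (nat_lit 106534) (nat_lit 11) (.e (nat_lit 16413) (nat_lit 2) .nil)))))) (.g (nat_lit 1) (.e (nat_lit 217151) (nat_lit 0) .nil) .nil)))))) (.nd (nat_lit 7) (.nd (nat_lit 8) (.nd (nat_lit 9) 
(.lf (nat_lit 517198) (.g (nat_lit 3372) (.e (nat_lit 196666) (nat_lit 13) (.e (nat_lit 65610) (nat_lit 10) (.e (nat_lit 344117) (nat_lit 21) (.e (nat_lit 516151) (nat_lit 9) (.e (nat_lit 426038) (nat_lit 0) (.e (nat_lit 3370) (nat_lit 208) (.e (nat_lit 622623) (nat_lit 13) (.e (nat_lit 2662) (nat_lit 167) .nil)))))))) (.g (nat_lit 1) (.e (nat_lit 216085) (nat_lit 0) .nil) .nil))) 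
(.lf (nat_lit 517710) (.g (nat_lit 679) (.e (nat_lit 196666) (nat_lit 13) (.e (nat_lit 65617) (nat_lit 10) (.e (nat_lit 344088) (nat_lit 18) .nil))) (.g (nat_lit 0) (.e (nat_lit 216780) (nat_lit 0) .nil) .nil)))) (.nd (nat_lit 9) 
(.lf (nat_lit 517454) (.g (nat_lit 2448) (.e (nat_lit 196666) (nat_lit 13) (.e (nat_lit 65610) (nat_lit 10) (.e (nat_lit 344117) (nat_lit 21) (.e (nat_lit 516160) (nat_lit 10) (.e (nat_lit 434203) (nat_lit 18) (.e (nat_lit 4751) (nat_lit 281) (.e (nat_lit 2518) (nat_lit 157) (.e (nat_lit 2664) (nat_lit 167) .nil)))))))) (.g (nat_lit 1) (.e (nat_lit 216385) (nat_lit 0) .nil) .nil))) 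
(.lf (nat_lit 517966) (.g (nat_lit 1217) (.e (nat_lit 196666) (nat_lit 13) (.e (nat_lit 65617) (nat_lit 10) (.e (nat_lit 344133) (nat_lit 26) (.e (nat_lit 557091) (nat_lit 12) .nil)))) (.g (nat_lit 0) (.e (nat_lit 217080) (nat_lit 0) .nil) .nil))))) (.nd (nat_lit 8) (.nd (nat_lit 9) 
(.lf (nat_lit 517326) (.g (nat_lit 3088) (.e (nat_lit 196666) (nat_lit 13) (.e (nat_lit 65610) (nat_lit 10) (.e (nat_lit 344117) (nat_lit 21) (.e (nat_lit 516151) (nat_lit 9) (.e (nat_lit 426043) (nat_lit 0) (.e (nat_lit 2422) (nat_lit 157) (.e (nat_lit 4850) (nat_lit 286) (.e (nat_lit 229386) (nat_lit 2) .nil)))))))) (.g (nat_lit 1) (.e (nat_lit 216213) (nat_lit 0) .nil) .nil))) 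
(.lf (nat_lit 517838) (.g (nat_lit 2429) (.e (nat_lit 196666) (nat_lit 13) (.e (nat_lit 65617) (nat_lit 10) (.e (nat_lit 344130) (nat_lit 26) (.e (nat_lit 557087) (nat_lit 11) (.e (nat_lit 24577) (nat_lit 0) (.e (nat_lit 7936) (nat_lit 357) (.e (nat_lit 2668) (nat_lit 167) .nil))))))) (.g (nat_lit 1) (.e (nat_lit 216941) (nat_lit 0) .nil) .nil)))) (.nd (nat_lit 9) 
(.lf (nat_lit 517582) (.g (nat_lit 2715) (.e (nat_lit 196666) (nat_lit 13) (.e (nat_lit 65610) (nat_lit 10) (.e (nat_lit 344129) (nat_lit 26) (.e (nat_lit 557087) (nat_lit 11) (.e (nat_lit 24577) (nat_lit 0) (.e (nat_lit 6696) (nat_lit 357) (.e (nat_lit 2666) (nat_lit 167) .nil))))))) (.g (nat_lit 1) (.e (nat_lit 216625) (nat_lit 0) .nil) .nil))) 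
(.lf (nat_lit 518094) (.g (nat_lit 3724) (.e (nat_lit 196666) (nat_lit 13) (.e (nat_lit 65642) (nat_lit 15) (.e (nat_lit 3253) (nat_lit 197) (.e (nat_lit 532504) (nat_lit 1) (.e (nat_lit 57852) (nat_lit 252) (.e (nat_lit 57378) (nat_lit 3) (.e (nat_lit 98342) (nat_lit 20) (.e (nat_lit 221211) (nat_lit 22) .nil)))))))) (.g (nat_lit 1) (.e (nat_lit 217266) (nat_lit 0) .nil) .nil))))))) 
(.nd (nat_lit 6) (.nd (nat_lit 7) (.nd (nat_lit 8) (.nd (nat_lit 9) 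
(.lf (nat_lit 517166) (.g (nat_lit 4203) (.e (nat_lit 196666) (nat_lit 13) (.e (nat_lit 65610) (nat_lit 10) (.e (nat_lit 344117) (nat_lit 21) (.e (nat_lit 516151) (nat_lit 9) (.e (nat_lit 426038) (nat_lit 0) (.e (nat_lit 2426) (nat_lit 157) (.e (nat_lit 4850) (nat_lit 286) (.e (nat_lit 229387) (nat_lit 2) .nil)))))))) (.g (nat_lit 1) (.e (nat_lit 216053) (nat_lit 0) .nil) .nil))) 
(.lf (nat_lit 517678) (.g (nat_lit 2702) (.e (nat_lit 196666) (nat_lit 13) (.e (nat_lit 65610) (nat_lit 10) (.e (nat_lit 344129) (nat_lit 26) (.e (nat_lit 557090) (nat_lit 12) (.e (nat_lit 164018) (nat_lit 45) (.e (nat_lit 696348) (nat_lit 12) (.e (nat_lit 237589) (nat_lit 2) .nil))))))) (.g (nat_lit 1) (.e (nat_lit 216747) (nat_lit 0) .nil) .nil)))) (.nd (nat_lit 9) 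
(.lf (nat_lit 517422) (.g (nat_lit 3189) (.e (nat_lit 196666) (nat_lit 13) (.e (nat_lit 65610) (nat_lit 10) (.e (nat_lit 344117) (nat_lit 21) (.e (nat_lit 516151) (nat_lit 9) (.e (nat_lit 426102) (nat_lit 1) .nil))))) (.g (nat_lit 0) (.e (nat_lit 216309) (nat_lit 0) .nil) .nil))) 
(.lf (nat_lit 517934) (.g (nat_lit 359) (.e (nat_lit 196666) (nat_lit 13) (.e (nat_lit 65617) (nat_lit 10) (.e (nat_lit 344133) (nat_lit 26) .nil))) (.g (nat_lit 0) (.e (nat_lit 217043) (nat_lit 0) .nil) .nil))))) (.nd (nat_lit 8) (.nd (nat_lit 9) 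
(.lf (nat_lit 517294) (.g (nat_lit 4126) (.e (nat_lit 196666) (nat_lit 13) (.e (nat_lit 65610) (nat_lit 10) (.e (nat_lit 344117) (nat_lit 21) (.e (nat_lit 516151) (nat_lit 9) (.e (nat_lit 426045) (nat_lit 0) (.e (nat_lit 2423) (nat_lit 157) (.e (nat_lit 4848) (nat_lit 285) (.e (nat_lit 163870) (nat_lit 2) .nil)))))))) (.g (nat_lit 1) (.e (nat_lit 216181) (nat_lit 0) .nil) .nil))) 
(.lf (nat_lit 517806) (.g (nat_lit 3010) (.e (nat_lit 196666) (nat_lit 13) (.e (nat_lit 65617) (nat_lit 10) (.e (nat_lit 344127) (nat_lit 26) (.e (nat_lit 557090) (nat_lit 12) (.e (nat_lit 164022) (nat_lit 46) (.e (nat_lit 704628) (nat_lit 9) (.e (nat_lit 370) (nat_lit 32) (.e (nat_lit 426125) (nat_lit 2) .nil)))))))) (.g (nat_lit 1) (.e (nat_lit 216897) (nat_lit 0) .nil) .nil)))) 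
(.nd (nat_lit 9) 
(.lf (nat_lit 517550) (.g (nat_lit 1996) (.e (nat_lit 196666) (nat_lit 13) (.e (nat_lit 65610) (nat_lit 10) (.e (nat_lit 344129) (nat_lit 26) (.e (nat_lit 557067) (nat_lit 9) (.e (nat_lit 2470) (nat_lit 157) .nil))))) (.g (nat_lit 0) (.e (nat_lit 216554) (nat_lit 0) .nil) .nil))) 
(.lf (nat_lit 518062) (.g (nat_lit 2012) (.e (nat_lit 196666) (nat_lit 13) (.e (nat_lit 65628) (nat_lit 14) (.e (nat_lit 401424) (nat_lit 2) (.e (nat_lit 196668) (nat_lit 14) (.e (nat_lit 73782) (nat_lit 32) .nil))))) (.g (nat_lit 0) (.e (nat_lit 217217) (nat_lit 0) .nil) .nil)))))) (.nd (nat_lit 7) (.nd (nat_lit 8) (.nd (nat_lit 9) 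
(.lf (nat_lit 517230) (.g (nat_lit 5047) (.e (nat_lit 196666) (nat_lit 13) (.e (nat_lit 65610) (nat_lit 10) (.e (nat_lit 344117) (nat_lit 21) (.e (nat_lit 516151) (nat_lit 9) (.e (nat_lit 426040) (nat_lit 0) (.e (nat_lit 3366) (nat_lit 208) (.e (nat_lit 622626) (nat_lit 13) (.e (nat_lit 2663) (nat_lit 167) .nil)))))))) (.g (nat_lit 1) (.e (nat_lit 216117) (nat_lit 0) .nil) .nil))) 
(.lf (nat_lit 517742) (.g (nat_lit 1184) (.e (nat_lit 196666) (nat_lit 13) (.e (nat_lit 65617) (nat_lit 10) (.e (nat_lit 344117) (nat_lit 21) (.e (nat_lit 516185) (nat_lit 16) .nil)))) (.g (nat_lit 0) (.e (nat_lit 216818) (nat_lit 0) .nil) .nil)))) (.nd (nat_lit 9) 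
(.lf (nat_lit 517486) (.g (nat_lit 3071) (.e (nat_lit 196666) (nat_lit 13) (.e (nat_lit 65610) (nat_lit 10) (.e (nat_lit 344117) (nat_lit 21) (.e (nat_lit 516160) (nat_lit 10) (.e (nat_lit 434278) (nat_lit 39) (.e (nat_lit 663557) (nat_lit 0) (.e (nat_lit 7936) (nat_lit 11) .nil))))))) (.g (nat_lit 1) (.e (nat_lit 216440) (nat_lit 0) .nil) .nil))) 
(.lf (nat_lit 517998) (.g (nat_lit 2619) (.e (nat_lit 196666) (nat_lit 13) (.e (nat_lit 65617) (nat_lit 10) (.e (nat_lit 344133) (nat_lit 26) (.e (nat_lit 557093) (nat_lit 12) (.e (nat_lit 163849) (nat_lit 0) .nil))))) (.g (nat_lit 0) (.e (nat_lit 217112) (nat_lit 0) .nil) .nil))))) (.nd (nat_lit 8) (.nd (nat_lit 9) 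
(.lf (nat_lit 517358) (.g (nat_lit 4488) (.e (nat_lit 196666) (nat_lit 13) (.e (nat_lit 65610) (nat_lit 10) (.e (nat_lit 344117) (nat_lit 21) (.e (nat_lit 516151) (nat_lit 9) (.e (nat_lit 426047) (nat_lit 0) (.e (nat_lit 2416) (nat_lit 157) (.e (nat_lit 4849) (nat_lit 285) (.e (nat_lit 163869) (nat_lit 2) .nil)))))))) (.g (nat_lit 1) (.e (nat_lit 216245) (nat_lit 0) .nil) .nil))) 
(.lf (nat_lit 517870) (.g (nat_lit 2147) (.e (nat_lit 196666) (nat_lit 13) (.e (nat_lit 65617) (nat_lit 10) (.e (nat_lit 344130) (nat_lit 26) (.e (nat_lit 557090) (nat_lit 12) (.e (nat_lit 163844) (nat_lit 0) .nil))))) (.g (nat_lit 0) (.e (nat_lit 216974) (nat_lit 0) .nil) .nil)))) (.nd (nat_lit 9) 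
(.lf (nat_lit 517614) (.g (nat_lit 3193) (.e (nat_lit 196666) (nat_lit 13) (.e (nat_lit 65610) (nat_lit 10) (.e (nat_lit 344129) (nat_lit 26) (.e (nat_lit 557089) (nat_lit 12) (.e (nat_lit 163849) (nat_lit 0) (.e (nat_lit 6418) (nat_lit 341) (.e (nat_lit 163900) (nat_lit 12) (.e (nat_lit 426125) (nat_lit 2) .nil)))))))) (.g (nat_lit 1) (.e (nat_lit 216662) (nat_lit 0) .nil) .nil))) 
(.lf (nat_lit 518126) (.g (nat_lit 773) (.e (nat_lit 196668) (nat_lit 14) (.e (nat_lit 73746) (nat_lit 3) (.e (nat_lit 516116) (nat_lit 1) .nil))) (.g (nat_lit 0) (.e (nat_lit 217372) (nat_lit 0) .nil) .nil)))))))) (.nd (nat_lit 5) (.nd (nat_lit 6) (.nd (nat_lit 7) (.nd (nat_lit 8) (.nd (nat_lit 9) 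
(.lf (nat_lit 517150) (.g (nat_lit 3849) (.e (nat_lit 196666) (nat_lit 13) (.e (nat_lit 65610) (nat_lit 10) (.e (nat_lit 344117) (nat_lit 21) (.e (nat_lit 516151) (nat_lit 9) (.e (nat_lit 426038) (nat_lit 0) (.e (nat_lit 2422) (nat_lit 157) (.e (nat_lit 4850) (nat_lit 286) (.e (nat_lit 229387) (nat_lit 2) .nil)))))))) (.g (nat_lit 1) (.e (nat_lit 216037) (nat_lit 0) .nil) .nil))) 
(.lf (nat_lit 517662) (.g (nat_lit 3545) (.e (nat_lit 196666) (nat_lit 13) (.e (nat_lit 65610) (nat_lit 10) (.e (nat_lit 344129) (nat_lit 26) (.e (nat_lit 557090) (nat_lit 12) (.e (nat_lit 163848) (nat_lit 0) (.e (nat_lit 6416) (nat_lit 341) (.e (nat_lit 163900) (nat_lit 12) (.e (nat_lit 426125) (nat_lit 2) .nil)))))))) (.g (nat_lit 1) (.e (nat_lit 216728) (nat_lit 0) .nil) .nil)))) 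
(.nd (nat_lit 9) 
(.lf (nat_lit 517406) (.g (nat_lit 3304) (.e (nat_lit 196666) (nat_lit 13) (.e (nat_lit 65610) (nat_lit 10) (.e (nat_lit 344117) (nat_lit 21) (.e (nat_lit 516151) (nat_lit 9) (.e (nat_lit 426047) (nat_lit 0) (.e (nat_lit 3370) (nat_lit 208) (.e (nat_lit 622620) (nat_lit 13) (.e (nat_lit 2666) (nat_lit 167) .nil)))))))) (.g (nat_lit 1) (.e (nat_lit 216293) (nat_lit 0) .nil) .nil))) 
(.lf (nat_lit 517918) (.g (nat_lit 1628) (.e (nat_lit 196666) (nat_lit 13) (.e (nat_lit 65617) (nat_lit 10) (.e (nat_lit 344132) (nat_lit 26) (.e (nat_lit 557089) (nat_lit 12) .nil)))) (.g (nat_lit 0) (.e (nat_lit 217027) (nat_lit 0) .nil) .nil))))) (.nd (nat_lit 8) (.nd (nat_lit 9) 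
(.lf (nat_lit 517278) (.g (nat_lit 3164) (.e (nat_lit 196666) (nat_lit 13) (.e (nat_lit 65610) (nat_lit 10) (.e (nat_lit 344117) (nat_lit 21) (.e (nat_lit 516151) (nat_lit 9) (.e (nat_lit 426042) (nat_lit 0) (.e (nat_lit 3370) (nat_lit 208) (.e (nat_lit 622626) (nat_lit 13) (.e (nat_lit 2666) (nat_lit 167) .nil)))))))) (.g (nat_lit 1) (.e (nat_lit 216165) (nat_lit 0) .nil) .nil))) 
(.lf (nat_lit 517790) (.g (nat_lit 2663) (.e (nat_lit 196666) (nat_lit 13) (.e (nat_lit 65617) (nat_lit 10) (.e (nat_lit 344127) (nat_lit 26) (.e (nat_lit 557090) (nat_lit 12) (.e (nat_lit 163852) (nat_lit 0) (.e (nat_lit 6427) (nat_lit 342) (.e (nat_lit 229399) (nat_lit 12) (.e (nat_lit 426125) (nat_lit 2) .nil)))))))) (.g (nat_lit 1) (.e (nat_lit 216878) (nat_lit 0) .nil) .nil)))) 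
(.nd (nat_lit 9) 
(.lf (nat_lit 517534) (.g (nat_lit 1854) (.e (nat_lit 196666) (nat_lit 13) (.e (nat_lit 65610) (nat_lit 10) (.e (nat_lit 344129) (nat_lit 26) (.e (nat_lit 557065) (nat_lit 9) (.e (nat_lit 2743) (nat_lit 174) .nil))))) (.g (nat_lit 0) (.e (nat_lit 216524) (nat_lit 0) .nil) .nil))) 
(.lf (nat_lit 518046) (.g (nat_lit 2175) (.e (nat_lit 196666) (nat_lit 13) (.e (nat_lit 65624) (nat_lit 12) (.e (nat_lit 385068) (nat_lit 26) (.e (nat_lit 532484) (nat_lit 0) .nil)))) (.g (nat_lit 0) (.e (nat_lit 217181) (nat_lit 0) .nil) .nil)))))) (.nd (nat_lit 7) (.nd (nat_lit 8) (.nd (nat_lit 9) 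
(.lf (nat_lit 517214) (.g (nat_lit 4852) (.e (nat_lit 196666) (nat_lit 13) (.e (nat_lit 65610) (nat_lit 10) (.e (nat_lit 344117) (nat_lit 21) (.e (nat_lit 516151) (nat_lit 9) (.e (nat_lit 426040) (nat_lit 0) (.e (nat_lit 2423) (nat_lit 157) (.e (nat_lit 4848) (nat_lit 285) (.e (nat_lit 163870) (nat_lit 2) .nil)))))))) (.g (nat_lit 1) (.e (nat_lit 216101) (nat_lit 0) .nil) .nil))) 
(.lf (nat_lit 517726) (.g (nat_lit 3294) (.e (nat_lit 196666) (nat_lit 13) (.e (nat_lit 65617) (nat_lit 10) (.e (nat_lit 344117) (nat_lit 21) (.e (nat_lit 516106) (nat_lit 0) (.e (nat_lit 6986) (nat_lit 377) (.e (nat_lit 2410) (nat_lit 157) (.e (nat_lit 5626) (nat_lit 312) (.e (nat_lit 2668) (nat_lit 167) .nil)))))))) (.g (nat_lit 1) (.e (nat_lit 216802) (nat_lit 0) .nil) .nil)))) 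
(.nd (nat_lit 9) 
(.lf (nat_lit 517470) (.g (nat_lit 2586) (.e (nat_lit 196666) (nat_lit 13) (.e (nat_lit 65610) (nat_lit 10) (.e (nat_lit 344117) (nat_lit 21) (.e (nat_lit 516160) (nat_lit 10) (.e (nat_lit 434275) (nat_lit 39) (.e (nat_lit 663555) (nat_lit 0) (.e (nat_lit 7936) (nat_lit 11) .nil))))))) (.g (nat_lit 1) (.e (nat_lit 216423) (nat_lit 0) .nil) .nil))) 
(.lf (nat_lit 517982) (.g (nat_lit 3244) (.e (nat_lit 196666) (nat_lit 13) (.e (nat_lit 65617) (nat_lit 10) (.e (nat_lit 344133) (nat_lit 26) (.e (nat_lit 557091) (nat_lit 12) (.e (nat_lit 164017) (nat_lit 44) (.e (nat_lit 688139) (nat_lit 5) (.e (nat_lit 2887) (nat_lit 184) (.e (nat_lit 426120) (nat_lit 2) .nil)))))))) (.g (nat_lit 1) (.e (nat_lit 217096) (nat_lit 0) .nil) .nil))))) 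
(.nd (nat_lit 8) (.nd (nat_lit 9) 
(.lf (nat_lit 517342) (.g (nat_lit 4589) (.e (nat_lit 196666) (nat_lit 13) (.e (nat_lit 65610) (nat_lit 10) (.e (nat_lit 344117) (nat_lit 21) (.e (nat_lit 516151) (nat_lit 9) (.e (nat_lit 426050) (nat_lit 0) (.e (nat_lit 2416) (nat_lit 157) (.e (nat_lit 4849) (nat_lit 285) (.e (nat_lit 163870) (nat_lit 2) .nil)))))))) (.g (nat_lit 1) (.e (nat_lit 216229) (nat_lit 0) .nil) .nil))) 
(.lf (nat_lit 517854) (.g (nat_lit 3669) (.e (nat_lit 196666) (nat_lit 13) (.e (nat_lit 65617) (nat_lit 10) (.e (nat_lit 344130) (nat_lit 26) (.e (nat_lit 557089) (nat_lit 12) (.e (nat_lit 163843) (nat_lit 0) (.e (nat_lit 6254) (nat_lit 337) (.e (nat_lit 2630) (nat_lit 164) (.e (nat_lit 172062) (nat_lit 2) .nil)))))))) (.g (nat_lit 1) (.e (nat_lit 216958) (nat_lit 0) .nil) .nil)))) 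
(.nd (nat_lit 9) 
(.lf (nat_lit 517598) (.g (nat_lit 2488) (.e (nat_lit 196666) (nat_lit 13) (.e (nat_lit 65610) (nat_lit 10) (.e (nat_lit 344129) (nat_lit 26) (.e (nat_lit 557088) (nat_lit 12) (.e (nat_lit 164018) (nat_lit 45) (.e (nat_lit 696343) (nat_lit 8) (.e (nat_lit 172062) (nat_lit 2) .nil))))))) (.g (nat_lit 1) (.e (nat_lit 216643) (nat_lit 0) .nil) .nil))) 
(.lf (nat_lit 518110) (.g (nat_lit 946) (.e (nat_lit 196668) (nat_lit 14) (.e (nat_lit 73729) (nat_lit 0) (.e (nat_lit 4780) (nat_lit 281) (.e (nat_lit 1011) (nat_lit 81) .nil)))) (.g (nat_lit 0) (.e (nat_lit 217290) (nat_lit 0) .nil) .nil))))))) (.nd (nat_lit 6) (.nd (nat_lit 7) (.nd (nat_lit 8) (.nd (nat_lit 9) 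
(.lf (nat_lit 517182) (.g (nat_lit 4516) (.e (nat_lit 196666) (nat_lit 13) (.e (nat_lit 65610) (nat_lit 10) (.e (nat_lit 344117) (nat_lit 21) (.e (nat_lit 516151) (nat_lit 9) (.e (nat_lit 426038) (nat_lit 0) (.e (nat_lit 3366) (nat_lit 208) (.e (nat_lit 622627) (nat_lit 13) (.e (nat_lit 2665) (nat_lit 167) .nil)))))))) (.g (nat_lit 1) (.e (nat_lit 216069) (nat_lit 0) .nil) .nil))) 
(.lf (nat_lit 517694) (.g (nat_lit 2748) (.e (nat_lit 196666) (nat_lit 13) (.e (nat_lit 65610) (nat_lit 10) (.e (nat_lit 344129) (nat_lit 26) (.e (nat_lit 557092) (nat_lit 12) (.e (nat_lit 163849) (nat_lit 0) .nil))))) (.g (nat_lit 0) (.e (nat_lit 216763) (nat_lit 0) .nil) .nil)))) (.nd (nat_lit 9) 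
(.lf (nat_lit 517438) (.g (nat_lit 2548) (.e (nat_lit 196666) (nat_lit 13) (.e (nat_lit 65610) (nat_lit 10) (.e (nat_lit 344117) (nat_lit 21) (.e (nat_lit 516159) (nat_lit 10) (.e (nat_lit 434274) (nat_lit 39) (.e (nat_lit 663559) (nat_lit 0) (.e (nat_lit 7936) (nat_lit 11) .nil))))))) (.g (nat_lit 1) (.e (nat_lit 216361) (nat_lit 0) .nil) .nil))) 
(.lf (nat_lit 517950) (.g (nat_lit 1957) (.e (nat_lit 196666) (nat_lit 13) (.e (nat_lit 65617) (nat_lit 10) (.e (nat_lit 344133) (nat_lit 26) (.e (nat_lit 557088) (nat_lit 12) .nil)))) (.g (nat_lit 0) (.e (nat_lit 217064) (nat_lit 0) .nil) .nil))))) (.nd (nat_lit 8) (.nd (nat_lit 9) 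
(.lf (nat_lit 517310) (.g (nat_lit 3537) (.e (nat_lit 196666) (nat_lit 13) (.e (nat_lit 65610) (nat_lit 10) (.e (nat_lit 344117) (nat_lit 21) (.e (nat_lit 516151) (nat_lit 9) (.e (nat_lit 426045) (nat_lit 0) (.e (nat_lit 3369) (nat_lit 208) (.e (nat_lit 622623) (nat_lit 13) (.e (nat_lit 2668) (nat_lit 167) .nil)))))))) (.g (nat_lit 1) (.e (nat_lit 216197) (nat_lit 0) .nil) .nil))) 
(.lf (nat_lit 517822) (.g (nat_lit 2938) (.e (nat_lit 196666) (nat_lit 13) (.e (nat_lit 65617) (nat_lit 10) (.e (nat_lit 344130) (nat_lit 26) (.e (nat_lit 557067) (nat_lit 9) (.e (nat_lit 20) (nat_lit 0) (.e (nat_lit 6236) (nat_lit 335) (.e (nat_lit 164359) (nat_lit 246) (.e (nat_lit 2661) (nat_lit 167) .nil)))))))) (.g (nat_lit 1) (.e (nat_lit 216914) (nat_lit 0) .nil) .nil)))) (.nd (nat_lit 9) 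
(.lf (nat_lit 517566) (.g (nat_lit 1569) (.e (nat_lit 196666) (nat_lit 13) (.e (nat_lit 65610) (nat_lit 10) (.e (nat_lit 344129) (nat_lit 26) (.e (nat_lit 557074) (nat_lit 9) (.e (nat_lit 2609) (nat_lit 163) .nil))))) (.g (nat_lit 0) (.e (nat_lit 216578) (nat_lit 0) .nil) .nil))) 
(.lf (nat_lit 518078) (.g (nat_lit 906) (.e (nat_lit 196666) (nat_lit 13) (.e (nat_lit 65630) (nat_lit 14) (.e (nat_lit 401424) (nat_lit 2) .nil))) (.g (nat_lit 0) (.e (nat_lit 217237) (nat_lit 0) .nil) .nil)))))) (.nd (nat_lit 7) (.nd (nat_lit 8) (.nd (nat_lit 9) 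
(.lf (nat_lit 517246) (.g (nat_lit 4669) (.e (nat_lit 196666) (nat_lit 13) (.e (nat_lit 65610) (nat_lit 10) (.e (nat_lit 344117) (nat_lit 21) (.e (nat_lit 516151) (nat_lit 9) (.e (nat_lit 426040) (nat_lit 0) (.e (nat_lit 3370) (nat_lit 208) (.e (nat_lit 622627) (nat_lit 13) (.e (nat_lit 2663) (nat_lit 167) .nil)))))))) (.g (nat_lit 1) (.e (nat_lit 216133) (nat_lit 0) .nil) .nil))) 
(.lf (nat_lit 517758) (.g (nat_lit 2041) (.e (nat_lit 196666) (nat_lit 13) (.e (nat_lit 65617) (nat_lit 10) (.e (nat_lit 344127) (nat_lit 26) (.e (nat_lit 557089) (nat_lit 12) (.e (nat_lit 164020) (nat_lit 45) (.e (nat_lit 696343) (nat_lit 8) (.e (nat_lit 172062) (nat_lit 2) .nil))))))) (.g (nat_lit 1) (.e (nat_lit 216845) (nat_lit 0) .nil) .nil)))) (.nd (nat_lit 9) 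
(.lf (nat_lit 517502) (.g (nat_lit 3501) (.e (nat_lit 196666) (nat_lit 13) (.e (nat_lit 65610) (nat_lit 10) (.e (nat_lit 344117) (nat_lit 21) (.e (nat_lit 516185) (nat_lit 16) (.e (nat_lit 491530) (nat_lit 0) (.e (nat_lit 6659) (nat_lit 357) (.e (nat_lit 2664) (nat_lit 167) .nil))))))) (.g (nat_lit 1) (.e (nat_lit 216463) (nat_lit 0) .nil) .nil))) 
(.lf (nat_lit 518014) (.g (nat_lit 4055) (.e (nat_lit 196666) (nat_lit 13) (.e (nat_lit 65619) (nat_lit 10) (.e (nat_lit 344117) (nat_lit 21) (.e (nat_lit 516139) (nat_lit 7) (.e (nat_lit 409617) (nat_lit 10) (.e (nat_lit 7936) (nat_lit 312) (.e (nat_lit 2668) (nat_lit 167) .nil))))))) (.g (nat_lit 1) (.e (nat_lit 217134) (nat_lit 0) .nil) .nil))))) (.nd (nat_lit 8) (.nd (nat_lit 9) 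
(.lf (nat_lit 517374) (.g (nat_lit 3955) (.e (nat_lit 196666) (nat_lit 13) (.e (nat_lit 65610) (nat_lit 10) (.e (nat_lit 344117) (nat_lit 21) (.e (nat_lit 516151) (nat_lit 9) (.e (nat_lit 426047) (nat_lit 0) (.e (nat_lit 2424) (nat_lit 157) (.e (nat_lit 4848) (nat_lit 285) (.e (nat_lit 163870) (nat_lit 2) .nil)))))))) (.g (nat_lit 1) (.e (nat_lit 216261) (nat_lit 0) .nil) .nil))) 
(.lf (nat_lit 517886) (.g (nat_lit 3412) (.e (nat_lit 196666) (nat_lit 13) (.e (nat_lit 65617) (nat_lit 10) (.e (nat_lit 344130) (nat_lit 26) (.e (nat_lit 557090) (nat_lit 12) (.e (nat_lit 163850) (nat_lit 0) (.e (nat_lit 6426) (nat_lit 342) (.e (nat_lit 229399) (nat_lit 12) (.e (nat_lit 426125) (nat_lit 2) .nil)))))))) (.g (nat_lit 1) (.e (nat_lit 216991) (nat_lit 0) .nil) .nil)))) 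
(.nd (nat_lit 9) 
(.lf (nat_lit 517630) (.g (nat_lit 2402) (.e (nat_lit 196666) (nat_lit 13) (.e (nat_lit 65610) (nat_lit 10) (.e (nat_lit 344129) (nat_lit 26) (.e (nat_lit 557090) (nat_lit 12) (.e (nat_lit 163841) (nat_lit 0) (.e (nat_lit 6254) (nat_lit 337) (.e (nat_lit 2630) (nat_lit 164) (.e (nat_lit 172064) (nat_lit 2) .nil)))))))) (.g (nat_lit 1) (.e (nat_lit 216678) (nat_lit 0) .nil) .nil))) 
(.lf (nat_lit 518142) (.g (nat_lit 1384) (.e (nat_lit 196668) (nat_lit 14) (.e (nat_lit 73746) (nat_lit 3) (.e (nat_lit 516119) (nat_lit 1) (.e (nat_lit 164176) (nat_lit 154) .nil)))) (.g (nat_lit 0) (.e (nat_lit 217429) (nat_lit 0) .nil) .nil)))))))))))) 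
(.nd (nat_lit 1) (.nd (nat_lit 2) (.nd (nat_lit 3) (.nd (nat_lit 4) (.nd (nat_lit 5) 
(.nd (nat_lit 6) (.nd (nat_lit 7) (.nd (nat_lit 8) (.nd (nat_lit 9) 
(.lf (nat_lit 517121) (.g (nat_lit 3495) (.e (nat_lit 196666) (nat_lit 13) (.e (nat_lit 65610) (nat_lit 10) (.e (nat_lit 344117) (nat_lit 21) (.e (nat_lit 516151) (nat_lit 9) (.e (nat_lit 426037) (nat_lit 0) (.e (nat_lit 3369) (nat_lit 208) (.e (nat_lit 622623) (nat_lit 13) (.e (nat_lit 2668) (nat_lit 167) .nil)))))))) (.g (nat_lit 1) (.e (nat_lit 216008) (nat_lit 0) .nil) .nil))) 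
(.lf (nat_lit 517633) (.g (nat_lit 2760) (.e (nat_lit 196666) (nat_lit 13) (.e (nat_lit 65610) (nat_lit 10) (.e (nat_lit 344129) (nat_lit 26) (.e (nat_lit 557090) (nat_lit 12) (.e (nat_lit 163841) (nat_lit 0) (.e (nat_lit 6374) (nat_lit 337) (.e (nat_lit 2628) (nat_lit 164) (.e (nat_lit 172062) (nat_lit 2) .nil)))))))) (.g (nat_lit 1) (.e (nat_lit 216681) (nat_lit 0) .nil) .nil)))) 
(.nd (nat_lit 9) 
(.lf (nat_lit 517377) (.g (nat_lit 4006) (.e (nat_lit 196666) (nat_lit 13) (.e (nat_lit 65610) (nat_lit 10) (.e (nat_lit 344117) (nat_lit 21) (.e (nat_lit 516151) (nat_lit 9) (.e (nat_lit 426047) (nat_lit 0) (.e (nat_lit 2425) (nat_lit 157) (.e (nat_lit 4821) (nat_lit 281) (.e (nat_lit 2477) (nat_lit 157) (.e (nat_lit 2663) (nat_lit 167) .nil))))))))) (.g (nat_lit 1) (.e (nat_lit 216264) (nat_lit 0) .nil) .nil))) 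
(.lf (nat_lit 517889) (.g (nat_lit 3000) (.e (nat_lit 196666) (nat_lit 13) (.e (nat_lit 65617) (nat_lit 10) (.e (nat_lit 344130) (nat_lit 26) (.e (nat_lit 557090) (nat_lit 12) (.e (nat_lit 164016) (nat_lit 44) (.e (nat_lit 688138) (nat_lit 5) (.e (nat_lit 2887) (nat_lit 184) (.e (nat_lit 426120) (nat_lit 2) .nil)))))))) (.g (nat_lit 1) (.e (nat_lit 216994) (nat_lit 0) .nil) .nil))))) 
(.nd (nat_lit 8) (.nd (nat_lit 9) 
(.lf (nat_lit 517249) (.g (nat_lit 3712) (.e (nat_lit 196666) (nat_lit 13) (.e (nat_lit 65610) (nat_lit 10) (.e (nat_lit 344117) (nat_lit 21) (.e (nat_lit 516151) (nat_lit 9) (.e (nat_lit 426039) (nat_lit 0) (.e (nat_lit 3366) (nat_lit 208) (.e (nat_lit 622627) (nat_lit 13) (.e (nat_lit 2663) (nat_lit 167) .nil)))))))) (.g (nat_lit 1) (.e (nat_lit 216136) (nat_lit 0) .nil) .nil))) 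
(.lf (nat_lit 517761) (.g (nat_lit 2934) (.e (nat_lit 196666) (nat_lit 13) (.e (nat_lit 65617) (nat_lit 10) (.e (nat_lit 344127) (nat_lit 26) (.e (nat_lit 557090) (nat_lit 12) (.e (nat_lit 163843) (nat_lit 0) (.e (nat_lit 6250) (nat_lit 337) (.e (nat_lit 2725) (nat_lit 172) (.e (nat_lit 237589) (nat_lit 2) .nil)))))))) (.g (nat_lit 1) (.e (nat_lit 216848) (nat_lit 0) .nil) .nil)))) 
(.nd (nat_lit 9) 
(.lf (nat_lit 517505) (.g (nat_lit 2485) (.e (nat_lit 196666) (nat_lit 13) (.e (nat_lit 65610) (nat_lit 10) (.e (nat_lit 344117) (nat_lit 21) (.e (nat_lit 516185) (nat_lit 16) (.e (nat_lit 491572) (nat_lit 14) .nil))))) (.g (nat_lit 0) (.e (nat_lit 216467) (nat_lit 0) .nil) .nil))) 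
(.lf (nat_lit 518017) (.g (nat_lit 3438) (.e (nat_lit 196666) (nat_lit 13) (.e (nat_lit 65619) (nat_lit 10) (.e (nat_lit 344117) (nat_lit 21) (.e (nat_lit 516139) (nat_lit 7) (.e (nat_lit 417536) (nat_lit 10) .nil))))) (.g (nat_lit 0) (.e (nat_lit 217137) (nat_lit 0) .nil) .nil)))))) (.nd (nat_lit 7) (.nd (nat_lit 8) (.nd (nat_lit 9) 
(.lf (nat_lit 517185) (.g (nat_lit 3465) (.e (nat_lit 196666) (nat_lit 13) (.e (nat_lit 65610) (nat_lit 10) (.e (nat_lit 344117) (nat_lit 21) (.e (nat_lit 516151) (nat_lit 9) (.e (nat_lit 426038) (nat_lit 0) (.e (nat_lit 3369) (nat_lit 208) (.e (nat_lit 622620) (nat_lit 13) (.e (nat_lit 2668) (nat_lit 167) .nil)))))))) (.g (nat_lit 1) (.e (nat_lit 216072) (nat_lit 0) .nil) .nil))) 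
(.lf (nat_lit 517697) (.g (nat_lit 2398) (.e (nat_lit 196666) (nat_lit 13) (.e (nat_lit 65610) (nat_lit 10) (.e (nat_lit 344129) (nat_lit 26) (.e (nat_lit 557110) (nat_lit 16) .nil)))) (.g (nat_lit 0) (.e (nat_lit 216766) (nat_lit 0) .nil) .nil)))) (.nd (nat_lit 9) 
(.lf (nat_lit 517441) (.g (nat_lit 3395) (.e (nat_lit 196666) (nat_lit 13) (.e (nat_lit 65610) (nat_lit 10) (.e (nat_lit 344117) (nat_lit 21) (.e (nat_lit 516159) (nat_lit 10) (.e (nat_lit 434275) (nat_lit 39) (.e (nat_lit 663553) (nat_lit 0) (.e (nat_lit 164) (nat_lit 11) .nil))))))) (.g (nat_lit 1) (.e (nat_lit 216364) (nat_lit 0) .nil) .nil))) 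
(.lf (nat_lit 517953) (.g (nat_lit 3735) (.e (nat_lit 196666) (nat_lit 13) (.e (nat_lit 65617) (nat_lit 10) (.e (nat_lit 344133) (nat_lit 26) (.e (nat_lit 557089) (nat_lit 12) (.e (nat_lit 163843) (nat_lit 0) (.e (nat_lit 6254) (nat_lit 337) (.e (nat_lit 2630) (nat_lit 164) (.e (nat_lit 172062) (nat_lit 2) .nil)))))))) (.g (nat_lit 1) (.e (nat_lit 217067) (nat_lit 0) .nil) .nil))))) 
(.nd (nat_lit 8) (.nd (nat_lit 9) 
(.lf (nat_lit 517313) (.g (nat_lit 4823) (.e (nat_lit 196666) (nat_lit 13) (.e (nat_lit 65610) (nat_lit 10) (.e (nat_lit 344117) (nat_lit 21) (.e (nat_lit 516151) (nat_lit 9) (.e (nat_lit 426045) (nat_lit 0) (.e (nat_lit 3369) (nat_lit 208) (.e (nat_lit 622626) (nat_lit 13) (.e (nat_lit 2663) (nat_lit 167) .nil)))))))) (.g (nat_lit 1) (.e (nat_lit 216200) (nat_lit 0) .nil) .nil))) 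
(.lf (nat_lit 517825) (.g (nat_lit 2125) (.e (nat_lit 196666) (nat_lit 13) (.e (nat_lit 65617) (nat_lit 10) (.e (nat_lit 344130) (nat_lit 26) (.e (nat_lit 557067) (nat_lit 9) (.e (nat_lit 249) (nat_lit 21) .nil))))) (.g (nat_lit 0) (.e (nat_lit 216926) (nat_lit 0) .nil) .nil)))) (.nd (nat_lit 9) 
(.lf (nat_lit 517569) (.g (nat_lit 2398) (.e (nat_lit 196666) (nat_lit 13) (.e (nat_lit 65610) (nat_lit 10) (.e (nat_lit 344129) (nat_lit 26) (.e (nat_lit 557075) (nat_lit 9) .nil)))) (.g (nat_lit 0) (.e (nat_lit 216583) (nat_lit 0) .nil) .nil))) 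
(.lf (nat_lit 518081) (.g (nat_lit 3431) (.e (nat_lit 196666) (nat_lit 13) (.e (nat_lit 65630) (nat_lit 14) (.e (nat_lit 401424) (nat_lit 2) (.e (nat_lit 196668) (nat_lit 14) (.e (nat_lit 73782) (nat_lit 32) (.e (nat_lit 2664) (nat_lit 167) .nil)))))) (.g (nat_lit 1) (.e (nat_lit 217241) (nat_lit 0) .nil) .nil))))))) (.nd (nat_lit 6) (.nd (nat_lit 7) (.nd (nat_lit 8) (.nd (nat_lit 9) 
(.lf (nat_lit 517153) (.g (nat_lit 3277) (.e (nat_lit 196666) (nat_lit 13) (.e (nat_lit 65610) (nat_lit 10) (.e (nat_lit 344117) (nat_lit 21) (.e (nat_lit 516151) (nat_lit 9) (.e (nat_lit 426038) (nat_lit 0) (.e (nat_lit 2423) (nat_lit 157) (.e (nat_lit 4821) (nat_lit 281) (.e (nat_lit 2477) (nat_lit 157) (.e (nat_lit 2666) (nat_lit 167) .nil))))))))) (.g (nat_lit 1) (.e (nat_lit 216040) (nat_lit 0) .nil) .nil))) 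
(.lf (nat_lit 517665) (.g (nat_lit 2365) (.e (nat_lit 196666) (nat_lit 13) (.e (nat_lit 65610) (nat_lit 10) (.e (nat_lit 344129) (nat_lit 26) (.e (nat_lit 557090) (nat_lit 12) (.e (nat_lit 163848) (nat_lit 0) (.e (nat_lit 6421) (nat_lit 341) (.e (nat_lit 163900) (nat_lit 12) (.e (nat_lit 426125) (nat_lit 2) .nil)))))))) (.g (nat_lit 1) (.e (nat_lit 216731) (nat_lit 0) .nil) .nil)))) 
(.nd (nat_lit 9) 
(.lf (nat_lit 517409) (.g (nat_lit 3602) (.e (nat_lit 196666) (nat_lit 13) (.e (nat_lit 65610) (nat_lit 10) (.e (nat_lit 344117) (nat_lit 21) (.e (nat_lit 516151) (nat_lit 9) (.e (nat_lit 426047) (nat_lit 0) (.e (nat_lit 3370) (nat_lit 208) (.e (nat_lit 622624) (nat_lit 13) (.e (nat_lit 2668) (nat_lit 167) .nil)))))))) (.g (nat_lit 1) (.e (nat_lit 216296) (nat_lit 0) .nil) .nil))) 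
(.lf (nat_lit 517921) (.g (nat_lit 2650) (.e (nat_lit 196666) (nat_lit 13) (.e (nat_lit 65617) (nat_lit 10) (.e (nat_lit 344132) (nat_lit 26) (.e (nat_lit 557091) (nat_lit 12) (.e (nat_lit 163843) (nat_lit 0) .nil))))) (.g (nat_lit 0) (.e (nat_lit 217030) (nat_lit 0) .nil) .nil))))) (.nd (nat_lit 8) (.nd (nat_lit 9) 
(.lf (nat_lit 517281) (.g (nat_lit 2470) (.e (nat_lit 196666) (nat_lit 13) (.e (nat_lit 65610) (nat_lit 10) (.e (nat_lit 344117) (nat_lit 21) (.e (nat_lit 516151) (nat_lit 9) (.e (nat_lit 426042) (nat_lit 0) (.e (nat_lit 3371) (nat_lit 208) (.e (nat_lit 622620) (nat_lit 13) (.e (nat_lit 2665) (nat_lit 167) .nil)))))))) (.g (nat_lit 1) (.e (nat_lit 216168) (nat_lit 0) .nil) .nil))) 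
(.lf (nat_lit 517793) (.g (nat_lit 2672) (.e (nat_lit 196666) (nat_lit 13) (.e (nat_lit 65617) (nat_lit 10) (.e (nat_lit 344127) (nat_lit 26) (.e (nat_lit 557090) (nat_lit 12) (.e (nat_lit 164016) (nat_lit 44) (.e (nat_lit 688139) (nat_lit 5) (.e (nat_lit 2887) (nat_lit 184) (.e (nat_lit 426125) (nat_lit 2) .nil)))))))) (.g (nat_lit 1) (.e (nat_lit 216883) (nat_lit 0) .nil) .nil)))) 
(.nd (nat_lit 9) 
(.lf (nat_lit 517537) (.g (nat_lit 2039) (.e (nat_lit 196666) (nat_lit 13) (.e (nat_lit 65610) (nat_lit 10) (.e (nat_lit 344129) (nat_lit 26) (.e (nat_lit 557067) (nat_lit 9) (.e (nat_lit 2416) (nat_lit 157) .nil))))) (.g (nat_lit 0) (.e (nat_lit 216528) (nat_lit 0) .nil) .nil))) 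
(.lf (nat_lit 518049) (.g (nat_lit 1841) (.e (nat_lit 196666) (nat_lit 13) (.e (nat_lit 65624) (nat_lit 12) (.e (nat_lit 385068) (nat_lit 26) (.e (nat_lit 532514) (nat_lit 3) (.e (nat_lit 122624) (nat_lit 11) .nil))))) (.g (nat_lit 0) (.e (nat_lit 217184) (nat_lit 0) .nil) .nil)))))) (.nd (nat_lit 7) (.nd (nat_lit 8) (.nd (nat_lit 9) 
(.lf (nat_lit 517217) (.g (nat_lit 4059) (.e (nat_lit 196666) (nat_lit 13) (.e (nat_lit 65610) (nat_lit 10) (.e (nat_lit 344117) (nat_lit 21) (.e (nat_lit 516151) (nat_lit 9) (.e (nat_lit 426040) (nat_lit 0) (.e (nat_lit 2423) (nat_lit 157) (.e (nat_lit 7936) (nat_lit 285) (.e (nat_lit 163870) (nat_lit 2) .nil)))))))) (.g (nat_lit 1) (.e (nat_lit 216104) (nat_lit 0) .nil) .nil))) 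
(.lf (nat_lit 517729) (.g (nat_lit 2478) (.e (nat_lit 196666) (nat_lit 13) (.e (nat_lit 65617) (nat_lit 10) (.e (nat_lit 344117) (nat_lit 21) (.e (nat_lit 516106) (nat_lit 0) (.e (nat_lit 7008) (nat_lit 377) .nil))))) (.g (nat_lit 0) (.e (nat_lit 216805) (nat_lit 0) .nil) .nil)))) (.nd (nat_lit 9) 
(.lf (nat_lit 517473) (.g (nat_lit 3056) (.e (nat_lit 196666) (nat_lit 13) (.e (nat_lit 65610) (nat_lit 10) (.e (nat_lit 344117) (nat_lit 21) (.e (nat_lit 516160) (nat_lit 10) (.e (nat_lit 434275) (nat_lit 39) (.e (nat_lit 671488) (nat_lit 0) (.e (nat_lit 161) (nat_lit 11) .nil))))))) (.g (nat_lit 1) (.e (nat_lit 216427) (nat_lit 0) .nil) .nil))) 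
(.lf (nat_lit 517985) (.g (nat_lit 2144) (.e (nat_lit 196666) (nat_lit 13) (.e (nat_lit 65617) (nat_lit 10) (.e (nat_lit 344133) (nat_lit 26) (.e (nat_lit 557091) (nat_lit 12) (.e (nat_lit 164019) (nat_lit 45) .nil))))) (.g (nat_lit 0) (.e (nat_lit 217099) (nat_lit 0) .nil) .nil))))) (.nd (nat_lit 8) (.nd (nat_lit 9) 
(.lf (nat_lit 517345) (.g (nat_lit 3922) (.e (nat_lit 196666) (nat_lit 13) (.e (nat_lit 65610) (nat_lit 10) (.e (nat_lit 344117) (nat_lit 21) (.e (nat_lit 516151) (nat_lit 9) (.e (nat_lit 426050) (nat_lit 0) (.e (nat_lit 2515) (nat_lit 157) (.e (nat_lit 5948) (nat_lit 322) (.e (nat_lit 65280) (nat_lit 63) .nil)))))))) (.g (nat_lit 1) (.e (nat_lit 216232) (nat_lit 0) .nil) .nil))) 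
(.lf (nat_lit 517857) (.g (nat_lit 4244) (.e (nat_lit 196666) (nat_lit 13) (.e (nat_lit 65617) (nat_lit 10) (.e (nat_lit 344130) (nat_lit 26) (.e (nat_lit 557089) (nat_lit 12) (.e (nat_lit 164020) (nat_lit 45) (.e (nat_lit 696344) (nat_lit 8) (.e (nat_lit 172062) (nat_lit 2) .nil))))))) (.g (nat_lit 1) (.e (nat_lit 216961) (nat_lit 0) .nil) .nil)))) (.nd (nat_lit 9) 
(.lf (nat_lit 517601) (.g (nat_lit 3125) (.e (nat_lit 196666) (nat_lit 13) (.e (nat_lit 65610) (nat_lit 10) (.e (nat_lit 344129) (nat_lit 26) (.e (nat_lit 557088) (nat_lit 12) (.e (nat_lit 164020) (nat_lit 45) (.e (nat_lit 696344) (nat_lit 8) (.e (nat_lit 172062) (nat_lit 2) .nil))))))) (.g (nat_lit 1) (.e (nat_lit 216646) (nat_lit 0) .nil) .nil))) 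
(.lf (nat_lit 518113) (.g (nat_lit 2765) (.e (nat_lit 196668) (nat_lit 14) (.e (nat_lit 73746) (nat_lit 3) (.e (nat_lit 516115) (nat_lit 1) (.e (nat_lit 164151) (nat_lit 152) (.e (nat_lit 974) (nat_lit 81) .nil))))) (.g (nat_lit 0) (.e (nat_lit 217315) (nat_lit 0) .nil) .nil)))))))) (.nd (nat_lit 5) (.nd (nat_lit 6) (.nd (nat_lit 7) (.nd (nat_lit 8) (.nd (nat_lit 9) 
(.lf (nat_lit 517137) (.g (nat_lit 3743) (.e (nat_lit 196666) (nat_lit 13) (.e (nat_lit 65610) (nat_lit 10) (.e (nat_lit 344117) (nat_lit 21) (.e (nat_lit 516151) (nat_lit 9) (.e (nat_lit 426038) (nat_lit 0) (.e (nat_lit 2416) (nat_lit 157) (.e (nat_lit 4817) (nat_lit 281) (.e (nat_lit 2477) (nat_lit 157) (.e (nat_lit 2663) (nat_lit 167) .nil))))))))) (.g (nat_lit 1) (.e (nat_lit 216024) (nat_lit 0) .nil) .nil))) 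
(.lf (nat_lit 517649) (.g (nat_lit 2375) (.e (nat_lit 196666) (nat_lit 13) (.e (nat_lit 65610) (nat_lit 10) (.e (nat_lit 344129) (nat_lit 26) (.e (nat_lit 557090) (nat_lit 12) (.e (nat_lit 163844) (nat_lit 0) (.e (nat_lit 6252) (nat_lit 337) (.e (nat_lit 2725) (nat_lit 172) (.e (nat_lit 237589) (nat_lit 2) .nil)))))))) (.g (nat_lit 1) (.e (nat_lit 216711) (nat_lit 0) .nil) .nil)))) 
(.nd (nat_lit 9) 
(.lf (nat_lit 517393) (.g (nat_lit 4499) (.e (nat_lit 196666) (nat_lit 13) (.e (nat_lit 65610) (nat_lit 10) (.e (nat_lit 344117) (nat_lit 21) (.e (nat_lit 516151) (nat_lit 9) (.e (nat_lit 426047) (nat_lit 0) (.e (nat_lit 3366) (nat_lit 208) (.e (nat_lit 622625) (nat_lit 13) (.e (nat_lit 2663) (nat_lit 167) .nil)))))))) (.g (nat_lit 1) (.e (nat_lit 216280) (nat_lit 0) .nil) .nil))) 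
(.lf (nat_lit 517905) (.g (nat_lit 2665) (.e (nat_lit 196666) (nat_lit 13) (.e (nat_lit 65617) (nat_lit 10) (.e (nat_lit 344130) (nat_lit 26) (.e (nat_lit 557090) (nat_lit 12) (.e (nat_lit 171776) (nat_lit 48) (.e (nat_lit 720909) (nat_lit 11) (.e (nat_lit 426113) (nat_lit 2) .nil))))))) (.g (nat_lit 1) (.e (nat_lit 217011) (nat_lit 0) .nil) .nil))))) (.nd (nat_lit 8) (.nd (nat_lit 9) 
(.lf (nat_lit 517265) (.g (nat_lit 2925) (.e (nat_lit 196666) (nat_lit 13) (.e (nat_lit 65610) (nat_lit 10) (.e (nat_lit 344117) (nat_lit 21) (.e (nat_lit 516151) (nat_lit 9) (.e (nat_lit 426042) (nat_lit 0) (.e (nat_lit 2424) (nat_lit 157) (.e (nat_lit 4762) (nat_lit 281) (.e (nat_lit 2463) (nat_lit 157) (.e (nat_lit 2666) (nat_lit 167) .nil))))))))) (.g (nat_lit 1) (.e (nat_lit 216152) (nat_lit 0) .nil) .nil))) 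
(.lf (nat_lit 517777) (.g (nat_lit 2538) (.e (nat_lit 196666) (nat_lit 13) (.e (nat_lit 65617) (nat_lit 10) (.e (nat_lit 344127) (nat_lit 26) (.e (nat_lit 557090) (nat_lit 12) (.e (nat_lit 163847) (nat_lit 0) (.e (nat_lit 6418) (nat_lit 341) (.e (nat_lit 163900) (nat_lit 12) (.e (nat_lit 426125) (nat_lit 2) .nil)))))))) (.g (nat_lit 1) (.e (nat_lit 216865) (nat_lit 0) .nil) .nil)))) 
(.nd (nat_lit 9) 
(.lf (nat_lit 517521) (.g (nat_lit 3391) (.e (nat_lit 196666) (nat_lit 13) (.e (nat_lit 65610) (nat_lit 10) (.e (nat_lit 344128) (nat_lit 26) (.e (nat_lit 557090) (nat_lit 12) (.e (nat_lit 164020) (nat_lit 45) (.e (nat_lit 696343) (nat_lit 8) (.e (nat_lit 172062) (nat_lit 2) .nil))))))) (.g (nat_lit 1) (.e (nat_lit 216509) (nat_lit 0) .nil) .nil))) 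
(.lf (nat_lit 518033) (.g (nat_lit 2779) (.e (nat_lit 196666) (nat_lit 13) (.e (nat_lit 65622) (nat_lit 12) (.e (nat_lit 385074) (nat_lit 31) (.e (nat_lit 573481) (nat_lit 13) (.e (nat_lit 65630) (nat_lit 14) .nil))))) (.g (nat_lit 0) (.e (nat_lit 217159) (nat_lit 0) .nil) .nil)))))) (.nd (nat_lit 7) (.nd (nat_lit 8) (.nd (nat_lit 9) 
(.lf (nat_lit 517201) (.g (nat_lit 3456) (.e (nat_lit 196666) (nat_lit 13) (.e (nat_lit 65610) (nat_lit 10) (.e (nat_lit 344117) (nat_lit 21) (.e (nat_lit 516151) (nat_lit 9) (.e (nat_lit 426038) (nat_lit 0) (.e (nat_lit 3370) (nat_lit 208) (.e (nat_lit 622627) (nat_lit 13) (.e (nat_lit 2665) (nat_lit 167) .nil)))))))) (.g (nat_lit 1) (.e (nat_lit 216088) (nat_lit 0) .nil) .nil))) 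
(.lf (nat_lit 517713) (.g (nat_lit 677) (.e (nat_lit 196666) (nat_lit 13) (.e (nat_lit 65617) (nat_lit 10) (.e (nat_lit 344093) (nat_lit 18) .nil))) (.g (nat_lit 0) (.e (nat_lit 216786) (nat_lit 0) .nil) .nil)))) (.nd (nat_lit 9) 
(.lf (nat_lit 517457) (.g (nat_lit 3568) (.e (nat_lit 196666) (nat_lit 13) (.e (nat_lit 65610) (nat_lit 10) (.e (nat_lit 344117) (nat_lit 21) (.e (nat_lit 516160) (nat_lit 10) (.e (nat_lit 434208) (nat_lit 18) (.e (nat_lit 4751) (nat_lit 281) (.e (nat_lit 2532) (nat_lit 157) (.e (nat_lit 2666) (nat_lit 167) .nil)))))))) (.g (nat_lit 1) (.e (nat_lit 216396) (nat_lit 0) .nil) .nil))) 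
(.lf (nat_lit 517969) (.g (nat_lit 2808) (.e (nat_lit 196666) (nat_lit 13) (.e (nat_lit 65617) (nat_lit 10) (.e (nat_lit 344133) (nat_lit 26) (.e (nat_lit 557091) (nat_lit 12) (.e (nat_lit 163840) (nat_lit 0) (.e (nat_lit 6427) (nat_lit 342) (.e (nat_lit 229399) (nat_lit 12) (.e (nat_lit 426125) (nat_lit 2) .nil)))))))) (.g (nat_lit 1) (.e (nat_lit 217083) (nat_lit 0) .nil) .nil))))) 
(.nd (nat_lit 8) (.nd (nat_lit 9) 
(.lf (nat_lit 517329) (.g (nat_lit 4445) (.e (nat_lit 196666) (nat_lit 13) (.e (nat_lit 65610) (nat_lit 10) (.e (nat_lit 344117) (nat_lit 21) (.e (nat_lit 516151) (nat_lit 9) (.e (nat_lit 426049) (nat_lit 0) (.e (nat_lit 2416) (nat_lit 157) (.e (nat_lit 4849) (nat_lit 285) (.e (nat_lit 163869) (nat_lit 2) .nil)))))))) (.g (nat_lit 1) (.e (nat_lit 216216) (nat_lit 0) .nil) .nil))) 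
(.lf (nat_lit 517841) (.g (nat_lit 2463) (.e (nat_lit 196666) (nat_lit 13) (.e (nat_lit 65617) (nat_lit 10) (.e (nat_lit 344130) (nat_lit 26) (.e (nat_lit 557087) (nat_lit 11) (.e (nat_lit 24581) (nat_lit 0) (.e (nat_lit 7936) (nat_lit 357) (.e (nat_lit 2668) (nat_lit 167) .nil))))))) (.g (nat_lit 1) (.e (nat_lit 216944) (nat_lit 0) .nil) .nil)))) (.nd (nat_lit 9) 
(.lf (nat_lit 517585) (.g (nat_lit 2954) (.e (nat_lit 196666) (nat_lit 13) (.e (nat_lit 65610) (nat_lit 10) (.e (nat_lit 344129) (nat_lit 26) (.e (nat_lit 557087) (nat_lit 11) (.e (nat_lit 24581) (nat_lit 0) (.e (nat_lit 6684) (nat_lit 357) (.e (nat_lit 2664) (nat_lit 167) .nil))))))) (.g (nat_lit 1) (.e (nat_lit 216628) (nat_lit 0) .nil) .nil))) 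
(.lf (nat_lit 518097) (.g (nat_lit 1790) (.e (nat_lit 196667) (nat_lit 14) (.e (nat_lit 73746) (nat_lit 3) (.e (nat_lit 516115) (nat_lit 1) (.e (nat_lit 164179) (nat_lit 154) .nil)))) (.g (nat_lit 0) (.e (nat_lit 217273) (nat_lit 0) .nil) .nil))))))) (.nd (nat_lit 6) (.nd (nat_lit 7) (.nd (nat_lit 8) (.nd (nat_lit 9) 
(.lf (nat_lit 517169) (.g (nat_lit 3407) (.e (nat_lit 196666) (nat_lit 13) (.e (nat_lit 65610) (nat_lit 10) (.e (nat_lit 344117) (nat_lit 21) (.e (nat_lit 516151) (nat_lit 9) (.e (nat_lit 426038) (nat_lit 0) (.e (nat_lit 2427) (nat_lit 157) (.e (nat_lit 4850) (nat_lit 286) (.e (nat_lit 229386) (nat_lit 2) .nil)))))))) (.g (nat_lit 1) (.e (nat_lit 216056) (nat_lit 0) .nil) .nil))) 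
(.lf (nat_lit 517681) (.g (nat_lit 2447) (.e (nat_lit 196666) (nat_lit 13) (.e (nat_lit 65610) (nat_lit 10) (.e (nat_lit 344129) (nat_lit 26) (.e (nat_lit 557090) (nat_lit 12) (.e (nat_lit 164019) (nat_lit 45) (.e (nat_lit 696328) (nat_lit 5) (.e (nat_lit 2884) (nat_lit 184) (.e (nat_lit 426125) (nat_lit 2) .nil)))))))) (.g (nat_lit 1) (.e (nat_lit 216750) (nat_lit 0) .nil) .nil)))) 
(.nd (nat_lit 9) 
(.lf (nat_lit 517425) (.g (nat_lit 2797) (.e (nat_lit 196666) (nat_lit 13) (.e (nat_lit 65610) (nat_lit 10) (.e (nat_lit 344117) (nat_lit 21) (.e (nat_lit 516151) (nat_lit 9) (.e (nat_lit 426142) (nat_lit 4) (.e (nat_lit 229610) (nat_lit 215) (.e (nat_lit 2478) (nat_lit 157) (.e (nat_lit 2666) (nat_lit 167) .nil)))))))) (.g (nat_lit 1) (.e (nat_lit 216312) (nat_lit 0) .nil) .nil))) 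
(.lf (nat_lit 517937) (.g (nat_lit 2020) (.e (nat_lit 196666) (nat_lit 13) (.e (nat_lit 65617) (nat_lit 10) (.e (nat_lit 344133) (nat_lit 26) (.e (nat_lit 557065) (nat_lit 9) (.e (nat_lit 2399) (nat_lit 157) .nil))))) (.g (nat_lit 0) (.e (nat_lit 217047) (nat_lit 0) .nil) .nil))))) (.nd (nat_lit 8) (.nd (nat_lit 9) 
(.lf (nat_lit 517297) (.g (nat_lit 3485) (.e (nat_lit 196666) (nat_lit 13) (.e (nat_lit 65610) (nat_lit 10) (.e (nat_lit 344117) (nat_lit 21) (.e (nat_lit 516151) (nat_lit 9) (.e (nat_lit 426045) (nat_lit 0) (.e (nat_lit 2426) (nat_lit 157) (.e (nat_lit 4778) (nat_lit 281) (.e (nat_lit 2445) (nat_lit 157) (.e (nat_lit 2668) (nat_lit 167) .nil))))))))) (.g (nat_lit 1) (.e (nat_lit 216184) (nat_lit 0) .nil) .nil))) 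
(.lf (nat_lit 517809) (.g (nat_lit 3424) (.e (nat_lit 196666) (nat_lit 13) (.e (nat_lit 65617) (nat_lit 10) (.e (nat_lit 344128) (nat_lit 26) (.e (nat_lit 557090) (nat_lit 12) (.e (nat_lit 164020) (nat_lit 45) (.e (nat_lit 696344) (nat_lit 8) (.e (nat_lit 172062) (nat_lit 2) .nil))))))) (.g (nat_lit 1) (.e (nat_lit 216900) (nat_lit 0) .nil) .nil)))) (.nd (nat_lit 9) 
(.lf (nat_lit 517553) (.g (nat_lit 1996) (.e (nat_lit 196666) (nat_lit 13) (.e (nat_lit 65610) (nat_lit 10) (.e (nat_lit 344129) (nat_lit 26) (.e (nat_lit 557067) (nat_lit 9) (.e (nat_lit 2604) (nat_lit 163) .nil))))) (.g (nat_lit 0) (.e (nat_lit 216557) (nat_lit 0) .nil) .nil))) 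
(.lf (nat_lit 518065) (.g (nat_lit 2238) (.e (nat_lit 196666) (nat_lit 13) (.e (nat_lit 65628) (nat_lit 14) (.e (nat_lit 401425) (nat_lit 2) (.e (nat_lit 196668) (nat_lit 14) (.e (nat_lit 73781) (nat_lit 32) .nil))))) (.g (nat_lit 0) (.e (nat_lit 217221) (nat_lit 0) .nil) .nil)))))) (.nd (nat_lit 7) (.nd (nat_lit 8) (.nd (nat_lit 9) 
(.lf (nat_lit 517233) (.g (nat_lit 3934) (.e (nat_lit 196666) (nat_lit 13) (.e (nat_lit 65610) (nat_lit 10) (.e (nat_lit 344117) (nat_lit 21) (.e (nat_lit 516151) (nat_lit 9) (.e (nat_lit 426040) (nat_lit 0) (.e (nat_lit 3369) (nat_lit 208) (.e (nat_lit 622620) (nat_lit 13) (.e (nat_lit 2663) (nat_lit 167) .nil)))))))) (.g (nat_lit 1) (.e (nat_lit 216120) (nat_lit 0) .nil) .nil))) 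
(.lf (nat_lit 517745) (.g (nat_lit 3969) (.e (nat_lit 196666) (nat_lit 13) (.e (nat_lit 65617) (nat_lit 10) (.e (nat_lit 344120) (nat_lit 21) (.e (nat_lit 516139) (nat_lit 7) (.e (nat_lit 409648) (nat_lit 18) (.e (nat_lit 303116) (nat_lit 2) .nil)))))) (.g (nat_lit 1) (.e (nat_lit 216821) (nat_lit 0) .nil) .nil)))) (.nd (nat_lit 9) 
(.lf (nat_lit 517489) (.g (nat_lit 2240) (.e (nat_lit 196666) (nat_lit 13) (.e (nat_lit 65610) (nat_lit 10) (.e (nat_lit 344117) (nat_lit 21) (.e (nat_lit 516161) (nat_lit 10) .nil)))) (.g (nat_lit 0) (.e (nat_lit 216443) (nat_lit 0) .nil) .nil))) 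
(.lf (nat_lit 518001) (.g (nat_lit 1957) (.e (nat_lit 196666) (nat_lit 13) (.e (nat_lit 65617) (nat_lit 10) (.e (nat_lit 344133) (nat_lit 26) (.e (nat_lit 557094) (nat_lit 12) .nil)))) (.g (nat_lit 0) (.e (nat_lit 217115) (nat_lit 0) .nil) .nil))))) (.nd (nat_lit 8) (.nd (nat_lit 9) 
(.lf (nat_lit 517361) (.g (nat_lit 3774) (.e (nat_lit 196666) (nat_lit 13) (.e (nat_lit 65610) (nat_lit 10) (.e (nat_lit 344117) (nat_lit 21) (.e (nat_lit 516151) (nat_lit 9) (.e (nat_lit 426047) (nat_lit 0) (.e (nat_lit 2422) (nat_lit 157) (.e (nat_lit 4778) (nat_lit 281) (.e (nat_lit 2445) (nat_lit 157) (.e (nat_lit 2668) (nat_lit 167) .nil))))))))) (.g (nat_lit 1) (.e (nat_lit 216248) (nat_lit 0) .nil) .nil))) 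
(.lf (nat_lit 517873) (.g (nat_lit 2902) (.e (nat_lit 196666) (nat_lit 13) (.e (nat_lit 65617) (nat_lit 10) (.e (nat_lit 344130) (nat_lit 26) (.e (nat_lit 557090) (nat_lit 12) (.e (nat_lit 163844) (nat_lit 0) (.e (nat_lit 6420) (nat_lit 341) (.e (nat_lit 163843) (nat_lit 0) (.e (nat_lit 7936) (nat_lit 388) (.e (nat_lit 2668) (nat_lit 167) .nil))))))))) (.g (nat_lit 1) (.e (nat_lit 216978) (nat_lit 0) .nil) .nil)))) 
(.nd (nat_lit 9) 
(.lf (nat_lit 517617) (.g (nat_lit 2825) (.e (nat_lit 196666) (nat_lit 13) (.e (nat_lit 65610) (nat_lit 10) (.e (nat_lit 344129) (nat_lit 26) (.e (nat_lit 557089) (nat_lit 12) (.e (nat_lit 164018) (nat_lit 45) (.e (nat_lit 696344) (nat_lit 8) (.e (nat_lit 172064) (nat_lit 2) .nil))))))) (.g (nat_lit 1) (.e (nat_lit 216665) (nat_lit 0) .nil) .nil))) 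
(.lf (nat_lit 518129) (.g (nat_lit 1738) (.e (nat_lit 196668) (nat_lit 14) (.e (nat_lit 73746) (nat_lit 3) (.e (nat_lit 516117) (nat_lit 1) (.e (nat_lit 164160) (nat_lit 152) .nil)))) (.g (nat_lit 0) (.e (nat_lit 217375) (nat_lit 0) .nil) .nil))))))))) (.nd (nat_lit 4) (.nd (nat_lit 5) (.nd (nat_lit 6) (.nd (nat_lit 7) (.nd (nat_lit 8) (.nd (nat_lit 9) 
(.lf (nat_lit 517129) (.g (nat_lit 3613) (.e (nat_lit 196666) (nat_lit 13) (.e (nat_lit 65610) (nat_lit 10) (.e (nat_lit 344117) (nat_lit 21) (.e (nat_lit 516151) (nat_lit 9) (.e (nat_lit 426037) (nat_lit 0) (.e (nat_lit 3370) (nat_lit 208) (.e (nat_lit 622622) (nat_lit 13) (.e (nat_lit 2668) (nat_lit 167) .nil)))))))) (.g (nat_lit 1) (.e (nat_lit 216016) (nat_lit 0) .nil) .nil))) 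
(.lf (nat_lit 517641) (.g (nat_lit 4743) (.e (nat_lit 196666) (nat_lit 13) (.e (nat_lit 65610) (nat_lit 10) (.e (nat_lit 344129) (nat_lit 26) (.e (nat_lit 557090) (nat_lit 12) (.e (nat_lit 163843) (nat_lit 0) (.e (nat_lit 6254) (nat_lit 337) (.e (nat_lit 2725) (nat_lit 172) (.e (nat_lit 237589) (nat_lit 2) .nil)))))))) (.g (nat_lit 1) (.e (nat_lit 216701) (nat_lit 0) .nil) .nil)))) 
(.nd (nat_lit 9) 
(.lf (nat_lit 517385) (.g (nat_lit 3318) (.e (nat_lit 196666) (nat_lit 13) (.e (nat_lit 65610) (nat_lit 10) (.e (nat_lit 344117) (nat_lit 21) (.e (nat_lit 516151) (nat_lit 9) (.e (nat_lit 426047) (nat_lit 0) (.e (nat_lit 2426) (nat_lit 157) (.e (nat_lit 4850) (nat_lit 286) (.e (nat_lit 229386) (nat_lit 2) .nil)))))))) (.g (nat_lit 1) (.e (nat_lit 216272) (nat_lit 0) .nil) .nil))) 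
(.lf (nat_lit 517897) (.g (nat_lit 1870) (.e (nat_lit 196666) (nat_lit 13) (.e (nat_lit 65617) (nat_lit 10) (.e (nat_lit 344130) (nat_lit 26) (.e (nat_lit 557090) (nat_lit 12) (.e (nat_lit 164022) (nat_lit 46) .nil))))) (.g (nat_lit 0) (.e (nat_lit 217002) (nat_lit 0) .nil) .nil))))) (.nd (nat_lit 8) (.nd (nat_lit 9) 
(.lf (nat_lit 517257) (.g (nat_lit 3556) (.e (nat_lit 196666) (nat_lit 13) (.e (nat_lit 65610) (nat_lit 10) (.e (nat_lit 344117) (nat_lit 21) (.e (nat_lit 516151) (nat_lit 9) (.e (nat_lit 426042) (nat_lit 0) (.e (nat_lit 2422) (nat_lit 157) (.e (nat_lit 4849) (nat_lit 285) (.e (nat_lit 163870) (nat_lit 2) .nil)))))))) (.g (nat_lit 1) (.e (nat_lit 216144) (nat_lit 0) .nil) .nil))) 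
(.lf (nat_lit 517769) (.g (nat_lit 3229) (.e (nat_lit 196666) (nat_lit 13) (.e (nat_lit 65617) (nat_lit 10) (.e (nat_lit 344127) (nat_lit 26) (.e (nat_lit 557090) (nat_lit 12) (.e (nat_lit 163844) (nat_lit 0) (.e (nat_lit 6255) (nat_lit 337) (.e (nat_lit 2630) (nat_lit 164) (.e (nat_lit 172063) (nat_lit 2) .nil)))))))) (.g (nat_lit 1) (.e (nat_lit 216857) (nat_lit 0) .nil) .nil)))) 
(.nd (nat_lit 9) 
(.lf (nat_lit 517513) (.g (nat_lit 2951) (.e (nat_lit 196666) (nat_lit 13) (.e (nat_lit 65610) (nat_lit 10) (.e (nat_lit 344126) (nat_lit 25) (.e (nat_lit 548889) (nat_lit 9) (.e (nat_lit 65541) (nat_lit 0) (.e (nat_lit 6676) (nat_lit 357) (.e (nat_lit 2664) (nat_lit 167) .nil))))))) (.g (nat_lit 1) (.e (nat_lit 216498) (nat_lit 0) .nil) .nil))) 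
(.lf (nat_lit 518025) (.g (nat_lit 1591) (.e (nat_lit 196666) (nat_lit 13) (.e (nat_lit 65619) (nat_lit 10) (.e (nat_lit 344129) (nat_lit 26) (.e (nat_lit 557090) (nat_lit 12) .nil)))) (.g (nat_lit 0) (.e (nat_lit 217145) (nat_lit 0) .nil) .nil)))))) (.nd (nat_lit 7) (.nd (nat_lit 8) (.nd (nat_lit 9) 
(.lf (nat_lit 517193) (.g (nat_lit 3486) (.e (nat_lit 196666) (nat_lit 13) (.e (nat_lit 65610) (nat_lit 10) (.e (nat_lit 344117) (nat_lit 21) (.e (nat_lit 516151) (nat_lit 9) (.e (nat_lit 426038) (nat_lit 0) (.e (nat_lit 3369) (nat_lit 208) (.e (nat_lit 622627) (nat_lit 13) (.e (nat_lit 2666) (nat_lit 167) .nil)))))))) (.g (nat_lit 1) (.e (nat_lit 216080) (nat_lit 0) .nil) .nil))) 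
(.lf (nat_lit 517705) (.g (nat_lit 3979) (.e (nat_lit 196666) (nat_lit 13) (.e (nat_lit 65610) (nat_lit 10) (.e (nat_lit 344131) (nat_lit 26) (.e (nat_lit 557090) (nat_lit 12) (.e (nat_lit 164020) (nat_lit 45) (.e (nat_lit 696344) (nat_lit 8) (.e (nat_lit 172064) (nat_lit 2) .nil))))))) (.g (nat_lit 1) (.e (nat_lit 216774) (nat_lit 0) .nil) .nil)))) (.nd (nat_lit 9) 
(.lf (nat_lit 517449) (.g (nat_lit 3403) (.e (nat_lit 196666) (nat_lit 13) (.e (nat_lit 65610) (nat_lit 10) (.e (nat_lit 344117) (nat_lit 21) (.e (nat_lit 516159) (nat_lit 10) (.e (nat_lit 434276) (nat_lit 39) (.e (nat_lit 663552) (nat_lit 0) (.e (nat_lit 164) (nat_lit 11) .nil))))))) (.g (nat_lit 1) (.e (nat_lit 216372) (nat_lit 0) .nil) .nil))) 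
(.lf (nat_lit 517961) (.g (nat_lit 2454) (.e (nat_lit 196666) (nat_lit 13) (.e (nat_lit 65617) (nat_lit 10) (.e (nat_lit 344133) (nat_lit 26) (.e (nat_lit 557089) (nat_lit 12) (.e (nat_lit 171776) (nat_lit 48) (.e (nat_lit 720909) (nat_lit 11) (.e (nat_lit 426114) (nat_lit 2) .nil))))))) (.g (nat_lit 1) (.e (nat_lit 217075) (nat_lit 0) .nil) .nil))))) (.nd (nat_lit 8) (.nd (nat_lit 9) 
(.lf (nat_lit 517321) (.g (nat_lit 4914) (.e (nat_lit 196666) (nat_lit 13) (.e (nat_lit 65610) (nat_lit 10) (.e (nat_lit 344117) (nat_lit 21) (.e (nat_lit 516151) (nat_lit 9) (.e (nat_lit 426045) (nat_lit 0) (.e (nat_lit 3370) (nat_lit 208) (.e (nat_lit 622626) (nat_lit 13) (.e (nat_lit 2663) (nat_lit 167) .nil)))))))) (.g (nat_lit 1) (.e (nat_lit 216208) (nat_lit 0) .nil) .nil))) 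
(.lf (nat_lit 517833) (.g (nat_lit 2575) (.e (nat_lit 196666) (nat_lit 13) (.e (nat_lit 65617) (nat_lit 10) (.e (nat_lit 344130) (nat_lit 26) (.e (nat_lit 557087) (nat_lit 11) (.e (nat_lit 24576) (nat_lit 0) (.e (nat_lit 6619) (nat_lit 357) (.e (nat_lit 2668) (nat_lit 167) .nil))))))) (.g (nat_lit 1) (.e (nat_lit 216936) (nat_lit 0) .nil) .nil)))) (.nd (nat_lit 9) 
(.lf (nat_lit 517577) (.g (nat_lit 4732) (.e (nat_lit 196666) (nat_lit 13) (.e (nat_lit 65610) (nat_lit 10) (.e (nat_lit 344129) (nat_lit 26) (.e (nat_lit 557085) (nat_lit 11) (.e (nat_lit 24662) (nat_lit 14) (.e (nat_lit 401425) (nat_lit 2) .nil)))))) (.g (nat_lit 1) (.e (nat_lit 216620) (nat_lit 0) .nil) .nil))) 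
(.lf (nat_lit 518089) (.g (nat_lit 2471) (.e (nat_lit 196666) (nat_lit 13) (.e (nat_lit 65630) (nat_lit 14) (.e (nat_lit 401425) (nat_lit 2) (.e (nat_lit 196669) (nat_lit 14) (.e (nat_lit 73782) (nat_lit 32) .nil))))) (.g (nat_lit 0) (.e (nat_lit 217251) (nat_lit 0) .nil) .nil))))))) (.nd (nat_lit 6) (.nd (nat_lit 7) (.nd (nat_lit 8) (.nd (nat_lit 9) 
(.lf (nat_lit 517161) (.g (nat_lit 3890) (.e (nat_lit 196666) (nat_lit 13) (.e (nat_lit 65610) (nat_lit 10) (.e (nat_lit 344117) (nat_lit 21) (.e (nat_lit 516151) (nat_lit 9) (.e (nat_lit 426038) (nat_lit 0) (.e (nat_lit 2426) (nat_lit 157) (.e (nat_lit 4758) (nat_lit 281) (.e (nat_lit 2517) (nat_lit 157) (.e (nat_lit 2664) (nat_lit 167) .nil))))))))) (.g (nat_lit 1) (.e (nat_lit 216048) (nat_lit 0) .nil) .nil))) 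
(.lf (nat_lit 517673) (.g (nat_lit 2740) (.e (nat_lit 196666) (nat_lit 13) (.e (nat_lit 65610) (nat_lit 10) (.e (nat_lit 344129) (nat_lit 26) (.e (nat_lit 557090) (nat_lit 12) (.e (nat_lit 163850) (nat_lit 0) (.e (nat_lit 6428) (nat_lit 342) (.e (nat_lit 237312) (nat_lit 12) (.e (nat_lit 426123) (nat_lit 2) .nil)))))))) (.g (nat_lit 1) (.e (nat_lit 216739) (nat_lit 0) .nil) .nil)))) 
(.nd (nat_lit 9) 
(.lf (nat_lit 517417) (.g (nat_lit 4639) (.e (nat_lit 196666) (nat_lit 13) (.e (nat_lit 65610) (nat_lit 10) (.e (nat_lit 344117) (nat_lit 21) (.e (nat_lit 516151) (nat_lit 9) (.e (nat_lit 426047) (nat_lit 0) (.e (nat_lit 3371) (nat_lit 208) (.e (nat_lit 622625) (nat_lit 13) (.e (nat_lit 2663) (nat_lit 167) .nil)))))))) (.g (nat_lit 1) (.e (nat_lit 216304) (nat_lit 0) .nil) .nil))) 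
(.lf (nat_lit 517929) (.g (nat_lit 2019) (.e (nat_lit 196666) (nat_lit 13) (.e (nat_lit 65617) (nat_lit 10) (.e (nat_lit 344132) (nat_lit 26) (.e (nat_lit 557093) (nat_lit 12) (.e (nat_lit 164023) (nat_lit 46) .nil))))) (.g (nat_lit 0) (.e (nat_lit 217038) (nat_lit 0) .nil) .nil))))) (.nd (nat_lit 8) (.nd (nat_lit 9) 
(.lf (nat_lit 517289) (.g (nat_lit 3931) (.e (nat_lit 196666) (nat_lit 13) (.e (nat_lit 65610) (nat_lit 10) (.e (nat_lit 344117) (nat_lit 21) (.e (nat_lit 516151) (nat_lit 9) (.e (nat_lit 426045) (nat_lit 0) (.e (nat_lit 2416) (nat_lit 157) (.e (nat_lit 4849) (nat_lit 285) (.e (nat_lit 163870) (nat_lit 2) .nil)))))))) (.g (nat_lit 1) (.e (nat_lit 216176) (nat_lit 0) .nil) .nil))) 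
(.lf (nat_lit 517801) (.g (nat_lit 3249) (.e (nat_lit 196666) (nat_lit 13) (.e (nat_lit 65617) (nat_lit 10) (.e (nat_lit 344127) (nat_lit 26) (.e (nat_lit 557090) (nat_lit 12) (.e (nat_lit 164018) (nat_lit 45) (.e (nat_lit 696344) (nat_lit 8) (.e (nat_lit 172062) (nat_lit 2) .nil))))))) (.g (nat_lit 1) (.e (nat_lit 216892) (nat_lit 0) .nil) .nil)))) (.nd (nat_lit 9) 
(.lf (nat_lit 517545) (.g (nat_lit 2055) (.e (nat_lit 196666) (nat_lit 13) (.e (nat_lit 65610) (nat_lit 10) (.e (nat_lit 344129) (nat_lit 26) (.e (nat_lit 557067) (nat_lit 9) (.e (nat_lit 2464) (nat_lit 157) (.e (nat_lit 3468) (nat_lit 217) (.e (nat_lit 696343) (nat_lit 8) (.e (nat_lit 172064) (nat_lit 2) .nil)))))))) (.g (nat_lit 1) (.e (nat_lit 216548) (nat_lit 0) .nil) .nil))) 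
(.lf (nat_lit 518057) (.g (nat_lit 2673) (.e (nat_lit 196666) (nat_lit 13) (.e (nat_lit 65624) (nat_lit 12) (.e (nat_lit 385074) (nat_lit 31) (.e (nat_lit 573489) (nat_lit 14) (.e (nat_lit 81664) (nat_lit 32) (.e (nat_lit 2661) (nat_lit 167) .nil)))))) (.g (nat_lit 1) (.e (nat_lit 217197) (nat_lit 0) .nil) .nil)))))) (.nd (nat_lit 7) (.nd (nat_lit 8) (.nd (nat_lit 9) 
(.lf (nat_lit 517225) (.g (nat_lit 3884) (.e (nat_lit 196666) (nat_lit 13) (.e (nat_lit 65610) (nat_lit 10) (.e (nat_lit 344117) (nat_lit 21) (.e (nat_lit 516151) (nat_lit 9) (.e (nat_lit 426040) (nat_lit 0) (.e (nat_lit 2515) (nat_lit 157) (.e (nat_lit 5948) (nat_lit 322) (.e (nat_lit 65280) (nat_lit 63) .nil)))))))) (.g (nat_lit 1) (.e (nat_lit 216112) (nat_lit 0) .nil) .nil))) 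
(.lf (nat_lit 517737) (.g (nat_lit 4491) (.e (nat_lit 196666) (nat_lit 13) (.e (nat_lit 65617) (nat_lit 10) (.e (nat_lit 344117) (nat_lit 21) (.e (nat_lit 516139) (nat_lit 7) (.e (nat_lit 409617) (nat_lit 10) (.e (nat_lit 5710) (nat_lit 312) (.e (nat_lit 2663) (nat_lit 167) .nil))))))) (.g (nat_lit 1) (.e (nat_lit 216813) (nat_lit 0) .nil) .nil)))) (.nd (nat_lit 9) 
(.lf (nat_lit 517481) (.g (nat_lit 3119) (.e (nat_lit 196666) (nat_lit 13) (.e (nat_lit 65610) (nat_lit 10) (.e (nat_lit 344117) (nat_lit 21) (.e (nat_lit 516160) (nat_lit 10) (.e (nat_lit 434277) (nat_lit 39) (.e (nat_lit 663555) (nat_lit 0) (.e (nat_lit 7936) (nat_lit 11) .nil))))))) (.g (nat_lit 1) (.e (nat_lit 216435) (nat_lit 0) .nil) .nil))) 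
(.lf (nat_lit 517993) (.g (nat_lit 3596) (.e (nat_lit 196666) (nat_lit 13) (.e (nat_lit 65617) (nat_lit 10) (.e (nat_lit 344133) (nat_lit 26) (.e (nat_lit 557091) (nat_lit 12) (.e (nat_lit 164022) (nat_lit 46) (.e (nat_lit 704629) (nat_lit 9) (.e (nat_lit 373) (nat_lit 32) (.e (nat_lit 426120) (nat_lit 2) .nil)))))))) (.g (nat_lit 1) (.e (nat_lit 217107) (nat_lit 0) .nil) .nil))))) 
(.nd (nat_lit 8) (.nd (nat_lit 9) 
(.lf (nat_lit 517353) (.g (nat_lit 4075) (.e (nat_lit 196666) (nat_lit 13) (.e (nat_lit 65610) (nat_lit 10) (.e (nat_lit 344117) (nat_lit 21) (.e (nat_lit 516151) (nat_lit 9) (.e (nat_lit 426050) (nat_lit 0) (.e (nat_lit 3366) (nat_lit 208) (.e (nat_lit 622627) (nat_lit 13) (.e (nat_lit 2665) (nat_lit 167) .nil)))))))) (.g (nat_lit 1) (.e (nat_lit 216240) (nat_lit 0) .nil) .nil))) 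
(.lf (nat_lit 517865) (.g (nat_lit 1842) (.e (nat_lit 196666) (nat_lit 13) (.e (nat_lit 65617) (nat_lit 10) (.e (nat_lit 344130) (nat_lit 26) (.e (nat_lit 557090) (nat_lit 12) (.e (nat_lit 163843) (nat_lit 0) .nil))))) (.g (nat_lit 0) (.e (nat_lit 216969) (nat_lit 0) .nil) .nil)))) (.nd (nat_lit 9) 
(.lf (nat_lit 517609) (.g (nat_lit 2380) (.e (nat_lit 196666) (nat_lit 13) (.e (nat_lit 65610) (nat_lit 10) (.e (nat_lit 344129) (nat_lit 26) (.e (nat_lit 557089) (nat_lit 12) (.e (nat_lit 163848) (nat_lit 0) (.e (nat_lit 6254) (nat_lit 337) (.e (nat_lit 2630) (nat_lit 164) (.e (nat_lit 172062) (nat_lit 2) .nil)))))))) (.g (nat_lit 1) (.e (nat_lit 216656) (nat_lit 0) .nil) .nil))) 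
(.lf (nat_lit 518121) (.g (nat_lit 3215) (.e (nat_lit 196668) (nat_lit 14) (.e (nat_lit 73746) (nat_lit 3) (.e (nat_lit 516115) (nat_lit 1) (.e (nat_lit 164179) (nat_lit 154) (.e (nat_lit 57379) (nat_lit 3) .nil))))) (.g (nat_lit 0) (.e (nat_lit 217343) (nat_lit 0) .nil) .nil)))))))) (.nd (nat_lit 5) (.nd (nat_lit 6) (.nd (nat_lit 7) (.nd (nat_lit 8) (.nd (nat_lit 9) 
(.lf (nat_lit 517145) (.g (nat_lit 4772) (.e (nat_lit 196666) (nat_lit 13) (.e (nat_lit 65610) (nat_lit 10) (.e (nat_lit 344117) (nat_lit 21) (.e (nat_lit 516151) (nat_lit 9) (.e (nat_lit 426038) (nat_lit 0) (.e (nat_lit 2422) (nat_lit 157) (.e (nat_lit 4848) (nat_lit 285) (.e (nat_lit 163870) (nat_lit 2) .nil)))))))) (.g (nat_lit 1) (.e (nat_lit 216032) (nat_lit 0) .nil) .nil))) 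
(.lf (nat_lit 517657) (.g (nat_lit 2851) (.e (nat_lit 196666) (nat_lit 13) (.e (nat_lit 65610) (nat_lit 10) (.e (nat_lit 344129) (nat_lit 26) (.e (nat_lit 557090) (nat_lit 12) (.e (nat_lit 163847) (nat_lit 0) (.e (nat_lit 6418) (nat_lit 341) (.e (nat_lit 171776) (nat_lit 12) (.e (nat_lit 426123) (nat_lit 2) .nil)))))))) (.g (nat_lit 1) (.e (nat_lit 216722) (nat_lit 0) .nil) .nil)))) 
(.nd (nat_lit 9) 
(.lf (nat_lit 517401) (.g (nat_lit 3301) (.e (nat_lit 196666) (nat_lit 13) (.e (nat_lit 65610) (nat_lit 10) (.e (nat_lit 344117) (nat_lit 21) (.e (nat_lit 516151) (nat_lit 9) (.e (nat_lit 426047) (nat_lit 0) (.e (nat_lit 3369) (nat_lit 208) (.e (nat_lit 622626) (nat_lit 13) (.e (nat_lit 2666) (nat_lit 167) .nil)))))))) (.g (nat_lit 1) (.e (nat_lit 216288) (nat_lit 0) .nil) .nil))) 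
(.lf (nat_lit 517913) (.g (nat_lit 1399) (.e (nat_lit 196666) (nat_lit 13) (.e (nat_lit 65617) (nat_lit 10) (.e (nat_lit 344132) (nat_lit 26) (.e (nat_lit 557072) (nat_lit 9) .nil)))) (.g (nat_lit 0) (.e (nat_lit 217019) (nat_lit 0) .nil) .nil))))) (.nd (nat_lit 8) (.nd (nat_lit 9) 
(.lf (nat_lit 517273) (.g (nat_lit 2440) (.e (nat_lit 196666) (nat_lit 13) (.e (nat_lit 65610) (nat_lit 10) (.e (nat_lit 344117) (nat_lit 21) (.e (nat_lit 516151) (nat_lit 9) (.e (nat_lit 426042) (nat_lit 0) (.e (nat_lit 2427) (nat_lit 157) (.e (nat_lit 5942) (nat_lit 322) (.e (nat_lit 65280) (nat_lit 63) .nil)))))))) (.g (nat_lit 1) (.e (nat_lit 216160) (nat_lit 0) .nil) .nil))) 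
(.lf (nat_lit 517785) (.g (nat_lit 2845) (.e (nat_lit 196666) (nat_lit 13) (.e (nat_lit 65617) (nat_lit 10) (.e (nat_lit 344127) (nat_lit 26) (.e (nat_lit 557090) (nat_lit 12) (.e (nat_lit 163849) (nat_lit 0) (.e (nat_lit 6255) (nat_lit 337) (.e (nat_lit 2630) (nat_lit 164) (.e (nat_lit 172064) (nat_lit 2) .nil)))))))) (.g (nat_lit 1) (.e (nat_lit 216873) (nat_lit 0) .nil) .nil)))) 
(.nd (nat_lit 9) 
(.lf (nat_lit 517529) (.g (nat_lit 1886) (.e (nat_lit 196666) (nat_lit 13) (.e (nat_lit 65610) (nat_lit 10) (.e (nat_lit 344129) (nat_lit 26) (.e (nat_lit 557065) (nat_lit 9) (.e (nat_lit 304) (nat_lit 22) .nil))))) (.g (nat_lit 0) (.e (nat_lit 216519) (nat_lit 0) .nil) .nil))) 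
(.lf (nat_lit 518041) (.g (nat_lit 628) (.e (nat_lit 196666) (nat_lit 13) (.e (nat_lit 65624) (nat_lit 12) (.e (nat_lit 385059) (nat_lit 22) .nil))) (.g (nat_lit 0) (.e (nat_lit 217171) (nat_lit 0) .nil) .nil)))))) (.nd (nat_lit 7) (.nd (nat_lit 8) (.nd (nat_lit 9) 
(.lf (nat_lit 517209) (.g (nat_lit 4123) (.e (nat_lit 196666) (nat_lit 13) (.e (nat_lit 65610) (nat_lit 10) (.e (nat_lit 344117) (nat_lit 21) (.e (nat_lit 516151) (nat_lit 9) (.e (nat_lit 426040) (nat_lit 0) (.e (nat_lit 2422) (nat_lit 157) (.e (nat_lit 4849) (nat_lit 285) (.e (nat_lit 163869) (nat_lit 2) .nil)))))))) (.g (nat_lit 1) (.e (nat_lit 216096) (nat_lit 0) .nil) .nil))) 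
(.lf (nat_lit 517721) (.g (nat_lit 1148) (.e (nat_lit 196666) (nat_lit 13) (.e (nat_lit 65617) (nat_lit 10) (.e (nat_lit 344117) (nat_lit 21) (.e (nat_lit 516102) (nat_lit 0) .nil)))) (.g (nat_lit 0) (.e (nat_lit 216797) (nat_lit 0) .nil) .nil)))) (.nd (nat_lit 9) 
(.lf (nat_lit 517465) (.g (nat_lit 2966) (.e (nat_lit 196666) (nat_lit 13) (.e (nat_lit 65610) (nat_lit 10) (.e (nat_lit 344117) (nat_lit 21) (.e (nat_lit 516160) (nat_lit 10) (.e (nat_lit 434274) (nat_lit 39) (.e (nat_lit 663557) (nat_lit 0) (.e (nat_lit 7936) (nat_lit 11) .nil))))))) (.g (nat_lit 1) (.e (nat_lit 216418) (nat_lit 0) .nil) .nil))) 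
(.lf (nat_lit 517977) (.g (nat_lit 2567) (.e (nat_lit 196666) (nat_lit 13) (.e (nat_lit 65617) (nat_lit 10) (.e (nat_lit 344133) (nat_lit 26) (.e (nat_lit 557091) (nat_lit 12) (.e (nat_lit 163847) (nat_lit 0) (.e (nat_lit 6420) (nat_lit 341) (.e (nat_lit 163843) (nat_lit 0) (.e (nat_lit 7936) (nat_lit 388) (.e (nat_lit 2668) (nat_lit 167) .nil))))))))) (.g (nat_lit 1) (.e (nat_lit 217091) (nat_lit 0) .nil) .nil))))) 
(.nd (nat_lit 8) (.nd (nat_lit 9) 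
(.lf (nat_lit 517337) (.g (nat_lit 3766) (.e (nat_lit 196666) (nat_lit 13) (.e (nat_lit 65610) (nat_lit 10) (.e (nat_lit 344117) (nat_lit 21) (.e (nat_lit 516151) (nat_lit 9) (.e (nat_lit 426049) (nat_lit 0) (.e (nat_lit 3366) (nat_lit 208) (.e (nat_lit 622623) (nat_lit 13) (.e (nat_lit 2668) (nat_lit 167) .nil)))))))) (.g (nat_lit 1) (.e (nat_lit 216224) (nat_lit 0) .nil) .nil))) 
(.lf (nat_lit 517849) (.g (nat_lit 2251) (.e (nat_lit 196666) (nat_lit 13) (.e (nat_lit 65617) (nat_lit 10) (.e (nat_lit 344130) (nat_lit 26) (.e (nat_lit 557087) (nat_lit 11) (.e (nat_lit 24589) (nat_lit 0) (.e (nat_lit 6676) (nat_lit 357) (.e (nat_lit 2664) (nat_lit 167) .nil))))))) (.g (nat_lit 1) (.e (nat_lit 216952) (nat_lit 0) .nil) .nil)))) (.nd (nat_lit 9) 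
(.lf (nat_lit 517593) (.g (nat_lit 3199) (.e (nat_lit 196666) (nat_lit 13) (.e (nat_lit 65610) (nat_lit 10) (.e (nat_lit 344129) (nat_lit 26) (.e (nat_lit 557087) (nat_lit 11) (.e (nat_lit 24594) (nat_lit 0) (.e (nat_lit 7936) (nat_lit 357) (.e (nat_lit 2668) (nat_lit 167) .nil))))))) (.g (nat_lit 1) (.e (nat_lit 216636) (nat_lit 0) .nil) .nil))) 
(.lf (nat_lit 518105) (.g (nat_lit 1449) (.e (nat_lit 196667) (nat_lit 14) (.e (nat_lit 73754) (nat_lit 8) (.e (nat_lit 557105) (nat_lit 14) (.e (nat_lit 180252) (nat_lit 10) .nil)))) (.g (nat_lit 0) (.e (nat_lit 217283) (nat_lit 0) .nil) .nil))))))) (.nd (nat_lit 6) (.nd (nat_lit 7) (.nd (nat_lit 8) (.nd (nat_lit 9) 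
(.lf (nat_lit 517177) (.g (nat_lit 3649) (.e (nat_lit 196666) (nat_lit 13) (.e (nat_lit 65610) (nat_lit 10) (.e (nat_lit 344117) (nat_lit 21) (.e (nat_lit 516151) (nat_lit 9) (.e (nat_lit 426038) (nat_lit 0) (.e (nat_lit 3366) (nat_lit 208) (.e (nat_lit 622620) (nat_lit 13) (.e (nat_lit 2666) (nat_lit 167) .nil)))))))) (.g (nat_lit 1) (.e (nat_lit 216064) (nat_lit 0) .nil) .nil))) 
(.lf (nat_lit 517689) (.g (nat_lit 2781) (.e (nat_lit 196666) (nat_lit 13) (.e (nat_lit 65610) (nat_lit 10) (.e (nat_lit 344129) (nat_lit 26) (.e (nat_lit 557090) (nat_lit 12) (.e (nat_lit 164020) (nat_lit 45) (.e (nat_lit 696329) (nat_lit 5) (.e (nat_lit 2878) (nat_lit 184) (.e (nat_lit 426125) (nat_lit 2) .nil)))))))) (.g (nat_lit 1) (.e (nat_lit 216758) (nat_lit 0) .nil) .nil)))) 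
(.nd (nat_lit 9) 
(.lf (nat_lit 517433) (.g (nat_lit 2615) (.e (nat_lit 196666) (nat_lit 13) (.e (nat_lit 65610) (nat_lit 10) (.e (nat_lit 344117) (nat_lit 21) (.e (nat_lit 516159) (nat_lit 10) (.e (nat_lit 434208) (nat_lit 18) (.e (nat_lit 4751) (nat_lit 281) (.e (nat_lit 2536) (nat_lit 157) (.e (nat_lit 2666) (nat_lit 167) .nil)))))))) (.g (nat_lit 1) (.e (nat_lit 216351) (nat_lit 0) .nil) .nil))) 
(.lf (nat_lit 517945) (.g (nat_lit 1974) (.e (nat_lit 196666) (nat_lit 13) (.e (nat_lit 65617) (nat_lit 10) (.e (nat_lit 344133) (nat_lit 26) (.e (nat_lit 557084) (nat_lit 10) .nil)))) (.g (nat_lit 0) (.e (nat_lit 217057) (nat_lit 0) .nil) .nil))))) (.nd (nat_lit 8) (.nd (nat_lit 9) 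
(.lf (nat_lit 517305) (.g (nat_lit 4109) (.e (nat_lit 196666) (nat_lit 13) (.e (nat_lit 65610) (nat_lit 10) (.e (nat_lit 344117) (nat_lit 21) (.e (nat_lit 516151) (nat_lit 9) (.e (nat_lit 426045) (nat_lit 0) (.e (nat_lit 3366) (nat_lit 208) (.e (nat_lit 622627) (nat_lit 13) (.e (nat_lit 2665) (nat_lit 167) .nil)))))))) (.g (nat_lit 1) (.e (nat_lit 216192) (nat_lit 0) .nil) .nil))) 
(.lf (nat_lit 517817) (.g (nat_lit 1831) (.e (nat_lit 196666) (nat_lit 13) (.e (nat_lit 65617) (nat_lit 10) (.e (nat_lit 344130) (nat_lit 26) (.e (nat_lit 557065) (nat_lit 9) (.e (nat_lit 326) (nat_lit 25) .nil))))) (.g (nat_lit 0) (.e (nat_lit 216908) (nat_lit 0) .nil) .nil)))) (.nd (nat_lit 9) 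
(.lf (nat_lit 517561) (.g (nat_lit 1491) (.e (nat_lit 196666) (nat_lit 13) (.e (nat_lit 65610) (nat_lit 10) (.e (nat_lit 344129) (nat_lit 26) (.e (nat_lit 557069) (nat_lit 9) .nil)))) (.g (nat_lit 0) (.e (nat_lit 216571) (nat_lit 0) .nil) .nil))) 
(.lf (nat_lit 518073) (.g (nat_lit 2773) (.e (nat_lit 196666) (nat_lit 13) (.e (nat_lit 65629) (nat_lit 14) (.e (nat_lit 401425) (nat_lit 2) (.e (nat_lit 196666) (nat_lit 13) (.e (nat_lit 65630) (nat_lit 14) .nil))))) (.g (nat_lit 0) (.e (nat_lit 217231) (nat_lit 0) .nil) .nil)))))) (.nd (nat_lit 7) (.nd (nat_lit 8) (.nd (nat_lit 9) 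
(.lf (nat_lit 517241) (.g (nat_lit 3436) (.e (nat_lit 196666) (nat_lit 13) (.e (nat_lit 65610) (nat_lit 10) (.e (nat_lit 344117) (nat_lit 21) (.e (nat_lit 516151) (nat_lit 9) (.e (nat_lit 426040) (nat_lit 0) (.e (nat_lit 3370) (nat_lit 208) (.e (nat_lit 622620) (nat_lit 13) (.e (nat_lit 2666) (nat_lit 167) .nil)))))))) (.g (nat_lit 1) (.e (nat_lit 216128) (nat_lit 0) .nil) .nil))) 
(.lf (nat_lit 517753) (.g (nat_lit 2409) (.e (nat_lit 196666) (nat_lit 13) (.e (nat_lit 65617) (nat_lit 10) (.e (nat_lit 344126) (nat_lit 25) (.e (nat_lit 548889) (nat_lit 9) (.e (nat_lit 65541) (nat_lit 0) .nil))))) (.g (nat_lit 0) (.e (nat_lit 216834) (nat_lit 0) .nil) .nil)))) (.nd (nat_lit 9) 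
(.lf (nat_lit 517497) (.g (nat_lit 3596) (.e (nat_lit 196666) (nat_lit 13) (.e (nat_lit 65610) (nat_lit 10) (.e (nat_lit 344117) (nat_lit 21) (.e (nat_lit 516185) (nat_lit 16) (.e (nat_lit 491520) (nat_lit 0) (.e (nat_lit 7936) (nat_lit 357) (.e (nat_lit 2668) (nat_lit 167) .nil))))))) (.g (nat_lit 1) (.e (nat_lit 216458) (nat_lit 0) .nil) .nil))) 
(.lf (nat_lit 518009) (.g (nat_lit 4380) (.e (nat_lit 196666) (nat_lit 13) (.e (nat_lit 65619) (nat_lit 10) (.e (nat_lit 344117) (nat_lit 21) (.e (nat_lit 516139) (nat_lit 7) (.e (nat_lit 409608) (nat_lit 10) .nil))))) (.g (nat_lit 0) (.e (nat_lit 217129) (nat_lit 0) .nil) .nil))))) (.nd (nat_lit 8) (.nd (nat_lit 9) 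
(.lf (nat_lit 517369) (.g (nat_lit 4685) (.e (nat_lit 196666) (nat_lit 13) (.e (nat_lit 65610) (nat_lit 10) (.e (nat_lit 344117) (nat_lit 21) (.e (nat_lit 516151) (nat_lit 9) (.e (nat_lit 426047) (nat_lit 0) (.e (nat_lit 2423) (nat_lit 157) (.e (nat_lit 4848) (nat_lit 285) (.e (nat_lit 163870) (nat_lit 2) .nil)))))))) (.g (nat_lit 1) (.e (nat_lit 216256) (nat_lit 0) .nil) .nil))) 
(.lf (nat_lit 517881) (.g (nat_lit 2864) (.e (nat_lit 196666) (nat_lit 13) (.e (nat_lit 65617) (nat_lit 10) (.e (nat_lit 344130) (nat_lit 26) (.e (nat_lit 557090) (nat_lit 12) (.e (nat_lit 163849) (nat_lit 0) (.e (nat_lit 6252) (nat_lit 337) (.e (nat_lit 2630) (nat_lit 164) (.e (nat_lit 172062) (nat_lit 2) .nil)))))))) (.g (nat_lit 1) (.e (nat_lit 216986) (nat_lit 0) .nil) .nil)))) 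
(.nd (nat_lit 9) 
(.lf (nat_lit 517625) (.g (nat_lit 2721) (.e (nat_lit 196666) (nat_lit 13) (.e (nat_lit 65610) (nat_lit 10) (.e (nat_lit 344129) (nat_lit 26) (.e (nat_lit 557090) (nat_lit 12) (.e (nat_lit 163840) (nat_lit 0) (.e (nat_lit 6420) (nat_lit 341) (.e (nat_lit 163900) (nat_lit 12) (.e (nat_lit 426125) (nat_lit 2) .nil)))))))) (.g (nat_lit 1) (.e (nat_lit 216673) (nat_lit 0) .nil) .nil))) 
(.lf (nat_lit 518137) (.g (nat_lit 781) (.e (nat_lit 196668) (nat_lit 14) (.e (nat_lit 73746) (nat_lit 3) (.e (nat_lit 516118) (nat_lit 1) .nil))) (.g (nat_lit 0) (.e (nat_lit 217417) (nat_lit 0) .nil) .nil)))))))))) (.nd (nat_lit 3) (.nd (nat_lit 4) (.nd (nat_lit 5) (.nd (nat_lit 6) (.nd (nat_lit 7) (.nd (nat_lit 8) (.nd (nat_lit 9) 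
(.lf (nat_lit 517125) (.g (nat_lit 4104) (.e (nat_lit 196666) (nat_lit 13) (.e (nat_lit 65610) (nat_lit 10) (.e (nat_lit 344117) (nat_lit 21) (.e (nat_lit 516151) (nat_lit 9) (.e (nat_lit 426037) (nat_lit 0) (.e (nat_lit 3369) (nat_lit 208) (.e (nat_lit 622627) (nat_lit 13) (.e (nat_lit 2663) (nat_lit 167) .nil)))))))) (.g (nat_lit 1) (.e (nat_lit 216012) (nat_lit 0) .nil) .nil))) 
(.lf (nat_lit 517637) (.g (nat_lit 1767) (.e (nat_lit 196666) (nat_lit 13) (.e (nat_lit 65610) (nat_lit 10) (.e (nat_lit 344129) (nat_lit 26) (.e (nat_lit 557090) (nat_lit 12) (.e (nat_lit 163843) (nat_lit 0) .nil))))) (.g (nat_lit 0) (.e (nat_lit 216695) (nat_lit 0) .nil) .nil)))) (.nd (nat_lit 9) 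
(.lf (nat_lit 517381) (.g (nat_lit 3875) (.e (nat_lit 196666) (nat_lit 13) (.e (nat_lit 65610) (nat_lit 10) (.e (nat_lit 344117) (nat_lit 21) (.e (nat_lit 516151) (nat_lit 9) (.e (nat_lit 426047) (nat_lit 0) (.e (nat_lit 2425) (nat_lit 157) (.e (nat_lit 7936) (nat_lit 285) (.e (nat_lit 163869) (nat_lit 2) .nil)))))))) (.g (nat_lit 1) (.e (nat_lit 216268) (nat_lit 0) .nil) .nil))) 
(.lf (nat_lit 517893) (.g (nat_lit 2243) (.e (nat_lit 196666) (nat_lit 13) (.e (nat_lit 65617) (nat_lit 10) (.e (nat_lit 344130) (nat_lit 26) (.e (nat_lit 557090) (nat_lit 12) (.e (nat_lit 164019) (nat_lit 45) .nil))))) (.g (nat_lit 0) (.e (nat_lit 216998) (nat_lit 0) .nil) .nil))))) (.nd (nat_lit 8) (.nd (nat_lit 9) 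
(.lf (nat_lit 517253) (.g (nat_lit 3748) (.e (nat_lit 196666) (nat_lit 13) (.e (nat_lit 65610) (nat_lit 10) (.e (nat_lit 344117) (nat_lit 21) (.e (nat_lit 516151) (nat_lit 9) (.e (nat_lit 426041) (nat_lit 0) (.e (nat_lit 3369) (nat_lit 208) (.e (nat_lit 622626) (nat_lit 13) (.e (nat_lit 2663) (nat_lit 167) .nil)))))))) (.g (nat_lit 1) (.e (nat_lit 216140) (nat_lit 0) .nil) .nil))) 
(.lf (nat_lit 517765) (.g (nat_lit 3034) (.e (nat_lit 196666) (nat_lit 13) (.e (nat_lit 65617) (nat_lit 10) (.e (nat_lit 344127) (nat_lit 26) (.e (nat_lit 557090) (nat_lit 12) (.e (nat_lit 163843) (nat_lit 0) (.e (nat_lit 6255) (nat_lit 337) (.e (nat_lit 2725) (nat_lit 172) (.e (nat_lit 237586) (nat_lit 2) .nil)))))))) (.g (nat_lit 1) (.e (nat_lit 216853) (nat_lit 0) .nil) .nil)))) 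
(.nd (nat_lit 9) 
(.lf (nat_lit 517509) (.g (nat_lit 4197) (.e (nat_lit 196666) (nat_lit 13) (.e (nat_lit 65610) (nat_lit 10) (.e (nat_lit 344118) (nat_lit 21) (.e (nat_lit 516139) (nat_lit 7) (.e (nat_lit 409616) (nat_lit 10) (.e (nat_lit 7936) (nat_lit 312) (.e (nat_lit 2666) (nat_lit 167) .nil))))))) (.g (nat_lit 1) (.e (nat_lit 216479) (nat_lit 0) .nil) .nil))) 
(.lf (nat_lit 518021) (.g (nat_lit 1269) (.e (nat_lit 196666) (nat_lit 13) (.e (nat_lit 65619) (nat_lit 10) (.e (nat_lit 344126) (nat_lit 25) (.e (nat_lit 548890) (nat_lit 10) .nil)))) (.g (nat_lit 0) (.e (nat_lit 217141) (nat_lit 0) .nil) .nil)))))) (.nd (nat_lit 7) (.nd (nat_lit 8) (.nd (nat_lit 9) 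
(.lf (nat_lit 517189) (.g (nat_lit 3750) (.e (nat_lit 196666) (nat_lit 13) (.e (nat_lit 65610) (nat_lit 10) (.e (nat_lit 344117) (nat_lit 21) (.e (nat_lit 516151) (nat_lit 9) (.e (nat_lit 426038) (nat_lit 0) (.e (nat_lit 3369) (nat_lit 208) (.e (nat_lit 622624) (nat_lit 13) (.e (nat_lit 2668) (nat_lit 167) .nil)))))))) (.g (nat_lit 1) (.e (nat_lit 216076) (nat_lit 0) .nil) .nil))) 
(.lf (nat_lit 517701) (.g (nat_lit 2399) (.e (nat_lit 196666) (nat_lit 13) (.e (nat_lit 65610) (nat_lit 10) (.e (nat_lit 344131) (nat_lit 26) (.e (nat_lit 557090) (nat_lit 12) (.e (nat_lit 164020) (nat_lit 45) (.e (nat_lit 696328) (nat_lit 5) (.e (nat_lit 2884) (nat_lit 184) (.e (nat_lit 426125) (nat_lit 2) .nil)))))))) (.g (nat_lit 1) (.e (nat_lit 216770) (nat_lit 0) .nil) .nil)))) 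
(.nd (nat_lit 9) 
(.lf (nat_lit 517445) (.g (nat_lit 3341) (.e (nat_lit 196666) (nat_lit 13) (.e (nat_lit 65610) (nat_lit 10) (.e (nat_lit 344117) (nat_lit 21) (.e (nat_lit 516159) (nat_lit 10) (.e (nat_lit 434275) (nat_lit 39) (.e (nat_lit 663559) (nat_lit 0) (.e (nat_lit 7936) (nat_lit 11) .nil))))))) (.g (nat_lit 1) (.e (nat_lit 216368) (nat_lit 0) .nil) .nil))) 
(.lf (nat_lit 517957) (.g (nat_lit 4125) (.e (nat_lit 196666) (nat_lit 13) (.e (nat_lit 65617) (nat_lit 10) (.e (nat_lit 344133) (nat_lit 26) (.e (nat_lit 557089) (nat_lit 12) (.e (nat_lit 163849) (nat_lit 0) (.e (nat_lit 6420) (nat_lit 341) (.e (nat_lit 163900) (nat_lit 12) (.e (nat_lit 426125) (nat_lit 2) .nil)))))))) (.g (nat_lit 1) (.e (nat_lit 217071) (nat_lit 0) .nil) .nil))))) 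
(.nd (nat_lit 8) (.nd (nat_lit 9) 
(.lf (nat_lit 517317) (.g (nat_lit 3694) (.e (nat_lit 196666) (nat_lit 13) (.e (nat_lit 65610) (nat_lit 10) (.e (nat_lit 344117) (nat_lit 21) (.e (nat_lit 516151) (nat_lit 9) (.e (nat_lit 426045) (nat_lit 0) (.e (nat_lit 3370) (nat_lit 208) (.e (nat_lit 622620) (nat_lit 13) (.e (nat_lit 2668) (nat_lit 167) .nil)))))))) (.g (nat_lit 1) (.e (nat_lit 216204) (nat_lit 0) .nil) .nil))) 
(.lf (nat_lit 517829) (.g (nat_lit 2165) (.e (nat_lit 196666) (nat_lit 13) (.e (nat_lit 65617) (nat_lit 10) (.e (nat_lit 344130) (nat_lit 26) (.e (nat_lit 557067) (nat_lit 9) (.e (nat_lit 2739) (nat_lit 174) .nil))))) (.g (nat_lit 0) (.e (nat_lit 216930) (nat_lit 0) .nil) .nil)))) (.nd (nat_lit 9) 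
(.lf (nat_lit 517573) (.g (nat_lit 1528) (.e (nat_lit 196666) (nat_lit 13) (.e (nat_lit 65610) (nat_lit 10) (.e (nat_lit 344129) (nat_lit 26) (.e (nat_lit 557085) (nat_lit 11) (.e (nat_lit 24577) (nat_lit 0) .nil))))) (.g (nat_lit 0) (.e (nat_lit 216616) (nat_lit 0) .nil) .nil))) 
(.lf (nat_lit 518085) (.g (nat_lit 2772) (.e (nat_lit 196666) (nat_lit 13) (.e (nat_lit 65630) (nat_lit 14) (.e (nat_lit 401425) (nat_lit 2) (.e (nat_lit 196661) (nat_lit 12) (.e (nat_lit 57723) (nat_lit 180) .nil))))) (.g (nat_lit 0) (.e (nat_lit 217247) (nat_lit 0) .nil) .nil))))))) (.nd (nat_lit 6) (.nd (nat_lit 7) (.nd (nat_lit 8) (.nd (nat_lit 9) 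
(.lf (nat_lit 517157) (.g (nat_lit 4208) (.e (nat_lit 196666) (nat_lit 13) (.e (nat_lit 65610) (nat_lit 10) (.e (nat_lit 344117) (nat_lit 21) (.e (nat_lit 516151) (nat_lit 9) (.e (nat_lit 426038) (nat_lit 0) (.e (nat_lit 2423) (nat_lit 157) (.e (nat_lit 7936) (nat_lit 285) (.e (nat_lit 163869) (nat_lit 2) .nil)))))))) (.g (nat_lit 1) (.e (nat_lit 216044) (nat_lit 0) .nil) .nil))) 
(.lf (nat_lit 517669) (.g (nat_lit 2665) (.e (nat_lit 196666) (nat_lit 13) (.e (nat_lit 65610) (nat_lit 10) (.e (nat_lit 344129) (nat_lit 26) (.e (nat_lit 557090) (nat_lit 12) (.e (nat_lit 163849) (nat_lit 0) (.e (nat_lit 6255) (nat_lit 337) (.e (nat_lit 2725) (nat_lit 172) (.e (nat_lit 237587) (nat_lit 2) .nil)))))))) (.g (nat_lit 1) (.e (nat_lit 216735) (nat_lit 0) .nil) .nil)))) 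
(.nd (nat_lit 9) 
(.lf (nat_lit 517413) (.g (nat_lit 4457) (.e (nat_lit 196666) (nat_lit 13) (.e (nat_lit 65610) (nat_lit 10) (.e (nat_lit 344117) (nat_lit 21) (.e (nat_lit 516151) (nat_lit 9) (.e (nat_lit 426047) (nat_lit 0) (.e (nat_lit 3371) (nat_lit 208) (.e (nat_lit 622620) (nat_lit 13) (.e (nat_lit 2663) (nat_lit 167) .nil)))))))) (.g (nat_lit 1) (.e (nat_lit 216300) (nat_lit 0) .nil) .nil))) 
(.lf (nat_lit 517925) (.g (nat_lit 1354) (.e (nat_lit 196666) (nat_lit 13) (.e (nat_lit 65617) (nat_lit 10) (.e (nat_lit 344132) (nat_lit 26) (.e (nat_lit 557093) (nat_lit 12) .nil)))) (.g (nat_lit 0) (.e (nat_lit 217034) (nat_lit 0) .nil) .nil))))) (.nd (nat_lit 8) (.nd (nat_lit 9) 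
(.lf (nat_lit 517285) (.g (nat_lit 3181) (.e (nat_lit 196666) (nat_lit 13) (.e (nat_lit 65610) (nat_lit 10) (.e (nat_lit 344117) (nat_lit 21) (.e (nat_lit 516151) (nat_lit 9) (.e (nat_lit 426042) (nat_lit 0) (.e (nat_lit 3371) (nat_lit 208) (.e (nat_lit 622626) (nat_lit 13) (.e (nat_lit 2666) (nat_lit 167) .nil)))))))) (.g (nat_lit 1) (.e (nat_lit 216172) (nat_lit 0) .nil) .nil))) 
(.lf (nat_lit 517797) (.g (nat_lit 2859) (.e (nat_lit 196666) (nat_lit 13) (.e (nat_lit 65617) (nat_lit 10) (.e (nat_lit 344127) (nat_lit 26) (.e (nat_lit 557090) (nat_lit 12) (.e (nat_lit 164017) (nat_lit 44) (.e (nat_lit 688138) (nat_lit 5) (.e (nat_lit 2887) (nat_lit 184) (.e (nat_lit 426117) (nat_lit 2) .nil)))))))) (.g (nat_lit 1) (.e (nat_lit 216887) (nat_lit 0) .nil) .nil)))) 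
(.nd (nat_lit 9) 
(.lf (nat_lit 517541) (.g (nat_lit 1996) (.e (nat_lit 196666) (nat_lit 13) (.e (nat_lit 65610) (nat_lit 10) (.e (nat_lit 344129) (nat_lit 26) (.e (nat_lit 557067) (nat_lit 9) (.e (nat_lit 2457) (nat_lit 157) .nil))))) (.g (nat_lit 0) (.e (nat_lit 216544) (nat_lit 0) .nil) .nil))) 
(.lf (nat_lit 518053) (.g (nat_lit 2083) (.e (nat_lit 196666) (nat_lit 13) (.e (nat_lit 65624) (nat_lit 12) (.e (nat_lit 385074) (nat_lit 31) (.e (nat_lit 573483) (nat_lit 13) .nil)))) (.g (nat_lit 0) (.e (nat_lit 217193) (nat_lit 0) .nil) .nil)))))) (.nd (nat_lit 7) (.nd (nat_lit 8) (.nd (nat_lit 9) 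
(.lf (nat_lit 517221) (.g (nat_lit 3444) (.e (nat_lit 196666) (nat_lit 13) (.e (nat_lit 65610) (nat_lit 10) (.e (nat_lit 344117) (nat_lit 21) (.e (nat_lit 516151) (nat_lit 9) (.e (nat_lit 426040) (nat_lit 0) (.e (nat_lit 2426) (nat_lit 157) (.e (nat_lit 4850) (nat_lit 286) (.e (nat_lit 229386) (nat_lit 2) .nil)))))))) (.g (nat_lit 1) (.e (nat_lit 216108) (nat_lit 0) .nil) .nil))) 
(.lf (nat_lit 517733) (.g (nat_lit 3818) (.e (nat_lit 196666) (nat_lit 13) (.e (nat_lit 65617) (nat_lit 10) (.e (nat_lit 344117) (nat_lit 21) (.e (nat_lit 516139) (nat_lit 7) (.e (nat_lit 409615) (nat_lit 10) (.e (nat_lit 5627) (nat_lit 312) (.e (nat_lit 2668) (nat_lit 167) .nil))))))) (.g (nat_lit 1) (.e (nat_lit 216809) (nat_lit 0) .nil) .nil)))) (.nd (nat_lit 9) 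
(.lf (nat_lit 517477) (.g (nat_lit 3640) (.e (nat_lit 196666) (nat_lit 13) (.e (nat_lit 65610) (nat_lit 10) (.e (nat_lit 344117) (nat_lit 21) (.e (nat_lit 516160) (nat_lit 10) (.e (nat_lit 434276) (nat_lit 39) (.e (nat_lit 663552) (nat_lit 0) (.e (nat_lit 164) (nat_lit 11) .nil))))))) (.g (nat_lit 1) (.e (nat_lit 216431) (nat_lit 0) .nil) .nil))) 
(.lf (nat_lit 517989) (.g (nat_lit 2773) (.e (nat_lit 196666) (nat_lit 13) (.e (nat_lit 65617) (nat_lit 10) (.e (nat_lit 344133) (nat_lit 26) (.e (nat_lit 557091) (nat_lit 12) (.e (nat_lit 164022) (nat_lit 46) (.e (nat_lit 704626) (nat_lit 9) (.e (nat_lit 416) (nat_lit 32) (.e (nat_lit 426122) (nat_lit 2) .nil)))))))) (.g (nat_lit 1) (.e (nat_lit 217103) (nat_lit 0) .nil) .nil))))) 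
(.nd (nat_lit 8) (.nd (nat_lit 9) 
(.lf (nat_lit 517349) (.g (nat_lit 3597) (.e (nat_lit 196666) (nat_lit 13) (.e (nat_lit 65610) (nat_lit 10) (.e (nat_lit 344117) (nat_lit 21) (.e (nat_lit 516151) (nat_lit 9) (.e (nat_lit 426050) (nat_lit 0) (.e (nat_lit 3366) (nat_lit 208) (.e (nat_lit 622622) (nat_lit 13) (.e (nat_lit 2668) (nat_lit 167) .nil)))))))) (.g (nat_lit 1) (.e (nat_lit 216236) (nat_lit 0) .nil) .nil))) 
(.lf (nat_lit 517861) (.g (nat_lit 1753) (.e (nat_lit 196666) (nat_lit 13) (.e (nat_lit 65617) (nat_lit 10) (.e (nat_lit 344130) (nat_lit 26) (.e (nat_lit 557089) (nat_lit 12) (.e (nat_lit 171776) (nat_lit 49) .nil))))) (.g (nat_lit 0) (.e (nat_lit 216965) (nat_lit 0) .nil) .nil)))) (.nd (nat_lit 9) 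
(.lf (nat_lit 517605) (.g (nat_lit 3199) (.e (nat_lit 196666) (nat_lit 13) (.e (nat_lit 65610) (nat_lit 10) (.e (nat_lit 344129) (nat_lit 26) (.e (nat_lit 557089) (nat_lit 12) (.e (nat_lit 163843) (nat_lit 0) (.e (nat_lit 6254) (nat_lit 337) (.e (nat_lit 2725) (nat_lit 172) (.e (nat_lit 237589) (nat_lit 2) .nil)))))))) (.g (nat_lit 1) (.e (nat_lit 216650) (nat_lit 0) .nil) .nil))) 
(.lf (nat_lit 518117) (.g (nat_lit 2221) (.e (nat_lit 196668) (nat_lit 14) (.e (nat_lit 73746) (nat_lit 3) (.e (nat_lit 516115) (nat_lit 1) (.e (nat_lit 164177) (nat_lit 154) (.e (nat_lit 57347) (nat_lit 0) .nil))))) (.g (nat_lit 0) (.e (nat_lit 217320) (nat_lit 0) .nil) .nil)))))))) (.nd (nat_lit 5) (.nd (nat_lit 6) (.nd (nat_lit 7) (.nd (nat_lit 8) (.nd (nat_lit 9) 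
(.lf (nat_lit 517141) (.g (nat_lit 3911) (.e (nat_lit 196666) (nat_lit 13) (.e (nat_lit 65610) (nat_lit 10) (.e (nat_lit 344117) (nat_lit 21) (.e (nat_lit 516151) (nat_lit 9) (.e (nat_lit 426038) (nat_lit 0) (.e (nat_lit 2422) (nat_lit 157) (.e (nat_lit 4778) (nat_lit 281) (.e (nat_lit 2454) (nat_lit 157) (.e (nat_lit 2663) (nat_lit 167) .nil))))))))) (.g (nat_lit 1) (.e (nat_lit 216028) (nat_lit 0) .nil) .nil))) 
(.lf (nat_lit 517653) (.g (nat_lit 2886) (.e (nat_lit 196666) (nat_lit 13) (.e (nat_lit 65610) (nat_lit 10) (.e (nat_lit 344129) (nat_lit 26) (.e (nat_lit 557090) (nat_lit 12) (.e (nat_lit 163844) (nat_lit 0) (.e (nat_lit 6420) (nat_lit 341) (.e (nat_lit 171776) (nat_lit 12) (.e (nat_lit 426123) (nat_lit 2) .nil)))))))) (.g (nat_lit 1) (.e (nat_lit 216716) (nat_lit 0) .nil) .nil)))) 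
(.nd (nat_lit 9) 
(.lf (nat_lit 517397) (.g (nat_lit 4699) (.e (nat_lit 196666) (nat_lit 13) (.e (nat_lit 65610) (nat_lit 10) (.e (nat_lit 344117) (nat_lit 21) (.e (nat_lit 516151) (nat_lit 9) (.e (nat_lit 426047) (nat_lit 0) (.e (nat_lit 3369) (nat_lit 208) (.e (nat_lit 622620) (nat_lit 13) (.e (nat_lit 2663) (nat_lit 167) .nil)))))))) (.g (nat_lit 1) (.e (nat_lit 216284) (nat_lit 0) .nil) .nil))) 
(.lf (nat_lit 517909) (.g (nat_lit 4099) (.e (nat_lit 196666) (nat_lit 13) (.e (nat_lit 65617) (nat_lit 10) (.e (nat_lit 344130) (nat_lit 26) (.e (nat_lit 557091) (nat_lit 12) (.e (nat_lit 164020) (nat_lit 45) (.e (nat_lit 696344) (nat_lit 8) (.e (nat_lit 172062) (nat_lit 2) .nil))))))) (.g (nat_lit 1) (.e (nat_lit 217015) (nat_lit 0) .nil) .nil))))) (.nd (nat_lit 8) (.nd (nat_lit 9) 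
(.lf (nat_lit 517269) (.g (nat_lit 2791) (.e (nat_lit 196666) (nat_lit 13) (.e (nat_lit 65610) (nat_lit 10) (.e (nat_lit 344117) (nat_lit 21) (.e (nat_lit 516151) (nat_lit 9) (.e (nat_lit 426042) (nat_lit 0) (.e (nat_lit 2426) (nat_lit 157) (.e (nat_lit 4850) (nat_lit 286) (.e (nat_lit 229387) (nat_lit 2) .nil)))))))) (.g (nat_lit 1) (.e (nat_lit 216156) (nat_lit 0) .nil) .nil))) 
(.lf (nat_lit 517781) (.g (nat_lit 2257) (.e (nat_lit 196666) (nat_lit 13) (.e (nat_lit 65617) (nat_lit 10) (.e (nat_lit 344127) (nat_lit 26) (.e (nat_lit 557090) (nat_lit 12) (.e (nat_lit 163849) (nat_lit 0) .nil))))) (.g (nat_lit 0) (.e (nat_lit 216869) (nat_lit 0) .nil) .nil)))) (.nd (nat_lit 9) 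
(.lf (nat_lit 517525) (.g (nat_lit 2028) (.e (nat_lit 196666) (nat_lit 13) (.e (nat_lit 65610) (nat_lit 10) (.e (nat_lit 344129) (nat_lit 26) (.e (nat_lit 557064) (nat_lit 9) .nil)))) (.g (nat_lit 0) (.e (nat_lit 216515) (nat_lit 0) .nil) .nil))) 
(.lf (nat_lit 518037) (.g (nat_lit 3309) (.e (nat_lit 196666) (nat_lit 13) (.e (nat_lit 65622) (nat_lit 12) (.e (nat_lit 385074) (nat_lit 31) (.e (nat_lit 573487) (nat_lit 14) (.e (nat_lit 73782) (nat_lit 32) (.e (nat_lit 2664) (nat_lit 167) .nil)))))) (.g (nat_lit 1) (.e (nat_lit 217163) (nat_lit 0) .nil) .nil)))))) (.nd (nat_lit 7) (.nd (nat_lit 8) (.nd (nat_lit 9) 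
(.lf (nat_lit 517205) (.g (nat_lit 4616) (.e (nat_lit 196666) (nat_lit 13) (.e (nat_lit 65610) (nat_lit 10) (.e (nat_lit 344117) (nat_lit 21) (.e (nat_lit 516151) (nat_lit 9) (.e (nat_lit 426040) (nat_lit 0) (.e (nat_lit 2416) (nat_lit 157) (.e (nat_lit 4849) (nat_lit 285) (.e (nat_lit 163870) (nat_lit 2) .nil)))))))) (.g (nat_lit 1) (.e (nat_lit 216092) (nat_lit 0) .nil) .nil))) 
(.lf (nat_lit 517717) (.g (nat_lit 524) (.e (nat_lit 196666) (nat_lit 13) (.e (nat_lit 65617) (nat_lit 10) (.e (nat_lit 344116) (nat_lit 21) .nil))) (.g (nat_lit 0) (.e (nat_lit 216793) (nat_lit 0) .nil) .nil)))) (.nd (nat_lit 9) 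
(.lf (nat_lit 517461) (.g (nat_lit 2453) (.e (nat_lit 196666) (nat_lit 13) (.e (nat_lit 65610) (nat_lit 10) (.e (nat_lit 344117) (nat_lit 21) (.e (nat_lit 516160) (nat_lit 10) (.e (nat_lit 434264) (nat_lit 34) (.e (nat_lit 622628) (nat_lit 13) (.e (nat_lit 2664) (nat_lit 167) .nil))))))) (.g (nat_lit 1) (.e (nat_lit 216414) (nat_lit 0) .nil) .nil))) 
(.lf (nat_lit 517973) (.g (nat_lit 2857) (.e (nat_lit 196666) (nat_lit 13) (.e (nat_lit 65617) (nat_lit 10) (.e (nat_lit 344133) (nat_lit 26) (.e (nat_lit 557091) (nat_lit 12) (.e (nat_lit 163843) (nat_lit 0) (.e (nat_lit 6254) (nat_lit 337) (.e (nat_lit 2725) (nat_lit 172) (.e (nat_lit 237588) (nat_lit 2) .nil)))))))) (.g (nat_lit 1) (.e (nat_lit 217087) (nat_lit 0) .nil) .nil))))) 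
(.nd (nat_lit 8) (.nd (nat_lit 9) 
(.lf (nat_lit 517333) (.g (nat_lit 5102) (.e (nat_lit 196666) (nat_lit 13) (.e (nat_lit 65610) (nat_lit 10) (.e (nat_lit 344117) (nat_lit 21) (.e (nat_lit 516151) (nat_lit 9) (.e (nat_lit 426049) (nat_lit 0) (.e (nat_lit 3366) (nat_lit 208) (.e (nat_lit 622620) (nat_lit 13) (.e (nat_lit 2663) (nat_lit 167) .nil)))))))) (.g (nat_lit 1) (.e (nat_lit 216220) (nat_lit 0) .nil) .nil))) 
(.lf (nat_lit 517845) (.g (nat_lit 3245) (.e (nat_lit 196666) (nat_lit 13) (.e (nat_lit 65617) (nat_lit 10) (.e (nat_lit 344130) (nat_lit 26) (.e (nat_lit 557087) (nat_lit 11) (.e (nat_lit 24585) (nat_lit 0) (.e (nat_lit 6691) (nat_lit 357) (.e (nat_lit 2663) (nat_lit 167) .nil))))))) (.g (nat_lit 1) (.e (nat_lit 216948) (nat_lit 0) .nil) .nil)))) (.nd (nat_lit 9) 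
(.lf (nat_lit 517589) (.g (nat_lit 3423) (.e (nat_lit 196666) (nat_lit 13) (.e (nat_lit 65610) (nat_lit 10) (.e (nat_lit 344129) (nat_lit 26) (.e (nat_lit 557087) (nat_lit 11) (.e (nat_lit 24591) (nat_lit 0) (.e (nat_lit 7936) (nat_lit 357) (.e (nat_lit 2668) (nat_lit 167) .nil))))))) (.g (nat_lit 1) (.e (nat_lit 216632) (nat_lit 0) .nil) .nil))) 
(.lf (nat_lit 518101) (.g (nat_lit 1710) (.e (nat_lit 196667) (nat_lit 14) (.e (nat_lit 73753) (nat_lit 8) (.e (nat_lit 557105) (nat_lit 14) (.e (nat_lit 180252) (nat_lit 10) .nil)))) (.g (nat_lit 0) (.e (nat_lit 217279) (nat_lit 0) .nil) .nil))))))) (.nd (nat_lit 6) (.nd (nat_lit 7) (.nd (nat_lit 8) (.nd (nat_lit 9) 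
(.lf (nat_lit 517173) (.g (nat_lit 3590) (.e (nat_lit 196666) (nat_lit 13) (.e (nat_lit 65610) (nat_lit 10) (.e (nat_lit 344117) (nat_lit 21) (.e (nat_lit 516151) (nat_lit 9) (.e (nat_lit 426038) (nat_lit 0) (.e (nat_lit 2449) (nat_lit 157) (.e (nat_lit 4778) (nat_lit 281) (.e (nat_lit 2445) (nat_lit 157) (.e (nat_lit 2668) (nat_lit 167) .nil))))))))) (.g (nat_lit 1) (.e (nat_lit 216060) (nat_lit 0) .nil) .nil))) 
(.lf (nat_lit 517685) (.g (nat_lit 3044) (.e (nat_lit 196666) (nat_lit 13) (.e (nat_lit 65610) (nat_lit 10) (.e (nat_lit 344129) (nat_lit 26) (.e (nat_lit 557090) (nat_lit 12) (.e (nat_lit 164019) (nat_lit 45) (.e (nat_lit 696342) (nat_lit 8) (.e (nat_lit 172064) (nat_lit 2) .nil))))))) (.g (nat_lit 1) (.e (nat_lit 216754) (nat_lit 0) .nil) .nil)))) (.nd (nat_lit 9) 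
(.lf (nat_lit 517429) (.g (nat_lit 4494) (.e (nat_lit 196666) (nat_lit 13) (.e (nat_lit 65610) (nat_lit 10) (.e (nat_lit 344117) (nat_lit 21) (.e (nat_lit 516151) (nat_lit 9) (.e (nat_lit 426410) (nat_lit 15) (.e (nat_lit 2015) (nat_lit 139) (.e (nat_lit 679968) (nat_lit 13) (.e (nat_lit 2663) (nat_lit 167) .nil)))))))) (.g (nat_lit 1) (.e (nat_lit 216326) (nat_lit 0) .nil) .nil))) 
(.lf (nat_lit 517941) (.g (nat_lit 1957) (.e (nat_lit 196666) (nat_lit 13) (.e (nat_lit 65617) (nat_lit 10) (.e (nat_lit 344133) (nat_lit 26) (.e (nat_lit 557069) (nat_lit 9) .nil)))) (.g (nat_lit 0) (.e (nat_lit 217053) (nat_lit 0) .nil) .nil))))) (.nd (nat_lit 8) (.nd (nat_lit 9) 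
(.lf (nat_lit 517301) (.g (nat_lit 3640) (.e (nat_lit 196666) (nat_lit 13) (.e (nat_lit 65610) (nat_lit 10) (.e (nat_lit 344117) (nat_lit 21) (.e (nat_lit 516151) (nat_lit 9) (.e (nat_lit 426045) (nat_lit 0) (.e (nat_lit 3366) (nat_lit 208) (.e (nat_lit 622622) (nat_lit 13) (.e (nat_lit 2668) (nat_lit 167) .nil)))))))) (.g (nat_lit 1) (.e (nat_lit 216188) (nat_lit 0) .nil) .nil))) 
(.lf (nat_lit 517813) (.g (nat_lit 372) (.e (nat_lit 196666) (nat_lit 13) (.e (nat_lit 65617) (nat_lit 10) (.e (nat_lit 344130) (nat_lit 26) .nil))) (.g (nat_lit 0) (.e (nat_lit 216904) (nat_lit 0) .nil) .nil)))) (.nd (nat_lit 9) 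
(.lf (nat_lit 517557) (.g (nat_lit 2292) (.e (nat_lit 196666) (nat_lit 13) (.e (nat_lit 65610) (nat_lit 10) (.e (nat_lit 344129) (nat_lit 26) (.e (nat_lit 557067) (nat_lit 9) (.e (nat_lit 2739) (nat_lit 174) (.e (nat_lit 253990) (nat_lit 11) (.e (nat_lit 16409) (nat_lit 2) .nil))))))) (.g (nat_lit 1) (.e (nat_lit 216566) (nat_lit 0) .nil) .nil))) 
(.lf (nat_lit 518069) (.g (nat_lit 3121) (.e (nat_lit 196666) (nat_lit 13) (.e (nat_lit 65628) (nat_lit 14) (.e (nat_lit 401425) (nat_lit 2) (.e (nat_lit 196681) (nat_lit 17) (.e (nat_lit 131076) (nat_lit 0) (.e (nat_lit 6684) (nat_lit 357) (.e (nat_lit 2664) (nat_lit 167) .nil))))))) (.g (nat_lit 1) (.e (nat_lit 217226) (nat_lit 0) .nil) .nil)))))) 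
(.nd (nat_lit 7) (.nd (nat_lit 8) (.nd (nat_lit 9) 
(.lf (nat_lit 517237) (.g (nat_lit 4500) (.e (nat_lit 196666) (nat_lit 13) (.e (nat_lit 65610) (nat_lit 10) (.e (nat_lit 344117) (nat_lit 21) (.e (nat_lit 516151) (nat_lit 9) (.e (nat_lit 426040) (nat_lit 0) (.e (nat_lit 3369) (nat_lit 208) (.e (nat_lit 622625) (nat_lit 13) (.e (nat_lit 2663) (nat_lit 167) .nil)))))))) (.g (nat_lit 1) (.e (nat_lit 216124) (nat_lit 0) .nil) .nil))) 
(.lf (nat_lit 517749) (.g (nat_lit 409) (.e (nat_lit 196666) (nat_lit 13) (.e (nat_lit 65617) (nat_lit 10) (.e (nat_lit 344126) (nat_lit 25) .nil))) (.g (nat_lit 0) (.e (nat_lit 216826) (nat_lit 0) .nil) .nil)))) (.nd (nat_lit 9) 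
(.lf (nat_lit 517493) (.g (nat_lit 4079) (.e (nat_lit 196666) (nat_lit 13) (.e (nat_lit 65610) (nat_lit 10) (.e (nat_lit 344117) (nat_lit 21) (.e (nat_lit 516185) (nat_lit 16) (.e (nat_lit 491520) (nat_lit 0) (.e (nat_lit 6639) (nat_lit 357) (.e (nat_lit 2666) (nat_lit 167) .nil))))))) (.g (nat_lit 1) (.e (nat_lit 216454) (nat_lit 0) .nil) .nil))) 
(.lf (nat_lit 518005) (.g (nat_lit 1454) (.e (nat_lit 196666) (nat_lit 13) (.e (nat_lit 65619) (nat_lit 10) (.e (nat_lit 344117) (nat_lit 21) (.e (nat_lit 516102) (nat_lit 0) .nil)))) (.g (nat_lit 0) (.e (nat_lit 217125) (nat_lit 0) .nil) .nil))))) (.nd (nat_lit 8) (.nd (nat_lit 9) 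
(.lf (nat_lit 517365) (.g (nat_lit 4228) (.e (nat_lit 196666) (nat_lit 13) (.e (nat_lit 65610) (nat_lit 10) (.e (nat_lit 344117) (nat_lit 21) (.e (nat_lit 516151) (nat_lit 9) (.e (nat_lit 426047) (nat_lit 0) (.e (nat_lit 2422) (nat_lit 157) (.e (nat_lit 4849) (nat_lit 285) (.e (nat_lit 163870) (nat_lit 2) .nil)))))))) (.g (nat_lit 1) (.e (nat_lit 216252) (nat_lit 0) .nil) .nil))) 
(.lf (nat_lit 517877) (.g (nat_lit 2653) (.e (nat_lit 196666) (nat_lit 13) (.e (nat_lit 65617) (nat_lit 10) (.e (nat_lit 344130) (nat_lit 26) (.e (nat_lit 557090) (nat_lit 12) (.e (nat_lit 163848) (nat_lit 0) .nil))))) (.g (nat_lit 0) (.e (nat_lit 216982) (nat_lit 0) .nil) .nil)))) (.nd (nat_lit 9) 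
(.lf (nat_lit 517621) (.g (nat_lit 2169) (.e (nat_lit 196666) (nat_lit 13) (.e (nat_lit 65610) (nat_lit 10) (.e (nat_lit 344129) (nat_lit 26) (.e (nat_lit 557090) (nat_lit 12) (.e (nat_lit 163840) (nat_lit 0) (.e (nat_lit 6254) (nat_lit 337) (.e (nat_lit 2725) (nat_lit 172) (.e (nat_lit 237589) (nat_lit 2) .nil)))))))) (.g (nat_lit 1) (.e (nat_lit 216669) (nat_lit 0) .nil) .nil))) 
(.lf (nat_lit 518133) (.g (nat_lit 3223) (.e (nat_lit 196668) (nat_lit 14) (.e (nat_lit 73746) (nat_lit 3) (.e (nat_lit 516117) (nat_lit 1) (.e (nat_lit 164182) (nat_lit 154) (.e (nat_lit 57379) (nat_lit 3) (.e (nat_lit 98341) (nat_lit 20) (.e (nat_lit 221212) (nat_lit 22) .nil))))))) (.g (nat_lit 1) (.e (nat_lit 217391) (nat_lit 0) .nil) .nil))))))))) 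
(.nd (nat_lit 4) (.nd (nat_lit 5) (.nd (nat_lit 6) (.nd (nat_lit 7) (.nd (nat_lit 8) 
(.nd (nat_lit 9) 
(.lf (nat_lit 517133) (.g (nat_lit 3657) (.e (nat_lit 196666) (nat_lit 13) (.e (nat_lit 65610) (nat_lit 10) (.e (nat_lit 344117) (nat_lit 21) (.e (nat_lit 516151) (nat_lit 9) (.e (nat_lit 426037) (nat_lit 0) (.e (nat_lit 3370) (nat_lit 208) (.e (nat_lit 622627) (nat_lit 13) (.e (nat_lit 2666) (nat_lit 167) .nil)))))))) (.g (nat_lit 1) (.e (nat_lit 216020) (nat_lit 0) .nil) .nil))) 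
(.lf (nat_lit 517645) (.g (nat_lit 3106) (.e (nat_lit 196666) (nat_lit 13) (.e (nat_lit 65610) (nat_lit 10) (.e (nat_lit 344129) (nat_lit 26) (.e (nat_lit 557090) (nat_lit 12) (.e (nat_lit 163843) (nat_lit 0) (.e (nat_lit 6255) (nat_lit 337) (.e (nat_lit 2725) (nat_lit 172) (.e (nat_lit 237588) (nat_lit 2) .nil)))))))) (.g (nat_lit 1) (.e (nat_lit 216706) (nat_lit 0) .nil) .nil)))) 
(.nd (nat_lit 9) 
(.lf (nat_lit 517389) (.g (nat_lit 3879) (.e (nat_lit 196666) (nat_lit 13) (.e (nat_lit 65610) (nat_lit 10) (.e (nat_lit 344117) (nat_lit 21) (.e (nat_lit 516151) (nat_lit 9) (.e (nat_lit 426047) (nat_lit 0) (.e (nat_lit 2515) (nat_lit 157) (.e (nat_lit 5948) (nat_lit 322) (.e (nat_lit 65280) (nat_lit 63) .nil)))))))) (.g (nat_lit 1) (.e (nat_lit 216276) (nat_lit 0) .nil) .nil))) 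
(.lf (nat_lit 517901) (.g (nat_lit 3467) (.e (nat_lit 196666) (nat_lit 13) (.e (nat_lit 65617) (nat_lit 10) (.e (nat_lit 344130) (nat_lit 26) (.e (nat_lit 557090) (nat_lit 12) (.e (nat_lit 164022) (nat_lit 46) (.e (nat_lit 704629) (nat_lit 9) (.e (nat_lit 373) (nat_lit 32) (.e (nat_lit 426120) (nat_lit 2) .nil)))))))) (.g (nat_lit 1) (.e (nat_lit 217006) (nat_lit 0) .nil) .nil))))) 
(.nd (nat_lit 8) (.nd (nat_lit 9) 
(.lf (nat_lit 517261) (.g (nat_lit 3061) (.e (nat_lit 196666) (nat_lit 13) (.e (nat_lit 65610) (nat_lit 10) (.e (nat_lit 344117) (nat_lit 21) (.e (nat_lit 516151) (nat_lit 9) (.e (nat_lit 426042) (nat_lit 0) (.e (nat_lit 2423) (nat_lit 157) (.e (nat_lit 4821) (nat_lit 281) (.e (nat_lit 2477) (nat_lit 157) (.e (nat_lit 2666) (nat_lit 167) .nil))))))))) (.g (nat_lit 1) (.e (nat_lit 216148) (nat_lit 0) .nil) .nil))) 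
(.lf (nat_lit 517773) (.g (nat_lit 2718) (.e (nat_lit 196666) (nat_lit 13) (.e (nat_lit 65617) (nat_lit 10) (.e (nat_lit 344127) (nat_lit 26) (.e (nat_lit 557090) (nat_lit 12) (.e (nat_lit 163847) (nat_lit 0) (.e (nat_lit 6254) (nat_lit 337) (.e (nat_lit 2630) (nat_lit 164) (.e (nat_lit 172062) (nat_lit 2) .nil)))))))) (.g (nat_lit 1) (.e (nat_lit 216861) (nat_lit 0) .nil) .nil)))) 
(.nd (nat_lit 9) 
(.lf (nat_lit 517517) (.g (nat_lit 3327) (.e (nat_lit 196666) (nat_lit 13) (.e (nat_lit 65610) (nat_lit 10) (.e (nat_lit 344128) (nat_lit 26) (.e (nat_lit 557090) (nat_lit 12) (.e (nat_lit 164020) (nat_lit 45) (.e (nat_lit 696327) (nat_lit 5) (.e (nat_lit 2884) (nat_lit 184) (.e (nat_lit 426125) (nat_lit 2) .nil)))))))) (.g (nat_lit 1) (.e (nat_lit 216505) (nat_lit 0) .nil) .nil))) 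
(.lf (nat_lit 518029) (.g (nat_lit 1798) (.e (nat_lit 196666) (nat_lit 13) (.e (nat_lit 65622) (nat_lit 12) (.e (nat_lit 385067) (nat_lit 26) (.e (nat_lit 532508) (nat_lit 2) (.e (nat_lit 106534) (nat_lit 11) (.e (nat_lit 16413) (nat_lit 2) .nil)))))) (.g (nat_lit 1) (.e (nat_lit 217150) (nat_lit 0) .nil) .nil)))))) (.nd (nat_lit 7) (.nd (nat_lit 8) (.nd (nat_lit 9) 
(.lf (nat_lit 517197) (.g (nat_lit 3926) (.e (nat_lit 196666) (nat_lit 13) (.e (nat_lit 65610) (nat_lit 10) (.e (nat_lit 344117) (nat_lit 21) (.e (nat_lit 516151) (nat_lit 9) (.e (nat_lit 426038) (nat_lit 0) (.e (nat_lit 3370) (nat_lit 208) (.e (nat_lit 622622) (nat_lit 13) (.e (nat_lit 2662) (nat_lit 167) .nil)))))))) (.g (nat_lit 1) (.e (nat_lit 216084) (nat_lit 0) .nil) .nil))) 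
(.lf (nat_lit 517709) (.g (nat_lit 441) (.e (nat_lit 196666) (nat_lit 13) (.e (nat_lit 65617) (nat_lit 10) (.e (nat_lit 344087) (nat_lit 18) .nil))) (.g (nat_lit 0) (.e (nat_lit 216779) (nat_lit 0) .nil) .nil)))) (.nd (nat_lit 9) 
(.lf (nat_lit 517453) (.g (nat_lit 3364) (.e (nat_lit 196666) (nat_lit 13) (.e (nat_lit 65610) (nat_lit 10) (.e (nat_lit 344117) (nat_lit 21) (.e (nat_lit 516159) (nat_lit 10) (.e (nat_lit 434279) (nat_lit 39) (.e (nat_lit 663555) (nat_lit 0) (.e (nat_lit 7936) (nat_lit 11) .nil))))))) (.g (nat_lit 1) (.e (nat_lit 216376) (nat_lit 0) .nil) .nil))) 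
(.lf (nat_lit 517965) (.g (nat_lit 4032) (.e (nat_lit 196666) (nat_lit 13) (.e (nat_lit 65617) (nat_lit 10) (.e (nat_lit 344133) (nat_lit 26) (.e (nat_lit 557090) (nat_lit 12) (.e (nat_lit 164020) (nat_lit 45) (.e (nat_lit 696343) (nat_lit 8) (.e (nat_lit 172062) (nat_lit 2) .nil))))))) (.g (nat_lit 1) (.e (nat_lit 217079) (nat_lit 0) .nil) .nil))))) (.nd (nat_lit 8) (.nd (nat_lit 9) 
(.lf (nat_lit 517325) (.g (nat_lit 4090) (.e (nat_lit 196666) (nat_lit 13) (.e (nat_lit 65610) (nat_lit 10) (.e (nat_lit 344117) (nat_lit 21) (.e (nat_lit 516151) (nat_lit 9) (.e (nat_lit 426045) (nat_lit 0) (.e (nat_lit 3371) (nat_lit 208) (.e (nat_lit 622626) (nat_lit 13) (.e (nat_lit 2663) (nat_lit 167) .nil)))))))) (.g (nat_lit 1) (.e (nat_lit 216212) (nat_lit 0) .nil) .nil))) 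
(.lf (nat_lit 517837) (.g (nat_lit 2006) (.e (nat_lit 196666) (nat_lit 13) (.e (nat_lit 65617) (nat_lit 10) (.e (nat_lit 344130) (nat_lit 26) (.e (nat_lit 557087) (nat_lit 11) (.e (nat_lit 24577) (nat_lit 0) (.e (nat_lit 6684) (nat_lit 357) (.e (nat_lit 2664) (nat_lit 167) .nil))))))) (.g (nat_lit 1) (.e (nat_lit 216940) (nat_lit 0) .nil) .nil)))) (.nd (nat_lit 9) 
(.lf (nat_lit 517581) (.g (nat_lit 3010) (.e (nat_lit 196666) (nat_lit 13) (.e (nat_lit 65610) (nat_lit 10) (.e (nat_lit 344129) (nat_lit 26) (.e (nat_lit 557087) (nat_lit 11) (.e (nat_lit 24576) (nat_lit 0) (.e (nat_lit 6696) (nat_lit 357) (.e (nat_lit 2666) (nat_lit 167) .nil))))))) (.g (nat_lit 1) (.e (nat_lit 216624) (nat_lit 0) .nil) .nil))) 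
(.lf (nat_lit 518093) (.g (nat_lit 2818) (.e (nat_lit 196666) (nat_lit 13) (.e (nat_lit 65630) (nat_lit 14) (.e (nat_lit 401428) (nat_lit 3) (.e (nat_lit 204863) (nat_lit 27) (.e (nat_lit 344065) (nat_lit 0) (.e (nat_lit 2664) (nat_lit 167) .nil)))))) (.g (nat_lit 1) (.e (nat_lit 217263) (nat_lit 0) .nil) .nil))))))) (.nd (nat_lit 6) (.nd (nat_lit 7) (.nd (nat_lit 8) (.nd (nat_lit 9) 
(.lf (nat_lit 517165) (.g (nat_lit 4035) (.e (nat_lit 196666) (nat_lit 13) (.e (nat_lit 65610) (nat_lit 10) (.e (nat_lit 344117) (nat_lit 21) (.e (nat_lit 516151) (nat_lit 9) (.e (nat_lit 426038) (nat_lit 0) (.e (nat_lit 2426) (nat_lit 157) (.e (nat_lit 4850) (nat_lit 286) (.e (nat_lit 229386) (nat_lit 2) .nil)))))))) (.g (nat_lit 1) (.e (nat_lit 216052) (nat_lit 0) .nil) .nil))) 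
(.lf (nat_lit 517677) (.g (nat_lit 2709) (.e (nat_lit 196666) (nat_lit 13) (.e (nat_lit 65610) (nat_lit 10) (.e (nat_lit 344129) (nat_lit 26) (.e (nat_lit 557090) (nat_lit 12) (.e (nat_lit 164018) (nat_lit 45) (.e (nat_lit 696327) (nat_lit 5) (.e (nat_lit 2878) (nat_lit 184) (.e (nat_lit 426125) (nat_lit 2) .nil)))))))) (.g (nat_lit 1) (.e (nat_lit 216746) (nat_lit 0) .nil) .nil)))) 
(.nd (nat_lit 9) 
(.lf (nat_lit 517421) (.g (nat_lit 3153) (.e (nat_lit 196666) (nat_lit 13) (.e (nat_lit 65610) (nat_lit 10) (.e (nat_lit 344117) (nat_lit 21) (.e (nat_lit 516151) (nat_lit 9) (.e (nat_lit 426101) (nat_lit 1) (.e (nat_lit 164258) (nat_lit 215) (.e (nat_lit 7936) (nat_lit 157) (.e (nat_lit 2666) (nat_lit 167) .nil)))))))) (.g (nat_lit 1) (.e (nat_lit 216308) (nat_lit 0) .nil) .nil))) 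
(.lf (nat_lit 517933) (.g (nat_lit 3839) (.e (nat_lit 196666) (nat_lit 13) (.e (nat_lit 65617) (nat_lit 10) (.e (nat_lit 344132) (nat_lit 26) (.e (nat_lit 557094) (nat_lit 12) (.e (nat_lit 164022) (nat_lit 46) (.e (nat_lit 704628) (nat_lit 9) (.e (nat_lit 391) (nat_lit 32) (.e (nat_lit 426121) (nat_lit 2) .nil)))))))) (.g (nat_lit 1) (.e (nat_lit 217042) (nat_lit 0) .nil) .nil))))) 
(.nd (nat_lit 8) (.nd (nat_lit 9) 
(.lf (nat_lit 517293) (.g (nat_lit 3762) (.e (nat_lit 196666) (nat_lit 13) (.e (nat_lit 65610) (nat_lit 10) (.e (nat_lit 344117) (nat_lit 21) (.e (nat_lit 516151) (nat_lit 9) (.e (nat_lit 426045) (nat_lit 0) (.e (nat_lit 2423) (nat_lit 157) (.e (nat_lit 4848) (nat_lit 285) (.e (nat_lit 163869) (nat_lit 2) .nil)))))))) (.g (nat_lit 1) (.e (nat_lit 216180) (nat_lit 0) .nil) .nil))) 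
(.lf (nat_lit 517805) (.g (nat_lit 3189) (.e (nat_lit 196666) (nat_lit 13) (.e (nat_lit 65617) (nat_lit 10) (.e (nat_lit 344127) (nat_lit 26) (.e (nat_lit 557090) (nat_lit 12) (.e (nat_lit 164020) (nat_lit 45) (.e (nat_lit 696344) (nat_lit 8) (.e (nat_lit 172063) (nat_lit 2) .nil))))))) (.g (nat_lit 1) (.e (nat_lit 216896) (nat_lit 0) .nil) .nil)))) (.nd (nat_lit 9) 
(.lf (nat_lit 517549) (.g (nat_lit 3010) (.e (nat_lit 196666) (nat_lit 13) (.e (nat_lit 65610) (nat_lit 10) (.e (nat_lit 344129) (nat_lit 26) (.e (nat_lit 557067) (nat_lit 9) (.e (nat_lit 2467) (nat_lit 157) (.e (nat_lit 3469) (nat_lit 217) (.e (nat_lit 696342) (nat_lit 8) (.e (nat_lit 172064) (nat_lit 2) .nil)))))))) (.g (nat_lit 1) (.e (nat_lit 216553) (nat_lit 0) .nil) .nil))) 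
(.lf (nat_lit 518061) (.g (nat_lit 2105) (.e (nat_lit 196666) (nat_lit 13) (.e (nat_lit 65628) (nat_lit 14) (.e (nat_lit 401423) (nat_lit 2) (.e (nat_lit 196668) (nat_lit 14) (.e (nat_lit 73782) (nat_lit 32) .nil))))) (.g (nat_lit 0) (.e (nat_lit 217216) (nat_lit 0) .nil) .nil)))))) (.nd (nat_lit 7) (.nd (nat_lit 8) (.nd (nat_lit 9) 
(.lf (nat_lit 517229) (.g (nat_lit 4272) (.e (nat_lit 196666) (nat_lit 13) (.e (nat_lit 65610) (nat_lit 10) (.e (nat_lit 344117) (nat_lit 21) (.e (nat_lit 516151) (nat_lit 9) (.e (nat_lit 426040) (nat_lit 0) (.e (nat_lit 3366) (nat_lit 208) (.e (nat_lit 622625) (nat_lit 13) (.e (nat_lit 2663) (nat_lit 167) .nil)))))))) (.g (nat_lit 1) (.e (nat_lit 216116) (nat_lit 0) .nil) .nil))) 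
(.lf (nat_lit 517741) (.g (nat_lit 3774) (.e (nat_lit 196666) (nat_lit 13) (.e (nat_lit 65617) (nat_lit 10) (.e (nat_lit 344117) (nat_lit 21) (.e (nat_lit 516139) (nat_lit 7) (.e (nat_lit 417536) (nat_lit 10) (.e (nat_lit 5626) (nat_lit 312) (.e (nat_lit 2668) (nat_lit 167) .nil))))))) (.g (nat_lit 1) (.e (nat_lit 216817) (nat_lit 0) .nil) .nil)))) (.nd (nat_lit 9) 
(.lf (nat_lit 517485) (.g (nat_lit 2401) (.e (nat_lit 196666) (nat_lit 13) (.e (nat_lit 65610) (nat_lit 10) (.e (nat_lit 344117) (nat_lit 21) (.e (nat_lit 516160) (nat_lit 10) (.e (nat_lit 434278) (nat_lit 39) (.e (nat_lit 663556) (nat_lit 0) (.e (nat_lit 7936) (nat_lit 11) .nil))))))) (.g (nat_lit 1) (.e (nat_lit 216439) (nat_lit 0) .nil) .nil))) 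
(.lf (nat_lit 517997) (.g (nat_lit 2022) (.e (nat_lit 196666) (nat_lit 13) (.e (nat_lit 65617) (nat_lit 10) (.e (nat_lit 344133) (nat_lit 26) (.e (nat_lit 557093) (nat_lit 12) .nil)))) (.g (nat_lit 0) (.e (nat_lit 217111) (nat_lit 0) .nil) .nil))))) (.nd (nat_lit 8) (.nd (nat_lit 9) 
(.lf (nat_lit 517357) (.g (nat_lit 3641) (.e (nat_lit 196666) (nat_lit 13) (.e (nat_lit 65610) (nat_lit 10) (.e (nat_lit 344117) (nat_lit 21) (.e (nat_lit 516151) (nat_lit 9) (.e (nat_lit 426047) (nat_lit 0) (.e (nat_lit 2416) (nat_lit 157) (.e (nat_lit 4848) (nat_lit 285) (.e (nat_lit 163870) (nat_lit 2) .nil)))))))) (.g (nat_lit 1) (.e (nat_lit 216244) (nat_lit 0) .nil) .nil))) 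
(.lf (nat_lit 517869) (.g (nat_lit 2379) (.e (nat_lit 196666) (nat_lit 13) (.e (nat_lit 65617) (nat_lit 10) (.e (nat_lit 344130) (nat_lit 26) (.e (nat_lit 557090) (nat_lit 12) (.e (nat_lit 163843) (nat_lit 0) (.e (nat_lit 6421) (nat_lit 341) (.e (nat_lit 171776) (nat_lit 12) (.e (nat_lit 426125) (nat_lit 2) .nil)))))))) (.g (nat_lit 1) (.e (nat_lit 216973) (nat_lit 0) .nil) .nil)))) 
(.nd (nat_lit 9) 
(.lf (nat_lit 517613) (.g (nat_lit 2579) (.e (nat_lit 196666) (nat_lit 13) (.e (nat_lit 65610) (nat_lit 10) (.e (nat_lit 344129) (nat_lit 26) (.e (nat_lit 557089) (nat_lit 12) (.e (nat_lit 163849) (nat_lit 0) (.e (nat_lit 6252) (nat_lit 337) (.e (nat_lit 2725) (nat_lit 172) (.e (nat_lit 237589) (nat_lit 2) .nil)))))))) (.g (nat_lit 1) (.e (nat_lit 216660) (nat_lit 0) .nil) .nil))) 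
(.lf (nat_lit 518125) (.g (nat_lit 1752) (.e (nat_lit 196668) (nat_lit 14) (.e (nat_lit 73746) (nat_lit 3) (.e (nat_lit 516115) (nat_lit 1) (.e (nat_lit 164183) (nat_lit 154) .nil)))) (.g (nat_lit 0) (.e (nat_lit 217350) (nat_lit 0) .nil) .nil)))))))) (.nd (nat_lit 5) (.nd (nat_lit 6) (.nd (nat_lit 7) (.nd (nat_lit 8) (.nd (nat_lit 9) 
(.lf (nat_lit 517149) (.g (nat_lit 3684) (.e (nat_lit 196666) (nat_lit 13) (.e (nat_lit 65610) (nat_lit 10) (.e (nat_lit 344117) (nat_lit 21) (.e (nat_lit 516151) (nat_lit 9) (.e (nat_lit 426038) (nat_lit 0) (.e (nat_lit 2422) (nat_lit 157) (.e (nat_lit 4850) (nat_lit 286) (.e (nat_lit 229386) (nat_lit 2) .nil)))))))) (.g (nat_lit 1) (.e (nat_lit 216036) (nat_lit 0) .nil) .nil))) 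
(.lf (nat_lit 517661) (.g (nat_lit 3173) (.e (nat_lit 196666) (nat_lit 13) (.e (nat_lit 65610) (nat_lit 10) (.e (nat_lit 344129) (nat_lit 26) (.e (nat_lit 557090) (nat_lit 12) (.e (nat_lit 163848) (nat_lit 0) (.e (nat_lit 6255) (nat_lit 337) (.e (nat_lit 2630) (nat_lit 164) (.e (nat_lit 172064) (nat_lit 2) .nil)))))))) (.g (nat_lit 1) (.e (nat_lit 216727) (nat_lit 0) .nil) .nil)))) 
(.nd (nat_lit 9) 
(.lf (nat_lit 517405) (.g (nat_lit 5093) (.e (nat_lit 196666) (nat_lit 13) (.e (nat_lit 65610) (nat_lit 10) (.e (nat_lit 344117) (nat_lit 21) (.e (nat_lit 516151) (nat_lit 9) (.e (nat_lit 426047) (nat_lit 0) (.e (nat_lit 3370) (nat_lit 208) (.e (nat_lit 622620) (nat_lit 13) (.e (nat_lit 2663) (nat_lit 167) .nil)))))))) (.g (nat_lit 1) (.e (nat_lit 216292) (nat_lit 0) .nil) .nil))) 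
(.lf (nat_lit 517917) (.g (nat_lit 2407) (.e (nat_lit 196666) (nat_lit 13) (.e (nat_lit 65617) (nat_lit 10) (.e (nat_lit 344132) (nat_lit 26) (.e (nat_lit 557085) (nat_lit 11) (.e (nat_lit 24577) (nat_lit 0) .nil))))) (.g (nat_lit 0) (.e (nat_lit 217026) (nat_lit 0) .nil) .nil))))) (.nd (nat_lit 8) (.nd (nat_lit 9) 
(.lf (nat_lit 517277) (.g (nat_lit 2846) (.e (nat_lit 196666) (nat_lit 13) (.e (nat_lit 65610) (nat_lit 10) (.e (nat_lit 344117) (nat_lit 21) (.e (nat_lit 516151) (nat_lit 9) (.e (nat_lit 426042) (nat_lit 0) (.e (nat_lit 3370) (nat_lit 208) (.e (nat_lit 622625) (nat_lit 13) (.e (nat_lit 2665) (nat_lit 167) .nil)))))))) (.g (nat_lit 1) (.e (nat_lit 216164) (nat_lit 0) .nil) .nil))) 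
(.lf (nat_lit 517789) (.g (nat_lit 2573) (.e (nat_lit 196666) (nat_lit 13) (.e (nat_lit 65617) (nat_lit 10) (.e (nat_lit 344127) (nat_lit 26) (.e (nat_lit 557090) (nat_lit 12) (.e (nat_lit 163852) (nat_lit 0) (.e (nat_lit 6426) (nat_lit 342) (.e (nat_lit 229399) (nat_lit 12) (.e (nat_lit 426125) (nat_lit 2) .nil)))))))) (.g (nat_lit 1) (.e (nat_lit 216877) (nat_lit 0) .nil) .nil)))) 
(.nd (nat_lit 9) 
(.lf (nat_lit 517533) (.g (nat_lit 1757) (.e (nat_lit 196666) (nat_lit 13) (.e (nat_lit 65610) (nat_lit 10) (.e (nat_lit 344129) (nat_lit 26) (.e (nat_lit 557065) (nat_lit 9) (.e (nat_lit 2741) (nat_lit 174) .nil))))) (.g (nat_lit 0) (.e (nat_lit 216523) (nat_lit 0) .nil) .nil))) 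
(.lf (nat_lit 518045) (.g (nat_lit 516) (.e (nat_lit 196666) (nat_lit 13) (.e (nat_lit 65624) (nat_lit 12) (.e (nat_lit 385068) (nat_lit 26) .nil))) (.g (nat_lit 0) (.e (nat_lit 217180) (nat_lit 0) .nil) .nil)))))) (.nd (nat_lit 7) (.nd (nat_lit 8) (.nd (nat_lit 9) 
(.lf (nat_lit 517213) (.g (nat_lit 4488) (.e (nat_lit 196666) (nat_lit 13) (.e (nat_lit 65610) (nat_lit 10) (.e (nat_lit 344117) (nat_lit 21) (.e (nat_lit 516151) (nat_lit 9) (.e (nat_lit 426040) (nat_lit 0) (.e (nat_lit 2423) (nat_lit 157) (.e (nat_lit 4848) (nat_lit 285) (.e (nat_lit 163869) (nat_lit 2) .nil)))))))) (.g (nat_lit 1) (.e (nat_lit 216100) (nat_lit 0) .nil) .nil))) 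
(.lf (nat_lit 517725) (.g (nat_lit 2841) (.e (nat_lit 196666) (nat_lit 13) (.e (nat_lit 65617) (nat_lit 10) (.e (nat_lit 344117) (nat_lit 21) (.e (nat_lit 516106) (nat_lit 0) (.e (nat_lit 6966) (nat_lit 377) (.e (nat_lit 2816) (nat_lit 181) (.e (nat_lit 311311) (nat_lit 2) .nil))))))) (.g (nat_lit 1) (.e (nat_lit 216801) (nat_lit 0) .nil) .nil)))) (.nd (nat_lit 9) 
(.lf (nat_lit 517469) (.g (nat_lit 3761) (.e (nat_lit 196666) (nat_lit 13) (.e (nat_lit 65610) (nat_lit 10) (.e (nat_lit 344117) (nat_lit 21) (.e (nat_lit 516160) (nat_lit 10) (.e (nat_lit 434275) (nat_lit 39) (.e (nat_lit 663554) (nat_lit 0) (.e (nat_lit 7936) (nat_lit 11) .nil))))))) (.g (nat_lit 1) (.e (nat_lit 216422) (nat_lit 0) .nil) .nil))) 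
(.lf (nat_lit 517981) (.g (nat_lit 3150) (.e (nat_lit 196666) (nat_lit 13) (.e (nat_lit 65617) (nat_lit 10) (.e (nat_lit 344133) (nat_lit 26) (.e (nat_lit 557091) (nat_lit 12) (.e (nat_lit 164017) (nat_lit 44) (.e (nat_lit 688138) (nat_lit 5) (.e (nat_lit 2887) (nat_lit 184) (.e (nat_lit 426117) (nat_lit 2) .nil)))))))) (.g (nat_lit 1) (.e (nat_lit 217095) (nat_lit 0) .nil) .nil))))) 
(.nd (nat_lit 8) (.nd (nat_lit 9) 
(.lf (nat_lit 517341) (.g (nat_lit 4395) (.e (nat_lit 196666) (nat_lit 13) (.e (nat_lit 65610) (nat_lit 10) (.e (nat_lit 344117) (nat_lit 21) (.e (nat_lit 516151) (nat_lit 9) (.e (nat_lit 426050) (nat_lit 0) (.e (nat_lit 2416) (nat_lit 157) (.e (nat_lit 4849) (nat_lit 285) (.e (nat_lit 163869) (nat_lit 2) .nil)))))))) (.g (nat_lit 1) (.e (nat_lit 216228) (nat_lit 0) .nil) .nil))) 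
(.lf (nat_lit 517853) (.g (nat_lit 2528) (.e (nat_lit 196666) (nat_lit 13) (.e (nat_lit 65617) (nat_lit 10) (.e (nat_lit 344130) (nat_lit 26) (.e (nat_lit 557089) (nat_lit 12) (.e (nat_lit 163843) (nat_lit 0) (.e (nat_lit 6252) (nat_lit 337) (.e (nat_lit 2630) (nat_lit 164) (.e (nat_lit 172062) (nat_lit 2) .nil)))))))) (.g (nat_lit 1) (.e (nat_lit 216957) (nat_lit 0) .nil) .nil)))) 
(.nd (nat_lit 9) 
(.lf (nat_lit 517597) (.g (nat_lit 4140) (.e (nat_lit 196666) (nat_lit 13) (.e (nat_lit 65610) (nat_lit 10) (.e (nat_lit 344129) (nat_lit 26) (.e (nat_lit 557087) (nat_lit 11) (.e (nat_lit 24665) (nat_lit 14) (.e (nat_lit 409344) (nat_lit 2) .nil)))))) (.g (nat_lit 1) (.e (nat_lit 216642) (nat_lit 0) .nil) .nil))) 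
(.lf (nat_lit 518109) (.g (nat_lit 3172) (.e (nat_lit 196667) (nat_lit 14) (.e (nat_lit 73755) (nat_lit 8) (.e (nat_lit 557105) (nat_lit 14) (.e (nat_lit 180252) (nat_lit 10) (.e (nat_lit 573474) (nat_lit 12) (.e (nat_lit 57507) (nat_lit 39) (.e (nat_lit 647176) (nat_lit 0) (.e (nat_lit 2663) (nat_lit 167) .nil)))))))) (.g (nat_lit 1) (.e (nat_lit 217289) (nat_lit 0) .nil) .nil))))))) 
(.nd (nat_lit 6) (.nd (nat_lit 7) (.nd (nat_lit 8) (.nd (nat_lit 9) 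
(.lf (nat_lit 517181) (.g (nat_lit 5173) (.e (nat_lit 196666) (nat_lit 13) (.e (nat_lit 65610) (nat_lit 10) (.e (nat_lit 344117) (nat_lit 21) (.e (nat_lit 516151) (nat_lit 9) (.e (nat_lit 426038) (nat_lit 0) (.e (nat_lit 3366) (nat_lit 208) (.e (nat_lit 622626) (nat_lit 13) (.e (nat_lit 2663) (nat_lit 167) .nil)))))))) (.g (nat_lit 1) (.e (nat_lit 216068) (nat_lit 0) .nil) .nil))) 
(.lf (nat_lit 517693) (.g (nat_lit 2299) (.e (nat_lit 196666) (nat_lit 13) (.e (nat_lit 65610) (nat_lit 10) (.e (nat_lit 344129) (nat_lit 26) (.e (nat_lit 557092) (nat_lit 12) .nil)))) (.g (nat_lit 0) (.e (nat_lit 216762) (nat_lit 0) .nil) .nil)))) (.nd (nat_lit 9) 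
(.lf (nat_lit 517437) (.g (nat_lit 2075) (.e (nat_lit 196666) (nat_lit 13) (.e (nat_lit 65610) (nat_lit 10) (.e (nat_lit 344117) (nat_lit 21) (.e (nat_lit 516159) (nat_lit 10) (.e (nat_lit 434274) (nat_lit 39) (.e (nat_lit 663560) (nat_lit 0) (.e (nat_lit 7936) (nat_lit 11) .nil))))))) (.g (nat_lit 1) (.e (nat_lit 216360) (nat_lit 0) .nil) .nil))) 
(.lf (nat_lit 517949) (.g (nat_lit 2003) (.e (nat_lit 196666) (nat_lit 13) (.e (nat_lit 65617) (nat_lit 10) (.e (nat_lit 344133) (nat_lit 26) (.e (nat_lit 557087) (nat_lit 11) (.e (nat_lit 24588) (nat_lit 0) .nil))))) (.g (nat_lit 0) (.e (nat_lit 217063) (nat_lit 0) .nil) .nil))))) (.nd (nat_lit 8) (.nd (nat_lit 9) 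
(.lf (nat_lit 517309) (.g (nat_lit 3219) (.e (nat_lit 196666) (nat_lit 13) (.e (nat_lit 65610) (nat_lit 10) (.e (nat_lit 344117) (nat_lit 21) (.e (nat_lit 516151) (nat_lit 9) (.e (nat_lit 426045) (nat_lit 0) (.e (nat_lit 3369) (nat_lit 208) (.e (nat_lit 622622) (nat_lit 13) (.e (nat_lit 2668) (nat_lit 167) .nil)))))))) (.g (nat_lit 1) (.e (nat_lit 216196) (nat_lit 0) .nil) .nil))) 
(.lf (nat_lit 517821) (.g (nat_lit 2773) (.e (nat_lit 196666) (nat_lit 13) (.e (nat_lit 65617) (nat_lit 10) (.e (nat_lit 344130) (nat_lit 26) (.e (nat_lit 557067) (nat_lit 9) (.e (nat_lit 20) (nat_lit 0) (.e (nat_lit 6232) (nat_lit 335) (.e (nat_lit 164359) (nat_lit 246) (.e (nat_lit 2661) (nat_lit 167) .nil)))))))) (.g (nat_lit 1) (.e (nat_lit 216913) (nat_lit 0) .nil) .nil)))) (.nd (nat_lit 9) 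
(.lf (nat_lit 517565) (.g (nat_lit 635) (.e (nat_lit 196666) (nat_lit 13) (.e (nat_lit 65610) (nat_lit 10) (.e (nat_lit 344129) (nat_lit 26) (.e (nat_lit 557074) (nat_lit 9) .nil)))) (.g (nat_lit 0) (.e (nat_lit 216577) (nat_lit 0) .nil) .nil))) 
(.lf (nat_lit 518077) (.g (nat_lit 621) (.e (nat_lit 196666) (nat_lit 13) (.e (nat_lit 65630) (nat_lit 14) (.e (nat_lit 401412) (nat_lit 0) .nil))) (.g (nat_lit 0) (.e (nat_lit 217235) (nat_lit 0) .nil) .nil)))))) (.nd (nat_lit 7) (.nd (nat_lit 8) (.nd (nat_lit 9) 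
(.lf (nat_lit 517245) (.g (nat_lit 3408) (.e (nat_lit 196666) (nat_lit 13) (.e (nat_lit 65610) (nat_lit 10) (.e (nat_lit 344117) (nat_lit 21) (.e (nat_lit 516151) (nat_lit 9) (.e (nat_lit 426040) (nat_lit 0) (.e (nat_lit 3370) (nat_lit 208) (.e (nat_lit 622626) (nat_lit 13) (.e (nat_lit 2666) (nat_lit 167) .nil)))))))) (.g (nat_lit 1) (.e (nat_lit 216132) (nat_lit 0) .nil) .nil))) 
(.lf (nat_lit 517757) (.g (nat_lit 2220) (.e (nat_lit 196666) (nat_lit 13) (.e (nat_lit 65617) (nat_lit 10) (.e (nat_lit 344127) (nat_lit 26) (.e (nat_lit 557089) (nat_lit 12) (.e (nat_lit 164017) (nat_lit 44) (.e (nat_lit 688138) (nat_lit 5) (.e (nat_lit 2883) (nat_lit 184) (.e (nat_lit 426125) (nat_lit 2) .nil)))))))) (.g (nat_lit 1) (.e (nat_lit 216844) (nat_lit 0) .nil) .nil)))) 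
(.nd (nat_lit 9) 
(.lf (nat_lit 517501) (.g (nat_lit 3467) (.e (nat_lit 196666) (nat_lit 13) (.e (nat_lit 65610) (nat_lit 10) (.e (nat_lit 344117) (nat_lit 21) (.e (nat_lit 516185) (nat_lit 16) (.e (nat_lit 491528) (nat_lit 0) (.e (nat_lit 7936) (nat_lit 357) (.e (nat_lit 2668) (nat_lit 167) .nil))))))) (.g (nat_lit 1) (.e (nat_lit 216462) (nat_lit 0) .nil) .nil))) 
(.lf (nat_lit 518013) (.g (nat_lit 3854) (.e (nat_lit 196666) (nat_lit 13) (.e (nat_lit 65619) (nat_lit 10) (.e (nat_lit 344117) (nat_lit 21) (.e (nat_lit 516139) (nat_lit 7) (.e (nat_lit 409617) (nat_lit 10) (.e (nat_lit 5710) (nat_lit 312) (.e (nat_lit 2663) (nat_lit 167) .nil))))))) (.g (nat_lit 1) (.e (nat_lit 217133) (nat_lit 0) .nil) .nil))))) (.nd (nat_lit 8) (.nd (nat_lit 9) 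
(.lf (nat_lit 517373) (.g (nat_lit 3561) (.e (nat_lit 196666) (nat_lit 13) (.e (nat_lit 65610) (nat_lit 10) (.e (nat_lit 344117) (nat_lit 21) (.e (nat_lit 516151) (nat_lit 9) (.e (nat_lit 426047) (nat_lit 0) (.e (nat_lit 2424) (nat_lit 157) (.e (nat_lit 4848) (nat_lit 285) (.e (nat_lit 163869) (nat_lit 2) .nil)))))))) (.g (nat_lit 1) (.e (nat_lit 216260) (nat_lit 0) .nil) .nil))) 
(.lf (nat_lit 517885) (.g (nat_lit 3634) (.e (nat_lit 196666) (nat_lit 13) (.e (nat_lit 65617) (nat_lit 10) (.e (nat_lit 344130) (nat_lit 26) (.e (nat_lit 557090) (nat_lit 12) (.e (nat_lit 163850) (nat_lit 0) (.e (nat_lit 6273) (nat_lit 337) (.e (nat_lit 2633) (nat_lit 164) (.e (nat_lit 172062) (nat_lit 2) .nil)))))))) (.g (nat_lit 1) (.e (nat_lit 216990) (nat_lit 0) .nil) .nil)))) 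
(.nd (nat_lit 9) 
(.lf (nat_lit 517629) (.g (nat_lit 1942) (.e (nat_lit 196666) (nat_lit 13) (.e (nat_lit 65610) (nat_lit 10) (.e (nat_lit 344129) (nat_lit 26) (.e (nat_lit 557090) (nat_lit 12) (.e (nat_lit 163841) (nat_lit 0) (.e (nat_lit 6254) (nat_lit 337) (.e (nat_lit 2630) (nat_lit 164) (.e (nat_lit 172062) (nat_lit 2) .nil)))))))) (.g (nat_lit 1) (.e (nat_lit 216677) (nat_lit 0) .nil) .nil))) 
(.lf (nat_lit 518141) (.g (nat_lit 518) (.e (nat_lit 196668) (nat_lit 14) (.e (nat_lit 73746) (nat_lit 3) (.e (nat_lit 516119) (nat_lit 1) .nil))) (.g (nat_lit 0) (.e (nat_lit 217423) (nat_lit 0) .nil) .nil))))))))))) (.nd (nat_lit 2) (.nd (nat_lit 3) (.nd (nat_lit 4) (.nd (nat_lit 5) (.nd (nat_lit 6) (.nd (nat_lit 7) (.nd (nat_lit 8) (.nd (nat_lit 9) 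
(.lf (nat_lit 517123) (.g (nat_lit 4650) (.e (nat_lit 196666) (nat_lit 13) (.e (nat_lit 65610) (nat_lit 10) (.e (nat_lit 344117) (nat_lit 21) (.e (nat_lit 516151) (nat_lit 9) (.e (nat_lit 426037) (nat_lit 0) (.e (nat_lit 3369) (nat_lit 208) (.e (nat_lit 622625) (nat_lit 13) (.e (nat_lit 2663) (nat_lit 167) .nil)))))))) (.g (nat_lit 1) (.e (nat_lit 216010) (nat_lit 0) .nil) .nil))) 
(.lf (nat_lit 517635) (.g (nat_lit 2277) (.e (nat_lit 196666) (nat_lit 13) (.e (nat_lit 65610) (nat_lit 10) (.e (nat_lit 344129) (nat_lit 26) (.e (nat_lit 557090) (nat_lit 12) (.e (nat_lit 163842) (nat_lit 0) .nil))))) (.g (nat_lit 0) (.e (nat_lit 216683) (nat_lit 0) .nil) .nil)))) (.nd (nat_lit 9) 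
(.lf (nat_lit 517379) (.g (nat_lit 4012) (.e (nat_lit 196666) (nat_lit 13) (.e (nat_lit 65610) (nat_lit 10) (.e (nat_lit 344117) (nat_lit 21) (.e (nat_lit 516151) (nat_lit 9) (.e (nat_lit 426047) (nat_lit 0) (.e (nat_lit 2425) (nat_lit 157) (.e (nat_lit 4849) (nat_lit 285) (.e (nat_lit 163869) (nat_lit 2) .nil)))))))) (.g (nat_lit 1) (.e (nat_lit 216266) (nat_lit 0) .nil) .nil))) 
(.lf (nat_lit 517891) (.g (nat_lit 3129) (.e (nat_lit 196666) (nat_lit 13) (.e (nat_lit 65617) (nat_lit 10) (.e (nat_lit 344130) (nat_lit 26) (.e (nat_lit 557090) (nat_lit 12) (.e (nat_lit 164017) (nat_lit 44) (.e (nat_lit 688138) (nat_lit 5) (.e (nat_lit 2887) (nat_lit 184) (.e (nat_lit 426117) (nat_lit 2) .nil)))))))) (.g (nat_lit 1) (.e (nat_lit 216996) (nat_lit 0) .nil) .nil))))) 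
(.nd (nat_lit 8) (.nd (nat_lit 9) 
(.lf (nat_lit 517251) (.g (nat_lit 4449) (.e (nat_lit 196666) (nat_lit 13) (.e (nat_lit 65610) (nat_lit 10) (.e (nat_lit 344117) (nat_lit 21) (.e (nat_lit 516151) (nat_lit 9) (.e (nat_lit 426041) (nat_lit 0) (.e (nat_lit 3366) (nat_lit 208) (.e (nat_lit 622627) (nat_lit 13) (.e (nat_lit 2663) (nat_lit 167) .nil)))))))) (.g (nat_lit 1) (.e (nat_lit 216138) (nat_lit 0) .nil) .nil))) 
(.lf (nat_lit 517763) (.g (nat_lit 3637) (.e (nat_lit 196666) (nat_lit 13) (.e (nat_lit 65617) (nat_lit 10) (.e (nat_lit 344127) (nat_lit 26) (.e (nat_lit 557090) (nat_lit 12) (.e (nat_lit 163843) (nat_lit 0) (.e (nat_lit 6254) (nat_lit 337) (.e (nat_lit 2725) (nat_lit 172) (.e (nat_lit 237590) (nat_lit 2) .nil)))))))) (.g (nat_lit 1) (.e (nat_lit 216851) (nat_lit 0) .nil) .nil)))) 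
(.nd (nat_lit 9) 
(.lf (nat_lit 517507) (.g (nat_lit 2478) (.e (nat_lit 196666) (nat_lit 13) (.e (nat_lit 65610) (nat_lit 10) (.e (nat_lit 344117) (nat_lit 21) (.e (nat_lit 516192) (nat_lit 17) .nil)))) (.g (nat_lit 0) (.e (nat_lit 216473) (nat_lit 0) .nil) .nil))) 
(.lf (nat_lit 518019) (.g (nat_lit 1289) (.e (nat_lit 196666) (nat_lit 13) (.e (nat_lit 65619) (nat_lit 10) (.e (nat_lit 344117) (nat_lit 21) (.e (nat_lit 516142) (nat_lit 8) .nil)))) (.g (nat_lit 0) (.e (nat_lit 217139) (nat_lit 0) .nil) .nil)))))) (.nd (nat_lit 7) (.nd (nat_lit 8) (.nd (nat_lit 9) 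
(.lf (nat_lit 517187) (.g (nat_lit 3135) (.e (nat_lit 196666) (nat_lit 13) (.e (nat_lit 65610) (nat_lit 10) (.e (nat_lit 344117) (nat_lit 21) (.e (nat_lit 516151) (nat_lit 9) (.e (nat_lit 426038) (nat_lit 0) (.e (nat_lit 3369) (nat_lit 208) (.e (nat_lit 622622) (nat_lit 13) (.e (nat_lit 2662) (nat_lit 167) .nil)))))))) (.g (nat_lit 1) (.e (nat_lit 216074) (nat_lit 0) .nil) .nil))) 
(.lf (nat_lit 517699) (.g (nat_lit 2370) (.e (nat_lit 196666) (nat_lit 13) (.e (nat_lit 65610) (nat_lit 10) (.e (nat_lit 344129) (nat_lit 26) (.e (nat_lit 557120) (nat_lit 18) .nil)))) (.g (nat_lit 0) (.e (nat_lit 216768) (nat_lit 0) .nil) .nil)))) (.nd (nat_lit 9) 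
(.lf (nat_lit 517443) (.g (nat_lit 3408) (.e (nat_lit 196666) (nat_lit 13) (.e (nat_lit 65610) (nat_lit 10) (.e (nat_lit 344117) (nat_lit 21) (.e (nat_lit 516159) (nat_lit 10) (.e (nat_lit 434275) (nat_lit 39) (.e (nat_lit 663555) (nat_lit 0) (.e (nat_lit 7936) (nat_lit 11) .nil))))))) (.g (nat_lit 1) (.e (nat_lit 216366) (nat_lit 0) .nil) .nil))) 
(.lf (nat_lit 517955) (.g (nat_lit 4603) (.e (nat_lit 196666) (nat_lit 13) (.e (nat_lit 65617) (nat_lit 10) (.e (nat_lit 344133) (nat_lit 26) (.e (nat_lit 557089) (nat_lit 12) (.e (nat_lit 163844) (nat_lit 0) (.e (nat_lit 6255) (nat_lit 337) (.e (nat_lit 2630) (nat_lit 164) (.e (nat_lit 172062) (nat_lit 2) .nil)))))))) (.g (nat_lit 1) (.e (nat_lit 217069) (nat_lit 0) .nil) .nil))))) 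
(.nd (nat_lit 8) (.nd (nat_lit 9) 
(.lf (nat_lit 517315) (.g (nat_lit 3194) (.e (nat_lit 196666) (nat_lit 13) (.e (nat_lit 65610) (nat_lit 10) (.e (nat_lit 344117) (nat_lit 21) (.e (nat_lit 516151) (nat_lit 9) (.e (nat_lit 426045) (nat_lit 0) (.e (nat_lit 3369) (nat_lit 208) (.e (nat_lit 622627) (nat_lit 13) (.e (nat_lit 2666) (nat_lit 167) .nil)))))))) (.g (nat_lit 1) (.e (nat_lit 216202) (nat_lit 0) .nil) .nil))) 
(.lf (nat_lit 517827) (.g (nat_lit 2033) (.e (nat_lit 196666) (nat_lit 13) (.e (nat_lit 65617) (nat_lit 10) (.e (nat_lit 344130) (nat_lit 26) (.e (nat_lit 557067) (nat_lit 9) (.e (nat_lit 2467) (nat_lit 157) .nil))))) (.g (nat_lit 0) (.e (nat_lit 216928) (nat_lit 0) .nil) .nil)))) (.nd (nat_lit 9) 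
(.lf (nat_lit 517571) (.g (nat_lit 1774) (.e (nat_lit 196666) (nat_lit 13) (.e (nat_lit 65610) (nat_lit 10) (.e (nat_lit 344129) (nat_lit 26) (.e (nat_lit 557084) (nat_lit 10) (.e (nat_lit 8287) (nat_lit 51) .nil))))) (.g (nat_lit 0) (.e (nat_lit 216603) (nat_lit 0) .nil) .nil))) 
(.lf (nat_lit 518083) (.g (nat_lit 2084) (.e (nat_lit 196666) (nat_lit 13) (.e (nat_lit 65630) (nat_lit 14) (.e (nat_lit 401425) (nat_lit 2) (.e (nat_lit 196624) (nat_lit 9) .nil)))) (.g (nat_lit 0) (.e (nat_lit 217243) (nat_lit 0) .nil) .nil))))))) (.nd (nat_lit 6) (.nd (nat_lit 7) (.nd (nat_lit 8) (.nd (nat_lit 9) 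
(.lf (nat_lit 517155) (.g (nat_lit 3281) (.e (nat_lit 196666) (nat_lit 13) (.e (nat_lit 65610) (nat_lit 10) (.e (nat_lit 344117) (nat_lit 21) (.e (nat_lit 516151) (nat_lit 9) (.e (nat_lit 426038) (nat_lit 0) (.e (nat_lit 2423) (nat_lit 157) (.e (nat_lit 4848) (nat_lit 285) (.e (nat_lit 163866) (nat_lit 2) .nil)))))))) (.g (nat_lit 1) (.e (nat_lit 216042) (nat_lit 0) .nil) .nil))) 
(.lf (nat_lit 517667) (.g (nat_lit 2412) (.e (nat_lit 196666) (nat_lit 13) (.e (nat_lit 65610) (nat_lit 10) (.e (nat_lit 344129) (nat_lit 26) (.e (nat_lit 557090) (nat_lit 12) (.e (nat_lit 163849) (nat_lit 0) (.e (nat_lit 6254) (nat_lit 337) (.e (nat_lit 2725) (nat_lit 172) (.e (nat_lit 237587) (nat_lit 2) .nil)))))))) (.g (nat_lit 1) (.e (nat_lit 216733) (nat_lit 0) .nil) .nil)))) 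
(.nd (nat_lit 9) 
(.lf (nat_lit 517411) (.g (nat_lit 4537) (.e (nat_lit 196666) (nat_lit 13) (.e (nat_lit 65610) (nat_lit 10) (.e (nat_lit 344117) (nat_lit 21) (.e (nat_lit 516151) (nat_lit 9) (.e (nat_lit 426047) (nat_lit 0) (.e (nat_lit 3370) (nat_lit 208) (.e (nat_lit 622627) (nat_lit 13) (.e (nat_lit 2663) (nat_lit 167) .nil)))))))) (.g (nat_lit 1) (.e (nat_lit 216298) (nat_lit 0) .nil) .nil))) 
(.lf (nat_lit 517923) (.g (nat_lit 3896) (.e (nat_lit 196666) (nat_lit 13) (.e (nat_lit 65617) (nat_lit 10) (.e (nat_lit 344132) (nat_lit 26) (.e (nat_lit 557091) (nat_lit 12) (.e (nat_lit 164020) (nat_lit 45) (.e (nat_lit 696343) (nat_lit 8) (.e (nat_lit 172062) (nat_lit 2) .nil))))))) (.g (nat_lit 1) (.e (nat_lit 217032) (nat_lit 0) .nil) .nil))))) (.nd (nat_lit 8) (.nd (nat_lit 9) 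
(.lf (nat_lit 517283) (.g (nat_lit 3232) (.e (nat_lit 196666) (nat_lit 13) (.e (nat_lit 65610) (nat_lit 10) (.e (nat_lit 344117) (nat_lit 21) (.e (nat_lit 516151) (nat_lit 9) (.e (nat_lit 426042) (nat_lit 0) (.e (nat_lit 3371) (nat_lit 208) (.e (nat_lit 622622) (nat_lit 13) (.e (nat_lit 2662) (nat_lit 167) .nil)))))))) (.g (nat_lit 1) (.e (nat_lit 216170) (nat_lit 0) .nil) .nil))) 
(.lf (nat_lit 517795) (.g (nat_lit 2440) (.e (nat_lit 196666) (nat_lit 13) (.e (nat_lit 65617) (nat_lit 10) (.e (nat_lit 344127) (nat_lit 26) (.e (nat_lit 557090) (nat_lit 12) (.e (nat_lit 164016) (nat_lit 44) (.e (nat_lit 688140) (nat_lit 5) (.e (nat_lit 2883) (nat_lit 184) (.e (nat_lit 426125) (nat_lit 2) .nil)))))))) (.g (nat_lit 1) (.e (nat_lit 216885) (nat_lit 0) .nil) .nil)))) 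
(.nd (nat_lit 9) 
(.lf (nat_lit 517539) (.g (nat_lit 2037) (.e (nat_lit 196666) (nat_lit 13) (.e (nat_lit 65610) (nat_lit 10) (.e (nat_lit 344129) (nat_lit 26) (.e (nat_lit 557067) (nat_lit 9) (.e (nat_lit 2439) (nat_lit 157) .nil))))) (.g (nat_lit 0) (.e (nat_lit 216538) (nat_lit 0) .nil) .nil))) 
(.lf (nat_lit 518051) (.g (nat_lit 2077) (.e (nat_lit 196666) (nat_lit 13) (.e (nat_lit 65624) (nat_lit 12) (.e (nat_lit 385074) (nat_lit 31) (.e (nat_lit 573456) (nat_lit 9) (.e (nat_lit 1444) (nat_lit 108) .nil))))) (.g (nat_lit 0) (.e (nat_lit 217190) (nat_lit 0) .nil) .nil)))))) (.nd (nat_lit 7) (.nd (nat_lit 8) (.nd (nat_lit 9) 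
(.lf (nat_lit 517219) (.g (nat_lit 3607) (.e (nat_lit 196666) (nat_lit 13) (.e (nat_lit 65610) (nat_lit 10) (.e (nat_lit 344117) (nat_lit 21) (.e (nat_lit 516151) (nat_lit 9) (.e (nat_lit 426040) (nat_lit 0) (.e (nat_lit 2426) (nat_lit 157) (.e (nat_lit 4778) (nat_lit 281) (.e (nat_lit 2444) (nat_lit 157) (.e (nat_lit 2668) (nat_lit 167) .nil))))))))) (.g (nat_lit 1) (.e (nat_lit 216106) (nat_lit 0) .nil) .nil))) 
(.lf (nat_lit 517731) (.g (nat_lit 2539) (.e (nat_lit 196666) (nat_lit 13) (.e (nat_lit 65617) (nat_lit 10) (.e (nat_lit 344117) (nat_lit 21) (.e (nat_lit 516106) (nat_lit 0) (.e (nat_lit 7095) (nat_lit 380) .nil))))) (.g (nat_lit 0) (.e (nat_lit 216807) (nat_lit 0) .nil) .nil)))) (.nd (nat_lit 9) 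
(.lf (nat_lit 517475) (.g (nat_lit 3313) (.e (nat_lit 196666) (nat_lit 13) (.e (nat_lit 65610) (nat_lit 10) (.e (nat_lit 344117) (nat_lit 21) (.e (nat_lit 516160) (nat_lit 10) (.e (nat_lit 434276) (nat_lit 39) (.e (nat_lit 663552) (nat_lit 0) (.e (nat_lit 161) (nat_lit 11) .nil))))))) (.g (nat_lit 1) (.e (nat_lit 216429) (nat_lit 0) .nil) .nil))) 
(.lf (nat_lit 517987) (.g (nat_lit 2939) (.e (nat_lit 196666) (nat_lit 13) (.e (nat_lit 65617) (nat_lit 10) (.e (nat_lit 344133) (nat_lit 26) (.e (nat_lit 557091) (nat_lit 12) (.e (nat_lit 164020) (nat_lit 45) (.e (nat_lit 696344) (nat_lit 8) (.e (nat_lit 172063) (nat_lit 2) .nil))))))) (.g (nat_lit 1) (.e (nat_lit 217101) (nat_lit 0) .nil) .nil))))) (.nd (nat_lit 8) (.nd (nat_lit 9) 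
(.lf (nat_lit 517347) (.g (nat_lit 3207) (.e (nat_lit 196666) (nat_lit 13) (.e (nat_lit 65610) (nat_lit 10) (.e (nat_lit 344117) (nat_lit 21) (.e (nat_lit 516151) (nat_lit 9) (.e (nat_lit 426050) (nat_lit 0) (.e (nat_lit 3366) (nat_lit 208) (.e (nat_lit 622620) (nat_lit 13) (.e (nat_lit 2666) (nat_lit 167) .nil)))))))) (.g (nat_lit 1) (.e (nat_lit 216234) (nat_lit 0) .nil) .nil))) 
(.lf (nat_lit 517859) (.g (nat_lit 2420) (.e (nat_lit 196666) (nat_lit 13) (.e (nat_lit 65617) (nat_lit 10) (.e (nat_lit 344130) (nat_lit 26) (.e (nat_lit 557089) (nat_lit 12) (.e (nat_lit 171776) (nat_lit 48) (.e (nat_lit 720909) (nat_lit 11) (.e (nat_lit 426122) (nat_lit 2) .nil))))))) (.g (nat_lit 1) (.e (nat_lit 216963) (nat_lit 0) .nil) .nil)))) (.nd (nat_lit 9) 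
(.lf (nat_lit 517603) (.g (nat_lit 2751) (.e (nat_lit 196666) (nat_lit 13) (.e (nat_lit 65610) (nat_lit 10) (.e (nat_lit 344129) (nat_lit 26) (.e (nat_lit 557089) (nat_lit 12) (.e (nat_lit 163843) (nat_lit 0) (.e (nat_lit 6252) (nat_lit 337) (.e (nat_lit 2630) (nat_lit 164) (.e (nat_lit 172062) (nat_lit 2) .nil)))))))) (.g (nat_lit 1) (.e (nat_lit 216648) (nat_lit 0) .nil) .nil))) 
(.lf (nat_lit 518115) (.g (nat_lit 2075) (.e (nat_lit 196668) (nat_lit 14) (.e (nat_lit 73746) (nat_lit 3) (.e (nat_lit 516115) (nat_lit 1) (.e (nat_lit 164153) (nat_lit 152) (.e (nat_lit 1027) (nat_lit 81) .nil))))) (.g (nat_lit 0) (.e (nat_lit 217317) (nat_lit 0) .nil) .nil)))))))) (.nd (nat_lit 5) (.nd (nat_lit 6) (.nd (nat_lit 7) (.nd (nat_lit 8) (.nd (nat_lit 9) 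
(.lf (nat_lit 517139) (.g (nat_lit 4099) (.e (nat_lit 196666) (nat_lit 13) (.e (nat_lit 65610) (nat_lit 10) (.e (nat_lit 344117) (nat_lit 21) (.e (nat_lit 516151) (nat_lit 9) (.e (nat_lit 426038) (nat_lit 0) (.e (nat_lit 2416) (nat_lit 157) (.e (nat_lit 4848) (nat_lit 285) (.e (nat_lit 163870) (nat_lit 2) .nil)))))))) (.g (nat_lit 1) (.e (nat_lit 216026) (nat_lit 0) .nil) .nil))) 
(.lf (nat_lit 517651) (.g (nat_lit 3334) (.e (nat_lit 196666) (nat_lit 13) (.e (nat_lit 65610) (nat_lit 10) (.e (nat_lit 344129) (nat_lit 26) (.e (nat_lit 557090) (nat_lit 12) (.e (nat_lit 163844) (nat_lit 0) (.e (nat_lit 6255) (nat_lit 337) (.e (nat_lit 2725) (nat_lit 172) (.e (nat_lit 237587) (nat_lit 2) .nil)))))))) (.g (nat_lit 1) (.e (nat_lit 216714) (nat_lit 0) .nil) .nil)))) 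
(.nd (nat_lit 9) 
(.lf (nat_lit 517395) (.g (nat_lit 4611) (.e (nat_lit 196666) (nat_lit 13) (.e (nat_lit 65610) (nat_lit 10) (.e (nat_lit 344117) (nat_lit 21) (.e (nat_lit 516151) (nat_lit 9) (.e (nat_lit 426047) (nat_lit 0) (.e (nat_lit 3366) (nat_lit 208) (.e (nat_lit 622627) (nat_lit 13) (.e (nat_lit 2665) (nat_lit 167) .nil)))))))) (.g (nat_lit 1) (.e (nat_lit 216282) (nat_lit 0) .nil) .nil))) 
(.lf (nat_lit 517907) (.g (nat_lit 1348) (.e (nat_lit 196666) (nat_lit 13) (.e (nat_lit 65617) (nat_lit 10) (.e (nat_lit 344130) (nat_lit 26) (.e (nat_lit 557091) (nat_lit 12) .nil)))) (.g (nat_lit 0) (.e (nat_lit 217013) (nat_lit 0) .nil) .nil))))) (.nd (nat_lit 8) (.nd (nat_lit 9) 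
(.lf (nat_lit 517267) (.g (nat_lit 2955) (.e (nat_lit 196666) (nat_lit 13) (.e (nat_lit 65610) (nat_lit 10) (.e (nat_lit 344117) (nat_lit 21) (.e (nat_lit 516151) (nat_lit 9) (.e (nat_lit 426042) (nat_lit 0) (.e (nat_lit 2425) (nat_lit 157) (.e (nat_lit 4848) (nat_lit 285) (.e (nat_lit 163865) (nat_lit 2) .nil)))))))) (.g (nat_lit 1) (.e (nat_lit 216154) (nat_lit 0) .nil) .nil))) 
(.lf (nat_lit 517779) (.g (nat_lit 2638) (.e (nat_lit 196666) (nat_lit 13) (.e (nat_lit 65617) (nat_lit 10) (.e (nat_lit 344127) (nat_lit 26) (.e (nat_lit 557090) (nat_lit 12) (.e (nat_lit 163847) (nat_lit 0) (.e (nat_lit 6420) (nat_lit 341) (.e (nat_lit 163900) (nat_lit 12) (.e (nat_lit 426125) (nat_lit 2) .nil)))))))) (.g (nat_lit 1) (.e (nat_lit 216867) (nat_lit 0) .nil) .nil)))) 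
(.nd (nat_lit 9) 
(.lf (nat_lit 517523) (.g (nat_lit 5328) (.e (nat_lit 196666) (nat_lit 13) (.e (nat_lit 65610) (nat_lit 10) (.e (nat_lit 344128) (nat_lit 26) (.e (nat_lit 557090) (nat_lit 12) (.e (nat_lit 164020) (nat_lit 45) (.e (nat_lit 696344) (nat_lit 8) (.e (nat_lit 172064) (nat_lit 2) .nil))))))) (.g (nat_lit 1) (.e (nat_lit 216511) (nat_lit 0) .nil) .nil))) 
(.lf (nat_lit 518035) (.g (nat_lit 4210) (.e (nat_lit 196666) (nat_lit 13) (.e (nat_lit 65622) (nat_lit 12) (.e (nat_lit 385074) (nat_lit 31) (.e (nat_lit 573484) (nat_lit 13) (.e (nat_lit 65630) (nat_lit 14) (.e (nat_lit 401425) (nat_lit 2) .nil)))))) (.g (nat_lit 1) (.e (nat_lit 217161) (nat_lit 0) .nil) .nil)))))) (.nd (nat_lit 7) (.nd (nat_lit 8) (.nd (nat_lit 9) 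
(.lf (nat_lit 517203) (.g (nat_lit 3866) (.e (nat_lit 196666) (nat_lit 13) (.e (nat_lit 65610) (nat_lit 10) (.e (nat_lit 344117) (nat_lit 21) (.e (nat_lit 516151) (nat_lit 9) (.e (nat_lit 426038) (nat_lit 0) (.e (nat_lit 3370) (nat_lit 208) (.e (nat_lit 630528) (nat_lit 13) (.e (nat_lit 2666) (nat_lit 167) .nil)))))))) (.g (nat_lit 1) (.e (nat_lit 216090) (nat_lit 0) .nil) .nil))) 
(.lf (nat_lit 517715) (.g (nat_lit 393) (.e (nat_lit 196666) (nat_lit 13) (.e (nat_lit 65617) (nat_lit 10) (.e (nat_lit 344096) (nat_lit 18) .nil))) (.g (nat_lit 0) (.e (nat_lit 216788) (nat_lit 0) .nil) .nil)))) (.nd (nat_lit 9) 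
(.lf (nat_lit 517459) (.g (nat_lit 2836) (.e (nat_lit 196666) (nat_lit 13) (.e (nat_lit 65610) (nat_lit 10) (.e (nat_lit 344117) (nat_lit 21) (.e (nat_lit 516160) (nat_lit 10) (.e (nat_lit 434264) (nat_lit 34) (.e (nat_lit 622622) (nat_lit 13) (.e (nat_lit 2662) (nat_lit 167) .nil))))))) (.g (nat_lit 1) (.e (nat_lit 216411) (nat_lit 0) .nil) .nil))) 
(.lf (nat_lit 517971) (.g (nat_lit 1903) (.e (nat_lit 196666) (nat_lit 13) (.e (nat_lit 65617) (nat_lit 10) (.e (nat_lit 344133) (nat_lit 26) (.e (nat_lit 557091) (nat_lit 12) (.e (nat_lit 163843) (nat_lit 0) .nil))))) (.g (nat_lit 0) (.e (nat_lit 217085) (nat_lit 0) .nil) .nil))))) (.nd (nat_lit 8) (.nd (nat_lit 9) 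
(.lf (nat_lit 517331) (.g (nat_lit 3852) (.e (nat_lit 196666) (nat_lit 13) (.e (nat_lit 65610) (nat_lit 10) (.e (nat_lit 344117) (nat_lit 21) (.e (nat_lit 516151) (nat_lit 9) (.e (nat_lit 426049) (nat_lit 0) (.e (nat_lit 2515) (nat_lit 157) (.e (nat_lit 4823) (nat_lit 281) (.e (nat_lit 2477) (nat_lit 157) (.e (nat_lit 2663) (nat_lit 167) .nil))))))))) (.g (nat_lit 1) (.e (nat_lit 216218) (nat_lit 0) .nil) .nil))) 
(.lf (nat_lit 517843) (.g (nat_lit 3486) (.e (nat_lit 196666) (nat_lit 13) (.e (nat_lit 65617) (nat_lit 10) (.e (nat_lit 344130) (nat_lit 26) (.e (nat_lit 557087) (nat_lit 11) (.e (nat_lit 24584) (nat_lit 0) (.e (nat_lit 6664) (nat_lit 357) (.e (nat_lit 2661) (nat_lit 167) .nil))))))) (.g (nat_lit 1) (.e (nat_lit 216946) (nat_lit 0) .nil) .nil)))) (.nd (nat_lit 9) 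
(.lf (nat_lit 517587) (.g (nat_lit 2349) (.e (nat_lit 196666) (nat_lit 13) (.e (nat_lit 65610) (nat_lit 10) (.e (nat_lit 344129) (nat_lit 26) (.e (nat_lit 557087) (nat_lit 11) (.e (nat_lit 24589) (nat_lit 0) (.e (nat_lit 7936) (nat_lit 357) (.e (nat_lit 2666) (nat_lit 167) .nil))))))) (.g (nat_lit 1) (.e (nat_lit 216630) (nat_lit 0) .nil) .nil))) 
(.lf (nat_lit 518099) (.g (nat_lit 1953) (.e (nat_lit 196667) (nat_lit 14) (.e (nat_lit 73753) (nat_lit 8) (.e (nat_lit 557103) (nat_lit 14) (.e (nat_lit 180243) (nat_lit 5) .nil)))) (.g (nat_lit 0) (.e (nat_lit 217277) (nat_lit 0) .nil) .nil))))))) (.nd (nat_lit 6) (.nd (nat_lit 7) (.nd (nat_lit 8) (.nd (nat_lit 9) 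
(.lf (nat_lit 517171) (.g (nat_lit 4674) (.e (nat_lit 196666) (nat_lit 13) (.e (nat_lit 65610) (nat_lit 10) (.e (nat_lit 344117) (nat_lit 21) (.e (nat_lit 516151) (nat_lit 9) (.e (nat_lit 426038) (nat_lit 0) (.e (nat_lit 2438) (nat_lit 157) (.e (nat_lit 4817) (nat_lit 281) (.e (nat_lit 2477) (nat_lit 157) (.e (nat_lit 2663) (nat_lit 167) .nil))))))))) (.g (nat_lit 1) (.e (nat_lit 216058) (nat_lit 0) .nil) .nil))) 
(.lf (nat_lit 517683) (.g (nat_lit 2334) (.e (nat_lit 196666) (nat_lit 13) (.e (nat_lit 65610) (nat_lit 10) (.e (nat_lit 344129) (nat_lit 26) (.e (nat_lit 557090) (nat_lit 12) (.e (nat_lit 164019) (nat_lit 45) (.e (nat_lit 696330) (nat_lit 5) (.e (nat_lit 2884) (nat_lit 184) (.e (nat_lit 426125) (nat_lit 2) .nil)))))))) (.g (nat_lit 1) (.e (nat_lit 216752) (nat_lit 0) .nil) .nil)))) 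
(.nd (nat_lit 9) 
(.lf (nat_lit 517427) (.g (nat_lit 3926) (.e (nat_lit 196666) (nat_lit 13) (.e (nat_lit 65610) (nat_lit 10) (.e (nat_lit 344117) (nat_lit 21) (.e (nat_lit 516151) (nat_lit 9) (.e (nat_lit 426367) (nat_lit 15) (.e (nat_lit 7936) (nat_lit 139) (.e (nat_lit 679968) (nat_lit 13) (.e (nat_lit 2663) (nat_lit 167) .nil)))))))) (.g (nat_lit 1) (.e (nat_lit 216324) (nat_lit 0) .nil) .nil))) 
(.lf (nat_lit 517939) (.g (nat_lit 2837) (.e (nat_lit 196666) (nat_lit 13) (.e (nat_lit 65617) (nat_lit 10) (.e (nat_lit 344133) (nat_lit 26) (.e (nat_lit 557068) (nat_lit 9) (.e (nat_lit 22) (nat_lit 0) (.e (nat_lit 6236) (nat_lit 335) (.e (nat_lit 164359) (nat_lit 246) (.e (nat_lit 2661) (nat_lit 167) .nil)))))))) (.g (nat_lit 1) (.e (nat_lit 217051) (nat_lit 0) .nil) .nil))))) 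
(.nd (nat_lit 8) (.nd (nat_lit 9) 
(.lf (nat_lit 517299) (.g (nat_lit 3250) (.e (nat_lit 196666) (nat_lit 13) (.e (nat_lit 65610) (nat_lit 10) (.e (nat_lit 344117) (nat_lit 21) (.e (nat_lit 516151) (nat_lit 9) (.e (nat_lit 426045) (nat_lit 0) (.e (nat_lit 3366) (nat_lit 208) (.e (nat_lit 622620) (nat_lit 13) (.e (nat_lit 2666) (nat_lit 167) .nil)))))))) (.g (nat_lit 1) (.e (nat_lit 216186) (nat_lit 0) .nil) .nil))) 
(.lf (nat_lit 517811) (.g (nat_lit 1352) (.e (nat_lit 196666) (nat_lit 13) (.e (nat_lit 65617) (nat_lit 10) (.e (nat_lit 344129) (nat_lit 26) (.e (nat_lit 557066) (nat_lit 9) .nil)))) (.g (nat_lit 0) (.e (nat_lit 216902) (nat_lit 0) .nil) .nil)))) (.nd (nat_lit 9) 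
(.lf (nat_lit 517555) (.g (nat_lit 3059) (.e (nat_lit 196666) (nat_lit 13) (.e (nat_lit 65610) (nat_lit 10) (.e (nat_lit 344129) (nat_lit 26) (.e (nat_lit 557067) (nat_lit 9) (.e (nat_lit 2739) (nat_lit 174) (.e (nat_lit 253988) (nat_lit 11) (.e (nat_lit 16413) (nat_lit 2) .nil))))))) (.g (nat_lit 1) (.e (nat_lit 216564) (nat_lit 0) .nil) .nil))) 
(.lf (nat_lit 518067) (.g (nat_lit 2073) (.e (nat_lit 196666) (nat_lit 13) (.e (nat_lit 65628) (nat_lit 14) (.e (nat_lit 401425) (nat_lit 2) (.e (nat_lit 196669) (nat_lit 14) .nil)))) (.g (nat_lit 0) (.e (nat_lit 217223) (nat_lit 0) .nil) .nil)))))) (.nd (nat_lit 7) (.nd (nat_lit 8) (.nd (nat_lit 9) 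
(.lf (nat_lit 517235) (.g (nat_lit 3345) (.e (nat_lit 196666) (nat_lit 13) (.e (nat_lit 65610) (nat_lit 10) (.e (nat_lit 344117) (nat_lit 21) (.e (nat_lit 516151) (nat_lit 9) (.e (nat_lit 426040) (nat_lit 0) (.e (nat_lit 3369) (nat_lit 208) (.e (nat_lit 622623) (nat_lit 13) (.e (nat_lit 2668) (nat_lit 167) .nil)))))))) (.g (nat_lit 1) (.e (nat_lit 216122) (nat_lit 0) .nil) .nil))) 
(.lf (nat_lit 517747) (.g (nat_lit 2585) (.e (nat_lit 196666) (nat_lit 13) (.e (nat_lit 65617) (nat_lit 10) (.e (nat_lit 344124) (nat_lit 25) (.e (nat_lit 548890) (nat_lit 10) (.e (nat_lit 73782) (nat_lit 32) (.e (nat_lit 2663) (nat_lit 167) .nil)))))) (.g (nat_lit 1) (.e (nat_lit 216824) (nat_lit 0) .nil) .nil)))) (.nd (nat_lit 9) 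
(.lf (nat_lit 517491) (.g (nat_lit 2713) (.e (nat_lit 196666) (nat_lit 13) (.e (nat_lit 65610) (nat_lit 10) (.e (nat_lit 344117) (nat_lit 21) (.e (nat_lit 516184) (nat_lit 16) (.e (nat_lit 491524) (nat_lit 0) .nil))))) (.g (nat_lit 0) (.e (nat_lit 216452) (nat_lit 0) .nil) .nil))) 
(.lf (nat_lit 518003) (.g (nat_lit 2082) (.e (nat_lit 196666) (nat_lit 13) (.e (nat_lit 65619) (nat_lit 10) (.e (nat_lit 344117) (nat_lit 21) (.e (nat_lit 516097) (nat_lit 0) (.e (nat_lit 7581) (nat_lit 405) .nil))))) (.g (nat_lit 0) (.e (nat_lit 217123) (nat_lit 0) .nil) .nil))))) (.nd (nat_lit 8) (.nd (nat_lit 9) 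
(.lf (nat_lit 517363) (.g (nat_lit 4088) (.e (nat_lit 196666) (nat_lit 13) (.e (nat_lit 65610) (nat_lit 10) (.e (nat_lit 344117) (nat_lit 21) (.e (nat_lit 516151) (nat_lit 9) (.e (nat_lit 426047) (nat_lit 0) (.e (nat_lit 2422) (nat_lit 157) (.e (nat_lit 4848) (nat_lit 285) (.e (nat_lit 163870) (nat_lit 2) .nil)))))))) (.g (nat_lit 1) (.e (nat_lit 216250) (nat_lit 0) .nil) .nil))) 
(.lf (nat_lit 517875) (.g (nat_lit 1926) (.e (nat_lit 196666) (nat_lit 13) (.e (nat_lit 65617) (nat_lit 10) (.e (nat_lit 344130) (nat_lit 26) (.e (nat_lit 557090) (nat_lit 12) (.e (nat_lit 163847) (nat_lit 0) .nil))))) (.g (nat_lit 0) (.e (nat_lit 216980) (nat_lit 0) .nil) .nil)))) (.nd (nat_lit 9) 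
(.lf (nat_lit 517619) (.g (nat_lit 666) (.e (nat_lit 196666) (nat_lit 13) (.e (nat_lit 65610) (nat_lit 10) (.e (nat_lit 344129) (nat_lit 26) (.e (nat_lit 557090) (nat_lit 12) .nil)))) (.g (nat_lit 0) (.e (nat_lit 216667) (nat_lit 0) .nil) .nil))) 
(.lf (nat_lit 518131) (.g (nat_lit 1450) (.e (nat_lit 196668) (nat_lit 14) (.e (nat_lit 73746) (nat_lit 3) (.e (nat_lit 516117) (nat_lit 1) (.e (nat_lit 164180) (nat_lit 154) .nil)))) (.g (nat_lit 0) (.e (nat_lit 217377) (nat_lit 0) .nil) .nil))))))))) (.nd (nat_lit 4) (.nd (nat_lit 5) (.nd (nat_lit 6) (.nd (nat_lit 7) (.nd (nat_lit 8) (.nd (nat_lit 9) 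
(.lf (nat_lit 517131) (.g (nat_lit 3348) (.e (nat_lit 196666) (nat_lit 13) (.e (nat_lit 65610) (nat_lit 10) (.e (nat_lit 344117) (nat_lit 21) (.e (nat_lit 516151) (nat_lit 9) (.e (nat_lit 426037) (nat_lit 0) (.e (nat_lit 3370) (nat_lit 208) (.e (nat_lit 622626) (nat_lit 13) (.e (nat_lit 2666) (nat_lit 167) .nil)))))))) (.g (nat_lit 1) (.e (nat_lit 216018) (nat_lit 0) .nil) .nil))) 
(.lf (nat_lit 517643) (.g (nat_lit 2506) (.e (nat_lit 196666) (nat_lit 13) (.e (nat_lit 65610) (nat_lit 10) (.e (nat_lit 344129) (nat_lit 26) (.e (nat_lit 557090) (nat_lit 12) (.e (nat_lit 163843) (nat_lit 0) (.e (nat_lit 6255) (nat_lit 337) (.e (nat_lit 2620) (nat_lit 164) (.e (nat_lit 172062) (nat_lit 2) .nil)))))))) (.g (nat_lit 1) (.e (nat_lit 216704) (nat_lit 0) .nil) .nil)))) 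
(.nd (nat_lit 9) 
(.lf (nat_lit 517387) (.g (nat_lit 3542) (.e (nat_lit 196666) (nat_lit 13) (.e (nat_lit 65610) (nat_lit 10) (.e (nat_lit 344117) (nat_lit 21) (.e (nat_lit 516151) (nat_lit 9) (.e (nat_lit 426047) (nat_lit 0) (.e (nat_lit 2427) (nat_lit 157) (.e (nat_lit 4778) (nat_lit 281) (.e (nat_lit 2445) (nat_lit 157) (.e (nat_lit 2668) (nat_lit 167) .nil))))))))) (.g (nat_lit 1) (.e (nat_lit 216274) (nat_lit 0) .nil) .nil))) 
(.lf (nat_lit 517899) (.g (nat_lit 4346) (.e (nat_lit 196666) (nat_lit 13) (.e (nat_lit 65617) (nat_lit 10) (.e (nat_lit 344130) (nat_lit 26) (.e (nat_lit 557090) (nat_lit 12) (.e (nat_lit 164022) (nat_lit 46) (.e (nat_lit 704628) (nat_lit 9) (.e (nat_lit 391) (nat_lit 32) (.e (nat_lit 426121) (nat_lit 2) .nil)))))))) (.g (nat_lit 1) (.e (nat_lit 217004) (nat_lit 0) .nil) .nil))))) 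
(.nd (nat_lit 8) (.nd (nat_lit 9) 
(.lf (nat_lit 517259) (.g (nat_lit 2496) (.e (nat_lit 196666) (nat_lit 13) (.e (nat_lit 65610) (nat_lit 10) (.e (nat_lit 344117) (nat_lit 21) (.e (nat_lit 516151) (nat_lit 9) (.e (nat_lit 426042) (nat_lit 0) (.e (nat_lit 2422) (nat_lit 157) (.e (nat_lit 4850) (nat_lit 286) (.e (nat_lit 229387) (nat_lit 2) .nil)))))))) (.g (nat_lit 1) (.e (nat_lit 216146) (nat_lit 0) .nil) .nil))) 
(.lf (nat_lit 517771) (.g (nat_lit 3019) (.e (nat_lit 196666) (nat_lit 13) (.e (nat_lit 65617) (nat_lit 10) (.e (nat_lit 344127) (nat_lit 26) (.e (nat_lit 557090) (nat_lit 12) (.e (nat_lit 163844) (nat_lit 0) (.e (nat_lit 6420) (nat_lit 341) (.e (nat_lit 171776) (nat_lit 12) (.e (nat_lit 426123) (nat_lit 2) .nil)))))))) (.g (nat_lit 1) (.e (nat_lit 216859) (nat_lit 0) .nil) .nil)))) 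
(.nd (nat_lit 9) 
(.lf (nat_lit 517515) (.g (nat_lit 3734) (.e (nat_lit 196666) (nat_lit 13) (.e (nat_lit 65610) (nat_lit 10) (.e (nat_lit 344127) (nat_lit 26) (.e (nat_lit 557090) (nat_lit 12) (.e (nat_lit 164020) (nat_lit 45) (.e (nat_lit 696344) (nat_lit 8) (.e (nat_lit 172062) (nat_lit 2) .nil))))))) (.g (nat_lit 1) (.e (nat_lit 216503) (nat_lit 0) .nil) .nil))) 
(.lf (nat_lit 518027) (.g (nat_lit 2659) (.e (nat_lit 196666) (nat_lit 13) (.e (nat_lit 65622) (nat_lit 12) (.e (nat_lit 385066) (nat_lit 26) (.e (nat_lit 532513) (nat_lit 3) (.e (nat_lit 114697) (nat_lit 11) (.e (nat_lit 426122) (nat_lit 2) .nil)))))) (.g (nat_lit 1) (.e (nat_lit 217148) (nat_lit 0) .nil) .nil)))))) (.nd (nat_lit 7) (.nd (nat_lit 8) (.nd (nat_lit 9) 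
(.lf (nat_lit 517195) (.g (nat_lit 4065) (.e (nat_lit 196666) (nat_lit 13) (.e (nat_lit 65610) (nat_lit 10) (.e (nat_lit 344117) (nat_lit 21) (.e (nat_lit 516151) (nat_lit 9) (.e (nat_lit 426038) (nat_lit 0) (.e (nat_lit 3370) (nat_lit 208) (.e (nat_lit 622620) (nat_lit 13) (.e (nat_lit 2666) (nat_lit 167) .nil)))))))) (.g (nat_lit 1) (.e (nat_lit 216082) (nat_lit 0) .nil) .nil))) 
(.lf (nat_lit 517707) (.g (nat_lit 1083) (.e (nat_lit 196666) (nat_lit 13) (.e (nat_lit 65611) (nat_lit 10) (.e (nat_lit 344117) (nat_lit 21) (.e (nat_lit 516139) (nat_lit 7) .nil)))) (.g (nat_lit 0) (.e (nat_lit 216776) (nat_lit 0) .nil) .nil)))) (.nd (nat_lit 9) 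
(.lf (nat_lit 517451) (.g (nat_lit 2602) (.e (nat_lit 196666) (nat_lit 13) (.e (nat_lit 65610) (nat_lit 10) (.e (nat_lit 344117) (nat_lit 21) (.e (nat_lit 516159) (nat_lit 10) (.e (nat_lit 434276) (nat_lit 39) (.e (nat_lit 663560) (nat_lit 0) (.e (nat_lit 7936) (nat_lit 11) .nil))))))) (.g (nat_lit 1) (.e (nat_lit 216374) (nat_lit 0) .nil) .nil))) 
(.lf (nat_lit 517963) (.g (nat_lit 1809) (.e (nat_lit 196666) (nat_lit 13) (.e (nat_lit 65617) (nat_lit 10) (.e (nat_lit 344133) (nat_lit 26) (.e (nat_lit 557089) (nat_lit 12) (.e (nat_lit 171776) (nat_lit 49) .nil))))) (.g (nat_lit 0) (.e (nat_lit 217077) (nat_lit 0) .nil) .nil))))) (.nd (nat_lit 8) (.nd (nat_lit 9) 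
(.lf (nat_lit 517323) (.g (nat_lit 3988) (.e (nat_lit 196666) (nat_lit 13) (.e (nat_lit 65610) (nat_lit 10) (.e (nat_lit 344117) (nat_lit 21) (.e (nat_lit 516151) (nat_lit 9) (.e (nat_lit 426045) (nat_lit 0) (.e (nat_lit 3371) (nat_lit 208) (.e (nat_lit 622620) (nat_lit 13) (.e (nat_lit 2663) (nat_lit 167) .nil)))))))) (.g (nat_lit 1) (.e (nat_lit 216210) (nat_lit 0) .nil) .nil))) 
(.lf (nat_lit 517835) (.g (nat_lit 2414) (.e (nat_lit 196666) (nat_lit 13) (.e (nat_lit 65617) (nat_lit 10) (.e (nat_lit 344130) (nat_lit 26) (.e (nat_lit 557087) (nat_lit 11) (.e (nat_lit 24576) (nat_lit 0) (.e (nat_lit 6670) (nat_lit 357) (.e (nat_lit 2664) (nat_lit 167) .nil))))))) (.g (nat_lit 1) (.e (nat_lit 216938) (nat_lit 0) .nil) .nil)))) (.nd (nat_lit 9) 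
(.lf (nat_lit 517579) (.g (nat_lit 1377) (.e (nat_lit 196666) (nat_lit 13) (.e (nat_lit 65610) (nat_lit 10) (.e (nat_lit 344129) (nat_lit 26) (.e (nat_lit 557086) (nat_lit 11) (.e (nat_lit 24663) (nat_lit 14) .nil))))) (.g (nat_lit 0) (.e (nat_lit 216622) (nat_lit 0) .nil) .nil))) 
(.lf (nat_lit 518091) (.g (nat_lit 1958) (.e (nat_lit 196666) (nat_lit 13) (.e (nat_lit 65630) (nat_lit 14) (.e (nat_lit 401428) (nat_lit 3) (.e (nat_lit 204845) (nat_lit 24) (.e (nat_lit 319491) (nat_lit 0) .nil))))) (.g (nat_lit 0) (.e (nat_lit 217261) (nat_lit 0) .nil) .nil))))))) (.nd (nat_lit 6) (.nd (nat_lit 7) (.nd (nat_lit 8) (.nd (nat_lit 9) 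
(.lf (nat_lit 517163) (.g (nat_lit 4361) (.e (nat_lit 196666) (nat_lit 13) (.e (nat_lit 65610) (nat_lit 10) (.e (nat_lit 344117) (nat_lit 21) (.e (nat_lit 516151) (nat_lit 9) (.e (nat_lit 426038) (nat_lit 0) (.e (nat_lit 2426) (nat_lit 157) (.e (nat_lit 4778) (nat_lit 281) (.e (nat_lit 2477) (nat_lit 157) (.e (nat_lit 2663) (nat_lit 167) .nil))))))))) (.g (nat_lit 1) (.e (nat_lit 216050) (nat_lit 0) .nil) .nil))) 
(.lf (nat_lit 517675) (.g (nat_lit 2729) (.e (nat_lit 196666) (nat_lit 13) (.e (nat_lit 65610) (nat_lit 10) (.e (nat_lit 344129) (nat_lit 26) (.e (nat_lit 557090) (nat_lit 12) (.e (nat_lit 163854) (nat_lit 0) (.e (nat_lit 6425) (nat_lit 342) (.e (nat_lit 229399) (nat_lit 12) (.e (nat_lit 426125) (nat_lit 2) .nil)))))))) (.g (nat_lit 1) (.e (nat_lit 216741) (nat_lit 0) .nil) .nil)))) 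
(.nd (nat_lit 9) 
(.lf (nat_lit 517419) (.g (nat_lit 2767) (.e (nat_lit 196666) (nat_lit 13) (.e (nat_lit 65610) (nat_lit 10) (.e (nat_lit 344117) (nat_lit 21) (.e (nat_lit 516151) (nat_lit 9) (.e (nat_lit 426097) (nat_lit 1) (.e (nat_lit 164404) (nat_lit 257) (.e (nat_lit 130816) (nat_lit 63) .nil))))))) (.g (nat_lit 1) (.e (nat_lit 216306) (nat_lit 0) .nil) .nil))) 
(.lf (nat_lit 517931) (.g (nat_lit 1182) (.e (nat_lit 196666) (nat_lit 13) (.e (nat_lit 65617) (nat_lit 10) (.e (nat_lit 344132) (nat_lit 26) (.e (nat_lit 557094) (nat_lit 12) .nil)))) (.g (nat_lit 0) (.e (nat_lit 217040) (nat_lit 0) .nil) .nil))))) (.nd (nat_lit 8) (.nd (nat_lit 9) 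
(.lf (nat_lit 517291) (.g (nat_lit 3659) (.e (nat_lit 196666) (nat_lit 13) (.e (nat_lit 65610) (nat_lit 10) (.e (nat_lit 344117) (nat_lit 21) (.e (nat_lit 516151) (nat_lit 9) (.e (nat_lit 426045) (nat_lit 0) (.e (nat_lit 2422) (nat_lit 157) (.e (nat_lit 4849) (nat_lit 285) (.e (nat_lit 163870) (nat_lit 2) .nil)))))))) (.g (nat_lit 1) (.e (nat_lit 216178) (nat_lit 0) .nil) .nil))) 
(.lf (nat_lit 517803) (.g (nat_lit 2795) (.e (nat_lit 196666) (nat_lit 13) (.e (nat_lit 65617) (nat_lit 10) (.e (nat_lit 344127) (nat_lit 26) (.e (nat_lit 557090) (nat_lit 12) (.e (nat_lit 164019) (nat_lit 45) (.e (nat_lit 696343) (nat_lit 8) (.e (nat_lit 172064) (nat_lit 2) .nil))))))) (.g (nat_lit 1) (.e (nat_lit 216894) (nat_lit 0) .nil) .nil)))) (.nd (nat_lit 9) 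
(.lf (nat_lit 517547) (.g (nat_lit 2093) (.e (nat_lit 196666) (nat_lit 13) (.e (nat_lit 65610) (nat_lit 10) (.e (nat_lit 344129) (nat_lit 26) (.e (nat_lit 557067) (nat_lit 9) (.e (nat_lit 2466) (nat_lit 157) (.e (nat_lit 3468) (nat_lit 217) (.e (nat_lit 696343) (nat_lit 8) (.e (nat_lit 172064) (nat_lit 2) .nil)))))))) (.g (nat_lit 1) (.e (nat_lit 216551) (nat_lit 0) .nil) .nil))) 
(.lf (nat_lit 518059) (.g (nat_lit 588) (.e (nat_lit 196666) (nat_lit 13) (.e (nat_lit 65628) (nat_lit 14) (.e (nat_lit 401412) (nat_lit 0) .nil))) (.g (nat_lit 0) (.e (nat_lit 217214) (nat_lit 0) .nil) .nil)))))) (.nd (nat_lit 7) (.nd (nat_lit 8) (.nd (nat_lit 9) 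
(.lf (nat_lit 517227) (.g (nat_lit 3317) (.e (nat_lit 196666) (nat_lit 13) (.e (nat_lit 65610) (nat_lit 10) (.e (nat_lit 344117) (nat_lit 21) (.e (nat_lit 516151) (nat_lit 9) (.e (nat_lit 426040) (nat_lit 0) (.e (nat_lit 3366) (nat_lit 208) (.e (nat_lit 622621) (nat_lit 13) (.e (nat_lit 2668) (nat_lit 167) .nil)))))))) (.g (nat_lit 1) (.e (nat_lit 216114) (nat_lit 0) .nil) .nil))) 
(.lf (nat_lit 517739) (.g (nat_lit 3008) (.e (nat_lit 196666) (nat_lit 13) (.e (nat_lit 65617) (nat_lit 10) (.e (nat_lit 344117) (nat_lit 21) (.e (nat_lit 516139) (nat_lit 7) (.e (nat_lit 409623) (nat_lit 10) .nil))))) (.g (nat_lit 0) (.e (nat_lit 216815) (nat_lit 0) .nil) .nil)))) (.nd (nat_lit 9) 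
(.lf (nat_lit 517483) (.g (nat_lit 3224) (.e (nat_lit 196666) (nat_lit 13) (.e (nat_lit 65610) (nat_lit 10) (.e (nat_lit 344117) (nat_lit 21) (.e (nat_lit 516160) (nat_lit 10) (.e (nat_lit 434278) (nat_lit 39) (.e (nat_lit 663552) (nat_lit 0) (.e (nat_lit 164) (nat_lit 11) .nil))))))) (.g (nat_lit 1) (.e (nat_lit 216437) (nat_lit 0) .nil) .nil))) 
(.lf (nat_lit 517995) (.g (nat_lit 2066) (.e (nat_lit 196666) (nat_lit 13) (.e (nat_lit 65617) (nat_lit 10) (.e (nat_lit 344133) (nat_lit 26) (.e (nat_lit 557091) (nat_lit 12) (.e (nat_lit 171776) (nat_lit 48) .nil))))) (.g (nat_lit 0) (.e (nat_lit 217109) (nat_lit 0) .nil) .nil))))) (.nd (nat_lit 8) (.nd (nat_lit 9) 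
(.lf (nat_lit 517355) (.g (nat_lit 3873) (.e (nat_lit 196666) (nat_lit 13) (.e (nat_lit 65610) (nat_lit 10) (.e (nat_lit 344117) (nat_lit 21) (.e (nat_lit 516151) (nat_lit 9) (.e (nat_lit 426046) (nat_lit 0) (.e (nat_lit 3366) (nat_lit 208) (.e (nat_lit 622627) (nat_lit 13) (.e (nat_lit 2663) (nat_lit 167) .nil)))))))) (.g (nat_lit 1) (.e (nat_lit 216242) (nat_lit 0) .nil) .nil))) 
(.lf (nat_lit 517867) (.g (nat_lit 2808) (.e (nat_lit 196666) (nat_lit 13) (.e (nat_lit 65617) (nat_lit 10) (.e (nat_lit 344130) (nat_lit 26) (.e (nat_lit 557090) (nat_lit 12) (.e (nat_lit 163843) (nat_lit 0) (.e (nat_lit 6255) (nat_lit 337) (.e (nat_lit 2725) (nat_lit 172) (.e (nat_lit 237588) (nat_lit 2) .nil)))))))) (.g (nat_lit 1) (.e (nat_lit 216971) (nat_lit 0) .nil) .nil)))) 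
(.nd (nat_lit 9) 
(.lf (nat_lit 517611) (.g (nat_lit 2410) (.e (nat_lit 196666) (nat_lit 13) (.e (nat_lit 65610) (nat_lit 10) (.e (nat_lit 344129) (nat_lit 26) (.e (nat_lit 557089) (nat_lit 12) (.e (nat_lit 163848) (nat_lit 0) (.e (nat_lit 6420) (nat_lit 341) (.e (nat_lit 163900) (nat_lit 12) (.e (nat_lit 426125) (nat_lit 2) .nil)))))))) (.g (nat_lit 1) (.e (nat_lit 216658) (nat_lit 0) .nil) .nil))) 
(.lf (nat_lit 518123) (.g (nat_lit 2388) (.e (nat_lit 196668) (nat_lit 14) (.e (nat_lit 73746) (nat_lit 3) (.e (nat_lit 516115) (nat_lit 1) (.e (nat_lit 164182) (nat_lit 154) (.e (nat_lit 57376) (nat_lit 3) .nil))))) (.g (nat_lit 0) (.e (nat_lit 217346) (nat_lit 0) .nil) .nil)))))))) (.nd (nat_lit 5) (.nd (nat_lit 6) (.nd (nat_lit 7) (.nd (nat_lit 8) (.nd (nat_lit 9) 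
(.lf (nat_lit 517147) (.g (nat_lit 4912) (.e (nat_lit 196666) (nat_lit 13) (.e (nat_lit 65610) (nat_lit 10) (.e (nat_lit 344117) (nat_lit 21) (.e (nat_lit 516151) (nat_lit 9) (.e (nat_lit 426038) (nat_lit 0) (.e (nat_lit 2422) (nat_lit 157) (.e (nat_lit 4849) (nat_lit 285) (.e (nat_lit 163870) (nat_lit 2) .nil)))))))) (.g (nat_lit 1) (.e (nat_lit 216034) (nat_lit 0) .nil) .nil))) 
(.lf (nat_lit 517659) (.g (nat_lit 2370) (.e (nat_lit 196666) (nat_lit 13) (.e (nat_lit 65610) (nat_lit 10) (.e (nat_lit 344129) (nat_lit 26) (.e (nat_lit 557090) (nat_lit 12) (.e (nat_lit 163848) (nat_lit 0) (.e (nat_lit 6252) (nat_lit 337) (.e (nat_lit 2725) (nat_lit 172) (.e (nat_lit 237589) (nat_lit 2) .nil)))))))) (.g (nat_lit 1) (.e (nat_lit 216725) (nat_lit 0) .nil) .nil)))) 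
(.nd (nat_lit 9) 
(.lf (nat_lit 517403) (.g (nat_lit 3767) (.e (nat_lit 196666) (nat_lit 13) (.e (nat_lit 65610) (nat_lit 10) (.e (nat_lit 344117) (nat_lit 21) (.e (nat_lit 516151) (nat_lit 9) (.e (nat_lit 426047) (nat_lit 0) (.e (nat_lit 3369) (nat_lit 208) (.e (nat_lit 622627) (nat_lit 13) (.e (nat_lit 2666) (nat_lit 167) .nil)))))))) (.g (nat_lit 1) (.e (nat_lit 216290) (nat_lit 0) .nil) .nil))) 
(.lf (nat_lit 517915) (.g (nat_lit 2966) (.e (nat_lit 196666) (nat_lit 13) (.e (nat_lit 65617) (nat_lit 10) (.e (nat_lit 344132) (nat_lit 26) (.e (nat_lit 557072) (nat_lit 9) (.e (nat_lit 2741) (nat_lit 174) (.e (nat_lit 253988) (nat_lit 11) (.e (nat_lit 16413) (nat_lit 2) .nil))))))) (.g (nat_lit 1) (.e (nat_lit 217022) (nat_lit 0) .nil) .nil))))) (.nd (nat_lit 8) (.nd (nat_lit 9) 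
(.lf (nat_lit 517275) (.g (nat_lit 3192) (.e (nat_lit 196666) (nat_lit 13) (.e (nat_lit 65610) (nat_lit 10) (.e (nat_lit 344117) (nat_lit 21) (.e (nat_lit 516151) (nat_lit 9) (.e (nat_lit 426042) (nat_lit 0) (.e (nat_lit 3370) (nat_lit 208) (.e (nat_lit 622620) (nat_lit 13) (.e (nat_lit 2666) (nat_lit 167) .nil)))))))) (.g (nat_lit 1) (.e (nat_lit 216162) (nat_lit 0) .nil) .nil))) 
(.lf (nat_lit 517787) (.g (nat_lit 2474) (.e (nat_lit 196666) (nat_lit 13) (.e (nat_lit 65617) (nat_lit 10) (.e (nat_lit 344127) (nat_lit 26) (.e (nat_lit 557090) (nat_lit 12) (.e (nat_lit 163849) (nat_lit 0) (.e (nat_lit 6421) (nat_lit 341) (.e (nat_lit 163900) (nat_lit 12) (.e (nat_lit 426125) (nat_lit 2) .nil)))))))) (.g (nat_lit 1) (.e (nat_lit 216875) (nat_lit 0) .nil) .nil)))) 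
(.nd (nat_lit 9) 
(.lf (nat_lit 517531) (.g (nat_lit 1854) (.e (nat_lit 196666) (nat_lit 13) (.e (nat_lit 65610) (nat_lit 10) (.e (nat_lit 344129) (nat_lit 26) (.e (nat_lit 557065) (nat_lit 9) (.e (nat_lit 2739) (nat_lit 174) .nil))))) (.g (nat_lit 0) (.e (nat_lit 216521) (nat_lit 0) .nil) .nil))) 
(.lf (nat_lit 518043) (.g (nat_lit 3094) (.e (nat_lit 196666) (nat_lit 13) (.e (nat_lit 65624) (nat_lit 12) (.e (nat_lit 385066) (nat_lit 26) (.e (nat_lit 532513) (nat_lit 3) (.e (nat_lit 114697) (nat_lit 11) (.e (nat_lit 426122) (nat_lit 2) .nil)))))) (.g (nat_lit 1) (.e (nat_lit 217175) (nat_lit 0) .nil) .nil)))))) (.nd (nat_lit 7) (.nd (nat_lit 8) (.nd (nat_lit 9) 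
(.lf (nat_lit 517211) (.g (nat_lit 3278) (.e (nat_lit 196666) (nat_lit 13) (.e (nat_lit 65610) (nat_lit 10) (.e (nat_lit 344117) (nat_lit 21) (.e (nat_lit 516151) (nat_lit 9) (.e (nat_lit 426040) (nat_lit 0) (.e (nat_lit 2422) (nat_lit 157) (.e (nat_lit 4850) (nat_lit 286) (.e (nat_lit 229387) (nat_lit 2) .nil)))))))) (.g (nat_lit 1) (.e (nat_lit 216098) (nat_lit 0) .nil) .nil))) 
(.lf (nat_lit 517723) (.g (nat_lit 2411) (.e (nat_lit 196666) (nat_lit 13) (.e (nat_lit 65617) (nat_lit 10) (.e (nat_lit 344117) (nat_lit 21) (.e (nat_lit 516106) (nat_lit 0) (.e (nat_lit 6966) (nat_lit 377) .nil))))) (.g (nat_lit 0) (.e (nat_lit 216799) (nat_lit 0) .nil) .nil)))) (.nd (nat_lit 9) 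
(.lf (nat_lit 517467) (.g (nat_lit 3023) (.e (nat_lit 196666) (nat_lit 13) (.e (nat_lit 65610) (nat_lit 10) (.e (nat_lit 344117) (nat_lit 21) (.e (nat_lit 516160) (nat_lit 10) (.e (nat_lit 434274) (nat_lit 39) (.e (nat_lit 663559) (nat_lit 0) (.e (nat_lit 7936) (nat_lit 11) .nil))))))) (.g (nat_lit 1) (.e (nat_lit 216420) (nat_lit 0) .nil) .nil))) 
(.lf (nat_lit 517979) (.g (nat_lit 3060) (.e (nat_lit 196666) (nat_lit 13) (.e (nat_lit 65617) (nat_lit 10) (.e (nat_lit 344133) (nat_lit 26) (.e (nat_lit 557091) (nat_lit 12) (.e (nat_lit 164016) (nat_lit 44) (.e (nat_lit 688139) (nat_lit 5) (.e (nat_lit 2887) (nat_lit 184) (.e (nat_lit 426120) (nat_lit 2) .nil)))))))) (.g (nat_lit 1) (.e (nat_lit 217093) (nat_lit 0) .nil) .nil))))) 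
(.nd (nat_lit 8) (.nd (nat_lit 9) 
(.lf (nat_lit 517339) (.g (nat_lit 4835) (.e (nat_lit 196666) (nat_lit 13) (.e (nat_lit 65610) (nat_lit 10) (.e (nat_lit 344117) (nat_lit 21) (.e (nat_lit 516151) (nat_lit 9) (.e (nat_lit 426049) (nat_lit 0) (.e (nat_lit 3366) (nat_lit 208) (.e (nat_lit 622626) (nat_lit 13) (.e (nat_lit 2663) (nat_lit 167) .nil)))))))) (.g (nat_lit 1) (.e (nat_lit 216226) (nat_lit 0) .nil) .nil))) 
(.lf (nat_lit 517851) (.g (nat_lit 1353) (.e (nat_lit 196666) (nat_lit 13) (.e (nat_lit 65617) (nat_lit 10) (.e (nat_lit 344130) (nat_lit 26) (.e (nat_lit 557088) (nat_lit 12) .nil)))) (.g (nat_lit 0) (.e (nat_lit 216955) (nat_lit 0) .nil) .nil)))) (.nd (nat_lit 9) 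
(.lf (nat_lit 517595) (.g (nat_lit 4121) (.e (nat_lit 196666) (nat_lit 13) (.e (nat_lit 65610) (nat_lit 10) (.e (nat_lit 344129) (nat_lit 26) (.e (nat_lit 557087) (nat_lit 11) (.e (nat_lit 24662) (nat_lit 14) (.e (nat_lit 401423) (nat_lit 2) .nil)))))) (.g (nat_lit 1) (.e (nat_lit 216640) (nat_lit 0) .nil) .nil))) 
(.lf (nat_lit 518107) (.g (nat_lit 1988) (.e (nat_lit 196667) (nat_lit 14) (.e (nat_lit 73754) (nat_lit 8) (.e (nat_lit 557105) (nat_lit 14) (.e (nat_lit 180252) (nat_lit 10) (.e (nat_lit 573475) (nat_lit 12) .nil))))) (.g (nat_lit 0) (.e (nat_lit 217286) (nat_lit 0) .nil) .nil))))))) (.nd (nat_lit 6) (.nd (nat_lit 7) (.nd (nat_lit 8) (.nd (nat_lit 9) 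
(.lf (nat_lit 517179) (.g (nat_lit 3663) (.e (nat_lit 196666) (nat_lit 13) (.e (nat_lit 65610) (nat_lit 10) (.e (nat_lit 344117) (nat_lit 21) (.e (nat_lit 516151) (nat_lit 9) (.e (nat_lit 426038) (nat_lit 0) (.e (nat_lit 3366) (nat_lit 208) (.e (nat_lit 622622) (nat_lit 13) (.e (nat_lit 2662) (nat_lit 167) .nil)))))))) (.g (nat_lit 1) (.e (nat_lit 216066) (nat_lit 0) .nil) .nil))) 
(.lf (nat_lit 517691) (.g (nat_lit 4033) (.e (nat_lit 196666) (nat_lit 13) (.e (nat_lit 65610) (nat_lit 10) (.e (nat_lit 344129) (nat_lit 26) (.e (nat_lit 557091) (nat_lit 12) (.e (nat_lit 164020) (nat_lit 45) (.e (nat_lit 696344) (nat_lit 8) (.e (nat_lit 172064) (nat_lit 2) .nil))))))) (.g (nat_lit 1) (.e (nat_lit 216760) (nat_lit 0) .nil) .nil)))) (.nd (nat_lit 9) 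
(.lf (nat_lit 517435) (.g (nat_lit 2193) (.e (nat_lit 196666) (nat_lit 13) (.e (nat_lit 65610) (nat_lit 10) (.e (nat_lit 344117) (nat_lit 21) (.e (nat_lit 516159) (nat_lit 10) (.e (nat_lit 434274) (nat_lit 39) (.e (nat_lit 663554) (nat_lit 0) (.e (nat_lit 7936) (nat_lit 11) .nil))))))) (.g (nat_lit 1) (.e (nat_lit 216358) (nat_lit 0) .nil) .nil))) 
(.lf (nat_lit 517947) (.g (nat_lit 2712) (.e (nat_lit 196666) (nat_lit 13) (.e (nat_lit 65617) (nat_lit 10) (.e (nat_lit 344133) (nat_lit 26) (.e (nat_lit 557084) (nat_lit 10) (.e (nat_lit 16128) (nat_lit 228) .nil))))) (.g (nat_lit 0) (.e (nat_lit 217060) (nat_lit 0) .nil) .nil))))) (.nd (nat_lit 8) (.nd (nat_lit 9) 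
(.lf (nat_lit 517307) (.g (nat_lit 3173) (.e (nat_lit 196666) (nat_lit 13) (.e (nat_lit 65610) (nat_lit 10) (.e (nat_lit 344117) (nat_lit 21) (.e (nat_lit 516151) (nat_lit 9) (.e (nat_lit 426045) (nat_lit 0) (.e (nat_lit 3369) (nat_lit 208) (.e (nat_lit 622620) (nat_lit 13) (.e (nat_lit 2668) (nat_lit 167) .nil)))))))) (.g (nat_lit 1) (.e (nat_lit 216194) (nat_lit 0) .nil) .nil))) 
(.lf (nat_lit 517819) (.g (nat_lit 1149) (.e (nat_lit 196666) (nat_lit 13) (.e (nat_lit 65617) (nat_lit 10) (.e (nat_lit 344130) (nat_lit 26) (.e (nat_lit 557067) (nat_lit 9) .nil)))) (.g (nat_lit 0) (.e (nat_lit 216911) (nat_lit 0) .nil) .nil)))) (.nd (nat_lit 9) 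
(.lf (nat_lit 517563) (.g (nat_lit 4798) (.e (nat_lit 196666) (nat_lit 13) (.e (nat_lit 65610) (nat_lit 10) (.e (nat_lit 344129) (nat_lit 26) (.e (nat_lit 557070) (nat_lit 9) (.e (nat_lit 2744) (nat_lit 174) (.e (nat_lit 253991) (nat_lit 11) (.e (nat_lit 16413) (nat_lit 2) .nil))))))) (.g (nat_lit 1) (.e (nat_lit 216575) (nat_lit 0) .nil) .nil))) 
(.lf (nat_lit 518075) (.g (nat_lit 2851) (.e (nat_lit 196666) (nat_lit 13) (.e (nat_lit 65629) (nat_lit 14) (.e (nat_lit 401425) (nat_lit 2) (.e (nat_lit 196670) (nat_lit 14) (.e (nat_lit 73781) (nat_lit 32) .nil))))) (.g (nat_lit 0) (.e (nat_lit 217233) (nat_lit 0) .nil) .nil)))))) (.nd (nat_lit 7) (.nd (nat_lit 8) (.nd (nat_lit 9) 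
(.lf (nat_lit 517243) (.g (nat_lit 3673) (.e (nat_lit 196666) (nat_lit 13) (.e (nat_lit 65610) (nat_lit 10) (.e (nat_lit 344117) (nat_lit 21) (.e (nat_lit 516151) (nat_lit 9) (.e (nat_lit 426040) (nat_lit 0) (.e (nat_lit 3370) (nat_lit 208) (.e (nat_lit 622622) (nat_lit 13) (.e (nat_lit 2668) (nat_lit 167) .nil)))))))) (.g (nat_lit 1) (.e (nat_lit 216130) (nat_lit 0) .nil) .nil))) 
(.lf (nat_lit 517755) (.g (nat_lit 2002) (.e (nat_lit 196666) (nat_lit 13) (.e (nat_lit 65617) (nat_lit 10) (.e (nat_lit 344127) (nat_lit 26) (.e (nat_lit 557087) (nat_lit 11) (.e (nat_lit 24584) (nat_lit 0) .nil))))) (.g (nat_lit 0) (.e (nat_lit 216842) (nat_lit 0) .nil) .nil)))) (.nd (nat_lit 9) 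
(.lf (nat_lit 517499) (.g (nat_lit 3515) (.e (nat_lit 196666) (nat_lit 13) (.e (nat_lit 65610) (nat_lit 10) (.e (nat_lit 344117) (nat_lit 21) (.e (nat_lit 516185) (nat_lit 16) (.e (nat_lit 491526) (nat_lit 0) (.e (nat_lit 6648) (nat_lit 357) (.e (nat_lit 2664) (nat_lit 167) .nil))))))) (.g (nat_lit 1) (.e (nat_lit 216460) (nat_lit 0) .nil) .nil))) 
(.lf (nat_lit 518011) (.g (nat_lit 3049) (.e (nat_lit 196666) (nat_lit 13) (.e (nat_lit 65619) (nat_lit 10) (.e (nat_lit 344117) (nat_lit 21) (.e (nat_lit 516139) (nat_lit 7) (.e (nat_lit 409616) (nat_lit 10) .nil))))) (.g (nat_lit 0) (.e (nat_lit 217131) (nat_lit 0) .nil) .nil))))) (.nd (nat_lit 8) (.nd (nat_lit 9) 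
(.lf (nat_lit 517371) (.g (nat_lit 4755) (.e (nat_lit 196666) (nat_lit 13) (.e (nat_lit 65610) (nat_lit 10) (.e (nat_lit 344117) (nat_lit 21) (.e (nat_lit 516151) (nat_lit 9) (.e (nat_lit 426047) (nat_lit 0) (.e (nat_lit 2423) (nat_lit 157) (.e (nat_lit 4849) (nat_lit 285) (.e (nat_lit 163870) (nat_lit 2) .nil)))))))) (.g (nat_lit 1) (.e (nat_lit 216258) (nat_lit 0) .nil) .nil))) 
(.lf (nat_lit 517883) (.g (nat_lit 2998) (.e (nat_lit 196666) (nat_lit 13) (.e (nat_lit 65617) (nat_lit 10) (.e (nat_lit 344130) (nat_lit 26) (.e (nat_lit 557090) (nat_lit 12) (.e (nat_lit 163849) (nat_lit 0) (.e (nat_lit 6255) (nat_lit 337) (.e (nat_lit 2725) (nat_lit 172) (.e (nat_lit 237587) (nat_lit 2) .nil)))))))) (.g (nat_lit 1) (.e (nat_lit 216988) (nat_lit 0) .nil) .nil)))) 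
(.nd (nat_lit 9) 
(.lf (nat_lit 517627) (.g (nat_lit 2808) (.e (nat_lit 196666) (nat_lit 13) (.e (nat_lit 65610) (nat_lit 10) (.e (nat_lit 344129) (nat_lit 26) (.e (nat_lit 557090) (nat_lit 12) (.e (nat_lit 163840) (nat_lit 0) (.e (nat_lit 6426) (nat_lit 342) (.e (nat_lit 229399) (nat_lit 12) (.e (nat_lit 426125) (nat_lit 2) .nil)))))))) (.g (nat_lit 1) (.e (nat_lit 216675) (nat_lit 0) .nil) .nil))) 
(.lf (nat_lit 518139) (.g (nat_lit 1289) (.e (nat_lit 196668) (nat_lit 14) (.e (nat_lit 73746) (nat_lit 3) (.e (nat_lit 516118) (nat_lit 1) (.e (nat_lit 164183) (nat_lit 154) .nil)))) (.g (nat_lit 0) (.e (nat_lit 217420) (nat_lit 0) .nil) .nil)))))))))) (.nd (nat_lit 3) (.nd (nat_lit 4) (.nd (nat_lit 5) (.nd (nat_lit 6) (.nd (nat_lit 7) (.nd (nat_lit 8) (.nd (nat_lit 9) 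
(.lf (nat_lit 517127) (.g (nat_lit 3376) (.e (nat_lit 196666) (nat_lit 13) (.e (nat_lit 65610) (nat_lit 10) (.e (nat_lit 344117) (nat_lit 21) (.e (nat_lit 516151) (nat_lit 9) (.e (nat_lit 426037) (nat_lit 0) (.e (nat_lit 3370) (nat_lit 208) (.e (nat_lit 622620) (nat_lit 13) (.e (nat_lit 2666) (nat_lit 167) .nil)))))))) (.g (nat_lit 1) (.e (nat_lit 216014) (nat_lit 0) .nil) .nil))) 
(.lf (nat_lit 517639) (.g (nat_lit 2347) (.e (nat_lit 196666) (nat_lit 13) (.e (nat_lit 65610) (nat_lit 10) (.e (nat_lit 344129) (nat_lit 26) (.e (nat_lit 557090) (nat_lit 12) (.e (nat_lit 163843) (nat_lit 0) (.e (nat_lit 6250) (nat_lit 337) (.e (nat_lit 2630) (nat_lit 164) (.e (nat_lit 172064) (nat_lit 2) .nil)))))))) (.g (nat_lit 1) (.e (nat_lit 216697) (nat_lit 0) .nil) .nil)))) 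
(.nd (nat_lit 9) 
(.lf (nat_lit 517383) (.g (nat_lit 3173) (.e (nat_lit 196666) (nat_lit 13) (.e (nat_lit 65610) (nat_lit 10) (.e (nat_lit 344117) (nat_lit 21) (.e (nat_lit 516151) (nat_lit 9) (.e (nat_lit 426047) (nat_lit 0) (.e (nat_lit 2426) (nat_lit 157) (.e (nat_lit 4758) (nat_lit 281) (.e (nat_lit 2517) (nat_lit 157) (.e (nat_lit 2664) (nat_lit 167) .nil))))))))) (.g (nat_lit 1) (.e (nat_lit 216270) (nat_lit 0) .nil) .nil))) 
(.lf (nat_lit 517895) (.g (nat_lit 4933) (.e (nat_lit 196666) (nat_lit 13) (.e (nat_lit 65617) (nat_lit 10) (.e (nat_lit 344130) (nat_lit 26) (.e (nat_lit 557090) (nat_lit 12) (.e (nat_lit 164020) (nat_lit 45) (.e (nat_lit 696327) (nat_lit 5) (.e (nat_lit 2884) (nat_lit 184) (.e (nat_lit 426125) (nat_lit 2) .nil)))))))) (.g (nat_lit 1) (.e (nat_lit 217000) (nat_lit 0) .nil) .nil))))) 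
(.nd (nat_lit 8) (.nd (nat_lit 9) 
(.lf (nat_lit 517255) (.g (nat_lit 2357) (.e (nat_lit 196666) (nat_lit 13) (.e (nat_lit 65610) (nat_lit 10) (.e (nat_lit 344117) (nat_lit 21) (.e (nat_lit 516151) (nat_lit 9) (.e (nat_lit 426042) (nat_lit 0) (.e (nat_lit 2416) (nat_lit 157) (.e (nat_lit 4850) (nat_lit 286) (.e (nat_lit 229386) (nat_lit 2) .nil)))))))) (.g (nat_lit 1) (.e (nat_lit 216142) (nat_lit 0) .nil) .nil))) 
(.lf (nat_lit 517767) (.g (nat_lit 3212) (.e (nat_lit 196666) (nat_lit 13) (.e (nat_lit 65617) (nat_lit 10) (.e (nat_lit 344127) (nat_lit 26) (.e (nat_lit 557090) (nat_lit 12) (.e (nat_lit 163844) (nat_lit 0) (.e (nat_lit 6250) (nat_lit 337) (.e (nat_lit 2725) (nat_lit 172) (.e (nat_lit 237589) (nat_lit 2) .nil)))))))) (.g (nat_lit 1) (.e (nat_lit 216855) (nat_lit 0) .nil) .nil)))) 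
(.nd (nat_lit 9) 
(.lf (nat_lit 517511) (.g (nat_lit 2544) (.e (nat_lit 196666) (nat_lit 13) (.e (nat_lit 65610) (nat_lit 10) (.e (nat_lit 344126) (nat_lit 25) (.e (nat_lit 548889) (nat_lit 9) (.e (nat_lit 65539) (nat_lit 0) .nil))))) (.g (nat_lit 0) (.e (nat_lit 216495) (nat_lit 0) .nil) .nil))) 
(.lf (nat_lit 518023) (.g (nat_lit 3186) (.e (nat_lit 196666) (nat_lit 13) (.e (nat_lit 65619) (nat_lit 10) (.e (nat_lit 344129) (nat_lit 26) (.e (nat_lit 557087) (nat_lit 11) (.e (nat_lit 24580) (nat_lit 0) .nil))))) (.g (nat_lit 0) (.e (nat_lit 217143) (nat_lit 0) .nil) .nil)))))) (.nd (nat_lit 7) (.nd (nat_lit 8) (.nd (nat_lit 9) 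
(.lf (nat_lit 517191) (.g (nat_lit 5115) (.e (nat_lit 196666) (nat_lit 13) (.e (nat_lit 65610) (nat_lit 10) (.e (nat_lit 344117) (nat_lit 21) (.e (nat_lit 516151) (nat_lit 9) (.e (nat_lit 426038) (nat_lit 0) (.e (nat_lit 3369) (nat_lit 208) (.e (nat_lit 622626) (nat_lit 13) (.e (nat_lit 2663) (nat_lit 167) .nil)))))))) (.g (nat_lit 1) (.e (nat_lit 216078) (nat_lit 0) .nil) .nil))) 
(.lf (nat_lit 517703) (.g (nat_lit 2862) (.e (nat_lit 196666) (nat_lit 13) (.e (nat_lit 65610) (nat_lit 10) (.e (nat_lit 344131) (nat_lit 26) (.e (nat_lit 557090) (nat_lit 12) (.e (nat_lit 164020) (nat_lit 45) (.e (nat_lit 696343) (nat_lit 8) (.e (nat_lit 172064) (nat_lit 2) .nil))))))) (.g (nat_lit 1) (.e (nat_lit 216772) (nat_lit 0) .nil) .nil)))) (.nd (nat_lit 9) 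
(.lf (nat_lit 517447) (.g (nat_lit 3076) (.e (nat_lit 196666) (nat_lit 13) (.e (nat_lit 65610) (nat_lit 10) (.e (nat_lit 344117) (nat_lit 21) (.e (nat_lit 516159) (nat_lit 10) (.e (nat_lit 434276) (nat_lit 39) (.e (nat_lit 663552) (nat_lit 0) (.e (nat_lit 161) (nat_lit 11) .nil))))))) (.g (nat_lit 1) (.e (nat_lit 216370) (nat_lit 0) .nil) .nil))) 
(.lf (nat_lit 517959) (.g (nat_lit 4417) (.e (nat_lit 196666) (nat_lit 13) (.e (nat_lit 65617) (nat_lit 10) (.e (nat_lit 344133) (nat_lit 26) (.e (nat_lit 557089) (nat_lit 12) (.e (nat_lit 164020) (nat_lit 45) (.e (nat_lit 696327) (nat_lit 5) (.e (nat_lit 2884) (nat_lit 184) (.e (nat_lit 426125) (nat_lit 2) .nil)))))))) (.g (nat_lit 1) (.e (nat_lit 217073) (nat_lit 0) .nil) .nil))))) 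
(.nd (nat_lit 8) (.nd (nat_lit 9) 
(.lf (nat_lit 517319) (.g (nat_lit 3154) (.e (nat_lit 196666) (nat_lit 13) (.e (nat_lit 65610) (nat_lit 10) (.e (nat_lit 344117) (nat_lit 21) (.e (nat_lit 516151) (nat_lit 9) (.e (nat_lit 426045) (nat_lit 0) (.e (nat_lit 3370) (nat_lit 208) (.e (nat_lit 622624) (nat_lit 13) (.e (nat_lit 2668) (nat_lit 167) .nil)))))))) (.g (nat_lit 1) (.e (nat_lit 216206) (nat_lit 0) .nil) .nil))) 
(.lf (nat_lit 517831) (.g (nat_lit 1992) (.e (nat_lit 196666) (nat_lit 13) (.e (nat_lit 65617) (nat_lit 10) (.e (nat_lit 344130) (nat_lit 26) (.e (nat_lit 557070) (nat_lit 9) (.e (nat_lit 267) (nat_lit 21) .nil))))) (.g (nat_lit 0) (.e (nat_lit 216932) (nat_lit 0) .nil) .nil)))) (.nd (nat_lit 9) 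
(.lf (nat_lit 517575) (.g (nat_lit 4020) (.e (nat_lit 196666) (nat_lit 13) (.e (nat_lit 65610) (nat_lit 10) (.e (nat_lit 344129) (nat_lit 26) (.e (nat_lit 557085) (nat_lit 11) (.e (nat_lit 24580) (nat_lit 0) (.e (nat_lit 6619) (nat_lit 357) (.e (nat_lit 2668) (nat_lit 167) .nil))))))) (.g (nat_lit 1) (.e (nat_lit 216618) (nat_lit 0) .nil) .nil))) 
(.lf (nat_lit 518087) (.g (nat_lit 2065) (.e (nat_lit 196666) (nat_lit 13) (.e (nat_lit 65630) (nat_lit 14) (.e (nat_lit 401425) (nat_lit 2) (.e (nat_lit 204544) (nat_lit 13) .nil)))) (.g (nat_lit 0) (.e (nat_lit 217249) (nat_lit 0) .nil) .nil))))))) (.nd (nat_lit 6) (.nd (nat_lit 7) (.nd (nat_lit 8) (.nd (nat_lit 9) 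
(.lf (nat_lit 517159) (.g (nat_lit 3838) (.e (nat_lit 196666) (nat_lit 13) (.e (nat_lit 65610) (nat_lit 10) (.e (nat_lit 344117) (nat_lit 21) (.e (nat_lit 516151) (nat_lit 9) (.e (nat_lit 426038) (nat_lit 0) (.e (nat_lit 2426) (nat_lit 157) (.e (nat_lit 4751) (nat_lit 281) (.e (nat_lit 2518) (nat_lit 157) (.e (nat_lit 2663) (nat_lit 167) .nil))))))))) (.g (nat_lit 1) (.e (nat_lit 216046) (nat_lit 0) .nil) .nil))) 
(.lf (nat_lit 517671) (.g (nat_lit 3063) (.e (nat_lit 196666) (nat_lit 13) (.e (nat_lit 65610) (nat_lit 10) (.e (nat_lit 344129) (nat_lit 26) (.e (nat_lit 557090) (nat_lit 12) (.e (nat_lit 163849) (nat_lit 0) (.e (nat_lit 6421) (nat_lit 341) (.e (nat_lit 171776) (nat_lit 12) (.e (nat_lit 426123) (nat_lit 2) .nil)))))))) (.g (nat_lit 1) (.e (nat_lit 216737) (nat_lit 0) .nil) .nil)))) 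
(.nd (nat_lit 9) 
(.lf (nat_lit 517415) (.g (nat_lit 3215) (.e (nat_lit 196666) (nat_lit 13) (.e (nat_lit 65610) (nat_lit 10) (.e (nat_lit 344117) (nat_lit 21) (.e (nat_lit 516151) (nat_lit 9) (.e (nat_lit 426047) (nat_lit 0) (.e (nat_lit 3371) (nat_lit 208) (.e (nat_lit 622621) (nat_lit 13) (.e (nat_lit 2668) (nat_lit 167) .nil)))))))) (.g (nat_lit 1) (.e (nat_lit 216302) (nat_lit 0) .nil) .nil))) 
(.lf (nat_lit 517927) (.g (nat_lit 3321) (.e (nat_lit 196666) (nat_lit 13) (.e (nat_lit 65617) (nat_lit 10) (.e (nat_lit 344132) (nat_lit 26) (.e (nat_lit 557093) (nat_lit 12) (.e (nat_lit 164022) (nat_lit 46) (.e (nat_lit 704629) (nat_lit 9) (.e (nat_lit 373) (nat_lit 32) (.e (nat_lit 426120) (nat_lit 2) .nil)))))))) (.g (nat_lit 1) (.e (nat_lit 217036) (nat_lit 0) .nil) .nil))))) 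
(.nd (nat_lit 8) (.nd (nat_lit 9) 
(.lf (nat_lit 517287) (.g (nat_lit 3223) (.e (nat_lit 196666) (nat_lit 13) (.e (nat_lit 65610) (nat_lit 10) (.e (nat_lit 344117) (nat_lit 21) (.e (nat_lit 516151) (nat_lit 9) (.e (nat_lit 426042) (nat_lit 0) (.e (nat_lit 3371) (nat_lit 208) (.e (nat_lit 630528) (nat_lit 13) (.e (nat_lit 2666) (nat_lit 167) .nil)))))))) (.g (nat_lit 1) (.e (nat_lit 216174) (nat_lit 0) .nil) .nil))) 
(.lf (nat_lit 517799) (.g (nat_lit 2922) (.e (nat_lit 196666) (nat_lit 13) (.e (nat_lit 65617) (nat_lit 10) (.e (nat_lit 344127) (nat_lit 26) (.e (nat_lit 557090) (nat_lit 12) (.e (nat_lit 164017) (nat_lit 44) (.e (nat_lit 688139) (nat_lit 5) (.e (nat_lit 2887) (nat_lit 184) (.e (nat_lit 426120) (nat_lit 2) .nil)))))))) (.g (nat_lit 1) (.e (nat_lit 216889) (nat_lit 0) .nil) .nil)))) 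
(.nd (nat_lit 9) 
(.lf (nat_lit 517543) (.g (nat_lit 1996) (.e (nat_lit 196666) (nat_lit 13) (.e (nat_lit 65610) (nat_lit 10) (.e (nat_lit 344129) (nat_lit 26) (.e (nat_lit 557067) (nat_lit 9) (.e (nat_lit 2463) (nat_lit 157) .nil))))) (.g (nat_lit 0) (.e (nat_lit 216546) (nat_lit 0) .nil) .nil))) 
(.lf (nat_lit 518055) (.g (nat_lit 2159) (.e (nat_lit 196666) (nat_lit 13) (.e (nat_lit 65624) (nat_lit 12) (.e (nat_lit 385074) (nat_lit 31) (.e (nat_lit 573486) (nat_lit 14) .nil)))) (.g (nat_lit 0) (.e (nat_lit 217195) (nat_lit 0) .nil) .nil)))))) (.nd (nat_lit 7) (.nd (nat_lit 8) (.nd (nat_lit 9) 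
(.lf (nat_lit 517223) (.g (nat_lit 3638) (.e (nat_lit 196666) (nat_lit 13) (.e (nat_lit 65610) (nat_lit 10) (.e (nat_lit 344117) (nat_lit 21) (.e (nat_lit 516151) (nat_lit 9) (.e (nat_lit 426040) (nat_lit 0) (.e (nat_lit 2427) (nat_lit 157) (.e (nat_lit 4778) (nat_lit 281) (.e (nat_lit 2445) (nat_lit 157) (.e (nat_lit 2668) (nat_lit 167) .nil))))))))) (.g (nat_lit 1) (.e (nat_lit 216110) (nat_lit 0) .nil) .nil))) 
(.lf (nat_lit 517735) (.g (nat_lit 3438) (.e (nat_lit 196666) (nat_lit 13) (.e (nat_lit 65617) (nat_lit 10) (.e (nat_lit 344117) (nat_lit 21) (.e (nat_lit 516139) (nat_lit 7) (.e (nat_lit 409616) (nat_lit 10) (.e (nat_lit 5710) (nat_lit 312) (.e (nat_lit 2664) (nat_lit 167) .nil))))))) (.g (nat_lit 1) (.e (nat_lit 216811) (nat_lit 0) .nil) .nil)))) (.nd (nat_lit 9) 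
(.lf (nat_lit 517479) (.g (nat_lit 2906) (.e (nat_lit 196666) (nat_lit 13) (.e (nat_lit 65610) (nat_lit 10) (.e (nat_lit 344117) (nat_lit 21) (.e (nat_lit 516160) (nat_lit 10) (.e (nat_lit 434276) (nat_lit 39) (.e (nat_lit 663560) (nat_lit 0) (.e (nat_lit 7936) (nat_lit 11) .nil))))))) (.g (nat_lit 1) (.e (nat_lit 216433) (nat_lit 0) .nil) .nil))) 
(.lf (nat_lit 517991) (.g (nat_lit 3606) (.e (nat_lit 196666) (nat_lit 13) (.e (nat_lit 65617) (nat_lit 10) (.e (nat_lit 344133) (nat_lit 26) (.e (nat_lit 557091) (nat_lit 12) (.e (nat_lit 164022) (nat_lit 46) (.e (nat_lit 704628) (nat_lit 9) (.e (nat_lit 373) (nat_lit 32) (.e (nat_lit 426120) (nat_lit 2) .nil)))))))) (.g (nat_lit 1) (.e (nat_lit 217105) (nat_lit 0) .nil) .nil))))) 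
(.nd (nat_lit 8) (.nd (nat_lit 9) 
(.lf (nat_lit 517351) (.g (nat_lit 3956) (.e (nat_lit 196666) (nat_lit 13) (.e (nat_lit 65610) (nat_lit 10) (.e (nat_lit 344117) (nat_lit 21) (.e (nat_lit 516151) (nat_lit 9) (.e (nat_lit 426050) (nat_lit 0) (.e (nat_lit 3366) (nat_lit 208) (.e (nat_lit 622625) (nat_lit 13) (.e (nat_lit 2663) (nat_lit 167) .nil)))))))) (.g (nat_lit 1) (.e (nat_lit 216238) (nat_lit 0) .nil) .nil))) 
(.lf (nat_lit 517863) (.g (nat_lit 2007) (.e (nat_lit 196666) (nat_lit 13) (.e (nat_lit 65617) (nat_lit 10) (.e (nat_lit 344130) (nat_lit 26) (.e (nat_lit 557090) (nat_lit 12) (.e (nat_lit 163840) (nat_lit 0) .nil))))) (.g (nat_lit 0) (.e (nat_lit 216967) (nat_lit 0) .nil) .nil)))) (.nd (nat_lit 9) 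
(.lf (nat_lit 517607) (.g (nat_lit 2735) (.e (nat_lit 196666) (nat_lit 13) (.e (nat_lit 65610) (nat_lit 10) (.e (nat_lit 344129) (nat_lit 26) (.e (nat_lit 557089) (nat_lit 12) (.e (nat_lit 163844) (nat_lit 0) (.e (nat_lit 6252) (nat_lit 337) (.e (nat_lit 2725) (nat_lit 172) (.e (nat_lit 237589) (nat_lit 2) .nil)))))))) (.g (nat_lit 1) (.e (nat_lit 216652) (nat_lit 0) .nil) .nil))) 
(.lf (nat_lit 518119) (.g (nat_lit 3213) (.e (nat_lit 196668) (nat_lit 14) (.e (nat_lit 73746) (nat_lit 3) (.e (nat_lit 516115) (nat_lit 1) (.e (nat_lit 164179) (nat_lit 154) (.e (nat_lit 57376) (nat_lit 3) .nil))))) (.g (nat_lit 0) (.e (nat_lit 217336) (nat_lit 0) .nil) .nil)))))))) (.nd (nat_lit 5) (.nd (nat_lit 6) (.nd (nat_lit 7) (.nd (nat_lit 8) (.nd (nat_lit 9) 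
(.lf (nat_lit 517143) (.g (nat_lit 3724) (.e (nat_lit 196666) (nat_lit 13) (.e (nat_lit 65610) (nat_lit 10) (.e (nat_lit 344117) (nat_lit 21) (.e (nat_lit 516151) (nat_lit 9) (.e (nat_lit 426038) (nat_lit 0) (.e (nat_lit 2422) (nat_lit 157) (.e (nat_lit 4778) (nat_lit 281) (.e (nat_lit 2479) (nat_lit 157) (.e (nat_lit 2663) (nat_lit 167) .nil))))))))) (.g (nat_lit 1) (.e (nat_lit 216030) (nat_lit 0) .nil) .nil))) 
(.lf (nat_lit 517655) (.g (nat_lit 2431) (.e (nat_lit 196666) (nat_lit 13) (.e (nat_lit 65610) (nat_lit 10) (.e (nat_lit 344129) (nat_lit 26) (.e (nat_lit 557090) (nat_lit 12) (.e (nat_lit 163847) (nat_lit 0) (.e (nat_lit 6252) (nat_lit 337) (.e (nat_lit 2725) (nat_lit 172) (.e (nat_lit 237587) (nat_lit 2) .nil)))))))) (.g (nat_lit 1) (.e (nat_lit 216719) (nat_lit 0) .nil) .nil)))) 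
(.nd (nat_lit 9) 
(.lf (nat_lit 517399) (.g (nat_lit 3416) (.e (nat_lit 196666) (nat_lit 13) (.e (nat_lit 65610) (nat_lit 10) (.e (nat_lit 344117) (nat_lit 21) (.e (nat_lit 516151) (nat_lit 9) (.e (nat_lit 426047) (nat_lit 0) (.e (nat_lit 3369) (nat_lit 208) (.e (nat_lit 622622) (nat_lit 13) (.e (nat_lit 2662) (nat_lit 167) .nil)))))))) (.g (nat_lit 1) (.e (nat_lit 216286) (nat_lit 0) .nil) .nil))) 
(.lf (nat_lit 517911) (.g (nat_lit 422) (.e (nat_lit 196666) (nat_lit 13) (.e (nat_lit 65617) (nat_lit 10) (.e (nat_lit 344132) (nat_lit 26) .nil))) (.g (nat_lit 0) (.e (nat_lit 217017) (nat_lit 0) .nil) .nil))))) (.nd (nat_lit 8) (.nd (nat_lit 9) 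
(.lf (nat_lit 517271) (.g (nat_lit 2847) (.e (nat_lit 196666) (nat_lit 13) (.e (nat_lit 65610) (nat_lit 10) (.e (nat_lit 344117) (nat_lit 21) (.e (nat_lit 516151) (nat_lit 9) (.e (nat_lit 426042) (nat_lit 0) (.e (nat_lit 2427) (nat_lit 157) (.e (nat_lit 4785) (nat_lit 281) (.e (nat_lit 2416) (nat_lit 157) (.e (nat_lit 2666) (nat_lit 167) .nil))))))))) (.g (nat_lit 1) (.e (nat_lit 216158) (nat_lit 0) .nil) .nil))) 
(.lf (nat_lit 517783) (.g (nat_lit 2565) (.e (nat_lit 196666) (nat_lit 13) (.e (nat_lit 65617) (nat_lit 10) (.e (nat_lit 344127) (nat_lit 26) (.e (nat_lit 557090) (nat_lit 12) (.e (nat_lit 163849) (nat_lit 0) (.e (nat_lit 6254) (nat_lit 337) (.e (nat_lit 2725) (nat_lit 172) (.e (nat_lit 237589) (nat_lit 2) .nil)))))))) (.g (nat_lit 1) (.e (nat_lit 216871) (nat_lit 0) .nil) .nil)))) 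
(.nd (nat_lit 9) 
(.lf (nat_lit 517527) (.g (nat_lit 1122) (.e (nat_lit 196666) (nat_lit 13) (.e (nat_lit 65610) (nat_lit 10) (.e (nat_lit 344129) (nat_lit 26) (.e (nat_lit 557065) (nat_lit 9) .nil)))) (.g (nat_lit 0) (.e (nat_lit 216517) (nat_lit 0) .nil) .nil))) 
(.lf (nat_lit 518039) (.g (nat_lit 2482) (.e (nat_lit 196666) (nat_lit 13) (.e (nat_lit 65622) (nat_lit 12) (.e (nat_lit 385074) (nat_lit 31) (.e (nat_lit 573488) (nat_lit 14) (.e (nat_lit 81664) (nat_lit 32) .nil))))) (.g (nat_lit 0) (.e (nat_lit 217165) (nat_lit 0) .nil) .nil)))))) (.nd (nat_lit 7) (.nd (nat_lit 8) (.nd (nat_lit 9) 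
(.lf (nat_lit 517207) (.g (nat_lit 3804) (.e (nat_lit 196666) (nat_lit 13) (.e (nat_lit 65610) (nat_lit 10) (.e (nat_lit 344117) (nat_lit 21) (.e (nat_lit 516151) (nat_lit 9) (.e (nat_lit 426040) (nat_lit 0) (.e (nat_lit 2422) (nat_lit 157) (.e (nat_lit 4848) (nat_lit 285) (.e (nat_lit 163869) (nat_lit 2) .nil)))))))) (.g (nat_lit 1) (.e (nat_lit 216094) (nat_lit 0) .nil) .nil))) 
(.lf (nat_lit 517719) (.g (nat_lit 2465) (.e (nat_lit 196666) (nat_lit 13) (.e (nat_lit 65617) (nat_lit 10) (.e (nat_lit 344117) (nat_lit 21) (.e (nat_lit 516097) (nat_lit 0) (.e (nat_lit 7581) (nat_lit 405) .nil))))) (.g (nat_lit 0) (.e (nat_lit 216795) (nat_lit 0) .nil) .nil)))) (.nd (nat_lit 9) 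
(.lf (nat_lit 517463) (.g (nat_lit 2707) (.e (nat_lit 196666) (nat_lit 13) (.e (nat_lit 65610) (nat_lit 10) (.e (nat_lit 344117) (nat_lit 21) (.e (nat_lit 516160) (nat_lit 10) (.e (nat_lit 434274) (nat_lit 39) (.e (nat_lit 663552) (nat_lit 0) (.e (nat_lit 163) (nat_lit 11) .nil))))))) (.g (nat_lit 1) (.e (nat_lit 216416) (nat_lit 0) .nil) .nil))) 
(.lf (nat_lit 517975) (.g (nat_lit 2813) (.e (nat_lit 196666) (nat_lit 13) (.e (nat_lit 65617) (nat_lit 10) (.e (nat_lit 344133) (nat_lit 26) (.e (nat_lit 557091) (nat_lit 12) (.e (nat_lit 163843) (nat_lit 0) (.e (nat_lit 6255) (nat_lit 337) (.e (nat_lit 2725) (nat_lit 172) (.e (nat_lit 237588) (nat_lit 2) .nil)))))))) (.g (nat_lit 1) (.e (nat_lit 217089) (nat_lit 0) .nil) .nil))))) 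
(.nd (nat_lit 8) (.nd (nat_lit 9) 
(.lf (nat_lit 517335) (.g (nat_lit 3325) (.e (nat_lit 196666) (nat_lit 13) (.e (nat_lit 65610) (nat_lit 10) (.e (nat_lit 344117) (nat_lit 21) (.e (nat_lit 516151) (nat_lit 9) (.e (nat_lit 426049) (nat_lit 0) (.e (nat_lit 3366) (nat_lit 208) (.e (nat_lit 622622) (nat_lit 13) (.e (nat_lit 2662) (nat_lit 167) .nil)))))))) (.g (nat_lit 1) (.e (nat_lit 216222) (nat_lit 0) .nil) .nil))) 
(.lf (nat_lit 517847) (.g (nat_lit 1841) (.e (nat_lit 196666) (nat_lit 13) (.e (nat_lit 65617) (nat_lit 10) (.e (nat_lit 344130) (nat_lit 26) (.e (nat_lit 557087) (nat_lit 11) (.e (nat_lit 24588) (nat_lit 0) .nil))))) (.g (nat_lit 0) (.e (nat_lit 216950) (nat_lit 0) .nil) .nil)))) (.nd (nat_lit 9) 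
(.lf (nat_lit 517591) (.g (nat_lit 3342) (.e (nat_lit 196666) (nat_lit 13) (.e (nat_lit 65610) (nat_lit 10) (.e (nat_lit 344129) (nat_lit 26) (.e (nat_lit 557087) (nat_lit 11) (.e (nat_lit 24593) (nat_lit 0) (.e (nat_lit 7936) (nat_lit 357) (.e (nat_lit 2668) (nat_lit 167) .nil))))))) (.g (nat_lit 1) (.e (nat_lit 216634) (nat_lit 0) .nil) .nil))) 
(.lf (nat_lit 518103) (.g (nat_lit 1438) (.e (nat_lit 196667) (nat_lit 14) (.e (nat_lit 73754) (nat_lit 8) (.e (nat_lit 557105) (nat_lit 14) (.e (nat_lit 180251) (nat_lit 10) .nil)))) (.g (nat_lit 0) (.e (nat_lit 217281) (nat_lit 0) .nil) .nil))))))) (.nd (nat_lit 6) (.nd (nat_lit 7) (.nd (nat_lit 8) (.nd (nat_lit 9) 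
(.lf (nat_lit 517175) (.g (nat_lit 4132) (.e (nat_lit 196666) (nat_lit 13) (.e (nat_lit 65610) (nat_lit 10) (.e (nat_lit 344117) (nat_lit 21) (.e (nat_lit 516151) (nat_lit 9) (.e (nat_lit 426038) (nat_lit 0) (.e (nat_lit 2515) (nat_lit 157) (.e (nat_lit 4823) (nat_lit 281) (.e (nat_lit 2477) (nat_lit 157) (.e (nat_lit 2663) (nat_lit 167) .nil))))))))) (.g (nat_lit 1) (.e (nat_lit 216062) (nat_lit 0) .nil) .nil))) 
(.lf (nat_lit 517687) (.g (nat_lit 2950) (.e (nat_lit 196666) (nat_lit 13) (.e (nat_lit 65610) (nat_lit 10) (.e (nat_lit 344129) (nat_lit 26) (.e (nat_lit 557090) (nat_lit 12) (.e (nat_lit 164020) (nat_lit 45) (.e (nat_lit 696327) (nat_lit 5) (.e (nat_lit 2878) (nat_lit 184) (.e (nat_lit 426125) (nat_lit 2) .nil)))))))) (.g (nat_lit 1) (.e (nat_lit 216756) (nat_lit 0) .nil) .nil)))) 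
(.nd (nat_lit 9) 
(.lf (nat_lit 517431) (.g (nat_lit 2498) (.e (nat_lit 196666) (nat_lit 13) (.e (nat_lit 65610) (nat_lit 10) (.e (nat_lit 344117) (nat_lit 21) (.e (nat_lit 516151) (nat_lit 9) (.e (nat_lit 426412) (nat_lit 15) (.e (nat_lit 7936) (nat_lit 139) (.e (nat_lit 679968) (nat_lit 13) (.e (nat_lit 2665) (nat_lit 167) .nil)))))))) (.g (nat_lit 1) (.e (nat_lit 216335) (nat_lit 0) .nil) .nil))) 
(.lf (nat_lit 517943) (.g (nat_lit 1957) (.e (nat_lit 196666) (nat_lit 13) (.e (nat_lit 65617) (nat_lit 10) (.e (nat_lit 344133) (nat_lit 26) (.e (nat_lit 557072) (nat_lit 9) .nil)))) (.g (nat_lit 0) (.e (nat_lit 217055) (nat_lit 0) .nil) .nil))))) (.nd (nat_lit 8) (.nd (nat_lit 9) 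
(.lf (nat_lit 517303) (.g (nat_lit 3999) (.e (nat_lit 196666) (nat_lit 13) (.e (nat_lit 65610) (nat_lit 10) (.e (nat_lit 344117) (nat_lit 21) (.e (nat_lit 516151) (nat_lit 9) (.e (nat_lit 426045) (nat_lit 0) (.e (nat_lit 3366) (nat_lit 208) (.e (nat_lit 622625) (nat_lit 13) (.e (nat_lit 2663) (nat_lit 167) .nil)))))))) (.g (nat_lit 1) (.e (nat_lit 216190) (nat_lit 0) .nil) .nil))) 
(.lf (nat_lit 517815) (.g (nat_lit 1739) (.e (nat_lit 196666) (nat_lit 13) (.e (nat_lit 65617) (nat_lit 10) (.e (nat_lit 344130) (nat_lit 26) (.e (nat_lit 557065) (nat_lit 9) (.e (nat_lit 230) (nat_lit 21) .nil))))) (.g (nat_lit 0) (.e (nat_lit 216906) (nat_lit 0) .nil) .nil)))) (.nd (nat_lit 9) 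
(.lf (nat_lit 517559) (.g (nat_lit 2668) (.e (nat_lit 196666) (nat_lit 13) (.e (nat_lit 65610) (nat_lit 10) (.e (nat_lit 344129) (nat_lit 26) (.e (nat_lit 557067) (nat_lit 9) (.e (nat_lit 2743) (nat_lit 174) (.e (nat_lit 253959) (nat_lit 9) (.e (nat_lit 396) (nat_lit 32) (.e (nat_lit 426121) (nat_lit 2) .nil)))))))) (.g (nat_lit 1) (.e (nat_lit 216568) (nat_lit 0) .nil) .nil))) 
(.lf (nat_lit 518071) (.g (nat_lit 4717) (.e (nat_lit 196666) (nat_lit 13) (.e (nat_lit 65628) (nat_lit 14) (.e (nat_lit 401428) (nat_lit 3) (.e (nat_lit 204855) (nat_lit 26) (.e (nat_lit 336226) (nat_lit 14) (.e (nat_lit 401425) (nat_lit 2) .nil)))))) (.g (nat_lit 1) (.e (nat_lit 217229) (nat_lit 0) .nil) .nil)))))) (.nd (nat_lit 7) (.nd (nat_lit 8) (.nd (nat_lit 9) 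
(.lf (nat_lit 517239) (.g (nat_lit 3954) (.e (nat_lit 196666) (nat_lit 13) (.e (nat_lit 65610) (nat_lit 10) (.e (nat_lit 344117) (nat_lit 21) (.e (nat_lit 516151) (nat_lit 9) (.e (nat_lit 426040) (nat_lit 0) (.e (nat_lit 3369) (nat_lit 208) (.e (nat_lit 622627) (nat_lit 13) (.e (nat_lit 2663) (nat_lit 167) .nil)))))))) (.g (nat_lit 1) (.e (nat_lit 216126) (nat_lit 0) .nil) .nil))) 
(.lf (nat_lit 517751) (.g (nat_lit 2081) (.e (nat_lit 196666) (nat_lit 13) (.e (nat_lit 65617) (nat_lit 10) (.e (nat_lit 344126) (nat_lit 25) (.e (nat_lit 548889) (nat_lit 9) (.e (nat_lit 65537) (nat_lit 0) (.e (nat_lit 6676) (nat_lit 357) (.e (nat_lit 2664) (nat_lit 167) .nil))))))) (.g (nat_lit 1) (.e (nat_lit 216831) (nat_lit 0) .nil) .nil)))) (.nd (nat_lit 9) 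
(.lf (nat_lit 517495) (.g (nat_lit 4208) (.e (nat_lit 196666) (nat_lit 13) (.e (nat_lit 65610) (nat_lit 10) (.e (nat_lit 344117) (nat_lit 21) (.e (nat_lit 516185) (nat_lit 16) (.e (nat_lit 491520) (nat_lit 0) (.e (nat_lit 6681) (nat_lit 357) (.e (nat_lit 2664) (nat_lit 167) .nil))))))) (.g (nat_lit 1) (.e (nat_lit 216456) (nat_lit 0) .nil) .nil))) 
(.lf (nat_lit 518007) (.g (nat_lit 1967) (.e (nat_lit 196666) (nat_lit 13) (.e (nat_lit 65619) (nat_lit 10) (.e (nat_lit 344117) (nat_lit 21) (.e (nat_lit 516106) (nat_lit 0) (.e (nat_lit 6966) (nat_lit 377) .nil))))) (.g (nat_lit 0) (.e (nat_lit 217127) (nat_lit 0) .nil) .nil))))) (.nd (nat_lit 8) (.nd (nat_lit 9) 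
(.lf (nat_lit 517367) (.g (nat_lit 4641) (.e (nat_lit 196666) (nat_lit 13) (.e (nat_lit 65610) (nat_lit 10) (.e (nat_lit 344117) (nat_lit 21) (.e (nat_lit 516151) (nat_lit 9) (.e (nat_lit 426047) (nat_lit 0) (.e (nat_lit 2423) (nat_lit 157) (.e (nat_lit 4821) (nat_lit 281) (.e (nat_lit 2477) (nat_lit 157) (.e (nat_lit 2663) (nat_lit 167) .nil))))))))) (.g (nat_lit 1) (.e (nat_lit 216254) (nat_lit 0) .nil) .nil))) 
(.lf (nat_lit 517879) (.g (nat_lit 3307) (.e (nat_lit 196666) (nat_lit 13) (.e (nat_lit 65617) (nat_lit 10) (.e (nat_lit 344130) (nat_lit 26) (.e (nat_lit 557090) (nat_lit 12) (.e (nat_lit 163848) (nat_lit 0) (.e (nat_lit 6418) (nat_lit 341) (.e (nat_lit 163900) (nat_lit 12) (.e (nat_lit 426125) (nat_lit 2) .nil)))))))) (.g (nat_lit 1) (.e (nat_lit 216984) (nat_lit 0) .nil) .nil)))) 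
(.nd (nat_lit 9) 
(.lf (nat_lit 517623) (.g (nat_lit 2892) (.e (nat_lit 196666) (nat_lit 13) (.e (nat_lit 65610) (nat_lit 10) (.e (nat_lit 344129) (nat_lit 26) (.e (nat_lit 557090) (nat_lit 12) (.e (nat_lit 163840) (nat_lit 0) (.e (nat_lit 6374) (nat_lit 337) (.e (nat_lit 2628) (nat_lit 164) (.e (nat_lit 172064) (nat_lit 2) .nil)))))))) (.g (nat_lit 1) (.e (nat_lit 216671) (nat_lit 0) .nil) .nil))) 
(.lf (nat_lit 518135) (.g (nat_lit 1401) (.e (nat_lit 196668) (nat_lit 14) (.e (nat_lit 73746) (nat_lit 3) (.e (nat_lit 516117) (nat_lit 1) (.e (nat_lit 164183) (nat_lit 154) .nil)))) (.g (nat_lit 0) (.e (nat_lit 217393) (nat_lit 0) .nil) .nil))))))))) (.nd (nat_lit 4) (.nd (nat_lit 5) (.nd (nat_lit 6) (.nd (nat_lit 7) (.nd (nat_lit 8) (.nd (nat_lit 9) 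
(.lf (nat_lit 517135) (.g (nat_lit 3130) (.e (nat_lit 196666) (nat_lit 13) (.e (nat_lit 65610) (nat_lit 10) (.e (nat_lit 344117) (nat_lit 21) (.e (nat_lit 516151) (nat_lit 9) (.e (nat_lit 426038) (nat_lit 0) .nil))))) (.g (nat_lit 0) (.e (nat_lit 216022) (nat_lit 0) .nil) .nil))) 
(.lf (nat_lit 517647) (.g (nat_lit 3042) (.e (nat_lit 196666) (nat_lit 13) (.e (nat_lit 65610) (nat_lit 10) (.e (nat_lit 344129) (nat_lit 26) (.e (nat_lit 557090) (nat_lit 12) (.e (nat_lit 163843) (nat_lit 0) (.e (nat_lit 6418) (nat_lit 341) (.e (nat_lit 171776) (nat_lit 12) (.e (nat_lit 426123) (nat_lit 2) .nil)))))))) (.g (nat_lit 1) (.e (nat_lit 216708) (nat_lit 0) .nil) .nil)))) 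
(.nd (nat_lit 9) 
(.lf (nat_lit 517391) (.g (nat_lit 3544) (.e (nat_lit 196666) (nat_lit 13) (.e (nat_lit 65610) (nat_lit 10) (.e (nat_lit 344117) (nat_lit 21) (.e (nat_lit 516151) (nat_lit 9) (.e (nat_lit 426047) (nat_lit 0) (.e (nat_lit 3366) (nat_lit 208) (.e (nat_lit 622621) (nat_lit 13) (.e (nat_lit 2668) (nat_lit 167) .nil)))))))) (.g (nat_lit 1) (.e (nat_lit 216278) (nat_lit 0) .nil) .nil))) 
(.lf (nat_lit 517903) (.g (nat_lit 2005) (.e (nat_lit 196666) (nat_lit 13) (.e (nat_lit 65617) (nat_lit 10) (.e (nat_lit 344130) (nat_lit 26) (.e (nat_lit 557090) (nat_lit 12) (.e (nat_lit 171776) (nat_lit 46) .nil))))) (.g (nat_lit 0) (.e (nat_lit 217009) (nat_lit 0) .nil) .nil))))) (.nd (nat_lit 8) (.nd (nat_lit 9) 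
(.lf (nat_lit 517263) (.g (nat_lit 3348) (.e (nat_lit 196666) (nat_lit 13) (.e (nat_lit 65610) (nat_lit 10) (.e (nat_lit 344117) (nat_lit 21) (.e (nat_lit 516151) (nat_lit 9) (.e (nat_lit 426042) (nat_lit 0) (.e (nat_lit 2423) (nat_lit 157) (.e (nat_lit 4848) (nat_lit 285) (.e (nat_lit 163865) (nat_lit 2) .nil)))))))) (.g (nat_lit 1) (.e (nat_lit 216150) (nat_lit 0) .nil) .nil))) 
(.lf (nat_lit 517775) (.g (nat_lit 3117) (.e (nat_lit 196666) (nat_lit 13) (.e (nat_lit 65617) (nat_lit 10) (.e (nat_lit 344127) (nat_lit 26) (.e (nat_lit 557090) (nat_lit 12) (.e (nat_lit 163847) (nat_lit 0) (.e (nat_lit 6255) (nat_lit 337) (.e (nat_lit 2725) (nat_lit 172) (.e (nat_lit 237589) (nat_lit 2) .nil)))))))) (.g (nat_lit 1) (.e (nat_lit 216863) (nat_lit 0) .nil) .nil)))) 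
(.nd (nat_lit 9) 
(.lf (nat_lit 517519) (.g (nat_lit 4013) (.e (nat_lit 196666) (nat_lit 13) (.e (nat_lit 65610) (nat_lit 10) (.e (nat_lit 344128) (nat_lit 26) (.e (nat_lit 557090) (nat_lit 12) (.e (nat_lit 164020) (nat_lit 45) (.e (nat_lit 696329) (nat_lit 5) (.e (nat_lit 2884) (nat_lit 184) (.e (nat_lit 426125) (nat_lit 2) .nil)))))))) (.g (nat_lit 1) (.e (nat_lit 216507) (nat_lit 0) .nil) .nil))) 
(.lf (nat_lit 518031) (.g (nat_lit 2628) (.e (nat_lit 196666) (nat_lit 13) (.e (nat_lit 65622) (nat_lit 12) (.e (nat_lit 385068) (nat_lit 26) (.e (nat_lit 532515) (nat_lit 3) (.e (nat_lit 114697) (nat_lit 11) (.e (nat_lit 426122) (nat_lit 2) .nil)))))) (.g (nat_lit 1) (.e (nat_lit 217154) (nat_lit 0) .nil) .nil)))))) (.nd (nat_lit 7) (.nd (nat_lit 8) (.nd (nat_lit 9) 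
(.lf (nat_lit 517199) (.g (nat_lit 3719) (.e (nat_lit 196666) (nat_lit 13) (.e (nat_lit 65610) (nat_lit 10) (.e (nat_lit 344117) (nat_lit 21) (.e (nat_lit 516151) (nat_lit 9) (.e (nat_lit 426038) (nat_lit 0) (.e (nat_lit 3370) (nat_lit 208) (.e (nat_lit 622625) (nat_lit 13) (.e (nat_lit 2665) (nat_lit 167) .nil)))))))) (.g (nat_lit 1) (.e (nat_lit 216086) (nat_lit 0) .nil) .nil))) 
(.lf (nat_lit 517711) (.g (nat_lit 407) (.e (nat_lit 196666) (nat_lit 13) (.e (nat_lit 65617) (nat_lit 10) (.e (nat_lit 344091) (nat_lit 18) .nil))) (.g (nat_lit 0) (.e (nat_lit 216781) (nat_lit 0) .nil) .nil)))) (.nd (nat_lit 9) 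
(.lf (nat_lit 517455) (.g (nat_lit 2579) (.e (nat_lit 196666) (nat_lit 13) (.e (nat_lit 65610) (nat_lit 10) (.e (nat_lit 344117) (nat_lit 21) (.e (nat_lit 516160) (nat_lit 10) (.e (nat_lit 434208) (nat_lit 18) (.e (nat_lit 4751) (nat_lit 281) (.e (nat_lit 2490) (nat_lit 157) (.e (nat_lit 2664) (nat_lit 167) .nil)))))))) (.g (nat_lit 1) (.e (nat_lit 216394) (nat_lit 0) .nil) .nil))) 
(.lf (nat_lit 517967) (.g (nat_lit 2136) (.e (nat_lit 196666) (nat_lit 13) (.e (nat_lit 65617) (nat_lit 10) (.e (nat_lit 344133) (nat_lit 26) (.e (nat_lit 557091) (nat_lit 12) (.e (nat_lit 163840) (nat_lit 0) .nil))))) (.g (nat_lit 0) (.e (nat_lit 217081) (nat_lit 0) .nil) .nil))))) (.nd (nat_lit 8) (.nd (nat_lit 9) 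
(.lf (nat_lit 517327) (.g (nat_lit 2603) (.e (nat_lit 196666) (nat_lit 13) (.e (nat_lit 65610) (nat_lit 10) (.e (nat_lit 344117) (nat_lit 21) (.e (nat_lit 516151) (nat_lit 9) (.e (nat_lit 426043) (nat_lit 0) (.e (nat_lit 2424) (nat_lit 157) (.e (nat_lit 4848) (nat_lit 285) (.e (nat_lit 163865) (nat_lit 2) .nil)))))))) (.g (nat_lit 1) (.e (nat_lit 216214) (nat_lit 0) .nil) .nil))) 
(.lf (nat_lit 517839) (.g (nat_lit 2161) (.e (nat_lit 196666) (nat_lit 13) (.e (nat_lit 65617) (nat_lit 10) (.e (nat_lit 344130) (nat_lit 26) (.e (nat_lit 557087) (nat_lit 11) (.e (nat_lit 24580) (nat_lit 0) (.e (nat_lit 7936) (nat_lit 357) (.e (nat_lit 2668) (nat_lit 167) .nil))))))) (.g (nat_lit 1) (.e (nat_lit 216942) (nat_lit 0) .nil) .nil)))) (.nd (nat_lit 9) 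
(.lf (nat_lit 517583) (.g (nat_lit 2994) (.e (nat_lit 196666) (nat_lit 13) (.e (nat_lit 65610) (nat_lit 10) (.e (nat_lit 344129) (nat_lit 26) (.e (nat_lit 557087) (nat_lit 11) (.e (nat_lit 24578) (nat_lit 0) (.e (nat_lit 6696) (nat_lit 357) (.e (nat_lit 2666) (nat_lit 167) .nil))))))) (.g (nat_lit 1) (.e (nat_lit 216626) (nat_lit 0) .nil) .nil))) 
(.lf (nat_lit 518095) (.g (nat_lit 1832) (.e (nat_lit 196666) (nat_lit 13) (.e (nat_lit 65642) (nat_lit 15) (.e (nat_lit 3747) (nat_lit 228) (.e (nat_lit 786450) (nat_lit 15) (.e (nat_lit 1853) (nat_lit 124) .nil))))) (.g (nat_lit 0) (.e (nat_lit 217267) (nat_lit 0) .nil) .nil))))))) (.nd (nat_lit 6) (.nd (nat_lit 7) (.nd (nat_lit 8) (.nd (nat_lit 9) 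
(.lf (nat_lit 517167) (.g (nat_lit 3647) (.e (nat_lit 196666) (nat_lit 13) (.e (nat_lit 65610) (nat_lit 10) (.e (nat_lit 344117) (nat_lit 21) (.e (nat_lit 516151) (nat_lit 9) (.e (nat_lit 426038) (nat_lit 0) (.e (nat_lit 2427) (nat_lit 157) (.e (nat_lit 4778) (nat_lit 281) (.e (nat_lit 2444) (nat_lit 157) (.e (nat_lit 2668) (nat_lit 167) .nil))))))))) (.g (nat_lit 1) (.e (nat_lit 216054) (nat_lit 0) .nil) .nil))) 
(.lf (nat_lit 517679) (.g (nat_lit 2928) (.e (nat_lit 196666) (nat_lit 13) (.e (nat_lit 65610) (nat_lit 10) (.e (nat_lit 344129) (nat_lit 26) (.e (nat_lit 557090) (nat_lit 12) (.e (nat_lit 164019) (nat_lit 45) (.e (nat_lit 696326) (nat_lit 5) (.e (nat_lit 2878) (nat_lit 184) (.e (nat_lit 426125) (nat_lit 2) .nil)))))))) (.g (nat_lit 1) (.e (nat_lit 216748) (nat_lit 0) .nil) .nil)))) 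
(.nd (nat_lit 9) 
(.lf (nat_lit 517423) (.g (nat_lit 3890) (.e (nat_lit 196666) (nat_lit 13) (.e (nat_lit 65610) (nat_lit 10) (.e (nat_lit 344117) (nat_lit 21) (.e (nat_lit 516151) (nat_lit 9) (.e (nat_lit 426102) (nat_lit 1) (.e (nat_lit 171776) (nat_lit 219) (.e (nat_lit 163870) (nat_lit 2) .nil))))))) (.g (nat_lit 1) (.e (nat_lit 216310) (nat_lit 0) .nil) .nil))) 
(.lf (nat_lit 517935) (.g (nat_lit 1243) (.e (nat_lit 196666) (nat_lit 13) (.e (nat_lit 65617) (nat_lit 10) (.e (nat_lit 344133) (nat_lit 26) (.e (nat_lit 557065) (nat_lit 9) .nil)))) (.g (nat_lit 0) (.e (nat_lit 217045) (nat_lit 0) .nil) .nil))))) (.nd (nat_lit 8) (.nd (nat_lit 9) 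
(.lf (nat_lit 517295) (.g (nat_lit 4003) (.e (nat_lit 196666) (nat_lit 13) (.e (nat_lit 65610) (nat_lit 10) (.e (nat_lit 344117) (nat_lit 21) (.e (nat_lit 516151) (nat_lit 9) (.e (nat_lit 426045) (nat_lit 0) (.e (nat_lit 2423) (nat_lit 157) (.e (nat_lit 4849) (nat_lit 285) (.e (nat_lit 163869) (nat_lit 2) .nil)))))))) (.g (nat_lit 1) (.e (nat_lit 216182) (nat_lit 0) .nil) .nil))) 
(.lf (nat_lit 517807) (.g (nat_lit 1855) (.e (nat_lit 196666) (nat_lit 13) (.e (nat_lit 65617) (nat_lit 10) (.e (nat_lit 344127) (nat_lit 26) (.e (nat_lit 557091) (nat_lit 12) (.e (nat_lit 164020) (nat_lit 45) .nil))))) (.g (nat_lit 0) (.e (nat_lit 216898) (nat_lit 0) .nil) .nil)))) (.nd (nat_lit 9) 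
(.lf (nat_lit 517551) (.g (nat_lit 1996) (.e (nat_lit 196666) (nat_lit 13) (.e (nat_lit 65610) (nat_lit 10) (.e (nat_lit 344129) (nat_lit 26) (.e (nat_lit 557067) (nat_lit 9) (.e (nat_lit 2472) (nat_lit 157) .nil))))) (.g (nat_lit 0) (.e (nat_lit 216555) (nat_lit 0) .nil) .nil))) 
(.lf (nat_lit 518063) (.g (nat_lit 1461) (.e (nat_lit 196666) (nat_lit 13) (.e (nat_lit 65628) (nat_lit 14) (.e (nat_lit 401425) (nat_lit 2) (.e (nat_lit 196628) (nat_lit 9) .nil)))) (.g (nat_lit 0) (.e (nat_lit 217218) (nat_lit 0) .nil) .nil)))))) (.nd (nat_lit 7) (.nd (nat_lit 8) (.nd (nat_lit 9) 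
(.lf (nat_lit 517231) (.g (nat_lit 4384) (.e (nat_lit 196666) (nat_lit 13) (.e (nat_lit 65610) (nat_lit 10) (.e (nat_lit 344117) (nat_lit 21) (.e (nat_lit 516151) (nat_lit 9) (.e (nat_lit 426040) (nat_lit 0) (.e (nat_lit 3366) (nat_lit 208) (.e (nat_lit 622627) (nat_lit 13) (.e (nat_lit 2665) (nat_lit 167) .nil)))))))) (.g (nat_lit 1) (.e (nat_lit 216118) (nat_lit 0) .nil) .nil))) 
(.lf (nat_lit 517743) (.g (nat_lit 2544) (.e (nat_lit 196666) (nat_lit 13) (.e (nat_lit 65617) (nat_lit 10) (.e (nat_lit 344117) (nat_lit 21) (.e (nat_lit 516185) (nat_lit 16) (.e (nat_lit 491572) (nat_lit 14) .nil))))) (.g (nat_lit 0) (.e (nat_lit 216819) (nat_lit 0) .nil) .nil)))) (.nd (nat_lit 9) 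
(.lf (nat_lit 517487) (.g (nat_lit 2557) (.e (nat_lit 196666) (nat_lit 13) (.e (nat_lit 65610) (nat_lit 10) (.e (nat_lit 344117) (nat_lit 21) (.e (nat_lit 516160) (nat_lit 10) (.e (nat_lit 434279) (nat_lit 39) (.e (nat_lit 663552) (nat_lit 0) (.e (nat_lit 163) (nat_lit 11) .nil))))))) (.g (nat_lit 1) (.e (nat_lit 216441) (nat_lit 0) .nil) .nil))) 
(.lf (nat_lit 517999) (.g (nat_lit 2665) (.e (nat_lit 196666) (nat_lit 13) (.e (nat_lit 65617) (nat_lit 10) (.e (nat_lit 344133) (nat_lit 26) (.e (nat_lit 557093) (nat_lit 12) (.e (nat_lit 164022) (nat_lit 46) .nil))))) (.g (nat_lit 0) (.e (nat_lit 217113) (nat_lit 0) .nil) .nil))))) (.nd (nat_lit 8) (.nd (nat_lit 9) 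
(.lf (nat_lit 517359) (.g (nat_lit 4682) (.e (nat_lit 196666) (nat_lit 13) (.e (nat_lit 65610) (nat_lit 10) (.e (nat_lit 344117) (nat_lit 21) (.e (nat_lit 516151) (nat_lit 9) (.e (nat_lit 426047) (nat_lit 0) (.e (nat_lit 2416) (nat_lit 157) (.e (nat_lit 4849) (nat_lit 285) (.e (nat_lit 163870) (nat_lit 2) .nil)))))))) (.g (nat_lit 1) (.e (nat_lit 216246) (nat_lit 0) .nil) .nil))) 
(.lf (nat_lit 517871) (.g (nat_lit 2538) (.e (nat_lit 196666) (nat_lit 13) (.e (nat_lit 65617) (nat_lit 10) (.e (nat_lit 344130) (nat_lit 26) (.e (nat_lit 557090) (nat_lit 12) (.e (nat_lit 163844) (nat_lit 0) (.e (nat_lit 6254) (nat_lit 337) (.e (nat_lit 2725) (nat_lit 172) (.e (nat_lit 237588) (nat_lit 2) .nil)))))))) (.g (nat_lit 1) (.e (nat_lit 216976) (nat_lit 0) .nil) .nil)))) 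
(.nd (nat_lit 9) 
(.lf (nat_lit 517615) (.g (nat_lit 3052) (.e (nat_lit 196666) (nat_lit 13) (.e (nat_lit 65610) (nat_lit 10) (.e (nat_lit 344129) (nat_lit 26) (.e (nat_lit 557089) (nat_lit 12) (.e (nat_lit 163849) (nat_lit 0) (.e (nat_lit 6420) (nat_lit 341) (.e (nat_lit 171776) (nat_lit 12) (.e (nat_lit 426123) (nat_lit 2) .nil)))))))) (.g (nat_lit 1) (.e (nat_lit 216663) (nat_lit 0) .nil) .nil))) 
(.lf (nat_lit 518127) (.g (nat_lit 429) (.e (nat_lit 196668) (nat_lit 14) (.e (nat_lit 73746) (nat_lit 3) (.e (nat_lit 516117) (nat_lit 1) .nil))) (.g (nat_lit 0) (.e (nat_lit 217373) (nat_lit 0) .nil) .nil)))))))) (.nd (nat_lit 5) (.nd (nat_lit 6) (.nd (nat_lit 7) (.nd (nat_lit 8) (.nd (nat_lit 9) 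
(.lf (nat_lit 517151) (.g (nat_lit 3450) (.e (nat_lit 196666) (nat_lit 13) (.e (nat_lit 65610) (nat_lit 10) (.e (nat_lit 344117) (nat_lit 21) (.e (nat_lit 516151) (nat_lit 9) (.e (nat_lit 426038) (nat_lit 0) (.e (nat_lit 2423) (nat_lit 157) (.e (nat_lit 4762) (nat_lit 281) (.e (nat_lit 2463) (nat_lit 157) (.e (nat_lit 2666) (nat_lit 167) .nil))))))))) (.g (nat_lit 1) (.e (nat_lit 216038) (nat_lit 0) .nil) .nil))) 
(.lf (nat_lit 517663) (.g (nat_lit 3585) (.e (nat_lit 196666) (nat_lit 13) (.e (nat_lit 65610) (nat_lit 10) (.e (nat_lit 344129) (nat_lit 26) (.e (nat_lit 557090) (nat_lit 12) (.e (nat_lit 163848) (nat_lit 0) (.e (nat_lit 6416) (nat_lit 341) (.e (nat_lit 163909) (nat_lit 12) (.e (nat_lit 426125) (nat_lit 2) .nil)))))))) (.g (nat_lit 1) (.e (nat_lit 216729) (nat_lit 0) .nil) .nil)))) 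
(.nd (nat_lit 9) 
(.lf (nat_lit 517407) (.g (nat_lit 3165) (.e (nat_lit 196666) (nat_lit 13) (.e (nat_lit 65610) (nat_lit 10) (.e (nat_lit 344117) (nat_lit 21) (.e (nat_lit 516151) (nat_lit 9) (.e (nat_lit 426047) (nat_lit 0) (.e (nat_lit 3370) (nat_lit 208) (.e (nat_lit 622622) (nat_lit 13) (.e (nat_lit 2662) (nat_lit 167) .nil)))))))) (.g (nat_lit 1) (.e (nat_lit 216294) (nat_lit 0) .nil) .nil))) 
(.lf (nat_lit 517919) (.g (nat_lit 3797) (.e (nat_lit 196666) (nat_lit 13) (.e (nat_lit 65617) (nat_lit 10) (.e (nat_lit 344132) (nat_lit 26) (.e (nat_lit 557090) (nat_lit 12) (.e (nat_lit 164020) (nat_lit 45) (.e (nat_lit 696330) (nat_lit 5) (.e (nat_lit 2884) (nat_lit 184) (.e (nat_lit 426125) (nat_lit 2) .nil)))))))) (.g (nat_lit 1) (.e (nat_lit 217028) (nat_lit 0) .nil) .nil))))) 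
(.nd (nat_lit 8) (.nd (nat_lit 9) 
(.lf (nat_lit 517279) (.g (nat_lit 2583) (.e (nat_lit 196666) (nat_lit 13) (.e (nat_lit 65610) (nat_lit 10) (.e (nat_lit 344117) (nat_lit 21) (.e (nat_lit 516151) (nat_lit 9) (.e (nat_lit 426042) (nat_lit 0) (.e (nat_lit 3370) (nat_lit 208) (.e (nat_lit 622627) (nat_lit 13) (.e (nat_lit 2665) (nat_lit 167) .nil)))))))) (.g (nat_lit 1) (.e (nat_lit 216166) (nat_lit 0) .nil) .nil))) 
(.lf (nat_lit 517791) (.g (nat_lit 2832) (.e (nat_lit 196666) (nat_lit 13) (.e (nat_lit 65617) (nat_lit 10) (.e (nat_lit 344127) (nat_lit 26) (.e (nat_lit 557090) (nat_lit 12) (.e (nat_lit 164016) (nat_lit 44) (.e (nat_lit 688138) (nat_lit 5) (.e (nat_lit 2887) (nat_lit 184) (.e (nat_lit 426125) (nat_lit 2) .nil)))))))) (.g (nat_lit 1) (.e (nat_lit 216880) (nat_lit 0) .nil) .nil)))) 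
(.nd (nat_lit 9) 
(.lf (nat_lit 517535) (.g (nat_lit 1793) (.e (nat_lit 196666) (nat_lit 13) (.e (nat_lit 65610) (nat_lit 10) (.e (nat_lit 344129) (nat_lit 26) (.e (nat_lit 557066) (nat_lit 9) (.e (nat_lit 2615) (nat_lit 163) .nil))))) (.g (nat_lit 0) (.e (nat_lit 216526) (nat_lit 0) .nil) .nil))) 
(.lf (nat_lit 518047) (.g (nat_lit 2172) (.e (nat_lit 196666) (nat_lit 13) (.e (nat_lit 65624) (nat_lit 12) (.e (nat_lit 385068) (nat_lit 26) (.e (nat_lit 532505) (nat_lit 2) .nil)))) (.g (nat_lit 0) (.e (nat_lit 217182) (nat_lit 0) .nil) .nil)))))) (.nd (nat_lit 7) (.nd (nat_lit 8) (.nd (nat_lit 9) 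
(.lf (nat_lit 517215) (.g (nat_lit 4729) (.e (nat_lit 196666) (nat_lit 13) (.e (nat_lit 65610) (nat_lit 10) (.e (nat_lit 344117) (nat_lit 21) (.e (nat_lit 516151) (nat_lit 9) (.e (nat_lit 426040) (nat_lit 0) (.e (nat_lit 2423) (nat_lit 157) (.e (nat_lit 4849) (nat_lit 285) (.e (nat_lit 163869) (nat_lit 2) .nil)))))))) (.g (nat_lit 1) (.e (nat_lit 216102) (nat_lit 0) .nil) .nil))) 
(.lf (nat_lit 517727) (.g (nat_lit 3294) (.e (nat_lit 196666) (nat_lit 13) (.e (nat_lit 65617) (nat_lit 10) (.e (nat_lit 344117) (nat_lit 21) (.e (nat_lit 516106) (nat_lit 0) (.e (nat_lit 6986) (nat_lit 377) (.e (nat_lit 2512) (nat_lit 157) (.e (nat_lit 5626) (nat_lit 312) (.e (nat_lit 2668) (nat_lit 167) .nil)))))))) (.g (nat_lit 1) (.e (nat_lit 216803) (nat_lit 0) .nil) .nil)))) 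
(.nd (nat_lit 9) 
(.lf (nat_lit 517471) (.g (nat_lit 3291) (.e (nat_lit 196666) (nat_lit 13) (.e (nat_lit 65610) (nat_lit 10) (.e (nat_lit 344117) (nat_lit 21) (.e (nat_lit 516160) (nat_lit 10) (.e (nat_lit 434275) (nat_lit 39) (.e (nat_lit 663559) (nat_lit 0) (.e (nat_lit 7936) (nat_lit 11) .nil))))))) (.g (nat_lit 1) (.e (nat_lit 216424) (nat_lit 0) .nil) .nil))) 
(.lf (nat_lit 517983) (.g (nat_lit 4534) (.e (nat_lit 196666) (nat_lit 13) (.e (nat_lit 65617) (nat_lit 10) (.e (nat_lit 344133) (nat_lit 26) (.e (nat_lit 557091) (nat_lit 12) (.e (nat_lit 164018) (nat_lit 45) (.e (nat_lit 696327) (nat_lit 5) (.e (nat_lit 2884) (nat_lit 184) (.e (nat_lit 426125) (nat_lit 2) .nil)))))))) (.g (nat_lit 1) (.e (nat_lit 217097) (nat_lit 0) .nil) .nil))))) 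
(.nd (nat_lit 8) (.nd (nat_lit 9) 
(.lf (nat_lit 517343) (.g (nat_lit 3444) (.e (nat_lit 196666) (nat_lit 13) (.e (nat_lit 65610) (nat_lit 10) (.e (nat_lit 344117) (nat_lit 21) (.e (nat_lit 516151) (nat_lit 9) (.e (nat_lit 426050) (nat_lit 0) (.e (nat_lit 2449) (nat_lit 157) (.e (nat_lit 4778) (nat_lit 281) (.e (nat_lit 2444) (nat_lit 157) (.e (nat_lit 2668) (nat_lit 167) .nil))))))))) (.g (nat_lit 1) (.e (nat_lit 216230) (nat_lit 0) .nil) .nil))) 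
(.lf (nat_lit 517855) (.g (nat_lit 3292) (.e (nat_lit 196666) (nat_lit 13) (.e (nat_lit 65617) (nat_lit 10) (.e (nat_lit 344130) (nat_lit 26) (.e (nat_lit 557089) (nat_lit 12) (.e (nat_lit 164017) (nat_lit 44) (.e (nat_lit 688139) (nat_lit 5) (.e (nat_lit 2887) (nat_lit 184) (.e (nat_lit 426120) (nat_lit 2) .nil)))))))) (.g (nat_lit 1) (.e (nat_lit 216959) (nat_lit 0) .nil) .nil)))) 
(.nd (nat_lit 9) 
(.lf (nat_lit 517599) (.g (nat_lit 2270) (.e (nat_lit 196666) (nat_lit 13) (.e (nat_lit 65610) (nat_lit 10) (.e (nat_lit 344129) (nat_lit 26) (.e (nat_lit 557088) (nat_lit 12) (.e (nat_lit 164020) (nat_lit 45) .nil))))) (.g (nat_lit 0) (.e (nat_lit 216644) (nat_lit 0) .nil) .nil))) 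
(.lf (nat_lit 518111) (.g (nat_lit 194) (.e (nat_lit 196668) (nat_lit 14) (.e (nat_lit 73737) (nat_lit 0) (.e (nat_lit 5949) (nat_lit 322) .nil))) (.g (nat_lit 0) (.e (nat_lit 217311) (nat_lit 0) .nil) .nil))))))) (.nd (nat_lit 6) (.nd (nat_lit 7) (.nd (nat_lit 8) (.nd (nat_lit 9) 
(.lf (nat_lit 517183) (.g (nat_lit 3380) (.e (nat_lit 196666) (nat_lit 13) (.e (nat_lit 65610) (nat_lit 10) (.e (nat_lit 344117) (nat_lit 21) (.e (nat_lit 516151) (nat_lit 9) (.e (nat_lit 426038) (nat_lit 0) (.e (nat_lit 3366) (nat_lit 208) (.e (nat_lit 630528) (nat_lit 13) (.e (nat_lit 2666) (nat_lit 167) .nil)))))))) (.g (nat_lit 1) (.e (nat_lit 216070) (nat_lit 0) .nil) .nil))) 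
(.lf (nat_lit 517695) (.g (nat_lit 2734) (.e (nat_lit 196666) (nat_lit 13) (.e (nat_lit 65610) (nat_lit 10) (.e (nat_lit 344129) (nat_lit 26) (.e (nat_lit 557092) (nat_lit 12) (.e (nat_lit 171776) (nat_lit 48) .nil))))) (.g (nat_lit 0) (.e (nat_lit 216764) (nat_lit 0) .nil) .nil)))) (.nd (nat_lit 9) 
(.lf (nat_lit 517439) (.g (nat_lit 3262) (.e (nat_lit 196666) (nat_lit 13) (.e (nat_lit 65610) (nat_lit 10) (.e (nat_lit 344117) (nat_lit 21) (.e (nat_lit 516159) (nat_lit 10) (.e (nat_lit 434275) (nat_lit 39) (.e (nat_lit 663552) (nat_lit 0) (.e (nat_lit 161) (nat_lit 11) .nil))))))) (.g (nat_lit 1) (.e (nat_lit 216362) (nat_lit 0) .nil) .nil))) 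
(.lf (nat_lit 517951) (.g (nat_lit 1188) (.e (nat_lit 196666) (nat_lit 13) (.e (nat_lit 65617) (nat_lit 10) (.e (nat_lit 344133) (nat_lit 26) (.e (nat_lit 557089) (nat_lit 12) .nil)))) (.g (nat_lit 0) (.e (nat_lit 217065) (nat_lit 0) .nil) .nil))))) (.nd (nat_lit 8) (.nd (nat_lit 9) 
(.lf (nat_lit 517311) (.g (nat_lit 3458) (.e (nat_lit 196666) (nat_lit 13) (.e (nat_lit 65610) (nat_lit 10) (.e (nat_lit 344117) (nat_lit 21) (.e (nat_lit 516151) (nat_lit 9) (.e (nat_lit 426045) (nat_lit 0) (.e (nat_lit 3369) (nat_lit 208) (.e (nat_lit 622624) (nat_lit 13) (.e (nat_lit 2668) (nat_lit 167) .nil)))))))) (.g (nat_lit 1) (.e (nat_lit 216198) (nat_lit 0) .nil) .nil))) 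
(.lf (nat_lit 517823) (.g (nat_lit 2785) (.e (nat_lit 196666) (nat_lit 13) (.e (nat_lit 65617) (nat_lit 10) (.e (nat_lit 344130) (nat_lit 26) (.e (nat_lit 557067) (nat_lit 9) (.e (nat_lit 22) (nat_lit 0) (.e (nat_lit 6232) (nat_lit 335) (.e (nat_lit 164359) (nat_lit 246) (.e (nat_lit 2661) (nat_lit 167) .nil)))))))) (.g (nat_lit 1) (.e (nat_lit 216915) (nat_lit 0) .nil) .nil)))) (.nd (nat_lit 9) 
(.lf (nat_lit 517567) (.g (nat_lit 2371) (.e (nat_lit 196666) (nat_lit 13) (.e (nat_lit 65610) (nat_lit 10) (.e (nat_lit 344129) (nat_lit 26) (.e (nat_lit 557074) (nat_lit 9) (.e (nat_lit 2739) (nat_lit 174) (.e (nat_lit 253988) (nat_lit 11) (.e (nat_lit 16413) (nat_lit 2) .nil))))))) (.g (nat_lit 1) (.e (nat_lit 216579) (nat_lit 0) .nil) .nil))) 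
(.lf (nat_lit 518079) (.g (nat_lit 2959) (.e (nat_lit 196666) (nat_lit 13) (.e (nat_lit 65630) (nat_lit 14) (.e (nat_lit 401424) (nat_lit 2) (.e (nat_lit 196666) (nat_lit 13) (.e (nat_lit 65630) (nat_lit 14) .nil))))) (.g (nat_lit 0) (.e (nat_lit 217238) (nat_lit 0) .nil) .nil)))))) (.nd (nat_lit 7) (.nd (nat_lit 8) (.nd (nat_lit 9) 
(.lf (nat_lit 517247) (.g (nat_lit 3717) (.e (nat_lit 196666) (nat_lit 13) (.e (nat_lit 65610) (nat_lit 10) (.e (nat_lit 344117) (nat_lit 21) (.e (nat_lit 516151) (nat_lit 9) (.e (nat_lit 426040) (nat_lit 0) (.e (nat_lit 3370) (nat_lit 208) (.e (nat_lit 622627) (nat_lit 13) (.e (nat_lit 2666) (nat_lit 167) .nil)))))))) (.g (nat_lit 1) (.e (nat_lit 216134) (nat_lit 0) .nil) .nil))) 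
(.lf (nat_lit 517759) (.g (nat_lit 2985) (.e (nat_lit 196666) (nat_lit 13) (.e (nat_lit 65617) (nat_lit 10) (.e (nat_lit 344127) (nat_lit 26) (.e (nat_lit 557089) (nat_lit 12) (.e (nat_lit 164020) (nat_lit 45) (.e (nat_lit 696344) (nat_lit 8) (.e (nat_lit 172062) (nat_lit 2) .nil))))))) (.g (nat_lit 1) (.e (nat_lit 216846) (nat_lit 0) .nil) .nil)))) (.nd (nat_lit 9) 
(.lf (nat_lit 517503) (.g (nat_lit 3655) (.e (nat_lit 196666) (nat_lit 13) (.e (nat_lit 65610) (nat_lit 10) (.e (nat_lit 344117) (nat_lit 21) (.e (nat_lit 516185) (nat_lit 16) (.e (nat_lit 491530) (nat_lit 0) (.e (nat_lit 7936) (nat_lit 357) (.e (nat_lit 2666) (nat_lit 167) .nil))))))) (.g (nat_lit 1) (.e (nat_lit 216464) (nat_lit 0) .nil) .nil))) 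
(.lf (nat_lit 518015) (.g (nat_lit 3769) (.e (nat_lit 196666) (nat_lit 13) (.e (nat_lit 65619) (nat_lit 10) (.e (nat_lit 344117) (nat_lit 21) (.e (nat_lit 516139) (nat_lit 7) (.e (nat_lit 409623) (nat_lit 10) (.e (nat_lit 5626) (nat_lit 312) (.e (nat_lit 2668) (nat_lit 167) .nil))))))) (.g (nat_lit 1) (.e (nat_lit 217135) (nat_lit 0) .nil) .nil))))) (.nd (nat_lit 8) (.nd (nat_lit 9) 
(.lf (nat_lit 517375) (.g (nat_lit 3860) (.e (nat_lit 196666) (nat_lit 13) (.e (nat_lit 65610) (nat_lit 10) (.e (nat_lit 344117) (nat_lit 21) (.e (nat_lit 516151) (nat_lit 9) (.e (nat_lit 426047) (nat_lit 0) (.e (nat_lit 2424) (nat_lit 157) (.e (nat_lit 4849) (nat_lit 285) (.e (nat_lit 163869) (nat_lit 2) .nil)))))))) (.g (nat_lit 1) (.e (nat_lit 216262) (nat_lit 0) .nil) .nil))) 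
(.lf (nat_lit 517887) (.g (nat_lit 3248) (.e (nat_lit 196666) (nat_lit 13) (.e (nat_lit 65617) (nat_lit 10) (.e (nat_lit 344130) (nat_lit 26) (.e (nat_lit 557090) (nat_lit 12) (.e (nat_lit 163854) (nat_lit 0) (.e (nat_lit 6426) (nat_lit 342) (.e (nat_lit 229399) (nat_lit 12) (.e (nat_lit 426125) (nat_lit 2) .nil)))))))) (.g (nat_lit 1) (.e (nat_lit 216992) (nat_lit 0) .nil) .nil)))) 
(.nd (nat_lit 9) 
(.lf (nat_lit 517631) (.g (nat_lit 2521) (.e (nat_lit 196666) (nat_lit 13) (.e (nat_lit 65610) (nat_lit 10) (.e (nat_lit 344129) (nat_lit 26) (.e (nat_lit 557090) (nat_lit 12) (.e (nat_lit 163841) (nat_lit 0) (.e (nat_lit 6255) (nat_lit 337) (.e (nat_lit 2630) (nat_lit 164) (.e (nat_lit 172062) (nat_lit 2) .nil)))))))) (.g (nat_lit 1) (.e (nat_lit 216679) (nat_lit 0) .nil) .nil))) 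
(.lf (nat_lit 518143) (.g (nat_lit 1514) (.e (nat_lit 196668) (nat_lit 14) (.e (nat_lit 73746) (nat_lit 3) (.e (nat_lit 516119) (nat_lit 1) (.e (nat_lit 164177) (nat_lit 154) .nil)))) (.g (nat_lit 0) (.e (nat_lit 217430) (nat_lit 0) .nil) .nil)))))))))))))

noncomputable def tv5566 : DT := (.nd (nat_lit 0) (.nd (nat_lit 1) (.nd (nat_lit 2) (.nd (nat_lit 3) (.nd (nat_lit 4) (.nd (nat_lit 5) (.nd (nat_lit 6) (.nd (nat_lit 7) (.nd (nat_lit 8) (.nd (nat_lit 9) 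
(.lf (nat_lit 518144) (.g (nat_lit 1391) (.e (nat_lit 196668) (nat_lit 14) (.e (nat_lit 73746) (nat_lit 3) (.e (nat_lit 516119) (nat_lit 1) (.e (nat_lit 164178) (nat_lit 154) .nil)))) (.g (nat_lit 0) (.e (nat_lit 217431) (nat_lit 0) .nil) .nil))) 
(.lf (nat_lit 518656) (.g (nat_lit 2968) (.e (nat_lit 196670) (nat_lit 14) (.e (nat_lit 73753) (nat_lit 8) (.e (nat_lit 557105) (nat_lit 14) (.e (nat_lit 180252) (nat_lit 10) (.e (nat_lit 573474) (nat_lit 12) (.e (nat_lit 57508) (nat_lit 39) (.e (nat_lit 647168) (nat_lit 0) (.e (nat_lit 2663) (nat_lit 167) .nil)))))))) (.g (nat_lit 1) (.e (nat_lit 219163) (nat_lit 0) .nil) .nil)))) 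
(.nd (nat_lit 9) 
(.lf (nat_lit 518400) (.g (nat_lit 1735) (.e (nat_lit 196669) (nat_lit 14) (.e (nat_lit 73747) (nat_lit 3) (.e (nat_lit 516119) (nat_lit 1) (.e (nat_lit 164176) (nat_lit 154) (.e (nat_lit 57379) (nat_lit 3) .nil))))) (.g (nat_lit 0) (.e (nat_lit 218512) (nat_lit 0) .nil) .nil))) 
(.lf (nat_lit 518912) (.g (nat_lit 2871) (.e (nat_lit 196672) (nat_lit 15) (.e (nat_lit 81954) (nat_lit 23) (.e (nat_lit 98350) (nat_lit 24) (.e (nat_lit 409616) (nat_lit 10) (.e (nat_lit 5659) (nat_lit 312) (.e (nat_lit 2654) (nat_lit 167) .nil)))))) (.g (nat_lit 1) (.e (nat_lit 219613) (nat_lit 0) .nil) .nil))))) (.nd (nat_lit 8) (.nd (nat_lit 9) 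
(.lf (nat_lit 518272) (.g (nat_lit 3012) (.e (nat_lit 196668) (nat_lit 14) (.e (nat_lit 73747) (nat_lit 3) (.e (nat_lit 516131) (nat_lit 3) (.e (nat_lit 221214) (nat_lit 23) (.e (nat_lit 204829) (nat_lit 18) (.e (nat_lit 57924) (nat_lit 282) (.e (nat_lit 163867) (nat_lit 2) .nil))))))) (.g (nat_lit 1) (.e (nat_lit 218193) (nat_lit 0) .nil) .nil))) 
(.lf (nat_lit 518784) (.g (nat_lit 698) (.e (nat_lit 196670) (nat_lit 14) (.e (nat_lit 73781) (nat_lit 32) (.e (nat_lit 2681) (nat_lit 168) (.e (nat_lit 204847) (nat_lit 25) .nil)))) (.g (nat_lit 0) (.e (nat_lit 219328) (nat_lit 0) .nil) .nil)))) (.nd (nat_lit 9) 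
(.lf (nat_lit 518528) (.g (nat_lit 2124) (.e (nat_lit 196670) (nat_lit 14) (.e (nat_lit 73746) (nat_lit 3) (.e (nat_lit 516129) (nat_lit 3) (.e (nat_lit 221214) (nat_lit 23) (.e (nat_lit 204821) (nat_lit 17) .nil))))) (.g (nat_lit 0) (.e (nat_lit 218986) (nat_lit 0) .nil) .nil))) 
(.lf (nat_lit 519040) (.g (nat_lit 2650) (.e (nat_lit 196674) (nat_lit 15) (.e (nat_lit 81946) (nat_lit 20) (.e (nat_lit 1858) (nat_lit 124) (.e (nat_lit 557072) (nat_lit 9) (.e (nat_lit 2741) (nat_lit 174) (.e (nat_lit 253990) (nat_lit 11) (.e (nat_lit 16410) (nat_lit 2) .nil))))))) (.g (nat_lit 1) (.e (nat_lit 219832) (nat_lit 0) .nil) .nil)))))) 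
(.nd (nat_lit 7) (.nd (nat_lit 8) (.nd (nat_lit 9) 
(.lf (nat_lit 518208) (.g (nat_lit 2957) (.e (nat_lit 196668) (nat_lit 14) (.e (nat_lit 73747) (nat_lit 3) (.e (nat_lit 516118) (nat_lit 1) (.e (nat_lit 164183) (nat_lit 154) (.e (nat_lit 57378) (nat_lit 3) (.e (nat_lit 98340) (nat_lit 20) (.e (nat_lit 221210) (nat_lit 22) .nil))))))) (.g (nat_lit 1) (.e (nat_lit 217926) (nat_lit 0) .nil) .nil))) 
(.lf (nat_lit 518720) (.g (nat_lit 2618) (.e (nat_lit 196670) (nat_lit 14) (.e (nat_lit 73754) (nat_lit 8) (.e (nat_lit 557105) (nat_lit 14) (.e (nat_lit 180252) (nat_lit 10) (.e (nat_lit 573473) (nat_lit 12) (.e (nat_lit 57509) (nat_lit 39) (.e (nat_lit 655104) (nat_lit 0) (.e (nat_lit 2667) (nat_lit 167) .nil)))))))) (.g (nat_lit 1) (.e (nat_lit 219249) (nat_lit 0) .nil) .nil)))) 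
(.nd (nat_lit 9) 
(.lf (nat_lit 518464) (.g (nat_lit 1588) (.e (nat_lit 196670) (nat_lit 14) (.e (nat_lit 73746) (nat_lit 3) (.e (nat_lit 516115) (nat_lit 1) (.e (nat_lit 164178) (nat_lit 154) .nil)))) (.g (nat_lit 0) (.e (nat_lit 218624) (nat_lit 0) .nil) .nil))) 
(.lf (nat_lit 518976) (.g (nat_lit 1864) (.e (nat_lit 196673) (nat_lit 15) (.e (nat_lit 81928) (nat_lit 20) (.e (nat_lit 1788) (nat_lit 119) (.e (nat_lit 516139) (nat_lit 7) (.e (nat_lit 409643) (nat_lit 18) .nil))))) (.g (nat_lit 0) (.e (nat_lit 219734) (nat_lit 0) .nil) .nil))))) (.nd (nat_lit 8) (.nd (nat_lit 9) 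
(.lf (nat_lit 518336) (.g (nat_lit 1378) (.e (nat_lit 196668) (nat_lit 14) (.e (nat_lit 73753) (nat_lit 8) (.e (nat_lit 557105) (nat_lit 14) (.e (nat_lit 180252) (nat_lit 10) .nil)))) (.g (nat_lit 0) (.e (nat_lit 218375) (nat_lit 0) .nil) .nil))) 
(.lf (nat_lit 518848) (.g (nat_lit 1031) (.e (nat_lit 196672) (nat_lit 15) (.e (nat_lit 81953) (nat_lit 22) (.e (nat_lit 90133) (nat_lit 9) (.e (nat_lit 2397) (nat_lit 157) .nil)))) (.g (nat_lit 0) (.e (nat_lit 219513) (nat_lit 0) .nil) .nil)))) (.nd (nat_lit 9) 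
(.lf (nat_lit 518592) (.g (nat_lit 2005) (.e (nat_lit 196670) (nat_lit 14) (.e (nat_lit 73753) (nat_lit 8) (.e (nat_lit 557097) (nat_lit 13) (.e (nat_lit 172064) (nat_lit 2) (.e (nat_lit 204544) (nat_lit 0) .nil))))) (.g (nat_lit 0) (.e (nat_lit 219068) (nat_lit 0) .nil) .nil))) 
(.lf (nat_lit 519104) (.g (nat_lit 3138) (.e (nat_lit 196681) (nat_lit 17) (.e (nat_lit 131098) (nat_lit 3) (.e (nat_lit 98333) (nat_lit 18) (.e (nat_lit 164183) (nat_lit 154) (.e (nat_lit 57379) (nat_lit 3) (.e (nat_lit 98340) (nat_lit 20) (.e (nat_lit 221212) (nat_lit 22) .nil))))))) (.g (nat_lit 1) (.e (nat_lit 220084) (nat_lit 0) .nil) .nil))))))) 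
(.nd (nat_lit 6) (.nd (nat_lit 7) (.nd (nat_lit 8) (.nd (nat_lit 9) 
(.lf (nat_lit 518176) (.g (nat_lit 2792) (.e (nat_lit 196668) (nat_lit 14) (.e (nat_lit 73746) (nat_lit 3) (.e (nat_lit 516129) (nat_lit 3) (.e (nat_lit 221215) (nat_lit 23) (.e (nat_lit 204830) (nat_lit 18) (.e (nat_lit 57927) (nat_lit 282) (.e (nat_lit 163866) (nat_lit 2) .nil))))))) (.g (nat_lit 1) (.e (nat_lit 217542) (nat_lit 0) .nil) .nil))) 
(.lf (nat_lit 518688) (.g (nat_lit 2883) (.e (nat_lit 196670) (nat_lit 14) (.e (nat_lit 73754) (nat_lit 8) (.e (nat_lit 557105) (nat_lit 14) (.e (nat_lit 180244) (nat_lit 5) (.e (nat_lit 532499) (nat_lit 1) .nil))))) (.g (nat_lit 0) (.e (nat_lit 219216) (nat_lit 0) .nil) .nil)))) (.nd (nat_lit 9) 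
(.lf (nat_lit 518432) (.g (nat_lit 3754) (.e (nat_lit 196669) (nat_lit 14) (.e (nat_lit 73755) (nat_lit 8) (.e (nat_lit 557104) (nat_lit 14) (.e (nat_lit 180244) (nat_lit 5) (.e (nat_lit 532499) (nat_lit 1) (.e (nat_lit 65280) (nat_lit 168) (.e (nat_lit 163869) (nat_lit 2) .nil))))))) (.g (nat_lit 1) (.e (nat_lit 218568) (nat_lit 0) .nil) .nil))) 
(.lf (nat_lit 518944) (.g (nat_lit 2832) (.e (nat_lit 196672) (nat_lit 15) (.e (nat_lit 81955) (nat_lit 23) (.e (nat_lit 98350) (nat_lit 24) (.e (nat_lit 409616) (nat_lit 10) (.e (nat_lit 5710) (nat_lit 312) .nil))))) (.g (nat_lit 0) (.e (nat_lit 219686) (nat_lit 0) .nil) .nil))))) (.nd (nat_lit 8) (.nd (nat_lit 9) 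
(.lf (nat_lit 518304) (.g (nat_lit 3105) (.e (nat_lit 196668) (nat_lit 14) (.e (nat_lit 73753) (nat_lit 8) (.e (nat_lit 557103) (nat_lit 14) (.e (nat_lit 180250) (nat_lit 10) (.e (nat_lit 573473) (nat_lit 12) (.e (nat_lit 57507) (nat_lit 39) (.e (nat_lit 655104) (nat_lit 0) (.e (nat_lit 2656) (nat_lit 167) .nil)))))))) (.g (nat_lit 1) (.e (nat_lit 218339) (nat_lit 0) .nil) .nil))) 
(.lf (nat_lit 518816) (.g (nat_lit 1530) (.e (nat_lit 196672) (nat_lit 15) (.e (nat_lit 81927) (nat_lit 11) (.e (nat_lit 426497) (nat_lit 27) (.e (nat_lit 335988) (nat_lit 1) (.e (nat_lit 57928) (nat_lit 282) .nil))))) (.g (nat_lit 0) (.e (nat_lit 219383) (nat_lit 0) .nil) .nil)))) (.nd (nat_lit 9) 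
(.lf (nat_lit 518560) (.g (nat_lit 2035) (.e (nat_lit 196670) (nat_lit 14) (.e (nat_lit 73746) (nat_lit 3) (.e (nat_lit 516131) (nat_lit 3) (.e (nat_lit 221212) (nat_lit 22) (.e (nat_lit 196638) (nat_lit 9) .nil))))) (.g (nat_lit 0) (.e (nat_lit 219020) (nat_lit 0) .nil) .nil))) 
(.lf (nat_lit 519072) (.g (nat_lit 563) (.e (nat_lit 196674) (nat_lit 15) (.e (nat_lit 81956) (nat_lit 23) (.e (nat_lit 98320) (nat_lit 17) .nil))) (.g (nat_lit 0) (.e (nat_lit 219898) (nat_lit 0) .nil) .nil)))))) (.nd (nat_lit 7) (.nd (nat_lit 8) (.nd (nat_lit 9) 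
(.lf (nat_lit 518240) (.g (nat_lit 2692) (.e (nat_lit 196668) (nat_lit 14) (.e (nat_lit 73747) (nat_lit 3) (.e (nat_lit 516129) (nat_lit 3) (.e (nat_lit 221214) (nat_lit 23) (.e (nat_lit 204828) (nat_lit 18) (.e (nat_lit 57931) (nat_lit 282) (.e (nat_lit 163867) (nat_lit 2) .nil))))))) (.g (nat_lit 1) (.e (nat_lit 218141) (nat_lit 0) .nil) .nil))) 
(.lf (nat_lit 518752) (.g (nat_lit 2171) (.e (nat_lit 196670) (nat_lit 14) (.e (nat_lit 73754) (nat_lit 8) (.e (nat_lit 557105) (nat_lit 14) (.e (nat_lit 180252) (nat_lit 10) (.e (nat_lit 573475) (nat_lit 12) (.e (nat_lit 57508) (nat_lit 39) (.e (nat_lit 647168) (nat_lit 0) (.e (nat_lit 2665) (nat_lit 167) .nil)))))))) (.g (nat_lit 1) (.e (nat_lit 219281) (nat_lit 0) .nil) .nil)))) 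
(.nd (nat_lit 9) 
(.lf (nat_lit 518496) (.g (nat_lit 3881) (.e (nat_lit 196670) (nat_lit 14) (.e (nat_lit 73746) (nat_lit 3) (.e (nat_lit 516119) (nat_lit 1) (.e (nat_lit 164182) (nat_lit 154) (.e (nat_lit 57379) (nat_lit 3) (.e (nat_lit 98342) (nat_lit 20) (.e (nat_lit 221212) (nat_lit 22) .nil))))))) (.g (nat_lit 1) (.e (nat_lit 218861) (nat_lit 0) .nil) .nil))) 
(.lf (nat_lit 519008) (.g (nat_lit 2780) (.e (nat_lit 196674) (nat_lit 15) (.e (nat_lit 81922) (nat_lit 0) (.e (nat_lit 3253) (nat_lit 197) (.e (nat_lit 532515) (nat_lit 3) (.e (nat_lit 114698) (nat_lit 11) (.e (nat_lit 426124) (nat_lit 2) .nil)))))) (.g (nat_lit 1) (.e (nat_lit 219790) (nat_lit 0) .nil) .nil))))) (.nd (nat_lit 8) (.nd (nat_lit 9) 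
(.lf (nat_lit 518368) (.g (nat_lit 3042) (.e (nat_lit 196668) (nat_lit 14) (.e (nat_lit 73782) (nat_lit 32) (.e (nat_lit 2664) (nat_lit 167) (.e (nat_lit 196668) (nat_lit 14) (.e (nat_lit 73782) (nat_lit 32) (.e (nat_lit 2664) (nat_lit 167) .nil)))))) (.g (nat_lit 1) (.e (nat_lit 218423) (nat_lit 0) .nil) .nil))) 
(.lf (nat_lit 518880) (.g (nat_lit 1737) (.e (nat_lit 196672) (nat_lit 15) (.e (nat_lit 81954) (nat_lit 23) (.e (nat_lit 98325) (nat_lit 17) (.e (nat_lit 7095) (nat_lit 380) (.e (nat_lit 164356) (nat_lit 246) (.e (nat_lit 7936) (nat_lit 167) .nil)))))) (.g (nat_lit 1) (.e (nat_lit 219573) (nat_lit 0) .nil) .nil)))) (.nd (nat_lit 9) 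
(.lf (nat_lit 518624) (.g (nat_lit 2811) (.e (nat_lit 196670) (nat_lit 14) (.e (nat_lit 73753) (nat_lit 8) (.e (nat_lit 557105) (nat_lit 14) (.e (nat_lit 180251) (nat_lit 10) (.e (nat_lit 573477) (nat_lit 12) (.e (nat_lit 57511) (nat_lit 39) (.e (nat_lit 655104) (nat_lit 0) (.e (nat_lit 2667) (nat_lit 167) .nil)))))))) (.g (nat_lit 1) (.e (nat_lit 219130) (nat_lit 0) .nil) .nil))) 
(.lf (nat_lit 519136) (.g (nat_lit 3517) (.e (nat_lit 196681) (nat_lit 17) (.e (nat_lit 131109) (nat_lit 9) (.e (nat_lit 336019) (nat_lit 3) (.e (nat_lit 98349) (nat_lit 24) (.e (nat_lit 409644) (nat_lit 18) (.e (nat_lit 303117) (nat_lit 2) .nil)))))) (.g (nat_lit 1) (.e (nat_lit 220193) (nat_lit 0) .nil) .nil)))))))) 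
(.nd (nat_lit 5) (.nd (nat_lit 6) (.nd (nat_lit 7) (.nd (nat_lit 8) (.nd (nat_lit 9) 
(.lf (nat_lit 518160) (.g (nat_lit 1721) (.e (nat_lit 196668) (nat_lit 14) (.e (nat_lit 73746) (nat_lit 3) (.e (nat_lit 516120) (nat_lit 1) (.e (nat_lit 164180) (nat_lit 154) .nil)))) (.g (nat_lit 0) (.e (nat_lit 217458) (nat_lit 0) .nil) .nil))) 
(.lf (nat_lit 518672) (.g (nat_lit 3823) (.e (nat_lit 196670) (nat_lit 14) (.e (nat_lit 73753) (nat_lit 8) (.e (nat_lit 557105) (nat_lit 14) (.e (nat_lit 180252) (nat_lit 10) (.e (nat_lit 573475) (nat_lit 12) (.e (nat_lit 57506) (nat_lit 39) (.e (nat_lit 655104) (nat_lit 0) (.e (nat_lit 2667) (nat_lit 167) .nil)))))))) (.g (nat_lit 1) (.e (nat_lit 219179) (nat_lit 0) .nil) .nil)))) 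
(.nd (nat_lit 9) 
(.lf (nat_lit 518416) (.g (nat_lit 2427) (.e (nat_lit 196669) (nat_lit 14) (.e (nat_lit 73754) (nat_lit 8) (.e (nat_lit 557105) (nat_lit 14) (.e (nat_lit 180252) (nat_lit 10) (.e (nat_lit 573473) (nat_lit 12) (.e (nat_lit 57511) (nat_lit 39) (.e (nat_lit 655104) (nat_lit 0) (.e (nat_lit 2667) (nat_lit 167) .nil)))))))) (.g (nat_lit 1) (.e (nat_lit 218534) (nat_lit 0) .nil) .nil))) 
(.lf (nat_lit 518928) (.g (nat_lit 611) (.e (nat_lit 196672) (nat_lit 15) (.e (nat_lit 81954) (nat_lit 23) (.e (nat_lit 98352) (nat_lit 25) (.e (nat_lit 425728) (nat_lit 18) .nil)))) (.g (nat_lit 0) (.e (nat_lit 219633) (nat_lit 0) .nil) .nil))))) (.nd (nat_lit 8) (.nd (nat_lit 9) 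
(.lf (nat_lit 518288) (.g (nat_lit 4371) (.e (nat_lit 196668) (nat_lit 14) (.e (nat_lit 73747) (nat_lit 3) (.e (nat_lit 516131) (nat_lit 3) (.e (nat_lit 221215) (nat_lit 23) (.e (nat_lit 204830) (nat_lit 18) (.e (nat_lit 57929) (nat_lit 282) (.e (nat_lit 163869) (nat_lit 2) .nil))))))) (.g (nat_lit 1) (.e (nat_lit 218231) (nat_lit 0) .nil) .nil))) 
(.lf (nat_lit 518800) (.g (nat_lit 3977) (.e (nat_lit 196672) (nat_lit 15) (.e (nat_lit 81924) (nat_lit 0) (.e (nat_lit 3305) (nat_lit 202) (.e (nat_lit 573484) (nat_lit 13) (.e (nat_lit 65630) (nat_lit 14) (.e (nat_lit 401425) (nat_lit 2) .nil)))))) (.g (nat_lit 1) (.e (nat_lit 219357) (nat_lit 0) .nil) .nil)))) (.nd (nat_lit 9) 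
(.lf (nat_lit 518544) (.g (nat_lit 2465) (.e (nat_lit 196670) (nat_lit 14) (.e (nat_lit 73746) (nat_lit 3) (.e (nat_lit 516129) (nat_lit 3) (.e (nat_lit 221215) (nat_lit 23) (.e (nat_lit 204828) (nat_lit 18) (.e (nat_lit 57927) (nat_lit 282) (.e (nat_lit 163871) (nat_lit 2) .nil))))))) (.g (nat_lit 1) (.e (nat_lit 219002) (nat_lit 0) .nil) .nil))) 
(.lf (nat_lit 519056) (.g (nat_lit 2177) (.e (nat_lit 196674) (nat_lit 15) (.e (nat_lit 81954) (nat_lit 23) (.e (nat_lit 98350) (nat_lit 24) (.e (nat_lit 409648) (nat_lit 18) (.e (nat_lit 303116) (nat_lit 2) .nil))))) (.g (nat_lit 0) (.e (nat_lit 219880) (nat_lit 0) .nil) .nil)))))) (.nd (nat_lit 7) (.nd (nat_lit 8) (.nd (nat_lit 9) 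
(.lf (nat_lit 518224) (.g (nat_lit 1204) (.e (nat_lit 196668) (nat_lit 14) (.e (nat_lit 73747) (nat_lit 3) (.e (nat_lit 516120) (nat_lit 1) (.e (nat_lit 164182) (nat_lit 154) .nil)))) (.g (nat_lit 0) (.e (nat_lit 218032) (nat_lit 0) .nil) .nil))) 
(.lf (nat_lit 518736) (.g (nat_lit 2980) (.e (nat_lit 196670) (nat_lit 14) (.e (nat_lit 73754) (nat_lit 8) (.e (nat_lit 557105) (nat_lit 14) (.e (nat_lit 180252) (nat_lit 10) (.e (nat_lit 573474) (nat_lit 12) (.e (nat_lit 57508) (nat_lit 39) (.e (nat_lit 647175) (nat_lit 0) (.e (nat_lit 2665) (nat_lit 167) .nil)))))))) (.g (nat_lit 1) (.e (nat_lit 219265) (nat_lit 0) .nil) .nil)))) 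
(.nd (nat_lit 9) 
(.lf (nat_lit 518480) (.g (nat_lit 3729) (.e (nat_lit 196670) (nat_lit 14) (.e (nat_lit 73746) (nat_lit 3) (.e (nat_lit 516117) (nat_lit 1) (.e (nat_lit 164182) (nat_lit 154) (.e (nat_lit 57379) (nat_lit 3) (.e (nat_lit 98340) (nat_lit 20) (.e (nat_lit 221210) (nat_lit 22) .nil))))))) (.g (nat_lit 1) (.e (nat_lit 218763) (nat_lit 0) .nil) .nil))) 
(.lf (nat_lit 518992) (.g (nat_lit 1389) (.e (nat_lit 196673) (nat_lit 15) (.e (nat_lit 81956) (nat_lit 23) (.e (nat_lit 98329) (nat_lit 17) (.e (nat_lit 7936) (nat_lit 377) .nil)))) (.g (nat_lit 0) (.e (nat_lit 219767) (nat_lit 0) .nil) .nil))))) (.nd (nat_lit 8) (.nd (nat_lit 9) 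
(.lf (nat_lit 518352) (.g (nat_lit 3225) (.e (nat_lit 196668) (nat_lit 14) (.e (nat_lit 73753) (nat_lit 8) (.e (nat_lit 557105) (nat_lit 14) (.e (nat_lit 180252) (nat_lit 10) (.e (nat_lit 573475) (nat_lit 12) (.e (nat_lit 57508) (nat_lit 39) (.e (nat_lit 655104) (nat_lit 0) (.e (nat_lit 2667) (nat_lit 167) .nil)))))))) (.g (nat_lit 1) (.e (nat_lit 218391) (nat_lit 0) .nil) .nil))) 
(.lf (nat_lit 518864) (.g (nat_lit 1800) (.e (nat_lit 196672) (nat_lit 15) (.e (nat_lit 81954) (nat_lit 23) (.e (nat_lit 98323) (nat_lit 17) (.e (nat_lit 6989) (nat_lit 377) (.e (nat_lit 2810) (nat_lit 180) (.e (nat_lit 311040) (nat_lit 2) .nil)))))) (.g (nat_lit 1) (.e (nat_lit 219548) (nat_lit 0) .nil) .nil)))) (.nd (nat_lit 9) 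
(.lf (nat_lit 518608) (.g (nat_lit 2310) (.e (nat_lit 196670) (nat_lit 14) (.e (nat_lit 73753) (nat_lit 8) (.e (nat_lit 557103) (nat_lit 14) (.e (nat_lit 180250) (nat_lit 10) (.e (nat_lit 573473) (nat_lit 12) (.e (nat_lit 57511) (nat_lit 39) (.e (nat_lit 647171) (nat_lit 0) (.e (nat_lit 2665) (nat_lit 167) .nil)))))))) (.g (nat_lit 1) (.e (nat_lit 219111) (nat_lit 0) .nil) .nil))) 
(.lf (nat_lit 519120) (.g (nat_lit 3115) (.e (nat_lit 196681) (nat_lit 17) (.e (nat_lit 131105) (nat_lit 9) (.e (nat_lit 336324) (nat_lit 18) (.e (nat_lit 204837) (nat_lit 20) (.e (nat_lit 114698) (nat_lit 11) (.e (nat_lit 426121) (nat_lit 2) .nil)))))) (.g (nat_lit 1) (.e (nat_lit 220115) (nat_lit 0) .nil) .nil))))))) (.nd (nat_lit 6) (.nd (nat_lit 7) (.nd (nat_lit 8) (.nd (nat_lit 9) 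
(.lf (nat_lit 518192) (.g (nat_lit 1139) (.e (nat_lit 196668) (nat_lit 14) (.e (nat_lit 73747) (nat_lit 3) (.e (nat_lit 516115) (nat_lit 1) (.e (nat_lit 164182) (nat_lit 154) .nil)))) (.g (nat_lit 0) (.e (nat_lit 217690) (nat_lit 0) .nil) .nil))) 
(.lf (nat_lit 518704) (.g (nat_lit 2908) (.e (nat_lit 196670) (nat_lit 14) (.e (nat_lit 73754) (nat_lit 8) (.e (nat_lit 557105) (nat_lit 14) (.e (nat_lit 180252) (nat_lit 10) (.e (nat_lit 573473) (nat_lit 12) (.e (nat_lit 57507) (nat_lit 39) (.e (nat_lit 647170) (nat_lit 0) (.e (nat_lit 2662) (nat_lit 167) .nil)))))))) (.g (nat_lit 1) (.e (nat_lit 219233) (nat_lit 0) .nil) .nil)))) 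
(.nd (nat_lit 9) 
(.lf (nat_lit 518448) (.g (nat_lit 3135) (.e (nat_lit 196669) (nat_lit 14) (.e (nat_lit 73755) (nat_lit 8) (.e (nat_lit 557105) (nat_lit 14) (.e (nat_lit 180252) (nat_lit 10) (.e (nat_lit 573474) (nat_lit 12) (.e (nat_lit 57508) (nat_lit 39) (.e (nat_lit 647170) (nat_lit 0) (.e (nat_lit 2662) (nat_lit 167) .nil)))))))) (.g (nat_lit 1) (.e (nat_lit 218585) (nat_lit 0) .nil) .nil))) 
(.lf (nat_lit 518960) (.g (nat_lit 1695) (.e (nat_lit 196672) (nat_lit 15) (.e (nat_lit 81956) (nat_lit 23) (.e (nat_lit 98349) (nat_lit 24) (.e (nat_lit 409643) (nat_lit 18) .nil)))) (.g (nat_lit 0) (.e (nat_lit 219704) (nat_lit 0) .nil) .nil))))) (.nd (nat_lit 8) (.nd (nat_lit 9) 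
(.lf (nat_lit 518320) (.g (nat_lit 3447) (.e (nat_lit 196668) (nat_lit 14) (.e (nat_lit 73753) (nat_lit 8) (.e (nat_lit 557103) (nat_lit 14) (.e (nat_lit 180250) (nat_lit 10) (.e (nat_lit 573478) (nat_lit 12) (.e (nat_lit 57511) (nat_lit 39) (.e (nat_lit 655104) (nat_lit 0) (.e (nat_lit 2667) (nat_lit 167) .nil)))))))) (.g (nat_lit 1) (.e (nat_lit 218355) (nat_lit 0) .nil) .nil))) 
(.lf (nat_lit 518832) (.g (nat_lit 2421) (.e (nat_lit 196672) (nat_lit 15) (.e (nat_lit 81943) (nat_lit 20) (.e (nat_lit 1842) (nat_lit 123) (.e (nat_lit 548890) (nat_lit 10) (.e (nat_lit 73781) (nat_lit 32) (.e (nat_lit 2664) (nat_lit 167) .nil)))))) (.g (nat_lit 1) (.e (nat_lit 219445) (nat_lit 0) .nil) .nil)))) (.nd (nat_lit 9) 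
(.lf (nat_lit 518576) (.g (nat_lit 4867) (.e (nat_lit 196670) (nat_lit 14) (.e (nat_lit 73746) (nat_lit 3) (.e (nat_lit 516131) (nat_lit 3) (.e (nat_lit 221214) (nat_lit 23) (.e (nat_lit 204831) (nat_lit 18) (.e (nat_lit 57931) (nat_lit 282) (.e (nat_lit 163869) (nat_lit 2) .nil))))))) (.g (nat_lit 1) (.e (nat_lit 219039) (nat_lit 0) .nil) .nil))) 
(.lf (nat_lit 519088) (.g (nat_lit 3827) (.e (nat_lit 196681) (nat_lit 17) (.e (nat_lit 131096) (nat_lit 3) (.e (nat_lit 98333) (nat_lit 18) (.e (nat_lit 164179) (nat_lit 154) (.e (nat_lit 57378) (nat_lit 3) (.e (nat_lit 98341) (nat_lit 20) (.e (nat_lit 221212) (nat_lit 22) .nil))))))) (.g (nat_lit 1) (.e (nat_lit 220051) (nat_lit 0) .nil) .nil)))))) 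
(.nd (nat_lit 7) (.nd (nat_lit 8) (.nd (nat_lit 9) 
(.lf (nat_lit 518256) (.g (nat_lit 2966) (.e (nat_lit 196668) (nat_lit 14) (.e (nat_lit 73747) (nat_lit 3) (.e (nat_lit 516129) (nat_lit 3) (.e (nat_lit 221215) (nat_lit 23) (.e (nat_lit 204828) (nat_lit 18) (.e (nat_lit 57930) (nat_lit 282) (.e (nat_lit 163867) (nat_lit 2) .nil))))))) (.g (nat_lit 1) (.e (nat_lit 218163) (nat_lit 0) .nil) .nil))) 
(.lf (nat_lit 518768) (.g (nat_lit 3015) (.e (nat_lit 196670) (nat_lit 14) (.e (nat_lit 73754) (nat_lit 8) (.e (nat_lit 557105) (nat_lit 14) (.e (nat_lit 180252) (nat_lit 10) (.e (nat_lit 581376) (nat_lit 19) (.e (nat_lit 57879) (nat_lit 270) (.e (nat_lit 162) (nat_lit 11) .nil))))))) (.g (nat_lit 1) (.e (nat_lit 219297) (nat_lit 0) .nil) .nil)))) (.nd (nat_lit 9) 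
(.lf (nat_lit 518512) (.g (nat_lit 386) (.e (nat_lit 196670) (nat_lit 14) (.e (nat_lit 73746) (nat_lit 3) (.e (nat_lit 516129) (nat_lit 3) .nil))) (.g (nat_lit 0) (.e (nat_lit 218960) (nat_lit 0) .nil) .nil))) 
(.lf (nat_lit 519024) (.g (nat_lit 3855) (.e (nat_lit 196674) (nat_lit 15) (.e (nat_lit 81925) (nat_lit 11) (.e (nat_lit 426500) (nat_lit 27) (.e (nat_lit 335986) (nat_lit 1) (.e (nat_lit 57931) (nat_lit 282) (.e (nat_lit 163869) (nat_lit 2) .nil)))))) (.g (nat_lit 1) (.e (nat_lit 219813) (nat_lit 0) .nil) .nil))))) (.nd (nat_lit 8) (.nd (nat_lit 9) 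
(.lf (nat_lit 518384) (.g (nat_lit 1584) (.e (nat_lit 196669) (nat_lit 14) (.e (nat_lit 73746) (nat_lit 3) (.e (nat_lit 516120) (nat_lit 1) (.e (nat_lit 164183) (nat_lit 154) .nil)))) (.g (nat_lit 0) (.e (nat_lit 218496) (nat_lit 0) .nil) .nil))) 
(.lf (nat_lit 518896) (.g (nat_lit 2104) (.e (nat_lit 196672) (nat_lit 15) (.e (nat_lit 81954) (nat_lit 23) (.e (nat_lit 98349) (nat_lit 24) (.e (nat_lit 409645) (nat_lit 18) (.e (nat_lit 311040) (nat_lit 2) .nil))))) (.g (nat_lit 0) (.e (nat_lit 219596) (nat_lit 0) .nil) .nil)))) (.nd (nat_lit 9) 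
(.lf (nat_lit 518640) (.g (nat_lit 2446) (.e (nat_lit 196670) (nat_lit 14) (.e (nat_lit 73753) (nat_lit 8) (.e (nat_lit 557105) (nat_lit 14) (.e (nat_lit 180252) (nat_lit 10) (.e (nat_lit 573473) (nat_lit 12) (.e (nat_lit 57508) (nat_lit 39) (.e (nat_lit 655104) (nat_lit 0) (.e (nat_lit 2656) (nat_lit 167) .nil)))))))) (.g (nat_lit 1) (.e (nat_lit 219147) (nat_lit 0) .nil) .nil))) 
(.lf (nat_lit 519152) (.g (nat_lit 1134) (.e (nat_lit 196681) (nat_lit 17) (.e (nat_lit 131109) (nat_lit 9) (.e (nat_lit 336324) (nat_lit 18) (.e (nat_lit 204821) (nat_lit 17) .nil)))) (.g (nat_lit 0) (.e (nat_lit 220240) (nat_lit 0) .nil) .nil))))))))) (.nd (nat_lit 4) (.nd (nat_lit 5) (.nd (nat_lit 6) (.nd (nat_lit 7) (.nd (nat_lit 8) (.nd (nat_lit 9) 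
(.lf (nat_lit 518152) (.g (nat_lit 1641) (.e (nat_lit 196668) (nat_lit 14) (.e (nat_lit 73746) (nat_lit 3) (.e (nat_lit 516119) (nat_lit 1) (.e (nat_lit 164183) (nat_lit 154) .nil)))) (.g (nat_lit 0) (.e (nat_lit 217450) (nat_lit 0) .nil) .nil))) 
(.lf (nat_lit 518664) (.g (nat_lit 3182) (.e (nat_lit 196670) (nat_lit 14) (.e (nat_lit 73753) (nat_lit 8) (.e (nat_lit 557105) (nat_lit 14) (.e (nat_lit 180252) (nat_lit 10) (.e (nat_lit 573474) (nat_lit 12) (.e (nat_lit 57508) (nat_lit 39) (.e (nat_lit 655104) (nat_lit 0) (.e (nat_lit 2657) (nat_lit 167) .nil)))))))) (.g (nat_lit 1) (.e (nat_lit 219171) (nat_lit 0) .nil) .nil)))) 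
(.nd (nat_lit 9) 
(.lf (nat_lit 518408) (.g (nat_lit 1448) (.e (nat_lit 196669) (nat_lit 14) (.e (nat_lit 73747) (nat_lit 3) (.e (nat_lit 516120) (nat_lit 1) (.e (nat_lit 164183) (nat_lit 154) .nil)))) (.g (nat_lit 0) (.e (nat_lit 218520) (nat_lit 0) .nil) .nil))) 
(.lf (nat_lit 518920) (.g (nat_lit 1724) (.e (nat_lit 196672) (nat_lit 15) (.e (nat_lit 81954) (nat_lit 23) (.e (nat_lit 98350) (nat_lit 24) (.e (nat_lit 409618) (nat_lit 10) (.e (nat_lit 5718) (nat_lit 312) .nil))))) (.g (nat_lit 0) (.e (nat_lit 219622) (nat_lit 0) .nil) .nil))))) (.nd (nat_lit 8) (.nd (nat_lit 9) 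
(.lf (nat_lit 518280) (.g (nat_lit 3144) (.e (nat_lit 196668) (nat_lit 14) (.e (nat_lit 73747) (nat_lit 3) (.e (nat_lit 516131) (nat_lit 3) (.e (nat_lit 221214) (nat_lit 23) (.e (nat_lit 204831) (nat_lit 18) (.e (nat_lit 57931) (nat_lit 282) (.e (nat_lit 163866) (nat_lit 2) .nil))))))) (.g (nat_lit 1) (.e (nat_lit 218201) (nat_lit 0) .nil) .nil))) 
(.lf (nat_lit 518792) (.g (nat_lit 1755) (.e (nat_lit 196671) (nat_lit 15) (.e (nat_lit 81956) (nat_lit 23) (.e (nat_lit 98353) (nat_lit 25) (.e (nat_lit 417830) (nat_lit 19) .nil)))) (.g (nat_lit 0) (.e (nat_lit 219343) (nat_lit 0) .nil) .nil)))) (.nd (nat_lit 9) 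
(.lf (nat_lit 518536) (.g (nat_lit 3788) (.e (nat_lit 196670) (nat_lit 14) (.e (nat_lit 73746) (nat_lit 3) (.e (nat_lit 516129) (nat_lit 3) (.e (nat_lit 221214) (nat_lit 23) (.e (nat_lit 204830) (nat_lit 18) (.e (nat_lit 57929) (nat_lit 282) (.e (nat_lit 163867) (nat_lit 2) .nil))))))) (.g (nat_lit 1) (.e (nat_lit 218994) (nat_lit 0) .nil) .nil))) 
(.lf (nat_lit 519048) (.g (nat_lit 1110) (.e (nat_lit 196674) (nat_lit 15) (.e (nat_lit 81946) (nat_lit 20) (.e (nat_lit 1858) (nat_lit 124) (.e (nat_lit 557094) (nat_lit 12) .nil)))) (.g (nat_lit 0) (.e (nat_lit 219861) (nat_lit 0) .nil) .nil)))))) (.nd (nat_lit 7) (.nd (nat_lit 8) (.nd (nat_lit 9) 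
(.lf (nat_lit 518216) (.g (nat_lit 4387) (.e (nat_lit 196668) (nat_lit 14) (.e (nat_lit 73747) (nat_lit 3) (.e (nat_lit 516119) (nat_lit 1) (.e (nat_lit 164179) (nat_lit 154) (.e (nat_lit 57378) (nat_lit 3) (.e (nat_lit 98341) (nat_lit 20) (.e (nat_lit 221212) (nat_lit 22) .nil))))))) (.g (nat_lit 1) (.e (nat_lit 218011) (nat_lit 0) .nil) .nil))) 
(.lf (nat_lit 518728) (.g (nat_lit 3649) (.e (nat_lit 196670) (nat_lit 14) (.e (nat_lit 73754) (nat_lit 8) (.e (nat_lit 557105) (nat_lit 14) (.e (nat_lit 180252) (nat_lit 10) (.e (nat_lit 573474) (nat_lit 12) (.e (nat_lit 57506) (nat_lit 39) (.e (nat_lit 647175) (nat_lit 0) (.e (nat_lit 2667) (nat_lit 167) .nil)))))))) (.g (nat_lit 1) (.e (nat_lit 219257) (nat_lit 0) .nil) .nil)))) 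
(.nd (nat_lit 9) 
(.lf (nat_lit 518472) (.g (nat_lit 1954) (.e (nat_lit 196670) (nat_lit 14) (.e (nat_lit 73746) (nat_lit 3) (.e (nat_lit 516115) (nat_lit 1) (.e (nat_lit 164183) (nat_lit 154) (.e (nat_lit 57376) (nat_lit 3) .nil))))) (.g (nat_lit 0) (.e (nat_lit 218726) (nat_lit 0) .nil) .nil))) 
(.lf (nat_lit 518984) (.g (nat_lit 584) (.e (nat_lit 196673) (nat_lit 15) (.e (nat_lit 81954) (nat_lit 23) (.e (nat_lit 98325) (nat_lit 17) .nil))) (.g (nat_lit 0) (.e (nat_lit 219759) (nat_lit 0) .nil) .nil))))) (.nd (nat_lit 8) (.nd (nat_lit 9) 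
(.lf (nat_lit 518344) (.g (nat_lit 3347) (.e (nat_lit 196668) (nat_lit 14) (.e (nat_lit 73753) (nat_lit 8) (.e (nat_lit 557105) (nat_lit 14) (.e (nat_lit 180252) (nat_lit 10) (.e (nat_lit 573474) (nat_lit 12) (.e (nat_lit 57507) (nat_lit 39) (.e (nat_lit 655104) (nat_lit 0) (.e (nat_lit 2657) (nat_lit 167) .nil)))))))) (.g (nat_lit 1) (.e (nat_lit 218383) (nat_lit 0) .nil) .nil))) 
(.lf (nat_lit 518856) (.g (nat_lit 313) (.e (nat_lit 196672) (nat_lit 15) (.e (nat_lit 81954) (nat_lit 23) (.e (nat_lit 98320) (nat_lit 17) .nil))) (.g (nat_lit 0) (.e (nat_lit 219535) (nat_lit 0) .nil) .nil)))) (.nd (nat_lit 9) 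
(.lf (nat_lit 518600) (.g (nat_lit 1769) (.e (nat_lit 196670) (nat_lit 14) (.e (nat_lit 73753) (nat_lit 8) (.e (nat_lit 557103) (nat_lit 14) (.e (nat_lit 180242) (nat_lit 5) .nil)))) (.g (nat_lit 0) (.e (nat_lit 219098) (nat_lit 0) .nil) .nil))) 
(.lf (nat_lit 519112) (.g (nat_lit 2239) (.e (nat_lit 196681) (nat_lit 17) (.e (nat_lit 131105) (nat_lit 9) (.e (nat_lit 336019) (nat_lit 3) (.e (nat_lit 98350) (nat_lit 24) (.e (nat_lit 409623) (nat_lit 10) (.e (nat_lit 5664) (nat_lit 312) (.e (nat_lit 2661) (nat_lit 167) .nil))))))) (.g (nat_lit 1) (.e (nat_lit 220100) (nat_lit 0) .nil) .nil))))))) 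
(.nd (nat_lit 6) (.nd (nat_lit 7) (.nd (nat_lit 8) (.nd (nat_lit 9) 
(.lf (nat_lit 518184) (.g (nat_lit 1205) (.e (nat_lit 196668) (nat_lit 14) (.e (nat_lit 73747) (nat_lit 3) (.e (nat_lit 516115) (nat_lit 1) (.e (nat_lit 164177) (nat_lit 154) .nil)))) (.g (nat_lit 0) (.e (nat_lit 217571) (nat_lit 0) .nil) .nil))) 
(.lf (nat_lit 518696) (.g (nat_lit 2522) (.e (nat_lit 196670) (nat_lit 14) (.e (nat_lit 73754) (nat_lit 8) (.e (nat_lit 557105) (nat_lit 14) (.e (nat_lit 180252) (nat_lit 10) (.e (nat_lit 573449) (nat_lit 9) .nil))))) (.g (nat_lit 0) (.e (nat_lit 219224) (nat_lit 0) .nil) .nil)))) (.nd (nat_lit 9) 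
(.lf (nat_lit 518440) (.g (nat_lit 2354) (.e (nat_lit 196669) (nat_lit 14) (.e (nat_lit 73755) (nat_lit 8) (.e (nat_lit 557105) (nat_lit 14) (.e (nat_lit 180252) (nat_lit 10) (.e (nat_lit 573451) (nat_lit 9) .nil))))) (.g (nat_lit 0) (.e (nat_lit 218576) (nat_lit 0) .nil) .nil))) 
(.lf (nat_lit 518952) (.g (nat_lit 1375) (.e (nat_lit 196672) (nat_lit 15) (.e (nat_lit 81956) (nat_lit 23) (.e (nat_lit 98319) (nat_lit 17) (.e (nat_lit 7073) (nat_lit 377) .nil)))) (.g (nat_lit 0) (.e (nat_lit 219695) (nat_lit 0) .nil) .nil))))) (.nd (nat_lit 8) (.nd (nat_lit 9) 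
(.lf (nat_lit 518312) (.g (nat_lit 4134) (.e (nat_lit 196668) (nat_lit 14) (.e (nat_lit 73753) (nat_lit 8) (.e (nat_lit 557103) (nat_lit 14) (.e (nat_lit 180250) (nat_lit 10) (.e (nat_lit 573474) (nat_lit 12) (.e (nat_lit 57507) (nat_lit 39) (.e (nat_lit 655104) (nat_lit 0) (.e (nat_lit 2657) (nat_lit 167) .nil)))))))) (.g (nat_lit 1) (.e (nat_lit 218347) (nat_lit 0) .nil) .nil))) 
(.lf (nat_lit 518824) (.g (nat_lit 2510) (.e (nat_lit 196672) (nat_lit 15) (.e (nat_lit 81927) (nat_lit 11) (.e (nat_lit 426500) (nat_lit 27) (.e (nat_lit 335995) (nat_lit 1) (.e (nat_lit 57929) (nat_lit 282) (.e (nat_lit 163867) (nat_lit 2) .nil)))))) (.g (nat_lit 1) (.e (nat_lit 219391) (nat_lit 0) .nil) .nil)))) (.nd (nat_lit 9) 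
(.lf (nat_lit 518568) (.g (nat_lit 2908) (.e (nat_lit 196670) (nat_lit 14) (.e (nat_lit 73746) (nat_lit 3) (.e (nat_lit 516131) (nat_lit 3) (.e (nat_lit 221213) (nat_lit 23) (.e (nat_lit 204830) (nat_lit 18) (.e (nat_lit 57925) (nat_lit 282) (.e (nat_lit 163867) (nat_lit 2) .nil))))))) (.g (nat_lit 1) (.e (nat_lit 219031) (nat_lit 0) .nil) .nil))) 
(.lf (nat_lit 519080) (.g (nat_lit 3308) (.e (nat_lit 196674) (nat_lit 15) (.e (nat_lit 81956) (nat_lit 23) (.e (nat_lit 98350) (nat_lit 24) (.e (nat_lit 409651) (nat_lit 19) .nil)))) (.g (nat_lit 0) (.e (nat_lit 219906) (nat_lit 0) .nil) .nil)))))) (.nd (nat_lit 7) (.nd (nat_lit 8) (.nd (nat_lit 9) 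
(.lf (nat_lit 518248) (.g (nat_lit 4012) (.e (nat_lit 196668) (nat_lit 14) (.e (nat_lit 73747) (nat_lit 3) (.e (nat_lit 516129) (nat_lit 3) (.e (nat_lit 221214) (nat_lit 23) (.e (nat_lit 204830) (nat_lit 18) (.e (nat_lit 57930) (nat_lit 282) (.e (nat_lit 163867) (nat_lit 2) .nil))))))) (.g (nat_lit 1) (.e (nat_lit 218149) (nat_lit 0) .nil) .nil))) 
(.lf (nat_lit 518760) (.g (nat_lit 2787) (.e (nat_lit 196670) (nat_lit 14) (.e (nat_lit 73754) (nat_lit 8) (.e (nat_lit 557105) (nat_lit 14) (.e (nat_lit 180252) (nat_lit 10) (.e (nat_lit 573475) (nat_lit 12) (.e (nat_lit 57509) (nat_lit 39) (.e (nat_lit 655104) (nat_lit 0) (.e (nat_lit 2657) (nat_lit 167) .nil)))))))) (.g (nat_lit 1) (.e (nat_lit 219289) (nat_lit 0) .nil) .nil)))) 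
(.nd (nat_lit 9) 
(.lf (nat_lit 518504) (.g (nat_lit 1254) (.e (nat_lit 196670) (nat_lit 14) (.e (nat_lit 73746) (nat_lit 3) (.e (nat_lit 516120) (nat_lit 1) (.e (nat_lit 164182) (nat_lit 154) .nil)))) (.g (nat_lit 0) (.e (nat_lit 218876) (nat_lit 0) .nil) .nil))) 
(.lf (nat_lit 519016) (.g (nat_lit 2227) (.e (nat_lit 196674) (nat_lit 15) (.e (nat_lit 81922) (nat_lit 0) (.e (nat_lit 3305) (nat_lit 202) (.e (nat_lit 573489) (nat_lit 14) (.e (nat_lit 81664) (nat_lit 32) (.e (nat_lit 2663) (nat_lit 167) .nil)))))) (.g (nat_lit 1) (.e (nat_lit 219802) (nat_lit 0) .nil) .nil))))) (.nd (nat_lit 8) (.nd (nat_lit 9) 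
(.lf (nat_lit 518376) (.g (nat_lit 147) (.e (nat_lit 196668) (nat_lit 14) (.e (nat_lit 73789) (nat_lit 45) (.e (nat_lit 1140) (nat_lit 84) .nil))) (.g (nat_lit 0) (.e (nat_lit 218462) (nat_lit 0) .nil) .nil))) 
(.lf (nat_lit 518888) (.g (nat_lit 458) (.e (nat_lit 196672) (nat_lit 15) (.e (nat_lit 81954) (nat_lit 23) (.e (nat_lit 98344) (nat_lit 21) .nil))) (.g (nat_lit 0) (.e (nat_lit 219587) (nat_lit 0) .nil) .nil)))) (.nd (nat_lit 9) 
(.lf (nat_lit 518632) (.g (nat_lit 2319) (.e (nat_lit 196670) (nat_lit 14) (.e (nat_lit 73753) (nat_lit 8) (.e (nat_lit 557105) (nat_lit 14) (.e (nat_lit 180252) (nat_lit 10) (.e (nat_lit 573473) (nat_lit 12) (.e (nat_lit 57507) (nat_lit 39) (.e (nat_lit 647176) (nat_lit 0) (.e (nat_lit 2665) (nat_lit 167) .nil)))))))) (.g (nat_lit 1) (.e (nat_lit 219139) (nat_lit 0) .nil) .nil))) 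
(.lf (nat_lit 519144) (.g (nat_lit 3913) (.e (nat_lit 196681) (nat_lit 17) (.e (nat_lit 131109) (nat_lit 9) (.e (nat_lit 336019) (nat_lit 3) (.e (nat_lit 98350) (nat_lit 24) (.e (nat_lit 409649) (nat_lit 18) (.e (nat_lit 303116) (nat_lit 2) .nil)))))) (.g (nat_lit 1) (.e (nat_lit 220207) (nat_lit 0) .nil) .nil)))))))) 
(.nd (nat_lit 5) (.nd (nat_lit 6) (.nd (nat_lit 7) (.nd (nat_lit 8) (.nd (nat_lit 9) 
(.lf (nat_lit 518168) (.g (nat_lit 3823) (.e (nat_lit 196668) (nat_lit 14) (.e (nat_lit 73746) (nat_lit 3) (.e (nat_lit 516129) (nat_lit 3) (.e (nat_lit 221214) (nat_lit 23) (.e (nat_lit 204830) (nat_lit 18) (.e (nat_lit 57924) (nat_lit 282) (.e (nat_lit 163867) (nat_lit 2) .nil))))))) (.g (nat_lit 1) (.e (nat_lit 217531) (nat_lit 0) .nil) .nil))) 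
(.lf (nat_lit 518680) (.g (nat_lit 3780) (.e (nat_lit 196670) (nat_lit 14) (.e (nat_lit 73753) (nat_lit 8) (.e (nat_lit 557105) (nat_lit 14) (.e (nat_lit 180252) (nat_lit 10) (.e (nat_lit 573503) (nat_lit 18) (.e (nat_lit 1015) (nat_lit 81) (.e (nat_lit 5260) (nat_lit 298) (.e (nat_lit 162) (nat_lit 11) .nil)))))))) (.g (nat_lit 1) (.e (nat_lit 219187) (nat_lit 0) .nil) .nil)))) (.nd (nat_lit 9) 
(.lf (nat_lit 518424) (.g (nat_lit 1727) (.e (nat_lit 196669) (nat_lit 14) (.e (nat_lit 73755) (nat_lit 8) (.e (nat_lit 557098) (nat_lit 13) (.e (nat_lit 179968) (nat_lit 22) .nil)))) (.g (nat_lit 0) (.e (nat_lit 218559) (nat_lit 0) .nil) .nil))) 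
(.lf (nat_lit 518936) (.g (nat_lit 1045) (.e (nat_lit 196672) (nat_lit 15) (.e (nat_lit 81954) (nat_lit 23) (.e (nat_lit 98356) (nat_lit 26) (.e (nat_lit 433920) (nat_lit 1) .nil)))) (.g (nat_lit 0) (.e (nat_lit 219645) (nat_lit 0) .nil) .nil))))) (.nd (nat_lit 8) (.nd (nat_lit 9) 
(.lf (nat_lit 518296) (.g (nat_lit 4267) (.e (nat_lit 196668) (nat_lit 14) (.e (nat_lit 73753) (nat_lit 8) (.e (nat_lit 557103) (nat_lit 14) (.e (nat_lit 180243) (nat_lit 5) (.e (nat_lit 532504) (nat_lit 1) (.e (nat_lit 65280) (nat_lit 168) (.e (nat_lit 163869) (nat_lit 2) .nil))))))) (.g (nat_lit 1) (.e (nat_lit 218327) (nat_lit 0) .nil) .nil))) 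
(.lf (nat_lit 518808) (.g (nat_lit 1837) (.e (nat_lit 196672) (nat_lit 15) (.e (nat_lit 81925) (nat_lit 11) (.e (nat_lit 426500) (nat_lit 27) (.e (nat_lit 335988) (nat_lit 1) (.e (nat_lit 57924) (nat_lit 282) (.e (nat_lit 163867) (nat_lit 2) .nil)))))) (.g (nat_lit 1) (.e (nat_lit 219369) (nat_lit 0) .nil) .nil)))) (.nd (nat_lit 9) 
(.lf (nat_lit 518552) (.g (nat_lit 2829) (.e (nat_lit 196670) (nat_lit 14) (.e (nat_lit 73746) (nat_lit 3) (.e (nat_lit 516129) (nat_lit 3) (.e (nat_lit 221215) (nat_lit 23) (.e (nat_lit 204830) (nat_lit 18) (.e (nat_lit 57927) (nat_lit 282) (.e (nat_lit 163870) (nat_lit 2) .nil))))))) (.g (nat_lit 1) (.e (nat_lit 219010) (nat_lit 0) .nil) .nil))) 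
(.lf (nat_lit 519064) (.g (nat_lit 1328) (.e (nat_lit 196674) (nat_lit 15) (.e (nat_lit 81955) (nat_lit 23) (.e (nat_lit 98350) (nat_lit 24) (.e (nat_lit 409617) (nat_lit 10) .nil)))) (.g (nat_lit 0) (.e (nat_lit 219889) (nat_lit 0) .nil) .nil)))))) (.nd (nat_lit 7) (.nd (nat_lit 8) (.nd (nat_lit 9) 
(.lf (nat_lit 518232) (.g (nat_lit 483) (.e (nat_lit 196668) (nat_lit 14) (.e (nat_lit 73747) (nat_lit 3) (.e (nat_lit 516123) (nat_lit 2) .nil))) (.g (nat_lit 0) (.e (nat_lit 218100) (nat_lit 0) .nil) .nil))) 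
(.lf (nat_lit 518744) (.g (nat_lit 2439) (.e (nat_lit 196670) (nat_lit 14) (.e (nat_lit 73754) (nat_lit 8) (.e (nat_lit 557105) (nat_lit 14) (.e (nat_lit 180252) (nat_lit 10) (.e (nat_lit 573475) (nat_lit 12) (.e (nat_lit 57506) (nat_lit 39) (.e (nat_lit 647175) (nat_lit 0) (.e (nat_lit 2657) (nat_lit 167) .nil)))))))) (.g (nat_lit 1) (.e (nat_lit 219273) (nat_lit 0) .nil) .nil)))) 
(.nd (nat_lit 9) 
(.lf (nat_lit 518488) (.g (nat_lit 2168) (.e (nat_lit 196670) (nat_lit 14) (.e (nat_lit 73746) (nat_lit 3) (.e (nat_lit 516119) (nat_lit 1) (.e (nat_lit 164179) (nat_lit 154) (.e (nat_lit 57379) (nat_lit 3) .nil))))) (.g (nat_lit 0) (.e (nat_lit 218851) (nat_lit 0) .nil) .nil))) 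
(.lf (nat_lit 519000) (.g (nat_lit 837) (.e (nat_lit 196673) (nat_lit 15) (.e (nat_lit 81956) (nat_lit 23) (.e (nat_lit 98389) (nat_lit 33) (.e (nat_lit 499456) (nat_lit 14) .nil)))) (.g (nat_lit 0) (.e (nat_lit 219777) (nat_lit 0) .nil) .nil))))) (.nd (nat_lit 8) (.nd (nat_lit 9) 
(.lf (nat_lit 518360) (.g (nat_lit 2274) (.e (nat_lit 196668) (nat_lit 14) (.e (nat_lit 73781) (nat_lit 32) (.e (nat_lit 2663) (nat_lit 167) (.e (nat_lit 196668) (nat_lit 14) (.e (nat_lit 73782) (nat_lit 32) .nil))))) (.g (nat_lit 0) (.e (nat_lit 218404) (nat_lit 0) .nil) .nil))) 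
(.lf (nat_lit 518872) (.g (nat_lit 1885) (.e (nat_lit 196672) (nat_lit 15) (.e (nat_lit 81954) (nat_lit 23) (.e (nat_lit 98323) (nat_lit 17) (.e (nat_lit 7107) (nat_lit 380) (.e (nat_lit 164363) (nat_lit 246) (.e (nat_lit 2654) (nat_lit 167) .nil)))))) (.g (nat_lit 1) (.e (nat_lit 219556) (nat_lit 0) .nil) .nil)))) (.nd (nat_lit 9) 
(.lf (nat_lit 518616) (.g (nat_lit 1769) (.e (nat_lit 196670) (nat_lit 14) (.e (nat_lit 73753) (nat_lit 8) (.e (nat_lit 557103) (nat_lit 14) (.e (nat_lit 180251) (nat_lit 10) .nil)))) (.g (nat_lit 0) (.e (nat_lit 219119) (nat_lit 0) .nil) .nil))) 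
(.lf (nat_lit 519128) (.g (nat_lit 4885) (.e (nat_lit 196681) (nat_lit 17) (.e (nat_lit 131105) (nat_lit 9) (.e (nat_lit 336324) (nat_lit 18) (.e (nat_lit 204838) (nat_lit 20) (.e (nat_lit 114698) (nat_lit 11) (.e (nat_lit 426123) (nat_lit 2) .nil)))))) (.g (nat_lit 1) (.e (nat_lit 220123) (nat_lit 0) .nil) .nil))))))) (.nd (nat_lit 6) (.nd (nat_lit 7) (.nd (nat_lit 8) (.nd (nat_lit 9) 
(.lf (nat_lit 518200) (.g (nat_lit 2552) (.e (nat_lit 196668) (nat_lit 14) (.e (nat_lit 73747) (nat_lit 3) (.e (nat_lit 516116) (nat_lit 1) (.e (nat_lit 164183) (nat_lit 154) (.e (nat_lit 57378) (nat_lit 3) (.e (nat_lit 98342) (nat_lit 20) (.e (nat_lit 221212) (nat_lit 22) .nil))))))) (.g (nat_lit 1) (.e (nat_lit 217827) (nat_lit 0) .nil) .nil))) 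
(.lf (nat_lit 518712) (.g (nat_lit 3407) (.e (nat_lit 196670) (nat_lit 14) (.e (nat_lit 73754) (nat_lit 8) (.e (nat_lit 557105) (nat_lit 14) (.e (nat_lit 180252) (nat_lit 10) (.e (nat_lit 573473) (nat_lit 12) (.e (nat_lit 57508) (nat_lit 39) (.e (nat_lit 647170) (nat_lit 0) (.e (nat_lit 2662) (nat_lit 167) .nil)))))))) (.g (nat_lit 1) (.e (nat_lit 219241) (nat_lit 0) .nil) .nil)))) 
(.nd (nat_lit 9) 
(.lf (nat_lit 518456) (.g (nat_lit 1919) (.e (nat_lit 196669) (nat_lit 14) (.e (nat_lit 73781) (nat_lit 32) (.e (nat_lit 2682) (nat_lit 168) (.e (nat_lit 204846) (nat_lit 24) (.e (nat_lit 319491) (nat_lit 0) .nil))))) (.g (nat_lit 0) (.e (nat_lit 218601) (nat_lit 0) .nil) .nil))) 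
(.lf (nat_lit 518968) (.g (nat_lit 1311) (.e (nat_lit 196672) (nat_lit 15) (.e (nat_lit 81956) (nat_lit 23) (.e (nat_lit 98352) (nat_lit 25) (.e (nat_lit 425728) (nat_lit 19) .nil)))) (.g (nat_lit 0) (.e (nat_lit 219712) (nat_lit 0) .nil) .nil))))) (.nd (nat_lit 8) (.nd (nat_lit 9) 
(.lf (nat_lit 518328) (.g (nat_lit 3508) (.e (nat_lit 196668) (nat_lit 14) (.e (nat_lit 73753) (nat_lit 8) (.e (nat_lit 557104) (nat_lit 14) (.e (nat_lit 180252) (nat_lit 10) (.e (nat_lit 573474) (nat_lit 12) (.e (nat_lit 57506) (nat_lit 39) (.e (nat_lit 655104) (nat_lit 0) (.e (nat_lit 2667) (nat_lit 167) .nil)))))))) (.g (nat_lit 1) (.e (nat_lit 218366) (nat_lit 0) .nil) .nil))) 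
(.lf (nat_lit 518840) (.g (nat_lit 430) (.e (nat_lit 196672) (nat_lit 15) (.e (nat_lit 81951) (nat_lit 22) (.e (nat_lit 90133) (nat_lit 9) .nil))) (.g (nat_lit 0) (.e (nat_lit 219466) (nat_lit 0) .nil) .nil)))) (.nd (nat_lit 9) 
(.lf (nat_lit 518584) (.g (nat_lit 3916) (.e (nat_lit 196670) (nat_lit 14) (.e (nat_lit 73746) (nat_lit 3) (.e (nat_lit 516131) (nat_lit 3) (.e (nat_lit 221215) (nat_lit 23) (.e (nat_lit 204830) (nat_lit 18) (.e (nat_lit 57930) (nat_lit 282) (.e (nat_lit 163867) (nat_lit 2) .nil))))))) (.g (nat_lit 1) (.e (nat_lit 219047) (nat_lit 0) .nil) .nil))) 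
(.lf (nat_lit 519096) (.g (nat_lit 3253) (.e (nat_lit 196681) (nat_lit 17) (.e (nat_lit 131096) (nat_lit 3) (.e (nat_lit 98334) (nat_lit 18) (.e (nat_lit 164182) (nat_lit 154) (.e (nat_lit 57378) (nat_lit 3) (.e (nat_lit 98341) (nat_lit 20) (.e (nat_lit 221212) (nat_lit 22) .nil))))))) (.g (nat_lit 1) (.e (nat_lit 220060) (nat_lit 0) .nil) .nil)))))) 
(.nd (nat_lit 7) (.nd (nat_lit 8) (.nd (nat_lit 9) 
(.lf (nat_lit 518264) (.g (nat_lit 2835) (.e (nat_lit 196668) (nat_lit 14) (.e (nat_lit 73747) (nat_lit 3) (.e (nat_lit 516129) (nat_lit 3) (.e (nat_lit 221215) (nat_lit 23) (.e (nat_lit 204831) (nat_lit 18) (.e (nat_lit 57924) (nat_lit 282) (.e (nat_lit 163871) (nat_lit 2) .nil))))))) (.g (nat_lit 1) (.e (nat_lit 218171) (nat_lit 0) .nil) .nil))) 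
(.lf (nat_lit 518776) (.g (nat_lit 3748) (.e (nat_lit 196670) (nat_lit 14) (.e (nat_lit 73755) (nat_lit 8) (.e (nat_lit 557105) (nat_lit 14) (.e (nat_lit 180252) (nat_lit 10) (.e (nat_lit 573474) (nat_lit 12) (.e (nat_lit 57505) (nat_lit 39) (.e (nat_lit 655104) (nat_lit 0) (.e (nat_lit 2667) (nat_lit 167) .nil)))))))) (.g (nat_lit 1) (.e (nat_lit 219315) (nat_lit 0) .nil) .nil)))) 
(.nd (nat_lit 9) 
(.lf (nat_lit 518520) (.g (nat_lit 1818) (.e (nat_lit 196670) (nat_lit 14) (.e (nat_lit 73746) (nat_lit 3) (.e (nat_lit 516129) (nat_lit 3) (.e (nat_lit 221210) (nat_lit 22) (.e (nat_lit 196677) (nat_lit 16) .nil))))) (.g (nat_lit 0) (.e (nat_lit 218974) (nat_lit 0) .nil) .nil))) 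
(.lf (nat_lit 519032) (.g (nat_lit 402) (.e (nat_lit 196674) (nat_lit 15) (.e (nat_lit 81946) (nat_lit 20) (.e (nat_lit 1841) (nat_lit 123) .nil))) (.g (nat_lit 0) (.e (nat_lit 219822) (nat_lit 0) .nil) .nil))))) (.nd (nat_lit 8) (.nd (nat_lit 9) 
(.lf (nat_lit 518392) (.g (nat_lit 3231) (.e (nat_lit 196669) (nat_lit 14) (.e (nat_lit 73747) (nat_lit 3) (.e (nat_lit 516115) (nat_lit 1) (.e (nat_lit 164179) (nat_lit 154) (.e (nat_lit 57379) (nat_lit 3) (.e (nat_lit 98342) (nat_lit 20) (.e (nat_lit 221212) (nat_lit 22) .nil))))))) (.g (nat_lit 1) (.e (nat_lit 218504) (nat_lit 0) .nil) .nil))) 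
(.lf (nat_lit 518904) (.g (nat_lit 2163) (.e (nat_lit 196672) (nat_lit 15) (.e (nat_lit 81954) (nat_lit 23) (.e (nat_lit 98350) (nat_lit 24) (.e (nat_lit 409610) (nat_lit 10) .nil)))) (.g (nat_lit 0) (.e (nat_lit 219604) (nat_lit 0) .nil) .nil)))) (.nd (nat_lit 9) 
(.lf (nat_lit 518648) (.g (nat_lit 2985) (.e (nat_lit 196670) (nat_lit 14) (.e (nat_lit 73753) (nat_lit 8) (.e (nat_lit 557105) (nat_lit 14) (.e (nat_lit 180252) (nat_lit 10) (.e (nat_lit 573474) (nat_lit 12) (.e (nat_lit 57347) (nat_lit 0) (.e (nat_lit 5438) (nat_lit 306) (.e (nat_lit 2433) (nat_lit 157) (.e (nat_lit 2668) (nat_lit 167) .nil))))))))) (.g (nat_lit 1) (.e (nat_lit 219155) (nat_lit 0) .nil) .nil))) 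
(.lf (nat_lit 519160) (.g (nat_lit 3636) (.e (nat_lit 196681) (nat_lit 17) (.e (nat_lit 131109) (nat_lit 9) (.e (nat_lit 336324) (nat_lit 18) (.e (nat_lit 204837) (nat_lit 20) (.e (nat_lit 114698) (nat_lit 11) (.e (nat_lit 426115) (nat_lit 2) .nil)))))) (.g (nat_lit 1) (.e (nat_lit 220252) (nat_lit 0) .nil) .nil)))))))))) 
(.nd (nat_lit 3) (.nd (nat_lit 4) (.nd (nat_lit 5) (.nd (nat_lit 6) (.nd (nat_lit 7) 
(.nd (nat_lit 8) (.nd (nat_lit 9) 
(.lf (nat_lit 518148) (.g (nat_lit 1522) (.e (nat_lit 196668) (nat_lit 14) (.e (nat_lit 73746) (nat_lit 3) (.e (nat_lit 516119) (nat_lit 1) (.e (nat_lit 164180) (nat_lit 154) .nil)))) (.g (nat_lit 0) (.e (nat_lit 217446) (nat_lit 0) .nil) .nil))) 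
(.lf (nat_lit 518660) (.g (nat_lit 3359) (.e (nat_lit 196670) (nat_lit 14) (.e (nat_lit 73753) (nat_lit 8) (.e (nat_lit 557105) (nat_lit 14) (.e (nat_lit 180252) (nat_lit 10) (.e (nat_lit 573474) (nat_lit 12) (.e (nat_lit 57508) (nat_lit 39) (.e (nat_lit 647170) (nat_lit 0) (.e (nat_lit 2662) (nat_lit 167) .nil)))))))) (.g (nat_lit 1) (.e (nat_lit 219167) (nat_lit 0) .nil) .nil)))) 
(.nd (nat_lit 9) 
(.lf (nat_lit 518404) (.g (nat_lit 2898) (.e (nat_lit 196669) (nat_lit 14) (.e (nat_lit 73747) (nat_lit 3) (.e (nat_lit 516119) (nat_lit 1) (.e (nat_lit 164179) (nat_lit 154) (.e (nat_lit 57378) (nat_lit 3) (.e (nat_lit 98342) (nat_lit 20) (.e (nat_lit 221212) (nat_lit 22) .nil))))))) (.g (nat_lit 1) (.e (nat_lit 218516) (nat_lit 0) .nil) .nil))) 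
(.lf (nat_lit 518916) (.g (nat_lit 3359) (.e (nat_lit 196672) (nat_lit 15) (.e (nat_lit 81954) (nat_lit 23) (.e (nat_lit 98350) (nat_lit 24) (.e (nat_lit 409617) (nat_lit 10) (.e (nat_lit 7936) (nat_lit 312) (.e (nat_lit 2657) (nat_lit 167) .nil)))))) (.g (nat_lit 1) (.e (nat_lit 219618) (nat_lit 0) .nil) .nil))))) (.nd (nat_lit 8) (.nd (nat_lit 9) 
(.lf (nat_lit 518276) (.g (nat_lit 3446) (.e (nat_lit 196668) (nat_lit 14) (.e (nat_lit 73747) (nat_lit 3) (.e (nat_lit 516131) (nat_lit 3) (.e (nat_lit 221214) (nat_lit 23) (.e (nat_lit 204830) (nat_lit 18) (.e (nat_lit 57927) (nat_lit 282) (.e (nat_lit 163866) (nat_lit 2) .nil))))))) (.g (nat_lit 1) (.e (nat_lit 218197) (nat_lit 0) .nil) .nil))) 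
(.lf (nat_lit 518788) (.g (nat_lit 2821) (.e (nat_lit 196671) (nat_lit 15) (.e (nat_lit 81946) (nat_lit 20) (.e (nat_lit 1858) (nat_lit 124) (.e (nat_lit 557093) (nat_lit 12) (.e (nat_lit 164022) (nat_lit 46) .nil))))) (.g (nat_lit 0) (.e (nat_lit 219336) (nat_lit 0) .nil) .nil)))) (.nd (nat_lit 9) 
(.lf (nat_lit 518532) (.g (nat_lit 4012) (.e (nat_lit 196670) (nat_lit 14) (.e (nat_lit 73746) (nat_lit 3) (.e (nat_lit 516129) (nat_lit 3) (.e (nat_lit 221214) (nat_lit 23) (.e (nat_lit 204829) (nat_lit 18) (.e (nat_lit 57927) (nat_lit 282) (.e (nat_lit 163866) (nat_lit 2) .nil))))))) (.g (nat_lit 1) (.e (nat_lit 218990) (nat_lit 0) .nil) .nil))) 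
(.lf (nat_lit 519044) (.g (nat_lit 1433) (.e (nat_lit 196674) (nat_lit 15) (.e (nat_lit 81946) (nat_lit 20) (.e (nat_lit 1858) (nat_lit 124) (.e (nat_lit 557093) (nat_lit 12) .nil)))) (.g (nat_lit 0) (.e (nat_lit 219849) (nat_lit 0) .nil) .nil)))))) (.nd (nat_lit 7) (.nd (nat_lit 8) (.nd (nat_lit 9) 
(.lf (nat_lit 518212) (.g (nat_lit 1945) (.e (nat_lit 196668) (nat_lit 14) (.e (nat_lit 73747) (nat_lit 3) (.e (nat_lit 516119) (nat_lit 1) (.e (nat_lit 164179) (nat_lit 154) (.e (nat_lit 57377) (nat_lit 3) .nil))))) (.g (nat_lit 0) (.e (nat_lit 217994) (nat_lit 0) .nil) .nil))) 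
(.lf (nat_lit 518724) (.g (nat_lit 2972) (.e (nat_lit 196670) (nat_lit 14) (.e (nat_lit 73754) (nat_lit 8) (.e (nat_lit 557105) (nat_lit 14) (.e (nat_lit 180252) (nat_lit 10) (.e (nat_lit 573474) (nat_lit 12) .nil))))) (.g (nat_lit 0) (.e (nat_lit 219253) (nat_lit 0) .nil) .nil)))) (.nd (nat_lit 9) 
(.lf (nat_lit 518468) (.g (nat_lit 1890) (.e (nat_lit 196670) (nat_lit 14) (.e (nat_lit 73746) (nat_lit 3) (.e (nat_lit 516115) (nat_lit 1) (.e (nat_lit 164180) (nat_lit 154) .nil)))) (.g (nat_lit 0) (.e (nat_lit 218677) (nat_lit 0) .nil) .nil))) 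
(.lf (nat_lit 518980) (.g (nat_lit 1515) (.e (nat_lit 196673) (nat_lit 15) (.e (nat_lit 81938) (nat_lit 20) (.e (nat_lit 1842) (nat_lit 123) (.e (nat_lit 548890) (nat_lit 10) (.e (nat_lit 81664) (nat_lit 32) .nil))))) (.g (nat_lit 0) (.e (nat_lit 219738) (nat_lit 0) .nil) .nil))))) (.nd (nat_lit 8) (.nd (nat_lit 9) 
(.lf (nat_lit 518340) (.g (nat_lit 4243) (.e (nat_lit 196668) (nat_lit 14) (.e (nat_lit 73753) (nat_lit 8) (.e (nat_lit 557105) (nat_lit 14) (.e (nat_lit 180252) (nat_lit 10) (.e (nat_lit 573474) (nat_lit 12) (.e (nat_lit 57505) (nat_lit 39) (.e (nat_lit 655104) (nat_lit 0) (.e (nat_lit 2667) (nat_lit 167) .nil)))))))) (.g (nat_lit 1) (.e (nat_lit 218379) (nat_lit 0) .nil) .nil))) 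
(.lf (nat_lit 518852) (.g (nat_lit 2099) (.e (nat_lit 196672) (nat_lit 15) (.e (nat_lit 81953) (nat_lit 22) (.e (nat_lit 90134) (nat_lit 9) (.e (nat_lit 2828) (nat_lit 182) (.e (nat_lit 409649) (nat_lit 18) .nil))))) (.g (nat_lit 0) (.e (nat_lit 219517) (nat_lit 0) .nil) .nil)))) (.nd (nat_lit 9) 
(.lf (nat_lit 518596) (.g (nat_lit 1918) (.e (nat_lit 196670) (nat_lit 14) (.e (nat_lit 73753) (nat_lit 8) (.e (nat_lit 557100) (nat_lit 13) (.e (nat_lit 172065) (nat_lit 3) .nil)))) (.g (nat_lit 0) (.e (nat_lit 219082) (nat_lit 0) .nil) .nil))) 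
(.lf (nat_lit 519108) (.g (nat_lit 4337) (.e (nat_lit 196681) (nat_lit 17) (.e (nat_lit 131098) (nat_lit 3) (.e (nat_lit 98334) (nat_lit 18) (.e (nat_lit 164182) (nat_lit 154) (.e (nat_lit 57379) (nat_lit 3) (.e (nat_lit 98342) (nat_lit 20) (.e (nat_lit 221212) (nat_lit 22) .nil))))))) (.g (nat_lit 1) (.e (nat_lit 220088) (nat_lit 0) .nil) .nil))))))) 
(.nd (nat_lit 6) (.nd (nat_lit 7) (.nd (nat_lit 8) (.nd (nat_lit 9) 
(.lf (nat_lit 518180) (.g (nat_lit 1903) (.e (nat_lit 196668) (nat_lit 14) (.e (nat_lit 73747) (nat_lit 3) (.e (nat_lit 516115) (nat_lit 1) (.e (nat_lit 164157) (nat_lit 152) (.e (nat_lit 1027) (nat_lit 81) .nil))))) (.g (nat_lit 0) (.e (nat_lit 217564) (nat_lit 0) .nil) .nil))) 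
(.lf (nat_lit 518692) (.g (nat_lit 1998) (.e (nat_lit 196670) (nat_lit 14) (.e (nat_lit 73754) (nat_lit 8) (.e (nat_lit 557105) (nat_lit 14) (.e (nat_lit 180251) (nat_lit 10) (.e (nat_lit 573477) (nat_lit 12) .nil))))) (.g (nat_lit 0) (.e (nat_lit 219220) (nat_lit 0) .nil) .nil)))) (.nd (nat_lit 9) 
(.lf (nat_lit 518436) (.g (nat_lit 1493) (.e (nat_lit 196669) (nat_lit 14) (.e (nat_lit 73755) (nat_lit 8) (.e (nat_lit 557104) (nat_lit 14) (.e (nat_lit 180252) (nat_lit 10) .nil)))) (.g (nat_lit 0) (.e (nat_lit 218572) (nat_lit 0) .nil) .nil))) 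
(.lf (nat_lit 518948) (.g (nat_lit 1907) (.e (nat_lit 196672) (nat_lit 15) (.e (nat_lit 81955) (nat_lit 23) (.e (nat_lit 98350) (nat_lit 24) (.e (nat_lit 409647) (nat_lit 18) (.e (nat_lit 303117) (nat_lit 2) .nil))))) (.g (nat_lit 0) (.e (nat_lit 219690) (nat_lit 0) .nil) .nil))))) (.nd (nat_lit 8) (.nd (nat_lit 9) 
(.lf (nat_lit 518308) (.g (nat_lit 3172) (.e (nat_lit 196668) (nat_lit 14) (.e (nat_lit 73753) (nat_lit 8) (.e (nat_lit 557103) (nat_lit 14) (.e (nat_lit 180250) (nat_lit 10) (.e (nat_lit 573473) (nat_lit 12) (.e (nat_lit 57508) (nat_lit 39) (.e (nat_lit 655104) (nat_lit 0) (.e (nat_lit 2657) (nat_lit 167) .nil)))))))) (.g (nat_lit 1) (.e (nat_lit 218343) (nat_lit 0) .nil) .nil))) 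
(.lf (nat_lit 518820) (.g (nat_lit 3019) (.e (nat_lit 196672) (nat_lit 15) (.e (nat_lit 81927) (nat_lit 11) (.e (nat_lit 426500) (nat_lit 27) (.e (nat_lit 335988) (nat_lit 1) (.e (nat_lit 57926) (nat_lit 282) (.e (nat_lit 163868) (nat_lit 2) .nil)))))) (.g (nat_lit 1) (.e (nat_lit 219387) (nat_lit 0) .nil) .nil)))) (.nd (nat_lit 9) 
(.lf (nat_lit 518564) (.g (nat_lit 2115) (.e (nat_lit 196670) (nat_lit 14) (.e (nat_lit 73746) (nat_lit 3) (.e (nat_lit 516131) (nat_lit 3) (.e (nat_lit 221212) (nat_lit 22) (.e (nat_lit 196660) (nat_lit 12) (.e (nat_lit 57507) (nat_lit 39) (.e (nat_lit 655104) (nat_lit 0) (.e (nat_lit 2667) (nat_lit 167) .nil)))))))) (.g (nat_lit 1) (.e (nat_lit 219024) (nat_lit 0) .nil) .nil))) 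
(.lf (nat_lit 519076) (.g (nat_lit 2333) (.e (nat_lit 196674) (nat_lit 15) (.e (nat_lit 81956) (nat_lit 23) (.e (nat_lit 98350) (nat_lit 24) (.e (nat_lit 409616) (nat_lit 10) (.e (nat_lit 7936) (nat_lit 312) .nil))))) (.g (nat_lit 0) (.e (nat_lit 219902) (nat_lit 0) .nil) .nil)))))) (.nd (nat_lit 7) (.nd (nat_lit 8) (.nd (nat_lit 9) 
(.lf (nat_lit 518244) (.g (nat_lit 3748) (.e (nat_lit 196668) (nat_lit 14) (.e (nat_lit 73747) (nat_lit 3) (.e (nat_lit 516129) (nat_lit 3) (.e (nat_lit 221214) (nat_lit 23) (.e (nat_lit 204829) (nat_lit 18) (.e (nat_lit 57930) (nat_lit 282) (.e (nat_lit 163867) (nat_lit 2) .nil))))))) (.g (nat_lit 1) (.e (nat_lit 218145) (nat_lit 0) .nil) .nil))) 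
(.lf (nat_lit 518756) (.g (nat_lit 2798) (.e (nat_lit 196670) (nat_lit 14) (.e (nat_lit 73754) (nat_lit 8) (.e (nat_lit 557105) (nat_lit 14) (.e (nat_lit 180252) (nat_lit 10) (.e (nat_lit 573475) (nat_lit 12) (.e (nat_lit 57508) (nat_lit 39) (.e (nat_lit 647175) (nat_lit 0) (.e (nat_lit 2665) (nat_lit 167) .nil)))))))) (.g (nat_lit 1) (.e (nat_lit 219285) (nat_lit 0) .nil) .nil)))) 
(.nd (nat_lit 9) 
(.lf (nat_lit 518500) (.g (nat_lit 1473) (.e (nat_lit 196670) (nat_lit 14) (.e (nat_lit 73746) (nat_lit 3) (.e (nat_lit 516120) (nat_lit 1) (.e (nat_lit 164157) (nat_lit 152) .nil)))) (.g (nat_lit 0) (.e (nat_lit 218867) (nat_lit 0) .nil) .nil))) 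
(.lf (nat_lit 519012) (.g (nat_lit 2534) (.e (nat_lit 196674) (nat_lit 15) (.e (nat_lit 81922) (nat_lit 0) (.e (nat_lit 3305) (nat_lit 202) (.e (nat_lit 573488) (nat_lit 14) (.e (nat_lit 73782) (nat_lit 32) (.e (nat_lit 2664) (nat_lit 167) .nil)))))) (.g (nat_lit 1) (.e (nat_lit 219798) (nat_lit 0) .nil) .nil))))) (.nd (nat_lit 8) (.nd (nat_lit 9) 
(.lf (nat_lit 518372) (.g (nat_lit 1539) (.e (nat_lit 196668) (nat_lit 14) (.e (nat_lit 73782) (nat_lit 32) (.e (nat_lit 2681) (nat_lit 168) (.e (nat_lit 204855) (nat_lit 26) (.e (nat_lit 336226) (nat_lit 14) .nil))))) (.g (nat_lit 0) (.e (nat_lit 218431) (nat_lit 0) .nil) .nil))) 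
(.lf (nat_lit 518884) (.g (nat_lit 661) (.e (nat_lit 196672) (nat_lit 15) (.e (nat_lit 81954) (nat_lit 23) (.e (nat_lit 98330) (nat_lit 17) .nil))) (.g (nat_lit 0) (.e (nat_lit 219580) (nat_lit 0) .nil) .nil)))) (.nd (nat_lit 9) 
(.lf (nat_lit 518628) (.g (nat_lit 2698) (.e (nat_lit 196670) (nat_lit 14) (.e (nat_lit 73753) (nat_lit 8) (.e (nat_lit 557105) (nat_lit 14) (.e (nat_lit 180252) (nat_lit 10) (.e (nat_lit 573452) (nat_lit 9) .nil))))) (.g (nat_lit 0) (.e (nat_lit 219134) (nat_lit 0) .nil) .nil))) 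
(.lf (nat_lit 519140) (.g (nat_lit 1730) (.e (nat_lit 196681) (nat_lit 17) (.e (nat_lit 131109) (nat_lit 9) (.e (nat_lit 336019) (nat_lit 3) (.e (nat_lit 98350) (nat_lit 24) (.e (nat_lit 409617) (nat_lit 10) .nil))))) (.g (nat_lit 0) (.e (nat_lit 220202) (nat_lit 0) .nil) .nil)))))))) (.nd (nat_lit 5) (.nd (nat_lit 6) (.nd (nat_lit 7) (.nd (nat_lit 8) (.nd (nat_lit 9) 
(.lf (nat_lit 518164) (.g (nat_lit 1482) (.e (nat_lit 196668) (nat_lit 14) (.e (nat_lit 73746) (nat_lit 3) (.e (nat_lit 516120) (nat_lit 1) (.e (nat_lit 164183) (nat_lit 154) .nil)))) (.g (nat_lit 0) (.e (nat_lit 217476) (nat_lit 0) .nil) .nil))) 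
(.lf (nat_lit 518676) (.g (nat_lit 2966) (.e (nat_lit 196670) (nat_lit 14) (.e (nat_lit 73753) (nat_lit 8) (.e (nat_lit 557105) (nat_lit 14) (.e (nat_lit 180252) (nat_lit 10) (.e (nat_lit 573475) (nat_lit 12) (.e (nat_lit 57508) (nat_lit 39) (.e (nat_lit 647175) (nat_lit 0) (.e (nat_lit 2663) (nat_lit 167) .nil)))))))) (.g (nat_lit 1) (.e (nat_lit 219183) (nat_lit 0) .nil) .nil)))) 
(.nd (nat_lit 9) 
(.lf (nat_lit 518420) (.g (nat_lit 1689) (.e (nat_lit 196669) (nat_lit 14) (.e (nat_lit 73755) (nat_lit 8) (.e (nat_lit 557098) (nat_lit 13) (.e (nat_lit 172064) (nat_lit 2) .nil)))) (.g (nat_lit 0) (.e (nat_lit 218548) (nat_lit 0) .nil) .nil))) 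
(.lf (nat_lit 518932) (.g (nat_lit 859) (.e (nat_lit 196672) (nat_lit 15) (.e (nat_lit 81954) (nat_lit 23) (.e (nat_lit 98353) (nat_lit 25) (.e (nat_lit 417817) (nat_lit 10) .nil)))) (.g (nat_lit 0) (.e (nat_lit 219637) (nat_lit 0) .nil) .nil))))) (.nd (nat_lit 8) (.nd (nat_lit 9) 
(.lf (nat_lit 518292) (.g (nat_lit 2819) (.e (nat_lit 196668) (nat_lit 14) (.e (nat_lit 73753) (nat_lit 8) (.e (nat_lit 557091) (nat_lit 12) (.e (nat_lit 163999) (nat_lit 38) (.e (nat_lit 639006) (nat_lit 13) .nil))))) (.g (nat_lit 0) (.e (nat_lit 218283) (nat_lit 0) .nil) .nil))) 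
(.lf (nat_lit 518804) (.g (nat_lit 1917) (.e (nat_lit 196672) (nat_lit 15) (.e (nat_lit 81924) (nat_lit 0) (.e (nat_lit 3305) (nat_lit 202) (.e (nat_lit 573489) (nat_lit 14) (.e (nat_lit 81664) (nat_lit 32) (.e (nat_lit 2663) (nat_lit 167) .nil)))))) (.g (nat_lit 1) (.e (nat_lit 219363) (nat_lit 0) .nil) .nil)))) (.nd (nat_lit 9) 
(.lf (nat_lit 518548) (.g (nat_lit 2559) (.e (nat_lit 196670) (nat_lit 14) (.e (nat_lit 73746) (nat_lit 3) (.e (nat_lit 516129) (nat_lit 3) (.e (nat_lit 221215) (nat_lit 23) (.e (nat_lit 204829) (nat_lit 18) (.e (nat_lit 57926) (nat_lit 282) (.e (nat_lit 163870) (nat_lit 2) .nil))))))) (.g (nat_lit 1) (.e (nat_lit 219006) (nat_lit 0) .nil) .nil))) 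
(.lf (nat_lit 519060) (.g (nat_lit 1185) (.e (nat_lit 196674) (nat_lit 15) (.e (nat_lit 81955) (nat_lit 23) (.e (nat_lit 98350) (nat_lit 24) (.e (nat_lit 409616) (nat_lit 10) .nil)))) (.g (nat_lit 0) (.e (nat_lit 219885) (nat_lit 0) .nil) .nil)))))) (.nd (nat_lit 7) (.nd (nat_lit 8) (.nd (nat_lit 9) 
(.lf (nat_lit 518228) (.g (nat_lit 3892) (.e (nat_lit 196668) (nat_lit 14) (.e (nat_lit 73747) (nat_lit 3) (.e (nat_lit 516120) (nat_lit 1) (.e (nat_lit 164183) (nat_lit 154) (.e (nat_lit 57378) (nat_lit 3) (.e (nat_lit 98341) (nat_lit 20) (.e (nat_lit 221212) (nat_lit 22) .nil))))))) (.g (nat_lit 1) (.e (nat_lit 218093) (nat_lit 0) .nil) .nil))) 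
(.lf (nat_lit 518740) (.g (nat_lit 1523) (.e (nat_lit 196670) (nat_lit 14) (.e (nat_lit 73754) (nat_lit 8) (.e (nat_lit 557105) (nat_lit 14) (.e (nat_lit 180252) (nat_lit 10) (.e (nat_lit 573475) (nat_lit 12) .nil))))) (.g (nat_lit 0) (.e (nat_lit 219269) (nat_lit 0) .nil) .nil)))) (.nd (nat_lit 9) 
(.lf (nat_lit 518484) (.g (nat_lit 3446) (.e (nat_lit 196670) (nat_lit 14) (.e (nat_lit 73746) (nat_lit 3) (.e (nat_lit 516118) (nat_lit 1) (.e (nat_lit 164183) (nat_lit 154) (.e (nat_lit 57379) (nat_lit 3) (.e (nat_lit 98341) (nat_lit 20) (.e (nat_lit 221212) (nat_lit 22) .nil))))))) (.g (nat_lit 1) (.e (nat_lit 218814) (nat_lit 0) .nil) .nil))) 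
(.lf (nat_lit 518996) (.g (nat_lit 2598) (.e (nat_lit 196673) (nat_lit 15) (.e (nat_lit 81956) (nat_lit 23) (.e (nat_lit 98349) (nat_lit 24) (.e (nat_lit 409649) (nat_lit 18) (.e (nat_lit 303117) (nat_lit 2) .nil))))) (.g (nat_lit 0) (.e (nat_lit 219771) (nat_lit 0) .nil) .nil))))) (.nd (nat_lit 8) (.nd (nat_lit 9) 
(.lf (nat_lit 518356) (.g (nat_lit 3234) (.e (nat_lit 196668) (nat_lit 14) (.e (nat_lit 73754) (nat_lit 8) (.e (nat_lit 557105) (nat_lit 14) (.e (nat_lit 180252) (nat_lit 10) (.e (nat_lit 573474) (nat_lit 12) .nil))))) (.g (nat_lit 0) (.e (nat_lit 218396) (nat_lit 0) .nil) .nil))) 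
(.lf (nat_lit 518868) (.g (nat_lit 2440) (.e (nat_lit 196672) (nat_lit 15) (.e (nat_lit 81954) (nat_lit 23) (.e (nat_lit 98323) (nat_lit 17) (.e (nat_lit 7107) (nat_lit 380) (.e (nat_lit 164356) (nat_lit 246) (.e (nat_lit 7936) (nat_lit 167) .nil)))))) (.g (nat_lit 1) (.e (nat_lit 219552) (nat_lit 0) .nil) .nil)))) (.nd (nat_lit 9) 
(.lf (nat_lit 518612) (.g (nat_lit 3359) (.e (nat_lit 196670) (nat_lit 14) (.e (nat_lit 73753) (nat_lit 8) (.e (nat_lit 557103) (nat_lit 14) (.e (nat_lit 180250) (nat_lit 10) (.e (nat_lit 573474) (nat_lit 12) (.e (nat_lit 57508) (nat_lit 39) (.e (nat_lit 647176) (nat_lit 0) (.e (nat_lit 2663) (nat_lit 167) .nil)))))))) (.g (nat_lit 1) (.e (nat_lit 219115) (nat_lit 0) .nil) .nil))) 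
(.lf (nat_lit 519124) (.g (nat_lit 2759) (.e (nat_lit 196681) (nat_lit 17) (.e (nat_lit 131105) (nat_lit 9) (.e (nat_lit 336324) (nat_lit 18) (.e (nat_lit 204838) (nat_lit 20) (.e (nat_lit 114697) (nat_lit 11) (.e (nat_lit 426121) (nat_lit 2) .nil)))))) (.g (nat_lit 1) (.e (nat_lit 220119) (nat_lit 0) .nil) .nil))))))) (.nd (nat_lit 6) (.nd (nat_lit 7) (.nd (nat_lit 8) (.nd (nat_lit 9) 
(.lf (nat_lit 518196) (.g (nat_lit 1847) (.e (nat_lit 196668) (nat_lit 14) (.e (nat_lit 73747) (nat_lit 3) (.e (nat_lit 516115) (nat_lit 1) (.e (nat_lit 164183) (nat_lit 154) (.e (nat_lit 57378) (nat_lit 3) .nil))))) (.g (nat_lit 0) (.e (nat_lit 217789) (nat_lit 0) .nil) .nil))) 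
(.lf (nat_lit 518708) (.g (nat_lit 2739) (.e (nat_lit 196670) (nat_lit 14) (.e (nat_lit 73754) (nat_lit 8) (.e (nat_lit 557105) (nat_lit 14) (.e (nat_lit 180252) (nat_lit 10) (.e (nat_lit 573473) (nat_lit 12) (.e (nat_lit 57507) (nat_lit 39) (.e (nat_lit 655104) (nat_lit 0) (.e (nat_lit 2666) (nat_lit 167) .nil)))))))) (.g (nat_lit 1) (.e (nat_lit 219237) (nat_lit 0) .nil) .nil)))) 
(.nd (nat_lit 9) 
(.lf (nat_lit 518452) (.g (nat_lit 2380) (.e (nat_lit 196669) (nat_lit 14) (.e (nat_lit 73755) (nat_lit 8) (.e (nat_lit 557105) (nat_lit 14) (.e (nat_lit 180252) (nat_lit 10) (.e (nat_lit 573474) (nat_lit 12) (.e (nat_lit 57511) (nat_lit 39) (.e (nat_lit 647171) (nat_lit 0) (.e (nat_lit 2655) (nat_lit 167) .nil)))))))) (.g (nat_lit 1) (.e (nat_lit 218589) (nat_lit 0) .nil) .nil))) 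
(.lf (nat_lit 518964) (.g (nat_lit 3287) (.e (nat_lit 196672) (nat_lit 15) (.e (nat_lit 81956) (nat_lit 23) (.e (nat_lit 98350) (nat_lit 24) (.e (nat_lit 409623) (nat_lit 10) (.e (nat_lit 5664) (nat_lit 312) .nil))))) (.g (nat_lit 0) (.e (nat_lit 219708) (nat_lit 0) .nil) .nil))))) (.nd (nat_lit 8) (.nd (nat_lit 9) 
(.lf (nat_lit 518324) (.g (nat_lit 3628) (.e (nat_lit 196668) (nat_lit 14) (.e (nat_lit 73753) (nat_lit 8) (.e (nat_lit 557104) (nat_lit 14) (.e (nat_lit 180252) (nat_lit 10) (.e (nat_lit 573473) (nat_lit 12) (.e (nat_lit 57507) (nat_lit 39) (.e (nat_lit 655104) (nat_lit 0) (.e (nat_lit 2667) (nat_lit 167) .nil)))))))) (.g (nat_lit 1) (.e (nat_lit 218362) (nat_lit 0) .nil) .nil))) 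
(.lf (nat_lit 518836) (.g (nat_lit 3928) (.e (nat_lit 196672) (nat_lit 15) (.e (nat_lit 81946) (nat_lit 20) (.e (nat_lit 1858) (nat_lit 124) (.e (nat_lit 557070) (nat_lit 9) (.e (nat_lit 2744) (nat_lit 174) (.e (nat_lit 253992) (nat_lit 11) (.e (nat_lit 16411) (nat_lit 2) .nil))))))) (.g (nat_lit 1) (.e (nat_lit 219453) (nat_lit 0) .nil) .nil)))) (.nd (nat_lit 9) 
(.lf (nat_lit 518580) (.g (nat_lit 3435) (.e (nat_lit 196670) (nat_lit 14) (.e (nat_lit 73746) (nat_lit 3) (.e (nat_lit 516131) (nat_lit 3) (.e (nat_lit 221215) (nat_lit 23) (.e (nat_lit 204829) (nat_lit 18) (.e (nat_lit 57927) (nat_lit 282) (.e (nat_lit 163866) (nat_lit 2) .nil))))))) (.g (nat_lit 1) (.e (nat_lit 219043) (nat_lit 0) .nil) .nil))) 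
(.lf (nat_lit 519092) (.g (nat_lit 3512) (.e (nat_lit 196681) (nat_lit 17) (.e (nat_lit 131096) (nat_lit 3) (.e (nat_lit 98333) (nat_lit 18) (.e (nat_lit 164183) (nat_lit 154) (.e (nat_lit 57378) (nat_lit 3) (.e (nat_lit 98341) (nat_lit 20) (.e (nat_lit 221212) (nat_lit 22) .nil))))))) (.g (nat_lit 1) (.e (nat_lit 220056) (nat_lit 0) .nil) .nil)))))) 
(.nd (nat_lit 7) (.nd (nat_lit 8) (.nd (nat_lit 9) 
(.lf (nat_lit 518260) (.g (nat_lit 4092) (.e (nat_lit 196668) (nat_lit 14) (.e (nat_lit 73747) (nat_lit 3) (.e (nat_lit 516129) (nat_lit 3) (.e (nat_lit 221215) (nat_lit 23) (.e (nat_lit 204830) (nat_lit 18) (.e (nat_lit 57927) (nat_lit 282) (.e (nat_lit 163866) (nat_lit 2) .nil))))))) (.g (nat_lit 1) (.e (nat_lit 218167) (nat_lit 0) .nil) .nil))) 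
(.lf (nat_lit 518772) (.g (nat_lit 2630) (.e (nat_lit 196670) (nat_lit 14) (.e (nat_lit 73755) (nat_lit 8) (.e (nat_lit 557098) (nat_lit 13) (.e (nat_lit 172064) (nat_lit 2) (.e (nat_lit 204544) (nat_lit 0) .nil))))) (.g (nat_lit 0) (.e (nat_lit 219308) (nat_lit 0) .nil) .nil)))) (.nd (nat_lit 9) 
(.lf (nat_lit 518516) (.g (nat_lit 1012) (.e (nat_lit 196670) (nat_lit 14) (.e (nat_lit 73746) (nat_lit 3) (.e (nat_lit 516129) (nat_lit 3) (.e (nat_lit 221210) (nat_lit 22) .nil)))) (.g (nat_lit 0) (.e (nat_lit 218969) (nat_lit 0) .nil) .nil))) 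
(.lf (nat_lit 519028) (.g (nat_lit 2050) (.e (nat_lit 196674) (nat_lit 15) (.e (nat_lit 81925) (nat_lit 11) (.e (nat_lit 426500) (nat_lit 27) (.e (nat_lit 335988) (nat_lit 1) (.e (nat_lit 57930) (nat_lit 282) .nil))))) (.g (nat_lit 0) (.e (nat_lit 219817) (nat_lit 0) .nil) .nil))))) (.nd (nat_lit 8) (.nd (nat_lit 9) 
(.lf (nat_lit 518388) (.g (nat_lit 3003) (.e (nat_lit 196669) (nat_lit 14) (.e (nat_lit 73747) (nat_lit 3) (.e (nat_lit 516115) (nat_lit 1) (.e (nat_lit 164179) (nat_lit 154) (.e (nat_lit 57377) (nat_lit 3) (.e (nat_lit 98342) (nat_lit 20) (.e (nat_lit 221212) (nat_lit 22) .nil))))))) (.g (nat_lit 1) (.e (nat_lit 218500) (nat_lit 0) .nil) .nil))) 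
(.lf (nat_lit 518900) (.g (nat_lit 1393) (.e (nat_lit 196672) (nat_lit 15) (.e (nat_lit 81954) (nat_lit 23) (.e (nat_lit 98349) (nat_lit 24) (.e (nat_lit 409651) (nat_lit 19) .nil)))) (.g (nat_lit 0) (.e (nat_lit 219600) (nat_lit 0) .nil) .nil)))) (.nd (nat_lit 9) 
(.lf (nat_lit 518644) (.g (nat_lit 2795) (.e (nat_lit 196670) (nat_lit 14) (.e (nat_lit 73753) (nat_lit 8) (.e (nat_lit 557105) (nat_lit 14) (.e (nat_lit 180252) (nat_lit 10) (.e (nat_lit 573473) (nat_lit 12) (.e (nat_lit 57511) (nat_lit 39) (.e (nat_lit 647171) (nat_lit 0) (.e (nat_lit 2655) (nat_lit 167) .nil)))))))) (.g (nat_lit 1) (.e (nat_lit 219151) (nat_lit 0) .nil) .nil))) 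
(.lf (nat_lit 519156) (.g (nat_lit 2784) (.e (nat_lit 196681) (nat_lit 17) (.e (nat_lit 131109) (nat_lit 9) (.e (nat_lit 336324) (nat_lit 18) (.e (nat_lit 204837) (nat_lit 20) (.e (nat_lit 114697) (nat_lit 11) (.e (nat_lit 426116) (nat_lit 2) .nil)))))) (.g (nat_lit 1) (.e (nat_lit 220248) (nat_lit 0) .nil) .nil))))))))) 
(.nd (nat_lit 4) (.nd (nat_lit 5) (.nd (nat_lit 6) (.nd (nat_lit 7) (.nd (nat_lit 8) 
(.nd (nat_lit 9) 
(.lf (nat_lit 518156) (.g (nat_lit 475) (.e (nat_lit 196668) (nat_lit 14) (.e (nat_lit 73746) (nat_lit 3) (.e (nat_lit 516120) (nat_lit 1) .nil))) (.g (nat_lit 0) (.e (nat_lit 217454) (nat_lit 0) .nil) .nil))) 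
(.lf (nat_lit 518668) (.g (nat_lit 3536) (.e (nat_lit 196670) (nat_lit 14) (.e (nat_lit 73753) (nat_lit 8) (.e (nat_lit 557105) (nat_lit 14) (.e (nat_lit 180252) (nat_lit 10) (.e (nat_lit 573474) (nat_lit 12) (.e (nat_lit 57511) (nat_lit 39) (.e (nat_lit 647171) (nat_lit 0) (.e (nat_lit 2665) (nat_lit 167) .nil)))))))) (.g (nat_lit 1) (.e (nat_lit 219175) (nat_lit 0) .nil) .nil)))) 
(.nd (nat_lit 9) 
(.lf (nat_lit 518412) (.g (nat_lit 2731) (.e (nat_lit 196669) (nat_lit 14) (.e (nat_lit 73754) (nat_lit 8) (.e (nat_lit 557105) (nat_lit 14) (.e (nat_lit 180252) (nat_lit 10) (.e (nat_lit 573449) (nat_lit 9) .nil))))) (.g (nat_lit 0) (.e (nat_lit 218530) (nat_lit 0) .nil) .nil))) 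
(.lf (nat_lit 518924) (.g (nat_lit 1313) (.e (nat_lit 196672) (nat_lit 15) (.e (nat_lit 81954) (nat_lit 23) (.e (nat_lit 98350) (nat_lit 24) (.e (nat_lit 417536) (nat_lit 10) .nil)))) (.g (nat_lit 0) (.e (nat_lit 219626) (nat_lit 0) .nil) .nil))))) (.nd (nat_lit 8) (.nd (nat_lit 9) 
(.lf (nat_lit 518284) (.g (nat_lit 3279) (.e (nat_lit 196668) (nat_lit 14) (.e (nat_lit 73747) (nat_lit 3) (.e (nat_lit 516131) (nat_lit 3) (.e (nat_lit 221215) (nat_lit 23) (.e (nat_lit 204829) (nat_lit 18) (.e (nat_lit 57930) (nat_lit 282) (.e (nat_lit 163867) (nat_lit 2) .nil))))))) (.g (nat_lit 1) (.e (nat_lit 218227) (nat_lit 0) .nil) .nil))) 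
(.lf (nat_lit 518796) (.g (nat_lit 2846) (.e (nat_lit 196672) (nat_lit 15) (.e (nat_lit 81924) (nat_lit 0) (.e (nat_lit 3253) (nat_lit 197) (.e (nat_lit 532513) (nat_lit 3) (.e (nat_lit 114698) (nat_lit 11) (.e (nat_lit 426124) (nat_lit 2) .nil)))))) (.g (nat_lit 1) (.e (nat_lit 219351) (nat_lit 0) .nil) .nil)))) (.nd (nat_lit 9) 
(.lf (nat_lit 518540) (.g (nat_lit 5809) (.e (nat_lit 196670) (nat_lit 14) (.e (nat_lit 73746) (nat_lit 3) (.e (nat_lit 516129) (nat_lit 3) (.e (nat_lit 221214) (nat_lit 23) (.e (nat_lit 204830) (nat_lit 18) (.e (nat_lit 57931) (nat_lit 282) (.e (nat_lit 163869) (nat_lit 2) .nil))))))) (.g (nat_lit 1) (.e (nat_lit 218998) (nat_lit 0) .nil) .nil))) 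
(.lf (nat_lit 519052) (.g (nat_lit 2558) (.e (nat_lit 196674) (nat_lit 15) (.e (nat_lit 81947) (nat_lit 20) (.e (nat_lit 1842) (nat_lit 123) (.e (nat_lit 548889) (nat_lit 9) (.e (nat_lit 65543) (nat_lit 0) (.e (nat_lit 6676) (nat_lit 357) (.e (nat_lit 2664) (nat_lit 167) .nil))))))) (.g (nat_lit 1) (.e (nat_lit 219866) (nat_lit 0) .nil) .nil)))))) 
(.nd (nat_lit 7) (.nd (nat_lit 8) (.nd (nat_lit 9) 
(.lf (nat_lit 518220) (.g (nat_lit 1643) (.e (nat_lit 196668) (nat_lit 14) (.e (nat_lit 73747) (nat_lit 3) (.e (nat_lit 516120) (nat_lit 1) (.e (nat_lit 164176) (nat_lit 154) .nil)))) (.g (nat_lit 0) (.e (nat_lit 218027) (nat_lit 0) .nil) .nil))) 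
(.lf (nat_lit 518732) (.g (nat_lit 3414) (.e (nat_lit 196670) (nat_lit 14) (.e (nat_lit 73754) (nat_lit 8) (.e (nat_lit 557105) (nat_lit 14) (.e (nat_lit 180252) (nat_lit 10) (.e (nat_lit 573474) (nat_lit 12) (.e (nat_lit 57508) (nat_lit 39) (.e (nat_lit 647170) (nat_lit 0) (.e (nat_lit 2662) (nat_lit 167) .nil)))))))) (.g (nat_lit 1) (.e (nat_lit 219261) (nat_lit 0) .nil) .nil)))) 
(.nd (nat_lit 9) 
(.lf (nat_lit 518476) (.g (nat_lit 2065) (.e (nat_lit 196670) (nat_lit 14) (.e (nat_lit 73746) (nat_lit 3) (.e (nat_lit 516116) (nat_lit 1) (.e (nat_lit 164183) (nat_lit 154) (.e (nat_lit 57379) (nat_lit 3) .nil))))) (.g (nat_lit 0) (.e (nat_lit 218741) (nat_lit 0) .nil) .nil))) 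
(.lf (nat_lit 518988) (.g (nat_lit 580) (.e (nat_lit 196673) (nat_lit 15) (.e (nat_lit 81954) (nat_lit 23) (.e (nat_lit 106240) (nat_lit 24) .nil))) (.g (nat_lit 0) (.e (nat_lit 219763) (nat_lit 0) .nil) .nil))))) (.nd (nat_lit 8) (.nd (nat_lit 9) 
(.lf (nat_lit 518348) (.g (nat_lit 4457) (.e (nat_lit 196668) (nat_lit 14) (.e (nat_lit 73753) (nat_lit 8) (.e (nat_lit 557105) (nat_lit 14) (.e (nat_lit 180252) (nat_lit 10) (.e (nat_lit 573474) (nat_lit 12) (.e (nat_lit 57509) (nat_lit 39) (.e (nat_lit 655104) (nat_lit 0) (.e (nat_lit 2667) (nat_lit 167) .nil)))))))) (.g (nat_lit 1) (.e (nat_lit 218387) (nat_lit 0) .nil) .nil))) 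
(.lf (nat_lit 518860) (.g (nat_lit 350) (.e (nat_lit 196672) (nat_lit 15) (.e (nat_lit 81954) (nat_lit 23) (.e (nat_lit 98321) (nat_lit 17) .nil))) (.g (nat_lit 0) (.e (nat_lit 219540) (nat_lit 0) .nil) .nil)))) (.nd (nat_lit 9) 
(.lf (nat_lit 518604) (.g (nat_lit 2035) (.e (nat_lit 196670) (nat_lit 14) (.e (nat_lit 73753) (nat_lit 8) (.e (nat_lit 557103) (nat_lit 14) (.e (nat_lit 180250) (nat_lit 10) (.e (nat_lit 573473) (nat_lit 12) .nil))))) (.g (nat_lit 0) (.e (nat_lit 219107) (nat_lit 0) .nil) .nil))) 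
(.lf (nat_lit 519116) (.g (nat_lit 3438) (.e (nat_lit 196681) (nat_lit 17) (.e (nat_lit 131105) (nat_lit 9) (.e (nat_lit 336306) (nat_lit 15) (.e (nat_lit 3298) (nat_lit 202) (.e (nat_lit 573481) (nat_lit 13) (.e (nat_lit 65630) (nat_lit 14) (.e (nat_lit 401425) (nat_lit 2) .nil))))))) (.g (nat_lit 1) (.e (nat_lit 220107) (nat_lit 0) .nil) .nil))))))) 
(.nd (nat_lit 6) (.nd (nat_lit 7) (.nd (nat_lit 8) (.nd (nat_lit 9) 
(.lf (nat_lit 518188) (.g (nat_lit 2525) (.e (nat_lit 196668) (nat_lit 14) (.e (nat_lit 73747) (nat_lit 3) (.e (nat_lit 516115) (nat_lit 1) (.e (nat_lit 164179) (nat_lit 154) (.e (nat_lit 57378) (nat_lit 3) .nil))))) (.g (nat_lit 0) (.e (nat_lit 217673) (nat_lit 0) .nil) .nil))) 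
(.lf (nat_lit 518700) (.g (nat_lit 1938) (.e (nat_lit 196670) (nat_lit 14) (.e (nat_lit 73754) (nat_lit 8) (.e (nat_lit 557105) (nat_lit 14) (.e (nat_lit 180252) (nat_lit 10) (.e (nat_lit 573473) (nat_lit 12) .nil))))) (.g (nat_lit 0) (.e (nat_lit 219229) (nat_lit 0) .nil) .nil)))) (.nd (nat_lit 9) 
(.lf (nat_lit 518444) (.g (nat_lit 2152) (.e (nat_lit 196669) (nat_lit 14) (.e (nat_lit 73755) (nat_lit 8) (.e (nat_lit 557105) (nat_lit 14) (.e (nat_lit 180252) (nat_lit 10) (.e (nat_lit 573474) (nat_lit 12) (.e (nat_lit 57506) (nat_lit 39) (.e (nat_lit 655104) (nat_lit 0) (.e (nat_lit 2657) (nat_lit 167) .nil)))))))) (.g (nat_lit 1) (.e (nat_lit 218581) (nat_lit 0) .nil) .nil))) 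
(.lf (nat_lit 518956) (.g (nat_lit 1149) (.e (nat_lit 196672) (nat_lit 15) (.e (nat_lit 81956) (nat_lit 23) (.e (nat_lit 98325) (nat_lit 17) (.e (nat_lit 7015) (nat_lit 377) .nil)))) (.g (nat_lit 0) (.e (nat_lit 219700) (nat_lit 0) .nil) .nil))))) (.nd (nat_lit 8) (.nd (nat_lit 9) 
(.lf (nat_lit 518316) (.g (nat_lit 3335) (.e (nat_lit 196668) (nat_lit 14) (.e (nat_lit 73753) (nat_lit 8) (.e (nat_lit 557103) (nat_lit 14) (.e (nat_lit 180250) (nat_lit 10) (.e (nat_lit 573475) (nat_lit 12) (.e (nat_lit 57507) (nat_lit 39) (.e (nat_lit 655104) (nat_lit 0) (.e (nat_lit 2656) (nat_lit 167) .nil)))))))) (.g (nat_lit 1) (.e (nat_lit 218351) (nat_lit 0) .nil) .nil))) 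
(.lf (nat_lit 518828) (.g (nat_lit 1727) (.e (nat_lit 196672) (nat_lit 15) (.e (nat_lit 89856) (nat_lit 18) (.e (nat_lit 483363) (nat_lit 18) (.e (nat_lit 57927) (nat_lit 282) (.e (nat_lit 163866) (nat_lit 2) .nil))))) (.g (nat_lit 1) (.e (nat_lit 219395) (nat_lit 0) .nil) .nil)))) (.nd (nat_lit 9) 
(.lf (nat_lit 518572) (.g (nat_lit 3454) (.e (nat_lit 196670) (nat_lit 14) (.e (nat_lit 73746) (nat_lit 3) (.e (nat_lit 516131) (nat_lit 3) (.e (nat_lit 221214) (nat_lit 23) (.e (nat_lit 204830) (nat_lit 18) (.e (nat_lit 57930) (nat_lit 282) (.e (nat_lit 163867) (nat_lit 2) .nil))))))) (.g (nat_lit 1) (.e (nat_lit 219035) (nat_lit 0) .nil) .nil))) 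
(.lf (nat_lit 519084) (.g (nat_lit 1988) (.e (nat_lit 204544) (nat_lit 15) (.e (nat_lit 81953) (nat_lit 22) (.e (nat_lit 90134) (nat_lit 9) (.e (nat_lit 2828) (nat_lit 182) (.e (nat_lit 409646) (nat_lit 18) .nil))))) (.g (nat_lit 0) (.e (nat_lit 219919) (nat_lit 0) .nil) .nil)))))) (.nd (nat_lit 7) (.nd (nat_lit 8) (.nd (nat_lit 9) 
(.lf (nat_lit 518252) (.g (nat_lit 3001) (.e (nat_lit 196668) (nat_lit 14) (.e (nat_lit 73747) (nat_lit 3) (.e (nat_lit 516129) (nat_lit 3) (.e (nat_lit 221215) (nat_lit 23) (.e (nat_lit 204828) (nat_lit 18) (.e (nat_lit 57924) (nat_lit 282) (.e (nat_lit 163867) (nat_lit 2) .nil))))))) (.g (nat_lit 1) (.e (nat_lit 218159) (nat_lit 0) .nil) .nil))) 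
(.lf (nat_lit 518764) (.g (nat_lit 3790) (.e (nat_lit 196670) (nat_lit 14) (.e (nat_lit 73754) (nat_lit 8) (.e (nat_lit 557105) (nat_lit 14) (.e (nat_lit 180252) (nat_lit 10) (.e (nat_lit 573503) (nat_lit 18) (.e (nat_lit 1015) (nat_lit 81) (.e (nat_lit 5260) (nat_lit 298) (.e (nat_lit 162) (nat_lit 11) .nil)))))))) (.g (nat_lit 1) (.e (nat_lit 219293) (nat_lit 0) .nil) .nil)))) (.nd (nat_lit 9) 
(.lf (nat_lit 518508) (.g (nat_lit 428) (.e (nat_lit 196670) (nat_lit 14) (.e (nat_lit 73746) (nat_lit 3) (.e (nat_lit 516122) (nat_lit 2) .nil))) (.g (nat_lit 0) (.e (nat_lit 218935) (nat_lit 0) .nil) .nil))) 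
(.lf (nat_lit 519020) (.g (nat_lit 3456) (.e (nat_lit 196674) (nat_lit 15) (.e (nat_lit 81925) (nat_lit 11) (.e (nat_lit 426500) (nat_lit 27) (.e (nat_lit 335986) (nat_lit 1) (.e (nat_lit 57926) (nat_lit 282) (.e (nat_lit 163871) (nat_lit 2) .nil)))))) (.g (nat_lit 1) (.e (nat_lit 219809) (nat_lit 0) .nil) .nil))))) (.nd (nat_lit 8) (.nd (nat_lit 9) 
(.lf (nat_lit 518380) (.g (nat_lit 1750) (.e (nat_lit 196669) (nat_lit 14) (.e (nat_lit 73746) (nat_lit 3) (.e (nat_lit 516115) (nat_lit 1) (.e (nat_lit 164183) (nat_lit 154) .nil)))) (.g (nat_lit 0) (.e (nat_lit 218492) (nat_lit 0) .nil) .nil))) 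
(.lf (nat_lit 518892) (.g (nat_lit 1427) (.e (nat_lit 196672) (nat_lit 15) (.e (nat_lit 81954) (nat_lit 23) (.e (nat_lit 98349) (nat_lit 24) (.e (nat_lit 409614) (nat_lit 10) .nil)))) (.g (nat_lit 0) (.e (nat_lit 219592) (nat_lit 0) .nil) .nil)))) (.nd (nat_lit 9) 
(.lf (nat_lit 518636) (.g (nat_lit 2205) (.e (nat_lit 196670) (nat_lit 14) (.e (nat_lit 73753) (nat_lit 8) (.e (nat_lit 557105) (nat_lit 14) (.e (nat_lit 180252) (nat_lit 10) (.e (nat_lit 573473) (nat_lit 12) (.e (nat_lit 57508) (nat_lit 39) (.e (nat_lit 647170) (nat_lit 0) (.e (nat_lit 2654) (nat_lit 167) .nil)))))))) (.g (nat_lit 1) (.e (nat_lit 219143) (nat_lit 0) .nil) .nil))) 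
(.lf (nat_lit 519148) (.g (nat_lit 1760) (.e (nat_lit 196681) (nat_lit 17) (.e (nat_lit 131109) (nat_lit 9) (.e (nat_lit 336240) (nat_lit 15) (.e (nat_lit 3309) (nat_lit 202) (.e (nat_lit 573483) (nat_lit 13) .nil))))) (.g (nat_lit 0) (.e (nat_lit 220223) (nat_lit 0) .nil) .nil)))))))) (.nd (nat_lit 5) (.nd (nat_lit 6) (.nd (nat_lit 7) (.nd (nat_lit 8) (.nd (nat_lit 9) 
(.lf (nat_lit 518172) (.g (nat_lit 1426) (.e (nat_lit 196668) (nat_lit 14) (.e (nat_lit 73746) (nat_lit 3) (.e (nat_lit 516129) (nat_lit 3) (.e (nat_lit 221215) (nat_lit 23) .nil)))) (.g (nat_lit 0) (.e (nat_lit 217536) (nat_lit 0) .nil) .nil))) 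
(.lf (nat_lit 518684) (.g (nat_lit 374) (.e (nat_lit 196670) (nat_lit 14) (.e (nat_lit 73754) (nat_lit 8) (.e (nat_lit 557103) (nat_lit 14) .nil))) (.g (nat_lit 0) (.e (nat_lit 219210) (nat_lit 0) .nil) .nil)))) (.nd (nat_lit 9) 
(.lf (nat_lit 518428) (.g (nat_lit 2953) (.e (nat_lit 196669) (nat_lit 14) (.e (nat_lit 73755) (nat_lit 8) (.e (nat_lit 557103) (nat_lit 14) (.e (nat_lit 180244) (nat_lit 5) (.e (nat_lit 532503) (nat_lit 1) (.e (nat_lit 65280) (nat_lit 168) (.e (nat_lit 163869) (nat_lit 2) .nil))))))) (.g (nat_lit 1) (.e (nat_lit 218564) (nat_lit 0) .nil) .nil))) 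
(.lf (nat_lit 518940) (.g (nat_lit 400) (.e (nat_lit 196672) (nat_lit 15) (.e (nat_lit 81954) (nat_lit 23) (.e (nat_lit 98367) (nat_lit 27) .nil))) (.g (nat_lit 0) (.e (nat_lit 219665) (nat_lit 0) .nil) .nil))))) (.nd (nat_lit 8) (.nd (nat_lit 9) 
(.lf (nat_lit 518300) (.g (nat_lit 3466) (.e (nat_lit 196668) (nat_lit 14) (.e (nat_lit 73753) (nat_lit 8) (.e (nat_lit 557103) (nat_lit 14) (.e (nat_lit 180244) (nat_lit 5) (.e (nat_lit 532501) (nat_lit 1) (.e (nat_lit 65280) (nat_lit 168) (.e (nat_lit 163868) (nat_lit 2) .nil))))))) (.g (nat_lit 1) (.e (nat_lit 218332) (nat_lit 0) .nil) .nil))) 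
(.lf (nat_lit 518812) (.g (nat_lit 1740) (.e (nat_lit 196672) (nat_lit 15) (.e (nat_lit 81927) (nat_lit 11) (.e (nat_lit 426100) (nat_lit 1) (.e (nat_lit 164183) (nat_lit 154) (.e (nat_lit 65280) (nat_lit 12) .nil))))) (.g (nat_lit 0) (.e (nat_lit 219373) (nat_lit 0) .nil) .nil)))) (.nd (nat_lit 9) 
(.lf (nat_lit 518556) (.g (nat_lit 536) (.e (nat_lit 196670) (nat_lit 14) (.e (nat_lit 73746) (nat_lit 3) (.e (nat_lit 516130) (nat_lit 3) .nil))) (.g (nat_lit 0) (.e (nat_lit 219014) (nat_lit 0) .nil) .nil))) 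
(.lf (nat_lit 519068) (.g (nat_lit 3529) (.e (nat_lit 196674) (nat_lit 15) (.e (nat_lit 81955) (nat_lit 23) (.e (nat_lit 98350) (nat_lit 24) (.e (nat_lit 409646) (nat_lit 18) (.e (nat_lit 303117) (nat_lit 2) .nil))))) (.g (nat_lit 1) (.e (nat_lit 219893) (nat_lit 0) .nil) .nil)))))) (.nd (nat_lit 7) (.nd (nat_lit 8) (.nd (nat_lit 9) 
(.lf (nat_lit 518236) (.g (nat_lit 2527) (.e (nat_lit 196668) (nat_lit 14) (.e (nat_lit 73747) (nat_lit 3) (.e (nat_lit 516129) (nat_lit 3) (.e (nat_lit 221213) (nat_lit 23) (.e (nat_lit 204830) (nat_lit 18) (.e (nat_lit 57927) (nat_lit 282) (.e (nat_lit 163866) (nat_lit 2) .nil))))))) (.g (nat_lit 1) (.e (nat_lit 218136) (nat_lit 0) .nil) .nil))) 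
(.lf (nat_lit 518748) (.g (nat_lit 2356) (.e (nat_lit 196670) (nat_lit 14) (.e (nat_lit 73754) (nat_lit 8) (.e (nat_lit 557105) (nat_lit 14) (.e (nat_lit 180252) (nat_lit 10) (.e (nat_lit 573475) (nat_lit 12) (.e (nat_lit 57507) (nat_lit 39) (.e (nat_lit 647170) (nat_lit 0) (.e (nat_lit 2654) (nat_lit 167) .nil)))))))) (.g (nat_lit 1) (.e (nat_lit 219277) (nat_lit 0) .nil) .nil)))) 
(.nd (nat_lit 9) 
(.lf (nat_lit 518492) (.g (nat_lit 1445) (.e (nat_lit 196670) (nat_lit 14) (.e (nat_lit 73746) (nat_lit 3) (.e (nat_lit 516119) (nat_lit 1) (.e (nat_lit 164182) (nat_lit 154) .nil)))) (.g (nat_lit 0) (.e (nat_lit 218856) (nat_lit 0) .nil) .nil))) 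
(.lf (nat_lit 519004) (.g (nat_lit 2489) (.e (nat_lit 196673) (nat_lit 15) (.e (nat_lit 81962) (nat_lit 25) (.e (nat_lit 139289) (nat_lit 9) (.e (nat_lit 2829) (nat_lit 182) (.e (nat_lit 409649) (nat_lit 18) (.e (nat_lit 303117) (nat_lit 2) .nil)))))) (.g (nat_lit 1) (.e (nat_lit 219782) (nat_lit 0) .nil) .nil))))) (.nd (nat_lit 8) (.nd (nat_lit 9) 
(.lf (nat_lit 518364) (.g (nat_lit 387) (.e (nat_lit 196668) (nat_lit 14) (.e (nat_lit 73782) (nat_lit 32) (.e (nat_lit 2664) (nat_lit 167) .nil))) (.g (nat_lit 0) (.e (nat_lit 218417) (nat_lit 0) .nil) .nil))) 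
(.lf (nat_lit 518876) (.g (nat_lit 673) (.e (nat_lit 196672) (nat_lit 15) (.e (nat_lit 81954) (nat_lit 23) (.e (nat_lit 98325) (nat_lit 17) (.e (nat_lit 6986) (nat_lit 377) .nil)))) (.g (nat_lit 0) (.e (nat_lit 219563) (nat_lit 0) .nil) .nil)))) (.nd (nat_lit 9) 
(.lf (nat_lit 518620) (.g (nat_lit 2917) (.e (nat_lit 196670) (nat_lit 14) (.e (nat_lit 73753) (nat_lit 8) (.e (nat_lit 557104) (nat_lit 14) (.e (nat_lit 180252) (nat_lit 10) (.e (nat_lit 573451) (nat_lit 9) .nil))))) (.g (nat_lit 0) (.e (nat_lit 219124) (nat_lit 0) .nil) .nil))) 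
(.lf (nat_lit 519132) (.g (nat_lit 2914) (.e (nat_lit 196681) (nat_lit 17) (.e (nat_lit 131105) (nat_lit 9) (.e (nat_lit 336454) (nat_lit 34) (.e (nat_lit 483366) (nat_lit 18) (.e (nat_lit 57931) (nat_lit 282) (.e (nat_lit 163869) (nat_lit 2) .nil)))))) (.g (nat_lit 1) (.e (nat_lit 220149) (nat_lit 0) .nil) .nil))))))) (.nd (nat_lit 6) (.nd (nat_lit 7) (.nd (nat_lit 8) (.nd (nat_lit 9) 
(.lf (nat_lit 518204) (.g (nat_lit 1274) (.e (nat_lit 196668) (nat_lit 14) (.e (nat_lit 73747) (nat_lit 3) (.e (nat_lit 516117) (nat_lit 1) (.e (nat_lit 164182) (nat_lit 154) (.e (nat_lit 57379) (nat_lit 3) .nil))))) (.g (nat_lit 0) (.e (nat_lit 217849) (nat_lit 0) .nil) .nil))) 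
(.lf (nat_lit 518716) (.g (nat_lit 3051) (.e (nat_lit 196670) (nat_lit 14) (.e (nat_lit 73754) (nat_lit 8) (.e (nat_lit 557105) (nat_lit 14) (.e (nat_lit 180252) (nat_lit 10) (.e (nat_lit 573473) (nat_lit 12) (.e (nat_lit 57508) (nat_lit 39) (.e (nat_lit 647175) (nat_lit 0) (.e (nat_lit 2665) (nat_lit 167) .nil)))))))) (.g (nat_lit 1) (.e (nat_lit 219245) (nat_lit 0) .nil) .nil)))) 
(.nd (nat_lit 9) 
(.lf (nat_lit 518460) (.g (nat_lit 1752) (.e (nat_lit 196670) (nat_lit 14) (.e (nat_lit 73746) (nat_lit 3) (.e (nat_lit 516115) (nat_lit 1) (.e (nat_lit 164149) (nat_lit 152) .nil)))) (.g (nat_lit 0) (.e (nat_lit 218616) (nat_lit 0) .nil) .nil))) 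
(.lf (nat_lit 518972) (.g (nat_lit 1557) (.e (nat_lit 196672) (nat_lit 15) (.e (nat_lit 81956) (nat_lit 23) (.e (nat_lit 98388) (nat_lit 33) (.e (nat_lit 491572) (nat_lit 14) .nil)))) (.g (nat_lit 0) (.e (nat_lit 219720) (nat_lit 0) .nil) .nil))))) (.nd (nat_lit 8) (.nd (nat_lit 9) 
(.lf (nat_lit 518332) (.g (nat_lit 2823) (.e (nat_lit 196668) (nat_lit 14) (.e (nat_lit 73753) (nat_lit 8) (.e (nat_lit 557104) (nat_lit 14) (.e (nat_lit 180252) (nat_lit 10) (.e (nat_lit 573475) (nat_lit 12) .nil))))) (.g (nat_lit 0) (.e (nat_lit 218370) (nat_lit 0) .nil) .nil))) 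
(.lf (nat_lit 518844) (.g (nat_lit 3302) (.e (nat_lit 196672) (nat_lit 15) (.e (nat_lit 81951) (nat_lit 22) (.e (nat_lit 90165) (nat_lit 12) (.e (nat_lit 164208) (nat_lit 176) (.e (nat_lit 2819) (nat_lit 181) (.e (nat_lit 311312) (nat_lit 2) .nil)))))) (.g (nat_lit 1) (.e (nat_lit 219470) (nat_lit 0) .nil) .nil)))) (.nd (nat_lit 9) 
(.lf (nat_lit 518588) (.g (nat_lit 2887) (.e (nat_lit 196670) (nat_lit 14) (.e (nat_lit 73746) (nat_lit 3) (.e (nat_lit 516131) (nat_lit 3) (.e (nat_lit 221215) (nat_lit 23) (.e (nat_lit 204840) (nat_lit 21) (.e (nat_lit 123228) (nat_lit 282) (.e (nat_lit 163867) (nat_lit 2) .nil))))))) (.g (nat_lit 1) (.e (nat_lit 219051) (nat_lit 0) .nil) .nil))) 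
(.lf (nat_lit 519100) (.g (nat_lit 3323) (.e (nat_lit 196681) (nat_lit 17) (.e (nat_lit 131098) (nat_lit 3) (.e (nat_lit 98333) (nat_lit 18) (.e (nat_lit 164179) (nat_lit 154) (.e (nat_lit 57377) (nat_lit 3) (.e (nat_lit 98341) (nat_lit 20) (.e (nat_lit 221212) (nat_lit 22) .nil))))))) (.g (nat_lit 1) (.e (nat_lit 220077) (nat_lit 0) .nil) .nil)))))) 
(.nd (nat_lit 7) (.nd (nat_lit 8) (.nd (nat_lit 9) 
(.lf (nat_lit 518268) (.g (nat_lit 2111) (.e (nat_lit 196668) (nat_lit 14) (.e (nat_lit 73747) (nat_lit 3) (.e (nat_lit 516130) (nat_lit 3) (.e (nat_lit 221215) (nat_lit 23) (.e (nat_lit 204829) (nat_lit 18) (.e (nat_lit 57927) (nat_lit 282) (.e (nat_lit 163866) (nat_lit 2) .nil))))))) (.g (nat_lit 1) (.e (nat_lit 218178) (nat_lit 0) .nil) .nil))) 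
(.lf (nat_lit 518780) (.g (nat_lit 320) (.e (nat_lit 196670) (nat_lit 14) (.e (nat_lit 73781) (nat_lit 32) (.e (nat_lit 2664) (nat_lit 167) .nil))) (.g (nat_lit 0) (.e (nat_lit 219321) (nat_lit 0) .nil) .nil)))) (.nd (nat_lit 9) 
(.lf (nat_lit 518524) (.g (nat_lit 3114) (.e (nat_lit 196670) (nat_lit 14) (.e (nat_lit 73746) (nat_lit 3) (.e (nat_lit 516129) (nat_lit 3) (.e (nat_lit 221213) (nat_lit 23) (.e (nat_lit 204829) (nat_lit 18) (.e (nat_lit 57927) (nat_lit 282) (.e (nat_lit 163871) (nat_lit 2) .nil))))))) (.g (nat_lit 1) (.e (nat_lit 218982) (nat_lit 0) .nil) .nil))) 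
(.lf (nat_lit 519036) (.g (nat_lit 159) (.e (nat_lit 196674) (nat_lit 15) (.e (nat_lit 81946) (nat_lit 20) (.e (nat_lit 1858) (nat_lit 124) .nil))) (.g (nat_lit 0) (.e (nat_lit 219827) (nat_lit 0) .nil) .nil))))) (.nd (nat_lit 8) (.nd (nat_lit 9) 
(.lf (nat_lit 518396) (.g (nat_lit 2627) (.e (nat_lit 196669) (nat_lit 14) (.e (nat_lit 73747) (nat_lit 3) (.e (nat_lit 516115) (nat_lit 1) (.e (nat_lit 164182) (nat_lit 154) (.e (nat_lit 57379) (nat_lit 3) (.e (nat_lit 98342) (nat_lit 20) (.e (nat_lit 221212) (nat_lit 22) .nil))))))) (.g (nat_lit 1) (.e (nat_lit 218508) (nat_lit 0) .nil) .nil))) 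
(.lf (nat_lit 518908) (.g (nat_lit 2373) (.e (nat_lit 196672) (nat_lit 15) (.e (nat_lit 81954) (nat_lit 23) (.e (nat_lit 98350) (nat_lit 24) (.e (nat_lit 409614) (nat_lit 10) (.e (nat_lit 7936) (nat_lit 312) (.e (nat_lit 2656) (nat_lit 167) .nil)))))) (.g (nat_lit 1) (.e (nat_lit 219608) (nat_lit 0) .nil) .nil)))) (.nd (nat_lit 9) 
(.lf (nat_lit 518652) (.g (nat_lit 3601) (.e (nat_lit 196670) (nat_lit 14) (.e (nat_lit 73753) (nat_lit 8) (.e (nat_lit 557105) (nat_lit 14) (.e (nat_lit 180252) (nat_lit 10) (.e (nat_lit 573474) (nat_lit 12) (.e (nat_lit 57507) (nat_lit 39) (.e (nat_lit 647170) (nat_lit 0) (.e (nat_lit 2662) (nat_lit 167) .nil)))))))) (.g (nat_lit 1) (.e (nat_lit 219159) (nat_lit 0) .nil) .nil))) 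
(.lf (nat_lit 519164) (.g (nat_lit 1923) (.e (nat_lit 196681) (nat_lit 17) (.e (nat_lit 131109) (nat_lit 9) (.e (nat_lit 336324) (nat_lit 18) (.e (nat_lit 204837) (nat_lit 20) (.e (nat_lit 122624) (nat_lit 11) (.e (nat_lit 426116) (nat_lit 2) .nil)))))) (.g (nat_lit 1) (.e (nat_lit 220256) (nat_lit 0) .nil) .nil))))))))))) 
(.nd (nat_lit 2) (.nd (nat_lit 3) (.nd (nat_lit 4) (.nd (nat_lit 5) (.nd (nat_lit 6) 
(.nd (nat_lit 7) (.nd (nat_lit 8) (.nd (nat_lit 9) 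
(.lf (nat_lit 518146) (.g (nat_lit 2566) (.e (nat_lit 196668) (nat_lit 14) (.e (nat_lit 73746) (nat_lit 3) (.e (nat_lit 516119) (nat_lit 1) (.e (nat_lit 164179) (nat_lit 154) (.e (nat_lit 57376) (nat_lit 3) .nil))))) (.g (nat_lit 0) (.e (nat_lit 217440) (nat_lit 0) .nil) .nil))) 
(.lf (nat_lit 518658) (.g (nat_lit 2645) (.e (nat_lit 196670) (nat_lit 14) (.e (nat_lit 73753) (nat_lit 8) (.e (nat_lit 557105) (nat_lit 14) (.e (nat_lit 180252) (nat_lit 10) (.e (nat_lit 573474) (nat_lit 12) (.e (nat_lit 57508) (nat_lit 39) (.e (nat_lit 647168) (nat_lit 0) (.e (nat_lit 2667) (nat_lit 167) .nil)))))))) (.g (nat_lit 1) (.e (nat_lit 219165) (nat_lit 0) .nil) .nil)))) 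
(.nd (nat_lit 9) 
(.lf (nat_lit 518402) (.g (nat_lit 1665) (.e (nat_lit 196669) (nat_lit 14) (.e (nat_lit 73747) (nat_lit 3) (.e (nat_lit 516119) (nat_lit 1) (.e (nat_lit 164179) (nat_lit 154) .nil)))) (.g (nat_lit 0) (.e (nat_lit 218514) (nat_lit 0) .nil) .nil))) 
(.lf (nat_lit 518914) (.g (nat_lit 3468) (.e (nat_lit 196672) (nat_lit 15) (.e (nat_lit 81954) (nat_lit 23) (.e (nat_lit 98350) (nat_lit 24) (.e (nat_lit 409616) (nat_lit 10) (.e (nat_lit 7936) (nat_lit 312) (.e (nat_lit 2665) (nat_lit 167) .nil)))))) (.g (nat_lit 1) (.e (nat_lit 219615) (nat_lit 0) .nil) .nil))))) (.nd (nat_lit 8) (.nd (nat_lit 9) 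
(.lf (nat_lit 518274) (.g (nat_lit 3055) (.e (nat_lit 196668) (nat_lit 14) (.e (nat_lit 73747) (nat_lit 3) (.e (nat_lit 516131) (nat_lit 3) (.e (nat_lit 221214) (nat_lit 23) (.e (nat_lit 204829) (nat_lit 18) (.e (nat_lit 57930) (nat_lit 282) (.e (nat_lit 163867) (nat_lit 2) .nil))))))) (.g (nat_lit 1) (.e (nat_lit 218195) (nat_lit 0) .nil) .nil))) 
(.lf (nat_lit 518786) (.g (nat_lit 2014) (.e (nat_lit 196670) (nat_lit 14) (.e (nat_lit 73781) (nat_lit 32) (.e (nat_lit 2682) (nat_lit 168) (.e (nat_lit 204846) (nat_lit 24) (.e (nat_lit 319491) (nat_lit 0) (.e (nat_lit 5664) (nat_lit 312) (.e (nat_lit 2661) (nat_lit 167) .nil))))))) (.g (nat_lit 1) (.e (nat_lit 219330) (nat_lit 0) .nil) .nil)))) (.nd (nat_lit 9) 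
(.lf (nat_lit 518530) (.g (nat_lit 2963) (.e (nat_lit 196670) (nat_lit 14) (.e (nat_lit 73746) (nat_lit 3) (.e (nat_lit 516129) (nat_lit 3) (.e (nat_lit 221214) (nat_lit 23) (.e (nat_lit 204828) (nat_lit 18) (.e (nat_lit 57931) (nat_lit 282) (.e (nat_lit 163867) (nat_lit 2) .nil))))))) (.g (nat_lit 1) (.e (nat_lit 218988) (nat_lit 0) .nil) .nil))) 
(.lf (nat_lit 519042) (.g (nat_lit 2084) (.e (nat_lit 196674) (nat_lit 15) (.e (nat_lit 81946) (nat_lit 20) (.e (nat_lit 1858) (nat_lit 124) (.e (nat_lit 557090) (nat_lit 12) (.e (nat_lit 164020) (nat_lit 45) .nil))))) (.g (nat_lit 0) (.e (nat_lit 219837) (nat_lit 0) .nil) .nil)))))) (.nd (nat_lit 7) (.nd (nat_lit 8) (.nd (nat_lit 9) 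
(.lf (nat_lit 518210) (.g (nat_lit 2160) (.e (nat_lit 196668) (nat_lit 14) (.e (nat_lit 73747) (nat_lit 3) (.e (nat_lit 516119) (nat_lit 1) (.e (nat_lit 164151) (nat_lit 152) (.e (nat_lit 1285) (nat_lit 95) .nil))))) (.g (nat_lit 0) (.e (nat_lit 217929) (nat_lit 0) .nil) .nil))) 
(.lf (nat_lit 518722) (.g (nat_lit 3463) (.e (nat_lit 196670) (nat_lit 14) (.e (nat_lit 73754) (nat_lit 8) (.e (nat_lit 557105) (nat_lit 14) (.e (nat_lit 180252) (nat_lit 10) (.e (nat_lit 573473) (nat_lit 12) (.e (nat_lit 57511) (nat_lit 39) (.e (nat_lit 647171) (nat_lit 0) (.e (nat_lit 2655) (nat_lit 167) .nil)))))))) (.g (nat_lit 1) (.e (nat_lit 219251) (nat_lit 0) .nil) .nil)))) 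
(.nd (nat_lit 9) 
(.lf (nat_lit 518466) (.g (nat_lit 2600) (.e (nat_lit 196670) (nat_lit 14) (.e (nat_lit 73746) (nat_lit 3) (.e (nat_lit 516115) (nat_lit 1) (.e (nat_lit 164179) (nat_lit 154) (.e (nat_lit 57378) (nat_lit 3) .nil))))) (.g (nat_lit 0) (.e (nat_lit 218670) (nat_lit 0) .nil) .nil))) 
(.lf (nat_lit 518978) (.g (nat_lit 500) (.e (nat_lit 196673) (nat_lit 15) (.e (nat_lit 81938) (nat_lit 20) (.e (nat_lit 1842) (nat_lit 123) .nil))) (.g (nat_lit 0) (.e (nat_lit 219736) (nat_lit 0) .nil) .nil))))) (.nd (nat_lit 8) (.nd (nat_lit 9) 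
(.lf (nat_lit 518338) (.g (nat_lit 3242) (.e (nat_lit 196668) (nat_lit 14) (.e (nat_lit 73753) (nat_lit 8) (.e (nat_lit 557105) (nat_lit 14) (.e (nat_lit 180252) (nat_lit 10) (.e (nat_lit 573473) (nat_lit 12) (.e (nat_lit 57508) (nat_lit 39) (.e (nat_lit 647175) (nat_lit 0) (.e (nat_lit 2667) (nat_lit 167) .nil)))))))) (.g (nat_lit 1) (.e (nat_lit 218377) (nat_lit 0) .nil) .nil))) 
(.lf (nat_lit 518850) (.g (nat_lit 1194) (.e (nat_lit 196672) (nat_lit 15) (.e (nat_lit 81953) (nat_lit 22) (.e (nat_lit 90133) (nat_lit 9) (.e (nat_lit 7936) (nat_lit 182) .nil)))) (.g (nat_lit 0) (.e (nat_lit 219515) (nat_lit 0) .nil) .nil)))) (.nd (nat_lit 9) 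
(.lf (nat_lit 518594) (.g (nat_lit 1407) (.e (nat_lit 196670) (nat_lit 14) (.e (nat_lit 73753) (nat_lit 8) (.e (nat_lit 557098) (nat_lit 13) (.e (nat_lit 172140) (nat_lit 22) .nil)))) (.g (nat_lit 0) (.e (nat_lit 219076) (nat_lit 0) .nil) .nil))) 
(.lf (nat_lit 519106) (.g (nat_lit 2722) (.e (nat_lit 196681) (nat_lit 17) (.e (nat_lit 131098) (nat_lit 3) (.e (nat_lit 98334) (nat_lit 18) (.e (nat_lit 164182) (nat_lit 154) (.e (nat_lit 57378) (nat_lit 3) (.e (nat_lit 98340) (nat_lit 20) (.e (nat_lit 221212) (nat_lit 22) .nil))))))) (.g (nat_lit 1) (.e (nat_lit 220086) (nat_lit 0) .nil) .nil))))))) 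
(.nd (nat_lit 6) (.nd (nat_lit 7) (.nd (nat_lit 8) (.nd (nat_lit 9) 
(.lf (nat_lit 518178) (.g (nat_lit 2561) (.e (nat_lit 196668) (nat_lit 14) (.e (nat_lit 73747) (nat_lit 3) (.e (nat_lit 516115) (nat_lit 1) (.e (nat_lit 164151) (nat_lit 152) (.e (nat_lit 974) (nat_lit 81) (.e (nat_lit 1256) (nat_lit 92) (.e (nat_lit 98321) (nat_lit 17) (.e (nat_lit 3771) (nat_lit 229) (.e (nat_lit 794669) (nat_lit 22) .nil))))))))) (.g (nat_lit 1) (.e (nat_lit 217562) (nat_lit 0) .nil) .nil))) 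
(.lf (nat_lit 518690) (.g (nat_lit 1093) (.e (nat_lit 196670) (nat_lit 14) (.e (nat_lit 73754) (nat_lit 8) (.e (nat_lit 557105) (nat_lit 14) (.e (nat_lit 180251) (nat_lit 10) .nil)))) (.g (nat_lit 0) (.e (nat_lit 219218) (nat_lit 0) .nil) .nil)))) (.nd (nat_lit 9) 
(.lf (nat_lit 518434) (.g (nat_lit 3120) (.e (nat_lit 196669) (nat_lit 14) (.e (nat_lit 73755) (nat_lit 8) (.e (nat_lit 557104) (nat_lit 14) (.e (nat_lit 180244) (nat_lit 5) (.e (nat_lit 532503) (nat_lit 1) (.e (nat_lit 65280) (nat_lit 168) (.e (nat_lit 163869) (nat_lit 2) .nil))))))) (.g (nat_lit 1) (.e (nat_lit 218570) (nat_lit 0) .nil) .nil))) 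
(.lf (nat_lit 518946) (.g (nat_lit 1239) (.e (nat_lit 196672) (nat_lit 15) (.e (nat_lit 81955) (nat_lit 23) (.e (nat_lit 98350) (nat_lit 24) (.e (nat_lit 409643) (nat_lit 18) .nil)))) (.g (nat_lit 0) (.e (nat_lit 219688) (nat_lit 0) .nil) .nil))))) (.nd (nat_lit 8) (.nd (nat_lit 9) 
(.lf (nat_lit 518306) (.g (nat_lit 3176) (.e (nat_lit 196668) (nat_lit 14) (.e (nat_lit 73753) (nat_lit 8) (.e (nat_lit 557103) (nat_lit 14) (.e (nat_lit 180250) (nat_lit 10) (.e (nat_lit 573473) (nat_lit 12) (.e (nat_lit 57508) (nat_lit 39) (.e (nat_lit 647175) (nat_lit 0) (.e (nat_lit 2657) (nat_lit 167) .nil)))))))) (.g (nat_lit 1) (.e (nat_lit 218341) (nat_lit 0) .nil) .nil))) 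
(.lf (nat_lit 518818) (.g (nat_lit 2499) (.e (nat_lit 196672) (nat_lit 15) (.e (nat_lit 81927) (nat_lit 11) (.e (nat_lit 426500) (nat_lit 27) (.e (nat_lit 335986) (nat_lit 1) (.e (nat_lit 57924) (nat_lit 282) (.e (nat_lit 163868) (nat_lit 2) .nil)))))) (.g (nat_lit 1) (.e (nat_lit 219385) (nat_lit 0) .nil) .nil)))) (.nd (nat_lit 9) 
(.lf (nat_lit 518562) (.g (nat_lit 1495) (.e (nat_lit 196670) (nat_lit 14) (.e (nat_lit 73746) (nat_lit 3) (.e (nat_lit 516131) (nat_lit 3) (.e (nat_lit 221212) (nat_lit 22) (.e (nat_lit 196659) (nat_lit 12) .nil))))) (.g (nat_lit 0) (.e (nat_lit 219022) (nat_lit 0) .nil) .nil))) 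
(.lf (nat_lit 519074) (.g (nat_lit 2603) (.e (nat_lit 196674) (nat_lit 15) (.e (nat_lit 81956) (nat_lit 23) (.e (nat_lit 98349) (nat_lit 24) (.e (nat_lit 409649) (nat_lit 18) (.e (nat_lit 303117) (nat_lit 2) .nil))))) (.g (nat_lit 0) (.e (nat_lit 219900) (nat_lit 0) .nil) .nil)))))) (.nd (nat_lit 7) (.nd (nat_lit 8) (.nd (nat_lit 9) 
(.lf (nat_lit 518242) (.g (nat_lit 4354) (.e (nat_lit 196668) (nat_lit 14) (.e (nat_lit 73747) (nat_lit 3) (.e (nat_lit 516129) (nat_lit 3) (.e (nat_lit 221214) (nat_lit 23) (.e (nat_lit 204829) (nat_lit 18) (.e (nat_lit 57927) (nat_lit 282) (.e (nat_lit 163866) (nat_lit 2) .nil))))))) (.g (nat_lit 1) (.e (nat_lit 218143) (nat_lit 0) .nil) .nil))) 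
(.lf (nat_lit 518754) (.g (nat_lit 2399) (.e (nat_lit 196670) (nat_lit 14) (.e (nat_lit 73754) (nat_lit 8) (.e (nat_lit 557105) (nat_lit 14) (.e (nat_lit 180252) (nat_lit 10) (.e (nat_lit 573475) (nat_lit 12) (.e (nat_lit 57508) (nat_lit 39) (.e (nat_lit 647176) (nat_lit 0) (.e (nat_lit 2665) (nat_lit 167) .nil)))))))) (.g (nat_lit 1) (.e (nat_lit 219283) (nat_lit 0) .nil) .nil)))) 
(.nd (nat_lit 9) 
(.lf (nat_lit 518498) (.g (nat_lit 2748) (.e (nat_lit 196670) (nat_lit 14) (.e (nat_lit 73746) (nat_lit 3) (.e (nat_lit 516119) (nat_lit 1) (.e (nat_lit 164183) (nat_lit 154) (.e (nat_lit 57379) (nat_lit 3) (.e (nat_lit 98341) (nat_lit 20) (.e (nat_lit 221212) (nat_lit 22) .nil))))))) (.g (nat_lit 1) (.e (nat_lit 218865) (nat_lit 0) .nil) .nil))) 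
(.lf (nat_lit 519010) (.g (nat_lit 1888) (.e (nat_lit 196674) (nat_lit 15) (.e (nat_lit 81922) (nat_lit 0) (.e (nat_lit 3305) (nat_lit 202) (.e (nat_lit 573487) (nat_lit 14) (.e (nat_lit 81664) (nat_lit 32) (.e (nat_lit 2661) (nat_lit 167) .nil)))))) (.g (nat_lit 1) (.e (nat_lit 219796) (nat_lit 0) .nil) .nil))))) (.nd (nat_lit 8) (.nd (nat_lit 9) 
(.lf (nat_lit 518370) (.g (nat_lit 1806) (.e (nat_lit 196668) (nat_lit 14) (.e (nat_lit 73782) (nat_lit 32) (.e (nat_lit 2664) (nat_lit 167) (.e (nat_lit 196681) (nat_lit 17) (.e (nat_lit 131129) (nat_lit 14) .nil))))) (.g (nat_lit 0) (.e (nat_lit 218429) (nat_lit 0) .nil) .nil))) 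
(.lf (nat_lit 518882) (.g (nat_lit 1378) (.e (nat_lit 196672) (nat_lit 15) (.e (nat_lit 81954) (nat_lit 23) (.e (nat_lit 98325) (nat_lit 17) (.e (nat_lit 7112) (nat_lit 381) (.e (nat_lit 229684) (nat_lit 246) (.e (nat_lit 7936) (nat_lit 167) .nil)))))) (.g (nat_lit 1) (.e (nat_lit 219576) (nat_lit 0) .nil) .nil)))) (.nd (nat_lit 9) 
(.lf (nat_lit 518626) (.g (nat_lit 2272) (.e (nat_lit 196670) (nat_lit 14) (.e (nat_lit 73753) (nat_lit 8) (.e (nat_lit 557105) (nat_lit 14) (.e (nat_lit 180252) (nat_lit 10) (.e (nat_lit 573449) (nat_lit 9) .nil))))) (.g (nat_lit 0) (.e (nat_lit 219132) (nat_lit 0) .nil) .nil))) 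
(.lf (nat_lit 519138) (.g (nat_lit 2107) (.e (nat_lit 196681) (nat_lit 17) (.e (nat_lit 131109) (nat_lit 9) (.e (nat_lit 336019) (nat_lit 3) (.e (nat_lit 98350) (nat_lit 24) (.e (nat_lit 409616) (nat_lit 10) .nil))))) (.g (nat_lit 0) (.e (nat_lit 220196) (nat_lit 0) .nil) .nil)))))))) (.nd (nat_lit 5) (.nd (nat_lit 6) (.nd (nat_lit 7) (.nd (nat_lit 8) (.nd (nat_lit 9) 
(.lf (nat_lit 518162) (.g (nat_lit 1609) (.e (nat_lit 196668) (nat_lit 14) (.e (nat_lit 73746) (nat_lit 3) (.e (nat_lit 516120) (nat_lit 1) (.e (nat_lit 164182) (nat_lit 154) .nil)))) (.g (nat_lit 0) (.e (nat_lit 217463) (nat_lit 0) .nil) .nil))) 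
(.lf (nat_lit 518674) (.g (nat_lit 3480) (.e (nat_lit 196670) (nat_lit 14) (.e (nat_lit 73753) (nat_lit 8) (.e (nat_lit 557105) (nat_lit 14) (.e (nat_lit 180252) (nat_lit 10) (.e (nat_lit 573475) (nat_lit 12) (.e (nat_lit 57507) (nat_lit 39) (.e (nat_lit 655104) (nat_lit 0) (.e (nat_lit 2657) (nat_lit 167) .nil)))))))) (.g (nat_lit 1) (.e (nat_lit 219181) (nat_lit 0) .nil) .nil)))) 
(.nd (nat_lit 9) 
(.lf (nat_lit 518418) (.g (nat_lit 1732) (.e (nat_lit 196669) (nat_lit 14) (.e (nat_lit 73754) (nat_lit 8) (.e (nat_lit 557105) (nat_lit 14) (.e (nat_lit 180252) (nat_lit 10) (.e (nat_lit 573475) (nat_lit 12) .nil))))) (.g (nat_lit 0) (.e (nat_lit 218536) (nat_lit 0) .nil) .nil))) 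
(.lf (nat_lit 518930) (.g (nat_lit 380) (.e (nat_lit 196672) (nat_lit 15) (.e (nat_lit 81954) (nat_lit 23) (.e (nat_lit 98353) (nat_lit 25) .nil))) (.g (nat_lit 0) (.e (nat_lit 219635) (nat_lit 0) .nil) .nil))))) (.nd (nat_lit 8) (.nd (nat_lit 9) 
(.lf (nat_lit 518290) (.g (nat_lit 3651) (.e (nat_lit 196668) (nat_lit 14) (.e (nat_lit 73747) (nat_lit 3) (.e (nat_lit 516131) (nat_lit 3) (.e (nat_lit 221215) (nat_lit 23) (.e (nat_lit 204831) (nat_lit 18) (.e (nat_lit 57931) (nat_lit 282) (.e (nat_lit 163866) (nat_lit 2) .nil))))))) (.g (nat_lit 1) (.e (nat_lit 218233) (nat_lit 0) .nil) .nil))) 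
(.lf (nat_lit 518802) (.g (nat_lit 1764) (.e (nat_lit 196672) (nat_lit 15) (.e (nat_lit 81924) (nat_lit 0) (.e (nat_lit 3305) (nat_lit 202) (.e (nat_lit 573488) (nat_lit 14) (.e (nat_lit 73781) (nat_lit 32) .nil))))) (.g (nat_lit 0) (.e (nat_lit 219359) (nat_lit 0) .nil) .nil)))) (.nd (nat_lit 9) 
(.lf (nat_lit 518546) (.g (nat_lit 2800) (.e (nat_lit 196670) (nat_lit 14) (.e (nat_lit 73746) (nat_lit 3) (.e (nat_lit 516129) (nat_lit 3) (.e (nat_lit 221215) (nat_lit 23) (.e (nat_lit 204828) (nat_lit 18) (.e (nat_lit 57929) (nat_lit 282) (.e (nat_lit 163869) (nat_lit 2) .nil))))))) (.g (nat_lit 1) (.e (nat_lit 219004) (nat_lit 0) .nil) .nil))) 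
(.lf (nat_lit 519058) (.g (nat_lit 3272) (.e (nat_lit 196674) (nat_lit 15) (.e (nat_lit 81954) (nat_lit 23) (.e (nat_lit 98350) (nat_lit 24) (.e (nat_lit 409650) (nat_lit 19) (.e (nat_lit 311311) (nat_lit 2) .nil))))) (.g (nat_lit 0) (.e (nat_lit 219882) (nat_lit 0) .nil) .nil)))))) (.nd (nat_lit 7) (.nd (nat_lit 8) (.nd (nat_lit 9) 
(.lf (nat_lit 518226) (.g (nat_lit 3564) (.e (nat_lit 196668) (nat_lit 14) (.e (nat_lit 73747) (nat_lit 3) (.e (nat_lit 516120) (nat_lit 1) (.e (nat_lit 164182) (nat_lit 154) (.e (nat_lit 57379) (nat_lit 3) (.e (nat_lit 98340) (nat_lit 20) (.e (nat_lit 221212) (nat_lit 22) .nil))))))) (.g (nat_lit 1) (.e (nat_lit 218050) (nat_lit 0) .nil) .nil))) 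
(.lf (nat_lit 518738) (.g (nat_lit 3523) (.e (nat_lit 196670) (nat_lit 14) (.e (nat_lit 73754) (nat_lit 8) (.e (nat_lit 557105) (nat_lit 14) (.e (nat_lit 180252) (nat_lit 10) (.e (nat_lit 573474) (nat_lit 12) (.e (nat_lit 57509) (nat_lit 39) (.e (nat_lit 647172) (nat_lit 0) (.e (nat_lit 2663) (nat_lit 167) .nil)))))))) (.g (nat_lit 1) (.e (nat_lit 219267) (nat_lit 0) .nil) .nil)))) 
(.nd (nat_lit 9) 
(.lf (nat_lit 518482) (.g (nat_lit 4006) (.e (nat_lit 196670) (nat_lit 14) (.e (nat_lit 73746) (nat_lit 3) (.e (nat_lit 516117) (nat_lit 1) (.e (nat_lit 164183) (nat_lit 154) (.e (nat_lit 57379) (nat_lit 3) (.e (nat_lit 98341) (nat_lit 20) (.e (nat_lit 221212) (nat_lit 22) .nil))))))) (.g (nat_lit 1) (.e (nat_lit 218796) (nat_lit 0) .nil) .nil))) 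
(.lf (nat_lit 518994) (.g (nat_lit 1107) (.e (nat_lit 196673) (nat_lit 15) (.e (nat_lit 81956) (nat_lit 23) (.e (nat_lit 98331) (nat_lit 17) .nil))) (.g (nat_lit 0) (.e (nat_lit 219769) (nat_lit 0) .nil) .nil))))) (.nd (nat_lit 8) (.nd (nat_lit 9) 
(.lf (nat_lit 518354) (.g (nat_lit 2472) (.e (nat_lit 196668) (nat_lit 14) (.e (nat_lit 73753) (nat_lit 8) (.e (nat_lit 557105) (nat_lit 14) (.e (nat_lit 180252) (nat_lit 10) (.e (nat_lit 573503) (nat_lit 18) .nil))))) (.g (nat_lit 0) (.e (nat_lit 218394) (nat_lit 0) .nil) .nil))) 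
(.lf (nat_lit 518866) (.g (nat_lit 1565) (.e (nat_lit 196672) (nat_lit 15) (.e (nat_lit 81954) (nat_lit 23) (.e (nat_lit 98323) (nat_lit 17) (.e (nat_lit 7099) (nat_lit 380) (.e (nat_lit 164354) (nat_lit 246) (.e (nat_lit 7936) (nat_lit 167) .nil)))))) (.g (nat_lit 1) (.e (nat_lit 219550) (nat_lit 0) .nil) .nil)))) (.nd (nat_lit 9) 
(.lf (nat_lit 518610) (.g (nat_lit 3165) (.e (nat_lit 196670) (nat_lit 14) (.e (nat_lit 73753) (nat_lit 8) (.e (nat_lit 557103) (nat_lit 14) (.e (nat_lit 180250) (nat_lit 10) (.e (nat_lit 573474) (nat_lit 12) (.e (nat_lit 57507) (nat_lit 39) (.e (nat_lit 655104) (nat_lit 0) (.e (nat_lit 2657) (nat_lit 167) .nil)))))))) (.g (nat_lit 1) (.e (nat_lit 219113) (nat_lit 0) .nil) .nil))) 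
(.lf (nat_lit 519122) (.g (nat_lit 1823) (.e (nat_lit 196681) (nat_lit 17) (.e (nat_lit 131105) (nat_lit 9) (.e (nat_lit 336324) (nat_lit 18) (.e (nat_lit 204838) (nat_lit 20) (.e (nat_lit 114696) (nat_lit 11) .nil))))) (.g (nat_lit 0) (.e (nat_lit 220117) (nat_lit 0) .nil) .nil))))))) (.nd (nat_lit 6) (.nd (nat_lit 7) (.nd (nat_lit 8) (.nd (nat_lit 9) 
(.lf (nat_lit 518194) (.g (nat_lit 5362) (.e (nat_lit 196668) (nat_lit 14) (.e (nat_lit 73747) (nat_lit 3) (.e (nat_lit 516115) (nat_lit 1) (.e (nat_lit 164182) (nat_lit 154) (.e (nat_lit 57379) (nat_lit 3) (.e (nat_lit 98341) (nat_lit 20) (.e (nat_lit 221210) (nat_lit 22) .nil))))))) (.g (nat_lit 1) (.e (nat_lit 217754) (nat_lit 0) .nil) .nil))) 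
(.lf (nat_lit 518706) (.g (nat_lit 3396) (.e (nat_lit 196670) (nat_lit 14) (.e (nat_lit 73754) (nat_lit 8) (.e (nat_lit 557105) (nat_lit 14) (.e (nat_lit 180252) (nat_lit 10) (.e (nat_lit 573473) (nat_lit 12) (.e (nat_lit 57507) (nat_lit 39) (.e (nat_lit 655104) (nat_lit 0) (.e (nat_lit 2656) (nat_lit 167) .nil)))))))) (.g (nat_lit 1) (.e (nat_lit 219235) (nat_lit 0) .nil) .nil)))) 
(.nd (nat_lit 9) 
(.lf (nat_lit 518450) (.g (nat_lit 2503) (.e (nat_lit 196669) (nat_lit 14) (.e (nat_lit 73755) (nat_lit 8) (.e (nat_lit 557105) (nat_lit 14) (.e (nat_lit 180252) (nat_lit 10) (.e (nat_lit 573474) (nat_lit 12) (.e (nat_lit 57508) (nat_lit 39) (.e (nat_lit 655104) (nat_lit 0) (.e (nat_lit 2656) (nat_lit 167) .nil)))))))) (.g (nat_lit 1) (.e (nat_lit 218587) (nat_lit 0) .nil) .nil))) 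
(.lf (nat_lit 518962) (.g (nat_lit 1849) (.e (nat_lit 196672) (nat_lit 15) (.e (nat_lit 81956) (nat_lit 23) (.e (nat_lit 98350) (nat_lit 24) (.e (nat_lit 409616) (nat_lit 10) .nil)))) (.g (nat_lit 0) (.e (nat_lit 219706) (nat_lit 0) .nil) .nil))))) (.nd (nat_lit 8) (.nd (nat_lit 9) 
(.lf (nat_lit 518322) (.g (nat_lit 3162) (.e (nat_lit 196668) (nat_lit 14) (.e (nat_lit 73753) (nat_lit 8) (.e (nat_lit 557104) (nat_lit 14) (.e (nat_lit 180244) (nat_lit 5) (.e (nat_lit 532499) (nat_lit 1) (.e (nat_lit 65280) (nat_lit 168) (.e (nat_lit 163871) (nat_lit 2) .nil))))))) (.g (nat_lit 1) (.e (nat_lit 218359) (nat_lit 0) .nil) .nil))) 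
(.lf (nat_lit 518834) (.g (nat_lit 467) (.e (nat_lit 196672) (nat_lit 15) (.e (nat_lit 81946) (nat_lit 20) (.e (nat_lit 1858) (nat_lit 124) .nil))) (.g (nat_lit 0) (.e (nat_lit 219451) (nat_lit 0) .nil) .nil)))) (.nd (nat_lit 9) 
(.lf (nat_lit 518578) (.g (nat_lit 2219) (.e (nat_lit 196670) (nat_lit 14) (.e (nat_lit 73746) (nat_lit 3) (.e (nat_lit 516131) (nat_lit 3) (.e (nat_lit 221215) (nat_lit 23) (.e (nat_lit 204827) (nat_lit 17) .nil))))) (.g (nat_lit 0) (.e (nat_lit 219041) (nat_lit 0) .nil) .nil))) 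
(.lf (nat_lit 519090) (.g (nat_lit 3777) (.e (nat_lit 196681) (nat_lit 17) (.e (nat_lit 131096) (nat_lit 3) (.e (nat_lit 98333) (nat_lit 18) (.e (nat_lit 164179) (nat_lit 154) (.e (nat_lit 57379) (nat_lit 3) (.e (nat_lit 98342) (nat_lit 20) (.e (nat_lit 221212) (nat_lit 22) .nil))))))) (.g (nat_lit 1) (.e (nat_lit 220053) (nat_lit 0) .nil) .nil)))))) 
(.nd (nat_lit 7) (.nd (nat_lit 8) (.nd (nat_lit 9) 
(.lf (nat_lit 518258) (.g (nat_lit 3578) (.e (nat_lit 196668) (nat_lit 14) (.e (nat_lit 73747) (nat_lit 3) (.e (nat_lit 516129) (nat_lit 3) (.e (nat_lit 221215) (nat_lit 23) (.e (nat_lit 204829) (nat_lit 18) (.e (nat_lit 57930) (nat_lit 282) (.e (nat_lit 163867) (nat_lit 2) .nil))))))) (.g (nat_lit 1) (.e (nat_lit 218165) (nat_lit 0) .nil) .nil))) 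
(.lf (nat_lit 518770) (.g (nat_lit 3456) (.e (nat_lit 196670) (nat_lit 14) (.e (nat_lit 73754) (nat_lit 8) (.e (nat_lit 557105) (nat_lit 14) (.e (nat_lit 180252) (nat_lit 10) (.e (nat_lit 581376) (nat_lit 19) (.e (nat_lit 57883) (nat_lit 270) (.e (nat_lit 162) (nat_lit 11) .nil))))))) (.g (nat_lit 1) (.e (nat_lit 219299) (nat_lit 0) .nil) .nil)))) (.nd (nat_lit 9) 
(.lf (nat_lit 518514) (.g (nat_lit 1356) (.e (nat_lit 196670) (nat_lit 14) (.e (nat_lit 73746) (nat_lit 3) (.e (nat_lit 516129) (nat_lit 3) (.e (nat_lit 221196) (nat_lit 20) .nil)))) (.g (nat_lit 0) (.e (nat_lit 218964) (nat_lit 0) .nil) .nil))) 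
(.lf (nat_lit 519026) (.g (nat_lit 3388) (.e (nat_lit 196674) (nat_lit 15) (.e (nat_lit 81925) (nat_lit 11) (.e (nat_lit 426500) (nat_lit 27) (.e (nat_lit 335988) (nat_lit 1) (.e (nat_lit 57926) (nat_lit 282) (.e (nat_lit 163871) (nat_lit 2) .nil)))))) (.g (nat_lit 1) (.e (nat_lit 219815) (nat_lit 0) .nil) .nil))))) (.nd (nat_lit 8) (.nd (nat_lit 9) 
(.lf (nat_lit 518386) (.g (nat_lit 1881) (.e (nat_lit 196669) (nat_lit 14) (.e (nat_lit 73747) (nat_lit 3) (.e (nat_lit 516115) (nat_lit 1) (.e (nat_lit 164179) (nat_lit 154) .nil)))) (.g (nat_lit 0) (.e (nat_lit 218498) (nat_lit 0) .nil) .nil))) 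
(.lf (nat_lit 518898) (.g (nat_lit 2579) (.e (nat_lit 196672) (nat_lit 15) (.e (nat_lit 81954) (nat_lit 23) (.e (nat_lit 98349) (nat_lit 24) (.e (nat_lit 409648) (nat_lit 18) (.e (nat_lit 303117) (nat_lit 2) .nil))))) (.g (nat_lit 0) (.e (nat_lit 219598) (nat_lit 0) .nil) .nil)))) (.nd (nat_lit 9) 
(.lf (nat_lit 518642) (.g (nat_lit 2361) (.e (nat_lit 196670) (nat_lit 14) (.e (nat_lit 73753) (nat_lit 8) (.e (nat_lit 557105) (nat_lit 14) (.e (nat_lit 180252) (nat_lit 10) (.e (nat_lit 573473) (nat_lit 12) (.e (nat_lit 57509) (nat_lit 39) (.e (nat_lit 655104) (nat_lit 0) (.e (nat_lit 2667) (nat_lit 167) .nil)))))))) (.g (nat_lit 1) (.e (nat_lit 219149) (nat_lit 0) .nil) .nil))) 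
(.lf (nat_lit 519154) (.g (nat_lit 2331) (.e (nat_lit 196681) (nat_lit 17) (.e (nat_lit 131109) (nat_lit 9) (.e (nat_lit 336324) (nat_lit 18) (.e (nat_lit 204837) (nat_lit 20) (.e (nat_lit 114694) (nat_lit 11) (.e (nat_lit 426124) (nat_lit 2) .nil)))))) (.g (nat_lit 1) (.e (nat_lit 220246) (nat_lit 0) .nil) .nil))))))))) 
(.nd (nat_lit 4) (.nd (nat_lit 5) (.nd (nat_lit 6) (.nd (nat_lit 7) (.nd (nat_lit 8) 
(.nd (nat_lit 9) 
(.lf (nat_lit 518154) (.g (nat_lit 2445) (.e (nat_lit 196668) (nat_lit 14) (.e (nat_lit 73746) (nat_lit 3) (.e (nat_lit 516119) (nat_lit 1) (.e (nat_lit 164183) (nat_lit 154) (.e (nat_lit 57379) (nat_lit 3) .nil))))) (.g (nat_lit 0) (.e (nat_lit 217452) (nat_lit 0) .nil) .nil))) 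
(.lf (nat_lit 518666) (.g (nat_lit 4435) (.e (nat_lit 196670) (nat_lit 14) (.e (nat_lit 73753) (nat_lit 8) (.e (nat_lit 557105) (nat_lit 14) (.e (nat_lit 180252) (nat_lit 10) (.e (nat_lit 573474) (nat_lit 12) (.e (nat_lit 57510) (nat_lit 39) (.e (nat_lit 647173) (nat_lit 0) (.e (nat_lit 2663) (nat_lit 167) .nil)))))))) (.g (nat_lit 1) (.e (nat_lit 219173) (nat_lit 0) .nil) .nil)))) 
(.nd (nat_lit 9) 
(.lf (nat_lit 518410) (.g (nat_lit 1588) (.e (nat_lit 196669) (nat_lit 14) (.e (nat_lit 73754) (nat_lit 8) (.e (nat_lit 557105) (nat_lit 14) (.e (nat_lit 180245) (nat_lit 5) .nil)))) (.g (nat_lit 0) (.e (nat_lit 218528) (nat_lit 0) .nil) .nil))) 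
(.lf (nat_lit 518922) (.g (nat_lit 2864) (.e (nat_lit 196672) (nat_lit 15) (.e (nat_lit 81954) (nat_lit 23) (.e (nat_lit 98350) (nat_lit 24) (.e (nat_lit 409622) (nat_lit 10) .nil)))) (.g (nat_lit 0) (.e (nat_lit 219624) (nat_lit 0) .nil) .nil))))) (.nd (nat_lit 8) (.nd (nat_lit 9) 
(.lf (nat_lit 518282) (.g (nat_lit 3136) (.e (nat_lit 196668) (nat_lit 14) (.e (nat_lit 73747) (nat_lit 3) (.e (nat_lit 516131) (nat_lit 3) (.e (nat_lit 221215) (nat_lit 23) (.e (nat_lit 204829) (nat_lit 18) (.e (nat_lit 57924) (nat_lit 282) (.e (nat_lit 163867) (nat_lit 2) .nil))))))) (.g (nat_lit 1) (.e (nat_lit 218225) (nat_lit 0) .nil) .nil))) 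
(.lf (nat_lit 518794) (.g (nat_lit 1700) (.e (nat_lit 196671) (nat_lit 15) (.e (nat_lit 81956) (nat_lit 23) (.e (nat_lit 98389) (nat_lit 33) (.e (nat_lit 491526) (nat_lit 0) .nil)))) (.g (nat_lit 0) (.e (nat_lit 219345) (nat_lit 0) .nil) .nil)))) (.nd (nat_lit 9) 
(.lf (nat_lit 518538) (.g (nat_lit 3941) (.e (nat_lit 196670) (nat_lit 14) (.e (nat_lit 73746) (nat_lit 3) (.e (nat_lit 516129) (nat_lit 3) (.e (nat_lit 221214) (nat_lit 23) (.e (nat_lit 204830) (nat_lit 18) (.e (nat_lit 57930) (nat_lit 282) (.e (nat_lit 163869) (nat_lit 2) .nil))))))) (.g (nat_lit 1) (.e (nat_lit 218996) (nat_lit 0) .nil) .nil))) 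
(.lf (nat_lit 519050) (.g (nat_lit 375) (.e (nat_lit 196674) (nat_lit 15) (.e (nat_lit 81947) (nat_lit 20) (.e (nat_lit 1842) (nat_lit 123) .nil))) (.g (nat_lit 0) (.e (nat_lit 219863) (nat_lit 0) .nil) .nil)))))) (.nd (nat_lit 7) (.nd (nat_lit 8) (.nd (nat_lit 9) 
(.lf (nat_lit 518218) (.g (nat_lit 3817) (.e (nat_lit 196668) (nat_lit 14) (.e (nat_lit 73747) (nat_lit 3) (.e (nat_lit 516119) (nat_lit 1) (.e (nat_lit 164182) (nat_lit 154) (.e (nat_lit 57379) (nat_lit 3) (.e (nat_lit 98341) (nat_lit 20) (.e (nat_lit 221212) (nat_lit 22) .nil))))))) (.g (nat_lit 1) (.e (nat_lit 218019) (nat_lit 0) .nil) .nil))) 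
(.lf (nat_lit 518730) (.g (nat_lit 3793) (.e (nat_lit 196670) (nat_lit 14) (.e (nat_lit 73754) (nat_lit 8) (.e (nat_lit 557105) (nat_lit 14) (.e (nat_lit 180252) (nat_lit 10) (.e (nat_lit 573474) (nat_lit 12) (.e (nat_lit 57507) (nat_lit 39) (.e (nat_lit 647176) (nat_lit 0) (.e (nat_lit 2667) (nat_lit 167) .nil)))))))) (.g (nat_lit 1) (.e (nat_lit 219259) (nat_lit 0) .nil) .nil)))) 
(.nd (nat_lit 9) 
(.lf (nat_lit 518474) (.g (nat_lit 2846) (.e (nat_lit 196670) (nat_lit 14) (.e (nat_lit 73746) (nat_lit 3) (.e (nat_lit 516116) (nat_lit 1) (.e (nat_lit 164182) (nat_lit 154) (.e (nat_lit 57379) (nat_lit 3) (.e (nat_lit 98342) (nat_lit 20) (.e (nat_lit 221210) (nat_lit 22) .nil))))))) (.g (nat_lit 1) (.e (nat_lit 218738) (nat_lit 0) .nil) .nil))) 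
(.lf (nat_lit 518986) (.g (nat_lit 1479) (.e (nat_lit 196673) (nat_lit 15) (.e (nat_lit 81954) (nat_lit 23) (.e (nat_lit 98349) (nat_lit 24) (.e (nat_lit 417536) (nat_lit 18) .nil)))) (.g (nat_lit 0) (.e (nat_lit 219761) (nat_lit 0) .nil) .nil))))) (.nd (nat_lit 8) (.nd (nat_lit 9) 
(.lf (nat_lit 518346) (.g (nat_lit 3804) (.e (nat_lit 196668) (nat_lit 14) (.e (nat_lit 73753) (nat_lit 8) (.e (nat_lit 557105) (nat_lit 14) (.e (nat_lit 180252) (nat_lit 10) (.e (nat_lit 573474) (nat_lit 12) (.e (nat_lit 57508) (nat_lit 39) (.e (nat_lit 647175) (nat_lit 0) (.e (nat_lit 2667) (nat_lit 167) .nil)))))))) (.g (nat_lit 1) (.e (nat_lit 218385) (nat_lit 0) .nil) .nil))) 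
(.lf (nat_lit 518858) (.g (nat_lit 1874) (.e (nat_lit 196672) (nat_lit 15) (.e (nat_lit 81954) (nat_lit 23) (.e (nat_lit 98320) (nat_lit 17) (.e (nat_lit 7109) (nat_lit 380) (.e (nat_lit 164360) (nat_lit 246) (.e (nat_lit 2654) (nat_lit 167) .nil)))))) (.g (nat_lit 1) (.e (nat_lit 219537) (nat_lit 0) .nil) .nil)))) (.nd (nat_lit 9) 
(.lf (nat_lit 518602) (.g (nat_lit 1120) (.e (nat_lit 196670) (nat_lit 14) (.e (nat_lit 73753) (nat_lit 8) (.e (nat_lit 557103) (nat_lit 14) (.e (nat_lit 180244) (nat_lit 5) .nil)))) (.g (nat_lit 0) (.e (nat_lit 219101) (nat_lit 0) .nil) .nil))) 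
(.lf (nat_lit 519114) (.g (nat_lit 1677) (.e (nat_lit 196681) (nat_lit 17) (.e (nat_lit 131105) (nat_lit 9) (.e (nat_lit 336019) (nat_lit 3) (.e (nat_lit 98350) (nat_lit 24) (.e (nat_lit 409649) (nat_lit 18) (.e (nat_lit 311040) (nat_lit 2) .nil)))))) (.g (nat_lit 1) (.e (nat_lit 220102) (nat_lit 0) .nil) .nil))))))) (.nd (nat_lit 6) (.nd (nat_lit 7) (.nd (nat_lit 8) (.nd (nat_lit 9) 
(.lf (nat_lit 518186) (.g (nat_lit 2545) (.e (nat_lit 196668) (nat_lit 14) (.e (nat_lit 73747) (nat_lit 3) (.e (nat_lit 516115) (nat_lit 1) (.e (nat_lit 164179) (nat_lit 154) (.e (nat_lit 57376) (nat_lit 3) .nil))))) (.g (nat_lit 0) (.e (nat_lit 217656) (nat_lit 0) .nil) .nil))) 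
(.lf (nat_lit 518698) (.g (nat_lit 2296) (.e (nat_lit 196670) (nat_lit 14) (.e (nat_lit 73754) (nat_lit 8) (.e (nat_lit 557105) (nat_lit 14) (.e (nat_lit 180252) (nat_lit 10) (.e (nat_lit 573452) (nat_lit 9) .nil))))) (.g (nat_lit 0) (.e (nat_lit 219227) (nat_lit 0) .nil) .nil)))) (.nd (nat_lit 9) 
(.lf (nat_lit 518442) (.g (nat_lit 2088) (.e (nat_lit 196669) (nat_lit 14) (.e (nat_lit 73755) (nat_lit 8) (.e (nat_lit 557105) (nat_lit 14) (.e (nat_lit 180252) (nat_lit 10) (.e (nat_lit 573474) (nat_lit 12) (.e (nat_lit 57506) (nat_lit 39) (.e (nat_lit 647175) (nat_lit 0) (.e (nat_lit 2657) (nat_lit 167) .nil)))))))) (.g (nat_lit 1) (.e (nat_lit 218579) (nat_lit 0) .nil) .nil))) 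
(.lf (nat_lit 518954) (.g (nat_lit 983) (.e (nat_lit 196672) (nat_lit 15) (.e (nat_lit 81956) (nat_lit 23) (.e (nat_lit 98322) (nat_lit 17) .nil))) (.g (nat_lit 0) (.e (nat_lit 219698) (nat_lit 0) .nil) .nil))))) (.nd (nat_lit 8) (.nd (nat_lit 9) 
(.lf (nat_lit 518314) (.g (nat_lit 3854) (.e (nat_lit 196668) (nat_lit 14) (.e (nat_lit 73753) (nat_lit 8) (.e (nat_lit 557103) (nat_lit 14) (.e (nat_lit 180250) (nat_lit 10) (.e (nat_lit 573474) (nat_lit 12) (.e (nat_lit 57508) (nat_lit 39) (.e (nat_lit 655104) (nat_lit 0) (.e (nat_lit 2667) (nat_lit 167) .nil)))))))) (.g (nat_lit 1) (.e (nat_lit 218349) (nat_lit 0) .nil) .nil))) 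
(.lf (nat_lit 518826) (.g (nat_lit 2583) (.e (nat_lit 196672) (nat_lit 15) (.e (nat_lit 81927) (nat_lit 11) (.e (nat_lit 426500) (nat_lit 27) (.e (nat_lit 335996) (nat_lit 1) (.e (nat_lit 57924) (nat_lit 282) (.e (nat_lit 163868) (nat_lit 2) .nil)))))) (.g (nat_lit 1) (.e (nat_lit 219393) (nat_lit 0) .nil) .nil)))) (.nd (nat_lit 9) 
(.lf (nat_lit 518570) (.g (nat_lit 3167) (.e (nat_lit 196670) (nat_lit 14) (.e (nat_lit 73746) (nat_lit 3) (.e (nat_lit 516131) (nat_lit 3) (.e (nat_lit 221214) (nat_lit 23) (.e (nat_lit 204829) (nat_lit 18) (.e (nat_lit 57930) (nat_lit 282) (.e (nat_lit 163867) (nat_lit 2) .nil))))))) (.g (nat_lit 1) (.e (nat_lit 219033) (nat_lit 0) .nil) .nil))) 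
(.lf (nat_lit 519082) (.g (nat_lit 1834) (.e (nat_lit 196674) (nat_lit 15) (.e (nat_lit 81956) (nat_lit 23) (.e (nat_lit 98388) (nat_lit 33) (.e (nat_lit 491572) (nat_lit 14) .nil)))) (.g (nat_lit 0) (.e (nat_lit 219911) (nat_lit 0) .nil) .nil)))))) (.nd (nat_lit 7) (.nd (nat_lit 8) (.nd (nat_lit 9) 
(.lf (nat_lit 518250) (.g (nat_lit 4141) (.e (nat_lit 196668) (nat_lit 14) (.e (nat_lit 73747) (nat_lit 3) (.e (nat_lit 516129) (nat_lit 3) (.e (nat_lit 221214) (nat_lit 23) (.e (nat_lit 204831) (nat_lit 18) (.e (nat_lit 57931) (nat_lit 282) (.e (nat_lit 163866) (nat_lit 2) .nil))))))) (.g (nat_lit 1) (.e (nat_lit 218151) (nat_lit 0) .nil) .nil))) 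
(.lf (nat_lit 518762) (.g (nat_lit 1946) (.e (nat_lit 196670) (nat_lit 14) (.e (nat_lit 73754) (nat_lit 8) (.e (nat_lit 557105) (nat_lit 14) (.e (nat_lit 180252) (nat_lit 10) (.e (nat_lit 573503) (nat_lit 18) .nil))))) (.g (nat_lit 0) (.e (nat_lit 219291) (nat_lit 0) .nil) .nil)))) (.nd (nat_lit 9) 
(.lf (nat_lit 518506) (.g (nat_lit 1113) (.e (nat_lit 196670) (nat_lit 14) (.e (nat_lit 73746) (nat_lit 3) (.e (nat_lit 516120) (nat_lit 1) (.e (nat_lit 164183) (nat_lit 154) .nil)))) (.g (nat_lit 0) (.e (nat_lit 218891) (nat_lit 0) .nil) .nil))) 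
(.lf (nat_lit 519018) (.g (nat_lit 1774) (.e (nat_lit 196674) (nat_lit 15) (.e (nat_lit 81925) (nat_lit 11) (.e (nat_lit 426108) (nat_lit 1) (.e (nat_lit 164183) (nat_lit 154) (.e (nat_lit 65280) (nat_lit 12) .nil))))) (.g (nat_lit 0) (.e (nat_lit 219804) (nat_lit 0) .nil) .nil))))) (.nd (nat_lit 8) (.nd (nat_lit 9) 
(.lf (nat_lit 518378) (.g (nat_lit 2018) (.e (nat_lit 196669) (nat_lit 14) (.e (nat_lit 73745) (nat_lit 3) (.e (nat_lit 516119) (nat_lit 1) (.e (nat_lit 164179) (nat_lit 154) (.e (nat_lit 57347) (nat_lit 0) .nil))))) (.g (nat_lit 0) (.e (nat_lit 218490) (nat_lit 0) .nil) .nil))) 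
(.lf (nat_lit 518890) (.g (nat_lit 1741) (.e (nat_lit 196672) (nat_lit 15) (.e (nat_lit 81954) (nat_lit 23) (.e (nat_lit 98349) (nat_lit 24) (.e (nat_lit 409612) (nat_lit 10) .nil)))) (.g (nat_lit 0) (.e (nat_lit 219590) (nat_lit 0) .nil) .nil)))) (.nd (nat_lit 9) 
(.lf (nat_lit 518634) (.g (nat_lit 3697) (.e (nat_lit 196670) (nat_lit 14) (.e (nat_lit 73753) (nat_lit 8) (.e (nat_lit 557105) (nat_lit 14) (.e (nat_lit 180252) (nat_lit 10) (.e (nat_lit 573473) (nat_lit 12) (.e (nat_lit 57507) (nat_lit 39) (.e (nat_lit 655104) (nat_lit 0) (.e (nat_lit 2657) (nat_lit 167) .nil)))))))) (.g (nat_lit 1) (.e (nat_lit 219141) (nat_lit 0) .nil) .nil))) 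
(.lf (nat_lit 519146) (.g (nat_lit 2451) (.e (nat_lit 196681) (nat_lit 17) (.e (nat_lit 131109) (nat_lit 9) (.e (nat_lit 336019) (nat_lit 3) (.e (nat_lit 98350) (nat_lit 24) (.e (nat_lit 409649) (nat_lit 18) (.e (nat_lit 311040) (nat_lit 2) .nil)))))) (.g (nat_lit 1) (.e (nat_lit 220209) (nat_lit 0) .nil) .nil)))))))) 
(.nd (nat_lit 5) (.nd (nat_lit 6) (.nd (nat_lit 7) (.nd (nat_lit 8) (.nd (nat_lit 9) 
(.lf (nat_lit 518170) (.g (nat_lit 2925) (.e (nat_lit 196668) (nat_lit 14) (.e (nat_lit 73746) (nat_lit 3) (.e (nat_lit 516129) (nat_lit 3) (.e (nat_lit 221214) (nat_lit 23) (.e (nat_lit 204830) (nat_lit 18) (.e (nat_lit 57927) (nat_lit 282) (.e (nat_lit 163866) (nat_lit 2) .nil))))))) (.g (nat_lit 1) (.e (nat_lit 217533) (nat_lit 0) .nil) .nil))) 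
(.lf (nat_lit 518682) (.g (nat_lit 3488) (.e (nat_lit 196670) (nat_lit 14) (.e (nat_lit 73753) (nat_lit 8) (.e (nat_lit 557105) (nat_lit 14) (.e (nat_lit 180252) (nat_lit 10) (.e (nat_lit 573505) (nat_lit 18) (.e (nat_lit 7936) (nat_lit 81) (.e (nat_lit 5259) (nat_lit 298) (.e (nat_lit 162) (nat_lit 11) .nil)))))))) (.g (nat_lit 1) (.e (nat_lit 219189) (nat_lit 0) .nil) .nil)))) (.nd (nat_lit 9) 
(.lf (nat_lit 518426) (.g (nat_lit 1932) (.e (nat_lit 196669) (nat_lit 14) (.e (nat_lit 73755) (nat_lit 8) (.e (nat_lit 557103) (nat_lit 14) (.e (nat_lit 180243) (nat_lit 5) .nil)))) (.g (nat_lit 0) (.e (nat_lit 218562) (nat_lit 0) .nil) .nil))) 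
(.lf (nat_lit 518938) (.g (nat_lit 1497) (.e (nat_lit 196672) (nat_lit 15) (.e (nat_lit 81954) (nat_lit 23) (.e (nat_lit 98359) (nat_lit 26) (.e (nat_lit 426103) (nat_lit 1) .nil)))) (.g (nat_lit 0) (.e (nat_lit 219657) (nat_lit 0) .nil) .nil))))) (.nd (nat_lit 8) (.nd (nat_lit 9) 
(.lf (nat_lit 518298) (.g (nat_lit 4569) (.e (nat_lit 196668) (nat_lit 14) (.e (nat_lit 73753) (nat_lit 8) (.e (nat_lit 557103) (nat_lit 14) (.e (nat_lit 180244) (nat_lit 5) (.e (nat_lit 532499) (nat_lit 1) (.e (nat_lit 65280) (nat_lit 168) (.e (nat_lit 163867) (nat_lit 2) .nil))))))) (.g (nat_lit 1) (.e (nat_lit 218330) (nat_lit 0) .nil) .nil))) 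
(.lf (nat_lit 518810) (.g (nat_lit 2085) (.e (nat_lit 196672) (nat_lit 15) (.e (nat_lit 81927) (nat_lit 11) (.e (nat_lit 426100) (nat_lit 1) (.e (nat_lit 164182) (nat_lit 154) (.e (nat_lit 57411) (nat_lit 12) .nil))))) (.g (nat_lit 0) (.e (nat_lit 219371) (nat_lit 0) .nil) .nil)))) (.nd (nat_lit 9) 
(.lf (nat_lit 518554) (.g (nat_lit 3809) (.e (nat_lit 196670) (nat_lit 14) (.e (nat_lit 73746) (nat_lit 3) (.e (nat_lit 516129) (nat_lit 3) (.e (nat_lit 221215) (nat_lit 23) (.e (nat_lit 204830) (nat_lit 18) (.e (nat_lit 57930) (nat_lit 282) (.e (nat_lit 163869) (nat_lit 2) .nil))))))) (.g (nat_lit 1) (.e (nat_lit 219012) (nat_lit 0) .nil) .nil))) 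
(.lf (nat_lit 519066) (.g (nat_lit 2820) (.e (nat_lit 196674) (nat_lit 15) (.e (nat_lit 81955) (nat_lit 23) (.e (nat_lit 98350) (nat_lit 24) (.e (nat_lit 409623) (nat_lit 10) (.e (nat_lit 5664) (nat_lit 312) (.e (nat_lit 2661) (nat_lit 167) .nil)))))) (.g (nat_lit 1) (.e (nat_lit 219891) (nat_lit 0) .nil) .nil)))))) (.nd (nat_lit 7) (.nd (nat_lit 8) (.nd (nat_lit 9) 
(.lf (nat_lit 518234) (.g (nat_lit 419) (.e (nat_lit 196668) (nat_lit 14) (.e (nat_lit 73747) (nat_lit 3) (.e (nat_lit 516129) (nat_lit 3) .nil))) (.g (nat_lit 0) (.e (nat_lit 218104) (nat_lit 0) .nil) .nil))) 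
(.lf (nat_lit 518746) (.g (nat_lit 3325) (.e (nat_lit 196670) (nat_lit 14) (.e (nat_lit 73754) (nat_lit 8) (.e (nat_lit 557105) (nat_lit 14) (.e (nat_lit 180252) (nat_lit 10) (.e (nat_lit 573475) (nat_lit 12) (.e (nat_lit 57506) (nat_lit 39) (.e (nat_lit 647175) (nat_lit 0) (.e (nat_lit 2667) (nat_lit 167) .nil)))))))) (.g (nat_lit 1) (.e (nat_lit 219275) (nat_lit 0) .nil) .nil)))) 
(.nd (nat_lit 9) 
(.lf (nat_lit 518490) (.g (nat_lit 3105) (.e (nat_lit 196670) (nat_lit 14) (.e (nat_lit 73746) (nat_lit 3) (.e (nat_lit 516119) (nat_lit 1) (.e (nat_lit 164180) (nat_lit 154) (.e (nat_lit 57378) (nat_lit 3) (.e (nat_lit 98341) (nat_lit 20) (.e (nat_lit 221212) (nat_lit 22) .nil))))))) (.g (nat_lit 1) (.e (nat_lit 218854) (nat_lit 0) .nil) .nil))) 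
(.lf (nat_lit 519002) (.g (nat_lit 2478) (.e (nat_lit 196673) (nat_lit 15) (.e (nat_lit 81962) (nat_lit 25) (.e (nat_lit 139289) (nat_lit 9) (.e (nat_lit 2829) (nat_lit 182) (.e (nat_lit 409644) (nat_lit 18) (.e (nat_lit 303117) (nat_lit 2) .nil)))))) (.g (nat_lit 1) (.e (nat_lit 219780) (nat_lit 0) .nil) .nil))))) (.nd (nat_lit 8) (.nd (nat_lit 9) 
(.lf (nat_lit 518362) (.g (nat_lit 1562) (.e (nat_lit 196668) (nat_lit 14) (.e (nat_lit 73781) (nat_lit 32) (.e (nat_lit 2664) (nat_lit 167) (.e (nat_lit 196670) (nat_lit 14) (.e (nat_lit 73781) (nat_lit 32) .nil))))) (.g (nat_lit 0) (.e (nat_lit 218406) (nat_lit 0) .nil) .nil))) 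
(.lf (nat_lit 518874) (.g (nat_lit 1662) (.e (nat_lit 196672) (nat_lit 15) (.e (nat_lit 81954) (nat_lit 23) (.e (nat_lit 98323) (nat_lit 17) (.e (nat_lit 7114) (nat_lit 381) (.e (nat_lit 229684) (nat_lit 246) (.e (nat_lit 7936) (nat_lit 167) .nil)))))) (.g (nat_lit 1) (.e (nat_lit 219561) (nat_lit 0) .nil) .nil)))) (.nd (nat_lit 9) 
(.lf (nat_lit 518618) (.g (nat_lit 1534) (.e (nat_lit 196670) (nat_lit 14) (.e (nat_lit 73753) (nat_lit 8) (.e (nat_lit 557104) (nat_lit 14) (.e (nat_lit 188160) (nat_lit 3) .nil)))) (.g (nat_lit 0) (.e (nat_lit 219122) (nat_lit 0) .nil) .nil))) 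
(.lf (nat_lit 519130) (.g (nat_lit 1682) (.e (nat_lit 196681) (nat_lit 17) (.e (nat_lit 131105) (nat_lit 9) (.e (nat_lit 336454) (nat_lit 34) (.e (nat_lit 483362) (nat_lit 18) (.e (nat_lit 57927) (nat_lit 282) (.e (nat_lit 163868) (nat_lit 2) .nil)))))) (.g (nat_lit 1) (.e (nat_lit 220146) (nat_lit 0) .nil) .nil))))))) (.nd (nat_lit 6) (.nd (nat_lit 7) (.nd (nat_lit 8) (.nd (nat_lit 9) 
(.lf (nat_lit 518202) (.g (nat_lit 1353) (.e (nat_lit 196668) (nat_lit 14) (.e (nat_lit 73747) (nat_lit 3) (.e (nat_lit 516117) (nat_lit 1) (.e (nat_lit 164180) (nat_lit 154) .nil)))) (.g (nat_lit 0) (.e (nat_lit 217829) (nat_lit 0) .nil) .nil))) 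
(.lf (nat_lit 518714) (.g (nat_lit 2630) (.e (nat_lit 196670) (nat_lit 14) (.e (nat_lit 73754) (nat_lit 8) (.e (nat_lit 557105) (nat_lit 14) (.e (nat_lit 180252) (nat_lit 10) (.e (nat_lit 573473) (nat_lit 12) (.e (nat_lit 57508) (nat_lit 39) (.e (nat_lit 647176) (nat_lit 0) (.e (nat_lit 2665) (nat_lit 167) .nil)))))))) (.g (nat_lit 1) (.e (nat_lit 219243) (nat_lit 0) .nil) .nil)))) 
(.nd (nat_lit 9) 
(.lf (nat_lit 518458) (.g (nat_lit 2151) (.e (nat_lit 196669) (nat_lit 14) (.e (nat_lit 73782) (nat_lit 32) (.e (nat_lit 2682) (nat_lit 168) (.e (nat_lit 204846) (nat_lit 24) (.e (nat_lit 319491) (nat_lit 0) .nil))))) (.g (nat_lit 0) (.e (nat_lit 218605) (nat_lit 0) .nil) .nil))) 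
(.lf (nat_lit 518970) (.g (nat_lit 1505) (.e (nat_lit 196672) (nat_lit 15) (.e (nat_lit 81956) (nat_lit 23) (.e (nat_lit 98353) (nat_lit 25) (.e (nat_lit 417817) (nat_lit 10) .nil)))) (.g (nat_lit 0) (.e (nat_lit 219714) (nat_lit 0) .nil) .nil))))) (.nd (nat_lit 8) (.nd (nat_lit 9) 
(.lf (nat_lit 518330) (.g (nat_lit 3248) (.e (nat_lit 196668) (nat_lit 14) (.e (nat_lit 73753) (nat_lit 8) (.e (nat_lit 557104) (nat_lit 14) (.e (nat_lit 180252) (nat_lit 10) (.e (nat_lit 573474) (nat_lit 12) (.e (nat_lit 57508) (nat_lit 39) (.e (nat_lit 655104) (nat_lit 0) (.e (nat_lit 2667) (nat_lit 167) .nil)))))))) (.g (nat_lit 1) (.e (nat_lit 218368) (nat_lit 0) .nil) .nil))) 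
(.lf (nat_lit 518842) (.g (nat_lit 433) (.e (nat_lit 196672) (nat_lit 15) (.e (nat_lit 81951) (nat_lit 22) (.e (nat_lit 90165) (nat_lit 12) .nil))) (.g (nat_lit 0) (.e (nat_lit 219468) (nat_lit 0) .nil) .nil)))) (.nd (nat_lit 9) 
(.lf (nat_lit 518586) (.g (nat_lit 5205) (.e (nat_lit 196670) (nat_lit 14) (.e (nat_lit 73746) (nat_lit 3) (.e (nat_lit 516131) (nat_lit 3) (.e (nat_lit 221215) (nat_lit 23) (.e (nat_lit 204830) (nat_lit 18) (.e (nat_lit 57931) (nat_lit 282) (.e (nat_lit 163869) (nat_lit 2) .nil))))))) (.g (nat_lit 1) (.e (nat_lit 219049) (nat_lit 0) .nil) .nil))) 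
(.lf (nat_lit 519098) (.g (nat_lit 1878) (.e (nat_lit 196681) (nat_lit 17) (.e (nat_lit 131096) (nat_lit 3) (.e (nat_lit 98335) (nat_lit 18) (.e (nat_lit 164183) (nat_lit 154) (.e (nat_lit 57379) (nat_lit 3) .nil))))) (.g (nat_lit 0) (.e (nat_lit 220065) (nat_lit 0) .nil) .nil)))))) (.nd (nat_lit 7) (.nd (nat_lit 8) (.nd (nat_lit 9) 
(.lf (nat_lit 518266) (.g (nat_lit 2921) (.e (nat_lit 196668) (nat_lit 14) (.e (nat_lit 73747) (nat_lit 3) (.e (nat_lit 516130) (nat_lit 3) (.e (nat_lit 221214) (nat_lit 23) (.e (nat_lit 204830) (nat_lit 18) (.e (nat_lit 57927) (nat_lit 282) (.e (nat_lit 163868) (nat_lit 2) .nil))))))) (.g (nat_lit 1) (.e (nat_lit 218175) (nat_lit 0) .nil) .nil))) 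
(.lf (nat_lit 518778) (.g (nat_lit 3962) (.e (nat_lit 196670) (nat_lit 14) (.e (nat_lit 73755) (nat_lit 8) (.e (nat_lit 557105) (nat_lit 14) (.e (nat_lit 180252) (nat_lit 10) (.e (nat_lit 573474) (nat_lit 12) (.e (nat_lit 57509) (nat_lit 39) (.e (nat_lit 655104) (nat_lit 0) (.e (nat_lit 2667) (nat_lit 167) .nil)))))))) (.g (nat_lit 1) (.e (nat_lit 219317) (nat_lit 0) .nil) .nil)))) 
(.nd (nat_lit 9) 
(.lf (nat_lit 518522) (.g (nat_lit 1398) (.e (nat_lit 196670) (nat_lit 14) (.e (nat_lit 73746) (nat_lit 3) (.e (nat_lit 516129) (nat_lit 3) (.e (nat_lit 221212) (nat_lit 22) .nil)))) (.g (nat_lit 0) (.e (nat_lit 218980) (nat_lit 0) .nil) .nil))) 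
(.lf (nat_lit 519034) (.g (nat_lit 706) (.e (nat_lit 196674) (nat_lit 15) (.e (nat_lit 81946) (nat_lit 20) (.e (nat_lit 1842) (nat_lit 123) (.e (nat_lit 548889) (nat_lit 9) .nil)))) (.g (nat_lit 0) (.e (nat_lit 219824) (nat_lit 0) .nil) .nil))))) (.nd (nat_lit 8) (.nd (nat_lit 9) 
(.lf (nat_lit 518394) (.g (nat_lit 2232) (.e (nat_lit 196669) (nat_lit 14) (.e (nat_lit 73747) (nat_lit 3) (.e (nat_lit 516115) (nat_lit 1) (.e (nat_lit 164182) (nat_lit 154) (.e (nat_lit 57378) (nat_lit 3) .nil))))) (.g (nat_lit 0) (.e (nat_lit 218506) (nat_lit 0) .nil) .nil))) 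
(.lf (nat_lit 518906) (.g (nat_lit 2721) (.e (nat_lit 196672) (nat_lit 15) (.e (nat_lit 81954) (nat_lit 23) (.e (nat_lit 98350) (nat_lit 24) (.e (nat_lit 409612) (nat_lit 10) .nil)))) (.g (nat_lit 0) (.e (nat_lit 219606) (nat_lit 0) .nil) .nil)))) (.nd (nat_lit 9) 
(.lf (nat_lit 518650) (.g (nat_lit 3933) (.e (nat_lit 196670) (nat_lit 14) (.e (nat_lit 73753) (nat_lit 8) (.e (nat_lit 557105) (nat_lit 14) (.e (nat_lit 180252) (nat_lit 10) (.e (nat_lit 573474) (nat_lit 12) (.e (nat_lit 57506) (nat_lit 39) (.e (nat_lit 647175) (nat_lit 0) (.e (nat_lit 2667) (nat_lit 167) .nil)))))))) (.g (nat_lit 1) (.e (nat_lit 219157) (nat_lit 0) .nil) .nil))) 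
(.lf (nat_lit 519162) (.g (nat_lit 4626) (.e (nat_lit 196681) (nat_lit 17) (.e (nat_lit 131109) (nat_lit 9) (.e (nat_lit 336324) (nat_lit 18) (.e (nat_lit 204837) (nat_lit 20) (.e (nat_lit 114698) (nat_lit 11) (.e (nat_lit 426123) (nat_lit 2) .nil)))))) (.g (nat_lit 1) (.e (nat_lit 220254) (nat_lit 0) .nil) .nil)))))))))) 
(.nd (nat_lit 3) (.nd (nat_lit 4) (.nd (nat_lit 5) (.nd (nat_lit 6) (.nd (nat_lit 7) 
(.nd (nat_lit 8) (.nd (nat_lit 9) 
(.lf (nat_lit 518150) (.g (nat_lit 2400) (.e (nat_lit 196668) (nat_lit 14) (.e (nat_lit 73746) (nat_lit 3) (.e (nat_lit 516119) (nat_lit 1) (.e (nat_lit 164182) (nat_lit 154) (.e (nat_lit 57379) (nat_lit 3) .nil))))) (.g (nat_lit 0) (.e (nat_lit 217448) (nat_lit 0) .nil) .nil))) 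
(.lf (nat_lit 518662) (.g (nat_lit 2925) (.e (nat_lit 196670) (nat_lit 14) (.e (nat_lit 73753) (nat_lit 8) (.e (nat_lit 557105) (nat_lit 14) (.e (nat_lit 180252) (nat_lit 10) (.e (nat_lit 573474) (nat_lit 12) (.e (nat_lit 57508) (nat_lit 39) (.e (nat_lit 647175) (nat_lit 0) (.e (nat_lit 2665) (nat_lit 167) .nil)))))))) (.g (nat_lit 1) (.e (nat_lit 219169) (nat_lit 0) .nil) .nil)))) 
(.nd (nat_lit 9) 
(.lf (nat_lit 518406) (.g (nat_lit 1615) (.e (nat_lit 196669) (nat_lit 14) (.e (nat_lit 73747) (nat_lit 3) (.e (nat_lit 516119) (nat_lit 1) (.e (nat_lit 164180) (nat_lit 154) .nil)))) (.g (nat_lit 0) (.e (nat_lit 218518) (nat_lit 0) .nil) .nil))) 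
(.lf (nat_lit 518918) (.g (nat_lit 1889) (.e (nat_lit 196672) (nat_lit 15) (.e (nat_lit 81954) (nat_lit 23) (.e (nat_lit 98350) (nat_lit 24) (.e (nat_lit 409618) (nat_lit 10) (.e (nat_lit 5666) (nat_lit 312) (.e (nat_lit 2654) (nat_lit 167) .nil)))))) (.g (nat_lit 1) (.e (nat_lit 219620) (nat_lit 0) .nil) .nil))))) (.nd (nat_lit 8) (.nd (nat_lit 9) 
(.lf (nat_lit 518278) (.g (nat_lit 5097) (.e (nat_lit 196668) (nat_lit 14) (.e (nat_lit 73747) (nat_lit 3) (.e (nat_lit 516131) (nat_lit 3) (.e (nat_lit 221214) (nat_lit 23) (.e (nat_lit 204830) (nat_lit 18) (.e (nat_lit 57931) (nat_lit 282) (.e (nat_lit 163869) (nat_lit 2) .nil))))))) (.g (nat_lit 1) (.e (nat_lit 218199) (nat_lit 0) .nil) .nil))) 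
(.lf (nat_lit 518790) (.g (nat_lit 952) (.e (nat_lit 196671) (nat_lit 15) (.e (nat_lit 81953) (nat_lit 22) (.e (nat_lit 90130) (nat_lit 9) .nil))) (.g (nat_lit 0) (.e (nat_lit 219339) (nat_lit 0) .nil) .nil)))) (.nd (nat_lit 9) 
(.lf (nat_lit 518534) (.g (nat_lit 2036) (.e (nat_lit 196670) (nat_lit 14) (.e (nat_lit 73746) (nat_lit 3) (.e (nat_lit 516129) (nat_lit 3) (.e (nat_lit 221214) (nat_lit 23) (.e (nat_lit 204830) (nat_lit 18) .nil))))) (.g (nat_lit 0) (.e (nat_lit 218992) (nat_lit 0) .nil) .nil))) 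
(.lf (nat_lit 519046) (.g (nat_lit 2766) (.e (nat_lit 196674) (nat_lit 15) (.e (nat_lit 81946) (nat_lit 20) (.e (nat_lit 1858) (nat_lit 124) (.e (nat_lit 557093) (nat_lit 12) (.e (nat_lit 164023) (nat_lit 46) .nil))))) (.g (nat_lit 0) (.e (nat_lit 219859) (nat_lit 0) .nil) .nil)))))) (.nd (nat_lit 7) (.nd (nat_lit 8) (.nd (nat_lit 9) 
(.lf (nat_lit 518214) (.g (nat_lit 4041) (.e (nat_lit 196668) (nat_lit 14) (.e (nat_lit 73747) (nat_lit 3) (.e (nat_lit 516119) (nat_lit 1) (.e (nat_lit 164179) (nat_lit 154) (.e (nat_lit 57378) (nat_lit 3) (.e (nat_lit 98340) (nat_lit 20) (.e (nat_lit 221210) (nat_lit 22) .nil))))))) (.g (nat_lit 1) (.e (nat_lit 218009) (nat_lit 0) .nil) .nil))) 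
(.lf (nat_lit 518726) (.g (nat_lit 3040) (.e (nat_lit 196670) (nat_lit 14) (.e (nat_lit 73754) (nat_lit 8) (.e (nat_lit 557105) (nat_lit 14) (.e (nat_lit 180252) (nat_lit 10) (.e (nat_lit 573474) (nat_lit 12) (.e (nat_lit 57347) (nat_lit 0) (.e (nat_lit 5438) (nat_lit 306) (.e (nat_lit 2433) (nat_lit 157) (.e (nat_lit 2668) (nat_lit 167) .nil))))))))) (.g (nat_lit 1) (.e (nat_lit 219255) (nat_lit 0) .nil) .nil)))) 
(.nd (nat_lit 9) 
(.lf (nat_lit 518470) (.g (nat_lit 4529) (.e (nat_lit 196670) (nat_lit 14) (.e (nat_lit 73746) (nat_lit 3) (.e (nat_lit 516115) (nat_lit 1) (.e (nat_lit 164182) (nat_lit 154) (.e (nat_lit 57379) (nat_lit 3) (.e (nat_lit 98342) (nat_lit 20) (.e (nat_lit 221212) (nat_lit 22) .nil))))))) (.g (nat_lit 1) (.e (nat_lit 218693) (nat_lit 0) .nil) .nil))) 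
(.lf (nat_lit 518982) (.g (nat_lit 1374) (.e (nat_lit 196673) (nat_lit 15) (.e (nat_lit 81953) (nat_lit 22) (.e (nat_lit 90133) (nat_lit 9) (.e (nat_lit 7936) (nat_lit 182) .nil)))) (.g (nat_lit 0) (.e (nat_lit 219755) (nat_lit 0) .nil) .nil))))) (.nd (nat_lit 8) (.nd (nat_lit 9) 
(.lf (nat_lit 518342) (.g (nat_lit 4248) (.e (nat_lit 196668) (nat_lit 14) (.e (nat_lit 73753) (nat_lit 8) (.e (nat_lit 557105) (nat_lit 14) (.e (nat_lit 180252) (nat_lit 10) (.e (nat_lit 573474) (nat_lit 12) (.e (nat_lit 57506) (nat_lit 39) (.e (nat_lit 655104) (nat_lit 0) (.e (nat_lit 2667) (nat_lit 167) .nil)))))))) (.g (nat_lit 1) (.e (nat_lit 218381) (nat_lit 0) .nil) .nil))) 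
(.lf (nat_lit 518854) (.g (nat_lit 655) (.e (nat_lit 196672) (nat_lit 15) (.e (nat_lit 81954) (nat_lit 23) (.e (nat_lit 98318) (nat_lit 17) .nil))) (.g (nat_lit 0) (.e (nat_lit 219533) (nat_lit 0) .nil) .nil)))) (.nd (nat_lit 9) 
(.lf (nat_lit 518598) (.g (nat_lit 436) (.e (nat_lit 196670) (nat_lit 14) (.e (nat_lit 73753) (nat_lit 8) (.e (nat_lit 557101) (nat_lit 13) .nil))) (.g (nat_lit 0) (.e (nat_lit 219088) (nat_lit 0) .nil) .nil))) 
(.lf (nat_lit 519110) (.g (nat_lit 3209) (.e (nat_lit 196681) (nat_lit 17) (.e (nat_lit 131098) (nat_lit 3) (.e (nat_lit 98335) (nat_lit 18) (.e (nat_lit 164183) (nat_lit 154) (.e (nat_lit 57378) (nat_lit 3) (.e (nat_lit 98342) (nat_lit 20) (.e (nat_lit 221212) (nat_lit 22) .nil))))))) (.g (nat_lit 1) (.e (nat_lit 220092) (nat_lit 0) .nil) .nil))))))) 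
(.nd (nat_lit 6) (.nd (nat_lit 7) (.nd (nat_lit 8) (.nd (nat_lit 9) 
(.lf (nat_lit 518182) (.g (nat_lit 2211) (.e (nat_lit 196668) (nat_lit 14) (.e (nat_lit 73747) (nat_lit 3) (.e (nat_lit 516115) (nat_lit 1) (.e (nat_lit 164162) (nat_lit 152) (.e (nat_lit 1286) (nat_lit 95) .nil))))) (.g (nat_lit 0) (.e (nat_lit 217566) (nat_lit 0) .nil) .nil))) 
(.lf (nat_lit 518694) (.g (nat_lit 984) (.e (nat_lit 196670) (nat_lit 14) (.e (nat_lit 73754) (nat_lit 8) (.e (nat_lit 557105) (nat_lit 14) (.e (nat_lit 180252) (nat_lit 10) .nil)))) (.g (nat_lit 0) (.e (nat_lit 219222) (nat_lit 0) .nil) .nil)))) (.nd (nat_lit 9) 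
(.lf (nat_lit 518438) (.g (nat_lit 2401) (.e (nat_lit 196669) (nat_lit 14) (.e (nat_lit 73755) (nat_lit 8) (.e (nat_lit 557105) (nat_lit 14) (.e (nat_lit 180251) (nat_lit 10) (.e (nat_lit 573477) (nat_lit 12) .nil))))) (.g (nat_lit 0) (.e (nat_lit 218574) (nat_lit 0) .nil) .nil))) 
(.lf (nat_lit 518950) (.g (nat_lit 1157) (.e (nat_lit 196672) (nat_lit 15) (.e (nat_lit 81955) (nat_lit 23) (.e (nat_lit 98350) (nat_lit 24) (.e (nat_lit 409651) (nat_lit 19) .nil)))) (.g (nat_lit 0) (.e (nat_lit 219692) (nat_lit 0) .nil) .nil))))) (.nd (nat_lit 8) (.nd (nat_lit 9) 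
(.lf (nat_lit 518310) (.g (nat_lit 3895) (.e (nat_lit 196668) (nat_lit 14) (.e (nat_lit 73753) (nat_lit 8) (.e (nat_lit 557103) (nat_lit 14) (.e (nat_lit 180250) (nat_lit 10) (.e (nat_lit 573474) (nat_lit 12) (.e (nat_lit 57506) (nat_lit 39) (.e (nat_lit 655104) (nat_lit 0) (.e (nat_lit 2667) (nat_lit 167) .nil)))))))) (.g (nat_lit 1) (.e (nat_lit 218345) (nat_lit 0) .nil) .nil))) 
(.lf (nat_lit 518822) (.g (nat_lit 2386) (.e (nat_lit 196672) (nat_lit 15) (.e (nat_lit 81927) (nat_lit 11) (.e (nat_lit 426500) (nat_lit 27) (.e (nat_lit 335995) (nat_lit 1) (.e (nat_lit 57924) (nat_lit 282) (.e (nat_lit 163868) (nat_lit 2) .nil)))))) (.g (nat_lit 1) (.e (nat_lit 219389) (nat_lit 0) .nil) .nil)))) (.nd (nat_lit 9) 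
(.lf (nat_lit 518566) (.g (nat_lit 2035) (.e (nat_lit 196670) (nat_lit 14) (.e (nat_lit 73746) (nat_lit 3) (.e (nat_lit 516131) (nat_lit 3) (.e (nat_lit 221212) (nat_lit 22) (.e (nat_lit 196678) (nat_lit 16) .nil))))) (.g (nat_lit 0) (.e (nat_lit 219026) (nat_lit 0) .nil) .nil))) 
(.lf (nat_lit 519078) (.g (nat_lit 4256) (.e (nat_lit 196674) (nat_lit 15) (.e (nat_lit 81956) (nat_lit 23) (.e (nat_lit 98350) (nat_lit 24) (.e (nat_lit 409646) (nat_lit 18) (.e (nat_lit 303117) (nat_lit 2) .nil))))) (.g (nat_lit 1) (.e (nat_lit 219904) (nat_lit 0) .nil) .nil)))))) (.nd (nat_lit 7) (.nd (nat_lit 8) (.nd (nat_lit 9) 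
(.lf (nat_lit 518246) (.g (nat_lit 2685) (.e (nat_lit 196668) (nat_lit 14) (.e (nat_lit 73747) (nat_lit 3) (.e (nat_lit 516129) (nat_lit 3) (.e (nat_lit 221214) (nat_lit 23) (.e (nat_lit 204830) (nat_lit 18) (.e (nat_lit 57929) (nat_lit 282) (.e (nat_lit 163866) (nat_lit 2) .nil))))))) (.g (nat_lit 1) (.e (nat_lit 218147) (nat_lit 0) .nil) .nil))) 
(.lf (nat_lit 518758) (.g (nat_lit 3039) (.e (nat_lit 196670) (nat_lit 14) (.e (nat_lit 73754) (nat_lit 8) (.e (nat_lit 557105) (nat_lit 14) (.e (nat_lit 180252) (nat_lit 10) (.e (nat_lit 573475) (nat_lit 12) (.e (nat_lit 57508) (nat_lit 39) (.e (nat_lit 655104) (nat_lit 0) (.e (nat_lit 2657) (nat_lit 167) .nil)))))))) (.g (nat_lit 1) (.e (nat_lit 219287) (nat_lit 0) .nil) .nil)))) 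
(.nd (nat_lit 9) 
(.lf (nat_lit 518502) (.g (nat_lit 1616) (.e (nat_lit 196670) (nat_lit 14) (.e (nat_lit 73746) (nat_lit 3) (.e (nat_lit 516120) (nat_lit 1) (.e (nat_lit 164180) (nat_lit 154) .nil)))) (.g (nat_lit 0) (.e (nat_lit 218870) (nat_lit 0) .nil) .nil))) 
(.lf (nat_lit 519014) (.g (nat_lit 3106) (.e (nat_lit 196674) (nat_lit 15) (.e (nat_lit 81922) (nat_lit 0) (.e (nat_lit 3305) (nat_lit 202) (.e (nat_lit 573489) (nat_lit 14) (.e (nat_lit 73781) (nat_lit 32) (.e (nat_lit 2664) (nat_lit 167) .nil)))))) (.g (nat_lit 1) (.e (nat_lit 219800) (nat_lit 0) .nil) .nil))))) (.nd (nat_lit 8) (.nd (nat_lit 9) 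
(.lf (nat_lit 518374) (.g (nat_lit 2303) (.e (nat_lit 196668) (nat_lit 14) (.e (nat_lit 81664) (nat_lit 40) (.e (nat_lit 1256) (nat_lit 92) (.e (nat_lit 98350) (nat_lit 24) (.e (nat_lit 409623) (nat_lit 10) (.e (nat_lit 5664) (nat_lit 312) (.e (nat_lit 2661) (nat_lit 167) .nil))))))) (.g (nat_lit 1) (.e (nat_lit 218446) (nat_lit 0) .nil) .nil))) 
(.lf (nat_lit 518886) (.g (nat_lit 409) (.e (nat_lit 196672) (nat_lit 15) (.e (nat_lit 81954) (nat_lit 23) (.e (nat_lit 98333) (nat_lit 18) .nil))) (.g (nat_lit 0) (.e (nat_lit 219582) (nat_lit 0) .nil) .nil)))) (.nd (nat_lit 9) 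
(.lf (nat_lit 518630) (.g (nat_lit 2444) (.e (nat_lit 196670) (nat_lit 14) (.e (nat_lit 73753) (nat_lit 8) (.e (nat_lit 557105) (nat_lit 14) (.e (nat_lit 180252) (nat_lit 10) (.e (nat_lit 573473) (nat_lit 12) (.e (nat_lit 57506) (nat_lit 39) (.e (nat_lit 647175) (nat_lit 0) (.e (nat_lit 2667) (nat_lit 167) .nil)))))))) (.g (nat_lit 1) (.e (nat_lit 219137) (nat_lit 0) .nil) .nil))) 
(.lf (nat_lit 519142) (.g (nat_lit 3086) (.e (nat_lit 196681) (nat_lit 17) (.e (nat_lit 131109) (nat_lit 9) (.e (nat_lit 336019) (nat_lit 3) (.e (nat_lit 98350) (nat_lit 24) (.e (nat_lit 409643) (nat_lit 18) (.e (nat_lit 303117) (nat_lit 2) .nil)))))) (.g (nat_lit 1) (.e (nat_lit 220205) (nat_lit 0) .nil) .nil)))))))) 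
(.nd (nat_lit 5) (.nd (nat_lit 6) (.nd (nat_lit 7) (.nd (nat_lit 8) (.nd (nat_lit 9) 
(.lf (nat_lit 518166) (.g (nat_lit 1411) (.e (nat_lit 196668) (nat_lit 14) (.e (nat_lit 73746) (nat_lit 3) (.e (nat_lit 516129) (nat_lit 3) (.e (nat_lit 221214) (nat_lit 23) .nil)))) (.g (nat_lit 0) (.e (nat_lit 217527) (nat_lit 0) .nil) .nil))) 
(.lf (nat_lit 518678) (.g (nat_lit 2251) (.e (nat_lit 196670) (nat_lit 14) (.e (nat_lit 73753) (nat_lit 8) (.e (nat_lit 557105) (nat_lit 14) (.e (nat_lit 180252) (nat_lit 10) (.e (nat_lit 573503) (nat_lit 18) .nil))))) (.g (nat_lit 0) (.e (nat_lit 219185) (nat_lit 0) .nil) .nil)))) (.nd (nat_lit 9) 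
(.lf (nat_lit 518422) (.g (nat_lit 2103) (.e (nat_lit 196669) (nat_lit 14) (.e (nat_lit 73755) (nat_lit 8) (.e (nat_lit 557098) (nat_lit 13) (.e (nat_lit 172127) (nat_lit 15) .nil)))) (.g (nat_lit 0) (.e (nat_lit 218556) (nat_lit 0) .nil) .nil))) 
(.lf (nat_lit 518934) (.g (nat_lit 2634) (.e (nat_lit 196672) (nat_lit 15) (.e (nat_lit 81954) (nat_lit 23) (.e (nat_lit 98353) (nat_lit 25) (.e (nat_lit 417820) (nat_lit 10) (.e (nat_lit 5664) (nat_lit 312) (.e (nat_lit 2661) (nat_lit 167) .nil)))))) (.g (nat_lit 1) (.e (nat_lit 219640) (nat_lit 0) .nil) .nil))))) (.nd (nat_lit 8) (.nd (nat_lit 9) 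
(.lf (nat_lit 518294) (.g (nat_lit 1953) (.e (nat_lit 196668) (nat_lit 14) (.e (nat_lit 73753) (nat_lit 8) (.e (nat_lit 557103) (nat_lit 14) (.e (nat_lit 180242) (nat_lit 5) .nil)))) (.g (nat_lit 0) (.e (nat_lit 218322) (nat_lit 0) .nil) .nil))) 
(.lf (nat_lit 518806) (.g (nat_lit 1499) (.e (nat_lit 196672) (nat_lit 15) (.e (nat_lit 81925) (nat_lit 11) (.e (nat_lit 426497) (nat_lit 27) (.e (nat_lit 335988) (nat_lit 1) (.e (nat_lit 57926) (nat_lit 282) .nil))))) (.g (nat_lit 0) (.e (nat_lit 219367) (nat_lit 0) .nil) .nil)))) (.nd (nat_lit 9) 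
(.lf (nat_lit 518550) (.g (nat_lit 3720) (.e (nat_lit 196670) (nat_lit 14) (.e (nat_lit 73746) (nat_lit 3) (.e (nat_lit 516129) (nat_lit 3) (.e (nat_lit 221215) (nat_lit 23) (.e (nat_lit 204829) (nat_lit 18) (.e (nat_lit 57930) (nat_lit 282) (.e (nat_lit 163867) (nat_lit 2) .nil))))))) (.g (nat_lit 1) (.e (nat_lit 219008) (nat_lit 0) .nil) .nil))) 
(.lf (nat_lit 519062) (.g (nat_lit 2328) (.e (nat_lit 196674) (nat_lit 15) (.e (nat_lit 81955) (nat_lit 23) (.e (nat_lit 98350) (nat_lit 24) (.e (nat_lit 409616) (nat_lit 10) (.e (nat_lit 7936) (nat_lit 312) .nil))))) (.g (nat_lit 0) (.e (nat_lit 219887) (nat_lit 0) .nil) .nil)))))) (.nd (nat_lit 7) (.nd (nat_lit 8) (.nd (nat_lit 9) 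
(.lf (nat_lit 518230) (.g (nat_lit 3235) (.e (nat_lit 196668) (nat_lit 14) (.e (nat_lit 73747) (nat_lit 3) (.e (nat_lit 516120) (nat_lit 1) (.e (nat_lit 164183) (nat_lit 154) (.e (nat_lit 57379) (nat_lit 3) (.e (nat_lit 98340) (nat_lit 20) (.e (nat_lit 221212) (nat_lit 22) .nil))))))) (.g (nat_lit 1) (.e (nat_lit 218096) (nat_lit 0) .nil) .nil))) 
(.lf (nat_lit 518742) (.g (nat_lit 2265) (.e (nat_lit 196670) (nat_lit 14) (.e (nat_lit 73754) (nat_lit 8) (.e (nat_lit 557105) (nat_lit 14) (.e (nat_lit 180252) (nat_lit 10) (.e (nat_lit 573475) (nat_lit 12) (.e (nat_lit 57506) (nat_lit 39) (.e (nat_lit 647170) (nat_lit 0) (.e (nat_lit 2662) (nat_lit 167) .nil)))))))) (.g (nat_lit 1) (.e (nat_lit 219271) (nat_lit 0) .nil) .nil)))) 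
(.nd (nat_lit 9) 
(.lf (nat_lit 518486) (.g (nat_lit 2964) (.e (nat_lit 196670) (nat_lit 14) (.e (nat_lit 73746) (nat_lit 3) (.e (nat_lit 516119) (nat_lit 1) (.e (nat_lit 164177) (nat_lit 154) (.e (nat_lit 57379) (nat_lit 3) (.e (nat_lit 98341) (nat_lit 20) (.e (nat_lit 221212) (nat_lit 22) .nil))))))) (.g (nat_lit 1) (.e (nat_lit 218825) (nat_lit 0) .nil) .nil))) 
(.lf (nat_lit 518998) (.g (nat_lit 1549) (.e (nat_lit 196673) (nat_lit 15) (.e (nat_lit 81956) (nat_lit 23) (.e (nat_lit 98350) (nat_lit 24) (.e (nat_lit 409650) (nat_lit 19) .nil)))) (.g (nat_lit 0) (.e (nat_lit 219773) (nat_lit 0) .nil) .nil))))) (.nd (nat_lit 8) (.nd (nat_lit 9) 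
(.lf (nat_lit 518358) (.g (nat_lit 3008) (.e (nat_lit 196668) (nat_lit 14) (.e (nat_lit 73754) (nat_lit 8) (.e (nat_lit 557105) (nat_lit 14) (.e (nat_lit 180252) (nat_lit 10) (.e (nat_lit 573475) (nat_lit 12) (.e (nat_lit 57507) (nat_lit 39) (.e (nat_lit 655104) (nat_lit 0) (.e (nat_lit 2667) (nat_lit 167) .nil)))))))) (.g (nat_lit 1) (.e (nat_lit 218398) (nat_lit 0) .nil) .nil))) 
(.lf (nat_lit 518870) (.g (nat_lit 2068) (.e (nat_lit 196672) (nat_lit 15) (.e (nat_lit 81954) (nat_lit 23) (.e (nat_lit 98323) (nat_lit 17) (.e (nat_lit 7107) (nat_lit 380) (.e (nat_lit 164361) (nat_lit 246) (.e (nat_lit 2654) (nat_lit 167) .nil)))))) (.g (nat_lit 1) (.e (nat_lit 219554) (nat_lit 0) .nil) .nil)))) (.nd (nat_lit 9) 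
(.lf (nat_lit 518614) (.g (nat_lit 2679) (.e (nat_lit 196670) (nat_lit 14) (.e (nat_lit 73753) (nat_lit 8) (.e (nat_lit 557103) (nat_lit 14) (.e (nat_lit 180250) (nat_lit 10) (.e (nat_lit 573475) (nat_lit 12) (.e (nat_lit 57508) (nat_lit 39) (.e (nat_lit 647175) (nat_lit 0) (.e (nat_lit 2667) (nat_lit 167) .nil)))))))) (.g (nat_lit 1) (.e (nat_lit 219117) (nat_lit 0) .nil) .nil))) 
(.lf (nat_lit 519126) (.g (nat_lit 3484) (.e (nat_lit 196681) (nat_lit 17) (.e (nat_lit 131105) (nat_lit 9) (.e (nat_lit 336324) (nat_lit 18) (.e (nat_lit 204838) (nat_lit 20) (.e (nat_lit 114698) (nat_lit 11) (.e (nat_lit 426115) (nat_lit 2) .nil)))))) (.g (nat_lit 1) (.e (nat_lit 220121) (nat_lit 0) .nil) .nil))))))) (.nd (nat_lit 6) (.nd (nat_lit 7) (.nd (nat_lit 8) (.nd (nat_lit 9) 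
(.lf (nat_lit 518198) (.g (nat_lit 1948) (.e (nat_lit 196668) (nat_lit 14) (.e (nat_lit 73747) (nat_lit 3) (.e (nat_lit 516115) (nat_lit 1) (.e (nat_lit 164183) (nat_lit 154) (.e (nat_lit 57379) (nat_lit 3) .nil))))) (.g (nat_lit 0) (.e (nat_lit 217812) (nat_lit 0) .nil) .nil))) 
(.lf (nat_lit 518710) (.g (nat_lit 2433) (.e (nat_lit 196670) (nat_lit 14) (.e (nat_lit 73754) (nat_lit 8) (.e (nat_lit 557105) (nat_lit 14) (.e (nat_lit 180252) (nat_lit 10) (.e (nat_lit 573473) (nat_lit 12) (.e (nat_lit 57508) (nat_lit 39) (.e (nat_lit 647168) (nat_lit 0) (.e (nat_lit 2665) (nat_lit 167) .nil)))))))) (.g (nat_lit 1) (.e (nat_lit 219239) (nat_lit 0) .nil) .nil)))) 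
(.nd (nat_lit 9) 
(.lf (nat_lit 518454) (.g (nat_lit 2251) (.e (nat_lit 196669) (nat_lit 14) (.e (nat_lit 73755) (nat_lit 8) (.e (nat_lit 557105) (nat_lit 14) (.e (nat_lit 180252) (nat_lit 10) (.e (nat_lit 573474) (nat_lit 12) (.e (nat_lit 57513) (nat_lit 40) (.e (nat_lit 663296) (nat_lit 0) (.e (nat_lit 2667) (nat_lit 167) .nil)))))))) (.g (nat_lit 1) (.e (nat_lit 218591) (nat_lit 0) .nil) .nil))) 
(.lf (nat_lit 518966) (.g (nat_lit 2865) (.e (nat_lit 196672) (nat_lit 15) (.e (nat_lit 81956) (nat_lit 23) (.e (nat_lit 98350) (nat_lit 24) (.e (nat_lit 409644) (nat_lit 18) (.e (nat_lit 303117) (nat_lit 2) .nil))))) (.g (nat_lit 0) (.e (nat_lit 219710) (nat_lit 0) .nil) .nil))))) (.nd (nat_lit 8) (.nd (nat_lit 9) 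
(.lf (nat_lit 518326) (.g (nat_lit 2641) (.e (nat_lit 196668) (nat_lit 14) (.e (nat_lit 73753) (nat_lit 8) (.e (nat_lit 557104) (nat_lit 14) (.e (nat_lit 180252) (nat_lit 10) (.e (nat_lit 573474) (nat_lit 12) .nil))))) (.g (nat_lit 0) (.e (nat_lit 218364) (nat_lit 0) .nil) .nil))) 
(.lf (nat_lit 518838) (.g (nat_lit 3043) (.e (nat_lit 196672) (nat_lit 15) (.e (nat_lit 81946) (nat_lit 20) (.e (nat_lit 1858) (nat_lit 124) (.e (nat_lit 557093) (nat_lit 12) (.e (nat_lit 171776) (nat_lit 46) .nil))))) (.g (nat_lit 0) (.e (nat_lit 219457) (nat_lit 0) .nil) .nil)))) (.nd (nat_lit 9) 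
(.lf (nat_lit 518582) (.g (nat_lit 3194) (.e (nat_lit 196670) (nat_lit 14) (.e (nat_lit 73746) (nat_lit 3) (.e (nat_lit 516131) (nat_lit 3) (.e (nat_lit 221215) (nat_lit 23) (.e (nat_lit 204830) (nat_lit 18) (.e (nat_lit 57927) (nat_lit 282) (.e (nat_lit 163866) (nat_lit 2) .nil))))))) (.g (nat_lit 1) (.e (nat_lit 219045) (nat_lit 0) .nil) .nil))) 
(.lf (nat_lit 519094) (.g (nat_lit 3431) (.e (nat_lit 196681) (nat_lit 17) (.e (nat_lit 131096) (nat_lit 3) (.e (nat_lit 98333) (nat_lit 18) (.e (nat_lit 164183) (nat_lit 154) (.e (nat_lit 57379) (nat_lit 3) (.e (nat_lit 98341) (nat_lit 20) (.e (nat_lit 221212) (nat_lit 22) .nil))))))) (.g (nat_lit 1) (.e (nat_lit 220058) (nat_lit 0) .nil) .nil)))))) 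
(.nd (nat_lit 7) (.nd (nat_lit 8) (.nd (nat_lit 9) 
(.lf (nat_lit 518262) (.g (nat_lit 4668) (.e (nat_lit 196668) (nat_lit 14) (.e (nat_lit 73747) (nat_lit 3) (.e (nat_lit 516129) (nat_lit 3) (.e (nat_lit 221215) (nat_lit 23) (.e (nat_lit 204830) (nat_lit 18) (.e (nat_lit 57929) (nat_lit 282) (.e (nat_lit 163869) (nat_lit 2) .nil))))))) (.g (nat_lit 1) (.e (nat_lit 218169) (nat_lit 0) .nil) .nil))) 
(.lf (nat_lit 518774) (.g (nat_lit 1684) (.e (nat_lit 196670) (nat_lit 14) (.e (nat_lit 73755) (nat_lit 8) (.e (nat_lit 557105) (nat_lit 14) (.e (nat_lit 180251) (nat_lit 10) .nil)))) (.g (nat_lit 0) (.e (nat_lit 219313) (nat_lit 0) .nil) .nil)))) (.nd (nat_lit 9) 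
(.lf (nat_lit 518518) (.g (nat_lit 1872) (.e (nat_lit 196670) (nat_lit 14) (.e (nat_lit 73746) (nat_lit 3) (.e (nat_lit 516129) (nat_lit 3) (.e (nat_lit 221210) (nat_lit 22) (.e (nat_lit 196660) (nat_lit 12) .nil))))) (.g (nat_lit 0) (.e (nat_lit 218971) (nat_lit 0) .nil) .nil))) 
(.lf (nat_lit 519030) (.g (nat_lit 2014) (.e (nat_lit 196674) (nat_lit 15) (.e (nat_lit 81925) (nat_lit 11) (.e (nat_lit 426500) (nat_lit 27) (.e (nat_lit 335996) (nat_lit 1) (.e (nat_lit 57931) (nat_lit 282) (.e (nat_lit 163866) (nat_lit 2) .nil)))))) (.g (nat_lit 1) (.e (nat_lit 219819) (nat_lit 0) .nil) .nil))))) (.nd (nat_lit 8) (.nd (nat_lit 9) 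
(.lf (nat_lit 518390) (.g (nat_lit 3446) (.e (nat_lit 196669) (nat_lit 14) (.e (nat_lit 73747) (nat_lit 3) (.e (nat_lit 516115) (nat_lit 1) (.e (nat_lit 164179) (nat_lit 154) (.e (nat_lit 57378) (nat_lit 3) (.e (nat_lit 98342) (nat_lit 20) (.e (nat_lit 221212) (nat_lit 22) .nil))))))) (.g (nat_lit 1) (.e (nat_lit 218502) (nat_lit 0) .nil) .nil))) 
(.lf (nat_lit 518902) (.g (nat_lit 1970) (.e (nat_lit 196672) (nat_lit 15) (.e (nat_lit 81954) (nat_lit 23) (.e (nat_lit 98350) (nat_lit 24) (.e (nat_lit 409608) (nat_lit 10) .nil)))) (.g (nat_lit 0) (.e (nat_lit 219602) (nat_lit 0) .nil) .nil)))) (.nd (nat_lit 9) 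
(.lf (nat_lit 518646) (.g (nat_lit 2306) (.e (nat_lit 196670) (nat_lit 14) (.e (nat_lit 73753) (nat_lit 8) (.e (nat_lit 557105) (nat_lit 14) (.e (nat_lit 180252) (nat_lit 10) (.e (nat_lit 573474) (nat_lit 12) .nil))))) (.g (nat_lit 0) (.e (nat_lit 219153) (nat_lit 0) .nil) .nil))) 
(.lf (nat_lit 519158) (.g (nat_lit 3157) (.e (nat_lit 196681) (nat_lit 17) (.e (nat_lit 131109) (nat_lit 9) (.e (nat_lit 336324) (nat_lit 18) (.e (nat_lit 204837) (nat_lit 20) (.e (nat_lit 114697) (nat_lit 11) (.e (nat_lit 426123) (nat_lit 2) .nil)))))) (.g (nat_lit 1) (.e (nat_lit 220250) (nat_lit 0) .nil) .nil))))))))) 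
(.nd (nat_lit 4) (.nd (nat_lit 5) (.nd (nat_lit 6) (.nd (nat_lit 7) (.nd (nat_lit 8) 
(.nd (nat_lit 9) 
(.lf (nat_lit 518158) (.g (nat_lit 2281) (.e (nat_lit 196668) (nat_lit 14) (.e (nat_lit 73746) (nat_lit 3) (.e (nat_lit 516120) (nat_lit 1) (.e (nat_lit 164161) (nat_lit 152) (.e (nat_lit 1032) (nat_lit 81) .nil))))) (.g (nat_lit 0) (.e (nat_lit 217456) (nat_lit 0) .nil) .nil))) 
(.lf (nat_lit 518670) (.g (nat_lit 2871) (.e (nat_lit 196670) (nat_lit 14) (.e (nat_lit 73753) (nat_lit 8) (.e (nat_lit 557105) (nat_lit 14) (.e (nat_lit 180252) (nat_lit 10) (.e (nat_lit 573475) (nat_lit 12) (.e (nat_lit 57505) (nat_lit 39) (.e (nat_lit 655104) (nat_lit 0) (.e (nat_lit 2667) (nat_lit 167) .nil)))))))) (.g (nat_lit 1) (.e (nat_lit 219177) (nat_lit 0) .nil) .nil)))) 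
(.nd (nat_lit 9) 
(.lf (nat_lit 518414) (.g (nat_lit 2437) (.e (nat_lit 196669) (nat_lit 14) (.e (nat_lit 73754) (nat_lit 8) (.e (nat_lit 557105) (nat_lit 14) (.e (nat_lit 180252) (nat_lit 10) (.e (nat_lit 573473) (nat_lit 12) (.e (nat_lit 57507) (nat_lit 39) (.e (nat_lit 647176) (nat_lit 0) (.e (nat_lit 2663) (nat_lit 167) .nil)))))))) (.g (nat_lit 1) (.e (nat_lit 218532) (nat_lit 0) .nil) .nil))) 
(.lf (nat_lit 518926) (.g (nat_lit 1952) (.e (nat_lit 196672) (nat_lit 15) (.e (nat_lit 81954) (nat_lit 23) (.e (nat_lit 98352) (nat_lit 25) (.e (nat_lit 417817) (nat_lit 10) (.e (nat_lit 5647) (nat_lit 312) (.e (nat_lit 2654) (nat_lit 167) .nil)))))) (.g (nat_lit 1) (.e (nat_lit 219631) (nat_lit 0) .nil) .nil))))) (.nd (nat_lit 8) (.nd (nat_lit 9) 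
(.lf (nat_lit 518286) (.g (nat_lit 3601) (.e (nat_lit 196668) (nat_lit 14) (.e (nat_lit 73747) (nat_lit 3) (.e (nat_lit 516131) (nat_lit 3) (.e (nat_lit 221215) (nat_lit 23) (.e (nat_lit 204830) (nat_lit 18) (.e (nat_lit 57927) (nat_lit 282) (.e (nat_lit 163866) (nat_lit 2) .nil))))))) (.g (nat_lit 1) (.e (nat_lit 218229) (nat_lit 0) .nil) .nil))) 
(.lf (nat_lit 518798) (.g (nat_lit 1459) (.e (nat_lit 196672) (nat_lit 15) (.e (nat_lit 81924) (nat_lit 0) (.e (nat_lit 3305) (nat_lit 202) (.e (nat_lit 573452) (nat_lit 9) (.e (nat_lit 202) (nat_lit 17) .nil))))) (.g (nat_lit 0) (.e (nat_lit 219355) (nat_lit 0) .nil) .nil)))) (.nd (nat_lit 9) 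
(.lf (nat_lit 518542) (.g (nat_lit 2454) (.e (nat_lit 196670) (nat_lit 14) (.e (nat_lit 73746) (nat_lit 3) (.e (nat_lit 516129) (nat_lit 3) (.e (nat_lit 221215) (nat_lit 23) (.e (nat_lit 204821) (nat_lit 17) .nil))))) (.g (nat_lit 0) (.e (nat_lit 219000) (nat_lit 0) .nil) .nil))) 
(.lf (nat_lit 519054) (.g (nat_lit 1679) (.e (nat_lit 196674) (nat_lit 15) (.e (nat_lit 81954) (nat_lit 23) (.e (nat_lit 98350) (nat_lit 24) (.e (nat_lit 409617) (nat_lit 10) .nil)))) (.g (nat_lit 0) (.e (nat_lit 219878) (nat_lit 0) .nil) .nil)))))) (.nd (nat_lit 7) (.nd (nat_lit 8) (.nd (nat_lit 9) 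
(.lf (nat_lit 518222) (.g (nat_lit 1709) (.e (nat_lit 196668) (nat_lit 14) (.e (nat_lit 73747) (nat_lit 3) (.e (nat_lit 516120) (nat_lit 1) (.e (nat_lit 164181) (nat_lit 154) .nil)))) (.g (nat_lit 0) (.e (nat_lit 218029) (nat_lit 0) .nil) .nil))) 
(.lf (nat_lit 518734) (.g (nat_lit 3235) (.e (nat_lit 196670) (nat_lit 14) (.e (nat_lit 73754) (nat_lit 8) (.e (nat_lit 557105) (nat_lit 14) (.e (nat_lit 180252) (nat_lit 10) (.e (nat_lit 573474) (nat_lit 12) (.e (nat_lit 57508) (nat_lit 39) (.e (nat_lit 647175) (nat_lit 0) (.e (nat_lit 2657) (nat_lit 167) .nil)))))))) (.g (nat_lit 1) (.e (nat_lit 219263) (nat_lit 0) .nil) .nil)))) 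
(.nd (nat_lit 9) 
(.lf (nat_lit 518478) (.g (nat_lit 1784) (.e (nat_lit 196670) (nat_lit 14) (.e (nat_lit 73746) (nat_lit 3) (.e (nat_lit 516117) (nat_lit 1) (.e (nat_lit 164160) (nat_lit 152) (.e (nat_lit 1027) (nat_lit 81) .nil))))) (.g (nat_lit 0) (.e (nat_lit 218743) (nat_lit 0) .nil) .nil))) 
(.lf (nat_lit 518990) (.g (nat_lit 537) (.e (nat_lit 196673) (nat_lit 15) (.e (nat_lit 81956) (nat_lit 23) (.e (nat_lit 98325) (nat_lit 17) .nil))) (.g (nat_lit 0) (.e (nat_lit 219765) (nat_lit 0) .nil) .nil))))) (.nd (nat_lit 8) (.nd (nat_lit 9) 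
(.lf (nat_lit 518350) (.g (nat_lit 2298) (.e (nat_lit 196668) (nat_lit 14) (.e (nat_lit 73753) (nat_lit 8) (.e (nat_lit 557105) (nat_lit 14) (.e (nat_lit 180252) (nat_lit 10) (.e (nat_lit 573475) (nat_lit 12) .nil))))) (.g (nat_lit 0) (.e (nat_lit 218389) (nat_lit 0) .nil) .nil))) 
(.lf (nat_lit 518862) (.g (nat_lit 358) (.e (nat_lit 196672) (nat_lit 15) (.e (nat_lit 81954) (nat_lit 23) (.e (nat_lit 98323) (nat_lit 17) .nil))) (.g (nat_lit 0) (.e (nat_lit 219542) (nat_lit 0) .nil) .nil)))) (.nd (nat_lit 9) 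
(.lf (nat_lit 518606) (.g (nat_lit 2837) (.e (nat_lit 196670) (nat_lit 14) (.e (nat_lit 73753) (nat_lit 8) (.e (nat_lit 557103) (nat_lit 14) (.e (nat_lit 180250) (nat_lit 10) (.e (nat_lit 573473) (nat_lit 12) (.e (nat_lit 57507) (nat_lit 39) (.e (nat_lit 655104) (nat_lit 0) (.e (nat_lit 2657) (nat_lit 167) .nil)))))))) (.g (nat_lit 1) (.e (nat_lit 219109) (nat_lit 0) .nil) .nil))) 
(.lf (nat_lit 519118) (.g (nat_lit 2485) (.e (nat_lit 196681) (nat_lit 17) (.e (nat_lit 131105) (nat_lit 9) (.e (nat_lit 336324) (nat_lit 18) (.e (nat_lit 204837) (nat_lit 20) (.e (nat_lit 114698) (nat_lit 11) (.e (nat_lit 426113) (nat_lit 2) .nil)))))) (.g (nat_lit 1) (.e (nat_lit 220113) (nat_lit 0) .nil) .nil))))))) (.nd (nat_lit 6) (.nd (nat_lit 7) (.nd (nat_lit 8) (.nd (nat_lit 9) 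
(.lf (nat_lit 518190) (.g (nat_lit 1832) (.e (nat_lit 196668) (nat_lit 14) (.e (nat_lit 73747) (nat_lit 3) (.e (nat_lit 516115) (nat_lit 1) (.e (nat_lit 164180) (nat_lit 154) .nil)))) (.g (nat_lit 0) (.e (nat_lit 217688) (nat_lit 0) .nil) .nil))) 
(.lf (nat_lit 518702) (.g (nat_lit 3587) (.e (nat_lit 196670) (nat_lit 14) (.e (nat_lit 73754) (nat_lit 8) (.e (nat_lit 557105) (nat_lit 14) (.e (nat_lit 180252) (nat_lit 10) (.e (nat_lit 573473) (nat_lit 12) (.e (nat_lit 57506) (nat_lit 39) (.e (nat_lit 655104) (nat_lit 0) (.e (nat_lit 2667) (nat_lit 167) .nil)))))))) (.g (nat_lit 1) (.e (nat_lit 219231) (nat_lit 0) .nil) .nil)))) 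
(.nd (nat_lit 9) 
(.lf (nat_lit 518446) (.g (nat_lit 3057) (.e (nat_lit 196669) (nat_lit 14) (.e (nat_lit 73755) (nat_lit 8) (.e (nat_lit 557105) (nat_lit 14) (.e (nat_lit 180252) (nat_lit 10) (.e (nat_lit 573474) (nat_lit 12) (.e (nat_lit 57507) (nat_lit 39) (.e (nat_lit 647176) (nat_lit 0) (.e (nat_lit 2667) (nat_lit 167) .nil)))))))) (.g (nat_lit 1) (.e (nat_lit 218583) (nat_lit 0) .nil) .nil))) 
(.lf (nat_lit 518958) (.g (nat_lit 793) (.e (nat_lit 196672) (nat_lit 15) (.e (nat_lit 81956) (nat_lit 23) (.e (nat_lit 106240) (nat_lit 17) .nil))) (.g (nat_lit 0) (.e (nat_lit 219702) (nat_lit 0) .nil) .nil))))) (.nd (nat_lit 8) (.nd (nat_lit 9) 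
(.lf (nat_lit 518318) (.g (nat_lit 4084) (.e (nat_lit 196668) (nat_lit 14) (.e (nat_lit 73753) (nat_lit 8) (.e (nat_lit 557103) (nat_lit 14) (.e (nat_lit 180250) (nat_lit 10) (.e (nat_lit 573475) (nat_lit 12) (.e (nat_lit 57508) (nat_lit 39) (.e (nat_lit 655104) (nat_lit 0) (.e (nat_lit 2667) (nat_lit 167) .nil)))))))) (.g (nat_lit 1) (.e (nat_lit 218353) (nat_lit 0) .nil) .nil))) 
(.lf (nat_lit 518830) (.g (nat_lit 2106) (.e (nat_lit 196672) (nat_lit 15) (.e (nat_lit 81943) (nat_lit 20) (.e (nat_lit 1841) (nat_lit 123) (.e (nat_lit 548890) (nat_lit 10) (.e (nat_lit 73782) (nat_lit 32) (.e (nat_lit 2664) (nat_lit 167) .nil)))))) (.g (nat_lit 1) (.e (nat_lit 219426) (nat_lit 0) .nil) .nil)))) (.nd (nat_lit 9) 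
(.lf (nat_lit 518574) (.g (nat_lit 5036) (.e (nat_lit 196670) (nat_lit 14) (.e (nat_lit 73746) (nat_lit 3) (.e (nat_lit 516131) (nat_lit 3) (.e (nat_lit 221214) (nat_lit 23) (.e (nat_lit 204830) (nat_lit 18) (.e (nat_lit 57931) (nat_lit 282) (.e (nat_lit 163869) (nat_lit 2) .nil))))))) (.g (nat_lit 1) (.e (nat_lit 219037) (nat_lit 0) .nil) .nil))) 
(.lf (nat_lit 519086) (.g (nat_lit 3418) (.e (nat_lit 196681) (nat_lit 17) (.e (nat_lit 131096) (nat_lit 3) (.e (nat_lit 98333) (nat_lit 18) (.e (nat_lit 164177) (nat_lit 154) (.e (nat_lit 57379) (nat_lit 3) (.e (nat_lit 98341) (nat_lit 20) (.e (nat_lit 221212) (nat_lit 22) .nil))))))) (.g (nat_lit 1) (.e (nat_lit 220045) (nat_lit 0) .nil) .nil)))))) 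
(.nd (nat_lit 7) (.nd (nat_lit 8) (.nd (nat_lit 9) 
(.lf (nat_lit 518254) (.g (nat_lit 2421) (.e (nat_lit 196668) (nat_lit 14) (.e (nat_lit 73747) (nat_lit 3) (.e (nat_lit 516129) (nat_lit 3) (.e (nat_lit 221215) (nat_lit 23) (.e (nat_lit 204828) (nat_lit 18) (.e (nat_lit 57927) (nat_lit 282) (.e (nat_lit 163866) (nat_lit 2) .nil))))))) (.g (nat_lit 1) (.e (nat_lit 218161) (nat_lit 0) .nil) .nil))) 
(.lf (nat_lit 518766) (.g (nat_lit 3760) (.e (nat_lit 196670) (nat_lit 14) (.e (nat_lit 73754) (nat_lit 8) (.e (nat_lit 557105) (nat_lit 14) (.e (nat_lit 180252) (nat_lit 10) (.e (nat_lit 573505) (nat_lit 18) (.e (nat_lit 7936) (nat_lit 81) (.e (nat_lit 5259) (nat_lit 298) (.e (nat_lit 162) (nat_lit 11) .nil)))))))) (.g (nat_lit 1) (.e (nat_lit 219295) (nat_lit 0) .nil) .nil)))) (.nd (nat_lit 9) 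
(.lf (nat_lit 518510) (.g (nat_lit 493) (.e (nat_lit 196670) (nat_lit 14) (.e (nat_lit 73746) (nat_lit 3) (.e (nat_lit 516126) (nat_lit 2) .nil))) (.g (nat_lit 0) (.e (nat_lit 218945) (nat_lit 0) .nil) .nil))) 
(.lf (nat_lit 519022) (.g (nat_lit 3014) (.e (nat_lit 196674) (nat_lit 15) (.e (nat_lit 81925) (nat_lit 11) (.e (nat_lit 426500) (nat_lit 27) (.e (nat_lit 335986) (nat_lit 1) (.e (nat_lit 57927) (nat_lit 282) (.e (nat_lit 163871) (nat_lit 2) .nil)))))) (.g (nat_lit 1) (.e (nat_lit 219811) (nat_lit 0) .nil) .nil))))) (.nd (nat_lit 8) (.nd (nat_lit 9) 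
(.lf (nat_lit 518382) (.g (nat_lit 2381) (.e (nat_lit 196669) (nat_lit 14) (.e (nat_lit 73746) (nat_lit 3) (.e (nat_lit 516119) (nat_lit 1) (.e (nat_lit 164179) (nat_lit 154) (.e (nat_lit 57377) (nat_lit 3) .nil))))) (.g (nat_lit 0) (.e (nat_lit 218494) (nat_lit 0) .nil) .nil))) 
(.lf (nat_lit 518894) (.g (nat_lit 2138) (.e (nat_lit 196672) (nat_lit 15) (.e (nat_lit 81954) (nat_lit 23) (.e (nat_lit 98349) (nat_lit 24) (.e (nat_lit 409618) (nat_lit 10) (.e (nat_lit 5728) (nat_lit 312) .nil))))) (.g (nat_lit 0) (.e (nat_lit 219594) (nat_lit 0) .nil) .nil)))) (.nd (nat_lit 9) 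
(.lf (nat_lit 518638) (.g (nat_lit 2738) (.e (nat_lit 196670) (nat_lit 14) (.e (nat_lit 73753) (nat_lit 8) (.e (nat_lit 557105) (nat_lit 14) (.e (nat_lit 180252) (nat_lit 10) (.e (nat_lit 573473) (nat_lit 12) (.e (nat_lit 57508) (nat_lit 39) (.e (nat_lit 647175) (nat_lit 0) (.e (nat_lit 2657) (nat_lit 167) .nil)))))))) (.g (nat_lit 1) (.e (nat_lit 219145) (nat_lit 0) .nil) .nil))) 
(.lf (nat_lit 519150) (.g (nat_lit 1069) (.e (nat_lit 196681) (nat_lit 17) (.e (nat_lit 131109) (nat_lit 9) (.e (nat_lit 336324) (nat_lit 18) (.e (nat_lit 204814) (nat_lit 17) .nil)))) (.g (nat_lit 0) (.e (nat_lit 220238) (nat_lit 0) .nil) .nil)))))))) (.nd (nat_lit 5) (.nd (nat_lit 6) (.nd (nat_lit 7) (.nd (nat_lit 8) (.nd (nat_lit 9) 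
(.lf (nat_lit 518174) (.g (nat_lit 3341) (.e (nat_lit 196668) (nat_lit 14) (.e (nat_lit 73746) (nat_lit 3) (.e (nat_lit 516129) (nat_lit 3) (.e (nat_lit 221215) (nat_lit 23) (.e (nat_lit 204828) (nat_lit 18) (.e (nat_lit 57931) (nat_lit 282) (.e (nat_lit 163869) (nat_lit 2) .nil))))))) (.g (nat_lit 1) (.e (nat_lit 217540) (nat_lit 0) .nil) .nil))) 
(.lf (nat_lit 518686) (.g (nat_lit 2360) (.e (nat_lit 196670) (nat_lit 14) (.e (nat_lit 73754) (nat_lit 8) (.e (nat_lit 557103) (nat_lit 14) (.e (nat_lit 180243) (nat_lit 5) (.e (nat_lit 532501) (nat_lit 1) .nil))))) (.g (nat_lit 0) (.e (nat_lit 219212) (nat_lit 0) .nil) .nil)))) (.nd (nat_lit 9) 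
(.lf (nat_lit 518430) (.g (nat_lit 1447) (.e (nat_lit 196669) (nat_lit 14) (.e (nat_lit 73755) (nat_lit 8) (.e (nat_lit 557104) (nat_lit 14) (.e (nat_lit 180244) (nat_lit 5) .nil)))) (.g (nat_lit 0) (.e (nat_lit 218566) (nat_lit 0) .nil) .nil))) 
(.lf (nat_lit 518942) (.g (nat_lit 342) (.e (nat_lit 196672) (nat_lit 15) (.e (nat_lit 81954) (nat_lit 23) (.e (nat_lit 98389) (nat_lit 33) .nil))) (.g (nat_lit 0) (.e (nat_lit 219682) (nat_lit 0) .nil) .nil))))) (.nd (nat_lit 8) (.nd (nat_lit 9) 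
(.lf (nat_lit 518302) (.g (nat_lit 3454) (.e (nat_lit 196668) (nat_lit 14) (.e (nat_lit 73753) (nat_lit 8) (.e (nat_lit 557103) (nat_lit 14) (.e (nat_lit 180244) (nat_lit 5) (.e (nat_lit 532504) (nat_lit 1) (.e (nat_lit 65280) (nat_lit 168) (.e (nat_lit 163869) (nat_lit 2) .nil))))))) (.g (nat_lit 1) (.e (nat_lit 218334) (nat_lit 0) .nil) .nil))) 
(.lf (nat_lit 518814) (.g (nat_lit 1283) (.e (nat_lit 196672) (nat_lit 15) (.e (nat_lit 81927) (nat_lit 11) (.e (nat_lit 426108) (nat_lit 1) (.e (nat_lit 164182) (nat_lit 154) .nil)))) (.g (nat_lit 0) (.e (nat_lit 219375) (nat_lit 0) .nil) .nil)))) (.nd (nat_lit 9) 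
(.lf (nat_lit 518558) (.g (nat_lit 851) (.e (nat_lit 196670) (nat_lit 14) (.e (nat_lit 73746) (nat_lit 3) (.e (nat_lit 516131) (nat_lit 3) (.e (nat_lit 221211) (nat_lit 22) .nil)))) (.g (nat_lit 0) (.e (nat_lit 219017) (nat_lit 0) .nil) .nil))) 
(.lf (nat_lit 519070) (.g (nat_lit 1077) (.e (nat_lit 196674) (nat_lit 15) (.e (nat_lit 81955) (nat_lit 23) (.e (nat_lit 98350) (nat_lit 24) (.e (nat_lit 409651) (nat_lit 19) .nil)))) (.g (nat_lit 0) (.e (nat_lit 219895) (nat_lit 0) .nil) .nil)))))) (.nd (nat_lit 7) (.nd (nat_lit 8) (.nd (nat_lit 9) 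
(.lf (nat_lit 518238) (.g (nat_lit 2535) (.e (nat_lit 196668) (nat_lit 14) (.e (nat_lit 73747) (nat_lit 3) (.e (nat_lit 516129) (nat_lit 3) (.e (nat_lit 221214) (nat_lit 23) (.e (nat_lit 204828) (nat_lit 18) (.e (nat_lit 57926) (nat_lit 282) (.e (nat_lit 163869) (nat_lit 2) .nil))))))) (.g (nat_lit 1) (.e (nat_lit 218139) (nat_lit 0) .nil) .nil))) 
(.lf (nat_lit 518750) (.g (nat_lit 2984) (.e (nat_lit 196670) (nat_lit 14) (.e (nat_lit 73754) (nat_lit 8) (.e (nat_lit 557105) (nat_lit 14) (.e (nat_lit 180252) (nat_lit 10) (.e (nat_lit 573475) (nat_lit 12) (.e (nat_lit 57507) (nat_lit 39) (.e (nat_lit 647176) (nat_lit 0) (.e (nat_lit 2665) (nat_lit 167) .nil)))))))) (.g (nat_lit 1) (.e (nat_lit 219279) (nat_lit 0) .nil) .nil)))) 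
(.nd (nat_lit 9) 
(.lf (nat_lit 518494) (.g (nat_lit 2209) (.e (nat_lit 196670) (nat_lit 14) (.e (nat_lit 73746) (nat_lit 3) (.e (nat_lit 516119) (nat_lit 1) (.e (nat_lit 164182) (nat_lit 154) (.e (nat_lit 57379) (nat_lit 3) .nil))))) (.g (nat_lit 0) (.e (nat_lit 218859) (nat_lit 0) .nil) .nil))) 
(.lf (nat_lit 519006) (.g (nat_lit 3067) (.e (nat_lit 196674) (nat_lit 15) (.e (nat_lit 81922) (nat_lit 0) (.e (nat_lit 3253) (nat_lit 197) (.e (nat_lit 532513) (nat_lit 3) (.e (nat_lit 114698) (nat_lit 11) (.e (nat_lit 426124) (nat_lit 2) .nil)))))) (.g (nat_lit 1) (.e (nat_lit 219788) (nat_lit 0) .nil) .nil))))) (.nd (nat_lit 8) (.nd (nat_lit 9) 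
(.lf (nat_lit 518366) (.g (nat_lit 3667) (.e (nat_lit 196668) (nat_lit 14) (.e (nat_lit 73782) (nat_lit 32) (.e (nat_lit 2664) (nat_lit 167) (.e (nat_lit 196666) (nat_lit 13) (.e (nat_lit 65628) (nat_lit 14) (.e (nat_lit 401425) (nat_lit 2) .nil)))))) (.g (nat_lit 1) (.e (nat_lit 218421) (nat_lit 0) .nil) .nil))) 
(.lf (nat_lit 518878) (.g (nat_lit 3544) (.e (nat_lit 196672) (nat_lit 15) (.e (nat_lit 81954) (nat_lit 23) (.e (nat_lit 98325) (nat_lit 17) (.e (nat_lit 6986) (nat_lit 377) (.e (nat_lit 2819) (nat_lit 181) (.e (nat_lit 311312) (nat_lit 2) .nil)))))) (.g (nat_lit 1) (.e (nat_lit 219570) (nat_lit 0) .nil) .nil)))) (.nd (nat_lit 9) 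
(.lf (nat_lit 518622) (.g (nat_lit 1544) (.e (nat_lit 196670) (nat_lit 14) (.e (nat_lit 73753) (nat_lit 8) (.e (nat_lit 557105) (nat_lit 14) (.e (nat_lit 188160) (nat_lit 3) .nil)))) (.g (nat_lit 0) (.e (nat_lit 219127) (nat_lit 0) .nil) .nil))) 
(.lf (nat_lit 519134) (.g (nat_lit 2122) (.e (nat_lit 196681) (nat_lit 17) (.e (nat_lit 131109) (nat_lit 9) (.e (nat_lit 336018) (nat_lit 3) (.e (nat_lit 98350) (nat_lit 24) (.e (nat_lit 409648) (nat_lit 18) (.e (nat_lit 311040) (nat_lit 2) .nil)))))) (.g (nat_lit 1) (.e (nat_lit 220186) (nat_lit 0) .nil) .nil))))))) (.nd (nat_lit 6) (.nd (nat_lit 7) (.nd (nat_lit 8) (.nd (nat_lit 9) 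
(.lf (nat_lit 518206) (.g (nat_lit 2849) (.e (nat_lit 196668) (nat_lit 14) (.e (nat_lit 73747) (nat_lit 3) (.e (nat_lit 516117) (nat_lit 1) (.e (nat_lit 164183) (nat_lit 154) (.e (nat_lit 57378) (nat_lit 3) (.e (nat_lit 98340) (nat_lit 20) (.e (nat_lit 221212) (nat_lit 22) .nil))))))) (.g (nat_lit 1) (.e (nat_lit 217893) (nat_lit 0) .nil) .nil))) 
(.lf (nat_lit 518718) (.g (nat_lit 3364) (.e (nat_lit 196670) (nat_lit 14) (.e (nat_lit 73754) (nat_lit 8) (.e (nat_lit 557105) (nat_lit 14) (.e (nat_lit 180252) (nat_lit 10) (.e (nat_lit 573473) (nat_lit 12) (.e (nat_lit 57508) (nat_lit 39) (.e (nat_lit 655104) (nat_lit 0) (.e (nat_lit 2657) (nat_lit 167) .nil)))))))) (.g (nat_lit 1) (.e (nat_lit 219247) (nat_lit 0) .nil) .nil)))) 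
(.nd (nat_lit 9) 
(.lf (nat_lit 518462) (.g (nat_lit 1890) (.e (nat_lit 196670) (nat_lit 14) (.e (nat_lit 73746) (nat_lit 3) (.e (nat_lit 516115) (nat_lit 1) (.e (nat_lit 164176) (nat_lit 154) .nil)))) (.g (nat_lit 0) (.e (nat_lit 218618) (nat_lit 0) .nil) .nil))) 
(.lf (nat_lit 518974) (.g (nat_lit 620) (.e (nat_lit 196672) (nat_lit 15) (.e (nat_lit 81957) (nat_lit 24) (.e (nat_lit 123023) (nat_lit 124) .nil))) (.g (nat_lit 0) (.e (nat_lit 219724) (nat_lit 0) .nil) .nil))))) (.nd (nat_lit 8) (.nd (nat_lit 9) 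
(.lf (nat_lit 518334) (.g (nat_lit 3305) (.e (nat_lit 196668) (nat_lit 14) (.e (nat_lit 73753) (nat_lit 8) (.e (nat_lit 557104) (nat_lit 14) (.e (nat_lit 180252) (nat_lit 10) (.e (nat_lit 573475) (nat_lit 12) (.e (nat_lit 57509) (nat_lit 39) (.e (nat_lit 655104) (nat_lit 0) (.e (nat_lit 2667) (nat_lit 167) .nil)))))))) (.g (nat_lit 1) (.e (nat_lit 218372) (nat_lit 0) .nil) .nil))) 
(.lf (nat_lit 518846) (.g (nat_lit 2822) (.e (nat_lit 196672) (nat_lit 15) (.e (nat_lit 81951) (nat_lit 22) (.e (nat_lit 90165) (nat_lit 12) (.e (nat_lit 164218) (nat_lit 179) (.e (nat_lit 164366) (nat_lit 246) (.e (nat_lit 2664) (nat_lit 167) .nil)))))) (.g (nat_lit 1) (.e (nat_lit 219476) (nat_lit 0) .nil) .nil)))) (.nd (nat_lit 9) 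
(.lf (nat_lit 518590) (.g (nat_lit 2381) (.e (nat_lit 196670) (nat_lit 14) (.e (nat_lit 73748) (nat_lit 3) (.e (nat_lit 516131) (nat_lit 3) (.e (nat_lit 221215) (nat_lit 23) (.e (nat_lit 204830) (nat_lit 18) (.e (nat_lit 57924) (nat_lit 282) (.e (nat_lit 163867) (nat_lit 2) .nil))))))) (.g (nat_lit 1) (.e (nat_lit 219053) (nat_lit 0) .nil) .nil))) 
(.lf (nat_lit 519102) (.g (nat_lit 3762) (.e (nat_lit 196681) (nat_lit 17) (.e (nat_lit 131098) (nat_lit 3) (.e (nat_lit 98333) (nat_lit 18) (.e (nat_lit 164182) (nat_lit 154) (.e (nat_lit 57379) (nat_lit 3) (.e (nat_lit 98341) (nat_lit 20) (.e (nat_lit 221212) (nat_lit 22) .nil))))))) (.g (nat_lit 1) (.e (nat_lit 220079) (nat_lit 0) .nil) .nil)))))) 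
(.nd (nat_lit 7) (.nd (nat_lit 8) (.nd (nat_lit 9) 
(.lf (nat_lit 518270) (.g (nat_lit 3201) (.e (nat_lit 196668) (nat_lit 14) (.e (nat_lit 73747) (nat_lit 3) (.e (nat_lit 516131) (nat_lit 3) (.e (nat_lit 221213) (nat_lit 23) (.e (nat_lit 204829) (nat_lit 18) (.e (nat_lit 57927) (nat_lit 282) (.e (nat_lit 163866) (nat_lit 2) .nil))))))) (.g (nat_lit 1) (.e (nat_lit 218191) (nat_lit 0) .nil) .nil))) 
(.lf (nat_lit 518782) (.g (nat_lit 409) (.e (nat_lit 196670) (nat_lit 14) (.e (nat_lit 73781) (nat_lit 32) (.e (nat_lit 2681) (nat_lit 168) .nil))) (.g (nat_lit 0) (.e (nat_lit 219326) (nat_lit 0) .nil) .nil)))) (.nd (nat_lit 9) 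
(.lf (nat_lit 518526) (.g (nat_lit 2650) (.e (nat_lit 196670) (nat_lit 14) (.e (nat_lit 73746) (nat_lit 3) (.e (nat_lit 516129) (nat_lit 3) (.e (nat_lit 221213) (nat_lit 23) (.e (nat_lit 204830) (nat_lit 18) (.e (nat_lit 57927) (nat_lit 282) (.e (nat_lit 163871) (nat_lit 2) .nil))))))) (.g (nat_lit 1) (.e (nat_lit 218984) (nat_lit 0) .nil) .nil))) 
(.lf (nat_lit 519038) (.g (nat_lit 1061) (.e (nat_lit 196674) (nat_lit 15) (.e (nat_lit 81946) (nat_lit 20) (.e (nat_lit 1858) (nat_lit 124) (.e (nat_lit 557072) (nat_lit 9) .nil)))) (.g (nat_lit 0) (.e (nat_lit 219830) (nat_lit 0) .nil) .nil))))) (.nd (nat_lit 8) (.nd (nat_lit 9) 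
(.lf (nat_lit 518398) (.g (nat_lit 2487) (.e (nat_lit 196669) (nat_lit 14) (.e (nat_lit 73747) (nat_lit 3) (.e (nat_lit 516115) (nat_lit 1) (.e (nat_lit 164183) (nat_lit 154) (.e (nat_lit 57379) (nat_lit 3) .nil))))) (.g (nat_lit 0) (.e (nat_lit 218510) (nat_lit 0) .nil) .nil))) 
(.lf (nat_lit 518910) (.g (nat_lit 3218) (.e (nat_lit 196672) (nat_lit 15) (.e (nat_lit 81954) (nat_lit 23) (.e (nat_lit 98350) (nat_lit 24) (.e (nat_lit 409616) (nat_lit 10) (.e (nat_lit 5628) (nat_lit 312) (.e (nat_lit 2654) (nat_lit 167) .nil)))))) (.g (nat_lit 1) (.e (nat_lit 219611) (nat_lit 0) .nil) .nil)))) (.nd (nat_lit 9) 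
(.lf (nat_lit 518654) (.g (nat_lit 3166) (.e (nat_lit 196670) (nat_lit 14) (.e (nat_lit 73753) (nat_lit 8) (.e (nat_lit 557105) (nat_lit 14) (.e (nat_lit 180252) (nat_lit 10) (.e (nat_lit 573474) (nat_lit 12) (.e (nat_lit 57507) (nat_lit 39) (.e (nat_lit 655104) (nat_lit 0) (.e (nat_lit 2656) (nat_lit 167) .nil)))))))) (.g (nat_lit 1) (.e (nat_lit 219161) (nat_lit 0) .nil) .nil))) 
(.lf (nat_lit 519166) (.g (nat_lit 3303) (.e (nat_lit 196681) (nat_lit 17) (.e (nat_lit 131109) (nat_lit 9) (.e (nat_lit 336324) (nat_lit 18) (.e (nat_lit 204838) (nat_lit 20) (.e (nat_lit 114694) (nat_lit 11) (.e (nat_lit 426124) (nat_lit 2) .nil)))))) (.g (nat_lit 1) (.e (nat_lit 220258) (nat_lit 0) .nil) .nil)))))))))))) 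
(.nd (nat_lit 1) (.nd (nat_lit 2) (.nd (nat_lit 3) (.nd (nat_lit 4) (.nd (nat_lit 5) 
(.nd (nat_lit 6) (.nd (nat_lit 7) (.nd (nat_lit 8) (.nd (nat_lit 9) 
(.lf (nat_lit 518145) (.g (nat_lit 1650) (.e (nat_lit 196668) (nat_lit 14) (.e (nat_lit 73746) (nat_lit 3) (.e (nat_lit 516119) (nat_lit 1) (.e (nat_lit 164179) (nat_lit 154) .nil)))) (.g (nat_lit 0) (.e (nat_lit 217432) (nat_lit 0) .nil) .nil))) 
(.lf (nat_lit 518657) (.g (nat_lit 2449) (.e (nat_lit 196670) (nat_lit 14) (.e (nat_lit 73753) (nat_lit 8) (.e (nat_lit 557105) (nat_lit 14) (.e (nat_lit 180252) (nat_lit 10) (.e (nat_lit 573474) (nat_lit 12) (.e (nat_lit 57508) (nat_lit 39) (.e (nat_lit 647168) (nat_lit 0) (.e (nat_lit 2665) (nat_lit 167) .nil)))))))) (.g (nat_lit 1) (.e (nat_lit 219164) (nat_lit 0) .nil) .nil)))) 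
(.nd (nat_lit 9) 
(.lf (nat_lit 518401) (.g (nat_lit 2155) (.e (nat_lit 196669) (nat_lit 14) (.e (nat_lit 73747) (nat_lit 3) (.e (nat_lit 516119) (nat_lit 1) (.e (nat_lit 164178) (nat_lit 154) (.e (nat_lit 57348) (nat_lit 0) .nil))))) (.g (nat_lit 0) (.e (nat_lit 218513) (nat_lit 0) .nil) .nil))) 
(.lf (nat_lit 518913) (.g (nat_lit 4201) (.e (nat_lit 196672) (nat_lit 15) (.e (nat_lit 81954) (nat_lit 23) (.e (nat_lit 98350) (nat_lit 24) (.e (nat_lit 409616) (nat_lit 10) (.e (nat_lit 5710) (nat_lit 312) (.e (nat_lit 2664) (nat_lit 167) .nil)))))) (.g (nat_lit 1) (.e (nat_lit 219614) (nat_lit 0) .nil) .nil))))) (.nd (nat_lit 8) (.nd (nat_lit 9) 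
(.lf (nat_lit 518273) (.g (nat_lit 3675) (.e (nat_lit 196668) (nat_lit 14) (.e (nat_lit 73747) (nat_lit 3) (.e (nat_lit 516131) (nat_lit 3) (.e (nat_lit 221214) (nat_lit 23) (.e (nat_lit 204829) (nat_lit 18) (.e (nat_lit 57927) (nat_lit 282) (.e (nat_lit 163866) (nat_lit 2) .nil))))))) (.g (nat_lit 1) (.e (nat_lit 218194) (nat_lit 0) .nil) .nil))) 
(.lf (nat_lit 518785) (.g (nat_lit 304) (.e (nat_lit 196670) (nat_lit 14) (.e (nat_lit 73781) (nat_lit 32) (.e (nat_lit 2682) (nat_lit 168) .nil))) (.g (nat_lit 0) (.e (nat_lit 219329) (nat_lit 0) .nil) .nil)))) (.nd (nat_lit 9) 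
(.lf (nat_lit 518529) (.g (nat_lit 2814) (.e (nat_lit 196670) (nat_lit 14) (.e (nat_lit 73746) (nat_lit 3) (.e (nat_lit 516129) (nat_lit 3) (.e (nat_lit 221214) (nat_lit 23) (.e (nat_lit 204828) (nat_lit 18) (.e (nat_lit 57924) (nat_lit 282) (.e (nat_lit 163867) (nat_lit 2) .nil))))))) (.g (nat_lit 1) (.e (nat_lit 218987) (nat_lit 0) .nil) .nil))) 
(.lf (nat_lit 519041) (.g (nat_lit 992) (.e (nat_lit 196674) (nat_lit 15) (.e (nat_lit 81946) (nat_lit 20) (.e (nat_lit 1858) (nat_lit 124) (.e (nat_lit 557089) (nat_lit 12) .nil)))) (.g (nat_lit 0) (.e (nat_lit 219833) (nat_lit 0) .nil) .nil)))))) (.nd (nat_lit 7) (.nd (nat_lit 8) (.nd (nat_lit 9) 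
(.lf (nat_lit 518209) (.g (nat_lit 3435) (.e (nat_lit 196668) (nat_lit 14) (.e (nat_lit 73747) (nat_lit 3) (.e (nat_lit 516118) (nat_lit 1) (.e (nat_lit 164183) (nat_lit 154) (.e (nat_lit 57378) (nat_lit 3) (.e (nat_lit 98342) (nat_lit 20) (.e (nat_lit 221212) (nat_lit 22) .nil))))))) (.g (nat_lit 1) (.e (nat_lit 217927) (nat_lit 0) .nil) .nil))) 
(.lf (nat_lit 518721) (.g (nat_lit 2913) (.e (nat_lit 196670) (nat_lit 14) (.e (nat_lit 73754) (nat_lit 8) (.e (nat_lit 557105) (nat_lit 14) (.e (nat_lit 180252) (nat_lit 10) (.e (nat_lit 573473) (nat_lit 12) (.e (nat_lit 57511) (nat_lit 39) (.e (nat_lit 647171) (nat_lit 0) (.e (nat_lit 2654) (nat_lit 167) .nil)))))))) (.g (nat_lit 1) (.e (nat_lit 219250) (nat_lit 0) .nil) .nil)))) 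
(.nd (nat_lit 9) 
(.lf (nat_lit 518465) (.g (nat_lit 2641) (.e (nat_lit 196670) (nat_lit 14) (.e (nat_lit 73746) (nat_lit 3) (.e (nat_lit 516115) (nat_lit 1) (.e (nat_lit 164179) (nat_lit 154) (.e (nat_lit 57376) (nat_lit 3) .nil))))) (.g (nat_lit 0) (.e (nat_lit 218663) (nat_lit 0) .nil) .nil))) 
(.lf (nat_lit 518977) (.g (nat_lit 512) (.e (nat_lit 196673) (nat_lit 15) (.e (nat_lit 81938) (nat_lit 20) (.e (nat_lit 1841) (nat_lit 123) .nil))) (.g (nat_lit 0) (.e (nat_lit 219735) (nat_lit 0) .nil) .nil))))) (.nd (nat_lit 8) (.nd (nat_lit 9) 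
(.lf (nat_lit 518337) (.g (nat_lit 4040) (.e (nat_lit 196668) (nat_lit 14) (.e (nat_lit 73753) (nat_lit 8) (.e (nat_lit 557105) (nat_lit 14) (.e (nat_lit 180252) (nat_lit 10) (.e (nat_lit 573473) (nat_lit 12) (.e (nat_lit 57507) (nat_lit 39) (.e (nat_lit 655104) (nat_lit 0) (.e (nat_lit 2667) (nat_lit 167) .nil)))))))) (.g (nat_lit 1) (.e (nat_lit 218376) (nat_lit 0) .nil) .nil))) 
(.lf (nat_lit 518849) (.g (nat_lit 1053) (.e (nat_lit 196672) (nat_lit 15) (.e (nat_lit 81953) (nat_lit 22) (.e (nat_lit 90133) (nat_lit 9) (.e (nat_lit 2400) (nat_lit 157) .nil)))) (.g (nat_lit 0) (.e (nat_lit 219514) (nat_lit 0) .nil) .nil)))) (.nd (nat_lit 9) 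
(.lf (nat_lit 518593) (.g (nat_lit 2343) (.e (nat_lit 196670) (nat_lit 14) (.e (nat_lit 73753) (nat_lit 8) (.e (nat_lit 557098) (nat_lit 13) (.e (nat_lit 172064) (nat_lit 2) (.e (nat_lit 204544) (nat_lit 0) .nil))))) (.g (nat_lit 0) (.e (nat_lit 219069) (nat_lit 0) .nil) .nil))) 
(.lf (nat_lit 519105) (.g (nat_lit 3693) (.e (nat_lit 196681) (nat_lit 17) (.e (nat_lit 131098) (nat_lit 3) (.e (nat_lit 98333) (nat_lit 18) (.e (nat_lit 164183) (nat_lit 154) (.e (nat_lit 57379) (nat_lit 3) (.e (nat_lit 98341) (nat_lit 20) (.e (nat_lit 221212) (nat_lit 22) .nil))))))) (.g (nat_lit 1) (.e (nat_lit 220085) (nat_lit 0) .nil) .nil))))))) 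
(.nd (nat_lit 6) (.nd (nat_lit 7) (.nd (nat_lit 8) (.nd (nat_lit 9) 
(.lf (nat_lit 518177) (.g (nat_lit 1110) (.e (nat_lit 196668) (nat_lit 14) (.e (nat_lit 73746) (nat_lit 3) (.e (nat_lit 516131) (nat_lit 3) (.e (nat_lit 221215) (nat_lit 23) .nil)))) (.g (nat_lit 0) (.e (nat_lit 217556) (nat_lit 0) .nil) .nil))) 
(.lf (nat_lit 518689) (.g (nat_lit 1607) (.e (nat_lit 196670) (nat_lit 14) (.e (nat_lit 73754) (nat_lit 8) (.e (nat_lit 557105) (nat_lit 14) (.e (nat_lit 188160) (nat_lit 3) .nil)))) (.g (nat_lit 0) (.e (nat_lit 219217) (nat_lit 0) .nil) .nil)))) (.nd (nat_lit 9) 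
(.lf (nat_lit 518433) (.g (nat_lit 2407) (.e (nat_lit 196669) (nat_lit 14) (.e (nat_lit 73755) (nat_lit 8) (.e (nat_lit 557104) (nat_lit 14) (.e (nat_lit 180244) (nat_lit 5) (.e (nat_lit 532501) (nat_lit 1) .nil))))) (.g (nat_lit 0) (.e (nat_lit 218569) (nat_lit 0) .nil) .nil))) 
(.lf (nat_lit 518945) (.g (nat_lit 2652) (.e (nat_lit 196672) (nat_lit 15) (.e (nat_lit 81955) (nat_lit 23) (.e (nat_lit 98350) (nat_lit 24) (.e (nat_lit 409616) (nat_lit 10) (.e (nat_lit 7936) (nat_lit 312) .nil))))) (.g (nat_lit 0) (.e (nat_lit 219687) (nat_lit 0) .nil) .nil))))) (.nd (nat_lit 8) (.nd (nat_lit 9) 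
(.lf (nat_lit 518305) (.g (nat_lit 3806) (.e (nat_lit 196668) (nat_lit 14) (.e (nat_lit 73753) (nat_lit 8) (.e (nat_lit 557103) (nat_lit 14) (.e (nat_lit 180250) (nat_lit 10) (.e (nat_lit 573473) (nat_lit 12) (.e (nat_lit 57507) (nat_lit 39) (.e (nat_lit 655104) (nat_lit 0) (.e (nat_lit 2657) (nat_lit 167) .nil)))))))) (.g (nat_lit 1) (.e (nat_lit 218340) (nat_lit 0) .nil) .nil))) 
(.lf (nat_lit 518817) (.g (nat_lit 104) (.e (nat_lit 196672) (nat_lit 15) (.e (nat_lit 81927) (nat_lit 11) (.e (nat_lit 426500) (nat_lit 27) .nil))) (.g (nat_lit 0) (.e (nat_lit 219384) (nat_lit 0) .nil) .nil)))) (.nd (nat_lit 9) 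
(.lf (nat_lit 518561) (.g (nat_lit 1431) (.e (nat_lit 196670) (nat_lit 14) (.e (nat_lit 73746) (nat_lit 3) (.e (nat_lit 516131) (nat_lit 3) (.e (nat_lit 221212) (nat_lit 22) (.e (nat_lit 196658) (nat_lit 12) .nil))))) (.g (nat_lit 0) (.e (nat_lit 219021) (nat_lit 0) .nil) .nil))) 
(.lf (nat_lit 519073) (.g (nat_lit 2173) (.e (nat_lit 196674) (nat_lit 15) (.e (nat_lit 81956) (nat_lit 23) (.e (nat_lit 98349) (nat_lit 24) (.e (nat_lit 409643) (nat_lit 18) (.e (nat_lit 303117) (nat_lit 2) .nil))))) (.g (nat_lit 0) (.e (nat_lit 219899) (nat_lit 0) .nil) .nil)))))) (.nd (nat_lit 7) (.nd (nat_lit 8) (.nd (nat_lit 9) 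
(.lf (nat_lit 518241) (.g (nat_lit 3705) (.e (nat_lit 196668) (nat_lit 14) (.e (nat_lit 73747) (nat_lit 3) (.e (nat_lit 516129) (nat_lit 3) (.e (nat_lit 221214) (nat_lit 23) (.e (nat_lit 204829) (nat_lit 18) (.e (nat_lit 57924) (nat_lit 282) (.e (nat_lit 163867) (nat_lit 2) .nil))))))) (.g (nat_lit 1) (.e (nat_lit 218142) (nat_lit 0) .nil) .nil))) 
(.lf (nat_lit 518753) (.g (nat_lit 3081) (.e (nat_lit 196670) (nat_lit 14) (.e (nat_lit 73754) (nat_lit 8) (.e (nat_lit 557105) (nat_lit 14) (.e (nat_lit 180252) (nat_lit 10) (.e (nat_lit 573475) (nat_lit 12) (.e (nat_lit 57508) (nat_lit 39) (.e (nat_lit 647170) (nat_lit 0) (.e (nat_lit 2662) (nat_lit 167) .nil)))))))) (.g (nat_lit 1) (.e (nat_lit 219282) (nat_lit 0) .nil) .nil)))) 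
(.nd (nat_lit 9) 
(.lf (nat_lit 518497) (.g (nat_lit 2298) (.e (nat_lit 196670) (nat_lit 14) (.e (nat_lit 73746) (nat_lit 3) (.e (nat_lit 516119) (nat_lit 1) (.e (nat_lit 164183) (nat_lit 154) (.e (nat_lit 57376) (nat_lit 3) .nil))))) (.g (nat_lit 0) (.e (nat_lit 218864) (nat_lit 0) .nil) .nil))) 
(.lf (nat_lit 519009) (.g (nat_lit 1591) (.e (nat_lit 196674) (nat_lit 15) (.e (nat_lit 81922) (nat_lit 0) (.e (nat_lit 3305) (nat_lit 202) (.e (nat_lit 573487) (nat_lit 14) (.e (nat_lit 81664) (nat_lit 32) .nil))))) (.g (nat_lit 0) (.e (nat_lit 219795) (nat_lit 0) .nil) .nil))))) (.nd (nat_lit 8) (.nd (nat_lit 9) 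
(.lf (nat_lit 518369) (.g (nat_lit 2959) (.e (nat_lit 196668) (nat_lit 14) (.e (nat_lit 73782) (nat_lit 32) (.e (nat_lit 2664) (nat_lit 167) (.e (nat_lit 196670) (nat_lit 14) (.e (nat_lit 73781) (nat_lit 32) (.e (nat_lit 2664) (nat_lit 167) .nil)))))) (.g (nat_lit 1) (.e (nat_lit 218424) (nat_lit 0) .nil) .nil))) 
(.lf (nat_lit 518881) (.g (nat_lit 1788) (.e (nat_lit 196672) (nat_lit 15) (.e (nat_lit 81954) (nat_lit 23) (.e (nat_lit 98325) (nat_lit 17) (.e (nat_lit 7095) (nat_lit 380) (.e (nat_lit 164358) (nat_lit 246) (.e (nat_lit 7936) (nat_lit 167) .nil)))))) (.g (nat_lit 1) (.e (nat_lit 219574) (nat_lit 0) .nil) .nil)))) (.nd (nat_lit 9) 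
(.lf (nat_lit 518625) (.g (nat_lit 959) (.e (nat_lit 196670) (nat_lit 14) (.e (nat_lit 73753) (nat_lit 8) (.e (nat_lit 557105) (nat_lit 14) (.e (nat_lit 180252) (nat_lit 10) .nil)))) (.g (nat_lit 0) (.e (nat_lit 219131) (nat_lit 0) .nil) .nil))) 
(.lf (nat_lit 519137) (.g (nat_lit 1992) (.e (nat_lit 196681) (nat_lit 17) (.e (nat_lit 131109) (nat_lit 9) (.e (nat_lit 336019) (nat_lit 3) (.e (nat_lit 98349) (nat_lit 24) (.e (nat_lit 417536) (nat_lit 18) (.e (nat_lit 303117) (nat_lit 2) .nil)))))) (.g (nat_lit 1) (.e (nat_lit 220194) (nat_lit 0) .nil) .nil)))))))) 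
(.nd (nat_lit 5) (.nd (nat_lit 6) (.nd (nat_lit 7) (.nd (nat_lit 8) (.nd (nat_lit 9) 
(.lf (nat_lit 518161) (.g (nat_lit 1505) (.e (nat_lit 196668) (nat_lit 14) (.e (nat_lit 73746) (nat_lit 3) (.e (nat_lit 516120) (nat_lit 1) (.e (nat_lit 164181) (nat_lit 154) .nil)))) (.g (nat_lit 0) (.e (nat_lit 217459) (nat_lit 0) .nil) .nil))) 
(.lf (nat_lit 518673) (.g (nat_lit 2511) (.e (nat_lit 196670) (nat_lit 14) (.e (nat_lit 73753) (nat_lit 8) (.e (nat_lit 557105) (nat_lit 14) (.e (nat_lit 180252) (nat_lit 10) (.e (nat_lit 573475) (nat_lit 12) (.e (nat_lit 57507) (nat_lit 39) (.e (nat_lit 655104) (nat_lit 0) (.e (nat_lit 2656) (nat_lit 167) .nil)))))))) (.g (nat_lit 1) (.e (nat_lit 219180) (nat_lit 0) .nil) .nil)))) 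
(.nd (nat_lit 9) 
(.lf (nat_lit 518417) (.g (nat_lit 3182) (.e (nat_lit 196669) (nat_lit 14) (.e (nat_lit 73754) (nat_lit 8) (.e (nat_lit 557105) (nat_lit 14) (.e (nat_lit 180252) (nat_lit 10) (.e (nat_lit 573474) (nat_lit 12) .nil))))) (.g (nat_lit 0) (.e (nat_lit 218535) (nat_lit 0) .nil) .nil))) 
(.lf (nat_lit 518929) (.g (nat_lit 1557) (.e (nat_lit 196672) (nat_lit 15) (.e (nat_lit 81954) (nat_lit 23) (.e (nat_lit 98352) (nat_lit 25) (.e (nat_lit 417830) (nat_lit 19) (.e (nat_lit 311310) (nat_lit 2) .nil))))) (.g (nat_lit 0) (.e (nat_lit 219634) (nat_lit 0) .nil) .nil))))) (.nd (nat_lit 8) (.nd (nat_lit 9) 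
(.lf (nat_lit 518289) (.g (nat_lit 5222) (.e (nat_lit 196668) (nat_lit 14) (.e (nat_lit 73747) (nat_lit 3) (.e (nat_lit 516131) (nat_lit 3) (.e (nat_lit 221215) (nat_lit 23) (.e (nat_lit 204830) (nat_lit 18) (.e (nat_lit 57931) (nat_lit 282) (.e (nat_lit 163869) (nat_lit 2) .nil))))))) (.g (nat_lit 1) (.e (nat_lit 218232) (nat_lit 0) .nil) .nil))) 
(.lf (nat_lit 518801) (.g (nat_lit 2995) (.e (nat_lit 196672) (nat_lit 15) (.e (nat_lit 81924) (nat_lit 0) (.e (nat_lit 3305) (nat_lit 202) (.e (nat_lit 573487) (nat_lit 14) (.e (nat_lit 73782) (nat_lit 32) (.e (nat_lit 2664) (nat_lit 167) .nil)))))) (.g (nat_lit 1) (.e (nat_lit 219358) (nat_lit 0) .nil) .nil)))) (.nd (nat_lit 9) 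
(.lf (nat_lit 518545) (.g (nat_lit 2843) (.e (nat_lit 196670) (nat_lit 14) (.e (nat_lit 73746) (nat_lit 3) (.e (nat_lit 516129) (nat_lit 3) (.e (nat_lit 221215) (nat_lit 23) (.e (nat_lit 204828) (nat_lit 18) (.e (nat_lit 57928) (nat_lit 282) (.e (nat_lit 163871) (nat_lit 2) .nil))))))) (.g (nat_lit 1) (.e (nat_lit 219003) (nat_lit 0) .nil) .nil))) 
(.lf (nat_lit 519057) (.g (nat_lit 1775) (.e (nat_lit 196674) (nat_lit 15) (.e (nat_lit 81954) (nat_lit 23) (.e (nat_lit 98350) (nat_lit 24) (.e (nat_lit 409649) (nat_lit 18) (.e (nat_lit 303116) (nat_lit 2) .nil))))) (.g (nat_lit 0) (.e (nat_lit 219881) (nat_lit 0) .nil) .nil)))))) (.nd (nat_lit 7) (.nd (nat_lit 8) (.nd (nat_lit 9) 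
(.lf (nat_lit 518225) (.g (nat_lit 3699) (.e (nat_lit 196668) (nat_lit 14) (.e (nat_lit 73747) (nat_lit 3) (.e (nat_lit 516120) (nat_lit 1) (.e (nat_lit 164182) (nat_lit 154) (.e (nat_lit 57378) (nat_lit 3) (.e (nat_lit 98342) (nat_lit 20) (.e (nat_lit 221212) (nat_lit 22) .nil))))))) (.g (nat_lit 1) (.e (nat_lit 218044) (nat_lit 0) .nil) .nil))) 
(.lf (nat_lit 518737) (.g (nat_lit 3170) (.e (nat_lit 196670) (nat_lit 14) (.e (nat_lit 73754) (nat_lit 8) (.e (nat_lit 557105) (nat_lit 14) (.e (nat_lit 180252) (nat_lit 10) (.e (nat_lit 573474) (nat_lit 12) (.e (nat_lit 57508) (nat_lit 39) (.e (nat_lit 655104) (nat_lit 0) (.e (nat_lit 2657) (nat_lit 167) .nil)))))))) (.g (nat_lit 1) (.e (nat_lit 219266) (nat_lit 0) .nil) .nil)))) 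
(.nd (nat_lit 9) 
(.lf (nat_lit 518481) (.g (nat_lit 3473) (.e (nat_lit 196670) (nat_lit 14) (.e (nat_lit 73746) (nat_lit 3) (.e (nat_lit 516117) (nat_lit 1) (.e (nat_lit 164183) (nat_lit 154) (.e (nat_lit 57379) (nat_lit 3) (.e (nat_lit 98340) (nat_lit 20) (.e (nat_lit 221212) (nat_lit 22) .nil))))))) (.g (nat_lit 1) (.e (nat_lit 218795) (nat_lit 0) .nil) .nil))) 
(.lf (nat_lit 518993) (.g (nat_lit 1107) (.e (nat_lit 196673) (nat_lit 15) (.e (nat_lit 81956) (nat_lit 23) (.e (nat_lit 98330) (nat_lit 17) .nil))) (.g (nat_lit 0) (.e (nat_lit 219768) (nat_lit 0) .nil) .nil))))) (.nd (nat_lit 8) (.nd (nat_lit 9) 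
(.lf (nat_lit 518353) (.g (nat_lit 3504) (.e (nat_lit 196668) (nat_lit 14) (.e (nat_lit 73753) (nat_lit 8) (.e (nat_lit 557105) (nat_lit 14) (.e (nat_lit 180252) (nat_lit 10) (.e (nat_lit 573475) (nat_lit 12) (.e (nat_lit 57509) (nat_lit 39) (.e (nat_lit 655104) (nat_lit 0) (.e (nat_lit 2667) (nat_lit 167) .nil)))))))) (.g (nat_lit 1) (.e (nat_lit 218392) (nat_lit 0) .nil) .nil))) 
(.lf (nat_lit 518865) (.g (nat_lit 4055) (.e (nat_lit 196672) (nat_lit 15) (.e (nat_lit 81954) (nat_lit 23) (.e (nat_lit 98323) (nat_lit 17) (.e (nat_lit 6989) (nat_lit 377) (.e (nat_lit 2819) (nat_lit 181) (.e (nat_lit 311312) (nat_lit 2) .nil)))))) (.g (nat_lit 1) (.e (nat_lit 219549) (nat_lit 0) .nil) .nil)))) (.nd (nat_lit 9) 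
(.lf (nat_lit 518609) (.g (nat_lit 3189) (.e (nat_lit 196670) (nat_lit 14) (.e (nat_lit 73753) (nat_lit 8) (.e (nat_lit 557103) (nat_lit 14) (.e (nat_lit 180250) (nat_lit 10) (.e (nat_lit 573474) (nat_lit 12) (.e (nat_lit 57507) (nat_lit 39) (.e (nat_lit 647176) (nat_lit 0) (.e (nat_lit 2667) (nat_lit 167) .nil)))))))) (.g (nat_lit 1) (.e (nat_lit 219112) (nat_lit 0) .nil) .nil))) 
(.lf (nat_lit 519121) (.g (nat_lit 1433) (.e (nat_lit 196681) (nat_lit 17) (.e (nat_lit 131105) (nat_lit 9) (.e (nat_lit 336324) (nat_lit 18) (.e (nat_lit 204837) (nat_lit 20) (.e (nat_lit 122624) (nat_lit 11) (.e (nat_lit 426115) (nat_lit 2) .nil)))))) (.g (nat_lit 1) (.e (nat_lit 220116) (nat_lit 0) .nil) .nil))))))) (.nd (nat_lit 6) (.nd (nat_lit 7) (.nd (nat_lit 8) (.nd (nat_lit 9) 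
(.lf (nat_lit 518193) (.g (nat_lit 1673) (.e (nat_lit 196668) (nat_lit 14) (.e (nat_lit 73747) (nat_lit 3) (.e (nat_lit 516115) (nat_lit 1) (.e (nat_lit 164182) (nat_lit 154) (.e (nat_lit 57379) (nat_lit 3) .nil))))) (.g (nat_lit 0) (.e (nat_lit 217732) (nat_lit 0) .nil) .nil))) 
(.lf (nat_lit 518705) (.g (nat_lit 2987) (.e (nat_lit 196670) (nat_lit 14) (.e (nat_lit 73754) (nat_lit 8) (.e (nat_lit 557105) (nat_lit 14) (.e (nat_lit 180252) (nat_lit 10) (.e (nat_lit 573473) (nat_lit 12) (.e (nat_lit 57507) (nat_lit 39) (.e (nat_lit 647176) (nat_lit 0) (.e (nat_lit 2665) (nat_lit 167) .nil)))))))) (.g (nat_lit 1) (.e (nat_lit 219234) (nat_lit 0) .nil) .nil)))) 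
(.nd (nat_lit 9) 
(.lf (nat_lit 518449) (.g (nat_lit 2554) (.e (nat_lit 196669) (nat_lit 14) (.e (nat_lit 73755) (nat_lit 8) (.e (nat_lit 557105) (nat_lit 14) (.e (nat_lit 180252) (nat_lit 10) (.e (nat_lit 573474) (nat_lit 12) (.e (nat_lit 57508) (nat_lit 39) (.e (nat_lit 647175) (nat_lit 0) (.e (nat_lit 2657) (nat_lit 167) .nil)))))))) (.g (nat_lit 1) (.e (nat_lit 218586) (nat_lit 0) .nil) .nil))) 
(.lf (nat_lit 518961) (.g (nat_lit 3505) (.e (nat_lit 196672) (nat_lit 15) (.e (nat_lit 81956) (nat_lit 23) (.e (nat_lit 98350) (nat_lit 24) (.e (nat_lit 409610) (nat_lit 10) .nil)))) (.g (nat_lit 0) (.e (nat_lit 219705) (nat_lit 0) .nil) .nil))))) (.nd (nat_lit 8) (.nd (nat_lit 9) 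
(.lf (nat_lit 518321) (.g (nat_lit 1953) (.e (nat_lit 196668) (nat_lit 14) (.e (nat_lit 73753) (nat_lit 8) (.e (nat_lit 557103) (nat_lit 14) (.e (nat_lit 180252) (nat_lit 10) .nil)))) (.g (nat_lit 0) (.e (nat_lit 218357) (nat_lit 0) .nil) .nil))) 
(.lf (nat_lit 518833) (.g (nat_lit 1038) (.e (nat_lit 196672) (nat_lit 15) (.e (nat_lit 81946) (nat_lit 20) (.e (nat_lit 1855) (nat_lit 124) (.e (nat_lit 564992) (nat_lit 11) .nil)))) (.g (nat_lit 0) (.e (nat_lit 219450) (nat_lit 0) .nil) .nil)))) (.nd (nat_lit 9) 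
(.lf (nat_lit 518577) (.g (nat_lit 1740) (.e (nat_lit 196670) (nat_lit 14) (.e (nat_lit 73746) (nat_lit 3) (.e (nat_lit 516131) (nat_lit 3) (.e (nat_lit 221215) (nat_lit 23) (.e (nat_lit 204821) (nat_lit 17) .nil))))) (.g (nat_lit 0) (.e (nat_lit 219040) (nat_lit 0) .nil) .nil))) 
(.lf (nat_lit 519089) (.g (nat_lit 1873) (.e (nat_lit 196681) (nat_lit 17) (.e (nat_lit 131096) (nat_lit 3) (.e (nat_lit 98333) (nat_lit 18) (.e (nat_lit 164179) (nat_lit 154) (.e (nat_lit 57379) (nat_lit 3) .nil))))) (.g (nat_lit 0) (.e (nat_lit 220052) (nat_lit 0) .nil) .nil)))))) (.nd (nat_lit 7) (.nd (nat_lit 8) (.nd (nat_lit 9) 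
(.lf (nat_lit 518257) (.g (nat_lit 3535) (.e (nat_lit 196668) (nat_lit 14) (.e (nat_lit 73747) (nat_lit 3) (.e (nat_lit 516129) (nat_lit 3) (.e (nat_lit 221215) (nat_lit 23) (.e (nat_lit 204829) (nat_lit 18) (.e (nat_lit 57924) (nat_lit 282) (.e (nat_lit 163867) (nat_lit 2) .nil))))))) (.g (nat_lit 1) (.e (nat_lit 218164) (nat_lit 0) .nil) .nil))) 
(.lf (nat_lit 518769) (.g (nat_lit 3533) (.e (nat_lit 196670) (nat_lit 14) (.e (nat_lit 73754) (nat_lit 8) (.e (nat_lit 557105) (nat_lit 14) (.e (nat_lit 180252) (nat_lit 10) (.e (nat_lit 581376) (nat_lit 19) (.e (nat_lit 57881) (nat_lit 270) (.e (nat_lit 162) (nat_lit 11) .nil))))))) (.g (nat_lit 1) (.e (nat_lit 219298) (nat_lit 0) .nil) .nil)))) (.nd (nat_lit 9) 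
(.lf (nat_lit 518513) (.g (nat_lit 1203) (.e (nat_lit 196670) (nat_lit 14) (.e (nat_lit 73746) (nat_lit 3) (.e (nat_lit 516129) (nat_lit 3) (.e (nat_lit 229120) (nat_lit 3) .nil)))) (.g (nat_lit 0) (.e (nat_lit 218963) (nat_lit 0) .nil) .nil))) 
(.lf (nat_lit 519025) (.g (nat_lit 2122) (.e (nat_lit 196674) (nat_lit 15) (.e (nat_lit 81925) (nat_lit 11) (.e (nat_lit 426500) (nat_lit 27) (.e (nat_lit 335988) (nat_lit 1) (.e (nat_lit 57924) (nat_lit 282) (.e (nat_lit 163867) (nat_lit 2) .nil)))))) (.g (nat_lit 1) (.e (nat_lit 219814) (nat_lit 0) .nil) .nil))))) (.nd (nat_lit 8) (.nd (nat_lit 9) 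
(.lf (nat_lit 518385) (.g (nat_lit 1811) (.e (nat_lit 196669) (nat_lit 14) (.e (nat_lit 73747) (nat_lit 3) (.e (nat_lit 516115) (nat_lit 1) (.e (nat_lit 164177) (nat_lit 154) .nil)))) (.g (nat_lit 0) (.e (nat_lit 218497) (nat_lit 0) .nil) .nil))) 
(.lf (nat_lit 518897) (.g (nat_lit 2583) (.e (nat_lit 196672) (nat_lit 15) (.e (nat_lit 81954) (nat_lit 23) (.e (nat_lit 98349) (nat_lit 24) (.e (nat_lit 409646) (nat_lit 18) (.e (nat_lit 311040) (nat_lit 2) .nil))))) (.g (nat_lit 0) (.e (nat_lit 219597) (nat_lit 0) .nil) .nil)))) (.nd (nat_lit 9) 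
(.lf (nat_lit 518641) (.g (nat_lit 2763) (.e (nat_lit 196670) (nat_lit 14) (.e (nat_lit 73753) (nat_lit 8) (.e (nat_lit 557105) (nat_lit 14) (.e (nat_lit 180252) (nat_lit 10) (.e (nat_lit 573473) (nat_lit 12) (.e (nat_lit 57508) (nat_lit 39) (.e (nat_lit 655104) (nat_lit 0) (.e (nat_lit 2657) (nat_lit 167) .nil)))))))) (.g (nat_lit 1) (.e (nat_lit 219148) (nat_lit 0) .nil) .nil))) 
(.lf (nat_lit 519153) (.g (nat_lit 2107) (.e (nat_lit 196681) (nat_lit 17) (.e (nat_lit 131109) (nat_lit 9) (.e (nat_lit 336324) (nat_lit 18) (.e (nat_lit 204835) (nat_lit 19) (.e (nat_lit 106535) (nat_lit 11) (.e (nat_lit 16412) (nat_lit 2) .nil)))))) (.g (nat_lit 1) (.e (nat_lit 220245) (nat_lit 0) .nil) .nil))))))))) 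
(.nd (nat_lit 4) (.nd (nat_lit 5) (.nd (nat_lit 6) (.nd (nat_lit 7) (.nd (nat_lit 8) 
(.nd (nat_lit 9) 
(.lf (nat_lit 518153) (.g (nat_lit 2395) (.e (nat_lit 196668) (nat_lit 14) (.e (nat_lit 73746) (nat_lit 3) (.e (nat_lit 516119) (nat_lit 1) (.e (nat_lit 164183) (nat_lit 154) (.e (nat_lit 57378) (nat_lit 3) .nil))))) (.g (nat_lit 0) (.e (nat_lit 217451) (nat_lit 0) .nil) .nil))) 
(.lf (nat_lit 518665) (.g (nat_lit 3191) (.e (nat_lit 196670) (nat_lit 14) (.e (nat_lit 73753) (nat_lit 8) (.e (nat_lit 557105) (nat_lit 14) (.e (nat_lit 180252) (nat_lit 10) (.e (nat_lit 573474) (nat_lit 12) (.e (nat_lit 57509) (nat_lit 39) (.e (nat_lit 647172) (nat_lit 0) (.e (nat_lit 2665) (nat_lit 167) .nil)))))))) (.g (nat_lit 1) (.e (nat_lit 219172) (nat_lit 0) .nil) .nil)))) 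
(.nd (nat_lit 9) 
(.lf (nat_lit 518409) (.g (nat_lit 983) (.e (nat_lit 196669) (nat_lit 14) (.e (nat_lit 73748) (nat_lit 3) (.e (nat_lit 516131) (nat_lit 3) (.e (nat_lit 221214) (nat_lit 23) .nil)))) (.g (nat_lit 0) (.e (nat_lit 218521) (nat_lit 0) .nil) .nil))) 
(.lf (nat_lit 518921) (.g (nat_lit 2357) (.e (nat_lit 196672) (nat_lit 15) (.e (nat_lit 81954) (nat_lit 23) (.e (nat_lit 98350) (nat_lit 24) (.e (nat_lit 409618) (nat_lit 10) (.e (nat_lit 5726) (nat_lit 312) (.e (nat_lit 2664) (nat_lit 167) .nil)))))) (.g (nat_lit 1) (.e (nat_lit 219623) (nat_lit 0) .nil) .nil))))) (.nd (nat_lit 8) (.nd (nat_lit 9) 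
(.lf (nat_lit 518281) (.g (nat_lit 4800) (.e (nat_lit 196668) (nat_lit 14) (.e (nat_lit 73747) (nat_lit 3) (.e (nat_lit 516131) (nat_lit 3) (.e (nat_lit 221214) (nat_lit 23) (.e (nat_lit 204831) (nat_lit 18) (.e (nat_lit 57931) (nat_lit 282) (.e (nat_lit 163869) (nat_lit 2) .nil))))))) (.g (nat_lit 1) (.e (nat_lit 218202) (nat_lit 0) .nil) .nil))) 
(.lf (nat_lit 518793) (.g (nat_lit 1576) (.e (nat_lit 196671) (nat_lit 15) (.e (nat_lit 81956) (nat_lit 23) (.e (nat_lit 98388) (nat_lit 33) (.e (nat_lit 491572) (nat_lit 14) .nil)))) (.g (nat_lit 0) (.e (nat_lit 219344) (nat_lit 0) .nil) .nil)))) (.nd (nat_lit 9) 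
(.lf (nat_lit 518537) (.g (nat_lit 4222) (.e (nat_lit 196670) (nat_lit 14) (.e (nat_lit 73746) (nat_lit 3) (.e (nat_lit 516129) (nat_lit 3) (.e (nat_lit 221214) (nat_lit 23) (.e (nat_lit 204830) (nat_lit 18) (.e (nat_lit 57930) (nat_lit 282) (.e (nat_lit 163867) (nat_lit 2) .nil))))))) (.g (nat_lit 1) (.e (nat_lit 218995) (nat_lit 0) .nil) .nil))) 
(.lf (nat_lit 519049) (.g (nat_lit 1925) (.e (nat_lit 196674) (nat_lit 15) (.e (nat_lit 81947) (nat_lit 20) (.e (nat_lit 1788) (nat_lit 119) (.e (nat_lit 516106) (nat_lit 0) (.e (nat_lit 7936) (nat_lit 377) .nil))))) (.g (nat_lit 0) (.e (nat_lit 219862) (nat_lit 0) .nil) .nil)))))) (.nd (nat_lit 7) (.nd (nat_lit 8) (.nd (nat_lit 9) 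
(.lf (nat_lit 518217) (.g (nat_lit 2812) (.e (nat_lit 196668) (nat_lit 14) (.e (nat_lit 73747) (nat_lit 3) (.e (nat_lit 516119) (nat_lit 1) (.e (nat_lit 164182) (nat_lit 154) (.e (nat_lit 57378) (nat_lit 3) (.e (nat_lit 98341) (nat_lit 20) (.e (nat_lit 221212) (nat_lit 22) .nil))))))) (.g (nat_lit 1) (.e (nat_lit 218018) (nat_lit 0) .nil) .nil))) 
(.lf (nat_lit 518729) (.g (nat_lit 3656) (.e (nat_lit 196670) (nat_lit 14) (.e (nat_lit 73754) (nat_lit 8) (.e (nat_lit 557105) (nat_lit 14) (.e (nat_lit 180252) (nat_lit 10) (.e (nat_lit 573474) (nat_lit 12) (.e (nat_lit 57507) (nat_lit 39) (.e (nat_lit 647170) (nat_lit 0) (.e (nat_lit 2662) (nat_lit 167) .nil)))))))) (.g (nat_lit 1) (.e (nat_lit 219258) (nat_lit 0) .nil) .nil)))) 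
(.nd (nat_lit 9) 
(.lf (nat_lit 518473) (.g (nat_lit 3506) (.e (nat_lit 196670) (nat_lit 14) (.e (nat_lit 73746) (nat_lit 3) (.e (nat_lit 516115) (nat_lit 1) (.e (nat_lit 164183) (nat_lit 154) (.e (nat_lit 57379) (nat_lit 3) (.e (nat_lit 98340) (nat_lit 20) (.e (nat_lit 221210) (nat_lit 22) .nil))))))) (.g (nat_lit 1) (.e (nat_lit 218736) (nat_lit 0) .nil) .nil))) 
(.lf (nat_lit 518985) (.g (nat_lit 1435) (.e (nat_lit 196673) (nat_lit 15) (.e (nat_lit 81954) (nat_lit 23) (.e (nat_lit 98349) (nat_lit 24) (.e (nat_lit 409643) (nat_lit 18) .nil)))) (.g (nat_lit 0) (.e (nat_lit 219760) (nat_lit 0) .nil) .nil))))) (.nd (nat_lit 8) (.nd (nat_lit 9) 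
(.lf (nat_lit 518345) (.g (nat_lit 4478) (.e (nat_lit 196668) (nat_lit 14) (.e (nat_lit 73753) (nat_lit 8) (.e (nat_lit 557105) (nat_lit 14) (.e (nat_lit 180252) (nat_lit 10) (.e (nat_lit 573474) (nat_lit 12) (.e (nat_lit 57507) (nat_lit 39) (.e (nat_lit 655104) (nat_lit 0) (.e (nat_lit 2667) (nat_lit 167) .nil)))))))) (.g (nat_lit 1) (.e (nat_lit 218384) (nat_lit 0) .nil) .nil))) 
(.lf (nat_lit 518857) (.g (nat_lit 2222) (.e (nat_lit 196672) (nat_lit 15) (.e (nat_lit 81954) (nat_lit 23) (.e (nat_lit 98320) (nat_lit 17) (.e (nat_lit 7109) (nat_lit 380) (.e (nat_lit 164359) (nat_lit 246) (.e (nat_lit 2654) (nat_lit 167) .nil)))))) (.g (nat_lit 1) (.e (nat_lit 219536) (nat_lit 0) .nil) .nil)))) (.nd (nat_lit 9) 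
(.lf (nat_lit 518601) (.g (nat_lit 1486) (.e (nat_lit 196670) (nat_lit 14) (.e (nat_lit 73753) (nat_lit 8) (.e (nat_lit 557103) (nat_lit 14) (.e (nat_lit 180243) (nat_lit 5) .nil)))) (.g (nat_lit 0) (.e (nat_lit 219099) (nat_lit 0) .nil) .nil))) 
(.lf (nat_lit 519113) (.g (nat_lit 2683) (.e (nat_lit 196681) (nat_lit 17) (.e (nat_lit 131105) (nat_lit 9) (.e (nat_lit 336019) (nat_lit 3) (.e (nat_lit 98350) (nat_lit 24) (.e (nat_lit 409648) (nat_lit 18) (.e (nat_lit 311040) (nat_lit 2) .nil)))))) (.g (nat_lit 1) (.e (nat_lit 220101) (nat_lit 0) .nil) .nil))))))) (.nd (nat_lit 6) (.nd (nat_lit 7) (.nd (nat_lit 8) (.nd (nat_lit 9) 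
(.lf (nat_lit 518185) (.g (nat_lit 2704) (.e (nat_lit 196668) (nat_lit 14) (.e (nat_lit 73747) (nat_lit 3) (.e (nat_lit 516115) (nat_lit 1) (.e (nat_lit 164179) (nat_lit 154) (.e (nat_lit 57351) (nat_lit 0) .nil))))) (.g (nat_lit 0) (.e (nat_lit 217584) (nat_lit 0) .nil) .nil))) 
(.lf (nat_lit 518697) (.g (nat_lit 2458) (.e (nat_lit 196670) (nat_lit 14) (.e (nat_lit 73754) (nat_lit 8) (.e (nat_lit 557105) (nat_lit 14) (.e (nat_lit 180252) (nat_lit 10) (.e (nat_lit 573451) (nat_lit 9) .nil))))) (.g (nat_lit 0) (.e (nat_lit 219226) (nat_lit 0) .nil) .nil)))) (.nd (nat_lit 9) 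
(.lf (nat_lit 518441) (.g (nat_lit 2327) (.e (nat_lit 196669) (nat_lit 14) (.e (nat_lit 73755) (nat_lit 8) (.e (nat_lit 557105) (nat_lit 14) (.e (nat_lit 180252) (nat_lit 10) (.e (nat_lit 573474) (nat_lit 12) (.e (nat_lit 57506) (nat_lit 39) (.e (nat_lit 647170) (nat_lit 0) (.e (nat_lit 2662) (nat_lit 167) .nil)))))))) (.g (nat_lit 1) (.e (nat_lit 218578) (nat_lit 0) .nil) .nil))) 
(.lf (nat_lit 518953) (.g (nat_lit 606) (.e (nat_lit 196672) (nat_lit 15) (.e (nat_lit 81956) (nat_lit 23) (.e (nat_lit 98320) (nat_lit 17) .nil))) (.g (nat_lit 0) (.e (nat_lit 219696) (nat_lit 0) .nil) .nil))))) (.nd (nat_lit 8) (.nd (nat_lit 9) 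
(.lf (nat_lit 518313) (.g (nat_lit 3617) (.e (nat_lit 196668) (nat_lit 14) (.e (nat_lit 73753) (nat_lit 8) (.e (nat_lit 557103) (nat_lit 14) (.e (nat_lit 180250) (nat_lit 10) (.e (nat_lit 573474) (nat_lit 12) (.e (nat_lit 57508) (nat_lit 39) (.e (nat_lit 647175) (nat_lit 0) (.e (nat_lit 2667) (nat_lit 167) .nil)))))))) (.g (nat_lit 1) (.e (nat_lit 218348) (nat_lit 0) .nil) .nil))) 
(.lf (nat_lit 518825) (.g (nat_lit 3181) (.e (nat_lit 196672) (nat_lit 15) (.e (nat_lit 81927) (nat_lit 11) (.e (nat_lit 426500) (nat_lit 27) (.e (nat_lit 335995) (nat_lit 1) (.e (nat_lit 57930) (nat_lit 282) (.e (nat_lit 163867) (nat_lit 2) .nil)))))) (.g (nat_lit 1) (.e (nat_lit 219392) (nat_lit 0) .nil) .nil)))) (.nd (nat_lit 9) 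
(.lf (nat_lit 518569) (.g (nat_lit 3397) (.e (nat_lit 196670) (nat_lit 14) (.e (nat_lit 73746) (nat_lit 3) (.e (nat_lit 516131) (nat_lit 3) (.e (nat_lit 221214) (nat_lit 23) (.e (nat_lit 204829) (nat_lit 18) (.e (nat_lit 57924) (nat_lit 282) (.e (nat_lit 163867) (nat_lit 2) .nil))))))) (.g (nat_lit 1) (.e (nat_lit 219032) (nat_lit 0) .nil) .nil))) 
(.lf (nat_lit 519081) (.g (nat_lit 4040) (.e (nat_lit 196674) (nat_lit 15) (.e (nat_lit 81956) (nat_lit 23) (.e (nat_lit 98350) (nat_lit 24) (.e (nat_lit 409651) (nat_lit 19) (.e (nat_lit 311312) (nat_lit 2) .nil))))) (.g (nat_lit 0) (.e (nat_lit 219907) (nat_lit 0) .nil) .nil)))))) (.nd (nat_lit 7) (.nd (nat_lit 8) (.nd (nat_lit 9) 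
(.lf (nat_lit 518249) (.g (nat_lit 3734) (.e (nat_lit 196668) (nat_lit 14) (.e (nat_lit 73747) (nat_lit 3) (.e (nat_lit 516129) (nat_lit 3) (.e (nat_lit 221214) (nat_lit 23) (.e (nat_lit 204830) (nat_lit 18) (.e (nat_lit 57930) (nat_lit 282) (.e (nat_lit 163869) (nat_lit 2) .nil))))))) (.g (nat_lit 1) (.e (nat_lit 218150) (nat_lit 0) .nil) .nil))) 
(.lf (nat_lit 518761) (.g (nat_lit 3090) (.e (nat_lit 196670) (nat_lit 14) (.e (nat_lit 73754) (nat_lit 8) (.e (nat_lit 557105) (nat_lit 14) (.e (nat_lit 180252) (nat_lit 10) (.e (nat_lit 573495) (nat_lit 16) .nil))))) (.g (nat_lit 0) (.e (nat_lit 219290) (nat_lit 0) .nil) .nil)))) (.nd (nat_lit 9) 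
(.lf (nat_lit 518505) (.g (nat_lit 3899) (.e (nat_lit 196670) (nat_lit 14) (.e (nat_lit 73746) (nat_lit 3) (.e (nat_lit 516120) (nat_lit 1) (.e (nat_lit 164182) (nat_lit 154) (.e (nat_lit 57379) (nat_lit 3) (.e (nat_lit 98340) (nat_lit 20) (.e (nat_lit 221210) (nat_lit 22) .nil))))))) (.g (nat_lit 1) (.e (nat_lit 218890) (nat_lit 0) .nil) .nil))) 
(.lf (nat_lit 519017) (.g (nat_lit 1377) (.e (nat_lit 196674) (nat_lit 15) (.e (nat_lit 81925) (nat_lit 11) (.e (nat_lit 426098) (nat_lit 1) (.e (nat_lit 164183) (nat_lit 154) (.e (nat_lit 65280) (nat_lit 12) .nil))))) (.g (nat_lit 0) (.e (nat_lit 219803) (nat_lit 0) .nil) .nil))))) (.nd (nat_lit 8) (.nd (nat_lit 9) 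
(.lf (nat_lit 518377) (.g (nat_lit 151) (.e (nat_lit 196668) (nat_lit 14) (.e (nat_lit 73789) (nat_lit 45) (.e (nat_lit 1141) (nat_lit 84) .nil))) (.g (nat_lit 0) (.e (nat_lit 218474) (nat_lit 0) .nil) .nil))) 
(.lf (nat_lit 518889) (.g (nat_lit 503) (.e (nat_lit 196672) (nat_lit 15) (.e (nat_lit 81954) (nat_lit 23) (.e (nat_lit 98349) (nat_lit 24) .nil))) (.g (nat_lit 0) (.e (nat_lit 219588) (nat_lit 0) .nil) .nil)))) (.nd (nat_lit 9) 
(.lf (nat_lit 518633) (.g (nat_lit 2728) (.e (nat_lit 196670) (nat_lit 14) (.e (nat_lit 73753) (nat_lit 8) (.e (nat_lit 557105) (nat_lit 14) (.e (nat_lit 180252) (nat_lit 10) (.e (nat_lit 573473) (nat_lit 12) (.e (nat_lit 57507) (nat_lit 39) (.e (nat_lit 655104) (nat_lit 0) (.e (nat_lit 2656) (nat_lit 167) .nil)))))))) (.g (nat_lit 1) (.e (nat_lit 219140) (nat_lit 0) .nil) .nil))) 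
(.lf (nat_lit 519145) (.g (nat_lit 4029) (.e (nat_lit 196681) (nat_lit 17) (.e (nat_lit 131109) (nat_lit 9) (.e (nat_lit 336019) (nat_lit 3) (.e (nat_lit 98350) (nat_lit 24) (.e (nat_lit 409649) (nat_lit 18) (.e (nat_lit 303117) (nat_lit 2) .nil)))))) (.g (nat_lit 1) (.e (nat_lit 220208) (nat_lit 0) .nil) .nil)))))))) 
(.nd (nat_lit 5) (.nd (nat_lit 6) (.nd (nat_lit 7) (.nd (nat_lit 8) (.nd (nat_lit 9) 
(.lf (nat_lit 518169) (.g (nat_lit 3836) (.e (nat_lit 196668) (nat_lit 14) (.e (nat_lit 73746) (nat_lit 3) (.e (nat_lit 516129) (nat_lit 3) (.e (nat_lit 221214) (nat_lit 23) (.e (nat_lit 204830) (nat_lit 18) (.e (nat_lit 57925) (nat_lit 282) (.e (nat_lit 163871) (nat_lit 2) .nil))))))) (.g (nat_lit 1) (.e (nat_lit 217532) (nat_lit 0) .nil) .nil))) 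
(.lf (nat_lit 518681) (.g (nat_lit 3272) (.e (nat_lit 196670) (nat_lit 14) (.e (nat_lit 73753) (nat_lit 8) (.e (nat_lit 557105) (nat_lit 14) (.e (nat_lit 180252) (nat_lit 10) (.e (nat_lit 573505) (nat_lit 18) (.e (nat_lit 1074) (nat_lit 81) (.e (nat_lit 5259) (nat_lit 298) (.e (nat_lit 162) (nat_lit 11) .nil)))))))) (.g (nat_lit 1) (.e (nat_lit 219188) (nat_lit 0) .nil) .nil)))) (.nd (nat_lit 9) 
(.lf (nat_lit 518425) (.g (nat_lit 556) (.e (nat_lit 196669) (nat_lit 14) (.e (nat_lit 73755) (nat_lit 8) (.e (nat_lit 557103) (nat_lit 14) .nil))) (.g (nat_lit 0) (.e (nat_lit 218560) (nat_lit 0) .nil) .nil))) 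
(.lf (nat_lit 518937) (.g (nat_lit 1511) (.e (nat_lit 196672) (nat_lit 15) (.e (nat_lit 81954) (nat_lit 23) (.e (nat_lit 98359) (nat_lit 26) (.e (nat_lit 426101) (nat_lit 1) .nil)))) (.g (nat_lit 0) (.e (nat_lit 219656) (nat_lit 0) .nil) .nil))))) (.nd (nat_lit 8) (.nd (nat_lit 9) 
(.lf (nat_lit 518297) (.g (nat_lit 1486) (.e (nat_lit 196668) (nat_lit 14) (.e (nat_lit 73753) (nat_lit 8) (.e (nat_lit 557103) (nat_lit 14) (.e (nat_lit 180244) (nat_lit 5) .nil)))) (.g (nat_lit 0) (.e (nat_lit 218328) (nat_lit 0) .nil) .nil))) 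
(.lf (nat_lit 518809) (.g (nat_lit 1218) (.e (nat_lit 196672) (nat_lit 15) (.e (nat_lit 81927) (nat_lit 11) (.e (nat_lit 426098) (nat_lit 1) (.e (nat_lit 164183) (nat_lit 154) (.e (nat_lit 57410) (nat_lit 12) .nil))))) (.g (nat_lit 0) (.e (nat_lit 219370) (nat_lit 0) .nil) .nil)))) (.nd (nat_lit 9) 
(.lf (nat_lit 518553) (.g (nat_lit 4090) (.e (nat_lit 196670) (nat_lit 14) (.e (nat_lit 73746) (nat_lit 3) (.e (nat_lit 516129) (nat_lit 3) (.e (nat_lit 221215) (nat_lit 23) (.e (nat_lit 204830) (nat_lit 18) (.e (nat_lit 57930) (nat_lit 282) (.e (nat_lit 163867) (nat_lit 2) .nil))))))) (.g (nat_lit 1) (.e (nat_lit 219011) (nat_lit 0) .nil) .nil))) 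
(.lf (nat_lit 519065) (.g (nat_lit 2386) (.e (nat_lit 196674) (nat_lit 15) (.e (nat_lit 81955) (nat_lit 23) (.e (nat_lit 98350) (nat_lit 24) (.e (nat_lit 409617) (nat_lit 10) (.e (nat_lit 5710) (nat_lit 312) .nil))))) (.g (nat_lit 0) (.e (nat_lit 219890) (nat_lit 0) .nil) .nil)))))) (.nd (nat_lit 7) (.nd (nat_lit 8) (.nd (nat_lit 9) 
(.lf (nat_lit 518233) (.g (nat_lit 513) (.e (nat_lit 196668) (nat_lit 14) (.e (nat_lit 73747) (nat_lit 3) (.e (nat_lit 516124) (nat_lit 2) .nil))) (.g (nat_lit 0) (.e (nat_lit 218101) (nat_lit 0) .nil) .nil))) 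
(.lf (nat_lit 518745) (.g (nat_lit 2184) (.e (nat_lit 196670) (nat_lit 14) (.e (nat_lit 73754) (nat_lit 8) (.e (nat_lit 557105) (nat_lit 14) (.e (nat_lit 180252) (nat_lit 10) (.e (nat_lit 573475) (nat_lit 12) (.e (nat_lit 57506) (nat_lit 39) (.e (nat_lit 647175) (nat_lit 0) (.e (nat_lit 2665) (nat_lit 167) .nil)))))))) (.g (nat_lit 1) (.e (nat_lit 219274) (nat_lit 0) .nil) .nil)))) 
(.nd (nat_lit 9) 
(.lf (nat_lit 518489) (.g (nat_lit 4007) (.e (nat_lit 196670) (nat_lit 14) (.e (nat_lit 73746) (nat_lit 3) (.e (nat_lit 516119) (nat_lit 1) (.e (nat_lit 164179) (nat_lit 154) (.e (nat_lit 57379) (nat_lit 3) (.e (nat_lit 98342) (nat_lit 20) (.e (nat_lit 221212) (nat_lit 22) .nil))))))) (.g (nat_lit 1) (.e (nat_lit 218852) (nat_lit 0) .nil) .nil))) 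
(.lf (nat_lit 519001) (.g (nat_lit 2136) (.e (nat_lit 196673) (nat_lit 15) (.e (nat_lit 81962) (nat_lit 25) (.e (nat_lit 139289) (nat_lit 9) (.e (nat_lit 2829) (nat_lit 182) (.e (nat_lit 409643) (nat_lit 18) (.e (nat_lit 303117) (nat_lit 2) .nil)))))) (.g (nat_lit 1) (.e (nat_lit 219779) (nat_lit 0) .nil) .nil))))) (.nd (nat_lit 8) (.nd (nat_lit 9) 
(.lf (nat_lit 518361) (.g (nat_lit 497) (.e (nat_lit 196668) (nat_lit 14) (.e (nat_lit 73781) (nat_lit 32) (.e (nat_lit 2664) (nat_lit 167) .nil))) (.g (nat_lit 0) (.e (nat_lit 218405) (nat_lit 0) .nil) .nil))) 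
(.lf (nat_lit 518873) (.g (nat_lit 1685) (.e (nat_lit 196672) (nat_lit 15) (.e (nat_lit 81954) (nat_lit 23) (.e (nat_lit 98323) (nat_lit 17) (.e (nat_lit 7107) (nat_lit 380) (.e (nat_lit 164364) (nat_lit 246) (.e (nat_lit 7936) (nat_lit 167) .nil)))))) (.g (nat_lit 1) (.e (nat_lit 219557) (nat_lit 0) .nil) .nil)))) (.nd (nat_lit 9) 
(.lf (nat_lit 518617) (.g (nat_lit 2526) (.e (nat_lit 196670) (nat_lit 14) (.e (nat_lit 73753) (nat_lit 8) (.e (nat_lit 557104) (nat_lit 14) (.e (nat_lit 180244) (nat_lit 5) (.e (nat_lit 532499) (nat_lit 1) .nil))))) (.g (nat_lit 0) (.e (nat_lit 219121) (nat_lit 0) .nil) .nil))) 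
(.lf (nat_lit 519129) (.g (nat_lit 1538) (.e (nat_lit 196681) (nat_lit 17) (.e (nat_lit 131105) (nat_lit 9) (.e (nat_lit 336324) (nat_lit 18) (.e (nat_lit 204838) (nat_lit 20) (.e (nat_lit 122624) (nat_lit 11) (.e (nat_lit 426115) (nat_lit 2) .nil)))))) (.g (nat_lit 1) (.e (nat_lit 220124) (nat_lit 0) .nil) .nil))))))) (.nd (nat_lit 6) (.nd (nat_lit 7) (.nd (nat_lit 8) (.nd (nat_lit 9) 
(.lf (nat_lit 518201) (.g (nat_lit 1360) (.e (nat_lit 196668) (nat_lit 14) (.e (nat_lit 73747) (nat_lit 3) (.e (nat_lit 516117) (nat_lit 1) (.e (nat_lit 164176) (nat_lit 154) .nil)))) (.g (nat_lit 0) (.e (nat_lit 217828) (nat_lit 0) .nil) .nil))) 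
(.lf (nat_lit 518713) (.g (nat_lit 2154) (.e (nat_lit 196670) (nat_lit 14) (.e (nat_lit 73754) (nat_lit 8) (.e (nat_lit 557105) (nat_lit 14) (.e (nat_lit 180252) (nat_lit 10) (.e (nat_lit 573473) (nat_lit 12) (.e (nat_lit 57508) (nat_lit 39) (.e (nat_lit 647171) (nat_lit 0) (.e (nat_lit 2665) (nat_lit 167) .nil)))))))) (.g (nat_lit 1) (.e (nat_lit 219242) (nat_lit 0) .nil) .nil)))) 
(.nd (nat_lit 9) 
(.lf (nat_lit 518457) (.g (nat_lit 3368) (.e (nat_lit 196669) (nat_lit 14) (.e (nat_lit 73782) (nat_lit 32) (.e (nat_lit 2682) (nat_lit 168) (.e (nat_lit 204846) (nat_lit 24) (.e (nat_lit 319490) (nat_lit 0) (.e (nat_lit 5664) (nat_lit 312) (.e (nat_lit 2661) (nat_lit 167) .nil))))))) (.g (nat_lit 1) (.e (nat_lit 218604) (nat_lit 0) .nil) .nil))) 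
(.lf (nat_lit 518969) (.g (nat_lit 625) (.e (nat_lit 196672) (nat_lit 15) (.e (nat_lit 81956) (nat_lit 23) (.e (nat_lit 98353) (nat_lit 25) .nil))) (.g (nat_lit 0) (.e (nat_lit 219713) (nat_lit 0) .nil) .nil))))) (.nd (nat_lit 8) (.nd (nat_lit 9) 
(.lf (nat_lit 518329) (.g (nat_lit 3633) (.e (nat_lit 196668) (nat_lit 14) (.e (nat_lit 73753) (nat_lit 8) (.e (nat_lit 557104) (nat_lit 14) (.e (nat_lit 180252) (nat_lit 10) (.e (nat_lit 573474) (nat_lit 12) (.e (nat_lit 57507) (nat_lit 39) (.e (nat_lit 655104) (nat_lit 0) (.e (nat_lit 2667) (nat_lit 167) .nil)))))))) (.g (nat_lit 1) (.e (nat_lit 218367) (nat_lit 0) .nil) .nil))) 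
(.lf (nat_lit 518841) (.g (nat_lit 399) (.e (nat_lit 196672) (nat_lit 15) (.e (nat_lit 81951) (nat_lit 22) (.e (nat_lit 90134) (nat_lit 9) .nil))) (.g (nat_lit 0) (.e (nat_lit 219467) (nat_lit 0) .nil) .nil)))) (.nd (nat_lit 9) 
(.lf (nat_lit 518585) (.g (nat_lit 2105) (.e (nat_lit 196670) (nat_lit 14) (.e (nat_lit 73746) (nat_lit 3) (.e (nat_lit 516131) (nat_lit 3) (.e (nat_lit 221215) (nat_lit 23) (.e (nat_lit 204830) (nat_lit 18) (.e (nat_lit 57931) (nat_lit 282) (.e (nat_lit 163866) (nat_lit 2) .nil))))))) (.g (nat_lit 1) (.e (nat_lit 219048) (nat_lit 0) .nil) .nil))) 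
(.lf (nat_lit 519097) (.g (nat_lit 3101) (.e (nat_lit 196681) (nat_lit 17) (.e (nat_lit 131096) (nat_lit 3) (.e (nat_lit 98335) (nat_lit 18) (.e (nat_lit 164179) (nat_lit 154) (.e (nat_lit 57377) (nat_lit 3) (.e (nat_lit 98342) (nat_lit 20) (.e (nat_lit 221212) (nat_lit 22) .nil))))))) (.g (nat_lit 1) (.e (nat_lit 220063) (nat_lit 0) .nil) .nil)))))) 
(.nd (nat_lit 7) (.nd (nat_lit 8) (.nd (nat_lit 9) 
(.lf (nat_lit 518265) (.g (nat_lit 483) (.e (nat_lit 196668) (nat_lit 14) (.e (nat_lit 73747) (nat_lit 3) (.e (nat_lit 516130) (nat_lit 3) .nil))) (.g (nat_lit 0) (.e (nat_lit 218174) (nat_lit 0) .nil) .nil))) 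
(.lf (nat_lit 518777) (.g (nat_lit 3753) (.e (nat_lit 196670) (nat_lit 14) (.e (nat_lit 73755) (nat_lit 8) (.e (nat_lit 557105) (nat_lit 14) (.e (nat_lit 180252) (nat_lit 10) (.e (nat_lit 573474) (nat_lit 12) (.e (nat_lit 57506) (nat_lit 39) (.e (nat_lit 655104) (nat_lit 0) (.e (nat_lit 2667) (nat_lit 167) .nil)))))))) (.g (nat_lit 1) (.e (nat_lit 219316) (nat_lit 0) .nil) .nil)))) 
(.nd (nat_lit 9) 
(.lf (nat_lit 518521) (.g (nat_lit 1398) (.e (nat_lit 196670) (nat_lit 14) (.e (nat_lit 73746) (nat_lit 3) (.e (nat_lit 516129) (nat_lit 3) (.e (nat_lit 221211) (nat_lit 22) .nil)))) (.g (nat_lit 0) (.e (nat_lit 218979) (nat_lit 0) .nil) .nil))) 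
(.lf (nat_lit 519033) (.g (nat_lit 2615) (.e (nat_lit 196674) (nat_lit 15) (.e (nat_lit 81946) (nat_lit 20) (.e (nat_lit 1841) (nat_lit 123) (.e (nat_lit 548890) (nat_lit 10) (.e (nat_lit 73782) (nat_lit 32) (.e (nat_lit 2664) (nat_lit 167) .nil)))))) (.g (nat_lit 1) (.e (nat_lit 219823) (nat_lit 0) .nil) .nil))))) (.nd (nat_lit 8) (.nd (nat_lit 9) 
(.lf (nat_lit 518393) (.g (nat_lit 1653) (.e (nat_lit 196669) (nat_lit 14) (.e (nat_lit 73747) (nat_lit 3) (.e (nat_lit 516115) (nat_lit 1) (.e (nat_lit 164182) (nat_lit 154) .nil)))) (.g (nat_lit 0) (.e (nat_lit 218505) (nat_lit 0) .nil) .nil))) 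
(.lf (nat_lit 518905) (.g (nat_lit 2445) (.e (nat_lit 196672) (nat_lit 15) (.e (nat_lit 81954) (nat_lit 23) (.e (nat_lit 98350) (nat_lit 24) (.e (nat_lit 409611) (nat_lit 10) .nil)))) (.g (nat_lit 0) (.e (nat_lit 219605) (nat_lit 0) .nil) .nil)))) (.nd (nat_lit 9) 
(.lf (nat_lit 518649) (.g (nat_lit 2817) (.e (nat_lit 196670) (nat_lit 14) (.e (nat_lit 73753) (nat_lit 8) (.e (nat_lit 557105) (nat_lit 14) (.e (nat_lit 180252) (nat_lit 10) (.e (nat_lit 573474) (nat_lit 12) (.e (nat_lit 57347) (nat_lit 0) (.e (nat_lit 5438) (nat_lit 306) (.e (nat_lit 2461) (nat_lit 157) (.e (nat_lit 2667) (nat_lit 167) .nil))))))))) (.g (nat_lit 1) (.e (nat_lit 219156) (nat_lit 0) .nil) .nil))) 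
(.lf (nat_lit 519161) (.g (nat_lit 3244) (.e (nat_lit 196681) (nat_lit 17) (.e (nat_lit 131109) (nat_lit 9) (.e (nat_lit 336324) (nat_lit 18) (.e (nat_lit 204837) (nat_lit 20) (.e (nat_lit 114698) (nat_lit 11) (.e (nat_lit 426121) (nat_lit 2) .nil)))))) (.g (nat_lit 1) (.e (nat_lit 220253) (nat_lit 0) .nil) .nil)))))))))) 
(.nd (nat_lit 3) (.nd (nat_lit 4) (.nd (nat_lit 5) (.nd (nat_lit 6) (.nd (nat_lit 7) 
(.nd (nat_lit 8) (.nd (nat_lit 9) 
(.lf (nat_lit 518149) (.g (nat_lit 1637) (.e (nat_lit 196668) (nat_lit 14) (.e (nat_lit 73746) (nat_lit 3) (.e (nat_lit 516119) (nat_lit 1) (.e (nat_lit 164182) (nat_lit 154) .nil)))) (.g (nat_lit 0) (.e (nat_lit 217447) (nat_lit 0) .nil) .nil))) 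
(.lf (nat_lit 518661) (.g (nat_lit 2669) (.e (nat_lit 196670) (nat_lit 14) (.e (nat_lit 73753) (nat_lit 8) (.e (nat_lit 557105) (nat_lit 14) (.e (nat_lit 180252) (nat_lit 10) (.e (nat_lit 573474) (nat_lit 12) (.e (nat_lit 57508) (nat_lit 39) (.e (nat_lit 647176) (nat_lit 0) (.e (nat_lit 2665) (nat_lit 167) .nil)))))))) (.g (nat_lit 1) (.e (nat_lit 219168) (nat_lit 0) .nil) .nil)))) 
(.nd (nat_lit 9) 
(.lf (nat_lit 518405) (.g (nat_lit 2686) (.e (nat_lit 196669) (nat_lit 14) (.e (nat_lit 73747) (nat_lit 3) (.e (nat_lit 516119) (nat_lit 1) (.e (nat_lit 164179) (nat_lit 154) (.e (nat_lit 57379) (nat_lit 3) .nil))))) (.g (nat_lit 0) (.e (nat_lit 218517) (nat_lit 0) .nil) .nil))) 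
(.lf (nat_lit 518917) (.g (nat_lit 3424) (.e (nat_lit 196672) (nat_lit 15) (.e (nat_lit 81954) (nat_lit 23) (.e (nat_lit 98350) (nat_lit 24) (.e (nat_lit 409617) (nat_lit 10) (.e (nat_lit 7936) (nat_lit 312) (.e (nat_lit 2667) (nat_lit 167) .nil)))))) (.g (nat_lit 1) (.e (nat_lit 219619) (nat_lit 0) .nil) .nil))))) (.nd (nat_lit 8) (.nd (nat_lit 9) 
(.lf (nat_lit 518277) (.g (nat_lit 3345) (.e (nat_lit 196668) (nat_lit 14) (.e (nat_lit 73747) (nat_lit 3) (.e (nat_lit 516131) (nat_lit 3) (.e (nat_lit 221214) (nat_lit 23) (.e (nat_lit 204830) (nat_lit 18) (.e (nat_lit 57930) (nat_lit 282) (.e (nat_lit 163867) (nat_lit 2) .nil))))))) (.g (nat_lit 1) (.e (nat_lit 218198) (nat_lit 0) .nil) .nil))) 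
(.lf (nat_lit 518789) (.g (nat_lit 536) (.e (nat_lit 196671) (nat_lit 15) (.e (nat_lit 81947) (nat_lit 20) (.e (nat_lit 1774) (nat_lit 118) .nil))) (.g (nat_lit 0) (.e (nat_lit 219337) (nat_lit 0) .nil) .nil)))) (.nd (nat_lit 9) 
(.lf (nat_lit 518533) (.g (nat_lit 3992) (.e (nat_lit 196670) (nat_lit 14) (.e (nat_lit 73746) (nat_lit 3) (.e (nat_lit 516129) (nat_lit 3) (.e (nat_lit 221214) (nat_lit 23) (.e (nat_lit 204829) (nat_lit 18) (.e (nat_lit 57930) (nat_lit 282) (.e (nat_lit 163867) (nat_lit 2) .nil))))))) (.g (nat_lit 1) (.e (nat_lit 218991) (nat_lit 0) .nil) .nil))) 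
(.lf (nat_lit 519045) (.g (nat_lit 2515) (.e (nat_lit 196674) (nat_lit 15) (.e (nat_lit 81946) (nat_lit 20) (.e (nat_lit 1858) (nat_lit 124) (.e (nat_lit 557093) (nat_lit 12) (.e (nat_lit 164022) (nat_lit 46) .nil))))) (.g (nat_lit 0) (.e (nat_lit 219858) (nat_lit 0) .nil) .nil)))))) (.nd (nat_lit 7) (.nd (nat_lit 8) (.nd (nat_lit 9) 
(.lf (nat_lit 518213) (.g (nat_lit 2174) (.e (nat_lit 196668) (nat_lit 14) (.e (nat_lit 73747) (nat_lit 3) (.e (nat_lit 516119) (nat_lit 1) (.e (nat_lit 164179) (nat_lit 154) (.e (nat_lit 57378) (nat_lit 3) .nil))))) (.g (nat_lit 0) (.e (nat_lit 218003) (nat_lit 0) .nil) .nil))) 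
(.lf (nat_lit 518725) (.g (nat_lit 3007) (.e (nat_lit 196670) (nat_lit 14) (.e (nat_lit 73754) (nat_lit 8) (.e (nat_lit 557105) (nat_lit 14) (.e (nat_lit 180252) (nat_lit 10) (.e (nat_lit 573474) (nat_lit 12) (.e (nat_lit 57347) (nat_lit 0) (.e (nat_lit 5436) (nat_lit 306) (.e (nat_lit 2433) (nat_lit 157) (.e (nat_lit 2668) (nat_lit 167) .nil))))))))) (.g (nat_lit 1) (.e (nat_lit 219254) (nat_lit 0) .nil) .nil)))) 
(.nd (nat_lit 9) 
(.lf (nat_lit 518469) (.g (nat_lit 1890) (.e (nat_lit 196670) (nat_lit 14) (.e (nat_lit 73746) (nat_lit 3) (.e (nat_lit 516115) (nat_lit 1) (.e (nat_lit 164181) (nat_lit 154) .nil)))) (.g (nat_lit 0) (.e (nat_lit 218678) (nat_lit 0) .nil) .nil))) 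
(.lf (nat_lit 518981) (.g (nat_lit 443) (.e (nat_lit 196673) (nat_lit 15) (.e (nat_lit 81951) (nat_lit 22) (.e (nat_lit 90165) (nat_lit 12) .nil))) (.g (nat_lit 0) (.e (nat_lit 219754) (nat_lit 0) .nil) .nil))))) (.nd (nat_lit 8) (.nd (nat_lit 9) 
(.lf (nat_lit 518341) (.g (nat_lit 3434) (.e (nat_lit 196668) (nat_lit 14) (.e (nat_lit 73753) (nat_lit 8) (.e (nat_lit 557105) (nat_lit 14) (.e (nat_lit 180252) (nat_lit 10) (.e (nat_lit 573474) (nat_lit 12) (.e (nat_lit 57506) (nat_lit 39) (.e (nat_lit 647175) (nat_lit 0) (.e (nat_lit 2667) (nat_lit 167) .nil)))))))) (.g (nat_lit 1) (.e (nat_lit 218380) (nat_lit 0) .nil) .nil))) 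
(.lf (nat_lit 518853) (.g (nat_lit 1131) (.e (nat_lit 196672) (nat_lit 15) (.e (nat_lit 81953) (nat_lit 22) (.e (nat_lit 90165) (nat_lit 12) (.e (nat_lit 164207) (nat_lit 176) .nil)))) (.g (nat_lit 0) (.e (nat_lit 219519) (nat_lit 0) .nil) .nil)))) (.nd (nat_lit 9) 
(.lf (nat_lit 518597) (.g (nat_lit 2004) (.e (nat_lit 196670) (nat_lit 14) (.e (nat_lit 73753) (nat_lit 8) (.e (nat_lit 557100) (nat_lit 13) (.e (nat_lit 179968) (nat_lit 22) .nil)))) (.g (nat_lit 0) (.e (nat_lit 219087) (nat_lit 0) .nil) .nil))) 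
(.lf (nat_lit 519109) (.g (nat_lit 2093) (.e (nat_lit 196681) (nat_lit 17) (.e (nat_lit 131098) (nat_lit 3) (.e (nat_lit 98335) (nat_lit 18) (.e (nat_lit 164182) (nat_lit 154) (.e (nat_lit 57379) (nat_lit 3) .nil))))) (.g (nat_lit 0) (.e (nat_lit 220091) (nat_lit 0) .nil) .nil))))))) (.nd (nat_lit 6) (.nd (nat_lit 7) (.nd (nat_lit 8) (.nd (nat_lit 9) 
(.lf (nat_lit 518181) (.g (nat_lit 2186) (.e (nat_lit 196668) (nat_lit 14) (.e (nat_lit 73747) (nat_lit 3) (.e (nat_lit 516115) (nat_lit 1) (.e (nat_lit 164159) (nat_lit 152) (.e (nat_lit 1183) (nat_lit 87) .nil))))) (.g (nat_lit 0) (.e (nat_lit 217565) (nat_lit 0) .nil) .nil))) 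
(.lf (nat_lit 518693) (.g (nat_lit 2285) (.e (nat_lit 196670) (nat_lit 14) (.e (nat_lit 73754) (nat_lit 8) (.e (nat_lit 557105) (nat_lit 14) (.e (nat_lit 180251) (nat_lit 10) (.e (nat_lit 573477) (nat_lit 12) (.e (nat_lit 57511) (nat_lit 39) (.e (nat_lit 647171) (nat_lit 0) (.e (nat_lit 2665) (nat_lit 167) .nil)))))))) (.g (nat_lit 1) (.e (nat_lit 219221) (nat_lit 0) .nil) .nil)))) 
(.nd (nat_lit 9) 
(.lf (nat_lit 518437) (.g (nat_lit 514) (.e (nat_lit 196669) (nat_lit 14) (.e (nat_lit 73755) (nat_lit 8) (.e (nat_lit 557105) (nat_lit 14) .nil))) (.g (nat_lit 0) (.e (nat_lit 218573) (nat_lit 0) .nil) .nil))) 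
(.lf (nat_lit 518949) (.g (nat_lit 1354) (.e (nat_lit 196672) (nat_lit 15) (.e (nat_lit 81955) (nat_lit 23) (.e (nat_lit 98350) (nat_lit 24) (.e (nat_lit 409650) (nat_lit 19) .nil)))) (.g (nat_lit 0) (.e (nat_lit 219691) (nat_lit 0) .nil) .nil))))) (.nd (nat_lit 8) (.nd (nat_lit 9) 
(.lf (nat_lit 518309) (.g (nat_lit 4357) (.e (nat_lit 196668) (nat_lit 14) (.e (nat_lit 73753) (nat_lit 8) (.e (nat_lit 557103) (nat_lit 14) (.e (nat_lit 180250) (nat_lit 10) (.e (nat_lit 573473) (nat_lit 12) (.e (nat_lit 57511) (nat_lit 39) (.e (nat_lit 655104) (nat_lit 0) (.e (nat_lit 2667) (nat_lit 167) .nil)))))))) (.g (nat_lit 1) (.e (nat_lit 218344) (nat_lit 0) .nil) .nil))) 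
(.lf (nat_lit 518821) (.g (nat_lit 2447) (.e (nat_lit 196672) (nat_lit 15) (.e (nat_lit 81927) (nat_lit 11) (.e (nat_lit 426500) (nat_lit 27) (.e (nat_lit 335988) (nat_lit 1) (.e (nat_lit 57928) (nat_lit 282) (.e (nat_lit 163868) (nat_lit 2) .nil)))))) (.g (nat_lit 1) (.e (nat_lit 219388) (nat_lit 0) .nil) .nil)))) (.nd (nat_lit 9) 
(.lf (nat_lit 518565) (.g (nat_lit 1446) (.e (nat_lit 196670) (nat_lit 14) (.e (nat_lit 73746) (nat_lit 3) (.e (nat_lit 516131) (nat_lit 3) (.e (nat_lit 221212) (nat_lit 22) (.e (nat_lit 196677) (nat_lit 16) .nil))))) (.g (nat_lit 0) (.e (nat_lit 219025) (nat_lit 0) .nil) .nil))) 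
(.lf (nat_lit 519077) (.g (nat_lit 2347) (.e (nat_lit 196674) (nat_lit 15) (.e (nat_lit 81956) (nat_lit 23) (.e (nat_lit 98350) (nat_lit 24) (.e (nat_lit 409643) (nat_lit 18) .nil)))) (.g (nat_lit 0) (.e (nat_lit 219903) (nat_lit 0) .nil) .nil)))))) (.nd (nat_lit 7) (.nd (nat_lit 8) (.nd (nat_lit 9) 
(.lf (nat_lit 518245) (.g (nat_lit 3650) (.e (nat_lit 196668) (nat_lit 14) (.e (nat_lit 73747) (nat_lit 3) (.e (nat_lit 516129) (nat_lit 3) (.e (nat_lit 221214) (nat_lit 23) (.e (nat_lit 204829) (nat_lit 18) (.e (nat_lit 57931) (nat_lit 282) (.e (nat_lit 163866) (nat_lit 2) .nil))))))) (.g (nat_lit 1) (.e (nat_lit 218146) (nat_lit 0) .nil) .nil))) 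
(.lf (nat_lit 518757) (.g (nat_lit 2789) (.e (nat_lit 196670) (nat_lit 14) (.e (nat_lit 73754) (nat_lit 8) (.e (nat_lit 557105) (nat_lit 14) (.e (nat_lit 180252) (nat_lit 10) (.e (nat_lit 573475) (nat_lit 12) (.e (nat_lit 57508) (nat_lit 39) (.e (nat_lit 655104) (nat_lit 0) (.e (nat_lit 2656) (nat_lit 167) .nil)))))))) (.g (nat_lit 1) (.e (nat_lit 219286) (nat_lit 0) .nil) .nil)))) 
(.nd (nat_lit 9) 
(.lf (nat_lit 518501) (.g (nat_lit 1489) (.e (nat_lit 196670) (nat_lit 14) (.e (nat_lit 73746) (nat_lit 3) (.e (nat_lit 516120) (nat_lit 1) (.e (nat_lit 164176) (nat_lit 154) .nil)))) (.g (nat_lit 0) (.e (nat_lit 218869) (nat_lit 0) .nil) .nil))) 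
(.lf (nat_lit 519013) (.g (nat_lit 3418) (.e (nat_lit 196674) (nat_lit 15) (.e (nat_lit 81922) (nat_lit 0) (.e (nat_lit 3305) (nat_lit 202) (.e (nat_lit 573489) (nat_lit 14) (.e (nat_lit 73781) (nat_lit 32) (.e (nat_lit 2663) (nat_lit 167) .nil)))))) (.g (nat_lit 1) (.e (nat_lit 219799) (nat_lit 0) .nil) .nil))))) (.nd (nat_lit 8) (.nd (nat_lit 9) 
(.lf (nat_lit 518373) (.g (nat_lit 386) (.e (nat_lit 196668) (nat_lit 14) (.e (nat_lit 73782) (nat_lit 32) (.e (nat_lit 2682) (nat_lit 168) .nil))) (.g (nat_lit 0) (.e (nat_lit 218433) (nat_lit 0) .nil) .nil))) 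
(.lf (nat_lit 518885) (.g (nat_lit 429) (.e (nat_lit 196672) (nat_lit 15) (.e (nat_lit 81954) (nat_lit 23) (.e (nat_lit 106240) (nat_lit 17) .nil))) (.g (nat_lit 0) (.e (nat_lit 219581) (nat_lit 0) .nil) .nil)))) (.nd (nat_lit 9) 
(.lf (nat_lit 518629) (.g (nat_lit 2052) (.e (nat_lit 196670) (nat_lit 14) (.e (nat_lit 73753) (nat_lit 8) (.e (nat_lit 557105) (nat_lit 14) (.e (nat_lit 180252) (nat_lit 10) (.e (nat_lit 573473) (nat_lit 12) .nil))))) (.g (nat_lit 0) (.e (nat_lit 219136) (nat_lit 0) .nil) .nil))) 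
(.lf (nat_lit 519141) (.g (nat_lit 2399) (.e (nat_lit 196681) (nat_lit 17) (.e (nat_lit 131109) (nat_lit 9) (.e (nat_lit 336019) (nat_lit 3) (.e (nat_lit 98350) (nat_lit 24) (.e (nat_lit 409643) (nat_lit 18) (.e (nat_lit 303116) (nat_lit 2) .nil)))))) (.g (nat_lit 1) (.e (nat_lit 220204) (nat_lit 0) .nil) .nil)))))))) 
(.nd (nat_lit 5) (.nd (nat_lit 6) (.nd (nat_lit 7) (.nd (nat_lit 8) (.nd (nat_lit 9) 
(.lf (nat_lit 518165) (.g (nat_lit 875) (.e (nat_lit 196668) (nat_lit 14) (.e (nat_lit 73746) (nat_lit 3) (.e (nat_lit 516124) (nat_lit 2) (.e (nat_lit 213013) (nat_lit 9) .nil)))) (.g (nat_lit 0) (.e (nat_lit 217516) (nat_lit 0) .nil) .nil))) 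
(.lf (nat_lit 518677) (.g (nat_lit 3635) (.e (nat_lit 196670) (nat_lit 14) (.e (nat_lit 73753) (nat_lit 8) (.e (nat_lit 557105) (nat_lit 14) (.e (nat_lit 180252) (nat_lit 10) (.e (nat_lit 573475) (nat_lit 12) (.e (nat_lit 57508) (nat_lit 39) (.e (nat_lit 655104) (nat_lit 0) (.e (nat_lit 2667) (nat_lit 167) .nil)))))))) (.g (nat_lit 1) (.e (nat_lit 219184) (nat_lit 0) .nil) .nil)))) 
(.nd (nat_lit 9) 
(.lf (nat_lit 518421) (.g (nat_lit 1721) (.e (nat_lit 196669) (nat_lit 14) (.e (nat_lit 73755) (nat_lit 8) (.e (nat_lit 557098) (nat_lit 13) (.e (nat_lit 172067) (nat_lit 3) .nil)))) (.g (nat_lit 0) (.e (nat_lit 218553) (nat_lit 0) .nil) .nil))) 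
(.lf (nat_lit 518933) (.g (nat_lit 2405) (.e (nat_lit 196672) (nat_lit 15) (.e (nat_lit 81954) (nat_lit 23) (.e (nat_lit 98353) (nat_lit 25) (.e (nat_lit 417820) (nat_lit 10) (.e (nat_lit 5664) (nat_lit 312) (.e (nat_lit 2654) (nat_lit 167) .nil)))))) (.g (nat_lit 1) (.e (nat_lit 219639) (nat_lit 0) .nil) .nil))))) (.nd (nat_lit 8) (.nd (nat_lit 9) 
(.lf (nat_lit 518293) (.g (nat_lit 2062) (.e (nat_lit 196668) (nat_lit 14) (.e (nat_lit 73753) (nat_lit 8) (.e (nat_lit 557098) (nat_lit 13) (.e (nat_lit 172064) (nat_lit 2) (.e (nat_lit 204544) (nat_lit 0) .nil))))) (.g (nat_lit 0) (.e (nat_lit 218290) (nat_lit 0) .nil) .nil))) 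
(.lf (nat_lit 518805) (.g (nat_lit 979) (.e (nat_lit 196672) (nat_lit 15) (.e (nat_lit 81925) (nat_lit 11) (.e (nat_lit 426108) (nat_lit 1) (.e (nat_lit 164183) (nat_lit 154) .nil)))) (.g (nat_lit 0) (.e (nat_lit 219365) (nat_lit 0) .nil) .nil)))) (.nd (nat_lit 9) 
(.lf (nat_lit 518549) (.g (nat_lit 3771) (.e (nat_lit 196670) (nat_lit 14) (.e (nat_lit 73746) (nat_lit 3) (.e (nat_lit 516129) (nat_lit 3) (.e (nat_lit 221215) (nat_lit 23) (.e (nat_lit 204829) (nat_lit 18) (.e (nat_lit 57927) (nat_lit 282) (.e (nat_lit 163866) (nat_lit 2) .nil))))))) (.g (nat_lit 1) (.e (nat_lit 219007) (nat_lit 0) .nil) .nil))) 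
(.lf (nat_lit 519061) (.g (nat_lit 3134) (.e (nat_lit 196674) (nat_lit 15) (.e (nat_lit 81955) (nat_lit 23) (.e (nat_lit 98350) (nat_lit 24) (.e (nat_lit 409616) (nat_lit 10) (.e (nat_lit 5710) (nat_lit 312) (.e (nat_lit 2663) (nat_lit 167) .nil)))))) (.g (nat_lit 1) (.e (nat_lit 219886) (nat_lit 0) .nil) .nil)))))) (.nd (nat_lit 7) (.nd (nat_lit 8) (.nd (nat_lit 9) 
(.lf (nat_lit 518229) (.g (nat_lit 3295) (.e (nat_lit 196668) (nat_lit 14) (.e (nat_lit 73747) (nat_lit 3) (.e (nat_lit 516120) (nat_lit 1) (.e (nat_lit 164183) (nat_lit 154) (.e (nat_lit 57379) (nat_lit 3) (.e (nat_lit 98340) (nat_lit 20) (.e (nat_lit 221210) (nat_lit 22) .nil))))))) (.g (nat_lit 1) (.e (nat_lit 218095) (nat_lit 0) .nil) .nil))) 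
(.lf (nat_lit 518741) (.g (nat_lit 3250) (.e (nat_lit 196670) (nat_lit 14) (.e (nat_lit 73754) (nat_lit 8) (.e (nat_lit 557105) (nat_lit 14) (.e (nat_lit 180252) (nat_lit 10) (.e (nat_lit 573475) (nat_lit 12) (.e (nat_lit 57505) (nat_lit 39) (.e (nat_lit 655104) (nat_lit 0) (.e (nat_lit 2667) (nat_lit 167) .nil)))))))) (.g (nat_lit 1) (.e (nat_lit 219270) (nat_lit 0) .nil) .nil)))) 
(.nd (nat_lit 9) 
(.lf (nat_lit 518485) (.g (nat_lit 1322) (.e (nat_lit 196670) (nat_lit 14) (.e (nat_lit 73746) (nat_lit 3) (.e (nat_lit 516119) (nat_lit 1) (.e (nat_lit 164177) (nat_lit 154) .nil)))) (.g (nat_lit 0) (.e (nat_lit 218824) (nat_lit 0) .nil) .nil))) 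
(.lf (nat_lit 518997) (.g (nat_lit 3320) (.e (nat_lit 196673) (nat_lit 15) (.e (nat_lit 81956) (nat_lit 23) (.e (nat_lit 98350) (nat_lit 24) (.e (nat_lit 409616) (nat_lit 10) (.e (nat_lit 7936) (nat_lit 312) (.e (nat_lit 2660) (nat_lit 167) .nil)))))) (.g (nat_lit 1) (.e (nat_lit 219772) (nat_lit 0) .nil) .nil))))) (.nd (nat_lit 8) (.nd (nat_lit 9) 
(.lf (nat_lit 518357) (.g (nat_lit 1785) (.e (nat_lit 196668) (nat_lit 14) (.e (nat_lit 73754) (nat_lit 8) (.e (nat_lit 557105) (nat_lit 14) (.e (nat_lit 180252) (nat_lit 10) (.e (nat_lit 573475) (nat_lit 12) .nil))))) (.g (nat_lit 0) (.e (nat_lit 218397) (nat_lit 0) .nil) .nil))) 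
(.lf (nat_lit 518869) (.g (nat_lit 2305) (.e (nat_lit 196672) (nat_lit 15) (.e (nat_lit 81954) (nat_lit 23) (.e (nat_lit 98323) (nat_lit 17) (.e (nat_lit 7107) (nat_lit 380) (.e (nat_lit 164358) (nat_lit 246) (.e (nat_lit 7936) (nat_lit 167) .nil)))))) (.g (nat_lit 1) (.e (nat_lit 219553) (nat_lit 0) .nil) .nil)))) (.nd (nat_lit 9) 
(.lf (nat_lit 518613) (.g (nat_lit 3439) (.e (nat_lit 196670) (nat_lit 14) (.e (nat_lit 73753) (nat_lit 8) (.e (nat_lit 557103) (nat_lit 14) (.e (nat_lit 180250) (nat_lit 10) (.e (nat_lit 573475) (nat_lit 12) (.e (nat_lit 57506) (nat_lit 39) (.e (nat_lit 655104) (nat_lit 0) (.e (nat_lit 2667) (nat_lit 167) .nil)))))))) (.g (nat_lit 1) (.e (nat_lit 219116) (nat_lit 0) .nil) .nil))) 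
(.lf (nat_lit 519125) (.g (nat_lit 3224) (.e (nat_lit 196681) (nat_lit 17) (.e (nat_lit 131105) (nat_lit 9) (.e (nat_lit 336324) (nat_lit 18) (.e (nat_lit 204838) (nat_lit 20) (.e (nat_lit 114697) (nat_lit 11) (.e (nat_lit 426123) (nat_lit 2) .nil)))))) (.g (nat_lit 1) (.e (nat_lit 220120) (nat_lit 0) .nil) .nil))))))) (.nd (nat_lit 6) (.nd (nat_lit 7) (.nd (nat_lit 8) (.nd (nat_lit 9) 
(.lf (nat_lit 518197) (.g (nat_lit 5253) (.e (nat_lit 196668) (nat_lit 14) (.e (nat_lit 73747) (nat_lit 3) (.e (nat_lit 516115) (nat_lit 1) (.e (nat_lit 164183) (nat_lit 154) (.e (nat_lit 57378) (nat_lit 3) (.e (nat_lit 98341) (nat_lit 20) (.e (nat_lit 221210) (nat_lit 22) .nil))))))) (.g (nat_lit 1) (.e (nat_lit 217811) (nat_lit 0) .nil) .nil))) 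
(.lf (nat_lit 518709) (.g (nat_lit 2181) (.e (nat_lit 196670) (nat_lit 14) (.e (nat_lit 73754) (nat_lit 8) (.e (nat_lit 557105) (nat_lit 14) (.e (nat_lit 180252) (nat_lit 10) (.e (nat_lit 573473) (nat_lit 12) (.e (nat_lit 57508) (nat_lit 39) (.e (nat_lit 647168) (nat_lit 0) (.e (nat_lit 2662) (nat_lit 167) .nil)))))))) (.g (nat_lit 1) (.e (nat_lit 219238) (nat_lit 0) .nil) .nil)))) 
(.nd (nat_lit 9) 
(.lf (nat_lit 518453) (.g (nat_lit 3349) (.e (nat_lit 196669) (nat_lit 14) (.e (nat_lit 73755) (nat_lit 8) (.e (nat_lit 557105) (nat_lit 14) (.e (nat_lit 180252) (nat_lit 10) (.e (nat_lit 573474) (nat_lit 12) (.e (nat_lit 57511) (nat_lit 39) (.e (nat_lit 655104) (nat_lit 0) (.e (nat_lit 2667) (nat_lit 167) .nil)))))))) (.g (nat_lit 1) (.e (nat_lit 218590) (nat_lit 0) .nil) .nil))) 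
(.lf (nat_lit 518965) (.g (nat_lit 2556) (.e (nat_lit 196672) (nat_lit 15) (.e (nat_lit 81956) (nat_lit 23) (.e (nat_lit 98350) (nat_lit 24) (.e (nat_lit 409643) (nat_lit 18) .nil)))) (.g (nat_lit 0) (.e (nat_lit 219709) (nat_lit 0) .nil) .nil))))) (.nd (nat_lit 8) (.nd (nat_lit 9) 
(.lf (nat_lit 518325) (.g (nat_lit 3247) (.e (nat_lit 196668) (nat_lit 14) (.e (nat_lit 73753) (nat_lit 8) (.e (nat_lit 557104) (nat_lit 14) (.e (nat_lit 180252) (nat_lit 10) (.e (nat_lit 573473) (nat_lit 12) (.e (nat_lit 57508) (nat_lit 39) (.e (nat_lit 655104) (nat_lit 0) (.e (nat_lit 2667) (nat_lit 167) .nil)))))))) (.g (nat_lit 1) (.e (nat_lit 218363) (nat_lit 0) .nil) .nil))) 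
(.lf (nat_lit 518837) (.g (nat_lit 2229) (.e (nat_lit 196672) (nat_lit 15) (.e (nat_lit 81946) (nat_lit 20) (.e (nat_lit 1858) (nat_lit 124) (.e (nat_lit 557072) (nat_lit 9) (.e (nat_lit 2741) (nat_lit 174) .nil))))) (.g (nat_lit 0) (.e (nat_lit 219455) (nat_lit 0) .nil) .nil)))) (.nd (nat_lit 9) 
(.lf (nat_lit 518581) (.g (nat_lit 3438) (.e (nat_lit 196670) (nat_lit 14) (.e (nat_lit 73746) (nat_lit 3) (.e (nat_lit 516131) (nat_lit 3) (.e (nat_lit 221215) (nat_lit 23) (.e (nat_lit 204829) (nat_lit 18) (.e (nat_lit 57930) (nat_lit 282) (.e (nat_lit 163867) (nat_lit 2) .nil))))))) (.g (nat_lit 1) (.e (nat_lit 219044) (nat_lit 0) .nil) .nil))) 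
(.lf (nat_lit 519093) (.g (nat_lit 2858) (.e (nat_lit 196681) (nat_lit 17) (.e (nat_lit 131096) (nat_lit 3) (.e (nat_lit 98333) (nat_lit 18) (.e (nat_lit 164183) (nat_lit 154) (.e (nat_lit 57379) (nat_lit 3) (.e (nat_lit 98340) (nat_lit 20) (.e (nat_lit 221212) (nat_lit 22) .nil))))))) (.g (nat_lit 1) (.e (nat_lit 220057) (nat_lit 0) .nil) .nil)))))) 
(.nd (nat_lit 7) (.nd (nat_lit 8) (.nd (nat_lit 9) 
(.lf (nat_lit 518261) (.g (nat_lit 2484) (.e (nat_lit 196668) (nat_lit 14) (.e (nat_lit 73747) (nat_lit 3) (.e (nat_lit 516129) (nat_lit 3) (.e (nat_lit 221215) (nat_lit 23) (.e (nat_lit 204830) (nat_lit 18) (.e (nat_lit 57929) (nat_lit 282) (.e (nat_lit 163866) (nat_lit 2) .nil))))))) (.g (nat_lit 1) (.e (nat_lit 218168) (nat_lit 0) .nil) .nil))) 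
(.lf (nat_lit 518773) (.g (nat_lit 1696) (.e (nat_lit 196670) (nat_lit 14) (.e (nat_lit 73755) (nat_lit 8) (.e (nat_lit 557103) (nat_lit 14) (.e (nat_lit 180250) (nat_lit 10) .nil)))) (.g (nat_lit 0) (.e (nat_lit 219311) (nat_lit 0) .nil) .nil)))) (.nd (nat_lit 9) 
(.lf (nat_lit 518517) (.g (nat_lit 1870) (.e (nat_lit 196670) (nat_lit 14) (.e (nat_lit 73746) (nat_lit 3) (.e (nat_lit 516129) (nat_lit 3) (.e (nat_lit 221210) (nat_lit 22) (.e (nat_lit 196658) (nat_lit 12) .nil))))) (.g (nat_lit 0) (.e (nat_lit 218970) (nat_lit 0) .nil) .nil))) 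
(.lf (nat_lit 519029) (.g (nat_lit 3366) (.e (nat_lit 196674) (nat_lit 15) (.e (nat_lit 81925) (nat_lit 11) (.e (nat_lit 426500) (nat_lit 27) (.e (nat_lit 335995) (nat_lit 1) (.e (nat_lit 57931) (nat_lit 282) (.e (nat_lit 163867) (nat_lit 2) .nil)))))) (.g (nat_lit 1) (.e (nat_lit 219818) (nat_lit 0) .nil) .nil))))) (.nd (nat_lit 8) (.nd (nat_lit 9) 
(.lf (nat_lit 518389) (.g (nat_lit 3195) (.e (nat_lit 196669) (nat_lit 14) (.e (nat_lit 73747) (nat_lit 3) (.e (nat_lit 516115) (nat_lit 1) (.e (nat_lit 164179) (nat_lit 154) (.e (nat_lit 57378) (nat_lit 3) .nil))))) (.g (nat_lit 0) (.e (nat_lit 218501) (nat_lit 0) .nil) .nil))) 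
(.lf (nat_lit 518901) (.g (nat_lit 1395) (.e (nat_lit 196672) (nat_lit 15) (.e (nat_lit 81954) (nat_lit 23) (.e (nat_lit 98349) (nat_lit 24) (.e (nat_lit 417536) (nat_lit 19) .nil)))) (.g (nat_lit 0) (.e (nat_lit 219601) (nat_lit 0) .nil) .nil)))) (.nd (nat_lit 9) 
(.lf (nat_lit 518645) (.g (nat_lit 3232) (.e (nat_lit 196670) (nat_lit 14) (.e (nat_lit 73753) (nat_lit 8) (.e (nat_lit 557105) (nat_lit 14) (.e (nat_lit 180252) (nat_lit 10) (.e (nat_lit 573473) (nat_lit 12) (.e (nat_lit 57511) (nat_lit 39) (.e (nat_lit 647171) (nat_lit 0) (.e (nat_lit 2665) (nat_lit 167) .nil)))))))) (.g (nat_lit 1) (.e (nat_lit 219152) (nat_lit 0) .nil) .nil))) 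
(.lf (nat_lit 519157) (.g (nat_lit 2779) (.e (nat_lit 196681) (nat_lit 17) (.e (nat_lit 131109) (nat_lit 9) (.e (nat_lit 336324) (nat_lit 18) (.e (nat_lit 204837) (nat_lit 20) (.e (nat_lit 114697) (nat_lit 11) (.e (nat_lit 426121) (nat_lit 2) .nil)))))) (.g (nat_lit 1) (.e (nat_lit 220249) (nat_lit 0) .nil) .nil))))))))) 
(.nd (nat_lit 4) (.nd (nat_lit 5) (.nd (nat_lit 6) (.nd (nat_lit 7) (.nd (nat_lit 8) 
(.nd (nat_lit 9) 
(.lf (nat_lit 518157) (.g (nat_lit 2032) (.e (nat_lit 196668) (nat_lit 14) (.e (nat_lit 73746) (nat_lit 3) (.e (nat_lit 516120) (nat_lit 1) (.e (nat_lit 164161) (nat_lit 152) .nil)))) (.g (nat_lit 0) (.e (nat_lit 217455) (nat_lit 0) .nil) .nil))) 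
(.lf (nat_lit 518669) (.g (nat_lit 2263) (.e (nat_lit 196670) (nat_lit 14) (.e (nat_lit 73753) (nat_lit 8) (.e (nat_lit 557105) (nat_lit 14) (.e (nat_lit 180252) (nat_lit 10) (.e (nat_lit 573475) (nat_lit 12) .nil))))) (.g (nat_lit 0) (.e (nat_lit 219176) (nat_lit 0) .nil) .nil)))) (.nd (nat_lit 9) 
(.lf (nat_lit 518413) (.g (nat_lit 2748) (.e (nat_lit 196669) (nat_lit 14) (.e (nat_lit 73754) (nat_lit 8) (.e (nat_lit 557105) (nat_lit 14) (.e (nat_lit 180252) (nat_lit 10) (.e (nat_lit 573458) (nat_lit 9) .nil))))) (.g (nat_lit 0) (.e (nat_lit 218531) (nat_lit 0) .nil) .nil))) 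
(.lf (nat_lit 518925) (.g (nat_lit 1799) (.e (nat_lit 196672) (nat_lit 15) (.e (nat_lit 81954) (nat_lit 23) (.e (nat_lit 98350) (nat_lit 24) (.e (nat_lit 409645) (nat_lit 18) (.e (nat_lit 311040) (nat_lit 2) .nil))))) (.g (nat_lit 0) (.e (nat_lit 219628) (nat_lit 0) .nil) .nil))))) (.nd (nat_lit 8) (.nd (nat_lit 9) 
(.lf (nat_lit 518285) (.g (nat_lit 3088) (.e (nat_lit 196668) (nat_lit 14) (.e (nat_lit 73747) (nat_lit 3) (.e (nat_lit 516131) (nat_lit 3) (.e (nat_lit 221215) (nat_lit 23) (.e (nat_lit 204829) (nat_lit 18) (.e (nat_lit 57931) (nat_lit 282) (.e (nat_lit 163866) (nat_lit 2) .nil))))))) (.g (nat_lit 1) (.e (nat_lit 218228) (nat_lit 0) .nil) .nil))) 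
(.lf (nat_lit 518797) (.g (nat_lit 2565) (.e (nat_lit 196672) (nat_lit 15) (.e (nat_lit 81924) (nat_lit 0) (.e (nat_lit 3253) (nat_lit 197) (.e (nat_lit 532515) (nat_lit 3) (.e (nat_lit 114698) (nat_lit 11) (.e (nat_lit 426124) (nat_lit 2) .nil)))))) (.g (nat_lit 1) (.e (nat_lit 219352) (nat_lit 0) .nil) .nil)))) (.nd (nat_lit 9) 
(.lf (nat_lit 518541) (.g (nat_lit 1143) (.e (nat_lit 196670) (nat_lit 14) (.e (nat_lit 73746) (nat_lit 3) (.e (nat_lit 516129) (nat_lit 3) (.e (nat_lit 221215) (nat_lit 23) .nil)))) (.g (nat_lit 0) (.e (nat_lit 218999) (nat_lit 0) .nil) .nil))) 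
(.lf (nat_lit 519053) (.g (nat_lit 1840) (.e (nat_lit 196674) (nat_lit 15) (.e (nat_lit 81954) (nat_lit 23) (.e (nat_lit 98349) (nat_lit 24) (.e (nat_lit 409643) (nat_lit 18) (.e (nat_lit 303117) (nat_lit 2) .nil))))) (.g (nat_lit 0) (.e (nat_lit 219877) (nat_lit 0) .nil) .nil)))))) (.nd (nat_lit 7) (.nd (nat_lit 8) (.nd (nat_lit 9) 
(.lf (nat_lit 518221) (.g (nat_lit 1881) (.e (nat_lit 196668) (nat_lit 14) (.e (nat_lit 73747) (nat_lit 3) (.e (nat_lit 516120) (nat_lit 1) (.e (nat_lit 164180) (nat_lit 154) .nil)))) (.g (nat_lit 0) (.e (nat_lit 218028) (nat_lit 0) .nil) .nil))) 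
(.lf (nat_lit 518733) (.g (nat_lit 3387) (.e (nat_lit 196670) (nat_lit 14) (.e (nat_lit 73754) (nat_lit 8) (.e (nat_lit 557105) (nat_lit 14) (.e (nat_lit 180252) (nat_lit 10) (.e (nat_lit 573474) (nat_lit 12) (.e (nat_lit 57508) (nat_lit 39) (.e (nat_lit 647176) (nat_lit 0) (.e (nat_lit 2667) (nat_lit 167) .nil)))))))) (.g (nat_lit 1) (.e (nat_lit 219262) (nat_lit 0) .nil) .nil)))) 
(.nd (nat_lit 9) 
(.lf (nat_lit 518477) (.g (nat_lit 2450) (.e (nat_lit 196670) (nat_lit 14) (.e (nat_lit 73746) (nat_lit 3) (.e (nat_lit 516117) (nat_lit 1) (.e (nat_lit 164159) (nat_lit 152) (.e (nat_lit 1027) (nat_lit 81) (.e (nat_lit 1255) (nat_lit 92) (.e (nat_lit 98321) (nat_lit 17) (.e (nat_lit 3771) (nat_lit 229) (.e (nat_lit 794669) (nat_lit 22) .nil))))))))) (.g (nat_lit 1) (.e (nat_lit 218742) (nat_lit 0) .nil) .nil))) 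
(.lf (nat_lit 518989) (.g (nat_lit 113) (.e (nat_lit 196673) (nat_lit 15) (.e (nat_lit 81956) (nat_lit 23) (.e (nat_lit 98320) (nat_lit 17) .nil))) (.g (nat_lit 0) (.e (nat_lit 219764) (nat_lit 0) .nil) .nil))))) (.nd (nat_lit 8) (.nd (nat_lit 9) 
(.lf (nat_lit 518349) (.g (nat_lit 3894) (.e (nat_lit 196668) (nat_lit 14) (.e (nat_lit 73753) (nat_lit 8) (.e (nat_lit 557105) (nat_lit 14) (.e (nat_lit 180252) (nat_lit 10) (.e (nat_lit 573474) (nat_lit 12) (.e (nat_lit 57511) (nat_lit 39) (.e (nat_lit 655104) (nat_lit 0) (.e (nat_lit 2667) (nat_lit 167) .nil)))))))) (.g (nat_lit 1) (.e (nat_lit 218388) (nat_lit 0) .nil) .nil))) 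
(.lf (nat_lit 518861) (.g (nat_lit 579) (.e (nat_lit 196672) (nat_lit 15) (.e (nat_lit 81954) (nat_lit 23) (.e (nat_lit 98322) (nat_lit 17) .nil))) (.g (nat_lit 0) (.e (nat_lit 219541) (nat_lit 0) .nil) .nil)))) (.nd (nat_lit 9) 
(.lf (nat_lit 518605) (.g (nat_lit 2604) (.e (nat_lit 196670) (nat_lit 14) (.e (nat_lit 73753) (nat_lit 8) (.e (nat_lit 557103) (nat_lit 14) (.e (nat_lit 180250) (nat_lit 10) (.e (nat_lit 573473) (nat_lit 12) (.e (nat_lit 57507) (nat_lit 39) (.e (nat_lit 647176) (nat_lit 0) (.e (nat_lit 2667) (nat_lit 167) .nil)))))))) (.g (nat_lit 1) (.e (nat_lit 219108) (nat_lit 0) .nil) .nil))) 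
(.lf (nat_lit 519117) (.g (nat_lit 1965) (.e (nat_lit 196681) (nat_lit 17) (.e (nat_lit 131105) (nat_lit 9) (.e (nat_lit 336324) (nat_lit 18) (.e (nat_lit 204835) (nat_lit 19) (.e (nat_lit 106535) (nat_lit 11) (.e (nat_lit 16412) (nat_lit 2) .nil)))))) (.g (nat_lit 1) (.e (nat_lit 220112) (nat_lit 0) .nil) .nil))))))) (.nd (nat_lit 6) (.nd (nat_lit 7) (.nd (nat_lit 8) (.nd (nat_lit 9) 
(.lf (nat_lit 518189) (.g (nat_lit 2483) (.e (nat_lit 196668) (nat_lit 14) (.e (nat_lit 73747) (nat_lit 3) (.e (nat_lit 516115) (nat_lit 1) (.e (nat_lit 164179) (nat_lit 154) (.e (nat_lit 57379) (nat_lit 3) .nil))))) (.g (nat_lit 0) (.e (nat_lit 217684) (nat_lit 0) .nil) .nil))) 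
(.lf (nat_lit 518701) (.g (nat_lit 2773) (.e (nat_lit 196670) (nat_lit 14) (.e (nat_lit 73754) (nat_lit 8) (.e (nat_lit 557105) (nat_lit 14) (.e (nat_lit 180252) (nat_lit 10) (.e (nat_lit 573473) (nat_lit 12) (.e (nat_lit 57506) (nat_lit 39) (.e (nat_lit 647175) (nat_lit 0) (.e (nat_lit 2667) (nat_lit 167) .nil)))))))) (.g (nat_lit 1) (.e (nat_lit 219230) (nat_lit 0) .nil) .nil)))) 
(.nd (nat_lit 9) 
(.lf (nat_lit 518445) (.g (nat_lit 3377) (.e (nat_lit 196669) (nat_lit 14) (.e (nat_lit 73755) (nat_lit 8) (.e (nat_lit 557105) (nat_lit 14) (.e (nat_lit 180252) (nat_lit 10) (.e (nat_lit 573474) (nat_lit 12) (.e (nat_lit 57507) (nat_lit 39) (.e (nat_lit 647170) (nat_lit 0) (.e (nat_lit 2662) (nat_lit 167) .nil)))))))) (.g (nat_lit 1) (.e (nat_lit 218582) (nat_lit 0) .nil) .nil))) 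
(.lf (nat_lit 518957) (.g (nat_lit 1040) (.e (nat_lit 196672) (nat_lit 15) (.e (nat_lit 81956) (nat_lit 23) (.e (nat_lit 98328) (nat_lit 17) .nil))) (.g (nat_lit 0) (.e (nat_lit 219701) (nat_lit 0) .nil) .nil))))) (.nd (nat_lit 8) (.nd (nat_lit 9) 
(.lf (nat_lit 518317) (.g (nat_lit 4036) (.e (nat_lit 196668) (nat_lit 14) (.e (nat_lit 73753) (nat_lit 8) (.e (nat_lit 557103) (nat_lit 14) (.e (nat_lit 180250) (nat_lit 10) (.e (nat_lit 573475) (nat_lit 12) (.e (nat_lit 57507) (nat_lit 39) (.e (nat_lit 655104) (nat_lit 0) (.e (nat_lit 2657) (nat_lit 167) .nil)))))))) (.g (nat_lit 1) (.e (nat_lit 218352) (nat_lit 0) .nil) .nil))) 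
(.lf (nat_lit 518829) (.g (nat_lit 2065) (.e (nat_lit 196672) (nat_lit 15) (.e (nat_lit 81943) (nat_lit 20) (.e (nat_lit 1841) (nat_lit 123) (.e (nat_lit 548890) (nat_lit 10) (.e (nat_lit 73781) (nat_lit 32) (.e (nat_lit 2664) (nat_lit 167) .nil)))))) (.g (nat_lit 1) (.e (nat_lit 219424) (nat_lit 0) .nil) .nil)))) (.nd (nat_lit 9) 
(.lf (nat_lit 518573) (.g (nat_lit 3155) (.e (nat_lit 196670) (nat_lit 14) (.e (nat_lit 73746) (nat_lit 3) (.e (nat_lit 516131) (nat_lit 3) (.e (nat_lit 221214) (nat_lit 23) (.e (nat_lit 204830) (nat_lit 18) (.e (nat_lit 57930) (nat_lit 282) (.e (nat_lit 163869) (nat_lit 2) .nil))))))) (.g (nat_lit 1) (.e (nat_lit 219036) (nat_lit 0) .nil) .nil))) 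
(.lf (nat_lit 519085) (.g (nat_lit 3389) (.e (nat_lit 196680) (nat_lit 17) (.e (nat_lit 131109) (nat_lit 9) (.e (nat_lit 336019) (nat_lit 3) (.e (nat_lit 98350) (nat_lit 24) (.e (nat_lit 409648) (nat_lit 18) (.e (nat_lit 303116) (nat_lit 2) .nil)))))) (.g (nat_lit 1) (.e (nat_lit 219921) (nat_lit 0) .nil) .nil)))))) (.nd (nat_lit 7) (.nd (nat_lit 8) (.nd (nat_lit 9) 
(.lf (nat_lit 518253) (.g (nat_lit 3006) (.e (nat_lit 196668) (nat_lit 14) (.e (nat_lit 73747) (nat_lit 3) (.e (nat_lit 516129) (nat_lit 3) (.e (nat_lit 221215) (nat_lit 23) (.e (nat_lit 204828) (nat_lit 18) (.e (nat_lit 57926) (nat_lit 282) (.e (nat_lit 163871) (nat_lit 2) .nil))))))) (.g (nat_lit 1) (.e (nat_lit 218160) (nat_lit 0) .nil) .nil))) 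
(.lf (nat_lit 518765) (.g (nat_lit 3544) (.e (nat_lit 196670) (nat_lit 14) (.e (nat_lit 73754) (nat_lit 8) (.e (nat_lit 557105) (nat_lit 14) (.e (nat_lit 180252) (nat_lit 10) (.e (nat_lit 573505) (nat_lit 18) (.e (nat_lit 1074) (nat_lit 81) (.e (nat_lit 5259) (nat_lit 298) (.e (nat_lit 162) (nat_lit 11) .nil)))))))) (.g (nat_lit 1) (.e (nat_lit 219294) (nat_lit 0) .nil) .nil)))) (.nd (nat_lit 9) 
(.lf (nat_lit 518509) (.g (nat_lit 513) (.e (nat_lit 196670) (nat_lit 14) (.e (nat_lit 73746) (nat_lit 3) (.e (nat_lit 516124) (nat_lit 2) .nil))) (.g (nat_lit 0) (.e (nat_lit 218936) (nat_lit 0) .nil) .nil))) 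
(.lf (nat_lit 519021) (.g (nat_lit 3089) (.e (nat_lit 196674) (nat_lit 15) (.e (nat_lit 81925) (nat_lit 11) (.e (nat_lit 426500) (nat_lit 27) (.e (nat_lit 335986) (nat_lit 1) (.e (nat_lit 57927) (nat_lit 282) (.e (nat_lit 163868) (nat_lit 2) .nil)))))) (.g (nat_lit 1) (.e (nat_lit 219810) (nat_lit 0) .nil) .nil))))) (.nd (nat_lit 8) (.nd (nat_lit 9) 
(.lf (nat_lit 518381) (.g (nat_lit 431) (.e (nat_lit 196669) (nat_lit 14) (.e (nat_lit 73746) (nat_lit 3) (.e (nat_lit 516117) (nat_lit 1) .nil))) (.g (nat_lit 0) (.e (nat_lit 218493) (nat_lit 0) .nil) .nil))) 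
(.lf (nat_lit 518893) (.g (nat_lit 2136) (.e (nat_lit 196672) (nat_lit 15) (.e (nat_lit 81954) (nat_lit 23) (.e (nat_lit 98349) (nat_lit 24) (.e (nat_lit 409618) (nat_lit 10) (.e (nat_lit 5667) (nat_lit 312) .nil))))) (.g (nat_lit 0) (.e (nat_lit 219593) (nat_lit 0) .nil) .nil)))) (.nd (nat_lit 9) 
(.lf (nat_lit 518637) (.g (nat_lit 2739) (.e (nat_lit 196670) (nat_lit 14) (.e (nat_lit 73753) (nat_lit 8) (.e (nat_lit 557105) (nat_lit 14) (.e (nat_lit 180252) (nat_lit 10) (.e (nat_lit 573473) (nat_lit 12) (.e (nat_lit 57508) (nat_lit 39) (.e (nat_lit 647170) (nat_lit 0) (.e (nat_lit 2662) (nat_lit 167) .nil)))))))) (.g (nat_lit 1) (.e (nat_lit 219144) (nat_lit 0) .nil) .nil))) 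
(.lf (nat_lit 519149) (.g (nat_lit 197) (.e (nat_lit 196681) (nat_lit 17) (.e (nat_lit 131109) (nat_lit 9) (.e (nat_lit 336324) (nat_lit 18) .nil))) (.g (nat_lit 0) (.e (nat_lit 220237) (nat_lit 0) .nil) .nil)))))))) (.nd (nat_lit 5) (.nd (nat_lit 6) (.nd (nat_lit 7) (.nd (nat_lit 8) (.nd (nat_lit 9) 
(.lf (nat_lit 518173) (.g (nat_lit 3160) (.e (nat_lit 196668) (nat_lit 14) (.e (nat_lit 73746) (nat_lit 3) (.e (nat_lit 516129) (nat_lit 3) (.e (nat_lit 221215) (nat_lit 23) (.e (nat_lit 204828) (nat_lit 18) (.e (nat_lit 57931) (nat_lit 282) (.e (nat_lit 163867) (nat_lit 2) .nil))))))) (.g (nat_lit 1) (.e (nat_lit 217539) (nat_lit 0) .nil) .nil))) 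
(.lf (nat_lit 518685) (.g (nat_lit 2574) (.e (nat_lit 196670) (nat_lit 14) (.e (nat_lit 73754) (nat_lit 8) (.e (nat_lit 557103) (nat_lit 14) (.e (nat_lit 180243) (nat_lit 5) (.e (nat_lit 532499) (nat_lit 1) (.e (nat_lit 65280) (nat_lit 168) (.e (nat_lit 163867) (nat_lit 2) .nil))))))) (.g (nat_lit 1) (.e (nat_lit 219211) (nat_lit 0) .nil) .nil)))) (.nd (nat_lit 9) 
(.lf (nat_lit 518429) (.g (nat_lit 1412) (.e (nat_lit 196669) (nat_lit 14) (.e (nat_lit 73755) (nat_lit 8) (.e (nat_lit 557103) (nat_lit 14) (.e (nat_lit 180250) (nat_lit 10) .nil)))) (.g (nat_lit 0) (.e (nat_lit 218565) (nat_lit 0) .nil) .nil))) 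
(.lf (nat_lit 518941) (.g (nat_lit 1799) (.e (nat_lit 196672) (nat_lit 15) (.e (nat_lit 81954) (nat_lit 23) (.e (nat_lit 98367) (nat_lit 27) (.e (nat_lit 434208) (nat_lit 18) (.e (nat_lit 4754) (nat_lit 281) .nil))))) (.g (nat_lit 0) (.e (nat_lit 219667) (nat_lit 0) .nil) .nil))))) (.nd (nat_lit 8) (.nd (nat_lit 9) 
(.lf (nat_lit 518301) (.g (nat_lit 4246) (.e (nat_lit 196668) (nat_lit 14) (.e (nat_lit 73753) (nat_lit 8) (.e (nat_lit 557103) (nat_lit 14) (.e (nat_lit 180244) (nat_lit 5) (.e (nat_lit 532503) (nat_lit 1) (.e (nat_lit 65280) (nat_lit 168) (.e (nat_lit 163871) (nat_lit 2) .nil))))))) (.g (nat_lit 1) (.e (nat_lit 218333) (nat_lit 0) .nil) .nil))) 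
(.lf (nat_lit 518813) (.g (nat_lit 1767) (.e (nat_lit 196672) (nat_lit 15) (.e (nat_lit 81927) (nat_lit 11) (.e (nat_lit 426107) (nat_lit 1) (.e (nat_lit 164179) (nat_lit 154) (.e (nat_lit 57405) (nat_lit 12) .nil))))) (.g (nat_lit 0) (.e (nat_lit 219374) (nat_lit 0) .nil) .nil)))) (.nd (nat_lit 9) 
(.lf (nat_lit 518557) (.g (nat_lit 412) (.e (nat_lit 196670) (nat_lit 14) (.e (nat_lit 73746) (nat_lit 3) (.e (nat_lit 516131) (nat_lit 3) .nil))) (.g (nat_lit 0) (.e (nat_lit 219015) (nat_lit 0) .nil) .nil))) 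
(.lf (nat_lit 519069) (.g (nat_lit 1251) (.e (nat_lit 196674) (nat_lit 15) (.e (nat_lit 81955) (nat_lit 23) (.e (nat_lit 98350) (nat_lit 24) (.e (nat_lit 409649) (nat_lit 18) (.e (nat_lit 311040) (nat_lit 2) .nil))))) (.g (nat_lit 0) (.e (nat_lit 219894) (nat_lit 0) .nil) .nil)))))) (.nd (nat_lit 7) (.nd (nat_lit 8) (.nd (nat_lit 9) 
(.lf (nat_lit 518237) (.g (nat_lit 1168) (.e (nat_lit 196668) (nat_lit 14) (.e (nat_lit 73747) (nat_lit 3) (.e (nat_lit 516129) (nat_lit 3) (.e (nat_lit 221214) (nat_lit 23) .nil)))) (.g (nat_lit 0) (.e (nat_lit 218137) (nat_lit 0) .nil) .nil))) 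
(.lf (nat_lit 518749) (.g (nat_lit 2890) (.e (nat_lit 196670) (nat_lit 14) (.e (nat_lit 73754) (nat_lit 8) (.e (nat_lit 557105) (nat_lit 14) (.e (nat_lit 180252) (nat_lit 10) (.e (nat_lit 573475) (nat_lit 12) (.e (nat_lit 57507) (nat_lit 39) (.e (nat_lit 647170) (nat_lit 0) (.e (nat_lit 2662) (nat_lit 167) .nil)))))))) (.g (nat_lit 1) (.e (nat_lit 219278) (nat_lit 0) .nil) .nil)))) 
(.nd (nat_lit 9) 
(.lf (nat_lit 518493) (.g (nat_lit 2248) (.e (nat_lit 196670) (nat_lit 14) (.e (nat_lit 73746) (nat_lit 3) (.e (nat_lit 516119) (nat_lit 1) (.e (nat_lit 164182) (nat_lit 154) (.e (nat_lit 57376) (nat_lit 3) .nil))))) (.g (nat_lit 0) (.e (nat_lit 218858) (nat_lit 0) .nil) .nil))) 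
(.lf (nat_lit 519005) (.g (nat_lit 1085) (.e (nat_lit 196674) (nat_lit 15) (.e (nat_lit 81922) (nat_lit 0) (.e (nat_lit 3253) (nat_lit 197) (.e (nat_lit 532484) (nat_lit 0) .nil)))) (.g (nat_lit 0) (.e (nat_lit 219787) (nat_lit 0) .nil) .nil))))) (.nd (nat_lit 8) (.nd (nat_lit 9) 
(.lf (nat_lit 518365) (.g (nat_lit 1555) (.e (nat_lit 196668) (nat_lit 14) (.e (nat_lit 73782) (nat_lit 32) (.e (nat_lit 2664) (nat_lit 167) (.e (nat_lit 196630) (nat_lit 9) (.e (nat_lit 1444) (nat_lit 108) .nil))))) (.g (nat_lit 0) (.e (nat_lit 218419) (nat_lit 0) .nil) .nil))) 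
(.lf (nat_lit 518877) (.g (nat_lit 3001) (.e (nat_lit 196672) (nat_lit 15) (.e (nat_lit 81954) (nat_lit 23) (.e (nat_lit 98325) (nat_lit 17) (.e (nat_lit 6986) (nat_lit 377) (.e (nat_lit 2819) (nat_lit 181) (.e (nat_lit 311311) (nat_lit 2) .nil)))))) (.g (nat_lit 1) (.e (nat_lit 219569) (nat_lit 0) .nil) .nil)))) (.nd (nat_lit 9) 
(.lf (nat_lit 518621) (.g (nat_lit 2975) (.e (nat_lit 196670) (nat_lit 14) (.e (nat_lit 73753) (nat_lit 8) (.e (nat_lit 557104) (nat_lit 14) (.e (nat_lit 180252) (nat_lit 10) (.e (nat_lit 573474) (nat_lit 12) .nil))))) (.g (nat_lit 0) (.e (nat_lit 219125) (nat_lit 0) .nil) .nil))) 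
(.lf (nat_lit 519133) (.g (nat_lit 2454) (.e (nat_lit 196681) (nat_lit 17) (.e (nat_lit 131109) (nat_lit 9) (.e (nat_lit 336018) (nat_lit 3) (.e (nat_lit 98350) (nat_lit 24) (.e (nat_lit 409616) (nat_lit 10) (.e (nat_lit 7936) (nat_lit 312) (.e (nat_lit 2668) (nat_lit 167) .nil))))))) (.g (nat_lit 1) (.e (nat_lit 220185) (nat_lit 0) .nil) .nil))))))) 
(.nd (nat_lit 6) (.nd (nat_lit 7) (.nd (nat_lit 8) (.nd (nat_lit 9) 
(.lf (nat_lit 518205) (.g (nat_lit 867) (.e (nat_lit 196668) (nat_lit 14) (.e (nat_lit 73747) (nat_lit 3) (.e (nat_lit 516117) (nat_lit 1) (.e (nat_lit 164183) (nat_lit 154) .nil)))) (.g (nat_lit 0) (.e (nat_lit 217854) (nat_lit 0) .nil) .nil))) 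
(.lf (nat_lit 518717) (.g (nat_lit 3114) (.e (nat_lit 196670) (nat_lit 14) (.e (nat_lit 73754) (nat_lit 8) (.e (nat_lit 557105) (nat_lit 14) (.e (nat_lit 180252) (nat_lit 10) (.e (nat_lit 573473) (nat_lit 12) (.e (nat_lit 57508) (nat_lit 39) (.e (nat_lit 655104) (nat_lit 0) (.e (nat_lit 2656) (nat_lit 167) .nil)))))))) (.g (nat_lit 1) (.e (nat_lit 219246) (nat_lit 0) .nil) .nil)))) 
(.nd (nat_lit 9) 
(.lf (nat_lit 518461) (.g (nat_lit 2300) (.e (nat_lit 196670) (nat_lit 14) (.e (nat_lit 73746) (nat_lit 3) (.e (nat_lit 516115) (nat_lit 1) (.e (nat_lit 164151) (nat_lit 152) (.e (nat_lit 974) (nat_lit 81) .nil))))) (.g (nat_lit 0) (.e (nat_lit 218617) (nat_lit 0) .nil) .nil))) 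
(.lf (nat_lit 518973) (.g (nat_lit 334) (.e (nat_lit 196672) (nat_lit 15) (.e (nat_lit 81956) (nat_lit 23) (.e (nat_lit 98389) (nat_lit 33) .nil))) (.g (nat_lit 0) (.e (nat_lit 219721) (nat_lit 0) .nil) .nil))))) (.nd (nat_lit 8) (.nd (nat_lit 9) 
(.lf (nat_lit 518333) (.g (nat_lit 3660) (.e (nat_lit 196668) (nat_lit 14) (.e (nat_lit 73753) (nat_lit 8) (.e (nat_lit 557104) (nat_lit 14) (.e (nat_lit 180252) (nat_lit 10) (.e (nat_lit 573475) (nat_lit 12) (.e (nat_lit 57507) (nat_lit 39) (.e (nat_lit 655104) (nat_lit 0) (.e (nat_lit 2667) (nat_lit 167) .nil)))))))) (.g (nat_lit 1) (.e (nat_lit 218371) (nat_lit 0) .nil) .nil))) 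
(.lf (nat_lit 518845) (.g (nat_lit 2871) (.e (nat_lit 196672) (nat_lit 15) (.e (nat_lit 81951) (nat_lit 22) (.e (nat_lit 90165) (nat_lit 12) (.e (nat_lit 164210) (nat_lit 176) (.e (nat_lit 2817) (nat_lit 181) (.e (nat_lit 311312) (nat_lit 2) .nil)))))) (.g (nat_lit 1) (.e (nat_lit 219471) (nat_lit 0) .nil) .nil)))) (.nd (nat_lit 9) 
(.lf (nat_lit 518589) (.g (nat_lit 1313) (.e (nat_lit 196670) (nat_lit 14) (.e (nat_lit 73746) (nat_lit 3) (.e (nat_lit 516191) (nat_lit 17) (.e (nat_lit 6207) (nat_lit 333) (.e (nat_lit 65280) (nat_lit 84) .nil))))) (.g (nat_lit 0) (.e (nat_lit 219052) (nat_lit 0) .nil) .nil))) 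
(.lf (nat_lit 519101) (.g (nat_lit 3268) (.e (nat_lit 196681) (nat_lit 17) (.e (nat_lit 131098) (nat_lit 3) (.e (nat_lit 98333) (nat_lit 18) (.e (nat_lit 164179) (nat_lit 154) (.e (nat_lit 57379) (nat_lit 3) (.e (nat_lit 98341) (nat_lit 20) (.e (nat_lit 221212) (nat_lit 22) .nil))))))) (.g (nat_lit 1) (.e (nat_lit 220078) (nat_lit 0) .nil) .nil)))))) 
(.nd (nat_lit 7) (.nd (nat_lit 8) (.nd (nat_lit 9) 
(.lf (nat_lit 518269) (.g (nat_lit 328) (.e (nat_lit 196668) (nat_lit 14) (.e (nat_lit 73747) (nat_lit 3) (.e (nat_lit 516131) (nat_lit 3) .nil))) (.g (nat_lit 0) (.e (nat_lit 218179) (nat_lit 0) .nil) .nil))) 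
(.lf (nat_lit 518781) (.g (nat_lit 1587) (.e (nat_lit 196670) (nat_lit 14) (.e (nat_lit 73781) (nat_lit 32) (.e (nat_lit 2664) (nat_lit 167) (.e (nat_lit 196630) (nat_lit 9) (.e (nat_lit 1413) (nat_lit 108) .nil))))) (.g (nat_lit 0) (.e (nat_lit 219323) (nat_lit 0) .nil) .nil)))) (.nd (nat_lit 9) 
(.lf (nat_lit 518525) (.g (nat_lit 3550) (.e (nat_lit 196670) (nat_lit 14) (.e (nat_lit 73746) (nat_lit 3) (.e (nat_lit 516129) (nat_lit 3) (.e (nat_lit 221213) (nat_lit 23) (.e (nat_lit 204830) (nat_lit 18) (.e (nat_lit 57926) (nat_lit 282) (.e (nat_lit 163871) (nat_lit 2) .nil))))))) (.g (nat_lit 1) (.e (nat_lit 218983) (nat_lit 0) .nil) .nil))) 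
(.lf (nat_lit 519037) (.g (nat_lit 1464) (.e (nat_lit 196674) (nat_lit 15) (.e (nat_lit 81946) (nat_lit 20) (.e (nat_lit 1858) (nat_lit 124) (.e (nat_lit 557065) (nat_lit 9) (.e (nat_lit 2741) (nat_lit 174) .nil))))) (.g (nat_lit 0) (.e (nat_lit 219829) (nat_lit 0) .nil) .nil))))) (.nd (nat_lit 8) (.nd (nat_lit 9) 
(.lf (nat_lit 518397) (.g (nat_lit 1858) (.e (nat_lit 196669) (nat_lit 14) (.e (nat_lit 73747) (nat_lit 3) (.e (nat_lit 516115) (nat_lit 1) (.e (nat_lit 164183) (nat_lit 154) .nil)))) (.g (nat_lit 0) (.e (nat_lit 218509) (nat_lit 0) .nil) .nil))) 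
(.lf (nat_lit 518909) (.g (nat_lit 2757) (.e (nat_lit 196672) (nat_lit 15) (.e (nat_lit 81954) (nat_lit 23) (.e (nat_lit 98350) (nat_lit 24) (.e (nat_lit 409615) (nat_lit 10) .nil)))) (.g (nat_lit 0) (.e (nat_lit 219609) (nat_lit 0) .nil) .nil)))) (.nd (nat_lit 9) 
(.lf (nat_lit 518653) (.g (nat_lit 3064) (.e (nat_lit 196670) (nat_lit 14) (.e (nat_lit 73753) (nat_lit 8) (.e (nat_lit 557105) (nat_lit 14) (.e (nat_lit 180252) (nat_lit 10) (.e (nat_lit 573474) (nat_lit 12) (.e (nat_lit 57507) (nat_lit 39) (.e (nat_lit 647176) (nat_lit 0) (.e (nat_lit 2665) (nat_lit 167) .nil)))))))) (.g (nat_lit 1) (.e (nat_lit 219160) (nat_lit 0) .nil) .nil))) 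
(.lf (nat_lit 519165) (.g (nat_lit 1490) (.e (nat_lit 196681) (nat_lit 17) (.e (nat_lit 131109) (nat_lit 9) (.e (nat_lit 336324) (nat_lit 18) (.e (nat_lit 204838) (nat_lit 20) (.e (nat_lit 114694) (nat_lit 11) .nil))))) (.g (nat_lit 0) (.e (nat_lit 220257) (nat_lit 0) .nil) .nil))))))))))) 
(.nd (nat_lit 2) (.nd (nat_lit 3) (.nd (nat_lit 4) (.nd (nat_lit 5) (.nd (nat_lit 6) 
(.nd (nat_lit 7) (.nd (nat_lit 8) (.nd (nat_lit 9) 
(.lf (nat_lit 518147) (.g (nat_lit 3086) (.e (nat_lit 196668) (nat_lit 14) (.e (nat_lit 73746) (nat_lit 3) (.e (nat_lit 516119) (nat_lit 1) (.e (nat_lit 164179) (nat_lit 154) (.e (nat_lit 57378) (nat_lit 3) (.e (nat_lit 98340) (nat_lit 20) (.e (nat_lit 221212) (nat_lit 22) .nil))))))) (.g (nat_lit 1) (.e (nat_lit 217445) (nat_lit 0) .nil) .nil))) 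
(.lf (nat_lit 518659) (.g (nat_lit 2825) (.e (nat_lit 196670) (nat_lit 14) (.e (nat_lit 73753) (nat_lit 8) (.e (nat_lit 557105) (nat_lit 14) (.e (nat_lit 180252) (nat_lit 10) (.e (nat_lit 573474) (nat_lit 12) (.e (nat_lit 57508) (nat_lit 39) (.e (nat_lit 647170) (nat_lit 0) (.e (nat_lit 2654) (nat_lit 167) .nil)))))))) (.g (nat_lit 1) (.e (nat_lit 219166) (nat_lit 0) .nil) .nil)))) 
(.nd (nat_lit 9) 
(.lf (nat_lit 518403) (.g (nat_lit 2658) (.e (nat_lit 196669) (nat_lit 14) (.e (nat_lit 73747) (nat_lit 3) (.e (nat_lit 516119) (nat_lit 1) (.e (nat_lit 164179) (nat_lit 154) (.e (nat_lit 57378) (nat_lit 3) .nil))))) (.g (nat_lit 0) (.e (nat_lit 218515) (nat_lit 0) .nil) .nil))) 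
(.lf (nat_lit 518915) (.g (nat_lit 3795) (.e (nat_lit 196672) (nat_lit 15) (.e (nat_lit 81954) (nat_lit 23) (.e (nat_lit 98350) (nat_lit 24) (.e (nat_lit 409617) (nat_lit 10) (.e (nat_lit 5710) (nat_lit 312) (.e (nat_lit 2664) (nat_lit 167) .nil)))))) (.g (nat_lit 1) (.e (nat_lit 219617) (nat_lit 0) .nil) .nil))))) (.nd (nat_lit 8) (.nd (nat_lit 9) 
(.lf (nat_lit 518275) (.g (nat_lit 2925) (.e (nat_lit 196668) (nat_lit 14) (.e (nat_lit 73747) (nat_lit 3) (.e (nat_lit 516131) (nat_lit 3) (.e (nat_lit 221214) (nat_lit 23) (.e (nat_lit 204829) (nat_lit 18) (.e (nat_lit 57931) (nat_lit 282) (.e (nat_lit 163866) (nat_lit 2) .nil))))))) (.g (nat_lit 1) (.e (nat_lit 218196) (nat_lit 0) .nil) .nil))) 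
(.lf (nat_lit 518787) (.g (nat_lit 2149) (.e (nat_lit 196671) (nat_lit 15) (.e (nat_lit 81946) (nat_lit 20) (.e (nat_lit 1858) (nat_lit 124) (.e (nat_lit 557072) (nat_lit 9) (.e (nat_lit 2741) (nat_lit 174) .nil))))) (.g (nat_lit 0) (.e (nat_lit 219335) (nat_lit 0) .nil) .nil)))) (.nd (nat_lit 9) 
(.lf (nat_lit 518531) (.g (nat_lit 2747) (.e (nat_lit 196670) (nat_lit 14) (.e (nat_lit 73746) (nat_lit 3) (.e (nat_lit 516129) (nat_lit 3) (.e (nat_lit 221214) (nat_lit 23) (.e (nat_lit 204829) (nat_lit 18) (.e (nat_lit 57926) (nat_lit 282) (.e (nat_lit 163870) (nat_lit 2) .nil))))))) (.g (nat_lit 1) (.e (nat_lit 218989) (nat_lit 0) .nil) .nil))) 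
(.lf (nat_lit 519043) (.g (nat_lit 1859) (.e (nat_lit 196674) (nat_lit 15) (.e (nat_lit 81946) (nat_lit 20) (.e (nat_lit 1858) (nat_lit 124) (.e (nat_lit 557091) (nat_lit 12) (.e (nat_lit 171776) (nat_lit 48) .nil))))) (.g (nat_lit 0) (.e (nat_lit 219848) (nat_lit 0) .nil) .nil)))))) (.nd (nat_lit 7) (.nd (nat_lit 8) (.nd (nat_lit 9) 
(.lf (nat_lit 518211) (.g (nat_lit 2166) (.e (nat_lit 196668) (nat_lit 14) (.e (nat_lit 73747) (nat_lit 3) (.e (nat_lit 516119) (nat_lit 1) (.e (nat_lit 164179) (nat_lit 154) (.e (nat_lit 57349) (nat_lit 0) .nil))))) (.g (nat_lit 0) (.e (nat_lit 217949) (nat_lit 0) .nil) .nil))) 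
(.lf (nat_lit 518723) (.g (nat_lit 2647) (.e (nat_lit 196670) (nat_lit 14) (.e (nat_lit 73754) (nat_lit 8) (.e (nat_lit 557105) (nat_lit 14) (.e (nat_lit 180252) (nat_lit 10) (.e (nat_lit 573473) (nat_lit 12) (.e (nat_lit 57511) (nat_lit 39) (.e (nat_lit 655104) (nat_lit 0) (.e (nat_lit 2657) (nat_lit 167) .nil)))))))) (.g (nat_lit 1) (.e (nat_lit 219252) (nat_lit 0) .nil) .nil)))) 
(.nd (nat_lit 9) 
(.lf (nat_lit 518467) (.g (nat_lit 3076) (.e (nat_lit 196670) (nat_lit 14) (.e (nat_lit 73746) (nat_lit 3) (.e (nat_lit 516115) (nat_lit 1) (.e (nat_lit 164179) (nat_lit 154) (.e (nat_lit 57379) (nat_lit 3) (.e (nat_lit 98340) (nat_lit 20) (.e (nat_lit 221210) (nat_lit 22) .nil))))))) (.g (nat_lit 1) (.e (nat_lit 218676) (nat_lit 0) .nil) .nil))) 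
(.lf (nat_lit 518979) (.g (nat_lit 1889) (.e (nat_lit 196673) (nat_lit 15) (.e (nat_lit 81938) (nat_lit 20) (.e (nat_lit 1842) (nat_lit 123) (.e (nat_lit 548889) (nat_lit 9) (.e (nat_lit 65540) (nat_lit 0) .nil))))) (.g (nat_lit 0) (.e (nat_lit 219737) (nat_lit 0) .nil) .nil))))) (.nd (nat_lit 8) (.nd (nat_lit 9) 
(.lf (nat_lit 518339) (.g (nat_lit 3343) (.e (nat_lit 196668) (nat_lit 14) (.e (nat_lit 73753) (nat_lit 8) (.e (nat_lit 557105) (nat_lit 14) (.e (nat_lit 180252) (nat_lit 10) (.e (nat_lit 573474) (nat_lit 12) .nil))))) (.g (nat_lit 0) (.e (nat_lit 218378) (nat_lit 0) .nil) .nil))) 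
(.lf (nat_lit 518851) (.g (nat_lit 1781) (.e (nat_lit 196672) (nat_lit 15) (.e (nat_lit 81953) (nat_lit 22) (.e (nat_lit 90134) (nat_lit 9) (.e (nat_lit 2827) (nat_lit 182) .nil)))) (.g (nat_lit 0) (.e (nat_lit 219516) (nat_lit 0) .nil) .nil)))) (.nd (nat_lit 9) 
(.lf (nat_lit 518595) (.g (nat_lit 1521) (.e (nat_lit 196670) (nat_lit 14) (.e (nat_lit 73753) (nat_lit 8) (.e (nat_lit 557098) (nat_lit 13) (.e (nat_lit 179968) (nat_lit 22) .nil)))) (.g (nat_lit 0) (.e (nat_lit 219078) (nat_lit 0) .nil) .nil))) 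
(.lf (nat_lit 519107) (.g (nat_lit 3454) (.e (nat_lit 196681) (nat_lit 17) (.e (nat_lit 131098) (nat_lit 3) (.e (nat_lit 98334) (nat_lit 18) (.e (nat_lit 164182) (nat_lit 154) (.e (nat_lit 57378) (nat_lit 3) (.e (nat_lit 98341) (nat_lit 20) (.e (nat_lit 221212) (nat_lit 22) .nil))))))) (.g (nat_lit 1) (.e (nat_lit 220087) (nat_lit 0) .nil) .nil))))))) 
(.nd (nat_lit 6) (.nd (nat_lit 7) (.nd (nat_lit 8) (.nd (nat_lit 9) 
(.lf (nat_lit 518179) (.g (nat_lit 1293) (.e (nat_lit 196668) (nat_lit 14) (.e (nat_lit 73747) (nat_lit 3) (.e (nat_lit 516115) (nat_lit 1) (.e (nat_lit 164153) (nat_lit 152) (.e (nat_lit 1027) (nat_lit 81) .nil))))) (.g (nat_lit 0) (.e (nat_lit 217563) (nat_lit 0) .nil) .nil))) 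
(.lf (nat_lit 518691) (.g (nat_lit 2070) (.e (nat_lit 196670) (nat_lit 14) (.e (nat_lit 73754) (nat_lit 8) (.e (nat_lit 557105) (nat_lit 14) (.e (nat_lit 180251) (nat_lit 10) (.e (nat_lit 573475) (nat_lit 12) .nil))))) (.g (nat_lit 0) (.e (nat_lit 219219) (nat_lit 0) .nil) .nil)))) (.nd (nat_lit 9) 
(.lf (nat_lit 518435) (.g (nat_lit 1637) (.e (nat_lit 196669) (nat_lit 14) (.e (nat_lit 73755) (nat_lit 8) (.e (nat_lit 557104) (nat_lit 14) (.e (nat_lit 188160) (nat_lit 3) .nil)))) (.g (nat_lit 0) (.e (nat_lit 218571) (nat_lit 0) .nil) .nil))) 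
(.lf (nat_lit 518947) (.g (nat_lit 1323) (.e (nat_lit 196672) (nat_lit 15) (.e (nat_lit 81955) (nat_lit 23) (.e (nat_lit 98350) (nat_lit 24) (.e (nat_lit 409646) (nat_lit 18) .nil)))) (.g (nat_lit 0) (.e (nat_lit 219689) (nat_lit 0) .nil) .nil))))) (.nd (nat_lit 8) (.nd (nat_lit 9) 
(.lf (nat_lit 518307) (.g (nat_lit 3123) (.e (nat_lit 196668) (nat_lit 14) (.e (nat_lit 73753) (nat_lit 8) (.e (nat_lit 557103) (nat_lit 14) (.e (nat_lit 180250) (nat_lit 10) (.e (nat_lit 573473) (nat_lit 12) (.e (nat_lit 57508) (nat_lit 39) (.e (nat_lit 655104) (nat_lit 0) (.e (nat_lit 2656) (nat_lit 167) .nil)))))))) (.g (nat_lit 1) (.e (nat_lit 218342) (nat_lit 0) .nil) .nil))) 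
(.lf (nat_lit 518819) (.g (nat_lit 2320) (.e (nat_lit 196672) (nat_lit 15) (.e (nat_lit 81927) (nat_lit 11) (.e (nat_lit 426500) (nat_lit 27) (.e (nat_lit 335986) (nat_lit 1) (.e (nat_lit 57928) (nat_lit 282) (.e (nat_lit 163868) (nat_lit 2) .nil)))))) (.g (nat_lit 1) (.e (nat_lit 219386) (nat_lit 0) .nil) .nil)))) (.nd (nat_lit 9) 
(.lf (nat_lit 518563) (.g (nat_lit 1424) (.e (nat_lit 196670) (nat_lit 14) (.e (nat_lit 73746) (nat_lit 3) (.e (nat_lit 516131) (nat_lit 3) (.e (nat_lit 221212) (nat_lit 22) (.e (nat_lit 196660) (nat_lit 12) .nil))))) (.g (nat_lit 0) (.e (nat_lit 219023) (nat_lit 0) .nil) .nil))) 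
(.lf (nat_lit 519075) (.g (nat_lit 1982) (.e (nat_lit 196674) (nat_lit 15) (.e (nat_lit 81956) (nat_lit 23) (.e (nat_lit 98350) (nat_lit 24) (.e (nat_lit 409616) (nat_lit 10) .nil)))) (.g (nat_lit 0) (.e (nat_lit 219901) (nat_lit 0) .nil) .nil)))))) (.nd (nat_lit 7) (.nd (nat_lit 8) (.nd (nat_lit 9) 
(.lf (nat_lit 518243) (.g (nat_lit 5012) (.e (nat_lit 196668) (nat_lit 14) (.e (nat_lit 73747) (nat_lit 3) (.e (nat_lit 516129) (nat_lit 3) (.e (nat_lit 221214) (nat_lit 23) (.e (nat_lit 204829) (nat_lit 18) (.e (nat_lit 57927) (nat_lit 282) (.e (nat_lit 163869) (nat_lit 2) .nil))))))) (.g (nat_lit 1) (.e (nat_lit 218144) (nat_lit 0) .nil) .nil))) 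
(.lf (nat_lit 518755) (.g (nat_lit 3053) (.e (nat_lit 196670) (nat_lit 14) (.e (nat_lit 73754) (nat_lit 8) (.e (nat_lit 557105) (nat_lit 14) (.e (nat_lit 180252) (nat_lit 10) (.e (nat_lit 573475) (nat_lit 12) (.e (nat_lit 57508) (nat_lit 39) (.e (nat_lit 647175) (nat_lit 0) (.e (nat_lit 2657) (nat_lit 167) .nil)))))))) (.g (nat_lit 1) (.e (nat_lit 219284) (nat_lit 0) .nil) .nil)))) 
(.nd (nat_lit 9) 
(.lf (nat_lit 518499) (.g (nat_lit 2903) (.e (nat_lit 196670) (nat_lit 14) (.e (nat_lit 73746) (nat_lit 3) (.e (nat_lit 516119) (nat_lit 1) (.e (nat_lit 164183) (nat_lit 154) (.e (nat_lit 57379) (nat_lit 3) (.e (nat_lit 98342) (nat_lit 20) (.e (nat_lit 221212) (nat_lit 22) .nil))))))) (.g (nat_lit 1) (.e (nat_lit 218866) (nat_lit 0) .nil) .nil))) 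
(.lf (nat_lit 519011) (.g (nat_lit 1604) (.e (nat_lit 196674) (nat_lit 15) (.e (nat_lit 81922) (nat_lit 0) (.e (nat_lit 3305) (nat_lit 202) (.e (nat_lit 573487) (nat_lit 14) (.e (nat_lit 81664) (nat_lit 32) (.e (nat_lit 2671) (nat_lit 167) .nil)))))) (.g (nat_lit 1) (.e (nat_lit 219797) (nat_lit 0) .nil) .nil))))) (.nd (nat_lit 8) (.nd (nat_lit 9) 
(.lf (nat_lit 518371) (.g (nat_lit 377) (.e (nat_lit 196668) (nat_lit 14) (.e (nat_lit 73782) (nat_lit 32) (.e (nat_lit 2681) (nat_lit 168) .nil))) (.g (nat_lit 0) (.e (nat_lit 218430) (nat_lit 0) .nil) .nil))) 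
(.lf (nat_lit 518883) (.g (nat_lit 1968) (.e (nat_lit 196672) (nat_lit 15) (.e (nat_lit 81954) (nat_lit 23) (.e (nat_lit 98325) (nat_lit 17) (.e (nat_lit 7112) (nat_lit 381) (.e (nat_lit 229687) (nat_lit 246) (.e (nat_lit 2654) (nat_lit 167) .nil)))))) (.g (nat_lit 1) (.e (nat_lit 219577) (nat_lit 0) .nil) .nil)))) (.nd (nat_lit 9) 
(.lf (nat_lit 518627) (.g (nat_lit 2050) (.e (nat_lit 196670) (nat_lit 14) (.e (nat_lit 73753) (nat_lit 8) (.e (nat_lit 557105) (nat_lit 14) (.e (nat_lit 180252) (nat_lit 10) (.e (nat_lit 573451) (nat_lit 9) .nil))))) (.g (nat_lit 0) (.e (nat_lit 219133) (nat_lit 0) .nil) .nil))) 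
(.lf (nat_lit 519139) (.g (nat_lit 3792) (.e (nat_lit 196681) (nat_lit 17) (.e (nat_lit 131109) (nat_lit 9) (.e (nat_lit 336019) (nat_lit 3) (.e (nat_lit 98350) (nat_lit 24) (.e (nat_lit 409616) (nat_lit 10) (.e (nat_lit 7936) (nat_lit 312) (.e (nat_lit 2668) (nat_lit 167) .nil))))))) (.g (nat_lit 1) (.e (nat_lit 220200) (nat_lit 0) .nil) .nil)))))))) 
(.nd (nat_lit 5) (.nd (nat_lit 6) (.nd (nat_lit 7) (.nd (nat_lit 8) (.nd (nat_lit 9) 
(.lf (nat_lit 518163) (.g (nat_lit 3789) (.e (nat_lit 196668) (nat_lit 14) (.e (nat_lit 73746) (nat_lit 3) (.e (nat_lit 516120) (nat_lit 1) (.e (nat_lit 164182) (nat_lit 154) (.e (nat_lit 57378) (nat_lit 3) (.e (nat_lit 98342) (nat_lit 20) (.e (nat_lit 221212) (nat_lit 22) .nil))))))) (.g (nat_lit 1) (.e (nat_lit 217473) (nat_lit 0) .nil) .nil))) 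
(.lf (nat_lit 518675) (.g (nat_lit 2632) (.e (nat_lit 196670) (nat_lit 14) (.e (nat_lit 73753) (nat_lit 8) (.e (nat_lit 557105) (nat_lit 14) (.e (nat_lit 180252) (nat_lit 10) (.e (nat_lit 573475) (nat_lit 12) (.e (nat_lit 57508) (nat_lit 39) (.e (nat_lit 647176) (nat_lit 0) (.e (nat_lit 2667) (nat_lit 167) .nil)))))))) (.g (nat_lit 1) (.e (nat_lit 219182) (nat_lit 0) .nil) .nil)))) 
(.nd (nat_lit 9) 
(.lf (nat_lit 518419) (.g (nat_lit 2156) (.e (nat_lit 196669) (nat_lit 14) (.e (nat_lit 73754) (nat_lit 8) (.e (nat_lit 557105) (nat_lit 14) (.e (nat_lit 180252) (nat_lit 10) (.e (nat_lit 573503) (nat_lit 18) .nil))))) (.g (nat_lit 0) (.e (nat_lit 218537) (nat_lit 0) .nil) .nil))) 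
(.lf (nat_lit 518931) (.g (nat_lit 1785) (.e (nat_lit 196672) (nat_lit 15) (.e (nat_lit 81954) (nat_lit 23) (.e (nat_lit 98353) (nat_lit 25) (.e (nat_lit 417815) (nat_lit 10) (.e (nat_lit 5656) (nat_lit 312) .nil))))) (.g (nat_lit 0) (.e (nat_lit 219636) (nat_lit 0) .nil) .nil))))) (.nd (nat_lit 8) (.nd (nat_lit 9) 
(.lf (nat_lit 518291) (.g (nat_lit 705) (.e (nat_lit 196668) (nat_lit 14) (.e (nat_lit 73752) (nat_lit 8) (.e (nat_lit 557105) (nat_lit 14) (.e (nat_lit 180252) (nat_lit 10) .nil)))) (.g (nat_lit 0) (.e (nat_lit 218281) (nat_lit 0) .nil) .nil))) 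
(.lf (nat_lit 518803) (.g (nat_lit 3067) (.e (nat_lit 196672) (nat_lit 15) (.e (nat_lit 81924) (nat_lit 0) (.e (nat_lit 3305) (nat_lit 202) (.e (nat_lit 573489) (nat_lit 14) (.e (nat_lit 73782) (nat_lit 32) (.e (nat_lit 2663) (nat_lit 167) .nil)))))) (.g (nat_lit 1) (.e (nat_lit 219362) (nat_lit 0) .nil) .nil)))) (.nd (nat_lit 9) 
(.lf (nat_lit 518547) (.g (nat_lit 3143) (.e (nat_lit 196670) (nat_lit 14) (.e (nat_lit 73746) (nat_lit 3) (.e (nat_lit 516129) (nat_lit 3) (.e (nat_lit 221215) (nat_lit 23) (.e (nat_lit 204828) (nat_lit 18) (.e (nat_lit 57930) (nat_lit 282) (.e (nat_lit 163867) (nat_lit 2) .nil))))))) (.g (nat_lit 1) (.e (nat_lit 219005) (nat_lit 0) .nil) .nil))) 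
(.lf (nat_lit 519059) (.g (nat_lit 2900) (.e (nat_lit 196674) (nat_lit 15) (.e (nat_lit 81954) (nat_lit 23) (.e (nat_lit 98350) (nat_lit 24) (.e (nat_lit 409651) (nat_lit 19) (.e (nat_lit 311312) (nat_lit 2) .nil))))) (.g (nat_lit 0) (.e (nat_lit 219883) (nat_lit 0) .nil) .nil)))))) (.nd (nat_lit 7) (.nd (nat_lit 8) (.nd (nat_lit 9) 
(.lf (nat_lit 518227) (.g (nat_lit 982) (.e (nat_lit 196668) (nat_lit 14) (.e (nat_lit 73747) (nat_lit 3) (.e (nat_lit 516120) (nat_lit 1) (.e (nat_lit 164183) (nat_lit 154) .nil)))) (.g (nat_lit 0) (.e (nat_lit 218051) (nat_lit 0) .nil) .nil))) 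
(.lf (nat_lit 518739) (.g (nat_lit 3591) (.e (nat_lit 196670) (nat_lit 14) (.e (nat_lit 73754) (nat_lit 8) (.e (nat_lit 557105) (nat_lit 14) (.e (nat_lit 180252) (nat_lit 10) (.e (nat_lit 573474) (nat_lit 12) (.e (nat_lit 57511) (nat_lit 39) (.e (nat_lit 647171) (nat_lit 0) (.e (nat_lit 2665) (nat_lit 167) .nil)))))))) (.g (nat_lit 1) (.e (nat_lit 219268) (nat_lit 0) .nil) .nil)))) 
(.nd (nat_lit 9) 
(.lf (nat_lit 518483) (.g (nat_lit 2913) (.e (nat_lit 196670) (nat_lit 14) (.e (nat_lit 73746) (nat_lit 3) (.e (nat_lit 516118) (nat_lit 1) (.e (nat_lit 164183) (nat_lit 154) (.e (nat_lit 57379) (nat_lit 3) (.e (nat_lit 98340) (nat_lit 20) (.e (nat_lit 221212) (nat_lit 22) .nil))))))) (.g (nat_lit 1) (.e (nat_lit 218813) (nat_lit 0) .nil) .nil))) 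
(.lf (nat_lit 518995) (.g (nat_lit 4445) (.e (nat_lit 196673) (nat_lit 15) (.e (nat_lit 81956) (nat_lit 23) (.e (nat_lit 98349) (nat_lit 24) (.e (nat_lit 409646) (nat_lit 18) (.e (nat_lit 303117) (nat_lit 2) .nil))))) (.g (nat_lit 1) (.e (nat_lit 219770) (nat_lit 0) .nil) .nil))))) (.nd (nat_lit 8) (.nd (nat_lit 9) 
(.lf (nat_lit 518355) (.g (nat_lit 2650) (.e (nat_lit 196668) (nat_lit 14) (.e (nat_lit 73754) (nat_lit 8) (.e (nat_lit 557105) (nat_lit 14) (.e (nat_lit 180252) (nat_lit 10) (.e (nat_lit 573473) (nat_lit 12) (.e (nat_lit 57511) (nat_lit 39) (.e (nat_lit 655104) (nat_lit 0) (.e (nat_lit 2667) (nat_lit 167) .nil)))))))) (.g (nat_lit 1) (.e (nat_lit 218395) (nat_lit 0) .nil) .nil))) 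
(.lf (nat_lit 518867) (.g (nat_lit 2213) (.e (nat_lit 196672) (nat_lit 15) (.e (nat_lit 81954) (nat_lit 23) (.e (nat_lit 98323) (nat_lit 17) (.e (nat_lit 7101) (nat_lit 380) (.e (nat_lit 164353) (nat_lit 246) (.e (nat_lit 7936) (nat_lit 167) .nil)))))) (.g (nat_lit 1) (.e (nat_lit 219551) (nat_lit 0) .nil) .nil)))) (.nd (nat_lit 9) 
(.lf (nat_lit 518611) (.g (nat_lit 4053) (.e (nat_lit 196670) (nat_lit 14) (.e (nat_lit 73753) (nat_lit 8) (.e (nat_lit 557103) (nat_lit 14) (.e (nat_lit 180250) (nat_lit 10) (.e (nat_lit 573474) (nat_lit 12) (.e (nat_lit 57507) (nat_lit 39) (.e (nat_lit 655104) (nat_lit 0) (.e (nat_lit 2667) (nat_lit 167) .nil)))))))) (.g (nat_lit 1) (.e (nat_lit 219114) (nat_lit 0) .nil) .nil))) 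
(.lf (nat_lit 519123) (.g (nat_lit 1527) (.e (nat_lit 196681) (nat_lit 17) (.e (nat_lit 131105) (nat_lit 9) (.e (nat_lit 336324) (nat_lit 18) (.e (nat_lit 204838) (nat_lit 20) (.e (nat_lit 114697) (nat_lit 11) .nil))))) (.g (nat_lit 0) (.e (nat_lit 220118) (nat_lit 0) .nil) .nil))))))) (.nd (nat_lit 6) (.nd (nat_lit 7) (.nd (nat_lit 8) (.nd (nat_lit 9) 
(.lf (nat_lit 518195) (.g (nat_lit 1321) (.e (nat_lit 196668) (nat_lit 14) (.e (nat_lit 73747) (nat_lit 3) (.e (nat_lit 516115) (nat_lit 1) (.e (nat_lit 164183) (nat_lit 154) .nil)))) (.g (nat_lit 0) (.e (nat_lit 217755) (nat_lit 0) .nil) .nil))) 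
(.lf (nat_lit 518707) (.g (nat_lit 4298) (.e (nat_lit 196670) (nat_lit 14) (.e (nat_lit 73754) (nat_lit 8) (.e (nat_lit 557105) (nat_lit 14) (.e (nat_lit 180252) (nat_lit 10) (.e (nat_lit 573473) (nat_lit 12) (.e (nat_lit 57507) (nat_lit 39) (.e (nat_lit 655104) (nat_lit 0) (.e (nat_lit 2657) (nat_lit 167) .nil)))))))) (.g (nat_lit 1) (.e (nat_lit 219236) (nat_lit 0) .nil) .nil)))) 
(.nd (nat_lit 9) 
(.lf (nat_lit 518451) (.g (nat_lit 2324) (.e (nat_lit 196669) (nat_lit 14) (.e (nat_lit 73755) (nat_lit 8) (.e (nat_lit 557105) (nat_lit 14) (.e (nat_lit 180252) (nat_lit 10) (.e (nat_lit 573474) (nat_lit 12) (.e (nat_lit 57509) (nat_lit 39) (.e (nat_lit 655104) (nat_lit 0) (.e (nat_lit 2657) (nat_lit 167) .nil)))))))) (.g (nat_lit 1) (.e (nat_lit 218588) (nat_lit 0) .nil) .nil))) 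
(.lf (nat_lit 518963) (.g (nat_lit 1883) (.e (nat_lit 196672) (nat_lit 15) (.e (nat_lit 81956) (nat_lit 23) (.e (nat_lit 98350) (nat_lit 24) (.e (nat_lit 409617) (nat_lit 10) .nil)))) (.g (nat_lit 0) (.e (nat_lit 219707) (nat_lit 0) .nil) .nil))))) (.nd (nat_lit 8) (.nd (nat_lit 9) 
(.lf (nat_lit 518323) (.g (nat_lit 1551) (.e (nat_lit 196668) (nat_lit 14) (.e (nat_lit 73753) (nat_lit 8) (.e (nat_lit 557104) (nat_lit 14) (.e (nat_lit 180252) (nat_lit 10) .nil)))) (.g (nat_lit 0) (.e (nat_lit 218361) (nat_lit 0) .nil) .nil))) 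
(.lf (nat_lit 518835) (.g (nat_lit 2007) (.e (nat_lit 196672) (nat_lit 15) (.e (nat_lit 81946) (nat_lit 20) (.e (nat_lit 1858) (nat_lit 124) (.e (nat_lit 557065) (nat_lit 9) (.e (nat_lit 2741) (nat_lit 174) .nil))))) (.g (nat_lit 0) (.e (nat_lit 219452) (nat_lit 0) .nil) .nil)))) (.nd (nat_lit 9) 
(.lf (nat_lit 518579) (.g (nat_lit 2223) (.e (nat_lit 196670) (nat_lit 14) (.e (nat_lit 73746) (nat_lit 3) (.e (nat_lit 516131) (nat_lit 3) (.e (nat_lit 221215) (nat_lit 23) (.e (nat_lit 204828) (nat_lit 18) (.e (nat_lit 57927) (nat_lit 282) (.e (nat_lit 163866) (nat_lit 2) .nil))))))) (.g (nat_lit 1) (.e (nat_lit 219042) (nat_lit 0) .nil) .nil))) 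
(.lf (nat_lit 519091) (.g (nat_lit 3629) (.e (nat_lit 196681) (nat_lit 17) (.e (nat_lit 131096) (nat_lit 3) (.e (nat_lit 98333) (nat_lit 18) (.e (nat_lit 164182) (nat_lit 154) (.e (nat_lit 57379) (nat_lit 3) (.e (nat_lit 98341) (nat_lit 20) (.e (nat_lit 221212) (nat_lit 22) .nil))))))) (.g (nat_lit 1) (.e (nat_lit 220054) (nat_lit 0) .nil) .nil)))))) 
(.nd (nat_lit 7) (.nd (nat_lit 8) (.nd (nat_lit 9) 
(.lf (nat_lit 518259) (.g (nat_lit 3517) (.e (nat_lit 196668) (nat_lit 14) (.e (nat_lit 73747) (nat_lit 3) (.e (nat_lit 516129) (nat_lit 3) (.e (nat_lit 221215) (nat_lit 23) (.e (nat_lit 204829) (nat_lit 18) (.e (nat_lit 57931) (nat_lit 282) (.e (nat_lit 163866) (nat_lit 2) .nil))))))) (.g (nat_lit 1) (.e (nat_lit 218166) (nat_lit 0) .nil) .nil))) 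
(.lf (nat_lit 518771) (.g (nat_lit 1391) (.e (nat_lit 196670) (nat_lit 14) (.e (nat_lit 73755) (nat_lit 8) (.e (nat_lit 557097) (nat_lit 13) (.e (nat_lit 172064) (nat_lit 2) .nil)))) (.g (nat_lit 0) (.e (nat_lit 219307) (nat_lit 0) .nil) .nil)))) (.nd (nat_lit 9) 
(.lf (nat_lit 518515) (.g (nat_lit 1398) (.e (nat_lit 196670) (nat_lit 14) (.e (nat_lit 73746) (nat_lit 3) (.e (nat_lit 516129) (nat_lit 3) (.e (nat_lit 221197) (nat_lit 20) .nil)))) (.g (nat_lit 0) (.e (nat_lit 218965) (nat_lit 0) .nil) .nil))) 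
(.lf (nat_lit 519027) (.g (nat_lit 2946) (.e (nat_lit 196674) (nat_lit 15) (.e (nat_lit 81925) (nat_lit 11) (.e (nat_lit 426500) (nat_lit 27) (.e (nat_lit 335988) (nat_lit 1) (.e (nat_lit 57927) (nat_lit 282) (.e (nat_lit 163871) (nat_lit 2) .nil)))))) (.g (nat_lit 1) (.e (nat_lit 219816) (nat_lit 0) .nil) .nil))))) (.nd (nat_lit 8) (.nd (nat_lit 9) 
(.lf (nat_lit 518387) (.g (nat_lit 2966) (.e (nat_lit 196669) (nat_lit 14) (.e (nat_lit 73747) (nat_lit 3) (.e (nat_lit 516115) (nat_lit 1) (.e (nat_lit 164179) (nat_lit 154) (.e (nat_lit 57377) (nat_lit 3) .nil))))) (.g (nat_lit 0) (.e (nat_lit 218499) (nat_lit 0) .nil) .nil))) 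
(.lf (nat_lit 518899) (.g (nat_lit 3604) (.e (nat_lit 196672) (nat_lit 15) (.e (nat_lit 81954) (nat_lit 23) (.e (nat_lit 98349) (nat_lit 24) (.e (nat_lit 409649) (nat_lit 18) (.e (nat_lit 303117) (nat_lit 2) .nil))))) (.g (nat_lit 1) (.e (nat_lit 219599) (nat_lit 0) .nil) .nil)))) (.nd (nat_lit 9) 
(.lf (nat_lit 518643) (.g (nat_lit 2245) (.e (nat_lit 196670) (nat_lit 14) (.e (nat_lit 73753) (nat_lit 8) (.e (nat_lit 557105) (nat_lit 14) (.e (nat_lit 180252) (nat_lit 10) (.e (nat_lit 573473) (nat_lit 12) (.e (nat_lit 57511) (nat_lit 39) (.e (nat_lit 647171) (nat_lit 0) (.e (nat_lit 2654) (nat_lit 167) .nil)))))))) (.g (nat_lit 1) (.e (nat_lit 219150) (nat_lit 0) .nil) .nil))) 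
(.lf (nat_lit 519155) (.g (nat_lit 2826) (.e (nat_lit 196681) (nat_lit 17) (.e (nat_lit 131109) (nat_lit 9) (.e (nat_lit 336324) (nat_lit 18) (.e (nat_lit 204837) (nat_lit 20) (.e (nat_lit 114697) (nat_lit 11) (.e (nat_lit 426114) (nat_lit 2) .nil)))))) (.g (nat_lit 1) (.e (nat_lit 220247) (nat_lit 0) .nil) .nil))))))))) 
(.nd (nat_lit 4) (.nd (nat_lit 5) (.nd (nat_lit 6) (.nd (nat_lit 7) (.nd (nat_lit 8) 
(.nd (nat_lit 9) 
(.lf (nat_lit 518155) (.g (nat_lit 1996) (.e (nat_lit 196668) (nat_lit 14) (.e (nat_lit 73746) (nat_lit 3) (.e (nat_lit 516119) (nat_lit 1) (.e (nat_lit 164184) (nat_lit 155) (.e (nat_lit 122893) (nat_lit 3) .nil))))) (.g (nat_lit 0) (.e (nat_lit 217453) (nat_lit 0) .nil) .nil))) 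
(.lf (nat_lit 518667) (.g (nat_lit 3099) (.e (nat_lit 196670) (nat_lit 14) (.e (nat_lit 73753) (nat_lit 8) (.e (nat_lit 557105) (nat_lit 14) (.e (nat_lit 180252) (nat_lit 10) (.e (nat_lit 573474) (nat_lit 12) (.e (nat_lit 57511) (nat_lit 39) (.e (nat_lit 647171) (nat_lit 0) (.e (nat_lit 2655) (nat_lit 167) .nil)))))))) (.g (nat_lit 1) (.e (nat_lit 219174) (nat_lit 0) .nil) .nil)))) 
(.nd (nat_lit 9) 
(.lf (nat_lit 518411) (.g (nat_lit 2129) (.e (nat_lit 196669) (nat_lit 14) (.e (nat_lit 73754) (nat_lit 8) (.e (nat_lit 557105) (nat_lit 14) (.e (nat_lit 180251) (nat_lit 10) (.e (nat_lit 573477) (nat_lit 12) .nil))))) (.g (nat_lit 0) (.e (nat_lit 218529) (nat_lit 0) .nil) .nil))) 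
(.lf (nat_lit 518923) (.g (nat_lit 3719) (.e (nat_lit 196672) (nat_lit 15) (.e (nat_lit 81954) (nat_lit 23) (.e (nat_lit 98350) (nat_lit 24) (.e (nat_lit 409623) (nat_lit 10) (.e (nat_lit 5664) (nat_lit 312) (.e (nat_lit 2661) (nat_lit 167) .nil)))))) (.g (nat_lit 1) (.e (nat_lit 219625) (nat_lit 0) .nil) .nil))))) (.nd (nat_lit 8) (.nd (nat_lit 9) 
(.lf (nat_lit 518283) (.g (nat_lit 2184) (.e (nat_lit 196668) (nat_lit 14) (.e (nat_lit 73747) (nat_lit 3) (.e (nat_lit 516131) (nat_lit 3) (.e (nat_lit 221215) (nat_lit 23) (.e (nat_lit 204829) (nat_lit 18) (.e (nat_lit 57927) (nat_lit 282) (.e (nat_lit 163870) (nat_lit 2) .nil))))))) (.g (nat_lit 1) (.e (nat_lit 218226) (nat_lit 0) .nil) .nil))) 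
(.lf (nat_lit 518795) (.g (nat_lit 331) (.e (nat_lit 196672) (nat_lit 15) (.e (nat_lit 81922) (nat_lit 0) (.e (nat_lit 3251) (nat_lit 197) .nil))) (.g (nat_lit 0) (.e (nat_lit 219348) (nat_lit 0) .nil) .nil)))) (.nd (nat_lit 9) 
(.lf (nat_lit 518539) (.g (nat_lit 2670) (.e (nat_lit 196670) (nat_lit 14) (.e (nat_lit 73746) (nat_lit 3) (.e (nat_lit 516129) (nat_lit 3) (.e (nat_lit 221214) (nat_lit 23) (.e (nat_lit 204830) (nat_lit 18) (.e (nat_lit 57931) (nat_lit 282) (.e (nat_lit 163866) (nat_lit 2) .nil))))))) (.g (nat_lit 1) (.e (nat_lit 218997) (nat_lit 0) .nil) .nil))) 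
(.lf (nat_lit 519051) (.g (nat_lit 1005) (.e (nat_lit 196674) (nat_lit 15) (.e (nat_lit 81947) (nat_lit 20) (.e (nat_lit 1842) (nat_lit 123) (.e (nat_lit 548889) (nat_lit 9) .nil)))) (.g (nat_lit 0) (.e (nat_lit 219864) (nat_lit 0) .nil) .nil)))))) (.nd (nat_lit 7) (.nd (nat_lit 8) (.nd (nat_lit 9) 
(.lf (nat_lit 518219) (.g (nat_lit 3973) (.e (nat_lit 196668) (nat_lit 14) (.e (nat_lit 73747) (nat_lit 3) (.e (nat_lit 516119) (nat_lit 1) (.e (nat_lit 164182) (nat_lit 154) (.e (nat_lit 57379) (nat_lit 3) (.e (nat_lit 98342) (nat_lit 20) (.e (nat_lit 221212) (nat_lit 22) .nil))))))) (.g (nat_lit 1) (.e (nat_lit 218020) (nat_lit 0) .nil) .nil))) 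
(.lf (nat_lit 518731) (.g (nat_lit 3221) (.e (nat_lit 196670) (nat_lit 14) (.e (nat_lit 73754) (nat_lit 8) (.e (nat_lit 557105) (nat_lit 14) (.e (nat_lit 180252) (nat_lit 10) (.e (nat_lit 573474) (nat_lit 12) (.e (nat_lit 57507) (nat_lit 39) (.e (nat_lit 655104) (nat_lit 0) (.e (nat_lit 2656) (nat_lit 167) .nil)))))))) (.g (nat_lit 1) (.e (nat_lit 219260) (nat_lit 0) .nil) .nil)))) 
(.nd (nat_lit 9) 
(.lf (nat_lit 518475) (.g (nat_lit 1133) (.e (nat_lit 196670) (nat_lit 14) (.e (nat_lit 73746) (nat_lit 3) (.e (nat_lit 516116) (nat_lit 1) (.e (nat_lit 164183) (nat_lit 154) .nil)))) (.g (nat_lit 0) (.e (nat_lit 218739) (nat_lit 0) .nil) .nil))) 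
(.lf (nat_lit 518987) (.g (nat_lit 2650) (.e (nat_lit 196673) (nat_lit 15) (.e (nat_lit 81954) (nat_lit 23) (.e (nat_lit 98350) (nat_lit 24) (.e (nat_lit 409649) (nat_lit 18) (.e (nat_lit 303117) (nat_lit 2) .nil))))) (.g (nat_lit 0) (.e (nat_lit 219762) (nat_lit 0) .nil) .nil))))) (.nd (nat_lit 8) (.nd (nat_lit 9) 
(.lf (nat_lit 518347) (.g (nat_lit 4091) (.e (nat_lit 196668) (nat_lit 14) (.e (nat_lit 73753) (nat_lit 8) (.e (nat_lit 557105) (nat_lit 14) (.e (nat_lit 180252) (nat_lit 10) (.e (nat_lit 573474) (nat_lit 12) (.e (nat_lit 57508) (nat_lit 39) (.e (nat_lit 655104) (nat_lit 0) (.e (nat_lit 2667) (nat_lit 167) .nil)))))))) (.g (nat_lit 1) (.e (nat_lit 218386) (nat_lit 0) .nil) .nil))) 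
(.lf (nat_lit 518859) (.g (nat_lit 1339) (.e (nat_lit 196672) (nat_lit 15) (.e (nat_lit 81954) (nat_lit 23) (.e (nat_lit 98320) (nat_lit 17) (.e (nat_lit 7110) (nat_lit 380) (.e (nat_lit 164360) (nat_lit 246) .nil))))) (.g (nat_lit 0) (.e (nat_lit 219538) (nat_lit 0) .nil) .nil)))) (.nd (nat_lit 9) 
(.lf (nat_lit 518603) (.g (nat_lit 1197) (.e (nat_lit 196670) (nat_lit 14) (.e (nat_lit 73753) (nat_lit 8) (.e (nat_lit 557103) (nat_lit 14) (.e (nat_lit 180250) (nat_lit 10) .nil)))) (.g (nat_lit 0) (.e (nat_lit 219106) (nat_lit 0) .nil) .nil))) 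
(.lf (nat_lit 519115) (.g (nat_lit 3625) (.e (nat_lit 196681) (nat_lit 17) (.e (nat_lit 131105) (nat_lit 9) (.e (nat_lit 336306) (nat_lit 15) (.e (nat_lit 3297) (nat_lit 202) (.e (nat_lit 573481) (nat_lit 13) (.e (nat_lit 65630) (nat_lit 14) (.e (nat_lit 401425) (nat_lit 2) .nil))))))) (.g (nat_lit 1) (.e (nat_lit 220104) (nat_lit 0) .nil) .nil))))))) 
(.nd (nat_lit 6) (.nd (nat_lit 7) (.nd (nat_lit 8) (.nd (nat_lit 9) 
(.lf (nat_lit 518187) (.g (nat_lit 2288) (.e (nat_lit 196668) (nat_lit 14) (.e (nat_lit 73747) (nat_lit 3) (.e (nat_lit 516115) (nat_lit 1) (.e (nat_lit 164179) (nat_lit 154) (.e (nat_lit 57377) (nat_lit 3) .nil))))) (.g (nat_lit 0) (.e (nat_lit 217657) (nat_lit 0) .nil) .nil))) 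
(.lf (nat_lit 518699) (.g (nat_lit 3318) (.e (nat_lit 196670) (nat_lit 14) (.e (nat_lit 73754) (nat_lit 8) (.e (nat_lit 557105) (nat_lit 14) (.e (nat_lit 180252) (nat_lit 10) (.e (nat_lit 573453) (nat_lit 9) .nil))))) (.g (nat_lit 0) (.e (nat_lit 219228) (nat_lit 0) .nil) .nil)))) (.nd (nat_lit 9) 
(.lf (nat_lit 518443) (.g (nat_lit 3008) (.e (nat_lit 196669) (nat_lit 14) (.e (nat_lit 73755) (nat_lit 8) (.e (nat_lit 557105) (nat_lit 14) (.e (nat_lit 180252) (nat_lit 10) (.e (nat_lit 573474) (nat_lit 12) (.e (nat_lit 57506) (nat_lit 39) (.e (nat_lit 647175) (nat_lit 0) (.e (nat_lit 2667) (nat_lit 167) .nil)))))))) (.g (nat_lit 1) (.e (nat_lit 218580) (nat_lit 0) .nil) .nil))) 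
(.lf (nat_lit 518955) (.g (nat_lit 497) (.e (nat_lit 196672) (nat_lit 15) (.e (nat_lit 81956) (nat_lit 23) (.e (nat_lit 98325) (nat_lit 17) .nil))) (.g (nat_lit 0) (.e (nat_lit 219699) (nat_lit 0) .nil) .nil))))) (.nd (nat_lit 8) (.nd (nat_lit 9) 
(.lf (nat_lit 518315) (.g (nat_lit 3658) (.e (nat_lit 196668) (nat_lit 14) (.e (nat_lit 73753) (nat_lit 8) (.e (nat_lit 557103) (nat_lit 14) (.e (nat_lit 180250) (nat_lit 10) (.e (nat_lit 573474) (nat_lit 12) (.e (nat_lit 57509) (nat_lit 39) (.e (nat_lit 655104) (nat_lit 0) (.e (nat_lit 2667) (nat_lit 167) .nil)))))))) (.g (nat_lit 1) (.e (nat_lit 218350) (nat_lit 0) .nil) .nil))) 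
(.lf (nat_lit 518827) (.g (nat_lit 2773) (.e (nat_lit 196672) (nat_lit 15) (.e (nat_lit 81927) (nat_lit 11) (.e (nat_lit 426500) (nat_lit 27) (.e (nat_lit 335996) (nat_lit 1) (.e (nat_lit 57929) (nat_lit 282) (.e (nat_lit 163867) (nat_lit 2) .nil)))))) (.g (nat_lit 1) (.e (nat_lit 219394) (nat_lit 0) .nil) .nil)))) (.nd (nat_lit 9) 
(.lf (nat_lit 518571) (.g (nat_lit 2995) (.e (nat_lit 196670) (nat_lit 14) (.e (nat_lit 73746) (nat_lit 3) (.e (nat_lit 516131) (nat_lit 3) (.e (nat_lit 221214) (nat_lit 23) (.e (nat_lit 204830) (nat_lit 18) (.e (nat_lit 57927) (nat_lit 282) (.e (nat_lit 163866) (nat_lit 2) .nil))))))) (.g (nat_lit 1) (.e (nat_lit 219034) (nat_lit 0) .nil) .nil))) 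
(.lf (nat_lit 519083) (.g (nat_lit 427) (.e (nat_lit 196674) (nat_lit 15) (.e (nat_lit 81956) (nat_lit 23) (.e (nat_lit 98389) (nat_lit 33) .nil))) (.g (nat_lit 0) (.e (nat_lit 219912) (nat_lit 0) .nil) .nil)))))) (.nd (nat_lit 7) (.nd (nat_lit 8) (.nd (nat_lit 9) 
(.lf (nat_lit 518251) (.g (nat_lit 1116) (.e (nat_lit 196668) (nat_lit 14) (.e (nat_lit 73747) (nat_lit 3) (.e (nat_lit 516129) (nat_lit 3) (.e (nat_lit 221215) (nat_lit 23) .nil)))) (.g (nat_lit 0) (.e (nat_lit 218153) (nat_lit 0) .nil) .nil))) 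
(.lf (nat_lit 518763) (.g (nat_lit 3628) (.e (nat_lit 196670) (nat_lit 14) (.e (nat_lit 73754) (nat_lit 8) (.e (nat_lit 557105) (nat_lit 14) (.e (nat_lit 180252) (nat_lit 10) (.e (nat_lit 573503) (nat_lit 18) (.e (nat_lit 1014) (nat_lit 81) (.e (nat_lit 5269) (nat_lit 298) (.e (nat_lit 162) (nat_lit 11) .nil)))))))) (.g (nat_lit 1) (.e (nat_lit 219292) (nat_lit 0) .nil) .nil)))) (.nd (nat_lit 9) 
(.lf (nat_lit 518507) (.g (nat_lit 2026) (.e (nat_lit 196670) (nat_lit 14) (.e (nat_lit 73746) (nat_lit 3) (.e (nat_lit 516120) (nat_lit 1) (.e (nat_lit 164183) (nat_lit 154) (.e (nat_lit 57376) (nat_lit 3) .nil))))) (.g (nat_lit 0) (.e (nat_lit 218922) (nat_lit 0) .nil) .nil))) 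
(.lf (nat_lit 519019) (.g (nat_lit 256) (.e (nat_lit 196674) (nat_lit 15) (.e (nat_lit 81925) (nat_lit 11) (.e (nat_lit 426500) (nat_lit 27) .nil))) (.g (nat_lit 0) (.e (nat_lit 219808) (nat_lit 0) .nil) .nil))))) (.nd (nat_lit 8) (.nd (nat_lit 9) 
(.lf (nat_lit 518379) (.g (nat_lit 1790) (.e (nat_lit 196669) (nat_lit 14) (.e (nat_lit 73746) (nat_lit 3) (.e (nat_lit 516115) (nat_lit 1) (.e (nat_lit 164179) (nat_lit 154) .nil)))) (.g (nat_lit 0) (.e (nat_lit 218491) (nat_lit 0) .nil) .nil))) 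
(.lf (nat_lit 518891) (.g (nat_lit 2276) (.e (nat_lit 196672) (nat_lit 15) (.e (nat_lit 81954) (nat_lit 23) (.e (nat_lit 98349) (nat_lit 24) (.e (nat_lit 409612) (nat_lit 10) (.e (nat_lit 5710) (nat_lit 312) .nil))))) (.g (nat_lit 0) (.e (nat_lit 219591) (nat_lit 0) .nil) .nil)))) (.nd (nat_lit 9) 
(.lf (nat_lit 518635) (.g (nat_lit 2060) (.e (nat_lit 196670) (nat_lit 14) (.e (nat_lit 73753) (nat_lit 8) (.e (nat_lit 557105) (nat_lit 14) (.e (nat_lit 180252) (nat_lit 10) (.e (nat_lit 573473) (nat_lit 12) (.e (nat_lit 57507) (nat_lit 39) (.e (nat_lit 655104) (nat_lit 0) (.e (nat_lit 2666) (nat_lit 167) .nil)))))))) (.g (nat_lit 1) (.e (nat_lit 219142) (nat_lit 0) .nil) .nil))) 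
(.lf (nat_lit 519147) (.g (nat_lit 2304) (.e (nat_lit 196681) (nat_lit 17) (.e (nat_lit 131109) (nat_lit 9) (.e (nat_lit 336019) (nat_lit 3) (.e (nat_lit 98350) (nat_lit 24) (.e (nat_lit 417536) (nat_lit 18) (.e (nat_lit 303117) (nat_lit 2) .nil)))))) (.g (nat_lit 1) (.e (nat_lit 220210) (nat_lit 0) .nil) .nil)))))))) 
(.nd (nat_lit 5) (.nd (nat_lit 6) (.nd (nat_lit 7) (.nd (nat_lit 8) (.nd (nat_lit 9) 
(.lf (nat_lit 518171) (.g (nat_lit 2869) (.e (nat_lit 196668) (nat_lit 14) (.e (nat_lit 73746) (nat_lit 3) (.e (nat_lit 516129) (nat_lit 3) (.e (nat_lit 221214) (nat_lit 23) (.e (nat_lit 204831) (nat_lit 18) (.e (nat_lit 57931) (nat_lit 282) (.e (nat_lit 163866) (nat_lit 2) .nil))))))) (.g (nat_lit 1) (.e (nat_lit 217534) (nat_lit 0) .nil) .nil))) 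
(.lf (nat_lit 518683) (.g (nat_lit 2874) (.e (nat_lit 196670) (nat_lit 14) (.e (nat_lit 73754) (nat_lit 8) (.e (nat_lit 557100) (nat_lit 13) (.e (nat_lit 172065) (nat_lit 3) (.e (nat_lit 204830) (nat_lit 18) .nil))))) (.g (nat_lit 0) (.e (nat_lit 219203) (nat_lit 0) .nil) .nil)))) (.nd (nat_lit 9) 
(.lf (nat_lit 518427) (.g (nat_lit 2102) (.e (nat_lit 196669) (nat_lit 14) (.e (nat_lit 73755) (nat_lit 8) (.e (nat_lit 557103) (nat_lit 14) (.e (nat_lit 180244) (nat_lit 5) (.e (nat_lit 532499) (nat_lit 1) .nil))))) (.g (nat_lit 0) (.e (nat_lit 218563) (nat_lit 0) .nil) .nil))) 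
(.lf (nat_lit 518939) (.g (nat_lit 661) (.e (nat_lit 196672) (nat_lit 15) (.e (nat_lit 81954) (nat_lit 23) (.e (nat_lit 98364) (nat_lit 26) .nil))) (.g (nat_lit 0) (.e (nat_lit 219662) (nat_lit 0) .nil) .nil))))) (.nd (nat_lit 8) (.nd (nat_lit 9) 
(.lf (nat_lit 518299) (.g (nat_lit 3446) (.e (nat_lit 196668) (nat_lit 14) (.e (nat_lit 73753) (nat_lit 8) (.e (nat_lit 557103) (nat_lit 14) (.e (nat_lit 180244) (nat_lit 5) (.e (nat_lit 532501) (nat_lit 1) (.e (nat_lit 65280) (nat_lit 168) (.e (nat_lit 163867) (nat_lit 2) .nil))))))) (.g (nat_lit 1) (.e (nat_lit 218331) (nat_lit 0) .nil) .nil))) 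
(.lf (nat_lit 518811) (.g (nat_lit 1895) (.e (nat_lit 196672) (nat_lit 15) (.e (nat_lit 81927) (nat_lit 11) (.e (nat_lit 426100) (nat_lit 1) (.e (nat_lit 164183) (nat_lit 154) (.e (nat_lit 57411) (nat_lit 12) .nil))))) (.g (nat_lit 0) (.e (nat_lit 219372) (nat_lit 0) .nil) .nil)))) (.nd (nat_lit 9) 
(.lf (nat_lit 518555) (.g (nat_lit 3008) (.e (nat_lit 196670) (nat_lit 14) (.e (nat_lit 73746) (nat_lit 3) (.e (nat_lit 516129) (nat_lit 3) (.e (nat_lit 221215) (nat_lit 23) (.e (nat_lit 204839) (nat_lit 21) (.e (nat_lit 123228) (nat_lit 282) (.e (nat_lit 163867) (nat_lit 2) .nil))))))) (.g (nat_lit 1) (.e (nat_lit 219013) (nat_lit 0) .nil) .nil))) 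
(.lf (nat_lit 519067) (.g (nat_lit 1515) (.e (nat_lit 196674) (nat_lit 15) (.e (nat_lit 81955) (nat_lit 23) (.e (nat_lit 98350) (nat_lit 24) (.e (nat_lit 409643) (nat_lit 18) (.e (nat_lit 303116) (nat_lit 2) .nil))))) (.g (nat_lit 0) (.e (nat_lit 219892) (nat_lit 0) .nil) .nil)))))) (.nd (nat_lit 7) (.nd (nat_lit 8) (.nd (nat_lit 9) 
(.lf (nat_lit 518235) (.g (nat_lit 1095) (.e (nat_lit 196668) (nat_lit 14) (.e (nat_lit 73747) (nat_lit 3) (.e (nat_lit 516129) (nat_lit 3) (.e (nat_lit 221210) (nat_lit 22) .nil)))) (.g (nat_lit 0) (.e (nat_lit 218108) (nat_lit 0) .nil) .nil))) 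
(.lf (nat_lit 518747) (.g (nat_lit 2733) (.e (nat_lit 196670) (nat_lit 14) (.e (nat_lit 73754) (nat_lit 8) (.e (nat_lit 557105) (nat_lit 14) (.e (nat_lit 180252) (nat_lit 10) (.e (nat_lit 573475) (nat_lit 12) (.e (nat_lit 57506) (nat_lit 39) (.e (nat_lit 655104) (nat_lit 0) (.e (nat_lit 2657) (nat_lit 167) .nil)))))))) (.g (nat_lit 1) (.e (nat_lit 219276) (nat_lit 0) .nil) .nil)))) 
(.nd (nat_lit 9) 
(.lf (nat_lit 518491) (.g (nat_lit 2986) (.e (nat_lit 196670) (nat_lit 14) (.e (nat_lit 73746) (nat_lit 3) (.e (nat_lit 516119) (nat_lit 1) (.e (nat_lit 164180) (nat_lit 154) (.e (nat_lit 57379) (nat_lit 3) (.e (nat_lit 98340) (nat_lit 20) (.e (nat_lit 221212) (nat_lit 22) .nil))))))) (.g (nat_lit 1) (.e (nat_lit 218855) (nat_lit 0) .nil) .nil))) 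
(.lf (nat_lit 519003) (.g (nat_lit 2729) (.e (nat_lit 196673) (nat_lit 15) (.e (nat_lit 81962) (nat_lit 25) (.e (nat_lit 139289) (nat_lit 9) (.e (nat_lit 2829) (nat_lit 182) (.e (nat_lit 409647) (nat_lit 18) (.e (nat_lit 303117) (nat_lit 2) .nil)))))) (.g (nat_lit 1) (.e (nat_lit 219781) (nat_lit 0) .nil) .nil))))) (.nd (nat_lit 8) (.nd (nat_lit 9) 
(.lf (nat_lit 518363) (.g (nat_lit 497) (.e (nat_lit 196668) (nat_lit 14) (.e (nat_lit 73781) (nat_lit 32) (.e (nat_lit 2682) (nat_lit 168) .nil))) (.g (nat_lit 0) (.e (nat_lit 218407) (nat_lit 0) .nil) .nil))) 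
(.lf (nat_lit 518875) (.g (nat_lit 311) (.e (nat_lit 196672) (nat_lit 15) (.e (nat_lit 81954) (nat_lit 23) (.e (nat_lit 98325) (nat_lit 17) .nil))) (.g (nat_lit 0) (.e (nat_lit 219562) (nat_lit 0) .nil) .nil)))) (.nd (nat_lit 9) 
(.lf (nat_lit 518619) (.g (nat_lit 1822) (.e (nat_lit 196670) (nat_lit 14) (.e (nat_lit 73753) (nat_lit 8) (.e (nat_lit 557104) (nat_lit 14) (.e (nat_lit 180252) (nat_lit 10) .nil)))) (.g (nat_lit 0) (.e (nat_lit 219123) (nat_lit 0) .nil) .nil))) 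
(.lf (nat_lit 519131) (.g (nat_lit 3616) (.e (nat_lit 196681) (nat_lit 17) (.e (nat_lit 131105) (nat_lit 9) (.e (nat_lit 336454) (nat_lit 34) (.e (nat_lit 483363) (nat_lit 18) (.e (nat_lit 57926) (nat_lit 282) (.e (nat_lit 163868) (nat_lit 2) .nil)))))) (.g (nat_lit 1) (.e (nat_lit 220148) (nat_lit 0) .nil) .nil))))))) (.nd (nat_lit 6) (.nd (nat_lit 7) (.nd (nat_lit 8) (.nd (nat_lit 9) 
(.lf (nat_lit 518203) (.g (nat_lit 1357) (.e (nat_lit 196668) (nat_lit 14) (.e (nat_lit 73747) (nat_lit 3) (.e (nat_lit 516117) (nat_lit 1) (.e (nat_lit 164181) (nat_lit 154) .nil)))) (.g (nat_lit 0) (.e (nat_lit 217832) (nat_lit 0) .nil) .nil))) 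
(.lf (nat_lit 518715) (.g (nat_lit 3306) (.e (nat_lit 196670) (nat_lit 14) (.e (nat_lit 73754) (nat_lit 8) (.e (nat_lit 557105) (nat_lit 14) (.e (nat_lit 180252) (nat_lit 10) (.e (nat_lit 573473) (nat_lit 12) (.e (nat_lit 57508) (nat_lit 39) (.e (nat_lit 647175) (nat_lit 0) (.e (nat_lit 2657) (nat_lit 167) .nil)))))))) (.g (nat_lit 1) (.e (nat_lit 219244) (nat_lit 0) .nil) .nil)))) 
(.nd (nat_lit 9) 
(.lf (nat_lit 518459) (.g (nat_lit 1049) (.e (nat_lit 196670) (nat_lit 14) (.e (nat_lit 73729) (nat_lit 0) (.e (nat_lit 4780) (nat_lit 281) (.e (nat_lit 1011) (nat_lit 81) .nil)))) (.g (nat_lit 0) (.e (nat_lit 218606) (nat_lit 0) .nil) .nil))) 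
(.lf (nat_lit 518971) (.g (nat_lit 1745) (.e (nat_lit 196672) (nat_lit 15) (.e (nat_lit 81956) (nat_lit 23) (.e (nat_lit 98353) (nat_lit 25) (.e (nat_lit 425728) (nat_lit 19) .nil)))) (.g (nat_lit 0) (.e (nat_lit 219715) (nat_lit 0) .nil) .nil))))) (.nd (nat_lit 8) (.nd (nat_lit 9) 
(.lf (nat_lit 518331) (.g (nat_lit 3700) (.e (nat_lit 196668) (nat_lit 14) (.e (nat_lit 73753) (nat_lit 8) (.e (nat_lit 557104) (nat_lit 14) (.e (nat_lit 180252) (nat_lit 10) (.e (nat_lit 573474) (nat_lit 12) (.e (nat_lit 57509) (nat_lit 39) (.e (nat_lit 655104) (nat_lit 0) (.e (nat_lit 2667) (nat_lit 167) .nil)))))))) (.g (nat_lit 1) (.e (nat_lit 218369) (nat_lit 0) .nil) .nil))) 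
(.lf (nat_lit 518843) (.g (nat_lit 3096) (.e (nat_lit 196672) (nat_lit 15) (.e (nat_lit 81951) (nat_lit 22) (.e (nat_lit 90165) (nat_lit 12) (.e (nat_lit 164207) (nat_lit 176) (.e (nat_lit 2816) (nat_lit 181) (.e (nat_lit 311312) (nat_lit 2) .nil)))))) (.g (nat_lit 1) (.e (nat_lit 219469) (nat_lit 0) .nil) .nil)))) (.nd (nat_lit 9) 
(.lf (nat_lit 518587) (.g (nat_lit 3148) (.e (nat_lit 196670) (nat_lit 14) (.e (nat_lit 73746) (nat_lit 3) (.e (nat_lit 516131) (nat_lit 3) (.e (nat_lit 221215) (nat_lit 23) (.e (nat_lit 204831) (nat_lit 18) (.e (nat_lit 57931) (nat_lit 282) (.e (nat_lit 163866) (nat_lit 2) .nil))))))) (.g (nat_lit 1) (.e (nat_lit 219050) (nat_lit 0) .nil) .nil))) 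
(.lf (nat_lit 519099) (.g (nat_lit 2877) (.e (nat_lit 196681) (nat_lit 17) (.e (nat_lit 131098) (nat_lit 3) (.e (nat_lit 98333) (nat_lit 18) (.e (nat_lit 164177) (nat_lit 154) (.e (nat_lit 57379) (nat_lit 3) (.e (nat_lit 98340) (nat_lit 20) (.e (nat_lit 221212) (nat_lit 22) .nil))))))) (.g (nat_lit 1) (.e (nat_lit 220073) (nat_lit 0) .nil) .nil)))))) 
(.nd (nat_lit 7) (.nd (nat_lit 8) (.nd (nat_lit 9) 
(.lf (nat_lit 518267) (.g (nat_lit 2550) (.e (nat_lit 196668) (nat_lit 14) (.e (nat_lit 73747) (nat_lit 3) (.e (nat_lit 516130) (nat_lit 3) (.e (nat_lit 221214) (nat_lit 23) (.e (nat_lit 204831) (nat_lit 18) (.e (nat_lit 57931) (nat_lit 282) (.e (nat_lit 163867) (nat_lit 2) .nil))))))) (.g (nat_lit 1) (.e (nat_lit 218176) (nat_lit 0) .nil) .nil))) 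
(.lf (nat_lit 518779) (.g (nat_lit 3108) (.e (nat_lit 196670) (nat_lit 14) (.e (nat_lit 73755) (nat_lit 8) (.e (nat_lit 557105) (nat_lit 14) (.e (nat_lit 180252) (nat_lit 10) (.e (nat_lit 573495) (nat_lit 16) .nil))))) (.g (nat_lit 0) (.e (nat_lit 219318) (nat_lit 0) .nil) .nil)))) (.nd (nat_lit 9) 
(.lf (nat_lit 518523) (.g (nat_lit 2124) (.e (nat_lit 196670) (nat_lit 14) (.e (nat_lit 73746) (nat_lit 3) (.e (nat_lit 516129) (nat_lit 3) (.e (nat_lit 221212) (nat_lit 22) (.e (nat_lit 196635) (nat_lit 9) .nil))))) (.g (nat_lit 0) (.e (nat_lit 218981) (nat_lit 0) .nil) .nil))) 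
(.lf (nat_lit 519035) (.g (nat_lit 2879) (.e (nat_lit 196674) (nat_lit 15) (.e (nat_lit 81946) (nat_lit 20) (.e (nat_lit 1842) (nat_lit 123) (.e (nat_lit 548890) (nat_lit 10) (.e (nat_lit 73781) (nat_lit 32) (.e (nat_lit 2664) (nat_lit 167) .nil)))))) (.g (nat_lit 1) (.e (nat_lit 219825) (nat_lit 0) .nil) .nil))))) (.nd (nat_lit 8) (.nd (nat_lit 9) 
(.lf (nat_lit 518395) (.g (nat_lit 2187) (.e (nat_lit 196669) (nat_lit 14) (.e (nat_lit 73747) (nat_lit 3) (.e (nat_lit 516115) (nat_lit 1) (.e (nat_lit 164182) (nat_lit 154) (.e (nat_lit 57379) (nat_lit 3) .nil))))) (.g (nat_lit 0) (.e (nat_lit 218507) (nat_lit 0) .nil) .nil))) 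
(.lf (nat_lit 518907) (.g (nat_lit 3314) (.e (nat_lit 196672) (nat_lit 15) (.e (nat_lit 81954) (nat_lit 23) (.e (nat_lit 98350) (nat_lit 24) (.e (nat_lit 409612) (nat_lit 10) (.e (nat_lit 5710) (nat_lit 312) .nil))))) (.g (nat_lit 0) (.e (nat_lit 219607) (nat_lit 0) .nil) .nil)))) (.nd (nat_lit 9) 
(.lf (nat_lit 518651) (.g (nat_lit 3067) (.e (nat_lit 196670) (nat_lit 14) (.e (nat_lit 73753) (nat_lit 8) (.e (nat_lit 557105) (nat_lit 14) (.e (nat_lit 180252) (nat_lit 10) (.e (nat_lit 573474) (nat_lit 12) (.e (nat_lit 57507) (nat_lit 39) (.e (nat_lit 647170) (nat_lit 0) (.e (nat_lit 2654) (nat_lit 167) .nil)))))))) (.g (nat_lit 1) (.e (nat_lit 219158) (nat_lit 0) .nil) .nil))) 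
(.lf (nat_lit 519163) (.g (nat_lit 1624) (.e (nat_lit 196681) (nat_lit 17) (.e (nat_lit 131109) (nat_lit 9) (.e (nat_lit 336324) (nat_lit 18) (.e (nat_lit 204837) (nat_lit 20) (.e (nat_lit 122624) (nat_lit 11) (.e (nat_lit 426115) (nat_lit 2) .nil)))))) (.g (nat_lit 1) (.e (nat_lit 220255) (nat_lit 0) .nil) .nil)))))))))) 
(.nd (nat_lit 3) (.nd (nat_lit 4) (.nd (nat_lit 5) (.nd (nat_lit 6) (.nd (nat_lit 7) 
(.nd (nat_lit 8) (.nd (nat_lit 9) 
(.lf (nat_lit 518151) (.g (nat_lit 2803) (.e (nat_lit 196668) (nat_lit 14) (.e (nat_lit 73746) (nat_lit 3) (.e (nat_lit 516119) (nat_lit 1) (.e (nat_lit 164182) (nat_lit 154) (.e (nat_lit 57379) (nat_lit 3) (.e (nat_lit 98342) (nat_lit 20) (.e (nat_lit 221212) (nat_lit 22) .nil))))))) (.g (nat_lit 1) (.e (nat_lit 217449) (nat_lit 0) .nil) .nil))) 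
(.lf (nat_lit 518663) (.g (nat_lit 2865) (.e (nat_lit 196670) (nat_lit 14) (.e (nat_lit 73753) (nat_lit 8) (.e (nat_lit 557105) (nat_lit 14) (.e (nat_lit 180252) (nat_lit 10) (.e (nat_lit 573474) (nat_lit 12) (.e (nat_lit 57508) (nat_lit 39) (.e (nat_lit 655104) (nat_lit 0) (.e (nat_lit 2656) (nat_lit 167) .nil)))))))) (.g (nat_lit 1) (.e (nat_lit 219170) (nat_lit 0) .nil) .nil)))) 
(.nd (nat_lit 9) 
(.lf (nat_lit 518407) (.g (nat_lit 1546) (.e (nat_lit 196669) (nat_lit 14) (.e (nat_lit 73747) (nat_lit 3) (.e (nat_lit 516120) (nat_lit 1) (.e (nat_lit 164182) (nat_lit 154) .nil)))) (.g (nat_lit 0) (.e (nat_lit 218519) (nat_lit 0) .nil) .nil))) 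
(.lf (nat_lit 518919) (.g (nat_lit 2594) (.e (nat_lit 196672) (nat_lit 15) (.e (nat_lit 81954) (nat_lit 23) (.e (nat_lit 98350) (nat_lit 24) (.e (nat_lit 409618) (nat_lit 10) (.e (nat_lit 5667) (nat_lit 312) (.e (nat_lit 2661) (nat_lit 167) .nil)))))) (.g (nat_lit 1) (.e (nat_lit 219621) (nat_lit 0) .nil) .nil))))) (.nd (nat_lit 8) (.nd (nat_lit 9) 
(.lf (nat_lit 518279) (.g (nat_lit 2379) (.e (nat_lit 196668) (nat_lit 14) (.e (nat_lit 73747) (nat_lit 3) (.e (nat_lit 516131) (nat_lit 3) (.e (nat_lit 221214) (nat_lit 23) (.e (nat_lit 204831) (nat_lit 18) (.e (nat_lit 57924) (nat_lit 282) (.e (nat_lit 163867) (nat_lit 2) .nil))))))) (.g (nat_lit 1) (.e (nat_lit 218200) (nat_lit 0) .nil) .nil))) 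
(.lf (nat_lit 518791) (.g (nat_lit 3211) (.e (nat_lit 196671) (nat_lit 15) (.e (nat_lit 81956) (nat_lit 23) (.e (nat_lit 98350) (nat_lit 24) (.e (nat_lit 409651) (nat_lit 19) .nil)))) (.g (nat_lit 0) (.e (nat_lit 219342) (nat_lit 0) .nil) .nil)))) (.nd (nat_lit 9) 
(.lf (nat_lit 518535) (.g (nat_lit 3783) (.e (nat_lit 196670) (nat_lit 14) (.e (nat_lit 73746) (nat_lit 3) (.e (nat_lit 516129) (nat_lit 3) (.e (nat_lit 221214) (nat_lit 23) (.e (nat_lit 204830) (nat_lit 18) (.e (nat_lit 57927) (nat_lit 282) (.e (nat_lit 163866) (nat_lit 2) .nil))))))) (.g (nat_lit 1) (.e (nat_lit 218993) (nat_lit 0) .nil) .nil))) 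
(.lf (nat_lit 519047) (.g (nat_lit 2707) (.e (nat_lit 196674) (nat_lit 15) (.e (nat_lit 81946) (nat_lit 20) (.e (nat_lit 1858) (nat_lit 124) (.e (nat_lit 557093) (nat_lit 12) (.e (nat_lit 171776) (nat_lit 48) .nil))))) (.g (nat_lit 0) (.e (nat_lit 219860) (nat_lit 0) .nil) .nil)))))) (.nd (nat_lit 7) (.nd (nat_lit 8) (.nd (nat_lit 9) 
(.lf (nat_lit 518215) (.g (nat_lit 3822) (.e (nat_lit 196668) (nat_lit 14) (.e (nat_lit 73747) (nat_lit 3) (.e (nat_lit 516119) (nat_lit 1) (.e (nat_lit 164179) (nat_lit 154) (.e (nat_lit 57378) (nat_lit 3) (.e (nat_lit 98340) (nat_lit 20) (.e (nat_lit 221212) (nat_lit 22) .nil))))))) (.g (nat_lit 1) (.e (nat_lit 218010) (nat_lit 0) .nil) .nil))) 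
(.lf (nat_lit 518727) (.g (nat_lit 3339) (.e (nat_lit 196670) (nat_lit 14) (.e (nat_lit 73754) (nat_lit 8) (.e (nat_lit 557105) (nat_lit 14) (.e (nat_lit 180252) (nat_lit 10) (.e (nat_lit 573474) (nat_lit 12) (.e (nat_lit 57506) (nat_lit 39) (.e (nat_lit 647175) (nat_lit 0) (.e (nat_lit 2663) (nat_lit 167) .nil)))))))) (.g (nat_lit 1) (.e (nat_lit 219256) (nat_lit 0) .nil) .nil)))) 
(.nd (nat_lit 9) 
(.lf (nat_lit 518471) (.g (nat_lit 1180) (.e (nat_lit 196670) (nat_lit 14) (.e (nat_lit 73746) (nat_lit 3) (.e (nat_lit 516115) (nat_lit 1) (.e (nat_lit 164183) (nat_lit 154) .nil)))) (.g (nat_lit 0) (.e (nat_lit 218694) (nat_lit 0) .nil) .nil))) 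
(.lf (nat_lit 518983) (.g (nat_lit 985) (.e (nat_lit 196673) (nat_lit 15) (.e (nat_lit 81953) (nat_lit 22) (.e (nat_lit 90165) (nat_lit 12) (.e (nat_lit 164207) (nat_lit 176) .nil)))) (.g (nat_lit 0) (.e (nat_lit 219757) (nat_lit 0) .nil) .nil))))) (.nd (nat_lit 8) (.nd (nat_lit 9) 
(.lf (nat_lit 518343) (.g (nat_lit 3485) (.e (nat_lit 196668) (nat_lit 14) (.e (nat_lit 73753) (nat_lit 8) (.e (nat_lit 557105) (nat_lit 14) (.e (nat_lit 180252) (nat_lit 10) (.e (nat_lit 573474) (nat_lit 12) (.e (nat_lit 57507) (nat_lit 39) (.e (nat_lit 647176) (nat_lit 0) (.e (nat_lit 2667) (nat_lit 167) .nil)))))))) (.g (nat_lit 1) (.e (nat_lit 218382) (nat_lit 0) .nil) .nil))) 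
(.lf (nat_lit 518855) (.g (nat_lit 304) (.e (nat_lit 196672) (nat_lit 15) (.e (nat_lit 81954) (nat_lit 23) (.e (nat_lit 98319) (nat_lit 17) .nil))) (.g (nat_lit 0) (.e (nat_lit 219534) (nat_lit 0) .nil) .nil)))) (.nd (nat_lit 9) 
(.lf (nat_lit 518599) (.g (nat_lit 374) (.e (nat_lit 196670) (nat_lit 14) (.e (nat_lit 73753) (nat_lit 8) (.e (nat_lit 557103) (nat_lit 14) .nil))) (.g (nat_lit 0) (.e (nat_lit 219092) (nat_lit 0) .nil) .nil))) 
(.lf (nat_lit 519111) (.g (nat_lit 2901) (.e (nat_lit 196681) (nat_lit 17) (.e (nat_lit 131105) (nat_lit 9) (.e (nat_lit 336019) (nat_lit 3) (.e (nat_lit 98350) (nat_lit 24) (.e (nat_lit 409616) (nat_lit 10) (.e (nat_lit 7936) (nat_lit 312) (.e (nat_lit 2668) (nat_lit 167) .nil))))))) (.g (nat_lit 1) (.e (nat_lit 220099) (nat_lit 0) .nil) .nil))))))) 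
(.nd (nat_lit 6) (.nd (nat_lit 7) (.nd (nat_lit 8) (.nd (nat_lit 9) 
(.lf (nat_lit 518183) (.g (nat_lit 1832) (.e (nat_lit 196668) (nat_lit 14) (.e (nat_lit 73747) (nat_lit 3) (.e (nat_lit 516115) (nat_lit 1) (.e (nat_lit 164176) (nat_lit 154) .nil)))) (.g (nat_lit 0) (.e (nat_lit 217570) (nat_lit 0) .nil) .nil))) 
(.lf (nat_lit 518695) (.g (nat_lit 3330) (.e (nat_lit 196670) (nat_lit 14) (.e (nat_lit 73754) (nat_lit 8) (.e (nat_lit 557105) (nat_lit 14) (.e (nat_lit 180252) (nat_lit 10) (.e (nat_lit 573448) (nat_lit 9) .nil))))) (.g (nat_lit 0) (.e (nat_lit 219223) (nat_lit 0) .nil) .nil)))) (.nd (nat_lit 9) 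
(.lf (nat_lit 518439) (.g (nat_lit 1401) (.e (nat_lit 196669) (nat_lit 14) (.e (nat_lit 73755) (nat_lit 8) (.e (nat_lit 557105) (nat_lit 14) (.e (nat_lit 180252) (nat_lit 10) .nil)))) (.g (nat_lit 0) (.e (nat_lit 218575) (nat_lit 0) .nil) .nil))) 
(.lf (nat_lit 518951) (.g (nat_lit 1059) (.e (nat_lit 196672) (nat_lit 15) (.e (nat_lit 81956) (nat_lit 23) (.e (nat_lit 98318) (nat_lit 17) .nil))) (.g (nat_lit 0) (.e (nat_lit 219694) (nat_lit 0) .nil) .nil))))) (.nd (nat_lit 8) (.nd (nat_lit 9) 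
(.lf (nat_lit 518311) (.g (nat_lit 3433) (.e (nat_lit 196668) (nat_lit 14) (.e (nat_lit 73753) (nat_lit 8) (.e (nat_lit 557103) (nat_lit 14) (.e (nat_lit 180250) (nat_lit 10) (.e (nat_lit 573474) (nat_lit 12) (.e (nat_lit 57507) (nat_lit 39) (.e (nat_lit 655104) (nat_lit 0) (.e (nat_lit 2656) (nat_lit 167) .nil)))))))) (.g (nat_lit 1) (.e (nat_lit 218346) (nat_lit 0) .nil) .nil))) 
(.lf (nat_lit 518823) (.g (nat_lit 2434) (.e (nat_lit 196672) (nat_lit 15) (.e (nat_lit 81927) (nat_lit 11) (.e (nat_lit 426500) (nat_lit 27) (.e (nat_lit 335995) (nat_lit 1) (.e (nat_lit 57924) (nat_lit 282) (.e (nat_lit 163871) (nat_lit 2) .nil)))))) (.g (nat_lit 1) (.e (nat_lit 219390) (nat_lit 0) .nil) .nil)))) (.nd (nat_lit 9) 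
(.lf (nat_lit 518567) (.g (nat_lit 1477) (.e (nat_lit 196670) (nat_lit 14) (.e (nat_lit 73746) (nat_lit 3) (.e (nat_lit 516131) (nat_lit 3) (.e (nat_lit 221212) (nat_lit 22) (.e (nat_lit 196691) (nat_lit 18) .nil))))) (.g (nat_lit 0) (.e (nat_lit 219027) (nat_lit 0) .nil) .nil))) 
(.lf (nat_lit 519079) (.g (nat_lit 3638) (.e (nat_lit 196674) (nat_lit 15) (.e (nat_lit 81956) (nat_lit 23) (.e (nat_lit 98350) (nat_lit 24) (.e (nat_lit 409647) (nat_lit 18) (.e (nat_lit 303116) (nat_lit 2) .nil))))) (.g (nat_lit 0) (.e (nat_lit 219905) (nat_lit 0) .nil) .nil)))))) (.nd (nat_lit 7) (.nd (nat_lit 8) (.nd (nat_lit 9) 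
(.lf (nat_lit 518247) (.g (nat_lit 3639) (.e (nat_lit 196668) (nat_lit 14) (.e (nat_lit 73747) (nat_lit 3) (.e (nat_lit 516129) (nat_lit 3) (.e (nat_lit 221214) (nat_lit 23) (.e (nat_lit 204830) (nat_lit 18) (.e (nat_lit 57929) (nat_lit 282) (.e (nat_lit 163867) (nat_lit 2) .nil))))))) (.g (nat_lit 1) (.e (nat_lit 218148) (nat_lit 0) .nil) .nil))) 
(.lf (nat_lit 518759) (.g (nat_lit 2726) (.e (nat_lit 196670) (nat_lit 14) (.e (nat_lit 73754) (nat_lit 8) (.e (nat_lit 557105) (nat_lit 14) (.e (nat_lit 180252) (nat_lit 10) (.e (nat_lit 573475) (nat_lit 12) (.e (nat_lit 57509) (nat_lit 39) (.e (nat_lit 647172) (nat_lit 0) (.e (nat_lit 2665) (nat_lit 167) .nil)))))))) (.g (nat_lit 1) (.e (nat_lit 219288) (nat_lit 0) .nil) .nil)))) 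
(.nd (nat_lit 9) 
(.lf (nat_lit 518503) (.g (nat_lit 1337) (.e (nat_lit 196670) (nat_lit 14) (.e (nat_lit 73746) (nat_lit 3) (.e (nat_lit 516120) (nat_lit 1) (.e (nat_lit 164181) (nat_lit 154) .nil)))) (.g (nat_lit 0) (.e (nat_lit 218871) (nat_lit 0) .nil) .nil))) 
(.lf (nat_lit 519015) (.g (nat_lit 1546) (.e (nat_lit 196674) (nat_lit 15) (.e (nat_lit 81922) (nat_lit 0) (.e (nat_lit 3305) (nat_lit 202) (.e (nat_lit 573489) (nat_lit 14) (.e (nat_lit 81664) (nat_lit 32) .nil))))) (.g (nat_lit 0) (.e (nat_lit 219801) (nat_lit 0) .nil) .nil))))) (.nd (nat_lit 8) (.nd (nat_lit 9) 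
(.lf (nat_lit 518375) (.g (nat_lit 190) (.e (nat_lit 196668) (nat_lit 14) (.e (nat_lit 73789) (nat_lit 45) (.e (nat_lit 1139) (nat_lit 84) .nil))) (.g (nat_lit 0) (.e (nat_lit 218447) (nat_lit 0) .nil) .nil))) 
(.lf (nat_lit 518887) (.g (nat_lit 1583) (.e (nat_lit 196672) (nat_lit 15) (.e (nat_lit 81954) (nat_lit 23) (.e (nat_lit 98335) (nat_lit 18) (.e (nat_lit 164429) (nat_lit 278) .nil)))) (.g (nat_lit 0) (.e (nat_lit 219586) (nat_lit 0) .nil) .nil)))) (.nd (nat_lit 9) 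
(.lf (nat_lit 518631) (.g (nat_lit 2240) (.e (nat_lit 196670) (nat_lit 14) (.e (nat_lit 73753) (nat_lit 8) (.e (nat_lit 557105) (nat_lit 14) (.e (nat_lit 180252) (nat_lit 10) (.e (nat_lit 573473) (nat_lit 12) (.e (nat_lit 57507) (nat_lit 39) (.e (nat_lit 647170) (nat_lit 0) (.e (nat_lit 2662) (nat_lit 167) .nil)))))))) (.g (nat_lit 1) (.e (nat_lit 219138) (nat_lit 0) .nil) .nil))) 
(.lf (nat_lit 519143) (.g (nat_lit 3344) (.e (nat_lit 196681) (nat_lit 17) (.e (nat_lit 131109) (nat_lit 9) (.e (nat_lit 336019) (nat_lit 3) (.e (nat_lit 98350) (nat_lit 24) (.e (nat_lit 409648) (nat_lit 18) (.e (nat_lit 311040) (nat_lit 2) .nil)))))) (.g (nat_lit 1) (.e (nat_lit 220206) (nat_lit 0) .nil) .nil)))))))) 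
(.nd (nat_lit 5) (.nd (nat_lit 6) (.nd (nat_lit 7) (.nd (nat_lit 8) (.nd (nat_lit 9) 
(.lf (nat_lit 518167) (.g (nat_lit 3154) (.e (nat_lit 196668) (nat_lit 14) (.e (nat_lit 73746) (nat_lit 3) (.e (nat_lit 516129) (nat_lit 3) (.e (nat_lit 221214) (nat_lit 23) (.e (nat_lit 204829) (nat_lit 18) (.e (nat_lit 57927) (nat_lit 282) (.e (nat_lit 163866) (nat_lit 2) .nil))))))) (.g (nat_lit 1) (.e (nat_lit 217530) (nat_lit 0) .nil) .nil))) 
(.lf (nat_lit 518679) (.g (nat_lit 3618) (.e (nat_lit 196670) (nat_lit 14) (.e (nat_lit 73753) (nat_lit 8) (.e (nat_lit 557105) (nat_lit 14) (.e (nat_lit 180252) (nat_lit 10) (.e (nat_lit 573503) (nat_lit 18) (.e (nat_lit 1014) (nat_lit 81) (.e (nat_lit 5269) (nat_lit 298) (.e (nat_lit 162) (nat_lit 11) .nil)))))))) (.g (nat_lit 1) (.e (nat_lit 219186) (nat_lit 0) .nil) .nil)))) (.nd (nat_lit 9) 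
(.lf (nat_lit 518423) (.g (nat_lit 1693) (.e (nat_lit 196669) (nat_lit 14) (.e (nat_lit 73755) (nat_lit 8) (.e (nat_lit 557098) (nat_lit 13) (.e (nat_lit 172140) (nat_lit 22) .nil)))) (.g (nat_lit 0) (.e (nat_lit 218558) (nat_lit 0) .nil) .nil))) 
(.lf (nat_lit 518935) (.g (nat_lit 1691) (.e (nat_lit 196672) (nat_lit 15) (.e (nat_lit 81954) (nat_lit 23) (.e (nat_lit 98356) (nat_lit 26) (.e (nat_lit 426111) (nat_lit 1) .nil)))) (.g (nat_lit 0) (.e (nat_lit 219644) (nat_lit 0) .nil) .nil))))) (.nd (nat_lit 8) (.nd (nat_lit 9) 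
(.lf (nat_lit 518295) (.g (nat_lit 4123) (.e (nat_lit 196668) (nat_lit 14) (.e (nat_lit 73753) (nat_lit 8) (.e (nat_lit 557103) (nat_lit 14) (.e (nat_lit 180243) (nat_lit 5) (.e (nat_lit 532503) (nat_lit 1) (.e (nat_lit 65280) (nat_lit 168) (.e (nat_lit 163869) (nat_lit 2) .nil))))))) (.g (nat_lit 1) (.e (nat_lit 218326) (nat_lit 0) .nil) .nil))) 
(.lf (nat_lit 518807) (.g (nat_lit 244) (.e (nat_lit 196672) (nat_lit 15) (.e (nat_lit 81925) (nat_lit 11) (.e (nat_lit 426500) (nat_lit 27) .nil))) (.g (nat_lit 0) (.e (nat_lit 219368) (nat_lit 0) .nil) .nil)))) (.nd (nat_lit 9) 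
(.lf (nat_lit 518551) (.g (nat_lit 3640) (.e (nat_lit 196670) (nat_lit 14) (.e (nat_lit 73746) (nat_lit 3) (.e (nat_lit 516129) (nat_lit 3) (.e (nat_lit 221215) (nat_lit 23) (.e (nat_lit 204830) (nat_lit 18) (.e (nat_lit 57927) (nat_lit 282) (.e (nat_lit 163866) (nat_lit 2) .nil))))))) (.g (nat_lit 1) (.e (nat_lit 219009) (nat_lit 0) .nil) .nil))) 
(.lf (nat_lit 519063) (.g (nat_lit 2898) (.e (nat_lit 196674) (nat_lit 15) (.e (nat_lit 81955) (nat_lit 23) (.e (nat_lit 98350) (nat_lit 24) (.e (nat_lit 409616) (nat_lit 10) (.e (nat_lit 7936) (nat_lit 312) (.e (nat_lit 2668) (nat_lit 167) .nil)))))) (.g (nat_lit 1) (.e (nat_lit 219888) (nat_lit 0) .nil) .nil)))))) (.nd (nat_lit 7) (.nd (nat_lit 8) (.nd (nat_lit 9) 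
(.lf (nat_lit 518231) (.g (nat_lit 3875) (.e (nat_lit 196668) (nat_lit 14) (.e (nat_lit 73747) (nat_lit 3) (.e (nat_lit 516120) (nat_lit 1) (.e (nat_lit 164183) (nat_lit 154) (.e (nat_lit 57379) (nat_lit 3) (.e (nat_lit 98341) (nat_lit 20) (.e (nat_lit 221212) (nat_lit 22) .nil))))))) (.g (nat_lit 1) (.e (nat_lit 218097) (nat_lit 0) .nil) .nil))) 
(.lf (nat_lit 518743) (.g (nat_lit 2060) (.e (nat_lit 196670) (nat_lit 14) (.e (nat_lit 73754) (nat_lit 8) (.e (nat_lit 557105) (nat_lit 14) (.e (nat_lit 180252) (nat_lit 10) (.e (nat_lit 573475) (nat_lit 12) (.e (nat_lit 57506) (nat_lit 39) (.e (nat_lit 647176) (nat_lit 0) (.e (nat_lit 2665) (nat_lit 167) .nil)))))))) (.g (nat_lit 1) (.e (nat_lit 219272) (nat_lit 0) .nil) .nil)))) 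
(.nd (nat_lit 9) 
(.lf (nat_lit 518487) (.g (nat_lit 1153) (.e (nat_lit 196670) (nat_lit 14) (.e (nat_lit 73746) (nat_lit 3) (.e (nat_lit 516119) (nat_lit 1) (.e (nat_lit 164179) (nat_lit 154) .nil)))) (.g (nat_lit 0) (.e (nat_lit 218828) (nat_lit 0) .nil) .nil))) 
(.lf (nat_lit 518999) (.g (nat_lit 3012) (.e (nat_lit 196673) (nat_lit 15) (.e (nat_lit 81956) (nat_lit 23) (.e (nat_lit 98350) (nat_lit 24) (.e (nat_lit 409651) (nat_lit 19) .nil)))) (.g (nat_lit 0) (.e (nat_lit 219774) (nat_lit 0) .nil) .nil))))) (.nd (nat_lit 8) (.nd (nat_lit 9) 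
(.lf (nat_lit 518359) (.g (nat_lit 2071) (.e (nat_lit 196668) (nat_lit 14) (.e (nat_lit 73755) (nat_lit 8) (.e (nat_lit 557105) (nat_lit 14) (.e (nat_lit 180252) (nat_lit 10) (.e (nat_lit 573474) (nat_lit 12) .nil))))) (.g (nat_lit 0) (.e (nat_lit 218399) (nat_lit 0) .nil) .nil))) 
(.lf (nat_lit 518871) (.g (nat_lit 2394) (.e (nat_lit 196672) (nat_lit 15) (.e (nat_lit 81954) (nat_lit 23) (.e (nat_lit 98323) (nat_lit 17) (.e (nat_lit 7107) (nat_lit 380) (.e (nat_lit 164362) (nat_lit 246) (.e (nat_lit 2661) (nat_lit 167) .nil)))))) (.g (nat_lit 1) (.e (nat_lit 219555) (nat_lit 0) .nil) .nil)))) (.nd (nat_lit 9) 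
(.lf (nat_lit 518615) (.g (nat_lit 2368) (.e (nat_lit 196670) (nat_lit 14) (.e (nat_lit 73753) (nat_lit 8) (.e (nat_lit 557103) (nat_lit 14) (.e (nat_lit 180250) (nat_lit 10) (.e (nat_lit 581376) (nat_lit 19) (.e (nat_lit 57883) (nat_lit 270) (.e (nat_lit 162) (nat_lit 11) .nil))))))) (.g (nat_lit 1) (.e (nat_lit 219118) (nat_lit 0) .nil) .nil))) 
(.lf (nat_lit 519127) (.g (nat_lit 3392) (.e (nat_lit 196681) (nat_lit 17) (.e (nat_lit 131105) (nat_lit 9) (.e (nat_lit 336324) (nat_lit 18) (.e (nat_lit 204838) (nat_lit 20) (.e (nat_lit 114698) (nat_lit 11) (.e (nat_lit 426121) (nat_lit 2) .nil)))))) (.g (nat_lit 1) (.e (nat_lit 220122) (nat_lit 0) .nil) .nil))))))) (.nd (nat_lit 6) (.nd (nat_lit 7) (.nd (nat_lit 8) (.nd (nat_lit 9) 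
(.lf (nat_lit 518199) (.g (nat_lit 2087) (.e (nat_lit 196668) (nat_lit 14) (.e (nat_lit 73747) (nat_lit 3) (.e (nat_lit 516116) (nat_lit 1) (.e (nat_lit 164182) (nat_lit 154) (.e (nat_lit 57378) (nat_lit 3) .nil))))) (.g (nat_lit 0) (.e (nat_lit 217821) (nat_lit 0) .nil) .nil))) 
(.lf (nat_lit 518711) (.g (nat_lit 2873) (.e (nat_lit 196670) (nat_lit 14) (.e (nat_lit 73754) (nat_lit 8) (.e (nat_lit 557105) (nat_lit 14) (.e (nat_lit 180252) (nat_lit 10) (.e (nat_lit 573473) (nat_lit 12) (.e (nat_lit 57508) (nat_lit 39) (.e (nat_lit 647170) (nat_lit 0) (.e (nat_lit 2654) (nat_lit 167) .nil)))))))) (.g (nat_lit 1) (.e (nat_lit 219240) (nat_lit 0) .nil) .nil)))) 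
(.nd (nat_lit 9) 
(.lf (nat_lit 518455) (.g (nat_lit 2945) (.e (nat_lit 196669) (nat_lit 14) (.e (nat_lit 73755) (nat_lit 8) (.e (nat_lit 557105) (nat_lit 14) (.e (nat_lit 180252) (nat_lit 10) (.e (nat_lit 573495) (nat_lit 16) .nil))))) (.g (nat_lit 0) (.e (nat_lit 218592) (nat_lit 0) .nil) .nil))) 
(.lf (nat_lit 518967) (.g (nat_lit 3139) (.e (nat_lit 196672) (nat_lit 15) (.e (nat_lit 81956) (nat_lit 23) (.e (nat_lit 98350) (nat_lit 24) (.e (nat_lit 409651) (nat_lit 19) .nil)))) (.g (nat_lit 0) (.e (nat_lit 219711) (nat_lit 0) .nil) .nil))))) (.nd (nat_lit 8) (.nd (nat_lit 9) 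
(.lf (nat_lit 518327) (.g (nat_lit 3485) (.e (nat_lit 196668) (nat_lit 14) (.e (nat_lit 73753) (nat_lit 8) (.e (nat_lit 557104) (nat_lit 14) (.e (nat_lit 180252) (nat_lit 10) (.e (nat_lit 573474) (nat_lit 12) (.e (nat_lit 57505) (nat_lit 39) (.e (nat_lit 655104) (nat_lit 0) (.e (nat_lit 2667) (nat_lit 167) .nil)))))))) (.g (nat_lit 1) (.e (nat_lit 218365) (nat_lit 0) .nil) .nil))) 
(.lf (nat_lit 518839) (.g (nat_lit 460) (.e (nat_lit 196672) (nat_lit 15) (.e (nat_lit 81951) (nat_lit 22) (.e (nat_lit 90129) (nat_lit 9) .nil))) (.g (nat_lit 0) (.e (nat_lit 219465) (nat_lit 0) .nil) .nil)))) (.nd (nat_lit 9) 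
(.lf (nat_lit 518583) (.g (nat_lit 2383) (.e (nat_lit 196670) (nat_lit 14) (.e (nat_lit 73746) (nat_lit 3) (.e (nat_lit 516131) (nat_lit 3) (.e (nat_lit 221215) (nat_lit 23) (.e (nat_lit 204830) (nat_lit 18) (.e (nat_lit 57927) (nat_lit 282) (.e (nat_lit 163870) (nat_lit 2) .nil))))))) (.g (nat_lit 1) (.e (nat_lit 219046) (nat_lit 0) .nil) .nil))) 
(.lf (nat_lit 519095) (.g (nat_lit 2503) (.e (nat_lit 196681) (nat_lit 17) (.e (nat_lit 131096) (nat_lit 3) (.e (nat_lit 98334) (nat_lit 18) (.e (nat_lit 164182) (nat_lit 154) (.e (nat_lit 57378) (nat_lit 3) (.e (nat_lit 98340) (nat_lit 20) (.e (nat_lit 221212) (nat_lit 22) .nil))))))) (.g (nat_lit 1) (.e (nat_lit 220059) (nat_lit 0) .nil) .nil)))))) 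
(.nd (nat_lit 7) (.nd (nat_lit 8) (.nd (nat_lit 9) 
(.lf (nat_lit 518263) (.g (nat_lit 3678) (.e (nat_lit 196668) (nat_lit 14) (.e (nat_lit 73747) (nat_lit 3) (.e (nat_lit 516129) (nat_lit 3) (.e (nat_lit 221215) (nat_lit 23) (.e (nat_lit 204830) (nat_lit 18) (.e (nat_lit 57930) (nat_lit 282) (.e (nat_lit 163869) (nat_lit 2) .nil))))))) (.g (nat_lit 1) (.e (nat_lit 218170) (nat_lit 0) .nil) .nil))) 
(.lf (nat_lit 518775) (.g (nat_lit 2044) (.e (nat_lit 196670) (nat_lit 14) (.e (nat_lit 73755) (nat_lit 8) (.e (nat_lit 557105) (nat_lit 14) (.e (nat_lit 180252) (nat_lit 10) (.e (nat_lit 573474) (nat_lit 12) .nil))))) (.g (nat_lit 0) (.e (nat_lit 219314) (nat_lit 0) .nil) .nil)))) (.nd (nat_lit 9) 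
(.lf (nat_lit 518519) (.g (nat_lit 1809) (.e (nat_lit 196670) (nat_lit 14) (.e (nat_lit 73746) (nat_lit 3) (.e (nat_lit 516129) (nat_lit 3) (.e (nat_lit 221210) (nat_lit 22) (.e (nat_lit 196661) (nat_lit 12) .nil))))) (.g (nat_lit 0) (.e (nat_lit 218972) (nat_lit 0) .nil) .nil))) 
(.lf (nat_lit 519031) (.g (nat_lit 988) (.e (nat_lit 196674) (nat_lit 15) (.e (nat_lit 81946) (nat_lit 20) (.e (nat_lit 1788) (nat_lit 119) (.e (nat_lit 516139) (nat_lit 7) .nil)))) (.g (nat_lit 0) (.e (nat_lit 219821) (nat_lit 0) .nil) .nil))))) (.nd (nat_lit 8) (.nd (nat_lit 9) 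
(.lf (nat_lit 518391) (.g (nat_lit 3209) (.e (nat_lit 196669) (nat_lit 14) (.e (nat_lit 73747) (nat_lit 3) (.e (nat_lit 516115) (nat_lit 1) (.e (nat_lit 164179) (nat_lit 154) (.e (nat_lit 57379) (nat_lit 3) .nil))))) (.g (nat_lit 0) (.e (nat_lit 218503) (nat_lit 0) .nil) .nil))) 
(.lf (nat_lit 518903) (.g (nat_lit 2340) (.e (nat_lit 196672) (nat_lit 15) (.e (nat_lit 81954) (nat_lit 23) (.e (nat_lit 98350) (nat_lit 24) (.e (nat_lit 409609) (nat_lit 10) .nil)))) (.g (nat_lit 0) (.e (nat_lit 219603) (nat_lit 0) .nil) .nil)))) (.nd (nat_lit 9) 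
(.lf (nat_lit 518647) (.g (nat_lit 2797) (.e (nat_lit 196670) (nat_lit 14) (.e (nat_lit 73753) (nat_lit 8) (.e (nat_lit 557105) (nat_lit 14) (.e (nat_lit 180252) (nat_lit 10) (.e (nat_lit 573474) (nat_lit 12) (.e (nat_lit 57347) (nat_lit 0) (.e (nat_lit 5436) (nat_lit 306) (.e (nat_lit 2461) (nat_lit 157) (.e (nat_lit 2667) (nat_lit 167) .nil))))))))) (.g (nat_lit 1) (.e (nat_lit 219154) (nat_lit 0) .nil) .nil))) 
(.lf (nat_lit 519159) (.g (nat_lit 2620) (.e (nat_lit 196681) (nat_lit 17) (.e (nat_lit 131109) (nat_lit 9) (.e (nat_lit 336324) (nat_lit 18) (.e (nat_lit 204837) (nat_lit 20) (.e (nat_lit 114698) (nat_lit 11) (.e (nat_lit 426113) (nat_lit 2) .nil)))))) (.g (nat_lit 1) (.e (nat_lit 220251) (nat_lit 0) .nil) .nil))))))))) 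
(.nd (nat_lit 4) (.nd (nat_lit 5) (.nd (nat_lit 6) (.nd (nat_lit 7) (.nd (nat_lit 8) 
(.nd (nat_lit 9) 
(.lf (nat_lit 518159) (.g (nat_lit 1668) (.e (nat_lit 196668) (nat_lit 14) (.e (nat_lit 73746) (nat_lit 3) (.e (nat_lit 516120) (nat_lit 1) (.e (nat_lit 164176) (nat_lit 154) .nil)))) (.g (nat_lit 0) (.e (nat_lit 217457) (nat_lit 0) .nil) .nil))) 
(.lf (nat_lit 518671) (.g (nat_lit 2874) (.e (nat_lit 196670) (nat_lit 14) (.e (nat_lit 73753) (nat_lit 8) (.e (nat_lit 557105) (nat_lit 14) (.e (nat_lit 180252) (nat_lit 10) (.e (nat_lit 573475) (nat_lit 12) (.e (nat_lit 57506) (nat_lit 39) (.e (nat_lit 647175) (nat_lit 0) (.e (nat_lit 2667) (nat_lit 167) .nil)))))))) (.g (nat_lit 1) (.e (nat_lit 219178) (nat_lit 0) .nil) .nil)))) 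
(.nd (nat_lit 9) 
(.lf (nat_lit 518415) (.g (nat_lit 2157) (.e (nat_lit 196669) (nat_lit 14) (.e (nat_lit 73754) (nat_lit 8) (.e (nat_lit 557105) (nat_lit 14) (.e (nat_lit 180252) (nat_lit 10) (.e (nat_lit 573473) (nat_lit 12) (.e (nat_lit 57508) (nat_lit 39) (.e (nat_lit 647175) (nat_lit 0) (.e (nat_lit 2667) (nat_lit 167) .nil)))))))) (.g (nat_lit 1) (.e (nat_lit 218533) (nat_lit 0) .nil) .nil))) 
(.lf (nat_lit 518927) (.g (nat_lit 1584) (.e (nat_lit 196672) (nat_lit 15) (.e (nat_lit 81954) (nat_lit 23) (.e (nat_lit 98352) (nat_lit 25) (.e (nat_lit 417817) (nat_lit 10) (.e (nat_lit 5657) (nat_lit 312) (.e (nat_lit 2654) (nat_lit 167) .nil)))))) (.g (nat_lit 1) (.e (nat_lit 219632) (nat_lit 0) .nil) .nil))))) (.nd (nat_lit 8) (.nd (nat_lit 9) 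
(.lf (nat_lit 518287) (.g (nat_lit 2102) (.e (nat_lit 196668) (nat_lit 14) (.e (nat_lit 73747) (nat_lit 3) (.e (nat_lit 516131) (nat_lit 3) (.e (nat_lit 221215) (nat_lit 23) (.e (nat_lit 204830) (nat_lit 18) (.e (nat_lit 57929) (nat_lit 282) (.e (nat_lit 163866) (nat_lit 2) .nil))))))) (.g (nat_lit 1) (.e (nat_lit 218230) (nat_lit 0) .nil) .nil))) 
(.lf (nat_lit 518799) (.g (nat_lit 3444) (.e (nat_lit 196672) (nat_lit 15) (.e (nat_lit 81924) (nat_lit 0) (.e (nat_lit 3305) (nat_lit 202) (.e (nat_lit 573484) (nat_lit 13) (.e (nat_lit 65628) (nat_lit 14) (.e (nat_lit 401425) (nat_lit 2) .nil)))))) (.g (nat_lit 1) (.e (nat_lit 219356) (nat_lit 0) .nil) .nil)))) (.nd (nat_lit 9) 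
(.lf (nat_lit 518543) (.g (nat_lit 2550) (.e (nat_lit 196670) (nat_lit 14) (.e (nat_lit 73746) (nat_lit 3) (.e (nat_lit 516129) (nat_lit 3) (.e (nat_lit 221215) (nat_lit 23) (.e (nat_lit 204828) (nat_lit 18) (.e (nat_lit 57926) (nat_lit 282) (.e (nat_lit 163871) (nat_lit 2) .nil))))))) (.g (nat_lit 1) (.e (nat_lit 219001) (nat_lit 0) .nil) .nil))) 
(.lf (nat_lit 519055) (.g (nat_lit 2014) (.e (nat_lit 196674) (nat_lit 15) (.e (nat_lit 81954) (nat_lit 23) (.e (nat_lit 98350) (nat_lit 24) (.e (nat_lit 409643) (nat_lit 18) .nil)))) (.g (nat_lit 0) (.e (nat_lit 219879) (nat_lit 0) .nil) .nil)))))) (.nd (nat_lit 7) (.nd (nat_lit 8) (.nd (nat_lit 9) 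
(.lf (nat_lit 518223) (.g (nat_lit 2974) (.e (nat_lit 196668) (nat_lit 14) (.e (nat_lit 73747) (nat_lit 3) (.e (nat_lit 516120) (nat_lit 1) (.e (nat_lit 164181) (nat_lit 154) (.e (nat_lit 57378) (nat_lit 3) (.e (nat_lit 98342) (nat_lit 20) (.e (nat_lit 221212) (nat_lit 22) .nil))))))) (.g (nat_lit 1) (.e (nat_lit 218031) (nat_lit 0) .nil) .nil))) 
(.lf (nat_lit 518735) (.g (nat_lit 3805) (.e (nat_lit 196670) (nat_lit 14) (.e (nat_lit 73754) (nat_lit 8) (.e (nat_lit 557105) (nat_lit 14) (.e (nat_lit 180252) (nat_lit 10) (.e (nat_lit 573474) (nat_lit 12) (.e (nat_lit 57508) (nat_lit 39) (.e (nat_lit 647175) (nat_lit 0) (.e (nat_lit 2663) (nat_lit 167) .nil)))))))) (.g (nat_lit 1) (.e (nat_lit 219264) (nat_lit 0) .nil) .nil)))) 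
(.nd (nat_lit 9) 
(.lf (nat_lit 518479) (.g (nat_lit 3134) (.e (nat_lit 196670) (nat_lit 14) (.e (nat_lit 73746) (nat_lit 3) (.e (nat_lit 516117) (nat_lit 1) (.e (nat_lit 164180) (nat_lit 154) (.e (nat_lit 57379) (nat_lit 3) (.e (nat_lit 98340) (nat_lit 20) (.e (nat_lit 221210) (nat_lit 22) .nil))))))) (.g (nat_lit 1) (.e (nat_lit 218746) (nat_lit 0) .nil) .nil))) 
(.lf (nat_lit 518991) (.g (nat_lit 1107) (.e (nat_lit 196673) (nat_lit 15) (.e (nat_lit 81956) (nat_lit 23) (.e (nat_lit 98327) (nat_lit 17) .nil))) (.g (nat_lit 0) (.e (nat_lit 219766) (nat_lit 0) .nil) .nil))))) (.nd (nat_lit 8) (.nd (nat_lit 9) 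
(.lf (nat_lit 518351) (.g (nat_lit 3413) (.e (nat_lit 196668) (nat_lit 14) (.e (nat_lit 73753) (nat_lit 8) (.e (nat_lit 557105) (nat_lit 14) (.e (nat_lit 180252) (nat_lit 10) (.e (nat_lit 573475) (nat_lit 12) (.e (nat_lit 57506) (nat_lit 39) (.e (nat_lit 655104) (nat_lit 0) (.e (nat_lit 2667) (nat_lit 167) .nil)))))))) (.g (nat_lit 1) (.e (nat_lit 218390) (nat_lit 0) .nil) .nil))) 
(.lf (nat_lit 518863) (.g (nat_lit 921) (.e (nat_lit 196672) (nat_lit 15) (.e (nat_lit 81954) (nat_lit 23) (.e (nat_lit 98323) (nat_lit 17) (.e (nat_lit 6989) (nat_lit 377) .nil)))) (.g (nat_lit 0) (.e (nat_lit 219546) (nat_lit 0) .nil) .nil)))) (.nd (nat_lit 9) 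
(.lf (nat_lit 518607) (.g (nat_lit 3657) (.e (nat_lit 196670) (nat_lit 14) (.e (nat_lit 73753) (nat_lit 8) (.e (nat_lit 557103) (nat_lit 14) (.e (nat_lit 180250) (nat_lit 10) (.e (nat_lit 573473) (nat_lit 12) (.e (nat_lit 57508) (nat_lit 39) (.e (nat_lit 655104) (nat_lit 0) (.e (nat_lit 2667) (nat_lit 167) .nil)))))))) (.g (nat_lit 1) (.e (nat_lit 219110) (nat_lit 0) .nil) .nil))) 
(.lf (nat_lit 519119) (.g (nat_lit 3446) (.e (nat_lit 196681) (nat_lit 17) (.e (nat_lit 131105) (nat_lit 9) (.e (nat_lit 336324) (nat_lit 18) (.e (nat_lit 204837) (nat_lit 20) (.e (nat_lit 114698) (nat_lit 11) (.e (nat_lit 426115) (nat_lit 2) .nil)))))) (.g (nat_lit 1) (.e (nat_lit 220114) (nat_lit 0) .nil) .nil))))))) (.nd (nat_lit 6) (.nd (nat_lit 7) (.nd (nat_lit 8) (.nd (nat_lit 9) 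
(.lf (nat_lit 518191) (.g (nat_lit 1832) (.e (nat_lit 196668) (nat_lit 14) (.e (nat_lit 73747) (nat_lit 3) (.e (nat_lit 516115) (nat_lit 1) (.e (nat_lit 164181) (nat_lit 154) .nil)))) (.g (nat_lit 0) (.e (nat_lit 217689) (nat_lit 0) .nil) .nil))) 
(.lf (nat_lit 518703) (.g (nat_lit 2374) (.e (nat_lit 196670) (nat_lit 14) (.e (nat_lit 73754) (nat_lit 8) (.e (nat_lit 557105) (nat_lit 14) (.e (nat_lit 180252) (nat_lit 10) (.e (nat_lit 573473) (nat_lit 12) (.e (nat_lit 57507) (nat_lit 39) (.e (nat_lit 647170) (nat_lit 0) (.e (nat_lit 2654) (nat_lit 167) .nil)))))))) (.g (nat_lit 1) (.e (nat_lit 219232) (nat_lit 0) .nil) .nil)))) 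
(.nd (nat_lit 9) 
(.lf (nat_lit 518447) (.g (nat_lit 2153) (.e (nat_lit 196669) (nat_lit 14) (.e (nat_lit 73755) (nat_lit 8) (.e (nat_lit 557105) (nat_lit 14) (.e (nat_lit 180252) (nat_lit 10) (.e (nat_lit 573474) (nat_lit 12) (.e (nat_lit 57508) (nat_lit 39) (.e (nat_lit 647168) (nat_lit 0) (.e (nat_lit 2659) (nat_lit 167) .nil)))))))) (.g (nat_lit 1) (.e (nat_lit 218584) (nat_lit 0) .nil) .nil))) 
(.lf (nat_lit 518959) (.g (nat_lit 506) (.e (nat_lit 196672) (nat_lit 15) (.e (nat_lit 81956) (nat_lit 23) (.e (nat_lit 98349) (nat_lit 24) .nil))) (.g (nat_lit 0) (.e (nat_lit 219703) (nat_lit 0) .nil) .nil))))) (.nd (nat_lit 8) (.nd (nat_lit 9) 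
(.lf (nat_lit 518319) (.g (nat_lit 4183) (.e (nat_lit 196668) (nat_lit 14) (.e (nat_lit 73753) (nat_lit 8) (.e (nat_lit 557103) (nat_lit 14) (.e (nat_lit 180250) (nat_lit 10) (.e (nat_lit 573475) (nat_lit 12) (.e (nat_lit 57509) (nat_lit 39) (.e (nat_lit 655104) (nat_lit 0) (.e (nat_lit 2667) (nat_lit 167) .nil)))))))) (.g (nat_lit 1) (.e (nat_lit 218354) (nat_lit 0) .nil) .nil))) 
(.lf (nat_lit 518831) (.g (nat_lit 1793) (.e (nat_lit 196672) (nat_lit 15) (.e (nat_lit 81943) (nat_lit 20) (.e (nat_lit 1842) (nat_lit 123) (.e (nat_lit 548889) (nat_lit 9) (.e (nat_lit 65541) (nat_lit 0) (.e (nat_lit 6676) (nat_lit 357) (.e (nat_lit 2664) (nat_lit 167) .nil))))))) (.g (nat_lit 1) (.e (nat_lit 219438) (nat_lit 0) .nil) .nil)))) (.nd (nat_lit 9) 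
(.lf (nat_lit 518575) (.g (nat_lit 2727) (.e (nat_lit 196670) (nat_lit 14) (.e (nat_lit 73746) (nat_lit 3) (.e (nat_lit 516131) (nat_lit 3) (.e (nat_lit 221214) (nat_lit 23) (.e (nat_lit 204831) (nat_lit 18) (.e (nat_lit 57931) (nat_lit 282) (.e (nat_lit 163866) (nat_lit 2) .nil))))))) (.g (nat_lit 1) (.e (nat_lit 219038) (nat_lit 0) .nil) .nil))) 
(.lf (nat_lit 519087) (.g (nat_lit 3268) (.e (nat_lit 196681) (nat_lit 17) (.e (nat_lit 131096) (nat_lit 3) (.e (nat_lit 98333) (nat_lit 18) (.e (nat_lit 164179) (nat_lit 154) (.e (nat_lit 57378) (nat_lit 3) (.e (nat_lit 98340) (nat_lit 20) (.e (nat_lit 221212) (nat_lit 22) .nil))))))) (.g (nat_lit 1) (.e (nat_lit 220050) (nat_lit 0) .nil) .nil)))))) 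
(.nd (nat_lit 7) (.nd (nat_lit 8) (.nd (nat_lit 9) 
(.lf (nat_lit 518255) (.g (nat_lit 2528) (.e (nat_lit 196668) (nat_lit 14) (.e (nat_lit 73747) (nat_lit 3) (.e (nat_lit 516129) (nat_lit 3) (.e (nat_lit 221215) (nat_lit 23) (.e (nat_lit 204828) (nat_lit 18) (.e (nat_lit 57929) (nat_lit 282) (.e (nat_lit 163869) (nat_lit 2) .nil))))))) (.g (nat_lit 1) (.e (nat_lit 218162) (nat_lit 0) .nil) .nil))) 
(.lf (nat_lit 518767) (.g (nat_lit 3186) (.e (nat_lit 196670) (nat_lit 14) (.e (nat_lit 73754) (nat_lit 8) (.e (nat_lit 557105) (nat_lit 14) (.e (nat_lit 180252) (nat_lit 10) (.e (nat_lit 581376) (nat_lit 19) (.e (nat_lit 57878) (nat_lit 270) (.e (nat_lit 162) (nat_lit 11) .nil))))))) (.g (nat_lit 1) (.e (nat_lit 219296) (nat_lit 0) .nil) .nil)))) (.nd (nat_lit 9) 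
(.lf (nat_lit 518511) (.g (nat_lit 506) (.e (nat_lit 196670) (nat_lit 14) (.e (nat_lit 73746) (nat_lit 3) (.e (nat_lit 516127) (nat_lit 2) .nil))) (.g (nat_lit 0) (.e (nat_lit 218954) (nat_lit 0) .nil) .nil))) 
(.lf (nat_lit 519023) (.g (nat_lit 2103) (.e (nat_lit 196674) (nat_lit 15) (.e (nat_lit 81925) (nat_lit 11) (.e (nat_lit 426500) (nat_lit 27) (.e (nat_lit 335986) (nat_lit 1) (.e (nat_lit 57930) (nat_lit 282) (.e (nat_lit 163869) (nat_lit 2) .nil)))))) (.g (nat_lit 1) (.e (nat_lit 219812) (nat_lit 0) .nil) .nil))))) (.nd (nat_lit 8) (.nd (nat_lit 9) 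
(.lf (nat_lit 518383) (.g (nat_lit 2483) (.e (nat_lit 196669) (nat_lit 14) (.e (nat_lit 73746) (nat_lit 3) (.e (nat_lit 516120) (nat_lit 1) (.e (nat_lit 164182) (nat_lit 154) (.e (nat_lit 57379) (nat_lit 3) .nil))))) (.g (nat_lit 0) (.e (nat_lit 218495) (nat_lit 0) .nil) .nil))) 
(.lf (nat_lit 518895) (.g (nat_lit 1706) (.e (nat_lit 196672) (nat_lit 15) (.e (nat_lit 81954) (nat_lit 23) (.e (nat_lit 98349) (nat_lit 24) (.e (nat_lit 409623) (nat_lit 10) .nil)))) (.g (nat_lit 0) (.e (nat_lit 219595) (nat_lit 0) .nil) .nil)))) (.nd (nat_lit 9) 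
(.lf (nat_lit 518639) (.g (nat_lit 2383) (.e (nat_lit 196670) (nat_lit 14) (.e (nat_lit 73753) (nat_lit 8) (.e (nat_lit 557105) (nat_lit 14) (.e (nat_lit 180252) (nat_lit 10) (.e (nat_lit 573473) (nat_lit 12) (.e (nat_lit 57508) (nat_lit 39) (.e (nat_lit 647175) (nat_lit 0) (.e (nat_lit 2665) (nat_lit 167) .nil)))))))) (.g (nat_lit 1) (.e (nat_lit 219146) (nat_lit 0) .nil) .nil))) 
(.lf (nat_lit 519151) (.g (nat_lit 1154) (.e (nat_lit 196681) (nat_lit 17) (.e (nat_lit 131109) (nat_lit 9) (.e (nat_lit 336324) (nat_lit 18) (.e (nat_lit 204815) (nat_lit 17) (.e (nat_lit 2036) (nat_lit 141) .nil))))) (.g (nat_lit 0) (.e (nat_lit 220239) (nat_lit 0) .nil) .nil)))))))) (.nd (nat_lit 5) (.nd (nat_lit 6) (.nd (nat_lit 7) (.nd (nat_lit 8) (.nd (nat_lit 9) 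
(.lf (nat_lit 518175) (.g (nat_lit 2923) (.e (nat_lit 196668) (nat_lit 14) (.e (nat_lit 73746) (nat_lit 3) (.e (nat_lit 516129) (nat_lit 3) (.e (nat_lit 221215) (nat_lit 23) (.e (nat_lit 204829) (nat_lit 18) (.e (nat_lit 57927) (nat_lit 282) (.e (nat_lit 163866) (nat_lit 2) .nil))))))) (.g (nat_lit 1) (.e (nat_lit 217541) (nat_lit 0) .nil) .nil))) 
(.lf (nat_lit 518687) (.g (nat_lit 2318) (.e (nat_lit 196670) (nat_lit 14) (.e (nat_lit 73754) (nat_lit 8) (.e (nat_lit 557103) (nat_lit 14) (.e (nat_lit 180243) (nat_lit 5) (.e (nat_lit 532503) (nat_lit 1) .nil))))) (.g (nat_lit 0) (.e (nat_lit 219213) (nat_lit 0) .nil) .nil)))) (.nd (nat_lit 9) 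
(.lf (nat_lit 518431) (.g (nat_lit 2359) (.e (nat_lit 196669) (nat_lit 14) (.e (nat_lit 73755) (nat_lit 8) (.e (nat_lit 557104) (nat_lit 14) (.e (nat_lit 180244) (nat_lit 5) (.e (nat_lit 532499) (nat_lit 1) .nil))))) (.g (nat_lit 0) (.e (nat_lit 218567) (nat_lit 0) .nil) .nil))) 
(.lf (nat_lit 518943) (.g (nat_lit 771) (.e (nat_lit 196672) (nat_lit 15) (.e (nat_lit 81954) (nat_lit 23) (.e (nat_lit 98389) (nat_lit 33) (.e (nat_lit 491526) (nat_lit 0) .nil)))) (.g (nat_lit 0) (.e (nat_lit 219684) (nat_lit 0) .nil) .nil))))) (.nd (nat_lit 8) (.nd (nat_lit 9) 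
(.lf (nat_lit 518303) (.g (nat_lit 1340) (.e (nat_lit 196668) (nat_lit 14) (.e (nat_lit 73753) (nat_lit 8) (.e (nat_lit 557103) (nat_lit 14) (.e (nat_lit 180250) (nat_lit 10) .nil)))) (.g (nat_lit 0) (.e (nat_lit 218338) (nat_lit 0) .nil) .nil))) 
(.lf (nat_lit 518815) (.g (nat_lit 2100) (.e (nat_lit 196672) (nat_lit 15) (.e (nat_lit 81927) (nat_lit 11) (.e (nat_lit 426108) (nat_lit 1) (.e (nat_lit 164183) (nat_lit 154) (.e (nat_lit 57410) (nat_lit 12) .nil))))) (.g (nat_lit 0) (.e (nat_lit 219376) (nat_lit 0) .nil) .nil)))) (.nd (nat_lit 9) 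
(.lf (nat_lit 518559) (.g (nat_lit 855) (.e (nat_lit 196670) (nat_lit 14) (.e (nat_lit 73746) (nat_lit 3) (.e (nat_lit 516131) (nat_lit 3) (.e (nat_lit 221212) (nat_lit 22) .nil)))) (.g (nat_lit 0) (.e (nat_lit 219018) (nat_lit 0) .nil) .nil))) 
(.lf (nat_lit 519071) (.g (nat_lit 545) (.e (nat_lit 196674) (nat_lit 15) (.e (nat_lit 81955) (nat_lit 23) (.e (nat_lit 98352) (nat_lit 25) (.e (nat_lit 417828) (nat_lit 18) .nil)))) (.g (nat_lit 0) (.e (nat_lit 219896) (nat_lit 0) .nil) .nil)))))) (.nd (nat_lit 7) (.nd (nat_lit 8) (.nd (nat_lit 9) 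
(.lf (nat_lit 518239) (.g (nat_lit 2877) (.e (nat_lit 196668) (nat_lit 14) (.e (nat_lit 73747) (nat_lit 3) (.e (nat_lit 516129) (nat_lit 3) (.e (nat_lit 221214) (nat_lit 23) (.e (nat_lit 204828) (nat_lit 18) (.e (nat_lit 57927) (nat_lit 282) (.e (nat_lit 163868) (nat_lit 2) .nil))))))) (.g (nat_lit 1) (.e (nat_lit 218140) (nat_lit 0) .nil) .nil))) 
(.lf (nat_lit 518751) (.g (nat_lit 3301) (.e (nat_lit 196670) (nat_lit 14) (.e (nat_lit 73754) (nat_lit 8) (.e (nat_lit 557105) (nat_lit 14) (.e (nat_lit 180252) (nat_lit 10) (.e (nat_lit 573475) (nat_lit 12) (.e (nat_lit 57507) (nat_lit 39) (.e (nat_lit 655104) (nat_lit 0) (.e (nat_lit 2656) (nat_lit 167) .nil)))))))) (.g (nat_lit 1) (.e (nat_lit 219280) (nat_lit 0) .nil) .nil)))) 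
(.nd (nat_lit 9) 
(.lf (nat_lit 518495) (.g (nat_lit 3769) (.e (nat_lit 196670) (nat_lit 14) (.e (nat_lit 73746) (nat_lit 3) (.e (nat_lit 516119) (nat_lit 1) (.e (nat_lit 164182) (nat_lit 154) (.e (nat_lit 57379) (nat_lit 3) (.e (nat_lit 98341) (nat_lit 20) (.e (nat_lit 221212) (nat_lit 22) .nil))))))) (.g (nat_lit 1) (.e (nat_lit 218860) (nat_lit 0) .nil) .nil))) 
(.lf (nat_lit 519007) (.g (nat_lit 2481) (.e (nat_lit 196674) (nat_lit 15) (.e (nat_lit 81922) (nat_lit 0) (.e (nat_lit 3253) (nat_lit 197) (.e (nat_lit 532515) (nat_lit 3) (.e (nat_lit 114697) (nat_lit 11) (.e (nat_lit 426124) (nat_lit 2) .nil)))))) (.g (nat_lit 1) (.e (nat_lit 219789) (nat_lit 0) .nil) .nil))))) (.nd (nat_lit 8) (.nd (nat_lit 9) 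
(.lf (nat_lit 518367) (.g (nat_lit 4099) (.e (nat_lit 196668) (nat_lit 14) (.e (nat_lit 73782) (nat_lit 32) (.e (nat_lit 2664) (nat_lit 167) (.e (nat_lit 196666) (nat_lit 13) (.e (nat_lit 65630) (nat_lit 14) (.e (nat_lit 401425) (nat_lit 2) .nil)))))) (.g (nat_lit 1) (.e (nat_lit 218422) (nat_lit 0) .nil) .nil))) 
(.lf (nat_lit 518879) (.g (nat_lit 2862) (.e (nat_lit 196672) (nat_lit 15) (.e (nat_lit 81954) (nat_lit 23) (.e (nat_lit 98325) (nat_lit 17) (.e (nat_lit 7008) (nat_lit 377) (.e (nat_lit 2817) (nat_lit 181) (.e (nat_lit 311312) (nat_lit 2) .nil)))))) (.g (nat_lit 1) (.e (nat_lit 219572) (nat_lit 0) .nil) .nil)))) (.nd (nat_lit 9) 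
(.lf (nat_lit 518623) (.g (nat_lit 1393) (.e (nat_lit 196670) (nat_lit 14) (.e (nat_lit 73753) (nat_lit 8) (.e (nat_lit 557105) (nat_lit 14) (.e (nat_lit 180251) (nat_lit 10) .nil)))) (.g (nat_lit 0) (.e (nat_lit 219129) (nat_lit 0) .nil) .nil))) 
(.lf (nat_lit 519135) (.g (nat_lit 1265) (.e (nat_lit 196681) (nat_lit 17) (.e (nat_lit 131109) (nat_lit 9) (.e (nat_lit 336018) (nat_lit 3) (.e (nat_lit 98350) (nat_lit 24) (.e (nat_lit 409649) (nat_lit 18) (.e (nat_lit 311040) (nat_lit 2) .nil)))))) (.g (nat_lit 1) (.e (nat_lit 220187) (nat_lit 0) .nil) .nil))))))) (.nd (nat_lit 6) (.nd (nat_lit 7) (.nd (nat_lit 8) (.nd (nat_lit 9) 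
(.lf (nat_lit 518207) (.g (nat_lit 3360) (.e (nat_lit 196668) (nat_lit 14) (.e (nat_lit 73747) (nat_lit 3) (.e (nat_lit 516117) (nat_lit 1) (.e (nat_lit 164183) (nat_lit 154) (.e (nat_lit 57378) (nat_lit 3) (.e (nat_lit 98341) (nat_lit 20) (.e (nat_lit 221212) (nat_lit 22) .nil))))))) (.g (nat_lit 1) (.e (nat_lit 217894) (nat_lit 0) .nil) .nil))) 
(.lf (nat_lit 518719) (.g (nat_lit 2410) (.e (nat_lit 196670) (nat_lit 14) (.e (nat_lit 73754) (nat_lit 8) (.e (nat_lit 557105) (nat_lit 14) (.e (nat_lit 180252) (nat_lit 10) (.e (nat_lit 573473) (nat_lit 12) (.e (nat_lit 57508) (nat_lit 39) (.e (nat_lit 655104) (nat_lit 0) (.e (nat_lit 2666) (nat_lit 167) .nil)))))))) (.g (nat_lit 1) (.e (nat_lit 219248) (nat_lit 0) .nil) .nil)))) 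
(.nd (nat_lit 9) 
(.lf (nat_lit 518463) (.g (nat_lit 1123) (.e (nat_lit 196670) (nat_lit 14) (.e (nat_lit 73746) (nat_lit 3) (.e (nat_lit 516115) (nat_lit 1) (.e (nat_lit 164177) (nat_lit 154) .nil)))) (.g (nat_lit 0) (.e (nat_lit 218619) (nat_lit 0) .nil) .nil))) 
(.lf (nat_lit 518975) (.g (nat_lit 608) (.e (nat_lit 196672) (nat_lit 15) (.e (nat_lit 81957) (nat_lit 24) (.e (nat_lit 130816) (nat_lit 124) .nil))) (.g (nat_lit 0) (.e (nat_lit 219725) (nat_lit 0) .nil) .nil))))) (.nd (nat_lit 8) (.nd (nat_lit 9) 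
(.lf (nat_lit 518335) (.g (nat_lit 1619) (.e (nat_lit 196668) (nat_lit 14) (.e (nat_lit 73753) (nat_lit 8) (.e (nat_lit 557105) (nat_lit 14) (.e (nat_lit 180251) (nat_lit 10) .nil)))) (.g (nat_lit 0) (.e (nat_lit 218374) (nat_lit 0) .nil) .nil))) 
(.lf (nat_lit 518847) (.g (nat_lit 697) (.e (nat_lit 196672) (nat_lit 15) (.e (nat_lit 81951) (nat_lit 22) (.e (nat_lit 90181) (nat_lit 16) (.e (nat_lit 229577) (nat_lit 179) .nil)))) (.g (nat_lit 0) (.e (nat_lit 219508) (nat_lit 0) .nil) .nil)))) (.nd (nat_lit 9) 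
(.lf (nat_lit 518591) (.g (nat_lit 667) (.e (nat_lit 196670) (nat_lit 14) (.e (nat_lit 73753) (nat_lit 8) (.e (nat_lit 557097) (nat_lit 13) .nil))) (.g (nat_lit 0) (.e (nat_lit 219067) (nat_lit 0) .nil) .nil))) 
(.lf (nat_lit 519103) (.g (nat_lit 3774) (.e (nat_lit 196681) (nat_lit 17) (.e (nat_lit 131098) (nat_lit 3) (.e (nat_lit 98333) (nat_lit 18) (.e (nat_lit 164183) (nat_lit 154) (.e (nat_lit 57378) (nat_lit 3) (.e (nat_lit 98341) (nat_lit 20) (.e (nat_lit 221212) (nat_lit 22) .nil))))))) (.g (nat_lit 1) (.e (nat_lit 220083) (nat_lit 0) .nil) .nil)))))) 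
(.nd (nat_lit 7) (.nd (nat_lit 8) (.nd (nat_lit 9) 
(.lf (nat_lit 518271) (.g (nat_lit 3692) (.e (nat_lit 196668) (nat_lit 14) (.e (nat_lit 73747) (nat_lit 3) (.e (nat_lit 516131) (nat_lit 3) (.e (nat_lit 221213) (nat_lit 23) (.e (nat_lit 204830) (nat_lit 18) (.e (nat_lit 57929) (nat_lit 282) (.e (nat_lit 163869) (nat_lit 2) .nil))))))) (.g (nat_lit 1) (.e (nat_lit 218192) (nat_lit 0) .nil) .nil))) 
(.lf (nat_lit 518783) (.g (nat_lit 1676) (.e (nat_lit 196670) (nat_lit 14) (.e (nat_lit 73781) (nat_lit 32) (.e (nat_lit 2681) (nat_lit 168) (.e (nat_lit 204846) (nat_lit 24) (.e (nat_lit 327424) (nat_lit 8) .nil))))) (.g (nat_lit 0) (.e (nat_lit 219327) (nat_lit 0) .nil) .nil)))) (.nd (nat_lit 9) 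
(.lf (nat_lit 518527) (.g (nat_lit 1122) (.e (nat_lit 196670) (nat_lit 14) (.e (nat_lit 73746) (nat_lit 3) (.e (nat_lit 516129) (nat_lit 3) (.e (nat_lit 221214) (nat_lit 23) .nil)))) (.g (nat_lit 0) (.e (nat_lit 218985) (nat_lit 0) .nil) .nil))) 
(.lf (nat_lit 519039) (.g (nat_lit 1686) (.e (nat_lit 196674) (nat_lit 15) (.e (nat_lit 81946) (nat_lit 20) (.e (nat_lit 1858) (nat_lit 124) (.e (nat_lit 557072) (nat_lit 9) (.e (nat_lit 2741) (nat_lit 174) .nil))))) (.g (nat_lit 0) (.e (nat_lit 219831) (nat_lit 0) .nil) .nil))))) (.nd (nat_lit 8) (.nd (nat_lit 9) 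
(.lf (nat_lit 518399) (.g (nat_lit 504) (.e (nat_lit 196669) (nat_lit 14) (.e (nat_lit 73747) (nat_lit 3) (.e (nat_lit 516119) (nat_lit 1) .nil))) (.g (nat_lit 0) (.e (nat_lit 218511) (nat_lit 0) .nil) .nil))) 
(.lf (nat_lit 518911) (.g (nat_lit 3090) (.e (nat_lit 196672) (nat_lit 15) (.e (nat_lit 81954) (nat_lit 23) (.e (nat_lit 98350) (nat_lit 24) (.e (nat_lit 409616) (nat_lit 10) (.e (nat_lit 5656) (nat_lit 312) (.e (nat_lit 2654) (nat_lit 167) .nil)))))) (.g (nat_lit 1) (.e (nat_lit 219612) (nat_lit 0) .nil) .nil)))) (.nd (nat_lit 9) 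
(.lf (nat_lit 518655) (.g (nat_lit 4135) (.e (nat_lit 196670) (nat_lit 14) (.e (nat_lit 73753) (nat_lit 8) (.e (nat_lit 557105) (nat_lit 14) (.e (nat_lit 180252) (nat_lit 10) (.e (nat_lit 573474) (nat_lit 12) (.e (nat_lit 57507) (nat_lit 39) (.e (nat_lit 655104) (nat_lit 0) (.e (nat_lit 2657) (nat_lit 167) .nil)))))))) (.g (nat_lit 1) (.e (nat_lit 219162) (nat_lit 0) .nil) .nil))) 
(.lf (nat_lit 519167) (.g (nat_lit 2945) (.e (nat_lit 196681) (nat_lit 17) (.e (nat_lit 131109) (nat_lit 9) (.e (nat_lit 336324) (nat_lit 18) (.e (nat_lit 204838) (nat_lit 20) (.e (nat_lit 114697) (nat_lit 11) (.e (nat_lit 426114) (nat_lit 2) .nil)))))) (.g (nat_lit 1) (.e (nat_lit 220259) (nat_lit 0) .nil) .nil)))))))))))))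

noncomputable def tv5567 : DT := (.nd (nat_lit 0) (.nd (nat_lit 1) (.nd (nat_lit 2) (.nd (nat_lit 3) (.nd (nat_lit 4) (.nd (nat_lit 5) (.nd (nat_lit 6) (.nd (nat_lit 7) (.nd (nat_lit 8) (.nd (nat_lit 9) 
(.lf (nat_lit 519168) (.g (nat_lit 2839) (.e (nat_lit 196681) (nat_lit 17) (.e (nat_lit 131109) (nat_lit 9) (.e (nat_lit 336324) (nat_lit 18) (.e (nat_lit 204838) (nat_lit 20) (.e (nat_lit 114697) (nat_lit 11) (.e (nat_lit 426116) (nat_lit 2) .nil)))))) (.g (nat_lit 1) (.e (nat_lit 220260) (nat_lit 0) .nil) .nil))) 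
(.lf (nat_lit 519680) (.g (nat_lit 1328) (.e (nat_lit 204813) (nat_lit 9) (.e (nat_lit 426116) (nat_lit 2) (.e (nat_lit 196656) (nat_lit 11) (.e (nat_lit 16409) (nat_lit 2) .nil)))) (.g (nat_lit 0) (.e (nat_lit 221876) (nat_lit 0) .nil) .nil)))) (.nd (nat_lit 9) 
(.lf (nat_lit 519424) (.g (nat_lit 964) (.e (nat_lit 204809) (nat_lit 9) (.e (nat_lit 426139) (nat_lit 3) (.e (nat_lit 204834) (nat_lit 19) .nil))) (.g (nat_lit 0) (.e (nat_lit 221195) (nat_lit 0) .nil) .nil))) 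
(.lf (nat_lit 519936) (.g (nat_lit 2407) (.e (nat_lit 204828) (nat_lit 18) (.e (nat_lit 57931) (nat_lit 282) (.e (nat_lit 163869) (nat_lit 2) (.e (nat_lit 196666) (nat_lit 13) (.e (nat_lit 65571) (nat_lit 3) .nil))))) (.g (nat_lit 0) (.e (nat_lit 223345) (nat_lit 0) .nil) .nil))))) (.nd (nat_lit 8) (.nd (nat_lit 9) 
(.lf (nat_lit 519296) (.g (nat_lit 1120) (.e (nat_lit 196698) (nat_lit 19) (.e (nat_lit 57813) (nat_lit 246) (.e (nat_lit 57878) (nat_lit 270) (.e (nat_lit 496) (nat_lit 39) (.e (nat_lit 483382) (nat_lit 23) (.e (nat_lit 343808) (nat_lit 17) .nil)))))) (.g (nat_lit 1) (.e (nat_lit 220561) (nat_lit 0) .nil) .nil))) 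
(.lf (nat_lit 519808) (.g (nat_lit 1601) (.e (nat_lit 212736) (nat_lit 15) (.e (nat_lit 475199) (nat_lit 40) (.e (nat_lit 704592) (nat_lit 4) (.e (nat_lit 172144) (nat_lit 26) .nil)))) (.g (nat_lit 0) (.e (nat_lit 222851) (nat_lit 0) .nil) .nil)))) (.nd (nat_lit 9) 
(.lf (nat_lit 519552) (.g (nat_lit 2137) (.e (nat_lit 204811) (nat_lit 9) (.e (nat_lit 426261) (nat_lit 9) (.e (nat_lit 426503) (nat_lit 27) (.e (nat_lit 336387) (nat_lit 27) (.e (nat_lit 426107) (nat_lit 1) (.e (nat_lit 164325) (nat_lit 230) (.e (nat_lit 163875) (nat_lit 3) .nil))))))) (.g (nat_lit 1) (.e (nat_lit 221640) (nat_lit 0) .nil) .nil))) 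
(.lf (nat_lit 520064) (.g (nat_lit 2399) (.e (nat_lit 204829) (nat_lit 18) (.e (nat_lit 57849) (nat_lit 252) (.e (nat_lit 57379) (nat_lit 3) (.e (nat_lit 98341) (nat_lit 20) (.e (nat_lit 221212) (nat_lit 22) .nil))))) (.g (nat_lit 0) (.e (nat_lit 223520) (nat_lit 0) .nil) .nil)))))) (.nd (nat_lit 7) (.nd (nat_lit 8) (.nd (nat_lit 9) 
(.lf (nat_lit 519232) (.g (nat_lit 3383) (.e (nat_lit 196681) (nat_lit 17) (.e (nat_lit 131123) (nat_lit 12) (.e (nat_lit 385068) (nat_lit 26) (.e (nat_lit 532513) (nat_lit 3) (.e (nat_lit 114698) (nat_lit 11) (.e (nat_lit 426124) (nat_lit 2) .nil)))))) (.g (nat_lit 1) (.e (nat_lit 220403) (nat_lit 0) .nil) .nil))) 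
(.lf (nat_lit 519744) (.g (nat_lit 3039) (.e (nat_lit 204813) (nat_lit 9) (.e (nat_lit 426198) (nat_lit 9) (.e (nat_lit 426568) (nat_lit 34) (.e (nat_lit 393251) (nat_lit 18) (.e (nat_lit 164331) (nat_lit 230) (.e (nat_lit 163873) (nat_lit 3) .nil)))))) (.g (nat_lit 1) (.e (nat_lit 222100) (nat_lit 0) .nil) .nil)))) (.nd (nat_lit 9) 
(.lf (nat_lit 519488) (.g (nat_lit 2173) (.e (nat_lit 204809) (nat_lit 9) (.e (nat_lit 426316) (nat_lit 12) (.e (nat_lit 475185) (nat_lit 29) (.e (nat_lit 557098) (nat_lit 13) (.e (nat_lit 172141) (nat_lit 23) (.e (nat_lit 147467) (nat_lit 9) (.e (nat_lit 2674) (nat_lit 168) .nil))))))) (.g (nat_lit 1) (.e (nat_lit 221450) (nat_lit 0) .nil) .nil))) 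
(.lf (nat_lit 520000) (.g (nat_lit 473) (.e (nat_lit 204829) (nat_lit 18) (.e (nat_lit 57691) (nat_lit 156) (.e (nat_lit 163906) (nat_lit 12) .nil))) (.g (nat_lit 0) (.e (nat_lit 223429) (nat_lit 0) .nil) .nil))))) (.nd (nat_lit 8) (.nd (nat_lit 9) 
(.lf (nat_lit 519360) (.g (nat_lit 1756) (.e (nat_lit 204809) (nat_lit 9) (.e (nat_lit 426099) (nat_lit 1) (.e (nat_lit 164398) (nat_lit 256) (.e (nat_lit 57409) (nat_lit 12) (.e (nat_lit 336443) (nat_lit 32) .nil))))) (.g (nat_lit 0) (.e (nat_lit 220873) (nat_lit 0) .nil) .nil))) 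
(.lf (nat_lit 519872) (.g (nat_lit 2244) (.e (nat_lit 204819) (nat_lit 17) (.e (nat_lit 6113) (nat_lit 332) (.e (nat_lit 2777) (nat_lit 178) (.e (nat_lit 286734) (nat_lit 3) .nil)))) (.g (nat_lit 0) (.e (nat_lit 223231) (nat_lit 0) .nil) .nil)))) (.nd (nat_lit 9) 
(.lf (nat_lit 519616) (.g (nat_lit 2771) (.e (nat_lit 204812) (nat_lit 9) (.e (nat_lit 426124) (nat_lit 2) (.e (nat_lit 196656) (nat_lit 11) (.e (nat_lit 16412) (nat_lit 2) (.e (nat_lit 196656) (nat_lit 11) .nil))))) (.g (nat_lit 0) (.e (nat_lit 221717) (nat_lit 0) .nil) .nil))) 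
(.lf (nat_lit 520128) (.g (nat_lit 2447) (.e (nat_lit 204829) (nat_lit 18) (.e (nat_lit 57926) (nat_lit 282) (.e (nat_lit 163874) (nat_lit 3) (.e (nat_lit 204863) (nat_lit 27) (.e (nat_lit 344118) (nat_lit 21) .nil))))) (.g (nat_lit 0) (.e (nat_lit 223589) (nat_lit 0) .nil) .nil))))))) (.nd (nat_lit 6) (.nd (nat_lit 7) (.nd (nat_lit 8) (.nd (nat_lit 9) 
(.lf (nat_lit 519200) (.g (nat_lit 3861) (.e (nat_lit 196681) (nat_lit 17) (.e (nat_lit 131120) (nat_lit 12) (.e (nat_lit 385074) (nat_lit 31) (.e (nat_lit 573480) (nat_lit 13) (.e (nat_lit 65630) (nat_lit 14) (.e (nat_lit 401425) (nat_lit 2) .nil)))))) (.g (nat_lit 1) (.e (nat_lit 220350) (nat_lit 0) .nil) .nil))) 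
(.lf (nat_lit 519712) (.g (nat_lit 2912) (.e (nat_lit 204813) (nat_lit 9) (.e (nat_lit 426139) (nat_lit 3) (.e (nat_lit 204813) (nat_lit 9) (.e (nat_lit 426122) (nat_lit 2) (.e (nat_lit 196654) (nat_lit 11) (.e (nat_lit 16416) (nat_lit 3) .nil)))))) (.g (nat_lit 1) (.e (nat_lit 221993) (nat_lit 0) .nil) .nil)))) (.nd (nat_lit 9) 
(.lf (nat_lit 519456) (.g (nat_lit 3401) (.e (nat_lit 204809) (nat_lit 9) (.e (nat_lit 426189) (nat_lit 9) (.e (nat_lit 426566) (nat_lit 34) (.e (nat_lit 393253) (nat_lit 18) (.e (nat_lit 164324) (nat_lit 230) (.e (nat_lit 163873) (nat_lit 3) .nil)))))) (.g (nat_lit 1) (.e (nat_lit 221275) (nat_lit 0) .nil) .nil))) 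
(.lf (nat_lit 519968) (.g (nat_lit 3134) (.e (nat_lit 204829) (nat_lit 18) (.e (nat_lit 57688) (nat_lit 156) (.e (nat_lit 163903) (nat_lit 12) (.e (nat_lit 426479) (nat_lit 27) (.e (nat_lit 336443) (nat_lit 32) (.e (nat_lit 466981) (nat_lit 23) .nil)))))) (.g (nat_lit 1) (.e (nat_lit 223385) (nat_lit 0) .nil) .nil))))) (.nd (nat_lit 8) (.nd (nat_lit 9) 
(.lf (nat_lit 519328) (.g (nat_lit 1870) (.e (nat_lit 204808) (nat_lit 9) (.e (nat_lit 426100) (nat_lit 1) (.e (nat_lit 164398) (nat_lit 256) (.e (nat_lit 57410) (nat_lit 12) (.e (nat_lit 336431) (nat_lit 29) .nil))))) (.g (nat_lit 0) (.e (nat_lit 220689) (nat_lit 0) .nil) .nil))) 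
(.lf (nat_lit 519840) (.g (nat_lit 3092) (.e (nat_lit 204816) (nat_lit 17) (.e (nat_lit 6203) (nat_lit 332) (.e (nat_lit 2797) (nat_lit 180) (.e (nat_lit 303117) (nat_lit 2) (.e (nat_lit 196668) (nat_lit 14) (.e (nat_lit 73782) (nat_lit 32) (.e (nat_lit 2681) (nat_lit 168) .nil))))))) (.g (nat_lit 1) (.e (nat_lit 223063) (nat_lit 0) .nil) .nil)))) (.nd (nat_lit 9) 
(.lf (nat_lit 519584) (.g (nat_lit 1607) (.e (nat_lit 204812) (nat_lit 9) (.e (nat_lit 426100) (nat_lit 1) (.e (nat_lit 164398) (nat_lit 256) (.e (nat_lit 57410) (nat_lit 12) .nil)))) (.g (nat_lit 0) (.e (nat_lit 221676) (nat_lit 0) .nil) .nil))) 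
(.lf (nat_lit 520096) (.g (nat_lit 2996) (.e (nat_lit 204829) (nat_lit 18) (.e (nat_lit 57926) (nat_lit 282) (.e (nat_lit 163867) (nat_lit 2) (.e (nat_lit 196668) (nat_lit 14) (.e (nat_lit 73747) (nat_lit 3) (.e (nat_lit 516131) (nat_lit 3) (.e (nat_lit 221215) (nat_lit 23) .nil))))))) (.g (nat_lit 1) (.e (nat_lit 223556) (nat_lit 0) .nil) .nil)))))) 
(.nd (nat_lit 7) (.nd (nat_lit 8) (.nd (nat_lit 9) 
(.lf (nat_lit 519264) (.g (nat_lit 2427) (.e (nat_lit 204544) (nat_lit 18) (.e (nat_lit 2798) (nat_lit 180) (.e (nat_lit 303143) (nat_lit 12) (.e (nat_lit 475185) (nat_lit 29) (.e (nat_lit 557098) (nat_lit 13) .nil))))) (.g (nat_lit 0) (.e (nat_lit 220522) (nat_lit 0) .nil) .nil))) 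
(.lf (nat_lit 519776) (.g (nat_lit 3271) (.e (nat_lit 204813) (nat_lit 9) (.e (nat_lit 426200) (nat_lit 9) (.e (nat_lit 426566) (nat_lit 34) (.e (nat_lit 393254) (nat_lit 18) (.e (nat_lit 164326) (nat_lit 230) (.e (nat_lit 163875) (nat_lit 3) .nil)))))) (.g (nat_lit 1) (.e (nat_lit 222210) (nat_lit 0) .nil) .nil)))) (.nd (nat_lit 9) 
(.lf (nat_lit 519520) (.g (nat_lit 2009) (.e (nat_lit 204811) (nat_lit 9) (.e (nat_lit 426232) (nat_lit 9) (.e (nat_lit 426565) (nat_lit 34) (.e (nat_lit 393253) (nat_lit 18) (.e (nat_lit 164329) (nat_lit 230) (.e (nat_lit 163873) (nat_lit 3) .nil)))))) (.g (nat_lit 1) (.e (nat_lit 221587) (nat_lit 0) .nil) .nil))) 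
(.lf (nat_lit 520032) (.g (nat_lit 3028) (.e (nat_lit 204829) (nat_lit 18) (.e (nat_lit 57847) (nat_lit 252) (.e (nat_lit 57375) (nat_lit 2) (.e (nat_lit 90160) (nat_lit 11) (.e (nat_lit 24608) (nat_lit 3) (.e (nat_lit 98321) (nat_lit 17) (.e (nat_lit 3771) (nat_lit 229) (.e (nat_lit 794673) (nat_lit 23) .nil)))))))) (.g (nat_lit 1) (.e (nat_lit 223480) (nat_lit 0) .nil) .nil))))) 
(.nd (nat_lit 8) (.nd (nat_lit 9) 
(.lf (nat_lit 519392) (.g (nat_lit 641) (.e (nat_lit 204809) (nat_lit 9) (.e (nat_lit 426123) (nat_lit 2) (.e (nat_lit 196655) (nat_lit 11) .nil))) (.g (nat_lit 0) (.e (nat_lit 220963) (nat_lit 0) .nil) .nil))) 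
(.lf (nat_lit 519904) (.g (nat_lit 1679) (.e (nat_lit 212736) (nat_lit 17) (.e (nat_lit 6113) (nat_lit 332) (.e (nat_lit 1374) (nat_lit 104) (.e (nat_lit 303119) (nat_lit 3) .nil)))) (.g (nat_lit 0) (.e (nat_lit 223305) (nat_lit 0) .nil) .nil)))) (.nd (nat_lit 9) 
(.lf (nat_lit 519648) (.g (nat_lit 1604) (.e (nat_lit 204813) (nat_lit 9) (.e (nat_lit 426098) (nat_lit 1) (.e (nat_lit 164398) (nat_lit 256) (.e (nat_lit 57410) (nat_lit 12) .nil)))) (.g (nat_lit 0) (.e (nat_lit 221830) (nat_lit 0) .nil) .nil))) 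
(.lf (nat_lit 520160) (.g (nat_lit 3220) (.e (nat_lit 204829) (nat_lit 18) (.e (nat_lit 57927) (nat_lit 282) (.e (nat_lit 163868) (nat_lit 2) (.e (nat_lit 196668) (nat_lit 14) (.e (nat_lit 73746) (nat_lit 3) (.e (nat_lit 516124) (nat_lit 2) (.e (nat_lit 213019) (nat_lit 9) (.e (nat_lit 2675) (nat_lit 168) .nil)))))))) (.g (nat_lit 1) (.e (nat_lit 223626) (nat_lit 0) .nil) .nil)))))))) 
(.nd (nat_lit 5) (.nd (nat_lit 6) (.nd (nat_lit 7) (.nd (nat_lit 8) (.nd (nat_lit 9) 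
(.lf (nat_lit 519184) (.g (nat_lit 2213) (.e (nat_lit 196681) (nat_lit 17) (.e (nat_lit 131120) (nat_lit 12) (.e (nat_lit 385066) (nat_lit 26) (.e (nat_lit 532513) (nat_lit 3) (.e (nat_lit 114697) (nat_lit 11) (.e (nat_lit 426114) (nat_lit 2) .nil)))))) (.g (nat_lit 1) (.e (nat_lit 220322) (nat_lit 0) .nil) .nil))) 
(.lf (nat_lit 519696) (.g (nat_lit 1754) (.e (nat_lit 204813) (nat_lit 9) (.e (nat_lit 426124) (nat_lit 2) (.e (nat_lit 196656) (nat_lit 11) (.e (nat_lit 16409) (nat_lit 2) .nil)))) (.g (nat_lit 0) (.e (nat_lit 221925) (nat_lit 0) .nil) .nil)))) (.nd (nat_lit 9) 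
(.lf (nat_lit 519440) (.g (nat_lit 2850) (.e (nat_lit 204809) (nat_lit 9) (.e (nat_lit 426188) (nat_lit 9) (.e (nat_lit 426566) (nat_lit 34) (.e (nat_lit 393251) (nat_lit 18) (.e (nat_lit 164327) (nat_lit 230) (.e (nat_lit 163873) (nat_lit 3) .nil)))))) (.g (nat_lit 1) (.e (nat_lit 221258) (nat_lit 0) .nil) .nil))) 
(.lf (nat_lit 519952) (.g (nat_lit 1615) (.e (nat_lit 204829) (nat_lit 18) (.e (nat_lit 57687) (nat_lit 156) (.e (nat_lit 163902) (nat_lit 12) (.e (nat_lit 426479) (nat_lit 27) (.e (nat_lit 336443) (nat_lit 32) .nil))))) (.g (nat_lit 0) (.e (nat_lit 223365) (nat_lit 0) .nil) .nil))))) (.nd (nat_lit 8) (.nd (nat_lit 9) 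
(.lf (nat_lit 519312) (.g (nat_lit 1678) (.e (nat_lit 212736) (nat_lit 5) (.e (nat_lit 253991) (nat_lit 11) (.e (nat_lit 16412) (nat_lit 2) (.e (nat_lit 196664) (nat_lit 13) .nil)))) (.g (nat_lit 0) (.e (nat_lit 220666) (nat_lit 0) .nil) .nil))) 
(.lf (nat_lit 519824) (.g (nat_lit 3673) (.e (nat_lit 204815) (nat_lit 17) (.e (nat_lit 6722) (nat_lit 362) (.e (nat_lit 180244) (nat_lit 5) (.e (nat_lit 532523) (nat_lit 7) (.e (nat_lit 319505) (nat_lit 10) (.e (nat_lit 5714) (nat_lit 312) (.e (nat_lit 2682) (nat_lit 168) .nil))))))) (.g (nat_lit 1) (.e (nat_lit 222967) (nat_lit 0) .nil) .nil)))) (.nd (nat_lit 9) 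
(.lf (nat_lit 519568) (.g (nat_lit 1920) (.e (nat_lit 204811) (nat_lit 9) (.e (nat_lit 426262) (nat_lit 9) (.e (nat_lit 426565) (nat_lit 34) (.e (nat_lit 393254) (nat_lit 18) (.e (nat_lit 164331) (nat_lit 230) (.e (nat_lit 163873) (nat_lit 3) .nil)))))) (.g (nat_lit 1) (.e (nat_lit 221656) (nat_lit 0) .nil) .nil))) 
(.lf (nat_lit 520080) (.g (nat_lit 1819) (.e (nat_lit 204829) (nat_lit 18) (.e (nat_lit 57854) (nat_lit 252) (.e (nat_lit 57378) (nat_lit 3) (.e (nat_lit 98342) (nat_lit 20) (.e (nat_lit 221215) (nat_lit 23) .nil))))) (.g (nat_lit 0) (.e (nat_lit 223538) (nat_lit 0) .nil) .nil)))))) (.nd (nat_lit 7) (.nd (nat_lit 8) (.nd (nat_lit 9) 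
(.lf (nat_lit 519248) (.g (nat_lit 1558) (.e (nat_lit 196682) (nat_lit 17) (.e (nat_lit 131128) (nat_lit 13) (.e (nat_lit 393229) (nat_lit 9) (.e (nat_lit 335996) (nat_lit 1) (.e (nat_lit 57931) (nat_lit 282) .nil))))) (.g (nat_lit 0) (.e (nat_lit 220486) (nat_lit 0) .nil) .nil))) 
(.lf (nat_lit 519760) (.g (nat_lit 4491) (.e (nat_lit 204813) (nat_lit 9) (.e (nat_lit 426200) (nat_lit 9) (.e (nat_lit 426481) (nat_lit 27) (.e (nat_lit 336389) (nat_lit 27) (.e (nat_lit 426098) (nat_lit 1) (.e (nat_lit 164325) (nat_lit 230) (.e (nat_lit 163873) (nat_lit 3) .nil))))))) (.g (nat_lit 1) (.e (nat_lit 222193) (nat_lit 0) .nil) .nil)))) (.nd (nat_lit 9) 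
(.lf (nat_lit 519504) (.g (nat_lit 2015) (.e (nat_lit 204811) (nat_lit 9) (.e (nat_lit 426230) (nat_lit 9) (.e (nat_lit 426565) (nat_lit 34) (.e (nat_lit 393253) (nat_lit 18) (.e (nat_lit 164330) (nat_lit 230) (.e (nat_lit 163873) (nat_lit 3) .nil)))))) (.g (nat_lit 1) (.e (nat_lit 221571) (nat_lit 0) .nil) .nil))) 
(.lf (nat_lit 520016) (.g (nat_lit 1464) (.e (nat_lit 204829) (nat_lit 18) (.e (nat_lit 57692) (nat_lit 156) (.e (nat_lit 163905) (nat_lit 12) (.e (nat_lit 426487) (nat_lit 27) .nil)))) (.g (nat_lit 0) (.e (nat_lit 223454) (nat_lit 0) .nil) .nil))))) (.nd (nat_lit 8) (.nd (nat_lit 9) 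
(.lf (nat_lit 519376) (.g (nat_lit 1914) (.e (nat_lit 204809) (nat_lit 9) (.e (nat_lit 426107) (nat_lit 1) (.e (nat_lit 164403) (nat_lit 256) (.e (nat_lit 57406) (nat_lit 12) (.e (nat_lit 336444) (nat_lit 32) .nil))))) (.g (nat_lit 0) (.e (nat_lit 220895) (nat_lit 0) .nil) .nil))) 
(.lf (nat_lit 519888) (.g (nat_lit 1976) (.e (nat_lit 204821) (nat_lit 17) (.e (nat_lit 2040) (nat_lit 141) (.e (nat_lit 696344) (nat_lit 8) (.e (nat_lit 172067) (nat_lit 3) (.e (nat_lit 204877) (nat_lit 31) .nil))))) (.g (nat_lit 0) (.e (nat_lit 223260) (nat_lit 0) .nil) .nil)))) (.nd (nat_lit 9) 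
(.lf (nat_lit 519632) (.g (nat_lit 3273) (.e (nat_lit 204812) (nat_lit 9) (.e (nat_lit 426189) (nat_lit 9) (.e (nat_lit 426566) (nat_lit 34) (.e (nat_lit 393253) (nat_lit 18) (.e (nat_lit 164325) (nat_lit 230) (.e (nat_lit 163875) (nat_lit 3) .nil)))))) (.g (nat_lit 1) (.e (nat_lit 221752) (nat_lit 0) .nil) .nil))) 
(.lf (nat_lit 520144) (.g (nat_lit 2330) (.e (nat_lit 204829) (nat_lit 18) (.e (nat_lit 57927) (nat_lit 282) (.e (nat_lit 163866) (nat_lit 2) (.e (nat_lit 196670) (nat_lit 14) (.e (nat_lit 73746) (nat_lit 3) (.e (nat_lit 516127) (nat_lit 2) (.e (nat_lit 213019) (nat_lit 9) (.e (nat_lit 2681) (nat_lit 168) .nil)))))))) (.g (nat_lit 1) (.e (nat_lit 223610) (nat_lit 0) .nil) .nil))))))) 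
(.nd (nat_lit 6) (.nd (nat_lit 7) (.nd (nat_lit 8) (.nd (nat_lit 9) 
(.lf (nat_lit 519216) (.g (nat_lit 2799) (.e (nat_lit 196681) (nat_lit 17) (.e (nat_lit 131123) (nat_lit 12) (.e (nat_lit 385066) (nat_lit 26) (.e (nat_lit 532513) (nat_lit 3) (.e (nat_lit 114697) (nat_lit 11) (.e (nat_lit 426124) (nat_lit 2) .nil)))))) (.g (nat_lit 1) (.e (nat_lit 220380) (nat_lit 0) .nil) .nil))) 
(.lf (nat_lit 519728) (.g (nat_lit 3178) (.e (nat_lit 204813) (nat_lit 9) (.e (nat_lit 426190) (nat_lit 9) (.e (nat_lit 426568) (nat_lit 34) (.e (nat_lit 393253) (nat_lit 18) (.e (nat_lit 164326) (nat_lit 230) (.e (nat_lit 163873) (nat_lit 3) .nil)))))) (.g (nat_lit 1) (.e (nat_lit 222062) (nat_lit 0) .nil) .nil)))) (.nd (nat_lit 9) 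
(.lf (nat_lit 519472) (.g (nat_lit 2970) (.e (nat_lit 204809) (nat_lit 9) (.e (nat_lit 426198) (nat_lit 9) (.e (nat_lit 426566) (nat_lit 34) (.e (nat_lit 393253) (nat_lit 18) (.e (nat_lit 164324) (nat_lit 230) (.e (nat_lit 163873) (nat_lit 3) .nil)))))) (.g (nat_lit 1) (.e (nat_lit 221292) (nat_lit 0) .nil) .nil))) 
(.lf (nat_lit 519984) (.g (nat_lit 1660) (.e (nat_lit 204829) (nat_lit 18) (.e (nat_lit 57688) (nat_lit 156) (.e (nat_lit 163907) (nat_lit 12) (.e (nat_lit 426566) (nat_lit 34) .nil)))) (.g (nat_lit 0) (.e (nat_lit 223405) (nat_lit 0) .nil) .nil))))) (.nd (nat_lit 8) (.nd (nat_lit 9) 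
(.lf (nat_lit 519344) (.g (nat_lit 660) (.e (nat_lit 204808) (nat_lit 9) (.e (nat_lit 426108) (nat_lit 1) (.e (nat_lit 164402) (nat_lit 256) .nil))) (.g (nat_lit 0) (.e (nat_lit 220705) (nat_lit 0) .nil) .nil))) 
(.lf (nat_lit 519856) (.g (nat_lit 383) (.e (nat_lit 204816) (nat_lit 17) (.e (nat_lit 6724) (nat_lit 362) (.e (nat_lit 180250) (nat_lit 10) .nil))) (.g (nat_lit 0) (.e (nat_lit 223151) (nat_lit 0) .nil) .nil)))) (.nd (nat_lit 9) 
(.lf (nat_lit 519600) (.g (nat_lit 1706) (.e (nat_lit 204812) (nat_lit 9) (.e (nat_lit 426107) (nat_lit 1) (.e (nat_lit 164403) (nat_lit 256) (.e (nat_lit 57408) (nat_lit 12) .nil)))) (.g (nat_lit 0) (.e (nat_lit 221693) (nat_lit 0) .nil) .nil))) 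
(.lf (nat_lit 520112) (.g (nat_lit 3678) (.e (nat_lit 204829) (nat_lit 18) (.e (nat_lit 57926) (nat_lit 282) (.e (nat_lit 163869) (nat_lit 2) (.e (nat_lit 196670) (nat_lit 14) (.e (nat_lit 73746) (nat_lit 3) (.e (nat_lit 516124) (nat_lit 2) (.e (nat_lit 213019) (nat_lit 9) (.e (nat_lit 2683) (nat_lit 168) .nil)))))))) (.g (nat_lit 1) (.e (nat_lit 223573) (nat_lit 0) .nil) .nil)))))) 
(.nd (nat_lit 7) (.nd (nat_lit 8) (.nd (nat_lit 9) 
(.lf (nat_lit 519280) (.g (nat_lit 1559) (.e (nat_lit 196698) (nat_lit 19) (.e (nat_lit 57810) (nat_lit 246) (.e (nat_lit 57879) (nat_lit 270) (.e (nat_lit 371) (nat_lit 32) (.e (nat_lit 426555) (nat_lit 32) (.e (nat_lit 384768) (nat_lit 2) .nil)))))) (.g (nat_lit 1) (.e (nat_lit 220545) (nat_lit 0) .nil) .nil))) 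
(.lf (nat_lit 519792) (.g (nat_lit 2554) (.e (nat_lit 212736) (nat_lit 9) (.e (nat_lit 426124) (nat_lit 2) (.e (nat_lit 196656) (nat_lit 11) (.e (nat_lit 16412) (nat_lit 2) (.e (nat_lit 196654) (nat_lit 11) .nil))))) (.g (nat_lit 0) (.e (nat_lit 222439) (nat_lit 0) .nil) .nil)))) (.nd (nat_lit 9) 
(.lf (nat_lit 519536) (.g (nat_lit 136) (.e (nat_lit 204811) (nat_lit 9) (.e (nat_lit 426259) (nat_lit 9) (.e (nat_lit 426565) (nat_lit 34) .nil))) (.g (nat_lit 0) (.e (nat_lit 221614) (nat_lit 0) .nil) .nil))) 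
(.lf (nat_lit 520048) (.g (nat_lit 2410) (.e (nat_lit 204829) (nat_lit 18) (.e (nat_lit 57847) (nat_lit 252) (.e (nat_lit 57407) (nat_lit 12) (.e (nat_lit 336456) (nat_lit 34) (.e (nat_lit 483384) (nat_lit 23) .nil))))) (.g (nat_lit 0) (.e (nat_lit 223496) (nat_lit 0) .nil) .nil))))) (.nd (nat_lit 8) (.nd (nat_lit 9) 
(.lf (nat_lit 519408) (.g (nat_lit 2542) (.e (nat_lit 204809) (nat_lit 9) (.e (nat_lit 426124) (nat_lit 2) (.e (nat_lit 196656) (nat_lit 11) (.e (nat_lit 16412) (nat_lit 2) (.e (nat_lit 196656) (nat_lit 11) (.e (nat_lit 16414) (nat_lit 3) .nil)))))) (.g (nat_lit 1) (.e (nat_lit 221039) (nat_lit 0) .nil) .nil))) 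
(.lf (nat_lit 519920) (.g (nat_lit 989) (.e (nat_lit 204828) (nat_lit 18) (.e (nat_lit 57848) (nat_lit 252) (.e (nat_lit 57407) (nat_lit 12) (.e (nat_lit 336367) (nat_lit 27) .nil)))) (.g (nat_lit 0) (.e (nat_lit 223329) (nat_lit 0) .nil) .nil)))) (.nd (nat_lit 9) 
(.lf (nat_lit 519664) (.g (nat_lit 659) (.e (nat_lit 204813) (nat_lit 9) (.e (nat_lit 426107) (nat_lit 1) (.e (nat_lit 164327) (nat_lit 230) .nil))) (.g (nat_lit 0) (.e (nat_lit 221846) (nat_lit 0) .nil) .nil))) 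
(.lf (nat_lit 520176) (.g (nat_lit 3059) (.e (nat_lit 204829) (nat_lit 18) (.e (nat_lit 57927) (nat_lit 282) (.e (nat_lit 163868) (nat_lit 2) (.e (nat_lit 196668) (nat_lit 14) (.e (nat_lit 73747) (nat_lit 3) (.e (nat_lit 516124) (nat_lit 2) (.e (nat_lit 213019) (nat_lit 9) (.e (nat_lit 2675) (nat_lit 168) .nil)))))))) (.g (nat_lit 1) (.e (nat_lit 223642) (nat_lit 0) .nil) .nil))))))))) 
(.nd (nat_lit 4) (.nd (nat_lit 5) (.nd (nat_lit 6) (.nd (nat_lit 7) (.nd (nat_lit 8) 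
(.nd (nat_lit 9) 
(.lf (nat_lit 519176) (.g (nat_lit 1752) (.e (nat_lit 196681) (nat_lit 17) (.e (nat_lit 131109) (nat_lit 9) (.e (nat_lit 336454) (nat_lit 34) (.e (nat_lit 483362) (nat_lit 18) (.e (nat_lit 57927) (nat_lit 282) (.e (nat_lit 163866) (nat_lit 2) .nil)))))) (.g (nat_lit 1) (.e (nat_lit 220307) (nat_lit 0) .nil) .nil))) 
(.lf (nat_lit 519688) (.g (nat_lit 2966) (.e (nat_lit 204813) (nat_lit 9) (.e (nat_lit 426122) (nat_lit 2) (.e (nat_lit 196654) (nat_lit 11) (.e (nat_lit 16416) (nat_lit 3) (.e (nat_lit 204809) (nat_lit 9) (.e (nat_lit 426139) (nat_lit 3) .nil)))))) (.g (nat_lit 1) (.e (nat_lit 221891) (nat_lit 0) .nil) .nil)))) (.nd (nat_lit 9) 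
(.lf (nat_lit 519432) (.g (nat_lit 2380) (.e (nat_lit 204809) (nat_lit 9) (.e (nat_lit 426187) (nat_lit 9) (.e (nat_lit 426566) (nat_lit 34) (.e (nat_lit 393253) (nat_lit 18) (.e (nat_lit 164326) (nat_lit 230) .nil))))) (.g (nat_lit 0) (.e (nat_lit 221249) (nat_lit 0) .nil) .nil))) 
(.lf (nat_lit 519944) (.g (nat_lit 2801) (.e (nat_lit 204829) (nat_lit 18) (.e (nat_lit 57686) (nat_lit 156) (.e (nat_lit 163902) (nat_lit 12) (.e (nat_lit 426479) (nat_lit 27) (.e (nat_lit 336443) (nat_lit 32) (.e (nat_lit 466981) (nat_lit 23) .nil)))))) (.g (nat_lit 1) (.e (nat_lit 223357) (nat_lit 0) .nil) .nil))))) (.nd (nat_lit 8) (.nd (nat_lit 9) 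
(.lf (nat_lit 519304) (.g (nat_lit 1960) (.e (nat_lit 196698) (nat_lit 19) (.e (nat_lit 57816) (nat_lit 246) (.e (nat_lit 57881) (nat_lit 270) (.e (nat_lit 371) (nat_lit 32) (.e (nat_lit 426542) (nat_lit 29) (.e (nat_lit 360192) (nat_lit 2) .nil)))))) (.g (nat_lit 1) (.e (nat_lit 220569) (nat_lit 0) .nil) .nil))) 
(.lf (nat_lit 519816) (.g (nat_lit 2539) (.e (nat_lit 204814) (nat_lit 17) (.e (nat_lit 6113) (nat_lit 332) (.e (nat_lit 1374) (nat_lit 104) (.e (nat_lit 303119) (nat_lit 3) (.e (nat_lit 204885) (nat_lit 33) .nil))))) (.g (nat_lit 0) (.e (nat_lit 222918) (nat_lit 0) .nil) .nil)))) (.nd (nat_lit 9) 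
(.lf (nat_lit 519560) (.g (nat_lit 2499) (.e (nat_lit 204811) (nat_lit 9) (.e (nat_lit 426261) (nat_lit 9) (.e (nat_lit 426565) (nat_lit 34) (.e (nat_lit 393253) (nat_lit 18) (.e (nat_lit 164332) (nat_lit 230) (.e (nat_lit 163874) (nat_lit 3) .nil)))))) (.g (nat_lit 1) (.e (nat_lit 221648) (nat_lit 0) .nil) .nil))) 
(.lf (nat_lit 520072) (.g (nat_lit 2344) (.e (nat_lit 204829) (nat_lit 18) (.e (nat_lit 57849) (nat_lit 252) (.e (nat_lit 57407) (nat_lit 12) (.e (nat_lit 336456) (nat_lit 34) (.e (nat_lit 483391) (nat_lit 23) .nil))))) (.g (nat_lit 0) (.e (nat_lit 223529) (nat_lit 0) .nil) .nil)))))) (.nd (nat_lit 7) (.nd (nat_lit 8) (.nd (nat_lit 9) 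
(.lf (nat_lit 519240) (.g (nat_lit 1411) (.e (nat_lit 196681) (nat_lit 17) (.e (nat_lit 131124) (nat_lit 13) (.e (nat_lit 393229) (nat_lit 9) (.e (nat_lit 335987) (nat_lit 1) (.e (nat_lit 57927) (nat_lit 282) .nil))))) (.g (nat_lit 0) (.e (nat_lit 220420) (nat_lit 0) .nil) .nil))) 
(.lf (nat_lit 519752) (.g (nat_lit 3177) (.e (nat_lit 204813) (nat_lit 9) (.e (nat_lit 426199) (nat_lit 9) (.e (nat_lit 426566) (nat_lit 34) (.e (nat_lit 393253) (nat_lit 18) (.e (nat_lit 164332) (nat_lit 230) (.e (nat_lit 163874) (nat_lit 3) .nil)))))) (.g (nat_lit 1) (.e (nat_lit 222135) (nat_lit 0) .nil) .nil)))) (.nd (nat_lit 9) 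
(.lf (nat_lit 519496) (.g (nat_lit 700) (.e (nat_lit 204811) (nat_lit 9) (.e (nat_lit 426110) (nat_lit 1) (.e (nat_lit 164399) (nat_lit 256) .nil))) (.g (nat_lit 0) (.e (nat_lit 221561) (nat_lit 0) .nil) .nil))) 
(.lf (nat_lit 520008) (.g (nat_lit 2585) (.e (nat_lit 204829) (nat_lit 18) (.e (nat_lit 57691) (nat_lit 156) (.e (nat_lit 163907) (nat_lit 12) (.e (nat_lit 426568) (nat_lit 34) (.e (nat_lit 393277) (nat_lit 23) (.e (nat_lit 426135) (nat_lit 3) .nil)))))) (.g (nat_lit 1) (.e (nat_lit 223442) (nat_lit 0) .nil) .nil))))) (.nd (nat_lit 8) (.nd (nat_lit 9) 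
(.lf (nat_lit 519368) (.g (nat_lit 1570) (.e (nat_lit 204809) (nat_lit 9) (.e (nat_lit 426100) (nat_lit 1) (.e (nat_lit 164403) (nat_lit 256) (.e (nat_lit 57406) (nat_lit 12) .nil)))) (.g (nat_lit 0) (.e (nat_lit 220881) (nat_lit 0) .nil) .nil))) 
(.lf (nat_lit 519880) (.g (nat_lit 5372) (.e (nat_lit 204819) (nat_lit 17) (.e (nat_lit 6113) (nat_lit 332) (.e (nat_lit 1374) (nat_lit 104) (.e (nat_lit 303119) (nat_lit 3) (.e (nat_lit 204846) (nat_lit 24) (.e (nat_lit 319539) (nat_lit 19) (.e (nat_lit 311315) (nat_lit 3) .nil))))))) (.g (nat_lit 1) (.e (nat_lit 223240) (nat_lit 0) .nil) .nil)))) (.nd (nat_lit 9) 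
(.lf (nat_lit 519624) (.g (nat_lit 1069) (.e (nat_lit 204812) (nat_lit 9) (.e (nat_lit 426188) (nat_lit 9) (.e (nat_lit 426566) (nat_lit 34) (.e (nat_lit 393253) (nat_lit 18) .nil)))) (.g (nat_lit 0) (.e (nat_lit 221744) (nat_lit 0) .nil) .nil))) 
(.lf (nat_lit 520136) (.g (nat_lit 3089) (.e (nat_lit 204829) (nat_lit 18) (.e (nat_lit 57927) (nat_lit 282) (.e (nat_lit 163866) (nat_lit 2) (.e (nat_lit 196668) (nat_lit 14) (.e (nat_lit 73747) (nat_lit 3) (.e (nat_lit 516129) (nat_lit 3) (.e (nat_lit 221213) (nat_lit 23) .nil))))))) (.g (nat_lit 1) (.e (nat_lit 223602) (nat_lit 0) .nil) .nil))))))) 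
(.nd (nat_lit 6) (.nd (nat_lit 7) (.nd (nat_lit 8) (.nd (nat_lit 9) 
(.lf (nat_lit 519208) (.g (nat_lit 1772) (.e (nat_lit 196681) (nat_lit 17) (.e (nat_lit 131123) (nat_lit 12) (.e (nat_lit 385066) (nat_lit 26) (.e (nat_lit 532481) (nat_lit 0) (.e (nat_lit 2036) (nat_lit 141) .nil))))) (.g (nat_lit 0) (.e (nat_lit 220368) (nat_lit 0) .nil) .nil))) 
(.lf (nat_lit 519720) (.g (nat_lit 2395) (.e (nat_lit 204813) (nat_lit 9) (.e (nat_lit 426190) (nat_lit 9) (.e (nat_lit 426489) (nat_lit 27) (.e (nat_lit 336407) (nat_lit 27) (.e (nat_lit 426107) (nat_lit 1) (.e (nat_lit 164326) (nat_lit 230) (.e (nat_lit 163873) (nat_lit 3) .nil))))))) (.g (nat_lit 1) (.e (nat_lit 222050) (nat_lit 0) .nil) .nil)))) (.nd (nat_lit 9) 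
(.lf (nat_lit 519464) (.g (nat_lit 2471) (.e (nat_lit 204809) (nat_lit 9) (.e (nat_lit 426190) (nat_lit 9) (.e (nat_lit 426566) (nat_lit 34) (.e (nat_lit 393253) (nat_lit 18) (.e (nat_lit 164324) (nat_lit 230) (.e (nat_lit 163873) (nat_lit 3) .nil)))))) (.g (nat_lit 1) (.e (nat_lit 221283) (nat_lit 0) .nil) .nil))) 
(.lf (nat_lit 519976) (.g (nat_lit 1825) (.e (nat_lit 204829) (nat_lit 18) (.e (nat_lit 57688) (nat_lit 156) (.e (nat_lit 163905) (nat_lit 12) (.e (nat_lit 426478) (nat_lit 27) (.e (nat_lit 336443) (nat_lit 32) .nil))))) (.g (nat_lit 0) (.e (nat_lit 223393) (nat_lit 0) .nil) .nil))))) (.nd (nat_lit 8) (.nd (nat_lit 9) 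
(.lf (nat_lit 519336) (.g (nat_lit 2081) (.e (nat_lit 204808) (nat_lit 9) (.e (nat_lit 426100) (nat_lit 1) (.e (nat_lit 164403) (nat_lit 256) (.e (nat_lit 57406) (nat_lit 12) .nil)))) (.g (nat_lit 0) (.e (nat_lit 220697) (nat_lit 0) .nil) .nil))) 
(.lf (nat_lit 519848) (.g (nat_lit 497) (.e (nat_lit 204816) (nat_lit 17) (.e (nat_lit 6722) (nat_lit 362) (.e (nat_lit 180243) (nat_lit 5) .nil))) (.g (nat_lit 0) (.e (nat_lit 223092) (nat_lit 0) .nil) .nil)))) (.nd (nat_lit 9) 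
(.lf (nat_lit 519592) (.g (nat_lit 1813) (.e (nat_lit 204812) (nat_lit 9) (.e (nat_lit 426100) (nat_lit 1) (.e (nat_lit 164399) (nat_lit 256) (.e (nat_lit 57411) (nat_lit 12) (.e (nat_lit 336443) (nat_lit 32) .nil))))) (.g (nat_lit 0) (.e (nat_lit 221684) (nat_lit 0) .nil) .nil))) 
(.lf (nat_lit 520104) (.g (nat_lit 3699) (.e (nat_lit 204829) (nat_lit 18) (.e (nat_lit 57926) (nat_lit 282) (.e (nat_lit 163868) (nat_lit 2) (.e (nat_lit 196670) (nat_lit 14) (.e (nat_lit 73746) (nat_lit 3) (.e (nat_lit 516131) (nat_lit 3) (.e (nat_lit 221215) (nat_lit 23) .nil))))))) (.g (nat_lit 1) (.e (nat_lit 223564) (nat_lit 0) .nil) .nil)))))) 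
(.nd (nat_lit 7) (.nd (nat_lit 8) (.nd (nat_lit 9) 
(.lf (nat_lit 519272) (.g (nat_lit 990) (.e (nat_lit 196698) (nat_lit 19) (.e (nat_lit 57809) (nat_lit 246) (.e (nat_lit 57879) (nat_lit 270) (.e (nat_lit 496) (nat_lit 39) (.e (nat_lit 483382) (nat_lit 23) (.e (nat_lit 343808) (nat_lit 17) .nil)))))) (.g (nat_lit 1) (.e (nat_lit 220537) (nat_lit 0) .nil) .nil))) 
(.lf (nat_lit 519784) (.g (nat_lit 3821) (.e (nat_lit 204813) (nat_lit 9) (.e (nat_lit 426200) (nat_lit 9) (.e (nat_lit 426568) (nat_lit 34) (.e (nat_lit 393253) (nat_lit 18) (.e (nat_lit 164332) (nat_lit 230) (.e (nat_lit 163874) (nat_lit 3) .nil)))))) (.g (nat_lit 1) (.e (nat_lit 222221) (nat_lit 0) .nil) .nil)))) (.nd (nat_lit 9) 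
(.lf (nat_lit 519528) (.g (nat_lit 1882) (.e (nat_lit 204811) (nat_lit 9) (.e (nat_lit 426234) (nat_lit 9) (.e (nat_lit 426565) (nat_lit 34) (.e (nat_lit 393253) (nat_lit 18) (.e (nat_lit 164329) (nat_lit 230) (.e (nat_lit 163873) (nat_lit 3) .nil)))))) (.g (nat_lit 1) (.e (nat_lit 221595) (nat_lit 0) .nil) .nil))) 
(.lf (nat_lit 520040) (.g (nat_lit 4087) (.e (nat_lit 204829) (nat_lit 18) (.e (nat_lit 57847) (nat_lit 252) (.e (nat_lit 57379) (nat_lit 3) (.e (nat_lit 98342) (nat_lit 20) (.e (nat_lit 221214) (nat_lit 23) (.e (nat_lit 204852) (nat_lit 26) (.e (nat_lit 336326) (nat_lit 18) .nil))))))) (.g (nat_lit 1) (.e (nat_lit 223488) (nat_lit 0) .nil) .nil))))) (.nd (nat_lit 8) (.nd (nat_lit 9) 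
(.lf (nat_lit 519400) (.g (nat_lit 1190) (.e (nat_lit 204809) (nat_lit 9) (.e (nat_lit 426124) (nat_lit 2) (.e (nat_lit 196654) (nat_lit 11) (.e (nat_lit 16412) (nat_lit 2) .nil)))) (.g (nat_lit 0) (.e (nat_lit 220994) (nat_lit 0) .nil) .nil))) 
(.lf (nat_lit 519912) (.g (nat_lit 1967) (.e (nat_lit 204828) (nat_lit 18) (.e (nat_lit 57691) (nat_lit 156) (.e (nat_lit 163905) (nat_lit 12) (.e (nat_lit 426479) (nat_lit 27) (.e (nat_lit 336430) (nat_lit 29) .nil))))) (.g (nat_lit 0) (.e (nat_lit 223317) (nat_lit 0) .nil) .nil)))) (.nd (nat_lit 9) 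
(.lf (nat_lit 519656) (.g (nat_lit 1152) (.e (nat_lit 204813) (nat_lit 9) (.e (nat_lit 426100) (nat_lit 1) (.e (nat_lit 164399) (nat_lit 256) (.e (nat_lit 57406) (nat_lit 12) .nil)))) (.g (nat_lit 0) (.e (nat_lit 221838) (nat_lit 0) .nil) .nil))) 
(.lf (nat_lit 520168) (.g (nat_lit 2541) (.e (nat_lit 204829) (nat_lit 18) (.e (nat_lit 57927) (nat_lit 282) (.e (nat_lit 163868) (nat_lit 2) (.e (nat_lit 196668) (nat_lit 14) (.e (nat_lit 73746) (nat_lit 3) (.e (nat_lit 516127) (nat_lit 2) (.e (nat_lit 213019) (nat_lit 9) (.e (nat_lit 2683) (nat_lit 168) .nil)))))))) (.g (nat_lit 1) (.e (nat_lit 223634) (nat_lit 0) .nil) .nil)))))))) 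
(.nd (nat_lit 5) (.nd (nat_lit 6) (.nd (nat_lit 7) (.nd (nat_lit 8) (.nd (nat_lit 9) 
(.lf (nat_lit 519192) (.g (nat_lit 2940) (.e (nat_lit 196681) (nat_lit 17) (.e (nat_lit 131120) (nat_lit 12) (.e (nat_lit 385066) (nat_lit 26) (.e (nat_lit 532515) (nat_lit 3) (.e (nat_lit 114698) (nat_lit 11) (.e (nat_lit 426124) (nat_lit 2) .nil)))))) (.g (nat_lit 1) (.e (nat_lit 220333) (nat_lit 0) .nil) .nil))) 
(.lf (nat_lit 519704) (.g (nat_lit 2571) (.e (nat_lit 204813) (nat_lit 9) (.e (nat_lit 426138) (nat_lit 3) (.e (nat_lit 204813) (nat_lit 9) (.e (nat_lit 426122) (nat_lit 2) (.e (nat_lit 196654) (nat_lit 11) (.e (nat_lit 16416) (nat_lit 3) .nil)))))) (.g (nat_lit 1) (.e (nat_lit 221970) (nat_lit 0) .nil) .nil)))) (.nd (nat_lit 9) 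
(.lf (nat_lit 519448) (.g (nat_lit 2334) (.e (nat_lit 204809) (nat_lit 9) (.e (nat_lit 426188) (nat_lit 9) (.e (nat_lit 426568) (nat_lit 34) (.e (nat_lit 393251) (nat_lit 18) (.e (nat_lit 164327) (nat_lit 230) (.e (nat_lit 163873) (nat_lit 3) .nil)))))) (.g (nat_lit 1) (.e (nat_lit 221267) (nat_lit 0) .nil) .nil))) 
(.lf (nat_lit 519960) (.g (nat_lit 3150) (.e (nat_lit 204829) (nat_lit 18) (.e (nat_lit 57688) (nat_lit 156) (.e (nat_lit 163902) (nat_lit 12) (.e (nat_lit 426479) (nat_lit 27) (.e (nat_lit 336443) (nat_lit 32) (.e (nat_lit 466981) (nat_lit 23) .nil)))))) (.g (nat_lit 1) (.e (nat_lit 223376) (nat_lit 0) .nil) .nil))))) (.nd (nat_lit 8) (.nd (nat_lit 9) 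
(.lf (nat_lit 519320) (.g (nat_lit 1577) (.e (nat_lit 204808) (nat_lit 9) (.e (nat_lit 426098) (nat_lit 1) (.e (nat_lit 164398) (nat_lit 256) (.e (nat_lit 57407) (nat_lit 12) .nil)))) (.g (nat_lit 0) (.e (nat_lit 220681) (nat_lit 0) .nil) .nil))) 
(.lf (nat_lit 519832) (.g (nat_lit 1960) (.e (nat_lit 204815) (nat_lit 17) (.e (nat_lit 6724) (nat_lit 362) (.e (nat_lit 180250) (nat_lit 10) (.e (nat_lit 573471) (nat_lit 11) (.e (nat_lit 16442) (nat_lit 9) (.e (nat_lit 426135) (nat_lit 3) .nil)))))) (.g (nat_lit 1) (.e (nat_lit 223024) (nat_lit 0) .nil) .nil)))) (.nd (nat_lit 9) 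
(.lf (nat_lit 519576) (.g (nat_lit 701) (.e (nat_lit 204812) (nat_lit 9) (.e (nat_lit 426098) (nat_lit 1) (.e (nat_lit 164403) (nat_lit 256) .nil))) (.g (nat_lit 0) (.e (nat_lit 221668) (nat_lit 0) .nil) .nil))) 
(.lf (nat_lit 520088) (.g (nat_lit 1763) (.e (nat_lit 204829) (nat_lit 18) (.e (nat_lit 57854) (nat_lit 252) (.e (nat_lit 57409) (nat_lit 12) (.e (nat_lit 336456) (nat_lit 34) (.e (nat_lit 483387) (nat_lit 23) .nil))))) (.g (nat_lit 0) (.e (nat_lit 223546) (nat_lit 0) .nil) .nil)))))) (.nd (nat_lit 7) (.nd (nat_lit 8) (.nd (nat_lit 9) 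
(.lf (nat_lit 519256) (.g (nat_lit 1556) (.e (nat_lit 196691) (nat_lit 18) (.e (nat_lit 1348) (nat_lit 102) (.e (nat_lit 286743) (nat_lit 9) (.e (nat_lit 336454) (nat_lit 34) .nil)))) (.g (nat_lit 0) (.e (nat_lit 220494) (nat_lit 0) .nil) .nil))) 
(.lf (nat_lit 519768) (.g (nat_lit 1857) (.e (nat_lit 204813) (nat_lit 9) (.e (nat_lit 426200) (nat_lit 9) (.e (nat_lit 426564) (nat_lit 34) (.e (nat_lit 393252) (nat_lit 18) (.e (nat_lit 164330) (nat_lit 230) .nil))))) (.g (nat_lit 0) (.e (nat_lit 222202) (nat_lit 0) .nil) .nil)))) (.nd (nat_lit 9) 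
(.lf (nat_lit 519512) (.g (nat_lit 2050) (.e (nat_lit 204811) (nat_lit 9) (.e (nat_lit 426230) (nat_lit 9) (.e (nat_lit 426565) (nat_lit 34) (.e (nat_lit 393254) (nat_lit 18) (.e (nat_lit 164332) (nat_lit 230) (.e (nat_lit 163874) (nat_lit 3) .nil)))))) (.g (nat_lit 1) (.e (nat_lit 221579) (nat_lit 0) .nil) .nil))) 
(.lf (nat_lit 520024) (.g (nat_lit 2933) (.e (nat_lit 204829) (nat_lit 18) (.e (nat_lit 57692) (nat_lit 156) (.e (nat_lit 163907) (nat_lit 12) (.e (nat_lit 426479) (nat_lit 27) (.e (nat_lit 336443) (nat_lit 32) (.e (nat_lit 466981) (nat_lit 23) .nil)))))) (.g (nat_lit 1) (.e (nat_lit 223464) (nat_lit 0) .nil) .nil))))) (.nd (nat_lit 8) (.nd (nat_lit 9) 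
(.lf (nat_lit 519384) (.g (nat_lit 1478) (.e (nat_lit 204809) (nat_lit 9) (.e (nat_lit 426116) (nat_lit 2) (.e (nat_lit 196656) (nat_lit 11) (.e (nat_lit 16411) (nat_lit 2) .nil)))) (.g (nat_lit 0) (.e (nat_lit 220938) (nat_lit 0) .nil) .nil))) 
(.lf (nat_lit 519896) (.g (nat_lit 2711) (.e (nat_lit 204821) (nat_lit 17) (.e (nat_lit 6114) (nat_lit 332) (.e (nat_lit 1370) (nat_lit 103) (.e (nat_lit 294914) (nat_lit 0) .nil)))) (.g (nat_lit 0) (.e (nat_lit 223294) (nat_lit 0) .nil) .nil)))) (.nd (nat_lit 9) 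
(.lf (nat_lit 519640) (.g (nat_lit 1132) (.e (nat_lit 204812) (nat_lit 9) (.e (nat_lit 426198) (nat_lit 9) (.e (nat_lit 426566) (nat_lit 34) (.e (nat_lit 393253) (nat_lit 18) .nil)))) (.g (nat_lit 0) (.e (nat_lit 221761) (nat_lit 0) .nil) .nil))) 
(.lf (nat_lit 520152) (.g (nat_lit 2310) (.e (nat_lit 204829) (nat_lit 18) (.e (nat_lit 57927) (nat_lit 282) (.e (nat_lit 163868) (nat_lit 2) (.e (nat_lit 196663) (nat_lit 13) (.e (nat_lit 65569) (nat_lit 3) (.e (nat_lit 98338) (nat_lit 19) (.e (nat_lit 213013) (nat_lit 9) (.e (nat_lit 2684) (nat_lit 168) .nil)))))))) (.g (nat_lit 1) (.e (nat_lit 223618) (nat_lit 0) .nil) .nil))))))) 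
(.nd (nat_lit 6) (.nd (nat_lit 7) (.nd (nat_lit 8) (.nd (nat_lit 9) 
(.lf (nat_lit 519224) (.g (nat_lit 3044) (.e (nat_lit 196681) (nat_lit 17) (.e (nat_lit 131123) (nat_lit 12) (.e (nat_lit 385066) (nat_lit 26) (.e (nat_lit 532515) (nat_lit 3) (.e (nat_lit 114698) (nat_lit 11) (.e (nat_lit 426124) (nat_lit 2) .nil)))))) (.g (nat_lit 1) (.e (nat_lit 220392) (nat_lit 0) .nil) .nil))) 
(.lf (nat_lit 519736) (.g (nat_lit 3367) (.e (nat_lit 204813) (nat_lit 9) (.e (nat_lit 426198) (nat_lit 9) (.e (nat_lit 426566) (nat_lit 34) (.e (nat_lit 393252) (nat_lit 18) (.e (nat_lit 164332) (nat_lit 230) (.e (nat_lit 163874) (nat_lit 3) .nil)))))) (.g (nat_lit 1) (.e (nat_lit 222092) (nat_lit 0) .nil) .nil)))) (.nd (nat_lit 9) 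
(.lf (nat_lit 519480) (.g (nat_lit 3135) (.e (nat_lit 204809) (nat_lit 9) (.e (nat_lit 426200) (nat_lit 9) (.e (nat_lit 426566) (nat_lit 34) (.e (nat_lit 393254) (nat_lit 18) (.e (nat_lit 164327) (nat_lit 230) (.e (nat_lit 163873) (nat_lit 3) .nil)))))) (.g (nat_lit 1) (.e (nat_lit 221365) (nat_lit 0) .nil) .nil))) 
(.lf (nat_lit 519992) (.g (nat_lit 3208) (.e (nat_lit 204829) (nat_lit 18) (.e (nat_lit 57691) (nat_lit 156) (.e (nat_lit 163875) (nat_lit 3) (.e (nat_lit 204837) (nat_lit 20) (.e (nat_lit 114718) (nat_lit 23) (.e (nat_lit 98365) (nat_lit 26) (.e (nat_lit 426137) (nat_lit 3) .nil))))))) (.g (nat_lit 1) (.e (nat_lit 223420) (nat_lit 0) .nil) .nil))))) (.nd (nat_lit 8) (.nd (nat_lit 9) 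
(.lf (nat_lit 519352) (.g (nat_lit 3091) (.e (nat_lit 204808) (nat_lit 9) (.e (nat_lit 426190) (nat_lit 9) (.e (nat_lit 426566) (nat_lit 34) (.e (nat_lit 393252) (nat_lit 18) (.e (nat_lit 164332) (nat_lit 230) (.e (nat_lit 163874) (nat_lit 3) .nil)))))) (.g (nat_lit 1) (.e (nat_lit 220779) (nat_lit 0) .nil) .nil))) 
(.lf (nat_lit 519864) (.g (nat_lit 2158) (.e (nat_lit 204816) (nat_lit 17) (.e (nat_lit 6724) (nat_lit 362) (.e (nat_lit 180252) (nat_lit 10) (.e (nat_lit 573469) (nat_lit 11) (.e (nat_lit 16446) (nat_lit 9) .nil))))) (.g (nat_lit 0) (.e (nat_lit 223211) (nat_lit 0) .nil) .nil)))) (.nd (nat_lit 9) 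
(.lf (nat_lit 519608) (.g (nat_lit 1329) (.e (nat_lit 204812) (nat_lit 9) (.e (nat_lit 426108) (nat_lit 1) (.e (nat_lit 164403) (nat_lit 256) (.e (nat_lit 57408) (nat_lit 12) .nil)))) (.g (nat_lit 0) (.e (nat_lit 221701) (nat_lit 0) .nil) .nil))) 
(.lf (nat_lit 520120) (.g (nat_lit 3646) (.e (nat_lit 204829) (nat_lit 18) (.e (nat_lit 57926) (nat_lit 282) (.e (nat_lit 163870) (nat_lit 2) (.e (nat_lit 196666) (nat_lit 13) (.e (nat_lit 65571) (nat_lit 3) (.e (nat_lit 98341) (nat_lit 20) (.e (nat_lit 221215) (nat_lit 23) .nil))))))) (.g (nat_lit 1) (.e (nat_lit 223581) (nat_lit 0) .nil) .nil)))))) 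
(.nd (nat_lit 7) (.nd (nat_lit 8) (.nd (nat_lit 9) 
(.lf (nat_lit 519288) (.g (nat_lit 1660) (.e (nat_lit 196698) (nat_lit 19) (.e (nat_lit 57811) (nat_lit 246) (.e (nat_lit 57883) (nat_lit 270) (.e (nat_lit 371) (nat_lit 32) (.e (nat_lit 426540) (nat_lit 29) (.e (nat_lit 360192) (nat_lit 2) .nil)))))) (.g (nat_lit 1) (.e (nat_lit 220553) (nat_lit 0) .nil) .nil))) 
(.lf (nat_lit 519800) (.g (nat_lit 1756) (.e (nat_lit 212736) (nat_lit 9) (.e (nat_lit 426190) (nat_lit 9) (.e (nat_lit 426566) (nat_lit 34) (.e (nat_lit 393252) (nat_lit 18) (.e (nat_lit 164332) (nat_lit 230) .nil))))) (.g (nat_lit 0) (.e (nat_lit 222485) (nat_lit 0) .nil) .nil)))) (.nd (nat_lit 9) 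
(.lf (nat_lit 519544) (.g (nat_lit 2083) (.e (nat_lit 204811) (nat_lit 9) (.e (nat_lit 426260) (nat_lit 9) (.e (nat_lit 426565) (nat_lit 34) (.e (nat_lit 393253) (nat_lit 18) (.e (nat_lit 164325) (nat_lit 230) (.e (nat_lit 163875) (nat_lit 3) .nil)))))) (.g (nat_lit 1) (.e (nat_lit 221632) (nat_lit 0) .nil) .nil))) 
(.lf (nat_lit 520056) (.g (nat_lit 2803) (.e (nat_lit 204829) (nat_lit 18) (.e (nat_lit 57847) (nat_lit 252) (.e (nat_lit 57447) (nat_lit 19) (.e (nat_lit 393221) (nat_lit 0) (.e (nat_lit 6112) (nat_lit 332) (.e (nat_lit 2507) (nat_lit 157) (.e (nat_lit 5259) (nat_lit 298) (.e (nat_lit 174) (nat_lit 12) .nil)))))))) (.g (nat_lit 1) (.e (nat_lit 223506) (nat_lit 0) .nil) .nil))))) 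
(.nd (nat_lit 8) (.nd (nat_lit 9) 
(.lf (nat_lit 519416) (.g (nat_lit 1287) (.e (nat_lit 204809) (nat_lit 9) (.e (nat_lit 426133) (nat_lit 3) (.e (nat_lit 204813) (nat_lit 9) (.e (nat_lit 426123) (nat_lit 2) .nil)))) (.g (nat_lit 0) (.e (nat_lit 221092) (nat_lit 0) .nil) .nil))) 
(.lf (nat_lit 519928) (.g (nat_lit 1983) (.e (nat_lit 204828) (nat_lit 18) (.e (nat_lit 57926) (nat_lit 282) (.e (nat_lit 163869) (nat_lit 2) (.e (nat_lit 196666) (nat_lit 13) (.e (nat_lit 65569) (nat_lit 3) .nil))))) (.g (nat_lit 0) (.e (nat_lit 223337) (nat_lit 0) .nil) .nil)))) (.nd (nat_lit 9) 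
(.lf (nat_lit 519672) (.g (nat_lit 1992) (.e (nat_lit 204813) (nat_lit 9) (.e (nat_lit 426108) (nat_lit 1) (.e (nat_lit 164401) (nat_lit 256) (.e (nat_lit 57409) (nat_lit 12) (.e (nat_lit 336443) (nat_lit 32) .nil))))) (.g (nat_lit 0) (.e (nat_lit 221857) (nat_lit 0) .nil) .nil))) 
(.lf (nat_lit 520184) (.g (nat_lit 3306) (.e (nat_lit 204829) (nat_lit 18) (.e (nat_lit 57927) (nat_lit 282) (.e (nat_lit 163868) (nat_lit 2) (.e (nat_lit 196670) (nat_lit 14) (.e (nat_lit 73746) (nat_lit 3) (.e (nat_lit 516124) (nat_lit 2) (.e (nat_lit 213013) (nat_lit 9) (.e (nat_lit 2681) (nat_lit 168) .nil)))))))) (.g (nat_lit 1) (.e (nat_lit 223650) (nat_lit 0) .nil) .nil)))))))))) 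
(.nd (nat_lit 3) (.nd (nat_lit 4) (.nd (nat_lit 5) (.nd (nat_lit 6) (.nd (nat_lit 7) 
(.nd (nat_lit 8) (.nd (nat_lit 9) 
(.lf (nat_lit 519172) (.g (nat_lit 3497) (.e (nat_lit 196681) (nat_lit 17) (.e (nat_lit 131109) (nat_lit 9) (.e (nat_lit 336324) (nat_lit 18) (.e (nat_lit 204838) (nat_lit 20) (.e (nat_lit 114698) (nat_lit 11) (.e (nat_lit 426121) (nat_lit 2) .nil)))))) (.g (nat_lit 1) (.e (nat_lit 220264) (nat_lit 0) .nil) .nil))) 
(.lf (nat_lit 519684) (.g (nat_lit 2600) (.e (nat_lit 204813) (nat_lit 9) (.e (nat_lit 426121) (nat_lit 2) (.e (nat_lit 196656) (nat_lit 11) (.e (nat_lit 16416) (nat_lit 3) (.e (nat_lit 204809) (nat_lit 9) .nil))))) (.g (nat_lit 0) (.e (nat_lit 221883) (nat_lit 0) .nil) .nil)))) (.nd (nat_lit 9) 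
(.lf (nat_lit 519428) (.g (nat_lit 1953) (.e (nat_lit 204809) (nat_lit 9) (.e (nat_lit 426187) (nat_lit 9) (.e (nat_lit 426566) (nat_lit 34) (.e (nat_lit 393251) (nat_lit 18) (.e (nat_lit 164325) (nat_lit 230) .nil))))) (.g (nat_lit 0) (.e (nat_lit 221245) (nat_lit 0) .nil) .nil))) 
(.lf (nat_lit 519940) (.g (nat_lit 1883) (.e (nat_lit 204828) (nat_lit 18) (.e (nat_lit 57931) (nat_lit 282) (.e (nat_lit 163873) (nat_lit 3) (.e (nat_lit 204872) (nat_lit 30) .nil)))) (.g (nat_lit 0) (.e (nat_lit 223349) (nat_lit 0) .nil) .nil))))) (.nd (nat_lit 8) (.nd (nat_lit 9) 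
(.lf (nat_lit 519300) (.g (nat_lit 1646) (.e (nat_lit 196698) (nat_lit 19) (.e (nat_lit 57816) (nat_lit 246) (.e (nat_lit 57878) (nat_lit 270) (.e (nat_lit 371) (nat_lit 32) (.e (nat_lit 426555) (nat_lit 32) (.e (nat_lit 384768) (nat_lit 2) .nil)))))) (.g (nat_lit 1) (.e (nat_lit 220565) (nat_lit 0) .nil) .nil))) 
(.lf (nat_lit 519812) (.g (nat_lit 1720) (.e (nat_lit 212736) (nat_lit 15) (.e (nat_lit 475214) (nat_lit 42) (.e (nat_lit 720930) (nat_lit 21) (.e (nat_lit 57927) (nat_lit 282) (.e (nat_lit 163931) (nat_lit 17) .nil))))) (.g (nat_lit 0) (.e (nat_lit 222860) (nat_lit 0) .nil) .nil)))) (.nd (nat_lit 9) 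
(.lf (nat_lit 519556) (.g (nat_lit 2115) (.e (nat_lit 204811) (nat_lit 9) (.e (nat_lit 426261) (nat_lit 9) (.e (nat_lit 426565) (nat_lit 34) (.e (nat_lit 393253) (nat_lit 18) (.e (nat_lit 164325) (nat_lit 230) (.e (nat_lit 163875) (nat_lit 3) .nil)))))) (.g (nat_lit 1) (.e (nat_lit 221644) (nat_lit 0) .nil) .nil))) 
(.lf (nat_lit 520068) (.g (nat_lit 1166) (.e (nat_lit 204829) (nat_lit 18) (.e (nat_lit 57849) (nat_lit 252) (.e (nat_lit 57407) (nat_lit 12) (.e (nat_lit 336454) (nat_lit 34) .nil)))) (.g (nat_lit 0) (.e (nat_lit 223525) (nat_lit 0) .nil) .nil)))))) (.nd (nat_lit 7) (.nd (nat_lit 8) (.nd (nat_lit 9) 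
(.lf (nat_lit 519236) (.g (nat_lit 3070) (.e (nat_lit 196681) (nat_lit 17) (.e (nat_lit 131123) (nat_lit 12) (.e (nat_lit 385068) (nat_lit 26) (.e (nat_lit 532515) (nat_lit 3) (.e (nat_lit 114698) (nat_lit 11) (.e (nat_lit 426124) (nat_lit 2) .nil)))))) (.g (nat_lit 1) (.e (nat_lit 220407) (nat_lit 0) .nil) .nil))) 
(.lf (nat_lit 519748) (.g (nat_lit 2761) (.e (nat_lit 204813) (nat_lit 9) (.e (nat_lit 426198) (nat_lit 9) (.e (nat_lit 426568) (nat_lit 34) (.e (nat_lit 393253) (nat_lit 18) (.e (nat_lit 164329) (nat_lit 230) (.e (nat_lit 163873) (nat_lit 3) .nil)))))) (.g (nat_lit 1) (.e (nat_lit 222104) (nat_lit 0) .nil) .nil)))) (.nd (nat_lit 9) 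
(.lf (nat_lit 519492) (.g (nat_lit 3069) (.e (nat_lit 204809) (nat_lit 9) (.e (nat_lit 433920) (nat_lit 18) (.e (nat_lit 98367) (nat_lit 27) (.e (nat_lit 434231) (nat_lit 23) (.e (nat_lit 532513) (nat_lit 3) (.e (nat_lit 122624) (nat_lit 3) .nil)))))) (.g (nat_lit 1) (.e (nat_lit 221549) (nat_lit 0) .nil) .nil))) 
(.lf (nat_lit 520004) (.g (nat_lit 1700) (.e (nat_lit 204829) (nat_lit 18) (.e (nat_lit 57691) (nat_lit 156) (.e (nat_lit 163907) (nat_lit 12) (.e (nat_lit 426491) (nat_lit 27) .nil)))) (.g (nat_lit 0) (.e (nat_lit 223436) (nat_lit 0) .nil) .nil))))) (.nd (nat_lit 8) (.nd (nat_lit 9) 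
(.lf (nat_lit 519364) (.g (nat_lit 903) (.e (nat_lit 204809) (nat_lit 9) (.e (nat_lit 426100) (nat_lit 1) (.e (nat_lit 164399) (nat_lit 256) (.e (nat_lit 57409) (nat_lit 12) .nil)))) (.g (nat_lit 0) (.e (nat_lit 220877) (nat_lit 0) .nil) .nil))) 
(.lf (nat_lit 519876) (.g (nat_lit 1198) (.e (nat_lit 204819) (nat_lit 17) (.e (nat_lit 6113) (nat_lit 332) (.e (nat_lit 1374) (nat_lit 104) (.e (nat_lit 303119) (nat_lit 3) .nil)))) (.g (nat_lit 0) (.e (nat_lit 223236) (nat_lit 0) .nil) .nil)))) (.nd (nat_lit 9) 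
(.lf (nat_lit 519620) (.g (nat_lit 760) (.e (nat_lit 204812) (nat_lit 9) (.e (nat_lit 426139) (nat_lit 3) (.e (nat_lit 204808) (nat_lit 9) .nil))) (.g (nat_lit 0) (.e (nat_lit 221732) (nat_lit 0) .nil) .nil))) 
(.lf (nat_lit 520132) (.g (nat_lit 3342) (.e (nat_lit 204829) (nat_lit 18) (.e (nat_lit 57926) (nat_lit 282) (.e (nat_lit 163875) (nat_lit 3) (.e (nat_lit 204863) (nat_lit 27) (.e (nat_lit 344117) (nat_lit 21) (.e (nat_lit 516130) (nat_lit 3) (.e (nat_lit 221213) (nat_lit 23) .nil))))))) (.g (nat_lit 1) (.e (nat_lit 223594) (nat_lit 0) .nil) .nil))))))) 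
(.nd (nat_lit 6) (.nd (nat_lit 7) (.nd (nat_lit 8) (.nd (nat_lit 9) 
(.lf (nat_lit 519204) (.g (nat_lit 1767) (.e (nat_lit 196681) (nat_lit 17) (.e (nat_lit 131122) (nat_lit 12) (.e (nat_lit 385066) (nat_lit 26) (.e (nat_lit 532513) (nat_lit 3) (.e (nat_lit 114698) (nat_lit 11) (.e (nat_lit 426122) (nat_lit 2) .nil)))))) (.g (nat_lit 1) (.e (nat_lit 220357) (nat_lit 0) .nil) .nil))) 
(.lf (nat_lit 519716) (.g (nat_lit 2110) (.e (nat_lit 204813) (nat_lit 9) (.e (nat_lit 426188) (nat_lit 9) (.e (nat_lit 426478) (nat_lit 27) (.e (nat_lit 336389) (nat_lit 27) (.e (nat_lit 426098) (nat_lit 1) .nil))))) (.g (nat_lit 0) (.e (nat_lit 222029) (nat_lit 0) .nil) .nil)))) (.nd (nat_lit 9) 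
(.lf (nat_lit 519460) (.g (nat_lit 2947) (.e (nat_lit 204809) (nat_lit 9) (.e (nat_lit 426190) (nat_lit 9) (.e (nat_lit 426566) (nat_lit 34) (.e (nat_lit 393251) (nat_lit 18) (.e (nat_lit 164331) (nat_lit 230) (.e (nat_lit 163873) (nat_lit 3) .nil)))))) (.g (nat_lit 1) (.e (nat_lit 221279) (nat_lit 0) .nil) .nil))) 
(.lf (nat_lit 519972) (.g (nat_lit 2498) (.e (nat_lit 204829) (nat_lit 18) (.e (nat_lit 57688) (nat_lit 156) (.e (nat_lit 163903) (nat_lit 12) (.e (nat_lit 426568) (nat_lit 34) (.e (nat_lit 393277) (nat_lit 23) (.e (nat_lit 426135) (nat_lit 3) .nil)))))) (.g (nat_lit 1) (.e (nat_lit 223389) (nat_lit 0) .nil) .nil))))) (.nd (nat_lit 8) (.nd (nat_lit 9) 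
(.lf (nat_lit 519332) (.g (nat_lit 1528) (.e (nat_lit 204808) (nat_lit 9) (.e (nat_lit 426100) (nat_lit 1) (.e (nat_lit 164399) (nat_lit 256) (.e (nat_lit 57409) (nat_lit 12) (.e (nat_lit 336443) (nat_lit 32) .nil))))) (.g (nat_lit 0) (.e (nat_lit 220693) (nat_lit 0) .nil) .nil))) 
(.lf (nat_lit 519844) (.g (nat_lit 437) (.e (nat_lit 204816) (nat_lit 17) (.e (nat_lit 6221) (nat_lit 333) (.e (nat_lit 57896) (nat_lit 273) .nil))) (.g (nat_lit 0) (.e (nat_lit 223080) (nat_lit 0) .nil) .nil)))) (.nd (nat_lit 9) 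
(.lf (nat_lit 519588) (.g (nat_lit 1513) (.e (nat_lit 204812) (nat_lit 9) (.e (nat_lit 426100) (nat_lit 1) (.e (nat_lit 164399) (nat_lit 256) (.e (nat_lit 57408) (nat_lit 12) (.e (nat_lit 336443) (nat_lit 32) .nil))))) (.g (nat_lit 0) (.e (nat_lit 221680) (nat_lit 0) .nil) .nil))) 
(.lf (nat_lit 520100) (.g (nat_lit 3233) (.e (nat_lit 204829) (nat_lit 18) (.e (nat_lit 57926) (nat_lit 282) (.e (nat_lit 163868) (nat_lit 2) (.e (nat_lit 196668) (nat_lit 14) (.e (nat_lit 73747) (nat_lit 3) (.e (nat_lit 516129) (nat_lit 3) (.e (nat_lit 221213) (nat_lit 23) .nil))))))) (.g (nat_lit 1) (.e (nat_lit 223560) (nat_lit 0) .nil) .nil)))))) 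
(.nd (nat_lit 7) (.nd (nat_lit 8) (.nd (nat_lit 9) 
(.lf (nat_lit 519268) (.g (nat_lit 969) (.e (nat_lit 196698) (nat_lit 19) (.e (nat_lit 57808) (nat_lit 246) (.e (nat_lit 57879) (nat_lit 270) (.e (nat_lit 496) (nat_lit 39) (.e (nat_lit 483382) (nat_lit 23) (.e (nat_lit 343808) (nat_lit 17) .nil)))))) (.g (nat_lit 1) (.e (nat_lit 220533) (nat_lit 0) .nil) .nil))) 
(.lf (nat_lit 519780) (.g (nat_lit 3567) (.e (nat_lit 204813) (nat_lit 9) (.e (nat_lit 426200) (nat_lit 9) (.e (nat_lit 426568) (nat_lit 34) (.e (nat_lit 393251) (nat_lit 18) (.e (nat_lit 164332) (nat_lit 230) (.e (nat_lit 163874) (nat_lit 3) .nil)))))) (.g (nat_lit 1) (.e (nat_lit 222217) (nat_lit 0) .nil) .nil)))) (.nd (nat_lit 9) 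
(.lf (nat_lit 519524) (.g (nat_lit 2074) (.e (nat_lit 204811) (nat_lit 9) (.e (nat_lit 426232) (nat_lit 9) (.e (nat_lit 426565) (nat_lit 34) (.e (nat_lit 393254) (nat_lit 18) (.e (nat_lit 164327) (nat_lit 230) (.e (nat_lit 163873) (nat_lit 3) .nil)))))) (.g (nat_lit 1) (.e (nat_lit 221591) (nat_lit 0) .nil) .nil))) 
(.lf (nat_lit 520036) (.g (nat_lit 1740) (.e (nat_lit 204829) (nat_lit 18) (.e (nat_lit 57847) (nat_lit 252) (.e (nat_lit 57379) (nat_lit 3) (.e (nat_lit 98340) (nat_lit 20) .nil)))) (.g (nat_lit 0) (.e (nat_lit 223484) (nat_lit 0) .nil) .nil))))) (.nd (nat_lit 8) (.nd (nat_lit 9) 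
(.lf (nat_lit 519396) (.g (nat_lit 1789) (.e (nat_lit 204809) (nat_lit 9) (.e (nat_lit 426124) (nat_lit 2) (.e (nat_lit 196624) (nat_lit 9) (.e (nat_lit 442) (nat_lit 33) (.e (nat_lit 434222) (nat_lit 19) .nil))))) (.g (nat_lit 0) (.e (nat_lit 220978) (nat_lit 0) .nil) .nil))) 
(.lf (nat_lit 519908) (.g (nat_lit 971) (.e (nat_lit 212736) (nat_lit 17) (.e (nat_lit 6666) (nat_lit 357) (.e (nat_lit 3067) (nat_lit 190) (.e (nat_lit 475184) (nat_lit 29) .nil)))) (.g (nat_lit 0) (.e (nat_lit 223309) (nat_lit 0) .nil) .nil)))) (.nd (nat_lit 9) 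
(.lf (nat_lit 519652) (.g (nat_lit 1881) (.e (nat_lit 204813) (nat_lit 9) (.e (nat_lit 426098) (nat_lit 1) (.e (nat_lit 164403) (nat_lit 256) (.e (nat_lit 57408) (nat_lit 12) (.e (nat_lit 336443) (nat_lit 32) .nil))))) (.g (nat_lit 0) (.e (nat_lit 221834) (nat_lit 0) .nil) .nil))) 
(.lf (nat_lit 520164) (.g (nat_lit 2965) (.e (nat_lit 204829) (nat_lit 18) (.e (nat_lit 57927) (nat_lit 282) (.e (nat_lit 163868) (nat_lit 2) (.e (nat_lit 196668) (nat_lit 14) (.e (nat_lit 73746) (nat_lit 3) (.e (nat_lit 516124) (nat_lit 2) (.e (nat_lit 220928) (nat_lit 9) (.e (nat_lit 2685) (nat_lit 168) .nil)))))))) (.g (nat_lit 1) (.e (nat_lit 223630) (nat_lit 0) .nil) .nil)))))))) 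
(.nd (nat_lit 5) (.nd (nat_lit 6) (.nd (nat_lit 7) (.nd (nat_lit 8) (.nd (nat_lit 9) 
(.lf (nat_lit 519188) (.g (nat_lit 3240) (.e (nat_lit 196681) (nat_lit 17) (.e (nat_lit 131120) (nat_lit 12) (.e (nat_lit 385066) (nat_lit 26) (.e (nat_lit 532513) (nat_lit 3) (.e (nat_lit 114698) (nat_lit 11) (.e (nat_lit 426124) (nat_lit 2) .nil)))))) (.g (nat_lit 1) (.e (nat_lit 220327) (nat_lit 0) .nil) .nil))) 
(.lf (nat_lit 519700) (.g (nat_lit 1726) (.e (nat_lit 204813) (nat_lit 9) (.e (nat_lit 426133) (nat_lit 3) (.e (nat_lit 204813) (nat_lit 9) (.e (nat_lit 426113) (nat_lit 2) .nil)))) (.g (nat_lit 0) (.e (nat_lit 221943) (nat_lit 0) .nil) .nil)))) (.nd (nat_lit 9) 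
(.lf (nat_lit 519444) (.g (nat_lit 3008) (.e (nat_lit 204809) (nat_lit 9) (.e (nat_lit 426188) (nat_lit 9) (.e (nat_lit 426566) (nat_lit 34) (.e (nat_lit 393254) (nat_lit 18) (.e (nat_lit 164327) (nat_lit 230) (.e (nat_lit 163873) (nat_lit 3) .nil)))))) (.g (nat_lit 1) (.e (nat_lit 221262) (nat_lit 0) .nil) .nil))) 
(.lf (nat_lit 519956) (.g (nat_lit 3450) (.e (nat_lit 204829) (nat_lit 18) (.e (nat_lit 57688) (nat_lit 156) (.e (nat_lit 163873) (nat_lit 3) (.e (nat_lit 204838) (nat_lit 20) (.e (nat_lit 114718) (nat_lit 23) (.e (nat_lit 98365) (nat_lit 26) (.e (nat_lit 426133) (nat_lit 3) .nil))))))) (.g (nat_lit 1) (.e (nat_lit 223372) (nat_lit 0) .nil) .nil))))) (.nd (nat_lit 8) (.nd (nat_lit 9) 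
(.lf (nat_lit 519316) (.g (nat_lit 1622) (.e (nat_lit 212736) (nat_lit 5) (.e (nat_lit 253992) (nat_lit 11) (.e (nat_lit 16411) (nat_lit 2) (.e (nat_lit 196668) (nat_lit 14) (.e (nat_lit 73782) (nat_lit 32) .nil))))) (.g (nat_lit 0) (.e (nat_lit 220670) (nat_lit 0) .nil) .nil))) 
(.lf (nat_lit 519828) (.g (nat_lit 1038) (.e (nat_lit 204815) (nat_lit 17) (.e (nat_lit 6724) (nat_lit 362) (.e (nat_lit 180243) (nat_lit 5) (.e (nat_lit 532566) (nat_lit 15) .nil)))) (.g (nat_lit 0) (.e (nat_lit 223003) (nat_lit 0) .nil) .nil)))) (.nd (nat_lit 9) 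
(.lf (nat_lit 519572) (.g (nat_lit 1984) (.e (nat_lit 204812) (nat_lit 9) (.e (nat_lit 426098) (nat_lit 1) (.e (nat_lit 164399) (nat_lit 256) (.e (nat_lit 57407) (nat_lit 12) (.e (nat_lit 336443) (nat_lit 32) .nil))))) (.g (nat_lit 0) (.e (nat_lit 221664) (nat_lit 0) .nil) .nil))) 
(.lf (nat_lit 520084) (.g (nat_lit 2659) (.e (nat_lit 204829) (nat_lit 18) (.e (nat_lit 57854) (nat_lit 252) (.e (nat_lit 57406) (nat_lit 12) (.e (nat_lit 336456) (nat_lit 34) (.e (nat_lit 483391) (nat_lit 23) (.e (nat_lit 336323) (nat_lit 18) .nil)))))) (.g (nat_lit 1) (.e (nat_lit 223542) (nat_lit 0) .nil) .nil)))))) (.nd (nat_lit 7) (.nd (nat_lit 8) (.nd (nat_lit 9) 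
(.lf (nat_lit 519252) (.g (nat_lit 785) (.e (nat_lit 196683) (nat_lit 18) (.e (nat_lit 1374) (nat_lit 104) (.e (nat_lit 303145) (nat_lit 13) .nil))) (.g (nat_lit 0) (.e (nat_lit 220490) (nat_lit 0) .nil) .nil))) 
(.lf (nat_lit 519764) (.g (nat_lit 2436) (.e (nat_lit 204813) (nat_lit 9) (.e (nat_lit 426200) (nat_lit 9) (.e (nat_lit 426484) (nat_lit 27) (.e (nat_lit 336407) (nat_lit 27) (.e (nat_lit 426098) (nat_lit 1) (.e (nat_lit 164327) (nat_lit 230) (.e (nat_lit 163875) (nat_lit 3) .nil))))))) (.g (nat_lit 1) (.e (nat_lit 222198) (nat_lit 0) .nil) .nil)))) (.nd (nat_lit 9) 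
(.lf (nat_lit 519508) (.g (nat_lit 1758) (.e (nat_lit 204811) (nat_lit 9) (.e (nat_lit 426230) (nat_lit 9) (.e (nat_lit 426565) (nat_lit 34) (.e (nat_lit 393254) (nat_lit 18) (.e (nat_lit 164325) (nat_lit 230) (.e (nat_lit 163873) (nat_lit 3) .nil)))))) (.g (nat_lit 1) (.e (nat_lit 221575) (nat_lit 0) .nil) .nil))) 
(.lf (nat_lit 520020) (.g (nat_lit 2267) (.e (nat_lit 204829) (nat_lit 18) (.e (nat_lit 57692) (nat_lit 156) (.e (nat_lit 163905) (nat_lit 12) (.e (nat_lit 426568) (nat_lit 34) (.e (nat_lit 393277) (nat_lit 23) (.e (nat_lit 426135) (nat_lit 3) .nil)))))) (.g (nat_lit 1) (.e (nat_lit 223460) (nat_lit 0) .nil) .nil))))) (.nd (nat_lit 8) (.nd (nat_lit 9) 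
(.lf (nat_lit 519380) (.g (nat_lit 1254) (.e (nat_lit 204809) (nat_lit 9) (.e (nat_lit 426116) (nat_lit 2) (.e (nat_lit 196653) (nat_lit 11) (.e (nat_lit 16410) (nat_lit 2) (.e (nat_lit 196654) (nat_lit 11) .nil))))) (.g (nat_lit 0) (.e (nat_lit 220903) (nat_lit 0) .nil) .nil))) 
(.lf (nat_lit 519892) (.g (nat_lit 3738) (.e (nat_lit 204821) (nat_lit 17) (.e (nat_lit 2151) (nat_lit 142) (.e (nat_lit 704738) (nat_lit 11) (.e (nat_lit 16416) (nat_lit 3) (.e (nat_lit 204866) (nat_lit 28) .nil))))) (.g (nat_lit 0) (.e (nat_lit 223283) (nat_lit 0) .nil) .nil)))) (.nd (nat_lit 9) 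
(.lf (nat_lit 519636) (.g (nat_lit 3058) (.e (nat_lit 204812) (nat_lit 9) (.e (nat_lit 426190) (nat_lit 9) (.e (nat_lit 426566) (nat_lit 34) (.e (nat_lit 393253) (nat_lit 18) (.e (nat_lit 164332) (nat_lit 230) (.e (nat_lit 163874) (nat_lit 3) .nil)))))) (.g (nat_lit 1) (.e (nat_lit 221756) (nat_lit 0) .nil) .nil))) 
(.lf (nat_lit 520148) (.g (nat_lit 2395) (.e (nat_lit 204829) (nat_lit 18) (.e (nat_lit 57927) (nat_lit 282) (.e (nat_lit 163867) (nat_lit 2) (.e (nat_lit 196668) (nat_lit 14) (.e (nat_lit 73746) (nat_lit 3) .nil))))) (.g (nat_lit 0) (.e (nat_lit 223614) (nat_lit 0) .nil) .nil))))))) (.nd (nat_lit 6) (.nd (nat_lit 7) (.nd (nat_lit 8) (.nd (nat_lit 9) 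
(.lf (nat_lit 519220) (.g (nat_lit 2742) (.e (nat_lit 196681) (nat_lit 17) (.e (nat_lit 131123) (nat_lit 12) (.e (nat_lit 385066) (nat_lit 26) (.e (nat_lit 532515) (nat_lit 3) (.e (nat_lit 114694) (nat_lit 11) (.e (nat_lit 426124) (nat_lit 2) .nil)))))) (.g (nat_lit 1) (.e (nat_lit 220387) (nat_lit 0) .nil) .nil))) 
(.lf (nat_lit 519732) (.g (nat_lit 1828) (.e (nat_lit 204813) (nat_lit 9) (.e (nat_lit 426197) (nat_lit 9) (.e (nat_lit 426568) (nat_lit 34) (.e (nat_lit 393251) (nat_lit 18) (.e (nat_lit 164327) (nat_lit 230) .nil))))) (.g (nat_lit 0) (.e (nat_lit 222073) (nat_lit 0) .nil) .nil)))) (.nd (nat_lit 9) 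
(.lf (nat_lit 519476) (.g (nat_lit 2923) (.e (nat_lit 204809) (nat_lit 9) (.e (nat_lit 426200) (nat_lit 9) (.e (nat_lit 426566) (nat_lit 34) (.e (nat_lit 393251) (nat_lit 18) (.e (nat_lit 164327) (nat_lit 230) (.e (nat_lit 163873) (nat_lit 3) .nil)))))) (.g (nat_lit 1) (.e (nat_lit 221361) (nat_lit 0) .nil) .nil))) 
(.lf (nat_lit 519988) (.g (nat_lit 1295) (.e (nat_lit 204829) (nat_lit 18) (.e (nat_lit 57688) (nat_lit 156) (.e (nat_lit 163908) (nat_lit 12) (.e (nat_lit 426528) (nat_lit 27) .nil)))) (.g (nat_lit 0) (.e (nat_lit 223409) (nat_lit 0) .nil) .nil))))) (.nd (nat_lit 8) (.nd (nat_lit 9) 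
(.lf (nat_lit 519348) (.g (nat_lit 726) (.e (nat_lit 204808) (nat_lit 9) (.e (nat_lit 426121) (nat_lit 2) (.e (nat_lit 196654) (nat_lit 11) (.e (nat_lit 16416) (nat_lit 3) .nil)))) (.g (nat_lit 0) (.e (nat_lit 220718) (nat_lit 0) .nil) .nil))) 
(.lf (nat_lit 519860) (.g (nat_lit 454) (.e (nat_lit 204816) (nat_lit 17) (.e (nat_lit 6724) (nat_lit 362) (.e (nat_lit 180251) (nat_lit 10) .nil))) (.g (nat_lit 0) (.e (nat_lit 223175) (nat_lit 0) .nil) .nil)))) (.nd (nat_lit 9) 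
(.lf (nat_lit 519604) (.g (nat_lit 2368) (.e (nat_lit 204812) (nat_lit 9) (.e (nat_lit 426107) (nat_lit 1) (.e (nat_lit 164403) (nat_lit 256) (.e (nat_lit 57445) (nat_lit 19) (.e (nat_lit 393281) (nat_lit 23) .nil))))) (.g (nat_lit 0) (.e (nat_lit 221697) (nat_lit 0) .nil) .nil))) 
(.lf (nat_lit 520116) (.g (nat_lit 5222) (.e (nat_lit 204829) (nat_lit 18) (.e (nat_lit 57926) (nat_lit 282) (.e (nat_lit 163869) (nat_lit 2) (.e (nat_lit 196670) (nat_lit 14) (.e (nat_lit 73746) (nat_lit 3) (.e (nat_lit 516129) (nat_lit 3) (.e (nat_lit 221214) (nat_lit 23) .nil))))))) (.g (nat_lit 1) (.e (nat_lit 223577) (nat_lit 0) .nil) .nil)))))) 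
(.nd (nat_lit 7) (.nd (nat_lit 8) (.nd (nat_lit 9) 
(.lf (nat_lit 519284) (.g (nat_lit 1714) (.e (nat_lit 196698) (nat_lit 19) (.e (nat_lit 57811) (nat_lit 246) (.e (nat_lit 57879) (nat_lit 270) (.e (nat_lit 371) (nat_lit 32) (.e (nat_lit 426542) (nat_lit 29) (.e (nat_lit 360192) (nat_lit 2) .nil)))))) (.g (nat_lit 1) (.e (nat_lit 220549) (nat_lit 0) .nil) .nil))) 
(.lf (nat_lit 519796) (.g (nat_lit 2998) (.e (nat_lit 212736) (nat_lit 9) (.e (nat_lit 426125) (nat_lit 2) (.e (nat_lit 196656) (nat_lit 11) (.e (nat_lit 16412) (nat_lit 2) (.e (nat_lit 196656) (nat_lit 11) .nil))))) (.g (nat_lit 0) (.e (nat_lit 222455) (nat_lit 0) .nil) .nil)))) (.nd (nat_lit 9) 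
(.lf (nat_lit 519540) (.g (nat_lit 2307) (.e (nat_lit 204811) (nat_lit 9) (.e (nat_lit 426260) (nat_lit 9) (.e (nat_lit 426565) (nat_lit 34) (.e (nat_lit 393251) (nat_lit 18) (.e (nat_lit 164327) (nat_lit 230) (.e (nat_lit 163873) (nat_lit 3) .nil)))))) (.g (nat_lit 1) (.e (nat_lit 221628) (nat_lit 0) .nil) .nil))) 
(.lf (nat_lit 520052) (.g (nat_lit 3297) (.e (nat_lit 204829) (nat_lit 18) (.e (nat_lit 57847) (nat_lit 252) (.e (nat_lit 57411) (nat_lit 12) (.e (nat_lit 336456) (nat_lit 34) (.e (nat_lit 483346) (nat_lit 17) (.e (nat_lit 6445) (nat_lit 343) (.e (nat_lit 170) (nat_lit 12) .nil))))))) (.g (nat_lit 1) (.e (nat_lit 223502) (nat_lit 0) .nil) .nil))))) (.nd (nat_lit 8) (.nd (nat_lit 9) 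
(.lf (nat_lit 519412) (.g (nat_lit 3168) (.e (nat_lit 204809) (nat_lit 9) (.e (nat_lit 426133) (nat_lit 3) (.e (nat_lit 204809) (nat_lit 9) (.e (nat_lit 426124) (nat_lit 2) (.e (nat_lit 196656) (nat_lit 11) (.e (nat_lit 16416) (nat_lit 3) .nil)))))) (.g (nat_lit 1) (.e (nat_lit 221063) (nat_lit 0) .nil) .nil))) 
(.lf (nat_lit 519924) (.g (nat_lit 700) (.e (nat_lit 204828) (nat_lit 18) (.e (nat_lit 57852) (nat_lit 252) (.e (nat_lit 57406) (nat_lit 12) .nil))) (.g (nat_lit 0) (.e (nat_lit 223333) (nat_lit 0) .nil) .nil)))) (.nd (nat_lit 9) 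
(.lf (nat_lit 519668) (.g (nat_lit 1831) (.e (nat_lit 204813) (nat_lit 9) (.e (nat_lit 426107) (nat_lit 1) (.e (nat_lit 164403) (nat_lit 256) (.e (nat_lit 57406) (nat_lit 12) (.e (nat_lit 336444) (nat_lit 32) .nil))))) (.g (nat_lit 0) (.e (nat_lit 221850) (nat_lit 0) .nil) .nil))) 
(.lf (nat_lit 520180) (.g (nat_lit 2962) (.e (nat_lit 204829) (nat_lit 18) (.e (nat_lit 57927) (nat_lit 282) (.e (nat_lit 163868) (nat_lit 2) (.e (nat_lit 196668) (nat_lit 14) (.e (nat_lit 73747) (nat_lit 3) (.e (nat_lit 516124) (nat_lit 2) (.e (nat_lit 220928) (nat_lit 9) (.e (nat_lit 2685) (nat_lit 168) .nil)))))))) (.g (nat_lit 1) (.e (nat_lit 223646) (nat_lit 0) .nil) .nil))))))))) 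
(.nd (nat_lit 4) (.nd (nat_lit 5) (.nd (nat_lit 6) (.nd (nat_lit 7) (.nd (nat_lit 8) 
(.nd (nat_lit 9) 
(.lf (nat_lit 519180) (.g (nat_lit 1760) (.e (nat_lit 196681) (nat_lit 17) (.e (nat_lit 131119) (nat_lit 12) (.e (nat_lit 385068) (nat_lit 26) (.e (nat_lit 532513) (nat_lit 3) (.e (nat_lit 114698) (nat_lit 11) .nil))))) (.g (nat_lit 0) (.e (nat_lit 220316) (nat_lit 0) .nil) .nil))) 
(.lf (nat_lit 519692) (.g (nat_lit 1237) (.e (nat_lit 204813) (nat_lit 9) (.e (nat_lit 426124) (nat_lit 2) (.e (nat_lit 196654) (nat_lit 11) (.e (nat_lit 16412) (nat_lit 2) .nil)))) (.g (nat_lit 0) (.e (nat_lit 221912) (nat_lit 0) .nil) .nil)))) (.nd (nat_lit 9) 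
(.lf (nat_lit 519436) (.g (nat_lit 4284) (.e (nat_lit 204809) (nat_lit 9) (.e (nat_lit 426187) (nat_lit 9) (.e (nat_lit 426566) (nat_lit 34) (.e (nat_lit 393253) (nat_lit 18) (.e (nat_lit 164332) (nat_lit 230) (.e (nat_lit 163874) (nat_lit 3) .nil)))))) (.g (nat_lit 1) (.e (nat_lit 221253) (nat_lit 0) .nil) .nil))) 
(.lf (nat_lit 519948) (.g (nat_lit 1291) (.e (nat_lit 204829) (nat_lit 18) (.e (nat_lit 57686) (nat_lit 156) (.e (nat_lit 163903) (nat_lit 12) (.e (nat_lit 426478) (nat_lit 27) .nil)))) (.g (nat_lit 0) (.e (nat_lit 223361) (nat_lit 0) .nil) .nil))))) (.nd (nat_lit 8) (.nd (nat_lit 9) 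
(.lf (nat_lit 519308) (.g (nat_lit 3151) (.e (nat_lit 204803) (nat_lit 0) (.e (nat_lit 3746) (nat_lit 228) (.e (nat_lit 786456) (nat_lit 18) (.e (nat_lit 98367) (nat_lit 27) (.e (nat_lit 434248) (nat_lit 28) (.e (nat_lit 573482) (nat_lit 13) (.e (nat_lit 73472) (nat_lit 18) .nil))))))) (.g (nat_lit 1) (.e (nat_lit 220576) (nat_lit 0) .nil) .nil))) 
(.lf (nat_lit 519820) (.g (nat_lit 3712) (.e (nat_lit 204815) (nat_lit 17) (.e (nat_lit 6203) (nat_lit 332) (.e (nat_lit 2798) (nat_lit 180) (.e (nat_lit 303117) (nat_lit 2) (.e (nat_lit 196668) (nat_lit 14) (.e (nat_lit 73782) (nat_lit 32) (.e (nat_lit 2681) (nat_lit 168) .nil))))))) (.g (nat_lit 1) (.e (nat_lit 222949) (nat_lit 0) .nil) .nil)))) (.nd (nat_lit 9) 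
(.lf (nat_lit 519564) (.g (nat_lit 2091) (.e (nat_lit 204811) (nat_lit 9) (.e (nat_lit 426262) (nat_lit 9) (.e (nat_lit 426565) (nat_lit 34) (.e (nat_lit 393253) (nat_lit 18) (.e (nat_lit 164325) (nat_lit 230) (.e (nat_lit 163875) (nat_lit 3) .nil)))))) (.g (nat_lit 1) (.e (nat_lit 221652) (nat_lit 0) .nil) .nil))) 
(.lf (nat_lit 520076) (.g (nat_lit 3066) (.e (nat_lit 204829) (nat_lit 18) (.e (nat_lit 57852) (nat_lit 252) (.e (nat_lit 57406) (nat_lit 12) (.e (nat_lit 336456) (nat_lit 34) (.e (nat_lit 483380) (nat_lit 23) .nil))))) (.g (nat_lit 0) (.e (nat_lit 223533) (nat_lit 0) .nil) .nil)))))) (.nd (nat_lit 7) (.nd (nat_lit 8) (.nd (nat_lit 9) 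
(.lf (nat_lit 519244) (.g (nat_lit 3390) (.e (nat_lit 196681) (nat_lit 17) (.e (nat_lit 131125) (nat_lit 13) (.e (nat_lit 393229) (nat_lit 9) (.e (nat_lit 335988) (nat_lit 1) (.e (nat_lit 57931) (nat_lit 282) (.e (nat_lit 163869) (nat_lit 2) .nil)))))) (.g (nat_lit 1) (.e (nat_lit 220443) (nat_lit 0) .nil) .nil))) 
(.lf (nat_lit 519756) (.g (nat_lit 2456) (.e (nat_lit 204813) (nat_lit 9) (.e (nat_lit 426200) (nat_lit 9) (.e (nat_lit 426480) (nat_lit 27) (.e (nat_lit 336388) (nat_lit 27) (.e (nat_lit 426098) (nat_lit 1) (.e (nat_lit 164327) (nat_lit 230) (.e (nat_lit 163875) (nat_lit 3) .nil))))))) (.g (nat_lit 1) (.e (nat_lit 222187) (nat_lit 0) .nil) .nil)))) (.nd (nat_lit 9) 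
(.lf (nat_lit 519500) (.g (nat_lit 2235) (.e (nat_lit 204811) (nat_lit 9) (.e (nat_lit 426228) (nat_lit 9) (.e (nat_lit 426565) (nat_lit 34) (.e (nat_lit 393253) (nat_lit 18) (.e (nat_lit 164324) (nat_lit 230) (.e (nat_lit 163873) (nat_lit 3) .nil)))))) (.g (nat_lit 1) (.e (nat_lit 221567) (nat_lit 0) .nil) .nil))) 
(.lf (nat_lit 520012) (.g (nat_lit 2948) (.e (nat_lit 204829) (nat_lit 18) (.e (nat_lit 57692) (nat_lit 156) (.e (nat_lit 163875) (nat_lit 3) (.e (nat_lit 204837) (nat_lit 20) (.e (nat_lit 114718) (nat_lit 23) (.e (nat_lit 98365) (nat_lit 26) (.e (nat_lit 426138) (nat_lit 3) .nil))))))) (.g (nat_lit 1) (.e (nat_lit 223450) (nat_lit 0) .nil) .nil))))) (.nd (nat_lit 8) (.nd (nat_lit 9) 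
(.lf (nat_lit 519372) (.g (nat_lit 752) (.e (nat_lit 204809) (nat_lit 9) (.e (nat_lit 426107) (nat_lit 1) (.e (nat_lit 164319) (nat_lit 228) .nil))) (.g (nat_lit 0) (.e (nat_lit 220888) (nat_lit 0) .nil) .nil))) 
(.lf (nat_lit 519884) (.g (nat_lit 338) (.e (nat_lit 204819) (nat_lit 17) (.e (nat_lit 6212) (nat_lit 333) (.e (nat_lit 57900) (nat_lit 276) .nil))) (.g (nat_lit 0) (.e (nat_lit 223250) (nat_lit 0) .nil) .nil)))) (.nd (nat_lit 9) 
(.lf (nat_lit 519628) (.g (nat_lit 488) (.e (nat_lit 204812) (nat_lit 9) (.e (nat_lit 426188) (nat_lit 9) (.e (nat_lit 426568) (nat_lit 34) .nil))) (.g (nat_lit 0) (.e (nat_lit 221748) (nat_lit 0) .nil) .nil))) 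
(.lf (nat_lit 520140) (.g (nat_lit 2444) (.e (nat_lit 204829) (nat_lit 18) (.e (nat_lit 57927) (nat_lit 282) (.e (nat_lit 163866) (nat_lit 2) (.e (nat_lit 196670) (nat_lit 14) (.e (nat_lit 73746) (nat_lit 3) (.e (nat_lit 516124) (nat_lit 2) (.e (nat_lit 213019) (nat_lit 9) (.e (nat_lit 2675) (nat_lit 168) .nil)))))))) (.g (nat_lit 1) (.e (nat_lit 223606) (nat_lit 0) .nil) .nil))))))) 
(.nd (nat_lit 6) (.nd (nat_lit 7) (.nd (nat_lit 8) (.nd (nat_lit 9) 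
(.lf (nat_lit 519212) (.g (nat_lit 2404) (.e (nat_lit 196681) (nat_lit 17) (.e (nat_lit 131123) (nat_lit 12) (.e (nat_lit 385066) (nat_lit 26) (.e (nat_lit 532513) (nat_lit 3) (.e (nat_lit 114697) (nat_lit 11) (.e (nat_lit 426116) (nat_lit 2) .nil)))))) (.g (nat_lit 1) (.e (nat_lit 220376) (nat_lit 0) .nil) .nil))) 
(.lf (nat_lit 519724) (.g (nat_lit 2628) (.e (nat_lit 204813) (nat_lit 9) (.e (nat_lit 426190) (nat_lit 9) (.e (nat_lit 426566) (nat_lit 34) (.e (nat_lit 393251) (nat_lit 18) (.e (nat_lit 164324) (nat_lit 230) .nil))))) (.g (nat_lit 0) (.e (nat_lit 222058) (nat_lit 0) .nil) .nil)))) (.nd (nat_lit 9) 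
(.lf (nat_lit 519468) (.g (nat_lit 2106) (.e (nat_lit 204809) (nat_lit 9) (.e (nat_lit 426198) (nat_lit 9) (.e (nat_lit 426530) (nat_lit 27) (.e (nat_lit 336390) (nat_lit 27) (.e (nat_lit 426098) (nat_lit 1) .nil))))) (.g (nat_lit 0) (.e (nat_lit 221288) (nat_lit 0) .nil) .nil))) 
(.lf (nat_lit 519980) (.g (nat_lit 474) (.e (nat_lit 204829) (nat_lit 18) (.e (nat_lit 57688) (nat_lit 156) (.e (nat_lit 163907) (nat_lit 12) .nil))) (.g (nat_lit 0) (.e (nat_lit 223399) (nat_lit 0) .nil) .nil))))) (.nd (nat_lit 8) (.nd (nat_lit 9) 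
(.lf (nat_lit 519340) (.g (nat_lit 2004) (.e (nat_lit 204808) (nat_lit 9) (.e (nat_lit 426100) (nat_lit 1) (.e (nat_lit 164403) (nat_lit 256) (.e (nat_lit 57409) (nat_lit 12) .nil)))) (.g (nat_lit 0) (.e (nat_lit 220701) (nat_lit 0) .nil) .nil))) 
(.lf (nat_lit 519852) (.g (nat_lit 386) (.e (nat_lit 204816) (nat_lit 17) (.e (nat_lit 6724) (nat_lit 362) (.e (nat_lit 180243) (nat_lit 5) .nil))) (.g (nat_lit 0) (.e (nat_lit 223141) (nat_lit 0) .nil) .nil)))) (.nd (nat_lit 9) 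
(.lf (nat_lit 519596) (.g (nat_lit 1878) (.e (nat_lit 204812) (nat_lit 9) (.e (nat_lit 426100) (nat_lit 1) (.e (nat_lit 164403) (nat_lit 256) (.e (nat_lit 57409) (nat_lit 12) .nil)))) (.g (nat_lit 0) (.e (nat_lit 221688) (nat_lit 0) .nil) .nil))) 
(.lf (nat_lit 520108) (.g (nat_lit 3345) (.e (nat_lit 204829) (nat_lit 18) (.e (nat_lit 57926) (nat_lit 282) (.e (nat_lit 163869) (nat_lit 2) (.e (nat_lit 196668) (nat_lit 14) (.e (nat_lit 73747) (nat_lit 3) (.e (nat_lit 516131) (nat_lit 3) (.e (nat_lit 221213) (nat_lit 23) .nil))))))) (.g (nat_lit 1) (.e (nat_lit 223569) (nat_lit 0) .nil) .nil)))))) 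
(.nd (nat_lit 7) (.nd (nat_lit 8) (.nd (nat_lit 9) 
(.lf (nat_lit 519276) (.g (nat_lit 1668) (.e (nat_lit 196698) (nat_lit 19) (.e (nat_lit 57809) (nat_lit 246) (.e (nat_lit 57883) (nat_lit 270) (.e (nat_lit 371) (nat_lit 32) (.e (nat_lit 426555) (nat_lit 32) (.e (nat_lit 384768) (nat_lit 2) .nil)))))) (.g (nat_lit 1) (.e (nat_lit 220541) (nat_lit 0) .nil) .nil))) 
(.lf (nat_lit 519788) (.g (nat_lit 1284) (.e (nat_lit 212736) (nat_lit 9) (.e (nat_lit 426100) (nat_lit 1) (.e (nat_lit 164399) (nat_lit 256) (.e (nat_lit 57409) (nat_lit 12) .nil)))) (.g (nat_lit 0) (.e (nat_lit 222421) (nat_lit 0) .nil) .nil)))) (.nd (nat_lit 9) 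
(.lf (nat_lit 519532) (.g (nat_lit 1904) (.e (nat_lit 204811) (nat_lit 9) (.e (nat_lit 426234) (nat_lit 9) (.e (nat_lit 426565) (nat_lit 34) (.e (nat_lit 393254) (nat_lit 18) (.e (nat_lit 164332) (nat_lit 230) (.e (nat_lit 163873) (nat_lit 3) .nil)))))) (.g (nat_lit 1) (.e (nat_lit 221599) (nat_lit 0) .nil) .nil))) 
(.lf (nat_lit 520044) (.g (nat_lit 1193) (.e (nat_lit 204829) (nat_lit 18) (.e (nat_lit 57847) (nat_lit 252) (.e (nat_lit 57407) (nat_lit 12) (.e (nat_lit 336456) (nat_lit 34) .nil)))) (.g (nat_lit 0) (.e (nat_lit 223492) (nat_lit 0) .nil) .nil))))) (.nd (nat_lit 8) (.nd (nat_lit 9) 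
(.lf (nat_lit 519404) (.g (nat_lit 3140) (.e (nat_lit 204809) (nat_lit 9) (.e (nat_lit 426124) (nat_lit 2) (.e (nat_lit 196656) (nat_lit 11) (.e (nat_lit 16388) (nat_lit 0) (.e (nat_lit 3181) (nat_lit 193) .nil))))) (.g (nat_lit 0) (.e (nat_lit 221026) (nat_lit 0) .nil) .nil))) 
(.lf (nat_lit 519916) (.g (nat_lit 1997) (.e (nat_lit 204828) (nat_lit 18) (.e (nat_lit 57691) (nat_lit 156) (.e (nat_lit 163907) (nat_lit 12) (.e (nat_lit 426568) (nat_lit 34) (.e (nat_lit 393271) (nat_lit 23) .nil))))) (.g (nat_lit 0) (.e (nat_lit 223321) (nat_lit 0) .nil) .nil)))) (.nd (nat_lit 9) 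
(.lf (nat_lit 519660) (.g (nat_lit 2872) (.e (nat_lit 204813) (nat_lit 9) (.e (nat_lit 426100) (nat_lit 1) (.e (nat_lit 164403) (nat_lit 256) (.e (nat_lit 57406) (nat_lit 12) (.e (nat_lit 336444) (nat_lit 32) .nil))))) (.g (nat_lit 0) (.e (nat_lit 221842) (nat_lit 0) .nil) .nil))) 
(.lf (nat_lit 520172) (.g (nat_lit 2756) (.e (nat_lit 204829) (nat_lit 18) (.e (nat_lit 57927) (nat_lit 282) (.e (nat_lit 163868) (nat_lit 2) (.e (nat_lit 196668) (nat_lit 14) (.e (nat_lit 73747) (nat_lit 3) (.e (nat_lit 516124) (nat_lit 2) (.e (nat_lit 213000) (nat_lit 9) (.e (nat_lit 2680) (nat_lit 168) .nil)))))))) (.g (nat_lit 1) (.e (nat_lit 223638) (nat_lit 0) .nil) .nil)))))))) 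
(.nd (nat_lit 5) (.nd (nat_lit 6) (.nd (nat_lit 7) (.nd (nat_lit 8) (.nd (nat_lit 9) 
(.lf (nat_lit 519196) (.g (nat_lit 3269) (.e (nat_lit 196681) (nat_lit 17) (.e (nat_lit 131120) (nat_lit 12) (.e (nat_lit 385068) (nat_lit 26) (.e (nat_lit 532513) (nat_lit 3) (.e (nat_lit 114698) (nat_lit 11) (.e (nat_lit 426124) (nat_lit 2) .nil)))))) (.g (nat_lit 1) (.e (nat_lit 220340) (nat_lit 0) .nil) .nil))) 
(.lf (nat_lit 519708) (.g (nat_lit 3335) (.e (nat_lit 204813) (nat_lit 9) (.e (nat_lit 426139) (nat_lit 3) (.e (nat_lit 204809) (nat_lit 9) (.e (nat_lit 426116) (nat_lit 2) (.e (nat_lit 196654) (nat_lit 11) (.e (nat_lit 16416) (nat_lit 3) .nil)))))) (.g (nat_lit 1) (.e (nat_lit 221982) (nat_lit 0) .nil) .nil)))) (.nd (nat_lit 9) 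
(.lf (nat_lit 519452) (.g (nat_lit 2906) (.e (nat_lit 204809) (nat_lit 9) (.e (nat_lit 426188) (nat_lit 9) (.e (nat_lit 426568) (nat_lit 34) (.e (nat_lit 393253) (nat_lit 18) (.e (nat_lit 164331) (nat_lit 230) (.e (nat_lit 163873) (nat_lit 3) .nil)))))) (.g (nat_lit 1) (.e (nat_lit 221271) (nat_lit 0) .nil) .nil))) 
(.lf (nat_lit 519964) (.g (nat_lit 2055) (.e (nat_lit 204829) (nat_lit 18) (.e (nat_lit 57688) (nat_lit 156) (.e (nat_lit 163902) (nat_lit 12) (.e (nat_lit 426567) (nat_lit 34) .nil)))) (.g (nat_lit 0) (.e (nat_lit 223381) (nat_lit 0) .nil) .nil))))) (.nd (nat_lit 8) (.nd (nat_lit 9) 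
(.lf (nat_lit 519324) (.g (nat_lit 2353) (.e (nat_lit 204808) (nat_lit 9) (.e (nat_lit 426100) (nat_lit 1) (.e (nat_lit 164398) (nat_lit 256) (.e (nat_lit 57406) (nat_lit 12) (.e (nat_lit 336443) (nat_lit 32) .nil))))) (.g (nat_lit 0) (.e (nat_lit 220685) (nat_lit 0) .nil) .nil))) 
(.lf (nat_lit 519836) (.g (nat_lit 441) (.e (nat_lit 204815) (nat_lit 17) (.e (nat_lit 6724) (nat_lit 362) (.e (nat_lit 180252) (nat_lit 10) .nil))) (.g (nat_lit 0) (.e (nat_lit 223048) (nat_lit 0) .nil) .nil)))) (.nd (nat_lit 9) 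
(.lf (nat_lit 519580) (.g (nat_lit 2578) (.e (nat_lit 204812) (nat_lit 9) (.e (nat_lit 426100) (nat_lit 1) (.e (nat_lit 164398) (nat_lit 256) (.e (nat_lit 57407) (nat_lit 12) (.e (nat_lit 336426) (nat_lit 29) .nil))))) (.g (nat_lit 0) (.e (nat_lit 221672) (nat_lit 0) .nil) .nil))) 
(.lf (nat_lit 520092) (.g (nat_lit 2658) (.e (nat_lit 204829) (nat_lit 18) (.e (nat_lit 57925) (nat_lit 282) (.e (nat_lit 163871) (nat_lit 2) (.e (nat_lit 196668) (nat_lit 14) (.e (nat_lit 73747) (nat_lit 3) (.e (nat_lit 516124) (nat_lit 2) (.e (nat_lit 213013) (nat_lit 9) (.e (nat_lit 2684) (nat_lit 168) .nil)))))))) (.g (nat_lit 1) (.e (nat_lit 223552) (nat_lit 0) .nil) .nil)))))) 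
(.nd (nat_lit 7) (.nd (nat_lit 8) (.nd (nat_lit 9) 
(.lf (nat_lit 519260) (.g (nat_lit 932) (.e (nat_lit 204544) (nat_lit 18) (.e (nat_lit 2796) (nat_lit 180) (.e (nat_lit 303133) (nat_lit 9) (.e (nat_lit 426412) (nat_lit 15) .nil)))) (.g (nat_lit 0) (.e (nat_lit 220500) (nat_lit 0) .nil) .nil))) 
(.lf (nat_lit 519772) (.g (nat_lit 3818) (.e (nat_lit 204813) (nat_lit 9) (.e (nat_lit 426200) (nat_lit 9) (.e (nat_lit 426566) (nat_lit 34) (.e (nat_lit 393253) (nat_lit 18) (.e (nat_lit 164325) (nat_lit 230) (.e (nat_lit 163875) (nat_lit 3) .nil)))))) (.g (nat_lit 1) (.e (nat_lit 222206) (nat_lit 0) .nil) .nil)))) (.nd (nat_lit 9) 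
(.lf (nat_lit 519516) (.g (nat_lit 2175) (.e (nat_lit 204811) (nat_lit 9) (.e (nat_lit 426232) (nat_lit 9) (.e (nat_lit 426565) (nat_lit 34) (.e (nat_lit 393253) (nat_lit 18) (.e (nat_lit 164325) (nat_lit 230) (.e (nat_lit 163875) (nat_lit 3) .nil)))))) (.g (nat_lit 1) (.e (nat_lit 221583) (nat_lit 0) .nil) .nil))) 
(.lf (nat_lit 520028) (.g (nat_lit 3143) (.e (nat_lit 204829) (nat_lit 18) (.e (nat_lit 57846) (nat_lit 252) (.e (nat_lit 57406) (nat_lit 12) (.e (nat_lit 336454) (nat_lit 34) (.e (nat_lit 483383) (nat_lit 23) .nil))))) (.g (nat_lit 0) (.e (nat_lit 223476) (nat_lit 0) .nil) .nil))))) (.nd (nat_lit 8) (.nd (nat_lit 9) 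
(.lf (nat_lit 519388) (.g (nat_lit 2255) (.e (nat_lit 204809) (nat_lit 9) (.e (nat_lit 426116) (nat_lit 2) (.e (nat_lit 196656) (nat_lit 11) (.e (nat_lit 16416) (nat_lit 3) (.e (nat_lit 204809) (nat_lit 9) .nil))))) (.g (nat_lit 0) (.e (nat_lit 220946) (nat_lit 0) .nil) .nil))) 
(.lf (nat_lit 519900) (.g (nat_lit 3786) (.e (nat_lit 204821) (nat_lit 17) (.e (nat_lit 6676) (nat_lit 357) (.e (nat_lit 3067) (nat_lit 190) (.e (nat_lit 475184) (nat_lit 29) (.e (nat_lit 557109) (nat_lit 15) (.e (nat_lit 188452) (nat_lit 23) .nil)))))) (.g (nat_lit 1) (.e (nat_lit 223299) (nat_lit 0) .nil) .nil)))) (.nd (nat_lit 9) 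
(.lf (nat_lit 519644) (.g (nat_lit 2368) (.e (nat_lit 204813) (nat_lit 9) (.e (nat_lit 426098) (nat_lit 1) (.e (nat_lit 164398) (nat_lit 256) (.e (nat_lit 57407) (nat_lit 12) (.e (nat_lit 336443) (nat_lit 32) .nil))))) (.g (nat_lit 0) (.e (nat_lit 221826) (nat_lit 0) .nil) .nil))) 
(.lf (nat_lit 520156) (.g (nat_lit 2972) (.e (nat_lit 204829) (nat_lit 18) (.e (nat_lit 57927) (nat_lit 282) (.e (nat_lit 163868) (nat_lit 2) (.e (nat_lit 196668) (nat_lit 14) (.e (nat_lit 73746) (nat_lit 3) (.e (nat_lit 516124) (nat_lit 2) (.e (nat_lit 213000) (nat_lit 9) (.e (nat_lit 2680) (nat_lit 168) .nil)))))))) (.g (nat_lit 1) (.e (nat_lit 223622) (nat_lit 0) .nil) .nil))))))) 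
(.nd (nat_lit 6) (.nd (nat_lit 7) (.nd (nat_lit 8) (.nd (nat_lit 9) 
(.lf (nat_lit 519228) (.g (nat_lit 1301) (.e (nat_lit 196681) (nat_lit 17) (.e (nat_lit 131123) (nat_lit 12) (.e (nat_lit 385068) (nat_lit 26) (.e (nat_lit 532489) (nat_lit 0) .nil)))) (.g (nat_lit 0) (.e (nat_lit 220396) (nat_lit 0) .nil) .nil))) 
(.lf (nat_lit 519740) (.g (nat_lit 2769) (.e (nat_lit 204813) (nat_lit 9) (.e (nat_lit 426198) (nat_lit 9) (.e (nat_lit 426566) (nat_lit 34) (.e (nat_lit 393254) (nat_lit 18) (.e (nat_lit 164324) (nat_lit 230) .nil))))) (.g (nat_lit 0) (.e (nat_lit 222096) (nat_lit 0) .nil) .nil)))) (.nd (nat_lit 9) 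
(.lf (nat_lit 519484) (.g (nat_lit 3085) (.e (nat_lit 204809) (nat_lit 9) (.e (nat_lit 426200) (nat_lit 9) (.e (nat_lit 426568) (nat_lit 34) (.e (nat_lit 393253) (nat_lit 18) (.e (nat_lit 164327) (nat_lit 230) (.e (nat_lit 163873) (nat_lit 3) .nil)))))) (.g (nat_lit 1) (.e (nat_lit 221369) (nat_lit 0) .nil) .nil))) 
(.lf (nat_lit 519996) (.g (nat_lit 1424) (.e (nat_lit 204829) (nat_lit 18) (.e (nat_lit 57691) (nat_lit 156) (.e (nat_lit 163905) (nat_lit 12) (.e (nat_lit 426484) (nat_lit 27) .nil)))) (.g (nat_lit 0) (.e (nat_lit 223424) (nat_lit 0) .nil) .nil))))) (.nd (nat_lit 8) (.nd (nat_lit 9) 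
(.lf (nat_lit 519356) (.g (nat_lit 2069) (.e (nat_lit 204809) (nat_lit 9) (.e (nat_lit 426098) (nat_lit 1) (.e (nat_lit 164402) (nat_lit 256) (.e (nat_lit 57406) (nat_lit 12) (.e (nat_lit 336443) (nat_lit 32) .nil))))) (.g (nat_lit 0) (.e (nat_lit 220869) (nat_lit 0) .nil) .nil))) 
(.lf (nat_lit 519868) (.g (nat_lit 2086) (.e (nat_lit 204816) (nat_lit 17) (.e (nat_lit 6724) (nat_lit 362) (.e (nat_lit 180252) (nat_lit 10) (.e (nat_lit 573471) (nat_lit 11) (.e (nat_lit 16442) (nat_lit 9) (.e (nat_lit 426135) (nat_lit 3) .nil)))))) (.g (nat_lit 1) (.e (nat_lit 223215) (nat_lit 0) .nil) .nil)))) (.nd (nat_lit 9) 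
(.lf (nat_lit 519612) (.g (nat_lit 1733) (.e (nat_lit 204812) (nat_lit 9) (.e (nat_lit 426116) (nat_lit 2) (.e (nat_lit 196656) (nat_lit 11) (.e (nat_lit 16412) (nat_lit 2) .nil)))) (.g (nat_lit 0) (.e (nat_lit 221707) (nat_lit 0) .nil) .nil))) 
(.lf (nat_lit 520124) (.g (nat_lit 2585) (.e (nat_lit 204829) (nat_lit 18) (.e (nat_lit 57926) (nat_lit 282) (.e (nat_lit 163871) (nat_lit 2) (.e (nat_lit 196670) (nat_lit 14) (.e (nat_lit 73746) (nat_lit 3) (.e (nat_lit 516129) (nat_lit 3) (.e (nat_lit 221213) (nat_lit 23) .nil))))))) (.g (nat_lit 1) (.e (nat_lit 223585) (nat_lit 0) .nil) .nil)))))) 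
(.nd (nat_lit 7) (.nd (nat_lit 8) (.nd (nat_lit 9) 
(.lf (nat_lit 519292) (.g (nat_lit 1182) (.e (nat_lit 196698) (nat_lit 19) (.e (nat_lit 57811) (nat_lit 246) (.e (nat_lit 57883) (nat_lit 270) (.e (nat_lit 496) (nat_lit 39) (.e (nat_lit 483382) (nat_lit 23) (.e (nat_lit 343808) (nat_lit 17) .nil)))))) (.g (nat_lit 1) (.e (nat_lit 220557) (nat_lit 0) .nil) .nil))) 
(.lf (nat_lit 519804) (.g (nat_lit 381) (.e (nat_lit 212736) (nat_lit 9) (.e (nat_lit 426230) (nat_lit 9) (.e (nat_lit 426565) (nat_lit 34) (.e (nat_lit 401152) (nat_lit 3) .nil)))) (.g (nat_lit 0) (.e (nat_lit 222491) (nat_lit 0) .nil) .nil)))) (.nd (nat_lit 9) 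
(.lf (nat_lit 519548) (.g (nat_lit 2459) (.e (nat_lit 204811) (nat_lit 9) (.e (nat_lit 426260) (nat_lit 9) (.e (nat_lit 426565) (nat_lit 34) (.e (nat_lit 393253) (nat_lit 18) (.e (nat_lit 164332) (nat_lit 230) (.e (nat_lit 163874) (nat_lit 3) .nil)))))) (.g (nat_lit 1) (.e (nat_lit 221636) (nat_lit 0) .nil) .nil))) 
(.lf (nat_lit 520060) (.g (nat_lit 2498) (.e (nat_lit 204829) (nat_lit 18) (.e (nat_lit 57849) (nat_lit 252) (.e (nat_lit 57377) (nat_lit 3) (.e (nat_lit 98313) (nat_lit 9) (.e (nat_lit 336027) (nat_lit 3) (.e (nat_lit 98337) (nat_lit 19) (.e (nat_lit 213009) (nat_lit 9) (.e (nat_lit 2680) (nat_lit 168) .nil)))))))) (.g (nat_lit 1) (.e (nat_lit 223514) (nat_lit 0) .nil) .nil))))) 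
(.nd (nat_lit 8) (.nd (nat_lit 9) 
(.lf (nat_lit 519420) (.g (nat_lit 2786) (.e (nat_lit 204809) (nat_lit 9) (.e (nat_lit 426139) (nat_lit 3) (.e (nat_lit 204812) (nat_lit 9) (.e (nat_lit 426116) (nat_lit 2) (.e (nat_lit 196654) (nat_lit 11) (.e (nat_lit 16416) (nat_lit 3) .nil)))))) (.g (nat_lit 1) (.e (nat_lit 221159) (nat_lit 0) .nil) .nil))) 
(.lf (nat_lit 519932) (.g (nat_lit 1954) (.e (nat_lit 204828) (nat_lit 18) (.e (nat_lit 57927) (nat_lit 282) (.e (nat_lit 163869) (nat_lit 2) (.e (nat_lit 196668) (nat_lit 14) (.e (nat_lit 73747) (nat_lit 3) .nil))))) (.g (nat_lit 0) (.e (nat_lit 223341) (nat_lit 0) .nil) .nil)))) (.nd (nat_lit 9) 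
(.lf (nat_lit 519676) (.g (nat_lit 1196) (.e (nat_lit 204813) (nat_lit 9) (.e (nat_lit 426115) (nat_lit 2) (.e (nat_lit 196656) (nat_lit 11) (.e (nat_lit 16412) (nat_lit 2) .nil)))) (.g (nat_lit 0) (.e (nat_lit 221863) (nat_lit 0) .nil) .nil))) 
(.lf (nat_lit 520188) (.g (nat_lit 3420) (.e (nat_lit 204829) (nat_lit 18) (.e (nat_lit 57927) (nat_lit 282) (.e (nat_lit 163868) (nat_lit 2) (.e (nat_lit 196670) (nat_lit 14) (.e (nat_lit 73746) (nat_lit 3) (.e (nat_lit 516124) (nat_lit 2) (.e (nat_lit 213019) (nat_lit 9) (.e (nat_lit 2675) (nat_lit 168) .nil)))))))) (.g (nat_lit 1) (.e (nat_lit 223654) (nat_lit 0) .nil) .nil))))))))))) 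
(.nd (nat_lit 2) (.nd (nat_lit 3) (.nd (nat_lit 4) (.nd (nat_lit 5) (.nd (nat_lit 6) 
(.nd (nat_lit 7) (.nd (nat_lit 8) (.nd (nat_lit 9) 
(.lf (nat_lit 519170) (.g (nat_lit 2778) (.e (nat_lit 196681) (nat_lit 17) (.e (nat_lit 131109) (nat_lit 9) (.e (nat_lit 336324) (nat_lit 18) (.e (nat_lit 204838) (nat_lit 20) (.e (nat_lit 114698) (nat_lit 11) (.e (nat_lit 426113) (nat_lit 2) .nil)))))) (.g (nat_lit 1) (.e (nat_lit 220262) (nat_lit 0) .nil) .nil))) 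
(.lf (nat_lit 519682) (.g (nat_lit 2058) (.e (nat_lit 204813) (nat_lit 9) (.e (nat_lit 426116) (nat_lit 2) (.e (nat_lit 196656) (nat_lit 11) (.e (nat_lit 16413) (nat_lit 2) (.e (nat_lit 196654) (nat_lit 11) .nil))))) (.g (nat_lit 0) (.e (nat_lit 221879) (nat_lit 0) .nil) .nil)))) (.nd (nat_lit 9) 
(.lf (nat_lit 519426) (.g (nat_lit 870) (.e (nat_lit 204809) (nat_lit 9) (.e (nat_lit 426139) (nat_lit 3) (.e (nat_lit 204844) (nat_lit 23) .nil))) (.g (nat_lit 0) (.e (nat_lit 221242) (nat_lit 0) .nil) .nil))) 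
(.lf (nat_lit 519938) (.g (nat_lit 3390) (.e (nat_lit 204828) (nat_lit 18) (.e (nat_lit 57931) (nat_lit 282) (.e (nat_lit 163869) (nat_lit 2) (.e (nat_lit 196668) (nat_lit 14) (.e (nat_lit 73746) (nat_lit 3) (.e (nat_lit 516131) (nat_lit 3) (.e (nat_lit 221215) (nat_lit 23) .nil))))))) (.g (nat_lit 1) (.e (nat_lit 223347) (nat_lit 0) .nil) .nil))))) (.nd (nat_lit 8) (.nd (nat_lit 9) 
(.lf (nat_lit 519298) (.g (nat_lit 1526) (.e (nat_lit 196698) (nat_lit 19) (.e (nat_lit 57816) (nat_lit 246) (.e (nat_lit 57878) (nat_lit 270) (.e (nat_lit 371) (nat_lit 32) (.e (nat_lit 426540) (nat_lit 29) (.e (nat_lit 360192) (nat_lit 2) .nil)))))) (.g (nat_lit 1) (.e (nat_lit 220563) (nat_lit 0) .nil) .nil))) 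
(.lf (nat_lit 519810) (.g (nat_lit 727) (.e (nat_lit 212736) (nat_lit 15) (.e (nat_lit 475212) (nat_lit 42) (.e (nat_lit 720930) (nat_lit 21) .nil))) (.g (nat_lit 0) (.e (nat_lit 222858) (nat_lit 0) .nil) .nil)))) (.nd (nat_lit 9) 
(.lf (nat_lit 519554) (.g (nat_lit 2352) (.e (nat_lit 204811) (nat_lit 9) (.e (nat_lit 426261) (nat_lit 9) (.e (nat_lit 426565) (nat_lit 34) (.e (nat_lit 393253) (nat_lit 18) (.e (nat_lit 164324) (nat_lit 230) (.e (nat_lit 163873) (nat_lit 3) .nil)))))) (.g (nat_lit 1) (.e (nat_lit 221642) (nat_lit 0) .nil) .nil))) 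
(.lf (nat_lit 520066) (.g (nat_lit 2305) (.e (nat_lit 204829) (nat_lit 18) (.e (nat_lit 57849) (nat_lit 252) (.e (nat_lit 57407) (nat_lit 12) (.e (nat_lit 336367) (nat_lit 27) (.e (nat_lit 426530) (nat_lit 27) .nil))))) (.g (nat_lit 0) (.e (nat_lit 223523) (nat_lit 0) .nil) .nil)))))) (.nd (nat_lit 7) (.nd (nat_lit 8) (.nd (nat_lit 9) 
(.lf (nat_lit 519234) (.g (nat_lit 2359) (.e (nat_lit 196681) (nat_lit 17) (.e (nat_lit 131123) (nat_lit 12) (.e (nat_lit 385068) (nat_lit 26) (.e (nat_lit 532515) (nat_lit 3) (.e (nat_lit 114697) (nat_lit 11) (.e (nat_lit 426114) (nat_lit 2) .nil)))))) (.g (nat_lit 1) (.e (nat_lit 220405) (nat_lit 0) .nil) .nil))) 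
(.lf (nat_lit 519746) (.g (nat_lit 2325) (.e (nat_lit 204813) (nat_lit 9) (.e (nat_lit 426198) (nat_lit 9) (.e (nat_lit 426568) (nat_lit 34) (.e (nat_lit 393252) (nat_lit 18) (.e (nat_lit 164331) (nat_lit 230) .nil))))) (.g (nat_lit 0) (.e (nat_lit 222102) (nat_lit 0) .nil) .nil)))) (.nd (nat_lit 9) 
(.lf (nat_lit 519490) (.g (nat_lit 2665) (.e (nat_lit 204809) (nat_lit 9) (.e (nat_lit 433920) (nat_lit 18) (.e (nat_lit 98366) (nat_lit 27) (.e (nat_lit 434231) (nat_lit 23) (.e (nat_lit 532513) (nat_lit 3) (.e (nat_lit 122624) (nat_lit 3) .nil)))))) (.g (nat_lit 1) (.e (nat_lit 221547) (nat_lit 0) .nil) .nil))) 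
(.lf (nat_lit 520002) (.g (nat_lit 3180) (.e (nat_lit 204829) (nat_lit 18) (.e (nat_lit 57691) (nat_lit 156) (.e (nat_lit 163907) (nat_lit 12) (.e (nat_lit 426479) (nat_lit 27) (.e (nat_lit 336443) (nat_lit 32) (.e (nat_lit 466981) (nat_lit 23) .nil)))))) (.g (nat_lit 1) (.e (nat_lit 223432) (nat_lit 0) .nil) .nil))))) (.nd (nat_lit 8) (.nd (nat_lit 9) 
(.lf (nat_lit 519362) (.g (nat_lit 1728) (.e (nat_lit 204809) (nat_lit 9) (.e (nat_lit 426099) (nat_lit 1) (.e (nat_lit 164398) (nat_lit 256) (.e (nat_lit 57448) (nat_lit 19) (.e (nat_lit 393281) (nat_lit 23) .nil))))) (.g (nat_lit 0) (.e (nat_lit 220875) (nat_lit 0) .nil) .nil))) 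
(.lf (nat_lit 519874) (.g (nat_lit 4052) (.e (nat_lit 204819) (nat_lit 17) (.e (nat_lit 6113) (nat_lit 332) (.e (nat_lit 1374) (nat_lit 104) (.e (nat_lit 303117) (nat_lit 2) (.e (nat_lit 196661) (nat_lit 12) (.e (nat_lit 57712) (nat_lit 176) (.e (nat_lit 1374) (nat_lit 104) (.e (nat_lit 303119) (nat_lit 3) .nil)))))))) (.g (nat_lit 1) (.e (nat_lit 223233) (nat_lit 0) .nil) .nil)))) 
(.nd (nat_lit 9) 
(.lf (nat_lit 519618) (.g (nat_lit 1992) (.e (nat_lit 204812) (nat_lit 9) (.e (nat_lit 426133) (nat_lit 3) (.e (nat_lit 204813) (nat_lit 9) (.e (nat_lit 426121) (nat_lit 2) .nil)))) (.g (nat_lit 0) (.e (nat_lit 221726) (nat_lit 0) .nil) .nil))) 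
(.lf (nat_lit 520130) (.g (nat_lit 1928) (.e (nat_lit 204829) (nat_lit 18) (.e (nat_lit 57926) (nat_lit 282) (.e (nat_lit 163875) (nat_lit 3) (.e (nat_lit 204862) (nat_lit 27) (.e (nat_lit 344117) (nat_lit 21) .nil))))) (.g (nat_lit 0) (.e (nat_lit 223592) (nat_lit 0) .nil) .nil))))))) (.nd (nat_lit 6) (.nd (nat_lit 7) (.nd (nat_lit 8) (.nd (nat_lit 9) 
(.lf (nat_lit 519202) (.g (nat_lit 3444) (.e (nat_lit 196681) (nat_lit 17) (.e (nat_lit 131120) (nat_lit 12) (.e (nat_lit 385074) (nat_lit 31) (.e (nat_lit 573485) (nat_lit 13) (.e (nat_lit 65628) (nat_lit 14) (.e (nat_lit 401425) (nat_lit 2) .nil)))))) (.g (nat_lit 1) (.e (nat_lit 220352) (nat_lit 0) .nil) .nil))) 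
(.lf (nat_lit 519714) (.g (nat_lit 3553) (.e (nat_lit 204813) (nat_lit 9) (.e (nat_lit 426139) (nat_lit 3) (.e (nat_lit 204813) (nat_lit 9) (.e (nat_lit 426124) (nat_lit 2) (.e (nat_lit 196654) (nat_lit 11) (.e (nat_lit 16416) (nat_lit 3) .nil)))))) (.g (nat_lit 1) (.e (nat_lit 221996) (nat_lit 0) .nil) .nil)))) (.nd (nat_lit 9) 
(.lf (nat_lit 519458) (.g (nat_lit 3457) (.e (nat_lit 204809) (nat_lit 9) (.e (nat_lit 426189) (nat_lit 9) (.e (nat_lit 426566) (nat_lit 34) (.e (nat_lit 393253) (nat_lit 18) (.e (nat_lit 164327) (nat_lit 230) (.e (nat_lit 163873) (nat_lit 3) .nil)))))) (.g (nat_lit 1) (.e (nat_lit 221277) (nat_lit 0) .nil) .nil))) 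
(.lf (nat_lit 519970) (.g (nat_lit 1894) (.e (nat_lit 204829) (nat_lit 18) (.e (nat_lit 57688) (nat_lit 156) (.e (nat_lit 163903) (nat_lit 12) (.e (nat_lit 426566) (nat_lit 34) (.e (nat_lit 393273) (nat_lit 23) (.e (nat_lit 433920) (nat_lit 3) .nil)))))) (.g (nat_lit 1) (.e (nat_lit 223387) (nat_lit 0) .nil) .nil))))) (.nd (nat_lit 8) (.nd (nat_lit 9) 
(.lf (nat_lit 519330) (.g (nat_lit 1746) (.e (nat_lit 204808) (nat_lit 9) (.e (nat_lit 426100) (nat_lit 1) (.e (nat_lit 164399) (nat_lit 256) (.e (nat_lit 57407) (nat_lit 12) (.e (nat_lit 336443) (nat_lit 32) .nil))))) (.g (nat_lit 0) (.e (nat_lit 220691) (nat_lit 0) .nil) .nil))) 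
(.lf (nat_lit 519842) (.g (nat_lit 3401) (.e (nat_lit 204816) (nat_lit 17) (.e (nat_lit 6203) (nat_lit 332) (.e (nat_lit 2798) (nat_lit 180) (.e (nat_lit 303117) (nat_lit 2) (.e (nat_lit 196668) (nat_lit 14) (.e (nat_lit 73782) (nat_lit 32) (.e (nat_lit 2681) (nat_lit 168) .nil))))))) (.g (nat_lit 1) (.e (nat_lit 223072) (nat_lit 0) .nil) .nil)))) (.nd (nat_lit 9) 
(.lf (nat_lit 519586) (.g (nat_lit 2078) (.e (nat_lit 204812) (nat_lit 9) (.e (nat_lit 426100) (nat_lit 1) (.e (nat_lit 164398) (nat_lit 256) (.e (nat_lit 57411) (nat_lit 12) (.e (nat_lit 336443) (nat_lit 32) .nil))))) (.g (nat_lit 0) (.e (nat_lit 221678) (nat_lit 0) .nil) .nil))) 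
(.lf (nat_lit 520098) (.g (nat_lit 3113) (.e (nat_lit 204829) (nat_lit 18) (.e (nat_lit 57926) (nat_lit 282) (.e (nat_lit 163868) (nat_lit 2) (.e (nat_lit 196668) (nat_lit 14) (.e (nat_lit 73746) (nat_lit 3) (.e (nat_lit 516129) (nat_lit 3) (.e (nat_lit 221213) (nat_lit 23) .nil))))))) (.g (nat_lit 1) (.e (nat_lit 223558) (nat_lit 0) .nil) .nil)))))) 
(.nd (nat_lit 7) (.nd (nat_lit 8) (.nd (nat_lit 9) 
(.lf (nat_lit 519266) (.g (nat_lit 1679) (.e (nat_lit 196698) (nat_lit 19) (.e (nat_lit 57808) (nat_lit 246) (.e (nat_lit 57879) (nat_lit 270) (.e (nat_lit 371) (nat_lit 32) (.e (nat_lit 426542) (nat_lit 29) (.e (nat_lit 360192) (nat_lit 2) .nil)))))) (.g (nat_lit 1) (.e (nat_lit 220531) (nat_lit 0) .nil) .nil))) 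
(.lf (nat_lit 519778) (.g (nat_lit 2445) (.e (nat_lit 204813) (nat_lit 9) (.e (nat_lit 426200) (nat_lit 9) (.e (nat_lit 426567) (nat_lit 34) (.e (nat_lit 393251) (nat_lit 18) (.e (nat_lit 164332) (nat_lit 230) .nil))))) (.g (nat_lit 0) (.e (nat_lit 222212) (nat_lit 0) .nil) .nil)))) (.nd (nat_lit 9) 
(.lf (nat_lit 519522) (.g (nat_lit 2376) (.e (nat_lit 204811) (nat_lit 9) (.e (nat_lit 426232) (nat_lit 9) (.e (nat_lit 426565) (nat_lit 34) (.e (nat_lit 393253) (nat_lit 18) (.e (nat_lit 164331) (nat_lit 230) (.e (nat_lit 163873) (nat_lit 3) .nil)))))) (.g (nat_lit 1) (.e (nat_lit 221589) (nat_lit 0) .nil) .nil))) 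
(.lf (nat_lit 520034) (.g (nat_lit 1613) (.e (nat_lit 204829) (nat_lit 18) (.e (nat_lit 57847) (nat_lit 252) (.e (nat_lit 57378) (nat_lit 3) (.e (nat_lit 98342) (nat_lit 20) .nil)))) (.g (nat_lit 0) (.e (nat_lit 223482) (nat_lit 0) .nil) .nil))))) (.nd (nat_lit 8) (.nd (nat_lit 9) 
(.lf (nat_lit 519394) (.g (nat_lit 1955) (.e (nat_lit 204809) (nat_lit 9) (.e (nat_lit 426123) (nat_lit 2) (.e (nat_lit 196656) (nat_lit 11) (.e (nat_lit 16416) (nat_lit 3) .nil)))) (.g (nat_lit 0) (.e (nat_lit 220969) (nat_lit 0) .nil) .nil))) 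
(.lf (nat_lit 519906) (.g (nat_lit 392) (.e (nat_lit 212736) (nat_lit 17) (.e (nat_lit 6113) (nat_lit 332) (.e (nat_lit 1361) (nat_lit 102) .nil))) (.g (nat_lit 0) (.e (nat_lit 223307) (nat_lit 0) .nil) .nil)))) (.nd (nat_lit 9) 
(.lf (nat_lit 519650) (.g (nat_lit 1705) (.e (nat_lit 204813) (nat_lit 9) (.e (nat_lit 426098) (nat_lit 1) (.e (nat_lit 164399) (nat_lit 256) (.e (nat_lit 57407) (nat_lit 12) (.e (nat_lit 336444) (nat_lit 32) .nil))))) (.g (nat_lit 0) (.e (nat_lit 221832) (nat_lit 0) .nil) .nil))) 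
(.lf (nat_lit 520162) (.g (nat_lit 3533) (.e (nat_lit 204829) (nat_lit 18) (.e (nat_lit 57927) (nat_lit 282) (.e (nat_lit 163868) (nat_lit 2) (.e (nat_lit 196668) (nat_lit 14) (.e (nat_lit 73746) (nat_lit 3) (.e (nat_lit 516124) (nat_lit 2) (.e (nat_lit 213019) (nat_lit 9) (.e (nat_lit 2683) (nat_lit 168) .nil)))))))) (.g (nat_lit 1) (.e (nat_lit 223628) (nat_lit 0) .nil) .nil)))))))) 
(.nd (nat_lit 5) (.nd (nat_lit 6) (.nd (nat_lit 7) (.nd (nat_lit 8) (.nd (nat_lit 9) 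
(.lf (nat_lit 519186) (.g (nat_lit 2123) (.e (nat_lit 196681) (nat_lit 17) (.e (nat_lit 131120) (nat_lit 12) (.e (nat_lit 385066) (nat_lit 26) (.e (nat_lit 532513) (nat_lit 3) (.e (nat_lit 114697) (nat_lit 11) (.e (nat_lit 426122) (nat_lit 2) .nil)))))) (.g (nat_lit 1) (.e (nat_lit 220324) (nat_lit 0) .nil) .nil))) 
(.lf (nat_lit 519698) (.g (nat_lit 3560) (.e (nat_lit 204813) (nat_lit 9) (.e (nat_lit 426124) (nat_lit 2) (.e (nat_lit 196656) (nat_lit 11) (.e (nat_lit 16412) (nat_lit 2) (.e (nat_lit 196656) (nat_lit 11) (.e (nat_lit 16415) (nat_lit 3) .nil)))))) (.g (nat_lit 1) (.e (nat_lit 221928) (nat_lit 0) .nil) .nil)))) (.nd (nat_lit 9) 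
(.lf (nat_lit 519442) (.g (nat_lit 3452) (.e (nat_lit 204809) (nat_lit 9) (.e (nat_lit 426188) (nat_lit 9) (.e (nat_lit 426566) (nat_lit 34) (.e (nat_lit 393253) (nat_lit 18) (.e (nat_lit 164327) (nat_lit 230) (.e (nat_lit 163873) (nat_lit 3) .nil)))))) (.g (nat_lit 1) (.e (nat_lit 221260) (nat_lit 0) .nil) .nil))) 
(.lf (nat_lit 519954) (.g (nat_lit 2507) (.e (nat_lit 204829) (nat_lit 18) (.e (nat_lit 57687) (nat_lit 156) (.e (nat_lit 163903) (nat_lit 12) (.e (nat_lit 426568) (nat_lit 34) (.e (nat_lit 393279) (nat_lit 23) .nil))))) (.g (nat_lit 0) (.e (nat_lit 223367) (nat_lit 0) .nil) .nil))))) (.nd (nat_lit 8) (.nd (nat_lit 9) 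
(.lf (nat_lit 519314) (.g (nat_lit 1619) (.e (nat_lit 212736) (nat_lit 5) (.e (nat_lit 253991) (nat_lit 11) (.e (nat_lit 16412) (nat_lit 2) (.e (nat_lit 196668) (nat_lit 14) .nil)))) (.g (nat_lit 0) (.e (nat_lit 220668) (nat_lit 0) .nil) .nil))) 
(.lf (nat_lit 519826) (.g (nat_lit 377) (.e (nat_lit 204815) (nat_lit 17) (.e (nat_lit 6724) (nat_lit 362) (.e (nat_lit 180243) (nat_lit 5) .nil))) (.g (nat_lit 0) (.e (nat_lit 222995) (nat_lit 0) .nil) .nil)))) (.nd (nat_lit 9) 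
(.lf (nat_lit 519570) (.g (nat_lit 2071) (.e (nat_lit 204811) (nat_lit 9) (.e (nat_lit 426262) (nat_lit 9) (.e (nat_lit 426565) (nat_lit 34) (.e (nat_lit 393254) (nat_lit 18) (.e (nat_lit 164332) (nat_lit 230) (.e (nat_lit 163874) (nat_lit 3) .nil)))))) (.g (nat_lit 1) (.e (nat_lit 221658) (nat_lit 0) .nil) .nil))) 
(.lf (nat_lit 520082) (.g (nat_lit 1401) (.e (nat_lit 204829) (nat_lit 18) (.e (nat_lit 57854) (nat_lit 252) (.e (nat_lit 57406) (nat_lit 12) (.e (nat_lit 336372) (nat_lit 27) .nil)))) (.g (nat_lit 0) (.e (nat_lit 223540) (nat_lit 0) .nil) .nil)))))) (.nd (nat_lit 7) (.nd (nat_lit 8) (.nd (nat_lit 9) 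
(.lf (nat_lit 519250) (.g (nat_lit 2652) (.e (nat_lit 196683) (nat_lit 18) (.e (nat_lit 1374) (nat_lit 104) (.e (nat_lit 303127) (nat_lit 9) (.e (nat_lit 426568) (nat_lit 34) (.e (nat_lit 393238) (nat_lit 17) .nil))))) (.g (nat_lit 0) (.e (nat_lit 220488) (nat_lit 0) .nil) .nil))) 
(.lf (nat_lit 519762) (.g (nat_lit 3242) (.e (nat_lit 204813) (nat_lit 9) (.e (nat_lit 426200) (nat_lit 9) (.e (nat_lit 426481) (nat_lit 27) (.e (nat_lit 336389) (nat_lit 27) (.e (nat_lit 426098) (nat_lit 1) (.e (nat_lit 164325) (nat_lit 230) (.e (nat_lit 163875) (nat_lit 3) .nil))))))) (.g (nat_lit 1) (.e (nat_lit 222195) (nat_lit 0) .nil) .nil)))) (.nd (nat_lit 9) 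
(.lf (nat_lit 519506) (.g (nat_lit 2412) (.e (nat_lit 204811) (nat_lit 9) (.e (nat_lit 426230) (nat_lit 9) (.e (nat_lit 426565) (nat_lit 34) (.e (nat_lit 393253) (nat_lit 18) (.e (nat_lit 164332) (nat_lit 230) (.e (nat_lit 163874) (nat_lit 3) .nil)))))) (.g (nat_lit 1) (.e (nat_lit 221573) (nat_lit 0) .nil) .nil))) 
(.lf (nat_lit 520018) (.g (nat_lit 1535) (.e (nat_lit 204829) (nat_lit 18) (.e (nat_lit 57692) (nat_lit 156) (.e (nat_lit 163905) (nat_lit 12) (.e (nat_lit 426566) (nat_lit 34) (.e (nat_lit 393276) (nat_lit 23) .nil))))) (.g (nat_lit 0) (.e (nat_lit 223458) (nat_lit 0) .nil) .nil))))) (.nd (nat_lit 8) (.nd (nat_lit 9) 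
(.lf (nat_lit 519378) (.g (nat_lit 1713) (.e (nat_lit 204809) (nat_lit 9) (.e (nat_lit 426108) (nat_lit 1) (.e (nat_lit 164403) (nat_lit 256) (.e (nat_lit 57404) (nat_lit 12) .nil)))) (.g (nat_lit 0) (.e (nat_lit 220899) (nat_lit 0) .nil) .nil))) 
(.lf (nat_lit 519890) (.g (nat_lit 1122) (.e (nat_lit 204821) (nat_lit 17) (.e (nat_lit 2088) (nat_lit 142) (.e (nat_lit 704734) (nat_lit 11) (.e (nat_lit 16412) (nat_lit 2) (.e (nat_lit 196672) (nat_lit 15) .nil))))) (.g (nat_lit 0) (.e (nat_lit 223268) (nat_lit 0) .nil) .nil)))) (.nd (nat_lit 9) 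
(.lf (nat_lit 519634) (.g (nat_lit 3109) (.e (nat_lit 204812) (nat_lit 9) (.e (nat_lit 426189) (nat_lit 9) (.e (nat_lit 426566) (nat_lit 34) (.e (nat_lit 393253) (nat_lit 18) (.e (nat_lit 164330) (nat_lit 230) (.e (nat_lit 163874) (nat_lit 3) .nil)))))) (.g (nat_lit 1) (.e (nat_lit 221754) (nat_lit 0) .nil) .nil))) 
(.lf (nat_lit 520146) (.g (nat_lit 2957) (.e (nat_lit 204829) (nat_lit 18) (.e (nat_lit 57927) (nat_lit 282) (.e (nat_lit 163866) (nat_lit 2) (.e (nat_lit 196670) (nat_lit 14) (.e (nat_lit 73746) (nat_lit 3) (.e (nat_lit 516129) (nat_lit 3) (.e (nat_lit 221213) (nat_lit 23) .nil))))))) (.g (nat_lit 1) (.e (nat_lit 223612) (nat_lit 0) .nil) .nil))))))) 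
(.nd (nat_lit 6) (.nd (nat_lit 7) (.nd (nat_lit 8) (.nd (nat_lit 9) 
(.lf (nat_lit 519218) (.g (nat_lit 2673) (.e (nat_lit 196681) (nat_lit 17) (.e (nat_lit 131123) (nat_lit 12) (.e (nat_lit 385066) (nat_lit 26) (.e (nat_lit 532513) (nat_lit 3) (.e (nat_lit 114698) (nat_lit 11) (.e (nat_lit 426121) (nat_lit 2) .nil)))))) (.g (nat_lit 1) (.e (nat_lit 220383) (nat_lit 0) .nil) .nil))) 
(.lf (nat_lit 519730) (.g (nat_lit 1812) (.e (nat_lit 204813) (nat_lit 9) (.e (nat_lit 426197) (nat_lit 9) (.e (nat_lit 426566) (nat_lit 34) (.e (nat_lit 393254) (nat_lit 18) .nil)))) (.g (nat_lit 0) (.e (nat_lit 222071) (nat_lit 0) .nil) .nil)))) (.nd (nat_lit 9) 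
(.lf (nat_lit 519474) (.g (nat_lit 2063) (.e (nat_lit 204809) (nat_lit 9) (.e (nat_lit 426200) (nat_lit 9) (.e (nat_lit 426481) (nat_lit 27) (.e (nat_lit 336389) (nat_lit 27) (.e (nat_lit 426098) (nat_lit 1) (.e (nat_lit 164327) (nat_lit 230) (.e (nat_lit 163873) (nat_lit 3) .nil))))))) (.g (nat_lit 1) (.e (nat_lit 221358) (nat_lit 0) .nil) .nil))) 
(.lf (nat_lit 519986) (.g (nat_lit 2810) (.e (nat_lit 204829) (nat_lit 18) (.e (nat_lit 57688) (nat_lit 156) (.e (nat_lit 163907) (nat_lit 12) (.e (nat_lit 426566) (nat_lit 34) (.e (nat_lit 393279) (nat_lit 23) (.e (nat_lit 426129) (nat_lit 3) .nil)))))) (.g (nat_lit 1) (.e (nat_lit 223407) (nat_lit 0) .nil) .nil))))) (.nd (nat_lit 8) (.nd (nat_lit 9) 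
(.lf (nat_lit 519346) (.g (nat_lit 458) (.e (nat_lit 204808) (nat_lit 9) (.e (nat_lit 426116) (nat_lit 2) (.e (nat_lit 196654) (nat_lit 11) .nil))) (.g (nat_lit 0) (.e (nat_lit 220712) (nat_lit 0) .nil) .nil))) 
(.lf (nat_lit 519858) (.g (nat_lit 2241) (.e (nat_lit 204816) (nat_lit 17) (.e (nat_lit 6724) (nat_lit 362) (.e (nat_lit 180250) (nat_lit 10) (.e (nat_lit 573471) (nat_lit 11) (.e (nat_lit 16442) (nat_lit 9) (.e (nat_lit 426135) (nat_lit 3) .nil)))))) (.g (nat_lit 1) (.e (nat_lit 223173) (nat_lit 0) .nil) .nil)))) (.nd (nat_lit 9) 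
(.lf (nat_lit 519602) (.g (nat_lit 2158) (.e (nat_lit 204812) (nat_lit 9) (.e (nat_lit 426107) (nat_lit 1) (.e (nat_lit 164403) (nat_lit 256) (.e (nat_lit 57409) (nat_lit 12) (.e (nat_lit 336430) (nat_lit 29) .nil))))) (.g (nat_lit 0) (.e (nat_lit 221695) (nat_lit 0) .nil) .nil))) 
(.lf (nat_lit 520114) (.g (nat_lit 2777) (.e (nat_lit 204829) (nat_lit 18) (.e (nat_lit 57926) (nat_lit 282) (.e (nat_lit 163869) (nat_lit 2) (.e (nat_lit 196670) (nat_lit 14) (.e (nat_lit 73746) (nat_lit 3) (.e (nat_lit 516127) (nat_lit 2) (.e (nat_lit 213019) (nat_lit 9) (.e (nat_lit 2683) (nat_lit 168) .nil)))))))) (.g (nat_lit 1) (.e (nat_lit 223575) (nat_lit 0) .nil) .nil)))))) 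
(.nd (nat_lit 7) (.nd (nat_lit 8) (.nd (nat_lit 9) 
(.lf (nat_lit 519282) (.g (nat_lit 2148) (.e (nat_lit 196698) (nat_lit 19) (.e (nat_lit 57810) (nat_lit 246) (.e (nat_lit 57879) (nat_lit 270) (.e (nat_lit 496) (nat_lit 39) (.e (nat_lit 483383) (nat_lit 23) (.e (nat_lit 336320) (nat_lit 17) .nil)))))) (.g (nat_lit 1) (.e (nat_lit 220547) (nat_lit 0) .nil) .nil))) 
(.lf (nat_lit 519794) (.g (nat_lit 1036) (.e (nat_lit 212736) (nat_lit 9) (.e (nat_lit 426125) (nat_lit 2) (.e (nat_lit 196656) (nat_lit 11) .nil))) (.g (nat_lit 0) (.e (nat_lit 222451) (nat_lit 0) .nil) .nil)))) (.nd (nat_lit 9) 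
(.lf (nat_lit 519538) (.g (nat_lit 2092) (.e (nat_lit 204811) (nat_lit 9) (.e (nat_lit 426260) (nat_lit 9) (.e (nat_lit 426565) (nat_lit 34) (.e (nat_lit 393251) (nat_lit 18) (.e (nat_lit 164325) (nat_lit 230) (.e (nat_lit 163873) (nat_lit 3) .nil)))))) (.g (nat_lit 1) (.e (nat_lit 221626) (nat_lit 0) .nil) .nil))) 
(.lf (nat_lit 520050) (.g (nat_lit 2161) (.e (nat_lit 204829) (nat_lit 18) (.e (nat_lit 57847) (nat_lit 252) (.e (nat_lit 57407) (nat_lit 12) (.e (nat_lit 336456) (nat_lit 34) (.e (nat_lit 483391) (nat_lit 23) (.e (nat_lit 343808) (nat_lit 18) .nil)))))) (.g (nat_lit 1) (.e (nat_lit 223498) (nat_lit 0) .nil) .nil))))) (.nd (nat_lit 8) (.nd (nat_lit 9) 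
(.lf (nat_lit 519410) (.g (nat_lit 1547) (.e (nat_lit 204809) (nat_lit 9) (.e (nat_lit 426124) (nat_lit 2) (.e (nat_lit 196656) (nat_lit 11) (.e (nat_lit 16416) (nat_lit 3) .nil)))) (.g (nat_lit 0) (.e (nat_lit 221046) (nat_lit 0) .nil) .nil))) 
(.lf (nat_lit 519922) (.g (nat_lit 2228) (.e (nat_lit 204828) (nat_lit 18) (.e (nat_lit 57849) (nat_lit 252) (.e (nat_lit 57377) (nat_lit 3) (.e (nat_lit 98313) (nat_lit 9) (.e (nat_lit 336027) (nat_lit 3) .nil))))) (.g (nat_lit 0) (.e (nat_lit 223331) (nat_lit 0) .nil) .nil)))) (.nd (nat_lit 9) 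
(.lf (nat_lit 519666) (.g (nat_lit 1150) (.e (nat_lit 204813) (nat_lit 9) (.e (nat_lit 426107) (nat_lit 1) (.e (nat_lit 164401) (nat_lit 256) (.e (nat_lit 57409) (nat_lit 12) .nil)))) (.g (nat_lit 0) (.e (nat_lit 221848) (nat_lit 0) .nil) .nil))) 
(.lf (nat_lit 520178) (.g (nat_lit 3548) (.e (nat_lit 204829) (nat_lit 18) (.e (nat_lit 57927) (nat_lit 282) (.e (nat_lit 163868) (nat_lit 2) (.e (nat_lit 196668) (nat_lit 14) (.e (nat_lit 73747) (nat_lit 3) (.e (nat_lit 516124) (nat_lit 2) (.e (nat_lit 213019) (nat_lit 9) (.e (nat_lit 2681) (nat_lit 168) .nil)))))))) (.g (nat_lit 1) (.e (nat_lit 223644) (nat_lit 0) .nil) .nil))))))))) 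
(.nd (nat_lit 4) (.nd (nat_lit 5) (.nd (nat_lit 6) (.nd (nat_lit 7) (.nd (nat_lit 8) 
(.nd (nat_lit 9) 
(.lf (nat_lit 519178) (.g (nat_lit 3738) (.e (nat_lit 196681) (nat_lit 17) (.e (nat_lit 131109) (nat_lit 9) (.e (nat_lit 336454) (nat_lit 34) (.e (nat_lit 483363) (nat_lit 18) (.e (nat_lit 57926) (nat_lit 282) (.e (nat_lit 163868) (nat_lit 2) .nil)))))) (.g (nat_lit 1) (.e (nat_lit 220311) (nat_lit 0) .nil) .nil))) 
(.lf (nat_lit 519690) (.g (nat_lit 1576) (.e (nat_lit 204813) (nat_lit 9) (.e (nat_lit 426123) (nat_lit 2) (.e (nat_lit 196656) (nat_lit 11) (.e (nat_lit 16412) (nat_lit 2) .nil)))) (.g (nat_lit 0) (.e (nat_lit 221904) (nat_lit 0) .nil) .nil)))) (.nd (nat_lit 9) 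
(.lf (nat_lit 519434) (.g (nat_lit 2715) (.e (nat_lit 204809) (nat_lit 9) (.e (nat_lit 426187) (nat_lit 9) (.e (nat_lit 426566) (nat_lit 34) (.e (nat_lit 393253) (nat_lit 18) (.e (nat_lit 164330) (nat_lit 230) (.e (nat_lit 163873) (nat_lit 3) .nil)))))) (.g (nat_lit 1) (.e (nat_lit 221251) (nat_lit 0) .nil) .nil))) 
(.lf (nat_lit 519946) (.g (nat_lit 2312) (.e (nat_lit 204829) (nat_lit 18) (.e (nat_lit 57686) (nat_lit 156) (.e (nat_lit 163902) (nat_lit 12) (.e (nat_lit 426568) (nat_lit 34) (.e (nat_lit 393277) (nat_lit 23) (.e (nat_lit 426135) (nat_lit 3) .nil)))))) (.g (nat_lit 1) (.e (nat_lit 223359) (nat_lit 0) .nil) .nil))))) (.nd (nat_lit 8) (.nd (nat_lit 9) 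
(.lf (nat_lit 519306) (.g (nat_lit 1272) (.e (nat_lit 196698) (nat_lit 19) (.e (nat_lit 57816) (nat_lit 246) (.e (nat_lit 57881) (nat_lit 270) (.e (nat_lit 496) (nat_lit 39) (.e (nat_lit 483382) (nat_lit 23) (.e (nat_lit 343808) (nat_lit 17) .nil)))))) (.g (nat_lit 1) (.e (nat_lit 220571) (nat_lit 0) .nil) .nil))) 
(.lf (nat_lit 519818) (.g (nat_lit 1091) (.e (nat_lit 204814) (nat_lit 17) (.e (nat_lit 6203) (nat_lit 332) (.e (nat_lit 2798) (nat_lit 180) (.e (nat_lit 303117) (nat_lit 2) .nil)))) (.g (nat_lit 0) (.e (nat_lit 222921) (nat_lit 0) .nil) .nil)))) (.nd (nat_lit 9) 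
(.lf (nat_lit 519562) (.g (nat_lit 2097) (.e (nat_lit 204811) (nat_lit 9) (.e (nat_lit 426262) (nat_lit 9) (.e (nat_lit 426565) (nat_lit 34) (.e (nat_lit 393252) (nat_lit 18) (.e (nat_lit 164332) (nat_lit 230) (.e (nat_lit 163874) (nat_lit 3) .nil)))))) (.g (nat_lit 1) (.e (nat_lit 221650) (nat_lit 0) .nil) .nil))) 
(.lf (nat_lit 520074) (.g (nat_lit 886) (.e (nat_lit 204829) (nat_lit 18) (.e (nat_lit 57849) (nat_lit 252) (.e (nat_lit 57411) (nat_lit 12) (.e (nat_lit 336454) (nat_lit 34) .nil)))) (.g (nat_lit 0) (.e (nat_lit 223531) (nat_lit 0) .nil) .nil)))))) (.nd (nat_lit 7) (.nd (nat_lit 8) (.nd (nat_lit 9) 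
(.lf (nat_lit 519242) (.g (nat_lit 2287) (.e (nat_lit 196681) (nat_lit 17) (.e (nat_lit 131125) (nat_lit 13) (.e (nat_lit 393225) (nat_lit 9) (.e (nat_lit 335987) (nat_lit 1) (.e (nat_lit 57927) (nat_lit 282) (.e (nat_lit 163869) (nat_lit 2) .nil)))))) (.g (nat_lit 1) (.e (nat_lit 220436) (nat_lit 0) .nil) .nil))) 
(.lf (nat_lit 519754) (.g (nat_lit 3288) (.e (nat_lit 204813) (nat_lit 9) (.e (nat_lit 426200) (nat_lit 9) (.e (nat_lit 426478) (nat_lit 27) (.e (nat_lit 336389) (nat_lit 27) (.e (nat_lit 426098) (nat_lit 1) (.e (nat_lit 164325) (nat_lit 230) (.e (nat_lit 163874) (nat_lit 3) .nil))))))) (.g (nat_lit 1) (.e (nat_lit 222184) (nat_lit 0) .nil) .nil)))) (.nd (nat_lit 9) 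
(.lf (nat_lit 519498) (.g (nat_lit 1387) (.e (nat_lit 204811) (nat_lit 9) (.e (nat_lit 426110) (nat_lit 1) (.e (nat_lit 164399) (nat_lit 256) (.e (nat_lit 57409) (nat_lit 12) .nil)))) (.g (nat_lit 0) (.e (nat_lit 221563) (nat_lit 0) .nil) .nil))) 
(.lf (nat_lit 520010) (.g (nat_lit 1738) (.e (nat_lit 204829) (nat_lit 18) (.e (nat_lit 57691) (nat_lit 156) (.e (nat_lit 163913) (nat_lit 12) (.e (nat_lit 426483) (nat_lit 27) (.e (nat_lit 336443) (nat_lit 32) .nil))))) (.g (nat_lit 0) (.e (nat_lit 223444) (nat_lit 0) .nil) .nil))))) (.nd (nat_lit 8) (.nd (nat_lit 9) 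
(.lf (nat_lit 519370) (.g (nat_lit 1607) (.e (nat_lit 204809) (nat_lit 9) (.e (nat_lit 426106) (nat_lit 1) (.e (nat_lit 164403) (nat_lit 256) (.e (nat_lit 57409) (nat_lit 12) (.e (nat_lit 336443) (nat_lit 32) .nil))))) (.g (nat_lit 0) (.e (nat_lit 220883) (nat_lit 0) .nil) .nil))) 
(.lf (nat_lit 519882) (.g (nat_lit 987) (.e (nat_lit 204819) (nat_lit 17) (.e (nat_lit 6113) (nat_lit 332) (.e (nat_lit 1361) (nat_lit 102) (.e (nat_lit 286727) (nat_lit 0) .nil)))) (.g (nat_lit 0) (.e (nat_lit 223243) (nat_lit 0) .nil) .nil)))) (.nd (nat_lit 9) 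
(.lf (nat_lit 519626) (.g (nat_lit 1999) (.e (nat_lit 204812) (nat_lit 9) (.e (nat_lit 426188) (nat_lit 9) (.e (nat_lit 426566) (nat_lit 34) (.e (nat_lit 393253) (nat_lit 18) (.e (nat_lit 164330) (nat_lit 230) .nil))))) (.g (nat_lit 0) (.e (nat_lit 221746) (nat_lit 0) .nil) .nil))) 
(.lf (nat_lit 520138) (.g (nat_lit 3101) (.e (nat_lit 204829) (nat_lit 18) (.e (nat_lit 57927) (nat_lit 282) (.e (nat_lit 163866) (nat_lit 2) (.e (nat_lit 196670) (nat_lit 14) (.e (nat_lit 73746) (nat_lit 3) (.e (nat_lit 516124) (nat_lit 2) (.e (nat_lit 213013) (nat_lit 9) (.e (nat_lit 2684) (nat_lit 168) .nil)))))))) (.g (nat_lit 1) (.e (nat_lit 223604) (nat_lit 0) .nil) .nil))))))) 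
(.nd (nat_lit 6) (.nd (nat_lit 7) (.nd (nat_lit 8) (.nd (nat_lit 9) 
(.lf (nat_lit 519210) (.g (nat_lit 1777) (.e (nat_lit 196681) (nat_lit 17) (.e (nat_lit 131123) (nat_lit 12) (.e (nat_lit 385066) (nat_lit 26) (.e (nat_lit 532513) (nat_lit 3) (.e (nat_lit 114694) (nat_lit 11) (.e (nat_lit 426116) (nat_lit 2) .nil)))))) (.g (nat_lit 1) (.e (nat_lit 220374) (nat_lit 0) .nil) .nil))) 
(.lf (nat_lit 519722) (.g (nat_lit 1760) (.e (nat_lit 204813) (nat_lit 9) (.e (nat_lit 426190) (nat_lit 9) (.e (nat_lit 426564) (nat_lit 34) (.e (nat_lit 393254) (nat_lit 18) (.e (nat_lit 164326) (nat_lit 230) (.e (nat_lit 163873) (nat_lit 3) .nil)))))) (.g (nat_lit 1) (.e (nat_lit 222054) (nat_lit 0) .nil) .nil)))) (.nd (nat_lit 9) 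
(.lf (nat_lit 519466) (.g (nat_lit 2086) (.e (nat_lit 204809) (nat_lit 9) (.e (nat_lit 426197) (nat_lit 9) (.e (nat_lit 426566) (nat_lit 34) (.e (nat_lit 393251) (nat_lit 18) (.e (nat_lit 164332) (nat_lit 230) .nil))))) (.g (nat_lit 0) (.e (nat_lit 221285) (nat_lit 0) .nil) .nil))) 
(.lf (nat_lit 519978) (.g (nat_lit 2709) (.e (nat_lit 204829) (nat_lit 18) (.e (nat_lit 57688) (nat_lit 156) (.e (nat_lit 163905) (nat_lit 12) (.e (nat_lit 426566) (nat_lit 34) (.e (nat_lit 393279) (nat_lit 23) .nil))))) (.g (nat_lit 0) (.e (nat_lit 223397) (nat_lit 0) .nil) .nil))))) (.nd (nat_lit 8) (.nd (nat_lit 9) 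
(.lf (nat_lit 519338) (.g (nat_lit 2856) (.e (nat_lit 204808) (nat_lit 9) (.e (nat_lit 426100) (nat_lit 1) (.e (nat_lit 164403) (nat_lit 256) (.e (nat_lit 57406) (nat_lit 12) (.e (nat_lit 336443) (nat_lit 32) .nil))))) (.g (nat_lit 0) (.e (nat_lit 220699) (nat_lit 0) .nil) .nil))) 
(.lf (nat_lit 519850) (.g (nat_lit 3021) (.e (nat_lit 204816) (nat_lit 17) (.e (nat_lit 6722) (nat_lit 362) (.e (nat_lit 180244) (nat_lit 5) (.e (nat_lit 532523) (nat_lit 7) (.e (nat_lit 319504) (nat_lit 10) (.e (nat_lit 5714) (nat_lit 312) (.e (nat_lit 2682) (nat_lit 168) .nil))))))) (.g (nat_lit 1) (.e (nat_lit 223095) (nat_lit 0) .nil) .nil)))) (.nd (nat_lit 9) 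
(.lf (nat_lit 519594) (.g (nat_lit 2730) (.e (nat_lit 204812) (nat_lit 9) (.e (nat_lit 426100) (nat_lit 1) (.e (nat_lit 164403) (nat_lit 256) (.e (nat_lit 57406) (nat_lit 12) (.e (nat_lit 336443) (nat_lit 32) .nil))))) (.g (nat_lit 0) (.e (nat_lit 221686) (nat_lit 0) .nil) .nil))) 
(.lf (nat_lit 520106) (.g (nat_lit 2395) (.e (nat_lit 204829) (nat_lit 18) (.e (nat_lit 57926) (nat_lit 282) (.e (nat_lit 163869) (nat_lit 2) (.e (nat_lit 196668) (nat_lit 14) (.e (nat_lit 73746) (nat_lit 3) .nil))))) (.g (nat_lit 0) (.e (nat_lit 223566) (nat_lit 0) .nil) .nil)))))) (.nd (nat_lit 7) (.nd (nat_lit 8) (.nd (nat_lit 9) 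
(.lf (nat_lit 519274) (.g (nat_lit 1574) (.e (nat_lit 196698) (nat_lit 19) (.e (nat_lit 57809) (nat_lit 246) (.e (nat_lit 57883) (nat_lit 270) (.e (nat_lit 371) (nat_lit 32) (.e (nat_lit 426540) (nat_lit 29) (.e (nat_lit 360192) (nat_lit 2) .nil)))))) (.g (nat_lit 1) (.e (nat_lit 220539) (nat_lit 0) .nil) .nil))) 
(.lf (nat_lit 519786) (.g (nat_lit 2254) (.e (nat_lit 212736) (nat_lit 9) (.e (nat_lit 426100) (nat_lit 1) (.e (nat_lit 164398) (nat_lit 256) (.e (nat_lit 57409) (nat_lit 12) (.e (nat_lit 336430) (nat_lit 29) .nil))))) (.g (nat_lit 0) (.e (nat_lit 222419) (nat_lit 0) .nil) .nil)))) (.nd (nat_lit 9) 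
(.lf (nat_lit 519530) (.g (nat_lit 1825) (.e (nat_lit 204811) (nat_lit 9) (.e (nat_lit 426234) (nat_lit 9) (.e (nat_lit 426565) (nat_lit 34) (.e (nat_lit 393254) (nat_lit 18) (.e (nat_lit 164325) (nat_lit 230) (.e (nat_lit 163873) (nat_lit 3) .nil)))))) (.g (nat_lit 1) (.e (nat_lit 221597) (nat_lit 0) .nil) .nil))) 
(.lf (nat_lit 520042) (.g (nat_lit 1643) (.e (nat_lit 204829) (nat_lit 18) (.e (nat_lit 57847) (nat_lit 252) (.e (nat_lit 57406) (nat_lit 12) (.e (nat_lit 336456) (nat_lit 34) .nil)))) (.g (nat_lit 0) (.e (nat_lit 223490) (nat_lit 0) .nil) .nil))))) (.nd (nat_lit 8) (.nd (nat_lit 9) 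
(.lf (nat_lit 519402) (.g (nat_lit 3581) (.e (nat_lit 204809) (nat_lit 9) (.e (nat_lit 426124) (nat_lit 2) (.e (nat_lit 196654) (nat_lit 11) (.e (nat_lit 16416) (nat_lit 3) (.e (nat_lit 204809) (nat_lit 9) (.e (nat_lit 426139) (nat_lit 3) .nil)))))) (.g (nat_lit 1) (.e (nat_lit 221013) (nat_lit 0) .nil) .nil))) 
(.lf (nat_lit 519914) (.g (nat_lit 1988) (.e (nat_lit 204828) (nat_lit 18) (.e (nat_lit 57691) (nat_lit 156) (.e (nat_lit 163907) (nat_lit 12) (.e (nat_lit 426479) (nat_lit 27) (.e (nat_lit 336430) (nat_lit 29) .nil))))) (.g (nat_lit 0) (.e (nat_lit 223319) (nat_lit 0) .nil) .nil)))) (.nd (nat_lit 9) 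
(.lf (nat_lit 519658) (.g (nat_lit 2090) (.e (nat_lit 204813) (nat_lit 9) (.e (nat_lit 426100) (nat_lit 1) (.e (nat_lit 164403) (nat_lit 256) (.e (nat_lit 57405) (nat_lit 12) .nil)))) (.g (nat_lit 0) (.e (nat_lit 221840) (nat_lit 0) .nil) .nil))) 
(.lf (nat_lit 520170) (.g (nat_lit 3251) (.e (nat_lit 204829) (nat_lit 18) (.e (nat_lit 57927) (nat_lit 282) (.e (nat_lit 163868) (nat_lit 2) (.e (nat_lit 196668) (nat_lit 14) (.e (nat_lit 73746) (nat_lit 3) (.e (nat_lit 516131) (nat_lit 3) (.e (nat_lit 221213) (nat_lit 23) .nil))))))) (.g (nat_lit 1) (.e (nat_lit 223636) (nat_lit 0) .nil) .nil)))))))) 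
(.nd (nat_lit 5) (.nd (nat_lit 6) (.nd (nat_lit 7) (.nd (nat_lit 8) (.nd (nat_lit 9) 
(.lf (nat_lit 519194) (.g (nat_lit 1466) (.e (nat_lit 196681) (nat_lit 17) (.e (nat_lit 131120) (nat_lit 12) (.e (nat_lit 385068) (nat_lit 26) (.e (nat_lit 532486) (nat_lit 0) (.e (nat_lit 2149) (nat_lit 142) .nil))))) (.g (nat_lit 0) (.e (nat_lit 220335) (nat_lit 0) .nil) .nil))) 
(.lf (nat_lit 519706) (.g (nat_lit 2740) (.e (nat_lit 204813) (nat_lit 9) (.e (nat_lit 426139) (nat_lit 3) (.e (nat_lit 204808) (nat_lit 9) (.e (nat_lit 426114) (nat_lit 2) (.e (nat_lit 196654) (nat_lit 11) (.e (nat_lit 16416) (nat_lit 3) .nil)))))) (.g (nat_lit 1) (.e (nat_lit 221978) (nat_lit 0) .nil) .nil)))) (.nd (nat_lit 9) 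
(.lf (nat_lit 519450) (.g (nat_lit 2869) (.e (nat_lit 204809) (nat_lit 9) (.e (nat_lit 426188) (nat_lit 9) (.e (nat_lit 426568) (nat_lit 34) (.e (nat_lit 393253) (nat_lit 18) (.e (nat_lit 164325) (nat_lit 230) (.e (nat_lit 163873) (nat_lit 3) .nil)))))) (.g (nat_lit 1) (.e (nat_lit 221269) (nat_lit 0) .nil) .nil))) 
(.lf (nat_lit 519962) (.g (nat_lit 3000) (.e (nat_lit 204829) (nat_lit 18) (.e (nat_lit 57688) (nat_lit 156) (.e (nat_lit 163902) (nat_lit 12) (.e (nat_lit 426566) (nat_lit 34) (.e (nat_lit 393266) (nat_lit 23) (.e (nat_lit 426140) (nat_lit 3) .nil)))))) (.g (nat_lit 1) (.e (nat_lit 223379) (nat_lit 0) .nil) .nil))))) (.nd (nat_lit 8) (.nd (nat_lit 9) 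
(.lf (nat_lit 519322) (.g (nat_lit 1594) (.e (nat_lit 204808) (nat_lit 9) (.e (nat_lit 426098) (nat_lit 1) (.e (nat_lit 164399) (nat_lit 256) (.e (nat_lit 57410) (nat_lit 12) (.e (nat_lit 336431) (nat_lit 29) .nil))))) (.g (nat_lit 0) (.e (nat_lit 220683) (nat_lit 0) .nil) .nil))) 
(.lf (nat_lit 519834) (.g (nat_lit 1247) (.e (nat_lit 204815) (nat_lit 17) (.e (nat_lit 6724) (nat_lit 362) (.e (nat_lit 180251) (nat_lit 10) (.e (nat_lit 573470) (nat_lit 11) .nil)))) (.g (nat_lit 0) (.e (nat_lit 223046) (nat_lit 0) .nil) .nil)))) (.nd (nat_lit 9) 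
(.lf (nat_lit 519578) (.g (nat_lit 919) (.e (nat_lit 204812) (nat_lit 9) (.e (nat_lit 426099) (nat_lit 1) (.e (nat_lit 164399) (nat_lit 256) (.e (nat_lit 57410) (nat_lit 12) .nil)))) (.g (nat_lit 0) (.e (nat_lit 221670) (nat_lit 0) .nil) .nil))) 
(.lf (nat_lit 520090) (.g (nat_lit 1509) (.e (nat_lit 204829) (nat_lit 18) (.e (nat_lit 57854) (nat_lit 252) (.e (nat_lit 57409) (nat_lit 12) (.e (nat_lit 336456) (nat_lit 34) (.e (nat_lit 483391) (nat_lit 23) (.e (nat_lit 343808) (nat_lit 18) .nil)))))) (.g (nat_lit 1) (.e (nat_lit 223548) (nat_lit 0) .nil) .nil)))))) (.nd (nat_lit 7) (.nd (nat_lit 8) (.nd (nat_lit 9) 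
(.lf (nat_lit 519258) (.g (nat_lit 1923) (.e (nat_lit 196691) (nat_lit 18) (.e (nat_lit 1349) (nat_lit 102) (.e (nat_lit 286748) (nat_lit 9) (.e (nat_lit 336295) (nat_lit 15) (.e (nat_lit 3230) (nat_lit 197) .nil))))) (.g (nat_lit 0) (.e (nat_lit 220497) (nat_lit 0) .nil) .nil))) 
(.lf (nat_lit 519770) (.g (nat_lit 2563) (.e (nat_lit 204813) (nat_lit 9) (.e (nat_lit 426200) (nat_lit 9) (.e (nat_lit 426566) (nat_lit 34) (.e (nat_lit 393252) (nat_lit 18) (.e (nat_lit 164331) (nat_lit 230) (.e (nat_lit 163873) (nat_lit 3) .nil)))))) (.g (nat_lit 1) (.e (nat_lit 222204) (nat_lit 0) .nil) .nil)))) (.nd (nat_lit 9) 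
(.lf (nat_lit 519514) (.g (nat_lit 2029) (.e (nat_lit 204811) (nat_lit 9) (.e (nat_lit 426232) (nat_lit 9) (.e (nat_lit 426565) (nat_lit 34) (.e (nat_lit 393252) (nat_lit 18) (.e (nat_lit 164332) (nat_lit 230) (.e (nat_lit 163874) (nat_lit 3) .nil)))))) (.g (nat_lit 1) (.e (nat_lit 221581) (nat_lit 0) .nil) .nil))) 
(.lf (nat_lit 520026) (.g (nat_lit 1914) (.e (nat_lit 204829) (nat_lit 18) (.e (nat_lit 57692) (nat_lit 156) (.e (nat_lit 163907) (nat_lit 12) (.e (nat_lit 426566) (nat_lit 34) (.e (nat_lit 393278) (nat_lit 23) (.e (nat_lit 426135) (nat_lit 3) .nil)))))) (.g (nat_lit 1) (.e (nat_lit 223468) (nat_lit 0) .nil) .nil))))) (.nd (nat_lit 8) (.nd (nat_lit 9) 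
(.lf (nat_lit 519386) (.g (nat_lit 2248) (.e (nat_lit 204809) (nat_lit 9) (.e (nat_lit 426116) (nat_lit 2) (.e (nat_lit 196656) (nat_lit 11) (.e (nat_lit 16412) (nat_lit 2) (.e (nat_lit 196656) (nat_lit 11) .nil))))) (.g (nat_lit 0) (.e (nat_lit 220940) (nat_lit 0) .nil) .nil))) 
(.lf (nat_lit 519898) (.g (nat_lit 1390) (.e (nat_lit 204821) (nat_lit 17) (.e (nat_lit 6114) (nat_lit 332) (.e (nat_lit 1370) (nat_lit 103) (.e (nat_lit 294931) (nat_lit 3) .nil)))) (.g (nat_lit 0) (.e (nat_lit 223297) (nat_lit 0) .nil) .nil)))) (.nd (nat_lit 9) 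
(.lf (nat_lit 519642) (.g (nat_lit 838) (.e (nat_lit 204813) (nat_lit 9) (.e (nat_lit 426098) (nat_lit 1) (.e (nat_lit 164325) (nat_lit 230) .nil))) (.g (nat_lit 0) (.e (nat_lit 221823) (nat_lit 0) .nil) .nil))) 
(.lf (nat_lit 520154) (.g (nat_lit 3833) (.e (nat_lit 204829) (nat_lit 18) (.e (nat_lit 57927) (nat_lit 282) (.e (nat_lit 163868) (nat_lit 2) (.e (nat_lit 196663) (nat_lit 13) (.e (nat_lit 65571) (nat_lit 3) (.e (nat_lit 98342) (nat_lit 20) (.e (nat_lit 221213) (nat_lit 23) .nil))))))) (.g (nat_lit 1) (.e (nat_lit 223620) (nat_lit 0) .nil) .nil))))))) 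
(.nd (nat_lit 6) (.nd (nat_lit 7) (.nd (nat_lit 8) (.nd (nat_lit 9) 
(.lf (nat_lit 519226) (.g (nat_lit 1228) (.e (nat_lit 196681) (nat_lit 17) (.e (nat_lit 131123) (nat_lit 12) (.e (nat_lit 385068) (nat_lit 26) (.e (nat_lit 532486) (nat_lit 0) .nil)))) (.g (nat_lit 0) (.e (nat_lit 220394) (nat_lit 0) .nil) .nil))) 
(.lf (nat_lit 519738) (.g (nat_lit 3917) (.e (nat_lit 204813) (nat_lit 9) (.e (nat_lit 426198) (nat_lit 9) (.e (nat_lit 426566) (nat_lit 34) (.e (nat_lit 393253) (nat_lit 18) (.e (nat_lit 164327) (nat_lit 230) (.e (nat_lit 163875) (nat_lit 3) .nil)))))) (.g (nat_lit 1) (.e (nat_lit 222094) (nat_lit 0) .nil) .nil)))) (.nd (nat_lit 9) 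
(.lf (nat_lit 519482) (.g (nat_lit 2584) (.e (nat_lit 204809) (nat_lit 9) (.e (nat_lit 426200) (nat_lit 9) (.e (nat_lit 426568) (nat_lit 34) (.e (nat_lit 393252) (nat_lit 18) (.e (nat_lit 164331) (nat_lit 230) (.e (nat_lit 163873) (nat_lit 3) .nil)))))) (.g (nat_lit 1) (.e (nat_lit 221367) (nat_lit 0) .nil) .nil))) 
(.lf (nat_lit 519994) (.g (nat_lit 3118) (.e (nat_lit 204829) (nat_lit 18) (.e (nat_lit 57691) (nat_lit 156) (.e (nat_lit 163875) (nat_lit 3) (.e (nat_lit 204838) (nat_lit 20) (.e (nat_lit 114718) (nat_lit 23) (.e (nat_lit 98365) (nat_lit 26) (.e (nat_lit 426133) (nat_lit 3) .nil))))))) (.g (nat_lit 1) (.e (nat_lit 223422) (nat_lit 0) .nil) .nil))))) (.nd (nat_lit 8) (.nd (nat_lit 9) 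
(.lf (nat_lit 519354) (.g (nat_lit 2834) (.e (nat_lit 204808) (nat_lit 9) (.e (nat_lit 426190) (nat_lit 9) (.e (nat_lit 426566) (nat_lit 34) (.e (nat_lit 393253) (nat_lit 18) (.e (nat_lit 164330) (nat_lit 230) (.e (nat_lit 163874) (nat_lit 3) .nil)))))) (.g (nat_lit 1) (.e (nat_lit 220781) (nat_lit 0) .nil) .nil))) 
(.lf (nat_lit 519866) (.g (nat_lit 1671) (.e (nat_lit 204816) (nat_lit 17) (.e (nat_lit 6724) (nat_lit 362) (.e (nat_lit 180252) (nat_lit 10) (.e (nat_lit 573471) (nat_lit 11) (.e (nat_lit 16435) (nat_lit 9) .nil))))) (.g (nat_lit 0) (.e (nat_lit 223213) (nat_lit 0) .nil) .nil)))) (.nd (nat_lit 9) 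
(.lf (nat_lit 519610) (.g (nat_lit 1859) (.e (nat_lit 204812) (nat_lit 9) (.e (nat_lit 426108) (nat_lit 1) (.e (nat_lit 164403) (nat_lit 256) (.e (nat_lit 57409) (nat_lit 12) (.e (nat_lit 336443) (nat_lit 32) .nil))))) (.g (nat_lit 0) (.e (nat_lit 221703) (nat_lit 0) .nil) .nil))) 
(.lf (nat_lit 520122) (.g (nat_lit 2926) (.e (nat_lit 204829) (nat_lit 18) (.e (nat_lit 57926) (nat_lit 282) (.e (nat_lit 163871) (nat_lit 2) (.e (nat_lit 196668) (nat_lit 14) (.e (nat_lit 73747) (nat_lit 3) (.e (nat_lit 516131) (nat_lit 3) (.e (nat_lit 221213) (nat_lit 23) .nil))))))) (.g (nat_lit 1) (.e (nat_lit 223583) (nat_lit 0) .nil) .nil)))))) 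
(.nd (nat_lit 7) (.nd (nat_lit 8) (.nd (nat_lit 9) 
(.lf (nat_lit 519290) (.g (nat_lit 1746) (.e (nat_lit 196698) (nat_lit 19) (.e (nat_lit 57811) (nat_lit 246) (.e (nat_lit 57883) (nat_lit 270) (.e (nat_lit 371) (nat_lit 32) (.e (nat_lit 426555) (nat_lit 32) (.e (nat_lit 384768) (nat_lit 2) .nil)))))) (.g (nat_lit 1) (.e (nat_lit 220555) (nat_lit 0) .nil) .nil))) 
(.lf (nat_lit 519802) (.g (nat_lit 1834) (.e (nat_lit 212736) (nat_lit 9) (.e (nat_lit 426190) (nat_lit 9) (.e (nat_lit 426566) (nat_lit 34) (.e (nat_lit 393253) (nat_lit 18) (.e (nat_lit 164327) (nat_lit 230) .nil))))) (.g (nat_lit 0) (.e (nat_lit 222487) (nat_lit 0) .nil) .nil)))) (.nd (nat_lit 9) 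
(.lf (nat_lit 519546) (.g (nat_lit 2716) (.e (nat_lit 204811) (nat_lit 9) (.e (nat_lit 426260) (nat_lit 9) (.e (nat_lit 426565) (nat_lit 34) (.e (nat_lit 393253) (nat_lit 18) (.e (nat_lit 164327) (nat_lit 230) (.e (nat_lit 163875) (nat_lit 3) .nil)))))) (.g (nat_lit 1) (.e (nat_lit 221634) (nat_lit 0) .nil) .nil))) 
(.lf (nat_lit 520058) (.g (nat_lit 400) (.e (nat_lit 204829) (nat_lit 18) (.e (nat_lit 57848) (nat_lit 252) (.e (nat_lit 57407) (nat_lit 12) .nil))) (.g (nat_lit 0) (.e (nat_lit 223509) (nat_lit 0) .nil) .nil))))) (.nd (nat_lit 8) (.nd (nat_lit 9) 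
(.lf (nat_lit 519418) (.g (nat_lit 2458) (.e (nat_lit 204809) (nat_lit 9) (.e (nat_lit 426139) (nat_lit 3) (.e (nat_lit 204809) (nat_lit 9) (.e (nat_lit 426123) (nat_lit 2) (.e (nat_lit 196654) (nat_lit 11) (.e (nat_lit 16416) (nat_lit 3) .nil)))))) (.g (nat_lit 1) (.e (nat_lit 221137) (nat_lit 0) .nil) .nil))) 
(.lf (nat_lit 519930) (.g (nat_lit 1942) (.e (nat_lit 204828) (nat_lit 18) (.e (nat_lit 57926) (nat_lit 282) (.e (nat_lit 163869) (nat_lit 2) (.e (nat_lit 196670) (nat_lit 14) (.e (nat_lit 73746) (nat_lit 3) (.e (nat_lit 516124) (nat_lit 2) (.e (nat_lit 213013) (nat_lit 9) (.e (nat_lit 2684) (nat_lit 168) .nil)))))))) (.g (nat_lit 1) (.e (nat_lit 223339) (nat_lit 0) .nil) .nil)))) 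
(.nd (nat_lit 9) 
(.lf (nat_lit 519674) (.g (nat_lit 1791) (.e (nat_lit 204813) (nat_lit 9) (.e (nat_lit 426108) (nat_lit 1) (.e (nat_lit 164403) (nat_lit 256) (.e (nat_lit 57406) (nat_lit 12) (.e (nat_lit 336444) (nat_lit 32) .nil))))) (.g (nat_lit 0) (.e (nat_lit 221859) (nat_lit 0) .nil) .nil))) 
(.lf (nat_lit 520186) (.g (nat_lit 2528) (.e (nat_lit 204829) (nat_lit 18) (.e (nat_lit 57927) (nat_lit 282) (.e (nat_lit 163868) (nat_lit 2) (.e (nat_lit 196670) (nat_lit 14) (.e (nat_lit 73746) (nat_lit 3) (.e (nat_lit 516124) (nat_lit 2) (.e (nat_lit 213016) (nat_lit 9) (.e (nat_lit 2683) (nat_lit 168) .nil)))))))) (.g (nat_lit 1) (.e (nat_lit 223652) (nat_lit 0) .nil) .nil)))))))))) 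
(.nd (nat_lit 3) (.nd (nat_lit 4) (.nd (nat_lit 5) (.nd (nat_lit 6) (.nd (nat_lit 7) 
(.nd (nat_lit 8) (.nd (nat_lit 9) 
(.lf (nat_lit 519174) (.g (nat_lit 4027) (.e (nat_lit 196681) (nat_lit 17) (.e (nat_lit 131109) (nat_lit 9) (.e (nat_lit 336324) (nat_lit 18) (.e (nat_lit 204838) (nat_lit 20) (.e (nat_lit 114698) (nat_lit 11) (.e (nat_lit 426124) (nat_lit 2) .nil)))))) (.g (nat_lit 1) (.e (nat_lit 220266) (nat_lit 0) .nil) .nil))) 
(.lf (nat_lit 519686) (.g (nat_lit 3143) (.e (nat_lit 204813) (nat_lit 9) (.e (nat_lit 426122) (nat_lit 2) (.e (nat_lit 196654) (nat_lit 11) (.e (nat_lit 16412) (nat_lit 2) (.e (nat_lit 196654) (nat_lit 11) (.e (nat_lit 16416) (nat_lit 3) .nil)))))) (.g (nat_lit 1) (.e (nat_lit 221885) (nat_lit 0) .nil) .nil)))) (.nd (nat_lit 9) 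
(.lf (nat_lit 519430) (.g (nat_lit 1649) (.e (nat_lit 204809) (nat_lit 9) (.e (nat_lit 426187) (nat_lit 9) (.e (nat_lit 426566) (nat_lit 34) (.e (nat_lit 393252) (nat_lit 18) (.e (nat_lit 164332) (nat_lit 230) .nil))))) (.g (nat_lit 0) (.e (nat_lit 221247) (nat_lit 0) .nil) .nil))) 
(.lf (nat_lit 519942) (.g (nat_lit 1585) (.e (nat_lit 204828) (nat_lit 18) (.e (nat_lit 57931) (nat_lit 282) (.e (nat_lit 163874) (nat_lit 3) (.e (nat_lit 204872) (nat_lit 30) .nil)))) (.g (nat_lit 0) (.e (nat_lit 223351) (nat_lit 0) .nil) .nil))))) (.nd (nat_lit 8) (.nd (nat_lit 9) 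
(.lf (nat_lit 519302) (.g (nat_lit 1775) (.e (nat_lit 196698) (nat_lit 19) (.e (nat_lit 57816) (nat_lit 246) (.e (nat_lit 57878) (nat_lit 270) (.e (nat_lit 496) (nat_lit 39) (.e (nat_lit 483383) (nat_lit 23) (.e (nat_lit 343808) (nat_lit 17) .nil)))))) (.g (nat_lit 1) (.e (nat_lit 220567) (nat_lit 0) .nil) .nil))) 
(.lf (nat_lit 519814) (.g (nat_lit 966) (.e (nat_lit 212736) (nat_lit 16) (.e (nat_lit 491566) (nat_lit 12) (.e (nat_lit 392960) (nat_lit 2) (.e (nat_lit 16435) (nat_lit 9) (.e (nat_lit 426130) (nat_lit 3) .nil))))) (.g (nat_lit 0) (.e (nat_lit 222878) (nat_lit 0) .nil) .nil)))) (.nd (nat_lit 9) 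
(.lf (nat_lit 519558) (.g (nat_lit 2718) (.e (nat_lit 204811) (nat_lit 9) (.e (nat_lit 426261) (nat_lit 9) (.e (nat_lit 426565) (nat_lit 34) (.e (nat_lit 393253) (nat_lit 18) (.e (nat_lit 164327) (nat_lit 230) (.e (nat_lit 163875) (nat_lit 3) .nil)))))) (.g (nat_lit 1) (.e (nat_lit 221646) (nat_lit 0) .nil) .nil))) 
(.lf (nat_lit 520070) (.g (nat_lit 2509) (.e (nat_lit 204829) (nat_lit 18) (.e (nat_lit 57849) (nat_lit 252) (.e (nat_lit 57407) (nat_lit 12) (.e (nat_lit 336456) (nat_lit 34) (.e (nat_lit 483382) (nat_lit 23) .nil))))) (.g (nat_lit 0) (.e (nat_lit 223527) (nat_lit 0) .nil) .nil)))))) (.nd (nat_lit 7) (.nd (nat_lit 8) (.nd (nat_lit 9) 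
(.lf (nat_lit 519238) (.g (nat_lit 4710) (.e (nat_lit 196681) (nat_lit 17) (.e (nat_lit 131123) (nat_lit 12) (.e (nat_lit 385074) (nat_lit 31) (.e (nat_lit 573482) (nat_lit 13) (.e (nat_lit 65628) (nat_lit 14) (.e (nat_lit 401425) (nat_lit 2) .nil)))))) (.g (nat_lit 1) (.e (nat_lit 220416) (nat_lit 0) .nil) .nil))) 
(.lf (nat_lit 519750) (.g (nat_lit 3043) (.e (nat_lit 204813) (nat_lit 9) (.e (nat_lit 426199) (nat_lit 9) (.e (nat_lit 426566) (nat_lit 34) (.e (nat_lit 393253) (nat_lit 18) (.e (nat_lit 164325) (nat_lit 230) (.e (nat_lit 163874) (nat_lit 3) .nil)))))) (.g (nat_lit 1) (.e (nat_lit 222133) (nat_lit 0) .nil) .nil)))) (.nd (nat_lit 9) 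
(.lf (nat_lit 519494) (.g (nat_lit 1669) (.e (nat_lit 204811) (nat_lit 9) (.e (nat_lit 426110) (nat_lit 1) (.e (nat_lit 164398) (nat_lit 256) (.e (nat_lit 57407) (nat_lit 12) .nil)))) (.g (nat_lit 0) (.e (nat_lit 221559) (nat_lit 0) .nil) .nil))) 
(.lf (nat_lit 520006) (.g (nat_lit 1210) (.e (nat_lit 204829) (nat_lit 18) (.e (nat_lit 57691) (nat_lit 156) (.e (nat_lit 163907) (nat_lit 12) (.e (nat_lit 426566) (nat_lit 34) .nil)))) (.g (nat_lit 0) (.e (nat_lit 223440) (nat_lit 0) .nil) .nil))))) (.nd (nat_lit 8) (.nd (nat_lit 9) 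
(.lf (nat_lit 519366) (.g (nat_lit 2100) (.e (nat_lit 204809) (nat_lit 9) (.e (nat_lit 426100) (nat_lit 1) (.e (nat_lit 164402) (nat_lit 256) (.e (nat_lit 57409) (nat_lit 12) (.e (nat_lit 336443) (nat_lit 32) .nil))))) (.g (nat_lit 0) (.e (nat_lit 220879) (nat_lit 0) .nil) .nil))) 
(.lf (nat_lit 519878) (.g (nat_lit 3541) (.e (nat_lit 204819) (nat_lit 17) (.e (nat_lit 6113) (nat_lit 332) (.e (nat_lit 1374) (nat_lit 104) (.e (nat_lit 303119) (nat_lit 3) (.e (nat_lit 204845) (nat_lit 24) (.e (nat_lit 319537) (nat_lit 19) (.e (nat_lit 311315) (nat_lit 3) .nil))))))) (.g (nat_lit 1) (.e (nat_lit 223238) (nat_lit 0) .nil) .nil)))) (.nd (nat_lit 9) 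
(.lf (nat_lit 519622) (.g (nat_lit 478) (.e (nat_lit 204812) (nat_lit 9) (.e (nat_lit 426188) (nat_lit 9) (.e (nat_lit 426566) (nat_lit 34) .nil))) (.g (nat_lit 0) (.e (nat_lit 221741) (nat_lit 0) .nil) .nil))) 
(.lf (nat_lit 520134) (.g (nat_lit 2545) (.e (nat_lit 204829) (nat_lit 18) (.e (nat_lit 57926) (nat_lit 282) (.e (nat_lit 163875) (nat_lit 3) (.e (nat_lit 204863) (nat_lit 27) (.e (nat_lit 344120) (nat_lit 21) .nil))))) (.g (nat_lit 0) (.e (nat_lit 223596) (nat_lit 0) .nil) .nil))))))) (.nd (nat_lit 6) (.nd (nat_lit 7) (.nd (nat_lit 8) (.nd (nat_lit 9) 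
(.lf (nat_lit 519206) (.g (nat_lit 1899) (.e (nat_lit 196681) (nat_lit 17) (.e (nat_lit 131122) (nat_lit 12) (.e (nat_lit 385068) (nat_lit 26) (.e (nat_lit 532513) (nat_lit 3) (.e (nat_lit 114698) (nat_lit 11) .nil))))) (.g (nat_lit 0) (.e (nat_lit 220360) (nat_lit 0) .nil) .nil))) 
(.lf (nat_lit 519718) (.g (nat_lit 1632) (.e (nat_lit 204813) (nat_lit 9) (.e (nat_lit 426190) (nat_lit 9) (.e (nat_lit 426480) (nat_lit 27) (.e (nat_lit 336385) (nat_lit 27) (.e (nat_lit 426107) (nat_lit 1) (.e (nat_lit 164326) (nat_lit 230) (.e (nat_lit 163873) (nat_lit 3) .nil))))))) (.g (nat_lit 1) (.e (nat_lit 222046) (nat_lit 0) .nil) .nil)))) (.nd (nat_lit 9) 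
(.lf (nat_lit 519462) (.g (nat_lit 2708) (.e (nat_lit 204809) (nat_lit 9) (.e (nat_lit 426190) (nat_lit 9) (.e (nat_lit 426566) (nat_lit 34) (.e (nat_lit 393251) (nat_lit 18) (.e (nat_lit 164332) (nat_lit 230) (.e (nat_lit 163874) (nat_lit 3) .nil)))))) (.g (nat_lit 1) (.e (nat_lit 221281) (nat_lit 0) .nil) .nil))) 
(.lf (nat_lit 519974) (.g (nat_lit 435) (.e (nat_lit 204829) (nat_lit 18) (.e (nat_lit 57688) (nat_lit 156) (.e (nat_lit 163904) (nat_lit 12) .nil))) (.g (nat_lit 0) (.e (nat_lit 223391) (nat_lit 0) .nil) .nil))))) (.nd (nat_lit 8) (.nd (nat_lit 9) 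
(.lf (nat_lit 519334) (.g (nat_lit 1249) (.e (nat_lit 204808) (nat_lit 9) (.e (nat_lit 426100) (nat_lit 1) (.e (nat_lit 164399) (nat_lit 256) (.e (nat_lit 57411) (nat_lit 12) .nil)))) (.g (nat_lit 0) (.e (nat_lit 220695) (nat_lit 0) .nil) .nil))) 
(.lf (nat_lit 519846) (.g (nat_lit 2129) (.e (nat_lit 204816) (nat_lit 17) (.e (nat_lit 6517) (nat_lit 347) (.e (nat_lit 65571) (nat_lit 3) (.e (nat_lit 98349) (nat_lit 24) (.e (nat_lit 409645) (nat_lit 18) .nil))))) (.g (nat_lit 0) (.e (nat_lit 223083) (nat_lit 0) .nil) .nil)))) (.nd (nat_lit 9) 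
(.lf (nat_lit 519590) (.g (nat_lit 1604) (.e (nat_lit 204812) (nat_lit 9) (.e (nat_lit 426100) (nat_lit 1) (.e (nat_lit 164399) (nat_lit 256) (.e (nat_lit 57409) (nat_lit 12) (.e (nat_lit 336443) (nat_lit 32) .nil))))) (.g (nat_lit 0) (.e (nat_lit 221682) (nat_lit 0) .nil) .nil))) 
(.lf (nat_lit 520102) (.g (nat_lit 3117) (.e (nat_lit 204829) (nat_lit 18) (.e (nat_lit 57926) (nat_lit 282) (.e (nat_lit 163868) (nat_lit 2) (.e (nat_lit 196670) (nat_lit 14) (.e (nat_lit 73746) (nat_lit 3) (.e (nat_lit 516124) (nat_lit 2) (.e (nat_lit 213013) (nat_lit 9) (.e (nat_lit 2684) (nat_lit 168) .nil)))))))) (.g (nat_lit 1) (.e (nat_lit 223562) (nat_lit 0) .nil) .nil)))))) 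
(.nd (nat_lit 7) (.nd (nat_lit 8) (.nd (nat_lit 9) 
(.lf (nat_lit 519270) (.g (nat_lit 1696) (.e (nat_lit 196698) (nat_lit 19) (.e (nat_lit 57809) (nat_lit 246) (.e (nat_lit 57879) (nat_lit 270) (.e (nat_lit 371) (nat_lit 32) (.e (nat_lit 426542) (nat_lit 29) (.e (nat_lit 360192) (nat_lit 2) .nil)))))) (.g (nat_lit 1) (.e (nat_lit 220535) (nat_lit 0) .nil) .nil))) 
(.lf (nat_lit 519782) (.g (nat_lit 1920) (.e (nat_lit 204813) (nat_lit 9) (.e (nat_lit 426200) (nat_lit 9) (.e (nat_lit 426568) (nat_lit 34) (.e (nat_lit 393253) (nat_lit 18) (.e (nat_lit 164322) (nat_lit 230) .nil))))) (.g (nat_lit 0) (.e (nat_lit 222219) (nat_lit 0) .nil) .nil)))) (.nd (nat_lit 9) 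
(.lf (nat_lit 519526) (.g (nat_lit 2107) (.e (nat_lit 204811) (nat_lit 9) (.e (nat_lit 426234) (nat_lit 9) (.e (nat_lit 426565) (nat_lit 34) (.e (nat_lit 393251) (nat_lit 18) (.e (nat_lit 164325) (nat_lit 230) (.e (nat_lit 163875) (nat_lit 3) .nil)))))) (.g (nat_lit 1) (.e (nat_lit 221593) (nat_lit 0) .nil) .nil))) 
(.lf (nat_lit 520038) (.g (nat_lit 4337) (.e (nat_lit 204829) (nat_lit 18) (.e (nat_lit 57847) (nat_lit 252) (.e (nat_lit 57379) (nat_lit 3) (.e (nat_lit 98341) (nat_lit 20) (.e (nat_lit 221214) (nat_lit 23) (.e (nat_lit 204852) (nat_lit 26) (.e (nat_lit 336326) (nat_lit 18) .nil))))))) (.g (nat_lit 1) (.e (nat_lit 223486) (nat_lit 0) .nil) .nil))))) (.nd (nat_lit 8) (.nd (nat_lit 9) 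
(.lf (nat_lit 519398) (.g (nat_lit 1384) (.e (nat_lit 204809) (nat_lit 9) (.e (nat_lit 426124) (nat_lit 2) (.e (nat_lit 196653) (nat_lit 11) (.e (nat_lit 16411) (nat_lit 2) (.e (nat_lit 196654) (nat_lit 11) .nil))))) (.g (nat_lit 0) (.e (nat_lit 220985) (nat_lit 0) .nil) .nil))) 
(.lf (nat_lit 519910) (.g (nat_lit 2101) (.e (nat_lit 204828) (nat_lit 18) (.e (nat_lit 57688) (nat_lit 156) (.e (nat_lit 163903) (nat_lit 12) (.e (nat_lit 426479) (nat_lit 27) (.e (nat_lit 336430) (nat_lit 29) .nil))))) (.g (nat_lit 0) (.e (nat_lit 223313) (nat_lit 0) .nil) .nil)))) (.nd (nat_lit 9) 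
(.lf (nat_lit 519654) (.g (nat_lit 2008) (.e (nat_lit 204813) (nat_lit 9) (.e (nat_lit 426098) (nat_lit 1) (.e (nat_lit 164403) (nat_lit 256) (.e (nat_lit 57409) (nat_lit 12) (.e (nat_lit 336443) (nat_lit 32) .nil))))) (.g (nat_lit 0) (.e (nat_lit 221836) (nat_lit 0) .nil) .nil))) 
(.lf (nat_lit 520166) (.g (nat_lit 2414) (.e (nat_lit 204829) (nat_lit 18) (.e (nat_lit 57927) (nat_lit 282) (.e (nat_lit 163868) (nat_lit 2) (.e (nat_lit 196668) (nat_lit 14) (.e (nat_lit 73746) (nat_lit 3) (.e (nat_lit 516127) (nat_lit 2) (.e (nat_lit 213022) (nat_lit 9) (.e (nat_lit 2683) (nat_lit 168) .nil)))))))) (.g (nat_lit 1) (.e (nat_lit 223632) (nat_lit 0) .nil) .nil)))))))) 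
(.nd (nat_lit 5) (.nd (nat_lit 6) (.nd (nat_lit 7) (.nd (nat_lit 8) (.nd (nat_lit 9) 
(.lf (nat_lit 519190) (.g (nat_lit 2057) (.e (nat_lit 196681) (nat_lit 17) (.e (nat_lit 131120) (nat_lit 12) (.e (nat_lit 385066) (nat_lit 26) (.e (nat_lit 532515) (nat_lit 3) (.e (nat_lit 114697) (nat_lit 11) (.e (nat_lit 426121) (nat_lit 2) .nil)))))) (.g (nat_lit 1) (.e (nat_lit 220331) (nat_lit 0) .nil) .nil))) 
(.lf (nat_lit 519702) (.g (nat_lit 2737) (.e (nat_lit 204813) (nat_lit 9) (.e (nat_lit 426138) (nat_lit 3) (.e (nat_lit 204813) (nat_lit 9) (.e (nat_lit 426114) (nat_lit 2) (.e (nat_lit 196654) (nat_lit 11) (.e (nat_lit 16416) (nat_lit 3) .nil)))))) (.g (nat_lit 1) (.e (nat_lit 221966) (nat_lit 0) .nil) .nil)))) (.nd (nat_lit 9) 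
(.lf (nat_lit 519446) (.g (nat_lit 2823) (.e (nat_lit 204809) (nat_lit 9) (.e (nat_lit 426188) (nat_lit 9) (.e (nat_lit 426568) (nat_lit 34) (.e (nat_lit 393251) (nat_lit 18) (.e (nat_lit 164325) (nat_lit 230) (.e (nat_lit 163873) (nat_lit 3) .nil)))))) (.g (nat_lit 1) (.e (nat_lit 221265) (nat_lit 0) .nil) .nil))) 
(.lf (nat_lit 519958) (.g (nat_lit 3659) (.e (nat_lit 204829) (nat_lit 18) (.e (nat_lit 57688) (nat_lit 156) (.e (nat_lit 163873) (nat_lit 3) (.e (nat_lit 204838) (nat_lit 20) (.e (nat_lit 114719) (nat_lit 23) (.e (nat_lit 98365) (nat_lit 26) (.e (nat_lit 426138) (nat_lit 3) .nil))))))) (.g (nat_lit 1) (.e (nat_lit 223374) (nat_lit 0) .nil) .nil))))) (.nd (nat_lit 8) (.nd (nat_lit 9) 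
(.lf (nat_lit 519318) (.g (nat_lit 1908) (.e (nat_lit 212736) (nat_lit 7) (.e (nat_lit 409616) (nat_lit 10) (.e (nat_lit 632) (nat_lit 50) (.e (nat_lit 573489) (nat_lit 14) (.e (nat_lit 73755) (nat_lit 8) .nil))))) (.g (nat_lit 0) (.e (nat_lit 220673) (nat_lit 0) .nil) .nil))) 
(.lf (nat_lit 519830) (.g (nat_lit 2176) (.e (nat_lit 204815) (nat_lit 17) (.e (nat_lit 6724) (nat_lit 362) (.e (nat_lit 180250) (nat_lit 10) (.e (nat_lit 573469) (nat_lit 11) (.e (nat_lit 16435) (nat_lit 9) .nil))))) (.g (nat_lit 0) (.e (nat_lit 223022) (nat_lit 0) .nil) .nil)))) (.nd (nat_lit 9) 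
(.lf (nat_lit 519574) (.g (nat_lit 1824) (.e (nat_lit 204812) (nat_lit 9) (.e (nat_lit 426098) (nat_lit 1) (.e (nat_lit 164399) (nat_lit 256) (.e (nat_lit 57409) (nat_lit 12) (.e (nat_lit 336443) (nat_lit 32) .nil))))) (.g (nat_lit 0) (.e (nat_lit 221666) (nat_lit 0) .nil) .nil))) 
(.lf (nat_lit 520086) (.g (nat_lit 2094) (.e (nat_lit 204829) (nat_lit 18) (.e (nat_lit 57854) (nat_lit 252) (.e (nat_lit 57409) (nat_lit 12) (.e (nat_lit 336367) (nat_lit 27) (.e (nat_lit 426555) (nat_lit 32) (.e (nat_lit 384768) (nat_lit 3) .nil)))))) (.g (nat_lit 1) (.e (nat_lit 223544) (nat_lit 0) .nil) .nil)))))) (.nd (nat_lit 7) (.nd (nat_lit 8) (.nd (nat_lit 9) 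
(.lf (nat_lit 519254) (.g (nat_lit 1205) (.e (nat_lit 196683) (nat_lit 18) (.e (nat_lit 1385) (nat_lit 105) (.e (nat_lit 311343) (nat_lit 13) (.e (nat_lit 483333) (nat_lit 0) (.e (nat_lit 6988) (nat_lit 377) (.e (nat_lit 2779) (nat_lit 178) (.e (nat_lit 294656) (nat_lit 17) .nil))))))) (.g (nat_lit 1) (.e (nat_lit 220492) (nat_lit 0) .nil) .nil))) 
(.lf (nat_lit 519766) (.g (nat_lit 3645) (.e (nat_lit 204813) (nat_lit 9) (.e (nat_lit 426200) (nat_lit 9) (.e (nat_lit 426530) (nat_lit 27) (.e (nat_lit 336390) (nat_lit 27) (.e (nat_lit 426098) (nat_lit 1) (.e (nat_lit 164325) (nat_lit 230) (.e (nat_lit 163873) (nat_lit 3) .nil))))))) (.g (nat_lit 1) (.e (nat_lit 222200) (nat_lit 0) .nil) .nil)))) (.nd (nat_lit 9) 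
(.lf (nat_lit 519510) (.g (nat_lit 1989) (.e (nat_lit 204811) (nat_lit 9) (.e (nat_lit 426230) (nat_lit 9) (.e (nat_lit 426565) (nat_lit 34) (.e (nat_lit 393254) (nat_lit 18) (.e (nat_lit 164331) (nat_lit 230) (.e (nat_lit 163873) (nat_lit 3) .nil)))))) (.g (nat_lit 1) (.e (nat_lit 221577) (nat_lit 0) .nil) .nil))) 
(.lf (nat_lit 520022) (.g (nat_lit 316) (.e (nat_lit 204829) (nat_lit 18) (.e (nat_lit 57692) (nat_lit 156) (.e (nat_lit 163907) (nat_lit 12) .nil))) (.g (nat_lit 0) (.e (nat_lit 223462) (nat_lit 0) .nil) .nil))))) (.nd (nat_lit 8) (.nd (nat_lit 9) 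
(.lf (nat_lit 519382) (.g (nat_lit 3485) (.e (nat_lit 204809) (nat_lit 9) (.e (nat_lit 426116) (nat_lit 2) (.e (nat_lit 196654) (nat_lit 11) (.e (nat_lit 16416) (nat_lit 3) (.e (nat_lit 204809) (nat_lit 9) (.e (nat_lit 426139) (nat_lit 3) .nil)))))) (.g (nat_lit 1) (.e (nat_lit 220930) (nat_lit 0) .nil) .nil))) 
(.lf (nat_lit 519894) (.g (nat_lit 1883) (.e (nat_lit 204821) (nat_lit 17) (.e (nat_lit 6114) (nat_lit 332) (.e (nat_lit 1374) (nat_lit 104) (.e (nat_lit 303117) (nat_lit 2) .nil)))) (.g (nat_lit 0) (.e (nat_lit 223290) (nat_lit 0) .nil) .nil)))) (.nd (nat_lit 9) 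
(.lf (nat_lit 519638) (.g (nat_lit 2266) (.e (nat_lit 204812) (nat_lit 9) (.e (nat_lit 426198) (nat_lit 9) (.e (nat_lit 426566) (nat_lit 34) (.e (nat_lit 393251) (nat_lit 18) (.e (nat_lit 164332) (nat_lit 230) .nil))))) (.g (nat_lit 0) (.e (nat_lit 221759) (nat_lit 0) .nil) .nil))) 
(.lf (nat_lit 520150) (.g (nat_lit 3215) (.e (nat_lit 204829) (nat_lit 18) (.e (nat_lit 57927) (nat_lit 282) (.e (nat_lit 163867) (nat_lit 2) (.e (nat_lit 196670) (nat_lit 14) (.e (nat_lit 73746) (nat_lit 3) (.e (nat_lit 516124) (nat_lit 2) (.e (nat_lit 213019) (nat_lit 9) (.e (nat_lit 2681) (nat_lit 168) .nil)))))))) (.g (nat_lit 1) (.e (nat_lit 223616) (nat_lit 0) .nil) .nil))))))) 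
(.nd (nat_lit 6) (.nd (nat_lit 7) (.nd (nat_lit 8) (.nd (nat_lit 9) 
(.lf (nat_lit 519222) (.g (nat_lit 2581) (.e (nat_lit 196681) (nat_lit 17) (.e (nat_lit 131123) (nat_lit 12) (.e (nat_lit 385066) (nat_lit 26) (.e (nat_lit 532515) (nat_lit 3) (.e (nat_lit 114698) (nat_lit 11) (.e (nat_lit 426116) (nat_lit 2) .nil)))))) (.g (nat_lit 1) (.e (nat_lit 220390) (nat_lit 0) .nil) .nil))) 
(.lf (nat_lit 519734) (.g (nat_lit 4607) (.e (nat_lit 204813) (nat_lit 9) (.e (nat_lit 426198) (nat_lit 9) (.e (nat_lit 426530) (nat_lit 27) (.e (nat_lit 336390) (nat_lit 27) (.e (nat_lit 426098) (nat_lit 1) (.e (nat_lit 164325) (nat_lit 230) (.e (nat_lit 163873) (nat_lit 3) .nil))))))) (.g (nat_lit 1) (.e (nat_lit 222089) (nat_lit 0) .nil) .nil)))) (.nd (nat_lit 9) 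
(.lf (nat_lit 519478) (.g (nat_lit 3546) (.e (nat_lit 204809) (nat_lit 9) (.e (nat_lit 426200) (nat_lit 9) (.e (nat_lit 426566) (nat_lit 34) (.e (nat_lit 393253) (nat_lit 18) (.e (nat_lit 164327) (nat_lit 230) (.e (nat_lit 163873) (nat_lit 3) .nil)))))) (.g (nat_lit 1) (.e (nat_lit 221363) (nat_lit 0) .nil) .nil))) 
(.lf (nat_lit 519990) (.g (nat_lit 2782) (.e (nat_lit 204829) (nat_lit 18) (.e (nat_lit 57691) (nat_lit 156) (.e (nat_lit 163872) (nat_lit 3) (.e (nat_lit 204838) (nat_lit 20) (.e (nat_lit 114716) (nat_lit 22) (.e (nat_lit 90185) (nat_lit 17) (.e (nat_lit 237594) (nat_lit 3) .nil))))))) (.g (nat_lit 1) (.e (nat_lit 223418) (nat_lit 0) .nil) .nil))))) (.nd (nat_lit 8) (.nd (nat_lit 9) 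
(.lf (nat_lit 519350) (.g (nat_lit 3455) (.e (nat_lit 204808) (nat_lit 9) (.e (nat_lit 426190) (nat_lit 9) (.e (nat_lit 426566) (nat_lit 34) (.e (nat_lit 393251) (nat_lit 18) (.e (nat_lit 164327) (nat_lit 230) (.e (nat_lit 163875) (nat_lit 3) .nil)))))) (.g (nat_lit 1) (.e (nat_lit 220777) (nat_lit 0) .nil) .nil))) 
(.lf (nat_lit 519862) (.g (nat_lit 419) (.e (nat_lit 204816) (nat_lit 17) (.e (nat_lit 6724) (nat_lit 362) (.e (nat_lit 180252) (nat_lit 10) .nil))) (.g (nat_lit 0) (.e (nat_lit 223200) (nat_lit 0) .nil) .nil)))) (.nd (nat_lit 9) 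
(.lf (nat_lit 519606) (.g (nat_lit 1941) (.e (nat_lit 204812) (nat_lit 9) (.e (nat_lit 426108) (nat_lit 1) (.e (nat_lit 164403) (nat_lit 256) (.e (nat_lit 57406) (nat_lit 12) (.e (nat_lit 336426) (nat_lit 29) .nil))))) (.g (nat_lit 0) (.e (nat_lit 221699) (nat_lit 0) .nil) .nil))) 
(.lf (nat_lit 520118) (.g (nat_lit 3261) (.e (nat_lit 204829) (nat_lit 18) (.e (nat_lit 57926) (nat_lit 282) (.e (nat_lit 163870) (nat_lit 2) (.e (nat_lit 196666) (nat_lit 13) (.e (nat_lit 65569) (nat_lit 3) .nil))))) (.g (nat_lit 0) (.e (nat_lit 223579) (nat_lit 0) .nil) .nil)))))) (.nd (nat_lit 7) (.nd (nat_lit 8) (.nd (nat_lit 9) 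
(.lf (nat_lit 519286) (.g (nat_lit 997) (.e (nat_lit 196698) (nat_lit 19) (.e (nat_lit 57811) (nat_lit 246) (.e (nat_lit 57879) (nat_lit 270) (.e (nat_lit 496) (nat_lit 39) (.e (nat_lit 483382) (nat_lit 23) (.e (nat_lit 343808) (nat_lit 17) .nil)))))) (.g (nat_lit 1) (.e (nat_lit 220551) (nat_lit 0) .nil) .nil))) 
(.lf (nat_lit 519798) (.g (nat_lit 2062) (.e (nat_lit 212736) (nat_lit 9) (.e (nat_lit 426190) (nat_lit 9) (.e (nat_lit 426566) (nat_lit 34) (.e (nat_lit 393251) (nat_lit 18) (.e (nat_lit 164325) (nat_lit 230) .nil))))) (.g (nat_lit 0) (.e (nat_lit 222483) (nat_lit 0) .nil) .nil)))) (.nd (nat_lit 9) 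
(.lf (nat_lit 519542) (.g (nat_lit 2120) (.e (nat_lit 204811) (nat_lit 9) (.e (nat_lit 426260) (nat_lit 9) (.e (nat_lit 426565) (nat_lit 34) (.e (nat_lit 393252) (nat_lit 18) (.e (nat_lit 164332) (nat_lit 230) (.e (nat_lit 163874) (nat_lit 3) .nil)))))) (.g (nat_lit 1) (.e (nat_lit 221630) (nat_lit 0) .nil) .nil))) 
(.lf (nat_lit 520054) (.g (nat_lit 1982) (.e (nat_lit 204829) (nat_lit 18) (.e (nat_lit 57847) (nat_lit 252) (.e (nat_lit 57432) (nat_lit 16) (.e (nat_lit 368676) (nat_lit 21) (.e (nat_lit 516182) (nat_lit 15) .nil))))) (.g (nat_lit 0) (.e (nat_lit 223504) (nat_lit 0) .nil) .nil))))) (.nd (nat_lit 8) (.nd (nat_lit 9) 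
(.lf (nat_lit 519414) (.g (nat_lit 1737) (.e (nat_lit 204809) (nat_lit 9) (.e (nat_lit 426133) (nat_lit 3) (.e (nat_lit 204813) (nat_lit 9) (.e (nat_lit 426014) (nat_lit 0) .nil)))) (.g (nat_lit 0) (.e (nat_lit 221081) (nat_lit 0) .nil) .nil))) 
(.lf (nat_lit 519926) (.g (nat_lit 3557) (.e (nat_lit 204828) (nat_lit 18) (.e (nat_lit 57925) (nat_lit 282) (.e (nat_lit 163871) (nat_lit 2) (.e (nat_lit 196668) (nat_lit 14) (.e (nat_lit 73747) (nat_lit 3) (.e (nat_lit 516131) (nat_lit 3) (.e (nat_lit 221215) (nat_lit 23) .nil))))))) (.g (nat_lit 1) (.e (nat_lit 223335) (nat_lit 0) .nil) .nil)))) (.nd (nat_lit 9) 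
(.lf (nat_lit 519670) (.g (nat_lit 1416) (.e (nat_lit 204813) (nat_lit 9) (.e (nat_lit 426108) (nat_lit 1) (.e (nat_lit 164401) (nat_lit 256) (.e (nat_lit 57408) (nat_lit 12) .nil)))) (.g (nat_lit 0) (.e (nat_lit 221855) (nat_lit 0) .nil) .nil))) 
(.lf (nat_lit 520182) (.g (nat_lit 4581) (.e (nat_lit 204829) (nat_lit 18) (.e (nat_lit 57927) (nat_lit 282) (.e (nat_lit 163868) (nat_lit 2) (.e (nat_lit 196668) (nat_lit 14) (.e (nat_lit 73747) (nat_lit 3) (.e (nat_lit 516131) (nat_lit 3) (.e (nat_lit 221215) (nat_lit 23) .nil))))))) (.g (nat_lit 1) (.e (nat_lit 223648) (nat_lit 0) .nil) .nil))))))))) 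
(.nd (nat_lit 4) (.nd (nat_lit 5) (.nd (nat_lit 6) (.nd (nat_lit 7) (.nd (nat_lit 8) 
(.nd (nat_lit 9) 
(.lf (nat_lit 519182) (.g (nat_lit 1662) (.e (nat_lit 196681) (nat_lit 17) (.e (nat_lit 131120) (nat_lit 12) (.e (nat_lit 385066) (nat_lit 26) (.e (nat_lit 532481) (nat_lit 0) (.e (nat_lit 2083) (nat_lit 142) .nil))))) (.g (nat_lit 0) (.e (nat_lit 220318) (nat_lit 0) .nil) .nil))) 
(.lf (nat_lit 519694) (.g (nat_lit 3427) (.e (nat_lit 204813) (nat_lit 9) (.e (nat_lit 426124) (nat_lit 2) (.e (nat_lit 196654) (nat_lit 11) (.e (nat_lit 16413) (nat_lit 2) (.e (nat_lit 196654) (nat_lit 11) (.e (nat_lit 16416) (nat_lit 3) .nil)))))) (.g (nat_lit 1) (.e (nat_lit 221915) (nat_lit 0) .nil) .nil)))) (.nd (nat_lit 9) 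
(.lf (nat_lit 519438) (.g (nat_lit 2086) (.e (nat_lit 204809) (nat_lit 9) (.e (nat_lit 426188) (nat_lit 9) (.e (nat_lit 426564) (nat_lit 34) (.e (nat_lit 393251) (nat_lit 18) (.e (nat_lit 164325) (nat_lit 230) (.e (nat_lit 163873) (nat_lit 3) .nil)))))) (.g (nat_lit 1) (.e (nat_lit 221256) (nat_lit 0) .nil) .nil))) 
(.lf (nat_lit 519950) (.g (nat_lit 2460) (.e (nat_lit 204829) (nat_lit 18) (.e (nat_lit 57686) (nat_lit 156) (.e (nat_lit 163903) (nat_lit 12) (.e (nat_lit 426568) (nat_lit 34) (.e (nat_lit 393277) (nat_lit 23) (.e (nat_lit 426135) (nat_lit 3) .nil)))))) (.g (nat_lit 1) (.e (nat_lit 223363) (nat_lit 0) .nil) .nil))))) (.nd (nat_lit 8) (.nd (nat_lit 9) 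
(.lf (nat_lit 519310) (.g (nat_lit 404) (.e (nat_lit 212736) (nat_lit 1) (.e (nat_lit 164399) (nat_lit 256) (.e (nat_lit 57390) (nat_lit 5) .nil))) (.g (nat_lit 0) (.e (nat_lit 220592) (nat_lit 0) .nil) .nil))) 
(.lf (nat_lit 519822) (.g (nat_lit 2013) (.e (nat_lit 204815) (nat_lit 17) (.e (nat_lit 6203) (nat_lit 332) (.e (nat_lit 2798) (nat_lit 180) (.e (nat_lit 303119) (nat_lit 3) (.e (nat_lit 204849) (nat_lit 25) .nil))))) (.g (nat_lit 0) (.e (nat_lit 222957) (nat_lit 0) .nil) .nil)))) (.nd (nat_lit 9) 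
(.lf (nat_lit 519566) (.g (nat_lit 1892) (.e (nat_lit 204811) (nat_lit 9) (.e (nat_lit 426262) (nat_lit 9) (.e (nat_lit 426565) (nat_lit 34) (.e (nat_lit 393254) (nat_lit 18) (.e (nat_lit 164324) (nat_lit 230) (.e (nat_lit 163873) (nat_lit 3) .nil)))))) (.g (nat_lit 1) (.e (nat_lit 221654) (nat_lit 0) .nil) .nil))) 
(.lf (nat_lit 520078) (.g (nat_lit 694) (.e (nat_lit 204829) (nat_lit 18) (.e (nat_lit 57852) (nat_lit 252) (.e (nat_lit 57446) (nat_lit 19) .nil))) (.g (nat_lit 0) (.e (nat_lit 223535) (nat_lit 0) .nil) .nil)))))) (.nd (nat_lit 7) (.nd (nat_lit 8) (.nd (nat_lit 9) 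
(.lf (nat_lit 519246) (.g (nat_lit 2878) (.e (nat_lit 196681) (nat_lit 17) (.e (nat_lit 131128) (nat_lit 13) (.e (nat_lit 393229) (nat_lit 9) (.e (nat_lit 335988) (nat_lit 1) (.e (nat_lit 57926) (nat_lit 282) (.e (nat_lit 163869) (nat_lit 2) .nil)))))) (.g (nat_lit 1) (.e (nat_lit 220479) (nat_lit 0) .nil) .nil))) 
(.lf (nat_lit 519758) (.g (nat_lit 2611) (.e (nat_lit 204813) (nat_lit 9) (.e (nat_lit 426200) (nat_lit 9) (.e (nat_lit 426481) (nat_lit 27) (.e (nat_lit 336385) (nat_lit 27) (.e (nat_lit 426098) (nat_lit 1) (.e (nat_lit 164327) (nat_lit 230) (.e (nat_lit 163873) (nat_lit 3) .nil))))))) (.g (nat_lit 1) (.e (nat_lit 222191) (nat_lit 0) .nil) .nil)))) (.nd (nat_lit 9) 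
(.lf (nat_lit 519502) (.g (nat_lit 2339) (.e (nat_lit 204811) (nat_lit 9) (.e (nat_lit 426230) (nat_lit 9) (.e (nat_lit 426565) (nat_lit 34) (.e (nat_lit 393251) (nat_lit 18) (.e (nat_lit 164327) (nat_lit 230) (.e (nat_lit 163873) (nat_lit 3) .nil)))))) (.g (nat_lit 1) (.e (nat_lit 221569) (nat_lit 0) .nil) .nil))) 
(.lf (nat_lit 520014) (.g (nat_lit 322) (.e (nat_lit 204829) (nat_lit 18) (.e (nat_lit 57692) (nat_lit 156) (.e (nat_lit 163905) (nat_lit 12) .nil))) (.g (nat_lit 0) (.e (nat_lit 223452) (nat_lit 0) .nil) .nil))))) (.nd (nat_lit 8) (.nd (nat_lit 9) 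
(.lf (nat_lit 519374) (.g (nat_lit 1336) (.e (nat_lit 204809) (nat_lit 9) (.e (nat_lit 426107) (nat_lit 1) (.e (nat_lit 164402) (nat_lit 256) (.e (nat_lit 57408) (nat_lit 12) (.e (nat_lit 336443) (nat_lit 32) .nil))))) (.g (nat_lit 0) (.e (nat_lit 220893) (nat_lit 0) .nil) .nil))) 
(.lf (nat_lit 519886) (.g (nat_lit 1488) (.e (nat_lit 204820) (nat_lit 17) (.e (nat_lit 2044) (nat_lit 142) (.e (nat_lit 704734) (nat_lit 11) (.e (nat_lit 16416) (nat_lit 3) (.e (nat_lit 204859) (nat_lit 26) .nil))))) (.g (nat_lit 0) (.e (nat_lit 223254) (nat_lit 0) .nil) .nil)))) (.nd (nat_lit 9) 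
(.lf (nat_lit 519630) (.g (nat_lit 2233) (.e (nat_lit 204812) (nat_lit 9) (.e (nat_lit 426189) (nat_lit 9) (.e (nat_lit 426566) (nat_lit 34) (.e (nat_lit 393252) (nat_lit 18) (.e (nat_lit 164330) (nat_lit 230) (.e (nat_lit 163874) (nat_lit 3) .nil)))))) (.g (nat_lit 1) (.e (nat_lit 221750) (nat_lit 0) .nil) .nil))) 
(.lf (nat_lit 520142) (.g (nat_lit 3237) (.e (nat_lit 204829) (nat_lit 18) (.e (nat_lit 57927) (nat_lit 282) (.e (nat_lit 163866) (nat_lit 2) (.e (nat_lit 196670) (nat_lit 14) (.e (nat_lit 73746) (nat_lit 3) (.e (nat_lit 516124) (nat_lit 2) (.e (nat_lit 213019) (nat_lit 9) (.e (nat_lit 2681) (nat_lit 168) .nil)))))))) (.g (nat_lit 1) (.e (nat_lit 223608) (nat_lit 0) .nil) .nil))))))) 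
(.nd (nat_lit 6) (.nd (nat_lit 7) (.nd (nat_lit 8) (.nd (nat_lit 9) 
(.lf (nat_lit 519214) (.g (nat_lit 2231) (.e (nat_lit 196681) (nat_lit 17) (.e (nat_lit 131123) (nat_lit 12) (.e (nat_lit 385066) (nat_lit 26) (.e (nat_lit 532513) (nat_lit 3) (.e (nat_lit 114697) (nat_lit 11) (.e (nat_lit 426122) (nat_lit 2) .nil)))))) (.g (nat_lit 1) (.e (nat_lit 220378) (nat_lit 0) .nil) .nil))) 
(.lf (nat_lit 519726) (.g (nat_lit 2960) (.e (nat_lit 204813) (nat_lit 9) (.e (nat_lit 426190) (nat_lit 9) (.e (nat_lit 426566) (nat_lit 34) (.e (nat_lit 393254) (nat_lit 18) (.e (nat_lit 164326) (nat_lit 230) (.e (nat_lit 163873) (nat_lit 3) .nil)))))) (.g (nat_lit 1) (.e (nat_lit 222060) (nat_lit 0) .nil) .nil)))) (.nd (nat_lit 9) 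
(.lf (nat_lit 519470) (.g (nat_lit 2690) (.e (nat_lit 204809) (nat_lit 9) (.e (nat_lit 426198) (nat_lit 9) (.e (nat_lit 426566) (nat_lit 34) (.e (nat_lit 393251) (nat_lit 18) (.e (nat_lit 164332) (nat_lit 230) (.e (nat_lit 163873) (nat_lit 3) .nil)))))) (.g (nat_lit 1) (.e (nat_lit 221290) (nat_lit 0) .nil) .nil))) 
(.lf (nat_lit 519982) (.g (nat_lit 2083) (.e (nat_lit 204829) (nat_lit 18) (.e (nat_lit 57688) (nat_lit 156) (.e (nat_lit 163907) (nat_lit 12) (.e (nat_lit 426491) (nat_lit 27) .nil)))) (.g (nat_lit 0) (.e (nat_lit 223401) (nat_lit 0) .nil) .nil))))) (.nd (nat_lit 8) (.nd (nat_lit 9) 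
(.lf (nat_lit 519342) (.g (nat_lit 2069) (.e (nat_lit 204808) (nat_lit 9) (.e (nat_lit 426107) (nat_lit 1) (.e (nat_lit 164403) (nat_lit 256) (.e (nat_lit 57409) (nat_lit 12) (.e (nat_lit 336430) (nat_lit 29) .nil))))) (.g (nat_lit 0) (.e (nat_lit 220703) (nat_lit 0) .nil) .nil))) 
(.lf (nat_lit 519854) (.g (nat_lit 3648) (.e (nat_lit 204816) (nat_lit 17) (.e (nat_lit 6724) (nat_lit 362) (.e (nat_lit 180243) (nat_lit 5) (.e (nat_lit 532563) (nat_lit 15) (.e (nat_lit 385105) (nat_lit 50) (.e (nat_lit 794368) (nat_lit 3) .nil)))))) (.g (nat_lit 1) (.e (nat_lit 223149) (nat_lit 0) .nil) .nil)))) (.nd (nat_lit 9) 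
(.lf (nat_lit 519598) (.g (nat_lit 2198) (.e (nat_lit 204812) (nat_lit 9) (.e (nat_lit 426107) (nat_lit 1) (.e (nat_lit 164403) (nat_lit 256) (.e (nat_lit 57406) (nat_lit 12) (.e (nat_lit 336443) (nat_lit 32) .nil))))) (.g (nat_lit 0) (.e (nat_lit 221691) (nat_lit 0) .nil) .nil))) 
(.lf (nat_lit 520110) (.g (nat_lit 2301) (.e (nat_lit 204829) (nat_lit 18) (.e (nat_lit 57926) (nat_lit 282) (.e (nat_lit 163869) (nat_lit 2) (.e (nat_lit 196670) (nat_lit 14) (.e (nat_lit 73746) (nat_lit 3) (.e (nat_lit 516124) (nat_lit 2) (.e (nat_lit 213016) (nat_lit 9) (.e (nat_lit 2683) (nat_lit 168) .nil)))))))) (.g (nat_lit 1) (.e (nat_lit 223571) (nat_lit 0) .nil) .nil)))))) 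
(.nd (nat_lit 7) (.nd (nat_lit 8) (.nd (nat_lit 9) 
(.lf (nat_lit 519278) (.g (nat_lit 1453) (.e (nat_lit 196698) (nat_lit 19) (.e (nat_lit 57810) (nat_lit 246) (.e (nat_lit 57879) (nat_lit 270) (.e (nat_lit 371) (nat_lit 32) (.e (nat_lit 426540) (nat_lit 29) (.e (nat_lit 360192) (nat_lit 2) .nil)))))) (.g (nat_lit 1) (.e (nat_lit 220543) (nat_lit 0) .nil) .nil))) 
(.lf (nat_lit 519790) (.g (nat_lit 1993) (.e (nat_lit 212736) (nat_lit 9) (.e (nat_lit 426100) (nat_lit 1) (.e (nat_lit 164403) (nat_lit 256) (.e (nat_lit 57409) (nat_lit 12) .nil)))) (.g (nat_lit 0) (.e (nat_lit 222423) (nat_lit 0) .nil) .nil)))) (.nd (nat_lit 9) 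
(.lf (nat_lit 519534) (.g (nat_lit 2348) (.e (nat_lit 204811) (nat_lit 9) (.e (nat_lit 426259) (nat_lit 9) (.e (nat_lit 426563) (nat_lit 34) (.e (nat_lit 393251) (nat_lit 18) (.e (nat_lit 164325) (nat_lit 230) (.e (nat_lit 163873) (nat_lit 3) .nil)))))) (.g (nat_lit 1) (.e (nat_lit 221612) (nat_lit 0) .nil) .nil))) 
(.lf (nat_lit 520046) (.g (nat_lit 3663) (.e (nat_lit 204829) (nat_lit 18) (.e (nat_lit 57847) (nat_lit 252) (.e (nat_lit 57407) (nat_lit 12) (.e (nat_lit 336456) (nat_lit 34) (.e (nat_lit 483346) (nat_lit 17) (.e (nat_lit 6445) (nat_lit 343) (.e (nat_lit 174) (nat_lit 12) .nil))))))) (.g (nat_lit 1) (.e (nat_lit 223494) (nat_lit 0) .nil) .nil))))) (.nd (nat_lit 8) (.nd (nat_lit 9) 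
(.lf (nat_lit 519406) (.g (nat_lit 2136) (.e (nat_lit 204809) (nat_lit 9) (.e (nat_lit 426124) (nat_lit 2) (.e (nat_lit 196656) (nat_lit 11) (.e (nat_lit 16412) (nat_lit 2) (.e (nat_lit 196654) (nat_lit 11) .nil))))) (.g (nat_lit 0) (.e (nat_lit 221036) (nat_lit 0) .nil) .nil))) 
(.lf (nat_lit 519918) (.g (nat_lit 539) (.e (nat_lit 204828) (nat_lit 18) (.e (nat_lit 57692) (nat_lit 156) (.e (nat_lit 163907) (nat_lit 12) .nil))) (.g (nat_lit 0) (.e (nat_lit 223327) (nat_lit 0) .nil) .nil)))) (.nd (nat_lit 9) 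
(.lf (nat_lit 519662) (.g (nat_lit 1793) (.e (nat_lit 204813) (nat_lit 9) (.e (nat_lit 426100) (nat_lit 1) (.e (nat_lit 164403) (nat_lit 256) (.e (nat_lit 57409) (nat_lit 12) .nil)))) (.g (nat_lit 0) (.e (nat_lit 221844) (nat_lit 0) .nil) .nil))) 
(.lf (nat_lit 520174) (.g (nat_lit 3516) (.e (nat_lit 204829) (nat_lit 18) (.e (nat_lit 57927) (nat_lit 282) (.e (nat_lit 163868) (nat_lit 2) (.e (nat_lit 196668) (nat_lit 14) (.e (nat_lit 73747) (nat_lit 3) (.e (nat_lit 516124) (nat_lit 2) (.e (nat_lit 213013) (nat_lit 9) (.e (nat_lit 2684) (nat_lit 168) .nil)))))))) (.g (nat_lit 1) (.e (nat_lit 223640) (nat_lit 0) .nil) .nil)))))))) 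
(.nd (nat_lit 5) (.nd (nat_lit 6) (.nd (nat_lit 7) (.nd (nat_lit 8) (.nd (nat_lit 9) 
(.lf (nat_lit 519198) (.g (nat_lit 2240) (.e (nat_lit 196681) (nat_lit 17) (.e (nat_lit 131120) (nat_lit 12) (.e (nat_lit 385068) (nat_lit 26) (.e (nat_lit 532515) (nat_lit 3) (.e (nat_lit 114698) (nat_lit 11) (.e (nat_lit 426121) (nat_lit 2) .nil)))))) (.g (nat_lit 1) (.e (nat_lit 220344) (nat_lit 0) .nil) .nil))) 
(.lf (nat_lit 519710) (.g (nat_lit 2776) (.e (nat_lit 204813) (nat_lit 9) (.e (nat_lit 426139) (nat_lit 3) (.e (nat_lit 204812) (nat_lit 9) (.e (nat_lit 426116) (nat_lit 2) (.e (nat_lit 196654) (nat_lit 11) (.e (nat_lit 16416) (nat_lit 3) .nil)))))) (.g (nat_lit 1) (.e (nat_lit 221986) (nat_lit 0) .nil) .nil)))) (.nd (nat_lit 9) 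
(.lf (nat_lit 519454) (.g (nat_lit 2455) (.e (nat_lit 204809) (nat_lit 9) (.e (nat_lit 426189) (nat_lit 9) (.e (nat_lit 426566) (nat_lit 34) (.e (nat_lit 393251) (nat_lit 18) (.e (nat_lit 164332) (nat_lit 230) (.e (nat_lit 163873) (nat_lit 3) .nil)))))) (.g (nat_lit 1) (.e (nat_lit 221273) (nat_lit 0) .nil) .nil))) 
(.lf (nat_lit 519966) (.g (nat_lit 3719) (.e (nat_lit 204829) (nat_lit 18) (.e (nat_lit 57688) (nat_lit 156) (.e (nat_lit 163902) (nat_lit 12) (.e (nat_lit 426568) (nat_lit 34) (.e (nat_lit 393281) (nat_lit 23) (.e (nat_lit 426133) (nat_lit 3) .nil)))))) (.g (nat_lit 1) (.e (nat_lit 223383) (nat_lit 0) .nil) .nil))))) (.nd (nat_lit 8) (.nd (nat_lit 9) 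
(.lf (nat_lit 519326) (.g (nat_lit 2029) (.e (nat_lit 204808) (nat_lit 9) (.e (nat_lit 426100) (nat_lit 1) (.e (nat_lit 164398) (nat_lit 256) (.e (nat_lit 57409) (nat_lit 12) (.e (nat_lit 336443) (nat_lit 32) .nil))))) (.g (nat_lit 0) (.e (nat_lit 220687) (nat_lit 0) .nil) .nil))) 
(.lf (nat_lit 519838) (.g (nat_lit 2177) (.e (nat_lit 204816) (nat_lit 17) (.e (nat_lit 6203) (nat_lit 332) (.e (nat_lit 2797) (nat_lit 180) (.e (nat_lit 303117) (nat_lit 2) (.e (nat_lit 196628) (nat_lit 9) .nil))))) (.g (nat_lit 0) (.e (nat_lit 223060) (nat_lit 0) .nil) .nil)))) (.nd (nat_lit 9) 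
(.lf (nat_lit 519582) (.g (nat_lit 1555) (.e (nat_lit 204812) (nat_lit 9) (.e (nat_lit 426100) (nat_lit 1) (.e (nat_lit 164398) (nat_lit 256) (.e (nat_lit 57409) (nat_lit 12) .nil)))) (.g (nat_lit 0) (.e (nat_lit 221674) (nat_lit 0) .nil) .nil))) 
(.lf (nat_lit 520094) (.g (nat_lit 2842) (.e (nat_lit 204829) (nat_lit 18) (.e (nat_lit 57925) (nat_lit 282) (.e (nat_lit 163875) (nat_lit 3) (.e (nat_lit 204862) (nat_lit 27) (.e (nat_lit 344117) (nat_lit 21) (.e (nat_lit 516123) (nat_lit 2) (.e (nat_lit 213013) (nat_lit 9) (.e (nat_lit 2684) (nat_lit 168) .nil)))))))) (.g (nat_lit 1) (.e (nat_lit 223554) (nat_lit 0) .nil) .nil)))))) 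
(.nd (nat_lit 7) (.nd (nat_lit 8) (.nd (nat_lit 9) 
(.lf (nat_lit 519262) (.g (nat_lit 1274) (.e (nat_lit 204544) (nat_lit 18) (.e (nat_lit 2798) (nat_lit 180) (.e (nat_lit 303133) (nat_lit 9) (.e (nat_lit 426412) (nat_lit 15) (.e (nat_lit 7936) (nat_lit 124) .nil))))) (.g (nat_lit 0) (.e (nat_lit 220515) (nat_lit 0) .nil) .nil))) 
(.lf (nat_lit 519774) (.g (nat_lit 4056) (.e (nat_lit 204813) (nat_lit 9) (.e (nat_lit 426200) (nat_lit 9) (.e (nat_lit 426566) (nat_lit 34) (.e (nat_lit 393253) (nat_lit 18) (.e (nat_lit 164332) (nat_lit 230) (.e (nat_lit 163874) (nat_lit 3) .nil)))))) (.g (nat_lit 1) (.e (nat_lit 222208) (nat_lit 0) .nil) .nil)))) (.nd (nat_lit 9) 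
(.lf (nat_lit 519518) (.g (nat_lit 2793) (.e (nat_lit 204811) (nat_lit 9) (.e (nat_lit 426232) (nat_lit 9) (.e (nat_lit 426565) (nat_lit 34) (.e (nat_lit 393253) (nat_lit 18) (.e (nat_lit 164327) (nat_lit 230) (.e (nat_lit 163873) (nat_lit 3) .nil)))))) (.g (nat_lit 1) (.e (nat_lit 221585) (nat_lit 0) .nil) .nil))) 
(.lf (nat_lit 520030) (.g (nat_lit 555) (.e (nat_lit 204829) (nat_lit 18) (.e (nat_lit 57847) (nat_lit 252) (.e (nat_lit 57365) (nat_lit 1) .nil))) (.g (nat_lit 0) (.e (nat_lit 223478) (nat_lit 0) .nil) .nil))))) (.nd (nat_lit 8) (.nd (nat_lit 9) 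
(.lf (nat_lit 519390) (.g (nat_lit 640) (.e (nat_lit 204809) (nat_lit 9) (.e (nat_lit 426123) (nat_lit 2) (.e (nat_lit 196652) (nat_lit 11) .nil))) (.g (nat_lit 0) (.e (nat_lit 220950) (nat_lit 0) .nil) .nil))) 
(.lf (nat_lit 519902) (.g (nat_lit 979) (.e (nat_lit 204824) (nat_lit 17) (.e (nat_lit 6114) (nat_lit 332) (.e (nat_lit 1370) (nat_lit 103) .nil))) (.g (nat_lit 0) (.e (nat_lit 223302) (nat_lit 0) .nil) .nil)))) (.nd (nat_lit 9) 
(.lf (nat_lit 519646) (.g (nat_lit 1998) (.e (nat_lit 204813) (nat_lit 9) (.e (nat_lit 426098) (nat_lit 1) (.e (nat_lit 164398) (nat_lit 256) (.e (nat_lit 57409) (nat_lit 12) (.e (nat_lit 336430) (nat_lit 29) .nil))))) (.g (nat_lit 0) (.e (nat_lit 221828) (nat_lit 0) .nil) .nil))) 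
(.lf (nat_lit 520158) (.g (nat_lit 2299) (.e (nat_lit 204829) (nat_lit 18) (.e (nat_lit 57927) (nat_lit 282) (.e (nat_lit 163868) (nat_lit 2) (.e (nat_lit 196668) (nat_lit 14) (.e (nat_lit 73746) (nat_lit 3) (.e (nat_lit 516124) (nat_lit 2) (.e (nat_lit 213016) (nat_lit 9) (.e (nat_lit 2683) (nat_lit 168) .nil)))))))) (.g (nat_lit 1) (.e (nat_lit 223624) (nat_lit 0) .nil) .nil))))))) 
(.nd (nat_lit 6) (.nd (nat_lit 7) (.nd (nat_lit 8) (.nd (nat_lit 9) 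
(.lf (nat_lit 519230) (.g (nat_lit 2975) (.e (nat_lit 196681) (nat_lit 17) (.e (nat_lit 131123) (nat_lit 12) (.e (nat_lit 385068) (nat_lit 26) (.e (nat_lit 532513) (nat_lit 3) (.e (nat_lit 114697) (nat_lit 11) (.e (nat_lit 426124) (nat_lit 2) .nil)))))) (.g (nat_lit 1) (.e (nat_lit 220400) (nat_lit 0) .nil) .nil))) 
(.lf (nat_lit 519742) (.g (nat_lit 2734) (.e (nat_lit 204813) (nat_lit 9) (.e (nat_lit 426198) (nat_lit 9) (.e (nat_lit 426566) (nat_lit 34) (.e (nat_lit 393254) (nat_lit 18) (.e (nat_lit 164329) (nat_lit 230) .nil))))) (.g (nat_lit 0) (.e (nat_lit 222098) (nat_lit 0) .nil) .nil)))) (.nd (nat_lit 9) 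
(.lf (nat_lit 519486) (.g (nat_lit 2514) (.e (nat_lit 204809) (nat_lit 9) (.e (nat_lit 426200) (nat_lit 9) (.e (nat_lit 426568) (nat_lit 34) (.e (nat_lit 393253) (nat_lit 18) (.e (nat_lit 164330) (nat_lit 230) (.e (nat_lit 163874) (nat_lit 3) .nil)))))) (.g (nat_lit 1) (.e (nat_lit 221371) (nat_lit 0) .nil) .nil))) 
(.lf (nat_lit 519998) (.g (nat_lit 2554) (.e (nat_lit 204829) (nat_lit 18) (.e (nat_lit 57691) (nat_lit 156) (.e (nat_lit 163905) (nat_lit 12) (.e (nat_lit 426568) (nat_lit 34) (.e (nat_lit 393277) (nat_lit 23) (.e (nat_lit 426135) (nat_lit 3) .nil)))))) (.g (nat_lit 1) (.e (nat_lit 223427) (nat_lit 0) .nil) .nil))))) (.nd (nat_lit 8) (.nd (nat_lit 9) 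
(.lf (nat_lit 519358) (.g (nat_lit 1772) (.e (nat_lit 204809) (nat_lit 9) (.e (nat_lit 426099) (nat_lit 1) (.e (nat_lit 164398) (nat_lit 256) (.e (nat_lit 57407) (nat_lit 12) (.e (nat_lit 336443) (nat_lit 32) .nil))))) (.g (nat_lit 0) (.e (nat_lit 220871) (nat_lit 0) .nil) .nil))) 
(.lf (nat_lit 519870) (.g (nat_lit 1892) (.e (nat_lit 204817) (nat_lit 17) (.e (nat_lit 2078) (nat_lit 142) (.e (nat_lit 704734) (nat_lit 11) (.e (nat_lit 16416) (nat_lit 3) (.e (nat_lit 204866) (nat_lit 28) .nil))))) (.g (nat_lit 0) (.e (nat_lit 223217) (nat_lit 0) .nil) .nil)))) (.nd (nat_lit 9) 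
(.lf (nat_lit 519614) (.g (nat_lit 1953) (.e (nat_lit 204812) (nat_lit 9) (.e (nat_lit 426124) (nat_lit 2) (.e (nat_lit 196656) (nat_lit 11) (.e (nat_lit 16411) (nat_lit 2) .nil)))) (.g (nat_lit 0) (.e (nat_lit 221715) (nat_lit 0) .nil) .nil))) 
(.lf (nat_lit 520126) (.g (nat_lit 1861) (.e (nat_lit 204829) (nat_lit 18) (.e (nat_lit 57926) (nat_lit 282) (.e (nat_lit 163874) (nat_lit 3) (.e (nat_lit 204853) (nat_lit 26) .nil)))) (.g (nat_lit 0) (.e (nat_lit 223587) (nat_lit 0) .nil) .nil)))))) (.nd (nat_lit 7) (.nd (nat_lit 8) (.nd (nat_lit 9) 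
(.lf (nat_lit 519294) (.g (nat_lit 1785) (.e (nat_lit 196698) (nat_lit 19) (.e (nat_lit 57813) (nat_lit 246) (.e (nat_lit 57878) (nat_lit 270) (.e (nat_lit 371) (nat_lit 32) (.e (nat_lit 426542) (nat_lit 29) (.e (nat_lit 360192) (nat_lit 2) .nil)))))) (.g (nat_lit 1) (.e (nat_lit 220559) (nat_lit 0) .nil) .nil))) 
(.lf (nat_lit 519806) (.g (nat_lit 427) (.e (nat_lit 212736) (nat_lit 9) (.e (nat_lit 426234) (nat_lit 9) (.e (nat_lit 426565) (nat_lit 34) (.e (nat_lit 393254) (nat_lit 18) .nil)))) (.g (nat_lit 0) (.e (nat_lit 222493) (nat_lit 0) .nil) .nil)))) (.nd (nat_lit 9) 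
(.lf (nat_lit 519550) (.g (nat_lit 2106) (.e (nat_lit 204811) (nat_lit 9) (.e (nat_lit 426260) (nat_lit 9) (.e (nat_lit 426565) (nat_lit 34) (.e (nat_lit 393254) (nat_lit 18) (.e (nat_lit 164332) (nat_lit 230) (.e (nat_lit 163874) (nat_lit 3) .nil)))))) (.g (nat_lit 1) (.e (nat_lit 221638) (nat_lit 0) .nil) .nil))) 
(.lf (nat_lit 520062) (.g (nat_lit 1757) (.e (nat_lit 204829) (nat_lit 18) (.e (nat_lit 57849) (nat_lit 252) (.e (nat_lit 57379) (nat_lit 3) (.e (nat_lit 98337) (nat_lit 19) .nil)))) (.g (nat_lit 0) (.e (nat_lit 223518) (nat_lit 0) .nil) .nil))))) (.nd (nat_lit 8) (.nd (nat_lit 9) 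
(.lf (nat_lit 519422) (.g (nat_lit 946) (.e (nat_lit 204809) (nat_lit 9) (.e (nat_lit 426139) (nat_lit 3) (.e (nat_lit 204821) (nat_lit 17) (.e (nat_lit 2155) (nat_lit 142) .nil)))) (.g (nat_lit 0) (.e (nat_lit 221193) (nat_lit 0) .nil) .nil))) 
(.lf (nat_lit 519934) (.g (nat_lit 2566) (.e (nat_lit 204828) (nat_lit 18) (.e (nat_lit 57931) (nat_lit 282) (.e (nat_lit 163867) (nat_lit 2) (.e (nat_lit 196668) (nat_lit 14) (.e (nat_lit 73746) (nat_lit 3) .nil))))) (.g (nat_lit 0) (.e (nat_lit 223343) (nat_lit 0) .nil) .nil)))) (.nd (nat_lit 9) 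
(.lf (nat_lit 519678) (.g (nat_lit 1886) (.e (nat_lit 204813) (nat_lit 9) (.e (nat_lit 426116) (nat_lit 2) (.e (nat_lit 196654) (nat_lit 11) (.e (nat_lit 16409) (nat_lit 2) .nil)))) (.g (nat_lit 0) (.e (nat_lit 221869) (nat_lit 0) .nil) .nil))) 
(.lf (nat_lit 520190) (.g (nat_lit 3733) (.e (nat_lit 204829) (nat_lit 18) (.e (nat_lit 57927) (nat_lit 282) (.e (nat_lit 163868) (nat_lit 2) (.e (nat_lit 196670) (nat_lit 14) (.e (nat_lit 73746) (nat_lit 3) (.e (nat_lit 516124) (nat_lit 2) (.e (nat_lit 213019) (nat_lit 9) (.e (nat_lit 2683) (nat_lit 168) .nil)))))))) (.g (nat_lit 1) (.e (nat_lit 223656) (nat_lit 0) .nil) .nil)))))))))))) 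
(.nd (nat_lit 1) (.nd (nat_lit 2) (.nd (nat_lit 3) (.nd (nat_lit 4) (.nd (nat_lit 5) 
(.nd (nat_lit 6) (.nd (nat_lit 7) (.nd (nat_lit 8) (.nd (nat_lit 9) 
(.lf (nat_lit 519169) (.g (nat_lit 3289) (.e (nat_lit 196681) (nat_lit 17) (.e (nat_lit 131109) (nat_lit 9) (.e (nat_lit 336324) (nat_lit 18) (.e (nat_lit 204838) (nat_lit 20) (.e (nat_lit 114697) (nat_lit 11) (.e (nat_lit 426123) (nat_lit 2) .nil)))))) (.g (nat_lit 1) (.e (nat_lit 220261) (nat_lit 0) .nil) .nil))) 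
(.lf (nat_lit 519681) (.g (nat_lit 3363) (.e (nat_lit 204813) (nat_lit 9) (.e (nat_lit 426116) (nat_lit 2) (.e (nat_lit 196656) (nat_lit 11) (.e (nat_lit 16412) (nat_lit 2) (.e (nat_lit 196656) (nat_lit 11) (.e (nat_lit 16415) (nat_lit 3) .nil)))))) (.g (nat_lit 1) (.e (nat_lit 221878) (nat_lit 0) .nil) .nil)))) (.nd (nat_lit 9) 
(.lf (nat_lit 519425) (.g (nat_lit 980) (.e (nat_lit 204809) (nat_lit 9) (.e (nat_lit 426139) (nat_lit 3) (.e (nat_lit 204843) (nat_lit 23) .nil))) (.g (nat_lit 0) (.e (nat_lit 221241) (nat_lit 0) .nil) .nil))) 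
(.lf (nat_lit 519937) (.g (nat_lit 3213) (.e (nat_lit 204828) (nat_lit 18) (.e (nat_lit 57931) (nat_lit 282) (.e (nat_lit 163869) (nat_lit 2) (.e (nat_lit 196668) (nat_lit 14) (.e (nat_lit 73746) (nat_lit 3) .nil))))) (.g (nat_lit 0) (.e (nat_lit 223346) (nat_lit 0) .nil) .nil))))) (.nd (nat_lit 8) (.nd (nat_lit 9) 
(.lf (nat_lit 519297) (.g (nat_lit 2272) (.e (nat_lit 196698) (nat_lit 19) (.e (nat_lit 57813) (nat_lit 246) (.e (nat_lit 57878) (nat_lit 270) (.e (nat_lit 496) (nat_lit 39) (.e (nat_lit 483383) (nat_lit 23) (.e (nat_lit 336320) (nat_lit 17) .nil)))))) (.g (nat_lit 1) (.e (nat_lit 220562) (nat_lit 0) .nil) .nil))) 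
(.lf (nat_lit 519809) (.g (nat_lit 767) (.e (nat_lit 212736) (nat_lit 15) (.e (nat_lit 475210) (nat_lit 41) (.e (nat_lit 712742) (nat_lit 27) .nil))) (.g (nat_lit 0) (.e (nat_lit 222852) (nat_lit 0) .nil) .nil)))) (.nd (nat_lit 9) 
(.lf (nat_lit 519553) (.g (nat_lit 2126) (.e (nat_lit 204811) (nat_lit 9) (.e (nat_lit 426261) (nat_lit 9) (.e (nat_lit 426503) (nat_lit 27) (.e (nat_lit 336387) (nat_lit 27) (.e (nat_lit 426108) (nat_lit 1) (.e (nat_lit 164332) (nat_lit 230) (.e (nat_lit 163873) (nat_lit 3) .nil))))))) (.g (nat_lit 1) (.e (nat_lit 221641) (nat_lit 0) .nil) .nil))) 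
(.lf (nat_lit 520065) (.g (nat_lit 2405) (.e (nat_lit 204829) (nat_lit 18) (.e (nat_lit 57849) (nat_lit 252) (.e (nat_lit 57379) (nat_lit 3) (.e (nat_lit 98342) (nat_lit 20) (.e (nat_lit 221210) (nat_lit 22) .nil))))) (.g (nat_lit 0) (.e (nat_lit 223521) (nat_lit 0) .nil) .nil)))))) (.nd (nat_lit 7) (.nd (nat_lit 8) (.nd (nat_lit 9) 
(.lf (nat_lit 519233) (.g (nat_lit 2726) (.e (nat_lit 196681) (nat_lit 17) (.e (nat_lit 131123) (nat_lit 12) (.e (nat_lit 385068) (nat_lit 26) (.e (nat_lit 532515) (nat_lit 3) (.e (nat_lit 114694) (nat_lit 11) (.e (nat_lit 426124) (nat_lit 2) .nil)))))) (.g (nat_lit 1) (.e (nat_lit 220404) (nat_lit 0) .nil) .nil))) 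
(.lf (nat_lit 519745) (.g (nat_lit 2909) (.e (nat_lit 204813) (nat_lit 9) (.e (nat_lit 426198) (nat_lit 9) (.e (nat_lit 426568) (nat_lit 34) (.e (nat_lit 393251) (nat_lit 18) (.e (nat_lit 164332) (nat_lit 230) (.e (nat_lit 163874) (nat_lit 3) .nil)))))) (.g (nat_lit 1) (.e (nat_lit 222101) (nat_lit 0) .nil) .nil)))) (.nd (nat_lit 9) 
(.lf (nat_lit 519489) (.g (nat_lit 2442) (.e (nat_lit 204809) (nat_lit 9) (.e (nat_lit 433920) (nat_lit 17) (.e (nat_lit 90174) (nat_lit 14) (.e (nat_lit 180243) (nat_lit 5) (.e (nat_lit 532513) (nat_lit 3) (.e (nat_lit 122624) (nat_lit 3) .nil)))))) (.g (nat_lit 1) (.e (nat_lit 221546) (nat_lit 0) .nil) .nil))) 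
(.lf (nat_lit 520001) (.g (nat_lit 1176) (.e (nat_lit 204829) (nat_lit 18) (.e (nat_lit 57691) (nat_lit 156) (.e (nat_lit 163906) (nat_lit 12) (.e (nat_lit 426479) (nat_lit 27) (.e (nat_lit 336430) (nat_lit 29) .nil))))) (.g (nat_lit 0) (.e (nat_lit 223430) (nat_lit 0) .nil) .nil))))) (.nd (nat_lit 8) (.nd (nat_lit 9) 
(.lf (nat_lit 519361) (.g (nat_lit 1795) (.e (nat_lit 204809) (nat_lit 9) (.e (nat_lit 426099) (nat_lit 1) (.e (nat_lit 164398) (nat_lit 256) (.e (nat_lit 57411) (nat_lit 12) (.e (nat_lit 336443) (nat_lit 32) .nil))))) (.g (nat_lit 0) (.e (nat_lit 220874) (nat_lit 0) .nil) .nil))) 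
(.lf (nat_lit 519873) (.g (nat_lit 1974) (.e (nat_lit 204819) (nat_lit 17) (.e (nat_lit 6113) (nat_lit 332) (.e (nat_lit 1374) (nat_lit 104) (.e (nat_lit 303117) (nat_lit 2) .nil)))) (.g (nat_lit 0) (.e (nat_lit 223232) (nat_lit 0) .nil) .nil)))) (.nd (nat_lit 9) 
(.lf (nat_lit 519617) (.g (nat_lit 450) (.e (nat_lit 204812) (nat_lit 9) (.e (nat_lit 426133) (nat_lit 3) (.e (nat_lit 204813) (nat_lit 9) .nil))) (.g (nat_lit 0) (.e (nat_lit 221722) (nat_lit 0) .nil) .nil))) 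
(.lf (nat_lit 520129) (.g (nat_lit 1641) (.e (nat_lit 204829) (nat_lit 18) (.e (nat_lit 57926) (nat_lit 282) (.e (nat_lit 163875) (nat_lit 3) (.e (nat_lit 204850) (nat_lit 26) .nil)))) (.g (nat_lit 0) (.e (nat_lit 223590) (nat_lit 0) .nil) .nil))))))) (.nd (nat_lit 6) (.nd (nat_lit 7) (.nd (nat_lit 8) (.nd (nat_lit 9) 
(.lf (nat_lit 519201) (.g (nat_lit 4236) (.e (nat_lit 196681) (nat_lit 17) (.e (nat_lit 131120) (nat_lit 12) (.e (nat_lit 385074) (nat_lit 31) (.e (nat_lit 573482) (nat_lit 13) (.e (nat_lit 65630) (nat_lit 14) (.e (nat_lit 401425) (nat_lit 2) .nil)))))) (.g (nat_lit 1) (.e (nat_lit 220351) (nat_lit 0) .nil) .nil))) 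
(.lf (nat_lit 519713) (.g (nat_lit 1405) (.e (nat_lit 204813) (nat_lit 9) (.e (nat_lit 426139) (nat_lit 3) (.e (nat_lit 204813) (nat_lit 9) (.e (nat_lit 426123) (nat_lit 2) (.e (nat_lit 196654) (nat_lit 11) .nil))))) (.g (nat_lit 0) (.e (nat_lit 221995) (nat_lit 0) .nil) .nil)))) (.nd (nat_lit 9) 
(.lf (nat_lit 519457) (.g (nat_lit 3386) (.e (nat_lit 204809) (nat_lit 9) (.e (nat_lit 426189) (nat_lit 9) (.e (nat_lit 426566) (nat_lit 34) (.e (nat_lit 393253) (nat_lit 18) (.e (nat_lit 164325) (nat_lit 230) (.e (nat_lit 163873) (nat_lit 3) .nil)))))) (.g (nat_lit 1) (.e (nat_lit 221276) (nat_lit 0) .nil) .nil))) 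
(.lf (nat_lit 519969) (.g (nat_lit 2887) (.e (nat_lit 204829) (nat_lit 18) (.e (nat_lit 57688) (nat_lit 156) (.e (nat_lit 163903) (nat_lit 12) (.e (nat_lit 426566) (nat_lit 34) (.e (nat_lit 393266) (nat_lit 23) (.e (nat_lit 426140) (nat_lit 3) .nil)))))) (.g (nat_lit 1) (.e (nat_lit 223386) (nat_lit 0) .nil) .nil))))) (.nd (nat_lit 8) (.nd (nat_lit 9) 
(.lf (nat_lit 519329) (.g (nat_lit 2062) (.e (nat_lit 204808) (nat_lit 9) (.e (nat_lit 426100) (nat_lit 1) (.e (nat_lit 164398) (nat_lit 256) (.e (nat_lit 57411) (nat_lit 12) (.e (nat_lit 336443) (nat_lit 32) .nil))))) (.g (nat_lit 0) (.e (nat_lit 220690) (nat_lit 0) .nil) .nil))) 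
(.lf (nat_lit 519841) (.g (nat_lit 2077) (.e (nat_lit 204816) (nat_lit 17) (.e (nat_lit 6203) (nat_lit 332) (.e (nat_lit 2798) (nat_lit 180) (.e (nat_lit 303117) (nat_lit 2) (.e (nat_lit 196628) (nat_lit 9) .nil))))) (.g (nat_lit 0) (.e (nat_lit 223071) (nat_lit 0) .nil) .nil)))) (.nd (nat_lit 9) 
(.lf (nat_lit 519585) (.g (nat_lit 1877) (.e (nat_lit 204812) (nat_lit 9) (.e (nat_lit 426100) (nat_lit 1) (.e (nat_lit 164398) (nat_lit 256) (.e (nat_lit 57410) (nat_lit 12) (.e (nat_lit 336443) (nat_lit 32) .nil))))) (.g (nat_lit 0) (.e (nat_lit 221677) (nat_lit 0) .nil) .nil))) 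
(.lf (nat_lit 520097) (.g (nat_lit 3042) (.e (nat_lit 204829) (nat_lit 18) (.e (nat_lit 57926) (nat_lit 282) (.e (nat_lit 163868) (nat_lit 2) (.e (nat_lit 196668) (nat_lit 14) (.e (nat_lit 73746) (nat_lit 3) (.e (nat_lit 516124) (nat_lit 2) (.e (nat_lit 213013) (nat_lit 9) (.e (nat_lit 2684) (nat_lit 168) .nil)))))))) (.g (nat_lit 1) (.e (nat_lit 223557) (nat_lit 0) .nil) .nil)))))) 
(.nd (nat_lit 7) (.nd (nat_lit 8) (.nd (nat_lit 9) 
(.lf (nat_lit 519265) (.g (nat_lit 1418) (.e (nat_lit 196698) (nat_lit 19) (.e (nat_lit 57808) (nat_lit 246) (.e (nat_lit 57879) (nat_lit 270) (.e (nat_lit 371) (nat_lit 32) (.e (nat_lit 426540) (nat_lit 29) (.e (nat_lit 360192) (nat_lit 2) .nil)))))) (.g (nat_lit 1) (.e (nat_lit 220530) (nat_lit 0) .nil) .nil))) 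
(.lf (nat_lit 519777) (.g (nat_lit 3592) (.e (nat_lit 204813) (nat_lit 9) (.e (nat_lit 426200) (nat_lit 9) (.e (nat_lit 426566) (nat_lit 34) (.e (nat_lit 393254) (nat_lit 18) (.e (nat_lit 164327) (nat_lit 230) (.e (nat_lit 163875) (nat_lit 3) .nil)))))) (.g (nat_lit 1) (.e (nat_lit 222211) (nat_lit 0) .nil) .nil)))) (.nd (nat_lit 9) 
(.lf (nat_lit 519521) (.g (nat_lit 2181) (.e (nat_lit 204811) (nat_lit 9) (.e (nat_lit 426232) (nat_lit 9) (.e (nat_lit 426565) (nat_lit 34) (.e (nat_lit 393253) (nat_lit 18) (.e (nat_lit 164330) (nat_lit 230) (.e (nat_lit 163873) (nat_lit 3) .nil)))))) (.g (nat_lit 1) (.e (nat_lit 221588) (nat_lit 0) .nil) .nil))) 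
(.lf (nat_lit 520033) (.g (nat_lit 3905) (.e (nat_lit 204829) (nat_lit 18) (.e (nat_lit 57847) (nat_lit 252) (.e (nat_lit 57377) (nat_lit 3) (.e (nat_lit 98317) (nat_lit 9) (.e (nat_lit 336027) (nat_lit 3) (.e (nat_lit 98321) (nat_lit 17) (.e (nat_lit 3771) (nat_lit 229) (.e (nat_lit 794673) (nat_lit 23) .nil)))))))) (.g (nat_lit 1) (.e (nat_lit 223481) (nat_lit 0) .nil) .nil))))) 
(.nd (nat_lit 8) (.nd (nat_lit 9) 
(.lf (nat_lit 519393) (.g (nat_lit 1795) (.e (nat_lit 204809) (nat_lit 9) (.e (nat_lit 426123) (nat_lit 2) (.e (nat_lit 196656) (nat_lit 11) (.e (nat_lit 16412) (nat_lit 2) .nil)))) (.g (nat_lit 0) (.e (nat_lit 220965) (nat_lit 0) .nil) .nil))) 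
(.lf (nat_lit 519905) (.g (nat_lit 2225) (.e (nat_lit 212736) (nat_lit 17) (.e (nat_lit 6113) (nat_lit 332) (.e (nat_lit 1374) (nat_lit 104) (.e (nat_lit 303119) (nat_lit 3) (.e (nat_lit 204885) (nat_lit 33) .nil))))) (.g (nat_lit 0) (.e (nat_lit 223306) (nat_lit 0) .nil) .nil)))) (.nd (nat_lit 9) 
(.lf (nat_lit 519649) (.g (nat_lit 2149) (.e (nat_lit 204813) (nat_lit 9) (.e (nat_lit 426098) (nat_lit 1) (.e (nat_lit 164398) (nat_lit 256) (.e (nat_lit 57411) (nat_lit 12) (.e (nat_lit 336443) (nat_lit 32) .nil))))) (.g (nat_lit 0) (.e (nat_lit 221831) (nat_lit 0) .nil) .nil))) 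
(.lf (nat_lit 520161) (.g (nat_lit 3246) (.e (nat_lit 204829) (nat_lit 18) (.e (nat_lit 57927) (nat_lit 282) (.e (nat_lit 163868) (nat_lit 2) (.e (nat_lit 196668) (nat_lit 14) (.e (nat_lit 73746) (nat_lit 3) (.e (nat_lit 516124) (nat_lit 2) (.e (nat_lit 213019) (nat_lit 9) (.e (nat_lit 2676) (nat_lit 168) .nil)))))))) (.g (nat_lit 1) (.e (nat_lit 223627) (nat_lit 0) .nil) .nil)))))))) 
(.nd (nat_lit 5) (.nd (nat_lit 6) (.nd (nat_lit 7) (.nd (nat_lit 8) (.nd (nat_lit 9) 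
(.lf (nat_lit 519185) (.g (nat_lit 2258) (.e (nat_lit 196681) (nat_lit 17) (.e (nat_lit 131120) (nat_lit 12) (.e (nat_lit 385066) (nat_lit 26) (.e (nat_lit 532513) (nat_lit 3) (.e (nat_lit 114697) (nat_lit 11) (.e (nat_lit 426121) (nat_lit 2) .nil)))))) (.g (nat_lit 1) (.e (nat_lit 220323) (nat_lit 0) .nil) .nil))) 
(.lf (nat_lit 519697) (.g (nat_lit 3695) (.e (nat_lit 204813) (nat_lit 9) (.e (nat_lit 426124) (nat_lit 2) (.e (nat_lit 196656) (nat_lit 11) (.e (nat_lit 16412) (nat_lit 2) (.e (nat_lit 196653) (nat_lit 11) (.e (nat_lit 16415) (nat_lit 3) .nil)))))) (.g (nat_lit 1) (.e (nat_lit 221927) (nat_lit 0) .nil) .nil)))) (.nd (nat_lit 9) 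
(.lf (nat_lit 519441) (.g (nat_lit 3517) (.e (nat_lit 204809) (nat_lit 9) (.e (nat_lit 426188) (nat_lit 9) (.e (nat_lit 426566) (nat_lit 34) (.e (nat_lit 393253) (nat_lit 18) (.e (nat_lit 164324) (nat_lit 230) (.e (nat_lit 163873) (nat_lit 3) .nil)))))) (.g (nat_lit 1) (.e (nat_lit 221259) (nat_lit 0) .nil) .nil))) 
(.lf (nat_lit 519953) (.g (nat_lit 2610) (.e (nat_lit 204829) (nat_lit 18) (.e (nat_lit 57687) (nat_lit 156) (.e (nat_lit 163903) (nat_lit 12) (.e (nat_lit 426479) (nat_lit 27) (.e (nat_lit 336430) (nat_lit 29) (.e (nat_lit 442425) (nat_lit 23) .nil)))))) (.g (nat_lit 1) (.e (nat_lit 223366) (nat_lit 0) .nil) .nil))))) (.nd (nat_lit 8) (.nd (nat_lit 9) 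
(.lf (nat_lit 519313) (.g (nat_lit 2433) (.e (nat_lit 212736) (nat_lit 5) (.e (nat_lit 253991) (nat_lit 11) (.e (nat_lit 16412) (nat_lit 2) (.e (nat_lit 196666) (nat_lit 13) (.e (nat_lit 65630) (nat_lit 14) .nil))))) (.g (nat_lit 0) (.e (nat_lit 220667) (nat_lit 0) .nil) .nil))) 
(.lf (nat_lit 519825) (.g (nat_lit 2981) (.e (nat_lit 204815) (nat_lit 17) (.e (nat_lit 6722) (nat_lit 362) (.e (nat_lit 180245) (nat_lit 5) (.e (nat_lit 532523) (nat_lit 7) (.e (nat_lit 319505) (nat_lit 10) (.e (nat_lit 5714) (nat_lit 312) (.e (nat_lit 2682) (nat_lit 168) .nil))))))) (.g (nat_lit 1) (.e (nat_lit 222969) (nat_lit 0) .nil) .nil)))) (.nd (nat_lit 9) 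
(.lf (nat_lit 519569) (.g (nat_lit 1767) (.e (nat_lit 204811) (nat_lit 9) (.e (nat_lit 426262) (nat_lit 9) (.e (nat_lit 426565) (nat_lit 34) (.e (nat_lit 393254) (nat_lit 18) (.e (nat_lit 164332) (nat_lit 230) (.e (nat_lit 163873) (nat_lit 3) .nil)))))) (.g (nat_lit 1) (.e (nat_lit 221657) (nat_lit 0) .nil) .nil))) 
(.lf (nat_lit 520081) (.g (nat_lit 1412) (.e (nat_lit 204829) (nat_lit 18) (.e (nat_lit 57854) (nat_lit 252) (.e (nat_lit 57405) (nat_lit 12) (.e (nat_lit 336454) (nat_lit 34) (.e (nat_lit 483382) (nat_lit 23) .nil))))) (.g (nat_lit 0) (.e (nat_lit 223539) (nat_lit 0) .nil) .nil)))))) (.nd (nat_lit 7) (.nd (nat_lit 8) (.nd (nat_lit 9) 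
(.lf (nat_lit 519249) (.g (nat_lit 4643) (.e (nat_lit 196683) (nat_lit 18) (.e (nat_lit 2819) (nat_lit 181) (.e (nat_lit 311339) (nat_lit 12) (.e (nat_lit 475184) (nat_lit 29) (.e (nat_lit 557109) (nat_lit 15) (.e (nat_lit 188449) (nat_lit 22) .nil)))))) (.g (nat_lit 1) (.e (nat_lit 220487) (nat_lit 0) .nil) .nil))) 
(.lf (nat_lit 519761) (.g (nat_lit 3138) (.e (nat_lit 204813) (nat_lit 9) (.e (nat_lit 426200) (nat_lit 9) (.e (nat_lit 426481) (nat_lit 27) (.e (nat_lit 336389) (nat_lit 27) (.e (nat_lit 426098) (nat_lit 1) (.e (nat_lit 164325) (nat_lit 230) (.e (nat_lit 163874) (nat_lit 3) .nil))))))) (.g (nat_lit 1) (.e (nat_lit 222194) (nat_lit 0) .nil) .nil)))) (.nd (nat_lit 9) 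
(.lf (nat_lit 519505) (.g (nat_lit 2205) (.e (nat_lit 204811) (nat_lit 9) (.e (nat_lit 426230) (nat_lit 9) (.e (nat_lit 426565) (nat_lit 34) (.e (nat_lit 393253) (nat_lit 18) (.e (nat_lit 164331) (nat_lit 230) (.e (nat_lit 163873) (nat_lit 3) .nil)))))) (.g (nat_lit 1) (.e (nat_lit 221572) (nat_lit 0) .nil) .nil))) 
(.lf (nat_lit 520017) (.g (nat_lit 1453) (.e (nat_lit 204829) (nat_lit 18) (.e (nat_lit 57692) (nat_lit 156) (.e (nat_lit 163905) (nat_lit 12) (.e (nat_lit 426509) (nat_lit 27) .nil)))) (.g (nat_lit 0) (.e (nat_lit 223456) (nat_lit 0) .nil) .nil))))) (.nd (nat_lit 8) (.nd (nat_lit 9) 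
(.lf (nat_lit 519377) (.g (nat_lit 2137) (.e (nat_lit 204809) (nat_lit 9) (.e (nat_lit 426108) (nat_lit 1) (.e (nat_lit 164330) (nat_lit 230) (.e (nat_lit 171776) (nat_lit 62) .nil)))) (.g (nat_lit 0) (.e (nat_lit 220897) (nat_lit 0) .nil) .nil))) 
(.lf (nat_lit 519889) (.g (nat_lit 1178) (.e (nat_lit 204821) (nat_lit 17) (.e (nat_lit 2044) (nat_lit 142) (.e (nat_lit 704734) (nat_lit 11) (.e (nat_lit 16412) (nat_lit 2) (.e (nat_lit 196672) (nat_lit 15) .nil))))) (.g (nat_lit 0) (.e (nat_lit 223267) (nat_lit 0) .nil) .nil)))) (.nd (nat_lit 9) 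
(.lf (nat_lit 519633) (.g (nat_lit 3858) (.e (nat_lit 204812) (nat_lit 9) (.e (nat_lit 426189) (nat_lit 9) (.e (nat_lit 426566) (nat_lit 34) (.e (nat_lit 393253) (nat_lit 18) (.e (nat_lit 164327) (nat_lit 230) (.e (nat_lit 163875) (nat_lit 3) .nil)))))) (.g (nat_lit 1) (.e (nat_lit 221753) (nat_lit 0) .nil) .nil))) 
(.lf (nat_lit 520145) (.g (nat_lit 2135) (.e (nat_lit 204829) (nat_lit 18) (.e (nat_lit 57927) (nat_lit 282) (.e (nat_lit 163866) (nat_lit 2) (.e (nat_lit 196670) (nat_lit 14) (.e (nat_lit 73746) (nat_lit 3) (.e (nat_lit 516127) (nat_lit 2) (.e (nat_lit 213019) (nat_lit 9) (.e (nat_lit 2683) (nat_lit 168) .nil)))))))) (.g (nat_lit 1) (.e (nat_lit 223611) (nat_lit 0) .nil) .nil))))))) 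
(.nd (nat_lit 6) (.nd (nat_lit 7) (.nd (nat_lit 8) (.nd (nat_lit 9) 
(.lf (nat_lit 519217) (.g (nat_lit 2887) (.e (nat_lit 196681) (nat_lit 17) (.e (nat_lit 131123) (nat_lit 12) (.e (nat_lit 385066) (nat_lit 26) (.e (nat_lit 532513) (nat_lit 3) (.e (nat_lit 114698) (nat_lit 11) (.e (nat_lit 426116) (nat_lit 2) .nil)))))) (.g (nat_lit 1) (.e (nat_lit 220382) (nat_lit 0) .nil) .nil))) 
(.lf (nat_lit 519729) (.g (nat_lit 2291) (.e (nat_lit 204813) (nat_lit 9) (.e (nat_lit 426197) (nat_lit 9) (.e (nat_lit 426566) (nat_lit 34) (.e (nat_lit 393253) (nat_lit 18) (.e (nat_lit 164330) (nat_lit 230) (.e (nat_lit 163874) (nat_lit 3) .nil)))))) (.g (nat_lit 1) (.e (nat_lit 222070) (nat_lit 0) .nil) .nil)))) (.nd (nat_lit 9) 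
(.lf (nat_lit 519473) (.g (nat_lit 2336) (.e (nat_lit 204809) (nat_lit 9) (.e (nat_lit 426198) (nat_lit 9) (.e (nat_lit 426566) (nat_lit 34) (.e (nat_lit 393254) (nat_lit 18) .nil)))) (.g (nat_lit 0) (.e (nat_lit 221293) (nat_lit 0) .nil) .nil))) 
(.lf (nat_lit 519985) (.g (nat_lit 2616) (.e (nat_lit 204829) (nat_lit 18) (.e (nat_lit 57688) (nat_lit 156) (.e (nat_lit 163907) (nat_lit 12) (.e (nat_lit 426566) (nat_lit 34) (.e (nat_lit 393267) (nat_lit 23) .nil))))) (.g (nat_lit 0) (.e (nat_lit 223406) (nat_lit 0) .nil) .nil))))) (.nd (nat_lit 8) (.nd (nat_lit 9) 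
(.lf (nat_lit 519345) (.g (nat_lit 2673) (.e (nat_lit 204808) (nat_lit 9) (.e (nat_lit 426114) (nat_lit 2) (.e (nat_lit 196654) (nat_lit 11) (.e (nat_lit 16416) (nat_lit 3) (.e (nat_lit 204809) (nat_lit 9) (.e (nat_lit 426139) (nat_lit 3) .nil)))))) (.g (nat_lit 1) (.e (nat_lit 220708) (nat_lit 0) .nil) .nil))) 
(.lf (nat_lit 519857) (.g (nat_lit 3515) (.e (nat_lit 204816) (nat_lit 17) (.e (nat_lit 6724) (nat_lit 362) (.e (nat_lit 180250) (nat_lit 10) (.e (nat_lit 573471) (nat_lit 11) (.e (nat_lit 16436) (nat_lit 9) (.e (nat_lit 426131) (nat_lit 3) .nil)))))) (.g (nat_lit 1) (.e (nat_lit 223172) (nat_lit 0) .nil) .nil)))) (.nd (nat_lit 9) 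
(.lf (nat_lit 519601) (.g (nat_lit 1604) (.e (nat_lit 204812) (nat_lit 9) (.e (nat_lit 426107) (nat_lit 1) (.e (nat_lit 164403) (nat_lit 256) (.e (nat_lit 57409) (nat_lit 12) .nil)))) (.g (nat_lit 0) (.e (nat_lit 221694) (nat_lit 0) .nil) .nil))) 
(.lf (nat_lit 520113) (.g (nat_lit 2478) (.e (nat_lit 204829) (nat_lit 18) (.e (nat_lit 57926) (nat_lit 282) (.e (nat_lit 163869) (nat_lit 2) (.e (nat_lit 196670) (nat_lit 14) (.e (nat_lit 73746) (nat_lit 3) (.e (nat_lit 516127) (nat_lit 2) (.e (nat_lit 213022) (nat_lit 9) (.e (nat_lit 2683) (nat_lit 168) .nil)))))))) (.g (nat_lit 1) (.e (nat_lit 223574) (nat_lit 0) .nil) .nil)))))) 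
(.nd (nat_lit 7) (.nd (nat_lit 8) (.nd (nat_lit 9) 
(.lf (nat_lit 519281) (.g (nat_lit 991) (.e (nat_lit 196698) (nat_lit 19) (.e (nat_lit 57810) (nat_lit 246) (.e (nat_lit 57879) (nat_lit 270) (.e (nat_lit 496) (nat_lit 39) (.e (nat_lit 483382) (nat_lit 23) (.e (nat_lit 343808) (nat_lit 17) .nil)))))) (.g (nat_lit 1) (.e (nat_lit 220546) (nat_lit 0) .nil) .nil))) 
(.lf (nat_lit 519793) (.g (nat_lit 2728) (.e (nat_lit 212736) (nat_lit 9) (.e (nat_lit 426124) (nat_lit 2) (.e (nat_lit 196656) (nat_lit 11) (.e (nat_lit 16412) (nat_lit 2) (.e (nat_lit 196656) (nat_lit 11) .nil))))) (.g (nat_lit 0) (.e (nat_lit 222440) (nat_lit 0) .nil) .nil)))) (.nd (nat_lit 9) 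
(.lf (nat_lit 519537) (.g (nat_lit 2468) (.e (nat_lit 204811) (nat_lit 9) (.e (nat_lit 426259) (nat_lit 9) (.e (nat_lit 426565) (nat_lit 34) (.e (nat_lit 393253) (nat_lit 18) (.e (nat_lit 164327) (nat_lit 230) (.e (nat_lit 163873) (nat_lit 3) .nil)))))) (.g (nat_lit 1) (.e (nat_lit 221615) (nat_lit 0) .nil) .nil))) 
(.lf (nat_lit 520049) (.g (nat_lit 2330) (.e (nat_lit 204829) (nat_lit 18) (.e (nat_lit 57847) (nat_lit 252) (.e (nat_lit 57407) (nat_lit 12) (.e (nat_lit 336456) (nat_lit 34) (.e (nat_lit 483387) (nat_lit 23) (.e (nat_lit 343808) (nat_lit 18) .nil)))))) (.g (nat_lit 1) (.e (nat_lit 223497) (nat_lit 0) .nil) .nil))))) (.nd (nat_lit 8) (.nd (nat_lit 9) 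
(.lf (nat_lit 519409) (.g (nat_lit 2303) (.e (nat_lit 204809) (nat_lit 9) (.e (nat_lit 426124) (nat_lit 2) (.e (nat_lit 196656) (nat_lit 11) (.e (nat_lit 16413) (nat_lit 2) .nil)))) (.g (nat_lit 0) (.e (nat_lit 221040) (nat_lit 0) .nil) .nil))) 
(.lf (nat_lit 519921) (.g (nat_lit 3433) (.e (nat_lit 204828) (nat_lit 18) (.e (nat_lit 57849) (nat_lit 252) (.e (nat_lit 57375) (nat_lit 2) (.e (nat_lit 90160) (nat_lit 11) (.e (nat_lit 24608) (nat_lit 3) .nil))))) (.g (nat_lit 0) (.e (nat_lit 223330) (nat_lit 0) .nil) .nil)))) (.nd (nat_lit 9) 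
(.lf (nat_lit 519665) (.g (nat_lit 1390) (.e (nat_lit 204813) (nat_lit 9) (.e (nat_lit 426107) (nat_lit 1) (.e (nat_lit 164347) (nat_lit 240) (.e (nat_lit 2619) (nat_lit 164) .nil)))) (.g (nat_lit 0) (.e (nat_lit 221847) (nat_lit 0) .nil) .nil))) 
(.lf (nat_lit 520177) (.g (nat_lit 3085) (.e (nat_lit 204829) (nat_lit 18) (.e (nat_lit 57927) (nat_lit 282) (.e (nat_lit 163868) (nat_lit 2) (.e (nat_lit 196668) (nat_lit 14) (.e (nat_lit 73747) (nat_lit 3) (.e (nat_lit 516124) (nat_lit 2) (.e (nat_lit 213019) (nat_lit 9) (.e (nat_lit 2676) (nat_lit 168) .nil)))))))) (.g (nat_lit 1) (.e (nat_lit 223643) (nat_lit 0) .nil) .nil))))))))) 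
(.nd (nat_lit 4) (.nd (nat_lit 5) (.nd (nat_lit 6) (.nd (nat_lit 7) (.nd (nat_lit 8) 
(.nd (nat_lit 9) 
(.lf (nat_lit 519177) (.g (nat_lit 1863) (.e (nat_lit 196681) (nat_lit 17) (.e (nat_lit 131109) (nat_lit 9) (.e (nat_lit 336454) (nat_lit 34) (.e (nat_lit 483362) (nat_lit 18) (.e (nat_lit 57927) (nat_lit 282) (.e (nat_lit 163868) (nat_lit 2) .nil)))))) (.g (nat_lit 1) (.e (nat_lit 220308) (nat_lit 0) .nil) .nil))) 
(.lf (nat_lit 519689) (.g (nat_lit 1716) (.e (nat_lit 204813) (nat_lit 9) (.e (nat_lit 426123) (nat_lit 2) (.e (nat_lit 196654) (nat_lit 11) (.e (nat_lit 16412) (nat_lit 2) (.e (nat_lit 196654) (nat_lit 11) .nil))))) (.g (nat_lit 0) (.e (nat_lit 221897) (nat_lit 0) .nil) .nil)))) (.nd (nat_lit 9) 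
(.lf (nat_lit 519433) (.g (nat_lit 2575) (.e (nat_lit 204809) (nat_lit 9) (.e (nat_lit 426187) (nat_lit 9) (.e (nat_lit 426566) (nat_lit 34) (.e (nat_lit 393253) (nat_lit 18) (.e (nat_lit 164329) (nat_lit 230) .nil))))) (.g (nat_lit 0) (.e (nat_lit 221250) (nat_lit 0) .nil) .nil))) 
(.lf (nat_lit 519945) (.g (nat_lit 994) (.e (nat_lit 204829) (nat_lit 18) (.e (nat_lit 57686) (nat_lit 156) (.e (nat_lit 163902) (nat_lit 12) (.e (nat_lit 426566) (nat_lit 34) .nil)))) (.g (nat_lit 0) (.e (nat_lit 223358) (nat_lit 0) .nil) .nil))))) (.nd (nat_lit 8) (.nd (nat_lit 9) 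
(.lf (nat_lit 519305) (.g (nat_lit 1799) (.e (nat_lit 196698) (nat_lit 19) (.e (nat_lit 57816) (nat_lit 246) (.e (nat_lit 57881) (nat_lit 270) (.e (nat_lit 371) (nat_lit 32) (.e (nat_lit 426555) (nat_lit 32) (.e (nat_lit 384768) (nat_lit 2) .nil)))))) (.g (nat_lit 1) (.e (nat_lit 220570) (nat_lit 0) .nil) .nil))) 
(.lf (nat_lit 519817) (.g (nat_lit 2022) (.e (nat_lit 204814) (nat_lit 17) (.e (nat_lit 6113) (nat_lit 332) (.e (nat_lit 1361) (nat_lit 102) (.e (nat_lit 286735) (nat_lit 3) (.e (nat_lit 98371) (nat_lit 28) .nil))))) (.g (nat_lit 0) (.e (nat_lit 222920) (nat_lit 0) .nil) .nil)))) (.nd (nat_lit 9) 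
(.lf (nat_lit 519561) (.g (nat_lit 2057) (.e (nat_lit 204811) (nat_lit 9) (.e (nat_lit 426262) (nat_lit 9) (.e (nat_lit 426565) (nat_lit 34) (.e (nat_lit 393251) (nat_lit 18) (.e (nat_lit 164325) (nat_lit 230) (.e (nat_lit 163873) (nat_lit 3) .nil)))))) (.g (nat_lit 1) (.e (nat_lit 221649) (nat_lit 0) .nil) .nil))) 
(.lf (nat_lit 520073) (.g (nat_lit 2646) (.e (nat_lit 204829) (nat_lit 18) (.e (nat_lit 57849) (nat_lit 252) (.e (nat_lit 57407) (nat_lit 12) (.e (nat_lit 336456) (nat_lit 34) (.e (nat_lit 483391) (nat_lit 23) (.e (nat_lit 336323) (nat_lit 18) .nil)))))) (.g (nat_lit 1) (.e (nat_lit 223530) (nat_lit 0) .nil) .nil)))))) (.nd (nat_lit 7) (.nd (nat_lit 8) (.nd (nat_lit 9) 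
(.lf (nat_lit 519241) (.g (nat_lit 2784) (.e (nat_lit 196681) (nat_lit 17) (.e (nat_lit 131124) (nat_lit 13) (.e (nat_lit 393229) (nat_lit 9) (.e (nat_lit 335996) (nat_lit 1) (.e (nat_lit 57931) (nat_lit 282) (.e (nat_lit 163869) (nat_lit 2) .nil)))))) (.g (nat_lit 1) (.e (nat_lit 220425) (nat_lit 0) .nil) .nil))) 
(.lf (nat_lit 519753) (.g (nat_lit 4608) (.e (nat_lit 204813) (nat_lit 9) (.e (nat_lit 426200) (nat_lit 9) (.e (nat_lit 426478) (nat_lit 27) (.e (nat_lit 336389) (nat_lit 27) (.e (nat_lit 426098) (nat_lit 1) (.e (nat_lit 164325) (nat_lit 230) (.e (nat_lit 163873) (nat_lit 3) .nil))))))) (.g (nat_lit 1) (.e (nat_lit 222183) (nat_lit 0) .nil) .nil)))) (.nd (nat_lit 9) 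
(.lf (nat_lit 519497) (.g (nat_lit 1395) (.e (nat_lit 204811) (nat_lit 9) (.e (nat_lit 426110) (nat_lit 1) (.e (nat_lit 164399) (nat_lit 256) (.e (nat_lit 57407) (nat_lit 12) .nil)))) (.g (nat_lit 0) (.e (nat_lit 221562) (nat_lit 0) .nil) .nil))) 
(.lf (nat_lit 520009) (.g (nat_lit 3240) (.e (nat_lit 204829) (nat_lit 18) (.e (nat_lit 57691) (nat_lit 156) (.e (nat_lit 163907) (nat_lit 12) (.e (nat_lit 426568) (nat_lit 34) (.e (nat_lit 393281) (nat_lit 23) (.e (nat_lit 426137) (nat_lit 3) .nil)))))) (.g (nat_lit 1) (.e (nat_lit 223443) (nat_lit 0) .nil) .nil))))) (.nd (nat_lit 8) (.nd (nat_lit 9) 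
(.lf (nat_lit 519369) (.g (nat_lit 2572) (.e (nat_lit 204809) (nat_lit 9) (.e (nat_lit 426100) (nat_lit 1) (.e (nat_lit 164403) (nat_lit 256) (.e (nat_lit 57406) (nat_lit 12) (.e (nat_lit 336444) (nat_lit 32) .nil))))) (.g (nat_lit 0) (.e (nat_lit 220882) (nat_lit 0) .nil) .nil))) 
(.lf (nat_lit 519881) (.g (nat_lit 387) (.e (nat_lit 204819) (nat_lit 17) (.e (nat_lit 6113) (nat_lit 332) (.e (nat_lit 1361) (nat_lit 102) .nil))) (.g (nat_lit 0) (.e (nat_lit 223242) (nat_lit 0) .nil) .nil)))) (.nd (nat_lit 9) 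
(.lf (nat_lit 519625) (.g (nat_lit 2162) (.e (nat_lit 204812) (nat_lit 9) (.e (nat_lit 426188) (nat_lit 9) (.e (nat_lit 426566) (nat_lit 34) (.e (nat_lit 393253) (nat_lit 18) (.e (nat_lit 164325) (nat_lit 230) (.e (nat_lit 163875) (nat_lit 3) .nil)))))) (.g (nat_lit 1) (.e (nat_lit 221745) (nat_lit 0) .nil) .nil))) 
(.lf (nat_lit 520137) (.g (nat_lit 2225) (.e (nat_lit 204829) (nat_lit 18) (.e (nat_lit 57927) (nat_lit 282) (.e (nat_lit 163866) (nat_lit 2) (.e (nat_lit 196670) (nat_lit 14) (.e (nat_lit 73746) (nat_lit 3) (.e (nat_lit 516124) (nat_lit 2) (.e (nat_lit 213000) (nat_lit 9) (.e (nat_lit 2680) (nat_lit 168) .nil)))))))) (.g (nat_lit 1) (.e (nat_lit 223603) (nat_lit 0) .nil) .nil))))))) 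
(.nd (nat_lit 6) (.nd (nat_lit 7) (.nd (nat_lit 8) (.nd (nat_lit 9) 
(.lf (nat_lit 519209) (.g (nat_lit 1772) (.e (nat_lit 196681) (nat_lit 17) (.e (nat_lit 131123) (nat_lit 12) (.e (nat_lit 385066) (nat_lit 26) (.e (nat_lit 532481) (nat_lit 0) (.e (nat_lit 2083) (nat_lit 142) .nil))))) (.g (nat_lit 0) (.e (nat_lit 220369) (nat_lit 0) .nil) .nil))) 
(.lf (nat_lit 519721) (.g (nat_lit 3130) (.e (nat_lit 204813) (nat_lit 9) (.e (nat_lit 426190) (nat_lit 9) (.e (nat_lit 426564) (nat_lit 34) (.e (nat_lit 393253) (nat_lit 18) (.e (nat_lit 164326) (nat_lit 230) (.e (nat_lit 163873) (nat_lit 3) .nil)))))) (.g (nat_lit 1) (.e (nat_lit 222053) (nat_lit 0) .nil) .nil)))) (.nd (nat_lit 9) 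
(.lf (nat_lit 519465) (.g (nat_lit 3130) (.e (nat_lit 204809) (nat_lit 9) (.e (nat_lit 426190) (nat_lit 9) (.e (nat_lit 426566) (nat_lit 34) (.e (nat_lit 393253) (nat_lit 18) (.e (nat_lit 164327) (nat_lit 230) (.e (nat_lit 163873) (nat_lit 3) .nil)))))) (.g (nat_lit 1) (.e (nat_lit 221284) (nat_lit 0) .nil) .nil))) 
(.lf (nat_lit 519977) (.g (nat_lit 3527) (.e (nat_lit 204829) (nat_lit 18) (.e (nat_lit 57688) (nat_lit 156) (.e (nat_lit 163905) (nat_lit 12) (.e (nat_lit 426566) (nat_lit 34) (.e (nat_lit 393273) (nat_lit 23) (.e (nat_lit 426131) (nat_lit 3) .nil)))))) (.g (nat_lit 1) (.e (nat_lit 223396) (nat_lit 0) .nil) .nil))))) (.nd (nat_lit 8) (.nd (nat_lit 9) 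
(.lf (nat_lit 519337) (.g (nat_lit 2769) (.e (nat_lit 204808) (nat_lit 9) (.e (nat_lit 426100) (nat_lit 1) (.e (nat_lit 164403) (nat_lit 256) (.e (nat_lit 57406) (nat_lit 12) (.e (nat_lit 336426) (nat_lit 29) .nil))))) (.g (nat_lit 0) (.e (nat_lit 220698) (nat_lit 0) .nil) .nil))) 
(.lf (nat_lit 519849) (.g (nat_lit 1241) (.e (nat_lit 204816) (nat_lit 17) (.e (nat_lit 6722) (nat_lit 362) (.e (nat_lit 180244) (nat_lit 5) (.e (nat_lit 532490) (nat_lit 0) .nil)))) (.g (nat_lit 0) (.e (nat_lit 223094) (nat_lit 0) .nil) .nil)))) (.nd (nat_lit 9) 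
(.lf (nat_lit 519593) (.g (nat_lit 1955) (.e (nat_lit 204812) (nat_lit 9) (.e (nat_lit 426100) (nat_lit 1) (.e (nat_lit 164403) (nat_lit 256) (.e (nat_lit 57406) (nat_lit 12) .nil)))) (.g (nat_lit 0) (.e (nat_lit 221685) (nat_lit 0) .nil) .nil))) 
(.lf (nat_lit 520105) (.g (nat_lit 1988) (.e (nat_lit 204829) (nat_lit 18) (.e (nat_lit 57926) (nat_lit 282) (.e (nat_lit 163869) (nat_lit 2) (.e (nat_lit 196666) (nat_lit 13) (.e (nat_lit 65569) (nat_lit 3) .nil))))) (.g (nat_lit 0) (.e (nat_lit 223565) (nat_lit 0) .nil) .nil)))))) (.nd (nat_lit 7) (.nd (nat_lit 8) (.nd (nat_lit 9) 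
(.lf (nat_lit 519273) (.g (nat_lit 2129) (.e (nat_lit 196698) (nat_lit 19) (.e (nat_lit 57809) (nat_lit 246) (.e (nat_lit 57879) (nat_lit 270) (.e (nat_lit 496) (nat_lit 39) (.e (nat_lit 483383) (nat_lit 23) (.e (nat_lit 336320) (nat_lit 17) .nil)))))) (.g (nat_lit 1) (.e (nat_lit 220538) (nat_lit 0) .nil) .nil))) 
(.lf (nat_lit 519785) (.g (nat_lit 1525) (.e (nat_lit 204813) (nat_lit 9) (.e (nat_lit 426316) (nat_lit 12) (.e (nat_lit 475177) (nat_lit 24) (.e (nat_lit 524032) (nat_lit 18) .nil)))) (.g (nat_lit 0) (.e (nat_lit 222338) (nat_lit 0) .nil) .nil)))) (.nd (nat_lit 9) 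
(.lf (nat_lit 519529) (.g (nat_lit 2057) (.e (nat_lit 204811) (nat_lit 9) (.e (nat_lit 426234) (nat_lit 9) (.e (nat_lit 426565) (nat_lit 34) (.e (nat_lit 393253) (nat_lit 18) (.e (nat_lit 164330) (nat_lit 230) (.e (nat_lit 163873) (nat_lit 3) .nil)))))) (.g (nat_lit 1) (.e (nat_lit 221596) (nat_lit 0) .nil) .nil))) 
(.lf (nat_lit 520041) (.g (nat_lit 3586) (.e (nat_lit 204829) (nat_lit 18) (.e (nat_lit 57847) (nat_lit 252) (.e (nat_lit 57406) (nat_lit 12) (.e (nat_lit 336454) (nat_lit 34) (.e (nat_lit 483383) (nat_lit 23) .nil))))) (.g (nat_lit 0) (.e (nat_lit 223489) (nat_lit 0) .nil) .nil))))) (.nd (nat_lit 8) (.nd (nat_lit 9) 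
(.lf (nat_lit 519401) (.g (nat_lit 3628) (.e (nat_lit 204809) (nat_lit 9) (.e (nat_lit 426124) (nat_lit 2) (.e (nat_lit 196654) (nat_lit 11) (.e (nat_lit 16416) (nat_lit 3) (.e (nat_lit 204809) (nat_lit 9) (.e (nat_lit 426133) (nat_lit 3) .nil)))))) (.g (nat_lit 1) (.e (nat_lit 221012) (nat_lit 0) .nil) .nil))) 
(.lf (nat_lit 519913) (.g (nat_lit 1869) (.e (nat_lit 204828) (nat_lit 18) (.e (nat_lit 57691) (nat_lit 156) (.e (nat_lit 163905) (nat_lit 12) (.e (nat_lit 426568) (nat_lit 34) (.e (nat_lit 393271) (nat_lit 23) .nil))))) (.g (nat_lit 0) (.e (nat_lit 223318) (nat_lit 0) .nil) .nil)))) (.nd (nat_lit 9) 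
(.lf (nat_lit 519657) (.g (nat_lit 1805) (.e (nat_lit 204813) (nat_lit 9) (.e (nat_lit 426100) (nat_lit 1) (.e (nat_lit 164399) (nat_lit 256) (.e (nat_lit 57407) (nat_lit 12) (.e (nat_lit 336444) (nat_lit 32) .nil))))) (.g (nat_lit 0) (.e (nat_lit 221839) (nat_lit 0) .nil) .nil))) 
(.lf (nat_lit 520169) (.g (nat_lit 3749) (.e (nat_lit 204829) (nat_lit 18) (.e (nat_lit 57927) (nat_lit 282) (.e (nat_lit 163868) (nat_lit 2) (.e (nat_lit 196668) (nat_lit 14) (.e (nat_lit 73746) (nat_lit 3) (.e (nat_lit 516129) (nat_lit 3) (.e (nat_lit 221213) (nat_lit 23) .nil))))))) (.g (nat_lit 1) (.e (nat_lit 223635) (nat_lit 0) .nil) .nil)))))))) 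
(.nd (nat_lit 5) (.nd (nat_lit 6) (.nd (nat_lit 7) (.nd (nat_lit 8) (.nd (nat_lit 9) 
(.lf (nat_lit 519193) (.g (nat_lit 1115) (.e (nat_lit 196681) (nat_lit 17) (.e (nat_lit 131120) (nat_lit 12) (.e (nat_lit 385068) (nat_lit 26) (.e (nat_lit 532486) (nat_lit 0) .nil)))) (.g (nat_lit 0) (.e (nat_lit 220334) (nat_lit 0) .nil) .nil))) 
(.lf (nat_lit 519705) (.g (nat_lit 3214) (.e (nat_lit 204813) (nat_lit 9) (.e (nat_lit 426138) (nat_lit 3) (.e (nat_lit 204813) (nat_lit 9) (.e (nat_lit 426124) (nat_lit 2) (.e (nat_lit 196654) (nat_lit 11) (.e (nat_lit 16416) (nat_lit 3) .nil)))))) (.g (nat_lit 1) (.e (nat_lit 221973) (nat_lit 0) .nil) .nil)))) (.nd (nat_lit 9) 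
(.lf (nat_lit 519449) (.g (nat_lit 2923) (.e (nat_lit 204809) (nat_lit 9) (.e (nat_lit 426188) (nat_lit 9) (.e (nat_lit 426568) (nat_lit 34) (.e (nat_lit 393253) (nat_lit 18) (.e (nat_lit 164324) (nat_lit 230) (.e (nat_lit 163873) (nat_lit 3) .nil)))))) (.g (nat_lit 1) (.e (nat_lit 221268) (nat_lit 0) .nil) .nil))) 
(.lf (nat_lit 519961) (.g (nat_lit 2133) (.e (nat_lit 204829) (nat_lit 18) (.e (nat_lit 57688) (nat_lit 156) (.e (nat_lit 163902) (nat_lit 12) (.e (nat_lit 426481) (nat_lit 27) .nil)))) (.g (nat_lit 0) (.e (nat_lit 223377) (nat_lit 0) .nil) .nil))))) (.nd (nat_lit 8) (.nd (nat_lit 9) 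
(.lf (nat_lit 519321) (.g (nat_lit 1415) (.e (nat_lit 204808) (nat_lit 9) (.e (nat_lit 426098) (nat_lit 1) (.e (nat_lit 164398) (nat_lit 256) (.e (nat_lit 57409) (nat_lit 12) .nil)))) (.g (nat_lit 0) (.e (nat_lit 220682) (nat_lit 0) .nil) .nil))) 
(.lf (nat_lit 519833) (.g (nat_lit 1977) (.e (nat_lit 204815) (nat_lit 17) (.e (nat_lit 6724) (nat_lit 362) (.e (nat_lit 180251) (nat_lit 10) (.e (nat_lit 573469) (nat_lit 11) (.e (nat_lit 16446) (nat_lit 9) .nil))))) (.g (nat_lit 0) (.e (nat_lit 223045) (nat_lit 0) .nil) .nil)))) (.nd (nat_lit 9) 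
(.lf (nat_lit 519577) (.g (nat_lit 1391) (.e (nat_lit 204812) (nat_lit 9) (.e (nat_lit 426099) (nat_lit 1) (.e (nat_lit 164399) (nat_lit 256) (.e (nat_lit 57407) (nat_lit 12) (.e (nat_lit 336443) (nat_lit 32) .nil))))) (.g (nat_lit 0) (.e (nat_lit 221669) (nat_lit 0) .nil) .nil))) 
(.lf (nat_lit 520089) (.g (nat_lit 2302) (.e (nat_lit 204829) (nat_lit 18) (.e (nat_lit 57854) (nat_lit 252) (.e (nat_lit 57409) (nat_lit 12) (.e (nat_lit 336456) (nat_lit 34) (.e (nat_lit 483391) (nat_lit 23) (.e (nat_lit 336323) (nat_lit 18) .nil)))))) (.g (nat_lit 1) (.e (nat_lit 223547) (nat_lit 0) .nil) .nil)))))) (.nd (nat_lit 7) (.nd (nat_lit 8) (.nd (nat_lit 9) 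
(.lf (nat_lit 519257) (.g (nat_lit 1838) (.e (nat_lit 196691) (nat_lit 18) (.e (nat_lit 1349) (nat_lit 102) (.e (nat_lit 286743) (nat_lit 9) (.e (nat_lit 336454) (nat_lit 34) (.e (nat_lit 491264) (nat_lit 3) .nil))))) (.g (nat_lit 0) (.e (nat_lit 220496) (nat_lit 0) .nil) .nil))) 
(.lf (nat_lit 519769) (.g (nat_lit 3760) (.e (nat_lit 204813) (nat_lit 9) (.e (nat_lit 426200) (nat_lit 9) (.e (nat_lit 426566) (nat_lit 34) (.e (nat_lit 393251) (nat_lit 18) (.e (nat_lit 164325) (nat_lit 230) (.e (nat_lit 163875) (nat_lit 3) .nil)))))) (.g (nat_lit 1) (.e (nat_lit 222203) (nat_lit 0) .nil) .nil)))) (.nd (nat_lit 9) 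
(.lf (nat_lit 519513) (.g (nat_lit 2308) (.e (nat_lit 204811) (nat_lit 9) (.e (nat_lit 426232) (nat_lit 9) (.e (nat_lit 426565) (nat_lit 34) (.e (nat_lit 393251) (nat_lit 18) (.e (nat_lit 164327) (nat_lit 230) (.e (nat_lit 163873) (nat_lit 3) .nil)))))) (.g (nat_lit 1) (.e (nat_lit 221580) (nat_lit 0) .nil) .nil))) 
(.lf (nat_lit 520025) (.g (nat_lit 1588) (.e (nat_lit 204829) (nat_lit 18) (.e (nat_lit 57692) (nat_lit 156) (.e (nat_lit 163907) (nat_lit 12) (.e (nat_lit 426487) (nat_lit 27) .nil)))) (.g (nat_lit 0) (.e (nat_lit 223465) (nat_lit 0) .nil) .nil))))) (.nd (nat_lit 8) (.nd (nat_lit 9) 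
(.lf (nat_lit 519385) (.g (nat_lit 2161) (.e (nat_lit 204809) (nat_lit 9) (.e (nat_lit 426116) (nat_lit 2) (.e (nat_lit 196656) (nat_lit 11) (.e (nat_lit 16412) (nat_lit 2) (.e (nat_lit 196653) (nat_lit 11) .nil))))) (.g (nat_lit 0) (.e (nat_lit 220939) (nat_lit 0) .nil) .nil))) 
(.lf (nat_lit 519897) (.g (nat_lit 2766) (.e (nat_lit 204821) (nat_lit 17) (.e (nat_lit 6114) (nat_lit 332) (.e (nat_lit 1370) (nat_lit 103) (.e (nat_lit 302848) (nat_lit 2) .nil)))) (.g (nat_lit 0) (.e (nat_lit 223296) (nat_lit 0) .nil) .nil)))) (.nd (nat_lit 9) 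
(.lf (nat_lit 519641) (.g (nat_lit 1840) (.e (nat_lit 204812) (nat_lit 9) (.e (nat_lit 426198) (nat_lit 9) (.e (nat_lit 426566) (nat_lit 34) (.e (nat_lit 393253) (nat_lit 18) (.e (nat_lit 164330) (nat_lit 230) .nil))))) (.g (nat_lit 0) (.e (nat_lit 221762) (nat_lit 0) .nil) .nil))) 
(.lf (nat_lit 520153) (.g (nat_lit 2807) (.e (nat_lit 204829) (nat_lit 18) (.e (nat_lit 57927) (nat_lit 282) (.e (nat_lit 163868) (nat_lit 2) (.e (nat_lit 196663) (nat_lit 13) (.e (nat_lit 65571) (nat_lit 3) (.e (nat_lit 98338) (nat_lit 19) (.e (nat_lit 213013) (nat_lit 9) (.e (nat_lit 2684) (nat_lit 168) .nil)))))))) (.g (nat_lit 1) (.e (nat_lit 223619) (nat_lit 0) .nil) .nil))))))) 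
(.nd (nat_lit 6) (.nd (nat_lit 7) (.nd (nat_lit 8) (.nd (nat_lit 9) 
(.lf (nat_lit 519225) (.g (nat_lit 1335) (.e (nat_lit 196681) (nat_lit 17) (.e (nat_lit 131123) (nat_lit 12) (.e (nat_lit 385068) (nat_lit 26) (.e (nat_lit 532481) (nat_lit 0) .nil)))) (.g (nat_lit 0) (.e (nat_lit 220393) (nat_lit 0) .nil) .nil))) 
(.lf (nat_lit 519737) (.g (nat_lit 3659) (.e (nat_lit 204813) (nat_lit 9) (.e (nat_lit 426198) (nat_lit 9) (.e (nat_lit 426566) (nat_lit 34) (.e (nat_lit 393253) (nat_lit 18) (.e (nat_lit 164325) (nat_lit 230) (.e (nat_lit 163875) (nat_lit 3) .nil)))))) (.g (nat_lit 1) (.e (nat_lit 222093) (nat_lit 0) .nil) .nil)))) (.nd (nat_lit 9) 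
(.lf (nat_lit 519481) (.g (nat_lit 3021) (.e (nat_lit 204809) (nat_lit 9) (.e (nat_lit 426200) (nat_lit 9) (.e (nat_lit 426566) (nat_lit 34) (.e (nat_lit 393254) (nat_lit 18) (.e (nat_lit 164331) (nat_lit 230) (.e (nat_lit 163873) (nat_lit 3) .nil)))))) (.g (nat_lit 1) (.e (nat_lit 221366) (nat_lit 0) .nil) .nil))) 
(.lf (nat_lit 519993) (.g (nat_lit 4439) (.e (nat_lit 204829) (nat_lit 18) (.e (nat_lit 57691) (nat_lit 156) (.e (nat_lit 163875) (nat_lit 3) (.e (nat_lit 204838) (nat_lit 20) (.e (nat_lit 114715) (nat_lit 22) (.e (nat_lit 90170) (nat_lit 13) (.e (nat_lit 172065) (nat_lit 3) .nil))))))) (.g (nat_lit 1) (.e (nat_lit 223421) (nat_lit 0) .nil) .nil))))) (.nd (nat_lit 8) (.nd (nat_lit 9) 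
(.lf (nat_lit 519353) (.g (nat_lit 3473) (.e (nat_lit 204808) (nat_lit 9) (.e (nat_lit 426190) (nat_lit 9) (.e (nat_lit 426566) (nat_lit 34) (.e (nat_lit 393253) (nat_lit 18) (.e (nat_lit 164327) (nat_lit 230) (.e (nat_lit 163875) (nat_lit 3) .nil)))))) (.g (nat_lit 1) (.e (nat_lit 220780) (nat_lit 0) .nil) .nil))) 
(.lf (nat_lit 519865) (.g (nat_lit 1297) (.e (nat_lit 204816) (nat_lit 17) (.e (nat_lit 6724) (nat_lit 362) (.e (nat_lit 180252) (nat_lit 10) (.e (nat_lit 573471) (nat_lit 11) (.e (nat_lit 16433) (nat_lit 9) .nil))))) (.g (nat_lit 0) (.e (nat_lit 223212) (nat_lit 0) .nil) .nil)))) (.nd (nat_lit 9) 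
(.lf (nat_lit 519609) (.g (nat_lit 1382) (.e (nat_lit 204812) (nat_lit 9) (.e (nat_lit 426108) (nat_lit 1) (.e (nat_lit 164403) (nat_lit 256) (.e (nat_lit 57409) (nat_lit 12) .nil)))) (.g (nat_lit 0) (.e (nat_lit 221702) (nat_lit 0) .nil) .nil))) 
(.lf (nat_lit 520121) (.g (nat_lit 2764) (.e (nat_lit 204829) (nat_lit 18) (.e (nat_lit 57926) (nat_lit 282) (.e (nat_lit 163871) (nat_lit 2) (.e (nat_lit 196668) (nat_lit 14) (.e (nat_lit 73747) (nat_lit 3) (.e (nat_lit 516129) (nat_lit 3) (.e (nat_lit 221213) (nat_lit 23) .nil))))))) (.g (nat_lit 1) (.e (nat_lit 223582) (nat_lit 0) .nil) .nil)))))) 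
(.nd (nat_lit 7) (.nd (nat_lit 8) (.nd (nat_lit 9) 
(.lf (nat_lit 519289) (.g (nat_lit 1889) (.e (nat_lit 196698) (nat_lit 19) (.e (nat_lit 57811) (nat_lit 246) (.e (nat_lit 57883) (nat_lit 270) (.e (nat_lit 371) (nat_lit 32) (.e (nat_lit 426542) (nat_lit 29) (.e (nat_lit 360192) (nat_lit 2) .nil)))))) (.g (nat_lit 1) (.e (nat_lit 220554) (nat_lit 0) .nil) .nil))) 
(.lf (nat_lit 519801) (.g (nat_lit 2361) (.e (nat_lit 212736) (nat_lit 9) (.e (nat_lit 426190) (nat_lit 9) (.e (nat_lit 426566) (nat_lit 34) (.e (nat_lit 393253) (nat_lit 18) (.e (nat_lit 164324) (nat_lit 230) .nil))))) (.g (nat_lit 0) (.e (nat_lit 222486) (nat_lit 0) .nil) .nil)))) (.nd (nat_lit 9) 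
(.lf (nat_lit 519545) (.g (nat_lit 2088) (.e (nat_lit 204811) (nat_lit 9) (.e (nat_lit 426260) (nat_lit 9) (.e (nat_lit 426565) (nat_lit 34) (.e (nat_lit 393253) (nat_lit 18) (.e (nat_lit 164326) (nat_lit 230) (.e (nat_lit 163875) (nat_lit 3) .nil)))))) (.g (nat_lit 1) (.e (nat_lit 221633) (nat_lit 0) .nil) .nil))) 
(.lf (nat_lit 520057) (.g (nat_lit 2231) (.e (nat_lit 204829) (nat_lit 18) (.e (nat_lit 57847) (nat_lit 252) (.e (nat_lit 57447) (nat_lit 19) (.e (nat_lit 393221) (nat_lit 0) (.e (nat_lit 6241) (nat_lit 336) .nil))))) (.g (nat_lit 0) (.e (nat_lit 223507) (nat_lit 0) .nil) .nil))))) (.nd (nat_lit 8) (.nd (nat_lit 9) 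
(.lf (nat_lit 519417) (.g (nat_lit 1882) (.e (nat_lit 204809) (nat_lit 9) (.e (nat_lit 426133) (nat_lit 3) (.e (nat_lit 204813) (nat_lit 9) (.e (nat_lit 426123) (nat_lit 2) (.e (nat_lit 196654) (nat_lit 11) .nil))))) (.g (nat_lit 0) (.e (nat_lit 221094) (nat_lit 0) .nil) .nil))) 
(.lf (nat_lit 519929) (.g (nat_lit 2388) (.e (nat_lit 204828) (nat_lit 18) (.e (nat_lit 57926) (nat_lit 282) (.e (nat_lit 163869) (nat_lit 2) (.e (nat_lit 196668) (nat_lit 14) (.e (nat_lit 73746) (nat_lit 3) .nil))))) (.g (nat_lit 0) (.e (nat_lit 223338) (nat_lit 0) .nil) .nil)))) (.nd (nat_lit 9) 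
(.lf (nat_lit 519673) (.g (nat_lit 1388) (.e (nat_lit 204813) (nat_lit 9) (.e (nat_lit 426108) (nat_lit 1) (.e (nat_lit 164402) (nat_lit 256) (.e (nat_lit 57408) (nat_lit 12) (.e (nat_lit 336443) (nat_lit 32) .nil))))) (.g (nat_lit 0) (.e (nat_lit 221858) (nat_lit 0) .nil) .nil))) 
(.lf (nat_lit 520185) (.g (nat_lit 3749) (.e (nat_lit 204829) (nat_lit 18) (.e (nat_lit 57927) (nat_lit 282) (.e (nat_lit 163868) (nat_lit 2) (.e (nat_lit 196670) (nat_lit 14) (.e (nat_lit 73746) (nat_lit 3) (.e (nat_lit 516124) (nat_lit 2) (.e (nat_lit 213013) (nat_lit 9) (.e (nat_lit 2684) (nat_lit 168) .nil)))))))) (.g (nat_lit 1) (.e (nat_lit 223651) (nat_lit 0) .nil) .nil)))))))))) 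
(.nd (nat_lit 3) (.nd (nat_lit 4) (.nd (nat_lit 5) (.nd (nat_lit 6) (.nd (nat_lit 7) 
(.nd (nat_lit 8) (.nd (nat_lit 9) 
(.lf (nat_lit 519173) (.g (nat_lit 4950) (.e (nat_lit 196681) (nat_lit 17) (.e (nat_lit 131109) (nat_lit 9) (.e (nat_lit 336324) (nat_lit 18) (.e (nat_lit 204838) (nat_lit 20) (.e (nat_lit 114698) (nat_lit 11) (.e (nat_lit 426123) (nat_lit 2) .nil)))))) (.g (nat_lit 1) (.e (nat_lit 220265) (nat_lit 0) .nil) .nil))) 
(.lf (nat_lit 519685) (.g (nat_lit 2317) (.e (nat_lit 204813) (nat_lit 9) (.e (nat_lit 426121) (nat_lit 2) (.e (nat_lit 196656) (nat_lit 11) (.e (nat_lit 16416) (nat_lit 3) (.e (nat_lit 204813) (nat_lit 9) .nil))))) (.g (nat_lit 0) (.e (nat_lit 221884) (nat_lit 0) .nil) .nil)))) (.nd (nat_lit 9) 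
(.lf (nat_lit 519429) (.g (nat_lit 1814) (.e (nat_lit 204809) (nat_lit 9) (.e (nat_lit 426187) (nat_lit 9) (.e (nat_lit 426566) (nat_lit 34) (.e (nat_lit 393251) (nat_lit 18) (.e (nat_lit 164332) (nat_lit 230) .nil))))) (.g (nat_lit 0) (.e (nat_lit 221246) (nat_lit 0) .nil) .nil))) 
(.lf (nat_lit 519941) (.g (nat_lit 2638) (.e (nat_lit 204828) (nat_lit 18) (.e (nat_lit 57931) (nat_lit 282) (.e (nat_lit 163874) (nat_lit 3) (.e (nat_lit 204851) (nat_lit 26) (.e (nat_lit 336019) (nat_lit 3) .nil))))) (.g (nat_lit 0) (.e (nat_lit 223350) (nat_lit 0) .nil) .nil))))) (.nd (nat_lit 8) (.nd (nat_lit 9) 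
(.lf (nat_lit 519301) (.g (nat_lit 1136) (.e (nat_lit 196698) (nat_lit 19) (.e (nat_lit 57816) (nat_lit 246) (.e (nat_lit 57878) (nat_lit 270) (.e (nat_lit 496) (nat_lit 39) (.e (nat_lit 483382) (nat_lit 23) (.e (nat_lit 343808) (nat_lit 17) .nil)))))) (.g (nat_lit 1) (.e (nat_lit 220566) (nat_lit 0) .nil) .nil))) 
(.lf (nat_lit 519813) (.g (nat_lit 1439) (.e (nat_lit 212736) (nat_lit 15) (.e (nat_lit 475214) (nat_lit 42) (.e (nat_lit 720931) (nat_lit 21) (.e (nat_lit 57927) (nat_lit 282) (.e (nat_lit 163931) (nat_lit 17) .nil))))) (.g (nat_lit 0) (.e (nat_lit 222862) (nat_lit 0) .nil) .nil)))) (.nd (nat_lit 9) 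
(.lf (nat_lit 519557) (.g (nat_lit 2597) (.e (nat_lit 204811) (nat_lit 9) (.e (nat_lit 426261) (nat_lit 9) (.e (nat_lit 426565) (nat_lit 34) (.e (nat_lit 393253) (nat_lit 18) (.e (nat_lit 164327) (nat_lit 230) (.e (nat_lit 163873) (nat_lit 3) .nil)))))) (.g (nat_lit 1) (.e (nat_lit 221645) (nat_lit 0) .nil) .nil))) 
(.lf (nat_lit 520069) (.g (nat_lit 1681) (.e (nat_lit 204829) (nat_lit 18) (.e (nat_lit 57849) (nat_lit 252) (.e (nat_lit 57407) (nat_lit 12) (.e (nat_lit 336456) (nat_lit 34) .nil)))) (.g (nat_lit 0) (.e (nat_lit 223526) (nat_lit 0) .nil) .nil)))))) (.nd (nat_lit 7) (.nd (nat_lit 8) (.nd (nat_lit 9) 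
(.lf (nat_lit 519237) (.g (nat_lit 2867) (.e (nat_lit 196681) (nat_lit 17) (.e (nat_lit 131123) (nat_lit 12) (.e (nat_lit 385074) (nat_lit 31) (.e (nat_lit 573481) (nat_lit 13) (.e (nat_lit 65630) (nat_lit 14) (.e (nat_lit 401425) (nat_lit 2) .nil)))))) (.g (nat_lit 1) (.e (nat_lit 220415) (nat_lit 0) .nil) .nil))) 
(.lf (nat_lit 519749) (.g (nat_lit 2415) (.e (nat_lit 204813) (nat_lit 9) (.e (nat_lit 426199) (nat_lit 9) (.e (nat_lit 426566) (nat_lit 34) (.e (nat_lit 393251) (nat_lit 18) (.e (nat_lit 164327) (nat_lit 230) (.e (nat_lit 163875) (nat_lit 3) .nil)))))) (.g (nat_lit 1) (.e (nat_lit 222132) (nat_lit 0) .nil) .nil)))) (.nd (nat_lit 9) 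
(.lf (nat_lit 519493) (.g (nat_lit 2806) (.e (nat_lit 204809) (nat_lit 9) (.e (nat_lit 433920) (nat_lit 18) (.e (nat_lit 98367) (nat_lit 27) (.e (nat_lit 434231) (nat_lit 23) (.e (nat_lit 532514) (nat_lit 3) (.e (nat_lit 122624) (nat_lit 3) .nil)))))) (.g (nat_lit 1) (.e (nat_lit 221550) (nat_lit 0) .nil) .nil))) 
(.lf (nat_lit 520005) (.g (nat_lit 1432) (.e (nat_lit 204829) (nat_lit 18) (.e (nat_lit 57691) (nat_lit 156) (.e (nat_lit 163907) (nat_lit 12) (.e (nat_lit 433920) (nat_lit 27) .nil)))) (.g (nat_lit 0) (.e (nat_lit 223439) (nat_lit 0) .nil) .nil))))) (.nd (nat_lit 8) (.nd (nat_lit 9) 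
(.lf (nat_lit 519365) (.g (nat_lit 2426) (.e (nat_lit 204809) (nat_lit 9) (.e (nat_lit 426100) (nat_lit 1) (.e (nat_lit 164402) (nat_lit 256) (.e (nat_lit 57406) (nat_lit 12) (.e (nat_lit 336443) (nat_lit 32) .nil))))) (.g (nat_lit 0) (.e (nat_lit 220878) (nat_lit 0) .nil) .nil))) 
(.lf (nat_lit 519877) (.g (nat_lit 2295) (.e (nat_lit 204819) (nat_lit 17) (.e (nat_lit 6113) (nat_lit 332) (.e (nat_lit 1374) (nat_lit 104) (.e (nat_lit 303119) (nat_lit 3) (.e (nat_lit 204821) (nat_lit 17) .nil))))) (.g (nat_lit 0) (.e (nat_lit 223237) (nat_lit 0) .nil) .nil)))) (.nd (nat_lit 9) 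
(.lf (nat_lit 519621) (.g (nat_lit 1801) (.e (nat_lit 204812) (nat_lit 9) (.e (nat_lit 426139) (nat_lit 3) (.e (nat_lit 204809) (nat_lit 9) (.e (nat_lit 426124) (nat_lit 2) (.e (nat_lit 196656) (nat_lit 11) .nil))))) (.g (nat_lit 0) (.e (nat_lit 221735) (nat_lit 0) .nil) .nil))) 
(.lf (nat_lit 520133) (.g (nat_lit 2590) (.e (nat_lit 204829) (nat_lit 18) (.e (nat_lit 57926) (nat_lit 282) (.e (nat_lit 163875) (nat_lit 3) (.e (nat_lit 204863) (nat_lit 27) (.e (nat_lit 344118) (nat_lit 21) .nil))))) (.g (nat_lit 0) (.e (nat_lit 223595) (nat_lit 0) .nil) .nil))))))) (.nd (nat_lit 6) (.nd (nat_lit 7) (.nd (nat_lit 8) (.nd (nat_lit 9) 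
(.lf (nat_lit 519205) (.g (nat_lit 1794) (.e (nat_lit 196681) (nat_lit 17) (.e (nat_lit 131122) (nat_lit 12) (.e (nat_lit 385067) (nat_lit 26) (.e (nat_lit 532511) (nat_lit 2) (.e (nat_lit 106534) (nat_lit 11) (.e (nat_lit 16413) (nat_lit 2) .nil)))))) (.g (nat_lit 1) (.e (nat_lit 220358) (nat_lit 0) .nil) .nil))) 
(.lf (nat_lit 519717) (.g (nat_lit 3663) (.e (nat_lit 204813) (nat_lit 9) (.e (nat_lit 426188) (nat_lit 9) (.e (nat_lit 426568) (nat_lit 34) (.e (nat_lit 393251) (nat_lit 18) (.e (nat_lit 164332) (nat_lit 230) (.e (nat_lit 163874) (nat_lit 3) .nil)))))) (.g (nat_lit 1) (.e (nat_lit 222032) (nat_lit 0) .nil) .nil)))) (.nd (nat_lit 9) 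
(.lf (nat_lit 519461) (.g (nat_lit 2392) (.e (nat_lit 204809) (nat_lit 9) (.e (nat_lit 426190) (nat_lit 9) (.e (nat_lit 426566) (nat_lit 34) (.e (nat_lit 393251) (nat_lit 18) (.e (nat_lit 164332) (nat_lit 230) (.e (nat_lit 163873) (nat_lit 3) .nil)))))) (.g (nat_lit 1) (.e (nat_lit 221280) (nat_lit 0) .nil) .nil))) 
(.lf (nat_lit 519973) (.g (nat_lit 3503) (.e (nat_lit 204829) (nat_lit 18) (.e (nat_lit 57688) (nat_lit 156) (.e (nat_lit 163903) (nat_lit 12) (.e (nat_lit 426568) (nat_lit 34) (.e (nat_lit 393281) (nat_lit 23) (.e (nat_lit 426133) (nat_lit 3) .nil)))))) (.g (nat_lit 1) (.e (nat_lit 223390) (nat_lit 0) .nil) .nil))))) (.nd (nat_lit 8) (.nd (nat_lit 9) 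
(.lf (nat_lit 519333) (.g (nat_lit 1751) (.e (nat_lit 204808) (nat_lit 9) (.e (nat_lit 426100) (nat_lit 1) (.e (nat_lit 164399) (nat_lit 256) (.e (nat_lit 57410) (nat_lit 12) (.e (nat_lit 336443) (nat_lit 32) .nil))))) (.g (nat_lit 0) (.e (nat_lit 220694) (nat_lit 0) .nil) .nil))) 
(.lf (nat_lit 519845) (.g (nat_lit 1967) (.e (nat_lit 204816) (nat_lit 17) (.e (nat_lit 6434) (nat_lit 343) (.e (nat_lit 1535) (nat_lit 109) (.e (nat_lit 344117) (nat_lit 21) (.e (nat_lit 516139) (nat_lit 7) .nil))))) (.g (nat_lit 0) (.e (nat_lit 223082) (nat_lit 0) .nil) .nil)))) (.nd (nat_lit 9) 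
(.lf (nat_lit 519589) (.g (nat_lit 1596) (.e (nat_lit 204812) (nat_lit 9) (.e (nat_lit 426100) (nat_lit 1) (.e (nat_lit 164399) (nat_lit 256) (.e (nat_lit 57409) (nat_lit 12) (.e (nat_lit 336430) (nat_lit 29) .nil))))) (.g (nat_lit 0) (.e (nat_lit 221681) (nat_lit 0) .nil) .nil))) 
(.lf (nat_lit 520101) (.g (nat_lit 2475) (.e (nat_lit 204829) (nat_lit 18) (.e (nat_lit 57926) (nat_lit 282) (.e (nat_lit 163868) (nat_lit 2) (.e (nat_lit 196668) (nat_lit 14) (.e (nat_lit 73748) (nat_lit 3) .nil))))) (.g (nat_lit 0) (.e (nat_lit 223561) (nat_lit 0) .nil) .nil)))))) (.nd (nat_lit 7) (.nd (nat_lit 8) (.nd (nat_lit 9) 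
(.lf (nat_lit 519269) (.g (nat_lit 1433) (.e (nat_lit 196698) (nat_lit 19) (.e (nat_lit 57809) (nat_lit 246) (.e (nat_lit 57879) (nat_lit 270) (.e (nat_lit 371) (nat_lit 32) (.e (nat_lit 426540) (nat_lit 29) (.e (nat_lit 360192) (nat_lit 2) .nil)))))) (.g (nat_lit 1) (.e (nat_lit 220534) (nat_lit 0) .nil) .nil))) 
(.lf (nat_lit 519781) (.g (nat_lit 3588) (.e (nat_lit 204813) (nat_lit 9) (.e (nat_lit 426200) (nat_lit 9) (.e (nat_lit 426568) (nat_lit 34) (.e (nat_lit 393252) (nat_lit 18) (.e (nat_lit 164332) (nat_lit 230) (.e (nat_lit 163874) (nat_lit 3) .nil)))))) (.g (nat_lit 1) (.e (nat_lit 222218) (nat_lit 0) .nil) .nil)))) (.nd (nat_lit 9) 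
(.lf (nat_lit 519525) (.g (nat_lit 2197) (.e (nat_lit 204811) (nat_lit 9) (.e (nat_lit 426234) (nat_lit 9) (.e (nat_lit 426565) (nat_lit 34) (.e (nat_lit 393251) (nat_lit 18) (.e (nat_lit 164325) (nat_lit 230) (.e (nat_lit 163873) (nat_lit 3) .nil)))))) (.g (nat_lit 1) (.e (nat_lit 221592) (nat_lit 0) .nil) .nil))) 
(.lf (nat_lit 520037) (.g (nat_lit 1855) (.e (nat_lit 204829) (nat_lit 18) (.e (nat_lit 57847) (nat_lit 252) (.e (nat_lit 57379) (nat_lit 3) (.e (nat_lit 98340) (nat_lit 20) (.e (nat_lit 221214) (nat_lit 23) .nil))))) (.g (nat_lit 0) (.e (nat_lit 223485) (nat_lit 0) .nil) .nil))))) (.nd (nat_lit 8) (.nd (nat_lit 9) 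
(.lf (nat_lit 519397) (.g (nat_lit 457) (.e (nat_lit 204809) (nat_lit 9) (.e (nat_lit 426124) (nat_lit 2) (.e (nat_lit 196653) (nat_lit 11) .nil))) (.g (nat_lit 0) (.e (nat_lit 220984) (nat_lit 0) .nil) .nil))) 
(.lf (nat_lit 519909) (.g (nat_lit 1800) (.e (nat_lit 204828) (nat_lit 18) (.e (nat_lit 57688) (nat_lit 156) (.e (nat_lit 163902) (nat_lit 12) (.e (nat_lit 426479) (nat_lit 27) (.e (nat_lit 336430) (nat_lit 29) .nil))))) (.g (nat_lit 0) (.e (nat_lit 223312) (nat_lit 0) .nil) .nil)))) (.nd (nat_lit 9) 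
(.lf (nat_lit 519653) (.g (nat_lit 2055) (.e (nat_lit 204813) (nat_lit 9) (.e (nat_lit 426098) (nat_lit 1) (.e (nat_lit 164403) (nat_lit 256) (.e (nat_lit 57409) (nat_lit 12) (.e (nat_lit 336430) (nat_lit 29) .nil))))) (.g (nat_lit 0) (.e (nat_lit 221835) (nat_lit 0) .nil) .nil))) 
(.lf (nat_lit 520165) (.g (nat_lit 2423) (.e (nat_lit 204829) (nat_lit 18) (.e (nat_lit 57927) (nat_lit 282) (.e (nat_lit 163868) (nat_lit 2) (.e (nat_lit 196668) (nat_lit 14) (.e (nat_lit 73746) (nat_lit 3) (.e (nat_lit 516127) (nat_lit 2) (.e (nat_lit 213008) (nat_lit 9) (.e (nat_lit 2680) (nat_lit 168) .nil)))))))) (.g (nat_lit 1) (.e (nat_lit 223631) (nat_lit 0) .nil) .nil)))))))) 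
(.nd (nat_lit 5) (.nd (nat_lit 6) (.nd (nat_lit 7) (.nd (nat_lit 8) (.nd (nat_lit 9) 
(.lf (nat_lit 519189) (.g (nat_lit 2619) (.e (nat_lit 196681) (nat_lit 17) (.e (nat_lit 131120) (nat_lit 12) (.e (nat_lit 385066) (nat_lit 26) (.e (nat_lit 532515) (nat_lit 3) (.e (nat_lit 114694) (nat_lit 11) (.e (nat_lit 426124) (nat_lit 2) .nil)))))) (.g (nat_lit 1) (.e (nat_lit 220330) (nat_lit 0) .nil) .nil))) 
(.lf (nat_lit 519701) (.g (nat_lit 2908) (.e (nat_lit 204813) (nat_lit 9) (.e (nat_lit 426133) (nat_lit 3) (.e (nat_lit 204813) (nat_lit 9) (.e (nat_lit 426115) (nat_lit 2) (.e (nat_lit 196654) (nat_lit 11) (.e (nat_lit 16416) (nat_lit 3) .nil)))))) (.g (nat_lit 1) (.e (nat_lit 221945) (nat_lit 0) .nil) .nil)))) (.nd (nat_lit 9) 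
(.lf (nat_lit 519445) (.g (nat_lit 1199) (.e (nat_lit 204809) (nat_lit 9) (.e (nat_lit 426188) (nat_lit 9) (.e (nat_lit 426568) (nat_lit 34) (.e (nat_lit 401152) (nat_lit 3) .nil)))) (.g (nat_lit 0) (.e (nat_lit 221264) (nat_lit 0) .nil) .nil))) 
(.lf (nat_lit 519957) (.g (nat_lit 4089) (.e (nat_lit 204829) (nat_lit 18) (.e (nat_lit 57688) (nat_lit 156) (.e (nat_lit 163873) (nat_lit 3) (.e (nat_lit 204838) (nat_lit 20) (.e (nat_lit 114719) (nat_lit 23) (.e (nat_lit 98365) (nat_lit 26) (.e (nat_lit 426137) (nat_lit 3) .nil))))))) (.g (nat_lit 1) (.e (nat_lit 223373) (nat_lit 0) .nil) .nil))))) (.nd (nat_lit 8) (.nd (nat_lit 9) 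
(.lf (nat_lit 519317) (.g (nat_lit 2598) (.e (nat_lit 212736) (nat_lit 5) (.e (nat_lit 253992) (nat_lit 11) (.e (nat_lit 16412) (nat_lit 2) (.e (nat_lit 196668) (nat_lit 14) (.e (nat_lit 73782) (nat_lit 32) .nil))))) (.g (nat_lit 0) (.e (nat_lit 220671) (nat_lit 0) .nil) .nil))) 
(.lf (nat_lit 519829) (.g (nat_lit 392) (.e (nat_lit 204815) (nat_lit 17) (.e (nat_lit 6724) (nat_lit 362) (.e (nat_lit 180250) (nat_lit 10) .nil))) (.g (nat_lit 0) (.e (nat_lit 223005) (nat_lit 0) .nil) .nil)))) (.nd (nat_lit 9) 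
(.lf (nat_lit 519573) (.g (nat_lit 1429) (.e (nat_lit 204812) (nat_lit 9) (.e (nat_lit 426098) (nat_lit 1) (.e (nat_lit 164399) (nat_lit 256) (.e (nat_lit 57408) (nat_lit 12) .nil)))) (.g (nat_lit 0) (.e (nat_lit 221665) (nat_lit 0) .nil) .nil))) 
(.lf (nat_lit 520085) (.g (nat_lit 1939) (.e (nat_lit 204829) (nat_lit 18) (.e (nat_lit 57854) (nat_lit 252) (.e (nat_lit 57406) (nat_lit 12) (.e (nat_lit 336456) (nat_lit 34) (.e (nat_lit 483391) (nat_lit 23) (.e (nat_lit 343808) (nat_lit 18) .nil)))))) (.g (nat_lit 1) (.e (nat_lit 223543) (nat_lit 0) .nil) .nil)))))) (.nd (nat_lit 7) (.nd (nat_lit 8) (.nd (nat_lit 9) 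
(.lf (nat_lit 519253) (.g (nat_lit 2208) (.e (nat_lit 196683) (nat_lit 18) (.e (nat_lit 1374) (nat_lit 104) (.e (nat_lit 303145) (nat_lit 13) (.e (nat_lit 483337) (nat_lit 9) (.e (nat_lit 426107) (nat_lit 1) .nil))))) (.g (nat_lit 0) (.e (nat_lit 220491) (nat_lit 0) .nil) .nil))) 
(.lf (nat_lit 519765) (.g (nat_lit 2321) (.e (nat_lit 204813) (nat_lit 9) (.e (nat_lit 426200) (nat_lit 9) (.e (nat_lit 426509) (nat_lit 27) (.e (nat_lit 336389) (nat_lit 27) (.e (nat_lit 426098) (nat_lit 1) (.e (nat_lit 164327) (nat_lit 230) (.e (nat_lit 163875) (nat_lit 3) .nil))))))) (.g (nat_lit 1) (.e (nat_lit 222199) (nat_lit 0) .nil) .nil)))) (.nd (nat_lit 9) 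
(.lf (nat_lit 519509) (.g (nat_lit 2107) (.e (nat_lit 204811) (nat_lit 9) (.e (nat_lit 426230) (nat_lit 9) (.e (nat_lit 426565) (nat_lit 34) (.e (nat_lit 393254) (nat_lit 18) (.e (nat_lit 164327) (nat_lit 230) (.e (nat_lit 163873) (nat_lit 3) .nil)))))) (.g (nat_lit 1) (.e (nat_lit 221576) (nat_lit 0) .nil) .nil))) 
(.lf (nat_lit 520021) (.g (nat_lit 462) (.e (nat_lit 204829) (nat_lit 18) (.e (nat_lit 57692) (nat_lit 156) (.e (nat_lit 163906) (nat_lit 12) .nil))) (.g (nat_lit 0) (.e (nat_lit 223461) (nat_lit 0) .nil) .nil))))) (.nd (nat_lit 8) (.nd (nat_lit 9) 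
(.lf (nat_lit 519381) (.g (nat_lit 425) (.e (nat_lit 204809) (nat_lit 9) (.e (nat_lit 426116) (nat_lit 2) (.e (nat_lit 196654) (nat_lit 11) .nil))) (.g (nat_lit 0) (.e (nat_lit 220906) (nat_lit 0) .nil) .nil))) 
(.lf (nat_lit 519893) (.g (nat_lit 2129) (.e (nat_lit 204821) (nat_lit 17) (.e (nat_lit 6114) (nat_lit 332) (.e (nat_lit 2777) (nat_lit 178) (.e (nat_lit 286734) (nat_lit 3) .nil)))) (.g (nat_lit 0) (.e (nat_lit 223287) (nat_lit 0) .nil) .nil)))) (.nd (nat_lit 9) 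
(.lf (nat_lit 519637) (.g (nat_lit 1917) (.e (nat_lit 204812) (nat_lit 9) (.e (nat_lit 426198) (nat_lit 9) (.e (nat_lit 426566) (nat_lit 34) (.e (nat_lit 393251) (nat_lit 18) (.e (nat_lit 164325) (nat_lit 230) .nil))))) (.g (nat_lit 0) (.e (nat_lit 221758) (nat_lit 0) .nil) .nil))) 
(.lf (nat_lit 520149) (.g (nat_lit 3079) (.e (nat_lit 204829) (nat_lit 18) (.e (nat_lit 57927) (nat_lit 282) (.e (nat_lit 163867) (nat_lit 2) (.e (nat_lit 196670) (nat_lit 14) (.e (nat_lit 73746) (nat_lit 3) (.e (nat_lit 516124) (nat_lit 2) (.e (nat_lit 213013) (nat_lit 9) (.e (nat_lit 2684) (nat_lit 168) .nil)))))))) (.g (nat_lit 1) (.e (nat_lit 223615) (nat_lit 0) .nil) .nil))))))) 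
(.nd (nat_lit 6) (.nd (nat_lit 7) (.nd (nat_lit 8) (.nd (nat_lit 9) 
(.lf (nat_lit 519221) (.g (nat_lit 2273) (.e (nat_lit 196681) (nat_lit 17) (.e (nat_lit 131123) (nat_lit 12) (.e (nat_lit 385066) (nat_lit 26) (.e (nat_lit 532515) (nat_lit 3) (.e (nat_lit 114697) (nat_lit 11) (.e (nat_lit 426116) (nat_lit 2) .nil)))))) (.g (nat_lit 1) (.e (nat_lit 220388) (nat_lit 0) .nil) .nil))) 
(.lf (nat_lit 519733) (.g (nat_lit 3182) (.e (nat_lit 204813) (nat_lit 9) (.e (nat_lit 426198) (nat_lit 9) (.e (nat_lit 426509) (nat_lit 27) (.e (nat_lit 336389) (nat_lit 27) (.e (nat_lit 426098) (nat_lit 1) (.e (nat_lit 164327) (nat_lit 230) (.e (nat_lit 163875) (nat_lit 3) .nil))))))) (.g (nat_lit 1) (.e (nat_lit 222088) (nat_lit 0) .nil) .nil)))) (.nd (nat_lit 9) 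
(.lf (nat_lit 519477) (.g (nat_lit 3628) (.e (nat_lit 204809) (nat_lit 9) (.e (nat_lit 426200) (nat_lit 9) (.e (nat_lit 426566) (nat_lit 34) (.e (nat_lit 393253) (nat_lit 18) (.e (nat_lit 164324) (nat_lit 230) (.e (nat_lit 163873) (nat_lit 3) .nil)))))) (.g (nat_lit 1) (.e (nat_lit 221362) (nat_lit 0) .nil) .nil))) 
(.lf (nat_lit 519989) (.g (nat_lit 2652) (.e (nat_lit 204829) (nat_lit 18) (.e (nat_lit 57691) (nat_lit 156) (.e (nat_lit 163872) (nat_lit 3) (.e (nat_lit 204838) (nat_lit 20) (.e (nat_lit 114716) (nat_lit 22) (.e (nat_lit 90185) (nat_lit 17) (.e (nat_lit 237592) (nat_lit 3) .nil))))))) (.g (nat_lit 1) (.e (nat_lit 223417) (nat_lit 0) .nil) .nil))))) (.nd (nat_lit 8) (.nd (nat_lit 9) 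
(.lf (nat_lit 519349) (.g (nat_lit 3534) (.e (nat_lit 204808) (nat_lit 9) (.e (nat_lit 426124) (nat_lit 2) (.e (nat_lit 196656) (nat_lit 11) (.e (nat_lit 16412) (nat_lit 2) (.e (nat_lit 196654) (nat_lit 11) (.e (nat_lit 16416) (nat_lit 3) .nil)))))) (.g (nat_lit 1) (.e (nat_lit 220729) (nat_lit 0) .nil) .nil))) 
(.lf (nat_lit 519861) (.g (nat_lit 1162) (.e (nat_lit 204816) (nat_lit 17) (.e (nat_lit 6724) (nat_lit 362) (.e (nat_lit 180251) (nat_lit 10) (.e (nat_lit 573469) (nat_lit 11) .nil)))) (.g (nat_lit 0) (.e (nat_lit 223199) (nat_lit 0) .nil) .nil)))) (.nd (nat_lit 9) 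
(.lf (nat_lit 519605) (.g (nat_lit 660) (.e (nat_lit 204812) (nat_lit 9) (.e (nat_lit 426108) (nat_lit 1) (.e (nat_lit 164402) (nat_lit 256) .nil))) (.g (nat_lit 0) (.e (nat_lit 221698) (nat_lit 0) .nil) .nil))) 
(.lf (nat_lit 520117) (.g (nat_lit 2232) (.e (nat_lit 204829) (nat_lit 18) (.e (nat_lit 57926) (nat_lit 282) (.e (nat_lit 163869) (nat_lit 2) (.e (nat_lit 196670) (nat_lit 14) (.e (nat_lit 73748) (nat_lit 3) .nil))))) (.g (nat_lit 0) (.e (nat_lit 223578) (nat_lit 0) .nil) .nil)))))) (.nd (nat_lit 7) (.nd (nat_lit 8) (.nd (nat_lit 9) 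
(.lf (nat_lit 519285) (.g (nat_lit 1561) (.e (nat_lit 196698) (nat_lit 19) (.e (nat_lit 57811) (nat_lit 246) (.e (nat_lit 57879) (nat_lit 270) (.e (nat_lit 371) (nat_lit 32) (.e (nat_lit 426555) (nat_lit 32) (.e (nat_lit 384768) (nat_lit 2) .nil)))))) (.g (nat_lit 1) (.e (nat_lit 220550) (nat_lit 0) .nil) .nil))) 
(.lf (nat_lit 519797) (.g (nat_lit 1803) (.e (nat_lit 212736) (nat_lit 9) (.e (nat_lit 426189) (nat_lit 9) (.e (nat_lit 426566) (nat_lit 34) (.e (nat_lit 393253) (nat_lit 18) (.e (nat_lit 164327) (nat_lit 230) .nil))))) (.g (nat_lit 0) (.e (nat_lit 222481) (nat_lit 0) .nil) .nil)))) (.nd (nat_lit 9) 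
(.lf (nat_lit 519541) (.g (nat_lit 1824) (.e (nat_lit 204811) (nat_lit 9) (.e (nat_lit 426260) (nat_lit 9) (.e (nat_lit 426565) (nat_lit 34) (.e (nat_lit 393252) (nat_lit 18) (.e (nat_lit 164332) (nat_lit 230) (.e (nat_lit 163873) (nat_lit 3) .nil)))))) (.g (nat_lit 1) (.e (nat_lit 221629) (nat_lit 0) .nil) .nil))) 
(.lf (nat_lit 520053) (.g (nat_lit 4897) (.e (nat_lit 204829) (nat_lit 18) (.e (nat_lit 57847) (nat_lit 252) (.e (nat_lit 57430) (nat_lit 16) (.e (nat_lit 368676) (nat_lit 21) (.e (nat_lit 516146) (nat_lit 9) (.e (nat_lit 426422) (nat_lit 16) (.e (nat_lit 57688) (nat_lit 156) (.e (nat_lit 163873) (nat_lit 3) .nil)))))))) (.g (nat_lit 1) (.e (nat_lit 223503) (nat_lit 0) .nil) .nil))))) 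
(.nd (nat_lit 8) (.nd (nat_lit 9) 
(.lf (nat_lit 519413) (.g (nat_lit 382) (.e (nat_lit 204809) (nat_lit 9) (.e (nat_lit 426133) (nat_lit 3) (.e (nat_lit 204813) (nat_lit 9) .nil))) (.g (nat_lit 0) (.e (nat_lit 221079) (nat_lit 0) .nil) .nil))) 
(.lf (nat_lit 519925) (.g (nat_lit 1603) (.e (nat_lit 204828) (nat_lit 18) (.e (nat_lit 57853) (nat_lit 252) (.e (nat_lit 57406) (nat_lit 12) (.e (nat_lit 336367) (nat_lit 27) .nil)))) (.g (nat_lit 0) (.e (nat_lit 223334) (nat_lit 0) .nil) .nil)))) (.nd (nat_lit 9) 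
(.lf (nat_lit 519669) (.g (nat_lit 2303) (.e (nat_lit 204813) (nat_lit 9) (.e (nat_lit 426108) (nat_lit 1) (.e (nat_lit 164401) (nat_lit 256) (.e (nat_lit 57406) (nat_lit 12) (.e (nat_lit 336443) (nat_lit 32) .nil))))) (.g (nat_lit 0) (.e (nat_lit 221854) (nat_lit 0) .nil) .nil))) 
(.lf (nat_lit 520181) (.g (nat_lit 3781) (.e (nat_lit 204829) (nat_lit 18) (.e (nat_lit 57927) (nat_lit 282) (.e (nat_lit 163868) (nat_lit 2) (.e (nat_lit 196668) (nat_lit 14) (.e (nat_lit 73747) (nat_lit 3) (.e (nat_lit 516129) (nat_lit 3) (.e (nat_lit 221213) (nat_lit 23) .nil))))))) (.g (nat_lit 1) (.e (nat_lit 223647) (nat_lit 0) .nil) .nil))))))))) 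
(.nd (nat_lit 4) (.nd (nat_lit 5) (.nd (nat_lit 6) (.nd (nat_lit 7) (.nd (nat_lit 8) 
(.nd (nat_lit 9) 
(.lf (nat_lit 519181) (.g (nat_lit 1662) (.e (nat_lit 196681) (nat_lit 17) (.e (nat_lit 131120) (nat_lit 12) (.e (nat_lit 385066) (nat_lit 26) (.e (nat_lit 532481) (nat_lit 0) (.e (nat_lit 2036) (nat_lit 141) .nil))))) (.g (nat_lit 0) (.e (nat_lit 220317) (nat_lit 0) .nil) .nil))) 
(.lf (nat_lit 519693) (.g (nat_lit 3780) (.e (nat_lit 204813) (nat_lit 9) (.e (nat_lit 426124) (nat_lit 2) (.e (nat_lit 196654) (nat_lit 11) (.e (nat_lit 16412) (nat_lit 2) (.e (nat_lit 196654) (nat_lit 11) (.e (nat_lit 16416) (nat_lit 3) .nil)))))) (.g (nat_lit 1) (.e (nat_lit 221914) (nat_lit 0) .nil) .nil)))) (.nd (nat_lit 9) 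
(.lf (nat_lit 519437) (.g (nat_lit 930) (.e (nat_lit 204809) (nat_lit 9) (.e (nat_lit 426187) (nat_lit 9) (.e (nat_lit 426566) (nat_lit 34) (.e (nat_lit 393254) (nat_lit 18) .nil)))) (.g (nat_lit 0) (.e (nat_lit 221254) (nat_lit 0) .nil) .nil))) 
(.lf (nat_lit 519949) (.g (nat_lit 3118) (.e (nat_lit 204829) (nat_lit 18) (.e (nat_lit 57686) (nat_lit 156) (.e (nat_lit 163903) (nat_lit 12) (.e (nat_lit 426479) (nat_lit 27) (.e (nat_lit 336443) (nat_lit 32) (.e (nat_lit 466981) (nat_lit 23) .nil)))))) (.g (nat_lit 1) (.e (nat_lit 223362) (nat_lit 0) .nil) .nil))))) (.nd (nat_lit 8) (.nd (nat_lit 9) 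
(.lf (nat_lit 519309) (.g (nat_lit 2103) (.e (nat_lit 204805) (nat_lit 0) (.e (nat_lit 7096) (nat_lit 380) (.e (nat_lit 164356) (nat_lit 246) (.e (nat_lit 226) (nat_lit 21) (.e (nat_lit 336430) (nat_lit 29) .nil))))) (.g (nat_lit 0) (.e (nat_lit 220582) (nat_lit 0) .nil) .nil))) 
(.lf (nat_lit 519821) (.g (nat_lit 3116) (.e (nat_lit 204815) (nat_lit 17) (.e (nat_lit 6203) (nat_lit 332) (.e (nat_lit 2798) (nat_lit 180) (.e (nat_lit 303117) (nat_lit 2) (.e (nat_lit 196670) (nat_lit 14) (.e (nat_lit 73781) (nat_lit 32) (.e (nat_lit 2682) (nat_lit 168) .nil))))))) (.g (nat_lit 1) (.e (nat_lit 222954) (nat_lit 0) .nil) .nil)))) (.nd (nat_lit 9) 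
(.lf (nat_lit 519565) (.g (nat_lit 1991) (.e (nat_lit 204811) (nat_lit 9) (.e (nat_lit 426262) (nat_lit 9) (.e (nat_lit 426565) (nat_lit 34) (.e (nat_lit 393253) (nat_lit 18) (.e (nat_lit 164330) (nat_lit 230) (.e (nat_lit 163873) (nat_lit 3) .nil)))))) (.g (nat_lit 1) (.e (nat_lit 221653) (nat_lit 0) .nil) .nil))) 
(.lf (nat_lit 520077) (.g (nat_lit 3139) (.e (nat_lit 204829) (nat_lit 18) (.e (nat_lit 57852) (nat_lit 252) (.e (nat_lit 57406) (nat_lit 12) (.e (nat_lit 336456) (nat_lit 34) (.e (nat_lit 483383) (nat_lit 23) .nil))))) (.g (nat_lit 0) (.e (nat_lit 223534) (nat_lit 0) .nil) .nil)))))) (.nd (nat_lit 7) (.nd (nat_lit 8) (.nd (nat_lit 9) 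
(.lf (nat_lit 519245) (.g (nat_lit 2243) (.e (nat_lit 196681) (nat_lit 17) (.e (nat_lit 131128) (nat_lit 13) (.e (nat_lit 393225) (nat_lit 9) (.e (nat_lit 335987) (nat_lit 1) (.e (nat_lit 57927) (nat_lit 282) (.e (nat_lit 163869) (nat_lit 2) .nil)))))) (.g (nat_lit 1) (.e (nat_lit 220470) (nat_lit 0) .nil) .nil))) 
(.lf (nat_lit 519757) (.g (nat_lit 540) (.e (nat_lit 204813) (nat_lit 9) (.e (nat_lit 426200) (nat_lit 9) (.e (nat_lit 426481) (nat_lit 27) .nil))) (.g (nat_lit 0) (.e (nat_lit 222190) (nat_lit 0) .nil) .nil)))) (.nd (nat_lit 9) 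
(.lf (nat_lit 519501) (.g (nat_lit 2505) (.e (nat_lit 204811) (nat_lit 9) (.e (nat_lit 426228) (nat_lit 9) (.e (nat_lit 426565) (nat_lit 34) (.e (nat_lit 393253) (nat_lit 18) (.e (nat_lit 164327) (nat_lit 230) (.e (nat_lit 163873) (nat_lit 3) .nil)))))) (.g (nat_lit 1) (.e (nat_lit 221568) (nat_lit 0) .nil) .nil))) 
(.lf (nat_lit 520013) (.g (nat_lit 3467) (.e (nat_lit 204829) (nat_lit 18) (.e (nat_lit 57692) (nat_lit 156) (.e (nat_lit 163875) (nat_lit 3) (.e (nat_lit 204838) (nat_lit 20) (.e (nat_lit 114718) (nat_lit 23) (.e (nat_lit 98365) (nat_lit 26) (.e (nat_lit 426133) (nat_lit 3) .nil))))))) (.g (nat_lit 1) (.e (nat_lit 223451) (nat_lit 0) .nil) .nil))))) (.nd (nat_lit 8) (.nd (nat_lit 9) 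
(.lf (nat_lit 519373) (.g (nat_lit 589) (.e (nat_lit 204809) (nat_lit 9) (.e (nat_lit 426107) (nat_lit 1) (.e (nat_lit 164345) (nat_lit 240) .nil))) (.g (nat_lit 0) (.e (nat_lit 220890) (nat_lit 0) .nil) .nil))) 
(.lf (nat_lit 519885) (.g (nat_lit 1661) (.e (nat_lit 204819) (nat_lit 17) (.e (nat_lit 6677) (nat_lit 357) (.e (nat_lit 3065) (nat_lit 190) (.e (nat_lit 475185) (nat_lit 29) (.e (nat_lit 557109) (nat_lit 15) .nil))))) (.g (nat_lit 0) (.e (nat_lit 223253) (nat_lit 0) .nil) .nil)))) (.nd (nat_lit 9) 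
(.lf (nat_lit 519629) (.g (nat_lit 2732) (.e (nat_lit 204812) (nat_lit 9) (.e (nat_lit 426189) (nat_lit 9) (.e (nat_lit 426566) (nat_lit 34) (.e (nat_lit 393251) (nat_lit 18) (.e (nat_lit 164325) (nat_lit 230) (.e (nat_lit 163875) (nat_lit 3) .nil)))))) (.g (nat_lit 1) (.e (nat_lit 221749) (nat_lit 0) .nil) .nil))) 
(.lf (nat_lit 520141) (.g (nat_lit 2470) (.e (nat_lit 204829) (nat_lit 18) (.e (nat_lit 57927) (nat_lit 282) (.e (nat_lit 163866) (nat_lit 2) (.e (nat_lit 196670) (nat_lit 14) (.e (nat_lit 73746) (nat_lit 3) (.e (nat_lit 516124) (nat_lit 2) (.e (nat_lit 213019) (nat_lit 9) (.e (nat_lit 2676) (nat_lit 168) .nil)))))))) (.g (nat_lit 1) (.e (nat_lit 223607) (nat_lit 0) .nil) .nil))))))) 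
(.nd (nat_lit 6) (.nd (nat_lit 7) (.nd (nat_lit 8) (.nd (nat_lit 9) 
(.lf (nat_lit 519213) (.g (nat_lit 2372) (.e (nat_lit 196681) (nat_lit 17) (.e (nat_lit 131123) (nat_lit 12) (.e (nat_lit 385066) (nat_lit 26) (.e (nat_lit 532513) (nat_lit 3) (.e (nat_lit 114697) (nat_lit 11) (.e (nat_lit 426121) (nat_lit 2) .nil)))))) (.g (nat_lit 1) (.e (nat_lit 220377) (nat_lit 0) .nil) .nil))) 
(.lf (nat_lit 519725) (.g (nat_lit 3302) (.e (nat_lit 204813) (nat_lit 9) (.e (nat_lit 426190) (nat_lit 9) (.e (nat_lit 426566) (nat_lit 34) (.e (nat_lit 393251) (nat_lit 18) (.e (nat_lit 164326) (nat_lit 230) (.e (nat_lit 163873) (nat_lit 3) .nil)))))) (.g (nat_lit 1) (.e (nat_lit 222059) (nat_lit 0) .nil) .nil)))) (.nd (nat_lit 9) 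
(.lf (nat_lit 519469) (.g (nat_lit 2844) (.e (nat_lit 204809) (nat_lit 9) (.e (nat_lit 426198) (nat_lit 9) (.e (nat_lit 426566) (nat_lit 34) (.e (nat_lit 393251) (nat_lit 18) (.e (nat_lit 164331) (nat_lit 230) (.e (nat_lit 163873) (nat_lit 3) .nil)))))) (.g (nat_lit 1) (.e (nat_lit 221289) (nat_lit 0) .nil) .nil))) 
(.lf (nat_lit 519981) (.g (nat_lit 2084) (.e (nat_lit 204829) (nat_lit 18) (.e (nat_lit 57688) (nat_lit 156) (.e (nat_lit 163907) (nat_lit 12) (.e (nat_lit 426481) (nat_lit 27) .nil)))) (.g (nat_lit 0) (.e (nat_lit 223400) (nat_lit 0) .nil) .nil))))) (.nd (nat_lit 8) (.nd (nat_lit 9) 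
(.lf (nat_lit 519341) (.g (nat_lit 2273) (.e (nat_lit 204808) (nat_lit 9) (.e (nat_lit 426107) (nat_lit 1) (.e (nat_lit 164403) (nat_lit 256) (.e (nat_lit 57406) (nat_lit 12) (.e (nat_lit 336426) (nat_lit 29) .nil))))) (.g (nat_lit 0) (.e (nat_lit 220702) (nat_lit 0) .nil) .nil))) 
(.lf (nat_lit 519853) (.g (nat_lit 2322) (.e (nat_lit 204816) (nat_lit 17) (.e (nat_lit 6724) (nat_lit 362) (.e (nat_lit 180243) (nat_lit 5) (.e (nat_lit 532562) (nat_lit 15) (.e (nat_lit 385105) (nat_lit 50) (.e (nat_lit 794368) (nat_lit 3) .nil)))))) (.g (nat_lit 1) (.e (nat_lit 223148) (nat_lit 0) .nil) .nil)))) (.nd (nat_lit 9) 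
(.lf (nat_lit 519597) (.g (nat_lit 831) (.e (nat_lit 204812) (nat_lit 9) (.e (nat_lit 426107) (nat_lit 1) (.e (nat_lit 164347) (nat_lit 240) .nil))) (.g (nat_lit 0) (.e (nat_lit 221689) (nat_lit 0) .nil) .nil))) 
(.lf (nat_lit 520109) (.g (nat_lit 2520) (.e (nat_lit 204829) (nat_lit 18) (.e (nat_lit 57926) (nat_lit 282) (.e (nat_lit 163869) (nat_lit 2) (.e (nat_lit 196670) (nat_lit 14) (.e (nat_lit 73746) (nat_lit 3) (.e (nat_lit 516124) (nat_lit 2) (.e (nat_lit 213000) (nat_lit 9) (.e (nat_lit 2680) (nat_lit 168) .nil)))))))) (.g (nat_lit 1) (.e (nat_lit 223570) (nat_lit 0) .nil) .nil)))))) 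
(.nd (nat_lit 7) (.nd (nat_lit 8) (.nd (nat_lit 9) 
(.lf (nat_lit 519277) (.g (nat_lit 1113) (.e (nat_lit 196698) (nat_lit 19) (.e (nat_lit 57809) (nat_lit 246) (.e (nat_lit 57883) (nat_lit 270) (.e (nat_lit 496) (nat_lit 39) (.e (nat_lit 483382) (nat_lit 23) (.e (nat_lit 343808) (nat_lit 17) .nil)))))) (.g (nat_lit 1) (.e (nat_lit 220542) (nat_lit 0) .nil) .nil))) 
(.lf (nat_lit 519789) (.g (nat_lit 2070) (.e (nat_lit 212736) (nat_lit 9) (.e (nat_lit 426100) (nat_lit 1) (.e (nat_lit 164403) (nat_lit 256) (.e (nat_lit 57406) (nat_lit 12) .nil)))) (.g (nat_lit 0) (.e (nat_lit 222422) (nat_lit 0) .nil) .nil)))) (.nd (nat_lit 9) 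
(.lf (nat_lit 519533) (.g (nat_lit 2178) (.e (nat_lit 204811) (nat_lit 9) (.e (nat_lit 426234) (nat_lit 9) (.e (nat_lit 426565) (nat_lit 34) (.e (nat_lit 393254) (nat_lit 18) (.e (nat_lit 164332) (nat_lit 230) (.e (nat_lit 163874) (nat_lit 3) .nil)))))) (.g (nat_lit 1) (.e (nat_lit 221600) (nat_lit 0) .nil) .nil))) 
(.lf (nat_lit 520045) (.g (nat_lit 3882) (.e (nat_lit 204829) (nat_lit 18) (.e (nat_lit 57847) (nat_lit 252) (.e (nat_lit 57407) (nat_lit 12) (.e (nat_lit 336456) (nat_lit 34) (.e (nat_lit 483346) (nat_lit 17) (.e (nat_lit 6445) (nat_lit 343) (.e (nat_lit 170) (nat_lit 12) .nil))))))) (.g (nat_lit 1) (.e (nat_lit 223493) (nat_lit 0) .nil) .nil))))) (.nd (nat_lit 8) (.nd (nat_lit 9) 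
(.lf (nat_lit 519405) (.g (nat_lit 1528) (.e (nat_lit 204809) (nat_lit 9) (.e (nat_lit 426124) (nat_lit 2) (.e (nat_lit 196656) (nat_lit 11) (.e (nat_lit 16412) (nat_lit 2) .nil)))) (.g (nat_lit 0) (.e (nat_lit 221034) (nat_lit 0) .nil) .nil))) 
(.lf (nat_lit 519917) (.g (nat_lit 529) (.e (nat_lit 204828) (nat_lit 18) (.e (nat_lit 57692) (nat_lit 156) (.e (nat_lit 163905) (nat_lit 12) .nil))) (.g (nat_lit 0) (.e (nat_lit 223326) (nat_lit 0) .nil) .nil)))) (.nd (nat_lit 9) 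
(.lf (nat_lit 519661) (.g (nat_lit 1879) (.e (nat_lit 204813) (nat_lit 9) (.e (nat_lit 426100) (nat_lit 1) (.e (nat_lit 164403) (nat_lit 256) (.e (nat_lit 57408) (nat_lit 12) .nil)))) (.g (nat_lit 0) (.e (nat_lit 221843) (nat_lit 0) .nil) .nil))) 
(.lf (nat_lit 520173) (.g (nat_lit 2456) (.e (nat_lit 204829) (nat_lit 18) (.e (nat_lit 57927) (nat_lit 282) (.e (nat_lit 163868) (nat_lit 2) (.e (nat_lit 196668) (nat_lit 14) (.e (nat_lit 73747) (nat_lit 3) (.e (nat_lit 516124) (nat_lit 2) (.e (nat_lit 213008) (nat_lit 9) (.e (nat_lit 2680) (nat_lit 168) .nil)))))))) (.g (nat_lit 1) (.e (nat_lit 223639) (nat_lit 0) .nil) .nil)))))))) 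
(.nd (nat_lit 5) (.nd (nat_lit 6) (.nd (nat_lit 7) (.nd (nat_lit 8) (.nd (nat_lit 9) 
(.lf (nat_lit 519197) (.g (nat_lit 2594) (.e (nat_lit 196681) (nat_lit 17) (.e (nat_lit 131120) (nat_lit 12) (.e (nat_lit 385068) (nat_lit 26) (.e (nat_lit 532515) (nat_lit 3) (.e (nat_lit 114694) (nat_lit 11) (.e (nat_lit 426124) (nat_lit 2) .nil)))))) (.g (nat_lit 1) (.e (nat_lit 220342) (nat_lit 0) .nil) .nil))) 
(.lf (nat_lit 519709) (.g (nat_lit 3439) (.e (nat_lit 204813) (nat_lit 9) (.e (nat_lit 426139) (nat_lit 3) (.e (nat_lit 204809) (nat_lit 9) (.e (nat_lit 426124) (nat_lit 2) (.e (nat_lit 196654) (nat_lit 11) (.e (nat_lit 16416) (nat_lit 3) .nil)))))) (.g (nat_lit 1) (.e (nat_lit 221983) (nat_lit 0) .nil) .nil)))) (.nd (nat_lit 9) 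
(.lf (nat_lit 519453) (.g (nat_lit 2961) (.e (nat_lit 204809) (nat_lit 9) (.e (nat_lit 426188) (nat_lit 9) (.e (nat_lit 426568) (nat_lit 34) (.e (nat_lit 393253) (nat_lit 18) (.e (nat_lit 164332) (nat_lit 230) (.e (nat_lit 163873) (nat_lit 3) .nil)))))) (.g (nat_lit 1) (.e (nat_lit 221272) (nat_lit 0) .nil) .nil))) 
(.lf (nat_lit 519965) (.g (nat_lit 2707) (.e (nat_lit 204829) (nat_lit 18) (.e (nat_lit 57688) (nat_lit 156) (.e (nat_lit 163902) (nat_lit 12) (.e (nat_lit 426568) (nat_lit 34) (.e (nat_lit 393277) (nat_lit 23) (.e (nat_lit 426135) (nat_lit 3) .nil)))))) (.g (nat_lit 1) (.e (nat_lit 223382) (nat_lit 0) .nil) .nil))))) (.nd (nat_lit 8) (.nd (nat_lit 9) 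
(.lf (nat_lit 519325) (.g (nat_lit 2124) (.e (nat_lit 204808) (nat_lit 9) (.e (nat_lit 426100) (nat_lit 1) (.e (nat_lit 164398) (nat_lit 256) (.e (nat_lit 57407) (nat_lit 12) (.e (nat_lit 336443) (nat_lit 32) .nil))))) (.g (nat_lit 0) (.e (nat_lit 220686) (nat_lit 0) .nil) .nil))) 
(.lf (nat_lit 519837) (.g (nat_lit 1804) (.e (nat_lit 204815) (nat_lit 17) (.e (nat_lit 6724) (nat_lit 362) (.e (nat_lit 180252) (nat_lit 10) (.e (nat_lit 573471) (nat_lit 11) (.e (nat_lit 16442) (nat_lit 9) (.e (nat_lit 426135) (nat_lit 3) .nil)))))) (.g (nat_lit 1) (.e (nat_lit 223056) (nat_lit 0) .nil) .nil)))) (.nd (nat_lit 9) 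
(.lf (nat_lit 519581) (.g (nat_lit 2144) (.e (nat_lit 204812) (nat_lit 9) (.e (nat_lit 426100) (nat_lit 1) (.e (nat_lit 164398) (nat_lit 256) (.e (nat_lit 57407) (nat_lit 12) (.e (nat_lit 336443) (nat_lit 32) .nil))))) (.g (nat_lit 0) (.e (nat_lit 221673) (nat_lit 0) .nil) .nil))) 
(.lf (nat_lit 520093) (.g (nat_lit 2795) (.e (nat_lit 204829) (nat_lit 18) (.e (nat_lit 57925) (nat_lit 282) (.e (nat_lit 163871) (nat_lit 2) (.e (nat_lit 196668) (nat_lit 14) (.e (nat_lit 73747) (nat_lit 3) (.e (nat_lit 516131) (nat_lit 3) (.e (nat_lit 221213) (nat_lit 23) .nil))))))) (.g (nat_lit 1) (.e (nat_lit 223553) (nat_lit 0) .nil) .nil)))))) 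
(.nd (nat_lit 7) (.nd (nat_lit 8) (.nd (nat_lit 9) 
(.lf (nat_lit 519261) (.g (nat_lit 267) (.e (nat_lit 204544) (nat_lit 18) (.e (nat_lit 2797) (nat_lit 180) (.e (nat_lit 303133) (nat_lit 9) .nil))) (.g (nat_lit 0) (.e (nat_lit 220501) (nat_lit 0) .nil) .nil))) 
(.lf (nat_lit 519773) (.g (nat_lit 4371) (.e (nat_lit 204813) (nat_lit 9) (.e (nat_lit 426200) (nat_lit 9) (.e (nat_lit 426566) (nat_lit 34) (.e (nat_lit 393253) (nat_lit 18) (.e (nat_lit 164327) (nat_lit 230) (.e (nat_lit 163873) (nat_lit 3) .nil)))))) (.g (nat_lit 1) (.e (nat_lit 222207) (nat_lit 0) .nil) .nil)))) (.nd (nat_lit 9) 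
(.lf (nat_lit 519517) (.g (nat_lit 1985) (.e (nat_lit 204811) (nat_lit 9) (.e (nat_lit 426232) (nat_lit 9) (.e (nat_lit 426565) (nat_lit 34) (.e (nat_lit 393253) (nat_lit 18) (.e (nat_lit 164326) (nat_lit 230) (.e (nat_lit 163873) (nat_lit 3) .nil)))))) (.g (nat_lit 1) (.e (nat_lit 221584) (nat_lit 0) .nil) .nil))) 
(.lf (nat_lit 520029) (.g (nat_lit 2325) (.e (nat_lit 204829) (nat_lit 18) (.e (nat_lit 57846) (nat_lit 252) (.e (nat_lit 57407) (nat_lit 12) (.e (nat_lit 336454) (nat_lit 34) (.e (nat_lit 483380) (nat_lit 23) .nil))))) (.g (nat_lit 0) (.e (nat_lit 223477) (nat_lit 0) .nil) .nil))))) (.nd (nat_lit 8) (.nd (nat_lit 9) 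
(.lf (nat_lit 519389) (.g (nat_lit 1985) (.e (nat_lit 204809) (nat_lit 9) (.e (nat_lit 426116) (nat_lit 2) (.e (nat_lit 196656) (nat_lit 11) (.e (nat_lit 16416) (nat_lit 3) (.e (nat_lit 204813) (nat_lit 9) .nil))))) (.g (nat_lit 0) (.e (nat_lit 220947) (nat_lit 0) .nil) .nil))) 
(.lf (nat_lit 519901) (.g (nat_lit 4040) (.e (nat_lit 204821) (nat_lit 17) (.e (nat_lit 6680) (nat_lit 357) (.e (nat_lit 3067) (nat_lit 190) (.e (nat_lit 475183) (nat_lit 29) (.e (nat_lit 557098) (nat_lit 13) (.e (nat_lit 172097) (nat_lit 9) (.e (nat_lit 426140) (nat_lit 3) .nil))))))) (.g (nat_lit 1) (.e (nat_lit 223300) (nat_lit 0) .nil) .nil)))) (.nd (nat_lit 9) 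
(.lf (nat_lit 519645) (.g (nat_lit 1603) (.e (nat_lit 204813) (nat_lit 9) (.e (nat_lit 426098) (nat_lit 1) (.e (nat_lit 164398) (nat_lit 256) (.e (nat_lit 57408) (nat_lit 12) .nil)))) (.g (nat_lit 0) (.e (nat_lit 221827) (nat_lit 0) .nil) .nil))) 
(.lf (nat_lit 520157) (.g (nat_lit 2672) (.e (nat_lit 204829) (nat_lit 18) (.e (nat_lit 57927) (nat_lit 282) (.e (nat_lit 163868) (nat_lit 2) (.e (nat_lit 196668) (nat_lit 14) (.e (nat_lit 73746) (nat_lit 3) (.e (nat_lit 516124) (nat_lit 2) (.e (nat_lit 213008) (nat_lit 9) (.e (nat_lit 2680) (nat_lit 168) .nil)))))))) (.g (nat_lit 1) (.e (nat_lit 223623) (nat_lit 0) .nil) .nil))))))) 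
(.nd (nat_lit 6) (.nd (nat_lit 7) (.nd (nat_lit 8) (.nd (nat_lit 9) 
(.lf (nat_lit 519229) (.g (nat_lit 2412) (.e (nat_lit 196681) (nat_lit 17) (.e (nat_lit 131123) (nat_lit 12) (.e (nat_lit 385068) (nat_lit 26) (.e (nat_lit 532490) (nat_lit 0) (.e (nat_lit 2155) (nat_lit 142) .nil))))) (.g (nat_lit 0) (.e (nat_lit 220397) (nat_lit 0) .nil) .nil))) 
(.lf (nat_lit 519741) (.g (nat_lit 2791) (.e (nat_lit 204813) (nat_lit 9) (.e (nat_lit 426198) (nat_lit 9) (.e (nat_lit 426566) (nat_lit 34) (.e (nat_lit 393254) (nat_lit 18) (.e (nat_lit 164327) (nat_lit 230) .nil))))) (.g (nat_lit 0) (.e (nat_lit 222097) (nat_lit 0) .nil) .nil)))) (.nd (nat_lit 9) 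
(.lf (nat_lit 519485) (.g (nat_lit 2531) (.e (nat_lit 204809) (nat_lit 9) (.e (nat_lit 426200) (nat_lit 9) (.e (nat_lit 426568) (nat_lit 34) (.e (nat_lit 393253) (nat_lit 18) (.e (nat_lit 164330) (nat_lit 230) (.e (nat_lit 163873) (nat_lit 3) .nil)))))) (.g (nat_lit 1) (.e (nat_lit 221370) (nat_lit 0) .nil) .nil))) 
(.lf (nat_lit 519997) (.g (nat_lit 3349) (.e (nat_lit 204829) (nat_lit 18) (.e (nat_lit 57691) (nat_lit 156) (.e (nat_lit 163905) (nat_lit 12) (.e (nat_lit 426566) (nat_lit 34) (.e (nat_lit 393273) (nat_lit 23) .nil))))) (.g (nat_lit 0) (.e (nat_lit 223426) (nat_lit 0) .nil) .nil))))) (.nd (nat_lit 8) (.nd (nat_lit 9) 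
(.lf (nat_lit 519357) (.g (nat_lit 1744) (.e (nat_lit 204809) (nat_lit 9) (.e (nat_lit 426098) (nat_lit 1) (.e (nat_lit 164402) (nat_lit 256) (.e (nat_lit 57409) (nat_lit 12) (.e (nat_lit 336443) (nat_lit 32) .nil))))) (.g (nat_lit 0) (.e (nat_lit 220870) (nat_lit 0) .nil) .nil))) 
(.lf (nat_lit 519869) (.g (nat_lit 1741) (.e (nat_lit 204816) (nat_lit 17) (.e (nat_lit 6724) (nat_lit 362) (.e (nat_lit 180252) (nat_lit 10) (.e (nat_lit 573471) (nat_lit 11) (.e (nat_lit 16445) (nat_lit 9) .nil))))) (.g (nat_lit 0) (.e (nat_lit 223216) (nat_lit 0) .nil) .nil)))) (.nd (nat_lit 9) 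
(.lf (nat_lit 519613) (.g (nat_lit 1744) (.e (nat_lit 204812) (nat_lit 9) (.e (nat_lit 426116) (nat_lit 2) (.e (nat_lit 196656) (nat_lit 11) (.e (nat_lit 16416) (nat_lit 3) .nil)))) (.g (nat_lit 0) (.e (nat_lit 221708) (nat_lit 0) .nil) .nil))) 
(.lf (nat_lit 520125) (.g (nat_lit 1624) (.e (nat_lit 204829) (nat_lit 18) (.e (nat_lit 57926) (nat_lit 282) (.e (nat_lit 163873) (nat_lit 3) (.e (nat_lit 204872) (nat_lit 30) .nil)))) (.g (nat_lit 0) (.e (nat_lit 223586) (nat_lit 0) .nil) .nil)))))) (.nd (nat_lit 7) (.nd (nat_lit 8) (.nd (nat_lit 9) 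
(.lf (nat_lit 519293) (.g (nat_lit 1520) (.e (nat_lit 196698) (nat_lit 19) (.e (nat_lit 57813) (nat_lit 246) (.e (nat_lit 57878) (nat_lit 270) (.e (nat_lit 371) (nat_lit 32) (.e (nat_lit 426540) (nat_lit 29) (.e (nat_lit 360192) (nat_lit 2) .nil)))))) (.g (nat_lit 1) (.e (nat_lit 220558) (nat_lit 0) .nil) .nil))) 
(.lf (nat_lit 519805) (.g (nat_lit 578) (.e (nat_lit 212736) (nat_lit 9) (.e (nat_lit 426234) (nat_lit 9) (.e (nat_lit 426565) (nat_lit 34) (.e (nat_lit 393253) (nat_lit 18) (.e (nat_lit 164326) (nat_lit 230) .nil))))) (.g (nat_lit 0) (.e (nat_lit 222492) (nat_lit 0) .nil) .nil)))) (.nd (nat_lit 9) 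
(.lf (nat_lit 519549) (.g (nat_lit 1668) (.e (nat_lit 204811) (nat_lit 9) (.e (nat_lit 426260) (nat_lit 9) (.e (nat_lit 426565) (nat_lit 34) (.e (nat_lit 393254) (nat_lit 18) (.e (nat_lit 164325) (nat_lit 230) (.e (nat_lit 163875) (nat_lit 3) .nil)))))) (.g (nat_lit 1) (.e (nat_lit 221637) (nat_lit 0) .nil) .nil))) 
(.lf (nat_lit 520061) (.g (nat_lit 4307) (.e (nat_lit 204829) (nat_lit 18) (.e (nat_lit 57849) (nat_lit 252) (.e (nat_lit 57377) (nat_lit 3) (.e (nat_lit 98317) (nat_lit 9) (.e (nat_lit 336027) (nat_lit 3) (.e (nat_lit 98321) (nat_lit 17) (.e (nat_lit 3771) (nat_lit 229) (.e (nat_lit 794673) (nat_lit 23) .nil)))))))) (.g (nat_lit 1) (.e (nat_lit 223515) (nat_lit 0) .nil) .nil))))) 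
(.nd (nat_lit 8) (.nd (nat_lit 9) 
(.lf (nat_lit 519421) (.g (nat_lit 644) (.e (nat_lit 204809) (nat_lit 9) (.e (nat_lit 426139) (nat_lit 3) (.e (nat_lit 204817) (nat_lit 17) .nil))) (.g (nat_lit 0) (.e (nat_lit 221191) (nat_lit 0) .nil) .nil))) 
(.lf (nat_lit 519933) (.g (nat_lit 3781) (.e (nat_lit 204828) (nat_lit 18) (.e (nat_lit 57927) (nat_lit 282) (.e (nat_lit 163869) (nat_lit 2) (.e (nat_lit 196668) (nat_lit 14) (.e (nat_lit 73747) (nat_lit 3) (.e (nat_lit 516131) (nat_lit 3) (.e (nat_lit 221215) (nat_lit 23) .nil))))))) (.g (nat_lit 1) (.e (nat_lit 223342) (nat_lit 0) .nil) .nil)))) (.nd (nat_lit 9) 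
(.lf (nat_lit 519677) (.g (nat_lit 1249) (.e (nat_lit 204813) (nat_lit 9) (.e (nat_lit 426115) (nat_lit 2) (.e (nat_lit 196656) (nat_lit 11) (.e (nat_lit 16416) (nat_lit 3) .nil)))) (.g (nat_lit 0) (.e (nat_lit 221866) (nat_lit 0) .nil) .nil))) 
(.lf (nat_lit 520189) (.g (nat_lit 3446) (.e (nat_lit 204829) (nat_lit 18) (.e (nat_lit 57927) (nat_lit 282) (.e (nat_lit 163868) (nat_lit 2) (.e (nat_lit 196670) (nat_lit 14) (.e (nat_lit 73746) (nat_lit 3) (.e (nat_lit 516124) (nat_lit 2) (.e (nat_lit 213019) (nat_lit 9) (.e (nat_lit 2676) (nat_lit 168) .nil)))))))) (.g (nat_lit 1) (.e (nat_lit 223655) (nat_lit 0) .nil) .nil))))))))))) 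
(.nd (nat_lit 2) (.nd (nat_lit 3) (.nd (nat_lit 4) (.nd (nat_lit 5) (.nd (nat_lit 6) 
(.nd (nat_lit 7) (.nd (nat_lit 8) (.nd (nat_lit 9) 
(.lf (nat_lit 519171) (.g (nat_lit 3650) (.e (nat_lit 196681) (nat_lit 17) (.e (nat_lit 131109) (nat_lit 9) (.e (nat_lit 336324) (nat_lit 18) (.e (nat_lit 204838) (nat_lit 20) (.e (nat_lit 114698) (nat_lit 11) (.e (nat_lit 426115) (nat_lit 2) .nil)))))) (.g (nat_lit 1) (.e (nat_lit 220263) (nat_lit 0) .nil) .nil))) 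
(.lf (nat_lit 519683) (.g (nat_lit 2517) (.e (nat_lit 204813) (nat_lit 9) (.e (nat_lit 426121) (nat_lit 2) (.e (nat_lit 196656) (nat_lit 11) (.e (nat_lit 16412) (nat_lit 2) (.e (nat_lit 196656) (nat_lit 11) .nil))))) (.g (nat_lit 0) (.e (nat_lit 221881) (nat_lit 0) .nil) .nil)))) (.nd (nat_lit 9) 
(.lf (nat_lit 519427) (.g (nat_lit 3251) (.e (nat_lit 204809) (nat_lit 9) (.e (nat_lit 426186) (nat_lit 9) (.e (nat_lit 426566) (nat_lit 34) (.e (nat_lit 393253) (nat_lit 18) (.e (nat_lit 164332) (nat_lit 230) (.e (nat_lit 163874) (nat_lit 3) .nil)))))) (.g (nat_lit 1) (.e (nat_lit 221244) (nat_lit 0) .nil) .nil))) 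
(.lf (nat_lit 519939) (.g (nat_lit 2641) (.e (nat_lit 204828) (nat_lit 18) (.e (nat_lit 57931) (nat_lit 282) (.e (nat_lit 163869) (nat_lit 2) (.e (nat_lit 196668) (nat_lit 14) (.e (nat_lit 73747) (nat_lit 3) .nil))))) (.g (nat_lit 0) (.e (nat_lit 223348) (nat_lit 0) .nil) .nil))))) (.nd (nat_lit 8) (.nd (nat_lit 9) 
(.lf (nat_lit 519299) (.g (nat_lit 1789) (.e (nat_lit 196698) (nat_lit 19) (.e (nat_lit 57816) (nat_lit 246) (.e (nat_lit 57878) (nat_lit 270) (.e (nat_lit 371) (nat_lit 32) (.e (nat_lit 426542) (nat_lit 29) (.e (nat_lit 360192) (nat_lit 2) .nil)))))) (.g (nat_lit 1) (.e (nat_lit 220564) (nat_lit 0) .nil) .nil))) 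
(.lf (nat_lit 519811) (.g (nat_lit 861) (.e (nat_lit 212736) (nat_lit 15) (.e (nat_lit 475214) (nat_lit 42) (.e (nat_lit 720930) (nat_lit 21) .nil))) (.g (nat_lit 0) (.e (nat_lit 222859) (nat_lit 0) .nil) .nil)))) (.nd (nat_lit 9) 
(.lf (nat_lit 519555) (.g (nat_lit 2214) (.e (nat_lit 204811) (nat_lit 9) (.e (nat_lit 426261) (nat_lit 9) (.e (nat_lit 426565) (nat_lit 34) (.e (nat_lit 393253) (nat_lit 18) (.e (nat_lit 164325) (nat_lit 230) (.e (nat_lit 163873) (nat_lit 3) .nil)))))) (.g (nat_lit 1) (.e (nat_lit 221643) (nat_lit 0) .nil) .nil))) 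
(.lf (nat_lit 520067) (.g (nat_lit 2141) (.e (nat_lit 204829) (nat_lit 18) (.e (nat_lit 57849) (nat_lit 252) (.e (nat_lit 57407) (nat_lit 12) (.e (nat_lit 336452) (nat_lit 34) (.e (nat_lit 483382) (nat_lit 23) .nil))))) (.g (nat_lit 0) (.e (nat_lit 223524) (nat_lit 0) .nil) .nil)))))) (.nd (nat_lit 7) (.nd (nat_lit 8) (.nd (nat_lit 9) 
(.lf (nat_lit 519235) (.g (nat_lit 2346) (.e (nat_lit 196681) (nat_lit 17) (.e (nat_lit 131123) (nat_lit 12) (.e (nat_lit 385068) (nat_lit 26) (.e (nat_lit 532515) (nat_lit 3) (.e (nat_lit 114698) (nat_lit 11) (.e (nat_lit 426121) (nat_lit 2) .nil)))))) (.g (nat_lit 1) (.e (nat_lit 220406) (nat_lit 0) .nil) .nil))) 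
(.lf (nat_lit 519747) (.g (nat_lit 2863) (.e (nat_lit 204813) (nat_lit 9) (.e (nat_lit 426198) (nat_lit 9) (.e (nat_lit 426568) (nat_lit 34) (.e (nat_lit 393253) (nat_lit 18) (.e (nat_lit 164325) (nat_lit 230) (.e (nat_lit 163874) (nat_lit 3) .nil)))))) (.g (nat_lit 1) (.e (nat_lit 222103) (nat_lit 0) .nil) .nil)))) (.nd (nat_lit 9) 
(.lf (nat_lit 519491) (.g (nat_lit 2449) (.e (nat_lit 204809) (nat_lit 9) (.e (nat_lit 433920) (nat_lit 18) (.e (nat_lit 98366) (nat_lit 27) (.e (nat_lit 434231) (nat_lit 23) (.e (nat_lit 532514) (nat_lit 3) (.e (nat_lit 122624) (nat_lit 3) .nil)))))) (.g (nat_lit 1) (.e (nat_lit 221548) (nat_lit 0) .nil) .nil))) 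
(.lf (nat_lit 520003) (.g (nat_lit 1693) (.e (nat_lit 204829) (nat_lit 18) (.e (nat_lit 57691) (nat_lit 156) (.e (nat_lit 163907) (nat_lit 12) (.e (nat_lit 426487) (nat_lit 27) .nil)))) (.g (nat_lit 0) (.e (nat_lit 223435) (nat_lit 0) .nil) .nil))))) (.nd (nat_lit 8) (.nd (nat_lit 9) 
(.lf (nat_lit 519363) (.g (nat_lit 2318) (.e (nat_lit 204809) (nat_lit 9) (.e (nat_lit 426100) (nat_lit 1) (.e (nat_lit 164399) (nat_lit 256) (.e (nat_lit 57406) (nat_lit 12) (.e (nat_lit 336443) (nat_lit 32) .nil))))) (.g (nat_lit 0) (.e (nat_lit 220876) (nat_lit 0) .nil) .nil))) 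
(.lf (nat_lit 519875) (.g (nat_lit 2205) (.e (nat_lit 204819) (nat_lit 17) (.e (nat_lit 6113) (nat_lit 332) (.e (nat_lit 1374) (nat_lit 104) (.e (nat_lit 303118) (nat_lit 3) .nil)))) (.g (nat_lit 0) (.e (nat_lit 223234) (nat_lit 0) .nil) .nil)))) (.nd (nat_lit 9) 
(.lf (nat_lit 519619) (.g (nat_lit 535) (.e (nat_lit 204812) (nat_lit 9) (.e (nat_lit 426133) (nat_lit 3) (.e (nat_lit 212736) (nat_lit 10) .nil))) (.g (nat_lit 0) (.e (nat_lit 221729) (nat_lit 0) .nil) .nil))) 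
(.lf (nat_lit 520131) (.g (nat_lit 3393) (.e (nat_lit 204829) (nat_lit 18) (.e (nat_lit 57926) (nat_lit 282) (.e (nat_lit 163875) (nat_lit 3) (.e (nat_lit 204862) (nat_lit 27) (.e (nat_lit 344117) (nat_lit 21) (.e (nat_lit 516123) (nat_lit 2) (.e (nat_lit 213013) (nat_lit 9) (.e (nat_lit 2684) (nat_lit 168) .nil)))))))) (.g (nat_lit 1) (.e (nat_lit 223593) (nat_lit 0) .nil) .nil))))))) 
(.nd (nat_lit 6) (.nd (nat_lit 7) (.nd (nat_lit 8) (.nd (nat_lit 9) 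
(.lf (nat_lit 519203) (.g (nat_lit 3358) (.e (nat_lit 196681) (nat_lit 17) (.e (nat_lit 131120) (nat_lit 12) (.e (nat_lit 385074) (nat_lit 31) (.e (nat_lit 573485) (nat_lit 13) (.e (nat_lit 65630) (nat_lit 14) (.e (nat_lit 401425) (nat_lit 2) .nil)))))) (.g (nat_lit 1) (.e (nat_lit 220353) (nat_lit 0) .nil) .nil))) 
(.lf (nat_lit 519715) (.g (nat_lit 649) (.e (nat_lit 204813) (nat_lit 9) (.e (nat_lit 426139) (nat_lit 3) (.e (nat_lit 204817) (nat_lit 17) .nil))) (.g (nat_lit 0) (.e (nat_lit 222000) (nat_lit 0) .nil) .nil)))) (.nd (nat_lit 9) 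
(.lf (nat_lit 519459) (.g (nat_lit 3510) (.e (nat_lit 204809) (nat_lit 9) (.e (nat_lit 426189) (nat_lit 9) (.e (nat_lit 426566) (nat_lit 34) (.e (nat_lit 393253) (nat_lit 18) (.e (nat_lit 164331) (nat_lit 230) (.e (nat_lit 163873) (nat_lit 3) .nil)))))) (.g (nat_lit 1) (.e (nat_lit 221278) (nat_lit 0) .nil) .nil))) 
(.lf (nat_lit 519971) (.g (nat_lit 2359) (.e (nat_lit 204829) (nat_lit 18) (.e (nat_lit 57688) (nat_lit 156) (.e (nat_lit 163903) (nat_lit 12) (.e (nat_lit 426566) (nat_lit 34) (.e (nat_lit 393278) (nat_lit 23) (.e (nat_lit 426135) (nat_lit 3) .nil)))))) (.g (nat_lit 1) (.e (nat_lit 223388) (nat_lit 0) .nil) .nil))))) (.nd (nat_lit 8) (.nd (nat_lit 9) 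
(.lf (nat_lit 519331) (.g (nat_lit 1482) (.e (nat_lit 204808) (nat_lit 9) (.e (nat_lit 426100) (nat_lit 1) (.e (nat_lit 164399) (nat_lit 256) (.e (nat_lit 57408) (nat_lit 12) (.e (nat_lit 336443) (nat_lit 32) .nil))))) (.g (nat_lit 0) (.e (nat_lit 220692) (nat_lit 0) .nil) .nil))) 
(.lf (nat_lit 519843) (.g (nat_lit 3673) (.e (nat_lit 204816) (nat_lit 17) (.e (nat_lit 6203) (nat_lit 332) (.e (nat_lit 2798) (nat_lit 180) (.e (nat_lit 303117) (nat_lit 2) (.e (nat_lit 196670) (nat_lit 14) (.e (nat_lit 73781) (nat_lit 32) (.e (nat_lit 2681) (nat_lit 168) .nil))))))) (.g (nat_lit 1) (.e (nat_lit 223075) (nat_lit 0) .nil) .nil)))) (.nd (nat_lit 9) 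
(.lf (nat_lit 519587) (.g (nat_lit 1802) (.e (nat_lit 204812) (nat_lit 9) (.e (nat_lit 426100) (nat_lit 1) (.e (nat_lit 164399) (nat_lit 256) (.e (nat_lit 57407) (nat_lit 12) (.e (nat_lit 336443) (nat_lit 32) .nil))))) (.g (nat_lit 0) (.e (nat_lit 221679) (nat_lit 0) .nil) .nil))) 
(.lf (nat_lit 520099) (.g (nat_lit 3058) (.e (nat_lit 204829) (nat_lit 18) (.e (nat_lit 57926) (nat_lit 282) (.e (nat_lit 163868) (nat_lit 2) (.e (nat_lit 196668) (nat_lit 14) (.e (nat_lit 73747) (nat_lit 3) (.e (nat_lit 516124) (nat_lit 2) (.e (nat_lit 213013) (nat_lit 9) (.e (nat_lit 2684) (nat_lit 168) .nil)))))))) (.g (nat_lit 1) (.e (nat_lit 223559) (nat_lit 0) .nil) .nil)))))) 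
(.nd (nat_lit 7) (.nd (nat_lit 8) (.nd (nat_lit 9) 
(.lf (nat_lit 519267) (.g (nat_lit 1525) (.e (nat_lit 196698) (nat_lit 19) (.e (nat_lit 57808) (nat_lit 246) (.e (nat_lit 57879) (nat_lit 270) (.e (nat_lit 371) (nat_lit 32) (.e (nat_lit 426555) (nat_lit 32) (.e (nat_lit 384768) (nat_lit 2) .nil)))))) (.g (nat_lit 1) (.e (nat_lit 220532) (nat_lit 0) .nil) .nil))) 
(.lf (nat_lit 519779) (.g (nat_lit 1178) (.e (nat_lit 204813) (nat_lit 9) (.e (nat_lit 426200) (nat_lit 9) (.e (nat_lit 426567) (nat_lit 34) (.e (nat_lit 393252) (nat_lit 18) .nil)))) (.g (nat_lit 0) (.e (nat_lit 222213) (nat_lit 0) .nil) .nil)))) (.nd (nat_lit 9) 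
(.lf (nat_lit 519523) (.g (nat_lit 1875) (.e (nat_lit 204811) (nat_lit 9) (.e (nat_lit 426232) (nat_lit 9) (.e (nat_lit 426565) (nat_lit 34) (.e (nat_lit 393254) (nat_lit 18) (.e (nat_lit 164324) (nat_lit 230) (.e (nat_lit 163873) (nat_lit 3) .nil)))))) (.g (nat_lit 1) (.e (nat_lit 221590) (nat_lit 0) .nil) .nil))) 
(.lf (nat_lit 520035) (.g (nat_lit 3349) (.e (nat_lit 204829) (nat_lit 18) (.e (nat_lit 57847) (nat_lit 252) (.e (nat_lit 57379) (nat_lit 3) (.e (nat_lit 98313) (nat_lit 9) (.e (nat_lit 336027) (nat_lit 3) (.e (nat_lit 98321) (nat_lit 17) (.e (nat_lit 3771) (nat_lit 229) (.e (nat_lit 794673) (nat_lit 23) .nil)))))))) (.g (nat_lit 1) (.e (nat_lit 223483) (nat_lit 0) .nil) .nil))))) 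
(.nd (nat_lit 8) (.nd (nat_lit 9) 
(.lf (nat_lit 519395) (.g (nat_lit 2051) (.e (nat_lit 204809) (nat_lit 9) (.e (nat_lit 426124) (nat_lit 2) (.e (nat_lit 196624) (nat_lit 9) (.e (nat_lit 375) (nat_lit 32) (.e (nat_lit 426125) (nat_lit 2) .nil))))) (.g (nat_lit 0) (.e (nat_lit 220975) (nat_lit 0) .nil) .nil))) 
(.lf (nat_lit 519907) (.g (nat_lit 1477) (.e (nat_lit 212736) (nat_lit 17) (.e (nat_lit 6113) (nat_lit 332) (.e (nat_lit 1361) (nat_lit 102) (.e (nat_lit 286735) (nat_lit 3) (.e (nat_lit 98353) (nat_lit 25) .nil))))) (.g (nat_lit 0) (.e (nat_lit 223308) (nat_lit 0) .nil) .nil)))) (.nd (nat_lit 9) 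
(.lf (nat_lit 519651) (.g (nat_lit 2215) (.e (nat_lit 204813) (nat_lit 9) (.e (nat_lit 426098) (nat_lit 1) (.e (nat_lit 164403) (nat_lit 256) (.e (nat_lit 57406) (nat_lit 12) (.e (nat_lit 336443) (nat_lit 32) .nil))))) (.g (nat_lit 0) (.e (nat_lit 221833) (nat_lit 0) .nil) .nil))) 
(.lf (nat_lit 520163) (.g (nat_lit 2579) (.e (nat_lit 204829) (nat_lit 18) (.e (nat_lit 57927) (nat_lit 282) (.e (nat_lit 163868) (nat_lit 2) (.e (nat_lit 196668) (nat_lit 14) (.e (nat_lit 73746) (nat_lit 3) (.e (nat_lit 516124) (nat_lit 2) (.e (nat_lit 213019) (nat_lit 9) (.e (nat_lit 2684) (nat_lit 168) .nil)))))))) (.g (nat_lit 1) (.e (nat_lit 223629) (nat_lit 0) .nil) .nil)))))))) 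
(.nd (nat_lit 5) (.nd (nat_lit 6) (.nd (nat_lit 7) (.nd (nat_lit 8) (.nd (nat_lit 9) 
(.lf (nat_lit 519187) (.g (nat_lit 2561) (.e (nat_lit 196681) (nat_lit 17) (.e (nat_lit 131120) (nat_lit 12) (.e (nat_lit 385066) (nat_lit 26) (.e (nat_lit 532513) (nat_lit 3) (.e (nat_lit 114698) (nat_lit 11) (.e (nat_lit 426121) (nat_lit 2) .nil)))))) (.g (nat_lit 1) (.e (nat_lit 220326) (nat_lit 0) .nil) .nil))) 
(.lf (nat_lit 519699) (.g (nat_lit 2399) (.e (nat_lit 204813) (nat_lit 9) (.e (nat_lit 426124) (nat_lit 2) (.e (nat_lit 196656) (nat_lit 11) (.e (nat_lit 16413) (nat_lit 2) (.e (nat_lit 196654) (nat_lit 11) .nil))))) (.g (nat_lit 0) (.e (nat_lit 221930) (nat_lit 0) .nil) .nil)))) (.nd (nat_lit 9) 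
(.lf (nat_lit 519443) (.g (nat_lit 3023) (.e (nat_lit 204809) (nat_lit 9) (.e (nat_lit 426188) (nat_lit 9) (.e (nat_lit 426566) (nat_lit 34) (.e (nat_lit 393254) (nat_lit 18) (.e (nat_lit 164324) (nat_lit 230) (.e (nat_lit 163873) (nat_lit 3) .nil)))))) (.g (nat_lit 1) (.e (nat_lit 221261) (nat_lit 0) .nil) .nil))) 
(.lf (nat_lit 519955) (.g (nat_lit 3447) (.e (nat_lit 204829) (nat_lit 18) (.e (nat_lit 57688) (nat_lit 156) (.e (nat_lit 163873) (nat_lit 3) (.e (nat_lit 204837) (nat_lit 20) (.e (nat_lit 114719) (nat_lit 23) (.e (nat_lit 98365) (nat_lit 26) (.e (nat_lit 426138) (nat_lit 3) .nil))))))) (.g (nat_lit 1) (.e (nat_lit 223371) (nat_lit 0) .nil) .nil))))) (.nd (nat_lit 8) (.nd (nat_lit 9) 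
(.lf (nat_lit 519315) (.g (nat_lit 2710) (.e (nat_lit 212736) (nat_lit 5) (.e (nat_lit 253991) (nat_lit 11) (.e (nat_lit 16412) (nat_lit 2) (.e (nat_lit 196670) (nat_lit 14) (.e (nat_lit 73781) (nat_lit 32) .nil))))) (.g (nat_lit 0) (.e (nat_lit 220669) (nat_lit 0) .nil) .nil))) 
(.lf (nat_lit 519827) (.g (nat_lit 3712) (.e (nat_lit 204815) (nat_lit 17) (.e (nat_lit 6724) (nat_lit 362) (.e (nat_lit 180243) (nat_lit 5) (.e (nat_lit 532523) (nat_lit 7) (.e (nat_lit 319505) (nat_lit 10) (.e (nat_lit 5714) (nat_lit 312) (.e (nat_lit 2681) (nat_lit 168) .nil))))))) (.g (nat_lit 1) (.e (nat_lit 223002) (nat_lit 0) .nil) .nil)))) (.nd (nat_lit 9) 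
(.lf (nat_lit 519571) (.g (nat_lit 2160) (.e (nat_lit 204812) (nat_lit 9) (.e (nat_lit 426098) (nat_lit 1) (.e (nat_lit 164399) (nat_lit 256) (.e (nat_lit 57407) (nat_lit 12) (.e (nat_lit 336426) (nat_lit 29) .nil))))) (.g (nat_lit 0) (.e (nat_lit 221663) (nat_lit 0) .nil) .nil))) 
(.lf (nat_lit 520083) (.g (nat_lit 2070) (.e (nat_lit 204829) (nat_lit 18) (.e (nat_lit 57854) (nat_lit 252) (.e (nat_lit 57406) (nat_lit 12) (.e (nat_lit 336456) (nat_lit 34) (.e (nat_lit 483387) (nat_lit 23) (.e (nat_lit 343808) (nat_lit 18) .nil)))))) (.g (nat_lit 1) (.e (nat_lit 223541) (nat_lit 0) .nil) .nil)))))) (.nd (nat_lit 7) (.nd (nat_lit 8) (.nd (nat_lit 9) 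
(.lf (nat_lit 519251) (.g (nat_lit 961) (.e (nat_lit 196683) (nat_lit 18) (.e (nat_lit 1374) (nat_lit 104) (.e (nat_lit 303143) (nat_lit 12) .nil))) (.g (nat_lit 0) (.e (nat_lit 220489) (nat_lit 0) .nil) .nil))) 
(.lf (nat_lit 519763) (.g (nat_lit 2545) (.e (nat_lit 204813) (nat_lit 9) (.e (nat_lit 426200) (nat_lit 9) (.e (nat_lit 426484) (nat_lit 27) (.e (nat_lit 336407) (nat_lit 27) (.e (nat_lit 426098) (nat_lit 1) (.e (nat_lit 164327) (nat_lit 230) (.e (nat_lit 163873) (nat_lit 3) .nil))))))) (.g (nat_lit 1) (.e (nat_lit 222197) (nat_lit 0) .nil) .nil)))) (.nd (nat_lit 9) 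
(.lf (nat_lit 519507) (.g (nat_lit 1966) (.e (nat_lit 204811) (nat_lit 9) (.e (nat_lit 426230) (nat_lit 9) (.e (nat_lit 426565) (nat_lit 34) (.e (nat_lit 393254) (nat_lit 18) (.e (nat_lit 164324) (nat_lit 230) (.e (nat_lit 163873) (nat_lit 3) .nil)))))) (.g (nat_lit 1) (.e (nat_lit 221574) (nat_lit 0) .nil) .nil))) 
(.lf (nat_lit 520019) (.g (nat_lit 1785) (.e (nat_lit 204829) (nat_lit 18) (.e (nat_lit 57692) (nat_lit 156) (.e (nat_lit 163905) (nat_lit 12) (.e (nat_lit 426566) (nat_lit 34) (.e (nat_lit 393278) (nat_lit 23) (.e (nat_lit 426135) (nat_lit 3) .nil)))))) (.g (nat_lit 1) (.e (nat_lit 223459) (nat_lit 0) .nil) .nil))))) (.nd (nat_lit 8) (.nd (nat_lit 9) 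
(.lf (nat_lit 519379) (.g (nat_lit 1877) (.e (nat_lit 204809) (nat_lit 9) (.e (nat_lit 426108) (nat_lit 1) (.e (nat_lit 164403) (nat_lit 256) (.e (nat_lit 57406) (nat_lit 12) (.e (nat_lit 336444) (nat_lit 32) .nil))))) (.g (nat_lit 0) (.e (nat_lit 220900) (nat_lit 0) .nil) .nil))) 
(.lf (nat_lit 519891) (.g (nat_lit 1669) (.e (nat_lit 204821) (nat_lit 17) (.e (nat_lit 2151) (nat_lit 142) (.e (nat_lit 704737) (nat_lit 11) (.e (nat_lit 16412) (nat_lit 2) (.e (nat_lit 196672) (nat_lit 15) .nil))))) (.g (nat_lit 0) (.e (nat_lit 223282) (nat_lit 0) .nil) .nil)))) (.nd (nat_lit 9) 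
(.lf (nat_lit 519635) (.g (nat_lit 3565) (.e (nat_lit 204812) (nat_lit 9) (.e (nat_lit 426189) (nat_lit 9) (.e (nat_lit 426566) (nat_lit 34) (.e (nat_lit 393253) (nat_lit 18) (.e (nat_lit 164332) (nat_lit 230) (.e (nat_lit 163874) (nat_lit 3) .nil)))))) (.g (nat_lit 1) (.e (nat_lit 221755) (nat_lit 0) .nil) .nil))) 
(.lf (nat_lit 520147) (.g (nat_lit 2712) (.e (nat_lit 204829) (nat_lit 18) (.e (nat_lit 57927) (nat_lit 282) (.e (nat_lit 163866) (nat_lit 2) (.e (nat_lit 196670) (nat_lit 14) (.e (nat_lit 73746) (nat_lit 3) (.e (nat_lit 516131) (nat_lit 3) (.e (nat_lit 221213) (nat_lit 23) .nil))))))) (.g (nat_lit 1) (.e (nat_lit 223613) (nat_lit 0) .nil) .nil))))))) 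
(.nd (nat_lit 6) (.nd (nat_lit 7) (.nd (nat_lit 8) (.nd (nat_lit 9) 
(.lf (nat_lit 519219) (.g (nat_lit 3343) (.e (nat_lit 196681) (nat_lit 17) (.e (nat_lit 131123) (nat_lit 12) (.e (nat_lit 385066) (nat_lit 26) (.e (nat_lit 532513) (nat_lit 3) (.e (nat_lit 114698) (nat_lit 11) (.e (nat_lit 426124) (nat_lit 2) .nil)))))) (.g (nat_lit 1) (.e (nat_lit 220384) (nat_lit 0) .nil) .nil))) 
(.lf (nat_lit 519731) (.g (nat_lit 1753) (.e (nat_lit 204813) (nat_lit 9) (.e (nat_lit 426197) (nat_lit 9) (.e (nat_lit 426568) (nat_lit 34) (.e (nat_lit 393251) (nat_lit 18) (.e (nat_lit 164325) (nat_lit 230) .nil))))) (.g (nat_lit 0) (.e (nat_lit 222072) (nat_lit 0) .nil) .nil)))) (.nd (nat_lit 9) 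
(.lf (nat_lit 519475) (.g (nat_lit 874) (.e (nat_lit 204809) (nat_lit 9) (.e (nat_lit 426200) (nat_lit 9) (.e (nat_lit 426481) (nat_lit 27) (.e (nat_lit 336388) (nat_lit 27) .nil)))) (.g (nat_lit 0) (.e (nat_lit 221359) (nat_lit 0) .nil) .nil))) 
(.lf (nat_lit 519987) (.g (nat_lit 3052) (.e (nat_lit 204829) (nat_lit 18) (.e (nat_lit 57688) (nat_lit 156) (.e (nat_lit 163907) (nat_lit 12) (.e (nat_lit 426568) (nat_lit 34) (.e (nat_lit 393277) (nat_lit 23) (.e (nat_lit 426135) (nat_lit 3) .nil)))))) (.g (nat_lit 1) (.e (nat_lit 223408) (nat_lit 0) .nil) .nil))))) (.nd (nat_lit 8) (.nd (nat_lit 9) 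
(.lf (nat_lit 519347) (.g (nat_lit 3543) (.e (nat_lit 204808) (nat_lit 9) (.e (nat_lit 426116) (nat_lit 2) (.e (nat_lit 196654) (nat_lit 11) (.e (nat_lit 16416) (nat_lit 3) (.e (nat_lit 204809) (nat_lit 9) (.e (nat_lit 426139) (nat_lit 3) .nil)))))) (.g (nat_lit 1) (.e (nat_lit 220714) (nat_lit 0) .nil) .nil))) 
(.lf (nat_lit 519859) (.g (nat_lit 1887) (.e (nat_lit 204816) (nat_lit 17) (.e (nat_lit 6724) (nat_lit 362) (.e (nat_lit 180250) (nat_lit 10) (.e (nat_lit 573471) (nat_lit 11) (.e (nat_lit 16445) (nat_lit 9) .nil))))) (.g (nat_lit 0) (.e (nat_lit 223174) (nat_lit 0) .nil) .nil)))) (.nd (nat_lit 9) 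
(.lf (nat_lit 519603) (.g (nat_lit 2117) (.e (nat_lit 204812) (nat_lit 9) (.e (nat_lit 426107) (nat_lit 1) (.e (nat_lit 164403) (nat_lit 256) (.e (nat_lit 57409) (nat_lit 12) (.e (nat_lit 336443) (nat_lit 32) .nil))))) (.g (nat_lit 0) (.e (nat_lit 221696) (nat_lit 0) .nil) .nil))) 
(.lf (nat_lit 520115) (.g (nat_lit 3887) (.e (nat_lit 204829) (nat_lit 18) (.e (nat_lit 57926) (nat_lit 282) (.e (nat_lit 163869) (nat_lit 2) (.e (nat_lit 196670) (nat_lit 14) (.e (nat_lit 73746) (nat_lit 3) (.e (nat_lit 516129) (nat_lit 3) (.e (nat_lit 221213) (nat_lit 23) .nil))))))) (.g (nat_lit 1) (.e (nat_lit 223576) (nat_lit 0) .nil) .nil)))))) 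
(.nd (nat_lit 7) (.nd (nat_lit 8) (.nd (nat_lit 9) 
(.lf (nat_lit 519283) (.g (nat_lit 1449) (.e (nat_lit 196698) (nat_lit 19) (.e (nat_lit 57811) (nat_lit 246) (.e (nat_lit 57879) (nat_lit 270) (.e (nat_lit 371) (nat_lit 32) (.e (nat_lit 426540) (nat_lit 29) (.e (nat_lit 360192) (nat_lit 2) .nil)))))) (.g (nat_lit 1) (.e (nat_lit 220548) (nat_lit 0) .nil) .nil))) 
(.lf (nat_lit 519795) (.g (nat_lit 2975) (.e (nat_lit 212736) (nat_lit 9) (.e (nat_lit 426125) (nat_lit 2) (.e (nat_lit 196656) (nat_lit 11) (.e (nat_lit 16412) (nat_lit 2) (.e (nat_lit 196654) (nat_lit 11) .nil))))) (.g (nat_lit 0) (.e (nat_lit 222454) (nat_lit 0) .nil) .nil)))) (.nd (nat_lit 9) 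
(.lf (nat_lit 519539) (.g (nat_lit 2004) (.e (nat_lit 204811) (nat_lit 9) (.e (nat_lit 426260) (nat_lit 9) (.e (nat_lit 426565) (nat_lit 34) (.e (nat_lit 393251) (nat_lit 18) (.e (nat_lit 164325) (nat_lit 230) (.e (nat_lit 163875) (nat_lit 3) .nil)))))) (.g (nat_lit 1) (.e (nat_lit 221627) (nat_lit 0) .nil) .nil))) 
(.lf (nat_lit 520051) (.g (nat_lit 1559) (.e (nat_lit 204829) (nat_lit 18) (.e (nat_lit 57847) (nat_lit 252) (.e (nat_lit 57411) (nat_lit 12) (.e (nat_lit 336372) (nat_lit 27) .nil)))) (.g (nat_lit 0) (.e (nat_lit 223500) (nat_lit 0) .nil) .nil))))) (.nd (nat_lit 8) (.nd (nat_lit 9) 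
(.lf (nat_lit 519411) (.g (nat_lit 2820) (.e (nat_lit 204809) (nat_lit 9) (.e (nat_lit 426124) (nat_lit 2) (.e (nat_lit 196656) (nat_lit 11) (.e (nat_lit 16416) (nat_lit 3) (.e (nat_lit 204812) (nat_lit 9) (.e (nat_lit 426133) (nat_lit 3) .nil)))))) (.g (nat_lit 1) (.e (nat_lit 221048) (nat_lit 0) .nil) .nil))) 
(.lf (nat_lit 519923) (.g (nat_lit 1883) (.e (nat_lit 204828) (nat_lit 18) (.e (nat_lit 57849) (nat_lit 252) (.e (nat_lit 57411) (nat_lit 12) (.e (nat_lit 336454) (nat_lit 34) (.e (nat_lit 483385) (nat_lit 23) .nil))))) (.g (nat_lit 0) (.e (nat_lit 223332) (nat_lit 0) .nil) .nil)))) (.nd (nat_lit 9) 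
(.lf (nat_lit 519667) (.g (nat_lit 647) (.e (nat_lit 204813) (nat_lit 9) (.e (nat_lit 426107) (nat_lit 1) (.e (nat_lit 164402) (nat_lit 256) .nil))) (.g (nat_lit 0) (.e (nat_lit 221849) (nat_lit 0) .nil) .nil))) 
(.lf (nat_lit 520179) (.g (nat_lit 3372) (.e (nat_lit 204829) (nat_lit 18) (.e (nat_lit 57927) (nat_lit 282) (.e (nat_lit 163868) (nat_lit 2) (.e (nat_lit 196668) (nat_lit 14) (.e (nat_lit 73747) (nat_lit 3) (.e (nat_lit 516124) (nat_lit 2) (.e (nat_lit 213019) (nat_lit 9) (.e (nat_lit 2683) (nat_lit 168) .nil)))))))) (.g (nat_lit 1) (.e (nat_lit 223645) (nat_lit 0) .nil) .nil))))))))) 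
(.nd (nat_lit 4) (.nd (nat_lit 5) (.nd (nat_lit 6) (.nd (nat_lit 7) (.nd (nat_lit 8) 
(.nd (nat_lit 9) 
(.lf (nat_lit 519179) (.g (nat_lit 3318) (.e (nat_lit 196681) (nat_lit 17) (.e (nat_lit 131109) (nat_lit 9) (.e (nat_lit 336454) (nat_lit 34) (.e (nat_lit 483364) (nat_lit 18) (.e (nat_lit 57931) (nat_lit 282) (.e (nat_lit 163867) (nat_lit 2) .nil)))))) (.g (nat_lit 1) (.e (nat_lit 220313) (nat_lit 0) .nil) .nil))) 
(.lf (nat_lit 519691) (.g (nat_lit 1425) (.e (nat_lit 204813) (nat_lit 9) (.e (nat_lit 426124) (nat_lit 2) (.e (nat_lit 196654) (nat_lit 11) (.e (nat_lit 16409) (nat_lit 2) .nil)))) (.g (nat_lit 0) (.e (nat_lit 221910) (nat_lit 0) .nil) .nil)))) (.nd (nat_lit 9) 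
(.lf (nat_lit 519435) (.g (nat_lit 2754) (.e (nat_lit 204809) (nat_lit 9) (.e (nat_lit 426187) (nat_lit 9) (.e (nat_lit 426566) (nat_lit 34) (.e (nat_lit 393253) (nat_lit 18) (.e (nat_lit 164330) (nat_lit 230) (.e (nat_lit 163874) (nat_lit 3) .nil)))))) (.g (nat_lit 1) (.e (nat_lit 221252) (nat_lit 0) .nil) .nil))) 
(.lf (nat_lit 519947) (.g (nat_lit 3334) (.e (nat_lit 204829) (nat_lit 18) (.e (nat_lit 57686) (nat_lit 156) (.e (nat_lit 163902) (nat_lit 12) (.e (nat_lit 426568) (nat_lit 34) (.e (nat_lit 393281) (nat_lit 23) (.e (nat_lit 426133) (nat_lit 3) .nil)))))) (.g (nat_lit 1) (.e (nat_lit 223360) (nat_lit 0) .nil) .nil))))) (.nd (nat_lit 8) (.nd (nat_lit 9) 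
(.lf (nat_lit 519307) (.g (nat_lit 1907) (.e (nat_lit 196698) (nat_lit 19) (.e (nat_lit 57816) (nat_lit 246) (.e (nat_lit 57881) (nat_lit 270) (.e (nat_lit 496) (nat_lit 39) (.e (nat_lit 483383) (nat_lit 23) (.e (nat_lit 343808) (nat_lit 17) .nil)))))) (.g (nat_lit 1) (.e (nat_lit 220572) (nat_lit 0) .nil) .nil))) 
(.lf (nat_lit 519819) (.g (nat_lit 3598) (.e (nat_lit 204815) (nat_lit 17) (.e (nat_lit 6203) (nat_lit 332) (.e (nat_lit 2797) (nat_lit 180) (.e (nat_lit 303117) (nat_lit 2) (.e (nat_lit 196668) (nat_lit 14) (.e (nat_lit 73782) (nat_lit 32) (.e (nat_lit 2681) (nat_lit 168) .nil))))))) (.g (nat_lit 1) (.e (nat_lit 222943) (nat_lit 0) .nil) .nil)))) (.nd (nat_lit 9) 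
(.lf (nat_lit 519563) (.g (nat_lit 2173) (.e (nat_lit 204811) (nat_lit 9) (.e (nat_lit 426262) (nat_lit 9) (.e (nat_lit 426565) (nat_lit 34) (.e (nat_lit 393253) (nat_lit 18) (.e (nat_lit 164325) (nat_lit 230) (.e (nat_lit 163873) (nat_lit 3) .nil)))))) (.g (nat_lit 1) (.e (nat_lit 221651) (nat_lit 0) .nil) .nil))) 
(.lf (nat_lit 520075) (.g (nat_lit 933) (.e (nat_lit 204829) (nat_lit 18) (.e (nat_lit 57849) (nat_lit 252) (.e (nat_lit 57445) (nat_lit 19) (.e (nat_lit 393227) (nat_lit 9) .nil)))) (.g (nat_lit 0) (.e (nat_lit 223532) (nat_lit 0) .nil) .nil)))))) (.nd (nat_lit 7) (.nd (nat_lit 8) (.nd (nat_lit 9) 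
(.lf (nat_lit 519243) (.g (nat_lit 2870) (.e (nat_lit 196681) (nat_lit 17) (.e (nat_lit 131125) (nat_lit 13) (.e (nat_lit 393229) (nat_lit 9) (.e (nat_lit 335988) (nat_lit 1) (.e (nat_lit 57926) (nat_lit 282) (.e (nat_lit 163869) (nat_lit 2) .nil)))))) (.g (nat_lit 1) (.e (nat_lit 220442) (nat_lit 0) .nil) .nil))) 
(.lf (nat_lit 519755) (.g (nat_lit 3303) (.e (nat_lit 204813) (nat_lit 9) (.e (nat_lit 426200) (nat_lit 9) (.e (nat_lit 426478) (nat_lit 27) (.e (nat_lit 336389) (nat_lit 27) (.e (nat_lit 426098) (nat_lit 1) (.e (nat_lit 164325) (nat_lit 230) (.e (nat_lit 163875) (nat_lit 3) .nil))))))) (.g (nat_lit 1) (.e (nat_lit 222185) (nat_lit 0) .nil) .nil)))) (.nd (nat_lit 9) 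
(.lf (nat_lit 519499) (.g (nat_lit 2033) (.e (nat_lit 204811) (nat_lit 9) (.e (nat_lit 426110) (nat_lit 1) (.e (nat_lit 164399) (nat_lit 256) (.e (nat_lit 57411) (nat_lit 12) (.e (nat_lit 336443) (nat_lit 32) .nil))))) (.g (nat_lit 0) (.e (nat_lit 221564) (nat_lit 0) .nil) .nil))) 
(.lf (nat_lit 520011) (.g (nat_lit 1304) (.e (nat_lit 204829) (nat_lit 18) (.e (nat_lit 57692) (nat_lit 156) (.e (nat_lit 163874) (nat_lit 3) (.e (nat_lit 204836) (nat_lit 20) .nil)))) (.g (nat_lit 0) (.e (nat_lit 223449) (nat_lit 0) .nil) .nil))))) (.nd (nat_lit 8) (.nd (nat_lit 9) 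
(.lf (nat_lit 519371) (.g (nat_lit 661) (.e (nat_lit 204809) (nat_lit 9) (.e (nat_lit 426107) (nat_lit 1) (.e (nat_lit 164327) (nat_lit 230) .nil))) (.g (nat_lit 0) (.e (nat_lit 220886) (nat_lit 0) .nil) .nil))) 
(.lf (nat_lit 519883) (.g (nat_lit 679) (.e (nat_lit 204819) (nat_lit 17) (.e (nat_lit 6113) (nat_lit 332) (.e (nat_lit 1361) (nat_lit 102) (.e (nat_lit 286735) (nat_lit 3) .nil)))) (.g (nat_lit 0) (.e (nat_lit 223247) (nat_lit 0) .nil) .nil)))) (.nd (nat_lit 9) 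
(.lf (nat_lit 519627) (.g (nat_lit 2452) (.e (nat_lit 204812) (nat_lit 9) (.e (nat_lit 426188) (nat_lit 9) (.e (nat_lit 426566) (nat_lit 34) (.e (nat_lit 393253) (nat_lit 18) (.e (nat_lit 164332) (nat_lit 230) (.e (nat_lit 163874) (nat_lit 3) .nil)))))) (.g (nat_lit 1) (.e (nat_lit 221747) (nat_lit 0) .nil) .nil))) 
(.lf (nat_lit 520139) (.g (nat_lit 2233) (.e (nat_lit 204829) (nat_lit 18) (.e (nat_lit 57927) (nat_lit 282) (.e (nat_lit 163866) (nat_lit 2) (.e (nat_lit 196670) (nat_lit 14) (.e (nat_lit 73746) (nat_lit 3) (.e (nat_lit 516124) (nat_lit 2) (.e (nat_lit 213022) (nat_lit 9) (.e (nat_lit 2683) (nat_lit 168) .nil)))))))) (.g (nat_lit 1) (.e (nat_lit 223605) (nat_lit 0) .nil) .nil))))))) 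
(.nd (nat_lit 6) (.nd (nat_lit 7) (.nd (nat_lit 8) (.nd (nat_lit 9) 
(.lf (nat_lit 519211) (.g (nat_lit 2355) (.e (nat_lit 196681) (nat_lit 17) (.e (nat_lit 131123) (nat_lit 12) (.e (nat_lit 385066) (nat_lit 26) (.e (nat_lit 532513) (nat_lit 3) (.e (nat_lit 114697) (nat_lit 11) (.e (nat_lit 426114) (nat_lit 2) .nil)))))) (.g (nat_lit 1) (.e (nat_lit 220375) (nat_lit 0) .nil) .nil))) 
(.lf (nat_lit 519723) (.g (nat_lit 283) (.e (nat_lit 204813) (nat_lit 9) (.e (nat_lit 426190) (nat_lit 9) (.e (nat_lit 426566) (nat_lit 34) .nil))) (.g (nat_lit 0) (.e (nat_lit 222055) (nat_lit 0) .nil) .nil)))) (.nd (nat_lit 9) 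
(.lf (nat_lit 519467) (.g (nat_lit 1965) (.e (nat_lit 204809) (nat_lit 9) (.e (nat_lit 426197) (nat_lit 9) (.e (nat_lit 426566) (nat_lit 34) (.e (nat_lit 393253) (nat_lit 18) (.e (nat_lit 164325) (nat_lit 230) .nil))))) (.g (nat_lit 0) (.e (nat_lit 221286) (nat_lit 0) .nil) .nil))) 
(.lf (nat_lit 519979) (.g (nat_lit 2437) (.e (nat_lit 204829) (nat_lit 18) (.e (nat_lit 57688) (nat_lit 156) (.e (nat_lit 163905) (nat_lit 12) (.e (nat_lit 426568) (nat_lit 34) (.e (nat_lit 393277) (nat_lit 23) (.e (nat_lit 426135) (nat_lit 3) .nil)))))) (.g (nat_lit 1) (.e (nat_lit 223398) (nat_lit 0) .nil) .nil))))) (.nd (nat_lit 8) (.nd (nat_lit 9) 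
(.lf (nat_lit 519339) (.g (nat_lit 2089) (.e (nat_lit 204808) (nat_lit 9) (.e (nat_lit 426100) (nat_lit 1) (.e (nat_lit 164403) (nat_lit 256) (.e (nat_lit 57408) (nat_lit 12) .nil)))) (.g (nat_lit 0) (.e (nat_lit 220700) (nat_lit 0) .nil) .nil))) 
(.lf (nat_lit 519851) (.g (nat_lit 2668) (.e (nat_lit 204816) (nat_lit 17) (.e (nat_lit 6722) (nat_lit 362) (.e (nat_lit 180245) (nat_lit 5) (.e (nat_lit 532523) (nat_lit 7) (.e (nat_lit 319505) (nat_lit 10) (.e (nat_lit 5714) (nat_lit 312) (.e (nat_lit 2682) (nat_lit 168) .nil))))))) (.g (nat_lit 1) (.e (nat_lit 223103) (nat_lit 0) .nil) .nil)))) (.nd (nat_lit 9) 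
(.lf (nat_lit 519595) (.g (nat_lit 1963) (.e (nat_lit 204812) (nat_lit 9) (.e (nat_lit 426100) (nat_lit 1) (.e (nat_lit 164403) (nat_lit 256) (.e (nat_lit 57408) (nat_lit 12) .nil)))) (.g (nat_lit 0) (.e (nat_lit 221687) (nat_lit 0) .nil) .nil))) 
(.lf (nat_lit 520107) (.g (nat_lit 3035) (.e (nat_lit 204829) (nat_lit 18) (.e (nat_lit 57926) (nat_lit 282) (.e (nat_lit 163869) (nat_lit 2) (.e (nat_lit 196668) (nat_lit 14) (.e (nat_lit 73746) (nat_lit 3) (.e (nat_lit 516131) (nat_lit 3) (.e (nat_lit 221215) (nat_lit 23) .nil))))))) (.g (nat_lit 1) (.e (nat_lit 223567) (nat_lit 0) .nil) .nil)))))) 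
(.nd (nat_lit 7) (.nd (nat_lit 8) (.nd (nat_lit 9) 
(.lf (nat_lit 519275) (.g (nat_lit 1824) (.e (nat_lit 196698) (nat_lit 19) (.e (nat_lit 57809) (nat_lit 246) (.e (nat_lit 57883) (nat_lit 270) (.e (nat_lit 371) (nat_lit 32) (.e (nat_lit 426542) (nat_lit 29) (.e (nat_lit 360192) (nat_lit 2) .nil)))))) (.g (nat_lit 1) (.e (nat_lit 220540) (nat_lit 0) .nil) .nil))) 
(.lf (nat_lit 519787) (.g (nat_lit 2030) (.e (nat_lit 212736) (nat_lit 9) (.e (nat_lit 426100) (nat_lit 1) (.e (nat_lit 164399) (nat_lit 256) (.e (nat_lit 57407) (nat_lit 12) (.e (nat_lit 336426) (nat_lit 29) .nil))))) (.g (nat_lit 0) (.e (nat_lit 222420) (nat_lit 0) .nil) .nil)))) (.nd (nat_lit 9) 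
(.lf (nat_lit 519531) (.g (nat_lit 1738) (.e (nat_lit 204811) (nat_lit 9) (.e (nat_lit 426234) (nat_lit 9) (.e (nat_lit 426565) (nat_lit 34) (.e (nat_lit 393254) (nat_lit 18) (.e (nat_lit 164325) (nat_lit 230) (.e (nat_lit 163875) (nat_lit 3) .nil)))))) (.g (nat_lit 1) (.e (nat_lit 221598) (nat_lit 0) .nil) .nil))) 
(.lf (nat_lit 520043) (.g (nat_lit 2354) (.e (nat_lit 204829) (nat_lit 18) (.e (nat_lit 57847) (nat_lit 252) (.e (nat_lit 57407) (nat_lit 12) (.e (nat_lit 336452) (nat_lit 34) .nil)))) (.g (nat_lit 0) (.e (nat_lit 223491) (nat_lit 0) .nil) .nil))))) (.nd (nat_lit 8) (.nd (nat_lit 9) 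
(.lf (nat_lit 519403) (.g (nat_lit 1643) (.e (nat_lit 204809) (nat_lit 9) (.e (nat_lit 426124) (nat_lit 2) (.e (nat_lit 196655) (nat_lit 11) (.e (nat_lit 16388) (nat_lit 0) (.e (nat_lit 3181) (nat_lit 193) .nil))))) (.g (nat_lit 0) (.e (nat_lit 221021) (nat_lit 0) .nil) .nil))) 
(.lf (nat_lit 519915) (.g (nat_lit 1389) (.e (nat_lit 204828) (nat_lit 18) (.e (nat_lit 57691) (nat_lit 156) (.e (nat_lit 163907) (nat_lit 12) (.e (nat_lit 426566) (nat_lit 34) .nil)))) (.g (nat_lit 0) (.e (nat_lit 223320) (nat_lit 0) .nil) .nil)))) (.nd (nat_lit 9) 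
(.lf (nat_lit 519659) (.g (nat_lit 2645) (.e (nat_lit 204813) (nat_lit 9) (.e (nat_lit 426100) (nat_lit 1) (.e (nat_lit 164403) (nat_lit 256) (.e (nat_lit 57406) (nat_lit 12) (.e (nat_lit 336443) (nat_lit 32) .nil))))) (.g (nat_lit 0) (.e (nat_lit 221841) (nat_lit 0) .nil) .nil))) 
(.lf (nat_lit 520171) (.g (nat_lit 2325) (.e (nat_lit 204829) (nat_lit 18) (.e (nat_lit 57927) (nat_lit 282) (.e (nat_lit 163868) (nat_lit 2) (.e (nat_lit 196668) (nat_lit 14) (.e (nat_lit 73747) (nat_lit 3) (.e (nat_lit 516122) (nat_lit 2) (.e (nat_lit 213022) (nat_lit 9) (.e (nat_lit 2683) (nat_lit 168) .nil)))))))) (.g (nat_lit 1) (.e (nat_lit 223637) (nat_lit 0) .nil) .nil)))))))) 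
(.nd (nat_lit 5) (.nd (nat_lit 6) (.nd (nat_lit 7) (.nd (nat_lit 8) (.nd (nat_lit 9) 
(.lf (nat_lit 519195) (.g (nat_lit 1197) (.e (nat_lit 196681) (nat_lit 17) (.e (nat_lit 131120) (nat_lit 12) (.e (nat_lit 385068) (nat_lit 26) (.e (nat_lit 532489) (nat_lit 0) .nil)))) (.g (nat_lit 0) (.e (nat_lit 220336) (nat_lit 0) .nil) .nil))) 
(.lf (nat_lit 519707) (.g (nat_lit 3530) (.e (nat_lit 204813) (nat_lit 9) (.e (nat_lit 426139) (nat_lit 3) (.e (nat_lit 204808) (nat_lit 9) (.e (nat_lit 426116) (nat_lit 2) (.e (nat_lit 196654) (nat_lit 11) (.e (nat_lit 16416) (nat_lit 3) .nil)))))) (.g (nat_lit 1) (.e (nat_lit 221980) (nat_lit 0) .nil) .nil)))) (.nd (nat_lit 9) 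
(.lf (nat_lit 519451) (.g (nat_lit 2109) (.e (nat_lit 204809) (nat_lit 9) (.e (nat_lit 426188) (nat_lit 9) (.e (nat_lit 426568) (nat_lit 34) (.e (nat_lit 393253) (nat_lit 18) (.e (nat_lit 164326) (nat_lit 230) .nil))))) (.g (nat_lit 0) (.e (nat_lit 221270) (nat_lit 0) .nil) .nil))) 
(.lf (nat_lit 519963) (.g (nat_lit 2983) (.e (nat_lit 204829) (nat_lit 18) (.e (nat_lit 57688) (nat_lit 156) (.e (nat_lit 163902) (nat_lit 12) (.e (nat_lit 426566) (nat_lit 34) (.e (nat_lit 393267) (nat_lit 23) .nil))))) (.g (nat_lit 0) (.e (nat_lit 223380) (nat_lit 0) .nil) .nil))))) (.nd (nat_lit 8) (.nd (nat_lit 9) 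
(.lf (nat_lit 519323) (.g (nat_lit 2048) (.e (nat_lit 204808) (nat_lit 9) (.e (nat_lit 426098) (nat_lit 1) (.e (nat_lit 164403) (nat_lit 256) (.e (nat_lit 57409) (nat_lit 12) (.e (nat_lit 336430) (nat_lit 29) .nil))))) (.g (nat_lit 0) (.e (nat_lit 220684) (nat_lit 0) .nil) .nil))) 
(.lf (nat_lit 519835) (.g (nat_lit 2143) (.e (nat_lit 204815) (nat_lit 17) (.e (nat_lit 6724) (nat_lit 362) (.e (nat_lit 180251) (nat_lit 10) (.e (nat_lit 573471) (nat_lit 11) (.e (nat_lit 16446) (nat_lit 9) .nil))))) (.g (nat_lit 0) (.e (nat_lit 223047) (nat_lit 0) .nil) .nil)))) (.nd (nat_lit 9) 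
(.lf (nat_lit 519579) (.g (nat_lit 1600) (.e (nat_lit 204812) (nat_lit 9) (.e (nat_lit 426100) (nat_lit 1) (.e (nat_lit 164398) (nat_lit 256) (.e (nat_lit 57405) (nat_lit 12) .nil)))) (.g (nat_lit 0) (.e (nat_lit 221671) (nat_lit 0) .nil) .nil))) 
(.lf (nat_lit 520091) (.g (nat_lit 2895) (.e (nat_lit 204829) (nat_lit 18) (.e (nat_lit 57925) (nat_lit 282) (.e (nat_lit 163867) (nat_lit 2) (.e (nat_lit 196670) (nat_lit 14) (.e (nat_lit 73746) (nat_lit 3) (.e (nat_lit 516124) (nat_lit 2) (.e (nat_lit 213013) (nat_lit 9) (.e (nat_lit 2684) (nat_lit 168) .nil)))))))) (.g (nat_lit 1) (.e (nat_lit 223549) (nat_lit 0) .nil) .nil)))))) 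
(.nd (nat_lit 7) (.nd (nat_lit 8) (.nd (nat_lit 9) 
(.lf (nat_lit 519259) (.g (nat_lit 1872) (.e (nat_lit 196691) (nat_lit 18) (.e (nat_lit 1349) (nat_lit 102) (.e (nat_lit 286765) (nat_lit 15) (.e (nat_lit 3255) (nat_lit 197) .nil)))) (.g (nat_lit 0) (.e (nat_lit 220499) (nat_lit 0) .nil) .nil))) 
(.lf (nat_lit 519771) (.g (nat_lit 3475) (.e (nat_lit 204813) (nat_lit 9) (.e (nat_lit 426200) (nat_lit 9) (.e (nat_lit 426566) (nat_lit 34) (.e (nat_lit 393252) (nat_lit 18) (.e (nat_lit 164332) (nat_lit 230) (.e (nat_lit 163874) (nat_lit 3) .nil)))))) (.g (nat_lit 1) (.e (nat_lit 222205) (nat_lit 0) .nil) .nil)))) (.nd (nat_lit 9) 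
(.lf (nat_lit 519515) (.g (nat_lit 2343) (.e (nat_lit 204811) (nat_lit 9) (.e (nat_lit 426232) (nat_lit 9) (.e (nat_lit 426565) (nat_lit 34) (.e (nat_lit 393253) (nat_lit 18) (.e (nat_lit 164325) (nat_lit 230) (.e (nat_lit 163873) (nat_lit 3) .nil)))))) (.g (nat_lit 1) (.e (nat_lit 221582) (nat_lit 0) .nil) .nil))) 
(.lf (nat_lit 520027) (.g (nat_lit 2338) (.e (nat_lit 204829) (nat_lit 18) (.e (nat_lit 57692) (nat_lit 156) (.e (nat_lit 163907) (nat_lit 12) (.e (nat_lit 426568) (nat_lit 34) (.e (nat_lit 393277) (nat_lit 23) (.e (nat_lit 426135) (nat_lit 3) .nil)))))) (.g (nat_lit 1) (.e (nat_lit 223469) (nat_lit 0) .nil) .nil))))) (.nd (nat_lit 8) (.nd (nat_lit 9) 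
(.lf (nat_lit 519387) (.g (nat_lit 1523) (.e (nat_lit 204809) (nat_lit 9) (.e (nat_lit 426116) (nat_lit 2) (.e (nat_lit 196656) (nat_lit 11) (.e (nat_lit 16416) (nat_lit 3) .nil)))) (.g (nat_lit 0) (.e (nat_lit 220945) (nat_lit 0) .nil) .nil))) 
(.lf (nat_lit 519899) (.g (nat_lit 1870) (.e (nat_lit 204821) (nat_lit 17) (.e (nat_lit 6114) (nat_lit 332) (.e (nat_lit 1370) (nat_lit 103) (.e (nat_lit 294931) (nat_lit 3) (.e (nat_lit 98370) (nat_lit 28) .nil))))) (.g (nat_lit 0) (.e (nat_lit 223298) (nat_lit 0) .nil) .nil)))) (.nd (nat_lit 9) 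
(.lf (nat_lit 519643) (.g (nat_lit 2389) (.e (nat_lit 204813) (nat_lit 9) (.e (nat_lit 426098) (nat_lit 1) (.e (nat_lit 164398) (nat_lit 256) (.e (nat_lit 57406) (nat_lit 12) (.e (nat_lit 336443) (nat_lit 32) .nil))))) (.g (nat_lit 0) (.e (nat_lit 221825) (nat_lit 0) .nil) .nil))) 
(.lf (nat_lit 520155) (.g (nat_lit 2038) (.e (nat_lit 204829) (nat_lit 18) (.e (nat_lit 57927) (nat_lit 282) (.e (nat_lit 163868) (nat_lit 2) (.e (nat_lit 196668) (nat_lit 14) (.e (nat_lit 73746) (nat_lit 3) .nil))))) (.g (nat_lit 0) (.e (nat_lit 223621) (nat_lit 0) .nil) .nil))))))) (.nd (nat_lit 6) (.nd (nat_lit 7) (.nd (nat_lit 8) (.nd (nat_lit 9) 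
(.lf (nat_lit 519227) (.g (nat_lit 1578) (.e (nat_lit 196681) (nat_lit 17) (.e (nat_lit 131123) (nat_lit 12) (.e (nat_lit 385068) (nat_lit 26) (.e (nat_lit 532486) (nat_lit 0) (.e (nat_lit 2149) (nat_lit 142) .nil))))) (.g (nat_lit 0) (.e (nat_lit 220395) (nat_lit 0) .nil) .nil))) 
(.lf (nat_lit 519739) (.g (nat_lit 3866) (.e (nat_lit 204813) (nat_lit 9) (.e (nat_lit 426198) (nat_lit 9) (.e (nat_lit 426566) (nat_lit 34) (.e (nat_lit 393253) (nat_lit 18) (.e (nat_lit 164332) (nat_lit 230) (.e (nat_lit 163874) (nat_lit 3) .nil)))))) (.g (nat_lit 1) (.e (nat_lit 222095) (nat_lit 0) .nil) .nil)))) (.nd (nat_lit 9) 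
(.lf (nat_lit 519483) (.g (nat_lit 2073) (.e (nat_lit 204809) (nat_lit 9) (.e (nat_lit 426200) (nat_lit 9) (.e (nat_lit 426568) (nat_lit 34) (.e (nat_lit 393253) (nat_lit 18) (.e (nat_lit 164326) (nat_lit 230) .nil))))) (.g (nat_lit 0) (.e (nat_lit 221368) (nat_lit 0) .nil) .nil))) 
(.lf (nat_lit 519995) (.g (nat_lit 3204) (.e (nat_lit 204829) (nat_lit 18) (.e (nat_lit 57691) (nat_lit 156) (.e (nat_lit 163905) (nat_lit 12) (.e (nat_lit 426479) (nat_lit 27) (.e (nat_lit 336443) (nat_lit 32) (.e (nat_lit 466981) (nat_lit 23) .nil)))))) (.g (nat_lit 1) (.e (nat_lit 223423) (nat_lit 0) .nil) .nil))))) (.nd (nat_lit 8) (.nd (nat_lit 9) 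
(.lf (nat_lit 519355) (.g (nat_lit 3413) (.e (nat_lit 204808) (nat_lit 9) (.e (nat_lit 426190) (nat_lit 9) (.e (nat_lit 426566) (nat_lit 34) (.e (nat_lit 393253) (nat_lit 18) (.e (nat_lit 164332) (nat_lit 230) (.e (nat_lit 163874) (nat_lit 3) .nil)))))) (.g (nat_lit 1) (.e (nat_lit 220782) (nat_lit 0) .nil) .nil))) 
(.lf (nat_lit 519867) (.g (nat_lit 3360) (.e (nat_lit 204816) (nat_lit 17) (.e (nat_lit 6724) (nat_lit 362) (.e (nat_lit 180252) (nat_lit 10) (.e (nat_lit 573471) (nat_lit 11) (.e (nat_lit 16436) (nat_lit 9) (.e (nat_lit 426131) (nat_lit 3) .nil)))))) (.g (nat_lit 1) (.e (nat_lit 223214) (nat_lit 0) .nil) .nil)))) (.nd (nat_lit 9) 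
(.lf (nat_lit 519611) (.g (nat_lit 564) (.e (nat_lit 204812) (nat_lit 9) (.e (nat_lit 426116) (nat_lit 2) (.e (nat_lit 196654) (nat_lit 11) .nil))) (.g (nat_lit 0) (.e (nat_lit 221704) (nat_lit 0) .nil) .nil))) 
(.lf (nat_lit 520123) (.g (nat_lit 2579) (.e (nat_lit 204829) (nat_lit 18) (.e (nat_lit 57926) (nat_lit 282) (.e (nat_lit 163871) (nat_lit 2) (.e (nat_lit 196670) (nat_lit 14) (.e (nat_lit 73746) (nat_lit 3) (.e (nat_lit 516124) (nat_lit 2) (.e (nat_lit 213019) (nat_lit 9) (.e (nat_lit 2681) (nat_lit 168) .nil)))))))) (.g (nat_lit 1) (.e (nat_lit 223584) (nat_lit 0) .nil) .nil)))))) 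
(.nd (nat_lit 7) (.nd (nat_lit 8) (.nd (nat_lit 9) 
(.lf (nat_lit 519291) (.g (nat_lit 1983) (.e (nat_lit 196698) (nat_lit 19) (.e (nat_lit 57811) (nat_lit 246) (.e (nat_lit 57883) (nat_lit 270) (.e (nat_lit 496) (nat_lit 39) (.e (nat_lit 483382) (nat_lit 23) (.e (nat_lit 336320) (nat_lit 17) .nil)))))) (.g (nat_lit 1) (.e (nat_lit 220556) (nat_lit 0) .nil) .nil))) 
(.lf (nat_lit 519803) (.g (nat_lit 341) (.e (nat_lit 212736) (nat_lit 9) (.e (nat_lit 426228) (nat_lit 9) (.e (nat_lit 426565) (nat_lit 34) (.e (nat_lit 401152) (nat_lit 3) .nil)))) (.g (nat_lit 0) (.e (nat_lit 222490) (nat_lit 0) .nil) .nil)))) (.nd (nat_lit 9) 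
(.lf (nat_lit 519547) (.g (nat_lit 2003) (.e (nat_lit 204811) (nat_lit 9) (.e (nat_lit 426260) (nat_lit 9) (.e (nat_lit 426565) (nat_lit 34) (.e (nat_lit 393253) (nat_lit 18) (.e (nat_lit 164330) (nat_lit 230) (.e (nat_lit 163873) (nat_lit 3) .nil)))))) (.g (nat_lit 1) (.e (nat_lit 221635) (nat_lit 0) .nil) .nil))) 
(.lf (nat_lit 520059) (.g (nat_lit 4705) (.e (nat_lit 204829) (nat_lit 18) (.e (nat_lit 57849) (nat_lit 252) (.e (nat_lit 57372) (nat_lit 2) (.e (nat_lit 90160) (nat_lit 11) (.e (nat_lit 24608) (nat_lit 3) (.e (nat_lit 98321) (nat_lit 17) (.e (nat_lit 3771) (nat_lit 229) (.e (nat_lit 794673) (nat_lit 23) .nil)))))))) (.g (nat_lit 1) (.e (nat_lit 223511) (nat_lit 0) .nil) .nil))))) 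
(.nd (nat_lit 8) (.nd (nat_lit 9) 
(.lf (nat_lit 519419) (.g (nat_lit 3138) (.e (nat_lit 204809) (nat_lit 9) (.e (nat_lit 426139) (nat_lit 3) (.e (nat_lit 204809) (nat_lit 9) (.e (nat_lit 426124) (nat_lit 2) (.e (nat_lit 196656) (nat_lit 11) (.e (nat_lit 16416) (nat_lit 3) .nil)))))) (.g (nat_lit 1) (.e (nat_lit 221145) (nat_lit 0) .nil) .nil))) 
(.lf (nat_lit 519931) (.g (nat_lit 3867) (.e (nat_lit 204828) (nat_lit 18) (.e (nat_lit 57927) (nat_lit 282) (.e (nat_lit 163868) (nat_lit 2) (.e (nat_lit 196668) (nat_lit 14) (.e (nat_lit 73747) (nat_lit 3) (.e (nat_lit 516131) (nat_lit 3) (.e (nat_lit 221215) (nat_lit 23) .nil))))))) (.g (nat_lit 1) (.e (nat_lit 223340) (nat_lit 0) .nil) .nil)))) (.nd (nat_lit 9) 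
(.lf (nat_lit 519675) (.g (nat_lit 2279) (.e (nat_lit 204813) (nat_lit 9) (.e (nat_lit 426115) (nat_lit 2) (.e (nat_lit 196654) (nat_lit 11) (.e (nat_lit 16416) (nat_lit 3) (.e (nat_lit 204813) (nat_lit 9) (.e (nat_lit 426139) (nat_lit 3) .nil)))))) (.g (nat_lit 1) (.e (nat_lit 221862) (nat_lit 0) .nil) .nil))) 
(.lf (nat_lit 520187) (.g (nat_lit 2924) (.e (nat_lit 204829) (nat_lit 18) (.e (nat_lit 57927) (nat_lit 282) (.e (nat_lit 163868) (nat_lit 2) (.e (nat_lit 196670) (nat_lit 14) (.e (nat_lit 73746) (nat_lit 3) (.e (nat_lit 516124) (nat_lit 2) (.e (nat_lit 213022) (nat_lit 9) (.e (nat_lit 2683) (nat_lit 168) .nil)))))))) (.g (nat_lit 1) (.e (nat_lit 223653) (nat_lit 0) .nil) .nil)))))))))) 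
(.nd (nat_lit 3) (.nd (nat_lit 4) (.nd (nat_lit 5) (.nd (nat_lit 6) (.nd (nat_lit 7) 
(.nd (nat_lit 8) (.nd (nat_lit 9) 
(.lf (nat_lit 519175) (.g (nat_lit 1719) (.e (nat_lit 196681) (nat_lit 17) (.e (nat_lit 131109) (nat_lit 9) (.e (nat_lit 336324) (nat_lit 18) (.e (nat_lit 204838) (nat_lit 20) (.e (nat_lit 122624) (nat_lit 11) (.e (nat_lit 426115) (nat_lit 2) .nil)))))) (.g (nat_lit 1) (.e (nat_lit 220267) (nat_lit 0) .nil) .nil))) 
(.lf (nat_lit 519687) (.g (nat_lit 2765) (.e (nat_lit 204813) (nat_lit 9) (.e (nat_lit 426122) (nat_lit 2) (.e (nat_lit 196654) (nat_lit 11) (.e (nat_lit 16413) (nat_lit 2) (.e (nat_lit 196654) (nat_lit 11) (.e (nat_lit 16416) (nat_lit 3) .nil)))))) (.g (nat_lit 1) (.e (nat_lit 221888) (nat_lit 0) .nil) .nil)))) (.nd (nat_lit 9) 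
(.lf (nat_lit 519431) (.g (nat_lit 3391) (.e (nat_lit 204809) (nat_lit 9) (.e (nat_lit 426187) (nat_lit 9) (.e (nat_lit 426566) (nat_lit 34) (.e (nat_lit 393253) (nat_lit 18) (.e (nat_lit 164325) (nat_lit 230) (.e (nat_lit 163874) (nat_lit 3) .nil)))))) (.g (nat_lit 1) (.e (nat_lit 221248) (nat_lit 0) .nil) .nil))) 
(.lf (nat_lit 519943) (.g (nat_lit 3174) (.e (nat_lit 204829) (nat_lit 18) (.e (nat_lit 57686) (nat_lit 156) (.e (nat_lit 163875) (nat_lit 3) (.e (nat_lit 204837) (nat_lit 20) (.e (nat_lit 114718) (nat_lit 23) (.e (nat_lit 98365) (nat_lit 26) (.e (nat_lit 426137) (nat_lit 3) .nil))))))) (.g (nat_lit 1) (.e (nat_lit 223356) (nat_lit 0) .nil) .nil))))) (.nd (nat_lit 8) (.nd (nat_lit 9) 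
(.lf (nat_lit 519303) (.g (nat_lit 1719) (.e (nat_lit 196698) (nat_lit 19) (.e (nat_lit 57816) (nat_lit 246) (.e (nat_lit 57881) (nat_lit 270) (.e (nat_lit 371) (nat_lit 32) (.e (nat_lit 426540) (nat_lit 29) (.e (nat_lit 360192) (nat_lit 2) .nil)))))) (.g (nat_lit 1) (.e (nat_lit 220568) (nat_lit 0) .nil) .nil))) 
(.lf (nat_lit 519815) (.g (nat_lit 880) (.e (nat_lit 212736) (nat_lit 16) (.e (nat_lit 491566) (nat_lit 12) (.e (nat_lit 392960) (nat_lit 2) (.e (nat_lit 16438) (nat_lit 9) (.e (nat_lit 426130) (nat_lit 3) .nil))))) (.g (nat_lit 0) (.e (nat_lit 222879) (nat_lit 0) .nil) .nil)))) (.nd (nat_lit 9) 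
(.lf (nat_lit 519559) (.g (nat_lit 2227) (.e (nat_lit 204811) (nat_lit 9) (.e (nat_lit 426261) (nat_lit 9) (.e (nat_lit 426565) (nat_lit 34) (.e (nat_lit 393253) (nat_lit 18) (.e (nat_lit 164331) (nat_lit 230) (.e (nat_lit 163873) (nat_lit 3) .nil)))))) (.g (nat_lit 1) (.e (nat_lit 221647) (nat_lit 0) .nil) .nil))) 
(.lf (nat_lit 520071) (.g (nat_lit 2610) (.e (nat_lit 204829) (nat_lit 18) (.e (nat_lit 57849) (nat_lit 252) (.e (nat_lit 57407) (nat_lit 12) (.e (nat_lit 336456) (nat_lit 34) (.e (nat_lit 483387) (nat_lit 23) .nil))))) (.g (nat_lit 0) (.e (nat_lit 223528) (nat_lit 0) .nil) .nil)))))) (.nd (nat_lit 7) (.nd (nat_lit 8) (.nd (nat_lit 9) 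
(.lf (nat_lit 519239) (.g (nat_lit 2773) (.e (nat_lit 196681) (nat_lit 17) (.e (nat_lit 131124) (nat_lit 13) (.e (nat_lit 393229) (nat_lit 9) (.e (nat_lit 335986) (nat_lit 1) (.e (nat_lit 57931) (nat_lit 282) (.e (nat_lit 163869) (nat_lit 2) .nil)))))) (.g (nat_lit 1) (.e (nat_lit 220419) (nat_lit 0) .nil) .nil))) 
(.lf (nat_lit 519751) (.g (nat_lit 3225) (.e (nat_lit 204813) (nat_lit 9) (.e (nat_lit 426199) (nat_lit 9) (.e (nat_lit 426566) (nat_lit 34) (.e (nat_lit 393253) (nat_lit 18) (.e (nat_lit 164325) (nat_lit 230) (.e (nat_lit 163875) (nat_lit 3) .nil)))))) (.g (nat_lit 1) (.e (nat_lit 222134) (nat_lit 0) .nil) .nil)))) (.nd (nat_lit 9) 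
(.lf (nat_lit 519495) (.g (nat_lit 1706) (.e (nat_lit 204811) (nat_lit 9) (.e (nat_lit 426110) (nat_lit 1) (.e (nat_lit 164398) (nat_lit 256) (.e (nat_lit 57411) (nat_lit 12) .nil)))) (.g (nat_lit 0) (.e (nat_lit 221560) (nat_lit 0) .nil) .nil))) 
(.lf (nat_lit 520007) (.g (nat_lit 2479) (.e (nat_lit 204829) (nat_lit 18) (.e (nat_lit 57691) (nat_lit 156) (.e (nat_lit 163907) (nat_lit 12) (.e (nat_lit 426566) (nat_lit 34) (.e (nat_lit 393279) (nat_lit 23) (.e (nat_lit 426129) (nat_lit 3) .nil)))))) (.g (nat_lit 1) (.e (nat_lit 223441) (nat_lit 0) .nil) .nil))))) (.nd (nat_lit 8) (.nd (nat_lit 9) 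
(.lf (nat_lit 519367) (.g (nat_lit 1790) (.e (nat_lit 204809) (nat_lit 9) (.e (nat_lit 426100) (nat_lit 1) (.e (nat_lit 164403) (nat_lit 256) (.e (nat_lit 57405) (nat_lit 12) .nil)))) (.g (nat_lit 0) (.e (nat_lit 220880) (nat_lit 0) .nil) .nil))) 
(.lf (nat_lit 519879) (.g (nat_lit 4110) (.e (nat_lit 204819) (nat_lit 17) (.e (nat_lit 6113) (nat_lit 332) (.e (nat_lit 1374) (nat_lit 104) (.e (nat_lit 303119) (nat_lit 3) (.e (nat_lit 204846) (nat_lit 24) (.e (nat_lit 319504) (nat_lit 10) (.e (nat_lit 5714) (nat_lit 312) (.e (nat_lit 2681) (nat_lit 168) .nil)))))))) (.g (nat_lit 1) (.e (nat_lit 223239) (nat_lit 0) .nil) .nil)))) 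
(.nd (nat_lit 9) 
(.lf (nat_lit 519623) (.g (nat_lit 2218) (.e (nat_lit 204812) (nat_lit 9) (.e (nat_lit 426188) (nat_lit 9) (.e (nat_lit 426566) (nat_lit 34) (.e (nat_lit 393251) (nat_lit 18) (.e (nat_lit 164325) (nat_lit 230) (.e (nat_lit 163875) (nat_lit 3) .nil)))))) (.g (nat_lit 1) (.e (nat_lit 221743) (nat_lit 0) .nil) .nil))) 
(.lf (nat_lit 520135) (.g (nat_lit 3598) (.e (nat_lit 204829) (nat_lit 18) (.e (nat_lit 57927) (nat_lit 282) (.e (nat_lit 163866) (nat_lit 2) (.e (nat_lit 196666) (nat_lit 13) (.e (nat_lit 65569) (nat_lit 3) (.e (nat_lit 98342) (nat_lit 20) (.e (nat_lit 221213) (nat_lit 23) .nil))))))) (.g (nat_lit 1) (.e (nat_lit 223600) (nat_lit 0) .nil) .nil))))))) 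
(.nd (nat_lit 6) (.nd (nat_lit 7) (.nd (nat_lit 8) (.nd (nat_lit 9) 
(.lf (nat_lit 519207) (.g (nat_lit 155) (.e (nat_lit 196681) (nat_lit 17) (.e (nat_lit 131123) (nat_lit 12) (.e (nat_lit 385066) (nat_lit 26) .nil))) (.g (nat_lit 0) (.e (nat_lit 220367) (nat_lit 0) .nil) .nil))) 
(.lf (nat_lit 519719) (.g (nat_lit 2909) (.e (nat_lit 204813) (nat_lit 9) (.e (nat_lit 426190) (nat_lit 9) (.e (nat_lit 426484) (nat_lit 27) (.e (nat_lit 336407) (nat_lit 27) (.e (nat_lit 426107) (nat_lit 1) (.e (nat_lit 164326) (nat_lit 230) (.e (nat_lit 163873) (nat_lit 3) .nil))))))) (.g (nat_lit 1) (.e (nat_lit 222048) (nat_lit 0) .nil) .nil)))) (.nd (nat_lit 9) 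
(.lf (nat_lit 519463) (.g (nat_lit 3135) (.e (nat_lit 204809) (nat_lit 9) (.e (nat_lit 426190) (nat_lit 9) (.e (nat_lit 426566) (nat_lit 34) (.e (nat_lit 393252) (nat_lit 18) (.e (nat_lit 164332) (nat_lit 230) (.e (nat_lit 163874) (nat_lit 3) .nil)))))) (.g (nat_lit 1) (.e (nat_lit 221282) (nat_lit 0) .nil) .nil))) 
(.lf (nat_lit 519975) (.g (nat_lit 1989) (.e (nat_lit 204829) (nat_lit 18) (.e (nat_lit 57688) (nat_lit 156) (.e (nat_lit 163904) (nat_lit 12) (.e (nat_lit 426566) (nat_lit 34) (.e (nat_lit 393279) (nat_lit 23) .nil))))) (.g (nat_lit 0) (.e (nat_lit 223392) (nat_lit 0) .nil) .nil))))) (.nd (nat_lit 8) (.nd (nat_lit 9) 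
(.lf (nat_lit 519335) (.g (nat_lit 1830) (.e (nat_lit 204808) (nat_lit 9) (.e (nat_lit 426100) (nat_lit 1) (.e (nat_lit 164399) (nat_lit 256) (.e (nat_lit 57411) (nat_lit 12) (.e (nat_lit 336443) (nat_lit 32) .nil))))) (.g (nat_lit 0) (.e (nat_lit 220696) (nat_lit 0) .nil) .nil))) 
(.lf (nat_lit 519847) (.g (nat_lit 2033) (.e (nat_lit 204816) (nat_lit 17) (.e (nat_lit 6517) (nat_lit 347) (.e (nat_lit 65571) (nat_lit 3) (.e (nat_lit 98349) (nat_lit 24) (.e (nat_lit 409646) (nat_lit 18) .nil))))) (.g (nat_lit 0) (.e (nat_lit 223084) (nat_lit 0) .nil) .nil)))) (.nd (nat_lit 9) 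
(.lf (nat_lit 519591) (.g (nat_lit 1416) (.e (nat_lit 204812) (nat_lit 9) (.e (nat_lit 426100) (nat_lit 1) (.e (nat_lit 164399) (nat_lit 256) (.e (nat_lit 57410) (nat_lit 12) .nil)))) (.g (nat_lit 0) (.e (nat_lit 221683) (nat_lit 0) .nil) .nil))) 
(.lf (nat_lit 520103) (.g (nat_lit 2921) (.e (nat_lit 204829) (nat_lit 18) (.e (nat_lit 57926) (nat_lit 282) (.e (nat_lit 163868) (nat_lit 2) (.e (nat_lit 196670) (nat_lit 14) (.e (nat_lit 73746) (nat_lit 3) (.e (nat_lit 516129) (nat_lit 3) (.e (nat_lit 221213) (nat_lit 23) .nil))))))) (.g (nat_lit 1) (.e (nat_lit 223563) (nat_lit 0) .nil) .nil)))))) 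
(.nd (nat_lit 7) (.nd (nat_lit 8) (.nd (nat_lit 9) 
(.lf (nat_lit 519271) (.g (nat_lit 1543) (.e (nat_lit 196698) (nat_lit 19) (.e (nat_lit 57809) (nat_lit 246) (.e (nat_lit 57879) (nat_lit 270) (.e (nat_lit 371) (nat_lit 32) (.e (nat_lit 426555) (nat_lit 32) (.e (nat_lit 384768) (nat_lit 2) .nil)))))) (.g (nat_lit 1) (.e (nat_lit 220536) (nat_lit 0) .nil) .nil))) 
(.lf (nat_lit 519783) (.g (nat_lit 3546) (.e (nat_lit 204813) (nat_lit 9) (.e (nat_lit 426200) (nat_lit 9) (.e (nat_lit 426568) (nat_lit 34) (.e (nat_lit 393253) (nat_lit 18) (.e (nat_lit 164325) (nat_lit 230) (.e (nat_lit 163875) (nat_lit 3) .nil)))))) (.g (nat_lit 1) (.e (nat_lit 222220) (nat_lit 0) .nil) .nil)))) (.nd (nat_lit 9) 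
(.lf (nat_lit 519527) (.g (nat_lit 2391) (.e (nat_lit 204811) (nat_lit 9) (.e (nat_lit 426234) (nat_lit 9) (.e (nat_lit 426565) (nat_lit 34) (.e (nat_lit 393251) (nat_lit 18) (.e (nat_lit 164327) (nat_lit 230) (.e (nat_lit 163873) (nat_lit 3) .nil)))))) (.g (nat_lit 1) (.e (nat_lit 221594) (nat_lit 0) .nil) .nil))) 
(.lf (nat_lit 520039) (.g (nat_lit 1921) (.e (nat_lit 204829) (nat_lit 18) (.e (nat_lit 57847) (nat_lit 252) (.e (nat_lit 57379) (nat_lit 3) (.e (nat_lit 98342) (nat_lit 20) (.e (nat_lit 221213) (nat_lit 23) .nil))))) (.g (nat_lit 0) (.e (nat_lit 223487) (nat_lit 0) .nil) .nil))))) (.nd (nat_lit 8) (.nd (nat_lit 9) 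
(.lf (nat_lit 519399) (.g (nat_lit 397) (.e (nat_lit 204809) (nat_lit 9) (.e (nat_lit 426124) (nat_lit 2) (.e (nat_lit 196654) (nat_lit 11) .nil))) (.g (nat_lit 0) (.e (nat_lit 220991) (nat_lit 0) .nil) .nil))) 
(.lf (nat_lit 519911) (.g (nat_lit 470) (.e (nat_lit 204828) (nat_lit 18) (.e (nat_lit 57691) (nat_lit 156) (.e (nat_lit 163905) (nat_lit 12) .nil))) (.g (nat_lit 0) (.e (nat_lit 223316) (nat_lit 0) .nil) .nil)))) (.nd (nat_lit 9) 
(.lf (nat_lit 519655) (.g (nat_lit 2171) (.e (nat_lit 204813) (nat_lit 9) (.e (nat_lit 426100) (nat_lit 1) (.e (nat_lit 164398) (nat_lit 256) (.e (nat_lit 57406) (nat_lit 12) (.e (nat_lit 336443) (nat_lit 32) .nil))))) (.g (nat_lit 0) (.e (nat_lit 221837) (nat_lit 0) .nil) .nil))) 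
(.lf (nat_lit 520167) (.g (nat_lit 2717) (.e (nat_lit 204829) (nat_lit 18) (.e (nat_lit 57927) (nat_lit 282) (.e (nat_lit 163868) (nat_lit 2) (.e (nat_lit 196668) (nat_lit 14) (.e (nat_lit 73746) (nat_lit 3) (.e (nat_lit 516127) (nat_lit 2) (.e (nat_lit 213019) (nat_lit 9) (.e (nat_lit 2681) (nat_lit 168) .nil)))))))) (.g (nat_lit 1) (.e (nat_lit 223633) (nat_lit 0) .nil) .nil)))))))) 
(.nd (nat_lit 5) (.nd (nat_lit 6) (.nd (nat_lit 7) (.nd (nat_lit 8) (.nd (nat_lit 9) 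
(.lf (nat_lit 519191) (.g (nat_lit 2494) (.e (nat_lit 196681) (nat_lit 17) (.e (nat_lit 131120) (nat_lit 12) (.e (nat_lit 385066) (nat_lit 26) (.e (nat_lit 532515) (nat_lit 3) (.e (nat_lit 114697) (nat_lit 11) (.e (nat_lit 426123) (nat_lit 2) .nil)))))) (.g (nat_lit 1) (.e (nat_lit 220332) (nat_lit 0) .nil) .nil))) 
(.lf (nat_lit 519703) (.g (nat_lit 3075) (.e (nat_lit 204813) (nat_lit 9) (.e (nat_lit 426138) (nat_lit 3) (.e (nat_lit 204813) (nat_lit 9) (.e (nat_lit 426116) (nat_lit 2) (.e (nat_lit 196654) (nat_lit 11) (.e (nat_lit 16416) (nat_lit 3) .nil)))))) (.g (nat_lit 1) (.e (nat_lit 221969) (nat_lit 0) .nil) .nil)))) (.nd (nat_lit 9) 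
(.lf (nat_lit 519447) (.g (nat_lit 2892) (.e (nat_lit 204809) (nat_lit 9) (.e (nat_lit 426188) (nat_lit 9) (.e (nat_lit 426568) (nat_lit 34) (.e (nat_lit 393251) (nat_lit 18) (.e (nat_lit 164325) (nat_lit 230) (.e (nat_lit 163875) (nat_lit 3) .nil)))))) (.g (nat_lit 1) (.e (nat_lit 221266) (nat_lit 0) .nil) .nil))) 
(.lf (nat_lit 519959) (.g (nat_lit 2011) (.e (nat_lit 204829) (nat_lit 18) (.e (nat_lit 57688) (nat_lit 156) (.e (nat_lit 163902) (nat_lit 12) (.e (nat_lit 426478) (nat_lit 27) (.e (nat_lit 336443) (nat_lit 32) .nil))))) (.g (nat_lit 0) (.e (nat_lit 223375) (nat_lit 0) .nil) .nil))))) (.nd (nat_lit 8) (.nd (nat_lit 9) 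
(.lf (nat_lit 519319) (.g (nat_lit 1507) (.e (nat_lit 212736) (nat_lit 7) (.e (nat_lit 409649) (nat_lit 18) (.e (nat_lit 303111) (nat_lit 0) (.e (nat_lit 3527) (nat_lit 218) .nil)))) (.g (nat_lit 0) (.e (nat_lit 220676) (nat_lit 0) .nil) .nil))) 
(.lf (nat_lit 519831) (.g (nat_lit 2159) (.e (nat_lit 204815) (nat_lit 17) (.e (nat_lit 6724) (nat_lit 362) (.e (nat_lit 180250) (nat_lit 10) (.e (nat_lit 573469) (nat_lit 11) (.e (nat_lit 16444) (nat_lit 9) .nil))))) (.g (nat_lit 0) (.e (nat_lit 223023) (nat_lit 0) .nil) .nil)))) (.nd (nat_lit 9) 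
(.lf (nat_lit 519575) (.g (nat_lit 2070) (.e (nat_lit 204812) (nat_lit 9) (.e (nat_lit 426098) (nat_lit 1) (.e (nat_lit 164399) (nat_lit 256) (.e (nat_lit 57411) (nat_lit 12) (.e (nat_lit 336443) (nat_lit 32) .nil))))) (.g (nat_lit 0) (.e (nat_lit 221667) (nat_lit 0) .nil) .nil))) 
(.lf (nat_lit 520087) (.g (nat_lit 1700) (.e (nat_lit 204829) (nat_lit 18) (.e (nat_lit 57854) (nat_lit 252) (.e (nat_lit 57409) (nat_lit 12) (.e (nat_lit 336452) (nat_lit 34) .nil)))) (.g (nat_lit 0) (.e (nat_lit 223545) (nat_lit 0) .nil) .nil)))))) (.nd (nat_lit 7) (.nd (nat_lit 8) (.nd (nat_lit 9) 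
(.lf (nat_lit 519255) (.g (nat_lit 1931) (.e (nat_lit 196691) (nat_lit 18) (.e (nat_lit 1348) (nat_lit 102) (.e (nat_lit 286742) (nat_lit 9) (.e (nat_lit 336456) (nat_lit 34) (.e (nat_lit 491264) (nat_lit 3) .nil))))) (.g (nat_lit 0) (.e (nat_lit 220493) (nat_lit 0) .nil) .nil))) 
(.lf (nat_lit 519767) (.g (nat_lit 2297) (.e (nat_lit 204813) (nat_lit 9) (.e (nat_lit 426200) (nat_lit 9) (.e (nat_lit 426564) (nat_lit 34) (.e (nat_lit 393251) (nat_lit 18) (.e (nat_lit 164332) (nat_lit 230) (.e (nat_lit 163873) (nat_lit 3) .nil)))))) (.g (nat_lit 1) (.e (nat_lit 222201) (nat_lit 0) .nil) .nil)))) (.nd (nat_lit 9) 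
(.lf (nat_lit 519511) (.g (nat_lit 1828) (.e (nat_lit 204811) (nat_lit 9) (.e (nat_lit 426230) (nat_lit 9) (.e (nat_lit 426565) (nat_lit 34) (.e (nat_lit 393254) (nat_lit 18) (.e (nat_lit 164332) (nat_lit 230) (.e (nat_lit 163873) (nat_lit 3) .nil)))))) (.g (nat_lit 1) (.e (nat_lit 221578) (nat_lit 0) .nil) .nil))) 
(.lf (nat_lit 520023) (.g (nat_lit 1589) (.e (nat_lit 204829) (nat_lit 18) (.e (nat_lit 57692) (nat_lit 156) (.e (nat_lit 163907) (nat_lit 12) (.e (nat_lit 425986) (nat_lit 0) (.e (nat_lit 7936) (nat_lit 218) .nil))))) (.g (nat_lit 0) (.e (nat_lit 223463) (nat_lit 0) .nil) .nil))))) (.nd (nat_lit 8) (.nd (nat_lit 9) 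
(.lf (nat_lit 519383) (.g (nat_lit 1877) (.e (nat_lit 204809) (nat_lit 9) (.e (nat_lit 426116) (nat_lit 2) (.e (nat_lit 196656) (nat_lit 11) (.e (nat_lit 16410) (nat_lit 2) (.e (nat_lit 196654) (nat_lit 11) .nil))))) (.g (nat_lit 0) (.e (nat_lit 220937) (nat_lit 0) .nil) .nil))) 
(.lf (nat_lit 519895) (.g (nat_lit 320) (.e (nat_lit 204821) (nat_lit 17) (.e (nat_lit 6114) (nat_lit 332) (.e (nat_lit 1361) (nat_lit 102) .nil))) (.g (nat_lit 0) (.e (nat_lit 223293) (nat_lit 0) .nil) .nil)))) (.nd (nat_lit 9) 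
(.lf (nat_lit 519639) (.g (nat_lit 1613) (.e (nat_lit 204812) (nat_lit 9) (.e (nat_lit 426198) (nat_lit 9) (.e (nat_lit 426566) (nat_lit 34) (.e (nat_lit 393252) (nat_lit 18) (.e (nat_lit 164330) (nat_lit 230) .nil))))) (.g (nat_lit 0) (.e (nat_lit 221760) (nat_lit 0) .nil) .nil))) 
(.lf (nat_lit 520151) (.g (nat_lit 3020) (.e (nat_lit 204829) (nat_lit 18) (.e (nat_lit 57927) (nat_lit 282) (.e (nat_lit 163867) (nat_lit 2) (.e (nat_lit 196670) (nat_lit 14) (.e (nat_lit 73746) (nat_lit 3) (.e (nat_lit 516124) (nat_lit 2) (.e (nat_lit 213019) (nat_lit 9) (.e (nat_lit 2683) (nat_lit 168) .nil)))))))) (.g (nat_lit 1) (.e (nat_lit 223617) (nat_lit 0) .nil) .nil))))))) 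
(.nd (nat_lit 6) (.nd (nat_lit 7) (.nd (nat_lit 8) (.nd (nat_lit 9) 
(.lf (nat_lit 519223) (.g (nat_lit 2415) (.e (nat_lit 196681) (nat_lit 17) (.e (nat_lit 131123) (nat_lit 12) (.e (nat_lit 385066) (nat_lit 26) (.e (nat_lit 532515) (nat_lit 3) (.e (nat_lit 114698) (nat_lit 11) (.e (nat_lit 426121) (nat_lit 2) .nil)))))) (.g (nat_lit 1) (.e (nat_lit 220391) (nat_lit 0) .nil) .nil))) 
(.lf (nat_lit 519735) (.g (nat_lit 3656) (.e (nat_lit 204813) (nat_lit 9) (.e (nat_lit 426198) (nat_lit 9) (.e (nat_lit 426566) (nat_lit 34) (.e (nat_lit 393251) (nat_lit 18) (.e (nat_lit 164325) (nat_lit 230) (.e (nat_lit 163875) (nat_lit 3) .nil)))))) (.g (nat_lit 1) (.e (nat_lit 222091) (nat_lit 0) .nil) .nil)))) (.nd (nat_lit 9) 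
(.lf (nat_lit 519479) (.g (nat_lit 3137) (.e (nat_lit 204809) (nat_lit 9) (.e (nat_lit 426200) (nat_lit 9) (.e (nat_lit 426566) (nat_lit 34) (.e (nat_lit 393254) (nat_lit 18) (.e (nat_lit 164324) (nat_lit 230) (.e (nat_lit 163873) (nat_lit 3) .nil)))))) (.g (nat_lit 1) (.e (nat_lit 221364) (nat_lit 0) .nil) .nil))) 
(.lf (nat_lit 519991) (.g (nat_lit 4580) (.e (nat_lit 204829) (nat_lit 18) (.e (nat_lit 57691) (nat_lit 156) (.e (nat_lit 163875) (nat_lit 3) (.e (nat_lit 204837) (nat_lit 20) (.e (nat_lit 114715) (nat_lit 22) (.e (nat_lit 90170) (nat_lit 13) (.e (nat_lit 172065) (nat_lit 3) .nil))))))) (.g (nat_lit 1) (.e (nat_lit 223419) (nat_lit 0) .nil) .nil))))) (.nd (nat_lit 8) (.nd (nat_lit 9) 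
(.lf (nat_lit 519351) (.g (nat_lit 3328) (.e (nat_lit 204808) (nat_lit 9) (.e (nat_lit 426190) (nat_lit 9) (.e (nat_lit 426566) (nat_lit 34) (.e (nat_lit 393251) (nat_lit 18) (.e (nat_lit 164332) (nat_lit 230) (.e (nat_lit 163874) (nat_lit 3) .nil)))))) (.g (nat_lit 1) (.e (nat_lit 220778) (nat_lit 0) .nil) .nil))) 
(.lf (nat_lit 519863) (.g (nat_lit 1339) (.e (nat_lit 204816) (nat_lit 17) (.e (nat_lit 6724) (nat_lit 362) (.e (nat_lit 180252) (nat_lit 10) (.e (nat_lit 573469) (nat_lit 11) .nil)))) (.g (nat_lit 0) (.e (nat_lit 223210) (nat_lit 0) .nil) .nil)))) (.nd (nat_lit 9) 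
(.lf (nat_lit 519607) (.g (nat_lit 1909) (.e (nat_lit 204812) (nat_lit 9) (.e (nat_lit 426108) (nat_lit 1) (.e (nat_lit 164403) (nat_lit 256) (.e (nat_lit 57406) (nat_lit 12) (.e (nat_lit 336443) (nat_lit 32) .nil))))) (.g (nat_lit 0) (.e (nat_lit 221700) (nat_lit 0) .nil) .nil))) 
(.lf (nat_lit 520119) (.g (nat_lit 3878) (.e (nat_lit 204829) (nat_lit 18) (.e (nat_lit 57926) (nat_lit 282) (.e (nat_lit 163870) (nat_lit 2) (.e (nat_lit 196666) (nat_lit 13) (.e (nat_lit 65569) (nat_lit 3) (.e (nat_lit 98342) (nat_lit 20) (.e (nat_lit 221215) (nat_lit 23) .nil))))))) (.g (nat_lit 1) (.e (nat_lit 223580) (nat_lit 0) .nil) .nil)))))) 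
(.nd (nat_lit 7) (.nd (nat_lit 8) (.nd (nat_lit 9) 
(.lf (nat_lit 519287) (.g (nat_lit 2140) (.e (nat_lit 196698) (nat_lit 19) (.e (nat_lit 57811) (nat_lit 246) (.e (nat_lit 57879) (nat_lit 270) (.e (nat_lit 496) (nat_lit 39) (.e (nat_lit 483383) (nat_lit 23) (.e (nat_lit 336320) (nat_lit 17) .nil)))))) (.g (nat_lit 1) (.e (nat_lit 220552) (nat_lit 0) .nil) .nil))) 
(.lf (nat_lit 519799) (.g (nat_lit 2412) (.e (nat_lit 212736) (nat_lit 9) (.e (nat_lit 426190) (nat_lit 9) (.e (nat_lit 426566) (nat_lit 34) (.e (nat_lit 393251) (nat_lit 18) (.e (nat_lit 164332) (nat_lit 230) .nil))))) (.g (nat_lit 0) (.e (nat_lit 222484) (nat_lit 0) .nil) .nil)))) (.nd (nat_lit 9) 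
(.lf (nat_lit 519543) (.g (nat_lit 2191) (.e (nat_lit 204811) (nat_lit 9) (.e (nat_lit 426260) (nat_lit 9) (.e (nat_lit 426565) (nat_lit 34) (.e (nat_lit 393253) (nat_lit 18) (.e (nat_lit 164325) (nat_lit 230) (.e (nat_lit 163873) (nat_lit 3) .nil)))))) (.g (nat_lit 1) (.e (nat_lit 221631) (nat_lit 0) .nil) .nil))) 
(.lf (nat_lit 520055) (.g (nat_lit 2823) (.e (nat_lit 204829) (nat_lit 18) (.e (nat_lit 57847) (nat_lit 252) (.e (nat_lit 57447) (nat_lit 19) (.e (nat_lit 393221) (nat_lit 0) (.e (nat_lit 6112) (nat_lit 332) (.e (nat_lit 2406) (nat_lit 157) (.e (nat_lit 5259) (nat_lit 298) (.e (nat_lit 174) (nat_lit 12) .nil)))))))) (.g (nat_lit 1) (.e (nat_lit 223505) (nat_lit 0) .nil) .nil))))) 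
(.nd (nat_lit 8) (.nd (nat_lit 9) 
(.lf (nat_lit 519415) (.g (nat_lit 1698) (.e (nat_lit 204809) (nat_lit 9) (.e (nat_lit 426133) (nat_lit 3) (.e (nat_lit 204813) (nat_lit 9) (.e (nat_lit 426113) (nat_lit 2) .nil)))) (.g (nat_lit 0) (.e (nat_lit 221084) (nat_lit 0) .nil) .nil))) 
(.lf (nat_lit 519927) (.g (nat_lit 2248) (.e (nat_lit 204828) (nat_lit 18) (.e (nat_lit 57926) (nat_lit 282) (.e (nat_lit 163867) (nat_lit 2) (.e (nat_lit 196668) (nat_lit 14) (.e (nat_lit 73747) (nat_lit 3) .nil))))) (.g (nat_lit 0) (.e (nat_lit 223336) (nat_lit 0) .nil) .nil)))) (.nd (nat_lit 9) 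
(.lf (nat_lit 519671) (.g (nat_lit 2027) (.e (nat_lit 204813) (nat_lit 9) (.e (nat_lit 426108) (nat_lit 1) (.e (nat_lit 164401) (nat_lit 256) (.e (nat_lit 57409) (nat_lit 12) (.e (nat_lit 336430) (nat_lit 29) .nil))))) (.g (nat_lit 0) (.e (nat_lit 221856) (nat_lit 0) .nil) .nil))) 
(.lf (nat_lit 520183) (.g (nat_lit 3201) (.e (nat_lit 204829) (nat_lit 18) (.e (nat_lit 57927) (nat_lit 282) (.e (nat_lit 163868) (nat_lit 2) (.e (nat_lit 196670) (nat_lit 14) (.e (nat_lit 73746) (nat_lit 3) (.e (nat_lit 516124) (nat_lit 2) (.e (nat_lit 213000) (nat_lit 9) (.e (nat_lit 2680) (nat_lit 168) .nil)))))))) (.g (nat_lit 1) (.e (nat_lit 223649) (nat_lit 0) .nil) .nil))))))))) 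
(.nd (nat_lit 4) (.nd (nat_lit 5) (.nd (nat_lit 6) (.nd (nat_lit 7) (.nd (nat_lit 8) 
(.nd (nat_lit 9) 
(.lf (nat_lit 519183) (.g (nat_lit 1708) (.e (nat_lit 196681) (nat_lit 17) (.e (nat_lit 131120) (nat_lit 12) (.e (nat_lit 385066) (nat_lit 26) (.e (nat_lit 532513) (nat_lit 3) (.e (nat_lit 114694) (nat_lit 11) (.e (nat_lit 426116) (nat_lit 2) .nil)))))) (.g (nat_lit 1) (.e (nat_lit 220321) (nat_lit 0) .nil) .nil))) 
(.lf (nat_lit 519695) (.g (nat_lit 1759) (.e (nat_lit 204813) (nat_lit 9) (.e (nat_lit 426124) (nat_lit 2) (.e (nat_lit 196655) (nat_lit 11) (.e (nat_lit 16388) (nat_lit 0) (.e (nat_lit 3181) (nat_lit 193) .nil))))) (.g (nat_lit 0) (.e (nat_lit 221920) (nat_lit 0) .nil) .nil)))) (.nd (nat_lit 9) 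
(.lf (nat_lit 519439) (.g (nat_lit 1694) (.e (nat_lit 204809) (nat_lit 9) (.e (nat_lit 426188) (nat_lit 9) (.e (nat_lit 426564) (nat_lit 34) (.e (nat_lit 393252) (nat_lit 18) (.e (nat_lit 164332) (nat_lit 230) .nil))))) (.g (nat_lit 0) (.e (nat_lit 221257) (nat_lit 0) .nil) .nil))) 
(.lf (nat_lit 519951) (.g (nat_lit 3477) (.e (nat_lit 204829) (nat_lit 18) (.e (nat_lit 57686) (nat_lit 156) (.e (nat_lit 163903) (nat_lit 12) (.e (nat_lit 426568) (nat_lit 34) (.e (nat_lit 393281) (nat_lit 23) (.e (nat_lit 426133) (nat_lit 3) .nil)))))) (.g (nat_lit 1) (.e (nat_lit 223364) (nat_lit 0) .nil) .nil))))) (.nd (nat_lit 8) (.nd (nat_lit 9) 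
(.lf (nat_lit 519311) (.g (nat_lit 619) (.e (nat_lit 212736) (nat_lit 5) (.e (nat_lit 253991) (nat_lit 11) (.e (nat_lit 16412) (nat_lit 2) .nil))) (.g (nat_lit 0) (.e (nat_lit 220665) (nat_lit 0) .nil) .nil))) 
(.lf (nat_lit 519823) (.g (nat_lit 2161) (.e (nat_lit 204815) (nat_lit 17) (.e (nat_lit 6722) (nat_lit 362) (.e (nat_lit 180244) (nat_lit 5) (.e (nat_lit 532522) (nat_lit 7) (.e (nat_lit 319538) (nat_lit 19) .nil))))) (.g (nat_lit 0) (.e (nat_lit 222965) (nat_lit 0) .nil) .nil)))) (.nd (nat_lit 9) 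
(.lf (nat_lit 519567) (.g (nat_lit 1689) (.e (nat_lit 204811) (nat_lit 9) (.e (nat_lit 426262) (nat_lit 9) (.e (nat_lit 426565) (nat_lit 34) (.e (nat_lit 393254) (nat_lit 18) (.e (nat_lit 164325) (nat_lit 230) (.e (nat_lit 163873) (nat_lit 3) .nil)))))) (.g (nat_lit 1) (.e (nat_lit 221655) (nat_lit 0) .nil) .nil))) 
(.lf (nat_lit 520079) (.g (nat_lit 1643) (.e (nat_lit 204829) (nat_lit 18) (.e (nat_lit 57853) (nat_lit 252) (.e (nat_lit 57406) (nat_lit 12) (.e (nat_lit 336367) (nat_lit 27) .nil)))) (.g (nat_lit 0) (.e (nat_lit 223536) (nat_lit 0) .nil) .nil)))))) (.nd (nat_lit 7) (.nd (nat_lit 8) (.nd (nat_lit 9) 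
(.lf (nat_lit 519247) (.g (nat_lit 3411) (.e (nat_lit 196681) (nat_lit 17) (.e (nat_lit 131128) (nat_lit 13) (.e (nat_lit 393229) (nat_lit 9) (.e (nat_lit 335988) (nat_lit 1) (.e (nat_lit 57931) (nat_lit 282) (.e (nat_lit 163869) (nat_lit 2) .nil)))))) (.g (nat_lit 1) (.e (nat_lit 220480) (nat_lit 0) .nil) .nil))) 
(.lf (nat_lit 519759) (.g (nat_lit 2666) (.e (nat_lit 204813) (nat_lit 9) (.e (nat_lit 426200) (nat_lit 9) (.e (nat_lit 426481) (nat_lit 27) (.e (nat_lit 336385) (nat_lit 27) (.e (nat_lit 426098) (nat_lit 1) (.e (nat_lit 164327) (nat_lit 230) (.e (nat_lit 163875) (nat_lit 3) .nil))))))) (.g (nat_lit 1) (.e (nat_lit 222192) (nat_lit 0) .nil) .nil)))) (.nd (nat_lit 9) 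
(.lf (nat_lit 519503) (.g (nat_lit 2708) (.e (nat_lit 204811) (nat_lit 9) (.e (nat_lit 426230) (nat_lit 9) (.e (nat_lit 426565) (nat_lit 34) (.e (nat_lit 393253) (nat_lit 18) (.e (nat_lit 164327) (nat_lit 230) (.e (nat_lit 163875) (nat_lit 3) .nil)))))) (.g (nat_lit 1) (.e (nat_lit 221570) (nat_lit 0) .nil) .nil))) 
(.lf (nat_lit 520015) (.g (nat_lit 2955) (.e (nat_lit 204829) (nat_lit 18) (.e (nat_lit 57692) (nat_lit 156) (.e (nat_lit 163905) (nat_lit 12) (.e (nat_lit 426479) (nat_lit 27) (.e (nat_lit 336443) (nat_lit 32) (.e (nat_lit 466981) (nat_lit 23) .nil)))))) (.g (nat_lit 1) (.e (nat_lit 223453) (nat_lit 0) .nil) .nil))))) (.nd (nat_lit 8) (.nd (nat_lit 9) 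
(.lf (nat_lit 519375) (.g (nat_lit 1611) (.e (nat_lit 204809) (nat_lit 9) (.e (nat_lit 426107) (nat_lit 1) (.e (nat_lit 164403) (nat_lit 256) (.e (nat_lit 57404) (nat_lit 12) .nil)))) (.g (nat_lit 0) (.e (nat_lit 220894) (nat_lit 0) .nil) .nil))) 
(.lf (nat_lit 519887) (.g (nat_lit 1318) (.e (nat_lit 204821) (nat_lit 17) (.e (nat_lit 2391) (nat_lit 156) (.e (nat_lit 819204) (nat_lit 0) (.e (nat_lit 2685) (nat_lit 168) (.e (nat_lit 204863) (nat_lit 27) .nil))))) (.g (nat_lit 0) (.e (nat_lit 223259) (nat_lit 0) .nil) .nil)))) (.nd (nat_lit 9) 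
(.lf (nat_lit 519631) (.g (nat_lit 2404) (.e (nat_lit 204812) (nat_lit 9) (.e (nat_lit 426189) (nat_lit 9) (.e (nat_lit 426566) (nat_lit 34) (.e (nat_lit 393252) (nat_lit 18) (.e (nat_lit 164332) (nat_lit 230) (.e (nat_lit 163874) (nat_lit 3) .nil)))))) (.g (nat_lit 1) (.e (nat_lit 221751) (nat_lit 0) .nil) .nil))) 
(.lf (nat_lit 520143) (.g (nat_lit 3042) (.e (nat_lit 204829) (nat_lit 18) (.e (nat_lit 57927) (nat_lit 282) (.e (nat_lit 163866) (nat_lit 2) (.e (nat_lit 196670) (nat_lit 14) (.e (nat_lit 73746) (nat_lit 3) (.e (nat_lit 516124) (nat_lit 2) (.e (nat_lit 213019) (nat_lit 9) (.e (nat_lit 2683) (nat_lit 168) .nil)))))))) (.g (nat_lit 1) (.e (nat_lit 223609) (nat_lit 0) .nil) .nil))))))) 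
(.nd (nat_lit 6) (.nd (nat_lit 7) (.nd (nat_lit 8) (.nd (nat_lit 9) 
(.lf (nat_lit 519215) (.g (nat_lit 2552) (.e (nat_lit 196681) (nat_lit 17) (.e (nat_lit 131123) (nat_lit 12) (.e (nat_lit 385066) (nat_lit 26) (.e (nat_lit 532513) (nat_lit 3) (.e (nat_lit 114697) (nat_lit 11) (.e (nat_lit 426123) (nat_lit 2) .nil)))))) (.g (nat_lit 1) (.e (nat_lit 220379) (nat_lit 0) .nil) .nil))) 
(.lf (nat_lit 519727) (.g (nat_lit 1092) (.e (nat_lit 204813) (nat_lit 9) (.e (nat_lit 426190) (nat_lit 9) (.e (nat_lit 426567) (nat_lit 34) (.e (nat_lit 393254) (nat_lit 18) .nil)))) (.g (nat_lit 0) (.e (nat_lit 222061) (nat_lit 0) .nil) .nil)))) (.nd (nat_lit 9) 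
(.lf (nat_lit 519471) (.g (nat_lit 3069) (.e (nat_lit 204809) (nat_lit 9) (.e (nat_lit 426198) (nat_lit 9) (.e (nat_lit 426566) (nat_lit 34) (.e (nat_lit 393251) (nat_lit 18) (.e (nat_lit 164332) (nat_lit 230) (.e (nat_lit 163874) (nat_lit 3) .nil)))))) (.g (nat_lit 1) (.e (nat_lit 221291) (nat_lit 0) .nil) .nil))) 
(.lf (nat_lit 519983) (.g (nat_lit 2083) (.e (nat_lit 204829) (nat_lit 18) (.e (nat_lit 57688) (nat_lit 156) (.e (nat_lit 163907) (nat_lit 12) (.e (nat_lit 426507) (nat_lit 27) .nil)))) (.g (nat_lit 0) (.e (nat_lit 223403) (nat_lit 0) .nil) .nil))))) (.nd (nat_lit 8) (.nd (nat_lit 9) 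
(.lf (nat_lit 519343) (.g (nat_lit 1304) (.e (nat_lit 204808) (nat_lit 9) (.e (nat_lit 426108) (nat_lit 1) (.e (nat_lit 164401) (nat_lit 256) (.e (nat_lit 57409) (nat_lit 12) .nil)))) (.g (nat_lit 0) (.e (nat_lit 220704) (nat_lit 0) .nil) .nil))) 
(.lf (nat_lit 519855) (.g (nat_lit 1033) (.e (nat_lit 204816) (nat_lit 17) (.e (nat_lit 6724) (nat_lit 362) (.e (nat_lit 180243) (nat_lit 5) (.e (nat_lit 532568) (nat_lit 16) .nil)))) (.g (nat_lit 0) (.e (nat_lit 223150) (nat_lit 0) .nil) .nil)))) (.nd (nat_lit 9) 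
(.lf (nat_lit 519599) (.g (nat_lit 2605) (.e (nat_lit 204812) (nat_lit 9) (.e (nat_lit 426107) (nat_lit 1) (.e (nat_lit 164403) (nat_lit 256) (.e (nat_lit 57406) (nat_lit 12) (.e (nat_lit 336444) (nat_lit 32) .nil))))) (.g (nat_lit 0) (.e (nat_lit 221692) (nat_lit 0) .nil) .nil))) 
(.lf (nat_lit 520111) (.g (nat_lit 2697) (.e (nat_lit 204829) (nat_lit 18) (.e (nat_lit 57926) (nat_lit 282) (.e (nat_lit 163869) (nat_lit 2) (.e (nat_lit 196670) (nat_lit 14) (.e (nat_lit 73746) (nat_lit 3) (.e (nat_lit 516124) (nat_lit 2) (.e (nat_lit 213022) (nat_lit 9) (.e (nat_lit 2683) (nat_lit 168) .nil)))))))) (.g (nat_lit 1) (.e (nat_lit 223572) (nat_lit 0) .nil) .nil)))))) 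
(.nd (nat_lit 7) (.nd (nat_lit 8) (.nd (nat_lit 9) 
(.lf (nat_lit 519279) (.g (nat_lit 1711) (.e (nat_lit 196698) (nat_lit 19) (.e (nat_lit 57810) (nat_lit 246) (.e (nat_lit 57879) (nat_lit 270) (.e (nat_lit 371) (nat_lit 32) (.e (nat_lit 426542) (nat_lit 29) (.e (nat_lit 360192) (nat_lit 2) .nil)))))) (.g (nat_lit 1) (.e (nat_lit 220544) (nat_lit 0) .nil) .nil))) 
(.lf (nat_lit 519791) (.g (nat_lit 1410) (.e (nat_lit 212736) (nat_lit 9) (.e (nat_lit 426116) (nat_lit 2) (.e (nat_lit 196654) (nat_lit 11) (.e (nat_lit 16416) (nat_lit 3) .nil)))) (.g (nat_lit 0) (.e (nat_lit 222433) (nat_lit 0) .nil) .nil)))) (.nd (nat_lit 9) 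
(.lf (nat_lit 519535) (.g (nat_lit 2053) (.e (nat_lit 204811) (nat_lit 9) (.e (nat_lit 426259) (nat_lit 9) (.e (nat_lit 426563) (nat_lit 34) (.e (nat_lit 393251) (nat_lit 18) (.e (nat_lit 164325) (nat_lit 230) (.e (nat_lit 163875) (nat_lit 3) .nil)))))) (.g (nat_lit 1) (.e (nat_lit 221613) (nat_lit 0) .nil) .nil))) 
(.lf (nat_lit 520047) (.g (nat_lit 3546) (.e (nat_lit 204829) (nat_lit 18) (.e (nat_lit 57847) (nat_lit 252) (.e (nat_lit 57407) (nat_lit 12) (.e (nat_lit 336456) (nat_lit 34) (.e (nat_lit 483346) (nat_lit 17) (.e (nat_lit 6446) (nat_lit 343) (.e (nat_lit 174) (nat_lit 12) .nil))))))) (.g (nat_lit 1) (.e (nat_lit 223495) (nat_lit 0) .nil) .nil))))) (.nd (nat_lit 8) (.nd (nat_lit 9) 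
(.lf (nat_lit 519407) (.g (nat_lit 2848) (.e (nat_lit 204809) (nat_lit 9) (.e (nat_lit 426124) (nat_lit 2) (.e (nat_lit 196656) (nat_lit 11) (.e (nat_lit 16412) (nat_lit 2) (.e (nat_lit 196654) (nat_lit 11) (.e (nat_lit 16417) (nat_lit 3) .nil)))))) (.g (nat_lit 1) (.e (nat_lit 221037) (nat_lit 0) .nil) .nil))) 
(.lf (nat_lit 519919) (.g (nat_lit 765) (.e (nat_lit 204828) (nat_lit 18) (.e (nat_lit 57847) (nat_lit 252) (.e (nat_lit 57370) (nat_lit 2) .nil))) (.g (nat_lit 0) (.e (nat_lit 223328) (nat_lit 0) .nil) .nil)))) (.nd (nat_lit 9) 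
(.lf (nat_lit 519663) (.g (nat_lit 1375) (.e (nat_lit 204813) (nat_lit 9) (.e (nat_lit 426106) (nat_lit 1) (.e (nat_lit 164403) (nat_lit 256) (.e (nat_lit 57408) (nat_lit 12) (.e (nat_lit 336443) (nat_lit 32) .nil))))) (.g (nat_lit 0) (.e (nat_lit 221845) (nat_lit 0) .nil) .nil))) 
(.lf (nat_lit 520175) (.g (nat_lit 2479) (.e (nat_lit 204829) (nat_lit 18) (.e (nat_lit 57927) (nat_lit 282) (.e (nat_lit 163868) (nat_lit 2) (.e (nat_lit 196668) (nat_lit 14) (.e (nat_lit 73747) (nat_lit 3) (.e (nat_lit 516124) (nat_lit 2) (.e (nat_lit 213022) (nat_lit 9) (.e (nat_lit 2683) (nat_lit 168) .nil)))))))) (.g (nat_lit 1) (.e (nat_lit 223641) (nat_lit 0) .nil) .nil)))))))) 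
(.nd (nat_lit 5) (.nd (nat_lit 6) (.nd (nat_lit 7) (.nd (nat_lit 8) (.nd (nat_lit 9) 
(.lf (nat_lit 519199) (.g (nat_lit 2965) (.e (nat_lit 196681) (nat_lit 17) (.e (nat_lit 131120) (nat_lit 12) (.e (nat_lit 385068) (nat_lit 26) (.e (nat_lit 532515) (nat_lit 3) (.e (nat_lit 114698) (nat_lit 11) (.e (nat_lit 426124) (nat_lit 2) .nil)))))) (.g (nat_lit 1) (.e (nat_lit 220345) (nat_lit 0) .nil) .nil))) 
(.lf (nat_lit 519711) (.g (nat_lit 3418) (.e (nat_lit 204813) (nat_lit 9) (.e (nat_lit 426139) (nat_lit 3) (.e (nat_lit 204813) (nat_lit 9) (.e (nat_lit 426116) (nat_lit 2) (.e (nat_lit 196654) (nat_lit 11) (.e (nat_lit 16416) (nat_lit 3) .nil)))))) (.g (nat_lit 1) (.e (nat_lit 221990) (nat_lit 0) .nil) .nil)))) (.nd (nat_lit 9) 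
(.lf (nat_lit 519455) (.g (nat_lit 2707) (.e (nat_lit 204809) (nat_lit 9) (.e (nat_lit 426189) (nat_lit 9) (.e (nat_lit 426566) (nat_lit 34) (.e (nat_lit 393252) (nat_lit 18) (.e (nat_lit 164332) (nat_lit 230) (.e (nat_lit 163874) (nat_lit 3) .nil)))))) (.g (nat_lit 1) (.e (nat_lit 221274) (nat_lit 0) .nil) .nil))) 
(.lf (nat_lit 519967) (.g (nat_lit 370) (.e (nat_lit 204829) (nat_lit 18) (.e (nat_lit 57688) (nat_lit 156) (.e (nat_lit 163903) (nat_lit 12) .nil))) (.g (nat_lit 0) (.e (nat_lit 223384) (nat_lit 0) .nil) .nil))))) (.nd (nat_lit 8) (.nd (nat_lit 9) 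
(.lf (nat_lit 519327) (.g (nat_lit 1592) (.e (nat_lit 204808) (nat_lit 9) (.e (nat_lit 426100) (nat_lit 1) (.e (nat_lit 164398) (nat_lit 256) (.e (nat_lit 57410) (nat_lit 12) .nil)))) (.g (nat_lit 0) (.e (nat_lit 220688) (nat_lit 0) .nil) .nil))) 
(.lf (nat_lit 519839) (.g (nat_lit 2250) (.e (nat_lit 204816) (nat_lit 17) (.e (nat_lit 6203) (nat_lit 332) (.e (nat_lit 2797) (nat_lit 180) (.e (nat_lit 303117) (nat_lit 2) (.e (nat_lit 196664) (nat_lit 13) .nil))))) (.g (nat_lit 0) (.e (nat_lit 223062) (nat_lit 0) .nil) .nil)))) (.nd (nat_lit 9) 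
(.lf (nat_lit 519583) (.g (nat_lit 2055) (.e (nat_lit 204812) (nat_lit 9) (.e (nat_lit 426100) (nat_lit 1) (.e (nat_lit 164398) (nat_lit 256) (.e (nat_lit 57409) (nat_lit 12) (.e (nat_lit 336443) (nat_lit 32) .nil))))) (.g (nat_lit 0) (.e (nat_lit 221675) (nat_lit 0) .nil) .nil))) 
(.lf (nat_lit 520095) (.g (nat_lit 2957) (.e (nat_lit 204829) (nat_lit 18) (.e (nat_lit 57925) (nat_lit 282) (.e (nat_lit 163875) (nat_lit 3) (.e (nat_lit 204862) (nat_lit 27) (.e (nat_lit 344117) (nat_lit 21) (.e (nat_lit 516130) (nat_lit 3) (.e (nat_lit 221213) (nat_lit 23) .nil))))))) (.g (nat_lit 1) (.e (nat_lit 223555) (nat_lit 0) .nil) .nil)))))) 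
(.nd (nat_lit 7) (.nd (nat_lit 8) (.nd (nat_lit 9) 
(.lf (nat_lit 519263) (.g (nat_lit 955) (.e (nat_lit 204544) (nat_lit 18) (.e (nat_lit 2798) (nat_lit 180) (.e (nat_lit 303143) (nat_lit 12) (.e (nat_lit 475185) (nat_lit 29) .nil)))) (.g (nat_lit 0) (.e (nat_lit 220519) (nat_lit 0) .nil) .nil))) 
(.lf (nat_lit 519775) (.g (nat_lit 3343) (.e (nat_lit 204813) (nat_lit 9) (.e (nat_lit 426200) (nat_lit 9) (.e (nat_lit 426566) (nat_lit 34) (.e (nat_lit 393254) (nat_lit 18) (.e (nat_lit 164325) (nat_lit 230) (.e (nat_lit 163875) (nat_lit 3) .nil)))))) (.g (nat_lit 1) (.e (nat_lit 222209) (nat_lit 0) .nil) .nil)))) (.nd (nat_lit 9) 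
(.lf (nat_lit 519519) (.g (nat_lit 2787) (.e (nat_lit 204811) (nat_lit 9) (.e (nat_lit 426232) (nat_lit 9) (.e (nat_lit 426565) (nat_lit 34) (.e (nat_lit 393253) (nat_lit 18) (.e (nat_lit 164327) (nat_lit 230) (.e (nat_lit 163875) (nat_lit 3) .nil)))))) (.g (nat_lit 1) (.e (nat_lit 221586) (nat_lit 0) .nil) .nil))) 
(.lf (nat_lit 520031) (.g (nat_lit 3472) (.e (nat_lit 204829) (nat_lit 18) (.e (nat_lit 57847) (nat_lit 252) (.e (nat_lit 57372) (nat_lit 2) (.e (nat_lit 90160) (nat_lit 11) (.e (nat_lit 24608) (nat_lit 3) (.e (nat_lit 98321) (nat_lit 17) (.e (nat_lit 3771) (nat_lit 229) (.e (nat_lit 794673) (nat_lit 23) .nil)))))))) (.g (nat_lit 1) (.e (nat_lit 223479) (nat_lit 0) .nil) .nil))))) 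
(.nd (nat_lit 8) (.nd (nat_lit 9) 
(.lf (nat_lit 519391) (.g (nat_lit 1025) (.e (nat_lit 204809) (nat_lit 9) (.e (nat_lit 426123) (nat_lit 2) (.e (nat_lit 196653) (nat_lit 11) (.e (nat_lit 16411) (nat_lit 2) .nil)))) (.g (nat_lit 0) (.e (nat_lit 220952) (nat_lit 0) .nil) .nil))) 
(.lf (nat_lit 519903) (.g (nat_lit 974) (.e (nat_lit 204824) (nat_lit 17) (.e (nat_lit 6680) (nat_lit 357) (.e (nat_lit 3067) (nat_lit 190) (.e (nat_lit 475183) (nat_lit 29) .nil)))) (.g (nat_lit 0) (.e (nat_lit 223303) (nat_lit 0) .nil) .nil)))) (.nd (nat_lit 9) 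
(.lf (nat_lit 519647) (.g (nat_lit 1993) (.e (nat_lit 204813) (nat_lit 9) (.e (nat_lit 426098) (nat_lit 1) (.e (nat_lit 164398) (nat_lit 256) (.e (nat_lit 57409) (nat_lit 12) (.e (nat_lit 336443) (nat_lit 32) .nil))))) (.g (nat_lit 0) (.e (nat_lit 221829) (nat_lit 0) .nil) .nil))) 
(.lf (nat_lit 520159) (.g (nat_lit 2695) (.e (nat_lit 204829) (nat_lit 18) (.e (nat_lit 57927) (nat_lit 282) (.e (nat_lit 163868) (nat_lit 2) (.e (nat_lit 196668) (nat_lit 14) (.e (nat_lit 73746) (nat_lit 3) (.e (nat_lit 516124) (nat_lit 2) (.e (nat_lit 213022) (nat_lit 9) (.e (nat_lit 2683) (nat_lit 168) .nil)))))))) (.g (nat_lit 1) (.e (nat_lit 223625) (nat_lit 0) .nil) .nil))))))) 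
(.nd (nat_lit 6) (.nd (nat_lit 7) (.nd (nat_lit 8) (.nd (nat_lit 9) 
(.lf (nat_lit 519231) (.g (nat_lit 2721) (.e (nat_lit 196681) (nat_lit 17) (.e (nat_lit 131123) (nat_lit 12) (.e (nat_lit 385068) (nat_lit 26) (.e (nat_lit 532513) (nat_lit 3) (.e (nat_lit 114698) (nat_lit 11) (.e (nat_lit 426121) (nat_lit 2) .nil)))))) (.g (nat_lit 1) (.e (nat_lit 220402) (nat_lit 0) .nil) .nil))) 
(.lf (nat_lit 519743) (.g (nat_lit 1658) (.e (nat_lit 204813) (nat_lit 9) (.e (nat_lit 426198) (nat_lit 9) (.e (nat_lit 426568) (nat_lit 34) (.e (nat_lit 401152) (nat_lit 3) .nil)))) (.g (nat_lit 0) (.e (nat_lit 222099) (nat_lit 0) .nil) .nil)))) (.nd (nat_lit 9) 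
(.lf (nat_lit 519487) (.g (nat_lit 2094) (.e (nat_lit 204809) (nat_lit 9) (.e (nat_lit 426316) (nat_lit 12) (.e (nat_lit 475185) (nat_lit 29) (.e (nat_lit 557098) (nat_lit 13) (.e (nat_lit 172141) (nat_lit 23) .nil))))) (.g (nat_lit 0) (.e (nat_lit 221448) (nat_lit 0) .nil) .nil))) 
(.lf (nat_lit 519999) (.g (nat_lit 3203) (.e (nat_lit 204829) (nat_lit 18) (.e (nat_lit 57691) (nat_lit 156) (.e (nat_lit 163905) (nat_lit 12) (.e (nat_lit 426568) (nat_lit 34) (.e (nat_lit 393281) (nat_lit 23) (.e (nat_lit 426137) (nat_lit 3) .nil)))))) (.g (nat_lit 1) (.e (nat_lit 223428) (nat_lit 0) .nil) .nil))))) (.nd (nat_lit 8) (.nd (nat_lit 9) 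
(.lf (nat_lit 519359) (.g (nat_lit 1524) (.e (nat_lit 204809) (nat_lit 9) (.e (nat_lit 426099) (nat_lit 1) (.e (nat_lit 164398) (nat_lit 256) (.e (nat_lit 57409) (nat_lit 12) (.e (nat_lit 336430) (nat_lit 29) .nil))))) (.g (nat_lit 0) (.e (nat_lit 220872) (nat_lit 0) .nil) .nil))) 
(.lf (nat_lit 519871) (.g (nat_lit 2160) (.e (nat_lit 204819) (nat_lit 17) (.e (nat_lit 6113) (nat_lit 332) (.e (nat_lit 2810) (nat_lit 180) (.e (nat_lit 303117) (nat_lit 2) (.e (nat_lit 196668) (nat_lit 14) (.e (nat_lit 73782) (nat_lit 32) (.e (nat_lit 2682) (nat_lit 168) .nil))))))) (.g (nat_lit 1) (.e (nat_lit 223230) (nat_lit 0) .nil) .nil)))) (.nd (nat_lit 9) 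
(.lf (nat_lit 519615) (.g (nat_lit 2596) (.e (nat_lit 204812) (nat_lit 9) (.e (nat_lit 426124) (nat_lit 2) (.e (nat_lit 196656) (nat_lit 11) (.e (nat_lit 16412) (nat_lit 2) (.e (nat_lit 196654) (nat_lit 11) .nil))))) (.g (nat_lit 0) (.e (nat_lit 221716) (nat_lit 0) .nil) .nil))) 
(.lf (nat_lit 520127) (.g (nat_lit 2584) (.e (nat_lit 204829) (nat_lit 18) (.e (nat_lit 57926) (nat_lit 282) (.e (nat_lit 163874) (nat_lit 3) (.e (nat_lit 204854) (nat_lit 26) (.e (nat_lit 336019) (nat_lit 3) (.e (nat_lit 98342) (nat_lit 20) (.e (nat_lit 221213) (nat_lit 23) .nil))))))) (.g (nat_lit 1) (.e (nat_lit 223588) (nat_lit 0) .nil) .nil)))))) 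
(.nd (nat_lit 7) (.nd (nat_lit 8) (.nd (nat_lit 9) 
(.lf (nat_lit 519295) (.g (nat_lit 1635) (.e (nat_lit 196698) (nat_lit 19) (.e (nat_lit 57813) (nat_lit 246) (.e (nat_lit 57878) (nat_lit 270) (.e (nat_lit 371) (nat_lit 32) (.e (nat_lit 426555) (nat_lit 32) (.e (nat_lit 384768) (nat_lit 2) .nil)))))) (.g (nat_lit 1) (.e (nat_lit 220560) (nat_lit 0) .nil) .nil))) 
(.lf (nat_lit 519807) (.g (nat_lit 3321) (.e (nat_lit 212736) (nat_lit 9) (.e (nat_lit 426436) (nat_lit 18) (.e (nat_lit 98358) (nat_lit 26) (.e (nat_lit 426131) (nat_lit 3) (.e (nat_lit 204838) (nat_lit 20) .nil))))) (.g (nat_lit 0) (.e (nat_lit 222510) (nat_lit 0) .nil) .nil)))) (.nd (nat_lit 9) 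
(.lf (nat_lit 519551) (.g (nat_lit 1797) (.e (nat_lit 204811) (nat_lit 9) (.e (nat_lit 426261) (nat_lit 9) (.e (nat_lit 426503) (nat_lit 27) (.e (nat_lit 336387) (nat_lit 27) (.e (nat_lit 426098) (nat_lit 1) (.e (nat_lit 164325) (nat_lit 230) (.e (nat_lit 163875) (nat_lit 3) .nil))))))) (.g (nat_lit 1) (.e (nat_lit 221639) (nat_lit 0) .nil) .nil))) 
(.lf (nat_lit 520063) (.g (nat_lit 2365) (.e (nat_lit 204829) (nat_lit 18) (.e (nat_lit 57849) (nat_lit 252) (.e (nat_lit 57379) (nat_lit 3) (.e (nat_lit 98341) (nat_lit 20) (.e (nat_lit 221210) (nat_lit 22) .nil))))) (.g (nat_lit 0) (.e (nat_lit 223519) (nat_lit 0) .nil) .nil))))) (.nd (nat_lit 8) (.nd (nat_lit 9) 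
(.lf (nat_lit 519423) (.g (nat_lit 4079) (.e (nat_lit 204809) (nat_lit 9) (.e (nat_lit 426139) (nat_lit 3) (.e (nat_lit 204833) (nat_lit 19) (.e (nat_lit 106539) (nat_lit 12) (.e (nat_lit 57466) (nat_lit 23) (.e (nat_lit 516115) (nat_lit 1) (.e (nat_lit 164325) (nat_lit 230) (.e (nat_lit 163873) (nat_lit 3) .nil)))))))) (.g (nat_lit 1) (.e (nat_lit 221194) (nat_lit 0) .nil) .nil))) 
(.lf (nat_lit 519935) (.g (nat_lit 1480) (.e (nat_lit 204828) (nat_lit 18) (.e (nat_lit 57931) (nat_lit 282) (.e (nat_lit 163869) (nat_lit 2) (.e (nat_lit 196666) (nat_lit 13) .nil)))) (.g (nat_lit 0) (.e (nat_lit 223344) (nat_lit 0) .nil) .nil)))) (.nd (nat_lit 9) 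
(.lf (nat_lit 519679) (.g (nat_lit 1148) (.e (nat_lit 204813) (nat_lit 9) (.e (nat_lit 426116) (nat_lit 2) (.e (nat_lit 196654) (nat_lit 11) (.e (nat_lit 16412) (nat_lit 2) .nil)))) (.g (nat_lit 0) (.e (nat_lit 221870) (nat_lit 0) .nil) .nil))) 
(.lf (nat_lit 520191) (.g (nat_lit 2424) (.e (nat_lit 204829) (nat_lit 18) (.e (nat_lit 57927) (nat_lit 282) (.e (nat_lit 163868) (nat_lit 2) (.e (nat_lit 196670) (nat_lit 14) (.e (nat_lit 73746) (nat_lit 3) (.e (nat_lit 516124) (nat_lit 2) (.e (nat_lit 213020) (nat_lit 9) (.e (nat_lit 2681) (nat_lit 168) .nil)))))))) (.g (nat_lit 1) (.e (nat_lit 223657) (nat_lit 0) .nil) .nil)))))))))))))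

noncomputable def tv5568 : DT := (.nd (nat_lit 0) (.nd (nat_lit 1) (.nd (nat_lit 2) (.nd (nat_lit 3) (.nd (nat_lit 4) (.nd (nat_lit 5) (.nd (nat_lit 6) (.nd (nat_lit 7) (.nd (nat_lit 8) (.nd (nat_lit 9) 
(.lf (nat_lit 520192) (.g (nat_lit 2279) (.e (nat_lit 204829) (nat_lit 18) (.e (nat_lit 57927) (nat_lit 282) (.e (nat_lit 163868) (nat_lit 2) (.e (nat_lit 196670) (nat_lit 14) (.e (nat_lit 73746) (nat_lit 3) (.e (nat_lit 516126) (nat_lit 2) (.e (nat_lit 213022) (nat_lit 9) (.e (nat_lit 2683) (nat_lit 168) .nil)))))))) (.g (nat_lit 1) (.e (nat_lit 223658) (nat_lit 0) .nil) .nil))) 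
(.lf (nat_lit 520704) (.g (nat_lit 1628) (.e (nat_lit 204831) (nat_lit 18) (.e (nat_lit 57847) (nat_lit 252) (.e (nat_lit 57406) (nat_lit 12) (.e (nat_lit 336456) (nat_lit 34) .nil)))) (.g (nat_lit 0) (.e (nat_lit 224322) (nat_lit 0) .nil) .nil)))) (.nd (nat_lit 9) 
(.lf (nat_lit 520448) (.g (nat_lit 3349) (.e (nat_lit 204830) (nat_lit 18) (.e (nat_lit 57924) (nat_lit 282) (.e (nat_lit 163867) (nat_lit 2) (.e (nat_lit 196668) (nat_lit 14) (.e (nat_lit 73747) (nat_lit 3) (.e (nat_lit 516131) (nat_lit 3) (.e (nat_lit 221213) (nat_lit 23) .nil))))))) (.g (nat_lit 1) (.e (nat_lit 223996) (nat_lit 0) .nil) .nil))) 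
(.lf (nat_lit 520960) (.g (nat_lit 1174) (.e (nat_lit 204837) (nat_lit 20) (.e (nat_lit 114696) (nat_lit 11) (.e (nat_lit 426129) (nat_lit 3) (.e (nat_lit 204878) (nat_lit 31) (.e (nat_lit 384768) (nat_lit 3) .nil))))) (.g (nat_lit 1) (.e (nat_lit 224670) (nat_lit 0) .nil) .nil))))) (.nd (nat_lit 8) (.nd (nat_lit 9) 
(.lf (nat_lit 520320) (.g (nat_lit 4041) (.e (nat_lit 204829) (nat_lit 18) (.e (nat_lit 57931) (nat_lit 282) (.e (nat_lit 163867) (nat_lit 2) (.e (nat_lit 196670) (nat_lit 14) (.e (nat_lit 73746) (nat_lit 3) (.e (nat_lit 516129) (nat_lit 3) (.e (nat_lit 221213) (nat_lit 23) .nil))))))) (.g (nat_lit 1) (.e (nat_lit 223816) (nat_lit 0) .nil) .nil))) 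
(.lf (nat_lit 520832) (.g (nat_lit 4496) (.e (nat_lit 204831) (nat_lit 18) (.e (nat_lit 57931) (nat_lit 282) (.e (nat_lit 163869) (nat_lit 2) (.e (nat_lit 196670) (nat_lit 14) (.e (nat_lit 73746) (nat_lit 3) (.e (nat_lit 516124) (nat_lit 2) (.e (nat_lit 213013) (nat_lit 9) (.e (nat_lit 2681) (nat_lit 168) .nil)))))))) (.g (nat_lit 1) (.e (nat_lit 224496) (nat_lit 0) .nil) .nil)))) 
(.nd (nat_lit 9) 
(.lf (nat_lit 520576) (.g (nat_lit 2487) (.e (nat_lit 204830) (nat_lit 18) (.e (nat_lit 57927) (nat_lit 282) (.e (nat_lit 163869) (nat_lit 2) (.e (nat_lit 196670) (nat_lit 14) (.e (nat_lit 73748) (nat_lit 3) .nil))))) (.g (nat_lit 0) (.e (nat_lit 224147) (nat_lit 0) .nil) .nil))) 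
(.lf (nat_lit 521088) (.g (nat_lit 2710) (.e (nat_lit 204837) (nat_lit 20) (.e (nat_lit 114714) (nat_lit 22) (.e (nat_lit 90172) (nat_lit 14) (.e (nat_lit 180244) (nat_lit 5) (.e (nat_lit 532503) (nat_lit 1) (.e (nat_lit 57657) (nat_lit 152) (.e (nat_lit 2433) (nat_lit 157) (.e (nat_lit 2685) (nat_lit 168) .nil)))))))) (.g (nat_lit 1) (.e (nat_lit 224910) (nat_lit 0) .nil) .nil)))))) 
(.nd (nat_lit 7) (.nd (nat_lit 8) (.nd (nat_lit 9) 
(.lf (nat_lit 520256) (.g (nat_lit 2803) (.e (nat_lit 204829) (nat_lit 18) (.e (nat_lit 57927) (nat_lit 282) (.e (nat_lit 163871) (nat_lit 2) (.e (nat_lit 196668) (nat_lit 14) (.e (nat_lit 73746) (nat_lit 3) (.e (nat_lit 516124) (nat_lit 2) (.e (nat_lit 213013) (nat_lit 9) (.e (nat_lit 2684) (nat_lit 168) .nil)))))))) (.g (nat_lit 1) (.e (nat_lit 223745) (nat_lit 0) .nil) .nil))) 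
(.lf (nat_lit 520768) (.g (nat_lit 3800) (.e (nat_lit 204831) (nat_lit 18) (.e (nat_lit 57853) (nat_lit 252) (.e (nat_lit 57406) (nat_lit 12) (.e (nat_lit 336454) (nat_lit 34) (.e (nat_lit 483379) (nat_lit 23) .nil))))) (.g (nat_lit 0) (.e (nat_lit 224396) (nat_lit 0) .nil) .nil)))) (.nd (nat_lit 9) 
(.lf (nat_lit 520512) (.g (nat_lit 4053) (.e (nat_lit 204830) (nat_lit 18) (.e (nat_lit 57926) (nat_lit 282) (.e (nat_lit 163870) (nat_lit 2) (.e (nat_lit 196666) (nat_lit 13) (.e (nat_lit 65569) (nat_lit 3) (.e (nat_lit 98341) (nat_lit 20) (.e (nat_lit 221214) (nat_lit 23) .nil))))))) (.g (nat_lit 1) (.e (nat_lit 224076) (nat_lit 0) .nil) .nil))) 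
(.lf (nat_lit 521024) (.g (nat_lit 4024) (.e (nat_lit 204837) (nat_lit 20) (.e (nat_lit 114698) (nat_lit 11) (.e (nat_lit 426133) (nat_lit 3) (.e (nat_lit 204861) (nat_lit 26) (.e (nat_lit 336088) (nat_lit 9) (.e (nat_lit 336324) (nat_lit 18) .nil)))))) (.g (nat_lit 1) (.e (nat_lit 224807) (nat_lit 0) .nil) .nil))))) (.nd (nat_lit 8) (.nd (nat_lit 9) 
(.lf (nat_lit 520384) (.g (nat_lit 1875) (.e (nat_lit 204830) (nat_lit 18) (.e (nat_lit 57692) (nat_lit 156) (.e (nat_lit 163907) (nat_lit 12) (.e (nat_lit 426507) (nat_lit 27) (.e (nat_lit 336408) (nat_lit 27) .nil))))) (.g (nat_lit 0) (.e (nat_lit 223918) (nat_lit 0) .nil) .nil))) 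
(.lf (nat_lit 520896) (.g (nat_lit 285) (.e (nat_lit 204836) (nat_lit 20) (.e (nat_lit 114697) (nat_lit 11) (.e (nat_lit 426137) (nat_lit 3) .nil))) (.g (nat_lit 0) (.e (nat_lit 224590) (nat_lit 0) .nil) .nil)))) (.nd (nat_lit 9) 
(.lf (nat_lit 520640) (.g (nat_lit 3505) (.e (nat_lit 204831) (nat_lit 18) (.e (nat_lit 57688) (nat_lit 156) (.e (nat_lit 163873) (nat_lit 3) (.e (nat_lit 204837) (nat_lit 20) (.e (nat_lit 114715) (nat_lit 22) (.e (nat_lit 90170) (nat_lit 13) (.e (nat_lit 172065) (nat_lit 3) .nil))))))) (.g (nat_lit 1) (.e (nat_lit 224229) (nat_lit 0) .nil) .nil))) 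
(.lf (nat_lit 521152) (.g (nat_lit 3847) (.e (nat_lit 204837) (nat_lit 20) (.e (nat_lit 114718) (nat_lit 23) (.e (nat_lit 98356) (nat_lit 26) (.e (nat_lit 426438) (nat_lit 18) (.e (nat_lit 98335) (nat_lit 18) (.e (nat_lit 164330) (nat_lit 230) (.e (nat_lit 163872) (nat_lit 3) .nil))))))) (.g (nat_lit 1) (.e (nat_lit 224995) (nat_lit 0) .nil) .nil))))))) 
(.nd (nat_lit 6) (.nd (nat_lit 7) (.nd (nat_lit 8) (.nd (nat_lit 9) 
(.lf (nat_lit 520224) (.g (nat_lit 4106) (.e (nat_lit 204829) (nat_lit 18) (.e (nat_lit 57927) (nat_lit 282) (.e (nat_lit 163869) (nat_lit 2) (.e (nat_lit 196670) (nat_lit 14) (.e (nat_lit 73746) (nat_lit 3) (.e (nat_lit 516124) (nat_lit 2) (.e (nat_lit 213019) (nat_lit 9) (.e (nat_lit 2675) (nat_lit 168) .nil)))))))) (.g (nat_lit 1) (.e (nat_lit 223707) (nat_lit 0) .nil) .nil))) 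
(.lf (nat_lit 520736) (.g (nat_lit 1243) (.e (nat_lit 204831) (nat_lit 18) (.e (nat_lit 57849) (nat_lit 252) (.e (nat_lit 57407) (nat_lit 12) (.e (nat_lit 336455) (nat_lit 34) .nil)))) (.g (nat_lit 0) (.e (nat_lit 224360) (nat_lit 0) .nil) .nil)))) (.nd (nat_lit 9) 
(.lf (nat_lit 520480) (.g (nat_lit 3564) (.e (nat_lit 204830) (nat_lit 18) (.e (nat_lit 57926) (nat_lit 282) (.e (nat_lit 163868) (nat_lit 2) (.e (nat_lit 196670) (nat_lit 14) (.e (nat_lit 73746) (nat_lit 3) (.e (nat_lit 516131) (nat_lit 3) (.e (nat_lit 221213) (nat_lit 23) .nil))))))) (.g (nat_lit 1) (.e (nat_lit 224034) (nat_lit 0) .nil) .nil))) 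
(.lf (nat_lit 520992) (.g (nat_lit 1248) (.e (nat_lit 204837) (nat_lit 20) (.e (nat_lit 114697) (nat_lit 11) (.e (nat_lit 426138) (nat_lit 3) (.e (nat_lit 204865) (nat_lit 28) (.e (nat_lit 360192) (nat_lit 3) .nil))))) (.g (nat_lit 1) (.e (nat_lit 224724) (nat_lit 0) .nil) .nil))))) (.nd (nat_lit 8) (.nd (nat_lit 9) 
(.lf (nat_lit 520352) (.g (nat_lit 2041) (.e (nat_lit 204830) (nat_lit 18) (.e (nat_lit 57685) (nat_lit 156) (.e (nat_lit 163905) (nat_lit 12) (.e (nat_lit 426566) (nat_lit 34) (.e (nat_lit 393271) (nat_lit 23) .nil))))) (.g (nat_lit 0) (.e (nat_lit 223863) (nat_lit 0) .nil) .nil))) 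
(.lf (nat_lit 520864) (.g (nat_lit 1594) (.e (nat_lit 204834) (nat_lit 19) (.e (nat_lit 106534) (nat_lit 11) (.e (nat_lit 16415) (nat_lit 3) (.e (nat_lit 204859) (nat_lit 26) .nil)))) (.g (nat_lit 0) (.e (nat_lit 224547) (nat_lit 0) .nil) .nil)))) (.nd (nat_lit 9) 
(.lf (nat_lit 520608) (.g (nat_lit 2168) (.e (nat_lit 204830) (nat_lit 18) (.e (nat_lit 57931) (nat_lit 282) (.e (nat_lit 163867) (nat_lit 2) (.e (nat_lit 196668) (nat_lit 14) (.e (nat_lit 73747) (nat_lit 3) .nil))))) (.g (nat_lit 0) (.e (nat_lit 224185) (nat_lit 0) .nil) .nil))) 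
(.lf (nat_lit 521120) (.g (nat_lit 2136) (.e (nat_lit 204837) (nat_lit 20) (.e (nat_lit 114715) (nat_lit 22) (.e (nat_lit 90170) (nat_lit 13) (.e (nat_lit 172046) (nat_lit 0) (.e (nat_lit 3238) (nat_lit 197) .nil))))) (.g (nat_lit 0) (.e (nat_lit 224947) (nat_lit 0) .nil) .nil)))))) (.nd (nat_lit 7) (.nd (nat_lit 8) (.nd (nat_lit 9) 
(.lf (nat_lit 520288) (.g (nat_lit 2497) (.e (nat_lit 204829) (nat_lit 18) (.e (nat_lit 57927) (nat_lit 282) (.e (nat_lit 163874) (nat_lit 3) (.e (nat_lit 204863) (nat_lit 27) (.e (nat_lit 344120) (nat_lit 21) .nil))))) (.g (nat_lit 0) (.e (nat_lit 223778) (nat_lit 0) .nil) .nil))) 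
(.lf (nat_lit 520800) (.g (nat_lit 2290) (.e (nat_lit 204831) (nat_lit 18) (.e (nat_lit 57931) (nat_lit 282) (.e (nat_lit 163866) (nat_lit 2) (.e (nat_lit 196670) (nat_lit 14) (.e (nat_lit 73746) (nat_lit 3) (.e (nat_lit 516124) (nat_lit 2) (.e (nat_lit 213013) (nat_lit 9) (.e (nat_lit 2681) (nat_lit 168) .nil)))))))) (.g (nat_lit 1) (.e (nat_lit 224448) (nat_lit 0) .nil) .nil)))) 
(.nd (nat_lit 9) 
(.lf (nat_lit 520544) (.g (nat_lit 4673) (.e (nat_lit 204830) (nat_lit 18) (.e (nat_lit 57926) (nat_lit 282) (.e (nat_lit 163875) (nat_lit 3) (.e (nat_lit 204862) (nat_lit 27) (.e (nat_lit 344117) (nat_lit 21) (.e (nat_lit 516130) (nat_lit 3) (.e (nat_lit 221213) (nat_lit 23) .nil))))))) (.g (nat_lit 1) (.e (nat_lit 224111) (nat_lit 0) .nil) .nil))) 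
(.lf (nat_lit 521056) (.g (nat_lit 3684) (.e (nat_lit 204837) (nat_lit 20) (.e (nat_lit 114698) (nat_lit 11) (.e (nat_lit 426139) (nat_lit 3) (.e (nat_lit 204861) (nat_lit 26) (.e (nat_lit 336076) (nat_lit 9) (.e (nat_lit 336325) (nat_lit 18) .nil)))))) (.g (nat_lit 1) (.e (nat_lit 224845) (nat_lit 0) .nil) .nil))))) (.nd (nat_lit 8) (.nd (nat_lit 9) 
(.lf (nat_lit 520416) (.g (nat_lit 2424) (.e (nat_lit 204830) (nat_lit 18) (.e (nat_lit 57854) (nat_lit 252) (.e (nat_lit 57378) (nat_lit 3) (.e (nat_lit 98340) (nat_lit 20) (.e (nat_lit 221214) (nat_lit 23) .nil))))) (.g (nat_lit 0) (.e (nat_lit 223961) (nat_lit 0) .nil) .nil))) 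
(.lf (nat_lit 520928) (.g (nat_lit 1850) (.e (nat_lit 204836) (nat_lit 20) (.e (nat_lit 114718) (nat_lit 23) (.e (nat_lit 98367) (nat_lit 27) (.e (nat_lit 434234) (nat_lit 23) .nil)))) (.g (nat_lit 0) (.e (nat_lit 224627) (nat_lit 0) .nil) .nil)))) (.nd (nat_lit 9) 
(.lf (nat_lit 520672) (.g (nat_lit 2465) (.e (nat_lit 204831) (nat_lit 18) (.e (nat_lit 57844) (nat_lit 252) (.e (nat_lit 57406) (nat_lit 12) (.e (nat_lit 336454) (nat_lit 34) (.e (nat_lit 483380) (nat_lit 23) .nil))))) (.g (nat_lit 0) (.e (nat_lit 224290) (nat_lit 0) .nil) .nil))) 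
(.lf (nat_lit 521184) (.g (nat_lit 3431) (.e (nat_lit 204837) (nat_lit 20) (.e (nat_lit 114719) (nat_lit 23) (.e (nat_lit 98356) (nat_lit 26) (.e (nat_lit 426438) (nat_lit 18) (.e (nat_lit 98334) (nat_lit 18) (.e (nat_lit 164305) (nat_lit 226) (.e (nat_lit 2433) (nat_lit 157) (.e (nat_lit 2685) (nat_lit 168) .nil)))))))) (.g (nat_lit 1) (.e (nat_lit 225041) (nat_lit 0) .nil) .nil)))))))) 
(.nd (nat_lit 5) (.nd (nat_lit 6) (.nd (nat_lit 7) (.nd (nat_lit 8) (.nd (nat_lit 9) 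
(.lf (nat_lit 520208) (.g (nat_lit 2805) (.e (nat_lit 204829) (nat_lit 18) (.e (nat_lit 57927) (nat_lit 282) (.e (nat_lit 163869) (nat_lit 2) (.e (nat_lit 196670) (nat_lit 14) (.e (nat_lit 73746) (nat_lit 3) (.e (nat_lit 516122) (nat_lit 2) (.e (nat_lit 213022) (nat_lit 9) (.e (nat_lit 2683) (nat_lit 168) .nil)))))))) (.g (nat_lit 1) (.e (nat_lit 223691) (nat_lit 0) .nil) .nil))) 
(.lf (nat_lit 520720) (.g (nat_lit 1311) (.e (nat_lit 204831) (nat_lit 18) (.e (nat_lit 57847) (nat_lit 252) (.e (nat_lit 57448) (nat_lit 19) (.e (nat_lit 393224) (nat_lit 9) .nil)))) (.g (nat_lit 0) (.e (nat_lit 224339) (nat_lit 0) .nil) .nil)))) (.nd (nat_lit 9) 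
(.lf (nat_lit 520464) (.g (nat_lit 3725) (.e (nat_lit 204830) (nat_lit 18) (.e (nat_lit 57926) (nat_lit 282) (.e (nat_lit 163867) (nat_lit 2) (.e (nat_lit 196670) (nat_lit 14) (.e (nat_lit 73746) (nat_lit 3) (.e (nat_lit 516124) (nat_lit 2) (.e (nat_lit 213019) (nat_lit 9) (.e (nat_lit 2681) (nat_lit 168) .nil)))))))) (.g (nat_lit 1) (.e (nat_lit 224017) (nat_lit 0) .nil) .nil))) 
(.lf (nat_lit 520976) (.g (nat_lit 1994) (.e (nat_lit 204837) (nat_lit 20) (.e (nat_lit 114697) (nat_lit 11) (.e (nat_lit 426137) (nat_lit 3) (.e (nat_lit 204861) (nat_lit 26) (.e (nat_lit 336074) (nat_lit 9) (.e (nat_lit 336324) (nat_lit 18) .nil)))))) (.g (nat_lit 1) (.e (nat_lit 224706) (nat_lit 0) .nil) .nil))))) (.nd (nat_lit 8) (.nd (nat_lit 9) 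
(.lf (nat_lit 520336) (.g (nat_lit 3772) (.e (nat_lit 204829) (nat_lit 18) (.e (nat_lit 57931) (nat_lit 282) (.e (nat_lit 163869) (nat_lit 2) (.e (nat_lit 196670) (nat_lit 14) (.e (nat_lit 73746) (nat_lit 3) (.e (nat_lit 516124) (nat_lit 2) (.e (nat_lit 213022) (nat_lit 9) (.e (nat_lit 2683) (nat_lit 168) .nil)))))))) (.g (nat_lit 1) (.e (nat_lit 223837) (nat_lit 0) .nil) .nil))) 
(.lf (nat_lit 520848) (.g (nat_lit 3003) (.e (nat_lit 204831) (nat_lit 18) (.e (nat_lit 57931) (nat_lit 282) (.e (nat_lit 163869) (nat_lit 2) (.e (nat_lit 196670) (nat_lit 14) (.e (nat_lit 73748) (nat_lit 3) (.e (nat_lit 516131) (nat_lit 3) (.e (nat_lit 221215) (nat_lit 23) .nil))))))) (.g (nat_lit 1) (.e (nat_lit 224512) (nat_lit 0) .nil) .nil)))) (.nd (nat_lit 9) 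
(.lf (nat_lit 520592) (.g (nat_lit 1575) (.e (nat_lit 204830) (nat_lit 18) (.e (nat_lit 57927) (nat_lit 282) (.e (nat_lit 163875) (nat_lit 3) (.e (nat_lit 204850) (nat_lit 26) .nil)))) (.g (nat_lit 0) (.e (nat_lit 224168) (nat_lit 0) .nil) .nil))) 
(.lf (nat_lit 521104) (.g (nat_lit 2562) (.e (nat_lit 204837) (nat_lit 20) (.e (nat_lit 114714) (nat_lit 22) (.e (nat_lit 90174) (nat_lit 14) (.e (nat_lit 180243) (nat_lit 5) (.e (nat_lit 532501) (nat_lit 1) (.e (nat_lit 57689) (nat_lit 156) (.e (nat_lit 163872) (nat_lit 3) .nil))))))) (.g (nat_lit 1) (.e (nat_lit 224929) (nat_lit 0) .nil) .nil)))))) 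
(.nd (nat_lit 7) (.nd (nat_lit 8) (.nd (nat_lit 9) 
(.lf (nat_lit 520272) (.g (nat_lit 2742) (.e (nat_lit 204829) (nat_lit 18) (.e (nat_lit 57927) (nat_lit 282) (.e (nat_lit 163871) (nat_lit 2) (.e (nat_lit 196670) (nat_lit 14) (.e (nat_lit 73746) (nat_lit 3) (.e (nat_lit 516124) (nat_lit 2) (.e (nat_lit 213019) (nat_lit 9) (.e (nat_lit 2675) (nat_lit 168) .nil)))))))) (.g (nat_lit 1) (.e (nat_lit 223761) (nat_lit 0) .nil) .nil))) 
(.lf (nat_lit 520784) (.g (nat_lit 1892) (.e (nat_lit 204831) (nat_lit 18) (.e (nat_lit 57854) (nat_lit 252) (.e (nat_lit 57406) (nat_lit 12) (.e (nat_lit 336456) (nat_lit 34) (.e (nat_lit 483391) (nat_lit 23) (.e (nat_lit 343808) (nat_lit 18) .nil)))))) (.g (nat_lit 1) (.e (nat_lit 224429) (nat_lit 0) .nil) .nil)))) (.nd (nat_lit 9) 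
(.lf (nat_lit 520528) (.g (nat_lit 3260) (.e (nat_lit 204830) (nat_lit 18) (.e (nat_lit 57926) (nat_lit 282) (.e (nat_lit 163871) (nat_lit 2) (.e (nat_lit 196670) (nat_lit 14) (.e (nat_lit 73746) (nat_lit 3) (.e (nat_lit 516124) (nat_lit 2) (.e (nat_lit 213013) (nat_lit 9) (.e (nat_lit 2681) (nat_lit 168) .nil)))))))) (.g (nat_lit 1) (.e (nat_lit 224093) (nat_lit 0) .nil) .nil))) 
(.lf (nat_lit 521040) (.g (nat_lit 2745) (.e (nat_lit 204837) (nat_lit 20) (.e (nat_lit 114698) (nat_lit 11) (.e (nat_lit 426138) (nat_lit 3) (.e (nat_lit 204861) (nat_lit 26) (.e (nat_lit 336075) (nat_lit 9) (.e (nat_lit 336326) (nat_lit 18) .nil)))))) (.g (nat_lit 1) (.e (nat_lit 224828) (nat_lit 0) .nil) .nil))))) (.nd (nat_lit 8) (.nd (nat_lit 9) 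
(.lf (nat_lit 520400) (.g (nat_lit 1790) (.e (nat_lit 204830) (nat_lit 18) (.e (nat_lit 57852) (nat_lit 252) (.e (nat_lit 57406) (nat_lit 12) (.e (nat_lit 336450) (nat_lit 33) .nil)))) (.g (nat_lit 0) (.e (nat_lit 223938) (nat_lit 0) .nil) .nil))) 
(.lf (nat_lit 520912) (.g (nat_lit 1325) (.e (nat_lit 204836) (nat_lit 20) (.e (nat_lit 114698) (nat_lit 11) (.e (nat_lit 426139) (nat_lit 3) (.e (nat_lit 204866) (nat_lit 28) .nil)))) (.g (nat_lit 0) (.e (nat_lit 224609) (nat_lit 0) .nil) .nil)))) (.nd (nat_lit 9) 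
(.lf (nat_lit 520656) (.g (nat_lit 2960) (.e (nat_lit 204831) (nat_lit 18) (.e (nat_lit 57688) (nat_lit 156) (.e (nat_lit 163905) (nat_lit 12) (.e (nat_lit 426566) (nat_lit 34) (.e (nat_lit 393272) (nat_lit 23) .nil))))) (.g (nat_lit 0) (.e (nat_lit 224247) (nat_lit 0) .nil) .nil))) 
(.lf (nat_lit 521168) (.g (nat_lit 1273) (.e (nat_lit 204837) (nat_lit 20) (.e (nat_lit 114718) (nat_lit 23) (.e (nat_lit 98384) (nat_lit 32) (.e (nat_lit 475177) (nat_lit 24) .nil)))) (.g (nat_lit 0) (.e (nat_lit 225014) (nat_lit 0) .nil) .nil))))))) (.nd (nat_lit 6) (.nd (nat_lit 7) (.nd (nat_lit 8) (.nd (nat_lit 9) 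
(.lf (nat_lit 520240) (.g (nat_lit 3128) (.e (nat_lit 204829) (nat_lit 18) (.e (nat_lit 57927) (nat_lit 282) (.e (nat_lit 163869) (nat_lit 2) (.e (nat_lit 196670) (nat_lit 14) (.e (nat_lit 73746) (nat_lit 3) (.e (nat_lit 516127) (nat_lit 2) (.e (nat_lit 213000) (nat_lit 9) (.e (nat_lit 2680) (nat_lit 168) .nil)))))))) (.g (nat_lit 1) (.e (nat_lit 223723) (nat_lit 0) .nil) .nil))) 
(.lf (nat_lit 520752) (.g (nat_lit 1197) (.e (nat_lit 204831) (nat_lit 18) (.e (nat_lit 57851) (nat_lit 252) (.e (nat_lit 57406) (nat_lit 12) (.e (nat_lit 336370) (nat_lit 27) .nil)))) (.g (nat_lit 0) (.e (nat_lit 224377) (nat_lit 0) .nil) .nil)))) (.nd (nat_lit 9) 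
(.lf (nat_lit 520496) (.g (nat_lit 4681) (.e (nat_lit 204830) (nat_lit 18) (.e (nat_lit 57926) (nat_lit 282) (.e (nat_lit 163869) (nat_lit 2) (.e (nat_lit 196670) (nat_lit 14) (.e (nat_lit 73746) (nat_lit 3) (.e (nat_lit 516124) (nat_lit 2) (.e (nat_lit 213019) (nat_lit 9) (.e (nat_lit 2675) (nat_lit 168) .nil)))))))) (.g (nat_lit 1) (.e (nat_lit 224059) (nat_lit 0) .nil) .nil))) 
(.lf (nat_lit 521008) (.g (nat_lit 2037) (.e (nat_lit 204837) (nat_lit 20) (.e (nat_lit 114698) (nat_lit 11) (.e (nat_lit 426116) (nat_lit 2) (.e (nat_lit 196672) (nat_lit 15) (.e (nat_lit 89856) (nat_lit 3) .nil))))) (.g (nat_lit 1) (.e (nat_lit 224751) (nat_lit 0) .nil) .nil))))) (.nd (nat_lit 8) (.nd (nat_lit 9) 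
(.lf (nat_lit 520368) (.g (nat_lit 1414) (.e (nat_lit 204830) (nat_lit 18) (.e (nat_lit 57691) (nat_lit 156) (.e (nat_lit 163907) (nat_lit 12) (.e (nat_lit 433920) (nat_lit 27) .nil)))) (.g (nat_lit 0) (.e (nat_lit 223892) (nat_lit 0) .nil) .nil))) 
(.lf (nat_lit 520880) (.g (nat_lit 2173) (.e (nat_lit 204835) (nat_lit 19) (.e (nat_lit 106536) (nat_lit 11) (.e (nat_lit 16409) (nat_lit 2) (.e (nat_lit 196681) (nat_lit 17) (.e (nat_lit 131105) (nat_lit 9) .nil))))) (.g (nat_lit 0) (.e (nat_lit 224573) (nat_lit 0) .nil) .nil)))) (.nd (nat_lit 9) 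
(.lf (nat_lit 520624) (.g (nat_lit 3360) (.e (nat_lit 204830) (nat_lit 18) (.e (nat_lit 57931) (nat_lit 282) (.e (nat_lit 163869) (nat_lit 2) (.e (nat_lit 196670) (nat_lit 14) (.e (nat_lit 73746) (nat_lit 3) (.e (nat_lit 516131) (nat_lit 3) (.e (nat_lit 221213) (nat_lit 23) .nil))))))) (.g (nat_lit 1) (.e (nat_lit 224202) (nat_lit 0) .nil) .nil))) 
(.lf (nat_lit 521136) (.g (nat_lit 2843) (.e (nat_lit 204837) (nat_lit 20) (.e (nat_lit 114716) (nat_lit 22) (.e (nat_lit 90174) (nat_lit 14) (.e (nat_lit 180243) (nat_lit 5) (.e (nat_lit 532499) (nat_lit 1) (.e (nat_lit 57657) (nat_lit 152) (.e (nat_lit 2433) (nat_lit 157) (.e (nat_lit 2685) (nat_lit 168) .nil)))))))) (.g (nat_lit 1) (.e (nat_lit 224968) (nat_lit 0) .nil) .nil)))))) 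
(.nd (nat_lit 7) (.nd (nat_lit 8) (.nd (nat_lit 9) 
(.lf (nat_lit 520304) (.g (nat_lit 2811) (.e (nat_lit 204829) (nat_lit 18) (.e (nat_lit 57928) (nat_lit 282) (.e (nat_lit 163871) (nat_lit 2) (.e (nat_lit 196668) (nat_lit 14) (.e (nat_lit 73747) (nat_lit 3) (.e (nat_lit 516131) (nat_lit 3) (.e (nat_lit 221213) (nat_lit 23) .nil))))))) (.g (nat_lit 1) (.e (nat_lit 223796) (nat_lit 0) .nil) .nil))) 
(.lf (nat_lit 520816) (.g (nat_lit 2928) (.e (nat_lit 204831) (nat_lit 18) (.e (nat_lit 57931) (nat_lit 282) (.e (nat_lit 163867) (nat_lit 2) (.e (nat_lit 196670) (nat_lit 14) (.e (nat_lit 73746) (nat_lit 3) (.e (nat_lit 516127) (nat_lit 2) (.e (nat_lit 213022) (nat_lit 9) (.e (nat_lit 2681) (nat_lit 168) .nil)))))))) (.g (nat_lit 1) (.e (nat_lit 224470) (nat_lit 0) .nil) .nil)))) 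
(.nd (nat_lit 9) 
(.lf (nat_lit 520560) (.g (nat_lit 3757) (.e (nat_lit 204830) (nat_lit 18) (.e (nat_lit 57927) (nat_lit 282) (.e (nat_lit 163868) (nat_lit 2) (.e (nat_lit 196668) (nat_lit 14) (.e (nat_lit 73747) (nat_lit 3) (.e (nat_lit 516124) (nat_lit 2) (.e (nat_lit 213013) (nat_lit 9) (.e (nat_lit 2684) (nat_lit 168) .nil)))))))) (.g (nat_lit 1) (.e (nat_lit 224128) (nat_lit 0) .nil) .nil))) 
(.lf (nat_lit 521072) (.g (nat_lit 415) (.e (nat_lit 204837) (nat_lit 20) (.e (nat_lit 114714) (nat_lit 22) (.e (nat_lit 90172) (nat_lit 14) .nil))) (.g (nat_lit 0) (.e (nat_lit 224894) (nat_lit 0) .nil) .nil))))) (.nd (nat_lit 8) (.nd (nat_lit 9) 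
(.lf (nat_lit 520432) (.g (nat_lit 2719) (.e (nat_lit 204830) (nat_lit 18) (.e (nat_lit 57854) (nat_lit 252) (.e (nat_lit 57409) (nat_lit 12) (.e (nat_lit 336456) (nat_lit 34) (.e (nat_lit 483346) (nat_lit 17) (.e (nat_lit 6445) (nat_lit 343) (.e (nat_lit 172) (nat_lit 12) .nil))))))) (.g (nat_lit 1) (.e (nat_lit 223978) (nat_lit 0) .nil) .nil))) 
(.lf (nat_lit 520944) (.g (nat_lit 2783) (.e (nat_lit 204836) (nat_lit 20) (.e (nat_lit 114719) (nat_lit 23) (.e (nat_lit 98367) (nat_lit 27) (.e (nat_lit 434234) (nat_lit 23) (.e (nat_lit 532504) (nat_lit 1) (.e (nat_lit 57692) (nat_lit 156) (.e (nat_lit 163874) (nat_lit 3) .nil))))))) (.g (nat_lit 1) (.e (nat_lit 224649) (nat_lit 0) .nil) .nil)))) (.nd (nat_lit 9) 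
(.lf (nat_lit 520688) (.g (nat_lit 1899) (.e (nat_lit 204831) (nat_lit 18) (.e (nat_lit 57846) (nat_lit 252) (.e (nat_lit 57407) (nat_lit 12) (.e (nat_lit 336456) (nat_lit 34) (.e (nat_lit 483387) (nat_lit 23) (.e (nat_lit 343808) (nat_lit 18) .nil)))))) (.g (nat_lit 1) (.e (nat_lit 224306) (nat_lit 0) .nil) .nil))) 
(.lf (nat_lit 521200) (.g (nat_lit 4290) (.e (nat_lit 204837) (nat_lit 20) (.e (nat_lit 114719) (nat_lit 23) (.e (nat_lit 98366) (nat_lit 27) (.e (nat_lit 434231) (nat_lit 23) (.e (nat_lit 532500) (nat_lit 1) (.e (nat_lit 57690) (nat_lit 156) (.e (nat_lit 163874) (nat_lit 3) .nil))))))) (.g (nat_lit 1) (.e (nat_lit 225063) (nat_lit 0) .nil) .nil))))))))) 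
(.nd (nat_lit 4) (.nd (nat_lit 5) (.nd (nat_lit 6) (.nd (nat_lit 7) (.nd (nat_lit 8) 
(.nd (nat_lit 9) 
(.lf (nat_lit 520200) (.g (nat_lit 3397) (.e (nat_lit 204829) (nat_lit 18) (.e (nat_lit 57927) (nat_lit 282) (.e (nat_lit 163868) (nat_lit 2) (.e (nat_lit 196670) (nat_lit 14) (.e (nat_lit 73746) (nat_lit 3) (.e (nat_lit 516131) (nat_lit 3) (.e (nat_lit 221213) (nat_lit 23) .nil))))))) (.g (nat_lit 1) (.e (nat_lit 223666) (nat_lit 0) .nil) .nil))) 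
(.lf (nat_lit 520712) (.g (nat_lit 1919) (.e (nat_lit 204831) (nat_lit 18) (.e (nat_lit 57847) (nat_lit 252) (.e (nat_lit 57411) (nat_lit 12) (.e (nat_lit 336395) (nat_lit 27) (.e (nat_lit 426528) (nat_lit 27) .nil))))) (.g (nat_lit 0) (.e (nat_lit 224330) (nat_lit 0) .nil) .nil)))) (.nd (nat_lit 9) 
(.lf (nat_lit 520456) (.g (nat_lit 3398) (.e (nat_lit 204830) (nat_lit 18) (.e (nat_lit 57925) (nat_lit 282) (.e (nat_lit 163871) (nat_lit 2) (.e (nat_lit 196668) (nat_lit 14) (.e (nat_lit 73747) (nat_lit 3) (.e (nat_lit 516124) (nat_lit 2) (.e (nat_lit 213013) (nat_lit 9) (.e (nat_lit 2684) (nat_lit 168) .nil)))))))) (.g (nat_lit 1) (.e (nat_lit 224008) (nat_lit 0) .nil) .nil))) 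
(.lf (nat_lit 520968) (.g (nat_lit 2374) (.e (nat_lit 204837) (nat_lit 20) (.e (nat_lit 114697) (nat_lit 11) (.e (nat_lit 426133) (nat_lit 3) (.e (nat_lit 204861) (nat_lit 26) (.e (nat_lit 336076) (nat_lit 9) (.e (nat_lit 336322) (nat_lit 18) .nil)))))) (.g (nat_lit 1) (.e (nat_lit 224698) (nat_lit 0) .nil) .nil))))) (.nd (nat_lit 8) (.nd (nat_lit 9) 
(.lf (nat_lit 520328) (.g (nat_lit 3453) (.e (nat_lit 204829) (nat_lit 18) (.e (nat_lit 57931) (nat_lit 282) (.e (nat_lit 163869) (nat_lit 2) (.e (nat_lit 196668) (nat_lit 14) (.e (nat_lit 73746) (nat_lit 3) (.e (nat_lit 516131) (nat_lit 3) (.e (nat_lit 221213) (nat_lit 23) .nil))))))) (.g (nat_lit 1) (.e (nat_lit 223827) (nat_lit 0) .nil) .nil))) 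
(.lf (nat_lit 520840) (.g (nat_lit 2604) (.e (nat_lit 204831) (nat_lit 18) (.e (nat_lit 57931) (nat_lit 282) (.e (nat_lit 163869) (nat_lit 2) (.e (nat_lit 196670) (nat_lit 14) (.e (nat_lit 73746) (nat_lit 3) (.e (nat_lit 516126) (nat_lit 2) (.e (nat_lit 213022) (nat_lit 9) (.e (nat_lit 2683) (nat_lit 168) .nil)))))))) (.g (nat_lit 1) (.e (nat_lit 224504) (nat_lit 0) .nil) .nil)))) 
(.nd (nat_lit 9) 
(.lf (nat_lit 520584) (.g (nat_lit 3431) (.e (nat_lit 204830) (nat_lit 18) (.e (nat_lit 57927) (nat_lit 282) (.e (nat_lit 163873) (nat_lit 3) (.e (nat_lit 204853) (nat_lit 26) (.e (nat_lit 336019) (nat_lit 3) (.e (nat_lit 98342) (nat_lit 20) (.e (nat_lit 221213) (nat_lit 23) .nil))))))) (.g (nat_lit 1) (.e (nat_lit 224158) (nat_lit 0) .nil) .nil))) 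
(.lf (nat_lit 521096) (.g (nat_lit 3360) (.e (nat_lit 204837) (nat_lit 20) (.e (nat_lit 114714) (nat_lit 22) (.e (nat_lit 90174) (nat_lit 14) (.e (nat_lit 180243) (nat_lit 5) (.e (nat_lit 532499) (nat_lit 1) (.e (nat_lit 57652) (nat_lit 152) (.e (nat_lit 2399) (nat_lit 157) (.e (nat_lit 2685) (nat_lit 168) .nil)))))))) (.g (nat_lit 1) (.e (nat_lit 224921) (nat_lit 0) .nil) .nil)))))) 
(.nd (nat_lit 7) (.nd (nat_lit 8) (.nd (nat_lit 9) 
(.lf (nat_lit 520264) (.g (nat_lit 2641) (.e (nat_lit 204829) (nat_lit 18) (.e (nat_lit 57927) (nat_lit 282) (.e (nat_lit 163871) (nat_lit 2) (.e (nat_lit 196668) (nat_lit 14) (.e (nat_lit 73747) (nat_lit 3) (.e (nat_lit 516124) (nat_lit 2) (.e (nat_lit 213019) (nat_lit 9) (.e (nat_lit 2676) (nat_lit 168) .nil)))))))) (.g (nat_lit 1) (.e (nat_lit 223753) (nat_lit 0) .nil) .nil))) 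
(.lf (nat_lit 520776) (.g (nat_lit 2707) (.e (nat_lit 204831) (nat_lit 18) (.e (nat_lit 57854) (nat_lit 252) (.e (nat_lit 57378) (nat_lit 3) (.e (nat_lit 98337) (nat_lit 19) .nil)))) (.g (nat_lit 0) (.e (nat_lit 224418) (nat_lit 0) .nil) .nil)))) (.nd (nat_lit 9) 
(.lf (nat_lit 520520) (.g (nat_lit 3243) (.e (nat_lit 204830) (nat_lit 18) (.e (nat_lit 57926) (nat_lit 282) (.e (nat_lit 163871) (nat_lit 2) (.e (nat_lit 196668) (nat_lit 14) (.e (nat_lit 73746) (nat_lit 3) (.e (nat_lit 516124) (nat_lit 2) (.e (nat_lit 213019) (nat_lit 9) (.e (nat_lit 2681) (nat_lit 168) .nil)))))))) (.g (nat_lit 1) (.e (nat_lit 224085) (nat_lit 0) .nil) .nil))) 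
(.lf (nat_lit 521032) (.g (nat_lit 2553) (.e (nat_lit 204837) (nat_lit 20) (.e (nat_lit 114698) (nat_lit 11) (.e (nat_lit 426137) (nat_lit 3) (.e (nat_lit 204861) (nat_lit 26) (.e (nat_lit 336076) (nat_lit 9) (.e (nat_lit 336325) (nat_lit 18) .nil)))))) (.g (nat_lit 1) (.e (nat_lit 224815) (nat_lit 0) .nil) .nil))))) (.nd (nat_lit 8) (.nd (nat_lit 9) 
(.lf (nat_lit 520392) (.g (nat_lit 2566) (.e (nat_lit 204830) (nat_lit 18) (.e (nat_lit 57852) (nat_lit 252) (.e (nat_lit 57370) (nat_lit 2) (.e (nat_lit 90158) (nat_lit 11) (.e (nat_lit 24608) (nat_lit 3) (.e (nat_lit 98340) (nat_lit 20) (.e (nat_lit 221213) (nat_lit 23) .nil))))))) (.g (nat_lit 1) (.e (nat_lit 223930) (nat_lit 0) .nil) .nil))) 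
(.lf (nat_lit 520904) (.g (nat_lit 2292) (.e (nat_lit 204836) (nat_lit 20) (.e (nat_lit 114698) (nat_lit 11) (.e (nat_lit 426123) (nat_lit 2) (.e (nat_lit 196681) (nat_lit 17) .nil)))) (.g (nat_lit 0) (.e (nat_lit 224601) (nat_lit 0) .nil) .nil)))) (.nd (nat_lit 9) 
(.lf (nat_lit 520648) (.g (nat_lit 377) (.e (nat_lit 204831) (nat_lit 18) (.e (nat_lit 57688) (nat_lit 156) (.e (nat_lit 163903) (nat_lit 12) .nil))) (.g (nat_lit 0) (.e (nat_lit 224237) (nat_lit 0) .nil) .nil))) 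
(.lf (nat_lit 521160) (.g (nat_lit 3069) (.e (nat_lit 204837) (nat_lit 20) (.e (nat_lit 114718) (nat_lit 23) (.e (nat_lit 98366) (nat_lit 27) (.e (nat_lit 434231) (nat_lit 23) (.e (nat_lit 532499) (nat_lit 1) (.e (nat_lit 57691) (nat_lit 156) (.e (nat_lit 163875) (nat_lit 3) .nil))))))) (.g (nat_lit 1) (.e (nat_lit 225004) (nat_lit 0) .nil) .nil))))))) 
(.nd (nat_lit 6) (.nd (nat_lit 7) (.nd (nat_lit 8) (.nd (nat_lit 9) 
(.lf (nat_lit 520232) (.g (nat_lit 2480) (.e (nat_lit 204829) (nat_lit 18) (.e (nat_lit 57927) (nat_lit 282) (.e (nat_lit 163869) (nat_lit 2) (.e (nat_lit 196670) (nat_lit 14) (.e (nat_lit 73746) (nat_lit 3) (.e (nat_lit 516126) (nat_lit 2) (.e (nat_lit 213007) (nat_lit 9) (.e (nat_lit 2672) (nat_lit 168) .nil)))))))) (.g (nat_lit 1) (.e (nat_lit 223715) (nat_lit 0) .nil) .nil))) 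
(.lf (nat_lit 520744) (.g (nat_lit 913) (.e (nat_lit 204831) (nat_lit 18) (.e (nat_lit 57849) (nat_lit 252) (.e (nat_lit 57411) (nat_lit 12) (.e (nat_lit 336454) (nat_lit 34) .nil)))) (.g (nat_lit 0) (.e (nat_lit 224369) (nat_lit 0) .nil) .nil)))) (.nd (nat_lit 9) 
(.lf (nat_lit 520488) (.g (nat_lit 2887) (.e (nat_lit 204830) (nat_lit 18) (.e (nat_lit 57926) (nat_lit 282) (.e (nat_lit 163869) (nat_lit 2) (.e (nat_lit 196670) (nat_lit 14) (.e (nat_lit 73746) (nat_lit 3) (.e (nat_lit 516124) (nat_lit 2) (.e (nat_lit 213000) (nat_lit 9) (.e (nat_lit 2683) (nat_lit 168) .nil)))))))) (.g (nat_lit 1) (.e (nat_lit 224051) (nat_lit 0) .nil) .nil))) 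
(.lf (nat_lit 521000) (.g (nat_lit 2355) (.e (nat_lit 204837) (nat_lit 20) (.e (nat_lit 114697) (nat_lit 11) (.e (nat_lit 426139) (nat_lit 3) (.e (nat_lit 204861) (nat_lit 26) (.e (nat_lit 336075) (nat_lit 9) (.e (nat_lit 336325) (nat_lit 18) .nil)))))) (.g (nat_lit 1) (.e (nat_lit 224733) (nat_lit 0) .nil) .nil))))) (.nd (nat_lit 8) (.nd (nat_lit 9) 
(.lf (nat_lit 520360) (.g (nat_lit 3207) (.e (nat_lit 204830) (nat_lit 18) (.e (nat_lit 57691) (nat_lit 156) (.e (nat_lit 163905) (nat_lit 12) (.e (nat_lit 426566) (nat_lit 34) (.e (nat_lit 393272) (nat_lit 23) .nil))))) (.g (nat_lit 0) (.e (nat_lit 223876) (nat_lit 0) .nil) .nil))) 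
(.lf (nat_lit 520872) (.g (nat_lit 822) (.e (nat_lit 204834) (nat_lit 19) (.e (nat_lit 106536) (nat_lit 11) (.e (nat_lit 16413) (nat_lit 2) .nil))) (.g (nat_lit 0) (.e (nat_lit 224557) (nat_lit 0) .nil) .nil)))) (.nd (nat_lit 9) 
(.lf (nat_lit 520616) (.g (nat_lit 1707) (.e (nat_lit 204830) (nat_lit 18) (.e (nat_lit 57931) (nat_lit 282) (.e (nat_lit 163869) (nat_lit 2) (.e (nat_lit 196668) (nat_lit 14) .nil)))) (.g (nat_lit 0) (.e (nat_lit 224193) (nat_lit 0) .nil) .nil))) 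
(.lf (nat_lit 521128) (.g (nat_lit 4498) (.e (nat_lit 204837) (nat_lit 20) (.e (nat_lit 114715) (nat_lit 22) (.e (nat_lit 90170) (nat_lit 13) (.e (nat_lit 172067) (nat_lit 3) (.e (nat_lit 204829) (nat_lit 18) (.e (nat_lit 57691) (nat_lit 156) (.e (nat_lit 163875) (nat_lit 3) .nil))))))) (.g (nat_lit 1) (.e (nat_lit 224959) (nat_lit 0) .nil) .nil)))))) 
(.nd (nat_lit 7) (.nd (nat_lit 8) (.nd (nat_lit 9) 
(.lf (nat_lit 520296) (.g (nat_lit 2713) (.e (nat_lit 204829) (nat_lit 18) (.e (nat_lit 57927) (nat_lit 282) (.e (nat_lit 163875) (nat_lit 3) (.e (nat_lit 204863) (nat_lit 27) (.e (nat_lit 344117) (nat_lit 21) (.e (nat_lit 516123) (nat_lit 2) (.e (nat_lit 213000) (nat_lit 9) (.e (nat_lit 2680) (nat_lit 168) .nil)))))))) (.g (nat_lit 1) (.e (nat_lit 223788) (nat_lit 0) .nil) .nil))) 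
(.lf (nat_lit 520808) (.g (nat_lit 2391) (.e (nat_lit 204831) (nat_lit 18) (.e (nat_lit 57931) (nat_lit 282) (.e (nat_lit 163867) (nat_lit 2) (.e (nat_lit 196670) (nat_lit 14) (.e (nat_lit 73746) (nat_lit 3) (.e (nat_lit 516124) (nat_lit 2) (.e (nat_lit 213016) (nat_lit 9) (.e (nat_lit 2683) (nat_lit 168) .nil)))))))) (.g (nat_lit 1) (.e (nat_lit 224462) (nat_lit 0) .nil) .nil)))) 
(.nd (nat_lit 9) 
(.lf (nat_lit 520552) (.g (nat_lit 2913) (.e (nat_lit 204830) (nat_lit 18) (.e (nat_lit 57927) (nat_lit 282) (.e (nat_lit 163866) (nat_lit 2) (.e (nat_lit 196668) (nat_lit 14) (.e (nat_lit 73747) (nat_lit 3) (.e (nat_lit 516131) (nat_lit 3) (.e (nat_lit 221213) (nat_lit 23) .nil))))))) (.g (nat_lit 1) (.e (nat_lit 224120) (nat_lit 0) .nil) .nil))) 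
(.lf (nat_lit 521064) (.g (nat_lit 698) (.e (nat_lit 204837) (nat_lit 20) (.e (nat_lit 122624) (nat_lit 11) (.e (nat_lit 426132) (nat_lit 3) (.e (nat_lit 204877) (nat_lit 31) (.e (nat_lit 384768) (nat_lit 3) .nil))))) (.g (nat_lit 1) (.e (nat_lit 224860) (nat_lit 0) .nil) .nil))))) (.nd (nat_lit 8) (.nd (nat_lit 9) 
(.lf (nat_lit 520424) (.g (nat_lit 1864) (.e (nat_lit 204830) (nat_lit 18) (.e (nat_lit 57854) (nat_lit 252) (.e (nat_lit 57406) (nat_lit 12) (.e (nat_lit 336456) (nat_lit 34) (.e (nat_lit 483380) (nat_lit 23) .nil))))) (.g (nat_lit 0) (.e (nat_lit 223969) (nat_lit 0) .nil) .nil))) 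
(.lf (nat_lit 520936) (.g (nat_lit 1972) (.e (nat_lit 204836) (nat_lit 20) (.e (nat_lit 114719) (nat_lit 23) (.e (nat_lit 98366) (nat_lit 27) (.e (nat_lit 434233) (nat_lit 23) (.e (nat_lit 532504) (nat_lit 1) .nil))))) (.g (nat_lit 0) (.e (nat_lit 224641) (nat_lit 0) .nil) .nil)))) (.nd (nat_lit 9) 
(.lf (nat_lit 520680) (.g (nat_lit 1364) (.e (nat_lit 204831) (nat_lit 18) (.e (nat_lit 57846) (nat_lit 252) (.e (nat_lit 57405) (nat_lit 12) (.e (nat_lit 336454) (nat_lit 34) (.e (nat_lit 483382) (nat_lit 23) .nil))))) (.g (nat_lit 0) (.e (nat_lit 224298) (nat_lit 0) .nil) .nil))) 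
(.lf (nat_lit 521192) (.g (nat_lit 2464) (.e (nat_lit 204837) (nat_lit 20) (.e (nat_lit 114719) (nat_lit 23) (.e (nat_lit 98365) (nat_lit 26) (.e (nat_lit 426124) (nat_lit 2) (.e (nat_lit 196626) (nat_lit 9) .nil))))) (.g (nat_lit 0) (.e (nat_lit 225052) (nat_lit 0) .nil) .nil)))))))) (.nd (nat_lit 5) (.nd (nat_lit 6) (.nd (nat_lit 7) (.nd (nat_lit 8) (.nd (nat_lit 9) 
(.lf (nat_lit 520216) (.g (nat_lit 2690) (.e (nat_lit 204829) (nat_lit 18) (.e (nat_lit 57927) (nat_lit 282) (.e (nat_lit 163869) (nat_lit 2) (.e (nat_lit 196670) (nat_lit 14) (.e (nat_lit 73746) (nat_lit 3) (.e (nat_lit 516124) (nat_lit 2) (.e (nat_lit 213013) (nat_lit 9) (.e (nat_lit 2675) (nat_lit 168) .nil)))))))) (.g (nat_lit 1) (.e (nat_lit 223699) (nat_lit 0) .nil) .nil))) 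
(.lf (nat_lit 520728) (.g (nat_lit 3530) (.e (nat_lit 204831) (nat_lit 18) (.e (nat_lit 57849) (nat_lit 252) (.e (nat_lit 57375) (nat_lit 2) (.e (nat_lit 90160) (nat_lit 11) (.e (nat_lit 24608) (nat_lit 3) (.e (nat_lit 98321) (nat_lit 17) (.e (nat_lit 3771) (nat_lit 229) (.e (nat_lit 794673) (nat_lit 23) .nil)))))))) (.g (nat_lit 1) (.e (nat_lit 224350) (nat_lit 0) .nil) .nil)))) (.nd (nat_lit 9) 
(.lf (nat_lit 520472) (.g (nat_lit 3477) (.e (nat_lit 204830) (nat_lit 18) (.e (nat_lit 57926) (nat_lit 282) (.e (nat_lit 163868) (nat_lit 2) (.e (nat_lit 196668) (nat_lit 14) (.e (nat_lit 73746) (nat_lit 3) (.e (nat_lit 516131) (nat_lit 3) (.e (nat_lit 221213) (nat_lit 23) .nil))))))) (.g (nat_lit 1) (.e (nat_lit 224026) (nat_lit 0) .nil) .nil))) 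
(.lf (nat_lit 520984) (.g (nat_lit 613) (.e (nat_lit 204837) (nat_lit 20) (.e (nat_lit 114697) (nat_lit 11) (.e (nat_lit 426137) (nat_lit 3) (.e (nat_lit 204867) (nat_lit 28) .nil)))) (.g (nat_lit 0) (.e (nat_lit 224715) (nat_lit 0) .nil) .nil))))) (.nd (nat_lit 8) (.nd (nat_lit 9) 
(.lf (nat_lit 520344) (.g (nat_lit 2603) (.e (nat_lit 204829) (nat_lit 18) (.e (nat_lit 57931) (nat_lit 282) (.e (nat_lit 163874) (nat_lit 3) (.e (nat_lit 204851) (nat_lit 26) (.e (nat_lit 336019) (nat_lit 3) .nil))))) (.g (nat_lit 0) (.e (nat_lit 223847) (nat_lit 0) .nil) .nil))) 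
(.lf (nat_lit 520856) (.g (nat_lit 1416) (.e (nat_lit 204833) (nat_lit 19) (.e (nat_lit 106534) (nat_lit 11) (.e (nat_lit 16415) (nat_lit 3) (.e (nat_lit 204861) (nat_lit 26) .nil)))) (.g (nat_lit 0) (.e (nat_lit 224529) (nat_lit 0) .nil) .nil)))) (.nd (nat_lit 9) 
(.lf (nat_lit 520600) (.g (nat_lit 3770) (.e (nat_lit 204830) (nat_lit 18) (.e (nat_lit 57929) (nat_lit 282) (.e (nat_lit 163869) (nat_lit 2) (.e (nat_lit 196670) (nat_lit 14) (.e (nat_lit 73746) (nat_lit 3) (.e (nat_lit 516129) (nat_lit 3) (.e (nat_lit 221213) (nat_lit 23) .nil))))))) (.g (nat_lit 1) (.e (nat_lit 224177) (nat_lit 0) .nil) .nil))) 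
(.lf (nat_lit 521112) (.g (nat_lit 2692) (.e (nat_lit 204837) (nat_lit 20) (.e (nat_lit 114714) (nat_lit 22) (.e (nat_lit 90174) (nat_lit 14) (.e (nat_lit 180243) (nat_lit 5) (.e (nat_lit 532503) (nat_lit 1) (.e (nat_lit 57688) (nat_lit 156) (.e (nat_lit 163872) (nat_lit 3) .nil))))))) (.g (nat_lit 1) (.e (nat_lit 224937) (nat_lit 0) .nil) .nil)))))) 
(.nd (nat_lit 7) (.nd (nat_lit 8) (.nd (nat_lit 9) 
(.lf (nat_lit 520280) (.g (nat_lit 2982) (.e (nat_lit 204829) (nat_lit 18) (.e (nat_lit 57927) (nat_lit 282) (.e (nat_lit 163874) (nat_lit 3) (.e (nat_lit 204853) (nat_lit 26) (.e (nat_lit 336019) (nat_lit 3) (.e (nat_lit 98342) (nat_lit 20) (.e (nat_lit 221213) (nat_lit 23) .nil))))))) (.g (nat_lit 1) (.e (nat_lit 223770) (nat_lit 0) .nil) .nil))) 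
(.lf (nat_lit 520792) (.g (nat_lit 3288) (.e (nat_lit 204831) (nat_lit 18) (.e (nat_lit 57924) (nat_lit 282) (.e (nat_lit 163867) (nat_lit 2) (.e (nat_lit 196670) (nat_lit 14) (.e (nat_lit 73746) (nat_lit 3) (.e (nat_lit 516124) (nat_lit 2) (.e (nat_lit 213019) (nat_lit 9) (.e (nat_lit 2681) (nat_lit 168) .nil)))))))) (.g (nat_lit 1) (.e (nat_lit 224439) (nat_lit 0) .nil) .nil)))) 
(.nd (nat_lit 9) 
(.lf (nat_lit 520536) (.g (nat_lit 1949) (.e (nat_lit 204830) (nat_lit 18) (.e (nat_lit 57926) (nat_lit 282) (.e (nat_lit 163874) (nat_lit 3) (.e (nat_lit 204856) (nat_lit 26) (.e (nat_lit 336028) (nat_lit 3) .nil))))) (.g (nat_lit 0) (.e (nat_lit 224101) (nat_lit 0) .nil) .nil))) 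
(.lf (nat_lit 521048) (.g (nat_lit 1831) (.e (nat_lit 204837) (nat_lit 20) (.e (nat_lit 114698) (nat_lit 11) (.e (nat_lit 426138) (nat_lit 3) (.e (nat_lit 204876) (nat_lit 31) (.e (nat_lit 384768) (nat_lit 3) .nil))))) (.g (nat_lit 1) (.e (nat_lit 224837) (nat_lit 0) .nil) .nil))))) (.nd (nat_lit 8) (.nd (nat_lit 9) 
(.lf (nat_lit 520408) (.g (nat_lit 1891) (.e (nat_lit 204830) (nat_lit 18) (.e (nat_lit 57852) (nat_lit 252) (.e (nat_lit 57409) (nat_lit 12) (.e (nat_lit 336456) (nat_lit 34) (.e (nat_lit 483391) (nat_lit 23) .nil))))) (.g (nat_lit 0) (.e (nat_lit 223947) (nat_lit 0) .nil) .nil))) 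
(.lf (nat_lit 520920) (.g (nat_lit 3997) (.e (nat_lit 204836) (nat_lit 20) (.e (nat_lit 114716) (nat_lit 22) (.e (nat_lit 90174) (nat_lit 14) (.e (nat_lit 180243) (nat_lit 5) (.e (nat_lit 532499) (nat_lit 1) (.e (nat_lit 57692) (nat_lit 156) (.e (nat_lit 163874) (nat_lit 3) .nil))))))) (.g (nat_lit 1) (.e (nat_lit 224618) (nat_lit 0) .nil) .nil)))) (.nd (nat_lit 9) 
(.lf (nat_lit 520664) (.g (nat_lit 1569) (.e (nat_lit 204831) (nat_lit 18) (.e (nat_lit 57692) (nat_lit 156) (.e (nat_lit 163905) (nat_lit 12) (.e (nat_lit 426481) (nat_lit 27) .nil)))) (.g (nat_lit 0) (.e (nat_lit 224275) (nat_lit 0) .nil) .nil))) 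
(.lf (nat_lit 521176) (.g (nat_lit 868) (.e (nat_lit 204837) (nat_lit 20) (.e (nat_lit 114719) (nat_lit 23) (.e (nat_lit 98332) (nat_lit 18) .nil))) (.g (nat_lit 0) (.e (nat_lit 225025) (nat_lit 0) .nil) .nil))))))) (.nd (nat_lit 6) (.nd (nat_lit 7) (.nd (nat_lit 8) (.nd (nat_lit 9) 
(.lf (nat_lit 520248) (.g (nat_lit 3803) (.e (nat_lit 204829) (nat_lit 18) (.e (nat_lit 57927) (nat_lit 282) (.e (nat_lit 163869) (nat_lit 2) (.e (nat_lit 196670) (nat_lit 14) (.e (nat_lit 73746) (nat_lit 3) (.e (nat_lit 516127) (nat_lit 2) (.e (nat_lit 213019) (nat_lit 9) (.e (nat_lit 2683) (nat_lit 168) .nil)))))))) (.g (nat_lit 1) (.e (nat_lit 223731) (nat_lit 0) .nil) .nil))) 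
(.lf (nat_lit 520760) (.g (nat_lit 539) (.e (nat_lit 204831) (nat_lit 18) (.e (nat_lit 57852) (nat_lit 252) (.e (nat_lit 57378) (nat_lit 3) .nil))) (.g (nat_lit 0) (.e (nat_lit 224387) (nat_lit 0) .nil) .nil)))) (.nd (nat_lit 9) 
(.lf (nat_lit 520504) (.g (nat_lit 2893) (.e (nat_lit 204830) (nat_lit 18) (.e (nat_lit 57926) (nat_lit 282) (.e (nat_lit 163869) (nat_lit 2) (.e (nat_lit 196670) (nat_lit 14) (.e (nat_lit 73746) (nat_lit 3) (.e (nat_lit 516126) (nat_lit 2) (.e (nat_lit 213022) (nat_lit 9) (.e (nat_lit 2681) (nat_lit 168) .nil)))))))) (.g (nat_lit 1) (.e (nat_lit 224067) (nat_lit 0) .nil) .nil))) 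
(.lf (nat_lit 521016) (.g (nat_lit 1959) (.e (nat_lit 204837) (nat_lit 20) (.e (nat_lit 114698) (nat_lit 11) (.e (nat_lit 426133) (nat_lit 3) (.e (nat_lit 204850) (nat_lit 26) .nil)))) (.g (nat_lit 0) (.e (nat_lit 224799) (nat_lit 0) .nil) .nil))))) (.nd (nat_lit 8) (.nd (nat_lit 9) 
(.lf (nat_lit 520376) (.g (nat_lit 2635) (.e (nat_lit 204830) (nat_lit 18) (.e (nat_lit 57692) (nat_lit 156) (.e (nat_lit 163905) (nat_lit 12) (.e (nat_lit 426479) (nat_lit 27) (.e (nat_lit 336443) (nat_lit 32) (.e (nat_lit 466979) (nat_lit 23) .nil)))))) (.g (nat_lit 1) (.e (nat_lit 223904) (nat_lit 0) .nil) .nil))) 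
(.lf (nat_lit 520888) (.g (nat_lit 1010) (.e (nat_lit 204835) (nat_lit 19) (.e (nat_lit 106536) (nat_lit 11) (.e (nat_lit 16414) (nat_lit 3) .nil))) (.g (nat_lit 0) (.e (nat_lit 224582) (nat_lit 0) .nil) .nil)))) (.nd (nat_lit 9) 
(.lf (nat_lit 520632) (.g (nat_lit 1374) (.e (nat_lit 204831) (nat_lit 18) (.e (nat_lit 57686) (nat_lit 156) (.e (nat_lit 163903) (nat_lit 12) (.e (nat_lit 426566) (nat_lit 34) .nil)))) (.g (nat_lit 0) (.e (nat_lit 224213) (nat_lit 0) .nil) .nil))) 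
(.lf (nat_lit 521144) (.g (nat_lit 1773) (.e (nat_lit 204837) (nat_lit 20) (.e (nat_lit 114717) (nat_lit 23) (.e (nat_lit 98356) (nat_lit 26) (.e (nat_lit 426438) (nat_lit 18) (.e (nat_lit 98335) (nat_lit 18) (.e (nat_lit 164325) (nat_lit 230) (.e (nat_lit 163875) (nat_lit 3) .nil))))))) (.g (nat_lit 1) (.e (nat_lit 224978) (nat_lit 0) .nil) .nil)))))) 
(.nd (nat_lit 7) (.nd (nat_lit 8) (.nd (nat_lit 9) 
(.lf (nat_lit 520312) (.g (nat_lit 1619) (.e (nat_lit 204829) (nat_lit 18) (.e (nat_lit 57931) (nat_lit 282) (.e (nat_lit 163867) (nat_lit 2) (.e (nat_lit 196667) (nat_lit 14) .nil)))) (.g (nat_lit 0) (.e (nat_lit 223804) (nat_lit 0) .nil) .nil))) 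
(.lf (nat_lit 520824) (.g (nat_lit 1946) (.e (nat_lit 204831) (nat_lit 18) (.e (nat_lit 57931) (nat_lit 282) (.e (nat_lit 163869) (nat_lit 2) (.e (nat_lit 196663) (nat_lit 13) .nil)))) (.g (nat_lit 0) (.e (nat_lit 224478) (nat_lit 0) .nil) .nil)))) (.nd (nat_lit 9) 
(.lf (nat_lit 520568) (.g (nat_lit 3506) (.e (nat_lit 204830) (nat_lit 18) (.e (nat_lit 57927) (nat_lit 282) (.e (nat_lit 163869) (nat_lit 2) (.e (nat_lit 196668) (nat_lit 14) (.e (nat_lit 73747) (nat_lit 3) (.e (nat_lit 516129) (nat_lit 3) (.e (nat_lit 221213) (nat_lit 23) .nil))))))) (.g (nat_lit 1) (.e (nat_lit 224139) (nat_lit 0) .nil) .nil))) 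
(.lf (nat_lit 521080) (.g (nat_lit 3552) (.e (nat_lit 204837) (nat_lit 20) (.e (nat_lit 114714) (nat_lit 22) (.e (nat_lit 90172) (nat_lit 14) (.e (nat_lit 180244) (nat_lit 5) (.e (nat_lit 532499) (nat_lit 1) (.e (nat_lit 57652) (nat_lit 152) (.e (nat_lit 2399) (nat_lit 157) (.e (nat_lit 2685) (nat_lit 168) .nil)))))))) (.g (nat_lit 1) (.e (nat_lit 224902) (nat_lit 0) .nil) .nil))))) 
(.nd (nat_lit 8) (.nd (nat_lit 9) 
(.lf (nat_lit 520440) (.g (nat_lit 1390) (.e (nat_lit 204830) (nat_lit 18) (.e (nat_lit 57854) (nat_lit 252) (.e (nat_lit 57445) (nat_lit 19) (.e (nat_lit 393221) (nat_lit 0) .nil)))) (.g (nat_lit 0) (.e (nat_lit 223986) (nat_lit 0) .nil) .nil))) 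
(.lf (nat_lit 520952) (.g (nat_lit 2465) (.e (nat_lit 204837) (nat_lit 20) (.e (nat_lit 114694) (nat_lit 11) (.e (nat_lit 426139) (nat_lit 3) (.e (nat_lit 204861) (nat_lit 26) (.e (nat_lit 336075) (nat_lit 9) (.e (nat_lit 336324) (nat_lit 18) .nil)))))) (.g (nat_lit 1) (.e (nat_lit 224659) (nat_lit 0) .nil) .nil)))) (.nd (nat_lit 9) 
(.lf (nat_lit 520696) (.g (nat_lit 2287) (.e (nat_lit 204831) (nat_lit 18) (.e (nat_lit 57846) (nat_lit 252) (.e (nat_lit 57447) (nat_lit 19) (.e (nat_lit 393226) (nat_lit 9) (.e (nat_lit 336116) (nat_lit 9) .nil))))) (.g (nat_lit 0) (.e (nat_lit 224314) (nat_lit 0) .nil) .nil))) 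
(.lf (nat_lit 521208) (.g (nat_lit 2590) (.e (nat_lit 204837) (nat_lit 20) (.e (nat_lit 114719) (nat_lit 23) (.e (nat_lit 98367) (nat_lit 27) (.e (nat_lit 434231) (nat_lit 23) (.e (nat_lit 532502) (nat_lit 1) .nil))))) (.g (nat_lit 0) (.e (nat_lit 225072) (nat_lit 0) .nil) .nil)))))))))) 
(.nd (nat_lit 3) (.nd (nat_lit 4) (.nd (nat_lit 5) (.nd (nat_lit 6) (.nd (nat_lit 7) 
(.nd (nat_lit 8) (.nd (nat_lit 9) 
(.lf (nat_lit 520196) (.g (nat_lit 2554) (.e (nat_lit 204829) (nat_lit 18) (.e (nat_lit 57927) (nat_lit 282) (.e (nat_lit 163868) (nat_lit 2) (.e (nat_lit 196670) (nat_lit 14) (.e (nat_lit 73746) (nat_lit 3) (.e (nat_lit 516127) (nat_lit 2) (.e (nat_lit 213019) (nat_lit 9) (.e (nat_lit 2676) (nat_lit 168) .nil)))))))) (.g (nat_lit 1) (.e (nat_lit 223662) (nat_lit 0) .nil) .nil))) 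
(.lf (nat_lit 520708) (.g (nat_lit 1934) (.e (nat_lit 204831) (nat_lit 18) (.e (nat_lit 57847) (nat_lit 252) (.e (nat_lit 57407) (nat_lit 12) (.e (nat_lit 336456) (nat_lit 34) (.e (nat_lit 483387) (nat_lit 23) .nil))))) (.g (nat_lit 0) (.e (nat_lit 224326) (nat_lit 0) .nil) .nil)))) (.nd (nat_lit 9) 
(.lf (nat_lit 520452) (.g (nat_lit 3603) (.e (nat_lit 204830) (nat_lit 18) (.e (nat_lit 57924) (nat_lit 282) (.e (nat_lit 163867) (nat_lit 2) (.e (nat_lit 196670) (nat_lit 14) (.e (nat_lit 73746) (nat_lit 3) (.e (nat_lit 516131) (nat_lit 3) (.e (nat_lit 221213) (nat_lit 23) .nil))))))) (.g (nat_lit 1) (.e (nat_lit 224000) (nat_lit 0) .nil) .nil))) 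
(.lf (nat_lit 520964) (.g (nat_lit 2252) (.e (nat_lit 204837) (nat_lit 20) (.e (nat_lit 114697) (nat_lit 11) (.e (nat_lit 426133) (nat_lit 3) (.e (nat_lit 204861) (nat_lit 26) (.e (nat_lit 336074) (nat_lit 9) (.e (nat_lit 336324) (nat_lit 18) .nil)))))) (.g (nat_lit 1) (.e (nat_lit 224694) (nat_lit 0) .nil) .nil))))) (.nd (nat_lit 8) (.nd (nat_lit 9) 
(.lf (nat_lit 520324) (.g (nat_lit 3603) (.e (nat_lit 204829) (nat_lit 18) (.e (nat_lit 57931) (nat_lit 282) (.e (nat_lit 163869) (nat_lit 2) (.e (nat_lit 196666) (nat_lit 13) (.e (nat_lit 65569) (nat_lit 3) (.e (nat_lit 98341) (nat_lit 20) (.e (nat_lit 221213) (nat_lit 23) .nil))))))) (.g (nat_lit 1) (.e (nat_lit 223820) (nat_lit 0) .nil) .nil))) 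
(.lf (nat_lit 520836) (.g (nat_lit 3159) (.e (nat_lit 204831) (nat_lit 18) (.e (nat_lit 57931) (nat_lit 282) (.e (nat_lit 163869) (nat_lit 2) (.e (nat_lit 196670) (nat_lit 14) (.e (nat_lit 73746) (nat_lit 3) (.e (nat_lit 516124) (nat_lit 2) (.e (nat_lit 213018) (nat_lit 9) (.e (nat_lit 2681) (nat_lit 168) .nil)))))))) (.g (nat_lit 1) (.e (nat_lit 224500) (nat_lit 0) .nil) .nil)))) 
(.nd (nat_lit 9) 
(.lf (nat_lit 520580) (.g (nat_lit 2025) (.e (nat_lit 204830) (nat_lit 18) (.e (nat_lit 57927) (nat_lit 282) (.e (nat_lit 163871) (nat_lit 2) (.e (nat_lit 196663) (nat_lit 13) (.e (nat_lit 65571) (nat_lit 3) .nil))))) (.g (nat_lit 0) (.e (nat_lit 224153) (nat_lit 0) .nil) .nil))) 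
(.lf (nat_lit 521092) (.g (nat_lit 2963) (.e (nat_lit 204837) (nat_lit 20) (.e (nat_lit 114714) (nat_lit 22) (.e (nat_lit 90172) (nat_lit 14) (.e (nat_lit 180244) (nat_lit 5) (.e (nat_lit 532503) (nat_lit 1) (.e (nat_lit 57688) (nat_lit 156) (.e (nat_lit 163872) (nat_lit 3) .nil))))))) (.g (nat_lit 1) (.e (nat_lit 224914) (nat_lit 0) .nil) .nil)))))) 
(.nd (nat_lit 7) (.nd (nat_lit 8) (.nd (nat_lit 9) 
(.lf (nat_lit 520260) (.g (nat_lit 2312) (.e (nat_lit 204829) (nat_lit 18) (.e (nat_lit 57927) (nat_lit 282) (.e (nat_lit 163871) (nat_lit 2) (.e (nat_lit 196668) (nat_lit 14) (.e (nat_lit 73747) (nat_lit 3) (.e (nat_lit 516124) (nat_lit 2) (.e (nat_lit 213000) (nat_lit 9) (.e (nat_lit 2680) (nat_lit 168) .nil)))))))) (.g (nat_lit 1) (.e (nat_lit 223749) (nat_lit 0) .nil) .nil))) 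
(.lf (nat_lit 520772) (.g (nat_lit 4288) (.e (nat_lit 204831) (nat_lit 18) (.e (nat_lit 57854) (nat_lit 252) (.e (nat_lit 57373) (nat_lit 2) (.e (nat_lit 90158) (nat_lit 11) (.e (nat_lit 24608) (nat_lit 3) .nil))))) (.g (nat_lit 0) (.e (nat_lit 224401) (nat_lit 0) .nil) .nil)))) (.nd (nat_lit 9) 
(.lf (nat_lit 520516) (.g (nat_lit 4078) (.e (nat_lit 204830) (nat_lit 18) (.e (nat_lit 57926) (nat_lit 282) (.e (nat_lit 163870) (nat_lit 2) (.e (nat_lit 196666) (nat_lit 13) (.e (nat_lit 65571) (nat_lit 3) (.e (nat_lit 98342) (nat_lit 20) (.e (nat_lit 221213) (nat_lit 23) .nil))))))) (.g (nat_lit 1) (.e (nat_lit 224080) (nat_lit 0) .nil) .nil))) 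
(.lf (nat_lit 521028) (.g (nat_lit 1703) (.e (nat_lit 204837) (nat_lit 20) (.e (nat_lit 114698) (nat_lit 11) (.e (nat_lit 426133) (nat_lit 3) (.e (nat_lit 204878) (nat_lit 31) .nil)))) (.g (nat_lit 0) (.e (nat_lit 224811) (nat_lit 0) .nil) .nil))))) (.nd (nat_lit 8) (.nd (nat_lit 9) 
(.lf (nat_lit 520388) (.g (nat_lit 2479) (.e (nat_lit 204830) (nat_lit 18) (.e (nat_lit 57844) (nat_lit 252) (.e (nat_lit 57406) (nat_lit 12) (.e (nat_lit 336456) (nat_lit 34) (.e (nat_lit 483379) (nat_lit 23) .nil))))) (.g (nat_lit 0) (.e (nat_lit 223926) (nat_lit 0) .nil) .nil))) 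
(.lf (nat_lit 520900) (.g (nat_lit 1229) (.e (nat_lit 204836) (nat_lit 20) (.e (nat_lit 114698) (nat_lit 11) (.e (nat_lit 426114) (nat_lit 2) (.e (nat_lit 196681) (nat_lit 17) .nil)))) (.g (nat_lit 0) (.e (nat_lit 224594) (nat_lit 0) .nil) .nil)))) (.nd (nat_lit 9) 
(.lf (nat_lit 520644) (.g (nat_lit 2057) (.e (nat_lit 204831) (nat_lit 18) (.e (nat_lit 57688) (nat_lit 156) (.e (nat_lit 163902) (nat_lit 12) (.e (nat_lit 426566) (nat_lit 34) (.e (nat_lit 393272) (nat_lit 23) (.e (nat_lit 433920) (nat_lit 3) .nil)))))) (.g (nat_lit 1) (.e (nat_lit 224233) (nat_lit 0) .nil) .nil))) 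
(.lf (nat_lit 521156) (.g (nat_lit 1344) (.e (nat_lit 204837) (nat_lit 20) (.e (nat_lit 114718) (nat_lit 23) (.e (nat_lit 98365) (nat_lit 26) (.e (nat_lit 426133) (nat_lit 3) .nil)))) (.g (nat_lit 0) (.e (nat_lit 225000) (nat_lit 0) .nil) .nil))))))) (.nd (nat_lit 6) (.nd (nat_lit 7) (.nd (nat_lit 8) (.nd (nat_lit 9) 
(.lf (nat_lit 520228) (.g (nat_lit 2977) (.e (nat_lit 204829) (nat_lit 18) (.e (nat_lit 57927) (nat_lit 282) (.e (nat_lit 163869) (nat_lit 2) (.e (nat_lit 196670) (nat_lit 14) (.e (nat_lit 73746) (nat_lit 3) (.e (nat_lit 516124) (nat_lit 2) (.e (nat_lit 213025) (nat_lit 9) (.e (nat_lit 2682) (nat_lit 168) .nil)))))))) (.g (nat_lit 1) (.e (nat_lit 223711) (nat_lit 0) .nil) .nil))) 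
(.lf (nat_lit 520740) (.g (nat_lit 2500) (.e (nat_lit 204831) (nat_lit 18) (.e (nat_lit 57849) (nat_lit 252) (.e (nat_lit 57407) (nat_lit 12) (.e (nat_lit 336456) (nat_lit 34) (.e (nat_lit 483387) (nat_lit 23) (.e (nat_lit 343808) (nat_lit 18) .nil)))))) (.g (nat_lit 1) (.e (nat_lit 224364) (nat_lit 0) .nil) .nil)))) (.nd (nat_lit 9) 
(.lf (nat_lit 520484) (.g (nat_lit 3293) (.e (nat_lit 204830) (nat_lit 18) (.e (nat_lit 57926) (nat_lit 282) (.e (nat_lit 163869) (nat_lit 2) (.e (nat_lit 196668) (nat_lit 14) (.e (nat_lit 73746) (nat_lit 3) (.e (nat_lit 516131) (nat_lit 3) (.e (nat_lit 221215) (nat_lit 23) .nil))))))) (.g (nat_lit 1) (.e (nat_lit 224042) (nat_lit 0) .nil) .nil))) 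
(.lf (nat_lit 520996) (.g (nat_lit 2280) (.e (nat_lit 204837) (nat_lit 20) (.e (nat_lit 114697) (nat_lit 11) (.e (nat_lit 426139) (nat_lit 3) (.e (nat_lit 204859) (nat_lit 26) (.e (nat_lit 336116) (nat_lit 9) (.e (nat_lit 336323) (nat_lit 18) .nil)))))) (.g (nat_lit 1) (.e (nat_lit 224729) (nat_lit 0) .nil) .nil))))) (.nd (nat_lit 8) (.nd (nat_lit 9) 
(.lf (nat_lit 520356) (.g (nat_lit 2150) (.e (nat_lit 204830) (nat_lit 18) (.e (nat_lit 57691) (nat_lit 156) (.e (nat_lit 163875) (nat_lit 3) (.e (nat_lit 204838) (nat_lit 20) (.e (nat_lit 114718) (nat_lit 23) .nil))))) (.g (nat_lit 0) (.e (nat_lit 223871) (nat_lit 0) .nil) .nil))) 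
(.lf (nat_lit 520868) (.g (nat_lit 1372) (.e (nat_lit 204834) (nat_lit 19) (.e (nat_lit 106534) (nat_lit 11) (.e (nat_lit 16416) (nat_lit 3) (.e (nat_lit 204876) (nat_lit 31) (.e (nat_lit 384768) (nat_lit 3) .nil))))) (.g (nat_lit 0) (.e (nat_lit 224551) (nat_lit 0) .nil) .nil)))) (.nd (nat_lit 9) 
(.lf (nat_lit 520612) (.g (nat_lit 2299) (.e (nat_lit 204830) (nat_lit 18) (.e (nat_lit 57931) (nat_lit 282) (.e (nat_lit 163869) (nat_lit 2) (.e (nat_lit 196666) (nat_lit 13) (.e (nat_lit 65569) (nat_lit 3) .nil))))) (.g (nat_lit 0) (.e (nat_lit 224189) (nat_lit 0) .nil) .nil))) 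
(.lf (nat_lit 521124) (.g (nat_lit 4848) (.e (nat_lit 204837) (nat_lit 20) (.e (nat_lit 114715) (nat_lit 22) (.e (nat_lit 90170) (nat_lit 13) (.e (nat_lit 172065) (nat_lit 3) (.e (nat_lit 204830) (nat_lit 18) (.e (nat_lit 57689) (nat_lit 156) (.e (nat_lit 163875) (nat_lit 3) .nil))))))) (.g (nat_lit 1) (.e (nat_lit 224954) (nat_lit 0) .nil) .nil)))))) 
(.nd (nat_lit 7) (.nd (nat_lit 8) (.nd (nat_lit 9) 
(.lf (nat_lit 520292) (.g (nat_lit 3439) (.e (nat_lit 204829) (nat_lit 18) (.e (nat_lit 57927) (nat_lit 282) (.e (nat_lit 163875) (nat_lit 3) (.e (nat_lit 204862) (nat_lit 27) (.e (nat_lit 344117) (nat_lit 21) (.e (nat_lit 516123) (nat_lit 2) (.e (nat_lit 213000) (nat_lit 9) (.e (nat_lit 2680) (nat_lit 168) .nil)))))))) (.g (nat_lit 1) (.e (nat_lit 223784) (nat_lit 0) .nil) .nil))) 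
(.lf (nat_lit 520804) (.g (nat_lit 5192) (.e (nat_lit 204831) (nat_lit 18) (.e (nat_lit 57931) (nat_lit 282) (.e (nat_lit 163867) (nat_lit 2) (.e (nat_lit 196668) (nat_lit 14) (.e (nat_lit 73747) (nat_lit 3) (.e (nat_lit 516129) (nat_lit 3) (.e (nat_lit 221214) (nat_lit 23) .nil))))))) (.g (nat_lit 1) (.e (nat_lit 224458) (nat_lit 0) .nil) .nil)))) (.nd (nat_lit 9) 
(.lf (nat_lit 520548) (.g (nat_lit 2422) (.e (nat_lit 204830) (nat_lit 18) (.e (nat_lit 57926) (nat_lit 282) (.e (nat_lit 163875) (nat_lit 3) (.e (nat_lit 204863) (nat_lit 27) (.e (nat_lit 344120) (nat_lit 21) .nil))))) (.g (nat_lit 0) (.e (nat_lit 224115) (nat_lit 0) .nil) .nil))) 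
(.lf (nat_lit 521060) (.g (nat_lit 2484) (.e (nat_lit 204837) (nat_lit 20) (.e (nat_lit 114698) (nat_lit 11) (.e (nat_lit 426139) (nat_lit 3) (.e (nat_lit 204866) (nat_lit 28) (.e (nat_lit 360192) (nat_lit 3) .nil))))) (.g (nat_lit 1) (.e (nat_lit 224849) (nat_lit 0) .nil) .nil))))) (.nd (nat_lit 8) (.nd (nat_lit 9) 
(.lf (nat_lit 520420) (.g (nat_lit 2857) (.e (nat_lit 204830) (nat_lit 18) (.e (nat_lit 57854) (nat_lit 252) (.e (nat_lit 57406) (nat_lit 12) (.e (nat_lit 336456) (nat_lit 34) (.e (nat_lit 483346) (nat_lit 17) (.e (nat_lit 6445) (nat_lit 343) (.e (nat_lit 170) (nat_lit 12) .nil))))))) (.g (nat_lit 1) (.e (nat_lit 223965) (nat_lit 0) .nil) .nil))) 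
(.lf (nat_lit 520932) (.g (nat_lit 4093) (.e (nat_lit 204836) (nat_lit 20) (.e (nat_lit 114719) (nat_lit 23) (.e (nat_lit 98366) (nat_lit 27) (.e (nat_lit 434231) (nat_lit 23) (.e (nat_lit 532499) (nat_lit 1) (.e (nat_lit 57692) (nat_lit 156) (.e (nat_lit 163874) (nat_lit 3) .nil))))))) (.g (nat_lit 1) (.e (nat_lit 224637) (nat_lit 0) .nil) .nil)))) (.nd (nat_lit 9) 
(.lf (nat_lit 520676) (.g (nat_lit 2262) (.e (nat_lit 204831) (nat_lit 18) (.e (nat_lit 57844) (nat_lit 252) (.e (nat_lit 57406) (nat_lit 12) (.e (nat_lit 336456) (nat_lit 34) (.e (nat_lit 483378) (nat_lit 23) .nil))))) (.g (nat_lit 0) (.e (nat_lit 224294) (nat_lit 0) .nil) .nil))) 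
(.lf (nat_lit 521188) (.g (nat_lit 2230) (.e (nat_lit 204837) (nat_lit 20) (.e (nat_lit 114719) (nat_lit 23) (.e (nat_lit 98356) (nat_lit 26) (.e (nat_lit 426438) (nat_lit 18) (.e (nat_lit 98335) (nat_lit 18) (.e (nat_lit 164305) (nat_lit 226) (.e (nat_lit 2450) (nat_lit 157) (.e (nat_lit 2685) (nat_lit 168) .nil)))))))) (.g (nat_lit 1) (.e (nat_lit 225045) (nat_lit 0) .nil) .nil)))))))) 
(.nd (nat_lit 5) (.nd (nat_lit 6) (.nd (nat_lit 7) (.nd (nat_lit 8) (.nd (nat_lit 9) 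
(.lf (nat_lit 520212) (.g (nat_lit 3136) (.e (nat_lit 204829) (nat_lit 18) (.e (nat_lit 57927) (nat_lit 282) (.e (nat_lit 163869) (nat_lit 2) (.e (nat_lit 196670) (nat_lit 14) (.e (nat_lit 73746) (nat_lit 3) (.e (nat_lit 516124) (nat_lit 2) (.e (nat_lit 213000) (nat_lit 9) (.e (nat_lit 2685) (nat_lit 168) .nil)))))))) (.g (nat_lit 1) (.e (nat_lit 223695) (nat_lit 0) .nil) .nil))) 
(.lf (nat_lit 520724) (.g (nat_lit 1202) (.e (nat_lit 204831) (nat_lit 18) (.e (nat_lit 57848) (nat_lit 252) (.e (nat_lit 57407) (nat_lit 12) (.e (nat_lit 336455) (nat_lit 34) .nil)))) (.g (nat_lit 0) (.e (nat_lit 224344) (nat_lit 0) .nil) .nil)))) (.nd (nat_lit 9) 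
(.lf (nat_lit 520468) (.g (nat_lit 1440) (.e (nat_lit 204830) (nat_lit 18) (.e (nat_lit 57926) (nat_lit 282) (.e (nat_lit 163868) (nat_lit 2) (.e (nat_lit 196668) (nat_lit 14) .nil)))) (.g (nat_lit 0) (.e (nat_lit 224021) (nat_lit 0) .nil) .nil))) 
(.lf (nat_lit 520980) (.g (nat_lit 2451) (.e (nat_lit 204837) (nat_lit 20) (.e (nat_lit 114697) (nat_lit 11) (.e (nat_lit 426137) (nat_lit 3) (.e (nat_lit 204861) (nat_lit 26) (.e (nat_lit 336076) (nat_lit 9) (.e (nat_lit 336325) (nat_lit 18) .nil)))))) (.g (nat_lit 1) (.e (nat_lit 224710) (nat_lit 0) .nil) .nil))))) (.nd (nat_lit 8) (.nd (nat_lit 9) 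
(.lf (nat_lit 520340) (.g (nat_lit 5976) (.e (nat_lit 204829) (nat_lit 18) (.e (nat_lit 57931) (nat_lit 282) (.e (nat_lit 163869) (nat_lit 2) (.e (nat_lit 196670) (nat_lit 14) (.e (nat_lit 73746) (nat_lit 3) (.e (nat_lit 516129) (nat_lit 3) (.e (nat_lit 221214) (nat_lit 23) .nil))))))) (.g (nat_lit 1) (.e (nat_lit 223841) (nat_lit 0) .nil) .nil))) 
(.lf (nat_lit 520852) (.g (nat_lit 2994) (.e (nat_lit 204831) (nat_lit 18) (.e (nat_lit 57931) (nat_lit 282) (.e (nat_lit 163874) (nat_lit 3) (.e (nat_lit 204863) (nat_lit 27) (.e (nat_lit 344117) (nat_lit 21) (.e (nat_lit 516123) (nat_lit 2) (.e (nat_lit 213013) (nat_lit 9) (.e (nat_lit 2681) (nat_lit 168) .nil)))))))) (.g (nat_lit 1) (.e (nat_lit 224519) (nat_lit 0) .nil) .nil)))) 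
(.nd (nat_lit 9) 
(.lf (nat_lit 520596) (.g (nat_lit 2328) (.e (nat_lit 204830) (nat_lit 18) (.e (nat_lit 57928) (nat_lit 282) (.e (nat_lit 163871) (nat_lit 2) (.e (nat_lit 196668) (nat_lit 14) (.e (nat_lit 73746) (nat_lit 3) (.e (nat_lit 516124) (nat_lit 2) (.e (nat_lit 213013) (nat_lit 9) (.e (nat_lit 2684) (nat_lit 168) .nil)))))))) (.g (nat_lit 1) (.e (nat_lit 224172) (nat_lit 0) .nil) .nil))) 
(.lf (nat_lit 521108) (.g (nat_lit 4023) (.e (nat_lit 204837) (nat_lit 20) (.e (nat_lit 114714) (nat_lit 22) (.e (nat_lit 90174) (nat_lit 14) (.e (nat_lit 180243) (nat_lit 5) (.e (nat_lit 532503) (nat_lit 1) (.e (nat_lit 57653) (nat_lit 152) (.e (nat_lit 2399) (nat_lit 157) (.e (nat_lit 2685) (nat_lit 168) .nil)))))))) (.g (nat_lit 1) (.e (nat_lit 224933) (nat_lit 0) .nil) .nil)))))) 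
(.nd (nat_lit 7) (.nd (nat_lit 8) (.nd (nat_lit 9) 
(.lf (nat_lit 520276) (.g (nat_lit 2849) (.e (nat_lit 204829) (nat_lit 18) (.e (nat_lit 57927) (nat_lit 282) (.e (nat_lit 163871) (nat_lit 2) (.e (nat_lit 196670) (nat_lit 14) (.e (nat_lit 73746) (nat_lit 3) (.e (nat_lit 516131) (nat_lit 3) (.e (nat_lit 221213) (nat_lit 23) .nil))))))) (.g (nat_lit 1) (.e (nat_lit 223765) (nat_lit 0) .nil) .nil))) 
(.lf (nat_lit 520788) (.g (nat_lit 2222) (.e (nat_lit 204831) (nat_lit 18) (.e (nat_lit 57854) (nat_lit 252) (.e (nat_lit 57409) (nat_lit 12) (.e (nat_lit 336377) (nat_lit 27) .nil)))) (.g (nat_lit 0) (.e (nat_lit 224433) (nat_lit 0) .nil) .nil)))) (.nd (nat_lit 9) 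
(.lf (nat_lit 520532) (.g (nat_lit 3481) (.e (nat_lit 204830) (nat_lit 18) (.e (nat_lit 57926) (nat_lit 282) (.e (nat_lit 163871) (nat_lit 2) (.e (nat_lit 196670) (nat_lit 14) (.e (nat_lit 73746) (nat_lit 3) (.e (nat_lit 516131) (nat_lit 3) (.e (nat_lit 221213) (nat_lit 23) .nil))))))) (.g (nat_lit 1) (.e (nat_lit 224097) (nat_lit 0) .nil) .nil))) 
(.lf (nat_lit 521044) (.g (nat_lit 2831) (.e (nat_lit 204837) (nat_lit 20) (.e (nat_lit 114698) (nat_lit 11) (.e (nat_lit 426138) (nat_lit 3) (.e (nat_lit 204861) (nat_lit 26) (.e (nat_lit 336086) (nat_lit 9) (.e (nat_lit 336324) (nat_lit 18) .nil)))))) (.g (nat_lit 1) (.e (nat_lit 224832) (nat_lit 0) .nil) .nil))))) (.nd (nat_lit 8) (.nd (nat_lit 9) 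
(.lf (nat_lit 520404) (.g (nat_lit 3345) (.e (nat_lit 204830) (nat_lit 18) (.e (nat_lit 57852) (nat_lit 252) (.e (nat_lit 57406) (nat_lit 12) (.e (nat_lit 336456) (nat_lit 34) (.e (nat_lit 483391) (nat_lit 23) (.e (nat_lit 336323) (nat_lit 18) .nil)))))) (.g (nat_lit 1) (.e (nat_lit 223943) (nat_lit 0) .nil) .nil))) 
(.lf (nat_lit 520916) (.g (nat_lit 2262) (.e (nat_lit 204836) (nat_lit 20) (.e (nat_lit 114714) (nat_lit 22) (.e (nat_lit 90172) (nat_lit 14) (.e (nat_lit 180243) (nat_lit 5) (.e (nat_lit 532502) (nat_lit 1) .nil))))) (.g (nat_lit 0) (.e (nat_lit 224614) (nat_lit 0) .nil) .nil)))) (.nd (nat_lit 9) 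
(.lf (nat_lit 520660) (.g (nat_lit 2565) (.e (nat_lit 204831) (nat_lit 18) (.e (nat_lit 57688) (nat_lit 156) (.e (nat_lit 163907) (nat_lit 12) (.e (nat_lit 426568) (nat_lit 34) (.e (nat_lit 393279) (nat_lit 23) .nil))))) (.g (nat_lit 0) (.e (nat_lit 224252) (nat_lit 0) .nil) .nil))) 
(.lf (nat_lit 521172) (.g (nat_lit 2325) (.e (nat_lit 204837) (nat_lit 20) (.e (nat_lit 114718) (nat_lit 23) (.e (nat_lit 98384) (nat_lit 32) (.e (nat_lit 475177) (nat_lit 24) (.e (nat_lit 516118) (nat_lit 1) (.e (nat_lit 164325) (nat_lit 230) (.e (nat_lit 163875) (nat_lit 3) .nil))))))) (.g (nat_lit 1) (.e (nat_lit 225019) (nat_lit 0) .nil) .nil))))))) 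
(.nd (nat_lit 6) (.nd (nat_lit 7) (.nd (nat_lit 8) (.nd (nat_lit 9) 
(.lf (nat_lit 520244) (.g (nat_lit 2434) (.e (nat_lit 204829) (nat_lit 18) (.e (nat_lit 57927) (nat_lit 282) (.e (nat_lit 163869) (nat_lit 2) (.e (nat_lit 196670) (nat_lit 14) (.e (nat_lit 73746) (nat_lit 3) (.e (nat_lit 516127) (nat_lit 2) (.e (nat_lit 213016) (nat_lit 9) (.e (nat_lit 2683) (nat_lit 168) .nil)))))))) (.g (nat_lit 1) (.e (nat_lit 223727) (nat_lit 0) .nil) .nil))) 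
(.lf (nat_lit 520756) (.g (nat_lit 2554) (.e (nat_lit 204831) (nat_lit 18) (.e (nat_lit 57851) (nat_lit 252) (.e (nat_lit 57406) (nat_lit 12) (.e (nat_lit 336455) (nat_lit 34) (.e (nat_lit 483385) (nat_lit 23) (.e (nat_lit 336324) (nat_lit 18) .nil)))))) (.g (nat_lit 1) (.e (nat_lit 224382) (nat_lit 0) .nil) .nil)))) (.nd (nat_lit 9) 
(.lf (nat_lit 520500) (.g (nat_lit 3564) (.e (nat_lit 204830) (nat_lit 18) (.e (nat_lit 57926) (nat_lit 282) (.e (nat_lit 163869) (nat_lit 2) (.e (nat_lit 196670) (nat_lit 14) (.e (nat_lit 73746) (nat_lit 3) (.e (nat_lit 516124) (nat_lit 2) (.e (nat_lit 220928) (nat_lit 9) (.e (nat_lit 2685) (nat_lit 168) .nil)))))))) (.g (nat_lit 1) (.e (nat_lit 224063) (nat_lit 0) .nil) .nil))) 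
(.lf (nat_lit 521012) (.g (nat_lit 2223) (.e (nat_lit 204837) (nat_lit 20) (.e (nat_lit 114698) (nat_lit 11) (.e (nat_lit 426124) (nat_lit 2) (.e (nat_lit 196672) (nat_lit 15) (.e (nat_lit 89856) (nat_lit 3) .nil))))) (.g (nat_lit 1) (.e (nat_lit 224790) (nat_lit 0) .nil) .nil))))) (.nd (nat_lit 8) (.nd (nat_lit 9) 
(.lf (nat_lit 520372) (.g (nat_lit 3233) (.e (nat_lit 204830) (nat_lit 18) (.e (nat_lit 57691) (nat_lit 156) (.e (nat_lit 163907) (nat_lit 12) (.e (nat_lit 426568) (nat_lit 34) (.e (nat_lit 393279) (nat_lit 23) (.e (nat_lit 426129) (nat_lit 3) .nil)))))) (.g (nat_lit 1) (.e (nat_lit 223896) (nat_lit 0) .nil) .nil))) 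
(.lf (nat_lit 520884) (.g (nat_lit 1707) (.e (nat_lit 204835) (nat_lit 19) (.e (nat_lit 106536) (nat_lit 11) (.e (nat_lit 16413) (nat_lit 2) (.e (nat_lit 196670) (nat_lit 14) (.e (nat_lit 81664) (nat_lit 40) .nil))))) (.g (nat_lit 0) (.e (nat_lit 224578) (nat_lit 0) .nil) .nil)))) (.nd (nat_lit 9) 
(.lf (nat_lit 520628) (.g (nat_lit 2482) (.e (nat_lit 204830) (nat_lit 18) (.e (nat_lit 57931) (nat_lit 282) (.e (nat_lit 163874) (nat_lit 3) (.e (nat_lit 204853) (nat_lit 26) (.e (nat_lit 336019) (nat_lit 3) .nil))))) (.g (nat_lit 0) (.e (nat_lit 224208) (nat_lit 0) .nil) .nil))) 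
(.lf (nat_lit 521140) (.g (nat_lit 3109) (.e (nat_lit 204837) (nat_lit 20) (.e (nat_lit 114716) (nat_lit 22) (.e (nat_lit 90174) (nat_lit 14) (.e (nat_lit 180243) (nat_lit 5) (.e (nat_lit 532503) (nat_lit 1) (.e (nat_lit 57653) (nat_lit 152) (.e (nat_lit 2399) (nat_lit 157) (.e (nat_lit 2685) (nat_lit 168) .nil)))))))) (.g (nat_lit 1) (.e (nat_lit 224972) (nat_lit 0) .nil) .nil)))))) 
(.nd (nat_lit 7) (.nd (nat_lit 8) (.nd (nat_lit 9) 
(.lf (nat_lit 520308) (.g (nat_lit 3087) (.e (nat_lit 204829) (nat_lit 18) (.e (nat_lit 57931) (nat_lit 282) (.e (nat_lit 163866) (nat_lit 2) (.e (nat_lit 196666) (nat_lit 13) (.e (nat_lit 65569) (nat_lit 3) (.e (nat_lit 98342) (nat_lit 20) (.e (nat_lit 221215) (nat_lit 23) .nil))))))) (.g (nat_lit 1) (.e (nat_lit 223800) (nat_lit 0) .nil) .nil))) 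
(.lf (nat_lit 520820) (.g (nat_lit 2604) (.e (nat_lit 204831) (nat_lit 18) (.e (nat_lit 57931) (nat_lit 282) (.e (nat_lit 163867) (nat_lit 2) (.e (nat_lit 196670) (nat_lit 14) (.e (nat_lit 73746) (nat_lit 3) (.e (nat_lit 516127) (nat_lit 2) (.e (nat_lit 213019) (nat_lit 9) (.e (nat_lit 2684) (nat_lit 168) .nil)))))))) (.g (nat_lit 1) (.e (nat_lit 224474) (nat_lit 0) .nil) .nil)))) 
(.nd (nat_lit 9) 
(.lf (nat_lit 520564) (.g (nat_lit 3235) (.e (nat_lit 204830) (nat_lit 18) (.e (nat_lit 57927) (nat_lit 282) (.e (nat_lit 163868) (nat_lit 2) (.e (nat_lit 196670) (nat_lit 14) (.e (nat_lit 73746) (nat_lit 3) (.e (nat_lit 516131) (nat_lit 3) (.e (nat_lit 221213) (nat_lit 23) .nil))))))) (.g (nat_lit 1) (.e (nat_lit 224132) (nat_lit 0) .nil) .nil))) 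
(.lf (nat_lit 521076) (.g (nat_lit 3588) (.e (nat_lit 204837) (nat_lit 20) (.e (nat_lit 114714) (nat_lit 22) (.e (nat_lit 90172) (nat_lit 14) (.e (nat_lit 180243) (nat_lit 5) (.e (nat_lit 532503) (nat_lit 1) (.e (nat_lit 57654) (nat_lit 152) (.e (nat_lit 2399) (nat_lit 157) (.e (nat_lit 2685) (nat_lit 168) .nil)))))))) (.g (nat_lit 1) (.e (nat_lit 224898) (nat_lit 0) .nil) .nil))))) 
(.nd (nat_lit 8) (.nd (nat_lit 9) 
(.lf (nat_lit 520436) (.g (nat_lit 1725) (.e (nat_lit 204830) (nat_lit 18) (.e (nat_lit 57854) (nat_lit 252) (.e (nat_lit 57409) (nat_lit 12) (.e (nat_lit 336456) (nat_lit 34) (.e (nat_lit 483387) (nat_lit 23) .nil))))) (.g (nat_lit 0) (.e (nat_lit 223982) (nat_lit 0) .nil) .nil))) 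
(.lf (nat_lit 520948) (.g (nat_lit 1163) (.e (nat_lit 204837) (nat_lit 20) (.e (nat_lit 114694) (nat_lit 11) (.e (nat_lit 426133) (nat_lit 3) (.e (nat_lit 204861) (nat_lit 26) .nil)))) (.g (nat_lit 0) (.e (nat_lit 224654) (nat_lit 0) .nil) .nil)))) (.nd (nat_lit 9) 
(.lf (nat_lit 520692) (.g (nat_lit 2501) (.e (nat_lit 204831) (nat_lit 18) (.e (nat_lit 57846) (nat_lit 252) (.e (nat_lit 57411) (nat_lit 12) (.e (nat_lit 336454) (nat_lit 34) (.e (nat_lit 483384) (nat_lit 23) .nil))))) (.g (nat_lit 0) (.e (nat_lit 224310) (nat_lit 0) .nil) .nil))) 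
(.lf (nat_lit 521204) (.g (nat_lit 3282) (.e (nat_lit 204837) (nat_lit 20) (.e (nat_lit 114719) (nat_lit 23) (.e (nat_lit 98367) (nat_lit 27) (.e (nat_lit 434231) (nat_lit 23) (.e (nat_lit 532483) (nat_lit 0) .nil))))) (.g (nat_lit 0) (.e (nat_lit 225068) (nat_lit 0) .nil) .nil))))))))) (.nd (nat_lit 4) (.nd (nat_lit 5) (.nd (nat_lit 6) (.nd (nat_lit 7) (.nd (nat_lit 8) (.nd (nat_lit 9) 
(.lf (nat_lit 520204) (.g (nat_lit 3135) (.e (nat_lit 204829) (nat_lit 18) (.e (nat_lit 57927) (nat_lit 282) (.e (nat_lit 163869) (nat_lit 2) (.e (nat_lit 196668) (nat_lit 14) (.e (nat_lit 73746) (nat_lit 3) (.e (nat_lit 516131) (nat_lit 3) (.e (nat_lit 221214) (nat_lit 23) .nil))))))) (.g (nat_lit 1) (.e (nat_lit 223678) (nat_lit 0) .nil) .nil))) 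
(.lf (nat_lit 520716) (.g (nat_lit 1397) (.e (nat_lit 204831) (nat_lit 18) (.e (nat_lit 57847) (nat_lit 252) (.e (nat_lit 57445) (nat_lit 19) (.e (nat_lit 393227) (nat_lit 9) (.e (nat_lit 336113) (nat_lit 9) .nil))))) (.g (nat_lit 0) (.e (nat_lit 224335) (nat_lit 0) .nil) .nil)))) (.nd (nat_lit 9) 
(.lf (nat_lit 520460) (.g (nat_lit 2400) (.e (nat_lit 204830) (nat_lit 18) (.e (nat_lit 57926) (nat_lit 282) (.e (nat_lit 163867) (nat_lit 2) (.e (nat_lit 196668) (nat_lit 14) (.e (nat_lit 73746) (nat_lit 3) .nil))))) (.g (nat_lit 0) (.e (nat_lit 224013) (nat_lit 0) .nil) .nil))) 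
(.lf (nat_lit 520972) (.g (nat_lit 2262) (.e (nat_lit 204837) (nat_lit 20) (.e (nat_lit 114697) (nat_lit 11) (.e (nat_lit 426133) (nat_lit 3) (.e (nat_lit 204861) (nat_lit 26) (.e (nat_lit 336086) (nat_lit 9) (.e (nat_lit 336324) (nat_lit 18) .nil)))))) (.g (nat_lit 1) (.e (nat_lit 224702) (nat_lit 0) .nil) .nil))))) (.nd (nat_lit 8) (.nd (nat_lit 9) 
(.lf (nat_lit 520332) (.g (nat_lit 2012) (.e (nat_lit 204829) (nat_lit 18) (.e (nat_lit 57931) (nat_lit 282) (.e (nat_lit 163869) (nat_lit 2) (.e (nat_lit 196669) (nat_lit 14) .nil)))) (.g (nat_lit 0) (.e (nat_lit 223833) (nat_lit 0) .nil) .nil))) 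
(.lf (nat_lit 520844) (.g (nat_lit 3336) (.e (nat_lit 204831) (nat_lit 18) (.e (nat_lit 57931) (nat_lit 282) (.e (nat_lit 163869) (nat_lit 2) (.e (nat_lit 196670) (nat_lit 14) (.e (nat_lit 73746) (nat_lit 3) (.e (nat_lit 516127) (nat_lit 2) (.e (nat_lit 213019) (nat_lit 9) (.e (nat_lit 2683) (nat_lit 168) .nil)))))))) (.g (nat_lit 1) (.e (nat_lit 224508) (nat_lit 0) .nil) .nil)))) 
(.nd (nat_lit 9) 
(.lf (nat_lit 520588) (.g (nat_lit 3719) (.e (nat_lit 204830) (nat_lit 18) (.e (nat_lit 57927) (nat_lit 282) (.e (nat_lit 163874) (nat_lit 3) (.e (nat_lit 204854) (nat_lit 26) (.e (nat_lit 336019) (nat_lit 3) (.e (nat_lit 98342) (nat_lit 20) (.e (nat_lit 221213) (nat_lit 23) .nil))))))) (.g (nat_lit 1) (.e (nat_lit 224164) (nat_lit 0) .nil) .nil))) 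
(.lf (nat_lit 521100) (.g (nat_lit 2535) (.e (nat_lit 204837) (nat_lit 20) (.e (nat_lit 114714) (nat_lit 22) (.e (nat_lit 90174) (nat_lit 14) (.e (nat_lit 180243) (nat_lit 5) (.e (nat_lit 532499) (nat_lit 1) (.e (nat_lit 57691) (nat_lit 156) (.e (nat_lit 163872) (nat_lit 3) .nil))))))) (.g (nat_lit 1) (.e (nat_lit 224925) (nat_lit 0) .nil) .nil)))))) 
(.nd (nat_lit 7) (.nd (nat_lit 8) (.nd (nat_lit 9) 
(.lf (nat_lit 520268) (.g (nat_lit 2523) (.e (nat_lit 204829) (nat_lit 18) (.e (nat_lit 57927) (nat_lit 282) (.e (nat_lit 163871) (nat_lit 2) (.e (nat_lit 196670) (nat_lit 14) (.e (nat_lit 73746) (nat_lit 3) (.e (nat_lit 516124) (nat_lit 2) (.e (nat_lit 213000) (nat_lit 9) (.e (nat_lit 2680) (nat_lit 168) .nil)))))))) (.g (nat_lit 1) (.e (nat_lit 223757) (nat_lit 0) .nil) .nil))) 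
(.lf (nat_lit 520780) (.g (nat_lit 1381) (.e (nat_lit 204831) (nat_lit 18) (.e (nat_lit 57854) (nat_lit 252) (.e (nat_lit 57405) (nat_lit 12) (.e (nat_lit 336452) (nat_lit 34) .nil)))) (.g (nat_lit 0) (.e (nat_lit 224423) (nat_lit 0) .nil) .nil)))) (.nd (nat_lit 9) 
(.lf (nat_lit 520524) (.g (nat_lit 3042) (.e (nat_lit 204830) (nat_lit 18) (.e (nat_lit 57926) (nat_lit 282) (.e (nat_lit 163871) (nat_lit 2) (.e (nat_lit 196668) (nat_lit 14) (.e (nat_lit 73747) (nat_lit 3) (.e (nat_lit 516124) (nat_lit 2) (.e (nat_lit 213013) (nat_lit 9) (.e (nat_lit 2681) (nat_lit 168) .nil)))))))) (.g (nat_lit 1) (.e (nat_lit 224089) (nat_lit 0) .nil) .nil))) 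
(.lf (nat_lit 521036) (.g (nat_lit 421) (.e (nat_lit 204837) (nat_lit 20) (.e (nat_lit 114698) (nat_lit 11) (.e (nat_lit 426138) (nat_lit 3) .nil))) (.g (nat_lit 0) (.e (nat_lit 224820) (nat_lit 0) .nil) .nil))))) (.nd (nat_lit 8) (.nd (nat_lit 9) 
(.lf (nat_lit 520396) (.g (nat_lit 3553) (.e (nat_lit 204830) (nat_lit 18) (.e (nat_lit 57852) (nat_lit 252) (.e (nat_lit 57373) (nat_lit 2) (.e (nat_lit 90160) (nat_lit 11) (.e (nat_lit 24608) (nat_lit 3) (.e (nat_lit 98338) (nat_lit 19) (.e (nat_lit 213013) (nat_lit 9) (.e (nat_lit 2684) (nat_lit 168) .nil)))))))) (.g (nat_lit 1) (.e (nat_lit 223934) (nat_lit 0) .nil) .nil))) 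
(.lf (nat_lit 520908) (.g (nat_lit 1689) (.e (nat_lit 204836) (nat_lit 20) (.e (nat_lit 114698) (nat_lit 11) (.e (nat_lit 426139) (nat_lit 3) (.e (nat_lit 204859) (nat_lit 26) .nil)))) (.g (nat_lit 0) (.e (nat_lit 224605) (nat_lit 0) .nil) .nil)))) (.nd (nat_lit 9) 
(.lf (nat_lit 520652) (.g (nat_lit 1870) (.e (nat_lit 204831) (nat_lit 18) (.e (nat_lit 57688) (nat_lit 156) (.e (nat_lit 163903) (nat_lit 12) (.e (nat_lit 426566) (nat_lit 34) (.e (nat_lit 393279) (nat_lit 23) .nil))))) (.g (nat_lit 0) (.e (nat_lit 224241) (nat_lit 0) .nil) .nil))) 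
(.lf (nat_lit 521164) (.g (nat_lit 1697) (.e (nat_lit 204837) (nat_lit 20) (.e (nat_lit 114718) (nat_lit 23) (.e (nat_lit 98367) (nat_lit 27) (.e (nat_lit 434232) (nat_lit 23) .nil)))) (.g (nat_lit 0) (.e (nat_lit 225009) (nat_lit 0) .nil) .nil))))))) (.nd (nat_lit 6) (.nd (nat_lit 7) (.nd (nat_lit 8) (.nd (nat_lit 9) 
(.lf (nat_lit 520236) (.g (nat_lit 3030) (.e (nat_lit 204829) (nat_lit 18) (.e (nat_lit 57927) (nat_lit 282) (.e (nat_lit 163869) (nat_lit 2) (.e (nat_lit 196670) (nat_lit 14) (.e (nat_lit 73746) (nat_lit 3) (.e (nat_lit 516126) (nat_lit 2) (.e (nat_lit 213016) (nat_lit 9) (.e (nat_lit 2683) (nat_lit 168) .nil)))))))) (.g (nat_lit 1) (.e (nat_lit 223719) (nat_lit 0) .nil) .nil))) 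
(.lf (nat_lit 520748) (.g (nat_lit 1629) (.e (nat_lit 204831) (nat_lit 18) (.e (nat_lit 57849) (nat_lit 252) (.e (nat_lit 57445) (nat_lit 19) (.e (nat_lit 393226) (nat_lit 9) .nil)))) (.g (nat_lit 0) (.e (nat_lit 224373) (nat_lit 0) .nil) .nil)))) (.nd (nat_lit 9) 
(.lf (nat_lit 520492) (.g (nat_lit 2584) (.e (nat_lit 204830) (nat_lit 18) (.e (nat_lit 57926) (nat_lit 282) (.e (nat_lit 163869) (nat_lit 2) (.e (nat_lit 196670) (nat_lit 14) (.e (nat_lit 73746) (nat_lit 3) (.e (nat_lit 516124) (nat_lit 2) (.e (nat_lit 213021) (nat_lit 9) (.e (nat_lit 2683) (nat_lit 168) .nil)))))))) (.g (nat_lit 1) (.e (nat_lit 224055) (nat_lit 0) .nil) .nil))) 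
(.lf (nat_lit 521004) (.g (nat_lit 3516) (.e (nat_lit 204837) (nat_lit 20) (.e (nat_lit 114697) (nat_lit 11) (.e (nat_lit 426139) (nat_lit 3) (.e (nat_lit 204861) (nat_lit 26) (.e (nat_lit 336088) (nat_lit 9) (.e (nat_lit 336324) (nat_lit 18) .nil)))))) (.g (nat_lit 1) (.e (nat_lit 224737) (nat_lit 0) .nil) .nil))))) (.nd (nat_lit 8) (.nd (nat_lit 9) 
(.lf (nat_lit 520364) (.g (nat_lit 2393) (.e (nat_lit 204830) (nat_lit 18) (.e (nat_lit 57691) (nat_lit 156) (.e (nat_lit 163905) (nat_lit 12) (.e (nat_lit 426568) (nat_lit 34) (.e (nat_lit 393281) (nat_lit 23) (.e (nat_lit 426137) (nat_lit 3) .nil)))))) (.g (nat_lit 1) (.e (nat_lit 223880) (nat_lit 0) .nil) .nil))) 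
(.lf (nat_lit 520876) (.g (nat_lit 1955) (.e (nat_lit 204834) (nat_lit 19) (.e (nat_lit 106536) (nat_lit 11) (.e (nat_lit 16415) (nat_lit 3) (.e (nat_lit 204861) (nat_lit 26) (.e (nat_lit 336075) (nat_lit 9) .nil))))) (.g (nat_lit 0) (.e (nat_lit 224562) (nat_lit 0) .nil) .nil)))) (.nd (nat_lit 9) 
(.lf (nat_lit 520620) (.g (nat_lit 3547) (.e (nat_lit 204830) (nat_lit 18) (.e (nat_lit 57931) (nat_lit 282) (.e (nat_lit 163869) (nat_lit 2) (.e (nat_lit 196668) (nat_lit 14) (.e (nat_lit 73747) (nat_lit 3) (.e (nat_lit 516131) (nat_lit 3) (.e (nat_lit 221213) (nat_lit 23) .nil))))))) (.g (nat_lit 1) (.e (nat_lit 224198) (nat_lit 0) .nil) .nil))) 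
(.lf (nat_lit 521132) (.g (nat_lit 2644) (.e (nat_lit 204837) (nat_lit 20) (.e (nat_lit 114716) (nat_lit 22) (.e (nat_lit 90172) (nat_lit 14) (.e (nat_lit 180244) (nat_lit 5) (.e (nat_lit 532499) (nat_lit 1) (.e (nat_lit 57657) (nat_lit 152) (.e (nat_lit 2433) (nat_lit 157) (.e (nat_lit 2685) (nat_lit 168) .nil)))))))) (.g (nat_lit 1) (.e (nat_lit 224964) (nat_lit 0) .nil) .nil)))))) 
(.nd (nat_lit 7) (.nd (nat_lit 8) (.nd (nat_lit 9) 
(.lf (nat_lit 520300) (.g (nat_lit 2680) (.e (nat_lit 204829) (nat_lit 18) (.e (nat_lit 57928) (nat_lit 282) (.e (nat_lit 163868) (nat_lit 2) (.e (nat_lit 196668) (nat_lit 14) (.e (nat_lit 73747) (nat_lit 3) (.e (nat_lit 516124) (nat_lit 2) (.e (nat_lit 213013) (nat_lit 9) (.e (nat_lit 2684) (nat_lit 168) .nil)))))))) (.g (nat_lit 1) (.e (nat_lit 223792) (nat_lit 0) .nil) .nil))) 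
(.lf (nat_lit 520812) (.g (nat_lit 3768) (.e (nat_lit 204831) (nat_lit 18) (.e (nat_lit 57931) (nat_lit 282) (.e (nat_lit 163867) (nat_lit 2) (.e (nat_lit 196670) (nat_lit 14) (.e (nat_lit 73746) (nat_lit 3) (.e (nat_lit 516124) (nat_lit 2) (.e (nat_lit 213019) (nat_lit 9) (.e (nat_lit 2683) (nat_lit 168) .nil)))))))) (.g (nat_lit 1) (.e (nat_lit 224466) (nat_lit 0) .nil) .nil)))) 
(.nd (nat_lit 9) 
(.lf (nat_lit 520556) (.g (nat_lit 2310) (.e (nat_lit 204830) (nat_lit 18) (.e (nat_lit 57927) (nat_lit 282) (.e (nat_lit 163867) (nat_lit 2) (.e (nat_lit 196668) (nat_lit 14) (.e (nat_lit 73747) (nat_lit 3) .nil))))) (.g (nat_lit 0) (.e (nat_lit 224124) (nat_lit 0) .nil) .nil))) 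
(.lf (nat_lit 521068) (.g (nat_lit 1905) (.e (nat_lit 204837) (nat_lit 20) (.e (nat_lit 114714) (nat_lit 22) (.e (nat_lit 90170) (nat_lit 13) (.e (nat_lit 172046) (nat_lit 0) .nil)))) (.g (nat_lit 0) (.e (nat_lit 224887) (nat_lit 0) .nil) .nil))))) (.nd (nat_lit 8) (.nd (nat_lit 9) 
(.lf (nat_lit 520428) (.g (nat_lit 2168) (.e (nat_lit 204830) (nat_lit 18) (.e (nat_lit 57854) (nat_lit 252) (.e (nat_lit 57409) (nat_lit 12) (.e (nat_lit 336019) (nat_lit 3) .nil)))) (.g (nat_lit 0) (.e (nat_lit 223973) (nat_lit 0) .nil) .nil))) 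
(.lf (nat_lit 520940) (.g (nat_lit 1934) (.e (nat_lit 204836) (nat_lit 20) (.e (nat_lit 114719) (nat_lit 23) (.e (nat_lit 98367) (nat_lit 27) (.e (nat_lit 434232) (nat_lit 23) (.e (nat_lit 532502) (nat_lit 1) .nil))))) (.g (nat_lit 0) (.e (nat_lit 224645) (nat_lit 0) .nil) .nil)))) (.nd (nat_lit 9) 
(.lf (nat_lit 520684) (.g (nat_lit 2739) (.e (nat_lit 204831) (nat_lit 18) (.e (nat_lit 57846) (nat_lit 252) (.e (nat_lit 57406) (nat_lit 12) (.e (nat_lit 336456) (nat_lit 34) (.e (nat_lit 483379) (nat_lit 23) .nil))))) (.g (nat_lit 0) (.e (nat_lit 224302) (nat_lit 0) .nil) .nil))) 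
(.lf (nat_lit 521196) (.g (nat_lit 1604) (.e (nat_lit 204837) (nat_lit 20) (.e (nat_lit 114719) (nat_lit 23) (.e (nat_lit 98365) (nat_lit 26) (.e (nat_lit 426139) (nat_lit 3) .nil)))) (.g (nat_lit 0) (.e (nat_lit 225059) (nat_lit 0) .nil) .nil)))))))) (.nd (nat_lit 5) (.nd (nat_lit 6) (.nd (nat_lit 7) (.nd (nat_lit 8) (.nd (nat_lit 9) 
(.lf (nat_lit 520220) (.g (nat_lit 2484) (.e (nat_lit 204829) (nat_lit 18) (.e (nat_lit 57927) (nat_lit 282) (.e (nat_lit 163869) (nat_lit 2) (.e (nat_lit 196670) (nat_lit 14) (.e (nat_lit 73746) (nat_lit 3) (.e (nat_lit 516124) (nat_lit 2) (.e (nat_lit 213021) (nat_lit 9) (.e (nat_lit 2683) (nat_lit 168) .nil)))))))) (.g (nat_lit 1) (.e (nat_lit 223703) (nat_lit 0) .nil) .nil))) 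
(.lf (nat_lit 520732) (.g (nat_lit 1927) (.e (nat_lit 204831) (nat_lit 18) (.e (nat_lit 57849) (nat_lit 252) (.e (nat_lit 57379) (nat_lit 3) (.e (nat_lit 98337) (nat_lit 19) .nil)))) (.g (nat_lit 0) (.e (nat_lit 224355) (nat_lit 0) .nil) .nil)))) (.nd (nat_lit 9) 
(.lf (nat_lit 520476) (.g (nat_lit 3745) (.e (nat_lit 204830) (nat_lit 18) (.e (nat_lit 57926) (nat_lit 282) (.e (nat_lit 163868) (nat_lit 2) (.e (nat_lit 196670) (nat_lit 14) (.e (nat_lit 73746) (nat_lit 3) (.e (nat_lit 516124) (nat_lit 2) (.e (nat_lit 213013) (nat_lit 9) (.e (nat_lit 2684) (nat_lit 168) .nil)))))))) (.g (nat_lit 1) (.e (nat_lit 224030) (nat_lit 0) .nil) .nil))) 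
(.lf (nat_lit 520988) (.g (nat_lit 1677) (.e (nat_lit 204837) (nat_lit 20) (.e (nat_lit 114697) (nat_lit 11) (.e (nat_lit 426138) (nat_lit 3) (.e (nat_lit 204859) (nat_lit 26) (.e (nat_lit 336118) (nat_lit 9) (.e (nat_lit 336323) (nat_lit 18) .nil)))))) (.g (nat_lit 1) (.e (nat_lit 224720) (nat_lit 0) .nil) .nil))))) (.nd (nat_lit 8) (.nd (nat_lit 9) 
(.lf (nat_lit 520348) (.g (nat_lit 3305) (.e (nat_lit 204829) (nat_lit 18) (.e (nat_lit 57931) (nat_lit 282) (.e (nat_lit 163874) (nat_lit 3) (.e (nat_lit 204863) (nat_lit 27) (.e (nat_lit 344117) (nat_lit 21) (.e (nat_lit 516123) (nat_lit 2) (.e (nat_lit 213013) (nat_lit 9) (.e (nat_lit 2684) (nat_lit 168) .nil)))))))) (.g (nat_lit 1) (.e (nat_lit 223853) (nat_lit 0) .nil) .nil))) 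
(.lf (nat_lit 520860) (.g (nat_lit 1393) (.e (nat_lit 204833) (nat_lit 19) (.e (nat_lit 106535) (nat_lit 11) (.e (nat_lit 16415) (nat_lit 3) (.e (nat_lit 204861) (nat_lit 26) (.e (nat_lit 336075) (nat_lit 9) .nil))))) (.g (nat_lit 0) (.e (nat_lit 224533) (nat_lit 0) .nil) .nil)))) (.nd (nat_lit 9) 
(.lf (nat_lit 520604) (.g (nat_lit 2327) (.e (nat_lit 204830) (nat_lit 18) (.e (nat_lit 57929) (nat_lit 282) (.e (nat_lit 163874) (nat_lit 3) (.e (nat_lit 204863) (nat_lit 27) (.e (nat_lit 344120) (nat_lit 21) .nil))))) (.g (nat_lit 0) (.e (nat_lit 224181) (nat_lit 0) .nil) .nil))) 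
(.lf (nat_lit 521116) (.g (nat_lit 2877) (.e (nat_lit 204837) (nat_lit 20) (.e (nat_lit 114714) (nat_lit 22) (.e (nat_lit 90174) (nat_lit 14) (.e (nat_lit 180243) (nat_lit 5) (.e (nat_lit 532504) (nat_lit 1) (.e (nat_lit 57692) (nat_lit 156) (.e (nat_lit 163872) (nat_lit 3) .nil))))))) (.g (nat_lit 1) (.e (nat_lit 224942) (nat_lit 0) .nil) .nil)))))) 
(.nd (nat_lit 7) (.nd (nat_lit 8) (.nd (nat_lit 9) 
(.lf (nat_lit 520284) (.g (nat_lit 3429) (.e (nat_lit 204829) (nat_lit 18) (.e (nat_lit 57927) (nat_lit 282) (.e (nat_lit 163874) (nat_lit 3) (.e (nat_lit 204862) (nat_lit 27) (.e (nat_lit 344117) (nat_lit 21) (.e (nat_lit 516123) (nat_lit 2) (.e (nat_lit 213013) (nat_lit 9) (.e (nat_lit 2684) (nat_lit 168) .nil)))))))) (.g (nat_lit 1) (.e (nat_lit 223774) (nat_lit 0) .nil) .nil))) 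
(.lf (nat_lit 520796) (.g (nat_lit 2221) (.e (nat_lit 204831) (nat_lit 18) (.e (nat_lit 57929) (nat_lit 282) (.e (nat_lit 163869) (nat_lit 2) (.e (nat_lit 196668) (nat_lit 14) (.e (nat_lit 73746) (nat_lit 3) .nil))))) (.g (nat_lit 0) (.e (nat_lit 224443) (nat_lit 0) .nil) .nil)))) (.nd (nat_lit 9) 
(.lf (nat_lit 520540) (.g (nat_lit 4198) (.e (nat_lit 204830) (nat_lit 18) (.e (nat_lit 57926) (nat_lit 282) (.e (nat_lit 163874) (nat_lit 3) (.e (nat_lit 204872) (nat_lit 30) (.e (nat_lit 368676) (nat_lit 21) (.e (nat_lit 516100) (nat_lit 0) (.e (nat_lit 3771) (nat_lit 229) (.e (nat_lit 794673) (nat_lit 23) .nil)))))))) (.g (nat_lit 1) (.e (nat_lit 224105) (nat_lit 0) .nil) .nil))) 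
(.lf (nat_lit 521052) (.g (nat_lit 2923) (.e (nat_lit 204837) (nat_lit 20) (.e (nat_lit 114698) (nat_lit 11) (.e (nat_lit 426139) (nat_lit 3) (.e (nat_lit 204861) (nat_lit 26) (.e (nat_lit 336075) (nat_lit 9) (.e (nat_lit 336322) (nat_lit 18) .nil)))))) (.g (nat_lit 1) (.e (nat_lit 224841) (nat_lit 0) .nil) .nil))))) (.nd (nat_lit 8) (.nd (nat_lit 9) 
(.lf (nat_lit 520412) (.g (nat_lit 2915) (.e (nat_lit 204830) (nat_lit 18) (.e (nat_lit 57854) (nat_lit 252) (.e (nat_lit 57373) (nat_lit 2) (.e (nat_lit 90158) (nat_lit 11) (.e (nat_lit 24608) (nat_lit 3) .nil))))) (.g (nat_lit 0) (.e (nat_lit 223955) (nat_lit 0) .nil) .nil))) 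
(.lf (nat_lit 520924) (.g (nat_lit 1747) (.e (nat_lit 204836) (nat_lit 20) (.e (nat_lit 114718) (nat_lit 23) (.e (nat_lit 98366) (nat_lit 27) (.e (nat_lit 434232) (nat_lit 23) (.e (nat_lit 532504) (nat_lit 1) .nil))))) (.g (nat_lit 0) (.e (nat_lit 224623) (nat_lit 0) .nil) .nil)))) (.nd (nat_lit 9) 
(.lf (nat_lit 520668) (.g (nat_lit 1826) (.e (nat_lit 204831) (nat_lit 18) (.e (nat_lit 57692) (nat_lit 156) (.e (nat_lit 163907) (nat_lit 12) (.e (nat_lit 426507) (nat_lit 27) (.e (nat_lit 336408) (nat_lit 27) .nil))))) (.g (nat_lit 0) (.e (nat_lit 224281) (nat_lit 0) .nil) .nil))) 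
(.lf (nat_lit 521180) (.g (nat_lit 815) (.e (nat_lit 204837) (nat_lit 20) (.e (nat_lit 114719) (nat_lit 23) (.e (nat_lit 98354) (nat_lit 26) .nil))) (.g (nat_lit 0) (.e (nat_lit 225037) (nat_lit 0) .nil) .nil))))))) (.nd (nat_lit 6) (.nd (nat_lit 7) (.nd (nat_lit 8) (.nd (nat_lit 9) 
(.lf (nat_lit 520252) (.g (nat_lit 4054) (.e (nat_lit 204829) (nat_lit 18) (.e (nat_lit 57927) (nat_lit 282) (.e (nat_lit 163870) (nat_lit 2) (.e (nat_lit 196666) (nat_lit 13) (.e (nat_lit 65571) (nat_lit 3) (.e (nat_lit 98341) (nat_lit 20) (.e (nat_lit 221213) (nat_lit 23) .nil))))))) (.g (nat_lit 1) (.e (nat_lit 223741) (nat_lit 0) .nil) .nil))) 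
(.lf (nat_lit 520764) (.g (nat_lit 2410) (.e (nat_lit 204831) (nat_lit 18) (.e (nat_lit 57852) (nat_lit 252) (.e (nat_lit 57406) (nat_lit 12) (.e (nat_lit 336456) (nat_lit 34) (.e (nat_lit 483391) (nat_lit 23) .nil))))) (.g (nat_lit 0) (.e (nat_lit 224391) (nat_lit 0) .nil) .nil)))) (.nd (nat_lit 9) 
(.lf (nat_lit 520508) (.g (nat_lit 3776) (.e (nat_lit 204830) (nat_lit 18) (.e (nat_lit 57926) (nat_lit 282) (.e (nat_lit 163869) (nat_lit 2) (.e (nat_lit 196670) (nat_lit 14) (.e (nat_lit 73746) (nat_lit 3) (.e (nat_lit 516127) (nat_lit 2) (.e (nat_lit 213022) (nat_lit 9) (.e (nat_lit 2683) (nat_lit 168) .nil)))))))) (.g (nat_lit 1) (.e (nat_lit 224071) (nat_lit 0) .nil) .nil))) 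
(.lf (nat_lit 521020) (.g (nat_lit 3318) (.e (nat_lit 204837) (nat_lit 20) (.e (nat_lit 114698) (nat_lit 11) (.e (nat_lit 426133) (nat_lit 3) (.e (nat_lit 204861) (nat_lit 26) (.e (nat_lit 336076) (nat_lit 9) (.e (nat_lit 336322) (nat_lit 18) .nil)))))) (.g (nat_lit 1) (.e (nat_lit 224803) (nat_lit 0) .nil) .nil))))) (.nd (nat_lit 8) (.nd (nat_lit 9) 
(.lf (nat_lit 520380) (.g (nat_lit 2703) (.e (nat_lit 204830) (nat_lit 18) (.e (nat_lit 57692) (nat_lit 156) (.e (nat_lit 163905) (nat_lit 12) (.e (nat_lit 426568) (nat_lit 34) (.e (nat_lit 393279) (nat_lit 23) (.e (nat_lit 426129) (nat_lit 3) .nil)))))) (.g (nat_lit 1) (.e (nat_lit 223913) (nat_lit 0) .nil) .nil))) 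
(.lf (nat_lit 520892) (.g (nat_lit 651) (.e (nat_lit 204836) (nat_lit 20) (.e (nat_lit 114697) (nat_lit 11) (.e (nat_lit 426122) (nat_lit 2) (.e (nat_lit 196672) (nat_lit 15) (.e (nat_lit 89856) (nat_lit 3) .nil))))) (.g (nat_lit 0) (.e (nat_lit 224586) (nat_lit 0) .nil) .nil)))) (.nd (nat_lit 9) 
(.lf (nat_lit 520636) (.g (nat_lit 2108) (.e (nat_lit 204831) (nat_lit 18) (.e (nat_lit 57687) (nat_lit 156) (.e (nat_lit 163903) (nat_lit 12) (.e (nat_lit 426479) (nat_lit 27) (.e (nat_lit 336443) (nat_lit 32) .nil))))) (.g (nat_lit 0) (.e (nat_lit 224219) (nat_lit 0) .nil) .nil))) 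
(.lf (nat_lit 521148) (.g (nat_lit 4328) (.e (nat_lit 204837) (nat_lit 20) (.e (nat_lit 114718) (nat_lit 23) (.e (nat_lit 98334) (nat_lit 18) (.e (nat_lit 164332) (nat_lit 230) (.e (nat_lit 163867) (nat_lit 2) (.e (nat_lit 196656) (nat_lit 11) (.e (nat_lit 16416) (nat_lit 3) .nil))))))) (.g (nat_lit 1) (.e (nat_lit 224991) (nat_lit 0) .nil) .nil)))))) 
(.nd (nat_lit 7) (.nd (nat_lit 8) (.nd (nat_lit 9) 
(.lf (nat_lit 520316) (.g (nat_lit 2174) (.e (nat_lit 204829) (nat_lit 18) (.e (nat_lit 57931) (nat_lit 282) (.e (nat_lit 163867) (nat_lit 2) (.e (nat_lit 196670) (nat_lit 14) (.e (nat_lit 73746) (nat_lit 3) .nil))))) (.g (nat_lit 0) (.e (nat_lit 223812) (nat_lit 0) .nil) .nil))) 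
(.lf (nat_lit 520828) (.g (nat_lit 3634) (.e (nat_lit 204831) (nat_lit 18) (.e (nat_lit 57931) (nat_lit 282) (.e (nat_lit 163869) (nat_lit 2) (.e (nat_lit 196668) (nat_lit 14) (.e (nat_lit 73746) (nat_lit 3) (.e (nat_lit 516131) (nat_lit 3) (.e (nat_lit 221214) (nat_lit 23) .nil))))))) (.g (nat_lit 1) (.e (nat_lit 224489) (nat_lit 0) .nil) .nil)))) (.nd (nat_lit 9) 
(.lf (nat_lit 520572) (.g (nat_lit 3040) (.e (nat_lit 204830) (nat_lit 18) (.e (nat_lit 57927) (nat_lit 282) (.e (nat_lit 163869) (nat_lit 2) (.e (nat_lit 196670) (nat_lit 14) (.e (nat_lit 73746) (nat_lit 3) (.e (nat_lit 516124) (nat_lit 2) (.e (nat_lit 213019) (nat_lit 9) (.e (nat_lit 2683) (nat_lit 168) .nil)))))))) (.g (nat_lit 1) (.e (nat_lit 224143) (nat_lit 0) .nil) .nil))) 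
(.lf (nat_lit 521084) (.g (nat_lit 3140) (.e (nat_lit 204837) (nat_lit 20) (.e (nat_lit 114714) (nat_lit 22) (.e (nat_lit 90172) (nat_lit 14) (.e (nat_lit 180244) (nat_lit 5) (.e (nat_lit 532499) (nat_lit 1) (.e (nat_lit 57692) (nat_lit 156) (.e (nat_lit 163872) (nat_lit 3) .nil))))))) (.g (nat_lit 1) (.e (nat_lit 224906) (nat_lit 0) .nil) .nil))))) (.nd (nat_lit 8) (.nd (nat_lit 9) 
(.lf (nat_lit 520444) (.g (nat_lit 1511) (.e (nat_lit 204830) (nat_lit 18) (.e (nat_lit 57854) (nat_lit 252) (.e (nat_lit 57447) (nat_lit 19) (.e (nat_lit 393220) (nat_lit 0) .nil)))) (.g (nat_lit 0) (.e (nat_lit 223991) (nat_lit 0) .nil) .nil))) 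
(.lf (nat_lit 520956) (.g (nat_lit 890) (.e (nat_lit 204837) (nat_lit 20) (.e (nat_lit 114695) (nat_lit 11) (.e (nat_lit 426129) (nat_lit 3) (.e (nat_lit 204877) (nat_lit 31) (.e (nat_lit 384768) (nat_lit 3) .nil))))) (.g (nat_lit 1) (.e (nat_lit 224665) (nat_lit 0) .nil) .nil)))) (.nd (nat_lit 9) 
(.lf (nat_lit 520700) (.g (nat_lit 3612) (.e (nat_lit 204831) (nat_lit 18) (.e (nat_lit 57847) (nat_lit 252) (.e (nat_lit 57379) (nat_lit 3) (.e (nat_lit 98342) (nat_lit 20) (.e (nat_lit 221214) (nat_lit 23) (.e (nat_lit 204852) (nat_lit 26) (.e (nat_lit 336326) (nat_lit 18) .nil))))))) (.g (nat_lit 1) (.e (nat_lit 224318) (nat_lit 0) .nil) .nil))) 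
(.lf (nat_lit 521212) (.g (nat_lit 1617) (.e (nat_lit 204837) (nat_lit 20) (.e (nat_lit 114719) (nat_lit 23) (.e (nat_lit 98367) (nat_lit 27) (.e (nat_lit 434232) (nat_lit 23) .nil)))) (.g (nat_lit 0) (.e (nat_lit 225076) (nat_lit 0) .nil) .nil))))))))))) (.nd (nat_lit 2) (.nd (nat_lit 3) (.nd (nat_lit 4) (.nd (nat_lit 5) (.nd (nat_lit 6) (.nd (nat_lit 7) (.nd (nat_lit 8) (.nd (nat_lit 9) 
(.lf (nat_lit 520194) (.g (nat_lit 2723) (.e (nat_lit 204829) (nat_lit 18) (.e (nat_lit 57927) (nat_lit 282) (.e (nat_lit 163868) (nat_lit 2) (.e (nat_lit 196670) (nat_lit 14) (.e (nat_lit 73746) (nat_lit 3) (.e (nat_lit 516127) (nat_lit 2) (.e (nat_lit 213008) (nat_lit 9) (.e (nat_lit 2680) (nat_lit 168) .nil)))))))) (.g (nat_lit 1) (.e (nat_lit 223660) (nat_lit 0) .nil) .nil))) 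
(.lf (nat_lit 520706) (.g (nat_lit 1135) (.e (nat_lit 204831) (nat_lit 18) (.e (nat_lit 57847) (nat_lit 252) (.e (nat_lit 57407) (nat_lit 12) (.e (nat_lit 336456) (nat_lit 34) .nil)))) (.g (nat_lit 0) (.e (nat_lit 224324) (nat_lit 0) .nil) .nil)))) (.nd (nat_lit 9) 
(.lf (nat_lit 520450) (.g (nat_lit 2649) (.e (nat_lit 204830) (nat_lit 18) (.e (nat_lit 57924) (nat_lit 282) (.e (nat_lit 163867) (nat_lit 2) (.e (nat_lit 196670) (nat_lit 14) (.e (nat_lit 73746) (nat_lit 3) (.e (nat_lit 516124) (nat_lit 2) (.e (nat_lit 213019) (nat_lit 9) (.e (nat_lit 2683) (nat_lit 168) .nil)))))))) (.g (nat_lit 1) (.e (nat_lit 223998) (nat_lit 0) .nil) .nil))) 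
(.lf (nat_lit 520962) (.g (nat_lit 1150) (.e (nat_lit 204837) (nat_lit 20) (.e (nat_lit 114697) (nat_lit 11) (.e (nat_lit 426122) (nat_lit 2) (.e (nat_lit 196672) (nat_lit 15) (.e (nat_lit 89856) (nat_lit 3) .nil))))) (.g (nat_lit 1) (.e (nat_lit 224683) (nat_lit 0) .nil) .nil))))) (.nd (nat_lit 8) (.nd (nat_lit 9) 
(.lf (nat_lit 520322) (.g (nat_lit 2658) (.e (nat_lit 204829) (nat_lit 18) (.e (nat_lit 57931) (nat_lit 282) (.e (nat_lit 163867) (nat_lit 2) (.e (nat_lit 196670) (nat_lit 14) (.e (nat_lit 73748) (nat_lit 3) .nil))))) (.g (nat_lit 0) (.e (nat_lit 223818) (nat_lit 0) .nil) .nil))) 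
(.lf (nat_lit 520834) (.g (nat_lit 2973) (.e (nat_lit 204831) (nat_lit 18) (.e (nat_lit 57931) (nat_lit 282) (.e (nat_lit 163869) (nat_lit 2) (.e (nat_lit 196670) (nat_lit 14) (.e (nat_lit 73746) (nat_lit 3) (.e (nat_lit 516124) (nat_lit 2) (.e (nat_lit 213021) (nat_lit 9) (.e (nat_lit 2681) (nat_lit 168) .nil)))))))) (.g (nat_lit 1) (.e (nat_lit 224498) (nat_lit 0) .nil) .nil)))) 
(.nd (nat_lit 9) 
(.lf (nat_lit 520578) (.g (nat_lit 3843) (.e (nat_lit 204830) (nat_lit 18) (.e (nat_lit 57927) (nat_lit 282) (.e (nat_lit 163870) (nat_lit 2) (.e (nat_lit 196666) (nat_lit 13) (.e (nat_lit 65571) (nat_lit 3) (.e (nat_lit 98341) (nat_lit 20) (.e (nat_lit 221213) (nat_lit 23) .nil))))))) (.g (nat_lit 1) (.e (nat_lit 224151) (nat_lit 0) .nil) .nil))) 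
(.lf (nat_lit 521090) (.g (nat_lit 2814) (.e (nat_lit 204837) (nat_lit 20) (.e (nat_lit 114714) (nat_lit 22) (.e (nat_lit 90172) (nat_lit 14) (.e (nat_lit 180244) (nat_lit 5) (.e (nat_lit 532503) (nat_lit 1) (.e (nat_lit 57685) (nat_lit 156) (.e (nat_lit 163872) (nat_lit 3) .nil))))))) (.g (nat_lit 1) (.e (nat_lit 224912) (nat_lit 0) .nil) .nil)))))) 
(.nd (nat_lit 7) (.nd (nat_lit 8) (.nd (nat_lit 9) 
(.lf (nat_lit 520258) (.g (nat_lit 2845) (.e (nat_lit 204829) (nat_lit 18) (.e (nat_lit 57927) (nat_lit 282) (.e (nat_lit 163871) (nat_lit 2) (.e (nat_lit 196668) (nat_lit 14) (.e (nat_lit 73746) (nat_lit 3) (.e (nat_lit 516124) (nat_lit 2) (.e (nat_lit 213019) (nat_lit 9) (.e (nat_lit 2683) (nat_lit 168) .nil)))))))) (.g (nat_lit 1) (.e (nat_lit 223747) (nat_lit 0) .nil) .nil))) 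
(.lf (nat_lit 520770) (.g (nat_lit 3075) (.e (nat_lit 204831) (nat_lit 18) (.e (nat_lit 57853) (nat_lit 252) (.e (nat_lit 57447) (nat_lit 19) (.e (nat_lit 393229) (nat_lit 9) (.e (nat_lit 336077) (nat_lit 9) .nil))))) (.g (nat_lit 0) (.e (nat_lit 224398) (nat_lit 0) .nil) .nil)))) (.nd (nat_lit 9) 
(.lf (nat_lit 520514) (.g (nat_lit 4169) (.e (nat_lit 204830) (nat_lit 18) (.e (nat_lit 57926) (nat_lit 282) (.e (nat_lit 163870) (nat_lit 2) (.e (nat_lit 196666) (nat_lit 13) (.e (nat_lit 65569) (nat_lit 3) (.e (nat_lit 98342) (nat_lit 20) (.e (nat_lit 221213) (nat_lit 23) .nil))))))) (.g (nat_lit 1) (.e (nat_lit 224078) (nat_lit 0) .nil) .nil))) 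
(.lf (nat_lit 521026) (.g (nat_lit 1819) (.e (nat_lit 204837) (nat_lit 20) (.e (nat_lit 114698) (nat_lit 11) (.e (nat_lit 426133) (nat_lit 3) (.e (nat_lit 204867) (nat_lit 28) .nil)))) (.g (nat_lit 0) (.e (nat_lit 224809) (nat_lit 0) .nil) .nil))))) (.nd (nat_lit 8) (.nd (nat_lit 9) 
(.lf (nat_lit 520386) (.g (nat_lit 1693) (.e (nat_lit 204830) (nat_lit 18) (.e (nat_lit 57692) (nat_lit 156) (.e (nat_lit 163913) (nat_lit 12) (.e (nat_lit 426483) (nat_lit 27) .nil)))) (.g (nat_lit 0) (.e (nat_lit 223921) (nat_lit 0) .nil) .nil))) 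
(.lf (nat_lit 520898) (.g (nat_lit 295) (.e (nat_lit 204836) (nat_lit 20) (.e (nat_lit 114697) (nat_lit 11) (.e (nat_lit 426138) (nat_lit 3) .nil))) (.g (nat_lit 0) (.e (nat_lit 224592) (nat_lit 0) .nil) .nil)))) (.nd (nat_lit 9) 
(.lf (nat_lit 520642) (.g (nat_lit 3469) (.e (nat_lit 204831) (nat_lit 18) (.e (nat_lit 57688) (nat_lit 156) (.e (nat_lit 163874) (nat_lit 3) (.e (nat_lit 204837) (nat_lit 20) (.e (nat_lit 114715) (nat_lit 22) (.e (nat_lit 90170) (nat_lit 13) (.e (nat_lit 172065) (nat_lit 3) .nil))))))) (.g (nat_lit 1) (.e (nat_lit 224231) (nat_lit 0) .nil) .nil))) 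
(.lf (nat_lit 521154) (.g (nat_lit 1867) (.e (nat_lit 204837) (nat_lit 20) (.e (nat_lit 114718) (nat_lit 23) (.e (nat_lit 98363) (nat_lit 26) (.e (nat_lit 426129) (nat_lit 3) (.e (nat_lit 204830) (nat_lit 18) .nil))))) (.g (nat_lit 0) (.e (nat_lit 224997) (nat_lit 0) .nil) .nil))))))) (.nd (nat_lit 6) (.nd (nat_lit 7) (.nd (nat_lit 8) (.nd (nat_lit 9) 
(.lf (nat_lit 520226) (.g (nat_lit 4704) (.e (nat_lit 204829) (nat_lit 18) (.e (nat_lit 57927) (nat_lit 282) (.e (nat_lit 163869) (nat_lit 2) (.e (nat_lit 196670) (nat_lit 14) (.e (nat_lit 73746) (nat_lit 3) (.e (nat_lit 516124) (nat_lit 2) (.e (nat_lit 213019) (nat_lit 9) (.e (nat_lit 2683) (nat_lit 168) .nil)))))))) (.g (nat_lit 1) (.e (nat_lit 223709) (nat_lit 0) .nil) .nil))) 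
(.lf (nat_lit 520738) (.g (nat_lit 2727) (.e (nat_lit 204831) (nat_lit 18) (.e (nat_lit 57849) (nat_lit 252) (.e (nat_lit 57407) (nat_lit 12) (.e (nat_lit 336456) (nat_lit 34) (.e (nat_lit 483346) (nat_lit 17) (.e (nat_lit 6445) (nat_lit 343) (.e (nat_lit 170) (nat_lit 12) .nil))))))) (.g (nat_lit 1) (.e (nat_lit 224362) (nat_lit 0) .nil) .nil)))) (.nd (nat_lit 9) 
(.lf (nat_lit 520482) (.g (nat_lit 3493) (.e (nat_lit 204830) (nat_lit 18) (.e (nat_lit 57926) (nat_lit 282) (.e (nat_lit 163869) (nat_lit 2) (.e (nat_lit 196666) (nat_lit 13) (.e (nat_lit 65571) (nat_lit 3) (.e (nat_lit 98342) (nat_lit 20) (.e (nat_lit 221213) (nat_lit 23) .nil))))))) (.g (nat_lit 1) (.e (nat_lit 224037) (nat_lit 0) .nil) .nil))) 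
(.lf (nat_lit 520994) (.g (nat_lit 1301) (.e (nat_lit 204837) (nat_lit 20) (.e (nat_lit 114697) (nat_lit 11) (.e (nat_lit 426138) (nat_lit 3) (.e (nat_lit 204877) (nat_lit 31) (.e (nat_lit 384768) (nat_lit 3) .nil))))) (.g (nat_lit 1) (.e (nat_lit 224727) (nat_lit 0) .nil) .nil))))) (.nd (nat_lit 8) (.nd (nat_lit 9) 
(.lf (nat_lit 520354) (.g (nat_lit 2729) (.e (nat_lit 204830) (nat_lit 18) (.e (nat_lit 57689) (nat_lit 156) (.e (nat_lit 163907) (nat_lit 12) (.e (nat_lit 426479) (nat_lit 27) (.e (nat_lit 336430) (nat_lit 29) (.e (nat_lit 442425) (nat_lit 23) .nil)))))) (.g (nat_lit 1) (.e (nat_lit 223867) (nat_lit 0) .nil) .nil))) 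
(.lf (nat_lit 520866) (.g (nat_lit 1391) (.e (nat_lit 204834) (nat_lit 19) (.e (nat_lit 106534) (nat_lit 11) (.e (nat_lit 16416) (nat_lit 3) (.e (nat_lit 204865) (nat_lit 28) (.e (nat_lit 360192) (nat_lit 3) .nil))))) (.g (nat_lit 0) (.e (nat_lit 224549) (nat_lit 0) .nil) .nil)))) (.nd (nat_lit 9) 
(.lf (nat_lit 520610) (.g (nat_lit 2686) (.e (nat_lit 204830) (nat_lit 18) (.e (nat_lit 57931) (nat_lit 282) (.e (nat_lit 163867) (nat_lit 2) (.e (nat_lit 196670) (nat_lit 14) (.e (nat_lit 73748) (nat_lit 3) .nil))))) (.g (nat_lit 0) (.e (nat_lit 224187) (nat_lit 0) .nil) .nil))) 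
(.lf (nat_lit 521122) (.g (nat_lit 2178) (.e (nat_lit 204837) (nat_lit 20) (.e (nat_lit 114715) (nat_lit 22) (.e (nat_lit 90170) (nat_lit 13) (.e (nat_lit 172065) (nat_lit 3) (.e (nat_lit 204821) (nat_lit 17) .nil))))) (.g (nat_lit 0) (.e (nat_lit 224951) (nat_lit 0) .nil) .nil)))))) (.nd (nat_lit 7) (.nd (nat_lit 8) (.nd (nat_lit 9) 
(.lf (nat_lit 520290) (.g (nat_lit 1454) (.e (nat_lit 204829) (nat_lit 18) (.e (nat_lit 57927) (nat_lit 282) (.e (nat_lit 163875) (nat_lit 3) (.e (nat_lit 204850) (nat_lit 26) .nil)))) (.g (nat_lit 0) (.e (nat_lit 223782) (nat_lit 0) .nil) .nil))) 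
(.lf (nat_lit 520802) (.g (nat_lit 3009) (.e (nat_lit 204831) (nat_lit 18) (.e (nat_lit 57931) (nat_lit 282) (.e (nat_lit 163866) (nat_lit 2) (.e (nat_lit 196670) (nat_lit 14) (.e (nat_lit 73746) (nat_lit 3) (.e (nat_lit 516124) (nat_lit 2) (.e (nat_lit 213019) (nat_lit 9) (.e (nat_lit 2681) (nat_lit 168) .nil)))))))) (.g (nat_lit 1) (.e (nat_lit 224450) (nat_lit 0) .nil) .nil)))) 
(.nd (nat_lit 9) 
(.lf (nat_lit 520546) (.g (nat_lit 2968) (.e (nat_lit 204830) (nat_lit 18) (.e (nat_lit 57926) (nat_lit 282) (.e (nat_lit 163875) (nat_lit 3) (.e (nat_lit 204863) (nat_lit 27) (.e (nat_lit 344117) (nat_lit 21) (.e (nat_lit 516123) (nat_lit 2) (.e (nat_lit 213000) (nat_lit 9) (.e (nat_lit 2680) (nat_lit 168) .nil)))))))) (.g (nat_lit 1) (.e (nat_lit 224113) (nat_lit 0) .nil) .nil))) 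
(.lf (nat_lit 521058) (.g (nat_lit 4272) (.e (nat_lit 204837) (nat_lit 20) (.e (nat_lit 114698) (nat_lit 11) (.e (nat_lit 426139) (nat_lit 3) (.e (nat_lit 204861) (nat_lit 26) (.e (nat_lit 336088) (nat_lit 9) (.e (nat_lit 336324) (nat_lit 18) .nil)))))) (.g (nat_lit 1) (.e (nat_lit 224847) (nat_lit 0) .nil) .nil))))) (.nd (nat_lit 8) (.nd (nat_lit 9) 
(.lf (nat_lit 520418) (.g (nat_lit 2047) (.e (nat_lit 204830) (nat_lit 18) (.e (nat_lit 57854) (nat_lit 252) (.e (nat_lit 57378) (nat_lit 3) (.e (nat_lit 98342) (nat_lit 20) (.e (nat_lit 221213) (nat_lit 23) .nil))))) (.g (nat_lit 0) (.e (nat_lit 223963) (nat_lit 0) .nil) .nil))) 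
(.lf (nat_lit 520930) (.g (nat_lit 2204) (.e (nat_lit 204836) (nat_lit 20) (.e (nat_lit 114719) (nat_lit 23) (.e (nat_lit 98363) (nat_lit 26) (.e (nat_lit 426129) (nat_lit 3) (.e (nat_lit 204829) (nat_lit 18) .nil))))) (.g (nat_lit 0) (.e (nat_lit 224635) (nat_lit 0) .nil) .nil)))) (.nd (nat_lit 9) 
(.lf (nat_lit 520674) (.g (nat_lit 3110) (.e (nat_lit 204831) (nat_lit 18) (.e (nat_lit 57844) (nat_lit 252) (.e (nat_lit 57406) (nat_lit 12) (.e (nat_lit 336454) (nat_lit 34) (.e (nat_lit 483384) (nat_lit 23) .nil))))) (.g (nat_lit 0) (.e (nat_lit 224292) (nat_lit 0) .nil) .nil))) 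
(.lf (nat_lit 521186) (.g (nat_lit 4001) (.e (nat_lit 204837) (nat_lit 20) (.e (nat_lit 114719) (nat_lit 23) (.e (nat_lit 98356) (nat_lit 26) (.e (nat_lit 426438) (nat_lit 18) (.e (nat_lit 98334) (nat_lit 18) (.e (nat_lit 164330) (nat_lit 230) (.e (nat_lit 163872) (nat_lit 3) .nil))))))) (.g (nat_lit 1) (.e (nat_lit 225043) (nat_lit 0) .nil) .nil)))))))) 
(.nd (nat_lit 5) (.nd (nat_lit 6) (.nd (nat_lit 7) (.nd (nat_lit 8) (.nd (nat_lit 9) 
(.lf (nat_lit 520210) (.g (nat_lit 3887) (.e (nat_lit 204829) (nat_lit 18) (.e (nat_lit 57927) (nat_lit 282) (.e (nat_lit 163869) (nat_lit 2) (.e (nat_lit 196670) (nat_lit 14) (.e (nat_lit 73746) (nat_lit 3) (.e (nat_lit 516124) (nat_lit 2) (.e (nat_lit 213000) (nat_lit 9) (.e (nat_lit 2680) (nat_lit 168) .nil)))))))) (.g (nat_lit 1) (.e (nat_lit 223693) (nat_lit 0) .nil) .nil))) 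
(.lf (nat_lit 520722) (.g (nat_lit 846) (.e (nat_lit 204831) (nat_lit 18) (.e (nat_lit 57847) (nat_lit 252) (.e (nat_lit 57448) (nat_lit 19) (.e (nat_lit 393227) (nat_lit 9) .nil)))) (.g (nat_lit 0) (.e (nat_lit 224341) (nat_lit 0) .nil) .nil)))) (.nd (nat_lit 9) 
(.lf (nat_lit 520466) (.g (nat_lit 3216) (.e (nat_lit 204830) (nat_lit 18) (.e (nat_lit 57926) (nat_lit 282) (.e (nat_lit 163867) (nat_lit 2) (.e (nat_lit 196670) (nat_lit 14) (.e (nat_lit 73746) (nat_lit 3) (.e (nat_lit 516129) (nat_lit 3) (.e (nat_lit 221213) (nat_lit 23) .nil))))))) (.g (nat_lit 1) (.e (nat_lit 224019) (nat_lit 0) .nil) .nil))) 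
(.lf (nat_lit 520978) (.g (nat_lit 1960) (.e (nat_lit 204837) (nat_lit 20) (.e (nat_lit 114697) (nat_lit 11) (.e (nat_lit 426137) (nat_lit 3) (.e (nat_lit 204861) (nat_lit 26) (.e (nat_lit 336075) (nat_lit 9) (.e (nat_lit 336325) (nat_lit 18) .nil)))))) (.g (nat_lit 1) (.e (nat_lit 224708) (nat_lit 0) .nil) .nil))))) (.nd (nat_lit 8) (.nd (nat_lit 9) 
(.lf (nat_lit 520338) (.g (nat_lit 3852) (.e (nat_lit 204829) (nat_lit 18) (.e (nat_lit 57931) (nat_lit 282) (.e (nat_lit 163869) (nat_lit 2) (.e (nat_lit 196670) (nat_lit 14) (.e (nat_lit 73746) (nat_lit 3) (.e (nat_lit 516127) (nat_lit 2) (.e (nat_lit 213019) (nat_lit 9) (.e (nat_lit 2683) (nat_lit 168) .nil)))))))) (.g (nat_lit 1) (.e (nat_lit 223839) (nat_lit 0) .nil) .nil))) 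
(.lf (nat_lit 520850) (.g (nat_lit 3488) (.e (nat_lit 204831) (nat_lit 18) (.e (nat_lit 57931) (nat_lit 282) (.e (nat_lit 163874) (nat_lit 3) (.e (nat_lit 204862) (nat_lit 27) (.e (nat_lit 344117) (nat_lit 21) (.e (nat_lit 516123) (nat_lit 2) (.e (nat_lit 213013) (nat_lit 9) (.e (nat_lit 2681) (nat_lit 168) .nil)))))))) (.g (nat_lit 1) (.e (nat_lit 224517) (nat_lit 0) .nil) .nil)))) 
(.nd (nat_lit 9) 
(.lf (nat_lit 520594) (.g (nat_lit 3309) (.e (nat_lit 204830) (nat_lit 18) (.e (nat_lit 57927) (nat_lit 282) (.e (nat_lit 163875) (nat_lit 3) (.e (nat_lit 204863) (nat_lit 27) (.e (nat_lit 344117) (nat_lit 21) (.e (nat_lit 516130) (nat_lit 3) (.e (nat_lit 221213) (nat_lit 23) .nil))))))) (.g (nat_lit 1) (.e (nat_lit 224170) (nat_lit 0) .nil) .nil))) 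
(.lf (nat_lit 521106) (.g (nat_lit 2399) (.e (nat_lit 204837) (nat_lit 20) (.e (nat_lit 114714) (nat_lit 22) (.e (nat_lit 90174) (nat_lit 14) (.e (nat_lit 180243) (nat_lit 5) (.e (nat_lit 532501) (nat_lit 1) (.e (nat_lit 57692) (nat_lit 156) (.e (nat_lit 163872) (nat_lit 3) .nil))))))) (.g (nat_lit 1) (.e (nat_lit 224931) (nat_lit 0) .nil) .nil)))))) 
(.nd (nat_lit 7) (.nd (nat_lit 8) (.nd (nat_lit 9) 
(.lf (nat_lit 520274) (.g (nat_lit 2306) (.e (nat_lit 204829) (nat_lit 18) (.e (nat_lit 57927) (nat_lit 282) (.e (nat_lit 163871) (nat_lit 2) (.e (nat_lit 196670) (nat_lit 14) (.e (nat_lit 73746) (nat_lit 3) (.e (nat_lit 516127) (nat_lit 2) (.e (nat_lit 213022) (nat_lit 9) (.e (nat_lit 2683) (nat_lit 168) .nil)))))))) (.g (nat_lit 1) (.e (nat_lit 223763) (nat_lit 0) .nil) .nil))) 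
(.lf (nat_lit 520786) (.g (nat_lit 2355) (.e (nat_lit 204831) (nat_lit 18) (.e (nat_lit 57854) (nat_lit 252) (.e (nat_lit 57409) (nat_lit 12) (.e (nat_lit 336372) (nat_lit 27) .nil)))) (.g (nat_lit 0) (.e (nat_lit 224431) (nat_lit 0) .nil) .nil)))) (.nd (nat_lit 9) 
(.lf (nat_lit 520530) (.g (nat_lit 3497) (.e (nat_lit 204830) (nat_lit 18) (.e (nat_lit 57926) (nat_lit 282) (.e (nat_lit 163871) (nat_lit 2) (.e (nat_lit 196670) (nat_lit 14) (.e (nat_lit 73746) (nat_lit 3) (.e (nat_lit 516124) (nat_lit 2) (.e (nat_lit 213019) (nat_lit 9) (.e (nat_lit 2675) (nat_lit 168) .nil)))))))) (.g (nat_lit 1) (.e (nat_lit 224095) (nat_lit 0) .nil) .nil))) 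
(.lf (nat_lit 521042) (.g (nat_lit 3058) (.e (nat_lit 204837) (nat_lit 20) (.e (nat_lit 114698) (nat_lit 11) (.e (nat_lit 426138) (nat_lit 3) (.e (nat_lit 204861) (nat_lit 26) (.e (nat_lit 336076) (nat_lit 9) (.e (nat_lit 336325) (nat_lit 18) .nil)))))) (.g (nat_lit 1) (.e (nat_lit 224830) (nat_lit 0) .nil) .nil))))) (.nd (nat_lit 8) (.nd (nat_lit 9) 
(.lf (nat_lit 520402) (.g (nat_lit 2013) (.e (nat_lit 204830) (nat_lit 18) (.e (nat_lit 57852) (nat_lit 252) (.e (nat_lit 57406) (nat_lit 12) (.e (nat_lit 336455) (nat_lit 34) (.e (nat_lit 483381) (nat_lit 23) .nil))))) (.g (nat_lit 0) (.e (nat_lit 223941) (nat_lit 0) .nil) .nil))) 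
(.lf (nat_lit 520914) (.g (nat_lit 1381) (.e (nat_lit 204836) (nat_lit 20) (.e (nat_lit 114698) (nat_lit 11) (.e (nat_lit 426139) (nat_lit 3) (.e (nat_lit 204877) (nat_lit 31) .nil)))) (.g (nat_lit 0) (.e (nat_lit 224611) (nat_lit 0) .nil) .nil)))) (.nd (nat_lit 9) 
(.lf (nat_lit 520658) (.g (nat_lit 2158) (.e (nat_lit 204831) (nat_lit 18) (.e (nat_lit 57688) (nat_lit 156) (.e (nat_lit 163907) (nat_lit 12) (.e (nat_lit 426566) (nat_lit 34) (.e (nat_lit 393273) (nat_lit 23) .nil))))) (.g (nat_lit 0) (.e (nat_lit 224250) (nat_lit 0) .nil) .nil))) 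
(.lf (nat_lit 521170) (.g (nat_lit 3246) (.e (nat_lit 204837) (nat_lit 20) (.e (nat_lit 114718) (nat_lit 23) (.e (nat_lit 98384) (nat_lit 32) (.e (nat_lit 475177) (nat_lit 24) (.e (nat_lit 516115) (nat_lit 1) (.e (nat_lit 164332) (nat_lit 230) (.e (nat_lit 163874) (nat_lit 3) .nil))))))) (.g (nat_lit 1) (.e (nat_lit 225016) (nat_lit 0) .nil) .nil))))))) 
(.nd (nat_lit 6) (.nd (nat_lit 7) (.nd (nat_lit 8) (.nd (nat_lit 9) 
(.lf (nat_lit 520242) (.g (nat_lit 2669) (.e (nat_lit 204829) (nat_lit 18) (.e (nat_lit 57927) (nat_lit 282) (.e (nat_lit 163869) (nat_lit 2) (.e (nat_lit 196670) (nat_lit 14) (.e (nat_lit 73746) (nat_lit 3) (.e (nat_lit 516127) (nat_lit 2) (.e (nat_lit 213009) (nat_lit 9) (.e (nat_lit 2680) (nat_lit 168) .nil)))))))) (.g (nat_lit 1) (.e (nat_lit 223725) (nat_lit 0) .nil) .nil))) 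
(.lf (nat_lit 520754) (.g (nat_lit 1490) (.e (nat_lit 204831) (nat_lit 18) (.e (nat_lit 57851) (nat_lit 252) (.e (nat_lit 57406) (nat_lit 12) (.e (nat_lit 336379) (nat_lit 27) .nil)))) (.g (nat_lit 0) (.e (nat_lit 224379) (nat_lit 0) .nil) .nil)))) (.nd (nat_lit 9) 
(.lf (nat_lit 520498) (.g (nat_lit 3481) (.e (nat_lit 204830) (nat_lit 18) (.e (nat_lit 57926) (nat_lit 282) (.e (nat_lit 163869) (nat_lit 2) (.e (nat_lit 196670) (nat_lit 14) (.e (nat_lit 73746) (nat_lit 3) (.e (nat_lit 516124) (nat_lit 2) (.e (nat_lit 213019) (nat_lit 9) (.e (nat_lit 2684) (nat_lit 168) .nil)))))))) (.g (nat_lit 1) (.e (nat_lit 224061) (nat_lit 0) .nil) .nil))) 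
(.lf (nat_lit 521010) (.g (nat_lit 1593) (.e (nat_lit 204837) (nat_lit 20) (.e (nat_lit 114698) (nat_lit 11) (.e (nat_lit 426122) (nat_lit 2) (.e (nat_lit 196672) (nat_lit 15) (.e (nat_lit 89856) (nat_lit 3) .nil))))) (.g (nat_lit 1) (.e (nat_lit 224764) (nat_lit 0) .nil) .nil))))) (.nd (nat_lit 8) (.nd (nat_lit 9) 
(.lf (nat_lit 520370) (.g (nat_lit 2558) (.e (nat_lit 204830) (nat_lit 18) (.e (nat_lit 57691) (nat_lit 156) (.e (nat_lit 163907) (nat_lit 12) (.e (nat_lit 426566) (nat_lit 34) (.e (nat_lit 393279) (nat_lit 23) (.e (nat_lit 426129) (nat_lit 3) .nil)))))) (.g (nat_lit 1) (.e (nat_lit 223894) (nat_lit 0) .nil) .nil))) 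
(.lf (nat_lit 520882) (.g (nat_lit 2223) (.e (nat_lit 204835) (nat_lit 19) (.e (nat_lit 106536) (nat_lit 11) (.e (nat_lit 16413) (nat_lit 2) (.e (nat_lit 196666) (nat_lit 13) (.e (nat_lit 65591) (nat_lit 9) (.e (nat_lit 336326) (nat_lit 18) .nil)))))) (.g (nat_lit 1) (.e (nat_lit 224576) (nat_lit 0) .nil) .nil)))) (.nd (nat_lit 9) 
(.lf (nat_lit 520626) (.g (nat_lit 3231) (.e (nat_lit 204830) (nat_lit 18) (.e (nat_lit 57931) (nat_lit 282) (.e (nat_lit 163869) (nat_lit 2) (.e (nat_lit 196670) (nat_lit 14) (.e (nat_lit 73748) (nat_lit 3) (.e (nat_lit 516131) (nat_lit 3) (.e (nat_lit 221215) (nat_lit 23) .nil))))))) (.g (nat_lit 1) (.e (nat_lit 224204) (nat_lit 0) .nil) .nil))) 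
(.lf (nat_lit 521138) (.g (nat_lit 2067) (.e (nat_lit 204837) (nat_lit 20) (.e (nat_lit 114716) (nat_lit 22) (.e (nat_lit 90174) (nat_lit 14) (.e (nat_lit 180243) (nat_lit 5) (.e (nat_lit 532501) (nat_lit 1) (.e (nat_lit 57663) (nat_lit 152) (.e (nat_lit 2450) (nat_lit 157) (.e (nat_lit 2685) (nat_lit 168) .nil)))))))) (.g (nat_lit 1) (.e (nat_lit 224970) (nat_lit 0) .nil) .nil)))))) 
(.nd (nat_lit 7) (.nd (nat_lit 8) (.nd (nat_lit 9) 
(.lf (nat_lit 520306) (.g (nat_lit 2563) (.e (nat_lit 204829) (nat_lit 18) (.e (nat_lit 57928) (nat_lit 282) (.e (nat_lit 163875) (nat_lit 3) (.e (nat_lit 204862) (nat_lit 27) (.e (nat_lit 344117) (nat_lit 21) (.e (nat_lit 516123) (nat_lit 2) (.e (nat_lit 213013) (nat_lit 9) (.e (nat_lit 2684) (nat_lit 168) .nil)))))))) (.g (nat_lit 1) (.e (nat_lit 223798) (nat_lit 0) .nil) .nil))) 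
(.lf (nat_lit 520818) (.g (nat_lit 3853) (.e (nat_lit 204831) (nat_lit 18) (.e (nat_lit 57931) (nat_lit 282) (.e (nat_lit 163867) (nat_lit 2) (.e (nat_lit 196670) (nat_lit 14) (.e (nat_lit 73746) (nat_lit 3) (.e (nat_lit 516127) (nat_lit 2) (.e (nat_lit 213019) (nat_lit 9) (.e (nat_lit 2681) (nat_lit 168) .nil)))))))) (.g (nat_lit 1) (.e (nat_lit 224472) (nat_lit 0) .nil) .nil)))) 
(.nd (nat_lit 9) 
(.lf (nat_lit 520562) (.g (nat_lit 2286) (.e (nat_lit 204830) (nat_lit 18) (.e (nat_lit 57927) (nat_lit 282) (.e (nat_lit 163868) (nat_lit 2) (.e (nat_lit 196668) (nat_lit 14) (.e (nat_lit 73748) (nat_lit 3) .nil))))) (.g (nat_lit 0) (.e (nat_lit 224130) (nat_lit 0) .nil) .nil))) 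
(.lf (nat_lit 521074) (.g (nat_lit 2770) (.e (nat_lit 204837) (nat_lit 20) (.e (nat_lit 114714) (nat_lit 22) (.e (nat_lit 90172) (nat_lit 14) (.e (nat_lit 180243) (nat_lit 5) (.e (nat_lit 532499) (nat_lit 1) (.e (nat_lit 57657) (nat_lit 152) (.e (nat_lit 2433) (nat_lit 157) (.e (nat_lit 2685) (nat_lit 168) .nil)))))))) (.g (nat_lit 1) (.e (nat_lit 224896) (nat_lit 0) .nil) .nil))))) 
(.nd (nat_lit 8) (.nd (nat_lit 9) 
(.lf (nat_lit 520434) (.g (nat_lit 2930) (.e (nat_lit 204830) (nat_lit 18) (.e (nat_lit 57854) (nat_lit 252) (.e (nat_lit 57409) (nat_lit 12) (.e (nat_lit 336456) (nat_lit 34) (.e (nat_lit 483346) (nat_lit 17) (.e (nat_lit 6446) (nat_lit 343) (.e (nat_lit 174) (nat_lit 12) .nil))))))) (.g (nat_lit 1) (.e (nat_lit 223980) (nat_lit 0) .nil) .nil))) 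
(.lf (nat_lit 520946) (.g (nat_lit 1665) (.e (nat_lit 204837) (nat_lit 20) (.e (nat_lit 114694) (nat_lit 11) (.e (nat_lit 426116) (nat_lit 2) (.e (nat_lit 196681) (nat_lit 17) (.e (nat_lit 131105) (nat_lit 9) .nil))))) (.g (nat_lit 0) (.e (nat_lit 224651) (nat_lit 0) .nil) .nil)))) (.nd (nat_lit 9) 
(.lf (nat_lit 520690) (.g (nat_lit 1594) (.e (nat_lit 204831) (nat_lit 18) (.e (nat_lit 57846) (nat_lit 252) (.e (nat_lit 57407) (nat_lit 12) (.e (nat_lit 336456) (nat_lit 34) (.e (nat_lit 491264) (nat_lit 23) .nil))))) (.g (nat_lit 0) (.e (nat_lit 224308) (nat_lit 0) .nil) .nil))) 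
(.lf (nat_lit 521202) (.g (nat_lit 1465) (.e (nat_lit 204837) (nat_lit 20) (.e (nat_lit 114719) (nat_lit 23) (.e (nat_lit 98366) (nat_lit 27) (.e (nat_lit 434233) (nat_lit 23) .nil)))) (.g (nat_lit 0) (.e (nat_lit 225065) (nat_lit 0) .nil) .nil))))))))) (.nd (nat_lit 4) (.nd (nat_lit 5) (.nd (nat_lit 6) (.nd (nat_lit 7) (.nd (nat_lit 8) (.nd (nat_lit 9) 
(.lf (nat_lit 520202) (.g (nat_lit 3904) (.e (nat_lit 204829) (nat_lit 18) (.e (nat_lit 57927) (nat_lit 282) (.e (nat_lit 163869) (nat_lit 2) (.e (nat_lit 196666) (nat_lit 13) (.e (nat_lit 65571) (nat_lit 3) (.e (nat_lit 98341) (nat_lit 20) (.e (nat_lit 221213) (nat_lit 23) .nil))))))) (.g (nat_lit 1) (.e (nat_lit 223671) (nat_lit 0) .nil) .nil))) 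
(.lf (nat_lit 520714) (.g (nat_lit 1313) (.e (nat_lit 204831) (nat_lit 18) (.e (nat_lit 57847) (nat_lit 252) (.e (nat_lit 57411) (nat_lit 12) (.e (nat_lit 336456) (nat_lit 34) (.e (nat_lit 483391) (nat_lit 23) (.e (nat_lit 343808) (nat_lit 18) .nil)))))) (.g (nat_lit 1) (.e (nat_lit 224333) (nat_lit 0) .nil) .nil)))) (.nd (nat_lit 9) 
(.lf (nat_lit 520458) (.g (nat_lit 2496) (.e (nat_lit 204830) (nat_lit 18) (.e (nat_lit 57925) (nat_lit 282) (.e (nat_lit 163871) (nat_lit 2) (.e (nat_lit 196670) (nat_lit 14) (.e (nat_lit 73746) (nat_lit 3) (.e (nat_lit 516131) (nat_lit 3) (.e (nat_lit 221213) (nat_lit 23) .nil))))))) (.g (nat_lit 1) (.e (nat_lit 224010) (nat_lit 0) .nil) .nil))) 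
(.lf (nat_lit 520970) (.g (nat_lit 2929) (.e (nat_lit 204837) (nat_lit 20) (.e (nat_lit 114697) (nat_lit 11) (.e (nat_lit 426133) (nat_lit 3) (.e (nat_lit 204861) (nat_lit 26) (.e (nat_lit 336076) (nat_lit 9) (.e (nat_lit 336325) (nat_lit 18) .nil)))))) (.g (nat_lit 1) (.e (nat_lit 224700) (nat_lit 0) .nil) .nil))))) (.nd (nat_lit 8) (.nd (nat_lit 9) 
(.lf (nat_lit 520330) (.g (nat_lit 4629) (.e (nat_lit 204829) (nat_lit 18) (.e (nat_lit 57931) (nat_lit 282) (.e (nat_lit 163869) (nat_lit 2) (.e (nat_lit 196668) (nat_lit 14) (.e (nat_lit 73747) (nat_lit 3) (.e (nat_lit 516129) (nat_lit 3) (.e (nat_lit 221213) (nat_lit 23) .nil))))))) (.g (nat_lit 1) (.e (nat_lit 223831) (nat_lit 0) .nil) .nil))) 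
(.lf (nat_lit 520842) (.g (nat_lit 3389) (.e (nat_lit 204831) (nat_lit 18) (.e (nat_lit 57931) (nat_lit 282) (.e (nat_lit 163869) (nat_lit 2) (.e (nat_lit 196670) (nat_lit 14) (.e (nat_lit 73746) (nat_lit 3) (.e (nat_lit 516127) (nat_lit 2) (.e (nat_lit 213022) (nat_lit 9) (.e (nat_lit 2681) (nat_lit 168) .nil)))))))) (.g (nat_lit 1) (.e (nat_lit 224506) (nat_lit 0) .nil) .nil)))) 
(.nd (nat_lit 9) 
(.lf (nat_lit 520586) (.g (nat_lit 2372) (.e (nat_lit 204830) (nat_lit 18) (.e (nat_lit 57927) (nat_lit 282) (.e (nat_lit 163874) (nat_lit 3) (.e (nat_lit 204851) (nat_lit 26) (.e (nat_lit 336019) (nat_lit 3) .nil))))) (.g (nat_lit 0) (.e (nat_lit 224161) (nat_lit 0) .nil) .nil))) 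
(.lf (nat_lit 521098) (.g (nat_lit 3631) (.e (nat_lit 204837) (nat_lit 20) (.e (nat_lit 114714) (nat_lit 22) (.e (nat_lit 90174) (nat_lit 14) (.e (nat_lit 180243) (nat_lit 5) (.e (nat_lit 532499) (nat_lit 1) (.e (nat_lit 57655) (nat_lit 152) (.e (nat_lit 2399) (nat_lit 157) (.e (nat_lit 2685) (nat_lit 168) .nil)))))))) (.g (nat_lit 1) (.e (nat_lit 224923) (nat_lit 0) .nil) .nil)))))) 
(.nd (nat_lit 7) (.nd (nat_lit 8) (.nd (nat_lit 9) 
(.lf (nat_lit 520266) (.g (nat_lit 3213) (.e (nat_lit 204829) (nat_lit 18) (.e (nat_lit 57927) (nat_lit 282) (.e (nat_lit 163871) (nat_lit 2) (.e (nat_lit 196668) (nat_lit 14) (.e (nat_lit 73747) (nat_lit 3) (.e (nat_lit 516124) (nat_lit 2) (.e (nat_lit 213019) (nat_lit 9) (.e (nat_lit 2683) (nat_lit 168) .nil)))))))) (.g (nat_lit 1) (.e (nat_lit 223755) (nat_lit 0) .nil) .nil))) 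
(.lf (nat_lit 520778) (.g (nat_lit 4274) (.e (nat_lit 204831) (nat_lit 18) (.e (nat_lit 57854) (nat_lit 252) (.e (nat_lit 57378) (nat_lit 3) (.e (nat_lit 98341) (nat_lit 20) (.e (nat_lit 221214) (nat_lit 23) (.e (nat_lit 204852) (nat_lit 26) (.e (nat_lit 336326) (nat_lit 18) .nil))))))) (.g (nat_lit 1) (.e (nat_lit 224420) (nat_lit 0) .nil) .nil)))) (.nd (nat_lit 9) 
(.lf (nat_lit 520522) (.g (nat_lit 3093) (.e (nat_lit 204830) (nat_lit 18) (.e (nat_lit 57926) (nat_lit 282) (.e (nat_lit 163871) (nat_lit 2) (.e (nat_lit 196668) (nat_lit 14) (.e (nat_lit 73746) (nat_lit 3) (.e (nat_lit 516129) (nat_lit 3) (.e (nat_lit 221213) (nat_lit 23) .nil))))))) (.g (nat_lit 1) (.e (nat_lit 224087) (nat_lit 0) .nil) .nil))) 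
(.lf (nat_lit 521034) (.g (nat_lit 2637) (.e (nat_lit 204837) (nat_lit 20) (.e (nat_lit 114698) (nat_lit 11) (.e (nat_lit 426137) (nat_lit 3) (.e (nat_lit 204861) (nat_lit 26) (.e (nat_lit 336078) (nat_lit 9) (.e (nat_lit 336324) (nat_lit 18) .nil)))))) (.g (nat_lit 1) (.e (nat_lit 224818) (nat_lit 0) .nil) .nil))))) (.nd (nat_lit 8) (.nd (nat_lit 9) 
(.lf (nat_lit 520394) (.g (nat_lit 4096) (.e (nat_lit 204830) (nat_lit 18) (.e (nat_lit 57852) (nat_lit 252) (.e (nat_lit 57373) (nat_lit 2) (.e (nat_lit 90158) (nat_lit 11) (.e (nat_lit 24608) (nat_lit 3) (.e (nat_lit 98338) (nat_lit 19) (.e (nat_lit 213013) (nat_lit 9) (.e (nat_lit 2684) (nat_lit 168) .nil)))))))) (.g (nat_lit 1) (.e (nat_lit 223932) (nat_lit 0) .nil) .nil))) 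
(.lf (nat_lit 520906) (.g (nat_lit 1906) (.e (nat_lit 204836) (nat_lit 20) (.e (nat_lit 114698) (nat_lit 11) (.e (nat_lit 426124) (nat_lit 2) (.e (nat_lit 196674) (nat_lit 15) (.e (nat_lit 89856) (nat_lit 3) .nil))))) (.g (nat_lit 0) (.e (nat_lit 224603) (nat_lit 0) .nil) .nil)))) (.nd (nat_lit 9) 
(.lf (nat_lit 520650) (.g (nat_lit 2004) (.e (nat_lit 204831) (nat_lit 18) (.e (nat_lit 57688) (nat_lit 156) (.e (nat_lit 163903) (nat_lit 12) (.e (nat_lit 426566) (nat_lit 34) (.e (nat_lit 393272) (nat_lit 23) (.e (nat_lit 433920) (nat_lit 3) .nil)))))) (.g (nat_lit 1) (.e (nat_lit 224239) (nat_lit 0) .nil) .nil))) 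
(.lf (nat_lit 521162) (.g (nat_lit 3762) (.e (nat_lit 204837) (nat_lit 20) (.e (nat_lit 114718) (nat_lit 23) (.e (nat_lit 98366) (nat_lit 27) (.e (nat_lit 434231) (nat_lit 23) (.e (nat_lit 532500) (nat_lit 1) (.e (nat_lit 57690) (nat_lit 156) (.e (nat_lit 163875) (nat_lit 3) .nil))))))) (.g (nat_lit 1) (.e (nat_lit 225006) (nat_lit 0) .nil) .nil))))))) 
(.nd (nat_lit 6) (.nd (nat_lit 7) (.nd (nat_lit 8) (.nd (nat_lit 9) 
(.lf (nat_lit 520234) (.g (nat_lit 2378) (.e (nat_lit 204829) (nat_lit 18) (.e (nat_lit 57927) (nat_lit 282) (.e (nat_lit 163869) (nat_lit 2) (.e (nat_lit 196670) (nat_lit 14) (.e (nat_lit 73746) (nat_lit 3) (.e (nat_lit 516126) (nat_lit 2) (.e (nat_lit 213009) (nat_lit 9) (.e (nat_lit 2680) (nat_lit 168) .nil)))))))) (.g (nat_lit 1) (.e (nat_lit 223717) (nat_lit 0) .nil) .nil))) 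
(.lf (nat_lit 520746) (.g (nat_lit 2070) (.e (nat_lit 204831) (nat_lit 18) (.e (nat_lit 57849) (nat_lit 252) (.e (nat_lit 57411) (nat_lit 12) (.e (nat_lit 336456) (nat_lit 34) .nil)))) (.g (nat_lit 0) (.e (nat_lit 224371) (nat_lit 0) .nil) .nil)))) (.nd (nat_lit 9) 
(.lf (nat_lit 520490) (.g (nat_lit 3599) (.e (nat_lit 204830) (nat_lit 18) (.e (nat_lit 57926) (nat_lit 282) (.e (nat_lit 163869) (nat_lit 2) (.e (nat_lit 196670) (nat_lit 14) (.e (nat_lit 73746) (nat_lit 3) (.e (nat_lit 516124) (nat_lit 2) (.e (nat_lit 213016) (nat_lit 9) (.e (nat_lit 2683) (nat_lit 168) .nil)))))))) (.g (nat_lit 1) (.e (nat_lit 224053) (nat_lit 0) .nil) .nil))) 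
(.lf (nat_lit 521002) (.g (nat_lit 2757) (.e (nat_lit 204837) (nat_lit 20) (.e (nat_lit 114697) (nat_lit 11) (.e (nat_lit 426139) (nat_lit 3) (.e (nat_lit 204861) (nat_lit 26) (.e (nat_lit 336076) (nat_lit 9) (.e (nat_lit 336325) (nat_lit 18) .nil)))))) (.g (nat_lit 1) (.e (nat_lit 224735) (nat_lit 0) .nil) .nil))))) (.nd (nat_lit 8) (.nd (nat_lit 9) 
(.lf (nat_lit 520362) (.g (nat_lit 2744) (.e (nat_lit 204830) (nat_lit 18) (.e (nat_lit 57691) (nat_lit 156) (.e (nat_lit 163905) (nat_lit 12) (.e (nat_lit 426568) (nat_lit 34) (.e (nat_lit 393274) (nat_lit 23) (.e (nat_lit 426132) (nat_lit 3) .nil)))))) (.g (nat_lit 1) (.e (nat_lit 223878) (nat_lit 0) .nil) .nil))) 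
(.lf (nat_lit 520874) (.g (nat_lit 1560) (.e (nat_lit 204834) (nat_lit 19) (.e (nat_lit 106536) (nat_lit 11) (.e (nat_lit 16413) (nat_lit 2) (.e (nat_lit 196674) (nat_lit 15) (.e (nat_lit 89856) (nat_lit 3) .nil))))) (.g (nat_lit 0) (.e (nat_lit 224560) (nat_lit 0) .nil) .nil)))) (.nd (nat_lit 9) 
(.lf (nat_lit 520618) (.g (nat_lit 3793) (.e (nat_lit 204830) (nat_lit 18) (.e (nat_lit 57931) (nat_lit 282) (.e (nat_lit 163869) (nat_lit 2) (.e (nat_lit 196668) (nat_lit 14) (.e (nat_lit 73746) (nat_lit 3) (.e (nat_lit 516131) (nat_lit 3) (.e (nat_lit 221214) (nat_lit 23) .nil))))))) (.g (nat_lit 1) (.e (nat_lit 224195) (nat_lit 0) .nil) .nil))) 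
(.lf (nat_lit 521130) (.g (nat_lit 1650) (.e (nat_lit 204837) (nat_lit 20) (.e (nat_lit 114715) (nat_lit 22) (.e (nat_lit 90174) (nat_lit 14) (.e (nat_lit 180243) (nat_lit 5) (.e (nat_lit 532503) (nat_lit 1) .nil))))) (.g (nat_lit 0) (.e (nat_lit 224962) (nat_lit 0) .nil) .nil)))))) (.nd (nat_lit 7) (.nd (nat_lit 8) (.nd (nat_lit 9) 
(.lf (nat_lit 520298) (.g (nat_lit 3204) (.e (nat_lit 204829) (nat_lit 18) (.e (nat_lit 57927) (nat_lit 282) (.e (nat_lit 163875) (nat_lit 3) (.e (nat_lit 204873) (nat_lit 30) (.e (nat_lit 368676) (nat_lit 21) (.e (nat_lit 516131) (nat_lit 3) (.e (nat_lit 221213) (nat_lit 23) .nil))))))) (.g (nat_lit 1) (.e (nat_lit 223790) (nat_lit 0) .nil) .nil))) 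
(.lf (nat_lit 520810) (.g (nat_lit 2787) (.e (nat_lit 204831) (nat_lit 18) (.e (nat_lit 57931) (nat_lit 282) (.e (nat_lit 163867) (nat_lit 2) (.e (nat_lit 196670) (nat_lit 14) (.e (nat_lit 73746) (nat_lit 3) (.e (nat_lit 516124) (nat_lit 2) (.e (nat_lit 213022) (nat_lit 9) (.e (nat_lit 2683) (nat_lit 168) .nil)))))))) (.g (nat_lit 1) (.e (nat_lit 224464) (nat_lit 0) .nil) .nil)))) 
(.nd (nat_lit 9) 
(.lf (nat_lit 520554) (.g (nat_lit 2336) (.e (nat_lit 204830) (nat_lit 18) (.e (nat_lit 57927) (nat_lit 282) (.e (nat_lit 163866) (nat_lit 2) (.e (nat_lit 196670) (nat_lit 14) (.e (nat_lit 73746) (nat_lit 3) (.e (nat_lit 516131) (nat_lit 3) (.e (nat_lit 221213) (nat_lit 23) .nil))))))) (.g (nat_lit 1) (.e (nat_lit 224122) (nat_lit 0) .nil) .nil))) 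
(.lf (nat_lit 521066) (.g (nat_lit 1095) (.e (nat_lit 204837) (nat_lit 20) (.e (nat_lit 122624) (nat_lit 11) (.e (nat_lit 426140) (nat_lit 3) (.e (nat_lit 204865) (nat_lit 28) (.e (nat_lit 360192) (nat_lit 3) .nil))))) (.g (nat_lit 1) (.e (nat_lit 224866) (nat_lit 0) .nil) .nil))))) (.nd (nat_lit 8) (.nd (nat_lit 9) 
(.lf (nat_lit 520426) (.g (nat_lit 1860) (.e (nat_lit 204830) (nat_lit 18) (.e (nat_lit 57854) (nat_lit 252) (.e (nat_lit 57406) (nat_lit 12) (.e (nat_lit 336456) (nat_lit 34) (.e (nat_lit 483387) (nat_lit 23) .nil))))) (.g (nat_lit 0) (.e (nat_lit 223971) (nat_lit 0) .nil) .nil))) 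
(.lf (nat_lit 520938) (.g (nat_lit 2617) (.e (nat_lit 204836) (nat_lit 20) (.e (nat_lit 114719) (nat_lit 23) (.e (nat_lit 98367) (nat_lit 27) (.e (nat_lit 434231) (nat_lit 23) (.e (nat_lit 532502) (nat_lit 1) .nil))))) (.g (nat_lit 0) (.e (nat_lit 224643) (nat_lit 0) .nil) .nil)))) (.nd (nat_lit 9) 
(.lf (nat_lit 520682) (.g (nat_lit 2983) (.e (nat_lit 204831) (nat_lit 18) (.e (nat_lit 57846) (nat_lit 252) (.e (nat_lit 57406) (nat_lit 12) (.e (nat_lit 336454) (nat_lit 34) (.e (nat_lit 483385) (nat_lit 23) .nil))))) (.g (nat_lit 0) (.e (nat_lit 224300) (nat_lit 0) .nil) .nil))) 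
(.lf (nat_lit 521194) (.g (nat_lit 4754) (.e (nat_lit 204837) (nat_lit 20) (.e (nat_lit 114719) (nat_lit 23) (.e (nat_lit 98365) (nat_lit 26) (.e (nat_lit 426133) (nat_lit 3) (.e (nat_lit 204829) (nat_lit 18) (.e (nat_lit 57688) (nat_lit 156) (.e (nat_lit 163873) (nat_lit 3) .nil))))))) (.g (nat_lit 1) (.e (nat_lit 225057) (nat_lit 0) .nil) .nil)))))))) 
(.nd (nat_lit 5) (.nd (nat_lit 6) (.nd (nat_lit 7) (.nd (nat_lit 8) (.nd (nat_lit 9) 
(.lf (nat_lit 520218) (.g (nat_lit 3499) (.e (nat_lit 204829) (nat_lit 18) (.e (nat_lit 57927) (nat_lit 282) (.e (nat_lit 163869) (nat_lit 2) (.e (nat_lit 196670) (nat_lit 14) (.e (nat_lit 73746) (nat_lit 3) (.e (nat_lit 516124) (nat_lit 2) (.e (nat_lit 213016) (nat_lit 9) (.e (nat_lit 2683) (nat_lit 168) .nil)))))))) (.g (nat_lit 1) (.e (nat_lit 223701) (nat_lit 0) .nil) .nil))) 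
(.lf (nat_lit 520730) (.g (nat_lit 1732) (.e (nat_lit 204831) (nat_lit 18) (.e (nat_lit 57849) (nat_lit 252) (.e (nat_lit 57377) (nat_lit 3) (.e (nat_lit 98342) (nat_lit 20) .nil)))) (.g (nat_lit 0) (.e (nat_lit 224353) (nat_lit 0) .nil) .nil)))) (.nd (nat_lit 9) 
(.lf (nat_lit 520474) (.g (nat_lit 3899) (.e (nat_lit 204830) (nat_lit 18) (.e (nat_lit 57926) (nat_lit 282) (.e (nat_lit 163868) (nat_lit 2) (.e (nat_lit 196668) (nat_lit 14) (.e (nat_lit 73747) (nat_lit 3) (.e (nat_lit 516129) (nat_lit 3) (.e (nat_lit 221213) (nat_lit 23) .nil))))))) (.g (nat_lit 1) (.e (nat_lit 224028) (nat_lit 0) .nil) .nil))) 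
(.lf (nat_lit 520986) (.g (nat_lit 1511) (.e (nat_lit 204837) (nat_lit 20) (.e (nat_lit 114697) (nat_lit 11) (.e (nat_lit 426137) (nat_lit 3) (.e (nat_lit 204877) (nat_lit 31) (.e (nat_lit 384768) (nat_lit 3) .nil))))) (.g (nat_lit 1) (.e (nat_lit 224717) (nat_lit 0) .nil) .nil))))) (.nd (nat_lit 8) (.nd (nat_lit 9) 
(.lf (nat_lit 520346) (.g (nat_lit 3801) (.e (nat_lit 204829) (nat_lit 18) (.e (nat_lit 57931) (nat_lit 282) (.e (nat_lit 163874) (nat_lit 3) (.e (nat_lit 204862) (nat_lit 27) (.e (nat_lit 344117) (nat_lit 21) (.e (nat_lit 516123) (nat_lit 2) (.e (nat_lit 213013) (nat_lit 9) (.e (nat_lit 2684) (nat_lit 168) .nil)))))))) (.g (nat_lit 1) (.e (nat_lit 223851) (nat_lit 0) .nil) .nil))) 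
(.lf (nat_lit 520858) (.g (nat_lit 2078) (.e (nat_lit 204833) (nat_lit 19) (.e (nat_lit 106534) (nat_lit 11) (.e (nat_lit 16416) (nat_lit 3) (.e (nat_lit 204861) (nat_lit 26) (.e (nat_lit 336076) (nat_lit 9) .nil))))) (.g (nat_lit 0) (.e (nat_lit 224531) (nat_lit 0) .nil) .nil)))) (.nd (nat_lit 9) 
(.lf (nat_lit 520602) (.g (nat_lit 2951) (.e (nat_lit 204830) (nat_lit 18) (.e (nat_lit 57929) (nat_lit 282) (.e (nat_lit 163874) (nat_lit 3) (.e (nat_lit 204862) (nat_lit 27) (.e (nat_lit 344117) (nat_lit 21) (.e (nat_lit 516123) (nat_lit 2) (.e (nat_lit 213013) (nat_lit 9) (.e (nat_lit 2684) (nat_lit 168) .nil)))))))) (.g (nat_lit 1) (.e (nat_lit 224179) (nat_lit 0) .nil) .nil))) 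
(.lf (nat_lit 521114) (.g (nat_lit 2613) (.e (nat_lit 204837) (nat_lit 20) (.e (nat_lit 114714) (nat_lit 22) (.e (nat_lit 90174) (nat_lit 14) (.e (nat_lit 180243) (nat_lit 5) (.e (nat_lit 532504) (nat_lit 1) (.e (nat_lit 57690) (nat_lit 156) (.e (nat_lit 163872) (nat_lit 3) .nil))))))) (.g (nat_lit 1) (.e (nat_lit 224940) (nat_lit 0) .nil) .nil)))))) 
(.nd (nat_lit 7) (.nd (nat_lit 8) (.nd (nat_lit 9) 
(.lf (nat_lit 520282) (.g (nat_lit 3536) (.e (nat_lit 204829) (nat_lit 18) (.e (nat_lit 57927) (nat_lit 282) (.e (nat_lit 163874) (nat_lit 3) (.e (nat_lit 204862) (nat_lit 27) (.e (nat_lit 344117) (nat_lit 21) (.e (nat_lit 516123) (nat_lit 2) (.e (nat_lit 213000) (nat_lit 9) (.e (nat_lit 2680) (nat_lit 168) .nil)))))))) (.g (nat_lit 1) (.e (nat_lit 223772) (nat_lit 0) .nil) .nil))) 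
(.lf (nat_lit 520794) (.g (nat_lit 2556) (.e (nat_lit 204831) (nat_lit 18) (.e (nat_lit 57924) (nat_lit 282) (.e (nat_lit 163868) (nat_lit 2) (.e (nat_lit 196668) (nat_lit 14) (.e (nat_lit 73747) (nat_lit 3) (.e (nat_lit 516131) (nat_lit 3) (.e (nat_lit 221215) (nat_lit 23) .nil))))))) (.g (nat_lit 1) (.e (nat_lit 224441) (nat_lit 0) .nil) .nil)))) (.nd (nat_lit 9) 
(.lf (nat_lit 520538) (.g (nat_lit 5234) (.e (nat_lit 204830) (nat_lit 18) (.e (nat_lit 57926) (nat_lit 282) (.e (nat_lit 163874) (nat_lit 3) (.e (nat_lit 204863) (nat_lit 27) (.e (nat_lit 344117) (nat_lit 21) (.e (nat_lit 516099) (nat_lit 0) (.e (nat_lit 3771) (nat_lit 229) (.e (nat_lit 794673) (nat_lit 23) .nil)))))))) (.g (nat_lit 1) (.e (nat_lit 224103) (nat_lit 0) .nil) .nil))) 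
(.lf (nat_lit 521050) (.g (nat_lit 1960) (.e (nat_lit 204837) (nat_lit 20) (.e (nat_lit 114698) (nat_lit 11) (.e (nat_lit 426139) (nat_lit 3) (.e (nat_lit 204850) (nat_lit 26) .nil)))) (.g (nat_lit 0) (.e (nat_lit 224839) (nat_lit 0) .nil) .nil))))) (.nd (nat_lit 8) (.nd (nat_lit 9) 
(.lf (nat_lit 520410) (.g (nat_lit 807) (.e (nat_lit 204830) (nat_lit 18) (.e (nat_lit 57852) (nat_lit 252) (.e (nat_lit 57442) (nat_lit 18) .nil))) (.g (nat_lit 0) (.e (nat_lit 223951) (nat_lit 0) .nil) .nil))) 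
(.lf (nat_lit 520922) (.g (nat_lit 886) (.e (nat_lit 204836) (nat_lit 20) (.e (nat_lit 114718) (nat_lit 23) (.e (nat_lit 98363) (nat_lit 26) .nil))) (.g (nat_lit 0) (.e (nat_lit 224621) (nat_lit 0) .nil) .nil)))) (.nd (nat_lit 9) 
(.lf (nat_lit 520666) (.g (nat_lit 2315) (.e (nat_lit 204831) (nat_lit 18) (.e (nat_lit 57692) (nat_lit 156) (.e (nat_lit 163905) (nat_lit 12) (.e (nat_lit 426566) (nat_lit 34) (.e (nat_lit 393273) (nat_lit 23) (.e (nat_lit 433920) (nat_lit 3) .nil)))))) (.g (nat_lit 1) (.e (nat_lit 224279) (nat_lit 0) .nil) .nil))) 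
(.lf (nat_lit 521178) (.g (nat_lit 853) (.e (nat_lit 204837) (nat_lit 20) (.e (nat_lit 114719) (nat_lit 23) (.e (nat_lit 98335) (nat_lit 18) .nil))) (.g (nat_lit 0) (.e (nat_lit 225033) (nat_lit 0) .nil) .nil))))))) (.nd (nat_lit 6) (.nd (nat_lit 7) (.nd (nat_lit 8) (.nd (nat_lit 9) 
(.lf (nat_lit 520250) (.g (nat_lit 4009) (.e (nat_lit 204829) (nat_lit 18) (.e (nat_lit 57927) (nat_lit 282) (.e (nat_lit 163869) (nat_lit 2) (.e (nat_lit 196670) (nat_lit 14) (.e (nat_lit 73746) (nat_lit 3) (.e (nat_lit 516131) (nat_lit 3) (.e (nat_lit 221213) (nat_lit 23) .nil))))))) (.g (nat_lit 1) (.e (nat_lit 223733) (nat_lit 0) .nil) .nil))) 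
(.lf (nat_lit 520762) (.g (nat_lit 1999) (.e (nat_lit 204831) (nat_lit 18) (.e (nat_lit 57852) (nat_lit 252) (.e (nat_lit 57406) (nat_lit 12) (.e (nat_lit 336455) (nat_lit 34) (.e (nat_lit 483384) (nat_lit 23) .nil))))) (.g (nat_lit 0) (.e (nat_lit 224389) (nat_lit 0) .nil) .nil)))) (.nd (nat_lit 9) 
(.lf (nat_lit 520506) (.g (nat_lit 3054) (.e (nat_lit 204830) (nat_lit 18) (.e (nat_lit 57926) (nat_lit 282) (.e (nat_lit 163869) (nat_lit 2) (.e (nat_lit 196670) (nat_lit 14) (.e (nat_lit 73746) (nat_lit 3) (.e (nat_lit 516127) (nat_lit 2) (.e (nat_lit 213008) (nat_lit 9) (.e (nat_lit 2680) (nat_lit 168) .nil)))))))) (.g (nat_lit 1) (.e (nat_lit 224069) (nat_lit 0) .nil) .nil))) 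
(.lf (nat_lit 521018) (.g (nat_lit 3077) (.e (nat_lit 204837) (nat_lit 20) (.e (nat_lit 114698) (nat_lit 11) (.e (nat_lit 426133) (nat_lit 3) (.e (nat_lit 204861) (nat_lit 26) (.e (nat_lit 336075) (nat_lit 9) (.e (nat_lit 336325) (nat_lit 18) .nil)))))) (.g (nat_lit 1) (.e (nat_lit 224801) (nat_lit 0) .nil) .nil))))) (.nd (nat_lit 8) (.nd (nat_lit 9) 
(.lf (nat_lit 520378) (.g (nat_lit 1616) (.e (nat_lit 204830) (nat_lit 18) (.e (nat_lit 57692) (nat_lit 156) (.e (nat_lit 163905) (nat_lit 12) (.e (nat_lit 426481) (nat_lit 27) .nil)))) (.g (nat_lit 0) (.e (nat_lit 223906) (nat_lit 0) .nil) .nil))) 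
(.lf (nat_lit 520890) (.g (nat_lit 1898) (.e (nat_lit 204835) (nat_lit 19) (.e (nat_lit 106536) (nat_lit 11) (.e (nat_lit 16415) (nat_lit 3) (.e (nat_lit 204861) (nat_lit 26) (.e (nat_lit 336086) (nat_lit 9) .nil))))) (.g (nat_lit 0) (.e (nat_lit 224584) (nat_lit 0) .nil) .nil)))) (.nd (nat_lit 9) 
(.lf (nat_lit 520634) (.g (nat_lit 3634) (.e (nat_lit 204831) (nat_lit 18) (.e (nat_lit 57687) (nat_lit 156) (.e (nat_lit 163902) (nat_lit 12) (.e (nat_lit 426568) (nat_lit 34) (.e (nat_lit 393271) (nat_lit 23) (.e (nat_lit 426131) (nat_lit 3) .nil)))))) (.g (nat_lit 1) (.e (nat_lit 224217) (nat_lit 0) .nil) .nil))) 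
(.lf (nat_lit 521146) (.g (nat_lit 1954) (.e (nat_lit 204837) (nat_lit 20) (.e (nat_lit 114718) (nat_lit 23) (.e (nat_lit 98333) (nat_lit 18) (.e (nat_lit 164399) (nat_lit 256) (.e (nat_lit 57379) (nat_lit 3) .nil))))) (.g (nat_lit 0) (.e (nat_lit 224986) (nat_lit 0) .nil) .nil)))))) (.nd (nat_lit 7) (.nd (nat_lit 8) (.nd (nat_lit 9) 
(.lf (nat_lit 520314) (.g (nat_lit 3086) (.e (nat_lit 204829) (nat_lit 18) (.e (nat_lit 57931) (nat_lit 282) (.e (nat_lit 163867) (nat_lit 2) (.e (nat_lit 196668) (nat_lit 14) (.e (nat_lit 73746) (nat_lit 3) (.e (nat_lit 516131) (nat_lit 3) (.e (nat_lit 221213) (nat_lit 23) .nil))))))) (.g (nat_lit 1) (.e (nat_lit 223809) (nat_lit 0) .nil) .nil))) 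
(.lf (nat_lit 520826) (.g (nat_lit 1963) (.e (nat_lit 204831) (nat_lit 18) (.e (nat_lit 57931) (nat_lit 282) (.e (nat_lit 163869) (nat_lit 2) (.e (nat_lit 196666) (nat_lit 13) (.e (nat_lit 65569) (nat_lit 3) .nil))))) (.g (nat_lit 0) (.e (nat_lit 224480) (nat_lit 0) .nil) .nil)))) (.nd (nat_lit 9) 
(.lf (nat_lit 520570) (.g (nat_lit 1948) (.e (nat_lit 204830) (nat_lit 18) (.e (nat_lit 57927) (nat_lit 282) (.e (nat_lit 163869) (nat_lit 2) (.e (nat_lit 196670) (nat_lit 14) (.e (nat_lit 73746) (nat_lit 3) .nil))))) (.g (nat_lit 0) (.e (nat_lit 224141) (nat_lit 0) .nil) .nil))) 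
(.lf (nat_lit 521082) (.g (nat_lit 3468) (.e (nat_lit 204837) (nat_lit 20) (.e (nat_lit 114714) (nat_lit 22) (.e (nat_lit 90172) (nat_lit 14) (.e (nat_lit 180244) (nat_lit 5) (.e (nat_lit 532499) (nat_lit 1) (.e (nat_lit 57655) (nat_lit 152) (.e (nat_lit 2399) (nat_lit 157) (.e (nat_lit 2685) (nat_lit 168) .nil)))))))) (.g (nat_lit 1) (.e (nat_lit 224904) (nat_lit 0) .nil) .nil))))) 
(.nd (nat_lit 8) (.nd (nat_lit 9) 
(.lf (nat_lit 520442) (.g (nat_lit 1385) (.e (nat_lit 204830) (nat_lit 18) (.e (nat_lit 57854) (nat_lit 252) (.e (nat_lit 57445) (nat_lit 19) (.e (nat_lit 393226) (nat_lit 9) .nil)))) (.g (nat_lit 0) (.e (nat_lit 223988) (nat_lit 0) .nil) .nil))) 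
(.lf (nat_lit 520954) (.g (nat_lit 2698) (.e (nat_lit 204837) (nat_lit 20) (.e (nat_lit 114694) (nat_lit 11) (.e (nat_lit 426139) (nat_lit 3) (.e (nat_lit 204861) (nat_lit 26) (.e (nat_lit 336076) (nat_lit 9) (.e (nat_lit 336324) (nat_lit 18) .nil)))))) (.g (nat_lit 1) (.e (nat_lit 224661) (nat_lit 0) .nil) .nil)))) (.nd (nat_lit 9) 
(.lf (nat_lit 520698) (.g (nat_lit 1700) (.e (nat_lit 204831) (nat_lit 18) (.e (nat_lit 57847) (nat_lit 252) (.e (nat_lit 57379) (nat_lit 3) (.e (nat_lit 98340) (nat_lit 20) .nil)))) (.g (nat_lit 0) (.e (nat_lit 224316) (nat_lit 0) .nil) .nil))) 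
(.lf (nat_lit 521210) (.g (nat_lit 3019) (.e (nat_lit 204837) (nat_lit 20) (.e (nat_lit 114719) (nat_lit 23) (.e (nat_lit 98367) (nat_lit 27) (.e (nat_lit 434231) (nat_lit 23) (.e (nat_lit 532502) (nat_lit 1) (.e (nat_lit 57688) (nat_lit 156) (.e (nat_lit 163874) (nat_lit 3) .nil))))))) (.g (nat_lit 1) (.e (nat_lit 225074) (nat_lit 0) .nil) .nil)))))))))) 
(.nd (nat_lit 3) (.nd (nat_lit 4) (.nd (nat_lit 5) (.nd (nat_lit 6) (.nd (nat_lit 7) 
(.nd (nat_lit 8) (.nd (nat_lit 9) 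
(.lf (nat_lit 520198) (.g (nat_lit 2841) (.e (nat_lit 204829) (nat_lit 18) (.e (nat_lit 57927) (nat_lit 282) (.e (nat_lit 163868) (nat_lit 2) (.e (nat_lit 196670) (nat_lit 14) (.e (nat_lit 73746) (nat_lit 3) (.e (nat_lit 516127) (nat_lit 2) (.e (nat_lit 213019) (nat_lit 9) (.e (nat_lit 2683) (nat_lit 168) .nil)))))))) (.g (nat_lit 1) (.e (nat_lit 223664) (nat_lit 0) .nil) .nil))) 
(.lf (nat_lit 520710) (.g (nat_lit 1211) (.e (nat_lit 204831) (nat_lit 18) (.e (nat_lit 57847) (nat_lit 252) (.e (nat_lit 57411) (nat_lit 12) (.e (nat_lit 336366) (nat_lit 27) .nil)))) (.g (nat_lit 0) (.e (nat_lit 224328) (nat_lit 0) .nil) .nil)))) (.nd (nat_lit 9) 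
(.lf (nat_lit 520454) (.g (nat_lit 2833) (.e (nat_lit 204830) (nat_lit 18) (.e (nat_lit 57924) (nat_lit 282) (.e (nat_lit 163875) (nat_lit 3) (.e (nat_lit 204862) (nat_lit 27) (.e (nat_lit 344117) (nat_lit 21) (.e (nat_lit 516123) (nat_lit 2) (.e (nat_lit 213013) (nat_lit 9) (.e (nat_lit 2684) (nat_lit 168) .nil)))))))) (.g (nat_lit 1) (.e (nat_lit 224003) (nat_lit 0) .nil) .nil))) 
(.lf (nat_lit 520966) (.g (nat_lit 2461) (.e (nat_lit 204837) (nat_lit 20) (.e (nat_lit 114697) (nat_lit 11) (.e (nat_lit 426133) (nat_lit 3) (.e (nat_lit 204861) (nat_lit 26) (.e (nat_lit 336075) (nat_lit 9) (.e (nat_lit 336325) (nat_lit 18) .nil)))))) (.g (nat_lit 1) (.e (nat_lit 224696) (nat_lit 0) .nil) .nil))))) (.nd (nat_lit 8) (.nd (nat_lit 9) 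
(.lf (nat_lit 520326) (.g (nat_lit 1763) (.e (nat_lit 204829) (nat_lit 18) (.e (nat_lit 57931) (nat_lit 282) (.e (nat_lit 163869) (nat_lit 2) (.e (nat_lit 196668) (nat_lit 14) .nil)))) (.g (nat_lit 0) (.e (nat_lit 223822) (nat_lit 0) .nil) .nil))) 
(.lf (nat_lit 520838) (.g (nat_lit 3687) (.e (nat_lit 204831) (nat_lit 18) (.e (nat_lit 57931) (nat_lit 282) (.e (nat_lit 163869) (nat_lit 2) (.e (nat_lit 196670) (nat_lit 14) (.e (nat_lit 73746) (nat_lit 3) (.e (nat_lit 516124) (nat_lit 2) (.e (nat_lit 213019) (nat_lit 9) (.e (nat_lit 2684) (nat_lit 168) .nil)))))))) (.g (nat_lit 1) (.e (nat_lit 224502) (nat_lit 0) .nil) .nil)))) 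
(.nd (nat_lit 9) 
(.lf (nat_lit 520582) (.g (nat_lit 3473) (.e (nat_lit 204830) (nat_lit 18) (.e (nat_lit 57927) (nat_lit 282) (.e (nat_lit 163871) (nat_lit 2) (.e (nat_lit 196668) (nat_lit 14) (.e (nat_lit 73747) (nat_lit 3) (.e (nat_lit 516131) (nat_lit 3) (.e (nat_lit 221213) (nat_lit 23) .nil))))))) (.g (nat_lit 1) (.e (nat_lit 224155) (nat_lit 0) .nil) .nil))) 
(.lf (nat_lit 521094) (.g (nat_lit 2497) (.e (nat_lit 204837) (nat_lit 20) (.e (nat_lit 114714) (nat_lit 22) (.e (nat_lit 90172) (nat_lit 14) (.e (nat_lit 180244) (nat_lit 5) (.e (nat_lit 532504) (nat_lit 1) (.e (nat_lit 57692) (nat_lit 156) (.e (nat_lit 163872) (nat_lit 3) .nil))))))) (.g (nat_lit 1) (.e (nat_lit 224917) (nat_lit 0) .nil) .nil)))))) 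
(.nd (nat_lit 7) (.nd (nat_lit 8) (.nd (nat_lit 9) 
(.lf (nat_lit 520262) (.g (nat_lit 3260) (.e (nat_lit 204829) (nat_lit 18) (.e (nat_lit 57927) (nat_lit 282) (.e (nat_lit 163871) (nat_lit 2) (.e (nat_lit 196668) (nat_lit 14) (.e (nat_lit 73747) (nat_lit 3) (.e (nat_lit 516124) (nat_lit 2) (.e (nat_lit 213013) (nat_lit 9) (.e (nat_lit 2684) (nat_lit 168) .nil)))))))) (.g (nat_lit 1) (.e (nat_lit 223751) (nat_lit 0) .nil) .nil))) 
(.lf (nat_lit 520774) (.g (nat_lit 2625) (.e (nat_lit 204831) (nat_lit 18) (.e (nat_lit 57854) (nat_lit 252) (.e (nat_lit 57377) (nat_lit 3) (.e (nat_lit 98341) (nat_lit 20) .nil)))) (.g (nat_lit 0) (.e (nat_lit 224411) (nat_lit 0) .nil) .nil)))) (.nd (nat_lit 9) 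
(.lf (nat_lit 520518) (.g (nat_lit 2020) (.e (nat_lit 204830) (nat_lit 18) (.e (nat_lit 57926) (nat_lit 282) (.e (nat_lit 163871) (nat_lit 2) (.e (nat_lit 196668) (nat_lit 14) (.e (nat_lit 73746) (nat_lit 3) .nil))))) (.g (nat_lit 0) (.e (nat_lit 224083) (nat_lit 0) .nil) .nil))) 
(.lf (nat_lit 521030) (.g (nat_lit 2140) (.e (nat_lit 204837) (nat_lit 20) (.e (nat_lit 114698) (nat_lit 11) (.e (nat_lit 426137) (nat_lit 3) (.e (nat_lit 204861) (nat_lit 26) (.e (nat_lit 336075) (nat_lit 9) (.e (nat_lit 336326) (nat_lit 18) .nil)))))) (.g (nat_lit 1) (.e (nat_lit 224813) (nat_lit 0) .nil) .nil))))) (.nd (nat_lit 8) (.nd (nat_lit 9) 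
(.lf (nat_lit 520390) (.g (nat_lit 622) (.e (nat_lit 204830) (nat_lit 18) (.e (nat_lit 57852) (nat_lit 252) (.e (nat_lit 57361) (nat_lit 0) .nil))) (.g (nat_lit 0) (.e (nat_lit 223928) (nat_lit 0) .nil) .nil))) 
(.lf (nat_lit 520902) (.g (nat_lit 820) (.e (nat_lit 204836) (nat_lit 20) (.e (nat_lit 114698) (nat_lit 11) (.e (nat_lit 426122) (nat_lit 2) (.e (nat_lit 196674) (nat_lit 15) .nil)))) (.g (nat_lit 0) (.e (nat_lit 224596) (nat_lit 0) .nil) .nil)))) (.nd (nat_lit 9) 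
(.lf (nat_lit 520646) (.g (nat_lit 2552) (.e (nat_lit 204831) (nat_lit 18) (.e (nat_lit 57688) (nat_lit 156) (.e (nat_lit 163902) (nat_lit 12) (.e (nat_lit 426568) (nat_lit 34) (.e (nat_lit 393279) (nat_lit 23) (.e (nat_lit 426129) (nat_lit 3) .nil)))))) (.g (nat_lit 1) (.e (nat_lit 224235) (nat_lit 0) .nil) .nil))) 
(.lf (nat_lit 521158) (.g (nat_lit 3451) (.e (nat_lit 204837) (nat_lit 20) (.e (nat_lit 114718) (nat_lit 23) (.e (nat_lit 98365) (nat_lit 26) (.e (nat_lit 426137) (nat_lit 3) (.e (nat_lit 204829) (nat_lit 18) (.e (nat_lit 57692) (nat_lit 156) (.e (nat_lit 163875) (nat_lit 3) .nil))))))) (.g (nat_lit 1) (.e (nat_lit 225002) (nat_lit 0) .nil) .nil))))))) 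
(.nd (nat_lit 6) (.nd (nat_lit 7) (.nd (nat_lit 8) (.nd (nat_lit 9) 
(.lf (nat_lit 520230) (.g (nat_lit 3835) (.e (nat_lit 204829) (nat_lit 18) (.e (nat_lit 57927) (nat_lit 282) (.e (nat_lit 163869) (nat_lit 2) (.e (nat_lit 196670) (nat_lit 14) (.e (nat_lit 73746) (nat_lit 3) (.e (nat_lit 516124) (nat_lit 2) (.e (nat_lit 220928) (nat_lit 9) (.e (nat_lit 2685) (nat_lit 168) .nil)))))))) (.g (nat_lit 1) (.e (nat_lit 223713) (nat_lit 0) .nil) .nil))) 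
(.lf (nat_lit 520742) (.g (nat_lit 1995) (.e (nat_lit 204831) (nat_lit 18) (.e (nat_lit 57849) (nat_lit 252) (.e (nat_lit 57409) (nat_lit 12) (.e (nat_lit 336454) (nat_lit 34) .nil)))) (.g (nat_lit 0) (.e (nat_lit 224366) (nat_lit 0) .nil) .nil)))) (.nd (nat_lit 9) 
(.lf (nat_lit 520486) (.g (nat_lit 2905) (.e (nat_lit 204830) (nat_lit 18) (.e (nat_lit 57926) (nat_lit 282) (.e (nat_lit 163869) (nat_lit 2) (.e (nat_lit 196670) (nat_lit 14) (.e (nat_lit 73746) (nat_lit 3) (.e (nat_lit 516122) (nat_lit 2) (.e (nat_lit 213022) (nat_lit 9) (.e (nat_lit 2683) (nat_lit 168) .nil)))))))) (.g (nat_lit 1) (.e (nat_lit 224049) (nat_lit 0) .nil) .nil))) 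
(.lf (nat_lit 520998) (.g (nat_lit 1994) (.e (nat_lit 204837) (nat_lit 20) (.e (nat_lit 114697) (nat_lit 11) (.e (nat_lit 426139) (nat_lit 3) (.e (nat_lit 204861) (nat_lit 26) (.e (nat_lit 336074) (nat_lit 9) (.e (nat_lit 336324) (nat_lit 18) .nil)))))) (.g (nat_lit 1) (.e (nat_lit 224731) (nat_lit 0) .nil) .nil))))) (.nd (nat_lit 8) (.nd (nat_lit 9) 
(.lf (nat_lit 520358) (.g (nat_lit 3204) (.e (nat_lit 204830) (nat_lit 18) (.e (nat_lit 57691) (nat_lit 156) (.e (nat_lit 163905) (nat_lit 12) (.e (nat_lit 426479) (nat_lit 27) (.e (nat_lit 336443) (nat_lit 32) (.e (nat_lit 466981) (nat_lit 23) .nil)))))) (.g (nat_lit 1) (.e (nat_lit 223873) (nat_lit 0) .nil) .nil))) 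
(.lf (nat_lit 520870) (.g (nat_lit 2030) (.e (nat_lit 204834) (nat_lit 19) (.e (nat_lit 106536) (nat_lit 11) (.e (nat_lit 16412) (nat_lit 2) (.e (nat_lit 196681) (nat_lit 17) (.e (nat_lit 131105) (nat_lit 9) .nil))))) (.g (nat_lit 0) (.e (nat_lit 224555) (nat_lit 0) .nil) .nil)))) (.nd (nat_lit 9) 
(.lf (nat_lit 520614) (.g (nat_lit 2850) (.e (nat_lit 204830) (nat_lit 18) (.e (nat_lit 57931) (nat_lit 282) (.e (nat_lit 163869) (nat_lit 2) (.e (nat_lit 196666) (nat_lit 13) (.e (nat_lit 65571) (nat_lit 3) (.e (nat_lit 98341) (nat_lit 20) (.e (nat_lit 221213) (nat_lit 23) .nil))))))) (.g (nat_lit 1) (.e (nat_lit 224191) (nat_lit 0) .nil) .nil))) 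
(.lf (nat_lit 521126) (.g (nat_lit 1976) (.e (nat_lit 204837) (nat_lit 20) (.e (nat_lit 114715) (nat_lit 22) (.e (nat_lit 90170) (nat_lit 13) (.e (nat_lit 172067) (nat_lit 3) (.e (nat_lit 204829) (nat_lit 18) .nil))))) (.g (nat_lit 0) (.e (nat_lit 224956) (nat_lit 0) .nil) .nil)))))) (.nd (nat_lit 7) (.nd (nat_lit 8) (.nd (nat_lit 9) 
(.lf (nat_lit 520294) (.g (nat_lit 3807) (.e (nat_lit 204829) (nat_lit 18) (.e (nat_lit 57927) (nat_lit 282) (.e (nat_lit 163875) (nat_lit 3) (.e (nat_lit 204862) (nat_lit 27) (.e (nat_lit 344117) (nat_lit 21) (.e (nat_lit 516130) (nat_lit 3) (.e (nat_lit 221213) (nat_lit 23) .nil))))))) (.g (nat_lit 1) (.e (nat_lit 223786) (nat_lit 0) .nil) .nil))) 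
(.lf (nat_lit 520806) (.g (nat_lit 2381) (.e (nat_lit 204831) (nat_lit 18) (.e (nat_lit 57931) (nat_lit 282) (.e (nat_lit 163867) (nat_lit 2) (.e (nat_lit 196668) (nat_lit 14) (.e (nat_lit 73748) (nat_lit 3) .nil))))) (.g (nat_lit 0) (.e (nat_lit 224460) (nat_lit 0) .nil) .nil)))) (.nd (nat_lit 9) 
(.lf (nat_lit 520550) (.g (nat_lit 2402) (.e (nat_lit 204830) (nat_lit 18) (.e (nat_lit 57927) (nat_lit 282) (.e (nat_lit 163866) (nat_lit 2) (.e (nat_lit 196666) (nat_lit 13) (.e (nat_lit 65569) (nat_lit 3) .nil))))) (.g (nat_lit 0) (.e (nat_lit 224117) (nat_lit 0) .nil) .nil))) 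
(.lf (nat_lit 521062) (.g (nat_lit 2332) (.e (nat_lit 204837) (nat_lit 20) (.e (nat_lit 114698) (nat_lit 11) (.e (nat_lit 426139) (nat_lit 3) (.e (nat_lit 204877) (nat_lit 31) (.e (nat_lit 384768) (nat_lit 3) .nil))))) (.g (nat_lit 1) (.e (nat_lit 224851) (nat_lit 0) .nil) .nil))))) (.nd (nat_lit 8) (.nd (nat_lit 9) 
(.lf (nat_lit 520422) (.g (nat_lit 3582) (.e (nat_lit 204830) (nat_lit 18) (.e (nat_lit 57854) (nat_lit 252) (.e (nat_lit 57406) (nat_lit 12) (.e (nat_lit 336456) (nat_lit 34) (.e (nat_lit 483346) (nat_lit 17) (.e (nat_lit 6446) (nat_lit 343) (.e (nat_lit 174) (nat_lit 12) .nil))))))) (.g (nat_lit 1) (.e (nat_lit 223967) (nat_lit 0) .nil) .nil))) 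
(.lf (nat_lit 520934) (.g (nat_lit 1811) (.e (nat_lit 204836) (nat_lit 20) (.e (nat_lit 114719) (nat_lit 23) (.e (nat_lit 98366) (nat_lit 27) (.e (nat_lit 434232) (nat_lit 23) (.e (nat_lit 532499) (nat_lit 1) .nil))))) (.g (nat_lit 0) (.e (nat_lit 224639) (nat_lit 0) .nil) .nil)))) (.nd (nat_lit 9) 
(.lf (nat_lit 520678) (.g (nat_lit 2657) (.e (nat_lit 204831) (nat_lit 18) (.e (nat_lit 57844) (nat_lit 252) (.e (nat_lit 57406) (nat_lit 12) (.e (nat_lit 336456) (nat_lit 34) (.e (nat_lit 483387) (nat_lit 23) .nil))))) (.g (nat_lit 0) (.e (nat_lit 224296) (nat_lit 0) .nil) .nil))) 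
(.lf (nat_lit 521190) (.g (nat_lit 3729) (.e (nat_lit 204837) (nat_lit 20) (.e (nat_lit 114719) (nat_lit 23) (.e (nat_lit 98356) (nat_lit 26) (.e (nat_lit 426438) (nat_lit 18) (.e (nat_lit 98335) (nat_lit 18) (.e (nat_lit 164330) (nat_lit 230) (.e (nat_lit 163872) (nat_lit 3) .nil))))))) (.g (nat_lit 1) (.e (nat_lit 225047) (nat_lit 0) .nil) .nil)))))))) 
(.nd (nat_lit 5) (.nd (nat_lit 6) (.nd (nat_lit 7) (.nd (nat_lit 8) (.nd (nat_lit 9) 
(.lf (nat_lit 520214) (.g (nat_lit 2733) (.e (nat_lit 204829) (nat_lit 18) (.e (nat_lit 57927) (nat_lit 282) (.e (nat_lit 163869) (nat_lit 2) (.e (nat_lit 196670) (nat_lit 14) (.e (nat_lit 73746) (nat_lit 3) (.e (nat_lit 516124) (nat_lit 2) (.e (nat_lit 213008) (nat_lit 9) (.e (nat_lit 2685) (nat_lit 168) .nil)))))))) (.g (nat_lit 1) (.e (nat_lit 223697) (nat_lit 0) .nil) .nil))) 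
(.lf (nat_lit 520726) (.g (nat_lit 2112) (.e (nat_lit 204831) (nat_lit 18) (.e (nat_lit 57848) (nat_lit 252) (.e (nat_lit 57407) (nat_lit 12) (.e (nat_lit 336456) (nat_lit 34) (.e (nat_lit 483391) (nat_lit 23) (.e (nat_lit 343808) (nat_lit 18) .nil)))))) (.g (nat_lit 1) (.e (nat_lit 224346) (nat_lit 0) .nil) .nil)))) (.nd (nat_lit 9) 
(.lf (nat_lit 520470) (.g (nat_lit 3610) (.e (nat_lit 204830) (nat_lit 18) (.e (nat_lit 57926) (nat_lit 282) (.e (nat_lit 163868) (nat_lit 2) (.e (nat_lit 196668) (nat_lit 14) (.e (nat_lit 73746) (nat_lit 3) (.e (nat_lit 516124) (nat_lit 2) (.e (nat_lit 213019) (nat_lit 9) (.e (nat_lit 2675) (nat_lit 168) .nil)))))))) (.g (nat_lit 1) (.e (nat_lit 224024) (nat_lit 0) .nil) .nil))) 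
(.lf (nat_lit 520982) (.g (nat_lit 3221) (.e (nat_lit 204837) (nat_lit 20) (.e (nat_lit 114697) (nat_lit 11) (.e (nat_lit 426137) (nat_lit 3) (.e (nat_lit 204861) (nat_lit 26) (.e (nat_lit 336088) (nat_lit 9) (.e (nat_lit 336324) (nat_lit 18) .nil)))))) (.g (nat_lit 1) (.e (nat_lit 224712) (nat_lit 0) .nil) .nil))))) (.nd (nat_lit 8) (.nd (nat_lit 9) 
(.lf (nat_lit 520342) (.g (nat_lit 3195) (.e (nat_lit 204829) (nat_lit 18) (.e (nat_lit 57931) (nat_lit 282) (.e (nat_lit 163869) (nat_lit 2) (.e (nat_lit 196670) (nat_lit 14) (.e (nat_lit 73748) (nat_lit 3) .nil))))) (.g (nat_lit 0) (.e (nat_lit 223843) (nat_lit 0) .nil) .nil))) 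
(.lf (nat_lit 520854) (.g (nat_lit 2983) (.e (nat_lit 204831) (nat_lit 18) (.e (nat_lit 57931) (nat_lit 282) (.e (nat_lit 163874) (nat_lit 3) (.e (nat_lit 204872) (nat_lit 30) (.e (nat_lit 368676) (nat_lit 21) (.e (nat_lit 516100) (nat_lit 0) (.e (nat_lit 3771) (nat_lit 229) (.e (nat_lit 794673) (nat_lit 23) .nil)))))))) (.g (nat_lit 1) (.e (nat_lit 224521) (nat_lit 0) .nil) .nil)))) 
(.nd (nat_lit 9) 
(.lf (nat_lit 520598) (.g (nat_lit 2871) (.e (nat_lit 204830) (nat_lit 18) (.e (nat_lit 57929) (nat_lit 282) (.e (nat_lit 163869) (nat_lit 2) (.e (nat_lit 196668) (nat_lit 14) (.e (nat_lit 73746) (nat_lit 3) (.e (nat_lit 516131) (nat_lit 3) (.e (nat_lit 221214) (nat_lit 23) .nil))))))) (.g (nat_lit 1) (.e (nat_lit 224175) (nat_lit 0) .nil) .nil))) 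
(.lf (nat_lit 521110) (.g (nat_lit 2478) (.e (nat_lit 204837) (nat_lit 20) (.e (nat_lit 114714) (nat_lit 22) (.e (nat_lit 90174) (nat_lit 14) (.e (nat_lit 180243) (nat_lit 5) (.e (nat_lit 532503) (nat_lit 1) (.e (nat_lit 57657) (nat_lit 152) (.e (nat_lit 2433) (nat_lit 157) (.e (nat_lit 2685) (nat_lit 168) .nil)))))))) (.g (nat_lit 1) (.e (nat_lit 224935) (nat_lit 0) .nil) .nil)))))) 
(.nd (nat_lit 7) (.nd (nat_lit 8) (.nd (nat_lit 9) 
(.lf (nat_lit 520278) (.g (nat_lit 3485) (.e (nat_lit 204829) (nat_lit 18) (.e (nat_lit 57927) (nat_lit 282) (.e (nat_lit 163874) (nat_lit 3) (.e (nat_lit 204851) (nat_lit 26) (.e (nat_lit 336019) (nat_lit 3) (.e (nat_lit 98342) (nat_lit 20) (.e (nat_lit 221213) (nat_lit 23) .nil))))))) (.g (nat_lit 1) (.e (nat_lit 223767) (nat_lit 0) .nil) .nil))) 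
(.lf (nat_lit 520790) (.g (nat_lit 1760) (.e (nat_lit 204831) (nat_lit 18) (.e (nat_lit 57854) (nat_lit 252) (.e (nat_lit 57409) (nat_lit 12) (.e (nat_lit 336456) (nat_lit 34) (.e (nat_lit 483387) (nat_lit 23) .nil))))) (.g (nat_lit 0) (.e (nat_lit 224435) (nat_lit 0) .nil) .nil)))) (.nd (nat_lit 9) 
(.lf (nat_lit 520534) (.g (nat_lit 1628) (.e (nat_lit 204830) (nat_lit 18) (.e (nat_lit 57926) (nat_lit 282) (.e (nat_lit 163874) (nat_lit 3) (.e (nat_lit 204850) (nat_lit 26) .nil)))) (.g (nat_lit 0) (.e (nat_lit 224099) (nat_lit 0) .nil) .nil))) 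
(.lf (nat_lit 521046) (.g (nat_lit 1853) (.e (nat_lit 204837) (nat_lit 20) (.e (nat_lit 114698) (nat_lit 11) (.e (nat_lit 426138) (nat_lit 3) (.e (nat_lit 204865) (nat_lit 28) (.e (nat_lit 360192) (nat_lit 3) .nil))))) (.g (nat_lit 1) (.e (nat_lit 224835) (nat_lit 0) .nil) .nil))))) (.nd (nat_lit 8) (.nd (nat_lit 9) 
(.lf (nat_lit 520406) (.g (nat_lit 1174) (.e (nat_lit 204830) (nat_lit 18) (.e (nat_lit 57852) (nat_lit 252) (.e (nat_lit 57409) (nat_lit 12) (.e (nat_lit 336374) (nat_lit 27) .nil)))) (.g (nat_lit 0) (.e (nat_lit 223945) (nat_lit 0) .nil) .nil))) 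
(.lf (nat_lit 520918) (.g (nat_lit 2525) (.e (nat_lit 204836) (nat_lit 20) (.e (nat_lit 114715) (nat_lit 22) (.e (nat_lit 90170) (nat_lit 13) (.e (nat_lit 172067) (nat_lit 3) (.e (nat_lit 204828) (nat_lit 18) .nil))))) (.g (nat_lit 0) (.e (nat_lit 224616) (nat_lit 0) .nil) .nil)))) (.nd (nat_lit 9) 
(.lf (nat_lit 520662) (.g (nat_lit 2639) (.e (nat_lit 204831) (nat_lit 18) (.e (nat_lit 57691) (nat_lit 156) (.e (nat_lit 163905) (nat_lit 12) (.e (nat_lit 426566) (nat_lit 34) (.e (nat_lit 393271) (nat_lit 23) .nil))))) (.g (nat_lit 0) (.e (nat_lit 224268) (nat_lit 0) .nil) .nil))) 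
(.lf (nat_lit 521174) (.g (nat_lit 3682) (.e (nat_lit 204837) (nat_lit 20) (.e (nat_lit 114718) (nat_lit 23) (.e (nat_lit 98384) (nat_lit 32) (.e (nat_lit 475177) (nat_lit 24) (.e (nat_lit 516120) (nat_lit 1) (.e (nat_lit 164332) (nat_lit 230) (.e (nat_lit 163874) (nat_lit 3) .nil))))))) (.g (nat_lit 1) (.e (nat_lit 225022) (nat_lit 0) .nil) .nil))))))) 
(.nd (nat_lit 6) (.nd (nat_lit 7) (.nd (nat_lit 8) (.nd (nat_lit 9) 
(.lf (nat_lit 520246) (.g (nat_lit 3205) (.e (nat_lit 204829) (nat_lit 18) (.e (nat_lit 57927) (nat_lit 282) (.e (nat_lit 163869) (nat_lit 2) (.e (nat_lit 196670) (nat_lit 14) (.e (nat_lit 73746) (nat_lit 3) (.e (nat_lit 516127) (nat_lit 2) (.e (nat_lit 213019) (nat_lit 9) (.e (nat_lit 2675) (nat_lit 168) .nil)))))))) (.g (nat_lit 1) (.e (nat_lit 223729) (nat_lit 0) .nil) .nil))) 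
(.lf (nat_lit 520758) (.g (nat_lit 3163) (.e (nat_lit 204831) (nat_lit 18) (.e (nat_lit 57852) (nat_lit 252) (.e (nat_lit 57373) (nat_lit 2) (.e (nat_lit 90158) (nat_lit 11) (.e (nat_lit 24608) (nat_lit 3) (.e (nat_lit 98321) (nat_lit 17) (.e (nat_lit 3771) (nat_lit 229) (.e (nat_lit 794673) (nat_lit 23) .nil)))))))) (.g (nat_lit 1) (.e (nat_lit 224385) (nat_lit 0) .nil) .nil)))) (.nd (nat_lit 9) 
(.lf (nat_lit 520502) (.g (nat_lit 3082) (.e (nat_lit 204830) (nat_lit 18) (.e (nat_lit 57926) (nat_lit 282) (.e (nat_lit 163869) (nat_lit 2) (.e (nat_lit 196670) (nat_lit 14) (.e (nat_lit 73746) (nat_lit 3) (.e (nat_lit 516126) (nat_lit 2) (.e (nat_lit 213010) (nat_lit 9) (.e (nat_lit 2683) (nat_lit 168) .nil)))))))) (.g (nat_lit 1) (.e (nat_lit 224065) (nat_lit 0) .nil) .nil))) 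
(.lf (nat_lit 521014) (.g (nat_lit 2365) (.e (nat_lit 204837) (nat_lit 20) (.e (nat_lit 114698) (nat_lit 11) (.e (nat_lit 426132) (nat_lit 3) (.e (nat_lit 204861) (nat_lit 26) (.e (nat_lit 336076) (nat_lit 9) (.e (nat_lit 336324) (nat_lit 18) .nil)))))) (.g (nat_lit 1) (.e (nat_lit 224796) (nat_lit 0) .nil) .nil))))) (.nd (nat_lit 8) (.nd (nat_lit 9) 
(.lf (nat_lit 520374) (.g (nat_lit 2412) (.e (nat_lit 204830) (nat_lit 18) (.e (nat_lit 57691) (nat_lit 156) (.e (nat_lit 163907) (nat_lit 12) (.e (nat_lit 426568) (nat_lit 34) (.e (nat_lit 393281) (nat_lit 23) (.e (nat_lit 426137) (nat_lit 3) .nil)))))) (.g (nat_lit 1) (.e (nat_lit 223898) (nat_lit 0) .nil) .nil))) 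
(.lf (nat_lit 520886) (.g (nat_lit 1663) (.e (nat_lit 204835) (nat_lit 19) (.e (nat_lit 106536) (nat_lit 11) (.e (nat_lit 16413) (nat_lit 2) (.e (nat_lit 196681) (nat_lit 17) (.e (nat_lit 131107) (nat_lit 9) .nil))))) (.g (nat_lit 0) (.e (nat_lit 224580) (nat_lit 0) .nil) .nil)))) (.nd (nat_lit 9) 
(.lf (nat_lit 520630) (.g (nat_lit 1397) (.e (nat_lit 204831) (nat_lit 18) (.e (nat_lit 57685) (nat_lit 156) (.e (nat_lit 163903) (nat_lit 12) (.e (nat_lit 426479) (nat_lit 27) (.e (nat_lit 336430) (nat_lit 29) .nil))))) (.g (nat_lit 0) (.e (nat_lit 224211) (nat_lit 0) .nil) .nil))) 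
(.lf (nat_lit 521142) (.g (nat_lit 987) (.e (nat_lit 204837) (nat_lit 20) (.e (nat_lit 114716) (nat_lit 22) (.e (nat_lit 90185) (nat_lit 17) (.e (nat_lit 237592) (nat_lit 3) .nil)))) (.g (nat_lit 0) (.e (nat_lit 224974) (nat_lit 0) .nil) .nil)))))) (.nd (nat_lit 7) (.nd (nat_lit 8) (.nd (nat_lit 9) 
(.lf (nat_lit 520310) (.g (nat_lit 1542) (.e (nat_lit 204829) (nat_lit 18) (.e (nat_lit 57931) (nat_lit 282) (.e (nat_lit 163867) (nat_lit 2) (.e (nat_lit 196662) (nat_lit 13) .nil)))) (.g (nat_lit 0) (.e (nat_lit 223802) (nat_lit 0) .nil) .nil))) 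
(.lf (nat_lit 520822) (.g (nat_lit 4751) (.e (nat_lit 204831) (nat_lit 18) (.e (nat_lit 57931) (nat_lit 282) (.e (nat_lit 163867) (nat_lit 2) (.e (nat_lit 196670) (nat_lit 14) (.e (nat_lit 73746) (nat_lit 3) (.e (nat_lit 516131) (nat_lit 3) (.e (nat_lit 221215) (nat_lit 23) .nil))))))) (.g (nat_lit 1) (.e (nat_lit 224476) (nat_lit 0) .nil) .nil)))) (.nd (nat_lit 9) 
(.lf (nat_lit 520566) (.g (nat_lit 3923) (.e (nat_lit 204830) (nat_lit 18) (.e (nat_lit 57927) (nat_lit 282) (.e (nat_lit 163869) (nat_lit 2) (.e (nat_lit 196666) (nat_lit 13) (.e (nat_lit 65569) (nat_lit 3) (.e (nat_lit 98342) (nat_lit 20) (.e (nat_lit 221213) (nat_lit 23) .nil))))))) (.g (nat_lit 1) (.e (nat_lit 224134) (nat_lit 0) .nil) .nil))) 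
(.lf (nat_lit 521078) (.g (nat_lit 2731) (.e (nat_lit 204837) (nat_lit 20) (.e (nat_lit 114714) (nat_lit 22) (.e (nat_lit 90172) (nat_lit 14) (.e (nat_lit 180243) (nat_lit 5) (.e (nat_lit 532504) (nat_lit 1) (.e (nat_lit 57692) (nat_lit 156) (.e (nat_lit 163872) (nat_lit 3) .nil))))))) (.g (nat_lit 1) (.e (nat_lit 224900) (nat_lit 0) .nil) .nil))))) (.nd (nat_lit 8) (.nd (nat_lit 9) 
(.lf (nat_lit 520438) (.g (nat_lit 1840) (.e (nat_lit 204830) (nat_lit 18) (.e (nat_lit 57854) (nat_lit 252) (.e (nat_lit 57431) (nat_lit 16) (.e (nat_lit 368676) (nat_lit 21) (.e (nat_lit 516179) (nat_lit 15) .nil))))) (.g (nat_lit 0) (.e (nat_lit 223984) (nat_lit 0) .nil) .nil))) 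
(.lf (nat_lit 520950) (.g (nat_lit 1870) (.e (nat_lit 204837) (nat_lit 20) (.e (nat_lit 114694) (nat_lit 11) (.e (nat_lit 426133) (nat_lit 3) (.e (nat_lit 204861) (nat_lit 26) (.e (nat_lit 336076) (nat_lit 9) .nil))))) (.g (nat_lit 0) (.e (nat_lit 224656) (nat_lit 0) .nil) .nil)))) (.nd (nat_lit 9) 
(.lf (nat_lit 520694) (.g (nat_lit 4302) (.e (nat_lit 204831) (nat_lit 18) (.e (nat_lit 57846) (nat_lit 252) (.e (nat_lit 57445) (nat_lit 19) (.e (nat_lit 393229) (nat_lit 9) (.e (nat_lit 336150) (nat_lit 9) .nil))))) (.g (nat_lit 0) (.e (nat_lit 224312) (nat_lit 0) .nil) .nil))) 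
(.lf (nat_lit 521206) (.g (nat_lit 2534) (.e (nat_lit 204837) (nat_lit 20) (.e (nat_lit 114719) (nat_lit 23) (.e (nat_lit 98367) (nat_lit 27) (.e (nat_lit 434231) (nat_lit 23) (.e (nat_lit 532499) (nat_lit 1) (.e (nat_lit 57688) (nat_lit 156) (.e (nat_lit 163872) (nat_lit 3) .nil))))))) (.g (nat_lit 1) (.e (nat_lit 225070) (nat_lit 0) .nil) .nil))))))))) 
(.nd (nat_lit 4) (.nd (nat_lit 5) (.nd (nat_lit 6) (.nd (nat_lit 7) (.nd (nat_lit 8) 
(.nd (nat_lit 9) 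
(.lf (nat_lit 520206) (.g (nat_lit 1847) (.e (nat_lit 204829) (nat_lit 18) (.e (nat_lit 57927) (nat_lit 282) (.e (nat_lit 163869) (nat_lit 2) (.e (nat_lit 196670) (nat_lit 14) (.e (nat_lit 73746) (nat_lit 3) .nil))))) (.g (nat_lit 0) (.e (nat_lit 223689) (nat_lit 0) .nil) .nil))) 
(.lf (nat_lit 520718) (.g (nat_lit 1141) (.e (nat_lit 204831) (nat_lit 18) (.e (nat_lit 57847) (nat_lit 252) (.e (nat_lit 57447) (nat_lit 19) (.e (nat_lit 393227) (nat_lit 9) .nil)))) (.g (nat_lit 0) (.e (nat_lit 224337) (nat_lit 0) .nil) .nil)))) (.nd (nat_lit 9) 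
(.lf (nat_lit 520462) (.g (nat_lit 3266) (.e (nat_lit 204830) (nat_lit 18) (.e (nat_lit 57926) (nat_lit 282) (.e (nat_lit 163867) (nat_lit 2) (.e (nat_lit 196668) (nat_lit 14) (.e (nat_lit 73747) (nat_lit 3) (.e (nat_lit 516131) (nat_lit 3) (.e (nat_lit 221213) (nat_lit 23) .nil))))))) (.g (nat_lit 1) (.e (nat_lit 224015) (nat_lit 0) .nil) .nil))) 
(.lf (nat_lit 520974) (.g (nat_lit 1865) (.e (nat_lit 204837) (nat_lit 20) (.e (nat_lit 114697) (nat_lit 11) (.e (nat_lit 426137) (nat_lit 3) (.e (nat_lit 204859) (nat_lit 26) (.e (nat_lit 336116) (nat_lit 9) (.e (nat_lit 336323) (nat_lit 18) .nil)))))) (.g (nat_lit 1) (.e (nat_lit 224704) (nat_lit 0) .nil) .nil))))) (.nd (nat_lit 8) (.nd (nat_lit 9) 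
(.lf (nat_lit 520334) (.g (nat_lit 3595) (.e (nat_lit 204829) (nat_lit 18) (.e (nat_lit 57931) (nat_lit 282) (.e (nat_lit 163869) (nat_lit 2) (.e (nat_lit 196670) (nat_lit 14) (.e (nat_lit 73746) (nat_lit 3) (.e (nat_lit 516124) (nat_lit 2) (.e (nat_lit 213000) (nat_lit 9) (.e (nat_lit 2680) (nat_lit 168) .nil)))))))) (.g (nat_lit 1) (.e (nat_lit 223835) (nat_lit 0) .nil) .nil))) 
(.lf (nat_lit 520846) (.g (nat_lit 5871) (.e (nat_lit 204831) (nat_lit 18) (.e (nat_lit 57931) (nat_lit 282) (.e (nat_lit 163869) (nat_lit 2) (.e (nat_lit 196670) (nat_lit 14) (.e (nat_lit 73746) (nat_lit 3) (.e (nat_lit 516129) (nat_lit 3) (.e (nat_lit 221214) (nat_lit 23) .nil))))))) (.g (nat_lit 1) (.e (nat_lit 224510) (nat_lit 0) .nil) .nil)))) (.nd (nat_lit 9) 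
(.lf (nat_lit 520590) (.g (nat_lit 2576) (.e (nat_lit 204830) (nat_lit 18) (.e (nat_lit 57927) (nat_lit 282) (.e (nat_lit 163874) (nat_lit 3) (.e (nat_lit 204863) (nat_lit 27) (.e (nat_lit 344120) (nat_lit 21) .nil))))) (.g (nat_lit 0) (.e (nat_lit 224166) (nat_lit 0) .nil) .nil))) 
(.lf (nat_lit 521102) (.g (nat_lit 2770) (.e (nat_lit 204837) (nat_lit 20) (.e (nat_lit 114714) (nat_lit 22) (.e (nat_lit 90174) (nat_lit 14) (.e (nat_lit 180243) (nat_lit 5) (.e (nat_lit 532501) (nat_lit 1) (.e (nat_lit 57661) (nat_lit 152) (.e (nat_lit 2450) (nat_lit 157) (.e (nat_lit 2685) (nat_lit 168) .nil)))))))) (.g (nat_lit 1) (.e (nat_lit 224927) (nat_lit 0) .nil) .nil)))))) 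
(.nd (nat_lit 7) (.nd (nat_lit 8) (.nd (nat_lit 9) 
(.lf (nat_lit 520270) (.g (nat_lit 2932) (.e (nat_lit 204829) (nat_lit 18) (.e (nat_lit 57927) (nat_lit 282) (.e (nat_lit 163871) (nat_lit 2) (.e (nat_lit 196670) (nat_lit 14) (.e (nat_lit 73746) (nat_lit 3) (.e (nat_lit 516124) (nat_lit 2) (.e (nat_lit 213013) (nat_lit 9) (.e (nat_lit 2681) (nat_lit 168) .nil)))))))) (.g (nat_lit 1) (.e (nat_lit 223759) (nat_lit 0) .nil) .nil))) 
(.lf (nat_lit 520782) (.g (nat_lit 2098) (.e (nat_lit 204831) (nat_lit 18) (.e (nat_lit 57854) (nat_lit 252) (.e (nat_lit 57406) (nat_lit 12) (.e (nat_lit 336414) (nat_lit 27) .nil)))) (.g (nat_lit 0) (.e (nat_lit 224427) (nat_lit 0) .nil) .nil)))) (.nd (nat_lit 9) 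
(.lf (nat_lit 520526) (.g (nat_lit 3729) (.e (nat_lit 204830) (nat_lit 18) (.e (nat_lit 57926) (nat_lit 282) (.e (nat_lit 163871) (nat_lit 2) (.e (nat_lit 196668) (nat_lit 14) (.e (nat_lit 73747) (nat_lit 3) (.e (nat_lit 516129) (nat_lit 3) (.e (nat_lit 221213) (nat_lit 23) .nil))))))) (.g (nat_lit 1) (.e (nat_lit 224091) (nat_lit 0) .nil) .nil))) 
(.lf (nat_lit 521038) (.g (nat_lit 2281) (.e (nat_lit 204837) (nat_lit 20) (.e (nat_lit 114698) (nat_lit 11) (.e (nat_lit 426138) (nat_lit 3) (.e (nat_lit 204861) (nat_lit 26) (.e (nat_lit 336075) (nat_lit 9) (.e (nat_lit 336322) (nat_lit 18) .nil)))))) (.g (nat_lit 1) (.e (nat_lit 224826) (nat_lit 0) .nil) .nil))))) (.nd (nat_lit 8) (.nd (nat_lit 9) 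
(.lf (nat_lit 520398) (.g (nat_lit 4358) (.e (nat_lit 204830) (nat_lit 18) (.e (nat_lit 57852) (nat_lit 252) (.e (nat_lit 57377) (nat_lit 3) (.e (nat_lit 98317) (nat_lit 9) (.e (nat_lit 336026) (nat_lit 3) (.e (nat_lit 98321) (nat_lit 17) (.e (nat_lit 3771) (nat_lit 229) (.e (nat_lit 794673) (nat_lit 23) .nil)))))))) (.g (nat_lit 1) (.e (nat_lit 223936) (nat_lit 0) .nil) .nil))) 
(.lf (nat_lit 520910) (.g (nat_lit 2498) (.e (nat_lit 204836) (nat_lit 20) (.e (nat_lit 114698) (nat_lit 11) (.e (nat_lit 426139) (nat_lit 3) (.e (nat_lit 204861) (nat_lit 26) (.e (nat_lit 336076) (nat_lit 9) .nil))))) (.g (nat_lit 0) (.e (nat_lit 224607) (nat_lit 0) .nil) .nil)))) (.nd (nat_lit 9) 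
(.lf (nat_lit 520654) (.g (nat_lit 1704) (.e (nat_lit 204831) (nat_lit 18) (.e (nat_lit 57688) (nat_lit 156) (.e (nat_lit 163903) (nat_lit 12) (.e (nat_lit 426568) (nat_lit 34) (.e (nat_lit 393277) (nat_lit 23) .nil))))) (.g (nat_lit 0) (.e (nat_lit 224243) (nat_lit 0) .nil) .nil))) 
(.lf (nat_lit 521166) (.g (nat_lit 1986) (.e (nat_lit 204837) (nat_lit 20) (.e (nat_lit 114718) (nat_lit 23) (.e (nat_lit 98376) (nat_lit 30) (.e (nat_lit 458789) (nat_lit 23) (.e (nat_lit 532502) (nat_lit 1) .nil))))) (.g (nat_lit 0) (.e (nat_lit 225012) (nat_lit 0) .nil) .nil))))))) (.nd (nat_lit 6) (.nd (nat_lit 7) (.nd (nat_lit 8) (.nd (nat_lit 9) 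
(.lf (nat_lit 520238) (.g (nat_lit 2745) (.e (nat_lit 204829) (nat_lit 18) (.e (nat_lit 57927) (nat_lit 282) (.e (nat_lit 163869) (nat_lit 2) (.e (nat_lit 196670) (nat_lit 14) (.e (nat_lit 73746) (nat_lit 3) (.e (nat_lit 516126) (nat_lit 2) (.e (nat_lit 213022) (nat_lit 9) (.e (nat_lit 2681) (nat_lit 168) .nil)))))))) (.g (nat_lit 1) (.e (nat_lit 223721) (nat_lit 0) .nil) .nil))) 
(.lf (nat_lit 520750) (.g (nat_lit 1103) (.e (nat_lit 204831) (nat_lit 18) (.e (nat_lit 57849) (nat_lit 252) (.e (nat_lit 57445) (nat_lit 19) (.e (nat_lit 393227) (nat_lit 9) (.e (nat_lit 336113) (nat_lit 9) .nil))))) (.g (nat_lit 0) (.e (nat_lit 224375) (nat_lit 0) .nil) .nil)))) (.nd (nat_lit 9) 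
(.lf (nat_lit 520494) (.g (nat_lit 2594) (.e (nat_lit 204830) (nat_lit 18) (.e (nat_lit 57926) (nat_lit 282) (.e (nat_lit 163869) (nat_lit 2) (.e (nat_lit 196670) (nat_lit 14) (.e (nat_lit 73746) (nat_lit 3) (.e (nat_lit 516124) (nat_lit 2) (.e (nat_lit 213023) (nat_lit 9) (.e (nat_lit 2683) (nat_lit 168) .nil)))))))) (.g (nat_lit 1) (.e (nat_lit 224057) (nat_lit 0) .nil) .nil))) 
(.lf (nat_lit 521006) (.g (nat_lit 1590) (.e (nat_lit 204837) (nat_lit 20) (.e (nat_lit 114697) (nat_lit 11) (.e (nat_lit 426139) (nat_lit 3) (.e (nat_lit 204876) (nat_lit 31) (.e (nat_lit 384768) (nat_lit 3) .nil))))) (.g (nat_lit 1) (.e (nat_lit 224740) (nat_lit 0) .nil) .nil))))) (.nd (nat_lit 8) (.nd (nat_lit 9) 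
(.lf (nat_lit 520366) (.g (nat_lit 3084) (.e (nat_lit 204830) (nat_lit 18) (.e (nat_lit 57691) (nat_lit 156) (.e (nat_lit 163907) (nat_lit 12) (.e (nat_lit 426479) (nat_lit 27) (.e (nat_lit 336443) (nat_lit 32) (.e (nat_lit 466979) (nat_lit 23) .nil)))))) (.g (nat_lit 1) (.e (nat_lit 223885) (nat_lit 0) .nil) .nil))) 
(.lf (nat_lit 520878) (.g (nat_lit 1223) (.e (nat_lit 204834) (nat_lit 19) (.e (nat_lit 106536) (nat_lit 11) (.e (nat_lit 16417) (nat_lit 3) (.e (nat_lit 204854) (nat_lit 26) .nil)))) (.g (nat_lit 0) (.e (nat_lit 224564) (nat_lit 0) .nil) .nil)))) (.nd (nat_lit 9) 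
(.lf (nat_lit 520622) (.g (nat_lit 4116) (.e (nat_lit 204830) (nat_lit 18) (.e (nat_lit 57931) (nat_lit 282) (.e (nat_lit 163869) (nat_lit 2) (.e (nat_lit 196670) (nat_lit 14) (.e (nat_lit 73746) (nat_lit 3) (.e (nat_lit 516124) (nat_lit 2) (.e (nat_lit 213013) (nat_lit 9) (.e (nat_lit 2684) (nat_lit 168) .nil)))))))) (.g (nat_lit 1) (.e (nat_lit 224200) (nat_lit 0) .nil) .nil))) 
(.lf (nat_lit 521134) (.g (nat_lit 3458) (.e (nat_lit 204837) (nat_lit 20) (.e (nat_lit 114716) (nat_lit 22) (.e (nat_lit 90172) (nat_lit 14) (.e (nat_lit 180244) (nat_lit 5) (.e (nat_lit 532503) (nat_lit 1) (.e (nat_lit 57654) (nat_lit 152) (.e (nat_lit 2399) (nat_lit 157) (.e (nat_lit 2685) (nat_lit 168) .nil)))))))) (.g (nat_lit 1) (.e (nat_lit 224966) (nat_lit 0) .nil) .nil)))))) 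
(.nd (nat_lit 7) (.nd (nat_lit 8) (.nd (nat_lit 9) 
(.lf (nat_lit 520302) (.g (nat_lit 2974) (.e (nat_lit 204829) (nat_lit 18) (.e (nat_lit 57928) (nat_lit 282) (.e (nat_lit 163868) (nat_lit 2) (.e (nat_lit 196670) (nat_lit 14) (.e (nat_lit 73746) (nat_lit 3) (.e (nat_lit 516131) (nat_lit 3) (.e (nat_lit 221215) (nat_lit 23) .nil))))))) (.g (nat_lit 1) (.e (nat_lit 223794) (nat_lit 0) .nil) .nil))) 
(.lf (nat_lit 520814) (.g (nat_lit 2504) (.e (nat_lit 204831) (nat_lit 18) (.e (nat_lit 57931) (nat_lit 282) (.e (nat_lit 163867) (nat_lit 2) (.e (nat_lit 196670) (nat_lit 14) (.e (nat_lit 73746) (nat_lit 3) (.e (nat_lit 516126) (nat_lit 2) (.e (nat_lit 213022) (nat_lit 9) (.e (nat_lit 2681) (nat_lit 168) .nil)))))))) (.g (nat_lit 1) (.e (nat_lit 224468) (nat_lit 0) .nil) .nil)))) 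
(.nd (nat_lit 9) 
(.lf (nat_lit 520558) (.g (nat_lit 3462) (.e (nat_lit 204830) (nat_lit 18) (.e (nat_lit 57927) (nat_lit 282) (.e (nat_lit 163868) (nat_lit 2) (.e (nat_lit 196668) (nat_lit 14) (.e (nat_lit 73746) (nat_lit 3) (.e (nat_lit 516129) (nat_lit 3) (.e (nat_lit 221213) (nat_lit 23) .nil))))))) (.g (nat_lit 1) (.e (nat_lit 224126) (nat_lit 0) .nil) .nil))) 
(.lf (nat_lit 521070) (.g (nat_lit 2243) (.e (nat_lit 204837) (nat_lit 20) (.e (nat_lit 114714) (nat_lit 22) (.e (nat_lit 90170) (nat_lit 13) (.e (nat_lit 172065) (nat_lit 3) (.e (nat_lit 204829) (nat_lit 18) .nil))))) (.g (nat_lit 0) (.e (nat_lit 224891) (nat_lit 0) .nil) .nil))))) (.nd (nat_lit 8) (.nd (nat_lit 9) 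
(.lf (nat_lit 520430) (.g (nat_lit 1640) (.e (nat_lit 204830) (nat_lit 18) (.e (nat_lit 57854) (nat_lit 252) (.e (nat_lit 57409) (nat_lit 12) (.e (nat_lit 336452) (nat_lit 34) .nil)))) (.g (nat_lit 0) (.e (nat_lit 223975) (nat_lit 0) .nil) .nil))) 
(.lf (nat_lit 520942) (.g (nat_lit 1904) (.e (nat_lit 204836) (nat_lit 20) (.e (nat_lit 114719) (nat_lit 23) (.e (nat_lit 98367) (nat_lit 27) (.e (nat_lit 434232) (nat_lit 23) (.e (nat_lit 532504) (nat_lit 1) .nil))))) (.g (nat_lit 0) (.e (nat_lit 224647) (nat_lit 0) .nil) .nil)))) (.nd (nat_lit 9) 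
(.lf (nat_lit 520686) (.g (nat_lit 1215) (.e (nat_lit 204831) (nat_lit 18) (.e (nat_lit 57846) (nat_lit 252) (.e (nat_lit 57407) (nat_lit 12) (.e (nat_lit 336455) (nat_lit 34) .nil)))) (.g (nat_lit 0) (.e (nat_lit 224304) (nat_lit 0) .nil) .nil))) 
(.lf (nat_lit 521198) (.g (nat_lit 1328) (.e (nat_lit 204837) (nat_lit 20) (.e (nat_lit 114719) (nat_lit 23) (.e (nat_lit 98366) (nat_lit 27) (.e (nat_lit 434231) (nat_lit 23) .nil)))) (.g (nat_lit 0) (.e (nat_lit 225061) (nat_lit 0) .nil) .nil)))))))) (.nd (nat_lit 5) (.nd (nat_lit 6) (.nd (nat_lit 7) (.nd (nat_lit 8) (.nd (nat_lit 9) 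
(.lf (nat_lit 520222) (.g (nat_lit 2494) (.e (nat_lit 204829) (nat_lit 18) (.e (nat_lit 57927) (nat_lit 282) (.e (nat_lit 163869) (nat_lit 2) (.e (nat_lit 196670) (nat_lit 14) (.e (nat_lit 73746) (nat_lit 3) (.e (nat_lit 516124) (nat_lit 2) (.e (nat_lit 213023) (nat_lit 9) (.e (nat_lit 2683) (nat_lit 168) .nil)))))))) (.g (nat_lit 1) (.e (nat_lit 223705) (nat_lit 0) .nil) .nil))) 
(.lf (nat_lit 520734) (.g (nat_lit 1640) (.e (nat_lit 204831) (nat_lit 18) (.e (nat_lit 57849) (nat_lit 252) (.e (nat_lit 57407) (nat_lit 12) (.e (nat_lit 336375) (nat_lit 27) .nil)))) (.g (nat_lit 0) (.e (nat_lit 224358) (nat_lit 0) .nil) .nil)))) (.nd (nat_lit 9) 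
(.lf (nat_lit 520478) (.g (nat_lit 4046) (.e (nat_lit 204830) (nat_lit 18) (.e (nat_lit 57926) (nat_lit 282) (.e (nat_lit 163868) (nat_lit 2) (.e (nat_lit 196670) (nat_lit 14) (.e (nat_lit 73746) (nat_lit 3) (.e (nat_lit 516124) (nat_lit 2) (.e (nat_lit 213019) (nat_lit 9) (.e (nat_lit 2683) (nat_lit 168) .nil)))))))) (.g (nat_lit 1) (.e (nat_lit 224032) (nat_lit 0) .nil) .nil))) 
(.lf (nat_lit 520990) (.g (nat_lit 1827) (.e (nat_lit 204837) (nat_lit 20) (.e (nat_lit 114697) (nat_lit 11) (.e (nat_lit 426138) (nat_lit 3) (.e (nat_lit 204861) (nat_lit 26) (.e (nat_lit 336075) (nat_lit 9) (.e (nat_lit 336325) (nat_lit 18) .nil)))))) (.g (nat_lit 1) (.e (nat_lit 224722) (nat_lit 0) .nil) .nil))))) (.nd (nat_lit 8) (.nd (nat_lit 9) 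
(.lf (nat_lit 520350) (.g (nat_lit 1127) (.e (nat_lit 204830) (nat_lit 18) (.e (nat_lit 57663) (nat_lit 152) (.e (nat_lit 2630) (nat_lit 164) (.e (nat_lit 172039) (nat_lit 0) .nil)))) (.g (nat_lit 0) (.e (nat_lit 223857) (nat_lit 0) .nil) .nil))) 
(.lf (nat_lit 520862) (.g (nat_lit 2320) (.e (nat_lit 204833) (nat_lit 19) (.e (nat_lit 106536) (nat_lit 11) (.e (nat_lit 16412) (nat_lit 2) (.e (nat_lit 196668) (nat_lit 14) (.e (nat_lit 81664) (nat_lit 40) .nil))))) (.g (nat_lit 0) (.e (nat_lit 224538) (nat_lit 0) .nil) .nil)))) (.nd (nat_lit 9) 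
(.lf (nat_lit 520606) (.g (nat_lit 2047) (.e (nat_lit 204830) (nat_lit 18) (.e (nat_lit 57931) (nat_lit 282) (.e (nat_lit 163867) (nat_lit 2) (.e (nat_lit 196662) (nat_lit 13) (.e (nat_lit 65569) (nat_lit 3) .nil))))) (.g (nat_lit 0) (.e (nat_lit 224183) (nat_lit 0) .nil) .nil))) 
(.lf (nat_lit 521118) (.g (nat_lit 1261) (.e (nat_lit 204837) (nat_lit 20) (.e (nat_lit 114714) (nat_lit 22) (.e (nat_lit 90185) (nat_lit 17) (.e (nat_lit 237592) (nat_lit 3) .nil)))) (.g (nat_lit 0) (.e (nat_lit 224945) (nat_lit 0) .nil) .nil)))))) (.nd (nat_lit 7) (.nd (nat_lit 8) (.nd (nat_lit 9) 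
(.lf (nat_lit 520286) (.g (nat_lit 3363) (.e (nat_lit 204829) (nat_lit 18) (.e (nat_lit 57927) (nat_lit 282) (.e (nat_lit 163874) (nat_lit 3) (.e (nat_lit 204863) (nat_lit 27) (.e (nat_lit 344117) (nat_lit 21) (.e (nat_lit 516123) (nat_lit 2) (.e (nat_lit 213000) (nat_lit 9) (.e (nat_lit 2680) (nat_lit 168) .nil)))))))) (.g (nat_lit 1) (.e (nat_lit 223776) (nat_lit 0) .nil) .nil))) 
(.lf (nat_lit 520798) (.g (nat_lit 2070) (.e (nat_lit 204831) (nat_lit 18) (.e (nat_lit 57929) (nat_lit 282) (.e (nat_lit 163874) (nat_lit 3) (.e (nat_lit 204851) (nat_lit 26) (.e (nat_lit 336019) (nat_lit 3) .nil))))) (.g (nat_lit 0) (.e (nat_lit 224445) (nat_lit 0) .nil) .nil)))) (.nd (nat_lit 9) 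
(.lf (nat_lit 520542) (.g (nat_lit 3693) (.e (nat_lit 204830) (nat_lit 18) (.e (nat_lit 57926) (nat_lit 282) (.e (nat_lit 163875) (nat_lit 3) (.e (nat_lit 204862) (nat_lit 27) (.e (nat_lit 344117) (nat_lit 21) (.e (nat_lit 516123) (nat_lit 2) (.e (nat_lit 213000) (nat_lit 9) (.e (nat_lit 2680) (nat_lit 168) .nil)))))))) (.g (nat_lit 1) (.e (nat_lit 224109) (nat_lit 0) .nil) .nil))) 
(.lf (nat_lit 521054) (.g (nat_lit 3407) (.e (nat_lit 204837) (nat_lit 20) (.e (nat_lit 114698) (nat_lit 11) (.e (nat_lit 426139) (nat_lit 3) (.e (nat_lit 204861) (nat_lit 26) (.e (nat_lit 336075) (nat_lit 9) (.e (nat_lit 336326) (nat_lit 18) .nil)))))) (.g (nat_lit 1) (.e (nat_lit 224843) (nat_lit 0) .nil) .nil))))) (.nd (nat_lit 8) (.nd (nat_lit 9) 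
(.lf (nat_lit 520414) (.g (nat_lit 2703) (.e (nat_lit 204830) (nat_lit 18) (.e (nat_lit 57854) (nat_lit 252) (.e (nat_lit 57378) (nat_lit 3) (.e (nat_lit 98313) (nat_lit 9) (.e (nat_lit 336027) (nat_lit 3) (.e (nat_lit 98321) (nat_lit 17) (.e (nat_lit 3771) (nat_lit 229) (.e (nat_lit 794673) (nat_lit 23) .nil)))))))) (.g (nat_lit 1) (.e (nat_lit 223957) (nat_lit 0) .nil) .nil))) 
(.lf (nat_lit 520926) (.g (nat_lit 1802) (.e (nat_lit 204836) (nat_lit 20) (.e (nat_lit 114718) (nat_lit 23) (.e (nat_lit 98367) (nat_lit 27) (.e (nat_lit 434232) (nat_lit 23) .nil)))) (.g (nat_lit 0) (.e (nat_lit 224625) (nat_lit 0) .nil) .nil)))) (.nd (nat_lit 9) 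
(.lf (nat_lit 520670) (.g (nat_lit 2496) (.e (nat_lit 204831) (nat_lit 18) (.e (nat_lit 57692) (nat_lit 156) (.e (nat_lit 163907) (nat_lit 12) (.e (nat_lit 426566) (nat_lit 34) (.e (nat_lit 393273) (nat_lit 23) (.e (nat_lit 433920) (nat_lit 3) .nil)))))) (.g (nat_lit 1) (.e (nat_lit 224283) (nat_lit 0) .nil) .nil))) 
(.lf (nat_lit 521182) (.g (nat_lit 2443) (.e (nat_lit 204837) (nat_lit 20) (.e (nat_lit 114719) (nat_lit 23) (.e (nat_lit 98356) (nat_lit 26) (.e (nat_lit 426436) (nat_lit 18) (.e (nat_lit 98334) (nat_lit 18) (.e (nat_lit 164330) (nat_lit 230) (.e (nat_lit 163872) (nat_lit 3) .nil))))))) (.g (nat_lit 1) (.e (nat_lit 225039) (nat_lit 0) .nil) .nil))))))) 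
(.nd (nat_lit 6) (.nd (nat_lit 7) (.nd (nat_lit 8) (.nd (nat_lit 9) 
(.lf (nat_lit 520254) (.g (nat_lit 1961) (.e (nat_lit 204829) (nat_lit 18) (.e (nat_lit 57927) (nat_lit 282) (.e (nat_lit 163870) (nat_lit 2) (.e (nat_lit 196670) (nat_lit 14) (.e (nat_lit 73746) (nat_lit 3) .nil))))) (.g (nat_lit 0) (.e (nat_lit 223743) (nat_lit 0) .nil) .nil))) 
(.lf (nat_lit 520766) (.g (nat_lit 1519) (.e (nat_lit 204831) (nat_lit 18) (.e (nat_lit 57852) (nat_lit 252) (.e (nat_lit 57409) (nat_lit 12) (.e (nat_lit 336367) (nat_lit 27) (.e (nat_lit 426555) (nat_lit 32) .nil))))) (.g (nat_lit 0) (.e (nat_lit 224393) (nat_lit 0) .nil) .nil)))) (.nd (nat_lit 9) 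
(.lf (nat_lit 520510) (.g (nat_lit 2580) (.e (nat_lit 204830) (nat_lit 18) (.e (nat_lit 57926) (nat_lit 282) (.e (nat_lit 163869) (nat_lit 2) (.e (nat_lit 196670) (nat_lit 14) (.e (nat_lit 73746) (nat_lit 3) (.e (nat_lit 516127) (nat_lit 2) (.e (nat_lit 213019) (nat_lit 9) (.e (nat_lit 2684) (nat_lit 168) .nil)))))))) (.g (nat_lit 1) (.e (nat_lit 224073) (nat_lit 0) .nil) .nil))) 
(.lf (nat_lit 521022) (.g (nat_lit 3611) (.e (nat_lit 204837) (nat_lit 20) (.e (nat_lit 114698) (nat_lit 11) (.e (nat_lit 426133) (nat_lit 3) (.e (nat_lit 204861) (nat_lit 26) (.e (nat_lit 336076) (nat_lit 9) (.e (nat_lit 336326) (nat_lit 18) .nil)))))) (.g (nat_lit 1) (.e (nat_lit 224805) (nat_lit 0) .nil) .nil))))) (.nd (nat_lit 8) (.nd (nat_lit 9) 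
(.lf (nat_lit 520382) (.g (nat_lit 2573) (.e (nat_lit 204830) (nat_lit 18) (.e (nat_lit 57692) (nat_lit 156) (.e (nat_lit 163907) (nat_lit 12) (.e (nat_lit 426479) (nat_lit 27) (.e (nat_lit 336443) (nat_lit 32) (.e (nat_lit 466979) (nat_lit 23) .nil)))))) (.g (nat_lit 1) (.e (nat_lit 223915) (nat_lit 0) .nil) .nil))) 
(.lf (nat_lit 520894) (.g (nat_lit 1172) (.e (nat_lit 204836) (nat_lit 20) (.e (nat_lit 114697) (nat_lit 11) (.e (nat_lit 426124) (nat_lit 2) (.e (nat_lit 196672) (nat_lit 15) (.e (nat_lit 89856) (nat_lit 3) .nil))))) (.g (nat_lit 0) (.e (nat_lit 224588) (nat_lit 0) .nil) .nil)))) (.nd (nat_lit 9) 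
(.lf (nat_lit 520638) (.g (nat_lit 2284) (.e (nat_lit 204831) (nat_lit 18) (.e (nat_lit 57687) (nat_lit 156) (.e (nat_lit 163903) (nat_lit 12) (.e (nat_lit 426568) (nat_lit 34) (.e (nat_lit 393279) (nat_lit 23) .nil))))) (.g (nat_lit 0) (.e (nat_lit 224221) (nat_lit 0) .nil) .nil))) 
(.lf (nat_lit 521150) (.g (nat_lit 2369) (.e (nat_lit 204837) (nat_lit 20) (.e (nat_lit 114718) (nat_lit 23) (.e (nat_lit 98356) (nat_lit 26) (.e (nat_lit 426438) (nat_lit 18) (.e (nat_lit 98334) (nat_lit 18) (.e (nat_lit 164305) (nat_lit 226) (.e (nat_lit 2450) (nat_lit 157) (.e (nat_lit 2685) (nat_lit 168) .nil)))))))) (.g (nat_lit 1) (.e (nat_lit 224993) (nat_lit 0) .nil) .nil)))))) 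
(.nd (nat_lit 7) (.nd (nat_lit 8) (.nd (nat_lit 9) 
(.lf (nat_lit 520318) (.g (nat_lit 4262) (.e (nat_lit 204829) (nat_lit 18) (.e (nat_lit 57931) (nat_lit 282) (.e (nat_lit 163867) (nat_lit 2) (.e (nat_lit 196670) (nat_lit 14) (.e (nat_lit 73746) (nat_lit 3) (.e (nat_lit 516124) (nat_lit 2) (.e (nat_lit 213013) (nat_lit 9) (.e (nat_lit 2684) (nat_lit 168) .nil)))))))) (.g (nat_lit 1) (.e (nat_lit 223814) (nat_lit 0) .nil) .nil))) 
(.lf (nat_lit 520830) (.g (nat_lit 5712) (.e (nat_lit 204831) (nat_lit 18) (.e (nat_lit 57931) (nat_lit 282) (.e (nat_lit 163869) (nat_lit 2) (.e (nat_lit 196668) (nat_lit 14) (.e (nat_lit 73747) (nat_lit 3) (.e (nat_lit 516129) (nat_lit 3) (.e (nat_lit 221214) (nat_lit 23) .nil))))))) (.g (nat_lit 1) (.e (nat_lit 224494) (nat_lit 0) .nil) .nil)))) (.nd (nat_lit 9) 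
(.lf (nat_lit 520574) (.g (nat_lit 5381) (.e (nat_lit 204830) (nat_lit 18) (.e (nat_lit 57927) (nat_lit 282) (.e (nat_lit 163869) (nat_lit 2) (.e (nat_lit 196670) (nat_lit 14) (.e (nat_lit 73746) (nat_lit 3) (.e (nat_lit 516129) (nat_lit 3) (.e (nat_lit 221214) (nat_lit 23) .nil))))))) (.g (nat_lit 1) (.e (nat_lit 224145) (nat_lit 0) .nil) .nil))) 
(.lf (nat_lit 521086) (.g (nat_lit 2873) (.e (nat_lit 204837) (nat_lit 20) (.e (nat_lit 114714) (nat_lit 22) (.e (nat_lit 90172) (nat_lit 14) (.e (nat_lit 180244) (nat_lit 5) (.e (nat_lit 532503) (nat_lit 1) (.e (nat_lit 57651) (nat_lit 152) (.e (nat_lit 2399) (nat_lit 157) (.e (nat_lit 2685) (nat_lit 168) .nil)))))))) (.g (nat_lit 1) (.e (nat_lit 224908) (nat_lit 0) .nil) .nil))))) 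
(.nd (nat_lit 8) (.nd (nat_lit 9) 
(.lf (nat_lit 520446) (.g (nat_lit 958) (.e (nat_lit 204830) (nat_lit 18) (.e (nat_lit 57854) (nat_lit 252) (.e (nat_lit 57447) (nat_lit 19) (.e (nat_lit 393227) (nat_lit 9) .nil)))) (.g (nat_lit 0) (.e (nat_lit 223993) (nat_lit 0) .nil) .nil))) 
(.lf (nat_lit 520958) (.g (nat_lit 1074) (.e (nat_lit 204837) (nat_lit 20) (.e (nat_lit 114696) (nat_lit 11) (.e (nat_lit 426129) (nat_lit 3) (.e (nat_lit 204876) (nat_lit 31) (.e (nat_lit 384768) (nat_lit 3) .nil))))) (.g (nat_lit 1) (.e (nat_lit 224668) (nat_lit 0) .nil) .nil)))) (.nd (nat_lit 9) 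
(.lf (nat_lit 520702) (.g (nat_lit 3698) (.e (nat_lit 204831) (nat_lit 18) (.e (nat_lit 57847) (nat_lit 252) (.e (nat_lit 57406) (nat_lit 12) (.e (nat_lit 336454) (nat_lit 34) (.e (nat_lit 483380) (nat_lit 23) (.e (nat_lit 336324) (nat_lit 18) .nil)))))) (.g (nat_lit 1) (.e (nat_lit 224320) (nat_lit 0) .nil) .nil))) 
(.lf (nat_lit 521214) (.g (nat_lit 1644) (.e (nat_lit 204837) (nat_lit 20) (.e (nat_lit 114719) (nat_lit 23) (.e (nat_lit 98367) (nat_lit 27) (.e (nat_lit 434234) (nat_lit 23) .nil)))) (.g (nat_lit 0) (.e (nat_lit 225078) (nat_lit 0) .nil) .nil)))))))))))) 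
(.nd (nat_lit 1) (.nd (nat_lit 2) (.nd (nat_lit 3) (.nd (nat_lit 4) (.nd (nat_lit 5) 
(.nd (nat_lit 6) (.nd (nat_lit 7) (.nd (nat_lit 8) (.nd (nat_lit 9) 
(.lf (nat_lit 520193) (.g (nat_lit 2451) (.e (nat_lit 204829) (nat_lit 18) (.e (nat_lit 57927) (nat_lit 282) (.e (nat_lit 163868) (nat_lit 2) (.e (nat_lit 196670) (nat_lit 14) (.e (nat_lit 73746) (nat_lit 3) (.e (nat_lit 516127) (nat_lit 2) (.e (nat_lit 213000) (nat_lit 9) (.e (nat_lit 2680) (nat_lit 168) .nil)))))))) (.g (nat_lit 1) (.e (nat_lit 223659) (nat_lit 0) .nil) .nil))) 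
(.lf (nat_lit 520705) (.g (nat_lit 2343) (.e (nat_lit 204831) (nat_lit 18) (.e (nat_lit 57847) (nat_lit 252) (.e (nat_lit 57407) (nat_lit 12) (.e (nat_lit 336452) (nat_lit 34) .nil)))) (.g (nat_lit 0) (.e (nat_lit 224323) (nat_lit 0) .nil) .nil)))) (.nd (nat_lit 9) 
(.lf (nat_lit 520449) (.g (nat_lit 2354) (.e (nat_lit 204830) (nat_lit 18) (.e (nat_lit 57924) (nat_lit 282) (.e (nat_lit 163867) (nat_lit 2) (.e (nat_lit 196670) (nat_lit 14) (.e (nat_lit 73746) (nat_lit 3) (.e (nat_lit 516124) (nat_lit 2) (.e (nat_lit 213019) (nat_lit 9) (.e (nat_lit 2675) (nat_lit 168) .nil)))))))) (.g (nat_lit 1) (.e (nat_lit 223997) (nat_lit 0) .nil) .nil))) 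
(.lf (nat_lit 520961) (.g (nat_lit 1175) (.e (nat_lit 204837) (nat_lit 20) (.e (nat_lit 114697) (nat_lit 11) (.e (nat_lit 426121) (nat_lit 2) (.e (nat_lit 196672) (nat_lit 15) (.e (nat_lit 89856) (nat_lit 3) .nil))))) (.g (nat_lit 0) (.e (nat_lit 224674) (nat_lit 0) .nil) .nil))))) (.nd (nat_lit 8) (.nd (nat_lit 9) 
(.lf (nat_lit 520321) (.g (nat_lit 3822) (.e (nat_lit 204829) (nat_lit 18) (.e (nat_lit 57931) (nat_lit 282) (.e (nat_lit 163867) (nat_lit 2) (.e (nat_lit 196670) (nat_lit 14) (.e (nat_lit 73746) (nat_lit 3) (.e (nat_lit 516131) (nat_lit 3) (.e (nat_lit 221213) (nat_lit 23) .nil))))))) (.g (nat_lit 1) (.e (nat_lit 223817) (nat_lit 0) .nil) .nil))) 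
(.lf (nat_lit 520833) (.g (nat_lit 2860) (.e (nat_lit 204831) (nat_lit 18) (.e (nat_lit 57931) (nat_lit 282) (.e (nat_lit 163869) (nat_lit 2) (.e (nat_lit 196670) (nat_lit 14) (.e (nat_lit 73746) (nat_lit 3) (.e (nat_lit 516124) (nat_lit 2) (.e (nat_lit 213016) (nat_lit 9) (.e (nat_lit 2683) (nat_lit 168) .nil)))))))) (.g (nat_lit 1) (.e (nat_lit 224497) (nat_lit 0) .nil) .nil)))) 
(.nd (nat_lit 9) 
(.lf (nat_lit 520577) (.g (nat_lit 4174) (.e (nat_lit 204830) (nat_lit 18) (.e (nat_lit 57927) (nat_lit 282) (.e (nat_lit 163870) (nat_lit 2) (.e (nat_lit 196666) (nat_lit 13) (.e (nat_lit 65569) (nat_lit 3) (.e (nat_lit 98342) (nat_lit 20) (.e (nat_lit 221213) (nat_lit 23) .nil))))))) (.g (nat_lit 1) (.e (nat_lit 224150) (nat_lit 0) .nil) .nil))) 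
(.lf (nat_lit 521089) (.g (nat_lit 2634) (.e (nat_lit 204837) (nat_lit 20) (.e (nat_lit 114714) (nat_lit 22) (.e (nat_lit 90172) (nat_lit 14) (.e (nat_lit 180244) (nat_lit 5) (.e (nat_lit 532503) (nat_lit 1) (.e (nat_lit 57658) (nat_lit 152) (.e (nat_lit 2433) (nat_lit 157) (.e (nat_lit 2685) (nat_lit 168) .nil)))))))) (.g (nat_lit 1) (.e (nat_lit 224911) (nat_lit 0) .nil) .nil)))))) 
(.nd (nat_lit 7) (.nd (nat_lit 8) (.nd (nat_lit 9) 
(.lf (nat_lit 520257) (.g (nat_lit 3040) (.e (nat_lit 204829) (nat_lit 18) (.e (nat_lit 57927) (nat_lit 282) (.e (nat_lit 163871) (nat_lit 2) (.e (nat_lit 196668) (nat_lit 14) (.e (nat_lit 73746) (nat_lit 3) (.e (nat_lit 516124) (nat_lit 2) (.e (nat_lit 213019) (nat_lit 9) (.e (nat_lit 2681) (nat_lit 168) .nil)))))))) (.g (nat_lit 1) (.e (nat_lit 223746) (nat_lit 0) .nil) .nil))) 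
(.lf (nat_lit 520769) (.g (nat_lit 1636) (.e (nat_lit 204831) (nat_lit 18) (.e (nat_lit 57853) (nat_lit 252) (.e (nat_lit 57409) (nat_lit 12) (.e (nat_lit 336454) (nat_lit 34) .nil)))) (.g (nat_lit 0) (.e (nat_lit 224397) (nat_lit 0) .nil) .nil)))) (.nd (nat_lit 9) 
(.lf (nat_lit 520513) (.g (nat_lit 3775) (.e (nat_lit 204830) (nat_lit 18) (.e (nat_lit 57926) (nat_lit 282) (.e (nat_lit 163870) (nat_lit 2) (.e (nat_lit 196666) (nat_lit 13) (.e (nat_lit 65569) (nat_lit 3) (.e (nat_lit 98341) (nat_lit 20) (.e (nat_lit 221215) (nat_lit 23) .nil))))))) (.g (nat_lit 1) (.e (nat_lit 224077) (nat_lit 0) .nil) .nil))) 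
(.lf (nat_lit 521025) (.g (nat_lit 1610) (.e (nat_lit 204837) (nat_lit 20) (.e (nat_lit 114698) (nat_lit 11) (.e (nat_lit 426133) (nat_lit 3) (.e (nat_lit 204865) (nat_lit 28) .nil)))) (.g (nat_lit 0) (.e (nat_lit 224808) (nat_lit 0) .nil) .nil))))) (.nd (nat_lit 8) (.nd (nat_lit 9) 
(.lf (nat_lit 520385) (.g (nat_lit 2757) (.e (nat_lit 204830) (nat_lit 18) (.e (nat_lit 57692) (nat_lit 156) (.e (nat_lit 163907) (nat_lit 12) (.e (nat_lit 426568) (nat_lit 34) (.e (nat_lit 393279) (nat_lit 23) (.e (nat_lit 426129) (nat_lit 3) .nil)))))) (.g (nat_lit 1) (.e (nat_lit 223920) (nat_lit 0) .nil) .nil))) 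
(.lf (nat_lit 520897) (.g (nat_lit 637) (.e (nat_lit 204836) (nat_lit 20) (.e (nat_lit 114697) (nat_lit 11) (.e (nat_lit 426137) (nat_lit 3) (.e (nat_lit 204865) (nat_lit 28) .nil)))) (.g (nat_lit 0) (.e (nat_lit 224591) (nat_lit 0) .nil) .nil)))) (.nd (nat_lit 9) 
(.lf (nat_lit 520641) (.g (nat_lit 3792) (.e (nat_lit 204831) (nat_lit 18) (.e (nat_lit 57688) (nat_lit 156) (.e (nat_lit 163873) (nat_lit 3) (.e (nat_lit 204837) (nat_lit 20) (.e (nat_lit 114719) (nat_lit 23) (.e (nat_lit 98365) (nat_lit 26) (.e (nat_lit 426138) (nat_lit 3) .nil))))))) (.g (nat_lit 1) (.e (nat_lit 224230) (nat_lit 0) .nil) .nil))) 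
(.lf (nat_lit 521153) (.g (nat_lit 1922) (.e (nat_lit 204837) (nat_lit 20) (.e (nat_lit 114718) (nat_lit 23) (.e (nat_lit 98363) (nat_lit 26) (.e (nat_lit 426129) (nat_lit 3) (.e (nat_lit 204829) (nat_lit 18) .nil))))) (.g (nat_lit 0) (.e (nat_lit 224996) (nat_lit 0) .nil) .nil))))))) (.nd (nat_lit 6) (.nd (nat_lit 7) (.nd (nat_lit 8) (.nd (nat_lit 9) 
(.lf (nat_lit 520225) (.g (nat_lit 4899) (.e (nat_lit 204829) (nat_lit 18) (.e (nat_lit 57927) (nat_lit 282) (.e (nat_lit 163869) (nat_lit 2) (.e (nat_lit 196670) (nat_lit 14) (.e (nat_lit 73746) (nat_lit 3) (.e (nat_lit 516124) (nat_lit 2) (.e (nat_lit 213019) (nat_lit 9) (.e (nat_lit 2681) (nat_lit 168) .nil)))))))) (.g (nat_lit 1) (.e (nat_lit 223708) (nat_lit 0) .nil) .nil))) 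
(.lf (nat_lit 520737) (.g (nat_lit 1034) (.e (nat_lit 204831) (nat_lit 18) (.e (nat_lit 57849) (nat_lit 252) (.e (nat_lit 57407) (nat_lit 12) (.e (nat_lit 336456) (nat_lit 34) .nil)))) (.g (nat_lit 0) (.e (nat_lit 224361) (nat_lit 0) .nil) .nil)))) (.nd (nat_lit 9) 
(.lf (nat_lit 520481) (.g (nat_lit 3385) (.e (nat_lit 204830) (nat_lit 18) (.e (nat_lit 57926) (nat_lit 282) (.e (nat_lit 163869) (nat_lit 2) (.e (nat_lit 196666) (nat_lit 13) (.e (nat_lit 65569) (nat_lit 3) (.e (nat_lit 98342) (nat_lit 20) (.e (nat_lit 221213) (nat_lit 23) .nil))))))) (.g (nat_lit 1) (.e (nat_lit 224035) (nat_lit 0) .nil) .nil))) 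
(.lf (nat_lit 520993) (.g (nat_lit 1236) (.e (nat_lit 204837) (nat_lit 20) (.e (nat_lit 114697) (nat_lit 11) (.e (nat_lit 426138) (nat_lit 3) (.e (nat_lit 204876) (nat_lit 31) (.e (nat_lit 384768) (nat_lit 3) .nil))))) (.g (nat_lit 1) (.e (nat_lit 224726) (nat_lit 0) .nil) .nil))))) (.nd (nat_lit 8) (.nd (nat_lit 9) 
(.lf (nat_lit 520353) (.g (nat_lit 2780) (.e (nat_lit 204830) (nat_lit 18) (.e (nat_lit 57689) (nat_lit 156) (.e (nat_lit 163905) (nat_lit 12) (.e (nat_lit 426479) (nat_lit 27) (.e (nat_lit 336430) (nat_lit 29) (.e (nat_lit 442425) (nat_lit 23) .nil)))))) (.g (nat_lit 1) (.e (nat_lit 223865) (nat_lit 0) .nil) .nil))) 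
(.lf (nat_lit 520865) (.g (nat_lit 1464) (.e (nat_lit 204834) (nat_lit 19) (.e (nat_lit 106534) (nat_lit 11) (.e (nat_lit 16416) (nat_lit 3) (.e (nat_lit 204861) (nat_lit 26) (.e (nat_lit 336075) (nat_lit 9) .nil))))) (.g (nat_lit 0) (.e (nat_lit 224548) (nat_lit 0) .nil) .nil)))) (.nd (nat_lit 9) 
(.lf (nat_lit 520609) (.g (nat_lit 4360) (.e (nat_lit 204830) (nat_lit 18) (.e (nat_lit 57931) (nat_lit 282) (.e (nat_lit 163867) (nat_lit 2) (.e (nat_lit 196670) (nat_lit 14) (.e (nat_lit 73746) (nat_lit 3) (.e (nat_lit 516129) (nat_lit 3) (.e (nat_lit 221215) (nat_lit 23) .nil))))))) (.g (nat_lit 1) (.e (nat_lit 224186) (nat_lit 0) .nil) .nil))) 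
(.lf (nat_lit 521121) (.g (nat_lit 1369) (.e (nat_lit 204837) (nat_lit 20) (.e (nat_lit 114715) (nat_lit 22) (.e (nat_lit 90170) (nat_lit 13) (.e (nat_lit 172065) (nat_lit 3) .nil)))) (.g (nat_lit 0) (.e (nat_lit 224950) (nat_lit 0) .nil) .nil)))))) (.nd (nat_lit 7) (.nd (nat_lit 8) (.nd (nat_lit 9) 
(.lf (nat_lit 520289) (.g (nat_lit 4102) (.e (nat_lit 204829) (nat_lit 18) (.e (nat_lit 57927) (nat_lit 282) (.e (nat_lit 163874) (nat_lit 3) (.e (nat_lit 204872) (nat_lit 30) (.e (nat_lit 368676) (nat_lit 21) (.e (nat_lit 516100) (nat_lit 0) (.e (nat_lit 3771) (nat_lit 229) (.e (nat_lit 794673) (nat_lit 23) .nil)))))))) (.g (nat_lit 1) (.e (nat_lit 223779) (nat_lit 0) .nil) .nil))) 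
(.lf (nat_lit 520801) (.g (nat_lit 2898) (.e (nat_lit 204831) (nat_lit 18) (.e (nat_lit 57931) (nat_lit 282) (.e (nat_lit 163866) (nat_lit 2) (.e (nat_lit 196670) (nat_lit 14) (.e (nat_lit 73746) (nat_lit 3) (.e (nat_lit 516124) (nat_lit 2) (.e (nat_lit 213013) (nat_lit 9) (.e (nat_lit 2684) (nat_lit 168) .nil)))))))) (.g (nat_lit 1) (.e (nat_lit 224449) (nat_lit 0) .nil) .nil)))) 
(.nd (nat_lit 9) 
(.lf (nat_lit 520545) (.g (nat_lit 2061) (.e (nat_lit 204830) (nat_lit 18) (.e (nat_lit 57926) (nat_lit 282) (.e (nat_lit 163875) (nat_lit 3) (.e (nat_lit 204862) (nat_lit 27) (.e (nat_lit 344118) (nat_lit 21) .nil))))) (.g (nat_lit 0) (.e (nat_lit 224112) (nat_lit 0) .nil) .nil))) 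
(.lf (nat_lit 521057) (.g (nat_lit 3957) (.e (nat_lit 204837) (nat_lit 20) (.e (nat_lit 114698) (nat_lit 11) (.e (nat_lit 426139) (nat_lit 3) (.e (nat_lit 204861) (nat_lit 26) (.e (nat_lit 336076) (nat_lit 9) (.e (nat_lit 336326) (nat_lit 18) .nil)))))) (.g (nat_lit 1) (.e (nat_lit 224846) (nat_lit 0) .nil) .nil))))) (.nd (nat_lit 8) (.nd (nat_lit 9) 
(.lf (nat_lit 520417) (.g (nat_lit 4335) (.e (nat_lit 204830) (nat_lit 18) (.e (nat_lit 57854) (nat_lit 252) (.e (nat_lit 57378) (nat_lit 3) (.e (nat_lit 98341) (nat_lit 20) (.e (nat_lit 221214) (nat_lit 23) (.e (nat_lit 204852) (nat_lit 26) (.e (nat_lit 336326) (nat_lit 18) .nil))))))) (.g (nat_lit 1) (.e (nat_lit 223962) (nat_lit 0) .nil) .nil))) 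
(.lf (nat_lit 520929) (.g (nat_lit 1678) (.e (nat_lit 204836) (nat_lit 20) (.e (nat_lit 114719) (nat_lit 23) (.e (nat_lit 98363) (nat_lit 26) (.e (nat_lit 426129) (nat_lit 3) .nil)))) (.g (nat_lit 0) (.e (nat_lit 224634) (nat_lit 0) .nil) .nil)))) (.nd (nat_lit 9) 
(.lf (nat_lit 520673) (.g (nat_lit 2949) (.e (nat_lit 204831) (nat_lit 18) (.e (nat_lit 57844) (nat_lit 252) (.e (nat_lit 57406) (nat_lit 12) (.e (nat_lit 336454) (nat_lit 34) (.e (nat_lit 483380) (nat_lit 23) (.e (nat_lit 336324) (nat_lit 18) .nil)))))) (.g (nat_lit 1) (.e (nat_lit 224291) (nat_lit 0) .nil) .nil))) 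
(.lf (nat_lit 521185) (.g (nat_lit 2344) (.e (nat_lit 204837) (nat_lit 20) (.e (nat_lit 114719) (nat_lit 23) (.e (nat_lit 98356) (nat_lit 26) (.e (nat_lit 426438) (nat_lit 18) (.e (nat_lit 98334) (nat_lit 18) (.e (nat_lit 164305) (nat_lit 226) (.e (nat_lit 2450) (nat_lit 157) (.e (nat_lit 2685) (nat_lit 168) .nil)))))))) (.g (nat_lit 1) (.e (nat_lit 225042) (nat_lit 0) .nil) .nil)))))))) 
(.nd (nat_lit 5) (.nd (nat_lit 6) (.nd (nat_lit 7) (.nd (nat_lit 8) (.nd (nat_lit 9) 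
(.lf (nat_lit 520209) (.g (nat_lit 2798) (.e (nat_lit 204829) (nat_lit 18) (.e (nat_lit 57927) (nat_lit 282) (.e (nat_lit 163869) (nat_lit 2) (.e (nat_lit 196670) (nat_lit 14) (.e (nat_lit 73746) (nat_lit 3) (.e (nat_lit 516124) (nat_lit 2) (.e (nat_lit 213000) (nat_lit 9) (.e (nat_lit 2678) (nat_lit 168) .nil)))))))) (.g (nat_lit 1) (.e (nat_lit 223692) (nat_lit 0) .nil) .nil))) 
(.lf (nat_lit 520721) (.g (nat_lit 1421) (.e (nat_lit 204831) (nat_lit 18) (.e (nat_lit 57847) (nat_lit 252) (.e (nat_lit 57448) (nat_lit 19) (.e (nat_lit 393226) (nat_lit 9) (.e (nat_lit 336116) (nat_lit 9) .nil))))) (.g (nat_lit 0) (.e (nat_lit 224340) (nat_lit 0) .nil) .nil)))) (.nd (nat_lit 9) 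
(.lf (nat_lit 520465) (.g (nat_lit 3493) (.e (nat_lit 204830) (nat_lit 18) (.e (nat_lit 57926) (nat_lit 282) (.e (nat_lit 163867) (nat_lit 2) (.e (nat_lit 196670) (nat_lit 14) (.e (nat_lit 73746) (nat_lit 3) (.e (nat_lit 516124) (nat_lit 2) (.e (nat_lit 213019) (nat_lit 9) (.e (nat_lit 2683) (nat_lit 168) .nil)))))))) (.g (nat_lit 1) (.e (nat_lit 224018) (nat_lit 0) .nil) .nil))) 
(.lf (nat_lit 520977) (.g (nat_lit 1363) (.e (nat_lit 204837) (nat_lit 20) (.e (nat_lit 114697) (nat_lit 11) (.e (nat_lit 426137) (nat_lit 3) (.e (nat_lit 204861) (nat_lit 26) (.e (nat_lit 336075) (nat_lit 9) (.e (nat_lit 336322) (nat_lit 18) .nil)))))) (.g (nat_lit 1) (.e (nat_lit 224707) (nat_lit 0) .nil) .nil))))) (.nd (nat_lit 8) (.nd (nat_lit 9) 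
(.lf (nat_lit 520337) (.g (nat_lit 3553) (.e (nat_lit 204829) (nat_lit 18) (.e (nat_lit 57931) (nat_lit 282) (.e (nat_lit 163869) (nat_lit 2) (.e (nat_lit 196670) (nat_lit 14) (.e (nat_lit 73746) (nat_lit 3) (.e (nat_lit 516127) (nat_lit 2) (.e (nat_lit 213022) (nat_lit 9) (.e (nat_lit 2683) (nat_lit 168) .nil)))))))) (.g (nat_lit 1) (.e (nat_lit 223838) (nat_lit 0) .nil) .nil))) 
(.lf (nat_lit 520849) (.g (nat_lit 2171) (.e (nat_lit 204831) (nat_lit 18) (.e (nat_lit 57931) (nat_lit 282) (.e (nat_lit 163874) (nat_lit 3) (.e (nat_lit 204850) (nat_lit 26) (.e (nat_lit 336028) (nat_lit 3) .nil))))) (.g (nat_lit 0) (.e (nat_lit 224515) (nat_lit 0) .nil) .nil)))) (.nd (nat_lit 9) 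
(.lf (nat_lit 520593) (.g (nat_lit 2970) (.e (nat_lit 204830) (nat_lit 18) (.e (nat_lit 57927) (nat_lit 282) (.e (nat_lit 163875) (nat_lit 3) (.e (nat_lit 204863) (nat_lit 27) (.e (nat_lit 344117) (nat_lit 21) (.e (nat_lit 516123) (nat_lit 2) (.e (nat_lit 213013) (nat_lit 9) (.e (nat_lit 2684) (nat_lit 168) .nil)))))))) (.g (nat_lit 1) (.e (nat_lit 224169) (nat_lit 0) .nil) .nil))) 
(.lf (nat_lit 521105) (.g (nat_lit 2528) (.e (nat_lit 204837) (nat_lit 20) (.e (nat_lit 114714) (nat_lit 22) (.e (nat_lit 90174) (nat_lit 14) (.e (nat_lit 180243) (nat_lit 5) (.e (nat_lit 532501) (nat_lit 1) (.e (nat_lit 57690) (nat_lit 156) (.e (nat_lit 163872) (nat_lit 3) .nil))))))) (.g (nat_lit 1) (.e (nat_lit 224930) (nat_lit 0) .nil) .nil)))))) 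
(.nd (nat_lit 7) (.nd (nat_lit 8) (.nd (nat_lit 9) 
(.lf (nat_lit 520273) (.g (nat_lit 2768) (.e (nat_lit 204829) (nat_lit 18) (.e (nat_lit 57927) (nat_lit 282) (.e (nat_lit 163871) (nat_lit 2) (.e (nat_lit 196670) (nat_lit 14) (.e (nat_lit 73746) (nat_lit 3) (.e (nat_lit 516124) (nat_lit 2) (.e (nat_lit 213019) (nat_lit 9) (.e (nat_lit 2676) (nat_lit 168) .nil)))))))) (.g (nat_lit 1) (.e (nat_lit 223762) (nat_lit 0) .nil) .nil))) 
(.lf (nat_lit 520785) (.g (nat_lit 1923) (.e (nat_lit 204831) (nat_lit 18) (.e (nat_lit 57854) (nat_lit 252) (.e (nat_lit 57406) (nat_lit 12) (.e (nat_lit 336456) (nat_lit 34) (.e (nat_lit 491264) (nat_lit 23) .nil))))) (.g (nat_lit 0) (.e (nat_lit 224430) (nat_lit 0) .nil) .nil)))) (.nd (nat_lit 9) 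
(.lf (nat_lit 520529) (.g (nat_lit 2811) (.e (nat_lit 204830) (nat_lit 18) (.e (nat_lit 57926) (nat_lit 282) (.e (nat_lit 163871) (nat_lit 2) (.e (nat_lit 196670) (nat_lit 14) (.e (nat_lit 73746) (nat_lit 3) (.e (nat_lit 516124) (nat_lit 2) (.e (nat_lit 213022) (nat_lit 9) (.e (nat_lit 2683) (nat_lit 168) .nil)))))))) (.g (nat_lit 1) (.e (nat_lit 224094) (nat_lit 0) .nil) .nil))) 
(.lf (nat_lit 521041) (.g (nat_lit 2844) (.e (nat_lit 204837) (nat_lit 20) (.e (nat_lit 114698) (nat_lit 11) (.e (nat_lit 426138) (nat_lit 3) (.e (nat_lit 204861) (nat_lit 26) (.e (nat_lit 336076) (nat_lit 9) (.e (nat_lit 336322) (nat_lit 18) .nil)))))) (.g (nat_lit 1) (.e (nat_lit 224829) (nat_lit 0) .nil) .nil))))) (.nd (nat_lit 8) (.nd (nat_lit 9) 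
(.lf (nat_lit 520401) (.g (nat_lit 1759) (.e (nat_lit 204830) (nat_lit 18) (.e (nat_lit 57852) (nat_lit 252) (.e (nat_lit 57406) (nat_lit 12) (.e (nat_lit 336455) (nat_lit 34) .nil)))) (.g (nat_lit 0) (.e (nat_lit 223940) (nat_lit 0) .nil) .nil))) 
(.lf (nat_lit 520913) (.g (nat_lit 1525) (.e (nat_lit 204836) (nat_lit 20) (.e (nat_lit 114698) (nat_lit 11) (.e (nat_lit 426139) (nat_lit 3) (.e (nat_lit 204876) (nat_lit 31) .nil)))) (.g (nat_lit 0) (.e (nat_lit 224610) (nat_lit 0) .nil) .nil)))) (.nd (nat_lit 9) 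
(.lf (nat_lit 520657) (.g (nat_lit 1973) (.e (nat_lit 204831) (nat_lit 18) (.e (nat_lit 57688) (nat_lit 156) (.e (nat_lit 163905) (nat_lit 12) (.e (nat_lit 426568) (nat_lit 34) (.e (nat_lit 393279) (nat_lit 23) .nil))))) (.g (nat_lit 0) (.e (nat_lit 224248) (nat_lit 0) .nil) .nil))) 
(.lf (nat_lit 521169) (.g (nat_lit 4907) (.e (nat_lit 204837) (nat_lit 20) (.e (nat_lit 114718) (nat_lit 23) (.e (nat_lit 98384) (nat_lit 32) (.e (nat_lit 475177) (nat_lit 24) (.e (nat_lit 516115) (nat_lit 1) (.e (nat_lit 164325) (nat_lit 230) (.e (nat_lit 163875) (nat_lit 3) .nil))))))) (.g (nat_lit 1) (.e (nat_lit 225015) (nat_lit 0) .nil) .nil))))))) 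
(.nd (nat_lit 6) (.nd (nat_lit 7) (.nd (nat_lit 8) (.nd (nat_lit 9) 
(.lf (nat_lit 520241) (.g (nat_lit 3400) (.e (nat_lit 204829) (nat_lit 18) (.e (nat_lit 57927) (nat_lit 282) (.e (nat_lit 163869) (nat_lit 2) (.e (nat_lit 196670) (nat_lit 14) (.e (nat_lit 73746) (nat_lit 3) (.e (nat_lit 516127) (nat_lit 2) (.e (nat_lit 213008) (nat_lit 9) (.e (nat_lit 2680) (nat_lit 168) .nil)))))))) (.g (nat_lit 1) (.e (nat_lit 223724) (nat_lit 0) .nil) .nil))) 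
(.lf (nat_lit 520753) (.g (nat_lit 1501) (.e (nat_lit 204831) (nat_lit 18) (.e (nat_lit 57851) (nat_lit 252) (.e (nat_lit 57406) (nat_lit 12) (.e (nat_lit 336372) (nat_lit 27) .nil)))) (.g (nat_lit 0) (.e (nat_lit 224378) (nat_lit 0) .nil) .nil)))) (.nd (nat_lit 9) 
(.lf (nat_lit 520497) (.g (nat_lit 2534) (.e (nat_lit 204830) (nat_lit 18) (.e (nat_lit 57926) (nat_lit 282) (.e (nat_lit 163869) (nat_lit 2) (.e (nat_lit 196670) (nat_lit 14) (.e (nat_lit 73746) (nat_lit 3) (.e (nat_lit 516124) (nat_lit 2) (.e (nat_lit 213019) (nat_lit 9) (.e (nat_lit 2676) (nat_lit 168) .nil)))))))) (.g (nat_lit 1) (.e (nat_lit 224060) (nat_lit 0) .nil) .nil))) 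
(.lf (nat_lit 521009) (.g (nat_lit 410) (.e (nat_lit 204837) (nat_lit 20) (.e (nat_lit 114698) (nat_lit 11) (.e (nat_lit 426122) (nat_lit 2) .nil))) (.g (nat_lit 0) (.e (nat_lit 224754) (nat_lit 0) .nil) .nil))))) (.nd (nat_lit 8) (.nd (nat_lit 9) 
(.lf (nat_lit 520369) (.g (nat_lit 1862) (.e (nat_lit 204830) (nat_lit 18) (.e (nat_lit 57691) (nat_lit 156) (.e (nat_lit 163907) (nat_lit 12) (.e (nat_lit 426566) (nat_lit 34) (.e (nat_lit 393278) (nat_lit 23) .nil))))) (.g (nat_lit 0) (.e (nat_lit 223893) (nat_lit 0) .nil) .nil))) 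
(.lf (nat_lit 520881) (.g (nat_lit 793) (.e (nat_lit 204835) (nat_lit 19) (.e (nat_lit 106536) (nat_lit 11) (.e (nat_lit 16413) (nat_lit 2) (.e (nat_lit 196665) (nat_lit 13) .nil)))) (.g (nat_lit 0) (.e (nat_lit 224575) (nat_lit 0) .nil) .nil)))) (.nd (nat_lit 9) 
(.lf (nat_lit 520625) (.g (nat_lit 3209) (.e (nat_lit 204830) (nat_lit 18) (.e (nat_lit 57931) (nat_lit 282) (.e (nat_lit 163869) (nat_lit 2) (.e (nat_lit 196670) (nat_lit 14) (.e (nat_lit 73748) (nat_lit 3) .nil))))) (.g (nat_lit 0) (.e (nat_lit 224203) (nat_lit 0) .nil) .nil))) 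
(.lf (nat_lit 521137) (.g (nat_lit 2750) (.e (nat_lit 204837) (nat_lit 20) (.e (nat_lit 114716) (nat_lit 22) (.e (nat_lit 90174) (nat_lit 14) (.e (nat_lit 180243) (nat_lit 5) (.e (nat_lit 532501) (nat_lit 1) (.e (nat_lit 57651) (nat_lit 152) (.e (nat_lit 2399) (nat_lit 157) (.e (nat_lit 2685) (nat_lit 168) .nil)))))))) (.g (nat_lit 1) (.e (nat_lit 224969) (nat_lit 0) .nil) .nil)))))) 
(.nd (nat_lit 7) (.nd (nat_lit 8) (.nd (nat_lit 9) 
(.lf (nat_lit 520305) (.g (nat_lit 2832) (.e (nat_lit 204829) (nat_lit 18) (.e (nat_lit 57928) (nat_lit 282) (.e (nat_lit 163871) (nat_lit 2) (.e (nat_lit 196670) (nat_lit 14) (.e (nat_lit 73746) (nat_lit 3) (.e (nat_lit 516124) (nat_lit 2) (.e (nat_lit 213013) (nat_lit 9) (.e (nat_lit 2684) (nat_lit 168) .nil)))))))) (.g (nat_lit 1) (.e (nat_lit 223797) (nat_lit 0) .nil) .nil))) 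
(.lf (nat_lit 520817) (.g (nat_lit 2576) (.e (nat_lit 204831) (nat_lit 18) (.e (nat_lit 57931) (nat_lit 282) (.e (nat_lit 163867) (nat_lit 2) (.e (nat_lit 196670) (nat_lit 14) (.e (nat_lit 73746) (nat_lit 3) (.e (nat_lit 516127) (nat_lit 2) (.e (nat_lit 213022) (nat_lit 9) (.e (nat_lit 2683) (nat_lit 168) .nil)))))))) (.g (nat_lit 1) (.e (nat_lit 224471) (nat_lit 0) .nil) .nil)))) 
(.nd (nat_lit 9) 
(.lf (nat_lit 520561) (.g (nat_lit 3961) (.e (nat_lit 204830) (nat_lit 18) (.e (nat_lit 57927) (nat_lit 282) (.e (nat_lit 163868) (nat_lit 2) (.e (nat_lit 196668) (nat_lit 14) (.e (nat_lit 73747) (nat_lit 3) (.e (nat_lit 516131) (nat_lit 3) (.e (nat_lit 221213) (nat_lit 23) .nil))))))) (.g (nat_lit 1) (.e (nat_lit 224129) (nat_lit 0) .nil) .nil))) 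
(.lf (nat_lit 521073) (.g (nat_lit 1411) (.e (nat_lit 204837) (nat_lit 20) (.e (nat_lit 114714) (nat_lit 22) (.e (nat_lit 90172) (nat_lit 14) (.e (nat_lit 180243) (nat_lit 5) .nil)))) (.g (nat_lit 0) (.e (nat_lit 224895) (nat_lit 0) .nil) .nil))))) (.nd (nat_lit 8) (.nd (nat_lit 9) 
(.lf (nat_lit 520433) (.g (nat_lit 3047) (.e (nat_lit 204830) (nat_lit 18) (.e (nat_lit 57854) (nat_lit 252) (.e (nat_lit 57409) (nat_lit 12) (.e (nat_lit 336456) (nat_lit 34) (.e (nat_lit 483346) (nat_lit 17) (.e (nat_lit 6445) (nat_lit 343) (.e (nat_lit 174) (nat_lit 12) .nil))))))) (.g (nat_lit 1) (.e (nat_lit 223979) (nat_lit 0) .nil) .nil))) 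
(.lf (nat_lit 520945) (.g (nat_lit 2477) (.e (nat_lit 204836) (nat_lit 20) (.e (nat_lit 114719) (nat_lit 23) (.e (nat_lit 98384) (nat_lit 32) (.e (nat_lit 475177) (nat_lit 24) (.e (nat_lit 516117) (nat_lit 1) (.e (nat_lit 164330) (nat_lit 230) (.e (nat_lit 163874) (nat_lit 3) .nil))))))) (.g (nat_lit 1) (.e (nat_lit 224650) (nat_lit 0) .nil) .nil)))) (.nd (nat_lit 9) 
(.lf (nat_lit 520689) (.g (nat_lit 1676) (.e (nat_lit 204831) (nat_lit 18) (.e (nat_lit 57846) (nat_lit 252) (.e (nat_lit 57407) (nat_lit 12) (.e (nat_lit 336456) (nat_lit 34) (.e (nat_lit 483391) (nat_lit 23) (.e (nat_lit 343808) (nat_lit 18) .nil)))))) (.g (nat_lit 1) (.e (nat_lit 224307) (nat_lit 0) .nil) .nil))) 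
(.lf (nat_lit 521201) (.g (nat_lit 1465) (.e (nat_lit 204837) (nat_lit 20) (.e (nat_lit 114719) (nat_lit 23) (.e (nat_lit 98366) (nat_lit 27) (.e (nat_lit 434232) (nat_lit 23) .nil)))) (.g (nat_lit 0) (.e (nat_lit 225064) (nat_lit 0) .nil) .nil))))))))) (.nd (nat_lit 4) (.nd (nat_lit 5) (.nd (nat_lit 6) (.nd (nat_lit 7) (.nd (nat_lit 8) (.nd (nat_lit 9) 
(.lf (nat_lit 520201) (.g (nat_lit 3068) (.e (nat_lit 204829) (nat_lit 18) (.e (nat_lit 57927) (nat_lit 282) (.e (nat_lit 163869) (nat_lit 2) (.e (nat_lit 196666) (nat_lit 13) (.e (nat_lit 65569) (nat_lit 3) (.e (nat_lit 98341) (nat_lit 20) (.e (nat_lit 221213) (nat_lit 23) .nil))))))) (.g (nat_lit 1) (.e (nat_lit 223669) (nat_lit 0) .nil) .nil))) 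
(.lf (nat_lit 520713) (.g (nat_lit 1650) (.e (nat_lit 204831) (nat_lit 18) (.e (nat_lit 57847) (nat_lit 252) (.e (nat_lit 57411) (nat_lit 12) (.e (nat_lit 336456) (nat_lit 34) (.e (nat_lit 483387) (nat_lit 23) .nil))))) (.g (nat_lit 0) (.e (nat_lit 224332) (nat_lit 0) .nil) .nil)))) (.nd (nat_lit 9) 
(.lf (nat_lit 520457) (.g (nat_lit 3134) (.e (nat_lit 204830) (nat_lit 18) (.e (nat_lit 57925) (nat_lit 282) (.e (nat_lit 163871) (nat_lit 2) (.e (nat_lit 196668) (nat_lit 14) (.e (nat_lit 73747) (nat_lit 3) (.e (nat_lit 516129) (nat_lit 3) (.e (nat_lit 221213) (nat_lit 23) .nil))))))) (.g (nat_lit 1) (.e (nat_lit 224009) (nat_lit 0) .nil) .nil))) 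
(.lf (nat_lit 520969) (.g (nat_lit 3636) (.e (nat_lit 204837) (nat_lit 20) (.e (nat_lit 114697) (nat_lit 11) (.e (nat_lit 426133) (nat_lit 3) (.e (nat_lit 204861) (nat_lit 26) (.e (nat_lit 336076) (nat_lit 9) (.e (nat_lit 336324) (nat_lit 18) .nil)))))) (.g (nat_lit 1) (.e (nat_lit 224699) (nat_lit 0) .nil) .nil))))) (.nd (nat_lit 8) (.nd (nat_lit 9) 
(.lf (nat_lit 520329) (.g (nat_lit 3912) (.e (nat_lit 204829) (nat_lit 18) (.e (nat_lit 57931) (nat_lit 282) (.e (nat_lit 163869) (nat_lit 2) (.e (nat_lit 196668) (nat_lit 14) (.e (nat_lit 73746) (nat_lit 3) (.e (nat_lit 516131) (nat_lit 3) (.e (nat_lit 221214) (nat_lit 23) .nil))))))) (.g (nat_lit 1) (.e (nat_lit 223828) (nat_lit 0) .nil) .nil))) 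
(.lf (nat_lit 520841) (.g (nat_lit 2734) (.e (nat_lit 204831) (nat_lit 18) (.e (nat_lit 57931) (nat_lit 282) (.e (nat_lit 163869) (nat_lit 2) (.e (nat_lit 196670) (nat_lit 14) (.e (nat_lit 73746) (nat_lit 3) (.e (nat_lit 516127) (nat_lit 2) (.e (nat_lit 213013) (nat_lit 9) (.e (nat_lit 2684) (nat_lit 168) .nil)))))))) (.g (nat_lit 1) (.e (nat_lit 224505) (nat_lit 0) .nil) .nil)))) 
(.nd (nat_lit 9) 
(.lf (nat_lit 520585) (.g (nat_lit 1807) (.e (nat_lit 204830) (nat_lit 18) (.e (nat_lit 57927) (nat_lit 282) (.e (nat_lit 163874) (nat_lit 3) (.e (nat_lit 204850) (nat_lit 26) .nil)))) (.g (nat_lit 0) (.e (nat_lit 224160) (nat_lit 0) .nil) .nil))) 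
(.lf (nat_lit 521097) (.g (nat_lit 4254) (.e (nat_lit 204837) (nat_lit 20) (.e (nat_lit 114714) (nat_lit 22) (.e (nat_lit 90174) (nat_lit 14) (.e (nat_lit 180243) (nat_lit 5) (.e (nat_lit 532499) (nat_lit 1) (.e (nat_lit 57654) (nat_lit 152) (.e (nat_lit 2399) (nat_lit 157) (.e (nat_lit 2685) (nat_lit 168) .nil)))))))) (.g (nat_lit 1) (.e (nat_lit 224922) (nat_lit 0) .nil) .nil)))))) 
(.nd (nat_lit 7) (.nd (nat_lit 8) (.nd (nat_lit 9) 
(.lf (nat_lit 520265) (.g (nat_lit 3408) (.e (nat_lit 204829) (nat_lit 18) (.e (nat_lit 57927) (nat_lit 282) (.e (nat_lit 163871) (nat_lit 2) (.e (nat_lit 196668) (nat_lit 14) (.e (nat_lit 73747) (nat_lit 3) (.e (nat_lit 516124) (nat_lit 2) (.e (nat_lit 213019) (nat_lit 9) (.e (nat_lit 2681) (nat_lit 168) .nil)))))))) (.g (nat_lit 1) (.e (nat_lit 223754) (nat_lit 0) .nil) .nil))) 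
(.lf (nat_lit 520777) (.g (nat_lit 3189) (.e (nat_lit 204831) (nat_lit 18) (.e (nat_lit 57854) (nat_lit 252) (.e (nat_lit 57378) (nat_lit 3) (.e (nat_lit 98339) (nat_lit 19) .nil)))) (.g (nat_lit 0) (.e (nat_lit 224419) (nat_lit 0) .nil) .nil)))) (.nd (nat_lit 9) 
(.lf (nat_lit 520521) (.g (nat_lit 3011) (.e (nat_lit 204830) (nat_lit 18) (.e (nat_lit 57926) (nat_lit 282) (.e (nat_lit 163871) (nat_lit 2) (.e (nat_lit 196668) (nat_lit 14) (.e (nat_lit 73746) (nat_lit 3) (.e (nat_lit 516124) (nat_lit 2) (.e (nat_lit 213019) (nat_lit 9) (.e (nat_lit 2683) (nat_lit 168) .nil)))))))) (.g (nat_lit 1) (.e (nat_lit 224086) (nat_lit 0) .nil) .nil))) 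
(.lf (nat_lit 521033) (.g (nat_lit 2816) (.e (nat_lit 204837) (nat_lit 20) (.e (nat_lit 114698) (nat_lit 11) (.e (nat_lit 426137) (nat_lit 3) (.e (nat_lit 204861) (nat_lit 26) (.e (nat_lit 336076) (nat_lit 9) (.e (nat_lit 336326) (nat_lit 18) .nil)))))) (.g (nat_lit 1) (.e (nat_lit 224816) (nat_lit 0) .nil) .nil))))) (.nd (nat_lit 8) (.nd (nat_lit 9) 
(.lf (nat_lit 520393) (.g (nat_lit 634) (.e (nat_lit 204830) (nat_lit 18) (.e (nat_lit 57852) (nat_lit 252) (.e (nat_lit 57373) (nat_lit 2) .nil))) (.g (nat_lit 0) (.e (nat_lit 223931) (nat_lit 0) .nil) .nil))) 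
(.lf (nat_lit 520905) (.g (nat_lit 1765) (.e (nat_lit 204836) (nat_lit 20) (.e (nat_lit 114698) (nat_lit 11) (.e (nat_lit 426124) (nat_lit 2) (.e (nat_lit 196672) (nat_lit 15) (.e (nat_lit 89856) (nat_lit 3) .nil))))) (.g (nat_lit 0) (.e (nat_lit 224602) (nat_lit 0) .nil) .nil)))) (.nd (nat_lit 9) 
(.lf (nat_lit 520649) (.g (nat_lit 1383) (.e (nat_lit 204831) (nat_lit 18) (.e (nat_lit 57688) (nat_lit 156) (.e (nat_lit 163903) (nat_lit 12) (.e (nat_lit 426481) (nat_lit 27) .nil)))) (.g (nat_lit 0) (.e (nat_lit 224238) (nat_lit 0) .nil) .nil))) 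
(.lf (nat_lit 521161) (.g (nat_lit 3646) (.e (nat_lit 204837) (nat_lit 20) (.e (nat_lit 114718) (nat_lit 23) (.e (nat_lit 98366) (nat_lit 27) (.e (nat_lit 434231) (nat_lit 23) (.e (nat_lit 532500) (nat_lit 1) (.e (nat_lit 57689) (nat_lit 156) (.e (nat_lit 163874) (nat_lit 3) .nil))))))) (.g (nat_lit 1) (.e (nat_lit 225005) (nat_lit 0) .nil) .nil))))))) 
(.nd (nat_lit 6) (.nd (nat_lit 7) (.nd (nat_lit 8) (.nd (nat_lit 9) 
(.lf (nat_lit 520233) (.g (nat_lit 2512) (.e (nat_lit 204829) (nat_lit 18) (.e (nat_lit 57927) (nat_lit 282) (.e (nat_lit 163869) (nat_lit 2) (.e (nat_lit 196670) (nat_lit 14) (.e (nat_lit 73746) (nat_lit 3) (.e (nat_lit 516126) (nat_lit 2) (.e (nat_lit 213008) (nat_lit 9) (.e (nat_lit 2680) (nat_lit 168) .nil)))))))) (.g (nat_lit 1) (.e (nat_lit 223716) (nat_lit 0) .nil) .nil))) 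
(.lf (nat_lit 520745) (.g (nat_lit 1751) (.e (nat_lit 204831) (nat_lit 18) (.e (nat_lit 57849) (nat_lit 252) (.e (nat_lit 57411) (nat_lit 12) (.e (nat_lit 336455) (nat_lit 34) .nil)))) (.g (nat_lit 0) (.e (nat_lit 224370) (nat_lit 0) .nil) .nil)))) (.nd (nat_lit 9) 
(.lf (nat_lit 520489) (.g (nat_lit 2865) (.e (nat_lit 204830) (nat_lit 18) (.e (nat_lit 57926) (nat_lit 282) (.e (nat_lit 163869) (nat_lit 2) (.e (nat_lit 196670) (nat_lit 14) (.e (nat_lit 73746) (nat_lit 3) (.e (nat_lit 516124) (nat_lit 2) (.e (nat_lit 213000) (nat_lit 9) (.e (nat_lit 2685) (nat_lit 168) .nil)))))))) (.g (nat_lit 1) (.e (nat_lit 224052) (nat_lit 0) .nil) .nil))) 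
(.lf (nat_lit 521001) (.g (nat_lit 2199) (.e (nat_lit 204837) (nat_lit 20) (.e (nat_lit 114697) (nat_lit 11) (.e (nat_lit 426139) (nat_lit 3) (.e (nat_lit 204861) (nat_lit 26) (.e (nat_lit 336075) (nat_lit 9) (.e (nat_lit 336326) (nat_lit 18) .nil)))))) (.g (nat_lit 1) (.e (nat_lit 224734) (nat_lit 0) .nil) .nil))))) (.nd (nat_lit 8) (.nd (nat_lit 9) 
(.lf (nat_lit 520361) (.g (nat_lit 3355) (.e (nat_lit 204830) (nat_lit 18) (.e (nat_lit 57691) (nat_lit 156) (.e (nat_lit 163905) (nat_lit 12) (.e (nat_lit 426566) (nat_lit 34) (.e (nat_lit 393273) (nat_lit 23) .nil))))) (.g (nat_lit 0) (.e (nat_lit 223877) (nat_lit 0) .nil) .nil))) 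
(.lf (nat_lit 520873) (.g (nat_lit 1318) (.e (nat_lit 204834) (nat_lit 19) (.e (nat_lit 106536) (nat_lit 11) (.e (nat_lit 16413) (nat_lit 2) (.e (nat_lit 196672) (nat_lit 15) (.e (nat_lit 89856) (nat_lit 3) .nil))))) (.g (nat_lit 0) (.e (nat_lit 224559) (nat_lit 0) .nil) .nil)))) (.nd (nat_lit 9) 
(.lf (nat_lit 520617) (.g (nat_lit 3215) (.e (nat_lit 204830) (nat_lit 18) (.e (nat_lit 57931) (nat_lit 282) (.e (nat_lit 163869) (nat_lit 2) (.e (nat_lit 196668) (nat_lit 14) (.e (nat_lit 73746) (nat_lit 3) .nil))))) (.g (nat_lit 0) (.e (nat_lit 224194) (nat_lit 0) .nil) .nil))) 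
(.lf (nat_lit 521129) (.g (nat_lit 3023) (.e (nat_lit 204837) (nat_lit 20) (.e (nat_lit 114715) (nat_lit 22) (.e (nat_lit 90170) (nat_lit 13) (.e (nat_lit 172067) (nat_lit 3) (.e (nat_lit 204831) (nat_lit 18) (.e (nat_lit 57688) (nat_lit 156) (.e (nat_lit 163873) (nat_lit 3) .nil))))))) (.g (nat_lit 1) (.e (nat_lit 224961) (nat_lit 0) .nil) .nil)))))) 
(.nd (nat_lit 7) (.nd (nat_lit 8) (.nd (nat_lit 9) 
(.lf (nat_lit 520297) (.g (nat_lit 3442) (.e (nat_lit 204829) (nat_lit 18) (.e (nat_lit 57927) (nat_lit 282) (.e (nat_lit 163875) (nat_lit 3) (.e (nat_lit 204863) (nat_lit 27) (.e (nat_lit 344117) (nat_lit 21) (.e (nat_lit 516130) (nat_lit 3) (.e (nat_lit 221213) (nat_lit 23) .nil))))))) (.g (nat_lit 1) (.e (nat_lit 223789) (nat_lit 0) .nil) .nil))) 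
(.lf (nat_lit 520809) (.g (nat_lit 2504) (.e (nat_lit 204831) (nat_lit 18) (.e (nat_lit 57931) (nat_lit 282) (.e (nat_lit 163867) (nat_lit 2) (.e (nat_lit 196670) (nat_lit 14) (.e (nat_lit 73746) (nat_lit 3) (.e (nat_lit 516124) (nat_lit 2) (.e (nat_lit 213021) (nat_lit 9) (.e (nat_lit 2681) (nat_lit 168) .nil)))))))) (.g (nat_lit 1) (.e (nat_lit 224463) (nat_lit 0) .nil) .nil)))) 
(.nd (nat_lit 9) 
(.lf (nat_lit 520553) (.g (nat_lit 2395) (.e (nat_lit 204830) (nat_lit 18) (.e (nat_lit 57927) (nat_lit 282) (.e (nat_lit 163866) (nat_lit 2) (.e (nat_lit 196670) (nat_lit 14) (.e (nat_lit 73746) (nat_lit 3) (.e (nat_lit 516129) (nat_lit 3) (.e (nat_lit 221213) (nat_lit 23) .nil))))))) (.g (nat_lit 1) (.e (nat_lit 224121) (nat_lit 0) .nil) .nil))) 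
(.lf (nat_lit 521065) (.g (nat_lit 1737) (.e (nat_lit 204837) (nat_lit 20) (.e (nat_lit 122624) (nat_lit 11) (.e (nat_lit 426139) (nat_lit 3) (.e (nat_lit 204861) (nat_lit 26) (.e (nat_lit 336075) (nat_lit 9) (.e (nat_lit 336325) (nat_lit 18) .nil)))))) (.g (nat_lit 1) (.e (nat_lit 224863) (nat_lit 0) .nil) .nil))))) (.nd (nat_lit 8) (.nd (nat_lit 9) 
(.lf (nat_lit 520425) (.g (nat_lit 2012) (.e (nat_lit 204830) (nat_lit 18) (.e (nat_lit 57854) (nat_lit 252) (.e (nat_lit 57406) (nat_lit 12) (.e (nat_lit 336456) (nat_lit 34) (.e (nat_lit 483381) (nat_lit 23) .nil))))) (.g (nat_lit 0) (.e (nat_lit 223970) (nat_lit 0) .nil) .nil))) 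
(.lf (nat_lit 520937) (.g (nat_lit 3156) (.e (nat_lit 204836) (nat_lit 20) (.e (nat_lit 114719) (nat_lit 23) (.e (nat_lit 98367) (nat_lit 27) (.e (nat_lit 434231) (nat_lit 23) (.e (nat_lit 532499) (nat_lit 1) (.e (nat_lit 57686) (nat_lit 156) (.e (nat_lit 163875) (nat_lit 3) .nil))))))) (.g (nat_lit 1) (.e (nat_lit 224642) (nat_lit 0) .nil) .nil)))) (.nd (nat_lit 9) 
(.lf (nat_lit 520681) (.g (nat_lit 3049) (.e (nat_lit 204831) (nat_lit 18) (.e (nat_lit 57846) (nat_lit 252) (.e (nat_lit 57406) (nat_lit 12) (.e (nat_lit 336454) (nat_lit 34) (.e (nat_lit 483384) (nat_lit 23) .nil))))) (.g (nat_lit 0) (.e (nat_lit 224299) (nat_lit 0) .nil) .nil))) 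
(.lf (nat_lit 521193) (.g (nat_lit 1504) (.e (nat_lit 204837) (nat_lit 20) (.e (nat_lit 114719) (nat_lit 23) (.e (nat_lit 98365) (nat_lit 26) (.e (nat_lit 426133) (nat_lit 3) .nil)))) (.g (nat_lit 0) (.e (nat_lit 225056) (nat_lit 0) .nil) .nil)))))))) (.nd (nat_lit 5) (.nd (nat_lit 6) (.nd (nat_lit 7) (.nd (nat_lit 8) (.nd (nat_lit 9) 
(.lf (nat_lit 520217) (.g (nat_lit 2465) (.e (nat_lit 204829) (nat_lit 18) (.e (nat_lit 57927) (nat_lit 282) (.e (nat_lit 163869) (nat_lit 2) (.e (nat_lit 196670) (nat_lit 14) (.e (nat_lit 73746) (nat_lit 3) (.e (nat_lit 516124) (nat_lit 2) (.e (nat_lit 213015) (nat_lit 9) (.e (nat_lit 2683) (nat_lit 168) .nil)))))))) (.g (nat_lit 1) (.e (nat_lit 223700) (nat_lit 0) .nil) .nil))) 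
(.lf (nat_lit 520729) (.g (nat_lit 2557) (.e (nat_lit 204831) (nat_lit 18) (.e (nat_lit 57849) (nat_lit 252) (.e (nat_lit 57377) (nat_lit 3) (.e (nat_lit 98341) (nat_lit 20) (.e (nat_lit 221215) (nat_lit 23) .nil))))) (.g (nat_lit 0) (.e (nat_lit 224352) (nat_lit 0) .nil) .nil)))) (.nd (nat_lit 9) 
(.lf (nat_lit 520473) (.g (nat_lit 3537) (.e (nat_lit 204830) (nat_lit 18) (.e (nat_lit 57926) (nat_lit 282) (.e (nat_lit 163868) (nat_lit 2) (.e (nat_lit 196668) (nat_lit 14) (.e (nat_lit 73747) (nat_lit 3) (.e (nat_lit 516124) (nat_lit 2) (.e (nat_lit 213019) (nat_lit 9) (.e (nat_lit 2675) (nat_lit 168) .nil)))))))) (.g (nat_lit 1) (.e (nat_lit 224027) (nat_lit 0) .nil) .nil))) 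
(.lf (nat_lit 520985) (.g (nat_lit 1469) (.e (nat_lit 204837) (nat_lit 20) (.e (nat_lit 114697) (nat_lit 11) (.e (nat_lit 426137) (nat_lit 3) (.e (nat_lit 204876) (nat_lit 31) (.e (nat_lit 384768) (nat_lit 3) .nil))))) (.g (nat_lit 1) (.e (nat_lit 224716) (nat_lit 0) .nil) .nil))))) (.nd (nat_lit 8) (.nd (nat_lit 9) 
(.lf (nat_lit 520345) (.g (nat_lit 2173) (.e (nat_lit 204829) (nat_lit 18) (.e (nat_lit 57931) (nat_lit 282) (.e (nat_lit 163874) (nat_lit 3) (.e (nat_lit 204853) (nat_lit 26) .nil)))) (.g (nat_lit 0) (.e (nat_lit 223850) (nat_lit 0) .nil) .nil))) 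
(.lf (nat_lit 520857) (.g (nat_lit 2049) (.e (nat_lit 204833) (nat_lit 19) (.e (nat_lit 106534) (nat_lit 11) (.e (nat_lit 16416) (nat_lit 3) (.e (nat_lit 204861) (nat_lit 26) (.e (nat_lit 336075) (nat_lit 9) .nil))))) (.g (nat_lit 0) (.e (nat_lit 224530) (nat_lit 0) .nil) .nil)))) (.nd (nat_lit 9) 
(.lf (nat_lit 520601) (.g (nat_lit 5200) (.e (nat_lit 204830) (nat_lit 18) (.e (nat_lit 57929) (nat_lit 282) (.e (nat_lit 163869) (nat_lit 2) (.e (nat_lit 196670) (nat_lit 14) (.e (nat_lit 73746) (nat_lit 3) (.e (nat_lit 516129) (nat_lit 3) (.e (nat_lit 221214) (nat_lit 23) .nil))))))) (.g (nat_lit 1) (.e (nat_lit 224178) (nat_lit 0) .nil) .nil))) 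
(.lf (nat_lit 521113) (.g (nat_lit 3403) (.e (nat_lit 204837) (nat_lit 20) (.e (nat_lit 114714) (nat_lit 22) (.e (nat_lit 90174) (nat_lit 14) (.e (nat_lit 180243) (nat_lit 5) (.e (nat_lit 532504) (nat_lit 1) (.e (nat_lit 57651) (nat_lit 152) (.e (nat_lit 2399) (nat_lit 157) (.e (nat_lit 2685) (nat_lit 168) .nil)))))))) (.g (nat_lit 1) (.e (nat_lit 224939) (nat_lit 0) .nil) .nil)))))) 
(.nd (nat_lit 7) (.nd (nat_lit 8) (.nd (nat_lit 9) 
(.lf (nat_lit 520281) (.g (nat_lit 5040) (.e (nat_lit 204829) (nat_lit 18) (.e (nat_lit 57927) (nat_lit 282) (.e (nat_lit 163874) (nat_lit 3) (.e (nat_lit 204862) (nat_lit 27) (.e (nat_lit 344117) (nat_lit 21) (.e (nat_lit 516099) (nat_lit 0) (.e (nat_lit 3771) (nat_lit 229) (.e (nat_lit 794673) (nat_lit 23) .nil)))))))) (.g (nat_lit 1) (.e (nat_lit 223771) (nat_lit 0) .nil) .nil))) 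
(.lf (nat_lit 520793) (.g (nat_lit 2395) (.e (nat_lit 204831) (nat_lit 18) (.e (nat_lit 57924) (nat_lit 282) (.e (nat_lit 163867) (nat_lit 2) (.e (nat_lit 196670) (nat_lit 14) (.e (nat_lit 73746) (nat_lit 3) (.e (nat_lit 516127) (nat_lit 2) (.e (nat_lit 213019) (nat_lit 9) (.e (nat_lit 2681) (nat_lit 168) .nil)))))))) (.g (nat_lit 1) (.e (nat_lit 224440) (nat_lit 0) .nil) .nil)))) 
(.nd (nat_lit 9) 
(.lf (nat_lit 520537) (.g (nat_lit 5108) (.e (nat_lit 204830) (nat_lit 18) (.e (nat_lit 57926) (nat_lit 282) (.e (nat_lit 163874) (nat_lit 3) (.e (nat_lit 204862) (nat_lit 27) (.e (nat_lit 344117) (nat_lit 21) (.e (nat_lit 516099) (nat_lit 0) (.e (nat_lit 3771) (nat_lit 229) (.e (nat_lit 794673) (nat_lit 23) .nil)))))))) (.g (nat_lit 1) (.e (nat_lit 224102) (nat_lit 0) .nil) .nil))) 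
(.lf (nat_lit 521049) (.g (nat_lit 1895) (.e (nat_lit 204837) (nat_lit 20) (.e (nat_lit 114698) (nat_lit 11) (.e (nat_lit 426138) (nat_lit 3) (.e (nat_lit 204877) (nat_lit 31) (.e (nat_lit 384768) (nat_lit 3) .nil))))) (.g (nat_lit 1) (.e (nat_lit 224838) (nat_lit 0) .nil) .nil))))) (.nd (nat_lit 8) (.nd (nat_lit 9) 
(.lf (nat_lit 520409) (.g (nat_lit 3154) (.e (nat_lit 204830) (nat_lit 18) (.e (nat_lit 57852) (nat_lit 252) (.e (nat_lit 57419) (nat_lit 12) (.e (nat_lit 336021) (nat_lit 3) (.e (nat_lit 98356) (nat_lit 26) (.e (nat_lit 426422) (nat_lit 16) (.e (nat_lit 57691) (nat_lit 156) (.e (nat_lit 163875) (nat_lit 3) .nil)))))))) (.g (nat_lit 1) (.e (nat_lit 223949) (nat_lit 0) .nil) .nil))) 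
(.lf (nat_lit 520921) (.g (nat_lit 3974) (.e (nat_lit 204836) (nat_lit 20) (.e (nat_lit 114716) (nat_lit 22) (.e (nat_lit 90174) (nat_lit 14) (.e (nat_lit 180243) (nat_lit 5) (.e (nat_lit 532504) (nat_lit 1) (.e (nat_lit 57692) (nat_lit 156) (.e (nat_lit 163874) (nat_lit 3) .nil))))))) (.g (nat_lit 1) (.e (nat_lit 224619) (nat_lit 0) .nil) .nil)))) (.nd (nat_lit 9) 
(.lf (nat_lit 520665) (.g (nat_lit 1789) (.e (nat_lit 204831) (nat_lit 18) (.e (nat_lit 57692) (nat_lit 156) (.e (nat_lit 163905) (nat_lit 12) (.e (nat_lit 426566) (nat_lit 34) (.e (nat_lit 393272) (nat_lit 23) (.e (nat_lit 433920) (nat_lit 3) .nil)))))) (.g (nat_lit 1) (.e (nat_lit 224278) (nat_lit 0) .nil) .nil))) 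
(.lf (nat_lit 521177) (.g (nat_lit 1376) (.e (nat_lit 204837) (nat_lit 20) (.e (nat_lit 114719) (nat_lit 23) (.e (nat_lit 98333) (nat_lit 18) (.e (nat_lit 164332) (nat_lit 230) .nil)))) (.g (nat_lit 0) (.e (nat_lit 225030) (nat_lit 0) .nil) .nil))))))) (.nd (nat_lit 6) (.nd (nat_lit 7) (.nd (nat_lit 8) (.nd (nat_lit 9) 
(.lf (nat_lit 520249) (.g (nat_lit 2556) (.e (nat_lit 204829) (nat_lit 18) (.e (nat_lit 57927) (nat_lit 282) (.e (nat_lit 163869) (nat_lit 2) (.e (nat_lit 196670) (nat_lit 14) (.e (nat_lit 73746) (nat_lit 3) (.e (nat_lit 516127) (nat_lit 2) (.e (nat_lit 213019) (nat_lit 9) (.e (nat_lit 2684) (nat_lit 168) .nil)))))))) (.g (nat_lit 1) (.e (nat_lit 223732) (nat_lit 0) .nil) .nil))) 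
(.lf (nat_lit 520761) (.g (nat_lit 3333) (.e (nat_lit 204831) (nat_lit 18) (.e (nat_lit 57852) (nat_lit 252) (.e (nat_lit 57406) (nat_lit 12) (.e (nat_lit 336454) (nat_lit 34) (.e (nat_lit 483379) (nat_lit 23) .nil))))) (.g (nat_lit 0) (.e (nat_lit 224388) (nat_lit 0) .nil) .nil)))) (.nd (nat_lit 9) 
(.lf (nat_lit 520505) (.g (nat_lit 2941) (.e (nat_lit 204830) (nat_lit 18) (.e (nat_lit 57926) (nat_lit 282) (.e (nat_lit 163869) (nat_lit 2) (.e (nat_lit 196670) (nat_lit 14) (.e (nat_lit 73746) (nat_lit 3) (.e (nat_lit 516127) (nat_lit 2) (.e (nat_lit 213000) (nat_lit 9) (.e (nat_lit 2680) (nat_lit 168) .nil)))))))) (.g (nat_lit 1) (.e (nat_lit 224068) (nat_lit 0) .nil) .nil))) 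
(.lf (nat_lit 521017) (.g (nat_lit 2763) (.e (nat_lit 204837) (nat_lit 20) (.e (nat_lit 114698) (nat_lit 11) (.e (nat_lit 426133) (nat_lit 3) (.e (nat_lit 204861) (nat_lit 26) (.e (nat_lit 336075) (nat_lit 9) (.e (nat_lit 336322) (nat_lit 18) .nil)))))) (.g (nat_lit 1) (.e (nat_lit 224800) (nat_lit 0) .nil) .nil))))) (.nd (nat_lit 8) (.nd (nat_lit 9) 
(.lf (nat_lit 520377) (.g (nat_lit 2702) (.e (nat_lit 204830) (nat_lit 18) (.e (nat_lit 57692) (nat_lit 156) (.e (nat_lit 163905) (nat_lit 12) (.e (nat_lit 426479) (nat_lit 27) (.e (nat_lit 336443) (nat_lit 32) (.e (nat_lit 466981) (nat_lit 23) .nil)))))) (.g (nat_lit 1) (.e (nat_lit 223905) (nat_lit 0) .nil) .nil))) 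
(.lf (nat_lit 520889) (.g (nat_lit 391) (.e (nat_lit 204835) (nat_lit 19) (.e (nat_lit 106536) (nat_lit 11) (.e (nat_lit 16415) (nat_lit 3) .nil))) (.g (nat_lit 0) (.e (nat_lit 224583) (nat_lit 0) .nil) .nil)))) (.nd (nat_lit 9) 
(.lf (nat_lit 520633) (.g (nat_lit 1541) (.e (nat_lit 204831) (nat_lit 18) (.e (nat_lit 57686) (nat_lit 156) (.e (nat_lit 163903) (nat_lit 12) (.e (nat_lit 426568) (nat_lit 34) (.e (nat_lit 393277) (nat_lit 23) .nil))))) (.g (nat_lit 0) (.e (nat_lit 224214) (nat_lit 0) .nil) .nil))) 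
(.lf (nat_lit 521145) (.g (nat_lit 1641) (.e (nat_lit 204837) (nat_lit 20) (.e (nat_lit 114718) (nat_lit 23) (.e (nat_lit 98333) (nat_lit 18) (.e (nat_lit 164332) (nat_lit 230) .nil)))) (.g (nat_lit 0) (.e (nat_lit 224985) (nat_lit 0) .nil) .nil)))))) (.nd (nat_lit 7) (.nd (nat_lit 8) (.nd (nat_lit 9) 
(.lf (nat_lit 520313) (.g (nat_lit 3578) (.e (nat_lit 204829) (nat_lit 18) (.e (nat_lit 57931) (nat_lit 282) (.e (nat_lit 163867) (nat_lit 2) (.e (nat_lit 196668) (nat_lit 14) (.e (nat_lit 73746) (nat_lit 3) (.e (nat_lit 516129) (nat_lit 3) (.e (nat_lit 221213) (nat_lit 23) .nil))))))) (.g (nat_lit 1) (.e (nat_lit 223808) (nat_lit 0) .nil) .nil))) 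
(.lf (nat_lit 520825) (.g (nat_lit 1913) (.e (nat_lit 204831) (nat_lit 18) (.e (nat_lit 57931) (nat_lit 282) (.e (nat_lit 163869) (nat_lit 2) (.e (nat_lit 196665) (nat_lit 13) .nil)))) (.g (nat_lit 0) (.e (nat_lit 224479) (nat_lit 0) .nil) .nil)))) (.nd (nat_lit 9) 
(.lf (nat_lit 520569) (.g (nat_lit 3977) (.e (nat_lit 204830) (nat_lit 18) (.e (nat_lit 57927) (nat_lit 282) (.e (nat_lit 163869) (nat_lit 2) (.e (nat_lit 196668) (nat_lit 14) (.e (nat_lit 73747) (nat_lit 3) (.e (nat_lit 516131) (nat_lit 3) (.e (nat_lit 221213) (nat_lit 23) .nil))))))) (.g (nat_lit 1) (.e (nat_lit 224140) (nat_lit 0) .nil) .nil))) 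
(.lf (nat_lit 521081) (.g (nat_lit 3723) (.e (nat_lit 204837) (nat_lit 20) (.e (nat_lit 114714) (nat_lit 22) (.e (nat_lit 90172) (nat_lit 14) (.e (nat_lit 180244) (nat_lit 5) (.e (nat_lit 532499) (nat_lit 1) (.e (nat_lit 57653) (nat_lit 152) (.e (nat_lit 2399) (nat_lit 157) (.e (nat_lit 2685) (nat_lit 168) .nil)))))))) (.g (nat_lit 1) (.e (nat_lit 224903) (nat_lit 0) .nil) .nil))))) 
(.nd (nat_lit 8) (.nd (nat_lit 9) 
(.lf (nat_lit 520441) (.g (nat_lit 1999) (.e (nat_lit 204830) (nat_lit 18) (.e (nat_lit 57854) (nat_lit 252) (.e (nat_lit 57445) (nat_lit 19) (.e (nat_lit 393221) (nat_lit 0) (.e (nat_lit 6241) (nat_lit 336) .nil))))) (.g (nat_lit 0) (.e (nat_lit 223987) (nat_lit 0) .nil) .nil))) 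
(.lf (nat_lit 520953) (.g (nat_lit 1656) (.e (nat_lit 204837) (nat_lit 20) (.e (nat_lit 114694) (nat_lit 11) (.e (nat_lit 426139) (nat_lit 3) (.e (nat_lit 204861) (nat_lit 26) (.e (nat_lit 336076) (nat_lit 9) .nil))))) (.g (nat_lit 0) (.e (nat_lit 224660) (nat_lit 0) .nil) .nil)))) (.nd (nat_lit 9) 
(.lf (nat_lit 520697) (.g (nat_lit 545) (.e (nat_lit 204831) (nat_lit 18) (.e (nat_lit 57846) (nat_lit 252) (.e (nat_lit 57448) (nat_lit 19) .nil))) (.g (nat_lit 0) (.e (nat_lit 224315) (nat_lit 0) .nil) .nil))) 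
(.lf (nat_lit 521209) (.g (nat_lit 3212) (.e (nat_lit 204837) (nat_lit 20) (.e (nat_lit 114719) (nat_lit 23) (.e (nat_lit 98367) (nat_lit 27) (.e (nat_lit 434231) (nat_lit 23) (.e (nat_lit 532502) (nat_lit 1) (.e (nat_lit 57688) (nat_lit 156) (.e (nat_lit 163873) (nat_lit 3) .nil))))))) (.g (nat_lit 1) (.e (nat_lit 225073) (nat_lit 0) .nil) .nil)))))))))) 
(.nd (nat_lit 3) (.nd (nat_lit 4) (.nd (nat_lit 5) (.nd (nat_lit 6) (.nd (nat_lit 7) 
(.nd (nat_lit 8) (.nd (nat_lit 9) 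
(.lf (nat_lit 520197) (.g (nat_lit 3017) (.e (nat_lit 204829) (nat_lit 18) (.e (nat_lit 57927) (nat_lit 282) (.e (nat_lit 163868) (nat_lit 2) (.e (nat_lit 196670) (nat_lit 14) (.e (nat_lit 73746) (nat_lit 3) (.e (nat_lit 516127) (nat_lit 2) (.e (nat_lit 213019) (nat_lit 9) (.e (nat_lit 2681) (nat_lit 168) .nil)))))))) (.g (nat_lit 1) (.e (nat_lit 223663) (nat_lit 0) .nil) .nil))) 
(.lf (nat_lit 520709) (.g (nat_lit 1672) (.e (nat_lit 204831) (nat_lit 18) (.e (nat_lit 57847) (nat_lit 252) (.e (nat_lit 57407) (nat_lit 12) (.e (nat_lit 336456) (nat_lit 34) (.e (nat_lit 483391) (nat_lit 23) (.e (nat_lit 343808) (nat_lit 18) .nil)))))) (.g (nat_lit 1) (.e (nat_lit 224327) (nat_lit 0) .nil) .nil)))) (.nd (nat_lit 9) 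
(.lf (nat_lit 520453) (.g (nat_lit 1735) (.e (nat_lit 204830) (nat_lit 18) (.e (nat_lit 57924) (nat_lit 282) (.e (nat_lit 163867) (nat_lit 2) (.e (nat_lit 196670) (nat_lit 14) (.e (nat_lit 73748) (nat_lit 3) .nil))))) (.g (nat_lit 0) (.e (nat_lit 224001) (nat_lit 0) .nil) .nil))) 
(.lf (nat_lit 520965) (.g (nat_lit 1804) (.e (nat_lit 204837) (nat_lit 20) (.e (nat_lit 114697) (nat_lit 11) (.e (nat_lit 426133) (nat_lit 3) (.e (nat_lit 204861) (nat_lit 26) (.e (nat_lit 336075) (nat_lit 9) (.e (nat_lit 336322) (nat_lit 18) .nil)))))) (.g (nat_lit 1) (.e (nat_lit 224695) (nat_lit 0) .nil) .nil))))) (.nd (nat_lit 8) (.nd (nat_lit 9) 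
(.lf (nat_lit 520325) (.g (nat_lit 4446) (.e (nat_lit 204829) (nat_lit 18) (.e (nat_lit 57931) (nat_lit 282) (.e (nat_lit 163869) (nat_lit 2) (.e (nat_lit 196666) (nat_lit 13) (.e (nat_lit 65571) (nat_lit 3) (.e (nat_lit 98341) (nat_lit 20) (.e (nat_lit 221213) (nat_lit 23) .nil))))))) (.g (nat_lit 1) (.e (nat_lit 223821) (nat_lit 0) .nil) .nil))) 
(.lf (nat_lit 520837) (.g (nat_lit 5215) (.e (nat_lit 204831) (nat_lit 18) (.e (nat_lit 57931) (nat_lit 282) (.e (nat_lit 163869) (nat_lit 2) (.e (nat_lit 196670) (nat_lit 14) (.e (nat_lit 73746) (nat_lit 3) (.e (nat_lit 516124) (nat_lit 2) (.e (nat_lit 213019) (nat_lit 9) (.e (nat_lit 2681) (nat_lit 168) .nil)))))))) (.g (nat_lit 1) (.e (nat_lit 224501) (nat_lit 0) .nil) .nil)))) 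
(.nd (nat_lit 9) 
(.lf (nat_lit 520581) (.g (nat_lit 2847) (.e (nat_lit 204830) (nat_lit 18) (.e (nat_lit 57927) (nat_lit 282) (.e (nat_lit 163871) (nat_lit 2) (.e (nat_lit 196668) (nat_lit 14) (.e (nat_lit 73746) (nat_lit 3) (.e (nat_lit 516124) (nat_lit 2) (.e (nat_lit 213013) (nat_lit 9) (.e (nat_lit 2684) (nat_lit 168) .nil)))))))) (.g (nat_lit 1) (.e (nat_lit 224154) (nat_lit 0) .nil) .nil))) 
(.lf (nat_lit 521093) (.g (nat_lit 2477) (.e (nat_lit 204837) (nat_lit 20) (.e (nat_lit 114714) (nat_lit 22) (.e (nat_lit 90172) (nat_lit 14) (.e (nat_lit 180244) (nat_lit 5) (.e (nat_lit 532504) (nat_lit 1) (.e (nat_lit 57651) (nat_lit 152) (.e (nat_lit 2399) (nat_lit 157) (.e (nat_lit 2685) (nat_lit 168) .nil)))))))) (.g (nat_lit 1) (.e (nat_lit 224916) (nat_lit 0) .nil) .nil)))))) 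
(.nd (nat_lit 7) (.nd (nat_lit 8) (.nd (nat_lit 9) 
(.lf (nat_lit 520261) (.g (nat_lit 2926) (.e (nat_lit 204829) (nat_lit 18) (.e (nat_lit 57927) (nat_lit 282) (.e (nat_lit 163871) (nat_lit 2) (.e (nat_lit 196668) (nat_lit 14) (.e (nat_lit 73747) (nat_lit 3) (.e (nat_lit 516124) (nat_lit 2) (.e (nat_lit 213013) (nat_lit 9) (.e (nat_lit 2681) (nat_lit 168) .nil)))))))) (.g (nat_lit 1) (.e (nat_lit 223750) (nat_lit 0) .nil) .nil))) 
(.lf (nat_lit 520773) (.g (nat_lit 2635) (.e (nat_lit 204831) (nat_lit 18) (.e (nat_lit 57854) (nat_lit 252) (.e (nat_lit 57377) (nat_lit 3) (.e (nat_lit 98338) (nat_lit 19) .nil)))) (.g (nat_lit 0) (.e (nat_lit 224410) (nat_lit 0) .nil) .nil)))) (.nd (nat_lit 9) 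
(.lf (nat_lit 520517) (.g (nat_lit 4751) (.e (nat_lit 204830) (nat_lit 18) (.e (nat_lit 57926) (nat_lit 282) (.e (nat_lit 163870) (nat_lit 2) (.e (nat_lit 196666) (nat_lit 13) (.e (nat_lit 65571) (nat_lit 3) (.e (nat_lit 98342) (nat_lit 20) (.e (nat_lit 221215) (nat_lit 23) .nil))))))) (.g (nat_lit 1) (.e (nat_lit 224081) (nat_lit 0) .nil) .nil))) 
(.lf (nat_lit 521029) (.g (nat_lit 2026) (.e (nat_lit 204837) (nat_lit 20) (.e (nat_lit 114698) (nat_lit 11) (.e (nat_lit 426137) (nat_lit 3) (.e (nat_lit 204861) (nat_lit 26) (.e (nat_lit 336075) (nat_lit 9) (.e (nat_lit 336325) (nat_lit 18) .nil)))))) (.g (nat_lit 1) (.e (nat_lit 224812) (nat_lit 0) .nil) .nil))))) (.nd (nat_lit 8) (.nd (nat_lit 9) 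
(.lf (nat_lit 520389) (.g (nat_lit 2571) (.e (nat_lit 204830) (nat_lit 18) (.e (nat_lit 57844) (nat_lit 252) (.e (nat_lit 57406) (nat_lit 12) (.e (nat_lit 336456) (nat_lit 34) (.e (nat_lit 483391) (nat_lit 23) .nil))))) (.g (nat_lit 0) (.e (nat_lit 223927) (nat_lit 0) .nil) .nil))) 
(.lf (nat_lit 520901) (.g (nat_lit 823) (.e (nat_lit 204836) (nat_lit 20) (.e (nat_lit 114698) (nat_lit 11) (.e (nat_lit 426122) (nat_lit 2) (.e (nat_lit 196672) (nat_lit 15) .nil)))) (.g (nat_lit 0) (.e (nat_lit 224595) (nat_lit 0) .nil) .nil)))) (.nd (nat_lit 9) 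
(.lf (nat_lit 520645) (.g (nat_lit 2504) (.e (nat_lit 204831) (nat_lit 18) (.e (nat_lit 57688) (nat_lit 156) (.e (nat_lit 163902) (nat_lit 12) (.e (nat_lit 426566) (nat_lit 34) (.e (nat_lit 393273) (nat_lit 23) (.e (nat_lit 433920) (nat_lit 3) .nil)))))) (.g (nat_lit 1) (.e (nat_lit 224234) (nat_lit 0) .nil) .nil))) 
(.lf (nat_lit 521157) (.g (nat_lit 1522) (.e (nat_lit 204837) (nat_lit 20) (.e (nat_lit 114718) (nat_lit 23) (.e (nat_lit 98365) (nat_lit 26) (.e (nat_lit 426137) (nat_lit 3) .nil)))) (.g (nat_lit 0) (.e (nat_lit 225001) (nat_lit 0) .nil) .nil))))))) (.nd (nat_lit 6) (.nd (nat_lit 7) (.nd (nat_lit 8) (.nd (nat_lit 9) 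
(.lf (nat_lit 520229) (.g (nat_lit 3048) (.e (nat_lit 204829) (nat_lit 18) (.e (nat_lit 57927) (nat_lit 282) (.e (nat_lit 163869) (nat_lit 2) (.e (nat_lit 196670) (nat_lit 14) (.e (nat_lit 73746) (nat_lit 3) (.e (nat_lit 516124) (nat_lit 2) (.e (nat_lit 220928) (nat_lit 9) (.e (nat_lit 2679) (nat_lit 168) .nil)))))))) (.g (nat_lit 1) (.e (nat_lit 223712) (nat_lit 0) .nil) .nil))) 
(.lf (nat_lit 520741) (.g (nat_lit 2320) (.e (nat_lit 204831) (nat_lit 18) (.e (nat_lit 57849) (nat_lit 252) (.e (nat_lit 57407) (nat_lit 12) (.e (nat_lit 336456) (nat_lit 34) (.e (nat_lit 483391) (nat_lit 23) (.e (nat_lit 343808) (nat_lit 18) .nil)))))) (.g (nat_lit 1) (.e (nat_lit 224365) (nat_lit 0) .nil) .nil)))) (.nd (nat_lit 9) 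
(.lf (nat_lit 520485) (.g (nat_lit 1673) (.e (nat_lit 204830) (nat_lit 18) (.e (nat_lit 57926) (nat_lit 282) (.e (nat_lit 163869) (nat_lit 2) (.e (nat_lit 196670) (nat_lit 14) (.e (nat_lit 73746) (nat_lit 3) .nil))))) (.g (nat_lit 0) (.e (nat_lit 224047) (nat_lit 0) .nil) .nil))) 
(.lf (nat_lit 520997) (.g (nat_lit 2348) (.e (nat_lit 204837) (nat_lit 20) (.e (nat_lit 114697) (nat_lit 11) (.e (nat_lit 426139) (nat_lit 3) (.e (nat_lit 204859) (nat_lit 26) (.e (nat_lit 336118) (nat_lit 9) (.e (nat_lit 336323) (nat_lit 18) .nil)))))) (.g (nat_lit 1) (.e (nat_lit 224730) (nat_lit 0) .nil) .nil))))) (.nd (nat_lit 8) (.nd (nat_lit 9) 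
(.lf (nat_lit 520357) (.g (nat_lit 3138) (.e (nat_lit 204830) (nat_lit 18) (.e (nat_lit 57691) (nat_lit 156) (.e (nat_lit 163905) (nat_lit 12) (.e (nat_lit 426479) (nat_lit 27) (.e (nat_lit 336443) (nat_lit 32) (.e (nat_lit 466979) (nat_lit 23) .nil)))))) (.g (nat_lit 1) (.e (nat_lit 223872) (nat_lit 0) .nil) .nil))) 
(.lf (nat_lit 520869) (.g (nat_lit 1463) (.e (nat_lit 204834) (nat_lit 19) (.e (nat_lit 106534) (nat_lit 11) (.e (nat_lit 16416) (nat_lit 3) (.e (nat_lit 204877) (nat_lit 31) (.e (nat_lit 384768) (nat_lit 3) .nil))))) (.g (nat_lit 0) (.e (nat_lit 224552) (nat_lit 0) .nil) .nil)))) (.nd (nat_lit 9) 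
(.lf (nat_lit 520613) (.g (nat_lit 3085) (.e (nat_lit 204830) (nat_lit 18) (.e (nat_lit 57931) (nat_lit 282) (.e (nat_lit 163869) (nat_lit 2) (.e (nat_lit 196666) (nat_lit 13) (.e (nat_lit 65569) (nat_lit 3) (.e (nat_lit 98342) (nat_lit 20) (.e (nat_lit 221213) (nat_lit 23) .nil))))))) (.g (nat_lit 1) (.e (nat_lit 224190) (nat_lit 0) .nil) .nil))) 
(.lf (nat_lit 521125) (.g (nat_lit 2473) (.e (nat_lit 204837) (nat_lit 20) (.e (nat_lit 114715) (nat_lit 22) (.e (nat_lit 90170) (nat_lit 13) (.e (nat_lit 172067) (nat_lit 3) (.e (nat_lit 204828) (nat_lit 18) .nil))))) (.g (nat_lit 0) (.e (nat_lit 224955) (nat_lit 0) .nil) .nil)))))) (.nd (nat_lit 7) (.nd (nat_lit 8) (.nd (nat_lit 9) 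
(.lf (nat_lit 520293) (.g (nat_lit 2669) (.e (nat_lit 204829) (nat_lit 18) (.e (nat_lit 57927) (nat_lit 282) (.e (nat_lit 163875) (nat_lit 3) (.e (nat_lit 204862) (nat_lit 27) (.e (nat_lit 344117) (nat_lit 21) (.e (nat_lit 516123) (nat_lit 2) (.e (nat_lit 213022) (nat_lit 9) (.e (nat_lit 2683) (nat_lit 168) .nil)))))))) (.g (nat_lit 1) (.e (nat_lit 223785) (nat_lit 0) .nil) .nil))) 
(.lf (nat_lit 520805) (.g (nat_lit 2852) (.e (nat_lit 204831) (nat_lit 18) (.e (nat_lit 57931) (nat_lit 282) (.e (nat_lit 163867) (nat_lit 2) (.e (nat_lit 196668) (nat_lit 14) (.e (nat_lit 73747) (nat_lit 3) (.e (nat_lit 516131) (nat_lit 3) (.e (nat_lit 221213) (nat_lit 23) .nil))))))) (.g (nat_lit 1) (.e (nat_lit 224459) (nat_lit 0) .nil) .nil)))) (.nd (nat_lit 9) 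
(.lf (nat_lit 520549) (.g (nat_lit 3154) (.e (nat_lit 204830) (nat_lit 18) (.e (nat_lit 57926) (nat_lit 282) (.e (nat_lit 164084) (nat_lit 73) (.e (nat_lit 336027) (nat_lit 3) (.e (nat_lit 98358) (nat_lit 26) (.e (nat_lit 426112) (nat_lit 1) (.e (nat_lit 164327) (nat_lit 230) (.e (nat_lit 163875) (nat_lit 3) .nil)))))))) (.g (nat_lit 1) (.e (nat_lit 224116) (nat_lit 0) .nil) .nil))) 
(.lf (nat_lit 521061) (.g (nat_lit 2282) (.e (nat_lit 204837) (nat_lit 20) (.e (nat_lit 114698) (nat_lit 11) (.e (nat_lit 426139) (nat_lit 3) (.e (nat_lit 204876) (nat_lit 31) (.e (nat_lit 384768) (nat_lit 3) .nil))))) (.g (nat_lit 1) (.e (nat_lit 224850) (nat_lit 0) .nil) .nil))))) (.nd (nat_lit 8) (.nd (nat_lit 9) 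
(.lf (nat_lit 520421) (.g (nat_lit 3347) (.e (nat_lit 204830) (nat_lit 18) (.e (nat_lit 57854) (nat_lit 252) (.e (nat_lit 57406) (nat_lit 12) (.e (nat_lit 336456) (nat_lit 34) (.e (nat_lit 483346) (nat_lit 17) (.e (nat_lit 6445) (nat_lit 343) (.e (nat_lit 172) (nat_lit 12) .nil))))))) (.g (nat_lit 1) (.e (nat_lit 223966) (nat_lit 0) .nil) .nil))) 
(.lf (nat_lit 520933) (.g (nat_lit 1496) (.e (nat_lit 204836) (nat_lit 20) (.e (nat_lit 114719) (nat_lit 23) (.e (nat_lit 98366) (nat_lit 27) (.e (nat_lit 434232) (nat_lit 23) .nil)))) (.g (nat_lit 0) (.e (nat_lit 224638) (nat_lit 0) .nil) .nil)))) (.nd (nat_lit 9) 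
(.lf (nat_lit 520677) (.g (nat_lit 2450) (.e (nat_lit 204831) (nat_lit 18) (.e (nat_lit 57844) (nat_lit 252) (.e (nat_lit 57406) (nat_lit 12) (.e (nat_lit 336456) (nat_lit 34) (.e (nat_lit 483382) (nat_lit 23) .nil))))) (.g (nat_lit 0) (.e (nat_lit 224295) (nat_lit 0) .nil) .nil))) 
(.lf (nat_lit 521189) (.g (nat_lit 4293) (.e (nat_lit 204837) (nat_lit 20) (.e (nat_lit 114719) (nat_lit 23) (.e (nat_lit 98356) (nat_lit 26) (.e (nat_lit 426438) (nat_lit 18) (.e (nat_lit 98335) (nat_lit 18) (.e (nat_lit 164327) (nat_lit 230) (.e (nat_lit 163875) (nat_lit 3) .nil))))))) (.g (nat_lit 1) (.e (nat_lit 225046) (nat_lit 0) .nil) .nil)))))))) 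
(.nd (nat_lit 5) (.nd (nat_lit 6) (.nd (nat_lit 7) (.nd (nat_lit 8) (.nd (nat_lit 9) 
(.lf (nat_lit 520213) (.g (nat_lit 3587) (.e (nat_lit 204829) (nat_lit 18) (.e (nat_lit 57927) (nat_lit 282) (.e (nat_lit 163869) (nat_lit 2) (.e (nat_lit 196670) (nat_lit 14) (.e (nat_lit 73746) (nat_lit 3) (.e (nat_lit 516124) (nat_lit 2) (.e (nat_lit 213008) (nat_lit 9) (.e (nat_lit 2680) (nat_lit 168) .nil)))))))) (.g (nat_lit 1) (.e (nat_lit 223696) (nat_lit 0) .nil) .nil))) 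
(.lf (nat_lit 520725) (.g (nat_lit 2261) (.e (nat_lit 204831) (nat_lit 18) (.e (nat_lit 57848) (nat_lit 252) (.e (nat_lit 57407) (nat_lit 12) (.e (nat_lit 336456) (nat_lit 34) (.e (nat_lit 483387) (nat_lit 23) (.e (nat_lit 343808) (nat_lit 18) .nil)))))) (.g (nat_lit 1) (.e (nat_lit 224345) (nat_lit 0) .nil) .nil)))) (.nd (nat_lit 9) 
(.lf (nat_lit 520469) (.g (nat_lit 3643) (.e (nat_lit 204830) (nat_lit 18) (.e (nat_lit 57926) (nat_lit 282) (.e (nat_lit 163868) (nat_lit 2) (.e (nat_lit 196668) (nat_lit 14) (.e (nat_lit 73746) (nat_lit 3) (.e (nat_lit 516124) (nat_lit 2) (.e (nat_lit 213013) (nat_lit 9) (.e (nat_lit 2684) (nat_lit 168) .nil)))))))) (.g (nat_lit 1) (.e (nat_lit 224023) (nat_lit 0) .nil) .nil))) 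
(.lf (nat_lit 520981) (.g (nat_lit 2447) (.e (nat_lit 204837) (nat_lit 20) (.e (nat_lit 114697) (nat_lit 11) (.e (nat_lit 426137) (nat_lit 3) (.e (nat_lit 204861) (nat_lit 26) (.e (nat_lit 336076) (nat_lit 9) (.e (nat_lit 336326) (nat_lit 18) .nil)))))) (.g (nat_lit 1) (.e (nat_lit 224711) (nat_lit 0) .nil) .nil))))) (.nd (nat_lit 8) (.nd (nat_lit 9) 
(.lf (nat_lit 520341) (.g (nat_lit 4725) (.e (nat_lit 204829) (nat_lit 18) (.e (nat_lit 57931) (nat_lit 282) (.e (nat_lit 163869) (nat_lit 2) (.e (nat_lit 196670) (nat_lit 14) (.e (nat_lit 73746) (nat_lit 3) (.e (nat_lit 516131) (nat_lit 3) (.e (nat_lit 221213) (nat_lit 23) .nil))))))) (.g (nat_lit 1) (.e (nat_lit 223842) (nat_lit 0) .nil) .nil))) 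
(.lf (nat_lit 520853) (.g (nat_lit 3554) (.e (nat_lit 204831) (nat_lit 18) (.e (nat_lit 57931) (nat_lit 282) (.e (nat_lit 163874) (nat_lit 3) (.e (nat_lit 204863) (nat_lit 27) (.e (nat_lit 344117) (nat_lit 21) (.e (nat_lit 516123) (nat_lit 2) (.e (nat_lit 213013) (nat_lit 9) (.e (nat_lit 2684) (nat_lit 168) .nil)))))))) (.g (nat_lit 1) (.e (nat_lit 224520) (nat_lit 0) .nil) .nil)))) 
(.nd (nat_lit 9) 
(.lf (nat_lit 520597) (.g (nat_lit 2576) (.e (nat_lit 204830) (nat_lit 18) (.e (nat_lit 57928) (nat_lit 282) (.e (nat_lit 163871) (nat_lit 2) (.e (nat_lit 196670) (nat_lit 14) (.e (nat_lit 73746) (nat_lit 3) (.e (nat_lit 516131) (nat_lit 3) (.e (nat_lit 221213) (nat_lit 23) .nil))))))) (.g (nat_lit 1) (.e (nat_lit 224173) (nat_lit 0) .nil) .nil))) 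
(.lf (nat_lit 521109) (.g (nat_lit 4307) (.e (nat_lit 204837) (nat_lit 20) (.e (nat_lit 114714) (nat_lit 22) (.e (nat_lit 90174) (nat_lit 14) (.e (nat_lit 180243) (nat_lit 5) (.e (nat_lit 532503) (nat_lit 1) (.e (nat_lit 57654) (nat_lit 152) (.e (nat_lit 2399) (nat_lit 157) (.e (nat_lit 2685) (nat_lit 168) .nil)))))))) (.g (nat_lit 1) (.e (nat_lit 224934) (nat_lit 0) .nil) .nil)))))) 
(.nd (nat_lit 7) (.nd (nat_lit 8) (.nd (nat_lit 9) 
(.lf (nat_lit 520277) (.g (nat_lit 1720) (.e (nat_lit 204829) (nat_lit 18) (.e (nat_lit 57927) (nat_lit 282) (.e (nat_lit 163874) (nat_lit 3) (.e (nat_lit 204850) (nat_lit 26) .nil)))) (.g (nat_lit 0) (.e (nat_lit 223766) (nat_lit 0) .nil) .nil))) 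
(.lf (nat_lit 520789) (.g (nat_lit 1898) (.e (nat_lit 204831) (nat_lit 18) (.e (nat_lit 57854) (nat_lit 252) (.e (nat_lit 57409) (nat_lit 12) (.e (nat_lit 336456) (nat_lit 34) (.e (nat_lit 483384) (nat_lit 23) .nil))))) (.g (nat_lit 0) (.e (nat_lit 224434) (nat_lit 0) .nil) .nil)))) (.nd (nat_lit 9) 
(.lf (nat_lit 520533) (.g (nat_lit 2093) (.e (nat_lit 204830) (nat_lit 18) (.e (nat_lit 57926) (nat_lit 282) (.e (nat_lit 163873) (nat_lit 3) (.e (nat_lit 204873) (nat_lit 30) (.e (nat_lit 368676) (nat_lit 21) .nil))))) (.g (nat_lit 0) (.e (nat_lit 224098) (nat_lit 0) .nil) .nil))) 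
(.lf (nat_lit 521045) (.g (nat_lit 3729) (.e (nat_lit 204837) (nat_lit 20) (.e (nat_lit 114698) (nat_lit 11) (.e (nat_lit 426138) (nat_lit 3) (.e (nat_lit 204861) (nat_lit 26) (.e (nat_lit 336088) (nat_lit 9) (.e (nat_lit 336324) (nat_lit 18) .nil)))))) (.g (nat_lit 1) (.e (nat_lit 224833) (nat_lit 0) .nil) .nil))))) (.nd (nat_lit 8) (.nd (nat_lit 9) 
(.lf (nat_lit 520405) (.g (nat_lit 1187) (.e (nat_lit 204830) (nat_lit 18) (.e (nat_lit 57852) (nat_lit 252) (.e (nat_lit 57409) (nat_lit 12) (.e (nat_lit 336367) (nat_lit 27) .nil)))) (.g (nat_lit 0) (.e (nat_lit 223944) (nat_lit 0) .nil) .nil))) 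
(.lf (nat_lit 520917) (.g (nat_lit 2144) (.e (nat_lit 204836) (nat_lit 20) (.e (nat_lit 114715) (nat_lit 22) (.e (nat_lit 90170) (nat_lit 13) (.e (nat_lit 172046) (nat_lit 0) (.e (nat_lit 3238) (nat_lit 197) .nil))))) (.g (nat_lit 0) (.e (nat_lit 224615) (nat_lit 0) .nil) .nil)))) (.nd (nat_lit 9) 
(.lf (nat_lit 520661) (.g (nat_lit 3056) (.e (nat_lit 204831) (nat_lit 18) (.e (nat_lit 57691) (nat_lit 156) (.e (nat_lit 163875) (nat_lit 3) (.e (nat_lit 204837) (nat_lit 20) (.e (nat_lit 114718) (nat_lit 23) (.e (nat_lit 98365) (nat_lit 26) (.e (nat_lit 426138) (nat_lit 3) .nil))))))) (.g (nat_lit 1) (.e (nat_lit 224265) (nat_lit 0) .nil) .nil))) 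
(.lf (nat_lit 521173) (.g (nat_lit 2956) (.e (nat_lit 204837) (nat_lit 20) (.e (nat_lit 114718) (nat_lit 23) (.e (nat_lit 98384) (nat_lit 32) (.e (nat_lit 475177) (nat_lit 24) (.e (nat_lit 516120) (nat_lit 1) (.e (nat_lit 164330) (nat_lit 230) (.e (nat_lit 163872) (nat_lit 3) .nil))))))) (.g (nat_lit 1) (.e (nat_lit 225021) (nat_lit 0) .nil) .nil))))))) 
(.nd (nat_lit 6) (.nd (nat_lit 7) (.nd (nat_lit 8) (.nd (nat_lit 9) 
(.lf (nat_lit 520245) (.g (nat_lit 3676) (.e (nat_lit 204829) (nat_lit 18) (.e (nat_lit 57927) (nat_lit 282) (.e (nat_lit 163869) (nat_lit 2) (.e (nat_lit 196670) (nat_lit 14) (.e (nat_lit 73746) (nat_lit 3) (.e (nat_lit 516127) (nat_lit 2) (.e (nat_lit 213022) (nat_lit 9) (.e (nat_lit 2683) (nat_lit 168) .nil)))))))) (.g (nat_lit 1) (.e (nat_lit 223728) (nat_lit 0) .nil) .nil))) 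
(.lf (nat_lit 520757) (.g (nat_lit 3471) (.e (nat_lit 204831) (nat_lit 18) (.e (nat_lit 57851) (nat_lit 252) (.e (nat_lit 57406) (nat_lit 12) (.e (nat_lit 336456) (nat_lit 34) (.e (nat_lit 483385) (nat_lit 23) (.e (nat_lit 336324) (nat_lit 18) .nil)))))) (.g (nat_lit 1) (.e (nat_lit 224383) (nat_lit 0) .nil) .nil)))) (.nd (nat_lit 9) 
(.lf (nat_lit 520501) (.g (nat_lit 2688) (.e (nat_lit 204830) (nat_lit 18) (.e (nat_lit 57926) (nat_lit 282) (.e (nat_lit 163869) (nat_lit 2) (.e (nat_lit 196670) (nat_lit 14) (.e (nat_lit 73746) (nat_lit 3) (.e (nat_lit 516126) (nat_lit 2) (.e (nat_lit 213000) (nat_lit 9) (.e (nat_lit 2680) (nat_lit 168) .nil)))))))) (.g (nat_lit 1) (.e (nat_lit 224064) (nat_lit 0) .nil) .nil))) 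
(.lf (nat_lit 521013) (.g (nat_lit 2397) (.e (nat_lit 204837) (nat_lit 20) (.e (nat_lit 114698) (nat_lit 11) (.e (nat_lit 426124) (nat_lit 2) (.e (nat_lit 196674) (nat_lit 15) (.e (nat_lit 89856) (nat_lit 3) .nil))))) (.g (nat_lit 1) (.e (nat_lit 224791) (nat_lit 0) .nil) .nil))))) (.nd (nat_lit 8) (.nd (nat_lit 9) 
(.lf (nat_lit 520373) (.g (nat_lit 2686) (.e (nat_lit 204830) (nat_lit 18) (.e (nat_lit 57691) (nat_lit 156) (.e (nat_lit 163907) (nat_lit 12) (.e (nat_lit 426568) (nat_lit 34) (.e (nat_lit 393281) (nat_lit 23) (.e (nat_lit 426132) (nat_lit 3) .nil)))))) (.g (nat_lit 1) (.e (nat_lit 223897) (nat_lit 0) .nil) .nil))) 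
(.lf (nat_lit 520885) (.g (nat_lit 2125) (.e (nat_lit 204835) (nat_lit 19) (.e (nat_lit 106536) (nat_lit 11) (.e (nat_lit 16413) (nat_lit 2) (.e (nat_lit 196681) (nat_lit 17) (.e (nat_lit 131105) (nat_lit 9) (.e (nat_lit 336326) (nat_lit 18) .nil)))))) (.g (nat_lit 1) (.e (nat_lit 224579) (nat_lit 0) .nil) .nil)))) (.nd (nat_lit 9) 
(.lf (nat_lit 520629) (.g (nat_lit 1873) (.e (nat_lit 204830) (nat_lit 18) (.e (nat_lit 57931) (nat_lit 282) (.e (nat_lit 163874) (nat_lit 3) (.e (nat_lit 204872) (nat_lit 30) (.e (nat_lit 368676) (nat_lit 21) .nil))))) (.g (nat_lit 0) (.e (nat_lit 224209) (nat_lit 0) .nil) .nil))) 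
(.lf (nat_lit 521141) (.g (nat_lit 3393) (.e (nat_lit 204837) (nat_lit 20) (.e (nat_lit 114716) (nat_lit 22) (.e (nat_lit 90174) (nat_lit 14) (.e (nat_lit 180243) (nat_lit 5) (.e (nat_lit 532503) (nat_lit 1) (.e (nat_lit 57654) (nat_lit 152) (.e (nat_lit 2399) (nat_lit 157) (.e (nat_lit 2685) (nat_lit 168) .nil)))))))) (.g (nat_lit 1) (.e (nat_lit 224973) (nat_lit 0) .nil) .nil)))))) 
(.nd (nat_lit 7) (.nd (nat_lit 8) (.nd (nat_lit 9) 
(.lf (nat_lit 520309) (.g (nat_lit 2183) (.e (nat_lit 204829) (nat_lit 18) (.e (nat_lit 57931) (nat_lit 282) (.e (nat_lit 163866) (nat_lit 2) (.e (nat_lit 196668) (nat_lit 14) (.e (nat_lit 73746) (nat_lit 3) .nil))))) (.g (nat_lit 0) (.e (nat_lit 223801) (nat_lit 0) .nil) .nil))) 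
(.lf (nat_lit 520821) (.g (nat_lit 5432) (.e (nat_lit 204831) (nat_lit 18) (.e (nat_lit 57931) (nat_lit 282) (.e (nat_lit 163867) (nat_lit 2) (.e (nat_lit 196670) (nat_lit 14) (.e (nat_lit 73746) (nat_lit 3) (.e (nat_lit 516129) (nat_lit 3) (.e (nat_lit 221214) (nat_lit 23) .nil))))))) (.g (nat_lit 1) (.e (nat_lit 224475) (nat_lit 0) .nil) .nil)))) (.nd (nat_lit 9) 
(.lf (nat_lit 520565) (.g (nat_lit 2121) (.e (nat_lit 204830) (nat_lit 18) (.e (nat_lit 57927) (nat_lit 282) (.e (nat_lit 163868) (nat_lit 2) (.e (nat_lit 196670) (nat_lit 14) (.e (nat_lit 73748) (nat_lit 3) .nil))))) (.g (nat_lit 0) (.e (nat_lit 224133) (nat_lit 0) .nil) .nil))) 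
(.lf (nat_lit 521077) (.g (nat_lit 2795) (.e (nat_lit 204837) (nat_lit 20) (.e (nat_lit 114714) (nat_lit 22) (.e (nat_lit 90172) (nat_lit 14) (.e (nat_lit 180243) (nat_lit 5) (.e (nat_lit 532504) (nat_lit 1) (.e (nat_lit 57651) (nat_lit 152) (.e (nat_lit 2399) (nat_lit 157) (.e (nat_lit 2685) (nat_lit 168) .nil)))))))) (.g (nat_lit 1) (.e (nat_lit 224899) (nat_lit 0) .nil) .nil))))) 
(.nd (nat_lit 8) (.nd (nat_lit 9) 
(.lf (nat_lit 520437) (.g (nat_lit 1235) (.e (nat_lit 204830) (nat_lit 18) (.e (nat_lit 57854) (nat_lit 252) (.e (nat_lit 57409) (nat_lit 12) (.e (nat_lit 336456) (nat_lit 34) (.e (nat_lit 483391) (nat_lit 23) (.e (nat_lit 343808) (nat_lit 18) .nil)))))) (.g (nat_lit 1) (.e (nat_lit 223983) (nat_lit 0) .nil) .nil))) 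
(.lf (nat_lit 520949) (.g (nat_lit 2362) (.e (nat_lit 204837) (nat_lit 20) (.e (nat_lit 114694) (nat_lit 11) (.e (nat_lit 426133) (nat_lit 3) (.e (nat_lit 204861) (nat_lit 26) (.e (nat_lit 336075) (nat_lit 9) (.e (nat_lit 336324) (nat_lit 18) .nil)))))) (.g (nat_lit 1) (.e (nat_lit 224655) (nat_lit 0) .nil) .nil)))) (.nd (nat_lit 9) 
(.lf (nat_lit 520693) (.g (nat_lit 1576) (.e (nat_lit 204831) (nat_lit 18) (.e (nat_lit 57846) (nat_lit 252) (.e (nat_lit 57445) (nat_lit 19) (.e (nat_lit 393226) (nat_lit 9) (.e (nat_lit 336116) (nat_lit 9) .nil))))) (.g (nat_lit 0) (.e (nat_lit 224311) (nat_lit 0) .nil) .nil))) 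
(.lf (nat_lit 521205) (.g (nat_lit 2125) (.e (nat_lit 204837) (nat_lit 20) (.e (nat_lit 114719) (nat_lit 23) (.e (nat_lit 98367) (nat_lit 27) (.e (nat_lit 434231) (nat_lit 23) (.e (nat_lit 532499) (nat_lit 1) .nil))))) (.g (nat_lit 0) (.e (nat_lit 225069) (nat_lit 0) .nil) .nil))))))))) (.nd (nat_lit 4) (.nd (nat_lit 5) (.nd (nat_lit 6) (.nd (nat_lit 7) (.nd (nat_lit 8) (.nd (nat_lit 9) 
(.lf (nat_lit 520205) (.g (nat_lit 3800) (.e (nat_lit 204829) (nat_lit 18) (.e (nat_lit 57927) (nat_lit 282) (.e (nat_lit 163869) (nat_lit 2) (.e (nat_lit 196668) (nat_lit 14) (.e (nat_lit 73747) (nat_lit 3) (.e (nat_lit 516129) (nat_lit 3) (.e (nat_lit 221213) (nat_lit 23) .nil))))))) (.g (nat_lit 1) (.e (nat_lit 223688) (nat_lit 0) .nil) .nil))) 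
(.lf (nat_lit 520717) (.g (nat_lit 2677) (.e (nat_lit 204831) (nat_lit 18) (.e (nat_lit 57847) (nat_lit 252) (.e (nat_lit 57445) (nat_lit 19) (.e (nat_lit 393229) (nat_lit 9) (.e (nat_lit 343808) (nat_lit 9) .nil))))) (.g (nat_lit 0) (.e (nat_lit 224336) (nat_lit 0) .nil) .nil)))) (.nd (nat_lit 9) 
(.lf (nat_lit 520461) (.g (nat_lit 2209) (.e (nat_lit 204830) (nat_lit 18) (.e (nat_lit 57926) (nat_lit 282) (.e (nat_lit 163867) (nat_lit 2) (.e (nat_lit 196668) (nat_lit 14) (.e (nat_lit 73747) (nat_lit 3) .nil))))) (.g (nat_lit 0) (.e (nat_lit 224014) (nat_lit 0) .nil) .nil))) 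
(.lf (nat_lit 520973) (.g (nat_lit 3596) (.e (nat_lit 204837) (nat_lit 20) (.e (nat_lit 114697) (nat_lit 11) (.e (nat_lit 426133) (nat_lit 3) (.e (nat_lit 204861) (nat_lit 26) (.e (nat_lit 336088) (nat_lit 9) (.e (nat_lit 336324) (nat_lit 18) .nil)))))) (.g (nat_lit 1) (.e (nat_lit 224703) (nat_lit 0) .nil) .nil))))) (.nd (nat_lit 8) (.nd (nat_lit 9) 
(.lf (nat_lit 520333) (.g (nat_lit 2525) (.e (nat_lit 204829) (nat_lit 18) (.e (nat_lit 57931) (nat_lit 282) (.e (nat_lit 163869) (nat_lit 2) (.e (nat_lit 196670) (nat_lit 14) (.e (nat_lit 73746) (nat_lit 3) .nil))))) (.g (nat_lit 0) (.e (nat_lit 223834) (nat_lit 0) .nil) .nil))) 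
(.lf (nat_lit 520845) (.g (nat_lit 3154) (.e (nat_lit 204831) (nat_lit 18) (.e (nat_lit 57931) (nat_lit 282) (.e (nat_lit 163869) (nat_lit 2) (.e (nat_lit 196670) (nat_lit 14) (.e (nat_lit 73746) (nat_lit 3) (.e (nat_lit 516129) (nat_lit 3) (.e (nat_lit 221213) (nat_lit 23) .nil))))))) (.g (nat_lit 1) (.e (nat_lit 224509) (nat_lit 0) .nil) .nil)))) (.nd (nat_lit 9) 
(.lf (nat_lit 520589) (.g (nat_lit 1535) (.e (nat_lit 204830) (nat_lit 18) (.e (nat_lit 57927) (nat_lit 282) (.e (nat_lit 163874) (nat_lit 3) (.e (nat_lit 204862) (nat_lit 27) .nil)))) (.g (nat_lit 0) (.e (nat_lit 224165) (nat_lit 0) .nil) .nil))) 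
(.lf (nat_lit 521101) (.g (nat_lit 2569) (.e (nat_lit 204837) (nat_lit 20) (.e (nat_lit 114714) (nat_lit 22) (.e (nat_lit 90174) (nat_lit 14) (.e (nat_lit 180243) (nat_lit 5) (.e (nat_lit 532501) (nat_lit 1) (.e (nat_lit 57651) (nat_lit 152) (.e (nat_lit 2433) (nat_lit 157) (.e (nat_lit 2685) (nat_lit 168) .nil)))))))) (.g (nat_lit 1) (.e (nat_lit 224926) (nat_lit 0) .nil) .nil)))))) 
(.nd (nat_lit 7) (.nd (nat_lit 8) (.nd (nat_lit 9) 
(.lf (nat_lit 520269) (.g (nat_lit 2223) (.e (nat_lit 204829) (nat_lit 18) (.e (nat_lit 57927) (nat_lit 282) (.e (nat_lit 163871) (nat_lit 2) (.e (nat_lit 196670) (nat_lit 14) (.e (nat_lit 73746) (nat_lit 3) (.e (nat_lit 516124) (nat_lit 2) (.e (nat_lit 213008) (nat_lit 9) (.e (nat_lit 2680) (nat_lit 168) .nil)))))))) (.g (nat_lit 1) (.e (nat_lit 223758) (nat_lit 0) .nil) .nil))) 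
(.lf (nat_lit 520781) (.g (nat_lit 1381) (.e (nat_lit 204831) (nat_lit 18) (.e (nat_lit 57854) (nat_lit 252) (.e (nat_lit 57405) (nat_lit 12) (.e (nat_lit 336455) (nat_lit 34) .nil)))) (.g (nat_lit 0) (.e (nat_lit 224425) (nat_lit 0) .nil) .nil)))) (.nd (nat_lit 9) 
(.lf (nat_lit 520525) (.g (nat_lit 3158) (.e (nat_lit 204830) (nat_lit 18) (.e (nat_lit 57926) (nat_lit 282) (.e (nat_lit 163871) (nat_lit 2) (.e (nat_lit 196668) (nat_lit 14) (.e (nat_lit 73747) (nat_lit 3) (.e (nat_lit 516124) (nat_lit 2) (.e (nat_lit 213019) (nat_lit 9) (.e (nat_lit 2675) (nat_lit 168) .nil)))))))) (.g (nat_lit 1) (.e (nat_lit 224090) (nat_lit 0) .nil) .nil))) 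
(.lf (nat_lit 521037) (.g (nat_lit 2308) (.e (nat_lit 204837) (nat_lit 20) (.e (nat_lit 114698) (nat_lit 11) (.e (nat_lit 426138) (nat_lit 3) (.e (nat_lit 204852) (nat_lit 26) (.e (nat_lit 343808) (nat_lit 9) (.e (nat_lit 336324) (nat_lit 18) .nil)))))) (.g (nat_lit 1) (.e (nat_lit 224821) (nat_lit 0) .nil) .nil))))) (.nd (nat_lit 8) (.nd (nat_lit 9) 
(.lf (nat_lit 520397) (.g (nat_lit 2028) (.e (nat_lit 204830) (nat_lit 18) (.e (nat_lit 57852) (nat_lit 252) (.e (nat_lit 57376) (nat_lit 3) (.e (nat_lit 98342) (nat_lit 20) (.e (nat_lit 221213) (nat_lit 23) .nil))))) (.g (nat_lit 0) (.e (nat_lit 223935) (nat_lit 0) .nil) .nil))) 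
(.lf (nat_lit 520909) (.g (nat_lit 1762) (.e (nat_lit 204836) (nat_lit 20) (.e (nat_lit 114698) (nat_lit 11) (.e (nat_lit 426139) (nat_lit 3) (.e (nat_lit 204861) (nat_lit 26) .nil)))) (.g (nat_lit 0) (.e (nat_lit 224606) (nat_lit 0) .nil) .nil)))) (.nd (nat_lit 9) 
(.lf (nat_lit 520653) (.g (nat_lit 1275) (.e (nat_lit 204831) (nat_lit 18) (.e (nat_lit 57688) (nat_lit 156) (.e (nat_lit 163903) (nat_lit 12) (.e (nat_lit 426567) (nat_lit 34) .nil)))) (.g (nat_lit 0) (.e (nat_lit 224242) (nat_lit 0) .nil) .nil))) 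
(.lf (nat_lit 521165) (.g (nat_lit 1777) (.e (nat_lit 204837) (nat_lit 20) (.e (nat_lit 114718) (nat_lit 23) (.e (nat_lit 98367) (nat_lit 27) (.e (nat_lit 434234) (nat_lit 23) .nil)))) (.g (nat_lit 0) (.e (nat_lit 225011) (nat_lit 0) .nil) .nil))))))) (.nd (nat_lit 6) (.nd (nat_lit 7) (.nd (nat_lit 8) (.nd (nat_lit 9) 
(.lf (nat_lit 520237) (.g (nat_lit 2428) (.e (nat_lit 204829) (nat_lit 18) (.e (nat_lit 57927) (nat_lit 282) (.e (nat_lit 163869) (nat_lit 2) (.e (nat_lit 196670) (nat_lit 14) (.e (nat_lit 73746) (nat_lit 3) (.e (nat_lit 516126) (nat_lit 2) (.e (nat_lit 213017) (nat_lit 9) (.e (nat_lit 2683) (nat_lit 168) .nil)))))))) (.g (nat_lit 1) (.e (nat_lit 223720) (nat_lit 0) .nil) .nil))) 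
(.lf (nat_lit 520749) (.g (nat_lit 923) (.e (nat_lit 204831) (nat_lit 18) (.e (nat_lit 57849) (nat_lit 252) (.e (nat_lit 57445) (nat_lit 19) (.e (nat_lit 393227) (nat_lit 9) .nil)))) (.g (nat_lit 0) (.e (nat_lit 224374) (nat_lit 0) .nil) .nil)))) (.nd (nat_lit 9) 
(.lf (nat_lit 520493) (.g (nat_lit 3995) (.e (nat_lit 204830) (nat_lit 18) (.e (nat_lit 57926) (nat_lit 282) (.e (nat_lit 163869) (nat_lit 2) (.e (nat_lit 196670) (nat_lit 14) (.e (nat_lit 73746) (nat_lit 3) (.e (nat_lit 516124) (nat_lit 2) (.e (nat_lit 213022) (nat_lit 9) (.e (nat_lit 2683) (nat_lit 168) .nil)))))))) (.g (nat_lit 1) (.e (nat_lit 224056) (nat_lit 0) .nil) .nil))) 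
(.lf (nat_lit 521005) (.g (nat_lit 1526) (.e (nat_lit 204837) (nat_lit 20) (.e (nat_lit 114697) (nat_lit 11) (.e (nat_lit 426139) (nat_lit 3) (.e (nat_lit 204865) (nat_lit 28) (.e (nat_lit 360192) (nat_lit 3) .nil))))) (.g (nat_lit 1) (.e (nat_lit 224738) (nat_lit 0) .nil) .nil))))) (.nd (nat_lit 8) (.nd (nat_lit 9) 
(.lf (nat_lit 520365) (.g (nat_lit 469) (.e (nat_lit 204830) (nat_lit 18) (.e (nat_lit 57691) (nat_lit 156) (.e (nat_lit 163906) (nat_lit 12) .nil))) (.g (nat_lit 0) (.e (nat_lit 223881) (nat_lit 0) .nil) .nil))) 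
(.lf (nat_lit 520877) (.g (nat_lit 1973) (.e (nat_lit 204834) (nat_lit 19) (.e (nat_lit 106536) (nat_lit 11) (.e (nat_lit 16415) (nat_lit 3) (.e (nat_lit 204861) (nat_lit 26) (.e (nat_lit 336076) (nat_lit 9) .nil))))) (.g (nat_lit 0) (.e (nat_lit 224563) (nat_lit 0) .nil) .nil)))) (.nd (nat_lit 9) 
(.lf (nat_lit 520621) (.g (nat_lit 2483) (.e (nat_lit 204830) (nat_lit 18) (.e (nat_lit 57931) (nat_lit 282) (.e (nat_lit 163869) (nat_lit 2) (.e (nat_lit 196670) (nat_lit 14) (.e (nat_lit 73746) (nat_lit 3) .nil))))) (.g (nat_lit 0) (.e (nat_lit 224199) (nat_lit 0) .nil) .nil))) 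
(.lf (nat_lit 521133) (.g (nat_lit 3386) (.e (nat_lit 204837) (nat_lit 20) (.e (nat_lit 114716) (nat_lit 22) (.e (nat_lit 90172) (nat_lit 14) (.e (nat_lit 180244) (nat_lit 5) (.e (nat_lit 532503) (nat_lit 1) (.e (nat_lit 57653) (nat_lit 152) (.e (nat_lit 2399) (nat_lit 157) (.e (nat_lit 2685) (nat_lit 168) .nil)))))))) (.g (nat_lit 1) (.e (nat_lit 224965) (nat_lit 0) .nil) .nil)))))) 
(.nd (nat_lit 7) (.nd (nat_lit 8) (.nd (nat_lit 9) 
(.lf (nat_lit 520301) (.g (nat_lit 2929) (.e (nat_lit 204829) (nat_lit 18) (.e (nat_lit 57928) (nat_lit 282) (.e (nat_lit 163868) (nat_lit 2) (.e (nat_lit 196668) (nat_lit 14) (.e (nat_lit 73747) (nat_lit 3) (.e (nat_lit 516131) (nat_lit 3) (.e (nat_lit 221213) (nat_lit 23) .nil))))))) (.g (nat_lit 1) (.e (nat_lit 223793) (nat_lit 0) .nil) .nil))) 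
(.lf (nat_lit 520813) (.g (nat_lit 3497) (.e (nat_lit 204831) (nat_lit 18) (.e (nat_lit 57931) (nat_lit 282) (.e (nat_lit 163867) (nat_lit 2) (.e (nat_lit 196670) (nat_lit 14) (.e (nat_lit 73746) (nat_lit 3) (.e (nat_lit 516124) (nat_lit 2) (.e (nat_lit 213019) (nat_lit 9) (.e (nat_lit 2684) (nat_lit 168) .nil)))))))) (.g (nat_lit 1) (.e (nat_lit 224467) (nat_lit 0) .nil) .nil)))) 
(.nd (nat_lit 9) 
(.lf (nat_lit 520557) (.g (nat_lit 2185) (.e (nat_lit 204830) (nat_lit 18) (.e (nat_lit 57927) (nat_lit 282) (.e (nat_lit 163868) (nat_lit 2) (.e (nat_lit 196668) (nat_lit 14) (.e (nat_lit 73746) (nat_lit 3) .nil))))) (.g (nat_lit 0) (.e (nat_lit 224125) (nat_lit 0) .nil) .nil))) 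
(.lf (nat_lit 521069) (.g (nat_lit 1554) (.e (nat_lit 204837) (nat_lit 20) (.e (nat_lit 114714) (nat_lit 22) (.e (nat_lit 90170) (nat_lit 13) (.e (nat_lit 172065) (nat_lit 3) .nil)))) (.g (nat_lit 0) (.e (nat_lit 224890) (nat_lit 0) .nil) .nil))))) (.nd (nat_lit 8) (.nd (nat_lit 9) 
(.lf (nat_lit 520429) (.g (nat_lit 1715) (.e (nat_lit 204830) (nat_lit 18) (.e (nat_lit 57854) (nat_lit 252) (.e (nat_lit 57409) (nat_lit 12) (.e (nat_lit 336375) (nat_lit 27) .nil)))) (.g (nat_lit 0) (.e (nat_lit 223974) (nat_lit 0) .nil) .nil))) 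
(.lf (nat_lit 520941) (.g (nat_lit 1909) (.e (nat_lit 204836) (nat_lit 20) (.e (nat_lit 114719) (nat_lit 23) (.e (nat_lit 98367) (nat_lit 27) (.e (nat_lit 434232) (nat_lit 23) (.e (nat_lit 532503) (nat_lit 1) .nil))))) (.g (nat_lit 0) (.e (nat_lit 224646) (nat_lit 0) .nil) .nil)))) (.nd (nat_lit 9) 
(.lf (nat_lit 520685) (.g (nat_lit 2673) (.e (nat_lit 204831) (nat_lit 18) (.e (nat_lit 57846) (nat_lit 252) (.e (nat_lit 57406) (nat_lit 12) (.e (nat_lit 336456) (nat_lit 34) (.e (nat_lit 483391) (nat_lit 23) .nil))))) (.g (nat_lit 0) (.e (nat_lit 224303) (nat_lit 0) .nil) .nil))) 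
(.lf (nat_lit 521197) (.g (nat_lit 742) (.e (nat_lit 204837) (nat_lit 20) (.e (nat_lit 114719) (nat_lit 23) (.e (nat_lit 98366) (nat_lit 27) .nil))) (.g (nat_lit 0) (.e (nat_lit 225060) (nat_lit 0) .nil) .nil)))))))) (.nd (nat_lit 5) (.nd (nat_lit 6) (.nd (nat_lit 7) (.nd (nat_lit 8) (.nd (nat_lit 9) 
(.lf (nat_lit 520221) (.g (nat_lit 3895) (.e (nat_lit 204829) (nat_lit 18) (.e (nat_lit 57927) (nat_lit 282) (.e (nat_lit 163869) (nat_lit 2) (.e (nat_lit 196670) (nat_lit 14) (.e (nat_lit 73746) (nat_lit 3) (.e (nat_lit 516124) (nat_lit 2) (.e (nat_lit 213022) (nat_lit 9) (.e (nat_lit 2683) (nat_lit 168) .nil)))))))) (.g (nat_lit 1) (.e (nat_lit 223704) (nat_lit 0) .nil) .nil))) 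
(.lf (nat_lit 520733) (.g (nat_lit 1521) (.e (nat_lit 204831) (nat_lit 18) (.e (nat_lit 57849) (nat_lit 252) (.e (nat_lit 57407) (nat_lit 12) (.e (nat_lit 336370) (nat_lit 27) (.e (nat_lit 426497) (nat_lit 27) .nil))))) (.g (nat_lit 0) (.e (nat_lit 224357) (nat_lit 0) .nil) .nil)))) (.nd (nat_lit 9) 
(.lf (nat_lit 520477) (.g (nat_lit 4278) (.e (nat_lit 204830) (nat_lit 18) (.e (nat_lit 57926) (nat_lit 282) (.e (nat_lit 163868) (nat_lit 2) (.e (nat_lit 196670) (nat_lit 14) (.e (nat_lit 73746) (nat_lit 3) (.e (nat_lit 516124) (nat_lit 2) (.e (nat_lit 213019) (nat_lit 9) (.e (nat_lit 2681) (nat_lit 168) .nil)))))))) (.g (nat_lit 1) (.e (nat_lit 224031) (nat_lit 0) .nil) .nil))) 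
(.lf (nat_lit 520989) (.g (nat_lit 1200) (.e (nat_lit 204837) (nat_lit 20) (.e (nat_lit 114697) (nat_lit 11) (.e (nat_lit 426138) (nat_lit 3) (.e (nat_lit 204861) (nat_lit 26) (.e (nat_lit 336075) (nat_lit 9) (.e (nat_lit 336322) (nat_lit 18) .nil)))))) (.g (nat_lit 1) (.e (nat_lit 224721) (nat_lit 0) .nil) .nil))))) (.nd (nat_lit 8) (.nd (nat_lit 9) 
(.lf (nat_lit 520349) (.g (nat_lit 3148) (.e (nat_lit 204829) (nat_lit 18) (.e (nat_lit 57931) (nat_lit 282) (.e (nat_lit 163874) (nat_lit 3) (.e (nat_lit 204873) (nat_lit 30) (.e (nat_lit 368676) (nat_lit 21) (.e (nat_lit 516131) (nat_lit 3) (.e (nat_lit 221213) (nat_lit 23) .nil))))))) (.g (nat_lit 1) (.e (nat_lit 223854) (nat_lit 0) .nil) .nil))) 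
(.lf (nat_lit 520861) (.g (nat_lit 1411) (.e (nat_lit 204833) (nat_lit 19) (.e (nat_lit 106535) (nat_lit 11) (.e (nat_lit 16415) (nat_lit 3) (.e (nat_lit 204861) (nat_lit 26) (.e (nat_lit 336076) (nat_lit 9) .nil))))) (.g (nat_lit 0) (.e (nat_lit 224534) (nat_lit 0) .nil) .nil)))) (.nd (nat_lit 9) 
(.lf (nat_lit 520605) (.g (nat_lit 2877) (.e (nat_lit 204830) (nat_lit 18) (.e (nat_lit 57929) (nat_lit 282) (.e (nat_lit 163874) (nat_lit 3) (.e (nat_lit 204873) (nat_lit 30) (.e (nat_lit 368676) (nat_lit 21) (.e (nat_lit 516131) (nat_lit 3) (.e (nat_lit 221213) (nat_lit 23) .nil))))))) (.g (nat_lit 1) (.e (nat_lit 224182) (nat_lit 0) .nil) .nil))) 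
(.lf (nat_lit 521117) (.g (nat_lit 5026) (.e (nat_lit 204837) (nat_lit 20) (.e (nat_lit 114714) (nat_lit 22) (.e (nat_lit 90174) (nat_lit 14) (.e (nat_lit 180243) (nat_lit 5) (.e (nat_lit 532504) (nat_lit 1) (.e (nat_lit 57692) (nat_lit 156) (.e (nat_lit 163874) (nat_lit 3) .nil))))))) (.g (nat_lit 1) (.e (nat_lit 224943) (nat_lit 0) .nil) .nil)))))) 
(.nd (nat_lit 7) (.nd (nat_lit 8) (.nd (nat_lit 9) 
(.lf (nat_lit 520285) (.g (nat_lit 5366) (.e (nat_lit 204829) (nat_lit 18) (.e (nat_lit 57927) (nat_lit 282) (.e (nat_lit 163874) (nat_lit 3) (.e (nat_lit 204863) (nat_lit 27) (.e (nat_lit 344117) (nat_lit 21) (.e (nat_lit 516099) (nat_lit 0) (.e (nat_lit 3771) (nat_lit 229) (.e (nat_lit 794673) (nat_lit 23) .nil)))))))) (.g (nat_lit 1) (.e (nat_lit 223775) (nat_lit 0) .nil) .nil))) 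
(.lf (nat_lit 520797) (.g (nat_lit 2393) (.e (nat_lit 204831) (nat_lit 18) (.e (nat_lit 57929) (nat_lit 282) (.e (nat_lit 163869) (nat_lit 2) (.e (nat_lit 196670) (nat_lit 14) (.e (nat_lit 73746) (nat_lit 3) (.e (nat_lit 516124) (nat_lit 2) (.e (nat_lit 213019) (nat_lit 9) (.e (nat_lit 2681) (nat_lit 168) .nil)))))))) (.g (nat_lit 1) (.e (nat_lit 224444) (nat_lit 0) .nil) .nil)))) 
(.nd (nat_lit 9) 
(.lf (nat_lit 520541) (.g (nat_lit 1831) (.e (nat_lit 204830) (nat_lit 18) (.e (nat_lit 57926) (nat_lit 282) (.e (nat_lit 163875) (nat_lit 3) (.e (nat_lit 204862) (nat_lit 27) (.e (nat_lit 344117) (nat_lit 21) .nil))))) (.g (nat_lit 0) (.e (nat_lit 224108) (nat_lit 0) .nil) .nil))) 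
(.lf (nat_lit 521053) (.g (nat_lit 3276) (.e (nat_lit 204837) (nat_lit 20) (.e (nat_lit 114698) (nat_lit 11) (.e (nat_lit 426139) (nat_lit 3) (.e (nat_lit 204861) (nat_lit 26) (.e (nat_lit 336075) (nat_lit 9) (.e (nat_lit 336325) (nat_lit 18) .nil)))))) (.g (nat_lit 1) (.e (nat_lit 224842) (nat_lit 0) .nil) .nil))))) (.nd (nat_lit 8) (.nd (nat_lit 9) 
(.lf (nat_lit 520413) (.g (nat_lit 2375) (.e (nat_lit 204830) (nat_lit 18) (.e (nat_lit 57854) (nat_lit 252) (.e (nat_lit 57373) (nat_lit 2) (.e (nat_lit 90160) (nat_lit 11) (.e (nat_lit 24608) (nat_lit 3) .nil))))) (.g (nat_lit 0) (.e (nat_lit 223956) (nat_lit 0) .nil) .nil))) 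
(.lf (nat_lit 520925) (.g (nat_lit 2469) (.e (nat_lit 204836) (nat_lit 20) (.e (nat_lit 114718) (nat_lit 23) (.e (nat_lit 98367) (nat_lit 27) (.e (nat_lit 434231) (nat_lit 23) (.e (nat_lit 532502) (nat_lit 1) .nil))))) (.g (nat_lit 0) (.e (nat_lit 224624) (nat_lit 0) .nil) .nil)))) (.nd (nat_lit 9) 
(.lf (nat_lit 520669) (.g (nat_lit 1975) (.e (nat_lit 204831) (nat_lit 18) (.e (nat_lit 57692) (nat_lit 156) (.e (nat_lit 163907) (nat_lit 12) (.e (nat_lit 426566) (nat_lit 34) (.e (nat_lit 393272) (nat_lit 23) (.e (nat_lit 433920) (nat_lit 3) .nil)))))) (.g (nat_lit 1) (.e (nat_lit 224282) (nat_lit 0) .nil) .nil))) 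
(.lf (nat_lit 521181) (.g (nat_lit 1114) (.e (nat_lit 204837) (nat_lit 20) (.e (nat_lit 114719) (nat_lit 23) (.e (nat_lit 98354) (nat_lit 26) (.e (nat_lit 426140) (nat_lit 3) .nil)))) (.g (nat_lit 0) (.e (nat_lit 225038) (nat_lit 0) .nil) .nil))))))) (.nd (nat_lit 6) (.nd (nat_lit 7) (.nd (nat_lit 8) (.nd (nat_lit 9) 
(.lf (nat_lit 520253) (.g (nat_lit 4271) (.e (nat_lit 204829) (nat_lit 18) (.e (nat_lit 57927) (nat_lit 282) (.e (nat_lit 163870) (nat_lit 2) (.e (nat_lit 196666) (nat_lit 13) (.e (nat_lit 65571) (nat_lit 3) (.e (nat_lit 98342) (nat_lit 20) (.e (nat_lit 221213) (nat_lit 23) .nil))))))) (.g (nat_lit 1) (.e (nat_lit 223742) (nat_lit 0) .nil) .nil))) 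
(.lf (nat_lit 520765) (.g (nat_lit 3166) (.e (nat_lit 204831) (nat_lit 18) (.e (nat_lit 57852) (nat_lit 252) (.e (nat_lit 57406) (nat_lit 12) (.e (nat_lit 336456) (nat_lit 34) (.e (nat_lit 483391) (nat_lit 23) (.e (nat_lit 336323) (nat_lit 18) .nil)))))) (.g (nat_lit 1) (.e (nat_lit 224392) (nat_lit 0) .nil) .nil)))) (.nd (nat_lit 9) 
(.lf (nat_lit 520509) (.g (nat_lit 3780) (.e (nat_lit 204830) (nat_lit 18) (.e (nat_lit 57926) (nat_lit 282) (.e (nat_lit 163869) (nat_lit 2) (.e (nat_lit 196670) (nat_lit 14) (.e (nat_lit 73746) (nat_lit 3) (.e (nat_lit 516127) (nat_lit 2) (.e (nat_lit 213019) (nat_lit 9) (.e (nat_lit 2675) (nat_lit 168) .nil)))))))) (.g (nat_lit 1) (.e (nat_lit 224072) (nat_lit 0) .nil) .nil))) 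
(.lf (nat_lit 521021) (.g (nat_lit 3541) (.e (nat_lit 204837) (nat_lit 20) (.e (nat_lit 114698) (nat_lit 11) (.e (nat_lit 426133) (nat_lit 3) (.e (nat_lit 204861) (nat_lit 26) (.e (nat_lit 336076) (nat_lit 9) (.e (nat_lit 336325) (nat_lit 18) .nil)))))) (.g (nat_lit 1) (.e (nat_lit 224804) (nat_lit 0) .nil) .nil))))) (.nd (nat_lit 8) (.nd (nat_lit 9) 
(.lf (nat_lit 520381) (.g (nat_lit 2791) (.e (nat_lit 204830) (nat_lit 18) (.e (nat_lit 57692) (nat_lit 156) (.e (nat_lit 163907) (nat_lit 12) (.e (nat_lit 426478) (nat_lit 27) (.e (nat_lit 336443) (nat_lit 32) (.e (nat_lit 466979) (nat_lit 23) .nil)))))) (.g (nat_lit 1) (.e (nat_lit 223914) (nat_lit 0) .nil) .nil))) 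
(.lf (nat_lit 520893) (.g (nat_lit 877) (.e (nat_lit 204836) (nat_lit 20) (.e (nat_lit 114697) (nat_lit 11) (.e (nat_lit 426122) (nat_lit 2) (.e (nat_lit 196674) (nat_lit 15) (.e (nat_lit 89856) (nat_lit 3) .nil))))) (.g (nat_lit 0) (.e (nat_lit 224587) (nat_lit 0) .nil) .nil)))) (.nd (nat_lit 9) 
(.lf (nat_lit 520637) (.g (nat_lit 3849) (.e (nat_lit 204831) (nat_lit 18) (.e (nat_lit 57687) (nat_lit 156) (.e (nat_lit 163903) (nat_lit 12) (.e (nat_lit 426568) (nat_lit 34) (.e (nat_lit 393271) (nat_lit 23) (.e (nat_lit 426131) (nat_lit 3) .nil)))))) (.g (nat_lit 1) (.e (nat_lit 224220) (nat_lit 0) .nil) .nil))) 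
(.lf (nat_lit 521149) (.g (nat_lit 4107) (.e (nat_lit 204837) (nat_lit 20) (.e (nat_lit 114718) (nat_lit 23) (.e (nat_lit 98356) (nat_lit 26) (.e (nat_lit 426436) (nat_lit 18) (.e (nat_lit 98335) (nat_lit 18) (.e (nat_lit 164305) (nat_lit 226) (.e (nat_lit 2433) (nat_lit 157) (.e (nat_lit 2685) (nat_lit 168) .nil)))))))) (.g (nat_lit 1) (.e (nat_lit 224992) (nat_lit 0) .nil) .nil)))))) 
(.nd (nat_lit 7) (.nd (nat_lit 8) (.nd (nat_lit 9) 
(.lf (nat_lit 520317) (.g (nat_lit 3306) (.e (nat_lit 204829) (nat_lit 18) (.e (nat_lit 57931) (nat_lit 282) (.e (nat_lit 163867) (nat_lit 2) (.e (nat_lit 196670) (nat_lit 14) (.e (nat_lit 73746) (nat_lit 3) (.e (nat_lit 516124) (nat_lit 2) (.e (nat_lit 213013) (nat_lit 9) (.e (nat_lit 2681) (nat_lit 168) .nil)))))))) (.g (nat_lit 1) (.e (nat_lit 223813) (nat_lit 0) .nil) .nil))) 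
(.lf (nat_lit 520829) (.g (nat_lit 2824) (.e (nat_lit 204831) (nat_lit 18) (.e (nat_lit 57931) (nat_lit 282) (.e (nat_lit 163869) (nat_lit 2) (.e (nat_lit 196668) (nat_lit 14) (.e (nat_lit 73747) (nat_lit 3) (.e (nat_lit 516129) (nat_lit 3) (.e (nat_lit 221213) (nat_lit 23) .nil))))))) (.g (nat_lit 1) (.e (nat_lit 224493) (nat_lit 0) .nil) .nil)))) (.nd (nat_lit 9) 
(.lf (nat_lit 520573) (.g (nat_lit 4019) (.e (nat_lit 204830) (nat_lit 18) (.e (nat_lit 57927) (nat_lit 282) (.e (nat_lit 163869) (nat_lit 2) (.e (nat_lit 196670) (nat_lit 14) (.e (nat_lit 73746) (nat_lit 3) (.e (nat_lit 516129) (nat_lit 3) (.e (nat_lit 221213) (nat_lit 23) .nil))))))) (.g (nat_lit 1) (.e (nat_lit 224144) (nat_lit 0) .nil) .nil))) 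
(.lf (nat_lit 521085) (.g (nat_lit 3131) (.e (nat_lit 204837) (nat_lit 20) (.e (nat_lit 114714) (nat_lit 22) (.e (nat_lit 90172) (nat_lit 14) (.e (nat_lit 180244) (nat_lit 5) (.e (nat_lit 532501) (nat_lit 1) (.e (nat_lit 57651) (nat_lit 152) (.e (nat_lit 2399) (nat_lit 157) (.e (nat_lit 2685) (nat_lit 168) .nil)))))))) (.g (nat_lit 1) (.e (nat_lit 224907) (nat_lit 0) .nil) .nil))))) 
(.nd (nat_lit 8) (.nd (nat_lit 9) 
(.lf (nat_lit 520445) (.g (nat_lit 1997) (.e (nat_lit 204830) (nat_lit 18) (.e (nat_lit 57854) (nat_lit 252) (.e (nat_lit 57447) (nat_lit 19) (.e (nat_lit 393221) (nat_lit 0) (.e (nat_lit 6241) (nat_lit 336) .nil))))) (.g (nat_lit 0) (.e (nat_lit 223992) (nat_lit 0) .nil) .nil))) 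
(.lf (nat_lit 520957) (.g (nat_lit 1132) (.e (nat_lit 204837) (nat_lit 20) (.e (nat_lit 114696) (nat_lit 11) (.e (nat_lit 426129) (nat_lit 3) (.e (nat_lit 204867) (nat_lit 28) (.e (nat_lit 360192) (nat_lit 3) .nil))))) (.g (nat_lit 1) (.e (nat_lit 224667) (nat_lit 0) .nil) .nil)))) (.nd (nat_lit 9) 
(.lf (nat_lit 520701) (.g (nat_lit 3494) (.e (nat_lit 204831) (nat_lit 18) (.e (nat_lit 57847) (nat_lit 252) (.e (nat_lit 57406) (nat_lit 12) (.e (nat_lit 336454) (nat_lit 34) (.e (nat_lit 483380) (nat_lit 23) .nil))))) (.g (nat_lit 0) (.e (nat_lit 224319) (nat_lit 0) .nil) .nil))) 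
(.lf (nat_lit 521213) (.g (nat_lit 1881) (.e (nat_lit 204837) (nat_lit 20) (.e (nat_lit 114719) (nat_lit 23) (.e (nat_lit 98367) (nat_lit 27) (.e (nat_lit 434232) (nat_lit 23) (.e (nat_lit 532504) (nat_lit 1) .nil))))) (.g (nat_lit 0) (.e (nat_lit 225077) (nat_lit 0) .nil) .nil))))))))))) 
(.nd (nat_lit 2) (.nd (nat_lit 3) (.nd (nat_lit 4) (.nd (nat_lit 5) (.nd (nat_lit 6) 
(.nd (nat_lit 7) (.nd (nat_lit 8) (.nd (nat_lit 9) 
(.lf (nat_lit 520195) (.g (nat_lit 2528) (.e (nat_lit 204829) (nat_lit 18) (.e (nat_lit 57927) (nat_lit 282) (.e (nat_lit 163868) (nat_lit 2) (.e (nat_lit 196670) (nat_lit 14) (.e (nat_lit 73746) (nat_lit 3) (.e (nat_lit 516127) (nat_lit 2) (.e (nat_lit 213019) (nat_lit 9) (.e (nat_lit 2675) (nat_lit 168) .nil)))))))) (.g (nat_lit 1) (.e (nat_lit 223661) (nat_lit 0) .nil) .nil))) 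
(.lf (nat_lit 520707) (.g (nat_lit 2352) (.e (nat_lit 204831) (nat_lit 18) (.e (nat_lit 57847) (nat_lit 252) (.e (nat_lit 57407) (nat_lit 12) (.e (nat_lit 336456) (nat_lit 34) (.e (nat_lit 483384) (nat_lit 23) .nil))))) (.g (nat_lit 0) (.e (nat_lit 224325) (nat_lit 0) .nil) .nil)))) (.nd (nat_lit 9) 
(.lf (nat_lit 520451) (.g (nat_lit 3641) (.e (nat_lit 204830) (nat_lit 18) (.e (nat_lit 57924) (nat_lit 282) (.e (nat_lit 163867) (nat_lit 2) (.e (nat_lit 196670) (nat_lit 14) (.e (nat_lit 73746) (nat_lit 3) (.e (nat_lit 516129) (nat_lit 3) (.e (nat_lit 221213) (nat_lit 23) .nil))))))) (.g (nat_lit 1) (.e (nat_lit 223999) (nat_lit 0) .nil) .nil))) 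
(.lf (nat_lit 520963) (.g (nat_lit 1377) (.e (nat_lit 204837) (nat_lit 20) (.e (nat_lit 114697) (nat_lit 11) (.e (nat_lit 426122) (nat_lit 2) (.e (nat_lit 196674) (nat_lit 15) (.e (nat_lit 89856) (nat_lit 3) .nil))))) (.g (nat_lit 1) (.e (nat_lit 224684) (nat_lit 0) .nil) .nil))))) (.nd (nat_lit 8) (.nd (nat_lit 9) 
(.lf (nat_lit 520323) (.g (nat_lit 2064) (.e (nat_lit 204829) (nat_lit 18) (.e (nat_lit 57931) (nat_lit 282) (.e (nat_lit 163869) (nat_lit 2) (.e (nat_lit 196663) (nat_lit 13) .nil)))) (.g (nat_lit 0) (.e (nat_lit 223819) (nat_lit 0) .nil) .nil))) 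
(.lf (nat_lit 520835) (.g (nat_lit 3256) (.e (nat_lit 204831) (nat_lit 18) (.e (nat_lit 57931) (nat_lit 282) (.e (nat_lit 163869) (nat_lit 2) (.e (nat_lit 196670) (nat_lit 14) (.e (nat_lit 73746) (nat_lit 3) (.e (nat_lit 516124) (nat_lit 2) (.e (nat_lit 213022) (nat_lit 9) (.e (nat_lit 2683) (nat_lit 168) .nil)))))))) (.g (nat_lit 1) (.e (nat_lit 224499) (nat_lit 0) .nil) .nil)))) 
(.nd (nat_lit 9) 
(.lf (nat_lit 520579) (.g (nat_lit 4113) (.e (nat_lit 204830) (nat_lit 18) (.e (nat_lit 57927) (nat_lit 282) (.e (nat_lit 163870) (nat_lit 2) (.e (nat_lit 196666) (nat_lit 13) (.e (nat_lit 65571) (nat_lit 3) (.e (nat_lit 98342) (nat_lit 20) (.e (nat_lit 221213) (nat_lit 23) .nil))))))) (.g (nat_lit 1) (.e (nat_lit 224152) (nat_lit 0) .nil) .nil))) 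
(.lf (nat_lit 521091) (.g (nat_lit 2506) (.e (nat_lit 204837) (nat_lit 20) (.e (nat_lit 114714) (nat_lit 22) (.e (nat_lit 90172) (nat_lit 14) (.e (nat_lit 180244) (nat_lit 5) (.e (nat_lit 532503) (nat_lit 1) (.e (nat_lit 57687) (nat_lit 156) (.e (nat_lit 163872) (nat_lit 3) .nil))))))) (.g (nat_lit 1) (.e (nat_lit 224913) (nat_lit 0) .nil) .nil)))))) 
(.nd (nat_lit 7) (.nd (nat_lit 8) (.nd (nat_lit 9) 
(.lf (nat_lit 520259) (.g (nat_lit 2943) (.e (nat_lit 204829) (nat_lit 18) (.e (nat_lit 57927) (nat_lit 282) (.e (nat_lit 163871) (nat_lit 2) (.e (nat_lit 196668) (nat_lit 14) (.e (nat_lit 73746) (nat_lit 3) (.e (nat_lit 516129) (nat_lit 3) (.e (nat_lit 221213) (nat_lit 23) .nil))))))) (.g (nat_lit 1) (.e (nat_lit 223748) (nat_lit 0) .nil) .nil))) 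
(.lf (nat_lit 520771) (.g (nat_lit 2769) (.e (nat_lit 204831) (nat_lit 18) (.e (nat_lit 57854) (nat_lit 252) (.e (nat_lit 57344) (nat_lit 0) (.e (nat_lit 1858) (nat_lit 124) (.e (nat_lit 557105) (nat_lit 14) .nil))))) (.g (nat_lit 0) (.e (nat_lit 224399) (nat_lit 0) .nil) .nil)))) (.nd (nat_lit 9) 
(.lf (nat_lit 520515) (.g (nat_lit 3989) (.e (nat_lit 204830) (nat_lit 18) (.e (nat_lit 57926) (nat_lit 282) (.e (nat_lit 163870) (nat_lit 2) (.e (nat_lit 196666) (nat_lit 13) (.e (nat_lit 65571) (nat_lit 3) (.e (nat_lit 98341) (nat_lit 20) (.e (nat_lit 221213) (nat_lit 23) .nil))))))) (.g (nat_lit 1) (.e (nat_lit 224079) (nat_lit 0) .nil) .nil))) 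
(.lf (nat_lit 521027) (.g (nat_lit 1956) (.e (nat_lit 204837) (nat_lit 20) (.e (nat_lit 114698) (nat_lit 11) (.e (nat_lit 426133) (nat_lit 3) (.e (nat_lit 204877) (nat_lit 31) .nil)))) (.g (nat_lit 0) (.e (nat_lit 224810) (nat_lit 0) .nil) .nil))))) (.nd (nat_lit 8) (.nd (nat_lit 9) 
(.lf (nat_lit 520387) (.g (nat_lit 2498) (.e (nat_lit 204830) (nat_lit 18) (.e (nat_lit 57844) (nat_lit 252) (.e (nat_lit 57406) (nat_lit 12) (.e (nat_lit 336454) (nat_lit 34) (.e (nat_lit 483383) (nat_lit 23) .nil))))) (.g (nat_lit 0) (.e (nat_lit 223925) (nat_lit 0) .nil) .nil))) 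
(.lf (nat_lit 520899) (.g (nat_lit 525) (.e (nat_lit 204836) (nat_lit 20) (.e (nat_lit 114697) (nat_lit 11) (.e (nat_lit 426138) (nat_lit 3) (.e (nat_lit 204865) (nat_lit 28) .nil)))) (.g (nat_lit 0) (.e (nat_lit 224593) (nat_lit 0) .nil) .nil)))) (.nd (nat_lit 9) 
(.lf (nat_lit 520643) (.g (nat_lit 377) (.e (nat_lit 204831) (nat_lit 18) (.e (nat_lit 57688) (nat_lit 156) (.e (nat_lit 163902) (nat_lit 12) .nil))) (.g (nat_lit 0) (.e (nat_lit 224232) (nat_lit 0) .nil) .nil))) 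
(.lf (nat_lit 521155) (.g (nat_lit 1986) (.e (nat_lit 204837) (nat_lit 20) (.e (nat_lit 114718) (nat_lit 23) (.e (nat_lit 98365) (nat_lit 26) (.e (nat_lit 426124) (nat_lit 2) (.e (nat_lit 196677) (nat_lit 16) .nil))))) (.g (nat_lit 0) (.e (nat_lit 224999) (nat_lit 0) .nil) .nil))))))) (.nd (nat_lit 6) (.nd (nat_lit 7) (.nd (nat_lit 8) (.nd (nat_lit 9) 
(.lf (nat_lit 520227) (.g (nat_lit 3457) (.e (nat_lit 204829) (nat_lit 18) (.e (nat_lit 57927) (nat_lit 282) (.e (nat_lit 163869) (nat_lit 2) (.e (nat_lit 196670) (nat_lit 14) (.e (nat_lit 73746) (nat_lit 3) (.e (nat_lit 516124) (nat_lit 2) (.e (nat_lit 213019) (nat_lit 9) (.e (nat_lit 2684) (nat_lit 168) .nil)))))))) (.g (nat_lit 1) (.e (nat_lit 223710) (nat_lit 0) .nil) .nil))) 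
(.lf (nat_lit 520739) (.g (nat_lit 2440) (.e (nat_lit 204831) (nat_lit 18) (.e (nat_lit 57849) (nat_lit 252) (.e (nat_lit 57407) (nat_lit 12) (.e (nat_lit 336456) (nat_lit 34) (.e (nat_lit 483384) (nat_lit 23) .nil))))) (.g (nat_lit 0) (.e (nat_lit 224363) (nat_lit 0) .nil) .nil)))) (.nd (nat_lit 9) 
(.lf (nat_lit 520483) (.g (nat_lit 3037) (.e (nat_lit 204830) (nat_lit 18) (.e (nat_lit 57926) (nat_lit 282) (.e (nat_lit 163869) (nat_lit 2) (.e (nat_lit 196668) (nat_lit 14) (.e (nat_lit 73746) (nat_lit 3) (.e (nat_lit 516131) (nat_lit 3) (.e (nat_lit 221214) (nat_lit 23) .nil))))))) (.g (nat_lit 1) (.e (nat_lit 224041) (nat_lit 0) .nil) .nil))) 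
(.lf (nat_lit 520995) (.g (nat_lit 2031) (.e (nat_lit 204837) (nat_lit 20) (.e (nat_lit 114697) (nat_lit 11) (.e (nat_lit 426139) (nat_lit 3) (.e (nat_lit 204852) (nat_lit 26) (.e (nat_lit 343808) (nat_lit 9) (.e (nat_lit 336324) (nat_lit 18) .nil)))))) (.g (nat_lit 1) (.e (nat_lit 224728) (nat_lit 0) .nil) .nil))))) (.nd (nat_lit 8) (.nd (nat_lit 9) 
(.lf (nat_lit 520355) (.g (nat_lit 1994) (.e (nat_lit 204830) (nat_lit 18) (.e (nat_lit 57689) (nat_lit 156) (.e (nat_lit 163907) (nat_lit 12) (.e (nat_lit 426566) (nat_lit 34) (.e (nat_lit 393272) (nat_lit 23) .nil))))) (.g (nat_lit 0) (.e (nat_lit 223868) (nat_lit 0) .nil) .nil))) 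
(.lf (nat_lit 520867) (.g (nat_lit 1630) (.e (nat_lit 204834) (nat_lit 19) (.e (nat_lit 106534) (nat_lit 11) (.e (nat_lit 16416) (nat_lit 3) (.e (nat_lit 204866) (nat_lit 28) (.e (nat_lit 360192) (nat_lit 3) .nil))))) (.g (nat_lit 0) (.e (nat_lit 224550) (nat_lit 0) .nil) .nil)))) (.nd (nat_lit 9) 
(.lf (nat_lit 520611) (.g (nat_lit 2084) (.e (nat_lit 204830) (nat_lit 18) (.e (nat_lit 57931) (nat_lit 282) (.e (nat_lit 163869) (nat_lit 2) (.e (nat_lit 196663) (nat_lit 13) .nil)))) (.g (nat_lit 0) (.e (nat_lit 224188) (nat_lit 0) .nil) .nil))) 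
(.lf (nat_lit 521123) (.g (nat_lit 4498) (.e (nat_lit 204837) (nat_lit 20) (.e (nat_lit 114715) (nat_lit 22) (.e (nat_lit 90170) (nat_lit 13) (.e (nat_lit 172065) (nat_lit 3) (.e (nat_lit 204829) (nat_lit 18) (.e (nat_lit 57688) (nat_lit 156) (.e (nat_lit 163875) (nat_lit 3) .nil))))))) (.g (nat_lit 1) (.e (nat_lit 224952) (nat_lit 0) .nil) .nil)))))) 
(.nd (nat_lit 7) (.nd (nat_lit 8) (.nd (nat_lit 9) 
(.lf (nat_lit 520291) (.g (nat_lit 4943) (.e (nat_lit 204829) (nat_lit 18) (.e (nat_lit 57927) (nat_lit 282) (.e (nat_lit 163875) (nat_lit 3) (.e (nat_lit 204862) (nat_lit 27) (.e (nat_lit 344117) (nat_lit 21) (.e (nat_lit 516099) (nat_lit 0) (.e (nat_lit 3771) (nat_lit 229) (.e (nat_lit 794673) (nat_lit 23) .nil)))))))) (.g (nat_lit 1) (.e (nat_lit 223783) (nat_lit 0) .nil) .nil))) 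
(.lf (nat_lit 520803) (.g (nat_lit 2382) (.e (nat_lit 204831) (nat_lit 18) (.e (nat_lit 57931) (nat_lit 282) (.e (nat_lit 163867) (nat_lit 2) (.e (nat_lit 196668) (nat_lit 14) (.e (nat_lit 73746) (nat_lit 3) .nil))))) (.g (nat_lit 0) (.e (nat_lit 224451) (nat_lit 0) .nil) .nil)))) (.nd (nat_lit 9) 
(.lf (nat_lit 520547) (.g (nat_lit 4309) (.e (nat_lit 204830) (nat_lit 18) (.e (nat_lit 57926) (nat_lit 282) (.e (nat_lit 163875) (nat_lit 3) (.e (nat_lit 204863) (nat_lit 27) (.e (nat_lit 344117) (nat_lit 21) (.e (nat_lit 516130) (nat_lit 3) (.e (nat_lit 221213) (nat_lit 23) .nil))))))) (.g (nat_lit 1) (.e (nat_lit 224114) (nat_lit 0) .nil) .nil))) 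
(.lf (nat_lit 521059) (.g (nat_lit 2197) (.e (nat_lit 204837) (nat_lit 20) (.e (nat_lit 114698) (nat_lit 11) (.e (nat_lit 426139) (nat_lit 3) (.e (nat_lit 204865) (nat_lit 28) (.e (nat_lit 360192) (nat_lit 3) .nil))))) (.g (nat_lit 1) (.e (nat_lit 224848) (nat_lit 0) .nil) .nil))))) (.nd (nat_lit 8) (.nd (nat_lit 9) 
(.lf (nat_lit 520419) (.g (nat_lit 1291) (.e (nat_lit 204830) (nat_lit 18) (.e (nat_lit 57854) (nat_lit 252) (.e (nat_lit 57406) (nat_lit 12) (.e (nat_lit 336452) (nat_lit 34) .nil)))) (.g (nat_lit 0) (.e (nat_lit 223964) (nat_lit 0) .nil) .nil))) 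
(.lf (nat_lit 520931) (.g (nat_lit 803) (.e (nat_lit 204836) (nat_lit 20) (.e (nat_lit 114719) (nat_lit 23) (.e (nat_lit 98366) (nat_lit 27) .nil))) (.g (nat_lit 0) (.e (nat_lit 224636) (nat_lit 0) .nil) .nil)))) (.nd (nat_lit 9) 
(.lf (nat_lit 520675) (.g (nat_lit 1354) (.e (nat_lit 204831) (nat_lit 18) (.e (nat_lit 57844) (nat_lit 252) (.e (nat_lit 57406) (nat_lit 12) (.e (nat_lit 336455) (nat_lit 34) .nil)))) (.g (nat_lit 0) (.e (nat_lit 224293) (nat_lit 0) .nil) .nil))) 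
(.lf (nat_lit 521187) (.g (nat_lit 3301) (.e (nat_lit 204837) (nat_lit 20) (.e (nat_lit 114719) (nat_lit 23) (.e (nat_lit 98356) (nat_lit 26) (.e (nat_lit 426438) (nat_lit 18) (.e (nat_lit 98335) (nat_lit 18) (.e (nat_lit 164305) (nat_lit 226) (.e (nat_lit 2433) (nat_lit 157) (.e (nat_lit 2685) (nat_lit 168) .nil)))))))) (.g (nat_lit 1) (.e (nat_lit 225044) (nat_lit 0) .nil) .nil)))))))) 
(.nd (nat_lit 5) (.nd (nat_lit 6) (.nd (nat_lit 7) (.nd (nat_lit 8) (.nd (nat_lit 9) 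
(.lf (nat_lit 520211) (.g (nat_lit 2787) (.e (nat_lit 204829) (nat_lit 18) (.e (nat_lit 57927) (nat_lit 282) (.e (nat_lit 163869) (nat_lit 2) (.e (nat_lit 196670) (nat_lit 14) (.e (nat_lit 73746) (nat_lit 3) (.e (nat_lit 516124) (nat_lit 2) (.e (nat_lit 213000) (nat_lit 9) (.e (nat_lit 2683) (nat_lit 168) .nil)))))))) (.g (nat_lit 1) (.e (nat_lit 223694) (nat_lit 0) .nil) .nil))) 
(.lf (nat_lit 520723) (.g (nat_lit 1245) (.e (nat_lit 204831) (nat_lit 18) (.e (nat_lit 57847) (nat_lit 252) (.e (nat_lit 57448) (nat_lit 19) (.e (nat_lit 393234) (nat_lit 17) .nil)))) (.g (nat_lit 0) (.e (nat_lit 224342) (nat_lit 0) .nil) .nil)))) (.nd (nat_lit 9) 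
(.lf (nat_lit 520467) (.g (nat_lit 3188) (.e (nat_lit 204830) (nat_lit 18) (.e (nat_lit 57926) (nat_lit 282) (.e (nat_lit 163867) (nat_lit 2) (.e (nat_lit 196670) (nat_lit 14) (.e (nat_lit 73746) (nat_lit 3) (.e (nat_lit 516131) (nat_lit 3) (.e (nat_lit 221213) (nat_lit 23) .nil))))))) (.g (nat_lit 1) (.e (nat_lit 224020) (nat_lit 0) .nil) .nil))) 
(.lf (nat_lit 520979) (.g (nat_lit 1807) (.e (nat_lit 204837) (nat_lit 20) (.e (nat_lit 114697) (nat_lit 11) (.e (nat_lit 426137) (nat_lit 3) (.e (nat_lit 204861) (nat_lit 26) (.e (nat_lit 336075) (nat_lit 9) (.e (nat_lit 336326) (nat_lit 18) .nil)))))) (.g (nat_lit 1) (.e (nat_lit 224709) (nat_lit 0) .nil) .nil))))) (.nd (nat_lit 8) (.nd (nat_lit 9) 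
(.lf (nat_lit 520339) (.g (nat_lit 4962) (.e (nat_lit 204829) (nat_lit 18) (.e (nat_lit 57931) (nat_lit 282) (.e (nat_lit 163869) (nat_lit 2) (.e (nat_lit 196670) (nat_lit 14) (.e (nat_lit 73746) (nat_lit 3) (.e (nat_lit 516129) (nat_lit 3) (.e (nat_lit 221213) (nat_lit 23) .nil))))))) (.g (nat_lit 1) (.e (nat_lit 223840) (nat_lit 0) .nil) .nil))) 
(.lf (nat_lit 520851) (.g (nat_lit 4048) (.e (nat_lit 204831) (nat_lit 18) (.e (nat_lit 57931) (nat_lit 282) (.e (nat_lit 163874) (nat_lit 3) (.e (nat_lit 204862) (nat_lit 27) (.e (nat_lit 344117) (nat_lit 21) (.e (nat_lit 516123) (nat_lit 2) (.e (nat_lit 213013) (nat_lit 9) (.e (nat_lit 2684) (nat_lit 168) .nil)))))))) (.g (nat_lit 1) (.e (nat_lit 224518) (nat_lit 0) .nil) .nil)))) 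
(.nd (nat_lit 9) 
(.lf (nat_lit 520595) (.g (nat_lit 2542) (.e (nat_lit 204830) (nat_lit 18) (.e (nat_lit 57928) (nat_lit 282) (.e (nat_lit 163868) (nat_lit 2) (.e (nat_lit 196668) (nat_lit 14) (.e (nat_lit 73746) (nat_lit 3) (.e (nat_lit 516124) (nat_lit 2) (.e (nat_lit 213013) (nat_lit 9) (.e (nat_lit 2684) (nat_lit 168) .nil)))))))) (.g (nat_lit 1) (.e (nat_lit 224171) (nat_lit 0) .nil) .nil))) 
(.lf (nat_lit 521107) (.g (nat_lit 3291) (.e (nat_lit 204837) (nat_lit 20) (.e (nat_lit 114714) (nat_lit 22) (.e (nat_lit 90174) (nat_lit 14) (.e (nat_lit 180243) (nat_lit 5) (.e (nat_lit 532503) (nat_lit 1) (.e (nat_lit 57651) (nat_lit 152) (.e (nat_lit 2399) (nat_lit 157) (.e (nat_lit 2685) (nat_lit 168) .nil)))))))) (.g (nat_lit 1) (.e (nat_lit 224932) (nat_lit 0) .nil) .nil)))))) 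
(.nd (nat_lit 7) (.nd (nat_lit 8) (.nd (nat_lit 9) 
(.lf (nat_lit 520275) (.g (nat_lit 2433) (.e (nat_lit 204829) (nat_lit 18) (.e (nat_lit 57927) (nat_lit 282) (.e (nat_lit 163871) (nat_lit 2) (.e (nat_lit 196670) (nat_lit 14) (.e (nat_lit 73746) (nat_lit 3) (.e (nat_lit 516127) (nat_lit 2) (.e (nat_lit 213019) (nat_lit 9) (.e (nat_lit 2683) (nat_lit 168) .nil)))))))) (.g (nat_lit 1) (.e (nat_lit 223764) (nat_lit 0) .nil) .nil))) 
(.lf (nat_lit 520787) (.g (nat_lit 2114) (.e (nat_lit 204831) (nat_lit 18) (.e (nat_lit 57854) (nat_lit 252) (.e (nat_lit 57409) (nat_lit 12) (.e (nat_lit 336375) (nat_lit 27) .nil)))) (.g (nat_lit 0) (.e (nat_lit 224432) (nat_lit 0) .nil) .nil)))) (.nd (nat_lit 9) 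
(.lf (nat_lit 520531) (.g (nat_lit 2590) (.e (nat_lit 204830) (nat_lit 18) (.e (nat_lit 57926) (nat_lit 282) (.e (nat_lit 163871) (nat_lit 2) (.e (nat_lit 196670) (nat_lit 14) (.e (nat_lit 73746) (nat_lit 3) (.e (nat_lit 516127) (nat_lit 2) (.e (nat_lit 213019) (nat_lit 9) (.e (nat_lit 2675) (nat_lit 168) .nil)))))))) (.g (nat_lit 1) (.e (nat_lit 224096) (nat_lit 0) .nil) .nil))) 
(.lf (nat_lit 521043) (.g (nat_lit 3272) (.e (nat_lit 204837) (nat_lit 20) (.e (nat_lit 114698) (nat_lit 11) (.e (nat_lit 426138) (nat_lit 3) (.e (nat_lit 204861) (nat_lit 26) (.e (nat_lit 336076) (nat_lit 9) (.e (nat_lit 336326) (nat_lit 18) .nil)))))) (.g (nat_lit 1) (.e (nat_lit 224831) (nat_lit 0) .nil) .nil))))) (.nd (nat_lit 8) (.nd (nat_lit 9) 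
(.lf (nat_lit 520403) (.g (nat_lit 2764) (.e (nat_lit 204830) (nat_lit 18) (.e (nat_lit 57852) (nat_lit 252) (.e (nat_lit 57406) (nat_lit 12) (.e (nat_lit 336456) (nat_lit 34) (.e (nat_lit 483381) (nat_lit 23) .nil))))) (.g (nat_lit 0) (.e (nat_lit 223942) (nat_lit 0) .nil) .nil))) 
(.lf (nat_lit 520915) (.g (nat_lit 2452) (.e (nat_lit 204836) (nat_lit 20) (.e (nat_lit 114714) (nat_lit 22) (.e (nat_lit 90170) (nat_lit 13) (.e (nat_lit 172067) (nat_lit 3) (.e (nat_lit 204830) (nat_lit 18) .nil))))) (.g (nat_lit 0) (.e (nat_lit 224613) (nat_lit 0) .nil) .nil)))) (.nd (nat_lit 9) 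
(.lf (nat_lit 520659) (.g (nat_lit 2597) (.e (nat_lit 204831) (nat_lit 18) (.e (nat_lit 57688) (nat_lit 156) (.e (nat_lit 163907) (nat_lit 12) (.e (nat_lit 426568) (nat_lit 34) (.e (nat_lit 393277) (nat_lit 23) .nil))))) (.g (nat_lit 0) (.e (nat_lit 224251) (nat_lit 0) .nil) .nil))) 
(.lf (nat_lit 521171) (.g (nat_lit 3227) (.e (nat_lit 204837) (nat_lit 20) (.e (nat_lit 114718) (nat_lit 23) (.e (nat_lit 98384) (nat_lit 32) (.e (nat_lit 475177) (nat_lit 24) (.e (nat_lit 516117) (nat_lit 1) (.e (nat_lit 164332) (nat_lit 230) (.e (nat_lit 163874) (nat_lit 3) .nil))))))) (.g (nat_lit 1) (.e (nat_lit 225018) (nat_lit 0) .nil) .nil))))))) 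
(.nd (nat_lit 6) (.nd (nat_lit 7) (.nd (nat_lit 8) (.nd (nat_lit 9) 
(.lf (nat_lit 520243) (.g (nat_lit 2351) (.e (nat_lit 204829) (nat_lit 18) (.e (nat_lit 57927) (nat_lit 282) (.e (nat_lit 163869) (nat_lit 2) (.e (nat_lit 196670) (nat_lit 14) (.e (nat_lit 73746) (nat_lit 3) (.e (nat_lit 516127) (nat_lit 2) (.e (nat_lit 213013) (nat_lit 9) (.e (nat_lit 2684) (nat_lit 168) .nil)))))))) (.g (nat_lit 1) (.e (nat_lit 223726) (nat_lit 0) .nil) .nil))) 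
(.lf (nat_lit 520755) (.g (nat_lit 3439) (.e (nat_lit 204831) (nat_lit 18) (.e (nat_lit 57851) (nat_lit 252) (.e (nat_lit 57406) (nat_lit 12) (.e (nat_lit 336454) (nat_lit 34) (.e (nat_lit 483385) (nat_lit 23) (.e (nat_lit 336324) (nat_lit 18) .nil)))))) (.g (nat_lit 1) (.e (nat_lit 224381) (nat_lit 0) .nil) .nil)))) (.nd (nat_lit 9) 
(.lf (nat_lit 520499) (.g (nat_lit 2841) (.e (nat_lit 204830) (nat_lit 18) (.e (nat_lit 57926) (nat_lit 282) (.e (nat_lit 163869) (nat_lit 2) (.e (nat_lit 196670) (nat_lit 14) (.e (nat_lit 73746) (nat_lit 3) (.e (nat_lit 516124) (nat_lit 2) (.e (nat_lit 220928) (nat_lit 9) (.e (nat_lit 2679) (nat_lit 168) .nil)))))))) (.g (nat_lit 1) (.e (nat_lit 224062) (nat_lit 0) .nil) .nil))) 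
(.lf (nat_lit 521011) (.g (nat_lit 1814) (.e (nat_lit 204837) (nat_lit 20) (.e (nat_lit 114698) (nat_lit 11) (.e (nat_lit 426122) (nat_lit 2) (.e (nat_lit 196674) (nat_lit 15) (.e (nat_lit 89856) (nat_lit 3) .nil))))) (.g (nat_lit 1) (.e (nat_lit 224765) (nat_lit 0) .nil) .nil))))) (.nd (nat_lit 8) (.nd (nat_lit 9) 
(.lf (nat_lit 520371) (.g (nat_lit 2743) (.e (nat_lit 204830) (nat_lit 18) (.e (nat_lit 57691) (nat_lit 156) (.e (nat_lit 163907) (nat_lit 12) (.e (nat_lit 426568) (nat_lit 34) (.e (nat_lit 393274) (nat_lit 23) (.e (nat_lit 426132) (nat_lit 3) .nil)))))) (.g (nat_lit 1) (.e (nat_lit 223895) (nat_lit 0) .nil) .nil))) 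
(.lf (nat_lit 520883) (.g (nat_lit 1681) (.e (nat_lit 204835) (nat_lit 19) (.e (nat_lit 106536) (nat_lit 11) (.e (nat_lit 16413) (nat_lit 2) (.e (nat_lit 196668) (nat_lit 14) (.e (nat_lit 81664) (nat_lit 40) .nil))))) (.g (nat_lit 0) (.e (nat_lit 224577) (nat_lit 0) .nil) .nil)))) (.nd (nat_lit 9) 
(.lf (nat_lit 520627) (.g (nat_lit 2364) (.e (nat_lit 204830) (nat_lit 18) (.e (nat_lit 57931) (nat_lit 282) (.e (nat_lit 163873) (nat_lit 3) (.e (nat_lit 204851) (nat_lit 26) (.e (nat_lit 336019) (nat_lit 3) .nil))))) (.g (nat_lit 0) (.e (nat_lit 224207) (nat_lit 0) .nil) .nil))) 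
(.lf (nat_lit 521139) (.g (nat_lit 2377) (.e (nat_lit 204837) (nat_lit 20) (.e (nat_lit 114716) (nat_lit 22) (.e (nat_lit 90174) (nat_lit 14) (.e (nat_lit 180243) (nat_lit 5) (.e (nat_lit 532503) (nat_lit 1) (.e (nat_lit 57651) (nat_lit 152) (.e (nat_lit 2399) (nat_lit 157) (.e (nat_lit 2685) (nat_lit 168) .nil)))))))) (.g (nat_lit 1) (.e (nat_lit 224971) (nat_lit 0) .nil) .nil)))))) 
(.nd (nat_lit 7) (.nd (nat_lit 8) (.nd (nat_lit 9) 
(.lf (nat_lit 520307) (.g (nat_lit 2629) (.e (nat_lit 204829) (nat_lit 18) (.e (nat_lit 57931) (nat_lit 282) (.e (nat_lit 163866) (nat_lit 2) (.e (nat_lit 196666) (nat_lit 13) (.e (nat_lit 65569) (nat_lit 3) .nil))))) (.g (nat_lit 0) (.e (nat_lit 223799) (nat_lit 0) .nil) .nil))) 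
(.lf (nat_lit 520819) (.g (nat_lit 2875) (.e (nat_lit 204831) (nat_lit 18) (.e (nat_lit 57931) (nat_lit 282) (.e (nat_lit 163867) (nat_lit 2) (.e (nat_lit 196670) (nat_lit 14) (.e (nat_lit 73746) (nat_lit 3) (.e (nat_lit 516127) (nat_lit 2) (.e (nat_lit 213019) (nat_lit 9) (.e (nat_lit 2683) (nat_lit 168) .nil)))))))) (.g (nat_lit 1) (.e (nat_lit 224473) (nat_lit 0) .nil) .nil)))) 
(.nd (nat_lit 9) 
(.lf (nat_lit 520563) (.g (nat_lit 3295) (.e (nat_lit 204830) (nat_lit 18) (.e (nat_lit 57927) (nat_lit 282) (.e (nat_lit 163868) (nat_lit 2) (.e (nat_lit 196670) (nat_lit 14) (.e (nat_lit 73746) (nat_lit 3) (.e (nat_lit 516129) (nat_lit 3) (.e (nat_lit 221213) (nat_lit 23) .nil))))))) (.g (nat_lit 1) (.e (nat_lit 224131) (nat_lit 0) .nil) .nil))) 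
(.lf (nat_lit 521075) (.g (nat_lit 3304) (.e (nat_lit 204837) (nat_lit 20) (.e (nat_lit 114714) (nat_lit 22) (.e (nat_lit 90172) (nat_lit 14) (.e (nat_lit 180243) (nat_lit 5) (.e (nat_lit 532503) (nat_lit 1) (.e (nat_lit 57653) (nat_lit 152) (.e (nat_lit 2399) (nat_lit 157) (.e (nat_lit 2685) (nat_lit 168) .nil)))))))) (.g (nat_lit 1) (.e (nat_lit 224897) (nat_lit 0) .nil) .nil))))) 
(.nd (nat_lit 8) (.nd (nat_lit 9) 
(.lf (nat_lit 520435) (.g (nat_lit 1484) (.e (nat_lit 204830) (nat_lit 18) (.e (nat_lit 57854) (nat_lit 252) (.e (nat_lit 57409) (nat_lit 12) (.e (nat_lit 336456) (nat_lit 34) (.e (nat_lit 483378) (nat_lit 23) .nil))))) (.g (nat_lit 0) (.e (nat_lit 223981) (nat_lit 0) .nil) .nil))) 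
(.lf (nat_lit 520947) (.g (nat_lit 2134) (.e (nat_lit 204837) (nat_lit 20) (.e (nat_lit 114694) (nat_lit 11) (.e (nat_lit 426124) (nat_lit 2) (.e (nat_lit 196681) (nat_lit 17) (.e (nat_lit 131105) (nat_lit 9) (.e (nat_lit 336324) (nat_lit 18) .nil)))))) (.g (nat_lit 1) (.e (nat_lit 224652) (nat_lit 0) .nil) .nil)))) (.nd (nat_lit 9) 
(.lf (nat_lit 520691) (.g (nat_lit 2294) (.e (nat_lit 204831) (nat_lit 18) (.e (nat_lit 57846) (nat_lit 252) (.e (nat_lit 57409) (nat_lit 12) (.e (nat_lit 336454) (nat_lit 34) (.e (nat_lit 483384) (nat_lit 23) .nil))))) (.g (nat_lit 0) (.e (nat_lit 224309) (nat_lit 0) .nil) .nil))) 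
(.lf (nat_lit 521203) (.g (nat_lit 651) (.e (nat_lit 204837) (nat_lit 20) (.e (nat_lit 114719) (nat_lit 23) (.e (nat_lit 98367) (nat_lit 27) .nil))) (.g (nat_lit 0) (.e (nat_lit 225067) (nat_lit 0) .nil) .nil))))))))) (.nd (nat_lit 4) (.nd (nat_lit 5) (.nd (nat_lit 6) (.nd (nat_lit 7) (.nd (nat_lit 8) (.nd (nat_lit 9) 
(.lf (nat_lit 520203) (.g (nat_lit 4149) (.e (nat_lit 204829) (nat_lit 18) (.e (nat_lit 57927) (nat_lit 282) (.e (nat_lit 163869) (nat_lit 2) (.e (nat_lit 196666) (nat_lit 13) (.e (nat_lit 65571) (nat_lit 3) (.e (nat_lit 98342) (nat_lit 20) (.e (nat_lit 221213) (nat_lit 23) .nil))))))) (.g (nat_lit 1) (.e (nat_lit 223672) (nat_lit 0) .nil) .nil))) 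
(.lf (nat_lit 520715) (.g (nat_lit 1637) (.e (nat_lit 204831) (nat_lit 18) (.e (nat_lit 57847) (nat_lit 252) (.e (nat_lit 57445) (nat_lit 19) (.e (nat_lit 393221) (nat_lit 0) .nil)))) (.g (nat_lit 0) (.e (nat_lit 224334) (nat_lit 0) .nil) .nil)))) (.nd (nat_lit 9) 
(.lf (nat_lit 520459) (.g (nat_lit 2416) (.e (nat_lit 204830) (nat_lit 18) (.e (nat_lit 57926) (nat_lit 282) (.e (nat_lit 163866) (nat_lit 2) (.e (nat_lit 196666) (nat_lit 13) (.e (nat_lit 65569) (nat_lit 3) .nil))))) (.g (nat_lit 0) (.e (nat_lit 224012) (nat_lit 0) .nil) .nil))) 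
(.lf (nat_lit 520971) (.g (nat_lit 2851) (.e (nat_lit 204837) (nat_lit 20) (.e (nat_lit 114697) (nat_lit 11) (.e (nat_lit 426133) (nat_lit 3) (.e (nat_lit 204861) (nat_lit 26) (.e (nat_lit 336076) (nat_lit 9) (.e (nat_lit 336326) (nat_lit 18) .nil)))))) (.g (nat_lit 1) (.e (nat_lit 224701) (nat_lit 0) .nil) .nil))))) (.nd (nat_lit 8) (.nd (nat_lit 9) 
(.lf (nat_lit 520331) (.g (nat_lit 4831) (.e (nat_lit 204829) (nat_lit 18) (.e (nat_lit 57931) (nat_lit 282) (.e (nat_lit 163869) (nat_lit 2) (.e (nat_lit 196668) (nat_lit 14) (.e (nat_lit 73747) (nat_lit 3) (.e (nat_lit 516131) (nat_lit 3) (.e (nat_lit 221213) (nat_lit 23) .nil))))))) (.g (nat_lit 1) (.e (nat_lit 223832) (nat_lit 0) .nil) .nil))) 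
(.lf (nat_lit 520843) (.g (nat_lit 3037) (.e (nat_lit 204831) (nat_lit 18) (.e (nat_lit 57931) (nat_lit 282) (.e (nat_lit 163869) (nat_lit 2) (.e (nat_lit 196670) (nat_lit 14) (.e (nat_lit 73746) (nat_lit 3) (.e (nat_lit 516127) (nat_lit 2) (.e (nat_lit 213022) (nat_lit 9) (.e (nat_lit 2683) (nat_lit 168) .nil)))))))) (.g (nat_lit 1) (.e (nat_lit 224507) (nat_lit 0) .nil) .nil)))) 
(.nd (nat_lit 9) 
(.lf (nat_lit 520587) (.g (nat_lit 3204) (.e (nat_lit 204830) (nat_lit 18) (.e (nat_lit 57927) (nat_lit 282) (.e (nat_lit 163874) (nat_lit 3) (.e (nat_lit 204851) (nat_lit 26) (.e (nat_lit 336019) (nat_lit 3) (.e (nat_lit 98342) (nat_lit 20) (.e (nat_lit 221213) (nat_lit 23) .nil))))))) (.g (nat_lit 1) (.e (nat_lit 224162) (nat_lit 0) .nil) .nil))) 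
(.lf (nat_lit 521099) (.g (nat_lit 3540) (.e (nat_lit 204837) (nat_lit 20) (.e (nat_lit 114714) (nat_lit 22) (.e (nat_lit 90174) (nat_lit 14) (.e (nat_lit 180243) (nat_lit 5) (.e (nat_lit 532499) (nat_lit 1) (.e (nat_lit 57688) (nat_lit 156) (.e (nat_lit 163872) (nat_lit 3) .nil))))))) (.g (nat_lit 1) (.e (nat_lit 224924) (nat_lit 0) .nil) .nil)))))) 
(.nd (nat_lit 7) (.nd (nat_lit 8) (.nd (nat_lit 9) 
(.lf (nat_lit 520267) (.g (nat_lit 3662) (.e (nat_lit 204829) (nat_lit 18) (.e (nat_lit 57927) (nat_lit 282) (.e (nat_lit 163871) (nat_lit 2) (.e (nat_lit 196668) (nat_lit 14) (.e (nat_lit 73747) (nat_lit 3) (.e (nat_lit 516131) (nat_lit 3) (.e (nat_lit 221213) (nat_lit 23) .nil))))))) (.g (nat_lit 1) (.e (nat_lit 223756) (nat_lit 0) .nil) .nil))) 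
(.lf (nat_lit 520779) (.g (nat_lit 3876) (.e (nat_lit 204831) (nat_lit 18) (.e (nat_lit 57854) (nat_lit 252) (.e (nat_lit 57378) (nat_lit 3) (.e (nat_lit 98342) (nat_lit 20) (.e (nat_lit 221214) (nat_lit 23) (.e (nat_lit 204852) (nat_lit 26) (.e (nat_lit 336326) (nat_lit 18) .nil))))))) (.g (nat_lit 1) (.e (nat_lit 224421) (nat_lit 0) .nil) .nil)))) (.nd (nat_lit 9) 
(.lf (nat_lit 520523) (.g (nat_lit 2792) (.e (nat_lit 204830) (nat_lit 18) (.e (nat_lit 57926) (nat_lit 282) (.e (nat_lit 163871) (nat_lit 2) (.e (nat_lit 196668) (nat_lit 14) (.e (nat_lit 73746) (nat_lit 3) (.e (nat_lit 516131) (nat_lit 3) (.e (nat_lit 221213) (nat_lit 23) .nil))))))) (.g (nat_lit 1) (.e (nat_lit 224088) (nat_lit 0) .nil) .nil))) 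
(.lf (nat_lit 521035) (.g (nat_lit 3085) (.e (nat_lit 204837) (nat_lit 20) (.e (nat_lit 114698) (nat_lit 11) (.e (nat_lit 426137) (nat_lit 3) (.e (nat_lit 204861) (nat_lit 26) (.e (nat_lit 336088) (nat_lit 9) (.e (nat_lit 336324) (nat_lit 18) .nil)))))) (.g (nat_lit 1) (.e (nat_lit 224819) (nat_lit 0) .nil) .nil))))) (.nd (nat_lit 8) (.nd (nat_lit 9) 
(.lf (nat_lit 520395) (.g (nat_lit 4478) (.e (nat_lit 204830) (nat_lit 18) (.e (nat_lit 57852) (nat_lit 252) (.e (nat_lit 57373) (nat_lit 2) (.e (nat_lit 90160) (nat_lit 11) (.e (nat_lit 24608) (nat_lit 3) (.e (nat_lit 98321) (nat_lit 17) (.e (nat_lit 3771) (nat_lit 229) (.e (nat_lit 794673) (nat_lit 23) .nil)))))))) (.g (nat_lit 1) (.e (nat_lit 223933) (nat_lit 0) .nil) .nil))) 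
(.lf (nat_lit 520907) (.g (nat_lit 525) (.e (nat_lit 204836) (nat_lit 20) (.e (nat_lit 114698) (nat_lit 11) (.e (nat_lit 426138) (nat_lit 3) .nil))) (.g (nat_lit 0) (.e (nat_lit 224604) (nat_lit 0) .nil) .nil)))) (.nd (nat_lit 9) 
(.lf (nat_lit 520651) (.g (nat_lit 2535) (.e (nat_lit 204831) (nat_lit 18) (.e (nat_lit 57688) (nat_lit 156) (.e (nat_lit 163903) (nat_lit 12) (.e (nat_lit 426566) (nat_lit 34) (.e (nat_lit 393273) (nat_lit 23) (.e (nat_lit 433920) (nat_lit 3) .nil)))))) (.g (nat_lit 1) (.e (nat_lit 224240) (nat_lit 0) .nil) .nil))) 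
(.lf (nat_lit 521163) (.g (nat_lit 1331) (.e (nat_lit 204837) (nat_lit 20) (.e (nat_lit 114718) (nat_lit 23) (.e (nat_lit 98366) (nat_lit 27) (.e (nat_lit 434232) (nat_lit 23) .nil)))) (.g (nat_lit 0) (.e (nat_lit 225007) (nat_lit 0) .nil) .nil))))))) (.nd (nat_lit 6) (.nd (nat_lit 7) (.nd (nat_lit 8) (.nd (nat_lit 9) 
(.lf (nat_lit 520235) (.g (nat_lit 2982) (.e (nat_lit 204829) (nat_lit 18) (.e (nat_lit 57927) (nat_lit 282) (.e (nat_lit 163869) (nat_lit 2) (.e (nat_lit 196670) (nat_lit 14) (.e (nat_lit 73746) (nat_lit 3) (.e (nat_lit 516126) (nat_lit 2) (.e (nat_lit 213010) (nat_lit 9) (.e (nat_lit 2683) (nat_lit 168) .nil)))))))) (.g (nat_lit 1) (.e (nat_lit 223718) (nat_lit 0) .nil) .nil))) 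
(.lf (nat_lit 520747) (.g (nat_lit 1643) (.e (nat_lit 204831) (nat_lit 18) (.e (nat_lit 57849) (nat_lit 252) (.e (nat_lit 57445) (nat_lit 19) (.e (nat_lit 393221) (nat_lit 0) .nil)))) (.g (nat_lit 0) (.e (nat_lit 224372) (nat_lit 0) .nil) .nil)))) (.nd (nat_lit 9) 
(.lf (nat_lit 520491) (.g (nat_lit 2910) (.e (nat_lit 204830) (nat_lit 18) (.e (nat_lit 57926) (nat_lit 282) (.e (nat_lit 163869) (nat_lit 2) (.e (nat_lit 196670) (nat_lit 14) (.e (nat_lit 73746) (nat_lit 3) (.e (nat_lit 516124) (nat_lit 2) (.e (nat_lit 213021) (nat_lit 9) (.e (nat_lit 2681) (nat_lit 168) .nil)))))))) (.g (nat_lit 1) (.e (nat_lit 224054) (nat_lit 0) .nil) .nil))) 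
(.lf (nat_lit 521003) (.g (nat_lit 2743) (.e (nat_lit 204837) (nat_lit 20) (.e (nat_lit 114697) (nat_lit 11) (.e (nat_lit 426139) (nat_lit 3) (.e (nat_lit 204861) (nat_lit 26) (.e (nat_lit 336076) (nat_lit 9) (.e (nat_lit 336326) (nat_lit 18) .nil)))))) (.g (nat_lit 1) (.e (nat_lit 224736) (nat_lit 0) .nil) .nil))))) (.nd (nat_lit 8) (.nd (nat_lit 9) 
(.lf (nat_lit 520363) (.g (nat_lit 2683) (.e (nat_lit 204830) (nat_lit 18) (.e (nat_lit 57691) (nat_lit 156) (.e (nat_lit 163905) (nat_lit 12) (.e (nat_lit 426568) (nat_lit 34) (.e (nat_lit 393281) (nat_lit 23) (.e (nat_lit 426132) (nat_lit 3) .nil)))))) (.g (nat_lit 1) (.e (nat_lit 223879) (nat_lit 0) .nil) .nil))) 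
(.lf (nat_lit 520875) (.g (nat_lit 1962) (.e (nat_lit 204834) (nat_lit 19) (.e (nat_lit 106536) (nat_lit 11) (.e (nat_lit 16415) (nat_lit 3) (.e (nat_lit 204859) (nat_lit 26) .nil)))) (.g (nat_lit 0) (.e (nat_lit 224561) (nat_lit 0) .nil) .nil)))) (.nd (nat_lit 9) 
(.lf (nat_lit 520619) (.g (nat_lit 3076) (.e (nat_lit 204830) (nat_lit 18) (.e (nat_lit 57931) (nat_lit 282) (.e (nat_lit 163869) (nat_lit 2) (.e (nat_lit 196668) (nat_lit 14) (.e (nat_lit 73747) (nat_lit 3) (.e (nat_lit 516129) (nat_lit 3) (.e (nat_lit 221213) (nat_lit 23) .nil))))))) (.g (nat_lit 1) (.e (nat_lit 224197) (nat_lit 0) .nil) .nil))) 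
(.lf (nat_lit 521131) (.g (nat_lit 3227) (.e (nat_lit 204837) (nat_lit 20) (.e (nat_lit 114716) (nat_lit 22) (.e (nat_lit 90172) (nat_lit 14) (.e (nat_lit 180244) (nat_lit 5) (.e (nat_lit 532499) (nat_lit 1) (.e (nat_lit 57654) (nat_lit 152) (.e (nat_lit 2399) (nat_lit 157) (.e (nat_lit 2685) (nat_lit 168) .nil)))))))) (.g (nat_lit 1) (.e (nat_lit 224963) (nat_lit 0) .nil) .nil)))))) 
(.nd (nat_lit 7) (.nd (nat_lit 8) (.nd (nat_lit 9) 
(.lf (nat_lit 520299) (.g (nat_lit 3025) (.e (nat_lit 204829) (nat_lit 18) (.e (nat_lit 57927) (nat_lit 282) (.e (nat_lit 164084) (nat_lit 73) (.e (nat_lit 336027) (nat_lit 3) (.e (nat_lit 98358) (nat_lit 26) (.e (nat_lit 426112) (nat_lit 1) (.e (nat_lit 164327) (nat_lit 230) (.e (nat_lit 163873) (nat_lit 3) .nil)))))))) (.g (nat_lit 1) (.e (nat_lit 223791) (nat_lit 0) .nil) .nil))) 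
(.lf (nat_lit 520811) (.g (nat_lit 2690) (.e (nat_lit 204831) (nat_lit 18) (.e (nat_lit 57931) (nat_lit 282) (.e (nat_lit 163867) (nat_lit 2) (.e (nat_lit 196670) (nat_lit 14) (.e (nat_lit 73746) (nat_lit 3) (.e (nat_lit 516124) (nat_lit 2) (.e (nat_lit 213018) (nat_lit 9) (.e (nat_lit 2681) (nat_lit 168) .nil)))))))) (.g (nat_lit 1) (.e (nat_lit 224465) (nat_lit 0) .nil) .nil)))) 
(.nd (nat_lit 9) 
(.lf (nat_lit 520555) (.g (nat_lit 2445) (.e (nat_lit 204830) (nat_lit 18) (.e (nat_lit 57927) (nat_lit 282) (.e (nat_lit 163867) (nat_lit 2) (.e (nat_lit 196668) (nat_lit 14) (.e (nat_lit 73746) (nat_lit 3) .nil))))) (.g (nat_lit 0) (.e (nat_lit 224123) (nat_lit 0) .nil) .nil))) 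
(.lf (nat_lit 521067) (.g (nat_lit 543) (.e (nat_lit 204837) (nat_lit 20) (.e (nat_lit 114714) (nat_lit 22) (.e (nat_lit 90169) (nat_lit 13) .nil))) (.g (nat_lit 0) (.e (nat_lit 224886) (nat_lit 0) .nil) .nil))))) (.nd (nat_lit 8) (.nd (nat_lit 9) 
(.lf (nat_lit 520427) (.g (nat_lit 1686) (.e (nat_lit 204830) (nat_lit 18) (.e (nat_lit 57854) (nat_lit 252) (.e (nat_lit 57406) (nat_lit 12) (.e (nat_lit 336456) (nat_lit 34) (.e (nat_lit 483391) (nat_lit 23) .nil))))) (.g (nat_lit 0) (.e (nat_lit 223972) (nat_lit 0) .nil) .nil))) 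
(.lf (nat_lit 520939) (.g (nat_lit 1640) (.e (nat_lit 204836) (nat_lit 20) (.e (nat_lit 114719) (nat_lit 23) (.e (nat_lit 98367) (nat_lit 27) (.e (nat_lit 434232) (nat_lit 23) .nil)))) (.g (nat_lit 0) (.e (nat_lit 224644) (nat_lit 0) .nil) .nil)))) (.nd (nat_lit 9) 
(.lf (nat_lit 520683) (.g (nat_lit 1572) (.e (nat_lit 204831) (nat_lit 18) (.e (nat_lit 57846) (nat_lit 252) (.e (nat_lit 57406) (nat_lit 12) (.e (nat_lit 336456) (nat_lit 34) .nil)))) (.g (nat_lit 0) (.e (nat_lit 224301) (nat_lit 0) .nil) .nil))) 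
(.lf (nat_lit 521195) (.g (nat_lit 1618) (.e (nat_lit 204837) (nat_lit 20) (.e (nat_lit 114719) (nat_lit 23) (.e (nat_lit 98365) (nat_lit 26) (.e (nat_lit 426137) (nat_lit 3) .nil)))) (.g (nat_lit 0) (.e (nat_lit 225058) (nat_lit 0) .nil) .nil)))))))) (.nd (nat_lit 5) (.nd (nat_lit 6) (.nd (nat_lit 7) (.nd (nat_lit 8) (.nd (nat_lit 9) 
(.lf (nat_lit 520219) (.g (nat_lit 2762) (.e (nat_lit 204829) (nat_lit 18) (.e (nat_lit 57927) (nat_lit 282) (.e (nat_lit 163869) (nat_lit 2) (.e (nat_lit 196670) (nat_lit 14) (.e (nat_lit 73746) (nat_lit 3) (.e (nat_lit 516124) (nat_lit 2) (.e (nat_lit 213021) (nat_lit 9) (.e (nat_lit 2681) (nat_lit 168) .nil)))))))) (.g (nat_lit 1) (.e (nat_lit 223702) (nat_lit 0) .nil) .nil))) 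
(.lf (nat_lit 520731) (.g (nat_lit 415) (.e (nat_lit 204831) (nat_lit 18) (.e (nat_lit 57849) (nat_lit 252) (.e (nat_lit 57379) (nat_lit 3) .nil))) (.g (nat_lit 0) (.e (nat_lit 224354) (nat_lit 0) .nil) .nil)))) (.nd (nat_lit 9) 
(.lf (nat_lit 520475) (.g (nat_lit 4376) (.e (nat_lit 204830) (nat_lit 18) (.e (nat_lit 57926) (nat_lit 282) (.e (nat_lit 163868) (nat_lit 2) (.e (nat_lit 196668) (nat_lit 14) (.e (nat_lit 73747) (nat_lit 3) (.e (nat_lit 516131) (nat_lit 3) (.e (nat_lit 221213) (nat_lit 23) .nil))))))) (.g (nat_lit 1) (.e (nat_lit 224029) (nat_lit 0) .nil) .nil))) 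
(.lf (nat_lit 520987) (.g (nat_lit 1627) (.e (nat_lit 204837) (nat_lit 20) (.e (nat_lit 114697) (nat_lit 11) (.e (nat_lit 426138) (nat_lit 3) (.e (nat_lit 204859) (nat_lit 26) (.e (nat_lit 336116) (nat_lit 9) (.e (nat_lit 336323) (nat_lit 18) .nil)))))) (.g (nat_lit 1) (.e (nat_lit 224719) (nat_lit 0) .nil) .nil))))) (.nd (nat_lit 8) (.nd (nat_lit 9) 
(.lf (nat_lit 520347) (.g (nat_lit 3342) (.e (nat_lit 204829) (nat_lit 18) (.e (nat_lit 57931) (nat_lit 282) (.e (nat_lit 163874) (nat_lit 3) (.e (nat_lit 204863) (nat_lit 27) (.e (nat_lit 344117) (nat_lit 21) (.e (nat_lit 516099) (nat_lit 0) (.e (nat_lit 3771) (nat_lit 229) (.e (nat_lit 794673) (nat_lit 23) .nil)))))))) (.g (nat_lit 1) (.e (nat_lit 223852) (nat_lit 0) .nil) .nil))) 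
(.lf (nat_lit 520859) (.g (nat_lit 845) (.e (nat_lit 204833) (nat_lit 19) (.e (nat_lit 106534) (nat_lit 11) (.e (nat_lit 16417) (nat_lit 3) (.e (nat_lit 204854) (nat_lit 26) .nil)))) (.g (nat_lit 0) (.e (nat_lit 224532) (nat_lit 0) .nil) .nil)))) (.nd (nat_lit 9) 
(.lf (nat_lit 520603) (.g (nat_lit 2508) (.e (nat_lit 204830) (nat_lit 18) (.e (nat_lit 57929) (nat_lit 282) (.e (nat_lit 163874) (nat_lit 3) (.e (nat_lit 204863) (nat_lit 27) (.e (nat_lit 344117) (nat_lit 21) (.e (nat_lit 516123) (nat_lit 2) (.e (nat_lit 213013) (nat_lit 9) (.e (nat_lit 2684) (nat_lit 168) .nil)))))))) (.g (nat_lit 1) (.e (nat_lit 224180) (nat_lit 0) .nil) .nil))) 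
(.lf (nat_lit 521115) (.g (nat_lit 2630) (.e (nat_lit 204837) (nat_lit 20) (.e (nat_lit 114714) (nat_lit 22) (.e (nat_lit 90174) (nat_lit 14) (.e (nat_lit 180243) (nat_lit 5) (.e (nat_lit 532504) (nat_lit 1) (.e (nat_lit 57691) (nat_lit 156) (.e (nat_lit 163872) (nat_lit 3) .nil))))))) (.g (nat_lit 1) (.e (nat_lit 224941) (nat_lit 0) .nil) .nil)))))) 
(.nd (nat_lit 7) (.nd (nat_lit 8) (.nd (nat_lit 9) 
(.lf (nat_lit 520283) (.g (nat_lit 3226) (.e (nat_lit 204829) (nat_lit 18) (.e (nat_lit 57927) (nat_lit 282) (.e (nat_lit 163874) (nat_lit 3) (.e (nat_lit 204862) (nat_lit 27) (.e (nat_lit 344117) (nat_lit 21) (.e (nat_lit 516123) (nat_lit 2) (.e (nat_lit 213013) (nat_lit 9) (.e (nat_lit 2681) (nat_lit 168) .nil)))))))) (.g (nat_lit 1) (.e (nat_lit 223773) (nat_lit 0) .nil) .nil))) 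
(.lf (nat_lit 520795) (.g (nat_lit 2637) (.e (nat_lit 204831) (nat_lit 18) (.e (nat_lit 57924) (nat_lit 282) (.e (nat_lit 163871) (nat_lit 2) (.e (nat_lit 196668) (nat_lit 14) (.e (nat_lit 73747) (nat_lit 3) (.e (nat_lit 516131) (nat_lit 3) (.e (nat_lit 221215) (nat_lit 23) .nil))))))) (.g (nat_lit 1) (.e (nat_lit 224442) (nat_lit 0) .nil) .nil)))) (.nd (nat_lit 9) 
(.lf (nat_lit 520539) (.g (nat_lit 2274) (.e (nat_lit 204830) (nat_lit 18) (.e (nat_lit 57926) (nat_lit 282) (.e (nat_lit 163874) (nat_lit 3) (.e (nat_lit 204863) (nat_lit 27) (.e (nat_lit 344120) (nat_lit 21) .nil))))) (.g (nat_lit 0) (.e (nat_lit 224104) (nat_lit 0) .nil) .nil))) 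
(.lf (nat_lit 521051) (.g (nat_lit 2319) (.e (nat_lit 204837) (nat_lit 20) (.e (nat_lit 114698) (nat_lit 11) (.e (nat_lit 426139) (nat_lit 3) (.e (nat_lit 204859) (nat_lit 26) (.e (nat_lit 336118) (nat_lit 9) (.e (nat_lit 336321) (nat_lit 18) .nil)))))) (.g (nat_lit 1) (.e (nat_lit 224840) (nat_lit 0) .nil) .nil))))) (.nd (nat_lit 8) (.nd (nat_lit 9) 
(.lf (nat_lit 520411) (.g (nat_lit 918) (.e (nat_lit 204830) (nat_lit 18) (.e (nat_lit 57854) (nat_lit 252) (.e (nat_lit 57364) (nat_lit 1) (.e (nat_lit 57927) (nat_lit 282) .nil)))) (.g (nat_lit 0) (.e (nat_lit 223953) (nat_lit 0) .nil) .nil))) 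
(.lf (nat_lit 520923) (.g (nat_lit 2341) (.e (nat_lit 204836) (nat_lit 20) (.e (nat_lit 114718) (nat_lit 23) (.e (nat_lit 98366) (nat_lit 27) (.e (nat_lit 434231) (nat_lit 23) (.e (nat_lit 532502) (nat_lit 1) .nil))))) (.g (nat_lit 0) (.e (nat_lit 224622) (nat_lit 0) .nil) .nil)))) (.nd (nat_lit 9) 
(.lf (nat_lit 520667) (.g (nat_lit 1724) (.e (nat_lit 204831) (nat_lit 18) (.e (nat_lit 57692) (nat_lit 156) (.e (nat_lit 163907) (nat_lit 12) (.e (nat_lit 426478) (nat_lit 27) (.e (nat_lit 336443) (nat_lit 32) .nil))))) (.g (nat_lit 0) (.e (nat_lit 224280) (nat_lit 0) .nil) .nil))) 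
(.lf (nat_lit 521179) (.g (nat_lit 2817) (.e (nat_lit 204837) (nat_lit 20) (.e (nat_lit 114719) (nat_lit 23) (.e (nat_lit 98335) (nat_lit 18) (.e (nat_lit 164330) (nat_lit 230) (.e (nat_lit 163867) (nat_lit 2) .nil))))) (.g (nat_lit 0) (.e (nat_lit 225035) (nat_lit 0) .nil) .nil))))))) (.nd (nat_lit 6) (.nd (nat_lit 7) (.nd (nat_lit 8) (.nd (nat_lit 9) 
(.lf (nat_lit 520251) (.g (nat_lit 2386) (.e (nat_lit 204829) (nat_lit 18) (.e (nat_lit 57927) (nat_lit 282) (.e (nat_lit 163869) (nat_lit 2) (.e (nat_lit 196670) (nat_lit 14) (.e (nat_lit 73748) (nat_lit 3) .nil))))) (.g (nat_lit 0) (.e (nat_lit 223734) (nat_lit 0) .nil) .nil))) 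
(.lf (nat_lit 520763) (.g (nat_lit 2538) (.e (nat_lit 204831) (nat_lit 18) (.e (nat_lit 57852) (nat_lit 252) (.e (nat_lit 57406) (nat_lit 12) (.e (nat_lit 336456) (nat_lit 34) (.e (nat_lit 483387) (nat_lit 23) .nil))))) (.g (nat_lit 0) (.e (nat_lit 224390) (nat_lit 0) .nil) .nil)))) (.nd (nat_lit 9) 
(.lf (nat_lit 520507) (.g (nat_lit 2409) (.e (nat_lit 204830) (nat_lit 18) (.e (nat_lit 57926) (nat_lit 282) (.e (nat_lit 163869) (nat_lit 2) (.e (nat_lit 196670) (nat_lit 14) (.e (nat_lit 73746) (nat_lit 3) (.e (nat_lit 516127) (nat_lit 2) (.e (nat_lit 213013) (nat_lit 9) (.e (nat_lit 2684) (nat_lit 168) .nil)))))))) (.g (nat_lit 1) (.e (nat_lit 224070) (nat_lit 0) .nil) .nil))) 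
(.lf (nat_lit 521019) (.g (nat_lit 3059) (.e (nat_lit 204837) (nat_lit 20) (.e (nat_lit 114698) (nat_lit 11) (.e (nat_lit 426133) (nat_lit 3) (.e (nat_lit 204861) (nat_lit 26) (.e (nat_lit 336075) (nat_lit 9) (.e (nat_lit 336326) (nat_lit 18) .nil)))))) (.g (nat_lit 1) (.e (nat_lit 224802) (nat_lit 0) .nil) .nil))))) (.nd (nat_lit 8) (.nd (nat_lit 9) 
(.lf (nat_lit 520379) (.g (nat_lit 1540) (.e (nat_lit 204830) (nat_lit 18) (.e (nat_lit 57692) (nat_lit 156) (.e (nat_lit 163905) (nat_lit 12) (.e (nat_lit 426487) (nat_lit 27) .nil)))) (.g (nat_lit 0) (.e (nat_lit 223907) (nat_lit 0) .nil) .nil))) 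
(.lf (nat_lit 520891) (.g (nat_lit 2418) (.e (nat_lit 204835) (nat_lit 19) (.e (nat_lit 106536) (nat_lit 11) (.e (nat_lit 16416) (nat_lit 3) (.e (nat_lit 204854) (nat_lit 26) .nil)))) (.g (nat_lit 0) (.e (nat_lit 224585) (nat_lit 0) .nil) .nil)))) (.nd (nat_lit 9) 
(.lf (nat_lit 520635) (.g (nat_lit 2019) (.e (nat_lit 204831) (nat_lit 18) (.e (nat_lit 57687) (nat_lit 156) (.e (nat_lit 163902) (nat_lit 12) (.e (nat_lit 426568) (nat_lit 34) (.e (nat_lit 393281) (nat_lit 23) .nil))))) (.g (nat_lit 0) (.e (nat_lit 224218) (nat_lit 0) .nil) .nil))) 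
(.lf (nat_lit 521147) (.g (nat_lit 4894) (.e (nat_lit 204837) (nat_lit 20) (.e (nat_lit 114718) (nat_lit 23) (.e (nat_lit 98334) (nat_lit 18) (.e (nat_lit 164330) (nat_lit 230) (.e (nat_lit 163867) (nat_lit 2) (.e (nat_lit 196656) (nat_lit 11) (.e (nat_lit 16416) (nat_lit 3) .nil))))))) (.g (nat_lit 1) (.e (nat_lit 224989) (nat_lit 0) .nil) .nil)))))) 
(.nd (nat_lit 7) (.nd (nat_lit 8) (.nd (nat_lit 9) 
(.lf (nat_lit 520315) (.g (nat_lit 3779) (.e (nat_lit 204829) (nat_lit 18) (.e (nat_lit 57931) (nat_lit 282) (.e (nat_lit 163867) (nat_lit 2) (.e (nat_lit 196668) (nat_lit 14) (.e (nat_lit 73747) (nat_lit 3) (.e (nat_lit 516131) (nat_lit 3) (.e (nat_lit 221213) (nat_lit 23) .nil))))))) (.g (nat_lit 1) (.e (nat_lit 223811) (nat_lit 0) .nil) .nil))) 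
(.lf (nat_lit 520827) (.g (nat_lit 2735) (.e (nat_lit 204831) (nat_lit 18) (.e (nat_lit 57931) (nat_lit 282) (.e (nat_lit 163869) (nat_lit 2) (.e (nat_lit 196666) (nat_lit 13) (.e (nat_lit 65569) (nat_lit 3) (.e (nat_lit 98342) (nat_lit 20) (.e (nat_lit 221213) (nat_lit 23) .nil))))))) (.g (nat_lit 1) (.e (nat_lit 224481) (nat_lit 0) .nil) .nil)))) (.nd (nat_lit 9) 
(.lf (nat_lit 520571) (.g (nat_lit 2745) (.e (nat_lit 204830) (nat_lit 18) (.e (nat_lit 57927) (nat_lit 282) (.e (nat_lit 163869) (nat_lit 2) (.e (nat_lit 196670) (nat_lit 14) (.e (nat_lit 73746) (nat_lit 3) (.e (nat_lit 516124) (nat_lit 2) (.e (nat_lit 213019) (nat_lit 9) (.e (nat_lit 2675) (nat_lit 168) .nil)))))))) (.g (nat_lit 1) (.e (nat_lit 224142) (nat_lit 0) .nil) .nil))) 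
(.lf (nat_lit 521083) (.g (nat_lit 3145) (.e (nat_lit 204837) (nat_lit 20) (.e (nat_lit 114714) (nat_lit 22) (.e (nat_lit 90172) (nat_lit 14) (.e (nat_lit 180244) (nat_lit 5) (.e (nat_lit 532499) (nat_lit 1) (.e (nat_lit 57691) (nat_lit 156) (.e (nat_lit 163872) (nat_lit 3) .nil))))))) (.g (nat_lit 1) (.e (nat_lit 224905) (nat_lit 0) .nil) .nil))))) (.nd (nat_lit 8) (.nd (nat_lit 9) 
(.lf (nat_lit 520443) (.g (nat_lit 1261) (.e (nat_lit 204830) (nat_lit 18) (.e (nat_lit 57854) (nat_lit 252) (.e (nat_lit 57445) (nat_lit 19) (.e (nat_lit 393227) (nat_lit 9) (.e (nat_lit 336113) (nat_lit 9) .nil))))) (.g (nat_lit 0) (.e (nat_lit 223989) (nat_lit 0) .nil) .nil))) 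
(.lf (nat_lit 520955) (.g (nat_lit 824) (.e (nat_lit 204837) (nat_lit 20) (.e (nat_lit 114695) (nat_lit 11) (.e (nat_lit 426129) (nat_lit 3) (.e (nat_lit 204876) (nat_lit 31) (.e (nat_lit 384768) (nat_lit 3) .nil))))) (.g (nat_lit 1) (.e (nat_lit 224664) (nat_lit 0) .nil) .nil)))) (.nd (nat_lit 9) 
(.lf (nat_lit 520699) (.g (nat_lit 3859) (.e (nat_lit 204831) (nat_lit 18) (.e (nat_lit 57847) (nat_lit 252) (.e (nat_lit 57379) (nat_lit 3) (.e (nat_lit 98341) (nat_lit 20) (.e (nat_lit 221214) (nat_lit 23) (.e (nat_lit 204852) (nat_lit 26) (.e (nat_lit 336326) (nat_lit 18) .nil))))))) (.g (nat_lit 1) (.e (nat_lit 224317) (nat_lit 0) .nil) .nil))) 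
(.lf (nat_lit 521211) (.g (nat_lit 2677) (.e (nat_lit 204837) (nat_lit 20) (.e (nat_lit 114719) (nat_lit 23) (.e (nat_lit 98367) (nat_lit 27) (.e (nat_lit 434231) (nat_lit 23) (.e (nat_lit 532504) (nat_lit 1) .nil))))) (.g (nat_lit 0) (.e (nat_lit 225075) (nat_lit 0) .nil) .nil)))))))))) 
(.nd (nat_lit 3) (.nd (nat_lit 4) (.nd (nat_lit 5) (.nd (nat_lit 6) (.nd (nat_lit 7) 
(.nd (nat_lit 8) (.nd (nat_lit 9) 
(.lf (nat_lit 520199) (.g (nat_lit 3643) (.e (nat_lit 204829) (nat_lit 18) (.e (nat_lit 57927) (nat_lit 282) (.e (nat_lit 163868) (nat_lit 2) (.e (nat_lit 196670) (nat_lit 14) (.e (nat_lit 73746) (nat_lit 3) (.e (nat_lit 516129) (nat_lit 3) (.e (nat_lit 221213) (nat_lit 23) .nil))))))) (.g (nat_lit 1) (.e (nat_lit 223665) (nat_lit 0) .nil) .nil))) 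
(.lf (nat_lit 520711) (.g (nat_lit 1544) (.e (nat_lit 204831) (nat_lit 18) (.e (nat_lit 57847) (nat_lit 252) (.e (nat_lit 57411) (nat_lit 12) (.e (nat_lit 336377) (nat_lit 27) .nil)))) (.g (nat_lit 0) (.e (nat_lit 224329) (nat_lit 0) .nil) .nil)))) (.nd (nat_lit 9) 
(.lf (nat_lit 520455) (.g (nat_lit 3635) (.e (nat_lit 204830) (nat_lit 18) (.e (nat_lit 57925) (nat_lit 282) (.e (nat_lit 163867) (nat_lit 2) (.e (nat_lit 196670) (nat_lit 14) (.e (nat_lit 73746) (nat_lit 3) (.e (nat_lit 516124) (nat_lit 2) (.e (nat_lit 213013) (nat_lit 9) (.e (nat_lit 2684) (nat_lit 168) .nil)))))))) (.g (nat_lit 1) (.e (nat_lit 224005) (nat_lit 0) .nil) .nil))) 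
(.lf (nat_lit 520967) (.g (nat_lit 2295) (.e (nat_lit 204837) (nat_lit 20) (.e (nat_lit 114697) (nat_lit 11) (.e (nat_lit 426133) (nat_lit 3) (.e (nat_lit 204861) (nat_lit 26) (.e (nat_lit 336075) (nat_lit 9) (.e (nat_lit 336326) (nat_lit 18) .nil)))))) (.g (nat_lit 1) (.e (nat_lit 224697) (nat_lit 0) .nil) .nil))))) (.nd (nat_lit 8) (.nd (nat_lit 9) 
(.lf (nat_lit 520327) (.g (nat_lit 3945) (.e (nat_lit 204829) (nat_lit 18) (.e (nat_lit 57931) (nat_lit 282) (.e (nat_lit 163869) (nat_lit 2) (.e (nat_lit 196668) (nat_lit 14) (.e (nat_lit 73746) (nat_lit 3) (.e (nat_lit 516129) (nat_lit 3) (.e (nat_lit 221213) (nat_lit 23) .nil))))))) (.g (nat_lit 1) (.e (nat_lit 223826) (nat_lit 0) .nil) .nil))) 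
(.lf (nat_lit 520839) (.g (nat_lit 2956) (.e (nat_lit 204831) (nat_lit 18) (.e (nat_lit 57931) (nat_lit 282) (.e (nat_lit 163869) (nat_lit 2) (.e (nat_lit 196670) (nat_lit 14) (.e (nat_lit 73746) (nat_lit 3) (.e (nat_lit 516126) (nat_lit 2) (.e (nat_lit 213022) (nat_lit 9) (.e (nat_lit 2681) (nat_lit 168) .nil)))))))) (.g (nat_lit 1) (.e (nat_lit 224503) (nat_lit 0) .nil) .nil)))) 
(.nd (nat_lit 9) 
(.lf (nat_lit 520583) (.g (nat_lit 3302) (.e (nat_lit 204830) (nat_lit 18) (.e (nat_lit 57927) (nat_lit 282) (.e (nat_lit 163871) (nat_lit 2) (.e (nat_lit 196670) (nat_lit 14) (.e (nat_lit 73746) (nat_lit 3) (.e (nat_lit 516124) (nat_lit 2) (.e (nat_lit 213013) (nat_lit 9) (.e (nat_lit 2684) (nat_lit 168) .nil)))))))) (.g (nat_lit 1) (.e (nat_lit 224156) (nat_lit 0) .nil) .nil))) 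
(.lf (nat_lit 521095) (.g (nat_lit 1168) (.e (nat_lit 204837) (nat_lit 20) (.e (nat_lit 114714) (nat_lit 22) (.e (nat_lit 90174) (nat_lit 14) (.e (nat_lit 180243) (nat_lit 5) .nil)))) (.g (nat_lit 0) (.e (nat_lit 224920) (nat_lit 0) .nil) .nil)))))) (.nd (nat_lit 7) (.nd (nat_lit 8) (.nd (nat_lit 9) 
(.lf (nat_lit 520263) (.g (nat_lit 2615) (.e (nat_lit 204829) (nat_lit 18) (.e (nat_lit 57927) (nat_lit 282) (.e (nat_lit 163871) (nat_lit 2) (.e (nat_lit 196668) (nat_lit 14) (.e (nat_lit 73747) (nat_lit 3) (.e (nat_lit 516124) (nat_lit 2) (.e (nat_lit 213019) (nat_lit 9) (.e (nat_lit 2675) (nat_lit 168) .nil)))))))) (.g (nat_lit 1) (.e (nat_lit 223752) (nat_lit 0) .nil) .nil))) 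
(.lf (nat_lit 520775) (.g (nat_lit 3566) (.e (nat_lit 204831) (nat_lit 18) (.e (nat_lit 57854) (nat_lit 252) (.e (nat_lit 57377) (nat_lit 3) (.e (nat_lit 98342) (nat_lit 20) (.e (nat_lit 221214) (nat_lit 23) .nil))))) (.g (nat_lit 0) (.e (nat_lit 224412) (nat_lit 0) .nil) .nil)))) (.nd (nat_lit 9) 
(.lf (nat_lit 520519) (.g (nat_lit 2879) (.e (nat_lit 204830) (nat_lit 18) (.e (nat_lit 57926) (nat_lit 282) (.e (nat_lit 163871) (nat_lit 2) (.e (nat_lit 196668) (nat_lit 14) (.e (nat_lit 73746) (nat_lit 3) (.e (nat_lit 516124) (nat_lit 2) (.e (nat_lit 213013) (nat_lit 9) (.e (nat_lit 2684) (nat_lit 168) .nil)))))))) (.g (nat_lit 1) (.e (nat_lit 224084) (nat_lit 0) .nil) .nil))) 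
(.lf (nat_lit 521031) (.g (nat_lit 2311) (.e (nat_lit 204837) (nat_lit 20) (.e (nat_lit 114698) (nat_lit 11) (.e (nat_lit 426137) (nat_lit 3) (.e (nat_lit 204861) (nat_lit 26) (.e (nat_lit 336076) (nat_lit 9) (.e (nat_lit 336322) (nat_lit 18) .nil)))))) (.g (nat_lit 1) (.e (nat_lit 224814) (nat_lit 0) .nil) .nil))))) (.nd (nat_lit 8) (.nd (nat_lit 9) 
(.lf (nat_lit 520391) (.g (nat_lit 800) (.e (nat_lit 204830) (nat_lit 18) (.e (nat_lit 57852) (nat_lit 252) (.e (nat_lit 57364) (nat_lit 1) .nil))) (.g (nat_lit 0) (.e (nat_lit 223929) (nat_lit 0) .nil) .nil))) 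
(.lf (nat_lit 520903) (.g (nat_lit 1018) (.e (nat_lit 204836) (nat_lit 20) (.e (nat_lit 114698) (nat_lit 11) (.e (nat_lit 426123) (nat_lit 2) .nil))) (.g (nat_lit 0) (.e (nat_lit 224597) (nat_lit 0) .nil) .nil)))) (.nd (nat_lit 9) 
(.lf (nat_lit 520647) (.g (nat_lit 2431) (.e (nat_lit 204831) (nat_lit 18) (.e (nat_lit 57688) (nat_lit 156) (.e (nat_lit 163902) (nat_lit 12) (.e (nat_lit 426568) (nat_lit 34) (.e (nat_lit 393281) (nat_lit 23) (.e (nat_lit 426138) (nat_lit 3) .nil)))))) (.g (nat_lit 1) (.e (nat_lit 224236) (nat_lit 0) .nil) .nil))) 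
(.lf (nat_lit 521159) (.g (nat_lit 1773) (.e (nat_lit 204837) (nat_lit 20) (.e (nat_lit 114718) (nat_lit 23) (.e (nat_lit 98365) (nat_lit 26) (.e (nat_lit 426138) (nat_lit 3) (.e (nat_lit 204831) (nat_lit 18) .nil))))) (.g (nat_lit 0) (.e (nat_lit 225003) (nat_lit 0) .nil) .nil))))))) (.nd (nat_lit 6) (.nd (nat_lit 7) (.nd (nat_lit 8) (.nd (nat_lit 9) 
(.lf (nat_lit 520231) (.g (nat_lit 2875) (.e (nat_lit 204829) (nat_lit 18) (.e (nat_lit 57927) (nat_lit 282) (.e (nat_lit 163869) (nat_lit 2) (.e (nat_lit 196670) (nat_lit 14) (.e (nat_lit 73746) (nat_lit 3) (.e (nat_lit 516126) (nat_lit 2) (.e (nat_lit 213000) (nat_lit 9) (.e (nat_lit 2680) (nat_lit 168) .nil)))))))) (.g (nat_lit 1) (.e (nat_lit 223714) (nat_lit 0) .nil) .nil))) 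
(.lf (nat_lit 520743) (.g (nat_lit 1738) (.e (nat_lit 204831) (nat_lit 18) (.e (nat_lit 57849) (nat_lit 252) (.e (nat_lit 57411) (nat_lit 12) (.e (nat_lit 336452) (nat_lit 34) .nil)))) (.g (nat_lit 0) (.e (nat_lit 224368) (nat_lit 0) .nil) .nil)))) (.nd (nat_lit 9) 
(.lf (nat_lit 520487) (.g (nat_lit 3700) (.e (nat_lit 204830) (nat_lit 18) (.e (nat_lit 57926) (nat_lit 282) (.e (nat_lit 163869) (nat_lit 2) (.e (nat_lit 196670) (nat_lit 14) (.e (nat_lit 73746) (nat_lit 3) (.e (nat_lit 516124) (nat_lit 2) (.e (nat_lit 213000) (nat_lit 9) (.e (nat_lit 2680) (nat_lit 168) .nil)))))))) (.g (nat_lit 1) (.e (nat_lit 224050) (nat_lit 0) .nil) .nil))) 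
(.lf (nat_lit 520999) (.g (nat_lit 1702) (.e (nat_lit 204837) (nat_lit 20) (.e (nat_lit 114697) (nat_lit 11) (.e (nat_lit 426139) (nat_lit 3) (.e (nat_lit 204861) (nat_lit 26) (.e (nat_lit 336075) (nat_lit 9) (.e (nat_lit 336322) (nat_lit 18) .nil)))))) (.g (nat_lit 1) (.e (nat_lit 224732) (nat_lit 0) .nil) .nil))))) (.nd (nat_lit 8) (.nd (nat_lit 9) 
(.lf (nat_lit 520359) (.g (nat_lit 1458) (.e (nat_lit 204830) (nat_lit 18) (.e (nat_lit 57691) (nat_lit 156) (.e (nat_lit 163905) (nat_lit 12) (.e (nat_lit 426484) (nat_lit 27) .nil)))) (.g (nat_lit 0) (.e (nat_lit 223874) (nat_lit 0) .nil) .nil))) 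
(.lf (nat_lit 520871) (.g (nat_lit 1949) (.e (nat_lit 204834) (nat_lit 19) (.e (nat_lit 106536) (nat_lit 11) (.e (nat_lit 16412) (nat_lit 2) (.e (nat_lit 196681) (nat_lit 17) (.e (nat_lit 131109) (nat_lit 9) .nil))))) (.g (nat_lit 0) (.e (nat_lit 224556) (nat_lit 0) .nil) .nil)))) (.nd (nat_lit 9) 
(.lf (nat_lit 520615) (.g (nat_lit 3148) (.e (nat_lit 204830) (nat_lit 18) (.e (nat_lit 57931) (nat_lit 282) (.e (nat_lit 163869) (nat_lit 2) (.e (nat_lit 196666) (nat_lit 13) (.e (nat_lit 65571) (nat_lit 3) (.e (nat_lit 98342) (nat_lit 20) (.e (nat_lit 221213) (nat_lit 23) .nil))))))) (.g (nat_lit 1) (.e (nat_lit 224192) (nat_lit 0) .nil) .nil))) 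
(.lf (nat_lit 521127) (.g (nat_lit 4197) (.e (nat_lit 204837) (nat_lit 20) (.e (nat_lit 114715) (nat_lit 22) (.e (nat_lit 90170) (nat_lit 13) (.e (nat_lit 172067) (nat_lit 3) (.e (nat_lit 204829) (nat_lit 18) (.e (nat_lit 57688) (nat_lit 156) (.e (nat_lit 163875) (nat_lit 3) .nil))))))) (.g (nat_lit 1) (.e (nat_lit 224958) (nat_lit 0) .nil) .nil)))))) 
(.nd (nat_lit 7) (.nd (nat_lit 8) (.nd (nat_lit 9) 
(.lf (nat_lit 520295) (.g (nat_lit 4699) (.e (nat_lit 204829) (nat_lit 18) (.e (nat_lit 57927) (nat_lit 282) (.e (nat_lit 163875) (nat_lit 3) (.e (nat_lit 204863) (nat_lit 27) (.e (nat_lit 344117) (nat_lit 21) (.e (nat_lit 516099) (nat_lit 0) (.e (nat_lit 3771) (nat_lit 229) (.e (nat_lit 794673) (nat_lit 23) .nil)))))))) (.g (nat_lit 1) (.e (nat_lit 223787) (nat_lit 0) .nil) .nil))) 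
(.lf (nat_lit 520807) (.g (nat_lit 1945) (.e (nat_lit 204831) (nat_lit 18) (.e (nat_lit 57931) (nat_lit 282) (.e (nat_lit 163867) (nat_lit 2) (.e (nat_lit 196670) (nat_lit 14) (.e (nat_lit 73746) (nat_lit 3) .nil))))) (.g (nat_lit 0) (.e (nat_lit 224461) (nat_lit 0) .nil) .nil)))) (.nd (nat_lit 9) 
(.lf (nat_lit 520551) (.g (nat_lit 1957) (.e (nat_lit 204830) (nat_lit 18) (.e (nat_lit 57927) (nat_lit 282) (.e (nat_lit 163866) (nat_lit 2) (.e (nat_lit 196668) (nat_lit 14) (.e (nat_lit 73746) (nat_lit 3) .nil))))) (.g (nat_lit 0) (.e (nat_lit 224119) (nat_lit 0) .nil) .nil))) 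
(.lf (nat_lit 521063) (.g (nat_lit 1175) (.e (nat_lit 204837) (nat_lit 20) (.e (nat_lit 122624) (nat_lit 11) (.e (nat_lit 426131) (nat_lit 3) (.e (nat_lit 204877) (nat_lit 31) (.e (nat_lit 384768) (nat_lit 3) .nil))))) (.g (nat_lit 1) (.e (nat_lit 224858) (nat_lit 0) .nil) .nil))))) (.nd (nat_lit 8) (.nd (nat_lit 9) 
(.lf (nat_lit 520423) (.g (nat_lit 1900) (.e (nat_lit 204830) (nat_lit 18) (.e (nat_lit 57854) (nat_lit 252) (.e (nat_lit 57406) (nat_lit 12) (.e (nat_lit 336456) (nat_lit 34) (.e (nat_lit 483378) (nat_lit 23) .nil))))) (.g (nat_lit 0) (.e (nat_lit 223968) (nat_lit 0) .nil) .nil))) 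
(.lf (nat_lit 520935) (.g (nat_lit 1496) (.e (nat_lit 204836) (nat_lit 20) (.e (nat_lit 114719) (nat_lit 23) (.e (nat_lit 98366) (nat_lit 27) (.e (nat_lit 434233) (nat_lit 23) .nil)))) (.g (nat_lit 0) (.e (nat_lit 224640) (nat_lit 0) .nil) .nil)))) (.nd (nat_lit 9) 
(.lf (nat_lit 520679) (.g (nat_lit 2371) (.e (nat_lit 204831) (nat_lit 18) (.e (nat_lit 57844) (nat_lit 252) (.e (nat_lit 57406) (nat_lit 12) (.e (nat_lit 336456) (nat_lit 34) (.e (nat_lit 483391) (nat_lit 23) .nil))))) (.g (nat_lit 0) (.e (nat_lit 224297) (nat_lit 0) .nil) .nil))) 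
(.lf (nat_lit 521191) (.g (nat_lit 1501) (.e (nat_lit 204837) (nat_lit 20) (.e (nat_lit 114719) (nat_lit 23) (.e (nat_lit 98363) (nat_lit 26) (.e (nat_lit 426129) (nat_lit 3) .nil)))) (.g (nat_lit 0) (.e (nat_lit 225048) (nat_lit 0) .nil) .nil)))))))) (.nd (nat_lit 5) (.nd (nat_lit 6) (.nd (nat_lit 7) (.nd (nat_lit 8) (.nd (nat_lit 9) 
(.lf (nat_lit 520215) (.g (nat_lit 2801) (.e (nat_lit 204829) (nat_lit 18) (.e (nat_lit 57927) (nat_lit 282) (.e (nat_lit 163869) (nat_lit 2) (.e (nat_lit 196670) (nat_lit 14) (.e (nat_lit 73746) (nat_lit 3) (.e (nat_lit 516124) (nat_lit 2) (.e (nat_lit 213009) (nat_lit 9) (.e (nat_lit 2680) (nat_lit 168) .nil)))))))) (.g (nat_lit 1) (.e (nat_lit 223698) (nat_lit 0) .nil) .nil))) 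
(.lf (nat_lit 520727) (.g (nat_lit 3293) (.e (nat_lit 204831) (nat_lit 18) (.e (nat_lit 57849) (nat_lit 252) (.e (nat_lit 57372) (nat_lit 2) (.e (nat_lit 90160) (nat_lit 11) (.e (nat_lit 24608) (nat_lit 3) (.e (nat_lit 98321) (nat_lit 17) (.e (nat_lit 3771) (nat_lit 229) (.e (nat_lit 794673) (nat_lit 23) .nil)))))))) (.g (nat_lit 1) (.e (nat_lit 224347) (nat_lit 0) .nil) .nil)))) (.nd (nat_lit 9) 
(.lf (nat_lit 520471) (.g (nat_lit 3905) (.e (nat_lit 204830) (nat_lit 18) (.e (nat_lit 57926) (nat_lit 282) (.e (nat_lit 163868) (nat_lit 2) (.e (nat_lit 196668) (nat_lit 14) (.e (nat_lit 73746) (nat_lit 3) (.e (nat_lit 516124) (nat_lit 2) (.e (nat_lit 213019) (nat_lit 9) (.e (nat_lit 2683) (nat_lit 168) .nil)))))))) (.g (nat_lit 1) (.e (nat_lit 224025) (nat_lit 0) .nil) .nil))) 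
(.lf (nat_lit 520983) (.g (nat_lit 1481) (.e (nat_lit 204837) (nat_lit 20) (.e (nat_lit 114697) (nat_lit 11) (.e (nat_lit 426137) (nat_lit 3) (.e (nat_lit 204865) (nat_lit 28) (.e (nat_lit 360192) (nat_lit 3) .nil))))) (.g (nat_lit 1) (.e (nat_lit 224713) (nat_lit 0) .nil) .nil))))) (.nd (nat_lit 8) (.nd (nat_lit 9) 
(.lf (nat_lit 520343) (.g (nat_lit 3446) (.e (nat_lit 204829) (nat_lit 18) (.e (nat_lit 57931) (nat_lit 282) (.e (nat_lit 163869) (nat_lit 2) (.e (nat_lit 196670) (nat_lit 14) (.e (nat_lit 73748) (nat_lit 3) (.e (nat_lit 516131) (nat_lit 3) (.e (nat_lit 221215) (nat_lit 23) .nil))))))) (.g (nat_lit 1) (.e (nat_lit 223844) (nat_lit 0) .nil) .nil))) 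
(.lf (nat_lit 520855) (.g (nat_lit 2617) (.e (nat_lit 204831) (nat_lit 18) (.e (nat_lit 57931) (nat_lit 282) (.e (nat_lit 163885) (nat_lit 5) (.e (nat_lit 221208) (nat_lit 21) (.e (nat_lit 164402) (nat_lit 256) (.e (nat_lit 57424) (nat_lit 14) (.e (nat_lit 360192) (nat_lit 3) .nil))))))) (.g (nat_lit 1) (.e (nat_lit 224523) (nat_lit 0) .nil) .nil)))) (.nd (nat_lit 9) 
(.lf (nat_lit 520599) (.g (nat_lit 2549) (.e (nat_lit 204830) (nat_lit 18) (.e (nat_lit 57929) (nat_lit 282) (.e (nat_lit 163869) (nat_lit 2) (.e (nat_lit 196670) (nat_lit 14) (.e (nat_lit 73746) (nat_lit 3) (.e (nat_lit 516124) (nat_lit 2) (.e (nat_lit 213019) (nat_lit 9) (.e (nat_lit 2675) (nat_lit 168) .nil)))))))) (.g (nat_lit 1) (.e (nat_lit 224176) (nat_lit 0) .nil) .nil))) 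
(.lf (nat_lit 521111) (.g (nat_lit 2497) (.e (nat_lit 204837) (nat_lit 20) (.e (nat_lit 114714) (nat_lit 22) (.e (nat_lit 90174) (nat_lit 14) (.e (nat_lit 180243) (nat_lit 5) (.e (nat_lit 532503) (nat_lit 1) (.e (nat_lit 57658) (nat_lit 152) (.e (nat_lit 2433) (nat_lit 157) (.e (nat_lit 2685) (nat_lit 168) .nil)))))))) (.g (nat_lit 1) (.e (nat_lit 224936) (nat_lit 0) .nil) .nil)))))) 
(.nd (nat_lit 7) (.nd (nat_lit 8) (.nd (nat_lit 9) 
(.lf (nat_lit 520279) (.g (nat_lit 1906) (.e (nat_lit 204829) (nat_lit 18) (.e (nat_lit 57927) (nat_lit 282) (.e (nat_lit 163874) (nat_lit 3) (.e (nat_lit 204853) (nat_lit 26) .nil)))) (.g (nat_lit 0) (.e (nat_lit 223769) (nat_lit 0) .nil) .nil))) 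
(.lf (nat_lit 520791) (.g (nat_lit 2524) (.e (nat_lit 204831) (nat_lit 18) (.e (nat_lit 57924) (nat_lit 282) (.e (nat_lit 163867) (nat_lit 2) (.e (nat_lit 196670) (nat_lit 14) (.e (nat_lit 73746) (nat_lit 3) (.e (nat_lit 516124) (nat_lit 2) (.e (nat_lit 213013) (nat_lit 9) (.e (nat_lit 2681) (nat_lit 168) .nil)))))))) (.g (nat_lit 1) (.e (nat_lit 224438) (nat_lit 0) .nil) .nil)))) 
(.nd (nat_lit 9) 
(.lf (nat_lit 520535) (.g (nat_lit 3113) (.e (nat_lit 204830) (nat_lit 18) (.e (nat_lit 57926) (nat_lit 282) (.e (nat_lit 163874) (nat_lit 3) (.e (nat_lit 204851) (nat_lit 26) (.e (nat_lit 336019) (nat_lit 3) (.e (nat_lit 98342) (nat_lit 20) (.e (nat_lit 221213) (nat_lit 23) .nil))))))) (.g (nat_lit 1) (.e (nat_lit 224100) (nat_lit 0) .nil) .nil))) 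
(.lf (nat_lit 521047) (.g (nat_lit 2149) (.e (nat_lit 204837) (nat_lit 20) (.e (nat_lit 114698) (nat_lit 11) (.e (nat_lit 426138) (nat_lit 3) (.e (nat_lit 204866) (nat_lit 28) (.e (nat_lit 360192) (nat_lit 3) .nil))))) (.g (nat_lit 1) (.e (nat_lit 224836) (nat_lit 0) .nil) .nil))))) (.nd (nat_lit 8) (.nd (nat_lit 9) 
(.lf (nat_lit 520407) (.g (nat_lit 958) (.e (nat_lit 204830) (nat_lit 18) (.e (nat_lit 57852) (nat_lit 252) (.e (nat_lit 57409) (nat_lit 12) (.e (nat_lit 336456) (nat_lit 34) .nil)))) (.g (nat_lit 0) (.e (nat_lit 223946) (nat_lit 0) .nil) .nil))) 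
(.lf (nat_lit 520919) (.g (nat_lit 1969) (.e (nat_lit 204836) (nat_lit 20) (.e (nat_lit 114715) (nat_lit 22) (.e (nat_lit 90170) (nat_lit 13) (.e (nat_lit 172138) (nat_lit 15) .nil)))) (.g (nat_lit 0) (.e (nat_lit 224617) (nat_lit 0) .nil) .nil)))) (.nd (nat_lit 9) 
(.lf (nat_lit 520663) (.g (nat_lit 1691) (.e (nat_lit 204831) (nat_lit 18) (.e (nat_lit 57691) (nat_lit 156) (.e (nat_lit 163907) (nat_lit 12) (.e (nat_lit 426491) (nat_lit 27) (.e (nat_lit 336409) (nat_lit 27) .nil))))) (.g (nat_lit 0) (.e (nat_lit 224269) (nat_lit 0) .nil) .nil))) 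
(.lf (nat_lit 521175) (.g (nat_lit 2850) (.e (nat_lit 204837) (nat_lit 20) (.e (nat_lit 114718) (nat_lit 23) (.e (nat_lit 98386) (nat_lit 32) (.e (nat_lit 475179) (nat_lit 24) (.e (nat_lit 516120) (nat_lit 1) (.e (nat_lit 164332) (nat_lit 230) (.e (nat_lit 163874) (nat_lit 3) .nil))))))) (.g (nat_lit 1) (.e (nat_lit 225023) (nat_lit 0) .nil) .nil))))))) 
(.nd (nat_lit 6) (.nd (nat_lit 7) (.nd (nat_lit 8) (.nd (nat_lit 9) 
(.lf (nat_lit 520247) (.g (nat_lit 3231) (.e (nat_lit 204829) (nat_lit 18) (.e (nat_lit 57927) (nat_lit 282) (.e (nat_lit 163869) (nat_lit 2) (.e (nat_lit 196670) (nat_lit 14) (.e (nat_lit 73746) (nat_lit 3) (.e (nat_lit 516127) (nat_lit 2) (.e (nat_lit 213019) (nat_lit 9) (.e (nat_lit 2676) (nat_lit 168) .nil)))))))) (.g (nat_lit 1) (.e (nat_lit 223730) (nat_lit 0) .nil) .nil))) 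
(.lf (nat_lit 520759) (.g (nat_lit 2904) (.e (nat_lit 204831) (nat_lit 18) (.e (nat_lit 57852) (nat_lit 252) (.e (nat_lit 57377) (nat_lit 3) (.e (nat_lit 98313) (nat_lit 9) (.e (nat_lit 336027) (nat_lit 3) (.e (nat_lit 98321) (nat_lit 17) (.e (nat_lit 3771) (nat_lit 229) (.e (nat_lit 794673) (nat_lit 23) .nil)))))))) (.g (nat_lit 1) (.e (nat_lit 224386) (nat_lit 0) .nil) .nil)))) (.nd (nat_lit 9) 
(.lf (nat_lit 520503) (.g (nat_lit 3130) (.e (nat_lit 204830) (nat_lit 18) (.e (nat_lit 57926) (nat_lit 282) (.e (nat_lit 163869) (nat_lit 2) (.e (nat_lit 196670) (nat_lit 14) (.e (nat_lit 73746) (nat_lit 3) (.e (nat_lit 516126) (nat_lit 2) (.e (nat_lit 213016) (nat_lit 9) (.e (nat_lit 2683) (nat_lit 168) .nil)))))))) (.g (nat_lit 1) (.e (nat_lit 224066) (nat_lit 0) .nil) .nil))) 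
(.lf (nat_lit 521015) (.g (nat_lit 2358) (.e (nat_lit 204837) (nat_lit 20) (.e (nat_lit 114698) (nat_lit 11) (.e (nat_lit 426132) (nat_lit 3) (.e (nat_lit 204861) (nat_lit 26) (.e (nat_lit 336076) (nat_lit 9) (.e (nat_lit 336326) (nat_lit 18) .nil)))))) (.g (nat_lit 1) (.e (nat_lit 224797) (nat_lit 0) .nil) .nil))))) (.nd (nat_lit 8) (.nd (nat_lit 9) 
(.lf (nat_lit 520375) (.g (nat_lit 1698) (.e (nat_lit 204830) (nat_lit 18) (.e (nat_lit 57691) (nat_lit 156) (.e (nat_lit 163913) (nat_lit 12) (.e (nat_lit 426483) (nat_lit 27) (.e (nat_lit 336443) (nat_lit 32) .nil))))) (.g (nat_lit 0) (.e (nat_lit 223899) (nat_lit 0) .nil) .nil))) 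
(.lf (nat_lit 520887) (.g (nat_lit 2212) (.e (nat_lit 204835) (nat_lit 19) (.e (nat_lit 106536) (nat_lit 11) (.e (nat_lit 16413) (nat_lit 2) (.e (nat_lit 196681) (nat_lit 17) (.e (nat_lit 131109) (nat_lit 9) (.e (nat_lit 336326) (nat_lit 18) .nil)))))) (.g (nat_lit 1) (.e (nat_lit 224581) (nat_lit 0) .nil) .nil)))) (.nd (nat_lit 9) 
(.lf (nat_lit 520631) (.g (nat_lit 1368) (.e (nat_lit 204831) (nat_lit 18) (.e (nat_lit 57686) (nat_lit 156) (.e (nat_lit 163903) (nat_lit 12) (.e (nat_lit 426479) (nat_lit 27) (.e (nat_lit 336443) (nat_lit 32) .nil))))) (.g (nat_lit 0) (.e (nat_lit 224212) (nat_lit 0) .nil) .nil))) 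
(.lf (nat_lit 521143) (.g (nat_lit 1035) (.e (nat_lit 204837) (nat_lit 20) (.e (nat_lit 114716) (nat_lit 22) (.e (nat_lit 90185) (nat_lit 17) (.e (nat_lit 237594) (nat_lit 3) .nil)))) (.g (nat_lit 0) (.e (nat_lit 224975) (nat_lit 0) .nil) .nil)))))) (.nd (nat_lit 7) (.nd (nat_lit 8) (.nd (nat_lit 9) 
(.lf (nat_lit 520311) (.g (nat_lit 3198) (.e (nat_lit 204829) (nat_lit 18) (.e (nat_lit 57931) (nat_lit 282) (.e (nat_lit 163867) (nat_lit 2) (.e (nat_lit 196663) (nat_lit 13) (.e (nat_lit 65571) (nat_lit 3) (.e (nat_lit 98341) (nat_lit 20) (.e (nat_lit 221213) (nat_lit 23) .nil))))))) (.g (nat_lit 1) (.e (nat_lit 223803) (nat_lit 0) .nil) .nil))) 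
(.lf (nat_lit 520823) (.g (nat_lit 2934) (.e (nat_lit 204831) (nat_lit 18) (.e (nat_lit 57931) (nat_lit 282) (.e (nat_lit 163867) (nat_lit 2) (.e (nat_lit 196670) (nat_lit 14) (.e (nat_lit 73748) (nat_lit 3) (.e (nat_lit 516131) (nat_lit 3) (.e (nat_lit 221215) (nat_lit 23) .nil))))))) (.g (nat_lit 1) (.e (nat_lit 224477) (nat_lit 0) .nil) .nil)))) (.nd (nat_lit 9) 
(.lf (nat_lit 520567) (.g (nat_lit 3681) (.e (nat_lit 204830) (nat_lit 18) (.e (nat_lit 57927) (nat_lit 282) (.e (nat_lit 163869) (nat_lit 2) (.e (nat_lit 196666) (nat_lit 13) (.e (nat_lit 65571) (nat_lit 3) (.e (nat_lit 98341) (nat_lit 20) (.e (nat_lit 221213) (nat_lit 23) .nil))))))) (.g (nat_lit 1) (.e (nat_lit 224136) (nat_lit 0) .nil) .nil))) 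
(.lf (nat_lit 521079) (.g (nat_lit 1122) (.e (nat_lit 204837) (nat_lit 20) (.e (nat_lit 114714) (nat_lit 22) (.e (nat_lit 90172) (nat_lit 14) (.e (nat_lit 180244) (nat_lit 5) .nil)))) (.g (nat_lit 0) (.e (nat_lit 224901) (nat_lit 0) .nil) .nil))))) (.nd (nat_lit 8) (.nd (nat_lit 9) 
(.lf (nat_lit 520439) (.g (nat_lit 743) (.e (nat_lit 204830) (nat_lit 18) (.e (nat_lit 57854) (nat_lit 252) (.e (nat_lit 57442) (nat_lit 18) .nil))) (.g (nat_lit 0) (.e (nat_lit 223985) (nat_lit 0) .nil) .nil))) 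
(.lf (nat_lit 520951) (.g (nat_lit 2647) (.e (nat_lit 204837) (nat_lit 20) (.e (nat_lit 114694) (nat_lit 11) (.e (nat_lit 426133) (nat_lit 3) (.e (nat_lit 204861) (nat_lit 26) (.e (nat_lit 336076) (nat_lit 9) (.e (nat_lit 336324) (nat_lit 18) .nil)))))) (.g (nat_lit 1) (.e (nat_lit 224657) (nat_lit 0) .nil) .nil)))) (.nd (nat_lit 9) 
(.lf (nat_lit 520695) (.g (nat_lit 1972) (.e (nat_lit 204831) (nat_lit 18) (.e (nat_lit 57846) (nat_lit 252) (.e (nat_lit 57447) (nat_lit 19) (.e (nat_lit 393224) (nat_lit 9) .nil)))) (.g (nat_lit 0) (.e (nat_lit 224313) (nat_lit 0) .nil) .nil))) 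
(.lf (nat_lit 521207) (.g (nat_lit 2169) (.e (nat_lit 204837) (nat_lit 20) (.e (nat_lit 114719) (nat_lit 23) (.e (nat_lit 98367) (nat_lit 27) (.e (nat_lit 434231) (nat_lit 23) (.e (nat_lit 532499) (nat_lit 1) (.e (nat_lit 57692) (nat_lit 156) (.e (nat_lit 163872) (nat_lit 3) .nil))))))) (.g (nat_lit 1) (.e (nat_lit 225071) (nat_lit 0) .nil) .nil))))))))) 
(.nd (nat_lit 4) (.nd (nat_lit 5) (.nd (nat_lit 6) (.nd (nat_lit 7) (.nd (nat_lit 8) 
(.nd (nat_lit 9) 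
(.lf (nat_lit 520207) (.g (nat_lit 2420) (.e (nat_lit 204829) (nat_lit 18) (.e (nat_lit 57927) (nat_lit 282) (.e (nat_lit 163869) (nat_lit 2) (.e (nat_lit 196670) (nat_lit 14) (.e (nat_lit 73746) (nat_lit 3) (.e (nat_lit 516122) (nat_lit 2) (.e (nat_lit 213016) (nat_lit 9) (.e (nat_lit 2683) (nat_lit 168) .nil)))))))) (.g (nat_lit 1) (.e (nat_lit 223690) (nat_lit 0) .nil) .nil))) 
(.lf (nat_lit 520719) (.g (nat_lit 1255) (.e (nat_lit 204831) (nat_lit 18) (.e (nat_lit 57847) (nat_lit 252) (.e (nat_lit 57448) (nat_lit 19) (.e (nat_lit 393221) (nat_lit 0) .nil)))) (.g (nat_lit 0) (.e (nat_lit 224338) (nat_lit 0) .nil) .nil)))) (.nd (nat_lit 9) 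
(.lf (nat_lit 520463) (.g (nat_lit 3322) (.e (nat_lit 204830) (nat_lit 18) (.e (nat_lit 57926) (nat_lit 282) (.e (nat_lit 163867) (nat_lit 2) (.e (nat_lit 196670) (nat_lit 14) (.e (nat_lit 73746) (nat_lit 3) (.e (nat_lit 516124) (nat_lit 2) (.e (nat_lit 213013) (nat_lit 9) (.e (nat_lit 2684) (nat_lit 168) .nil)))))))) (.g (nat_lit 1) (.e (nat_lit 224016) (nat_lit 0) .nil) .nil))) 
(.lf (nat_lit 520975) (.g (nat_lit 1920) (.e (nat_lit 204837) (nat_lit 20) (.e (nat_lit 114697) (nat_lit 11) (.e (nat_lit 426137) (nat_lit 3) (.e (nat_lit 204859) (nat_lit 26) (.e (nat_lit 336118) (nat_lit 9) (.e (nat_lit 336323) (nat_lit 18) .nil)))))) (.g (nat_lit 1) (.e (nat_lit 224705) (nat_lit 0) .nil) .nil))))) (.nd (nat_lit 8) (.nd (nat_lit 9) 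
(.lf (nat_lit 520335) (.g (nat_lit 3376) (.e (nat_lit 204829) (nat_lit 18) (.e (nat_lit 57931) (nat_lit 282) (.e (nat_lit 163869) (nat_lit 2) (.e (nat_lit 196670) (nat_lit 14) (.e (nat_lit 73746) (nat_lit 3) (.e (nat_lit 516124) (nat_lit 2) (.e (nat_lit 213016) (nat_lit 9) (.e (nat_lit 2683) (nat_lit 168) .nil)))))))) (.g (nat_lit 1) (.e (nat_lit 223836) (nat_lit 0) .nil) .nil))) 
(.lf (nat_lit 520847) (.g (nat_lit 2966) (.e (nat_lit 204831) (nat_lit 18) (.e (nat_lit 57931) (nat_lit 282) (.e (nat_lit 163869) (nat_lit 2) (.e (nat_lit 196670) (nat_lit 14) (.e (nat_lit 73748) (nat_lit 3) .nil))))) (.g (nat_lit 0) (.e (nat_lit 224511) (nat_lit 0) .nil) .nil)))) (.nd (nat_lit 9) 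
(.lf (nat_lit 520591) (.g (nat_lit 3138) (.e (nat_lit 204830) (nat_lit 18) (.e (nat_lit 57927) (nat_lit 282) (.e (nat_lit 163874) (nat_lit 3) (.e (nat_lit 204873) (nat_lit 30) (.e (nat_lit 368676) (nat_lit 21) (.e (nat_lit 516131) (nat_lit 3) (.e (nat_lit 221213) (nat_lit 23) .nil))))))) (.g (nat_lit 1) (.e (nat_lit 224167) (nat_lit 0) .nil) .nil))) 
(.lf (nat_lit 521103) (.g (nat_lit 2403) (.e (nat_lit 204837) (nat_lit 20) (.e (nat_lit 114714) (nat_lit 22) (.e (nat_lit 90174) (nat_lit 14) (.e (nat_lit 180243) (nat_lit 5) (.e (nat_lit 532501) (nat_lit 1) (.e (nat_lit 57662) (nat_lit 152) (.e (nat_lit 2450) (nat_lit 157) (.e (nat_lit 2685) (nat_lit 168) .nil)))))))) (.g (nat_lit 1) (.e (nat_lit 224928) (nat_lit 0) .nil) .nil)))))) 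
(.nd (nat_lit 7) (.nd (nat_lit 8) (.nd (nat_lit 9) 
(.lf (nat_lit 520271) (.g (nat_lit 2531) (.e (nat_lit 204829) (nat_lit 18) (.e (nat_lit 57927) (nat_lit 282) (.e (nat_lit 163871) (nat_lit 2) (.e (nat_lit 196670) (nat_lit 14) (.e (nat_lit 73746) (nat_lit 3) (.e (nat_lit 516124) (nat_lit 2) (.e (nat_lit 213022) (nat_lit 9) (.e (nat_lit 2683) (nat_lit 168) .nil)))))))) (.g (nat_lit 1) (.e (nat_lit 223760) (nat_lit 0) .nil) .nil))) 
(.lf (nat_lit 520783) (.g (nat_lit 1982) (.e (nat_lit 204831) (nat_lit 18) (.e (nat_lit 57854) (nat_lit 252) (.e (nat_lit 57406) (nat_lit 12) (.e (nat_lit 336456) (nat_lit 34) (.e (nat_lit 483387) (nat_lit 23) (.e (nat_lit 343808) (nat_lit 18) .nil)))))) (.g (nat_lit 1) (.e (nat_lit 224428) (nat_lit 0) .nil) .nil)))) (.nd (nat_lit 9) 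
(.lf (nat_lit 520527) (.g (nat_lit 4170) (.e (nat_lit 204830) (nat_lit 18) (.e (nat_lit 57926) (nat_lit 282) (.e (nat_lit 163871) (nat_lit 2) (.e (nat_lit 196668) (nat_lit 14) (.e (nat_lit 73747) (nat_lit 3) (.e (nat_lit 516131) (nat_lit 3) (.e (nat_lit 221213) (nat_lit 23) .nil))))))) (.g (nat_lit 1) (.e (nat_lit 224092) (nat_lit 0) .nil) .nil))) 
(.lf (nat_lit 521039) (.g (nat_lit 2617) (.e (nat_lit 204837) (nat_lit 20) (.e (nat_lit 114698) (nat_lit 11) (.e (nat_lit 426138) (nat_lit 3) (.e (nat_lit 204861) (nat_lit 26) (.e (nat_lit 336075) (nat_lit 9) (.e (nat_lit 336325) (nat_lit 18) .nil)))))) (.g (nat_lit 1) (.e (nat_lit 224827) (nat_lit 0) .nil) .nil))))) (.nd (nat_lit 8) (.nd (nat_lit 9) 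
(.lf (nat_lit 520399) (.g (nat_lit 3950) (.e (nat_lit 204830) (nat_lit 18) (.e (nat_lit 57852) (nat_lit 252) (.e (nat_lit 57377) (nat_lit 3) (.e (nat_lit 98317) (nat_lit 9) (.e (nat_lit 336027) (nat_lit 3) (.e (nat_lit 98321) (nat_lit 17) (.e (nat_lit 3771) (nat_lit 229) (.e (nat_lit 794673) (nat_lit 23) .nil)))))))) (.g (nat_lit 1) (.e (nat_lit 223937) (nat_lit 0) .nil) .nil))) 
(.lf (nat_lit 520911) (.g (nat_lit 1265) (.e (nat_lit 204836) (nat_lit 20) (.e (nat_lit 114698) (nat_lit 11) (.e (nat_lit 426139) (nat_lit 3) (.e (nat_lit 204865) (nat_lit 28) .nil)))) (.g (nat_lit 0) (.e (nat_lit 224608) (nat_lit 0) .nil) .nil)))) (.nd (nat_lit 9) 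
(.lf (nat_lit 520655) (.g (nat_lit 2281) (.e (nat_lit 204831) (nat_lit 18) (.e (nat_lit 57688) (nat_lit 156) (.e (nat_lit 163903) (nat_lit 12) (.e (nat_lit 426568) (nat_lit 34) (.e (nat_lit 393279) (nat_lit 23) (.e (nat_lit 426129) (nat_lit 3) .nil)))))) (.g (nat_lit 1) (.e (nat_lit 224244) (nat_lit 0) .nil) .nil))) 
(.lf (nat_lit 521167) (.g (nat_lit 2238) (.e (nat_lit 204837) (nat_lit 20) (.e (nat_lit 114718) (nat_lit 23) (.e (nat_lit 98377) (nat_lit 30) (.e (nat_lit 458789) (nat_lit 23) (.e (nat_lit 532502) (nat_lit 1) .nil))))) (.g (nat_lit 0) (.e (nat_lit 225013) (nat_lit 0) .nil) .nil))))))) (.nd (nat_lit 6) (.nd (nat_lit 7) (.nd (nat_lit 8) (.nd (nat_lit 9) 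
(.lf (nat_lit 520239) (.g (nat_lit 3243) (.e (nat_lit 204829) (nat_lit 18) (.e (nat_lit 57927) (nat_lit 282) (.e (nat_lit 163869) (nat_lit 2) (.e (nat_lit 196670) (nat_lit 14) (.e (nat_lit 73746) (nat_lit 3) (.e (nat_lit 516126) (nat_lit 2) (.e (nat_lit 213022) (nat_lit 9) (.e (nat_lit 2683) (nat_lit 168) .nil)))))))) (.g (nat_lit 1) (.e (nat_lit 223722) (nat_lit 0) .nil) .nil))) 
(.lf (nat_lit 520751) (.g (nat_lit 3637) (.e (nat_lit 204831) (nat_lit 18) (.e (nat_lit 57849) (nat_lit 252) (.e (nat_lit 57447) (nat_lit 19) (.e (nat_lit 393229) (nat_lit 9) (.e (nat_lit 336077) (nat_lit 9) .nil))))) (.g (nat_lit 0) (.e (nat_lit 224376) (nat_lit 0) .nil) .nil)))) (.nd (nat_lit 9) 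
(.lf (nat_lit 520495) (.g (nat_lit 3096) (.e (nat_lit 204830) (nat_lit 18) (.e (nat_lit 57926) (nat_lit 282) (.e (nat_lit 163869) (nat_lit 2) (.e (nat_lit 196670) (nat_lit 14) (.e (nat_lit 73746) (nat_lit 3) (.e (nat_lit 516124) (nat_lit 2) (.e (nat_lit 213018) (nat_lit 9) (.e (nat_lit 2681) (nat_lit 168) .nil)))))))) (.g (nat_lit 1) (.e (nat_lit 224058) (nat_lit 0) .nil) .nil))) 
(.lf (nat_lit 521007) (.g (nat_lit 1636) (.e (nat_lit 204837) (nat_lit 20) (.e (nat_lit 114697) (nat_lit 11) (.e (nat_lit 426139) (nat_lit 3) (.e (nat_lit 204877) (nat_lit 31) (.e (nat_lit 384768) (nat_lit 3) .nil))))) (.g (nat_lit 1) (.e (nat_lit 224741) (nat_lit 0) .nil) .nil))))) (.nd (nat_lit 8) (.nd (nat_lit 9) 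
(.lf (nat_lit 520367) (.g (nat_lit 3155) (.e (nat_lit 204830) (nat_lit 18) (.e (nat_lit 57691) (nat_lit 156) (.e (nat_lit 163907) (nat_lit 12) (.e (nat_lit 426479) (nat_lit 27) (.e (nat_lit 336443) (nat_lit 32) (.e (nat_lit 466981) (nat_lit 23) .nil)))))) (.g (nat_lit 1) (.e (nat_lit 223886) (nat_lit 0) .nil) .nil))) 
(.lf (nat_lit 520879) (.g (nat_lit 3011) (.e (nat_lit 204835) (nat_lit 19) (.e (nat_lit 106534) (nat_lit 11) (.e (nat_lit 16416) (nat_lit 3) (.e (nat_lit 204861) (nat_lit 26) (.e (nat_lit 336076) (nat_lit 9) (.e (nat_lit 336326) (nat_lit 18) .nil)))))) (.g (nat_lit 1) (.e (nat_lit 224570) (nat_lit 0) .nil) .nil)))) (.nd (nat_lit 9) 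
(.lf (nat_lit 520623) (.g (nat_lit 3416) (.e (nat_lit 204830) (nat_lit 18) (.e (nat_lit 57931) (nat_lit 282) (.e (nat_lit 163869) (nat_lit 2) (.e (nat_lit 196670) (nat_lit 14) (.e (nat_lit 73746) (nat_lit 3) (.e (nat_lit 516129) (nat_lit 3) (.e (nat_lit 221213) (nat_lit 23) .nil))))))) (.g (nat_lit 1) (.e (nat_lit 224201) (nat_lit 0) .nil) .nil))) 
(.lf (nat_lit 521135) (.g (nat_lit 3378) (.e (nat_lit 204837) (nat_lit 20) (.e (nat_lit 114716) (nat_lit 22) (.e (nat_lit 90174) (nat_lit 14) (.e (nat_lit 180243) (nat_lit 5) (.e (nat_lit 532499) (nat_lit 1) (.e (nat_lit 57654) (nat_lit 152) (.e (nat_lit 2399) (nat_lit 157) (.e (nat_lit 2685) (nat_lit 168) .nil)))))))) (.g (nat_lit 1) (.e (nat_lit 224967) (nat_lit 0) .nil) .nil)))))) 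
(.nd (nat_lit 7) (.nd (nat_lit 8) (.nd (nat_lit 9) 
(.lf (nat_lit 520303) (.g (nat_lit 2597) (.e (nat_lit 204829) (nat_lit 18) (.e (nat_lit 57928) (nat_lit 282) (.e (nat_lit 163871) (nat_lit 2) (.e (nat_lit 196668) (nat_lit 14) (.e (nat_lit 73747) (nat_lit 3) (.e (nat_lit 516124) (nat_lit 2) (.e (nat_lit 213013) (nat_lit 9) (.e (nat_lit 2684) (nat_lit 168) .nil)))))))) (.g (nat_lit 1) (.e (nat_lit 223795) (nat_lit 0) .nil) .nil))) 
(.lf (nat_lit 520815) (.g (nat_lit 2552) (.e (nat_lit 204831) (nat_lit 18) (.e (nat_lit 57931) (nat_lit 282) (.e (nat_lit 163867) (nat_lit 2) (.e (nat_lit 196670) (nat_lit 14) (.e (nat_lit 73746) (nat_lit 3) (.e (nat_lit 516127) (nat_lit 2) (.e (nat_lit 213013) (nat_lit 9) (.e (nat_lit 2684) (nat_lit 168) .nil)))))))) (.g (nat_lit 1) (.e (nat_lit 224469) (nat_lit 0) .nil) .nil)))) 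
(.nd (nat_lit 9) 
(.lf (nat_lit 520559) (.g (nat_lit 3150) (.e (nat_lit 204830) (nat_lit 18) (.e (nat_lit 57927) (nat_lit 282) (.e (nat_lit 163868) (nat_lit 2) (.e (nat_lit 196668) (nat_lit 14) (.e (nat_lit 73746) (nat_lit 3) (.e (nat_lit 516131) (nat_lit 3) (.e (nat_lit 221213) (nat_lit 23) .nil))))))) (.g (nat_lit 1) (.e (nat_lit 224127) (nat_lit 0) .nil) .nil))) 
(.lf (nat_lit 521071) (.g (nat_lit 2056) (.e (nat_lit 204837) (nat_lit 20) (.e (nat_lit 114714) (nat_lit 22) (.e (nat_lit 90170) (nat_lit 13) (.e (nat_lit 172065) (nat_lit 3) (.e (nat_lit 204830) (nat_lit 18) .nil))))) (.g (nat_lit 0) (.e (nat_lit 224892) (nat_lit 0) .nil) .nil))))) (.nd (nat_lit 8) (.nd (nat_lit 9) 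
(.lf (nat_lit 520431) (.g (nat_lit 1791) (.e (nat_lit 204830) (nat_lit 18) (.e (nat_lit 57854) (nat_lit 252) (.e (nat_lit 57409) (nat_lit 12) (.e (nat_lit 336456) (nat_lit 34) (.e (nat_lit 483346) (nat_lit 17) .nil))))) (.g (nat_lit 0) (.e (nat_lit 223977) (nat_lit 0) .nil) .nil))) 
(.lf (nat_lit 520943) (.g (nat_lit 1668) (.e (nat_lit 204836) (nat_lit 20) (.e (nat_lit 114719) (nat_lit 23) (.e (nat_lit 98367) (nat_lit 27) (.e (nat_lit 434234) (nat_lit 23) .nil)))) (.g (nat_lit 0) (.e (nat_lit 224648) (nat_lit 0) .nil) .nil)))) (.nd (nat_lit 9) 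
(.lf (nat_lit 520687) (.g (nat_lit 2182) (.e (nat_lit 204831) (nat_lit 18) (.e (nat_lit 57846) (nat_lit 252) (.e (nat_lit 57407) (nat_lit 12) (.e (nat_lit 336456) (nat_lit 34) (.e (nat_lit 483384) (nat_lit 23) .nil))))) (.g (nat_lit 0) (.e (nat_lit 224305) (nat_lit 0) .nil) .nil))) 
(.lf (nat_lit 521199) (.g (nat_lit 2297) (.e (nat_lit 204837) (nat_lit 20) (.e (nat_lit 114719) (nat_lit 23) (.e (nat_lit 98366) (nat_lit 27) (.e (nat_lit 434231) (nat_lit 23) (.e (nat_lit 532499) (nat_lit 1) (.e (nat_lit 57688) (nat_lit 156) (.e (nat_lit 163872) (nat_lit 3) .nil))))))) (.g (nat_lit 1) (.e (nat_lit 225062) (nat_lit 0) .nil) .nil)))))))) 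
(.nd (nat_lit 5) (.nd (nat_lit 6) (.nd (nat_lit 7) (.nd (nat_lit 8) (.nd (nat_lit 9) 
(.lf (nat_lit 520223) (.g (nat_lit 2948) (.e (nat_lit 204829) (nat_lit 18) (.e (nat_lit 57927) (nat_lit 282) (.e (nat_lit 163869) (nat_lit 2) (.e (nat_lit 196670) (nat_lit 14) (.e (nat_lit 73746) (nat_lit 3) (.e (nat_lit 516124) (nat_lit 2) (.e (nat_lit 213018) (nat_lit 9) (.e (nat_lit 2681) (nat_lit 168) .nil)))))))) (.g (nat_lit 1) (.e (nat_lit 223706) (nat_lit 0) .nil) .nil))) 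
(.lf (nat_lit 520735) (.g (nat_lit 1699) (.e (nat_lit 204831) (nat_lit 18) (.e (nat_lit 57849) (nat_lit 252) (.e (nat_lit 57407) (nat_lit 12) (.e (nat_lit 336375) (nat_lit 27) (.e (nat_lit 426524) (nat_lit 27) .nil))))) (.g (nat_lit 0) (.e (nat_lit 224359) (nat_lit 0) .nil) .nil)))) (.nd (nat_lit 9) 
(.lf (nat_lit 520479) (.g (nat_lit 3614) (.e (nat_lit 204830) (nat_lit 18) (.e (nat_lit 57926) (nat_lit 282) (.e (nat_lit 163868) (nat_lit 2) (.e (nat_lit 196670) (nat_lit 14) (.e (nat_lit 73746) (nat_lit 3) (.e (nat_lit 516129) (nat_lit 3) (.e (nat_lit 221213) (nat_lit 23) .nil))))))) (.g (nat_lit 1) (.e (nat_lit 224033) (nat_lit 0) .nil) .nil))) 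
(.lf (nat_lit 520991) (.g (nat_lit 2262) (.e (nat_lit 204837) (nat_lit 20) (.e (nat_lit 114697) (nat_lit 11) (.e (nat_lit 426138) (nat_lit 3) (.e (nat_lit 204861) (nat_lit 26) (.e (nat_lit 336076) (nat_lit 9) (.e (nat_lit 336325) (nat_lit 18) .nil)))))) (.g (nat_lit 1) (.e (nat_lit 224723) (nat_lit 0) .nil) .nil))))) (.nd (nat_lit 8) (.nd (nat_lit 9) 
(.lf (nat_lit 520351) (.g (nat_lit 1810) (.e (nat_lit 204830) (nat_lit 18) (.e (nat_lit 57685) (nat_lit 156) (.e (nat_lit 163902) (nat_lit 12) (.e (nat_lit 426568) (nat_lit 34) (.e (nat_lit 393279) (nat_lit 23) .nil))))) (.g (nat_lit 0) (.e (nat_lit 223862) (nat_lit 0) .nil) .nil))) 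
(.lf (nat_lit 520863) (.g (nat_lit 906) (.e (nat_lit 204833) (nat_lit 19) (.e (nat_lit 106536) (nat_lit 11) (.e (nat_lit 16413) (nat_lit 2) .nil))) (.g (nat_lit 0) (.e (nat_lit 224539) (nat_lit 0) .nil) .nil)))) (.nd (nat_lit 9) 
(.lf (nat_lit 520607) (.g (nat_lit 3221) (.e (nat_lit 204830) (nat_lit 18) (.e (nat_lit 57931) (nat_lit 282) (.e (nat_lit 163867) (nat_lit 2) (.e (nat_lit 196668) (nat_lit 14) (.e (nat_lit 73746) (nat_lit 3) (.e (nat_lit 516131) (nat_lit 3) (.e (nat_lit 221214) (nat_lit 23) .nil))))))) (.g (nat_lit 1) (.e (nat_lit 224184) (nat_lit 0) .nil) .nil))) 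
(.lf (nat_lit 521119) (.g (nat_lit 1313) (.e (nat_lit 204837) (nat_lit 20) (.e (nat_lit 114714) (nat_lit 22) (.e (nat_lit 90185) (nat_lit 17) (.e (nat_lit 237594) (nat_lit 3) .nil)))) (.g (nat_lit 0) (.e (nat_lit 224946) (nat_lit 0) .nil) .nil)))))) (.nd (nat_lit 7) (.nd (nat_lit 8) (.nd (nat_lit 9) 
(.lf (nat_lit 520287) (.g (nat_lit 3273) (.e (nat_lit 204829) (nat_lit 18) (.e (nat_lit 57927) (nat_lit 282) (.e (nat_lit 163874) (nat_lit 3) (.e (nat_lit 204863) (nat_lit 27) (.e (nat_lit 344117) (nat_lit 21) (.e (nat_lit 516123) (nat_lit 2) (.e (nat_lit 213013) (nat_lit 9) (.e (nat_lit 2684) (nat_lit 168) .nil)))))))) (.g (nat_lit 1) (.e (nat_lit 223777) (nat_lit 0) .nil) .nil))) 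
(.lf (nat_lit 520799) (.g (nat_lit 2018) (.e (nat_lit 204831) (nat_lit 18) (.e (nat_lit 57931) (nat_lit 282) (.e (nat_lit 163866) (nat_lit 2) (.e (nat_lit 196668) (nat_lit 14) (.e (nat_lit 73746) (nat_lit 3) .nil))))) (.g (nat_lit 0) (.e (nat_lit 224447) (nat_lit 0) .nil) .nil)))) (.nd (nat_lit 9) 
(.lf (nat_lit 520543) (.g (nat_lit 3210) (.e (nat_lit 204830) (nat_lit 18) (.e (nat_lit 57926) (nat_lit 282) (.e (nat_lit 163875) (nat_lit 3) (.e (nat_lit 204862) (nat_lit 27) (.e (nat_lit 344117) (nat_lit 21) (.e (nat_lit 516123) (nat_lit 2) (.e (nat_lit 213022) (nat_lit 9) (.e (nat_lit 2683) (nat_lit 168) .nil)))))))) (.g (nat_lit 1) (.e (nat_lit 224110) (nat_lit 0) .nil) .nil))) 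
(.lf (nat_lit 521055) (.g (nat_lit 3470) (.e (nat_lit 204837) (nat_lit 20) (.e (nat_lit 114698) (nat_lit 11) (.e (nat_lit 426139) (nat_lit 3) (.e (nat_lit 204861) (nat_lit 26) (.e (nat_lit 336076) (nat_lit 9) (.e (nat_lit 336322) (nat_lit 18) .nil)))))) (.g (nat_lit 1) (.e (nat_lit 224844) (nat_lit 0) .nil) .nil))))) (.nd (nat_lit 8) (.nd (nat_lit 9) 
(.lf (nat_lit 520415) (.g (nat_lit 2358) (.e (nat_lit 204830) (nat_lit 18) (.e (nat_lit 57854) (nat_lit 252) (.e (nat_lit 57378) (nat_lit 3) (.e (nat_lit 98340) (nat_lit 20) .nil)))) (.g (nat_lit 0) (.e (nat_lit 223960) (nat_lit 0) .nil) .nil))) 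
(.lf (nat_lit 520927) (.g (nat_lit 2147) (.e (nat_lit 204836) (nat_lit 20) (.e (nat_lit 114718) (nat_lit 23) (.e (nat_lit 98367) (nat_lit 27) (.e (nat_lit 434232) (nat_lit 23) (.e (nat_lit 532503) (nat_lit 1) .nil))))) (.g (nat_lit 0) (.e (nat_lit 224626) (nat_lit 0) .nil) .nil)))) (.nd (nat_lit 9) 
(.lf (nat_lit 520671) (.g (nat_lit 1184) (.e (nat_lit 204831) (nat_lit 18) (.e (nat_lit 57830) (nat_lit 250) (.e (nat_lit 1201) (nat_lit 88) (.e (nat_lit 65543) (nat_lit 0) .nil)))) (.g (nat_lit 0) (.e (nat_lit 224287) (nat_lit 0) .nil) .nil))) 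
(.lf (nat_lit 521183) (.g (nat_lit 3898) (.e (nat_lit 204837) (nat_lit 20) (.e (nat_lit 114719) (nat_lit 23) (.e (nat_lit 98356) (nat_lit 26) (.e (nat_lit 426436) (nat_lit 18) (.e (nat_lit 98335) (nat_lit 18) (.e (nat_lit 164305) (nat_lit 226) (.e (nat_lit 2433) (nat_lit 157) (.e (nat_lit 2685) (nat_lit 168) .nil)))))))) (.g (nat_lit 1) (.e (nat_lit 225040) (nat_lit 0) .nil) .nil))))))) 
(.nd (nat_lit 6) (.nd (nat_lit 7) (.nd (nat_lit 8) (.nd (nat_lit 9) 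
(.lf (nat_lit 520255) (.g (nat_lit 1975) (.e (nat_lit 204829) (nat_lit 18) (.e (nat_lit 57927) (nat_lit 282) (.e (nat_lit 163871) (nat_lit 2) (.e (nat_lit 196668) (nat_lit 14) (.e (nat_lit 73746) (nat_lit 3) .nil))))) (.g (nat_lit 0) (.e (nat_lit 223744) (nat_lit 0) .nil) .nil))) 
(.lf (nat_lit 520767) (.g (nat_lit 2372) (.e (nat_lit 204831) (nat_lit 18) (.e (nat_lit 57852) (nat_lit 252) (.e (nat_lit 57409) (nat_lit 12) (.e (nat_lit 336454) (nat_lit 34) (.e (nat_lit 483379) (nat_lit 23) .nil))))) (.g (nat_lit 0) (.e (nat_lit 224394) (nat_lit 0) .nil) .nil)))) (.nd (nat_lit 9) 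
(.lf (nat_lit 520511) (.g (nat_lit 2187) (.e (nat_lit 204830) (nat_lit 18) (.e (nat_lit 57926) (nat_lit 282) (.e (nat_lit 163869) (nat_lit 2) (.e (nat_lit 196670) (nat_lit 14) (.e (nat_lit 73748) (nat_lit 3) .nil))))) (.g (nat_lit 0) (.e (nat_lit 224074) (nat_lit 0) .nil) .nil))) 
(.lf (nat_lit 521023) (.g (nat_lit 2714) (.e (nat_lit 204837) (nat_lit 20) (.e (nat_lit 114698) (nat_lit 11) (.e (nat_lit 426133) (nat_lit 3) (.e (nat_lit 204861) (nat_lit 26) (.e (nat_lit 336086) (nat_lit 9) (.e (nat_lit 336324) (nat_lit 18) .nil)))))) (.g (nat_lit 1) (.e (nat_lit 224806) (nat_lit 0) .nil) .nil))))) (.nd (nat_lit 8) (.nd (nat_lit 9) 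
(.lf (nat_lit 520383) (.g (nat_lit 2641) (.e (nat_lit 204830) (nat_lit 18) (.e (nat_lit 57692) (nat_lit 156) (.e (nat_lit 163907) (nat_lit 12) (.e (nat_lit 426479) (nat_lit 27) (.e (nat_lit 336443) (nat_lit 32) (.e (nat_lit 466981) (nat_lit 23) .nil)))))) (.g (nat_lit 1) (.e (nat_lit 223916) (nat_lit 0) .nil) .nil))) 
(.lf (nat_lit 520895) (.g (nat_lit 1179) (.e (nat_lit 204836) (nat_lit 20) (.e (nat_lit 114697) (nat_lit 11) (.e (nat_lit 426133) (nat_lit 3) (.e (nat_lit 204861) (nat_lit 26) .nil)))) (.g (nat_lit 0) (.e (nat_lit 224589) (nat_lit 0) .nil) .nil)))) (.nd (nat_lit 9) 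
(.lf (nat_lit 520639) (.g (nat_lit 2149) (.e (nat_lit 204831) (nat_lit 18) (.e (nat_lit 57687) (nat_lit 156) (.e (nat_lit 163907) (nat_lit 12) (.e (nat_lit 426479) (nat_lit 27) (.e (nat_lit 336430) (nat_lit 29) .nil))))) (.g (nat_lit 0) (.e (nat_lit 224222) (nat_lit 0) .nil) .nil))) 
(.lf (nat_lit 521151) (.g (nat_lit 4137) (.e (nat_lit 204837) (nat_lit 20) (.e (nat_lit 114718) (nat_lit 23) (.e (nat_lit 98356) (nat_lit 26) (.e (nat_lit 426438) (nat_lit 18) (.e (nat_lit 98334) (nat_lit 18) (.e (nat_lit 164330) (nat_lit 230) (.e (nat_lit 163872) (nat_lit 3) .nil))))))) (.g (nat_lit 1) (.e (nat_lit 224994) (nat_lit 0) .nil) .nil)))))) 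
(.nd (nat_lit 7) (.nd (nat_lit 8) (.nd (nat_lit 9) 
(.lf (nat_lit 520319) (.g (nat_lit 4070) (.e (nat_lit 204829) (nat_lit 18) (.e (nat_lit 57931) (nat_lit 282) (.e (nat_lit 163867) (nat_lit 2) (.e (nat_lit 196670) (nat_lit 14) (.e (nat_lit 73746) (nat_lit 3) (.e (nat_lit 516124) (nat_lit 2) (.e (nat_lit 213019) (nat_lit 9) (.e (nat_lit 2681) (nat_lit 168) .nil)))))))) (.g (nat_lit 1) (.e (nat_lit 223815) (nat_lit 0) .nil) .nil))) 
(.lf (nat_lit 520831) (.g (nat_lit 3427) (.e (nat_lit 204831) (nat_lit 18) (.e (nat_lit 57931) (nat_lit 282) (.e (nat_lit 163869) (nat_lit 2) (.e (nat_lit 196668) (nat_lit 14) (.e (nat_lit 73747) (nat_lit 3) (.e (nat_lit 516131) (nat_lit 3) (.e (nat_lit 221213) (nat_lit 23) .nil))))))) (.g (nat_lit 1) (.e (nat_lit 224495) (nat_lit 0) .nil) .nil)))) (.nd (nat_lit 9) 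
(.lf (nat_lit 520575) (.g (nat_lit 3963) (.e (nat_lit 204830) (nat_lit 18) (.e (nat_lit 57927) (nat_lit 282) (.e (nat_lit 163869) (nat_lit 2) (.e (nat_lit 196670) (nat_lit 14) (.e (nat_lit 73746) (nat_lit 3) (.e (nat_lit 516131) (nat_lit 3) (.e (nat_lit 221213) (nat_lit 23) .nil))))))) (.g (nat_lit 1) (.e (nat_lit 224146) (nat_lit 0) .nil) .nil))) 
(.lf (nat_lit 521087) (.g (nat_lit 2542) (.e (nat_lit 204837) (nat_lit 20) (.e (nat_lit 114714) (nat_lit 22) (.e (nat_lit 90172) (nat_lit 14) (.e (nat_lit 180244) (nat_lit 5) (.e (nat_lit 532503) (nat_lit 1) (.e (nat_lit 57652) (nat_lit 152) (.e (nat_lit 2399) (nat_lit 157) (.e (nat_lit 2685) (nat_lit 168) .nil)))))))) (.g (nat_lit 1) (.e (nat_lit 224909) (nat_lit 0) .nil) .nil))))) 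
(.nd (nat_lit 8) (.nd (nat_lit 9) 
(.lf (nat_lit 520447) (.g (nat_lit 2916) (.e (nat_lit 204830) (nat_lit 18) (.e (nat_lit 57924) (nat_lit 282) (.e (nat_lit 163867) (nat_lit 2) (.e (nat_lit 196668) (nat_lit 14) (.e (nat_lit 73747) (nat_lit 3) (.e (nat_lit 516129) (nat_lit 3) (.e (nat_lit 221213) (nat_lit 23) .nil))))))) (.g (nat_lit 1) (.e (nat_lit 223995) (nat_lit 0) .nil) .nil))) 
(.lf (nat_lit 520959) (.g (nat_lit 1147) (.e (nat_lit 204837) (nat_lit 20) (.e (nat_lit 114696) (nat_lit 11) (.e (nat_lit 426129) (nat_lit 3) (.e (nat_lit 204877) (nat_lit 31) (.e (nat_lit 384768) (nat_lit 3) .nil))))) (.g (nat_lit 1) (.e (nat_lit 224669) (nat_lit 0) .nil) .nil)))) (.nd (nat_lit 9) 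
(.lf (nat_lit 520703) (.g (nat_lit 3526) (.e (nat_lit 204831) (nat_lit 18) (.e (nat_lit 57847) (nat_lit 252) (.e (nat_lit 57406) (nat_lit 12) (.e (nat_lit 336454) (nat_lit 34) (.e (nat_lit 483383) (nat_lit 23) .nil))))) (.g (nat_lit 0) (.e (nat_lit 224321) (nat_lit 0) .nil) .nil))) 
(.lf (nat_lit 521215) (.g (nat_lit 2084) (.e (nat_lit 204837) (nat_lit 20) (.e (nat_lit 114719) (nat_lit 23) (.e (nat_lit 98376) (nat_lit 30) (.e (nat_lit 458789) (nat_lit 23) (.e (nat_lit 532502) (nat_lit 1) .nil))))) (.g (nat_lit 0) (.e (nat_lit 225079) (nat_lit 0) .nil) .nil)))))))))))))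

noncomputable def tv5569 : DT := (.nd (nat_lit 0) (.nd (nat_lit 1) (.nd (nat_lit 2) (.nd (nat_lit 3) (.nd (nat_lit 4) (.nd (nat_lit 5) (.nd (nat_lit 6) (.nd (nat_lit 7) (.nd (nat_lit 8) (.nd (nat_lit 9) 
(.lf (nat_lit 521216) (.g (nat_lit 2337) (.e (nat_lit 204837) (nat_lit 20) (.e (nat_lit 114719) (nat_lit 23) (.e (nat_lit 98377) (nat_lit 30) (.e (nat_lit 458789) (nat_lit 23) (.e (nat_lit 532502) (nat_lit 1) .nil))))) (.g (nat_lit 0) (.e (nat_lit 225080) (nat_lit 0) .nil) .nil))) 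
(.lf (nat_lit 521728) (.g (nat_lit 2877) (.e (nat_lit 204845) (nat_lit 24) (.e (nat_lit 319533) (nat_lit 16) (.e (nat_lit 286735) (nat_lit 3) (.e (nat_lit 98371) (nat_lit 28) (.e (nat_lit 442427) (nat_lit 23) .nil))))) (.g (nat_lit 1) (.e (nat_lit 225976) (nat_lit 0) .nil) .nil)))) (.nd (nat_lit 9) 
(.lf (nat_lit 521472) (.g (nat_lit 3294) (.e (nat_lit 204838) (nat_lit 20) (.e (nat_lit 114716) (nat_lit 22) (.e (nat_lit 90185) (nat_lit 17) (.e (nat_lit 237594) (nat_lit 3) (.e (nat_lit 204829) (nat_lit 18) (.e (nat_lit 57688) (nat_lit 156) (.e (nat_lit 163872) (nat_lit 3) .nil))))))) (.g (nat_lit 1) (.e (nat_lit 225577) (nat_lit 0) .nil) .nil))) 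
(.lf (nat_lit 521984) (.g (nat_lit 2598) (.e (nat_lit 204846) (nat_lit 24) (.e (nat_lit 319533) (nat_lit 16) (.e (nat_lit 286734) (nat_lit 3) (.e (nat_lit 98350) (nat_lit 24) (.e (nat_lit 409603) (nat_lit 0) .nil))))) (.g (nat_lit 0) (.e (nat_lit 226363) (nat_lit 0) .nil) .nil))))) (.nd (nat_lit 8) (.nd (nat_lit 9) 
(.lf (nat_lit 521344) (.g (nat_lit 3210) (.e (nat_lit 204838) (nat_lit 20) (.e (nat_lit 114698) (nat_lit 11) (.e (nat_lit 426139) (nat_lit 3) (.e (nat_lit 204861) (nat_lit 26) (.e (nat_lit 336075) (nat_lit 9) (.e (nat_lit 336325) (nat_lit 18) .nil)))))) (.g (nat_lit 1) (.e (nat_lit 225323) (nat_lit 0) .nil) .nil))) 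
(.lf (nat_lit 521856) (.g (nat_lit 2900) (.e (nat_lit 204846) (nat_lit 24) (.e (nat_lit 319530) (nat_lit 16) (.e (nat_lit 286735) (nat_lit 3) (.e (nat_lit 98363) (nat_lit 26) (.e (nat_lit 426230) (nat_lit 9) (.e (nat_lit 433920) (nat_lit 3) .nil)))))) (.g (nat_lit 1) (.e (nat_lit 226176) (nat_lit 0) .nil) .nil)))) (.nd (nat_lit 9) 
(.lf (nat_lit 521600) (.g (nat_lit 3976) (.e (nat_lit 204845) (nat_lit 24) (.e (nat_lit 319529) (nat_lit 16) (.e (nat_lit 286733) (nat_lit 2) (.e (nat_lit 90177) (nat_lit 15) (.e (nat_lit 188452) (nat_lit 23) .nil))))) (.g (nat_lit 1) (.e (nat_lit 225811) (nat_lit 0) .nil) .nil))) 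
(.lf (nat_lit 522112) (.g (nat_lit 1573) (.e (nat_lit 204846) (nat_lit 24) (.e (nat_lit 319534) (nat_lit 16) (.e (nat_lit 286735) (nat_lit 3) (.e (nat_lit 98325) (nat_lit 17) .nil)))) (.g (nat_lit 0) (.e (nat_lit 226517) (nat_lit 0) .nil) .nil)))))) (.nd (nat_lit 7) (.nd (nat_lit 8) (.nd (nat_lit 9) 
(.lf (nat_lit 521280) (.g (nat_lit 1185) (.e (nat_lit 204838) (nat_lit 20) (.e (nat_lit 114697) (nat_lit 11) (.e (nat_lit 426138) (nat_lit 3) (.e (nat_lit 204876) (nat_lit 31) (.e (nat_lit 384768) (nat_lit 3) .nil))))) (.g (nat_lit 1) (.e (nat_lit 225196) (nat_lit 0) .nil) .nil))) 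
(.lf (nat_lit 521792) (.g (nat_lit 1672) (.e (nat_lit 204846) (nat_lit 24) (.e (nat_lit 319528) (nat_lit 16) (.e (nat_lit 286735) (nat_lit 3) (.e (nat_lit 98363) (nat_lit 26) (.e (nat_lit 426258) (nat_lit 9) (.e (nat_lit 426129) (nat_lit 3) .nil)))))) (.g (nat_lit 1) (.e (nat_lit 226084) (nat_lit 0) .nil) .nil)))) (.nd (nat_lit 9) 
(.lf (nat_lit 521536) (.g (nat_lit 3565) (.e (nat_lit 204838) (nat_lit 20) (.e (nat_lit 114719) (nat_lit 23) (.e (nat_lit 98366) (nat_lit 27) (.e (nat_lit 434231) (nat_lit 23) (.e (nat_lit 532500) (nat_lit 1) (.e (nat_lit 57685) (nat_lit 156) (.e (nat_lit 163875) (nat_lit 3) .nil))))))) (.g (nat_lit 1) (.e (nat_lit 225686) (nat_lit 0) .nil) .nil))) 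
(.lf (nat_lit 522048) (.g (nat_lit 2394) (.e (nat_lit 204846) (nat_lit 24) (.e (nat_lit 319533) (nat_lit 16) (.e (nat_lit 286735) (nat_lit 3) (.e (nat_lit 98368) (nat_lit 27) (.e (nat_lit 442112) (nat_lit 8) .nil))))) (.g (nat_lit 0) (.e (nat_lit 226433) (nat_lit 0) .nil) .nil))))) (.nd (nat_lit 8) (.nd (nat_lit 9) 
(.lf (nat_lit 521408) (.g (nat_lit 4331) (.e (nat_lit 204838) (nat_lit 20) (.e (nat_lit 114715) (nat_lit 22) (.e (nat_lit 90170) (nat_lit 13) (.e (nat_lit 172065) (nat_lit 3) (.e (nat_lit 204829) (nat_lit 18) (.e (nat_lit 57688) (nat_lit 156) (.e (nat_lit 163875) (nat_lit 3) .nil))))))) (.g (nat_lit 1) (.e (nat_lit 225454) (nat_lit 0) .nil) .nil))) 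
(.lf (nat_lit 521920) (.g (nat_lit 2633) (.e (nat_lit 204846) (nat_lit 24) (.e (nat_lit 319531) (nat_lit 16) (.e (nat_lit 286735) (nat_lit 3) (.e (nat_lit 98367) (nat_lit 27) (.e (nat_lit 434183) (nat_lit 8) .nil))))) (.g (nat_lit 0) (.e (nat_lit 226253) (nat_lit 0) .nil) .nil)))) (.nd (nat_lit 9) 
(.lf (nat_lit 521664) (.g (nat_lit 2950) (.e (nat_lit 204845) (nat_lit 24) (.e (nat_lit 319530) (nat_lit 16) (.e (nat_lit 286735) (nat_lit 3) (.e (nat_lit 98379) (nat_lit 31) (.e (nat_lit 466981) (nat_lit 23) .nil))))) (.g (nat_lit 1) (.e (nat_lit 225897) (nat_lit 0) .nil) .nil))) 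
(.lf (nat_lit 522176) (.g (nat_lit 4670) (.e (nat_lit 204848) (nat_lit 25) (.e (nat_lit 327715) (nat_lit 16) (.e (nat_lit 286733) (nat_lit 2) (.e (nat_lit 90178) (nat_lit 15) (.e (nat_lit 188452) (nat_lit 23) .nil))))) (.g (nat_lit 1) (.e (nat_lit 226600) (nat_lit 0) .nil) .nil))))))) (.nd (nat_lit 6) (.nd (nat_lit 7) (.nd (nat_lit 8) (.nd (nat_lit 9) 
(.lf (nat_lit 521248) (.g (nat_lit 1067) (.e (nat_lit 204838) (nat_lit 20) (.e (nat_lit 114695) (nat_lit 11) (.e (nat_lit 426129) (nat_lit 3) (.e (nat_lit 204867) (nat_lit 28) (.e (nat_lit 360192) (nat_lit 3) .nil))))) (.g (nat_lit 1) (.e (nat_lit 225125) (nat_lit 0) .nil) .nil))) 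
(.lf (nat_lit 521760) (.g (nat_lit 1721) (.e (nat_lit 204846) (nat_lit 24) (.e (nat_lit 319491) (nat_lit 0) (.e (nat_lit 5293) (nat_lit 298) (.e (nat_lit 1250) (nat_lit 92) (.e (nat_lit 98349) (nat_lit 24) .nil))))) (.g (nat_lit 0) (.e (nat_lit 226028) (nat_lit 0) .nil) .nil)))) (.nd (nat_lit 9) 
(.lf (nat_lit 521504) (.g (nat_lit 1245) (.e (nat_lit 204838) (nat_lit 20) (.e (nat_lit 114719) (nat_lit 23) (.e (nat_lit 98323) (nat_lit 17) (.e (nat_lit 3397) (nat_lit 211) .nil)))) (.g (nat_lit 0) (.e (nat_lit 225628) (nat_lit 0) .nil) .nil))) 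
(.lf (nat_lit 522016) (.g (nat_lit 3748) (.e (nat_lit 204846) (nat_lit 24) (.e (nat_lit 319533) (nat_lit 16) (.e (nat_lit 286735) (nat_lit 3) (.e (nat_lit 98350) (nat_lit 24) (.e (nat_lit 409603) (nat_lit 0) (.e (nat_lit 5626) (nat_lit 312) (.e (nat_lit 2685) (nat_lit 168) .nil))))))) (.g (nat_lit 1) (.e (nat_lit 226401) (nat_lit 0) .nil) .nil))))) (.nd (nat_lit 8) (.nd (nat_lit 9) 
(.lf (nat_lit 521376) (.g (nat_lit 3752) (.e (nat_lit 204838) (nat_lit 20) (.e (nat_lit 114714) (nat_lit 22) (.e (nat_lit 90172) (nat_lit 14) (.e (nat_lit 180244) (nat_lit 5) (.e (nat_lit 532499) (nat_lit 1) (.e (nat_lit 57692) (nat_lit 156) (.e (nat_lit 163872) (nat_lit 3) .nil))))))) (.g (nat_lit 1) (.e (nat_lit 225399) (nat_lit 0) .nil) .nil))) 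
(.lf (nat_lit 521888) (.g (nat_lit 1229) (.e (nat_lit 204846) (nat_lit 24) (.e (nat_lit 319531) (nat_lit 16) (.e (nat_lit 286735) (nat_lit 3) (.e (nat_lit 98323) (nat_lit 17) .nil)))) (.g (nat_lit 0) (.e (nat_lit 226221) (nat_lit 0) .nil) .nil)))) (.nd (nat_lit 9) 
(.lf (nat_lit 521632) (.g (nat_lit 2551) (.e (nat_lit 204845) (nat_lit 24) (.e (nat_lit 319530) (nat_lit 16) (.e (nat_lit 286732) (nat_lit 2) (.e (nat_lit 90170) (nat_lit 13) (.e (nat_lit 172095) (nat_lit 9) .nil))))) (.g (nat_lit 0) (.e (nat_lit 225854) (nat_lit 0) .nil) .nil))) 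
(.lf (nat_lit 522144) (.g (nat_lit 2673) (.e (nat_lit 204846) (nat_lit 24) (.e (nat_lit 319534) (nat_lit 16) (.e (nat_lit 286735) (nat_lit 3) (.e (nat_lit 98365) (nat_lit 26) (.e (nat_lit 426199) (nat_lit 9) (.e (nat_lit 426131) (nat_lit 3) .nil)))))) (.g (nat_lit 1) (.e (nat_lit 226549) (nat_lit 0) .nil) .nil)))))) (.nd (nat_lit 7) (.nd (nat_lit 8) (.nd (nat_lit 9) 
(.lf (nat_lit 521312) (.g (nat_lit 3391) (.e (nat_lit 204838) (nat_lit 20) (.e (nat_lit 114698) (nat_lit 11) (.e (nat_lit 426133) (nat_lit 3) (.e (nat_lit 204861) (nat_lit 26) (.e (nat_lit 336076) (nat_lit 9) (.e (nat_lit 336325) (nat_lit 18) .nil)))))) (.g (nat_lit 1) (.e (nat_lit 225284) (nat_lit 0) .nil) .nil))) 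
(.lf (nat_lit 521824) (.g (nat_lit 3139) (.e (nat_lit 204846) (nat_lit 24) (.e (nat_lit 319529) (nat_lit 16) (.e (nat_lit 286735) (nat_lit 3) (.e (nat_lit 98367) (nat_lit 27) (.e (nat_lit 442112) (nat_lit 8) (.e (nat_lit 2685) (nat_lit 168) .nil)))))) (.g (nat_lit 1) (.e (nat_lit 226131) (nat_lit 0) .nil) .nil)))) (.nd (nat_lit 9) 
(.lf (nat_lit 521568) (.g (nat_lit 3822) (.e (nat_lit 204838) (nat_lit 20) (.e (nat_lit 114719) (nat_lit 23) (.e (nat_lit 98386) (nat_lit 32) (.e (nat_lit 475179) (nat_lit 24) (.e (nat_lit 516115) (nat_lit 1) (.e (nat_lit 164325) (nat_lit 230) (.e (nat_lit 163875) (nat_lit 3) .nil))))))) (.g (nat_lit 1) (.e (nat_lit 225732) (nat_lit 0) .nil) .nil))) 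
(.lf (nat_lit 522080) (.g (nat_lit 3342) (.e (nat_lit 204846) (nat_lit 24) (.e (nat_lit 319534) (nat_lit 16) (.e (nat_lit 286733) (nat_lit 2) (.e (nat_lit 90170) (nat_lit 13) (.e (nat_lit 172092) (nat_lit 9) (.e (nat_lit 426132) (nat_lit 3) .nil)))))) (.g (nat_lit 1) (.e (nat_lit 226483) (nat_lit 0) .nil) .nil))))) (.nd (nat_lit 8) (.nd (nat_lit 9) 
(.lf (nat_lit 521440) (.g (nat_lit 3038) (.e (nat_lit 204838) (nat_lit 20) (.e (nat_lit 114716) (nat_lit 22) (.e (nat_lit 90172) (nat_lit 14) (.e (nat_lit 180244) (nat_lit 5) (.e (nat_lit 532501) (nat_lit 1) (.e (nat_lit 57690) (nat_lit 156) (.e (nat_lit 163872) (nat_lit 3) .nil))))))) (.g (nat_lit 1) (.e (nat_lit 225510) (nat_lit 0) .nil) .nil))) 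
(.lf (nat_lit 521952) (.g (nat_lit 2669) (.e (nat_lit 204846) (nat_lit 24) (.e (nat_lit 319532) (nat_lit 16) (.e (nat_lit 286735) (nat_lit 3) (.e (nat_lit 98350) (nat_lit 24) (.e (nat_lit 409603) (nat_lit 0) (.e (nat_lit 5664) (nat_lit 312) (.e (nat_lit 2679) (nat_lit 168) .nil))))))) (.g (nat_lit 1) (.e (nat_lit 226304) (nat_lit 0) .nil) .nil)))) (.nd (nat_lit 9) 
(.lf (nat_lit 521696) (.g (nat_lit 2424) (.e (nat_lit 204845) (nat_lit 24) (.e (nat_lit 319531) (nat_lit 16) (.e (nat_lit 286735) (nat_lit 3) (.e (nat_lit 98359) (nat_lit 26) (.e (nat_lit 426214) (nat_lit 9) .nil))))) (.g (nat_lit 0) (.e (nat_lit 225938) (nat_lit 0) .nil) .nil))) 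
(.lf (nat_lit 522208) (.g (nat_lit 401) (.e (nat_lit 204849) (nat_lit 25) (.e (nat_lit 327699) (nat_lit 8) (.e (nat_lit 303119) (nat_lit 3) .nil))) (.g (nat_lit 0) (.e (nat_lit 226657) (nat_lit 0) .nil) .nil)))))))) (.nd (nat_lit 5) (.nd (nat_lit 6) (.nd (nat_lit 7) (.nd (nat_lit 8) (.nd (nat_lit 9) 
(.lf (nat_lit 521232) (.g (nat_lit 3711) (.e (nat_lit 204838) (nat_lit 20) (.e (nat_lit 114694) (nat_lit 11) (.e (nat_lit 426133) (nat_lit 3) (.e (nat_lit 204861) (nat_lit 26) (.e (nat_lit 336076) (nat_lit 9) (.e (nat_lit 336324) (nat_lit 18) .nil)))))) (.g (nat_lit 1) (.e (nat_lit 225107) (nat_lit 0) .nil) .nil))) 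
(.lf (nat_lit 521744) (.g (nat_lit 1495) (.e (nat_lit 204845) (nat_lit 24) (.e (nat_lit 319534) (nat_lit 16) (.e (nat_lit 286735) (nat_lit 3) (.e (nat_lit 98371) (nat_lit 28) .nil)))) (.g (nat_lit 0) (.e (nat_lit 225998) (nat_lit 0) .nil) .nil)))) (.nd (nat_lit 9) 
(.lf (nat_lit 521488) (.g (nat_lit 1618) (.e (nat_lit 204838) (nat_lit 20) (.e (nat_lit 114718) (nat_lit 23) (.e (nat_lit 98367) (nat_lit 27) (.e (nat_lit 434232) (nat_lit 23) .nil)))) (.g (nat_lit 0) (.e (nat_lit 225607) (nat_lit 0) .nil) .nil))) 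
(.lf (nat_lit 522000) (.g (nat_lit 2283) (.e (nat_lit 204846) (nat_lit 24) (.e (nat_lit 319533) (nat_lit 16) (.e (nat_lit 286734) (nat_lit 3) (.e (nat_lit 98379) (nat_lit 31) (.e (nat_lit 466981) (nat_lit 23) .nil))))) (.g (nat_lit 1) (.e (nat_lit 226379) (nat_lit 0) .nil) .nil))))) (.nd (nat_lit 8) (.nd (nat_lit 9) 
(.lf (nat_lit 521360) (.g (nat_lit 758) (.e (nat_lit 204838) (nat_lit 20) (.e (nat_lit 114711) (nat_lit 21) (.e (nat_lit 57754) (nat_lit 209) .nil))) (.g (nat_lit 0) (.e (nat_lit 225375) (nat_lit 0) .nil) .nil))) 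
(.lf (nat_lit 521872) (.g (nat_lit 961) (.e (nat_lit 204846) (nat_lit 24) (.e (nat_lit 319531) (nat_lit 16) (.e (nat_lit 286727) (nat_lit 0) (.e (nat_lit 1799) (nat_lit 119) .nil)))) (.g (nat_lit 0) (.e (nat_lit 226193) (nat_lit 0) .nil) .nil)))) (.nd (nat_lit 9) 
(.lf (nat_lit 521616) (.g (nat_lit 2575) (.e (nat_lit 204845) (nat_lit 24) (.e (nat_lit 319529) (nat_lit 16) (.e (nat_lit 286735) (nat_lit 3) (.e (nat_lit 98370) (nat_lit 28) (.e (nat_lit 450304) (nat_lit 23) .nil))))) (.g (nat_lit 0) (.e (nat_lit 225835) (nat_lit 0) .nil) .nil))) 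
(.lf (nat_lit 522128) (.g (nat_lit 2631) (.e (nat_lit 204846) (nat_lit 24) (.e (nat_lit 319534) (nat_lit 16) (.e (nat_lit 286735) (nat_lit 3) (.e (nat_lit 98359) (nat_lit 26) (.e (nat_lit 426216) (nat_lit 9) (.e (nat_lit 426140) (nat_lit 3) .nil)))))) (.g (nat_lit 1) (.e (nat_lit 226533) (nat_lit 0) .nil) .nil)))))) (.nd (nat_lit 7) (.nd (nat_lit 8) (.nd (nat_lit 9) 
(.lf (nat_lit 521296) (.g (nat_lit 426) (.e (nat_lit 204838) (nat_lit 20) (.e (nat_lit 114698) (nat_lit 11) (.e (nat_lit 426122) (nat_lit 2) .nil))) (.g (nat_lit 0) (.e (nat_lit 225228) (nat_lit 0) .nil) .nil))) 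
(.lf (nat_lit 521808) (.g (nat_lit 1492) (.e (nat_lit 204846) (nat_lit 24) (.e (nat_lit 319529) (nat_lit 16) (.e (nat_lit 286733) (nat_lit 2) (.e (nat_lit 90169) (nat_lit 13) .nil)))) (.g (nat_lit 0) (.e (nat_lit 226106) (nat_lit 0) .nil) .nil)))) (.nd (nat_lit 9) 
(.lf (nat_lit 521552) (.g (nat_lit 805) (.e (nat_lit 204838) (nat_lit 20) (.e (nat_lit 114719) (nat_lit 23) (.e (nat_lit 98383) (nat_lit 32) .nil))) (.g (nat_lit 0) (.e (nat_lit 225714) (nat_lit 0) .nil) .nil))) 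
(.lf (nat_lit 522064) (.g (nat_lit 221) (.e (nat_lit 204846) (nat_lit 24) (.e (nat_lit 319533) (nat_lit 16) (.e (nat_lit 294656) (nat_lit 5) .nil))) (.g (nat_lit 0) (.e (nat_lit 226451) (nat_lit 0) .nil) .nil))))) (.nd (nat_lit 8) (.nd (nat_lit 9) 
(.lf (nat_lit 521424) (.g (nat_lit 4677) (.e (nat_lit 204838) (nat_lit 20) (.e (nat_lit 114715) (nat_lit 22) (.e (nat_lit 90170) (nat_lit 13) (.e (nat_lit 172067) (nat_lit 3) (.e (nat_lit 204829) (nat_lit 18) (.e (nat_lit 57692) (nat_lit 156) (.e (nat_lit 163874) (nat_lit 3) .nil))))))) (.g (nat_lit 1) (.e (nat_lit 225477) (nat_lit 0) .nil) .nil))) 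
(.lf (nat_lit 521936) (.g (nat_lit 357) (.e (nat_lit 204846) (nat_lit 24) (.e (nat_lit 319532) (nat_lit 16) (.e (nat_lit 286733) (nat_lit 2) .nil))) (.g (nat_lit 0) (.e (nat_lit 226272) (nat_lit 0) .nil) .nil)))) (.nd (nat_lit 9) 
(.lf (nat_lit 521680) (.g (nat_lit 385) (.e (nat_lit 204845) (nat_lit 24) (.e (nat_lit 319531) (nat_lit 16) (.e (nat_lit 286733) (nat_lit 2) .nil))) (.g (nat_lit 0) (.e (nat_lit 225914) (nat_lit 0) .nil) .nil))) 
(.lf (nat_lit 522192) (.g (nat_lit 2857) (.e (nat_lit 204849) (nat_lit 25) (.e (nat_lit 327698) (nat_lit 8) (.e (nat_lit 303119) (nat_lit 3) (.e (nat_lit 204846) (nat_lit 24) (.e (nat_lit 319491) (nat_lit 0) .nil))))) (.g (nat_lit 0) (.e (nat_lit 226633) (nat_lit 0) .nil) .nil))))))) (.nd (nat_lit 6) (.nd (nat_lit 7) (.nd (nat_lit 8) (.nd (nat_lit 9) 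
(.lf (nat_lit 521264) (.g (nat_lit 1847) (.e (nat_lit 204838) (nat_lit 20) (.e (nat_lit 114697) (nat_lit 11) (.e (nat_lit 426137) (nat_lit 3) (.e (nat_lit 204859) (nat_lit 26) (.e (nat_lit 336116) (nat_lit 9) (.e (nat_lit 336323) (nat_lit 18) .nil)))))) (.g (nat_lit 1) (.e (nat_lit 225177) (nat_lit 0) .nil) .nil))) 
(.lf (nat_lit 521776) (.g (nat_lit 1358) (.e (nat_lit 204846) (nat_lit 24) (.e (nat_lit 319511) (nat_lit 10) (.e (nat_lit 5293) (nat_lit 298) (.e (nat_lit 1250) (nat_lit 92) (.e (nat_lit 98381) (nat_lit 31) .nil))))) (.g (nat_lit 0) (.e (nat_lit 226058) (nat_lit 0) .nil) .nil)))) (.nd (nat_lit 9) 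
(.lf (nat_lit 521520) (.g (nat_lit 3460) (.e (nat_lit 204838) (nat_lit 20) (.e (nat_lit 114719) (nat_lit 23) (.e (nat_lit 98365) (nat_lit 26) (.e (nat_lit 426133) (nat_lit 3) (.e (nat_lit 204829) (nat_lit 18) (.e (nat_lit 57688) (nat_lit 156) (.e (nat_lit 163872) (nat_lit 3) .nil))))))) (.g (nat_lit 1) (.e (nat_lit 225665) (nat_lit 0) .nil) .nil))) 
(.lf (nat_lit 522032) (.g (nat_lit 2967) (.e (nat_lit 204846) (nat_lit 24) (.e (nat_lit 319533) (nat_lit 16) (.e (nat_lit 286735) (nat_lit 3) (.e (nat_lit 98363) (nat_lit 26) (.e (nat_lit 426234) (nat_lit 9) (.e (nat_lit 426129) (nat_lit 3) .nil)))))) (.g (nat_lit 1) (.e (nat_lit 226417) (nat_lit 0) .nil) .nil))))) (.nd (nat_lit 8) (.nd (nat_lit 9) 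
(.lf (nat_lit 521392) (.g (nat_lit 3320) (.e (nat_lit 204838) (nat_lit 20) (.e (nat_lit 114714) (nat_lit 22) (.e (nat_lit 90174) (nat_lit 14) (.e (nat_lit 180243) (nat_lit 5) (.e (nat_lit 532501) (nat_lit 1) (.e (nat_lit 57689) (nat_lit 156) (.e (nat_lit 163872) (nat_lit 3) .nil))))))) (.g (nat_lit 1) (.e (nat_lit 225429) (nat_lit 0) .nil) .nil))) 
(.lf (nat_lit 521904) (.g (nat_lit 1829) (.e (nat_lit 204846) (nat_lit 24) (.e (nat_lit 319531) (nat_lit 16) (.e (nat_lit 286735) (nat_lit 3) (.e (nat_lit 98362) (nat_lit 26) .nil)))) (.g (nat_lit 0) (.e (nat_lit 226237) (nat_lit 0) .nil) .nil)))) (.nd (nat_lit 9) 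
(.lf (nat_lit 521648) (.g (nat_lit 3766) (.e (nat_lit 204845) (nat_lit 24) (.e (nat_lit 319530) (nat_lit 16) (.e (nat_lit 286735) (nat_lit 3) (.e (nat_lit 98358) (nat_lit 26) (.e (nat_lit 426227) (nat_lit 9) (.e (nat_lit 433920) (nat_lit 3) .nil)))))) (.g (nat_lit 1) (.e (nat_lit 225881) (nat_lit 0) .nil) .nil))) 
(.lf (nat_lit 522160) (.g (nat_lit 1820) (.e (nat_lit 204846) (nat_lit 24) (.e (nat_lit 327424) (nat_lit 16) (.e (nat_lit 286735) (nat_lit 3) (.e (nat_lit 98323) (nat_lit 17) (.e (nat_lit 7936) (nat_lit 392) (.e (nat_lit 172066) (nat_lit 3) .nil)))))) (.g (nat_lit 1) (.e (nat_lit 226566) (nat_lit 0) .nil) .nil)))))) (.nd (nat_lit 7) (.nd (nat_lit 8) (.nd (nat_lit 9) 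
(.lf (nat_lit 521328) (.g (nat_lit 2555) (.e (nat_lit 204838) (nat_lit 20) (.e (nat_lit 114698) (nat_lit 11) (.e (nat_lit 426138) (nat_lit 3) (.e (nat_lit 204861) (nat_lit 26) (.e (nat_lit 336075) (nat_lit 9) (.e (nat_lit 336325) (nat_lit 18) .nil)))))) (.g (nat_lit 1) (.e (nat_lit 225305) (nat_lit 0) .nil) .nil))) 
(.lf (nat_lit 521840) (.g (nat_lit 1544) (.e (nat_lit 204846) (nat_lit 24) (.e (nat_lit 319530) (nat_lit 16) (.e (nat_lit 286733) (nat_lit 2) (.e (nat_lit 90165) (nat_lit 12) .nil)))) (.g (nat_lit 0) (.e (nat_lit 226160) (nat_lit 0) .nil) .nil)))) (.nd (nat_lit 9) 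
(.lf (nat_lit 521584) (.g (nat_lit 3750) (.e (nat_lit 204845) (nat_lit 24) (.e (nat_lit 319538) (nat_lit 19) (.e (nat_lit 311315) (nat_lit 3) (.e (nat_lit 204845) (nat_lit 24) (.e (nat_lit 319538) (nat_lit 19) (.e (nat_lit 311315) (nat_lit 3) .nil)))))) (.g (nat_lit 1) (.e (nat_lit 225779) (nat_lit 0) .nil) .nil))) 
(.lf (nat_lit 522096) (.g (nat_lit 2981) (.e (nat_lit 204846) (nat_lit 24) (.e (nat_lit 319534) (nat_lit 16) (.e (nat_lit 286734) (nat_lit 3) (.e (nat_lit 98354) (nat_lit 26) (.e (nat_lit 426270) (nat_lit 9) (.e (nat_lit 426139) (nat_lit 3) .nil)))))) (.g (nat_lit 1) (.e (nat_lit 226501) (nat_lit 0) .nil) .nil))))) (.nd (nat_lit 8) (.nd (nat_lit 9) 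
(.lf (nat_lit 521456) (.g (nat_lit 3366) (.e (nat_lit 204838) (nat_lit 20) (.e (nat_lit 114716) (nat_lit 22) (.e (nat_lit 90174) (nat_lit 14) (.e (nat_lit 180243) (nat_lit 5) (.e (nat_lit 532501) (nat_lit 1) (.e (nat_lit 57692) (nat_lit 156) (.e (nat_lit 163872) (nat_lit 3) .nil))))))) (.g (nat_lit 1) (.e (nat_lit 225546) (nat_lit 0) .nil) .nil))) 
(.lf (nat_lit 521968) (.g (nat_lit 1342) (.e (nat_lit 204846) (nat_lit 24) (.e (nat_lit 319533) (nat_lit 16) (.e (nat_lit 286732) (nat_lit 2) (.e (nat_lit 90174) (nat_lit 14) .nil)))) (.g (nat_lit 0) (.e (nat_lit 226331) (nat_lit 0) .nil) .nil)))) (.nd (nat_lit 9) 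
(.lf (nat_lit 521712) (.g (nat_lit 2623) (.e (nat_lit 204845) (nat_lit 24) (.e (nat_lit 319531) (nat_lit 16) (.e (nat_lit 286735) (nat_lit 3) (.e (nat_lit 98380) (nat_lit 31) (.e (nat_lit 474880) (nat_lit 23) .nil))))) (.g (nat_lit 1) (.e (nat_lit 225956) (nat_lit 0) .nil) .nil))) 
(.lf (nat_lit 522224) (.g (nat_lit 3068) (.e (nat_lit 204849) (nat_lit 25) (.e (nat_lit 327700) (nat_lit 8) (.e (nat_lit 303119) (nat_lit 3) (.e (nat_lit 204849) (nat_lit 25) (.e (nat_lit 327699) (nat_lit 8) .nil))))) (.g (nat_lit 0) (.e (nat_lit 226685) (nat_lit 0) .nil) .nil))))))))) (.nd (nat_lit 4) (.nd (nat_lit 5) (.nd (nat_lit 6) (.nd (nat_lit 7) (.nd (nat_lit 8) (.nd (nat_lit 9) 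
(.lf (nat_lit 521224) (.g (nat_lit 3187) (.e (nat_lit 204837) (nat_lit 20) (.e (nat_lit 114719) (nat_lit 23) (.e (nat_lit 98386) (nat_lit 32) (.e (nat_lit 475179) (nat_lit 24) (.e (nat_lit 516120) (nat_lit 1) (.e (nat_lit 164332) (nat_lit 230) (.e (nat_lit 163874) (nat_lit 3) .nil))))))) (.g (nat_lit 1) (.e (nat_lit 225090) (nat_lit 0) .nil) .nil))) 
(.lf (nat_lit 521736) (.g (nat_lit 383) (.e (nat_lit 204845) (nat_lit 24) (.e (nat_lit 319534) (nat_lit 16) (.e (nat_lit 286733) (nat_lit 2) .nil))) (.g (nat_lit 0) (.e (nat_lit 225987) (nat_lit 0) .nil) .nil)))) (.nd (nat_lit 9) 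
(.lf (nat_lit 521480) (.g (nat_lit 1260) (.e (nat_lit 204838) (nat_lit 20) (.e (nat_lit 114718) (nat_lit 23) (.e (nat_lit 98363) (nat_lit 26) (.e (nat_lit 426129) (nat_lit 3) .nil)))) (.g (nat_lit 0) (.e (nat_lit 225595) (nat_lit 0) .nil) .nil))) 
(.lf (nat_lit 521992) (.g (nat_lit 3385) (.e (nat_lit 204846) (nat_lit 24) (.e (nat_lit 319533) (nat_lit 16) (.e (nat_lit 286734) (nat_lit 3) (.e (nat_lit 98359) (nat_lit 26) (.e (nat_lit 426215) (nat_lit 9) (.e (nat_lit 426140) (nat_lit 3) .nil)))))) (.g (nat_lit 1) (.e (nat_lit 226371) (nat_lit 0) .nil) .nil))))) (.nd (nat_lit 8) (.nd (nat_lit 9) 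
(.lf (nat_lit 521352) (.g (nat_lit 2141) (.e (nat_lit 204838) (nat_lit 20) (.e (nat_lit 114698) (nat_lit 11) (.e (nat_lit 426139) (nat_lit 3) (.e (nat_lit 204865) (nat_lit 28) (.e (nat_lit 360192) (nat_lit 3) .nil))))) (.g (nat_lit 1) (.e (nat_lit 225331) (nat_lit 0) .nil) .nil))) 
(.lf (nat_lit 521864) (.g (nat_lit 2640) (.e (nat_lit 204846) (nat_lit 24) (.e (nat_lit 319530) (nat_lit 16) (.e (nat_lit 286735) (nat_lit 3) (.e (nat_lit 98380) (nat_lit 31) (.e (nat_lit 466979) (nat_lit 23) .nil))))) (.g (nat_lit 1) (.e (nat_lit 226184) (nat_lit 0) .nil) .nil)))) (.nd (nat_lit 9) 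
(.lf (nat_lit 521608) (.g (nat_lit 3153) (.e (nat_lit 204845) (nat_lit 24) (.e (nat_lit 319529) (nat_lit 16) (.e (nat_lit 286735) (nat_lit 3) (.e (nat_lit 98359) (nat_lit 26) (.e (nat_lit 426215) (nat_lit 9) (.e (nat_lit 426140) (nat_lit 3) .nil)))))) (.g (nat_lit 1) (.e (nat_lit 225825) (nat_lit 0) .nil) .nil))) 
(.lf (nat_lit 522120) (.g (nat_lit 2610) (.e (nat_lit 204846) (nat_lit 24) (.e (nat_lit 319534) (nat_lit 16) (.e (nat_lit 286735) (nat_lit 3) (.e (nat_lit 98356) (nat_lit 26) (.e (nat_lit 426227) (nat_lit 9) (.e (nat_lit 433920) (nat_lit 3) .nil)))))) (.g (nat_lit 1) (.e (nat_lit 226525) (nat_lit 0) .nil) .nil)))))) (.nd (nat_lit 7) (.nd (nat_lit 8) (.nd (nat_lit 9) 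
(.lf (nat_lit 521288) (.g (nat_lit 2908) (.e (nat_lit 204838) (nat_lit 20) (.e (nat_lit 114697) (nat_lit 11) (.e (nat_lit 426139) (nat_lit 3) (.e (nat_lit 204861) (nat_lit 26) (.e (nat_lit 336076) (nat_lit 9) (.e (nat_lit 336325) (nat_lit 18) .nil)))))) (.g (nat_lit 1) (.e (nat_lit 225204) (nat_lit 0) .nil) .nil))) 
(.lf (nat_lit 521800) (.g (nat_lit 2640) (.e (nat_lit 204846) (nat_lit 24) (.e (nat_lit 319528) (nat_lit 16) (.e (nat_lit 286735) (nat_lit 3) (.e (nat_lit 98367) (nat_lit 27) (.e (nat_lit 442112) (nat_lit 8) (.e (nat_lit 2684) (nat_lit 168) .nil)))))) (.g (nat_lit 1) (.e (nat_lit 226092) (nat_lit 0) .nil) .nil)))) (.nd (nat_lit 9) 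
(.lf (nat_lit 521544) (.g (nat_lit 2333) (.e (nat_lit 204838) (nat_lit 20) (.e (nat_lit 114719) (nat_lit 23) (.e (nat_lit 98367) (nat_lit 27) (.e (nat_lit 434231) (nat_lit 23) (.e (nat_lit 532502) (nat_lit 1) .nil))))) (.g (nat_lit 0) (.e (nat_lit 225702) (nat_lit 0) .nil) .nil))) 
(.lf (nat_lit 522056) (.g (nat_lit 1809) (.e (nat_lit 204846) (nat_lit 24) (.e (nat_lit 319533) (nat_lit 16) (.e (nat_lit 286735) (nat_lit 3) (.e (nat_lit 98378) (nat_lit 30) .nil)))) (.g (nat_lit 0) (.e (nat_lit 226442) (nat_lit 0) .nil) .nil))))) (.nd (nat_lit 8) (.nd (nat_lit 9) 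
(.lf (nat_lit 521416) (.g (nat_lit 3780) (.e (nat_lit 204838) (nat_lit 20) (.e (nat_lit 114715) (nat_lit 22) (.e (nat_lit 90170) (nat_lit 13) (.e (nat_lit 172065) (nat_lit 3) (.e (nat_lit 204831) (nat_lit 18) (.e (nat_lit 57688) (nat_lit 156) (.e (nat_lit 163873) (nat_lit 3) .nil))))))) (.g (nat_lit 1) (.e (nat_lit 225465) (nat_lit 0) .nil) .nil))) 
(.lf (nat_lit 521928) (.g (nat_lit 2800) (.e (nat_lit 204846) (nat_lit 24) (.e (nat_lit 319531) (nat_lit 16) (.e (nat_lit 286735) (nat_lit 3) (.e (nat_lit 98380) (nat_lit 31) (.e (nat_lit 466979) (nat_lit 23) .nil))))) (.g (nat_lit 1) (.e (nat_lit 226261) (nat_lit 0) .nil) .nil)))) (.nd (nat_lit 9) 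
(.lf (nat_lit 521672) (.g (nat_lit 2671) (.e (nat_lit 204845) (nat_lit 24) (.e (nat_lit 319530) (nat_lit 16) (.e (nat_lit 286735) (nat_lit 3) (.e (nat_lit 98382) (nat_lit 31) (.e (nat_lit 474880) (nat_lit 23) .nil))))) (.g (nat_lit 1) (.e (nat_lit 225905) (nat_lit 0) .nil) .nil))) 
(.lf (nat_lit 522184) (.g (nat_lit 2677) (.e (nat_lit 204849) (nat_lit 25) (.e (nat_lit 327698) (nat_lit 8) (.e (nat_lit 303117) (nat_lit 2) (.e (nat_lit 196668) (nat_lit 14) (.e (nat_lit 73782) (nat_lit 32) (.e (nat_lit 2682) (nat_lit 168) .nil)))))) (.g (nat_lit 1) (.e (nat_lit 226622) (nat_lit 0) .nil) .nil))))))) (.nd (nat_lit 6) (.nd (nat_lit 7) (.nd (nat_lit 8) (.nd (nat_lit 9) 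
(.lf (nat_lit 521256) (.g (nat_lit 1091) (.e (nat_lit 204838) (nat_lit 20) (.e (nat_lit 114697) (nat_lit 11) (.e (nat_lit 426121) (nat_lit 2) (.e (nat_lit 196672) (nat_lit 15) (.e (nat_lit 89856) (nat_lit 3) .nil))))) (.g (nat_lit 0) (.e (nat_lit 225147) (nat_lit 0) .nil) .nil))) 
(.lf (nat_lit 521768) (.g (nat_lit 400) (.e (nat_lit 204846) (nat_lit 24) (.e (nat_lit 319504) (nat_lit 10) (.e (nat_lit 5395) (nat_lit 301) .nil))) (.g (nat_lit 0) (.e (nat_lit 226039) (nat_lit 0) .nil) .nil)))) (.nd (nat_lit 9) 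
(.lf (nat_lit 521512) (.g (nat_lit 1511) (.e (nat_lit 204838) (nat_lit 20) (.e (nat_lit 114719) (nat_lit 23) (.e (nat_lit 98335) (nat_lit 18) (.e (nat_lit 164396) (nat_lit 256) .nil)))) (.g (nat_lit 0) (.e (nat_lit 225642) (nat_lit 0) .nil) .nil))) 
(.lf (nat_lit 522024) (.g (nat_lit 2715) (.e (nat_lit 204846) (nat_lit 24) (.e (nat_lit 319533) (nat_lit 16) (.e (nat_lit 286735) (nat_lit 3) (.e (nat_lit 98357) (nat_lit 26) (.e (nat_lit 426270) (nat_lit 9) .nil))))) (.g (nat_lit 0) (.e (nat_lit 226409) (nat_lit 0) .nil) .nil))))) (.nd (nat_lit 8) (.nd (nat_lit 9) 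
(.lf (nat_lit 521384) (.g (nat_lit 2528) (.e (nat_lit 204838) (nat_lit 20) (.e (nat_lit 114714) (nat_lit 22) (.e (nat_lit 90174) (nat_lit 14) (.e (nat_lit 180243) (nat_lit 5) (.e (nat_lit 532499) (nat_lit 1) (.e (nat_lit 57686) (nat_lit 156) (.e (nat_lit 163872) (nat_lit 3) .nil))))))) (.g (nat_lit 1) (.e (nat_lit 225417) (nat_lit 0) .nil) .nil))) 
(.lf (nat_lit 521896) (.g (nat_lit 2988) (.e (nat_lit 204846) (nat_lit 24) (.e (nat_lit 319531) (nat_lit 16) (.e (nat_lit 286735) (nat_lit 3) (.e (nat_lit 98356) (nat_lit 26) (.e (nat_lit 426227) (nat_lit 9) (.e (nat_lit 433920) (nat_lit 3) .nil)))))) (.g (nat_lit 1) (.e (nat_lit 226229) (nat_lit 0) .nil) .nil)))) (.nd (nat_lit 9) 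
(.lf (nat_lit 521640) (.g (nat_lit 1912) (.e (nat_lit 204845) (nat_lit 24) (.e (nat_lit 319530) (nat_lit 16) (.e (nat_lit 286735) (nat_lit 3) (.e (nat_lit 98321) (nat_lit 17) .nil)))) (.g (nat_lit 0) (.e (nat_lit 225873) (nat_lit 0) .nil) .nil))) 
(.lf (nat_lit 522152) (.g (nat_lit 2698) (.e (nat_lit 204846) (nat_lit 24) (.e (nat_lit 319534) (nat_lit 16) (.e (nat_lit 286735) (nat_lit 3) (.e (nat_lit 98370) (nat_lit 28) (.e (nat_lit 450304) (nat_lit 23) .nil))))) (.g (nat_lit 1) (.e (nat_lit 226557) (nat_lit 0) .nil) .nil)))))) (.nd (nat_lit 7) (.nd (nat_lit 8) (.nd (nat_lit 9) 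
(.lf (nat_lit 521320) (.g (nat_lit 2432) (.e (nat_lit 204838) (nat_lit 20) (.e (nat_lit 114698) (nat_lit 11) (.e (nat_lit 426137) (nat_lit 3) (.e (nat_lit 204861) (nat_lit 26) (.e (nat_lit 336076) (nat_lit 9) (.e (nat_lit 336322) (nat_lit 18) .nil)))))) (.g (nat_lit 1) (.e (nat_lit 225292) (nat_lit 0) .nil) .nil))) 
(.lf (nat_lit 521832) (.g (nat_lit 396) (.e (nat_lit 204846) (nat_lit 24) (.e (nat_lit 319530) (nat_lit 16) (.e (nat_lit 286722) (nat_lit 0) .nil))) (.g (nat_lit 0) (.e (nat_lit 226144) (nat_lit 0) .nil) .nil)))) (.nd (nat_lit 9) 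
(.lf (nat_lit 521576) (.g (nat_lit 2666) (.e (nat_lit 204845) (nat_lit 24) (.e (nat_lit 319490) (nat_lit 0) (.e (nat_lit 5664) (nat_lit 312) (.e (nat_lit 2661) (nat_lit 167) (.e (nat_lit 196668) (nat_lit 14) .nil))))) (.g (nat_lit 0) (.e (nat_lit 225764) (nat_lit 0) .nil) .nil))) 
(.lf (nat_lit 522088) (.g (nat_lit 1556) (.e (nat_lit 204846) (nat_lit 24) (.e (nat_lit 319534) (nat_lit 16) (.e (nat_lit 286734) (nat_lit 3) (.e (nat_lit 98349) (nat_lit 24) .nil)))) (.g (nat_lit 0) (.e (nat_lit 226493) (nat_lit 0) .nil) .nil))))) (.nd (nat_lit 8) (.nd (nat_lit 9) 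
(.lf (nat_lit 521448) (.g (nat_lit 2949) (.e (nat_lit 204838) (nat_lit 20) (.e (nat_lit 114716) (nat_lit 22) (.e (nat_lit 90172) (nat_lit 14) (.e (nat_lit 180244) (nat_lit 5) (.e (nat_lit 532504) (nat_lit 1) (.e (nat_lit 57691) (nat_lit 156) (.e (nat_lit 163872) (nat_lit 3) .nil))))))) (.g (nat_lit 1) (.e (nat_lit 225523) (nat_lit 0) .nil) .nil))) 
(.lf (nat_lit 521960) (.g (nat_lit 497) (.e (nat_lit 204846) (nat_lit 24) (.e (nat_lit 319533) (nat_lit 16) (.e (nat_lit 286724) (nat_lit 0) .nil))) (.g (nat_lit 0) (.e (nat_lit 226319) (nat_lit 0) .nil) .nil)))) (.nd (nat_lit 9) 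
(.lf (nat_lit 521704) (.g (nat_lit 1343) (.e (nat_lit 204845) (nat_lit 24) (.e (nat_lit 319531) (nat_lit 16) (.e (nat_lit 286735) (nat_lit 3) (.e (nat_lit 106240) (nat_lit 26) .nil)))) (.g (nat_lit 0) (.e (nat_lit 225948) (nat_lit 0) .nil) .nil))) 
(.lf (nat_lit 522216) (.g (nat_lit 2940) (.e (nat_lit 204849) (nat_lit 25) (.e (nat_lit 327699) (nat_lit 8) (.e (nat_lit 303119) (nat_lit 3) (.e (nat_lit 204849) (nat_lit 25) (.e (nat_lit 327700) (nat_lit 8) .nil))))) (.g (nat_lit 0) (.e (nat_lit 226667) (nat_lit 0) .nil) .nil)))))))) (.nd (nat_lit 5) (.nd (nat_lit 6) (.nd (nat_lit 7) (.nd (nat_lit 8) (.nd (nat_lit 9) 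
(.lf (nat_lit 521240) (.g (nat_lit 3515) (.e (nat_lit 204838) (nat_lit 20) (.e (nat_lit 114694) (nat_lit 11) (.e (nat_lit 426139) (nat_lit 3) (.e (nat_lit 204861) (nat_lit 26) (.e (nat_lit 336075) (nat_lit 9) (.e (nat_lit 336324) (nat_lit 18) .nil)))))) (.g (nat_lit 1) (.e (nat_lit 225115) (nat_lit 0) .nil) .nil))) 
(.lf (nat_lit 521752) (.g (nat_lit 2384) (.e (nat_lit 204846) (nat_lit 24) (.e (nat_lit 319490) (nat_lit 0) (.e (nat_lit 5664) (nat_lit 312) (.e (nat_lit 2661) (nat_lit 167) (.e (nat_lit 196662) (nat_lit 13) .nil))))) (.g (nat_lit 0) (.e (nat_lit 226010) (nat_lit 0) .nil) .nil)))) (.nd (nat_lit 9) 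
(.lf (nat_lit 521496) (.g (nat_lit 5288) (.e (nat_lit 204838) (nat_lit 20) (.e (nat_lit 114718) (nat_lit 23) (.e (nat_lit 98384) (nat_lit 32) (.e (nat_lit 475177) (nat_lit 24) (.e (nat_lit 516118) (nat_lit 1) (.e (nat_lit 164332) (nat_lit 230) (.e (nat_lit 163874) (nat_lit 3) .nil))))))) (.g (nat_lit 1) (.e (nat_lit 225617) (nat_lit 0) .nil) .nil))) 
(.lf (nat_lit 522008) (.g (nat_lit 2669) (.e (nat_lit 204846) (nat_lit 24) (.e (nat_lit 319533) (nat_lit 16) (.e (nat_lit 286735) (nat_lit 3) (.e (nat_lit 98325) (nat_lit 17) (.e (nat_lit 6966) (nat_lit 377) .nil))))) (.g (nat_lit 0) (.e (nat_lit 226388) (nat_lit 0) .nil) .nil))))) (.nd (nat_lit 8) (.nd (nat_lit 9) 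
(.lf (nat_lit 521368) (.g (nat_lit 3341) (.e (nat_lit 204838) (nat_lit 20) (.e (nat_lit 114714) (nat_lit 22) (.e (nat_lit 90172) (nat_lit 14) (.e (nat_lit 180243) (nat_lit 5) (.e (nat_lit 532499) (nat_lit 1) (.e (nat_lit 57688) (nat_lit 156) (.e (nat_lit 163872) (nat_lit 3) .nil))))))) (.g (nat_lit 1) (.e (nat_lit 225385) (nat_lit 0) .nil) .nil))) 
(.lf (nat_lit 521880) (.g (nat_lit 2934) (.e (nat_lit 204846) (nat_lit 24) (.e (nat_lit 319531) (nat_lit 16) (.e (nat_lit 286733) (nat_lit 2) (.e (nat_lit 90178) (nat_lit 15) (.e (nat_lit 196352) (nat_lit 23) .nil))))) (.g (nat_lit 1) (.e (nat_lit 226212) (nat_lit 0) .nil) .nil)))) (.nd (nat_lit 9) 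
(.lf (nat_lit 521624) (.g (nat_lit 2297) (.e (nat_lit 204845) (nat_lit 24) (.e (nat_lit 319529) (nat_lit 16) (.e (nat_lit 286735) (nat_lit 3) (.e (nat_lit 98382) (nat_lit 31) (.e (nat_lit 466978) (nat_lit 23) .nil))))) (.g (nat_lit 1) (.e (nat_lit 225845) (nat_lit 0) .nil) .nil))) 
(.lf (nat_lit 522136) (.g (nat_lit 2708) (.e (nat_lit 204846) (nat_lit 24) (.e (nat_lit 319534) (nat_lit 16) (.e (nat_lit 286735) (nat_lit 3) (.e (nat_lit 98363) (nat_lit 26) (.e (nat_lit 426234) (nat_lit 9) (.e (nat_lit 426129) (nat_lit 3) .nil)))))) (.g (nat_lit 1) (.e (nat_lit 226541) (nat_lit 0) .nil) .nil)))))) (.nd (nat_lit 7) (.nd (nat_lit 8) (.nd (nat_lit 9) 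
(.lf (nat_lit 521304) (.g (nat_lit 2389) (.e (nat_lit 204838) (nat_lit 20) (.e (nat_lit 114698) (nat_lit 11) (.e (nat_lit 426132) (nat_lit 3) (.e (nat_lit 204861) (nat_lit 26) (.e (nat_lit 336076) (nat_lit 9) (.e (nat_lit 336326) (nat_lit 18) .nil)))))) (.g (nat_lit 1) (.e (nat_lit 225274) (nat_lit 0) .nil) .nil))) 
(.lf (nat_lit 521816) (.g (nat_lit 2794) (.e (nat_lit 204846) (nat_lit 24) (.e (nat_lit 319529) (nat_lit 16) (.e (nat_lit 286735) (nat_lit 3) (.e (nat_lit 98350) (nat_lit 24) (.e (nat_lit 409603) (nat_lit 0) .nil))))) (.g (nat_lit 0) (.e (nat_lit 226116) (nat_lit 0) .nil) .nil)))) (.nd (nat_lit 9) 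
(.lf (nat_lit 521560) (.g (nat_lit 4951) (.e (nat_lit 204838) (nat_lit 20) (.e (nat_lit 114719) (nat_lit 23) (.e (nat_lit 98384) (nat_lit 32) (.e (nat_lit 475179) (nat_lit 24) (.e (nat_lit 516115) (nat_lit 1) (.e (nat_lit 164327) (nat_lit 230) (.e (nat_lit 163875) (nat_lit 3) .nil))))))) (.g (nat_lit 1) (.e (nat_lit 225722) (nat_lit 0) .nil) .nil))) 
(.lf (nat_lit 522072) (.g (nat_lit 724) (.e (nat_lit 204846) (nat_lit 24) (.e (nat_lit 319534) (nat_lit 16) (.e (nat_lit 286727) (nat_lit 0) .nil))) (.g (nat_lit 0) (.e (nat_lit 226461) (nat_lit 0) .nil) .nil))))) (.nd (nat_lit 8) (.nd (nat_lit 9) 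
(.lf (nat_lit 521432) (.g (nat_lit 2206) (.e (nat_lit 204838) (nat_lit 20) (.e (nat_lit 114716) (nat_lit 22) (.e (nat_lit 90172) (nat_lit 14) (.e (nat_lit 180243) (nat_lit 5) (.e (nat_lit 532501) (nat_lit 1) (.e (nat_lit 57691) (nat_lit 156) (.e (nat_lit 163872) (nat_lit 3) .nil))))))) (.g (nat_lit 1) (.e (nat_lit 225491) (nat_lit 0) .nil) .nil))) 
(.lf (nat_lit 521944) (.g (nat_lit 2304) (.e (nat_lit 204846) (nat_lit 24) (.e (nat_lit 319532) (nat_lit 16) (.e (nat_lit 286733) (nat_lit 2) (.e (nat_lit 90185) (nat_lit 17) (.e (nat_lit 237604) (nat_lit 9) .nil))))) (.g (nat_lit 0) (.e (nat_lit 226289) (nat_lit 0) .nil) .nil)))) (.nd (nat_lit 9) 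
(.lf (nat_lit 521688) (.g (nat_lit 2701) (.e (nat_lit 204845) (nat_lit 24) (.e (nat_lit 319531) (nat_lit 16) (.e (nat_lit 286735) (nat_lit 3) (.e (nat_lit 98353) (nat_lit 25) (.e (nat_lit 417813) (nat_lit 9) (.e (nat_lit 311314) (nat_lit 3) .nil)))))) (.g (nat_lit 1) (.e (nat_lit 225930) (nat_lit 0) .nil) .nil))) 
(.lf (nat_lit 522200) (.g (nat_lit 1675) (.e (nat_lit 204849) (nat_lit 25) (.e (nat_lit 327699) (nat_lit 8) (.e (nat_lit 303117) (nat_lit 2) (.e (nat_lit 196668) (nat_lit 14) .nil)))) (.g (nat_lit 0) (.e (nat_lit 226644) (nat_lit 0) .nil) .nil))))))) (.nd (nat_lit 6) (.nd (nat_lit 7) (.nd (nat_lit 8) (.nd (nat_lit 9) 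
(.lf (nat_lit 521272) (.g (nat_lit 599) (.e (nat_lit 204838) (nat_lit 20) (.e (nat_lit 114697) (nat_lit 11) (.e (nat_lit 426137) (nat_lit 3) (.e (nat_lit 204867) (nat_lit 28) .nil)))) (.g (nat_lit 0) (.e (nat_lit 225186) (nat_lit 0) .nil) .nil))) 
(.lf (nat_lit 521784) (.g (nat_lit 161) (.e (nat_lit 204846) (nat_lit 24) (.e (nat_lit 319528) (nat_lit 16) (.e (nat_lit 286735) (nat_lit 3) .nil))) (.g (nat_lit 0) (.e (nat_lit 226076) (nat_lit 0) .nil) .nil)))) (.nd (nat_lit 9) 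
(.lf (nat_lit 521528) (.g (nat_lit 2240) (.e (nat_lit 204838) (nat_lit 20) (.e (nat_lit 114719) (nat_lit 23) (.e (nat_lit 98365) (nat_lit 26) (.e (nat_lit 426139) (nat_lit 3) (.e (nat_lit 204829) (nat_lit 18) .nil))))) (.g (nat_lit 0) (.e (nat_lit 225674) (nat_lit 0) .nil) .nil))) 
(.lf (nat_lit 522040) (.g (nat_lit 4138) (.e (nat_lit 204846) (nat_lit 24) (.e (nat_lit 319533) (nat_lit 16) (.e (nat_lit 286735) (nat_lit 3) (.e (nat_lit 98365) (nat_lit 26) (.e (nat_lit 426188) (nat_lit 9) (.e (nat_lit 426131) (nat_lit 3) .nil)))))) (.g (nat_lit 1) (.e (nat_lit 226425) (nat_lit 0) .nil) .nil))))) (.nd (nat_lit 8) (.nd (nat_lit 9) 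
(.lf (nat_lit 521400) (.g (nat_lit 2669) (.e (nat_lit 204838) (nat_lit 20) (.e (nat_lit 114714) (nat_lit 22) (.e (nat_lit 90174) (nat_lit 14) (.e (nat_lit 180243) (nat_lit 5) (.e (nat_lit 532504) (nat_lit 1) (.e (nat_lit 57689) (nat_lit 156) (.e (nat_lit 163872) (nat_lit 3) .nil))))))) (.g (nat_lit 1) (.e (nat_lit 225441) (nat_lit 0) .nil) .nil))) 
(.lf (nat_lit 521912) (.g (nat_lit 2621) (.e (nat_lit 204846) (nat_lit 24) (.e (nat_lit 319531) (nat_lit 16) (.e (nat_lit 286735) (nat_lit 3) (.e (nat_lit 98365) (nat_lit 26) (.e (nat_lit 426187) (nat_lit 9) (.e (nat_lit 426130) (nat_lit 3) .nil)))))) (.g (nat_lit 1) (.e (nat_lit 226245) (nat_lit 0) .nil) .nil)))) (.nd (nat_lit 9) 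
(.lf (nat_lit 521656) (.g (nat_lit 3519) (.e (nat_lit 204845) (nat_lit 24) (.e (nat_lit 319530) (nat_lit 16) (.e (nat_lit 286735) (nat_lit 3) (.e (nat_lit 98367) (nat_lit 27) (.e (nat_lit 434183) (nat_lit 8) (.e (nat_lit 7936) (nat_lit 168) .nil)))))) (.g (nat_lit 1) (.e (nat_lit 225889) (nat_lit 0) .nil) .nil))) 
(.lf (nat_lit 522168) (.g (nat_lit 4623) (.e (nat_lit 204848) (nat_lit 25) (.e (nat_lit 327699) (nat_lit 8) (.e (nat_lit 303117) (nat_lit 2) (.e (nat_lit 196666) (nat_lit 13) (.e (nat_lit 65628) (nat_lit 14) (.e (nat_lit 401428) (nat_lit 3) .nil)))))) (.g (nat_lit 1) (.e (nat_lit 226577) (nat_lit 0) .nil) .nil)))))) (.nd (nat_lit 7) (.nd (nat_lit 8) (.nd (nat_lit 9) 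
(.lf (nat_lit 521336) (.g (nat_lit 2103) (.e (nat_lit 204838) (nat_lit 20) (.e (nat_lit 114698) (nat_lit 11) (.e (nat_lit 426138) (nat_lit 3) (.e (nat_lit 204866) (nat_lit 28) (.e (nat_lit 360192) (nat_lit 3) .nil))))) (.g (nat_lit 1) (.e (nat_lit 225314) (nat_lit 0) .nil) .nil))) 
(.lf (nat_lit 521848) (.g (nat_lit 2877) (.e (nat_lit 204846) (nat_lit 24) (.e (nat_lit 319530) (nat_lit 16) (.e (nat_lit 286734) (nat_lit 3) (.e (nat_lit 98370) (nat_lit 28) (.e (nat_lit 442426) (nat_lit 23) .nil))))) (.g (nat_lit 1) (.e (nat_lit 226168) (nat_lit 0) .nil) .nil)))) (.nd (nat_lit 9) 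
(.lf (nat_lit 521592) (.g (nat_lit 1026) (.e (nat_lit 204845) (nat_lit 24) (.e (nat_lit 319529) (nat_lit 16) (.e (nat_lit 286727) (nat_lit 0) (.e (nat_lit 1715) (nat_lit 117) .nil)))) (.g (nat_lit 0) (.e (nat_lit 225794) (nat_lit 0) .nil) .nil))) 
(.lf (nat_lit 522104) (.g (nat_lit 2345) (.e (nat_lit 204846) (nat_lit 24) (.e (nat_lit 319534) (nat_lit 16) (.e (nat_lit 286734) (nat_lit 3) (.e (nat_lit 98369) (nat_lit 28) (.e (nat_lit 442426) (nat_lit 23) .nil))))) (.g (nat_lit 1) (.e (nat_lit 226509) (nat_lit 0) .nil) .nil))))) (.nd (nat_lit 8) (.nd (nat_lit 9) 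
(.lf (nat_lit 521464) (.g (nat_lit 4581) (.e (nat_lit 204838) (nat_lit 20) (.e (nat_lit 114716) (nat_lit 22) (.e (nat_lit 90174) (nat_lit 14) (.e (nat_lit 180243) (nat_lit 5) (.e (nat_lit 532504) (nat_lit 1) (.e (nat_lit 57692) (nat_lit 156) (.e (nat_lit 163874) (nat_lit 3) .nil))))))) (.g (nat_lit 1) (.e (nat_lit 225567) (nat_lit 0) .nil) .nil))) 
(.lf (nat_lit 521976) (.g (nat_lit 2970) (.e (nat_lit 204846) (nat_lit 24) (.e (nat_lit 319533) (nat_lit 16) (.e (nat_lit 286733) (nat_lit 2) (.e (nat_lit 90178) (nat_lit 15) (.e (nat_lit 188450) (nat_lit 23) .nil))))) (.g (nat_lit 0) (.e (nat_lit 226354) (nat_lit 0) .nil) .nil)))) (.nd (nat_lit 9) 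
(.lf (nat_lit 521720) (.g (nat_lit 429) (.e (nat_lit 204845) (nat_lit 24) (.e (nat_lit 319533) (nat_lit 16) (.e (nat_lit 286734) (nat_lit 3) .nil))) (.g (nat_lit 0) (.e (nat_lit 225968) (nat_lit 0) .nil) .nil))) 
(.lf (nat_lit 522232) (.g (nat_lit 4253) (.e (nat_lit 204849) (nat_lit 25) (.e (nat_lit 327715) (nat_lit 16) (.e (nat_lit 286733) (nat_lit 2) (.e (nat_lit 90177) (nat_lit 15) (.e (nat_lit 188452) (nat_lit 23) .nil))))) (.g (nat_lit 1) (.e (nat_lit 226700) (nat_lit 0) .nil) .nil)))))))))) 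
(.nd (nat_lit 3) (.nd (nat_lit 4) (.nd (nat_lit 5) (.nd (nat_lit 6) (.nd (nat_lit 7) 
(.nd (nat_lit 8) (.nd (nat_lit 9) 
(.lf (nat_lit 521220) (.g (nat_lit 3534) (.e (nat_lit 204837) (nat_lit 20) (.e (nat_lit 114719) (nat_lit 23) (.e (nat_lit 98384) (nat_lit 32) (.e (nat_lit 475177) (nat_lit 24) (.e (nat_lit 516120) (nat_lit 1) (.e (nat_lit 164330) (nat_lit 230) (.e (nat_lit 163874) (nat_lit 3) .nil))))))) (.g (nat_lit 1) (.e (nat_lit 225086) (nat_lit 0) .nil) .nil))) 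
(.lf (nat_lit 521732) (.g (nat_lit 857) (.e (nat_lit 204845) (nat_lit 24) (.e (nat_lit 319534) (nat_lit 16) (.e (nat_lit 286727) (nat_lit 0) .nil))) (.g (nat_lit 0) (.e (nat_lit 225983) (nat_lit 0) .nil) .nil)))) (.nd (nat_lit 9) 
(.lf (nat_lit 521476) (.g (nat_lit 2558) (.e (nat_lit 204838) (nat_lit 20) (.e (nat_lit 114718) (nat_lit 23) (.e (nat_lit 98334) (nat_lit 18) (.e (nat_lit 164398) (nat_lit 256) (.e (nat_lit 57369) (nat_lit 2) .nil))))) (.g (nat_lit 0) (.e (nat_lit 225589) (nat_lit 0) .nil) .nil))) 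
(.lf (nat_lit 521988) (.g (nat_lit 1635) (.e (nat_lit 204846) (nat_lit 24) (.e (nat_lit 319533) (nat_lit 16) (.e (nat_lit 286734) (nat_lit 3) (.e (nat_lit 98355) (nat_lit 26) .nil)))) (.g (nat_lit 0) (.e (nat_lit 226367) (nat_lit 0) .nil) .nil))))) (.nd (nat_lit 8) (.nd (nat_lit 9) 
(.lf (nat_lit 521348) (.g (nat_lit 3615) (.e (nat_lit 204838) (nat_lit 20) (.e (nat_lit 114698) (nat_lit 11) (.e (nat_lit 426139) (nat_lit 3) (.e (nat_lit 204861) (nat_lit 26) (.e (nat_lit 336076) (nat_lit 9) (.e (nat_lit 336325) (nat_lit 18) .nil)))))) (.g (nat_lit 1) (.e (nat_lit 225327) (nat_lit 0) .nil) .nil))) 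
(.lf (nat_lit 521860) (.g (nat_lit 3188) (.e (nat_lit 204846) (nat_lit 24) (.e (nat_lit 319530) (nat_lit 16) (.e (nat_lit 286735) (nat_lit 3) (.e (nat_lit 98369) (nat_lit 28) (.e (nat_lit 442425) (nat_lit 23) .nil))))) (.g (nat_lit 1) (.e (nat_lit 226180) (nat_lit 0) .nil) .nil)))) (.nd (nat_lit 9) 
(.lf (nat_lit 521604) (.g (nat_lit 2126) (.e (nat_lit 204845) (nat_lit 24) (.e (nat_lit 319529) (nat_lit 16) (.e (nat_lit 286735) (nat_lit 3) (.e (nat_lit 98350) (nat_lit 24) (.e (nat_lit 417536) (nat_lit 8) (.e (nat_lit 303119) (nat_lit 3) .nil)))))) (.g (nat_lit 1) (.e (nat_lit 225819) (nat_lit 0) .nil) .nil))) 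
(.lf (nat_lit 522116) (.g (nat_lit 1792) (.e (nat_lit 204846) (nat_lit 24) (.e (nat_lit 319534) (nat_lit 16) (.e (nat_lit 286735) (nat_lit 3) (.e (nat_lit 98351) (nat_lit 25) .nil)))) (.g (nat_lit 0) (.e (nat_lit 226521) (nat_lit 0) .nil) .nil)))))) (.nd (nat_lit 7) (.nd (nat_lit 8) (.nd (nat_lit 9) 
(.lf (nat_lit 521284) (.g (nat_lit 2005) (.e (nat_lit 204838) (nat_lit 20) (.e (nat_lit 114697) (nat_lit 11) (.e (nat_lit 426139) (nat_lit 3) (.e (nat_lit 204861) (nat_lit 26) (.e (nat_lit 336074) (nat_lit 9) (.e (nat_lit 336324) (nat_lit 18) .nil)))))) (.g (nat_lit 1) (.e (nat_lit 225200) (nat_lit 0) .nil) .nil))) 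
(.lf (nat_lit 521796) (.g (nat_lit 3501) (.e (nat_lit 204846) (nat_lit 24) (.e (nat_lit 319528) (nat_lit 16) (.e (nat_lit 286735) (nat_lit 3) (.e (nat_lit 98365) (nat_lit 26) (.e (nat_lit 426188) (nat_lit 9) (.e (nat_lit 426131) (nat_lit 3) .nil)))))) (.g (nat_lit 1) (.e (nat_lit 226088) (nat_lit 0) .nil) .nil)))) (.nd (nat_lit 9) 
(.lf (nat_lit 521540) (.g (nat_lit 3207) (.e (nat_lit 204838) (nat_lit 20) (.e (nat_lit 114719) (nat_lit 23) (.e (nat_lit 98366) (nat_lit 27) (.e (nat_lit 434232) (nat_lit 23) (.e (nat_lit 532504) (nat_lit 1) (.e (nat_lit 57692) (nat_lit 156) (.e (nat_lit 163874) (nat_lit 3) .nil))))))) (.g (nat_lit 1) (.e (nat_lit 225691) (nat_lit 0) .nil) .nil))) 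
(.lf (nat_lit 522052) (.g (nat_lit 3938) (.e (nat_lit 204846) (nat_lit 24) (.e (nat_lit 319533) (nat_lit 16) (.e (nat_lit 286735) (nat_lit 3) (.e (nat_lit 98370) (nat_lit 28) (.e (nat_lit 442426) (nat_lit 23) .nil))))) (.g (nat_lit 1) (.e (nat_lit 226437) (nat_lit 0) .nil) .nil))))) (.nd (nat_lit 8) (.nd (nat_lit 9) 
(.lf (nat_lit 521412) (.g (nat_lit 3748) (.e (nat_lit 204838) (nat_lit 20) (.e (nat_lit 114715) (nat_lit 22) (.e (nat_lit 90170) (nat_lit 13) (.e (nat_lit 172065) (nat_lit 3) (.e (nat_lit 204830) (nat_lit 18) (.e (nat_lit 57691) (nat_lit 156) (.e (nat_lit 163872) (nat_lit 3) .nil))))))) (.g (nat_lit 1) (.e (nat_lit 225460) (nat_lit 0) .nil) .nil))) 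
(.lf (nat_lit 521924) (.g (nat_lit 2819) (.e (nat_lit 204846) (nat_lit 24) (.e (nat_lit 319531) (nat_lit 16) (.e (nat_lit 286735) (nat_lit 3) (.e (nat_lit 98369) (nat_lit 28) (.e (nat_lit 442425) (nat_lit 23) .nil))))) (.g (nat_lit 1) (.e (nat_lit 226257) (nat_lit 0) .nil) .nil)))) (.nd (nat_lit 9) 
(.lf (nat_lit 521668) (.g (nat_lit 2283) (.e (nat_lit 204845) (nat_lit 24) (.e (nat_lit 319530) (nat_lit 16) (.e (nat_lit 286735) (nat_lit 3) (.e (nat_lit 98381) (nat_lit 31) (.e (nat_lit 466978) (nat_lit 23) .nil))))) (.g (nat_lit 1) (.e (nat_lit 225901) (nat_lit 0) .nil) .nil))) 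
(.lf (nat_lit 522180) (.g (nat_lit 2996) (.e (nat_lit 204848) (nat_lit 25) (.e (nat_lit 327717) (nat_lit 17) (.e (nat_lit 294927) (nat_lit 2) (.e (nat_lit 90176) (nat_lit 15) (.e (nat_lit 188450) (nat_lit 23) .nil))))) (.g (nat_lit 1) (.e (nat_lit 226618) (nat_lit 0) .nil) .nil))))))) (.nd (nat_lit 6) (.nd (nat_lit 7) (.nd (nat_lit 8) (.nd (nat_lit 9) 
(.lf (nat_lit 521252) (.g (nat_lit 1184) (.e (nat_lit 204838) (nat_lit 20) (.e (nat_lit 114696) (nat_lit 11) (.e (nat_lit 426129) (nat_lit 3) (.e (nat_lit 204867) (nat_lit 28) (.e (nat_lit 360192) (nat_lit 3) .nil))))) (.g (nat_lit 1) (.e (nat_lit 225131) (nat_lit 0) .nil) .nil))) 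
(.lf (nat_lit 521764) (.g (nat_lit 351) (.e (nat_lit 204846) (nat_lit 24) (.e (nat_lit 319504) (nat_lit 10) (.e (nat_lit 7936) (nat_lit 312) .nil))) (.g (nat_lit 0) (.e (nat_lit 226035) (nat_lit 0) .nil) .nil)))) (.nd (nat_lit 9) 
(.lf (nat_lit 521508) (.g (nat_lit 1727) (.e (nat_lit 204838) (nat_lit 20) (.e (nat_lit 114719) (nat_lit 23) (.e (nat_lit 98334) (nat_lit 18) (.e (nat_lit 164399) (nat_lit 256) (.e (nat_lit 57373) (nat_lit 2) .nil))))) (.g (nat_lit 0) (.e (nat_lit 225636) (nat_lit 0) .nil) .nil))) 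
(.lf (nat_lit 522020) (.g (nat_lit 3325) (.e (nat_lit 204846) (nat_lit 24) (.e (nat_lit 319533) (nat_lit 16) (.e (nat_lit 286735) (nat_lit 3) (.e (nat_lit 98355) (nat_lit 26) (.e (nat_lit 426270) (nat_lit 9) (.e (nat_lit 426139) (nat_lit 3) .nil)))))) (.g (nat_lit 1) (.e (nat_lit 226405) (nat_lit 0) .nil) .nil))))) (.nd (nat_lit 8) (.nd (nat_lit 9) 
(.lf (nat_lit 521380) (.g (nat_lit 3572) (.e (nat_lit 204838) (nat_lit 20) (.e (nat_lit 114714) (nat_lit 22) (.e (nat_lit 90172) (nat_lit 14) (.e (nat_lit 180244) (nat_lit 5) (.e (nat_lit 532503) (nat_lit 1) (.e (nat_lit 57688) (nat_lit 156) (.e (nat_lit 163872) (nat_lit 3) .nil))))))) (.g (nat_lit 1) (.e (nat_lit 225405) (nat_lit 0) .nil) .nil))) 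
(.lf (nat_lit 521892) (.g (nat_lit 2054) (.e (nat_lit 204846) (nat_lit 24) (.e (nat_lit 319531) (nat_lit 16) (.e (nat_lit 286735) (nat_lit 3) (.e (nat_lit 98349) (nat_lit 24) (.e (nat_lit 417536) (nat_lit 8) .nil))))) (.g (nat_lit 0) (.e (nat_lit 226225) (nat_lit 0) .nil) .nil)))) (.nd (nat_lit 9) 
(.lf (nat_lit 521636) (.g (nat_lit 1890) (.e (nat_lit 204845) (nat_lit 24) (.e (nat_lit 319530) (nat_lit 16) (.e (nat_lit 286733) (nat_lit 2) (.e (nat_lit 90176) (nat_lit 15) (.e (nat_lit 196352) (nat_lit 23) .nil))))) (.g (nat_lit 0) (.e (nat_lit 225869) (nat_lit 0) .nil) .nil))) 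
(.lf (nat_lit 522148) (.g (nat_lit 3814) (.e (nat_lit 204846) (nat_lit 24) (.e (nat_lit 319534) (nat_lit 16) (.e (nat_lit 286735) (nat_lit 3) (.e (nat_lit 98367) (nat_lit 27) (.e (nat_lit 434184) (nat_lit 8) (.e (nat_lit 2682) (nat_lit 168) .nil)))))) (.g (nat_lit 1) (.e (nat_lit 226553) (nat_lit 0) .nil) .nil)))))) (.nd (nat_lit 7) (.nd (nat_lit 8) (.nd (nat_lit 9) 
(.lf (nat_lit 521316) (.g (nat_lit 1866) (.e (nat_lit 204838) (nat_lit 20) (.e (nat_lit 114698) (nat_lit 11) (.e (nat_lit 426133) (nat_lit 3) (.e (nat_lit 204877) (nat_lit 31) .nil)))) (.g (nat_lit 0) (.e (nat_lit 225288) (nat_lit 0) .nil) .nil))) 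
(.lf (nat_lit 521828) (.g (nat_lit 2277) (.e (nat_lit 204846) (nat_lit 24) (.e (nat_lit 319529) (nat_lit 16) (.e (nat_lit 286735) (nat_lit 3) (.e (nat_lit 98380) (nat_lit 31) (.e (nat_lit 466979) (nat_lit 23) .nil))))) (.g (nat_lit 1) (.e (nat_lit 226139) (nat_lit 0) .nil) .nil)))) (.nd (nat_lit 9) 
(.lf (nat_lit 521572) (.g (nat_lit 1089) (.e (nat_lit 204845) (nat_lit 24) (.e (nat_lit 319490) (nat_lit 0) (.e (nat_lit 5629) (nat_lit 312) .nil))) (.g (nat_lit 0) (.e (nat_lit 225759) (nat_lit 0) .nil) .nil))) 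
(.lf (nat_lit 522084) (.g (nat_lit 399) (.e (nat_lit 204846) (nat_lit 24) (.e (nat_lit 319534) (nat_lit 16) (.e (nat_lit 286734) (nat_lit 3) .nil))) (.g (nat_lit 0) (.e (nat_lit 226488) (nat_lit 0) .nil) .nil))))) (.nd (nat_lit 8) (.nd (nat_lit 9) 
(.lf (nat_lit 521444) (.g (nat_lit 3379) (.e (nat_lit 204838) (nat_lit 20) (.e (nat_lit 114716) (nat_lit 22) (.e (nat_lit 90172) (nat_lit 14) (.e (nat_lit 180244) (nat_lit 5) (.e (nat_lit 532503) (nat_lit 1) (.e (nat_lit 57687) (nat_lit 156) (.e (nat_lit 163872) (nat_lit 3) .nil))))))) (.g (nat_lit 1) (.e (nat_lit 225517) (nat_lit 0) .nil) .nil))) 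
(.lf (nat_lit 521956) (.g (nat_lit 445) (.e (nat_lit 204846) (nat_lit 24) (.e (nat_lit 319533) (nat_lit 16) (.e (nat_lit 286720) (nat_lit 0) .nil))) (.g (nat_lit 0) (.e (nat_lit 226314) (nat_lit 0) .nil) .nil)))) (.nd (nat_lit 9) 
(.lf (nat_lit 521700) (.g (nat_lit 1613) (.e (nat_lit 204845) (nat_lit 24) (.e (nat_lit 319531) (nat_lit 16) (.e (nat_lit 286735) (nat_lit 3) (.e (nat_lit 98364) (nat_lit 26) .nil)))) (.g (nat_lit 0) (.e (nat_lit 225944) (nat_lit 0) .nil) .nil))) 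
(.lf (nat_lit 522212) (.g (nat_lit 4332) (.e (nat_lit 204849) (nat_lit 25) (.e (nat_lit 327699) (nat_lit 8) (.e (nat_lit 303119) (nat_lit 3) (.e (nat_lit 204846) (nat_lit 24) (.e (nat_lit 319491) (nat_lit 0) .nil))))) (.g (nat_lit 0) (.e (nat_lit 226663) (nat_lit 0) .nil) .nil)))))))) (.nd (nat_lit 5) (.nd (nat_lit 6) (.nd (nat_lit 7) (.nd (nat_lit 8) (.nd (nat_lit 9) 
(.lf (nat_lit 521236) (.g (nat_lit 2349) (.e (nat_lit 204838) (nat_lit 20) (.e (nat_lit 114694) (nat_lit 11) (.e (nat_lit 426139) (nat_lit 3) (.e (nat_lit 204859) (nat_lit 26) (.e (nat_lit 336116) (nat_lit 9) (.e (nat_lit 336323) (nat_lit 18) .nil)))))) (.g (nat_lit 1) (.e (nat_lit 225111) (nat_lit 0) .nil) .nil))) 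
(.lf (nat_lit 521748) (.g (nat_lit 907) (.e (nat_lit 204846) (nat_lit 24) (.e (nat_lit 319490) (nat_lit 0) (.e (nat_lit 5629) (nat_lit 312) .nil))) (.g (nat_lit 0) (.e (nat_lit 226004) (nat_lit 0) .nil) .nil)))) (.nd (nat_lit 9) 
(.lf (nat_lit 521492) (.g (nat_lit 2753) (.e (nat_lit 204838) (nat_lit 20) (.e (nat_lit 114718) (nat_lit 23) (.e (nat_lit 98384) (nat_lit 32) (.e (nat_lit 475177) (nat_lit 24) (.e (nat_lit 516115) (nat_lit 1) (.e (nat_lit 164332) (nat_lit 230) (.e (nat_lit 163874) (nat_lit 3) .nil))))))) (.g (nat_lit 1) (.e (nat_lit 225612) (nat_lit 0) .nil) .nil))) 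
(.lf (nat_lit 522004) (.g (nat_lit 358) (.e (nat_lit 204846) (nat_lit 24) (.e (nat_lit 319533) (nat_lit 16) (.e (nat_lit 286735) (nat_lit 3) .nil))) (.g (nat_lit 0) (.e (nat_lit 226383) (nat_lit 0) .nil) .nil))))) (.nd (nat_lit 8) (.nd (nat_lit 9) 
(.lf (nat_lit 521364) (.g (nat_lit 2462) (.e (nat_lit 204838) (nat_lit 20) (.e (nat_lit 114714) (nat_lit 22) (.e (nat_lit 90170) (nat_lit 13) (.e (nat_lit 172067) (nat_lit 3) (.e (nat_lit 204829) (nat_lit 18) .nil))))) (.g (nat_lit 0) (.e (nat_lit 225381) (nat_lit 0) .nil) .nil))) 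
(.lf (nat_lit 521876) (.g (nat_lit 3573) (.e (nat_lit 204846) (nat_lit 24) (.e (nat_lit 319531) (nat_lit 16) (.e (nat_lit 286733) (nat_lit 2) (.e (nat_lit 90170) (nat_lit 13) (.e (nat_lit 172094) (nat_lit 9) .nil))))) (.g (nat_lit 0) (.e (nat_lit 226208) (nat_lit 0) .nil) .nil)))) (.nd (nat_lit 9) 
(.lf (nat_lit 521620) (.g (nat_lit 2308) (.e (nat_lit 204845) (nat_lit 24) (.e (nat_lit 319529) (nat_lit 16) (.e (nat_lit 286735) (nat_lit 3) (.e (nat_lit 98381) (nat_lit 31) (.e (nat_lit 466978) (nat_lit 23) .nil))))) (.g (nat_lit 0) (.e (nat_lit 225841) (nat_lit 0) .nil) .nil))) 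
(.lf (nat_lit 522132) (.g (nat_lit 1249) (.e (nat_lit 204846) (nat_lit 24) (.e (nat_lit 319534) (nat_lit 16) (.e (nat_lit 286735) (nat_lit 3) (.e (nat_lit 98363) (nat_lit 26) .nil)))) (.g (nat_lit 0) (.e (nat_lit 226537) (nat_lit 0) .nil) .nil)))))) (.nd (nat_lit 7) (.nd (nat_lit 8) (.nd (nat_lit 9) 
(.lf (nat_lit 521300) (.g (nat_lit 1864) (.e (nat_lit 204838) (nat_lit 20) (.e (nat_lit 114698) (nat_lit 11) (.e (nat_lit 426123) (nat_lit 2) (.e (nat_lit 196672) (nat_lit 15) .nil)))) (.g (nat_lit 0) (.e (nat_lit 225254) (nat_lit 0) .nil) .nil))) 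
(.lf (nat_lit 521812) (.g (nat_lit 2226) (.e (nat_lit 204846) (nat_lit 24) (.e (nat_lit 319529) (nat_lit 16) (.e (nat_lit 286733) (nat_lit 2) (.e (nat_lit 90172) (nat_lit 14) (.e (nat_lit 188160) (nat_lit 40) .nil))))) (.g (nat_lit 0) (.e (nat_lit 226110) (nat_lit 0) .nil) .nil)))) (.nd (nat_lit 9) 
(.lf (nat_lit 521556) (.g (nat_lit 2733) (.e (nat_lit 204838) (nat_lit 20) (.e (nat_lit 114719) (nat_lit 23) (.e (nat_lit 98384) (nat_lit 32) (.e (nat_lit 475177) (nat_lit 24) (.e (nat_lit 516117) (nat_lit 1) (.e (nat_lit 164332) (nat_lit 230) (.e (nat_lit 163874) (nat_lit 3) .nil))))))) (.g (nat_lit 1) (.e (nat_lit 225718) (nat_lit 0) .nil) .nil))) 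
(.lf (nat_lit 522068) (.g (nat_lit 1097) (.e (nat_lit 204846) (nat_lit 24) (.e (nat_lit 319534) (nat_lit 16) (.e (nat_lit 286726) (nat_lit 0) .nil))) (.g (nat_lit 0) (.e (nat_lit 226456) (nat_lit 0) .nil) .nil))))) (.nd (nat_lit 8) (.nd (nat_lit 9) 
(.lf (nat_lit 521428) (.g (nat_lit 3591) (.e (nat_lit 204838) (nat_lit 20) (.e (nat_lit 114715) (nat_lit 22) (.e (nat_lit 90170) (nat_lit 13) (.e (nat_lit 172067) (nat_lit 3) (.e (nat_lit 204831) (nat_lit 18) (.e (nat_lit 57692) (nat_lit 156) (.e (nat_lit 163874) (nat_lit 3) .nil))))))) (.g (nat_lit 1) (.e (nat_lit 225483) (nat_lit 0) .nil) .nil))) 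
(.lf (nat_lit 521940) (.g (nat_lit 2547) (.e (nat_lit 204846) (nat_lit 24) (.e (nat_lit 319532) (nat_lit 16) (.e (nat_lit 286733) (nat_lit 2) (.e (nat_lit 90170) (nat_lit 13) (.e (nat_lit 172095) (nat_lit 9) .nil))))) (.g (nat_lit 0) (.e (nat_lit 226285) (nat_lit 0) .nil) .nil)))) (.nd (nat_lit 9) 
(.lf (nat_lit 521684) (.g (nat_lit 417) (.e (nat_lit 204845) (nat_lit 24) (.e (nat_lit 319531) (nat_lit 16) (.e (nat_lit 286734) (nat_lit 3) .nil))) (.g (nat_lit 0) (.e (nat_lit 225926) (nat_lit 0) .nil) .nil))) 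
(.lf (nat_lit 522196) (.g (nat_lit 2898) (.e (nat_lit 204849) (nat_lit 25) (.e (nat_lit 327698) (nat_lit 8) (.e (nat_lit 303119) (nat_lit 3) (.e (nat_lit 204863) (nat_lit 27) (.e (nat_lit 344068) (nat_lit 0) .nil))))) (.g (nat_lit 0) (.e (nat_lit 226637) (nat_lit 0) .nil) .nil))))))) (.nd (nat_lit 6) (.nd (nat_lit 7) (.nd (nat_lit 8) (.nd (nat_lit 9) 
(.lf (nat_lit 521268) (.g (nat_lit 2149) (.e (nat_lit 204838) (nat_lit 20) (.e (nat_lit 114697) (nat_lit 11) (.e (nat_lit 426137) (nat_lit 3) (.e (nat_lit 204861) (nat_lit 26) (.e (nat_lit 336075) (nat_lit 9) (.e (nat_lit 336326) (nat_lit 18) .nil)))))) (.g (nat_lit 1) (.e (nat_lit 225181) (nat_lit 0) .nil) .nil))) 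
(.lf (nat_lit 521780) (.g (nat_lit 3079) (.e (nat_lit 204846) (nat_lit 24) (.e (nat_lit 319538) (nat_lit 19) (.e (nat_lit 311315) (nat_lit 3) (.e (nat_lit 204846) (nat_lit 24) (.e (nat_lit 319538) (nat_lit 19) (.e (nat_lit 311314) (nat_lit 3) .nil)))))) (.g (nat_lit 1) (.e (nat_lit 226068) (nat_lit 0) .nil) .nil)))) (.nd (nat_lit 9) 
(.lf (nat_lit 521524) (.g (nat_lit 1526) (.e (nat_lit 204838) (nat_lit 20) (.e (nat_lit 114719) (nat_lit 23) (.e (nat_lit 98365) (nat_lit 26) (.e (nat_lit 426138) (nat_lit 3) .nil)))) (.g (nat_lit 0) (.e (nat_lit 225669) (nat_lit 0) .nil) .nil))) 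
(.lf (nat_lit 522036) (.g (nat_lit 1806) (.e (nat_lit 204846) (nat_lit 24) (.e (nat_lit 319533) (nat_lit 16) (.e (nat_lit 286735) (nat_lit 3) (.e (nat_lit 98364) (nat_lit 26) .nil)))) (.g (nat_lit 0) (.e (nat_lit 226421) (nat_lit 0) .nil) .nil))))) (.nd (nat_lit 8) (.nd (nat_lit 9) 
(.lf (nat_lit 521396) (.g (nat_lit 3001) (.e (nat_lit 204838) (nat_lit 20) (.e (nat_lit 114714) (nat_lit 22) (.e (nat_lit 90174) (nat_lit 14) (.e (nat_lit 180243) (nat_lit 5) (.e (nat_lit 532503) (nat_lit 1) (.e (nat_lit 57685) (nat_lit 156) (.e (nat_lit 163872) (nat_lit 3) .nil))))))) (.g (nat_lit 1) (.e (nat_lit 225434) (nat_lit 0) .nil) .nil))) 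
(.lf (nat_lit 521908) (.g (nat_lit 2794) (.e (nat_lit 204846) (nat_lit 24) (.e (nat_lit 319531) (nat_lit 16) (.e (nat_lit 286735) (nat_lit 3) (.e (nat_lit 98363) (nat_lit 26) (.e (nat_lit 426230) (nat_lit 9) (.e (nat_lit 433920) (nat_lit 3) .nil)))))) (.g (nat_lit 1) (.e (nat_lit 226241) (nat_lit 0) .nil) .nil)))) (.nd (nat_lit 9) 
(.lf (nat_lit 521652) (.g (nat_lit 3138) (.e (nat_lit 204845) (nat_lit 24) (.e (nat_lit 319530) (nat_lit 16) (.e (nat_lit 286735) (nat_lit 3) (.e (nat_lit 98363) (nat_lit 26) (.e (nat_lit 426230) (nat_lit 9) (.e (nat_lit 433920) (nat_lit 3) .nil)))))) (.g (nat_lit 1) (.e (nat_lit 225885) (nat_lit 0) .nil) .nil))) 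
(.lf (nat_lit 522164) (.g (nat_lit 2548) (.e (nat_lit 204846) (nat_lit 24) (.e (nat_lit 327424) (nat_lit 16) (.e (nat_lit 286735) (nat_lit 3) (.e (nat_lit 98367) (nat_lit 27) (.e (nat_lit 442112) (nat_lit 8) (.e (nat_lit 2685) (nat_lit 168) .nil)))))) (.g (nat_lit 1) (.e (nat_lit 226570) (nat_lit 0) .nil) .nil)))))) (.nd (nat_lit 7) (.nd (nat_lit 8) (.nd (nat_lit 9) 
(.lf (nat_lit 521332) (.g (nat_lit 2993) (.e (nat_lit 204838) (nat_lit 20) (.e (nat_lit 114698) (nat_lit 11) (.e (nat_lit 426138) (nat_lit 3) (.e (nat_lit 204861) (nat_lit 26) (.e (nat_lit 336076) (nat_lit 9) (.e (nat_lit 336325) (nat_lit 18) .nil)))))) (.g (nat_lit 1) (.e (nat_lit 225309) (nat_lit 0) .nil) .nil))) 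
(.lf (nat_lit 521844) (.g (nat_lit 1580) (.e (nat_lit 204846) (nat_lit 24) (.e (nat_lit 319530) (nat_lit 16) (.e (nat_lit 286733) (nat_lit 2) (.e (nat_lit 90186) (nat_lit 17) .nil)))) (.g (nat_lit 0) (.e (nat_lit 226164) (nat_lit 0) .nil) .nil)))) (.nd (nat_lit 9) 
(.lf (nat_lit 521588) (.g (nat_lit 3551) (.e (nat_lit 204845) (nat_lit 24) (.e (nat_lit 319528) (nat_lit 16) (.e (nat_lit 286733) (nat_lit 2) (.e (nat_lit 90170) (nat_lit 13) (.e (nat_lit 172095) (nat_lit 9) (.e (nat_lit 426140) (nat_lit 3) .nil)))))) (.g (nat_lit 1) (.e (nat_lit 225786) (nat_lit 0) .nil) .nil))) 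
(.lf (nat_lit 522100) (.g (nat_lit 1683) (.e (nat_lit 204846) (nat_lit 24) (.e (nat_lit 319534) (nat_lit 16) (.e (nat_lit 286734) (nat_lit 3) (.e (nat_lit 98363) (nat_lit 26) .nil)))) (.g (nat_lit 0) (.e (nat_lit 226505) (nat_lit 0) .nil) .nil))))) (.nd (nat_lit 8) (.nd (nat_lit 9) 
(.lf (nat_lit 521460) (.g (nat_lit 3649) (.e (nat_lit 204838) (nat_lit 20) (.e (nat_lit 114716) (nat_lit 22) (.e (nat_lit 90174) (nat_lit 14) (.e (nat_lit 180243) (nat_lit 5) (.e (nat_lit 532503) (nat_lit 1) (.e (nat_lit 57688) (nat_lit 156) (.e (nat_lit 163872) (nat_lit 3) .nil))))))) (.g (nat_lit 1) (.e (nat_lit 225554) (nat_lit 0) .nil) .nil))) 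
(.lf (nat_lit 521972) (.g (nat_lit 1827) (.e (nat_lit 204846) (nat_lit 24) (.e (nat_lit 319533) (nat_lit 16) (.e (nat_lit 286733) (nat_lit 2) (.e (nat_lit 90170) (nat_lit 13) (.e (nat_lit 172085) (nat_lit 9) .nil))))) (.g (nat_lit 0) (.e (nat_lit 226349) (nat_lit 0) .nil) .nil)))) (.nd (nat_lit 9) 
(.lf (nat_lit 521716) (.g (nat_lit 2654) (.e (nat_lit 204845) (nat_lit 24) (.e (nat_lit 319531) (nat_lit 16) (.e (nat_lit 286735) (nat_lit 3) (.e (nat_lit 98382) (nat_lit 31) (.e (nat_lit 474880) (nat_lit 23) .nil))))) (.g (nat_lit 1) (.e (nat_lit 225960) (nat_lit 0) .nil) .nil))) 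
(.lf (nat_lit 522228) (.g (nat_lit 1392) (.e (nat_lit 204849) (nat_lit 25) (.e (nat_lit 327708) (nat_lit 10) (.e (nat_lit 5293) (nat_lit 298) (.e (nat_lit 1232) (nat_lit 91) .nil)))) (.g (nat_lit 0) (.e (nat_lit 226692) (nat_lit 0) .nil) .nil))))))))) (.nd (nat_lit 4) (.nd (nat_lit 5) (.nd (nat_lit 6) (.nd (nat_lit 7) (.nd (nat_lit 8) (.nd (nat_lit 9) 
(.lf (nat_lit 521228) (.g (nat_lit 3455) (.e (nat_lit 204838) (nat_lit 20) (.e (nat_lit 114694) (nat_lit 11) (.e (nat_lit 426133) (nat_lit 3) (.e (nat_lit 204861) (nat_lit 26) (.e (nat_lit 336075) (nat_lit 9) (.e (nat_lit 336324) (nat_lit 18) .nil)))))) (.g (nat_lit 1) (.e (nat_lit 225103) (nat_lit 0) .nil) .nil))) 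
(.lf (nat_lit 521740) (.g (nat_lit 1665) (.e (nat_lit 204845) (nat_lit 24) (.e (nat_lit 319534) (nat_lit 16) (.e (nat_lit 286735) (nat_lit 3) (.e (nat_lit 98357) (nat_lit 26) .nil)))) (.g (nat_lit 0) (.e (nat_lit 225994) (nat_lit 0) .nil) .nil)))) (.nd (nat_lit 9) 
(.lf (nat_lit 521484) (.g (nat_lit 3591) (.e (nat_lit 204838) (nat_lit 20) (.e (nat_lit 114718) (nat_lit 23) (.e (nat_lit 98366) (nat_lit 27) (.e (nat_lit 434231) (nat_lit 23) (.e (nat_lit 532500) (nat_lit 1) (.e (nat_lit 57692) (nat_lit 156) (.e (nat_lit 163874) (nat_lit 3) .nil))))))) (.g (nat_lit 1) (.e (nat_lit 225600) (nat_lit 0) .nil) .nil))) 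
(.lf (nat_lit 521996) (.g (nat_lit 3094) (.e (nat_lit 204846) (nat_lit 24) (.e (nat_lit 319533) (nat_lit 16) (.e (nat_lit 286734) (nat_lit 3) (.e (nat_lit 98367) (nat_lit 27) (.e (nat_lit 442112) (nat_lit 8) (.e (nat_lit 2685) (nat_lit 168) .nil)))))) (.g (nat_lit 1) (.e (nat_lit 226375) (nat_lit 0) .nil) .nil))))) (.nd (nat_lit 8) (.nd (nat_lit 9) 
(.lf (nat_lit 521356) (.g (nat_lit 1176) (.e (nat_lit 204838) (nat_lit 20) (.e (nat_lit 122624) (nat_lit 11) (.e (nat_lit 426131) (nat_lit 3) (.e (nat_lit 204877) (nat_lit 31) (.e (nat_lit 384768) (nat_lit 3) .nil))))) (.g (nat_lit 1) (.e (nat_lit 225341) (nat_lit 0) .nil) .nil))) 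
(.lf (nat_lit 521868) (.g (nat_lit 296) (.e (nat_lit 204846) (nat_lit 24) (.e (nat_lit 319531) (nat_lit 16) (.e (nat_lit 286722) (nat_lit 0) .nil))) (.g (nat_lit 0) (.e (nat_lit 226189) (nat_lit 0) .nil) .nil)))) (.nd (nat_lit 9) 
(.lf (nat_lit 521612) (.g (nat_lit 2719) (.e (nat_lit 204845) (nat_lit 24) (.e (nat_lit 319529) (nat_lit 16) (.e (nat_lit 286735) (nat_lit 3) (.e (nat_lit 98367) (nat_lit 27) (.e (nat_lit 442112) (nat_lit 8) .nil))))) (.g (nat_lit 0) (.e (nat_lit 225831) (nat_lit 0) .nil) .nil))) 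
(.lf (nat_lit 522124) (.g (nat_lit 1748) (.e (nat_lit 204846) (nat_lit 24) (.e (nat_lit 319534) (nat_lit 16) (.e (nat_lit 286735) (nat_lit 3) (.e (nat_lit 98357) (nat_lit 26) .nil)))) (.g (nat_lit 0) (.e (nat_lit 226529) (nat_lit 0) .nil) .nil)))))) (.nd (nat_lit 7) (.nd (nat_lit 8) (.nd (nat_lit 9) 
(.lf (nat_lit 521292) (.g (nat_lit 1552) (.e (nat_lit 204838) (nat_lit 20) (.e (nat_lit 114697) (nat_lit 11) (.e (nat_lit 426139) (nat_lit 3) (.e (nat_lit 204876) (nat_lit 31) (.e (nat_lit 384768) (nat_lit 3) .nil))))) (.g (nat_lit 1) (.e (nat_lit 225209) (nat_lit 0) .nil) .nil))) 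
(.lf (nat_lit 521804) (.g (nat_lit 2016) (.e (nat_lit 204846) (nat_lit 24) (.e (nat_lit 319528) (nat_lit 16) (.e (nat_lit 286735) (nat_lit 3) (.e (nat_lit 98380) (nat_lit 31) (.e (nat_lit 466979) (nat_lit 23) .nil))))) (.g (nat_lit 1) (.e (nat_lit 226096) (nat_lit 0) .nil) .nil)))) (.nd (nat_lit 9) 
(.lf (nat_lit 521548) (.g (nat_lit 3283) (.e (nat_lit 204838) (nat_lit 20) (.e (nat_lit 114719) (nat_lit 23) (.e (nat_lit 98367) (nat_lit 27) (.e (nat_lit 434234) (nat_lit 23) (.e (nat_lit 532503) (nat_lit 1) (.e (nat_lit 57688) (nat_lit 156) (.e (nat_lit 163873) (nat_lit 3) .nil))))))) (.g (nat_lit 1) (.e (nat_lit 225709) (nat_lit 0) .nil) .nil))) 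
(.lf (nat_lit 522060) (.g (nat_lit 2562) (.e (nat_lit 204846) (nat_lit 24) (.e (nat_lit 319533) (nat_lit 16) (.e (nat_lit 286735) (nat_lit 3) (.e (nat_lit 98381) (nat_lit 31) (.e (nat_lit 466979) (nat_lit 23) .nil))))) (.g (nat_lit 0) (.e (nat_lit 226447) (nat_lit 0) .nil) .nil))))) (.nd (nat_lit 8) (.nd (nat_lit 9) 
(.lf (nat_lit 521420) (.g (nat_lit 2359) (.e (nat_lit 204838) (nat_lit 20) (.e (nat_lit 114715) (nat_lit 22) (.e (nat_lit 90170) (nat_lit 13) (.e (nat_lit 172067) (nat_lit 3) (.e (nat_lit 204829) (nat_lit 18) (.e (nat_lit 57686) (nat_lit 156) (.e (nat_lit 163872) (nat_lit 3) .nil))))))) (.g (nat_lit 1) (.e (nat_lit 225473) (nat_lit 0) .nil) .nil))) 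
(.lf (nat_lit 521932) (.g (nat_lit 2739) (.e (nat_lit 204846) (nat_lit 24) (.e (nat_lit 319531) (nat_lit 16) (.e (nat_lit 286735) (nat_lit 3) (.e (nat_lit 98382) (nat_lit 31) (.e (nat_lit 474880) (nat_lit 23) .nil))))) (.g (nat_lit 1) (.e (nat_lit 226265) (nat_lit 0) .nil) .nil)))) (.nd (nat_lit 9) 
(.lf (nat_lit 521676) (.g (nat_lit 1409) (.e (nat_lit 204845) (nat_lit 24) (.e (nat_lit 319531) (nat_lit 16) (.e (nat_lit 286727) (nat_lit 0) (.e (nat_lit 1715) (nat_lit 117) .nil)))) (.g (nat_lit 0) (.e (nat_lit 225909) (nat_lit 0) .nil) .nil))) 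
(.lf (nat_lit 522188) (.g (nat_lit 1816) (.e (nat_lit 204849) (nat_lit 25) (.e (nat_lit 327698) (nat_lit 8) (.e (nat_lit 303118) (nat_lit 3) (.e (nat_lit 204849) (nat_lit 25) (.e (nat_lit 327698) (nat_lit 8) (.e (nat_lit 303118) (nat_lit 3) .nil)))))) (.g (nat_lit 1) (.e (nat_lit 226629) (nat_lit 0) .nil) .nil))))))) (.nd (nat_lit 6) (.nd (nat_lit 7) (.nd (nat_lit 8) (.nd (nat_lit 9) 
(.lf (nat_lit 521260) (.g (nat_lit 2635) (.e (nat_lit 204838) (nat_lit 20) (.e (nat_lit 114697) (nat_lit 11) (.e (nat_lit 426133) (nat_lit 3) (.e (nat_lit 204861) (nat_lit 26) (.e (nat_lit 336075) (nat_lit 9) (.e (nat_lit 336325) (nat_lit 18) .nil)))))) (.g (nat_lit 1) (.e (nat_lit 225173) (nat_lit 0) .nil) .nil))) 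
(.lf (nat_lit 521772) (.g (nat_lit 1064) (.e (nat_lit 204846) (nat_lit 24) (.e (nat_lit 319506) (nat_lit 10) (.e (nat_lit 5389) (nat_lit 301) (.e (nat_lit 57464) (nat_lit 23) (.e (nat_lit 516163) (nat_lit 11) .nil))))) (.g (nat_lit 0) (.e (nat_lit 226053) (nat_lit 0) .nil) .nil)))) (.nd (nat_lit 9) 
(.lf (nat_lit 521516) (.g (nat_lit 3709) (.e (nat_lit 204838) (nat_lit 20) (.e (nat_lit 114719) (nat_lit 23) (.e (nat_lit 98356) (nat_lit 26) (.e (nat_lit 426438) (nat_lit 18) (.e (nat_lit 98334) (nat_lit 18) (.e (nat_lit 164330) (nat_lit 230) (.e (nat_lit 163874) (nat_lit 3) .nil))))))) (.g (nat_lit 1) (.e (nat_lit 225649) (nat_lit 0) .nil) .nil))) 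
(.lf (nat_lit 522028) (.g (nat_lit 2645) (.e (nat_lit 204846) (nat_lit 24) (.e (nat_lit 319533) (nat_lit 16) (.e (nat_lit 286735) (nat_lit 3) (.e (nat_lit 98360) (nat_lit 26) (.e (nat_lit 426215) (nat_lit 9) .nil))))) (.g (nat_lit 0) (.e (nat_lit 226413) (nat_lit 0) .nil) .nil))))) (.nd (nat_lit 8) (.nd (nat_lit 9) 
(.lf (nat_lit 521388) (.g (nat_lit 3198) (.e (nat_lit 204838) (nat_lit 20) (.e (nat_lit 114714) (nat_lit 22) (.e (nat_lit 90174) (nat_lit 14) (.e (nat_lit 180243) (nat_lit 5) (.e (nat_lit 532499) (nat_lit 1) (.e (nat_lit 57691) (nat_lit 156) (.e (nat_lit 163872) (nat_lit 3) .nil))))))) (.g (nat_lit 1) (.e (nat_lit 225421) (nat_lit 0) .nil) .nil))) 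
(.lf (nat_lit 521900) (.g (nat_lit 2458) (.e (nat_lit 204846) (nat_lit 24) (.e (nat_lit 319531) (nat_lit 16) (.e (nat_lit 286735) (nat_lit 3) (.e (nat_lit 98356) (nat_lit 26) (.e (nat_lit 433920) (nat_lit 9) (.e (nat_lit 426139) (nat_lit 3) .nil)))))) (.g (nat_lit 1) (.e (nat_lit 226233) (nat_lit 0) .nil) .nil)))) (.nd (nat_lit 9) 
(.lf (nat_lit 521644) (.g (nat_lit 3045) (.e (nat_lit 204845) (nat_lit 24) (.e (nat_lit 319530) (nat_lit 16) (.e (nat_lit 286735) (nat_lit 3) (.e (nat_lit 98353) (nat_lit 25) (.e (nat_lit 417813) (nat_lit 9) (.e (nat_lit 311315) (nat_lit 3) .nil)))))) (.g (nat_lit 1) (.e (nat_lit 225877) (nat_lit 0) .nil) .nil))) 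
(.lf (nat_lit 522156) (.g (nat_lit 2404) (.e (nat_lit 204846) (nat_lit 24) (.e (nat_lit 319534) (nat_lit 16) (.e (nat_lit 286735) (nat_lit 3) (.e (nat_lit 98381) (nat_lit 31) (.e (nat_lit 466979) (nat_lit 23) .nil))))) (.g (nat_lit 1) (.e (nat_lit 226562) (nat_lit 0) .nil) .nil)))))) (.nd (nat_lit 7) (.nd (nat_lit 8) (.nd (nat_lit 9) 
(.lf (nat_lit 521324) (.g (nat_lit 3288) (.e (nat_lit 204838) (nat_lit 20) (.e (nat_lit 114698) (nat_lit 11) (.e (nat_lit 426137) (nat_lit 3) (.e (nat_lit 204861) (nat_lit 26) (.e (nat_lit 336088) (nat_lit 9) (.e (nat_lit 336324) (nat_lit 18) .nil)))))) (.g (nat_lit 1) (.e (nat_lit 225297) (nat_lit 0) .nil) .nil))) 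
(.lf (nat_lit 521836) (.g (nat_lit 1484) (.e (nat_lit 204846) (nat_lit 24) (.e (nat_lit 319530) (nat_lit 16) (.e (nat_lit 286727) (nat_lit 0) (.e (nat_lit 1799) (nat_lit 119) .nil)))) (.g (nat_lit 0) (.e (nat_lit 226149) (nat_lit 0) .nil) .nil)))) (.nd (nat_lit 9) 
(.lf (nat_lit 521580) (.g (nat_lit 2783) (.e (nat_lit 204845) (nat_lit 24) (.e (nat_lit 319537) (nat_lit 19) (.e (nat_lit 311315) (nat_lit 3) (.e (nat_lit 204845) (nat_lit 24) (.e (nat_lit 319538) (nat_lit 19) (.e (nat_lit 311315) (nat_lit 3) .nil)))))) (.g (nat_lit 1) (.e (nat_lit 225773) (nat_lit 0) .nil) .nil))) 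
(.lf (nat_lit 522092) (.g (nat_lit 2304) (.e (nat_lit 204846) (nat_lit 24) (.e (nat_lit 319534) (nat_lit 16) (.e (nat_lit 286734) (nat_lit 3) (.e (nat_lit 98350) (nat_lit 24) (.e (nat_lit 417536) (nat_lit 8) .nil))))) (.g (nat_lit 0) (.e (nat_lit 226497) (nat_lit 0) .nil) .nil))))) (.nd (nat_lit 8) (.nd (nat_lit 9) 
(.lf (nat_lit 521452) (.g (nat_lit 3781) (.e (nat_lit 204838) (nat_lit 20) (.e (nat_lit 114716) (nat_lit 22) (.e (nat_lit 90174) (nat_lit 14) (.e (nat_lit 180243) (nat_lit 5) (.e (nat_lit 532499) (nat_lit 1) (.e (nat_lit 57692) (nat_lit 156) (.e (nat_lit 163872) (nat_lit 3) .nil))))))) (.g (nat_lit 1) (.e (nat_lit 225533) (nat_lit 0) .nil) .nil))) 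
(.lf (nat_lit 521964) (.g (nat_lit 851) (.e (nat_lit 204846) (nat_lit 24) (.e (nat_lit 319533) (nat_lit 16) (.e (nat_lit 286727) (nat_lit 0) .nil))) (.g (nat_lit 0) (.e (nat_lit 226324) (nat_lit 0) .nil) .nil)))) (.nd (nat_lit 9) 
(.lf (nat_lit 521708) (.g (nat_lit 2024) (.e (nat_lit 204845) (nat_lit 24) (.e (nat_lit 319531) (nat_lit 16) (.e (nat_lit 286735) (nat_lit 3) (.e (nat_lit 98368) (nat_lit 27) (.e (nat_lit 442112) (nat_lit 8) .nil))))) (.g (nat_lit 0) (.e (nat_lit 225952) (nat_lit 0) .nil) .nil))) 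
(.lf (nat_lit 522220) (.g (nat_lit 3114) (.e (nat_lit 204849) (nat_lit 25) (.e (nat_lit 327699) (nat_lit 8) (.e (nat_lit 303119) (nat_lit 3) (.e (nat_lit 204863) (nat_lit 27) (.e (nat_lit 352000) (nat_lit 0) .nil))))) (.g (nat_lit 0) (.e (nat_lit 226671) (nat_lit 0) .nil) .nil)))))))) (.nd (nat_lit 5) (.nd (nat_lit 6) (.nd (nat_lit 7) (.nd (nat_lit 8) (.nd (nat_lit 9) 
(.lf (nat_lit 521244) (.g (nat_lit 3719) (.e (nat_lit 204838) (nat_lit 20) (.e (nat_lit 114694) (nat_lit 11) (.e (nat_lit 426139) (nat_lit 3) (.e (nat_lit 204861) (nat_lit 26) (.e (nat_lit 336076) (nat_lit 9) (.e (nat_lit 336324) (nat_lit 18) .nil)))))) (.g (nat_lit 1) (.e (nat_lit 225119) (nat_lit 0) .nil) .nil))) 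
(.lf (nat_lit 521756) (.g (nat_lit 932) (.e (nat_lit 204846) (nat_lit 24) (.e (nat_lit 319490) (nat_lit 0) (.e (nat_lit 5259) (nat_lit 298) .nil))) (.g (nat_lit 0) (.e (nat_lit 226023) (nat_lit 0) .nil) .nil)))) (.nd (nat_lit 9) 
(.lf (nat_lit 521500) (.g (nat_lit 3043) (.e (nat_lit 204838) (nat_lit 20) (.e (nat_lit 114718) (nat_lit 23) (.e (nat_lit 98384) (nat_lit 32) (.e (nat_lit 475179) (nat_lit 24) (.e (nat_lit 516120) (nat_lit 1) (.e (nat_lit 164330) (nat_lit 230) (.e (nat_lit 163873) (nat_lit 3) .nil))))))) (.g (nat_lit 1) (.e (nat_lit 225623) (nat_lit 0) .nil) .nil))) 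
(.lf (nat_lit 522012) (.g (nat_lit 4868) (.e (nat_lit 204846) (nat_lit 24) (.e (nat_lit 319533) (nat_lit 16) (.e (nat_lit 286735) (nat_lit 3) (.e (nat_lit 98325) (nat_lit 17) (.e (nat_lit 6986) (nat_lit 377) (.e (nat_lit 1374) (nat_lit 104) (.e (nat_lit 303119) (nat_lit 3) .nil))))))) (.g (nat_lit 1) (.e (nat_lit 226392) (nat_lit 0) .nil) .nil))))) (.nd (nat_lit 8) (.nd (nat_lit 9) 
(.lf (nat_lit 521372) (.g (nat_lit 2800) (.e (nat_lit 204838) (nat_lit 20) (.e (nat_lit 114714) (nat_lit 22) (.e (nat_lit 90172) (nat_lit 14) (.e (nat_lit 180244) (nat_lit 5) (.e (nat_lit 532499) (nat_lit 1) (.e (nat_lit 57686) (nat_lit 156) (.e (nat_lit 163872) (nat_lit 3) .nil))))))) (.g (nat_lit 1) (.e (nat_lit 225395) (nat_lit 0) .nil) .nil))) 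
(.lf (nat_lit 521884) (.g (nat_lit 1798) (.e (nat_lit 204846) (nat_lit 24) (.e (nat_lit 319531) (nat_lit 16) (.e (nat_lit 286734) (nat_lit 3) (.e (nat_lit 98379) (nat_lit 31) .nil)))) (.g (nat_lit 0) (.e (nat_lit 226216) (nat_lit 0) .nil) .nil)))) (.nd (nat_lit 9) 
(.lf (nat_lit 521628) (.g (nat_lit 1653) (.e (nat_lit 204845) (nat_lit 24) (.e (nat_lit 319530) (nat_lit 16) (.e (nat_lit 286727) (nat_lit 0) (.e (nat_lit 1715) (nat_lit 117) .nil)))) (.g (nat_lit 0) (.e (nat_lit 225849) (nat_lit 0) .nil) .nil))) 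
(.lf (nat_lit 522140) (.g (nat_lit 3588) (.e (nat_lit 204846) (nat_lit 24) (.e (nat_lit 319534) (nat_lit 16) (.e (nat_lit 286735) (nat_lit 3) (.e (nat_lit 98364) (nat_lit 26) (.e (nat_lit 426200) (nat_lit 9) (.e (nat_lit 426131) (nat_lit 3) .nil)))))) (.g (nat_lit 1) (.e (nat_lit 226545) (nat_lit 0) .nil) .nil)))))) (.nd (nat_lit 7) (.nd (nat_lit 8) (.nd (nat_lit 9) 
(.lf (nat_lit 521308) (.g (nat_lit 2616) (.e (nat_lit 204838) (nat_lit 20) (.e (nat_lit 114698) (nat_lit 11) (.e (nat_lit 426133) (nat_lit 3) (.e (nat_lit 204861) (nat_lit 26) (.e (nat_lit 336075) (nat_lit 9) (.e (nat_lit 336322) (nat_lit 18) .nil)))))) (.g (nat_lit 1) (.e (nat_lit 225280) (nat_lit 0) .nil) .nil))) 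
(.lf (nat_lit 521820) (.g (nat_lit 2887) (.e (nat_lit 204846) (nat_lit 24) (.e (nat_lit 319529) (nat_lit 16) (.e (nat_lit 286735) (nat_lit 3) (.e (nat_lit 98363) (nat_lit 26) (.e (nat_lit 426230) (nat_lit 9) (.e (nat_lit 426129) (nat_lit 3) .nil)))))) (.g (nat_lit 1) (.e (nat_lit 226122) (nat_lit 0) .nil) .nil)))) (.nd (nat_lit 9) 
(.lf (nat_lit 521564) (.g (nat_lit 5062) (.e (nat_lit 204838) (nat_lit 20) (.e (nat_lit 114719) (nat_lit 23) (.e (nat_lit 98384) (nat_lit 32) (.e (nat_lit 475179) (nat_lit 24) (.e (nat_lit 516120) (nat_lit 1) (.e (nat_lit 164330) (nat_lit 230) (.e (nat_lit 163872) (nat_lit 3) .nil))))))) (.g (nat_lit 1) (.e (nat_lit 225728) (nat_lit 0) .nil) .nil))) 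
(.lf (nat_lit 522076) (.g (nat_lit 1378) (.e (nat_lit 204846) (nat_lit 24) (.e (nat_lit 319534) (nat_lit 16) (.e (nat_lit 286732) (nat_lit 2) (.e (nat_lit 90174) (nat_lit 14) .nil)))) (.g (nat_lit 0) (.e (nat_lit 226470) (nat_lit 0) .nil) .nil))))) (.nd (nat_lit 8) (.nd (nat_lit 9) 
(.lf (nat_lit 521436) (.g (nat_lit 2721) (.e (nat_lit 204838) (nat_lit 20) (.e (nat_lit 114716) (nat_lit 22) (.e (nat_lit 90172) (nat_lit 14) (.e (nat_lit 180243) (nat_lit 5) (.e (nat_lit 532504) (nat_lit 1) (.e (nat_lit 57690) (nat_lit 156) (.e (nat_lit 163872) (nat_lit 3) .nil))))))) (.g (nat_lit 1) (.e (nat_lit 225499) (nat_lit 0) .nil) .nil))) 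
(.lf (nat_lit 521948) (.g (nat_lit 2209) (.e (nat_lit 204846) (nat_lit 24) (.e (nat_lit 319532) (nat_lit 16) (.e (nat_lit 286734) (nat_lit 3) (.e (nat_lit 98353) (nat_lit 25) (.e (nat_lit 417813) (nat_lit 9) (.e (nat_lit 311315) (nat_lit 3) .nil)))))) (.g (nat_lit 1) (.e (nat_lit 226294) (nat_lit 0) .nil) .nil)))) (.nd (nat_lit 9) 
(.lf (nat_lit 521692) (.g (nat_lit 2782) (.e (nat_lit 204845) (nat_lit 24) (.e (nat_lit 319531) (nat_lit 16) (.e (nat_lit 286735) (nat_lit 3) (.e (nat_lit 98356) (nat_lit 26) (.e (nat_lit 426246) (nat_lit 9) .nil))))) (.g (nat_lit 0) (.e (nat_lit 225934) (nat_lit 0) .nil) .nil))) 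
(.lf (nat_lit 522204) (.g (nat_lit 4387) (.e (nat_lit 204849) (nat_lit 25) (.e (nat_lit 327699) (nat_lit 8) (.e (nat_lit 303118) (nat_lit 3) (.e (nat_lit 204846) (nat_lit 24) (.e (nat_lit 319490) (nat_lit 0) (.e (nat_lit 5664) (nat_lit 312) (.e (nat_lit 2679) (nat_lit 168) .nil))))))) (.g (nat_lit 1) (.e (nat_lit 226653) (nat_lit 0) .nil) .nil))))))) 
(.nd (nat_lit 6) (.nd (nat_lit 7) (.nd (nat_lit 8) (.nd (nat_lit 9) 
(.lf (nat_lit 521276) (.g (nat_lit 1941) (.e (nat_lit 204838) (nat_lit 20) (.e (nat_lit 114697) (nat_lit 11) (.e (nat_lit 426138) (nat_lit 3) (.e (nat_lit 204861) (nat_lit 26) (.e (nat_lit 336075) (nat_lit 9) (.e (nat_lit 336325) (nat_lit 18) .nil)))))) (.g (nat_lit 1) (.e (nat_lit 225191) (nat_lit 0) .nil) .nil))) 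
(.lf (nat_lit 521788) (.g (nat_lit 2764) (.e (nat_lit 204846) (nat_lit 24) (.e (nat_lit 319528) (nat_lit 16) (.e (nat_lit 286735) (nat_lit 3) (.e (nat_lit 98359) (nat_lit 26) (.e (nat_lit 426215) (nat_lit 9) .nil))))) (.g (nat_lit 0) (.e (nat_lit 226080) (nat_lit 0) .nil) .nil)))) (.nd (nat_lit 9) 
(.lf (nat_lit 521532) (.g (nat_lit 2715) (.e (nat_lit 204838) (nat_lit 20) (.e (nat_lit 114719) (nat_lit 23) (.e (nat_lit 98365) (nat_lit 26) (.e (nat_lit 426139) (nat_lit 3) (.e (nat_lit 204830) (nat_lit 18) (.e (nat_lit 57692) (nat_lit 156) (.e (nat_lit 163872) (nat_lit 3) .nil))))))) (.g (nat_lit 1) (.e (nat_lit 225678) (nat_lit 0) .nil) .nil))) 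
(.lf (nat_lit 522044) (.g (nat_lit 2679) (.e (nat_lit 204846) (nat_lit 24) (.e (nat_lit 319533) (nat_lit 16) (.e (nat_lit 286735) (nat_lit 3) (.e (nat_lit 98366) (nat_lit 27) (.e (nat_lit 442112) (nat_lit 8) .nil))))) (.g (nat_lit 0) (.e (nat_lit 226429) (nat_lit 0) .nil) .nil))))) (.nd (nat_lit 8) (.nd (nat_lit 9) 
(.lf (nat_lit 521404) (.g (nat_lit 4879) (.e (nat_lit 204838) (nat_lit 20) (.e (nat_lit 114714) (nat_lit 22) (.e (nat_lit 90174) (nat_lit 14) (.e (nat_lit 180243) (nat_lit 5) (.e (nat_lit 532504) (nat_lit 1) (.e (nat_lit 57692) (nat_lit 156) (.e (nat_lit 163874) (nat_lit 3) .nil))))))) (.g (nat_lit 1) (.e (nat_lit 225445) (nat_lit 0) .nil) .nil))) 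
(.lf (nat_lit 521916) (.g (nat_lit 4200) (.e (nat_lit 204846) (nat_lit 24) (.e (nat_lit 319531) (nat_lit 16) (.e (nat_lit 286735) (nat_lit 3) (.e (nat_lit 98365) (nat_lit 26) (.e (nat_lit 426188) (nat_lit 9) (.e (nat_lit 426131) (nat_lit 3) .nil)))))) (.g (nat_lit 1) (.e (nat_lit 226249) (nat_lit 0) .nil) .nil)))) (.nd (nat_lit 9) 
(.lf (nat_lit 521660) (.g (nat_lit 2862) (.e (nat_lit 204845) (nat_lit 24) (.e (nat_lit 319530) (nat_lit 16) (.e (nat_lit 286735) (nat_lit 3) (.e (nat_lit 98369) (nat_lit 28) (.e (nat_lit 442425) (nat_lit 23) .nil))))) (.g (nat_lit 1) (.e (nat_lit 225893) (nat_lit 0) .nil) .nil))) 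
(.lf (nat_lit 522172) (.g (nat_lit 3063) (.e (nat_lit 204848) (nat_lit 25) (.e (nat_lit 327699) (nat_lit 8) (.e (nat_lit 303117) (nat_lit 2) (.e (nat_lit 196670) (nat_lit 14) (.e (nat_lit 73781) (nat_lit 32) .nil))))) (.g (nat_lit 0) (.e (nat_lit 226581) (nat_lit 0) .nil) .nil)))))) (.nd (nat_lit 7) (.nd (nat_lit 8) (.nd (nat_lit 9) 
(.lf (nat_lit 521340) (.g (nat_lit 1945) (.e (nat_lit 204838) (nat_lit 20) (.e (nat_lit 114698) (nat_lit 11) (.e (nat_lit 426139) (nat_lit 3) (.e (nat_lit 204850) (nat_lit 26) .nil)))) (.g (nat_lit 0) (.e (nat_lit 225318) (nat_lit 0) .nil) .nil))) 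
(.lf (nat_lit 521852) (.g (nat_lit 2850) (.e (nat_lit 204846) (nat_lit 24) (.e (nat_lit 319530) (nat_lit 16) (.e (nat_lit 286735) (nat_lit 3) (.e (nat_lit 98356) (nat_lit 26) (.e (nat_lit 426227) (nat_lit 9) (.e (nat_lit 433920) (nat_lit 3) .nil)))))) (.g (nat_lit 1) (.e (nat_lit 226172) (nat_lit 0) .nil) .nil)))) (.nd (nat_lit 9) 
(.lf (nat_lit 521596) (.g (nat_lit 1468) (.e (nat_lit 204845) (nat_lit 24) (.e (nat_lit 319529) (nat_lit 16) (.e (nat_lit 286733) (nat_lit 2) (.e (nat_lit 90169) (nat_lit 13) .nil)))) (.g (nat_lit 0) (.e (nat_lit 225807) (nat_lit 0) .nil) .nil))) 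
(.lf (nat_lit 522108) (.g (nat_lit 2433) (.e (nat_lit 204846) (nat_lit 24) (.e (nat_lit 319534) (nat_lit 16) (.e (nat_lit 286734) (nat_lit 3) (.e (nat_lit 98380) (nat_lit 31) (.e (nat_lit 474880) (nat_lit 23) .nil))))) (.g (nat_lit 1) (.e (nat_lit 226513) (nat_lit 0) .nil) .nil))))) (.nd (nat_lit 8) (.nd (nat_lit 9) 
(.lf (nat_lit 521468) (.g (nat_lit 2934) (.e (nat_lit 204838) (nat_lit 20) (.e (nat_lit 114716) (nat_lit 22) (.e (nat_lit 90185) (nat_lit 17) (.e (nat_lit 237592) (nat_lit 3) (.e (nat_lit 204830) (nat_lit 18) (.e (nat_lit 57691) (nat_lit 156) (.e (nat_lit 163872) (nat_lit 3) .nil))))))) (.g (nat_lit 1) (.e (nat_lit 225573) (nat_lit 0) .nil) .nil))) 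
(.lf (nat_lit 521980) (.g (nat_lit 3328) (.e (nat_lit 204846) (nat_lit 24) (.e (nat_lit 319533) (nat_lit 16) (.e (nat_lit 286734) (nat_lit 3) (.e (nat_lit 98323) (nat_lit 17) (.e (nat_lit 6989) (nat_lit 377) (.e (nat_lit 1076) (nat_lit 81) (.e (nat_lit 5664) (nat_lit 312) (.e (nat_lit 2679) (nat_lit 168) .nil)))))))) (.g (nat_lit 1) (.e (nat_lit 226359) (nat_lit 0) .nil) .nil)))) (.nd (nat_lit 9) 
(.lf (nat_lit 521724) (.g (nat_lit 3938) (.e (nat_lit 204845) (nat_lit 24) (.e (nat_lit 319533) (nat_lit 16) (.e (nat_lit 286735) (nat_lit 3) (.e (nat_lit 98359) (nat_lit 26) (.e (nat_lit 426216) (nat_lit 9) .nil))))) (.g (nat_lit 0) (.e (nat_lit 225972) (nat_lit 0) .nil) .nil))) 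
(.lf (nat_lit 522236) (.g (nat_lit 3023) (.e (nat_lit 204849) (nat_lit 25) (.e (nat_lit 327717) (nat_lit 17) (.e (nat_lit 294927) (nat_lit 2) (.e (nat_lit 90176) (nat_lit 15) (.e (nat_lit 188450) (nat_lit 23) .nil))))) (.g (nat_lit 1) (.e (nat_lit 226708) (nat_lit 0) .nil) .nil))))))))))) 
(.nd (nat_lit 2) (.nd (nat_lit 3) (.nd (nat_lit 4) (.nd (nat_lit 5) (.nd (nat_lit 6) 
(.nd (nat_lit 7) (.nd (nat_lit 8) (.nd (nat_lit 9) 
(.lf (nat_lit 521218) (.g (nat_lit 5356) (.e (nat_lit 204837) (nat_lit 20) (.e (nat_lit 114719) (nat_lit 23) (.e (nat_lit 98384) (nat_lit 32) (.e (nat_lit 475177) (nat_lit 24) (.e (nat_lit 516118) (nat_lit 1) (.e (nat_lit 164332) (nat_lit 230) (.e (nat_lit 163874) (nat_lit 3) .nil))))))) (.g (nat_lit 1) (.e (nat_lit 225083) (nat_lit 0) .nil) .nil))) 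
(.lf (nat_lit 521730) (.g (nat_lit 1670) (.e (nat_lit 204845) (nat_lit 24) (.e (nat_lit 319533) (nat_lit 16) (.e (nat_lit 286735) (nat_lit 3) (.e (nat_lit 98381) (nat_lit 31) .nil)))) (.g (nat_lit 0) (.e (nat_lit 225979) (nat_lit 0) .nil) .nil)))) (.nd (nat_lit 9) 
(.lf (nat_lit 521474) (.g (nat_lit 3133) (.e (nat_lit 204838) (nat_lit 20) (.e (nat_lit 114716) (nat_lit 22) (.e (nat_lit 90185) (nat_lit 17) (.e (nat_lit 237594) (nat_lit 3) (.e (nat_lit 204830) (nat_lit 18) (.e (nat_lit 57691) (nat_lit 156) (.e (nat_lit 163872) (nat_lit 3) .nil))))))) (.g (nat_lit 1) (.e (nat_lit 225579) (nat_lit 0) .nil) .nil))) 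
(.lf (nat_lit 521986) (.g (nat_lit 2833) (.e (nat_lit 204846) (nat_lit 24) (.e (nat_lit 319533) (nat_lit 16) (.e (nat_lit 286734) (nat_lit 3) (.e (nat_lit 98354) (nat_lit 26) (.e (nat_lit 426215) (nat_lit 9) (.e (nat_lit 426140) (nat_lit 3) .nil)))))) (.g (nat_lit 1) (.e (nat_lit 226365) (nat_lit 0) .nil) .nil))))) (.nd (nat_lit 8) (.nd (nat_lit 9) 
(.lf (nat_lit 521346) (.g (nat_lit 3411) (.e (nat_lit 204838) (nat_lit 20) (.e (nat_lit 114698) (nat_lit 11) (.e (nat_lit 426139) (nat_lit 3) (.e (nat_lit 204861) (nat_lit 26) (.e (nat_lit 336076) (nat_lit 9) (.e (nat_lit 336322) (nat_lit 18) .nil)))))) (.g (nat_lit 1) (.e (nat_lit 225325) (nat_lit 0) .nil) .nil))) 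
(.lf (nat_lit 521858) (.g (nat_lit 2650) (.e (nat_lit 204846) (nat_lit 24) (.e (nat_lit 319530) (nat_lit 16) (.e (nat_lit 286735) (nat_lit 3) (.e (nat_lit 98365) (nat_lit 26) (.e (nat_lit 426187) (nat_lit 9) (.e (nat_lit 433920) (nat_lit 3) .nil)))))) (.g (nat_lit 1) (.e (nat_lit 226178) (nat_lit 0) .nil) .nil)))) (.nd (nat_lit 9) 
(.lf (nat_lit 521602) (.g (nat_lit 325) (.e (nat_lit 204845) (nat_lit 24) (.e (nat_lit 319529) (nat_lit 16) (.e (nat_lit 286735) (nat_lit 3) .nil))) (.g (nat_lit 0) (.e (nat_lit 225814) (nat_lit 0) .nil) .nil))) 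
(.lf (nat_lit 522114) (.g (nat_lit 3135) (.e (nat_lit 204846) (nat_lit 24) (.e (nat_lit 319534) (nat_lit 16) (.e (nat_lit 286735) (nat_lit 3) (.e (nat_lit 98350) (nat_lit 24) (.e (nat_lit 409603) (nat_lit 0) .nil))))) (.g (nat_lit 0) (.e (nat_lit 226519) (nat_lit 0) .nil) .nil)))))) (.nd (nat_lit 7) (.nd (nat_lit 8) (.nd (nat_lit 9) 
(.lf (nat_lit 521282) (.g (nat_lit 2121) (.e (nat_lit 204838) (nat_lit 20) (.e (nat_lit 114697) (nat_lit 11) (.e (nat_lit 426139) (nat_lit 3) (.e (nat_lit 204852) (nat_lit 26) (.e (nat_lit 343808) (nat_lit 9) (.e (nat_lit 336324) (nat_lit 18) .nil)))))) (.g (nat_lit 1) (.e (nat_lit 225198) (nat_lit 0) .nil) .nil))) 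
(.lf (nat_lit 521794) (.g (nat_lit 2116) (.e (nat_lit 204846) (nat_lit 24) (.e (nat_lit 319528) (nat_lit 16) (.e (nat_lit 286735) (nat_lit 3) (.e (nat_lit 98363) (nat_lit 26) (.e (nat_lit 426262) (nat_lit 9) (.e (nat_lit 426129) (nat_lit 3) .nil)))))) (.g (nat_lit 1) (.e (nat_lit 226086) (nat_lit 0) .nil) .nil)))) (.nd (nat_lit 9) 
(.lf (nat_lit 521538) (.g (nat_lit 1057) (.e (nat_lit 204838) (nat_lit 20) (.e (nat_lit 114719) (nat_lit 23) (.e (nat_lit 98366) (nat_lit 27) (.e (nat_lit 434232) (nat_lit 23) .nil)))) (.g (nat_lit 0) (.e (nat_lit 225689) (nat_lit 0) .nil) .nil))) 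
(.lf (nat_lit 522050) (.g (nat_lit 3188) (.e (nat_lit 204846) (nat_lit 24) (.e (nat_lit 319533) (nat_lit 16) (.e (nat_lit 286735) (nat_lit 3) (.e (nat_lit 98369) (nat_lit 28) (.e (nat_lit 442425) (nat_lit 23) .nil))))) (.g (nat_lit 1) (.e (nat_lit 226435) (nat_lit 0) .nil) .nil))))) (.nd (nat_lit 8) (.nd (nat_lit 9) 
(.lf (nat_lit 521410) (.g (nat_lit 3438) (.e (nat_lit 204838) (nat_lit 20) (.e (nat_lit 114715) (nat_lit 22) (.e (nat_lit 90170) (nat_lit 13) (.e (nat_lit 172065) (nat_lit 3) (.e (nat_lit 204830) (nat_lit 18) (.e (nat_lit 57689) (nat_lit 156) (.e (nat_lit 163872) (nat_lit 3) .nil))))))) (.g (nat_lit 1) (.e (nat_lit 225458) (nat_lit 0) .nil) .nil))) 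
(.lf (nat_lit 521922) (.g (nat_lit 2523) (.e (nat_lit 204846) (nat_lit 24) (.e (nat_lit 319531) (nat_lit 16) (.e (nat_lit 286735) (nat_lit 3) (.e (nat_lit 98367) (nat_lit 27) (.e (nat_lit 442112) (nat_lit 8) .nil))))) (.g (nat_lit 0) (.e (nat_lit 226255) (nat_lit 0) .nil) .nil)))) (.nd (nat_lit 9) 
(.lf (nat_lit 521666) (.g (nat_lit 3034) (.e (nat_lit 204845) (nat_lit 24) (.e (nat_lit 319530) (nat_lit 16) (.e (nat_lit 286735) (nat_lit 3) (.e (nat_lit 98380) (nat_lit 31) (.e (nat_lit 466981) (nat_lit 23) .nil))))) (.g (nat_lit 1) (.e (nat_lit 225899) (nat_lit 0) .nil) .nil))) 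
(.lf (nat_lit 522178) (.g (nat_lit 2181) (.e (nat_lit 204848) (nat_lit 25) (.e (nat_lit 327715) (nat_lit 16) (.e (nat_lit 286733) (nat_lit 2) (.e (nat_lit 90185) (nat_lit 17) (.e (nat_lit 237605) (nat_lit 9) .nil))))) (.g (nat_lit 0) (.e (nat_lit 226602) (nat_lit 0) .nil) .nil))))))) (.nd (nat_lit 6) (.nd (nat_lit 7) (.nd (nat_lit 8) (.nd (nat_lit 9) 
(.lf (nat_lit 521250) (.g (nat_lit 1067) (.e (nat_lit 204838) (nat_lit 20) (.e (nat_lit 114695) (nat_lit 11) (.e (nat_lit 426129) (nat_lit 3) (.e (nat_lit 204877) (nat_lit 31) (.e (nat_lit 384768) (nat_lit 3) .nil))))) (.g (nat_lit 1) (.e (nat_lit 225127) (nat_lit 0) .nil) .nil))) 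
(.lf (nat_lit 521762) (.g (nat_lit 498) (.e (nat_lit 204846) (nat_lit 24) (.e (nat_lit 319504) (nat_lit 10) (.e (nat_lit 5734) (nat_lit 312) .nil))) (.g (nat_lit 0) (.e (nat_lit 226030) (nat_lit 0) .nil) .nil)))) (.nd (nat_lit 9) 
(.lf (nat_lit 521506) (.g (nat_lit 1802) (.e (nat_lit 204838) (nat_lit 20) (.e (nat_lit 114719) (nat_lit 23) (.e (nat_lit 98333) (nat_lit 18) (.e (nat_lit 164399) (nat_lit 256) (.e (nat_lit 57373) (nat_lit 2) .nil))))) (.g (nat_lit 0) (.e (nat_lit 225632) (nat_lit 0) .nil) .nil))) 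
(.lf (nat_lit 522018) (.g (nat_lit 2789) (.e (nat_lit 204846) (nat_lit 24) (.e (nat_lit 319533) (nat_lit 16) (.e (nat_lit 286735) (nat_lit 3) (.e (nat_lit 98354) (nat_lit 26) (.e (nat_lit 426270) (nat_lit 9) .nil))))) (.g (nat_lit 0) (.e (nat_lit 226403) (nat_lit 0) .nil) .nil))))) (.nd (nat_lit 8) (.nd (nat_lit 9) 
(.lf (nat_lit 521378) (.g (nat_lit 3451) (.e (nat_lit 204838) (nat_lit 20) (.e (nat_lit 114714) (nat_lit 22) (.e (nat_lit 90172) (nat_lit 14) (.e (nat_lit 180244) (nat_lit 5) (.e (nat_lit 532503) (nat_lit 1) (.e (nat_lit 57685) (nat_lit 156) (.e (nat_lit 163872) (nat_lit 3) .nil))))))) (.g (nat_lit 1) (.e (nat_lit 225403) (nat_lit 0) .nil) .nil))) 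
(.lf (nat_lit 521890) (.g (nat_lit 1842) (.e (nat_lit 204846) (nat_lit 24) (.e (nat_lit 319531) (nat_lit 16) (.e (nat_lit 286735) (nat_lit 3) (.e (nat_lit 98325) (nat_lit 17) (.e (nat_lit 7350) (nat_lit 388) .nil))))) (.g (nat_lit 0) (.e (nat_lit 226223) (nat_lit 0) .nil) .nil)))) (.nd (nat_lit 9) 
(.lf (nat_lit 521634) (.g (nat_lit 357) (.e (nat_lit 204845) (nat_lit 24) (.e (nat_lit 319530) (nat_lit 16) (.e (nat_lit 286733) (nat_lit 2) .nil))) (.g (nat_lit 0) (.e (nat_lit 225856) (nat_lit 0) .nil) .nil))) 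
(.lf (nat_lit 522146) (.g (nat_lit 2394) (.e (nat_lit 204846) (nat_lit 24) (.e (nat_lit 319534) (nat_lit 16) (.e (nat_lit 286735) (nat_lit 3) (.e (nat_lit 98365) (nat_lit 26) (.e (nat_lit 426258) (nat_lit 9) (.e (nat_lit 426129) (nat_lit 3) .nil)))))) (.g (nat_lit 1) (.e (nat_lit 226551) (nat_lit 0) .nil) .nil)))))) (.nd (nat_lit 7) (.nd (nat_lit 8) (.nd (nat_lit 9) 
(.lf (nat_lit 521314) (.g (nat_lit 1558) (.e (nat_lit 204838) (nat_lit 20) (.e (nat_lit 114698) (nat_lit 11) (.e (nat_lit 426133) (nat_lit 3) (.e (nat_lit 204865) (nat_lit 28) .nil)))) (.g (nat_lit 0) (.e (nat_lit 225286) (nat_lit 0) .nil) .nil))) 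
(.lf (nat_lit 521826) (.g (nat_lit 3258) (.e (nat_lit 204846) (nat_lit 24) (.e (nat_lit 319529) (nat_lit 16) (.e (nat_lit 286735) (nat_lit 3) (.e (nat_lit 98369) (nat_lit 28) (.e (nat_lit 442427) (nat_lit 23) .nil))))) (.g (nat_lit 1) (.e (nat_lit 226134) (nat_lit 0) .nil) .nil)))) (.nd (nat_lit 9) 
(.lf (nat_lit 521570) (.g (nat_lit 2794) (.e (nat_lit 204838) (nat_lit 20) (.e (nat_lit 114719) (nat_lit 23) (.e (nat_lit 98386) (nat_lit 32) (.e (nat_lit 475179) (nat_lit 24) (.e (nat_lit 516119) (nat_lit 1) (.e (nat_lit 164325) (nat_lit 230) (.e (nat_lit 163875) (nat_lit 3) .nil))))))) (.g (nat_lit 1) (.e (nat_lit 225734) (nat_lit 0) .nil) .nil))) 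
(.lf (nat_lit 522082) (.g (nat_lit 2467) (.e (nat_lit 204846) (nat_lit 24) (.e (nat_lit 319534) (nat_lit 16) (.e (nat_lit 286733) (nat_lit 2) (.e (nat_lit 90176) (nat_lit 15) (.e (nat_lit 196352) (nat_lit 23) .nil))))) (.g (nat_lit 1) (.e (nat_lit 226486) (nat_lit 0) .nil) .nil))))) (.nd (nat_lit 8) (.nd (nat_lit 9) 
(.lf (nat_lit 521442) (.g (nat_lit 1885) (.e (nat_lit 204838) (nat_lit 20) (.e (nat_lit 114716) (nat_lit 22) (.e (nat_lit 90172) (nat_lit 14) (.e (nat_lit 180244) (nat_lit 5) (.e (nat_lit 532502) (nat_lit 1) (.e (nat_lit 57688) (nat_lit 156) (.e (nat_lit 163872) (nat_lit 3) .nil))))))) (.g (nat_lit 1) (.e (nat_lit 225512) (nat_lit 0) .nil) .nil))) 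
(.lf (nat_lit 521954) (.g (nat_lit 2476) (.e (nat_lit 204846) (nat_lit 24) (.e (nat_lit 319532) (nat_lit 16) (.e (nat_lit 286735) (nat_lit 3) (.e (nat_lit 98369) (nat_lit 28) (.e (nat_lit 442425) (nat_lit 23) .nil))))) (.g (nat_lit 1) (.e (nat_lit 226308) (nat_lit 0) .nil) .nil)))) (.nd (nat_lit 9) 
(.lf (nat_lit 521698) (.g (nat_lit 1296) (.e (nat_lit 204845) (nat_lit 24) (.e (nat_lit 319531) (nat_lit 16) (.e (nat_lit 286735) (nat_lit 3) (.e (nat_lit 98363) (nat_lit 26) .nil)))) (.g (nat_lit 0) (.e (nat_lit 225942) (nat_lit 0) .nil) .nil))) 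
(.lf (nat_lit 522210) (.g (nat_lit 2913) (.e (nat_lit 204849) (nat_lit 25) (.e (nat_lit 327699) (nat_lit 8) (.e (nat_lit 303119) (nat_lit 3) (.e (nat_lit 204845) (nat_lit 24) (.e (nat_lit 327424) (nat_lit 8) .nil))))) (.g (nat_lit 0) (.e (nat_lit 226661) (nat_lit 0) .nil) .nil)))))))) (.nd (nat_lit 5) (.nd (nat_lit 6) (.nd (nat_lit 7) (.nd (nat_lit 8) (.nd (nat_lit 9) 
(.lf (nat_lit 521234) (.g (nat_lit 2922) (.e (nat_lit 204838) (nat_lit 20) (.e (nat_lit 114694) (nat_lit 11) (.e (nat_lit 426133) (nat_lit 3) (.e (nat_lit 204861) (nat_lit 26) (.e (nat_lit 336076) (nat_lit 9) (.e (nat_lit 336326) (nat_lit 18) .nil)))))) (.g (nat_lit 1) (.e (nat_lit 225109) (nat_lit 0) .nil) .nil))) 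
(.lf (nat_lit 521746) (.g (nat_lit 1982) (.e (nat_lit 204845) (nat_lit 24) (.e (nat_lit 319534) (nat_lit 16) (.e (nat_lit 286735) (nat_lit 3) (.e (nat_lit 98381) (nat_lit 31) (.e (nat_lit 466981) (nat_lit 23) .nil))))) (.g (nat_lit 1) (.e (nat_lit 226000) (nat_lit 0) .nil) .nil)))) (.nd (nat_lit 9) 
(.lf (nat_lit 521490) (.g (nat_lit 1666) (.e (nat_lit 204838) (nat_lit 20) (.e (nat_lit 114718) (nat_lit 23) (.e (nat_lit 98367) (nat_lit 27) (.e (nat_lit 434234) (nat_lit 23) .nil)))) (.g (nat_lit 0) (.e (nat_lit 225609) (nat_lit 0) .nil) .nil))) 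
(.lf (nat_lit 522002) (.g (nat_lit 2572) (.e (nat_lit 204846) (nat_lit 24) (.e (nat_lit 319533) (nat_lit 16) (.e (nat_lit 286734) (nat_lit 3) (.e (nat_lit 98381) (nat_lit 31) (.e (nat_lit 474880) (nat_lit 23) .nil))))) (.g (nat_lit 1) (.e (nat_lit 226381) (nat_lit 0) .nil) .nil))))) (.nd (nat_lit 8) (.nd (nat_lit 9) 
(.lf (nat_lit 521362) (.g (nat_lit 1886) (.e (nat_lit 204838) (nat_lit 20) (.e (nat_lit 114714) (nat_lit 22) (.e (nat_lit 90170) (nat_lit 13) (.e (nat_lit 172046) (nat_lit 0) .nil)))) (.g (nat_lit 0) (.e (nat_lit 225378) (nat_lit 0) .nil) .nil))) 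
(.lf (nat_lit 521874) (.g (nat_lit 1458) (.e (nat_lit 204846) (nat_lit 24) (.e (nat_lit 319531) (nat_lit 16) (.e (nat_lit 286733) (nat_lit 2) (.e (nat_lit 90165) (nat_lit 12) .nil)))) (.g (nat_lit 0) (.e (nat_lit 226206) (nat_lit 0) .nil) .nil)))) (.nd (nat_lit 9) 
(.lf (nat_lit 521618) (.g (nat_lit 2492) (.e (nat_lit 204845) (nat_lit 24) (.e (nat_lit 319529) (nat_lit 16) (.e (nat_lit 286735) (nat_lit 3) (.e (nat_lit 98380) (nat_lit 31) (.e (nat_lit 466981) (nat_lit 23) .nil))))) (.g (nat_lit 1) (.e (nat_lit 225839) (nat_lit 0) .nil) .nil))) 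
(.lf (nat_lit 522130) (.g (nat_lit 2971) (.e (nat_lit 204846) (nat_lit 24) (.e (nat_lit 319534) (nat_lit 16) (.e (nat_lit 286735) (nat_lit 3) (.e (nat_lit 98360) (nat_lit 26) (.e (nat_lit 426215) (nat_lit 9) (.e (nat_lit 426140) (nat_lit 3) .nil)))))) (.g (nat_lit 1) (.e (nat_lit 226535) (nat_lit 0) .nil) .nil)))))) (.nd (nat_lit 7) (.nd (nat_lit 8) (.nd (nat_lit 9) 
(.lf (nat_lit 521298) (.g (nat_lit 1792) (.e (nat_lit 204838) (nat_lit 20) (.e (nat_lit 114698) (nat_lit 11) (.e (nat_lit 426122) (nat_lit 2) (.e (nat_lit 196674) (nat_lit 15) (.e (nat_lit 89856) (nat_lit 3) .nil))))) (.g (nat_lit 1) (.e (nat_lit 225239) (nat_lit 0) .nil) .nil))) 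
(.lf (nat_lit 521810) (.g (nat_lit 3940) (.e (nat_lit 204846) (nat_lit 24) (.e (nat_lit 319529) (nat_lit 16) (.e (nat_lit 286733) (nat_lit 2) (.e (nat_lit 90170) (nat_lit 13) (.e (nat_lit 172094) (nat_lit 9) .nil))))) (.g (nat_lit 0) (.e (nat_lit 226108) (nat_lit 0) .nil) .nil)))) (.nd (nat_lit 9) 
(.lf (nat_lit 521554) (.g (nat_lit 2752) (.e (nat_lit 204838) (nat_lit 20) (.e (nat_lit 114719) (nat_lit 23) (.e (nat_lit 98384) (nat_lit 32) (.e (nat_lit 475177) (nat_lit 24) (.e (nat_lit 516115) (nat_lit 1) (.e (nat_lit 164332) (nat_lit 230) (.e (nat_lit 163874) (nat_lit 3) .nil))))))) (.g (nat_lit 1) (.e (nat_lit 225716) (nat_lit 0) .nil) .nil))) 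
(.lf (nat_lit 522066) (.g (nat_lit 748) (.e (nat_lit 204846) (nat_lit 24) (.e (nat_lit 319534) (nat_lit 16) (.e (nat_lit 286723) (nat_lit 0) .nil))) (.g (nat_lit 0) (.e (nat_lit 226454) (nat_lit 0) .nil) .nil))))) (.nd (nat_lit 8) (.nd (nat_lit 9) 
(.lf (nat_lit 521426) (.g (nat_lit 2531) (.e (nat_lit 204838) (nat_lit 20) (.e (nat_lit 114715) (nat_lit 22) (.e (nat_lit 90170) (nat_lit 13) (.e (nat_lit 172067) (nat_lit 3) (.e (nat_lit 204830) (nat_lit 18) (.e (nat_lit 57690) (nat_lit 156) (.e (nat_lit 163872) (nat_lit 3) .nil))))))) (.g (nat_lit 1) (.e (nat_lit 225481) (nat_lit 0) .nil) .nil))) 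
(.lf (nat_lit 521938) (.g (nat_lit 2917) (.e (nat_lit 204846) (nat_lit 24) (.e (nat_lit 319532) (nat_lit 16) (.e (nat_lit 286733) (nat_lit 2) (.e (nat_lit 90170) (nat_lit 13) (.e (nat_lit 172092) (nat_lit 9) (.e (nat_lit 426132) (nat_lit 3) .nil)))))) (.g (nat_lit 1) (.e (nat_lit 226283) (nat_lit 0) .nil) .nil)))) (.nd (nat_lit 9) 
(.lf (nat_lit 521682) (.g (nat_lit 2117) (.e (nat_lit 204845) (nat_lit 24) (.e (nat_lit 319531) (nat_lit 16) (.e (nat_lit 286733) (nat_lit 2) (.e (nat_lit 90176) (nat_lit 15) (.e (nat_lit 196352) (nat_lit 23) .nil))))) (.g (nat_lit 0) (.e (nat_lit 225924) (nat_lit 0) .nil) .nil))) 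
(.lf (nat_lit 522194) (.g (nat_lit 3316) (.e (nat_lit 204849) (nat_lit 25) (.e (nat_lit 327698) (nat_lit 8) (.e (nat_lit 303119) (nat_lit 3) (.e (nat_lit 204849) (nat_lit 25) (.e (nat_lit 327699) (nat_lit 8) (.e (nat_lit 303118) (nat_lit 3) .nil)))))) (.g (nat_lit 1) (.e (nat_lit 226635) (nat_lit 0) .nil) .nil))))))) (.nd (nat_lit 6) (.nd (nat_lit 7) (.nd (nat_lit 8) (.nd (nat_lit 9) 
(.lf (nat_lit 521266) (.g (nat_lit 1793) (.e (nat_lit 204838) (nat_lit 20) (.e (nat_lit 114697) (nat_lit 11) (.e (nat_lit 426137) (nat_lit 3) (.e (nat_lit 204861) (nat_lit 26) (.e (nat_lit 336075) (nat_lit 9) (.e (nat_lit 336322) (nat_lit 18) .nil)))))) (.g (nat_lit 1) (.e (nat_lit 225179) (nat_lit 0) .nil) .nil))) 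
(.lf (nat_lit 521778) (.g (nat_lit 983) (.e (nat_lit 204846) (nat_lit 24) (.e (nat_lit 319538) (nat_lit 19) (.e (nat_lit 311315) (nat_lit 3) (.e (nat_lit 204845) (nat_lit 24) .nil)))) (.g (nat_lit 0) (.e (nat_lit 226066) (nat_lit 0) .nil) .nil)))) (.nd (nat_lit 9) 
(.lf (nat_lit 521522) (.g (nat_lit 3445) (.e (nat_lit 204838) (nat_lit 20) (.e (nat_lit 114719) (nat_lit 23) (.e (nat_lit 98365) (nat_lit 26) (.e (nat_lit 426133) (nat_lit 3) (.e (nat_lit 204831) (nat_lit 18) (.e (nat_lit 57688) (nat_lit 156) (.e (nat_lit 163873) (nat_lit 3) .nil))))))) (.g (nat_lit 1) (.e (nat_lit 225667) (nat_lit 0) .nil) .nil))) 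
(.lf (nat_lit 522034) (.g (nat_lit 2480) (.e (nat_lit 204846) (nat_lit 24) (.e (nat_lit 319533) (nat_lit 16) (.e (nat_lit 286735) (nat_lit 3) (.e (nat_lit 98363) (nat_lit 26) (.e (nat_lit 426259) (nat_lit 9) .nil))))) (.g (nat_lit 0) (.e (nat_lit 226419) (nat_lit 0) .nil) .nil))))) (.nd (nat_lit 8) (.nd (nat_lit 9) 
(.lf (nat_lit 521394) (.g (nat_lit 3006) (.e (nat_lit 204838) (nat_lit 20) (.e (nat_lit 114714) (nat_lit 22) (.e (nat_lit 90174) (nat_lit 14) (.e (nat_lit 180243) (nat_lit 5) (.e (nat_lit 532501) (nat_lit 1) (.e (nat_lit 57691) (nat_lit 156) (.e (nat_lit 163872) (nat_lit 3) .nil))))))) (.g (nat_lit 1) (.e (nat_lit 225431) (nat_lit 0) .nil) .nil))) 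
(.lf (nat_lit 521906) (.g (nat_lit 2388) (.e (nat_lit 204846) (nat_lit 24) (.e (nat_lit 319531) (nat_lit 16) (.e (nat_lit 286735) (nat_lit 3) (.e (nat_lit 98363) (nat_lit 26) (.e (nat_lit 426225) (nat_lit 9) (.e (nat_lit 426129) (nat_lit 3) .nil)))))) (.g (nat_lit 1) (.e (nat_lit 226239) (nat_lit 0) .nil) .nil)))) (.nd (nat_lit 9) 
(.lf (nat_lit 521650) (.g (nat_lit 3414) (.e (nat_lit 204845) (nat_lit 24) (.e (nat_lit 319530) (nat_lit 16) (.e (nat_lit 286735) (nat_lit 3) (.e (nat_lit 98359) (nat_lit 26) (.e (nat_lit 426215) (nat_lit 9) (.e (nat_lit 426140) (nat_lit 3) .nil)))))) (.g (nat_lit 1) (.e (nat_lit 225883) (nat_lit 0) .nil) .nil))) 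
(.lf (nat_lit 522162) (.g (nat_lit 2844) (.e (nat_lit 204846) (nat_lit 24) (.e (nat_lit 327424) (nat_lit 16) (.e (nat_lit 286735) (nat_lit 3) (.e (nat_lit 98350) (nat_lit 24) (.e (nat_lit 409603) (nat_lit 0) (.e (nat_lit 5626) (nat_lit 312) (.e (nat_lit 2685) (nat_lit 168) .nil))))))) (.g (nat_lit 1) (.e (nat_lit 226568) (nat_lit 0) .nil) .nil)))))) 
(.nd (nat_lit 7) (.nd (nat_lit 8) (.nd (nat_lit 9) 
(.lf (nat_lit 521330) (.g (nat_lit 2818) (.e (nat_lit 204838) (nat_lit 20) (.e (nat_lit 114698) (nat_lit 11) (.e (nat_lit 426138) (nat_lit 3) (.e (nat_lit 204861) (nat_lit 26) (.e (nat_lit 336076) (nat_lit 9) (.e (nat_lit 336322) (nat_lit 18) .nil)))))) (.g (nat_lit 1) (.e (nat_lit 225307) (nat_lit 0) .nil) .nil))) 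
(.lf (nat_lit 521842) (.g (nat_lit 2703) (.e (nat_lit 204846) (nat_lit 24) (.e (nat_lit 319530) (nat_lit 16) (.e (nat_lit 286733) (nat_lit 2) (.e (nat_lit 90178) (nat_lit 15) (.e (nat_lit 196352) (nat_lit 23) .nil))))) (.g (nat_lit 1) (.e (nat_lit 226162) (nat_lit 0) .nil) .nil)))) (.nd (nat_lit 9) 
(.lf (nat_lit 521586) (.g (nat_lit 3316) (.e (nat_lit 204845) (nat_lit 24) (.e (nat_lit 319538) (nat_lit 19) (.e (nat_lit 311315) (nat_lit 3) (.e (nat_lit 204846) (nat_lit 24) (.e (nat_lit 319537) (nat_lit 19) (.e (nat_lit 311315) (nat_lit 3) .nil)))))) (.g (nat_lit 1) (.e (nat_lit 225782) (nat_lit 0) .nil) .nil))) 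
(.lf (nat_lit 522098) (.g (nat_lit 2263) (.e (nat_lit 204846) (nat_lit 24) (.e (nat_lit 319534) (nat_lit 16) (.e (nat_lit 286734) (nat_lit 3) (.e (nat_lit 98356) (nat_lit 26) (.e (nat_lit 433920) (nat_lit 9) .nil))))) (.g (nat_lit 0) (.e (nat_lit 226503) (nat_lit 0) .nil) .nil))))) (.nd (nat_lit 8) (.nd (nat_lit 9) 
(.lf (nat_lit 521458) (.g (nat_lit 3240) (.e (nat_lit 204838) (nat_lit 20) (.e (nat_lit 114716) (nat_lit 22) (.e (nat_lit 90174) (nat_lit 14) (.e (nat_lit 180243) (nat_lit 5) (.e (nat_lit 532503) (nat_lit 1) (.e (nat_lit 57685) (nat_lit 156) (.e (nat_lit 163872) (nat_lit 3) .nil))))))) (.g (nat_lit 1) (.e (nat_lit 225552) (nat_lit 0) .nil) .nil))) 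
(.lf (nat_lit 521970) (.g (nat_lit 338) (.e (nat_lit 204846) (nat_lit 24) (.e (nat_lit 319533) (nat_lit 16) (.e (nat_lit 286733) (nat_lit 2) .nil))) (.g (nat_lit 0) (.e (nat_lit 226333) (nat_lit 0) .nil) .nil)))) (.nd (nat_lit 9) 
(.lf (nat_lit 521714) (.g (nat_lit 2893) (.e (nat_lit 204845) (nat_lit 24) (.e (nat_lit 319531) (nat_lit 16) (.e (nat_lit 286735) (nat_lit 3) (.e (nat_lit 98382) (nat_lit 31) (.e (nat_lit 466978) (nat_lit 23) .nil))))) (.g (nat_lit 1) (.e (nat_lit 225958) (nat_lit 0) .nil) .nil))) 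
(.lf (nat_lit 522226) (.g (nat_lit 4129) (.e (nat_lit 204849) (nat_lit 25) (.e (nat_lit 327708) (nat_lit 10) (.e (nat_lit 5270) (nat_lit 298) (.e (nat_lit 1231) (nat_lit 91) .nil)))) (.g (nat_lit 0) (.e (nat_lit 226689) (nat_lit 0) .nil) .nil))))))))) (.nd (nat_lit 4) (.nd (nat_lit 5) (.nd (nat_lit 6) (.nd (nat_lit 7) (.nd (nat_lit 8) (.nd (nat_lit 9) 
(.lf (nat_lit 521226) (.g (nat_lit 1988) (.e (nat_lit 204838) (nat_lit 20) (.e (nat_lit 114694) (nat_lit 11) (.e (nat_lit 426123) (nat_lit 2) (.e (nat_lit 196681) (nat_lit 17) (.e (nat_lit 131105) (nat_lit 9) .nil))))) (.g (nat_lit 0) (.e (nat_lit 225096) (nat_lit 0) .nil) .nil))) 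
(.lf (nat_lit 521738) (.g (nat_lit 2344) (.e (nat_lit 204845) (nat_lit 24) (.e (nat_lit 319534) (nat_lit 16) (.e (nat_lit 286734) (nat_lit 3) (.e (nat_lit 98381) (nat_lit 31) (.e (nat_lit 466981) (nat_lit 23) .nil))))) (.g (nat_lit 1) (.e (nat_lit 225992) (nat_lit 0) .nil) .nil)))) (.nd (nat_lit 9) 
(.lf (nat_lit 521482) (.g (nat_lit 3875) (.e (nat_lit 204838) (nat_lit 20) (.e (nat_lit 114718) (nat_lit 23) (.e (nat_lit 98366) (nat_lit 27) (.e (nat_lit 434231) (nat_lit 23) (.e (nat_lit 532499) (nat_lit 1) (.e (nat_lit 57688) (nat_lit 156) (.e (nat_lit 163874) (nat_lit 3) .nil))))))) (.g (nat_lit 1) (.e (nat_lit 225598) (nat_lit 0) .nil) .nil))) 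
(.lf (nat_lit 521994) (.g (nat_lit 2779) (.e (nat_lit 204846) (nat_lit 24) (.e (nat_lit 319533) (nat_lit 16) (.e (nat_lit 286734) (nat_lit 3) (.e (nat_lit 98365) (nat_lit 26) (.e (nat_lit 426188) (nat_lit 9) (.e (nat_lit 426131) (nat_lit 3) .nil)))))) (.g (nat_lit 1) (.e (nat_lit 226373) (nat_lit 0) .nil) .nil))))) (.nd (nat_lit 8) (.nd (nat_lit 9) 
(.lf (nat_lit 521354) (.g (nat_lit 2226) (.e (nat_lit 204838) (nat_lit 20) (.e (nat_lit 114698) (nat_lit 11) (.e (nat_lit 426139) (nat_lit 3) (.e (nat_lit 204876) (nat_lit 31) (.e (nat_lit 384768) (nat_lit 3) .nil))))) (.g (nat_lit 1) (.e (nat_lit 225333) (nat_lit 0) .nil) .nil))) 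
(.lf (nat_lit 521866) (.g (nat_lit 2658) (.e (nat_lit 204846) (nat_lit 24) (.e (nat_lit 319530) (nat_lit 16) (.e (nat_lit 286735) (nat_lit 3) (.e (nat_lit 98382) (nat_lit 31) (.e (nat_lit 474880) (nat_lit 23) .nil))))) (.g (nat_lit 1) (.e (nat_lit 226186) (nat_lit 0) .nil) .nil)))) (.nd (nat_lit 9) 
(.lf (nat_lit 521610) (.g (nat_lit 2617) (.e (nat_lit 204845) (nat_lit 24) (.e (nat_lit 319529) (nat_lit 16) (.e (nat_lit 286735) (nat_lit 3) (.e (nat_lit 98365) (nat_lit 26) (.e (nat_lit 426187) (nat_lit 9) (.e (nat_lit 433920) (nat_lit 3) .nil)))))) (.g (nat_lit 1) (.e (nat_lit 225828) (nat_lit 0) .nil) .nil))) 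
(.lf (nat_lit 522122) (.g (nat_lit 2469) (.e (nat_lit 204846) (nat_lit 24) (.e (nat_lit 319534) (nat_lit 16) (.e (nat_lit 286735) (nat_lit 3) (.e (nat_lit 98356) (nat_lit 26) (.e (nat_lit 426254) (nat_lit 9) .nil))))) (.g (nat_lit 0) (.e (nat_lit 226527) (nat_lit 0) .nil) .nil)))))) (.nd (nat_lit 7) (.nd (nat_lit 8) (.nd (nat_lit 9) 
(.lf (nat_lit 521290) (.g (nat_lit 3668) (.e (nat_lit 204838) (nat_lit 20) (.e (nat_lit 114697) (nat_lit 11) (.e (nat_lit 426139) (nat_lit 3) (.e (nat_lit 204861) (nat_lit 26) (.e (nat_lit 336088) (nat_lit 9) (.e (nat_lit 336324) (nat_lit 18) .nil)))))) (.g (nat_lit 1) (.e (nat_lit 225206) (nat_lit 0) .nil) .nil))) 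
(.lf (nat_lit 521802) (.g (nat_lit 2348) (.e (nat_lit 204846) (nat_lit 24) (.e (nat_lit 319528) (nat_lit 16) (.e (nat_lit 286735) (nat_lit 3) (.e (nat_lit 98368) (nat_lit 27) (.e (nat_lit 442112) (nat_lit 8) (.e (nat_lit 2685) (nat_lit 168) .nil)))))) (.g (nat_lit 1) (.e (nat_lit 226094) (nat_lit 0) .nil) .nil)))) (.nd (nat_lit 9) 
(.lf (nat_lit 521546) (.g (nat_lit 1382) (.e (nat_lit 204838) (nat_lit 20) (.e (nat_lit 114719) (nat_lit 23) (.e (nat_lit 98367) (nat_lit 27) (.e (nat_lit 434232) (nat_lit 23) .nil)))) (.g (nat_lit 0) (.e (nat_lit 225704) (nat_lit 0) .nil) .nil))) 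
(.lf (nat_lit 522058) (.g (nat_lit 2640) (.e (nat_lit 204846) (nat_lit 24) (.e (nat_lit 319533) (nat_lit 16) (.e (nat_lit 286735) (nat_lit 3) (.e (nat_lit 98380) (nat_lit 31) (.e (nat_lit 466979) (nat_lit 23) .nil))))) (.g (nat_lit 1) (.e (nat_lit 226445) (nat_lit 0) .nil) .nil))))) (.nd (nat_lit 8) (.nd (nat_lit 9) 
(.lf (nat_lit 521418) (.g (nat_lit 2728) (.e (nat_lit 204838) (nat_lit 20) (.e (nat_lit 114715) (nat_lit 22) (.e (nat_lit 90170) (nat_lit 13) (.e (nat_lit 172065) (nat_lit 3) (.e (nat_lit 204831) (nat_lit 18) (.e (nat_lit 57692) (nat_lit 156) (.e (nat_lit 163872) (nat_lit 3) .nil))))))) (.g (nat_lit 1) (.e (nat_lit 225467) (nat_lit 0) .nil) .nil))) 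
(.lf (nat_lit 521930) (.g (nat_lit 2472) (.e (nat_lit 204846) (nat_lit 24) (.e (nat_lit 319531) (nat_lit 16) (.e (nat_lit 286735) (nat_lit 3) (.e (nat_lit 98381) (nat_lit 31) (.e (nat_lit 466979) (nat_lit 23) .nil))))) (.g (nat_lit 0) (.e (nat_lit 226263) (nat_lit 0) .nil) .nil)))) (.nd (nat_lit 9) 
(.lf (nat_lit 521674) (.g (nat_lit 466) (.e (nat_lit 204845) (nat_lit 24) (.e (nat_lit 319531) (nat_lit 16) (.e (nat_lit 286727) (nat_lit 0) .nil))) (.g (nat_lit 0) (.e (nat_lit 225907) (nat_lit 0) .nil) .nil))) 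
(.lf (nat_lit 522186) (.g (nat_lit 401) (.e (nat_lit 204849) (nat_lit 25) (.e (nat_lit 327698) (nat_lit 8) (.e (nat_lit 303118) (nat_lit 3) .nil))) (.g (nat_lit 0) (.e (nat_lit 226627) (nat_lit 0) .nil) .nil))))))) (.nd (nat_lit 6) (.nd (nat_lit 7) (.nd (nat_lit 8) (.nd (nat_lit 9) 
(.lf (nat_lit 521258) (.g (nat_lit 1318) (.e (nat_lit 204838) (nat_lit 20) (.e (nat_lit 114697) (nat_lit 11) (.e (nat_lit 426122) (nat_lit 2) (.e (nat_lit 196674) (nat_lit 15) (.e (nat_lit 89856) (nat_lit 3) .nil))))) (.g (nat_lit 1) (.e (nat_lit 225156) (nat_lit 0) .nil) .nil))) 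
(.lf (nat_lit 521770) (.g (nat_lit 2776) (.e (nat_lit 204846) (nat_lit 24) (.e (nat_lit 319505) (nat_lit 10) (.e (nat_lit 618) (nat_lit 48) (.e (nat_lit 557105) (nat_lit 14) (.e (nat_lit 180239) (nat_lit 1) .nil))))) (.g (nat_lit 0) (.e (nat_lit 226041) (nat_lit 0) .nil) .nil)))) (.nd (nat_lit 9) 
(.lf (nat_lit 521514) (.g (nat_lit 5515) (.e (nat_lit 204838) (nat_lit 20) (.e (nat_lit 114719) (nat_lit 23) (.e (nat_lit 98354) (nat_lit 26) (.e (nat_lit 426436) (nat_lit 18) (.e (nat_lit 98335) (nat_lit 18) (.e (nat_lit 164330) (nat_lit 230) (.e (nat_lit 163872) (nat_lit 3) .nil))))))) (.g (nat_lit 1) (.e (nat_lit 225644) (nat_lit 0) .nil) .nil))) 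
(.lf (nat_lit 522026) (.g (nat_lit 3412) (.e (nat_lit 204846) (nat_lit 24) (.e (nat_lit 319533) (nat_lit 16) (.e (nat_lit 286735) (nat_lit 3) (.e (nat_lit 98359) (nat_lit 26) (.e (nat_lit 426216) (nat_lit 9) .nil))))) (.g (nat_lit 0) (.e (nat_lit 226411) (nat_lit 0) .nil) .nil))))) (.nd (nat_lit 8) (.nd (nat_lit 9) 
(.lf (nat_lit 521386) (.g (nat_lit 4251) (.e (nat_lit 204838) (nat_lit 20) (.e (nat_lit 114714) (nat_lit 22) (.e (nat_lit 90174) (nat_lit 14) (.e (nat_lit 180243) (nat_lit 5) (.e (nat_lit 532499) (nat_lit 1) (.e (nat_lit 57688) (nat_lit 156) (.e (nat_lit 163872) (nat_lit 3) .nil))))))) (.g (nat_lit 1) (.e (nat_lit 225419) (nat_lit 0) .nil) .nil))) 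
(.lf (nat_lit 521898) (.g (nat_lit 2713) (.e (nat_lit 204846) (nat_lit 24) (.e (nat_lit 319531) (nat_lit 16) (.e (nat_lit 286735) (nat_lit 3) (.e (nat_lit 98356) (nat_lit 26) (.e (nat_lit 426246) (nat_lit 9) .nil))))) (.g (nat_lit 0) (.e (nat_lit 226231) (nat_lit 0) .nil) .nil)))) (.nd (nat_lit 9) 
(.lf (nat_lit 521642) (.g (nat_lit 2665) (.e (nat_lit 204845) (nat_lit 24) (.e (nat_lit 319530) (nat_lit 16) (.e (nat_lit 286735) (nat_lit 3) (.e (nat_lit 98323) (nat_lit 17) (.e (nat_lit 7936) (nat_lit 392) (.e (nat_lit 172065) (nat_lit 3) .nil)))))) (.g (nat_lit 1) (.e (nat_lit 225875) (nat_lit 0) .nil) .nil))) 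
(.lf (nat_lit 522154) (.g (nat_lit 3368) (.e (nat_lit 204846) (nat_lit 24) (.e (nat_lit 319534) (nat_lit 16) (.e (nat_lit 286735) (nat_lit 3) (.e (nat_lit 98371) (nat_lit 28) (.e (nat_lit 442427) (nat_lit 23) .nil))))) (.g (nat_lit 1) (.e (nat_lit 226559) (nat_lit 0) .nil) .nil)))))) (.nd (nat_lit 7) (.nd (nat_lit 8) (.nd (nat_lit 9) 
(.lf (nat_lit 521322) (.g (nat_lit 2915) (.e (nat_lit 204838) (nat_lit 20) (.e (nat_lit 114698) (nat_lit 11) (.e (nat_lit 426137) (nat_lit 3) (.e (nat_lit 204861) (nat_lit 26) (.e (nat_lit 336076) (nat_lit 9) (.e (nat_lit 336326) (nat_lit 18) .nil)))))) (.g (nat_lit 1) (.e (nat_lit 225294) (nat_lit 0) .nil) .nil))) 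
(.lf (nat_lit 521834) (.g (nat_lit 1431) (.e (nat_lit 204846) (nat_lit 24) (.e (nat_lit 319530) (nat_lit 16) (.e (nat_lit 286727) (nat_lit 0) (.e (nat_lit 1715) (nat_lit 117) .nil)))) (.g (nat_lit 0) (.e (nat_lit 226147) (nat_lit 0) .nil) .nil)))) (.nd (nat_lit 9) 
(.lf (nat_lit 521578) (.g (nat_lit 2244) (.e (nat_lit 204845) (nat_lit 24) (.e (nat_lit 319490) (nat_lit 0) (.e (nat_lit 5293) (nat_lit 298) (.e (nat_lit 1250) (nat_lit 92) .nil)))) (.g (nat_lit 0) (.e (nat_lit 225768) (nat_lit 0) .nil) .nil))) 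
(.lf (nat_lit 522090) (.g (nat_lit 3790) (.e (nat_lit 204846) (nat_lit 24) (.e (nat_lit 319534) (nat_lit 16) (.e (nat_lit 286734) (nat_lit 3) (.e (nat_lit 98350) (nat_lit 24) (.e (nat_lit 409602) (nat_lit 0) (.e (nat_lit 5664) (nat_lit 312) (.e (nat_lit 2679) (nat_lit 168) .nil))))))) (.g (nat_lit 1) (.e (nat_lit 226495) (nat_lit 0) .nil) .nil))))) (.nd (nat_lit 8) (.nd (nat_lit 9) 
(.lf (nat_lit 521450) (.g (nat_lit 360) (.e (nat_lit 204838) (nat_lit 20) (.e (nat_lit 114716) (nat_lit 22) (.e (nat_lit 90173) (nat_lit 14) .nil))) (.g (nat_lit 0) (.e (nat_lit 225526) (nat_lit 0) .nil) .nil))) 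
(.lf (nat_lit 521962) (.g (nat_lit 991) (.e (nat_lit 204846) (nat_lit 24) (.e (nat_lit 319533) (nat_lit 16) (.e (nat_lit 286726) (nat_lit 0) .nil))) (.g (nat_lit 0) (.e (nat_lit 226322) (nat_lit 0) .nil) .nil)))) (.nd (nat_lit 9) 
(.lf (nat_lit 521706) (.g (nat_lit 3233) (.e (nat_lit 204845) (nat_lit 24) (.e (nat_lit 319531) (nat_lit 16) (.e (nat_lit 286735) (nat_lit 3) (.e (nat_lit 98367) (nat_lit 27) (.e (nat_lit 442112) (nat_lit 8) (.e (nat_lit 2679) (nat_lit 168) .nil)))))) (.g (nat_lit 1) (.e (nat_lit 225950) (nat_lit 0) .nil) .nil))) 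
(.lf (nat_lit 522218) (.g (nat_lit 3363) (.e (nat_lit 204849) (nat_lit 25) (.e (nat_lit 327699) (nat_lit 8) (.e (nat_lit 303119) (nat_lit 3) (.e (nat_lit 204863) (nat_lit 27) (.e (nat_lit 344068) (nat_lit 0) (.e (nat_lit 2681) (nat_lit 168) .nil)))))) (.g (nat_lit 1) (.e (nat_lit 226669) (nat_lit 0) .nil) .nil)))))))) 
(.nd (nat_lit 5) (.nd (nat_lit 6) (.nd (nat_lit 7) (.nd (nat_lit 8) (.nd (nat_lit 9) 
(.lf (nat_lit 521242) (.g (nat_lit 2427) (.e (nat_lit 204838) (nat_lit 20) (.e (nat_lit 114694) (nat_lit 11) (.e (nat_lit 426139) (nat_lit 3) (.e (nat_lit 204861) (nat_lit 26) (.e (nat_lit 336075) (nat_lit 9) (.e (nat_lit 336326) (nat_lit 18) .nil)))))) (.g (nat_lit 1) (.e (nat_lit 225117) (nat_lit 0) .nil) .nil))) 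
(.lf (nat_lit 521754) (.g (nat_lit 3468) (.e (nat_lit 204846) (nat_lit 24) (.e (nat_lit 319490) (nat_lit 0) (.e (nat_lit 5664) (nat_lit 312) (.e (nat_lit 2661) (nat_lit 167) (.e (nat_lit 196668) (nat_lit 14) (.e (nat_lit 73782) (nat_lit 32) (.e (nat_lit 2681) (nat_lit 168) .nil))))))) (.g (nat_lit 1) (.e (nat_lit 226012) (nat_lit 0) .nil) .nil)))) (.nd (nat_lit 9) 
(.lf (nat_lit 521498) (.g (nat_lit 3419) (.e (nat_lit 204838) (nat_lit 20) (.e (nat_lit 114718) (nat_lit 23) (.e (nat_lit 98384) (nat_lit 32) (.e (nat_lit 475177) (nat_lit 24) (.e (nat_lit 516120) (nat_lit 1) (.e (nat_lit 164330) (nat_lit 230) (.e (nat_lit 163872) (nat_lit 3) .nil))))))) (.g (nat_lit 1) (.e (nat_lit 225621) (nat_lit 0) .nil) .nil))) 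
(.lf (nat_lit 522010) (.g (nat_lit 3225) (.e (nat_lit 204846) (nat_lit 24) (.e (nat_lit 319533) (nat_lit 16) (.e (nat_lit 286735) (nat_lit 3) (.e (nat_lit 98325) (nat_lit 17) (.e (nat_lit 6986) (nat_lit 377) (.e (nat_lit 977) (nat_lit 81) (.e (nat_lit 5664) (nat_lit 312) (.e (nat_lit 2679) (nat_lit 168) .nil)))))))) (.g (nat_lit 1) (.e (nat_lit 226390) (nat_lit 0) .nil) .nil))))) 
(.nd (nat_lit 8) (.nd (nat_lit 9) 
(.lf (nat_lit 521370) (.g (nat_lit 2978) (.e (nat_lit 204838) (nat_lit 20) (.e (nat_lit 114714) (nat_lit 22) (.e (nat_lit 90172) (nat_lit 14) (.e (nat_lit 180243) (nat_lit 5) (.e (nat_lit 532504) (nat_lit 1) (.e (nat_lit 57691) (nat_lit 156) (.e (nat_lit 163872) (nat_lit 3) .nil))))))) (.g (nat_lit 1) (.e (nat_lit 225388) (nat_lit 0) .nil) .nil))) 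
(.lf (nat_lit 521882) (.g (nat_lit 1794) (.e (nat_lit 204846) (nat_lit 24) (.e (nat_lit 319531) (nat_lit 16) (.e (nat_lit 286734) (nat_lit 3) (.e (nat_lit 98358) (nat_lit 26) .nil)))) (.g (nat_lit 0) (.e (nat_lit 226214) (nat_lit 0) .nil) .nil)))) (.nd (nat_lit 9) 
(.lf (nat_lit 521626) (.g (nat_lit 2463) (.e (nat_lit 204845) (nat_lit 24) (.e (nat_lit 319529) (nat_lit 16) (.e (nat_lit 286735) (nat_lit 3) (.e (nat_lit 98382) (nat_lit 31) (.e (nat_lit 466981) (nat_lit 23) .nil))))) (.g (nat_lit 1) (.e (nat_lit 225847) (nat_lit 0) .nil) .nil))) 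
(.lf (nat_lit 522138) (.g (nat_lit 2708) (.e (nat_lit 204846) (nat_lit 24) (.e (nat_lit 319534) (nat_lit 16) (.e (nat_lit 286735) (nat_lit 3) (.e (nat_lit 98363) (nat_lit 26) (.e (nat_lit 426262) (nat_lit 9) (.e (nat_lit 426129) (nat_lit 3) .nil)))))) (.g (nat_lit 1) (.e (nat_lit 226543) (nat_lit 0) .nil) .nil)))))) (.nd (nat_lit 7) (.nd (nat_lit 8) (.nd (nat_lit 9) 
(.lf (nat_lit 521306) (.g (nat_lit 1959) (.e (nat_lit 204838) (nat_lit 20) (.e (nat_lit 114698) (nat_lit 11) (.e (nat_lit 426133) (nat_lit 3) (.e (nat_lit 204859) (nat_lit 26) (.e (nat_lit 336116) (nat_lit 9) (.e (nat_lit 336323) (nat_lit 18) .nil)))))) (.g (nat_lit 1) (.e (nat_lit 225277) (nat_lit 0) .nil) .nil))) 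
(.lf (nat_lit 521818) (.g (nat_lit 3034) (.e (nat_lit 204846) (nat_lit 24) (.e (nat_lit 319529) (nat_lit 16) (.e (nat_lit 286735) (nat_lit 3) (.e (nat_lit 98359) (nat_lit 26) (.e (nat_lit 426215) (nat_lit 9) .nil))))) (.g (nat_lit 0) (.e (nat_lit 226120) (nat_lit 0) .nil) .nil)))) (.nd (nat_lit 9) 
(.lf (nat_lit 521562) (.g (nat_lit 4289) (.e (nat_lit 204838) (nat_lit 20) (.e (nat_lit 114719) (nat_lit 23) (.e (nat_lit 98384) (nat_lit 32) (.e (nat_lit 475179) (nat_lit 24) (.e (nat_lit 516119) (nat_lit 1) (.e (nat_lit 164325) (nat_lit 230) (.e (nat_lit 163875) (nat_lit 3) .nil))))))) (.g (nat_lit 1) (.e (nat_lit 225725) (nat_lit 0) .nil) .nil))) 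
(.lf (nat_lit 522074) (.g (nat_lit 1610) (.e (nat_lit 204846) (nat_lit 24) (.e (nat_lit 319534) (nat_lit 16) (.e (nat_lit 286732) (nat_lit 2) (.e (nat_lit 90171) (nat_lit 14) .nil)))) (.g (nat_lit 0) (.e (nat_lit 226468) (nat_lit 0) .nil) .nil))))) (.nd (nat_lit 8) (.nd (nat_lit 9) 
(.lf (nat_lit 521434) (.g (nat_lit 2158) (.e (nat_lit 204838) (nat_lit 20) (.e (nat_lit 114716) (nat_lit 22) (.e (nat_lit 90172) (nat_lit 14) (.e (nat_lit 180243) (nat_lit 5) (.e (nat_lit 532503) (nat_lit 1) (.e (nat_lit 57687) (nat_lit 156) (.e (nat_lit 163872) (nat_lit 3) .nil))))))) (.g (nat_lit 1) (.e (nat_lit 225495) (nat_lit 0) .nil) .nil))) 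
(.lf (nat_lit 521946) (.g (nat_lit 3508) (.e (nat_lit 204846) (nat_lit 24) (.e (nat_lit 319532) (nat_lit 16) (.e (nat_lit 286734) (nat_lit 3) (.e (nat_lit 98350) (nat_lit 24) (.e (nat_lit 409602) (nat_lit 0) (.e (nat_lit 5664) (nat_lit 312) (.e (nat_lit 2679) (nat_lit 168) .nil))))))) (.g (nat_lit 1) (.e (nat_lit 226292) (nat_lit 0) .nil) .nil)))) (.nd (nat_lit 9) 
(.lf (nat_lit 521690) (.g (nat_lit 1898) (.e (nat_lit 204845) (nat_lit 24) (.e (nat_lit 319531) (nat_lit 16) (.e (nat_lit 286735) (nat_lit 3) (.e (nat_lit 98355) (nat_lit 26) .nil)))) (.g (nat_lit 0) (.e (nat_lit 225932) (nat_lit 0) .nil) .nil))) 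
(.lf (nat_lit 522202) (.g (nat_lit 3552) (.e (nat_lit 204849) (nat_lit 25) (.e (nat_lit 327699) (nat_lit 8) (.e (nat_lit 303117) (nat_lit 2) (.e (nat_lit 196668) (nat_lit 14) (.e (nat_lit 73782) (nat_lit 32) (.e (nat_lit 2682) (nat_lit 168) .nil)))))) (.g (nat_lit 1) (.e (nat_lit 226646) (nat_lit 0) .nil) .nil))))))) (.nd (nat_lit 6) (.nd (nat_lit 7) (.nd (nat_lit 8) (.nd (nat_lit 9) 
(.lf (nat_lit 521274) (.g (nat_lit 1478) (.e (nat_lit 204838) (nat_lit 20) (.e (nat_lit 114697) (nat_lit 11) (.e (nat_lit 426137) (nat_lit 3) (.e (nat_lit 204877) (nat_lit 31) (.e (nat_lit 384768) (nat_lit 3) .nil))))) (.g (nat_lit 1) (.e (nat_lit 225188) (nat_lit 0) .nil) .nil))) 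
(.lf (nat_lit 521786) (.g (nat_lit 2813) (.e (nat_lit 204846) (nat_lit 24) (.e (nat_lit 319528) (nat_lit 16) (.e (nat_lit 286735) (nat_lit 3) (.e (nat_lit 98325) (nat_lit 17) (.e (nat_lit 6986) (nat_lit 377) (.e (nat_lit 1374) (nat_lit 104) (.e (nat_lit 303119) (nat_lit 3) .nil))))))) (.g (nat_lit 1) (.e (nat_lit 226078) (nat_lit 0) .nil) .nil)))) (.nd (nat_lit 9) 
(.lf (nat_lit 521530) (.g (nat_lit 2778) (.e (nat_lit 204838) (nat_lit 20) (.e (nat_lit 114719) (nat_lit 23) (.e (nat_lit 98365) (nat_lit 26) (.e (nat_lit 426139) (nat_lit 3) (.e (nat_lit 204829) (nat_lit 18) (.e (nat_lit 57691) (nat_lit 156) (.e (nat_lit 163872) (nat_lit 3) .nil))))))) (.g (nat_lit 1) (.e (nat_lit 225676) (nat_lit 0) .nil) .nil))) 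
(.lf (nat_lit 522042) (.g (nat_lit 2976) (.e (nat_lit 204846) (nat_lit 24) (.e (nat_lit 319533) (nat_lit 16) (.e (nat_lit 286735) (nat_lit 3) (.e (nat_lit 98365) (nat_lit 26) (.e (nat_lit 426258) (nat_lit 9) .nil))))) (.g (nat_lit 0) (.e (nat_lit 226427) (nat_lit 0) .nil) .nil))))) (.nd (nat_lit 8) (.nd (nat_lit 9) 
(.lf (nat_lit 521402) (.g (nat_lit 3324) (.e (nat_lit 204838) (nat_lit 20) (.e (nat_lit 114714) (nat_lit 22) (.e (nat_lit 90174) (nat_lit 14) (.e (nat_lit 180243) (nat_lit 5) (.e (nat_lit 532504) (nat_lit 1) (.e (nat_lit 57691) (nat_lit 156) (.e (nat_lit 163872) (nat_lit 3) .nil))))))) (.g (nat_lit 1) (.e (nat_lit 225443) (nat_lit 0) .nil) .nil))) 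
(.lf (nat_lit 521914) (.g (nat_lit 2630) (.e (nat_lit 204846) (nat_lit 24) (.e (nat_lit 319531) (nat_lit 16) (.e (nat_lit 286735) (nat_lit 3) (.e (nat_lit 98365) (nat_lit 26) (.e (nat_lit 426187) (nat_lit 9) (.e (nat_lit 433920) (nat_lit 3) .nil)))))) (.g (nat_lit 1) (.e (nat_lit 226247) (nat_lit 0) .nil) .nil)))) (.nd (nat_lit 9) 
(.lf (nat_lit 521658) (.g (nat_lit 3978) (.e (nat_lit 204845) (nat_lit 24) (.e (nat_lit 319530) (nat_lit 16) (.e (nat_lit 286735) (nat_lit 3) (.e (nat_lit 98367) (nat_lit 27) (.e (nat_lit 442112) (nat_lit 8) (.e (nat_lit 2684) (nat_lit 168) .nil)))))) (.g (nat_lit 1) (.e (nat_lit 225891) (nat_lit 0) .nil) .nil))) 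
(.lf (nat_lit 522170) (.g (nat_lit 1673) (.e (nat_lit 204848) (nat_lit 25) (.e (nat_lit 327699) (nat_lit 8) (.e (nat_lit 303117) (nat_lit 2) (.e (nat_lit 196669) (nat_lit 14) .nil)))) (.g (nat_lit 0) (.e (nat_lit 226579) (nat_lit 0) .nil) .nil)))))) (.nd (nat_lit 7) (.nd (nat_lit 8) (.nd (nat_lit 9) 
(.lf (nat_lit 521338) (.g (nat_lit 1794) (.e (nat_lit 204838) (nat_lit 20) (.e (nat_lit 114698) (nat_lit 11) (.e (nat_lit 426138) (nat_lit 3) (.e (nat_lit 204876) (nat_lit 31) (.e (nat_lit 384768) (nat_lit 3) .nil))))) (.g (nat_lit 1) (.e (nat_lit 225316) (nat_lit 0) .nil) .nil))) 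
(.lf (nat_lit 521850) (.g (nat_lit 358) (.e (nat_lit 204846) (nat_lit 24) (.e (nat_lit 319530) (nat_lit 16) (.e (nat_lit 286735) (nat_lit 3) .nil))) (.g (nat_lit 0) (.e (nat_lit 226170) (nat_lit 0) .nil) .nil)))) (.nd (nat_lit 9) 
(.lf (nat_lit 521594) (.g (nat_lit 1012) (.e (nat_lit 204845) (nat_lit 24) (.e (nat_lit 319529) (nat_lit 16) (.e (nat_lit 286727) (nat_lit 0) (.e (nat_lit 1809) (nat_lit 120) .nil)))) (.g (nat_lit 0) (.e (nat_lit 225796) (nat_lit 0) .nil) .nil))) 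
(.lf (nat_lit 522106) (.g (nat_lit 3363) (.e (nat_lit 204846) (nat_lit 24) (.e (nat_lit 319534) (nat_lit 16) (.e (nat_lit 286734) (nat_lit 3) (.e (nat_lit 98371) (nat_lit 28) (.e (nat_lit 442427) (nat_lit 23) .nil))))) (.g (nat_lit 1) (.e (nat_lit 226511) (nat_lit 0) .nil) .nil))))) (.nd (nat_lit 8) (.nd (nat_lit 9) 
(.lf (nat_lit 521466) (.g (nat_lit 3434) (.e (nat_lit 204838) (nat_lit 20) (.e (nat_lit 114716) (nat_lit 22) (.e (nat_lit 90185) (nat_lit 17) (.e (nat_lit 237592) (nat_lit 3) (.e (nat_lit 204829) (nat_lit 18) (.e (nat_lit 57688) (nat_lit 156) (.e (nat_lit 163872) (nat_lit 3) .nil))))))) (.g (nat_lit 1) (.e (nat_lit 225571) (nat_lit 0) .nil) .nil))) 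
(.lf (nat_lit 521978) (.g (nat_lit 2619) (.e (nat_lit 204846) (nat_lit 24) (.e (nat_lit 319533) (nat_lit 16) (.e (nat_lit 286733) (nat_lit 2) (.e (nat_lit 90185) (nat_lit 17) (.e (nat_lit 237605) (nat_lit 9) .nil))))) (.g (nat_lit 0) (.e (nat_lit 226357) (nat_lit 0) .nil) .nil)))) (.nd (nat_lit 9) 
(.lf (nat_lit 521722) (.g (nat_lit 737) (.e (nat_lit 204845) (nat_lit 24) (.e (nat_lit 319533) (nat_lit 16) (.e (nat_lit 286735) (nat_lit 3) .nil))) (.g (nat_lit 0) (.e (nat_lit 225970) (nat_lit 0) .nil) .nil))) 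
(.lf (nat_lit 522234) (.g (nat_lit 4938) (.e (nat_lit 204849) (nat_lit 25) (.e (nat_lit 327715) (nat_lit 16) (.e (nat_lit 286733) (nat_lit 2) (.e (nat_lit 90178) (nat_lit 15) (.e (nat_lit 188452) (nat_lit 23) .nil))))) (.g (nat_lit 1) (.e (nat_lit 226702) (nat_lit 0) .nil) .nil)))))))))) 
(.nd (nat_lit 3) (.nd (nat_lit 4) (.nd (nat_lit 5) (.nd (nat_lit 6) (.nd (nat_lit 7) 
(.nd (nat_lit 8) (.nd (nat_lit 9) 
(.lf (nat_lit 521222) (.g (nat_lit 846) (.e (nat_lit 204837) (nat_lit 20) (.e (nat_lit 114719) (nat_lit 23) (.e (nat_lit 98385) (nat_lit 32) .nil))) (.g (nat_lit 0) (.e (nat_lit 225088) (nat_lit 0) .nil) .nil))) 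
(.lf (nat_lit 521734) (.g (nat_lit 1605) (.e (nat_lit 204845) (nat_lit 24) (.e (nat_lit 319534) (nat_lit 16) (.e (nat_lit 286732) (nat_lit 2) (.e (nat_lit 90184) (nat_lit 17) .nil)))) (.g (nat_lit 0) (.e (nat_lit 225985) (nat_lit 0) .nil) .nil)))) (.nd (nat_lit 9) 
(.lf (nat_lit 521478) (.g (nat_lit 4871) (.e (nat_lit 204838) (nat_lit 20) (.e (nat_lit 114718) (nat_lit 23) (.e (nat_lit 98356) (nat_lit 26) (.e (nat_lit 426436) (nat_lit 18) (.e (nat_lit 98335) (nat_lit 18) (.e (nat_lit 164330) (nat_lit 230) (.e (nat_lit 163872) (nat_lit 3) .nil))))))) (.g (nat_lit 1) (.e (nat_lit 225593) (nat_lit 0) .nil) .nil))) 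
(.lf (nat_lit 521990) (.g (nat_lit 1733) (.e (nat_lit 204846) (nat_lit 24) (.e (nat_lit 319533) (nat_lit 16) (.e (nat_lit 286734) (nat_lit 3) (.e (nat_lit 98357) (nat_lit 26) .nil)))) (.g (nat_lit 0) (.e (nat_lit 226369) (nat_lit 0) .nil) .nil))))) (.nd (nat_lit 8) (.nd (nat_lit 9) 
(.lf (nat_lit 521350) (.g (nat_lit 2929) (.e (nat_lit 204838) (nat_lit 20) (.e (nat_lit 114698) (nat_lit 11) (.e (nat_lit 426139) (nat_lit 3) (.e (nat_lit 204861) (nat_lit 26) (.e (nat_lit 336086) (nat_lit 9) (.e (nat_lit 336324) (nat_lit 18) .nil)))))) (.g (nat_lit 1) (.e (nat_lit 225329) (nat_lit 0) .nil) .nil))) 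
(.lf (nat_lit 521862) (.g (nat_lit 2906) (.e (nat_lit 204846) (nat_lit 24) (.e (nat_lit 319530) (nat_lit 16) (.e (nat_lit 286735) (nat_lit 3) (.e (nat_lit 98371) (nat_lit 28) (.e (nat_lit 442425) (nat_lit 23) .nil))))) (.g (nat_lit 1) (.e (nat_lit 226182) (nat_lit 0) .nil) .nil)))) (.nd (nat_lit 9) 
(.lf (nat_lit 521606) (.g (nat_lit 4089) (.e (nat_lit 204845) (nat_lit 24) (.e (nat_lit 319529) (nat_lit 16) (.e (nat_lit 286735) (nat_lit 3) (.e (nat_lit 98356) (nat_lit 26) (.e (nat_lit 426241) (nat_lit 9) (.e (nat_lit 426139) (nat_lit 3) .nil)))))) (.g (nat_lit 1) (.e (nat_lit 225822) (nat_lit 0) .nil) .nil))) 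
(.lf (nat_lit 522118) (.g (nat_lit 3255) (.e (nat_lit 204846) (nat_lit 24) (.e (nat_lit 319534) (nat_lit 16) (.e (nat_lit 286735) (nat_lit 3) (.e (nat_lit 98354) (nat_lit 26) (.e (nat_lit 426270) (nat_lit 9) (.e (nat_lit 426139) (nat_lit 3) .nil)))))) (.g (nat_lit 1) (.e (nat_lit 226523) (nat_lit 0) .nil) .nil)))))) (.nd (nat_lit 7) (.nd (nat_lit 8) (.nd (nat_lit 9) 
(.lf (nat_lit 521286) (.g (nat_lit 2514) (.e (nat_lit 204838) (nat_lit 20) (.e (nat_lit 114697) (nat_lit 11) (.e (nat_lit 426139) (nat_lit 3) (.e (nat_lit 204861) (nat_lit 26) (.e (nat_lit 336075) (nat_lit 9) (.e (nat_lit 336325) (nat_lit 18) .nil)))))) (.g (nat_lit 1) (.e (nat_lit 225202) (nat_lit 0) .nil) .nil))) 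
(.lf (nat_lit 521798) (.g (nat_lit 2046) (.e (nat_lit 204846) (nat_lit 24) (.e (nat_lit 319528) (nat_lit 16) (.e (nat_lit 286735) (nat_lit 3) (.e (nat_lit 98366) (nat_lit 27) (.e (nat_lit 442112) (nat_lit 8) .nil))))) (.g (nat_lit 0) (.e (nat_lit 226090) (nat_lit 0) .nil) .nil)))) (.nd (nat_lit 9) 
(.lf (nat_lit 521542) (.g (nat_lit 442) (.e (nat_lit 204838) (nat_lit 20) (.e (nat_lit 114719) (nat_lit 23) (.e (nat_lit 98367) (nat_lit 27) .nil))) (.g (nat_lit 0) (.e (nat_lit 225693) (nat_lit 0) .nil) .nil))) 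
(.lf (nat_lit 522054) (.g (nat_lit 2789) (.e (nat_lit 204846) (nat_lit 24) (.e (nat_lit 319533) (nat_lit 16) (.e (nat_lit 286735) (nat_lit 3) (.e (nat_lit 98371) (nat_lit 28) (.e (nat_lit 442425) (nat_lit 23) .nil))))) (.g (nat_lit 1) (.e (nat_lit 226439) (nat_lit 0) .nil) .nil))))) (.nd (nat_lit 8) (.nd (nat_lit 9) 
(.lf (nat_lit 521414) (.g (nat_lit 3427) (.e (nat_lit 204838) (nat_lit 20) (.e (nat_lit 114715) (nat_lit 22) (.e (nat_lit 90170) (nat_lit 13) (.e (nat_lit 172065) (nat_lit 3) (.e (nat_lit 204830) (nat_lit 18) (.e (nat_lit 57692) (nat_lit 156) (.e (nat_lit 163872) (nat_lit 3) .nil))))))) (.g (nat_lit 1) (.e (nat_lit 225462) (nat_lit 0) .nil) .nil))) 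
(.lf (nat_lit 521926) (.g (nat_lit 1748) (.e (nat_lit 204846) (nat_lit 24) (.e (nat_lit 319531) (nat_lit 16) (.e (nat_lit 286735) (nat_lit 3) (.e (nat_lit 98378) (nat_lit 30) .nil)))) (.g (nat_lit 0) (.e (nat_lit 226259) (nat_lit 0) .nil) .nil)))) (.nd (nat_lit 9) 
(.lf (nat_lit 521670) (.g (nat_lit 2758) (.e (nat_lit 204845) (nat_lit 24) (.e (nat_lit 319530) (nat_lit 16) (.e (nat_lit 286735) (nat_lit 3) (.e (nat_lit 98382) (nat_lit 31) (.e (nat_lit 466978) (nat_lit 23) .nil))))) (.g (nat_lit 1) (.e (nat_lit 225903) (nat_lit 0) .nil) .nil))) 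
(.lf (nat_lit 522182) (.g (nat_lit 3485) (.e (nat_lit 204849) (nat_lit 25) (.e (nat_lit 327698) (nat_lit 8) (.e (nat_lit 303117) (nat_lit 2) (.e (nat_lit 196666) (nat_lit 13) (.e (nat_lit 65628) (nat_lit 14) (.e (nat_lit 401428) (nat_lit 3) .nil)))))) (.g (nat_lit 1) (.e (nat_lit 226620) (nat_lit 0) .nil) .nil))))))) (.nd (nat_lit 6) (.nd (nat_lit 7) (.nd (nat_lit 8) (.nd (nat_lit 9) 
(.lf (nat_lit 521254) (.g (nat_lit 1211) (.e (nat_lit 204838) (nat_lit 20) (.e (nat_lit 114696) (nat_lit 11) (.e (nat_lit 426129) (nat_lit 3) (.e (nat_lit 204877) (nat_lit 31) (.e (nat_lit 384768) (nat_lit 3) .nil))))) (.g (nat_lit 1) (.e (nat_lit 225133) (nat_lit 0) .nil) .nil))) 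
(.lf (nat_lit 521766) (.g (nat_lit 351) (.e (nat_lit 204846) (nat_lit 24) (.e (nat_lit 319504) (nat_lit 10) (.e (nat_lit 7936) (nat_lit 315) .nil))) (.g (nat_lit 0) (.e (nat_lit 226037) (nat_lit 0) .nil) .nil)))) (.nd (nat_lit 9) 
(.lf (nat_lit 521510) (.g (nat_lit 3216) (.e (nat_lit 204838) (nat_lit 20) (.e (nat_lit 114719) (nat_lit 23) (.e (nat_lit 98335) (nat_lit 18) (.e (nat_lit 164330) (nat_lit 230) (.e (nat_lit 163867) (nat_lit 2) (.e (nat_lit 196656) (nat_lit 11) (.e (nat_lit 16416) (nat_lit 3) .nil))))))) (.g (nat_lit 1) (.e (nat_lit 225639) (nat_lit 0) .nil) .nil))) 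
(.lf (nat_lit 522022) (.g (nat_lit 3588) (.e (nat_lit 204846) (nat_lit 24) (.e (nat_lit 319533) (nat_lit 16) (.e (nat_lit 286735) (nat_lit 3) (.e (nat_lit 98356) (nat_lit 26) (.e (nat_lit 426227) (nat_lit 9) .nil))))) (.g (nat_lit 0) (.e (nat_lit 226407) (nat_lit 0) .nil) .nil))))) (.nd (nat_lit 8) (.nd (nat_lit 9) 
(.lf (nat_lit 521382) (.g (nat_lit 2735) (.e (nat_lit 204838) (nat_lit 20) (.e (nat_lit 114714) (nat_lit 22) (.e (nat_lit 90172) (nat_lit 14) (.e (nat_lit 180244) (nat_lit 5) (.e (nat_lit 532504) (nat_lit 1) (.e (nat_lit 57691) (nat_lit 156) (.e (nat_lit 163872) (nat_lit 3) .nil))))))) (.g (nat_lit 1) (.e (nat_lit 225408) (nat_lit 0) .nil) .nil))) 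
(.lf (nat_lit 521894) (.g (nat_lit 2270) (.e (nat_lit 204846) (nat_lit 24) (.e (nat_lit 319531) (nat_lit 16) (.e (nat_lit 286735) (nat_lit 3) (.e (nat_lit 98353) (nat_lit 25) (.e (nat_lit 417813) (nat_lit 9) (.e (nat_lit 311314) (nat_lit 3) .nil)))))) (.g (nat_lit 1) (.e (nat_lit 226227) (nat_lit 0) .nil) .nil)))) (.nd (nat_lit 9) 
(.lf (nat_lit 521638) (.g (nat_lit 1249) (.e (nat_lit 204845) (nat_lit 24) (.e (nat_lit 319530) (nat_lit 16) (.e (nat_lit 286734) (nat_lit 3) (.e (nat_lit 98381) (nat_lit 31) .nil)))) (.g (nat_lit 0) (.e (nat_lit 225871) (nat_lit 0) .nil) .nil))) 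
(.lf (nat_lit 522150) (.g (nat_lit 2581) (.e (nat_lit 204846) (nat_lit 24) (.e (nat_lit 319534) (nat_lit 16) (.e (nat_lit 286735) (nat_lit 3) (.e (nat_lit 98369) (nat_lit 28) (.e (nat_lit 442426) (nat_lit 23) .nil))))) (.g (nat_lit 1) (.e (nat_lit 226555) (nat_lit 0) .nil) .nil)))))) (.nd (nat_lit 7) (.nd (nat_lit 8) (.nd (nat_lit 9) 
(.lf (nat_lit 521318) (.g (nat_lit 2072) (.e (nat_lit 204838) (nat_lit 20) (.e (nat_lit 114698) (nat_lit 11) (.e (nat_lit 426137) (nat_lit 3) (.e (nat_lit 204861) (nat_lit 26) (.e (nat_lit 336075) (nat_lit 9) (.e (nat_lit 336325) (nat_lit 18) .nil)))))) (.g (nat_lit 1) (.e (nat_lit 225290) (nat_lit 0) .nil) .nil))) 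
(.lf (nat_lit 521830) (.g (nat_lit 2143) (.e (nat_lit 204846) (nat_lit 24) (.e (nat_lit 319529) (nat_lit 16) (.e (nat_lit 286735) (nat_lit 3) (.e (nat_lit 98382) (nat_lit 31) (.e (nat_lit 466979) (nat_lit 23) .nil))))) (.g (nat_lit 1) (.e (nat_lit 226141) (nat_lit 0) .nil) .nil)))) (.nd (nat_lit 9) 
(.lf (nat_lit 521574) (.g (nat_lit 4538) (.e (nat_lit 204845) (nat_lit 24) (.e (nat_lit 319490) (nat_lit 0) (.e (nat_lit 5626) (nat_lit 312) (.e (nat_lit 2668) (nat_lit 167) (.e (nat_lit 196666) (nat_lit 13) (.e (nat_lit 65630) (nat_lit 14) (.e (nat_lit 401428) (nat_lit 3) .nil))))))) (.g (nat_lit 1) (.e (nat_lit 225762) (nat_lit 0) .nil) .nil))) 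
(.lf (nat_lit 522086) (.g (nat_lit 3379) (.e (nat_lit 204846) (nat_lit 24) (.e (nat_lit 319534) (nat_lit 16) (.e (nat_lit 286734) (nat_lit 3) (.e (nat_lit 98323) (nat_lit 17) (.e (nat_lit 6989) (nat_lit 377) (.e (nat_lit 1076) (nat_lit 81) (.e (nat_lit 5664) (nat_lit 312) (.e (nat_lit 2679) (nat_lit 168) .nil)))))))) (.g (nat_lit 1) (.e (nat_lit 226491) (nat_lit 0) .nil) .nil))))) 
(.nd (nat_lit 8) (.nd (nat_lit 9) 
(.lf (nat_lit 521446) (.g (nat_lit 3091) (.e (nat_lit 204838) (nat_lit 20) (.e (nat_lit 114716) (nat_lit 22) (.e (nat_lit 90172) (nat_lit 14) (.e (nat_lit 180244) (nat_lit 5) (.e (nat_lit 532503) (nat_lit 1) (.e (nat_lit 57689) (nat_lit 156) (.e (nat_lit 163872) (nat_lit 3) .nil))))))) (.g (nat_lit 1) (.e (nat_lit 225519) (nat_lit 0) .nil) .nil))) 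
(.lf (nat_lit 521958) (.g (nat_lit 1054) (.e (nat_lit 204846) (nat_lit 24) (.e (nat_lit 319533) (nat_lit 16) (.e (nat_lit 286722) (nat_lit 0) (.e (nat_lit 1685) (nat_lit 117) .nil)))) (.g (nat_lit 0) (.e (nat_lit 226316) (nat_lit 0) .nil) .nil)))) (.nd (nat_lit 9) 
(.lf (nat_lit 521702) (.g (nat_lit 3330) (.e (nat_lit 204845) (nat_lit 24) (.e (nat_lit 319531) (nat_lit 16) (.e (nat_lit 286735) (nat_lit 3) (.e (nat_lit 98365) (nat_lit 26) (.e (nat_lit 426187) (nat_lit 9) (.e (nat_lit 433920) (nat_lit 3) .nil)))))) (.g (nat_lit 1) (.e (nat_lit 225946) (nat_lit 0) .nil) .nil))) 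
(.lf (nat_lit 522214) (.g (nat_lit 1811) (.e (nat_lit 204849) (nat_lit 25) (.e (nat_lit 327699) (nat_lit 8) (.e (nat_lit 303119) (nat_lit 3) (.e (nat_lit 204848) (nat_lit 25) .nil)))) (.g (nat_lit 0) (.e (nat_lit 226665) (nat_lit 0) .nil) .nil)))))))) (.nd (nat_lit 5) (.nd (nat_lit 6) (.nd (nat_lit 7) (.nd (nat_lit 8) (.nd (nat_lit 9) 
(.lf (nat_lit 521238) (.g (nat_lit 2069) (.e (nat_lit 204838) (nat_lit 20) (.e (nat_lit 114694) (nat_lit 11) (.e (nat_lit 426139) (nat_lit 3) (.e (nat_lit 204861) (nat_lit 26) (.e (nat_lit 336074) (nat_lit 9) (.e (nat_lit 336324) (nat_lit 18) .nil)))))) (.g (nat_lit 1) (.e (nat_lit 225113) (nat_lit 0) .nil) .nil))) 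
(.lf (nat_lit 521750) (.g (nat_lit 1957) (.e (nat_lit 204846) (nat_lit 24) (.e (nat_lit 319490) (nat_lit 0) (.e (nat_lit 5664) (nat_lit 312) (.e (nat_lit 2654) (nat_lit 167) .nil)))) (.g (nat_lit 0) (.e (nat_lit 226007) (nat_lit 0) .nil) .nil)))) (.nd (nat_lit 9) 
(.lf (nat_lit 521494) (.g (nat_lit 3593) (.e (nat_lit 204838) (nat_lit 20) (.e (nat_lit 114718) (nat_lit 23) (.e (nat_lit 98384) (nat_lit 32) (.e (nat_lit 475177) (nat_lit 24) (.e (nat_lit 516117) (nat_lit 1) (.e (nat_lit 164330) (nat_lit 230) (.e (nat_lit 163874) (nat_lit 3) .nil))))))) (.g (nat_lit 1) (.e (nat_lit 225615) (nat_lit 0) .nil) .nil))) 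
(.lf (nat_lit 522006) (.g (nat_lit 2754) (.e (nat_lit 204846) (nat_lit 24) (.e (nat_lit 319533) (nat_lit 16) (.e (nat_lit 286735) (nat_lit 3) (.e (nat_lit 98321) (nat_lit 17) (.e (nat_lit 7936) (nat_lit 392) .nil))))) (.g (nat_lit 0) (.e (nat_lit 226386) (nat_lit 0) .nil) .nil))))) (.nd (nat_lit 8) (.nd (nat_lit 9) 
(.lf (nat_lit 521366) (.g (nat_lit 1550) (.e (nat_lit 204838) (nat_lit 20) (.e (nat_lit 114714) (nat_lit 22) (.e (nat_lit 90172) (nat_lit 14) (.e (nat_lit 180239) (nat_lit 1) (.e (nat_lit 499991) (nat_lit 14) .nil))))) (.g (nat_lit 0) (.e (nat_lit 225383) (nat_lit 0) .nil) .nil))) 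
(.lf (nat_lit 521878) (.g (nat_lit 1933) (.e (nat_lit 204846) (nat_lit 24) (.e (nat_lit 319531) (nat_lit 16) (.e (nat_lit 286733) (nat_lit 2) (.e (nat_lit 90171) (nat_lit 14) (.e (nat_lit 188160) (nat_lit 40) .nil))))) (.g (nat_lit 0) (.e (nat_lit 226210) (nat_lit 0) .nil) .nil)))) (.nd (nat_lit 9) 
(.lf (nat_lit 521622) (.g (nat_lit 3203) (.e (nat_lit 204845) (nat_lit 24) (.e (nat_lit 319529) (nat_lit 16) (.e (nat_lit 286735) (nat_lit 3) (.e (nat_lit 98381) (nat_lit 31) (.e (nat_lit 466981) (nat_lit 23) .nil))))) (.g (nat_lit 1) (.e (nat_lit 225843) (nat_lit 0) .nil) .nil))) 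
(.lf (nat_lit 522134) (.g (nat_lit 2391) (.e (nat_lit 204846) (nat_lit 24) (.e (nat_lit 319534) (nat_lit 16) (.e (nat_lit 286735) (nat_lit 3) (.e (nat_lit 98363) (nat_lit 26) (.e (nat_lit 426225) (nat_lit 9) (.e (nat_lit 426129) (nat_lit 3) .nil)))))) (.g (nat_lit 1) (.e (nat_lit 226539) (nat_lit 0) .nil) .nil)))))) (.nd (nat_lit 7) (.nd (nat_lit 8) (.nd (nat_lit 9) 
(.lf (nat_lit 521302) (.g (nat_lit 2324) (.e (nat_lit 204838) (nat_lit 20) (.e (nat_lit 114698) (nat_lit 11) (.e (nat_lit 426124) (nat_lit 2) (.e (nat_lit 196674) (nat_lit 15) (.e (nat_lit 89856) (nat_lit 3) .nil))))) (.g (nat_lit 1) (.e (nat_lit 225269) (nat_lit 0) .nil) .nil))) 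
(.lf (nat_lit 521814) (.g (nat_lit 364) (.e (nat_lit 204846) (nat_lit 24) (.e (nat_lit 319529) (nat_lit 16) (.e (nat_lit 286735) (nat_lit 3) .nil))) (.g (nat_lit 0) (.e (nat_lit 226112) (nat_lit 0) .nil) .nil)))) (.nd (nat_lit 9) 
(.lf (nat_lit 521558) (.g (nat_lit 3804) (.e (nat_lit 204838) (nat_lit 20) (.e (nat_lit 114719) (nat_lit 23) (.e (nat_lit 98384) (nat_lit 32) (.e (nat_lit 475177) (nat_lit 24) (.e (nat_lit 516120) (nat_lit 1) (.e (nat_lit 164330) (nat_lit 230) (.e (nat_lit 163872) (nat_lit 3) .nil))))))) (.g (nat_lit 1) (.e (nat_lit 225720) (nat_lit 0) .nil) .nil))) 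
(.lf (nat_lit 522070) (.g (nat_lit 923) (.e (nat_lit 204846) (nat_lit 24) (.e (nat_lit 319534) (nat_lit 16) (.e (nat_lit 286728) (nat_lit 0) (.e (nat_lit 1802) (nat_lit 119) .nil)))) (.g (nat_lit 0) (.e (nat_lit 226459) (nat_lit 0) .nil) .nil))))) (.nd (nat_lit 8) (.nd (nat_lit 9) 
(.lf (nat_lit 521430) (.g (nat_lit 1628) (.e (nat_lit 204838) (nat_lit 20) (.e (nat_lit 114716) (nat_lit 22) (.e (nat_lit 90170) (nat_lit 13) (.e (nat_lit 172065) (nat_lit 3) .nil)))) (.g (nat_lit 0) (.e (nat_lit 225488) (nat_lit 0) .nil) .nil))) 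
(.lf (nat_lit 521942) (.g (nat_lit 1798) (.e (nat_lit 204846) (nat_lit 24) (.e (nat_lit 319532) (nat_lit 16) (.e (nat_lit 286733) (nat_lit 2) (.e (nat_lit 90173) (nat_lit 14) (.e (nat_lit 180280) (nat_lit 40) .nil))))) (.g (nat_lit 0) (.e (nat_lit 226287) (nat_lit 0) .nil) .nil)))) (.nd (nat_lit 9) 
(.lf (nat_lit 521686) (.g (nat_lit 399) (.e (nat_lit 204845) (nat_lit 24) (.e (nat_lit 319531) (nat_lit 16) (.e (nat_lit 286735) (nat_lit 3) .nil))) (.g (nat_lit 0) (.e (nat_lit 225928) (nat_lit 0) .nil) .nil))) 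
(.lf (nat_lit 522198) (.g (nat_lit 2747) (.e (nat_lit 204849) (nat_lit 25) (.e (nat_lit 327699) (nat_lit 8) (.e (nat_lit 303116) (nat_lit 2) (.e (nat_lit 196666) (nat_lit 13) (.e (nat_lit 65628) (nat_lit 14) (.e (nat_lit 401428) (nat_lit 3) .nil)))))) (.g (nat_lit 1) (.e (nat_lit 226639) (nat_lit 0) .nil) .nil))))))) (.nd (nat_lit 6) (.nd (nat_lit 7) (.nd (nat_lit 8) (.nd (nat_lit 9) 
(.lf (nat_lit 521270) (.g (nat_lit 2574) (.e (nat_lit 204838) (nat_lit 20) (.e (nat_lit 114697) (nat_lit 11) (.e (nat_lit 426137) (nat_lit 3) (.e (nat_lit 204861) (nat_lit 26) (.e (nat_lit 336076) (nat_lit 9) (.e (nat_lit 336325) (nat_lit 18) .nil)))))) (.g (nat_lit 1) (.e (nat_lit 225183) (nat_lit 0) .nil) .nil))) 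
(.lf (nat_lit 521782) (.g (nat_lit 1298) (.e (nat_lit 204846) (nat_lit 24) (.e (nat_lit 319528) (nat_lit 16) (.e (nat_lit 286732) (nat_lit 2) (.e (nat_lit 90184) (nat_lit 17) .nil)))) (.g (nat_lit 0) (.e (nat_lit 226071) (nat_lit 0) .nil) .nil)))) (.nd (nat_lit 9) 
(.lf (nat_lit 521526) (.g (nat_lit 2905) (.e (nat_lit 204838) (nat_lit 20) (.e (nat_lit 114719) (nat_lit 23) (.e (nat_lit 98365) (nat_lit 26) (.e (nat_lit 426138) (nat_lit 3) (.e (nat_lit 204831) (nat_lit 18) (.e (nat_lit 57692) (nat_lit 156) (.e (nat_lit 163872) (nat_lit 3) .nil))))))) (.g (nat_lit 1) (.e (nat_lit 225672) (nat_lit 0) .nil) .nil))) 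
(.lf (nat_lit 522038) (.g (nat_lit 1490) (.e (nat_lit 204846) (nat_lit 24) (.e (nat_lit 319533) (nat_lit 16) (.e (nat_lit 286735) (nat_lit 3) (.e (nat_lit 98365) (nat_lit 26) .nil)))) (.g (nat_lit 0) (.e (nat_lit 226423) (nat_lit 0) .nil) .nil))))) (.nd (nat_lit 8) (.nd (nat_lit 9) 
(.lf (nat_lit 521398) (.g (nat_lit 3423) (.e (nat_lit 204838) (nat_lit 20) (.e (nat_lit 114714) (nat_lit 22) (.e (nat_lit 90174) (nat_lit 14) (.e (nat_lit 180243) (nat_lit 5) (.e (nat_lit 532503) (nat_lit 1) (.e (nat_lit 57688) (nat_lit 156) (.e (nat_lit 163872) (nat_lit 3) .nil))))))) (.g (nat_lit 1) (.e (nat_lit 225436) (nat_lit 0) .nil) .nil))) 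
(.lf (nat_lit 521910) (.g (nat_lit 2241) (.e (nat_lit 204846) (nat_lit 24) (.e (nat_lit 319531) (nat_lit 16) (.e (nat_lit 286735) (nat_lit 3) (.e (nat_lit 98363) (nat_lit 26) (.e (nat_lit 426259) (nat_lit 9) (.e (nat_lit 426129) (nat_lit 3) .nil)))))) (.g (nat_lit 1) (.e (nat_lit 226243) (nat_lit 0) .nil) .nil)))) (.nd (nat_lit 9) 
(.lf (nat_lit 521654) (.g (nat_lit 2948) (.e (nat_lit 204845) (nat_lit 24) (.e (nat_lit 319530) (nat_lit 16) (.e (nat_lit 286735) (nat_lit 3) (.e (nat_lit 98365) (nat_lit 26) (.e (nat_lit 426187) (nat_lit 9) (.e (nat_lit 433920) (nat_lit 3) .nil)))))) (.g (nat_lit 1) (.e (nat_lit 225887) (nat_lit 0) .nil) .nil))) 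
(.lf (nat_lit 522166) (.g (nat_lit 2050) (.e (nat_lit 204846) (nat_lit 24) (.e (nat_lit 327424) (nat_lit 16) (.e (nat_lit 286735) (nat_lit 3) (.e (nat_lit 98380) (nat_lit 31) (.e (nat_lit 466979) (nat_lit 23) .nil))))) (.g (nat_lit 1) (.e (nat_lit 226572) (nat_lit 0) .nil) .nil)))))) (.nd (nat_lit 7) (.nd (nat_lit 8) (.nd (nat_lit 9) 
(.lf (nat_lit 521334) (.g (nat_lit 2951) (.e (nat_lit 204838) (nat_lit 20) (.e (nat_lit 114698) (nat_lit 11) (.e (nat_lit 426138) (nat_lit 3) (.e (nat_lit 204861) (nat_lit 26) (.e (nat_lit 336086) (nat_lit 9) (.e (nat_lit 336324) (nat_lit 18) .nil)))))) (.g (nat_lit 1) (.e (nat_lit 225311) (nat_lit 0) .nil) .nil))) 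
(.lf (nat_lit 521846) (.g (nat_lit 1848) (.e (nat_lit 204846) (nat_lit 24) (.e (nat_lit 319530) (nat_lit 16) (.e (nat_lit 286734) (nat_lit 3) (.e (nat_lit 98350) (nat_lit 24) .nil)))) (.g (nat_lit 0) (.e (nat_lit 226166) (nat_lit 0) .nil) .nil)))) (.nd (nat_lit 9) 
(.lf (nat_lit 521590) (.g (nat_lit 4485) (.e (nat_lit 204845) (nat_lit 24) (.e (nat_lit 319528) (nat_lit 16) (.e (nat_lit 286734) (nat_lit 3) (.e (nat_lit 98359) (nat_lit 26) (.e (nat_lit 426211) (nat_lit 9) (.e (nat_lit 426140) (nat_lit 3) .nil)))))) (.g (nat_lit 1) (.e (nat_lit 225788) (nat_lit 0) .nil) .nil))) 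
(.lf (nat_lit 522102) (.g (nat_lit 3214) (.e (nat_lit 204846) (nat_lit 24) (.e (nat_lit 319534) (nat_lit 16) (.e (nat_lit 286734) (nat_lit 3) (.e (nat_lit 98365) (nat_lit 26) (.e (nat_lit 426200) (nat_lit 9) (.e (nat_lit 426131) (nat_lit 3) .nil)))))) (.g (nat_lit 1) (.e (nat_lit 226507) (nat_lit 0) .nil) .nil))))) (.nd (nat_lit 8) (.nd (nat_lit 9) 
(.lf (nat_lit 521462) (.g (nat_lit 2942) (.e (nat_lit 204838) (nat_lit 20) (.e (nat_lit 114716) (nat_lit 22) (.e (nat_lit 90174) (nat_lit 14) (.e (nat_lit 180243) (nat_lit 5) (.e (nat_lit 532504) (nat_lit 1) (.e (nat_lit 57689) (nat_lit 156) (.e (nat_lit 163872) (nat_lit 3) .nil))))))) (.g (nat_lit 1) (.e (nat_lit 225565) (nat_lit 0) .nil) .nil))) 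
(.lf (nat_lit 521974) (.g (nat_lit 2396) (.e (nat_lit 204846) (nat_lit 24) (.e (nat_lit 319533) (nat_lit 16) (.e (nat_lit 286733) (nat_lit 2) (.e (nat_lit 90170) (nat_lit 13) (.e (nat_lit 172085) (nat_lit 9) (.e (nat_lit 426136) (nat_lit 3) .nil)))))) (.g (nat_lit 1) (.e (nat_lit 226351) (nat_lit 0) .nil) .nil)))) (.nd (nat_lit 9) 
(.lf (nat_lit 521718) (.g (nat_lit 3331) (.e (nat_lit 204845) (nat_lit 24) (.e (nat_lit 319532) (nat_lit 16) (.e (nat_lit 286733) (nat_lit 2) (.e (nat_lit 90170) (nat_lit 13) (.e (nat_lit 172097) (nat_lit 9) (.e (nat_lit 426140) (nat_lit 3) .nil)))))) (.g (nat_lit 1) (.e (nat_lit 225963) (nat_lit 0) .nil) .nil))) 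
(.lf (nat_lit 522230) (.g (nat_lit 2359) (.e (nat_lit 204849) (nat_lit 25) (.e (nat_lit 327708) (nat_lit 10) (.e (nat_lit 5394) (nat_lit 301) (.e (nat_lit 57456) (nat_lit 21) .nil)))) (.g (nat_lit 0) (.e (nat_lit 226695) (nat_lit 0) .nil) .nil))))))))) (.nd (nat_lit 4) (.nd (nat_lit 5) (.nd (nat_lit 6) (.nd (nat_lit 7) (.nd (nat_lit 8) (.nd (nat_lit 9) 
(.lf (nat_lit 521230) (.g (nat_lit 2352) (.e (nat_lit 204838) (nat_lit 20) (.e (nat_lit 114694) (nat_lit 11) (.e (nat_lit 426133) (nat_lit 3) (.e (nat_lit 204861) (nat_lit 26) (.e (nat_lit 336075) (nat_lit 9) (.e (nat_lit 336326) (nat_lit 18) .nil)))))) (.g (nat_lit 1) (.e (nat_lit 225105) (nat_lit 0) .nil) .nil))) 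
(.lf (nat_lit 521742) (.g (nat_lit 1539) (.e (nat_lit 204845) (nat_lit 24) (.e (nat_lit 319534) (nat_lit 16) (.e (nat_lit 286735) (nat_lit 3) (.e (nat_lit 98365) (nat_lit 26) .nil)))) (.g (nat_lit 0) (.e (nat_lit 225996) (nat_lit 0) .nil) .nil)))) (.nd (nat_lit 9) 
(.lf (nat_lit 521486) (.g (nat_lit 3560) (.e (nat_lit 204838) (nat_lit 20) (.e (nat_lit 114718) (nat_lit 23) (.e (nat_lit 98367) (nat_lit 27) (.e (nat_lit 434231) (nat_lit 23) (.e (nat_lit 532500) (nat_lit 1) (.e (nat_lit 57685) (nat_lit 156) (.e (nat_lit 163875) (nat_lit 3) .nil))))))) (.g (nat_lit 1) (.e (nat_lit 225604) (nat_lit 0) .nil) .nil))) 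
(.lf (nat_lit 521998) (.g (nat_lit 1733) (.e (nat_lit 204846) (nat_lit 24) (.e (nat_lit 319533) (nat_lit 16) (.e (nat_lit 286734) (nat_lit 3) (.e (nat_lit 98378) (nat_lit 30) .nil)))) (.g (nat_lit 0) (.e (nat_lit 226377) (nat_lit 0) .nil) .nil))))) (.nd (nat_lit 8) (.nd (nat_lit 9) 
(.lf (nat_lit 521358) (.g (nat_lit 1095) (.e (nat_lit 204838) (nat_lit 20) (.e (nat_lit 122624) (nat_lit 11) (.e (nat_lit 426140) (nat_lit 3) (.e (nat_lit 204865) (nat_lit 28) (.e (nat_lit 360192) (nat_lit 3) .nil))))) (.g (nat_lit 1) (.e (nat_lit 225347) (nat_lit 0) .nil) .nil))) 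
(.lf (nat_lit 521870) (.g (nat_lit 1321) (.e (nat_lit 204846) (nat_lit 24) (.e (nat_lit 319531) (nat_lit 16) (.e (nat_lit 286727) (nat_lit 0) (.e (nat_lit 1682) (nat_lit 117) .nil)))) (.g (nat_lit 0) (.e (nat_lit 226191) (nat_lit 0) .nil) .nil)))) (.nd (nat_lit 9) 
(.lf (nat_lit 521614) (.g (nat_lit 2226) (.e (nat_lit 204845) (nat_lit 24) (.e (nat_lit 319529) (nat_lit 16) (.e (nat_lit 286735) (nat_lit 3) (.e (nat_lit 98369) (nat_lit 28) (.e (nat_lit 442426) (nat_lit 23) .nil))))) (.g (nat_lit 0) (.e (nat_lit 225833) (nat_lit 0) .nil) .nil))) 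
(.lf (nat_lit 522126) (.g (nat_lit 3159) (.e (nat_lit 204846) (nat_lit 24) (.e (nat_lit 319534) (nat_lit 16) (.e (nat_lit 286735) (nat_lit 3) (.e (nat_lit 98358) (nat_lit 26) (.e (nat_lit 426227) (nat_lit 9) (.e (nat_lit 433920) (nat_lit 3) .nil)))))) (.g (nat_lit 1) (.e (nat_lit 226531) (nat_lit 0) .nil) .nil)))))) (.nd (nat_lit 7) (.nd (nat_lit 8) (.nd (nat_lit 9) 
(.lf (nat_lit 521294) (.g (nat_lit 1959) (.e (nat_lit 204838) (nat_lit 20) (.e (nat_lit 114698) (nat_lit 11) (.e (nat_lit 426116) (nat_lit 2) (.e (nat_lit 196672) (nat_lit 15) (.e (nat_lit 89856) (nat_lit 3) .nil))))) (.g (nat_lit 1) (.e (nat_lit 225221) (nat_lit 0) .nil) .nil))) 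
(.lf (nat_lit 521806) (.g (nat_lit 368) (.e (nat_lit 204846) (nat_lit 24) (.e (nat_lit 319529) (nat_lit 16) (.e (nat_lit 286733) (nat_lit 2) .nil))) (.g (nat_lit 0) (.e (nat_lit 226098) (nat_lit 0) .nil) .nil)))) (.nd (nat_lit 9) 
(.lf (nat_lit 521550) (.g (nat_lit 1217) (.e (nat_lit 204838) (nat_lit 20) (.e (nat_lit 114719) (nat_lit 23) (.e (nat_lit 98377) (nat_lit 30) (.e (nat_lit 458789) (nat_lit 23) .nil)))) (.g (nat_lit 0) (.e (nat_lit 225712) (nat_lit 0) .nil) .nil))) 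
(.lf (nat_lit 522062) (.g (nat_lit 2382) (.e (nat_lit 204846) (nat_lit 24) (.e (nat_lit 319533) (nat_lit 16) (.e (nat_lit 286735) (nat_lit 3) (.e (nat_lit 98381) (nat_lit 31) (.e (nat_lit 466981) (nat_lit 23) .nil))))) (.g (nat_lit 0) (.e (nat_lit 226449) (nat_lit 0) .nil) .nil))))) (.nd (nat_lit 8) (.nd (nat_lit 9) 
(.lf (nat_lit 521422) (.g (nat_lit 2968) (.e (nat_lit 204838) (nat_lit 20) (.e (nat_lit 114715) (nat_lit 22) (.e (nat_lit 90170) (nat_lit 13) (.e (nat_lit 172067) (nat_lit 3) (.e (nat_lit 204829) (nat_lit 18) (.e (nat_lit 57691) (nat_lit 156) (.e (nat_lit 163872) (nat_lit 3) .nil))))))) (.g (nat_lit 1) (.e (nat_lit 225475) (nat_lit 0) .nil) .nil))) 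
(.lf (nat_lit 521934) (.g (nat_lit 1601) (.e (nat_lit 204846) (nat_lit 24) (.e (nat_lit 319532) (nat_lit 16) (.e (nat_lit 286732) (nat_lit 2) (.e (nat_lit 90184) (nat_lit 17) .nil)))) (.g (nat_lit 0) (.e (nat_lit 226270) (nat_lit 0) .nil) .nil)))) (.nd (nat_lit 9) 
(.lf (nat_lit 521678) (.g (nat_lit 1800) (.e (nat_lit 204845) (nat_lit 24) (.e (nat_lit 319531) (nat_lit 16) (.e (nat_lit 286727) (nat_lit 0) (.e (nat_lit 1801) (nat_lit 119) .nil)))) (.g (nat_lit 0) (.e (nat_lit 225911) (nat_lit 0) .nil) .nil))) 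
(.lf (nat_lit 522190) (.g (nat_lit 3873) (.e (nat_lit 204849) (nat_lit 25) (.e (nat_lit 327698) (nat_lit 8) (.e (nat_lit 303118) (nat_lit 3) (.e (nat_lit 204855) (nat_lit 26) (.e (nat_lit 336226) (nat_lit 14) (.e (nat_lit 401428) (nat_lit 3) .nil)))))) (.g (nat_lit 1) (.e (nat_lit 226631) (nat_lit 0) .nil) .nil))))))) (.nd (nat_lit 6) (.nd (nat_lit 7) (.nd (nat_lit 8) (.nd (nat_lit 9) 
(.lf (nat_lit 521262) (.g (nat_lit 3095) (.e (nat_lit 204838) (nat_lit 20) (.e (nat_lit 114697) (nat_lit 11) (.e (nat_lit 426133) (nat_lit 3) (.e (nat_lit 204861) (nat_lit 26) (.e (nat_lit 336076) (nat_lit 9) (.e (nat_lit 336325) (nat_lit 18) .nil)))))) (.g (nat_lit 1) (.e (nat_lit 225175) (nat_lit 0) .nil) .nil))) 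
(.lf (nat_lit 521774) (.g (nat_lit 1483) (.e (nat_lit 204846) (nat_lit 24) (.e (nat_lit 319511) (nat_lit 10) (.e (nat_lit 5293) (nat_lit 298) (.e (nat_lit 1250) (nat_lit 92) (.e (nat_lit 98363) (nat_lit 26) .nil))))) (.g (nat_lit 0) (.e (nat_lit 226056) (nat_lit 0) .nil) .nil)))) (.nd (nat_lit 9) 
(.lf (nat_lit 521518) (.g (nat_lit 1437) (.e (nat_lit 204838) (nat_lit 20) (.e (nat_lit 114719) (nat_lit 23) (.e (nat_lit 98363) (nat_lit 26) (.e (nat_lit 426129) (nat_lit 3) .nil)))) (.g (nat_lit 0) (.e (nat_lit 225653) (nat_lit 0) .nil) .nil))) 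
(.lf (nat_lit 522030) (.g (nat_lit 2552) (.e (nat_lit 204846) (nat_lit 24) (.e (nat_lit 319533) (nat_lit 16) (.e (nat_lit 286735) (nat_lit 3) (.e (nat_lit 98363) (nat_lit 26) (.e (nat_lit 426225) (nat_lit 9) (.e (nat_lit 426129) (nat_lit 3) .nil)))))) (.g (nat_lit 1) (.e (nat_lit 226415) (nat_lit 0) .nil) .nil))))) (.nd (nat_lit 8) (.nd (nat_lit 9) 
(.lf (nat_lit 521390) (.g (nat_lit 4893) (.e (nat_lit 204838) (nat_lit 20) (.e (nat_lit 114714) (nat_lit 22) (.e (nat_lit 90174) (nat_lit 14) (.e (nat_lit 180243) (nat_lit 5) (.e (nat_lit 532499) (nat_lit 1) (.e (nat_lit 57692) (nat_lit 156) (.e (nat_lit 163874) (nat_lit 3) .nil))))))) (.g (nat_lit 1) (.e (nat_lit 225423) (nat_lit 0) .nil) .nil))) 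
(.lf (nat_lit 521902) (.g (nat_lit 3122) (.e (nat_lit 204846) (nat_lit 24) (.e (nat_lit 319531) (nat_lit 16) (.e (nat_lit 286735) (nat_lit 3) (.e (nat_lit 98358) (nat_lit 26) (.e (nat_lit 426227) (nat_lit 9) .nil))))) (.g (nat_lit 0) (.e (nat_lit 226235) (nat_lit 0) .nil) .nil)))) (.nd (nat_lit 9) 
(.lf (nat_lit 521646) (.g (nat_lit 2973) (.e (nat_lit 204845) (nat_lit 24) (.e (nat_lit 319530) (nat_lit 16) (.e (nat_lit 286735) (nat_lit 3) (.e (nat_lit 98355) (nat_lit 26) (.e (nat_lit 426270) (nat_lit 9) (.e (nat_lit 426139) (nat_lit 3) .nil)))))) (.g (nat_lit 1) (.e (nat_lit 225879) (nat_lit 0) .nil) .nil))) 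
(.lf (nat_lit 522158) (.g (nat_lit 2633) (.e (nat_lit 204846) (nat_lit 24) (.e (nat_lit 319534) (nat_lit 16) (.e (nat_lit 286735) (nat_lit 3) (.e (nat_lit 98381) (nat_lit 31) (.e (nat_lit 466981) (nat_lit 23) .nil))))) (.g (nat_lit 1) (.e (nat_lit 226564) (nat_lit 0) .nil) .nil)))))) (.nd (nat_lit 7) (.nd (nat_lit 8) (.nd (nat_lit 9) 
(.lf (nat_lit 521326) (.g (nat_lit 2341) (.e (nat_lit 204838) (nat_lit 20) (.e (nat_lit 114698) (nat_lit 11) (.e (nat_lit 426138) (nat_lit 3) (.e (nat_lit 204852) (nat_lit 26) (.e (nat_lit 343808) (nat_lit 9) (.e (nat_lit 336324) (nat_lit 18) .nil)))))) (.g (nat_lit 1) (.e (nat_lit 225299) (nat_lit 0) .nil) .nil))) 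
(.lf (nat_lit 521838) (.g (nat_lit 1436) (.e (nat_lit 204846) (nat_lit 24) (.e (nat_lit 319530) (nat_lit 16) (.e (nat_lit 286727) (nat_lit 0) (.e (nat_lit 1809) (nat_lit 120) .nil)))) (.g (nat_lit 0) (.e (nat_lit 226151) (nat_lit 0) .nil) .nil)))) (.nd (nat_lit 9) 
(.lf (nat_lit 521582) (.g (nat_lit 3873) (.e (nat_lit 204845) (nat_lit 24) (.e (nat_lit 319537) (nat_lit 19) (.e (nat_lit 311315) (nat_lit 3) (.e (nat_lit 204885) (nat_lit 33) (.e (nat_lit 401434) (nat_lit 9) (.e (nat_lit 426140) (nat_lit 3) .nil)))))) (.g (nat_lit 1) (.e (nat_lit 225776) (nat_lit 0) .nil) .nil))) 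
(.lf (nat_lit 522094) (.g (nat_lit 1708) (.e (nat_lit 204846) (nat_lit 24) (.e (nat_lit 319534) (nat_lit 16) (.e (nat_lit 286734) (nat_lit 3) (.e (nat_lit 98354) (nat_lit 26) .nil)))) (.g (nat_lit 0) (.e (nat_lit 226499) (nat_lit 0) .nil) .nil))))) (.nd (nat_lit 8) (.nd (nat_lit 9) 
(.lf (nat_lit 521454) (.g (nat_lit 2379) (.e (nat_lit 204838) (nat_lit 20) (.e (nat_lit 114716) (nat_lit 22) (.e (nat_lit 90174) (nat_lit 14) (.e (nat_lit 180243) (nat_lit 5) (.e (nat_lit 532501) (nat_lit 1) (.e (nat_lit 57685) (nat_lit 156) (.e (nat_lit 163872) (nat_lit 3) .nil))))))) (.g (nat_lit 1) (.e (nat_lit 225544) (nat_lit 0) .nil) .nil))) 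
(.lf (nat_lit 521966) (.g (nat_lit 224) (.e (nat_lit 204846) (nat_lit 24) (.e (nat_lit 319533) (nat_lit 16) (.e (nat_lit 286732) (nat_lit 2) .nil))) (.g (nat_lit 0) (.e (nat_lit 226326) (nat_lit 0) .nil) .nil)))) (.nd (nat_lit 9) 
(.lf (nat_lit 521710) (.g (nat_lit 2587) (.e (nat_lit 204845) (nat_lit 24) (.e (nat_lit 319531) (nat_lit 16) (.e (nat_lit 286735) (nat_lit 3) (.e (nat_lit 98370) (nat_lit 28) (.e (nat_lit 450304) (nat_lit 23) .nil))))) (.g (nat_lit 1) (.e (nat_lit 225954) (nat_lit 0) .nil) .nil))) 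
(.lf (nat_lit 522222) (.g (nat_lit 2140) (.e (nat_lit 204849) (nat_lit 25) (.e (nat_lit 327700) (nat_lit 8) (.e (nat_lit 303117) (nat_lit 2) (.e (nat_lit 196628) (nat_lit 9) (.e (nat_lit 970) (nat_lit 81) .nil))))) (.g (nat_lit 0) (.e (nat_lit 226673) (nat_lit 0) .nil) .nil)))))))) (.nd (nat_lit 5) (.nd (nat_lit 6) (.nd (nat_lit 7) (.nd (nat_lit 8) (.nd (nat_lit 9) 
(.lf (nat_lit 521246) (.g (nat_lit 2944) (.e (nat_lit 204838) (nat_lit 20) (.e (nat_lit 114694) (nat_lit 11) (.e (nat_lit 426139) (nat_lit 3) (.e (nat_lit 204861) (nat_lit 26) (.e (nat_lit 336076) (nat_lit 9) (.e (nat_lit 336326) (nat_lit 18) .nil)))))) (.g (nat_lit 1) (.e (nat_lit 225121) (nat_lit 0) .nil) .nil))) 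
(.lf (nat_lit 521758) (.g (nat_lit 853) (.e (nat_lit 204846) (nat_lit 24) (.e (nat_lit 319490) (nat_lit 0) (.e (nat_lit 5293) (nat_lit 298) (.e (nat_lit 1250) (nat_lit 92) .nil)))) (.g (nat_lit 0) (.e (nat_lit 226025) (nat_lit 0) .nil) .nil)))) (.nd (nat_lit 9) 
(.lf (nat_lit 521502) (.g (nat_lit 4400) (.e (nat_lit 204838) (nat_lit 20) (.e (nat_lit 114718) (nat_lit 23) (.e (nat_lit 98384) (nat_lit 32) (.e (nat_lit 475179) (nat_lit 24) (.e (nat_lit 516120) (nat_lit 1) (.e (nat_lit 164332) (nat_lit 230) (.e (nat_lit 163874) (nat_lit 3) .nil))))))) (.g (nat_lit 1) (.e (nat_lit 225625) (nat_lit 0) .nil) .nil))) 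
(.lf (nat_lit 522014) (.g (nat_lit 3452) (.e (nat_lit 204846) (nat_lit 24) (.e (nat_lit 319533) (nat_lit 16) (.e (nat_lit 286735) (nat_lit 3) (.e (nat_lit 98349) (nat_lit 24) (.e (nat_lit 417536) (nat_lit 8) (.e (nat_lit 303119) (nat_lit 3) .nil)))))) (.g (nat_lit 1) (.e (nat_lit 226399) (nat_lit 0) .nil) .nil))))) (.nd (nat_lit 8) (.nd (nat_lit 9) 
(.lf (nat_lit 521374) (.g (nat_lit 4308) (.e (nat_lit 204838) (nat_lit 20) (.e (nat_lit 114714) (nat_lit 22) (.e (nat_lit 90172) (nat_lit 14) (.e (nat_lit 180244) (nat_lit 5) (.e (nat_lit 532499) (nat_lit 1) (.e (nat_lit 57688) (nat_lit 156) (.e (nat_lit 163872) (nat_lit 3) .nil))))))) (.g (nat_lit 1) (.e (nat_lit 225397) (nat_lit 0) .nil) .nil))) 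
(.lf (nat_lit 521886) (.g (nat_lit 381) (.e (nat_lit 204846) (nat_lit 24) (.e (nat_lit 319531) (nat_lit 16) (.e (nat_lit 286735) (nat_lit 3) .nil))) (.g (nat_lit 0) (.e (nat_lit 226219) (nat_lit 0) .nil) .nil)))) (.nd (nat_lit 9) 
(.lf (nat_lit 521630) (.g (nat_lit 1810) (.e (nat_lit 204845) (nat_lit 24) (.e (nat_lit 319530) (nat_lit 16) (.e (nat_lit 286727) (nat_lit 0) (.e (nat_lit 1801) (nat_lit 119) .nil)))) (.g (nat_lit 0) (.e (nat_lit 225851) (nat_lit 0) .nil) .nil))) 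
(.lf (nat_lit 522142) (.g (nat_lit 3391) (.e (nat_lit 204846) (nat_lit 24) (.e (nat_lit 319534) (nat_lit 16) (.e (nat_lit 286735) (nat_lit 3) (.e (nat_lit 98365) (nat_lit 26) (.e (nat_lit 426188) (nat_lit 9) (.e (nat_lit 426130) (nat_lit 3) .nil)))))) (.g (nat_lit 1) (.e (nat_lit 226547) (nat_lit 0) .nil) .nil)))))) (.nd (nat_lit 7) (.nd (nat_lit 8) (.nd (nat_lit 9) 
(.lf (nat_lit 521310) (.g (nat_lit 3008) (.e (nat_lit 204838) (nat_lit 20) (.e (nat_lit 114698) (nat_lit 11) (.e (nat_lit 426133) (nat_lit 3) (.e (nat_lit 204861) (nat_lit 26) (.e (nat_lit 336075) (nat_lit 9) (.e (nat_lit 336326) (nat_lit 18) .nil)))))) (.g (nat_lit 1) (.e (nat_lit 225282) (nat_lit 0) .nil) .nil))) 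
(.lf (nat_lit 521822) (.g (nat_lit 3303) (.e (nat_lit 204846) (nat_lit 24) (.e (nat_lit 319529) (nat_lit 16) (.e (nat_lit 286735) (nat_lit 3) (.e (nat_lit 98365) (nat_lit 26) (.e (nat_lit 426200) (nat_lit 9) (.e (nat_lit 426131) (nat_lit 3) .nil)))))) (.g (nat_lit 1) (.e (nat_lit 226125) (nat_lit 0) .nil) .nil)))) (.nd (nat_lit 9) 
(.lf (nat_lit 521566) (.g (nat_lit 4665) (.e (nat_lit 204838) (nat_lit 20) (.e (nat_lit 114719) (nat_lit 23) (.e (nat_lit 98384) (nat_lit 32) (.e (nat_lit 475179) (nat_lit 24) (.e (nat_lit 516120) (nat_lit 1) (.e (nat_lit 164332) (nat_lit 230) (.e (nat_lit 163874) (nat_lit 3) .nil))))))) (.g (nat_lit 1) (.e (nat_lit 225730) (nat_lit 0) .nil) .nil))) 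
(.lf (nat_lit 522078) (.g (nat_lit 412) (.e (nat_lit 204846) (nat_lit 24) (.e (nat_lit 319534) (nat_lit 16) (.e (nat_lit 286733) (nat_lit 2) .nil))) (.g (nat_lit 0) (.e (nat_lit 226472) (nat_lit 0) .nil) .nil))))) (.nd (nat_lit 8) (.nd (nat_lit 9) 
(.lf (nat_lit 521438) (.g (nat_lit 3080) (.e (nat_lit 204838) (nat_lit 20) (.e (nat_lit 114716) (nat_lit 22) (.e (nat_lit 90172) (nat_lit 14) (.e (nat_lit 180244) (nat_lit 5) (.e (nat_lit 532499) (nat_lit 1) (.e (nat_lit 57687) (nat_lit 156) (.e (nat_lit 163872) (nat_lit 3) .nil))))))) (.g (nat_lit 1) (.e (nat_lit 225505) (nat_lit 0) .nil) .nil))) 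
(.lf (nat_lit 521950) (.g (nat_lit 2442) (.e (nat_lit 204846) (nat_lit 24) (.e (nat_lit 319532) (nat_lit 16) (.e (nat_lit 286734) (nat_lit 3) (.e (nat_lit 98365) (nat_lit 26) (.e (nat_lit 426188) (nat_lit 9) (.e (nat_lit 426131) (nat_lit 3) .nil)))))) (.g (nat_lit 1) (.e (nat_lit 226297) (nat_lit 0) .nil) .nil)))) (.nd (nat_lit 9) 
(.lf (nat_lit 521694) (.g (nat_lit 2902) (.e (nat_lit 204845) (nat_lit 24) (.e (nat_lit 319531) (nat_lit 16) (.e (nat_lit 286735) (nat_lit 3) (.e (nat_lit 98357) (nat_lit 26) (.e (nat_lit 426227) (nat_lit 9) (.e (nat_lit 433920) (nat_lit 3) .nil)))))) (.g (nat_lit 1) (.e (nat_lit 225936) (nat_lit 0) .nil) .nil))) 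
(.lf (nat_lit 522206) (.g (nat_lit 1316) (.e (nat_lit 204849) (nat_lit 25) (.e (nat_lit 327699) (nat_lit 8) (.e (nat_lit 303118) (nat_lit 3) (.e (nat_lit 204848) (nat_lit 25) .nil)))) (.g (nat_lit 0) (.e (nat_lit 226655) (nat_lit 0) .nil) .nil))))))) (.nd (nat_lit 6) (.nd (nat_lit 7) (.nd (nat_lit 8) (.nd (nat_lit 9) 
(.lf (nat_lit 521278) (.g (nat_lit 3230) (.e (nat_lit 204838) (nat_lit 20) (.e (nat_lit 114697) (nat_lit 11) (.e (nat_lit 426138) (nat_lit 3) (.e (nat_lit 204861) (nat_lit 26) (.e (nat_lit 336088) (nat_lit 9) (.e (nat_lit 336324) (nat_lit 18) .nil)))))) (.g (nat_lit 1) (.e (nat_lit 225193) (nat_lit 0) .nil) .nil))) 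
(.lf (nat_lit 521790) (.g (nat_lit 1672) (.e (nat_lit 204846) (nat_lit 24) (.e (nat_lit 319528) (nat_lit 16) (.e (nat_lit 286735) (nat_lit 3) (.e (nat_lit 98363) (nat_lit 26) (.e (nat_lit 426225) (nat_lit 9) (.e (nat_lit 426129) (nat_lit 3) .nil)))))) (.g (nat_lit 1) (.e (nat_lit 226082) (nat_lit 0) .nil) .nil)))) (.nd (nat_lit 9) 
(.lf (nat_lit 521534) (.g (nat_lit 1057) (.e (nat_lit 204838) (nat_lit 20) (.e (nat_lit 114719) (nat_lit 23) (.e (nat_lit 98366) (nat_lit 27) (.e (nat_lit 434230) (nat_lit 23) .nil)))) (.g (nat_lit 0) (.e (nat_lit 225680) (nat_lit 0) .nil) .nil))) 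
(.lf (nat_lit 522046) (.g (nat_lit 3432) (.e (nat_lit 204846) (nat_lit 24) (.e (nat_lit 319533) (nat_lit 16) (.e (nat_lit 286735) (nat_lit 3) (.e (nat_lit 98367) (nat_lit 27) (.e (nat_lit 442112) (nat_lit 8) (.e (nat_lit 2684) (nat_lit 168) .nil)))))) (.g (nat_lit 1) (.e (nat_lit 226431) (nat_lit 0) .nil) .nil))))) (.nd (nat_lit 8) (.nd (nat_lit 9) 
(.lf (nat_lit 521406) (.g (nat_lit 1145) (.e (nat_lit 204838) (nat_lit 20) (.e (nat_lit 114715) (nat_lit 22) (.e (nat_lit 90170) (nat_lit 13) (.e (nat_lit 172065) (nat_lit 3) .nil)))) (.g (nat_lit 0) (.e (nat_lit 225450) (nat_lit 0) .nil) .nil))) 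
(.lf (nat_lit 521918) (.g (nat_lit 4160) (.e (nat_lit 204846) (nat_lit 24) (.e (nat_lit 319531) (nat_lit 16) (.e (nat_lit 286735) (nat_lit 3) (.e (nat_lit 98365) (nat_lit 26) (.e (nat_lit 426200) (nat_lit 9) (.e (nat_lit 426131) (nat_lit 3) .nil)))))) (.g (nat_lit 1) (.e (nat_lit 226251) (nat_lit 0) .nil) .nil)))) (.nd (nat_lit 9) 
(.lf (nat_lit 521662) (.g (nat_lit 4015) (.e (nat_lit 204845) (nat_lit 24) (.e (nat_lit 319530) (nat_lit 16) (.e (nat_lit 286735) (nat_lit 3) (.e (nat_lit 98369) (nat_lit 28) (.e (nat_lit 442427) (nat_lit 23) .nil))))) (.g (nat_lit 1) (.e (nat_lit 225895) (nat_lit 0) .nil) .nil))) 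
(.lf (nat_lit 522174) (.g (nat_lit 2746) (.e (nat_lit 204848) (nat_lit 25) (.e (nat_lit 327699) (nat_lit 8) (.e (nat_lit 303119) (nat_lit 3) (.e (nat_lit 204849) (nat_lit 25) (.e (nat_lit 327699) (nat_lit 8) .nil))))) (.g (nat_lit 0) (.e (nat_lit 226586) (nat_lit 0) .nil) .nil)))))) (.nd (nat_lit 7) (.nd (nat_lit 8) (.nd (nat_lit 9) 
(.lf (nat_lit 521342) (.g (nat_lit 2786) (.e (nat_lit 204838) (nat_lit 20) (.e (nat_lit 114698) (nat_lit 11) (.e (nat_lit 426139) (nat_lit 3) (.e (nat_lit 204861) (nat_lit 26) (.e (nat_lit 336074) (nat_lit 9) (.e (nat_lit 336324) (nat_lit 18) .nil)))))) (.g (nat_lit 1) (.e (nat_lit 225321) (nat_lit 0) .nil) .nil))) 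
(.lf (nat_lit 521854) (.g (nat_lit 1698) (.e (nat_lit 204846) (nat_lit 24) (.e (nat_lit 319530) (nat_lit 16) (.e (nat_lit 286735) (nat_lit 3) (.e (nat_lit 98362) (nat_lit 26) .nil)))) (.g (nat_lit 0) (.e (nat_lit 226174) (nat_lit 0) .nil) .nil)))) (.nd (nat_lit 9) 
(.lf (nat_lit 521598) (.g (nat_lit 4061) (.e (nat_lit 204845) (nat_lit 24) (.e (nat_lit 319529) (nat_lit 16) (.e (nat_lit 286733) (nat_lit 2) (.e (nat_lit 90170) (nat_lit 13) (.e (nat_lit 172094) (nat_lit 9) (.e (nat_lit 426140) (nat_lit 3) .nil)))))) (.g (nat_lit 1) (.e (nat_lit 225809) (nat_lit 0) .nil) .nil))) 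
(.lf (nat_lit 522110) (.g (nat_lit 1588) (.e (nat_lit 204846) (nat_lit 24) (.e (nat_lit 319534) (nat_lit 16) (.e (nat_lit 286734) (nat_lit 3) (.e (nat_lit 98382) (nat_lit 31) .nil)))) (.g (nat_lit 0) (.e (nat_lit 226515) (nat_lit 0) .nil) .nil))))) (.nd (nat_lit 8) (.nd (nat_lit 9) 
(.lf (nat_lit 521470) (.g (nat_lit 921) (.e (nat_lit 204838) (nat_lit 20) (.e (nat_lit 114716) (nat_lit 22) (.e (nat_lit 90185) (nat_lit 17) (.e (nat_lit 237594) (nat_lit 3) .nil)))) (.g (nat_lit 0) (.e (nat_lit 225575) (nat_lit 0) .nil) .nil))) 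
(.lf (nat_lit 521982) (.g (nat_lit 3676) (.e (nat_lit 204846) (nat_lit 24) (.e (nat_lit 319533) (nat_lit 16) (.e (nat_lit 286734) (nat_lit 3) (.e (nat_lit 98350) (nat_lit 24) (.e (nat_lit 409602) (nat_lit 0) (.e (nat_lit 5626) (nat_lit 312) (.e (nat_lit 2685) (nat_lit 168) .nil))))))) (.g (nat_lit 1) (.e (nat_lit 226361) (nat_lit 0) .nil) .nil)))) (.nd (nat_lit 9) 
(.lf (nat_lit 521726) (.g (nat_lit 2078) (.e (nat_lit 204845) (nat_lit 24) (.e (nat_lit 319533) (nat_lit 16) (.e (nat_lit 286735) (nat_lit 3) (.e (nat_lit 106240) (nat_lit 26) .nil)))) (.g (nat_lit 0) (.e (nat_lit 225974) (nat_lit 0) .nil) .nil))) 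
(.lf (nat_lit 522238) (.g (nat_lit 355) (.e (nat_lit 204850) (nat_lit 26) (.e (nat_lit 335997) (nat_lit 1) (.e (nat_lit 57857) (nat_lit 254) .nil))) (.g (nat_lit 0) (.e (nat_lit 226710) (nat_lit 0) .nil) .nil)))))))))))) (.nd (nat_lit 1) (.nd (nat_lit 2) (.nd (nat_lit 3) (.nd (nat_lit 4) (.nd (nat_lit 5) (.nd (nat_lit 6) (.nd (nat_lit 7) (.nd (nat_lit 8) (.nd (nat_lit 9) 
(.lf (nat_lit 521217) (.g (nat_lit 2180) (.e (nat_lit 204837) (nat_lit 20) (.e (nat_lit 114719) (nat_lit 23) (.e (nat_lit 98383) (nat_lit 32) (.e (nat_lit 475179) (nat_lit 24) (.e (nat_lit 516120) (nat_lit 1) (.e (nat_lit 164332) (nat_lit 230) (.e (nat_lit 163874) (nat_lit 3) .nil))))))) (.g (nat_lit 1) (.e (nat_lit 225081) (nat_lit 0) .nil) .nil))) 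
(.lf (nat_lit 521729) (.g (nat_lit 1892) (.e (nat_lit 204845) (nat_lit 24) (.e (nat_lit 319533) (nat_lit 16) (.e (nat_lit 286735) (nat_lit 3) (.e (nat_lit 98380) (nat_lit 31) .nil)))) (.g (nat_lit 0) (.e (nat_lit 225978) (nat_lit 0) .nil) .nil)))) (.nd (nat_lit 9) 
(.lf (nat_lit 521473) (.g (nat_lit 3359) (.e (nat_lit 204838) (nat_lit 20) (.e (nat_lit 114716) (nat_lit 22) (.e (nat_lit 90185) (nat_lit 17) (.e (nat_lit 237594) (nat_lit 3) (.e (nat_lit 204829) (nat_lit 18) (.e (nat_lit 57692) (nat_lit 156) (.e (nat_lit 163872) (nat_lit 3) .nil))))))) (.g (nat_lit 1) (.e (nat_lit 225578) (nat_lit 0) .nil) .nil))) 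
(.lf (nat_lit 521985) (.g (nat_lit 1664) (.e (nat_lit 204846) (nat_lit 24) (.e (nat_lit 319533) (nat_lit 16) (.e (nat_lit 286734) (nat_lit 3) (.e (nat_lit 98354) (nat_lit 26) .nil)))) (.g (nat_lit 0) (.e (nat_lit 226364) (nat_lit 0) .nil) .nil))))) (.nd (nat_lit 8) (.nd (nat_lit 9) 
(.lf (nat_lit 521345) (.g (nat_lit 3380) (.e (nat_lit 204838) (nat_lit 20) (.e (nat_lit 114698) (nat_lit 11) (.e (nat_lit 426139) (nat_lit 3) (.e (nat_lit 204861) (nat_lit 26) (.e (nat_lit 336075) (nat_lit 9) (.e (nat_lit 336326) (nat_lit 18) .nil)))))) (.g (nat_lit 1) (.e (nat_lit 225324) (nat_lit 0) .nil) .nil))) 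
(.lf (nat_lit 521857) (.g (nat_lit 2552) (.e (nat_lit 204846) (nat_lit 24) (.e (nat_lit 319530) (nat_lit 16) (.e (nat_lit 286735) (nat_lit 3) (.e (nat_lit 98363) (nat_lit 26) (.e (nat_lit 426258) (nat_lit 9) (.e (nat_lit 426129) (nat_lit 3) .nil)))))) (.g (nat_lit 1) (.e (nat_lit 226177) (nat_lit 0) .nil) .nil)))) (.nd (nat_lit 9) 
(.lf (nat_lit 521601) (.g (nat_lit 2492) (.e (nat_lit 204845) (nat_lit 24) (.e (nat_lit 319529) (nat_lit 16) (.e (nat_lit 286733) (nat_lit 2) (.e (nat_lit 90178) (nat_lit 15) (.e (nat_lit 196352) (nat_lit 23) .nil))))) (.g (nat_lit 0) (.e (nat_lit 225812) (nat_lit 0) .nil) .nil))) 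
(.lf (nat_lit 522113) (.g (nat_lit 2055) (.e (nat_lit 204846) (nat_lit 24) (.e (nat_lit 319534) (nat_lit 16) (.e (nat_lit 286735) (nat_lit 3) (.e (nat_lit 98325) (nat_lit 17) (.e (nat_lit 6966) (nat_lit 377) .nil))))) (.g (nat_lit 0) (.e (nat_lit 226518) (nat_lit 0) .nil) .nil)))))) (.nd (nat_lit 7) (.nd (nat_lit 8) (.nd (nat_lit 9) 
(.lf (nat_lit 521281) (.g (nat_lit 1250) (.e (nat_lit 204838) (nat_lit 20) (.e (nat_lit 114697) (nat_lit 11) (.e (nat_lit 426138) (nat_lit 3) (.e (nat_lit 204877) (nat_lit 31) (.e (nat_lit 384768) (nat_lit 3) .nil))))) (.g (nat_lit 1) (.e (nat_lit 225197) (nat_lit 0) .nil) .nil))) 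
(.lf (nat_lit 521793) (.g (nat_lit 1444) (.e (nat_lit 204846) (nat_lit 24) (.e (nat_lit 319528) (nat_lit 16) (.e (nat_lit 286735) (nat_lit 3) (.e (nat_lit 98363) (nat_lit 26) (.e (nat_lit 426259) (nat_lit 9) .nil))))) (.g (nat_lit 0) (.e (nat_lit 226085) (nat_lit 0) .nil) .nil)))) (.nd (nat_lit 9) 
(.lf (nat_lit 521537) (.g (nat_lit 3915) (.e (nat_lit 204838) (nat_lit 20) (.e (nat_lit 114719) (nat_lit 23) (.e (nat_lit 98366) (nat_lit 27) (.e (nat_lit 434231) (nat_lit 23) (.e (nat_lit 532500) (nat_lit 1) (.e (nat_lit 57690) (nat_lit 156) (.e (nat_lit 163874) (nat_lit 3) .nil))))))) (.g (nat_lit 1) (.e (nat_lit 225688) (nat_lit 0) .nil) .nil))) 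
(.lf (nat_lit 522049) (.g (nat_lit 3115) (.e (nat_lit 204846) (nat_lit 24) (.e (nat_lit 319533) (nat_lit 16) (.e (nat_lit 286735) (nat_lit 3) (.e (nat_lit 98368) (nat_lit 27) (.e (nat_lit 442112) (nat_lit 8) (.e (nat_lit 2685) (nat_lit 168) .nil)))))) (.g (nat_lit 1) (.e (nat_lit 226434) (nat_lit 0) .nil) .nil))))) (.nd (nat_lit 8) (.nd (nat_lit 9) 
(.lf (nat_lit 521409) (.g (nat_lit 3537) (.e (nat_lit 204838) (nat_lit 20) (.e (nat_lit 114715) (nat_lit 22) (.e (nat_lit 90170) (nat_lit 13) (.e (nat_lit 172065) (nat_lit 3) (.e (nat_lit 204829) (nat_lit 18) (.e (nat_lit 57692) (nat_lit 156) (.e (nat_lit 163872) (nat_lit 3) .nil))))))) (.g (nat_lit 1) (.e (nat_lit 225455) (nat_lit 0) .nil) .nil))) 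
(.lf (nat_lit 521921) (.g (nat_lit 2746) (.e (nat_lit 204846) (nat_lit 24) (.e (nat_lit 319531) (nat_lit 16) (.e (nat_lit 286735) (nat_lit 3) (.e (nat_lit 98367) (nat_lit 27) (.e (nat_lit 434183) (nat_lit 8) (.e (nat_lit 7936) (nat_lit 168) .nil)))))) (.g (nat_lit 1) (.e (nat_lit 226254) (nat_lit 0) .nil) .nil)))) (.nd (nat_lit 9) 
(.lf (nat_lit 521665) (.g (nat_lit 3178) (.e (nat_lit 204845) (nat_lit 24) (.e (nat_lit 319530) (nat_lit 16) (.e (nat_lit 286735) (nat_lit 3) (.e (nat_lit 98380) (nat_lit 31) (.e (nat_lit 466979) (nat_lit 23) .nil))))) (.g (nat_lit 1) (.e (nat_lit 225898) (nat_lit 0) .nil) .nil))) 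
(.lf (nat_lit 522177) (.g (nat_lit 2510) (.e (nat_lit 204848) (nat_lit 25) (.e (nat_lit 327715) (nat_lit 16) (.e (nat_lit 286733) (nat_lit 2) (.e (nat_lit 90178) (nat_lit 15) (.e (nat_lit 196352) (nat_lit 23) .nil))))) (.g (nat_lit 0) (.e (nat_lit 226601) (nat_lit 0) .nil) .nil))))))) (.nd (nat_lit 6) (.nd (nat_lit 7) (.nd (nat_lit 8) (.nd (nat_lit 9) 
(.lf (nat_lit 521249) (.g (nat_lit 994) (.e (nat_lit 204838) (nat_lit 20) (.e (nat_lit 114695) (nat_lit 11) (.e (nat_lit 426129) (nat_lit 3) (.e (nat_lit 204876) (nat_lit 31) (.e (nat_lit 384768) (nat_lit 3) .nil))))) (.g (nat_lit 1) (.e (nat_lit 225126) (nat_lit 0) .nil) .nil))) 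
(.lf (nat_lit 521761) (.g (nat_lit 812) (.e (nat_lit 204846) (nat_lit 24) (.e (nat_lit 319504) (nat_lit 10) (.e (nat_lit 5036) (nat_lit 291) .nil))) (.g (nat_lit 0) (.e (nat_lit 226029) (nat_lit 0) .nil) .nil)))) (.nd (nat_lit 9) 
(.lf (nat_lit 521505) (.g (nat_lit 597) (.e (nat_lit 204838) (nat_lit 20) (.e (nat_lit 114719) (nat_lit 23) (.e (nat_lit 98332) (nat_lit 18) .nil))) (.g (nat_lit 0) (.e (nat_lit 225629) (nat_lit 0) .nil) .nil))) 
(.lf (nat_lit 522017) (.g (nat_lit 2789) (.e (nat_lit 204846) (nat_lit 24) (.e (nat_lit 319533) (nat_lit 16) (.e (nat_lit 286735) (nat_lit 3) (.e (nat_lit 98354) (nat_lit 26) (.e (nat_lit 426215) (nat_lit 9) .nil))))) (.g (nat_lit 0) (.e (nat_lit 226402) (nat_lit 0) .nil) .nil))))) (.nd (nat_lit 8) (.nd (nat_lit 9) 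
(.lf (nat_lit 521377) (.g (nat_lit 2843) (.e (nat_lit 204838) (nat_lit 20) (.e (nat_lit 114714) (nat_lit 22) (.e (nat_lit 90172) (nat_lit 14) (.e (nat_lit 180244) (nat_lit 5) (.e (nat_lit 532501) (nat_lit 1) (.e (nat_lit 57690) (nat_lit 156) (.e (nat_lit 163872) (nat_lit 3) .nil))))))) (.g (nat_lit 1) (.e (nat_lit 225400) (nat_lit 0) .nil) .nil))) 
(.lf (nat_lit 521889) (.g (nat_lit 1517) (.e (nat_lit 204846) (nat_lit 24) (.e (nat_lit 319531) (nat_lit 16) (.e (nat_lit 286735) (nat_lit 3) (.e (nat_lit 98325) (nat_lit 17) .nil)))) (.g (nat_lit 0) (.e (nat_lit 226222) (nat_lit 0) .nil) .nil)))) (.nd (nat_lit 9) 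
(.lf (nat_lit 521633) (.g (nat_lit 1765) (.e (nat_lit 204845) (nat_lit 24) (.e (nat_lit 319530) (nat_lit 16) (.e (nat_lit 286732) (nat_lit 2) (.e (nat_lit 90184) (nat_lit 17) .nil)))) (.g (nat_lit 0) (.e (nat_lit 225855) (nat_lit 0) .nil) .nil))) 
(.lf (nat_lit 522145) (.g (nat_lit 4200) (.e (nat_lit 204846) (nat_lit 24) (.e (nat_lit 319534) (nat_lit 16) (.e (nat_lit 286735) (nat_lit 3) (.e (nat_lit 98365) (nat_lit 26) (.e (nat_lit 426200) (nat_lit 9) (.e (nat_lit 426131) (nat_lit 3) .nil)))))) (.g (nat_lit 1) (.e (nat_lit 226550) (nat_lit 0) .nil) .nil)))))) (.nd (nat_lit 7) (.nd (nat_lit 8) (.nd (nat_lit 9) 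
(.lf (nat_lit 521313) (.g (nat_lit 3558) (.e (nat_lit 204838) (nat_lit 20) (.e (nat_lit 114698) (nat_lit 11) (.e (nat_lit 426133) (nat_lit 3) (.e (nat_lit 204861) (nat_lit 26) (.e (nat_lit 336076) (nat_lit 9) (.e (nat_lit 336326) (nat_lit 18) .nil)))))) (.g (nat_lit 1) (.e (nat_lit 225285) (nat_lit 0) .nil) .nil))) 
(.lf (nat_lit 521825) (.g (nat_lit 2476) (.e (nat_lit 204846) (nat_lit 24) (.e (nat_lit 319529) (nat_lit 16) (.e (nat_lit 286735) (nat_lit 3) (.e (nat_lit 98369) (nat_lit 28) (.e (nat_lit 442425) (nat_lit 23) .nil))))) (.g (nat_lit 1) (.e (nat_lit 226133) (nat_lit 0) .nil) .nil)))) (.nd (nat_lit 9) 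
(.lf (nat_lit 521569) (.g (nat_lit 2907) (.e (nat_lit 204838) (nat_lit 20) (.e (nat_lit 114719) (nat_lit 23) (.e (nat_lit 98386) (nat_lit 32) (.e (nat_lit 475179) (nat_lit 24) (.e (nat_lit 516117) (nat_lit 1) (.e (nat_lit 164332) (nat_lit 230) (.e (nat_lit 163874) (nat_lit 3) .nil))))))) (.g (nat_lit 1) (.e (nat_lit 225733) (nat_lit 0) .nil) .nil))) 
(.lf (nat_lit 522081) (.g (nat_lit 2245) (.e (nat_lit 204846) (nat_lit 24) (.e (nat_lit 319534) (nat_lit 16) (.e (nat_lit 286733) (nat_lit 2) (.e (nat_lit 90174) (nat_lit 14) (.e (nat_lit 188160) (nat_lit 40) .nil))))) (.g (nat_lit 0) (.e (nat_lit 226484) (nat_lit 0) .nil) .nil))))) (.nd (nat_lit 8) (.nd (nat_lit 9) 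
(.lf (nat_lit 521441) (.g (nat_lit 2745) (.e (nat_lit 204838) (nat_lit 20) (.e (nat_lit 114716) (nat_lit 22) (.e (nat_lit 90172) (nat_lit 14) (.e (nat_lit 180244) (nat_lit 5) (.e (nat_lit 532501) (nat_lit 1) (.e (nat_lit 57691) (nat_lit 156) (.e (nat_lit 163872) (nat_lit 3) .nil))))))) (.g (nat_lit 1) (.e (nat_lit 225511) (nat_lit 0) .nil) .nil))) 
(.lf (nat_lit 521953) (.g (nat_lit 3303) (.e (nat_lit 204846) (nat_lit 24) (.e (nat_lit 319532) (nat_lit 16) (.e (nat_lit 286735) (nat_lit 3) (.e (nat_lit 98365) (nat_lit 26) (.e (nat_lit 426188) (nat_lit 9) (.e (nat_lit 426131) (nat_lit 3) .nil)))))) (.g (nat_lit 1) (.e (nat_lit 226307) (nat_lit 0) .nil) .nil)))) (.nd (nat_lit 9) 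
(.lf (nat_lit 521697) (.g (nat_lit 2482) (.e (nat_lit 204845) (nat_lit 24) (.e (nat_lit 319531) (nat_lit 16) (.e (nat_lit 286735) (nat_lit 3) (.e (nat_lit 98362) (nat_lit 26) (.e (nat_lit 426211) (nat_lit 9) (.e (nat_lit 426140) (nat_lit 3) .nil)))))) (.g (nat_lit 1) (.e (nat_lit 225941) (nat_lit 0) .nil) .nil))) 
(.lf (nat_lit 522209) (.g (nat_lit 1840) (.e (nat_lit 204849) (nat_lit 25) (.e (nat_lit 327699) (nat_lit 8) (.e (nat_lit 303119) (nat_lit 3) (.e (nat_lit 204821) (nat_lit 17) .nil)))) (.g (nat_lit 0) (.e (nat_lit 226660) (nat_lit 0) .nil) .nil)))))))) (.nd (nat_lit 5) (.nd (nat_lit 6) (.nd (nat_lit 7) (.nd (nat_lit 8) (.nd (nat_lit 9) 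
(.lf (nat_lit 521233) (.g (nat_lit 2831) (.e (nat_lit 204838) (nat_lit 20) (.e (nat_lit 114694) (nat_lit 11) (.e (nat_lit 426133) (nat_lit 3) (.e (nat_lit 204861) (nat_lit 26) (.e (nat_lit 336076) (nat_lit 9) (.e (nat_lit 336325) (nat_lit 18) .nil)))))) (.g (nat_lit 1) (.e (nat_lit 225108) (nat_lit 0) .nil) .nil))) 
(.lf (nat_lit 521745) (.g (nat_lit 2209) (.e (nat_lit 204845) (nat_lit 24) (.e (nat_lit 319534) (nat_lit 16) (.e (nat_lit 286735) (nat_lit 3) (.e (nat_lit 98371) (nat_lit 28) (.e (nat_lit 442427) (nat_lit 23) .nil))))) (.g (nat_lit 1) (.e (nat_lit 225999) (nat_lit 0) .nil) .nil)))) (.nd (nat_lit 9) 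
(.lf (nat_lit 521489) (.g (nat_lit 1963) (.e (nat_lit 204838) (nat_lit 20) (.e (nat_lit 114718) (nat_lit 23) (.e (nat_lit 98367) (nat_lit 27) (.e (nat_lit 434232) (nat_lit 23) (.e (nat_lit 532503) (nat_lit 1) .nil))))) (.g (nat_lit 0) (.e (nat_lit 225608) (nat_lit 0) .nil) .nil))) 
(.lf (nat_lit 522001) (.g (nat_lit 3301) (.e (nat_lit 204846) (nat_lit 24) (.e (nat_lit 319533) (nat_lit 16) (.e (nat_lit 286734) (nat_lit 3) (.e (nat_lit 98381) (nat_lit 31) (.e (nat_lit 466980) (nat_lit 23) .nil))))) (.g (nat_lit 1) (.e (nat_lit 226380) (nat_lit 0) .nil) .nil))))) (.nd (nat_lit 8) (.nd (nat_lit 9) 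
(.lf (nat_lit 521361) (.g (nat_lit 552) (.e (nat_lit 204838) (nat_lit 20) (.e (nat_lit 114714) (nat_lit 22) (.e (nat_lit 90162) (nat_lit 12) .nil))) (.g (nat_lit 0) (.e (nat_lit 225377) (nat_lit 0) .nil) .nil))) 
(.lf (nat_lit 521873) (.g (nat_lit 333) (.e (nat_lit 204846) (nat_lit 24) (.e (nat_lit 319531) (nat_lit 16) (.e (nat_lit 286733) (nat_lit 2) .nil))) (.g (nat_lit 0) (.e (nat_lit 226195) (nat_lit 0) .nil) .nil)))) (.nd (nat_lit 9) 
(.lf (nat_lit 521617) (.g (nat_lit 2975) (.e (nat_lit 204845) (nat_lit 24) (.e (nat_lit 319529) (nat_lit 16) (.e (nat_lit 286735) (nat_lit 3) (.e (nat_lit 98380) (nat_lit 31) (.e (nat_lit 466979) (nat_lit 23) .nil))))) (.g (nat_lit 1) (.e (nat_lit 225838) (nat_lit 0) .nil) .nil))) 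
(.lf (nat_lit 522129) (.g (nat_lit 2856) (.e (nat_lit 204846) (nat_lit 24) (.e (nat_lit 319534) (nat_lit 16) (.e (nat_lit 286735) (nat_lit 3) (.e (nat_lit 98359) (nat_lit 26) (.e (nat_lit 426268) (nat_lit 9) .nil))))) (.g (nat_lit 0) (.e (nat_lit 226534) (nat_lit 0) .nil) .nil)))))) (.nd (nat_lit 7) (.nd (nat_lit 8) (.nd (nat_lit 9) 
(.lf (nat_lit 521297) (.g (nat_lit 1568) (.e (nat_lit 204838) (nat_lit 20) (.e (nat_lit 114698) (nat_lit 11) (.e (nat_lit 426122) (nat_lit 2) (.e (nat_lit 196672) (nat_lit 15) (.e (nat_lit 89856) (nat_lit 3) .nil))))) (.g (nat_lit 1) (.e (nat_lit 225238) (nat_lit 0) .nil) .nil))) 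
(.lf (nat_lit 521809) (.g (nat_lit 3095) (.e (nat_lit 204846) (nat_lit 24) (.e (nat_lit 319529) (nat_lit 16) (.e (nat_lit 286733) (nat_lit 2) (.e (nat_lit 90170) (nat_lit 13) (.e (nat_lit 172085) (nat_lit 9) .nil))))) (.g (nat_lit 0) (.e (nat_lit 226107) (nat_lit 0) .nil) .nil)))) (.nd (nat_lit 9) 
(.lf (nat_lit 521553) (.g (nat_lit 2202) (.e (nat_lit 204838) (nat_lit 20) (.e (nat_lit 114719) (nat_lit 23) (.e (nat_lit 98383) (nat_lit 32) (.e (nat_lit 475179) (nat_lit 24) (.e (nat_lit 516120) (nat_lit 1) (.e (nat_lit 164332) (nat_lit 230) (.e (nat_lit 163874) (nat_lit 3) .nil))))))) (.g (nat_lit 1) (.e (nat_lit 225715) (nat_lit 0) .nil) .nil))) 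
(.lf (nat_lit 522065) (.g (nat_lit 404) (.e (nat_lit 204846) (nat_lit 24) (.e (nat_lit 319534) (nat_lit 16) (.e (nat_lit 286720) (nat_lit 0) .nil))) (.g (nat_lit 0) (.e (nat_lit 226453) (nat_lit 0) .nil) .nil))))) (.nd (nat_lit 8) (.nd (nat_lit 9) 
(.lf (nat_lit 521425) (.g (nat_lit 2837) (.e (nat_lit 204838) (nat_lit 20) (.e (nat_lit 114715) (nat_lit 22) (.e (nat_lit 90170) (nat_lit 13) (.e (nat_lit 172067) (nat_lit 3) (.e (nat_lit 204830) (nat_lit 18) (.e (nat_lit 57689) (nat_lit 156) (.e (nat_lit 163872) (nat_lit 3) .nil))))))) (.g (nat_lit 1) (.e (nat_lit 225480) (nat_lit 0) .nil) .nil))) 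
(.lf (nat_lit 521937) (.g (nat_lit 2627) (.e (nat_lit 204846) (nat_lit 24) (.e (nat_lit 319532) (nat_lit 16) (.e (nat_lit 286733) (nat_lit 2) (.e (nat_lit 90170) (nat_lit 13) (.e (nat_lit 172092) (nat_lit 9) .nil))))) (.g (nat_lit 0) (.e (nat_lit 226282) (nat_lit 0) .nil) .nil)))) (.nd (nat_lit 9) 
(.lf (nat_lit 521681) (.g (nat_lit 3708) (.e (nat_lit 204845) (nat_lit 24) (.e (nat_lit 319531) (nat_lit 16) (.e (nat_lit 286733) (nat_lit 2) (.e (nat_lit 90170) (nat_lit 13) (.e (nat_lit 172094) (nat_lit 9) (.e (nat_lit 426140) (nat_lit 3) .nil)))))) (.g (nat_lit 1) (.e (nat_lit 225923) (nat_lit 0) .nil) .nil))) 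
(.lf (nat_lit 522193) (.g (nat_lit 3076) (.e (nat_lit 204849) (nat_lit 25) (.e (nat_lit 327698) (nat_lit 8) (.e (nat_lit 303119) (nat_lit 3) (.e (nat_lit 204849) (nat_lit 25) (.e (nat_lit 327698) (nat_lit 8) (.e (nat_lit 303119) (nat_lit 3) .nil)))))) (.g (nat_lit 1) (.e (nat_lit 226634) (nat_lit 0) .nil) .nil))))))) (.nd (nat_lit 6) (.nd (nat_lit 7) (.nd (nat_lit 8) (.nd (nat_lit 9) 
(.lf (nat_lit 521265) (.g (nat_lit 1907) (.e (nat_lit 204838) (nat_lit 20) (.e (nat_lit 114697) (nat_lit 11) (.e (nat_lit 426137) (nat_lit 3) (.e (nat_lit 204859) (nat_lit 26) (.e (nat_lit 336118) (nat_lit 9) (.e (nat_lit 336323) (nat_lit 18) .nil)))))) (.g (nat_lit 1) (.e (nat_lit 225178) (nat_lit 0) .nil) .nil))) 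
(.lf (nat_lit 521777) (.g (nat_lit 428) (.e (nat_lit 204846) (nat_lit 24) (.e (nat_lit 319538) (nat_lit 19) (.e (nat_lit 311312) (nat_lit 2) .nil))) (.g (nat_lit 0) (.e (nat_lit 226063) (nat_lit 0) .nil) .nil)))) (.nd (nat_lit 9) 
(.lf (nat_lit 521521) (.g (nat_lit 3401) (.e (nat_lit 204838) (nat_lit 20) (.e (nat_lit 114719) (nat_lit 23) (.e (nat_lit 98365) (nat_lit 26) (.e (nat_lit 426133) (nat_lit 3) (.e (nat_lit 204829) (nat_lit 18) (.e (nat_lit 57692) (nat_lit 156) (.e (nat_lit 163872) (nat_lit 3) .nil))))))) (.g (nat_lit 1) (.e (nat_lit 225666) (nat_lit 0) .nil) .nil))) 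
(.lf (nat_lit 522033) (.g (nat_lit 2552) (.e (nat_lit 204846) (nat_lit 24) (.e (nat_lit 319533) (nat_lit 16) (.e (nat_lit 286735) (nat_lit 3) (.e (nat_lit 98363) (nat_lit 26) (.e (nat_lit 426258) (nat_lit 9) (.e (nat_lit 426129) (nat_lit 3) .nil)))))) (.g (nat_lit 1) (.e (nat_lit 226418) (nat_lit 0) .nil) .nil))))) (.nd (nat_lit 8) (.nd (nat_lit 9) 
(.lf (nat_lit 521393) (.g (nat_lit 3276) (.e (nat_lit 204838) (nat_lit 20) (.e (nat_lit 114714) (nat_lit 22) (.e (nat_lit 90174) (nat_lit 14) (.e (nat_lit 180243) (nat_lit 5) (.e (nat_lit 532501) (nat_lit 1) (.e (nat_lit 57690) (nat_lit 156) (.e (nat_lit 163872) (nat_lit 3) .nil))))))) (.g (nat_lit 1) (.e (nat_lit 225430) (nat_lit 0) .nil) .nil))) 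
(.lf (nat_lit 521905) (.g (nat_lit 1229) (.e (nat_lit 204846) (nat_lit 24) (.e (nat_lit 319531) (nat_lit 16) (.e (nat_lit 286735) (nat_lit 3) (.e (nat_lit 98363) (nat_lit 26) .nil)))) (.g (nat_lit 0) (.e (nat_lit 226238) (nat_lit 0) .nil) .nil)))) (.nd (nat_lit 9) 
(.lf (nat_lit 521649) (.g (nat_lit 2609) (.e (nat_lit 204845) (nat_lit 24) (.e (nat_lit 319530) (nat_lit 16) (.e (nat_lit 286735) (nat_lit 3) (.e (nat_lit 98359) (nat_lit 26) (.e (nat_lit 426214) (nat_lit 9) .nil))))) (.g (nat_lit 0) (.e (nat_lit 225882) (nat_lit 0) .nil) .nil))) 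
(.lf (nat_lit 522161) (.g (nat_lit 2632) (.e (nat_lit 204846) (nat_lit 24) (.e (nat_lit 327424) (nat_lit 16) (.e (nat_lit 286735) (nat_lit 3) (.e (nat_lit 98325) (nat_lit 17) (.e (nat_lit 6986) (nat_lit 377) (.e (nat_lit 1076) (nat_lit 81) (.e (nat_lit 5664) (nat_lit 312) (.e (nat_lit 2679) (nat_lit 168) .nil)))))))) (.g (nat_lit 1) (.e (nat_lit 226567) (nat_lit 0) .nil) .nil)))))) 
(.nd (nat_lit 7) (.nd (nat_lit 8) (.nd (nat_lit 9) 
(.lf (nat_lit 521329) (.g (nat_lit 2741) (.e (nat_lit 204838) (nat_lit 20) (.e (nat_lit 114698) (nat_lit 11) (.e (nat_lit 426138) (nat_lit 3) (.e (nat_lit 204861) (nat_lit 26) (.e (nat_lit 336075) (nat_lit 9) (.e (nat_lit 336326) (nat_lit 18) .nil)))))) (.g (nat_lit 1) (.e (nat_lit 225306) (nat_lit 0) .nil) .nil))) 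
(.lf (nat_lit 521841) (.g (nat_lit 4179) (.e (nat_lit 204846) (nat_lit 24) (.e (nat_lit 319530) (nat_lit 16) (.e (nat_lit 286733) (nat_lit 2) (.e (nat_lit 90176) (nat_lit 15) (.e (nat_lit 188450) (nat_lit 23) .nil))))) (.g (nat_lit 1) (.e (nat_lit 226161) (nat_lit 0) .nil) .nil)))) (.nd (nat_lit 9) 
(.lf (nat_lit 521585) (.g (nat_lit 3292) (.e (nat_lit 204845) (nat_lit 24) (.e (nat_lit 319538) (nat_lit 19) (.e (nat_lit 311315) (nat_lit 3) (.e (nat_lit 204846) (nat_lit 24) (.e (nat_lit 319504) (nat_lit 10) (.e (nat_lit 5714) (nat_lit 312) (.e (nat_lit 2681) (nat_lit 168) .nil))))))) (.g (nat_lit 1) (.e (nat_lit 225780) (nat_lit 0) .nil) .nil))) 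
(.lf (nat_lit 522097) (.g (nat_lit 2872) (.e (nat_lit 204846) (nat_lit 24) (.e (nat_lit 319534) (nat_lit 16) (.e (nat_lit 286734) (nat_lit 3) (.e (nat_lit 98355) (nat_lit 26) (.e (nat_lit 426270) (nat_lit 9) (.e (nat_lit 426139) (nat_lit 3) .nil)))))) (.g (nat_lit 1) (.e (nat_lit 226502) (nat_lit 0) .nil) .nil))))) (.nd (nat_lit 8) (.nd (nat_lit 9) 
(.lf (nat_lit 521457) (.g (nat_lit 3836) (.e (nat_lit 204838) (nat_lit 20) (.e (nat_lit 114716) (nat_lit 22) (.e (nat_lit 90174) (nat_lit 14) (.e (nat_lit 180243) (nat_lit 5) (.e (nat_lit 532502) (nat_lit 1) (.e (nat_lit 57692) (nat_lit 156) (.e (nat_lit 163874) (nat_lit 3) .nil))))))) (.g (nat_lit 1) (.e (nat_lit 225548) (nat_lit 0) .nil) .nil))) 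
(.lf (nat_lit 521969) (.g (nat_lit 3581) (.e (nat_lit 204846) (nat_lit 24) (.e (nat_lit 319533) (nat_lit 16) (.e (nat_lit 286732) (nat_lit 2) (.e (nat_lit 90177) (nat_lit 15) (.e (nat_lit 188452) (nat_lit 23) .nil))))) (.g (nat_lit 1) (.e (nat_lit 226332) (nat_lit 0) .nil) .nil)))) (.nd (nat_lit 9) 
(.lf (nat_lit 521713) (.g (nat_lit 3275) (.e (nat_lit 204845) (nat_lit 24) (.e (nat_lit 319531) (nat_lit 16) (.e (nat_lit 286735) (nat_lit 3) (.e (nat_lit 98381) (nat_lit 31) (.e (nat_lit 466981) (nat_lit 23) .nil))))) (.g (nat_lit 1) (.e (nat_lit 225957) (nat_lit 0) .nil) .nil))) 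
(.lf (nat_lit 522225) (.g (nat_lit 4129) (.e (nat_lit 204849) (nat_lit 25) (.e (nat_lit 327708) (nat_lit 10) (.e (nat_lit 5270) (nat_lit 298) (.e (nat_lit 1229) (nat_lit 91) .nil)))) (.g (nat_lit 0) (.e (nat_lit 226688) (nat_lit 0) .nil) .nil))))))))) (.nd (nat_lit 4) (.nd (nat_lit 5) (.nd (nat_lit 6) (.nd (nat_lit 7) (.nd (nat_lit 8) (.nd (nat_lit 9) 
(.lf (nat_lit 521225) (.g (nat_lit 1491) (.e (nat_lit 204838) (nat_lit 20) (.e (nat_lit 114694) (nat_lit 11) (.e (nat_lit 426114) (nat_lit 2) (.e (nat_lit 196681) (nat_lit 17) (.e (nat_lit 131105) (nat_lit 9) .nil))))) (.g (nat_lit 0) (.e (nat_lit 225091) (nat_lit 0) .nil) .nil))) 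
(.lf (nat_lit 521737) (.g (nat_lit 417) (.e (nat_lit 204845) (nat_lit 24) (.e (nat_lit 319534) (nat_lit 16) (.e (nat_lit 286734) (nat_lit 3) .nil))) (.g (nat_lit 0) (.e (nat_lit 225991) (nat_lit 0) .nil) .nil)))) (.nd (nat_lit 9) 
(.lf (nat_lit 521481) (.g (nat_lit 3622) (.e (nat_lit 204838) (nat_lit 20) (.e (nat_lit 114718) (nat_lit 23) (.e (nat_lit 98365) (nat_lit 26) (.e (nat_lit 426139) (nat_lit 3) (.e (nat_lit 204829) (nat_lit 18) (.e (nat_lit 57691) (nat_lit 156) (.e (nat_lit 163875) (nat_lit 3) .nil))))))) (.g (nat_lit 1) (.e (nat_lit 225597) (nat_lit 0) .nil) .nil))) 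
(.lf (nat_lit 521993) (.g (nat_lit 1393) (.e (nat_lit 204846) (nat_lit 24) (.e (nat_lit 319533) (nat_lit 16) (.e (nat_lit 286734) (nat_lit 3) (.e (nat_lit 98365) (nat_lit 26) .nil)))) (.g (nat_lit 0) (.e (nat_lit 226372) (nat_lit 0) .nil) .nil))))) (.nd (nat_lit 8) (.nd (nat_lit 9) 
(.lf (nat_lit 521353) (.g (nat_lit 2427) (.e (nat_lit 204838) (nat_lit 20) (.e (nat_lit 114698) (nat_lit 11) (.e (nat_lit 426139) (nat_lit 3) (.e (nat_lit 204866) (nat_lit 28) (.e (nat_lit 360192) (nat_lit 3) .nil))))) (.g (nat_lit 1) (.e (nat_lit 225332) (nat_lit 0) .nil) .nil))) 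
(.lf (nat_lit 521865) (.g (nat_lit 2744) (.e (nat_lit 204846) (nat_lit 24) (.e (nat_lit 319530) (nat_lit 16) (.e (nat_lit 286735) (nat_lit 3) (.e (nat_lit 98382) (nat_lit 31) (.e (nat_lit 466979) (nat_lit 23) .nil))))) (.g (nat_lit 1) (.e (nat_lit 226185) (nat_lit 0) .nil) .nil)))) (.nd (nat_lit 9) 
(.lf (nat_lit 521609) (.g (nat_lit 1458) (.e (nat_lit 204845) (nat_lit 24) (.e (nat_lit 319529) (nat_lit 16) (.e (nat_lit 286735) (nat_lit 3) (.e (nat_lit 98365) (nat_lit 26) .nil)))) (.g (nat_lit 0) (.e (nat_lit 225827) (nat_lit 0) .nil) .nil))) 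
(.lf (nat_lit 522121) (.g (nat_lit 4434) (.e (nat_lit 204846) (nat_lit 24) (.e (nat_lit 319534) (nat_lit 16) (.e (nat_lit 286735) (nat_lit 3) (.e (nat_lit 98356) (nat_lit 26) (.e (nat_lit 426241) (nat_lit 9) (.e (nat_lit 426139) (nat_lit 3) .nil)))))) (.g (nat_lit 1) (.e (nat_lit 226526) (nat_lit 0) .nil) .nil)))))) (.nd (nat_lit 7) (.nd (nat_lit 8) (.nd (nat_lit 9) 
(.lf (nat_lit 521289) (.g (nat_lit 3114) (.e (nat_lit 204838) (nat_lit 20) (.e (nat_lit 114697) (nat_lit 11) (.e (nat_lit 426139) (nat_lit 3) (.e (nat_lit 204861) (nat_lit 26) (.e (nat_lit 336076) (nat_lit 9) (.e (nat_lit 336326) (nat_lit 18) .nil)))))) (.g (nat_lit 1) (.e (nat_lit 225205) (nat_lit 0) .nil) .nil))) 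
(.lf (nat_lit 521801) (.g (nat_lit 2782) (.e (nat_lit 204846) (nat_lit 24) (.e (nat_lit 319528) (nat_lit 16) (.e (nat_lit 286735) (nat_lit 3) (.e (nat_lit 98367) (nat_lit 27) (.e (nat_lit 442112) (nat_lit 8) (.e (nat_lit 2685) (nat_lit 168) .nil)))))) (.g (nat_lit 1) (.e (nat_lit 226093) (nat_lit 0) .nil) .nil)))) (.nd (nat_lit 9) 
(.lf (nat_lit 521545) (.g (nat_lit 2688) (.e (nat_lit 204838) (nat_lit 20) (.e (nat_lit 114719) (nat_lit 23) (.e (nat_lit 98367) (nat_lit 27) (.e (nat_lit 434231) (nat_lit 23) (.e (nat_lit 532502) (nat_lit 1) (.e (nat_lit 57688) (nat_lit 156) (.e (nat_lit 163874) (nat_lit 3) .nil))))))) (.g (nat_lit 1) (.e (nat_lit 225703) (nat_lit 0) .nil) .nil))) 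
(.lf (nat_lit 522057) (.g (nat_lit 2575) (.e (nat_lit 204846) (nat_lit 24) (.e (nat_lit 319533) (nat_lit 16) (.e (nat_lit 286735) (nat_lit 3) (.e (nat_lit 98379) (nat_lit 31) (.e (nat_lit 466980) (nat_lit 23) .nil))))) (.g (nat_lit 0) (.e (nat_lit 226444) (nat_lit 0) .nil) .nil))))) (.nd (nat_lit 8) (.nd (nat_lit 9) 
(.lf (nat_lit 521417) (.g (nat_lit 3559) (.e (nat_lit 204838) (nat_lit 20) (.e (nat_lit 114715) (nat_lit 22) (.e (nat_lit 90170) (nat_lit 13) (.e (nat_lit 172065) (nat_lit 3) (.e (nat_lit 204831) (nat_lit 18) (.e (nat_lit 57688) (nat_lit 156) (.e (nat_lit 163874) (nat_lit 3) .nil))))))) (.g (nat_lit 1) (.e (nat_lit 225466) (nat_lit 0) .nil) .nil))) 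
(.lf (nat_lit 521929) (.g (nat_lit 2440) (.e (nat_lit 204846) (nat_lit 24) (.e (nat_lit 319531) (nat_lit 16) (.e (nat_lit 286735) (nat_lit 3) (.e (nat_lit 98381) (nat_lit 31) (.e (nat_lit 466978) (nat_lit 23) .nil))))) (.g (nat_lit 0) (.e (nat_lit 226262) (nat_lit 0) .nil) .nil)))) (.nd (nat_lit 9) 
(.lf (nat_lit 521673) (.g (nat_lit 445) (.e (nat_lit 204845) (nat_lit 24) (.e (nat_lit 319531) (nat_lit 16) (.e (nat_lit 286722) (nat_lit 0) .nil))) (.g (nat_lit 0) (.e (nat_lit 225906) (nat_lit 0) .nil) .nil))) 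
(.lf (nat_lit 522185) (.g (nat_lit 2730) (.e (nat_lit 204849) (nat_lit 25) (.e (nat_lit 327698) (nat_lit 8) (.e (nat_lit 303117) (nat_lit 2) (.e (nat_lit 196670) (nat_lit 14) (.e (nat_lit 73781) (nat_lit 32) (.e (nat_lit 2681) (nat_lit 168) .nil)))))) (.g (nat_lit 1) (.e (nat_lit 226626) (nat_lit 0) .nil) .nil))))))) (.nd (nat_lit 6) (.nd (nat_lit 7) (.nd (nat_lit 8) (.nd (nat_lit 9) 
(.lf (nat_lit 521257) (.g (nat_lit 1089) (.e (nat_lit 204838) (nat_lit 20) (.e (nat_lit 114697) (nat_lit 11) (.e (nat_lit 426122) (nat_lit 2) (.e (nat_lit 196672) (nat_lit 15) (.e (nat_lit 89856) (nat_lit 3) .nil))))) (.g (nat_lit 1) (.e (nat_lit 225155) (nat_lit 0) .nil) .nil))) 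
(.lf (nat_lit 521769) (.g (nat_lit 418) (.e (nat_lit 204846) (nat_lit 24) (.e (nat_lit 319504) (nat_lit 10) (.e (nat_lit 5396) (nat_lit 301) .nil))) (.g (nat_lit 0) (.e (nat_lit 226040) (nat_lit 0) .nil) .nil)))) (.nd (nat_lit 9) 
(.lf (nat_lit 521513) (.g (nat_lit 1317) (.e (nat_lit 204838) (nat_lit 20) (.e (nat_lit 114719) (nat_lit 23) (.e (nat_lit 98335) (nat_lit 18) (.e (nat_lit 164403) (nat_lit 256) .nil)))) (.g (nat_lit 0) (.e (nat_lit 225643) (nat_lit 0) .nil) .nil))) 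
(.lf (nat_lit 522025) (.g (nat_lit 3703) (.e (nat_lit 204846) (nat_lit 24) (.e (nat_lit 319533) (nat_lit 16) (.e (nat_lit 286735) (nat_lit 3) (.e (nat_lit 98359) (nat_lit 26) (.e (nat_lit 426215) (nat_lit 9) .nil))))) (.g (nat_lit 0) (.e (nat_lit 226410) (nat_lit 0) .nil) .nil))))) (.nd (nat_lit 8) (.nd (nat_lit 9) 
(.lf (nat_lit 521385) (.g (nat_lit 2688) (.e (nat_lit 204838) (nat_lit 20) (.e (nat_lit 114714) (nat_lit 22) (.e (nat_lit 90174) (nat_lit 14) (.e (nat_lit 180243) (nat_lit 5) (.e (nat_lit 532499) (nat_lit 1) (.e (nat_lit 57687) (nat_lit 156) (.e (nat_lit 163872) (nat_lit 3) .nil))))))) (.g (nat_lit 1) (.e (nat_lit 225418) (nat_lit 0) .nil) .nil))) 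
(.lf (nat_lit 521897) (.g (nat_lit 4434) (.e (nat_lit 204846) (nat_lit 24) (.e (nat_lit 319531) (nat_lit 16) (.e (nat_lit 286735) (nat_lit 3) (.e (nat_lit 98356) (nat_lit 26) (.e (nat_lit 426241) (nat_lit 9) (.e (nat_lit 426139) (nat_lit 3) .nil)))))) (.g (nat_lit 1) (.e (nat_lit 226230) (nat_lit 0) .nil) .nil)))) (.nd (nat_lit 9) 
(.lf (nat_lit 521641) (.g (nat_lit 3278) (.e (nat_lit 204845) (nat_lit 24) (.e (nat_lit 319530) (nat_lit 16) (.e (nat_lit 286735) (nat_lit 3) (.e (nat_lit 98323) (nat_lit 17) (.e (nat_lit 6989) (nat_lit 377) (.e (nat_lit 1076) (nat_lit 81) (.e (nat_lit 5664) (nat_lit 312) (.e (nat_lit 2679) (nat_lit 168) .nil)))))))) (.g (nat_lit 1) (.e (nat_lit 225874) (nat_lit 0) .nil) .nil))) 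
(.lf (nat_lit 522153) (.g (nat_lit 2536) (.e (nat_lit 204846) (nat_lit 24) (.e (nat_lit 319534) (nat_lit 16) (.e (nat_lit 286735) (nat_lit 3) (.e (nat_lit 98371) (nat_lit 28) (.e (nat_lit 442425) (nat_lit 23) .nil))))) (.g (nat_lit 1) (.e (nat_lit 226558) (nat_lit 0) .nil) .nil)))))) (.nd (nat_lit 7) (.nd (nat_lit 8) (.nd (nat_lit 9) 
(.lf (nat_lit 521321) (.g (nat_lit 2596) (.e (nat_lit 204838) (nat_lit 20) (.e (nat_lit 114698) (nat_lit 11) (.e (nat_lit 426137) (nat_lit 3) (.e (nat_lit 204861) (nat_lit 26) (.e (nat_lit 336076) (nat_lit 9) (.e (nat_lit 336325) (nat_lit 18) .nil)))))) (.g (nat_lit 1) (.e (nat_lit 225293) (nat_lit 0) .nil) .nil))) 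
(.lf (nat_lit 521833) (.g (nat_lit 1483) (.e (nat_lit 204846) (nat_lit 24) (.e (nat_lit 319530) (nat_lit 16) (.e (nat_lit 286727) (nat_lit 0) (.e (nat_lit 1682) (nat_lit 117) .nil)))) (.g (nat_lit 0) (.e (nat_lit 226146) (nat_lit 0) .nil) .nil)))) (.nd (nat_lit 9) 
(.lf (nat_lit 521577) (.g (nat_lit 2205) (.e (nat_lit 204845) (nat_lit 24) (.e (nat_lit 319490) (nat_lit 0) (.e (nat_lit 5664) (nat_lit 312) (.e (nat_lit 2679) (nat_lit 168) .nil)))) (.g (nat_lit 0) (.e (nat_lit 225766) (nat_lit 0) .nil) .nil))) 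
(.lf (nat_lit 522089) (.g (nat_lit 3303) (.e (nat_lit 204846) (nat_lit 24) (.e (nat_lit 319534) (nat_lit 16) (.e (nat_lit 286734) (nat_lit 3) (.e (nat_lit 98350) (nat_lit 24) (.e (nat_lit 409602) (nat_lit 0) (.e (nat_lit 5626) (nat_lit 312) (.e (nat_lit 2685) (nat_lit 168) .nil))))))) (.g (nat_lit 1) (.e (nat_lit 226494) (nat_lit 0) .nil) .nil))))) (.nd (nat_lit 8) (.nd (nat_lit 9) 
(.lf (nat_lit 521449) (.g (nat_lit 3306) (.e (nat_lit 204838) (nat_lit 20) (.e (nat_lit 114716) (nat_lit 22) (.e (nat_lit 90172) (nat_lit 14) (.e (nat_lit 180244) (nat_lit 5) (.e (nat_lit 532504) (nat_lit 1) (.e (nat_lit 57692) (nat_lit 156) (.e (nat_lit 163872) (nat_lit 3) .nil))))))) (.g (nat_lit 1) (.e (nat_lit 225524) (nat_lit 0) .nil) .nil))) 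
(.lf (nat_lit 521961) (.g (nat_lit 507) (.e (nat_lit 204846) (nat_lit 24) (.e (nat_lit 319533) (nat_lit 16) (.e (nat_lit 286725) (nat_lit 0) .nil))) (.g (nat_lit 0) (.e (nat_lit 226321) (nat_lit 0) .nil) .nil)))) (.nd (nat_lit 9) 
(.lf (nat_lit 521705) (.g (nat_lit 3433) (.e (nat_lit 204845) (nat_lit 24) (.e (nat_lit 319531) (nat_lit 16) (.e (nat_lit 286735) (nat_lit 3) (.e (nat_lit 98367) (nat_lit 27) (.e (nat_lit 434183) (nat_lit 8) (.e (nat_lit 7936) (nat_lit 168) .nil)))))) (.g (nat_lit 1) (.e (nat_lit 225949) (nat_lit 0) .nil) .nil))) 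
(.lf (nat_lit 522217) (.g (nat_lit 3972) (.e (nat_lit 204849) (nat_lit 25) (.e (nat_lit 327699) (nat_lit 8) (.e (nat_lit 303119) (nat_lit 3) (.e (nat_lit 204855) (nat_lit 26) (.e (nat_lit 336226) (nat_lit 14) (.e (nat_lit 401428) (nat_lit 3) .nil)))))) (.g (nat_lit 1) (.e (nat_lit 226668) (nat_lit 0) .nil) .nil)))))))) 
(.nd (nat_lit 5) (.nd (nat_lit 6) (.nd (nat_lit 7) (.nd (nat_lit 8) (.nd (nat_lit 9) 
(.lf (nat_lit 521241) (.g (nat_lit 2420) (.e (nat_lit 204838) (nat_lit 20) (.e (nat_lit 114694) (nat_lit 11) (.e (nat_lit 426139) (nat_lit 3) (.e (nat_lit 204861) (nat_lit 26) (.e (nat_lit 336075) (nat_lit 9) (.e (nat_lit 336325) (nat_lit 18) .nil)))))) (.g (nat_lit 1) (.e (nat_lit 225116) (nat_lit 0) .nil) .nil))) 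
(.lf (nat_lit 521753) (.g (nat_lit 2919) (.e (nat_lit 204846) (nat_lit 24) (.e (nat_lit 319490) (nat_lit 0) (.e (nat_lit 5664) (nat_lit 312) (.e (nat_lit 2661) (nat_lit 167) (.e (nat_lit 196664) (nat_lit 13) (.e (nat_lit 65630) (nat_lit 14) (.e (nat_lit 401428) (nat_lit 3) .nil))))))) (.g (nat_lit 1) (.e (nat_lit 226011) (nat_lit 0) .nil) .nil)))) (.nd (nat_lit 9) 
(.lf (nat_lit 521497) (.g (nat_lit 2890) (.e (nat_lit 204838) (nat_lit 20) (.e (nat_lit 114718) (nat_lit 23) (.e (nat_lit 98384) (nat_lit 32) (.e (nat_lit 475177) (nat_lit 24) (.e (nat_lit 516119) (nat_lit 1) (.e (nat_lit 164325) (nat_lit 230) (.e (nat_lit 163875) (nat_lit 3) .nil))))))) (.g (nat_lit 1) (.e (nat_lit 225618) (nat_lit 0) .nil) .nil))) 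
(.lf (nat_lit 522009) (.g (nat_lit 2677) (.e (nat_lit 204846) (nat_lit 24) (.e (nat_lit 319533) (nat_lit 16) (.e (nat_lit 286735) (nat_lit 3) (.e (nat_lit 98325) (nat_lit 17) (.e (nat_lit 6986) (nat_lit 377) .nil))))) (.g (nat_lit 0) (.e (nat_lit 226389) (nat_lit 0) .nil) .nil))))) (.nd (nat_lit 8) (.nd (nat_lit 9) 
(.lf (nat_lit 521369) (.g (nat_lit 3160) (.e (nat_lit 204838) (nat_lit 20) (.e (nat_lit 114714) (nat_lit 22) (.e (nat_lit 90172) (nat_lit 14) (.e (nat_lit 180243) (nat_lit 5) (.e (nat_lit 532503) (nat_lit 1) (.e (nat_lit 57688) (nat_lit 156) (.e (nat_lit 163872) (nat_lit 3) .nil))))))) (.g (nat_lit 1) (.e (nat_lit 225387) (nat_lit 0) .nil) .nil))) 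
(.lf (nat_lit 521881) (.g (nat_lit 1794) (.e (nat_lit 204846) (nat_lit 24) (.e (nat_lit 319531) (nat_lit 16) (.e (nat_lit 286734) (nat_lit 3) (.e (nat_lit 98354) (nat_lit 26) .nil)))) (.g (nat_lit 0) (.e (nat_lit 226213) (nat_lit 0) .nil) .nil)))) (.nd (nat_lit 9) 
(.lf (nat_lit 521625) (.g (nat_lit 2586) (.e (nat_lit 204845) (nat_lit 24) (.e (nat_lit 319529) (nat_lit 16) (.e (nat_lit 286735) (nat_lit 3) (.e (nat_lit 98382) (nat_lit 31) (.e (nat_lit 466979) (nat_lit 23) .nil))))) (.g (nat_lit 1) (.e (nat_lit 225846) (nat_lit 0) .nil) .nil))) 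
(.lf (nat_lit 522137) (.g (nat_lit 2388) (.e (nat_lit 204846) (nat_lit 24) (.e (nat_lit 319534) (nat_lit 16) (.e (nat_lit 286735) (nat_lit 3) (.e (nat_lit 98363) (nat_lit 26) (.e (nat_lit 426258) (nat_lit 9) (.e (nat_lit 426129) (nat_lit 3) .nil)))))) (.g (nat_lit 1) (.e (nat_lit 226542) (nat_lit 0) .nil) .nil)))))) (.nd (nat_lit 7) (.nd (nat_lit 8) (.nd (nat_lit 9) 
(.lf (nat_lit 521305) (.g (nat_lit 1714) (.e (nat_lit 204838) (nat_lit 20) (.e (nat_lit 114698) (nat_lit 11) (.e (nat_lit 426132) (nat_lit 3) (.e (nat_lit 204877) (nat_lit 31) (.e (nat_lit 384768) (nat_lit 3) .nil))))) (.g (nat_lit 1) (.e (nat_lit 225276) (nat_lit 0) .nil) .nil))) 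
(.lf (nat_lit 521817) (.g (nat_lit 2462) (.e (nat_lit 204846) (nat_lit 24) (.e (nat_lit 319529) (nat_lit 16) (.e (nat_lit 286735) (nat_lit 3) (.e (nat_lit 98356) (nat_lit 26) (.e (nat_lit 433920) (nat_lit 9) .nil))))) (.g (nat_lit 0) (.e (nat_lit 226119) (nat_lit 0) .nil) .nil)))) (.nd (nat_lit 9) 
(.lf (nat_lit 521561) (.g (nat_lit 4232) (.e (nat_lit 204838) (nat_lit 20) (.e (nat_lit 114719) (nat_lit 23) (.e (nat_lit 98384) (nat_lit 32) (.e (nat_lit 475179) (nat_lit 24) (.e (nat_lit 516117) (nat_lit 1) (.e (nat_lit 164332) (nat_lit 230) (.e (nat_lit 163874) (nat_lit 3) .nil))))))) (.g (nat_lit 1) (.e (nat_lit 225724) (nat_lit 0) .nil) .nil))) 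
(.lf (nat_lit 522073) (.g (nat_lit 1340) (.e (nat_lit 204846) (nat_lit 24) (.e (nat_lit 319534) (nat_lit 16) (.e (nat_lit 286732) (nat_lit 2) (.e (nat_lit 90165) (nat_lit 12) .nil)))) (.g (nat_lit 0) (.e (nat_lit 226467) (nat_lit 0) .nil) .nil))))) (.nd (nat_lit 8) (.nd (nat_lit 9) 
(.lf (nat_lit 521433) (.g (nat_lit 2206) (.e (nat_lit 204838) (nat_lit 20) (.e (nat_lit 114716) (nat_lit 22) (.e (nat_lit 90172) (nat_lit 14) (.e (nat_lit 180243) (nat_lit 5) (.e (nat_lit 532503) (nat_lit 1) (.e (nat_lit 57685) (nat_lit 156) (.e (nat_lit 163872) (nat_lit 3) .nil))))))) (.g (nat_lit 1) (.e (nat_lit 225494) (nat_lit 0) .nil) .nil))) 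
(.lf (nat_lit 521945) (.g (nat_lit 325) (.e (nat_lit 204846) (nat_lit 24) (.e (nat_lit 319532) (nat_lit 16) (.e (nat_lit 286734) (nat_lit 3) .nil))) (.g (nat_lit 0) (.e (nat_lit 226290) (nat_lit 0) .nil) .nil)))) (.nd (nat_lit 9) 
(.lf (nat_lit 521689) (.g (nat_lit 2254) (.e (nat_lit 204845) (nat_lit 24) (.e (nat_lit 319531) (nat_lit 16) (.e (nat_lit 286735) (nat_lit 3) (.e (nat_lit 98354) (nat_lit 26) (.e (nat_lit 426216) (nat_lit 9) (.e (nat_lit 426140) (nat_lit 3) .nil)))))) (.g (nat_lit 1) (.e (nat_lit 225931) (nat_lit 0) .nil) .nil))) 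
(.lf (nat_lit 522201) (.g (nat_lit 3385) (.e (nat_lit 204849) (nat_lit 25) (.e (nat_lit 327699) (nat_lit 8) (.e (nat_lit 303117) (nat_lit 2) (.e (nat_lit 196668) (nat_lit 14) (.e (nat_lit 73782) (nat_lit 32) (.e (nat_lit 2681) (nat_lit 168) .nil)))))) (.g (nat_lit 1) (.e (nat_lit 226645) (nat_lit 0) .nil) .nil))))))) (.nd (nat_lit 6) (.nd (nat_lit 7) (.nd (nat_lit 8) (.nd (nat_lit 9) 
(.lf (nat_lit 521273) (.g (nat_lit 1436) (.e (nat_lit 204838) (nat_lit 20) (.e (nat_lit 114697) (nat_lit 11) (.e (nat_lit 426137) (nat_lit 3) (.e (nat_lit 204876) (nat_lit 31) (.e (nat_lit 384768) (nat_lit 3) .nil))))) (.g (nat_lit 1) (.e (nat_lit 225187) (nat_lit 0) .nil) .nil))) 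
(.lf (nat_lit 521785) (.g (nat_lit 2839) (.e (nat_lit 204846) (nat_lit 24) (.e (nat_lit 319528) (nat_lit 16) (.e (nat_lit 286735) (nat_lit 3) (.e (nat_lit 98325) (nat_lit 17) (.e (nat_lit 6986) (nat_lit 377) (.e (nat_lit 1076) (nat_lit 81) (.e (nat_lit 5664) (nat_lit 312) (.e (nat_lit 2679) (nat_lit 168) .nil)))))))) (.g (nat_lit 1) (.e (nat_lit 226077) (nat_lit 0) .nil) .nil)))) (.nd (nat_lit 9) 
(.lf (nat_lit 521529) (.g (nat_lit 3028) (.e (nat_lit 204838) (nat_lit 20) (.e (nat_lit 114719) (nat_lit 23) (.e (nat_lit 98365) (nat_lit 26) (.e (nat_lit 426139) (nat_lit 3) (.e (nat_lit 204829) (nat_lit 18) (.e (nat_lit 57688) (nat_lit 156) (.e (nat_lit 163872) (nat_lit 3) .nil))))))) (.g (nat_lit 1) (.e (nat_lit 225675) (nat_lit 0) .nil) .nil))) 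
(.lf (nat_lit 522041) (.g (nat_lit 2944) (.e (nat_lit 204846) (nat_lit 24) (.e (nat_lit 319533) (nat_lit 16) (.e (nat_lit 286735) (nat_lit 3) (.e (nat_lit 98365) (nat_lit 26) (.e (nat_lit 426199) (nat_lit 9) .nil))))) (.g (nat_lit 0) (.e (nat_lit 226426) (nat_lit 0) .nil) .nil))))) (.nd (nat_lit 8) (.nd (nat_lit 9) 
(.lf (nat_lit 521401) (.g (nat_lit 3361) (.e (nat_lit 204838) (nat_lit 20) (.e (nat_lit 114714) (nat_lit 22) (.e (nat_lit 90174) (nat_lit 14) (.e (nat_lit 180243) (nat_lit 5) (.e (nat_lit 532504) (nat_lit 1) (.e (nat_lit 57690) (nat_lit 156) (.e (nat_lit 163872) (nat_lit 3) .nil))))))) (.g (nat_lit 1) (.e (nat_lit 225442) (nat_lit 0) .nil) .nil))) 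
(.lf (nat_lit 521913) (.g (nat_lit 2673) (.e (nat_lit 204846) (nat_lit 24) (.e (nat_lit 319531) (nat_lit 16) (.e (nat_lit 286735) (nat_lit 3) (.e (nat_lit 98365) (nat_lit 26) (.e (nat_lit 426187) (nat_lit 9) (.e (nat_lit 426131) (nat_lit 3) .nil)))))) (.g (nat_lit 1) (.e (nat_lit 226246) (nat_lit 0) .nil) .nil)))) (.nd (nat_lit 9) 
(.lf (nat_lit 521657) (.g (nat_lit 3436) (.e (nat_lit 204845) (nat_lit 24) (.e (nat_lit 319530) (nat_lit 16) (.e (nat_lit 286735) (nat_lit 3) (.e (nat_lit 98367) (nat_lit 27) (.e (nat_lit 442112) (nat_lit 8) (.e (nat_lit 2679) (nat_lit 168) .nil)))))) (.g (nat_lit 1) (.e (nat_lit 225890) (nat_lit 0) .nil) .nil))) 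
(.lf (nat_lit 522169) (.g (nat_lit 1667) (.e (nat_lit 204848) (nat_lit 25) (.e (nat_lit 327699) (nat_lit 8) (.e (nat_lit 303117) (nat_lit 2) (.e (nat_lit 196668) (nat_lit 14) .nil)))) (.g (nat_lit 0) (.e (nat_lit 226578) (nat_lit 0) .nil) .nil)))))) (.nd (nat_lit 7) (.nd (nat_lit 8) (.nd (nat_lit 9) 
(.lf (nat_lit 521337) (.g (nat_lit 863) (.e (nat_lit 204838) (nat_lit 20) (.e (nat_lit 114698) (nat_lit 11) (.e (nat_lit 426138) (nat_lit 3) (.e (nat_lit 204867) (nat_lit 28) .nil)))) (.g (nat_lit 0) (.e (nat_lit 225315) (nat_lit 0) .nil) .nil))) 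
(.lf (nat_lit 521849) (.g (nat_lit 1886) (.e (nat_lit 204846) (nat_lit 24) (.e (nat_lit 319530) (nat_lit 16) (.e (nat_lit 286734) (nat_lit 3) (.e (nat_lit 98371) (nat_lit 28) .nil)))) (.g (nat_lit 0) (.e (nat_lit 226169) (nat_lit 0) .nil) .nil)))) (.nd (nat_lit 9) 
(.lf (nat_lit 521593) (.g (nat_lit 950) (.e (nat_lit 204845) (nat_lit 24) (.e (nat_lit 319529) (nat_lit 16) (.e (nat_lit 286727) (nat_lit 0) (.e (nat_lit 1799) (nat_lit 119) .nil)))) (.g (nat_lit 0) (.e (nat_lit 225795) (nat_lit 0) .nil) .nil))) 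
(.lf (nat_lit 522105) (.g (nat_lit 1687) (.e (nat_lit 204846) (nat_lit 24) (.e (nat_lit 319534) (nat_lit 16) (.e (nat_lit 286734) (nat_lit 3) (.e (nat_lit 98371) (nat_lit 28) .nil)))) (.g (nat_lit 0) (.e (nat_lit 226510) (nat_lit 0) .nil) .nil))))) (.nd (nat_lit 8) (.nd (nat_lit 9) 
(.lf (nat_lit 521465) (.g (nat_lit 890) (.e (nat_lit 204838) (nat_lit 20) (.e (nat_lit 114716) (nat_lit 22) (.e (nat_lit 90185) (nat_lit 17) (.e (nat_lit 237592) (nat_lit 3) .nil)))) (.g (nat_lit 0) (.e (nat_lit 225570) (nat_lit 0) .nil) .nil))) 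
(.lf (nat_lit 521977) (.g (nat_lit 1925) (.e (nat_lit 204846) (nat_lit 24) (.e (nat_lit 319533) (nat_lit 16) (.e (nat_lit 286733) (nat_lit 2) (.e (nat_lit 90183) (nat_lit 17) .nil)))) (.g (nat_lit 0) (.e (nat_lit 226356) (nat_lit 0) .nil) .nil)))) (.nd (nat_lit 9) 
(.lf (nat_lit 521721) (.g (nat_lit 3019) (.e (nat_lit 204845) (nat_lit 24) (.e (nat_lit 319533) (nat_lit 16) (.e (nat_lit 286734) (nat_lit 3) (.e (nat_lit 98381) (nat_lit 31) (.e (nat_lit 466981) (nat_lit 23) .nil))))) (.g (nat_lit 1) (.e (nat_lit 225969) (nat_lit 0) .nil) .nil))) 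
(.lf (nat_lit 522233) (.g (nat_lit 2298) (.e (nat_lit 204849) (nat_lit 25) (.e (nat_lit 327715) (nat_lit 16) (.e (nat_lit 286733) (nat_lit 2) (.e (nat_lit 90178) (nat_lit 15) (.e (nat_lit 188450) (nat_lit 23) .nil))))) (.g (nat_lit 0) (.e (nat_lit 226701) (nat_lit 0) .nil) .nil)))))))))) 
(.nd (nat_lit 3) (.nd (nat_lit 4) (.nd (nat_lit 5) (.nd (nat_lit 6) (.nd (nat_lit 7) 
(.nd (nat_lit 8) (.nd (nat_lit 9) 
(.lf (nat_lit 521221) (.g (nat_lit 4841) (.e (nat_lit 204837) (nat_lit 20) (.e (nat_lit 114719) (nat_lit 23) (.e (nat_lit 98384) (nat_lit 32) (.e (nat_lit 475179) (nat_lit 24) (.e (nat_lit 516120) (nat_lit 1) (.e (nat_lit 164330) (nat_lit 230) (.e (nat_lit 163874) (nat_lit 3) .nil))))))) (.g (nat_lit 1) (.e (nat_lit 225087) (nat_lit 0) .nil) .nil))) 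
(.lf (nat_lit 521733) (.g (nat_lit 1623) (.e (nat_lit 204845) (nat_lit 24) (.e (nat_lit 319534) (nat_lit 16) (.e (nat_lit 286727) (nat_lit 0) (.e (nat_lit 1799) (nat_lit 119) .nil)))) (.g (nat_lit 0) (.e (nat_lit 225984) (nat_lit 0) .nil) .nil)))) (.nd (nat_lit 9) 
(.lf (nat_lit 521477) (.g (nat_lit 1988) (.e (nat_lit 204838) (nat_lit 20) (.e (nat_lit 114718) (nat_lit 23) (.e (nat_lit 98356) (nat_lit 26) (.e (nat_lit 426436) (nat_lit 18) (.e (nat_lit 98333) (nat_lit 18) (.e (nat_lit 164332) (nat_lit 230) (.e (nat_lit 163874) (nat_lit 3) .nil))))))) (.g (nat_lit 1) (.e (nat_lit 225591) (nat_lit 0) .nil) .nil))) 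
(.lf (nat_lit 521989) (.g (nat_lit 2958) (.e (nat_lit 204846) (nat_lit 24) (.e (nat_lit 319533) (nat_lit 16) (.e (nat_lit 286734) (nat_lit 3) (.e (nat_lit 98355) (nat_lit 26) (.e (nat_lit 426270) (nat_lit 9) (.e (nat_lit 426139) (nat_lit 3) .nil)))))) (.g (nat_lit 1) (.e (nat_lit 226368) (nat_lit 0) .nil) .nil))))) (.nd (nat_lit 8) (.nd (nat_lit 9) 
(.lf (nat_lit 521349) (.g (nat_lit 3928) (.e (nat_lit 204838) (nat_lit 20) (.e (nat_lit 114698) (nat_lit 11) (.e (nat_lit 426139) (nat_lit 3) (.e (nat_lit 204861) (nat_lit 26) (.e (nat_lit 336076) (nat_lit 9) (.e (nat_lit 336326) (nat_lit 18) .nil)))))) (.g (nat_lit 1) (.e (nat_lit 225328) (nat_lit 0) .nil) .nil))) 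
(.lf (nat_lit 521861) (.g (nat_lit 2789) (.e (nat_lit 204846) (nat_lit 24) (.e (nat_lit 319530) (nat_lit 16) (.e (nat_lit 286735) (nat_lit 3) (.e (nat_lit 98369) (nat_lit 28) (.e (nat_lit 442426) (nat_lit 23) .nil))))) (.g (nat_lit 1) (.e (nat_lit 226181) (nat_lit 0) .nil) .nil)))) (.nd (nat_lit 9) 
(.lf (nat_lit 521605) (.g (nat_lit 3506) (.e (nat_lit 204845) (nat_lit 24) (.e (nat_lit 319529) (nat_lit 16) (.e (nat_lit 286735) (nat_lit 3) (.e (nat_lit 98356) (nat_lit 26) (.e (nat_lit 426227) (nat_lit 9) (.e (nat_lit 433920) (nat_lit 3) .nil)))))) (.g (nat_lit 1) (.e (nat_lit 225821) (nat_lit 0) .nil) .nil))) 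
(.lf (nat_lit 522117) (.g (nat_lit 1918) (.e (nat_lit 204846) (nat_lit 24) (.e (nat_lit 319534) (nat_lit 16) (.e (nat_lit 286735) (nat_lit 3) (.e (nat_lit 98354) (nat_lit 26) .nil)))) (.g (nat_lit 0) (.e (nat_lit 226522) (nat_lit 0) .nil) .nil)))))) (.nd (nat_lit 7) (.nd (nat_lit 8) (.nd (nat_lit 9) 
(.lf (nat_lit 521285) (.g (nat_lit 2156) (.e (nat_lit 204838) (nat_lit 20) (.e (nat_lit 114697) (nat_lit 11) (.e (nat_lit 426139) (nat_lit 3) (.e (nat_lit 204861) (nat_lit 26) (.e (nat_lit 336075) (nat_lit 9) (.e (nat_lit 336322) (nat_lit 18) .nil)))))) (.g (nat_lit 1) (.e (nat_lit 225201) (nat_lit 0) .nil) .nil))) 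
(.lf (nat_lit 521797) (.g (nat_lit 2002) (.e (nat_lit 204846) (nat_lit 24) (.e (nat_lit 319528) (nat_lit 16) (.e (nat_lit 286735) (nat_lit 3) (.e (nat_lit 98365) (nat_lit 26) (.e (nat_lit 426199) (nat_lit 9) (.e (nat_lit 426131) (nat_lit 3) .nil)))))) (.g (nat_lit 1) (.e (nat_lit 226089) (nat_lit 0) .nil) .nil)))) (.nd (nat_lit 9) 
(.lf (nat_lit 521541) (.g (nat_lit 1057) (.e (nat_lit 204838) (nat_lit 20) (.e (nat_lit 114719) (nat_lit 23) (.e (nat_lit 98366) (nat_lit 27) (.e (nat_lit 434233) (nat_lit 23) .nil)))) (.g (nat_lit 0) (.e (nat_lit 225692) (nat_lit 0) .nil) .nil))) 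
(.lf (nat_lit 522053) (.g (nat_lit 2577) (.e (nat_lit 204846) (nat_lit 24) (.e (nat_lit 319533) (nat_lit 16) (.e (nat_lit 286735) (nat_lit 3) (.e (nat_lit 98370) (nat_lit 28) (.e (nat_lit 450304) (nat_lit 23) .nil))))) (.g (nat_lit 1) (.e (nat_lit 226438) (nat_lit 0) .nil) .nil))))) (.nd (nat_lit 8) (.nd (nat_lit 9) 
(.lf (nat_lit 521413) (.g (nat_lit 5059) (.e (nat_lit 204838) (nat_lit 20) (.e (nat_lit 114715) (nat_lit 22) (.e (nat_lit 90170) (nat_lit 13) (.e (nat_lit 172065) (nat_lit 3) (.e (nat_lit 204830) (nat_lit 18) (.e (nat_lit 57691) (nat_lit 156) (.e (nat_lit 163875) (nat_lit 3) .nil))))))) (.g (nat_lit 1) (.e (nat_lit 225461) (nat_lit 0) .nil) .nil))) 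
(.lf (nat_lit 521925) (.g (nat_lit 2536) (.e (nat_lit 204846) (nat_lit 24) (.e (nat_lit 319531) (nat_lit 16) (.e (nat_lit 286735) (nat_lit 3) (.e (nat_lit 98369) (nat_lit 28) (.e (nat_lit 442426) (nat_lit 23) .nil))))) (.g (nat_lit 1) (.e (nat_lit 226258) (nat_lit 0) .nil) .nil)))) (.nd (nat_lit 9) 
(.lf (nat_lit 521669) (.g (nat_lit 3276) (.e (nat_lit 204845) (nat_lit 24) (.e (nat_lit 319530) (nat_lit 16) (.e (nat_lit 286735) (nat_lit 3) (.e (nat_lit 98381) (nat_lit 31) (.e (nat_lit 466981) (nat_lit 23) .nil))))) (.g (nat_lit 1) (.e (nat_lit 225902) (nat_lit 0) .nil) .nil))) 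
(.lf (nat_lit 522181) (.g (nat_lit 394) (.e (nat_lit 204849) (nat_lit 25) (.e (nat_lit 327698) (nat_lit 8) (.e (nat_lit 303117) (nat_lit 2) .nil))) (.g (nat_lit 0) (.e (nat_lit 226619) (nat_lit 0) .nil) .nil))))))) (.nd (nat_lit 6) (.nd (nat_lit 7) (.nd (nat_lit 8) (.nd (nat_lit 9) 
(.lf (nat_lit 521253) (.g (nat_lit 1146) (.e (nat_lit 204838) (nat_lit 20) (.e (nat_lit 114696) (nat_lit 11) (.e (nat_lit 426129) (nat_lit 3) (.e (nat_lit 204876) (nat_lit 31) (.e (nat_lit 384768) (nat_lit 3) .nil))))) (.g (nat_lit 1) (.e (nat_lit 225132) (nat_lit 0) .nil) .nil))) 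
(.lf (nat_lit 521765) (.g (nat_lit 351) (.e (nat_lit 204846) (nat_lit 24) (.e (nat_lit 319504) (nat_lit 10) (.e (nat_lit 7936) (nat_lit 313) .nil))) (.g (nat_lit 0) (.e (nat_lit 226036) (nat_lit 0) .nil) .nil)))) (.nd (nat_lit 9) 
(.lf (nat_lit 521509) (.g (nat_lit 2593) (.e (nat_lit 204838) (nat_lit 20) (.e (nat_lit 114719) (nat_lit 23) (.e (nat_lit 98335) (nat_lit 18) (.e (nat_lit 164330) (nat_lit 230) (.e (nat_lit 163867) (nat_lit 2) .nil))))) (.g (nat_lit 0) (.e (nat_lit 225638) (nat_lit 0) .nil) .nil))) 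
(.lf (nat_lit 522021) (.g (nat_lit 1579) (.e (nat_lit 204846) (nat_lit 24) (.e (nat_lit 319533) (nat_lit 16) (.e (nat_lit 286735) (nat_lit 3) (.e (nat_lit 98356) (nat_lit 26) .nil)))) (.g (nat_lit 0) (.e (nat_lit 226406) (nat_lit 0) .nil) .nil))))) (.nd (nat_lit 8) (.nd (nat_lit 9) 
(.lf (nat_lit 521381) (.g (nat_lit 2855) (.e (nat_lit 204838) (nat_lit 20) (.e (nat_lit 114714) (nat_lit 22) (.e (nat_lit 90172) (nat_lit 14) (.e (nat_lit 180244) (nat_lit 5) (.e (nat_lit 532503) (nat_lit 1) (.e (nat_lit 57689) (nat_lit 156) (.e (nat_lit 163872) (nat_lit 3) .nil))))))) (.g (nat_lit 1) (.e (nat_lit 225406) (nat_lit 0) .nil) .nil))) 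
(.lf (nat_lit 521893) (.g (nat_lit 2763) (.e (nat_lit 204846) (nat_lit 24) (.e (nat_lit 319531) (nat_lit 16) (.e (nat_lit 286735) (nat_lit 3) (.e (nat_lit 98350) (nat_lit 24) (.e (nat_lit 409606) (nat_lit 0) .nil))))) (.g (nat_lit 0) (.e (nat_lit 226226) (nat_lit 0) .nil) .nil)))) (.nd (nat_lit 9) 
(.lf (nat_lit 521637) (.g (nat_lit 3068) (.e (nat_lit 204845) (nat_lit 24) (.e (nat_lit 319530) (nat_lit 16) (.e (nat_lit 286733) (nat_lit 2) (.e (nat_lit 90178) (nat_lit 15) (.e (nat_lit 196352) (nat_lit 23) .nil))))) (.g (nat_lit 1) (.e (nat_lit 225870) (nat_lit 0) .nil) .nil))) 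
(.lf (nat_lit 522149) (.g (nat_lit 2819) (.e (nat_lit 204846) (nat_lit 24) (.e (nat_lit 319534) (nat_lit 16) (.e (nat_lit 286735) (nat_lit 3) (.e (nat_lit 98369) (nat_lit 28) (.e (nat_lit 442425) (nat_lit 23) .nil))))) (.g (nat_lit 1) (.e (nat_lit 226554) (nat_lit 0) .nil) .nil)))))) (.nd (nat_lit 7) (.nd (nat_lit 8) (.nd (nat_lit 9) 
(.lf (nat_lit 521317) (.g (nat_lit 1614) (.e (nat_lit 204838) (nat_lit 20) (.e (nat_lit 114698) (nat_lit 11) (.e (nat_lit 426133) (nat_lit 3) (.e (nat_lit 204878) (nat_lit 31) .nil)))) (.g (nat_lit 0) (.e (nat_lit 225289) (nat_lit 0) .nil) .nil))) 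
(.lf (nat_lit 521829) (.g (nat_lit 1379) (.e (nat_lit 204846) (nat_lit 24) (.e (nat_lit 319529) (nat_lit 16) (.e (nat_lit 286735) (nat_lit 3) (.e (nat_lit 98381) (nat_lit 31) .nil)))) (.g (nat_lit 0) (.e (nat_lit 226140) (nat_lit 0) .nil) .nil)))) (.nd (nat_lit 9) 
(.lf (nat_lit 521573) (.g (nat_lit 4355) (.e (nat_lit 204845) (nat_lit 24) (.e (nat_lit 319490) (nat_lit 0) (.e (nat_lit 5626) (nat_lit 312) (.e (nat_lit 2668) (nat_lit 167) (.e (nat_lit 196666) (nat_lit 13) (.e (nat_lit 65628) (nat_lit 14) (.e (nat_lit 401428) (nat_lit 3) .nil))))))) (.g (nat_lit 1) (.e (nat_lit 225761) (nat_lit 0) .nil) .nil))) 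
(.lf (nat_lit 522085) (.g (nat_lit 1978) (.e (nat_lit 204846) (nat_lit 24) (.e (nat_lit 319534) (nat_lit 16) (.e (nat_lit 286734) (nat_lit 3) (.e (nat_lit 98319) (nat_lit 17) (.e (nat_lit 7386) (nat_lit 392) .nil))))) (.g (nat_lit 0) (.e (nat_lit 226489) (nat_lit 0) .nil) .nil))))) (.nd (nat_lit 8) (.nd (nat_lit 9) 
(.lf (nat_lit 521445) (.g (nat_lit 3795) (.e (nat_lit 204838) (nat_lit 20) (.e (nat_lit 114716) (nat_lit 22) (.e (nat_lit 90172) (nat_lit 14) (.e (nat_lit 180244) (nat_lit 5) (.e (nat_lit 532503) (nat_lit 1) (.e (nat_lit 57688) (nat_lit 156) (.e (nat_lit 163872) (nat_lit 3) .nil))))))) (.g (nat_lit 1) (.e (nat_lit 225518) (nat_lit 0) .nil) .nil))) 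
(.lf (nat_lit 521957) (.g (nat_lit 1280) (.e (nat_lit 204846) (nat_lit 24) (.e (nat_lit 319533) (nat_lit 16) (.e (nat_lit 286721) (nat_lit 0) .nil))) (.g (nat_lit 0) (.e (nat_lit 226315) (nat_lit 0) .nil) .nil)))) (.nd (nat_lit 9) 
(.lf (nat_lit 521701) (.g (nat_lit 2587) (.e (nat_lit 204845) (nat_lit 24) (.e (nat_lit 319531) (nat_lit 16) (.e (nat_lit 286735) (nat_lit 3) (.e (nat_lit 98365) (nat_lit 26) (.e (nat_lit 426185) (nat_lit 9) (.e (nat_lit 426140) (nat_lit 3) .nil)))))) (.g (nat_lit 1) (.e (nat_lit 225945) (nat_lit 0) .nil) .nil))) 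
(.lf (nat_lit 522213) (.g (nat_lit 3578) (.e (nat_lit 204849) (nat_lit 25) (.e (nat_lit 327699) (nat_lit 8) (.e (nat_lit 303119) (nat_lit 3) (.e (nat_lit 204846) (nat_lit 24) (.e (nat_lit 327424) (nat_lit 8) .nil))))) (.g (nat_lit 0) (.e (nat_lit 226664) (nat_lit 0) .nil) .nil)))))))) (.nd (nat_lit 5) (.nd (nat_lit 6) (.nd (nat_lit 7) (.nd (nat_lit 8) (.nd (nat_lit 9) 
(.lf (nat_lit 521237) (.g (nat_lit 2419) (.e (nat_lit 204838) (nat_lit 20) (.e (nat_lit 114694) (nat_lit 11) (.e (nat_lit 426139) (nat_lit 3) (.e (nat_lit 204859) (nat_lit 26) (.e (nat_lit 336118) (nat_lit 9) (.e (nat_lit 336323) (nat_lit 18) .nil)))))) (.g (nat_lit 1) (.e (nat_lit 225112) (nat_lit 0) .nil) .nil))) 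
(.lf (nat_lit 521749) (.g (nat_lit 986) (.e (nat_lit 204846) (nat_lit 24) (.e (nat_lit 319490) (nat_lit 0) (.e (nat_lit 5626) (nat_lit 312) (.e (nat_lit 2685) (nat_lit 168) .nil)))) (.g (nat_lit 0) (.e (nat_lit 226005) (nat_lit 0) .nil) .nil)))) (.nd (nat_lit 9) 
(.lf (nat_lit 521493) (.g (nat_lit 3988) (.e (nat_lit 204838) (nat_lit 20) (.e (nat_lit 114718) (nat_lit 23) (.e (nat_lit 98384) (nat_lit 32) (.e (nat_lit 475177) (nat_lit 24) (.e (nat_lit 516117) (nat_lit 1) (.e (nat_lit 164330) (nat_lit 230) (.e (nat_lit 163872) (nat_lit 3) .nil))))))) (.g (nat_lit 1) (.e (nat_lit 225614) (nat_lit 0) .nil) .nil))) 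
(.lf (nat_lit 522005) (.g (nat_lit 2783) (.e (nat_lit 204846) (nat_lit 24) (.e (nat_lit 319533) (nat_lit 16) (.e (nat_lit 286735) (nat_lit 3) (.e (nat_lit 98319) (nat_lit 17) (.e (nat_lit 7386) (nat_lit 392) .nil))))) (.g (nat_lit 0) (.e (nat_lit 226384) (nat_lit 0) .nil) .nil))))) (.nd (nat_lit 8) (.nd (nat_lit 9) 
(.lf (nat_lit 521365) (.g (nat_lit 440) (.e (nat_lit 204838) (nat_lit 20) (.e (nat_lit 114714) (nat_lit 22) (.e (nat_lit 90172) (nat_lit 14) .nil))) (.g (nat_lit 0) (.e (nat_lit 225382) (nat_lit 0) .nil) .nil))) 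
(.lf (nat_lit 521877) (.g (nat_lit 3400) (.e (nat_lit 204846) (nat_lit 24) (.e (nat_lit 319531) (nat_lit 16) (.e (nat_lit 286733) (nat_lit 2) (.e (nat_lit 90170) (nat_lit 13) (.e (nat_lit 172097) (nat_lit 9) .nil))))) (.g (nat_lit 0) (.e (nat_lit 226209) (nat_lit 0) .nil) .nil)))) (.nd (nat_lit 9) 
(.lf (nat_lit 521621) (.g (nat_lit 2403) (.e (nat_lit 204845) (nat_lit 24) (.e (nat_lit 319529) (nat_lit 16) (.e (nat_lit 286735) (nat_lit 3) (.e (nat_lit 98381) (nat_lit 31) (.e (nat_lit 466979) (nat_lit 23) .nil))))) (.g (nat_lit 0) (.e (nat_lit 225842) (nat_lit 0) .nil) .nil))) 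
(.lf (nat_lit 522133) (.g (nat_lit 1879) (.e (nat_lit 204846) (nat_lit 24) (.e (nat_lit 319534) (nat_lit 16) (.e (nat_lit 286735) (nat_lit 3) (.e (nat_lit 98363) (nat_lit 26) (.e (nat_lit 425984) (nat_lit 0) .nil))))) (.g (nat_lit 0) (.e (nat_lit 226538) (nat_lit 0) .nil) .nil)))))) (.nd (nat_lit 7) (.nd (nat_lit 8) (.nd (nat_lit 9) 
(.lf (nat_lit 521301) (.g (nat_lit 2164) (.e (nat_lit 204838) (nat_lit 20) (.e (nat_lit 114698) (nat_lit 11) (.e (nat_lit 426124) (nat_lit 2) (.e (nat_lit 196672) (nat_lit 15) (.e (nat_lit 89856) (nat_lit 3) .nil))))) (.g (nat_lit 1) (.e (nat_lit 225268) (nat_lit 0) .nil) .nil))) 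
(.lf (nat_lit 521813) (.g (nat_lit 1662) (.e (nat_lit 204846) (nat_lit 24) (.e (nat_lit 319529) (nat_lit 16) (.e (nat_lit 286733) (nat_lit 2) (.e (nat_lit 90173) (nat_lit 14) (.e (nat_lit 188160) (nat_lit 40) .nil))))) (.g (nat_lit 0) (.e (nat_lit 226111) (nat_lit 0) .nil) .nil)))) (.nd (nat_lit 9) 
(.lf (nat_lit 521557) (.g (nat_lit 2161) (.e (nat_lit 204838) (nat_lit 20) (.e (nat_lit 114719) (nat_lit 23) (.e (nat_lit 98384) (nat_lit 32) (.e (nat_lit 475177) (nat_lit 24) (.e (nat_lit 516118) (nat_lit 1) .nil))))) (.g (nat_lit 0) (.e (nat_lit 225719) (nat_lit 0) .nil) .nil))) 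
(.lf (nat_lit 522069) (.g (nat_lit 249) (.e (nat_lit 204846) (nat_lit 24) (.e (nat_lit 319534) (nat_lit 16) (.e (nat_lit 286728) (nat_lit 0) .nil))) (.g (nat_lit 0) (.e (nat_lit 226457) (nat_lit 0) .nil) .nil))))) (.nd (nat_lit 8) (.nd (nat_lit 9) 
(.lf (nat_lit 521429) (.g (nat_lit 2829) (.e (nat_lit 204838) (nat_lit 20) (.e (nat_lit 114715) (nat_lit 22) (.e (nat_lit 90174) (nat_lit 14) (.e (nat_lit 180243) (nat_lit 5) (.e (nat_lit 532499) (nat_lit 1) (.e (nat_lit 57692) (nat_lit 156) (.e (nat_lit 163874) (nat_lit 3) .nil))))))) (.g (nat_lit 1) (.e (nat_lit 225484) (nat_lit 0) .nil) .nil))) 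
(.lf (nat_lit 521941) (.g (nat_lit 2168) (.e (nat_lit 204846) (nat_lit 24) (.e (nat_lit 319532) (nat_lit 16) (.e (nat_lit 286733) (nat_lit 2) (.e (nat_lit 90170) (nat_lit 13) (.e (nat_lit 179968) (nat_lit 9) .nil))))) (.g (nat_lit 0) (.e (nat_lit 226286) (nat_lit 0) .nil) .nil)))) (.nd (nat_lit 9) 
(.lf (nat_lit 521685) (.g (nat_lit 2344) (.e (nat_lit 204845) (nat_lit 24) (.e (nat_lit 319531) (nat_lit 16) (.e (nat_lit 286734) (nat_lit 3) (.e (nat_lit 98381) (nat_lit 31) (.e (nat_lit 466981) (nat_lit 23) .nil))))) (.g (nat_lit 1) (.e (nat_lit 225927) (nat_lit 0) .nil) .nil))) 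
(.lf (nat_lit 522197) (.g (nat_lit 1857) (.e (nat_lit 204849) (nat_lit 25) (.e (nat_lit 327699) (nat_lit 8) (.e (nat_lit 303116) (nat_lit 2) (.e (nat_lit 196628) (nat_lit 9) (.e (nat_lit 970) (nat_lit 81) .nil))))) (.g (nat_lit 0) (.e (nat_lit 226638) (nat_lit 0) .nil) .nil))))))) (.nd (nat_lit 6) (.nd (nat_lit 7) (.nd (nat_lit 8) (.nd (nat_lit 9) 
(.lf (nat_lit 521269) (.g (nat_lit 2396) (.e (nat_lit 204838) (nat_lit 20) (.e (nat_lit 114697) (nat_lit 11) (.e (nat_lit 426137) (nat_lit 3) (.e (nat_lit 204861) (nat_lit 26) (.e (nat_lit 336076) (nat_lit 9) (.e (nat_lit 336322) (nat_lit 18) .nil)))))) (.g (nat_lit 1) (.e (nat_lit 225182) (nat_lit 0) .nil) .nil))) 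
(.lf (nat_lit 521781) (.g (nat_lit 3932) (.e (nat_lit 204846) (nat_lit 24) (.e (nat_lit 319538) (nat_lit 19) (.e (nat_lit 311315) (nat_lit 3) (.e (nat_lit 204846) (nat_lit 24) (.e (nat_lit 319539) (nat_lit 19) (.e (nat_lit 311315) (nat_lit 3) .nil)))))) (.g (nat_lit 1) (.e (nat_lit 226069) (nat_lit 0) .nil) .nil)))) (.nd (nat_lit 9) 
(.lf (nat_lit 521525) (.g (nat_lit 4124) (.e (nat_lit 204838) (nat_lit 20) (.e (nat_lit 114719) (nat_lit 23) (.e (nat_lit 98365) (nat_lit 26) (.e (nat_lit 426138) (nat_lit 3) (.e (nat_lit 204831) (nat_lit 18) (.e (nat_lit 57688) (nat_lit 156) (.e (nat_lit 163873) (nat_lit 3) .nil))))))) (.g (nat_lit 1) (.e (nat_lit 225671) (nat_lit 0) .nil) .nil))) 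
(.lf (nat_lit 522037) (.g (nat_lit 2711) (.e (nat_lit 204846) (nat_lit 24) (.e (nat_lit 319533) (nat_lit 16) (.e (nat_lit 286735) (nat_lit 3) (.e (nat_lit 98364) (nat_lit 26) (.e (nat_lit 426199) (nat_lit 9) .nil))))) (.g (nat_lit 0) (.e (nat_lit 226422) (nat_lit 0) .nil) .nil))))) (.nd (nat_lit 8) (.nd (nat_lit 9) 
(.lf (nat_lit 521397) (.g (nat_lit 2966) (.e (nat_lit 204838) (nat_lit 20) (.e (nat_lit 114714) (nat_lit 22) (.e (nat_lit 90174) (nat_lit 14) (.e (nat_lit 180243) (nat_lit 5) (.e (nat_lit 532503) (nat_lit 1) (.e (nat_lit 57687) (nat_lit 156) (.e (nat_lit 163872) (nat_lit 3) .nil))))))) (.g (nat_lit 1) (.e (nat_lit 225435) (nat_lit 0) .nil) .nil))) 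
(.lf (nat_lit 521909) (.g (nat_lit 2391) (.e (nat_lit 204846) (nat_lit 24) (.e (nat_lit 319531) (nat_lit 16) (.e (nat_lit 286735) (nat_lit 3) (.e (nat_lit 98363) (nat_lit 26) (.e (nat_lit 426258) (nat_lit 9) (.e (nat_lit 426129) (nat_lit 3) .nil)))))) (.g (nat_lit 1) (.e (nat_lit 226242) (nat_lit 0) .nil) .nil)))) (.nd (nat_lit 9) 
(.lf (nat_lit 521653) (.g (nat_lit 1957) (.e (nat_lit 204845) (nat_lit 24) (.e (nat_lit 319530) (nat_lit 16) (.e (nat_lit 286735) (nat_lit 3) (.e (nat_lit 98363) (nat_lit 26) (.e (nat_lit 433920) (nat_lit 9) .nil))))) (.g (nat_lit 0) (.e (nat_lit 225886) (nat_lit 0) .nil) .nil))) 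
(.lf (nat_lit 522165) (.g (nat_lit 2049) (.e (nat_lit 204846) (nat_lit 24) (.e (nat_lit 327424) (nat_lit 16) (.e (nat_lit 286735) (nat_lit 3) (.e (nat_lit 98369) (nat_lit 28) (.e (nat_lit 442425) (nat_lit 23) .nil))))) (.g (nat_lit 1) (.e (nat_lit 226571) (nat_lit 0) .nil) .nil)))))) (.nd (nat_lit 7) (.nd (nat_lit 8) (.nd (nat_lit 9) 
(.lf (nat_lit 521333) (.g (nat_lit 3266) (.e (nat_lit 204838) (nat_lit 20) (.e (nat_lit 114698) (nat_lit 11) (.e (nat_lit 426138) (nat_lit 3) (.e (nat_lit 204861) (nat_lit 26) (.e (nat_lit 336076) (nat_lit 9) (.e (nat_lit 336326) (nat_lit 18) .nil)))))) (.g (nat_lit 1) (.e (nat_lit 225310) (nat_lit 0) .nil) .nil))) 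
(.lf (nat_lit 521845) (.g (nat_lit 737) (.e (nat_lit 204846) (nat_lit 24) (.e (nat_lit 319530) (nat_lit 16) (.e (nat_lit 286734) (nat_lit 3) .nil))) (.g (nat_lit 0) (.e (nat_lit 226165) (nat_lit 0) .nil) .nil)))) (.nd (nat_lit 9) 
(.lf (nat_lit 521589) (.g (nat_lit 2025) (.e (nat_lit 204845) (nat_lit 24) (.e (nat_lit 319528) (nat_lit 16) (.e (nat_lit 286733) (nat_lit 2) (.e (nat_lit 90185) (nat_lit 17) (.e (nat_lit 237605) (nat_lit 9) .nil))))) (.g (nat_lit 0) (.e (nat_lit 225787) (nat_lit 0) .nil) .nil))) 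
(.lf (nat_lit 522101) (.g (nat_lit 3299) (.e (nat_lit 204846) (nat_lit 24) (.e (nat_lit 319534) (nat_lit 16) (.e (nat_lit 286734) (nat_lit 3) (.e (nat_lit 98365) (nat_lit 26) (.e (nat_lit 426188) (nat_lit 9) (.e (nat_lit 426131) (nat_lit 3) .nil)))))) (.g (nat_lit 1) (.e (nat_lit 226506) (nat_lit 0) .nil) .nil))))) (.nd (nat_lit 8) (.nd (nat_lit 9) 
(.lf (nat_lit 521461) (.g (nat_lit 2978) (.e (nat_lit 204838) (nat_lit 20) (.e (nat_lit 114716) (nat_lit 22) (.e (nat_lit 90174) (nat_lit 14) (.e (nat_lit 180243) (nat_lit 5) (.e (nat_lit 532503) (nat_lit 1) (.e (nat_lit 57689) (nat_lit 156) (.e (nat_lit 163872) (nat_lit 3) .nil))))))) (.g (nat_lit 1) (.e (nat_lit 225555) (nat_lit 0) .nil) .nil))) 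
(.lf (nat_lit 521973) (.g (nat_lit 3123) (.e (nat_lit 204846) (nat_lit 24) (.e (nat_lit 319533) (nat_lit 16) (.e (nat_lit 286733) (nat_lit 2) (.e (nat_lit 90170) (nat_lit 13) (.e (nat_lit 172085) (nat_lit 9) (.e (nat_lit 426135) (nat_lit 3) .nil)))))) (.g (nat_lit 1) (.e (nat_lit 226350) (nat_lit 0) .nil) .nil)))) (.nd (nat_lit 9) 
(.lf (nat_lit 521717) (.g (nat_lit 2579) (.e (nat_lit 204845) (nat_lit 24) (.e (nat_lit 319532) (nat_lit 16) (.e (nat_lit 286733) (nat_lit 2) (.e (nat_lit 90170) (nat_lit 13) (.e (nat_lit 172095) (nat_lit 9) .nil))))) (.g (nat_lit 0) (.e (nat_lit 225962) (nat_lit 0) .nil) .nil))) 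
(.lf (nat_lit 522229) (.g (nat_lit 2359) (.e (nat_lit 204849) (nat_lit 25) (.e (nat_lit 327708) (nat_lit 10) (.e (nat_lit 5394) (nat_lit 301) (.e (nat_lit 57452) (nat_lit 21) .nil)))) (.g (nat_lit 0) (.e (nat_lit 226693) (nat_lit 0) .nil) .nil))))))))) (.nd (nat_lit 4) (.nd (nat_lit 5) (.nd (nat_lit 6) (.nd (nat_lit 7) (.nd (nat_lit 8) (.nd (nat_lit 9) 
(.lf (nat_lit 521229) (.g (nat_lit 2358) (.e (nat_lit 204838) (nat_lit 20) (.e (nat_lit 114694) (nat_lit 11) (.e (nat_lit 426133) (nat_lit 3) (.e (nat_lit 204861) (nat_lit 26) (.e (nat_lit 336075) (nat_lit 9) (.e (nat_lit 336325) (nat_lit 18) .nil)))))) (.g (nat_lit 1) (.e (nat_lit 225104) (nat_lit 0) .nil) .nil))) 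
(.lf (nat_lit 521741) (.g (nat_lit 2822) (.e (nat_lit 204845) (nat_lit 24) (.e (nat_lit 319534) (nat_lit 16) (.e (nat_lit 286735) (nat_lit 3) (.e (nat_lit 98359) (nat_lit 26) (.e (nat_lit 426216) (nat_lit 9) (.e (nat_lit 426140) (nat_lit 3) .nil)))))) (.g (nat_lit 1) (.e (nat_lit 225995) (nat_lit 0) .nil) .nil)))) (.nd (nat_lit 9) 
(.lf (nat_lit 521485) (.g (nat_lit 1261) (.e (nat_lit 204838) (nat_lit 20) (.e (nat_lit 114718) (nat_lit 23) (.e (nat_lit 98366) (nat_lit 27) (.e (nat_lit 434232) (nat_lit 23) .nil)))) (.g (nat_lit 0) (.e (nat_lit 225601) (nat_lit 0) .nil) .nil))) 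
(.lf (nat_lit 521997) (.g (nat_lit 2696) (.e (nat_lit 204846) (nat_lit 24) (.e (nat_lit 319533) (nat_lit 16) (.e (nat_lit 286734) (nat_lit 3) (.e (nat_lit 98371) (nat_lit 28) (.e (nat_lit 442425) (nat_lit 23) .nil))))) (.g (nat_lit 1) (.e (nat_lit 226376) (nat_lit 0) .nil) .nil))))) (.nd (nat_lit 8) (.nd (nat_lit 9) 
(.lf (nat_lit 521357) (.g (nat_lit 691) (.e (nat_lit 204838) (nat_lit 20) (.e (nat_lit 122624) (nat_lit 11) (.e (nat_lit 426132) (nat_lit 3) (.e (nat_lit 204877) (nat_lit 31) (.e (nat_lit 384768) (nat_lit 3) .nil))))) (.g (nat_lit 1) (.e (nat_lit 225343) (nat_lit 0) .nil) .nil))) 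
(.lf (nat_lit 521869) (.g (nat_lit 420) (.e (nat_lit 204846) (nat_lit 24) (.e (nat_lit 319531) (nat_lit 16) (.e (nat_lit 286728) (nat_lit 0) .nil))) (.g (nat_lit 0) (.e (nat_lit 226190) (nat_lit 0) .nil) .nil)))) (.nd (nat_lit 9) 
(.lf (nat_lit 521613) (.g (nat_lit 2870) (.e (nat_lit 204845) (nat_lit 24) (.e (nat_lit 319529) (nat_lit 16) (.e (nat_lit 286735) (nat_lit 3) (.e (nat_lit 98369) (nat_lit 28) (.e (nat_lit 442425) (nat_lit 23) .nil))))) (.g (nat_lit 1) (.e (nat_lit 225832) (nat_lit 0) .nil) .nil))) 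
(.lf (nat_lit 522125) (.g (nat_lit 2881) (.e (nat_lit 204846) (nat_lit 24) (.e (nat_lit 319534) (nat_lit 16) (.e (nat_lit 286735) (nat_lit 3) (.e (nat_lit 98357) (nat_lit 26) (.e (nat_lit 426270) (nat_lit 9) (.e (nat_lit 426139) (nat_lit 3) .nil)))))) (.g (nat_lit 1) (.e (nat_lit 226530) (nat_lit 0) .nil) .nil)))))) (.nd (nat_lit 7) (.nd (nat_lit 8) (.nd (nat_lit 9) 
(.lf (nat_lit 521293) (.g (nat_lit 1598) (.e (nat_lit 204838) (nat_lit 20) (.e (nat_lit 114697) (nat_lit 11) (.e (nat_lit 426139) (nat_lit 3) (.e (nat_lit 204877) (nat_lit 31) (.e (nat_lit 384768) (nat_lit 3) .nil))))) (.g (nat_lit 1) (.e (nat_lit 225210) (nat_lit 0) .nil) .nil))) 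
(.lf (nat_lit 521805) (.g (nat_lit 973) (.e (nat_lit 204846) (nat_lit 24) (.e (nat_lit 319529) (nat_lit 16) (.e (nat_lit 286727) (nat_lit 0) (.e (nat_lit 1799) (nat_lit 119) .nil)))) (.g (nat_lit 0) (.e (nat_lit 226097) (nat_lit 0) .nil) .nil)))) (.nd (nat_lit 9) 
(.lf (nat_lit 521549) (.g (nat_lit 805) (.e (nat_lit 204838) (nat_lit 20) (.e (nat_lit 114719) (nat_lit 23) (.e (nat_lit 98368) (nat_lit 27) .nil))) (.g (nat_lit 0) (.e (nat_lit 225710) (nat_lit 0) .nil) .nil))) 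
(.lf (nat_lit 522061) (.g (nat_lit 2871) (.e (nat_lit 204846) (nat_lit 24) (.e (nat_lit 319533) (nat_lit 16) (.e (nat_lit 286735) (nat_lit 3) (.e (nat_lit 98381) (nat_lit 31) (.e (nat_lit 466980) (nat_lit 23) .nil))))) (.g (nat_lit 1) (.e (nat_lit 226448) (nat_lit 0) .nil) .nil))))) (.nd (nat_lit 8) (.nd (nat_lit 9) 
(.lf (nat_lit 521421) (.g (nat_lit 3811) (.e (nat_lit 204838) (nat_lit 20) (.e (nat_lit 114715) (nat_lit 22) (.e (nat_lit 90170) (nat_lit 13) (.e (nat_lit 172067) (nat_lit 3) (.e (nat_lit 204829) (nat_lit 18) (.e (nat_lit 57688) (nat_lit 156) (.e (nat_lit 163872) (nat_lit 3) .nil))))))) (.g (nat_lit 1) (.e (nat_lit 225474) (nat_lit 0) .nil) .nil))) 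
(.lf (nat_lit 521933) (.g (nat_lit 1085) (.e (nat_lit 204846) (nat_lit 24) (.e (nat_lit 319532) (nat_lit 16) (.e (nat_lit 286727) (nat_lit 0) (.e (nat_lit 1799) (nat_lit 119) .nil)))) (.g (nat_lit 0) (.e (nat_lit 226268) (nat_lit 0) .nil) .nil)))) (.nd (nat_lit 9) 
(.lf (nat_lit 521677) (.g (nat_lit 1294) (.e (nat_lit 204845) (nat_lit 24) (.e (nat_lit 319531) (nat_lit 16) (.e (nat_lit 286727) (nat_lit 0) (.e (nat_lit 1799) (nat_lit 119) .nil)))) (.g (nat_lit 0) (.e (nat_lit 225910) (nat_lit 0) .nil) .nil))) 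
(.lf (nat_lit 522189) (.g (nat_lit 2455) (.e (nat_lit 204849) (nat_lit 25) (.e (nat_lit 327698) (nat_lit 8) (.e (nat_lit 303118) (nat_lit 3) (.e (nat_lit 204849) (nat_lit 25) (.e (nat_lit 327698) (nat_lit 8) (.e (nat_lit 303119) (nat_lit 3) .nil)))))) (.g (nat_lit 1) (.e (nat_lit 226630) (nat_lit 0) .nil) .nil))))))) (.nd (nat_lit 6) (.nd (nat_lit 7) (.nd (nat_lit 8) (.nd (nat_lit 9) 
(.lf (nat_lit 521261) (.g (nat_lit 2844) (.e (nat_lit 204838) (nat_lit 20) (.e (nat_lit 114697) (nat_lit 11) (.e (nat_lit 426133) (nat_lit 3) (.e (nat_lit 204861) (nat_lit 26) (.e (nat_lit 336076) (nat_lit 9) (.e (nat_lit 336322) (nat_lit 18) .nil)))))) (.g (nat_lit 1) (.e (nat_lit 225174) (nat_lit 0) .nil) .nil))) 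
(.lf (nat_lit 521773) (.g (nat_lit 3274) (.e (nat_lit 204846) (nat_lit 24) (.e (nat_lit 319511) (nat_lit 10) (.e (nat_lit 5293) (nat_lit 298) (.e (nat_lit 1250) (nat_lit 92) (.e (nat_lit 98323) (nat_lit 17) (.e (nat_lit 6989) (nat_lit 377) (.e (nat_lit 1076) (nat_lit 81) (.e (nat_lit 5664) (nat_lit 312) (.e (nat_lit 2679) (nat_lit 168) .nil))))))))) (.g (nat_lit 1) (.e (nat_lit 226055) (nat_lit 0) .nil) .nil)))) 
(.nd (nat_lit 9) 
(.lf (nat_lit 521517) (.g (nat_lit 3766) (.e (nat_lit 204838) (nat_lit 20) (.e (nat_lit 114719) (nat_lit 23) (.e (nat_lit 98356) (nat_lit 26) (.e (nat_lit 426438) (nat_lit 18) (.e (nat_lit 98335) (nat_lit 18) (.e (nat_lit 164330) (nat_lit 230) (.e (nat_lit 163874) (nat_lit 3) .nil))))))) (.g (nat_lit 1) (.e (nat_lit 225652) (nat_lit 0) .nil) .nil))) 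
(.lf (nat_lit 522029) (.g (nat_lit 1251) (.e (nat_lit 204846) (nat_lit 24) (.e (nat_lit 319533) (nat_lit 16) (.e (nat_lit 286735) (nat_lit 3) (.e (nat_lit 98363) (nat_lit 26) .nil)))) (.g (nat_lit 0) (.e (nat_lit 226414) (nat_lit 0) .nil) .nil))))) (.nd (nat_lit 8) (.nd (nat_lit 9) 
(.lf (nat_lit 521389) (.g (nat_lit 3508) (.e (nat_lit 204838) (nat_lit 20) (.e (nat_lit 114714) (nat_lit 22) (.e (nat_lit 90174) (nat_lit 14) (.e (nat_lit 180243) (nat_lit 5) (.e (nat_lit 532499) (nat_lit 1) (.e (nat_lit 57692) (nat_lit 156) (.e (nat_lit 163872) (nat_lit 3) .nil))))))) (.g (nat_lit 1) (.e (nat_lit 225422) (nat_lit 0) .nil) .nil))) 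
(.lf (nat_lit 521901) (.g (nat_lit 2814) (.e (nat_lit 204846) (nat_lit 24) (.e (nat_lit 319531) (nat_lit 16) (.e (nat_lit 286735) (nat_lit 3) (.e (nat_lit 98357) (nat_lit 26) (.e (nat_lit 426270) (nat_lit 9) (.e (nat_lit 426139) (nat_lit 3) .nil)))))) (.g (nat_lit 1) (.e (nat_lit 226234) (nat_lit 0) .nil) .nil)))) (.nd (nat_lit 9) 
(.lf (nat_lit 521645) (.g (nat_lit 1881) (.e (nat_lit 204845) (nat_lit 24) (.e (nat_lit 319530) (nat_lit 16) (.e (nat_lit 286735) (nat_lit 3) (.e (nat_lit 98355) (nat_lit 26) .nil)))) (.g (nat_lit 0) (.e (nat_lit 225878) (nat_lit 0) .nil) .nil))) 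
(.lf (nat_lit 522157) (.g (nat_lit 3104) (.e (nat_lit 204846) (nat_lit 24) (.e (nat_lit 319534) (nat_lit 16) (.e (nat_lit 286735) (nat_lit 3) (.e (nat_lit 98381) (nat_lit 31) (.e (nat_lit 466980) (nat_lit 23) .nil))))) (.g (nat_lit 1) (.e (nat_lit 226563) (nat_lit 0) .nil) .nil)))))) (.nd (nat_lit 7) (.nd (nat_lit 8) (.nd (nat_lit 9) 
(.lf (nat_lit 521325) (.g (nat_lit 431) (.e (nat_lit 204838) (nat_lit 20) (.e (nat_lit 114698) (nat_lit 11) (.e (nat_lit 426138) (nat_lit 3) .nil))) (.g (nat_lit 0) (.e (nat_lit 225298) (nat_lit 0) .nil) .nil))) 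
(.lf (nat_lit 521837) (.g (nat_lit 3151) (.e (nat_lit 204846) (nat_lit 24) (.e (nat_lit 319530) (nat_lit 16) (.e (nat_lit 286727) (nat_lit 0) (.e (nat_lit 1799) (nat_lit 119) (.e (nat_lit 516142) (nat_lit 8) (.e (nat_lit 417813) (nat_lit 9) (.e (nat_lit 311315) (nat_lit 3) .nil))))))) (.g (nat_lit 1) (.e (nat_lit 226150) (nat_lit 0) .nil) .nil)))) (.nd (nat_lit 9) 
(.lf (nat_lit 521581) (.g (nat_lit 4136) (.e (nat_lit 204845) (nat_lit 24) (.e (nat_lit 319537) (nat_lit 19) (.e (nat_lit 311315) (nat_lit 3) (.e (nat_lit 204846) (nat_lit 24) (.e (nat_lit 319538) (nat_lit 19) (.e (nat_lit 311315) (nat_lit 3) .nil)))))) (.g (nat_lit 1) (.e (nat_lit 225775) (nat_lit 0) .nil) .nil))) 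
(.lf (nat_lit 522093) (.g (nat_lit 3271) (.e (nat_lit 204846) (nat_lit 24) (.e (nat_lit 319534) (nat_lit 16) (.e (nat_lit 286734) (nat_lit 3) (.e (nat_lit 98353) (nat_lit 25) (.e (nat_lit 417813) (nat_lit 9) (.e (nat_lit 311315) (nat_lit 3) .nil)))))) (.g (nat_lit 1) (.e (nat_lit 226498) (nat_lit 0) .nil) .nil))))) (.nd (nat_lit 8) (.nd (nat_lit 9) 
(.lf (nat_lit 521453) (.g (nat_lit 2184) (.e (nat_lit 204838) (nat_lit 20) (.e (nat_lit 114716) (nat_lit 22) (.e (nat_lit 90174) (nat_lit 14) (.e (nat_lit 180243) (nat_lit 5) (.e (nat_lit 532500) (nat_lit 1) (.e (nat_lit 57692) (nat_lit 156) (.e (nat_lit 163874) (nat_lit 3) .nil))))))) (.g (nat_lit 1) (.e (nat_lit 225535) (nat_lit 0) .nil) .nil))) 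
(.lf (nat_lit 521965) (.g (nat_lit 1351) (.e (nat_lit 204846) (nat_lit 24) (.e (nat_lit 319533) (nat_lit 16) (.e (nat_lit 286727) (nat_lit 0) (.e (nat_lit 1799) (nat_lit 119) .nil)))) (.g (nat_lit 0) (.e (nat_lit 226325) (nat_lit 0) .nil) .nil)))) (.nd (nat_lit 9) 
(.lf (nat_lit 521709) (.g (nat_lit 2636) (.e (nat_lit 204845) (nat_lit 24) (.e (nat_lit 319531) (nat_lit 16) (.e (nat_lit 286735) (nat_lit 3) (.e (nat_lit 98369) (nat_lit 28) (.e (nat_lit 442425) (nat_lit 23) .nil))))) (.g (nat_lit 1) (.e (nat_lit 225953) (nat_lit 0) .nil) .nil))) 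
(.lf (nat_lit 522221) (.g (nat_lit 2144) (.e (nat_lit 204849) (nat_lit 25) (.e (nat_lit 327700) (nat_lit 8) (.e (nat_lit 303117) (nat_lit 2) (.e (nat_lit 196628) (nat_lit 9) (.e (nat_lit 968) (nat_lit 81) .nil))))) (.g (nat_lit 0) (.e (nat_lit 226672) (nat_lit 0) .nil) .nil)))))))) (.nd (nat_lit 5) (.nd (nat_lit 6) (.nd (nat_lit 7) (.nd (nat_lit 8) (.nd (nat_lit 9) 
(.lf (nat_lit 521245) (.g (nat_lit 2786) (.e (nat_lit 204838) (nat_lit 20) (.e (nat_lit 114694) (nat_lit 11) (.e (nat_lit 426139) (nat_lit 3) (.e (nat_lit 204861) (nat_lit 26) (.e (nat_lit 336076) (nat_lit 9) (.e (nat_lit 336325) (nat_lit 18) .nil)))))) (.g (nat_lit 1) (.e (nat_lit 225120) (nat_lit 0) .nil) .nil))) 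
(.lf (nat_lit 521757) (.g (nat_lit 1417) (.e (nat_lit 204846) (nat_lit 24) (.e (nat_lit 319490) (nat_lit 0) (.e (nat_lit 5293) (nat_lit 298) (.e (nat_lit 1246) (nat_lit 92) .nil)))) (.g (nat_lit 0) (.e (nat_lit 226024) (nat_lit 0) .nil) .nil)))) (.nd (nat_lit 9) 
(.lf (nat_lit 521501) (.g (nat_lit 4569) (.e (nat_lit 204838) (nat_lit 20) (.e (nat_lit 114718) (nat_lit 23) (.e (nat_lit 98384) (nat_lit 32) (.e (nat_lit 475179) (nat_lit 24) (.e (nat_lit 516120) (nat_lit 1) (.e (nat_lit 164330) (nat_lit 230) (.e (nat_lit 163874) (nat_lit 3) .nil))))))) (.g (nat_lit 1) (.e (nat_lit 225624) (nat_lit 0) .nil) .nil))) 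
(.lf (nat_lit 522013) (.g (nat_lit 2713) (.e (nat_lit 204846) (nat_lit 24) (.e (nat_lit 319533) (nat_lit 16) (.e (nat_lit 286735) (nat_lit 3) (.e (nat_lit 98325) (nat_lit 17) (.e (nat_lit 7350) (nat_lit 388) .nil))))) (.g (nat_lit 0) (.e (nat_lit 226393) (nat_lit 0) .nil) .nil))))) (.nd (nat_lit 8) (.nd (nat_lit 9) 
(.lf (nat_lit 521373) (.g (nat_lit 2862) (.e (nat_lit 204838) (nat_lit 20) (.e (nat_lit 114714) (nat_lit 22) (.e (nat_lit 90172) (nat_lit 14) (.e (nat_lit 180244) (nat_lit 5) (.e (nat_lit 532499) (nat_lit 1) (.e (nat_lit 57687) (nat_lit 156) (.e (nat_lit 163872) (nat_lit 3) .nil))))))) (.g (nat_lit 1) (.e (nat_lit 225396) (nat_lit 0) .nil) .nil))) 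
(.lf (nat_lit 521885) (.g (nat_lit 1811) (.e (nat_lit 204846) (nat_lit 24) (.e (nat_lit 319531) (nat_lit 16) (.e (nat_lit 286734) (nat_lit 3) (.e (nat_lit 98380) (nat_lit 31) .nil)))) (.g (nat_lit 0) (.e (nat_lit 226217) (nat_lit 0) .nil) .nil)))) (.nd (nat_lit 9) 
(.lf (nat_lit 521629) (.g (nat_lit 1411) (.e (nat_lit 204845) (nat_lit 24) (.e (nat_lit 319530) (nat_lit 16) (.e (nat_lit 286727) (nat_lit 0) (.e (nat_lit 1799) (nat_lit 119) .nil)))) (.g (nat_lit 0) (.e (nat_lit 225850) (nat_lit 0) .nil) .nil))) 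
(.lf (nat_lit 522141) (.g (nat_lit 2655) (.e (nat_lit 204846) (nat_lit 24) (.e (nat_lit 319534) (nat_lit 16) (.e (nat_lit 286735) (nat_lit 3) (.e (nat_lit 98365) (nat_lit 26) (.e (nat_lit 426187) (nat_lit 9) (.e (nat_lit 426131) (nat_lit 3) .nil)))))) (.g (nat_lit 1) (.e (nat_lit 226546) (nat_lit 0) .nil) .nil)))))) (.nd (nat_lit 7) (.nd (nat_lit 8) (.nd (nat_lit 9) 
(.lf (nat_lit 521309) (.g (nat_lit 2930) (.e (nat_lit 204838) (nat_lit 20) (.e (nat_lit 114698) (nat_lit 11) (.e (nat_lit 426133) (nat_lit 3) (.e (nat_lit 204861) (nat_lit 26) (.e (nat_lit 336075) (nat_lit 9) (.e (nat_lit 336325) (nat_lit 18) .nil)))))) (.g (nat_lit 1) (.e (nat_lit 225281) (nat_lit 0) .nil) .nil))) 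
(.lf (nat_lit 521821) (.g (nat_lit 1462) (.e (nat_lit 204846) (nat_lit 24) (.e (nat_lit 319529) (nat_lit 16) (.e (nat_lit 286735) (nat_lit 3) (.e (nat_lit 98365) (nat_lit 26) .nil)))) (.g (nat_lit 0) (.e (nat_lit 226124) (nat_lit 0) .nil) .nil)))) (.nd (nat_lit 9) 
(.lf (nat_lit 521565) (.g (nat_lit 4831) (.e (nat_lit 204838) (nat_lit 20) (.e (nat_lit 114719) (nat_lit 23) (.e (nat_lit 98384) (nat_lit 32) (.e (nat_lit 475179) (nat_lit 24) (.e (nat_lit 516120) (nat_lit 1) (.e (nat_lit 164330) (nat_lit 230) (.e (nat_lit 163874) (nat_lit 3) .nil))))))) (.g (nat_lit 1) (.e (nat_lit 225729) (nat_lit 0) .nil) .nil))) 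
(.lf (nat_lit 522077) (.g (nat_lit 1610) (.e (nat_lit 204846) (nat_lit 24) (.e (nat_lit 319534) (nat_lit 16) (.e (nat_lit 286732) (nat_lit 2) (.e (nat_lit 90183) (nat_lit 17) .nil)))) (.g (nat_lit 0) (.e (nat_lit 226471) (nat_lit 0) .nil) .nil))))) (.nd (nat_lit 8) (.nd (nat_lit 9) 
(.lf (nat_lit 521437) (.g (nat_lit 3039) (.e (nat_lit 204838) (nat_lit 20) (.e (nat_lit 114716) (nat_lit 22) (.e (nat_lit 90172) (nat_lit 14) (.e (nat_lit 180243) (nat_lit 5) (.e (nat_lit 532504) (nat_lit 1) (.e (nat_lit 57691) (nat_lit 156) (.e (nat_lit 163872) (nat_lit 3) .nil))))))) (.g (nat_lit 1) (.e (nat_lit 225500) (nat_lit 0) .nil) .nil))) 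
(.lf (nat_lit 521949) (.g (nat_lit 4089) (.e (nat_lit 204846) (nat_lit 24) (.e (nat_lit 319532) (nat_lit 16) (.e (nat_lit 286734) (nat_lit 3) (.e (nat_lit 98356) (nat_lit 26) (.e (nat_lit 426241) (nat_lit 9) (.e (nat_lit 426139) (nat_lit 3) .nil)))))) (.g (nat_lit 1) (.e (nat_lit 226295) (nat_lit 0) .nil) .nil)))) (.nd (nat_lit 9) 
(.lf (nat_lit 521693) (.g (nat_lit 2835) (.e (nat_lit 204845) (nat_lit 24) (.e (nat_lit 319531) (nat_lit 16) (.e (nat_lit 286735) (nat_lit 3) (.e (nat_lit 98356) (nat_lit 26) (.e (nat_lit 426248) (nat_lit 9) .nil))))) (.g (nat_lit 0) (.e (nat_lit 225935) (nat_lit 0) .nil) .nil))) 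
(.lf (nat_lit 522205) (.g (nat_lit 2655) (.e (nat_lit 204849) (nat_lit 25) (.e (nat_lit 327699) (nat_lit 8) (.e (nat_lit 303118) (nat_lit 3) (.e (nat_lit 204846) (nat_lit 24) (.e (nat_lit 319491) (nat_lit 0) .nil))))) (.g (nat_lit 0) (.e (nat_lit 226654) (nat_lit 0) .nil) .nil))))))) (.nd (nat_lit 6) (.nd (nat_lit 7) (.nd (nat_lit 8) (.nd (nat_lit 9) 
(.lf (nat_lit 521277) (.g (nat_lit 2368) (.e (nat_lit 204838) (nat_lit 20) (.e (nat_lit 114697) (nat_lit 11) (.e (nat_lit 426138) (nat_lit 3) (.e (nat_lit 204861) (nat_lit 26) (.e (nat_lit 336076) (nat_lit 9) (.e (nat_lit 336325) (nat_lit 18) .nil)))))) (.g (nat_lit 1) (.e (nat_lit 225192) (nat_lit 0) .nil) .nil))) 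
(.lf (nat_lit 521789) (.g (nat_lit 2463) (.e (nat_lit 204846) (nat_lit 24) (.e (nat_lit 319528) (nat_lit 16) (.e (nat_lit 286735) (nat_lit 3) (.e (nat_lit 98359) (nat_lit 26) (.e (nat_lit 426216) (nat_lit 9) .nil))))) (.g (nat_lit 0) (.e (nat_lit 226081) (nat_lit 0) .nil) .nil)))) (.nd (nat_lit 9) 
(.lf (nat_lit 521533) (.g (nat_lit 1538) (.e (nat_lit 204838) (nat_lit 20) (.e (nat_lit 114719) (nat_lit 23) (.e (nat_lit 98365) (nat_lit 26) (.e (nat_lit 426413) (nat_lit 15) .nil)))) (.g (nat_lit 0) (.e (nat_lit 225679) (nat_lit 0) .nil) .nil))) 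
(.lf (nat_lit 522045) (.g (nat_lit 4088) (.e (nat_lit 204846) (nat_lit 24) (.e (nat_lit 319533) (nat_lit 16) (.e (nat_lit 286735) (nat_lit 3) (.e (nat_lit 98367) (nat_lit 27) (.e (nat_lit 434184) (nat_lit 8) (.e (nat_lit 2682) (nat_lit 168) .nil)))))) (.g (nat_lit 1) (.e (nat_lit 226430) (nat_lit 0) .nil) .nil))))) (.nd (nat_lit 8) (.nd (nat_lit 9) 
(.lf (nat_lit 521405) (.g (nat_lit 1899) (.e (nat_lit 204838) (nat_lit 20) (.e (nat_lit 114715) (nat_lit 22) (.e (nat_lit 90170) (nat_lit 13) (.e (nat_lit 172046) (nat_lit 0) (.e (nat_lit 3238) (nat_lit 197) .nil))))) (.g (nat_lit 0) (.e (nat_lit 225448) (nat_lit 0) .nil) .nil))) 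
(.lf (nat_lit 521917) (.g (nat_lit 2655) (.e (nat_lit 204846) (nat_lit 24) (.e (nat_lit 319531) (nat_lit 16) (.e (nat_lit 286735) (nat_lit 3) (.e (nat_lit 98365) (nat_lit 26) (.e (nat_lit 426199) (nat_lit 9) (.e (nat_lit 426131) (nat_lit 3) .nil)))))) (.g (nat_lit 1) (.e (nat_lit 226250) (nat_lit 0) .nil) .nil)))) (.nd (nat_lit 9) 
(.lf (nat_lit 521661) (.g (nat_lit 2696) (.e (nat_lit 204845) (nat_lit 24) (.e (nat_lit 319530) (nat_lit 16) (.e (nat_lit 286735) (nat_lit 3) (.e (nat_lit 98369) (nat_lit 28) (.e (nat_lit 442426) (nat_lit 23) .nil))))) (.g (nat_lit 1) (.e (nat_lit 225894) (nat_lit 0) .nil) .nil))) 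
(.lf (nat_lit 522173) (.g (nat_lit 2799) (.e (nat_lit 204848) (nat_lit 25) (.e (nat_lit 327699) (nat_lit 8) (.e (nat_lit 303119) (nat_lit 3) (.e (nat_lit 204849) (nat_lit 25) (.e (nat_lit 327698) (nat_lit 8) .nil))))) (.g (nat_lit 0) (.e (nat_lit 226585) (nat_lit 0) .nil) .nil)))))) (.nd (nat_lit 7) (.nd (nat_lit 8) (.nd (nat_lit 9) 
(.lf (nat_lit 521341) (.g (nat_lit 2700) (.e (nat_lit 204838) (nat_lit 20) (.e (nat_lit 114698) (nat_lit 11) (.e (nat_lit 426139) (nat_lit 3) (.e (nat_lit 204859) (nat_lit 26) (.e (nat_lit 336118) (nat_lit 9) (.e (nat_lit 336321) (nat_lit 18) .nil)))))) (.g (nat_lit 1) (.e (nat_lit 225320) (nat_lit 0) .nil) .nil))) 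
(.lf (nat_lit 521853) (.g (nat_lit 3629) (.e (nat_lit 204846) (nat_lit 24) (.e (nat_lit 319530) (nat_lit 16) (.e (nat_lit 286735) (nat_lit 3) (.e (nat_lit 98359) (nat_lit 26) (.e (nat_lit 426215) (nat_lit 9) (.e (nat_lit 426140) (nat_lit 3) .nil)))))) (.g (nat_lit 1) (.e (nat_lit 226173) (nat_lit 0) .nil) .nil)))) (.nd (nat_lit 9) 
(.lf (nat_lit 521597) (.g (nat_lit 3121) (.e (nat_lit 204845) (nat_lit 24) (.e (nat_lit 319529) (nat_lit 16) (.e (nat_lit 286733) (nat_lit 2) (.e (nat_lit 90170) (nat_lit 13) (.e (nat_lit 172092) (nat_lit 9) .nil))))) (.g (nat_lit 0) (.e (nat_lit 225808) (nat_lit 0) .nil) .nil))) 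
(.lf (nat_lit 522109) (.g (nat_lit 2464) (.e (nat_lit 204846) (nat_lit 24) (.e (nat_lit 319534) (nat_lit 16) (.e (nat_lit 286734) (nat_lit 3) (.e (nat_lit 98381) (nat_lit 31) (.e (nat_lit 474880) (nat_lit 23) .nil))))) (.g (nat_lit 1) (.e (nat_lit 226514) (nat_lit 0) .nil) .nil))))) (.nd (nat_lit 8) (.nd (nat_lit 9) 
(.lf (nat_lit 521469) (.g (nat_lit 2844) (.e (nat_lit 204838) (nat_lit 20) (.e (nat_lit 114716) (nat_lit 22) (.e (nat_lit 90185) (nat_lit 17) (.e (nat_lit 237592) (nat_lit 3) (.e (nat_lit 204830) (nat_lit 18) (.e (nat_lit 57692) (nat_lit 156) (.e (nat_lit 163872) (nat_lit 3) .nil))))))) (.g (nat_lit 1) (.e (nat_lit 225574) (nat_lit 0) .nil) .nil))) 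
(.lf (nat_lit 521981) (.g (nat_lit 1733) (.e (nat_lit 204846) (nat_lit 24) (.e (nat_lit 319533) (nat_lit 16) (.e (nat_lit 286734) (nat_lit 3) (.e (nat_lit 98325) (nat_lit 17) .nil)))) (.g (nat_lit 0) (.e (nat_lit 226360) (nat_lit 0) .nil) .nil)))) (.nd (nat_lit 9) 
(.lf (nat_lit 521725) (.g (nat_lit 2026) (.e (nat_lit 204845) (nat_lit 24) (.e (nat_lit 319533) (nat_lit 16) (.e (nat_lit 286735) (nat_lit 3) (.e (nat_lit 98365) (nat_lit 26) .nil)))) (.g (nat_lit 0) (.e (nat_lit 225973) (nat_lit 0) .nil) .nil))) 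
(.lf (nat_lit 522237) (.g (nat_lit 3503) (.e (nat_lit 204849) (nat_lit 25) (.e (nat_lit 327717) (nat_lit 17) (.e (nat_lit 294928) (nat_lit 2) (.e (nat_lit 90176) (nat_lit 15) (.e (nat_lit 188450) (nat_lit 23) .nil))))) (.g (nat_lit 1) (.e (nat_lit 226709) (nat_lit 0) .nil) .nil))))))))))) 
(.nd (nat_lit 2) (.nd (nat_lit 3) (.nd (nat_lit 4) (.nd (nat_lit 5) (.nd (nat_lit 6) 
(.nd (nat_lit 7) (.nd (nat_lit 8) (.nd (nat_lit 9) 
(.lf (nat_lit 521219) (.g (nat_lit 2486) (.e (nat_lit 204837) (nat_lit 20) (.e (nat_lit 114719) (nat_lit 23) (.e (nat_lit 98384) (nat_lit 32) (.e (nat_lit 475177) (nat_lit 24) (.e (nat_lit 516120) (nat_lit 1) (.e (nat_lit 164330) (nat_lit 230) (.e (nat_lit 163872) (nat_lit 3) .nil))))))) (.g (nat_lit 1) (.e (nat_lit 225085) (nat_lit 0) .nil) .nil))) 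
(.lf (nat_lit 521731) (.g (nat_lit 3180) (.e (nat_lit 204845) (nat_lit 24) (.e (nat_lit 319533) (nat_lit 16) (.e (nat_lit 286735) (nat_lit 3) (.e (nat_lit 98381) (nat_lit 31) (.e (nat_lit 466981) (nat_lit 23) .nil))))) (.g (nat_lit 1) (.e (nat_lit 225980) (nat_lit 0) .nil) .nil)))) (.nd (nat_lit 9) 
(.lf (nat_lit 521475) (.g (nat_lit 3071) (.e (nat_lit 204838) (nat_lit 20) (.e (nat_lit 114716) (nat_lit 22) (.e (nat_lit 90185) (nat_lit 17) (.e (nat_lit 237594) (nat_lit 3) (.e (nat_lit 204830) (nat_lit 18) (.e (nat_lit 57692) (nat_lit 156) (.e (nat_lit 163872) (nat_lit 3) .nil))))))) (.g (nat_lit 1) (.e (nat_lit 225580) (nat_lit 0) .nil) .nil))) 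
(.lf (nat_lit 521987) (.g (nat_lit 2978) (.e (nat_lit 204846) (nat_lit 24) (.e (nat_lit 319533) (nat_lit 16) (.e (nat_lit 286734) (nat_lit 3) (.e (nat_lit 98354) (nat_lit 26) (.e (nat_lit 426270) (nat_lit 9) (.e (nat_lit 426139) (nat_lit 3) .nil)))))) (.g (nat_lit 1) (.e (nat_lit 226366) (nat_lit 0) .nil) .nil))))) (.nd (nat_lit 8) (.nd (nat_lit 9) 
(.lf (nat_lit 521347) (.g (nat_lit 4311) (.e (nat_lit 204838) (nat_lit 20) (.e (nat_lit 114698) (nat_lit 11) (.e (nat_lit 426139) (nat_lit 3) (.e (nat_lit 204861) (nat_lit 26) (.e (nat_lit 336076) (nat_lit 9) (.e (nat_lit 336324) (nat_lit 18) .nil)))))) (.g (nat_lit 1) (.e (nat_lit 225326) (nat_lit 0) .nil) .nil))) 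
(.lf (nat_lit 521859) (.g (nat_lit 2792) (.e (nat_lit 204846) (nat_lit 24) (.e (nat_lit 319530) (nat_lit 16) (.e (nat_lit 286735) (nat_lit 3) (.e (nat_lit 98367) (nat_lit 27) (.e (nat_lit 434183) (nat_lit 8) (.e (nat_lit 7936) (nat_lit 168) .nil)))))) (.g (nat_lit 1) (.e (nat_lit 226179) (nat_lit 0) .nil) .nil)))) (.nd (nat_lit 9) 
(.lf (nat_lit 521603) (.g (nat_lit 1827) (.e (nat_lit 204845) (nat_lit 24) (.e (nat_lit 319529) (nat_lit 16) (.e (nat_lit 286735) (nat_lit 3) (.e (nat_lit 98350) (nat_lit 24) (.e (nat_lit 417536) (nat_lit 8) (.e (nat_lit 303118) (nat_lit 3) .nil)))))) (.g (nat_lit 1) (.e (nat_lit 225818) (nat_lit 0) .nil) .nil))) 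
(.lf (nat_lit 522115) (.g (nat_lit 3995) (.e (nat_lit 204846) (nat_lit 24) (.e (nat_lit 319534) (nat_lit 16) (.e (nat_lit 286735) (nat_lit 3) (.e (nat_lit 98350) (nat_lit 24) (.e (nat_lit 409603) (nat_lit 0) (.e (nat_lit 5626) (nat_lit 312) (.e (nat_lit 2685) (nat_lit 168) .nil))))))) (.g (nat_lit 1) (.e (nat_lit 226520) (nat_lit 0) .nil) .nil)))))) 
(.nd (nat_lit 7) (.nd (nat_lit 8) (.nd (nat_lit 9) 
(.lf (nat_lit 521283) (.g (nat_lit 1855) (.e (nat_lit 204838) (nat_lit 20) (.e (nat_lit 114697) (nat_lit 11) (.e (nat_lit 426139) (nat_lit 3) (.e (nat_lit 204859) (nat_lit 26) (.e (nat_lit 336118) (nat_lit 9) (.e (nat_lit 336321) (nat_lit 18) .nil)))))) (.g (nat_lit 1) (.e (nat_lit 225199) (nat_lit 0) .nil) .nil))) 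
(.lf (nat_lit 521795) (.g (nat_lit 2002) (.e (nat_lit 204846) (nat_lit 24) (.e (nat_lit 319528) (nat_lit 16) (.e (nat_lit 286735) (nat_lit 3) (.e (nat_lit 98365) (nat_lit 26) (.e (nat_lit 426187) (nat_lit 9) (.e (nat_lit 426131) (nat_lit 3) .nil)))))) (.g (nat_lit 1) (.e (nat_lit 226087) (nat_lit 0) .nil) .nil)))) (.nd (nat_lit 9) 
(.lf (nat_lit 521539) (.g (nat_lit 3003) (.e (nat_lit 204838) (nat_lit 20) (.e (nat_lit 114719) (nat_lit 23) (.e (nat_lit 98366) (nat_lit 27) (.e (nat_lit 434232) (nat_lit 23) (.e (nat_lit 532503) (nat_lit 1) (.e (nat_lit 57688) (nat_lit 156) (.e (nat_lit 163873) (nat_lit 3) .nil))))))) (.g (nat_lit 1) (.e (nat_lit 225690) (nat_lit 0) .nil) .nil))) 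
(.lf (nat_lit 522051) (.g (nat_lit 2245) (.e (nat_lit 204846) (nat_lit 24) (.e (nat_lit 319533) (nat_lit 16) (.e (nat_lit 286735) (nat_lit 3) (.e (nat_lit 98369) (nat_lit 28) (.e (nat_lit 450304) (nat_lit 23) .nil))))) (.g (nat_lit 1) (.e (nat_lit 226436) (nat_lit 0) .nil) .nil))))) (.nd (nat_lit 8) (.nd (nat_lit 9) 
(.lf (nat_lit 521411) (.g (nat_lit 3260) (.e (nat_lit 204838) (nat_lit 20) (.e (nat_lit 114715) (nat_lit 22) (.e (nat_lit 90170) (nat_lit 13) (.e (nat_lit 172065) (nat_lit 3) (.e (nat_lit 204830) (nat_lit 18) (.e (nat_lit 57690) (nat_lit 156) (.e (nat_lit 163872) (nat_lit 3) .nil))))))) (.g (nat_lit 1) (.e (nat_lit 225459) (nat_lit 0) .nil) .nil))) 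
(.lf (nat_lit 521923) (.g (nat_lit 4334) (.e (nat_lit 204846) (nat_lit 24) (.e (nat_lit 319531) (nat_lit 16) (.e (nat_lit 286735) (nat_lit 3) (.e (nat_lit 98367) (nat_lit 27) (.e (nat_lit 434208) (nat_lit 18) (.e (nat_lit 4423) (nat_lit 261) (.e (nat_lit 163875) (nat_lit 3) .nil))))))) (.g (nat_lit 1) (.e (nat_lit 226256) (nat_lit 0) .nil) .nil)))) (.nd (nat_lit 9) 
(.lf (nat_lit 521667) (.g (nat_lit 2484) (.e (nat_lit 204845) (nat_lit 24) (.e (nat_lit 319530) (nat_lit 16) (.e (nat_lit 286735) (nat_lit 3) (.e (nat_lit 98380) (nat_lit 31) (.e (nat_lit 474880) (nat_lit 23) .nil))))) (.g (nat_lit 1) (.e (nat_lit 225900) (nat_lit 0) .nil) .nil))) 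
(.lf (nat_lit 522179) (.g (nat_lit 357) (.e (nat_lit 204848) (nat_lit 25) (.e (nat_lit 327715) (nat_lit 16) (.e (nat_lit 286735) (nat_lit 3) .nil))) (.g (nat_lit 0) (.e (nat_lit 226603) (nat_lit 0) .nil) .nil))))))) (.nd (nat_lit 6) (.nd (nat_lit 7) (.nd (nat_lit 8) (.nd (nat_lit 9) 
(.lf (nat_lit 521251) (.g (nat_lit 1089) (.e (nat_lit 204838) (nat_lit 20) (.e (nat_lit 114695) (nat_lit 11) (.e (nat_lit 426129) (nat_lit 3) (.e (nat_lit 204878) (nat_lit 31) (.e (nat_lit 384768) (nat_lit 3) .nil))))) (.g (nat_lit 1) (.e (nat_lit 225128) (nat_lit 0) .nil) .nil))) 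
(.lf (nat_lit 521763) (.g (nat_lit 468) (.e (nat_lit 204846) (nat_lit 24) (.e (nat_lit 319504) (nat_lit 10) (.e (nat_lit 5714) (nat_lit 312) .nil))) (.g (nat_lit 0) (.e (nat_lit 226031) (nat_lit 0) .nil) .nil)))) (.nd (nat_lit 9) 
(.lf (nat_lit 521507) (.g (nat_lit 4951) (.e (nat_lit 204838) (nat_lit 20) (.e (nat_lit 114719) (nat_lit 23) (.e (nat_lit 98334) (nat_lit 18) (.e (nat_lit 164330) (nat_lit 230) (.e (nat_lit 163869) (nat_lit 2) (.e (nat_lit 196656) (nat_lit 11) (.e (nat_lit 16416) (nat_lit 3) .nil))))))) (.g (nat_lit 1) (.e (nat_lit 225634) (nat_lit 0) .nil) .nil))) 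
(.lf (nat_lit 522019) (.g (nat_lit 1846) (.e (nat_lit 204846) (nat_lit 24) (.e (nat_lit 319533) (nat_lit 16) (.e (nat_lit 286735) (nat_lit 3) (.e (nat_lit 98355) (nat_lit 26) .nil)))) (.g (nat_lit 0) (.e (nat_lit 226404) (nat_lit 0) .nil) .nil))))) (.nd (nat_lit 8) (.nd (nat_lit 9) 
(.lf (nat_lit 521379) (.g (nat_lit 3143) (.e (nat_lit 204838) (nat_lit 20) (.e (nat_lit 114714) (nat_lit 22) (.e (nat_lit 90172) (nat_lit 14) (.e (nat_lit 180244) (nat_lit 5) (.e (nat_lit 532503) (nat_lit 1) (.e (nat_lit 57687) (nat_lit 156) (.e (nat_lit 163872) (nat_lit 3) .nil))))))) (.g (nat_lit 1) (.e (nat_lit 225404) (nat_lit 0) .nil) .nil))) 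
(.lf (nat_lit 521891) (.g (nat_lit 1910) (.e (nat_lit 204846) (nat_lit 24) (.e (nat_lit 319531) (nat_lit 16) (.e (nat_lit 286735) (nat_lit 3) (.e (nat_lit 98334) (nat_lit 18) .nil)))) (.g (nat_lit 0) (.e (nat_lit 226224) (nat_lit 0) .nil) .nil)))) (.nd (nat_lit 9) 
(.lf (nat_lit 521635) (.g (nat_lit 3069) (.e (nat_lit 204845) (nat_lit 24) (.e (nat_lit 319530) (nat_lit 16) (.e (nat_lit 286733) (nat_lit 2) (.e (nat_lit 90170) (nat_lit 13) (.e (nat_lit 172094) (nat_lit 9) .nil))))) (.g (nat_lit 0) (.e (nat_lit 225868) (nat_lit 0) .nil) .nil))) 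
(.lf (nat_lit 522147) (.g (nat_lit 3016) (.e (nat_lit 204846) (nat_lit 24) (.e (nat_lit 319534) (nat_lit 16) (.e (nat_lit 286735) (nat_lit 3) (.e (nat_lit 98366) (nat_lit 27) (.e (nat_lit 442112) (nat_lit 8) (.e (nat_lit 2685) (nat_lit 168) .nil)))))) (.g (nat_lit 1) (.e (nat_lit 226552) (nat_lit 0) .nil) .nil)))))) (.nd (nat_lit 7) (.nd (nat_lit 8) (.nd (nat_lit 9) 
(.lf (nat_lit 521315) (.g (nat_lit 1793) (.e (nat_lit 204838) (nat_lit 20) (.e (nat_lit 114698) (nat_lit 11) (.e (nat_lit 426133) (nat_lit 3) (.e (nat_lit 204867) (nat_lit 28) .nil)))) (.g (nat_lit 0) (.e (nat_lit 225287) (nat_lit 0) .nil) .nil))) 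
(.lf (nat_lit 521827) (.g (nat_lit 1396) (.e (nat_lit 204846) (nat_lit 24) (.e (nat_lit 319529) (nat_lit 16) (.e (nat_lit 286735) (nat_lit 3) (.e (nat_lit 98380) (nat_lit 31) .nil)))) (.g (nat_lit 0) (.e (nat_lit 226138) (nat_lit 0) .nil) .nil)))) (.nd (nat_lit 9) 
(.lf (nat_lit 521571) (.g (nat_lit 3228) (.e (nat_lit 204838) (nat_lit 20) (.e (nat_lit 114719) (nat_lit 23) (.e (nat_lit 98386) (nat_lit 32) (.e (nat_lit 475179) (nat_lit 24) (.e (nat_lit 516120) (nat_lit 1) (.e (nat_lit 164332) (nat_lit 230) (.e (nat_lit 163874) (nat_lit 3) .nil))))))) (.g (nat_lit 1) (.e (nat_lit 225735) (nat_lit 0) .nil) .nil))) 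
(.lf (nat_lit 522083) (.g (nat_lit 1817) (.e (nat_lit 204846) (nat_lit 24) (.e (nat_lit 319534) (nat_lit 16) (.e (nat_lit 286733) (nat_lit 2) (.e (nat_lit 90184) (nat_lit 17) .nil)))) (.g (nat_lit 0) (.e (nat_lit 226487) (nat_lit 0) .nil) .nil))))) (.nd (nat_lit 8) (.nd (nat_lit 9) 
(.lf (nat_lit 521443) (.g (nat_lit 2223) (.e (nat_lit 204838) (nat_lit 20) (.e (nat_lit 114716) (nat_lit 22) (.e (nat_lit 90172) (nat_lit 14) (.e (nat_lit 180244) (nat_lit 5) (.e (nat_lit 532502) (nat_lit 1) (.e (nat_lit 57692) (nat_lit 156) (.e (nat_lit 163872) (nat_lit 3) .nil))))))) (.g (nat_lit 1) (.e (nat_lit 225513) (nat_lit 0) .nil) .nil))) 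
(.lf (nat_lit 521955) (.g (nat_lit 2433) (.e (nat_lit 204846) (nat_lit 24) (.e (nat_lit 319532) (nat_lit 16) (.e (nat_lit 286735) (nat_lit 3) (.e (nat_lit 98369) (nat_lit 28) (.e (nat_lit 442426) (nat_lit 23) .nil))))) (.g (nat_lit 1) (.e (nat_lit 226309) (nat_lit 0) .nil) .nil)))) (.nd (nat_lit 9) 
(.lf (nat_lit 521699) (.g (nat_lit 3020) (.e (nat_lit 204845) (nat_lit 24) (.e (nat_lit 319531) (nat_lit 16) (.e (nat_lit 286735) (nat_lit 3) (.e (nat_lit 98363) (nat_lit 26) (.e (nat_lit 426230) (nat_lit 9) (.e (nat_lit 433920) (nat_lit 3) .nil)))))) (.g (nat_lit 1) (.e (nat_lit 225943) (nat_lit 0) .nil) .nil))) 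
(.lf (nat_lit 522211) (.g (nat_lit 1765) (.e (nat_lit 204849) (nat_lit 25) (.e (nat_lit 327699) (nat_lit 8) (.e (nat_lit 303119) (nat_lit 3) (.e (nat_lit 204846) (nat_lit 24) .nil)))) (.g (nat_lit 0) (.e (nat_lit 226662) (nat_lit 0) .nil) .nil)))))))) (.nd (nat_lit 5) (.nd (nat_lit 6) (.nd (nat_lit 7) (.nd (nat_lit 8) (.nd (nat_lit 9) 
(.lf (nat_lit 521235) (.g (nat_lit 3588) (.e (nat_lit 204838) (nat_lit 20) (.e (nat_lit 114694) (nat_lit 11) (.e (nat_lit 426133) (nat_lit 3) (.e (nat_lit 204861) (nat_lit 26) (.e (nat_lit 336088) (nat_lit 9) (.e (nat_lit 336324) (nat_lit 18) .nil)))))) (.g (nat_lit 1) (.e (nat_lit 225110) (nat_lit 0) .nil) .nil))) 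
(.lf (nat_lit 521747) (.g (nat_lit 2827) (.e (nat_lit 204845) (nat_lit 24) (.e (nat_lit 319535) (nat_lit 17) (.e (nat_lit 294927) (nat_lit 2) (.e (nat_lit 90176) (nat_lit 15) (.e (nat_lit 188450) (nat_lit 23) .nil))))) (.g (nat_lit 1) (.e (nat_lit 226002) (nat_lit 0) .nil) .nil)))) (.nd (nat_lit 9) 
(.lf (nat_lit 521491) (.g (nat_lit 4544) (.e (nat_lit 204838) (nat_lit 20) (.e (nat_lit 114718) (nat_lit 23) (.e (nat_lit 98384) (nat_lit 32) (.e (nat_lit 475177) (nat_lit 24) (.e (nat_lit 516115) (nat_lit 1) (.e (nat_lit 164325) (nat_lit 230) (.e (nat_lit 163875) (nat_lit 3) .nil))))))) (.g (nat_lit 1) (.e (nat_lit 225611) (nat_lit 0) .nil) .nil))) 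
(.lf (nat_lit 522003) (.g (nat_lit 1425) (.e (nat_lit 204846) (nat_lit 24) (.e (nat_lit 319533) (nat_lit 16) (.e (nat_lit 286734) (nat_lit 3) (.e (nat_lit 98382) (nat_lit 31) .nil)))) (.g (nat_lit 0) (.e (nat_lit 226382) (nat_lit 0) .nil) .nil))))) (.nd (nat_lit 8) (.nd (nat_lit 9) 
(.lf (nat_lit 521363) (.g (nat_lit 1487) (.e (nat_lit 204838) (nat_lit 20) (.e (nat_lit 114714) (nat_lit 22) (.e (nat_lit 90170) (nat_lit 13) (.e (nat_lit 172065) (nat_lit 3) .nil)))) (.g (nat_lit 0) (.e (nat_lit 225380) (nat_lit 0) .nil) .nil))) 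
(.lf (nat_lit 521875) (.g (nat_lit 1568) (.e (nat_lit 204846) (nat_lit 24) (.e (nat_lit 319531) (nat_lit 16) (.e (nat_lit 286733) (nat_lit 2) (.e (nat_lit 90168) (nat_lit 13) .nil)))) (.g (nat_lit 0) (.e (nat_lit 226207) (nat_lit 0) .nil) .nil)))) (.nd (nat_lit 9) 
(.lf (nat_lit 521619) (.g (nat_lit 2046) (.e (nat_lit 204845) (nat_lit 24) (.e (nat_lit 319529) (nat_lit 16) (.e (nat_lit 286735) (nat_lit 3) (.e (nat_lit 98380) (nat_lit 31) (.e (nat_lit 474880) (nat_lit 23) .nil))))) (.g (nat_lit 1) (.e (nat_lit 225840) (nat_lit 0) .nil) .nil))) 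
(.lf (nat_lit 522131) (.g (nat_lit 1958) (.e (nat_lit 204846) (nat_lit 24) (.e (nat_lit 319534) (nat_lit 16) (.e (nat_lit 286735) (nat_lit 3) (.e (nat_lit 98362) (nat_lit 26) .nil)))) (.g (nat_lit 0) (.e (nat_lit 226536) (nat_lit 0) .nil) .nil)))))) (.nd (nat_lit 7) (.nd (nat_lit 8) (.nd (nat_lit 9) 
(.lf (nat_lit 521299) (.g (nat_lit 639) (.e (nat_lit 204838) (nat_lit 20) (.e (nat_lit 114698) (nat_lit 11) (.e (nat_lit 426123) (nat_lit 2) .nil))) (.g (nat_lit 0) (.e (nat_lit 225244) (nat_lit 0) .nil) .nil))) 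
(.lf (nat_lit 521811) (.g (nat_lit 3038) (.e (nat_lit 204846) (nat_lit 24) (.e (nat_lit 319529) (nat_lit 16) (.e (nat_lit 286733) (nat_lit 2) (.e (nat_lit 90170) (nat_lit 13) (.e (nat_lit 172095) (nat_lit 9) .nil))))) (.g (nat_lit 0) (.e (nat_lit 226109) (nat_lit 0) .nil) .nil)))) (.nd (nat_lit 9) 
(.lf (nat_lit 521555) (.g (nat_lit 4373) (.e (nat_lit 204838) (nat_lit 20) (.e (nat_lit 114719) (nat_lit 23) (.e (nat_lit 98384) (nat_lit 32) (.e (nat_lit 475177) (nat_lit 24) (.e (nat_lit 516117) (nat_lit 1) (.e (nat_lit 164330) (nat_lit 230) (.e (nat_lit 163872) (nat_lit 3) .nil))))))) (.g (nat_lit 1) (.e (nat_lit 225717) (nat_lit 0) .nil) .nil))) 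
(.lf (nat_lit 522067) (.g (nat_lit 1093) (.e (nat_lit 204846) (nat_lit 24) (.e (nat_lit 319534) (nat_lit 16) (.e (nat_lit 286724) (nat_lit 0) .nil))) (.g (nat_lit 0) (.e (nat_lit 226455) (nat_lit 0) .nil) .nil))))) (.nd (nat_lit 8) (.nd (nat_lit 9) 
(.lf (nat_lit 521427) (.g (nat_lit 3036) (.e (nat_lit 204838) (nat_lit 20) (.e (nat_lit 114715) (nat_lit 22) (.e (nat_lit 90170) (nat_lit 13) (.e (nat_lit 172067) (nat_lit 3) (.e (nat_lit 204830) (nat_lit 18) (.e (nat_lit 57692) (nat_lit 156) (.e (nat_lit 163872) (nat_lit 3) .nil))))))) (.g (nat_lit 1) (.e (nat_lit 225482) (nat_lit 0) .nil) .nil))) 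
(.lf (nat_lit 521939) (.g (nat_lit 4022) (.e (nat_lit 204846) (nat_lit 24) (.e (nat_lit 319532) (nat_lit 16) (.e (nat_lit 286733) (nat_lit 2) (.e (nat_lit 90170) (nat_lit 13) (.e (nat_lit 172094) (nat_lit 9) (.e (nat_lit 426140) (nat_lit 3) .nil)))))) (.g (nat_lit 1) (.e (nat_lit 226284) (nat_lit 0) .nil) .nil)))) (.nd (nat_lit 9) 
(.lf (nat_lit 521683) (.g (nat_lit 3093) (.e (nat_lit 204845) (nat_lit 24) (.e (nat_lit 319531) (nat_lit 16) (.e (nat_lit 286733) (nat_lit 2) (.e (nat_lit 90178) (nat_lit 15) (.e (nat_lit 196352) (nat_lit 23) .nil))))) (.g (nat_lit 1) (.e (nat_lit 225925) (nat_lit 0) .nil) .nil))) 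
(.lf (nat_lit 522195) (.g (nat_lit 2958) (.e (nat_lit 204849) (nat_lit 25) (.e (nat_lit 327698) (nat_lit 8) (.e (nat_lit 303119) (nat_lit 3) (.e (nat_lit 204855) (nat_lit 26) (.e (nat_lit 336226) (nat_lit 14) (.e (nat_lit 401428) (nat_lit 3) .nil)))))) (.g (nat_lit 1) (.e (nat_lit 226636) (nat_lit 0) .nil) .nil))))))) (.nd (nat_lit 6) (.nd (nat_lit 7) (.nd (nat_lit 8) (.nd (nat_lit 9) 
(.lf (nat_lit 521267) (.g (nat_lit 2091) (.e (nat_lit 204838) (nat_lit 20) (.e (nat_lit 114697) (nat_lit 11) (.e (nat_lit 426137) (nat_lit 3) (.e (nat_lit 204861) (nat_lit 26) (.e (nat_lit 336075) (nat_lit 9) (.e (nat_lit 336325) (nat_lit 18) .nil)))))) (.g (nat_lit 1) (.e (nat_lit 225180) (nat_lit 0) .nil) .nil))) 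
(.lf (nat_lit 521779) (.g (nat_lit 3986) (.e (nat_lit 204846) (nat_lit 24) (.e (nat_lit 319538) (nat_lit 19) (.e (nat_lit 311315) (nat_lit 3) (.e (nat_lit 204846) (nat_lit 24) (.e (nat_lit 319504) (nat_lit 10) (.e (nat_lit 5714) (nat_lit 312) (.e (nat_lit 2681) (nat_lit 168) .nil))))))) (.g (nat_lit 1) (.e (nat_lit 226067) (nat_lit 0) .nil) .nil)))) (.nd (nat_lit 9) 
(.lf (nat_lit 521523) (.g (nat_lit 1745) (.e (nat_lit 204838) (nat_lit 20) (.e (nat_lit 114719) (nat_lit 23) (.e (nat_lit 98365) (nat_lit 26) (.e (nat_lit 426137) (nat_lit 3) (.e (nat_lit 204831) (nat_lit 18) .nil))))) (.g (nat_lit 0) (.e (nat_lit 225668) (nat_lit 0) .nil) .nil))) 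
(.lf (nat_lit 522035) (.g (nat_lit 2967) (.e (nat_lit 204846) (nat_lit 24) (.e (nat_lit 319533) (nat_lit 16) (.e (nat_lit 286735) (nat_lit 3) (.e (nat_lit 98363) (nat_lit 26) (.e (nat_lit 426262) (nat_lit 9) (.e (nat_lit 426129) (nat_lit 3) .nil)))))) (.g (nat_lit 1) (.e (nat_lit 226420) (nat_lit 0) .nil) .nil))))) (.nd (nat_lit 8) (.nd (nat_lit 9) 
(.lf (nat_lit 521395) (.g (nat_lit 4215) (.e (nat_lit 204838) (nat_lit 20) (.e (nat_lit 114714) (nat_lit 22) (.e (nat_lit 90174) (nat_lit 14) (.e (nat_lit 180243) (nat_lit 5) (.e (nat_lit 532502) (nat_lit 1) (.e (nat_lit 57692) (nat_lit 156) (.e (nat_lit 163874) (nat_lit 3) .nil))))))) (.g (nat_lit 1) (.e (nat_lit 225432) (nat_lit 0) .nil) .nil))) 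
(.lf (nat_lit 521907) (.g (nat_lit 2394) (.e (nat_lit 204846) (nat_lit 24) (.e (nat_lit 319531) (nat_lit 16) (.e (nat_lit 286735) (nat_lit 3) (.e (nat_lit 98363) (nat_lit 26) (.e (nat_lit 426225) (nat_lit 9) (.e (nat_lit 426131) (nat_lit 3) .nil)))))) (.g (nat_lit 1) (.e (nat_lit 226240) (nat_lit 0) .nil) .nil)))) (.nd (nat_lit 9) 
(.lf (nat_lit 521651) (.g (nat_lit 2417) (.e (nat_lit 204845) (nat_lit 24) (.e (nat_lit 319530) (nat_lit 16) (.e (nat_lit 286735) (nat_lit 3) (.e (nat_lit 98363) (nat_lit 26) (.e (nat_lit 426228) (nat_lit 9) (.e (nat_lit 433920) (nat_lit 3) .nil)))))) (.g (nat_lit 1) (.e (nat_lit 225884) (nat_lit 0) .nil) .nil))) 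
(.lf (nat_lit 522163) (.g (nat_lit 2024) (.e (nat_lit 204846) (nat_lit 24) (.e (nat_lit 327424) (nat_lit 16) (.e (nat_lit 286735) (nat_lit 3) (.e (nat_lit 98367) (nat_lit 27) (.e (nat_lit 442112) (nat_lit 8) (.e (nat_lit 2684) (nat_lit 168) .nil)))))) (.g (nat_lit 1) (.e (nat_lit 226569) (nat_lit 0) .nil) .nil)))))) (.nd (nat_lit 7) (.nd (nat_lit 8) (.nd (nat_lit 9) 
(.lf (nat_lit 521331) (.g (nat_lit 3646) (.e (nat_lit 204838) (nat_lit 20) (.e (nat_lit 114698) (nat_lit 11) (.e (nat_lit 426138) (nat_lit 3) (.e (nat_lit 204861) (nat_lit 26) (.e (nat_lit 336076) (nat_lit 9) (.e (nat_lit 336324) (nat_lit 18) .nil)))))) (.g (nat_lit 1) (.e (nat_lit 225308) (nat_lit 0) .nil) .nil))) 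
(.lf (nat_lit 521843) (.g (nat_lit 2047) (.e (nat_lit 204846) (nat_lit 24) (.e (nat_lit 319530) (nat_lit 16) (.e (nat_lit 286733) (nat_lit 2) (.e (nat_lit 90185) (nat_lit 17) (.e (nat_lit 237605) (nat_lit 9) .nil))))) (.g (nat_lit 0) (.e (nat_lit 226163) (nat_lit 0) .nil) .nil)))) (.nd (nat_lit 9) 
(.lf (nat_lit 521587) (.g (nat_lit 4847) (.e (nat_lit 204845) (nat_lit 24) (.e (nat_lit 319538) (nat_lit 19) (.e (nat_lit 311315) (nat_lit 3) (.e (nat_lit 204846) (nat_lit 24) (.e (nat_lit 319538) (nat_lit 19) (.e (nat_lit 311315) (nat_lit 3) .nil)))))) (.g (nat_lit 1) (.e (nat_lit 225783) (nat_lit 0) .nil) .nil))) 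
(.lf (nat_lit 522099) (.g (nat_lit 3074) (.e (nat_lit 204846) (nat_lit 24) (.e (nat_lit 319534) (nat_lit 16) (.e (nat_lit 286734) (nat_lit 3) (.e (nat_lit 98358) (nat_lit 26) (.e (nat_lit 426227) (nat_lit 9) (.e (nat_lit 433920) (nat_lit 3) .nil)))))) (.g (nat_lit 1) (.e (nat_lit 226504) (nat_lit 0) .nil) .nil))))) (.nd (nat_lit 8) (.nd (nat_lit 9) 
(.lf (nat_lit 521459) (.g (nat_lit 3205) (.e (nat_lit 204838) (nat_lit 20) (.e (nat_lit 114716) (nat_lit 22) (.e (nat_lit 90174) (nat_lit 14) (.e (nat_lit 180243) (nat_lit 5) (.e (nat_lit 532503) (nat_lit 1) (.e (nat_lit 57687) (nat_lit 156) (.e (nat_lit 163872) (nat_lit 3) .nil))))))) (.g (nat_lit 1) (.e (nat_lit 225553) (nat_lit 0) .nil) .nil))) 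
(.lf (nat_lit 521971) (.g (nat_lit 2569) (.e (nat_lit 204846) (nat_lit 24) (.e (nat_lit 319533) (nat_lit 16) (.e (nat_lit 286733) (nat_lit 2) (.e (nat_lit 90167) (nat_lit 13) (.e (nat_lit 172096) (nat_lit 9) .nil))))) (.g (nat_lit 0) (.e (nat_lit 226348) (nat_lit 0) .nil) .nil)))) (.nd (nat_lit 9) 
(.lf (nat_lit 521715) (.g (nat_lit 3233) (.e (nat_lit 204845) (nat_lit 24) (.e (nat_lit 319531) (nat_lit 16) (.e (nat_lit 286735) (nat_lit 3) (.e (nat_lit 98382) (nat_lit 31) (.e (nat_lit 466981) (nat_lit 23) .nil))))) (.g (nat_lit 1) (.e (nat_lit 225959) (nat_lit 0) .nil) .nil))) 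
(.lf (nat_lit 522227) (.g (nat_lit 442) (.e (nat_lit 204849) (nat_lit 25) (.e (nat_lit 327708) (nat_lit 10) (.e (nat_lit 5293) (nat_lit 298) .nil))) (.g (nat_lit 0) (.e (nat_lit 226691) (nat_lit 0) .nil) .nil))))))))) (.nd (nat_lit 4) (.nd (nat_lit 5) (.nd (nat_lit 6) (.nd (nat_lit 7) (.nd (nat_lit 8) (.nd (nat_lit 9) 
(.lf (nat_lit 521227) (.g (nat_lit 2103) (.e (nat_lit 204838) (nat_lit 20) (.e (nat_lit 114694) (nat_lit 11) (.e (nat_lit 426133) (nat_lit 3) (.e (nat_lit 204861) (nat_lit 26) (.e (nat_lit 336074) (nat_lit 9) (.e (nat_lit 336324) (nat_lit 18) .nil)))))) (.g (nat_lit 1) (.e (nat_lit 225102) (nat_lit 0) .nil) .nil))) 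
(.lf (nat_lit 521739) (.g (nat_lit 445) (.e (nat_lit 204845) (nat_lit 24) (.e (nat_lit 319534) (nat_lit 16) (.e (nat_lit 286735) (nat_lit 3) .nil))) (.g (nat_lit 0) (.e (nat_lit 225993) (nat_lit 0) .nil) .nil)))) (.nd (nat_lit 9) 
(.lf (nat_lit 521483) (.g (nat_lit 3697) (.e (nat_lit 204838) (nat_lit 20) (.e (nat_lit 114718) (nat_lit 23) (.e (nat_lit 98366) (nat_lit 27) (.e (nat_lit 434231) (nat_lit 23) (.e (nat_lit 532499) (nat_lit 1) (.e (nat_lit 57688) (nat_lit 156) (.e (nat_lit 163875) (nat_lit 3) .nil))))))) (.g (nat_lit 1) (.e (nat_lit 225599) (nat_lit 0) .nil) .nil))) 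
(.lf (nat_lit 521995) (.g (nat_lit 2753) (.e (nat_lit 204846) (nat_lit 24) (.e (nat_lit 319533) (nat_lit 16) (.e (nat_lit 286734) (nat_lit 3) (.e (nat_lit 98365) (nat_lit 26) (.e (nat_lit 426200) (nat_lit 9) (.e (nat_lit 426131) (nat_lit 3) .nil)))))) (.g (nat_lit 1) (.e (nat_lit 226374) (nat_lit 0) .nil) .nil))))) (.nd (nat_lit 8) (.nd (nat_lit 9) 
(.lf (nat_lit 521355) (.g (nat_lit 2271) (.e (nat_lit 204838) (nat_lit 20) (.e (nat_lit 114698) (nat_lit 11) (.e (nat_lit 426139) (nat_lit 3) (.e (nat_lit 204877) (nat_lit 31) (.e (nat_lit 384768) (nat_lit 3) .nil))))) (.g (nat_lit 1) (.e (nat_lit 225334) (nat_lit 0) .nil) .nil))) 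
(.lf (nat_lit 521867) (.g (nat_lit 951) (.e (nat_lit 204846) (nat_lit 24) (.e (nat_lit 319531) (nat_lit 16) (.e (nat_lit 286720) (nat_lit 0) .nil))) (.g (nat_lit 0) (.e (nat_lit 226188) (nat_lit 0) .nil) .nil)))) (.nd (nat_lit 9) 
(.lf (nat_lit 521611) (.g (nat_lit 2442) (.e (nat_lit 204845) (nat_lit 24) (.e (nat_lit 319529) (nat_lit 16) (.e (nat_lit 286735) (nat_lit 3) (.e (nat_lit 98365) (nat_lit 26) (.e (nat_lit 426200) (nat_lit 9) (.e (nat_lit 426131) (nat_lit 3) .nil)))))) (.g (nat_lit 1) (.e (nat_lit 225829) (nat_lit 0) .nil) .nil))) 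
(.lf (nat_lit 522123) (.g (nat_lit 2458) (.e (nat_lit 204846) (nat_lit 24) (.e (nat_lit 319534) (nat_lit 16) (.e (nat_lit 286735) (nat_lit 3) (.e (nat_lit 98356) (nat_lit 26) (.e (nat_lit 433920) (nat_lit 9) (.e (nat_lit 426139) (nat_lit 3) .nil)))))) (.g (nat_lit 1) (.e (nat_lit 226528) (nat_lit 0) .nil) .nil)))))) (.nd (nat_lit 7) (.nd (nat_lit 8) (.nd (nat_lit 9) 
(.lf (nat_lit 521291) (.g (nat_lit 1486) (.e (nat_lit 204838) (nat_lit 20) (.e (nat_lit 114697) (nat_lit 11) (.e (nat_lit 426139) (nat_lit 3) (.e (nat_lit 204865) (nat_lit 28) (.e (nat_lit 360192) (nat_lit 3) .nil))))) (.g (nat_lit 1) (.e (nat_lit 225207) (nat_lit 0) .nil) .nil))) 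
(.lf (nat_lit 521803) (.g (nat_lit 2389) (.e (nat_lit 204846) (nat_lit 24) (.e (nat_lit 319528) (nat_lit 16) (.e (nat_lit 286735) (nat_lit 3) (.e (nat_lit 98369) (nat_lit 28) (.e (nat_lit 442425) (nat_lit 23) .nil))))) (.g (nat_lit 1) (.e (nat_lit 226095) (nat_lit 0) .nil) .nil)))) (.nd (nat_lit 9) 
(.lf (nat_lit 521547) (.g (nat_lit 3274) (.e (nat_lit 204838) (nat_lit 20) (.e (nat_lit 114719) (nat_lit 23) (.e (nat_lit 98367) (nat_lit 27) (.e (nat_lit 434232) (nat_lit 23) (.e (nat_lit 532504) (nat_lit 1) (.e (nat_lit 57690) (nat_lit 156) (.e (nat_lit 163875) (nat_lit 3) .nil))))))) (.g (nat_lit 1) (.e (nat_lit 225707) (nat_lit 0) .nil) .nil))) 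
(.lf (nat_lit 522059) (.g (nat_lit 2744) (.e (nat_lit 204846) (nat_lit 24) (.e (nat_lit 319533) (nat_lit 16) (.e (nat_lit 286735) (nat_lit 3) (.e (nat_lit 98380) (nat_lit 31) (.e (nat_lit 466980) (nat_lit 23) .nil))))) (.g (nat_lit 1) (.e (nat_lit 226446) (nat_lit 0) .nil) .nil))))) (.nd (nat_lit 8) (.nd (nat_lit 9) 
(.lf (nat_lit 521419) (.g (nat_lit 2403) (.e (nat_lit 204838) (nat_lit 20) (.e (nat_lit 114715) (nat_lit 22) (.e (nat_lit 90170) (nat_lit 13) (.e (nat_lit 172067) (nat_lit 3) (.e (nat_lit 204828) (nat_lit 18) (.e (nat_lit 57691) (nat_lit 156) (.e (nat_lit 163874) (nat_lit 3) .nil))))))) (.g (nat_lit 1) (.e (nat_lit 225468) (nat_lit 0) .nil) .nil))) 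
(.lf (nat_lit 521931) (.g (nat_lit 2633) (.e (nat_lit 204846) (nat_lit 24) (.e (nat_lit 319531) (nat_lit 16) (.e (nat_lit 286735) (nat_lit 3) (.e (nat_lit 98381) (nat_lit 31) (.e (nat_lit 466981) (nat_lit 23) .nil))))) (.g (nat_lit 1) (.e (nat_lit 226264) (nat_lit 0) .nil) .nil)))) (.nd (nat_lit 9) 
(.lf (nat_lit 521675) (.g (nat_lit 1526) (.e (nat_lit 204845) (nat_lit 24) (.e (nat_lit 319531) (nat_lit 16) (.e (nat_lit 286727) (nat_lit 0) (.e (nat_lit 1682) (nat_lit 117) .nil)))) (.g (nat_lit 0) (.e (nat_lit 225908) (nat_lit 0) .nil) .nil))) 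
(.lf (nat_lit 522187) (.g (nat_lit 2046) (.e (nat_lit 204849) (nat_lit 25) (.e (nat_lit 327698) (nat_lit 8) (.e (nat_lit 303118) (nat_lit 3) (.e (nat_lit 204846) (nat_lit 24) (.e (nat_lit 327424) (nat_lit 8) .nil))))) (.g (nat_lit 0) (.e (nat_lit 226628) (nat_lit 0) .nil) .nil))))))) (.nd (nat_lit 6) (.nd (nat_lit 7) (.nd (nat_lit 8) (.nd (nat_lit 9) 
(.lf (nat_lit 521259) (.g (nat_lit 2272) (.e (nat_lit 204838) (nat_lit 20) (.e (nat_lit 114697) (nat_lit 11) (.e (nat_lit 426133) (nat_lit 3) (.e (nat_lit 204861) (nat_lit 26) (.e (nat_lit 336075) (nat_lit 9) (.e (nat_lit 336322) (nat_lit 18) .nil)))))) (.g (nat_lit 1) (.e (nat_lit 225172) (nat_lit 0) .nil) .nil))) 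
(.lf (nat_lit 521771) (.g (nat_lit 380) (.e (nat_lit 204846) (nat_lit 24) (.e (nat_lit 319505) (nat_lit 10) (.e (nat_lit 5714) (nat_lit 312) .nil))) (.g (nat_lit 0) (.e (nat_lit 226043) (nat_lit 0) .nil) .nil)))) (.nd (nat_lit 9) 
(.lf (nat_lit 521515) (.g (nat_lit 3246) (.e (nat_lit 204838) (nat_lit 20) (.e (nat_lit 114719) (nat_lit 23) (.e (nat_lit 98356) (nat_lit 26) (.e (nat_lit 426436) (nat_lit 18) (.e (nat_lit 98334) (nat_lit 18) (.e (nat_lit 164330) (nat_lit 230) (.e (nat_lit 163872) (nat_lit 3) .nil))))))) (.g (nat_lit 1) (.e (nat_lit 225646) (nat_lit 0) .nil) .nil))) 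
(.lf (nat_lit 522027) (.g (nat_lit 2663) (.e (nat_lit 204846) (nat_lit 24) (.e (nat_lit 319533) (nat_lit 16) (.e (nat_lit 286735) (nat_lit 3) (.e (nat_lit 98359) (nat_lit 26) (.e (nat_lit 433920) (nat_lit 9) .nil))))) (.g (nat_lit 0) (.e (nat_lit 226412) (nat_lit 0) .nil) .nil))))) (.nd (nat_lit 8) (.nd (nat_lit 9) 
(.lf (nat_lit 521387) (.g (nat_lit 5673) (.e (nat_lit 204838) (nat_lit 20) (.e (nat_lit 114714) (nat_lit 22) (.e (nat_lit 90174) (nat_lit 14) (.e (nat_lit 180243) (nat_lit 5) (.e (nat_lit 532499) (nat_lit 1) (.e (nat_lit 57688) (nat_lit 156) (.e (nat_lit 163874) (nat_lit 3) .nil))))))) (.g (nat_lit 1) (.e (nat_lit 225420) (nat_lit 0) .nil) .nil))) 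
(.lf (nat_lit 521899) (.g (nat_lit 2766) (.e (nat_lit 204846) (nat_lit 24) (.e (nat_lit 319531) (nat_lit 16) (.e (nat_lit 286735) (nat_lit 3) (.e (nat_lit 98356) (nat_lit 26) (.e (nat_lit 426248) (nat_lit 9) .nil))))) (.g (nat_lit 0) (.e (nat_lit 226232) (nat_lit 0) .nil) .nil)))) (.nd (nat_lit 9) 
(.lf (nat_lit 521643) (.g (nat_lit 2515) (.e (nat_lit 204845) (nat_lit 24) (.e (nat_lit 319530) (nat_lit 16) (.e (nat_lit 286735) (nat_lit 3) (.e (nat_lit 98353) (nat_lit 25) (.e (nat_lit 417813) (nat_lit 9) (.e (nat_lit 311314) (nat_lit 3) .nil)))))) (.g (nat_lit 1) (.e (nat_lit 225876) (nat_lit 0) .nil) .nil))) 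
(.lf (nat_lit 522155) (.g (nat_lit 2800) (.e (nat_lit 204846) (nat_lit 24) (.e (nat_lit 319534) (nat_lit 16) (.e (nat_lit 286735) (nat_lit 3) (.e (nat_lit 98380) (nat_lit 31) (.e (nat_lit 466979) (nat_lit 23) .nil))))) (.g (nat_lit 1) (.e (nat_lit 226561) (nat_lit 0) .nil) .nil)))))) (.nd (nat_lit 7) (.nd (nat_lit 8) (.nd (nat_lit 9) 
(.lf (nat_lit 521323) (.g (nat_lit 2797) (.e (nat_lit 204838) (nat_lit 20) (.e (nat_lit 114698) (nat_lit 11) (.e (nat_lit 426137) (nat_lit 3) (.e (nat_lit 204861) (nat_lit 26) (.e (nat_lit 336078) (nat_lit 9) (.e (nat_lit 336324) (nat_lit 18) .nil)))))) (.g (nat_lit 1) (.e (nat_lit 225296) (nat_lit 0) .nil) .nil))) 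
(.lf (nat_lit 521835) (.g (nat_lit 1498) (.e (nat_lit 204846) (nat_lit 24) (.e (nat_lit 319530) (nat_lit 16) (.e (nat_lit 286727) (nat_lit 0) (.e (nat_lit 1742) (nat_lit 117) .nil)))) (.g (nat_lit 0) (.e (nat_lit 226148) (nat_lit 0) .nil) .nil)))) (.nd (nat_lit 9) 
(.lf (nat_lit 521579) (.g (nat_lit 1156) (.e (nat_lit 204845) (nat_lit 24) (.e (nat_lit 319505) (nat_lit 10) (.e (nat_lit 5714) (nat_lit 312) (.e (nat_lit 2681) (nat_lit 168) .nil)))) (.g (nat_lit 0) (.e (nat_lit 225769) (nat_lit 0) .nil) .nil))) 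
(.lf (nat_lit 522091) (.g (nat_lit 3547) (.e (nat_lit 204846) (nat_lit 24) (.e (nat_lit 319534) (nat_lit 16) (.e (nat_lit 286734) (nat_lit 3) (.e (nat_lit 98350) (nat_lit 24) (.e (nat_lit 409603) (nat_lit 0) (.e (nat_lit 5626) (nat_lit 312) (.e (nat_lit 2685) (nat_lit 168) .nil))))))) (.g (nat_lit 1) (.e (nat_lit 226496) (nat_lit 0) .nil) .nil))))) (.nd (nat_lit 8) (.nd (nat_lit 9) 
(.lf (nat_lit 521451) (.g (nat_lit 2965) (.e (nat_lit 204838) (nat_lit 20) (.e (nat_lit 114716) (nat_lit 22) (.e (nat_lit 90174) (nat_lit 14) (.e (nat_lit 180243) (nat_lit 5) (.e (nat_lit 532499) (nat_lit 1) (.e (nat_lit 57687) (nat_lit 156) (.e (nat_lit 163872) (nat_lit 3) .nil))))))) (.g (nat_lit 1) (.e (nat_lit 225532) (nat_lit 0) .nil) .nil))) 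
(.lf (nat_lit 521963) (.g (nat_lit 1259) (.e (nat_lit 204846) (nat_lit 24) (.e (nat_lit 319533) (nat_lit 16) (.e (nat_lit 286728) (nat_lit 0) .nil))) (.g (nat_lit 0) (.e (nat_lit 226323) (nat_lit 0) .nil) .nil)))) (.nd (nat_lit 9) 
(.lf (nat_lit 521707) (.g (nat_lit 3632) (.e (nat_lit 204845) (nat_lit 24) (.e (nat_lit 319531) (nat_lit 16) (.e (nat_lit 286735) (nat_lit 3) (.e (nat_lit 98367) (nat_lit 27) (.e (nat_lit 442112) (nat_lit 8) (.e (nat_lit 2684) (nat_lit 168) .nil)))))) (.g (nat_lit 1) (.e (nat_lit 225951) (nat_lit 0) .nil) .nil))) 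
(.lf (nat_lit 522219) (.g (nat_lit 3689) (.e (nat_lit 204849) (nat_lit 25) (.e (nat_lit 327699) (nat_lit 8) (.e (nat_lit 303119) (nat_lit 3) (.e (nat_lit 204863) (nat_lit 27) (.e (nat_lit 344068) (nat_lit 0) (.e (nat_lit 2682) (nat_lit 168) .nil)))))) (.g (nat_lit 1) (.e (nat_lit 226670) (nat_lit 0) .nil) .nil)))))))) 
(.nd (nat_lit 5) (.nd (nat_lit 6) (.nd (nat_lit 7) (.nd (nat_lit 8) (.nd (nat_lit 9) 
(.lf (nat_lit 521243) (.g (nat_lit 2521) (.e (nat_lit 204838) (nat_lit 20) (.e (nat_lit 114694) (nat_lit 11) (.e (nat_lit 426139) (nat_lit 3) (.e (nat_lit 204861) (nat_lit 26) (.e (nat_lit 336076) (nat_lit 9) (.e (nat_lit 336322) (nat_lit 18) .nil)))))) (.g (nat_lit 1) (.e (nat_lit 225118) (nat_lit 0) .nil) .nil))) 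
(.lf (nat_lit 521755) (.g (nat_lit 950) (.e (nat_lit 204846) (nat_lit 24) (.e (nat_lit 319490) (nat_lit 0) (.e (nat_lit 5245) (nat_lit 298) .nil))) (.g (nat_lit 0) (.e (nat_lit 226022) (nat_lit 0) .nil) .nil)))) (.nd (nat_lit 9) 
(.lf (nat_lit 521499) (.g (nat_lit 4411) (.e (nat_lit 204838) (nat_lit 20) (.e (nat_lit 114718) (nat_lit 23) (.e (nat_lit 98384) (nat_lit 32) (.e (nat_lit 475179) (nat_lit 24) (.e (nat_lit 516120) (nat_lit 1) (.e (nat_lit 164330) (nat_lit 230) (.e (nat_lit 163872) (nat_lit 3) .nil))))))) (.g (nat_lit 1) (.e (nat_lit 225622) (nat_lit 0) .nil) .nil))) 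
(.lf (nat_lit 522011) (.g (nat_lit 4232) (.e (nat_lit 204846) (nat_lit 24) (.e (nat_lit 319533) (nat_lit 16) (.e (nat_lit 286735) (nat_lit 3) (.e (nat_lit 98325) (nat_lit 17) (.e (nat_lit 6986) (nat_lit 377) (.e (nat_lit 1076) (nat_lit 81) (.e (nat_lit 5664) (nat_lit 312) (.e (nat_lit 2679) (nat_lit 168) .nil)))))))) (.g (nat_lit 1) (.e (nat_lit 226391) (nat_lit 0) .nil) .nil))))) 
(.nd (nat_lit 8) (.nd (nat_lit 9) 
(.lf (nat_lit 521371) (.g (nat_lit 1143) (.e (nat_lit 204838) (nat_lit 20) (.e (nat_lit 114714) (nat_lit 22) (.e (nat_lit 90172) (nat_lit 14) (.e (nat_lit 180244) (nat_lit 5) .nil)))) (.g (nat_lit 0) (.e (nat_lit 225389) (nat_lit 0) .nil) .nil))) 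
(.lf (nat_lit 521883) (.g (nat_lit 2209) (.e (nat_lit 204846) (nat_lit 24) (.e (nat_lit 319531) (nat_lit 16) (.e (nat_lit 286734) (nat_lit 3) (.e (nat_lit 98370) (nat_lit 28) (.e (nat_lit 442426) (nat_lit 23) .nil))))) (.g (nat_lit 1) (.e (nat_lit 226215) (nat_lit 0) .nil) .nil)))) (.nd (nat_lit 9) 
(.lf (nat_lit 521627) (.g (nat_lit 1693) (.e (nat_lit 204845) (nat_lit 24) (.e (nat_lit 319529) (nat_lit 16) (.e (nat_lit 286735) (nat_lit 3) (.e (nat_lit 98382) (nat_lit 31) (.e (nat_lit 474880) (nat_lit 23) .nil))))) (.g (nat_lit 1) (.e (nat_lit 225848) (nat_lit 0) .nil) .nil))) 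
(.lf (nat_lit 522139) (.g (nat_lit 2621) (.e (nat_lit 204846) (nat_lit 24) (.e (nat_lit 319534) (nat_lit 16) (.e (nat_lit 286735) (nat_lit 3) (.e (nat_lit 98364) (nat_lit 26) (.e (nat_lit 426199) (nat_lit 9) (.e (nat_lit 426131) (nat_lit 3) .nil)))))) (.g (nat_lit 1) (.e (nat_lit 226544) (nat_lit 0) .nil) .nil)))))) (.nd (nat_lit 7) (.nd (nat_lit 8) (.nd (nat_lit 9) 
(.lf (nat_lit 521307) (.g (nat_lit 2005) (.e (nat_lit 204838) (nat_lit 20) (.e (nat_lit 114698) (nat_lit 11) (.e (nat_lit 426133) (nat_lit 3) (.e (nat_lit 204859) (nat_lit 26) (.e (nat_lit 336118) (nat_lit 9) (.e (nat_lit 336323) (nat_lit 18) .nil)))))) (.g (nat_lit 1) (.e (nat_lit 225278) (nat_lit 0) .nil) .nil))) 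
(.lf (nat_lit 521819) (.g (nat_lit 1493) (.e (nat_lit 204846) (nat_lit 24) (.e (nat_lit 319529) (nat_lit 16) (.e (nat_lit 286735) (nat_lit 3) (.e (nat_lit 98363) (nat_lit 26) .nil)))) (.g (nat_lit 0) (.e (nat_lit 226121) (nat_lit 0) .nil) .nil)))) (.nd (nat_lit 9) 
(.lf (nat_lit 521563) (.g (nat_lit 3216) (.e (nat_lit 204838) (nat_lit 20) (.e (nat_lit 114719) (nat_lit 23) (.e (nat_lit 98384) (nat_lit 32) (.e (nat_lit 475179) (nat_lit 24) (.e (nat_lit 516119) (nat_lit 1) (.e (nat_lit 164327) (nat_lit 230) (.e (nat_lit 163873) (nat_lit 3) .nil))))))) (.g (nat_lit 1) (.e (nat_lit 225726) (nat_lit 0) .nil) .nil))) 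
(.lf (nat_lit 522075) (.g (nat_lit 1880) (.e (nat_lit 204846) (nat_lit 24) (.e (nat_lit 319534) (nat_lit 16) (.e (nat_lit 286732) (nat_lit 2) (.e (nat_lit 90173) (nat_lit 14) (.e (nat_lit 188160) (nat_lit 40) .nil))))) (.g (nat_lit 0) (.e (nat_lit 226469) (nat_lit 0) .nil) .nil))))) (.nd (nat_lit 8) (.nd (nat_lit 9) 
(.lf (nat_lit 521435) (.g (nat_lit 3209) (.e (nat_lit 204838) (nat_lit 20) (.e (nat_lit 114716) (nat_lit 22) (.e (nat_lit 90172) (nat_lit 14) (.e (nat_lit 180243) (nat_lit 5) (.e (nat_lit 532503) (nat_lit 1) (.e (nat_lit 57688) (nat_lit 156) (.e (nat_lit 163872) (nat_lit 3) .nil))))))) (.g (nat_lit 1) (.e (nat_lit 225496) (nat_lit 0) .nil) .nil))) 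
(.lf (nat_lit 521947) (.g (nat_lit 2436) (.e (nat_lit 204846) (nat_lit 24) (.e (nat_lit 319532) (nat_lit 16) (.e (nat_lit 286734) (nat_lit 3) (.e (nat_lit 98350) (nat_lit 24) (.e (nat_lit 409603) (nat_lit 0) .nil))))) (.g (nat_lit 0) (.e (nat_lit 226293) (nat_lit 0) .nil) .nil)))) (.nd (nat_lit 9) 
(.lf (nat_lit 521691) (.g (nat_lit 3959) (.e (nat_lit 204845) (nat_lit 24) (.e (nat_lit 319531) (nat_lit 16) (.e (nat_lit 286735) (nat_lit 3) (.e (nat_lit 98356) (nat_lit 26) (.e (nat_lit 426227) (nat_lit 9) (.e (nat_lit 433920) (nat_lit 3) .nil)))))) (.g (nat_lit 1) (.e (nat_lit 225933) (nat_lit 0) .nil) .nil))) 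
(.lf (nat_lit 522203) (.g (nat_lit 3642) (.e (nat_lit 204849) (nat_lit 25) (.e (nat_lit 327699) (nat_lit 8) (.e (nat_lit 303117) (nat_lit 2) (.e (nat_lit 196670) (nat_lit 14) (.e (nat_lit 73781) (nat_lit 32) (.e (nat_lit 2681) (nat_lit 168) .nil)))))) (.g (nat_lit 1) (.e (nat_lit 226651) (nat_lit 0) .nil) .nil))))))) (.nd (nat_lit 6) (.nd (nat_lit 7) (.nd (nat_lit 8) (.nd (nat_lit 9) 
(.lf (nat_lit 521275) (.g (nat_lit 1618) (.e (nat_lit 204838) (nat_lit 20) (.e (nat_lit 114697) (nat_lit 11) (.e (nat_lit 426138) (nat_lit 3) (.e (nat_lit 204861) (nat_lit 26) (.e (nat_lit 336075) (nat_lit 9) (.e (nat_lit 336322) (nat_lit 18) .nil)))))) (.g (nat_lit 1) (.e (nat_lit 225190) (nat_lit 0) .nil) .nil))) 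
(.lf (nat_lit 521787) (.g (nat_lit 2344) (.e (nat_lit 204846) (nat_lit 24) (.e (nat_lit 319528) (nat_lit 16) (.e (nat_lit 286735) (nat_lit 3) (.e (nat_lit 98350) (nat_lit 24) (.e (nat_lit 409603) (nat_lit 0) .nil))))) (.g (nat_lit 0) (.e (nat_lit 226079) (nat_lit 0) .nil) .nil)))) (.nd (nat_lit 9) 
(.lf (nat_lit 521531) (.g (nat_lit 2860) (.e (nat_lit 204838) (nat_lit 20) (.e (nat_lit 114719) (nat_lit 23) (.e (nat_lit 98365) (nat_lit 26) (.e (nat_lit 426139) (nat_lit 3) (.e (nat_lit 204830) (nat_lit 18) (.e (nat_lit 57691) (nat_lit 156) (.e (nat_lit 163872) (nat_lit 3) .nil))))))) (.g (nat_lit 1) (.e (nat_lit 225677) (nat_lit 0) .nil) .nil))) 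
(.lf (nat_lit 522043) (.g (nat_lit 1668) (.e (nat_lit 204846) (nat_lit 24) (.e (nat_lit 319533) (nat_lit 16) (.e (nat_lit 286735) (nat_lit 3) (.e (nat_lit 106240) (nat_lit 26) .nil)))) (.g (nat_lit 0) (.e (nat_lit 226428) (nat_lit 0) .nil) .nil))))) (.nd (nat_lit 8) (.nd (nat_lit 9) 
(.lf (nat_lit 521403) (.g (nat_lit 3598) (.e (nat_lit 204838) (nat_lit 20) (.e (nat_lit 114714) (nat_lit 22) (.e (nat_lit 90174) (nat_lit 14) (.e (nat_lit 180243) (nat_lit 5) (.e (nat_lit 532504) (nat_lit 1) (.e (nat_lit 57692) (nat_lit 156) (.e (nat_lit 163872) (nat_lit 3) .nil))))))) (.g (nat_lit 1) (.e (nat_lit 225444) (nat_lit 0) .nil) .nil))) 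
(.lf (nat_lit 521915) (.g (nat_lit 3588) (.e (nat_lit 204846) (nat_lit 24) (.e (nat_lit 319531) (nat_lit 16) (.e (nat_lit 286735) (nat_lit 3) (.e (nat_lit 98365) (nat_lit 26) (.e (nat_lit 426188) (nat_lit 9) (.e (nat_lit 426130) (nat_lit 3) .nil)))))) (.g (nat_lit 1) (.e (nat_lit 226248) (nat_lit 0) .nil) .nil)))) (.nd (nat_lit 9) 
(.lf (nat_lit 521659) (.g (nat_lit 2125) (.e (nat_lit 204845) (nat_lit 24) (.e (nat_lit 319530) (nat_lit 16) (.e (nat_lit 286735) (nat_lit 3) (.e (nat_lit 98368) (nat_lit 27) (.e (nat_lit 442112) (nat_lit 8) .nil))))) (.g (nat_lit 0) (.e (nat_lit 225892) (nat_lit 0) .nil) .nil))) 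
(.lf (nat_lit 522171) (.g (nat_lit 2527) (.e (nat_lit 204848) (nat_lit 25) (.e (nat_lit 327699) (nat_lit 8) (.e (nat_lit 303117) (nat_lit 2) (.e (nat_lit 196669) (nat_lit 14) (.e (nat_lit 73781) (nat_lit 32) .nil))))) (.g (nat_lit 0) (.e (nat_lit 226580) (nat_lit 0) .nil) .nil)))))) (.nd (nat_lit 7) (.nd (nat_lit 8) (.nd (nat_lit 9) 
(.lf (nat_lit 521339) (.g (nat_lit 1855) (.e (nat_lit 204838) (nat_lit 20) (.e (nat_lit 114698) (nat_lit 11) (.e (nat_lit 426138) (nat_lit 3) (.e (nat_lit 204877) (nat_lit 31) (.e (nat_lit 384768) (nat_lit 3) .nil))))) (.g (nat_lit 1) (.e (nat_lit 225317) (nat_lit 0) .nil) .nil))) 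
(.lf (nat_lit 521851) (.g (nat_lit 2347) (.e (nat_lit 204846) (nat_lit 24) (.e (nat_lit 319530) (nat_lit 16) (.e (nat_lit 286735) (nat_lit 3) (.e (nat_lit 98349) (nat_lit 24) (.e (nat_lit 417536) (nat_lit 8) .nil))))) (.g (nat_lit 0) (.e (nat_lit 226171) (nat_lit 0) .nil) .nil)))) (.nd (nat_lit 9) 
(.lf (nat_lit 521595) (.g (nat_lit 352) (.e (nat_lit 204845) (nat_lit 24) (.e (nat_lit 319529) (nat_lit 16) (.e (nat_lit 286733) (nat_lit 2) .nil))) (.g (nat_lit 0) (.e (nat_lit 225797) (nat_lit 0) .nil) .nil))) 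
(.lf (nat_lit 522107) (.g (nat_lit 1708) (.e (nat_lit 204846) (nat_lit 24) (.e (nat_lit 319534) (nat_lit 16) (.e (nat_lit 286734) (nat_lit 3) (.e (nat_lit 98378) (nat_lit 30) .nil)))) (.g (nat_lit 0) (.e (nat_lit 226512) (nat_lit 0) .nil) .nil))))) (.nd (nat_lit 8) (.nd (nat_lit 9) 
(.lf (nat_lit 521467) (.g (nat_lit 3154) (.e (nat_lit 204838) (nat_lit 20) (.e (nat_lit 114716) (nat_lit 22) (.e (nat_lit 90185) (nat_lit 17) (.e (nat_lit 237592) (nat_lit 3) (.e (nat_lit 204829) (nat_lit 18) (.e (nat_lit 57692) (nat_lit 156) (.e (nat_lit 163872) (nat_lit 3) .nil))))))) (.g (nat_lit 1) (.e (nat_lit 225572) (nat_lit 0) .nil) .nil))) 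
(.lf (nat_lit 521979) (.g (nat_lit 310) (.e (nat_lit 204846) (nat_lit 24) (.e (nat_lit 319533) (nat_lit 16) (.e (nat_lit 286734) (nat_lit 3) .nil))) (.g (nat_lit 0) (.e (nat_lit 226358) (nat_lit 0) .nil) .nil)))) (.nd (nat_lit 9) 
(.lf (nat_lit 521723) (.g (nat_lit 3847) (.e (nat_lit 204845) (nat_lit 24) (.e (nat_lit 319533) (nat_lit 16) (.e (nat_lit 286735) (nat_lit 3) (.e (nat_lit 98356) (nat_lit 26) (.e (nat_lit 426227) (nat_lit 9) .nil))))) (.g (nat_lit 0) (.e (nat_lit 225971) (nat_lit 0) .nil) .nil))) 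
(.lf (nat_lit 522235) (.g (nat_lit 3369) (.e (nat_lit 204849) (nat_lit 25) (.e (nat_lit 327716) (nat_lit 16) (.e (nat_lit 286733) (nat_lit 2) (.e (nat_lit 90176) (nat_lit 15) (.e (nat_lit 188450) (nat_lit 23) .nil))))) (.g (nat_lit 1) (.e (nat_lit 226707) (nat_lit 0) .nil) .nil)))))))))) 
(.nd (nat_lit 3) (.nd (nat_lit 4) (.nd (nat_lit 5) (.nd (nat_lit 6) (.nd (nat_lit 7) 
(.nd (nat_lit 8) (.nd (nat_lit 9) 
(.lf (nat_lit 521223) (.g (nat_lit 2866) (.e (nat_lit 204837) (nat_lit 20) (.e (nat_lit 114719) (nat_lit 23) (.e (nat_lit 98386) (nat_lit 32) (.e (nat_lit 475179) (nat_lit 24) (.e (nat_lit 516117) (nat_lit 1) (.e (nat_lit 164332) (nat_lit 230) (.e (nat_lit 163874) (nat_lit 3) .nil))))))) (.g (nat_lit 1) (.e (nat_lit 225089) (nat_lit 0) .nil) .nil))) 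
(.lf (nat_lit 521735) (.g (nat_lit 1999) (.e (nat_lit 204845) (nat_lit 24) (.e (nat_lit 319534) (nat_lit 16) (.e (nat_lit 286732) (nat_lit 2) (.e (nat_lit 90185) (nat_lit 17) (.e (nat_lit 237605) (nat_lit 9) .nil))))) (.g (nat_lit 0) (.e (nat_lit 225986) (nat_lit 0) .nil) .nil)))) (.nd (nat_lit 9) 
(.lf (nat_lit 521479) (.g (nat_lit 4298) (.e (nat_lit 204838) (nat_lit 20) (.e (nat_lit 114718) (nat_lit 23) (.e (nat_lit 98356) (nat_lit 26) (.e (nat_lit 426438) (nat_lit 18) (.e (nat_lit 98335) (nat_lit 18) (.e (nat_lit 164330) (nat_lit 230) (.e (nat_lit 163872) (nat_lit 3) .nil))))))) (.g (nat_lit 1) (.e (nat_lit 225594) (nat_lit 0) .nil) .nil))) 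
(.lf (nat_lit 521991) (.g (nat_lit 3111) (.e (nat_lit 204846) (nat_lit 24) (.e (nat_lit 319533) (nat_lit 16) (.e (nat_lit 286734) (nat_lit 3) (.e (nat_lit 98358) (nat_lit 26) (.e (nat_lit 426227) (nat_lit 9) (.e (nat_lit 433920) (nat_lit 3) .nil)))))) (.g (nat_lit 1) (.e (nat_lit 226370) (nat_lit 0) .nil) .nil))))) (.nd (nat_lit 8) (.nd (nat_lit 9) 
(.lf (nat_lit 521351) (.g (nat_lit 4356) (.e (nat_lit 204838) (nat_lit 20) (.e (nat_lit 114698) (nat_lit 11) (.e (nat_lit 426139) (nat_lit 3) (.e (nat_lit 204861) (nat_lit 26) (.e (nat_lit 336088) (nat_lit 9) (.e (nat_lit 336324) (nat_lit 18) .nil)))))) (.g (nat_lit 1) (.e (nat_lit 225330) (nat_lit 0) .nil) .nil))) 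
(.lf (nat_lit 521863) (.g (nat_lit 1627) (.e (nat_lit 204846) (nat_lit 24) (.e (nat_lit 319530) (nat_lit 16) (.e (nat_lit 286735) (nat_lit 3) (.e (nat_lit 98379) (nat_lit 31) .nil)))) (.g (nat_lit 0) (.e (nat_lit 226183) (nat_lit 0) .nil) .nil)))) (.nd (nat_lit 9) 
(.lf (nat_lit 521607) (.g (nat_lit 2479) (.e (nat_lit 204845) (nat_lit 24) (.e (nat_lit 319529) (nat_lit 16) (.e (nat_lit 286735) (nat_lit 3) (.e (nat_lit 98356) (nat_lit 26) (.e (nat_lit 433920) (nat_lit 9) .nil))))) (.g (nat_lit 0) (.e (nat_lit 225823) (nat_lit 0) .nil) .nil))) 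
(.lf (nat_lit 522119) (.g (nat_lit 2307) (.e (nat_lit 204846) (nat_lit 24) (.e (nat_lit 319534) (nat_lit 16) (.e (nat_lit 286735) (nat_lit 3) (.e (nat_lit 98355) (nat_lit 26) (.e (nat_lit 426256) (nat_lit 9) .nil))))) (.g (nat_lit 0) (.e (nat_lit 226524) (nat_lit 0) .nil) .nil)))))) (.nd (nat_lit 7) (.nd (nat_lit 8) (.nd (nat_lit 9) 
(.lf (nat_lit 521287) (.g (nat_lit 2710) (.e (nat_lit 204838) (nat_lit 20) (.e (nat_lit 114697) (nat_lit 11) (.e (nat_lit 426139) (nat_lit 3) (.e (nat_lit 204861) (nat_lit 26) (.e (nat_lit 336076) (nat_lit 9) (.e (nat_lit 336322) (nat_lit 18) .nil)))))) (.g (nat_lit 1) (.e (nat_lit 225203) (nat_lit 0) .nil) .nil))) 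
(.lf (nat_lit 521799) (.g (nat_lit 3051) (.e (nat_lit 204846) (nat_lit 24) (.e (nat_lit 319528) (nat_lit 16) (.e (nat_lit 286735) (nat_lit 3) (.e (nat_lit 98367) (nat_lit 27) (.e (nat_lit 434184) (nat_lit 8) (.e (nat_lit 2682) (nat_lit 168) .nil)))))) (.g (nat_lit 1) (.e (nat_lit 226091) (nat_lit 0) .nil) .nil)))) (.nd (nat_lit 9) 
(.lf (nat_lit 521543) (.g (nat_lit 3051) (.e (nat_lit 204838) (nat_lit 20) (.e (nat_lit 114719) (nat_lit 23) (.e (nat_lit 98367) (nat_lit 27) (.e (nat_lit 434231) (nat_lit 23) (.e (nat_lit 532483) (nat_lit 0) .nil))))) (.g (nat_lit 0) (.e (nat_lit 225694) (nat_lit 0) .nil) .nil))) 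
(.lf (nat_lit 522055) (.g (nat_lit 3763) (.e (nat_lit 204846) (nat_lit 24) (.e (nat_lit 319533) (nat_lit 16) (.e (nat_lit 286735) (nat_lit 3) (.e (nat_lit 98371) (nat_lit 28) (.e (nat_lit 442427) (nat_lit 23) .nil))))) (.g (nat_lit 1) (.e (nat_lit 226440) (nat_lit 0) .nil) .nil))))) (.nd (nat_lit 8) (.nd (nat_lit 9) 
(.lf (nat_lit 521415) (.g (nat_lit 4530) (.e (nat_lit 204838) (nat_lit 20) (.e (nat_lit 114715) (nat_lit 22) (.e (nat_lit 90170) (nat_lit 13) (.e (nat_lit 172065) (nat_lit 3) (.e (nat_lit 204830) (nat_lit 18) (.e (nat_lit 57692) (nat_lit 156) (.e (nat_lit 163874) (nat_lit 3) .nil))))))) (.g (nat_lit 1) (.e (nat_lit 225463) (nat_lit 0) .nil) .nil))) 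
(.lf (nat_lit 521927) (.g (nat_lit 1650) (.e (nat_lit 204846) (nat_lit 24) (.e (nat_lit 319531) (nat_lit 16) (.e (nat_lit 286735) (nat_lit 3) (.e (nat_lit 98379) (nat_lit 31) .nil)))) (.g (nat_lit 0) (.e (nat_lit 226260) (nat_lit 0) .nil) .nil)))) (.nd (nat_lit 9) 
(.lf (nat_lit 521671) (.g (nat_lit 3301) (.e (nat_lit 204845) (nat_lit 24) (.e (nat_lit 319530) (nat_lit 16) (.e (nat_lit 286735) (nat_lit 3) (.e (nat_lit 98382) (nat_lit 31) (.e (nat_lit 466981) (nat_lit 23) .nil))))) (.g (nat_lit 1) (.e (nat_lit 225904) (nat_lit 0) .nil) .nil))) 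
(.lf (nat_lit 522183) (.g (nat_lit 2510) (.e (nat_lit 204849) (nat_lit 25) (.e (nat_lit 327698) (nat_lit 8) (.e (nat_lit 303117) (nat_lit 2) (.e (nat_lit 196668) (nat_lit 14) (.e (nat_lit 73782) (nat_lit 32) (.e (nat_lit 2681) (nat_lit 168) .nil)))))) (.g (nat_lit 1) (.e (nat_lit 226621) (nat_lit 0) .nil) .nil))))))) (.nd (nat_lit 6) (.nd (nat_lit 7) (.nd (nat_lit 8) (.nd (nat_lit 9) 
(.lf (nat_lit 521255) (.g (nat_lit 1235) (.e (nat_lit 204838) (nat_lit 20) (.e (nat_lit 114696) (nat_lit 11) (.e (nat_lit 426129) (nat_lit 3) (.e (nat_lit 204878) (nat_lit 31) (.e (nat_lit 384768) (nat_lit 3) .nil))))) (.g (nat_lit 1) (.e (nat_lit 225134) (nat_lit 0) .nil) .nil))) 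
(.lf (nat_lit 521767) (.g (nat_lit 563) (.e (nat_lit 204846) (nat_lit 24) (.e (nat_lit 319504) (nat_lit 10) (.e (nat_lit 5392) (nat_lit 301) .nil))) (.g (nat_lit 0) (.e (nat_lit 226038) (nat_lit 0) .nil) .nil)))) (.nd (nat_lit 9) 
(.lf (nat_lit 521511) (.g (nat_lit 3244) (.e (nat_lit 204838) (nat_lit 20) (.e (nat_lit 114719) (nat_lit 23) (.e (nat_lit 98335) (nat_lit 18) (.e (nat_lit 164330) (nat_lit 230) (.e (nat_lit 163869) (nat_lit 2) (.e (nat_lit 196656) (nat_lit 11) (.e (nat_lit 16416) (nat_lit 3) .nil))))))) (.g (nat_lit 1) (.e (nat_lit 225640) (nat_lit 0) .nil) .nil))) 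
(.lf (nat_lit 522023) (.g (nat_lit 1846) (.e (nat_lit 204846) (nat_lit 24) (.e (nat_lit 319533) (nat_lit 16) (.e (nat_lit 286735) (nat_lit 3) (.e (nat_lit 98357) (nat_lit 26) .nil)))) (.g (nat_lit 0) (.e (nat_lit 226408) (nat_lit 0) .nil) .nil))))) (.nd (nat_lit 8) (.nd (nat_lit 9) 
(.lf (nat_lit 521383) (.g (nat_lit 1116) (.e (nat_lit 204838) (nat_lit 20) (.e (nat_lit 114714) (nat_lit 22) (.e (nat_lit 90174) (nat_lit 14) (.e (nat_lit 180243) (nat_lit 5) .nil)))) (.g (nat_lit 0) (.e (nat_lit 225412) (nat_lit 0) .nil) .nil))) 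
(.lf (nat_lit 521895) (.g (nat_lit 1886) (.e (nat_lit 204846) (nat_lit 24) (.e (nat_lit 319531) (nat_lit 16) (.e (nat_lit 286735) (nat_lit 3) (.e (nat_lit 98355) (nat_lit 26) .nil)))) (.g (nat_lit 0) (.e (nat_lit 226228) (nat_lit 0) .nil) .nil)))) (.nd (nat_lit 9) 
(.lf (nat_lit 521639) (.g (nat_lit 3019) (.e (nat_lit 204845) (nat_lit 24) (.e (nat_lit 319530) (nat_lit 16) (.e (nat_lit 286734) (nat_lit 3) (.e (nat_lit 98381) (nat_lit 31) (.e (nat_lit 466981) (nat_lit 23) .nil))))) (.g (nat_lit 1) (.e (nat_lit 225872) (nat_lit 0) .nil) .nil))) 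
(.lf (nat_lit 522151) (.g (nat_lit 2074) (.e (nat_lit 204846) (nat_lit 24) (.e (nat_lit 319534) (nat_lit 16) (.e (nat_lit 286735) (nat_lit 3) (.e (nat_lit 98369) (nat_lit 28) (.e (nat_lit 450304) (nat_lit 23) .nil))))) (.g (nat_lit 1) (.e (nat_lit 226556) (nat_lit 0) .nil) .nil)))))) (.nd (nat_lit 7) (.nd (nat_lit 8) (.nd (nat_lit 9) 
(.lf (nat_lit 521319) (.g (nat_lit 2241) (.e (nat_lit 204838) (nat_lit 20) (.e (nat_lit 114698) (nat_lit 11) (.e (nat_lit 426137) (nat_lit 3) (.e (nat_lit 204861) (nat_lit 26) (.e (nat_lit 336075) (nat_lit 9) (.e (nat_lit 336326) (nat_lit 18) .nil)))))) (.g (nat_lit 1) (.e (nat_lit 225291) (nat_lit 0) .nil) .nil))) 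
(.lf (nat_lit 521831) (.g (nat_lit 2139) (.e (nat_lit 204846) (nat_lit 24) (.e (nat_lit 319529) (nat_lit 16) (.e (nat_lit 286735) (nat_lit 3) (.e (nat_lit 98382) (nat_lit 31) (.e (nat_lit 466981) (nat_lit 23) .nil))))) (.g (nat_lit 1) (.e (nat_lit 226142) (nat_lit 0) .nil) .nil)))) (.nd (nat_lit 9) 
(.lf (nat_lit 521575) (.g (nat_lit 2287) (.e (nat_lit 204845) (nat_lit 24) (.e (nat_lit 319490) (nat_lit 0) (.e (nat_lit 5664) (nat_lit 312) (.e (nat_lit 2661) (nat_lit 167) .nil)))) (.g (nat_lit 0) (.e (nat_lit 225763) (nat_lit 0) .nil) .nil))) 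
(.lf (nat_lit 522087) (.g (nat_lit 1892) (.e (nat_lit 204846) (nat_lit 24) (.e (nat_lit 319534) (nat_lit 16) (.e (nat_lit 286734) (nat_lit 3) (.e (nat_lit 98325) (nat_lit 17) (.e (nat_lit 6986) (nat_lit 377) .nil))))) (.g (nat_lit 0) (.e (nat_lit 226492) (nat_lit 0) .nil) .nil))))) (.nd (nat_lit 8) (.nd (nat_lit 9) 
(.lf (nat_lit 521447) (.g (nat_lit 2353) (.e (nat_lit 204838) (nat_lit 20) (.e (nat_lit 114716) (nat_lit 22) (.e (nat_lit 90172) (nat_lit 14) (.e (nat_lit 180244) (nat_lit 5) (.e (nat_lit 532503) (nat_lit 1) (.e (nat_lit 57691) (nat_lit 156) (.e (nat_lit 163872) (nat_lit 3) .nil))))))) (.g (nat_lit 1) (.e (nat_lit 225520) (nat_lit 0) .nil) .nil))) 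
(.lf (nat_lit 521959) (.g (nat_lit 410) (.e (nat_lit 204846) (nat_lit 24) (.e (nat_lit 319533) (nat_lit 16) (.e (nat_lit 286723) (nat_lit 0) .nil))) (.g (nat_lit 0) (.e (nat_lit 226317) (nat_lit 0) .nil) .nil)))) (.nd (nat_lit 9) 
(.lf (nat_lit 521703) (.g (nat_lit 2513) (.e (nat_lit 204845) (nat_lit 24) (.e (nat_lit 319531) (nat_lit 16) (.e (nat_lit 286735) (nat_lit 3) (.e (nat_lit 98365) (nat_lit 26) (.e (nat_lit 426213) (nat_lit 9) (.e (nat_lit 426140) (nat_lit 3) .nil)))))) (.g (nat_lit 1) (.e (nat_lit 225947) (nat_lit 0) .nil) .nil))) 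
(.lf (nat_lit 522215) (.g (nat_lit 5932) (.e (nat_lit 204849) (nat_lit 25) (.e (nat_lit 327699) (nat_lit 8) (.e (nat_lit 303119) (nat_lit 3) (.e (nat_lit 204849) (nat_lit 25) (.e (nat_lit 327699) (nat_lit 8) (.e (nat_lit 303119) (nat_lit 3) .nil)))))) (.g (nat_lit 1) (.e (nat_lit 226666) (nat_lit 0) .nil) .nil)))))))) 
(.nd (nat_lit 5) (.nd (nat_lit 6) (.nd (nat_lit 7) (.nd (nat_lit 8) (.nd (nat_lit 9) 
(.lf (nat_lit 521239) (.g (nat_lit 1992) (.e (nat_lit 204838) (nat_lit 20) (.e (nat_lit 114694) (nat_lit 11) (.e (nat_lit 426139) (nat_lit 3) (.e (nat_lit 204861) (nat_lit 26) (.e (nat_lit 336075) (nat_lit 9) (.e (nat_lit 336322) (nat_lit 18) .nil)))))) (.g (nat_lit 1) (.e (nat_lit 225114) (nat_lit 0) .nil) .nil))) 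
(.lf (nat_lit 521751) (.g (nat_lit 1529) (.e (nat_lit 204846) (nat_lit 24) (.e (nat_lit 319490) (nat_lit 0) (.e (nat_lit 5664) (nat_lit 312) (.e (nat_lit 2661) (nat_lit 167) .nil)))) (.g (nat_lit 0) (.e (nat_lit 226008) (nat_lit 0) .nil) .nil)))) (.nd (nat_lit 9) 
(.lf (nat_lit 521495) (.g (nat_lit 1968) (.e (nat_lit 204838) (nat_lit 20) (.e (nat_lit 114718) (nat_lit 23) (.e (nat_lit 98384) (nat_lit 32) (.e (nat_lit 475177) (nat_lit 24) (.e (nat_lit 516118) (nat_lit 1) (.e (nat_lit 164325) (nat_lit 230) (.e (nat_lit 163875) (nat_lit 3) .nil))))))) (.g (nat_lit 1) (.e (nat_lit 225616) (nat_lit 0) .nil) .nil))) 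
(.lf (nat_lit 522007) (.g (nat_lit 2311) (.e (nat_lit 204846) (nat_lit 24) (.e (nat_lit 319533) (nat_lit 16) (.e (nat_lit 286735) (nat_lit 3) (.e (nat_lit 98323) (nat_lit 17) (.e (nat_lit 6970) (nat_lit 377) .nil))))) (.g (nat_lit 0) (.e (nat_lit 226387) (nat_lit 0) .nil) .nil))))) (.nd (nat_lit 8) (.nd (nat_lit 9) 
(.lf (nat_lit 521367) (.g (nat_lit 1426) (.e (nat_lit 204838) (nat_lit 20) (.e (nat_lit 114714) (nat_lit 22) (.e (nat_lit 90172) (nat_lit 14) (.e (nat_lit 180243) (nat_lit 5) .nil)))) (.g (nat_lit 0) (.e (nat_lit 225384) (nat_lit 0) .nil) .nil))) 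
(.lf (nat_lit 521879) (.g (nat_lit 3418) (.e (nat_lit 204846) (nat_lit 24) (.e (nat_lit 319531) (nat_lit 16) (.e (nat_lit 286733) (nat_lit 2) (.e (nat_lit 90174) (nat_lit 14) (.e (nat_lit 188160) (nat_lit 40) (.e (nat_lit 2684) (nat_lit 168) .nil)))))) (.g (nat_lit 1) (.e (nat_lit 226211) (nat_lit 0) .nil) .nil)))) (.nd (nat_lit 9) 
(.lf (nat_lit 521623) (.g (nat_lit 2148) (.e (nat_lit 204845) (nat_lit 24) (.e (nat_lit 319529) (nat_lit 16) (.e (nat_lit 286735) (nat_lit 3) (.e (nat_lit 98381) (nat_lit 31) (.e (nat_lit 474880) (nat_lit 23) .nil))))) (.g (nat_lit 0) (.e (nat_lit 225844) (nat_lit 0) .nil) .nil))) 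
(.lf (nat_lit 522135) (.g (nat_lit 2241) (.e (nat_lit 204846) (nat_lit 24) (.e (nat_lit 319534) (nat_lit 16) (.e (nat_lit 286735) (nat_lit 3) (.e (nat_lit 98363) (nat_lit 26) (.e (nat_lit 426228) (nat_lit 9) (.e (nat_lit 426129) (nat_lit 3) .nil)))))) (.g (nat_lit 1) (.e (nat_lit 226540) (nat_lit 0) .nil) .nil)))))) (.nd (nat_lit 7) (.nd (nat_lit 8) (.nd (nat_lit 9) 
(.lf (nat_lit 521303) (.g (nat_lit 2543) (.e (nat_lit 204838) (nat_lit 20) (.e (nat_lit 114698) (nat_lit 11) (.e (nat_lit 426132) (nat_lit 3) (.e (nat_lit 204861) (nat_lit 26) (.e (nat_lit 336076) (nat_lit 9) (.e (nat_lit 336324) (nat_lit 18) .nil)))))) (.g (nat_lit 1) (.e (nat_lit 225273) (nat_lit 0) .nil) .nil))) 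
(.lf (nat_lit 521815) (.g (nat_lit 1915) (.e (nat_lit 204846) (nat_lit 24) (.e (nat_lit 319529) (nat_lit 16) (.e (nat_lit 286735) (nat_lit 3) (.e (nat_lit 98325) (nat_lit 17) (.e (nat_lit 7936) (nat_lit 392) .nil))))) (.g (nat_lit 0) (.e (nat_lit 226115) (nat_lit 0) .nil) .nil)))) (.nd (nat_lit 9) 
(.lf (nat_lit 521559) (.g (nat_lit 3188) (.e (nat_lit 204838) (nat_lit 20) (.e (nat_lit 114719) (nat_lit 23) (.e (nat_lit 98384) (nat_lit 32) (.e (nat_lit 475177) (nat_lit 24) (.e (nat_lit 516120) (nat_lit 1) (.e (nat_lit 164332) (nat_lit 230) (.e (nat_lit 163874) (nat_lit 3) .nil))))))) (.g (nat_lit 1) (.e (nat_lit 225721) (nat_lit 0) .nil) .nil))) 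
(.lf (nat_lit 522071) (.g (nat_lit 2908) (.e (nat_lit 204846) (nat_lit 24) (.e (nat_lit 319534) (nat_lit 16) (.e (nat_lit 286728) (nat_lit 0) (.e (nat_lit 1858) (nat_lit 124) (.e (nat_lit 557082) (nat_lit 10) (.e (nat_lit 8533) (nat_lit 225) (.e (nat_lit 1374) (nat_lit 104) (.e (nat_lit 303119) (nat_lit 3) .nil)))))))) (.g (nat_lit 1) (.e (nat_lit 226460) (nat_lit 0) .nil) .nil))))) 
(.nd (nat_lit 8) (.nd (nat_lit 9) 
(.lf (nat_lit 521431) (.g (nat_lit 1118) (.e (nat_lit 204838) (nat_lit 20) (.e (nat_lit 114716) (nat_lit 22) (.e (nat_lit 90172) (nat_lit 14) (.e (nat_lit 180239) (nat_lit 1) .nil)))) (.g (nat_lit 0) (.e (nat_lit 225489) (nat_lit 0) .nil) .nil))) 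
(.lf (nat_lit 521943) (.g (nat_lit 2565) (.e (nat_lit 204846) (nat_lit 24) (.e (nat_lit 319532) (nat_lit 16) (.e (nat_lit 286733) (nat_lit 2) (.e (nat_lit 90174) (nat_lit 14) (.e (nat_lit 180280) (nat_lit 40) .nil))))) (.g (nat_lit 0) (.e (nat_lit 226288) (nat_lit 0) .nil) .nil)))) (.nd (nat_lit 9) 
(.lf (nat_lit 521687) (.g (nat_lit 1923) (.e (nat_lit 204845) (nat_lit 24) (.e (nat_lit 319531) (nat_lit 16) (.e (nat_lit 286735) (nat_lit 3) (.e (nat_lit 98321) (nat_lit 17) .nil)))) (.g (nat_lit 0) (.e (nat_lit 225929) (nat_lit 0) .nil) .nil))) 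
(.lf (nat_lit 522199) (.g (nat_lit 5401) (.e (nat_lit 204849) (nat_lit 25) (.e (nat_lit 327699) (nat_lit 8) (.e (nat_lit 303117) (nat_lit 2) (.e (nat_lit 196666) (nat_lit 13) (.e (nat_lit 65628) (nat_lit 14) (.e (nat_lit 401428) (nat_lit 3) .nil)))))) (.g (nat_lit 1) (.e (nat_lit 226643) (nat_lit 0) .nil) .nil))))))) (.nd (nat_lit 6) (.nd (nat_lit 7) (.nd (nat_lit 8) (.nd (nat_lit 9) 
(.lf (nat_lit 521271) (.g (nat_lit 1449) (.e (nat_lit 204838) (nat_lit 20) (.e (nat_lit 114697) (nat_lit 11) (.e (nat_lit 426137) (nat_lit 3) (.e (nat_lit 204865) (nat_lit 28) (.e (nat_lit 360192) (nat_lit 3) .nil))))) (.g (nat_lit 1) (.e (nat_lit 225184) (nat_lit 0) .nil) .nil))) 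
(.lf (nat_lit 521783) (.g (nat_lit 3225) (.e (nat_lit 204846) (nat_lit 24) (.e (nat_lit 319528) (nat_lit 16) (.e (nat_lit 286733) (nat_lit 2) (.e (nat_lit 90170) (nat_lit 13) (.e (nat_lit 172095) (nat_lit 9) (.e (nat_lit 426140) (nat_lit 3) .nil)))))) (.g (nat_lit 1) (.e (nat_lit 226075) (nat_lit 0) .nil) .nil)))) (.nd (nat_lit 9) 
(.lf (nat_lit 521527) (.g (nat_lit 1511) (.e (nat_lit 204838) (nat_lit 20) (.e (nat_lit 114719) (nat_lit 23) (.e (nat_lit 98365) (nat_lit 26) (.e (nat_lit 426139) (nat_lit 3) .nil)))) (.g (nat_lit 0) (.e (nat_lit 225673) (nat_lit 0) .nil) .nil))) 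
(.lf (nat_lit 522039) (.g (nat_lit 2938) (.e (nat_lit 204846) (nat_lit 24) (.e (nat_lit 319533) (nat_lit 16) (.e (nat_lit 286735) (nat_lit 3) (.e (nat_lit 98365) (nat_lit 26) (.e (nat_lit 426187) (nat_lit 9) .nil))))) (.g (nat_lit 0) (.e (nat_lit 226424) (nat_lit 0) .nil) .nil))))) (.nd (nat_lit 8) (.nd (nat_lit 9) 
(.lf (nat_lit 521399) (.g (nat_lit 2739) (.e (nat_lit 204838) (nat_lit 20) (.e (nat_lit 114714) (nat_lit 22) (.e (nat_lit 90174) (nat_lit 14) (.e (nat_lit 180243) (nat_lit 5) (.e (nat_lit 532503) (nat_lit 1) (.e (nat_lit 57689) (nat_lit 156) (.e (nat_lit 163872) (nat_lit 3) .nil))))))) (.g (nat_lit 1) (.e (nat_lit 225437) (nat_lit 0) .nil) .nil))) 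
(.lf (nat_lit 521911) (.g (nat_lit 2417) (.e (nat_lit 204846) (nat_lit 24) (.e (nat_lit 319531) (nat_lit 16) (.e (nat_lit 286735) (nat_lit 3) (.e (nat_lit 98365) (nat_lit 26) (.e (nat_lit 426185) (nat_lit 9) (.e (nat_lit 426140) (nat_lit 3) .nil)))))) (.g (nat_lit 1) (.e (nat_lit 226244) (nat_lit 0) .nil) .nil)))) (.nd (nat_lit 9) 
(.lf (nat_lit 521655) (.g (nat_lit 2976) (.e (nat_lit 204845) (nat_lit 24) (.e (nat_lit 319530) (nat_lit 16) (.e (nat_lit 286735) (nat_lit 3) (.e (nat_lit 98367) (nat_lit 27) (.e (nat_lit 434183) (nat_lit 8) .nil))))) (.g (nat_lit 0) (.e (nat_lit 225888) (nat_lit 0) .nil) .nil))) 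
(.lf (nat_lit 522167) (.g (nat_lit 3206) (.e (nat_lit 204848) (nat_lit 25) (.e (nat_lit 327699) (nat_lit 8) (.e (nat_lit 303117) (nat_lit 2) (.e (nat_lit 196665) (nat_lit 13) (.e (nat_lit 65628) (nat_lit 14) (.e (nat_lit 401428) (nat_lit 3) .nil)))))) (.g (nat_lit 1) (.e (nat_lit 226575) (nat_lit 0) .nil) .nil)))))) (.nd (nat_lit 7) (.nd (nat_lit 8) (.nd (nat_lit 9) 
(.lf (nat_lit 521335) (.g (nat_lit 1806) (.e (nat_lit 204838) (nat_lit 20) (.e (nat_lit 114698) (nat_lit 11) (.e (nat_lit 426138) (nat_lit 3) (.e (nat_lit 204865) (nat_lit 28) (.e (nat_lit 360192) (nat_lit 3) .nil))))) (.g (nat_lit 1) (.e (nat_lit 225313) (nat_lit 0) .nil) .nil))) 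
(.lf (nat_lit 521847) (.g (nat_lit 1881) (.e (nat_lit 204846) (nat_lit 24) (.e (nat_lit 319530) (nat_lit 16) (.e (nat_lit 286734) (nat_lit 3) (.e (nat_lit 98369) (nat_lit 28) .nil)))) (.g (nat_lit 0) (.e (nat_lit 226167) (nat_lit 0) .nil) .nil)))) (.nd (nat_lit 9) 
(.lf (nat_lit 521591) (.g (nat_lit 361) (.e (nat_lit 204845) (nat_lit 24) (.e (nat_lit 319529) (nat_lit 16) (.e (nat_lit 286722) (nat_lit 0) .nil))) (.g (nat_lit 0) (.e (nat_lit 225793) (nat_lit 0) .nil) .nil))) 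
(.lf (nat_lit 522103) (.g (nat_lit 2815) (.e (nat_lit 204846) (nat_lit 24) (.e (nat_lit 319534) (nat_lit 16) (.e (nat_lit 286734) (nat_lit 3) (.e (nat_lit 98368) (nat_lit 27) (.e (nat_lit 442112) (nat_lit 8) (.e (nat_lit 2685) (nat_lit 168) .nil)))))) (.g (nat_lit 1) (.e (nat_lit 226508) (nat_lit 0) .nil) .nil))))) (.nd (nat_lit 8) (.nd (nat_lit 9) 
(.lf (nat_lit 521463) (.g (nat_lit 3597) (.e (nat_lit 204838) (nat_lit 20) (.e (nat_lit 114716) (nat_lit 22) (.e (nat_lit 90174) (nat_lit 14) (.e (nat_lit 180243) (nat_lit 5) (.e (nat_lit 532504) (nat_lit 1) (.e (nat_lit 57691) (nat_lit 156) (.e (nat_lit 163872) (nat_lit 3) .nil))))))) (.g (nat_lit 1) (.e (nat_lit 225566) (nat_lit 0) .nil) .nil))) 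
(.lf (nat_lit 521975) (.g (nat_lit 1927) (.e (nat_lit 204846) (nat_lit 24) (.e (nat_lit 319533) (nat_lit 16) (.e (nat_lit 286733) (nat_lit 2) (.e (nat_lit 90171) (nat_lit 14) .nil)))) (.g (nat_lit 0) (.e (nat_lit 226352) (nat_lit 0) .nil) .nil)))) (.nd (nat_lit 9) 
(.lf (nat_lit 521719) (.g (nat_lit 3252) (.e (nat_lit 204845) (nat_lit 24) (.e (nat_lit 319533) (nat_lit 16) (.e (nat_lit 286733) (nat_lit 2) (.e (nat_lit 90170) (nat_lit 13) (.e (nat_lit 172094) (nat_lit 9) .nil))))) (.g (nat_lit 0) (.e (nat_lit 225967) (nat_lit 0) .nil) .nil))) 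
(.lf (nat_lit 522231) (.g (nat_lit 3837) (.e (nat_lit 204849) (nat_lit 25) (.e (nat_lit 327715) (nat_lit 16) (.e (nat_lit 286733) (nat_lit 2) (.e (nat_lit 90176) (nat_lit 15) (.e (nat_lit 188450) (nat_lit 23) .nil))))) (.g (nat_lit 1) (.e (nat_lit 226699) (nat_lit 0) .nil) .nil))))))))) (.nd (nat_lit 4) (.nd (nat_lit 5) (.nd (nat_lit 6) (.nd (nat_lit 7) (.nd (nat_lit 8) (.nd (nat_lit 9) 
(.lf (nat_lit 521231) (.g (nat_lit 2514) (.e (nat_lit 204838) (nat_lit 20) (.e (nat_lit 114694) (nat_lit 11) (.e (nat_lit 426133) (nat_lit 3) (.e (nat_lit 204861) (nat_lit 26) (.e (nat_lit 336076) (nat_lit 9) (.e (nat_lit 336322) (nat_lit 18) .nil)))))) (.g (nat_lit 1) (.e (nat_lit 225106) (nat_lit 0) .nil) .nil))) 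
(.lf (nat_lit 521743) (.g (nat_lit 1271) (.e (nat_lit 204845) (nat_lit 24) (.e (nat_lit 319534) (nat_lit 16) (.e (nat_lit 286735) (nat_lit 3) (.e (nat_lit 98369) (nat_lit 28) .nil)))) (.g (nat_lit 0) (.e (nat_lit 225997) (nat_lit 0) .nil) .nil)))) (.nd (nat_lit 9) 
(.lf (nat_lit 521487) (.g (nat_lit 3545) (.e (nat_lit 204838) (nat_lit 20) (.e (nat_lit 114718) (nat_lit 23) (.e (nat_lit 98367) (nat_lit 27) (.e (nat_lit 434231) (nat_lit 23) (.e (nat_lit 532500) (nat_lit 1) (.e (nat_lit 57690) (nat_lit 156) (.e (nat_lit 163874) (nat_lit 3) .nil))))))) (.g (nat_lit 1) (.e (nat_lit 225606) (nat_lit 0) .nil) .nil))) 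
(.lf (nat_lit 521999) (.g (nat_lit 2758) (.e (nat_lit 204846) (nat_lit 24) (.e (nat_lit 319533) (nat_lit 16) (.e (nat_lit 286734) (nat_lit 3) (.e (nat_lit 98379) (nat_lit 31) (.e (nat_lit 466980) (nat_lit 23) .nil))))) (.g (nat_lit 1) (.e (nat_lit 226378) (nat_lit 0) .nil) .nil))))) (.nd (nat_lit 8) (.nd (nat_lit 9) 
(.lf (nat_lit 521359) (.g (nat_lit 701) (.e (nat_lit 204838) (nat_lit 20) (.e (nat_lit 114710) (nat_lit 21) (.e (nat_lit 57754) (nat_lit 209) .nil))) (.g (nat_lit 0) (.e (nat_lit 225368) (nat_lit 0) .nil) .nil))) 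
(.lf (nat_lit 521871) (.g (nat_lit 1280) (.e (nat_lit 204846) (nat_lit 24) (.e (nat_lit 319531) (nat_lit 16) (.e (nat_lit 286727) (nat_lit 0) (.e (nat_lit 1715) (nat_lit 117) .nil)))) (.g (nat_lit 0) (.e (nat_lit 226192) (nat_lit 0) .nil) .nil)))) (.nd (nat_lit 9) 
(.lf (nat_lit 521615) (.g (nat_lit 2128) (.e (nat_lit 204845) (nat_lit 24) (.e (nat_lit 319529) (nat_lit 16) (.e (nat_lit 286735) (nat_lit 3) (.e (nat_lit 98369) (nat_lit 28) (.e (nat_lit 450304) (nat_lit 23) .nil))))) (.g (nat_lit 0) (.e (nat_lit 225834) (nat_lit 0) .nil) .nil))) 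
(.lf (nat_lit 522127) (.g (nat_lit 3490) (.e (nat_lit 204846) (nat_lit 24) (.e (nat_lit 319534) (nat_lit 16) (.e (nat_lit 286735) (nat_lit 3) (.e (nat_lit 98359) (nat_lit 26) (.e (nat_lit 426215) (nat_lit 9) (.e (nat_lit 426140) (nat_lit 3) .nil)))))) (.g (nat_lit 1) (.e (nat_lit 226532) (nat_lit 0) .nil) .nil)))))) (.nd (nat_lit 7) (.nd (nat_lit 8) (.nd (nat_lit 9) 
(.lf (nat_lit 521295) (.g (nat_lit 1634) (.e (nat_lit 204838) (nat_lit 20) (.e (nat_lit 114698) (nat_lit 11) (.e (nat_lit 426121) (nat_lit 2) (.e (nat_lit 196672) (nat_lit 15) (.e (nat_lit 89856) (nat_lit 3) .nil))))) (.g (nat_lit 0) (.e (nat_lit 225227) (nat_lit 0) .nil) .nil))) 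
(.lf (nat_lit 521807) (.g (nat_lit 2969) (.e (nat_lit 204846) (nat_lit 24) (.e (nat_lit 319529) (nat_lit 16) (.e (nat_lit 286733) (nat_lit 2) (.e (nat_lit 90165) (nat_lit 12) (.e (nat_lit 164217) (nat_lit 178) (.e (nat_lit 123162) (nat_lit 256) (.e (nat_lit 2685) (nat_lit 168) .nil))))))) (.g (nat_lit 1) (.e (nat_lit 226105) (nat_lit 0) .nil) .nil)))) (.nd (nat_lit 9) 
(.lf (nat_lit 521551) (.g (nat_lit 2294) (.e (nat_lit 204838) (nat_lit 20) (.e (nat_lit 114719) (nat_lit 23) (.e (nat_lit 98377) (nat_lit 30) (.e (nat_lit 458789) (nat_lit 23) (.e (nat_lit 532502) (nat_lit 1) .nil))))) (.g (nat_lit 0) (.e (nat_lit 225713) (nat_lit 0) .nil) .nil))) 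
(.lf (nat_lit 522063) (.g (nat_lit 1438) (.e (nat_lit 204846) (nat_lit 24) (.e (nat_lit 319533) (nat_lit 16) (.e (nat_lit 286735) (nat_lit 3) (.e (nat_lit 98382) (nat_lit 31) .nil)))) (.g (nat_lit 0) (.e (nat_lit 226450) (nat_lit 0) .nil) .nil))))) (.nd (nat_lit 8) (.nd (nat_lit 9) 
(.lf (nat_lit 521423) (.g (nat_lit 3716) (.e (nat_lit 204838) (nat_lit 20) (.e (nat_lit 114715) (nat_lit 22) (.e (nat_lit 90170) (nat_lit 13) (.e (nat_lit 172067) (nat_lit 3) (.e (nat_lit 204829) (nat_lit 18) (.e (nat_lit 57692) (nat_lit 156) (.e (nat_lit 163872) (nat_lit 3) .nil))))))) (.g (nat_lit 1) (.e (nat_lit 225476) (nat_lit 0) .nil) .nil))) 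
(.lf (nat_lit 521935) (.g (nat_lit 2164) (.e (nat_lit 204846) (nat_lit 24) (.e (nat_lit 319532) (nat_lit 16) (.e (nat_lit 286732) (nat_lit 2) (.e (nat_lit 90185) (nat_lit 17) (.e (nat_lit 237605) (nat_lit 9) .nil))))) (.g (nat_lit 0) (.e (nat_lit 226271) (nat_lit 0) .nil) .nil)))) (.nd (nat_lit 9) 
(.lf (nat_lit 521679) (.g (nat_lit 2159) (.e (nat_lit 204845) (nat_lit 24) (.e (nat_lit 319531) (nat_lit 16) (.e (nat_lit 286732) (nat_lit 2) (.e (nat_lit 90184) (nat_lit 17) .nil)))) (.g (nat_lit 0) (.e (nat_lit 225913) (nat_lit 0) .nil) .nil))) 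
(.lf (nat_lit 522191) (.g (nat_lit 436) (.e (nat_lit 204849) (nat_lit 25) (.e (nat_lit 327698) (nat_lit 8) (.e (nat_lit 303119) (nat_lit 3) .nil))) (.g (nat_lit 0) (.e (nat_lit 226632) (nat_lit 0) .nil) .nil))))))) (.nd (nat_lit 6) (.nd (nat_lit 7) (.nd (nat_lit 8) (.nd (nat_lit 9) 
(.lf (nat_lit 521263) (.g (nat_lit 3233) (.e (nat_lit 204838) (nat_lit 20) (.e (nat_lit 114697) (nat_lit 11) (.e (nat_lit 426133) (nat_lit 3) (.e (nat_lit 204861) (nat_lit 26) (.e (nat_lit 336076) (nat_lit 9) (.e (nat_lit 336326) (nat_lit 18) .nil)))))) (.g (nat_lit 1) (.e (nat_lit 225176) (nat_lit 0) .nil) .nil))) 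
(.lf (nat_lit 521775) (.g (nat_lit 2380) (.e (nat_lit 204846) (nat_lit 24) (.e (nat_lit 319511) (nat_lit 10) (.e (nat_lit 5293) (nat_lit 298) (.e (nat_lit 1250) (nat_lit 92) (.e (nat_lit 98368) (nat_lit 27) (.e (nat_lit 442112) (nat_lit 8) (.e (nat_lit 2685) (nat_lit 168) .nil))))))) (.g (nat_lit 1) (.e (nat_lit 226057) (nat_lit 0) .nil) .nil)))) (.nd (nat_lit 9) 
(.lf (nat_lit 521519) (.g (nat_lit 2371) (.e (nat_lit 204838) (nat_lit 20) (.e (nat_lit 114719) (nat_lit 23) (.e (nat_lit 98365) (nat_lit 26) (.e (nat_lit 426124) (nat_lit 2) (.e (nat_lit 196626) (nat_lit 9) .nil))))) (.g (nat_lit 0) (.e (nat_lit 225657) (nat_lit 0) .nil) .nil))) 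
(.lf (nat_lit 522031) (.g (nat_lit 2424) (.e (nat_lit 204846) (nat_lit 24) (.e (nat_lit 319533) (nat_lit 16) (.e (nat_lit 286735) (nat_lit 3) (.e (nat_lit 98363) (nat_lit 26) (.e (nat_lit 426228) (nat_lit 9) .nil))))) (.g (nat_lit 0) (.e (nat_lit 226416) (nat_lit 0) .nil) .nil))))) (.nd (nat_lit 8) (.nd (nat_lit 9) 
(.lf (nat_lit 521391) (.g (nat_lit 2474) (.e (nat_lit 204838) (nat_lit 20) (.e (nat_lit 114714) (nat_lit 22) (.e (nat_lit 90174) (nat_lit 14) (.e (nat_lit 180243) (nat_lit 5) (.e (nat_lit 532500) (nat_lit 1) (.e (nat_lit 57692) (nat_lit 156) (.e (nat_lit 163874) (nat_lit 3) .nil))))))) (.g (nat_lit 1) (.e (nat_lit 225425) (nat_lit 0) .nil) .nil))) 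
(.lf (nat_lit 521903) (.g (nat_lit 3106) (.e (nat_lit 204846) (nat_lit 24) (.e (nat_lit 319531) (nat_lit 16) (.e (nat_lit 286735) (nat_lit 3) (.e (nat_lit 98359) (nat_lit 26) (.e (nat_lit 426215) (nat_lit 9) (.e (nat_lit 426140) (nat_lit 3) .nil)))))) (.g (nat_lit 1) (.e (nat_lit 226236) (nat_lit 0) .nil) .nil)))) (.nd (nat_lit 9) 
(.lf (nat_lit 521647) (.g (nat_lit 3672) (.e (nat_lit 204845) (nat_lit 24) (.e (nat_lit 319530) (nat_lit 16) (.e (nat_lit 286735) (nat_lit 3) (.e (nat_lit 98356) (nat_lit 26) (.e (nat_lit 426227) (nat_lit 9) (.e (nat_lit 433920) (nat_lit 3) .nil)))))) (.g (nat_lit 1) (.e (nat_lit 225880) (nat_lit 0) .nil) .nil))) 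
(.lf (nat_lit 522159) (.g (nat_lit 1555) (.e (nat_lit 204846) (nat_lit 24) (.e (nat_lit 319534) (nat_lit 16) (.e (nat_lit 286735) (nat_lit 3) (.e (nat_lit 98382) (nat_lit 31) .nil)))) (.g (nat_lit 0) (.e (nat_lit 226565) (nat_lit 0) .nil) .nil)))))) (.nd (nat_lit 7) (.nd (nat_lit 8) (.nd (nat_lit 9) 
(.lf (nat_lit 521327) (.g (nat_lit 2247) (.e (nat_lit 204838) (nat_lit 20) (.e (nat_lit 114698) (nat_lit 11) (.e (nat_lit 426138) (nat_lit 3) (.e (nat_lit 204861) (nat_lit 26) (.e (nat_lit 336075) (nat_lit 9) (.e (nat_lit 336322) (nat_lit 18) .nil)))))) (.g (nat_lit 1) (.e (nat_lit 225304) (nat_lit 0) .nil) .nil))) 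
(.lf (nat_lit 521839) (.g (nat_lit 410) (.e (nat_lit 204846) (nat_lit 24) (.e (nat_lit 319530) (nat_lit 16) (.e (nat_lit 286733) (nat_lit 2) .nil))) (.g (nat_lit 0) (.e (nat_lit 226152) (nat_lit 0) .nil) .nil)))) (.nd (nat_lit 9) 
(.lf (nat_lit 521583) (.g (nat_lit 1481) (.e (nat_lit 204845) (nat_lit 24) (.e (nat_lit 319538) (nat_lit 19) (.e (nat_lit 311312) (nat_lit 2) (.e (nat_lit 196626) (nat_lit 9) (.e (nat_lit 1400) (nat_lit 106) .nil))))) (.g (nat_lit 0) (.e (nat_lit 225777) (nat_lit 0) .nil) .nil))) 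
(.lf (nat_lit 522095) (.g (nat_lit 2784) (.e (nat_lit 204846) (nat_lit 24) (.e (nat_lit 319534) (nat_lit 16) (.e (nat_lit 286734) (nat_lit 3) (.e (nat_lit 98354) (nat_lit 26) (.e (nat_lit 426215) (nat_lit 9) (.e (nat_lit 426140) (nat_lit 3) .nil)))))) (.g (nat_lit 1) (.e (nat_lit 226500) (nat_lit 0) .nil) .nil))))) (.nd (nat_lit 8) (.nd (nat_lit 9) 
(.lf (nat_lit 521455) (.g (nat_lit 3243) (.e (nat_lit 204838) (nat_lit 20) (.e (nat_lit 114716) (nat_lit 22) (.e (nat_lit 90174) (nat_lit 14) (.e (nat_lit 180243) (nat_lit 5) (.e (nat_lit 532501) (nat_lit 1) (.e (nat_lit 57691) (nat_lit 156) (.e (nat_lit 163872) (nat_lit 3) .nil))))))) (.g (nat_lit 1) (.e (nat_lit 225545) (nat_lit 0) .nil) .nil))) 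
(.lf (nat_lit 521967) (.g (nat_lit 1372) (.e (nat_lit 204846) (nat_lit 24) (.e (nat_lit 319533) (nat_lit 16) (.e (nat_lit 286732) (nat_lit 2) (.e (nat_lit 90165) (nat_lit 12) .nil)))) (.g (nat_lit 0) (.e (nat_lit 226330) (nat_lit 0) .nil) .nil)))) (.nd (nat_lit 9) 
(.lf (nat_lit 521711) (.g (nat_lit 2843) (.e (nat_lit 204845) (nat_lit 24) (.e (nat_lit 319531) (nat_lit 16) (.e (nat_lit 286735) (nat_lit 3) (.e (nat_lit 98379) (nat_lit 31) (.e (nat_lit 466981) (nat_lit 23) .nil))))) (.g (nat_lit 1) (.e (nat_lit 225955) (nat_lit 0) .nil) .nil))) 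
(.lf (nat_lit 522223) (.g (nat_lit 3142) (.e (nat_lit 204849) (nat_lit 25) (.e (nat_lit 327700) (nat_lit 8) (.e (nat_lit 303119) (nat_lit 3) (.e (nat_lit 204849) (nat_lit 25) (.e (nat_lit 327698) (nat_lit 8) .nil))))) (.g (nat_lit 0) (.e (nat_lit 226684) (nat_lit 0) .nil) .nil)))))))) (.nd (nat_lit 5) (.nd (nat_lit 6) (.nd (nat_lit 7) (.nd (nat_lit 8) (.nd (nat_lit 9) 
(.lf (nat_lit 521247) (.g (nat_lit 1524) (.e (nat_lit 204838) (nat_lit 20) (.e (nat_lit 114694) (nat_lit 11) (.e (nat_lit 426139) (nat_lit 3) (.e (nat_lit 204865) (nat_lit 28) (.e (nat_lit 360192) (nat_lit 3) .nil))))) (.g (nat_lit 1) (.e (nat_lit 225122) (nat_lit 0) .nil) .nil))) 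
(.lf (nat_lit 521759) (.g (nat_lit 1587) (.e (nat_lit 204846) (nat_lit 24) (.e (nat_lit 319490) (nat_lit 0) (.e (nat_lit 5389) (nat_lit 301) (.e (nat_lit 57464) (nat_lit 23) (.e (nat_lit 516139) (nat_lit 7) .nil))))) (.g (nat_lit 0) (.e (nat_lit 226026) (nat_lit 0) .nil) .nil)))) (.nd (nat_lit 9) 
(.lf (nat_lit 521503) (.g (nat_lit 660) (.e (nat_lit 204838) (nat_lit 20) (.e (nat_lit 114718) (nat_lit 23) (.e (nat_lit 98385) (nat_lit 32) .nil))) (.g (nat_lit 0) (.e (nat_lit 225626) (nat_lit 0) .nil) .nil))) 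
(.lf (nat_lit 522015) (.g (nat_lit 3204) (.e (nat_lit 204846) (nat_lit 24) (.e (nat_lit 319533) (nat_lit 16) (.e (nat_lit 286735) (nat_lit 3) (.e (nat_lit 98350) (nat_lit 24) (.e (nat_lit 409603) (nat_lit 0) .nil))))) (.g (nat_lit 0) (.e (nat_lit 226400) (nat_lit 0) .nil) .nil))))) (.nd (nat_lit 8) (.nd (nat_lit 9) 
(.lf (nat_lit 521375) (.g (nat_lit 3686) (.e (nat_lit 204838) (nat_lit 20) (.e (nat_lit 114714) (nat_lit 22) (.e (nat_lit 90172) (nat_lit 14) (.e (nat_lit 180244) (nat_lit 5) (.e (nat_lit 532499) (nat_lit 1) (.e (nat_lit 57691) (nat_lit 156) (.e (nat_lit 163872) (nat_lit 3) .nil))))))) (.g (nat_lit 1) (.e (nat_lit 225398) (nat_lit 0) .nil) .nil))) 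
(.lf (nat_lit 521887) (.g (nat_lit 1911) (.e (nat_lit 204846) (nat_lit 24) (.e (nat_lit 319531) (nat_lit 16) (.e (nat_lit 286735) (nat_lit 3) (.e (nat_lit 98321) (nat_lit 17) .nil)))) (.g (nat_lit 0) (.e (nat_lit 226220) (nat_lit 0) .nil) .nil)))) (.nd (nat_lit 9) 
(.lf (nat_lit 521631) (.g (nat_lit 1582) (.e (nat_lit 204845) (nat_lit 24) (.e (nat_lit 319530) (nat_lit 16) (.e (nat_lit 286727) (nat_lit 0) (.e (nat_lit 1809) (nat_lit 120) .nil)))) (.g (nat_lit 0) (.e (nat_lit 225852) (nat_lit 0) .nil) .nil))) 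
(.lf (nat_lit 522143) (.g (nat_lit 4160) (.e (nat_lit 204846) (nat_lit 24) (.e (nat_lit 319534) (nat_lit 16) (.e (nat_lit 286735) (nat_lit 3) (.e (nat_lit 98365) (nat_lit 26) (.e (nat_lit 426188) (nat_lit 9) (.e (nat_lit 426131) (nat_lit 3) .nil)))))) (.g (nat_lit 1) (.e (nat_lit 226548) (nat_lit 0) .nil) .nil)))))) (.nd (nat_lit 7) (.nd (nat_lit 8) (.nd (nat_lit 9) 
(.lf (nat_lit 521311) (.g (nat_lit 3179) (.e (nat_lit 204838) (nat_lit 20) (.e (nat_lit 114698) (nat_lit 11) (.e (nat_lit 426133) (nat_lit 3) (.e (nat_lit 204861) (nat_lit 26) (.e (nat_lit 336076) (nat_lit 9) (.e (nat_lit 336322) (nat_lit 18) .nil)))))) (.g (nat_lit 1) (.e (nat_lit 225283) (nat_lit 0) .nil) .nil))) 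
(.lf (nat_lit 521823) (.g (nat_lit 2928) (.e (nat_lit 204846) (nat_lit 24) (.e (nat_lit 319529) (nat_lit 16) (.e (nat_lit 286735) (nat_lit 3) (.e (nat_lit 98367) (nat_lit 27) (.e (nat_lit 442112) (nat_lit 8) (.e (nat_lit 2684) (nat_lit 168) .nil)))))) (.g (nat_lit 1) (.e (nat_lit 226130) (nat_lit 0) .nil) .nil)))) (.nd (nat_lit 9) 
(.lf (nat_lit 521567) (.g (nat_lit 805) (.e (nat_lit 204838) (nat_lit 20) (.e (nat_lit 114719) (nat_lit 23) (.e (nat_lit 98385) (nat_lit 32) .nil))) (.g (nat_lit 0) (.e (nat_lit 225731) (nat_lit 0) .nil) .nil))) 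
(.lf (nat_lit 522079) (.g (nat_lit 1500) (.e (nat_lit 204846) (nat_lit 24) (.e (nat_lit 319534) (nat_lit 16) (.e (nat_lit 286733) (nat_lit 2) (.e (nat_lit 90168) (nat_lit 13) .nil)))) (.g (nat_lit 0) (.e (nat_lit 226482) (nat_lit 0) .nil) .nil))))) (.nd (nat_lit 8) (.nd (nat_lit 9) 
(.lf (nat_lit 521439) (.g (nat_lit 2679) (.e (nat_lit 204838) (nat_lit 20) (.e (nat_lit 114716) (nat_lit 22) (.e (nat_lit 90172) (nat_lit 14) (.e (nat_lit 180244) (nat_lit 5) (.e (nat_lit 532501) (nat_lit 1) (.e (nat_lit 57689) (nat_lit 156) (.e (nat_lit 163872) (nat_lit 3) .nil))))))) (.g (nat_lit 1) (.e (nat_lit 225509) (nat_lit 0) .nil) .nil))) 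
(.lf (nat_lit 521951) (.g (nat_lit 3215) (.e (nat_lit 204846) (nat_lit 24) (.e (nat_lit 319532) (nat_lit 16) (.e (nat_lit 286735) (nat_lit 3) (.e (nat_lit 98350) (nat_lit 24) (.e (nat_lit 409603) (nat_lit 0) (.e (nat_lit 5626) (nat_lit 312) (.e (nat_lit 2685) (nat_lit 168) .nil))))))) (.g (nat_lit 1) (.e (nat_lit 226303) (nat_lit 0) .nil) .nil)))) (.nd (nat_lit 9) 
(.lf (nat_lit 521695) (.g (nat_lit 3935) (.e (nat_lit 204845) (nat_lit 24) (.e (nat_lit 319531) (nat_lit 16) (.e (nat_lit 286735) (nat_lit 3) (.e (nat_lit 98358) (nat_lit 26) (.e (nat_lit 426227) (nat_lit 9) (.e (nat_lit 433920) (nat_lit 3) .nil)))))) (.g (nat_lit 1) (.e (nat_lit 225937) (nat_lit 0) .nil) .nil))) 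
(.lf (nat_lit 522207) (.g (nat_lit 3750) (.e (nat_lit 204849) (nat_lit 25) (.e (nat_lit 327699) (nat_lit 8) (.e (nat_lit 303118) (nat_lit 3) (.e (nat_lit 204849) (nat_lit 25) (.e (nat_lit 327699) (nat_lit 8) (.e (nat_lit 303118) (nat_lit 3) .nil)))))) (.g (nat_lit 1) (.e (nat_lit 226656) (nat_lit 0) .nil) .nil))))))) (.nd (nat_lit 6) (.nd (nat_lit 7) (.nd (nat_lit 8) (.nd (nat_lit 9) 
(.lf (nat_lit 521279) (.g (nat_lit 1194) (.e (nat_lit 204838) (nat_lit 20) (.e (nat_lit 114697) (nat_lit 11) (.e (nat_lit 426138) (nat_lit 3) (.e (nat_lit 204865) (nat_lit 28) (.e (nat_lit 360192) (nat_lit 3) .nil))))) (.g (nat_lit 1) (.e (nat_lit 225194) (nat_lit 0) .nil) .nil))) 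
(.lf (nat_lit 521791) (.g (nat_lit 2116) (.e (nat_lit 204846) (nat_lit 24) (.e (nat_lit 319528) (nat_lit 16) (.e (nat_lit 286735) (nat_lit 3) (.e (nat_lit 98363) (nat_lit 26) (.e (nat_lit 426234) (nat_lit 9) (.e (nat_lit 426129) (nat_lit 3) .nil)))))) (.g (nat_lit 1) (.e (nat_lit 226083) (nat_lit 0) .nil) .nil)))) (.nd (nat_lit 9) 
(.lf (nat_lit 521535) (.g (nat_lit 4247) (.e (nat_lit 204838) (nat_lit 20) (.e (nat_lit 114719) (nat_lit 23) (.e (nat_lit 98366) (nat_lit 27) (.e (nat_lit 434231) (nat_lit 23) (.e (nat_lit 532499) (nat_lit 1) (.e (nat_lit 57692) (nat_lit 156) (.e (nat_lit 163874) (nat_lit 3) .nil))))))) (.g (nat_lit 1) (.e (nat_lit 225684) (nat_lit 0) .nil) .nil))) 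
(.lf (nat_lit 522047) (.g (nat_lit 3708) (.e (nat_lit 204846) (nat_lit 24) (.e (nat_lit 319533) (nat_lit 16) (.e (nat_lit 286735) (nat_lit 3) (.e (nat_lit 98367) (nat_lit 27) (.e (nat_lit 442112) (nat_lit 8) (.e (nat_lit 2685) (nat_lit 168) .nil)))))) (.g (nat_lit 1) (.e (nat_lit 226432) (nat_lit 0) .nil) .nil))))) (.nd (nat_lit 8) (.nd (nat_lit 9) 
(.lf (nat_lit 521407) (.g (nat_lit 2527) (.e (nat_lit 204838) (nat_lit 20) (.e (nat_lit 114715) (nat_lit 22) (.e (nat_lit 90170) (nat_lit 13) (.e (nat_lit 172065) (nat_lit 3) (.e (nat_lit 204829) (nat_lit 18) (.e (nat_lit 57686) (nat_lit 156) (.e (nat_lit 163872) (nat_lit 3) .nil))))))) (.g (nat_lit 1) (.e (nat_lit 225453) (nat_lit 0) .nil) .nil))) 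
(.lf (nat_lit 521919) (.g (nat_lit 1917) (.e (nat_lit 204846) (nat_lit 24) (.e (nat_lit 319531) (nat_lit 16) (.e (nat_lit 286735) (nat_lit 3) (.e (nat_lit 98366) (nat_lit 27) .nil)))) (.g (nat_lit 0) (.e (nat_lit 226252) (nat_lit 0) .nil) .nil)))) (.nd (nat_lit 9) 
(.lf (nat_lit 521663) (.g (nat_lit 1676) (.e (nat_lit 204845) (nat_lit 24) (.e (nat_lit 319530) (nat_lit 16) (.e (nat_lit 286735) (nat_lit 3) (.e (nat_lit 98378) (nat_lit 30) .nil)))) (.g (nat_lit 0) (.e (nat_lit 225896) (nat_lit 0) .nil) .nil))) 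
(.lf (nat_lit 522175) (.g (nat_lit 3983) (.e (nat_lit 204848) (nat_lit 25) (.e (nat_lit 327715) (nat_lit 16) (.e (nat_lit 286733) (nat_lit 2) (.e (nat_lit 90176) (nat_lit 15) (.e (nat_lit 188452) (nat_lit 23) .nil))))) (.g (nat_lit 1) (.e (nat_lit 226599) (nat_lit 0) .nil) .nil)))))) (.nd (nat_lit 7) (.nd (nat_lit 8) (.nd (nat_lit 9) 
(.lf (nat_lit 521343) (.g (nat_lit 2856) (.e (nat_lit 204838) (nat_lit 20) (.e (nat_lit 114698) (nat_lit 11) (.e (nat_lit 426139) (nat_lit 3) (.e (nat_lit 204861) (nat_lit 26) (.e (nat_lit 336075) (nat_lit 9) (.e (nat_lit 336322) (nat_lit 18) .nil)))))) (.g (nat_lit 1) (.e (nat_lit 225322) (nat_lit 0) .nil) .nil))) 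
(.lf (nat_lit 521855) (.g (nat_lit 2552) (.e (nat_lit 204846) (nat_lit 24) (.e (nat_lit 319530) (nat_lit 16) (.e (nat_lit 286735) (nat_lit 3) (.e (nat_lit 98363) (nat_lit 26) (.e (nat_lit 426225) (nat_lit 9) (.e (nat_lit 426129) (nat_lit 3) .nil)))))) (.g (nat_lit 1) (.e (nat_lit 226175) (nat_lit 0) .nil) .nil)))) (.nd (nat_lit 9) 
(.lf (nat_lit 521599) (.g (nat_lit 3929) (.e (nat_lit 204845) (nat_lit 24) (.e (nat_lit 319529) (nat_lit 16) (.e (nat_lit 286733) (nat_lit 2) (.e (nat_lit 90176) (nat_lit 15) (.e (nat_lit 188450) (nat_lit 23) .nil))))) (.g (nat_lit 1) (.e (nat_lit 225810) (nat_lit 0) .nil) .nil))) 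
(.lf (nat_lit 522111) (.g (nat_lit 381) (.e (nat_lit 204846) (nat_lit 24) (.e (nat_lit 319534) (nat_lit 16) (.e (nat_lit 286735) (nat_lit 3) .nil))) (.g (nat_lit 0) (.e (nat_lit 226516) (nat_lit 0) .nil) .nil))))) (.nd (nat_lit 8) (.nd (nat_lit 9) 
(.lf (nat_lit 521471) (.g (nat_lit 2089) (.e (nat_lit 204838) (nat_lit 20) (.e (nat_lit 114716) (nat_lit 22) (.e (nat_lit 90185) (nat_lit 17) (.e (nat_lit 237594) (nat_lit 3) (.e (nat_lit 204829) (nat_lit 18) (.e (nat_lit 57686) (nat_lit 156) (.e (nat_lit 163872) (nat_lit 3) .nil))))))) (.g (nat_lit 1) (.e (nat_lit 225576) (nat_lit 0) .nil) .nil))) 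
(.lf (nat_lit 521983) (.g (nat_lit 4129) (.e (nat_lit 204846) (nat_lit 24) (.e (nat_lit 319533) (nat_lit 16) (.e (nat_lit 286734) (nat_lit 3) (.e (nat_lit 98350) (nat_lit 24) (.e (nat_lit 409602) (nat_lit 0) (.e (nat_lit 5664) (nat_lit 312) (.e (nat_lit 2679) (nat_lit 168) .nil))))))) (.g (nat_lit 1) (.e (nat_lit 226362) (nat_lit 0) .nil) .nil)))) (.nd (nat_lit 9) 
(.lf (nat_lit 521727) (.g (nat_lit 2986) (.e (nat_lit 204845) (nat_lit 24) (.e (nat_lit 319533) (nat_lit 16) (.e (nat_lit 286735) (nat_lit 3) (.e (nat_lit 98370) (nat_lit 28) (.e (nat_lit 450304) (nat_lit 23) .nil))))) (.g (nat_lit 0) (.e (nat_lit 225975) (nat_lit 0) .nil) .nil))) 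
(.lf (nat_lit 522239) (.g (nat_lit 742) (.e (nat_lit 204850) (nat_lit 26) (.e (nat_lit 336013) (nat_lit 2) (.e (nat_lit 98048) (nat_lit 2) .nil))) (.g (nat_lit 0) (.e (nat_lit 226712) (nat_lit 0) .nil) .nil)))))))))))))


end

end Pool.Agent.Lib.MP_5854e1_co.Cz
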