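import Pool.Agent.Lib.MP_5854e1_co.DtD

/-!
# Windows and cells of the rings
-/

set_option autoImplicit false
set_option maxRecDepth 100000
set_option deprecated.oldSectionVars true

namespace Pool.Agent.Lib.MP_5854e1_co.Cz

open Pool.Agent.Lib.MP_5854e1_co

noncomputable section

noncomputable def tv5615 : DT := (.nd (nat_lit 0) (.nd (nat_lit 1) (.nd (nat_lit 2) (.nd (nat_lit 3) (.nd (nat_lit 4) (.nd (nat_lit 5) (.nd (nat_lit 6) (.nd (nat_lit 7) (.nd (nat_lit 8) (.nd (nat_lit 9) 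
(.lf (nat_lit 568320) (.g (nat_lit 1523) (.e (nat_lit 450588) (nat_lit 10) (.e (nat_lit 573474) (nat_lit 12) (.e (nat_lit 57572) (nat_lit 54) (.e (nat_lit 770072) (nat_lit 8) (.e (nat_lit 65536) (nat_lit 0) .nil))))) (.g (nat_lit 0) (.e (nat_lit 343140) (nat_lit 0) .nil) .nil))) 
(.lf (nat_lit 568832) (.g (nat_lit 2344) (.e (nat_lit 458789) (nat_lit 23) (.e (nat_lit 532503) (nat_lit 1) (.e (nat_lit 57685) (nat_lit 156) (.e (nat_lit 163903) (nat_lit 12) (.e (nat_lit 426568) (nat_lit 34) (.e (nat_lit 393286) (nat_lit 25) .nil)))))) (.g (nat_lit 1) (.e (nat_lit 346162) (nat_lit 0) .nil) .nil)))) (.nd (nat_lit 9) 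
(.lf (nat_lit 568576) (.g (nat_lit 2341) (.e (nat_lit 466688) (nat_lit 0) (.e (nat_lit 1239) (nat_lit 91) (.e (nat_lit 90170) (nat_lit 13) (.e (nat_lit 172115) (nat_lit 10) .nil)))) (.g (nat_lit 0) (.e (nat_lit 345526) (nat_lit 0) .nil) .nil))) 
(.lf (nat_lit 569088) (.g (nat_lit 1984) (.e (nat_lit 466947) (nat_lit 0) (.e (nat_lit 1800) (nat_lit 119) (.e (nat_lit 516117) (nat_lit 1) (.e (nat_lit 164332) (nat_lit 230) (.e (nat_lit 163942) (nat_lit 19) (.e (nat_lit 491264) (nat_lit 14) .nil)))))) (.g (nat_lit 1) (.e (nat_lit 347074) (nat_lit 0) .nil) .nil))))) (.nd (nat_lit 8) (.nd (nat_lit 9) 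
(.lf (nat_lit 568448) (.g (nat_lit 1409) (.e (nat_lit 458496) (nat_lit 15) (.e (nat_lit 647183) (nat_lit 4) (.e (nat_lit 172107) (nat_lit 10) (.e (nat_lit 434272) (nat_lit 38) (.e (nat_lit 655363) (nat_lit 0) .nil))))) (.g (nat_lit 0) (.e (nat_lit 343689) (nat_lit 0) .nil) .nil))) 
(.lf (nat_lit 568960) (.g (nat_lit 4121) (.e (nat_lit 458789) (nat_lit 23) (.e (nat_lit 532569) (nat_lit 16) (.e (nat_lit 401448) (nat_lit 10) (.e (nat_lit 434231) (nat_lit 23) (.e (nat_lit 532569) (nat_lit 16) (.e (nat_lit 401449) (nat_lit 11) .nil)))))) (.g (nat_lit 1) (.e (nat_lit 346817) (nat_lit 0) .nil) .nil)))) (.nd (nat_lit 9) 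
(.lf (nat_lit 568704) (.g (nat_lit 2621) (.e (nat_lit 458787) (nat_lit 23) (.e (nat_lit 532523) (nat_lit 7) (.e (nat_lit 319531) (nat_lit 16) (.e (nat_lit 286735) (nat_lit 3) (.e (nat_lit 98365) (nat_lit 26) .nil))))) (.g (nat_lit 0) (.e (nat_lit 345966) (nat_lit 0) .nil) .nil))) 
(.lf (nat_lit 569216) (.g (nat_lit 1340) (.e (nat_lit 466953) (nat_lit 11) (.e (nat_lit 335995) (nat_lit 1) (.e (nat_lit 57688) (nat_lit 156) (.e (nat_lit 163902) (nat_lit 12) .nil)))) (.g (nat_lit 0) (.e (nat_lit 347464) (nat_lit 0) .nil) .nil)))))) (.nd (nat_lit 7) (.nd (nat_lit 8) (.nd (nat_lit 9) 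
(.lf (nat_lit 568384) (.g (nat_lit 889) (.e (nat_lit 450591) (nat_lit 13) (.e (nat_lit 630821) (nat_lit 16) (.e (nat_lit 65620) (nat_lit 10) (.e (nat_lit 344157) (nat_lit 36) (.e (nat_lit 638986) (nat_lit 5) (.e (nat_lit 3027) (nat_lit 187) .nil)))))) (.g (nat_lit 1) (.e (nat_lit 343455) (nat_lit 0) .nil) .nil))) 
(.lf (nat_lit 568896) (.g (nat_lit 2455) (.e (nat_lit 458789) (nat_lit 23) (.e (nat_lit 532523) (nat_lit 7) (.e (nat_lit 319531) (nat_lit 16) (.e (nat_lit 286727) (nat_lit 0) (.e (nat_lit 1799) (nat_lit 119) .nil))))) (.g (nat_lit 0) (.e (nat_lit 346262) (nat_lit 0) .nil) .nil)))) (.nd (nat_lit 9) 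
(.lf (nat_lit 568640) (.g (nat_lit 184) (.e (nat_lit 466688) (nat_lit 5) (.e (nat_lit 73776) (nat_lit 26) (.e (nat_lit 778466) (nat_lit 11) .nil))) (.g (nat_lit 0) (.e (nat_lit 345650) (nat_lit 0) .nil) .nil))) 
(.lf (nat_lit 569152) (.g (nat_lit 1684) (.e (nat_lit 474880) (nat_lit 3) (.e (nat_lit 98333) (nat_lit 18) (.e (nat_lit 164332) (nat_lit 230) (.e (nat_lit 163943) (nat_lit 19) (.e (nat_lit 491264) (nat_lit 14) .nil))))) (.g (nat_lit 0) (.e (nat_lit 347172) (nat_lit 0) .nil) .nil))))) (.nd (nat_lit 8) (.nd (nat_lit 9) 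
(.lf (nat_lit 568512) (.g (nat_lit 600) (.e (nat_lit 450605) (nat_lit 27) (.e (nat_lit 745475) (nat_lit 0) (.e (nat_lit 1589) (nat_lit 111) (.e (nat_lit 368384) (nat_lit 10) .nil)))) (.g (nat_lit 0) (.e (nat_lit 345419) (nat_lit 0) .nil) .nil))) 
(.lf (nat_lit 569024) (.g (nat_lit 1270) (.e (nat_lit 466688) (nat_lit 21) (.e (nat_lit 516106) (nat_lit 0) (.e (nat_lit 2478) (nat_lit 157) (.e (nat_lit 6273) (nat_lit 337) (.e (nat_lit 2633) (nat_lit 164) .nil))))) (.g (nat_lit 0) (.e (nat_lit 346933) (nat_lit 0) .nil) .nil)))) (.nd (nat_lit 9) 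
(.lf (nat_lit 568768) (.g (nat_lit 2541) (.e (nat_lit 458789) (nat_lit 23) (.e (nat_lit 532482) (nat_lit 0) (.e (nat_lit 6722) (nat_lit 362) (.e (nat_lit 180251) (nat_lit 10) (.e (nat_lit 573456) (nat_lit 9) (.e (nat_lit 430) (nat_lit 32) (.e (nat_lit 426300) (nat_lit 11) .nil))))))) (.g (nat_lit 1) (.e (nat_lit 346065) (nat_lit 0) .nil) .nil))) 
(.lf (nat_lit 569280) (.g (nat_lit 1830) (.e (nat_lit 466954) (nat_lit 11) (.e (nat_lit 335988) (nat_lit 1) (.e (nat_lit 57692) (nat_lit 156) (.e (nat_lit 163907) (nat_lit 12) (.e (nat_lit 426437) (nat_lit 18) .nil))))) (.g (nat_lit 0) (.e (nat_lit 347567) (nat_lit 0) .nil) .nil))))))) (.nd (nat_lit 6) (.nd (nat_lit 7) (.nd (nat_lit 8) (.nd (nat_lit 9) 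
(.lf (nat_lit 568352) (.g (nat_lit 1013) (.e (nat_lit 450584) (nat_lit 9) (.e (nat_lit 565267) (nat_lit 4) (.e (nat_lit 65611) (nat_lit 10) (.e (nat_lit 344091) (nat_lit 18) (.e (nat_lit 7710) (nat_lit 414) .nil))))) (.g (nat_lit 0) (.e (nat_lit 343347) (nat_lit 0) .nil) .nil))) 
(.lf (nat_lit 568864) (.g (nat_lit 2409) (.e (nat_lit 458789) (nat_lit 23) (.e (nat_lit 532504) (nat_lit 1) (.e (nat_lit 57692) (nat_lit 156) (.e (nat_lit 163905) (nat_lit 12) (.e (nat_lit 426566) (nat_lit 34) (.e (nat_lit 393285) (nat_lit 25) .nil)))))) (.g (nat_lit 1) (.e (nat_lit 346224) (nat_lit 0) .nil) .nil)))) (.nd (nat_lit 9) 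
(.lf (nat_lit 568608) (.g (nat_lit 331) (.e (nat_lit 466688) (nat_lit 5) (.e (nat_lit 73731) (nat_lit 0) (.e (nat_lit 7263) (nat_lit 384) .nil))) (.g (nat_lit 0) (.e (nat_lit 345606) (nat_lit 0) .nil) .nil))) 
(.lf (nat_lit 569120) (.g (nat_lit 1195) (.e (nat_lit 466947) (nat_lit 0) (.e (nat_lit 2059) (nat_lit 142) (.e (nat_lit 704595) (nat_lit 5) (.e (nat_lit 180284) (nat_lit 45) .nil)))) (.g (nat_lit 0) (.e (nat_lit 347112) (nat_lit 0) .nil) .nil))))) (.nd (nat_lit 8) (.nd (nat_lit 9) 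
(.lf (nat_lit 568480) (.g (nat_lit 2041) (.e (nat_lit 450593) (nat_lit 16) (.e (nat_lit 655378) (nat_lit 4) (.e (nat_lit 172120) (nat_lit 12) (.e (nat_lit 475207) (nat_lit 41) (.e (nat_lit 712753) (nat_lit 30) .nil))))) (.g (nat_lit 0) (.e (nat_lit 343874) (nat_lit 0) .nil) .nil))) 
(.lf (nat_lit 568992) (.g (nat_lit 2832) (.e (nat_lit 458789) (nat_lit 23) (.e (nat_lit 532569) (nat_lit 16) (.e (nat_lit 401448) (nat_lit 10) (.e (nat_lit 434248) (nat_lit 28) (.e (nat_lit 573470) (nat_lit 11) .nil))))) (.g (nat_lit 0) (.e (nat_lit 346853) (nat_lit 0) .nil) .nil)))) (.nd (nat_lit 9) 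
(.lf (nat_lit 568736) (.g (nat_lit 1817) (.e (nat_lit 458788) (nat_lit 23) (.e (nat_lit 532523) (nat_lit 7) (.e (nat_lit 319531) (nat_lit 16) (.e (nat_lit 286735) (nat_lit 3) .nil)))) (.g (nat_lit 0) (.e (nat_lit 346009) (nat_lit 0) .nil) .nil))) 
(.lf (nat_lit 569248) (.g (nat_lit 2747) (.e (nat_lit 466954) (nat_lit 11) (.e (nat_lit 335986) (nat_lit 1) (.e (nat_lit 57691) (nat_lit 156) (.e (nat_lit 163907) (nat_lit 12) (.e (nat_lit 426436) (nat_lit 18) (.e (nat_lit 98379) (nat_lit 31) .nil)))))) (.g (nat_lit 1) (.e (nat_lit 347535) (nat_lit 0) .nil) .nil)))))) (.nd (nat_lit 7) (.nd (nat_lit 8) (.nd (nat_lit 9) 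
(.lf (nat_lit 568416) (.g (nat_lit 3697) (.e (nat_lit 450595) (nat_lit 17) (.e (nat_lit 663583) (nat_lit 11) (.e (nat_lit 24640) (nat_lit 10) (.e (nat_lit 344156) (nat_lit 36) (.e (nat_lit 638985) (nat_lit 5) (.e (nat_lit 3016) (nat_lit 187) .nil)))))) (.g (nat_lit 1) (.e (nat_lit 343618) (nat_lit 0) .nil) .nil))) 
(.lf (nat_lit 568928) (.g (nat_lit 4001) (.e (nat_lit 458789) (nat_lit 23) (.e (nat_lit 532549) (nat_lit 12) (.e (nat_lit 360475) (nat_lit 8) (.e (nat_lit 557091) (nat_lit 12) (.e (nat_lit 163844) (nat_lit 0) .nil))))) (.g (nat_lit 0) (.e (nat_lit 346544) (nat_lit 0) .nil) .nil)))) (.nd (nat_lit 9) 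
(.lf (nat_lit 568672) (.g (nat_lit 4743) (.e (nat_lit 458774) (nat_lit 18) (.e (nat_lit 5547) (nat_lit 306) (.e (nat_lit 2610) (nat_lit 163) (.e (nat_lit 163978) (nat_lit 30) (.e (nat_lit 573484) (nat_lit 13) (.e (nat_lit 65610) (nat_lit 10) (.e (nat_lit 344117) (nat_lit 21) (.e (nat_lit 516170) (nat_lit 13) .nil)))))))) (.g (nat_lit 1) (.e (nat_lit 345793) (nat_lit 0) .nil) .nil))) 
(.lf (nat_lit 569184) (.g (nat_lit 1294) (.e (nat_lit 466950) (nat_lit 11) (.e (nat_lit 335995) (nat_lit 1) (.e (nat_lit 57688) (nat_lit 156) (.e (nat_lit 163903) (nat_lit 12) .nil)))) (.g (nat_lit 0) (.e (nat_lit 347249) (nat_lit 0) .nil) .nil))))) (.nd (nat_lit 8) (.nd (nat_lit 9) 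
(.lf (nat_lit 568544) (.g (nat_lit 1405) (.e (nat_lit 450605) (nat_lit 27) (.e (nat_lit 745491) (nat_lit 4) (.e (nat_lit 65619) (nat_lit 10) (.e (nat_lit 344138) (nat_lit 29) (.e (nat_lit 581636) (nat_lit 0) (.e (nat_lit 3027) (nat_lit 187) .nil)))))) (.g (nat_lit 1) (.e (nat_lit 345461) (nat_lit 0) .nil) .nil))) 
(.lf (nat_lit 569056) (.g (nat_lit 2233) (.e (nat_lit 458811) (nat_lit 44) (.e (nat_lit 704737) (nat_lit 11) (.e (nat_lit 16448) (nat_lit 10) (.e (nat_lit 434202) (nat_lit 18) .nil)))) (.g (nat_lit 0) (.e (nat_lit 347005) (nat_lit 0) .nil) .nil)))) (.nd (nat_lit 9) 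
(.lf (nat_lit 568800) (.g (nat_lit 621) (.e (nat_lit 458789) (nat_lit 23) (.e (nat_lit 532501) (nat_lit 1) (.e (nat_lit 57668) (nat_lit 152) .nil))) (.g (nat_lit 0) (.e (nat_lit 346114) (nat_lit 0) .nil) .nil))) 
(.lf (nat_lit 569312) (.g (nat_lit 2856) (.e (nat_lit 466954) (nat_lit 11) (.e (nat_lit 335995) (nat_lit 1) (.e (nat_lit 57688) (nat_lit 156) (.e (nat_lit 163907) (nat_lit 12) (.e (nat_lit 426437) (nat_lit 18) .nil))))) (.g (nat_lit 0) (.e (nat_lit 347600) (nat_lit 0) .nil) .nil)))))))) (.nd (nat_lit 5) (.nd (nat_lit 6) (.nd (nat_lit 7) (.nd (nat_lit 8) (.nd (nat_lit 9) 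
(.lf (nat_lit 568336) (.g (nat_lit 2001) (.e (nat_lit 450588) (nat_lit 10) (.e (nat_lit 573475) (nat_lit 12) (.e (nat_lit 57574) (nat_lit 55) (.e (nat_lit 778465) (nat_lit 11) (.e (nat_lit 24592) (nat_lit 0) .nil))))) (.g (nat_lit 0) (.e (nat_lit 343216) (nat_lit 0) .nil) .nil))) 
(.lf (nat_lit 568848) (.g (nat_lit 2788) (.e (nat_lit 458789) (nat_lit 23) (.e (nat_lit 532503) (nat_lit 1) (.e (nat_lit 57691) (nat_lit 156) (.e (nat_lit 163905) (nat_lit 12) (.e (nat_lit 426568) (nat_lit 34) (.e (nat_lit 393286) (nat_lit 25) .nil)))))) (.g (nat_lit 1) (.e (nat_lit 346193) (nat_lit 0) .nil) .nil)))) (.nd (nat_lit 9) 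
(.lf (nat_lit 568592) (.g (nat_lit 2012) (.e (nat_lit 466688) (nat_lit 5) (.e (nat_lit 73729) (nat_lit 0) (.e (nat_lit 7265) (nat_lit 384) (.e (nat_lit 57424) (nat_lit 14) (.e (nat_lit 360192) (nat_lit 15) .nil))))) (.g (nat_lit 0) (.e (nat_lit 345590) (nat_lit 0) .nil) .nil))) 
(.lf (nat_lit 569104) (.g (nat_lit 2503) (.e (nat_lit 466947) (nat_lit 0) (.e (nat_lit 1800) (nat_lit 119) (.e (nat_lit 516120) (nat_lit 1) (.e (nat_lit 164332) (nat_lit 230) (.e (nat_lit 163941) (nat_lit 19) (.e (nat_lit 491264) (nat_lit 14) .nil)))))) (.g (nat_lit 1) (.e (nat_lit 347090) (nat_lit 0) .nil) .nil))))) (.nd (nat_lit 8) (.nd (nat_lit 9) 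
(.lf (nat_lit 568464) (.g (nat_lit 1266) (.e (nat_lit 458496) (nat_lit 15) (.e (nat_lit 647183) (nat_lit 4) (.e (nat_lit 172116) (nat_lit 10) (.e (nat_lit 434272) (nat_lit 38) (.e (nat_lit 655363) (nat_lit 0) .nil))))) (.g (nat_lit 0) (.e (nat_lit 343705) (nat_lit 0) .nil) .nil))) 
(.lf (nat_lit 568976) (.g (nat_lit 3928) (.e (nat_lit 458789) (nat_lit 23) (.e (nat_lit 532569) (nat_lit 16) (.e (nat_lit 401448) (nat_lit 10) (.e (nat_lit 434244) (nat_lit 28) (.e (nat_lit 573471) (nat_lit 11) (.e (nat_lit 16454) (nat_lit 11) .nil)))))) (.g (nat_lit 1) (.e (nat_lit 346837) (nat_lit 0) .nil) .nil)))) (.nd (nat_lit 9) 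
(.lf (nat_lit 568720) (.g (nat_lit 4071) (.e (nat_lit 458787) (nat_lit 23) (.e (nat_lit 532550) (nat_lit 12) (.e (nat_lit 360475) (nat_lit 8) (.e (nat_lit 557091) (nat_lit 12) .nil)))) (.g (nat_lit 0) (.e (nat_lit 345993) (nat_lit 0) .nil) .nil))) 
(.lf (nat_lit 569232) (.g (nat_lit 1859) (.e (nat_lit 466954) (nat_lit 11) (.e (nat_lit 335986) (nat_lit 1) (.e (nat_lit 57688) (nat_lit 156) (.e (nat_lit 163903) (nat_lit 12) (.e (nat_lit 426434) (nat_lit 18) .nil))))) (.g (nat_lit 0) (.e (nat_lit 347519) (nat_lit 0) .nil) .nil)))))) (.nd (nat_lit 7) (.nd (nat_lit 8) (.nd (nat_lit 9) 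
(.lf (nat_lit 568400) (.g (nat_lit 1319) (.e (nat_lit 450595) (nat_lit 17) (.e (nat_lit 663573) (nat_lit 9) (.e (nat_lit 7936) (nat_lit 24) (.e (nat_lit 360482) (nat_lit 15) (.e (nat_lit 647195) (nat_lit 9) (.e (nat_lit 7936) (nat_lit 35) .nil)))))) (.g (nat_lit 1) (.e (nat_lit 343594) (nat_lit 0) .nil) .nil))) 
(.lf (nat_lit 568912) (.g (nat_lit 1597) (.e (nat_lit 458789) (nat_lit 23) (.e (nat_lit 532549) (nat_lit 12) (.e (nat_lit 360473) (nat_lit 8) (.e (nat_lit 557089) (nat_lit 12) .nil)))) (.g (nat_lit 0) (.e (nat_lit 346519) (nat_lit 0) .nil) .nil)))) (.nd (nat_lit 9) 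
(.lf (nat_lit 568656) (.g (nat_lit 2289) (.e (nat_lit 458774) (nat_lit 18) (.e (nat_lit 5224) (nat_lit 296) (.e (nat_lit 163868) (nat_lit 2) (.e (nat_lit 196656) (nat_lit 11) (.e (nat_lit 16465) (nat_lit 13) .nil))))) (.g (nat_lit 0) (.e (nat_lit 345726) (nat_lit 0) .nil) .nil))) 
(.lf (nat_lit 569168) (.g (nat_lit 1326) (.e (nat_lit 474880) (nat_lit 3) (.e (nat_lit 98342) (nat_lit 20) (.e (nat_lit 221194) (nat_lit 11) (.e (nat_lit 336025) (nat_lit 3) .nil)))) (.g (nat_lit 0) (.e (nat_lit 347210) (nat_lit 0) .nil) .nil))))) (.nd (nat_lit 8) (.nd (nat_lit 9) 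
(.lf (nat_lit 568528) (.g (nat_lit 1731) (.e (nat_lit 450605) (nat_lit 27) (.e (nat_lit 745491) (nat_lit 4) (.e (nat_lit 65610) (nat_lit 10) (.e (nat_lit 344138) (nat_lit 29) (.e (nat_lit 581636) (nat_lit 0) (.e (nat_lit 3016) (nat_lit 187) .nil)))))) (.g (nat_lit 1) (.e (nat_lit 345439) (nat_lit 0) .nil) .nil))) 
(.lf (nat_lit 569040) (.g (nat_lit 2404) (.e (nat_lit 458795) (nat_lit 28) (.e (nat_lit 573489) (nat_lit 14) (.e (nat_lit 73755) (nat_lit 8) (.e (nat_lit 557089) (nat_lit 12) .nil)))) (.g (nat_lit 0) (.e (nat_lit 346960) (nat_lit 0) .nil) .nil)))) (.nd (nat_lit 9) 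
(.lf (nat_lit 568784) (.g (nat_lit 2942) (.e (nat_lit 458789) (nat_lit 23) (.e (nat_lit 532499) (nat_lit 1) (.e (nat_lit 57687) (nat_lit 156) (.e (nat_lit 163902) (nat_lit 12) (.e (nat_lit 426568) (nat_lit 34) (.e (nat_lit 393286) (nat_lit 25) .nil)))))) (.g (nat_lit 1) (.e (nat_lit 346085) (nat_lit 0) .nil) .nil))) 
(.lf (nat_lit 569296) (.g (nat_lit 1696) (.e (nat_lit 466954) (nat_lit 11) (.e (nat_lit 335994) (nat_lit 1) (.e (nat_lit 57691) (nat_lit 156) (.e (nat_lit 163907) (nat_lit 12) (.e (nat_lit 426436) (nat_lit 18) .nil))))) (.g (nat_lit 0) (.e (nat_lit 347583) (nat_lit 0) .nil) .nil))))))) (.nd (nat_lit 6) (.nd (nat_lit 7) (.nd (nat_lit 8) (.nd (nat_lit 9) 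
(.lf (nat_lit 568368) (.g (nat_lit 1108) (.e (nat_lit 450591) (nat_lit 13) (.e (nat_lit 630821) (nat_lit 16) (.e (nat_lit 65616) (nat_lit 10) (.e (nat_lit 344157) (nat_lit 36) (.e (nat_lit 638986) (nat_lit 5) (.e (nat_lit 3016) (nat_lit 187) .nil)))))) (.g (nat_lit 1) (.e (nat_lit 343438) (nat_lit 0) .nil) .nil))) 
(.lf (nat_lit 568880) (.g (nat_lit 1991) (.e (nat_lit 458789) (nat_lit 23) (.e (nat_lit 532515) (nat_lit 3) (.e (nat_lit 114719) (nat_lit 23) (.e (nat_lit 98335) (nat_lit 18) (.e (nat_lit 164396) (nat_lit 256) .nil))))) (.g (nat_lit 0) (.e (nat_lit 346246) (nat_lit 0) .nil) .nil)))) (.nd (nat_lit 9) 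
(.lf (nat_lit 568624) (.g (nat_lit 1948) (.e (nat_lit 466688) (nat_lit 5) (.e (nat_lit 73775) (nat_lit 26) (.e (nat_lit 778464) (nat_lit 11) (.e (nat_lit 24625) (nat_lit 9) (.e (nat_lit 336439) (nat_lit 31) .nil))))) (.g (nat_lit 0) (.e (nat_lit 345624) (nat_lit 0) .nil) .nil))) 
(.lf (nat_lit 569136) (.g (nat_lit 2932) (.e (nat_lit 466949) (nat_lit 0) (.e (nat_lit 1855) (nat_lit 124) (.e (nat_lit 557098) (nat_lit 13) (.e (nat_lit 172115) (nat_lit 10) (.e (nat_lit 434244) (nat_lit 28) (.e (nat_lit 573458) (nat_lit 9) (.e (nat_lit 7936) (nat_lit 37) .nil))))))) (.g (nat_lit 1) (.e (nat_lit 347135) (nat_lit 0) .nil) .nil))))) (.nd (nat_lit 8) (.nd (nat_lit 9) 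
(.lf (nat_lit 568496) (.g (nat_lit 374) (.e (nat_lit 450601) (nat_lit 21) (.e (nat_lit 696344) (nat_lit 8) (.e (nat_lit 172113) (nat_lit 10) .nil))) (.g (nat_lit 0) (.e (nat_lit 344421) (nat_lit 0) .nil) .nil))) 
(.lf (nat_lit 569008) (.g (nat_lit 649) (.e (nat_lit 458790) (nat_lit 23) (.e (nat_lit 532523) (nat_lit 7) (.e (nat_lit 319530) (nat_lit 16) .nil))) (.g (nat_lit 0) (.e (nat_lit 346900) (nat_lit 0) .nil) .nil)))) (.nd (nat_lit 9) 
(.lf (nat_lit 568752) (.g (nat_lit 6208) (.e (nat_lit 458788) (nat_lit 23) (.e (nat_lit 532550) (nat_lit 12) (.e (nat_lit 360474) (nat_lit 8) (.e (nat_lit 557094) (nat_lit 12) (.e (nat_lit 164022) (nat_lit 46) (.e (nat_lit 704629) (nat_lit 9) (.e (nat_lit 473) (nat_lit 36) .nil))))))) (.g (nat_lit 1) (.e (nat_lit 346035) (nat_lit 0) .nil) .nil))) 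
(.lf (nat_lit 569264) (.g (nat_lit 1709) (.e (nat_lit 466954) (nat_lit 11) (.e (nat_lit 335987) (nat_lit 1) (.e (nat_lit 57692) (nat_lit 156) (.e (nat_lit 163906) (nat_lit 12) (.e (nat_lit 426438) (nat_lit 18) (.e (nat_lit 98380) (nat_lit 31) .nil)))))) (.g (nat_lit 1) (.e (nat_lit 347551) (nat_lit 0) .nil) .nil)))))) (.nd (nat_lit 7) (.nd (nat_lit 8) (.nd (nat_lit 9) 
(.lf (nat_lit 568432) (.g (nat_lit 1482) (.e (nat_lit 450597) (nat_lit 17) (.e (nat_lit 663589) (nat_lit 14) (.e (nat_lit 2796) (nat_lit 180) (.e (nat_lit 303143) (nat_lit 12) (.e (nat_lit 475207) (nat_lit 41) .nil))))) (.g (nat_lit 0) (.e (nat_lit 343659) (nat_lit 0) .nil) .nil))) 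
(.lf (nat_lit 568944) (.g (nat_lit 5631) (.e (nat_lit 458789) (nat_lit 23) (.e (nat_lit 532550) (nat_lit 12) (.e (nat_lit 360475) (nat_lit 8) (.e (nat_lit 557092) (nat_lit 12) .nil)))) (.g (nat_lit 0) (.e (nat_lit 346568) (nat_lit 0) .nil) .nil)))) (.nd (nat_lit 9) 
(.lf (nat_lit 568688) (.g (nat_lit 809) (.e (nat_lit 458774) (nat_lit 18) (.e (nat_lit 5548) (nat_lit 306) (.e (nat_lit 2638) (nat_lit 165) (.e (nat_lit 188160) (nat_lit 32) .nil)))) (.g (nat_lit 0) (.e (nat_lit 345865) (nat_lit 0) .nil) .nil))) 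
(.lf (nat_lit 569200) (.g (nat_lit 1805) (.e (nat_lit 466950) (nat_lit 11) (.e (nat_lit 335996) (nat_lit 1) (.e (nat_lit 57692) (nat_lit 156) (.e (nat_lit 163907) (nat_lit 12) (.e (nat_lit 426436) (nat_lit 18) .nil))))) (.g (nat_lit 0) (.e (nat_lit 347265) (nat_lit 0) .nil) .nil))))) (.nd (nat_lit 8) (.nd (nat_lit 9) 
(.lf (nat_lit 568560) (.g (nat_lit 943) (.e (nat_lit 450605) (nat_lit 27) (.e (nat_lit 745493) (nat_lit 6) (.e (nat_lit 81942) (nat_lit 20) (.e (nat_lit 1886) (nat_lit 127) (.e (nat_lit 581636) (nat_lit 0) (.e (nat_lit 3022) (nat_lit 187) .nil)))))) (.g (nat_lit 1) (.e (nat_lit 345497) (nat_lit 0) .nil) .nil))) 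
(.lf (nat_lit 569072) (.g (nat_lit 3092) (.e (nat_lit 466945) (nat_lit 0) (.e (nat_lit 1853) (nat_lit 124) (.e (nat_lit 557101) (nat_lit 13) (.e (nat_lit 172115) (nat_lit 10) (.e (nat_lit 434244) (nat_lit 28) (.e (nat_lit 573458) (nat_lit 9) (.e (nat_lit 7936) (nat_lit 37) .nil))))))) (.g (nat_lit 1) (.e (nat_lit 347050) (nat_lit 0) .nil) .nil)))) (.nd (nat_lit 9) 
(.lf (nat_lit 568816) (.g (nat_lit 3055) (.e (nat_lit 458789) (nat_lit 23) (.e (nat_lit 532502) (nat_lit 1) (.e (nat_lit 57688) (nat_lit 156) (.e (nat_lit 163902) (nat_lit 12) (.e (nat_lit 426566) (nat_lit 34) (.e (nat_lit 393289) (nat_lit 25) .nil)))))) (.g (nat_lit 1) (.e (nat_lit 346138) (nat_lit 0) .nil) .nil))) 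
(.lf (nat_lit 569328) (.g (nat_lit 3026) (.e (nat_lit 466954) (nat_lit 11) (.e (nat_lit 335996) (nat_lit 1) (.e (nat_lit 57691) (nat_lit 156) (.e (nat_lit 163907) (nat_lit 12) (.e (nat_lit 426436) (nat_lit 18) (.e (nat_lit 98380) (nat_lit 31) .nil)))))) (.g (nat_lit 1) (.e (nat_lit 347616) (nat_lit 0) .nil) .nil))))))))) 
(.nd (nat_lit 4) (.nd (nat_lit 5) (.nd (nat_lit 6) (.nd (nat_lit 7) (.nd (nat_lit 8) 
(.nd (nat_lit 9) 
(.lf (nat_lit 568328) (.g (nat_lit 3258) (.e (nat_lit 450588) (nat_lit 10) (.e (nat_lit 573475) (nat_lit 12) (.e (nat_lit 57507) (nat_lit 39) (.e (nat_lit 647195) (nat_lit 9) (.e (nat_lit 426) (nat_lit 32) (.e (nat_lit 426011) (nat_lit 0) (.e (nat_lit 3546) (nat_lit 219) (.e (nat_lit 712754) (nat_lit 30) .nil)))))))) (.g (nat_lit 1) (.e (nat_lit 343191) (nat_lit 0) .nil) .nil))) 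
(.lf (nat_lit 568840) (.g (nat_lit 2831) (.e (nat_lit 458789) (nat_lit 23) (.e (nat_lit 532503) (nat_lit 1) (.e (nat_lit 57688) (nat_lit 156) (.e (nat_lit 163905) (nat_lit 12) (.e (nat_lit 426568) (nat_lit 34) (.e (nat_lit 393287) (nat_lit 25) .nil)))))) (.g (nat_lit 1) (.e (nat_lit 346183) (nat_lit 0) .nil) .nil)))) (.nd (nat_lit 9) 
(.lf (nat_lit 568584) (.g (nat_lit 547) (.e (nat_lit 466688) (nat_lit 5) (.e (nat_lit 73729) (nat_lit 0) (.e (nat_lit 7261) (nat_lit 384) .nil))) (.g (nat_lit 0) (.e (nat_lit 345580) (nat_lit 0) .nil) .nil))) 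
(.lf (nat_lit 569096) (.g (nat_lit 2350) (.e (nat_lit 466947) (nat_lit 0) (.e (nat_lit 1800) (nat_lit 119) (.e (nat_lit 516119) (nat_lit 1) (.e (nat_lit 164326) (nat_lit 230) (.e (nat_lit 163941) (nat_lit 19) (.e (nat_lit 491264) (nat_lit 14) .nil)))))) (.g (nat_lit 1) (.e (nat_lit 347082) (nat_lit 0) .nil) .nil))))) (.nd (nat_lit 8) (.nd (nat_lit 9) 
(.lf (nat_lit 568456) (.g (nat_lit 1718) (.e (nat_lit 458496) (nat_lit 15) (.e (nat_lit 647183) (nat_lit 4) (.e (nat_lit 172113) (nat_lit 10) (.e (nat_lit 434272) (nat_lit 38) (.e (nat_lit 655362) (nat_lit 0) .nil))))) (.g (nat_lit 0) (.e (nat_lit 343697) (nat_lit 0) .nil) .nil))) 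
(.lf (nat_lit 568968) (.g (nat_lit 3221) (.e (nat_lit 458789) (nat_lit 23) (.e (nat_lit 532569) (nat_lit 16) (.e (nat_lit 401448) (nat_lit 10) (.e (nat_lit 434243) (nat_lit 28) (.e (nat_lit 573471) (nat_lit 11) (.e (nat_lit 16451) (nat_lit 11) .nil)))))) (.g (nat_lit 1) (.e (nat_lit 346829) (nat_lit 0) .nil) .nil)))) (.nd (nat_lit 9) 
(.lf (nat_lit 568712) (.g (nat_lit 5674) (.e (nat_lit 458787) (nat_lit 23) (.e (nat_lit 532550) (nat_lit 12) (.e (nat_lit 360474) (nat_lit 8) (.e (nat_lit 557093) (nat_lit 12) (.e (nat_lit 164022) (nat_lit 46) (.e (nat_lit 704628) (nat_lit 9) (.e (nat_lit 473) (nat_lit 36) .nil))))))) (.g (nat_lit 1) (.e (nat_lit 345985) (nat_lit 0) .nil) .nil))) 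
(.lf (nat_lit 569224) (.g (nat_lit 931) (.e (nat_lit 466954) (nat_lit 11) (.e (nat_lit 335986) (nat_lit 1) (.e (nat_lit 57667) (nat_lit 152) .nil))) (.g (nat_lit 0) (.e (nat_lit 347511) (nat_lit 0) .nil) .nil)))))) (.nd (nat_lit 7) (.nd (nat_lit 8) (.nd (nat_lit 9) 
(.lf (nat_lit 568392) (.g (nat_lit 1241) (.e (nat_lit 450592) (nat_lit 14) (.e (nat_lit 639021) (nat_lit 16) (.e (nat_lit 65598) (nat_lit 9) (.e (nat_lit 335997) (nat_lit 1) (.e (nat_lit 57857) (nat_lit 254) (.e (nat_lit 163923) (nat_lit 15) .nil)))))) (.g (nat_lit 1) (.e (nat_lit 343529) (nat_lit 0) .nil) .nil))) 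
(.lf (nat_lit 568904) (.g (nat_lit 3848) (.e (nat_lit 458789) (nat_lit 23) (.e (nat_lit 532523) (nat_lit 7) (.e (nat_lit 319534) (nat_lit 16) (.e (nat_lit 286735) (nat_lit 3) (.e (nat_lit 98365) (nat_lit 26) (.e (nat_lit 426298) (nat_lit 11) .nil)))))) (.g (nat_lit 1) (.e (nat_lit 346270) (nat_lit 0) .nil) .nil)))) (.nd (nat_lit 9) 
(.lf (nat_lit 568648) (.g (nat_lit 1046) (.e (nat_lit 458769) (nat_lit 16) (.e (nat_lit 164288) (nat_lit 224) (.e (nat_lit 164112) (nat_lit 118) (.e (nat_lit 794635) (nat_lit 11) (.e (nat_lit 336154) (nat_lit 9) (.e (nat_lit 336437) (nat_lit 31) .nil)))))) (.g (nat_lit 1) (.e (nat_lit 345687) (nat_lit 0) .nil) .nil))) 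
(.lf (nat_lit 569160) (.g (nat_lit 2043) (.e (nat_lit 474880) (nat_lit 3) (.e (nat_lit 98335) (nat_lit 18) (.e (nat_lit 164330) (nat_lit 230) (.e (nat_lit 163905) (nat_lit 12) (.e (nat_lit 426530) (nat_lit 27) .nil))))) (.g (nat_lit 0) (.e (nat_lit 347198) (nat_lit 0) .nil) .nil))))) (.nd (nat_lit 8) (.nd (nat_lit 9) 
(.lf (nat_lit 568520) (.g (nat_lit 1096) (.e (nat_lit 450605) (nat_lit 27) (.e (nat_lit 745476) (nat_lit 0) (.e (nat_lit 1592) (nat_lit 111) (.e (nat_lit 360477) (nat_lit 11) (.e (nat_lit 581635) (nat_lit 0) .nil))))) (.g (nat_lit 0) (.e (nat_lit 345427) (nat_lit 0) .nil) .nil))) 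
(.lf (nat_lit 569032) (.g (nat_lit 3111) (.e (nat_lit 458792) (nat_lit 25) (.e (nat_lit 548913) (nat_lit 18) (.e (nat_lit 172126) (nat_lit 14) (.e (nat_lit 491540) (nat_lit 3) (.e (nat_lit 98358) (nat_lit 26) (.e (nat_lit 426294) (nat_lit 11) .nil)))))) (.g (nat_lit 1) (.e (nat_lit 346943) (nat_lit 0) .nil) .nil)))) (.nd (nat_lit 9) 
(.lf (nat_lit 568776) (.g (nat_lit 2187) (.e (nat_lit 458789) (nat_lit 23) (.e (nat_lit 532482) (nat_lit 0) (.e (nat_lit 6724) (nat_lit 362) (.e (nat_lit 180251) (nat_lit 10) (.e (nat_lit 573456) (nat_lit 9) (.e (nat_lit 430) (nat_lit 32) (.e (nat_lit 426297) (nat_lit 11) .nil))))))) (.g (nat_lit 1) (.e (nat_lit 346073) (nat_lit 0) .nil) .nil))) 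
(.lf (nat_lit 569288) (.g (nat_lit 1375) (.e (nat_lit 466954) (nat_lit 11) (.e (nat_lit 335994) (nat_lit 1) (.e (nat_lit 57688) (nat_lit 156) (.e (nat_lit 163904) (nat_lit 12) (.e (nat_lit 426436) (nat_lit 18) .nil))))) (.g (nat_lit 0) (.e (nat_lit 347575) (nat_lit 0) .nil) .nil))))))) (.nd (nat_lit 6) (.nd (nat_lit 7) (.nd (nat_lit 8) (.nd (nat_lit 9) 
(.lf (nat_lit 568360) (.g (nat_lit 949) (.e (nat_lit 450591) (nat_lit 13) (.e (nat_lit 630821) (nat_lit 16) (.e (nat_lit 65610) (nat_lit 10) (.e (nat_lit 344157) (nat_lit 36) (.e (nat_lit 638985) (nat_lit 5) (.e (nat_lit 3028) (nat_lit 187) .nil)))))) (.g (nat_lit 1) (.e (nat_lit 343430) (nat_lit 0) .nil) .nil))) 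
(.lf (nat_lit 568872) (.g (nat_lit 2098) (.e (nat_lit 458789) (nat_lit 23) (.e (nat_lit 532513) (nat_lit 3) (.e (nat_lit 114719) (nat_lit 23) (.e (nat_lit 98333) (nat_lit 18) (.e (nat_lit 164398) (nat_lit 256) .nil))))) (.g (nat_lit 0) (.e (nat_lit 346235) (nat_lit 0) .nil) .nil)))) (.nd (nat_lit 9) 
(.lf (nat_lit 568616) (.g (nat_lit 1503) (.e (nat_lit 466688) (nat_lit 5) (.e (nat_lit 73731) (nat_lit 0) (.e (nat_lit 7266) (nat_lit 384) (.e (nat_lit 57436) (nat_lit 17) (.e (nat_lit 384768) (nat_lit 15) .nil))))) (.g (nat_lit 0) (.e (nat_lit 345615) (nat_lit 0) .nil) .nil))) 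
(.lf (nat_lit 569128) (.g (nat_lit 1375) (.e (nat_lit 466947) (nat_lit 0) (.e (nat_lit 2174) (nat_lit 143) (.e (nat_lit 712755) (nat_lit 30) (.e (nat_lit 450568) (nat_lit 0) (.e (nat_lit 5599) (nat_lit 310) .nil))))) (.g (nat_lit 0) (.e (nat_lit 347124) (nat_lit 0) .nil) .nil))))) (.nd (nat_lit 8) (.nd (nat_lit 9) 
(.lf (nat_lit 568488) (.g (nat_lit 3421) (.e (nat_lit 450593) (nat_lit 16) (.e (nat_lit 655380) (nat_lit 6) (.e (nat_lit 188455) (nat_lit 24) (.e (nat_lit 229678) (nat_lit 244) (.e (nat_lit 163923) (nat_lit 15) .nil))))) (.g (nat_lit 1) (.e (nat_lit 343967) (nat_lit 0) .nil) .nil))) 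
(.lf (nat_lit 569000) (.g (nat_lit 3793) (.e (nat_lit 458789) (nat_lit 23) (.e (nat_lit 532579) (nat_lit 26) (.e (nat_lit 426139) (nat_lit 3) (.e (nat_lit 204829) (nat_lit 18) (.e (nat_lit 57692) (nat_lit 156) (.e (nat_lit 171776) (nat_lit 64) (.e (nat_lit 98375) (nat_lit 30) .nil))))))) (.g (nat_lit 1) (.e (nat_lit 346892) (nat_lit 0) .nil) .nil)))) (.nd (nat_lit 9) 
(.lf (nat_lit 568744) (.g (nat_lit 4416) (.e (nat_lit 458788) (nat_lit 23) (.e (nat_lit 532550) (nat_lit 12) (.e (nat_lit 360474) (nat_lit 8) (.e (nat_lit 557093) (nat_lit 12) (.e (nat_lit 164022) (nat_lit 46) (.e (nat_lit 704626) (nat_lit 9) (.e (nat_lit 473) (nat_lit 36) .nil))))))) (.g (nat_lit 1) (.e (nat_lit 346027) (nat_lit 0) .nil) .nil))) 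
(.lf (nat_lit 569256) (.g (nat_lit 1604) (.e (nat_lit 466954) (nat_lit 11) (.e (nat_lit 335986) (nat_lit 1) (.e (nat_lit 57692) (nat_lit 156) (.e (nat_lit 163907) (nat_lit 12) (.e (nat_lit 426434) (nat_lit 18) .nil))))) (.g (nat_lit 0) (.e (nat_lit 347543) (nat_lit 0) .nil) .nil)))))) (.nd (nat_lit 7) (.nd (nat_lit 8) (.nd (nat_lit 9) 
(.lf (nat_lit 568424) (.g (nat_lit 3342) (.e (nat_lit 450596) (nat_lit 17) (.e (nat_lit 663583) (nat_lit 11) (.e (nat_lit 24640) (nat_lit 10) (.e (nat_lit 344156) (nat_lit 36) (.e (nat_lit 638985) (nat_lit 5) (.e (nat_lit 3015) (nat_lit 187) .nil)))))) (.g (nat_lit 1) (.e (nat_lit 343634) (nat_lit 0) .nil) .nil))) 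
(.lf (nat_lit 568936) (.g (nat_lit 3628) (.e (nat_lit 458789) (nat_lit 23) (.e (nat_lit 532550) (nat_lit 12) (.e (nat_lit 360474) (nat_lit 8) (.e (nat_lit 557094) (nat_lit 12) .nil)))) (.g (nat_lit 0) (.e (nat_lit 346558) (nat_lit 0) .nil) .nil)))) (.nd (nat_lit 9) 
(.lf (nat_lit 568680) (.g (nat_lit 2218) (.e (nat_lit 458774) (nat_lit 18) (.e (nat_lit 5547) (nat_lit 306) (.e (nat_lit 2640) (nat_lit 165) (.e (nat_lit 180278) (nat_lit 32) (.e (nat_lit 1660) (nat_lit 115) (.e (nat_lit 393287) (nat_lit 25) .nil)))))) (.g (nat_lit 1) (.e (nat_lit 345837) (nat_lit 0) .nil) .nil))) 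
(.lf (nat_lit 569192) (.g (nat_lit 1511) (.e (nat_lit 466950) (nat_lit 11) (.e (nat_lit 335995) (nat_lit 1) (.e (nat_lit 57688) (nat_lit 156) (.e (nat_lit 163939) (nat_lit 18) .nil)))) (.g (nat_lit 0) (.e (nat_lit 347257) (nat_lit 0) .nil) .nil))))) (.nd (nat_lit 8) (.nd (nat_lit 9) 
(.lf (nat_lit 568552) (.g (nat_lit 1332) (.e (nat_lit 450605) (nat_lit 27) (.e (nat_lit 745493) (nat_lit 6) (.e (nat_lit 81938) (nat_lit 20) (.e (nat_lit 1886) (nat_lit 127) (.e (nat_lit 581636) (nat_lit 0) (.e (nat_lit 3016) (nat_lit 187) .nil)))))) (.g (nat_lit 1) (.e (nat_lit 345482) (nat_lit 0) .nil) .nil))) 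
(.lf (nat_lit 569064) (.g (nat_lit 1495) (.e (nat_lit 466945) (nat_lit 0) (.e (nat_lit 1786) (nat_lit 119) (.e (nat_lit 516120) (nat_lit 1) (.e (nat_lit 164329) (nat_lit 230) (.e (nat_lit 163941) (nat_lit 19) (.e (nat_lit 491264) (nat_lit 14) .nil)))))) (.g (nat_lit 1) (.e (nat_lit 347032) (nat_lit 0) .nil) .nil)))) (.nd (nat_lit 9) 
(.lf (nat_lit 568808) (.g (nat_lit 2701) (.e (nat_lit 458789) (nat_lit 23) (.e (nat_lit 532501) (nat_lit 1) (.e (nat_lit 57689) (nat_lit 156) (.e (nat_lit 163907) (nat_lit 12) (.e (nat_lit 426568) (nat_lit 34) (.e (nat_lit 393287) (nat_lit 25) .nil)))))) (.g (nat_lit 1) (.e (nat_lit 346125) (nat_lit 0) .nil) .nil))) 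
(.lf (nat_lit 569320) (.g (nat_lit 1258) (.e (nat_lit 466954) (nat_lit 11) (.e (nat_lit 335996) (nat_lit 1) (.e (nat_lit 57651) (nat_lit 152) (.e (nat_lit 2619) (nat_lit 164) .nil)))) (.g (nat_lit 0) (.e (nat_lit 347608) (nat_lit 0) .nil) .nil)))))))) (.nd (nat_lit 5) (.nd (nat_lit 6) (.nd (nat_lit 7) (.nd (nat_lit 8) (.nd (nat_lit 9) 
(.lf (nat_lit 568344) (.g (nat_lit 3111) (.e (nat_lit 458496) (nat_lit 10) (.e (nat_lit 573471) (nat_lit 11) (.e (nat_lit 16470) (nat_lit 14) (.e (nat_lit 491540) (nat_lit 3) .nil)))) (.g (nat_lit 0) (.e (nat_lit 343318) (nat_lit 0) .nil) .nil))) 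
(.lf (nat_lit 568856) (.g (nat_lit 1078) (.e (nat_lit 458789) (nat_lit 23) (.e (nat_lit 532504) (nat_lit 1) (.e (nat_lit 57651) (nat_lit 152) .nil))) (.g (nat_lit 0) (.e (nat_lit 346210) (nat_lit 0) .nil) .nil)))) (.nd (nat_lit 9) 
(.lf (nat_lit 568600) (.g (nat_lit 718) (.e (nat_lit 466688) (nat_lit 5) (.e (nat_lit 73730) (nat_lit 0) (.e (nat_lit 7261) (nat_lit 384) (.e (nat_lit 57424) (nat_lit 14) (.e (nat_lit 360192) (nat_lit 15) .nil))))) (.g (nat_lit 0) (.e (nat_lit 345598) (nat_lit 0) .nil) .nil))) 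
(.lf (nat_lit 569112) (.g (nat_lit 3103) (.e (nat_lit 466947) (nat_lit 0) (.e (nat_lit 1855) (nat_lit 124) (.e (nat_lit 557101) (nat_lit 13) (.e (nat_lit 172115) (nat_lit 10) (.e (nat_lit 434244) (nat_lit 28) (.e (nat_lit 573458) (nat_lit 9) (.e (nat_lit 7936) (nat_lit 37) .nil))))))) (.g (nat_lit 1) (.e (nat_lit 347099) (nat_lit 0) .nil) .nil))))) (.nd (nat_lit 8) (.nd (nat_lit 9) 
(.lf (nat_lit 568472) (.g (nat_lit 644) (.e (nat_lit 450593) (nat_lit 16) (.e (nat_lit 655364) (nat_lit 0) (.e (nat_lit 2884) (nat_lit 184) (.e (nat_lit 426317) (nat_lit 12) .nil)))) (.g (nat_lit 0) (.e (nat_lit 343753) (nat_lit 0) .nil) .nil))) 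
(.lf (nat_lit 568984) (.g (nat_lit 1719) (.e (nat_lit 458789) (nat_lit 23) (.e (nat_lit 532569) (nat_lit 16) (.e (nat_lit 401448) (nat_lit 10) (.e (nat_lit 434247) (nat_lit 28) .nil)))) (.g (nat_lit 0) (.e (nat_lit 346845) (nat_lit 0) .nil) .nil)))) (.nd (nat_lit 9) 
(.lf (nat_lit 568728) (.g (nat_lit 1298) (.e (nat_lit 458788) (nat_lit 23) (.e (nat_lit 532522) (nat_lit 7) (.e (nat_lit 319528) (nat_lit 16) (.e (nat_lit 286735) (nat_lit 3) .nil)))) (.g (nat_lit 0) (.e (nat_lit 346001) (nat_lit 0) .nil) .nil))) 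
(.lf (nat_lit 569240) (.g (nat_lit 3016) (.e (nat_lit 466954) (nat_lit 11) (.e (nat_lit 335986) (nat_lit 1) (.e (nat_lit 57688) (nat_lit 156) (.e (nat_lit 163907) (nat_lit 12) (.e (nat_lit 426436) (nat_lit 18) (.e (nat_lit 98382) (nat_lit 31) .nil)))))) (.g (nat_lit 1) (.e (nat_lit 347527) (nat_lit 0) .nil) .nil)))))) (.nd (nat_lit 7) (.nd (nat_lit 8) (.nd (nat_lit 9) 
(.lf (nat_lit 568408) (.g (nat_lit 671) (.e (nat_lit 450595) (nat_lit 17) (.e (nat_lit 663577) (nat_lit 9) (.e (nat_lit 7936) (nat_lit 24) (.e (nat_lit 360482) (nat_lit 15) (.e (nat_lit 647196) (nat_lit 9) (.e (nat_lit 7936) (nat_lit 35) .nil)))))) (.g (nat_lit 1) (.e (nat_lit 343604) (nat_lit 0) .nil) .nil))) 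
(.lf (nat_lit 568920) (.g (nat_lit 1744) (.e (nat_lit 458789) (nat_lit 23) (.e (nat_lit 532549) (nat_lit 12) (.e (nat_lit 360474) (nat_lit 8) (.e (nat_lit 557093) (nat_lit 12) .nil)))) (.g (nat_lit 0) (.e (nat_lit 346531) (nat_lit 0) .nil) .nil)))) (.nd (nat_lit 9) 
(.lf (nat_lit 568664) (.g (nat_lit 2562) (.e (nat_lit 458774) (nat_lit 18) (.e (nat_lit 5939) (nat_lit 322) (.e (nat_lit 57379) (nat_lit 3) (.e (nat_lit 98365) (nat_lit 26) (.e (nat_lit 426326) (nat_lit 13) (.e (nat_lit 491264) (nat_lit 13) .nil)))))) (.g (nat_lit 1) (.e (nat_lit 345756) (nat_lit 0) .nil) .nil))) 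
(.lf (nat_lit 569176) (.g (nat_lit 555) (.e (nat_lit 466950) (nat_lit 11) (.e (nat_lit 335986) (nat_lit 1) (.e (nat_lit 57692) (nat_lit 156) .nil))) (.g (nat_lit 0) (.e (nat_lit 347240) (nat_lit 0) .nil) .nil))))) (.nd (nat_lit 8) (.nd (nat_lit 9) 
(.lf (nat_lit 568536) (.g (nat_lit 1308) (.e (nat_lit 450605) (nat_lit 27) (.e (nat_lit 745491) (nat_lit 4) (.e (nat_lit 65616) (nat_lit 10) (.e (nat_lit 344138) (nat_lit 29) (.e (nat_lit 581636) (nat_lit 0) (.e (nat_lit 3022) (nat_lit 187) .nil)))))) (.g (nat_lit 1) (.e (nat_lit 345449) (nat_lit 0) .nil) .nil))) 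
(.lf (nat_lit 569048) (.g (nat_lit 1389) (.e (nat_lit 458810) (nat_lit 43) (.e (nat_lit 696343) (nat_lit 8) (.e (nat_lit 172113) (nat_lit 10) (.e (nat_lit 434207) (nat_lit 18) (.e (nat_lit 6416) (nat_lit 341) .nil))))) (.g (nat_lit 0) (.e (nat_lit 346991) (nat_lit 0) .nil) .nil)))) (.nd (nat_lit 9) 
(.lf (nat_lit 568792) (.g (nat_lit 2767) (.e (nat_lit 458789) (nat_lit 23) (.e (nat_lit 532499) (nat_lit 1) (.e (nat_lit 57688) (nat_lit 156) (.e (nat_lit 163907) (nat_lit 12) (.e (nat_lit 426566) (nat_lit 34) (.e (nat_lit 393285) (nat_lit 25) .nil)))))) (.g (nat_lit 1) (.e (nat_lit 346094) (nat_lit 0) .nil) .nil))) 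
(.lf (nat_lit 569304) (.g (nat_lit 3013) (.e (nat_lit 466954) (nat_lit 11) (.e (nat_lit 335995) (nat_lit 1) (.e (nat_lit 57687) (nat_lit 156) (.e (nat_lit 163903) (nat_lit 12) (.e (nat_lit 426436) (nat_lit 18) (.e (nat_lit 98381) (nat_lit 31) .nil)))))) (.g (nat_lit 1) (.e (nat_lit 347592) (nat_lit 0) .nil) .nil))))))) (.nd (nat_lit 6) (.nd (nat_lit 7) (.nd (nat_lit 8) (.nd (nat_lit 9) 
(.lf (nat_lit 568376) (.g (nat_lit 1144) (.e (nat_lit 450591) (nat_lit 13) (.e (nat_lit 630821) (nat_lit 16) (.e (nat_lit 65617) (nat_lit 10) (.e (nat_lit 344157) (nat_lit 36) (.e (nat_lit 638986) (nat_lit 5) (.e (nat_lit 3027) (nat_lit 187) .nil)))))) (.g (nat_lit 1) (.e (nat_lit 343446) (nat_lit 0) .nil) .nil))) 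
(.lf (nat_lit 568888) (.g (nat_lit 1304) (.e (nat_lit 458789) (nat_lit 23) (.e (nat_lit 532522) (nat_lit 7) (.e (nat_lit 319535) (nat_lit 17) (.e (nat_lit 294930) (nat_lit 3) .nil)))) (.g (nat_lit 0) (.e (nat_lit 346254) (nat_lit 0) .nil) .nil)))) (.nd (nat_lit 9) 
(.lf (nat_lit 568632) (.g (nat_lit 1716) (.e (nat_lit 466688) (nat_lit 5) (.e (nat_lit 73775) (nat_lit 26) (.e (nat_lit 778466) (nat_lit 11) (.e (nat_lit 24628) (nat_lit 9) (.e (nat_lit 336439) (nat_lit 31) .nil))))) (.g (nat_lit 0) (.e (nat_lit 345635) (nat_lit 0) .nil) .nil))) 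
(.lf (nat_lit 569144) (.g (nat_lit 831) (.e (nat_lit 466949) (nat_lit 0) (.e (nat_lit 2175) (nat_lit 143) (.e (nat_lit 712745) (nat_lit 27) (.e (nat_lit 425984) (nat_lit 0) .nil)))) (.g (nat_lit 0) (.e (nat_lit 347145) (nat_lit 0) .nil) .nil))))) (.nd (nat_lit 8) (.nd (nat_lit 9) 
(.lf (nat_lit 568504) (.g (nat_lit 935) (.e (nat_lit 458496) (nat_lit 21) (.e (nat_lit 696344) (nat_lit 8) (.e (nat_lit 172106) (nat_lit 10) (.e (nat_lit 434209) (nat_lit 18) .nil)))) (.g (nat_lit 0) (.e (nat_lit 344565) (nat_lit 0) .nil) .nil))) 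
(.lf (nat_lit 569016) (.g (nat_lit 4884) (.e (nat_lit 458790) (nat_lit 23) (.e (nat_lit 532550) (nat_lit 12) (.e (nat_lit 360475) (nat_lit 8) (.e (nat_lit 557089) (nat_lit 12) .nil)))) (.g (nat_lit 0) (.e (nat_lit 346918) (nat_lit 0) .nil) .nil)))) (.nd (nat_lit 9) 
(.lf (nat_lit 568760) (.g (nat_lit 5166) (.e (nat_lit 458788) (nat_lit 23) (.e (nat_lit 532550) (nat_lit 12) (.e (nat_lit 360475) (nat_lit 8) (.e (nat_lit 557091) (nat_lit 12) (.e (nat_lit 163844) (nat_lit 0) .nil))))) (.g (nat_lit 0) (.e (nat_lit 346044) (nat_lit 0) .nil) .nil))) 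
(.lf (nat_lit 569272) (.g (nat_lit 2355) (.e (nat_lit 466954) (nat_lit 11) (.e (nat_lit 335988) (nat_lit 1) (.e (nat_lit 57690) (nat_lit 156) (.e (nat_lit 163907) (nat_lit 12) (.e (nat_lit 426438) (nat_lit 18) .nil))))) (.g (nat_lit 0) (.e (nat_lit 347559) (nat_lit 0) .nil) .nil)))))) (.nd (nat_lit 7) (.nd (nat_lit 8) (.nd (nat_lit 9) 
(.lf (nat_lit 568440) (.g (nat_lit 441) (.e (nat_lit 458496) (nat_lit 15) (.e (nat_lit 647183) (nat_lit 4) (.e (nat_lit 172100) (nat_lit 9) .nil))) (.g (nat_lit 0) (.e (nat_lit 343681) (nat_lit 0) .nil) .nil))) 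
(.lf (nat_lit 568952) (.g (nat_lit 2591) (.e (nat_lit 458789) (nat_lit 23) (.e (nat_lit 532569) (nat_lit 16) (.e (nat_lit 401448) (nat_lit 10) (.e (nat_lit 434231) (nat_lit 23) (.e (nat_lit 532481) (nat_lit 0) (.e (nat_lit 6696) (nat_lit 357) (.e (nat_lit 3033) (nat_lit 188) .nil))))))) (.g (nat_lit 1) (.e (nat_lit 346809) (nat_lit 0) .nil) .nil)))) (.nd (nat_lit 9) 
(.lf (nat_lit 568696) (.g (nat_lit 641) (.e (nat_lit 458787) (nat_lit 23) (.e (nat_lit 532503) (nat_lit 1) (.e (nat_lit 57653) (nat_lit 152) .nil))) (.g (nat_lit 0) (.e (nat_lit 345958) (nat_lit 0) .nil) .nil))) 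
(.lf (nat_lit 569208) (.g (nat_lit 807) (.e (nat_lit 466952) (nat_lit 11) (.e (nat_lit 335998) (nat_lit 1) (.e (nat_lit 57686) (nat_lit 156) .nil))) (.g (nat_lit 0) (.e (nat_lit 347345) (nat_lit 0) .nil) .nil))))) (.nd (nat_lit 8) (.nd (nat_lit 9) 
(.lf (nat_lit 568568) (.g (nat_lit 1258) (.e (nat_lit 450605) (nat_lit 27) (.e (nat_lit 745493) (nat_lit 6) (.e (nat_lit 81946) (nat_lit 20) (.e (nat_lit 1886) (nat_lit 127) (.e (nat_lit 581636) (nat_lit 0) (.e (nat_lit 3022) (nat_lit 187) .nil)))))) (.g (nat_lit 1) (.e (nat_lit 345510) (nat_lit 0) .nil) .nil))) 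
(.lf (nat_lit 569080) (.g (nat_lit 1430) (.e (nat_lit 466946) (nat_lit 0) (.e (nat_lit 2174) (nat_lit 143) (.e (nat_lit 712745) (nat_lit 27) (.e (nat_lit 425984) (nat_lit 0) .nil)))) (.g (nat_lit 0) (.e (nat_lit 347061) (nat_lit 0) .nil) .nil)))) (.nd (nat_lit 9) 
(.lf (nat_lit 568824) (.g (nat_lit 2219) (.e (nat_lit 458789) (nat_lit 23) (.e (nat_lit 532502) (nat_lit 1) (.e (nat_lit 57691) (nat_lit 156) (.e (nat_lit 163907) (nat_lit 12) (.e (nat_lit 426566) (nat_lit 34) (.e (nat_lit 393285) (nat_lit 25) .nil)))))) (.g (nat_lit 1) (.e (nat_lit 346148) (nat_lit 0) .nil) .nil))) 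
(.lf (nat_lit 569336) (.g (nat_lit 2198) (.e (nat_lit 466954) (nat_lit 11) (.e (nat_lit 335996) (nat_lit 1) (.e (nat_lit 57692) (nat_lit 156) (.e (nat_lit 163907) (nat_lit 12) (.e (nat_lit 426437) (nat_lit 18) (.e (nat_lit 98381) (nat_lit 31) .nil)))))) (.g (nat_lit 1) (.e (nat_lit 347624) (nat_lit 0) .nil) .nil)))))))))) 
(.nd (nat_lit 3) (.nd (nat_lit 4) (.nd (nat_lit 5) (.nd (nat_lit 6) (.nd (nat_lit 7) 
(.nd (nat_lit 8) (.nd (nat_lit 9) 
(.lf (nat_lit 568324) (.g (nat_lit 1686) (.e (nat_lit 450588) (nat_lit 10) (.e (nat_lit 573475) (nat_lit 12) (.e (nat_lit 57354) (nat_lit 0) (.e (nat_lit 7147) (nat_lit 382) (.e (nat_lit 1207) (nat_lit 89) .nil))))) (.g (nat_lit 0) (.e (nat_lit 343170) (nat_lit 0) .nil) .nil))) 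
(.lf (nat_lit 568836) (.g (nat_lit 3093) (.e (nat_lit 458789) (nat_lit 23) (.e (nat_lit 532503) (nat_lit 1) (.e (nat_lit 57687) (nat_lit 156) (.e (nat_lit 163902) (nat_lit 12) (.e (nat_lit 426568) (nat_lit 34) (.e (nat_lit 393286) (nat_lit 25) .nil)))))) (.g (nat_lit 1) (.e (nat_lit 346172) (nat_lit 0) .nil) .nil)))) (.nd (nat_lit 9) 
(.lf (nat_lit 568580) (.g (nat_lit 154) (.e (nat_lit 466688) (nat_lit 4) (.e (nat_lit 65580) (nat_lit 6) (.e (nat_lit 147496) (nat_lit 11) .nil))) (.g (nat_lit 0) (.e (nat_lit 345536) (nat_lit 0) .nil) .nil))) 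
(.lf (nat_lit 569092) (.g (nat_lit 2464) (.e (nat_lit 466947) (nat_lit 0) (.e (nat_lit 1800) (nat_lit 119) (.e (nat_lit 516119) (nat_lit 1) (.e (nat_lit 164325) (nat_lit 230) (.e (nat_lit 163941) (nat_lit 19) (.e (nat_lit 491264) (nat_lit 14) .nil)))))) (.g (nat_lit 1) (.e (nat_lit 347078) (nat_lit 0) .nil) .nil))))) (.nd (nat_lit 8) (.nd (nat_lit 9) 
(.lf (nat_lit 568452) (.g (nat_lit 1256) (.e (nat_lit 458496) (nat_lit 15) (.e (nat_lit 647183) (nat_lit 4) (.e (nat_lit 172112) (nat_lit 10) (.e (nat_lit 434272) (nat_lit 38) (.e (nat_lit 655363) (nat_lit 0) .nil))))) (.g (nat_lit 0) (.e (nat_lit 343693) (nat_lit 0) .nil) .nil))) 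
(.lf (nat_lit 568964) (.g (nat_lit 3720) (.e (nat_lit 458789) (nat_lit 23) (.e (nat_lit 532569) (nat_lit 16) (.e (nat_lit 401448) (nat_lit 10) (.e (nat_lit 434232) (nat_lit 23) (.e (nat_lit 532484) (nat_lit 0) (.e (nat_lit 6691) (nat_lit 357) (.e (nat_lit 3034) (nat_lit 188) .nil))))))) (.g (nat_lit 1) (.e (nat_lit 346821) (nat_lit 0) .nil) .nil)))) (.nd (nat_lit 9) 
(.lf (nat_lit 568708) (.g (nat_lit 5737) (.e (nat_lit 458787) (nat_lit 23) (.e (nat_lit 532550) (nat_lit 12) (.e (nat_lit 360474) (nat_lit 8) (.e (nat_lit 557089) (nat_lit 12) .nil)))) (.g (nat_lit 0) (.e (nat_lit 345981) (nat_lit 0) .nil) .nil))) 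
(.lf (nat_lit 569220) (.g (nat_lit 733) (.e (nat_lit 466954) (nat_lit 11) (.e (nat_lit 335986) (nat_lit 1) (.e (nat_lit 57654) (nat_lit 152) .nil))) (.g (nat_lit 0) (.e (nat_lit 347507) (nat_lit 0) .nil) .nil)))))) (.nd (nat_lit 7) (.nd (nat_lit 8) (.nd (nat_lit 9) 
(.lf (nat_lit 568388) (.g (nat_lit 1048) (.e (nat_lit 450592) (nat_lit 14) (.e (nat_lit 639008) (nat_lit 13) (.e (nat_lit 1592) (nat_lit 111) (.e (nat_lit 360480) (nat_lit 14) (.e (nat_lit 638986) (nat_lit 5) (.e (nat_lit 3015) (nat_lit 187) .nil)))))) (.g (nat_lit 1) (.e (nat_lit 343495) (nat_lit 0) .nil) .nil))) 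
(.lf (nat_lit 568900) (.g (nat_lit 3926) (.e (nat_lit 458789) (nat_lit 23) (.e (nat_lit 532523) (nat_lit 7) (.e (nat_lit 319533) (nat_lit 16) (.e (nat_lit 286734) (nat_lit 3) (.e (nat_lit 98365) (nat_lit 26) (.e (nat_lit 426298) (nat_lit 11) .nil)))))) (.g (nat_lit 1) (.e (nat_lit 346266) (nat_lit 0) .nil) .nil)))) (.nd (nat_lit 9) 
(.lf (nat_lit 568644) (.g (nat_lit 354) (.e (nat_lit 458760) (nat_lit 13) (.e (nat_lit 2777) (nat_lit 178) (.e (nat_lit 286770) (nat_lit 28) .nil))) (.g (nat_lit 0) (.e (nat_lit 345669) (nat_lit 0) .nil) .nil))) 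
(.lf (nat_lit 569156) (.g (nat_lit 1393) (.e (nat_lit 474880) (nat_lit 3) (.e (nat_lit 98335) (nat_lit 18) (.e (nat_lit 164325) (nat_lit 230) (.e (nat_lit 163943) (nat_lit 19) (.e (nat_lit 491264) (nat_lit 14) .nil))))) (.g (nat_lit 0) (.e (nat_lit 347190) (nat_lit 0) .nil) .nil))))) (.nd (nat_lit 8) (.nd (nat_lit 9) 
(.lf (nat_lit 568516) (.g (nat_lit 1723) (.e (nat_lit 450605) (nat_lit 27) (.e (nat_lit 745475) (nat_lit 0) (.e (nat_lit 1598) (nat_lit 111) (.e (nat_lit 360477) (nat_lit 11) (.e (nat_lit 581636) (nat_lit 0) (.e (nat_lit 3016) (nat_lit 187) .nil)))))) (.g (nat_lit 1) (.e (nat_lit 345423) (nat_lit 0) .nil) .nil))) 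
(.lf (nat_lit 569028) (.g (nat_lit 2513) (.e (nat_lit 458792) (nat_lit 25) (.e (nat_lit 548913) (nat_lit 18) (.e (nat_lit 172124) (nat_lit 14) (.e (nat_lit 491540) (nat_lit 3) (.e (nat_lit 98365) (nat_lit 26) (.e (nat_lit 426298) (nat_lit 11) .nil)))))) (.g (nat_lit 1) (.e (nat_lit 346939) (nat_lit 0) .nil) .nil)))) (.nd (nat_lit 9) 
(.lf (nat_lit 568772) (.g (nat_lit 2500) (.e (nat_lit 458789) (nat_lit 23) (.e (nat_lit 532482) (nat_lit 0) (.e (nat_lit 6724) (nat_lit 362) (.e (nat_lit 180250) (nat_lit 10) (.e (nat_lit 573456) (nat_lit 9) (.e (nat_lit 430) (nat_lit 32) (.e (nat_lit 426300) (nat_lit 11) .nil))))))) (.g (nat_lit 1) (.e (nat_lit 346069) (nat_lit 0) .nil) .nil))) 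
(.lf (nat_lit 569284) (.g (nat_lit 1336) (.e (nat_lit 466954) (nat_lit 11) (.e (nat_lit 335994) (nat_lit 1) (.e (nat_lit 57687) (nat_lit 156) (.e (nat_lit 163902) (nat_lit 12) (.e (nat_lit 426438) (nat_lit 18) .nil))))) (.g (nat_lit 0) (.e (nat_lit 347571) (nat_lit 0) .nil) .nil))))))) (.nd (nat_lit 6) (.nd (nat_lit 7) (.nd (nat_lit 8) (.nd (nat_lit 9) 
(.lf (nat_lit 568356) (.g (nat_lit 1441) (.e (nat_lit 450584) (nat_lit 9) (.e (nat_lit 573184) (nat_lit 6) (.e (nat_lit 81938) (nat_lit 20) (.e (nat_lit 2391) (nat_lit 156) (.e (nat_lit 819203) (nat_lit 0) (.e (nat_lit 3027) (nat_lit 187) .nil)))))) (.g (nat_lit 1) (.e (nat_lit 343400) (nat_lit 0) .nil) .nil))) 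
(.lf (nat_lit 568868) (.g (nat_lit 2304) (.e (nat_lit 458789) (nat_lit 23) (.e (nat_lit 532513) (nat_lit 3) (.e (nat_lit 114718) (nat_lit 23) (.e (nat_lit 98333) (nat_lit 18) (.e (nat_lit 164398) (nat_lit 256) .nil))))) (.g (nat_lit 0) (.e (nat_lit 346231) (nat_lit 0) .nil) .nil)))) (.nd (nat_lit 9) 
(.lf (nat_lit 568612) (.g (nat_lit 1265) (.e (nat_lit 466688) (nat_lit 5) (.e (nat_lit 73731) (nat_lit 0) (.e (nat_lit 7265) (nat_lit 384) (.e (nat_lit 57436) (nat_lit 17) (.e (nat_lit 384768) (nat_lit 15) .nil))))) (.g (nat_lit 0) (.e (nat_lit 345611) (nat_lit 0) .nil) .nil))) 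
(.lf (nat_lit 569124) (.g (nat_lit 467) (.e (nat_lit 466947) (nat_lit 0) (.e (nat_lit 2174) (nat_lit 143) (.e (nat_lit 712745) (nat_lit 27) .nil))) (.g (nat_lit 0) (.e (nat_lit 347120) (nat_lit 0) .nil) .nil))))) (.nd (nat_lit 8) (.nd (nat_lit 9) 
(.lf (nat_lit 568484) (.g (nat_lit 2576) (.e (nat_lit 450593) (nat_lit 16) (.e (nat_lit 655378) (nat_lit 4) (.e (nat_lit 172125) (nat_lit 14) (.e (nat_lit 491550) (nat_lit 9) (.e (nat_lit 336432) (nat_lit 30) .nil))))) (.g (nat_lit 1) (.e (nat_lit 343879) (nat_lit 0) .nil) .nil))) 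
(.lf (nat_lit 568996) (.g (nat_lit 2258) (.e (nat_lit 458789) (nat_lit 23) (.e (nat_lit 532569) (nat_lit 16) (.e (nat_lit 401460) (nat_lit 14) (.e (nat_lit 491539) (nat_lit 3) (.e (nat_lit 98365) (nat_lit 26) .nil))))) (.g (nat_lit 0) (.e (nat_lit 346859) (nat_lit 0) .nil) .nil)))) (.nd (nat_lit 9) 
(.lf (nat_lit 568740) (.g (nat_lit 5069) (.e (nat_lit 458788) (nat_lit 23) (.e (nat_lit 532550) (nat_lit 12) (.e (nat_lit 360474) (nat_lit 8) (.e (nat_lit 557091) (nat_lit 12) .nil)))) (.g (nat_lit 0) (.e (nat_lit 346023) (nat_lit 0) .nil) .nil))) 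
(.lf (nat_lit 569252) (.g (nat_lit 2337) (.e (nat_lit 466954) (nat_lit 11) (.e (nat_lit 335986) (nat_lit 1) (.e (nat_lit 57691) (nat_lit 156) (.e (nat_lit 163907) (nat_lit 12) (.e (nat_lit 426437) (nat_lit 18) (.e (nat_lit 98381) (nat_lit 31) .nil)))))) (.g (nat_lit 1) (.e (nat_lit 347539) (nat_lit 0) .nil) .nil)))))) (.nd (nat_lit 7) (.nd (nat_lit 8) (.nd (nat_lit 9) 
(.lf (nat_lit 568420) (.g (nat_lit 3439) (.e (nat_lit 450595) (nat_lit 17) (.e (nat_lit 663589) (nat_lit 14) (.e (nat_lit 2798) (nat_lit 180) (.e (nat_lit 303143) (nat_lit 12) (.e (nat_lit 475210) (nat_lit 41) (.e (nat_lit 712753) (nat_lit 30) .nil)))))) (.g (nat_lit 1) (.e (nat_lit 343626) (nat_lit 0) .nil) .nil))) 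
(.lf (nat_lit 568932) (.g (nat_lit 4644) (.e (nat_lit 458789) (nat_lit 23) (.e (nat_lit 532550) (nat_lit 12) (.e (nat_lit 360474) (nat_lit 8) (.e (nat_lit 557088) (nat_lit 12) .nil)))) (.g (nat_lit 0) (.e (nat_lit 346554) (nat_lit 0) .nil) .nil)))) (.nd (nat_lit 9) 
(.lf (nat_lit 568676) (.g (nat_lit 3002) (.e (nat_lit 458774) (nat_lit 18) (.e (nat_lit 5547) (nat_lit 306) (.e (nat_lit 2638) (nat_lit 165) (.e (nat_lit 180277) (nat_lit 32) (.e (nat_lit 1660) (nat_lit 115) (.e (nat_lit 393286) (nat_lit 25) .nil)))))) (.g (nat_lit 1) (.e (nat_lit 345826) (nat_lit 0) .nil) .nil))) 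
(.lf (nat_lit 569188) (.g (nat_lit 2872) (.e (nat_lit 466950) (nat_lit 11) (.e (nat_lit 335995) (nat_lit 1) (.e (nat_lit 57688) (nat_lit 156) (.e (nat_lit 163907) (nat_lit 12) (.e (nat_lit 426436) (nat_lit 18) .nil))))) (.g (nat_lit 0) (.e (nat_lit 347253) (nat_lit 0) .nil) .nil))))) (.nd (nat_lit 8) (.nd (nat_lit 9) 
(.lf (nat_lit 568548) (.g (nat_lit 1324) (.e (nat_lit 450605) (nat_lit 27) (.e (nat_lit 745493) (nat_lit 6) (.e (nat_lit 81938) (nat_lit 20) (.e (nat_lit 1885) (nat_lit 127) (.e (nat_lit 581636) (nat_lit 0) (.e (nat_lit 3016) (nat_lit 187) .nil)))))) (.g (nat_lit 1) (.e (nat_lit 345475) (nat_lit 0) .nil) .nil))) 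
(.lf (nat_lit 569060) (.g (nat_lit 1124) (.e (nat_lit 466944) (nat_lit 0) (.e (nat_lit 1786) (nat_lit 119) (.e (nat_lit 516120) (nat_lit 1) (.e (nat_lit 164329) (nat_lit 230) (.e (nat_lit 163941) (nat_lit 19) .nil))))) (.g (nat_lit 0) (.e (nat_lit 347014) (nat_lit 0) .nil) .nil)))) (.nd (nat_lit 9) 
(.lf (nat_lit 568804) (.g (nat_lit 2294) (.e (nat_lit 458789) (nat_lit 23) (.e (nat_lit 532501) (nat_lit 1) (.e (nat_lit 57689) (nat_lit 156) (.e (nat_lit 163905) (nat_lit 12) (.e (nat_lit 426568) (nat_lit 34) (.e (nat_lit 393286) (nat_lit 25) .nil)))))) (.g (nat_lit 1) (.e (nat_lit 346121) (nat_lit 0) .nil) .nil))) 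
(.lf (nat_lit 569316) (.g (nat_lit 2171) (.e (nat_lit 466954) (nat_lit 11) (.e (nat_lit 335995) (nat_lit 1) (.e (nat_lit 57691) (nat_lit 156) (.e (nat_lit 163907) (nat_lit 12) (.e (nat_lit 426436) (nat_lit 18) .nil))))) (.g (nat_lit 0) (.e (nat_lit 347604) (nat_lit 0) .nil) .nil)))))))) (.nd (nat_lit 5) (.nd (nat_lit 6) (.nd (nat_lit 7) (.nd (nat_lit 8) (.nd (nat_lit 9) 
(.lf (nat_lit 568340) (.g (nat_lit 619) (.e (nat_lit 450588) (nat_lit 10) (.e (nat_lit 573503) (nat_lit 18) (.e (nat_lit 1008) (nat_lit 81) (.e (nat_lit 5405) (nat_lit 302) .nil)))) (.g (nat_lit 0) (.e (nat_lit 343255) (nat_lit 0) .nil) .nil))) 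
(.lf (nat_lit 568852) (.g (nat_lit 2795) (.e (nat_lit 458789) (nat_lit 23) (.e (nat_lit 532503) (nat_lit 1) (.e (nat_lit 57691) (nat_lit 156) (.e (nat_lit 163907) (nat_lit 12) (.e (nat_lit 426568) (nat_lit 34) (.e (nat_lit 393287) (nat_lit 25) .nil)))))) (.g (nat_lit 1) (.e (nat_lit 346197) (nat_lit 0) .nil) .nil)))) (.nd (nat_lit 9) 
(.lf (nat_lit 568596) (.g (nat_lit 2114) (.e (nat_lit 466688) (nat_lit 5) (.e (nat_lit 73729) (nat_lit 0) (.e (nat_lit 7266) (nat_lit 384) (.e (nat_lit 57424) (nat_lit 14) (.e (nat_lit 360192) (nat_lit 15) .nil))))) (.g (nat_lit 0) (.e (nat_lit 345594) (nat_lit 0) .nil) .nil))) 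
(.lf (nat_lit 569108) (.g (nat_lit 359) (.e (nat_lit 466947) (nat_lit 0) (.e (nat_lit 1800) (nat_lit 119) (.e (nat_lit 516126) (nat_lit 2) .nil))) (.g (nat_lit 0) (.e (nat_lit 347094) (nat_lit 0) .nil) .nil))))) (.nd (nat_lit 8) (.nd (nat_lit 9) 
(.lf (nat_lit 568468) (.g (nat_lit 1411) (.e (nat_lit 458496) (nat_lit 15) (.e (nat_lit 647183) (nat_lit 4) (.e (nat_lit 172124) (nat_lit 14) (.e (nat_lit 491548) (nat_lit 9) (.e (nat_lit 336433) (nat_lit 30) .nil))))) (.g (nat_lit 0) (.e (nat_lit 343711) (nat_lit 0) .nil) .nil))) 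
(.lf (nat_lit 568980) (.g (nat_lit 1694) (.e (nat_lit 458789) (nat_lit 23) (.e (nat_lit 532569) (nat_lit 16) (.e (nat_lit 401448) (nat_lit 10) (.e (nat_lit 434246) (nat_lit 28) .nil)))) (.g (nat_lit 0) (.e (nat_lit 346841) (nat_lit 0) .nil) .nil)))) (.nd (nat_lit 9) 
(.lf (nat_lit 568724) (.g (nat_lit 1865) (.e (nat_lit 458788) (nat_lit 23) (.e (nat_lit 532503) (nat_lit 1) (.e (nat_lit 57651) (nat_lit 152) (.e (nat_lit 2619) (nat_lit 164) (.e (nat_lit 179968) (nat_lit 34) .nil))))) (.g (nat_lit 0) (.e (nat_lit 345997) (nat_lit 0) .nil) .nil))) 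
(.lf (nat_lit 569236) (.g (nat_lit 2008) (.e (nat_lit 466954) (nat_lit 11) (.e (nat_lit 335986) (nat_lit 1) (.e (nat_lit 57688) (nat_lit 156) (.e (nat_lit 163905) (nat_lit 12) (.e (nat_lit 426436) (nat_lit 18) .nil))))) (.g (nat_lit 0) (.e (nat_lit 347523) (nat_lit 0) .nil) .nil)))))) (.nd (nat_lit 7) (.nd (nat_lit 8) (.nd (nat_lit 9) 
(.lf (nat_lit 568404) (.g (nat_lit 961) (.e (nat_lit 450595) (nat_lit 17) (.e (nat_lit 663574) (nat_lit 9) (.e (nat_lit 7936) (nat_lit 24) (.e (nat_lit 360484) (nat_lit 15) (.e (nat_lit 647189) (nat_lit 9) (.e (nat_lit 7936) (nat_lit 35) .nil)))))) (.g (nat_lit 1) (.e (nat_lit 343599) (nat_lit 0) .nil) .nil))) 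
(.lf (nat_lit 568916) (.g (nat_lit 2872) (.e (nat_lit 458789) (nat_lit 23) (.e (nat_lit 532549) (nat_lit 12) (.e (nat_lit 360473) (nat_lit 8) (.e (nat_lit 557091) (nat_lit 12) (.e (nat_lit 163849) (nat_lit 0) .nil))))) (.g (nat_lit 0) (.e (nat_lit 346526) (nat_lit 0) .nil) .nil)))) (.nd (nat_lit 9) 
(.lf (nat_lit 568660) (.g (nat_lit 2851) (.e (nat_lit 458774) (nat_lit 18) (.e (nat_lit 5224) (nat_lit 296) (.e (nat_lit 163871) (nat_lit 2) (.e (nat_lit 196656) (nat_lit 11) (.e (nat_lit 16465) (nat_lit 13) (.e (nat_lit 491264) (nat_lit 13) .nil)))))) (.g (nat_lit 1) (.e (nat_lit 345737) (nat_lit 0) .nil) .nil))) 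
(.lf (nat_lit 569172) (.g (nat_lit 1969) (.e (nat_lit 474880) (nat_lit 5) (.e (nat_lit 114711) (nat_lit 21) (.e (nat_lit 57847) (nat_lit 252) (.e (nat_lit 57407) (nat_lit 12) (.e (nat_lit 336117) (nat_lit 9) .nil))))) (.g (nat_lit 0) (.e (nat_lit 347214) (nat_lit 0) .nil) .nil))))) (.nd (nat_lit 8) (.nd (nat_lit 9) 
(.lf (nat_lit 568532) (.g (nat_lit 1353) (.e (nat_lit 450605) (nat_lit 27) (.e (nat_lit 745491) (nat_lit 4) (.e (nat_lit 65611) (nat_lit 10) (.e (nat_lit 344138) (nat_lit 29) (.e (nat_lit 581636) (nat_lit 0) (.e (nat_lit 3016) (nat_lit 187) .nil)))))) (.g (nat_lit 1) (.e (nat_lit 345444) (nat_lit 0) .nil) .nil))) 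
(.lf (nat_lit 569044) (.g (nat_lit 3536) (.e (nat_lit 458795) (nat_lit 28) (.e (nat_lit 573489) (nat_lit 14) (.e (nat_lit 73755) (nat_lit 8) (.e (nat_lit 557091) (nat_lit 12) (.e (nat_lit 164006) (nat_lit 41) .nil))))) (.g (nat_lit 0) (.e (nat_lit 346965) (nat_lit 0) .nil) .nil)))) (.nd (nat_lit 9) 
(.lf (nat_lit 568788) (.g (nat_lit 2894) (.e (nat_lit 458789) (nat_lit 23) (.e (nat_lit 532499) (nat_lit 1) (.e (nat_lit 57688) (nat_lit 156) (.e (nat_lit 163902) (nat_lit 12) (.e (nat_lit 426566) (nat_lit 34) (.e (nat_lit 393285) (nat_lit 25) .nil)))))) (.g (nat_lit 1) (.e (nat_lit 346090) (nat_lit 0) .nil) .nil))) 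
(.lf (nat_lit 569300) (.g (nat_lit 689) (.e (nat_lit 466954) (nat_lit 11) (.e (nat_lit 335995) (nat_lit 1) (.e (nat_lit 57685) (nat_lit 156) .nil))) (.g (nat_lit 0) (.e (nat_lit 347588) (nat_lit 0) .nil) .nil))))))) (.nd (nat_lit 6) (.nd (nat_lit 7) (.nd (nat_lit 8) (.nd (nat_lit 9) 
(.lf (nat_lit 568372) (.g (nat_lit 1396) (.e (nat_lit 450591) (nat_lit 13) (.e (nat_lit 630821) (nat_lit 16) (.e (nat_lit 65617) (nat_lit 10) (.e (nat_lit 344157) (nat_lit 36) (.e (nat_lit 638985) (nat_lit 5) (.e (nat_lit 3016) (nat_lit 187) .nil)))))) (.g (nat_lit 1) (.e (nat_lit 343442) (nat_lit 0) .nil) .nil))) 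
(.lf (nat_lit 568884) (.g (nat_lit 2914) (.e (nat_lit 458789) (nat_lit 23) (.e (nat_lit 532522) (nat_lit 7) (.e (nat_lit 319529) (nat_lit 16) (.e (nat_lit 286735) (nat_lit 3) (.e (nat_lit 98364) (nat_lit 26) .nil))))) (.g (nat_lit 0) (.e (nat_lit 346250) (nat_lit 0) .nil) .nil)))) (.nd (nat_lit 9) 
(.lf (nat_lit 568628) (.g (nat_lit 1152) (.e (nat_lit 466688) (nat_lit 5) (.e (nat_lit 73775) (nat_lit 26) (.e (nat_lit 778466) (nat_lit 11) (.e (nat_lit 24624) (nat_lit 9) .nil)))) (.g (nat_lit 0) (.e (nat_lit 345631) (nat_lit 0) .nil) .nil))) 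
(.lf (nat_lit 569140) (.g (nat_lit 1216) (.e (nat_lit 466949) (nat_lit 0) (.e (nat_lit 2059) (nat_lit 142) (.e (nat_lit 704595) (nat_lit 5) (.e (nat_lit 180278) (nat_lit 32) .nil)))) (.g (nat_lit 0) (.e (nat_lit 347140) (nat_lit 0) .nil) .nil))))) (.nd (nat_lit 8) (.nd (nat_lit 9) 
(.lf (nat_lit 568500) (.g (nat_lit 4456) (.e (nat_lit 450601) (nat_lit 21) (.e (nat_lit 696344) (nat_lit 8) (.e (nat_lit 172115) (nat_lit 10) (.e (nat_lit 434209) (nat_lit 18) (.e (nat_lit 6425) (nat_lit 342) (.e (nat_lit 229415) (nat_lit 15) .nil)))))) (.g (nat_lit 1) (.e (nat_lit 344450) (nat_lit 0) .nil) .nil))) 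
(.lf (nat_lit 569012) (.g (nat_lit 1174) (.e (nat_lit 458790) (nat_lit 23) (.e (nat_lit 532550) (nat_lit 12) (.e (nat_lit 360474) (nat_lit 8) .nil))) (.g (nat_lit 0) (.e (nat_lit 346914) (nat_lit 0) .nil) .nil)))) (.nd (nat_lit 9) 
(.lf (nat_lit 568756) (.g (nat_lit 6718) (.e (nat_lit 458788) (nat_lit 23) (.e (nat_lit 532550) (nat_lit 12) (.e (nat_lit 360475) (nat_lit 8) (.e (nat_lit 557090) (nat_lit 12) .nil)))) (.g (nat_lit 0) (.e (nat_lit 346040) (nat_lit 0) .nil) .nil))) 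
(.lf (nat_lit 569268) (.g (nat_lit 1719) (.e (nat_lit 466954) (nat_lit 11) (.e (nat_lit 335988) (nat_lit 1) (.e (nat_lit 57651) (nat_lit 152) (.e (nat_lit 2619) (nat_lit 164) (.e (nat_lit 179968) (nat_lit 18) .nil))))) (.g (nat_lit 0) (.e (nat_lit 347555) (nat_lit 0) .nil) .nil)))))) (.nd (nat_lit 7) (.nd (nat_lit 8) (.nd (nat_lit 9) 
(.lf (nat_lit 568436) (.g (nat_lit 1212) (.e (nat_lit 458496) (nat_lit 15) (.e (nat_lit 647183) (nat_lit 4) (.e (nat_lit 172079) (nat_lit 7) (.e (nat_lit 409642) (nat_lit 17) (.e (nat_lit 302848) (nat_lit 30) .nil))))) (.g (nat_lit 0) (.e (nat_lit 343676) (nat_lit 0) .nil) .nil))) 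
(.lf (nat_lit 568948) (.g (nat_lit 2268) (.e (nat_lit 458789) (nat_lit 23) (.e (nat_lit 532569) (nat_lit 16) (.e (nat_lit 401432) (nat_lit 7) (.e (nat_lit 409614) (nat_lit 10) .nil)))) (.g (nat_lit 0) (.e (nat_lit 346773) (nat_lit 0) .nil) .nil)))) (.nd (nat_lit 9) 
(.lf (nat_lit 568692) (.g (nat_lit 1687) (.e (nat_lit 466688) (nat_lit 18) (.e (nat_lit 5195) (nat_lit 294) (.e (nat_lit 57411) (nat_lit 12) (.e (nat_lit 336182) (nat_lit 11) (.e (nat_lit 376576) (nat_lit 18) .nil))))) (.g (nat_lit 0) (.e (nat_lit 345941) (nat_lit 0) .nil) .nil))) 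
(.lf (nat_lit 569204) (.g (nat_lit 1710) (.e (nat_lit 466951) (nat_lit 11) (.e (nat_lit 336407) (nat_lit 27) (.e (nat_lit 426098) (nat_lit 1) (.e (nat_lit 164398) (nat_lit 256) (.e (nat_lit 57378) (nat_lit 3) .nil))))) (.g (nat_lit 0) (.e (nat_lit 347335) (nat_lit 0) .nil) .nil))))) (.nd (nat_lit 8) (.nd (nat_lit 9) 
(.lf (nat_lit 568564) (.g (nat_lit 1041) (.e (nat_lit 450605) (nat_lit 27) (.e (nat_lit 745493) (nat_lit 6) (.e (nat_lit 81943) (nat_lit 20) (.e (nat_lit 1886) (nat_lit 127) (.e (nat_lit 581636) (nat_lit 0) (.e (nat_lit 3022) (nat_lit 187) .nil)))))) (.g (nat_lit 1) (.e (nat_lit 345503) (nat_lit 0) .nil) .nil))) 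
(.lf (nat_lit 569076) (.g (nat_lit 1182) (.e (nat_lit 466946) (nat_lit 0) (.e (nat_lit 2059) (nat_lit 142) (.e (nat_lit 704595) (nat_lit 5) (.e (nat_lit 180276) (nat_lit 32) .nil)))) (.g (nat_lit 0) (.e (nat_lit 347056) (nat_lit 0) .nil) .nil)))) (.nd (nat_lit 9) 
(.lf (nat_lit 568820) (.g (nat_lit 2439) (.e (nat_lit 458789) (nat_lit 23) (.e (nat_lit 532502) (nat_lit 1) (.e (nat_lit 57688) (nat_lit 156) (.e (nat_lit 163907) (nat_lit 12) (.e (nat_lit 426566) (nat_lit 34) (.e (nat_lit 393286) (nat_lit 25) .nil)))))) (.g (nat_lit 1) (.e (nat_lit 346142) (nat_lit 0) .nil) .nil))) 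
(.lf (nat_lit 569332) (.g (nat_lit 1391) (.e (nat_lit 466954) (nat_lit 11) (.e (nat_lit 335996) (nat_lit 1) (.e (nat_lit 57692) (nat_lit 156) (.e (nat_lit 163906) (nat_lit 12) (.e (nat_lit 426434) (nat_lit 18) .nil))))) (.g (nat_lit 0) (.e (nat_lit 347620) (nat_lit 0) .nil) .nil))))))))) (.nd (nat_lit 4) (.nd (nat_lit 5) (.nd (nat_lit 6) (.nd (nat_lit 7) (.nd (nat_lit 8) (.nd (nat_lit 9) 
(.lf (nat_lit 568332) (.g (nat_lit 3004) (.e (nat_lit 450588) (nat_lit 10) (.e (nat_lit 573475) (nat_lit 12) (.e (nat_lit 57508) (nat_lit 39) (.e (nat_lit 647199) (nat_lit 11) (.e (nat_lit 16388) (nat_lit 0) (.e (nat_lit 3548) (nat_lit 219) (.e (nat_lit 712754) (nat_lit 30) .nil))))))) (.g (nat_lit 1) (.e (nat_lit 343200) (nat_lit 0) .nil) .nil))) 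
(.lf (nat_lit 568844) (.g (nat_lit 3270) (.e (nat_lit 458789) (nat_lit 23) (.e (nat_lit 532503) (nat_lit 1) (.e (nat_lit 57688) (nat_lit 156) (.e (nat_lit 163907) (nat_lit 12) (.e (nat_lit 426568) (nat_lit 34) (.e (nat_lit 393287) (nat_lit 25) .nil)))))) (.g (nat_lit 1) (.e (nat_lit 346187) (nat_lit 0) .nil) .nil)))) (.nd (nat_lit 9) 
(.lf (nat_lit 568588) (.g (nat_lit 1598) (.e (nat_lit 466688) (nat_lit 5) (.e (nat_lit 73729) (nat_lit 0) (.e (nat_lit 7261) (nat_lit 384) (.e (nat_lit 57436) (nat_lit 17) (.e (nat_lit 384768) (nat_lit 15) .nil))))) (.g (nat_lit 0) (.e (nat_lit 345584) (nat_lit 0) .nil) .nil))) 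
(.lf (nat_lit 569100) (.g (nat_lit 3056) (.e (nat_lit 466947) (nat_lit 0) (.e (nat_lit 1800) (nat_lit 119) (.e (nat_lit 516120) (nat_lit 1) (.e (nat_lit 164330) (nat_lit 230) (.e (nat_lit 163941) (nat_lit 19) (.e (nat_lit 491264) (nat_lit 14) .nil)))))) (.g (nat_lit 1) (.e (nat_lit 347086) (nat_lit 0) .nil) .nil))))) (.nd (nat_lit 8) (.nd (nat_lit 9) 
(.lf (nat_lit 568460) (.g (nat_lit 1710) (.e (nat_lit 458496) (nat_lit 15) (.e (nat_lit 647183) (nat_lit 4) (.e (nat_lit 172115) (nat_lit 10) (.e (nat_lit 434272) (nat_lit 38) (.e (nat_lit 655362) (nat_lit 0) .nil))))) (.g (nat_lit 0) (.e (nat_lit 343701) (nat_lit 0) .nil) .nil))) 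
(.lf (nat_lit 568972) (.g (nat_lit 3557) (.e (nat_lit 458789) (nat_lit 23) (.e (nat_lit 532569) (nat_lit 16) (.e (nat_lit 401448) (nat_lit 10) (.e (nat_lit 434244) (nat_lit 28) (.e (nat_lit 573458) (nat_lit 9) (.e (nat_lit 426) (nat_lit 32) (.e (nat_lit 426297) (nat_lit 11) .nil))))))) (.g (nat_lit 1) (.e (nat_lit 346833) (nat_lit 0) .nil) .nil)))) (.nd (nat_lit 9) 
(.lf (nat_lit 568716) (.g (nat_lit 5436) (.e (nat_lit 458787) (nat_lit 23) (.e (nat_lit 532550) (nat_lit 12) (.e (nat_lit 360474) (nat_lit 8) (.e (nat_lit 557094) (nat_lit 12) (.e (nat_lit 164022) (nat_lit 46) (.e (nat_lit 704629) (nat_lit 9) (.e (nat_lit 471) (nat_lit 36) .nil))))))) (.g (nat_lit 1) (.e (nat_lit 345989) (nat_lit 0) .nil) .nil))) 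
(.lf (nat_lit 569228) (.g (nat_lit 2676) (.e (nat_lit 466954) (nat_lit 11) (.e (nat_lit 335986) (nat_lit 1) (.e (nat_lit 57687) (nat_lit 156) (.e (nat_lit 163902) (nat_lit 12) (.e (nat_lit 426438) (nat_lit 18) (.e (nat_lit 98381) (nat_lit 31) .nil)))))) (.g (nat_lit 1) (.e (nat_lit 347515) (nat_lit 0) .nil) .nil)))))) (.nd (nat_lit 7) (.nd (nat_lit 8) (.nd (nat_lit 9) 
(.lf (nat_lit 568396) (.g (nat_lit 2158) (.e (nat_lit 450594) (nat_lit 17) (.e (nat_lit 663589) (nat_lit 14) (.e (nat_lit 2798) (nat_lit 180) (.e (nat_lit 303143) (nat_lit 12) (.e (nat_lit 475211) (nat_lit 41) .nil))))) (.g (nat_lit 0) (.e (nat_lit 343589) (nat_lit 0) .nil) .nil))) 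
(.lf (nat_lit 568908) (.g (nat_lit 2272) (.e (nat_lit 458789) (nat_lit 23) (.e (nat_lit 532526) (nat_lit 8) (.e (nat_lit 327717) (nat_lit 17) (.e (nat_lit 294930) (nat_lit 3) (.e (nat_lit 98365) (nat_lit 26) .nil))))) (.g (nat_lit 0) (.e (nat_lit 346284) (nat_lit 0) .nil) .nil)))) (.nd (nat_lit 9) 
(.lf (nat_lit 568652) (.g (nat_lit 1714) (.e (nat_lit 458769) (nat_lit 16) (.e (nat_lit 164292) (nat_lit 224) (.e (nat_lit 164112) (nat_lit 118) (.e (nat_lit 794637) (nat_lit 11) (.e (nat_lit 336078) (nat_lit 9) (.e (nat_lit 336438) (nat_lit 31) .nil)))))) (.g (nat_lit 1) (.e (nat_lit 345693) (nat_lit 0) .nil) .nil))) 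
(.lf (nat_lit 569164) (.g (nat_lit 1501) (.e (nat_lit 474880) (nat_lit 3) (.e (nat_lit 98335) (nat_lit 18) (.e (nat_lit 164332) (nat_lit 230) (.e (nat_lit 163941) (nat_lit 19) (.e (nat_lit 491264) (nat_lit 14) .nil))))) (.g (nat_lit 0) (.e (nat_lit 347205) (nat_lit 0) .nil) .nil))))) (.nd (nat_lit 8) (.nd (nat_lit 9) 
(.lf (nat_lit 568524) (.g (nat_lit 408) (.e (nat_lit 450605) (nat_lit 27) (.e (nat_lit 745476) (nat_lit 0) (.e (nat_lit 1599) (nat_lit 111) .nil))) (.g (nat_lit 0) (.e (nat_lit 345431) (nat_lit 0) .nil) .nil))) 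
(.lf (nat_lit 569036) (.g (nat_lit 4025) (.e (nat_lit 458795) (nat_lit 28) (.e (nat_lit 573471) (nat_lit 11) (.e (nat_lit 16470) (nat_lit 14) (.e (nat_lit 491539) (nat_lit 3) .nil)))) (.g (nat_lit 0) (.e (nat_lit 346951) (nat_lit 0) .nil) .nil)))) (.nd (nat_lit 9) 
(.lf (nat_lit 568780) (.g (nat_lit 1850) (.e (nat_lit 458789) (nat_lit 23) (.e (nat_lit 532482) (nat_lit 0) (.e (nat_lit 6724) (nat_lit 362) (.e (nat_lit 180252) (nat_lit 10) (.e (nat_lit 573452) (nat_lit 9) (.e (nat_lit 430) (nat_lit 32) (.e (nat_lit 426298) (nat_lit 11) .nil))))))) (.g (nat_lit 1) (.e (nat_lit 346077) (nat_lit 0) .nil) .nil))) 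
(.lf (nat_lit 569292) (.g (nat_lit 2867) (.e (nat_lit 466954) (nat_lit 11) (.e (nat_lit 335994) (nat_lit 1) (.e (nat_lit 57688) (nat_lit 156) (.e (nat_lit 163907) (nat_lit 12) (.e (nat_lit 426438) (nat_lit 18) (.e (nat_lit 98380) (nat_lit 31) .nil)))))) (.g (nat_lit 1) (.e (nat_lit 347579) (nat_lit 0) .nil) .nil))))))) (.nd (nat_lit 6) (.nd (nat_lit 7) (.nd (nat_lit 8) (.nd (nat_lit 9) 
(.lf (nat_lit 568364) (.g (nat_lit 2259) (.e (nat_lit 450591) (nat_lit 13) (.e (nat_lit 630821) (nat_lit 16) (.e (nat_lit 65610) (nat_lit 10) (.e (nat_lit 344160) (nat_lit 37) (.e (nat_lit 647195) (nat_lit 9) (.e (nat_lit 7936) (nat_lit 35) .nil)))))) (.g (nat_lit 1) (.e (nat_lit 343434) (nat_lit 0) .nil) .nil))) 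
(.lf (nat_lit 568876) (.g (nat_lit 2006) (.e (nat_lit 458789) (nat_lit 23) (.e (nat_lit 532515) (nat_lit 3) (.e (nat_lit 114719) (nat_lit 23) (.e (nat_lit 98333) (nat_lit 18) (.e (nat_lit 164400) (nat_lit 256) .nil))))) (.g (nat_lit 0) (.e (nat_lit 346242) (nat_lit 0) .nil) .nil)))) (.nd (nat_lit 9) 
(.lf (nat_lit 568620) (.g (nat_lit 1525) (.e (nat_lit 466688) (nat_lit 5) (.e (nat_lit 73775) (nat_lit 26) (.e (nat_lit 778362) (nat_lit 9) (.e (nat_lit 293) (nat_lit 21) (.e (nat_lit 336116) (nat_lit 9) .nil))))) (.g (nat_lit 0) (.e (nat_lit 345620) (nat_lit 0) .nil) .nil))) 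
(.lf (nat_lit 569132) (.g (nat_lit 2174) (.e (nat_lit 466949) (nat_lit 0) (.e (nat_lit 1800) (nat_lit 119) (.e (nat_lit 516117) (nat_lit 1) (.e (nat_lit 164329) (nat_lit 230) (.e (nat_lit 163902) (nat_lit 12) .nil))))) (.g (nat_lit 0) (.e (nat_lit 347131) (nat_lit 0) .nil) .nil))))) (.nd (nat_lit 8) (.nd (nat_lit 9) 
(.lf (nat_lit 568492) (.g (nat_lit 4401) (.e (nat_lit 450601) (nat_lit 21) (.e (nat_lit 696344) (nat_lit 8) (.e (nat_lit 172106) (nat_lit 10) (.e (nat_lit 434209) (nat_lit 18) (.e (nat_lit 6425) (nat_lit 342) (.e (nat_lit 229415) (nat_lit 15) .nil)))))) (.g (nat_lit 1) (.e (nat_lit 344380) (nat_lit 0) .nil) .nil))) 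
(.lf (nat_lit 569004) (.g (nat_lit 610) (.e (nat_lit 458790) (nat_lit 23) (.e (nat_lit 532503) (nat_lit 1) (.e (nat_lit 57653) (nat_lit 152) .nil))) (.g (nat_lit 0) (.e (nat_lit 346896) (nat_lit 0) .nil) .nil)))) (.nd (nat_lit 9) 
(.lf (nat_lit 568748) (.g (nat_lit 3718) (.e (nat_lit 458788) (nat_lit 23) (.e (nat_lit 532550) (nat_lit 12) (.e (nat_lit 360474) (nat_lit 8) (.e (nat_lit 557094) (nat_lit 12) .nil)))) (.g (nat_lit 0) (.e (nat_lit 346031) (nat_lit 0) .nil) .nil))) 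
(.lf (nat_lit 569260) (.g (nat_lit 2117) (.e (nat_lit 466954) (nat_lit 11) (.e (nat_lit 335987) (nat_lit 1) (.e (nat_lit 57691) (nat_lit 156) (.e (nat_lit 163907) (nat_lit 12) (.e (nat_lit 426436) (nat_lit 18) (.e (nat_lit 98380) (nat_lit 31) .nil)))))) (.g (nat_lit 1) (.e (nat_lit 347547) (nat_lit 0) .nil) .nil)))))) (.nd (nat_lit 7) (.nd (nat_lit 8) (.nd (nat_lit 9) 
(.lf (nat_lit 568428) (.g (nat_lit 2809) (.e (nat_lit 450596) (nat_lit 17) (.e (nat_lit 663589) (nat_lit 14) (.e (nat_lit 2808) (nat_lit 180) (.e (nat_lit 303143) (nat_lit 12) (.e (nat_lit 475211) (nat_lit 41) (.e (nat_lit 712755) (nat_lit 30) .nil)))))) (.g (nat_lit 1) (.e (nat_lit 343642) (nat_lit 0) .nil) .nil))) 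
(.lf (nat_lit 568940) (.g (nat_lit 4370) (.e (nat_lit 458789) (nat_lit 23) (.e (nat_lit 532550) (nat_lit 12) (.e (nat_lit 360475) (nat_lit 8) (.e (nat_lit 557089) (nat_lit 12) (.e (nat_lit 163849) (nat_lit 0) .nil))))) (.g (nat_lit 0) (.e (nat_lit 346563) (nat_lit 0) .nil) .nil)))) (.nd (nat_lit 9) 
(.lf (nat_lit 568684) (.g (nat_lit 4927) (.e (nat_lit 458774) (nat_lit 18) (.e (nat_lit 5548) (nat_lit 306) (.e (nat_lit 2610) (nat_lit 163) (.e (nat_lit 163979) (nat_lit 30) (.e (nat_lit 573492) (nat_lit 15) (.e (nat_lit 81956) (nat_lit 23) (.e (nat_lit 98378) (nat_lit 30) .nil))))))) (.g (nat_lit 1) (.e (nat_lit 345848) (nat_lit 0) .nil) .nil))) 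
(.lf (nat_lit 569196) (.g (nat_lit 1794) (.e (nat_lit 466950) (nat_lit 11) (.e (nat_lit 335996) (nat_lit 1) (.e (nat_lit 57691) (nat_lit 156) (.e (nat_lit 163938) (nat_lit 18) .nil)))) (.g (nat_lit 0) (.e (nat_lit 347261) (nat_lit 0) .nil) .nil))))) (.nd (nat_lit 8) (.nd (nat_lit 9) 
(.lf (nat_lit 568556) (.g (nat_lit 950) (.e (nat_lit 450605) (nat_lit 27) (.e (nat_lit 745493) (nat_lit 6) (.e (nat_lit 81939) (nat_lit 20) (.e (nat_lit 1886) (nat_lit 127) (.e (nat_lit 581636) (nat_lit 0) (.e (nat_lit 3022) (nat_lit 187) .nil)))))) (.g (nat_lit 1) (.e (nat_lit 345490) (nat_lit 0) .nil) .nil))) 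
(.lf (nat_lit 569068) (.g (nat_lit 1164) (.e (nat_lit 466945) (nat_lit 0) (.e (nat_lit 1796) (nat_lit 119) (.e (nat_lit 516126) (nat_lit 2) (.e (nat_lit 213032) (nat_lit 11) (.e (nat_lit 24609) (nat_lit 3) .nil))))) (.g (nat_lit 0) (.e (nat_lit 347045) (nat_lit 0) .nil) .nil)))) (.nd (nat_lit 9) 
(.lf (nat_lit 568812) (.g (nat_lit 3069) (.e (nat_lit 458789) (nat_lit 23) (.e (nat_lit 532501) (nat_lit 1) (.e (nat_lit 57691) (nat_lit 156) (.e (nat_lit 163907) (nat_lit 12) (.e (nat_lit 426566) (nat_lit 34) (.e (nat_lit 393287) (nat_lit 25) .nil)))))) (.g (nat_lit 1) (.e (nat_lit 346131) (nat_lit 0) .nil) .nil))) 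
(.lf (nat_lit 569324) (.g (nat_lit 2571) (.e (nat_lit 466954) (nat_lit 11) (.e (nat_lit 335996) (nat_lit 1) (.e (nat_lit 57690) (nat_lit 156) (.e (nat_lit 163907) (nat_lit 12) (.e (nat_lit 426438) (nat_lit 18) .nil))))) (.g (nat_lit 0) (.e (nat_lit 347612) (nat_lit 0) .nil) .nil)))))))) (.nd (nat_lit 5) (.nd (nat_lit 6) (.nd (nat_lit 7) (.nd (nat_lit 8) (.nd (nat_lit 9) 
(.lf (nat_lit 568348) (.g (nat_lit 706) (.e (nat_lit 450584) (nat_lit 9) (.e (nat_lit 565251) (nat_lit 0) (.e (nat_lit 1586) (nat_lit 111) (.e (nat_lit 360493) (nat_lit 27) (.e (nat_lit 819203) (nat_lit 0) .nil))))) (.g (nat_lit 0) (.e (nat_lit 343326) (nat_lit 0) .nil) .nil))) 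
(.lf (nat_lit 568860) (.g (nat_lit 786) (.e (nat_lit 458789) (nat_lit 23) (.e (nat_lit 532504) (nat_lit 1) (.e (nat_lit 57685) (nat_lit 156) .nil))) (.g (nat_lit 0) (.e (nat_lit 346216) (nat_lit 0) .nil) .nil)))) (.nd (nat_lit 9) 
(.lf (nat_lit 568604) (.g (nat_lit 681) (.e (nat_lit 466688) (nat_lit 5) (.e (nat_lit 73731) (nat_lit 0) (.e (nat_lit 7261) (nat_lit 384) (.e (nat_lit 57423) (nat_lit 14) (.e (nat_lit 360192) (nat_lit 15) .nil))))) (.g (nat_lit 0) (.e (nat_lit 345602) (nat_lit 0) .nil) .nil))) 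
(.lf (nat_lit 569116) (.g (nat_lit 1005) (.e (nat_lit 466947) (nat_lit 0) (.e (nat_lit 2058) (nat_lit 142) (.e (nat_lit 704595) (nat_lit 5) (.e (nat_lit 188160) (nat_lit 32) .nil)))) (.g (nat_lit 0) (.e (nat_lit 347106) (nat_lit 0) .nil) .nil))))) (.nd (nat_lit 8) (.nd (nat_lit 9) 
(.lf (nat_lit 568476) (.g (nat_lit 2401) (.e (nat_lit 450593) (nat_lit 16) (.e (nat_lit 655377) (nat_lit 4) (.e (nat_lit 172126) (nat_lit 14) (.e (nat_lit 491550) (nat_lit 9) (.e (nat_lit 336432) (nat_lit 30) .nil))))) (.g (nat_lit 1) (.e (nat_lit 343802) (nat_lit 0) .nil) .nil))) 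
(.lf (nat_lit 568988) (.g (nat_lit 2867) (.e (nat_lit 458789) (nat_lit 23) (.e (nat_lit 532569) (nat_lit 16) (.e (nat_lit 401448) (nat_lit 10) (.e (nat_lit 434247) (nat_lit 28) (.e (nat_lit 573471) (nat_lit 11) (.e (nat_lit 16452) (nat_lit 11) .nil)))))) (.g (nat_lit 1) (.e (nat_lit 346849) (nat_lit 0) .nil) .nil)))) (.nd (nat_lit 9) 
(.lf (nat_lit 568732) (.g (nat_lit 1765) (.e (nat_lit 458788) (nat_lit 23) (.e (nat_lit 532522) (nat_lit 7) (.e (nat_lit 319533) (nat_lit 16) (.e (nat_lit 286734) (nat_lit 3) .nil)))) (.g (nat_lit 0) (.e (nat_lit 346005) (nat_lit 0) .nil) .nil))) 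
(.lf (nat_lit 569244) (.g (nat_lit 1993) (.e (nat_lit 466954) (nat_lit 11) (.e (nat_lit 335986) (nat_lit 1) (.e (nat_lit 57691) (nat_lit 156) (.e (nat_lit 163905) (nat_lit 12) (.e (nat_lit 426436) (nat_lit 18) .nil))))) (.g (nat_lit 0) (.e (nat_lit 347531) (nat_lit 0) .nil) .nil)))))) (.nd (nat_lit 7) (.nd (nat_lit 8) (.nd (nat_lit 9) 
(.lf (nat_lit 568412) (.g (nat_lit 1636) (.e (nat_lit 450595) (nat_lit 17) (.e (nat_lit 663580) (nat_lit 9) (.e (nat_lit 7936) (nat_lit 24) (.e (nat_lit 360484) (nat_lit 15) (.e (nat_lit 647190) (nat_lit 9) (.e (nat_lit 7936) (nat_lit 35) .nil)))))) (.g (nat_lit 1) (.e (nat_lit 343609) (nat_lit 0) .nil) .nil))) 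
(.lf (nat_lit 568924) (.g (nat_lit 3777) (.e (nat_lit 458789) (nat_lit 23) (.e (nat_lit 532549) (nat_lit 12) (.e (nat_lit 360475) (nat_lit 8) (.e (nat_lit 557089) (nat_lit 12) (.e (nat_lit 163848) (nat_lit 0) .nil))))) (.g (nat_lit 0) (.e (nat_lit 346537) (nat_lit 0) .nil) .nil)))) (.nd (nat_lit 9) 
(.lf (nat_lit 568668) (.g (nat_lit 452) (.e (nat_lit 458774) (nat_lit 18) (.e (nat_lit 5546) (nat_lit 306) (.e (nat_lit 2640) (nat_lit 165) .nil))) (.g (nat_lit 0) (.e (nat_lit 345779) (nat_lit 0) .nil) .nil))) 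
(.lf (nat_lit 569180) (.g (nat_lit 1287) (.e (nat_lit 466950) (nat_lit 11) (.e (nat_lit 335995) (nat_lit 1) (.e (nat_lit 57687) (nat_lit 156) (.e (nat_lit 163903) (nat_lit 12) .nil)))) (.g (nat_lit 0) (.e (nat_lit 347245) (nat_lit 0) .nil) .nil))))) (.nd (nat_lit 8) (.nd (nat_lit 9) 
(.lf (nat_lit 568540) (.g (nat_lit 1572) (.e (nat_lit 450605) (nat_lit 27) (.e (nat_lit 745491) (nat_lit 4) (.e (nat_lit 65617) (nat_lit 10) (.e (nat_lit 344138) (nat_lit 29) (.e (nat_lit 581636) (nat_lit 0) (.e (nat_lit 3022) (nat_lit 187) .nil)))))) (.g (nat_lit 1) (.e (nat_lit 345455) (nat_lit 0) .nil) .nil))) 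
(.lf (nat_lit 569052) (.g (nat_lit 1632) (.e (nat_lit 458810) (nat_lit 43) (.e (nat_lit 696344) (nat_lit 8) (.e (nat_lit 172113) (nat_lit 10) (.e (nat_lit 434208) (nat_lit 18) (.e (nat_lit 6416) (nat_lit 341) .nil))))) (.g (nat_lit 0) (.e (nat_lit 346999) (nat_lit 0) .nil) .nil)))) (.nd (nat_lit 9) 
(.lf (nat_lit 568796) (.g (nat_lit 2426) (.e (nat_lit 458789) (nat_lit 23) (.e (nat_lit 532499) (nat_lit 1) (.e (nat_lit 57692) (nat_lit 156) (.e (nat_lit 163905) (nat_lit 12) (.e (nat_lit 426566) (nat_lit 34) (.e (nat_lit 393285) (nat_lit 25) .nil)))))) (.g (nat_lit 1) (.e (nat_lit 346103) (nat_lit 0) .nil) .nil))) 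
(.lf (nat_lit 569308) (.g (nat_lit 2215) (.e (nat_lit 466954) (nat_lit 11) (.e (nat_lit 335995) (nat_lit 1) (.e (nat_lit 57688) (nat_lit 156) (.e (nat_lit 163905) (nat_lit 12) (.e (nat_lit 426436) (nat_lit 18) .nil))))) (.g (nat_lit 0) (.e (nat_lit 347596) (nat_lit 0) .nil) .nil))))))) (.nd (nat_lit 6) (.nd (nat_lit 7) (.nd (nat_lit 8) (.nd (nat_lit 9) 
(.lf (nat_lit 568380) (.g (nat_lit 832) (.e (nat_lit 450591) (nat_lit 13) (.e (nat_lit 630821) (nat_lit 16) (.e (nat_lit 65620) (nat_lit 10) (.e (nat_lit 344157) (nat_lit 36) (.e (nat_lit 638985) (nat_lit 5) (.e (nat_lit 3027) (nat_lit 187) .nil)))))) (.g (nat_lit 1) (.e (nat_lit 343451) (nat_lit 0) .nil) .nil))) 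
(.lf (nat_lit 568892) (.g (nat_lit 3086) (.e (nat_lit 458789) (nat_lit 23) (.e (nat_lit 532523) (nat_lit 7) (.e (nat_lit 319528) (nat_lit 16) (.e (nat_lit 286735) (nat_lit 3) (.e (nat_lit 98365) (nat_lit 26) (.e (nat_lit 426298) (nat_lit 11) .nil)))))) (.g (nat_lit 1) (.e (nat_lit 346258) (nat_lit 0) .nil) .nil)))) (.nd (nat_lit 9) 
(.lf (nat_lit 568636) (.g (nat_lit 1459) (.e (nat_lit 466688) (nat_lit 5) (.e (nat_lit 73776) (nat_lit 26) (.e (nat_lit 778362) (nat_lit 9) (.e (nat_lit 293) (nat_lit 21) (.e (nat_lit 336116) (nat_lit 9) .nil))))) (.g (nat_lit 0) (.e (nat_lit 345643) (nat_lit 0) .nil) .nil))) 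
(.lf (nat_lit 569148) (.g (nat_lit 1685) (.e (nat_lit 474880) (nat_lit 3) (.e (nat_lit 98333) (nat_lit 18) (.e (nat_lit 164325) (nat_lit 230) (.e (nat_lit 163943) (nat_lit 19) (.e (nat_lit 491264) (nat_lit 14) .nil))))) (.g (nat_lit 0) (.e (nat_lit 347163) (nat_lit 0) .nil) .nil))))) (.nd (nat_lit 8) (.nd (nat_lit 9) 
(.lf (nat_lit 568508) (.g (nat_lit 671) (.e (nat_lit 458496) (nat_lit 26) (.e (nat_lit 737300) (nat_lit 7) (.e (nat_lit 286754) (nat_lit 10) (.e (nat_lit 344123) (nat_lit 24) (.e (nat_lit 548608) (nat_lit 29) .nil))))) (.g (nat_lit 0) (.e (nat_lit 345411) (nat_lit 0) .nil) .nil))) 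
(.lf (nat_lit 569020) (.g (nat_lit 3024) (.e (nat_lit 458791) (nat_lit 24) (.e (nat_lit 540706) (nat_lit 12) (.e (nat_lit 360475) (nat_lit 8) (.e (nat_lit 557090) (nat_lit 12) (.e (nat_lit 163843) (nat_lit 0) .nil))))) (.g (nat_lit 0) (.e (nat_lit 346926) (nat_lit 0) .nil) .nil)))) (.nd (nat_lit 9) 
(.lf (nat_lit 568764) (.g (nat_lit 263) (.e (nat_lit 458789) (nat_lit 23) (.e (nat_lit 532481) (nat_lit 0) (.e (nat_lit 6724) (nat_lit 362) .nil))) (.g (nat_lit 0) (.e (nat_lit 346052) (nat_lit 0) .nil) .nil))) 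
(.lf (nat_lit 569276) (.g (nat_lit 2847) (.e (nat_lit 466954) (nat_lit 11) (.e (nat_lit 335988) (nat_lit 1) (.e (nat_lit 57691) (nat_lit 156) (.e (nat_lit 163907) (nat_lit 12) (.e (nat_lit 426436) (nat_lit 18) (.e (nat_lit 98380) (nat_lit 31) .nil)))))) (.g (nat_lit 1) (.e (nat_lit 347563) (nat_lit 0) .nil) .nil)))))) (.nd (nat_lit 7) (.nd (nat_lit 8) (.nd (nat_lit 9) 
(.lf (nat_lit 568444) (.g (nat_lit 1566) (.e (nat_lit 458496) (nat_lit 15) (.e (nat_lit 647183) (nat_lit 4) (.e (nat_lit 172106) (nat_lit 10) (.e (nat_lit 434272) (nat_lit 38) (.e (nat_lit 655363) (nat_lit 0) .nil))))) (.g (nat_lit 0) (.e (nat_lit 343685) (nat_lit 0) .nil) .nil))) 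
(.lf (nat_lit 568956) (.g (nat_lit 3127) (.e (nat_lit 458789) (nat_lit 23) (.e (nat_lit 532569) (nat_lit 16) (.e (nat_lit 401448) (nat_lit 10) (.e (nat_lit 434231) (nat_lit 23) (.e (nat_lit 532483) (nat_lit 0) (.e (nat_lit 6691) (nat_lit 357) (.e (nat_lit 3034) (nat_lit 188) .nil))))))) (.g (nat_lit 1) (.e (nat_lit 346813) (nat_lit 0) .nil) .nil)))) (.nd (nat_lit 9) 
(.lf (nat_lit 568700) (.g (nat_lit 818) (.e (nat_lit 458787) (nat_lit 23) (.e (nat_lit 532504) (nat_lit 1) (.e (nat_lit 57692) (nat_lit 156) .nil))) (.g (nat_lit 0) (.e (nat_lit 345962) (nat_lit 0) .nil) .nil))) 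
(.lf (nat_lit 569212) (.g (nat_lit 678) (.e (nat_lit 466952) (nat_lit 11) (.e (nat_lit 336406) (nat_lit 27) (.e (nat_lit 426098) (nat_lit 1) (.e (nat_lit 164398) (nat_lit 256) .nil)))) (.g (nat_lit 0) (.e (nat_lit 347455) (nat_lit 0) .nil) .nil))))) (.nd (nat_lit 8) (.nd (nat_lit 9) 
(.lf (nat_lit 568572) (.g (nat_lit 1277) (.e (nat_lit 450605) (nat_lit 27) (.e (nat_lit 745493) (nat_lit 6) (.e (nat_lit 81947) (nat_lit 20) (.e (nat_lit 1886) (nat_lit 127) (.e (nat_lit 581636) (nat_lit 0) (.e (nat_lit 3016) (nat_lit 187) .nil)))))) (.g (nat_lit 1) (.e (nat_lit 345517) (nat_lit 0) .nil) .nil))) 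
(.lf (nat_lit 569084) (.g (nat_lit 2182) (.e (nat_lit 466947) (nat_lit 0) (.e (nat_lit 1800) (nat_lit 119) (.e (nat_lit 516117) (nat_lit 1) (.e (nat_lit 164329) (nat_lit 230) (.e (nat_lit 163941) (nat_lit 19) (.e (nat_lit 491264) (nat_lit 14) .nil)))))) (.g (nat_lit 1) (.e (nat_lit 347070) (nat_lit 0) .nil) .nil)))) (.nd (nat_lit 9) 
(.lf (nat_lit 568828) (.g (nat_lit 708) (.e (nat_lit 458789) (nat_lit 23) (.e (nat_lit 532502) (nat_lit 1) (.e (nat_lit 57692) (nat_lit 156) (.e (nat_lit 171776) (nat_lit 12) .nil)))) (.g (nat_lit 0) (.e (nat_lit 346153) (nat_lit 0) .nil) .nil))) 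
(.lf (nat_lit 569340) (.g (nat_lit 423) (.e (nat_lit 466954) (nat_lit 11) (.e (nat_lit 336288) (nat_lit 15) (.e (nat_lit 7106) (nat_lit 380) .nil))) (.g (nat_lit 0) (.e (nat_lit 347860) (nat_lit 0) .nil) .nil))))))))))) (.nd (nat_lit 2) (.nd (nat_lit 3) (.nd (nat_lit 4) (.nd (nat_lit 5) (.nd (nat_lit 6) (.nd (nat_lit 7) (.nd (nat_lit 8) (.nd (nat_lit 9) 
(.lf (nat_lit 568322) (.g (nat_lit 869) (.e (nat_lit 450588) (nat_lit 10) (.e (nat_lit 573474) (nat_lit 12) (.e (nat_lit 57574) (nat_lit 55) .nil))) (.g (nat_lit 0) (.e (nat_lit 343161) (nat_lit 0) .nil) .nil))) 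
(.lf (nat_lit 568834) (.g (nat_lit 2646) (.e (nat_lit 458789) (nat_lit 23) (.e (nat_lit 532503) (nat_lit 1) (.e (nat_lit 57686) (nat_lit 156) (.e (nat_lit 163903) (nat_lit 12) (.e (nat_lit 426568) (nat_lit 34) (.e (nat_lit 393286) (nat_lit 25) .nil)))))) (.g (nat_lit 1) (.e (nat_lit 346167) (nat_lit 0) .nil) .nil)))) (.nd (nat_lit 9) 
(.lf (nat_lit 568578) (.g (nat_lit 2112) (.e (nat_lit 466688) (nat_lit 3) (.e (nat_lit 57464) (nat_lit 23) (.e (nat_lit 516151) (nat_lit 9) (.e (nat_lit 426171) (nat_lit 7) (.e (nat_lit 409631) (nat_lit 12) .nil))))) (.g (nat_lit 0) (.e (nat_lit 345531) (nat_lit 0) .nil) .nil))) 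
(.lf (nat_lit 569090) (.g (nat_lit 2453) (.e (nat_lit 466947) (nat_lit 0) (.e (nat_lit 1800) (nat_lit 119) (.e (nat_lit 516119) (nat_lit 1) (.e (nat_lit 164322) (nat_lit 230) (.e (nat_lit 163942) (nat_lit 19) (.e (nat_lit 491264) (nat_lit 14) .nil)))))) (.g (nat_lit 1) (.e (nat_lit 347076) (nat_lit 0) .nil) .nil))))) (.nd (nat_lit 8) (.nd (nat_lit 9) 
(.lf (nat_lit 568450) (.g (nat_lit 1223) (.e (nat_lit 458496) (nat_lit 15) (.e (nat_lit 647183) (nat_lit 4) (.e (nat_lit 172112) (nat_lit 10) (.e (nat_lit 434271) (nat_lit 38) (.e (nat_lit 655363) (nat_lit 0) .nil))))) (.g (nat_lit 0) (.e (nat_lit 343691) (nat_lit 0) .nil) .nil))) 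
(.lf (nat_lit 568962) (.g (nat_lit 3278) (.e (nat_lit 458789) (nat_lit 23) (.e (nat_lit 532569) (nat_lit 16) (.e (nat_lit 401448) (nat_lit 10) (.e (nat_lit 434232) (nat_lit 23) (.e (nat_lit 532482) (nat_lit 0) (.e (nat_lit 6696) (nat_lit 357) (.e (nat_lit 3035) (nat_lit 188) .nil))))))) (.g (nat_lit 1) (.e (nat_lit 346819) (nat_lit 0) .nil) .nil)))) (.nd (nat_lit 9) 
(.lf (nat_lit 568706) (.g (nat_lit 2819) (.e (nat_lit 458787) (nat_lit 23) (.e (nat_lit 532523) (nat_lit 7) (.e (nat_lit 319534) (nat_lit 16) (.e (nat_lit 286734) (nat_lit 3) (.e (nat_lit 98365) (nat_lit 26) .nil))))) (.g (nat_lit 0) (.e (nat_lit 345968) (nat_lit 0) .nil) .nil))) 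
(.lf (nat_lit 569218) (.g (nat_lit 1913) (.e (nat_lit 466953) (nat_lit 11) (.e (nat_lit 335996) (nat_lit 1) (.e (nat_lit 57691) (nat_lit 156) (.e (nat_lit 163939) (nat_lit 18) .nil)))) (.g (nat_lit 0) (.e (nat_lit 347466) (nat_lit 0) .nil) .nil)))))) (.nd (nat_lit 7) (.nd (nat_lit 8) (.nd (nat_lit 9) 
(.lf (nat_lit 568386) (.g (nat_lit 1420) (.e (nat_lit 450592) (nat_lit 14) (.e (nat_lit 639008) (nat_lit 13) (.e (nat_lit 1589) (nat_lit 111) (.e (nat_lit 360480) (nat_lit 14) (.e (nat_lit 638986) (nat_lit 5) (.e (nat_lit 3015) (nat_lit 187) .nil)))))) (.g (nat_lit 1) (.e (nat_lit 343493) (nat_lit 0) .nil) .nil))) 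
(.lf (nat_lit 568898) (.g (nat_lit 2952) (.e (nat_lit 458789) (nat_lit 23) (.e (nat_lit 532523) (nat_lit 7) (.e (nat_lit 319531) (nat_lit 16) (.e (nat_lit 286735) (nat_lit 3) (.e (nat_lit 98364) (nat_lit 26) (.e (nat_lit 426298) (nat_lit 11) .nil)))))) (.g (nat_lit 1) (.e (nat_lit 346264) (nat_lit 0) .nil) .nil)))) (.nd (nat_lit 9) 
(.lf (nat_lit 568642) (.g (nat_lit 372) (.e (nat_lit 458758) (nat_lit 8) (.e (nat_lit 2682) (nat_lit 168) (.e (nat_lit 204846) (nat_lit 24) .nil))) (.g (nat_lit 0) (.e (nat_lit 345656) (nat_lit 0) .nil) .nil))) 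
(.lf (nat_lit 569154) (.g (nat_lit 2630) (.e (nat_lit 474880) (nat_lit 3) (.e (nat_lit 98334) (nat_lit 18) (.e (nat_lit 164330) (nat_lit 230) (.e (nat_lit 163902) (nat_lit 12) (.e (nat_lit 426479) (nat_lit 27) .nil))))) (.g (nat_lit 0) (.e (nat_lit 347176) (nat_lit 0) .nil) .nil))))) (.nd (nat_lit 8) (.nd (nat_lit 9) 
(.lf (nat_lit 568514) (.g (nat_lit 1212) (.e (nat_lit 450605) (nat_lit 27) (.e (nat_lit 745475) (nat_lit 0) (.e (nat_lit 1595) (nat_lit 111) (.e (nat_lit 360477) (nat_lit 11) (.e (nat_lit 581635) (nat_lit 0) .nil))))) (.g (nat_lit 0) (.e (nat_lit 345421) (nat_lit 0) .nil) .nil))) 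
(.lf (nat_lit 569026) (.g (nat_lit 1262) (.e (nat_lit 466688) (nat_lit 21) (.e (nat_lit 516115) (nat_lit 1) (.e (nat_lit 164151) (nat_lit 152) (.e (nat_lit 2633) (nat_lit 164) .nil)))) (.g (nat_lit 0) (.e (nat_lit 346935) (nat_lit 0) .nil) .nil)))) (.nd (nat_lit 9) 
(.lf (nat_lit 568770) (.g (nat_lit 2148) (.e (nat_lit 458789) (nat_lit 23) (.e (nat_lit 532482) (nat_lit 0) (.e (nat_lit 6724) (nat_lit 362) (.e (nat_lit 180250) (nat_lit 10) (.e (nat_lit 573452) (nat_lit 9) (.e (nat_lit 430) (nat_lit 32) (.e (nat_lit 426296) (nat_lit 11) .nil))))))) (.g (nat_lit 1) (.e (nat_lit 346067) (nat_lit 0) .nil) .nil))) 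
(.lf (nat_lit 569282) (.g (nat_lit 2194) (.e (nat_lit 466954) (nat_lit 11) (.e (nat_lit 335993) (nat_lit 1) (.e (nat_lit 57688) (nat_lit 156) (.e (nat_lit 163903) (nat_lit 12) (.e (nat_lit 426438) (nat_lit 18) (.e (nat_lit 98380) (nat_lit 31) .nil)))))) (.g (nat_lit 1) (.e (nat_lit 347569) (nat_lit 0) .nil) .nil))))))) (.nd (nat_lit 6) (.nd (nat_lit 7) (.nd (nat_lit 8) (.nd (nat_lit 9) 
(.lf (nat_lit 568354) (.g (nat_lit 471) (.e (nat_lit 450584) (nat_lit 9) (.e (nat_lit 565268) (nat_lit 5) (.e (nat_lit 73789) (nat_lit 45) (.e (nat_lit 1161) (nat_lit 86) .nil)))) (.g (nat_lit 0) (.e (nat_lit 343360) (nat_lit 0) .nil) .nil))) 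
(.lf (nat_lit 568866) (.g (nat_lit 1085) (.e (nat_lit 458789) (nat_lit 23) (.e (nat_lit 532504) (nat_lit 1) (.e (nat_lit 57693) (nat_lit 157) .nil))) (.g (nat_lit 0) (.e (nat_lit 346226) (nat_lit 0) .nil) .nil)))) (.nd (nat_lit 9) 
(.lf (nat_lit 568610) (.g (nat_lit 1405) (.e (nat_lit 466688) (nat_lit 5) (.e (nat_lit 73731) (nat_lit 0) (.e (nat_lit 7265) (nat_lit 384) (.e (nat_lit 57424) (nat_lit 14) (.e (nat_lit 360192) (nat_lit 15) .nil))))) (.g (nat_lit 0) (.e (nat_lit 345609) (nat_lit 0) .nil) .nil))) 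
(.lf (nat_lit 569122) (.g (nat_lit 995) (.e (nat_lit 466947) (nat_lit 0) (.e (nat_lit 2173) (nat_lit 143) (.e (nat_lit 712755) (nat_lit 30) (.e (nat_lit 450568) (nat_lit 0) .nil)))) (.g (nat_lit 0) (.e (nat_lit 347117) (nat_lit 0) .nil) .nil))))) (.nd (nat_lit 8) (.nd (nat_lit 9) 
(.lf (nat_lit 568482) (.g (nat_lit 3718) (.e (nat_lit 450593) (nat_lit 16) (.e (nat_lit 655378) (nat_lit 4) (.e (nat_lit 172120) (nat_lit 12) (.e (nat_lit 475211) (nat_lit 41) (.e (nat_lit 712755) (nat_lit 30) .nil))))) (.g (nat_lit 1) (.e (nat_lit 343876) (nat_lit 0) .nil) .nil))) 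
(.lf (nat_lit 568994) (.g (nat_lit 4036) (.e (nat_lit 458789) (nat_lit 23) (.e (nat_lit 532569) (nat_lit 16) (.e (nat_lit 401448) (nat_lit 10) (.e (nat_lit 434248) (nat_lit 28) (.e (nat_lit 573471) (nat_lit 11) (.e (nat_lit 16454) (nat_lit 11) .nil)))))) (.g (nat_lit 1) (.e (nat_lit 346855) (nat_lit 0) .nil) .nil)))) (.nd (nat_lit 9) 
(.lf (nat_lit 568738) (.g (nat_lit 4367) (.e (nat_lit 458788) (nat_lit 23) (.e (nat_lit 532550) (nat_lit 12) (.e (nat_lit 360474) (nat_lit 8) (.e (nat_lit 557088) (nat_lit 12) .nil)))) (.g (nat_lit 0) (.e (nat_lit 346021) (nat_lit 0) .nil) .nil))) 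
(.lf (nat_lit 569250) (.g (nat_lit 2867) (.e (nat_lit 466954) (nat_lit 11) (.e (nat_lit 335986) (nat_lit 1) (.e (nat_lit 57691) (nat_lit 156) (.e (nat_lit 163907) (nat_lit 12) (.e (nat_lit 426436) (nat_lit 18) (.e (nat_lit 98381) (nat_lit 31) .nil)))))) (.g (nat_lit 1) (.e (nat_lit 347537) (nat_lit 0) .nil) .nil)))))) (.nd (nat_lit 7) (.nd (nat_lit 8) (.nd (nat_lit 9) 
(.lf (nat_lit 568418) (.g (nat_lit 2546) (.e (nat_lit 450595) (nat_lit 17) (.e (nat_lit 663589) (nat_lit 14) (.e (nat_lit 2798) (nat_lit 180) (.e (nat_lit 303133) (nat_lit 9) (.e (nat_lit 426412) (nat_lit 15) (.e (nat_lit 2160) (nat_lit 143) (.e (nat_lit 712753) (nat_lit 30) .nil))))))) (.g (nat_lit 1) (.e (nat_lit 343624) (nat_lit 0) .nil) .nil))) 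
(.lf (nat_lit 568930) (.g (nat_lit 4065) (.e (nat_lit 458789) (nat_lit 23) (.e (nat_lit 532549) (nat_lit 12) (.e (nat_lit 360475) (nat_lit 8) (.e (nat_lit 557091) (nat_lit 12) (.e (nat_lit 163849) (nat_lit 0) .nil))))) (.g (nat_lit 0) (.e (nat_lit 346548) (nat_lit 0) .nil) .nil)))) (.nd (nat_lit 9) 
(.lf (nat_lit 568674) (.g (nat_lit 5002) (.e (nat_lit 458774) (nat_lit 18) (.e (nat_lit 5547) (nat_lit 306) (.e (nat_lit 2610) (nat_lit 163) (.e (nat_lit 163979) (nat_lit 30) (.e (nat_lit 573492) (nat_lit 15) (.e (nat_lit 81956) (nat_lit 23) (.e (nat_lit 98378) (nat_lit 30) .nil))))))) (.g (nat_lit 1) (.e (nat_lit 345796) (nat_lit 0) .nil) .nil))) 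
(.lf (nat_lit 569186) (.g (nat_lit 1877) (.e (nat_lit 466950) (nat_lit 11) (.e (nat_lit 335995) (nat_lit 1) (.e (nat_lit 57688) (nat_lit 156) (.e (nat_lit 163903) (nat_lit 12) (.e (nat_lit 426438) (nat_lit 18) .nil))))) (.g (nat_lit 0) (.e (nat_lit 347251) (nat_lit 0) .nil) .nil))))) (.nd (nat_lit 8) (.nd (nat_lit 9) 
(.lf (nat_lit 568546) (.g (nat_lit 1360) (.e (nat_lit 450605) (nat_lit 27) (.e (nat_lit 745491) (nat_lit 4) (.e (nat_lit 65620) (nat_lit 10) (.e (nat_lit 344138) (nat_lit 29) (.e (nat_lit 581636) (nat_lit 0) (.e (nat_lit 3016) (nat_lit 187) .nil)))))) (.g (nat_lit 1) (.e (nat_lit 345464) (nat_lit 0) .nil) .nil))) 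
(.lf (nat_lit 569058) (.g (nat_lit 379) (.e (nat_lit 466688) (nat_lit 45) (.e (nat_lit 712753) (nat_lit 30) (.e (nat_lit 450579) (nat_lit 5) .nil))) (.g (nat_lit 0) (.e (nat_lit 347010) (nat_lit 0) .nil) .nil)))) (.nd (nat_lit 9) 
(.lf (nat_lit 568802) (.g (nat_lit 2689) (.e (nat_lit 458789) (nat_lit 23) (.e (nat_lit 532501) (nat_lit 1) (.e (nat_lit 57685) (nat_lit 156) (.e (nat_lit 163902) (nat_lit 12) (.e (nat_lit 426568) (nat_lit 34) (.e (nat_lit 393287) (nat_lit 25) .nil)))))) (.g (nat_lit 1) (.e (nat_lit 346116) (nat_lit 0) .nil) .nil))) 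
(.lf (nat_lit 569314) (.g (nat_lit 2369) (.e (nat_lit 466954) (nat_lit 11) (.e (nat_lit 335995) (nat_lit 1) (.e (nat_lit 57691) (nat_lit 156) (.e (nat_lit 163907) (nat_lit 12) (.e (nat_lit 426434) (nat_lit 18) .nil))))) (.g (nat_lit 0) (.e (nat_lit 347602) (nat_lit 0) .nil) .nil)))))))) (.nd (nat_lit 5) (.nd (nat_lit 6) (.nd (nat_lit 7) (.nd (nat_lit 8) (.nd (nat_lit 9) 
(.lf (nat_lit 568338) (.g (nat_lit 1992) (.e (nat_lit 450588) (nat_lit 10) (.e (nat_lit 573477) (nat_lit 12) (.e (nat_lit 57575) (nat_lit 55) (.e (nat_lit 778465) (nat_lit 11) (.e (nat_lit 24580) (nat_lit 0) .nil))))) (.g (nat_lit 0) (.e (nat_lit 343253) (nat_lit 0) .nil) .nil))) 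
(.lf (nat_lit 568850) (.g (nat_lit 2476) (.e (nat_lit 458789) (nat_lit 23) (.e (nat_lit 532503) (nat_lit 1) (.e (nat_lit 57691) (nat_lit 156) (.e (nat_lit 163907) (nat_lit 12) (.e (nat_lit 426566) (nat_lit 34) (.e (nat_lit 393286) (nat_lit 25) .nil)))))) (.g (nat_lit 1) (.e (nat_lit 346195) (nat_lit 0) .nil) .nil)))) (.nd (nat_lit 9) 
(.lf (nat_lit 568594) (.g (nat_lit 1882) (.e (nat_lit 466688) (nat_lit 5) (.e (nat_lit 73729) (nat_lit 0) (.e (nat_lit 7265) (nat_lit 384) (.e (nat_lit 57436) (nat_lit 17) (.e (nat_lit 384768) (nat_lit 15) .nil))))) (.g (nat_lit 0) (.e (nat_lit 345592) (nat_lit 0) .nil) .nil))) 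
(.lf (nat_lit 569106) (.g (nat_lit 2628) (.e (nat_lit 466947) (nat_lit 0) (.e (nat_lit 1800) (nat_lit 119) (.e (nat_lit 516120) (nat_lit 1) (.e (nat_lit 164332) (nat_lit 230) (.e (nat_lit 163943) (nat_lit 19) (.e (nat_lit 491264) (nat_lit 14) .nil)))))) (.g (nat_lit 1) (.e (nat_lit 347092) (nat_lit 0) .nil) .nil))))) (.nd (nat_lit 8) (.nd (nat_lit 9) 
(.lf (nat_lit 568466) (.g (nat_lit 881) (.e (nat_lit 458496) (nat_lit 15) (.e (nat_lit 647183) (nat_lit 4) (.e (nat_lit 172120) (nat_lit 12) (.e (nat_lit 475197) (nat_lit 40) .nil)))) (.g (nat_lit 0) (.e (nat_lit 343708) (nat_lit 0) .nil) .nil))) 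
(.lf (nat_lit 568978) (.g (nat_lit 2158) (.e (nat_lit 458789) (nat_lit 23) (.e (nat_lit 532569) (nat_lit 16) (.e (nat_lit 401448) (nat_lit 10) (.e (nat_lit 434245) (nat_lit 28) (.e (nat_lit 573451) (nat_lit 9) .nil))))) (.g (nat_lit 0) (.e (nat_lit 346839) (nat_lit 0) .nil) .nil)))) (.nd (nat_lit 9) 
(.lf (nat_lit 568722) (.g (nat_lit 2044) (.e (nat_lit 458788) (nat_lit 23) (.e (nat_lit 532502) (nat_lit 1) (.e (nat_lit 57692) (nat_lit 156) (.e (nat_lit 163907) (nat_lit 12) (.e (nat_lit 426566) (nat_lit 34) (.e (nat_lit 393289) (nat_lit 25) .nil)))))) (.g (nat_lit 1) (.e (nat_lit 345995) (nat_lit 0) .nil) .nil))) 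
(.lf (nat_lit 569234) (.g (nat_lit 2505) (.e (nat_lit 466954) (nat_lit 11) (.e (nat_lit 335986) (nat_lit 1) (.e (nat_lit 57688) (nat_lit 156) (.e (nat_lit 163903) (nat_lit 12) (.e (nat_lit 426436) (nat_lit 18) (.e (nat_lit 98382) (nat_lit 31) .nil)))))) (.g (nat_lit 1) (.e (nat_lit 347521) (nat_lit 0) .nil) .nil)))))) (.nd (nat_lit 7) (.nd (nat_lit 8) (.nd (nat_lit 9) 
(.lf (nat_lit 568402) (.g (nat_lit 1293) (.e (nat_lit 450595) (nat_lit 17) (.e (nat_lit 663574) (nat_lit 9) (.e (nat_lit 7936) (nat_lit 24) (.e (nat_lit 360482) (nat_lit 15) (.e (nat_lit 647196) (nat_lit 9) (.e (nat_lit 7936) (nat_lit 35) .nil)))))) (.g (nat_lit 1) (.e (nat_lit 343597) (nat_lit 0) .nil) .nil))) 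
(.lf (nat_lit 568914) (.g (nat_lit 2375) (.e (nat_lit 458789) (nat_lit 23) (.e (nat_lit 532549) (nat_lit 12) (.e (nat_lit 360473) (nat_lit 8) (.e (nat_lit 557089) (nat_lit 12) (.e (nat_lit 163848) (nat_lit 0) .nil))))) (.g (nat_lit 0) (.e (nat_lit 346522) (nat_lit 0) .nil) .nil)))) (.nd (nat_lit 9) 
(.lf (nat_lit 568658) (.g (nat_lit 2435) (.e (nat_lit 458774) (nat_lit 18) (.e (nat_lit 5224) (nat_lit 296) (.e (nat_lit 163871) (nat_lit 2) (.e (nat_lit 196655) (nat_lit 11) (.e (nat_lit 16465) (nat_lit 13) (.e (nat_lit 491264) (nat_lit 13) .nil)))))) (.g (nat_lit 1) (.e (nat_lit 345734) (nat_lit 0) .nil) .nil))) 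
(.lf (nat_lit 569170) (.g (nat_lit 1488) (.e (nat_lit 474880) (nat_lit 5) (.e (nat_lit 114711) (nat_lit 21) (.e (nat_lit 57844) (nat_lit 252) (.e (nat_lit 57424) (nat_lit 14) (.e (nat_lit 360192) (nat_lit 16) .nil))))) (.g (nat_lit 0) (.e (nat_lit 347212) (nat_lit 0) .nil) .nil))))) (.nd (nat_lit 8) (.nd (nat_lit 9) 
(.lf (nat_lit 568530) (.g (nat_lit 1513) (.e (nat_lit 450605) (nat_lit 27) (.e (nat_lit 745491) (nat_lit 4) (.e (nat_lit 65610) (nat_lit 10) (.e (nat_lit 344138) (nat_lit 29) (.e (nat_lit 581636) (nat_lit 0) (.e (nat_lit 3027) (nat_lit 187) .nil)))))) (.g (nat_lit 1) (.e (nat_lit 345441) (nat_lit 0) .nil) .nil))) 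
(.lf (nat_lit 569042) (.g (nat_lit 3785) (.e (nat_lit 458795) (nat_lit 28) (.e (nat_lit 573489) (nat_lit 14) (.e (nat_lit 73755) (nat_lit 8) (.e (nat_lit 557090) (nat_lit 12) (.e (nat_lit 164005) (nat_lit 41) .nil))))) (.g (nat_lit 0) (.e (nat_lit 346963) (nat_lit 0) .nil) .nil)))) (.nd (nat_lit 9) 
(.lf (nat_lit 568786) (.g (nat_lit 1764) (.e (nat_lit 458789) (nat_lit 23) (.e (nat_lit 532499) (nat_lit 1) (.e (nat_lit 57687) (nat_lit 156) (.e (nat_lit 163905) (nat_lit 12) (.e (nat_lit 426568) (nat_lit 34) .nil))))) (.g (nat_lit 0) (.e (nat_lit 346087) (nat_lit 0) .nil) .nil))) 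
(.lf (nat_lit 569298) (.g (nat_lit 665) (.e (nat_lit 466954) (nat_lit 11) (.e (nat_lit 335995) (nat_lit 1) (.e (nat_lit 57652) (nat_lit 152) .nil))) (.g (nat_lit 0) (.e (nat_lit 347585) (nat_lit 0) .nil) .nil))))))) (.nd (nat_lit 6) (.nd (nat_lit 7) (.nd (nat_lit 8) (.nd (nat_lit 9) 
(.lf (nat_lit 568370) (.g (nat_lit 816) (.e (nat_lit 450591) (nat_lit 13) (.e (nat_lit 630821) (nat_lit 16) (.e (nat_lit 65616) (nat_lit 10) (.e (nat_lit 344157) (nat_lit 36) (.e (nat_lit 638986) (nat_lit 5) (.e (nat_lit 3027) (nat_lit 187) .nil)))))) (.g (nat_lit 1) (.e (nat_lit 343440) (nat_lit 0) .nil) .nil))) 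
(.lf (nat_lit 568882) (.g (nat_lit 1149) (.e (nat_lit 458789) (nat_lit 23) (.e (nat_lit 532522) (nat_lit 7) (.e (nat_lit 319528) (nat_lit 16) (.e (nat_lit 286734) (nat_lit 3) .nil)))) (.g (nat_lit 0) (.e (nat_lit 346248) (nat_lit 0) .nil) .nil)))) (.nd (nat_lit 9) 
(.lf (nat_lit 568626) (.g (nat_lit 1629) (.e (nat_lit 466688) (nat_lit 5) (.e (nat_lit 73775) (nat_lit 26) (.e (nat_lit 778465) (nat_lit 11) (.e (nat_lit 24624) (nat_lit 9) .nil)))) (.g (nat_lit 0) (.e (nat_lit 345627) (nat_lit 0) .nil) .nil))) 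
(.lf (nat_lit 569138) (.g (nat_lit 2122) (.e (nat_lit 466949) (nat_lit 0) (.e (nat_lit 1856) (nat_lit 124) (.e (nat_lit 557101) (nat_lit 13) (.e (nat_lit 172115) (nat_lit 10) (.e (nat_lit 434244) (nat_lit 28) .nil))))) (.g (nat_lit 0) (.e (nat_lit 347137) (nat_lit 0) .nil) .nil))))) (.nd (nat_lit 8) (.nd (nat_lit 9) 
(.lf (nat_lit 568498) (.g (nat_lit 2804) (.e (nat_lit 450601) (nat_lit 21) (.e (nat_lit 696344) (nat_lit 8) (.e (nat_lit 172113) (nat_lit 10) (.e (nat_lit 434208) (nat_lit 18) (.e (nat_lit 6418) (nat_lit 341) (.e (nat_lit 163923) (nat_lit 15) .nil)))))) (.g (nat_lit 1) (.e (nat_lit 344427) (nat_lit 0) .nil) .nil))) 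
(.lf (nat_lit 569010) (.g (nat_lit 1580) (.e (nat_lit 458790) (nat_lit 23) (.e (nat_lit 532523) (nat_lit 7) (.e (nat_lit 319533) (nat_lit 16) (.e (nat_lit 286735) (nat_lit 3) .nil)))) (.g (nat_lit 0) (.e (nat_lit 346902) (nat_lit 0) .nil) .nil)))) (.nd (nat_lit 9) 
(.lf (nat_lit 568754) (.g (nat_lit 4891) (.e (nat_lit 458788) (nat_lit 23) (.e (nat_lit 532550) (nat_lit 12) (.e (nat_lit 360475) (nat_lit 8) (.e (nat_lit 557089) (nat_lit 12) (.e (nat_lit 163844) (nat_lit 0) .nil))))) (.g (nat_lit 0) (.e (nat_lit 346038) (nat_lit 0) .nil) .nil))) 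
(.lf (nat_lit 569266) (.g (nat_lit 1751) (.e (nat_lit 466954) (nat_lit 11) (.e (nat_lit 335987) (nat_lit 1) (.e (nat_lit 57692) (nat_lit 156) (.e (nat_lit 163907) (nat_lit 12) (.e (nat_lit 426437) (nat_lit 18) .nil))))) (.g (nat_lit 0) (.e (nat_lit 347553) (nat_lit 0) .nil) .nil)))))) (.nd (nat_lit 7) (.nd (nat_lit 8) (.nd (nat_lit 9) 
(.lf (nat_lit 568434) (.g (nat_lit 1115) (.e (nat_lit 458496) (nat_lit 15) (.e (nat_lit 647176) (nat_lit 0) (.e (nat_lit 2946) (nat_lit 184) (.e (nat_lit 426306) (nat_lit 12) (.e (nat_lit 475207) (nat_lit 41) .nil))))) (.g (nat_lit 0) (.e (nat_lit 343669) (nat_lit 0) .nil) .nil))) 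
(.lf (nat_lit 568946) (.g (nat_lit 2967) (.e (nat_lit 458789) (nat_lit 23) (.e (nat_lit 532563) (nat_lit 15) (.e (nat_lit 385109) (nat_lit 51) (.e (nat_lit 794642) (nat_lit 20) .nil)))) (.g (nat_lit 0) (.e (nat_lit 346716) (nat_lit 0) .nil) .nil)))) (.nd (nat_lit 9) 
(.lf (nat_lit 568690) (.g (nat_lit 1299) (.e (nat_lit 458774) (nat_lit 18) (.e (nat_lit 5548) (nat_lit 306) (.e (nat_lit 2640) (nat_lit 165) (.e (nat_lit 180278) (nat_lit 32) (.e (nat_lit 1658) (nat_lit 115) .nil))))) (.g (nat_lit 0) (.e (nat_lit 345869) (nat_lit 0) .nil) .nil))) 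
(.lf (nat_lit 569202) (.g (nat_lit 1709) (.e (nat_lit 466951) (nat_lit 11) (.e (nat_lit 336390) (nat_lit 27) (.e (nat_lit 426098) (nat_lit 1) (.e (nat_lit 164399) (nat_lit 256) (.e (nat_lit 57379) (nat_lit 3) .nil))))) (.g (nat_lit 0) (.e (nat_lit 347333) (nat_lit 0) .nil) .nil))))) (.nd (nat_lit 8) (.nd (nat_lit 9) 
(.lf (nat_lit 568562) (.g (nat_lit 1104) (.e (nat_lit 450605) (nat_lit 27) (.e (nat_lit 745493) (nat_lit 6) (.e (nat_lit 81943) (nat_lit 20) (.e (nat_lit 1886) (nat_lit 127) (.e (nat_lit 581636) (nat_lit 0) (.e (nat_lit 3015) (nat_lit 187) .nil)))))) (.g (nat_lit 1) (.e (nat_lit 345500) (nat_lit 0) .nil) .nil))) 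
(.lf (nat_lit 569074) (.g (nat_lit 1855) (.e (nat_lit 466946) (nat_lit 0) (.e (nat_lit 1855) (nat_lit 124) (.e (nat_lit 557098) (nat_lit 13) (.e (nat_lit 172115) (nat_lit 10) (.e (nat_lit 434244) (nat_lit 28) .nil))))) (.g (nat_lit 0) (.e (nat_lit 347054) (nat_lit 0) .nil) .nil)))) (.nd (nat_lit 9) 
(.lf (nat_lit 568818) (.g (nat_lit 2633) (.e (nat_lit 458789) (nat_lit 23) (.e (nat_lit 532502) (nat_lit 1) (.e (nat_lit 57688) (nat_lit 156) (.e (nat_lit 163905) (nat_lit 12) (.e (nat_lit 426568) (nat_lit 34) (.e (nat_lit 393286) (nat_lit 25) .nil)))))) (.g (nat_lit 1) (.e (nat_lit 346140) (nat_lit 0) .nil) .nil))) 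
(.lf (nat_lit 569330) (.g (nat_lit 2376) (.e (nat_lit 466954) (nat_lit 11) (.e (nat_lit 335996) (nat_lit 1) (.e (nat_lit 57691) (nat_lit 156) (.e (nat_lit 163907) (nat_lit 12) (.e (nat_lit 426437) (nat_lit 18) (.e (nat_lit 98381) (nat_lit 31) .nil)))))) (.g (nat_lit 1) (.e (nat_lit 347618) (nat_lit 0) .nil) .nil))))))))) 
(.nd (nat_lit 4) (.nd (nat_lit 5) (.nd (nat_lit 6) (.nd (nat_lit 7) (.nd (nat_lit 8) 
(.nd (nat_lit 9) 
(.lf (nat_lit 568330) (.g (nat_lit 3112) (.e (nat_lit 450588) (nat_lit 10) (.e (nat_lit 573475) (nat_lit 12) (.e (nat_lit 57507) (nat_lit 39) (.e (nat_lit 647199) (nat_lit 11) (.e (nat_lit 16388) (nat_lit 0) (.e (nat_lit 3548) (nat_lit 219) (.e (nat_lit 712754) (nat_lit 30) .nil))))))) (.g (nat_lit 1) (.e (nat_lit 343195) (nat_lit 0) .nil) .nil))) 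
(.lf (nat_lit 568842) (.g (nat_lit 2639) (.e (nat_lit 458789) (nat_lit 23) (.e (nat_lit 532503) (nat_lit 1) (.e (nat_lit 57688) (nat_lit 156) (.e (nat_lit 163907) (nat_lit 12) (.e (nat_lit 426566) (nat_lit 34) (.e (nat_lit 393287) (nat_lit 25) .nil)))))) (.g (nat_lit 1) (.e (nat_lit 346185) (nat_lit 0) .nil) .nil)))) (.nd (nat_lit 9) 
(.lf (nat_lit 568586) (.g (nat_lit 1447) (.e (nat_lit 466688) (nat_lit 5) (.e (nat_lit 73729) (nat_lit 0) (.e (nat_lit 7261) (nat_lit 384) (.e (nat_lit 57424) (nat_lit 14) (.e (nat_lit 360192) (nat_lit 15) .nil))))) (.g (nat_lit 0) (.e (nat_lit 345582) (nat_lit 0) .nil) .nil))) 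
(.lf (nat_lit 569098) (.g (nat_lit 2192) (.e (nat_lit 466947) (nat_lit 0) (.e (nat_lit 1800) (nat_lit 119) (.e (nat_lit 516120) (nat_lit 1) (.e (nat_lit 164329) (nat_lit 230) (.e (nat_lit 163941) (nat_lit 19) (.e (nat_lit 491264) (nat_lit 14) .nil)))))) (.g (nat_lit 1) (.e (nat_lit 347084) (nat_lit 0) .nil) .nil))))) (.nd (nat_lit 8) (.nd (nat_lit 9) 
(.lf (nat_lit 568458) (.g (nat_lit 1648) (.e (nat_lit 458496) (nat_lit 15) (.e (nat_lit 647183) (nat_lit 4) (.e (nat_lit 172115) (nat_lit 10) (.e (nat_lit 434271) (nat_lit 38) (.e (nat_lit 655362) (nat_lit 0) .nil))))) (.g (nat_lit 0) (.e (nat_lit 343699) (nat_lit 0) .nil) .nil))) 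
(.lf (nat_lit 568970) (.g (nat_lit 1708) (.e (nat_lit 458789) (nat_lit 23) (.e (nat_lit 532569) (nat_lit 16) (.e (nat_lit 401448) (nat_lit 10) (.e (nat_lit 434244) (nat_lit 28) (.e (nat_lit 573458) (nat_lit 9) .nil))))) (.g (nat_lit 0) (.e (nat_lit 346831) (nat_lit 0) .nil) .nil)))) (.nd (nat_lit 9) 
(.lf (nat_lit 568714) (.g (nat_lit 4217) (.e (nat_lit 458787) (nat_lit 23) (.e (nat_lit 532550) (nat_lit 12) (.e (nat_lit 360474) (nat_lit 8) (.e (nat_lit 557094) (nat_lit 12) .nil)))) (.g (nat_lit 0) (.e (nat_lit 345987) (nat_lit 0) .nil) .nil))) 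
(.lf (nat_lit 569226) (.g (nat_lit 1992) (.e (nat_lit 466954) (nat_lit 11) (.e (nat_lit 335986) (nat_lit 1) (.e (nat_lit 57686) (nat_lit 156) (.e (nat_lit 163903) (nat_lit 12) (.e (nat_lit 426436) (nat_lit 18) .nil))))) (.g (nat_lit 0) (.e (nat_lit 347513) (nat_lit 0) .nil) .nil)))))) (.nd (nat_lit 7) (.nd (nat_lit 8) (.nd (nat_lit 9) 
(.lf (nat_lit 568394) (.g (nat_lit 511) (.e (nat_lit 450594) (nat_lit 17) (.e (nat_lit 663567) (nat_lit 4) (.e (nat_lit 65564) (nat_lit 1) .nil))) (.g (nat_lit 0) (.e (nat_lit 343587) (nat_lit 0) .nil) .nil))) 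
(.lf (nat_lit 568906) (.g (nat_lit 2556) (.e (nat_lit 458789) (nat_lit 23) (.e (nat_lit 532526) (nat_lit 8) (.e (nat_lit 327715) (nat_lit 16) (.e (nat_lit 286727) (nat_lit 0) (.e (nat_lit 1799) (nat_lit 119) .nil))))) (.g (nat_lit 0) (.e (nat_lit 346276) (nat_lit 0) .nil) .nil)))) (.nd (nat_lit 9) 
(.lf (nat_lit 568650) (.g (nat_lit 2025) (.e (nat_lit 458769) (nat_lit 16) (.e (nat_lit 164291) (nat_lit 224) (.e (nat_lit 164104) (nat_lit 116) (.e (nat_lit 778462) (nat_lit 11) (.e (nat_lit 24628) (nat_lit 9) (.e (nat_lit 336438) (nat_lit 31) .nil)))))) (.g (nat_lit 1) (.e (nat_lit 345690) (nat_lit 0) .nil) .nil))) 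
(.lf (nat_lit 569162) (.g (nat_lit 2083) (.e (nat_lit 474880) (nat_lit 3) (.e (nat_lit 98335) (nat_lit 18) (.e (nat_lit 164330) (nat_lit 230) (.e (nat_lit 163941) (nat_lit 19) (.e (nat_lit 491264) (nat_lit 14) .nil))))) (.g (nat_lit 0) (.e (nat_lit 347200) (nat_lit 0) .nil) .nil))))) (.nd (nat_lit 8) (.nd (nat_lit 9) 
(.lf (nat_lit 568522) (.g (nat_lit 1583) (.e (nat_lit 450605) (nat_lit 27) (.e (nat_lit 745476) (nat_lit 0) (.e (nat_lit 1595) (nat_lit 111) (.e (nat_lit 360477) (nat_lit 11) (.e (nat_lit 581635) (nat_lit 0) (.e (nat_lit 3015) (nat_lit 187) .nil)))))) (.g (nat_lit 1) (.e (nat_lit 345429) (nat_lit 0) .nil) .nil))) 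
(.lf (nat_lit 569034) (.g (nat_lit 380) (.e (nat_lit 466688) (nat_lit 25) (.e (nat_lit 548913) (nat_lit 18) (.e (nat_lit 172126) (nat_lit 14) .nil))) (.g (nat_lit 0) (.e (nat_lit 346946) (nat_lit 0) .nil) .nil)))) (.nd (nat_lit 9) 
(.lf (nat_lit 568778) (.g (nat_lit 2839) (.e (nat_lit 458789) (nat_lit 23) (.e (nat_lit 532482) (nat_lit 0) (.e (nat_lit 6724) (nat_lit 362) (.e (nat_lit 180251) (nat_lit 10) (.e (nat_lit 573457) (nat_lit 9) (.e (nat_lit 430) (nat_lit 32) (.e (nat_lit 426296) (nat_lit 11) .nil))))))) (.g (nat_lit 1) (.e (nat_lit 346075) (nat_lit 0) .nil) .nil))) 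
(.lf (nat_lit 569290) (.g (nat_lit 2493) (.e (nat_lit 466954) (nat_lit 11) (.e (nat_lit 335994) (nat_lit 1) (.e (nat_lit 57688) (nat_lit 156) (.e (nat_lit 163905) (nat_lit 12) (.e (nat_lit 426438) (nat_lit 18) (.e (nat_lit 98381) (nat_lit 31) .nil)))))) (.g (nat_lit 1) (.e (nat_lit 347577) (nat_lit 0) .nil) .nil))))))) (.nd (nat_lit 6) (.nd (nat_lit 7) (.nd (nat_lit 8) (.nd (nat_lit 9) 
(.lf (nat_lit 568362) (.g (nat_lit 1083) (.e (nat_lit 450591) (nat_lit 13) (.e (nat_lit 630821) (nat_lit 16) (.e (nat_lit 65610) (nat_lit 10) (.e (nat_lit 344157) (nat_lit 36) (.e (nat_lit 638986) (nat_lit 5) (.e (nat_lit 3027) (nat_lit 187) .nil)))))) (.g (nat_lit 1) (.e (nat_lit 343432) (nat_lit 0) .nil) .nil))) 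
(.lf (nat_lit 568874) (.g (nat_lit 1651) (.e (nat_lit 458789) (nat_lit 23) (.e (nat_lit 532515) (nat_lit 3) (.e (nat_lit 114718) (nat_lit 23) (.e (nat_lit 98334) (nat_lit 18) (.e (nat_lit 164396) (nat_lit 256) .nil))))) (.g (nat_lit 0) (.e (nat_lit 346240) (nat_lit 0) .nil) .nil)))) (.nd (nat_lit 9) 
(.lf (nat_lit 568618) (.g (nat_lit 861) (.e (nat_lit 466688) (nat_lit 5) (.e (nat_lit 73775) (nat_lit 26) (.e (nat_lit 778361) (nat_lit 9) (.e (nat_lit 309) (nat_lit 23) .nil)))) (.g (nat_lit 0) (.e (nat_lit 345618) (nat_lit 0) .nil) .nil))) 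
(.lf (nat_lit 569130) (.g (nat_lit 1767) (.e (nat_lit 466947) (nat_lit 0) (.e (nat_lit 2175) (nat_lit 143) (.e (nat_lit 712745) (nat_lit 27) (.e (nat_lit 425984) (nat_lit 0) (.e (nat_lit 7586) (nat_lit 406) (.e (nat_lit 73472) (nat_lit 32) .nil)))))) (.g (nat_lit 1) (.e (nat_lit 347126) (nat_lit 0) .nil) .nil))))) (.nd (nat_lit 8) (.nd (nat_lit 9) 
(.lf (nat_lit 568490) (.g (nat_lit 1278) (.e (nat_lit 458496) (nat_lit 16) (.e (nat_lit 655378) (nat_lit 4) (.e (nat_lit 172120) (nat_lit 12) (.e (nat_lit 475211) (nat_lit 41) .nil)))) (.g (nat_lit 0) (.e (nat_lit 343972) (nat_lit 0) .nil) .nil))) 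
(.lf (nat_lit 569002) (.g (nat_lit 2905) (.e (nat_lit 458789) (nat_lit 23) (.e (nat_lit 532579) (nat_lit 26) (.e (nat_lit 426139) (nat_lit 3) (.e (nat_lit 204830) (nat_lit 18) (.e (nat_lit 57692) (nat_lit 156) (.e (nat_lit 171776) (nat_lit 64) (.e (nat_lit 98375) (nat_lit 30) .nil))))))) (.g (nat_lit 1) (.e (nat_lit 346894) (nat_lit 0) .nil) .nil)))) (.nd (nat_lit 9) 
(.lf (nat_lit 568746) (.g (nat_lit 6579) (.e (nat_lit 458788) (nat_lit 23) (.e (nat_lit 532550) (nat_lit 12) (.e (nat_lit 360474) (nat_lit 8) (.e (nat_lit 557093) (nat_lit 12) (.e (nat_lit 164022) (nat_lit 46) (.e (nat_lit 704629) (nat_lit 9) (.e (nat_lit 473) (nat_lit 36) .nil))))))) (.g (nat_lit 1) (.e (nat_lit 346029) (nat_lit 0) .nil) .nil))) 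
(.lf (nat_lit 569258) (.g (nat_lit 1528) (.e (nat_lit 466954) (nat_lit 11) (.e (nat_lit 335986) (nat_lit 1) (.e (nat_lit 57692) (nat_lit 156) (.e (nat_lit 163907) (nat_lit 12) (.e (nat_lit 426437) (nat_lit 18) .nil))))) (.g (nat_lit 0) (.e (nat_lit 347545) (nat_lit 0) .nil) .nil)))))) (.nd (nat_lit 7) (.nd (nat_lit 8) (.nd (nat_lit 9) 
(.lf (nat_lit 568426) (.g (nat_lit 3943) (.e (nat_lit 450596) (nat_lit 17) (.e (nat_lit 663589) (nat_lit 14) (.e (nat_lit 2798) (nat_lit 180) (.e (nat_lit 303143) (nat_lit 12) (.e (nat_lit 475211) (nat_lit 41) (.e (nat_lit 712755) (nat_lit 30) .nil)))))) (.g (nat_lit 1) (.e (nat_lit 343640) (nat_lit 0) .nil) .nil))) 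
(.lf (nat_lit 568938) (.g (nat_lit 4372) (.e (nat_lit 458789) (nat_lit 23) (.e (nat_lit 532550) (nat_lit 12) (.e (nat_lit 360475) (nat_lit 8) (.e (nat_lit 557089) (nat_lit 12) (.e (nat_lit 163844) (nat_lit 0) .nil))))) (.g (nat_lit 0) (.e (nat_lit 346561) (nat_lit 0) .nil) .nil)))) (.nd (nat_lit 9) 
(.lf (nat_lit 568682) (.g (nat_lit 4796) (.e (nat_lit 458774) (nat_lit 18) (.e (nat_lit 5548) (nat_lit 306) (.e (nat_lit 2610) (nat_lit 163) (.e (nat_lit 163979) (nat_lit 30) (.e (nat_lit 573492) (nat_lit 15) (.e (nat_lit 81956) (nat_lit 23) (.e (nat_lit 98376) (nat_lit 30) .nil))))))) (.g (nat_lit 1) (.e (nat_lit 345846) (nat_lit 0) .nil) .nil))) 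
(.lf (nat_lit 569194) (.g (nat_lit 2169) (.e (nat_lit 466950) (nat_lit 11) (.e (nat_lit 335995) (nat_lit 1) (.e (nat_lit 57691) (nat_lit 156) (.e (nat_lit 163938) (nat_lit 18) (.e (nat_lit 475179) (nat_lit 24) .nil))))) (.g (nat_lit 0) (.e (nat_lit 347259) (nat_lit 0) .nil) .nil))))) (.nd (nat_lit 8) (.nd (nat_lit 9) 
(.lf (nat_lit 568554) (.g (nat_lit 1104) (.e (nat_lit 450605) (nat_lit 27) (.e (nat_lit 745493) (nat_lit 6) (.e (nat_lit 81938) (nat_lit 20) (.e (nat_lit 1886) (nat_lit 127) (.e (nat_lit 581636) (nat_lit 0) (.e (nat_lit 3027) (nat_lit 187) .nil)))))) (.g (nat_lit 1) (.e (nat_lit 345485) (nat_lit 0) .nil) .nil))) 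
(.lf (nat_lit 569066) (.g (nat_lit 1317) (.e (nat_lit 466945) (nat_lit 0) (.e (nat_lit 1796) (nat_lit 119) (.e (nat_lit 516120) (nat_lit 1) (.e (nat_lit 164329) (nat_lit 230) (.e (nat_lit 163942) (nat_lit 19) .nil))))) (.g (nat_lit 0) (.e (nat_lit 347043) (nat_lit 0) .nil) .nil)))) (.nd (nat_lit 9) 
(.lf (nat_lit 568810) (.g (nat_lit 2053) (.e (nat_lit 458789) (nat_lit 23) (.e (nat_lit 532501) (nat_lit 1) (.e (nat_lit 57690) (nat_lit 156) (.e (nat_lit 163907) (nat_lit 12) (.e (nat_lit 426568) (nat_lit 34) (.e (nat_lit 393287) (nat_lit 25) .nil)))))) (.g (nat_lit 1) (.e (nat_lit 346129) (nat_lit 0) .nil) .nil))) 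
(.lf (nat_lit 569322) (.g (nat_lit 2108) (.e (nat_lit 466954) (nat_lit 11) (.e (nat_lit 335996) (nat_lit 1) (.e (nat_lit 57685) (nat_lit 156) (.e (nat_lit 163902) (nat_lit 12) (.e (nat_lit 426438) (nat_lit 18) .nil))))) (.g (nat_lit 0) (.e (nat_lit 347610) (nat_lit 0) .nil) .nil)))))))) (.nd (nat_lit 5) (.nd (nat_lit 6) (.nd (nat_lit 7) (.nd (nat_lit 8) (.nd (nat_lit 9) 
(.lf (nat_lit 568346) (.g (nat_lit 155) (.e (nat_lit 458496) (nat_lit 8) (.e (nat_lit 557061) (nat_lit 0) (.e (nat_lit 1568) (nat_lit 110) (.e (nat_lit 352279) (nat_lit 19) (.e (nat_lit 499456) (nat_lit 30) .nil))))) (.g (nat_lit 0) (.e (nat_lit 343320) (nat_lit 0) .nil) .nil))) 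
(.lf (nat_lit 568858) (.g (nat_lit 529) (.e (nat_lit 458789) (nat_lit 23) (.e (nat_lit 532504) (nat_lit 1) (.e (nat_lit 57663) (nat_lit 152) .nil))) (.g (nat_lit 0) (.e (nat_lit 346212) (nat_lit 0) .nil) .nil)))) (.nd (nat_lit 9) 
(.lf (nat_lit 568602) (.g (nat_lit 757) (.e (nat_lit 466688) (nat_lit 5) (.e (nat_lit 73730) (nat_lit 0) (.e (nat_lit 7263) (nat_lit 384) (.e (nat_lit 57423) (nat_lit 14) (.e (nat_lit 360192) (nat_lit 15) .nil))))) (.g (nat_lit 0) (.e (nat_lit 345600) (nat_lit 0) .nil) .nil))) 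
(.lf (nat_lit 569114) (.g (nat_lit 2416) (.e (nat_lit 466947) (nat_lit 0) (.e (nat_lit 1856) (nat_lit 124) (.e (nat_lit 557101) (nat_lit 13) (.e (nat_lit 172115) (nat_lit 10) (.e (nat_lit 434244) (nat_lit 28) (.e (nat_lit 573449) (nat_lit 9) (.e (nat_lit 481) (nat_lit 37) .nil))))))) (.g (nat_lit 1) (.e (nat_lit 347101) (nat_lit 0) .nil) .nil))))) (.nd (nat_lit 8) (.nd (nat_lit 9) 
(.lf (nat_lit 568474) (.g (nat_lit 2722) (.e (nat_lit 450593) (nat_lit 16) (.e (nat_lit 655376) (nat_lit 4) (.e (nat_lit 172126) (nat_lit 14) (.e (nat_lit 491549) (nat_lit 9) (.e (nat_lit 336432) (nat_lit 30) .nil))))) (.g (nat_lit 1) (.e (nat_lit 343788) (nat_lit 0) .nil) .nil))) 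
(.lf (nat_lit 568986) (.g (nat_lit 4240) (.e (nat_lit 458789) (nat_lit 23) (.e (nat_lit 532569) (nat_lit 16) (.e (nat_lit 401448) (nat_lit 10) (.e (nat_lit 434247) (nat_lit 28) (.e (nat_lit 573456) (nat_lit 9) (.e (nat_lit 430) (nat_lit 32) (.e (nat_lit 426300) (nat_lit 11) .nil))))))) (.g (nat_lit 1) (.e (nat_lit 346847) (nat_lit 0) .nil) .nil)))) (.nd (nat_lit 9) 
(.lf (nat_lit 568730) (.g (nat_lit 1605) (.e (nat_lit 458788) (nat_lit 23) (.e (nat_lit 532522) (nat_lit 7) (.e (nat_lit 319531) (nat_lit 16) (.e (nat_lit 286734) (nat_lit 3) .nil)))) (.g (nat_lit 0) (.e (nat_lit 346003) (nat_lit 0) .nil) .nil))) 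
(.lf (nat_lit 569242) (.g (nat_lit 1263) (.e (nat_lit 466954) (nat_lit 11) (.e (nat_lit 335986) (nat_lit 1) (.e (nat_lit 57688) (nat_lit 156) (.e (nat_lit 163913) (nat_lit 12) .nil)))) (.g (nat_lit 0) (.e (nat_lit 347529) (nat_lit 0) .nil) .nil)))))) (.nd (nat_lit 7) (.nd (nat_lit 8) (.nd (nat_lit 9) 
(.lf (nat_lit 568410) (.g (nat_lit 1288) (.e (nat_lit 450595) (nat_lit 17) (.e (nat_lit 663580) (nat_lit 9) (.e (nat_lit 7936) (nat_lit 24) (.e (nat_lit 360482) (nat_lit 15) (.e (nat_lit 647196) (nat_lit 9) (.e (nat_lit 7936) (nat_lit 35) .nil)))))) (.g (nat_lit 1) (.e (nat_lit 343606) (nat_lit 0) .nil) .nil))) 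
(.lf (nat_lit 568922) (.g (nat_lit 2467) (.e (nat_lit 458789) (nat_lit 23) (.e (nat_lit 532549) (nat_lit 12) (.e (nat_lit 360475) (nat_lit 8) (.e (nat_lit 557089) (nat_lit 12) .nil)))) (.g (nat_lit 0) (.e (nat_lit 346534) (nat_lit 0) .nil) .nil)))) (.nd (nat_lit 9) 
(.lf (nat_lit 568666) (.g (nat_lit 2003) (.e (nat_lit 458774) (nat_lit 18) (.e (nat_lit 5546) (nat_lit 306) (.e (nat_lit 2638) (nat_lit 165) (.e (nat_lit 180277) (nat_lit 32) .nil)))) (.g (nat_lit 0) (.e (nat_lit 345774) (nat_lit 0) .nil) .nil))) 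
(.lf (nat_lit 569178) (.g (nat_lit 1292) (.e (nat_lit 466950) (nat_lit 11) (.e (nat_lit 335995) (nat_lit 1) (.e (nat_lit 57654) (nat_lit 152) (.e (nat_lit 2399) (nat_lit 157) .nil)))) (.g (nat_lit 0) (.e (nat_lit 347242) (nat_lit 0) .nil) .nil))))) (.nd (nat_lit 8) (.nd (nat_lit 9) 
(.lf (nat_lit 568538) (.g (nat_lit 1648) (.e (nat_lit 450605) (nat_lit 27) (.e (nat_lit 745491) (nat_lit 4) (.e (nat_lit 65617) (nat_lit 10) (.e (nat_lit 344138) (nat_lit 29) (.e (nat_lit 581636) (nat_lit 0) (.e (nat_lit 3015) (nat_lit 187) .nil)))))) (.g (nat_lit 1) (.e (nat_lit 345453) (nat_lit 0) .nil) .nil))) 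
(.lf (nat_lit 569050) (.g (nat_lit 1025) (.e (nat_lit 458810) (nat_lit 43) (.e (nat_lit 696343) (nat_lit 8) (.e (nat_lit 172115) (nat_lit 10) (.e (nat_lit 434202) (nat_lit 18) .nil)))) (.g (nat_lit 0) (.e (nat_lit 346994) (nat_lit 0) .nil) .nil)))) (.nd (nat_lit 9) 
(.lf (nat_lit 568794) (.g (nat_lit 2398) (.e (nat_lit 458789) (nat_lit 23) (.e (nat_lit 532499) (nat_lit 1) (.e (nat_lit 57691) (nat_lit 156) (.e (nat_lit 163905) (nat_lit 12) (.e (nat_lit 426566) (nat_lit 34) .nil))))) (.g (nat_lit 0) (.e (nat_lit 346101) (nat_lit 0) .nil) .nil))) 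
(.lf (nat_lit 569306) (.g (nat_lit 2198) (.e (nat_lit 466954) (nat_lit 11) (.e (nat_lit 335995) (nat_lit 1) (.e (nat_lit 57688) (nat_lit 156) (.e (nat_lit 163902) (nat_lit 12) (.e (nat_lit 426434) (nat_lit 18) .nil))))) (.g (nat_lit 0) (.e (nat_lit 347594) (nat_lit 0) .nil) .nil))))))) (.nd (nat_lit 6) (.nd (nat_lit 7) (.nd (nat_lit 8) (.nd (nat_lit 9) 
(.lf (nat_lit 568378) (.g (nat_lit 1074) (.e (nat_lit 450591) (nat_lit 13) (.e (nat_lit 630821) (nat_lit 16) (.e (nat_lit 65619) (nat_lit 10) (.e (nat_lit 344157) (nat_lit 36) (.e (nat_lit 638985) (nat_lit 5) .nil))))) (.g (nat_lit 0) (.e (nat_lit 343449) (nat_lit 0) .nil) .nil))) 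
(.lf (nat_lit 568890) (.g (nat_lit 1480) (.e (nat_lit 458789) (nat_lit 23) (.e (nat_lit 532522) (nat_lit 7) (.e (nat_lit 319536) (nat_lit 17) (.e (nat_lit 294931) (nat_lit 3) .nil)))) (.g (nat_lit 0) (.e (nat_lit 346256) (nat_lit 0) .nil) .nil)))) (.nd (nat_lit 9) 
(.lf (nat_lit 568634) (.g (nat_lit 736) (.e (nat_lit 466688) (nat_lit 5) (.e (nat_lit 73776) (nat_lit 26) (.e (nat_lit 778359) (nat_lit 9) (.e (nat_lit 334) (nat_lit 26) (.e (nat_lit 384768) (nat_lit 15) .nil))))) (.g (nat_lit 0) (.e (nat_lit 345641) (nat_lit 0) .nil) .nil))) 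
(.lf (nat_lit 569146) (.g (nat_lit 1802) (.e (nat_lit 474880) (nat_lit 0) (.e (nat_lit 1859) (nat_lit 124) (.e (nat_lit 557098) (nat_lit 13) (.e (nat_lit 172124) (nat_lit 14) (.e (nat_lit 491540) (nat_lit 3) .nil))))) (.g (nat_lit 0) (.e (nat_lit 347148) (nat_lit 0) .nil) .nil))))) (.nd (nat_lit 8) (.nd (nat_lit 9) 
(.lf (nat_lit 568506) (.g (nat_lit 764) (.e (nat_lit 458496) (nat_lit 26) (.e (nat_lit 737300) (nat_lit 7) (.e (nat_lit 286753) (nat_lit 10) (.e (nat_lit 344123) (nat_lit 24) (.e (nat_lit 548608) (nat_lit 29) .nil))))) (.g (nat_lit 0) (.e (nat_lit 345408) (nat_lit 0) .nil) .nil))) 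
(.lf (nat_lit 569018) (.g (nat_lit 5644) (.e (nat_lit 458790) (nat_lit 23) (.e (nat_lit 532550) (nat_lit 12) (.e (nat_lit 360475) (nat_lit 8) (.e (nat_lit 557091) (nat_lit 12) (.e (nat_lit 164022) (nat_lit 46) .nil))))) (.g (nat_lit 0) (.e (nat_lit 346920) (nat_lit 0) .nil) .nil)))) (.nd (nat_lit 9) 
(.lf (nat_lit 568762) (.g (nat_lit 2228) (.e (nat_lit 458788) (nat_lit 23) (.e (nat_lit 532569) (nat_lit 16) (.e (nat_lit 401448) (nat_lit 10) (.e (nat_lit 434246) (nat_lit 28) .nil)))) (.g (nat_lit 0) (.e (nat_lit 346048) (nat_lit 0) .nil) .nil))) 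
(.lf (nat_lit 569274) (.g (nat_lit 2078) (.e (nat_lit 466954) (nat_lit 11) (.e (nat_lit 335988) (nat_lit 1) (.e (nat_lit 57691) (nat_lit 156) (.e (nat_lit 163907) (nat_lit 12) (.e (nat_lit 426434) (nat_lit 18) .nil))))) (.g (nat_lit 0) (.e (nat_lit 347561) (nat_lit 0) .nil) .nil)))))) (.nd (nat_lit 7) (.nd (nat_lit 8) (.nd (nat_lit 9) 
(.lf (nat_lit 568442) (.g (nat_lit 1432) (.e (nat_lit 458496) (nat_lit 15) (.e (nat_lit 647183) (nat_lit 4) (.e (nat_lit 172106) (nat_lit 10) (.e (nat_lit 434271) (nat_lit 38) (.e (nat_lit 655363) (nat_lit 0) .nil))))) (.g (nat_lit 0) (.e (nat_lit 343683) (nat_lit 0) .nil) .nil))) 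
(.lf (nat_lit 568954) (.g (nat_lit 3785) (.e (nat_lit 458789) (nat_lit 23) (.e (nat_lit 532569) (nat_lit 16) (.e (nat_lit 401448) (nat_lit 10) (.e (nat_lit 434231) (nat_lit 23) (.e (nat_lit 532482) (nat_lit 0) (.e (nat_lit 6696) (nat_lit 357) (.e (nat_lit 3034) (nat_lit 188) .nil))))))) (.g (nat_lit 1) (.e (nat_lit 346811) (nat_lit 0) .nil) .nil)))) (.nd (nat_lit 9) 
(.lf (nat_lit 568698) (.g (nat_lit 1752) (.e (nat_lit 458787) (nat_lit 23) (.e (nat_lit 532503) (nat_lit 1) (.e (nat_lit 57667) (nat_lit 152) (.e (nat_lit 2619) (nat_lit 164) (.e (nat_lit 179968) (nat_lit 34) .nil))))) (.g (nat_lit 0) (.e (nat_lit 345960) (nat_lit 0) .nil) .nil))) 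
(.lf (nat_lit 569210) (.g (nat_lit 2022) (.e (nat_lit 466952) (nat_lit 11) (.e (nat_lit 336390) (nat_lit 27) (.e (nat_lit 426100) (nat_lit 1) (.e (nat_lit 164399) (nat_lit 256) (.e (nat_lit 57378) (nat_lit 3) .nil))))) (.g (nat_lit 0) (.e (nat_lit 347453) (nat_lit 0) .nil) .nil))))) (.nd (nat_lit 8) (.nd (nat_lit 9) 
(.lf (nat_lit 568570) (.g (nat_lit 728) (.e (nat_lit 450605) (nat_lit 27) (.e (nat_lit 745493) (nat_lit 6) (.e (nat_lit 81947) (nat_lit 20) (.e (nat_lit 1885) (nat_lit 127) (.e (nat_lit 581636) (nat_lit 0) .nil))))) (.g (nat_lit 0) (.e (nat_lit 345514) (nat_lit 0) .nil) .nil))) 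
(.lf (nat_lit 569082) (.g (nat_lit 942) (.e (nat_lit 466947) (nat_lit 0) (.e (nat_lit 1798) (nat_lit 119) (.e (nat_lit 516124) (nat_lit 2) (.e (nat_lit 213030) (nat_lit 11) (.e (nat_lit 24609) (nat_lit 3) .nil))))) (.g (nat_lit 0) (.e (nat_lit 347063) (nat_lit 0) .nil) .nil)))) (.nd (nat_lit 9) 
(.lf (nat_lit 568826) (.g (nat_lit 2335) (.e (nat_lit 458789) (nat_lit 23) (.e (nat_lit 532502) (nat_lit 1) (.e (nat_lit 57692) (nat_lit 156) (.e (nat_lit 163905) (nat_lit 12) (.e (nat_lit 426566) (nat_lit 34) (.e (nat_lit 393285) (nat_lit 25) .nil)))))) (.g (nat_lit 1) (.e (nat_lit 346151) (nat_lit 0) .nil) .nil))) 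
(.lf (nat_lit 569338) (.g (nat_lit 2063) (.e (nat_lit 466954) (nat_lit 11) (.e (nat_lit 336288) (nat_lit 15) (.e (nat_lit 7096) (nat_lit 380) (.e (nat_lit 164356) (nat_lit 246) (.e (nat_lit 112) (nat_lit 3) .nil))))) (.g (nat_lit 0) (.e (nat_lit 347851) (nat_lit 0) .nil) .nil)))))))))) 
(.nd (nat_lit 3) (.nd (nat_lit 4) (.nd (nat_lit 5) (.nd (nat_lit 6) (.nd (nat_lit 7) 
(.nd (nat_lit 8) (.nd (nat_lit 9) 
(.lf (nat_lit 568326) (.g (nat_lit 4056) (.e (nat_lit 450588) (nat_lit 10) (.e (nat_lit 573475) (nat_lit 12) (.e (nat_lit 57506) (nat_lit 39) (.e (nat_lit 647201) (nat_lit 12) (.e (nat_lit 57574) (nat_lit 55) (.e (nat_lit 778455) (nat_lit 10) (.e (nat_lit 8356) (nat_lit 88) (.e (nat_lit 712755) (nat_lit 30) .nil)))))))) (.g (nat_lit 1) (.e (nat_lit 343184) (nat_lit 0) .nil) .nil))) 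
(.lf (nat_lit 568838) (.g (nat_lit 2021) (.e (nat_lit 458789) (nat_lit 23) (.e (nat_lit 532503) (nat_lit 1) (.e (nat_lit 57687) (nat_lit 156) (.e (nat_lit 163905) (nat_lit 12) (.e (nat_lit 426568) (nat_lit 34) .nil))))) (.g (nat_lit 0) (.e (nat_lit 346174) (nat_lit 0) .nil) .nil)))) (.nd (nat_lit 9) 
(.lf (nat_lit 568582) (.g (nat_lit 1783) (.e (nat_lit 466688) (nat_lit 4) (.e (nat_lit 65653) (nat_lit 27) (.e (nat_lit 426344) (nat_lit 14) (.e (nat_lit 491546) (nat_lit 9) (.e (nat_lit 336438) (nat_lit 31) .nil))))) (.g (nat_lit 0) (.e (nat_lit 345576) (nat_lit 0) .nil) .nil))) 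
(.lf (nat_lit 569094) (.g (nat_lit 2058) (.e (nat_lit 466947) (nat_lit 0) (.e (nat_lit 1800) (nat_lit 119) (.e (nat_lit 516119) (nat_lit 1) (.e (nat_lit 164325) (nat_lit 230) (.e (nat_lit 163943) (nat_lit 19) (.e (nat_lit 491264) (nat_lit 14) .nil)))))) (.g (nat_lit 1) (.e (nat_lit 347080) (nat_lit 0) .nil) .nil))))) (.nd (nat_lit 8) (.nd (nat_lit 9) 
(.lf (nat_lit 568454) (.g (nat_lit 1729) (.e (nat_lit 458496) (nat_lit 15) (.e (nat_lit 647183) (nat_lit 4) (.e (nat_lit 172113) (nat_lit 10) (.e (nat_lit 434271) (nat_lit 38) (.e (nat_lit 655362) (nat_lit 0) .nil))))) (.g (nat_lit 0) (.e (nat_lit 343695) (nat_lit 0) .nil) .nil))) 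
(.lf (nat_lit 568966) (.g (nat_lit 3987) (.e (nat_lit 458789) (nat_lit 23) (.e (nat_lit 532569) (nat_lit 16) (.e (nat_lit 401448) (nat_lit 10) (.e (nat_lit 434232) (nat_lit 23) (.e (nat_lit 532489) (nat_lit 0) (.e (nat_lit 6691) (nat_lit 357) (.e (nat_lit 3033) (nat_lit 188) .nil))))))) (.g (nat_lit 1) (.e (nat_lit 346824) (nat_lit 0) .nil) .nil)))) (.nd (nat_lit 9) 
(.lf (nat_lit 568710) (.g (nat_lit 4294) (.e (nat_lit 458787) (nat_lit 23) (.e (nat_lit 532550) (nat_lit 12) (.e (nat_lit 360474) (nat_lit 8) (.e (nat_lit 557093) (nat_lit 12) .nil)))) (.g (nat_lit 0) (.e (nat_lit 345983) (nat_lit 0) .nil) .nil))) 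
(.lf (nat_lit 569222) (.g (nat_lit 876) (.e (nat_lit 466954) (nat_lit 11) (.e (nat_lit 335986) (nat_lit 1) (.e (nat_lit 57659) (nat_lit 152) .nil))) (.g (nat_lit 0) (.e (nat_lit 347509) (nat_lit 0) .nil) .nil)))))) (.nd (nat_lit 7) (.nd (nat_lit 8) (.nd (nat_lit 9) 
(.lf (nat_lit 568390) (.g (nat_lit 1132) (.e (nat_lit 450592) (nat_lit 14) (.e (nat_lit 639008) (nat_lit 13) (.e (nat_lit 1598) (nat_lit 111) (.e (nat_lit 360480) (nat_lit 14) (.e (nat_lit 638986) (nat_lit 5) (.e (nat_lit 3015) (nat_lit 187) .nil)))))) (.g (nat_lit 1) (.e (nat_lit 343497) (nat_lit 0) .nil) .nil))) 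
(.lf (nat_lit 568902) (.g (nat_lit 2554) (.e (nat_lit 458789) (nat_lit 23) (.e (nat_lit 532523) (nat_lit 7) (.e (nat_lit 319534) (nat_lit 16) (.e (nat_lit 286734) (nat_lit 3) (.e (nat_lit 98365) (nat_lit 26) .nil))))) (.g (nat_lit 0) (.e (nat_lit 346268) (nat_lit 0) .nil) .nil)))) (.nd (nat_lit 9) 
(.lf (nat_lit 568646) (.g (nat_lit 1853) (.e (nat_lit 458769) (nat_lit 16) (.e (nat_lit 164287) (nat_lit 224) (.e (nat_lit 164103) (nat_lit 116) (.e (nat_lit 778462) (nat_lit 11) (.e (nat_lit 24628) (nat_lit 9) (.e (nat_lit 336438) (nat_lit 31) .nil)))))) (.g (nat_lit 1) (.e (nat_lit 345684) (nat_lit 0) .nil) .nil))) 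
(.lf (nat_lit 569158) (.g (nat_lit 1146) (.e (nat_lit 474880) (nat_lit 3) (.e (nat_lit 98335) (nat_lit 18) (.e (nat_lit 164326) (nat_lit 230) (.e (nat_lit 163941) (nat_lit 19) (.e (nat_lit 491264) (nat_lit 14) .nil))))) (.g (nat_lit 0) (.e (nat_lit 347192) (nat_lit 0) .nil) .nil))))) (.nd (nat_lit 8) (.nd (nat_lit 9) 
(.lf (nat_lit 568518) (.g (nat_lit 143) (.e (nat_lit 450605) (nat_lit 27) (.e (nat_lit 745475) (nat_lit 0) (.e (nat_lit 1599) (nat_lit 111) .nil))) (.g (nat_lit 0) (.e (nat_lit 345425) (nat_lit 0) .nil) .nil))) 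
(.lf (nat_lit 569030) (.g (nat_lit 2643) (.e (nat_lit 458792) (nat_lit 25) (.e (nat_lit 548913) (nat_lit 18) (.e (nat_lit 172126) (nat_lit 14) (.e (nat_lit 491539) (nat_lit 3) (.e (nat_lit 98358) (nat_lit 26) .nil))))) (.g (nat_lit 0) (.e (nat_lit 346941) (nat_lit 0) .nil) .nil)))) (.nd (nat_lit 9) 
(.lf (nat_lit 568774) (.g (nat_lit 2274) (.e (nat_lit 458789) (nat_lit 23) (.e (nat_lit 532482) (nat_lit 0) (.e (nat_lit 6724) (nat_lit 362) (.e (nat_lit 180250) (nat_lit 10) (.e (nat_lit 573457) (nat_lit 9) (.e (nat_lit 430) (nat_lit 32) (.e (nat_lit 426300) (nat_lit 11) .nil))))))) (.g (nat_lit 1) (.e (nat_lit 346071) (nat_lit 0) .nil) .nil))) 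
(.lf (nat_lit 569286) (.g (nat_lit 2433) (.e (nat_lit 466954) (nat_lit 11) (.e (nat_lit 335994) (nat_lit 1) (.e (nat_lit 57688) (nat_lit 156) (.e (nat_lit 163902) (nat_lit 12) (.e (nat_lit 426434) (nat_lit 18) (.e (nat_lit 98381) (nat_lit 31) .nil)))))) (.g (nat_lit 1) (.e (nat_lit 347573) (nat_lit 0) .nil) .nil))))))) (.nd (nat_lit 6) (.nd (nat_lit 7) (.nd (nat_lit 8) (.nd (nat_lit 9) 
(.lf (nat_lit 568358) (.g (nat_lit 1341) (.e (nat_lit 450591) (nat_lit 13) (.e (nat_lit 630821) (nat_lit 16) (.e (nat_lit 65610) (nat_lit 10) (.e (nat_lit 344157) (nat_lit 36) (.e (nat_lit 638985) (nat_lit 5) (.e (nat_lit 3016) (nat_lit 187) .nil)))))) (.g (nat_lit 1) (.e (nat_lit 343428) (nat_lit 0) .nil) .nil))) 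
(.lf (nat_lit 568870) (.g (nat_lit 1716) (.e (nat_lit 458789) (nat_lit 23) (.e (nat_lit 532513) (nat_lit 3) (.e (nat_lit 114719) (nat_lit 23) (.e (nat_lit 98332) (nat_lit 18) .nil)))) (.g (nat_lit 0) (.e (nat_lit 346233) (nat_lit 0) .nil) .nil)))) (.nd (nat_lit 9) 
(.lf (nat_lit 568614) (.g (nat_lit 1853) (.e (nat_lit 466688) (nat_lit 5) (.e (nat_lit 73731) (nat_lit 0) (.e (nat_lit 7266) (nat_lit 384) (.e (nat_lit 57424) (nat_lit 14) (.e (nat_lit 360192) (nat_lit 15) .nil))))) (.g (nat_lit 0) (.e (nat_lit 345613) (nat_lit 0) .nil) .nil))) 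
(.lf (nat_lit 569126) (.g (nat_lit 1577) (.e (nat_lit 466947) (nat_lit 0) (.e (nat_lit 2174) (nat_lit 143) (.e (nat_lit 712745) (nat_lit 27) (.e (nat_lit 425984) (nat_lit 0) (.e (nat_lit 7588) (nat_lit 406) (.e (nat_lit 73472) (nat_lit 32) .nil)))))) (.g (nat_lit 1) (.e (nat_lit 347122) (nat_lit 0) .nil) .nil))))) (.nd (nat_lit 8) (.nd (nat_lit 9) 
(.lf (nat_lit 568486) (.g (nat_lit 3337) (.e (nat_lit 450593) (nat_lit 16) (.e (nat_lit 655378) (nat_lit 4) (.e (nat_lit 172126) (nat_lit 14) (.e (nat_lit 491547) (nat_lit 9) (.e (nat_lit 336432) (nat_lit 30) .nil))))) (.g (nat_lit 1) (.e (nat_lit 343883) (nat_lit 0) .nil) .nil))) 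
(.lf (nat_lit 568998) (.g (nat_lit 642) (.e (nat_lit 458789) (nat_lit 23) (.e (nat_lit 532569) (nat_lit 16) (.e (nat_lit 409344) (nat_lit 14) .nil))) (.g (nat_lit 0) (.e (nat_lit 346861) (nat_lit 0) .nil) .nil)))) (.nd (nat_lit 9) 
(.lf (nat_lit 568742) (.g (nat_lit 4173) (.e (nat_lit 458788) (nat_lit 23) (.e (nat_lit 532550) (nat_lit 12) (.e (nat_lit 360474) (nat_lit 8) (.e (nat_lit 557093) (nat_lit 12) (.e (nat_lit 163849) (nat_lit 0) .nil))))) (.g (nat_lit 0) (.e (nat_lit 346025) (nat_lit 0) .nil) .nil))) 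
(.lf (nat_lit 569254) (.g (nat_lit 344) (.e (nat_lit 466954) (nat_lit 11) (.e (nat_lit 335986) (nat_lit 1) (.e (nat_lit 57692) (nat_lit 156) .nil))) (.g (nat_lit 0) (.e (nat_lit 347541) (nat_lit 0) .nil) .nil)))))) (.nd (nat_lit 7) (.nd (nat_lit 8) (.nd (nat_lit 9) 
(.lf (nat_lit 568422) (.g (nat_lit 3264) (.e (nat_lit 450595) (nat_lit 17) (.e (nat_lit 663589) (nat_lit 14) (.e (nat_lit 2808) (nat_lit 180) (.e (nat_lit 303143) (nat_lit 12) (.e (nat_lit 475211) (nat_lit 41) (.e (nat_lit 712753) (nat_lit 30) .nil)))))) (.g (nat_lit 1) (.e (nat_lit 343629) (nat_lit 0) .nil) .nil))) 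
(.lf (nat_lit 568934) (.g (nat_lit 5347) (.e (nat_lit 458789) (nat_lit 23) (.e (nat_lit 532550) (nat_lit 12) (.e (nat_lit 360474) (nat_lit 8) (.e (nat_lit 557091) (nat_lit 12) .nil)))) (.g (nat_lit 0) (.e (nat_lit 346556) (nat_lit 0) .nil) .nil)))) (.nd (nat_lit 9) 
(.lf (nat_lit 568678) (.g (nat_lit 1080) (.e (nat_lit 458774) (nat_lit 18) (.e (nat_lit 5547) (nat_lit 306) (.e (nat_lit 2640) (nat_lit 165) (.e (nat_lit 180277) (nat_lit 32) (.e (nat_lit 1658) (nat_lit 115) .nil))))) (.g (nat_lit 0) (.e (nat_lit 345835) (nat_lit 0) .nil) .nil))) 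
(.lf (nat_lit 569190) (.g (nat_lit 1553) (.e (nat_lit 466950) (nat_lit 11) (.e (nat_lit 335995) (nat_lit 1) (.e (nat_lit 57688) (nat_lit 156) (.e (nat_lit 163935) (nat_lit 18) .nil)))) (.g (nat_lit 0) (.e (nat_lit 347255) (nat_lit 0) .nil) .nil))))) (.nd (nat_lit 8) (.nd (nat_lit 9) 
(.lf (nat_lit 568550) (.g (nat_lit 1099) (.e (nat_lit 450605) (nat_lit 27) (.e (nat_lit 745493) (nat_lit 6) (.e (nat_lit 81938) (nat_lit 20) (.e (nat_lit 1885) (nat_lit 127) (.e (nat_lit 581636) (nat_lit 0) (.e (nat_lit 3027) (nat_lit 187) .nil)))))) (.g (nat_lit 1) (.e (nat_lit 345478) (nat_lit 0) .nil) .nil))) 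
(.lf (nat_lit 569062) (.g (nat_lit 1664) (.e (nat_lit 466944) (nat_lit 0) (.e (nat_lit 1853) (nat_lit 124) (.e (nat_lit 557098) (nat_lit 13) (.e (nat_lit 172115) (nat_lit 10) .nil)))) (.g (nat_lit 0) (.e (nat_lit 347017) (nat_lit 0) .nil) .nil)))) (.nd (nat_lit 9) 
(.lf (nat_lit 568806) (.g (nat_lit 2099) (.e (nat_lit 458789) (nat_lit 23) (.e (nat_lit 532501) (nat_lit 1) (.e (nat_lit 57689) (nat_lit 156) (.e (nat_lit 163907) (nat_lit 12) (.e (nat_lit 426566) (nat_lit 34) .nil))))) (.g (nat_lit 0) (.e (nat_lit 346123) (nat_lit 0) .nil) .nil))) 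
(.lf (nat_lit 569318) (.g (nat_lit 1915) (.e (nat_lit 466954) (nat_lit 11) (.e (nat_lit 335995) (nat_lit 1) (.e (nat_lit 57691) (nat_lit 156) (.e (nat_lit 163938) (nat_lit 18) (.e (nat_lit 475176) (nat_lit 24) .nil))))) (.g (nat_lit 0) (.e (nat_lit 347606) (nat_lit 0) .nil) .nil)))))))) (.nd (nat_lit 5) (.nd (nat_lit 6) (.nd (nat_lit 7) (.nd (nat_lit 8) (.nd (nat_lit 9) 
(.lf (nat_lit 568342) (.g (nat_lit 714) (.e (nat_lit 458496) (nat_lit 10) (.e (nat_lit 573471) (nat_lit 11) (.e (nat_lit 16425) (nat_lit 7) .nil))) (.g (nat_lit 0) (.e (nat_lit 343316) (nat_lit 0) .nil) .nil))) 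
(.lf (nat_lit 568854) (.g (nat_lit 2380) (.e (nat_lit 458789) (nat_lit 23) (.e (nat_lit 532503) (nat_lit 1) (.e (nat_lit 57692) (nat_lit 156) (.e (nat_lit 163907) (nat_lit 12) (.e (nat_lit 426568) (nat_lit 34) .nil))))) (.g (nat_lit 0) (.e (nat_lit 346205) (nat_lit 0) .nil) .nil)))) (.nd (nat_lit 9) 
(.lf (nat_lit 568598) (.g (nat_lit 1750) (.e (nat_lit 466688) (nat_lit 5) (.e (nat_lit 73729) (nat_lit 0) (.e (nat_lit 7266) (nat_lit 384) (.e (nat_lit 57436) (nat_lit 17) (.e (nat_lit 384768) (nat_lit 15) .nil))))) (.g (nat_lit 0) (.e (nat_lit 345596) (nat_lit 0) .nil) .nil))) 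
(.lf (nat_lit 569110) (.g (nat_lit 3001) (.e (nat_lit 466947) (nat_lit 0) (.e (nat_lit 1855) (nat_lit 124) (.e (nat_lit 557098) (nat_lit 13) (.e (nat_lit 172115) (nat_lit 10) (.e (nat_lit 434244) (nat_lit 28) (.e (nat_lit 573458) (nat_lit 9) (.e (nat_lit 7936) (nat_lit 37) .nil))))))) (.g (nat_lit 1) (.e (nat_lit 347097) (nat_lit 0) .nil) .nil))))) (.nd (nat_lit 8) (.nd (nat_lit 9) 
(.lf (nat_lit 568470) (.g (nat_lit 1614) (.e (nat_lit 458496) (nat_lit 15) (.e (nat_lit 647183) (nat_lit 4) (.e (nat_lit 172126) (nat_lit 14) (.e (nat_lit 491548) (nat_lit 9) (.e (nat_lit 336433) (nat_lit 30) .nil))))) (.g (nat_lit 0) (.e (nat_lit 343713) (nat_lit 0) .nil) .nil))) 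
(.lf (nat_lit 568982) (.g (nat_lit 3088) (.e (nat_lit 458789) (nat_lit 23) (.e (nat_lit 532569) (nat_lit 16) (.e (nat_lit 401448) (nat_lit 10) (.e (nat_lit 434246) (nat_lit 28) (.e (nat_lit 573470) (nat_lit 11) (.e (nat_lit 16454) (nat_lit 11) .nil)))))) (.g (nat_lit 1) (.e (nat_lit 346843) (nat_lit 0) .nil) .nil)))) (.nd (nat_lit 9) 
(.lf (nat_lit 568726) (.g (nat_lit 1747) (.e (nat_lit 458788) (nat_lit 23) (.e (nat_lit 532503) (nat_lit 1) (.e (nat_lit 57667) (nat_lit 152) (.e (nat_lit 2619) (nat_lit 164) (.e (nat_lit 179968) (nat_lit 34) .nil))))) (.g (nat_lit 0) (.e (nat_lit 345999) (nat_lit 0) .nil) .nil))) 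
(.lf (nat_lit 569238) (.g (nat_lit 2850) (.e (nat_lit 466954) (nat_lit 11) (.e (nat_lit 335986) (nat_lit 1) (.e (nat_lit 57688) (nat_lit 156) (.e (nat_lit 163907) (nat_lit 12) (.e (nat_lit 426436) (nat_lit 18) (.e (nat_lit 98379) (nat_lit 31) .nil)))))) (.g (nat_lit 1) (.e (nat_lit 347525) (nat_lit 0) .nil) .nil)))))) (.nd (nat_lit 7) (.nd (nat_lit 8) (.nd (nat_lit 9) 
(.lf (nat_lit 568406) (.g (nat_lit 1268) (.e (nat_lit 450595) (nat_lit 17) (.e (nat_lit 663574) (nat_lit 9) (.e (nat_lit 7936) (nat_lit 24) (.e (nat_lit 360484) (nat_lit 15) (.e (nat_lit 647196) (nat_lit 9) (.e (nat_lit 7936) (nat_lit 35) .nil)))))) (.g (nat_lit 1) (.e (nat_lit 343601) (nat_lit 0) .nil) .nil))) 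
(.lf (nat_lit 568918) (.g (nat_lit 2903) (.e (nat_lit 458789) (nat_lit 23) (.e (nat_lit 532549) (nat_lit 12) (.e (nat_lit 360474) (nat_lit 8) (.e (nat_lit 557089) (nat_lit 12) .nil)))) (.g (nat_lit 0) (.e (nat_lit 346529) (nat_lit 0) .nil) .nil)))) (.nd (nat_lit 9) 
(.lf (nat_lit 568662) (.g (nat_lit 2228) (.e (nat_lit 458774) (nat_lit 18) (.e (nat_lit 5224) (nat_lit 296) (.e (nat_lit 163875) (nat_lit 3) (.e (nat_lit 204830) (nat_lit 18) (.e (nat_lit 57929) (nat_lit 282) .nil))))) (.g (nat_lit 0) (.e (nat_lit 345753) (nat_lit 0) .nil) .nil))) 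
(.lf (nat_lit 569174) (.g (nat_lit 529) (.e (nat_lit 466950) (nat_lit 11) (.e (nat_lit 335986) (nat_lit 1) (.e (nat_lit 57686) (nat_lit 156) .nil))) (.g (nat_lit 0) (.e (nat_lit 347238) (nat_lit 0) .nil) .nil))))) (.nd (nat_lit 8) (.nd (nat_lit 9) 
(.lf (nat_lit 568534) (.g (nat_lit 1387) (.e (nat_lit 450605) (nat_lit 27) (.e (nat_lit 745491) (nat_lit 4) (.e (nat_lit 65616) (nat_lit 10) (.e (nat_lit 344138) (nat_lit 29) (.e (nat_lit 581636) (nat_lit 0) (.e (nat_lit 3015) (nat_lit 187) .nil)))))) (.g (nat_lit 1) (.e (nat_lit 345447) (nat_lit 0) .nil) .nil))) 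
(.lf (nat_lit 569046) (.g (nat_lit 222) (.e (nat_lit 458804) (nat_lit 38) (.e (nat_lit 655380) (nat_lit 6) (.e (nat_lit 188453) (nat_lit 24) .nil))) (.g (nat_lit 0) (.e (nat_lit 346987) (nat_lit 0) .nil) .nil)))) (.nd (nat_lit 9) 
(.lf (nat_lit 568790) (.g (nat_lit 1370) (.e (nat_lit 458789) (nat_lit 23) (.e (nat_lit 532499) (nat_lit 1) (.e (nat_lit 57688) (nat_lit 156) (.e (nat_lit 163905) (nat_lit 12) .nil)))) (.g (nat_lit 0) (.e (nat_lit 346092) (nat_lit 0) .nil) .nil))) 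
(.lf (nat_lit 569302) (.g (nat_lit 1121) (.e (nat_lit 466954) (nat_lit 11) (.e (nat_lit 335995) (nat_lit 1) (.e (nat_lit 57687) (nat_lit 156) (.e (nat_lit 163902) (nat_lit 12) .nil)))) (.g (nat_lit 0) (.e (nat_lit 347590) (nat_lit 0) .nil) .nil))))))) (.nd (nat_lit 6) (.nd (nat_lit 7) (.nd (nat_lit 8) (.nd (nat_lit 9) 
(.lf (nat_lit 568374) (.g (nat_lit 1011) (.e (nat_lit 450591) (nat_lit 13) (.e (nat_lit 630821) (nat_lit 16) (.e (nat_lit 65617) (nat_lit 10) (.e (nat_lit 344157) (nat_lit 36) (.e (nat_lit 638985) (nat_lit 5) (.e (nat_lit 3028) (nat_lit 187) .nil)))))) (.g (nat_lit 1) (.e (nat_lit 343444) (nat_lit 0) .nil) .nil))) 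
(.lf (nat_lit 568886) (.g (nat_lit 2100) (.e (nat_lit 458789) (nat_lit 23) (.e (nat_lit 532522) (nat_lit 7) (.e (nat_lit 319532) (nat_lit 16) (.e (nat_lit 286734) (nat_lit 3) (.e (nat_lit 98365) (nat_lit 26) .nil))))) (.g (nat_lit 0) (.e (nat_lit 346252) (nat_lit 0) .nil) .nil)))) (.nd (nat_lit 9) 
(.lf (nat_lit 568630) (.g (nat_lit 1048) (.e (nat_lit 466688) (nat_lit 5) (.e (nat_lit 73775) (nat_lit 26) (.e (nat_lit 778466) (nat_lit 11) (.e (nat_lit 24626) (nat_lit 9) .nil)))) (.g (nat_lit 0) (.e (nat_lit 345633) (nat_lit 0) .nil) .nil))) 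
(.lf (nat_lit 569142) (.g (nat_lit 679) (.e (nat_lit 466949) (nat_lit 0) (.e (nat_lit 2174) (nat_lit 143) (.e (nat_lit 712745) (nat_lit 27) .nil))) (.g (nat_lit 0) (.e (nat_lit 347143) (nat_lit 0) .nil) .nil))))) (.nd (nat_lit 8) (.nd (nat_lit 9) 
(.lf (nat_lit 568502) (.g (nat_lit 698) (.e (nat_lit 450601) (nat_lit 21) (.e (nat_lit 696344) (nat_lit 8) (.e (nat_lit 172116) (nat_lit 10) (.e (nat_lit 434209) (nat_lit 18) .nil)))) (.g (nat_lit 0) (.e (nat_lit 344464) (nat_lit 0) .nil) .nil))) 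
(.lf (nat_lit 569014) (.g (nat_lit 4242) (.e (nat_lit 458790) (nat_lit 23) (.e (nat_lit 532550) (nat_lit 12) (.e (nat_lit 360474) (nat_lit 8) (.e (nat_lit 557094) (nat_lit 12) .nil)))) (.g (nat_lit 0) (.e (nat_lit 346916) (nat_lit 0) .nil) .nil)))) (.nd (nat_lit 9) 
(.lf (nat_lit 568758) (.g (nat_lit 4891) (.e (nat_lit 458788) (nat_lit 23) (.e (nat_lit 532550) (nat_lit 12) (.e (nat_lit 360475) (nat_lit 8) (.e (nat_lit 557091) (nat_lit 12) (.e (nat_lit 163843) (nat_lit 0) .nil))))) (.g (nat_lit 0) (.e (nat_lit 346042) (nat_lit 0) .nil) .nil))) 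
(.lf (nat_lit 569270) (.g (nat_lit 2089) (.e (nat_lit 466954) (nat_lit 11) (.e (nat_lit 335988) (nat_lit 1) (.e (nat_lit 57685) (nat_lit 156) (.e (nat_lit 163902) (nat_lit 12) (.e (nat_lit 426438) (nat_lit 18) (.e (nat_lit 98380) (nat_lit 31) .nil)))))) (.g (nat_lit 1) (.e (nat_lit 347557) (nat_lit 0) .nil) .nil)))))) (.nd (nat_lit 7) (.nd (nat_lit 8) (.nd (nat_lit 9) 
(.lf (nat_lit 568438) (.g (nat_lit 956) (.e (nat_lit 458496) (nat_lit 15) (.e (nat_lit 647183) (nat_lit 4) (.e (nat_lit 172081) (nat_lit 7) (.e (nat_lit 409642) (nat_lit 17) (.e (nat_lit 302848) (nat_lit 30) .nil))))) (.g (nat_lit 0) (.e (nat_lit 343678) (nat_lit 0) .nil) .nil))) 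
(.lf (nat_lit 568950) (.g (nat_lit 3696) (.e (nat_lit 458789) (nat_lit 23) (.e (nat_lit 532569) (nat_lit 16) (.e (nat_lit 401448) (nat_lit 10) (.e (nat_lit 434231) (nat_lit 23) (.e (nat_lit 532481) (nat_lit 0) (.e (nat_lit 6691) (nat_lit 357) (.e (nat_lit 3033) (nat_lit 188) .nil))))))) (.g (nat_lit 1) (.e (nat_lit 346807) (nat_lit 0) .nil) .nil)))) (.nd (nat_lit 9) 
(.lf (nat_lit 568694) (.g (nat_lit 874) (.e (nat_lit 458787) (nat_lit 23) (.e (nat_lit 532503) (nat_lit 1) (.e (nat_lit 57651) (nat_lit 152) .nil))) (.g (nat_lit 0) (.e (nat_lit 345956) (nat_lit 0) .nil) .nil))) 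
(.lf (nat_lit 569206) (.g (nat_lit 1397) (.e (nat_lit 466951) (nat_lit 11) (.e (nat_lit 336407) (nat_lit 27) (.e (nat_lit 426098) (nat_lit 1) (.e (nat_lit 164399) (nat_lit 256) (.e (nat_lit 57378) (nat_lit 3) .nil))))) (.g (nat_lit 0) (.e (nat_lit 347337) (nat_lit 0) .nil) .nil))))) (.nd (nat_lit 8) (.nd (nat_lit 9) 
(.lf (nat_lit 568566) (.g (nat_lit 689) (.e (nat_lit 450605) (nat_lit 27) (.e (nat_lit 745493) (nat_lit 6) (.e (nat_lit 81946) (nat_lit 20) (.e (nat_lit 1885) (nat_lit 127) (.e (nat_lit 581636) (nat_lit 0) .nil))))) (.g (nat_lit 0) (.e (nat_lit 345506) (nat_lit 0) .nil) .nil))) 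
(.lf (nat_lit 569078) (.g (nat_lit 1241) (.e (nat_lit 466946) (nat_lit 0) (.e (nat_lit 2059) (nat_lit 142) (.e (nat_lit 704595) (nat_lit 5) (.e (nat_lit 180278) (nat_lit 32) .nil)))) (.g (nat_lit 0) (.e (nat_lit 347058) (nat_lit 0) .nil) .nil)))) (.nd (nat_lit 9) 
(.lf (nat_lit 568822) (.g (nat_lit 3206) (.e (nat_lit 458789) (nat_lit 23) (.e (nat_lit 532502) (nat_lit 1) (.e (nat_lit 57688) (nat_lit 156) (.e (nat_lit 163907) (nat_lit 12) (.e (nat_lit 426568) (nat_lit 34) (.e (nat_lit 393286) (nat_lit 25) .nil)))))) (.g (nat_lit 1) (.e (nat_lit 346144) (nat_lit 0) .nil) .nil))) 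
(.lf (nat_lit 569334) (.g (nat_lit 1802) (.e (nat_lit 466954) (nat_lit 11) (.e (nat_lit 335996) (nat_lit 1) (.e (nat_lit 57692) (nat_lit 156) (.e (nat_lit 163907) (nat_lit 12) (.e (nat_lit 426434) (nat_lit 18) .nil))))) (.g (nat_lit 0) (.e (nat_lit 347622) (nat_lit 0) .nil) .nil))))))))) (.nd (nat_lit 4) (.nd (nat_lit 5) (.nd (nat_lit 6) (.nd (nat_lit 7) (.nd (nat_lit 8) (.nd (nat_lit 9) 
(.lf (nat_lit 568334) (.g (nat_lit 414) (.e (nat_lit 450588) (nat_lit 10) (.e (nat_lit 573475) (nat_lit 12) (.e (nat_lit 57574) (nat_lit 55) .nil))) (.g (nat_lit 0) (.e (nat_lit 343206) (nat_lit 0) .nil) .nil))) 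
(.lf (nat_lit 568846) (.g (nat_lit 2103) (.e (nat_lit 458789) (nat_lit 23) (.e (nat_lit 532503) (nat_lit 1) (.e (nat_lit 57689) (nat_lit 156) (.e (nat_lit 163905) (nat_lit 12) (.e (nat_lit 426568) (nat_lit 34) .nil))))) (.g (nat_lit 0) (.e (nat_lit 346191) (nat_lit 0) .nil) .nil)))) (.nd (nat_lit 9) 
(.lf (nat_lit 568590) (.g (nat_lit 1653) (.e (nat_lit 466688) (nat_lit 5) (.e (nat_lit 73729) (nat_lit 0) (.e (nat_lit 7263) (nat_lit 384) (.e (nat_lit 57424) (nat_lit 14) (.e (nat_lit 360192) (nat_lit 15) .nil))))) (.g (nat_lit 0) (.e (nat_lit 345586) (nat_lit 0) .nil) .nil))) 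
(.lf (nat_lit 569102) (.g (nat_lit 2521) (.e (nat_lit 466947) (nat_lit 0) (.e (nat_lit 1800) (nat_lit 119) (.e (nat_lit 516120) (nat_lit 1) (.e (nat_lit 164331) (nat_lit 230) (.e (nat_lit 163941) (nat_lit 19) (.e (nat_lit 491264) (nat_lit 14) .nil)))))) (.g (nat_lit 1) (.e (nat_lit 347088) (nat_lit 0) .nil) .nil))))) (.nd (nat_lit 8) (.nd (nat_lit 9) 
(.lf (nat_lit 568462) (.g (nat_lit 1298) (.e (nat_lit 458496) (nat_lit 15) (.e (nat_lit 647183) (nat_lit 4) (.e (nat_lit 172116) (nat_lit 10) (.e (nat_lit 434271) (nat_lit 38) (.e (nat_lit 655363) (nat_lit 0) .nil))))) (.g (nat_lit 0) (.e (nat_lit 343703) (nat_lit 0) .nil) .nil))) 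
(.lf (nat_lit 568974) (.g (nat_lit 3929) (.e (nat_lit 458789) (nat_lit 23) (.e (nat_lit 532569) (nat_lit 16) (.e (nat_lit 401448) (nat_lit 10) (.e (nat_lit 434244) (nat_lit 28) (.e (nat_lit 573471) (nat_lit 11) (.e (nat_lit 16450) (nat_lit 11) .nil)))))) (.g (nat_lit 1) (.e (nat_lit 346835) (nat_lit 0) .nil) .nil)))) (.nd (nat_lit 9) 
(.lf (nat_lit 568718) (.g (nat_lit 4390) (.e (nat_lit 458787) (nat_lit 23) (.e (nat_lit 532550) (nat_lit 12) (.e (nat_lit 360475) (nat_lit 8) (.e (nat_lit 557089) (nat_lit 12) .nil)))) (.g (nat_lit 0) (.e (nat_lit 345991) (nat_lit 0) .nil) .nil))) 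
(.lf (nat_lit 569230) (.g (nat_lit 2117) (.e (nat_lit 466954) (nat_lit 11) (.e (nat_lit 335986) (nat_lit 1) (.e (nat_lit 57688) (nat_lit 156) (.e (nat_lit 163902) (nat_lit 12) (.e (nat_lit 426434) (nat_lit 18) .nil))))) (.g (nat_lit 0) (.e (nat_lit 347517) (nat_lit 0) .nil) .nil)))))) (.nd (nat_lit 7) (.nd (nat_lit 8) (.nd (nat_lit 9) 
(.lf (nat_lit 568398) (.g (nat_lit 702) (.e (nat_lit 450595) (nat_lit 17) (.e (nat_lit 663573) (nat_lit 9) (.e (nat_lit 7936) (nat_lit 24) (.e (nat_lit 360482) (nat_lit 15) (.e (nat_lit 647193) (nat_lit 9) (.e (nat_lit 7936) (nat_lit 35) .nil)))))) (.g (nat_lit 1) (.e (nat_lit 343592) (nat_lit 0) .nil) .nil))) 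
(.lf (nat_lit 568910) (.g (nat_lit 4451) (.e (nat_lit 458789) (nat_lit 23) (.e (nat_lit 532530) (nat_lit 9) (.e (nat_lit 336310) (nat_lit 16) (.e (nat_lit 164179) (nat_lit 154) (.e (nat_lit 57378) (nat_lit 3) (.e (nat_lit 98333) (nat_lit 18) (.e (nat_lit 164325) (nat_lit 230) (.e (nat_lit 163928) (nat_lit 16) .nil)))))))) (.g (nat_lit 1) (.e (nat_lit 346350) (nat_lit 0) .nil) .nil)))) 
(.nd (nat_lit 9) 
(.lf (nat_lit 568654) (.g (nat_lit 2121) (.e (nat_lit 458769) (nat_lit 16) (.e (nat_lit 164294) (nat_lit 224) (.e (nat_lit 164104) (nat_lit 116) (.e (nat_lit 778462) (nat_lit 11) (.e (nat_lit 24628) (nat_lit 9) (.e (nat_lit 336438) (nat_lit 31) .nil)))))) (.g (nat_lit 1) (.e (nat_lit 345697) (nat_lit 0) .nil) .nil))) 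
(.lf (nat_lit 569166) (.g (nat_lit 1703) (.e (nat_lit 474880) (nat_lit 3) (.e (nat_lit 98341) (nat_lit 20) (.e (nat_lit 221194) (nat_lit 11) (.e (nat_lit 336020) (nat_lit 3) (.e (nat_lit 98381) (nat_lit 31) .nil))))) (.g (nat_lit 0) (.e (nat_lit 347208) (nat_lit 0) .nil) .nil))))) (.nd (nat_lit 8) (.nd (nat_lit 9) 
(.lf (nat_lit 568526) (.g (nat_lit 1337) (.e (nat_lit 450605) (nat_lit 27) (.e (nat_lit 745476) (nat_lit 0) (.e (nat_lit 1599) (nat_lit 111) (.e (nat_lit 360477) (nat_lit 11) (.e (nat_lit 581636) (nat_lit 0) (.e (nat_lit 3021) (nat_lit 187) .nil)))))) (.g (nat_lit 1) (.e (nat_lit 345433) (nat_lit 0) .nil) .nil))) 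
(.lf (nat_lit 569038) (.g (nat_lit 1604) (.e (nat_lit 458795) (nat_lit 28) (.e (nat_lit 573482) (nat_lit 13) (.e (nat_lit 65568) (nat_lit 2) (.e (nat_lit 98048) (nat_lit 0) .nil)))) (.g (nat_lit 0) (.e (nat_lit 346954) (nat_lit 0) .nil) .nil)))) (.nd (nat_lit 9) 
(.lf (nat_lit 568782) (.g (nat_lit 658) (.e (nat_lit 458789) (nat_lit 23) (.e (nat_lit 532499) (nat_lit 1) (.e (nat_lit 57665) (nat_lit 152) .nil))) (.g (nat_lit 0) (.e (nat_lit 346081) (nat_lit 0) .nil) .nil))) 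
(.lf (nat_lit 569294) (.g (nat_lit 2767) (.e (nat_lit 466954) (nat_lit 11) (.e (nat_lit 335994) (nat_lit 1) (.e (nat_lit 57688) (nat_lit 156) (.e (nat_lit 163936) (nat_lit 18) (.e (nat_lit 475177) (nat_lit 24) (.e (nat_lit 516176) (nat_lit 14) .nil)))))) (.g (nat_lit 1) (.e (nat_lit 347581) (nat_lit 0) .nil) .nil))))))) (.nd (nat_lit 6) (.nd (nat_lit 7) (.nd (nat_lit 8) (.nd (nat_lit 9) 
(.lf (nat_lit 568366) (.g (nat_lit 769) (.e (nat_lit 450591) (nat_lit 13) (.e (nat_lit 630821) (nat_lit 16) (.e (nat_lit 65616) (nat_lit 10) (.e (nat_lit 344157) (nat_lit 36) (.e (nat_lit 638985) (nat_lit 5) (.e (nat_lit 3027) (nat_lit 187) .nil)))))) (.g (nat_lit 1) (.e (nat_lit 343436) (nat_lit 0) .nil) .nil))) 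
(.lf (nat_lit 568878) (.g (nat_lit 1944) (.e (nat_lit 458789) (nat_lit 23) (.e (nat_lit 532515) (nat_lit 3) (.e (nat_lit 114719) (nat_lit 23) (.e (nat_lit 98334) (nat_lit 18) (.e (nat_lit 164400) (nat_lit 256) .nil))))) (.g (nat_lit 0) (.e (nat_lit 346244) (nat_lit 0) .nil) .nil)))) (.nd (nat_lit 9) 
(.lf (nat_lit 568622) (.g (nat_lit 1957) (.e (nat_lit 466688) (nat_lit 5) (.e (nat_lit 73775) (nat_lit 26) (.e (nat_lit 778362) (nat_lit 9) (.e (nat_lit 314) (nat_lit 23) (.e (nat_lit 360192) (nat_lit 15) .nil))))) (.g (nat_lit 0) (.e (nat_lit 345622) (nat_lit 0) .nil) .nil))) 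
(.lf (nat_lit 569134) (.g (nat_lit 664) (.e (nat_lit 466949) (nat_lit 0) (.e (nat_lit 1800) (nat_lit 119) (.e (nat_lit 516120) (nat_lit 1) .nil))) (.g (nat_lit 0) (.e (nat_lit 347133) (nat_lit 0) .nil) .nil))))) (.nd (nat_lit 8) (.nd (nat_lit 9) 
(.lf (nat_lit 568494) (.g (nat_lit 2251) (.e (nat_lit 450601) (nat_lit 21) (.e (nat_lit 696344) (nat_lit 8) (.e (nat_lit 172106) (nat_lit 10) (.e (nat_lit 434209) (nat_lit 18) (.e (nat_lit 6427) (nat_lit 342) (.e (nat_lit 229414) (nat_lit 15) .nil)))))) (.g (nat_lit 1) (.e (nat_lit 344382) (nat_lit 0) .nil) .nil))) 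
(.lf (nat_lit 569006) (.g (nat_lit 1261) (.e (nat_lit 458790) (nat_lit 23) (.e (nat_lit 532503) (nat_lit 1) (.e (nat_lit 57688) (nat_lit 156) (.e (nat_lit 163903) (nat_lit 12) .nil)))) (.g (nat_lit 0) (.e (nat_lit 346898) (nat_lit 0) .nil) .nil)))) (.nd (nat_lit 9) 
(.lf (nat_lit 568750) (.g (nat_lit 4119) (.e (nat_lit 458788) (nat_lit 23) (.e (nat_lit 532550) (nat_lit 12) (.e (nat_lit 360474) (nat_lit 8) (.e (nat_lit 557094) (nat_lit 12) (.e (nat_lit 163849) (nat_lit 0) .nil))))) (.g (nat_lit 0) (.e (nat_lit 346033) (nat_lit 0) .nil) .nil))) 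
(.lf (nat_lit 569262) (.g (nat_lit 2355) (.e (nat_lit 466954) (nat_lit 11) (.e (nat_lit 335987) (nat_lit 1) (.e (nat_lit 57692) (nat_lit 156) (.e (nat_lit 163905) (nat_lit 12) (.e (nat_lit 426436) (nat_lit 18) (.e (nat_lit 98380) (nat_lit 31) .nil)))))) (.g (nat_lit 1) (.e (nat_lit 347549) (nat_lit 0) .nil) .nil)))))) (.nd (nat_lit 7) (.nd (nat_lit 8) (.nd (nat_lit 9) 
(.lf (nat_lit 568430) (.g (nat_lit 510) (.e (nat_lit 450597) (nat_lit 17) (.e (nat_lit 663580) (nat_lit 9) (.e (nat_lit 7936) (nat_lit 23) .nil))) (.g (nat_lit 0) (.e (nat_lit 343646) (nat_lit 0) .nil) .nil))) 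
(.lf (nat_lit 568942) (.g (nat_lit 3763) (.e (nat_lit 458789) (nat_lit 23) (.e (nat_lit 532550) (nat_lit 12) (.e (nat_lit 360475) (nat_lit 8) (.e (nat_lit 557091) (nat_lit 12) .nil)))) (.g (nat_lit 0) (.e (nat_lit 346566) (nat_lit 0) .nil) .nil)))) (.nd (nat_lit 9) 
(.lf (nat_lit 568686) (.g (nat_lit 1491) (.e (nat_lit 458774) (nat_lit 18) (.e (nat_lit 5548) (nat_lit 306) (.e (nat_lit 2638) (nat_lit 165) (.e (nat_lit 180277) (nat_lit 32) (.e (nat_lit 1658) (nat_lit 115) .nil))))) (.g (nat_lit 0) (.e (nat_lit 345862) (nat_lit 0) .nil) .nil))) 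
(.lf (nat_lit 569198) (.g (nat_lit 668) (.e (nat_lit 466950) (nat_lit 11) (.e (nat_lit 335996) (nat_lit 1) (.e (nat_lit 57692) (nat_lit 156) .nil))) (.g (nat_lit 0) (.e (nat_lit 347263) (nat_lit 0) .nil) .nil))))) (.nd (nat_lit 8) (.nd (nat_lit 9) 
(.lf (nat_lit 568558) (.g (nat_lit 1005) (.e (nat_lit 450605) (nat_lit 27) (.e (nat_lit 745493) (nat_lit 6) (.e (nat_lit 81942) (nat_lit 20) (.e (nat_lit 1886) (nat_lit 127) (.e (nat_lit 581636) (nat_lit 0) (.e (nat_lit 3015) (nat_lit 187) .nil)))))) (.g (nat_lit 1) (.e (nat_lit 345494) (nat_lit 0) .nil) .nil))) 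
(.lf (nat_lit 569070) (.g (nat_lit 1142) (.e (nat_lit 466945) (nat_lit 0) (.e (nat_lit 1796) (nat_lit 119) (.e (nat_lit 516127) (nat_lit 2) (.e (nat_lit 213032) (nat_lit 11) (.e (nat_lit 24609) (nat_lit 3) .nil))))) (.g (nat_lit 0) (.e (nat_lit 347047) (nat_lit 0) .nil) .nil)))) (.nd (nat_lit 9) 
(.lf (nat_lit 568814) (.g (nat_lit 1383) (.e (nat_lit 458789) (nat_lit 23) (.e (nat_lit 532502) (nat_lit 1) (.e (nat_lit 57687) (nat_lit 156) (.e (nat_lit 163902) (nat_lit 12) (.e (nat_lit 426568) (nat_lit 34) .nil))))) (.g (nat_lit 0) (.e (nat_lit 346135) (nat_lit 0) .nil) .nil))) 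
(.lf (nat_lit 569326) (.g (nat_lit 2368) (.e (nat_lit 466954) (nat_lit 11) (.e (nat_lit 335996) (nat_lit 1) (.e (nat_lit 57691) (nat_lit 156) (.e (nat_lit 163905) (nat_lit 12) (.e (nat_lit 426436) (nat_lit 18) .nil))))) (.g (nat_lit 0) (.e (nat_lit 347614) (nat_lit 0) .nil) .nil)))))))) (.nd (nat_lit 5) (.nd (nat_lit 6) (.nd (nat_lit 7) (.nd (nat_lit 8) (.nd (nat_lit 9) 
(.lf (nat_lit 568350) (.g (nat_lit 1742) (.e (nat_lit 450584) (nat_lit 9) (.e (nat_lit 565252) (nat_lit 0) (.e (nat_lit 1592) (nat_lit 111) (.e (nat_lit 360493) (nat_lit 27) (.e (nat_lit 819204) (nat_lit 0) (.e (nat_lit 3016) (nat_lit 187) .nil)))))) (.g (nat_lit 1) (.e (nat_lit 343328) (nat_lit 0) .nil) .nil))) 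
(.lf (nat_lit 568862) (.g (nat_lit 3025) (.e (nat_lit 458789) (nat_lit 23) (.e (nat_lit 532504) (nat_lit 1) (.e (nat_lit 57691) (nat_lit 156) (.e (nat_lit 163907) (nat_lit 12) (.e (nat_lit 426566) (nat_lit 34) (.e (nat_lit 393286) (nat_lit 25) .nil)))))) (.g (nat_lit 1) (.e (nat_lit 346220) (nat_lit 0) .nil) .nil)))) (.nd (nat_lit 9) 
(.lf (nat_lit 568606) (.g (nat_lit 1033) (.e (nat_lit 466688) (nat_lit 5) (.e (nat_lit 73731) (nat_lit 0) (.e (nat_lit 7261) (nat_lit 384) (.e (nat_lit 57435) (nat_lit 17) (.e (nat_lit 384768) (nat_lit 15) .nil))))) (.g (nat_lit 0) (.e (nat_lit 345604) (nat_lit 0) .nil) .nil))) 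
(.lf (nat_lit 569118) (.g (nat_lit 1156) (.e (nat_lit 466947) (nat_lit 0) (.e (nat_lit 2058) (nat_lit 142) (.e (nat_lit 704599) (nat_lit 6) (.e (nat_lit 188455) (nat_lit 24) (.e (nat_lit 229681) (nat_lit 244) .nil))))) (.g (nat_lit 0) (.e (nat_lit 347110) (nat_lit 0) .nil) .nil))))) (.nd (nat_lit 8) (.nd (nat_lit 9) 
(.lf (nat_lit 568478) (.g (nat_lit 3689) (.e (nat_lit 450593) (nat_lit 16) (.e (nat_lit 655378) (nat_lit 4) (.e (nat_lit 172118) (nat_lit 12) (.e (nat_lit 475210) (nat_lit 41) (.e (nat_lit 712755) (nat_lit 30) .nil))))) (.g (nat_lit 1) (.e (nat_lit 343872) (nat_lit 0) .nil) .nil))) 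
(.lf (nat_lit 568990) (.g (nat_lit 2510) (.e (nat_lit 458789) (nat_lit 23) (.e (nat_lit 532569) (nat_lit 16) (.e (nat_lit 401448) (nat_lit 10) (.e (nat_lit 434248) (nat_lit 28) (.e (nat_lit 573452) (nat_lit 9) .nil))))) (.g (nat_lit 0) (.e (nat_lit 346851) (nat_lit 0) .nil) .nil)))) (.nd (nat_lit 9) 
(.lf (nat_lit 568734) (.g (nat_lit 648) (.e (nat_lit 458788) (nat_lit 23) (.e (nat_lit 532522) (nat_lit 7) (.e (nat_lit 319535) (nat_lit 17) .nil))) (.g (nat_lit 0) (.e (nat_lit 346007) (nat_lit 0) .nil) .nil))) 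
(.lf (nat_lit 569246) (.g (nat_lit 1756) (.e (nat_lit 466954) (nat_lit 11) (.e (nat_lit 335986) (nat_lit 1) (.e (nat_lit 57691) (nat_lit 156) (.e (nat_lit 163906) (nat_lit 12) (.e (nat_lit 426438) (nat_lit 18) .nil))))) (.g (nat_lit 0) (.e (nat_lit 347533) (nat_lit 0) .nil) .nil)))))) (.nd (nat_lit 7) (.nd (nat_lit 8) (.nd (nat_lit 9) 
(.lf (nat_lit 568414) (.g (nat_lit 1917) (.e (nat_lit 450595) (nat_lit 17) (.e (nat_lit 663580) (nat_lit 9) (.e (nat_lit 7936) (nat_lit 24) (.e (nat_lit 360484) (nat_lit 15) (.e (nat_lit 647195) (nat_lit 9) (.e (nat_lit 7936) (nat_lit 35) .nil)))))) (.g (nat_lit 1) (.e (nat_lit 343611) (nat_lit 0) .nil) .nil))) 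
(.lf (nat_lit 568926) (.g (nat_lit 2355) (.e (nat_lit 458789) (nat_lit 23) (.e (nat_lit 532549) (nat_lit 12) (.e (nat_lit 360475) (nat_lit 8) (.e (nat_lit 557091) (nat_lit 12) .nil)))) (.g (nat_lit 0) (.e (nat_lit 346541) (nat_lit 0) .nil) .nil)))) (.nd (nat_lit 9) 
(.lf (nat_lit 568670) (.g (nat_lit 4763) (.e (nat_lit 458774) (nat_lit 18) (.e (nat_lit 5547) (nat_lit 306) (.e (nat_lit 2610) (nat_lit 163) (.e (nat_lit 163977) (nat_lit 30) (.e (nat_lit 573492) (nat_lit 15) (.e (nat_lit 81956) (nat_lit 23) (.e (nat_lit 98377) (nat_lit 30) .nil))))))) (.g (nat_lit 1) (.e (nat_lit 345791) (nat_lit 0) .nil) .nil))) 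
(.lf (nat_lit 569182) (.g (nat_lit 1831) (.e (nat_lit 466950) (nat_lit 11) (.e (nat_lit 335995) (nat_lit 1) (.e (nat_lit 57688) (nat_lit 156) (.e (nat_lit 163902) (nat_lit 12) (.e (nat_lit 426436) (nat_lit 18) .nil))))) (.g (nat_lit 0) (.e (nat_lit 347247) (nat_lit 0) .nil) .nil))))) (.nd (nat_lit 8) (.nd (nat_lit 9) 
(.lf (nat_lit 568542) (.g (nat_lit 1622) (.e (nat_lit 450605) (nat_lit 27) (.e (nat_lit 745491) (nat_lit 4) (.e (nat_lit 65619) (nat_lit 10) (.e (nat_lit 344138) (nat_lit 29) (.e (nat_lit 581636) (nat_lit 0) (.e (nat_lit 3016) (nat_lit 187) .nil)))))) (.g (nat_lit 1) (.e (nat_lit 345459) (nat_lit 0) .nil) .nil))) 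
(.lf (nat_lit 569054) (.g (nat_lit 1818) (.e (nat_lit 458810) (nat_lit 43) (.e (nat_lit 696344) (nat_lit 8) (.e (nat_lit 172115) (nat_lit 10) (.e (nat_lit 434202) (nat_lit 18) (.e (nat_lit 6418) (nat_lit 341) .nil))))) (.g (nat_lit 0) (.e (nat_lit 347001) (nat_lit 0) .nil) .nil)))) (.nd (nat_lit 9) 
(.lf (nat_lit 568798) (.g (nat_lit 593) (.e (nat_lit 458789) (nat_lit 23) (.e (nat_lit 532501) (nat_lit 1) (.e (nat_lit 57651) (nat_lit 152) .nil))) (.g (nat_lit 0) (.e (nat_lit 346111) (nat_lit 0) .nil) .nil))) 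
(.lf (nat_lit 569310) (.g (nat_lit 2730) (.e (nat_lit 466954) (nat_lit 11) (.e (nat_lit 335995) (nat_lit 1) (.e (nat_lit 57688) (nat_lit 156) (.e (nat_lit 163907) (nat_lit 12) (.e (nat_lit 426434) (nat_lit 18) .nil))))) (.g (nat_lit 0) (.e (nat_lit 347598) (nat_lit 0) .nil) .nil))))))) (.nd (nat_lit 6) (.nd (nat_lit 7) (.nd (nat_lit 8) (.nd (nat_lit 9) 
(.lf (nat_lit 568382) (.g (nat_lit 1176) (.e (nat_lit 450591) (nat_lit 13) (.e (nat_lit 630821) (nat_lit 16) (.e (nat_lit 65620) (nat_lit 10) (.e (nat_lit 344157) (nat_lit 36) (.e (nat_lit 638986) (nat_lit 5) (.e (nat_lit 3016) (nat_lit 187) .nil)))))) (.g (nat_lit 1) (.e (nat_lit 343453) (nat_lit 0) .nil) .nil))) 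
(.lf (nat_lit 568894) (.g (nat_lit 2644) (.e (nat_lit 458789) (nat_lit 23) (.e (nat_lit 532523) (nat_lit 7) (.e (nat_lit 319530) (nat_lit 16) (.e (nat_lit 286734) (nat_lit 3) (.e (nat_lit 98365) (nat_lit 26) .nil))))) (.g (nat_lit 0) (.e (nat_lit 346260) (nat_lit 0) .nil) .nil)))) (.nd (nat_lit 9) 
(.lf (nat_lit 568638) (.g (nat_lit 1811) (.e (nat_lit 466688) (nat_lit 5) (.e (nat_lit 73776) (nat_lit 26) (.e (nat_lit 778362) (nat_lit 9) (.e (nat_lit 314) (nat_lit 23) (.e (nat_lit 360192) (nat_lit 15) .nil))))) (.g (nat_lit 0) (.e (nat_lit 345645) (nat_lit 0) .nil) .nil))) 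
(.lf (nat_lit 569150) (.g (nat_lit 1797) (.e (nat_lit 474880) (nat_lit 3) (.e (nat_lit 98333) (nat_lit 18) (.e (nat_lit 164329) (nat_lit 230) (.e (nat_lit 163902) (nat_lit 12) (.e (nat_lit 426479) (nat_lit 27) .nil))))) (.g (nat_lit 0) (.e (nat_lit 347167) (nat_lit 0) .nil) .nil))))) (.nd (nat_lit 8) (.nd (nat_lit 9) 
(.lf (nat_lit 568510) (.g (nat_lit 902) (.e (nat_lit 458496) (nat_lit 26) (.e (nat_lit 737300) (nat_lit 7) (.e (nat_lit 286756) (nat_lit 10) (.e (nat_lit 344123) (nat_lit 24) (.e (nat_lit 548608) (nat_lit 29) .nil))))) (.g (nat_lit 0) (.e (nat_lit 345416) (nat_lit 0) .nil) .nil))) 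
(.lf (nat_lit 569022) (.g (nat_lit 1914) (.e (nat_lit 458791) (nat_lit 24) (.e (nat_lit 540706) (nat_lit 12) (.e (nat_lit 360475) (nat_lit 8) (.e (nat_lit 557091) (nat_lit 12) .nil)))) (.g (nat_lit 0) (.e (nat_lit 346929) (nat_lit 0) .nil) .nil)))) (.nd (nat_lit 9) 
(.lf (nat_lit 568766) (.g (nat_lit 3225) (.e (nat_lit 458789) (nat_lit 23) (.e (nat_lit 532481) (nat_lit 0) (.e (nat_lit 6724) (nat_lit 362) (.e (nat_lit 180250) (nat_lit 10) (.e (nat_lit 573471) (nat_lit 11) (.e (nat_lit 16452) (nat_lit 11) .nil)))))) (.g (nat_lit 1) (.e (nat_lit 346055) (nat_lit 0) .nil) .nil))) 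
(.lf (nat_lit 569278) (.g (nat_lit 2070) (.e (nat_lit 466954) (nat_lit 11) (.e (nat_lit 335988) (nat_lit 1) (.e (nat_lit 57692) (nat_lit 156) (.e (nat_lit 163905) (nat_lit 12) (.e (nat_lit 426434) (nat_lit 18) .nil))))) (.g (nat_lit 0) (.e (nat_lit 347565) (nat_lit 0) .nil) .nil)))))) (.nd (nat_lit 7) (.nd (nat_lit 8) (.nd (nat_lit 9) 
(.lf (nat_lit 568446) (.g (nat_lit 1339) (.e (nat_lit 458496) (nat_lit 15) (.e (nat_lit 647183) (nat_lit 4) (.e (nat_lit 172107) (nat_lit 10) (.e (nat_lit 434271) (nat_lit 38) (.e (nat_lit 655363) (nat_lit 0) .nil))))) (.g (nat_lit 0) (.e (nat_lit 343687) (nat_lit 0) .nil) .nil))) 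
(.lf (nat_lit 568958) (.g (nat_lit 3064) (.e (nat_lit 458789) (nat_lit 23) (.e (nat_lit 532569) (nat_lit 16) (.e (nat_lit 401448) (nat_lit 10) (.e (nat_lit 434231) (nat_lit 23) (.e (nat_lit 532483) (nat_lit 0) (.e (nat_lit 7936) (nat_lit 357) (.e (nat_lit 3035) (nat_lit 188) .nil))))))) (.g (nat_lit 1) (.e (nat_lit 346815) (nat_lit 0) .nil) .nil)))) (.nd (nat_lit 9) 
(.lf (nat_lit 568702) (.g (nat_lit 1610) (.e (nat_lit 458787) (nat_lit 23) (.e (nat_lit 532522) (nat_lit 7) (.e (nat_lit 319531) (nat_lit 16) (.e (nat_lit 286735) (nat_lit 3) .nil)))) (.g (nat_lit 0) (.e (nat_lit 345964) (nat_lit 0) .nil) .nil))) 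
(.lf (nat_lit 569214) (.g (nat_lit 1633) (.e (nat_lit 466952) (nat_lit 11) (.e (nat_lit 336407) (nat_lit 27) (.e (nat_lit 426100) (nat_lit 1) (.e (nat_lit 164399) (nat_lit 256) (.e (nat_lit 57378) (nat_lit 3) .nil))))) (.g (nat_lit 0) (.e (nat_lit 347457) (nat_lit 0) .nil) .nil))))) (.nd (nat_lit 8) (.nd (nat_lit 9) 
(.lf (nat_lit 568574) (.g (nat_lit 1051) (.e (nat_lit 450605) (nat_lit 27) (.e (nat_lit 745493) (nat_lit 6) (.e (nat_lit 81947) (nat_lit 20) (.e (nat_lit 1886) (nat_lit 127) (.e (nat_lit 581636) (nat_lit 0) (.e (nat_lit 3027) (nat_lit 187) .nil)))))) (.g (nat_lit 1) (.e (nat_lit 345520) (nat_lit 0) .nil) .nil))) 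
(.lf (nat_lit 569086) (.g (nat_lit 2487) (.e (nat_lit 466947) (nat_lit 0) (.e (nat_lit 1800) (nat_lit 119) (.e (nat_lit 516117) (nat_lit 1) (.e (nat_lit 164330) (nat_lit 230) (.e (nat_lit 163942) (nat_lit 19) .nil))))) (.g (nat_lit 0) (.e (nat_lit 347072) (nat_lit 0) .nil) .nil)))) (.nd (nat_lit 9) 
(.lf (nat_lit 568830) (.g (nat_lit 2082) (.e (nat_lit 458789) (nat_lit 23) (.e (nat_lit 532503) (nat_lit 1) (.e (nat_lit 57667) (nat_lit 152) (.e (nat_lit 2619) (nat_lit 164) (.e (nat_lit 179968) (nat_lit 34) (.e (nat_lit 393286) (nat_lit 25) .nil)))))) (.g (nat_lit 1) (.e (nat_lit 346159) (nat_lit 0) .nil) .nil))) 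
(.lf (nat_lit 569342) (.g (nat_lit 1825) (.e (nat_lit 466954) (nat_lit 11) (.e (nat_lit 336385) (nat_lit 27) (.e (nat_lit 426098) (nat_lit 1) (.e (nat_lit 164403) (nat_lit 256) (.e (nat_lit 57378) (nat_lit 3) .nil))))) (.g (nat_lit 0) (.e (nat_lit 347867) (nat_lit 0) .nil) .nil)))))))))))) 
(.nd (nat_lit 1) (.nd (nat_lit 2) (.nd (nat_lit 3) (.nd (nat_lit 4) (.nd (nat_lit 5) 
(.nd (nat_lit 6) (.nd (nat_lit 7) (.nd (nat_lit 8) (.nd (nat_lit 9) 
(.lf (nat_lit 568321) (.g (nat_lit 1665) (.e (nat_lit 450588) (nat_lit 10) (.e (nat_lit 573474) (nat_lit 12) (.e (nat_lit 57572) (nat_lit 54) (.e (nat_lit 770072) (nat_lit 8) (.e (nat_lit 65546) (nat_lit 0) .nil))))) (.g (nat_lit 0) (.e (nat_lit 343141) (nat_lit 0) .nil) .nil))) 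
(.lf (nat_lit 568833) (.g (nat_lit 2169) (.e (nat_lit 458789) (nat_lit 23) (.e (nat_lit 532503) (nat_lit 1) (.e (nat_lit 57685) (nat_lit 156) (.e (nat_lit 163907) (nat_lit 12) (.e (nat_lit 426568) (nat_lit 34) .nil))))) (.g (nat_lit 0) (.e (nat_lit 346163) (nat_lit 0) .nil) .nil)))) (.nd (nat_lit 9) 
(.lf (nat_lit 568577) (.g (nat_lit 1248) (.e (nat_lit 466688) (nat_lit 0) (.e (nat_lit 1239) (nat_lit 91) (.e (nat_lit 90170) (nat_lit 13) (.e (nat_lit 172124) (nat_lit 14) .nil)))) (.g (nat_lit 0) (.e (nat_lit 345527) (nat_lit 0) .nil) .nil))) 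
(.lf (nat_lit 569089) (.g (nat_lit 2408) (.e (nat_lit 466947) (nat_lit 0) (.e (nat_lit 1800) (nat_lit 119) (.e (nat_lit 516117) (nat_lit 1) (.e (nat_lit 164332) (nat_lit 230) (.e (nat_lit 163943) (nat_lit 19) (.e (nat_lit 491264) (nat_lit 14) .nil)))))) (.g (nat_lit 1) (.e (nat_lit 347075) (nat_lit 0) .nil) .nil))))) (.nd (nat_lit 8) (.nd (nat_lit 9) 
(.lf (nat_lit 568449) (.g (nat_lit 1167) (.e (nat_lit 458496) (nat_lit 15) (.e (nat_lit 647183) (nat_lit 4) (.e (nat_lit 172112) (nat_lit 10) (.e (nat_lit 434271) (nat_lit 38) (.e (nat_lit 655362) (nat_lit 0) .nil))))) (.g (nat_lit 0) (.e (nat_lit 343690) (nat_lit 0) .nil) .nil))) 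
(.lf (nat_lit 568961) (.g (nat_lit 1924) (.e (nat_lit 458789) (nat_lit 23) (.e (nat_lit 532569) (nat_lit 16) (.e (nat_lit 401448) (nat_lit 10) (.e (nat_lit 434232) (nat_lit 23) .nil)))) (.g (nat_lit 0) (.e (nat_lit 346818) (nat_lit 0) .nil) .nil)))) (.nd (nat_lit 9) 
(.lf (nat_lit 568705) (.g (nat_lit 2535) (.e (nat_lit 458787) (nat_lit 23) (.e (nat_lit 532523) (nat_lit 7) (.e (nat_lit 319533) (nat_lit 16) (.e (nat_lit 286734) (nat_lit 3) (.e (nat_lit 98365) (nat_lit 26) .nil))))) (.g (nat_lit 0) (.e (nat_lit 345967) (nat_lit 0) .nil) .nil))) 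
(.lf (nat_lit 569217) (.g (nat_lit 908) (.e (nat_lit 466953) (nat_lit 11) (.e (nat_lit 335995) (nat_lit 1) (.e (nat_lit 57691) (nat_lit 156) .nil))) (.g (nat_lit 0) (.e (nat_lit 347465) (nat_lit 0) .nil) .nil)))))) (.nd (nat_lit 7) (.nd (nat_lit 8) (.nd (nat_lit 9) 
(.lf (nat_lit 568385) (.g (nat_lit 781) (.e (nat_lit 450591) (nat_lit 13) (.e (nat_lit 630821) (nat_lit 16) (.e (nat_lit 65620) (nat_lit 10) (.e (nat_lit 344157) (nat_lit 36) (.e (nat_lit 638986) (nat_lit 5) (.e (nat_lit 3028) (nat_lit 187) .nil)))))) (.g (nat_lit 1) (.e (nat_lit 343456) (nat_lit 0) .nil) .nil))) 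
(.lf (nat_lit 568897) (.g (nat_lit 2585) (.e (nat_lit 458789) (nat_lit 23) (.e (nat_lit 532523) (nat_lit 7) (.e (nat_lit 319531) (nat_lit 16) (.e (nat_lit 286734) (nat_lit 3) (.e (nat_lit 98365) (nat_lit 26) (.e (nat_lit 426298) (nat_lit 11) .nil)))))) (.g (nat_lit 1) (.e (nat_lit 346263) (nat_lit 0) .nil) .nil)))) (.nd (nat_lit 9) 
(.lf (nat_lit 568641) (.g (nat_lit 1111) (.e (nat_lit 458758) (nat_lit 8) (.e (nat_lit 2682) (nat_lit 168) (.e (nat_lit 204845) (nat_lit 24) (.e (nat_lit 319531) (nat_lit 16) .nil)))) (.g (nat_lit 0) (.e (nat_lit 345655) (nat_lit 0) .nil) .nil))) 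
(.lf (nat_lit 569153) (.g (nat_lit 526) (.e (nat_lit 474880) (nat_lit 3) (.e (nat_lit 98334) (nat_lit 18) (.e (nat_lit 164330) (nat_lit 230) .nil))) (.g (nat_lit 0) (.e (nat_lit 347175) (nat_lit 0) .nil) .nil))))) (.nd (nat_lit 8) (.nd (nat_lit 9) 
(.lf (nat_lit 568513) (.g (nat_lit 608) (.e (nat_lit 450605) (nat_lit 27) (.e (nat_lit 745475) (nat_lit 0) (.e (nat_lit 1595) (nat_lit 111) (.e (nat_lit 368384) (nat_lit 10) .nil)))) (.g (nat_lit 0) (.e (nat_lit 345420) (nat_lit 0) .nil) .nil))) 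
(.lf (nat_lit 569025) (.g (nat_lit 1161) (.e (nat_lit 466688) (nat_lit 21) (.e (nat_lit 516106) (nat_lit 0) (.e (nat_lit 2478) (nat_lit 157) (.e (nat_lit 6428) (nat_lit 342) (.e (nat_lit 229405) (nat_lit 12) .nil))))) (.g (nat_lit 0) (.e (nat_lit 346934) (nat_lit 0) .nil) .nil)))) (.nd (nat_lit 9) 
(.lf (nat_lit 568769) (.g (nat_lit 2358) (.e (nat_lit 458789) (nat_lit 23) (.e (nat_lit 532482) (nat_lit 0) (.e (nat_lit 6722) (nat_lit 362) (.e (nat_lit 180251) (nat_lit 10) (.e (nat_lit 573457) (nat_lit 9) (.e (nat_lit 430) (nat_lit 32) (.e (nat_lit 426300) (nat_lit 11) .nil))))))) (.g (nat_lit 1) (.e (nat_lit 346066) (nat_lit 0) .nil) .nil))) 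
(.lf (nat_lit 569281) (.g (nat_lit 2033) (.e (nat_lit 466954) (nat_lit 11) (.e (nat_lit 335988) (nat_lit 1) (.e (nat_lit 57692) (nat_lit 156) (.e (nat_lit 163913) (nat_lit 12) (.e (nat_lit 426435) (nat_lit 18) .nil))))) (.g (nat_lit 0) (.e (nat_lit 347568) (nat_lit 0) .nil) .nil))))))) (.nd (nat_lit 6) (.nd (nat_lit 7) (.nd (nat_lit 8) (.nd (nat_lit 9) 
(.lf (nat_lit 568353) (.g (nat_lit 2097) (.e (nat_lit 450584) (nat_lit 9) (.e (nat_lit 565267) (nat_lit 4) (.e (nat_lit 65617) (nat_lit 10) (.e (nat_lit 344091) (nat_lit 18) (.e (nat_lit 7710) (nat_lit 414) (.e (nat_lit 163922) (nat_lit 15) .nil)))))) (.g (nat_lit 1) (.e (nat_lit 343352) (nat_lit 0) .nil) .nil))) 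
(.lf (nat_lit 568865) (.g (nat_lit 2447) (.e (nat_lit 458789) (nat_lit 23) (.e (nat_lit 532504) (nat_lit 1) (.e (nat_lit 57692) (nat_lit 156) (.e (nat_lit 163907) (nat_lit 12) (.e (nat_lit 426566) (nat_lit 34) (.e (nat_lit 393285) (nat_lit 25) .nil)))))) (.g (nat_lit 1) (.e (nat_lit 346225) (nat_lit 0) .nil) .nil)))) (.nd (nat_lit 9) 
(.lf (nat_lit 568609) (.g (nat_lit 894) (.e (nat_lit 466688) (nat_lit 5) (.e (nat_lit 73731) (nat_lit 0) (.e (nat_lit 7265) (nat_lit 384) (.e (nat_lit 57423) (nat_lit 14) (.e (nat_lit 360192) (nat_lit 15) .nil))))) (.g (nat_lit 0) (.e (nat_lit 345608) (nat_lit 0) .nil) .nil))) 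
(.lf (nat_lit 569121) (.g (nat_lit 399) (.e (nat_lit 466947) (nat_lit 0) (.e (nat_lit 2059) (nat_lit 142) (.e (nat_lit 704596) (nat_lit 5) .nil))) (.g (nat_lit 0) (.e (nat_lit 347113) (nat_lit 0) .nil) .nil))))) (.nd (nat_lit 8) (.nd (nat_lit 9) 
(.lf (nat_lit 568481) (.g (nat_lit 3191) (.e (nat_lit 450593) (nat_lit 16) (.e (nat_lit 655378) (nat_lit 4) (.e (nat_lit 172120) (nat_lit 12) (.e (nat_lit 475211) (nat_lit 41) (.e (nat_lit 712753) (nat_lit 30) .nil))))) (.g (nat_lit 1) (.e (nat_lit 343875) (nat_lit 0) .nil) .nil))) 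
(.lf (nat_lit 568993) (.g (nat_lit 4475) (.e (nat_lit 458789) (nat_lit 23) (.e (nat_lit 532569) (nat_lit 16) (.e (nat_lit 401448) (nat_lit 10) (.e (nat_lit 434248) (nat_lit 28) (.e (nat_lit 573471) (nat_lit 11) (.e (nat_lit 16452) (nat_lit 11) .nil)))))) (.g (nat_lit 1) (.e (nat_lit 346854) (nat_lit 0) .nil) .nil)))) (.nd (nat_lit 9) 
(.lf (nat_lit 568737) (.g (nat_lit 1174) (.e (nat_lit 458788) (nat_lit 23) (.e (nat_lit 532550) (nat_lit 12) (.e (nat_lit 360474) (nat_lit 8) .nil))) (.g (nat_lit 0) (.e (nat_lit 346019) (nat_lit 0) .nil) .nil))) 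
(.lf (nat_lit 569249) (.g (nat_lit 2766) (.e (nat_lit 466954) (nat_lit 11) (.e (nat_lit 335986) (nat_lit 1) (.e (nat_lit 57691) (nat_lit 156) (.e (nat_lit 163907) (nat_lit 12) (.e (nat_lit 426436) (nat_lit 18) (.e (nat_lit 98380) (nat_lit 31) .nil)))))) (.g (nat_lit 1) (.e (nat_lit 347536) (nat_lit 0) .nil) .nil)))))) (.nd (nat_lit 7) (.nd (nat_lit 8) (.nd (nat_lit 9) 
(.lf (nat_lit 568417) (.g (nat_lit 3317) (.e (nat_lit 450595) (nat_lit 17) (.e (nat_lit 663583) (nat_lit 11) (.e (nat_lit 24640) (nat_lit 10) (.e (nat_lit 344156) (nat_lit 36) (.e (nat_lit 638985) (nat_lit 5) (.e (nat_lit 3027) (nat_lit 187) .nil)))))) (.g (nat_lit 1) (.e (nat_lit 343619) (nat_lit 0) .nil) .nil))) 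
(.lf (nat_lit 568929) (.g (nat_lit 3550) (.e (nat_lit 458789) (nat_lit 23) (.e (nat_lit 532549) (nat_lit 12) (.e (nat_lit 360475) (nat_lit 8) (.e (nat_lit 557091) (nat_lit 12) (.e (nat_lit 163847) (nat_lit 0) .nil))))) (.g (nat_lit 0) (.e (nat_lit 346546) (nat_lit 0) .nil) .nil)))) (.nd (nat_lit 9) 
(.lf (nat_lit 568673) (.g (nat_lit 4907) (.e (nat_lit 458774) (nat_lit 18) (.e (nat_lit 5547) (nat_lit 306) (.e (nat_lit 2610) (nat_lit 163) (.e (nat_lit 163979) (nat_lit 30) (.e (nat_lit 573492) (nat_lit 15) (.e (nat_lit 81956) (nat_lit 23) (.e (nat_lit 98377) (nat_lit 30) .nil))))))) (.g (nat_lit 1) (.e (nat_lit 345795) (nat_lit 0) .nil) .nil))) 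
(.lf (nat_lit 569185) (.g (nat_lit 1791) (.e (nat_lit 466950) (nat_lit 11) (.e (nat_lit 335995) (nat_lit 1) (.e (nat_lit 57688) (nat_lit 156) (.e (nat_lit 163903) (nat_lit 12) (.e (nat_lit 426436) (nat_lit 18) .nil))))) (.g (nat_lit 0) (.e (nat_lit 347250) (nat_lit 0) .nil) .nil))))) (.nd (nat_lit 8) (.nd (nat_lit 9) 
(.lf (nat_lit 568545) (.g (nat_lit 1423) (.e (nat_lit 450605) (nat_lit 27) (.e (nat_lit 745491) (nat_lit 4) (.e (nat_lit 65620) (nat_lit 10) (.e (nat_lit 344138) (nat_lit 29) (.e (nat_lit 581636) (nat_lit 0) (.e (nat_lit 3015) (nat_lit 187) .nil)))))) (.g (nat_lit 1) (.e (nat_lit 345463) (nat_lit 0) .nil) .nil))) 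
(.lf (nat_lit 569057) (.g (nat_lit 2113) (.e (nat_lit 458811) (nat_lit 44) (.e (nat_lit 704737) (nat_lit 11) (.e (nat_lit 16448) (nat_lit 10) (.e (nat_lit 434208) (nat_lit 18) .nil)))) (.g (nat_lit 0) (.e (nat_lit 347007) (nat_lit 0) .nil) .nil)))) (.nd (nat_lit 9) 
(.lf (nat_lit 568801) (.g (nat_lit 655) (.e (nat_lit 458789) (nat_lit 23) (.e (nat_lit 532501) (nat_lit 1) (.e (nat_lit 57669) (nat_lit 152) .nil))) (.g (nat_lit 0) (.e (nat_lit 346115) (nat_lit 0) .nil) .nil))) 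
(.lf (nat_lit 569313) (.g (nat_lit 2389) (.e (nat_lit 466954) (nat_lit 11) (.e (nat_lit 335995) (nat_lit 1) (.e (nat_lit 57691) (nat_lit 156) (.e (nat_lit 163905) (nat_lit 12) (.e (nat_lit 426436) (nat_lit 18) .nil))))) (.g (nat_lit 0) (.e (nat_lit 347601) (nat_lit 0) .nil) .nil)))))))) (.nd (nat_lit 5) (.nd (nat_lit 6) (.nd (nat_lit 7) (.nd (nat_lit 8) (.nd (nat_lit 9) 
(.lf (nat_lit 568337) (.g (nat_lit 2349) (.e (nat_lit 450588) (nat_lit 10) (.e (nat_lit 573475) (nat_lit 12) (.e (nat_lit 57574) (nat_lit 55) (.e (nat_lit 778465) (nat_lit 11) (.e (nat_lit 24594) (nat_lit 0) .nil))))) (.g (nat_lit 0) (.e (nat_lit 343217) (nat_lit 0) .nil) .nil))) 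
(.lf (nat_lit 568849) (.g (nat_lit 2716) (.e (nat_lit 458789) (nat_lit 23) (.e (nat_lit 532503) (nat_lit 1) (.e (nat_lit 57691) (nat_lit 156) (.e (nat_lit 163905) (nat_lit 12) (.e (nat_lit 426568) (nat_lit 34) (.e (nat_lit 393287) (nat_lit 25) .nil)))))) (.g (nat_lit 1) (.e (nat_lit 346194) (nat_lit 0) .nil) .nil)))) (.nd (nat_lit 9) 
(.lf (nat_lit 568593) (.g (nat_lit 1410) (.e (nat_lit 466688) (nat_lit 5) (.e (nat_lit 73729) (nat_lit 0) (.e (nat_lit 7265) (nat_lit 384) (.e (nat_lit 57435) (nat_lit 17) (.e (nat_lit 384768) (nat_lit 15) .nil))))) (.g (nat_lit 0) (.e (nat_lit 345591) (nat_lit 0) .nil) .nil))) 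
(.lf (nat_lit 569105) (.g (nat_lit 2177) (.e (nat_lit 466947) (nat_lit 0) (.e (nat_lit 1800) (nat_lit 119) (.e (nat_lit 516120) (nat_lit 1) (.e (nat_lit 164332) (nat_lit 230) (.e (nat_lit 163942) (nat_lit 19) (.e (nat_lit 491264) (nat_lit 14) .nil)))))) (.g (nat_lit 1) (.e (nat_lit 347091) (nat_lit 0) .nil) .nil))))) (.nd (nat_lit 8) (.nd (nat_lit 9) 
(.lf (nat_lit 568465) (.g (nat_lit 1025) (.e (nat_lit 458496) (nat_lit 15) (.e (nat_lit 647183) (nat_lit 4) (.e (nat_lit 172119) (nat_lit 12) (.e (nat_lit 475210) (nat_lit 41) .nil)))) (.g (nat_lit 0) (.e (nat_lit 343707) (nat_lit 0) .nil) .nil))) 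
(.lf (nat_lit 568977) (.g (nat_lit 1336) (.e (nat_lit 458789) (nat_lit 23) (.e (nat_lit 532569) (nat_lit 16) (.e (nat_lit 401448) (nat_lit 10) (.e (nat_lit 434245) (nat_lit 28) .nil)))) (.g (nat_lit 0) (.e (nat_lit 346838) (nat_lit 0) .nil) .nil)))) (.nd (nat_lit 9) 
(.lf (nat_lit 568721) (.g (nat_lit 626) (.e (nat_lit 458788) (nat_lit 23) (.e (nat_lit 532502) (nat_lit 1) (.e (nat_lit 57654) (nat_lit 152) (.e (nat_lit 2633) (nat_lit 164) .nil)))) (.g (nat_lit 0) (.e (nat_lit 345994) (nat_lit 0) .nil) .nil))) 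
(.lf (nat_lit 569233) (.g (nat_lit 2266) (.e (nat_lit 466954) (nat_lit 11) (.e (nat_lit 335986) (nat_lit 1) (.e (nat_lit 57688) (nat_lit 156) (.e (nat_lit 163903) (nat_lit 12) (.e (nat_lit 426436) (nat_lit 18) (.e (nat_lit 98379) (nat_lit 31) .nil)))))) (.g (nat_lit 1) (.e (nat_lit 347520) (nat_lit 0) .nil) .nil)))))) (.nd (nat_lit 7) (.nd (nat_lit 8) (.nd (nat_lit 9) 
(.lf (nat_lit 568401) (.g (nat_lit 1260) (.e (nat_lit 450595) (nat_lit 17) (.e (nat_lit 663574) (nat_lit 9) (.e (nat_lit 7936) (nat_lit 24) (.e (nat_lit 360482) (nat_lit 15) (.e (nat_lit 647193) (nat_lit 9) (.e (nat_lit 7936) (nat_lit 35) .nil)))))) (.g (nat_lit 1) (.e (nat_lit 343596) (nat_lit 0) .nil) .nil))) 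
(.lf (nat_lit 568913) (.g (nat_lit 2369) (.e (nat_lit 458789) (nat_lit 23) (.e (nat_lit 532549) (nat_lit 12) (.e (nat_lit 360473) (nat_lit 8) (.e (nat_lit 557089) (nat_lit 12) (.e (nat_lit 163844) (nat_lit 0) .nil))))) (.g (nat_lit 0) (.e (nat_lit 346521) (nat_lit 0) .nil) .nil)))) (.nd (nat_lit 9) 
(.lf (nat_lit 568657) (.g (nat_lit 2331) (.e (nat_lit 458774) (nat_lit 18) (.e (nat_lit 5224) (nat_lit 296) (.e (nat_lit 163871) (nat_lit 2) (.e (nat_lit 196653) (nat_lit 11) (.e (nat_lit 16465) (nat_lit 13) (.e (nat_lit 491264) (nat_lit 13) .nil)))))) (.g (nat_lit 1) (.e (nat_lit 345727) (nat_lit 0) .nil) .nil))) 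
(.lf (nat_lit 569169) (.g (nat_lit 1472) (.e (nat_lit 474880) (nat_lit 5) (.e (nat_lit 114710) (nat_lit 21) (.e (nat_lit 57852) (nat_lit 252) (.e (nat_lit 57406) (nat_lit 12) (.e (nat_lit 336120) (nat_lit 9) .nil))))) (.g (nat_lit 0) (.e (nat_lit 347211) (nat_lit 0) .nil) .nil))))) (.nd (nat_lit 8) (.nd (nat_lit 9) 
(.lf (nat_lit 568529) (.g (nat_lit 1715) (.e (nat_lit 450605) (nat_lit 27) (.e (nat_lit 745491) (nat_lit 4) (.e (nat_lit 65610) (nat_lit 10) (.e (nat_lit 344138) (nat_lit 29) (.e (nat_lit 581636) (nat_lit 0) (.e (nat_lit 3022) (nat_lit 187) .nil)))))) (.g (nat_lit 1) (.e (nat_lit 345440) (nat_lit 0) .nil) .nil))) 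
(.lf (nat_lit 569041) (.g (nat_lit 3232) (.e (nat_lit 458795) (nat_lit 28) (.e (nat_lit 573489) (nat_lit 14) (.e (nat_lit 73755) (nat_lit 8) (.e (nat_lit 557089) (nat_lit 12) (.e (nat_lit 164006) (nat_lit 41) .nil))))) (.g (nat_lit 0) (.e (nat_lit 346961) (nat_lit 0) .nil) .nil)))) (.nd (nat_lit 9) 
(.lf (nat_lit 568785) (.g (nat_lit 2912) (.e (nat_lit 458789) (nat_lit 23) (.e (nat_lit 532499) (nat_lit 1) (.e (nat_lit 57687) (nat_lit 156) (.e (nat_lit 163902) (nat_lit 12) (.e (nat_lit 426568) (nat_lit 34) (.e (nat_lit 393287) (nat_lit 25) .nil)))))) (.g (nat_lit 1) (.e (nat_lit 346086) (nat_lit 0) .nil) .nil))) 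
(.lf (nat_lit 569297) (.g (nat_lit 1878) (.e (nat_lit 466954) (nat_lit 11) (.e (nat_lit 335994) (nat_lit 1) (.e (nat_lit 57691) (nat_lit 156) (.e (nat_lit 163907) (nat_lit 12) (.e (nat_lit 426437) (nat_lit 18) .nil))))) (.g (nat_lit 0) (.e (nat_lit 347584) (nat_lit 0) .nil) .nil))))))) (.nd (nat_lit 6) (.nd (nat_lit 7) (.nd (nat_lit 8) (.nd (nat_lit 9) 
(.lf (nat_lit 568369) (.g (nat_lit 1039) (.e (nat_lit 450591) (nat_lit 13) (.e (nat_lit 630821) (nat_lit 16) (.e (nat_lit 65616) (nat_lit 10) (.e (nat_lit 344157) (nat_lit 36) (.e (nat_lit 638986) (nat_lit 5) (.e (nat_lit 3022) (nat_lit 187) .nil)))))) (.g (nat_lit 1) (.e (nat_lit 343439) (nat_lit 0) .nil) .nil))) 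
(.lf (nat_lit 568881) (.g (nat_lit 645) (.e (nat_lit 458789) (nat_lit 23) (.e (nat_lit 532522) (nat_lit 7) (.e (nat_lit 319528) (nat_lit 16) .nil))) (.g (nat_lit 0) (.e (nat_lit 346247) (nat_lit 0) .nil) .nil)))) (.nd (nat_lit 9) 
(.lf (nat_lit 568625) (.g (nat_lit 283) (.e (nat_lit 466688) (nat_lit 5) (.e (nat_lit 73775) (nat_lit 26) (.e (nat_lit 778465) (nat_lit 11) .nil))) (.g (nat_lit 0) (.e (nat_lit 345625) (nat_lit 0) .nil) .nil))) 
(.lf (nat_lit 569137) (.g (nat_lit 2805) (.e (nat_lit 466949) (nat_lit 0) (.e (nat_lit 1855) (nat_lit 124) (.e (nat_lit 557101) (nat_lit 13) (.e (nat_lit 172115) (nat_lit 10) (.e (nat_lit 434244) (nat_lit 28) (.e (nat_lit 573458) (nat_lit 9) (.e (nat_lit 7936) (nat_lit 37) .nil))))))) (.g (nat_lit 1) (.e (nat_lit 347136) (nat_lit 0) .nil) .nil))))) (.nd (nat_lit 8) (.nd (nat_lit 9) 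
(.lf (nat_lit 568497) (.g (nat_lit 2436) (.e (nat_lit 450601) (nat_lit 21) (.e (nat_lit 696344) (nat_lit 8) (.e (nat_lit 172113) (nat_lit 10) (.e (nat_lit 434207) (nat_lit 18) (.e (nat_lit 6416) (nat_lit 341) (.e (nat_lit 163923) (nat_lit 15) .nil)))))) (.g (nat_lit 1) (.e (nat_lit 344424) (nat_lit 0) .nil) .nil))) 
(.lf (nat_lit 569009) (.g (nat_lit 2923) (.e (nat_lit 458790) (nat_lit 23) (.e (nat_lit 532523) (nat_lit 7) (.e (nat_lit 319531) (nat_lit 16) (.e (nat_lit 286735) (nat_lit 3) (.e (nat_lit 98358) (nat_lit 26) .nil))))) (.g (nat_lit 0) (.e (nat_lit 346901) (nat_lit 0) .nil) .nil)))) (.nd (nat_lit 9) 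
(.lf (nat_lit 568753) (.g (nat_lit 4256) (.e (nat_lit 458788) (nat_lit 23) (.e (nat_lit 532550) (nat_lit 12) (.e (nat_lit 360475) (nat_lit 8) (.e (nat_lit 557089) (nat_lit 12) .nil)))) (.g (nat_lit 0) (.e (nat_lit 346037) (nat_lit 0) .nil) .nil))) 
(.lf (nat_lit 569265) (.g (nat_lit 2296) (.e (nat_lit 466954) (nat_lit 11) (.e (nat_lit 335987) (nat_lit 1) (.e (nat_lit 57692) (nat_lit 156) (.e (nat_lit 163907) (nat_lit 12) (.e (nat_lit 426436) (nat_lit 18) (.e (nat_lit 98380) (nat_lit 31) .nil)))))) (.g (nat_lit 1) (.e (nat_lit 347552) (nat_lit 0) .nil) .nil)))))) (.nd (nat_lit 7) (.nd (nat_lit 8) (.nd (nat_lit 9) 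
(.lf (nat_lit 568433) (.g (nat_lit 1941) (.e (nat_lit 450598) (nat_lit 18) (.e (nat_lit 671779) (nat_lit 11) (.e (nat_lit 24640) (nat_lit 10) (.e (nat_lit 344156) (nat_lit 36) (.e (nat_lit 638985) (nat_lit 5) .nil))))) (.g (nat_lit 0) (.e (nat_lit 343663) (nat_lit 0) .nil) .nil))) 
(.lf (nat_lit 568945) (.g (nat_lit 3134) (.e (nat_lit 458789) (nat_lit 23) (.e (nat_lit 532563) (nat_lit 15) (.e (nat_lit 385109) (nat_lit 51) (.e (nat_lit 794641) (nat_lit 20) .nil)))) (.g (nat_lit 0) (.e (nat_lit 346715) (nat_lit 0) .nil) .nil)))) (.nd (nat_lit 9) 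
(.lf (nat_lit 568689) (.g (nat_lit 1222) (.e (nat_lit 458774) (nat_lit 18) (.e (nat_lit 5548) (nat_lit 306) (.e (nat_lit 2640) (nat_lit 165) (.e (nat_lit 180277) (nat_lit 32) (.e (nat_lit 1658) (nat_lit 115) .nil))))) (.g (nat_lit 0) (.e (nat_lit 345868) (nat_lit 0) .nil) .nil))) 
(.lf (nat_lit 569201) (.g (nat_lit 1847) (.e (nat_lit 466950) (nat_lit 11) (.e (nat_lit 335996) (nat_lit 1) (.e (nat_lit 57692) (nat_lit 156) (.e (nat_lit 163907) (nat_lit 12) (.e (nat_lit 426436) (nat_lit 18) (.e (nat_lit 98382) (nat_lit 31) .nil)))))) (.g (nat_lit 1) (.e (nat_lit 347266) (nat_lit 0) .nil) .nil))))) (.nd (nat_lit 8) (.nd (nat_lit 9) 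
(.lf (nat_lit 568561) (.g (nat_lit 727) (.e (nat_lit 450605) (nat_lit 27) (.e (nat_lit 745493) (nat_lit 6) (.e (nat_lit 81942) (nat_lit 20) (.e (nat_lit 1886) (nat_lit 127) (.e (nat_lit 581636) (nat_lit 0) (.e (nat_lit 3027) (nat_lit 187) .nil)))))) (.g (nat_lit 1) (.e (nat_lit 345498) (nat_lit 0) .nil) .nil))) 
(.lf (nat_lit 569073) (.g (nat_lit 665) (.e (nat_lit 466946) (nat_lit 0) (.e (nat_lit 1800) (nat_lit 119) (.e (nat_lit 516120) (nat_lit 1) .nil))) (.g (nat_lit 0) (.e (nat_lit 347053) (nat_lit 0) .nil) .nil)))) (.nd (nat_lit 9) 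
(.lf (nat_lit 568817) (.g (nat_lit 2934) (.e (nat_lit 458789) (nat_lit 23) (.e (nat_lit 532502) (nat_lit 1) (.e (nat_lit 57688) (nat_lit 156) (.e (nat_lit 163903) (nat_lit 12) (.e (nat_lit 426566) (nat_lit 34) (.e (nat_lit 393289) (nat_lit 25) .nil)))))) (.g (nat_lit 1) (.e (nat_lit 346139) (nat_lit 0) .nil) .nil))) 
(.lf (nat_lit 569329) (.g (nat_lit 2124) (.e (nat_lit 466954) (nat_lit 11) (.e (nat_lit 335996) (nat_lit 1) (.e (nat_lit 57691) (nat_lit 156) (.e (nat_lit 163907) (nat_lit 12) (.e (nat_lit 426437) (nat_lit 18) .nil))))) (.g (nat_lit 0) (.e (nat_lit 347617) (nat_lit 0) .nil) .nil))))))))) (.nd (nat_lit 4) (.nd (nat_lit 5) (.nd (nat_lit 6) (.nd (nat_lit 7) (.nd (nat_lit 8) (.nd (nat_lit 9) 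
(.lf (nat_lit 568329) (.g (nat_lit 3028) (.e (nat_lit 450588) (nat_lit 10) (.e (nat_lit 573475) (nat_lit 12) (.e (nat_lit 57507) (nat_lit 39) (.e (nat_lit 647199) (nat_lit 11) (.e (nat_lit 16388) (nat_lit 0) (.e (nat_lit 3544) (nat_lit 219) (.e (nat_lit 712754) (nat_lit 30) .nil))))))) (.g (nat_lit 1) (.e (nat_lit 343194) (nat_lit 0) .nil) .nil))) 
(.lf (nat_lit 568841) (.g (nat_lit 2640) (.e (nat_lit 458789) (nat_lit 23) (.e (nat_lit 532503) (nat_lit 1) (.e (nat_lit 57688) (nat_lit 156) (.e (nat_lit 163907) (nat_lit 12) (.e (nat_lit 426566) (nat_lit 34) (.e (nat_lit 393286) (nat_lit 25) .nil)))))) (.g (nat_lit 1) (.e (nat_lit 346184) (nat_lit 0) .nil) .nil)))) (.nd (nat_lit 9) 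
(.lf (nat_lit 568585) (.g (nat_lit 1181) (.e (nat_lit 466688) (nat_lit 5) (.e (nat_lit 73729) (nat_lit 0) (.e (nat_lit 7261) (nat_lit 384) (.e (nat_lit 57423) (nat_lit 14) (.e (nat_lit 360192) (nat_lit 15) .nil))))) (.g (nat_lit 0) (.e (nat_lit 345581) (nat_lit 0) .nil) .nil))) 
(.lf (nat_lit 569097) (.g (nat_lit 2198) (.e (nat_lit 466947) (nat_lit 0) (.e (nat_lit 1800) (nat_lit 119) (.e (nat_lit 516119) (nat_lit 1) (.e (nat_lit 164326) (nat_lit 230) (.e (nat_lit 163942) (nat_lit 19) (.e (nat_lit 491264) (nat_lit 14) .nil)))))) (.g (nat_lit 1) (.e (nat_lit 347083) (nat_lit 0) .nil) .nil))))) (.nd (nat_lit 8) (.nd (nat_lit 9) 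
(.lf (nat_lit 568457) (.g (nat_lit 1621) (.e (nat_lit 458496) (nat_lit 15) (.e (nat_lit 647183) (nat_lit 4) (.e (nat_lit 172113) (nat_lit 10) (.e (nat_lit 434272) (nat_lit 38) (.e (nat_lit 655363) (nat_lit 0) .nil))))) (.g (nat_lit 0) (.e (nat_lit 343698) (nat_lit 0) .nil) .nil))) 
(.lf (nat_lit 568969) (.g (nat_lit 3204) (.e (nat_lit 458789) (nat_lit 23) (.e (nat_lit 532569) (nat_lit 16) (.e (nat_lit 401448) (nat_lit 10) (.e (nat_lit 434243) (nat_lit 28) (.e (nat_lit 573471) (nat_lit 11) (.e (nat_lit 16452) (nat_lit 11) .nil)))))) (.g (nat_lit 1) (.e (nat_lit 346830) (nat_lit 0) .nil) .nil)))) (.nd (nat_lit 9) 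
(.lf (nat_lit 568713) (.g (nat_lit 5165) (.e (nat_lit 458787) (nat_lit 23) (.e (nat_lit 532550) (nat_lit 12) (.e (nat_lit 360474) (nat_lit 8) (.e (nat_lit 557093) (nat_lit 12) (.e (nat_lit 164023) (nat_lit 46) .nil))))) (.g (nat_lit 0) (.e (nat_lit 345986) (nat_lit 0) .nil) .nil))) 
(.lf (nat_lit 569225) (.g (nat_lit 869) (.e (nat_lit 466954) (nat_lit 11) (.e (nat_lit 335986) (nat_lit 1) (.e (nat_lit 57685) (nat_lit 156) .nil))) (.g (nat_lit 0) (.e (nat_lit 347512) (nat_lit 0) .nil) .nil)))))) (.nd (nat_lit 7) (.nd (nat_lit 8) (.nd (nat_lit 9) 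
(.lf (nat_lit 568393) (.g (nat_lit 1914) (.e (nat_lit 450592) (nat_lit 14) (.e (nat_lit 639021) (nat_lit 16) (.e (nat_lit 65619) (nat_lit 10) (.e (nat_lit 344160) (nat_lit 37) (.e (nat_lit 647195) (nat_lit 9) (.e (nat_lit 7936) (nat_lit 35) .nil)))))) (.g (nat_lit 1) (.e (nat_lit 343544) (nat_lit 0) .nil) .nil))) 
(.lf (nat_lit 568905) (.g (nat_lit 1266) (.e (nat_lit 458789) (nat_lit 23) (.e (nat_lit 532523) (nat_lit 7) (.e (nat_lit 319536) (nat_lit 17) (.e (nat_lit 294931) (nat_lit 3) .nil)))) (.g (nat_lit 0) (.e (nat_lit 346271) (nat_lit 0) .nil) .nil)))) (.nd (nat_lit 9) 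
(.lf (nat_lit 568649) (.g (nat_lit 1085) (.e (nat_lit 458769) (nat_lit 16) (.e (nat_lit 164289) (nat_lit 224) (.e (nat_lit 164112) (nat_lit 118) (.e (nat_lit 794635) (nat_lit 11) (.e (nat_lit 336154) (nat_lit 9) (.e (nat_lit 336437) (nat_lit 31) .nil)))))) (.g (nat_lit 1) (.e (nat_lit 345688) (nat_lit 0) .nil) .nil))) 
(.lf (nat_lit 569161) (.g (nat_lit 1347) (.e (nat_lit 474880) (nat_lit 3) (.e (nat_lit 98335) (nat_lit 18) (.e (nat_lit 164330) (nat_lit 230) (.e (nat_lit 163913) (nat_lit 12) .nil)))) (.g (nat_lit 0) (.e (nat_lit 347199) (nat_lit 0) .nil) .nil))))) (.nd (nat_lit 8) (.nd (nat_lit 9) 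
(.lf (nat_lit 568521) (.g (nat_lit 1531) (.e (nat_lit 450605) (nat_lit 27) (.e (nat_lit 745476) (nat_lit 0) (.e (nat_lit 1595) (nat_lit 111) (.e (nat_lit 360477) (nat_lit 11) (.e (nat_lit 581635) (nat_lit 0) .nil))))) (.g (nat_lit 0) (.e (nat_lit 345428) (nat_lit 0) .nil) .nil))) 
(.lf (nat_lit 569033) (.g (nat_lit 2495) (.e (nat_lit 458792) (nat_lit 25) (.e (nat_lit 548913) (nat_lit 18) (.e (nat_lit 172126) (nat_lit 14) (.e (nat_lit 491540) (nat_lit 3) (.e (nat_lit 98365) (nat_lit 26) (.e (nat_lit 426298) (nat_lit 11) .nil)))))) (.g (nat_lit 1) (.e (nat_lit 346944) (nat_lit 0) .nil) .nil)))) (.nd (nat_lit 9) 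
(.lf (nat_lit 568777) (.g (nat_lit 3239) (.e (nat_lit 458789) (nat_lit 23) (.e (nat_lit 532482) (nat_lit 0) (.e (nat_lit 6724) (nat_lit 362) (.e (nat_lit 180251) (nat_lit 10) (.e (nat_lit 573456) (nat_lit 9) (.e (nat_lit 430) (nat_lit 32) (.e (nat_lit 426300) (nat_lit 11) .nil))))))) (.g (nat_lit 1) (.e (nat_lit 346074) (nat_lit 0) .nil) .nil))) 
(.lf (nat_lit 569289) (.g (nat_lit 2461) (.e (nat_lit 466954) (nat_lit 11) (.e (nat_lit 335994) (nat_lit 1) (.e (nat_lit 57688) (nat_lit 156) (.e (nat_lit 163905) (nat_lit 12) (.e (nat_lit 426438) (nat_lit 18) (.e (nat_lit 98380) (nat_lit 31) .nil)))))) (.g (nat_lit 1) (.e (nat_lit 347576) (nat_lit 0) .nil) .nil))))))) (.nd (nat_lit 6) (.nd (nat_lit 7) (.nd (nat_lit 8) (.nd (nat_lit 9) 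
(.lf (nat_lit 568361) (.g (nat_lit 1372) (.e (nat_lit 450591) (nat_lit 13) (.e (nat_lit 630821) (nat_lit 16) (.e (nat_lit 65610) (nat_lit 10) (.e (nat_lit 344157) (nat_lit 36) (.e (nat_lit 638986) (nat_lit 5) (.e (nat_lit 3016) (nat_lit 187) .nil)))))) (.g (nat_lit 1) (.e (nat_lit 343431) (nat_lit 0) .nil) .nil))) 
(.lf (nat_lit 568873) (.g (nat_lit 2153) (.e (nat_lit 458789) (nat_lit 23) (.e (nat_lit 532515) (nat_lit 3) (.e (nat_lit 114716) (nat_lit 22) (.e (nat_lit 90196) (nat_lit 18) (.e (nat_lit 2797) (nat_lit 180) (.e (nat_lit 311040) (nat_lit 18) (.e (nat_lit 98376) (nat_lit 30) .nil))))))) (.g (nat_lit 1) (.e (nat_lit 346239) (nat_lit 0) .nil) .nil)))) (.nd (nat_lit 9) 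
(.lf (nat_lit 568617) (.g (nat_lit 835) (.e (nat_lit 466688) (nat_lit 5) (.e (nat_lit 73775) (nat_lit 26) (.e (nat_lit 778359) (nat_lit 9) (.e (nat_lit 334) (nat_lit 26) (.e (nat_lit 384768) (nat_lit 15) .nil))))) (.g (nat_lit 0) (.e (nat_lit 345617) (nat_lit 0) .nil) .nil))) 
(.lf (nat_lit 569129) (.g (nat_lit 1901) (.e (nat_lit 466947) (nat_lit 0) (.e (nat_lit 2174) (nat_lit 143) (.e (nat_lit 712755) (nat_lit 30) (.e (nat_lit 450569) (nat_lit 0) (.e (nat_lit 5599) (nat_lit 310) .nil))))) (.g (nat_lit 0) (.e (nat_lit 347125) (nat_lit 0) .nil) .nil))))) (.nd (nat_lit 8) (.nd (nat_lit 9) 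
(.lf (nat_lit 568489) (.g (nat_lit 968) (.e (nat_lit 458496) (nat_lit 16) (.e (nat_lit 655377) (nat_lit 4) (.e (nat_lit 172126) (nat_lit 14) (.e (nat_lit 491549) (nat_lit 9) .nil)))) (.g (nat_lit 0) (.e (nat_lit 343970) (nat_lit 0) .nil) .nil))) 
(.lf (nat_lit 569001) (.g (nat_lit 3871) (.e (nat_lit 458789) (nat_lit 23) (.e (nat_lit 532579) (nat_lit 26) (.e (nat_lit 426139) (nat_lit 3) (.e (nat_lit 204829) (nat_lit 18) (.e (nat_lit 57692) (nat_lit 156) (.e (nat_lit 171776) (nat_lit 64) (.e (nat_lit 98376) (nat_lit 30) .nil))))))) (.g (nat_lit 1) (.e (nat_lit 346893) (nat_lit 0) .nil) .nil)))) (.nd (nat_lit 9) 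
(.lf (nat_lit 568745) (.g (nat_lit 4650) (.e (nat_lit 458788) (nat_lit 23) (.e (nat_lit 532550) (nat_lit 12) (.e (nat_lit 360474) (nat_lit 8) (.e (nat_lit 557093) (nat_lit 12) (.e (nat_lit 164022) (nat_lit 46) (.e (nat_lit 704628) (nat_lit 9) (.e (nat_lit 471) (nat_lit 36) .nil))))))) (.g (nat_lit 1) (.e (nat_lit 346028) (nat_lit 0) .nil) .nil))) 
(.lf (nat_lit 569257) (.g (nat_lit 2389) (.e (nat_lit 466954) (nat_lit 11) (.e (nat_lit 335986) (nat_lit 1) (.e (nat_lit 57692) (nat_lit 156) (.e (nat_lit 163907) (nat_lit 12) (.e (nat_lit 426436) (nat_lit 18) (.e (nat_lit 98382) (nat_lit 31) .nil)))))) (.g (nat_lit 1) (.e (nat_lit 347544) (nat_lit 0) .nil) .nil)))))) (.nd (nat_lit 7) (.nd (nat_lit 8) (.nd (nat_lit 9) 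
(.lf (nat_lit 568425) (.g (nat_lit 2569) (.e (nat_lit 450596) (nat_lit 17) (.e (nat_lit 663589) (nat_lit 14) (.e (nat_lit 2798) (nat_lit 180) (.e (nat_lit 303133) (nat_lit 9) (.e (nat_lit 426412) (nat_lit 15) (.e (nat_lit 2160) (nat_lit 143) (.e (nat_lit 712755) (nat_lit 30) .nil))))))) (.g (nat_lit 1) (.e (nat_lit 343639) (nat_lit 0) .nil) .nil))) 
(.lf (nat_lit 568937) (.g (nat_lit 3729) (.e (nat_lit 458789) (nat_lit 23) (.e (nat_lit 532550) (nat_lit 12) (.e (nat_lit 360475) (nat_lit 8) (.e (nat_lit 557089) (nat_lit 12) .nil)))) (.g (nat_lit 0) (.e (nat_lit 346560) (nat_lit 0) .nil) .nil)))) (.nd (nat_lit 9) 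
(.lf (nat_lit 568681) (.g (nat_lit 5582) (.e (nat_lit 458774) (nat_lit 18) (.e (nat_lit 5548) (nat_lit 306) (.e (nat_lit 2610) (nat_lit 163) (.e (nat_lit 163978) (nat_lit 30) (.e (nat_lit 573485) (nat_lit 13) (.e (nat_lit 65619) (nat_lit 10) (.e (nat_lit 344117) (nat_lit 21) (.e (nat_lit 516170) (nat_lit 13) .nil)))))))) (.g (nat_lit 1) (.e (nat_lit 345842) (nat_lit 0) .nil) .nil))) 
(.lf (nat_lit 569193) (.g (nat_lit 828) (.e (nat_lit 466950) (nat_lit 11) (.e (nat_lit 335995) (nat_lit 1) (.e (nat_lit 57691) (nat_lit 156) .nil))) (.g (nat_lit 0) (.e (nat_lit 347258) (nat_lit 0) .nil) .nil))))) (.nd (nat_lit 8) (.nd (nat_lit 9) 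
(.lf (nat_lit 568553) (.g (nat_lit 1321) (.e (nat_lit 450605) (nat_lit 27) (.e (nat_lit 745493) (nat_lit 6) (.e (nat_lit 81938) (nat_lit 20) (.e (nat_lit 1886) (nat_lit 127) (.e (nat_lit 581636) (nat_lit 0) (.e (nat_lit 3022) (nat_lit 187) .nil)))))) (.g (nat_lit 1) (.e (nat_lit 345484) (nat_lit 0) .nil) .nil))) 
(.lf (nat_lit 569065) (.g (nat_lit 885) (.e (nat_lit 466945) (nat_lit 0) (.e (nat_lit 1786) (nat_lit 119) (.e (nat_lit 516126) (nat_lit 2) (.e (nat_lit 213032) (nat_lit 11) (.e (nat_lit 24609) (nat_lit 3) .nil))))) (.g (nat_lit 0) (.e (nat_lit 347035) (nat_lit 0) .nil) .nil)))) (.nd (nat_lit 9) 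
(.lf (nat_lit 568809) (.g (nat_lit 2205) (.e (nat_lit 458789) (nat_lit 23) (.e (nat_lit 532501) (nat_lit 1) (.e (nat_lit 57690) (nat_lit 156) (.e (nat_lit 163907) (nat_lit 12) (.e (nat_lit 426568) (nat_lit 34) (.e (nat_lit 393286) (nat_lit 25) .nil)))))) (.g (nat_lit 1) (.e (nat_lit 346128) (nat_lit 0) .nil) .nil))) 
(.lf (nat_lit 569321) (.g (nat_lit 844) (.e (nat_lit 466954) (nat_lit 11) (.e (nat_lit 335996) (nat_lit 1) (.e (nat_lit 57665) (nat_lit 152) .nil))) (.g (nat_lit 0) (.e (nat_lit 347609) (nat_lit 0) .nil) .nil)))))))) (.nd (nat_lit 5) (.nd (nat_lit 6) (.nd (nat_lit 7) (.nd (nat_lit 8) (.nd (nat_lit 9) 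
(.lf (nat_lit 568345) (.g (nat_lit 290) (.e (nat_lit 458496) (nat_lit 8) (.e (nat_lit 557060) (nat_lit 0) (.e (nat_lit 1574) (nat_lit 110) (.e (nat_lit 352279) (nat_lit 19) (.e (nat_lit 499456) (nat_lit 30) .nil))))) (.g (nat_lit 0) (.e (nat_lit 343319) (nat_lit 0) .nil) .nil))) 
(.lf (nat_lit 568857) (.g (nat_lit 2097) (.e (nat_lit 458789) (nat_lit 23) (.e (nat_lit 532504) (nat_lit 1) (.e (nat_lit 57651) (nat_lit 152) (.e (nat_lit 2619) (nat_lit 164) (.e (nat_lit 179968) (nat_lit 34) .nil))))) (.g (nat_lit 0) (.e (nat_lit 346211) (nat_lit 0) .nil) .nil)))) (.nd (nat_lit 9) 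
(.lf (nat_lit 568601) (.g (nat_lit 797) (.e (nat_lit 466688) (nat_lit 5) (.e (nat_lit 73730) (nat_lit 0) (.e (nat_lit 7261) (nat_lit 384) (.e (nat_lit 57435) (nat_lit 17) (.e (nat_lit 384768) (nat_lit 15) .nil))))) (.g (nat_lit 0) (.e (nat_lit 345599) (nat_lit 0) .nil) .nil))) 
(.lf (nat_lit 569113) (.g (nat_lit 1812) (.e (nat_lit 466947) (nat_lit 0) (.e (nat_lit 1856) (nat_lit 124) (.e (nat_lit 557095) (nat_lit 13) (.e (nat_lit 172126) (nat_lit 14) (.e (nat_lit 491540) (nat_lit 3) .nil))))) (.g (nat_lit 0) (.e (nat_lit 347100) (nat_lit 0) .nil) .nil))))) (.nd (nat_lit 8) (.nd (nat_lit 9) 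
(.lf (nat_lit 568473) (.g (nat_lit 1466) (.e (nat_lit 450593) (nat_lit 16) (.e (nat_lit 655367) (nat_lit 0) (.e (nat_lit 2946) (nat_lit 184) (.e (nat_lit 426306) (nat_lit 12) (.e (nat_lit 475208) (nat_lit 41) .nil))))) (.g (nat_lit 0) (.e (nat_lit 343785) (nat_lit 0) .nil) .nil))) 
(.lf (nat_lit 568985) (.g (nat_lit 3230) (.e (nat_lit 458789) (nat_lit 23) (.e (nat_lit 532569) (nat_lit 16) (.e (nat_lit 401448) (nat_lit 10) (.e (nat_lit 434247) (nat_lit 28) (.e (nat_lit 573456) (nat_lit 9) (.e (nat_lit 430) (nat_lit 32) (.e (nat_lit 426297) (nat_lit 11) .nil))))))) (.g (nat_lit 1) (.e (nat_lit 346846) (nat_lit 0) .nil) .nil)))) (.nd (nat_lit 9) 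
(.lf (nat_lit 568729) (.g (nat_lit 2395) (.e (nat_lit 458788) (nat_lit 23) (.e (nat_lit 532522) (nat_lit 7) (.e (nat_lit 319530) (nat_lit 16) (.e (nat_lit 286735) (nat_lit 3) (.e (nat_lit 98364) (nat_lit 26) .nil))))) (.g (nat_lit 0) (.e (nat_lit 346002) (nat_lit 0) .nil) .nil))) 
(.lf (nat_lit 569241) (.g (nat_lit 2649) (.e (nat_lit 466954) (nat_lit 11) (.e (nat_lit 335986) (nat_lit 1) (.e (nat_lit 57688) (nat_lit 156) (.e (nat_lit 163907) (nat_lit 12) (.e (nat_lit 426437) (nat_lit 18) (.e (nat_lit 98381) (nat_lit 31) .nil)))))) (.g (nat_lit 1) (.e (nat_lit 347528) (nat_lit 0) .nil) .nil)))))) (.nd (nat_lit 7) (.nd (nat_lit 8) (.nd (nat_lit 9) 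
(.lf (nat_lit 568409) (.g (nat_lit 1255) (.e (nat_lit 450595) (nat_lit 17) (.e (nat_lit 663577) (nat_lit 9) (.e (nat_lit 7936) (nat_lit 24) (.e (nat_lit 360482) (nat_lit 15) (.e (nat_lit 647195) (nat_lit 9) (.e (nat_lit 7936) (nat_lit 35) .nil)))))) (.g (nat_lit 1) (.e (nat_lit 343605) (nat_lit 0) .nil) .nil))) 
(.lf (nat_lit 568921) (.g (nat_lit 2167) (.e (nat_lit 458789) (nat_lit 23) (.e (nat_lit 532549) (nat_lit 12) (.e (nat_lit 360474) (nat_lit 8) (.e (nat_lit 557093) (nat_lit 12) (.e (nat_lit 163849) (nat_lit 0) .nil))))) (.g (nat_lit 0) (.e (nat_lit 346533) (nat_lit 0) .nil) .nil)))) (.nd (nat_lit 9) 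
(.lf (nat_lit 568665) (.g (nat_lit 2306) (.e (nat_lit 458774) (nat_lit 18) (.e (nat_lit 5939) (nat_lit 322) (.e (nat_lit 57379) (nat_lit 3) (.e (nat_lit 98365) (nat_lit 26) (.e (nat_lit 426327) (nat_lit 13) (.e (nat_lit 491264) (nat_lit 13) .nil)))))) (.g (nat_lit 1) (.e (nat_lit 345757) (nat_lit 0) .nil) .nil))) 
(.lf (nat_lit 569177) (.g (nat_lit 1117) (.e (nat_lit 466950) (nat_lit 11) (.e (nat_lit 335986) (nat_lit 1) (.e (nat_lit 57692) (nat_lit 156) (.e (nat_lit 163907) (nat_lit 12) .nil)))) (.g (nat_lit 0) (.e (nat_lit 347241) (nat_lit 0) .nil) .nil))))) (.nd (nat_lit 8) (.nd (nat_lit 9) 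
(.lf (nat_lit 568537) (.g (nat_lit 1108) (.e (nat_lit 450605) (nat_lit 27) (.e (nat_lit 745491) (nat_lit 4) (.e (nat_lit 65616) (nat_lit 10) (.e (nat_lit 344138) (nat_lit 29) (.e (nat_lit 581636) (nat_lit 0) (.e (nat_lit 3027) (nat_lit 187) .nil)))))) (.g (nat_lit 1) (.e (nat_lit 345450) (nat_lit 0) .nil) .nil))) 
(.lf (nat_lit 569049) (.g (nat_lit 1691) (.e (nat_lit 458810) (nat_lit 43) (.e (nat_lit 696343) (nat_lit 8) (.e (nat_lit 172113) (nat_lit 10) (.e (nat_lit 434208) (nat_lit 18) (.e (nat_lit 6416) (nat_lit 341) .nil))))) (.g (nat_lit 0) (.e (nat_lit 346993) (nat_lit 0) .nil) .nil)))) (.nd (nat_lit 9) 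
(.lf (nat_lit 568793) (.g (nat_lit 2611) (.e (nat_lit 458789) (nat_lit 23) (.e (nat_lit 532499) (nat_lit 1) (.e (nat_lit 57688) (nat_lit 156) (.e (nat_lit 163907) (nat_lit 12) (.e (nat_lit 426566) (nat_lit 34) (.e (nat_lit 393289) (nat_lit 25) .nil)))))) (.g (nat_lit 1) (.e (nat_lit 346095) (nat_lit 0) .nil) .nil))) 
(.lf (nat_lit 569305) (.g (nat_lit 2069) (.e (nat_lit 466954) (nat_lit 11) (.e (nat_lit 335995) (nat_lit 1) (.e (nat_lit 57687) (nat_lit 156) (.e (nat_lit 163905) (nat_lit 12) (.e (nat_lit 426438) (nat_lit 18) .nil))))) (.g (nat_lit 0) (.e (nat_lit 347593) (nat_lit 0) .nil) .nil))))))) (.nd (nat_lit 6) (.nd (nat_lit 7) (.nd (nat_lit 8) (.nd (nat_lit 9) 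
(.lf (nat_lit 568377) (.g (nat_lit 1042) (.e (nat_lit 450591) (nat_lit 13) (.e (nat_lit 630821) (nat_lit 16) (.e (nat_lit 65617) (nat_lit 10) (.e (nat_lit 344157) (nat_lit 36) (.e (nat_lit 638986) (nat_lit 5) (.e (nat_lit 3028) (nat_lit 187) .nil)))))) (.g (nat_lit 1) (.e (nat_lit 343447) (nat_lit 0) .nil) .nil))) 
(.lf (nat_lit 568889) (.g (nat_lit 1741) (.e (nat_lit 458789) (nat_lit 23) (.e (nat_lit 532522) (nat_lit 7) (.e (nat_lit 319535) (nat_lit 17) (.e (nat_lit 294931) (nat_lit 3) (.e (nat_lit 98365) (nat_lit 26) .nil))))) (.g (nat_lit 0) (.e (nat_lit 346255) (nat_lit 0) .nil) .nil)))) (.nd (nat_lit 9) 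
(.lf (nat_lit 568633) (.g (nat_lit 1149) (.e (nat_lit 466688) (nat_lit 5) (.e (nat_lit 73775) (nat_lit 26) (.e (nat_lit 778466) (nat_lit 11) (.e (nat_lit 32512) (nat_lit 9) .nil)))) (.g (nat_lit 0) (.e (nat_lit 345640) (nat_lit 0) .nil) .nil))) 
(.lf (nat_lit 569145) (.g (nat_lit 1567) (.e (nat_lit 474880) (nat_lit 0) (.e (nat_lit 1858) (nat_lit 124) (.e (nat_lit 557101) (nat_lit 13) (.e (nat_lit 172126) (nat_lit 14) (.e (nat_lit 491540) (nat_lit 3) .nil))))) (.g (nat_lit 0) (.e (nat_lit 347147) (nat_lit 0) .nil) .nil))))) (.nd (nat_lit 8) (.nd (nat_lit 9) 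
(.lf (nat_lit 568505) (.g (nat_lit 3176) (.e (nat_lit 450604) (nat_lit 22) (.e (nat_lit 704737) (nat_lit 11) (.e (nat_lit 16447) (nat_lit 10) (.e (nat_lit 434212) (nat_lit 18) (.e (nat_lit 6425) (nat_lit 342) (.e (nat_lit 229413) (nat_lit 15) .nil)))))) (.g (nat_lit 1) (.e (nat_lit 345149) (nat_lit 0) .nil) .nil))) 
(.lf (nat_lit 569017) (.g (nat_lit 4917) (.e (nat_lit 458790) (nat_lit 23) (.e (nat_lit 532550) (nat_lit 12) (.e (nat_lit 360475) (nat_lit 8) (.e (nat_lit 557091) (nat_lit 12) .nil)))) (.g (nat_lit 0) (.e (nat_lit 346919) (nat_lit 0) .nil) .nil)))) (.nd (nat_lit 9) 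
(.lf (nat_lit 568761) (.g (nat_lit 4979) (.e (nat_lit 458788) (nat_lit 23) (.e (nat_lit 532550) (nat_lit 12) (.e (nat_lit 360475) (nat_lit 8) (.e (nat_lit 557091) (nat_lit 12) (.e (nat_lit 164022) (nat_lit 46) .nil))))) (.g (nat_lit 0) (.e (nat_lit 346045) (nat_lit 0) .nil) .nil))) 
(.lf (nat_lit 569273) (.g (nat_lit 1795) (.e (nat_lit 466954) (nat_lit 11) (.e (nat_lit 335988) (nat_lit 1) (.e (nat_lit 57691) (nat_lit 156) (.e (nat_lit 163906) (nat_lit 12) (.e (nat_lit 426438) (nat_lit 18) .nil))))) (.g (nat_lit 0) (.e (nat_lit 347560) (nat_lit 0) .nil) .nil)))))) (.nd (nat_lit 7) (.nd (nat_lit 8) (.nd (nat_lit 9) 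
(.lf (nat_lit 568441) (.g (nat_lit 1348) (.e (nat_lit 458496) (nat_lit 15) (.e (nat_lit 647183) (nat_lit 4) (.e (nat_lit 172106) (nat_lit 10) (.e (nat_lit 434271) (nat_lit 38) (.e (nat_lit 655362) (nat_lit 0) .nil))))) (.g (nat_lit 0) (.e (nat_lit 343682) (nat_lit 0) .nil) .nil))) 
(.lf (nat_lit 568953) (.g (nat_lit 4300) (.e (nat_lit 458789) (nat_lit 23) (.e (nat_lit 532569) (nat_lit 16) (.e (nat_lit 401448) (nat_lit 10) (.e (nat_lit 434231) (nat_lit 23) (.e (nat_lit 532482) (nat_lit 0) (.e (nat_lit 6696) (nat_lit 357) (.e (nat_lit 3033) (nat_lit 188) .nil))))))) (.g (nat_lit 1) (.e (nat_lit 346810) (nat_lit 0) .nil) .nil)))) (.nd (nat_lit 9) 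
(.lf (nat_lit 568697) (.g (nat_lit 741) (.e (nat_lit 458787) (nat_lit 23) (.e (nat_lit 532503) (nat_lit 1) (.e (nat_lit 57654) (nat_lit 152) .nil))) (.g (nat_lit 0) (.e (nat_lit 345959) (nat_lit 0) .nil) .nil))) 
(.lf (nat_lit 569209) (.g (nat_lit 1295) (.e (nat_lit 466952) (nat_lit 11) (.e (nat_lit 335998) (nat_lit 1) (.e (nat_lit 57691) (nat_lit 156) (.e (nat_lit 163938) (nat_lit 18) .nil)))) (.g (nat_lit 0) (.e (nat_lit 347346) (nat_lit 0) .nil) .nil))))) (.nd (nat_lit 8) (.nd (nat_lit 9) 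
(.lf (nat_lit 568569) (.g (nat_lit 1041) (.e (nat_lit 450605) (nat_lit 27) (.e (nat_lit 745493) (nat_lit 6) (.e (nat_lit 81946) (nat_lit 20) (.e (nat_lit 1886) (nat_lit 127) (.e (nat_lit 581636) (nat_lit 0) (.e (nat_lit 3027) (nat_lit 187) .nil)))))) (.g (nat_lit 1) (.e (nat_lit 345511) (nat_lit 0) .nil) .nil))) 
(.lf (nat_lit 569081) (.g (nat_lit 832) (.e (nat_lit 466946) (nat_lit 0) (.e (nat_lit 2175) (nat_lit 143) (.e (nat_lit 712745) (nat_lit 27) (.e (nat_lit 425984) (nat_lit 0) .nil)))) (.g (nat_lit 0) (.e (nat_lit 347062) (nat_lit 0) .nil) .nil)))) (.nd (nat_lit 9) 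
(.lf (nat_lit 568825) (.g (nat_lit 2306) (.e (nat_lit 458789) (nat_lit 23) (.e (nat_lit 532502) (nat_lit 1) (.e (nat_lit 57691) (nat_lit 156) (.e (nat_lit 163907) (nat_lit 12) (.e (nat_lit 426566) (nat_lit 34) (.e (nat_lit 393289) (nat_lit 25) .nil)))))) (.g (nat_lit 1) (.e (nat_lit 346149) (nat_lit 0) .nil) .nil))) 
(.lf (nat_lit 569337) (.g (nat_lit 1066) (.e (nat_lit 466954) (nat_lit 11) (.e (nat_lit 335996) (nat_lit 1) (.e (nat_lit 57692) (nat_lit 156) (.e (nat_lit 171776) (nat_lit 12) .nil)))) (.g (nat_lit 0) (.e (nat_lit 347625) (nat_lit 0) .nil) .nil)))))))))) (.nd (nat_lit 3) (.nd (nat_lit 4) (.nd (nat_lit 5) (.nd (nat_lit 6) (.nd (nat_lit 7) (.nd (nat_lit 8) (.nd (nat_lit 9) 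
(.lf (nat_lit 568325) (.g (nat_lit 632) (.e (nat_lit 450588) (nat_lit 10) (.e (nat_lit 573475) (nat_lit 12) (.e (nat_lit 57514) (nat_lit 42) (.e (nat_lit 671782) (nat_lit 12) .nil)))) (.g (nat_lit 0) (.e (nat_lit 343183) (nat_lit 0) .nil) .nil))) 
(.lf (nat_lit 568837) (.g (nat_lit 3045) (.e (nat_lit 458789) (nat_lit 23) (.e (nat_lit 532503) (nat_lit 1) (.e (nat_lit 57687) (nat_lit 156) (.e (nat_lit 163902) (nat_lit 12) (.e (nat_lit 426568) (nat_lit 34) (.e (nat_lit 393287) (nat_lit 25) .nil)))))) (.g (nat_lit 1) (.e (nat_lit 346173) (nat_lit 0) .nil) .nil)))) (.nd (nat_lit 9) 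
(.lf (nat_lit 568581) (.g (nat_lit 882) (.e (nat_lit 466688) (nat_lit 4) (.e (nat_lit 65647) (nat_lit 25) (.e (nat_lit 409603) (nat_lit 0) (.e (nat_lit 5293) (nat_lit 298) (.e (nat_lit 1423) (nat_lit 108) .nil))))) (.g (nat_lit 0) (.e (nat_lit 345550) (nat_lit 0) .nil) .nil))) 
(.lf (nat_lit 569093) (.g (nat_lit 2214) (.e (nat_lit 466947) (nat_lit 0) (.e (nat_lit 1800) (nat_lit 119) (.e (nat_lit 516119) (nat_lit 1) (.e (nat_lit 164325) (nat_lit 230) (.e (nat_lit 163942) (nat_lit 19) (.e (nat_lit 491264) (nat_lit 14) .nil)))))) (.g (nat_lit 1) (.e (nat_lit 347079) (nat_lit 0) .nil) .nil))))) (.nd (nat_lit 8) (.nd (nat_lit 9) 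
(.lf (nat_lit 568453) (.g (nat_lit 1174) (.e (nat_lit 458496) (nat_lit 15) (.e (nat_lit 647183) (nat_lit 4) (.e (nat_lit 172113) (nat_lit 10) (.e (nat_lit 434270) (nat_lit 38) .nil)))) (.g (nat_lit 0) (.e (nat_lit 343694) (nat_lit 0) .nil) .nil))) 
(.lf (nat_lit 568965) (.g (nat_lit 3667) (.e (nat_lit 458789) (nat_lit 23) (.e (nat_lit 532569) (nat_lit 16) (.e (nat_lit 401448) (nat_lit 10) (.e (nat_lit 434232) (nat_lit 23) (.e (nat_lit 532488) (nat_lit 0) (.e (nat_lit 6691) (nat_lit 357) (.e (nat_lit 3033) (nat_lit 188) .nil))))))) (.g (nat_lit 1) (.e (nat_lit 346823) (nat_lit 0) .nil) .nil)))) (.nd (nat_lit 9) 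
(.lf (nat_lit 568709) (.g (nat_lit 5756) (.e (nat_lit 458787) (nat_lit 23) (.e (nat_lit 532550) (nat_lit 12) (.e (nat_lit 360474) (nat_lit 8) (.e (nat_lit 557091) (nat_lit 12) .nil)))) (.g (nat_lit 0) (.e (nat_lit 345982) (nat_lit 0) .nil) .nil))) 
(.lf (nat_lit 569221) (.g (nat_lit 377) (.e (nat_lit 466954) (nat_lit 11) (.e (nat_lit 335986) (nat_lit 1) (.e (nat_lit 57657) (nat_lit 152) .nil))) (.g (nat_lit 0) (.e (nat_lit 347508) (nat_lit 0) .nil) .nil)))))) (.nd (nat_lit 7) (.nd (nat_lit 8) (.nd (nat_lit 9) 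
(.lf (nat_lit 568389) (.g (nat_lit 1366) (.e (nat_lit 450592) (nat_lit 14) (.e (nat_lit 639008) (nat_lit 13) (.e (nat_lit 1595) (nat_lit 111) (.e (nat_lit 360480) (nat_lit 14) (.e (nat_lit 638986) (nat_lit 5) (.e (nat_lit 3015) (nat_lit 187) .nil)))))) (.g (nat_lit 1) (.e (nat_lit 343496) (nat_lit 0) .nil) .nil))) 
(.lf (nat_lit 568901) (.g (nat_lit 2223) (.e (nat_lit 458789) (nat_lit 23) (.e (nat_lit 532523) (nat_lit 7) (.e (nat_lit 319534) (nat_lit 16) (.e (nat_lit 286728) (nat_lit 0) (.e (nat_lit 1802) (nat_lit 119) .nil))))) (.g (nat_lit 0) (.e (nat_lit 346267) (nat_lit 0) .nil) .nil)))) (.nd (nat_lit 9) 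
(.lf (nat_lit 568645) (.g (nat_lit 2093) (.e (nat_lit 458769) (nat_lit 16) (.e (nat_lit 164286) (nat_lit 224) (.e (nat_lit 164104) (nat_lit 116) (.e (nat_lit 778462) (nat_lit 11) (.e (nat_lit 24628) (nat_lit 9) (.e (nat_lit 336438) (nat_lit 31) .nil)))))) (.g (nat_lit 1) (.e (nat_lit 345682) (nat_lit 0) .nil) .nil))) 
(.lf (nat_lit 569157) (.g (nat_lit 989) (.e (nat_lit 474880) (nat_lit 3) (.e (nat_lit 98335) (nat_lit 18) (.e (nat_lit 164325) (nat_lit 230) (.e (nat_lit 163944) (nat_lit 19) (.e (nat_lit 491264) (nat_lit 14) .nil))))) (.g (nat_lit 0) (.e (nat_lit 347191) (nat_lit 0) .nil) .nil))))) (.nd (nat_lit 8) (.nd (nat_lit 9) 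
(.lf (nat_lit 568517) (.g (nat_lit 1711) (.e (nat_lit 450605) (nat_lit 27) (.e (nat_lit 745475) (nat_lit 0) (.e (nat_lit 1598) (nat_lit 111) (.e (nat_lit 360477) (nat_lit 11) (.e (nat_lit 581636) (nat_lit 0) (.e (nat_lit 3022) (nat_lit 187) .nil)))))) (.g (nat_lit 1) (.e (nat_lit 345424) (nat_lit 0) .nil) .nil))) 
(.lf (nat_lit 569029) (.g (nat_lit 1420) (.e (nat_lit 458792) (nat_lit 25) (.e (nat_lit 548913) (nat_lit 18) (.e (nat_lit 172125) (nat_lit 14) (.e (nat_lit 491540) (nat_lit 3) .nil)))) (.g (nat_lit 0) (.e (nat_lit 346940) (nat_lit 0) .nil) .nil)))) (.nd (nat_lit 9) 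
(.lf (nat_lit 568773) (.g (nat_lit 2096) (.e (nat_lit 458789) (nat_lit 23) (.e (nat_lit 532482) (nat_lit 0) (.e (nat_lit 6724) (nat_lit 362) (.e (nat_lit 180250) (nat_lit 10) (.e (nat_lit 573457) (nat_lit 9) (.e (nat_lit 430) (nat_lit 32) (.e (nat_lit 426296) (nat_lit 11) .nil))))))) (.g (nat_lit 1) (.e (nat_lit 346070) (nat_lit 0) .nil) .nil))) 
(.lf (nat_lit 569285) (.g (nat_lit 1388) (.e (nat_lit 466954) (nat_lit 11) (.e (nat_lit 335994) (nat_lit 1) (.e (nat_lit 57687) (nat_lit 156) (.e (nat_lit 163903) (nat_lit 12) (.e (nat_lit 426436) (nat_lit 18) .nil))))) (.g (nat_lit 0) (.e (nat_lit 347572) (nat_lit 0) .nil) .nil))))))) (.nd (nat_lit 6) (.nd (nat_lit 7) (.nd (nat_lit 8) (.nd (nat_lit 9) 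
(.lf (nat_lit 568357) (.g (nat_lit 1239) (.e (nat_lit 450584) (nat_lit 9) (.e (nat_lit 573184) (nat_lit 6) (.e (nat_lit 81943) (nat_lit 20) (.e (nat_lit 2391) (nat_lit 156) (.e (nat_lit 819203) (nat_lit 0) (.e (nat_lit 3022) (nat_lit 187) .nil)))))) (.g (nat_lit 1) (.e (nat_lit 343401) (nat_lit 0) .nil) .nil))) 
(.lf (nat_lit 568869) (.g (nat_lit 2282) (.e (nat_lit 458789) (nat_lit 23) (.e (nat_lit 532513) (nat_lit 3) (.e (nat_lit 114718) (nat_lit 23) (.e (nat_lit 98334) (nat_lit 18) (.e (nat_lit 164403) (nat_lit 256) .nil))))) (.g (nat_lit 0) (.e (nat_lit 346232) (nat_lit 0) .nil) .nil)))) (.nd (nat_lit 9) 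
(.lf (nat_lit 568613) (.g (nat_lit 1547) (.e (nat_lit 466688) (nat_lit 5) (.e (nat_lit 73731) (nat_lit 0) (.e (nat_lit 7266) (nat_lit 384) (.e (nat_lit 57423) (nat_lit 14) (.e (nat_lit 360192) (nat_lit 15) .nil))))) (.g (nat_lit 0) (.e (nat_lit 345612) (nat_lit 0) .nil) .nil))) 
(.lf (nat_lit 569125) (.g (nat_lit 1756) (.e (nat_lit 466947) (nat_lit 0) (.e (nat_lit 2174) (nat_lit 143) (.e (nat_lit 712745) (nat_lit 27) (.e (nat_lit 425984) (nat_lit 0) (.e (nat_lit 7586) (nat_lit 406) (.e (nat_lit 73472) (nat_lit 32) .nil)))))) (.g (nat_lit 1) (.e (nat_lit 347121) (nat_lit 0) .nil) .nil))))) (.nd (nat_lit 8) (.nd (nat_lit 9) 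
(.lf (nat_lit 568485) (.g (nat_lit 2619) (.e (nat_lit 450593) (nat_lit 16) (.e (nat_lit 655378) (nat_lit 4) (.e (nat_lit 172125) (nat_lit 14) (.e (nat_lit 491550) (nat_lit 9) (.e (nat_lit 336434) (nat_lit 30) .nil))))) (.g (nat_lit 1) (.e (nat_lit 343880) (nat_lit 0) .nil) .nil))) 
(.lf (nat_lit 568997) (.g (nat_lit 2162) (.e (nat_lit 458789) (nat_lit 23) (.e (nat_lit 532569) (nat_lit 16) (.e (nat_lit 401460) (nat_lit 14) (.e (nat_lit 491540) (nat_lit 3) (.e (nat_lit 98365) (nat_lit 26) .nil))))) (.g (nat_lit 0) (.e (nat_lit 346860) (nat_lit 0) .nil) .nil)))) (.nd (nat_lit 9) 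
(.lf (nat_lit 568741) (.g (nat_lit 3769) (.e (nat_lit 458788) (nat_lit 23) (.e (nat_lit 532550) (nat_lit 12) (.e (nat_lit 360474) (nat_lit 8) (.e (nat_lit 557093) (nat_lit 12) .nil)))) (.g (nat_lit 0) (.e (nat_lit 346024) (nat_lit 0) .nil) .nil))) 
(.lf (nat_lit 569253) (.g (nat_lit 1289) (.e (nat_lit 466954) (nat_lit 11) (.e (nat_lit 335986) (nat_lit 1) (.e (nat_lit 57691) (nat_lit 156) (.e (nat_lit 163913) (nat_lit 12) .nil)))) (.g (nat_lit 0) (.e (nat_lit 347540) (nat_lit 0) .nil) .nil)))))) (.nd (nat_lit 7) (.nd (nat_lit 8) (.nd (nat_lit 9) 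
(.lf (nat_lit 568421) (.g (nat_lit 4550) (.e (nat_lit 450595) (nat_lit 17) (.e (nat_lit 663589) (nat_lit 14) (.e (nat_lit 2798) (nat_lit 180) (.e (nat_lit 303143) (nat_lit 12) (.e (nat_lit 475211) (nat_lit 41) (.e (nat_lit 712753) (nat_lit 30) .nil)))))) (.g (nat_lit 1) (.e (nat_lit 343627) (nat_lit 0) .nil) .nil))) 
(.lf (nat_lit 568933) (.g (nat_lit 5328) (.e (nat_lit 458789) (nat_lit 23) (.e (nat_lit 532550) (nat_lit 12) (.e (nat_lit 360474) (nat_lit 8) (.e (nat_lit 557089) (nat_lit 12) .nil)))) (.g (nat_lit 0) (.e (nat_lit 346555) (nat_lit 0) .nil) .nil)))) (.nd (nat_lit 9) 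
(.lf (nat_lit 568677) (.g (nat_lit 1343) (.e (nat_lit 458774) (nat_lit 18) (.e (nat_lit 5547) (nat_lit 306) (.e (nat_lit 2638) (nat_lit 165) (.e (nat_lit 180278) (nat_lit 32) .nil)))) (.g (nat_lit 0) (.e (nat_lit 345830) (nat_lit 0) .nil) .nil))) 
(.lf (nat_lit 569189) (.g (nat_lit 2572) (.e (nat_lit 466950) (nat_lit 11) (.e (nat_lit 335995) (nat_lit 1) (.e (nat_lit 57688) (nat_lit 156) (.e (nat_lit 163907) (nat_lit 12) (.e (nat_lit 426438) (nat_lit 18) .nil))))) (.g (nat_lit 0) (.e (nat_lit 347254) (nat_lit 0) .nil) .nil))))) (.nd (nat_lit 8) (.nd (nat_lit 9) 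
(.lf (nat_lit 568549) (.g (nat_lit 1307) (.e (nat_lit 450605) (nat_lit 27) (.e (nat_lit 745493) (nat_lit 6) (.e (nat_lit 81938) (nat_lit 20) (.e (nat_lit 1885) (nat_lit 127) (.e (nat_lit 581636) (nat_lit 0) (.e (nat_lit 3022) (nat_lit 187) .nil)))))) (.g (nat_lit 1) (.e (nat_lit 345477) (nat_lit 0) .nil) .nil))) 
(.lf (nat_lit 569061) (.g (nat_lit 1362) (.e (nat_lit 466944) (nat_lit 0) (.e (nat_lit 1796) (nat_lit 119) (.e (nat_lit 516120) (nat_lit 1) (.e (nat_lit 164329) (nat_lit 230) (.e (nat_lit 163942) (nat_lit 19) .nil))))) (.g (nat_lit 0) (.e (nat_lit 347016) (nat_lit 0) .nil) .nil)))) (.nd (nat_lit 9) 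
(.lf (nat_lit 568805) (.g (nat_lit 2025) (.e (nat_lit 458789) (nat_lit 23) (.e (nat_lit 532501) (nat_lit 1) (.e (nat_lit 57689) (nat_lit 156) (.e (nat_lit 163905) (nat_lit 12) (.e (nat_lit 426568) (nat_lit 34) (.e (nat_lit 393287) (nat_lit 25) .nil)))))) (.g (nat_lit 1) (.e (nat_lit 346122) (nat_lit 0) .nil) .nil))) 
(.lf (nat_lit 569317) (.g (nat_lit 2353) (.e (nat_lit 466954) (nat_lit 11) (.e (nat_lit 335995) (nat_lit 1) (.e (nat_lit 57691) (nat_lit 156) (.e (nat_lit 163907) (nat_lit 12) (.e (nat_lit 426437) (nat_lit 18) .nil))))) (.g (nat_lit 0) (.e (nat_lit 347605) (nat_lit 0) .nil) .nil)))))))) (.nd (nat_lit 5) (.nd (nat_lit 6) (.nd (nat_lit 7) (.nd (nat_lit 8) (.nd (nat_lit 9) 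
(.lf (nat_lit 568341) (.g (nat_lit 416) (.e (nat_lit 450588) (nat_lit 10) (.e (nat_lit 573503) (nat_lit 18) (.e (nat_lit 1015) (nat_lit 81) .nil))) (.g (nat_lit 0) (.e (nat_lit 343259) (nat_lit 0) .nil) .nil))) 
(.lf (nat_lit 568853) (.g (nat_lit 2250) (.e (nat_lit 458789) (nat_lit 23) (.e (nat_lit 532503) (nat_lit 1) (.e (nat_lit 57692) (nat_lit 156) (.e (nat_lit 163907) (nat_lit 12) (.e (nat_lit 426566) (nat_lit 34) .nil))))) (.g (nat_lit 0) (.e (nat_lit 346204) (nat_lit 0) .nil) .nil)))) (.nd (nat_lit 9) 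
(.lf (nat_lit 568597) (.g (nat_lit 1654) (.e (nat_lit 466688) (nat_lit 5) (.e (nat_lit 73729) (nat_lit 0) (.e (nat_lit 7266) (nat_lit 384) (.e (nat_lit 57435) (nat_lit 17) (.e (nat_lit 384768) (nat_lit 15) .nil))))) (.g (nat_lit 0) (.e (nat_lit 345595) (nat_lit 0) .nil) .nil))) 
(.lf (nat_lit 569109) (.g (nat_lit 1451) (.e (nat_lit 466947) (nat_lit 0) (.e (nat_lit 1846) (nat_lit 124) (.e (nat_lit 557101) (nat_lit 13) (.e (nat_lit 172126) (nat_lit 14) (.e (nat_lit 491540) (nat_lit 3) .nil))))) (.g (nat_lit 0) (.e (nat_lit 347096) (nat_lit 0) .nil) .nil))))) (.nd (nat_lit 8) (.nd (nat_lit 9) 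
(.lf (nat_lit 568469) (.g (nat_lit 1227) (.e (nat_lit 458496) (nat_lit 15) (.e (nat_lit 647183) (nat_lit 4) (.e (nat_lit 172126) (nat_lit 14) (.e (nat_lit 491547) (nat_lit 9) .nil)))) (.g (nat_lit 0) (.e (nat_lit 343712) (nat_lit 0) .nil) .nil))) 
(.lf (nat_lit 568981) (.g (nat_lit 2001) (.e (nat_lit 458789) (nat_lit 23) (.e (nat_lit 532569) (nat_lit 16) (.e (nat_lit 401448) (nat_lit 10) (.e (nat_lit 434246) (nat_lit 28) (.e (nat_lit 573470) (nat_lit 11) .nil))))) (.g (nat_lit 0) (.e (nat_lit 346842) (nat_lit 0) .nil) .nil)))) (.nd (nat_lit 9) 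
(.lf (nat_lit 568725) (.g (nat_lit 739) (.e (nat_lit 458788) (nat_lit 23) (.e (nat_lit 532503) (nat_lit 1) (.e (nat_lit 57654) (nat_lit 152) .nil))) (.g (nat_lit 0) (.e (nat_lit 345998) (nat_lit 0) .nil) .nil))) 
(.lf (nat_lit 569237) (.g (nat_lit 2500) (.e (nat_lit 466954) (nat_lit 11) (.e (nat_lit 335986) (nat_lit 1) (.e (nat_lit 57688) (nat_lit 156) (.e (nat_lit 163907) (nat_lit 12) (.e (nat_lit 426434) (nat_lit 18) (.e (nat_lit 98381) (nat_lit 31) .nil)))))) (.g (nat_lit 1) (.e (nat_lit 347524) (nat_lit 0) .nil) .nil)))))) (.nd (nat_lit 7) (.nd (nat_lit 8) (.nd (nat_lit 9) 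
(.lf (nat_lit 568405) (.g (nat_lit 1390) (.e (nat_lit 450595) (nat_lit 17) (.e (nat_lit 663574) (nat_lit 9) (.e (nat_lit 7936) (nat_lit 24) (.e (nat_lit 360484) (nat_lit 15) (.e (nat_lit 647190) (nat_lit 9) (.e (nat_lit 7936) (nat_lit 35) .nil)))))) (.g (nat_lit 1) (.e (nat_lit 343600) (nat_lit 0) .nil) .nil))) 
(.lf (nat_lit 568917) (.g (nat_lit 1673) (.e (nat_lit 458789) (nat_lit 23) (.e (nat_lit 532549) (nat_lit 12) (.e (nat_lit 360473) (nat_lit 8) (.e (nat_lit 557093) (nat_lit 12) .nil)))) (.g (nat_lit 0) (.e (nat_lit 346527) (nat_lit 0) .nil) .nil)))) (.nd (nat_lit 9) 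
(.lf (nat_lit 568661) (.g (nat_lit 2409) (.e (nat_lit 458774) (nat_lit 18) (.e (nat_lit 5224) (nat_lit 296) (.e (nat_lit 163875) (nat_lit 3) (.e (nat_lit 204829) (nat_lit 18) (.e (nat_lit 57931) (nat_lit 282) .nil))))) (.g (nat_lit 0) (.e (nat_lit 345751) (nat_lit 0) .nil) .nil))) 
(.lf (nat_lit 569173) (.g (nat_lit 2263) (.e (nat_lit 474880) (nat_lit 5) (.e (nat_lit 114711) (nat_lit 21) (.e (nat_lit 57847) (nat_lit 252) (.e (nat_lit 57424) (nat_lit 14) (.e (nat_lit 360192) (nat_lit 16) .nil))))) (.g (nat_lit 0) (.e (nat_lit 347215) (nat_lit 0) .nil) .nil))))) (.nd (nat_lit 8) (.nd (nat_lit 9) 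
(.lf (nat_lit 568533) (.g (nat_lit 1337) (.e (nat_lit 450605) (nat_lit 27) (.e (nat_lit 745491) (nat_lit 4) (.e (nat_lit 65611) (nat_lit 10) (.e (nat_lit 344138) (nat_lit 29) (.e (nat_lit 581636) (nat_lit 0) (.e (nat_lit 3022) (nat_lit 187) .nil)))))) (.g (nat_lit 1) (.e (nat_lit 345445) (nat_lit 0) .nil) .nil))) 
(.lf (nat_lit 569045) (.g (nat_lit 2510) (.e (nat_lit 458804) (nat_lit 38) (.e (nat_lit 655373) (nat_lit 3) (.e (nat_lit 163978) (nat_lit 30) (.e (nat_lit 573479) (nat_lit 13) (.e (nat_lit 65619) (nat_lit 10) .nil))))) (.g (nat_lit 0) (.e (nat_lit 346972) (nat_lit 0) .nil) .nil)))) (.nd (nat_lit 9) 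
(.lf (nat_lit 568789) (.g (nat_lit 2784) (.e (nat_lit 458789) (nat_lit 23) (.e (nat_lit 532499) (nat_lit 1) (.e (nat_lit 57688) (nat_lit 156) (.e (nat_lit 163903) (nat_lit 12) (.e (nat_lit 426566) (nat_lit 34) (.e (nat_lit 393285) (nat_lit 25) .nil)))))) (.g (nat_lit 1) (.e (nat_lit 346091) (nat_lit 0) .nil) .nil))) 
(.lf (nat_lit 569301) (.g (nat_lit 2303) (.e (nat_lit 466954) (nat_lit 11) (.e (nat_lit 335995) (nat_lit 1) (.e (nat_lit 57686) (nat_lit 156) (.e (nat_lit 163903) (nat_lit 12) (.e (nat_lit 426436) (nat_lit 18) .nil))))) (.g (nat_lit 0) (.e (nat_lit 347589) (nat_lit 0) .nil) .nil))))))) (.nd (nat_lit 6) (.nd (nat_lit 7) (.nd (nat_lit 8) (.nd (nat_lit 9) 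
(.lf (nat_lit 568373) (.g (nat_lit 1081) (.e (nat_lit 450591) (nat_lit 13) (.e (nat_lit 630821) (nat_lit 16) (.e (nat_lit 65617) (nat_lit 10) (.e (nat_lit 344157) (nat_lit 36) (.e (nat_lit 638985) (nat_lit 5) (.e (nat_lit 3027) (nat_lit 187) .nil)))))) (.g (nat_lit 1) (.e (nat_lit 343443) (nat_lit 0) .nil) .nil))) 
(.lf (nat_lit 568885) (.g (nat_lit 2545) (.e (nat_lit 458789) (nat_lit 23) (.e (nat_lit 532522) (nat_lit 7) (.e (nat_lit 319531) (nat_lit 16) (.e (nat_lit 286734) (nat_lit 3) (.e (nat_lit 98365) (nat_lit 26) .nil))))) (.g (nat_lit 0) (.e (nat_lit 346251) (nat_lit 0) .nil) .nil)))) (.nd (nat_lit 9) 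
(.lf (nat_lit 568629) (.g (nat_lit 2158) (.e (nat_lit 466688) (nat_lit 5) (.e (nat_lit 73775) (nat_lit 26) (.e (nat_lit 778466) (nat_lit 11) (.e (nat_lit 24625) (nat_lit 9) (.e (nat_lit 336439) (nat_lit 31) .nil))))) (.g (nat_lit 0) (.e (nat_lit 345632) (nat_lit 0) .nil) .nil))) 
(.lf (nat_lit 569141) (.g (nat_lit 1198) (.e (nat_lit 466949) (nat_lit 0) (.e (nat_lit 2059) (nat_lit 142) (.e (nat_lit 704595) (nat_lit 5) (.e (nat_lit 188160) (nat_lit 32) .nil)))) (.g (nat_lit 0) (.e (nat_lit 347141) (nat_lit 0) .nil) .nil))))) (.nd (nat_lit 8) (.nd (nat_lit 9) 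
(.lf (nat_lit 568501) (.g (nat_lit 2052) (.e (nat_lit 450601) (nat_lit 21) (.e (nat_lit 696344) (nat_lit 8) (.e (nat_lit 172115) (nat_lit 10) (.e (nat_lit 434209) (nat_lit 18) (.e (nat_lit 6426) (nat_lit 342) (.e (nat_lit 229413) (nat_lit 15) .nil)))))) (.g (nat_lit 1) (.e (nat_lit 344451) (nat_lit 0) .nil) .nil))) 
(.lf (nat_lit 569013) (.g (nat_lit 4304) (.e (nat_lit 458790) (nat_lit 23) (.e (nat_lit 532550) (nat_lit 12) (.e (nat_lit 360474) (nat_lit 8) (.e (nat_lit 557093) (nat_lit 12) .nil)))) (.g (nat_lit 0) (.e (nat_lit 346915) (nat_lit 0) .nil) .nil)))) (.nd (nat_lit 9) 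
(.lf (nat_lit 568757) (.g (nat_lit 4252) (.e (nat_lit 458788) (nat_lit 23) (.e (nat_lit 532550) (nat_lit 12) (.e (nat_lit 360475) (nat_lit 8) (.e (nat_lit 557091) (nat_lit 12) .nil)))) (.g (nat_lit 0) (.e (nat_lit 346041) (nat_lit 0) .nil) .nil))) 
(.lf (nat_lit 569269) (.g (nat_lit 2016) (.e (nat_lit 466954) (nat_lit 11) (.e (nat_lit 335988) (nat_lit 1) (.e (nat_lit 57685) (nat_lit 156) (.e (nat_lit 163902) (nat_lit 12) (.e (nat_lit 426438) (nat_lit 18) .nil))))) (.g (nat_lit 0) (.e (nat_lit 347556) (nat_lit 0) .nil) .nil)))))) (.nd (nat_lit 7) (.nd (nat_lit 8) (.nd (nat_lit 9) 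
(.lf (nat_lit 568437) (.g (nat_lit 1121) (.e (nat_lit 458496) (nat_lit 15) (.e (nat_lit 647183) (nat_lit 4) (.e (nat_lit 172080) (nat_lit 7) (.e (nat_lit 409642) (nat_lit 17) (.e (nat_lit 302848) (nat_lit 30) .nil))))) (.g (nat_lit 0) (.e (nat_lit 343677) (nat_lit 0) .nil) .nil))) 
(.lf (nat_lit 568949) (.g (nat_lit 151) (.e (nat_lit 458789) (nat_lit 23) (.e (nat_lit 532569) (nat_lit 16) (.e (nat_lit 401448) (nat_lit 10) .nil))) (.g (nat_lit 0) (.e (nat_lit 346804) (nat_lit 0) .nil) .nil)))) (.nd (nat_lit 9) 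
(.lf (nat_lit 568693) (.g (nat_lit 1139) (.e (nat_lit 466688) (nat_lit 18) (.e (nat_lit 5547) (nat_lit 306) (.e (nat_lit 2638) (nat_lit 165) (.e (nat_lit 188160) (nat_lit 32) .nil)))) (.g (nat_lit 0) (.e (nat_lit 345944) (nat_lit 0) .nil) .nil))) 
(.lf (nat_lit 569205) (.g (nat_lit 1787) (.e (nat_lit 466951) (nat_lit 11) (.e (nat_lit 336407) (nat_lit 27) (.e (nat_lit 426098) (nat_lit 1) (.e (nat_lit 164398) (nat_lit 256) (.e (nat_lit 57379) (nat_lit 3) .nil))))) (.g (nat_lit 0) (.e (nat_lit 347336) (nat_lit 0) .nil) .nil))))) (.nd (nat_lit 8) (.nd (nat_lit 9) 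
(.lf (nat_lit 568565) (.g (nat_lit 825) (.e (nat_lit 450605) (nat_lit 27) (.e (nat_lit 745493) (nat_lit 6) (.e (nat_lit 81943) (nat_lit 20) (.e (nat_lit 1886) (nat_lit 127) (.e (nat_lit 581636) (nat_lit 0) (.e (nat_lit 3027) (nat_lit 187) .nil)))))) (.g (nat_lit 1) (.e (nat_lit 345504) (nat_lit 0) .nil) .nil))) 
(.lf (nat_lit 569077) (.g (nat_lit 1233) (.e (nat_lit 466946) (nat_lit 0) (.e (nat_lit 2059) (nat_lit 142) (.e (nat_lit 704595) (nat_lit 5) (.e (nat_lit 180277) (nat_lit 32) .nil)))) (.g (nat_lit 0) (.e (nat_lit 347057) (nat_lit 0) .nil) .nil)))) (.nd (nat_lit 9) 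
(.lf (nat_lit 568821) (.g (nat_lit 2441) (.e (nat_lit 458789) (nat_lit 23) (.e (nat_lit 532502) (nat_lit 1) (.e (nat_lit 57688) (nat_lit 156) (.e (nat_lit 163907) (nat_lit 12) (.e (nat_lit 426566) (nat_lit 34) (.e (nat_lit 393287) (nat_lit 25) .nil)))))) (.g (nat_lit 1) (.e (nat_lit 346143) (nat_lit 0) .nil) .nil))) 
(.lf (nat_lit 569333) (.g (nat_lit 1398) (.e (nat_lit 466954) (nat_lit 11) (.e (nat_lit 335996) (nat_lit 1) (.e (nat_lit 57692) (nat_lit 156) (.e (nat_lit 163906) (nat_lit 12) (.e (nat_lit 426437) (nat_lit 18) .nil))))) (.g (nat_lit 0) (.e (nat_lit 347621) (nat_lit 0) .nil) .nil))))))))) (.nd (nat_lit 4) (.nd (nat_lit 5) (.nd (nat_lit 6) (.nd (nat_lit 7) (.nd (nat_lit 8) (.nd (nat_lit 9) 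
(.lf (nat_lit 568333) (.g (nat_lit 3136) (.e (nat_lit 450588) (nat_lit 10) (.e (nat_lit 573475) (nat_lit 12) (.e (nat_lit 57509) (nat_lit 39) (.e (nat_lit 647199) (nat_lit 11) (.e (nat_lit 16388) (nat_lit 0) (.e (nat_lit 3544) (nat_lit 219) (.e (nat_lit 712754) (nat_lit 30) .nil))))))) (.g (nat_lit 1) (.e (nat_lit 343201) (nat_lit 0) .nil) .nil))) 
(.lf (nat_lit 568845) (.g (nat_lit 807) (.e (nat_lit 458789) (nat_lit 23) (.e (nat_lit 532503) (nat_lit 1) (.e (nat_lit 57689) (nat_lit 156) .nil))) (.g (nat_lit 0) (.e (nat_lit 346190) (nat_lit 0) .nil) .nil)))) (.nd (nat_lit 9) 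
(.lf (nat_lit 568589) (.g (nat_lit 1432) (.e (nat_lit 466688) (nat_lit 5) (.e (nat_lit 73729) (nat_lit 0) (.e (nat_lit 7263) (nat_lit 384) (.e (nat_lit 57423) (nat_lit 14) (.e (nat_lit 360192) (nat_lit 15) .nil))))) (.g (nat_lit 0) (.e (nat_lit 345585) (nat_lit 0) .nil) .nil))) 
(.lf (nat_lit 569101) (.g (nat_lit 2457) (.e (nat_lit 466947) (nat_lit 0) (.e (nat_lit 1800) (nat_lit 119) (.e (nat_lit 516120) (nat_lit 1) (.e (nat_lit 164330) (nat_lit 230) (.e (nat_lit 163942) (nat_lit 19) (.e (nat_lit 491264) (nat_lit 14) .nil)))))) (.g (nat_lit 1) (.e (nat_lit 347087) (nat_lit 0) .nil) .nil))))) (.nd (nat_lit 8) (.nd (nat_lit 9) 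
(.lf (nat_lit 568461) (.g (nat_lit 1684) (.e (nat_lit 458496) (nat_lit 15) (.e (nat_lit 647183) (nat_lit 4) (.e (nat_lit 172115) (nat_lit 10) (.e (nat_lit 434272) (nat_lit 38) (.e (nat_lit 655363) (nat_lit 0) .nil))))) (.g (nat_lit 0) (.e (nat_lit 343702) (nat_lit 0) .nil) .nil))) 
(.lf (nat_lit 568973) (.g (nat_lit 2319) (.e (nat_lit 458789) (nat_lit 23) (.e (nat_lit 532569) (nat_lit 16) (.e (nat_lit 401448) (nat_lit 10) (.e (nat_lit 434244) (nat_lit 28) (.e (nat_lit 573458) (nat_lit 9) (.e (nat_lit 426) (nat_lit 32) (.e (nat_lit 426300) (nat_lit 11) .nil))))))) (.g (nat_lit 1) (.e (nat_lit 346834) (nat_lit 0) .nil) .nil)))) (.nd (nat_lit 9) 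
(.lf (nat_lit 568717) (.g (nat_lit 868) (.e (nat_lit 458787) (nat_lit 23) (.e (nat_lit 532550) (nat_lit 12) (.e (nat_lit 360475) (nat_lit 8) .nil))) (.g (nat_lit 0) (.e (nat_lit 345990) (nat_lit 0) .nil) .nil))) 
(.lf (nat_lit 569229) (.g (nat_lit 1744) (.e (nat_lit 466954) (nat_lit 11) (.e (nat_lit 335986) (nat_lit 1) (.e (nat_lit 57687) (nat_lit 156) (.e (nat_lit 163905) (nat_lit 12) (.e (nat_lit 426438) (nat_lit 18) .nil))))) (.g (nat_lit 0) (.e (nat_lit 347516) (nat_lit 0) .nil) .nil)))))) (.nd (nat_lit 7) (.nd (nat_lit 8) (.nd (nat_lit 9) 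
(.lf (nat_lit 568397) (.g (nat_lit 1324) (.e (nat_lit 450595) (nat_lit 17) (.e (nat_lit 663573) (nat_lit 9) (.e (nat_lit 7936) (nat_lit 24) (.e (nat_lit 360482) (nat_lit 15) (.e (nat_lit 647190) (nat_lit 9) (.e (nat_lit 7936) (nat_lit 35) .nil)))))) (.g (nat_lit 1) (.e (nat_lit 343591) (nat_lit 0) .nil) .nil))) 
(.lf (nat_lit 568909) (.g (nat_lit 4248) (.e (nat_lit 458789) (nat_lit 23) (.e (nat_lit 532530) (nat_lit 9) (.e (nat_lit 336310) (nat_lit 16) (.e (nat_lit 164179) (nat_lit 154) (.e (nat_lit 57378) (nat_lit 3) (.e (nat_lit 98333) (nat_lit 18) (.e (nat_lit 164325) (nat_lit 230) (.e (nat_lit 163926) (nat_lit 16) .nil)))))))) (.g (nat_lit 1) (.e (nat_lit 346349) (nat_lit 0) .nil) .nil)))) 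
(.nd (nat_lit 9) 
(.lf (nat_lit 568653) (.g (nat_lit 1060) (.e (nat_lit 458769) (nat_lit 16) (.e (nat_lit 164293) (nat_lit 224) (.e (nat_lit 164112) (nat_lit 118) (.e (nat_lit 794635) (nat_lit 11) (.e (nat_lit 336154) (nat_lit 9) (.e (nat_lit 336437) (nat_lit 31) .nil)))))) (.g (nat_lit 1) (.e (nat_lit 345695) (nat_lit 0) .nil) .nil))) 
(.lf (nat_lit 569165) (.g (nat_lit 1601) (.e (nat_lit 474880) (nat_lit 3) (.e (nat_lit 98335) (nat_lit 18) (.e (nat_lit 164332) (nat_lit 230) (.e (nat_lit 163943) (nat_lit 19) (.e (nat_lit 491264) (nat_lit 14) .nil))))) (.g (nat_lit 0) (.e (nat_lit 347207) (nat_lit 0) .nil) .nil))))) (.nd (nat_lit 8) (.nd (nat_lit 9) 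
(.lf (nat_lit 568525) (.g (nat_lit 1132) (.e (nat_lit 450605) (nat_lit 27) (.e (nat_lit 745476) (nat_lit 0) (.e (nat_lit 1599) (nat_lit 111) (.e (nat_lit 360477) (nat_lit 11) (.e (nat_lit 581635) (nat_lit 0) .nil))))) (.g (nat_lit 0) (.e (nat_lit 345432) (nat_lit 0) .nil) .nil))) 
(.lf (nat_lit 569037) (.g (nat_lit 4125) (.e (nat_lit 458795) (nat_lit 28) (.e (nat_lit 573471) (nat_lit 11) (.e (nat_lit 16470) (nat_lit 14) (.e (nat_lit 491540) (nat_lit 3) .nil)))) (.g (nat_lit 0) (.e (nat_lit 346952) (nat_lit 0) .nil) .nil)))) (.nd (nat_lit 9) 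
(.lf (nat_lit 568781) (.g (nat_lit 643) (.e (nat_lit 458789) (nat_lit 23) (.e (nat_lit 532499) (nat_lit 1) (.e (nat_lit 57652) (nat_lit 152) .nil))) (.g (nat_lit 0) (.e (nat_lit 346080) (nat_lit 0) .nil) .nil))) 
(.lf (nat_lit 569293) (.g (nat_lit 2897) (.e (nat_lit 466954) (nat_lit 11) (.e (nat_lit 335994) (nat_lit 1) (.e (nat_lit 57688) (nat_lit 156) (.e (nat_lit 163907) (nat_lit 12) (.e (nat_lit 426438) (nat_lit 18) (.e (nat_lit 98381) (nat_lit 31) .nil)))))) (.g (nat_lit 1) (.e (nat_lit 347580) (nat_lit 0) .nil) .nil))))))) (.nd (nat_lit 6) (.nd (nat_lit 7) (.nd (nat_lit 8) (.nd (nat_lit 9) 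
(.lf (nat_lit 568365) (.g (nat_lit 1087) (.e (nat_lit 450591) (nat_lit 13) (.e (nat_lit 630821) (nat_lit 16) (.e (nat_lit 65616) (nat_lit 10) (.e (nat_lit 344157) (nat_lit 36) (.e (nat_lit 638985) (nat_lit 5) (.e (nat_lit 3016) (nat_lit 187) .nil)))))) (.g (nat_lit 1) (.e (nat_lit 343435) (nat_lit 0) .nil) .nil))) 
(.lf (nat_lit 568877) (.g (nat_lit 1944) (.e (nat_lit 458789) (nat_lit 23) (.e (nat_lit 532515) (nat_lit 3) (.e (nat_lit 114719) (nat_lit 23) (.e (nat_lit 98334) (nat_lit 18) (.e (nat_lit 164396) (nat_lit 256) .nil))))) (.g (nat_lit 0) (.e (nat_lit 346243) (nat_lit 0) .nil) .nil)))) (.nd (nat_lit 9) 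
(.lf (nat_lit 568621) (.g (nat_lit 1185) (.e (nat_lit 466688) (nat_lit 5) (.e (nat_lit 73775) (nat_lit 26) (.e (nat_lit 778362) (nat_lit 9) (.e (nat_lit 309) (nat_lit 23) .nil)))) (.g (nat_lit 0) (.e (nat_lit 345621) (nat_lit 0) .nil) .nil))) 
(.lf (nat_lit 569133) (.g (nat_lit 1229) (.e (nat_lit 466949) (nat_lit 0) (.e (nat_lit 1800) (nat_lit 119) (.e (nat_lit 516119) (nat_lit 1) (.e (nat_lit 164325) (nat_lit 230) .nil)))) (.g (nat_lit 0) (.e (nat_lit 347132) (nat_lit 0) .nil) .nil))))) (.nd (nat_lit 8) (.nd (nat_lit 9) 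
(.lf (nat_lit 568493) (.g (nat_lit 2109) (.e (nat_lit 450601) (nat_lit 21) (.e (nat_lit 696344) (nat_lit 8) (.e (nat_lit 172106) (nat_lit 10) (.e (nat_lit 434209) (nat_lit 18) (.e (nat_lit 6426) (nat_lit 342) (.e (nat_lit 229414) (nat_lit 15) .nil)))))) (.g (nat_lit 1) (.e (nat_lit 344381) (nat_lit 0) .nil) .nil))) 
(.lf (nat_lit 569005) (.g (nat_lit 859) (.e (nat_lit 458790) (nat_lit 23) (.e (nat_lit 532503) (nat_lit 1) (.e (nat_lit 57667) (nat_lit 152) .nil))) (.g (nat_lit 0) (.e (nat_lit 346897) (nat_lit 0) .nil) .nil)))) (.nd (nat_lit 9) 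
(.lf (nat_lit 568749) (.g (nat_lit 4056) (.e (nat_lit 458788) (nat_lit 23) (.e (nat_lit 532550) (nat_lit 12) (.e (nat_lit 360474) (nat_lit 8) (.e (nat_lit 557094) (nat_lit 12) (.e (nat_lit 163847) (nat_lit 0) (.e (nat_lit 6420) (nat_lit 341) (.e (nat_lit 163929) (nat_lit 16) .nil))))))) (.g (nat_lit 1) (.e (nat_lit 346032) (nat_lit 0) .nil) .nil))) 
(.lf (nat_lit 569261) (.g (nat_lit 2645) (.e (nat_lit 466954) (nat_lit 11) (.e (nat_lit 335987) (nat_lit 1) (.e (nat_lit 57691) (nat_lit 156) (.e (nat_lit 163907) (nat_lit 12) (.e (nat_lit 426438) (nat_lit 18) (.e (nat_lit 98380) (nat_lit 31) .nil)))))) (.g (nat_lit 1) (.e (nat_lit 347548) (nat_lit 0) .nil) .nil)))))) (.nd (nat_lit 7) (.nd (nat_lit 8) (.nd (nat_lit 9) 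
(.lf (nat_lit 568429) (.g (nat_lit 1430) (.e (nat_lit 450597) (nat_lit 17) (.e (nat_lit 663574) (nat_lit 9) (.e (nat_lit 7936) (nat_lit 24) (.e (nat_lit 360484) (nat_lit 15) (.e (nat_lit 647195) (nat_lit 9) (.e (nat_lit 7936) (nat_lit 35) .nil)))))) (.g (nat_lit 1) (.e (nat_lit 343645) (nat_lit 0) .nil) .nil))) 
(.lf (nat_lit 568941) (.g (nat_lit 6271) (.e (nat_lit 458789) (nat_lit 23) (.e (nat_lit 532550) (nat_lit 12) (.e (nat_lit 360475) (nat_lit 8) (.e (nat_lit 557090) (nat_lit 12) .nil)))) (.g (nat_lit 0) (.e (nat_lit 346565) (nat_lit 0) .nil) .nil)))) (.nd (nat_lit 9) 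
(.lf (nat_lit 568685) (.g (nat_lit 1024) (.e (nat_lit 458774) (nat_lit 18) (.e (nat_lit 5548) (nat_lit 306) (.e (nat_lit 2638) (nat_lit 165) (.e (nat_lit 180277) (nat_lit 32) .nil)))) (.g (nat_lit 0) (.e (nat_lit 345861) (nat_lit 0) .nil) .nil))) 
(.lf (nat_lit 569197) (.g (nat_lit 1912) (.e (nat_lit 466950) (nat_lit 11) (.e (nat_lit 335996) (nat_lit 1) (.e (nat_lit 57691) (nat_lit 156) (.e (nat_lit 163939) (nat_lit 18) .nil)))) (.g (nat_lit 0) (.e (nat_lit 347262) (nat_lit 0) .nil) .nil))))) (.nd (nat_lit 8) (.nd (nat_lit 9) 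
(.lf (nat_lit 568557) (.g (nat_lit 734) (.e (nat_lit 450605) (nat_lit 27) (.e (nat_lit 745493) (nat_lit 6) (.e (nat_lit 81939) (nat_lit 20) (.e (nat_lit 1886) (nat_lit 127) (.e (nat_lit 581636) (nat_lit 0) (.e (nat_lit 3027) (nat_lit 187) .nil)))))) (.g (nat_lit 1) (.e (nat_lit 345491) (nat_lit 0) .nil) .nil))) 
(.lf (nat_lit 569069) (.g (nat_lit 971) (.e (nat_lit 466945) (nat_lit 0) (.e (nat_lit 1796) (nat_lit 119) (.e (nat_lit 516127) (nat_lit 2) (.e (nat_lit 213030) (nat_lit 11) (.e (nat_lit 24609) (nat_lit 3) .nil))))) (.g (nat_lit 0) (.e (nat_lit 347046) (nat_lit 0) .nil) .nil)))) (.nd (nat_lit 9) 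
(.lf (nat_lit 568813) (.g (nat_lit 682) (.e (nat_lit 458789) (nat_lit 23) (.e (nat_lit 532501) (nat_lit 1) (.e (nat_lit 57777) (nat_lit 233) .nil))) (.g (nat_lit 0) (.e (nat_lit 346133) (nat_lit 0) .nil) .nil))) 
(.lf (nat_lit 569325) (.g (nat_lit 423) (.e (nat_lit 466954) (nat_lit 11) (.e (nat_lit 335996) (nat_lit 1) (.e (nat_lit 57691) (nat_lit 156) .nil))) (.g (nat_lit 0) (.e (nat_lit 347613) (nat_lit 0) .nil) .nil)))))))) (.nd (nat_lit 5) (.nd (nat_lit 6) (.nd (nat_lit 7) (.nd (nat_lit 8) (.nd (nat_lit 9) 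
(.lf (nat_lit 568349) (.g (nat_lit 2064) (.e (nat_lit 450584) (nat_lit 9) (.e (nat_lit 565252) (nat_lit 0) (.e (nat_lit 1589) (nat_lit 111) (.e (nat_lit 360493) (nat_lit 27) (.e (nat_lit 819204) (nat_lit 0) (.e (nat_lit 3016) (nat_lit 187) .nil)))))) (.g (nat_lit 1) (.e (nat_lit 343327) (nat_lit 0) .nil) .nil))) 
(.lf (nat_lit 568861) (.g (nat_lit 856) (.e (nat_lit 458789) (nat_lit 23) (.e (nat_lit 532504) (nat_lit 1) (.e (nat_lit 57690) (nat_lit 156) .nil))) (.g (nat_lit 0) (.e (nat_lit 346217) (nat_lit 0) .nil) .nil)))) (.nd (nat_lit 9) 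
(.lf (nat_lit 568605) (.g (nat_lit 935) (.e (nat_lit 466688) (nat_lit 5) (.e (nat_lit 73731) (nat_lit 0) (.e (nat_lit 7261) (nat_lit 384) (.e (nat_lit 57424) (nat_lit 14) (.e (nat_lit 360192) (nat_lit 15) .nil))))) (.g (nat_lit 0) (.e (nat_lit 345603) (nat_lit 0) .nil) .nil))) 
(.lf (nat_lit 569117) (.g (nat_lit 1195) (.e (nat_lit 466947) (nat_lit 0) (.e (nat_lit 2058) (nat_lit 142) (.e (nat_lit 704599) (nat_lit 6) (.e (nat_lit 188453) (nat_lit 24) (.e (nat_lit 229681) (nat_lit 244) .nil))))) (.g (nat_lit 0) (.e (nat_lit 347109) (nat_lit 0) .nil) .nil))))) (.nd (nat_lit 8) (.nd (nat_lit 9) 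
(.lf (nat_lit 568477) (.g (nat_lit 2528) (.e (nat_lit 450593) (nat_lit 16) (.e (nat_lit 655377) (nat_lit 4) (.e (nat_lit 172126) (nat_lit 14) (.e (nat_lit 491550) (nat_lit 9) (.e (nat_lit 336434) (nat_lit 30) .nil))))) (.g (nat_lit 1) (.e (nat_lit 343803) (nat_lit 0) .nil) .nil))) 
(.lf (nat_lit 568989) (.g (nat_lit 1578) (.e (nat_lit 458789) (nat_lit 23) (.e (nat_lit 532569) (nat_lit 16) (.e (nat_lit 401448) (nat_lit 10) (.e (nat_lit 434248) (nat_lit 28) .nil)))) (.g (nat_lit 0) (.e (nat_lit 346850) (nat_lit 0) .nil) .nil)))) (.nd (nat_lit 9) 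
(.lf (nat_lit 568733) (.g (nat_lit 2159) (.e (nat_lit 458788) (nat_lit 23) (.e (nat_lit 532522) (nat_lit 7) (.e (nat_lit 319534) (nat_lit 16) (.e (nat_lit 286734) (nat_lit 3) .nil)))) (.g (nat_lit 0) (.e (nat_lit 346006) (nat_lit 0) .nil) .nil))) 
(.lf (nat_lit 569245) (.g (nat_lit 1295) (.e (nat_lit 466954) (nat_lit 11) (.e (nat_lit 335986) (nat_lit 1) (.e (nat_lit 57691) (nat_lit 156) (.e (nat_lit 163906) (nat_lit 12) .nil)))) (.g (nat_lit 0) (.e (nat_lit 347532) (nat_lit 0) .nil) .nil)))))) (.nd (nat_lit 7) (.nd (nat_lit 8) (.nd (nat_lit 9) 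
(.lf (nat_lit 568413) (.g (nat_lit 1514) (.e (nat_lit 450595) (nat_lit 17) (.e (nat_lit 663580) (nat_lit 9) (.e (nat_lit 7936) (nat_lit 24) (.e (nat_lit 360484) (nat_lit 15) (.e (nat_lit 647196) (nat_lit 9) (.e (nat_lit 7936) (nat_lit 35) .nil)))))) (.g (nat_lit 1) (.e (nat_lit 343610) (nat_lit 0) .nil) .nil))) 
(.lf (nat_lit 568925) (.g (nat_lit 3653) (.e (nat_lit 458789) (nat_lit 23) (.e (nat_lit 532549) (nat_lit 12) (.e (nat_lit 360475) (nat_lit 8) (.e (nat_lit 557090) (nat_lit 12) .nil)))) (.g (nat_lit 0) (.e (nat_lit 346540) (nat_lit 0) .nil) .nil)))) (.nd (nat_lit 9) 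
(.lf (nat_lit 568669) (.g (nat_lit 4600) (.e (nat_lit 458774) (nat_lit 18) (.e (nat_lit 5547) (nat_lit 306) (.e (nat_lit 2610) (nat_lit 163) (.e (nat_lit 163977) (nat_lit 30) (.e (nat_lit 573492) (nat_lit 15) (.e (nat_lit 81956) (nat_lit 23) (.e (nat_lit 98376) (nat_lit 30) .nil))))))) (.g (nat_lit 1) (.e (nat_lit 345790) (nat_lit 0) .nil) .nil))) 
(.lf (nat_lit 569181) (.g (nat_lit 599) (.e (nat_lit 466950) (nat_lit 11) (.e (nat_lit 335995) (nat_lit 1) (.e (nat_lit 57688) (nat_lit 156) .nil))) (.g (nat_lit 0) (.e (nat_lit 347246) (nat_lit 0) .nil) .nil))))) (.nd (nat_lit 8) (.nd (nat_lit 9) 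
(.lf (nat_lit 568541) (.g (nat_lit 1685) (.e (nat_lit 450605) (nat_lit 27) (.e (nat_lit 745491) (nat_lit 4) (.e (nat_lit 65619) (nat_lit 10) (.e (nat_lit 344138) (nat_lit 29) (.e (nat_lit 581636) (nat_lit 0) (.e (nat_lit 3015) (nat_lit 187) .nil)))))) (.g (nat_lit 1) (.e (nat_lit 345458) (nat_lit 0) .nil) .nil))) 
(.lf (nat_lit 569053) (.g (nat_lit 1509) (.e (nat_lit 458810) (nat_lit 43) (.e (nat_lit 696344) (nat_lit 8) (.e (nat_lit 172115) (nat_lit 10) (.e (nat_lit 434202) (nat_lit 18) (.e (nat_lit 6416) (nat_lit 341) .nil))))) (.g (nat_lit 0) (.e (nat_lit 347000) (nat_lit 0) .nil) .nil)))) (.nd (nat_lit 9) 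
(.lf (nat_lit 568797) (.g (nat_lit 2474) (.e (nat_lit 458789) (nat_lit 23) (.e (nat_lit 532499) (nat_lit 1) (.e (nat_lit 57692) (nat_lit 156) (.e (nat_lit 163907) (nat_lit 12) (.e (nat_lit 426566) (nat_lit 34) (.e (nat_lit 393285) (nat_lit 25) .nil)))))) (.g (nat_lit 1) (.e (nat_lit 346104) (nat_lit 0) .nil) .nil))) 
(.lf (nat_lit 569309) (.g (nat_lit 2941) (.e (nat_lit 466954) (nat_lit 11) (.e (nat_lit 335995) (nat_lit 1) (.e (nat_lit 57688) (nat_lit 156) (.e (nat_lit 163905) (nat_lit 12) (.e (nat_lit 426438) (nat_lit 18) (.e (nat_lit 98380) (nat_lit 31) .nil)))))) (.g (nat_lit 1) (.e (nat_lit 347597) (nat_lit 0) .nil) .nil))))))) (.nd (nat_lit 6) (.nd (nat_lit 7) (.nd (nat_lit 8) (.nd (nat_lit 9) 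
(.lf (nat_lit 568381) (.g (nat_lit 761) (.e (nat_lit 450591) (nat_lit 13) (.e (nat_lit 630821) (nat_lit 16) (.e (nat_lit 65620) (nat_lit 10) (.e (nat_lit 344157) (nat_lit 36) (.e (nat_lit 638985) (nat_lit 5) (.e (nat_lit 3028) (nat_lit 187) .nil)))))) (.g (nat_lit 1) (.e (nat_lit 343452) (nat_lit 0) .nil) .nil))) 
(.lf (nat_lit 568893) (.g (nat_lit 2743) (.e (nat_lit 458789) (nat_lit 23) (.e (nat_lit 532523) (nat_lit 7) (.e (nat_lit 319530) (nat_lit 16) (.e (nat_lit 286727) (nat_lit 0) (.e (nat_lit 1799) (nat_lit 119) .nil))))) (.g (nat_lit 0) (.e (nat_lit 346259) (nat_lit 0) .nil) .nil)))) (.nd (nat_lit 9) 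
(.lf (nat_lit 568637) (.g (nat_lit 1085) (.e (nat_lit 466688) (nat_lit 5) (.e (nat_lit 73776) (nat_lit 26) (.e (nat_lit 778362) (nat_lit 9) (.e (nat_lit 309) (nat_lit 23) .nil)))) (.g (nat_lit 0) (.e (nat_lit 345644) (nat_lit 0) .nil) .nil))) 
(.lf (nat_lit 569149) (.g (nat_lit 1369) (.e (nat_lit 474880) (nat_lit 3) (.e (nat_lit 98333) (nat_lit 18) (.e (nat_lit 164325) (nat_lit 230) (.e (nat_lit 163944) (nat_lit 19) (.e (nat_lit 491264) (nat_lit 14) .nil))))) (.g (nat_lit 0) (.e (nat_lit 347164) (nat_lit 0) .nil) .nil))))) (.nd (nat_lit 8) (.nd (nat_lit 9) 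
(.lf (nat_lit 568509) (.g (nat_lit 510) (.e (nat_lit 458496) (nat_lit 26) (.e (nat_lit 737300) (nat_lit 7) (.e (nat_lit 286755) (nat_lit 10) (.e (nat_lit 344123) (nat_lit 24) (.e (nat_lit 548608) (nat_lit 29) .nil))))) (.g (nat_lit 0) (.e (nat_lit 345415) (nat_lit 0) .nil) .nil))) 
(.lf (nat_lit 569021) (.g (nat_lit 3268) (.e (nat_lit 458791) (nat_lit 24) (.e (nat_lit 540706) (nat_lit 12) (.e (nat_lit 360475) (nat_lit 8) (.e (nat_lit 557090) (nat_lit 12) (.e (nat_lit 163844) (nat_lit 0) .nil))))) (.g (nat_lit 0) (.e (nat_lit 346927) (nat_lit 0) .nil) .nil)))) (.nd (nat_lit 9) 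
(.lf (nat_lit 568765) (.g (nat_lit 3341) (.e (nat_lit 458789) (nat_lit 23) (.e (nat_lit 532481) (nat_lit 0) (.e (nat_lit 6724) (nat_lit 362) (.e (nat_lit 180250) (nat_lit 10) (.e (nat_lit 573470) (nat_lit 11) (.e (nat_lit 16454) (nat_lit 11) .nil)))))) (.g (nat_lit 1) (.e (nat_lit 346054) (nat_lit 0) .nil) .nil))) 
(.lf (nat_lit 569277) (.g (nat_lit 2245) (.e (nat_lit 466954) (nat_lit 11) (.e (nat_lit 335988) (nat_lit 1) (.e (nat_lit 57691) (nat_lit 156) (.e (nat_lit 163907) (nat_lit 12) (.e (nat_lit 426437) (nat_lit 18) (.e (nat_lit 98381) (nat_lit 31) .nil)))))) (.g (nat_lit 1) (.e (nat_lit 347564) (nat_lit 0) .nil) .nil)))))) (.nd (nat_lit 7) (.nd (nat_lit 8) (.nd (nat_lit 9) 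
(.lf (nat_lit 568445) (.g (nat_lit 1277) (.e (nat_lit 458496) (nat_lit 15) (.e (nat_lit 647183) (nat_lit 4) (.e (nat_lit 172107) (nat_lit 10) (.e (nat_lit 434271) (nat_lit 38) (.e (nat_lit 655362) (nat_lit 0) .nil))))) (.g (nat_lit 0) (.e (nat_lit 343686) (nat_lit 0) .nil) .nil))) 
(.lf (nat_lit 568957) (.g (nat_lit 4295) (.e (nat_lit 458789) (nat_lit 23) (.e (nat_lit 532569) (nat_lit 16) (.e (nat_lit 401448) (nat_lit 10) (.e (nat_lit 434231) (nat_lit 23) (.e (nat_lit 532483) (nat_lit 0) (.e (nat_lit 7936) (nat_lit 357) (.e (nat_lit 3033) (nat_lit 188) .nil))))))) (.g (nat_lit 1) (.e (nat_lit 346814) (nat_lit 0) .nil) .nil)))) (.nd (nat_lit 9) 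
(.lf (nat_lit 568701) (.g (nat_lit 2348) (.e (nat_lit 458787) (nat_lit 23) (.e (nat_lit 532522) (nat_lit 7) (.e (nat_lit 319530) (nat_lit 16) (.e (nat_lit 286735) (nat_lit 3) (.e (nat_lit 98365) (nat_lit 26) .nil))))) (.g (nat_lit 0) (.e (nat_lit 345963) (nat_lit 0) .nil) .nil))) 
(.lf (nat_lit 569213) (.g (nat_lit 1013) (.e (nat_lit 466952) (nat_lit 11) (.e (nat_lit 336406) (nat_lit 27) (.e (nat_lit 426100) (nat_lit 1) (.e (nat_lit 164399) (nat_lit 256) .nil)))) (.g (nat_lit 0) (.e (nat_lit 347456) (nat_lit 0) .nil) .nil))))) (.nd (nat_lit 8) (.nd (nat_lit 9) 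
(.lf (nat_lit 568573) (.g (nat_lit 1267) (.e (nat_lit 450605) (nat_lit 27) (.e (nat_lit 745493) (nat_lit 6) (.e (nat_lit 81947) (nat_lit 20) (.e (nat_lit 1886) (nat_lit 127) (.e (nat_lit 581636) (nat_lit 0) (.e (nat_lit 3022) (nat_lit 187) .nil)))))) (.g (nat_lit 1) (.e (nat_lit 345519) (nat_lit 0) .nil) .nil))) 
(.lf (nat_lit 569085) (.g (nat_lit 2022) (.e (nat_lit 466947) (nat_lit 0) (.e (nat_lit 1800) (nat_lit 119) (.e (nat_lit 516117) (nat_lit 1) (.e (nat_lit 164329) (nat_lit 230) (.e (nat_lit 163942) (nat_lit 19) (.e (nat_lit 491264) (nat_lit 14) .nil)))))) (.g (nat_lit 1) (.e (nat_lit 347071) (nat_lit 0) .nil) .nil)))) (.nd (nat_lit 9) 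
(.lf (nat_lit 568829) (.g (nat_lit 800) (.e (nat_lit 458789) (nat_lit 23) (.e (nat_lit 532503) (nat_lit 1) (.e (nat_lit 57652) (nat_lit 152) .nil))) (.g (nat_lit 0) (.e (nat_lit 346154) (nat_lit 0) .nil) .nil))) 
(.lf (nat_lit 569341) (.g (nat_lit 734) (.e (nat_lit 466954) (nat_lit 11) (.e (nat_lit 336288) (nat_lit 15) (.e (nat_lit 7106) (nat_lit 380) (.e (nat_lit 171776) (nat_lit 247) .nil)))) (.g (nat_lit 0) (.e (nat_lit 347866) (nat_lit 0) .nil) .nil))))))))))) (.nd (nat_lit 2) (.nd (nat_lit 3) (.nd (nat_lit 4) (.nd (nat_lit 5) (.nd (nat_lit 6) (.nd (nat_lit 7) (.nd (nat_lit 8) (.nd (nat_lit 9) 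
(.lf (nat_lit 568323) (.g (nat_lit 1792) (.e (nat_lit 450588) (nat_lit 10) (.e (nat_lit 573474) (nat_lit 12) (.e (nat_lit 57574) (nat_lit 55) (.e (nat_lit 778466) (nat_lit 11) .nil)))) (.g (nat_lit 0) (.e (nat_lit 343164) (nat_lit 0) .nil) .nil))) 
(.lf (nat_lit 568835) (.g (nat_lit 2599) (.e (nat_lit 458789) (nat_lit 23) (.e (nat_lit 532503) (nat_lit 1) (.e (nat_lit 57686) (nat_lit 156) (.e (nat_lit 163903) (nat_lit 12) (.e (nat_lit 426568) (nat_lit 34) (.e (nat_lit 393287) (nat_lit 25) .nil)))))) (.g (nat_lit 1) (.e (nat_lit 346168) (nat_lit 0) .nil) .nil)))) (.nd (nat_lit 9) 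
(.lf (nat_lit 568579) (.g (nat_lit 2645) (.e (nat_lit 466688) (nat_lit 3) (.e (nat_lit 57464) (nat_lit 23) (.e (nat_lit 516151) (nat_lit 9) (.e (nat_lit 426285) (nat_lit 10) (.e (nat_lit 434238) (nat_lit 25) .nil))))) (.g (nat_lit 0) (.e (nat_lit 345532) (nat_lit 0) .nil) .nil))) 
(.lf (nat_lit 569091) (.g (nat_lit 2064) (.e (nat_lit 466947) (nat_lit 0) (.e (nat_lit 1800) (nat_lit 119) (.e (nat_lit 516119) (nat_lit 1) (.e (nat_lit 164324) (nat_lit 230) (.e (nat_lit 163941) (nat_lit 19) .nil))))) (.g (nat_lit 0) (.e (nat_lit 347077) (nat_lit 0) .nil) .nil))))) (.nd (nat_lit 8) (.nd (nat_lit 9) 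
(.lf (nat_lit 568451) (.g (nat_lit 1339) (.e (nat_lit 458496) (nat_lit 15) (.e (nat_lit 647183) (nat_lit 4) (.e (nat_lit 172112) (nat_lit 10) (.e (nat_lit 434272) (nat_lit 38) (.e (nat_lit 655362) (nat_lit 0) .nil))))) (.g (nat_lit 0) (.e (nat_lit 343692) (nat_lit 0) .nil) .nil))) 
(.lf (nat_lit 568963) (.g (nat_lit 4297) (.e (nat_lit 458789) (nat_lit 23) (.e (nat_lit 532569) (nat_lit 16) (.e (nat_lit 401448) (nat_lit 10) (.e (nat_lit 434232) (nat_lit 23) (.e (nat_lit 532484) (nat_lit 0) (.e (nat_lit 6691) (nat_lit 357) (.e (nat_lit 3033) (nat_lit 188) .nil))))))) (.g (nat_lit 1) (.e (nat_lit 346820) (nat_lit 0) .nil) .nil)))) (.nd (nat_lit 9) 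
(.lf (nat_lit 568707) (.g (nat_lit 1164) (.e (nat_lit 458787) (nat_lit 23) (.e (nat_lit 532550) (nat_lit 12) (.e (nat_lit 360474) (nat_lit 8) .nil))) (.g (nat_lit 0) (.e (nat_lit 345979) (nat_lit 0) .nil) .nil))) 
(.lf (nat_lit 569219) (.g (nat_lit 946) (.e (nat_lit 466954) (nat_lit 11) (.e (nat_lit 335986) (nat_lit 1) (.e (nat_lit 57651) (nat_lit 152) .nil))) (.g (nat_lit 0) (.e (nat_lit 347506) (nat_lit 0) .nil) .nil)))))) (.nd (nat_lit 7) (.nd (nat_lit 8) (.nd (nat_lit 9) 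
(.lf (nat_lit 568387) (.g (nat_lit 735) (.e (nat_lit 450592) (nat_lit 14) (.e (nat_lit 639008) (nat_lit 13) (.e (nat_lit 1589) (nat_lit 111) (.e (nat_lit 360484) (nat_lit 15) .nil)))) (.g (nat_lit 0) (.e (nat_lit 343494) (nat_lit 0) .nil) .nil))) 
(.lf (nat_lit 568899) (.g (nat_lit 2367) (.e (nat_lit 458789) (nat_lit 23) (.e (nat_lit 532523) (nat_lit 7) (.e (nat_lit 319533) (nat_lit 16) (.e (nat_lit 286734) (nat_lit 3) (.e (nat_lit 98365) (nat_lit 26) .nil))))) (.g (nat_lit 0) (.e (nat_lit 346265) (nat_lit 0) .nil) .nil)))) (.nd (nat_lit 9) 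
(.lf (nat_lit 568643) (.g (nat_lit 1742) (.e (nat_lit 458758) (nat_lit 8) (.e (nat_lit 2682) (nat_lit 168) (.e (nat_lit 204846) (nat_lit 24) (.e (nat_lit 319530) (nat_lit 16) .nil)))) (.g (nat_lit 0) (.e (nat_lit 345657) (nat_lit 0) .nil) .nil))) 
(.lf (nat_lit 569155) (.g (nat_lit 1489) (.e (nat_lit 474880) (nat_lit 3) (.e (nat_lit 98335) (nat_lit 18) (.e (nat_lit 164325) (nat_lit 230) (.e (nat_lit 163941) (nat_lit 19) (.e (nat_lit 491264) (nat_lit 14) .nil))))) (.g (nat_lit 0) (.e (nat_lit 347188) (nat_lit 0) .nil) .nil))))) (.nd (nat_lit 8) (.nd (nat_lit 9) 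
(.lf (nat_lit 568515) (.g (nat_lit 1796) (.e (nat_lit 450605) (nat_lit 27) (.e (nat_lit 745475) (nat_lit 0) (.e (nat_lit 1595) (nat_lit 111) (.e (nat_lit 360477) (nat_lit 11) (.e (nat_lit 581636) (nat_lit 0) (.e (nat_lit 3016) (nat_lit 187) .nil)))))) (.g (nat_lit 1) (.e (nat_lit 345422) (nat_lit 0) .nil) .nil))) 
(.lf (nat_lit 569027) (.g (nat_lit 1186) (.e (nat_lit 466688) (nat_lit 21) (.e (nat_lit 516115) (nat_lit 1) (.e (nat_lit 164190) (nat_lit 157) (.e (nat_lit 229405) (nat_lit 12) .nil)))) (.g (nat_lit 0) (.e (nat_lit 346936) (nat_lit 0) .nil) .nil)))) (.nd (nat_lit 9) 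
(.lf (nat_lit 568771) (.g (nat_lit 2317) (.e (nat_lit 458789) (nat_lit 23) (.e (nat_lit 532482) (nat_lit 0) (.e (nat_lit 6724) (nat_lit 362) (.e (nat_lit 180250) (nat_lit 10) (.e (nat_lit 573452) (nat_lit 9) (.e (nat_lit 430) (nat_lit 32) (.e (nat_lit 426300) (nat_lit 11) .nil))))))) (.g (nat_lit 1) (.e (nat_lit 346068) (nat_lit 0) .nil) .nil))) 
(.lf (nat_lit 569283) (.g (nat_lit 2560) (.e (nat_lit 466954) (nat_lit 11) (.e (nat_lit 335994) (nat_lit 1) (.e (nat_lit 57686) (nat_lit 156) (.e (nat_lit 163903) (nat_lit 12) (.e (nat_lit 426438) (nat_lit 18) (.e (nat_lit 98380) (nat_lit 31) .nil)))))) (.g (nat_lit 1) (.e (nat_lit 347570) (nat_lit 0) .nil) .nil))))))) (.nd (nat_lit 6) (.nd (nat_lit 7) (.nd (nat_lit 8) (.nd (nat_lit 9) 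
(.lf (nat_lit 568355) (.g (nat_lit 1491) (.e (nat_lit 450584) (nat_lit 9) (.e (nat_lit 573184) (nat_lit 6) (.e (nat_lit 81938) (nat_lit 20) (.e (nat_lit 2391) (nat_lit 156) (.e (nat_lit 819203) (nat_lit 0) (.e (nat_lit 3016) (nat_lit 187) .nil)))))) (.g (nat_lit 1) (.e (nat_lit 343399) (nat_lit 0) .nil) .nil))) 
(.lf (nat_lit 568867) (.g (nat_lit 1007) (.e (nat_lit 458789) (nat_lit 23) (.e (nat_lit 532504) (nat_lit 1) (.e (nat_lit 65280) (nat_lit 233) .nil))) (.g (nat_lit 0) (.e (nat_lit 346227) (nat_lit 0) .nil) .nil)))) (.nd (nat_lit 9) 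
(.lf (nat_lit 568611) (.g (nat_lit 813) (.e (nat_lit 466688) (nat_lit 5) (.e (nat_lit 73731) (nat_lit 0) (.e (nat_lit 7265) (nat_lit 384) (.e (nat_lit 57435) (nat_lit 17) (.e (nat_lit 384768) (nat_lit 15) .nil))))) (.g (nat_lit 0) (.e (nat_lit 345610) (nat_lit 0) .nil) .nil))) 
(.lf (nat_lit 569123) (.g (nat_lit 885) (.e (nat_lit 466947) (nat_lit 0) (.e (nat_lit 2173) (nat_lit 143) (.e (nat_lit 712755) (nat_lit 30) (.e (nat_lit 458496) (nat_lit 0) .nil)))) (.g (nat_lit 0) (.e (nat_lit 347118) (nat_lit 0) .nil) .nil))))) (.nd (nat_lit 8) (.nd (nat_lit 9) 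
(.lf (nat_lit 568483) (.g (nat_lit 2194) (.e (nat_lit 450593) (nat_lit 16) (.e (nat_lit 655378) (nat_lit 4) (.e (nat_lit 172125) (nat_lit 14) (.e (nat_lit 491547) (nat_lit 9) (.e (nat_lit 336432) (nat_lit 30) .nil))))) (.g (nat_lit 0) (.e (nat_lit 343878) (nat_lit 0) .nil) .nil))) 
(.lf (nat_lit 568995) (.g (nat_lit 2389) (.e (nat_lit 458789) (nat_lit 23) (.e (nat_lit 532569) (nat_lit 16) (.e (nat_lit 401451) (nat_lit 12) (.e (nat_lit 475185) (nat_lit 29) .nil)))) (.g (nat_lit 0) (.e (nat_lit 346858) (nat_lit 0) .nil) .nil)))) (.nd (nat_lit 9) 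
(.lf (nat_lit 568739) (.g (nat_lit 5050) (.e (nat_lit 458788) (nat_lit 23) (.e (nat_lit 532550) (nat_lit 12) (.e (nat_lit 360474) (nat_lit 8) (.e (nat_lit 557089) (nat_lit 12) .nil)))) (.g (nat_lit 0) (.e (nat_lit 346022) (nat_lit 0) .nil) .nil))) 
(.lf (nat_lit 569251) (.g (nat_lit 2822) (.e (nat_lit 466954) (nat_lit 11) (.e (nat_lit 335986) (nat_lit 1) (.e (nat_lit 57691) (nat_lit 156) (.e (nat_lit 163907) (nat_lit 12) (.e (nat_lit 426436) (nat_lit 18) (.e (nat_lit 98382) (nat_lit 31) .nil)))))) (.g (nat_lit 1) (.e (nat_lit 347538) (nat_lit 0) .nil) .nil)))))) (.nd (nat_lit 7) (.nd (nat_lit 8) (.nd (nat_lit 9) 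
(.lf (nat_lit 568419) (.g (nat_lit 2786) (.e (nat_lit 450595) (nat_lit 17) (.e (nat_lit 663589) (nat_lit 14) (.e (nat_lit 2798) (nat_lit 180) (.e (nat_lit 303143) (nat_lit 12) (.e (nat_lit 475207) (nat_lit 41) (.e (nat_lit 712753) (nat_lit 30) .nil)))))) (.g (nat_lit 1) (.e (nat_lit 343625) (nat_lit 0) .nil) .nil))) 
(.lf (nat_lit 568931) (.g (nat_lit 855) (.e (nat_lit 458789) (nat_lit 23) (.e (nat_lit 532550) (nat_lit 12) (.e (nat_lit 360474) (nat_lit 8) .nil))) (.g (nat_lit 0) (.e (nat_lit 346553) (nat_lit 0) .nil) .nil)))) (.nd (nat_lit 9) 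
(.lf (nat_lit 568675) (.g (nat_lit 1498) (.e (nat_lit 458774) (nat_lit 18) (.e (nat_lit 5547) (nat_lit 306) (.e (nat_lit 2638) (nat_lit 165) (.e (nat_lit 180277) (nat_lit 32) .nil)))) (.g (nat_lit 0) (.e (nat_lit 345825) (nat_lit 0) .nil) .nil))) 
(.lf (nat_lit 569187) (.g (nat_lit 1518) (.e (nat_lit 466950) (nat_lit 11) (.e (nat_lit 335995) (nat_lit 1) (.e (nat_lit 57688) (nat_lit 156) (.e (nat_lit 163905) (nat_lit 12) .nil)))) (.g (nat_lit 0) (.e (nat_lit 347252) (nat_lit 0) .nil) .nil))))) (.nd (nat_lit 8) (.nd (nat_lit 9) 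
(.lf (nat_lit 568547) (.g (nat_lit 1342) (.e (nat_lit 450605) (nat_lit 27) (.e (nat_lit 745491) (nat_lit 4) (.e (nat_lit 65620) (nat_lit 10) (.e (nat_lit 344138) (nat_lit 29) (.e (nat_lit 581636) (nat_lit 0) (.e (nat_lit 3022) (nat_lit 187) .nil)))))) (.g (nat_lit 1) (.e (nat_lit 345465) (nat_lit 0) .nil) .nil))) 
(.lf (nat_lit 569059) (.g (nat_lit 2133) (.e (nat_lit 466944) (nat_lit 0) (.e (nat_lit 1783) (nat_lit 119) (.e (nat_lit 516117) (nat_lit 1) (.e (nat_lit 164329) (nat_lit 230) (.e (nat_lit 163902) (nat_lit 12) .nil))))) (.g (nat_lit 0) (.e (nat_lit 347011) (nat_lit 0) .nil) .nil)))) (.nd (nat_lit 9) 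
(.lf (nat_lit 568803) (.g (nat_lit 2126) (.e (nat_lit 458789) (nat_lit 23) (.e (nat_lit 532501) (nat_lit 1) (.e (nat_lit 57689) (nat_lit 156) (.e (nat_lit 163905) (nat_lit 12) (.e (nat_lit 426566) (nat_lit 34) .nil))))) (.g (nat_lit 0) (.e (nat_lit 346120) (nat_lit 0) .nil) .nil))) 
(.lf (nat_lit 569315) (.g (nat_lit 2605) (.e (nat_lit 466954) (nat_lit 11) (.e (nat_lit 335995) (nat_lit 1) (.e (nat_lit 57691) (nat_lit 156) (.e (nat_lit 163907) (nat_lit 12) (.e (nat_lit 426434) (nat_lit 18) (.e (nat_lit 98381) (nat_lit 31) .nil)))))) (.g (nat_lit 1) (.e (nat_lit 347603) (nat_lit 0) .nil) .nil)))))))) 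
(.nd (nat_lit 5) (.nd (nat_lit 6) (.nd (nat_lit 7) (.nd (nat_lit 8) (.nd (nat_lit 9) 
(.lf (nat_lit 568339) (.g (nat_lit 424) (.e (nat_lit 450588) (nat_lit 10) (.e (nat_lit 573503) (nat_lit 18) (.e (nat_lit 993) (nat_lit 81) .nil))) (.g (nat_lit 0) (.e (nat_lit 343254) (nat_lit 0) .nil) .nil))) 
(.lf (nat_lit 568851) (.g (nat_lit 2868) (.e (nat_lit 458789) (nat_lit 23) (.e (nat_lit 532503) (nat_lit 1) (.e (nat_lit 57691) (nat_lit 156) (.e (nat_lit 163907) (nat_lit 12) (.e (nat_lit 426568) (nat_lit 34) (.e (nat_lit 393286) (nat_lit 25) .nil)))))) (.g (nat_lit 1) (.e (nat_lit 346196) (nat_lit 0) .nil) .nil)))) (.nd (nat_lit 9) 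
(.lf (nat_lit 568595) (.g (nat_lit 1789) (.e (nat_lit 466688) (nat_lit 5) (.e (nat_lit 73729) (nat_lit 0) (.e (nat_lit 7266) (nat_lit 384) (.e (nat_lit 57423) (nat_lit 14) (.e (nat_lit 360192) (nat_lit 15) .nil))))) (.g (nat_lit 0) (.e (nat_lit 345593) (nat_lit 0) .nil) .nil))) 
(.lf (nat_lit 569107) (.g (nat_lit 1674) (.e (nat_lit 466947) (nat_lit 0) (.e (nat_lit 1800) (nat_lit 119) (.e (nat_lit 516124) (nat_lit 2) (.e (nat_lit 213032) (nat_lit 11) (.e (nat_lit 24609) (nat_lit 3) .nil))))) (.g (nat_lit 0) (.e (nat_lit 347093) (nat_lit 0) .nil) .nil))))) (.nd (nat_lit 8) (.nd (nat_lit 9) 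
(.lf (nat_lit 568467) (.g (nat_lit 2215) (.e (nat_lit 458496) (nat_lit 15) (.e (nat_lit 647183) (nat_lit 4) (.e (nat_lit 172120) (nat_lit 12) (.e (nat_lit 475198) (nat_lit 40) (.e (nat_lit 704513) (nat_lit 0) .nil))))) (.g (nat_lit 0) (.e (nat_lit 343709) (nat_lit 0) .nil) .nil))) 
(.lf (nat_lit 568979) (.g (nat_lit 2936) (.e (nat_lit 458789) (nat_lit 23) (.e (nat_lit 532569) (nat_lit 16) (.e (nat_lit 401448) (nat_lit 10) (.e (nat_lit 434245) (nat_lit 28) (.e (nat_lit 573458) (nat_lit 9) (.e (nat_lit 426) (nat_lit 32) (.e (nat_lit 426296) (nat_lit 11) .nil))))))) (.g (nat_lit 1) (.e (nat_lit 346840) (nat_lit 0) .nil) .nil)))) (.nd (nat_lit 9) 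
(.lf (nat_lit 568723) (.g (nat_lit 872) (.e (nat_lit 458788) (nat_lit 23) (.e (nat_lit 532503) (nat_lit 1) (.e (nat_lit 57651) (nat_lit 152) .nil))) (.g (nat_lit 0) (.e (nat_lit 345996) (nat_lit 0) .nil) .nil))) 
(.lf (nat_lit 569235) (.g (nat_lit 1607) (.e (nat_lit 466954) (nat_lit 11) (.e (nat_lit 335986) (nat_lit 1) (.e (nat_lit 57688) (nat_lit 156) (.e (nat_lit 163904) (nat_lit 12) (.e (nat_lit 426438) (nat_lit 18) .nil))))) (.g (nat_lit 0) (.e (nat_lit 347522) (nat_lit 0) .nil) .nil)))))) (.nd (nat_lit 7) (.nd (nat_lit 8) (.nd (nat_lit 9) 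
(.lf (nat_lit 568403) (.g (nat_lit 1877) (.e (nat_lit 450595) (nat_lit 17) (.e (nat_lit 663574) (nat_lit 9) (.e (nat_lit 7936) (nat_lit 24) (.e (nat_lit 360482) (nat_lit 15) (.e (nat_lit 647195) (nat_lit 9) (.e (nat_lit 7936) (nat_lit 35) .nil)))))) (.g (nat_lit 1) (.e (nat_lit 343598) (nat_lit 0) .nil) .nil))) 
(.lf (nat_lit 568915) (.g (nat_lit 1704) (.e (nat_lit 458789) (nat_lit 23) (.e (nat_lit 532549) (nat_lit 12) (.e (nat_lit 360473) (nat_lit 8) (.e (nat_lit 557091) (nat_lit 12) .nil)))) (.g (nat_lit 0) (.e (nat_lit 346523) (nat_lit 0) .nil) .nil)))) (.nd (nat_lit 9) 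
(.lf (nat_lit 568659) (.g (nat_lit 2462) (.e (nat_lit 458774) (nat_lit 18) (.e (nat_lit 5224) (nat_lit 296) (.e (nat_lit 163871) (nat_lit 2) (.e (nat_lit 196656) (nat_lit 11) (.e (nat_lit 16463) (nat_lit 13) (.e (nat_lit 491264) (nat_lit 13) .nil)))))) (.g (nat_lit 1) (.e (nat_lit 345736) (nat_lit 0) .nil) .nil))) 
(.lf (nat_lit 569171) (.g (nat_lit 1905) (.e (nat_lit 474880) (nat_lit 5) (.e (nat_lit 114711) (nat_lit 21) (.e (nat_lit 57847) (nat_lit 252) (.e (nat_lit 57407) (nat_lit 12) (.e (nat_lit 336114) (nat_lit 9) .nil))))) (.g (nat_lit 0) (.e (nat_lit 347213) (nat_lit 0) .nil) .nil))))) (.nd (nat_lit 8) (.nd (nat_lit 9) 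
(.lf (nat_lit 568531) (.g (nat_lit 1416) (.e (nat_lit 450605) (nat_lit 27) (.e (nat_lit 745491) (nat_lit 4) (.e (nat_lit 65611) (nat_lit 10) (.e (nat_lit 344138) (nat_lit 29) (.e (nat_lit 581636) (nat_lit 0) (.e (nat_lit 3015) (nat_lit 187) .nil)))))) (.g (nat_lit 1) (.e (nat_lit 345443) (nat_lit 0) .nil) .nil))) 
(.lf (nat_lit 569043) (.g (nat_lit 3783) (.e (nat_lit 458795) (nat_lit 28) (.e (nat_lit 573489) (nat_lit 14) (.e (nat_lit 73755) (nat_lit 8) (.e (nat_lit 557090) (nat_lit 12) (.e (nat_lit 164006) (nat_lit 41) .nil))))) (.g (nat_lit 0) (.e (nat_lit 346964) (nat_lit 0) .nil) .nil)))) (.nd (nat_lit 9) 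
(.lf (nat_lit 568787) (.g (nat_lit 2416) (.e (nat_lit 458789) (nat_lit 23) (.e (nat_lit 532499) (nat_lit 1) (.e (nat_lit 57688) (nat_lit 156) (.e (nat_lit 163873) (nat_lit 3) (.e (nat_lit 204837) (nat_lit 20) .nil))))) (.g (nat_lit 0) (.e (nat_lit 346089) (nat_lit 0) .nil) .nil))) 
(.lf (nat_lit 569299) (.g (nat_lit 2134) (.e (nat_lit 466954) (nat_lit 11) (.e (nat_lit 335995) (nat_lit 1) (.e (nat_lit 57667) (nat_lit 152) (.e (nat_lit 2619) (nat_lit 164) (.e (nat_lit 179968) (nat_lit 18) (.e (nat_lit 98381) (nat_lit 31) .nil)))))) (.g (nat_lit 1) (.e (nat_lit 347587) (nat_lit 0) .nil) .nil))))))) (.nd (nat_lit 6) (.nd (nat_lit 7) (.nd (nat_lit 8) (.nd (nat_lit 9) 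
(.lf (nat_lit 568371) (.g (nat_lit 715) (.e (nat_lit 450591) (nat_lit 13) (.e (nat_lit 630821) (nat_lit 16) (.e (nat_lit 65616) (nat_lit 10) (.e (nat_lit 344157) (nat_lit 36) (.e (nat_lit 638986) (nat_lit 5) (.e (nat_lit 3028) (nat_lit 187) .nil)))))) (.g (nat_lit 1) (.e (nat_lit 343441) (nat_lit 0) .nil) .nil))) 
(.lf (nat_lit 568883) (.g (nat_lit 1981) (.e (nat_lit 458789) (nat_lit 23) (.e (nat_lit 532522) (nat_lit 7) (.e (nat_lit 319528) (nat_lit 16) (.e (nat_lit 286735) (nat_lit 3) (.e (nat_lit 98365) (nat_lit 26) .nil))))) (.g (nat_lit 0) (.e (nat_lit 346249) (nat_lit 0) .nil) .nil)))) (.nd (nat_lit 9) 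
(.lf (nat_lit 568627) (.g (nat_lit 1484) (.e (nat_lit 466688) (nat_lit 5) (.e (nat_lit 73775) (nat_lit 26) (.e (nat_lit 778465) (nat_lit 11) (.e (nat_lit 24636) (nat_lit 9) (.e (nat_lit 336435) (nat_lit 31) .nil))))) (.g (nat_lit 0) (.e (nat_lit 345629) (nat_lit 0) .nil) .nil))) 
(.lf (nat_lit 569139) (.g (nat_lit 1237) (.e (nat_lit 466949) (nat_lit 0) (.e (nat_lit 2059) (nat_lit 142) (.e (nat_lit 704595) (nat_lit 5) (.e (nat_lit 180277) (nat_lit 32) .nil)))) (.g (nat_lit 0) (.e (nat_lit 347139) (nat_lit 0) .nil) .nil))))) (.nd (nat_lit 8) (.nd (nat_lit 9) 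
(.lf (nat_lit 568499) (.g (nat_lit 1794) (.e (nat_lit 450601) (nat_lit 21) (.e (nat_lit 696344) (nat_lit 8) (.e (nat_lit 172115) (nat_lit 10) (.e (nat_lit 434202) (nat_lit 18) (.e (nat_lit 6418) (nat_lit 341) (.e (nat_lit 163923) (nat_lit 15) .nil)))))) (.g (nat_lit 1) (.e (nat_lit 344448) (nat_lit 0) .nil) .nil))) 
(.lf (nat_lit 569011) (.g (nat_lit 2895) (.e (nat_lit 458790) (nat_lit 23) (.e (nat_lit 532523) (nat_lit 7) (.e (nat_lit 319534) (nat_lit 16) (.e (nat_lit 286734) (nat_lit 3) (.e (nat_lit 98358) (nat_lit 26) .nil))))) (.g (nat_lit 0) (.e (nat_lit 346903) (nat_lit 0) .nil) .nil)))) (.nd (nat_lit 9) 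
(.lf (nat_lit 568755) (.g (nat_lit 4889) (.e (nat_lit 458788) (nat_lit 23) (.e (nat_lit 532550) (nat_lit 12) (.e (nat_lit 360475) (nat_lit 8) (.e (nat_lit 557089) (nat_lit 12) (.e (nat_lit 163849) (nat_lit 0) .nil))))) (.g (nat_lit 0) (.e (nat_lit 346039) (nat_lit 0) .nil) .nil))) 
(.lf (nat_lit 569267) (.g (nat_lit 2619) (.e (nat_lit 466954) (nat_lit 11) (.e (nat_lit 335987) (nat_lit 1) (.e (nat_lit 57692) (nat_lit 156) (.e (nat_lit 163907) (nat_lit 12) (.e (nat_lit 426438) (nat_lit 18) (.e (nat_lit 98380) (nat_lit 31) .nil)))))) (.g (nat_lit 1) (.e (nat_lit 347554) (nat_lit 0) .nil) .nil)))))) (.nd (nat_lit 7) (.nd (nat_lit 8) (.nd (nat_lit 9) 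
(.lf (nat_lit 568435) (.g (nat_lit 1568) (.e (nat_lit 458496) (nat_lit 15) (.e (nat_lit 647183) (nat_lit 4) (.e (nat_lit 172079) (nat_lit 7) (.e (nat_lit 409641) (nat_lit 17) (.e (nat_lit 302848) (nat_lit 30) .nil))))) (.g (nat_lit 0) (.e (nat_lit 343675) (nat_lit 0) .nil) .nil))) 
(.lf (nat_lit 568947) (.g (nat_lit 2581) (.e (nat_lit 458789) (nat_lit 23) (.e (nat_lit 532563) (nat_lit 15) (.e (nat_lit 385109) (nat_lit 51) (.e (nat_lit 794653) (nat_lit 20) .nil)))) (.g (nat_lit 0) (.e (nat_lit 346719) (nat_lit 0) .nil) .nil)))) (.nd (nat_lit 9) 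
(.lf (nat_lit 568691) (.g (nat_lit 1319) (.e (nat_lit 466688) (nat_lit 18) (.e (nat_lit 5193) (nat_lit 294) (.e (nat_lit 57411) (nat_lit 12) (.e (nat_lit 336182) (nat_lit 11) (.e (nat_lit 376576) (nat_lit 18) .nil))))) (.g (nat_lit 0) (.e (nat_lit 345940) (nat_lit 0) .nil) .nil))) 
(.lf (nat_lit 569203) (.g (nat_lit 1907) (.e (nat_lit 466951) (nat_lit 11) (.e (nat_lit 336390) (nat_lit 27) (.e (nat_lit 426098) (nat_lit 1) (.e (nat_lit 164403) (nat_lit 256) (.e (nat_lit 57378) (nat_lit 3) .nil))))) (.g (nat_lit 0) (.e (nat_lit 347334) (nat_lit 0) .nil) .nil))))) (.nd (nat_lit 8) (.nd (nat_lit 9) 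
(.lf (nat_lit 568563) (.g (nat_lit 1051) (.e (nat_lit 450605) (nat_lit 27) (.e (nat_lit 745493) (nat_lit 6) (.e (nat_lit 81943) (nat_lit 20) (.e (nat_lit 1886) (nat_lit 127) (.e (nat_lit 581636) (nat_lit 0) (.e (nat_lit 3016) (nat_lit 187) .nil)))))) (.g (nat_lit 1) (.e (nat_lit 345501) (nat_lit 0) .nil) .nil))) 
(.lf (nat_lit 569075) (.g (nat_lit 1207) (.e (nat_lit 466946) (nat_lit 0) (.e (nat_lit 2059) (nat_lit 142) (.e (nat_lit 704595) (nat_lit 5) (.e (nat_lit 180275) (nat_lit 32) .nil)))) (.g (nat_lit 0) (.e (nat_lit 347055) (nat_lit 0) .nil) .nil)))) (.nd (nat_lit 9) 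
(.lf (nat_lit 568819) (.g (nat_lit 2595) (.e (nat_lit 458789) (nat_lit 23) (.e (nat_lit 532502) (nat_lit 1) (.e (nat_lit 57688) (nat_lit 156) (.e (nat_lit 163905) (nat_lit 12) (.e (nat_lit 426568) (nat_lit 34) (.e (nat_lit 393287) (nat_lit 25) .nil)))))) (.g (nat_lit 1) (.e (nat_lit 346141) (nat_lit 0) .nil) .nil))) 
(.lf (nat_lit 569331) (.g (nat_lit 1984) (.e (nat_lit 466954) (nat_lit 11) (.e (nat_lit 335996) (nat_lit 1) (.e (nat_lit 57692) (nat_lit 156) (.e (nat_lit 163905) (nat_lit 12) (.e (nat_lit 426434) (nat_lit 18) .nil))))) (.g (nat_lit 0) (.e (nat_lit 347619) (nat_lit 0) .nil) .nil))))))))) (.nd (nat_lit 4) (.nd (nat_lit 5) (.nd (nat_lit 6) (.nd (nat_lit 7) (.nd (nat_lit 8) (.nd (nat_lit 9) 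
(.lf (nat_lit 568331) (.g (nat_lit 2920) (.e (nat_lit 450588) (nat_lit 10) (.e (nat_lit 573475) (nat_lit 12) (.e (nat_lit 57508) (nat_lit 39) (.e (nat_lit 647199) (nat_lit 11) (.e (nat_lit 16388) (nat_lit 0) (.e (nat_lit 3544) (nat_lit 219) (.e (nat_lit 712754) (nat_lit 30) .nil))))))) (.g (nat_lit 1) (.e (nat_lit 343199) (nat_lit 0) .nil) .nil))) 
(.lf (nat_lit 568843) (.g (nat_lit 3319) (.e (nat_lit 458789) (nat_lit 23) (.e (nat_lit 532503) (nat_lit 1) (.e (nat_lit 57688) (nat_lit 156) (.e (nat_lit 163907) (nat_lit 12) (.e (nat_lit 426568) (nat_lit 34) (.e (nat_lit 393286) (nat_lit 25) .nil)))))) (.g (nat_lit 1) (.e (nat_lit 346186) (nat_lit 0) .nil) .nil)))) (.nd (nat_lit 9) 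
(.lf (nat_lit 568587) (.g (nat_lit 1500) (.e (nat_lit 466688) (nat_lit 5) (.e (nat_lit 73729) (nat_lit 0) (.e (nat_lit 7261) (nat_lit 384) (.e (nat_lit 57435) (nat_lit 17) (.e (nat_lit 384768) (nat_lit 15) .nil))))) (.g (nat_lit 0) (.e (nat_lit 345583) (nat_lit 0) .nil) .nil))) 
(.lf (nat_lit 569099) (.g (nat_lit 2069) (.e (nat_lit 466947) (nat_lit 0) (.e (nat_lit 1800) (nat_lit 119) (.e (nat_lit 516120) (nat_lit 1) (.e (nat_lit 164329) (nat_lit 230) (.e (nat_lit 163942) (nat_lit 19) (.e (nat_lit 491264) (nat_lit 14) .nil)))))) (.g (nat_lit 1) (.e (nat_lit 347085) (nat_lit 0) .nil) .nil))))) (.nd (nat_lit 8) (.nd (nat_lit 9) 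
(.lf (nat_lit 568459) (.g (nat_lit 1725) (.e (nat_lit 458496) (nat_lit 15) (.e (nat_lit 647183) (nat_lit 4) (.e (nat_lit 172115) (nat_lit 10) (.e (nat_lit 434271) (nat_lit 38) (.e (nat_lit 655363) (nat_lit 0) .nil))))) (.g (nat_lit 0) (.e (nat_lit 343700) (nat_lit 0) .nil) .nil))) 
(.lf (nat_lit 568971) (.g (nat_lit 2530) (.e (nat_lit 458789) (nat_lit 23) (.e (nat_lit 532569) (nat_lit 16) (.e (nat_lit 401448) (nat_lit 10) (.e (nat_lit 434244) (nat_lit 28) (.e (nat_lit 573458) (nat_lit 9) (.e (nat_lit 426) (nat_lit 32) (.e (nat_lit 426295) (nat_lit 11) .nil))))))) (.g (nat_lit 1) (.e (nat_lit 346832) (nat_lit 0) .nil) .nil)))) (.nd (nat_lit 9) 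
(.lf (nat_lit 568715) (.g (nat_lit 4687) (.e (nat_lit 458787) (nat_lit 23) (.e (nat_lit 532550) (nat_lit 12) (.e (nat_lit 360474) (nat_lit 8) (.e (nat_lit 557094) (nat_lit 12) (.e (nat_lit 164022) (nat_lit 46) .nil))))) (.g (nat_lit 0) (.e (nat_lit 345988) (nat_lit 0) .nil) .nil))) 
(.lf (nat_lit 569227) (.g (nat_lit 2575) (.e (nat_lit 466954) (nat_lit 11) (.e (nat_lit 335986) (nat_lit 1) (.e (nat_lit 57687) (nat_lit 156) (.e (nat_lit 163902) (nat_lit 12) (.e (nat_lit 426438) (nat_lit 18) (.e (nat_lit 98380) (nat_lit 31) .nil)))))) (.g (nat_lit 1) (.e (nat_lit 347514) (nat_lit 0) .nil) .nil)))))) (.nd (nat_lit 7) (.nd (nat_lit 8) (.nd (nat_lit 9) 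
(.lf (nat_lit 568395) (.g (nat_lit 362) (.e (nat_lit 450594) (nat_lit 17) (.e (nat_lit 663574) (nat_lit 9) (.e (nat_lit 7936) (nat_lit 23) .nil))) (.g (nat_lit 0) (.e (nat_lit 343588) (nat_lit 0) .nil) .nil))) 
(.lf (nat_lit 568907) (.g (nat_lit 1497) (.e (nat_lit 458789) (nat_lit 23) (.e (nat_lit 532526) (nat_lit 8) (.e (nat_lit 327715) (nat_lit 16) (.e (nat_lit 286734) (nat_lit 3) .nil)))) (.g (nat_lit 0) (.e (nat_lit 346277) (nat_lit 0) .nil) .nil)))) (.nd (nat_lit 9) 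
(.lf (nat_lit 568651) (.g (nat_lit 461) (.e (nat_lit 458769) (nat_lit 16) (.e (nat_lit 164292) (nat_lit 224) (.e (nat_lit 164112) (nat_lit 118) (.e (nat_lit 794635) (nat_lit 11) (.e (nat_lit 336113) (nat_lit 9) .nil))))) (.g (nat_lit 0) (.e (nat_lit 345692) (nat_lit 0) .nil) .nil))) 
(.lf (nat_lit 569163) (.g (nat_lit 1940) (.e (nat_lit 474880) (nat_lit 3) (.e (nat_lit 98335) (nat_lit 18) (.e (nat_lit 164330) (nat_lit 230) (.e (nat_lit 163943) (nat_lit 19) (.e (nat_lit 491264) (nat_lit 14) .nil))))) (.g (nat_lit 0) (.e (nat_lit 347202) (nat_lit 0) .nil) .nil))))) (.nd (nat_lit 8) (.nd (nat_lit 9) 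
(.lf (nat_lit 568523) (.g (nat_lit 868) (.e (nat_lit 450605) (nat_lit 27) (.e (nat_lit 745476) (nat_lit 0) (.e (nat_lit 1598) (nat_lit 111) (.e (nat_lit 368384) (nat_lit 10) .nil)))) (.g (nat_lit 0) (.e (nat_lit 345430) (nat_lit 0) .nil) .nil))) 
(.lf (nat_lit 569035) (.g (nat_lit 1513) (.e (nat_lit 458794) (nat_lit 28) (.e (nat_lit 573469) (nat_lit 11) (.e (nat_lit 16473) (nat_lit 14) (.e (nat_lit 491538) (nat_lit 3) .nil)))) (.g (nat_lit 0) (.e (nat_lit 346947) (nat_lit 0) .nil) .nil)))) (.nd (nat_lit 9) 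
(.lf (nat_lit 568779) (.g (nat_lit 3017) (.e (nat_lit 458789) (nat_lit 23) (.e (nat_lit 532482) (nat_lit 0) (.e (nat_lit 6724) (nat_lit 362) (.e (nat_lit 180251) (nat_lit 10) (.e (nat_lit 573457) (nat_lit 9) (.e (nat_lit 430) (nat_lit 32) (.e (nat_lit 426300) (nat_lit 11) .nil))))))) (.g (nat_lit 1) (.e (nat_lit 346076) (nat_lit 0) .nil) .nil))) 
(.lf (nat_lit 569291) (.g (nat_lit 2645) (.e (nat_lit 466954) (nat_lit 11) (.e (nat_lit 335994) (nat_lit 1) (.e (nat_lit 57688) (nat_lit 156) (.e (nat_lit 163907) (nat_lit 12) (.e (nat_lit 426436) (nat_lit 18) (.e (nat_lit 98380) (nat_lit 31) .nil)))))) (.g (nat_lit 1) (.e (nat_lit 347578) (nat_lit 0) .nil) .nil))))))) (.nd (nat_lit 6) (.nd (nat_lit 7) (.nd (nat_lit 8) (.nd (nat_lit 9) 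
(.lf (nat_lit 568363) (.g (nat_lit 975) (.e (nat_lit 450591) (nat_lit 13) (.e (nat_lit 630821) (nat_lit 16) (.e (nat_lit 65610) (nat_lit 10) (.e (nat_lit 344157) (nat_lit 36) (.e (nat_lit 638986) (nat_lit 5) (.e (nat_lit 3028) (nat_lit 187) .nil)))))) (.g (nat_lit 1) (.e (nat_lit 343433) (nat_lit 0) .nil) .nil))) 
(.lf (nat_lit 568875) (.g (nat_lit 2002) (.e (nat_lit 458789) (nat_lit 23) (.e (nat_lit 532515) (nat_lit 3) (.e (nat_lit 114719) (nat_lit 23) (.e (nat_lit 98333) (nat_lit 18) (.e (nat_lit 164397) (nat_lit 256) .nil))))) (.g (nat_lit 0) (.e (nat_lit 346241) (nat_lit 0) .nil) .nil)))) (.nd (nat_lit 9) 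
(.lf (nat_lit 568619) (.g (nat_lit 1458) (.e (nat_lit 466688) (nat_lit 5) (.e (nat_lit 73775) (nat_lit 26) (.e (nat_lit 778361) (nat_lit 9) (.e (nat_lit 334) (nat_lit 26) (.e (nat_lit 384768) (nat_lit 15) .nil))))) (.g (nat_lit 0) (.e (nat_lit 345619) (nat_lit 0) .nil) .nil))) 
(.lf (nat_lit 569131) (.g (nat_lit 1598) (.e (nat_lit 466947) (nat_lit 0) (.e (nat_lit 2175) (nat_lit 143) (.e (nat_lit 712745) (nat_lit 27) (.e (nat_lit 425984) (nat_lit 0) (.e (nat_lit 7588) (nat_lit 406) (.e (nat_lit 73472) (nat_lit 32) .nil)))))) (.g (nat_lit 1) (.e (nat_lit 347127) (nat_lit 0) .nil) .nil))))) (.nd (nat_lit 8) (.nd (nat_lit 9) 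
(.lf (nat_lit 568491) (.g (nat_lit 331) (.e (nat_lit 450601) (nat_lit 21) (.e (nat_lit 696344) (nat_lit 8) (.e (nat_lit 172106) (nat_lit 10) .nil))) (.g (nat_lit 0) (.e (nat_lit 344377) (nat_lit 0) .nil) .nil))) 
(.lf (nat_lit 569003) (.g (nat_lit 2983) (.e (nat_lit 458789) (nat_lit 23) (.e (nat_lit 532579) (nat_lit 26) (.e (nat_lit 426139) (nat_lit 3) (.e (nat_lit 204830) (nat_lit 18) (.e (nat_lit 57692) (nat_lit 156) (.e (nat_lit 171776) (nat_lit 64) (.e (nat_lit 98376) (nat_lit 30) .nil))))))) (.g (nat_lit 1) (.e (nat_lit 346895) (nat_lit 0) .nil) .nil)))) (.nd (nat_lit 9) 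
(.lf (nat_lit 568747) (.g (nat_lit 4599) (.e (nat_lit 458788) (nat_lit 23) (.e (nat_lit 532550) (nat_lit 12) (.e (nat_lit 360474) (nat_lit 8) (.e (nat_lit 557093) (nat_lit 12) (.e (nat_lit 164023) (nat_lit 46) .nil))))) (.g (nat_lit 0) (.e (nat_lit 346030) (nat_lit 0) .nil) .nil))) 
(.lf (nat_lit 569259) (.g (nat_lit 1877) (.e (nat_lit 466954) (nat_lit 11) (.e (nat_lit 335987) (nat_lit 1) (.e (nat_lit 57691) (nat_lit 156) (.e (nat_lit 163907) (nat_lit 12) (.e (nat_lit 426434) (nat_lit 18) .nil))))) (.g (nat_lit 0) (.e (nat_lit 347546) (nat_lit 0) .nil) .nil)))))) (.nd (nat_lit 7) (.nd (nat_lit 8) (.nd (nat_lit 9) 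
(.lf (nat_lit 568427) (.g (nat_lit 1257) (.e (nat_lit 450596) (nat_lit 17) (.e (nat_lit 663589) (nat_lit 14) (.e (nat_lit 2807) (nat_lit 180) (.e (nat_lit 303143) (nat_lit 12) (.e (nat_lit 475211) (nat_lit 41) .nil))))) (.g (nat_lit 0) (.e (nat_lit 343641) (nat_lit 0) .nil) .nil))) 
(.lf (nat_lit 568939) (.g (nat_lit 4385) (.e (nat_lit 458789) (nat_lit 23) (.e (nat_lit 532550) (nat_lit 12) (.e (nat_lit 360475) (nat_lit 8) (.e (nat_lit 557089) (nat_lit 12) (.e (nat_lit 163848) (nat_lit 0) .nil))))) (.g (nat_lit 0) (.e (nat_lit 346562) (nat_lit 0) .nil) .nil)))) (.nd (nat_lit 9) 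
(.lf (nat_lit 568683) (.g (nat_lit 4940) (.e (nat_lit 458774) (nat_lit 18) (.e (nat_lit 5548) (nat_lit 306) (.e (nat_lit 2610) (nat_lit 163) (.e (nat_lit 163979) (nat_lit 30) (.e (nat_lit 573492) (nat_lit 15) (.e (nat_lit 81956) (nat_lit 23) (.e (nat_lit 98377) (nat_lit 30) .nil))))))) (.g (nat_lit 1) (.e (nat_lit 345847) (nat_lit 0) .nil) .nil))) 
(.lf (nat_lit 569195) (.g (nat_lit 969) (.e (nat_lit 466950) (nat_lit 11) (.e (nat_lit 335996) (nat_lit 1) (.e (nat_lit 57691) (nat_lit 156) .nil))) (.g (nat_lit 0) (.e (nat_lit 347260) (nat_lit 0) .nil) .nil))))) (.nd (nat_lit 8) (.nd (nat_lit 9) 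
(.lf (nat_lit 568555) (.g (nat_lit 1014) (.e (nat_lit 450605) (nat_lit 27) (.e (nat_lit 745493) (nat_lit 6) (.e (nat_lit 81939) (nat_lit 20) (.e (nat_lit 1886) (nat_lit 127) (.e (nat_lit 581636) (nat_lit 0) (.e (nat_lit 3015) (nat_lit 187) .nil)))))) (.g (nat_lit 1) (.e (nat_lit 345488) (nat_lit 0) .nil) .nil))) 
(.lf (nat_lit 569067) (.g (nat_lit 963) (.e (nat_lit 466945) (nat_lit 0) (.e (nat_lit 1796) (nat_lit 119) (.e (nat_lit 516124) (nat_lit 2) (.e (nat_lit 213030) (nat_lit 11) (.e (nat_lit 24609) (nat_lit 3) .nil))))) (.g (nat_lit 0) (.e (nat_lit 347044) (nat_lit 0) .nil) .nil)))) (.nd (nat_lit 9) 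
(.lf (nat_lit 568811) (.g (nat_lit 3087) (.e (nat_lit 458789) (nat_lit 23) (.e (nat_lit 532501) (nat_lit 1) (.e (nat_lit 57691) (nat_lit 156) (.e (nat_lit 163907) (nat_lit 12) (.e (nat_lit 426566) (nat_lit 34) (.e (nat_lit 393286) (nat_lit 25) .nil)))))) (.g (nat_lit 1) (.e (nat_lit 346130) (nat_lit 0) .nil) .nil))) 
(.lf (nat_lit 569323) (.g (nat_lit 826) (.e (nat_lit 466954) (nat_lit 11) (.e (nat_lit 335996) (nat_lit 1) (.e (nat_lit 57690) (nat_lit 156) .nil))) (.g (nat_lit 0) (.e (nat_lit 347611) (nat_lit 0) .nil) .nil)))))))) (.nd (nat_lit 5) (.nd (nat_lit 6) (.nd (nat_lit 7) (.nd (nat_lit 8) (.nd (nat_lit 9) 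
(.lf (nat_lit 568347) (.g (nat_lit 256) (.e (nat_lit 458496) (nat_lit 8) (.e (nat_lit 557061) (nat_lit 0) (.e (nat_lit 1574) (nat_lit 110) (.e (nat_lit 352279) (nat_lit 19) (.e (nat_lit 499456) (nat_lit 30) .nil))))) (.g (nat_lit 0) (.e (nat_lit 343321) (nat_lit 0) .nil) .nil))) 
(.lf (nat_lit 568859) (.g (nat_lit 1067) (.e (nat_lit 458789) (nat_lit 23) (.e (nat_lit 532504) (nat_lit 1) (.e (nat_lit 57670) (nat_lit 152) .nil))) (.g (nat_lit 0) (.e (nat_lit 346214) (nat_lit 0) .nil) .nil)))) (.nd (nat_lit 9) 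
(.lf (nat_lit 568603) (.g (nat_lit 886) (.e (nat_lit 466688) (nat_lit 5) (.e (nat_lit 73730) (nat_lit 0) (.e (nat_lit 7263) (nat_lit 384) (.e (nat_lit 57424) (nat_lit 14) (.e (nat_lit 360192) (nat_lit 15) .nil))))) (.g (nat_lit 0) (.e (nat_lit 345601) (nat_lit 0) .nil) .nil))) 
(.lf (nat_lit 569115) (.g (nat_lit 3140) (.e (nat_lit 466947) (nat_lit 0) (.e (nat_lit 1856) (nat_lit 124) (.e (nat_lit 557101) (nat_lit 13) (.e (nat_lit 172115) (nat_lit 10) (.e (nat_lit 434244) (nat_lit 28) (.e (nat_lit 573458) (nat_lit 9) (.e (nat_lit 7936) (nat_lit 37) .nil))))))) (.g (nat_lit 1) (.e (nat_lit 347102) (nat_lit 0) .nil) .nil))))) (.nd (nat_lit 8) (.nd (nat_lit 9) 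
(.lf (nat_lit 568475) (.g (nat_lit 2506) (.e (nat_lit 450593) (nat_lit 16) (.e (nat_lit 655377) (nat_lit 4) (.e (nat_lit 172120) (nat_lit 12) (.e (nat_lit 475209) (nat_lit 41) (.e (nat_lit 712755) (nat_lit 30) .nil))))) (.g (nat_lit 1) (.e (nat_lit 343800) (nat_lit 0) .nil) .nil))) 
(.lf (nat_lit 568987) (.g (nat_lit 3013) (.e (nat_lit 458789) (nat_lit 23) (.e (nat_lit 532569) (nat_lit 16) (.e (nat_lit 401448) (nat_lit 10) (.e (nat_lit 434247) (nat_lit 28) (.e (nat_lit 573469) (nat_lit 11) (.e (nat_lit 16452) (nat_lit 11) .nil)))))) (.g (nat_lit 1) (.e (nat_lit 346848) (nat_lit 0) .nil) .nil)))) (.nd (nat_lit 9) 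
(.lf (nat_lit 568731) (.g (nat_lit 2466) (.e (nat_lit 458788) (nat_lit 23) (.e (nat_lit 532522) (nat_lit 7) (.e (nat_lit 319531) (nat_lit 16) (.e (nat_lit 286735) (nat_lit 3) (.e (nat_lit 98364) (nat_lit 26) .nil))))) (.g (nat_lit 0) (.e (nat_lit 346004) (nat_lit 0) .nil) .nil))) 
(.lf (nat_lit 569243) (.g (nat_lit 1232) (.e (nat_lit 466954) (nat_lit 11) (.e (nat_lit 335986) (nat_lit 1) (.e (nat_lit 57688) (nat_lit 156) (.e (nat_lit 163935) (nat_lit 18) .nil)))) (.g (nat_lit 0) (.e (nat_lit 347530) (nat_lit 0) .nil) .nil)))))) (.nd (nat_lit 7) (.nd (nat_lit 8) (.nd (nat_lit 9) 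
(.lf (nat_lit 568411) (.g (nat_lit 1207) (.e (nat_lit 450595) (nat_lit 17) (.e (nat_lit 663580) (nat_lit 9) (.e (nat_lit 7936) (nat_lit 24) (.e (nat_lit 360484) (nat_lit 15) (.e (nat_lit 647189) (nat_lit 9) (.e (nat_lit 7936) (nat_lit 35) .nil)))))) (.g (nat_lit 1) (.e (nat_lit 343608) (nat_lit 0) .nil) .nil))) 
(.lf (nat_lit 568923) (.g (nat_lit 3891) (.e (nat_lit 458789) (nat_lit 23) (.e (nat_lit 532549) (nat_lit 12) (.e (nat_lit 360475) (nat_lit 8) (.e (nat_lit 557089) (nat_lit 12) (.e (nat_lit 163843) (nat_lit 0) .nil))))) (.g (nat_lit 0) (.e (nat_lit 346535) (nat_lit 0) .nil) .nil)))) (.nd (nat_lit 9) 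
(.lf (nat_lit 568667) (.g (nat_lit 1912) (.e (nat_lit 458774) (nat_lit 18) (.e (nat_lit 5546) (nat_lit 306) (.e (nat_lit 2638) (nat_lit 165) (.e (nat_lit 180278) (nat_lit 32) .nil)))) (.g (nat_lit 0) (.e (nat_lit 345776) (nat_lit 0) .nil) .nil))) 
(.lf (nat_lit 569179) (.g (nat_lit 837) (.e (nat_lit 466950) (nat_lit 11) (.e (nat_lit 335995) (nat_lit 1) (.e (nat_lit 57686) (nat_lit 156) .nil))) (.g (nat_lit 0) (.e (nat_lit 347244) (nat_lit 0) .nil) .nil))))) (.nd (nat_lit 8) (.nd (nat_lit 9) 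
(.lf (nat_lit 568539) (.g (nat_lit 1588) (.e (nat_lit 450605) (nat_lit 27) (.e (nat_lit 745491) (nat_lit 4) (.e (nat_lit 65617) (nat_lit 10) (.e (nat_lit 344138) (nat_lit 29) (.e (nat_lit 581636) (nat_lit 0) (.e (nat_lit 3016) (nat_lit 187) .nil)))))) (.g (nat_lit 1) (.e (nat_lit 345454) (nat_lit 0) .nil) .nil))) 
(.lf (nat_lit 569051) (.g (nat_lit 1550) (.e (nat_lit 458810) (nat_lit 43) (.e (nat_lit 696344) (nat_lit 8) (.e (nat_lit 172113) (nat_lit 10) (.e (nat_lit 434203) (nat_lit 18) (.e (nat_lit 6416) (nat_lit 341) .nil))))) (.g (nat_lit 0) (.e (nat_lit 346997) (nat_lit 0) .nil) .nil)))) (.nd (nat_lit 9) 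
(.lf (nat_lit 568795) (.g (nat_lit 2541) (.e (nat_lit 458789) (nat_lit 23) (.e (nat_lit 532499) (nat_lit 1) (.e (nat_lit 57691) (nat_lit 156) (.e (nat_lit 163907) (nat_lit 12) (.e (nat_lit 426566) (nat_lit 34) (.e (nat_lit 393285) (nat_lit 25) .nil)))))) (.g (nat_lit 1) (.e (nat_lit 346102) (nat_lit 0) .nil) .nil))) 
(.lf (nat_lit 569307) (.g (nat_lit 1909) (.e (nat_lit 466954) (nat_lit 11) (.e (nat_lit 335995) (nat_lit 1) (.e (nat_lit 57688) (nat_lit 156) (.e (nat_lit 163903) (nat_lit 12) (.e (nat_lit 426434) (nat_lit 18) .nil))))) (.g (nat_lit 0) (.e (nat_lit 347595) (nat_lit 0) .nil) .nil))))))) (.nd (nat_lit 6) (.nd (nat_lit 7) (.nd (nat_lit 8) (.nd (nat_lit 9) 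
(.lf (nat_lit 568379) (.g (nat_lit 1150) (.e (nat_lit 450591) (nat_lit 13) (.e (nat_lit 630821) (nat_lit 16) (.e (nat_lit 65620) (nat_lit 10) (.e (nat_lit 344157) (nat_lit 36) (.e (nat_lit 638985) (nat_lit 5) (.e (nat_lit 3016) (nat_lit 187) .nil)))))) (.g (nat_lit 1) (.e (nat_lit 343450) (nat_lit 0) .nil) .nil))) 
(.lf (nat_lit 568891) (.g (nat_lit 2025) (.e (nat_lit 458789) (nat_lit 23) (.e (nat_lit 532523) (nat_lit 7) (.e (nat_lit 319528) (nat_lit 16) (.e (nat_lit 286734) (nat_lit 3) (.e (nat_lit 98365) (nat_lit 26) .nil))))) (.g (nat_lit 0) (.e (nat_lit 346257) (nat_lit 0) .nil) .nil)))) (.nd (nat_lit 9) 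
(.lf (nat_lit 568635) (.g (nat_lit 1006) (.e (nat_lit 466688) (nat_lit 5) (.e (nat_lit 73776) (nat_lit 26) (.e (nat_lit 778362) (nat_lit 9) (.e (nat_lit 293) (nat_lit 21) .nil)))) (.g (nat_lit 0) (.e (nat_lit 345642) (nat_lit 0) .nil) .nil))) 
(.lf (nat_lit 569147) (.g (nat_lit 1933) (.e (nat_lit 474880) (nat_lit 3) (.e (nat_lit 98333) (nat_lit 18) (.e (nat_lit 164325) (nat_lit 230) (.e (nat_lit 163941) (nat_lit 19) (.e (nat_lit 491264) (nat_lit 14) .nil))))) (.g (nat_lit 0) (.e (nat_lit 347161) (nat_lit 0) .nil) .nil))))) (.nd (nat_lit 8) (.nd (nat_lit 9) 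
(.lf (nat_lit 568507) (.g (nat_lit 468) (.e (nat_lit 458496) (nat_lit 26) (.e (nat_lit 737300) (nat_lit 7) (.e (nat_lit 286754) (nat_lit 10) (.e (nat_lit 344122) (nat_lit 24) .nil)))) (.g (nat_lit 0) (.e (nat_lit 345410) (nat_lit 0) .nil) .nil))) 
(.lf (nat_lit 569019) (.g (nat_lit 682) (.e (nat_lit 458790) (nat_lit 23) (.e (nat_lit 532569) (nat_lit 16) (.e (nat_lit 401448) (nat_lit 10) .nil))) (.g (nat_lit 0) (.e (nat_lit 346921) (nat_lit 0) .nil) .nil)))) (.nd (nat_lit 9) 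
(.lf (nat_lit 568763) (.g (nat_lit 2542) (.e (nat_lit 458788) (nat_lit 23) (.e (nat_lit 532569) (nat_lit 16) (.e (nat_lit 401448) (nat_lit 10) (.e (nat_lit 434248) (nat_lit 28) .nil)))) (.g (nat_lit 0) (.e (nat_lit 346049) (nat_lit 0) .nil) .nil))) 
(.lf (nat_lit 569275) (.g (nat_lit 2530) (.e (nat_lit 466954) (nat_lit 11) (.e (nat_lit 335988) (nat_lit 1) (.e (nat_lit 57691) (nat_lit 156) (.e (nat_lit 163907) (nat_lit 12) (.e (nat_lit 426434) (nat_lit 18) (.e (nat_lit 98381) (nat_lit 31) .nil)))))) (.g (nat_lit 1) (.e (nat_lit 347562) (nat_lit 0) .nil) .nil)))))) (.nd (nat_lit 7) (.nd (nat_lit 8) (.nd (nat_lit 9) 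
(.lf (nat_lit 568443) (.g (nat_lit 1479) (.e (nat_lit 458496) (nat_lit 15) (.e (nat_lit 647183) (nat_lit 4) (.e (nat_lit 172106) (nat_lit 10) (.e (nat_lit 434272) (nat_lit 38) (.e (nat_lit 655362) (nat_lit 0) .nil))))) (.g (nat_lit 0) (.e (nat_lit 343684) (nat_lit 0) .nil) .nil))) 
(.lf (nat_lit 568955) (.g (nat_lit 3704) (.e (nat_lit 458789) (nat_lit 23) (.e (nat_lit 532569) (nat_lit 16) (.e (nat_lit 401448) (nat_lit 10) (.e (nat_lit 434231) (nat_lit 23) (.e (nat_lit 532483) (nat_lit 0) (.e (nat_lit 6691) (nat_lit 357) (.e (nat_lit 3033) (nat_lit 188) .nil))))))) (.g (nat_lit 1) (.e (nat_lit 346812) (nat_lit 0) .nil) .nil)))) (.nd (nat_lit 9) 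
(.lf (nat_lit 568699) (.g (nat_lit 608) (.e (nat_lit 458787) (nat_lit 23) (.e (nat_lit 532503) (nat_lit 1) (.e (nat_lit 57688) (nat_lit 156) .nil))) (.g (nat_lit 0) (.e (nat_lit 345961) (nat_lit 0) .nil) .nil))) 
(.lf (nat_lit 569211) (.g (nat_lit 2047) (.e (nat_lit 466952) (nat_lit 11) (.e (nat_lit 336390) (nat_lit 27) (.e (nat_lit 426100) (nat_lit 1) (.e (nat_lit 164399) (nat_lit 256) (.e (nat_lit 57379) (nat_lit 3) .nil))))) (.g (nat_lit 0) (.e (nat_lit 347454) (nat_lit 0) .nil) .nil))))) (.nd (nat_lit 8) (.nd (nat_lit 9) 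
(.lf (nat_lit 568571) (.g (nat_lit 1332) (.e (nat_lit 450605) (nat_lit 27) (.e (nat_lit 745493) (nat_lit 6) (.e (nat_lit 81947) (nat_lit 20) (.e (nat_lit 1886) (nat_lit 127) (.e (nat_lit 581636) (nat_lit 0) (.e (nat_lit 3015) (nat_lit 187) .nil)))))) (.g (nat_lit 1) (.e (nat_lit 345516) (nat_lit 0) .nil) .nil))) 
(.lf (nat_lit 569083) (.g (nat_lit 902) (.e (nat_lit 466947) (nat_lit 0) (.e (nat_lit 1798) (nat_lit 119) (.e (nat_lit 516127) (nat_lit 2) (.e (nat_lit 213030) (nat_lit 11) (.e (nat_lit 24609) (nat_lit 3) .nil))))) (.g (nat_lit 0) (.e (nat_lit 347064) (nat_lit 0) .nil) .nil)))) (.nd (nat_lit 9) 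
(.lf (nat_lit 568827) (.g (nat_lit 2372) (.e (nat_lit 458789) (nat_lit 23) (.e (nat_lit 532502) (nat_lit 1) (.e (nat_lit 57692) (nat_lit 156) (.e (nat_lit 163907) (nat_lit 12) (.e (nat_lit 426566) (nat_lit 34) (.e (nat_lit 393285) (nat_lit 25) .nil)))))) (.g (nat_lit 1) (.e (nat_lit 346152) (nat_lit 0) .nil) .nil))) 
(.lf (nat_lit 569339) (.g (nat_lit 424) (.e (nat_lit 466954) (nat_lit 11) (.e (nat_lit 336288) (nat_lit 15) (.e (nat_lit 7105) (nat_lit 380) .nil))) (.g (nat_lit 0) (.e (nat_lit 347856) (nat_lit 0) .nil) .nil)))))))))) (.nd (nat_lit 3) (.nd (nat_lit 4) (.nd (nat_lit 5) (.nd (nat_lit 6) (.nd (nat_lit 7) (.nd (nat_lit 8) (.nd (nat_lit 9) 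
(.lf (nat_lit 568327) (.g (nat_lit 3236) (.e (nat_lit 450588) (nat_lit 10) (.e (nat_lit 573475) (nat_lit 12) (.e (nat_lit 57507) (nat_lit 39) (.e (nat_lit 647195) (nat_lit 9) (.e (nat_lit 426) (nat_lit 32) (.e (nat_lit 426011) (nat_lit 0) (.e (nat_lit 3544) (nat_lit 219) (.e (nat_lit 712754) (nat_lit 30) .nil)))))))) (.g (nat_lit 1) (.e (nat_lit 343190) (nat_lit 0) .nil) .nil))) 
(.lf (nat_lit 568839) (.g (nat_lit 2872) (.e (nat_lit 458789) (nat_lit 23) (.e (nat_lit 532503) (nat_lit 1) (.e (nat_lit 57688) (nat_lit 156) (.e (nat_lit 163905) (nat_lit 12) (.e (nat_lit 426568) (nat_lit 34) (.e (nat_lit 393286) (nat_lit 25) .nil)))))) (.g (nat_lit 1) (.e (nat_lit 346182) (nat_lit 0) .nil) .nil)))) (.nd (nat_lit 9) 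
(.lf (nat_lit 568583) (.g (nat_lit 1697) (.e (nat_lit 466688) (nat_lit 4) (.e (nat_lit 65653) (nat_lit 27) (.e (nat_lit 426344) (nat_lit 14) (.e (nat_lit 491556) (nat_lit 9) (.e (nat_lit 336435) (nat_lit 31) .nil))))) (.g (nat_lit 0) (.e (nat_lit 345578) (nat_lit 0) .nil) .nil))) 
(.lf (nat_lit 569095) (.g (nat_lit 1966) (.e (nat_lit 466947) (nat_lit 0) (.e (nat_lit 1800) (nat_lit 119) (.e (nat_lit 516119) (nat_lit 1) (.e (nat_lit 164325) (nat_lit 230) (.e (nat_lit 163944) (nat_lit 19) (.e (nat_lit 491264) (nat_lit 14) .nil)))))) (.g (nat_lit 1) (.e (nat_lit 347081) (nat_lit 0) .nil) .nil))))) (.nd (nat_lit 8) (.nd (nat_lit 9) 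
(.lf (nat_lit 568455) (.g (nat_lit 1765) (.e (nat_lit 458496) (nat_lit 15) (.e (nat_lit 647183) (nat_lit 4) (.e (nat_lit 172113) (nat_lit 10) (.e (nat_lit 434271) (nat_lit 38) (.e (nat_lit 655363) (nat_lit 0) .nil))))) (.g (nat_lit 0) (.e (nat_lit 343696) (nat_lit 0) .nil) .nil))) 
(.lf (nat_lit 568967) (.g (nat_lit 1558) (.e (nat_lit 458789) (nat_lit 23) (.e (nat_lit 532569) (nat_lit 16) (.e (nat_lit 401448) (nat_lit 10) (.e (nat_lit 434243) (nat_lit 28) .nil)))) (.g (nat_lit 0) (.e (nat_lit 346828) (nat_lit 0) .nil) .nil)))) (.nd (nat_lit 9) 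
(.lf (nat_lit 568711) (.g (nat_lit 4902) (.e (nat_lit 458787) (nat_lit 23) (.e (nat_lit 532550) (nat_lit 12) (.e (nat_lit 360474) (nat_lit 8) (.e (nat_lit 557093) (nat_lit 12) (.e (nat_lit 164022) (nat_lit 46) .nil))))) (.g (nat_lit 0) (.e (nat_lit 345984) (nat_lit 0) .nil) .nil))) 
(.lf (nat_lit 569223) (.g (nat_lit 834) (.e (nat_lit 466954) (nat_lit 11) (.e (nat_lit 335986) (nat_lit 1) (.e (nat_lit 57665) (nat_lit 152) .nil))) (.g (nat_lit 0) (.e (nat_lit 347510) (nat_lit 0) .nil) .nil)))))) (.nd (nat_lit 7) (.nd (nat_lit 8) (.nd (nat_lit 9) 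
(.lf (nat_lit 568391) (.g (nat_lit 1035) (.e (nat_lit 450592) (nat_lit 14) (.e (nat_lit 639008) (nat_lit 13) (.e (nat_lit 1599) (nat_lit 111) (.e (nat_lit 360480) (nat_lit 14) (.e (nat_lit 638986) (nat_lit 5) (.e (nat_lit 3015) (nat_lit 187) .nil)))))) (.g (nat_lit 1) (.e (nat_lit 343498) (nat_lit 0) .nil) .nil))) 
(.lf (nat_lit 568903) (.g (nat_lit 3173) (.e (nat_lit 458789) (nat_lit 23) (.e (nat_lit 532523) (nat_lit 7) (.e (nat_lit 319534) (nat_lit 16) (.e (nat_lit 286735) (nat_lit 3) (.e (nat_lit 98364) (nat_lit 26) .nil))))) (.g (nat_lit 0) (.e (nat_lit 346269) (nat_lit 0) .nil) .nil)))) (.nd (nat_lit 9) 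
(.lf (nat_lit 568647) (.g (nat_lit 2107) (.e (nat_lit 458769) (nat_lit 16) (.e (nat_lit 164287) (nat_lit 224) (.e (nat_lit 164104) (nat_lit 116) (.e (nat_lit 778462) (nat_lit 11) (.e (nat_lit 24628) (nat_lit 9) (.e (nat_lit 336438) (nat_lit 31) .nil)))))) (.g (nat_lit 1) (.e (nat_lit 345685) (nat_lit 0) .nil) .nil))) 
(.lf (nat_lit 569159) (.g (nat_lit 2064) (.e (nat_lit 474880) (nat_lit 3) (.e (nat_lit 98335) (nat_lit 18) (.e (nat_lit 164330) (nat_lit 230) (.e (nat_lit 163905) (nat_lit 12) (.e (nat_lit 426489) (nat_lit 27) .nil))))) (.g (nat_lit 0) (.e (nat_lit 347197) (nat_lit 0) .nil) .nil))))) (.nd (nat_lit 8) (.nd (nat_lit 9) 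
(.lf (nat_lit 568519) (.g (nat_lit 1830) (.e (nat_lit 450605) (nat_lit 27) (.e (nat_lit 745476) (nat_lit 0) (.e (nat_lit 1586) (nat_lit 111) (.e (nat_lit 360477) (nat_lit 11) (.e (nat_lit 581635) (nat_lit 0) .nil))))) (.g (nat_lit 0) (.e (nat_lit 345426) (nat_lit 0) .nil) .nil))) 
(.lf (nat_lit 569031) (.g (nat_lit 2682) (.e (nat_lit 458792) (nat_lit 25) (.e (nat_lit 548913) (nat_lit 18) (.e (nat_lit 172126) (nat_lit 14) (.e (nat_lit 491539) (nat_lit 3) (.e (nat_lit 98365) (nat_lit 26) .nil))))) (.g (nat_lit 0) (.e (nat_lit 346942) (nat_lit 0) .nil) .nil)))) (.nd (nat_lit 9) 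
(.lf (nat_lit 568775) (.g (nat_lit 3041) (.e (nat_lit 458789) (nat_lit 23) (.e (nat_lit 532482) (nat_lit 0) (.e (nat_lit 6724) (nat_lit 362) (.e (nat_lit 180251) (nat_lit 10) (.e (nat_lit 573456) (nat_lit 9) (.e (nat_lit 430) (nat_lit 32) (.e (nat_lit 426296) (nat_lit 11) .nil))))))) (.g (nat_lit 1) (.e (nat_lit 346072) (nat_lit 0) .nil) .nil))) 
(.lf (nat_lit 569287) (.g (nat_lit 2745) (.e (nat_lit 466954) (nat_lit 11) (.e (nat_lit 335994) (nat_lit 1) (.e (nat_lit 57688) (nat_lit 156) (.e (nat_lit 163902) (nat_lit 12) (.e (nat_lit 426438) (nat_lit 18) (.e (nat_lit 98381) (nat_lit 31) .nil)))))) (.g (nat_lit 1) (.e (nat_lit 347574) (nat_lit 0) .nil) .nil))))))) (.nd (nat_lit 6) (.nd (nat_lit 7) (.nd (nat_lit 8) (.nd (nat_lit 9) 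
(.lf (nat_lit 568359) (.g (nat_lit 1026) (.e (nat_lit 450591) (nat_lit 13) (.e (nat_lit 630821) (nat_lit 16) (.e (nat_lit 65610) (nat_lit 10) (.e (nat_lit 344157) (nat_lit 36) (.e (nat_lit 638985) (nat_lit 5) (.e (nat_lit 3027) (nat_lit 187) .nil)))))) (.g (nat_lit 1) (.e (nat_lit 343429) (nat_lit 0) .nil) .nil))) 
(.lf (nat_lit 568871) (.g (nat_lit 1174) (.e (nat_lit 458789) (nat_lit 23) (.e (nat_lit 532513) (nat_lit 3) (.e (nat_lit 114719) (nat_lit 23) (.e (nat_lit 98333) (nat_lit 18) .nil)))) (.g (nat_lit 0) (.e (nat_lit 346234) (nat_lit 0) .nil) .nil)))) (.nd (nat_lit 9) 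
(.lf (nat_lit 568615) (.g (nat_lit 1406) (.e (nat_lit 466688) (nat_lit 5) (.e (nat_lit 73731) (nat_lit 0) (.e (nat_lit 7266) (nat_lit 384) (.e (nat_lit 57435) (nat_lit 17) (.e (nat_lit 384768) (nat_lit 15) .nil))))) (.g (nat_lit 0) (.e (nat_lit 345614) (nat_lit 0) .nil) .nil))) 
(.lf (nat_lit 569127) (.g (nat_lit 902) (.e (nat_lit 466947) (nat_lit 0) (.e (nat_lit 2174) (nat_lit 143) (.e (nat_lit 712753) (nat_lit 30) (.e (nat_lit 458496) (nat_lit 0) .nil)))) (.g (nat_lit 0) (.e (nat_lit 347123) (nat_lit 0) .nil) .nil))))) (.nd (nat_lit 8) (.nd (nat_lit 9) 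
(.lf (nat_lit 568487) (.g (nat_lit 3048) (.e (nat_lit 450593) (nat_lit 16) (.e (nat_lit 655378) (nat_lit 4) (.e (nat_lit 172126) (nat_lit 14) (.e (nat_lit 491548) (nat_lit 9) (.e (nat_lit 336434) (nat_lit 30) .nil))))) (.g (nat_lit 1) (.e (nat_lit 343884) (nat_lit 0) .nil) .nil))) 
(.lf (nat_lit 568999) (.g (nat_lit 1511) (.e (nat_lit 458789) (nat_lit 23) (.e (nat_lit 532579) (nat_lit 26) (.e (nat_lit 426099) (nat_lit 1) (.e (nat_lit 164398) (nat_lit 256) (.e (nat_lit 57447) (nat_lit 19) .nil))))) (.g (nat_lit 0) (.e (nat_lit 346864) (nat_lit 0) .nil) .nil)))) (.nd (nat_lit 9) 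
(.lf (nat_lit 568743) (.g (nat_lit 4379) (.e (nat_lit 458788) (nat_lit 23) (.e (nat_lit 532550) (nat_lit 12) (.e (nat_lit 360474) (nat_lit 8) (.e (nat_lit 557093) (nat_lit 12) (.e (nat_lit 164022) (nat_lit 46) .nil))))) (.g (nat_lit 0) (.e (nat_lit 346026) (nat_lit 0) .nil) .nil))) 
(.lf (nat_lit 569255) (.g (nat_lit 1824) (.e (nat_lit 466954) (nat_lit 11) (.e (nat_lit 335986) (nat_lit 1) (.e (nat_lit 57692) (nat_lit 156) (.e (nat_lit 163905) (nat_lit 12) (.e (nat_lit 426434) (nat_lit 18) .nil))))) (.g (nat_lit 0) (.e (nat_lit 347542) (nat_lit 0) .nil) .nil)))))) (.nd (nat_lit 7) (.nd (nat_lit 8) (.nd (nat_lit 9) 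
(.lf (nat_lit 568423) (.g (nat_lit 499) (.e (nat_lit 450596) (nat_lit 17) (.e (nat_lit 663580) (nat_lit 9) (.e (nat_lit 7936) (nat_lit 24) .nil))) (.g (nat_lit 0) (.e (nat_lit 343631) (nat_lit 0) .nil) .nil))) 
(.lf (nat_lit 568935) (.g (nat_lit 3551) (.e (nat_lit 458789) (nat_lit 23) (.e (nat_lit 532550) (nat_lit 12) (.e (nat_lit 360474) (nat_lit 8) (.e (nat_lit 557093) (nat_lit 12) .nil)))) (.g (nat_lit 0) (.e (nat_lit 346557) (nat_lit 0) .nil) .nil)))) (.nd (nat_lit 9) 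
(.lf (nat_lit 568679) (.g (nat_lit 2131) (.e (nat_lit 458774) (nat_lit 18) (.e (nat_lit 5547) (nat_lit 306) (.e (nat_lit 2640) (nat_lit 165) (.e (nat_lit 180278) (nat_lit 32) (.e (nat_lit 1660) (nat_lit 115) (.e (nat_lit 393286) (nat_lit 25) .nil)))))) (.g (nat_lit 1) (.e (nat_lit 345836) (nat_lit 0) .nil) .nil))) 
(.lf (nat_lit 569191) (.g (nat_lit 1585) (.e (nat_lit 466950) (nat_lit 11) (.e (nat_lit 335995) (nat_lit 1) (.e (nat_lit 57688) (nat_lit 156) (.e (nat_lit 163936) (nat_lit 18) (.e (nat_lit 475179) (nat_lit 24) .nil))))) (.g (nat_lit 0) (.e (nat_lit 347256) (nat_lit 0) .nil) .nil))))) (.nd (nat_lit 8) (.nd (nat_lit 9) 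
(.lf (nat_lit 568551) (.g (nat_lit 1384) (.e (nat_lit 450605) (nat_lit 27) (.e (nat_lit 745493) (nat_lit 6) (.e (nat_lit 81938) (nat_lit 20) (.e (nat_lit 1886) (nat_lit 127) (.e (nat_lit 581636) (nat_lit 0) (.e (nat_lit 3015) (nat_lit 187) .nil)))))) (.g (nat_lit 1) (.e (nat_lit 345481) (nat_lit 0) .nil) .nil))) 
(.lf (nat_lit 569063) (.g (nat_lit 2051) (.e (nat_lit 466945) (nat_lit 0) (.e (nat_lit 1786) (nat_lit 119) (.e (nat_lit 516117) (nat_lit 1) (.e (nat_lit 164329) (nat_lit 230) (.e (nat_lit 163941) (nat_lit 19) (.e (nat_lit 491264) (nat_lit 14) .nil)))))) (.g (nat_lit 1) (.e (nat_lit 347028) (nat_lit 0) .nil) .nil)))) (.nd (nat_lit 9) 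
(.lf (nat_lit 568807) (.g (nat_lit 2784) (.e (nat_lit 458789) (nat_lit 23) (.e (nat_lit 532501) (nat_lit 1) (.e (nat_lit 57689) (nat_lit 156) (.e (nat_lit 163907) (nat_lit 12) (.e (nat_lit 426568) (nat_lit 34) (.e (nat_lit 393286) (nat_lit 25) .nil)))))) (.g (nat_lit 1) (.e (nat_lit 346124) (nat_lit 0) .nil) .nil))) 
(.lf (nat_lit 569319) (.g (nat_lit 2318) (.e (nat_lit 466954) (nat_lit 11) (.e (nat_lit 335995) (nat_lit 1) (.e (nat_lit 57692) (nat_lit 156) (.e (nat_lit 163907) (nat_lit 12) (.e (nat_lit 426438) (nat_lit 18) .nil))))) (.g (nat_lit 0) (.e (nat_lit 347607) (nat_lit 0) .nil) .nil)))))))) (.nd (nat_lit 5) (.nd (nat_lit 6) (.nd (nat_lit 7) (.nd (nat_lit 8) (.nd (nat_lit 9) 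
(.lf (nat_lit 568343) (.g (nat_lit 2523) (.e (nat_lit 458496) (nat_lit 10) (.e (nat_lit 573471) (nat_lit 11) (.e (nat_lit 16425) (nat_lit 7) (.e (nat_lit 409623) (nat_lit 10) .nil)))) (.g (nat_lit 0) (.e (nat_lit 343317) (nat_lit 0) .nil) .nil))) 
(.lf (nat_lit 568855) (.g (nat_lit 797) (.e (nat_lit 458789) (nat_lit 23) (.e (nat_lit 532503) (nat_lit 1) (.e (nat_lit 57694) (nat_lit 157) .nil))) (.g (nat_lit 0) (.e (nat_lit 346209) (nat_lit 0) .nil) .nil)))) (.nd (nat_lit 9) 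
(.lf (nat_lit 568599) (.g (nat_lit 463) (.e (nat_lit 466688) (nat_lit 5) (.e (nat_lit 73730) (nat_lit 0) (.e (nat_lit 7261) (nat_lit 384) (.e (nat_lit 57423) (nat_lit 14) (.e (nat_lit 360192) (nat_lit 15) .nil))))) (.g (nat_lit 0) (.e (nat_lit 345597) (nat_lit 0) .nil) .nil))) 
(.lf (nat_lit 569111) (.g (nat_lit 2211) (.e (nat_lit 466947) (nat_lit 0) (.e (nat_lit 1855) (nat_lit 124) (.e (nat_lit 557101) (nat_lit 13) (.e (nat_lit 172115) (nat_lit 10) (.e (nat_lit 434244) (nat_lit 28) (.e (nat_lit 573449) (nat_lit 9) (.e (nat_lit 481) (nat_lit 37) .nil))))))) (.g (nat_lit 1) (.e (nat_lit 347098) (nat_lit 0) .nil) .nil))))) (.nd (nat_lit 8) (.nd (nat_lit 9) 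
(.lf (nat_lit 568471) (.g (nat_lit 908) (.e (nat_lit 458496) (nat_lit 15) (.e (nat_lit 647184) (nat_lit 5) (.e (nat_lit 180278) (nat_lit 32) (.e (nat_lit 1426) (nat_lit 108) (.e (nat_lit 336433) (nat_lit 30) .nil))))) (.g (nat_lit 0) (.e (nat_lit 343721) (nat_lit 0) .nil) .nil))) 
(.lf (nat_lit 568983) (.g (nat_lit 3196) (.e (nat_lit 458789) (nat_lit 23) (.e (nat_lit 532569) (nat_lit 16) (.e (nat_lit 401448) (nat_lit 10) (.e (nat_lit 434246) (nat_lit 28) (.e (nat_lit 573471) (nat_lit 11) (.e (nat_lit 16454) (nat_lit 11) .nil)))))) (.g (nat_lit 1) (.e (nat_lit 346844) (nat_lit 0) .nil) .nil)))) (.nd (nat_lit 9) 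
(.lf (nat_lit 568727) (.g (nat_lit 1432) (.e (nat_lit 458788) (nat_lit 23) (.e (nat_lit 532504) (nat_lit 1) (.e (nat_lit 57692) (nat_lit 156) (.e (nat_lit 163905) (nat_lit 12) .nil)))) (.g (nat_lit 0) (.e (nat_lit 346000) (nat_lit 0) .nil) .nil))) 
(.lf (nat_lit 569239) (.g (nat_lit 3252) (.e (nat_lit 466954) (nat_lit 11) (.e (nat_lit 335986) (nat_lit 1) (.e (nat_lit 57688) (nat_lit 156) (.e (nat_lit 163907) (nat_lit 12) (.e (nat_lit 426436) (nat_lit 18) (.e (nat_lit 98380) (nat_lit 31) .nil)))))) (.g (nat_lit 1) (.e (nat_lit 347526) (nat_lit 0) .nil) .nil)))))) (.nd (nat_lit 7) (.nd (nat_lit 8) (.nd (nat_lit 9) 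
(.lf (nat_lit 568407) (.g (nat_lit 1671) (.e (nat_lit 450595) (nat_lit 17) (.e (nat_lit 663574) (nat_lit 9) (.e (nat_lit 7936) (nat_lit 24) (.e (nat_lit 360484) (nat_lit 15) (.e (nat_lit 647195) (nat_lit 9) (.e (nat_lit 7936) (nat_lit 35) .nil)))))) (.g (nat_lit 1) (.e (nat_lit 343602) (nat_lit 0) .nil) .nil))) 
(.lf (nat_lit 568919) (.g (nat_lit 3026) (.e (nat_lit 458789) (nat_lit 23) (.e (nat_lit 532549) (nat_lit 12) (.e (nat_lit 360474) (nat_lit 8) (.e (nat_lit 557091) (nat_lit 12) .nil)))) (.g (nat_lit 0) (.e (nat_lit 346530) (nat_lit 0) .nil) .nil)))) (.nd (nat_lit 9) 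
(.lf (nat_lit 568663) (.g (nat_lit 2623) (.e (nat_lit 458774) (nat_lit 18) (.e (nat_lit 5939) (nat_lit 322) (.e (nat_lit 57379) (nat_lit 3) (.e (nat_lit 98365) (nat_lit 26) (.e (nat_lit 426325) (nat_lit 13) (.e (nat_lit 491264) (nat_lit 13) .nil)))))) (.g (nat_lit 1) (.e (nat_lit 345755) (nat_lit 0) .nil) .nil))) 
(.lf (nat_lit 569175) (.g (nat_lit 555) (.e (nat_lit 466950) (nat_lit 11) (.e (nat_lit 335986) (nat_lit 1) (.e (nat_lit 57688) (nat_lit 156) .nil))) (.g (nat_lit 0) (.e (nat_lit 347239) (nat_lit 0) .nil) .nil))))) (.nd (nat_lit 8) (.nd (nat_lit 9) 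
(.lf (nat_lit 568535) (.g (nat_lit 1324) (.e (nat_lit 450605) (nat_lit 27) (.e (nat_lit 745491) (nat_lit 4) (.e (nat_lit 65616) (nat_lit 10) (.e (nat_lit 344138) (nat_lit 29) (.e (nat_lit 581636) (nat_lit 0) (.e (nat_lit 3016) (nat_lit 187) .nil)))))) (.g (nat_lit 1) (.e (nat_lit 345448) (nat_lit 0) .nil) .nil))) 
(.lf (nat_lit 569047) (.g (nat_lit 1603) (.e (nat_lit 458810) (nat_lit 43) (.e (nat_lit 696343) (nat_lit 8) (.e (nat_lit 172113) (nat_lit 10) (.e (nat_lit 434203) (nat_lit 18) (.e (nat_lit 6416) (nat_lit 341) .nil))))) (.g (nat_lit 0) (.e (nat_lit 346990) (nat_lit 0) .nil) .nil)))) (.nd (nat_lit 9) 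
(.lf (nat_lit 568791) (.g (nat_lit 2630) (.e (nat_lit 458789) (nat_lit 23) (.e (nat_lit 532499) (nat_lit 1) (.e (nat_lit 57688) (nat_lit 156) (.e (nat_lit 163905) (nat_lit 12) (.e (nat_lit 426566) (nat_lit 34) .nil))))) (.g (nat_lit 0) (.e (nat_lit 346093) (nat_lit 0) .nil) .nil))) 
(.lf (nat_lit 569303) (.g (nat_lit 2942) (.e (nat_lit 466954) (nat_lit 11) (.e (nat_lit 335995) (nat_lit 1) (.e (nat_lit 57687) (nat_lit 156) (.e (nat_lit 163903) (nat_lit 12) (.e (nat_lit 426436) (nat_lit 18) (.e (nat_lit 98380) (nat_lit 31) .nil)))))) (.g (nat_lit 1) (.e (nat_lit 347591) (nat_lit 0) .nil) .nil))))))) (.nd (nat_lit 6) (.nd (nat_lit 7) (.nd (nat_lit 8) (.nd (nat_lit 9) 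
(.lf (nat_lit 568375) (.g (nat_lit 1434) (.e (nat_lit 450591) (nat_lit 13) (.e (nat_lit 630821) (nat_lit 16) (.e (nat_lit 65617) (nat_lit 10) (.e (nat_lit 344157) (nat_lit 36) (.e (nat_lit 638986) (nat_lit 5) (.e (nat_lit 3016) (nat_lit 187) .nil)))))) (.g (nat_lit 1) (.e (nat_lit 343445) (nat_lit 0) .nil) .nil))) 
(.lf (nat_lit 568887) (.g (nat_lit 2705) (.e (nat_lit 458789) (nat_lit 23) (.e (nat_lit 532522) (nat_lit 7) (.e (nat_lit 319533) (nat_lit 16) (.e (nat_lit 286734) (nat_lit 3) (.e (nat_lit 98365) (nat_lit 26) .nil))))) (.g (nat_lit 0) (.e (nat_lit 346253) (nat_lit 0) .nil) .nil)))) (.nd (nat_lit 9) 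
(.lf (nat_lit 568631) (.g (nat_lit 1540) (.e (nat_lit 466688) (nat_lit 5) (.e (nat_lit 73775) (nat_lit 26) (.e (nat_lit 778466) (nat_lit 11) (.e (nat_lit 24626) (nat_lit 9) (.e (nat_lit 336439) (nat_lit 31) .nil))))) (.g (nat_lit 0) (.e (nat_lit 345634) (nat_lit 0) .nil) .nil))) 
(.lf (nat_lit 569143) (.g (nat_lit 1430) (.e (nat_lit 466949) (nat_lit 0) (.e (nat_lit 2174) (nat_lit 143) (.e (nat_lit 712745) (nat_lit 27) (.e (nat_lit 425984) (nat_lit 0) .nil)))) (.g (nat_lit 0) (.e (nat_lit 347144) (nat_lit 0) .nil) .nil))))) (.nd (nat_lit 8) (.nd (nat_lit 9) 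
(.lf (nat_lit 568503) (.g (nat_lit 281) (.e (nat_lit 450601) (nat_lit 21) (.e (nat_lit 696345) (nat_lit 9) (.e (nat_lit 188160) (nat_lit 43) .nil))) (.g (nat_lit 0) (.e (nat_lit 344476) (nat_lit 0) .nil) .nil))) 
(.lf (nat_lit 569015) (.g (nat_lit 1159) (.e (nat_lit 458790) (nat_lit 23) (.e (nat_lit 532550) (nat_lit 12) (.e (nat_lit 360475) (nat_lit 8) .nil))) (.g (nat_lit 0) (.e (nat_lit 346917) (nat_lit 0) .nil) .nil)))) (.nd (nat_lit 9) 
(.lf (nat_lit 568759) (.g (nat_lit 4939) (.e (nat_lit 458788) (nat_lit 23) (.e (nat_lit 532550) (nat_lit 12) (.e (nat_lit 360475) (nat_lit 8) (.e (nat_lit 557091) (nat_lit 12) (.e (nat_lit 163843) (nat_lit 0) (.e (nat_lit 6420) (nat_lit 341) (.e (nat_lit 163929) (nat_lit 16) .nil))))))) (.g (nat_lit 1) (.e (nat_lit 346043) (nat_lit 0) .nil) .nil))) 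
(.lf (nat_lit 569271) (.g (nat_lit 689) (.e (nat_lit 466954) (nat_lit 11) (.e (nat_lit 335988) (nat_lit 1) (.e (nat_lit 57690) (nat_lit 156) .nil))) (.g (nat_lit 0) (.e (nat_lit 347558) (nat_lit 0) .nil) .nil)))))) (.nd (nat_lit 7) (.nd (nat_lit 8) (.nd (nat_lit 9) 
(.lf (nat_lit 568439) (.g (nat_lit 1360) (.e (nat_lit 458496) (nat_lit 15) (.e (nat_lit 647183) (nat_lit 4) (.e (nat_lit 172082) (nat_lit 7) (.e (nat_lit 409642) (nat_lit 17) (.e (nat_lit 302848) (nat_lit 30) .nil))))) (.g (nat_lit 0) (.e (nat_lit 343680) (nat_lit 0) .nil) .nil))) 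
(.lf (nat_lit 568951) (.g (nat_lit 3119) (.e (nat_lit 458789) (nat_lit 23) (.e (nat_lit 532569) (nat_lit 16) (.e (nat_lit 401448) (nat_lit 10) (.e (nat_lit 434231) (nat_lit 23) (.e (nat_lit 532481) (nat_lit 0) (.e (nat_lit 6691) (nat_lit 357) (.e (nat_lit 3034) (nat_lit 188) .nil))))))) (.g (nat_lit 1) (.e (nat_lit 346808) (nat_lit 0) .nil) .nil)))) (.nd (nat_lit 9) 
(.lf (nat_lit 568695) (.g (nat_lit 1871) (.e (nat_lit 458787) (nat_lit 23) (.e (nat_lit 532503) (nat_lit 1) (.e (nat_lit 57651) (nat_lit 152) (.e (nat_lit 2619) (nat_lit 164) (.e (nat_lit 179968) (nat_lit 34) .nil))))) (.g (nat_lit 0) (.e (nat_lit 345957) (nat_lit 0) .nil) .nil))) 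
(.lf (nat_lit 569207) (.g (nat_lit 1241) (.e (nat_lit 466952) (nat_lit 11) (.e (nat_lit 335998) (nat_lit 1) (.e (nat_lit 57654) (nat_lit 152) (.e (nat_lit 2399) (nat_lit 157) .nil)))) (.g (nat_lit 0) (.e (nat_lit 347344) (nat_lit 0) .nil) .nil))))) (.nd (nat_lit 8) (.nd (nat_lit 9) 
(.lf (nat_lit 568567) (.g (nat_lit 1267) (.e (nat_lit 450605) (nat_lit 27) (.e (nat_lit 745493) (nat_lit 6) (.e (nat_lit 81946) (nat_lit 20) (.e (nat_lit 1886) (nat_lit 127) (.e (nat_lit 581636) (nat_lit 0) (.e (nat_lit 3016) (nat_lit 187) .nil)))))) (.g (nat_lit 1) (.e (nat_lit 345508) (nat_lit 0) .nil) .nil))) 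
(.lf (nat_lit 569079) (.g (nat_lit 1210) (.e (nat_lit 466946) (nat_lit 0) (.e (nat_lit 2059) (nat_lit 142) (.e (nat_lit 704595) (nat_lit 5) (.e (nat_lit 188160) (nat_lit 36) .nil)))) (.g (nat_lit 0) (.e (nat_lit 347059) (nat_lit 0) .nil) .nil)))) (.nd (nat_lit 9) 
(.lf (nat_lit 568823) (.g (nat_lit 3160) (.e (nat_lit 458789) (nat_lit 23) (.e (nat_lit 532502) (nat_lit 1) (.e (nat_lit 57688) (nat_lit 156) (.e (nat_lit 163907) (nat_lit 12) (.e (nat_lit 426568) (nat_lit 34) (.e (nat_lit 393287) (nat_lit 25) .nil)))))) (.g (nat_lit 1) (.e (nat_lit 346145) (nat_lit 0) .nil) .nil))) 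
(.lf (nat_lit 569335) (.g (nat_lit 1746) (.e (nat_lit 466954) (nat_lit 11) (.e (nat_lit 335996) (nat_lit 1) (.e (nat_lit 57692) (nat_lit 156) (.e (nat_lit 163907) (nat_lit 12) (.e (nat_lit 426437) (nat_lit 18) .nil))))) (.g (nat_lit 0) (.e (nat_lit 347623) (nat_lit 0) .nil) .nil))))))))) (.nd (nat_lit 4) (.nd (nat_lit 5) (.nd (nat_lit 6) (.nd (nat_lit 7) (.nd (nat_lit 8) (.nd (nat_lit 9) 
(.lf (nat_lit 568335) (.g (nat_lit 2349) (.e (nat_lit 450588) (nat_lit 10) (.e (nat_lit 573475) (nat_lit 12) (.e (nat_lit 57574) (nat_lit 55) (.e (nat_lit 778465) (nat_lit 11) (.e (nat_lit 24589) (nat_lit 0) .nil))))) (.g (nat_lit 0) (.e (nat_lit 343215) (nat_lit 0) .nil) .nil))) 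
(.lf (nat_lit 568847) (.g (nat_lit 1976) (.e (nat_lit 458789) (nat_lit 23) (.e (nat_lit 532503) (nat_lit 1) (.e (nat_lit 57689) (nat_lit 156) (.e (nat_lit 163907) (nat_lit 12) (.e (nat_lit 426568) (nat_lit 34) .nil))))) (.g (nat_lit 0) (.e (nat_lit 346192) (nat_lit 0) .nil) .nil)))) (.nd (nat_lit 9) 
(.lf (nat_lit 568591) (.g (nat_lit 1482) (.e (nat_lit 466688) (nat_lit 5) (.e (nat_lit 73729) (nat_lit 0) (.e (nat_lit 7265) (nat_lit 384) (.e (nat_lit 57423) (nat_lit 14) (.e (nat_lit 360192) (nat_lit 15) .nil))))) (.g (nat_lit 0) (.e (nat_lit 345589) (nat_lit 0) .nil) .nil))) 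
(.lf (nat_lit 569103) (.g (nat_lit 2246) (.e (nat_lit 466947) (nat_lit 0) (.e (nat_lit 1800) (nat_lit 119) (.e (nat_lit 516120) (nat_lit 1) (.e (nat_lit 164331) (nat_lit 230) (.e (nat_lit 163942) (nat_lit 19) (.e (nat_lit 491264) (nat_lit 14) .nil)))))) (.g (nat_lit 1) (.e (nat_lit 347089) (nat_lit 0) .nil) .nil))))) (.nd (nat_lit 8) (.nd (nat_lit 9) 
(.lf (nat_lit 568463) (.g (nat_lit 1361) (.e (nat_lit 458496) (nat_lit 15) (.e (nat_lit 647183) (nat_lit 4) (.e (nat_lit 172116) (nat_lit 10) (.e (nat_lit 434272) (nat_lit 38) (.e (nat_lit 655362) (nat_lit 0) .nil))))) (.g (nat_lit 0) (.e (nat_lit 343704) (nat_lit 0) .nil) .nil))) 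
(.lf (nat_lit 568975) (.g (nat_lit 3807) (.e (nat_lit 458789) (nat_lit 23) (.e (nat_lit 532569) (nat_lit 16) (.e (nat_lit 401448) (nat_lit 10) (.e (nat_lit 434244) (nat_lit 28) (.e (nat_lit 573471) (nat_lit 11) (.e (nat_lit 16453) (nat_lit 11) .nil)))))) (.g (nat_lit 1) (.e (nat_lit 346836) (nat_lit 0) .nil) .nil)))) (.nd (nat_lit 9) 
(.lf (nat_lit 568719) (.g (nat_lit 7192) (.e (nat_lit 458787) (nat_lit 23) (.e (nat_lit 532550) (nat_lit 12) (.e (nat_lit 360475) (nat_lit 8) (.e (nat_lit 557090) (nat_lit 12) .nil)))) (.g (nat_lit 0) (.e (nat_lit 345992) (nat_lit 0) .nil) .nil))) 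
(.lf (nat_lit 569231) (.g (nat_lit 2205) (.e (nat_lit 466954) (nat_lit 11) (.e (nat_lit 335986) (nat_lit 1) (.e (nat_lit 57688) (nat_lit 156) (.e (nat_lit 163902) (nat_lit 12) (.e (nat_lit 426436) (nat_lit 18) (.e (nat_lit 98379) (nat_lit 31) .nil)))))) (.g (nat_lit 1) (.e (nat_lit 347518) (nat_lit 0) .nil) .nil)))))) (.nd (nat_lit 7) (.nd (nat_lit 8) (.nd (nat_lit 9) 
(.lf (nat_lit 568399) (.g (nat_lit 735) (.e (nat_lit 450595) (nat_lit 17) (.e (nat_lit 663573) (nat_lit 9) (.e (nat_lit 7936) (nat_lit 24) (.e (nat_lit 360482) (nat_lit 15) (.e (nat_lit 647196) (nat_lit 9) (.e (nat_lit 7936) (nat_lit 35) .nil)))))) (.g (nat_lit 1) (.e (nat_lit 343593) (nat_lit 0) .nil) .nil))) 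
(.lf (nat_lit 568911) (.g (nat_lit 4838) (.e (nat_lit 458789) (nat_lit 23) (.e (nat_lit 532530) (nat_lit 9) (.e (nat_lit 336310) (nat_lit 16) (.e (nat_lit 164183) (nat_lit 154) (.e (nat_lit 57378) (nat_lit 3) (.e (nat_lit 98333) (nat_lit 18) (.e (nat_lit 164325) (nat_lit 230) (.e (nat_lit 163926) (nat_lit 16) .nil)))))))) (.g (nat_lit 1) (.e (nat_lit 346351) (nat_lit 0) .nil) .nil)))) 
(.nd (nat_lit 9) 
(.lf (nat_lit 568655) (.g (nat_lit 1958) (.e (nat_lit 458771) (nat_lit 18) (.e (nat_lit 5939) (nat_lit 322) (.e (nat_lit 57379) (nat_lit 3) (.e (nat_lit 98365) (nat_lit 26) (.e (nat_lit 426325) (nat_lit 13) (.e (nat_lit 491264) (nat_lit 13) .nil)))))) (.g (nat_lit 1) (.e (nat_lit 345711) (nat_lit 0) .nil) .nil))) 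
(.lf (nat_lit 569167) (.g (nat_lit 1563) (.e (nat_lit 474880) (nat_lit 3) (.e (nat_lit 98341) (nat_lit 20) (.e (nat_lit 221194) (nat_lit 11) (.e (nat_lit 336025) (nat_lit 3) .nil)))) (.g (nat_lit 0) (.e (nat_lit 347209) (nat_lit 0) .nil) .nil))))) (.nd (nat_lit 8) (.nd (nat_lit 9) 
(.lf (nat_lit 568527) (.g (nat_lit 1790) (.e (nat_lit 450605) (nat_lit 27) (.e (nat_lit 745491) (nat_lit 4) (.e (nat_lit 65610) (nat_lit 10) (.e (nat_lit 344138) (nat_lit 29) (.e (nat_lit 581636) (nat_lit 0) (.e (nat_lit 3015) (nat_lit 187) .nil)))))) (.g (nat_lit 1) (.e (nat_lit 345438) (nat_lit 0) .nil) .nil))) 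
(.lf (nat_lit 569039) (.g (nat_lit 1602) (.e (nat_lit 458795) (nat_lit 28) (.e (nat_lit 573484) (nat_lit 13) (.e (nat_lit 65568) (nat_lit 2) (.e (nat_lit 98048) (nat_lit 0) .nil)))) (.g (nat_lit 0) (.e (nat_lit 346956) (nat_lit 0) .nil) .nil)))) (.nd (nat_lit 9) 
(.lf (nat_lit 568783) (.g (nat_lit 899) (.e (nat_lit 458789) (nat_lit 23) (.e (nat_lit 532499) (nat_lit 1) (.e (nat_lit 57686) (nat_lit 156) (.e (nat_lit 163904) (nat_lit 12) .nil)))) (.g (nat_lit 0) (.e (nat_lit 346082) (nat_lit 0) .nil) .nil))) 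
(.lf (nat_lit 569295) (.g (nat_lit 2057) (.e (nat_lit 466954) (nat_lit 11) (.e (nat_lit 335994) (nat_lit 1) (.e (nat_lit 57691) (nat_lit 156) (.e (nat_lit 163907) (nat_lit 12) (.e (nat_lit 426434) (nat_lit 18) (.e (nat_lit 98381) (nat_lit 31) .nil)))))) (.g (nat_lit 1) (.e (nat_lit 347582) (nat_lit 0) .nil) .nil))))))) (.nd (nat_lit 6) (.nd (nat_lit 7) (.nd (nat_lit 8) (.nd (nat_lit 9) 
(.lf (nat_lit 568367) (.g (nat_lit 699) (.e (nat_lit 450591) (nat_lit 13) (.e (nat_lit 630821) (nat_lit 16) (.e (nat_lit 65616) (nat_lit 10) (.e (nat_lit 344157) (nat_lit 36) (.e (nat_lit 638985) (nat_lit 5) (.e (nat_lit 3028) (nat_lit 187) .nil)))))) (.g (nat_lit 1) (.e (nat_lit 343437) (nat_lit 0) .nil) .nil))) 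
(.lf (nat_lit 568879) (.g (nat_lit 1921) (.e (nat_lit 458789) (nat_lit 23) (.e (nat_lit 532515) (nat_lit 3) (.e (nat_lit 114719) (nat_lit 23) (.e (nat_lit 98334) (nat_lit 18) (.e (nat_lit 164401) (nat_lit 256) .nil))))) (.g (nat_lit 0) (.e (nat_lit 346245) (nat_lit 0) .nil) .nil)))) (.nd (nat_lit 9) 
(.lf (nat_lit 568623) (.g (nat_lit 1705) (.e (nat_lit 466688) (nat_lit 5) (.e (nat_lit 73775) (nat_lit 26) (.e (nat_lit 778362) (nat_lit 9) (.e (nat_lit 334) (nat_lit 26) (.e (nat_lit 384768) (nat_lit 15) .nil))))) (.g (nat_lit 0) (.e (nat_lit 345623) (nat_lit 0) .nil) .nil))) 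
(.lf (nat_lit 569135) (.g (nat_lit 1887) (.e (nat_lit 466949) (nat_lit 0) (.e (nat_lit 1800) (nat_lit 119) (.e (nat_lit 516120) (nat_lit 1) (.e (nat_lit 164332) (nat_lit 230) (.e (nat_lit 163902) (nat_lit 12) .nil))))) (.g (nat_lit 0) (.e (nat_lit 347134) (nat_lit 0) .nil) .nil))))) (.nd (nat_lit 8) (.nd (nat_lit 9) 
(.lf (nat_lit 568495) (.g (nat_lit 402) (.e (nat_lit 450601) (nat_lit 21) (.e (nat_lit 696344) (nat_lit 8) (.e (nat_lit 172112) (nat_lit 10) .nil))) (.g (nat_lit 0) (.e (nat_lit 344410) (nat_lit 0) .nil) .nil))) 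
(.lf (nat_lit 569007) (.g (nat_lit 1452) (.e (nat_lit 458790) (nat_lit 23) (.e (nat_lit 532503) (nat_lit 1) (.e (nat_lit 57688) (nat_lit 156) (.e (nat_lit 163904) (nat_lit 12) .nil)))) (.g (nat_lit 0) (.e (nat_lit 346899) (nat_lit 0) .nil) .nil)))) (.nd (nat_lit 9) 
(.lf (nat_lit 568751) (.g (nat_lit 4158) (.e (nat_lit 458788) (nat_lit 23) (.e (nat_lit 532550) (nat_lit 12) (.e (nat_lit 360474) (nat_lit 8) (.e (nat_lit 557094) (nat_lit 12) (.e (nat_lit 164022) (nat_lit 46) .nil))))) (.g (nat_lit 0) (.e (nat_lit 346034) (nat_lit 0) .nil) .nil))) 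
(.lf (nat_lit 569263) (.g (nat_lit 2505) (.e (nat_lit 466954) (nat_lit 11) (.e (nat_lit 335987) (nat_lit 1) (.e (nat_lit 57692) (nat_lit 156) (.e (nat_lit 163905) (nat_lit 12) (.e (nat_lit 426438) (nat_lit 18) (.e (nat_lit 98380) (nat_lit 31) .nil)))))) (.g (nat_lit 1) (.e (nat_lit 347550) (nat_lit 0) .nil) .nil)))))) (.nd (nat_lit 7) (.nd (nat_lit 8) (.nd (nat_lit 9) 
(.lf (nat_lit 568431) (.g (nat_lit 2164) (.e (nat_lit 450597) (nat_lit 17) (.e (nat_lit 663583) (nat_lit 11) (.e (nat_lit 24640) (nat_lit 10) (.e (nat_lit 344156) (nat_lit 36) (.e (nat_lit 638985) (nat_lit 5) .nil))))) (.g (nat_lit 0) (.e (nat_lit 343650) (nat_lit 0) .nil) .nil))) 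
(.lf (nat_lit 568943) (.g (nat_lit 4356) (.e (nat_lit 458789) (nat_lit 23) (.e (nat_lit 532550) (nat_lit 12) (.e (nat_lit 360475) (nat_lit 8) (.e (nat_lit 557091) (nat_lit 12) (.e (nat_lit 163852) (nat_lit 0) .nil))))) (.g (nat_lit 0) (.e (nat_lit 346567) (nat_lit 0) .nil) .nil)))) (.nd (nat_lit 9) 
(.lf (nat_lit 568687) (.g (nat_lit 966) (.e (nat_lit 458774) (nat_lit 18) (.e (nat_lit 5548) (nat_lit 306) (.e (nat_lit 2638) (nat_lit 165) (.e (nat_lit 180278) (nat_lit 32) .nil)))) (.g (nat_lit 0) (.e (nat_lit 345863) (nat_lit 0) .nil) .nil))) 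
(.lf (nat_lit 569199) (.g (nat_lit 1267) (.e (nat_lit 466950) (nat_lit 11) (.e (nat_lit 335996) (nat_lit 1) (.e (nat_lit 57692) (nat_lit 156) (.e (nat_lit 163907) (nat_lit 12) .nil)))) (.g (nat_lit 0) (.e (nat_lit 347264) (nat_lit 0) .nil) .nil))))) (.nd (nat_lit 8) (.nd (nat_lit 9) 
(.lf (nat_lit 568559) (.g (nat_lit 951) (.e (nat_lit 450605) (nat_lit 27) (.e (nat_lit 745493) (nat_lit 6) (.e (nat_lit 81942) (nat_lit 20) (.e (nat_lit 1886) (nat_lit 127) (.e (nat_lit 581636) (nat_lit 0) (.e (nat_lit 3016) (nat_lit 187) .nil)))))) (.g (nat_lit 1) (.e (nat_lit 345495) (nat_lit 0) .nil) .nil))) 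
(.lf (nat_lit 569071) (.g (nat_lit 3584) (.e (nat_lit 466945) (nat_lit 0) (.e (nat_lit 1853) (nat_lit 124) (.e (nat_lit 557097) (nat_lit 13) (.e (nat_lit 172115) (nat_lit 10) (.e (nat_lit 434244) (nat_lit 28) (.e (nat_lit 573458) (nat_lit 9) (.e (nat_lit 7936) (nat_lit 37) .nil))))))) (.g (nat_lit 1) (.e (nat_lit 347049) (nat_lit 0) .nil) .nil)))) (.nd (nat_lit 9) 
(.lf (nat_lit 568815) (.g (nat_lit 2884) (.e (nat_lit 458789) (nat_lit 23) (.e (nat_lit 532502) (nat_lit 1) (.e (nat_lit 57688) (nat_lit 156) (.e (nat_lit 163902) (nat_lit 12) (.e (nat_lit 426566) (nat_lit 34) (.e (nat_lit 393285) (nat_lit 25) .nil)))))) (.g (nat_lit 1) (.e (nat_lit 346137) (nat_lit 0) .nil) .nil))) 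
(.lf (nat_lit 569327) (.g (nat_lit 2144) (.e (nat_lit 466954) (nat_lit 11) (.e (nat_lit 335996) (nat_lit 1) (.e (nat_lit 57691) (nat_lit 156) (.e (nat_lit 163907) (nat_lit 12) (.e (nat_lit 426434) (nat_lit 18) .nil))))) (.g (nat_lit 0) (.e (nat_lit 347615) (nat_lit 0) .nil) .nil)))))))) (.nd (nat_lit 5) (.nd (nat_lit 6) (.nd (nat_lit 7) (.nd (nat_lit 8) (.nd (nat_lit 9) 
(.lf (nat_lit 568351) (.g (nat_lit 1844) (.e (nat_lit 450584) (nat_lit 9) (.e (nat_lit 565252) (nat_lit 0) (.e (nat_lit 1598) (nat_lit 111) (.e (nat_lit 360493) (nat_lit 27) (.e (nat_lit 819204) (nat_lit 0) (.e (nat_lit 3016) (nat_lit 187) .nil)))))) (.g (nat_lit 1) (.e (nat_lit 343329) (nat_lit 0) .nil) .nil))) 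
(.lf (nat_lit 568863) (.g (nat_lit 3006) (.e (nat_lit 458789) (nat_lit 23) (.e (nat_lit 532504) (nat_lit 1) (.e (nat_lit 57691) (nat_lit 156) (.e (nat_lit 163907) (nat_lit 12) (.e (nat_lit 426566) (nat_lit 34) (.e (nat_lit 393287) (nat_lit 25) .nil)))))) (.g (nat_lit 1) (.e (nat_lit 346221) (nat_lit 0) .nil) .nil)))) (.nd (nat_lit 9) 
(.lf (nat_lit 568607) (.g (nat_lit 1129) (.e (nat_lit 466688) (nat_lit 5) (.e (nat_lit 73731) (nat_lit 0) (.e (nat_lit 7261) (nat_lit 384) (.e (nat_lit 57436) (nat_lit 17) (.e (nat_lit 384768) (nat_lit 15) .nil))))) (.g (nat_lit 0) (.e (nat_lit 345605) (nat_lit 0) .nil) .nil))) 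
(.lf (nat_lit 569119) (.g (nat_lit 1045) (.e (nat_lit 466947) (nat_lit 0) (.e (nat_lit 2059) (nat_lit 142) (.e (nat_lit 704595) (nat_lit 5) (.e (nat_lit 180283) (nat_lit 45) .nil)))) (.g (nat_lit 0) (.e (nat_lit 347111) (nat_lit 0) .nil) .nil))))) (.nd (nat_lit 8) (.nd (nat_lit 9) 
(.lf (nat_lit 568479) (.g (nat_lit 3561) (.e (nat_lit 450593) (nat_lit 16) (.e (nat_lit 655378) (nat_lit 4) (.e (nat_lit 172118) (nat_lit 12) (.e (nat_lit 475211) (nat_lit 41) (.e (nat_lit 712755) (nat_lit 30) .nil))))) (.g (nat_lit 1) (.e (nat_lit 343873) (nat_lit 0) .nil) .nil))) 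
(.lf (nat_lit 568991) (.g (nat_lit 3508) (.e (nat_lit 458789) (nat_lit 23) (.e (nat_lit 532569) (nat_lit 16) (.e (nat_lit 401448) (nat_lit 10) (.e (nat_lit 434248) (nat_lit 28) (.e (nat_lit 573452) (nat_lit 9) (.e (nat_lit 430) (nat_lit 32) (.e (nat_lit 426300) (nat_lit 11) .nil))))))) (.g (nat_lit 1) (.e (nat_lit 346852) (nat_lit 0) .nil) .nil)))) (.nd (nat_lit 9) 
(.lf (nat_lit 568735) (.g (nat_lit 645) (.e (nat_lit 458788) (nat_lit 23) (.e (nat_lit 532523) (nat_lit 7) (.e (nat_lit 319530) (nat_lit 16) .nil))) (.g (nat_lit 0) (.e (nat_lit 346008) (nat_lit 0) .nil) .nil))) 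
(.lf (nat_lit 569247) (.g (nat_lit 2513) (.e (nat_lit 466954) (nat_lit 11) (.e (nat_lit 335986) (nat_lit 1) (.e (nat_lit 57691) (nat_lit 156) (.e (nat_lit 163907) (nat_lit 12) (.e (nat_lit 426434) (nat_lit 18) (.e (nat_lit 98381) (nat_lit 31) .nil)))))) (.g (nat_lit 1) (.e (nat_lit 347534) (nat_lit 0) .nil) .nil)))))) (.nd (nat_lit 7) (.nd (nat_lit 8) (.nd (nat_lit 9) 
(.lf (nat_lit 568415) (.g (nat_lit 2193) (.e (nat_lit 450595) (nat_lit 17) (.e (nat_lit 663583) (nat_lit 11) (.e (nat_lit 24640) (nat_lit 10) (.e (nat_lit 344156) (nat_lit 36) (.e (nat_lit 638985) (nat_lit 5) .nil))))) (.g (nat_lit 0) (.e (nat_lit 343617) (nat_lit 0) .nil) .nil))) 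
(.lf (nat_lit 568927) (.g (nat_lit 3774) (.e (nat_lit 458789) (nat_lit 23) (.e (nat_lit 532549) (nat_lit 12) (.e (nat_lit 360475) (nat_lit 8) (.e (nat_lit 557091) (nat_lit 12) (.e (nat_lit 163843) (nat_lit 0) .nil))))) (.g (nat_lit 0) (.e (nat_lit 346542) (nat_lit 0) .nil) .nil)))) (.nd (nat_lit 9) 
(.lf (nat_lit 568671) (.g (nat_lit 4743) (.e (nat_lit 458774) (nat_lit 18) (.e (nat_lit 5547) (nat_lit 306) (.e (nat_lit 2610) (nat_lit 163) (.e (nat_lit 163977) (nat_lit 30) (.e (nat_lit 573492) (nat_lit 15) (.e (nat_lit 81956) (nat_lit 23) (.e (nat_lit 98378) (nat_lit 30) .nil))))))) (.g (nat_lit 1) (.e (nat_lit 345792) (nat_lit 0) .nil) .nil))) 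
(.lf (nat_lit 569183) (.g (nat_lit 1914) (.e (nat_lit 466950) (nat_lit 11) (.e (nat_lit 335995) (nat_lit 1) (.e (nat_lit 57688) (nat_lit 156) (.e (nat_lit 163902) (nat_lit 12) (.e (nat_lit 426438) (nat_lit 18) .nil))))) (.g (nat_lit 0) (.e (nat_lit 347248) (nat_lit 0) .nil) .nil))))) (.nd (nat_lit 8) (.nd (nat_lit 9) 
(.lf (nat_lit 568543) (.g (nat_lit 1607) (.e (nat_lit 450605) (nat_lit 27) (.e (nat_lit 745491) (nat_lit 4) (.e (nat_lit 65619) (nat_lit 10) (.e (nat_lit 344138) (nat_lit 29) (.e (nat_lit 581636) (nat_lit 0) (.e (nat_lit 3022) (nat_lit 187) .nil)))))) (.g (nat_lit 1) (.e (nat_lit 345460) (nat_lit 0) .nil) .nil))) 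
(.lf (nat_lit 569055) (.g (nat_lit 1102) (.e (nat_lit 458811) (nat_lit 44) (.e (nat_lit 704737) (nat_lit 11) (.e (nat_lit 16448) (nat_lit 10) .nil))) (.g (nat_lit 0) (.e (nat_lit 347004) (nat_lit 0) .nil) .nil)))) (.nd (nat_lit 9) 
(.lf (nat_lit 568799) (.g (nat_lit 681) (.e (nat_lit 458789) (nat_lit 23) (.e (nat_lit 532501) (nat_lit 1) (.e (nat_lit 57661) (nat_lit 152) .nil))) (.g (nat_lit 0) (.e (nat_lit 346112) (nat_lit 0) .nil) .nil))) 
(.lf (nat_lit 569311) (.g (nat_lit 2645) (.e (nat_lit 466954) (nat_lit 11) (.e (nat_lit 335995) (nat_lit 1) (.e (nat_lit 57688) (nat_lit 156) (.e (nat_lit 163907) (nat_lit 12) (.e (nat_lit 426436) (nat_lit 18) .nil))))) (.g (nat_lit 0) (.e (nat_lit 347599) (nat_lit 0) .nil) .nil))))))) (.nd (nat_lit 6) (.nd (nat_lit 7) (.nd (nat_lit 8) (.nd (nat_lit 9) 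
(.lf (nat_lit 568383) (.g (nat_lit 1112) (.e (nat_lit 450591) (nat_lit 13) (.e (nat_lit 630821) (nat_lit 16) (.e (nat_lit 65620) (nat_lit 10) (.e (nat_lit 344157) (nat_lit 36) (.e (nat_lit 638986) (nat_lit 5) (.e (nat_lit 3022) (nat_lit 187) .nil)))))) (.g (nat_lit 1) (.e (nat_lit 343454) (nat_lit 0) .nil) .nil))) 
(.lf (nat_lit 568895) (.g (nat_lit 2862) (.e (nat_lit 458789) (nat_lit 23) (.e (nat_lit 532523) (nat_lit 7) (.e (nat_lit 319530) (nat_lit 16) (.e (nat_lit 286735) (nat_lit 3) (.e (nat_lit 98364) (nat_lit 26) .nil))))) (.g (nat_lit 0) (.e (nat_lit 346261) (nat_lit 0) .nil) .nil)))) (.nd (nat_lit 9) 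
(.lf (nat_lit 568639) (.g (nat_lit 1573) (.e (nat_lit 466688) (nat_lit 5) (.e (nat_lit 73776) (nat_lit 26) (.e (nat_lit 778362) (nat_lit 9) (.e (nat_lit 334) (nat_lit 26) (.e (nat_lit 384768) (nat_lit 15) .nil))))) (.g (nat_lit 0) (.e (nat_lit 345646) (nat_lit 0) .nil) .nil))) 
(.lf (nat_lit 569151) (.g (nat_lit 1510) (.e (nat_lit 474880) (nat_lit 3) (.e (nat_lit 98333) (nat_lit 18) (.e (nat_lit 164332) (nat_lit 230) (.e (nat_lit 163941) (nat_lit 19) (.e (nat_lit 491264) (nat_lit 14) .nil))))) (.g (nat_lit 0) (.e (nat_lit 347170) (nat_lit 0) .nil) .nil))))) (.nd (nat_lit 8) (.nd (nat_lit 9) 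
(.lf (nat_lit 568511) (.g (nat_lit 1564) (.e (nat_lit 450605) (nat_lit 27) (.e (nat_lit 745475) (nat_lit 0) (.e (nat_lit 1586) (nat_lit 111) (.e (nat_lit 360477) (nat_lit 11) (.e (nat_lit 581635) (nat_lit 0) .nil))))) (.g (nat_lit 0) (.e (nat_lit 345418) (nat_lit 0) .nil) .nil))) 
(.lf (nat_lit 569023) (.g (nat_lit 3372) (.e (nat_lit 458791) (nat_lit 24) (.e (nat_lit 540706) (nat_lit 12) (.e (nat_lit 360475) (nat_lit 8) (.e (nat_lit 557091) (nat_lit 12) (.e (nat_lit 163843) (nat_lit 0) .nil))))) (.g (nat_lit 0) (.e (nat_lit 346930) (nat_lit 0) .nil) .nil)))) (.nd (nat_lit 9) 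
(.lf (nat_lit 568767) (.g (nat_lit 3092) (.e (nat_lit 458789) (nat_lit 23) (.e (nat_lit 532481) (nat_lit 0) (.e (nat_lit 6724) (nat_lit 362) (.e (nat_lit 180252) (nat_lit 10) (.e (nat_lit 573470) (nat_lit 11) (.e (nat_lit 16454) (nat_lit 11) .nil)))))) (.g (nat_lit 1) (.e (nat_lit 346062) (nat_lit 0) .nil) .nil))) 
(.lf (nat_lit 569279) (.g (nat_lit 1813) (.e (nat_lit 466954) (nat_lit 11) (.e (nat_lit 335988) (nat_lit 1) (.e (nat_lit 57692) (nat_lit 156) (.e (nat_lit 163907) (nat_lit 12) (.e (nat_lit 426434) (nat_lit 18) .nil))))) (.g (nat_lit 0) (.e (nat_lit 347566) (nat_lit 0) .nil) .nil)))))) (.nd (nat_lit 7) (.nd (nat_lit 8) (.nd (nat_lit 9) 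
(.lf (nat_lit 568447) (.g (nat_lit 1466) (.e (nat_lit 458496) (nat_lit 15) (.e (nat_lit 647183) (nat_lit 4) (.e (nat_lit 172107) (nat_lit 10) (.e (nat_lit 434272) (nat_lit 38) (.e (nat_lit 655362) (nat_lit 0) .nil))))) (.g (nat_lit 0) (.e (nat_lit 343688) (nat_lit 0) .nil) .nil))) 
(.lf (nat_lit 568959) (.g (nat_lit 2959) (.e (nat_lit 458789) (nat_lit 23) (.e (nat_lit 532569) (nat_lit 16) (.e (nat_lit 401448) (nat_lit 10) (.e (nat_lit 434231) (nat_lit 23) (.e (nat_lit 532568) (nat_lit 16) (.e (nat_lit 401449) (nat_lit 11) .nil)))))) (.g (nat_lit 1) (.e (nat_lit 346816) (nat_lit 0) .nil) .nil)))) (.nd (nat_lit 9) 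
(.lf (nat_lit 568703) (.g (nat_lit 1925) (.e (nat_lit 458787) (nat_lit 23) (.e (nat_lit 532523) (nat_lit 7) (.e (nat_lit 319530) (nat_lit 16) (.e (nat_lit 286735) (nat_lit 3) .nil)))) (.g (nat_lit 0) (.e (nat_lit 345965) (nat_lit 0) .nil) .nil))) 
(.lf (nat_lit 569215) (.g (nat_lit 928) (.e (nat_lit 466953) (nat_lit 11) (.e (nat_lit 335995) (nat_lit 1) (.e (nat_lit 57653) (nat_lit 152) .nil))) (.g (nat_lit 0) (.e (nat_lit 347463) (nat_lit 0) .nil) .nil))))) (.nd (nat_lit 8) (.nd (nat_lit 9) 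
(.lf (nat_lit 568575) (.g (nat_lit 1601) (.e (nat_lit 466688) (nat_lit 0) (.e (nat_lit 1239) (nat_lit 91) (.e (nat_lit 90170) (nat_lit 13) (.e (nat_lit 172113) (nat_lit 10) (.e (nat_lit 434247) (nat_lit 28) .nil))))) (.g (nat_lit 0) (.e (nat_lit 345525) (nat_lit 0) .nil) .nil))) 
(.lf (nat_lit 569087) (.g (nat_lit 2342) (.e (nat_lit 466947) (nat_lit 0) (.e (nat_lit 1800) (nat_lit 119) (.e (nat_lit 516117) (nat_lit 1) (.e (nat_lit 164332) (nat_lit 230) (.e (nat_lit 163941) (nat_lit 19) (.e (nat_lit 491264) (nat_lit 14) .nil)))))) (.g (nat_lit 1) (.e (nat_lit 347073) (nat_lit 0) .nil) .nil)))) (.nd (nat_lit 9) 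
(.lf (nat_lit 568831) (.g (nat_lit 2543) (.e (nat_lit 458789) (nat_lit 23) (.e (nat_lit 532503) (nat_lit 1) (.e (nat_lit 57685) (nat_lit 156) (.e (nat_lit 163902) (nat_lit 12) (.e (nat_lit 426568) (nat_lit 34) (.e (nat_lit 393287) (nat_lit 25) .nil)))))) (.g (nat_lit 1) (.e (nat_lit 346161) (nat_lit 0) .nil) .nil))) 
(.lf (nat_lit 569343) (.g (nat_lit 1724) (.e (nat_lit 466954) (nat_lit 11) (.e (nat_lit 336385) (nat_lit 27) (.e (nat_lit 426100) (nat_lit 1) (.e (nat_lit 164399) (nat_lit 256) (.e (nat_lit 57377) (nat_lit 3) .nil))))) (.g (nat_lit 0) (.e (nat_lit 347868) (nat_lit 0) .nil) .nil)))))))))))))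

noncomputable def tv5616 : DT := (.nd (nat_lit 0) (.nd (nat_lit 1) (.nd (nat_lit 2) (.nd (nat_lit 3) (.nd (nat_lit 4) (.nd (nat_lit 5) (.nd (nat_lit 6) (.nd (nat_lit 7) (.nd (nat_lit 8) (.nd (nat_lit 9) 
(.lf (nat_lit 569344) (.g (nat_lit 2011) (.e (nat_lit 466954) (nat_lit 11) (.e (nat_lit 336385) (nat_lit 27) (.e (nat_lit 426107) (nat_lit 1) (.e (nat_lit 164403) (nat_lit 256) (.e (nat_lit 57378) (nat_lit 3) .nil))))) (.g (nat_lit 0) (.e (nat_lit 347869) (nat_lit 0) .nil) .nil))) 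
(.lf (nat_lit 569856) (.g (nat_lit 1020) (.e (nat_lit 466981) (nat_lit 23) (.e (nat_lit 204813) (nat_lit 9) (.e (nat_lit 426100) (nat_lit 1) (.e (nat_lit 164398) (nat_lit 256) .nil)))) (.g (nat_lit 0) (.e (nat_lit 349389) (nat_lit 0) .nil) .nil)))) (.nd (nat_lit 9) 
(.lf (nat_lit 569600) (.g (nat_lit 1823) (.e (nat_lit 466971) (nat_lit 21) (.e (nat_lit 164324) (nat_lit 230) (.e (nat_lit 163886) (nat_lit 5) (.e (nat_lit 221191) (nat_lit 11) (.e (nat_lit 336153) (nat_lit 9) (.e (nat_lit 336442) (nat_lit 32) .nil)))))) (.g (nat_lit 1) (.e (nat_lit 348315) (nat_lit 0) .nil) .nil))) 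
(.lf (nat_lit 570112) (.g (nat_lit 2388) (.e (nat_lit 475175) (nat_lit 24) (.e (nat_lit 516119) (nat_lit 1) (.e (nat_lit 164327) (nat_lit 230) (.e (nat_lit 163903) (nat_lit 12) (.e (nat_lit 426481) (nat_lit 27) .nil))))) (.g (nat_lit 0) (.e (nat_lit 350346) (nat_lit 0) .nil) .nil))))) (.nd (nat_lit 8) (.nd (nat_lit 9) 
(.lf (nat_lit 569472) (.g (nat_lit 2315) (.e (nat_lit 466955) (nat_lit 20) (.e (nat_lit 3238) (nat_lit 197) (.e (nat_lit 532523) (nat_lit 7) (.e (nat_lit 319534) (nat_lit 16) (.e (nat_lit 286728) (nat_lit 0) .nil))))) (.g (nat_lit 0) (.e (nat_lit 348066) (nat_lit 0) .nil) .nil))) 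
(.lf (nat_lit 569984) (.g (nat_lit 2096) (.e (nat_lit 483072) (nat_lit 8) (.e (nat_lit 1669) (nat_lit 116) (.e (nat_lit 401456) (nat_lit 13) (.e (nat_lit 483413) (nat_lit 27) (.e (nat_lit 401451) (nat_lit 12) .nil))))) (.g (nat_lit 0) (.e (nat_lit 349958) (nat_lit 0) .nil) .nil)))) (.nd (nat_lit 9) 
(.lf (nat_lit 569728) (.g (nat_lit 2443) (.e (nat_lit 466978) (nat_lit 23) (.e (nat_lit 204846) (nat_lit 24) (.e (nat_lit 319530) (nat_lit 16) (.e (nat_lit 286735) (nat_lit 3) (.e (nat_lit 98380) (nat_lit 31) .nil))))) (.g (nat_lit 0) (.e (nat_lit 348835) (nat_lit 0) .nil) .nil))) 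
(.lf (nat_lit 570240) (.g (nat_lit 2548) (.e (nat_lit 475177) (nat_lit 24) (.e (nat_lit 516115) (nat_lit 1) (.e (nat_lit 164325) (nat_lit 230) (.e (nat_lit 163937) (nat_lit 18) .nil)))) (.g (nat_lit 0) (.e (nat_lit 350553) (nat_lit 0) .nil) .nil)))))) (.nd (nat_lit 7) (.nd (nat_lit 8) (.nd (nat_lit 9) 
(.lf (nat_lit 569408) (.g (nat_lit 1923) (.e (nat_lit 474880) (nat_lit 18) (.e (nat_lit 393251) (nat_lit 18) (.e (nat_lit 164325) (nat_lit 230) (.e (nat_lit 163866) (nat_lit 2) .nil)))) (.g (nat_lit 0) (.e (nat_lit 348001) (nat_lit 0) .nil) .nil))) 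
(.lf (nat_lit 569920) (.g (nat_lit 2404) (.e (nat_lit 466981) (nat_lit 23) (.e (nat_lit 204846) (nat_lit 24) (.e (nat_lit 319531) (nat_lit 16) (.e (nat_lit 286735) (nat_lit 3) (.e (nat_lit 98380) (nat_lit 31) .nil))))) (.g (nat_lit 1) (.e (nat_lit 349543) (nat_lit 0) .nil) .nil)))) (.nd (nat_lit 9) 
(.lf (nat_lit 569664) (.g (nat_lit 1833) (.e (nat_lit 466972) (nat_lit 21) (.e (nat_lit 164403) (nat_lit 256) (.e (nat_lit 57400) (nat_lit 10) (.e (nat_lit 319505) (nat_lit 10) (.e (nat_lit 5401) (nat_lit 302) .nil))))) (.g (nat_lit 0) (.e (nat_lit 348463) (nat_lit 0) .nil) .nil))) 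
(.lf (nat_lit 570176) (.g (nat_lit 1607) (.e (nat_lit 475176) (nat_lit 24) (.e (nat_lit 516150) (nat_lit 9) (.e (nat_lit 426436) (nat_lit 18) (.e (nat_lit 98385) (nat_lit 32) (.e (nat_lit 475177) (nat_lit 24) .nil))))) (.g (nat_lit 0) (.e (nat_lit 350440) (nat_lit 0) .nil) .nil))))) (.nd (nat_lit 8) (.nd (nat_lit 9) 
(.lf (nat_lit 569536) (.g (nat_lit 877) (.e (nat_lit 466969) (nat_lit 21) (.e (nat_lit 164322) (nat_lit 230) (.e (nat_lit 163885) (nat_lit 5) (.e (nat_lit 229120) (nat_lit 16) .nil)))) (.g (nat_lit 0) (.e (nat_lit 348188) (nat_lit 0) .nil) .nil))) 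
(.lf (nat_lit 570048) (.g (nat_lit 476) (.e (nat_lit 483072) (nat_lit 26) (.e (nat_lit 532544) (nat_lit 10) (.e (nat_lit 344120) (nat_lit 21) .nil))) (.g (nat_lit 0) (.e (nat_lit 350216) (nat_lit 0) .nil) .nil)))) (.nd (nat_lit 9) 
(.lf (nat_lit 569792) (.g (nat_lit 1548) (.e (nat_lit 466979) (nat_lit 23) (.e (nat_lit 204846) (nat_lit 24) (.e (nat_lit 319511) (nat_lit 10) (.e (nat_lit 5293) (nat_lit 298) (.e (nat_lit 1250) (nat_lit 92) .nil))))) (.g (nat_lit 0) (.e (nat_lit 348994) (nat_lit 0) .nil) .nil))) 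
(.lf (nat_lit 570304) (.g (nat_lit 2808) (.e (nat_lit 475177) (nat_lit 24) (.e (nat_lit 516118) (nat_lit 1) (.e (nat_lit 164332) (nat_lit 230) (.e (nat_lit 163905) (nat_lit 12) (.e (nat_lit 426478) (nat_lit 27) (.e (nat_lit 336386) (nat_lit 27) (.e (nat_lit 426306) (nat_lit 12) .nil))))))) (.g (nat_lit 1) (.e (nat_lit 350637) (nat_lit 0) .nil) .nil))))))) 
(.nd (nat_lit 6) (.nd (nat_lit 7) (.nd (nat_lit 8) (.nd (nat_lit 9) 
(.lf (nat_lit 569376) (.g (nat_lit 1189) (.e (nat_lit 474880) (nat_lit 16) (.e (nat_lit 376857) (nat_lit 21) (.e (nat_lit 57847) (nat_lit 252) (.e (nat_lit 57388) (nat_lit 5) (.e (nat_lit 122624) (nat_lit 16) .nil))))) (.g (nat_lit 0) (.e (nat_lit 347956) (nat_lit 0) .nil) .nil))) 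
(.lf (nat_lit 569888) (.g (nat_lit 2940) (.e (nat_lit 466981) (nat_lit 23) (.e (nat_lit 204845) (nat_lit 24) (.e (nat_lit 319530) (nat_lit 16) (.e (nat_lit 286727) (nat_lit 0) (.e (nat_lit 1798) (nat_lit 119) .nil))))) (.g (nat_lit 0) (.e (nat_lit 349496) (nat_lit 0) .nil) .nil)))) (.nd (nat_lit 9) 
(.lf (nat_lit 569632) (.g (nat_lit 2244) (.e (nat_lit 466971) (nat_lit 21) (.e (nat_lit 164332) (nat_lit 230) (.e (nat_lit 163880) (nat_lit 4) (.e (nat_lit 213031) (nat_lit 11) .nil)))) (.g (nat_lit 0) (.e (nat_lit 348352) (nat_lit 0) .nil) .nil))) 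
(.lf (nat_lit 570144) (.g (nat_lit 705) (.e (nat_lit 475176) (nat_lit 24) (.e (nat_lit 516115) (nat_lit 1) (.e (nat_lit 164332) (nat_lit 230) .nil))) (.g (nat_lit 0) (.e (nat_lit 350398) (nat_lit 0) .nil) .nil))))) (.nd (nat_lit 8) (.nd (nat_lit 9) 
(.lf (nat_lit 569504) (.g (nat_lit 2541) (.e (nat_lit 466967) (nat_lit 20) (.e (nat_lit 3305) (nat_lit 202) (.e (nat_lit 573471) (nat_lit 11) (.e (nat_lit 16425) (nat_lit 7) .nil)))) (.g (nat_lit 0) (.e (nat_lit 348121) (nat_lit 0) .nil) .nil))) 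
(.lf (nat_lit 570016) (.g (nat_lit 1916) (.e (nat_lit 475152) (nat_lit 17) (.e (nat_lit 57809) (nat_lit 246) (.e (nat_lit 57596) (nat_lit 82) (.e (nat_lit 499900) (nat_lit 7) (.e (nat_lit 24630) (nat_lit 9) (.e (nat_lit 336450) (nat_lit 33) .nil)))))) (.g (nat_lit 1) (.e (nat_lit 350087) (nat_lit 0) .nil) .nil)))) (.nd (nat_lit 9) 
(.lf (nat_lit 569760) (.g (nat_lit 1462) (.e (nat_lit 466979) (nat_lit 23) (.e (nat_lit 204830) (nat_lit 18) (.e (nat_lit 57691) (nat_lit 156) (.e (nat_lit 163906) (nat_lit 12) (.e (nat_lit 426478) (nat_lit 27) .nil))))) (.g (nat_lit 0) (.e (nat_lit 348936) (nat_lit 0) .nil) .nil))) 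
(.lf (nat_lit 570272) (.g (nat_lit 908) (.e (nat_lit 475177) (nat_lit 24) (.e (nat_lit 516117) (nat_lit 1) (.e (nat_lit 164330) (nat_lit 230) (.e (nat_lit 163905) (nat_lit 12) .nil)))) (.g (nat_lit 0) (.e (nat_lit 350600) (nat_lit 0) .nil) .nil)))))) (.nd (nat_lit 7) (.nd (nat_lit 8) (.nd (nat_lit 9) 
(.lf (nat_lit 569440) (.g (nat_lit 1478) (.e (nat_lit 474880) (nat_lit 18) (.e (nat_lit 393253) (nat_lit 18) (.e (nat_lit 164330) (nat_lit 230) (.e (nat_lit 163874) (nat_lit 3) (.e (nat_lit 212736) (nat_lit 14) .nil))))) (.g (nat_lit 0) (.e (nat_lit 348034) (nat_lit 0) .nil) .nil))) 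
(.lf (nat_lit 569952) (.g (nat_lit 2080) (.e (nat_lit 474880) (nat_lit 23) (.e (nat_lit 204846) (nat_lit 24) (.e (nat_lit 319529) (nat_lit 16) (.e (nat_lit 286735) (nat_lit 3) (.e (nat_lit 98382) (nat_lit 31) .nil))))) (.g (nat_lit 0) (.e (nat_lit 349846) (nat_lit 0) .nil) .nil)))) (.nd (nat_lit 9) 
(.lf (nat_lit 569696) (.g (nat_lit 473) (.e (nat_lit 466977) (nat_lit 22) (.e (nat_lit 196681) (nat_lit 17) (.e (nat_lit 131086) (nat_lit 1) .nil))) (.g (nat_lit 0) (.e (nat_lit 348744) (nat_lit 0) .nil) .nil))) 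
(.lf (nat_lit 570208) (.g (nat_lit 2088) (.e (nat_lit 475176) (nat_lit 24) (.e (nat_lit 516182) (nat_lit 15) (.e (nat_lit 475177) (nat_lit 24) (.e (nat_lit 516179) (nat_lit 15) (.e (nat_lit 475177) (nat_lit 24) (.e (nat_lit 516181) (nat_lit 15) .nil)))))) (.g (nat_lit 1) (.e (nat_lit 350515) (nat_lit 0) .nil) .nil))))) (.nd (nat_lit 8) (.nd (nat_lit 9) 
(.lf (nat_lit 569568) (.g (nat_lit 971) (.e (nat_lit 466970) (nat_lit 21) (.e (nat_lit 164324) (nat_lit 230) (.e (nat_lit 163886) (nat_lit 5) (.e (nat_lit 229120) (nat_lit 13) .nil)))) (.g (nat_lit 0) (.e (nat_lit 348247) (nat_lit 0) .nil) .nil))) 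
(.lf (nat_lit 570080) (.g (nat_lit 2022) (.e (nat_lit 483072) (nat_lit 26) (.e (nat_lit 532544) (nat_lit 10) (.e (nat_lit 344133) (nat_lit 26) (.e (nat_lit 557096) (nat_lit 13) (.e (nat_lit 172064) (nat_lit 2) .nil))))) (.g (nat_lit 0) (.e (nat_lit 350248) (nat_lit 0) .nil) .nil)))) (.nd (nat_lit 9) 
(.lf (nat_lit 569824) (.g (nat_lit 1186) (.e (nat_lit 466980) (nat_lit 23) (.e (nat_lit 204846) (nat_lit 24) (.e (nat_lit 319504) (nat_lit 10) (.e (nat_lit 7936) (nat_lit 298) .nil)))) (.g (nat_lit 0) (.e (nat_lit 349301) (nat_lit 0) .nil) .nil))) 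
(.lf (nat_lit 570336) (.g (nat_lit 2187) (.e (nat_lit 475177) (nat_lit 24) (.e (nat_lit 516119) (nat_lit 1) (.e (nat_lit 164330) (nat_lit 230) (.e (nat_lit 163902) (nat_lit 12) (.e (nat_lit 426566) (nat_lit 34) .nil))))) (.g (nat_lit 0) (.e (nat_lit 350682) (nat_lit 0) .nil) .nil)))))))) (.nd (nat_lit 5) (.nd (nat_lit 6) (.nd (nat_lit 7) (.nd (nat_lit 8) (.nd (nat_lit 9) 
(.lf (nat_lit 569360) (.g (nat_lit 1016) (.e (nat_lit 474880) (nat_lit 13) (.e (nat_lit 352308) (nat_lit 21) (.e (nat_lit 57849) (nat_lit 252) (.e (nat_lit 57388) (nat_lit 5) (.e (nat_lit 122624) (nat_lit 16) .nil))))) (.g (nat_lit 0) (.e (nat_lit 347927) (nat_lit 0) .nil) .nil))) 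
(.lf (nat_lit 569872) (.g (nat_lit 2220) (.e (nat_lit 466981) (nat_lit 23) (.e (nat_lit 204830) (nat_lit 18) (.e (nat_lit 57692) (nat_lit 156) (.e (nat_lit 163913) (nat_lit 12) (.e (nat_lit 426483) (nat_lit 27) .nil))))) (.g (nat_lit 0) (.e (nat_lit 349471) (nat_lit 0) .nil) .nil)))) (.nd (nat_lit 9) 
(.lf (nat_lit 569616) (.g (nat_lit 768) (.e (nat_lit 466971) (nat_lit 21) (.e (nat_lit 164327) (nat_lit 230) (.e (nat_lit 163878) (nat_lit 4) .nil))) (.g (nat_lit 0) (.e (nat_lit 348336) (nat_lit 0) .nil) .nil))) 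
(.lf (nat_lit 570128) (.g (nat_lit 1440) (.e (nat_lit 475175) (nat_lit 24) (.e (nat_lit 516166) (nat_lit 12) (.e (nat_lit 450566) (nat_lit 0) .nil))) (.g (nat_lit 0) (.e (nat_lit 350377) (nat_lit 0) .nil) .nil))))) (.nd (nat_lit 8) (.nd (nat_lit 9) 
(.lf (nat_lit 569488) (.g (nat_lit 2315) (.e (nat_lit 466965) (nat_lit 20) (.e (nat_lit 3233) (nat_lit 197) (.e (nat_lit 532523) (nat_lit 7) (.e (nat_lit 319530) (nat_lit 16) (.e (nat_lit 286735) (nat_lit 3) .nil))))) (.g (nat_lit 0) (.e (nat_lit 348096) (nat_lit 0) .nil) .nil))) 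
(.lf (nat_lit 570000) (.g (nat_lit 2125) (.e (nat_lit 483072) (nat_lit 10) (.e (nat_lit 16457) (nat_lit 12) (.e (nat_lit 475179) (nat_lit 24) (.e (nat_lit 516117) (nat_lit 1) (.e (nat_lit 164332) (nat_lit 230) .nil))))) (.g (nat_lit 0) (.e (nat_lit 349986) (nat_lit 0) .nil) .nil)))) (.nd (nat_lit 9) 
(.lf (nat_lit 569744) (.g (nat_lit 1987) (.e (nat_lit 466979) (nat_lit 23) (.e (nat_lit 204813) (nat_lit 9) (.e (nat_lit 426100) (nat_lit 1) (.e (nat_lit 164398) (nat_lit 256) (.e (nat_lit 57405) (nat_lit 12) .nil))))) (.g (nat_lit 0) (.e (nat_lit 348866) (nat_lit 0) .nil) .nil))) 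
(.lf (nat_lit 570256) (.g (nat_lit 1656) (.e (nat_lit 475177) (nat_lit 24) (.e (nat_lit 516115) (nat_lit 1) (.e (nat_lit 164332) (nat_lit 230) (.e (nat_lit 163905) (nat_lit 12) (.e (nat_lit 426481) (nat_lit 27) .nil))))) (.g (nat_lit 0) (.e (nat_lit 350580) (nat_lit 0) .nil) .nil)))))) (.nd (nat_lit 7) (.nd (nat_lit 8) (.nd (nat_lit 9) 
(.lf (nat_lit 569424) (.g (nat_lit 631) (.e (nat_lit 474880) (nat_lit 18) (.e (nat_lit 393252) (nat_lit 18) (.e (nat_lit 164402) (nat_lit 256) .nil))) (.g (nat_lit 0) (.e (nat_lit 348017) (nat_lit 0) .nil) .nil))) 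
(.lf (nat_lit 569936) (.g (nat_lit 659) (.e (nat_lit 466981) (nat_lit 23) (.e (nat_lit 204861) (nat_lit 26) (.e (nat_lit 335892) (nat_lit 0) .nil))) (.g (nat_lit 0) (.e (nat_lit 349664) (nat_lit 0) .nil) .nil)))) (.nd (nat_lit 9) 
(.lf (nat_lit 569680) (.g (nat_lit 2006) (.e (nat_lit 466974) (nat_lit 22) (.e (nat_lit 196681) (nat_lit 17) (.e (nat_lit 131089) (nat_lit 1) (.e (nat_lit 57931) (nat_lit 282) (.e (nat_lit 163852) (nat_lit 0) (.e (nat_lit 7936) (nat_lit 200) (.e (nat_lit 557065) (nat_lit 9) (.e (nat_lit 3044) (nat_lit 189) .nil)))))))) (.g (nat_lit 1) (.e (nat_lit 348582) (nat_lit 0) .nil) .nil))) 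
(.lf (nat_lit 570192) (.g (nat_lit 575) (.e (nat_lit 475176) (nat_lit 24) (.e (nat_lit 516174) (nat_lit 14) (.e (nat_lit 466954) (nat_lit 11) .nil))) (.g (nat_lit 0) (.e (nat_lit 350498) (nat_lit 0) .nil) .nil))))) (.nd (nat_lit 8) (.nd (nat_lit 9) 
(.lf (nat_lit 569552) (.g (nat_lit 3331) (.e (nat_lit 466969) (nat_lit 21) (.e (nat_lit 164327) (nat_lit 230) (.e (nat_lit 163882) (nat_lit 4) (.e (nat_lit 213032) (nat_lit 11) (.e (nat_lit 24628) (nat_lit 9) (.e (nat_lit 336443) (nat_lit 32) .nil)))))) (.g (nat_lit 1) (.e (nat_lit 348204) (nat_lit 0) .nil) .nil))) 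
(.lf (nat_lit 570064) (.g (nat_lit 1905) (.e (nat_lit 483072) (nat_lit 26) (.e (nat_lit 532544) (nat_lit 10) (.e (nat_lit 344130) (nat_lit 26) (.e (nat_lit 557104) (nat_lit 14) (.e (nat_lit 180227) (nat_lit 0) .nil))))) (.g (nat_lit 0) (.e (nat_lit 350232) (nat_lit 0) .nil) .nil)))) (.nd (nat_lit 9) 
(.lf (nat_lit 569808) (.g (nat_lit 2961) (.e (nat_lit 466979) (nat_lit 23) (.e (nat_lit 204846) (nat_lit 24) (.e (nat_lit 319534) (nat_lit 16) (.e (nat_lit 286734) (nat_lit 3) (.e (nat_lit 98381) (nat_lit 31) .nil))))) (.g (nat_lit 1) (.e (nat_lit 349032) (nat_lit 0) .nil) .nil))) 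
(.lf (nat_lit 570320) (.g (nat_lit 806) (.e (nat_lit 475177) (nat_lit 24) (.e (nat_lit 516119) (nat_lit 1) (.e (nat_lit 164324) (nat_lit 230) (.e (nat_lit 163903) (nat_lit 12) .nil)))) (.g (nat_lit 0) (.e (nat_lit 350661) (nat_lit 0) .nil) .nil))))))) (.nd (nat_lit 6) (.nd (nat_lit 7) (.nd (nat_lit 8) (.nd (nat_lit 9) 
(.lf (nat_lit 569392) (.g (nat_lit 1323) (.e (nat_lit 474880) (nat_lit 16) (.e (nat_lit 376859) (nat_lit 21) (.e (nat_lit 57846) (nat_lit 252) (.e (nat_lit 57388) (nat_lit 5) (.e (nat_lit 122624) (nat_lit 16) .nil))))) (.g (nat_lit 0) (.e (nat_lit 347974) (nat_lit 0) .nil) .nil))) 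
(.lf (nat_lit 569904) (.g (nat_lit 1442) (.e (nat_lit 466981) (nat_lit 23) (.e (nat_lit 204846) (nat_lit 24) (.e (nat_lit 319504) (nat_lit 10) (.e (nat_lit 7936) (nat_lit 301) .nil)))) (.g (nat_lit 0) (.e (nat_lit 349522) (nat_lit 0) .nil) .nil)))) (.nd (nat_lit 9) 
(.lf (nat_lit 569648) (.g (nat_lit 2447) (.e (nat_lit 466972) (nat_lit 21) (.e (nat_lit 164331) (nat_lit 230) (.e (nat_lit 163885) (nat_lit 5) (.e (nat_lit 221191) (nat_lit 11) (.e (nat_lit 336152) (nat_lit 9) (.e (nat_lit 336442) (nat_lit 32) .nil)))))) (.g (nat_lit 1) (.e (nat_lit 348440) (nat_lit 0) .nil) .nil))) 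
(.lf (nat_lit 570160) (.g (nat_lit 561) (.e (nat_lit 475176) (nat_lit 24) (.e (nat_lit 516119) (nat_lit 1) (.e (nat_lit 164325) (nat_lit 230) .nil))) (.g (nat_lit 0) (.e (nat_lit 350421) (nat_lit 0) .nil) .nil))))) (.nd (nat_lit 8) (.nd (nat_lit 9) 
(.lf (nat_lit 569520) (.g (nat_lit 2228) (.e (nat_lit 466968) (nat_lit 21) (.e (nat_lit 164332) (nat_lit 230) (.e (nat_lit 163880) (nat_lit 4) (.e (nat_lit 213030) (nat_lit 11) .nil)))) (.g (nat_lit 0) (.e (nat_lit 348148) (nat_lit 0) .nil) .nil))) 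
(.lf (nat_lit 570032) (.g (nat_lit 602) (.e (nat_lit 483072) (nat_lit 26) (.e (nat_lit 532542) (nat_lit 9) (.e (nat_lit 336220) (nat_lit 13) (.e (nat_lit 401152) (nat_lit 16) .nil)))) (.g (nat_lit 0) (.e (nat_lit 350200) (nat_lit 0) .nil) .nil)))) (.nd (nat_lit 9) 
(.lf (nat_lit 569776) (.g (nat_lit 2271) (.e (nat_lit 466979) (nat_lit 23) (.e (nat_lit 204845) (nat_lit 24) (.e (nat_lit 319530) (nat_lit 16) (.e (nat_lit 286735) (nat_lit 3) (.e (nat_lit 98381) (nat_lit 31) .nil))))) (.g (nat_lit 0) (.e (nat_lit 348970) (nat_lit 0) .nil) .nil))) 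
(.lf (nat_lit 570288) (.g (nat_lit 1975) (.e (nat_lit 475177) (nat_lit 24) (.e (nat_lit 516118) (nat_lit 1) (.e (nat_lit 164324) (nat_lit 230) (.e (nat_lit 163903) (nat_lit 12) (.e (nat_lit 426567) (nat_lit 34) (.e (nat_lit 393293) (nat_lit 26) .nil)))))) (.g (nat_lit 1) (.e (nat_lit 350617) (nat_lit 0) .nil) .nil)))))) (.nd (nat_lit 7) (.nd (nat_lit 8) (.nd (nat_lit 9) 
(.lf (nat_lit 569456) (.g (nat_lit 1298) (.e (nat_lit 474880) (nat_lit 18) (.e (nat_lit 393254) (nat_lit 18) (.e (nat_lit 164331) (nat_lit 230) (.e (nat_lit 163873) (nat_lit 3) (.e (nat_lit 212736) (nat_lit 14) .nil))))) (.g (nat_lit 0) (.e (nat_lit 348050) (nat_lit 0) .nil) .nil))) 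
(.lf (nat_lit 569968) (.g (nat_lit 635) (.e (nat_lit 483072) (nat_lit 2) (.e (nat_lit 24628) (nat_lit 9) (.e (nat_lit 336016) (nat_lit 2) .nil))) (.g (nat_lit 0) (.e (nat_lit 349905) (nat_lit 0) .nil) .nil)))) (.nd (nat_lit 9) 
(.lf (nat_lit 569712) (.g (nat_lit 2077) (.e (nat_lit 466978) (nat_lit 23) (.e (nat_lit 204845) (nat_lit 24) (.e (nat_lit 319529) (nat_lit 16) (.e (nat_lit 286735) (nat_lit 3) (.e (nat_lit 98380) (nat_lit 31) .nil))))) (.g (nat_lit 0) (.e (nat_lit 348816) (nat_lit 0) .nil) .nil))) 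
(.lf (nat_lit 570224) (.g (nat_lit 2120) (.e (nat_lit 475177) (nat_lit 24) (.e (nat_lit 516115) (nat_lit 1) (.e (nat_lit 164325) (nat_lit 230) (.e (nat_lit 163875) (nat_lit 3) .nil)))) (.g (nat_lit 0) (.e (nat_lit 350537) (nat_lit 0) .nil) .nil))))) (.nd (nat_lit 8) (.nd (nat_lit 9) 
(.lf (nat_lit 569584) (.g (nat_lit 2254) (.e (nat_lit 466971) (nat_lit 21) (.e (nat_lit 164322) (nat_lit 230) (.e (nat_lit 163877) (nat_lit 4) (.e (nat_lit 213032) (nat_lit 11) (.e (nat_lit 24625) (nat_lit 9) (.e (nat_lit 336443) (nat_lit 32) .nil)))))) (.g (nat_lit 1) (.e (nat_lit 348299) (nat_lit 0) .nil) .nil))) 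
(.lf (nat_lit 570096) (.g (nat_lit 1471) (.e (nat_lit 483072) (nat_lit 26) (.e (nat_lit 532569) (nat_lit 16) (.e (nat_lit 401420) (nat_lit 1) (.e (nat_lit 164399) (nat_lit 256) (.e (nat_lit 57445) (nat_lit 19) .nil))))) (.g (nat_lit 0) (.e (nat_lit 350311) (nat_lit 0) .nil) .nil)))) (.nd (nat_lit 9) 
(.lf (nat_lit 569840) (.g (nat_lit 320) (.e (nat_lit 466980) (nat_lit 23) (.e (nat_lit 204846) (nat_lit 24) (.e (nat_lit 319534) (nat_lit 16) .nil))) (.g (nat_lit 0) (.e (nat_lit 349336) (nat_lit 0) .nil) .nil))) 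
(.lf (nat_lit 570352) (.g (nat_lit 903) (.e (nat_lit 475177) (nat_lit 24) (.e (nat_lit 516120) (nat_lit 1) (.e (nat_lit 164330) (nat_lit 230) (.e (nat_lit 163905) (nat_lit 12) .nil)))) (.g (nat_lit 0) (.e (nat_lit 350708) (nat_lit 0) .nil) .nil))))))))) (.nd (nat_lit 4) (.nd (nat_lit 5) (.nd (nat_lit 6) (.nd (nat_lit 7) (.nd (nat_lit 8) (.nd (nat_lit 9) 
(.lf (nat_lit 569352) (.g (nat_lit 2342) (.e (nat_lit 474880) (nat_lit 11) (.e (nat_lit 336060) (nat_lit 7) (.e (nat_lit 319531) (nat_lit 16) (.e (nat_lit 286731) (nat_lit 1) (.e (nat_lit 57687) (nat_lit 156) .nil))))) (.g (nat_lit 0) (.e (nat_lit 347914) (nat_lit 0) .nil) .nil))) 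
(.lf (nat_lit 569864) (.g (nat_lit 2031) (.e (nat_lit 466981) (nat_lit 23) (.e (nat_lit 204829) (nat_lit 18) (.e (nat_lit 57688) (nat_lit 156) (.e (nat_lit 163903) (nat_lit 12) (.e (nat_lit 426484) (nat_lit 27) .nil))))) (.g (nat_lit 0) (.e (nat_lit 349431) (nat_lit 0) .nil) .nil)))) (.nd (nat_lit 9) 
(.lf (nat_lit 569608) (.g (nat_lit 1993) (.e (nat_lit 466971) (nat_lit 21) (.e (nat_lit 164325) (nat_lit 230) (.e (nat_lit 163885) (nat_lit 5) (.e (nat_lit 221193) (nat_lit 11) (.e (nat_lit 336074) (nat_lit 9) .nil))))) (.g (nat_lit 0) (.e (nat_lit 348323) (nat_lit 0) .nil) .nil))) 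
(.lf (nat_lit 570120) (.g (nat_lit 809) (.e (nat_lit 475175) (nat_lit 24) (.e (nat_lit 516120) (nat_lit 1) (.e (nat_lit 164332) (nat_lit 230) .nil))) (.g (nat_lit 0) (.e (nat_lit 350361) (nat_lit 0) .nil) .nil))))) (.nd (nat_lit 8) (.nd (nat_lit 9) 
(.lf (nat_lit 569480) (.g (nat_lit 2588) (.e (nat_lit 466960) (nat_lit 20) (.e (nat_lit 3303) (nat_lit 202) (.e (nat_lit 573474) (nat_lit 12) (.e (nat_lit 57572) (nat_lit 54) (.e (nat_lit 770072) (nat_lit 8) .nil))))) (.g (nat_lit 0) (.e (nat_lit 348086) (nat_lit 0) .nil) .nil))) 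
(.lf (nat_lit 569992) (.g (nat_lit 4338) (.e (nat_lit 483072) (nat_lit 10) (.e (nat_lit 16436) (nat_lit 9) (.e (nat_lit 426436) (nat_lit 18) (.e (nat_lit 98335) (nat_lit 18) (.e (nat_lit 164330) (nat_lit 230) .nil))))) (.g (nat_lit 0) (.e (nat_lit 349978) (nat_lit 0) .nil) .nil)))) (.nd (nat_lit 9) 
(.lf (nat_lit 569736) (.g (nat_lit 2288) (.e (nat_lit 466978) (nat_lit 23) (.e (nat_lit 204846) (nat_lit 24) (.e (nat_lit 319534) (nat_lit 16) (.e (nat_lit 286735) (nat_lit 3) (.e (nat_lit 98381) (nat_lit 31) .nil))))) (.g (nat_lit 0) (.e (nat_lit 348847) (nat_lit 0) .nil) .nil))) 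
(.lf (nat_lit 570248) (.g (nat_lit 2723) (.e (nat_lit 475177) (nat_lit 24) (.e (nat_lit 516115) (nat_lit 1) (.e (nat_lit 164327) (nat_lit 230) (.e (nat_lit 163903) (nat_lit 12) (.e (nat_lit 426481) (nat_lit 27) (.e (nat_lit 336388) (nat_lit 27) (.e (nat_lit 426306) (nat_lit 12) .nil))))))) (.g (nat_lit 1) (.e (nat_lit 350569) (nat_lit 0) .nil) .nil)))))) 
(.nd (nat_lit 7) (.nd (nat_lit 8) (.nd (nat_lit 9) 
(.lf (nat_lit 569416) (.g (nat_lit 817) (.e (nat_lit 474880) (nat_lit 18) (.e (nat_lit 393251) (nat_lit 18) (.e (nat_lit 164401) (nat_lit 256) .nil))) (.g (nat_lit 0) (.e (nat_lit 348009) (nat_lit 0) .nil) .nil))) 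
(.lf (nat_lit 569928) (.g (nat_lit 2414) (.e (nat_lit 466981) (nat_lit 23) (.e (nat_lit 204846) (nat_lit 24) (.e (nat_lit 319533) (nat_lit 16) (.e (nat_lit 286735) (nat_lit 3) (.e (nat_lit 98382) (nat_lit 31) .nil))))) (.g (nat_lit 0) (.e (nat_lit 349561) (nat_lit 0) .nil) .nil)))) (.nd (nat_lit 9) 
(.lf (nat_lit 569672) (.g (nat_lit 662) (.e (nat_lit 466974) (nat_lit 22) (.e (nat_lit 196681) (nat_lit 17) (.e (nat_lit 131077) (nat_lit 0) .nil))) (.g (nat_lit 0) (.e (nat_lit 348553) (nat_lit 0) .nil) .nil))) 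
(.lf (nat_lit 570184) (.g (nat_lit 3287) (.e (nat_lit 475176) (nat_lit 24) (.e (nat_lit 516166) (nat_lit 12) (.e (nat_lit 450562) (nat_lit 0) (.e (nat_lit 6841) (nat_lit 369) .nil)))) (.g (nat_lit 0) (.e (nat_lit 350490) (nat_lit 0) .nil) .nil))))) (.nd (nat_lit 8) (.nd (nat_lit 9) 
(.lf (nat_lit 569544) (.g (nat_lit 3045) (.e (nat_lit 466969) (nat_lit 21) (.e (nat_lit 164325) (nat_lit 230) (.e (nat_lit 163881) (nat_lit 4) (.e (nat_lit 213032) (nat_lit 11) (.e (nat_lit 24628) (nat_lit 9) (.e (nat_lit 336443) (nat_lit 32) .nil)))))) (.g (nat_lit 1) (.e (nat_lit 348196) (nat_lit 0) .nil) .nil))) 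
(.lf (nat_lit 570056) (.g (nat_lit 526) (.e (nat_lit 483072) (nat_lit 26) (.e (nat_lit 532544) (nat_lit 10) (.e (nat_lit 344130) (nat_lit 26) .nil))) (.g (nat_lit 0) (.e (nat_lit 350224) (nat_lit 0) .nil) .nil)))) (.nd (nat_lit 9) 
(.lf (nat_lit 569800) (.g (nat_lit 1680) (.e (nat_lit 466979) (nat_lit 23) (.e (nat_lit 204846) (nat_lit 24) (.e (nat_lit 319533) (nat_lit 16) (.e (nat_lit 286725) (nat_lit 0) .nil)))) (.g (nat_lit 0) (.e (nat_lit 349016) (nat_lit 0) .nil) .nil))) 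
(.lf (nat_lit 570312) (.g (nat_lit 2727) (.e (nat_lit 475177) (nat_lit 24) (.e (nat_lit 516118) (nat_lit 1) (.e (nat_lit 164332) (nat_lit 230) (.e (nat_lit 163905) (nat_lit 12) (.e (nat_lit 426507) (nat_lit 27) .nil))))) (.g (nat_lit 0) (.e (nat_lit 350647) (nat_lit 0) .nil) .nil))))))) (.nd (nat_lit 6) (.nd (nat_lit 7) (.nd (nat_lit 8) (.nd (nat_lit 9) 
(.lf (nat_lit 569384) (.g (nat_lit 1079) (.e (nat_lit 474880) (nat_lit 16) (.e (nat_lit 376857) (nat_lit 21) (.e (nat_lit 57852) (nat_lit 252) (.e (nat_lit 57388) (nat_lit 5) (.e (nat_lit 122624) (nat_lit 16) .nil))))) (.g (nat_lit 0) (.e (nat_lit 347964) (nat_lit 0) .nil) .nil))) 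
(.lf (nat_lit 569896) (.g (nat_lit 1379) (.e (nat_lit 466981) (nat_lit 23) (.e (nat_lit 204845) (nat_lit 24) (.e (nat_lit 319535) (nat_lit 17) (.e (nat_lit 294930) (nat_lit 3) (.e (nat_lit 98381) (nat_lit 31) .nil))))) (.g (nat_lit 0) (.e (nat_lit 349514) (nat_lit 0) .nil) .nil)))) (.nd (nat_lit 9) 
(.lf (nat_lit 569640) (.g (nat_lit 1814) (.e (nat_lit 466971) (nat_lit 21) (.e (nat_lit 164347) (nat_lit 240) (.e (nat_lit 2638) (nat_lit 165) (.e (nat_lit 180278) (nat_lit 32) (.e (nat_lit 1425) (nat_lit 108) (.e (nat_lit 336444) (nat_lit 32) .nil)))))) (.g (nat_lit 1) (.e (nat_lit 348374) (nat_lit 0) .nil) .nil))) 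
(.lf (nat_lit 570152) (.g (nat_lit 2166) (.e (nat_lit 475176) (nat_lit 24) (.e (nat_lit 516117) (nat_lit 1) (.e (nat_lit 164330) (nat_lit 230) (.e (nat_lit 163905) (nat_lit 12) (.e (nat_lit 426566) (nat_lit 34) (.e (nat_lit 393295) (nat_lit 26) .nil)))))) (.g (nat_lit 1) (.e (nat_lit 350409) (nat_lit 0) .nil) .nil))))) (.nd (nat_lit 8) (.nd (nat_lit 9) 
(.lf (nat_lit 569512) (.g (nat_lit 1382) (.e (nat_lit 466967) (nat_lit 20) (.e (nat_lit 3464) (nat_lit 217) (.e (nat_lit 696344) (nat_lit 8) (.e (nat_lit 172113) (nat_lit 10) (.e (nat_lit 434203) (nat_lit 18) .nil))))) (.g (nat_lit 0) (.e (nat_lit 348137) (nat_lit 0) .nil) .nil))) 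
(.lf (nat_lit 570024) (.g (nat_lit 508) (.e (nat_lit 475171) (nat_lit 22) (.e (nat_lit 499919) (nat_lit 9) (.e (nat_lit 172065) (nat_lit 3) .nil))) (.g (nat_lit 0) (.e (nat_lit 350149) (nat_lit 0) .nil) .nil)))) (.nd (nat_lit 9) 
(.lf (nat_lit 569768) (.g (nat_lit 1708) (.e (nat_lit 466979) (nat_lit 23) (.e (nat_lit 204831) (nat_lit 18) (.e (nat_lit 57688) (nat_lit 156) (.e (nat_lit 163905) (nat_lit 12) .nil)))) (.g (nat_lit 0) (.e (nat_lit 348951) (nat_lit 0) .nil) .nil))) 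
(.lf (nat_lit 570280) (.g (nat_lit 2257) (.e (nat_lit 475177) (nat_lit 24) (.e (nat_lit 516117) (nat_lit 1) (.e (nat_lit 164330) (nat_lit 230) (.e (nat_lit 163913) (nat_lit 12) (.e (nat_lit 426510) (nat_lit 27) (.e (nat_lit 336408) (nat_lit 27) (.e (nat_lit 426306) (nat_lit 12) .nil))))))) (.g (nat_lit 1) (.e (nat_lit 350609) (nat_lit 0) .nil) .nil)))))) 
(.nd (nat_lit 7) (.nd (nat_lit 8) (.nd (nat_lit 9) 
(.lf (nat_lit 569448) (.g (nat_lit 1143) (.e (nat_lit 474880) (nat_lit 18) (.e (nat_lit 393254) (nat_lit 18) (.e (nat_lit 164325) (nat_lit 230) (.e (nat_lit 163873) (nat_lit 3) (.e (nat_lit 212736) (nat_lit 14) .nil))))) (.g (nat_lit 0) (.e (nat_lit 348042) (nat_lit 0) .nil) .nil))) 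
(.lf (nat_lit 569960) (.g (nat_lit 1965) (.e (nat_lit 474880) (nat_lit 23) (.e (nat_lit 204846) (nat_lit 24) (.e (nat_lit 319534) (nat_lit 16) (.e (nat_lit 286735) (nat_lit 3) (.e (nat_lit 98380) (nat_lit 31) .nil))))) (.g (nat_lit 0) (.e (nat_lit 349856) (nat_lit 0) .nil) .nil)))) (.nd (nat_lit 9) 
(.lf (nat_lit 569704) (.g (nat_lit 2372) (.e (nat_lit 466977) (nat_lit 22) (.e (nat_lit 196681) (nat_lit 17) (.e (nat_lit 131089) (nat_lit 1) (.e (nat_lit 57931) (nat_lit 282) (.e (nat_lit 163856) (nat_lit 0) (.e (nat_lit 7936) (nat_lit 200) (.e (nat_lit 557065) (nat_lit 9) (.e (nat_lit 3044) (nat_lit 189) .nil)))))))) (.g (nat_lit 1) (.e (nat_lit 348789) (nat_lit 0) .nil) .nil))) 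
(.lf (nat_lit 570216) (.g (nat_lit 1123) (.e (nat_lit 475177) (nat_lit 24) (.e (nat_lit 516115) (nat_lit 1) (.e (nat_lit 164323) (nat_lit 230) .nil))) (.g (nat_lit 0) (.e (nat_lit 350526) (nat_lit 0) .nil) .nil))))) (.nd (nat_lit 8) (.nd (nat_lit 9) 
(.lf (nat_lit 569576) (.g (nat_lit 1774) (.e (nat_lit 466970) (nat_lit 21) (.e (nat_lit 164332) (nat_lit 230) (.e (nat_lit 163880) (nat_lit 4) (.e (nat_lit 213030) (nat_lit 11) .nil)))) (.g (nat_lit 0) (.e (nat_lit 348255) (nat_lit 0) .nil) .nil))) 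
(.lf (nat_lit 570088) (.g (nat_lit 2577) (.e (nat_lit 483072) (nat_lit 26) (.e (nat_lit 532544) (nat_lit 10) (.e (nat_lit 344133) (nat_lit 26) (.e (nat_lit 557103) (nat_lit 14) (.e (nat_lit 180249) (nat_lit 10) .nil))))) (.g (nat_lit 0) (.e (nat_lit 350256) (nat_lit 0) .nil) .nil)))) (.nd (nat_lit 9) 
(.lf (nat_lit 569832) (.g (nat_lit 1864) (.e (nat_lit 466980) (nat_lit 23) (.e (nat_lit 204846) (nat_lit 24) (.e (nat_lit 319528) (nat_lit 16) (.e (nat_lit 286735) (nat_lit 3) (.e (nat_lit 98380) (nat_lit 31) .nil))))) (.g (nat_lit 0) (.e (nat_lit 349310) (nat_lit 0) .nil) .nil))) 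
(.lf (nat_lit 570344) (.g (nat_lit 1061) (.e (nat_lit 475177) (nat_lit 24) (.e (nat_lit 516120) (nat_lit 1) (.e (nat_lit 164330) (nat_lit 230) (.e (nat_lit 163901) (nat_lit 12) .nil)))) (.g (nat_lit 0) (.e (nat_lit 350700) (nat_lit 0) .nil) .nil)))))))) (.nd (nat_lit 5) (.nd (nat_lit 6) (.nd (nat_lit 7) (.nd (nat_lit 8) (.nd (nat_lit 9) 
(.lf (nat_lit 569368) (.g (nat_lit 1736) (.e (nat_lit 474880) (nat_lit 13) (.e (nat_lit 352309) (nat_lit 21) (.e (nat_lit 57848) (nat_lit 252) (.e (nat_lit 57388) (nat_lit 5) (.e (nat_lit 122624) (nat_lit 16) .nil))))) (.g (nat_lit 0) (.e (nat_lit 347935) (nat_lit 0) .nil) .nil))) 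
(.lf (nat_lit 569880) (.g (nat_lit 1584) (.e (nat_lit 466981) (nat_lit 23) (.e (nat_lit 204831) (nat_lit 18) (.e (nat_lit 57692) (nat_lit 156) (.e (nat_lit 163907) (nat_lit 12) .nil)))) (.g (nat_lit 0) (.e (nat_lit 349482) (nat_lit 0) .nil) .nil)))) (.nd (nat_lit 9) 
(.lf (nat_lit 569624) (.g (nat_lit 2013) (.e (nat_lit 466971) (nat_lit 21) (.e (nat_lit 164327) (nat_lit 230) (.e (nat_lit 163886) (nat_lit 5) (.e (nat_lit 221192) (nat_lit 11) (.e (nat_lit 336152) (nat_lit 9) (.e (nat_lit 336442) (nat_lit 32) .nil)))))) (.g (nat_lit 1) (.e (nat_lit 348344) (nat_lit 0) .nil) .nil))) 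
(.lf (nat_lit 570136) (.g (nat_lit 1387) (.e (nat_lit 475176) (nat_lit 24) (.e (nat_lit 516115) (nat_lit 1) (.e (nat_lit 164325) (nat_lit 230) (.e (nat_lit 163903) (nat_lit 12) .nil)))) (.g (nat_lit 0) (.e (nat_lit 350385) (nat_lit 0) .nil) .nil))))) (.nd (nat_lit 8) (.nd (nat_lit 9) 
(.lf (nat_lit 569496) (.g (nat_lit 4219) (.e (nat_lit 466967) (nat_lit 20) (.e (nat_lit 3253) (nat_lit 197) (.e (nat_lit 532523) (nat_lit 7) (.e (nat_lit 319533) (nat_lit 16) (.e (nat_lit 286734) (nat_lit 3) (.e (nat_lit 98381) (nat_lit 31) .nil)))))) (.g (nat_lit 1) (.e (nat_lit 348110) (nat_lit 0) .nil) .nil))) 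
(.lf (nat_lit 570008) (.g (nat_lit 2020) (.e (nat_lit 483072) (nat_lit 10) (.e (nat_lit 16460) (nat_lit 12) (.e (nat_lit 475179) (nat_lit 24) (.e (nat_lit 516120) (nat_lit 1) (.e (nat_lit 164330) (nat_lit 230) .nil))))) (.g (nat_lit 0) (.e (nat_lit 349994) (nat_lit 0) .nil) .nil)))) (.nd (nat_lit 9) 
(.lf (nat_lit 569752) (.g (nat_lit 2034) (.e (nat_lit 466979) (nat_lit 23) (.e (nat_lit 204829) (nat_lit 18) (.e (nat_lit 57688) (nat_lit 156) (.e (nat_lit 163903) (nat_lit 12) (.e (nat_lit 426484) (nat_lit 27) .nil))))) (.g (nat_lit 0) (.e (nat_lit 348904) (nat_lit 0) .nil) .nil))) 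
(.lf (nat_lit 570264) (.g (nat_lit 303) (.e (nat_lit 475177) (nat_lit 24) (.e (nat_lit 516117) (nat_lit 1) (.e (nat_lit 164330) (nat_lit 230) .nil))) (.g (nat_lit 0) (.e (nat_lit 350592) (nat_lit 0) .nil) .nil)))))) (.nd (nat_lit 7) (.nd (nat_lit 8) (.nd (nat_lit 9) 
(.lf (nat_lit 569432) (.g (nat_lit 1761) (.e (nat_lit 474880) (nat_lit 18) (.e (nat_lit 393253) (nat_lit 18) (.e (nat_lit 164326) (nat_lit 230) (.e (nat_lit 163870) (nat_lit 2) (.e (nat_lit 196622) (nat_lit 9) .nil))))) (.g (nat_lit 0) (.e (nat_lit 348026) (nat_lit 0) .nil) .nil))) 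
(.lf (nat_lit 569944) (.g (nat_lit 1884) (.e (nat_lit 466981) (nat_lit 23) (.e (nat_lit 204861) (nat_lit 26) (.e (nat_lit 335988) (nat_lit 1) (.e (nat_lit 57931) (nat_lit 282) (.e (nat_lit 171776) (nat_lit 64) (.e (nat_lit 98381) (nat_lit 31) .nil)))))) (.g (nat_lit 1) (.e (nat_lit 349678) (nat_lit 0) .nil) .nil)))) (.nd (nat_lit 9) 
(.lf (nat_lit 569688) (.g (nat_lit 1033) (.e (nat_lit 466976) (nat_lit 22) (.e (nat_lit 196656) (nat_lit 11) (.e (nat_lit 16392) (nat_lit 0) .nil))) (.g (nat_lit 0) (.e (nat_lit 348630) (nat_lit 0) .nil) .nil))) 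
(.lf (nat_lit 570200) (.g (nat_lit 1751) (.e (nat_lit 475176) (nat_lit 24) (.e (nat_lit 516176) (nat_lit 14) (.e (nat_lit 466954) (nat_lit 11) (.e (nat_lit 335987) (nat_lit 1) .nil)))) (.g (nat_lit 0) (.e (nat_lit 350506) (nat_lit 0) .nil) .nil))))) (.nd (nat_lit 8) (.nd (nat_lit 9) 
(.lf (nat_lit 569560) (.g (nat_lit 388) (.e (nat_lit 466969) (nat_lit 21) (.e (nat_lit 164332) (nat_lit 230) (.e (nat_lit 163885) (nat_lit 5) .nil))) (.g (nat_lit 0) (.e (nat_lit 348212) (nat_lit 0) .nil) .nil))) 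
(.lf (nat_lit 570072) (.g (nat_lit 2029) (.e (nat_lit 483072) (nat_lit 26) (.e (nat_lit 532544) (nat_lit 10) (.e (nat_lit 344132) (nat_lit 26) (.e (nat_lit 557100) (nat_lit 13) (.e (nat_lit 172064) (nat_lit 2) .nil))))) (.g (nat_lit 0) (.e (nat_lit 350240) (nat_lit 0) .nil) .nil)))) (.nd (nat_lit 9) 
(.lf (nat_lit 569816) (.g (nat_lit 985) (.e (nat_lit 466980) (nat_lit 23) (.e (nat_lit 204845) (nat_lit 24) (.e (nat_lit 319529) (nat_lit 16) (.e (nat_lit 286735) (nat_lit 3) .nil)))) (.g (nat_lit 0) (.e (nat_lit 349290) (nat_lit 0) .nil) .nil))) 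
(.lf (nat_lit 570328) (.g (nat_lit 429) (.e (nat_lit 475177) (nat_lit 24) (.e (nat_lit 516119) (nat_lit 1) (.e (nat_lit 164326) (nat_lit 230) .nil))) (.g (nat_lit 0) (.e (nat_lit 350672) (nat_lit 0) .nil) .nil))))))) (.nd (nat_lit 6) (.nd (nat_lit 7) (.nd (nat_lit 8) (.nd (nat_lit 9) 
(.lf (nat_lit 569400) (.g (nat_lit 1249) (.e (nat_lit 474880) (nat_lit 16) (.e (nat_lit 376860) (nat_lit 21) (.e (nat_lit 57851) (nat_lit 252) (.e (nat_lit 57388) (nat_lit 5) (.e (nat_lit 122624) (nat_lit 16) .nil))))) (.g (nat_lit 0) (.e (nat_lit 347982) (nat_lit 0) .nil) .nil))) 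
(.lf (nat_lit 569912) (.g (nat_lit 1860) (.e (nat_lit 466981) (nat_lit 23) (.e (nat_lit 204846) (nat_lit 24) (.e (nat_lit 319528) (nat_lit 16) (.e (nat_lit 286735) (nat_lit 3) (.e (nat_lit 98382) (nat_lit 31) .nil))))) (.g (nat_lit 0) (.e (nat_lit 349531) (nat_lit 0) .nil) .nil)))) (.nd (nat_lit 9) 
(.lf (nat_lit 569656) (.g (nat_lit 1152) (.e (nat_lit 466972) (nat_lit 21) (.e (nat_lit 164402) (nat_lit 256) (.e (nat_lit 57400) (nat_lit 10) (.e (nat_lit 319511) (nat_lit 10) (.e (nat_lit 5404) (nat_lit 302) .nil))))) (.g (nat_lit 0) (.e (nat_lit 348451) (nat_lit 0) .nil) .nil))) 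
(.lf (nat_lit 570168) (.g (nat_lit 1757) (.e (nat_lit 475176) (nat_lit 24) (.e (nat_lit 516120) (nat_lit 1) (.e (nat_lit 164330) (nat_lit 230) (.e (nat_lit 163905) (nat_lit 12) .nil)))) (.g (nat_lit 0) (.e (nat_lit 350429) (nat_lit 0) .nil) .nil))))) (.nd (nat_lit 8) (.nd (nat_lit 9) 
(.lf (nat_lit 569528) (.g (nat_lit 1321) (.e (nat_lit 466968) (nat_lit 21) (.e (nat_lit 164332) (nat_lit 230) (.e (nat_lit 163885) (nat_lit 5) (.e (nat_lit 229120) (nat_lit 13) .nil)))) (.g (nat_lit 0) (.e (nat_lit 348156) (nat_lit 0) .nil) .nil))) 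
(.lf (nat_lit 570040) (.g (nat_lit 1266) (.e (nat_lit 483072) (nat_lit 26) (.e (nat_lit 532544) (nat_lit 10) (.e (nat_lit 344117) (nat_lit 21) (.e (nat_lit 516130) (nat_lit 3) .nil)))) (.g (nat_lit 0) (.e (nat_lit 350208) (nat_lit 0) .nil) .nil)))) (.nd (nat_lit 9) 
(.lf (nat_lit 569784) (.g (nat_lit 599) (.e (nat_lit 466979) (nat_lit 23) (.e (nat_lit 204845) (nat_lit 24) (.e (nat_lit 319533) (nat_lit 16) .nil))) (.g (nat_lit 0) (.e (nat_lit 348984) (nat_lit 0) .nil) .nil))) 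
(.lf (nat_lit 570296) (.g (nat_lit 2949) (.e (nat_lit 475177) (nat_lit 24) (.e (nat_lit 516118) (nat_lit 1) (.e (nat_lit 164331) (nat_lit 230) (.e (nat_lit 163902) (nat_lit 12) (.e (nat_lit 426566) (nat_lit 34) (.e (nat_lit 393293) (nat_lit 26) .nil)))))) (.g (nat_lit 1) (.e (nat_lit 350628) (nat_lit 0) .nil) .nil)))))) (.nd (nat_lit 7) (.nd (nat_lit 8) (.nd (nat_lit 9) 
(.lf (nat_lit 569464) (.g (nat_lit 2556) (.e (nat_lit 466955) (nat_lit 20) (.e (nat_lit 3238) (nat_lit 197) (.e (nat_lit 532523) (nat_lit 7) (.e (nat_lit 319529) (nat_lit 16) (.e (nat_lit 286727) (nat_lit 0) .nil))))) (.g (nat_lit 0) (.e (nat_lit 348058) (nat_lit 0) .nil) .nil))) 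
(.lf (nat_lit 569976) (.g (nat_lit 2134) (.e (nat_lit 483072) (nat_lit 5) (.e (nat_lit 180250) (nat_lit 10) (.e (nat_lit 573503) (nat_lit 18) (.e (nat_lit 1349) (nat_lit 102) (.e (nat_lit 286742) (nat_lit 9) .nil))))) (.g (nat_lit 0) (.e (nat_lit 349941) (nat_lit 0) .nil) .nil)))) (.nd (nat_lit 9) 
(.lf (nat_lit 569720) (.g (nat_lit 697) (.e (nat_lit 466978) (nat_lit 23) (.e (nat_lit 204846) (nat_lit 24) (.e (nat_lit 319511) (nat_lit 10) .nil))) (.g (nat_lit 0) (.e (nat_lit 348826) (nat_lit 0) .nil) .nil))) 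
(.lf (nat_lit 570232) (.g (nat_lit 3002) (.e (nat_lit 475177) (nat_lit 24) (.e (nat_lit 516115) (nat_lit 1) (.e (nat_lit 164325) (nat_lit 230) (.e (nat_lit 163905) (nat_lit 12) (.e (nat_lit 426566) (nat_lit 34) (.e (nat_lit 393293) (nat_lit 26) .nil)))))) (.g (nat_lit 1) (.e (nat_lit 350545) (nat_lit 0) .nil) .nil))))) (.nd (nat_lit 8) (.nd (nat_lit 9) 
(.lf (nat_lit 569592) (.g (nat_lit 1085) (.e (nat_lit 466971) (nat_lit 21) (.e (nat_lit 164322) (nat_lit 230) (.e (nat_lit 163885) (nat_lit 5) (.e (nat_lit 221194) (nat_lit 11) .nil)))) (.g (nat_lit 0) (.e (nat_lit 348307) (nat_lit 0) .nil) .nil))) 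
(.lf (nat_lit 570104) (.g (nat_lit 518) (.e (nat_lit 475175) (nat_lit 24) (.e (nat_lit 516119) (nat_lit 1) (.e (nat_lit 164325) (nat_lit 230) .nil))) (.g (nat_lit 0) (.e (nat_lit 350333) (nat_lit 0) .nil) .nil)))) (.nd (nat_lit 9) 
(.lf (nat_lit 569848) (.g (nat_lit 1909) (.e (nat_lit 466981) (nat_lit 23) (.e (nat_lit 204808) (nat_lit 9) (.e (nat_lit 426100) (nat_lit 1) (.e (nat_lit 164398) (nat_lit 256) (.e (nat_lit 57408) (nat_lit 12) .nil))))) (.g (nat_lit 0) (.e (nat_lit 349381) (nat_lit 0) .nil) .nil))) 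
(.lf (nat_lit 570360) (.g (nat_lit 2352) (.e (nat_lit 475177) (nat_lit 24) (.e (nat_lit 516120) (nat_lit 1) (.e (nat_lit 164330) (nat_lit 230) (.e (nat_lit 163905) (nat_lit 12) (.e (nat_lit 426502) (nat_lit 27) (.e (nat_lit 336408) (nat_lit 27) (.e (nat_lit 426306) (nat_lit 12) .nil))))))) (.g (nat_lit 1) (.e (nat_lit 350717) (nat_lit 0) .nil) .nil)))))))))) 
(.nd (nat_lit 3) (.nd (nat_lit 4) (.nd (nat_lit 5) (.nd (nat_lit 6) (.nd (nat_lit 7) 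
(.nd (nat_lit 8) (.nd (nat_lit 9) 
(.lf (nat_lit 569348) (.g (nat_lit 2108) (.e (nat_lit 466954) (nat_lit 11) (.e (nat_lit 336387) (nat_lit 27) (.e (nat_lit 426108) (nat_lit 1) (.e (nat_lit 164402) (nat_lit 256) (.e (nat_lit 57377) (nat_lit 3) .nil))))) (.g (nat_lit 0) (.e (nat_lit 347908) (nat_lit 0) .nil) .nil))) 
(.lf (nat_lit 569860) (.g (nat_lit 1761) (.e (nat_lit 466981) (nat_lit 23) (.e (nat_lit 204813) (nat_lit 9) (.e (nat_lit 426108) (nat_lit 1) (.e (nat_lit 164403) (nat_lit 256) (.e (nat_lit 57405) (nat_lit 12) .nil))))) (.g (nat_lit 0) (.e (nat_lit 349393) (nat_lit 0) .nil) .nil)))) (.nd (nat_lit 9) 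
(.lf (nat_lit 569604) (.g (nat_lit 1082) (.e (nat_lit 466971) (nat_lit 21) (.e (nat_lit 164325) (nat_lit 230) (.e (nat_lit 163844) (nat_lit 0) (.e (nat_lit 3647) (nat_lit 227) .nil)))) (.g (nat_lit 0) (.e (nat_lit 348319) (nat_lit 0) .nil) .nil))) 
(.lf (nat_lit 570116) (.g (nat_lit 704) (.e (nat_lit 475175) (nat_lit 24) (.e (nat_lit 516120) (nat_lit 1) (.e (nat_lit 164329) (nat_lit 230) (.e (nat_lit 163902) (nat_lit 12) .nil)))) (.g (nat_lit 0) (.e (nat_lit 350355) (nat_lit 0) .nil) .nil))))) (.nd (nat_lit 8) (.nd (nat_lit 9) 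
(.lf (nat_lit 569476) (.g (nat_lit 2722) (.e (nat_lit 466955) (nat_lit 20) (.e (nat_lit 3297) (nat_lit 202) (.e (nat_lit 573471) (nat_lit 11) (.e (nat_lit 16425) (nat_lit 7) (.e (nat_lit 409616) (nat_lit 10) .nil))))) (.g (nat_lit 0) (.e (nat_lit 348076) (nat_lit 0) .nil) .nil))) 
(.lf (nat_lit 569988) (.g (nat_lit 1313) (.e (nat_lit 483072) (nat_lit 8) (.e (nat_lit 1676) (nat_lit 116) (.e (nat_lit 401456) (nat_lit 13) (.e (nat_lit 483413) (nat_lit 27) .nil)))) (.g (nat_lit 0) (.e (nat_lit 349964) (nat_lit 0) .nil) .nil)))) (.nd (nat_lit 9) 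
(.lf (nat_lit 569732) (.g (nat_lit 2489) (.e (nat_lit 466978) (nat_lit 23) (.e (nat_lit 204846) (nat_lit 24) (.e (nat_lit 319533) (nat_lit 16) (.e (nat_lit 286734) (nat_lit 3) (.e (nat_lit 98380) (nat_lit 31) .nil))))) (.g (nat_lit 0) (.e (nat_lit 348843) (nat_lit 0) .nil) .nil))) 
(.lf (nat_lit 570244) (.g (nat_lit 1332) (.e (nat_lit 475177) (nat_lit 24) (.e (nat_lit 516115) (nat_lit 1) (.e (nat_lit 164326) (nat_lit 230) (.e (nat_lit 163903) (nat_lit 12) .nil)))) (.g (nat_lit 0) (.e (nat_lit 350564) (nat_lit 0) .nil) .nil)))))) (.nd (nat_lit 7) (.nd (nat_lit 8) (.nd (nat_lit 9) 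
(.lf (nat_lit 569412) (.g (nat_lit 1940) (.e (nat_lit 474880) (nat_lit 18) (.e (nat_lit 393251) (nat_lit 18) (.e (nat_lit 164327) (nat_lit 230) (.e (nat_lit 163873) (nat_lit 3) (.e (nat_lit 212736) (nat_lit 14) .nil))))) (.g (nat_lit 0) (.e (nat_lit 348005) (nat_lit 0) .nil) .nil))) 
(.lf (nat_lit 569924) (.g (nat_lit 2271) (.e (nat_lit 466981) (nat_lit 23) (.e (nat_lit 204846) (nat_lit 24) (.e (nat_lit 319533) (nat_lit 16) (.e (nat_lit 286734) (nat_lit 3) (.e (nat_lit 98380) (nat_lit 31) .nil))))) (.g (nat_lit 0) (.e (nat_lit 349556) (nat_lit 0) .nil) .nil)))) (.nd (nat_lit 9) 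
(.lf (nat_lit 569668) (.g (nat_lit 2067) (.e (nat_lit 466972) (nat_lit 21) (.e (nat_lit 164403) (nat_lit 256) (.e (nat_lit 57400) (nat_lit 10) (.e (nat_lit 319533) (nat_lit 16) (.e (nat_lit 286747) (nat_lit 9) .nil))))) (.g (nat_lit 0) (.e (nat_lit 348467) (nat_lit 0) .nil) .nil))) 
(.lf (nat_lit 570180) (.g (nat_lit 1025) (.e (nat_lit 475176) (nat_lit 24) (.e (nat_lit 516166) (nat_lit 12) (.e (nat_lit 450562) (nat_lit 0) .nil))) (.g (nat_lit 0) (.e (nat_lit 350486) (nat_lit 0) .nil) .nil))))) (.nd (nat_lit 8) (.nd (nat_lit 9) 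
(.lf (nat_lit 569540) (.g (nat_lit 1245) (.e (nat_lit 466969) (nat_lit 21) (.e (nat_lit 164324) (nat_lit 230) (.e (nat_lit 163885) (nat_lit 5) (.e (nat_lit 229120) (nat_lit 16) .nil)))) (.g (nat_lit 0) (.e (nat_lit 348192) (nat_lit 0) .nil) .nil))) 
(.lf (nat_lit 570052) (.g (nat_lit 498) (.e (nat_lit 483072) (nat_lit 26) (.e (nat_lit 532544) (nat_lit 10) (.e (nat_lit 344129) (nat_lit 26) .nil))) (.g (nat_lit 0) (.e (nat_lit 350220) (nat_lit 0) .nil) .nil)))) (.nd (nat_lit 9) 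
(.lf (nat_lit 569796) (.g (nat_lit 2221) (.e (nat_lit 466979) (nat_lit 23) (.e (nat_lit 204846) (nat_lit 24) (.e (nat_lit 319529) (nat_lit 16) (.e (nat_lit 286735) (nat_lit 3) (.e (nat_lit 98381) (nat_lit 31) .nil))))) (.g (nat_lit 0) (.e (nat_lit 349002) (nat_lit 0) .nil) .nil))) 
(.lf (nat_lit 570308) (.g (nat_lit 2664) (.e (nat_lit 475177) (nat_lit 24) (.e (nat_lit 516118) (nat_lit 1) (.e (nat_lit 164332) (nat_lit 230) (.e (nat_lit 163905) (nat_lit 12) (.e (nat_lit 426487) (nat_lit 27) .nil))))) (.g (nat_lit 0) (.e (nat_lit 350643) (nat_lit 0) .nil) .nil))))))) (.nd (nat_lit 6) (.nd (nat_lit 7) (.nd (nat_lit 8) (.nd (nat_lit 9) 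
(.lf (nat_lit 569380) (.g (nat_lit 1359) (.e (nat_lit 474880) (nat_lit 16) (.e (nat_lit 376857) (nat_lit 21) (.e (nat_lit 57849) (nat_lit 252) (.e (nat_lit 57388) (nat_lit 5) (.e (nat_lit 122624) (nat_lit 16) .nil))))) (.g (nat_lit 0) (.e (nat_lit 347960) (nat_lit 0) .nil) .nil))) 
(.lf (nat_lit 569892) (.g (nat_lit 2961) (.e (nat_lit 466981) (nat_lit 23) (.e (nat_lit 204845) (nat_lit 24) (.e (nat_lit 319531) (nat_lit 16) (.e (nat_lit 286735) (nat_lit 3) (.e (nat_lit 98380) (nat_lit 31) .nil))))) (.g (nat_lit 1) (.e (nat_lit 349507) (nat_lit 0) .nil) .nil)))) (.nd (nat_lit 9) 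
(.lf (nat_lit 569636) (.g (nat_lit 1006) (.e (nat_lit 466971) (nat_lit 21) (.e (nat_lit 164332) (nat_lit 230) (.e (nat_lit 163884) (nat_lit 5) (.e (nat_lit 229120) (nat_lit 16) .nil)))) (.g (nat_lit 0) (.e (nat_lit 348356) (nat_lit 0) .nil) .nil))) 
(.lf (nat_lit 570148) (.g (nat_lit 1669) (.e (nat_lit 475176) (nat_lit 24) (.e (nat_lit 516117) (nat_lit 1) (.e (nat_lit 164329) (nat_lit 230) (.e (nat_lit 163904) (nat_lit 12) .nil)))) (.g (nat_lit 0) (.e (nat_lit 350403) (nat_lit 0) .nil) .nil))))) (.nd (nat_lit 8) (.nd (nat_lit 9) 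
(.lf (nat_lit 569508) (.g (nat_lit 1996) (.e (nat_lit 466967) (nat_lit 20) (.e (nat_lit 3386) (nat_lit 210) (.e (nat_lit 639021) (nat_lit 16) (.e (nat_lit 65619) (nat_lit 10) (.e (nat_lit 344160) (nat_lit 37) (.e (nat_lit 647195) (nat_lit 9) (.e (nat_lit 7936) (nat_lit 37) .nil))))))) (.g (nat_lit 1) (.e (nat_lit 348125) (nat_lit 0) .nil) .nil))) 
(.lf (nat_lit 570020) (.g (nat_lit 2746) (.e (nat_lit 475169) (nat_lit 22) (.e (nat_lit 499924) (nat_lit 10) (.e (nat_lit 180251) (nat_lit 10) (.e (nat_lit 573484) (nat_lit 13) (.e (nat_lit 65642) (nat_lit 15) (.e (nat_lit 7936) (nat_lit 195) (.e (nat_lit 516179) (nat_lit 15) .nil))))))) (.g (nat_lit 1) (.e (nat_lit 350141) (nat_lit 0) .nil) .nil)))) (.nd (nat_lit 9) 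
(.lf (nat_lit 569764) (.g (nat_lit 738) (.e (nat_lit 466979) (nat_lit 23) (.e (nat_lit 204830) (nat_lit 18) (.e (nat_lit 57692) (nat_lit 156) (.e (nat_lit 171776) (nat_lit 12) .nil)))) (.g (nat_lit 0) (.e (nat_lit 348945) (nat_lit 0) .nil) .nil))) 
(.lf (nat_lit 570276) (.g (nat_lit 1973) (.e (nat_lit 475177) (nat_lit 24) (.e (nat_lit 516117) (nat_lit 1) (.e (nat_lit 164330) (nat_lit 230) (.e (nat_lit 163905) (nat_lit 12) (.e (nat_lit 426504) (nat_lit 27) .nil))))) (.g (nat_lit 0) (.e (nat_lit 350605) (nat_lit 0) .nil) .nil)))))) (.nd (nat_lit 7) (.nd (nat_lit 8) (.nd (nat_lit 9) 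
(.lf (nat_lit 569444) (.g (nat_lit 2042) (.e (nat_lit 474880) (nat_lit 18) (.e (nat_lit 393253) (nat_lit 18) (.e (nat_lit 164401) (nat_lit 256) (.e (nat_lit 57377) (nat_lit 3) (.e (nat_lit 98382) (nat_lit 31) .nil))))) (.g (nat_lit 0) (.e (nat_lit 348038) (nat_lit 0) .nil) .nil))) 
(.lf (nat_lit 569956) (.g (nat_lit 2417) (.e (nat_lit 474880) (nat_lit 23) (.e (nat_lit 204846) (nat_lit 24) (.e (nat_lit 319531) (nat_lit 16) (.e (nat_lit 286735) (nat_lit 3) (.e (nat_lit 98380) (nat_lit 31) .nil))))) (.g (nat_lit 0) (.e (nat_lit 349850) (nat_lit 0) .nil) .nil)))) (.nd (nat_lit 9) 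
(.lf (nat_lit 569700) (.g (nat_lit 467) (.e (nat_lit 466977) (nat_lit 22) (.e (nat_lit 196681) (nat_lit 17) (.e (nat_lit 131089) (nat_lit 1) .nil))) (.g (nat_lit 0) (.e (nat_lit 348770) (nat_lit 0) .nil) .nil))) 
(.lf (nat_lit 570212) (.g (nat_lit 780) (.e (nat_lit 475177) (nat_lit 24) (.e (nat_lit 516106) (nat_lit 0) (.e (nat_lit 2478) (nat_lit 157) .nil))) (.g (nat_lit 0) (.e (nat_lit 350519) (nat_lit 0) .nil) .nil))))) (.nd (nat_lit 8) (.nd (nat_lit 9) 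
(.lf (nat_lit 569572) (.g (nat_lit 1029) (.e (nat_lit 466970) (nat_lit 21) (.e (nat_lit 164327) (nat_lit 230) (.e (nat_lit 163884) (nat_lit 5) (.e (nat_lit 229120) (nat_lit 13) .nil)))) (.g (nat_lit 0) (.e (nat_lit 348251) (nat_lit 0) .nil) .nil))) 
(.lf (nat_lit 570084) (.g (nat_lit 2240) (.e (nat_lit 483072) (nat_lit 26) (.e (nat_lit 532544) (nat_lit 10) (.e (nat_lit 344133) (nat_lit 26) (.e (nat_lit 557098) (nat_lit 13) (.e (nat_lit 172064) (nat_lit 2) .nil))))) (.g (nat_lit 0) (.e (nat_lit 350252) (nat_lit 0) .nil) .nil)))) (.nd (nat_lit 9) 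
(.lf (nat_lit 569828) (.g (nat_lit 1881) (.e (nat_lit 466980) (nat_lit 23) (.e (nat_lit 204846) (nat_lit 24) (.e (nat_lit 319504) (nat_lit 10) (.e (nat_lit 5421) (nat_lit 304) .nil)))) (.g (nat_lit 0) (.e (nat_lit 349305) (nat_lit 0) .nil) .nil))) 
(.lf (nat_lit 570340) (.g (nat_lit 2016) (.e (nat_lit 475177) (nat_lit 24) (.e (nat_lit 516119) (nat_lit 1) (.e (nat_lit 164332) (nat_lit 230) (.e (nat_lit 163905) (nat_lit 12) (.e (nat_lit 426566) (nat_lit 34) .nil))))) (.g (nat_lit 0) (.e (nat_lit 350689) (nat_lit 0) .nil) .nil)))))))) (.nd (nat_lit 5) (.nd (nat_lit 6) (.nd (nat_lit 7) (.nd (nat_lit 8) (.nd (nat_lit 9) 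
(.lf (nat_lit 569364) (.g (nat_lit 1309) (.e (nat_lit 474880) (nat_lit 13) (.e (nat_lit 352309) (nat_lit 21) (.e (nat_lit 57844) (nat_lit 252) (.e (nat_lit 57388) (nat_lit 5) (.e (nat_lit 122624) (nat_lit 16) .nil))))) (.g (nat_lit 0) (.e (nat_lit 347931) (nat_lit 0) .nil) .nil))) 
(.lf (nat_lit 569876) (.g (nat_lit 1608) (.e (nat_lit 466981) (nat_lit 23) (.e (nat_lit 204831) (nat_lit 18) (.e (nat_lit 57688) (nat_lit 156) (.e (nat_lit 163903) (nat_lit 12) .nil)))) (.g (nat_lit 0) (.e (nat_lit 349477) (nat_lit 0) .nil) .nil)))) (.nd (nat_lit 9) 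
(.lf (nat_lit 569620) (.g (nat_lit 2786) (.e (nat_lit 466971) (nat_lit 21) (.e (nat_lit 164327) (nat_lit 230) (.e (nat_lit 163882) (nat_lit 4) (.e (nat_lit 213030) (nat_lit 11) (.e (nat_lit 24625) (nat_lit 9) (.e (nat_lit 336443) (nat_lit 32) .nil)))))) (.g (nat_lit 1) (.e (nat_lit 348340) (nat_lit 0) .nil) .nil))) 
(.lf (nat_lit 570132) (.g (nat_lit 787) (.e (nat_lit 475176) (nat_lit 24) (.e (nat_lit 516106) (nat_lit 0) (.e (nat_lit 2458) (nat_lit 157) .nil))) (.g (nat_lit 0) (.e (nat_lit 350381) (nat_lit 0) .nil) .nil))))) (.nd (nat_lit 8) (.nd (nat_lit 9) 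
(.lf (nat_lit 569492) (.g (nat_lit 1919) (.e (nat_lit 466967) (nat_lit 20) (.e (nat_lit 3253) (nat_lit 197) (.e (nat_lit 532523) (nat_lit 7) (.e (nat_lit 319504) (nat_lit 10) (.e (nat_lit 5389) (nat_lit 301) .nil))))) (.g (nat_lit 0) (.e (nat_lit 348106) (nat_lit 0) .nil) .nil))) 
(.lf (nat_lit 570004) (.g (nat_lit 1354) (.e (nat_lit 483072) (nat_lit 10) (.e (nat_lit 16459) (nat_lit 12) (.e (nat_lit 475179) (nat_lit 24) (.e (nat_lit 516119) (nat_lit 1) .nil)))) (.g (nat_lit 0) (.e (nat_lit 349990) (nat_lit 0) .nil) .nil)))) (.nd (nat_lit 9) 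
(.lf (nat_lit 569748) (.g (nat_lit 767) (.e (nat_lit 466979) (nat_lit 23) (.e (nat_lit 204829) (nat_lit 18) (.e (nat_lit 57687) (nat_lit 156) .nil))) (.g (nat_lit 0) (.e (nat_lit 348900) (nat_lit 0) .nil) .nil))) 
(.lf (nat_lit 570260) (.g (nat_lit 560) (.e (nat_lit 475177) (nat_lit 24) (.e (nat_lit 516116) (nat_lit 1) (.e (nat_lit 164332) (nat_lit 230) .nil))) (.g (nat_lit 0) (.e (nat_lit 350586) (nat_lit 0) .nil) .nil)))))) (.nd (nat_lit 7) (.nd (nat_lit 8) (.nd (nat_lit 9) 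
(.lf (nat_lit 569428) (.g (nat_lit 1501) (.e (nat_lit 474880) (nat_lit 18) (.e (nat_lit 393253) (nat_lit 18) (.e (nat_lit 164325) (nat_lit 230) (.e (nat_lit 163873) (nat_lit 3) (.e (nat_lit 212736) (nat_lit 14) .nil))))) (.g (nat_lit 0) (.e (nat_lit 348022) (nat_lit 0) .nil) .nil))) 
(.lf (nat_lit 569940) (.g (nat_lit 1934) (.e (nat_lit 466981) (nat_lit 23) (.e (nat_lit 204861) (nat_lit 26) (.e (nat_lit 335988) (nat_lit 1) (.e (nat_lit 57926) (nat_lit 282) (.e (nat_lit 163849) (nat_lit 0) (.e (nat_lit 7936) (nat_lit 200) (.e (nat_lit 557065) (nat_lit 9) (.e (nat_lit 3044) (nat_lit 189) .nil)))))))) (.g (nat_lit 1) (.e (nat_lit 349673) (nat_lit 0) .nil) .nil)))) 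
(.nd (nat_lit 9) 
(.lf (nat_lit 569684) (.g (nat_lit 1921) (.e (nat_lit 466975) (nat_lit 22) (.e (nat_lit 196654) (nat_lit 11) (.e (nat_lit 16407) (nat_lit 1) (.e (nat_lit 164325) (nat_lit 230) (.e (nat_lit 171776) (nat_lit 62) .nil))))) (.g (nat_lit 0) (.e (nat_lit 348597) (nat_lit 0) .nil) .nil))) 
(.lf (nat_lit 570196) (.g (nat_lit 502) (.e (nat_lit 475176) (nat_lit 24) (.e (nat_lit 516176) (nat_lit 14) (.e (nat_lit 466954) (nat_lit 11) .nil))) (.g (nat_lit 0) (.e (nat_lit 350502) (nat_lit 0) .nil) .nil))))) (.nd (nat_lit 8) (.nd (nat_lit 9) 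
(.lf (nat_lit 569556) (.g (nat_lit 1689) (.e (nat_lit 466969) (nat_lit 21) (.e (nat_lit 164331) (nat_lit 230) (.e (nat_lit 163885) (nat_lit 5) (.e (nat_lit 221193) (nat_lit 11) (.e (nat_lit 336150) (nat_lit 9) .nil))))) (.g (nat_lit 0) (.e (nat_lit 348208) (nat_lit 0) .nil) .nil))) 
(.lf (nat_lit 570068) (.g (nat_lit 503) (.e (nat_lit 483072) (nat_lit 26) (.e (nat_lit 532544) (nat_lit 10) (.e (nat_lit 344131) (nat_lit 26) .nil))) (.g (nat_lit 0) (.e (nat_lit 350236) (nat_lit 0) .nil) .nil)))) (.nd (nat_lit 9) 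
(.lf (nat_lit 569812) (.g (nat_lit 961) (.e (nat_lit 466979) (nat_lit 23) (.e (nat_lit 204861) (nat_lit 26) (.e (nat_lit 335988) (nat_lit 1) (.e (nat_lit 57926) (nat_lit 282) .nil)))) (.g (nat_lit 0) (.e (nat_lit 349116) (nat_lit 0) .nil) .nil))) 
(.lf (nat_lit 570324) (.g (nat_lit 2006) (.e (nat_lit 475177) (nat_lit 24) (.e (nat_lit 516119) (nat_lit 1) (.e (nat_lit 164325) (nat_lit 230) (.e (nat_lit 163903) (nat_lit 12) (.e (nat_lit 426567) (nat_lit 34) .nil))))) (.g (nat_lit 0) (.e (nat_lit 350667) (nat_lit 0) .nil) .nil))))))) (.nd (nat_lit 6) (.nd (nat_lit 7) (.nd (nat_lit 8) (.nd (nat_lit 9) 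
(.lf (nat_lit 569396) (.g (nat_lit 1166) (.e (nat_lit 474880) (nat_lit 16) (.e (nat_lit 376859) (nat_lit 21) (.e (nat_lit 57848) (nat_lit 252) (.e (nat_lit 57388) (nat_lit 5) (.e (nat_lit 122624) (nat_lit 16) .nil))))) (.g (nat_lit 0) (.e (nat_lit 347978) (nat_lit 0) .nil) .nil))) 
(.lf (nat_lit 569908) (.g (nat_lit 1294) (.e (nat_lit 466981) (nat_lit 23) (.e (nat_lit 204846) (nat_lit 24) (.e (nat_lit 319511) (nat_lit 10) (.e (nat_lit 5389) (nat_lit 301) .nil)))) (.g (nat_lit 0) (.e (nat_lit 349526) (nat_lit 0) .nil) .nil)))) (.nd (nat_lit 9) 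
(.lf (nat_lit 569652) (.g (nat_lit 1617) (.e (nat_lit 466972) (nat_lit 21) (.e (nat_lit 164332) (nat_lit 230) (.e (nat_lit 163885) (nat_lit 5) (.e (nat_lit 221193) (nat_lit 11) (.e (nat_lit 336150) (nat_lit 9) .nil))))) (.g (nat_lit 0) (.e (nat_lit 348444) (nat_lit 0) .nil) .nil))) 
(.lf (nat_lit 570164) (.g (nat_lit 512) (.e (nat_lit 475176) (nat_lit 24) (.e (nat_lit 516119) (nat_lit 1) (.e (nat_lit 164326) (nat_lit 230) .nil))) (.g (nat_lit 0) (.e (nat_lit 350425) (nat_lit 0) .nil) .nil))))) (.nd (nat_lit 8) (.nd (nat_lit 9) 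
(.lf (nat_lit 569524) (.g (nat_lit 1067) (.e (nat_lit 466968) (nat_lit 21) (.e (nat_lit 164332) (nat_lit 230) (.e (nat_lit 163884) (nat_lit 5) (.e (nat_lit 229120) (nat_lit 13) .nil)))) (.g (nat_lit 0) (.e (nat_lit 348152) (nat_lit 0) .nil) .nil))) 
(.lf (nat_lit 570036) (.g (nat_lit 556) (.e (nat_lit 483072) (nat_lit 26) (.e (nat_lit 532544) (nat_lit 10) (.e (nat_lit 344116) (nat_lit 21) .nil))) (.g (nat_lit 0) (.e (nat_lit 350204) (nat_lit 0) .nil) .nil)))) (.nd (nat_lit 9) 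
(.lf (nat_lit 569780) (.g (nat_lit 2705) (.e (nat_lit 466979) (nat_lit 23) (.e (nat_lit 204845) (nat_lit 24) (.e (nat_lit 319531) (nat_lit 16) (.e (nat_lit 286735) (nat_lit 3) (.e (nat_lit 98379) (nat_lit 31) .nil))))) (.g (nat_lit 0) (.e (nat_lit 348979) (nat_lit 0) .nil) .nil))) 
(.lf (nat_lit 570292) (.g (nat_lit 2375) (.e (nat_lit 475177) (nat_lit 24) (.e (nat_lit 516118) (nat_lit 1) (.e (nat_lit 164325) (nat_lit 230) (.e (nat_lit 163907) (nat_lit 12) (.e (nat_lit 426568) (nat_lit 34) (.e (nat_lit 393293) (nat_lit 26) .nil)))))) (.g (nat_lit 1) (.e (nat_lit 350622) (nat_lit 0) .nil) .nil)))))) (.nd (nat_lit 7) (.nd (nat_lit 8) (.nd (nat_lit 9) 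
(.lf (nat_lit 569460) (.g (nat_lit 2348) (.e (nat_lit 466955) (nat_lit 20) (.e (nat_lit 3238) (nat_lit 197) (.e (nat_lit 532522) (nat_lit 7) (.e (nat_lit 319530) (nat_lit 16) (.e (nat_lit 286735) (nat_lit 3) .nil))))) (.g (nat_lit 0) (.e (nat_lit 348054) (nat_lit 0) .nil) .nil))) 
(.lf (nat_lit 569972) (.g (nat_lit 446) (.e (nat_lit 483072) (nat_lit 3) (.e (nat_lit 163843) (nat_lit 0) (.e (nat_lit 6420) (nat_lit 341) .nil))) (.g (nat_lit 0) (.e (nat_lit 349920) (nat_lit 0) .nil) .nil)))) (.nd (nat_lit 9) 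
(.lf (nat_lit 569716) (.g (nat_lit 1544) (.e (nat_lit 466978) (nat_lit 23) (.e (nat_lit 204845) (nat_lit 24) (.e (nat_lit 319533) (nat_lit 16) (.e (nat_lit 286734) (nat_lit 3) .nil)))) (.g (nat_lit 0) (.e (nat_lit 348822) (nat_lit 0) .nil) .nil))) 
(.lf (nat_lit 570228) (.g (nat_lit 2367) (.e (nat_lit 475177) (nat_lit 24) (.e (nat_lit 516115) (nat_lit 1) (.e (nat_lit 164325) (nat_lit 230) (.e (nat_lit 163903) (nat_lit 12) (.e (nat_lit 426481) (nat_lit 27) .nil))))) (.g (nat_lit 0) (.e (nat_lit 350541) (nat_lit 0) .nil) .nil))))) (.nd (nat_lit 8) (.nd (nat_lit 9) 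
(.lf (nat_lit 569588) (.g (nat_lit 1596) (.e (nat_lit 466971) (nat_lit 21) (.e (nat_lit 164322) (nat_lit 230) (.e (nat_lit 163884) (nat_lit 5) (.e (nat_lit 221192) (nat_lit 11) (.e (nat_lit 336153) (nat_lit 9) (.e (nat_lit 336442) (nat_lit 32) .nil)))))) (.g (nat_lit 1) (.e (nat_lit 348303) (nat_lit 0) .nil) .nil))) 
(.lf (nat_lit 570100) (.g (nat_lit 2079) (.e (nat_lit 475175) (nat_lit 24) (.e (nat_lit 516115) (nat_lit 1) (.e (nat_lit 164325) (nat_lit 230) (.e (nat_lit 163907) (nat_lit 12) .nil)))) (.g (nat_lit 0) (.e (nat_lit 350321) (nat_lit 0) .nil) .nil)))) (.nd (nat_lit 9) 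
(.lf (nat_lit 569844) (.g (nat_lit 3233) (.e (nat_lit 466980) (nat_lit 23) (.e (nat_lit 204846) (nat_lit 24) (.e (nat_lit 319534) (nat_lit 16) (.e (nat_lit 286734) (nat_lit 3) (.e (nat_lit 98381) (nat_lit 31) .nil))))) (.g (nat_lit 1) (.e (nat_lit 349347) (nat_lit 0) .nil) .nil))) 
(.lf (nat_lit 570356) (.g (nat_lit 1984) (.e (nat_lit 475177) (nat_lit 24) (.e (nat_lit 516120) (nat_lit 1) (.e (nat_lit 164330) (nat_lit 230) (.e (nat_lit 163905) (nat_lit 12) (.e (nat_lit 426495) (nat_lit 27) .nil))))) (.g (nat_lit 0) (.e (nat_lit 350713) (nat_lit 0) .nil) .nil))))))))) (.nd (nat_lit 4) (.nd (nat_lit 5) (.nd (nat_lit 6) (.nd (nat_lit 7) (.nd (nat_lit 8) (.nd (nat_lit 9) 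
(.lf (nat_lit 569356) (.g (nat_lit 677) (.e (nat_lit 474880) (nat_lit 13) (.e (nat_lit 352307) (nat_lit 21) (.e (nat_lit 57848) (nat_lit 252) (.e (nat_lit 57390) (nat_lit 5) (.e (nat_lit 122624) (nat_lit 16) .nil))))) (.g (nat_lit 0) (.e (nat_lit 347923) (nat_lit 0) .nil) .nil))) 
(.lf (nat_lit 569868) (.g (nat_lit 2244) (.e (nat_lit 466981) (nat_lit 23) (.e (nat_lit 204829) (nat_lit 18) (.e (nat_lit 57692) (nat_lit 156) (.e (nat_lit 163905) (nat_lit 12) (.e (nat_lit 426484) (nat_lit 27) (.e (nat_lit 336443) (nat_lit 32) .nil)))))) (.g (nat_lit 1) (.e (nat_lit 349450) (nat_lit 0) .nil) .nil)))) (.nd (nat_lit 9) 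
(.lf (nat_lit 569612) (.g (nat_lit 1658) (.e (nat_lit 466971) (nat_lit 21) (.e (nat_lit 164326) (nat_lit 230) (.e (nat_lit 163886) (nat_lit 5) (.e (nat_lit 221194) (nat_lit 11) (.e (nat_lit 336074) (nat_lit 9) .nil))))) (.g (nat_lit 0) (.e (nat_lit 348332) (nat_lit 0) .nil) .nil))) 
(.lf (nat_lit 570124) (.g (nat_lit 2676) (.e (nat_lit 475175) (nat_lit 24) (.e (nat_lit 516163) (nat_lit 11) (.e (nat_lit 442421) (nat_lit 21) (.e (nat_lit 164178) (nat_lit 154) (.e (nat_lit 57390) (nat_lit 5) .nil))))) (.g (nat_lit 0) (.e (nat_lit 350373) (nat_lit 0) .nil) .nil))))) (.nd (nat_lit 8) (.nd (nat_lit 9) 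
(.lf (nat_lit 569484) (.g (nat_lit 1436) (.e (nat_lit 466960) (nat_lit 20) (.e (nat_lit 3403) (nat_lit 212) (.e (nat_lit 655378) (nat_lit 4) (.e (nat_lit 172124) (nat_lit 14) (.e (nat_lit 491548) (nat_lit 9) .nil))))) (.g (nat_lit 0) (.e (nat_lit 348090) (nat_lit 0) .nil) .nil))) 
(.lf (nat_lit 569996) (.g (nat_lit 2265) (.e (nat_lit 483072) (nat_lit 10) (.e (nat_lit 16456) (nat_lit 12) (.e (nat_lit 475179) (nat_lit 24) (.e (nat_lit 516117) (nat_lit 1) (.e (nat_lit 164332) (nat_lit 230) .nil))))) (.g (nat_lit 0) (.e (nat_lit 349982) (nat_lit 0) .nil) .nil)))) (.nd (nat_lit 9) 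
(.lf (nat_lit 569740) (.g (nat_lit 2110) (.e (nat_lit 466979) (nat_lit 23) (.e (nat_lit 204809) (nat_lit 9) (.e (nat_lit 426107) (nat_lit 1) (.e (nat_lit 164403) (nat_lit 256) (.e (nat_lit 57405) (nat_lit 12) .nil))))) (.g (nat_lit 0) (.e (nat_lit 348862) (nat_lit 0) .nil) .nil))) 
(.lf (nat_lit 570252) (.g (nat_lit 1387) (.e (nat_lit 475177) (nat_lit 24) (.e (nat_lit 516115) (nat_lit 1) (.e (nat_lit 164327) (nat_lit 230) (.e (nat_lit 163906) (nat_lit 12) .nil)))) (.g (nat_lit 0) (.e (nat_lit 350573) (nat_lit 0) .nil) .nil)))))) (.nd (nat_lit 7) (.nd (nat_lit 8) (.nd (nat_lit 9) 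
(.lf (nat_lit 569420) (.g (nat_lit 1121) (.e (nat_lit 474880) (nat_lit 18) (.e (nat_lit 393252) (nat_lit 18) (.e (nat_lit 164330) (nat_lit 230) (.e (nat_lit 163874) (nat_lit 3) .nil)))) (.g (nat_lit 0) (.e (nat_lit 348013) (nat_lit 0) .nil) .nil))) 
(.lf (nat_lit 569932) (.g (nat_lit 2537) (.e (nat_lit 466981) (nat_lit 23) (.e (nat_lit 204846) (nat_lit 24) (.e (nat_lit 319534) (nat_lit 16) (.e (nat_lit 286734) (nat_lit 3) (.e (nat_lit 98380) (nat_lit 31) .nil))))) (.g (nat_lit 0) (.e (nat_lit 349571) (nat_lit 0) .nil) .nil)))) (.nd (nat_lit 9) 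
(.lf (nat_lit 569676) (.g (nat_lit 1773) (.e (nat_lit 466974) (nat_lit 22) (.e (nat_lit 196681) (nat_lit 17) (.e (nat_lit 131089) (nat_lit 1) (.e (nat_lit 57931) (nat_lit 282) (.e (nat_lit 163841) (nat_lit 0) (.e (nat_lit 7936) (nat_lit 200) (.e (nat_lit 557065) (nat_lit 9) (.e (nat_lit 3044) (nat_lit 189) .nil)))))))) (.g (nat_lit 1) (.e (nat_lit 348578) (nat_lit 0) .nil) .nil))) 
(.lf (nat_lit 570188) (.g (nat_lit 2928) (.e (nat_lit 475176) (nat_lit 24) (.e (nat_lit 516166) (nat_lit 12) (.e (nat_lit 450563) (nat_lit 0) (.e (nat_lit 6403) (nat_lit 339) .nil)))) (.g (nat_lit 0) (.e (nat_lit 350494) (nat_lit 0) .nil) .nil))))) (.nd (nat_lit 8) (.nd (nat_lit 9) 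
(.lf (nat_lit 569548) (.g (nat_lit 769) (.e (nat_lit 466969) (nat_lit 21) (.e (nat_lit 164327) (nat_lit 230) (.e (nat_lit 163878) (nat_lit 4) .nil))) (.g (nat_lit 0) (.e (nat_lit 348200) (nat_lit 0) .nil) .nil))) 
(.lf (nat_lit 570060) (.g (nat_lit 1768) (.e (nat_lit 483072) (nat_lit 26) (.e (nat_lit 532544) (nat_lit 10) (.e (nat_lit 344130) (nat_lit 26) (.e (nat_lit 557097) (nat_lit 13) (.e (nat_lit 172062) (nat_lit 2) .nil))))) (.g (nat_lit 0) (.e (nat_lit 350228) (nat_lit 0) .nil) .nil)))) (.nd (nat_lit 9) 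
(.lf (nat_lit 569804) (.g (nat_lit 2390) (.e (nat_lit 466979) (nat_lit 23) (.e (nat_lit 204846) (nat_lit 24) (.e (nat_lit 319533) (nat_lit 16) (.e (nat_lit 286735) (nat_lit 3) (.e (nat_lit 98382) (nat_lit 31) .nil))))) (.g (nat_lit 0) (.e (nat_lit 349024) (nat_lit 0) .nil) .nil))) 
(.lf (nat_lit 570316) (.g (nat_lit 2011) (.e (nat_lit 475177) (nat_lit 24) (.e (nat_lit 516118) (nat_lit 1) (.e (nat_lit 164332) (nat_lit 230) (.e (nat_lit 163938) (nat_lit 18) (.e (nat_lit 483072) (nat_lit 10) .nil))))) (.g (nat_lit 0) (.e (nat_lit 350651) (nat_lit 0) .nil) .nil))))))) (.nd (nat_lit 6) (.nd (nat_lit 7) (.nd (nat_lit 8) (.nd (nat_lit 9) 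
(.lf (nat_lit 569388) (.g (nat_lit 1291) (.e (nat_lit 474880) (nat_lit 16) (.e (nat_lit 376857) (nat_lit 21) (.e (nat_lit 57854) (nat_lit 252) (.e (nat_lit 57388) (nat_lit 5) (.e (nat_lit 122624) (nat_lit 16) .nil))))) (.g (nat_lit 0) (.e (nat_lit 347970) (nat_lit 0) .nil) .nil))) 
(.lf (nat_lit 569900) (.g (nat_lit 975) (.e (nat_lit 466981) (nat_lit 23) (.e (nat_lit 204846) (nat_lit 24) (.e (nat_lit 319503) (nat_lit 10) (.e (nat_lit 5395) (nat_lit 301) .nil)))) (.g (nat_lit 0) (.e (nat_lit 349518) (nat_lit 0) .nil) .nil)))) (.nd (nat_lit 9) 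
(.lf (nat_lit 569644) (.g (nat_lit 1187) (.e (nat_lit 466972) (nat_lit 21) (.e (nat_lit 164329) (nat_lit 230) (.e (nat_lit 163850) (nat_lit 0) (.e (nat_lit 3614) (nat_lit 226) .nil)))) (.g (nat_lit 0) (.e (nat_lit 348436) (nat_lit 0) .nil) .nil))) 
(.lf (nat_lit 570156) (.g (nat_lit 229) (.e (nat_lit 475176) (nat_lit 24) (.e (nat_lit 516118) (nat_lit 1) (.e (nat_lit 164325) (nat_lit 230) .nil))) (.g (nat_lit 0) (.e (nat_lit 350417) (nat_lit 0) .nil) .nil))))) (.nd (nat_lit 8) (.nd (nat_lit 9) 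
(.lf (nat_lit 569516) (.g (nat_lit 894) (.e (nat_lit 466968) (nat_lit 21) (.e (nat_lit 164179) (nat_lit 154) (.e (nat_lit 57388) (nat_lit 5) .nil))) (.g (nat_lit 0) (.e (nat_lit 348144) (nat_lit 0) .nil) .nil))) 
(.lf (nat_lit 570028) (.g (nat_lit 948) (.e (nat_lit 475171) (nat_lit 22) (.e (nat_lit 499931) (nat_lit 11) (.e (nat_lit 188446) (nat_lit 21) (.e (nat_lit 164177) (nat_lit 154) .nil)))) (.g (nat_lit 0) (.e (nat_lit 350159) (nat_lit 0) .nil) .nil)))) (.nd (nat_lit 9) 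
(.lf (nat_lit 569772) (.g (nat_lit 2056) (.e (nat_lit 466979) (nat_lit 23) (.e (nat_lit 204831) (nat_lit 18) (.e (nat_lit 57692) (nat_lit 156) (.e (nat_lit 163905) (nat_lit 12) (.e (nat_lit 426479) (nat_lit 27) .nil))))) (.g (nat_lit 0) (.e (nat_lit 348956) (nat_lit 0) .nil) .nil))) 
(.lf (nat_lit 570284) (.g (nat_lit 3650) (.e (nat_lit 475177) (nat_lit 24) (.e (nat_lit 516117) (nat_lit 1) (.e (nat_lit 164332) (nat_lit 230) (.e (nat_lit 163902) (nat_lit 12) (.e (nat_lit 426566) (nat_lit 34) (.e (nat_lit 393294) (nat_lit 26) .nil)))))) (.g (nat_lit 1) (.e (nat_lit 350613) (nat_lit 0) .nil) .nil)))))) (.nd (nat_lit 7) (.nd (nat_lit 8) (.nd (nat_lit 9) 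
(.lf (nat_lit 569452) (.g (nat_lit 1013) (.e (nat_lit 474880) (nat_lit 18) (.e (nat_lit 393254) (nat_lit 18) (.e (nat_lit 164326) (nat_lit 230) (.e (nat_lit 163873) (nat_lit 3) (.e (nat_lit 212736) (nat_lit 14) .nil))))) (.g (nat_lit 0) (.e (nat_lit 348046) (nat_lit 0) .nil) .nil))) 
(.lf (nat_lit 569964) (.g (nat_lit 3234) (.e (nat_lit 466982) (nat_lit 24) (.e (nat_lit 229663) (nat_lit 240) (.e (nat_lit 2630) (nat_lit 164) (.e (nat_lit 172126) (nat_lit 14) (.e (nat_lit 491547) (nat_lit 9) .nil))))) (.g (nat_lit 0) (.e (nat_lit 349862) (nat_lit 0) .nil) .nil)))) (.nd (nat_lit 9) 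
(.lf (nat_lit 569708) (.g (nat_lit 2258) (.e (nat_lit 466978) (nat_lit 23) (.e (nat_lit 204813) (nat_lit 9) (.e (nat_lit 426100) (nat_lit 1) (.e (nat_lit 164398) (nat_lit 256) (.e (nat_lit 57411) (nat_lit 12) .nil))))) (.g (nat_lit 0) (.e (nat_lit 348801) (nat_lit 0) .nil) .nil))) 
(.lf (nat_lit 570220) (.g (nat_lit 385) (.e (nat_lit 475177) (nat_lit 24) (.e (nat_lit 516115) (nat_lit 1) (.e (nat_lit 164325) (nat_lit 230) .nil))) (.g (nat_lit 0) (.e (nat_lit 350533) (nat_lit 0) .nil) .nil))))) (.nd (nat_lit 8) (.nd (nat_lit 9) 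
(.lf (nat_lit 569580) (.g (nat_lit 1071) (.e (nat_lit 466970) (nat_lit 21) (.e (nat_lit 164332) (nat_lit 230) (.e (nat_lit 163884) (nat_lit 5) (.e (nat_lit 229120) (nat_lit 13) .nil)))) (.g (nat_lit 0) (.e (nat_lit 348259) (nat_lit 0) .nil) .nil))) 
(.lf (nat_lit 570092) (.g (nat_lit 2584) (.e (nat_lit 483072) (nat_lit 26) (.e (nat_lit 532544) (nat_lit 10) (.e (nat_lit 344133) (nat_lit 26) (.e (nat_lit 557105) (nat_lit 14) (.e (nat_lit 180245) (nat_lit 5) .nil))))) (.g (nat_lit 0) (.e (nat_lit 350260) (nat_lit 0) .nil) .nil)))) (.nd (nat_lit 9) 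
(.lf (nat_lit 569836) (.g (nat_lit 2408) (.e (nat_lit 466980) (nat_lit 23) (.e (nat_lit 204846) (nat_lit 24) (.e (nat_lit 319531) (nat_lit 16) (.e (nat_lit 286735) (nat_lit 3) (.e (nat_lit 98380) (nat_lit 31) .nil))))) (.g (nat_lit 0) (.e (nat_lit 349321) (nat_lit 0) .nil) .nil))) 
(.lf (nat_lit 570348) (.g (nat_lit 2415) (.e (nat_lit 475177) (nat_lit 24) (.e (nat_lit 516120) (nat_lit 1) (.e (nat_lit 164330) (nat_lit 230) (.e (nat_lit 163902) (nat_lit 12) (.e (nat_lit 426489) (nat_lit 27) .nil))))) (.g (nat_lit 0) (.e (nat_lit 350704) (nat_lit 0) .nil) .nil)))))))) (.nd (nat_lit 5) (.nd (nat_lit 6) (.nd (nat_lit 7) (.nd (nat_lit 8) (.nd (nat_lit 9) 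
(.lf (nat_lit 569372) (.g (nat_lit 1963) (.e (nat_lit 474880) (nat_lit 13) (.e (nat_lit 352309) (nat_lit 21) (.e (nat_lit 57854) (nat_lit 252) (.e (nat_lit 57388) (nat_lit 5) (.e (nat_lit 122624) (nat_lit 16) .nil))))) (.g (nat_lit 0) (.e (nat_lit 347939) (nat_lit 0) .nil) .nil))) 
(.lf (nat_lit 569884) (.g (nat_lit 1551) (.e (nat_lit 466981) (nat_lit 23) (.e (nat_lit 204845) (nat_lit 24) (.e (nat_lit 319528) (nat_lit 16) (.e (nat_lit 286727) (nat_lit 0) (.e (nat_lit 1799) (nat_lit 119) .nil))))) (.g (nat_lit 0) (.e (nat_lit 349488) (nat_lit 0) .nil) .nil)))) (.nd (nat_lit 9) 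
(.lf (nat_lit 569628) (.g (nat_lit 1330) (.e (nat_lit 466971) (nat_lit 21) (.e (nat_lit 164331) (nat_lit 230) (.e (nat_lit 163884) (nat_lit 5) (.e (nat_lit 229120) (nat_lit 16) .nil)))) (.g (nat_lit 0) (.e (nat_lit 348348) (nat_lit 0) .nil) .nil))) 
(.lf (nat_lit 570140) (.g (nat_lit 2643) (.e (nat_lit 475176) (nat_lit 24) (.e (nat_lit 516115) (nat_lit 1) (.e (nat_lit 164325) (nat_lit 230) (.e (nat_lit 163936) (nat_lit 18) .nil)))) (.g (nat_lit 0) (.e (nat_lit 350389) (nat_lit 0) .nil) .nil))))) (.nd (nat_lit 8) (.nd (nat_lit 9) 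
(.lf (nat_lit 569500) (.g (nat_lit 459) (.e (nat_lit 466967) (nat_lit 20) (.e (nat_lit 3304) (nat_lit 202) (.e (nat_lit 573456) (nat_lit 9) .nil))) (.g (nat_lit 0) (.e (nat_lit 348115) (nat_lit 0) .nil) .nil))) 
(.lf (nat_lit 570012) (.g (nat_lit 353) (.e (nat_lit 483072) (nat_lit 16) (.e (nat_lit 2797) (nat_lit 180) (.e (nat_lit 303127) (nat_lit 9) .nil))) (.g (nat_lit 0) (.e (nat_lit 350016) (nat_lit 0) .nil) .nil)))) (.nd (nat_lit 9) 
(.lf (nat_lit 569756) (.g (nat_lit 1486) (.e (nat_lit 466979) (nat_lit 23) (.e (nat_lit 204829) (nat_lit 18) (.e (nat_lit 57691) (nat_lit 156) (.e (nat_lit 163906) (nat_lit 12) (.e (nat_lit 426478) (nat_lit 27) .nil))))) (.g (nat_lit 0) (.e (nat_lit 348915) (nat_lit 0) .nil) .nil))) 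
(.lf (nat_lit 570268) (.g (nat_lit 2454) (.e (nat_lit 475177) (nat_lit 24) (.e (nat_lit 516117) (nat_lit 1) (.e (nat_lit 164330) (nat_lit 230) (.e (nat_lit 163902) (nat_lit 12) (.e (nat_lit 426478) (nat_lit 27) .nil))))) (.g (nat_lit 0) (.e (nat_lit 350596) (nat_lit 0) .nil) .nil)))))) (.nd (nat_lit 7) (.nd (nat_lit 8) (.nd (nat_lit 9) 
(.lf (nat_lit 569436) (.g (nat_lit 1655) (.e (nat_lit 474880) (nat_lit 18) (.e (nat_lit 393253) (nat_lit 18) (.e (nat_lit 164327) (nat_lit 230) (.e (nat_lit 163875) (nat_lit 3) (.e (nat_lit 212736) (nat_lit 14) .nil))))) (.g (nat_lit 0) (.e (nat_lit 348030) (nat_lit 0) .nil) .nil))) 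
(.lf (nat_lit 569948) (.g (nat_lit 2452) (.e (nat_lit 474880) (nat_lit 23) (.e (nat_lit 204845) (nat_lit 24) (.e (nat_lit 319531) (nat_lit 16) (.e (nat_lit 286735) (nat_lit 3) (.e (nat_lit 98381) (nat_lit 31) .nil))))) (.g (nat_lit 0) (.e (nat_lit 349842) (nat_lit 0) .nil) .nil)))) (.nd (nat_lit 9) 
(.lf (nat_lit 569692) (.g (nat_lit 1656) (.e (nat_lit 466977) (nat_lit 22) (.e (nat_lit 196656) (nat_lit 11) (.e (nat_lit 16392) (nat_lit 0) (.e (nat_lit 2400) (nat_lit 157) (.e (nat_lit 5570) (nat_lit 308) .nil))))) (.g (nat_lit 0) (.e (nat_lit 348660) (nat_lit 0) .nil) .nil))) 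
(.lf (nat_lit 570204) (.g (nat_lit 906) (.e (nat_lit 475176) (nat_lit 24) (.e (nat_lit 516176) (nat_lit 14) (.e (nat_lit 466972) (nat_lit 21) .nil))) (.g (nat_lit 0) (.e (nat_lit 350511) (nat_lit 0) .nil) .nil))))) (.nd (nat_lit 8) (.nd (nat_lit 9) 
(.lf (nat_lit 569564) (.g (nat_lit 1553) (.e (nat_lit 466970) (nat_lit 21) (.e (nat_lit 164179) (nat_lit 154) (.e (nat_lit 57388) (nat_lit 5) (.e (nat_lit 122624) (nat_lit 17) .nil)))) (.g (nat_lit 0) (.e (nat_lit 348243) (nat_lit 0) .nil) .nil))) 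
(.lf (nat_lit 570076) (.g (nat_lit 1843) (.e (nat_lit 483072) (nat_lit 26) (.e (nat_lit 532544) (nat_lit 10) (.e (nat_lit 344132) (nat_lit 26) (.e (nat_lit 557101) (nat_lit 13) (.e (nat_lit 172063) (nat_lit 2) .nil))))) (.g (nat_lit 0) (.e (nat_lit 350244) (nat_lit 0) .nil) .nil)))) (.nd (nat_lit 9) 
(.lf (nat_lit 569820) (.g (nat_lit 1588) (.e (nat_lit 466980) (nat_lit 23) (.e (nat_lit 204845) (nat_lit 24) (.e (nat_lit 319531) (nat_lit 16) (.e (nat_lit 286735) (nat_lit 3) .nil)))) (.g (nat_lit 0) (.e (nat_lit 349297) (nat_lit 0) .nil) .nil))) 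
(.lf (nat_lit 570332) (.g (nat_lit 1958) (.e (nat_lit 475177) (nat_lit 24) (.e (nat_lit 516119) (nat_lit 1) (.e (nat_lit 164326) (nat_lit 230) (.e (nat_lit 163903) (nat_lit 12) (.e (nat_lit 426567) (nat_lit 34) .nil))))) (.g (nat_lit 0) (.e (nat_lit 350676) (nat_lit 0) .nil) .nil))))))) (.nd (nat_lit 6) (.nd (nat_lit 7) (.nd (nat_lit 8) (.nd (nat_lit 9) 
(.lf (nat_lit 569404) (.g (nat_lit 1638) (.e (nat_lit 474880) (nat_lit 16) (.e (nat_lit 376860) (nat_lit 21) (.e (nat_lit 57853) (nat_lit 252) (.e (nat_lit 57388) (nat_lit 5) (.e (nat_lit 122624) (nat_lit 16) .nil))))) (.g (nat_lit 0) (.e (nat_lit 347987) (nat_lit 0) .nil) .nil))) 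
(.lf (nat_lit 569916) (.g (nat_lit 1670) (.e (nat_lit 466981) (nat_lit 23) (.e (nat_lit 204846) (nat_lit 24) (.e (nat_lit 319530) (nat_lit 16) (.e (nat_lit 286734) (nat_lit 3) .nil)))) (.g (nat_lit 0) (.e (nat_lit 349538) (nat_lit 0) .nil) .nil)))) (.nd (nat_lit 9) 
(.lf (nat_lit 569660) (.g (nat_lit 2285) (.e (nat_lit 466972) (nat_lit 21) (.e (nat_lit 164403) (nat_lit 256) (.e (nat_lit 57400) (nat_lit 10) (.e (nat_lit 319504) (nat_lit 10) (.e (nat_lit 5403) (nat_lit 302) .nil))))) (.g (nat_lit 0) (.e (nat_lit 348459) (nat_lit 0) .nil) .nil))) 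
(.lf (nat_lit 570172) (.g (nat_lit 1608) (.e (nat_lit 475176) (nat_lit 24) (.e (nat_lit 516145) (nat_lit 9) (.e (nat_lit 426428) (nat_lit 17) (.e (nat_lit 90130) (nat_lit 9) .nil)))) (.g (nat_lit 0) (.e (nat_lit 350436) (nat_lit 0) .nil) .nil))))) (.nd (nat_lit 8) (.nd (nat_lit 9) 
(.lf (nat_lit 569532) (.g (nat_lit 2210) (.e (nat_lit 466969) (nat_lit 21) (.e (nat_lit 164322) (nat_lit 230) (.e (nat_lit 163884) (nat_lit 5) (.e (nat_lit 221194) (nat_lit 11) (.e (nat_lit 336077) (nat_lit 9) (.e (nat_lit 336443) (nat_lit 32) .nil)))))) (.g (nat_lit 1) (.e (nat_lit 348184) (nat_lit 0) .nil) .nil))) 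
(.lf (nat_lit 570044) (.g (nat_lit 1807) (.e (nat_lit 483072) (nat_lit 26) (.e (nat_lit 532544) (nat_lit 10) (.e (nat_lit 344117) (nat_lit 21) (.e (nat_lit 516130) (nat_lit 3) (.e (nat_lit 221212) (nat_lit 22) .nil))))) (.g (nat_lit 0) (.e (nat_lit 350212) (nat_lit 0) .nil) .nil)))) (.nd (nat_lit 9) 
(.lf (nat_lit 569788) (.g (nat_lit 1603) (.e (nat_lit 466979) (nat_lit 23) (.e (nat_lit 204846) (nat_lit 24) (.e (nat_lit 319504) (nat_lit 10) (.e (nat_lit 5395) (nat_lit 301) .nil)))) (.g (nat_lit 0) (.e (nat_lit 348990) (nat_lit 0) .nil) .nil))) 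
(.lf (nat_lit 570300) (.g (nat_lit 2361) (.e (nat_lit 475177) (nat_lit 24) (.e (nat_lit 516118) (nat_lit 1) (.e (nat_lit 164332) (nat_lit 230) (.e (nat_lit 163902) (nat_lit 12) (.e (nat_lit 426481) (nat_lit 27) .nil))))) (.g (nat_lit 0) (.e (nat_lit 350633) (nat_lit 0) .nil) .nil)))))) (.nd (nat_lit 7) (.nd (nat_lit 8) (.nd (nat_lit 9) 
(.lf (nat_lit 569468) (.g (nat_lit 2385) (.e (nat_lit 466955) (nat_lit 20) (.e (nat_lit 3238) (nat_lit 197) (.e (nat_lit 532523) (nat_lit 7) (.e (nat_lit 319532) (nat_lit 16) (.e (nat_lit 286734) (nat_lit 3) .nil))))) (.g (nat_lit 0) (.e (nat_lit 348062) (nat_lit 0) .nil) .nil))) 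
(.lf (nat_lit 569980) (.g (nat_lit 1530) (.e (nat_lit 483072) (nat_lit 5) (.e (nat_lit 180252) (nat_lit 10) (.e (nat_lit 573503) (nat_lit 18) (.e (nat_lit 1359) (nat_lit 102) (.e (nat_lit 286743) (nat_lit 9) .nil))))) (.g (nat_lit 0) (.e (nat_lit 349953) (nat_lit 0) .nil) .nil)))) (.nd (nat_lit 9) 
(.lf (nat_lit 569724) (.g (nat_lit 2135) (.e (nat_lit 466978) (nat_lit 23) (.e (nat_lit 204846) (nat_lit 24) (.e (nat_lit 319528) (nat_lit 16) (.e (nat_lit 286735) (nat_lit 3) (.e (nat_lit 98382) (nat_lit 31) .nil))))) (.g (nat_lit 0) (.e (nat_lit 348830) (nat_lit 0) .nil) .nil))) 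
(.lf (nat_lit 570236) (.g (nat_lit 2062) (.e (nat_lit 475177) (nat_lit 24) (.e (nat_lit 516115) (nat_lit 1) (.e (nat_lit 164325) (nat_lit 230) (.e (nat_lit 163907) (nat_lit 12) (.e (nat_lit 426481) (nat_lit 27) .nil))))) (.g (nat_lit 0) (.e (nat_lit 350549) (nat_lit 0) .nil) .nil))))) (.nd (nat_lit 8) (.nd (nat_lit 9) 
(.lf (nat_lit 569596) (.g (nat_lit 2215) (.e (nat_lit 466971) (nat_lit 21) (.e (nat_lit 164324) (nat_lit 230) (.e (nat_lit 163884) (nat_lit 5) (.e (nat_lit 221194) (nat_lit 11) (.e (nat_lit 336086) (nat_lit 9) (.e (nat_lit 336444) (nat_lit 32) .nil)))))) (.g (nat_lit 1) (.e (nat_lit 348311) (nat_lit 0) .nil) .nil))) 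
(.lf (nat_lit 570108) (.g (nat_lit 1872) (.e (nat_lit 475175) (nat_lit 24) (.e (nat_lit 516119) (nat_lit 1) (.e (nat_lit 164325) (nat_lit 230) (.e (nat_lit 163903) (nat_lit 12) (.e (nat_lit 426568) (nat_lit 34) .nil))))) (.g (nat_lit 0) (.e (nat_lit 350337) (nat_lit 0) .nil) .nil)))) (.nd (nat_lit 9) 
(.lf (nat_lit 569852) (.g (nat_lit 2711) (.e (nat_lit 466981) (nat_lit 23) (.e (nat_lit 204809) (nat_lit 9) (.e (nat_lit 426107) (nat_lit 1) (.e (nat_lit 164327) (nat_lit 230) (.e (nat_lit 171776) (nat_lit 62) (.e (nat_lit 57927) (nat_lit 282) (.e (nat_lit 163933) (nat_lit 17) .nil))))))) (.g (nat_lit 1) (.e (nat_lit 349385) (nat_lit 0) .nil) .nil))) 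
(.lf (nat_lit 570364) (.g (nat_lit 2290) (.e (nat_lit 475177) (nat_lit 24) (.e (nat_lit 516120) (nat_lit 1) (.e (nat_lit 164330) (nat_lit 230) (.e (nat_lit 163913) (nat_lit 12) (.e (nat_lit 426510) (nat_lit 27) (.e (nat_lit 336408) (nat_lit 27) (.e (nat_lit 426306) (nat_lit 12) .nil))))))) (.g (nat_lit 1) (.e (nat_lit 350722) (nat_lit 0) .nil) .nil))))))))))) 
(.nd (nat_lit 2) (.nd (nat_lit 3) (.nd (nat_lit 4) (.nd (nat_lit 5) (.nd (nat_lit 6) 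
(.nd (nat_lit 7) (.nd (nat_lit 8) (.nd (nat_lit 9) 
(.lf (nat_lit 569346) (.g (nat_lit 1615) (.e (nat_lit 466954) (nat_lit 11) (.e (nat_lit 336387) (nat_lit 27) (.e (nat_lit 426107) (nat_lit 1) (.e (nat_lit 164402) (nat_lit 256) (.e (nat_lit 57378) (nat_lit 3) .nil))))) (.g (nat_lit 0) (.e (nat_lit 347895) (nat_lit 0) .nil) .nil))) 
(.lf (nat_lit 569858) (.g (nat_lit 1633) (.e (nat_lit 466981) (nat_lit 23) (.e (nat_lit 204813) (nat_lit 9) (.e (nat_lit 426107) (nat_lit 1) (.e (nat_lit 164403) (nat_lit 256) (.e (nat_lit 57405) (nat_lit 12) .nil))))) (.g (nat_lit 0) (.e (nat_lit 349391) (nat_lit 0) .nil) .nil)))) (.nd (nat_lit 9) 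
(.lf (nat_lit 569602) (.g (nat_lit 1642) (.e (nat_lit 466971) (nat_lit 21) (.e (nat_lit 164325) (nat_lit 230) (.e (nat_lit 163843) (nat_lit 0) (.e (nat_lit 3617) (nat_lit 227) .nil)))) (.g (nat_lit 0) (.e (nat_lit 348317) (nat_lit 0) .nil) .nil))) 
(.lf (nat_lit 570114) (.g (nat_lit 1406) (.e (nat_lit 475175) (nat_lit 24) (.e (nat_lit 516119) (nat_lit 1) (.e (nat_lit 164327) (nat_lit 230) (.e (nat_lit 163907) (nat_lit 12) .nil)))) (.g (nat_lit 0) (.e (nat_lit 350348) (nat_lit 0) .nil) .nil))))) (.nd (nat_lit 8) (.nd (nat_lit 9) 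
(.lf (nat_lit 569474) (.g (nat_lit 1216) (.e (nat_lit 466955) (nat_lit 20) (.e (nat_lit 3272) (nat_lit 199) (.e (nat_lit 548913) (nat_lit 18) (.e (nat_lit 172124) (nat_lit 14) .nil)))) (.g (nat_lit 0) (.e (nat_lit 348074) (nat_lit 0) .nil) .nil))) 
(.lf (nat_lit 569986) (.g (nat_lit 2624) (.e (nat_lit 483072) (nat_lit 8) (.e (nat_lit 1673) (nat_lit 116) (.e (nat_lit 401456) (nat_lit 13) (.e (nat_lit 483413) (nat_lit 27) (.e (nat_lit 401451) (nat_lit 12) .nil))))) (.g (nat_lit 0) (.e (nat_lit 349962) (nat_lit 0) .nil) .nil)))) (.nd (nat_lit 9) 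
(.lf (nat_lit 569730) (.g (nat_lit 1938) (.e (nat_lit 466978) (nat_lit 23) (.e (nat_lit 204846) (nat_lit 24) (.e (nat_lit 319531) (nat_lit 16) (.e (nat_lit 286735) (nat_lit 3) (.e (nat_lit 98380) (nat_lit 31) .nil))))) (.g (nat_lit 0) (.e (nat_lit 348838) (nat_lit 0) .nil) .nil))) 
(.lf (nat_lit 570242) (.g (nat_lit 2513) (.e (nat_lit 475177) (nat_lit 24) (.e (nat_lit 516115) (nat_lit 1) (.e (nat_lit 164325) (nat_lit 230) (.e (nat_lit 163939) (nat_lit 18) .nil)))) (.g (nat_lit 0) (.e (nat_lit 350555) (nat_lit 0) .nil) .nil)))))) (.nd (nat_lit 7) (.nd (nat_lit 8) (.nd (nat_lit 9) 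
(.lf (nat_lit 569410) (.g (nat_lit 1684) (.e (nat_lit 474880) (nat_lit 18) (.e (nat_lit 393251) (nat_lit 18) (.e (nat_lit 164325) (nat_lit 230) (.e (nat_lit 163874) (nat_lit 3) (.e (nat_lit 212736) (nat_lit 14) .nil))))) (.g (nat_lit 0) (.e (nat_lit 348003) (nat_lit 0) .nil) .nil))) 
(.lf (nat_lit 569922) (.g (nat_lit 1763) (.e (nat_lit 466981) (nat_lit 23) (.e (nat_lit 204846) (nat_lit 24) (.e (nat_lit 319533) (nat_lit 16) (.e (nat_lit 286725) (nat_lit 0) .nil)))) (.g (nat_lit 0) (.e (nat_lit 349550) (nat_lit 0) .nil) .nil)))) (.nd (nat_lit 9) 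
(.lf (nat_lit 569666) (.g (nat_lit 2074) (.e (nat_lit 466972) (nat_lit 21) (.e (nat_lit 164403) (nat_lit 256) (.e (nat_lit 57400) (nat_lit 10) (.e (nat_lit 319533) (nat_lit 16) (.e (nat_lit 286744) (nat_lit 9) .nil))))) (.g (nat_lit 0) (.e (nat_lit 348465) (nat_lit 0) .nil) .nil))) 
(.lf (nat_lit 570178) (.g (nat_lit 2569) (.e (nat_lit 475176) (nat_lit 24) (.e (nat_lit 516163) (nat_lit 11) (.e (nat_lit 442421) (nat_lit 21) (.e (nat_lit 164177) (nat_lit 154) (.e (nat_lit 57390) (nat_lit 5) .nil))))) (.g (nat_lit 0) (.e (nat_lit 350484) (nat_lit 0) .nil) .nil))))) (.nd (nat_lit 8) (.nd (nat_lit 9) 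
(.lf (nat_lit 569538) (.g (nat_lit 1732) (.e (nat_lit 466969) (nat_lit 21) (.e (nat_lit 164324) (nat_lit 230) (.e (nat_lit 163885) (nat_lit 5) (.e (nat_lit 221193) (nat_lit 11) (.e (nat_lit 336075) (nat_lit 9) .nil))))) (.g (nat_lit 0) (.e (nat_lit 348190) (nat_lit 0) .nil) .nil))) 
(.lf (nat_lit 570050) (.g (nat_lit 952) (.e (nat_lit 483072) (nat_lit 26) (.e (nat_lit 532544) (nat_lit 10) (.e (nat_lit 344120) (nat_lit 21) (.e (nat_lit 516131) (nat_lit 3) (.e (nat_lit 221211) (nat_lit 22) .nil))))) (.g (nat_lit 0) (.e (nat_lit 350218) (nat_lit 0) .nil) .nil)))) (.nd (nat_lit 9) 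
(.lf (nat_lit 569794) (.g (nat_lit 1101) (.e (nat_lit 466979) (nat_lit 23) (.e (nat_lit 204846) (nat_lit 24) (.e (nat_lit 319528) (nat_lit 16) (.e (nat_lit 286734) (nat_lit 3) .nil)))) (.g (nat_lit 0) (.e (nat_lit 348997) (nat_lit 0) .nil) .nil))) 
(.lf (nat_lit 570306) (.g (nat_lit 2635) (.e (nat_lit 475177) (nat_lit 24) (.e (nat_lit 516118) (nat_lit 1) (.e (nat_lit 164332) (nat_lit 230) (.e (nat_lit 163905) (nat_lit 12) (.e (nat_lit 426481) (nat_lit 27) (.e (nat_lit 336385) (nat_lit 27) (.e (nat_lit 426306) (nat_lit 12) .nil))))))) (.g (nat_lit 1) (.e (nat_lit 350641) (nat_lit 0) .nil) .nil))))))) 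
(.nd (nat_lit 6) (.nd (nat_lit 7) (.nd (nat_lit 8) (.nd (nat_lit 9) 
(.lf (nat_lit 569378) (.g (nat_lit 963) (.e (nat_lit 474880) (nat_lit 16) (.e (nat_lit 376857) (nat_lit 21) (.e (nat_lit 57848) (nat_lit 252) (.e (nat_lit 57388) (nat_lit 5) (.e (nat_lit 122624) (nat_lit 16) .nil))))) (.g (nat_lit 0) (.e (nat_lit 347958) (nat_lit 0) .nil) .nil))) 
(.lf (nat_lit 569890) (.g (nat_lit 2763) (.e (nat_lit 466981) (nat_lit 23) (.e (nat_lit 204845) (nat_lit 24) (.e (nat_lit 319531) (nat_lit 16) (.e (nat_lit 286727) (nat_lit 0) (.e (nat_lit 1798) (nat_lit 119) .nil))))) (.g (nat_lit 0) (.e (nat_lit 349501) (nat_lit 0) .nil) .nil)))) (.nd (nat_lit 9) 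
(.lf (nat_lit 569634) (.g (nat_lit 1848) (.e (nat_lit 466971) (nat_lit 21) (.e (nat_lit 164332) (nat_lit 230) (.e (nat_lit 163884) (nat_lit 5) (.e (nat_lit 221194) (nat_lit 11) (.e (nat_lit 336087) (nat_lit 9) .nil))))) (.g (nat_lit 0) (.e (nat_lit 348354) (nat_lit 0) .nil) .nil))) 
(.lf (nat_lit 570146) (.g (nat_lit 2205) (.e (nat_lit 475176) (nat_lit 24) (.e (nat_lit 516115) (nat_lit 1) (.e (nat_lit 164332) (nat_lit 230) (.e (nat_lit 163905) (nat_lit 12) (.e (nat_lit 426568) (nat_lit 34) (.e (nat_lit 393294) (nat_lit 26) .nil)))))) (.g (nat_lit 1) (.e (nat_lit 350400) (nat_lit 0) .nil) .nil))))) (.nd (nat_lit 8) (.nd (nat_lit 9) 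
(.lf (nat_lit 569506) (.g (nat_lit 3090) (.e (nat_lit 466967) (nat_lit 20) (.e (nat_lit 3305) (nat_lit 202) (.e (nat_lit 573475) (nat_lit 12) (.e (nat_lit 57572) (nat_lit 54) (.e (nat_lit 770072) (nat_lit 8) .nil))))) (.g (nat_lit 0) (.e (nat_lit 348123) (nat_lit 0) .nil) .nil))) 
(.lf (nat_lit 570018) (.g (nat_lit 1902) (.e (nat_lit 475152) (nat_lit 17) (.e (nat_lit 57813) (nat_lit 246) (.e (nat_lit 57596) (nat_lit 82) (.e (nat_lit 499900) (nat_lit 7) (.e (nat_lit 24630) (nat_lit 9) (.e (nat_lit 336450) (nat_lit 33) .nil)))))) (.g (nat_lit 1) (.e (nat_lit 350091) (nat_lit 0) .nil) .nil)))) (.nd (nat_lit 9) 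
(.lf (nat_lit 569762) (.g (nat_lit 337) (.e (nat_lit 466979) (nat_lit 23) (.e (nat_lit 204830) (nat_lit 18) (.e (nat_lit 57692) (nat_lit 156) .nil))) (.g (nat_lit 0) (.e (nat_lit 348942) (nat_lit 0) .nil) .nil))) 
(.lf (nat_lit 570274) (.g (nat_lit 1986) (.e (nat_lit 475177) (nat_lit 24) (.e (nat_lit 516117) (nat_lit 1) (.e (nat_lit 164330) (nat_lit 230) (.e (nat_lit 163905) (nat_lit 12) (.e (nat_lit 426493) (nat_lit 27) .nil))))) (.g (nat_lit 0) (.e (nat_lit 350603) (nat_lit 0) .nil) .nil)))))) (.nd (nat_lit 7) (.nd (nat_lit 8) (.nd (nat_lit 9) 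
(.lf (nat_lit 569442) (.g (nat_lit 1489) (.e (nat_lit 474880) (nat_lit 18) (.e (nat_lit 393253) (nat_lit 18) (.e (nat_lit 164332) (nat_lit 230) (.e (nat_lit 163873) (nat_lit 3) (.e (nat_lit 212736) (nat_lit 14) .nil))))) (.g (nat_lit 0) (.e (nat_lit 348036) (nat_lit 0) .nil) .nil))) 
(.lf (nat_lit 569954) (.g (nat_lit 2605) (.e (nat_lit 474880) (nat_lit 23) (.e (nat_lit 204846) (nat_lit 24) (.e (nat_lit 319530) (nat_lit 16) (.e (nat_lit 286735) (nat_lit 3) (.e (nat_lit 98380) (nat_lit 31) .nil))))) (.g (nat_lit 0) (.e (nat_lit 349848) (nat_lit 0) .nil) .nil)))) (.nd (nat_lit 9) 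
(.lf (nat_lit 569698) (.g (nat_lit 1863) (.e (nat_lit 466977) (nat_lit 22) (.e (nat_lit 196681) (nat_lit 17) (.e (nat_lit 131086) (nat_lit 1) (.e (nat_lit 57931) (nat_lit 282) (.e (nat_lit 171776) (nat_lit 64) (.e (nat_lit 98382) (nat_lit 31) .nil)))))) (.g (nat_lit 1) (.e (nat_lit 348762) (nat_lit 0) .nil) .nil))) 
(.lf (nat_lit 570210) (.g (nat_lit 1734) (.e (nat_lit 475176) (nat_lit 24) (.e (nat_lit 516182) (nat_lit 15) (.e (nat_lit 475177) (nat_lit 24) (.e (nat_lit 516181) (nat_lit 15) (.e (nat_lit 475177) (nat_lit 24) (.e (nat_lit 516181) (nat_lit 15) .nil)))))) (.g (nat_lit 1) (.e (nat_lit 350517) (nat_lit 0) .nil) .nil))))) (.nd (nat_lit 8) (.nd (nat_lit 9) 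
(.lf (nat_lit 569570) (.g (nat_lit 1169) (.e (nat_lit 466970) (nat_lit 21) (.e (nat_lit 164325) (nat_lit 230) (.e (nat_lit 163884) (nat_lit 5) (.e (nat_lit 229120) (nat_lit 13) .nil)))) (.g (nat_lit 0) (.e (nat_lit 348249) (nat_lit 0) .nil) .nil))) 
(.lf (nat_lit 570082) (.g (nat_lit 2433) (.e (nat_lit 483072) (nat_lit 26) (.e (nat_lit 532544) (nat_lit 10) (.e (nat_lit 344133) (nat_lit 26) (.e (nat_lit 557098) (nat_lit 13) (.e (nat_lit 172062) (nat_lit 2) .nil))))) (.g (nat_lit 0) (.e (nat_lit 350250) (nat_lit 0) .nil) .nil)))) (.nd (nat_lit 9) 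
(.lf (nat_lit 569826) (.g (nat_lit 1881) (.e (nat_lit 466980) (nat_lit 23) (.e (nat_lit 204846) (nat_lit 24) (.e (nat_lit 319504) (nat_lit 10) (.e (nat_lit 5393) (nat_lit 301) .nil)))) (.g (nat_lit 0) (.e (nat_lit 349303) (nat_lit 0) .nil) .nil))) 
(.lf (nat_lit 570338) (.g (nat_lit 2088) (.e (nat_lit 475177) (nat_lit 24) (.e (nat_lit 516119) (nat_lit 1) (.e (nat_lit 164332) (nat_lit 230) (.e (nat_lit 163902) (nat_lit 12) (.e (nat_lit 426566) (nat_lit 34) .nil))))) (.g (nat_lit 0) (.e (nat_lit 350687) (nat_lit 0) .nil) .nil)))))))) (.nd (nat_lit 5) (.nd (nat_lit 6) (.nd (nat_lit 7) (.nd (nat_lit 8) (.nd (nat_lit 9) 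
(.lf (nat_lit 569362) (.g (nat_lit 1129) (.e (nat_lit 474880) (nat_lit 13) (.e (nat_lit 352308) (nat_lit 21) (.e (nat_lit 57854) (nat_lit 252) (.e (nat_lit 57388) (nat_lit 5) (.e (nat_lit 122624) (nat_lit 16) .nil))))) (.g (nat_lit 0) (.e (nat_lit 347929) (nat_lit 0) .nil) .nil))) 
(.lf (nat_lit 569874) (.g (nat_lit 798) (.e (nat_lit 466981) (nat_lit 23) (.e (nat_lit 204831) (nat_lit 18) (.e (nat_lit 57688) (nat_lit 156) .nil))) (.g (nat_lit 0) (.e (nat_lit 349475) (nat_lit 0) .nil) .nil)))) (.nd (nat_lit 9) 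
(.lf (nat_lit 569618) (.g (nat_lit 2983) (.e (nat_lit 466971) (nat_lit 21) (.e (nat_lit 164327) (nat_lit 230) (.e (nat_lit 163879) (nat_lit 4) (.e (nat_lit 213032) (nat_lit 11) (.e (nat_lit 24627) (nat_lit 9) (.e (nat_lit 336443) (nat_lit 32) .nil)))))) (.g (nat_lit 1) (.e (nat_lit 348338) (nat_lit 0) .nil) .nil))) 
(.lf (nat_lit 570130) (.g (nat_lit 2539) (.e (nat_lit 475175) (nat_lit 24) (.e (nat_lit 516179) (nat_lit 15) (.e (nat_lit 475177) (nat_lit 24) (.e (nat_lit 516146) (nat_lit 9) (.e (nat_lit 426438) (nat_lit 18) .nil))))) (.g (nat_lit 0) (.e (nat_lit 350379) (nat_lit 0) .nil) .nil))))) (.nd (nat_lit 8) (.nd (nat_lit 9) 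
(.lf (nat_lit 569490) (.g (nat_lit 1890) (.e (nat_lit 466965) (nat_lit 20) (.e (nat_lit 3249) (nat_lit 197) (.e (nat_lit 532523) (nat_lit 7) (.e (nat_lit 319533) (nat_lit 16) (.e (nat_lit 286734) (nat_lit 3) .nil))))) (.g (nat_lit 0) (.e (nat_lit 348098) (nat_lit 0) .nil) .nil))) 
(.lf (nat_lit 570002) (.g (nat_lit 2089) (.e (nat_lit 483072) (nat_lit 10) (.e (nat_lit 16458) (nat_lit 12) (.e (nat_lit 475179) (nat_lit 24) (.e (nat_lit 516117) (nat_lit 1) (.e (nat_lit 164332) (nat_lit 230) .nil))))) (.g (nat_lit 0) (.e (nat_lit 349988) (nat_lit 0) .nil) .nil)))) (.nd (nat_lit 9) 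
(.lf (nat_lit 569746) (.g (nat_lit 1647) (.e (nat_lit 466979) (nat_lit 23) (.e (nat_lit 204813) (nat_lit 9) (.e (nat_lit 426107) (nat_lit 1) (.e (nat_lit 164403) (nat_lit 256) (.e (nat_lit 57405) (nat_lit 12) .nil))))) (.g (nat_lit 0) (.e (nat_lit 348868) (nat_lit 0) .nil) .nil))) 
(.lf (nat_lit 570258) (.g (nat_lit 1288) (.e (nat_lit 475177) (nat_lit 24) (.e (nat_lit 516115) (nat_lit 1) (.e (nat_lit 164334) (nat_lit 231) .nil))) (.g (nat_lit 0) (.e (nat_lit 350583) (nat_lit 0) .nil) .nil)))))) (.nd (nat_lit 7) (.nd (nat_lit 8) (.nd (nat_lit 9) 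
(.lf (nat_lit 569426) (.g (nat_lit 1618) (.e (nat_lit 474880) (nat_lit 18) (.e (nat_lit 393253) (nat_lit 18) (.e (nat_lit 164324) (nat_lit 230) (.e (nat_lit 163873) (nat_lit 3) (.e (nat_lit 212736) (nat_lit 14) .nil))))) (.g (nat_lit 0) (.e (nat_lit 348020) (nat_lit 0) .nil) .nil))) 
(.lf (nat_lit 569938) (.g (nat_lit 1843) (.e (nat_lit 466981) (nat_lit 23) (.e (nat_lit 204861) (nat_lit 26) (.e (nat_lit 335988) (nat_lit 1) (.e (nat_lit 57783) (nat_lit 239) (.e (nat_lit 7936) (nat_lit 81) .nil))))) (.g (nat_lit 0) (.e (nat_lit 349667) (nat_lit 0) .nil) .nil)))) (.nd (nat_lit 9) 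
(.lf (nat_lit 569682) (.g (nat_lit 2024) (.e (nat_lit 466975) (nat_lit 22) (.e (nat_lit 196626) (nat_lit 9) (.e (nat_lit 1400) (nat_lit 106) (.e (nat_lit 319533) (nat_lit 16) (.e (nat_lit 286725) (nat_lit 0) .nil))))) (.g (nat_lit 0) (.e (nat_lit 348594) (nat_lit 0) .nil) .nil))) 
(.lf (nat_lit 570194) (.g (nat_lit 2015) (.e (nat_lit 475176) (nat_lit 24) (.e (nat_lit 516174) (nat_lit 14) (.e (nat_lit 466954) (nat_lit 11) (.e (nat_lit 335996) (nat_lit 1) (.e (nat_lit 57691) (nat_lit 156) .nil))))) (.g (nat_lit 0) (.e (nat_lit 350500) (nat_lit 0) .nil) .nil))))) (.nd (nat_lit 8) (.nd (nat_lit 9) 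
(.lf (nat_lit 569554) (.g (nat_lit 988) (.e (nat_lit 466969) (nat_lit 21) (.e (nat_lit 164329) (nat_lit 230) (.e (nat_lit 163885) (nat_lit 5) (.e (nat_lit 221192) (nat_lit 11) .nil)))) (.g (nat_lit 0) (.e (nat_lit 348206) (nat_lit 0) .nil) .nil))) 
(.lf (nat_lit 570066) (.g (nat_lit 1978) (.e (nat_lit 483072) (nat_lit 26) (.e (nat_lit 532544) (nat_lit 10) (.e (nat_lit 344130) (nat_lit 26) (.e (nat_lit 557104) (nat_lit 14) (.e (nat_lit 180249) (nat_lit 10) .nil))))) (.g (nat_lit 0) (.e (nat_lit 350234) (nat_lit 0) .nil) .nil)))) (.nd (nat_lit 9) 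
(.lf (nat_lit 569810) (.g (nat_lit 1938) (.e (nat_lit 466979) (nat_lit 23) (.e (nat_lit 204846) (nat_lit 24) (.e (nat_lit 319534) (nat_lit 16) (.e (nat_lit 286735) (nat_lit 3) (.e (nat_lit 98379) (nat_lit 31) .nil))))) (.g (nat_lit 0) (.e (nat_lit 349035) (nat_lit 0) .nil) .nil))) 
(.lf (nat_lit 570322) (.g (nat_lit 2731) (.e (nat_lit 475177) (nat_lit 24) (.e (nat_lit 516119) (nat_lit 1) (.e (nat_lit 164324) (nat_lit 230) (.e (nat_lit 163905) (nat_lit 12) (.e (nat_lit 426566) (nat_lit 34) (.e (nat_lit 393293) (nat_lit 26) .nil)))))) (.g (nat_lit 1) (.e (nat_lit 350663) (nat_lit 0) .nil) .nil))))))) (.nd (nat_lit 6) (.nd (nat_lit 7) (.nd (nat_lit 8) (.nd (nat_lit 9) 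
(.lf (nat_lit 569394) (.g (nat_lit 1212) (.e (nat_lit 474880) (nat_lit 16) (.e (nat_lit 376859) (nat_lit 21) (.e (nat_lit 57847) (nat_lit 252) (.e (nat_lit 57388) (nat_lit 5) (.e (nat_lit 122624) (nat_lit 16) .nil))))) (.g (nat_lit 0) (.e (nat_lit 347976) (nat_lit 0) .nil) .nil))) 
(.lf (nat_lit 569906) (.g (nat_lit 1442) (.e (nat_lit 466981) (nat_lit 23) (.e (nat_lit 204846) (nat_lit 24) (.e (nat_lit 319504) (nat_lit 10) (.e (nat_lit 7936) (nat_lit 304) .nil)))) (.g (nat_lit 0) (.e (nat_lit 349524) (nat_lit 0) .nil) .nil)))) (.nd (nat_lit 9) 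
(.lf (nat_lit 569650) (.g (nat_lit 509) (.e (nat_lit 466972) (nat_lit 21) (.e (nat_lit 164332) (nat_lit 230) (.e (nat_lit 163851) (nat_lit 0) .nil))) (.g (nat_lit 0) (.e (nat_lit 348442) (nat_lit 0) .nil) .nil))) 
(.lf (nat_lit 570162) (.g (nat_lit 1345) (.e (nat_lit 475176) (nat_lit 24) (.e (nat_lit 516119) (nat_lit 1) (.e (nat_lit 164325) (nat_lit 230) (.e (nat_lit 163905) (nat_lit 12) .nil)))) (.g (nat_lit 0) (.e (nat_lit 350423) (nat_lit 0) .nil) .nil))))) (.nd (nat_lit 8) (.nd (nat_lit 9) 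
(.lf (nat_lit 569522) (.g (nat_lit 2680) (.e (nat_lit 466968) (nat_lit 21) (.e (nat_lit 164332) (nat_lit 230) (.e (nat_lit 163880) (nat_lit 4) (.e (nat_lit 213032) (nat_lit 11) (.e (nat_lit 24630) (nat_lit 9) .nil))))) (.g (nat_lit 0) (.e (nat_lit 348150) (nat_lit 0) .nil) .nil))) 
(.lf (nat_lit 570034) (.g (nat_lit 989) (.e (nat_lit 483072) (nat_lit 26) (.e (nat_lit 532544) (nat_lit 10) (.e (nat_lit 352000) (nat_lit 2) (.e (nat_lit 24679) (nat_lit 27) (.e (nat_lit 426314) (nat_lit 12) .nil))))) (.g (nat_lit 0) (.e (nat_lit 350202) (nat_lit 0) .nil) .nil)))) (.nd (nat_lit 9) 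
(.lf (nat_lit 569778) (.g (nat_lit 2326) (.e (nat_lit 466979) (nat_lit 23) (.e (nat_lit 204845) (nat_lit 24) (.e (nat_lit 319531) (nat_lit 16) (.e (nat_lit 286727) (nat_lit 0) (.e (nat_lit 1799) (nat_lit 119) .nil))))) (.g (nat_lit 0) (.e (nat_lit 348973) (nat_lit 0) .nil) .nil))) 
(.lf (nat_lit 570290) (.g (nat_lit 2162) (.e (nat_lit 475177) (nat_lit 24) (.e (nat_lit 516118) (nat_lit 1) (.e (nat_lit 164324) (nat_lit 230) (.e (nat_lit 163907) (nat_lit 12) (.e (nat_lit 426566) (nat_lit 34) .nil))))) (.g (nat_lit 0) (.e (nat_lit 350619) (nat_lit 0) .nil) .nil)))))) (.nd (nat_lit 7) (.nd (nat_lit 8) (.nd (nat_lit 9) 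
(.lf (nat_lit 569458) (.g (nat_lit 1638) (.e (nat_lit 474880) (nat_lit 18) (.e (nat_lit 393254) (nat_lit 18) (.e (nat_lit 164332) (nat_lit 230) (.e (nat_lit 163874) (nat_lit 3) (.e (nat_lit 212736) (nat_lit 14) .nil))))) (.g (nat_lit 0) (.e (nat_lit 348052) (nat_lit 0) .nil) .nil))) 
(.lf (nat_lit 569970) (.g (nat_lit 481) (.e (nat_lit 483072) (nat_lit 2) (.e (nat_lit 24648) (nat_lit 12) (.e (nat_lit 385057) (nat_lit 22) .nil))) (.g (nat_lit 0) (.e (nat_lit 349913) (nat_lit 0) .nil) .nil)))) (.nd (nat_lit 9) 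
(.lf (nat_lit 569714) (.g (nat_lit 2502) (.e (nat_lit 466978) (nat_lit 23) (.e (nat_lit 204845) (nat_lit 24) (.e (nat_lit 319531) (nat_lit 16) (.e (nat_lit 286735) (nat_lit 3) (.e (nat_lit 98380) (nat_lit 31) .nil))))) (.g (nat_lit 0) (.e (nat_lit 348820) (nat_lit 0) .nil) .nil))) 
(.lf (nat_lit 570226) (.g (nat_lit 2084) (.e (nat_lit 475177) (nat_lit 24) (.e (nat_lit 516115) (nat_lit 1) (.e (nat_lit 164325) (nat_lit 230) (.e (nat_lit 163902) (nat_lit 12) .nil)))) (.g (nat_lit 0) (.e (nat_lit 350539) (nat_lit 0) .nil) .nil))))) (.nd (nat_lit 8) (.nd (nat_lit 9) 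
(.lf (nat_lit 569586) (.g (nat_lit 2085) (.e (nat_lit 466971) (nat_lit 21) (.e (nat_lit 164322) (nat_lit 230) (.e (nat_lit 163878) (nat_lit 4) (.e (nat_lit 213030) (nat_lit 11) (.e (nat_lit 24629) (nat_lit 9) (.e (nat_lit 336444) (nat_lit 32) .nil)))))) (.g (nat_lit 1) (.e (nat_lit 348301) (nat_lit 0) .nil) .nil))) 
(.lf (nat_lit 570098) (.g (nat_lit 501) (.e (nat_lit 475175) (nat_lit 24) (.e (nat_lit 516115) (nat_lit 1) (.e (nat_lit 164325) (nat_lit 230) .nil))) (.g (nat_lit 0) (.e (nat_lit 350319) (nat_lit 0) .nil) .nil)))) (.nd (nat_lit 9) 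
(.lf (nat_lit 569842) (.g (nat_lit 1828) (.e (nat_lit 466980) (nat_lit 23) (.e (nat_lit 204846) (nat_lit 24) (.e (nat_lit 319534) (nat_lit 16) (.e (nat_lit 286728) (nat_lit 0) (.e (nat_lit 1798) (nat_lit 119) .nil))))) (.g (nat_lit 0) (.e (nat_lit 349338) (nat_lit 0) .nil) .nil))) 
(.lf (nat_lit 570354) (.g (nat_lit 1770) (.e (nat_lit 475177) (nat_lit 24) (.e (nat_lit 516120) (nat_lit 1) (.e (nat_lit 164330) (nat_lit 230) (.e (nat_lit 163905) (nat_lit 12) (.e (nat_lit 426489) (nat_lit 27) .nil))))) (.g (nat_lit 0) (.e (nat_lit 350711) (nat_lit 0) .nil) .nil))))))))) (.nd (nat_lit 4) (.nd (nat_lit 5) (.nd (nat_lit 6) (.nd (nat_lit 7) (.nd (nat_lit 8) (.nd (nat_lit 9) 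
(.lf (nat_lit 569354) (.g (nat_lit 1069) (.e (nat_lit 474880) (nat_lit 13) (.e (nat_lit 352307) (nat_lit 21) (.e (nat_lit 57844) (nat_lit 252) (.e (nat_lit 57389) (nat_lit 5) .nil)))) (.g (nat_lit 0) (.e (nat_lit 347921) (nat_lit 0) .nil) .nil))) 
(.lf (nat_lit 569866) (.g (nat_lit 2927) (.e (nat_lit 466981) (nat_lit 23) (.e (nat_lit 204829) (nat_lit 18) (.e (nat_lit 57688) (nat_lit 156) (.e (nat_lit 163907) (nat_lit 12) (.e (nat_lit 426484) (nat_lit 27) .nil))))) (.g (nat_lit 0) (.e (nat_lit 349435) (nat_lit 0) .nil) .nil)))) (.nd (nat_lit 9) 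
(.lf (nat_lit 569610) (.g (nat_lit 1739) (.e (nat_lit 466971) (nat_lit 21) (.e (nat_lit 164326) (nat_lit 230) (.e (nat_lit 163881) (nat_lit 4) (.e (nat_lit 213030) (nat_lit 11) (.e (nat_lit 24629) (nat_lit 9) (.e (nat_lit 336444) (nat_lit 32) .nil)))))) (.g (nat_lit 1) (.e (nat_lit 348326) (nat_lit 0) .nil) .nil))) 
(.lf (nat_lit 570122) (.g (nat_lit 2993) (.e (nat_lit 475175) (nat_lit 24) (.e (nat_lit 516151) (nat_lit 9) (.e (nat_lit 426042) (nat_lit 0) (.e (nat_lit 3307) (nat_lit 202) (.e (nat_lit 573489) (nat_lit 14) (.e (nat_lit 73757) (nat_lit 11) (.e (nat_lit 581636) (nat_lit 0) (.e (nat_lit 3063) (nat_lit 190) .nil)))))))) (.g (nat_lit 1) (.e (nat_lit 350365) (nat_lit 0) .nil) .nil))))) 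
(.nd (nat_lit 8) (.nd (nat_lit 9) 
(.lf (nat_lit 569482) (.g (nat_lit 3403) (.e (nat_lit 466960) (nat_lit 20) (.e (nat_lit 3403) (nat_lit 212) (.e (nat_lit 655377) (nat_lit 4) (.e (nat_lit 172126) (nat_lit 14) (.e (nat_lit 491549) (nat_lit 9) (.e (nat_lit 336443) (nat_lit 32) .nil)))))) (.g (nat_lit 1) (.e (nat_lit 348088) (nat_lit 0) .nil) .nil))) 
(.lf (nat_lit 569994) (.g (nat_lit 1092) (.e (nat_lit 483072) (nat_lit 10) (.e (nat_lit 16438) (nat_lit 9) (.e (nat_lit 426438) (nat_lit 18) (.e (nat_lit 98334) (nat_lit 18) .nil)))) (.g (nat_lit 0) (.e (nat_lit 349980) (nat_lit 0) .nil) .nil)))) (.nd (nat_lit 9) 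
(.lf (nat_lit 569738) (.g (nat_lit 1854) (.e (nat_lit 466978) (nat_lit 23) (.e (nat_lit 204846) (nat_lit 24) (.e (nat_lit 319535) (nat_lit 17) (.e (nat_lit 294930) (nat_lit 3) .nil)))) (.g (nat_lit 0) (.e (nat_lit 348849) (nat_lit 0) .nil) .nil))) 
(.lf (nat_lit 570250) (.g (nat_lit 2926) (.e (nat_lit 475177) (nat_lit 24) (.e (nat_lit 516115) (nat_lit 1) (.e (nat_lit 164327) (nat_lit 230) (.e (nat_lit 163903) (nat_lit 12) (.e (nat_lit 426567) (nat_lit 34) (.e (nat_lit 393293) (nat_lit 26) .nil)))))) (.g (nat_lit 1) (.e (nat_lit 350571) (nat_lit 0) .nil) .nil)))))) (.nd (nat_lit 7) (.nd (nat_lit 8) (.nd (nat_lit 9) 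
(.lf (nat_lit 569418) (.g (nat_lit 2082) (.e (nat_lit 474880) (nat_lit 18) (.e (nat_lit 393251) (nat_lit 18) (.e (nat_lit 164403) (nat_lit 256) (.e (nat_lit 57377) (nat_lit 3) (.e (nat_lit 98382) (nat_lit 31) .nil))))) (.g (nat_lit 0) (.e (nat_lit 348011) (nat_lit 0) .nil) .nil))) 
(.lf (nat_lit 569930) (.g (nat_lit 2070) (.e (nat_lit 466981) (nat_lit 23) (.e (nat_lit 204846) (nat_lit 24) (.e (nat_lit 319534) (nat_lit 16) (.e (nat_lit 286727) (nat_lit 0) .nil)))) (.g (nat_lit 0) (.e (nat_lit 349565) (nat_lit 0) .nil) .nil)))) (.nd (nat_lit 9) 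
(.lf (nat_lit 569674) (.g (nat_lit 353) (.e (nat_lit 466974) (nat_lit 22) (.e (nat_lit 196681) (nat_lit 17) (.e (nat_lit 131086) (nat_lit 1) .nil))) (.g (nat_lit 0) (.e (nat_lit 348555) (nat_lit 0) .nil) .nil))) 
(.lf (nat_lit 570186) (.g (nat_lit 3089) (.e (nat_lit 475176) (nat_lit 24) (.e (nat_lit 516166) (nat_lit 12) (.e (nat_lit 450563) (nat_lit 0) (.e (nat_lit 6416) (nat_lit 341) (.e (nat_lit 163860) (nat_lit 1) .nil))))) (.g (nat_lit 0) (.e (nat_lit 350492) (nat_lit 0) .nil) .nil))))) (.nd (nat_lit 8) (.nd (nat_lit 9) 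
(.lf (nat_lit 569546) (.g (nat_lit 1968) (.e (nat_lit 466969) (nat_lit 21) (.e (nat_lit 164325) (nat_lit 230) (.e (nat_lit 163885) (nat_lit 5) (.e (nat_lit 221193) (nat_lit 11) (.e (nat_lit 336074) (nat_lit 9) .nil))))) (.g (nat_lit 0) (.e (nat_lit 348198) (nat_lit 0) .nil) .nil))) 
(.lf (nat_lit 570058) (.g (nat_lit 1888) (.e (nat_lit 483072) (nat_lit 26) (.e (nat_lit 532544) (nat_lit 10) (.e (nat_lit 344130) (nat_lit 26) (.e (nat_lit 557097) (nat_lit 13) (.e (nat_lit 172045) (nat_lit 0) .nil))))) (.g (nat_lit 0) (.e (nat_lit 350226) (nat_lit 0) .nil) .nil)))) (.nd (nat_lit 9) 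
(.lf (nat_lit 569802) (.g (nat_lit 2363) (.e (nat_lit 466979) (nat_lit 23) (.e (nat_lit 204846) (nat_lit 24) (.e (nat_lit 319533) (nat_lit 16) (.e (nat_lit 286734) (nat_lit 3) (.e (nat_lit 98382) (nat_lit 31) .nil))))) (.g (nat_lit 0) (.e (nat_lit 349021) (nat_lit 0) .nil) .nil))) 
(.lf (nat_lit 570314) (.g (nat_lit 2511) (.e (nat_lit 475177) (nat_lit 24) (.e (nat_lit 516118) (nat_lit 1) (.e (nat_lit 164332) (nat_lit 230) (.e (nat_lit 163905) (nat_lit 12) (.e (nat_lit 426568) (nat_lit 34) (.e (nat_lit 393293) (nat_lit 26) .nil)))))) (.g (nat_lit 1) (.e (nat_lit 350649) (nat_lit 0) .nil) .nil))))))) (.nd (nat_lit 6) (.nd (nat_lit 7) (.nd (nat_lit 8) (.nd (nat_lit 9) 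
(.lf (nat_lit 569386) (.g (nat_lit 1428) (.e (nat_lit 474880) (nat_lit 16) (.e (nat_lit 376857) (nat_lit 21) (.e (nat_lit 57853) (nat_lit 252) (.e (nat_lit 57388) (nat_lit 5) (.e (nat_lit 122624) (nat_lit 16) .nil))))) (.g (nat_lit 0) (.e (nat_lit 347967) (nat_lit 0) .nil) .nil))) 
(.lf (nat_lit 569898) (.g (nat_lit 1084) (.e (nat_lit 466981) (nat_lit 23) (.e (nat_lit 204846) (nat_lit 24) (.e (nat_lit 319497) (nat_lit 10) (.e (nat_lit 5389) (nat_lit 301) .nil)))) (.g (nat_lit 0) (.e (nat_lit 349516) (nat_lit 0) .nil) .nil)))) (.nd (nat_lit 9) 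
(.lf (nat_lit 569642) (.g (nat_lit 751) (.e (nat_lit 466971) (nat_lit 21) (.e (nat_lit 164348) (nat_lit 240) (.e (nat_lit 2640) (nat_lit 165) (.e (nat_lit 188160) (nat_lit 32) .nil)))) (.g (nat_lit 0) (.e (nat_lit 348411) (nat_lit 0) .nil) .nil))) 
(.lf (nat_lit 570154) (.g (nat_lit 3080) (.e (nat_lit 475176) (nat_lit 24) (.e (nat_lit 516117) (nat_lit 1) (.e (nat_lit 164332) (nat_lit 230) (.e (nat_lit 163902) (nat_lit 12) (.e (nat_lit 426566) (nat_lit 34) (.e (nat_lit 393296) (nat_lit 26) .nil)))))) (.g (nat_lit 1) (.e (nat_lit 350413) (nat_lit 0) .nil) .nil))))) (.nd (nat_lit 8) (.nd (nat_lit 9) 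
(.lf (nat_lit 569514) (.g (nat_lit 1318) (.e (nat_lit 466967) (nat_lit 20) (.e (nat_lit 3464) (nat_lit 217) (.e (nat_lit 696344) (nat_lit 8) (.e (nat_lit 172115) (nat_lit 10) (.e (nat_lit 434202) (nat_lit 18) .nil))))) (.g (nat_lit 0) (.e (nat_lit 348139) (nat_lit 0) .nil) .nil))) 
(.lf (nat_lit 570026) (.g (nat_lit 2011) (.e (nat_lit 475171) (nat_lit 22) (.e (nat_lit 499919) (nat_lit 9) (.e (nat_lit 172065) (nat_lit 3) (.e (nat_lit 204838) (nat_lit 20) (.e (nat_lit 122624) (nat_lit 3) .nil))))) (.g (nat_lit 0) (.e (nat_lit 350151) (nat_lit 0) .nil) .nil)))) (.nd (nat_lit 9) 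
(.lf (nat_lit 569770) (.g (nat_lit 758) (.e (nat_lit 466979) (nat_lit 23) (.e (nat_lit 204831) (nat_lit 18) (.e (nat_lit 57692) (nat_lit 156) .nil))) (.g (nat_lit 0) (.e (nat_lit 348954) (nat_lit 0) .nil) .nil))) 
(.lf (nat_lit 570282) (.g (nat_lit 1436) (.e (nat_lit 475177) (nat_lit 24) (.e (nat_lit 516117) (nat_lit 1) (.e (nat_lit 164330) (nat_lit 230) (.e (nat_lit 163938) (nat_lit 18) .nil)))) (.g (nat_lit 0) (.e (nat_lit 350611) (nat_lit 0) .nil) .nil)))))) (.nd (nat_lit 7) (.nd (nat_lit 8) (.nd (nat_lit 9) 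
(.lf (nat_lit 569450) (.g (nat_lit 1019) (.e (nat_lit 474880) (nat_lit 18) (.e (nat_lit 393254) (nat_lit 18) (.e (nat_lit 164325) (nat_lit 230) (.e (nat_lit 163875) (nat_lit 3) (.e (nat_lit 212736) (nat_lit 14) .nil))))) (.g (nat_lit 0) (.e (nat_lit 348044) (nat_lit 0) .nil) .nil))) 
(.lf (nat_lit 569962) (.g (nat_lit 786) (.e (nat_lit 474880) (nat_lit 23) (.e (nat_lit 204846) (nat_lit 24) (.e (nat_lit 327424) (nat_lit 16) .nil))) (.g (nat_lit 0) (.e (nat_lit 349858) (nat_lit 0) .nil) .nil)))) (.nd (nat_lit 9) 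
(.lf (nat_lit 569706) (.g (nat_lit 972) (.e (nat_lit 466978) (nat_lit 23) (.e (nat_lit 204813) (nat_lit 9) (.e (nat_lit 426099) (nat_lit 1) .nil))) (.g (nat_lit 0) (.e (nat_lit 348799) (nat_lit 0) .nil) .nil))) 
(.lf (nat_lit 570218) (.g (nat_lit 2628) (.e (nat_lit 475177) (nat_lit 24) (.e (nat_lit 516115) (nat_lit 1) (.e (nat_lit 164324) (nat_lit 230) (.e (nat_lit 163902) (nat_lit 12) (.e (nat_lit 426566) (nat_lit 34) .nil))))) (.g (nat_lit 0) (.e (nat_lit 350528) (nat_lit 0) .nil) .nil))))) (.nd (nat_lit 8) (.nd (nat_lit 9) 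
(.lf (nat_lit 569578) (.g (nat_lit 2231) (.e (nat_lit 466970) (nat_lit 21) (.e (nat_lit 164332) (nat_lit 230) (.e (nat_lit 163880) (nat_lit 4) (.e (nat_lit 213032) (nat_lit 11) (.e (nat_lit 24630) (nat_lit 9) .nil))))) (.g (nat_lit 0) (.e (nat_lit 348257) (nat_lit 0) .nil) .nil))) 
(.lf (nat_lit 570090) (.g (nat_lit 1219) (.e (nat_lit 483072) (nat_lit 26) (.e (nat_lit 532544) (nat_lit 10) (.e (nat_lit 344133) (nat_lit 26) (.e (nat_lit 557105) (nat_lit 14) .nil)))) (.g (nat_lit 0) (.e (nat_lit 350258) (nat_lit 0) .nil) .nil)))) (.nd (nat_lit 9) 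
(.lf (nat_lit 569834) (.g (nat_lit 2390) (.e (nat_lit 466980) (nat_lit 23) (.e (nat_lit 204846) (nat_lit 24) (.e (nat_lit 319530) (nat_lit 16) (.e (nat_lit 286735) (nat_lit 3) (.e (nat_lit 98380) (nat_lit 31) .nil))))) (.g (nat_lit 0) (.e (nat_lit 349317) (nat_lit 0) .nil) .nil))) 
(.lf (nat_lit 570346) (.g (nat_lit 2428) (.e (nat_lit 475177) (nat_lit 24) (.e (nat_lit 516120) (nat_lit 1) (.e (nat_lit 164330) (nat_lit 230) (.e (nat_lit 163902) (nat_lit 12) (.e (nat_lit 426478) (nat_lit 27) .nil))))) (.g (nat_lit 0) (.e (nat_lit 350702) (nat_lit 0) .nil) .nil)))))))) (.nd (nat_lit 5) (.nd (nat_lit 6) (.nd (nat_lit 7) (.nd (nat_lit 8) (.nd (nat_lit 9) 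
(.lf (nat_lit 569370) (.g (nat_lit 1568) (.e (nat_lit 474880) (nat_lit 13) (.e (nat_lit 352309) (nat_lit 21) (.e (nat_lit 57849) (nat_lit 252) (.e (nat_lit 57388) (nat_lit 5) (.e (nat_lit 122624) (nat_lit 16) .nil))))) (.g (nat_lit 0) (.e (nat_lit 347937) (nat_lit 0) .nil) .nil))) 
(.lf (nat_lit 569882) (.g (nat_lit 1084) (.e (nat_lit 466981) (nat_lit 23) (.e (nat_lit 204845) (nat_lit 24) (.e (nat_lit 319500) (nat_lit 10) (.e (nat_lit 5389) (nat_lit 301) (.e (nat_lit 57464) (nat_lit 23) .nil))))) (.g (nat_lit 0) (.e (nat_lit 349485) (nat_lit 0) .nil) .nil)))) (.nd (nat_lit 9) 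
(.lf (nat_lit 569626) (.g (nat_lit 2001) (.e (nat_lit 466971) (nat_lit 21) (.e (nat_lit 164331) (nat_lit 230) (.e (nat_lit 163884) (nat_lit 5) (.e (nat_lit 221194) (nat_lit 11) (.e (nat_lit 336087) (nat_lit 9) .nil))))) (.g (nat_lit 0) (.e (nat_lit 348346) (nat_lit 0) .nil) .nil))) 
(.lf (nat_lit 570138) (.g (nat_lit 3587) (.e (nat_lit 475176) (nat_lit 24) (.e (nat_lit 516115) (nat_lit 1) (.e (nat_lit 164325) (nat_lit 230) (.e (nat_lit 163903) (nat_lit 12) (.e (nat_lit 426568) (nat_lit 34) (.e (nat_lit 393294) (nat_lit 26) .nil)))))) (.g (nat_lit 1) (.e (nat_lit 350387) (nat_lit 0) .nil) .nil))))) (.nd (nat_lit 8) (.nd (nat_lit 9) 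
(.lf (nat_lit 569498) (.g (nat_lit 1029) (.e (nat_lit 466967) (nat_lit 20) (.e (nat_lit 3253) (nat_lit 197) (.e (nat_lit 532523) (nat_lit 7) (.e (nat_lit 327424) (nat_lit 16) .nil)))) (.g (nat_lit 0) (.e (nat_lit 348112) (nat_lit 0) .nil) .nil))) 
(.lf (nat_lit 570010) (.g (nat_lit 1842) (.e (nat_lit 483072) (nat_lit 10) (.e (nat_lit 16461) (nat_lit 12) (.e (nat_lit 475179) (nat_lit 24) (.e (nat_lit 516120) (nat_lit 1) (.e (nat_lit 164332) (nat_lit 230) .nil))))) (.g (nat_lit 0) (.e (nat_lit 349996) (nat_lit 0) .nil) .nil)))) (.nd (nat_lit 9) 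
(.lf (nat_lit 569754) (.g (nat_lit 3435) (.e (nat_lit 466979) (nat_lit 23) (.e (nat_lit 204829) (nat_lit 18) (.e (nat_lit 57688) (nat_lit 156) (.e (nat_lit 163907) (nat_lit 12) (.e (nat_lit 426479) (nat_lit 27) (.e (nat_lit 336443) (nat_lit 32) .nil)))))) (.g (nat_lit 1) (.e (nat_lit 348908) (nat_lit 0) .nil) .nil))) 
(.lf (nat_lit 570266) (.g (nat_lit 1215) (.e (nat_lit 475177) (nat_lit 24) (.e (nat_lit 516117) (nat_lit 1) (.e (nat_lit 164330) (nat_lit 230) (.e (nat_lit 163901) (nat_lit 12) .nil)))) (.g (nat_lit 0) (.e (nat_lit 350594) (nat_lit 0) .nil) .nil)))))) (.nd (nat_lit 7) (.nd (nat_lit 8) (.nd (nat_lit 9) 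
(.lf (nat_lit 569434) (.g (nat_lit 1192) (.e (nat_lit 474880) (nat_lit 18) (.e (nat_lit 393253) (nat_lit 18) (.e (nat_lit 164326) (nat_lit 230) (.e (nat_lit 163875) (nat_lit 3) (.e (nat_lit 212736) (nat_lit 14) .nil))))) (.g (nat_lit 0) (.e (nat_lit 348028) (nat_lit 0) .nil) .nil))) 
(.lf (nat_lit 569946) (.g (nat_lit 1383) (.e (nat_lit 466981) (nat_lit 23) (.e (nat_lit 204863) (nat_lit 27) (.e (nat_lit 344160) (nat_lit 37) (.e (nat_lit 647181) (nat_lit 3) .nil)))) (.g (nat_lit 0) (.e (nat_lit 349700) (nat_lit 0) .nil) .nil)))) (.nd (nat_lit 9) 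
(.lf (nat_lit 569690) (.g (nat_lit 868) (.e (nat_lit 466976) (nat_lit 22) (.e (nat_lit 196656) (nat_lit 11) (.e (nat_lit 16407) (nat_lit 1) .nil))) (.g (nat_lit 0) (.e (nat_lit 348632) (nat_lit 0) .nil) .nil))) 
(.lf (nat_lit 570202) (.g (nat_lit 851) (.e (nat_lit 475176) (nat_lit 24) (.e (nat_lit 516176) (nat_lit 14) (.e (nat_lit 466971) (nat_lit 21) .nil))) (.g (nat_lit 0) (.e (nat_lit 350509) (nat_lit 0) .nil) .nil))))) (.nd (nat_lit 8) (.nd (nat_lit 9) 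
(.lf (nat_lit 569562) (.g (nat_lit 416) (.e (nat_lit 466969) (nat_lit 21) (.e (nat_lit 164348) (nat_lit 240) (.e (nat_lit 2638) (nat_lit 165) .nil))) (.g (nat_lit 0) (.e (nat_lit 348229) (nat_lit 0) .nil) .nil))) 
(.lf (nat_lit 570074) (.g (nat_lit 1852) (.e (nat_lit 483072) (nat_lit 26) (.e (nat_lit 532544) (nat_lit 10) (.e (nat_lit 344132) (nat_lit 26) (.e (nat_lit 557101) (nat_lit 13) (.e (nat_lit 172054) (nat_lit 0) .nil))))) (.g (nat_lit 0) (.e (nat_lit 350242) (nat_lit 0) .nil) .nil)))) (.nd (nat_lit 9) 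
(.lf (nat_lit 569818) (.g (nat_lit 2363) (.e (nat_lit 466980) (nat_lit 23) (.e (nat_lit 204845) (nat_lit 24) (.e (nat_lit 319530) (nat_lit 16) (.e (nat_lit 286735) (nat_lit 3) (.e (nat_lit 98380) (nat_lit 31) .nil))))) (.g (nat_lit 0) (.e (nat_lit 349294) (nat_lit 0) .nil) .nil))) 
(.lf (nat_lit 570330) (.g (nat_lit 3056) (.e (nat_lit 475177) (nat_lit 24) (.e (nat_lit 516119) (nat_lit 1) (.e (nat_lit 164326) (nat_lit 230) (.e (nat_lit 163903) (nat_lit 12) (.e (nat_lit 426566) (nat_lit 34) (.e (nat_lit 393293) (nat_lit 26) .nil)))))) (.g (nat_lit 1) (.e (nat_lit 350674) (nat_lit 0) .nil) .nil))))))) (.nd (nat_lit 6) (.nd (nat_lit 7) (.nd (nat_lit 8) (.nd (nat_lit 9) 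
(.lf (nat_lit 569402) (.g (nat_lit 1484) (.e (nat_lit 474880) (nat_lit 16) (.e (nat_lit 376860) (nat_lit 21) (.e (nat_lit 57852) (nat_lit 252) (.e (nat_lit 57388) (nat_lit 5) (.e (nat_lit 122624) (nat_lit 16) .nil))))) (.g (nat_lit 0) (.e (nat_lit 347984) (nat_lit 0) .nil) .nil))) 
(.lf (nat_lit 569914) (.g (nat_lit 2187) (.e (nat_lit 466981) (nat_lit 23) (.e (nat_lit 204846) (nat_lit 24) (.e (nat_lit 319529) (nat_lit 16) (.e (nat_lit 286735) (nat_lit 3) (.e (nat_lit 98380) (nat_lit 31) .nil))))) (.g (nat_lit 0) (.e (nat_lit 349534) (nat_lit 0) .nil) .nil)))) (.nd (nat_lit 9) 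
(.lf (nat_lit 569658) (.g (nat_lit 2248) (.e (nat_lit 466972) (nat_lit 21) (.e (nat_lit 164403) (nat_lit 256) (.e (nat_lit 57400) (nat_lit 10) (.e (nat_lit 319504) (nat_lit 10) (.e (nat_lit 5399) (nat_lit 302) .nil))))) (.g (nat_lit 0) (.e (nat_lit 348457) (nat_lit 0) .nil) .nil))) 
(.lf (nat_lit 570170) (.g (nat_lit 1917) (.e (nat_lit 475176) (nat_lit 24) (.e (nat_lit 516120) (nat_lit 1) (.e (nat_lit 164332) (nat_lit 230) (.e (nat_lit 163905) (nat_lit 12) .nil)))) (.g (nat_lit 0) (.e (nat_lit 350432) (nat_lit 0) .nil) .nil))))) (.nd (nat_lit 8) (.nd (nat_lit 9) 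
(.lf (nat_lit 569530) (.g (nat_lit 382) (.e (nat_lit 466969) (nat_lit 21) (.e (nat_lit 164183) (nat_lit 154) (.e (nat_lit 65280) (nat_lit 62) .nil))) (.g (nat_lit 0) (.e (nat_lit 348182) (nat_lit 0) .nil) .nil))) 
(.lf (nat_lit 570042) (.g (nat_lit 2002) (.e (nat_lit 483072) (nat_lit 26) (.e (nat_lit 532544) (nat_lit 10) (.e (nat_lit 344117) (nat_lit 21) (.e (nat_lit 516130) (nat_lit 3) (.e (nat_lit 221209) (nat_lit 22) .nil))))) (.g (nat_lit 0) (.e (nat_lit 350210) (nat_lit 0) .nil) .nil)))) (.nd (nat_lit 9) 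
(.lf (nat_lit 569786) (.g (nat_lit 1811) (.e (nat_lit 466979) (nat_lit 23) (.e (nat_lit 204845) (nat_lit 24) (.e (nat_lit 319534) (nat_lit 16) (.e (nat_lit 286735) (nat_lit 3) .nil)))) (.g (nat_lit 0) (.e (nat_lit 348987) (nat_lit 0) .nil) .nil))) 
(.lf (nat_lit 570298) (.g (nat_lit 895) (.e (nat_lit 475177) (nat_lit 24) (.e (nat_lit 516118) (nat_lit 1) (.e (nat_lit 164332) (nat_lit 230) (.e (nat_lit 163901) (nat_lit 12) .nil)))) (.g (nat_lit 0) (.e (nat_lit 350631) (nat_lit 0) .nil) .nil)))))) (.nd (nat_lit 7) (.nd (nat_lit 8) (.nd (nat_lit 9) 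
(.lf (nat_lit 569466) (.g (nat_lit 4500) (.e (nat_lit 466955) (nat_lit 20) (.e (nat_lit 3238) (nat_lit 197) (.e (nat_lit 532523) (nat_lit 7) (.e (nat_lit 319530) (nat_lit 16) (.e (nat_lit 286727) (nat_lit 0) (.e (nat_lit 1799) (nat_lit 119) (.e (nat_lit 516177) (nat_lit 14) .nil))))))) (.g (nat_lit 1) (.e (nat_lit 348060) (nat_lit 0) .nil) .nil))) 
(.lf (nat_lit 569978) (.g (nat_lit 1187) (.e (nat_lit 483072) (nat_lit 5) (.e (nat_lit 180251) (nat_lit 10) (.e (nat_lit 573502) (nat_lit 18) (.e (nat_lit 1359) (nat_lit 102) (.e (nat_lit 286742) (nat_lit 9) .nil))))) (.g (nat_lit 0) (.e (nat_lit 349948) (nat_lit 0) .nil) .nil)))) (.nd (nat_lit 9) 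
(.lf (nat_lit 569722) (.g (nat_lit 1360) (.e (nat_lit 466978) (nat_lit 23) (.e (nat_lit 204846) (nat_lit 24) (.e (nat_lit 319528) (nat_lit 16) (.e (nat_lit 286735) (nat_lit 3) .nil)))) (.g (nat_lit 0) (.e (nat_lit 348828) (nat_lit 0) .nil) .nil))) 
(.lf (nat_lit 570234) (.g (nat_lit 2841) (.e (nat_lit 475177) (nat_lit 24) (.e (nat_lit 516115) (nat_lit 1) (.e (nat_lit 164325) (nat_lit 230) (.e (nat_lit 163906) (nat_lit 12) (.e (nat_lit 426566) (nat_lit 34) (.e (nat_lit 393295) (nat_lit 26) .nil)))))) (.g (nat_lit 1) (.e (nat_lit 350547) (nat_lit 0) .nil) .nil))))) (.nd (nat_lit 8) (.nd (nat_lit 9) 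
(.lf (nat_lit 569594) (.g (nat_lit 2408) (.e (nat_lit 466971) (nat_lit 21) (.e (nat_lit 164322) (nat_lit 230) (.e (nat_lit 163885) (nat_lit 5) (.e (nat_lit 221194) (nat_lit 11) (.e (nat_lit 336087) (nat_lit 9) (.e (nat_lit 336444) (nat_lit 32) .nil)))))) (.g (nat_lit 1) (.e (nat_lit 348309) (nat_lit 0) .nil) .nil))) 
(.lf (nat_lit 570106) (.g (nat_lit 2382) (.e (nat_lit 475175) (nat_lit 24) (.e (nat_lit 516119) (nat_lit 1) (.e (nat_lit 164325) (nat_lit 230) (.e (nat_lit 163903) (nat_lit 12) (.e (nat_lit 426566) (nat_lit 34) (.e (nat_lit 393293) (nat_lit 26) .nil)))))) (.g (nat_lit 1) (.e (nat_lit 350335) (nat_lit 0) .nil) .nil)))) (.nd (nat_lit 9) 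
(.lf (nat_lit 569850) (.g (nat_lit 1635) (.e (nat_lit 466981) (nat_lit 23) (.e (nat_lit 204808) (nat_lit 9) (.e (nat_lit 426108) (nat_lit 1) (.e (nat_lit 164403) (nat_lit 256) (.e (nat_lit 57408) (nat_lit 12) .nil))))) (.g (nat_lit 0) (.e (nat_lit 349383) (nat_lit 0) .nil) .nil))) 
(.lf (nat_lit 570362) (.g (nat_lit 2011) (.e (nat_lit 475177) (nat_lit 24) (.e (nat_lit 516120) (nat_lit 1) (.e (nat_lit 164330) (nat_lit 230) (.e (nat_lit 163905) (nat_lit 12) (.e (nat_lit 426512) (nat_lit 27) .nil))))) (.g (nat_lit 0) (.e (nat_lit 350719) (nat_lit 0) .nil) .nil)))))))))) 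
(.nd (nat_lit 3) (.nd (nat_lit 4) (.nd (nat_lit 5) (.nd (nat_lit 6) (.nd (nat_lit 7) 
(.nd (nat_lit 8) (.nd (nat_lit 9) 
(.lf (nat_lit 569350) (.g (nat_lit 1698) (.e (nat_lit 466954) (nat_lit 11) (.e (nat_lit 336401) (nat_lit 27) (.e (nat_lit 426110) (nat_lit 1) (.e (nat_lit 164398) (nat_lit 256) (.e (nat_lit 57379) (nat_lit 3) .nil))))) (.g (nat_lit 0) (.e (nat_lit 347910) (nat_lit 0) .nil) .nil))) 
(.lf (nat_lit 569862) (.g (nat_lit 385) (.e (nat_lit 466981) (nat_lit 23) (.e (nat_lit 204829) (nat_lit 18) (.e (nat_lit 57688) (nat_lit 156) .nil))) (.g (nat_lit 0) (.e (nat_lit 349429) (nat_lit 0) .nil) .nil)))) (.nd (nat_lit 9) 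
(.lf (nat_lit 569606) (.g (nat_lit 1389) (.e (nat_lit 466971) (nat_lit 21) (.e (nat_lit 164325) (nat_lit 230) (.e (nat_lit 163881) (nat_lit 4) (.e (nat_lit 213032) (nat_lit 11) (.e (nat_lit 24629) (nat_lit 9) (.e (nat_lit 336444) (nat_lit 32) .nil)))))) (.g (nat_lit 1) (.e (nat_lit 348321) (nat_lit 0) .nil) .nil))) 
(.lf (nat_lit 570118) (.g (nat_lit 2676) (.e (nat_lit 475175) (nat_lit 24) (.e (nat_lit 516120) (nat_lit 1) (.e (nat_lit 164329) (nat_lit 230) (.e (nat_lit 163902) (nat_lit 12) (.e (nat_lit 426568) (nat_lit 34) (.e (nat_lit 393293) (nat_lit 26) .nil)))))) (.g (nat_lit 1) (.e (nat_lit 350357) (nat_lit 0) .nil) .nil))))) (.nd (nat_lit 8) (.nd (nat_lit 9) 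
(.lf (nat_lit 569478) (.g (nat_lit 1336) (.e (nat_lit 466956) (nat_lit 20) (.e (nat_lit 3114) (nat_lit 193) (.e (nat_lit 499903) (nat_lit 7) (.e (nat_lit 24665) (nat_lit 14) (.e (nat_lit 409344) (nat_lit 27) .nil))))) (.g (nat_lit 0) (.e (nat_lit 348081) (nat_lit 0) .nil) .nil))) 
(.lf (nat_lit 569990) (.g (nat_lit 4556) (.e (nat_lit 483072) (nat_lit 10) (.e (nat_lit 16434) (nat_lit 9) (.e (nat_lit 426436) (nat_lit 18) (.e (nat_lit 98335) (nat_lit 18) (.e (nat_lit 164330) (nat_lit 230) .nil))))) (.g (nat_lit 0) (.e (nat_lit 349976) (nat_lit 0) .nil) .nil)))) (.nd (nat_lit 9) 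
(.lf (nat_lit 569734) (.g (nat_lit 2412) (.e (nat_lit 466978) (nat_lit 23) (.e (nat_lit 204846) (nat_lit 24) (.e (nat_lit 319533) (nat_lit 16) (.e (nat_lit 286735) (nat_lit 3) (.e (nat_lit 98381) (nat_lit 31) .nil))))) (.g (nat_lit 0) (.e (nat_lit 348845) (nat_lit 0) .nil) .nil))) 
(.lf (nat_lit 570246) (.g (nat_lit 1867) (.e (nat_lit 475177) (nat_lit 24) (.e (nat_lit 516115) (nat_lit 1) (.e (nat_lit 164327) (nat_lit 230) (.e (nat_lit 163901) (nat_lit 12) .nil)))) (.g (nat_lit 0) (.e (nat_lit 350567) (nat_lit 0) .nil) .nil)))))) (.nd (nat_lit 7) (.nd (nat_lit 8) (.nd (nat_lit 9) 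
(.lf (nat_lit 569414) (.g (nat_lit 1393) (.e (nat_lit 474880) (nat_lit 18) (.e (nat_lit 393251) (nat_lit 18) (.e (nat_lit 164332) (nat_lit 230) (.e (nat_lit 163873) (nat_lit 3) (.e (nat_lit 212736) (nat_lit 14) .nil))))) (.g (nat_lit 0) (.e (nat_lit 348007) (nat_lit 0) .nil) .nil))) 
(.lf (nat_lit 569926) (.g (nat_lit 2496) (.e (nat_lit 466981) (nat_lit 23) (.e (nat_lit 204846) (nat_lit 24) (.e (nat_lit 319533) (nat_lit 16) (.e (nat_lit 286735) (nat_lit 3) (.e (nat_lit 98379) (nat_lit 31) .nil))))) (.g (nat_lit 0) (.e (nat_lit 349559) (nat_lit 0) .nil) .nil)))) (.nd (nat_lit 9) 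
(.lf (nat_lit 569670) (.g (nat_lit 1074) (.e (nat_lit 466974) (nat_lit 22) (.e (nat_lit 196656) (nat_lit 11) (.e (nat_lit 16404) (nat_lit 1) (.e (nat_lit 164399) (nat_lit 256) .nil)))) (.g (nat_lit 0) (.e (nat_lit 348489) (nat_lit 0) .nil) .nil))) 
(.lf (nat_lit 570182) (.g (nat_lit 3287) (.e (nat_lit 475176) (nat_lit 24) (.e (nat_lit 516166) (nat_lit 12) (.e (nat_lit 450562) (nat_lit 0) (.e (nat_lit 6403) (nat_lit 339) .nil)))) (.g (nat_lit 0) (.e (nat_lit 350488) (nat_lit 0) .nil) .nil))))) (.nd (nat_lit 8) (.nd (nat_lit 9) 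
(.lf (nat_lit 569542) (.g (nat_lit 1073) (.e (nat_lit 466969) (nat_lit 21) (.e (nat_lit 164325) (nat_lit 230) (.e (nat_lit 163844) (nat_lit 0) (.e (nat_lit 3616) (nat_lit 226) .nil)))) (.g (nat_lit 0) (.e (nat_lit 348194) (nat_lit 0) .nil) .nil))) 
(.lf (nat_lit 570054) (.g (nat_lit 2175) (.e (nat_lit 483072) (nat_lit 26) (.e (nat_lit 532544) (nat_lit 10) (.e (nat_lit 344129) (nat_lit 26) (.e (nat_lit 557103) (nat_lit 14) (.e (nat_lit 180250) (nat_lit 10) .nil))))) (.g (nat_lit 0) (.e (nat_lit 350222) (nat_lit 0) .nil) .nil)))) (.nd (nat_lit 9) 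
(.lf (nat_lit 569798) (.g (nat_lit 2455) (.e (nat_lit 466979) (nat_lit 23) (.e (nat_lit 204846) (nat_lit 24) (.e (nat_lit 319530) (nat_lit 16) (.e (nat_lit 286735) (nat_lit 3) (.e (nat_lit 98381) (nat_lit 31) .nil))))) (.g (nat_lit 0) (.e (nat_lit 349006) (nat_lit 0) .nil) .nil))) 
(.lf (nat_lit 570310) (.g (nat_lit 2924) (.e (nat_lit 475177) (nat_lit 24) (.e (nat_lit 516118) (nat_lit 1) (.e (nat_lit 164332) (nat_lit 230) (.e (nat_lit 163905) (nat_lit 12) (.e (nat_lit 426489) (nat_lit 27) (.e (nat_lit 336409) (nat_lit 27) (.e (nat_lit 426306) (nat_lit 12) .nil))))))) (.g (nat_lit 1) (.e (nat_lit 350645) (nat_lit 0) .nil) .nil))))))) 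
(.nd (nat_lit 6) (.nd (nat_lit 7) (.nd (nat_lit 8) (.nd (nat_lit 9) 
(.lf (nat_lit 569382) (.g (nat_lit 943) (.e (nat_lit 474880) (nat_lit 16) (.e (nat_lit 376857) (nat_lit 21) (.e (nat_lit 57851) (nat_lit 252) (.e (nat_lit 57388) (nat_lit 5) (.e (nat_lit 122624) (nat_lit 16) .nil))))) (.g (nat_lit 0) (.e (nat_lit 347962) (nat_lit 0) .nil) .nil))) 
(.lf (nat_lit 569894) (.g (nat_lit 1249) (.e (nat_lit 466981) (nat_lit 23) (.e (nat_lit 204845) (nat_lit 24) (.e (nat_lit 319533) (nat_lit 16) (.e (nat_lit 286734) (nat_lit 3) .nil)))) (.g (nat_lit 0) (.e (nat_lit 349511) (nat_lit 0) .nil) .nil)))) (.nd (nat_lit 9) 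
(.lf (nat_lit 569638) (.g (nat_lit 1296) (.e (nat_lit 466971) (nat_lit 21) (.e (nat_lit 164332) (nat_lit 230) (.e (nat_lit 163885) (nat_lit 5) (.e (nat_lit 229120) (nat_lit 13) .nil)))) (.g (nat_lit 0) (.e (nat_lit 348358) (nat_lit 0) .nil) .nil))) 
(.lf (nat_lit 570150) (.g (nat_lit 2345) (.e (nat_lit 475176) (nat_lit 24) (.e (nat_lit 516117) (nat_lit 1) (.e (nat_lit 164330) (nat_lit 230) (.e (nat_lit 163902) (nat_lit 12) (.e (nat_lit 426566) (nat_lit 34) (.e (nat_lit 393295) (nat_lit 26) .nil)))))) (.g (nat_lit 1) (.e (nat_lit 350407) (nat_lit 0) .nil) .nil))))) (.nd (nat_lit 8) (.nd (nat_lit 9) 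
(.lf (nat_lit 569510) (.g (nat_lit 1585) (.e (nat_lit 466967) (nat_lit 20) (.e (nat_lit 3464) (nat_lit 217) (.e (nat_lit 696343) (nat_lit 8) (.e (nat_lit 172124) (nat_lit 14) (.e (nat_lit 491534) (nat_lit 1) .nil))))) (.g (nat_lit 0) (.e (nat_lit 348135) (nat_lit 0) .nil) .nil))) 
(.lf (nat_lit 570022) (.g (nat_lit 2770) (.e (nat_lit 475169) (nat_lit 22) (.e (nat_lit 499926) (nat_lit 10) (.e (nat_lit 180252) (nat_lit 10) (.e (nat_lit 573482) (nat_lit 13) (.e (nat_lit 65632) (nat_lit 15) (.e (nat_lit 7936) (nat_lit 195) (.e (nat_lit 516179) (nat_lit 15) .nil))))))) (.g (nat_lit 1) (.e (nat_lit 350146) (nat_lit 0) .nil) .nil)))) (.nd (nat_lit 9) 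
(.lf (nat_lit 569766) (.g (nat_lit 725) (.e (nat_lit 466979) (nat_lit 23) (.e (nat_lit 204831) (nat_lit 18) (.e (nat_lit 57687) (nat_lit 156) .nil))) (.g (nat_lit 0) (.e (nat_lit 348949) (nat_lit 0) .nil) .nil))) 
(.lf (nat_lit 570278) (.g (nat_lit 1972) (.e (nat_lit 475177) (nat_lit 24) (.e (nat_lit 516117) (nat_lit 1) (.e (nat_lit 164330) (nat_lit 230) (.e (nat_lit 163905) (nat_lit 12) (.e (nat_lit 426511) (nat_lit 27) .nil))))) (.g (nat_lit 0) (.e (nat_lit 350607) (nat_lit 0) .nil) .nil)))))) (.nd (nat_lit 7) (.nd (nat_lit 8) (.nd (nat_lit 9) 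
(.lf (nat_lit 569446) (.g (nat_lit 1342) (.e (nat_lit 474880) (nat_lit 18) (.e (nat_lit 393254) (nat_lit 18) (.e (nat_lit 164324) (nat_lit 230) (.e (nat_lit 163873) (nat_lit 3) (.e (nat_lit 212736) (nat_lit 14) .nil))))) (.g (nat_lit 0) (.e (nat_lit 348040) (nat_lit 0) .nil) .nil))) 
(.lf (nat_lit 569958) (.g (nat_lit 2321) (.e (nat_lit 474880) (nat_lit 23) (.e (nat_lit 204846) (nat_lit 24) (.e (nat_lit 319533) (nat_lit 16) (.e (nat_lit 286734) (nat_lit 3) (.e (nat_lit 98380) (nat_lit 31) .nil))))) (.g (nat_lit 0) (.e (nat_lit 349854) (nat_lit 0) .nil) .nil)))) (.nd (nat_lit 9) 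
(.lf (nat_lit 569702) (.g (nat_lit 2191) (.e (nat_lit 466977) (nat_lit 22) (.e (nat_lit 196681) (nat_lit 17) (.e (nat_lit 131089) (nat_lit 1) (.e (nat_lit 57931) (nat_lit 282) (.e (nat_lit 163846) (nat_lit 0) (.e (nat_lit 7936) (nat_lit 200) (.e (nat_lit 557065) (nat_lit 9) (.e (nat_lit 3044) (nat_lit 189) .nil)))))))) (.g (nat_lit 1) (.e (nat_lit 348787) (nat_lit 0) .nil) .nil))) 
(.lf (nat_lit 570214) (.g (nat_lit 1523) (.e (nat_lit 475177) (nat_lit 24) (.e (nat_lit 516115) (nat_lit 1) (.e (nat_lit 164300) (nat_lit 226) (.e (nat_lit 2622) (nat_lit 164) .nil)))) (.g (nat_lit 0) (.e (nat_lit 350523) (nat_lit 0) .nil) .nil))))) (.nd (nat_lit 8) (.nd (nat_lit 9) 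
(.lf (nat_lit 569574) (.g (nat_lit 588) (.e (nat_lit 466970) (nat_lit 21) (.e (nat_lit 164327) (nat_lit 230) (.e (nat_lit 163886) (nat_lit 5) .nil))) (.g (nat_lit 0) (.e (nat_lit 348253) (nat_lit 0) .nil) .nil))) 
(.lf (nat_lit 570086) (.g (nat_lit 2610) (.e (nat_lit 483072) (nat_lit 26) (.e (nat_lit 532544) (nat_lit 10) (.e (nat_lit 344133) (nat_lit 26) (.e (nat_lit 557103) (nat_lit 14) (.e (nat_lit 180225) (nat_lit 0) .nil))))) (.g (nat_lit 0) (.e (nat_lit 350254) (nat_lit 0) .nil) .nil)))) (.nd (nat_lit 9) 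
(.lf (nat_lit 569830) (.g (nat_lit 1500) (.e (nat_lit 466980) (nat_lit 23) (.e (nat_lit 204846) (nat_lit 24) (.e (nat_lit 319505) (nat_lit 10) (.e (nat_lit 5418) (nat_lit 304) .nil)))) (.g (nat_lit 0) (.e (nat_lit 349307) (nat_lit 0) .nil) .nil))) 
(.lf (nat_lit 570342) (.g (nat_lit 2591) (.e (nat_lit 475177) (nat_lit 24) (.e (nat_lit 516120) (nat_lit 1) (.e (nat_lit 164322) (nat_lit 230) (.e (nat_lit 163902) (nat_lit 12) (.e (nat_lit 426568) (nat_lit 34) (.e (nat_lit 393291) (nat_lit 26) .nil)))))) (.g (nat_lit 1) (.e (nat_lit 350696) (nat_lit 0) .nil) .nil)))))))) 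
(.nd (nat_lit 5) (.nd (nat_lit 6) (.nd (nat_lit 7) (.nd (nat_lit 8) (.nd (nat_lit 9) 
(.lf (nat_lit 569366) (.g (nat_lit 1586) (.e (nat_lit 474880) (nat_lit 13) (.e (nat_lit 352309) (nat_lit 21) (.e (nat_lit 57846) (nat_lit 252) (.e (nat_lit 57388) (nat_lit 5) (.e (nat_lit 122624) (nat_lit 16) .nil))))) (.g (nat_lit 0) (.e (nat_lit 347933) (nat_lit 0) .nil) .nil))) 
(.lf (nat_lit 569878) (.g (nat_lit 1610) (.e (nat_lit 466981) (nat_lit 23) (.e (nat_lit 204831) (nat_lit 18) (.e (nat_lit 57692) (nat_lit 156) (.e (nat_lit 163905) (nat_lit 12) .nil)))) (.g (nat_lit 0) (.e (nat_lit 349480) (nat_lit 0) .nil) .nil)))) (.nd (nat_lit 9) 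
(.lf (nat_lit 569622) (.g (nat_lit 1118) (.e (nat_lit 466971) (nat_lit 21) (.e (nat_lit 164327) (nat_lit 230) (.e (nat_lit 163884) (nat_lit 5) (.e (nat_lit 221190) (nat_lit 11) .nil)))) (.g (nat_lit 0) (.e (nat_lit 348342) (nat_lit 0) .nil) .nil))) 
(.lf (nat_lit 570134) (.g (nat_lit 2574) (.e (nat_lit 475176) (nat_lit 24) (.e (nat_lit 516115) (nat_lit 1) (.e (nat_lit 164325) (nat_lit 230) (.e (nat_lit 163901) (nat_lit 12) .nil)))) (.g (nat_lit 0) (.e (nat_lit 350383) (nat_lit 0) .nil) .nil))))) (.nd (nat_lit 8) (.nd (nat_lit 9) 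
(.lf (nat_lit 569494) (.g (nat_lit 1252) (.e (nat_lit 466967) (nat_lit 20) (.e (nat_lit 3253) (nat_lit 197) (.e (nat_lit 532523) (nat_lit 7) (.e (nat_lit 319505) (nat_lit 10) .nil)))) (.g (nat_lit 0) (.e (nat_lit 348108) (nat_lit 0) .nil) .nil))) 
(.lf (nat_lit 570006) (.g (nat_lit 2044) (.e (nat_lit 483072) (nat_lit 10) (.e (nat_lit 16460) (nat_lit 12) (.e (nat_lit 475179) (nat_lit 24) (.e (nat_lit 516115) (nat_lit 1) (.e (nat_lit 164325) (nat_lit 230) .nil))))) (.g (nat_lit 0) (.e (nat_lit 349992) (nat_lit 0) .nil) .nil)))) (.nd (nat_lit 9) 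
(.lf (nat_lit 569750) (.g (nat_lit 385) (.e (nat_lit 466979) (nat_lit 23) (.e (nat_lit 204829) (nat_lit 18) (.e (nat_lit 57688) (nat_lit 156) .nil))) (.g (nat_lit 0) (.e (nat_lit 348902) (nat_lit 0) .nil) .nil))) 
(.lf (nat_lit 570262) (.g (nat_lit 271) (.e (nat_lit 475177) (nat_lit 24) (.e (nat_lit 516117) (nat_lit 1) (.e (nat_lit 164305) (nat_lit 226) .nil))) (.g (nat_lit 0) (.e (nat_lit 350590) (nat_lit 0) .nil) .nil)))))) (.nd (nat_lit 7) (.nd (nat_lit 8) (.nd (nat_lit 9) 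
(.lf (nat_lit 569430) (.g (nat_lit 1333) (.e (nat_lit 474880) (nat_lit 18) (.e (nat_lit 393253) (nat_lit 18) (.e (nat_lit 164325) (nat_lit 230) (.e (nat_lit 163875) (nat_lit 3) (.e (nat_lit 212736) (nat_lit 14) .nil))))) (.g (nat_lit 0) (.e (nat_lit 348024) (nat_lit 0) .nil) .nil))) 
(.lf (nat_lit 569942) (.g (nat_lit 1918) (.e (nat_lit 466981) (nat_lit 23) (.e (nat_lit 204861) (nat_lit 26) (.e (nat_lit 335988) (nat_lit 1) (.e (nat_lit 57927) (nat_lit 282) (.e (nat_lit 163841) (nat_lit 0) .nil))))) (.g (nat_lit 0) (.e (nat_lit 349675) (nat_lit 0) .nil) .nil)))) (.nd (nat_lit 9) 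
(.lf (nat_lit 569686) (.g (nat_lit 2101) (.e (nat_lit 466976) (nat_lit 22) (.e (nat_lit 196626) (nat_lit 9) (.e (nat_lit 1400) (nat_lit 106) (.e (nat_lit 319533) (nat_lit 16) (.e (nat_lit 286720) (nat_lit 0) .nil))))) (.g (nat_lit 0) (.e (nat_lit 348610) (nat_lit 0) .nil) .nil))) 
(.lf (nat_lit 570198) (.g (nat_lit 2283) (.e (nat_lit 475176) (nat_lit 24) (.e (nat_lit 516176) (nat_lit 14) (.e (nat_lit 466954) (nat_lit 11) (.e (nat_lit 335986) (nat_lit 1) (.e (nat_lit 57655) (nat_lit 152) .nil))))) (.g (nat_lit 0) (.e (nat_lit 350504) (nat_lit 0) .nil) .nil))))) (.nd (nat_lit 8) (.nd (nat_lit 9) 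
(.lf (nat_lit 569558) (.g (nat_lit 440) (.e (nat_lit 466969) (nat_lit 21) (.e (nat_lit 164332) (nat_lit 230) (.e (nat_lit 163878) (nat_lit 4) .nil))) (.g (nat_lit 0) (.e (nat_lit 348210) (nat_lit 0) .nil) .nil))) 
(.lf (nat_lit 570070) (.g (nat_lit 2368) (.e (nat_lit 483072) (nat_lit 26) (.e (nat_lit 532544) (nat_lit 10) (.e (nat_lit 344131) (nat_lit 26) (.e (nat_lit 557100) (nat_lit 13) (.e (nat_lit 172062) (nat_lit 2) .nil))))) (.g (nat_lit 0) (.e (nat_lit 350238) (nat_lit 0) .nil) .nil)))) (.nd (nat_lit 9) 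
(.lf (nat_lit 569814) (.g (nat_lit 1330) (.e (nat_lit 466980) (nat_lit 23) (.e (nat_lit 204813) (nat_lit 9) (.e (nat_lit 426108) (nat_lit 1) (.e (nat_lit 164402) (nat_lit 256) .nil)))) (.g (nat_lit 0) (.e (nat_lit 349254) (nat_lit 0) .nil) .nil))) 
(.lf (nat_lit 570326) (.g (nat_lit 1538) (.e (nat_lit 475177) (nat_lit 24) (.e (nat_lit 516119) (nat_lit 1) (.e (nat_lit 164325) (nat_lit 230) (.e (nat_lit 163936) (nat_lit 18) (.e (nat_lit 483072) (nat_lit 10) .nil))))) (.g (nat_lit 0) (.e (nat_lit 350669) (nat_lit 0) .nil) .nil))))))) (.nd (nat_lit 6) (.nd (nat_lit 7) (.nd (nat_lit 8) (.nd (nat_lit 9) 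
(.lf (nat_lit 569398) (.g (nat_lit 1387) (.e (nat_lit 474880) (nat_lit 16) (.e (nat_lit 376859) (nat_lit 21) (.e (nat_lit 57849) (nat_lit 252) (.e (nat_lit 57390) (nat_lit 5) (.e (nat_lit 122624) (nat_lit 16) .nil))))) (.g (nat_lit 0) (.e (nat_lit 347980) (nat_lit 0) .nil) .nil))) 
(.lf (nat_lit 569910) (.g (nat_lit 1976) (.e (nat_lit 466981) (nat_lit 23) (.e (nat_lit 204846) (nat_lit 24) (.e (nat_lit 319528) (nat_lit 16) (.e (nat_lit 286734) (nat_lit 3) (.e (nat_lit 98381) (nat_lit 31) .nil))))) (.g (nat_lit 0) (.e (nat_lit 349529) (nat_lit 0) .nil) .nil)))) (.nd (nat_lit 9) 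
(.lf (nat_lit 569654) (.g (nat_lit 246) (.e (nat_lit 466972) (nat_lit 21) (.e (nat_lit 164402) (nat_lit 256) (.e (nat_lit 57400) (nat_lit 10) .nil))) (.g (nat_lit 0) (.e (nat_lit 348449) (nat_lit 0) .nil) .nil))) 
(.lf (nat_lit 570166) (.g (nat_lit 873) (.e (nat_lit 475176) (nat_lit 24) (.e (nat_lit 516119) (nat_lit 1) (.e (nat_lit 164332) (nat_lit 230) .nil))) (.g (nat_lit 0) (.e (nat_lit 350427) (nat_lit 0) .nil) .nil))))) (.nd (nat_lit 8) (.nd (nat_lit 9) 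
(.lf (nat_lit 569526) (.g (nat_lit 2521) (.e (nat_lit 466968) (nat_lit 21) (.e (nat_lit 164332) (nat_lit 230) (.e (nat_lit 163885) (nat_lit 5) (.e (nat_lit 221194) (nat_lit 11) (.e (nat_lit 336075) (nat_lit 9) .nil))))) (.g (nat_lit 0) (.e (nat_lit 348154) (nat_lit 0) .nil) .nil))) 
(.lf (nat_lit 570038) (.g (nat_lit 1384) (.e (nat_lit 483072) (nat_lit 26) (.e (nat_lit 532544) (nat_lit 10) (.e (nat_lit 344117) (nat_lit 21) (.e (nat_lit 516129) (nat_lit 3) .nil)))) (.g (nat_lit 0) (.e (nat_lit 350206) (nat_lit 0) .nil) .nil)))) (.nd (nat_lit 9) 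
(.lf (nat_lit 569782) (.g (nat_lit 2537) (.e (nat_lit 466979) (nat_lit 23) (.e (nat_lit 204845) (nat_lit 24) (.e (nat_lit 319531) (nat_lit 16) (.e (nat_lit 286735) (nat_lit 3) (.e (nat_lit 98381) (nat_lit 31) .nil))))) (.g (nat_lit 0) (.e (nat_lit 348981) (nat_lit 0) .nil) .nil))) 
(.lf (nat_lit 570294) (.g (nat_lit 2755) (.e (nat_lit 475177) (nat_lit 24) (.e (nat_lit 516118) (nat_lit 1) (.e (nat_lit 164327) (nat_lit 230) (.e (nat_lit 163903) (nat_lit 12) (.e (nat_lit 426568) (nat_lit 34) (.e (nat_lit 393293) (nat_lit 26) .nil)))))) (.g (nat_lit 1) (.e (nat_lit 350625) (nat_lit 0) .nil) .nil)))))) (.nd (nat_lit 7) (.nd (nat_lit 8) (.nd (nat_lit 9) 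
(.lf (nat_lit 569462) (.g (nat_lit 2063) (.e (nat_lit 466955) (nat_lit 20) (.e (nat_lit 3238) (nat_lit 197) (.e (nat_lit 532523) (nat_lit 7) (.e (nat_lit 319511) (nat_lit 10) (.e (nat_lit 5293) (nat_lit 298) .nil))))) (.g (nat_lit 0) (.e (nat_lit 348056) (nat_lit 0) .nil) .nil))) 
(.lf (nat_lit 569974) (.g (nat_lit 1292) (.e (nat_lit 483072) (nat_lit 5) (.e (nat_lit 180250) (nat_lit 10) (.e (nat_lit 573502) (nat_lit 18) (.e (nat_lit 1359) (nat_lit 102) (.e (nat_lit 286742) (nat_lit 9) .nil))))) (.g (nat_lit 0) (.e (nat_lit 349939) (nat_lit 0) .nil) .nil)))) (.nd (nat_lit 9) 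
(.lf (nat_lit 569718) (.g (nat_lit 1534) (.e (nat_lit 466978) (nat_lit 23) (.e (nat_lit 204846) (nat_lit 24) (.e (nat_lit 319504) (nat_lit 10) (.e (nat_lit 7936) (nat_lit 298) .nil)))) (.g (nat_lit 0) (.e (nat_lit 348824) (nat_lit 0) .nil) .nil))) 
(.lf (nat_lit 570230) (.g (nat_lit 2504) (.e (nat_lit 475177) (nat_lit 24) (.e (nat_lit 516115) (nat_lit 1) (.e (nat_lit 164325) (nat_lit 230) (.e (nat_lit 163903) (nat_lit 12) (.e (nat_lit 426567) (nat_lit 34) (.e (nat_lit 393293) (nat_lit 26) .nil)))))) (.g (nat_lit 1) (.e (nat_lit 350543) (nat_lit 0) .nil) .nil))))) (.nd (nat_lit 8) (.nd (nat_lit 9) 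
(.lf (nat_lit 569590) (.g (nat_lit 2174) (.e (nat_lit 466971) (nat_lit 21) (.e (nat_lit 164322) (nat_lit 230) (.e (nat_lit 163884) (nat_lit 5) (.e (nat_lit 221194) (nat_lit 11) (.e (nat_lit 336087) (nat_lit 9) (.e (nat_lit 336444) (nat_lit 32) .nil)))))) (.g (nat_lit 1) (.e (nat_lit 348305) (nat_lit 0) .nil) .nil))) 
(.lf (nat_lit 570102) (.g (nat_lit 418) (.e (nat_lit 475175) (nat_lit 24) (.e (nat_lit 516119) (nat_lit 1) (.e (nat_lit 164322) (nat_lit 230) .nil))) (.g (nat_lit 0) (.e (nat_lit 350328) (nat_lit 0) .nil) .nil)))) (.nd (nat_lit 9) 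
(.lf (nat_lit 569846) (.g (nat_lit 1634) (.e (nat_lit 466980) (nat_lit 23) (.e (nat_lit 204846) (nat_lit 24) (.e (nat_lit 319535) (nat_lit 17) (.e (nat_lit 294930) (nat_lit 3) (.e (nat_lit 98381) (nat_lit 31) .nil))))) (.g (nat_lit 0) (.e (nat_lit 349351) (nat_lit 0) .nil) .nil))) 
(.lf (nat_lit 570358) (.g (nat_lit 2003) (.e (nat_lit 475177) (nat_lit 24) (.e (nat_lit 516120) (nat_lit 1) (.e (nat_lit 164330) (nat_lit 230) (.e (nat_lit 163905) (nat_lit 12) (.e (nat_lit 426504) (nat_lit 27) .nil))))) (.g (nat_lit 0) (.e (nat_lit 350715) (nat_lit 0) .nil) .nil))))))))) (.nd (nat_lit 4) (.nd (nat_lit 5) (.nd (nat_lit 6) (.nd (nat_lit 7) (.nd (nat_lit 8) (.nd (nat_lit 9) 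
(.lf (nat_lit 569358) (.g (nat_lit 1327) (.e (nat_lit 474880) (nat_lit 13) (.e (nat_lit 352307) (nat_lit 21) (.e (nat_lit 57849) (nat_lit 252) (.e (nat_lit 57390) (nat_lit 5) (.e (nat_lit 122624) (nat_lit 16) .nil))))) (.g (nat_lit 0) (.e (nat_lit 347925) (nat_lit 0) .nil) .nil))) 
(.lf (nat_lit 569870) (.g (nat_lit 1475) (.e (nat_lit 466981) (nat_lit 23) (.e (nat_lit 204830) (nat_lit 18) (.e (nat_lit 57691) (nat_lit 156) (.e (nat_lit 163906) (nat_lit 12) (.e (nat_lit 426479) (nat_lit 27) .nil))))) (.g (nat_lit 0) (.e (nat_lit 349463) (nat_lit 0) .nil) .nil)))) (.nd (nat_lit 9) 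
(.lf (nat_lit 569614) (.g (nat_lit 622) (.e (nat_lit 466971) (nat_lit 21) (.e (nat_lit 164326) (nat_lit 230) (.e (nat_lit 163886) (nat_lit 5) (.e (nat_lit 229120) (nat_lit 16) .nil)))) (.g (nat_lit 0) (.e (nat_lit 348334) (nat_lit 0) .nil) .nil))) 
(.lf (nat_lit 570126) (.g (nat_lit 1244) (.e (nat_lit 475175) (nat_lit 24) (.e (nat_lit 516166) (nat_lit 12) (.e (nat_lit 450562) (nat_lit 0) .nil))) (.g (nat_lit 0) (.e (nat_lit 350375) (nat_lit 0) .nil) .nil))))) (.nd (nat_lit 8) (.nd (nat_lit 9) 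
(.lf (nat_lit 569486) (.g (nat_lit 451) (.e (nat_lit 466962) (nat_lit 20) (.e (nat_lit 3304) (nat_lit 202) (.e (nat_lit 581376) (nat_lit 11) .nil))) (.g (nat_lit 0) (.e (nat_lit 348093) (nat_lit 0) .nil) .nil))) 
(.lf (nat_lit 569998) (.g (nat_lit 1552) (.e (nat_lit 483072) (nat_lit 10) (.e (nat_lit 16457) (nat_lit 12) (.e (nat_lit 475177) (nat_lit 24) (.e (nat_lit 516120) (nat_lit 1) (.e (nat_lit 164330) (nat_lit 230) .nil))))) (.g (nat_lit 0) (.e (nat_lit 349984) (nat_lit 0) .nil) .nil)))) (.nd (nat_lit 9) 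
(.lf (nat_lit 569742) (.g (nat_lit 2169) (.e (nat_lit 466979) (nat_lit 23) (.e (nat_lit 204813) (nat_lit 9) (.e (nat_lit 426098) (nat_lit 1) (.e (nat_lit 164403) (nat_lit 256) (.e (nat_lit 57409) (nat_lit 12) .nil))))) (.g (nat_lit 0) (.e (nat_lit 348864) (nat_lit 0) .nil) .nil))) 
(.lf (nat_lit 570254) (.g (nat_lit 365) (.e (nat_lit 475177) (nat_lit 24) (.e (nat_lit 516115) (nat_lit 1) (.e (nat_lit 164332) (nat_lit 230) .nil))) (.g (nat_lit 0) (.e (nat_lit 350578) (nat_lit 0) .nil) .nil)))))) (.nd (nat_lit 7) (.nd (nat_lit 8) (.nd (nat_lit 9) 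
(.lf (nat_lit 569422) (.g (nat_lit 1369) (.e (nat_lit 474880) (nat_lit 18) (.e (nat_lit 393252) (nat_lit 18) (.e (nat_lit 164332) (nat_lit 230) (.e (nat_lit 163874) (nat_lit 3) (.e (nat_lit 212736) (nat_lit 14) .nil))))) (.g (nat_lit 0) (.e (nat_lit 348015) (nat_lit 0) .nil) .nil))) 
(.lf (nat_lit 569934) (.g (nat_lit 520) (.e (nat_lit 466981) (nat_lit 23) (.e (nat_lit 204846) (nat_lit 24) (.e (nat_lit 327424) (nat_lit 16) .nil))) (.g (nat_lit 0) (.e (nat_lit 349576) (nat_lit 0) .nil) .nil)))) (.nd (nat_lit 9) 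
(.lf (nat_lit 569678) (.g (nat_lit 2254) (.e (nat_lit 466974) (nat_lit 22) (.e (nat_lit 196681) (nat_lit 17) (.e (nat_lit 131089) (nat_lit 1) (.e (nat_lit 57931) (nat_lit 282) (.e (nat_lit 163847) (nat_lit 0) (.e (nat_lit 7936) (nat_lit 200) (.e (nat_lit 557065) (nat_lit 9) (.e (nat_lit 3044) (nat_lit 189) .nil)))))))) (.g (nat_lit 1) (.e (nat_lit 348580) (nat_lit 0) .nil) .nil))) 
(.lf (nat_lit 570190) (.g (nat_lit 2706) (.e (nat_lit 475176) (nat_lit 24) (.e (nat_lit 516166) (nat_lit 12) (.e (nat_lit 450564) (nat_lit 0) (.e (nat_lit 6391) (nat_lit 339) .nil)))) (.g (nat_lit 0) (.e (nat_lit 350496) (nat_lit 0) .nil) .nil))))) (.nd (nat_lit 8) (.nd (nat_lit 9) 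
(.lf (nat_lit 569550) (.g (nat_lit 2999) (.e (nat_lit 466969) (nat_lit 21) (.e (nat_lit 164327) (nat_lit 230) (.e (nat_lit 163881) (nat_lit 4) (.e (nat_lit 213032) (nat_lit 11) (.e (nat_lit 24628) (nat_lit 9) (.e (nat_lit 336443) (nat_lit 32) .nil)))))) (.g (nat_lit 1) (.e (nat_lit 348202) (nat_lit 0) .nil) .nil))) 
(.lf (nat_lit 570062) (.g (nat_lit 2094) (.e (nat_lit 483072) (nat_lit 26) (.e (nat_lit 532544) (nat_lit 10) (.e (nat_lit 344130) (nat_lit 26) (.e (nat_lit 557103) (nat_lit 14) (.e (nat_lit 180249) (nat_lit 10) .nil))))) (.g (nat_lit 0) (.e (nat_lit 350230) (nat_lit 0) .nil) .nil)))) (.nd (nat_lit 9) 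
(.lf (nat_lit 569806) (.g (nat_lit 2502) (.e (nat_lit 466979) (nat_lit 23) (.e (nat_lit 204846) (nat_lit 24) (.e (nat_lit 319534) (nat_lit 16) (.e (nat_lit 286734) (nat_lit 3) (.e (nat_lit 98379) (nat_lit 31) .nil))))) (.g (nat_lit 0) (.e (nat_lit 349030) (nat_lit 0) .nil) .nil))) 
(.lf (nat_lit 570318) (.g (nat_lit 2435) (.e (nat_lit 475177) (nat_lit 24) (.e (nat_lit 516118) (nat_lit 1) (.e (nat_lit 164332) (nat_lit 230) (.e (nat_lit 163938) (nat_lit 18) (.e (nat_lit 483072) (nat_lit 10) (.e (nat_lit 16461) (nat_lit 12) .nil)))))) (.g (nat_lit 1) (.e (nat_lit 350653) (nat_lit 0) .nil) .nil))))))) (.nd (nat_lit 6) (.nd (nat_lit 7) (.nd (nat_lit 8) (.nd (nat_lit 9) 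
(.lf (nat_lit 569390) (.g (nat_lit 1436) (.e (nat_lit 474880) (nat_lit 16) (.e (nat_lit 376859) (nat_lit 21) (.e (nat_lit 57844) (nat_lit 252) (.e (nat_lit 57388) (nat_lit 5) (.e (nat_lit 122624) (nat_lit 16) .nil))))) (.g (nat_lit 0) (.e (nat_lit 347972) (nat_lit 0) .nil) .nil))) 
(.lf (nat_lit 569902) (.g (nat_lit 1752) (.e (nat_lit 466981) (nat_lit 23) (.e (nat_lit 204846) (nat_lit 24) (.e (nat_lit 319504) (nat_lit 10) (.e (nat_lit 5395) (nat_lit 301) .nil)))) (.g (nat_lit 0) (.e (nat_lit 349520) (nat_lit 0) .nil) .nil)))) (.nd (nat_lit 9) 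
(.lf (nat_lit 569646) (.g (nat_lit 1524) (.e (nat_lit 466972) (nat_lit 21) (.e (nat_lit 164330) (nat_lit 230) (.e (nat_lit 163850) (nat_lit 0) (.e (nat_lit 3614) (nat_lit 226) .nil)))) (.g (nat_lit 0) (.e (nat_lit 348438) (nat_lit 0) .nil) .nil))) 
(.lf (nat_lit 570158) (.g (nat_lit 699) (.e (nat_lit 475176) (nat_lit 24) (.e (nat_lit 516119) (nat_lit 1) (.e (nat_lit 164322) (nat_lit 230) .nil))) (.g (nat_lit 0) (.e (nat_lit 350419) (nat_lit 0) .nil) .nil))))) (.nd (nat_lit 8) (.nd (nat_lit 9) 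
(.lf (nat_lit 569518) (.g (nat_lit 1316) (.e (nat_lit 466968) (nat_lit 21) (.e (nat_lit 164327) (nat_lit 230) (.e (nat_lit 163884) (nat_lit 5) (.e (nat_lit 229120) (nat_lit 13) .nil)))) (.g (nat_lit 0) (.e (nat_lit 348146) (nat_lit 0) .nil) .nil))) 
(.lf (nat_lit 570030) (.g (nat_lit 801) (.e (nat_lit 483072) (nat_lit 26) (.e (nat_lit 532535) (nat_lit 9) (.e (nat_lit 336234) (nat_lit 14) .nil))) (.g (nat_lit 0) (.e (nat_lit 350197) (nat_lit 0) .nil) .nil)))) (.nd (nat_lit 9) 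
(.lf (nat_lit 569774) (.g (nat_lit 2669) (.e (nat_lit 466979) (nat_lit 23) (.e (nat_lit 204845) (nat_lit 24) (.e (nat_lit 319530) (nat_lit 16) (.e (nat_lit 286727) (nat_lit 0) (.e (nat_lit 1799) (nat_lit 119) .nil))))) (.g (nat_lit 0) (.e (nat_lit 348965) (nat_lit 0) .nil) .nil))) 
(.lf (nat_lit 570286) (.g (nat_lit 3327) (.e (nat_lit 475177) (nat_lit 24) (.e (nat_lit 516117) (nat_lit 1) (.e (nat_lit 164332) (nat_lit 230) (.e (nat_lit 163905) (nat_lit 12) (.e (nat_lit 426566) (nat_lit 34) (.e (nat_lit 393294) (nat_lit 26) .nil)))))) (.g (nat_lit 1) (.e (nat_lit 350615) (nat_lit 0) .nil) .nil)))))) (.nd (nat_lit 7) (.nd (nat_lit 8) (.nd (nat_lit 9) 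
(.lf (nat_lit 569454) (.g (nat_lit 1463) (.e (nat_lit 474880) (nat_lit 18) (.e (nat_lit 393254) (nat_lit 18) (.e (nat_lit 164327) (nat_lit 230) (.e (nat_lit 163873) (nat_lit 3) (.e (nat_lit 212736) (nat_lit 14) .nil))))) (.g (nat_lit 0) (.e (nat_lit 348048) (nat_lit 0) .nil) .nil))) 
(.lf (nat_lit 569966) (.g (nat_lit 1813) (.e (nat_lit 483072) (nat_lit 2) (.e (nat_lit 24617) (nat_lit 7) (.e (nat_lit 319490) (nat_lit 0) (.e (nat_lit 539) (nat_lit 41) .nil)))) (.g (nat_lit 0) (.e (nat_lit 349900) (nat_lit 0) .nil) .nil)))) (.nd (nat_lit 9) 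
(.lf (nat_lit 569710) (.g (nat_lit 1527) (.e (nat_lit 466978) (nat_lit 23) (.e (nat_lit 204813) (nat_lit 9) (.e (nat_lit 426108) (nat_lit 1) (.e (nat_lit 164402) (nat_lit 256) .nil)))) (.g (nat_lit 0) (.e (nat_lit 348803) (nat_lit 0) .nil) .nil))) 
(.lf (nat_lit 570222) (.g (nat_lit 3468) (.e (nat_lit 475177) (nat_lit 24) (.e (nat_lit 516115) (nat_lit 1) (.e (nat_lit 164325) (nat_lit 230) (.e (nat_lit 163873) (nat_lit 3) .nil)))) (.g (nat_lit 0) (.e (nat_lit 350535) (nat_lit 0) .nil) .nil))))) (.nd (nat_lit 8) (.nd (nat_lit 9) 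
(.lf (nat_lit 569582) (.g (nat_lit 1516) (.e (nat_lit 466970) (nat_lit 21) (.e (nat_lit 164332) (nat_lit 230) (.e (nat_lit 163885) (nat_lit 5) (.e (nat_lit 221192) (nat_lit 11) .nil)))) (.g (nat_lit 0) (.e (nat_lit 348261) (nat_lit 0) .nil) .nil))) 
(.lf (nat_lit 570094) (.g (nat_lit 2409) (.e (nat_lit 483072) (nat_lit 26) (.e (nat_lit 532544) (nat_lit 10) (.e (nat_lit 344133) (nat_lit 26) (.e (nat_lit 557105) (nat_lit 14) (.e (nat_lit 180252) (nat_lit 10) .nil))))) (.g (nat_lit 0) (.e (nat_lit 350262) (nat_lit 0) .nil) .nil)))) (.nd (nat_lit 9) 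
(.lf (nat_lit 569838) (.g (nat_lit 1436) (.e (nat_lit 466980) (nat_lit 23) (.e (nat_lit 204846) (nat_lit 24) (.e (nat_lit 319533) (nat_lit 16) (.e (nat_lit 286724) (nat_lit 0) .nil)))) (.g (nat_lit 0) (.e (nat_lit 349330) (nat_lit 0) .nil) .nil))) 
(.lf (nat_lit 570350) (.g (nat_lit 4160) (.e (nat_lit 475177) (nat_lit 24) (.e (nat_lit 516120) (nat_lit 1) (.e (nat_lit 164330) (nat_lit 230) (.e (nat_lit 163902) (nat_lit 12) (.e (nat_lit 426566) (nat_lit 34) (.e (nat_lit 393294) (nat_lit 26) .nil)))))) (.g (nat_lit 1) (.e (nat_lit 350706) (nat_lit 0) .nil) .nil)))))))) 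
(.nd (nat_lit 5) (.nd (nat_lit 6) (.nd (nat_lit 7) (.nd (nat_lit 8) (.nd (nat_lit 9) 
(.lf (nat_lit 569374) (.g (nat_lit 1302) (.e (nat_lit 474880) (nat_lit 16) (.e (nat_lit 376857) (nat_lit 21) (.e (nat_lit 57846) (nat_lit 252) (.e (nat_lit 57388) (nat_lit 5) (.e (nat_lit 122624) (nat_lit 16) .nil))))) (.g (nat_lit 0) (.e (nat_lit 347954) (nat_lit 0) .nil) .nil))) 
(.lf (nat_lit 569886) (.g (nat_lit 1517) (.e (nat_lit 466981) (nat_lit 23) (.e (nat_lit 204845) (nat_lit 24) (.e (nat_lit 319530) (nat_lit 16) (.e (nat_lit 286722) (nat_lit 0) .nil)))) (.g (nat_lit 0) (.e (nat_lit 349494) (nat_lit 0) .nil) .nil)))) (.nd (nat_lit 9) 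
(.lf (nat_lit 569630) (.g (nat_lit 2244) (.e (nat_lit 466971) (nat_lit 21) (.e (nat_lit 164332) (nat_lit 230) (.e (nat_lit 163880) (nat_lit 4) (.e (nat_lit 213030) (nat_lit 11) .nil)))) (.g (nat_lit 0) (.e (nat_lit 348350) (nat_lit 0) .nil) .nil))) 
(.lf (nat_lit 570142) (.g (nat_lit 2294) (.e (nat_lit 475176) (nat_lit 24) (.e (nat_lit 516115) (nat_lit 1) (.e (nat_lit 164327) (nat_lit 230) (.e (nat_lit 163903) (nat_lit 12) (.e (nat_lit 426566) (nat_lit 34) (.e (nat_lit 393295) (nat_lit 26) .nil)))))) (.g (nat_lit 1) (.e (nat_lit 350395) (nat_lit 0) .nil) .nil))))) (.nd (nat_lit 8) (.nd (nat_lit 9) 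
(.lf (nat_lit 569502) (.g (nat_lit 2397) (.e (nat_lit 466967) (nat_lit 20) (.e (nat_lit 3304) (nat_lit 202) (.e (nat_lit 573474) (nat_lit 12) (.e (nat_lit 57572) (nat_lit 54) (.e (nat_lit 770072) (nat_lit 8) .nil))))) (.g (nat_lit 0) (.e (nat_lit 348117) (nat_lit 0) .nil) .nil))) 
(.lf (nat_lit 570014) (.g (nat_lit 549) (.e (nat_lit 483072) (nat_lit 16) (.e (nat_lit 2797) (nat_lit 180) (.e (nat_lit 303135) (nat_lit 10) .nil))) (.g (nat_lit 0) (.e (nat_lit 350026) (nat_lit 0) .nil) .nil)))) (.nd (nat_lit 9) 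
(.lf (nat_lit 569758) (.g (nat_lit 2257) (.e (nat_lit 466979) (nat_lit 23) (.e (nat_lit 204829) (nat_lit 18) (.e (nat_lit 57692) (nat_lit 156) (.e (nat_lit 163905) (nat_lit 12) (.e (nat_lit 426484) (nat_lit 27) (.e (nat_lit 336443) (nat_lit 32) .nil)))))) (.g (nat_lit 1) (.e (nat_lit 348924) (nat_lit 0) .nil) .nil))) 
(.lf (nat_lit 570270) (.g (nat_lit 2459) (.e (nat_lit 475177) (nat_lit 24) (.e (nat_lit 516117) (nat_lit 1) (.e (nat_lit 164330) (nat_lit 230) (.e (nat_lit 163902) (nat_lit 12) (.e (nat_lit 426489) (nat_lit 27) .nil))))) (.g (nat_lit 0) (.e (nat_lit 350598) (nat_lit 0) .nil) .nil)))))) (.nd (nat_lit 7) (.nd (nat_lit 8) (.nd (nat_lit 9) 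
(.lf (nat_lit 569438) (.g (nat_lit 1146) (.e (nat_lit 474880) (nat_lit 18) (.e (nat_lit 393253) (nat_lit 18) (.e (nat_lit 164329) (nat_lit 230) (.e (nat_lit 163873) (nat_lit 3) (.e (nat_lit 212736) (nat_lit 14) .nil))))) (.g (nat_lit 0) (.e (nat_lit 348032) (nat_lit 0) .nil) .nil))) 
(.lf (nat_lit 569950) (.g (nat_lit 1983) (.e (nat_lit 474880) (nat_lit 23) (.e (nat_lit 204846) (nat_lit 24) (.e (nat_lit 319528) (nat_lit 16) (.e (nat_lit 286735) (nat_lit 3) (.e (nat_lit 98380) (nat_lit 31) .nil))))) (.g (nat_lit 0) (.e (nat_lit 349844) (nat_lit 0) .nil) .nil)))) (.nd (nat_lit 9) 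
(.lf (nat_lit 569694) (.g (nat_lit 1455) (.e (nat_lit 466977) (nat_lit 22) (.e (nat_lit 196681) (nat_lit 17) (.e (nat_lit 131082) (nat_lit 0) .nil))) (.g (nat_lit 0) (.e (nat_lit 348742) (nat_lit 0) .nil) .nil))) 
(.lf (nat_lit 570206) (.g (nat_lit 2687) (.e (nat_lit 475176) (nat_lit 24) (.e (nat_lit 516179) (nat_lit 15) (.e (nat_lit 475177) (nat_lit 24) (.e (nat_lit 516181) (nat_lit 15) (.e (nat_lit 475177) (nat_lit 24) (.e (nat_lit 516181) (nat_lit 15) .nil)))))) (.g (nat_lit 1) (.e (nat_lit 350513) (nat_lit 0) .nil) .nil))))) (.nd (nat_lit 8) (.nd (nat_lit 9) 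
(.lf (nat_lit 569566) (.g (nat_lit 954) (.e (nat_lit 466970) (nat_lit 21) (.e (nat_lit 164324) (nat_lit 230) (.e (nat_lit 163884) (nat_lit 5) (.e (nat_lit 229120) (nat_lit 13) .nil)))) (.g (nat_lit 0) (.e (nat_lit 348245) (nat_lit 0) .nil) .nil))) 
(.lf (nat_lit 570078) (.g (nat_lit 1067) (.e (nat_lit 483072) (nat_lit 26) (.e (nat_lit 532544) (nat_lit 10) (.e (nat_lit 344132) (nat_lit 26) (.e (nat_lit 557103) (nat_lit 14) .nil)))) (.g (nat_lit 0) (.e (nat_lit 350246) (nat_lit 0) .nil) .nil)))) (.nd (nat_lit 9) 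
(.lf (nat_lit 569822) (.g (nat_lit 976) (.e (nat_lit 466980) (nat_lit 23) (.e (nat_lit 204845) (nat_lit 24) (.e (nat_lit 327424) (nat_lit 16) (.e (nat_lit 286727) (nat_lit 0) (.e (nat_lit 1799) (nat_lit 119) .nil))))) (.g (nat_lit 0) (.e (nat_lit 349299) (nat_lit 0) .nil) .nil))) 
(.lf (nat_lit 570334) (.g (nat_lit 4037) (.e (nat_lit 475177) (nat_lit 24) (.e (nat_lit 516119) (nat_lit 1) (.e (nat_lit 164327) (nat_lit 230) (.e (nat_lit 163903) (nat_lit 12) (.e (nat_lit 426566) (nat_lit 34) (.e (nat_lit 393294) (nat_lit 26) .nil)))))) (.g (nat_lit 1) (.e (nat_lit 350679) (nat_lit 0) .nil) .nil))))))) (.nd (nat_lit 6) (.nd (nat_lit 7) (.nd (nat_lit 8) (.nd (nat_lit 9) 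
(.lf (nat_lit 569406) (.g (nat_lit 1552) (.e (nat_lit 474880) (nat_lit 16) (.e (nat_lit 376860) (nat_lit 21) (.e (nat_lit 57854) (nat_lit 252) (.e (nat_lit 57388) (nat_lit 5) (.e (nat_lit 122624) (nat_lit 16) .nil))))) (.g (nat_lit 0) (.e (nat_lit 347990) (nat_lit 0) .nil) .nil))) 
(.lf (nat_lit 569918) (.g (nat_lit 1982) (.e (nat_lit 466981) (nat_lit 23) (.e (nat_lit 204846) (nat_lit 24) (.e (nat_lit 319531) (nat_lit 16) (.e (nat_lit 286734) (nat_lit 3) (.e (nat_lit 98381) (nat_lit 31) .nil))))) (.g (nat_lit 1) (.e (nat_lit 349541) (nat_lit 0) .nil) .nil)))) (.nd (nat_lit 9) 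
(.lf (nat_lit 569662) (.g (nat_lit 1918) (.e (nat_lit 466972) (nat_lit 21) (.e (nat_lit 164403) (nat_lit 256) (.e (nat_lit 57400) (nat_lit 10) (.e (nat_lit 319504) (nat_lit 10) (.e (nat_lit 5406) (nat_lit 302) .nil))))) (.g (nat_lit 0) (.e (nat_lit 348461) (nat_lit 0) .nil) .nil))) 
(.lf (nat_lit 570174) (.g (nat_lit 1312) (.e (nat_lit 475176) (nat_lit 24) (.e (nat_lit 516148) (nat_lit 9) (.e (nat_lit 426436) (nat_lit 18) (.e (nat_lit 98357) (nat_lit 26) (.e (nat_lit 426436) (nat_lit 18) .nil))))) (.g (nat_lit 0) (.e (nat_lit 350438) (nat_lit 0) .nil) .nil))))) (.nd (nat_lit 8) (.nd (nat_lit 9) 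
(.lf (nat_lit 569534) (.g (nat_lit 2932) (.e (nat_lit 466969) (nat_lit 21) (.e (nat_lit 164322) (nat_lit 230) (.e (nat_lit 163885) (nat_lit 5) (.e (nat_lit 221194) (nat_lit 11) (.e (nat_lit 336084) (nat_lit 9) (.e (nat_lit 336443) (nat_lit 32) .nil)))))) (.g (nat_lit 1) (.e (nat_lit 348186) (nat_lit 0) .nil) .nil))) 
(.lf (nat_lit 570046) (.g (nat_lit 1267) (.e (nat_lit 483072) (nat_lit 26) (.e (nat_lit 532544) (nat_lit 10) (.e (nat_lit 344118) (nat_lit 21) (.e (nat_lit 516131) (nat_lit 3) (.e (nat_lit 221211) (nat_lit 22) .nil))))) (.g (nat_lit 0) (.e (nat_lit 350214) (nat_lit 0) .nil) .nil)))) (.nd (nat_lit 9) 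
(.lf (nat_lit 569790) (.g (nat_lit 1604) (.e (nat_lit 466979) (nat_lit 23) (.e (nat_lit 204846) (nat_lit 24) (.e (nat_lit 319505) (nat_lit 10) (.e (nat_lit 7936) (nat_lit 301) .nil)))) (.g (nat_lit 0) (.e (nat_lit 348992) (nat_lit 0) .nil) .nil))) 
(.lf (nat_lit 570302) (.g (nat_lit 2599) (.e (nat_lit 475177) (nat_lit 24) (.e (nat_lit 516118) (nat_lit 1) (.e (nat_lit 164332) (nat_lit 230) (.e (nat_lit 163902) (nat_lit 12) (.e (nat_lit 426567) (nat_lit 34) (.e (nat_lit 393291) (nat_lit 26) .nil)))))) (.g (nat_lit 1) (.e (nat_lit 350635) (nat_lit 0) .nil) .nil)))))) (.nd (nat_lit 7) (.nd (nat_lit 8) (.nd (nat_lit 9) 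
(.lf (nat_lit 569470) (.g (nat_lit 2121) (.e (nat_lit 466955) (nat_lit 20) (.e (nat_lit 3238) (nat_lit 197) (.e (nat_lit 532523) (nat_lit 7) (.e (nat_lit 319533) (nat_lit 16) (.e (nat_lit 286724) (nat_lit 0) .nil))))) (.g (nat_lit 0) (.e (nat_lit 348064) (nat_lit 0) .nil) .nil))) 
(.lf (nat_lit 569982) (.g (nat_lit 740) (.e (nat_lit 483072) (nat_lit 8) (.e (nat_lit 1667) (nat_lit 116) (.e (nat_lit 401457) (nat_lit 13) (.e (nat_lit 483413) (nat_lit 27) .nil)))) (.g (nat_lit 0) (.e (nat_lit 349956) (nat_lit 0) .nil) .nil)))) (.nd (nat_lit 9) 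
(.lf (nat_lit 569726) (.g (nat_lit 2080) (.e (nat_lit 466978) (nat_lit 23) (.e (nat_lit 204846) (nat_lit 24) (.e (nat_lit 319529) (nat_lit 16) (.e (nat_lit 286735) (nat_lit 3) (.e (nat_lit 98382) (nat_lit 31) .nil))))) (.g (nat_lit 0) (.e (nat_lit 348832) (nat_lit 0) .nil) .nil))) 
(.lf (nat_lit 570238) (.g (nat_lit 4067) (.e (nat_lit 475177) (nat_lit 24) (.e (nat_lit 516115) (nat_lit 1) (.e (nat_lit 164325) (nat_lit 230) (.e (nat_lit 163907) (nat_lit 12) (.e (nat_lit 426566) (nat_lit 34) (.e (nat_lit 393294) (nat_lit 26) .nil)))))) (.g (nat_lit 1) (.e (nat_lit 350551) (nat_lit 0) .nil) .nil))))) (.nd (nat_lit 8) (.nd (nat_lit 9) 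
(.lf (nat_lit 569598) (.g (nat_lit 1226) (.e (nat_lit 466971) (nat_lit 21) (.e (nat_lit 164324) (nat_lit 230) (.e (nat_lit 163885) (nat_lit 5) (.e (nat_lit 229120) (nat_lit 13) .nil)))) (.g (nat_lit 0) (.e (nat_lit 348313) (nat_lit 0) .nil) .nil))) 
(.lf (nat_lit 570110) (.g (nat_lit 350) (.e (nat_lit 475175) (nat_lit 24) (.e (nat_lit 516119) (nat_lit 1) (.e (nat_lit 164326) (nat_lit 230) .nil))) (.g (nat_lit 0) (.e (nat_lit 350343) (nat_lit 0) .nil) .nil)))) (.nd (nat_lit 9) 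
(.lf (nat_lit 569854) (.g (nat_lit 2711) (.e (nat_lit 466981) (nat_lit 23) (.e (nat_lit 204809) (nat_lit 9) (.e (nat_lit 426108) (nat_lit 1) (.e (nat_lit 164330) (nat_lit 230) (.e (nat_lit 171776) (nat_lit 62) .nil))))) (.g (nat_lit 0) (.e (nat_lit 349387) (nat_lit 0) .nil) .nil))) 
(.lf (nat_lit 570366) (.g (nat_lit 3443) (.e (nat_lit 475177) (nat_lit 24) (.e (nat_lit 516120) (nat_lit 1) (.e (nat_lit 164332) (nat_lit 230) (.e (nat_lit 163905) (nat_lit 12) (.e (nat_lit 426566) (nat_lit 34) (.e (nat_lit 393294) (nat_lit 26) .nil)))))) (.g (nat_lit 1) (.e (nat_lit 350725) (nat_lit 0) .nil) .nil)))))))))))) 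
(.nd (nat_lit 1) (.nd (nat_lit 2) (.nd (nat_lit 3) (.nd (nat_lit 4) (.nd (nat_lit 5) 
(.nd (nat_lit 6) (.nd (nat_lit 7) (.nd (nat_lit 8) (.nd (nat_lit 9) 
(.lf (nat_lit 569345) (.g (nat_lit 1541) (.e (nat_lit 466954) (nat_lit 11) (.e (nat_lit 336387) (nat_lit 27) (.e (nat_lit 426100) (nat_lit 1) (.e (nat_lit 164403) (nat_lit 256) .nil)))) (.g (nat_lit 0) (.e (nat_lit 347876) (nat_lit 0) .nil) .nil))) 
(.lf (nat_lit 569857) (.g (nat_lit 835) (.e (nat_lit 466981) (nat_lit 23) (.e (nat_lit 204813) (nat_lit 9) (.e (nat_lit 426105) (nat_lit 1) .nil))) (.g (nat_lit 0) (.e (nat_lit 349390) (nat_lit 0) .nil) .nil)))) (.nd (nat_lit 9) 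
(.lf (nat_lit 569601) (.g (nat_lit 1580) (.e (nat_lit 466971) (nat_lit 21) (.e (nat_lit 164324) (nat_lit 230) (.e (nat_lit 163886) (nat_lit 5) (.e (nat_lit 221194) (nat_lit 11) (.e (nat_lit 336087) (nat_lit 9) .nil))))) (.g (nat_lit 0) (.e (nat_lit 348316) (nat_lit 0) .nil) .nil))) 
(.lf (nat_lit 570113) (.g (nat_lit 2228) (.e (nat_lit 475175) (nat_lit 24) (.e (nat_lit 516119) (nat_lit 1) (.e (nat_lit 164327) (nat_lit 230) (.e (nat_lit 163903) (nat_lit 12) (.e (nat_lit 426566) (nat_lit 34) .nil))))) (.g (nat_lit 0) (.e (nat_lit 350347) (nat_lit 0) .nil) .nil))))) (.nd (nat_lit 8) (.nd (nat_lit 9) 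
(.lf (nat_lit 569473) (.g (nat_lit 1563) (.e (nat_lit 466955) (nat_lit 20) (.e (nat_lit 3238) (nat_lit 197) (.e (nat_lit 532523) (nat_lit 7) (.e (nat_lit 327424) (nat_lit 16) .nil)))) (.g (nat_lit 0) (.e (nat_lit 348067) (nat_lit 0) .nil) .nil))) 
(.lf (nat_lit 569985) (.g (nat_lit 433) (.e (nat_lit 483072) (nat_lit 8) (.e (nat_lit 1669) (nat_lit 116) (.e (nat_lit 401457) (nat_lit 13) .nil))) (.g (nat_lit 0) (.e (nat_lit 349959) (nat_lit 0) .nil) .nil)))) (.nd (nat_lit 9) 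
(.lf (nat_lit 569729) (.g (nat_lit 2496) (.e (nat_lit 466978) (nat_lit 23) (.e (nat_lit 204846) (nat_lit 24) (.e (nat_lit 319530) (nat_lit 16) (.e (nat_lit 286735) (nat_lit 3) (.e (nat_lit 98381) (nat_lit 31) .nil))))) (.g (nat_lit 0) (.e (nat_lit 348836) (nat_lit 0) .nil) .nil))) 
(.lf (nat_lit 570241) (.g (nat_lit 2566) (.e (nat_lit 475177) (nat_lit 24) (.e (nat_lit 516115) (nat_lit 1) (.e (nat_lit 164325) (nat_lit 230) (.e (nat_lit 163938) (nat_lit 18) .nil)))) (.g (nat_lit 0) (.e (nat_lit 350554) (nat_lit 0) .nil) .nil)))))) (.nd (nat_lit 7) (.nd (nat_lit 8) (.nd (nat_lit 9) 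
(.lf (nat_lit 569409) (.g (nat_lit 1601) (.e (nat_lit 474880) (nat_lit 18) (.e (nat_lit 393251) (nat_lit 18) (.e (nat_lit 164325) (nat_lit 230) (.e (nat_lit 163873) (nat_lit 3) (.e (nat_lit 212736) (nat_lit 14) .nil))))) (.g (nat_lit 0) (.e (nat_lit 348002) (nat_lit 0) .nil) .nil))) 
(.lf (nat_lit 569921) (.g (nat_lit 1576) (.e (nat_lit 466981) (nat_lit 23) (.e (nat_lit 204846) (nat_lit 24) (.e (nat_lit 319533) (nat_lit 16) (.e (nat_lit 286724) (nat_lit 0) .nil)))) (.g (nat_lit 0) (.e (nat_lit 349549) (nat_lit 0) .nil) .nil)))) (.nd (nat_lit 9) 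
(.lf (nat_lit 569665) (.g (nat_lit 1820) (.e (nat_lit 466972) (nat_lit 21) (.e (nat_lit 164403) (nat_lit 256) (.e (nat_lit 57400) (nat_lit 10) (.e (nat_lit 319505) (nat_lit 10) (.e (nat_lit 5405) (nat_lit 302) .nil))))) (.g (nat_lit 0) (.e (nat_lit 348464) (nat_lit 0) .nil) .nil))) 
(.lf (nat_lit 570177) (.g (nat_lit 1356) (.e (nat_lit 475176) (nat_lit 24) (.e (nat_lit 516151) (nat_lit 9) (.e (nat_lit 426042) (nat_lit 0) .nil))) (.g (nat_lit 0) (.e (nat_lit 350441) (nat_lit 0) .nil) .nil))))) (.nd (nat_lit 8) (.nd (nat_lit 9) 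
(.lf (nat_lit 569537) (.g (nat_lit 1255) (.e (nat_lit 466969) (nat_lit 21) (.e (nat_lit 164324) (nat_lit 230) (.e (nat_lit 163884) (nat_lit 5) (.e (nat_lit 221191) (nat_lit 11) .nil)))) (.g (nat_lit 0) (.e (nat_lit 348189) (nat_lit 0) .nil) .nil))) 
(.lf (nat_lit 570049) (.g (nat_lit 1155) (.e (nat_lit 483072) (nat_lit 26) (.e (nat_lit 532544) (nat_lit 10) (.e (nat_lit 344120) (nat_lit 21) (.e (nat_lit 516129) (nat_lit 3) (.e (nat_lit 221210) (nat_lit 22) .nil))))) (.g (nat_lit 0) (.e (nat_lit 350217) (nat_lit 0) .nil) .nil)))) (.nd (nat_lit 9) 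
(.lf (nat_lit 569793) (.g (nat_lit 1078) (.e (nat_lit 466979) (nat_lit 23) (.e (nat_lit 204846) (nat_lit 24) (.e (nat_lit 319528) (nat_lit 16) (.e (nat_lit 286727) (nat_lit 0) .nil)))) (.g (nat_lit 0) (.e (nat_lit 348995) (nat_lit 0) .nil) .nil))) 
(.lf (nat_lit 570305) (.g (nat_lit 2601) (.e (nat_lit 475177) (nat_lit 24) (.e (nat_lit 516118) (nat_lit 1) (.e (nat_lit 164332) (nat_lit 230) (.e (nat_lit 163905) (nat_lit 12) (.e (nat_lit 426478) (nat_lit 27) (.e (nat_lit 336388) (nat_lit 27) (.e (nat_lit 426306) (nat_lit 12) .nil))))))) (.g (nat_lit 1) (.e (nat_lit 350638) (nat_lit 0) .nil) .nil))))))) 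
(.nd (nat_lit 6) (.nd (nat_lit 7) (.nd (nat_lit 8) (.nd (nat_lit 9) 
(.lf (nat_lit 569377) (.g (nat_lit 1259) (.e (nat_lit 474880) (nat_lit 16) (.e (nat_lit 376857) (nat_lit 21) (.e (nat_lit 57847) (nat_lit 252) (.e (nat_lit 57390) (nat_lit 5) (.e (nat_lit 122624) (nat_lit 16) .nil))))) (.g (nat_lit 0) (.e (nat_lit 347957) (nat_lit 0) .nil) .nil))) 
(.lf (nat_lit 569889) (.g (nat_lit 1749) (.e (nat_lit 466981) (nat_lit 23) (.e (nat_lit 204845) (nat_lit 24) (.e (nat_lit 319530) (nat_lit 16) (.e (nat_lit 286734) (nat_lit 3) .nil)))) (.g (nat_lit 0) (.e (nat_lit 349499) (nat_lit 0) .nil) .nil)))) (.nd (nat_lit 9) 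
(.lf (nat_lit 569633) (.g (nat_lit 2213) (.e (nat_lit 466971) (nat_lit 21) (.e (nat_lit 164332) (nat_lit 230) (.e (nat_lit 163880) (nat_lit 4) (.e (nat_lit 213032) (nat_lit 11) .nil)))) (.g (nat_lit 0) (.e (nat_lit 348353) (nat_lit 0) .nil) .nil))) 
(.lf (nat_lit 570145) (.g (nat_lit 1354) (.e (nat_lit 475176) (nat_lit 24) (.e (nat_lit 516115) (nat_lit 1) (.e (nat_lit 164332) (nat_lit 230) (.e (nat_lit 163902) (nat_lit 12) .nil)))) (.g (nat_lit 0) (.e (nat_lit 350399) (nat_lit 0) .nil) .nil))))) (.nd (nat_lit 8) (.nd (nat_lit 9) 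
(.lf (nat_lit 569505) (.g (nat_lit 3352) (.e (nat_lit 466967) (nat_lit 20) (.e (nat_lit 3305) (nat_lit 202) (.e (nat_lit 573474) (nat_lit 12) (.e (nat_lit 57572) (nat_lit 54) (.e (nat_lit 770072) (nat_lit 8) .nil))))) (.g (nat_lit 0) (.e (nat_lit 348122) (nat_lit 0) .nil) .nil))) 
(.lf (nat_lit 570017) (.g (nat_lit 1904) (.e (nat_lit 475152) (nat_lit 17) (.e (nat_lit 57810) (nat_lit 246) (.e (nat_lit 57596) (nat_lit 82) (.e (nat_lit 499900) (nat_lit 7) (.e (nat_lit 24630) (nat_lit 9) (.e (nat_lit 336450) (nat_lit 33) .nil)))))) (.g (nat_lit 1) (.e (nat_lit 350089) (nat_lit 0) .nil) .nil)))) (.nd (nat_lit 9) 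
(.lf (nat_lit 569761) (.g (nat_lit 1462) (.e (nat_lit 466979) (nat_lit 23) (.e (nat_lit 204830) (nat_lit 18) (.e (nat_lit 57691) (nat_lit 156) (.e (nat_lit 163906) (nat_lit 12) (.e (nat_lit 426479) (nat_lit 27) .nil))))) (.g (nat_lit 0) (.e (nat_lit 348937) (nat_lit 0) .nil) .nil))) 
(.lf (nat_lit 570273) (.g (nat_lit 1768) (.e (nat_lit 475177) (nat_lit 24) (.e (nat_lit 516117) (nat_lit 1) (.e (nat_lit 164330) (nat_lit 230) (.e (nat_lit 163905) (nat_lit 12) (.e (nat_lit 426489) (nat_lit 27) .nil))))) (.g (nat_lit 0) (.e (nat_lit 350602) (nat_lit 0) .nil) .nil)))))) (.nd (nat_lit 7) (.nd (nat_lit 8) (.nd (nat_lit 9) 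
(.lf (nat_lit 569441) (.g (nat_lit 1518) (.e (nat_lit 474880) (nat_lit 18) (.e (nat_lit 393253) (nat_lit 18) (.e (nat_lit 164331) (nat_lit 230) (.e (nat_lit 163873) (nat_lit 3) (.e (nat_lit 212736) (nat_lit 14) .nil))))) (.g (nat_lit 0) (.e (nat_lit 348035) (nat_lit 0) .nil) .nil))) 
(.lf (nat_lit 569953) (.g (nat_lit 2078) (.e (nat_lit 474880) (nat_lit 23) (.e (nat_lit 204846) (nat_lit 24) (.e (nat_lit 319530) (nat_lit 16) (.e (nat_lit 286734) (nat_lit 3) .nil)))) (.g (nat_lit 0) (.e (nat_lit 349847) (nat_lit 0) .nil) .nil)))) (.nd (nat_lit 9) 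
(.lf (nat_lit 569697) (.g (nat_lit 2156) (.e (nat_lit 466977) (nat_lit 22) (.e (nat_lit 196681) (nat_lit 17) (.e (nat_lit 131086) (nat_lit 1) (.e (nat_lit 57931) (nat_lit 282) (.e (nat_lit 163843) (nat_lit 0) (.e (nat_lit 7936) (nat_lit 200) (.e (nat_lit 557065) (nat_lit 9) (.e (nat_lit 3044) (nat_lit 189) .nil)))))))) (.g (nat_lit 1) (.e (nat_lit 348760) (nat_lit 0) .nil) .nil))) 
(.lf (nat_lit 570209) (.g (nat_lit 1670) (.e (nat_lit 475176) (nat_lit 24) (.e (nat_lit 516182) (nat_lit 15) (.e (nat_lit 475177) (nat_lit 24) (.e (nat_lit 516180) (nat_lit 15) (.e (nat_lit 475177) (nat_lit 24) (.e (nat_lit 516181) (nat_lit 15) .nil)))))) (.g (nat_lit 1) (.e (nat_lit 350516) (nat_lit 0) .nil) .nil))))) (.nd (nat_lit 8) (.nd (nat_lit 9) 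
(.lf (nat_lit 569569) (.g (nat_lit 971) (.e (nat_lit 466970) (nat_lit 21) (.e (nat_lit 164324) (nat_lit 230) (.e (nat_lit 163886) (nat_lit 5) (.e (nat_lit 229120) (nat_lit 16) .nil)))) (.g (nat_lit 0) (.e (nat_lit 348248) (nat_lit 0) .nil) .nil))) 
(.lf (nat_lit 570081) (.g (nat_lit 1209) (.e (nat_lit 483072) (nat_lit 26) (.e (nat_lit 532544) (nat_lit 10) (.e (nat_lit 344133) (nat_lit 26) (.e (nat_lit 557098) (nat_lit 13) .nil)))) (.g (nat_lit 0) (.e (nat_lit 350249) (nat_lit 0) .nil) .nil)))) (.nd (nat_lit 9) 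
(.lf (nat_lit 569825) (.g (nat_lit 1881) (.e (nat_lit 466980) (nat_lit 23) (.e (nat_lit 204846) (nat_lit 24) (.e (nat_lit 319504) (nat_lit 10) (.e (nat_lit 5390) (nat_lit 301) .nil)))) (.g (nat_lit 0) (.e (nat_lit 349302) (nat_lit 0) .nil) .nil))) 
(.lf (nat_lit 570337) (.g (nat_lit 1549) (.e (nat_lit 475177) (nat_lit 24) (.e (nat_lit 516119) (nat_lit 1) (.e (nat_lit 164330) (nat_lit 230) (.e (nat_lit 163904) (nat_lit 12) .nil)))) (.g (nat_lit 0) (.e (nat_lit 350683) (nat_lit 0) .nil) .nil)))))))) (.nd (nat_lit 5) (.nd (nat_lit 6) (.nd (nat_lit 7) (.nd (nat_lit 8) (.nd (nat_lit 9) 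
(.lf (nat_lit 569361) (.g (nat_lit 967) (.e (nat_lit 474880) (nat_lit 13) (.e (nat_lit 352308) (nat_lit 21) (.e (nat_lit 57849) (nat_lit 252) (.e (nat_lit 57390) (nat_lit 5) (.e (nat_lit 122624) (nat_lit 16) .nil))))) (.g (nat_lit 0) (.e (nat_lit 347928) (nat_lit 0) .nil) .nil))) 
(.lf (nat_lit 569873) (.g (nat_lit 832) (.e (nat_lit 466981) (nat_lit 23) (.e (nat_lit 204831) (nat_lit 18) (.e (nat_lit 57686) (nat_lit 156) .nil))) (.g (nat_lit 0) (.e (nat_lit 349474) (nat_lit 0) .nil) .nil)))) (.nd (nat_lit 9) 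
(.lf (nat_lit 569617) (.g (nat_lit 2974) (.e (nat_lit 466971) (nat_lit 21) (.e (nat_lit 164327) (nat_lit 230) (.e (nat_lit 163879) (nat_lit 4) (.e (nat_lit 213030) (nat_lit 11) (.e (nat_lit 24630) (nat_lit 9) (.e (nat_lit 336443) (nat_lit 32) .nil)))))) (.g (nat_lit 1) (.e (nat_lit 348337) (nat_lit 0) .nil) .nil))) 
(.lf (nat_lit 570129) (.g (nat_lit 983) (.e (nat_lit 475175) (nat_lit 24) (.e (nat_lit 516179) (nat_lit 15) (.e (nat_lit 475177) (nat_lit 24) .nil))) (.g (nat_lit 0) (.e (nat_lit 350378) (nat_lit 0) .nil) .nil))))) (.nd (nat_lit 8) (.nd (nat_lit 9) 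
(.lf (nat_lit 569489) (.g (nat_lit 1951) (.e (nat_lit 466965) (nat_lit 20) (.e (nat_lit 3233) (nat_lit 197) (.e (nat_lit 532523) (nat_lit 7) (.e (nat_lit 319534) (nat_lit 16) (.e (nat_lit 286735) (nat_lit 3) .nil))))) (.g (nat_lit 0) (.e (nat_lit 348097) (nat_lit 0) .nil) .nil))) 
(.lf (nat_lit 570001) (.g (nat_lit 2085) (.e (nat_lit 483072) (nat_lit 10) (.e (nat_lit 16457) (nat_lit 12) (.e (nat_lit 475179) (nat_lit 24) (.e (nat_lit 516119) (nat_lit 1) (.e (nat_lit 164325) (nat_lit 230) .nil))))) (.g (nat_lit 0) (.e (nat_lit 349987) (nat_lit 0) .nil) .nil)))) (.nd (nat_lit 9) 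
(.lf (nat_lit 569745) (.g (nat_lit 1618) (.e (nat_lit 466979) (nat_lit 23) (.e (nat_lit 204813) (nat_lit 9) (.e (nat_lit 426100) (nat_lit 1) (.e (nat_lit 164399) (nat_lit 256) (.e (nat_lit 57405) (nat_lit 12) .nil))))) (.g (nat_lit 0) (.e (nat_lit 348867) (nat_lit 0) .nil) .nil))) 
(.lf (nat_lit 570257) (.g (nat_lit 2221) (.e (nat_lit 475177) (nat_lit 24) (.e (nat_lit 516115) (nat_lit 1) (.e (nat_lit 164332) (nat_lit 230) (.e (nat_lit 163905) (nat_lit 12) (.e (nat_lit 426489) (nat_lit 27) .nil))))) (.g (nat_lit 0) (.e (nat_lit 350581) (nat_lit 0) .nil) .nil)))))) (.nd (nat_lit 7) (.nd (nat_lit 8) (.nd (nat_lit 9) 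
(.lf (nat_lit 569425) (.g (nat_lit 1551) (.e (nat_lit 474880) (nat_lit 18) (.e (nat_lit 393252) (nat_lit 18) (.e (nat_lit 164403) (nat_lit 256) (.e (nat_lit 57378) (nat_lit 3) .nil)))) (.g (nat_lit 0) (.e (nat_lit 348019) (nat_lit 0) .nil) .nil))) 
(.lf (nat_lit 569937) (.g (nat_lit 380) (.e (nat_lit 466981) (nat_lit 23) (.e (nat_lit 204861) (nat_lit 26) (.e (nat_lit 335988) (nat_lit 1) .nil))) (.g (nat_lit 0) (.e (nat_lit 349666) (nat_lit 0) .nil) .nil)))) (.nd (nat_lit 9) 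
(.lf (nat_lit 569681) (.g (nat_lit 2858) (.e (nat_lit 466975) (nat_lit 22) (.e (nat_lit 196626) (nat_lit 9) (.e (nat_lit 1396) (nat_lit 106) (.e (nat_lit 319530) (nat_lit 16) (.e (nat_lit 286733) (nat_lit 2) (.e (nat_lit 90128) (nat_lit 9) (.e (nat_lit 3044) (nat_lit 189) .nil))))))) (.g (nat_lit 1) (.e (nat_lit 348593) (nat_lit 0) .nil) .nil))) 
(.lf (nat_lit 570193) (.g (nat_lit 2282) (.e (nat_lit 475176) (nat_lit 24) (.e (nat_lit 516174) (nat_lit 14) (.e (nat_lit 466954) (nat_lit 11) (.e (nat_lit 335986) (nat_lit 1) (.e (nat_lit 57655) (nat_lit 152) .nil))))) (.g (nat_lit 0) (.e (nat_lit 350499) (nat_lit 0) .nil) .nil))))) (.nd (nat_lit 8) (.nd (nat_lit 9) 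
(.lf (nat_lit 569553) (.g (nat_lit 399) (.e (nat_lit 466969) (nat_lit 21) (.e (nat_lit 164327) (nat_lit 230) (.e (nat_lit 163886) (nat_lit 5) .nil))) (.g (nat_lit 0) (.e (nat_lit 348205) (nat_lit 0) .nil) .nil))) 
(.lf (nat_lit 570065) (.g (nat_lit 2040) (.e (nat_lit 483072) (nat_lit 26) (.e (nat_lit 532544) (nat_lit 10) (.e (nat_lit 344130) (nat_lit 26) (.e (nat_lit 557104) (nat_lit 14) (.e (nat_lit 180236) (nat_lit 1) .nil))))) (.g (nat_lit 0) (.e (nat_lit 350233) (nat_lit 0) .nil) .nil)))) (.nd (nat_lit 9) 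
(.lf (nat_lit 569809) (.g (nat_lit 2637) (.e (nat_lit 466979) (nat_lit 23) (.e (nat_lit 204846) (nat_lit 24) (.e (nat_lit 319534) (nat_lit 16) (.e (nat_lit 286734) (nat_lit 3) (.e (nat_lit 98382) (nat_lit 31) .nil))))) (.g (nat_lit 0) (.e (nat_lit 349033) (nat_lit 0) .nil) .nil))) 
(.lf (nat_lit 570321) (.g (nat_lit 3980) (.e (nat_lit 475177) (nat_lit 24) (.e (nat_lit 516119) (nat_lit 1) (.e (nat_lit 164324) (nat_lit 230) (.e (nat_lit 163903) (nat_lit 12) (.e (nat_lit 426566) (nat_lit 34) (.e (nat_lit 393294) (nat_lit 26) .nil)))))) (.g (nat_lit 1) (.e (nat_lit 350662) (nat_lit 0) .nil) .nil))))))) (.nd (nat_lit 6) (.nd (nat_lit 7) (.nd (nat_lit 8) (.nd (nat_lit 9) 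
(.lf (nat_lit 569393) (.g (nat_lit 1290) (.e (nat_lit 474880) (nat_lit 16) (.e (nat_lit 376859) (nat_lit 21) (.e (nat_lit 57846) (nat_lit 252) (.e (nat_lit 57390) (nat_lit 5) (.e (nat_lit 122624) (nat_lit 16) .nil))))) (.g (nat_lit 0) (.e (nat_lit 347975) (nat_lit 0) .nil) .nil))) 
(.lf (nat_lit 569905) (.g (nat_lit 2025) (.e (nat_lit 466981) (nat_lit 23) (.e (nat_lit 204846) (nat_lit 24) (.e (nat_lit 319504) (nat_lit 10) (.e (nat_lit 5418) (nat_lit 304) .nil)))) (.g (nat_lit 0) (.e (nat_lit 349523) (nat_lit 0) .nil) .nil)))) (.nd (nat_lit 9) 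
(.lf (nat_lit 569649) (.g (nat_lit 1719) (.e (nat_lit 466972) (nat_lit 21) (.e (nat_lit 164331) (nat_lit 230) (.e (nat_lit 163885) (nat_lit 5) (.e (nat_lit 221193) (nat_lit 11) (.e (nat_lit 336150) (nat_lit 9) .nil))))) (.g (nat_lit 0) (.e (nat_lit 348441) (nat_lit 0) .nil) .nil))) 
(.lf (nat_lit 570161) (.g (nat_lit 2489) (.e (nat_lit 475176) (nat_lit 24) (.e (nat_lit 516119) (nat_lit 1) (.e (nat_lit 164325) (nat_lit 230) (.e (nat_lit 163903) (nat_lit 12) (.e (nat_lit 426568) (nat_lit 34) (.e (nat_lit 393294) (nat_lit 26) .nil)))))) (.g (nat_lit 1) (.e (nat_lit 350422) (nat_lit 0) .nil) .nil))))) (.nd (nat_lit 8) (.nd (nat_lit 9) 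
(.lf (nat_lit 569521) (.g (nat_lit 2204) (.e (nat_lit 466968) (nat_lit 21) (.e (nat_lit 164332) (nat_lit 230) (.e (nat_lit 163880) (nat_lit 4) (.e (nat_lit 213032) (nat_lit 11) .nil)))) (.g (nat_lit 0) (.e (nat_lit 348149) (nat_lit 0) .nil) .nil))) 
(.lf (nat_lit 570033) (.g (nat_lit 486) (.e (nat_lit 483072) (nat_lit 26) (.e (nat_lit 532544) (nat_lit 10) (.e (nat_lit 352000) (nat_lit 2) .nil))) (.g (nat_lit 0) (.e (nat_lit 350201) (nat_lit 0) .nil) .nil)))) (.nd (nat_lit 9) 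
(.lf (nat_lit 569777) (.g (nat_lit 3018) (.e (nat_lit 466979) (nat_lit 23) (.e (nat_lit 204845) (nat_lit 24) (.e (nat_lit 319530) (nat_lit 16) (.e (nat_lit 286735) (nat_lit 3) (.e (nat_lit 98382) (nat_lit 31) .nil))))) (.g (nat_lit 1) (.e (nat_lit 348971) (nat_lit 0) .nil) .nil))) 
(.lf (nat_lit 570289) (.g (nat_lit 2465) (.e (nat_lit 475177) (nat_lit 24) (.e (nat_lit 516118) (nat_lit 1) (.e (nat_lit 164324) (nat_lit 230) (.e (nat_lit 163903) (nat_lit 12) (.e (nat_lit 426568) (nat_lit 34) (.e (nat_lit 393293) (nat_lit 26) .nil)))))) (.g (nat_lit 1) (.e (nat_lit 350618) (nat_lit 0) .nil) .nil)))))) (.nd (nat_lit 7) (.nd (nat_lit 8) (.nd (nat_lit 9) 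
(.lf (nat_lit 569457) (.g (nat_lit 1222) (.e (nat_lit 474880) (nat_lit 18) (.e (nat_lit 393254) (nat_lit 18) (.e (nat_lit 164332) (nat_lit 230) (.e (nat_lit 163873) (nat_lit 3) (.e (nat_lit 212736) (nat_lit 14) .nil))))) (.g (nat_lit 0) (.e (nat_lit 348051) (nat_lit 0) .nil) .nil))) 
(.lf (nat_lit 569969) (.g (nat_lit 804) (.e (nat_lit 483072) (nat_lit 2) (.e (nat_lit 24630) (nat_lit 9) (.e (nat_lit 336016) (nat_lit 2) (.e (nat_lit 98048) (nat_lit 2) .nil)))) (.g (nat_lit 0) (.e (nat_lit 349907) (nat_lit 0) .nil) .nil)))) (.nd (nat_lit 9) 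
(.lf (nat_lit 569713) (.g (nat_lit 2275) (.e (nat_lit 466978) (nat_lit 23) (.e (nat_lit 204845) (nat_lit 24) (.e (nat_lit 319530) (nat_lit 16) (.e (nat_lit 286735) (nat_lit 3) (.e (nat_lit 98380) (nat_lit 31) .nil))))) (.g (nat_lit 0) (.e (nat_lit 348818) (nat_lit 0) .nil) .nil))) 
(.lf (nat_lit 570225) (.g (nat_lit 2059) (.e (nat_lit 475177) (nat_lit 24) (.e (nat_lit 516115) (nat_lit 1) (.e (nat_lit 164325) (nat_lit 230) (.e (nat_lit 163901) (nat_lit 12) .nil)))) (.g (nat_lit 0) (.e (nat_lit 350538) (nat_lit 0) .nil) .nil))))) (.nd (nat_lit 8) (.nd (nat_lit 9) 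
(.lf (nat_lit 569585) (.g (nat_lit 3005) (.e (nat_lit 466971) (nat_lit 21) (.e (nat_lit 164322) (nat_lit 230) (.e (nat_lit 163878) (nat_lit 4) (.e (nat_lit 213030) (nat_lit 11) (.e (nat_lit 24625) (nat_lit 9) (.e (nat_lit 336443) (nat_lit 32) .nil)))))) (.g (nat_lit 1) (.e (nat_lit 348300) (nat_lit 0) .nil) .nil))) 
(.lf (nat_lit 570097) (.g (nat_lit 1430) (.e (nat_lit 475181) (nat_lit 27) (.e (nat_lit 540690) (nat_lit 9) (.e (nat_lit 336013) (nat_lit 2) (.e (nat_lit 90189) (nat_lit 18) .nil)))) (.g (nat_lit 0) (.e (nat_lit 350312) (nat_lit 0) .nil) .nil)))) (.nd (nat_lit 9) 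
(.lf (nat_lit 569841) (.g (nat_lit 1197) (.e (nat_lit 466980) (nat_lit 23) (.e (nat_lit 204846) (nat_lit 24) (.e (nat_lit 319534) (nat_lit 16) (.e (nat_lit 286728) (nat_lit 0) .nil)))) (.g (nat_lit 0) (.e (nat_lit 349337) (nat_lit 0) .nil) .nil))) 
(.lf (nat_lit 570353) (.g (nat_lit 1834) (.e (nat_lit 475177) (nat_lit 24) (.e (nat_lit 516120) (nat_lit 1) (.e (nat_lit 164330) (nat_lit 230) (.e (nat_lit 163905) (nat_lit 12) (.e (nat_lit 426481) (nat_lit 27) .nil))))) (.g (nat_lit 0) (.e (nat_lit 350710) (nat_lit 0) .nil) .nil))))))))) (.nd (nat_lit 4) (.nd (nat_lit 5) (.nd (nat_lit 6) (.nd (nat_lit 7) (.nd (nat_lit 8) (.nd (nat_lit 9) 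
(.lf (nat_lit 569353) (.g (nat_lit 670) (.e (nat_lit 474880) (nat_lit 13) (.e (nat_lit 352307) (nat_lit 21) (.e (nat_lit 57844) (nat_lit 252) .nil))) (.g (nat_lit 0) (.e (nat_lit 347920) (nat_lit 0) .nil) .nil))) 
(.lf (nat_lit 569865) (.g (nat_lit 3492) (.e (nat_lit 466981) (nat_lit 23) (.e (nat_lit 204829) (nat_lit 18) (.e (nat_lit 57688) (nat_lit 156) (.e (nat_lit 163907) (nat_lit 12) (.e (nat_lit 426479) (nat_lit 27) (.e (nat_lit 336443) (nat_lit 32) .nil)))))) (.g (nat_lit 1) (.e (nat_lit 349434) (nat_lit 0) .nil) .nil)))) (.nd (nat_lit 9) 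
(.lf (nat_lit 569609) (.g (nat_lit 1680) (.e (nat_lit 466971) (nat_lit 21) (.e (nat_lit 164326) (nat_lit 230) (.e (nat_lit 163879) (nat_lit 4) (.e (nat_lit 213032) (nat_lit 11) (.e (nat_lit 24629) (nat_lit 9) (.e (nat_lit 336444) (nat_lit 32) .nil)))))) (.g (nat_lit 1) (.e (nat_lit 348325) (nat_lit 0) .nil) .nil))) 
(.lf (nat_lit 570121) (.g (nat_lit 1365) (.e (nat_lit 475175) (nat_lit 24) (.e (nat_lit 516151) (nat_lit 9) (.e (nat_lit 426042) (nat_lit 0) .nil))) (.g (nat_lit 0) (.e (nat_lit 350364) (nat_lit 0) .nil) .nil))))) (.nd (nat_lit 8) (.nd (nat_lit 9) 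
(.lf (nat_lit 569481) (.g (nat_lit 1981) (.e (nat_lit 466960) (nat_lit 20) (.e (nat_lit 3386) (nat_lit 210) (.e (nat_lit 639021) (nat_lit 16) (.e (nat_lit 65619) (nat_lit 10) (.e (nat_lit 344160) (nat_lit 37) (.e (nat_lit 647195) (nat_lit 9) (.e (nat_lit 7936) (nat_lit 37) .nil))))))) (.g (nat_lit 1) (.e (nat_lit 348087) (nat_lit 0) .nil) .nil))) 
(.lf (nat_lit 569993) (.g (nat_lit 1260) (.e (nat_lit 483072) (nat_lit 10) (.e (nat_lit 16438) (nat_lit 9) (.e (nat_lit 426436) (nat_lit 18) (.e (nat_lit 98333) (nat_lit 18) .nil)))) (.g (nat_lit 0) (.e (nat_lit 349979) (nat_lit 0) .nil) .nil)))) (.nd (nat_lit 9) 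
(.lf (nat_lit 569737) (.g (nat_lit 833) (.e (nat_lit 466978) (nat_lit 23) (.e (nat_lit 204846) (nat_lit 24) (.e (nat_lit 327424) (nat_lit 16) .nil))) (.g (nat_lit 0) (.e (nat_lit 348848) (nat_lit 0) .nil) .nil))) 
(.lf (nat_lit 570249) (.g (nat_lit 3007) (.e (nat_lit 475177) (nat_lit 24) (.e (nat_lit 516115) (nat_lit 1) (.e (nat_lit 164327) (nat_lit 230) (.e (nat_lit 163903) (nat_lit 12) (.e (nat_lit 426564) (nat_lit 34) (.e (nat_lit 393291) (nat_lit 26) .nil)))))) (.g (nat_lit 1) (.e (nat_lit 350570) (nat_lit 0) .nil) .nil)))))) (.nd (nat_lit 7) (.nd (nat_lit 8) (.nd (nat_lit 9) 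
(.lf (nat_lit 569417) (.g (nat_lit 2102) (.e (nat_lit 474880) (nat_lit 18) (.e (nat_lit 393251) (nat_lit 18) (.e (nat_lit 164402) (nat_lit 256) (.e (nat_lit 57377) (nat_lit 3) (.e (nat_lit 98382) (nat_lit 31) .nil))))) (.g (nat_lit 0) (.e (nat_lit 348010) (nat_lit 0) .nil) .nil))) 
(.lf (nat_lit 569929) (.g (nat_lit 1224) (.e (nat_lit 466981) (nat_lit 23) (.e (nat_lit 204846) (nat_lit 24) (.e (nat_lit 319534) (nat_lit 16) (.e (nat_lit 286728) (nat_lit 0) .nil)))) (.g (nat_lit 0) (.e (nat_lit 349564) (nat_lit 0) .nil) .nil)))) (.nd (nat_lit 9) 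
(.lf (nat_lit 569673) (.g (nat_lit 1261) (.e (nat_lit 466974) (nat_lit 22) (.e (nat_lit 196681) (nat_lit 17) (.e (nat_lit 131085) (nat_lit 1) .nil))) (.g (nat_lit 0) (.e (nat_lit 348554) (nat_lit 0) .nil) .nil))) 
(.lf (nat_lit 570185) (.g (nat_lit 1006) (.e (nat_lit 475176) (nat_lit 24) (.e (nat_lit 516166) (nat_lit 12) (.e (nat_lit 450563) (nat_lit 0) .nil))) (.g (nat_lit 0) (.e (nat_lit 350491) (nat_lit 0) .nil) .nil))))) (.nd (nat_lit 8) (.nd (nat_lit 9) 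
(.lf (nat_lit 569545) (.g (nat_lit 3253) (.e (nat_lit 466969) (nat_lit 21) (.e (nat_lit 164325) (nat_lit 230) (.e (nat_lit 163882) (nat_lit 4) (.e (nat_lit 213032) (nat_lit 11) (.e (nat_lit 24628) (nat_lit 9) (.e (nat_lit 336443) (nat_lit 32) .nil)))))) (.g (nat_lit 1) (.e (nat_lit 348197) (nat_lit 0) .nil) .nil))) 
(.lf (nat_lit 570057) (.g (nat_lit 1034) (.e (nat_lit 483072) (nat_lit 26) (.e (nat_lit 532544) (nat_lit 10) (.e (nat_lit 344130) (nat_lit 26) (.e (nat_lit 557097) (nat_lit 13) .nil)))) (.g (nat_lit 0) (.e (nat_lit 350225) (nat_lit 0) .nil) .nil)))) (.nd (nat_lit 9) 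
(.lf (nat_lit 569801) (.g (nat_lit 2275) (.e (nat_lit 466979) (nat_lit 23) (.e (nat_lit 204846) (nat_lit 24) (.e (nat_lit 319533) (nat_lit 16) (.e (nat_lit 286734) (nat_lit 3) (.e (nat_lit 98379) (nat_lit 31) .nil))))) (.g (nat_lit 0) (.e (nat_lit 349020) (nat_lit 0) .nil) .nil))) 
(.lf (nat_lit 570313) (.g (nat_lit 2547) (.e (nat_lit 475177) (nat_lit 24) (.e (nat_lit 516118) (nat_lit 1) (.e (nat_lit 164332) (nat_lit 230) (.e (nat_lit 163905) (nat_lit 12) (.e (nat_lit 426567) (nat_lit 34) (.e (nat_lit 393293) (nat_lit 26) .nil)))))) (.g (nat_lit 1) (.e (nat_lit 350648) (nat_lit 0) .nil) .nil))))))) (.nd (nat_lit 6) (.nd (nat_lit 7) (.nd (nat_lit 8) (.nd (nat_lit 9) 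
(.lf (nat_lit 569385) (.g (nat_lit 1137) (.e (nat_lit 474880) (nat_lit 16) (.e (nat_lit 376857) (nat_lit 21) (.e (nat_lit 57852) (nat_lit 252) (.e (nat_lit 57389) (nat_lit 5) (.e (nat_lit 122624) (nat_lit 16) .nil))))) (.g (nat_lit 0) (.e (nat_lit 347965) (nat_lit 0) .nil) .nil))) 
(.lf (nat_lit 569897) (.g (nat_lit 1043) (.e (nat_lit 466981) (nat_lit 23) (.e (nat_lit 204845) (nat_lit 24) (.e (nat_lit 319535) (nat_lit 17) (.e (nat_lit 294931) (nat_lit 3) .nil)))) (.g (nat_lit 0) (.e (nat_lit 349515) (nat_lit 0) .nil) .nil)))) (.nd (nat_lit 9) 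
(.lf (nat_lit 569641) (.g (nat_lit 1753) (.e (nat_lit 466971) (nat_lit 21) (.e (nat_lit 164347) (nat_lit 240) (.e (nat_lit 2638) (nat_lit 165) (.e (nat_lit 180278) (nat_lit 32) (.e (nat_lit 1426) (nat_lit 108) (.e (nat_lit 336444) (nat_lit 32) .nil)))))) (.g (nat_lit 1) (.e (nat_lit 348375) (nat_lit 0) .nil) .nil))) 
(.lf (nat_lit 570153) (.g (nat_lit 3503) (.e (nat_lit 475176) (nat_lit 24) (.e (nat_lit 516117) (nat_lit 1) (.e (nat_lit 164330) (nat_lit 230) (.e (nat_lit 163905) (nat_lit 12) (.e (nat_lit 426566) (nat_lit 34) (.e (nat_lit 393296) (nat_lit 26) .nil)))))) (.g (nat_lit 1) (.e (nat_lit 350410) (nat_lit 0) .nil) .nil))))) (.nd (nat_lit 8) (.nd (nat_lit 9) 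
(.lf (nat_lit 569513) (.g (nat_lit 1373) (.e (nat_lit 466967) (nat_lit 20) (.e (nat_lit 3464) (nat_lit 217) (.e (nat_lit 696344) (nat_lit 8) (.e (nat_lit 172113) (nat_lit 10) (.e (nat_lit 434208) (nat_lit 18) .nil))))) (.g (nat_lit 0) (.e (nat_lit 348138) (nat_lit 0) .nil) .nil))) 
(.lf (nat_lit 570025) (.g (nat_lit 1905) (.e (nat_lit 475171) (nat_lit 22) (.e (nat_lit 499919) (nat_lit 9) (.e (nat_lit 172065) (nat_lit 3) (.e (nat_lit 204837) (nat_lit 20) (.e (nat_lit 122624) (nat_lit 3) .nil))))) (.g (nat_lit 0) (.e (nat_lit 350150) (nat_lit 0) .nil) .nil)))) (.nd (nat_lit 9) 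
(.lf (nat_lit 569769) (.g (nat_lit 701) (.e (nat_lit 466979) (nat_lit 23) (.e (nat_lit 204831) (nat_lit 18) (.e (nat_lit 57691) (nat_lit 156) .nil))) (.g (nat_lit 0) (.e (nat_lit 348953) (nat_lit 0) .nil) .nil))) 
(.lf (nat_lit 570281) (.g (nat_lit 1198) (.e (nat_lit 475177) (nat_lit 24) (.e (nat_lit 516117) (nat_lit 1) (.e (nat_lit 164330) (nat_lit 230) (.e (nat_lit 163936) (nat_lit 18) .nil)))) (.g (nat_lit 0) (.e (nat_lit 350610) (nat_lit 0) .nil) .nil)))))) (.nd (nat_lit 7) (.nd (nat_lit 8) (.nd (nat_lit 9) 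
(.lf (nat_lit 569449) (.g (nat_lit 1262) (.e (nat_lit 474880) (nat_lit 18) (.e (nat_lit 393254) (nat_lit 18) (.e (nat_lit 164325) (nat_lit 230) (.e (nat_lit 163874) (nat_lit 3) (.e (nat_lit 212736) (nat_lit 14) .nil))))) (.g (nat_lit 0) (.e (nat_lit 348043) (nat_lit 0) .nil) .nil))) 
(.lf (nat_lit 569961) (.g (nat_lit 1764) (.e (nat_lit 474880) (nat_lit 23) (.e (nat_lit 204846) (nat_lit 24) (.e (nat_lit 319534) (nat_lit 16) (.e (nat_lit 286735) (nat_lit 3) (.e (nat_lit 98381) (nat_lit 31) .nil))))) (.g (nat_lit 0) (.e (nat_lit 349857) (nat_lit 0) .nil) .nil)))) (.nd (nat_lit 9) 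
(.lf (nat_lit 569705) (.g (nat_lit 1088) (.e (nat_lit 466977) (nat_lit 22) (.e (nat_lit 196681) (nat_lit 17) (.e (nat_lit 131099) (nat_lit 4) .nil))) (.g (nat_lit 0) (.e (nat_lit 348790) (nat_lit 0) .nil) .nil))) 
(.lf (nat_lit 570217) (.g (nat_lit 1065) (.e (nat_lit 475177) (nat_lit 24) (.e (nat_lit 516115) (nat_lit 1) (.e (nat_lit 164324) (nat_lit 230) .nil))) (.g (nat_lit 0) (.e (nat_lit 350527) (nat_lit 0) .nil) .nil))))) (.nd (nat_lit 8) (.nd (nat_lit 9) 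
(.lf (nat_lit 569577) (.g (nat_lit 1755) (.e (nat_lit 466970) (nat_lit 21) (.e (nat_lit 164332) (nat_lit 230) (.e (nat_lit 163880) (nat_lit 4) (.e (nat_lit 213032) (nat_lit 11) .nil)))) (.g (nat_lit 0) (.e (nat_lit 348256) (nat_lit 0) .nil) .nil))) 
(.lf (nat_lit 570089) (.g (nat_lit 2247) (.e (nat_lit 483072) (nat_lit 26) (.e (nat_lit 532544) (nat_lit 10) (.e (nat_lit 344133) (nat_lit 26) (.e (nat_lit 557103) (nat_lit 14) (.e (nat_lit 180250) (nat_lit 10) .nil))))) (.g (nat_lit 0) (.e (nat_lit 350257) (nat_lit 0) .nil) .nil)))) (.nd (nat_lit 9) 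
(.lf (nat_lit 569833) (.g (nat_lit 1860) (.e (nat_lit 466980) (nat_lit 23) (.e (nat_lit 204846) (nat_lit 24) (.e (nat_lit 319528) (nat_lit 16) (.e (nat_lit 286735) (nat_lit 3) (.e (nat_lit 98381) (nat_lit 31) .nil))))) (.g (nat_lit 0) (.e (nat_lit 349311) (nat_lit 0) .nil) .nil))) 
(.lf (nat_lit 570345) (.g (nat_lit 1097) (.e (nat_lit 475177) (nat_lit 24) (.e (nat_lit 516120) (nat_lit 1) (.e (nat_lit 164330) (nat_lit 230) (.e (nat_lit 163902) (nat_lit 12) .nil)))) (.g (nat_lit 0) (.e (nat_lit 350701) (nat_lit 0) .nil) .nil)))))))) (.nd (nat_lit 5) (.nd (nat_lit 6) (.nd (nat_lit 7) (.nd (nat_lit 8) (.nd (nat_lit 9) 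
(.lf (nat_lit 569369) (.g (nat_lit 1567) (.e (nat_lit 474880) (nat_lit 13) (.e (nat_lit 352309) (nat_lit 21) (.e (nat_lit 57848) (nat_lit 252) (.e (nat_lit 57390) (nat_lit 5) (.e (nat_lit 122624) (nat_lit 16) .nil))))) (.g (nat_lit 0) (.e (nat_lit 347936) (nat_lit 0) .nil) .nil))) 
(.lf (nat_lit 569881) (.g (nat_lit 545) (.e (nat_lit 466981) (nat_lit 23) (.e (nat_lit 204845) (nat_lit 24) (.e (nat_lit 319497) (nat_lit 10) .nil))) (.g (nat_lit 0) (.e (nat_lit 349484) (nat_lit 0) .nil) .nil)))) (.nd (nat_lit 9) 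
(.lf (nat_lit 569625) (.g (nat_lit 2575) (.e (nat_lit 466971) (nat_lit 21) (.e (nat_lit 164329) (nat_lit 230) (.e (nat_lit 163885) (nat_lit 5) (.e (nat_lit 221194) (nat_lit 11) (.e (nat_lit 336084) (nat_lit 9) (.e (nat_lit 336443) (nat_lit 32) .nil)))))) (.g (nat_lit 1) (.e (nat_lit 348345) (nat_lit 0) .nil) .nil))) 
(.lf (nat_lit 570137) (.g (nat_lit 2620) (.e (nat_lit 475176) (nat_lit 24) (.e (nat_lit 516115) (nat_lit 1) (.e (nat_lit 164325) (nat_lit 230) (.e (nat_lit 163903) (nat_lit 12) (.e (nat_lit 426566) (nat_lit 34) (.e (nat_lit 393295) (nat_lit 26) .nil)))))) (.g (nat_lit 1) (.e (nat_lit 350386) (nat_lit 0) .nil) .nil))))) (.nd (nat_lit 8) (.nd (nat_lit 9) 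
(.lf (nat_lit 569497) (.g (nat_lit 3243) (.e (nat_lit 466967) (nat_lit 20) (.e (nat_lit 3253) (nat_lit 197) (.e (nat_lit 532523) (nat_lit 7) (.e (nat_lit 319534) (nat_lit 16) (.e (nat_lit 286735) (nat_lit 3) (.e (nat_lit 98380) (nat_lit 31) .nil)))))) (.g (nat_lit 1) (.e (nat_lit 348111) (nat_lit 0) .nil) .nil))) 
(.lf (nat_lit 570009) (.g (nat_lit 2017) (.e (nat_lit 483072) (nat_lit 10) (.e (nat_lit 16461) (nat_lit 12) (.e (nat_lit 475179) (nat_lit 24) (.e (nat_lit 516117) (nat_lit 1) (.e (nat_lit 164332) (nat_lit 230) .nil))))) (.g (nat_lit 0) (.e (nat_lit 349995) (nat_lit 0) .nil) .nil)))) (.nd (nat_lit 9) 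
(.lf (nat_lit 569753) (.g (nat_lit 1319) (.e (nat_lit 466979) (nat_lit 23) (.e (nat_lit 204829) (nat_lit 18) (.e (nat_lit 57688) (nat_lit 156) (.e (nat_lit 163907) (nat_lit 12) .nil)))) (.g (nat_lit 0) (.e (nat_lit 348907) (nat_lit 0) .nil) .nil))) 
(.lf (nat_lit 570265) (.g (nat_lit 2501) (.e (nat_lit 475177) (nat_lit 24) (.e (nat_lit 516117) (nat_lit 1) (.e (nat_lit 164330) (nat_lit 230) (.e (nat_lit 163873) (nat_lit 3) (.e (nat_lit 204837) (nat_lit 20) .nil))))) (.g (nat_lit 0) (.e (nat_lit 350593) (nat_lit 0) .nil) .nil)))))) (.nd (nat_lit 7) (.nd (nat_lit 8) (.nd (nat_lit 9) 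
(.lf (nat_lit 569433) (.g (nat_lit 1140) (.e (nat_lit 474880) (nat_lit 18) (.e (nat_lit 393253) (nat_lit 18) (.e (nat_lit 164326) (nat_lit 230) (.e (nat_lit 163873) (nat_lit 3) (.e (nat_lit 212736) (nat_lit 14) .nil))))) (.g (nat_lit 0) (.e (nat_lit 348027) (nat_lit 0) .nil) .nil))) 
(.lf (nat_lit 569945) (.g (nat_lit 520) (.e (nat_lit 466981) (nat_lit 23) (.e (nat_lit 204862) (nat_lit 27) (.e (nat_lit 344160) (nat_lit 37) .nil))) (.g (nat_lit 0) (.e (nat_lit 349686) (nat_lit 0) .nil) .nil)))) (.nd (nat_lit 9) 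
(.lf (nat_lit 569689) (.g (nat_lit 894) (.e (nat_lit 466976) (nat_lit 22) (.e (nat_lit 196656) (nat_lit 11) (.e (nat_lit 16405) (nat_lit 1) .nil))) (.g (nat_lit 0) (.e (nat_lit 348631) (nat_lit 0) .nil) .nil))) 
(.lf (nat_lit 570201) (.g (nat_lit 2429) (.e (nat_lit 475176) (nat_lit 24) (.e (nat_lit 516176) (nat_lit 14) (.e (nat_lit 466954) (nat_lit 11) (.e (nat_lit 335995) (nat_lit 1) (.e (nat_lit 57655) (nat_lit 152) .nil))))) (.g (nat_lit 0) (.e (nat_lit 350507) (nat_lit 0) .nil) .nil))))) (.nd (nat_lit 8) (.nd (nat_lit 9) 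
(.lf (nat_lit 569561) (.g (nat_lit 1598) (.e (nat_lit 466969) (nat_lit 21) (.e (nat_lit 164332) (nat_lit 230) (.e (nat_lit 163885) (nat_lit 5) (.e (nat_lit 221193) (nat_lit 11) (.e (nat_lit 336150) (nat_lit 9) .nil))))) (.g (nat_lit 0) (.e (nat_lit 348213) (nat_lit 0) .nil) .nil))) 
(.lf (nat_lit 570073) (.g (nat_lit 1094) (.e (nat_lit 483072) (nat_lit 26) (.e (nat_lit 532544) (nat_lit 10) (.e (nat_lit 344132) (nat_lit 26) (.e (nat_lit 557101) (nat_lit 13) .nil)))) (.g (nat_lit 0) (.e (nat_lit 350241) (nat_lit 0) .nil) .nil)))) (.nd (nat_lit 9) 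
(.lf (nat_lit 569817) (.g (nat_lit 1425) (.e (nat_lit 466980) (nat_lit 23) (.e (nat_lit 204845) (nat_lit 24) (.e (nat_lit 319530) (nat_lit 16) (.e (nat_lit 286735) (nat_lit 3) .nil)))) (.g (nat_lit 0) (.e (nat_lit 349293) (nat_lit 0) .nil) .nil))) 
(.lf (nat_lit 570329) (.g (nat_lit 2194) (.e (nat_lit 475177) (nat_lit 24) (.e (nat_lit 516119) (nat_lit 1) (.e (nat_lit 164326) (nat_lit 230) (.e (nat_lit 163903) (nat_lit 12) (.e (nat_lit 426564) (nat_lit 34) .nil))))) (.g (nat_lit 0) (.e (nat_lit 350673) (nat_lit 0) .nil) .nil))))))) (.nd (nat_lit 6) (.nd (nat_lit 7) (.nd (nat_lit 8) (.nd (nat_lit 9) 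
(.lf (nat_lit 569401) (.g (nat_lit 1251) (.e (nat_lit 474880) (nat_lit 16) (.e (nat_lit 376860) (nat_lit 21) (.e (nat_lit 57851) (nat_lit 252) (.e (nat_lit 57389) (nat_lit 5) (.e (nat_lit 122624) (nat_lit 16) .nil))))) (.g (nat_lit 0) (.e (nat_lit 347983) (nat_lit 0) .nil) .nil))) 
(.lf (nat_lit 569913) (.g (nat_lit 1919) (.e (nat_lit 466981) (nat_lit 23) (.e (nat_lit 204846) (nat_lit 24) (.e (nat_lit 319529) (nat_lit 16) (.e (nat_lit 286727) (nat_lit 0) (.e (nat_lit 1799) (nat_lit 119) .nil))))) (.g (nat_lit 0) (.e (nat_lit 349532) (nat_lit 0) .nil) .nil)))) (.nd (nat_lit 9) 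
(.lf (nat_lit 569657) (.g (nat_lit 2595) (.e (nat_lit 466972) (nat_lit 21) (.e (nat_lit 164402) (nat_lit 256) (.e (nat_lit 57440) (nat_lit 18) (.e (nat_lit 385109) (nat_lit 51) (.e (nat_lit 802560) (nat_lit 1) (.e (nat_lit 57927) (nat_lit 282) (.e (nat_lit 163933) (nat_lit 17) .nil))))))) (.g (nat_lit 1) (.e (nat_lit 348452) (nat_lit 0) .nil) .nil))) 
(.lf (nat_lit 570169) (.g (nat_lit 1874) (.e (nat_lit 475176) (nat_lit 24) (.e (nat_lit 516120) (nat_lit 1) (.e (nat_lit 164332) (nat_lit 230) (.e (nat_lit 163902) (nat_lit 12) .nil)))) (.g (nat_lit 0) (.e (nat_lit 350431) (nat_lit 0) .nil) .nil))))) (.nd (nat_lit 8) (.nd (nat_lit 9) 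
(.lf (nat_lit 569529) (.g (nat_lit 797) (.e (nat_lit 466969) (nat_lit 21) (.e (nat_lit 164178) (nat_lit 154) (.e (nat_lit 57390) (nat_lit 5) (.e (nat_lit 122624) (nat_lit 17) .nil)))) (.g (nat_lit 0) (.e (nat_lit 348181) (nat_lit 0) .nil) .nil))) 
(.lf (nat_lit 570041) (.g (nat_lit 1989) (.e (nat_lit 483072) (nat_lit 26) (.e (nat_lit 532544) (nat_lit 10) (.e (nat_lit 344117) (nat_lit 21) (.e (nat_lit 516130) (nat_lit 3) (.e (nat_lit 221198) (nat_lit 20) .nil))))) (.g (nat_lit 0) (.e (nat_lit 350209) (nat_lit 0) .nil) .nil)))) (.nd (nat_lit 9) 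
(.lf (nat_lit 569785) (.g (nat_lit 1812) (.e (nat_lit 466979) (nat_lit 23) (.e (nat_lit 204845) (nat_lit 24) (.e (nat_lit 319534) (nat_lit 16) (.e (nat_lit 286734) (nat_lit 3) .nil)))) (.g (nat_lit 0) (.e (nat_lit 348986) (nat_lit 0) .nil) .nil))) 
(.lf (nat_lit 570297) (.g (nat_lit 2970) (.e (nat_lit 475177) (nat_lit 24) (.e (nat_lit 516118) (nat_lit 1) (.e (nat_lit 164332) (nat_lit 230) (.e (nat_lit 163874) (nat_lit 3) (.e (nat_lit 204838) (nat_lit 20) .nil))))) (.g (nat_lit 0) (.e (nat_lit 350630) (nat_lit 0) .nil) .nil)))))) (.nd (nat_lit 7) (.nd (nat_lit 8) (.nd (nat_lit 9) 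
(.lf (nat_lit 569465) (.g (nat_lit 2382) (.e (nat_lit 466955) (nat_lit 20) (.e (nat_lit 3238) (nat_lit 197) (.e (nat_lit 532523) (nat_lit 7) (.e (nat_lit 319529) (nat_lit 16) (.e (nat_lit 286735) (nat_lit 3) .nil))))) (.g (nat_lit 0) (.e (nat_lit 348059) (nat_lit 0) .nil) .nil))) 
(.lf (nat_lit 569977) (.g (nat_lit 582) (.e (nat_lit 483072) (nat_lit 5) (.e (nat_lit 180251) (nat_lit 10) (.e (nat_lit 573499) (nat_lit 18) .nil))) (.g (nat_lit 0) (.e (nat_lit 349947) (nat_lit 0) .nil) .nil)))) (.nd (nat_lit 9) 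
(.lf (nat_lit 569721) (.g (nat_lit 1353) (.e (nat_lit 466978) (nat_lit 23) (.e (nat_lit 204846) (nat_lit 24) (.e (nat_lit 319528) (nat_lit 16) (.e (nat_lit 286734) (nat_lit 3) .nil)))) (.g (nat_lit 0) (.e (nat_lit 348827) (nat_lit 0) .nil) .nil))) 
(.lf (nat_lit 570233) (.g (nat_lit 1596) (.e (nat_lit 475177) (nat_lit 24) (.e (nat_lit 516115) (nat_lit 1) (.e (nat_lit 164325) (nat_lit 230) (.e (nat_lit 163906) (nat_lit 12) .nil)))) (.g (nat_lit 0) (.e (nat_lit 350546) (nat_lit 0) .nil) .nil))))) (.nd (nat_lit 8) (.nd (nat_lit 9) 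
(.lf (nat_lit 569593) (.g (nat_lit 2307) (.e (nat_lit 466971) (nat_lit 21) (.e (nat_lit 164322) (nat_lit 230) (.e (nat_lit 163885) (nat_lit 5) (.e (nat_lit 221194) (nat_lit 11) (.e (nat_lit 336086) (nat_lit 9) (.e (nat_lit 336444) (nat_lit 32) .nil)))))) (.g (nat_lit 1) (.e (nat_lit 348308) (nat_lit 0) .nil) .nil))) 
(.lf (nat_lit 570105) (.g (nat_lit 2234) (.e (nat_lit 475175) (nat_lit 24) (.e (nat_lit 516119) (nat_lit 1) (.e (nat_lit 164325) (nat_lit 230) (.e (nat_lit 163903) (nat_lit 12) (.e (nat_lit 426481) (nat_lit 27) .nil))))) (.g (nat_lit 0) (.e (nat_lit 350334) (nat_lit 0) .nil) .nil)))) (.nd (nat_lit 9) 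
(.lf (nat_lit 569849) (.g (nat_lit 2014) (.e (nat_lit 466981) (nat_lit 23) (.e (nat_lit 204808) (nat_lit 9) (.e (nat_lit 426107) (nat_lit 1) (.e (nat_lit 164403) (nat_lit 256) (.e (nat_lit 57406) (nat_lit 12) .nil))))) (.g (nat_lit 0) (.e (nat_lit 349382) (nat_lit 0) .nil) .nil))) 
(.lf (nat_lit 570361) (.g (nat_lit 1995) (.e (nat_lit 475177) (nat_lit 24) (.e (nat_lit 516120) (nat_lit 1) (.e (nat_lit 164330) (nat_lit 230) (.e (nat_lit 163905) (nat_lit 12) (.e (nat_lit 426511) (nat_lit 27) .nil))))) (.g (nat_lit 0) (.e (nat_lit 350718) (nat_lit 0) .nil) .nil)))))))))) 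
(.nd (nat_lit 3) (.nd (nat_lit 4) (.nd (nat_lit 5) (.nd (nat_lit 6) (.nd (nat_lit 7) 
(.nd (nat_lit 8) (.nd (nat_lit 9) 
(.lf (nat_lit 569349) (.g (nat_lit 1738) (.e (nat_lit 466954) (nat_lit 11) (.e (nat_lit 336401) (nat_lit 27) (.e (nat_lit 426110) (nat_lit 1) (.e (nat_lit 164398) (nat_lit 256) (.e (nat_lit 57378) (nat_lit 3) .nil))))) (.g (nat_lit 0) (.e (nat_lit 347909) (nat_lit 0) .nil) .nil))) 
(.lf (nat_lit 569861) (.g (nat_lit 2140) (.e (nat_lit 466981) (nat_lit 23) (.e (nat_lit 204829) (nat_lit 18) (.e (nat_lit 57687) (nat_lit 156) (.e (nat_lit 163903) (nat_lit 12) (.e (nat_lit 426479) (nat_lit 27) .nil))))) (.g (nat_lit 0) (.e (nat_lit 349428) (nat_lit 0) .nil) .nil)))) (.nd (nat_lit 9) 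
(.lf (nat_lit 569605) (.g (nat_lit 689) (.e (nat_lit 466971) (nat_lit 21) (.e (nat_lit 164325) (nat_lit 230) (.e (nat_lit 163849) (nat_lit 0) .nil))) (.g (nat_lit 0) (.e (nat_lit 348320) (nat_lit 0) .nil) .nil))) 
(.lf (nat_lit 570117) (.g (nat_lit 2261) (.e (nat_lit 475175) (nat_lit 24) (.e (nat_lit 516120) (nat_lit 1) (.e (nat_lit 164329) (nat_lit 230) (.e (nat_lit 163902) (nat_lit 12) (.e (nat_lit 426568) (nat_lit 34) (.e (nat_lit 393292) (nat_lit 26) .nil)))))) (.g (nat_lit 1) (.e (nat_lit 350356) (nat_lit 0) .nil) .nil))))) (.nd (nat_lit 8) (.nd (nat_lit 9) 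
(.lf (nat_lit 569477) (.g (nat_lit 2455) (.e (nat_lit 466955) (nat_lit 20) (.e (nat_lit 3297) (nat_lit 202) (.e (nat_lit 573471) (nat_lit 11) (.e (nat_lit 16425) (nat_lit 7) (.e (nat_lit 409617) (nat_lit 10) .nil))))) (.g (nat_lit 0) (.e (nat_lit 348077) (nat_lit 0) .nil) .nil))) 
(.lf (nat_lit 569989) (.g (nat_lit 2319) (.e (nat_lit 483072) (nat_lit 8) (.e (nat_lit 1677) (nat_lit 116) (.e (nat_lit 401457) (nat_lit 13) (.e (nat_lit 483413) (nat_lit 27) (.e (nat_lit 401451) (nat_lit 12) .nil))))) (.g (nat_lit 0) (.e (nat_lit 349965) (nat_lit 0) .nil) .nil)))) (.nd (nat_lit 9) 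
(.lf (nat_lit 569733) (.g (nat_lit 1627) (.e (nat_lit 466978) (nat_lit 23) (.e (nat_lit 204846) (nat_lit 24) (.e (nat_lit 319533) (nat_lit 16) (.e (nat_lit 286735) (nat_lit 3) .nil)))) (.g (nat_lit 0) (.e (nat_lit 348844) (nat_lit 0) .nil) .nil))) 
(.lf (nat_lit 570245) (.g (nat_lit 382) (.e (nat_lit 475177) (nat_lit 24) (.e (nat_lit 516115) (nat_lit 1) (.e (nat_lit 164327) (nat_lit 230) .nil))) (.g (nat_lit 0) (.e (nat_lit 350566) (nat_lit 0) .nil) .nil)))))) (.nd (nat_lit 7) (.nd (nat_lit 8) (.nd (nat_lit 9) 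
(.lf (nat_lit 569413) (.g (nat_lit 1325) (.e (nat_lit 474880) (nat_lit 18) (.e (nat_lit 393251) (nat_lit 18) (.e (nat_lit 164331) (nat_lit 230) (.e (nat_lit 163873) (nat_lit 3) .nil)))) (.g (nat_lit 0) (.e (nat_lit 348006) (nat_lit 0) .nil) .nil))) 
(.lf (nat_lit 569925) (.g (nat_lit 2301) (.e (nat_lit 466981) (nat_lit 23) (.e (nat_lit 204846) (nat_lit 24) (.e (nat_lit 319533) (nat_lit 16) (.e (nat_lit 286734) (nat_lit 3) (.e (nat_lit 98382) (nat_lit 31) .nil))))) (.g (nat_lit 0) (.e (nat_lit 349557) (nat_lit 0) .nil) .nil)))) (.nd (nat_lit 9) 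
(.lf (nat_lit 569669) (.g (nat_lit 2464) (.e (nat_lit 466972) (nat_lit 21) (.e (nat_lit 164403) (nat_lit 256) (.e (nat_lit 57400) (nat_lit 10) (.e (nat_lit 319534) (nat_lit 16) (.e (nat_lit 286748) (nat_lit 9) .nil))))) (.g (nat_lit 0) (.e (nat_lit 348468) (nat_lit 0) .nil) .nil))) 
(.lf (nat_lit 570181) (.g (nat_lit 2610) (.e (nat_lit 475176) (nat_lit 24) (.e (nat_lit 516166) (nat_lit 12) (.e (nat_lit 450562) (nat_lit 0) (.e (nat_lit 6416) (nat_lit 341) .nil)))) (.g (nat_lit 0) (.e (nat_lit 350487) (nat_lit 0) .nil) .nil))))) (.nd (nat_lit 8) (.nd (nat_lit 9) 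
(.lf (nat_lit 569541) (.g (nat_lit 1807) (.e (nat_lit 466969) (nat_lit 21) (.e (nat_lit 164325) (nat_lit 230) (.e (nat_lit 163843) (nat_lit 0) (.e (nat_lit 3617) (nat_lit 227) (.e (nat_lit 778462) (nat_lit 11) .nil))))) (.g (nat_lit 0) (.e (nat_lit 348193) (nat_lit 0) .nil) .nil))) 
(.lf (nat_lit 570053) (.g (nat_lit 2181) (.e (nat_lit 483072) (nat_lit 26) (.e (nat_lit 532544) (nat_lit 10) (.e (nat_lit 344129) (nat_lit 26) (.e (nat_lit 557097) (nat_lit 13) (.e (nat_lit 172064) (nat_lit 2) .nil))))) (.g (nat_lit 0) (.e (nat_lit 350221) (nat_lit 0) .nil) .nil)))) (.nd (nat_lit 9) 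
(.lf (nat_lit 569797) (.g (nat_lit 1892) (.e (nat_lit 466979) (nat_lit 23) (.e (nat_lit 204846) (nat_lit 24) (.e (nat_lit 319530) (nat_lit 16) (.e (nat_lit 286734) (nat_lit 3) .nil)))) (.g (nat_lit 0) (.e (nat_lit 349005) (nat_lit 0) .nil) .nil))) 
(.lf (nat_lit 570309) (.g (nat_lit 2727) (.e (nat_lit 475177) (nat_lit 24) (.e (nat_lit 516118) (nat_lit 1) (.e (nat_lit 164332) (nat_lit 230) (.e (nat_lit 163905) (nat_lit 12) (.e (nat_lit 426491) (nat_lit 27) .nil))))) (.g (nat_lit 0) (.e (nat_lit 350644) (nat_lit 0) .nil) .nil))))))) (.nd (nat_lit 6) (.nd (nat_lit 7) (.nd (nat_lit 8) (.nd (nat_lit 9) 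
(.lf (nat_lit 569381) (.g (nat_lit 1301) (.e (nat_lit 474880) (nat_lit 16) (.e (nat_lit 376857) (nat_lit 21) (.e (nat_lit 57849) (nat_lit 252) (.e (nat_lit 57390) (nat_lit 5) (.e (nat_lit 122624) (nat_lit 16) .nil))))) (.g (nat_lit 0) (.e (nat_lit 347961) (nat_lit 0) .nil) .nil))) 
(.lf (nat_lit 569893) (.g (nat_lit 1673) (.e (nat_lit 466981) (nat_lit 23) (.e (nat_lit 204845) (nat_lit 24) (.e (nat_lit 319533) (nat_lit 16) (.e (nat_lit 286720) (nat_lit 0) .nil)))) (.g (nat_lit 0) (.e (nat_lit 349510) (nat_lit 0) .nil) .nil)))) (.nd (nat_lit 9) 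
(.lf (nat_lit 569637) (.g (nat_lit 1516) (.e (nat_lit 466971) (nat_lit 21) (.e (nat_lit 164332) (nat_lit 230) (.e (nat_lit 163885) (nat_lit 5) (.e (nat_lit 221190) (nat_lit 11) .nil)))) (.g (nat_lit 0) (.e (nat_lit 348357) (nat_lit 0) .nil) .nil))) 
(.lf (nat_lit 570149) (.g (nat_lit 365) (.e (nat_lit 475176) (nat_lit 24) (.e (nat_lit 516117) (nat_lit 1) (.e (nat_lit 164330) (nat_lit 230) .nil))) (.g (nat_lit 0) (.e (nat_lit 350406) (nat_lit 0) .nil) .nil))))) (.nd (nat_lit 8) (.nd (nat_lit 9) 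
(.lf (nat_lit 569509) (.g (nat_lit 1286) (.e (nat_lit 466967) (nat_lit 20) (.e (nat_lit 3464) (nat_lit 217) (.e (nat_lit 696343) (nat_lit 8) (.e (nat_lit 172115) (nat_lit 10) (.e (nat_lit 434202) (nat_lit 18) .nil))))) (.g (nat_lit 0) (.e (nat_lit 348134) (nat_lit 0) .nil) .nil))) 
(.lf (nat_lit 570021) (.g (nat_lit 2779) (.e (nat_lit 475169) (nat_lit 22) (.e (nat_lit 499926) (nat_lit 10) (.e (nat_lit 180252) (nat_lit 10) (.e (nat_lit 573482) (nat_lit 13) (.e (nat_lit 65631) (nat_lit 15) (.e (nat_lit 7936) (nat_lit 195) (.e (nat_lit 516179) (nat_lit 15) .nil))))))) (.g (nat_lit 1) (.e (nat_lit 350145) (nat_lit 0) .nil) .nil)))) (.nd (nat_lit 9) 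
(.lf (nat_lit 569765) (.g (nat_lit 781) (.e (nat_lit 466979) (nat_lit 23) (.e (nat_lit 204831) (nat_lit 18) (.e (nat_lit 57686) (nat_lit 156) .nil))) (.g (nat_lit 0) (.e (nat_lit 348948) (nat_lit 0) .nil) .nil))) 
(.lf (nat_lit 570277) (.g (nat_lit 2348) (.e (nat_lit 475177) (nat_lit 24) (.e (nat_lit 516117) (nat_lit 1) (.e (nat_lit 164330) (nat_lit 230) (.e (nat_lit 163905) (nat_lit 12) (.e (nat_lit 426502) (nat_lit 27) (.e (nat_lit 336408) (nat_lit 27) (.e (nat_lit 426306) (nat_lit 12) .nil))))))) (.g (nat_lit 1) (.e (nat_lit 350606) (nat_lit 0) .nil) .nil)))))) 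
(.nd (nat_lit 7) (.nd (nat_lit 8) (.nd (nat_lit 9) 
(.lf (nat_lit 569445) (.g (nat_lit 2096) (.e (nat_lit 474880) (nat_lit 18) (.e (nat_lit 393253) (nat_lit 18) (.e (nat_lit 164402) (nat_lit 256) (.e (nat_lit 57377) (nat_lit 3) (.e (nat_lit 98382) (nat_lit 31) .nil))))) (.g (nat_lit 0) (.e (nat_lit 348039) (nat_lit 0) .nil) .nil))) 
(.lf (nat_lit 569957) (.g (nat_lit 2708) (.e (nat_lit 474880) (nat_lit 23) (.e (nat_lit 204846) (nat_lit 24) (.e (nat_lit 319531) (nat_lit 16) (.e (nat_lit 286735) (nat_lit 3) (.e (nat_lit 98381) (nat_lit 31) .nil))))) (.g (nat_lit 0) (.e (nat_lit 349851) (nat_lit 0) .nil) .nil)))) (.nd (nat_lit 9) 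
(.lf (nat_lit 569701) (.g (nat_lit 2614) (.e (nat_lit 466977) (nat_lit 22) (.e (nat_lit 196681) (nat_lit 17) (.e (nat_lit 131089) (nat_lit 1) (.e (nat_lit 57929) (nat_lit 282) (.e (nat_lit 163850) (nat_lit 0) (.e (nat_lit 7936) (nat_lit 200) (.e (nat_lit 557065) (nat_lit 9) (.e (nat_lit 3044) (nat_lit 189) .nil)))))))) (.g (nat_lit 1) (.e (nat_lit 348778) (nat_lit 0) .nil) .nil))) 
(.lf (nat_lit 570213) (.g (nat_lit 1704) (.e (nat_lit 475177) (nat_lit 24) (.e (nat_lit 516114) (nat_lit 1) (.e (nat_lit 164325) (nat_lit 230) (.e (nat_lit 163904) (nat_lit 12) .nil)))) (.g (nat_lit 0) (.e (nat_lit 350520) (nat_lit 0) .nil) .nil))))) (.nd (nat_lit 8) (.nd (nat_lit 9) 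
(.lf (nat_lit 569573) (.g (nat_lit 1029) (.e (nat_lit 466970) (nat_lit 21) (.e (nat_lit 164327) (nat_lit 230) (.e (nat_lit 163884) (nat_lit 5) (.e (nat_lit 229120) (nat_lit 16) .nil)))) (.g (nat_lit 0) (.e (nat_lit 348252) (nat_lit 0) .nil) .nil))) 
(.lf (nat_lit 570085) (.g (nat_lit 1269) (.e (nat_lit 483072) (nat_lit 26) (.e (nat_lit 532544) (nat_lit 10) (.e (nat_lit 344133) (nat_lit 26) (.e (nat_lit 557103) (nat_lit 14) .nil)))) (.g (nat_lit 0) (.e (nat_lit 350253) (nat_lit 0) .nil) .nil)))) (.nd (nat_lit 9) 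
(.lf (nat_lit 569829) (.g (nat_lit 1499) (.e (nat_lit 466980) (nat_lit 23) (.e (nat_lit 204846) (nat_lit 24) (.e (nat_lit 319505) (nat_lit 10) (.e (nat_lit 5390) (nat_lit 301) .nil)))) (.g (nat_lit 0) (.e (nat_lit 349306) (nat_lit 0) .nil) .nil))) 
(.lf (nat_lit 570341) (.g (nat_lit 274) (.e (nat_lit 475177) (nat_lit 24) (.e (nat_lit 516120) (nat_lit 1) (.e (nat_lit 164305) (nat_lit 226) .nil))) (.g (nat_lit 0) (.e (nat_lit 350693) (nat_lit 0) .nil) .nil)))))))) (.nd (nat_lit 5) (.nd (nat_lit 6) (.nd (nat_lit 7) (.nd (nat_lit 8) (.nd (nat_lit 9) 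
(.lf (nat_lit 569365) (.g (nat_lit 1488) (.e (nat_lit 474880) (nat_lit 13) (.e (nat_lit 352309) (nat_lit 21) (.e (nat_lit 57844) (nat_lit 252) (.e (nat_lit 57389) (nat_lit 5) (.e (nat_lit 122624) (nat_lit 16) .nil))))) (.g (nat_lit 0) (.e (nat_lit 347932) (nat_lit 0) .nil) .nil))) 
(.lf (nat_lit 569877) (.g (nat_lit 830) (.e (nat_lit 466981) (nat_lit 23) (.e (nat_lit 204831) (nat_lit 18) (.e (nat_lit 57692) (nat_lit 156) .nil))) (.g (nat_lit 0) (.e (nat_lit 349479) (nat_lit 0) .nil) .nil)))) (.nd (nat_lit 9) 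
(.lf (nat_lit 569621) (.g (nat_lit 1400) (.e (nat_lit 466971) (nat_lit 21) (.e (nat_lit 164327) (nat_lit 230) (.e (nat_lit 163882) (nat_lit 4) (.e (nat_lit 213032) (nat_lit 11) (.e (nat_lit 24629) (nat_lit 9) .nil))))) (.g (nat_lit 0) (.e (nat_lit 348341) (nat_lit 0) .nil) .nil))) 
(.lf (nat_lit 570133) (.g (nat_lit 380) (.e (nat_lit 475176) (nat_lit 24) (.e (nat_lit 516115) (nat_lit 1) (.e (nat_lit 164325) (nat_lit 230) .nil))) (.g (nat_lit 0) (.e (nat_lit 350382) (nat_lit 0) .nil) .nil))))) (.nd (nat_lit 8) (.nd (nat_lit 9) 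
(.lf (nat_lit 569493) (.g (nat_lit 1919) (.e (nat_lit 466967) (nat_lit 20) (.e (nat_lit 3253) (nat_lit 197) (.e (nat_lit 532523) (nat_lit 7) (.e (nat_lit 319504) (nat_lit 10) (.e (nat_lit 5395) (nat_lit 301) .nil))))) (.g (nat_lit 0) (.e (nat_lit 348107) (nat_lit 0) .nil) .nil))) 
(.lf (nat_lit 570005) (.g (nat_lit 1833) (.e (nat_lit 483072) (nat_lit 10) (.e (nat_lit 16459) (nat_lit 12) (.e (nat_lit 475179) (nat_lit 24) (.e (nat_lit 516120) (nat_lit 1) (.e (nat_lit 164332) (nat_lit 230) .nil))))) (.g (nat_lit 0) (.e (nat_lit 349991) (nat_lit 0) .nil) .nil)))) (.nd (nat_lit 9) 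
(.lf (nat_lit 569749) (.g (nat_lit 2295) (.e (nat_lit 466979) (nat_lit 23) (.e (nat_lit 204829) (nat_lit 18) (.e (nat_lit 57687) (nat_lit 156) (.e (nat_lit 163903) (nat_lit 12) (.e (nat_lit 426479) (nat_lit 27) (.e (nat_lit 336443) (nat_lit 32) .nil)))))) (.g (nat_lit 1) (.e (nat_lit 348901) (nat_lit 0) .nil) .nil))) 
(.lf (nat_lit 570261) (.g (nat_lit 736) (.e (nat_lit 475177) (nat_lit 24) (.e (nat_lit 516117) (nat_lit 1) (.e (nat_lit 164258) (nat_lit 215) .nil))) (.g (nat_lit 0) (.e (nat_lit 350588) (nat_lit 0) .nil) .nil)))))) (.nd (nat_lit 7) (.nd (nat_lit 8) (.nd (nat_lit 9) 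
(.lf (nat_lit 569429) (.g (nat_lit 1510) (.e (nat_lit 474880) (nat_lit 18) (.e (nat_lit 393253) (nat_lit 18) (.e (nat_lit 164325) (nat_lit 230) (.e (nat_lit 163874) (nat_lit 3) (.e (nat_lit 212736) (nat_lit 14) .nil))))) (.g (nat_lit 0) (.e (nat_lit 348023) (nat_lit 0) .nil) .nil))) 
(.lf (nat_lit 569941) (.g (nat_lit 1133) (.e (nat_lit 466981) (nat_lit 23) (.e (nat_lit 204861) (nat_lit 26) (.e (nat_lit 335988) (nat_lit 1) (.e (nat_lit 57927) (nat_lit 282) .nil)))) (.g (nat_lit 0) (.e (nat_lit 349674) (nat_lit 0) .nil) .nil)))) (.nd (nat_lit 9) 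
(.lf (nat_lit 569685) (.g (nat_lit 1924) (.e (nat_lit 466975) (nat_lit 22) (.e (nat_lit 196654) (nat_lit 11) (.e (nat_lit 16407) (nat_lit 1) (.e (nat_lit 164332) (nat_lit 230) (.e (nat_lit 171776) (nat_lit 62) .nil))))) (.g (nat_lit 0) (.e (nat_lit 348598) (nat_lit 0) .nil) .nil))) 
(.lf (nat_lit 570197) (.g (nat_lit 2762) (.e (nat_lit 475176) (nat_lit 24) (.e (nat_lit 516176) (nat_lit 14) (.e (nat_lit 466954) (nat_lit 11) (.e (nat_lit 335986) (nat_lit 1) (.e (nat_lit 57652) (nat_lit 152) .nil))))) (.g (nat_lit 0) (.e (nat_lit 350503) (nat_lit 0) .nil) .nil))))) (.nd (nat_lit 8) (.nd (nat_lit 9) 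
(.lf (nat_lit 569557) (.g (nat_lit 1186) (.e (nat_lit 466969) (nat_lit 21) (.e (nat_lit 164332) (nat_lit 230) (.e (nat_lit 163850) (nat_lit 0) (.e (nat_lit 3614) (nat_lit 226) .nil)))) (.g (nat_lit 0) (.e (nat_lit 348209) (nat_lit 0) .nil) .nil))) 
(.lf (nat_lit 570069) (.g (nat_lit 1852) (.e (nat_lit 483072) (nat_lit 26) (.e (nat_lit 532544) (nat_lit 10) (.e (nat_lit 344131) (nat_lit 26) (.e (nat_lit 557098) (nat_lit 13) (.e (nat_lit 172045) (nat_lit 0) .nil))))) (.g (nat_lit 0) (.e (nat_lit 350237) (nat_lit 0) .nil) .nil)))) (.nd (nat_lit 9) 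
(.lf (nat_lit 569813) (.g (nat_lit 3139) (.e (nat_lit 466980) (nat_lit 23) (.e (nat_lit 204813) (nat_lit 9) (.e (nat_lit 426108) (nat_lit 1) (.e (nat_lit 164330) (nat_lit 230) (.e (nat_lit 171776) (nat_lit 62) .nil))))) (.g (nat_lit 0) (.e (nat_lit 349253) (nat_lit 0) .nil) .nil))) 
(.lf (nat_lit 570325) (.g (nat_lit 1815) (.e (nat_lit 475177) (nat_lit 24) (.e (nat_lit 516119) (nat_lit 1) (.e (nat_lit 164325) (nat_lit 230) (.e (nat_lit 163907) (nat_lit 12) (.e (nat_lit 433920) (nat_lit 34) .nil))))) (.g (nat_lit 0) (.e (nat_lit 350668) (nat_lit 0) .nil) .nil))))))) (.nd (nat_lit 6) (.nd (nat_lit 7) (.nd (nat_lit 8) (.nd (nat_lit 9) 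
(.lf (nat_lit 569397) (.g (nat_lit 1447) (.e (nat_lit 474880) (nat_lit 16) (.e (nat_lit 376859) (nat_lit 21) (.e (nat_lit 57849) (nat_lit 252) (.e (nat_lit 57388) (nat_lit 5) (.e (nat_lit 122624) (nat_lit 16) .nil))))) (.g (nat_lit 0) (.e (nat_lit 347979) (nat_lit 0) .nil) .nil))) 
(.lf (nat_lit 569909) (.g (nat_lit 1735) (.e (nat_lit 466981) (nat_lit 23) (.e (nat_lit 204846) (nat_lit 24) (.e (nat_lit 319528) (nat_lit 16) (.e (nat_lit 286727) (nat_lit 0) (.e (nat_lit 1799) (nat_lit 119) .nil))))) (.g (nat_lit 0) (.e (nat_lit 349527) (nat_lit 0) .nil) .nil)))) (.nd (nat_lit 9) 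
(.lf (nat_lit 569653) (.g (nat_lit 1258) (.e (nat_lit 466972) (nat_lit 21) (.e (nat_lit 164319) (nat_lit 228) (.e (nat_lit 57412) (nat_lit 12) (.e (nat_lit 336176) (nat_lit 10) (.e (nat_lit 344161) (nat_lit 37) (.e (nat_lit 647190) (nat_lit 9) (.e (nat_lit 7936) (nat_lit 37) .nil))))))) (.g (nat_lit 1) (.e (nat_lit 348445) (nat_lit 0) .nil) .nil))) 
(.lf (nat_lit 570165) (.g (nat_lit 2511) (.e (nat_lit 475176) (nat_lit 24) (.e (nat_lit 516119) (nat_lit 1) (.e (nat_lit 164327) (nat_lit 230) (.e (nat_lit 163903) (nat_lit 12) (.e (nat_lit 426566) (nat_lit 34) (.e (nat_lit 393296) (nat_lit 26) .nil)))))) (.g (nat_lit 1) (.e (nat_lit 350426) (nat_lit 0) .nil) .nil))))) (.nd (nat_lit 8) (.nd (nat_lit 9) 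
(.lf (nat_lit 569525) (.g (nat_lit 2551) (.e (nat_lit 466968) (nat_lit 21) (.e (nat_lit 164332) (nat_lit 230) (.e (nat_lit 163885) (nat_lit 5) (.e (nat_lit 221194) (nat_lit 11) (.e (nat_lit 336074) (nat_lit 9) .nil))))) (.g (nat_lit 0) (.e (nat_lit 348153) (nat_lit 0) .nil) .nil))) 
(.lf (nat_lit 570037) (.g (nat_lit 2100) (.e (nat_lit 483072) (nat_lit 26) (.e (nat_lit 532544) (nat_lit 10) (.e (nat_lit 344117) (nat_lit 21) (.e (nat_lit 516123) (nat_lit 2) (.e (nat_lit 213013) (nat_lit 9) .nil))))) (.g (nat_lit 0) (.e (nat_lit 350205) (nat_lit 0) .nil) .nil)))) (.nd (nat_lit 9) 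
(.lf (nat_lit 569781) (.g (nat_lit 3388) (.e (nat_lit 466979) (nat_lit 23) (.e (nat_lit 204845) (nat_lit 24) (.e (nat_lit 319531) (nat_lit 16) (.e (nat_lit 286735) (nat_lit 3) (.e (nat_lit 98380) (nat_lit 31) .nil))))) (.g (nat_lit 1) (.e (nat_lit 348980) (nat_lit 0) .nil) .nil))) 
(.lf (nat_lit 570293) (.g (nat_lit 3165) (.e (nat_lit 475177) (nat_lit 24) (.e (nat_lit 516118) (nat_lit 1) (.e (nat_lit 164326) (nat_lit 230) (.e (nat_lit 163903) (nat_lit 12) (.e (nat_lit 426566) (nat_lit 34) (.e (nat_lit 393291) (nat_lit 26) .nil)))))) (.g (nat_lit 1) (.e (nat_lit 350623) (nat_lit 0) .nil) .nil)))))) (.nd (nat_lit 7) (.nd (nat_lit 8) (.nd (nat_lit 9) 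
(.lf (nat_lit 569461) (.g (nat_lit 1592) (.e (nat_lit 466955) (nat_lit 20) (.e (nat_lit 3238) (nat_lit 197) (.e (nat_lit 532523) (nat_lit 7) (.e (nat_lit 319504) (nat_lit 10) (.e (nat_lit 7936) (nat_lit 304) .nil))))) (.g (nat_lit 0) (.e (nat_lit 348055) (nat_lit 0) .nil) .nil))) 
(.lf (nat_lit 569973) (.g (nat_lit 281) (.e (nat_lit 483072) (nat_lit 5) (.e (nat_lit 180241) (nat_lit 4) (.e (nat_lit 524340) (nat_lit 28) (.e (nat_lit 360192) (nat_lit 17) .nil)))) (.g (nat_lit 0) (.e (nat_lit 349932) (nat_lit 0) .nil) .nil)))) (.nd (nat_lit 9) 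
(.lf (nat_lit 569717) (.g (nat_lit 1855) (.e (nat_lit 466978) (nat_lit 23) (.e (nat_lit 204845) (nat_lit 24) (.e (nat_lit 319534) (nat_lit 16) (.e (nat_lit 286734) (nat_lit 3) .nil)))) (.g (nat_lit 0) (.e (nat_lit 348823) (nat_lit 0) .nil) .nil))) 
(.lf (nat_lit 570229) (.g (nat_lit 3183) (.e (nat_lit 475177) (nat_lit 24) (.e (nat_lit 516115) (nat_lit 1) (.e (nat_lit 164325) (nat_lit 230) (.e (nat_lit 163903) (nat_lit 12) (.e (nat_lit 426564) (nat_lit 34) .nil))))) (.g (nat_lit 0) (.e (nat_lit 350542) (nat_lit 0) .nil) .nil))))) (.nd (nat_lit 8) (.nd (nat_lit 9) 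
(.lf (nat_lit 569589) (.g (nat_lit 2183) (.e (nat_lit 466971) (nat_lit 21) (.e (nat_lit 164322) (nat_lit 230) (.e (nat_lit 163884) (nat_lit 5) (.e (nat_lit 221194) (nat_lit 11) (.e (nat_lit 336086) (nat_lit 9) (.e (nat_lit 336444) (nat_lit 32) .nil)))))) (.g (nat_lit 1) (.e (nat_lit 348304) (nat_lit 0) .nil) .nil))) 
(.lf (nat_lit 570101) (.g (nat_lit 1166) (.e (nat_lit 475175) (nat_lit 24) (.e (nat_lit 516117) (nat_lit 1) (.e (nat_lit 164329) (nat_lit 230) (.e (nat_lit 163904) (nat_lit 12) .nil)))) (.g (nat_lit 0) (.e (nat_lit 350327) (nat_lit 0) .nil) .nil)))) (.nd (nat_lit 9) 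
(.lf (nat_lit 569845) (.g (nat_lit 2681) (.e (nat_lit 466980) (nat_lit 23) (.e (nat_lit 204846) (nat_lit 24) (.e (nat_lit 319534) (nat_lit 16) (.e (nat_lit 286735) (nat_lit 3) (.e (nat_lit 98380) (nat_lit 31) .nil))))) (.g (nat_lit 1) (.e (nat_lit 349349) (nat_lit 0) .nil) .nil))) 
(.lf (nat_lit 570357) (.g (nat_lit 2121) (.e (nat_lit 475177) (nat_lit 24) (.e (nat_lit 516120) (nat_lit 1) (.e (nat_lit 164330) (nat_lit 230) (.e (nat_lit 163905) (nat_lit 12) (.e (nat_lit 426494) (nat_lit 27) (.e (nat_lit 336408) (nat_lit 27) (.e (nat_lit 426306) (nat_lit 12) .nil))))))) (.g (nat_lit 1) (.e (nat_lit 350714) (nat_lit 0) .nil) .nil))))))))) 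
(.nd (nat_lit 4) (.nd (nat_lit 5) (.nd (nat_lit 6) (.nd (nat_lit 7) (.nd (nat_lit 8) 
(.nd (nat_lit 9) 
(.lf (nat_lit 569357) (.g (nat_lit 1385) (.e (nat_lit 474880) (nat_lit 13) (.e (nat_lit 352307) (nat_lit 21) (.e (nat_lit 57849) (nat_lit 252) (.e (nat_lit 57388) (nat_lit 5) (.e (nat_lit 122624) (nat_lit 16) .nil))))) (.g (nat_lit 0) (.e (nat_lit 347924) (nat_lit 0) .nil) .nil))) 
(.lf (nat_lit 569869) (.g (nat_lit 1277) (.e (nat_lit 466981) (nat_lit 23) (.e (nat_lit 204829) (nat_lit 18) (.e (nat_lit 57692) (nat_lit 156) (.e (nat_lit 163913) (nat_lit 12) .nil)))) (.g (nat_lit 0) (.e (nat_lit 349454) (nat_lit 0) .nil) .nil)))) (.nd (nat_lit 9) 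
(.lf (nat_lit 569613) (.g (nat_lit 622) (.e (nat_lit 466971) (nat_lit 21) (.e (nat_lit 164326) (nat_lit 230) (.e (nat_lit 163886) (nat_lit 5) (.e (nat_lit 229120) (nat_lit 13) .nil)))) (.g (nat_lit 0) (.e (nat_lit 348333) (nat_lit 0) .nil) .nil))) 
(.lf (nat_lit 570125) (.g (nat_lit 1397) (.e (nat_lit 475175) (nat_lit 24) (.e (nat_lit 516166) (nat_lit 12) (.e (nat_lit 450560) (nat_lit 0) .nil))) (.g (nat_lit 0) (.e (nat_lit 350374) (nat_lit 0) .nil) .nil))))) (.nd (nat_lit 8) (.nd (nat_lit 9) 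
(.lf (nat_lit 569485) (.g (nat_lit 922) (.e (nat_lit 466960) (nat_lit 20) (.e (nat_lit 3403) (nat_lit 212) (.e (nat_lit 655378) (nat_lit 4) (.e (nat_lit 172125) (nat_lit 14) .nil)))) (.g (nat_lit 0) (.e (nat_lit 348091) (nat_lit 0) .nil) .nil))) 
(.lf (nat_lit 569997) (.g (nat_lit 2178) (.e (nat_lit 483072) (nat_lit 10) (.e (nat_lit 16456) (nat_lit 12) (.e (nat_lit 475179) (nat_lit 24) (.e (nat_lit 516120) (nat_lit 1) (.e (nat_lit 164332) (nat_lit 230) .nil))))) (.g (nat_lit 0) (.e (nat_lit 349983) (nat_lit 0) .nil) .nil)))) (.nd (nat_lit 9) 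
(.lf (nat_lit 569741) (.g (nat_lit 2344) (.e (nat_lit 466979) (nat_lit 23) (.e (nat_lit 204809) (nat_lit 9) (.e (nat_lit 426108) (nat_lit 1) (.e (nat_lit 164402) (nat_lit 256) (.e (nat_lit 57408) (nat_lit 12) .nil))))) (.g (nat_lit 0) (.e (nat_lit 348863) (nat_lit 0) .nil) .nil))) 
(.lf (nat_lit 570253) (.g (nat_lit 1775) (.e (nat_lit 475177) (nat_lit 24) (.e (nat_lit 516115) (nat_lit 1) (.e (nat_lit 164330) (nat_lit 230) (.e (nat_lit 163902) (nat_lit 12) (.e (nat_lit 426566) (nat_lit 34) .nil))))) (.g (nat_lit 0) (.e (nat_lit 350575) (nat_lit 0) .nil) .nil)))))) (.nd (nat_lit 7) (.nd (nat_lit 8) (.nd (nat_lit 9) 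
(.lf (nat_lit 569421) (.g (nat_lit 989) (.e (nat_lit 474880) (nat_lit 18) (.e (nat_lit 393252) (nat_lit 18) (.e (nat_lit 164332) (nat_lit 230) (.e (nat_lit 163873) (nat_lit 3) (.e (nat_lit 212736) (nat_lit 14) .nil))))) (.g (nat_lit 0) (.e (nat_lit 348014) (nat_lit 0) .nil) .nil))) 
(.lf (nat_lit 569933) (.g (nat_lit 2699) (.e (nat_lit 466981) (nat_lit 23) (.e (nat_lit 204846) (nat_lit 24) (.e (nat_lit 319534) (nat_lit 16) (.e (nat_lit 286735) (nat_lit 3) (.e (nat_lit 98382) (nat_lit 31) .nil))))) (.g (nat_lit 0) (.e (nat_lit 349573) (nat_lit 0) .nil) .nil)))) (.nd (nat_lit 9) 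
(.lf (nat_lit 569677) (.g (nat_lit 1720) (.e (nat_lit 466974) (nat_lit 22) (.e (nat_lit 196681) (nat_lit 17) (.e (nat_lit 131089) (nat_lit 1) (.e (nat_lit 57931) (nat_lit 282) (.e (nat_lit 163842) (nat_lit 0) (.e (nat_lit 7936) (nat_lit 200) (.e (nat_lit 557065) (nat_lit 9) (.e (nat_lit 3044) (nat_lit 189) .nil)))))))) (.g (nat_lit 1) (.e (nat_lit 348579) (nat_lit 0) .nil) .nil))) 
(.lf (nat_lit 570189) (.g (nat_lit 2928) (.e (nat_lit 475176) (nat_lit 24) (.e (nat_lit 516166) (nat_lit 12) (.e (nat_lit 450563) (nat_lit 0) (.e (nat_lit 6412) (nat_lit 340) .nil)))) (.g (nat_lit 0) (.e (nat_lit 350495) (nat_lit 0) .nil) .nil))))) (.nd (nat_lit 8) (.nd (nat_lit 9) 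
(.lf (nat_lit 569549) (.g (nat_lit 2929) (.e (nat_lit 466969) (nat_lit 21) (.e (nat_lit 164327) (nat_lit 230) (.e (nat_lit 163881) (nat_lit 4) (.e (nat_lit 213032) (nat_lit 11) (.e (nat_lit 24625) (nat_lit 9) (.e (nat_lit 336443) (nat_lit 32) .nil)))))) (.g (nat_lit 1) (.e (nat_lit 348201) (nat_lit 0) .nil) .nil))) 
(.lf (nat_lit 570061) (.g (nat_lit 1777) (.e (nat_lit 483072) (nat_lit 26) (.e (nat_lit 532544) (nat_lit 10) (.e (nat_lit 344130) (nat_lit 26) (.e (nat_lit 557097) (nat_lit 13) (.e (nat_lit 172063) (nat_lit 2) .nil))))) (.g (nat_lit 0) (.e (nat_lit 350229) (nat_lit 0) .nil) .nil)))) (.nd (nat_lit 9) 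
(.lf (nat_lit 569805) (.g (nat_lit 321) (.e (nat_lit 466979) (nat_lit 23) (.e (nat_lit 204846) (nat_lit 24) (.e (nat_lit 319534) (nat_lit 16) .nil))) (.g (nat_lit 0) (.e (nat_lit 349026) (nat_lit 0) .nil) .nil))) 
(.lf (nat_lit 570317) (.g (nat_lit 2683) (.e (nat_lit 475177) (nat_lit 24) (.e (nat_lit 516118) (nat_lit 1) (.e (nat_lit 164332) (nat_lit 230) (.e (nat_lit 163938) (nat_lit 18) (.e (nat_lit 483072) (nat_lit 10) (.e (nat_lit 16459) (nat_lit 12) .nil)))))) (.g (nat_lit 1) (.e (nat_lit 350652) (nat_lit 0) .nil) .nil))))))) (.nd (nat_lit 6) (.nd (nat_lit 7) (.nd (nat_lit 8) (.nd (nat_lit 9) 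
(.lf (nat_lit 569389) (.g (nat_lit 1545) (.e (nat_lit 474880) (nat_lit 16) (.e (nat_lit 376857) (nat_lit 21) (.e (nat_lit 57854) (nat_lit 252) (.e (nat_lit 57389) (nat_lit 5) (.e (nat_lit 122624) (nat_lit 16) .nil))))) (.g (nat_lit 0) (.e (nat_lit 347971) (nat_lit 0) .nil) .nil))) 
(.lf (nat_lit 569901) (.g (nat_lit 1955) (.e (nat_lit 466981) (nat_lit 23) (.e (nat_lit 204846) (nat_lit 24) (.e (nat_lit 319504) (nat_lit 10) (.e (nat_lit 5389) (nat_lit 301) (.e (nat_lit 57464) (nat_lit 23) .nil))))) (.g (nat_lit 0) (.e (nat_lit 349519) (nat_lit 0) .nil) .nil)))) (.nd (nat_lit 9) 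
(.lf (nat_lit 569645) (.g (nat_lit 837) (.e (nat_lit 466972) (nat_lit 21) (.e (nat_lit 164330) (nat_lit 230) (.e (nat_lit 163843) (nat_lit 0) .nil))) (.g (nat_lit 0) (.e (nat_lit 348437) (nat_lit 0) .nil) .nil))) 
(.lf (nat_lit 570157) (.g (nat_lit 886) (.e (nat_lit 475176) (nat_lit 24) (.e (nat_lit 516118) (nat_lit 1) (.e (nat_lit 164325) (nat_lit 230) (.e (nat_lit 163907) (nat_lit 12) .nil)))) (.g (nat_lit 0) (.e (nat_lit 350418) (nat_lit 0) .nil) .nil))))) (.nd (nat_lit 8) (.nd (nat_lit 9) 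
(.lf (nat_lit 569517) (.g (nat_lit 885) (.e (nat_lit 466968) (nat_lit 21) (.e (nat_lit 164325) (nat_lit 230) (.e (nat_lit 163844) (nat_lit 0) .nil))) (.g (nat_lit 0) (.e (nat_lit 348145) (nat_lit 0) .nil) .nil))) 
(.lf (nat_lit 570029) (.g (nat_lit 1334) (.e (nat_lit 483072) (nat_lit 26) (.e (nat_lit 532535) (nat_lit 9) (.e (nat_lit 336216) (nat_lit 13) (.e (nat_lit 401152) (nat_lit 16) .nil)))) (.g (nat_lit 0) (.e (nat_lit 350189) (nat_lit 0) .nil) .nil)))) (.nd (nat_lit 9) 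
(.lf (nat_lit 569773) (.g (nat_lit 1538) (.e (nat_lit 466979) (nat_lit 23) (.e (nat_lit 204831) (nat_lit 18) (.e (nat_lit 57692) (nat_lit 156) (.e (nat_lit 163907) (nat_lit 12) .nil)))) (.g (nat_lit 0) (.e (nat_lit 348957) (nat_lit 0) .nil) .nil))) 
(.lf (nat_lit 570285) (.g (nat_lit 1944) (.e (nat_lit 475177) (nat_lit 24) (.e (nat_lit 516117) (nat_lit 1) (.e (nat_lit 164332) (nat_lit 230) (.e (nat_lit 163905) (nat_lit 12) (.e (nat_lit 426564) (nat_lit 34) .nil))))) (.g (nat_lit 0) (.e (nat_lit 350614) (nat_lit 0) .nil) .nil)))))) (.nd (nat_lit 7) (.nd (nat_lit 8) (.nd (nat_lit 9) 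
(.lf (nat_lit 569453) (.g (nat_lit 1080) (.e (nat_lit 474880) (nat_lit 18) (.e (nat_lit 393254) (nat_lit 18) (.e (nat_lit 164326) (nat_lit 230) (.e (nat_lit 163875) (nat_lit 3) (.e (nat_lit 212736) (nat_lit 14) .nil))))) (.g (nat_lit 0) (.e (nat_lit 348047) (nat_lit 0) .nil) .nil))) 
(.lf (nat_lit 569965) (.g (nat_lit 1727) (.e (nat_lit 474880) (nat_lit 24) (.e (nat_lit 229663) (nat_lit 240) (.e (nat_lit 2630) (nat_lit 164) (.e (nat_lit 172126) (nat_lit 14) .nil)))) (.g (nat_lit 0) (.e (nat_lit 349878) (nat_lit 0) .nil) .nil)))) (.nd (nat_lit 9) 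
(.lf (nat_lit 569709) (.g (nat_lit 1750) (.e (nat_lit 466978) (nat_lit 23) (.e (nat_lit 204813) (nat_lit 9) (.e (nat_lit 426100) (nat_lit 1) (.e (nat_lit 164399) (nat_lit 256) (.e (nat_lit 57408) (nat_lit 12) .nil))))) (.g (nat_lit 0) (.e (nat_lit 348802) (nat_lit 0) .nil) .nil))) 
(.lf (nat_lit 570221) (.g (nat_lit 2561) (.e (nat_lit 475177) (nat_lit 24) (.e (nat_lit 516115) (nat_lit 1) (.e (nat_lit 164325) (nat_lit 230) (.e (nat_lit 163844) (nat_lit 0) .nil)))) (.g (nat_lit 0) (.e (nat_lit 350534) (nat_lit 0) .nil) .nil))))) (.nd (nat_lit 8) (.nd (nat_lit 9) 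
(.lf (nat_lit 569581) (.g (nat_lit 1071) (.e (nat_lit 466970) (nat_lit 21) (.e (nat_lit 164332) (nat_lit 230) (.e (nat_lit 163884) (nat_lit 5) (.e (nat_lit 229120) (nat_lit 16) .nil)))) (.g (nat_lit 0) (.e (nat_lit 348260) (nat_lit 0) .nil) .nil))) 
(.lf (nat_lit 570093) (.g (nat_lit 2487) (.e (nat_lit 483072) (nat_lit 26) (.e (nat_lit 532544) (nat_lit 10) (.e (nat_lit 344133) (nat_lit 26) (.e (nat_lit 557105) (nat_lit 14) (.e (nat_lit 180251) (nat_lit 10) .nil))))) (.g (nat_lit 0) (.e (nat_lit 350261) (nat_lit 0) .nil) .nil)))) (.nd (nat_lit 9) 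
(.lf (nat_lit 569837) (.g (nat_lit 2699) (.e (nat_lit 466980) (nat_lit 23) (.e (nat_lit 204846) (nat_lit 24) (.e (nat_lit 319531) (nat_lit 16) (.e (nat_lit 286735) (nat_lit 3) (.e (nat_lit 98381) (nat_lit 31) .nil))))) (.g (nat_lit 0) (.e (nat_lit 349322) (nat_lit 0) .nil) .nil))) 
(.lf (nat_lit 570349) (.g (nat_lit 2170) (.e (nat_lit 475177) (nat_lit 24) (.e (nat_lit 516120) (nat_lit 1) (.e (nat_lit 164330) (nat_lit 230) (.e (nat_lit 163902) (nat_lit 12) (.e (nat_lit 426564) (nat_lit 34) .nil))))) (.g (nat_lit 0) (.e (nat_lit 350705) (nat_lit 0) .nil) .nil)))))))) (.nd (nat_lit 5) (.nd (nat_lit 6) (.nd (nat_lit 7) (.nd (nat_lit 8) (.nd (nat_lit 9) 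
(.lf (nat_lit 569373) (.g (nat_lit 2263) (.e (nat_lit 474880) (nat_lit 13) (.e (nat_lit 352309) (nat_lit 21) (.e (nat_lit 57854) (nat_lit 252) (.e (nat_lit 57389) (nat_lit 5) (.e (nat_lit 122624) (nat_lit 16) .nil))))) (.g (nat_lit 0) (.e (nat_lit 347940) (nat_lit 0) .nil) .nil))) 
(.lf (nat_lit 569885) (.g (nat_lit 452) (.e (nat_lit 466981) (nat_lit 23) (.e (nat_lit 204845) (nat_lit 24) (.e (nat_lit 319530) (nat_lit 16) .nil))) (.g (nat_lit 0) (.e (nat_lit 349493) (nat_lit 0) .nil) .nil)))) (.nd (nat_lit 9) 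
(.lf (nat_lit 569629) (.g (nat_lit 552) (.e (nat_lit 466971) (nat_lit 21) (.e (nat_lit 164331) (nat_lit 230) (.e (nat_lit 163885) (nat_lit 5) .nil))) (.g (nat_lit 0) (.e (nat_lit 348349) (nat_lit 0) .nil) .nil))) 
(.lf (nat_lit 570141) (.g (nat_lit 490) (.e (nat_lit 475176) (nat_lit 24) (.e (nat_lit 516115) (nat_lit 1) (.e (nat_lit 164327) (nat_lit 230) .nil))) (.g (nat_lit 0) (.e (nat_lit 350394) (nat_lit 0) .nil) .nil))))) (.nd (nat_lit 8) (.nd (nat_lit 9) 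
(.lf (nat_lit 569501) (.g (nat_lit 398) (.e (nat_lit 466967) (nat_lit 20) (.e (nat_lit 3304) (nat_lit 202) (.e (nat_lit 581376) (nat_lit 11) .nil))) (.g (nat_lit 0) (.e (nat_lit 348116) (nat_lit 0) .nil) .nil))) 
(.lf (nat_lit 570013) (.g (nat_lit 1469) (.e (nat_lit 483072) (nat_lit 16) (.e (nat_lit 2797) (nat_lit 180) (.e (nat_lit 303127) (nat_lit 9) (.e (nat_lit 426506) (nat_lit 27) (.e (nat_lit 336228) (nat_lit 14) .nil))))) (.g (nat_lit 0) (.e (nat_lit 350018) (nat_lit 0) .nil) .nil)))) (.nd (nat_lit 9) 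
(.lf (nat_lit 569757) (.g (nat_lit 1486) (.e (nat_lit 466979) (nat_lit 23) (.e (nat_lit 204829) (nat_lit 18) (.e (nat_lit 57691) (nat_lit 156) (.e (nat_lit 163906) (nat_lit 12) (.e (nat_lit 426479) (nat_lit 27) .nil))))) (.g (nat_lit 0) (.e (nat_lit 348916) (nat_lit 0) .nil) .nil))) 
(.lf (nat_lit 570269) (.g (nat_lit 2819) (.e (nat_lit 475177) (nat_lit 24) (.e (nat_lit 516117) (nat_lit 1) (.e (nat_lit 164330) (nat_lit 230) (.e (nat_lit 163902) (nat_lit 12) (.e (nat_lit 426481) (nat_lit 27) (.e (nat_lit 336388) (nat_lit 27) (.e (nat_lit 426306) (nat_lit 12) .nil))))))) (.g (nat_lit 1) (.e (nat_lit 350597) (nat_lit 0) .nil) .nil)))))) 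
(.nd (nat_lit 7) (.nd (nat_lit 8) (.nd (nat_lit 9) 
(.lf (nat_lit 569437) (.g (nat_lit 1711) (.e (nat_lit 474880) (nat_lit 18) (.e (nat_lit 393253) (nat_lit 18) (.e (nat_lit 164329) (nat_lit 230) (.e (nat_lit 163867) (nat_lit 2) (.e (nat_lit 196622) (nat_lit 9) .nil))))) (.g (nat_lit 0) (.e (nat_lit 348031) (nat_lit 0) .nil) .nil))) 
(.lf (nat_lit 569949) (.g (nat_lit 1325) (.e (nat_lit 474880) (nat_lit 23) (.e (nat_lit 204845) (nat_lit 24) (.e (nat_lit 319534) (nat_lit 16) (.e (nat_lit 286735) (nat_lit 3) .nil)))) (.g (nat_lit 0) (.e (nat_lit 349843) (nat_lit 0) .nil) .nil)))) (.nd (nat_lit 9) 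
(.lf (nat_lit 569693) (.g (nat_lit 687) (.e (nat_lit 466977) (nat_lit 22) (.e (nat_lit 196656) (nat_lit 11) (.e (nat_lit 16408) (nat_lit 1) .nil))) (.g (nat_lit 0) (.e (nat_lit 348672) (nat_lit 0) .nil) .nil))) 
(.lf (nat_lit 570205) (.g (nat_lit 2738) (.e (nat_lit 475176) (nat_lit 24) (.e (nat_lit 516179) (nat_lit 15) (.e (nat_lit 475177) (nat_lit 24) (.e (nat_lit 516180) (nat_lit 15) (.e (nat_lit 475177) (nat_lit 24) (.e (nat_lit 516181) (nat_lit 15) .nil)))))) (.g (nat_lit 1) (.e (nat_lit 350512) (nat_lit 0) .nil) .nil))))) (.nd (nat_lit 8) (.nd (nat_lit 9) 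
(.lf (nat_lit 569565) (.g (nat_lit 901) (.e (nat_lit 466970) (nat_lit 21) (.e (nat_lit 164179) (nat_lit 154) (.e (nat_lit 57389) (nat_lit 5) .nil))) (.g (nat_lit 0) (.e (nat_lit 348244) (nat_lit 0) .nil) .nil))) 
(.lf (nat_lit 570077) (.g (nat_lit 1722) (.e (nat_lit 483072) (nat_lit 26) (.e (nat_lit 532544) (nat_lit 10) (.e (nat_lit 344132) (nat_lit 26) (.e (nat_lit 557101) (nat_lit 13) (.e (nat_lit 172064) (nat_lit 2) .nil))))) (.g (nat_lit 0) (.e (nat_lit 350245) (nat_lit 0) .nil) .nil)))) (.nd (nat_lit 9) 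
(.lf (nat_lit 569821) (.g (nat_lit 2637) (.e (nat_lit 466980) (nat_lit 23) (.e (nat_lit 204845) (nat_lit 24) (.e (nat_lit 319531) (nat_lit 16) (.e (nat_lit 286735) (nat_lit 3) (.e (nat_lit 98380) (nat_lit 31) .nil))))) (.g (nat_lit 0) (.e (nat_lit 349298) (nat_lit 0) .nil) .nil))) 
(.lf (nat_lit 570333) (.g (nat_lit 1402) (.e (nat_lit 475177) (nat_lit 24) (.e (nat_lit 516119) (nat_lit 1) (.e (nat_lit 164327) (nat_lit 230) (.e (nat_lit 163901) (nat_lit 12) .nil)))) (.g (nat_lit 0) (.e (nat_lit 350678) (nat_lit 0) .nil) .nil))))))) (.nd (nat_lit 6) (.nd (nat_lit 7) (.nd (nat_lit 8) (.nd (nat_lit 9) 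
(.lf (nat_lit 569405) (.g (nat_lit 1759) (.e (nat_lit 474880) (nat_lit 16) (.e (nat_lit 376860) (nat_lit 21) (.e (nat_lit 57853) (nat_lit 252) (.e (nat_lit 57389) (nat_lit 5) (.e (nat_lit 122624) (nat_lit 16) .nil))))) (.g (nat_lit 0) (.e (nat_lit 347988) (nat_lit 0) .nil) .nil))) 
(.lf (nat_lit 569917) (.g (nat_lit 2412) (.e (nat_lit 466981) (nat_lit 23) (.e (nat_lit 204846) (nat_lit 24) (.e (nat_lit 319530) (nat_lit 16) (.e (nat_lit 286735) (nat_lit 3) (.e (nat_lit 98379) (nat_lit 31) .nil))))) (.g (nat_lit 0) (.e (nat_lit 349539) (nat_lit 0) .nil) .nil)))) (.nd (nat_lit 9) 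
(.lf (nat_lit 569661) (.g (nat_lit 1937) (.e (nat_lit 466972) (nat_lit 21) (.e (nat_lit 164403) (nat_lit 256) (.e (nat_lit 57400) (nat_lit 10) (.e (nat_lit 319504) (nat_lit 10) (.e (nat_lit 5405) (nat_lit 302) .nil))))) (.g (nat_lit 0) (.e (nat_lit 348460) (nat_lit 0) .nil) .nil))) 
(.lf (nat_lit 570173) (.g (nat_lit 1287) (.e (nat_lit 475176) (nat_lit 24) (.e (nat_lit 516145) (nat_lit 9) (.e (nat_lit 426438) (nat_lit 18) (.e (nat_lit 98385) (nat_lit 32) .nil)))) (.g (nat_lit 0) (.e (nat_lit 350437) (nat_lit 0) .nil) .nil))))) (.nd (nat_lit 8) (.nd (nat_lit 9) 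
(.lf (nat_lit 569533) (.g (nat_lit 2450) (.e (nat_lit 466969) (nat_lit 21) (.e (nat_lit 164322) (nat_lit 230) (.e (nat_lit 163884) (nat_lit 5) (.e (nat_lit 221194) (nat_lit 11) (.e (nat_lit 336084) (nat_lit 9) (.e (nat_lit 336443) (nat_lit 32) .nil)))))) (.g (nat_lit 1) (.e (nat_lit 348185) (nat_lit 0) .nil) .nil))) 
(.lf (nat_lit 570045) (.g (nat_lit 470) (.e (nat_lit 483072) (nat_lit 26) (.e (nat_lit 532544) (nat_lit 10) (.e (nat_lit 344118) (nat_lit 21) .nil))) (.g (nat_lit 0) (.e (nat_lit 350213) (nat_lit 0) .nil) .nil)))) (.nd (nat_lit 9) 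
(.lf (nat_lit 569789) (.g (nat_lit 1781) (.e (nat_lit 466979) (nat_lit 23) (.e (nat_lit 204846) (nat_lit 24) (.e (nat_lit 319505) (nat_lit 10) (.e (nat_lit 5395) (nat_lit 301) .nil)))) (.g (nat_lit 0) (.e (nat_lit 348991) (nat_lit 0) .nil) .nil))) 
(.lf (nat_lit 570301) (.g (nat_lit 2362) (.e (nat_lit 475177) (nat_lit 24) (.e (nat_lit 516118) (nat_lit 1) (.e (nat_lit 164332) (nat_lit 230) (.e (nat_lit 163902) (nat_lit 12) (.e (nat_lit 426481) (nat_lit 27) (.e (nat_lit 336388) (nat_lit 27) (.e (nat_lit 426306) (nat_lit 12) .nil))))))) (.g (nat_lit 1) (.e (nat_lit 350634) (nat_lit 0) .nil) .nil)))))) 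
(.nd (nat_lit 7) (.nd (nat_lit 8) (.nd (nat_lit 9) 
(.lf (nat_lit 569469) (.g (nat_lit 2416) (.e (nat_lit 466955) (nat_lit 20) (.e (nat_lit 3238) (nat_lit 197) (.e (nat_lit 532523) (nat_lit 7) (.e (nat_lit 319532) (nat_lit 16) (.e (nat_lit 286735) (nat_lit 3) .nil))))) (.g (nat_lit 0) (.e (nat_lit 348063) (nat_lit 0) .nil) .nil))) 
(.lf (nat_lit 569981) (.g (nat_lit 1965) (.e (nat_lit 483072) (nat_lit 5) (.e (nat_lit 180252) (nat_lit 10) (.e (nat_lit 573503) (nat_lit 18) (.e (nat_lit 1368) (nat_lit 103) (.e (nat_lit 294946) (nat_lit 9) .nil))))) (.g (nat_lit 0) (.e (nat_lit 349954) (nat_lit 0) .nil) .nil)))) (.nd (nat_lit 9) 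
(.lf (nat_lit 569725) (.g (nat_lit 2311) (.e (nat_lit 466978) (nat_lit 23) (.e (nat_lit 204846) (nat_lit 24) (.e (nat_lit 319529) (nat_lit 16) (.e (nat_lit 286735) (nat_lit 3) (.e (nat_lit 98381) (nat_lit 31) .nil))))) (.g (nat_lit 0) (.e (nat_lit 348831) (nat_lit 0) .nil) .nil))) 
(.lf (nat_lit 570237) (.g (nat_lit 2592) (.e (nat_lit 475177) (nat_lit 24) (.e (nat_lit 516115) (nat_lit 1) (.e (nat_lit 164325) (nat_lit 230) (.e (nat_lit 163907) (nat_lit 12) (.e (nat_lit 426566) (nat_lit 34) (.e (nat_lit 393292) (nat_lit 26) .nil)))))) (.g (nat_lit 1) (.e (nat_lit 350550) (nat_lit 0) .nil) .nil))))) (.nd (nat_lit 8) (.nd (nat_lit 9) 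
(.lf (nat_lit 569597) (.g (nat_lit 2300) (.e (nat_lit 466971) (nat_lit 21) (.e (nat_lit 164324) (nat_lit 230) (.e (nat_lit 163884) (nat_lit 5) (.e (nat_lit 221194) (nat_lit 11) (.e (nat_lit 336087) (nat_lit 9) (.e (nat_lit 336444) (nat_lit 32) .nil)))))) (.g (nat_lit 1) (.e (nat_lit 348312) (nat_lit 0) .nil) .nil))) 
(.lf (nat_lit 570109) (.g (nat_lit 1546) (.e (nat_lit 475175) (nat_lit 24) (.e (nat_lit 516119) (nat_lit 1) (.e (nat_lit 164325) (nat_lit 230) (.e (nat_lit 163905) (nat_lit 12) (.e (nat_lit 426566) (nat_lit 34) .nil))))) (.g (nat_lit 0) (.e (nat_lit 350338) (nat_lit 0) .nil) .nil)))) (.nd (nat_lit 9) 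
(.lf (nat_lit 569853) (.g (nat_lit 2116) (.e (nat_lit 466981) (nat_lit 23) (.e (nat_lit 204809) (nat_lit 9) (.e (nat_lit 426107) (nat_lit 1) (.e (nat_lit 164403) (nat_lit 256) (.e (nat_lit 57405) (nat_lit 12) .nil))))) (.g (nat_lit 0) (.e (nat_lit 349386) (nat_lit 0) .nil) .nil))) 
(.lf (nat_lit 570365) (.g (nat_lit 1615) (.e (nat_lit 475177) (nat_lit 24) (.e (nat_lit 516120) (nat_lit 1) (.e (nat_lit 164332) (nat_lit 230) (.e (nat_lit 163905) (nat_lit 12) (.e (nat_lit 426481) (nat_lit 27) .nil))))) (.g (nat_lit 0) (.e (nat_lit 350724) (nat_lit 0) .nil) .nil))))))))))) 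
(.nd (nat_lit 2) (.nd (nat_lit 3) (.nd (nat_lit 4) (.nd (nat_lit 5) (.nd (nat_lit 6) 
(.nd (nat_lit 7) (.nd (nat_lit 8) (.nd (nat_lit 9) 
(.lf (nat_lit 569347) (.g (nat_lit 1368) (.e (nat_lit 466954) (nat_lit 11) (.e (nat_lit 336387) (nat_lit 27) (.e (nat_lit 426108) (nat_lit 1) (.e (nat_lit 164401) (nat_lit 256) (.e (nat_lit 57377) (nat_lit 3) .nil))))) (.g (nat_lit 0) (.e (nat_lit 347907) (nat_lit 0) .nil) .nil))) 
(.lf (nat_lit 569859) (.g (nat_lit 2973) (.e (nat_lit 466981) (nat_lit 23) (.e (nat_lit 204813) (nat_lit 9) (.e (nat_lit 426108) (nat_lit 1) (.e (nat_lit 164330) (nat_lit 230) (.e (nat_lit 171776) (nat_lit 62) .nil))))) (.g (nat_lit 0) (.e (nat_lit 349392) (nat_lit 0) .nil) .nil)))) (.nd (nat_lit 9) 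
(.lf (nat_lit 569603) (.g (nat_lit 1087) (.e (nat_lit 466971) (nat_lit 21) (.e (nat_lit 164325) (nat_lit 230) (.e (nat_lit 163844) (nat_lit 0) (.e (nat_lit 3616) (nat_lit 226) .nil)))) (.g (nat_lit 0) (.e (nat_lit 348318) (nat_lit 0) .nil) .nil))) 
(.lf (nat_lit 570115) (.g (nat_lit 875) (.e (nat_lit 475175) (nat_lit 24) (.e (nat_lit 516119) (nat_lit 1) (.e (nat_lit 164331) (nat_lit 230) .nil))) (.g (nat_lit 0) (.e (nat_lit 350352) (nat_lit 0) .nil) .nil))))) (.nd (nat_lit 8) (.nd (nat_lit 9) 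
(.lf (nat_lit 569475) (.g (nat_lit 2441) (.e (nat_lit 466955) (nat_lit 20) (.e (nat_lit 3272) (nat_lit 199) (.e (nat_lit 548913) (nat_lit 18) (.e (nat_lit 172126) (nat_lit 14) (.e (nat_lit 491540) (nat_lit 3) .nil))))) (.g (nat_lit 0) (.e (nat_lit 348075) (nat_lit 0) .nil) .nil))) 
(.lf (nat_lit 569987) (.g (nat_lit 1297) (.e (nat_lit 483072) (nat_lit 8) (.e (nat_lit 1674) (nat_lit 116) (.e (nat_lit 401456) (nat_lit 13) (.e (nat_lit 483413) (nat_lit 27) .nil)))) (.g (nat_lit 0) (.e (nat_lit 349963) (nat_lit 0) .nil) .nil)))) (.nd (nat_lit 9) 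
(.lf (nat_lit 569731) (.g (nat_lit 1638) (.e (nat_lit 466978) (nat_lit 23) (.e (nat_lit 204846) (nat_lit 24) (.e (nat_lit 319533) (nat_lit 16) (.e (nat_lit 286724) (nat_lit 0) .nil)))) (.g (nat_lit 0) (.e (nat_lit 348842) (nat_lit 0) .nil) .nil))) 
(.lf (nat_lit 570243) (.g (nat_lit 931) (.e (nat_lit 475177) (nat_lit 24) (.e (nat_lit 516115) (nat_lit 1) (.e (nat_lit 164326) (nat_lit 230) .nil))) (.g (nat_lit 0) (.e (nat_lit 350563) (nat_lit 0) .nil) .nil)))))) (.nd (nat_lit 7) (.nd (nat_lit 8) (.nd (nat_lit 9) 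
(.lf (nat_lit 569411) (.g (nat_lit 1421) (.e (nat_lit 474880) (nat_lit 18) (.e (nat_lit 393251) (nat_lit 18) (.e (nat_lit 164325) (nat_lit 230) (.e (nat_lit 163875) (nat_lit 3) (.e (nat_lit 212736) (nat_lit 14) .nil))))) (.g (nat_lit 0) (.e (nat_lit 348004) (nat_lit 0) .nil) .nil))) 
(.lf (nat_lit 569923) (.g (nat_lit 2004) (.e (nat_lit 466981) (nat_lit 23) (.e (nat_lit 204846) (nat_lit 24) (.e (nat_lit 319533) (nat_lit 16) (.e (nat_lit 286727) (nat_lit 0) .nil)))) (.g (nat_lit 0) (.e (nat_lit 349551) (nat_lit 0) .nil) .nil)))) (.nd (nat_lit 9) 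
(.lf (nat_lit 569667) (.g (nat_lit 2088) (.e (nat_lit 466972) (nat_lit 21) (.e (nat_lit 164403) (nat_lit 256) (.e (nat_lit 57400) (nat_lit 10) (.e (nat_lit 319533) (nat_lit 16) (.e (nat_lit 286746) (nat_lit 9) .nil))))) (.g (nat_lit 0) (.e (nat_lit 348466) (nat_lit 0) .nil) .nil))) 
(.lf (nat_lit 570179) (.g (nat_lit 2110) (.e (nat_lit 475176) (nat_lit 24) (.e (nat_lit 516163) (nat_lit 11) (.e (nat_lit 442421) (nat_lit 21) (.e (nat_lit 164178) (nat_lit 154) .nil)))) (.g (nat_lit 0) (.e (nat_lit 350485) (nat_lit 0) .nil) .nil))))) (.nd (nat_lit 8) (.nd (nat_lit 9) 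
(.lf (nat_lit 569539) (.g (nat_lit 1245) (.e (nat_lit 466969) (nat_lit 21) (.e (nat_lit 164324) (nat_lit 230) (.e (nat_lit 163885) (nat_lit 5) (.e (nat_lit 229120) (nat_lit 13) .nil)))) (.g (nat_lit 0) (.e (nat_lit 348191) (nat_lit 0) .nil) .nil))) 
(.lf (nat_lit 570051) (.g (nat_lit 867) (.e (nat_lit 483072) (nat_lit 26) (.e (nat_lit 532544) (nat_lit 10) (.e (nat_lit 344127) (nat_lit 26) (.e (nat_lit 557104) (nat_lit 14) .nil)))) (.g (nat_lit 0) (.e (nat_lit 350219) (nat_lit 0) .nil) .nil)))) (.nd (nat_lit 9) 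
(.lf (nat_lit 569795) (.g (nat_lit 1864) (.e (nat_lit 466979) (nat_lit 23) (.e (nat_lit 204846) (nat_lit 24) (.e (nat_lit 319528) (nat_lit 16) (.e (nat_lit 286735) (nat_lit 3) (.e (nat_lit 98382) (nat_lit 31) .nil))))) (.g (nat_lit 0) (.e (nat_lit 348998) (nat_lit 0) .nil) .nil))) 
(.lf (nat_lit 570307) (.g (nat_lit 2648) (.e (nat_lit 475177) (nat_lit 24) (.e (nat_lit 516118) (nat_lit 1) (.e (nat_lit 164332) (nat_lit 230) (.e (nat_lit 163905) (nat_lit 12) (.e (nat_lit 426481) (nat_lit 27) (.e (nat_lit 336386) (nat_lit 27) (.e (nat_lit 426306) (nat_lit 12) .nil))))))) (.g (nat_lit 1) (.e (nat_lit 350642) (nat_lit 0) .nil) .nil))))))) 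
(.nd (nat_lit 6) (.nd (nat_lit 7) (.nd (nat_lit 8) (.nd (nat_lit 9) 
(.lf (nat_lit 569379) (.g (nat_lit 645) (.e (nat_lit 474880) (nat_lit 16) (.e (nat_lit 376857) (nat_lit 21) (.e (nat_lit 57848) (nat_lit 252) (.e (nat_lit 57390) (nat_lit 5) (.e (nat_lit 122624) (nat_lit 16) .nil))))) (.g (nat_lit 0) (.e (nat_lit 347959) (nat_lit 0) .nil) .nil))) 
(.lf (nat_lit 569891) (.g (nat_lit 1239) (.e (nat_lit 466981) (nat_lit 23) (.e (nat_lit 204845) (nat_lit 24) (.e (nat_lit 319531) (nat_lit 16) (.e (nat_lit 286734) (nat_lit 3) .nil)))) (.g (nat_lit 0) (.e (nat_lit 349506) (nat_lit 0) .nil) .nil)))) (.nd (nat_lit 9) 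
(.lf (nat_lit 569635) (.g (nat_lit 1006) (.e (nat_lit 466971) (nat_lit 21) (.e (nat_lit 164332) (nat_lit 230) (.e (nat_lit 163884) (nat_lit 5) (.e (nat_lit 229120) (nat_lit 13) .nil)))) (.g (nat_lit 0) (.e (nat_lit 348355) (nat_lit 0) .nil) .nil))) 
(.lf (nat_lit 570147) (.g (nat_lit 1604) (.e (nat_lit 475176) (nat_lit 24) (.e (nat_lit 516116) (nat_lit 1) (.e (nat_lit 164330) (nat_lit 230) (.e (nat_lit 163902) (nat_lit 12) .nil)))) (.g (nat_lit 0) (.e (nat_lit 350401) (nat_lit 0) .nil) .nil))))) (.nd (nat_lit 8) (.nd (nat_lit 9) 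
(.lf (nat_lit 569507) (.g (nat_lit 1164) (.e (nat_lit 466967) (nat_lit 20) (.e (nat_lit 3305) (nat_lit 202) (.e (nat_lit 573477) (nat_lit 12) (.e (nat_lit 65280) (nat_lit 55) .nil)))) (.g (nat_lit 0) (.e (nat_lit 348124) (nat_lit 0) .nil) .nil))) 
(.lf (nat_lit 570019) (.g (nat_lit 2250) (.e (nat_lit 475161) (nat_lit 21) (.e (nat_lit 7280) (nat_lit 386) (.e (nat_lit 163875) (nat_lit 3) (.e (nat_lit 204830) (nat_lit 18) (.e (nat_lit 57852) (nat_lit 252) .nil))))) (.g (nat_lit 0) (.e (nat_lit 350137) (nat_lit 0) .nil) .nil)))) (.nd (nat_lit 9) 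
(.lf (nat_lit 569763) (.g (nat_lit 2169) (.e (nat_lit 466979) (nat_lit 23) (.e (nat_lit 204830) (nat_lit 18) (.e (nat_lit 57692) (nat_lit 156) (.e (nat_lit 163905) (nat_lit 12) (.e (nat_lit 426484) (nat_lit 27) .nil))))) (.g (nat_lit 0) (.e (nat_lit 348943) (nat_lit 0) .nil) .nil))) 
(.lf (nat_lit 570275) (.g (nat_lit 1971) (.e (nat_lit 475177) (nat_lit 24) (.e (nat_lit 516117) (nat_lit 1) (.e (nat_lit 164330) (nat_lit 230) (.e (nat_lit 163905) (nat_lit 12) (.e (nat_lit 426495) (nat_lit 27) .nil))))) (.g (nat_lit 0) (.e (nat_lit 350604) (nat_lit 0) .nil) .nil)))))) (.nd (nat_lit 7) (.nd (nat_lit 8) (.nd (nat_lit 9) 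
(.lf (nat_lit 569443) (.g (nat_lit 1933) (.e (nat_lit 474880) (nat_lit 18) (.e (nat_lit 393253) (nat_lit 18) (.e (nat_lit 164332) (nat_lit 230) (.e (nat_lit 163874) (nat_lit 3) (.e (nat_lit 212736) (nat_lit 14) .nil))))) (.g (nat_lit 0) (.e (nat_lit 348037) (nat_lit 0) .nil) .nil))) 
(.lf (nat_lit 569955) (.g (nat_lit 2659) (.e (nat_lit 474880) (nat_lit 23) (.e (nat_lit 204846) (nat_lit 24) (.e (nat_lit 319530) (nat_lit 16) (.e (nat_lit 286735) (nat_lit 3) (.e (nat_lit 98381) (nat_lit 31) .nil))))) (.g (nat_lit 0) (.e (nat_lit 349849) (nat_lit 0) .nil) .nil)))) (.nd (nat_lit 9) 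
(.lf (nat_lit 569699) (.g (nat_lit 361) (.e (nat_lit 466977) (nat_lit 22) (.e (nat_lit 196681) (nat_lit 17) (.e (nat_lit 131088) (nat_lit 1) .nil))) (.g (nat_lit 0) (.e (nat_lit 348763) (nat_lit 0) .nil) .nil))) 
(.lf (nat_lit 570211) (.g (nat_lit 738) (.e (nat_lit 475177) (nat_lit 24) (.e (nat_lit 516097) (nat_lit 0) (.e (nat_lit 2399) (nat_lit 157) (.e (nat_lit 5172) (nat_lit 292) (.e (nat_lit 2619) (nat_lit 164) .nil))))) (.g (nat_lit 0) (.e (nat_lit 350518) (nat_lit 0) .nil) .nil))))) (.nd (nat_lit 8) (.nd (nat_lit 9) 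
(.lf (nat_lit 569571) (.g (nat_lit 595) (.e (nat_lit 466970) (nat_lit 21) (.e (nat_lit 164325) (nat_lit 230) (.e (nat_lit 163886) (nat_lit 5) .nil))) (.g (nat_lit 0) (.e (nat_lit 348250) (nat_lit 0) .nil) .nil))) 
(.lf (nat_lit 570083) (.g (nat_lit 2371) (.e (nat_lit 483072) (nat_lit 26) (.e (nat_lit 532544) (nat_lit 10) (.e (nat_lit 344133) (nat_lit 26) (.e (nat_lit 557098) (nat_lit 13) (.e (nat_lit 172063) (nat_lit 2) .nil))))) (.g (nat_lit 0) (.e (nat_lit 350251) (nat_lit 0) .nil) .nil)))) (.nd (nat_lit 9) 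
(.lf (nat_lit 569827) (.g (nat_lit 1863) (.e (nat_lit 466980) (nat_lit 23) (.e (nat_lit 204846) (nat_lit 24) (.e (nat_lit 319504) (nat_lit 10) (.e (nat_lit 5418) (nat_lit 304) .nil)))) (.g (nat_lit 0) (.e (nat_lit 349304) (nat_lit 0) .nil) .nil))) 
(.lf (nat_lit 570339) (.g (nat_lit 1721) (.e (nat_lit 475177) (nat_lit 24) (.e (nat_lit 516119) (nat_lit 1) (.e (nat_lit 164332) (nat_lit 230) (.e (nat_lit 163904) (nat_lit 12) (.e (nat_lit 426566) (nat_lit 34) .nil))))) (.g (nat_lit 0) (.e (nat_lit 350688) (nat_lit 0) .nil) .nil)))))))) (.nd (nat_lit 5) (.nd (nat_lit 6) (.nd (nat_lit 7) (.nd (nat_lit 8) (.nd (nat_lit 9) 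
(.lf (nat_lit 569363) (.g (nat_lit 1475) (.e (nat_lit 474880) (nat_lit 13) (.e (nat_lit 352308) (nat_lit 21) (.e (nat_lit 57854) (nat_lit 252) (.e (nat_lit 57389) (nat_lit 5) (.e (nat_lit 122624) (nat_lit 16) .nil))))) (.g (nat_lit 0) (.e (nat_lit 347930) (nat_lit 0) .nil) .nil))) 
(.lf (nat_lit 569875) (.g (nat_lit 2321) (.e (nat_lit 466981) (nat_lit 23) (.e (nat_lit 204831) (nat_lit 18) (.e (nat_lit 57688) (nat_lit 156) (.e (nat_lit 163902) (nat_lit 12) (.e (nat_lit 426479) (nat_lit 27) .nil))))) (.g (nat_lit 0) (.e (nat_lit 349476) (nat_lit 0) .nil) .nil)))) (.nd (nat_lit 9) 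
(.lf (nat_lit 569619) (.g (nat_lit 2918) (.e (nat_lit 466971) (nat_lit 21) (.e (nat_lit 164327) (nat_lit 230) (.e (nat_lit 163881) (nat_lit 4) (.e (nat_lit 213032) (nat_lit 11) (.e (nat_lit 24625) (nat_lit 9) (.e (nat_lit 336443) (nat_lit 32) .nil)))))) (.g (nat_lit 1) (.e (nat_lit 348339) (nat_lit 0) .nil) .nil))) 
(.lf (nat_lit 570131) (.g (nat_lit 2507) (.e (nat_lit 475175) (nat_lit 24) (.e (nat_lit 516179) (nat_lit 15) (.e (nat_lit 475177) (nat_lit 24) (.e (nat_lit 516150) (nat_lit 9) (.e (nat_lit 426438) (nat_lit 18) .nil))))) (.g (nat_lit 0) (.e (nat_lit 350380) (nat_lit 0) .nil) .nil))))) (.nd (nat_lit 8) (.nd (nat_lit 9) 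
(.lf (nat_lit 569491) (.g (nat_lit 1541) (.e (nat_lit 466967) (nat_lit 20) (.e (nat_lit 3253) (nat_lit 197) (.e (nat_lit 532522) (nat_lit 7) (.e (nat_lit 319531) (nat_lit 16) (.e (nat_lit 286735) (nat_lit 3) .nil))))) (.g (nat_lit 0) (.e (nat_lit 348105) (nat_lit 0) .nil) .nil))) 
(.lf (nat_lit 570003) (.g (nat_lit 2026) (.e (nat_lit 483072) (nat_lit 10) (.e (nat_lit 16459) (nat_lit 12) (.e (nat_lit 475179) (nat_lit 24) (.e (nat_lit 516117) (nat_lit 1) (.e (nat_lit 164332) (nat_lit 230) .nil))))) (.g (nat_lit 0) (.e (nat_lit 349989) (nat_lit 0) .nil) .nil)))) (.nd (nat_lit 9) 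
(.lf (nat_lit 569747) (.g (nat_lit 1773) (.e (nat_lit 466979) (nat_lit 23) (.e (nat_lit 204813) (nat_lit 9) (.e (nat_lit 426108) (nat_lit 1) (.e (nat_lit 164403) (nat_lit 256) (.e (nat_lit 57405) (nat_lit 12) .nil))))) (.g (nat_lit 0) (.e (nat_lit 348869) (nat_lit 0) .nil) .nil))) 
(.lf (nat_lit 570259) (.g (nat_lit 1288) (.e (nat_lit 475177) (nat_lit 24) (.e (nat_lit 516115) (nat_lit 1) (.e (nat_lit 164398) (nat_lit 256) .nil))) (.g (nat_lit 0) (.e (nat_lit 350584) (nat_lit 0) .nil) .nil)))))) (.nd (nat_lit 7) (.nd (nat_lit 8) (.nd (nat_lit 9) 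
(.lf (nat_lit 569427) (.g (nat_lit 2007) (.e (nat_lit 474880) (nat_lit 18) (.e (nat_lit 393253) (nat_lit 18) (.e (nat_lit 164324) (nat_lit 230) (.e (nat_lit 163874) (nat_lit 3) (.e (nat_lit 212736) (nat_lit 14) .nil))))) (.g (nat_lit 0) (.e (nat_lit 348021) (nat_lit 0) .nil) .nil))) 
(.lf (nat_lit 569939) (.g (nat_lit 2757) (.e (nat_lit 466981) (nat_lit 23) (.e (nat_lit 204861) (nat_lit 26) (.e (nat_lit 335988) (nat_lit 1) (.e (nat_lit 57926) (nat_lit 282) (.e (nat_lit 163843) (nat_lit 0) (.e (nat_lit 7936) (nat_lit 200) (.e (nat_lit 557065) (nat_lit 9) (.e (nat_lit 3044) (nat_lit 189) .nil)))))))) (.g (nat_lit 1) (.e (nat_lit 349672) (nat_lit 0) .nil) .nil)))) 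
(.nd (nat_lit 9) 
(.lf (nat_lit 569683) (.g (nat_lit 3508) (.e (nat_lit 466975) (nat_lit 22) (.e (nat_lit 196626) (nat_lit 9) (.e (nat_lit 1400) (nat_lit 106) (.e (nat_lit 319533) (nat_lit 16) (.e (nat_lit 286733) (nat_lit 2) (.e (nat_lit 90128) (nat_lit 9) (.e (nat_lit 3044) (nat_lit 189) .nil))))))) (.g (nat_lit 1) (.e (nat_lit 348595) (nat_lit 0) .nil) .nil))) 
(.lf (nat_lit 570195) (.g (nat_lit 1688) (.e (nat_lit 475176) (nat_lit 24) (.e (nat_lit 516175) (nat_lit 14) (.e (nat_lit 466971) (nat_lit 21) (.e (nat_lit 164179) (nat_lit 154) (.e (nat_lit 57389) (nat_lit 5) .nil))))) (.g (nat_lit 0) (.e (nat_lit 350501) (nat_lit 0) .nil) .nil))))) (.nd (nat_lit 8) (.nd (nat_lit 9) 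
(.lf (nat_lit 569555) (.g (nat_lit 2949) (.e (nat_lit 466969) (nat_lit 21) (.e (nat_lit 164331) (nat_lit 230) (.e (nat_lit 163878) (nat_lit 4) (.e (nat_lit 213032) (nat_lit 11) (.e (nat_lit 24628) (nat_lit 9) (.e (nat_lit 336443) (nat_lit 32) .nil)))))) (.g (nat_lit 1) (.e (nat_lit 348207) (nat_lit 0) .nil) .nil))) 
(.lf (nat_lit 570067) (.g (nat_lit 1460) (.e (nat_lit 483072) (nat_lit 26) (.e (nat_lit 532544) (nat_lit 10) (.e (nat_lit 344130) (nat_lit 26) (.e (nat_lit 557104) (nat_lit 14) (.e (nat_lit 180251) (nat_lit 10) .nil))))) (.g (nat_lit 0) (.e (nat_lit 350235) (nat_lit 0) .nil) .nil)))) (.nd (nat_lit 9) 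
(.lf (nat_lit 569811) (.g (nat_lit 2408) (.e (nat_lit 466979) (nat_lit 23) (.e (nat_lit 204846) (nat_lit 24) (.e (nat_lit 319534) (nat_lit 16) (.e (nat_lit 286735) (nat_lit 3) (.e (nat_lit 98382) (nat_lit 31) .nil))))) (.g (nat_lit 0) (.e (nat_lit 349036) (nat_lit 0) .nil) .nil))) 
(.lf (nat_lit 570323) (.g (nat_lit 307) (.e (nat_lit 475177) (nat_lit 24) (.e (nat_lit 516119) (nat_lit 1) (.e (nat_lit 164325) (nat_lit 230) .nil))) (.g (nat_lit 0) (.e (nat_lit 350666) (nat_lit 0) .nil) .nil))))))) (.nd (nat_lit 6) (.nd (nat_lit 7) (.nd (nat_lit 8) (.nd (nat_lit 9) 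
(.lf (nat_lit 569395) (.g (nat_lit 1293) (.e (nat_lit 474880) (nat_lit 16) (.e (nat_lit 376859) (nat_lit 21) (.e (nat_lit 57847) (nat_lit 252) (.e (nat_lit 57390) (nat_lit 5) (.e (nat_lit 122624) (nat_lit 16) .nil))))) (.g (nat_lit 0) (.e (nat_lit 347977) (nat_lit 0) .nil) .nil))) 
(.lf (nat_lit 569907) (.g (nat_lit 2011) (.e (nat_lit 466981) (nat_lit 23) (.e (nat_lit 204846) (nat_lit 24) (.e (nat_lit 319511) (nat_lit 10) (.e (nat_lit 5293) (nat_lit 298) (.e (nat_lit 1246) (nat_lit 92) .nil))))) (.g (nat_lit 0) (.e (nat_lit 349525) (nat_lit 0) .nil) .nil)))) (.nd (nat_lit 9) 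
(.lf (nat_lit 569651) (.g (nat_lit 3452) (.e (nat_lit 466972) (nat_lit 21) (.e (nat_lit 164332) (nat_lit 230) (.e (nat_lit 163880) (nat_lit 4) (.e (nat_lit 213032) (nat_lit 11) (.e (nat_lit 24625) (nat_lit 9) (.e (nat_lit 336443) (nat_lit 32) .nil)))))) (.g (nat_lit 1) (.e (nat_lit 348443) (nat_lit 0) .nil) .nil))) 
(.lf (nat_lit 570163) (.g (nat_lit 1848) (.e (nat_lit 475176) (nat_lit 24) (.e (nat_lit 516119) (nat_lit 1) (.e (nat_lit 164325) (nat_lit 230) (.e (nat_lit 163907) (nat_lit 12) (.e (nat_lit 426566) (nat_lit 34) .nil))))) (.g (nat_lit 0) (.e (nat_lit 350424) (nat_lit 0) .nil) .nil))))) (.nd (nat_lit 8) (.nd (nat_lit 9) 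
(.lf (nat_lit 569523) (.g (nat_lit 2094) (.e (nat_lit 466968) (nat_lit 21) (.e (nat_lit 164332) (nat_lit 230) (.e (nat_lit 163884) (nat_lit 5) (.e (nat_lit 221194) (nat_lit 11) (.e (nat_lit 336075) (nat_lit 9) .nil))))) (.g (nat_lit 0) (.e (nat_lit 348151) (nat_lit 0) .nil) .nil))) 
(.lf (nat_lit 570035) (.g (nat_lit 529) (.e (nat_lit 483072) (nat_lit 26) (.e (nat_lit 532544) (nat_lit 10) (.e (nat_lit 344123) (nat_lit 24) .nil))) (.g (nat_lit 0) (.e (nat_lit 350203) (nat_lit 0) .nil) .nil)))) (.nd (nat_lit 9) 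
(.lf (nat_lit 569779) (.g (nat_lit 1521) (.e (nat_lit 466979) (nat_lit 23) (.e (nat_lit 204845) (nat_lit 24) (.e (nat_lit 319531) (nat_lit 16) (.e (nat_lit 286734) (nat_lit 3) .nil)))) (.g (nat_lit 0) (.e (nat_lit 348978) (nat_lit 0) .nil) .nil))) 
(.lf (nat_lit 570291) (.g (nat_lit 2536) (.e (nat_lit 475177) (nat_lit 24) (.e (nat_lit 516118) (nat_lit 1) (.e (nat_lit 164325) (nat_lit 230) (.e (nat_lit 163903) (nat_lit 12) (.e (nat_lit 426568) (nat_lit 34) (.e (nat_lit 393293) (nat_lit 26) .nil)))))) (.g (nat_lit 1) (.e (nat_lit 350621) (nat_lit 0) .nil) .nil)))))) (.nd (nat_lit 7) (.nd (nat_lit 8) (.nd (nat_lit 9) 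
(.lf (nat_lit 569459) (.g (nat_lit 730) (.e (nat_lit 474880) (nat_lit 19) (.e (nat_lit 401408) (nat_lit 0) (.e (nat_lit 3459) (nat_lit 216) (.e (nat_lit 688139) (nat_lit 5) .nil)))) (.g (nat_lit 0) (.e (nat_lit 348053) (nat_lit 0) .nil) .nil))) 
(.lf (nat_lit 569971) (.g (nat_lit 1267) (.e (nat_lit 483072) (nat_lit 2) (.e (nat_lit 24648) (nat_lit 12) (.e (nat_lit 385057) (nat_lit 22) (.e (nat_lit 499720) (nat_lit 0) .nil)))) (.g (nat_lit 0) (.e (nat_lit 349914) (nat_lit 0) .nil) .nil)))) (.nd (nat_lit 9) 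
(.lf (nat_lit 569715) (.g (nat_lit 2604) (.e (nat_lit 466978) (nat_lit 23) (.e (nat_lit 204845) (nat_lit 24) (.e (nat_lit 319531) (nat_lit 16) (.e (nat_lit 286735) (nat_lit 3) (.e (nat_lit 98381) (nat_lit 31) .nil))))) (.g (nat_lit 0) (.e (nat_lit 348821) (nat_lit 0) .nil) .nil))) 
(.lf (nat_lit 570227) (.g (nat_lit 3110) (.e (nat_lit 475177) (nat_lit 24) (.e (nat_lit 516115) (nat_lit 1) (.e (nat_lit 164325) (nat_lit 230) (.e (nat_lit 163902) (nat_lit 12) (.e (nat_lit 426568) (nat_lit 34) .nil))))) (.g (nat_lit 0) (.e (nat_lit 350540) (nat_lit 0) .nil) .nil))))) (.nd (nat_lit 8) (.nd (nat_lit 9) 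
(.lf (nat_lit 569587) (.g (nat_lit 3146) (.e (nat_lit 466971) (nat_lit 21) (.e (nat_lit 164322) (nat_lit 230) (.e (nat_lit 163878) (nat_lit 4) (.e (nat_lit 213030) (nat_lit 11) (.e (nat_lit 24630) (nat_lit 9) (.e (nat_lit 336443) (nat_lit 32) .nil)))))) (.g (nat_lit 1) (.e (nat_lit 348302) (nat_lit 0) .nil) .nil))) 
(.lf (nat_lit 570099) (.g (nat_lit 2945) (.e (nat_lit 475175) (nat_lit 24) (.e (nat_lit 516115) (nat_lit 1) (.e (nat_lit 164325) (nat_lit 230) (.e (nat_lit 163904) (nat_lit 12) .nil)))) (.g (nat_lit 0) (.e (nat_lit 350320) (nat_lit 0) .nil) .nil)))) (.nd (nat_lit 9) 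
(.lf (nat_lit 569843) (.g (nat_lit 3131) (.e (nat_lit 466980) (nat_lit 23) (.e (nat_lit 204846) (nat_lit 24) (.e (nat_lit 319534) (nat_lit 16) (.e (nat_lit 286734) (nat_lit 3) (.e (nat_lit 98380) (nat_lit 31) .nil))))) (.g (nat_lit 1) (.e (nat_lit 349346) (nat_lit 0) .nil) .nil))) 
(.lf (nat_lit 570355) (.g (nat_lit 2018) (.e (nat_lit 475177) (nat_lit 24) (.e (nat_lit 516120) (nat_lit 1) (.e (nat_lit 164330) (nat_lit 230) (.e (nat_lit 163905) (nat_lit 12) (.e (nat_lit 426493) (nat_lit 27) .nil))))) (.g (nat_lit 0) (.e (nat_lit 350712) (nat_lit 0) .nil) .nil))))))))) (.nd (nat_lit 4) (.nd (nat_lit 5) (.nd (nat_lit 6) (.nd (nat_lit 7) (.nd (nat_lit 8) (.nd (nat_lit 9) 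
(.lf (nat_lit 569355) (.g (nat_lit 972) (.e (nat_lit 474880) (nat_lit 13) (.e (nat_lit 352307) (nat_lit 21) (.e (nat_lit 57848) (nat_lit 252) (.e (nat_lit 57388) (nat_lit 5) (.e (nat_lit 122624) (nat_lit 16) .nil))))) (.g (nat_lit 0) (.e (nat_lit 347922) (nat_lit 0) .nil) .nil))) 
(.lf (nat_lit 569867) (.g (nat_lit 1486) (.e (nat_lit 466981) (nat_lit 23) (.e (nat_lit 204829) (nat_lit 18) (.e (nat_lit 57691) (nat_lit 156) (.e (nat_lit 163906) (nat_lit 12) (.e (nat_lit 426479) (nat_lit 27) .nil))))) (.g (nat_lit 0) (.e (nat_lit 349442) (nat_lit 0) .nil) .nil)))) (.nd (nat_lit 9) 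
(.lf (nat_lit 569611) (.g (nat_lit 2073) (.e (nat_lit 466971) (nat_lit 21) (.e (nat_lit 164326) (nat_lit 230) (.e (nat_lit 163882) (nat_lit 4) (.e (nat_lit 213032) (nat_lit 11) (.e (nat_lit 24629) (nat_lit 9) (.e (nat_lit 336444) (nat_lit 32) .nil)))))) (.g (nat_lit 1) (.e (nat_lit 348330) (nat_lit 0) .nil) .nil))) 
(.lf (nat_lit 570123) (.g (nat_lit 2109) (.e (nat_lit 475175) (nat_lit 24) (.e (nat_lit 516163) (nat_lit 11) (.e (nat_lit 442421) (nat_lit 21) (.e (nat_lit 164177) (nat_lit 154) .nil)))) (.g (nat_lit 0) (.e (nat_lit 350372) (nat_lit 0) .nil) .nil))))) (.nd (nat_lit 8) (.nd (nat_lit 9) 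
(.lf (nat_lit 569483) (.g (nat_lit 92) (.e (nat_lit 466960) (nat_lit 20) (.e (nat_lit 3403) (nat_lit 212) (.e (nat_lit 655378) (nat_lit 4) .nil))) (.g (nat_lit 0) (.e (nat_lit 348089) (nat_lit 0) .nil) .nil))) 
(.lf (nat_lit 569995) (.g (nat_lit 394) (.e (nat_lit 483072) (nat_lit 10) (.e (nat_lit 16456) (nat_lit 12) (.e (nat_lit 475177) (nat_lit 24) .nil))) (.g (nat_lit 0) (.e (nat_lit 349981) (nat_lit 0) .nil) .nil)))) (.nd (nat_lit 9) 
(.lf (nat_lit 569739) (.g (nat_lit 1176) (.e (nat_lit 466979) (nat_lit 23) (.e (nat_lit 204808) (nat_lit 9) (.e (nat_lit 426107) (nat_lit 1) (.e (nat_lit 164403) (nat_lit 256) .nil)))) (.g (nat_lit 0) (.e (nat_lit 348861) (nat_lit 0) .nil) .nil))) 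
(.lf (nat_lit 570251) (.g (nat_lit 2660) (.e (nat_lit 475177) (nat_lit 24) (.e (nat_lit 516115) (nat_lit 1) (.e (nat_lit 164327) (nat_lit 230) (.e (nat_lit 163903) (nat_lit 12) (.e (nat_lit 426568) (nat_lit 34) (.e (nat_lit 393292) (nat_lit 26) .nil)))))) (.g (nat_lit 1) (.e (nat_lit 350572) (nat_lit 0) .nil) .nil)))))) (.nd (nat_lit 7) (.nd (nat_lit 8) (.nd (nat_lit 9) 
(.lf (nat_lit 569419) (.g (nat_lit 1121) (.e (nat_lit 474880) (nat_lit 18) (.e (nat_lit 393252) (nat_lit 18) (.e (nat_lit 164330) (nat_lit 230) (.e (nat_lit 163873) (nat_lit 3) .nil)))) (.g (nat_lit 0) (.e (nat_lit 348012) (nat_lit 0) .nil) .nil))) 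
(.lf (nat_lit 569931) (.g (nat_lit 2604) (.e (nat_lit 466981) (nat_lit 23) (.e (nat_lit 204846) (nat_lit 24) (.e (nat_lit 319534) (nat_lit 16) (.e (nat_lit 286734) (nat_lit 3) (.e (nat_lit 98379) (nat_lit 31) .nil))))) (.g (nat_lit 0) (.e (nat_lit 349570) (nat_lit 0) .nil) .nil)))) (.nd (nat_lit 9) 
(.lf (nat_lit 569675) (.g (nat_lit 323) (.e (nat_lit 466974) (nat_lit 22) (.e (nat_lit 196681) (nat_lit 17) (.e (nat_lit 131089) (nat_lit 1) .nil))) (.g (nat_lit 0) (.e (nat_lit 348570) (nat_lit 0) .nil) .nil))) 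
(.lf (nat_lit 570187) (.g (nat_lit 2670) (.e (nat_lit 475176) (nat_lit 24) (.e (nat_lit 516166) (nat_lit 12) (.e (nat_lit 450563) (nat_lit 0) (.e (nat_lit 6420) (nat_lit 341) .nil)))) (.g (nat_lit 0) (.e (nat_lit 350493) (nat_lit 0) .nil) .nil))))) (.nd (nat_lit 8) (.nd (nat_lit 9) 
(.lf (nat_lit 569547) (.g (nat_lit 1884) (.e (nat_lit 466969) (nat_lit 21) (.e (nat_lit 164327) (nat_lit 230) (.e (nat_lit 163843) (nat_lit 0) (.e (nat_lit 3617) (nat_lit 227) (.e (nat_lit 778462) (nat_lit 11) .nil))))) (.g (nat_lit 0) (.e (nat_lit 348199) (nat_lit 0) .nil) .nil))) 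
(.lf (nat_lit 570059) (.g (nat_lit 1760) (.e (nat_lit 483072) (nat_lit 26) (.e (nat_lit 532544) (nat_lit 10) (.e (nat_lit 344130) (nat_lit 26) (.e (nat_lit 557097) (nat_lit 13) (.e (nat_lit 172051) (nat_lit 0) .nil))))) (.g (nat_lit 0) (.e (nat_lit 350227) (nat_lit 0) .nil) .nil)))) (.nd (nat_lit 9) 
(.lf (nat_lit 569803) (.g (nat_lit 2443) (.e (nat_lit 466979) (nat_lit 23) (.e (nat_lit 204846) (nat_lit 24) (.e (nat_lit 319533) (nat_lit 16) (.e (nat_lit 286735) (nat_lit 3) (.e (nat_lit 98379) (nat_lit 31) .nil))))) (.g (nat_lit 0) (.e (nat_lit 349023) (nat_lit 0) .nil) .nil))) 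
(.lf (nat_lit 570315) (.g (nat_lit 2577) (.e (nat_lit 475177) (nat_lit 24) (.e (nat_lit 516118) (nat_lit 1) (.e (nat_lit 164332) (nat_lit 230) (.e (nat_lit 163936) (nat_lit 18) (.e (nat_lit 483072) (nat_lit 10) .nil))))) (.g (nat_lit 0) (.e (nat_lit 350650) (nat_lit 0) .nil) .nil))))))) (.nd (nat_lit 6) (.nd (nat_lit 7) (.nd (nat_lit 8) (.nd (nat_lit 9) 
(.lf (nat_lit 569387) (.g (nat_lit 1528) (.e (nat_lit 474880) (nat_lit 16) (.e (nat_lit 376857) (nat_lit 21) (.e (nat_lit 57853) (nat_lit 252) (.e (nat_lit 57389) (nat_lit 5) (.e (nat_lit 122624) (nat_lit 16) .nil))))) (.g (nat_lit 0) (.e (nat_lit 347968) (nat_lit 0) .nil) .nil))) 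
(.lf (nat_lit 569899) (.g (nat_lit 914) (.e (nat_lit 466981) (nat_lit 23) (.e (nat_lit 204846) (nat_lit 24) (.e (nat_lit 319500) (nat_lit 10) .nil))) (.g (nat_lit 0) (.e (nat_lit 349517) (nat_lit 0) .nil) .nil)))) (.nd (nat_lit 9) 
(.lf (nat_lit 569643) (.g (nat_lit 3990) (.e (nat_lit 466972) (nat_lit 21) (.e (nat_lit 164182) (nat_lit 154) (.e (nat_lit 57368) (nat_lit 1) (.e (nat_lit 57854) (nat_lit 252) (.e (nat_lit 57409) (nat_lit 12) (.e (nat_lit 336000) (nat_lit 1) (.e (nat_lit 57687) (nat_lit 156) (.e (nat_lit 163933) (nat_lit 17) .nil)))))))) (.g (nat_lit 1) (.e (nat_lit 348432) (nat_lit 0) .nil) .nil))) 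
(.lf (nat_lit 570155) (.g (nat_lit 3002) (.e (nat_lit 475176) (nat_lit 24) (.e (nat_lit 516117) (nat_lit 1) (.e (nat_lit 164332) (nat_lit 230) (.e (nat_lit 163905) (nat_lit 12) (.e (nat_lit 426566) (nat_lit 34) (.e (nat_lit 393296) (nat_lit 26) .nil)))))) (.g (nat_lit 1) (.e (nat_lit 350414) (nat_lit 0) .nil) .nil))))) (.nd (nat_lit 8) (.nd (nat_lit 9) 
(.lf (nat_lit 569515) (.g (nat_lit 2100) (.e (nat_lit 474880) (nat_lit 20) (.e (nat_lit 3249) (nat_lit 197) (.e (nat_lit 532523) (nat_lit 7) (.e (nat_lit 319530) (nat_lit 16) (.e (nat_lit 286735) (nat_lit 3) .nil))))) (.g (nat_lit 0) (.e (nat_lit 348140) (nat_lit 0) .nil) .nil))) 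
(.lf (nat_lit 570027) (.g (nat_lit 2477) (.e (nat_lit 475171) (nat_lit 22) (.e (nat_lit 499919) (nat_lit 9) (.e (nat_lit 172067) (nat_lit 3) (.e (nat_lit 204837) (nat_lit 20) (.e (nat_lit 122624) (nat_lit 3) .nil))))) (.g (nat_lit 0) (.e (nat_lit 350152) (nat_lit 0) .nil) .nil)))) (.nd (nat_lit 9) 
(.lf (nat_lit 569771) (.g (nat_lit 1565) (.e (nat_lit 466979) (nat_lit 23) (.e (nat_lit 204831) (nat_lit 18) (.e (nat_lit 57692) (nat_lit 156) (.e (nat_lit 163905) (nat_lit 12) .nil)))) (.g (nat_lit 0) (.e (nat_lit 348955) (nat_lit 0) .nil) .nil))) 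
(.lf (nat_lit 570283) (.g (nat_lit 1632) (.e (nat_lit 475177) (nat_lit 24) (.e (nat_lit 516117) (nat_lit 1) (.e (nat_lit 164332) (nat_lit 230) (.e (nat_lit 163902) (nat_lit 12) (.e (nat_lit 426564) (nat_lit 34) .nil))))) (.g (nat_lit 0) (.e (nat_lit 350612) (nat_lit 0) .nil) .nil)))))) (.nd (nat_lit 7) (.nd (nat_lit 8) (.nd (nat_lit 9) 
(.lf (nat_lit 569451) (.g (nat_lit 1711) (.e (nat_lit 474880) (nat_lit 18) (.e (nat_lit 393254) (nat_lit 18) (.e (nat_lit 164326) (nat_lit 230) (.e (nat_lit 163870) (nat_lit 2) (.e (nat_lit 196628) (nat_lit 9) .nil))))) (.g (nat_lit 0) (.e (nat_lit 348045) (nat_lit 0) .nil) .nil))) 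
(.lf (nat_lit 569963) (.g (nat_lit 1918) (.e (nat_lit 466982) (nat_lit 24) (.e (nat_lit 229663) (nat_lit 240) (.e (nat_lit 2630) (nat_lit 164) (.e (nat_lit 172124) (nat_lit 14) .nil)))) (.g (nat_lit 0) (.e (nat_lit 349860) (nat_lit 0) .nil) .nil)))) (.nd (nat_lit 9) 
(.lf (nat_lit 569707) (.g (nat_lit 2115) (.e (nat_lit 466978) (nat_lit 23) (.e (nat_lit 204813) (nat_lit 9) (.e (nat_lit 426100) (nat_lit 1) (.e (nat_lit 164398) (nat_lit 256) (.e (nat_lit 57407) (nat_lit 12) .nil))))) (.g (nat_lit 0) (.e (nat_lit 348800) (nat_lit 0) .nil) .nil))) 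
(.lf (nat_lit 570219) (.g (nat_lit 2547) (.e (nat_lit 475177) (nat_lit 24) (.e (nat_lit 516115) (nat_lit 1) (.e (nat_lit 164324) (nat_lit 230) (.e (nat_lit 163903) (nat_lit 12) (.e (nat_lit 426566) (nat_lit 34) .nil))))) (.g (nat_lit 0) (.e (nat_lit 350529) (nat_lit 0) .nil) .nil))))) (.nd (nat_lit 8) (.nd (nat_lit 9) 
(.lf (nat_lit 569579) (.g (nat_lit 1696) (.e (nat_lit 466970) (nat_lit 21) (.e (nat_lit 164332) (nat_lit 230) (.e (nat_lit 163884) (nat_lit 5) (.e (nat_lit 221194) (nat_lit 11) (.e (nat_lit 336086) (nat_lit 9) .nil))))) (.g (nat_lit 0) (.e (nat_lit 348258) (nat_lit 0) .nil) .nil))) 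
(.lf (nat_lit 570091) (.g (nat_lit 2566) (.e (nat_lit 483072) (nat_lit 26) (.e (nat_lit 532544) (nat_lit 10) (.e (nat_lit 344133) (nat_lit 26) (.e (nat_lit 557105) (nat_lit 14) (.e (nat_lit 180227) (nat_lit 0) .nil))))) (.g (nat_lit 0) (.e (nat_lit 350259) (nat_lit 0) .nil) .nil)))) (.nd (nat_lit 9) 
(.lf (nat_lit 569835) (.g (nat_lit 2414) (.e (nat_lit 466980) (nat_lit 23) (.e (nat_lit 204846) (nat_lit 24) (.e (nat_lit 319530) (nat_lit 16) (.e (nat_lit 286735) (nat_lit 3) (.e (nat_lit 98381) (nat_lit 31) .nil))))) (.g (nat_lit 0) (.e (nat_lit 349318) (nat_lit 0) .nil) .nil))) 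
(.lf (nat_lit 570347) (.g (nat_lit 2208) (.e (nat_lit 475177) (nat_lit 24) (.e (nat_lit 516120) (nat_lit 1) (.e (nat_lit 164330) (nat_lit 230) (.e (nat_lit 163902) (nat_lit 12) (.e (nat_lit 426481) (nat_lit 27) .nil))))) (.g (nat_lit 0) (.e (nat_lit 350703) (nat_lit 0) .nil) .nil)))))))) (.nd (nat_lit 5) (.nd (nat_lit 6) (.nd (nat_lit 7) (.nd (nat_lit 8) (.nd (nat_lit 9) 
(.lf (nat_lit 569371) (.g (nat_lit 1510) (.e (nat_lit 474880) (nat_lit 13) (.e (nat_lit 352309) (nat_lit 21) (.e (nat_lit 57849) (nat_lit 252) (.e (nat_lit 57390) (nat_lit 5) (.e (nat_lit 122624) (nat_lit 16) .nil))))) (.g (nat_lit 0) (.e (nat_lit 347938) (nat_lit 0) .nil) .nil))) 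
(.lf (nat_lit 569883) (.g (nat_lit 517) (.e (nat_lit 466981) (nat_lit 23) (.e (nat_lit 204845) (nat_lit 24) (.e (nat_lit 319505) (nat_lit 10) .nil))) (.g (nat_lit 0) (.e (nat_lit 349486) (nat_lit 0) .nil) .nil)))) (.nd (nat_lit 9) 
(.lf (nat_lit 569627) (.g (nat_lit 1330) (.e (nat_lit 466971) (nat_lit 21) (.e (nat_lit 164331) (nat_lit 230) (.e (nat_lit 163884) (nat_lit 5) (.e (nat_lit 229120) (nat_lit 13) .nil)))) (.g (nat_lit 0) (.e (nat_lit 348347) (nat_lit 0) .nil) .nil))) 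
(.lf (nat_lit 570139) (.g (nat_lit 2474) (.e (nat_lit 475176) (nat_lit 24) (.e (nat_lit 516115) (nat_lit 1) (.e (nat_lit 164325) (nat_lit 230) (.e (nat_lit 163906) (nat_lit 12) (.e (nat_lit 426566) (nat_lit 34) .nil))))) (.g (nat_lit 0) (.e (nat_lit 350388) (nat_lit 0) .nil) .nil))))) (.nd (nat_lit 8) (.nd (nat_lit 9) 
(.lf (nat_lit 569499) (.g (nat_lit 907) (.e (nat_lit 466967) (nat_lit 20) (.e (nat_lit 3266) (nat_lit 199) (.e (nat_lit 548913) (nat_lit 18) (.e (nat_lit 172126) (nat_lit 14) .nil)))) (.g (nat_lit 0) (.e (nat_lit 348113) (nat_lit 0) .nil) .nil))) 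
(.lf (nat_lit 570011) (.g (nat_lit 2213) (.e (nat_lit 475147) (nat_lit 16) (.e (nat_lit 1348) (nat_lit 102) (.e (nat_lit 286735) (nat_lit 3) (.e (nat_lit 98341) (nat_lit 20) .nil)))) (.g (nat_lit 0) (.e (nat_lit 350005) (nat_lit 0) .nil) .nil)))) (.nd (nat_lit 9) 
(.lf (nat_lit 569755) (.g (nat_lit 2938) (.e (nat_lit 466979) (nat_lit 23) (.e (nat_lit 204829) (nat_lit 18) (.e (nat_lit 57688) (nat_lit 156) (.e (nat_lit 163907) (nat_lit 12) (.e (nat_lit 426484) (nat_lit 27) .nil))))) (.g (nat_lit 0) (.e (nat_lit 348909) (nat_lit 0) .nil) .nil))) 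
(.lf (nat_lit 570267) (.g (nat_lit 1099) (.e (nat_lit 475177) (nat_lit 24) (.e (nat_lit 516117) (nat_lit 1) (.e (nat_lit 164330) (nat_lit 230) (.e (nat_lit 163902) (nat_lit 12) .nil)))) (.g (nat_lit 0) (.e (nat_lit 350595) (nat_lit 0) .nil) .nil)))))) (.nd (nat_lit 7) (.nd (nat_lit 8) (.nd (nat_lit 9) 
(.lf (nat_lit 569435) (.g (nat_lit 2083) (.e (nat_lit 474880) (nat_lit 18) (.e (nat_lit 393253) (nat_lit 18) (.e (nat_lit 164327) (nat_lit 230) (.e (nat_lit 163873) (nat_lit 3) (.e (nat_lit 212736) (nat_lit 14) .nil))))) (.g (nat_lit 0) (.e (nat_lit 348029) (nat_lit 0) .nil) .nil))) 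
(.lf (nat_lit 569947) (.g (nat_lit 2276) (.e (nat_lit 474880) (nat_lit 23) (.e (nat_lit 204845) (nat_lit 24) (.e (nat_lit 319530) (nat_lit 16) (.e (nat_lit 286735) (nat_lit 3) (.e (nat_lit 98381) (nat_lit 31) .nil))))) (.g (nat_lit 0) (.e (nat_lit 349841) (nat_lit 0) .nil) .nil)))) (.nd (nat_lit 9) 
(.lf (nat_lit 569691) (.g (nat_lit 1636) (.e (nat_lit 466977) (nat_lit 22) (.e (nat_lit 196654) (nat_lit 11) (.e (nat_lit 16407) (nat_lit 1) (.e (nat_lit 164324) (nat_lit 230) (.e (nat_lit 171776) (nat_lit 62) .nil))))) (.g (nat_lit 0) (.e (nat_lit 348657) (nat_lit 0) .nil) .nil))) 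
(.lf (nat_lit 570203) (.g (nat_lit 1643) (.e (nat_lit 475176) (nat_lit 24) (.e (nat_lit 516176) (nat_lit 14) (.e (nat_lit 466971) (nat_lit 21) (.e (nat_lit 164179) (nat_lit 154) .nil)))) (.g (nat_lit 0) (.e (nat_lit 350510) (nat_lit 0) .nil) .nil))))) (.nd (nat_lit 8) (.nd (nat_lit 9) 
(.lf (nat_lit 569563) (.g (nat_lit 746) (.e (nat_lit 466969) (nat_lit 21) (.e (nat_lit 164348) (nat_lit 240) (.e (nat_lit 2640) (nat_lit 165) (.e (nat_lit 188160) (nat_lit 32) .nil)))) (.g (nat_lit 0) (.e (nat_lit 348232) (nat_lit 0) .nil) .nil))) 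
(.lf (nat_lit 570075) (.g (nat_lit 1717) (.e (nat_lit 483072) (nat_lit 26) (.e (nat_lit 532544) (nat_lit 10) (.e (nat_lit 344132) (nat_lit 26) (.e (nat_lit 557101) (nat_lit 13) (.e (nat_lit 172062) (nat_lit 2) .nil))))) (.g (nat_lit 0) (.e (nat_lit 350243) (nat_lit 0) .nil) .nil)))) (.nd (nat_lit 9) 
(.lf (nat_lit 569819) (.g (nat_lit 2301) (.e (nat_lit 466980) (nat_lit 23) (.e (nat_lit 204845) (nat_lit 24) (.e (nat_lit 319530) (nat_lit 16) (.e (nat_lit 286735) (nat_lit 3) (.e (nat_lit 98381) (nat_lit 31) .nil))))) (.g (nat_lit 0) (.e (nat_lit 349295) (nat_lit 0) .nil) .nil))) 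
(.lf (nat_lit 570331) (.g (nat_lit 3964) (.e (nat_lit 475177) (nat_lit 24) (.e (nat_lit 516119) (nat_lit 1) (.e (nat_lit 164326) (nat_lit 230) (.e (nat_lit 163903) (nat_lit 12) (.e (nat_lit 426566) (nat_lit 34) (.e (nat_lit 393294) (nat_lit 26) .nil)))))) (.g (nat_lit 1) (.e (nat_lit 350675) (nat_lit 0) .nil) .nil))))))) (.nd (nat_lit 6) (.nd (nat_lit 7) (.nd (nat_lit 8) (.nd (nat_lit 9) 
(.lf (nat_lit 569403) (.g (nat_lit 1620) (.e (nat_lit 474880) (nat_lit 16) (.e (nat_lit 376860) (nat_lit 21) (.e (nat_lit 57852) (nat_lit 252) (.e (nat_lit 57389) (nat_lit 5) (.e (nat_lit 122624) (nat_lit 16) .nil))))) (.g (nat_lit 0) (.e (nat_lit 347985) (nat_lit 0) .nil) .nil))) 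
(.lf (nat_lit 569915) (.g (nat_lit 2091) (.e (nat_lit 466981) (nat_lit 23) (.e (nat_lit 204846) (nat_lit 24) (.e (nat_lit 319529) (nat_lit 16) (.e (nat_lit 286735) (nat_lit 3) (.e (nat_lit 98381) (nat_lit 31) .nil))))) (.g (nat_lit 0) (.e (nat_lit 349535) (nat_lit 0) .nil) .nil)))) (.nd (nat_lit 9) 
(.lf (nat_lit 569659) (.g (nat_lit 2135) (.e (nat_lit 466972) (nat_lit 21) (.e (nat_lit 164403) (nat_lit 256) (.e (nat_lit 57400) (nat_lit 10) (.e (nat_lit 319504) (nat_lit 10) (.e (nat_lit 5401) (nat_lit 302) .nil))))) (.g (nat_lit 0) (.e (nat_lit 348458) (nat_lit 0) .nil) .nil))) 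
(.lf (nat_lit 570171) (.g (nat_lit 841) (.e (nat_lit 475176) (nat_lit 24) (.e (nat_lit 516126) (nat_lit 2) (.e (nat_lit 213032) (nat_lit 11) (.e (nat_lit 24608) (nat_lit 3) .nil)))) (.g (nat_lit 0) (.e (nat_lit 350433) (nat_lit 0) .nil) .nil))))) (.nd (nat_lit 8) (.nd (nat_lit 9) 
(.lf (nat_lit 569531) (.g (nat_lit 287) (.e (nat_lit 466969) (nat_lit 21) (.e (nat_lit 164322) (nat_lit 230) (.e (nat_lit 163884) (nat_lit 5) .nil))) (.g (nat_lit 0) (.e (nat_lit 348183) (nat_lit 0) .nil) .nil))) 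
(.lf (nat_lit 570043) (.g (nat_lit 1928) (.e (nat_lit 483072) (nat_lit 26) (.e (nat_lit 532544) (nat_lit 10) (.e (nat_lit 344117) (nat_lit 21) (.e (nat_lit 516130) (nat_lit 3) (.e (nat_lit 221211) (nat_lit 22) .nil))))) (.g (nat_lit 0) (.e (nat_lit 350211) (nat_lit 0) .nil) .nil)))) (.nd (nat_lit 9) 
(.lf (nat_lit 569787) (.g (nat_lit 1245) (.e (nat_lit 466979) (nat_lit 23) (.e (nat_lit 204846) (nat_lit 24) (.e (nat_lit 319504) (nat_lit 10) (.e (nat_lit 7936) (nat_lit 298) .nil)))) (.g (nat_lit 0) (.e (nat_lit 348989) (nat_lit 0) .nil) .nil))) 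
(.lf (nat_lit 570299) (.g (nat_lit 1872) (.e (nat_lit 475177) (nat_lit 24) (.e (nat_lit 516118) (nat_lit 1) (.e (nat_lit 164332) (nat_lit 230) (.e (nat_lit 163901) (nat_lit 12) (.e (nat_lit 426564) (nat_lit 34) .nil))))) (.g (nat_lit 0) (.e (nat_lit 350632) (nat_lit 0) .nil) .nil)))))) (.nd (nat_lit 7) (.nd (nat_lit 8) (.nd (nat_lit 9) 
(.lf (nat_lit 569467) (.g (nat_lit 3084) (.e (nat_lit 466955) (nat_lit 20) (.e (nat_lit 3238) (nat_lit 197) (.e (nat_lit 532523) (nat_lit 7) (.e (nat_lit 319530) (nat_lit 16) (.e (nat_lit 286735) (nat_lit 3) .nil))))) (.g (nat_lit 0) (.e (nat_lit 348061) (nat_lit 0) .nil) .nil))) 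
(.lf (nat_lit 569979) (.g (nat_lit 1510) (.e (nat_lit 483072) (nat_lit 5) (.e (nat_lit 180252) (nat_lit 10) (.e (nat_lit 573503) (nat_lit 18) (.e (nat_lit 1346) (nat_lit 102) .nil)))) (.g (nat_lit 0) (.e (nat_lit 349952) (nat_lit 0) .nil) .nil)))) (.nd (nat_lit 9) 
(.lf (nat_lit 569723) (.g (nat_lit 2261) (.e (nat_lit 466978) (nat_lit 23) (.e (nat_lit 204846) (nat_lit 24) (.e (nat_lit 319528) (nat_lit 16) (.e (nat_lit 286735) (nat_lit 3) (.e (nat_lit 98381) (nat_lit 31) .nil))))) (.g (nat_lit 0) (.e (nat_lit 348829) (nat_lit 0) .nil) .nil))) 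
(.lf (nat_lit 570235) (.g (nat_lit 1063) (.e (nat_lit 475177) (nat_lit 24) (.e (nat_lit 516115) (nat_lit 1) (.e (nat_lit 164325) (nat_lit 230) (.e (nat_lit 163907) (nat_lit 12) .nil)))) (.g (nat_lit 0) (.e (nat_lit 350548) (nat_lit 0) .nil) .nil))))) (.nd (nat_lit 8) (.nd (nat_lit 9) 
(.lf (nat_lit 569595) (.g (nat_lit 1629) (.e (nat_lit 466971) (nat_lit 21) (.e (nat_lit 164324) (nat_lit 230) (.e (nat_lit 163884) (nat_lit 5) (.e (nat_lit 221193) (nat_lit 11) (.e (nat_lit 336075) (nat_lit 9) .nil))))) (.g (nat_lit 0) (.e (nat_lit 348310) (nat_lit 0) .nil) .nil))) 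
(.lf (nat_lit 570107) (.g (nat_lit 2324) (.e (nat_lit 475175) (nat_lit 24) (.e (nat_lit 516119) (nat_lit 1) (.e (nat_lit 164325) (nat_lit 230) (.e (nat_lit 163903) (nat_lit 12) (.e (nat_lit 426566) (nat_lit 34) (.e (nat_lit 393295) (nat_lit 26) .nil)))))) (.g (nat_lit 1) (.e (nat_lit 350336) (nat_lit 0) .nil) .nil)))) (.nd (nat_lit 9) 
(.lf (nat_lit 569851) (.g (nat_lit 1764) (.e (nat_lit 466981) (nat_lit 23) (.e (nat_lit 204809) (nat_lit 9) (.e (nat_lit 426098) (nat_lit 1) (.e (nat_lit 164325) (nat_lit 230) (.e (nat_lit 171776) (nat_lit 62) (.e (nat_lit 57927) (nat_lit 282) (.e (nat_lit 163933) (nat_lit 17) .nil))))))) (.g (nat_lit 1) (.e (nat_lit 349384) (nat_lit 0) .nil) .nil))) 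
(.lf (nat_lit 570363) (.g (nat_lit 1855) (.e (nat_lit 475177) (nat_lit 24) (.e (nat_lit 516120) (nat_lit 1) (.e (nat_lit 164330) (nat_lit 230) (.e (nat_lit 163905) (nat_lit 12) (.e (nat_lit 433920) (nat_lit 34) .nil))))) (.g (nat_lit 0) (.e (nat_lit 350720) (nat_lit 0) .nil) .nil)))))))))) 
(.nd (nat_lit 3) (.nd (nat_lit 4) (.nd (nat_lit 5) (.nd (nat_lit 6) (.nd (nat_lit 7) 
(.nd (nat_lit 8) (.nd (nat_lit 9) 
(.lf (nat_lit 569351) (.g (nat_lit 2326) (.e (nat_lit 474880) (nat_lit 11) (.e (nat_lit 336060) (nat_lit 7) (.e (nat_lit 319530) (nat_lit 16) (.e (nat_lit 286731) (nat_lit 1) (.e (nat_lit 57687) (nat_lit 156) .nil))))) (.g (nat_lit 0) (.e (nat_lit 347913) (nat_lit 0) .nil) .nil))) 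
(.lf (nat_lit 569863) (.g (nat_lit 2659) (.e (nat_lit 466981) (nat_lit 23) (.e (nat_lit 204829) (nat_lit 18) (.e (nat_lit 57688) (nat_lit 156) (.e (nat_lit 163902) (nat_lit 12) (.e (nat_lit 426484) (nat_lit 27) .nil))))) (.g (nat_lit 0) (.e (nat_lit 349430) (nat_lit 0) .nil) .nil)))) (.nd (nat_lit 9) 
(.lf (nat_lit 569607) (.g (nat_lit 1601) (.e (nat_lit 466971) (nat_lit 21) (.e (nat_lit 164325) (nat_lit 230) (.e (nat_lit 163882) (nat_lit 4) (.e (nat_lit 213032) (nat_lit 11) (.e (nat_lit 24629) (nat_lit 9) (.e (nat_lit 336444) (nat_lit 32) .nil)))))) (.g (nat_lit 1) (.e (nat_lit 348322) (nat_lit 0) .nil) .nil))) 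
(.lf (nat_lit 570119) (.g (nat_lit 667) (.e (nat_lit 475175) (nat_lit 24) (.e (nat_lit 516120) (nat_lit 1) (.e (nat_lit 164331) (nat_lit 230) .nil))) (.g (nat_lit 0) (.e (nat_lit 350359) (nat_lit 0) .nil) .nil))))) (.nd (nat_lit 8) (.nd (nat_lit 9) 
(.lf (nat_lit 569479) (.g (nat_lit 934) (.e (nat_lit 466960) (nat_lit 20) (.e (nat_lit 3250) (nat_lit 197) (.e (nat_lit 532522) (nat_lit 7) (.e (nat_lit 319531) (nat_lit 16) .nil)))) (.g (nat_lit 0) (.e (nat_lit 348084) (nat_lit 0) .nil) .nil))) 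
(.lf (nat_lit 569991) (.g (nat_lit 1453) (.e (nat_lit 483072) (nat_lit 10) (.e (nat_lit 16436) (nat_lit 9) (.e (nat_lit 426436) (nat_lit 18) (.e (nat_lit 98334) (nat_lit 18) .nil)))) (.g (nat_lit 0) (.e (nat_lit 349977) (nat_lit 0) .nil) .nil)))) (.nd (nat_lit 9) 
(.lf (nat_lit 569735) (.g (nat_lit 2705) (.e (nat_lit 466978) (nat_lit 23) (.e (nat_lit 204846) (nat_lit 24) (.e (nat_lit 319534) (nat_lit 16) (.e (nat_lit 286734) (nat_lit 3) (.e (nat_lit 98380) (nat_lit 31) .nil))))) (.g (nat_lit 0) (.e (nat_lit 348846) (nat_lit 0) .nil) .nil))) 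
(.lf (nat_lit 570247) (.g (nat_lit 2568) (.e (nat_lit 475177) (nat_lit 24) (.e (nat_lit 516115) (nat_lit 1) (.e (nat_lit 164327) (nat_lit 230) (.e (nat_lit 163903) (nat_lit 12) (.e (nat_lit 426480) (nat_lit 27) .nil))))) (.g (nat_lit 0) (.e (nat_lit 350568) (nat_lit 0) .nil) .nil)))))) (.nd (nat_lit 7) (.nd (nat_lit 8) (.nd (nat_lit 9) 
(.lf (nat_lit 569415) (.g (nat_lit 1685) (.e (nat_lit 474880) (nat_lit 18) (.e (nat_lit 393251) (nat_lit 18) (.e (nat_lit 164332) (nat_lit 230) (.e (nat_lit 163874) (nat_lit 3) (.e (nat_lit 212736) (nat_lit 14) .nil))))) (.g (nat_lit 0) (.e (nat_lit 348008) (nat_lit 0) .nil) .nil))) 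
(.lf (nat_lit 569927) (.g (nat_lit 2455) (.e (nat_lit 466981) (nat_lit 23) (.e (nat_lit 204846) (nat_lit 24) (.e (nat_lit 319533) (nat_lit 16) (.e (nat_lit 286735) (nat_lit 3) (.e (nat_lit 98380) (nat_lit 31) .nil))))) (.g (nat_lit 0) (.e (nat_lit 349560) (nat_lit 0) .nil) .nil)))) (.nd (nat_lit 9) 
(.lf (nat_lit 569671) (.g (nat_lit 520) (.e (nat_lit 466974) (nat_lit 22) (.e (nat_lit 196656) (nat_lit 11) (.e (nat_lit 24320) (nat_lit 20) .nil))) (.g (nat_lit 0) (.e (nat_lit 348490) (nat_lit 0) .nil) .nil))) 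
(.lf (nat_lit 570183) (.g (nat_lit 3286) (.e (nat_lit 475176) (nat_lit 24) (.e (nat_lit 516166) (nat_lit 12) (.e (nat_lit 450562) (nat_lit 0) (.e (nat_lit 6839) (nat_lit 369) .nil)))) (.g (nat_lit 0) (.e (nat_lit 350489) (nat_lit 0) .nil) .nil))))) (.nd (nat_lit 8) (.nd (nat_lit 9) 
(.lf (nat_lit 569543) (.g (nat_lit 911) (.e (nat_lit 466969) (nat_lit 21) (.e (nat_lit 164325) (nat_lit 230) (.e (nat_lit 163849) (nat_lit 0) (.e (nat_lit 3609) (nat_lit 226) .nil)))) (.g (nat_lit 0) (.e (nat_lit 348195) (nat_lit 0) .nil) .nil))) 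
(.lf (nat_lit 570055) (.g (nat_lit 2310) (.e (nat_lit 483072) (nat_lit 26) (.e (nat_lit 532544) (nat_lit 10) (.e (nat_lit 344129) (nat_lit 26) (.e (nat_lit 557104) (nat_lit 14) (.e (nat_lit 180236) (nat_lit 1) .nil))))) (.g (nat_lit 0) (.e (nat_lit 350223) (nat_lit 0) .nil) .nil)))) (.nd (nat_lit 9) 
(.lf (nat_lit 569799) (.g (nat_lit 2681) (.e (nat_lit 466979) (nat_lit 23) (.e (nat_lit 204846) (nat_lit 24) (.e (nat_lit 319531) (nat_lit 16) (.e (nat_lit 286735) (nat_lit 3) (.e (nat_lit 98382) (nat_lit 31) .nil))))) (.g (nat_lit 1) (.e (nat_lit 349009) (nat_lit 0) .nil) .nil))) 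
(.lf (nat_lit 570311) (.g (nat_lit 2606) (.e (nat_lit 475177) (nat_lit 24) (.e (nat_lit 516118) (nat_lit 1) (.e (nat_lit 164332) (nat_lit 230) (.e (nat_lit 163905) (nat_lit 12) (.e (nat_lit 426509) (nat_lit 27) .nil))))) (.g (nat_lit 0) (.e (nat_lit 350646) (nat_lit 0) .nil) .nil))))))) (.nd (nat_lit 6) (.nd (nat_lit 7) (.nd (nat_lit 8) (.nd (nat_lit 9) 
(.lf (nat_lit 569383) (.g (nat_lit 946) (.e (nat_lit 474880) (nat_lit 16) (.e (nat_lit 376857) (nat_lit 21) (.e (nat_lit 57851) (nat_lit 252) (.e (nat_lit 57389) (nat_lit 5) (.e (nat_lit 122624) (nat_lit 16) .nil))))) (.g (nat_lit 0) (.e (nat_lit 347963) (nat_lit 0) .nil) .nil))) 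
(.lf (nat_lit 569895) (.g (nat_lit 2806) (.e (nat_lit 466981) (nat_lit 23) (.e (nat_lit 204845) (nat_lit 24) (.e (nat_lit 319533) (nat_lit 16) (.e (nat_lit 286735) (nat_lit 3) (.e (nat_lit 98379) (nat_lit 31) .nil))))) (.g (nat_lit 0) (.e (nat_lit 349512) (nat_lit 0) .nil) .nil)))) (.nd (nat_lit 9) 
(.lf (nat_lit 569639) (.g (nat_lit 1296) (.e (nat_lit 466971) (nat_lit 21) (.e (nat_lit 164332) (nat_lit 230) (.e (nat_lit 163885) (nat_lit 5) (.e (nat_lit 229120) (nat_lit 16) .nil)))) (.g (nat_lit 0) (.e (nat_lit 348359) (nat_lit 0) .nil) .nil))) 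
(.lf (nat_lit 570151) (.g (nat_lit 3035) (.e (nat_lit 475176) (nat_lit 24) (.e (nat_lit 516117) (nat_lit 1) (.e (nat_lit 164330) (nat_lit 230) (.e (nat_lit 163902) (nat_lit 12) (.e (nat_lit 426568) (nat_lit 34) (.e (nat_lit 393294) (nat_lit 26) .nil)))))) (.g (nat_lit 1) (.e (nat_lit 350408) (nat_lit 0) .nil) .nil))))) (.nd (nat_lit 8) (.nd (nat_lit 9) 
(.lf (nat_lit 569511) (.g (nat_lit 1285) (.e (nat_lit 466967) (nat_lit 20) (.e (nat_lit 3464) (nat_lit 217) (.e (nat_lit 696344) (nat_lit 8) (.e (nat_lit 172106) (nat_lit 10) (.e (nat_lit 434202) (nat_lit 18) .nil))))) (.g (nat_lit 0) (.e (nat_lit 348136) (nat_lit 0) .nil) .nil))) 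
(.lf (nat_lit 570023) (.g (nat_lit 2205) (.e (nat_lit 475169) (nat_lit 22) (.e (nat_lit 499926) (nat_lit 10) (.e (nat_lit 180252) (nat_lit 10) (.e (nat_lit 573482) (nat_lit 13) (.e (nat_lit 65638) (nat_lit 15) (.e (nat_lit 7936) (nat_lit 195) (.e (nat_lit 516179) (nat_lit 15) .nil))))))) (.g (nat_lit 1) (.e (nat_lit 350147) (nat_lit 0) .nil) .nil)))) (.nd (nat_lit 9) 
(.lf (nat_lit 569767) (.g (nat_lit 2228) (.e (nat_lit 466979) (nat_lit 23) (.e (nat_lit 204831) (nat_lit 18) (.e (nat_lit 57688) (nat_lit 156) (.e (nat_lit 163902) (nat_lit 12) (.e (nat_lit 426479) (nat_lit 27) .nil))))) (.g (nat_lit 0) (.e (nat_lit 348950) (nat_lit 0) .nil) .nil))) 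
(.lf (nat_lit 570279) (.g (nat_lit 1984) (.e (nat_lit 475177) (nat_lit 24) (.e (nat_lit 516117) (nat_lit 1) (.e (nat_lit 164330) (nat_lit 230) (.e (nat_lit 163905) (nat_lit 12) (.e (nat_lit 426512) (nat_lit 27) .nil))))) (.g (nat_lit 0) (.e (nat_lit 350608) (nat_lit 0) .nil) .nil)))))) (.nd (nat_lit 7) (.nd (nat_lit 8) (.nd (nat_lit 9) 
(.lf (nat_lit 569447) (.g (nat_lit 1712) (.e (nat_lit 474880) (nat_lit 18) (.e (nat_lit 393254) (nat_lit 18) (.e (nat_lit 164324) (nat_lit 230) (.e (nat_lit 163874) (nat_lit 3) (.e (nat_lit 212736) (nat_lit 14) .nil))))) (.g (nat_lit 0) (.e (nat_lit 348041) (nat_lit 0) .nil) .nil))) 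
(.lf (nat_lit 569959) (.g (nat_lit 2428) (.e (nat_lit 474880) (nat_lit 23) (.e (nat_lit 204846) (nat_lit 24) (.e (nat_lit 319533) (nat_lit 16) (.e (nat_lit 286735) (nat_lit 3) (.e (nat_lit 98380) (nat_lit 31) .nil))))) (.g (nat_lit 0) (.e (nat_lit 349855) (nat_lit 0) .nil) .nil)))) (.nd (nat_lit 9) 
(.lf (nat_lit 569703) (.g (nat_lit 2666) (.e (nat_lit 466977) (nat_lit 22) (.e (nat_lit 196681) (nat_lit 17) (.e (nat_lit 131089) (nat_lit 1) (.e (nat_lit 57931) (nat_lit 282) (.e (nat_lit 163850) (nat_lit 0) (.e (nat_lit 7936) (nat_lit 200) (.e (nat_lit 557065) (nat_lit 9) (.e (nat_lit 3044) (nat_lit 189) .nil)))))))) (.g (nat_lit 1) (.e (nat_lit 348788) (nat_lit 0) .nil) .nil))) 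
(.lf (nat_lit 570215) (.g (nat_lit 2887) (.e (nat_lit 475177) (nat_lit 24) (.e (nat_lit 516115) (nat_lit 1) (.e (nat_lit 164322) (nat_lit 230) (.e (nat_lit 163902) (nat_lit 12) (.e (nat_lit 426568) (nat_lit 34) .nil))))) (.g (nat_lit 0) (.e (nat_lit 350524) (nat_lit 0) .nil) .nil))))) (.nd (nat_lit 8) (.nd (nat_lit 9) 
(.lf (nat_lit 569575) (.g (nat_lit 944) (.e (nat_lit 466970) (nat_lit 21) (.e (nat_lit 164327) (nat_lit 230) (.e (nat_lit 163886) (nat_lit 5) (.e (nat_lit 229120) (nat_lit 13) .nil)))) (.g (nat_lit 0) (.e (nat_lit 348254) (nat_lit 0) .nil) .nil))) 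
(.lf (nat_lit 570087) (.g (nat_lit 2616) (.e (nat_lit 483072) (nat_lit 26) (.e (nat_lit 532544) (nat_lit 10) (.e (nat_lit 344133) (nat_lit 26) (.e (nat_lit 557103) (nat_lit 14) (.e (nat_lit 180236) (nat_lit 1) .nil))))) (.g (nat_lit 0) (.e (nat_lit 350255) (nat_lit 0) .nil) .nil)))) (.nd (nat_lit 9) 
(.lf (nat_lit 569831) (.g (nat_lit 2135) (.e (nat_lit 466980) (nat_lit 23) (.e (nat_lit 204846) (nat_lit 24) (.e (nat_lit 319528) (nat_lit 16) (.e (nat_lit 286735) (nat_lit 3) (.e (nat_lit 98379) (nat_lit 31) .nil))))) (.g (nat_lit 0) (.e (nat_lit 349309) (nat_lit 0) .nil) .nil))) 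
(.lf (nat_lit 570343) (.g (nat_lit 314) (.e (nat_lit 475177) (nat_lit 24) (.e (nat_lit 516120) (nat_lit 1) (.e (nat_lit 164330) (nat_lit 230) .nil))) (.g (nat_lit 0) (.e (nat_lit 350699) (nat_lit 0) .nil) .nil)))))))) (.nd (nat_lit 5) (.nd (nat_lit 6) (.nd (nat_lit 7) (.nd (nat_lit 8) (.nd (nat_lit 9) 
(.lf (nat_lit 569367) (.g (nat_lit 1547) (.e (nat_lit 474880) (nat_lit 13) (.e (nat_lit 352309) (nat_lit 21) (.e (nat_lit 57846) (nat_lit 252) (.e (nat_lit 57390) (nat_lit 5) (.e (nat_lit 122624) (nat_lit 16) .nil))))) (.g (nat_lit 0) (.e (nat_lit 347934) (nat_lit 0) .nil) .nil))) 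
(.lf (nat_lit 569879) (.g (nat_lit 2101) (.e (nat_lit 466981) (nat_lit 23) (.e (nat_lit 204831) (nat_lit 18) (.e (nat_lit 57692) (nat_lit 156) (.e (nat_lit 163905) (nat_lit 12) (.e (nat_lit 426479) (nat_lit 27) .nil))))) (.g (nat_lit 0) (.e (nat_lit 349481) (nat_lit 0) .nil) .nil)))) (.nd (nat_lit 9) 
(.lf (nat_lit 569623) (.g (nat_lit 1914) (.e (nat_lit 466971) (nat_lit 21) (.e (nat_lit 164327) (nat_lit 230) (.e (nat_lit 163886) (nat_lit 5) (.e (nat_lit 221191) (nat_lit 11) (.e (nat_lit 336153) (nat_lit 9) (.e (nat_lit 336442) (nat_lit 32) .nil)))))) (.g (nat_lit 1) (.e (nat_lit 348343) (nat_lit 0) .nil) .nil))) 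
(.lf (nat_lit 570135) (.g (nat_lit 3689) (.e (nat_lit 475176) (nat_lit 24) (.e (nat_lit 516115) (nat_lit 1) (.e (nat_lit 164325) (nat_lit 230) (.e (nat_lit 163902) (nat_lit 12) (.e (nat_lit 426568) (nat_lit 34) .nil))))) (.g (nat_lit 0) (.e (nat_lit 350384) (nat_lit 0) .nil) .nil))))) (.nd (nat_lit 8) (.nd (nat_lit 9) 
(.lf (nat_lit 569495) (.g (nat_lit 1585) (.e (nat_lit 466967) (nat_lit 20) (.e (nat_lit 3253) (nat_lit 197) (.e (nat_lit 532523) (nat_lit 7) (.e (nat_lit 319531) (nat_lit 16) (.e (nat_lit 286735) (nat_lit 3) .nil))))) (.g (nat_lit 0) (.e (nat_lit 348109) (nat_lit 0) .nil) .nil))) 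
(.lf (nat_lit 570007) (.g (nat_lit 1188) (.e (nat_lit 483072) (nat_lit 10) (.e (nat_lit 16460) (nat_lit 12) (.e (nat_lit 475179) (nat_lit 24) (.e (nat_lit 516119) (nat_lit 1) .nil)))) (.g (nat_lit 0) (.e (nat_lit 349993) (nat_lit 0) .nil) .nil)))) (.nd (nat_lit 9) 
(.lf (nat_lit 569751) (.g (nat_lit 2661) (.e (nat_lit 466979) (nat_lit 23) (.e (nat_lit 204829) (nat_lit 18) (.e (nat_lit 57688) (nat_lit 156) (.e (nat_lit 163902) (nat_lit 12) (.e (nat_lit 426484) (nat_lit 27) .nil))))) (.g (nat_lit 0) (.e (nat_lit 348903) (nat_lit 0) .nil) .nil))) 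
(.lf (nat_lit 570263) (.g (nat_lit 2743) (.e (nat_lit 475177) (nat_lit 24) (.e (nat_lit 516117) (nat_lit 1) (.e (nat_lit 164322) (nat_lit 230) (.e (nat_lit 163902) (nat_lit 12) (.e (nat_lit 426568) (nat_lit 34) (.e (nat_lit 393291) (nat_lit 26) .nil)))))) (.g (nat_lit 1) (.e (nat_lit 350591) (nat_lit 0) .nil) .nil)))))) (.nd (nat_lit 7) (.nd (nat_lit 8) (.nd (nat_lit 9) 
(.lf (nat_lit 569431) (.g (nat_lit 1620) (.e (nat_lit 474880) (nat_lit 18) (.e (nat_lit 393253) (nat_lit 18) (.e (nat_lit 164326) (nat_lit 230) (.e (nat_lit 163868) (nat_lit 2) (.e (nat_lit 196618) (nat_lit 9) .nil))))) (.g (nat_lit 0) (.e (nat_lit 348025) (nat_lit 0) .nil) .nil))) 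
(.lf (nat_lit 569943) (.g (nat_lit 1820) (.e (nat_lit 466981) (nat_lit 23) (.e (nat_lit 204861) (nat_lit 26) (.e (nat_lit 335988) (nat_lit 1) (.e (nat_lit 57931) (nat_lit 282) (.e (nat_lit 171776) (nat_lit 64) .nil))))) (.g (nat_lit 0) (.e (nat_lit 349677) (nat_lit 0) .nil) .nil)))) (.nd (nat_lit 9) 
(.lf (nat_lit 569687) (.g (nat_lit 2104) (.e (nat_lit 466976) (nat_lit 22) (.e (nat_lit 196626) (nat_lit 9) (.e (nat_lit 1400) (nat_lit 106) (.e (nat_lit 319534) (nat_lit 16) (.e (nat_lit 286720) (nat_lit 0) .nil))))) (.g (nat_lit 0) (.e (nat_lit 348611) (nat_lit 0) .nil) .nil))) 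
(.lf (nat_lit 570199) (.g (nat_lit 2207) (.e (nat_lit 475176) (nat_lit 24) (.e (nat_lit 516176) (nat_lit 14) (.e (nat_lit 466954) (nat_lit 11) (.e (nat_lit 335986) (nat_lit 1) (.e (nat_lit 57657) (nat_lit 152) .nil))))) (.g (nat_lit 0) (.e (nat_lit 350505) (nat_lit 0) .nil) .nil))))) (.nd (nat_lit 8) (.nd (nat_lit 9) 
(.lf (nat_lit 569559) (.g (nat_lit 3005) (.e (nat_lit 466969) (nat_lit 21) (.e (nat_lit 164332) (nat_lit 230) (.e (nat_lit 163880) (nat_lit 4) (.e (nat_lit 213030) (nat_lit 11) (.e (nat_lit 24625) (nat_lit 9) (.e (nat_lit 336443) (nat_lit 32) .nil)))))) (.g (nat_lit 1) (.e (nat_lit 348211) (nat_lit 0) .nil) .nil))) 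
(.lf (nat_lit 570071) (.g (nat_lit 2474) (.e (nat_lit 483072) (nat_lit 26) (.e (nat_lit 532544) (nat_lit 10) (.e (nat_lit 344132) (nat_lit 26) (.e (nat_lit 557100) (nat_lit 13) (.e (nat_lit 172062) (nat_lit 2) .nil))))) (.g (nat_lit 0) (.e (nat_lit 350239) (nat_lit 0) .nil) .nil)))) (.nd (nat_lit 9) 
(.lf (nat_lit 569815) (.g (nat_lit 1680) (.e (nat_lit 466980) (nat_lit 23) (.e (nat_lit 204845) (nat_lit 24) (.e (nat_lit 319529) (nat_lit 16) (.e (nat_lit 286727) (nat_lit 0) (.e (nat_lit 1799) (nat_lit 119) .nil))))) (.g (nat_lit 0) (.e (nat_lit 349288) (nat_lit 0) .nil) .nil))) 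
(.lf (nat_lit 570327) (.g (nat_lit 1216) (.e (nat_lit 475177) (nat_lit 24) (.e (nat_lit 516119) (nat_lit 1) (.e (nat_lit 164325) (nat_lit 230) (.e (nat_lit 163938) (nat_lit 18) .nil)))) (.g (nat_lit 0) (.e (nat_lit 350670) (nat_lit 0) .nil) .nil))))))) (.nd (nat_lit 6) (.nd (nat_lit 7) (.nd (nat_lit 8) (.nd (nat_lit 9) 
(.lf (nat_lit 569399) (.g (nat_lit 612) (.e (nat_lit 474880) (nat_lit 16) (.e (nat_lit 376860) (nat_lit 21) (.e (nat_lit 57844) (nat_lit 252) .nil))) (.g (nat_lit 0) (.e (nat_lit 347981) (nat_lit 0) .nil) .nil))) 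
(.lf (nat_lit 569911) (.g (nat_lit 2261) (.e (nat_lit 466981) (nat_lit 23) (.e (nat_lit 204846) (nat_lit 24) (.e (nat_lit 319528) (nat_lit 16) (.e (nat_lit 286735) (nat_lit 3) (.e (nat_lit 98379) (nat_lit 31) .nil))))) (.g (nat_lit 0) (.e (nat_lit 349530) (nat_lit 0) .nil) .nil)))) (.nd (nat_lit 9) 
(.lf (nat_lit 569655) (.g (nat_lit 2038) (.e (nat_lit 466972) (nat_lit 21) (.e (nat_lit 164402) (nat_lit 256) (.e (nat_lit 57400) (nat_lit 10) (.e (nat_lit 319504) (nat_lit 10) (.e (nat_lit 5400) (nat_lit 302) .nil))))) (.g (nat_lit 0) (.e (nat_lit 348450) (nat_lit 0) .nil) .nil))) 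
(.lf (nat_lit 570167) (.g (nat_lit 2643) (.e (nat_lit 475176) (nat_lit 24) (.e (nat_lit 516120) (nat_lit 1) (.e (nat_lit 164330) (nat_lit 230) (.e (nat_lit 163902) (nat_lit 12) (.e (nat_lit 426568) (nat_lit 34) .nil))))) (.g (nat_lit 0) (.e (nat_lit 350428) (nat_lit 0) .nil) .nil))))) (.nd (nat_lit 8) (.nd (nat_lit 9) 
(.lf (nat_lit 569527) (.g (nat_lit 2535) (.e (nat_lit 466968) (nat_lit 21) (.e (nat_lit 164332) (nat_lit 230) (.e (nat_lit 163885) (nat_lit 5) (.e (nat_lit 221194) (nat_lit 11) (.e (nat_lit 336084) (nat_lit 9) .nil))))) (.g (nat_lit 0) (.e (nat_lit 348155) (nat_lit 0) .nil) .nil))) 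
(.lf (nat_lit 570039) (.g (nat_lit 2226) (.e (nat_lit 483072) (nat_lit 26) (.e (nat_lit 532544) (nat_lit 10) (.e (nat_lit 344117) (nat_lit 21) (.e (nat_lit 516129) (nat_lit 3) (.e (nat_lit 221210) (nat_lit 22) .nil))))) (.g (nat_lit 0) (.e (nat_lit 350207) (nat_lit 0) .nil) .nil)))) (.nd (nat_lit 9) 
(.lf (nat_lit 569783) (.g (nat_lit 3131) (.e (nat_lit 466979) (nat_lit 23) (.e (nat_lit 204845) (nat_lit 24) (.e (nat_lit 319531) (nat_lit 16) (.e (nat_lit 286735) (nat_lit 3) (.e (nat_lit 98382) (nat_lit 31) .nil))))) (.g (nat_lit 1) (.e (nat_lit 348982) (nat_lit 0) .nil) .nil))) 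
(.lf (nat_lit 570295) (.g (nat_lit 1687) (.e (nat_lit 475177) (nat_lit 24) (.e (nat_lit 516118) (nat_lit 1) (.e (nat_lit 164330) (nat_lit 230) (.e (nat_lit 163902) (nat_lit 12) (.e (nat_lit 426568) (nat_lit 34) .nil))))) (.g (nat_lit 0) (.e (nat_lit 350627) (nat_lit 0) .nil) .nil)))))) (.nd (nat_lit 7) (.nd (nat_lit 8) (.nd (nat_lit 9) 
(.lf (nat_lit 569463) (.g (nat_lit 2215) (.e (nat_lit 466955) (nat_lit 20) (.e (nat_lit 3238) (nat_lit 197) (.e (nat_lit 532523) (nat_lit 7) (.e (nat_lit 319528) (nat_lit 16) (.e (nat_lit 286735) (nat_lit 3) .nil))))) (.g (nat_lit 0) (.e (nat_lit 348057) (nat_lit 0) .nil) .nil))) 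
(.lf (nat_lit 569975) (.g (nat_lit 1249) (.e (nat_lit 483072) (nat_lit 5) (.e (nat_lit 180250) (nat_lit 10) (.e (nat_lit 573503) (nat_lit 18) (.e (nat_lit 1349) (nat_lit 102) .nil)))) (.g (nat_lit 0) (.e (nat_lit 349940) (nat_lit 0) .nil) .nil)))) (.nd (nat_lit 9) 
(.lf (nat_lit 569719) (.g (nat_lit 2036) (.e (nat_lit 466978) (nat_lit 23) (.e (nat_lit 204846) (nat_lit 24) (.e (nat_lit 319504) (nat_lit 10) (.e (nat_lit 5389) (nat_lit 301) (.e (nat_lit 57464) (nat_lit 23) .nil))))) (.g (nat_lit 0) (.e (nat_lit 348825) (nat_lit 0) .nil) .nil))) 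
(.lf (nat_lit 570231) (.g (nat_lit 3208) (.e (nat_lit 475177) (nat_lit 24) (.e (nat_lit 516115) (nat_lit 1) (.e (nat_lit 164325) (nat_lit 230) (.e (nat_lit 163903) (nat_lit 12) (.e (nat_lit 426568) (nat_lit 34) (.e (nat_lit 393292) (nat_lit 26) .nil)))))) (.g (nat_lit 1) (.e (nat_lit 350544) (nat_lit 0) .nil) .nil))))) (.nd (nat_lit 8) (.nd (nat_lit 9) 
(.lf (nat_lit 569591) (.g (nat_lit 1316) (.e (nat_lit 466971) (nat_lit 21) (.e (nat_lit 164322) (nat_lit 230) (.e (nat_lit 163885) (nat_lit 5) (.e (nat_lit 221192) (nat_lit 11) .nil)))) (.g (nat_lit 0) (.e (nat_lit 348306) (nat_lit 0) .nil) .nil))) 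
(.lf (nat_lit 570103) (.g (nat_lit 1363) (.e (nat_lit 475175) (nat_lit 24) (.e (nat_lit 516119) (nat_lit 1) (.e (nat_lit 164324) (nat_lit 230) (.e (nat_lit 163903) (nat_lit 12) .nil)))) (.g (nat_lit 0) (.e (nat_lit 350329) (nat_lit 0) .nil) .nil)))) (.nd (nat_lit 9) 
(.lf (nat_lit 569847) (.g (nat_lit 1456) (.e (nat_lit 466981) (nat_lit 23) (.e (nat_lit 204808) (nat_lit 9) (.e (nat_lit 426098) (nat_lit 1) (.e (nat_lit 164399) (nat_lit 256) (.e (nat_lit 57408) (nat_lit 12) .nil))))) (.g (nat_lit 0) (.e (nat_lit 349380) (nat_lit 0) .nil) .nil))) 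
(.lf (nat_lit 570359) (.g (nat_lit 1994) (.e (nat_lit 475177) (nat_lit 24) (.e (nat_lit 516120) (nat_lit 1) (.e (nat_lit 164330) (nat_lit 230) (.e (nat_lit 163905) (nat_lit 12) (.e (nat_lit 426502) (nat_lit 27) .nil))))) (.g (nat_lit 0) (.e (nat_lit 350716) (nat_lit 0) .nil) .nil))))))))) (.nd (nat_lit 4) (.nd (nat_lit 5) (.nd (nat_lit 6) (.nd (nat_lit 7) (.nd (nat_lit 8) (.nd (nat_lit 9) 
(.lf (nat_lit 569359) (.g (nat_lit 1268) (.e (nat_lit 474880) (nat_lit 13) (.e (nat_lit 352307) (nat_lit 21) (.e (nat_lit 57854) (nat_lit 252) (.e (nat_lit 57388) (nat_lit 5) .nil)))) (.g (nat_lit 0) (.e (nat_lit 347926) (nat_lit 0) .nil) .nil))) 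
(.lf (nat_lit 569871) (.g (nat_lit 2174) (.e (nat_lit 466981) (nat_lit 23) (.e (nat_lit 204830) (nat_lit 18) (.e (nat_lit 57692) (nat_lit 156) (.e (nat_lit 163905) (nat_lit 12) (.e (nat_lit 426484) (nat_lit 27) .nil))))) (.g (nat_lit 0) (.e (nat_lit 349469) (nat_lit 0) .nil) .nil)))) (.nd (nat_lit 9) 
(.lf (nat_lit 569615) (.g (nat_lit 1688) (.e (nat_lit 466971) (nat_lit 21) (.e (nat_lit 164327) (nat_lit 230) (.e (nat_lit 163843) (nat_lit 0) (.e (nat_lit 3617) (nat_lit 227) .nil)))) (.g (nat_lit 0) (.e (nat_lit 348335) (nat_lit 0) .nil) .nil))) 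
(.lf (nat_lit 570127) (.g (nat_lit 1189) (.e (nat_lit 475175) (nat_lit 24) (.e (nat_lit 516166) (nat_lit 12) (.e (nat_lit 450563) (nat_lit 0) .nil))) (.g (nat_lit 0) (.e (nat_lit 350376) (nat_lit 0) .nil) .nil))))) (.nd (nat_lit 8) (.nd (nat_lit 9) 
(.lf (nat_lit 569487) (.g (nat_lit 2614) (.e (nat_lit 466962) (nat_lit 20) (.e (nat_lit 3306) (nat_lit 202) (.e (nat_lit 573474) (nat_lit 12) (.e (nat_lit 57572) (nat_lit 54) (.e (nat_lit 770072) (nat_lit 8) .nil))))) (.g (nat_lit 0) (.e (nat_lit 348094) (nat_lit 0) .nil) .nil))) 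
(.lf (nat_lit 569999) (.g (nat_lit 2687) (.e (nat_lit 483072) (nat_lit 10) (.e (nat_lit 16457) (nat_lit 12) (.e (nat_lit 475179) (nat_lit 24) (.e (nat_lit 516117) (nat_lit 1) (.e (nat_lit 164330) (nat_lit 230) .nil))))) (.g (nat_lit 0) (.e (nat_lit 349985) (nat_lit 0) .nil) .nil)))) (.nd (nat_lit 9) 
(.lf (nat_lit 569743) (.g (nat_lit 1715) (.e (nat_lit 466979) (nat_lit 23) (.e (nat_lit 204813) (nat_lit 9) (.e (nat_lit 426099) (nat_lit 1) (.e (nat_lit 164399) (nat_lit 256) (.e (nat_lit 57408) (nat_lit 12) .nil))))) (.g (nat_lit 0) (.e (nat_lit 348865) (nat_lit 0) .nil) .nil))) 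
(.lf (nat_lit 570255) (.g (nat_lit 1238) (.e (nat_lit 475177) (nat_lit 24) (.e (nat_lit 516115) (nat_lit 1) (.e (nat_lit 164332) (nat_lit 230) (.e (nat_lit 163901) (nat_lit 12) .nil)))) (.g (nat_lit 0) (.e (nat_lit 350579) (nat_lit 0) .nil) .nil)))))) (.nd (nat_lit 7) (.nd (nat_lit 8) (.nd (nat_lit 9) 
(.lf (nat_lit 569423) (.g (nat_lit 1337) (.e (nat_lit 474880) (nat_lit 18) (.e (nat_lit 393252) (nat_lit 18) (.e (nat_lit 164401) (nat_lit 256) (.e (nat_lit 57378) (nat_lit 3) (.e (nat_lit 98380) (nat_lit 31) .nil))))) (.g (nat_lit 0) (.e (nat_lit 348016) (nat_lit 0) .nil) .nil))) 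
(.lf (nat_lit 569935) (.g (nat_lit 1654) (.e (nat_lit 466981) (nat_lit 23) (.e (nat_lit 204846) (nat_lit 24) (.e (nat_lit 319535) (nat_lit 17) (.e (nat_lit 294931) (nat_lit 3) .nil)))) (.g (nat_lit 0) (.e (nat_lit 349577) (nat_lit 0) .nil) .nil)))) (.nd (nat_lit 9) 
(.lf (nat_lit 569679) (.g (nat_lit 1690) (.e (nat_lit 466974) (nat_lit 22) (.e (nat_lit 196681) (nat_lit 17) (.e (nat_lit 131089) (nat_lit 1) (.e (nat_lit 57931) (nat_lit 282) (.e (nat_lit 163850) (nat_lit 0) (.e (nat_lit 7936) (nat_lit 200) (.e (nat_lit 557065) (nat_lit 9) (.e (nat_lit 3044) (nat_lit 189) .nil)))))))) (.g (nat_lit 1) (.e (nat_lit 348581) (nat_lit 0) .nil) .nil))) 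
(.lf (nat_lit 570191) (.g (nat_lit 966) (.e (nat_lit 475176) (nat_lit 24) (.e (nat_lit 516166) (nat_lit 12) (.e (nat_lit 458496) (nat_lit 0) .nil))) (.g (nat_lit 0) (.e (nat_lit 350497) (nat_lit 0) .nil) .nil))))) (.nd (nat_lit 8) (.nd (nat_lit 9) 
(.lf (nat_lit 569551) (.g (nat_lit 2782) (.e (nat_lit 466969) (nat_lit 21) (.e (nat_lit 164327) (nat_lit 230) (.e (nat_lit 163882) (nat_lit 4) (.e (nat_lit 213030) (nat_lit 11) (.e (nat_lit 24625) (nat_lit 9) (.e (nat_lit 336443) (nat_lit 32) .nil)))))) (.g (nat_lit 1) (.e (nat_lit 348203) (nat_lit 0) .nil) .nil))) 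
(.lf (nat_lit 570063) (.g (nat_lit 958) (.e (nat_lit 483072) (nat_lit 26) (.e (nat_lit 532544) (nat_lit 10) (.e (nat_lit 344130) (nat_lit 26) (.e (nat_lit 557104) (nat_lit 14) .nil)))) (.g (nat_lit 0) (.e (nat_lit 350231) (nat_lit 0) .nil) .nil)))) (.nd (nat_lit 9) 
(.lf (nat_lit 569807) (.g (nat_lit 3388) (.e (nat_lit 466979) (nat_lit 23) (.e (nat_lit 204846) (nat_lit 24) (.e (nat_lit 319534) (nat_lit 16) (.e (nat_lit 286734) (nat_lit 3) (.e (nat_lit 98380) (nat_lit 31) .nil))))) (.g (nat_lit 1) (.e (nat_lit 349031) (nat_lit 0) .nil) .nil))) 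
(.lf (nat_lit 570319) (.g (nat_lit 716) (.e (nat_lit 475177) (nat_lit 24) (.e (nat_lit 516119) (nat_lit 1) (.e (nat_lit 164323) (nat_lit 230) .nil))) (.g (nat_lit 0) (.e (nat_lit 350660) (nat_lit 0) .nil) .nil))))))) (.nd (nat_lit 6) (.nd (nat_lit 7) (.nd (nat_lit 8) (.nd (nat_lit 9) 
(.lf (nat_lit 569391) (.g (nat_lit 1593) (.e (nat_lit 474880) (nat_lit 16) (.e (nat_lit 376859) (nat_lit 21) (.e (nat_lit 57844) (nat_lit 252) (.e (nat_lit 57389) (nat_lit 5) (.e (nat_lit 122624) (nat_lit 16) .nil))))) (.g (nat_lit 0) (.e (nat_lit 347973) (nat_lit 0) .nil) .nil))) 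
(.lf (nat_lit 569903) (.g (nat_lit 1705) (.e (nat_lit 466981) (nat_lit 23) (.e (nat_lit 204846) (nat_lit 24) (.e (nat_lit 319504) (nat_lit 10) (.e (nat_lit 5396) (nat_lit 301) .nil)))) (.g (nat_lit 0) (.e (nat_lit 349521) (nat_lit 0) .nil) .nil)))) (.nd (nat_lit 9) 
(.lf (nat_lit 569647) (.g (nat_lit 2983) (.e (nat_lit 466972) (nat_lit 21) (.e (nat_lit 164330) (nat_lit 230) (.e (nat_lit 163878) (nat_lit 4) (.e (nat_lit 213032) (nat_lit 11) (.e (nat_lit 24626) (nat_lit 9) (.e (nat_lit 336443) (nat_lit 32) .nil)))))) (.g (nat_lit 1) (.e (nat_lit 348439) (nat_lit 0) .nil) .nil))) 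
(.lf (nat_lit 570159) (.g (nat_lit 4037) (.e (nat_lit 475176) (nat_lit 24) (.e (nat_lit 516119) (nat_lit 1) (.e (nat_lit 164322) (nat_lit 230) (.e (nat_lit 163902) (nat_lit 12) (.e (nat_lit 426568) (nat_lit 34) (.e (nat_lit 393294) (nat_lit 26) .nil)))))) (.g (nat_lit 1) (.e (nat_lit 350420) (nat_lit 0) .nil) .nil))))) (.nd (nat_lit 8) (.nd (nat_lit 9) 
(.lf (nat_lit 569519) (.g (nat_lit 1610) (.e (nat_lit 466968) (nat_lit 21) (.e (nat_lit 164329) (nat_lit 230) (.e (nat_lit 163885) (nat_lit 5) (.e (nat_lit 221194) (nat_lit 11) (.e (nat_lit 336077) (nat_lit 9) .nil))))) (.g (nat_lit 0) (.e (nat_lit 348147) (nat_lit 0) .nil) .nil))) 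
(.lf (nat_lit 570031) (.g (nat_lit 1497) (.e (nat_lit 483072) (nat_lit 26) (.e (nat_lit 532542) (nat_lit 9) (.e (nat_lit 336076) (nat_lit 9) (.e (nat_lit 336372) (nat_lit 27) (.e (nat_lit 426570) (nat_lit 35) .nil))))) (.g (nat_lit 0) (.e (nat_lit 350198) (nat_lit 0) .nil) .nil)))) (.nd (nat_lit 9) 
(.lf (nat_lit 569775) (.g (nat_lit 2489) (.e (nat_lit 466979) (nat_lit 23) (.e (nat_lit 204845) (nat_lit 24) (.e (nat_lit 319530) (nat_lit 16) (.e (nat_lit 286735) (nat_lit 3) (.e (nat_lit 98379) (nat_lit 31) .nil))))) (.g (nat_lit 0) (.e (nat_lit 348969) (nat_lit 0) .nil) .nil))) 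
(.lf (nat_lit 570287) (.g (nat_lit 366) (.e (nat_lit 475177) (nat_lit 24) (.e (nat_lit 516118) (nat_lit 1) (.e (nat_lit 164323) (nat_lit 230) .nil))) (.g (nat_lit 0) (.e (nat_lit 350616) (nat_lit 0) .nil) .nil)))))) (.nd (nat_lit 7) (.nd (nat_lit 8) (.nd (nat_lit 9) 
(.lf (nat_lit 569455) (.g (nat_lit 990) (.e (nat_lit 474880) (nat_lit 18) (.e (nat_lit 393254) (nat_lit 18) (.e (nat_lit 164329) (nat_lit 230) (.e (nat_lit 163873) (nat_lit 3) (.e (nat_lit 212736) (nat_lit 14) .nil))))) (.g (nat_lit 0) (.e (nat_lit 348049) (nat_lit 0) .nil) .nil))) 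
(.lf (nat_lit 569967) (.g (nat_lit 1839) (.e (nat_lit 483072) (nat_lit 2) (.e (nat_lit 24623) (nat_lit 9) (.e (nat_lit 336013) (nat_lit 2) (.e (nat_lit 98048) (nat_lit 2) .nil)))) (.g (nat_lit 0) (.e (nat_lit 349902) (nat_lit 0) .nil) .nil)))) (.nd (nat_lit 9) 
(.lf (nat_lit 569711) (.g (nat_lit 1272) (.e (nat_lit 466978) (nat_lit 23) (.e (nat_lit 204829) (nat_lit 18) (.e (nat_lit 57688) (nat_lit 156) (.e (nat_lit 163902) (nat_lit 12) .nil)))) (.g (nat_lit 0) (.e (nat_lit 348805) (nat_lit 0) .nil) .nil))) 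
(.lf (nat_lit 570223) (.g (nat_lit 2526) (.e (nat_lit 475177) (nat_lit 24) (.e (nat_lit 516115) (nat_lit 1) (.e (nat_lit 164325) (nat_lit 230) (.e (nat_lit 163874) (nat_lit 3) .nil)))) (.g (nat_lit 0) (.e (nat_lit 350536) (nat_lit 0) .nil) .nil))))) (.nd (nat_lit 8) (.nd (nat_lit 9) 
(.lf (nat_lit 569583) (.g (nat_lit 1332) (.e (nat_lit 466970) (nat_lit 21) (.e (nat_lit 164332) (nat_lit 230) (.e (nat_lit 163885) (nat_lit 5) (.e (nat_lit 229120) (nat_lit 16) .nil)))) (.g (nat_lit 0) (.e (nat_lit 348262) (nat_lit 0) .nil) .nil))) 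
(.lf (nat_lit 570095) (.g (nat_lit 589) (.e (nat_lit 483072) (nat_lit 26) (.e (nat_lit 532544) (nat_lit 10) (.e (nat_lit 344149) (nat_lit 33) .nil))) (.g (nat_lit 0) (.e (nat_lit 350263) (nat_lit 0) .nil) .nil)))) (.nd (nat_lit 9) 
(.lf (nat_lit 569839) (.g (nat_lit 3018) (.e (nat_lit 466980) (nat_lit 23) (.e (nat_lit 204846) (nat_lit 24) (.e (nat_lit 319533) (nat_lit 16) (.e (nat_lit 286734) (nat_lit 3) (.e (nat_lit 98380) (nat_lit 31) .nil))))) (.g (nat_lit 1) (.e (nat_lit 349333) (nat_lit 0) .nil) .nil))) 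
(.lf (nat_lit 570351) (.g (nat_lit 2427) (.e (nat_lit 475177) (nat_lit 24) (.e (nat_lit 516120) (nat_lit 1) (.e (nat_lit 164330) (nat_lit 230) (.e (nat_lit 163902) (nat_lit 12) (.e (nat_lit 426567) (nat_lit 34) (.e (nat_lit 393293) (nat_lit 26) .nil)))))) (.g (nat_lit 1) (.e (nat_lit 350707) (nat_lit 0) .nil) .nil)))))))) 
(.nd (nat_lit 5) (.nd (nat_lit 6) (.nd (nat_lit 7) (.nd (nat_lit 8) (.nd (nat_lit 9) 
(.lf (nat_lit 569375) (.g (nat_lit 1265) (.e (nat_lit 474880) (nat_lit 16) (.e (nat_lit 376857) (nat_lit 21) (.e (nat_lit 57846) (nat_lit 252) (.e (nat_lit 57390) (nat_lit 5) (.e (nat_lit 122624) (nat_lit 16) .nil))))) (.g (nat_lit 0) (.e (nat_lit 347955) (nat_lit 0) .nil) .nil))) 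
(.lf (nat_lit 569887) (.g (nat_lit 1956) (.e (nat_lit 466981) (nat_lit 23) (.e (nat_lit 204845) (nat_lit 24) (.e (nat_lit 319530) (nat_lit 16) (.e (nat_lit 286722) (nat_lit 0) (.e (nat_lit 1790) (nat_lit 119) .nil))))) (.g (nat_lit 0) (.e (nat_lit 349495) (nat_lit 0) .nil) .nil)))) (.nd (nat_lit 9) 
(.lf (nat_lit 569631) (.g (nat_lit 3054) (.e (nat_lit 466971) (nat_lit 21) (.e (nat_lit 164332) (nat_lit 230) (.e (nat_lit 163880) (nat_lit 4) (.e (nat_lit 213030) (nat_lit 11) (.e (nat_lit 24624) (nat_lit 9) .nil))))) (.g (nat_lit 0) (.e (nat_lit 348351) (nat_lit 0) .nil) .nil))) 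
(.lf (nat_lit 570143) (.g (nat_lit 3090) (.e (nat_lit 475176) (nat_lit 24) (.e (nat_lit 516115) (nat_lit 1) (.e (nat_lit 164327) (nat_lit 230) (.e (nat_lit 163903) (nat_lit 12) (.e (nat_lit 426568) (nat_lit 34) (.e (nat_lit 393294) (nat_lit 26) .nil)))))) (.g (nat_lit 1) (.e (nat_lit 350396) (nat_lit 0) .nil) .nil))))) (.nd (nat_lit 8) (.nd (nat_lit 9) 
(.lf (nat_lit 569503) (.g (nat_lit 1193) (.e (nat_lit 466967) (nat_lit 20) (.e (nat_lit 3305) (nat_lit 202) (.e (nat_lit 573456) (nat_lit 9) (.e (nat_lit 430) (nat_lit 32) .nil)))) (.g (nat_lit 0) (.e (nat_lit 348120) (nat_lit 0) .nil) .nil))) 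
(.lf (nat_lit 570015) (.g (nat_lit 225) (.e (nat_lit 475154) (nat_lit 20) (.e (nat_lit 229694) (nat_lit 250) (.e (nat_lit 172148) (nat_lit 27) .nil))) (.g (nat_lit 0) (.e (nat_lit 350086) (nat_lit 0) .nil) .nil)))) (.nd (nat_lit 9) 
(.lf (nat_lit 569759) (.g (nat_lit 837) (.e (nat_lit 466979) (nat_lit 23) (.e (nat_lit 204830) (nat_lit 18) (.e (nat_lit 57663) (nat_lit 152) .nil))) (.g (nat_lit 0) (.e (nat_lit 348931) (nat_lit 0) .nil) .nil))) 
(.lf (nat_lit 570271) (.g (nat_lit 4415) (.e (nat_lit 475177) (nat_lit 24) (.e (nat_lit 516117) (nat_lit 1) (.e (nat_lit 164330) (nat_lit 230) (.e (nat_lit 163902) (nat_lit 12) (.e (nat_lit 426568) (nat_lit 34) (.e (nat_lit 393291) (nat_lit 26) .nil)))))) (.g (nat_lit 1) (.e (nat_lit 350599) (nat_lit 0) .nil) .nil)))))) (.nd (nat_lit 7) (.nd (nat_lit 8) (.nd (nat_lit 9) 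
(.lf (nat_lit 569439) (.g (nat_lit 1363) (.e (nat_lit 474880) (nat_lit 18) (.e (nat_lit 393253) (nat_lit 18) (.e (nat_lit 164330) (nat_lit 230) (.e (nat_lit 163873) (nat_lit 3) (.e (nat_lit 212736) (nat_lit 14) .nil))))) (.g (nat_lit 0) (.e (nat_lit 348033) (nat_lit 0) .nil) .nil))) 
(.lf (nat_lit 569951) (.g (nat_lit 1929) (.e (nat_lit 474880) (nat_lit 23) (.e (nat_lit 204846) (nat_lit 24) (.e (nat_lit 319528) (nat_lit 16) (.e (nat_lit 286735) (nat_lit 3) (.e (nat_lit 98382) (nat_lit 31) .nil))))) (.g (nat_lit 0) (.e (nat_lit 349845) (nat_lit 0) .nil) .nil)))) (.nd (nat_lit 9) 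
(.lf (nat_lit 569695) (.g (nat_lit 1269) (.e (nat_lit 466977) (nat_lit 22) (.e (nat_lit 196681) (nat_lit 17) (.e (nat_lit 131085) (nat_lit 1) .nil))) (.g (nat_lit 0) (.e (nat_lit 348743) (nat_lit 0) .nil) .nil))) 
(.lf (nat_lit 570207) (.g (nat_lit 651) (.e (nat_lit 475176) (nat_lit 24) (.e (nat_lit 516181) (nat_lit 15) (.e (nat_lit 475176) (nat_lit 24) (.e (nat_lit 516179) (nat_lit 15) .nil)))) (.g (nat_lit 0) (.e (nat_lit 350514) (nat_lit 0) .nil) .nil))))) (.nd (nat_lit 8) (.nd (nat_lit 9) 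
(.lf (nat_lit 569567) (.g (nat_lit 605) (.e (nat_lit 466970) (nat_lit 21) (.e (nat_lit 164324) (nat_lit 230) (.e (nat_lit 163886) (nat_lit 5) .nil))) (.g (nat_lit 0) (.e (nat_lit 348246) (nat_lit 0) .nil) .nil))) 
(.lf (nat_lit 570079) (.g (nat_lit 816) (.e (nat_lit 483072) (nat_lit 26) (.e (nat_lit 532544) (nat_lit 10) (.e (nat_lit 344132) (nat_lit 26) (.e (nat_lit 557105) (nat_lit 14) .nil)))) (.g (nat_lit 0) (.e (nat_lit 350247) (nat_lit 0) .nil) .nil)))) (.nd (nat_lit 9) 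
(.lf (nat_lit 569823) (.g (nat_lit 700) (.e (nat_lit 466980) (nat_lit 23) (.e (nat_lit 204846) (nat_lit 24) (.e (nat_lit 319503) (nat_lit 10) .nil))) (.g (nat_lit 0) (.e (nat_lit 349300) (nat_lit 0) .nil) .nil))) 
(.lf (nat_lit 570335) (.g (nat_lit 1350) (.e (nat_lit 475177) (nat_lit 24) (.e (nat_lit 516119) (nat_lit 1) (.e (nat_lit 164327) (nat_lit 230) (.e (nat_lit 163906) (nat_lit 12) .nil)))) (.g (nat_lit 0) (.e (nat_lit 350680) (nat_lit 0) .nil) .nil))))))) (.nd (nat_lit 6) (.nd (nat_lit 7) (.nd (nat_lit 8) (.nd (nat_lit 9) 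
(.lf (nat_lit 569407) (.g (nat_lit 1808) (.e (nat_lit 474880) (nat_lit 16) (.e (nat_lit 376860) (nat_lit 21) (.e (nat_lit 57854) (nat_lit 252) (.e (nat_lit 57389) (nat_lit 5) (.e (nat_lit 122624) (nat_lit 16) .nil))))) (.g (nat_lit 0) (.e (nat_lit 347991) (nat_lit 0) .nil) .nil))) 
(.lf (nat_lit 569919) (.g (nat_lit 2288) (.e (nat_lit 466981) (nat_lit 23) (.e (nat_lit 204846) (nat_lit 24) (.e (nat_lit 319531) (nat_lit 16) (.e (nat_lit 286735) (nat_lit 3) (.e (nat_lit 98379) (nat_lit 31) .nil))))) (.g (nat_lit 0) (.e (nat_lit 349542) (nat_lit 0) .nil) .nil)))) (.nd (nat_lit 9) 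
(.lf (nat_lit 569663) (.g (nat_lit 1467) (.e (nat_lit 466972) (nat_lit 21) (.e (nat_lit 164403) (nat_lit 256) (.e (nat_lit 57400) (nat_lit 10) (.e (nat_lit 319504) (nat_lit 10) (.e (nat_lit 7936) (nat_lit 302) .nil))))) (.g (nat_lit 0) (.e (nat_lit 348462) (nat_lit 0) .nil) .nil))) 
(.lf (nat_lit 570175) (.g (nat_lit 1002) (.e (nat_lit 475176) (nat_lit 24) (.e (nat_lit 516148) (nat_lit 9) (.e (nat_lit 426436) (nat_lit 18) (.e (nat_lit 98385) (nat_lit 32) .nil)))) (.g (nat_lit 0) (.e (nat_lit 350439) (nat_lit 0) .nil) .nil))))) (.nd (nat_lit 8) (.nd (nat_lit 9) 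
(.lf (nat_lit 569535) (.g (nat_lit 877) (.e (nat_lit 466969) (nat_lit 21) (.e (nat_lit 164322) (nat_lit 230) (.e (nat_lit 163885) (nat_lit 5) (.e (nat_lit 229120) (nat_lit 13) .nil)))) (.g (nat_lit 0) (.e (nat_lit 348187) (nat_lit 0) .nil) .nil))) 
(.lf (nat_lit 570047) (.g (nat_lit 1152) (.e (nat_lit 483072) (nat_lit 26) (.e (nat_lit 532544) (nat_lit 10) (.e (nat_lit 344118) (nat_lit 21) (.e (nat_lit 516131) (nat_lit 3) (.e (nat_lit 221212) (nat_lit 22) .nil))))) (.g (nat_lit 0) (.e (nat_lit 350215) (nat_lit 0) .nil) .nil)))) (.nd (nat_lit 9) 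
(.lf (nat_lit 569791) (.g (nat_lit 1604) (.e (nat_lit 466979) (nat_lit 23) (.e (nat_lit 204846) (nat_lit 24) (.e (nat_lit 319505) (nat_lit 10) (.e (nat_lit 7936) (nat_lit 304) .nil)))) (.g (nat_lit 0) (.e (nat_lit 348993) (nat_lit 0) .nil) .nil))) 
(.lf (nat_lit 570303) (.g (nat_lit 2572) (.e (nat_lit 475177) (nat_lit 24) (.e (nat_lit 516118) (nat_lit 1) (.e (nat_lit 164332) (nat_lit 230) (.e (nat_lit 163902) (nat_lit 12) (.e (nat_lit 426567) (nat_lit 34) (.e (nat_lit 393293) (nat_lit 26) .nil)))))) (.g (nat_lit 1) (.e (nat_lit 350636) (nat_lit 0) .nil) .nil)))))) (.nd (nat_lit 7) (.nd (nat_lit 8) (.nd (nat_lit 9) 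
(.lf (nat_lit 569471) (.g (nat_lit 2626) (.e (nat_lit 466955) (nat_lit 20) (.e (nat_lit 3238) (nat_lit 197) (.e (nat_lit 532523) (nat_lit 7) (.e (nat_lit 319533) (nat_lit 16) (.e (nat_lit 286725) (nat_lit 0) .nil))))) (.g (nat_lit 0) (.e (nat_lit 348065) (nat_lit 0) .nil) .nil))) 
(.lf (nat_lit 569983) (.g (nat_lit 525) (.e (nat_lit 483072) (nat_lit 8) (.e (nat_lit 1669) (nat_lit 116) (.e (nat_lit 401438) (nat_lit 9) .nil))) (.g (nat_lit 0) (.e (nat_lit 349957) (nat_lit 0) .nil) .nil)))) (.nd (nat_lit 9) 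
(.lf (nat_lit 569727) (.g (nat_lit 2806) (.e (nat_lit 466978) (nat_lit 23) (.e (nat_lit 204846) (nat_lit 24) (.e (nat_lit 319530) (nat_lit 16) (.e (nat_lit 286734) (nat_lit 3) (.e (nat_lit 98381) (nat_lit 31) .nil))))) (.g (nat_lit 0) (.e (nat_lit 348834) (nat_lit 0) .nil) .nil))) 
(.lf (nat_lit 570239) (.g (nat_lit 2228) (.e (nat_lit 475177) (nat_lit 24) (.e (nat_lit 516115) (nat_lit 1) (.e (nat_lit 164325) (nat_lit 230) (.e (nat_lit 163907) (nat_lit 12) (.e (nat_lit 433920) (nat_lit 34) .nil))))) (.g (nat_lit 0) (.e (nat_lit 350552) (nat_lit 0) .nil) .nil))))) (.nd (nat_lit 8) (.nd (nat_lit 9) 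
(.lf (nat_lit 569599) (.g (nat_lit 1226) (.e (nat_lit 466971) (nat_lit 21) (.e (nat_lit 164324) (nat_lit 230) (.e (nat_lit 163885) (nat_lit 5) (.e (nat_lit 229120) (nat_lit 16) .nil)))) (.g (nat_lit 0) (.e (nat_lit 348314) (nat_lit 0) .nil) .nil))) 
(.lf (nat_lit 570111) (.g (nat_lit 2803) (.e (nat_lit 475175) (nat_lit 24) (.e (nat_lit 516119) (nat_lit 1) (.e (nat_lit 164326) (nat_lit 230) (.e (nat_lit 163903) (nat_lit 12) (.e (nat_lit 426566) (nat_lit 34) (.e (nat_lit 393295) (nat_lit 26) .nil)))))) (.g (nat_lit 1) (.e (nat_lit 350344) (nat_lit 0) .nil) .nil)))) (.nd (nat_lit 9) 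
(.lf (nat_lit 569855) (.g (nat_lit 2328) (.e (nat_lit 466981) (nat_lit 23) (.e (nat_lit 204809) (nat_lit 9) (.e (nat_lit 426108) (nat_lit 1) (.e (nat_lit 164402) (nat_lit 256) (.e (nat_lit 57408) (nat_lit 12) .nil))))) (.g (nat_lit 0) (.e (nat_lit 349388) (nat_lit 0) .nil) .nil))) 
(.lf (nat_lit 570367) (.g (nat_lit 1485) (.e (nat_lit 475177) (nat_lit 24) (.e (nat_lit 516120) (nat_lit 1) (.e (nat_lit 164332) (nat_lit 230) (.e (nat_lit 163938) (nat_lit 18) .nil)))) (.g (nat_lit 0) (.e (nat_lit 350726) (nat_lit 0) .nil) .nil)))))))))))))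

noncomputable def tv5617 : DT := (.nd (nat_lit 0) (.nd (nat_lit 1) (.nd (nat_lit 2) (.nd (nat_lit 3) (.nd (nat_lit 4) (.nd (nat_lit 5) (.nd (nat_lit 6) (.nd (nat_lit 7) (.nd (nat_lit 8) (.nd (nat_lit 9) 
(.lf (nat_lit 570368) (.g (nat_lit 2036) (.e (nat_lit 475177) (nat_lit 24) (.e (nat_lit 516122) (nat_lit 2) (.e (nat_lit 213032) (nat_lit 11) (.e (nat_lit 24608) (nat_lit 3) (.e (nat_lit 98363) (nat_lit 26) (.e (nat_lit 426318) (nat_lit 12) .nil)))))) (.g (nat_lit 1) (.e (nat_lit 350730) (nat_lit 0) .nil) .nil))) 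
(.lf (nat_lit 570880) (.g (nat_lit 1038) (.e (nat_lit 475179) (nat_lit 24) (.e (nat_lit 516120) (nat_lit 1) (.e (nat_lit 164332) (nat_lit 230) (.e (nat_lit 163901) (nat_lit 12) .nil)))) (.g (nat_lit 0) (.e (nat_lit 351462) (nat_lit 0) .nil) .nil)))) (.nd (nat_lit 9) 
(.lf (nat_lit 570624) (.g (nat_lit 251) (.e (nat_lit 475178) (nat_lit 24) (.e (nat_lit 516120) (nat_lit 1) (.e (nat_lit 164329) (nat_lit 230) .nil))) (.g (nat_lit 0) (.e (nat_lit 351091) (nat_lit 0) .nil) .nil))) 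
(.lf (nat_lit 571136) (.g (nat_lit 3605) (.e (nat_lit 475183) (nat_lit 29) (.e (nat_lit 557109) (nat_lit 15) (.e (nat_lit 188452) (nat_lit 23) (.e (nat_lit 204819) (nat_lit 17) (.e (nat_lit 6666) (nat_lit 357) .nil))))) (.g (nat_lit 0) (.e (nat_lit 351927) (nat_lit 0) .nil) .nil))))) (.nd (nat_lit 8) (.nd (nat_lit 9) 
(.lf (nat_lit 570496) (.g (nat_lit 2843) (.e (nat_lit 475177) (nat_lit 24) (.e (nat_lit 516174) (nat_lit 14) (.e (nat_lit 466954) (nat_lit 11) (.e (nat_lit 335987) (nat_lit 1) (.e (nat_lit 57691) (nat_lit 156) (.e (nat_lit 163938) (nat_lit 18) .nil)))))) (.g (nat_lit 1) (.e (nat_lit 350910) (nat_lit 0) .nil) .nil))) 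
(.lf (nat_lit 571008) (.g (nat_lit 1938) (.e (nat_lit 475179) (nat_lit 24) (.e (nat_lit 516176) (nat_lit 14) (.e (nat_lit 466954) (nat_lit 11) (.e (nat_lit 335986) (nat_lit 1) (.e (nat_lit 57687) (nat_lit 156) .nil))))) (.g (nat_lit 0) (.e (nat_lit 351785) (nat_lit 0) .nil) .nil)))) (.nd (nat_lit 9) 
(.lf (nat_lit 570752) (.g (nat_lit 2574) (.e (nat_lit 475179) (nat_lit 24) (.e (nat_lit 516117) (nat_lit 1) (.e (nat_lit 164332) (nat_lit 230) (.e (nat_lit 163905) (nat_lit 12) (.e (nat_lit 426564) (nat_lit 34) (.e (nat_lit 393291) (nat_lit 26) .nil)))))) (.g (nat_lit 1) (.e (nat_lit 351286) (nat_lit 0) .nil) .nil))) 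
(.lf (nat_lit 571264) (.g (nat_lit 4449) (.e (nat_lit 475184) (nat_lit 29) (.e (nat_lit 557109) (nat_lit 15) (.e (nat_lit 188452) (nat_lit 23) (.e (nat_lit 204818) (nat_lit 17) .nil)))) (.g (nat_lit 0) (.e (nat_lit 352070) (nat_lit 0) .nil) .nil)))))) (.nd (nat_lit 7) (.nd (nat_lit 8) (.nd (nat_lit 9) 
(.lf (nat_lit 570432) (.g (nat_lit 3269) (.e (nat_lit 475177) (nat_lit 24) (.e (nat_lit 516150) (nat_lit 9) (.e (nat_lit 426131) (nat_lit 3) (.e (nat_lit 204837) (nat_lit 20) (.e (nat_lit 114689) (nat_lit 0) (.e (nat_lit 3233) (nat_lit 197) (.e (nat_lit 540416) (nat_lit 32) .nil))))))) (.g (nat_lit 1) (.e (nat_lit 350808) (nat_lit 0) .nil) .nil))) 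
(.lf (nat_lit 570944) (.g (nat_lit 3754) (.e (nat_lit 475179) (nat_lit 24) (.e (nat_lit 516150) (nat_lit 9) (.e (nat_lit 426131) (nat_lit 3) (.e (nat_lit 204838) (nat_lit 20) (.e (nat_lit 122624) (nat_lit 3) (.e (nat_lit 212736) (nat_lit 15) .nil)))))) (.g (nat_lit 1) (.e (nat_lit 351561) (nat_lit 0) .nil) .nil)))) (.nd (nat_lit 9) 
(.lf (nat_lit 570688) (.g (nat_lit 3518) (.e (nat_lit 475179) (nat_lit 24) (.e (nat_lit 516115) (nat_lit 1) (.e (nat_lit 164325) (nat_lit 230) (.e (nat_lit 163936) (nat_lit 18) (.e (nat_lit 483072) (nat_lit 10) (.e (nat_lit 16458) (nat_lit 12) .nil)))))) (.g (nat_lit 1) (.e (nat_lit 351183) (nat_lit 0) .nil) .nil))) 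
(.lf (nat_lit 571200) (.g (nat_lit 2478) (.e (nat_lit 475184) (nat_lit 29) (.e (nat_lit 557107) (nat_lit 15) (.e (nat_lit 188440) (nat_lit 20) (.e (nat_lit 3307) (nat_lit 202) (.e (nat_lit 573457) (nat_lit 9) (.e (nat_lit 430) (nat_lit 32) (.e (nat_lit 426315) (nat_lit 12) .nil))))))) (.g (nat_lit 1) (.e (nat_lit 352006) (nat_lit 0) .nil) .nil))))) (.nd (nat_lit 8) (.nd (nat_lit 9) 
(.lf (nat_lit 570560) (.g (nat_lit 2218) (.e (nat_lit 475177) (nat_lit 24) (.e (nat_lit 516176) (nat_lit 14) (.e (nat_lit 466954) (nat_lit 11) (.e (nat_lit 335996) (nat_lit 1) (.e (nat_lit 57690) (nat_lit 156) .nil))))) (.g (nat_lit 0) (.e (nat_lit 350992) (nat_lit 0) .nil) .nil))) 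
(.lf (nat_lit 571072) (.g (nat_lit 3646) (.e (nat_lit 475183) (nat_lit 29) (.e (nat_lit 557100) (nat_lit 13) (.e (nat_lit 172106) (nat_lit 10) (.e (nat_lit 434244) (nat_lit 28) (.e (nat_lit 573451) (nat_lit 9) (.e (nat_lit 430) (nat_lit 32) (.e (nat_lit 426315) (nat_lit 12) .nil))))))) (.g (nat_lit 1) (.e (nat_lit 351861) (nat_lit 0) .nil) .nil)))) (.nd (nat_lit 9) 
(.lf (nat_lit 570816) (.g (nat_lit 1884) (.e (nat_lit 475179) (nat_lit 24) (.e (nat_lit 516120) (nat_lit 1) (.e (nat_lit 164329) (nat_lit 230) (.e (nat_lit 163902) (nat_lit 12) (.e (nat_lit 426568) (nat_lit 34) (.e (nat_lit 401152) (nat_lit 26) .nil)))))) (.g (nat_lit 1) (.e (nat_lit 351384) (nat_lit 0) .nil) .nil))) 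
(.lf (nat_lit 571328) (.g (nat_lit 461) (.e (nat_lit 475185) (nat_lit 29) (.e (nat_lit 557100) (nat_lit 13) (.e (nat_lit 172079) (nat_lit 7) .nil))) (.g (nat_lit 0) (.e (nat_lit 352146) (nat_lit 0) .nil) .nil))))))) (.nd (nat_lit 6) (.nd (nat_lit 7) (.nd (nat_lit 8) (.nd (nat_lit 9) 
(.lf (nat_lit 570400) (.g (nat_lit 2411) (.e (nat_lit 475177) (nat_lit 24) (.e (nat_lit 516146) (nat_lit 9) (.e (nat_lit 426438) (nat_lit 18) (.e (nat_lit 98358) (nat_lit 26) (.e (nat_lit 426363) (nat_lit 15) .nil))))) (.g (nat_lit 0) (.e (nat_lit 350769) (nat_lit 0) .nil) .nil))) 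
(.lf (nat_lit 570912) (.g (nat_lit 3829) (.e (nat_lit 475179) (nat_lit 24) (.e (nat_lit 516131) (nat_lit 3) (.e (nat_lit 221194) (nat_lit 11) (.e (nat_lit 336011) (nat_lit 2) (.e (nat_lit 90170) (nat_lit 13) (.e (nat_lit 172118) (nat_lit 12) .nil)))))) (.g (nat_lit 1) (.e (nat_lit 351506) (nat_lit 0) .nil) .nil)))) (.nd (nat_lit 9) 
(.lf (nat_lit 570656) (.g (nat_lit 3453) (.e (nat_lit 475179) (nat_lit 24) (.e (nat_lit 516115) (nat_lit 1) (.e (nat_lit 164325) (nat_lit 230) (.e (nat_lit 163874) (nat_lit 3) (.e (nat_lit 204837) (nat_lit 20) .nil))))) (.g (nat_lit 0) (.e (nat_lit 351148) (nat_lit 0) .nil) .nil))) 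
(.lf (nat_lit 571168) (.g (nat_lit 3382) (.e (nat_lit 475184) (nat_lit 29) (.e (nat_lit 557098) (nat_lit 13) (.e (nat_lit 172115) (nat_lit 10) (.e (nat_lit 434244) (nat_lit 28) (.e (nat_lit 573468) (nat_lit 10) (.e (nat_lit 8524) (nat_lit 205) (.e (nat_lit 3067) (nat_lit 190) .nil))))))) (.g (nat_lit 1) (.e (nat_lit 351969) (nat_lit 0) .nil) .nil))))) (.nd (nat_lit 8) (.nd (nat_lit 9) 
(.lf (nat_lit 570528) (.g (nat_lit 2423) (.e (nat_lit 475177) (nat_lit 24) (.e (nat_lit 516176) (nat_lit 14) (.e (nat_lit 466954) (nat_lit 11) (.e (nat_lit 335986) (nat_lit 1) (.e (nat_lit 57655) (nat_lit 152) (.e (nat_lit 2485) (nat_lit 157) (.e (nat_lit 3067) (nat_lit 190) .nil))))))) (.g (nat_lit 1) (.e (nat_lit 350952) (nat_lit 0) .nil) .nil))) 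
(.lf (nat_lit 571040) (.g (nat_lit 2998) (.e (nat_lit 475179) (nat_lit 24) (.e (nat_lit 516179) (nat_lit 15) (.e (nat_lit 475179) (nat_lit 24) (.e (nat_lit 516151) (nat_lit 9) (.e (nat_lit 433920) (nat_lit 18) .nil))))) (.g (nat_lit 0) (.e (nat_lit 351822) (nat_lit 0) .nil) .nil)))) (.nd (nat_lit 9) 
(.lf (nat_lit 570784) (.g (nat_lit 1961) (.e (nat_lit 475179) (nat_lit 24) (.e (nat_lit 516119) (nat_lit 1) (.e (nat_lit 164326) (nat_lit 230) (.e (nat_lit 163903) (nat_lit 12) (.e (nat_lit 426567) (nat_lit 34) .nil))))) (.g (nat_lit 0) (.e (nat_lit 351342) (nat_lit 0) .nil) .nil))) 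
(.lf (nat_lit 571296) (.g (nat_lit 3019) (.e (nat_lit 475185) (nat_lit 29) (.e (nat_lit 557098) (nat_lit 13) (.e (nat_lit 172090) (nat_lit 9) (.e (nat_lit 426125) (nat_lit 2) (.e (nat_lit 196683) (nat_lit 18) .nil))))) (.g (nat_lit 0) (.e (nat_lit 352113) (nat_lit 0) .nil) .nil)))))) (.nd (nat_lit 7) (.nd (nat_lit 8) (.nd (nat_lit 9) 
(.lf (nat_lit 570464) (.g (nat_lit 2920) (.e (nat_lit 475177) (nat_lit 24) (.e (nat_lit 516150) (nat_lit 9) (.e (nat_lit 426323) (nat_lit 13) (.e (nat_lit 483366) (nat_lit 18) (.e (nat_lit 57691) (nat_lit 156) (.e (nat_lit 163939) (nat_lit 18) .nil)))))) (.g (nat_lit 1) (.e (nat_lit 350851) (nat_lit 0) .nil) .nil))) 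
(.lf (nat_lit 570976) (.g (nat_lit 2492) (.e (nat_lit 475179) (nat_lit 24) (.e (nat_lit 516174) (nat_lit 14) (.e (nat_lit 466954) (nat_lit 11) (.e (nat_lit 335987) (nat_lit 1) (.e (nat_lit 57692) (nat_lit 156) (.e (nat_lit 163939) (nat_lit 18) .nil)))))) (.g (nat_lit 1) (.e (nat_lit 351745) (nat_lit 0) .nil) .nil)))) (.nd (nat_lit 9) 
(.lf (nat_lit 570720) (.g (nat_lit 3203) (.e (nat_lit 475179) (nat_lit 24) (.e (nat_lit 516117) (nat_lit 1) (.e (nat_lit 164322) (nat_lit 230) (.e (nat_lit 163902) (nat_lit 12) (.e (nat_lit 426568) (nat_lit 34) (.e (nat_lit 393291) (nat_lit 26) .nil)))))) (.g (nat_lit 1) (.e (nat_lit 351247) (nat_lit 0) .nil) .nil))) 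
(.lf (nat_lit 571232) (.g (nat_lit 1658) (.e (nat_lit 475184) (nat_lit 29) (.e (nat_lit 557109) (nat_lit 15) (.e (nat_lit 188441) (nat_lit 20) (.e (nat_lit 3271) (nat_lit 199) .nil)))) (.g (nat_lit 0) (.e (nat_lit 352038) (nat_lit 0) .nil) .nil))))) (.nd (nat_lit 8) (.nd (nat_lit 9) 
(.lf (nat_lit 570592) (.g (nat_lit 2384) (.e (nat_lit 475177) (nat_lit 24) (.e (nat_lit 516181) (nat_lit 15) (.e (nat_lit 475177) (nat_lit 24) (.e (nat_lit 516181) (nat_lit 15) (.e (nat_lit 475178) (nat_lit 24) (.e (nat_lit 516179) (nat_lit 15) .nil)))))) (.g (nat_lit 1) (.e (nat_lit 351043) (nat_lit 0) .nil) .nil))) 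
(.lf (nat_lit 571104) (.g (nat_lit 1184) (.e (nat_lit 475183) (nat_lit 29) (.e (nat_lit 557108) (nat_lit 15) (.e (nat_lit 188447) (nat_lit 22) (.e (nat_lit 196661) (nat_lit 12) .nil)))) (.g (nat_lit 0) (.e (nat_lit 351895) (nat_lit 0) .nil) .nil)))) (.nd (nat_lit 9) 
(.lf (nat_lit 570848) (.g (nat_lit 2372) (.e (nat_lit 475179) (nat_lit 24) (.e (nat_lit 516120) (nat_lit 1) (.e (nat_lit 164330) (nat_lit 230) (.e (nat_lit 163905) (nat_lit 12) (.e (nat_lit 426487) (nat_lit 27) .nil))))) (.g (nat_lit 0) (.e (nat_lit 351416) (nat_lit 0) .nil) .nil))) 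
(.lf (nat_lit 571360) (.g (nat_lit 3423) (.e (nat_lit 475185) (nat_lit 29) (.e (nat_lit 557100) (nat_lit 13) (.e (nat_lit 172106) (nat_lit 10) (.e (nat_lit 434231) (nat_lit 23) (.e (nat_lit 532490) (nat_lit 0) (.e (nat_lit 7936) (nat_lit 357) (.e (nat_lit 3060) (nat_lit 190) .nil))))))) (.g (nat_lit 1) (.e (nat_lit 352178) (nat_lit 0) .nil) .nil)))))))) 
(.nd (nat_lit 5) (.nd (nat_lit 6) (.nd (nat_lit 7) (.nd (nat_lit 8) (.nd (nat_lit 9) 
(.lf (nat_lit 570384) (.g (nat_lit 2352) (.e (nat_lit 475177) (nat_lit 24) (.e (nat_lit 516131) (nat_lit 3) (.e (nat_lit 221194) (nat_lit 11) (.e (nat_lit 336027) (nat_lit 3) (.e (nat_lit 98354) (nat_lit 26) .nil))))) (.g (nat_lit 0) (.e (nat_lit 350747) (nat_lit 0) .nil) .nil))) 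
(.lf (nat_lit 570896) (.g (nat_lit 2747) (.e (nat_lit 475179) (nat_lit 24) (.e (nat_lit 516120) (nat_lit 1) (.e (nat_lit 164332) (nat_lit 230) (.e (nat_lit 163905) (nat_lit 12) (.e (nat_lit 426489) (nat_lit 27) (.e (nat_lit 336409) (nat_lit 27) (.e (nat_lit 426313) (nat_lit 12) .nil))))))) (.g (nat_lit 1) (.e (nat_lit 351478) (nat_lit 0) .nil) .nil)))) (.nd (nat_lit 9) 
(.lf (nat_lit 570640) (.g (nat_lit 2676) (.e (nat_lit 475178) (nat_lit 24) (.e (nat_lit 516163) (nat_lit 11) (.e (nat_lit 442421) (nat_lit 21) (.e (nat_lit 164178) (nat_lit 154) (.e (nat_lit 57390) (nat_lit 5) .nil))))) (.g (nat_lit 0) (.e (nat_lit 351125) (nat_lit 0) .nil) .nil))) 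
(.lf (nat_lit 571152) (.g (nat_lit 2998) (.e (nat_lit 475184) (nat_lit 29) (.e (nat_lit 557098) (nat_lit 13) (.e (nat_lit 172097) (nat_lit 9) (.e (nat_lit 426140) (nat_lit 3) (.e (nat_lit 204821) (nat_lit 17) (.e (nat_lit 6680) (nat_lit 357) (.e (nat_lit 3066) (nat_lit 190) .nil))))))) (.g (nat_lit 1) (.e (nat_lit 351953) (nat_lit 0) .nil) .nil))))) (.nd (nat_lit 8) (.nd (nat_lit 9) 
(.lf (nat_lit 570512) (.g (nat_lit 1061) (.e (nat_lit 475177) (nat_lit 24) (.e (nat_lit 516174) (nat_lit 14) (.e (nat_lit 466954) (nat_lit 11) (.e (nat_lit 335995) (nat_lit 1) .nil)))) (.g (nat_lit 0) (.e (nat_lit 350931) (nat_lit 0) .nil) .nil))) 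
(.lf (nat_lit 571024) (.g (nat_lit 1068) (.e (nat_lit 475179) (nat_lit 24) (.e (nat_lit 516176) (nat_lit 14) (.e (nat_lit 466972) (nat_lit 21) (.e (nat_lit 164182) (nat_lit 154) .nil)))) (.g (nat_lit 0) (.e (nat_lit 351804) (nat_lit 0) .nil) .nil)))) (.nd (nat_lit 9) 
(.lf (nat_lit 570768) (.g (nat_lit 1865) (.e (nat_lit 475179) (nat_lit 24) (.e (nat_lit 516119) (nat_lit 1) (.e (nat_lit 164325) (nat_lit 230) (.e (nat_lit 163903) (nat_lit 12) (.e (nat_lit 426481) (nat_lit 27) .nil))))) (.g (nat_lit 0) (.e (nat_lit 351312) (nat_lit 0) .nil) .nil))) 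
(.lf (nat_lit 571280) (.g (nat_lit 2197) (.e (nat_lit 475184) (nat_lit 29) (.e (nat_lit 557109) (nat_lit 15) (.e (nat_lit 188458) (nat_lit 25) (.e (nat_lit 245767) (nat_lit 0) .nil)))) (.g (nat_lit 0) (.e (nat_lit 352086) (nat_lit 0) .nil) .nil)))))) (.nd (nat_lit 7) (.nd (nat_lit 8) (.nd (nat_lit 9) 
(.lf (nat_lit 570448) (.g (nat_lit 1908) (.e (nat_lit 475177) (nat_lit 24) (.e (nat_lit 516150) (nat_lit 9) (.e (nat_lit 426323) (nat_lit 13) (.e (nat_lit 483364) (nat_lit 18) (.e (nat_lit 57685) (nat_lit 156) (.e (nat_lit 163939) (nat_lit 18) .nil)))))) (.g (nat_lit 1) (.e (nat_lit 350834) (nat_lit 0) .nil) .nil))) 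
(.lf (nat_lit 570960) (.g (nat_lit 2524) (.e (nat_lit 475179) (nat_lit 24) (.e (nat_lit 516151) (nat_lit 9) (.e (nat_lit 426331) (nat_lit 13) (.e (nat_lit 483363) (nat_lit 18) (.e (nat_lit 57692) (nat_lit 156) .nil))))) (.g (nat_lit 0) (.e (nat_lit 351586) (nat_lit 0) .nil) .nil)))) (.nd (nat_lit 9) 
(.lf (nat_lit 570704) (.g (nat_lit 1975) (.e (nat_lit 475179) (nat_lit 24) (.e (nat_lit 516115) (nat_lit 1) (.e (nat_lit 164329) (nat_lit 230) (.e (nat_lit 163902) (nat_lit 12) (.e (nat_lit 426568) (nat_lit 34) .nil))))) (.g (nat_lit 0) (.e (nat_lit 351220) (nat_lit 0) .nil) .nil))) 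
(.lf (nat_lit 571216) (.g (nat_lit 1195) (.e (nat_lit 475184) (nat_lit 29) (.e (nat_lit 557107) (nat_lit 15) (.e (nat_lit 188450) (nat_lit 23) (.e (nat_lit 212736) (nat_lit 33) .nil)))) (.g (nat_lit 0) (.e (nat_lit 352022) (nat_lit 0) .nil) .nil))))) (.nd (nat_lit 8) (.nd (nat_lit 9) 
(.lf (nat_lit 570576) (.g (nat_lit 1719) (.e (nat_lit 475177) (nat_lit 24) (.e (nat_lit 516179) (nat_lit 15) (.e (nat_lit 475179) (nat_lit 24) (.e (nat_lit 516145) (nat_lit 9) .nil)))) (.g (nat_lit 0) (.e (nat_lit 351016) (nat_lit 0) .nil) .nil))) 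
(.lf (nat_lit 571088) (.g (nat_lit 1993) (.e (nat_lit 475183) (nat_lit 29) (.e (nat_lit 557101) (nat_lit 13) (.e (nat_lit 172115) (nat_lit 10) (.e (nat_lit 434238) (nat_lit 25) (.e (nat_lit 548902) (nat_lit 14) .nil))))) (.g (nat_lit 0) (.e (nat_lit 351877) (nat_lit 0) .nil) .nil)))) (.nd (nat_lit 9) 
(.lf (nat_lit 570832) (.g (nat_lit 2936) (.e (nat_lit 475179) (nat_lit 24) (.e (nat_lit 516120) (nat_lit 1) (.e (nat_lit 164330) (nat_lit 230) (.e (nat_lit 163902) (nat_lit 12) (.e (nat_lit 426481) (nat_lit 27) (.e (nat_lit 336388) (nat_lit 27) (.e (nat_lit 426306) (nat_lit 12) .nil))))))) (.g (nat_lit 1) (.e (nat_lit 351400) (nat_lit 0) .nil) .nil))) 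
(.lf (nat_lit 571344) (.g (nat_lit 2954) (.e (nat_lit 475185) (nat_lit 29) (.e (nat_lit 557100) (nat_lit 13) (.e (nat_lit 172106) (nat_lit 10) (.e (nat_lit 434231) (nat_lit 23) (.e (nat_lit 532482) (nat_lit 0) (.e (nat_lit 6696) (nat_lit 357) (.e (nat_lit 3070) (nat_lit 190) .nil))))))) (.g (nat_lit 1) (.e (nat_lit 352162) (nat_lit 0) .nil) .nil))))))) 
(.nd (nat_lit 6) (.nd (nat_lit 7) (.nd (nat_lit 8) (.nd (nat_lit 9) 
(.lf (nat_lit 570416) (.g (nat_lit 2430) (.e (nat_lit 475177) (nat_lit 24) (.e (nat_lit 516149) (nat_lit 9) (.e (nat_lit 426323) (nat_lit 13) (.e (nat_lit 483363) (nat_lit 18) (.e (nat_lit 57692) (nat_lit 156) (.e (nat_lit 163938) (nat_lit 18) .nil)))))) (.g (nat_lit 1) (.e (nat_lit 350790) (nat_lit 0) .nil) .nil))) 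
(.lf (nat_lit 570928) (.g (nat_lit 3325) (.e (nat_lit 475179) (nat_lit 24) (.e (nat_lit 516146) (nat_lit 9) (.e (nat_lit 426323) (nat_lit 13) (.e (nat_lit 483365) (nat_lit 18) (.e (nat_lit 57691) (nat_lit 156) (.e (nat_lit 163938) (nat_lit 18) .nil)))))) (.g (nat_lit 1) (.e (nat_lit 351528) (nat_lit 0) .nil) .nil)))) (.nd (nat_lit 9) 
(.lf (nat_lit 570672) (.g (nat_lit 3331) (.e (nat_lit 475179) (nat_lit 24) (.e (nat_lit 516115) (nat_lit 1) (.e (nat_lit 164325) (nat_lit 230) (.e (nat_lit 163905) (nat_lit 12) (.e (nat_lit 426566) (nat_lit 34) (.e (nat_lit 393290) (nat_lit 26) .nil)))))) (.g (nat_lit 1) (.e (nat_lit 351165) (nat_lit 0) .nil) .nil))) 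
(.lf (nat_lit 571184) (.g (nat_lit 3051) (.e (nat_lit 475184) (nat_lit 29) (.e (nat_lit 557101) (nat_lit 13) (.e (nat_lit 172097) (nat_lit 9) (.e (nat_lit 426125) (nat_lit 2) (.e (nat_lit 196661) (nat_lit 12) (.e (nat_lit 57751) (nat_lit 201) (.e (nat_lit 3064) (nat_lit 190) .nil))))))) (.g (nat_lit 1) (.e (nat_lit 351985) (nat_lit 0) .nil) .nil))))) (.nd (nat_lit 8) (.nd (nat_lit 9) 
(.lf (nat_lit 570544) (.g (nat_lit 1336) (.e (nat_lit 475177) (nat_lit 24) (.e (nat_lit 516176) (nat_lit 14) (.e (nat_lit 466954) (nat_lit 11) (.e (nat_lit 335994) (nat_lit 1) (.e (nat_lit 57685) (nat_lit 156) .nil))))) (.g (nat_lit 0) (.e (nat_lit 350975) (nat_lit 0) .nil) .nil))) 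
(.lf (nat_lit 571056) (.g (nat_lit 1947) (.e (nat_lit 475183) (nat_lit 29) (.e (nat_lit 557097) (nat_lit 13) (.e (nat_lit 172115) (nat_lit 10) (.e (nat_lit 434238) (nat_lit 25) (.e (nat_lit 548902) (nat_lit 14) .nil))))) (.g (nat_lit 0) (.e (nat_lit 351845) (nat_lit 0) .nil) .nil)))) (.nd (nat_lit 9) 
(.lf (nat_lit 570800) (.g (nat_lit 776) (.e (nat_lit 475179) (nat_lit 24) (.e (nat_lit 516119) (nat_lit 1) (.e (nat_lit 164330) (nat_lit 230) .nil))) (.g (nat_lit 0) (.e (nat_lit 351364) (nat_lit 0) .nil) .nil))) 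
(.lf (nat_lit 571312) (.g (nat_lit 4508) (.e (nat_lit 475185) (nat_lit 29) (.e (nat_lit 557098) (nat_lit 13) (.e (nat_lit 172106) (nat_lit 10) (.e (nat_lit 434231) (nat_lit 23) (.e (nat_lit 532483) (nat_lit 0) .nil))))) (.g (nat_lit 0) (.e (nat_lit 352129) (nat_lit 0) .nil) .nil)))))) (.nd (nat_lit 7) (.nd (nat_lit 8) (.nd (nat_lit 9) 
(.lf (nat_lit 570480) (.g (nat_lit 1959) (.e (nat_lit 475177) (nat_lit 24) (.e (nat_lit 516151) (nat_lit 9) (.e (nat_lit 426331) (nat_lit 13) (.e (nat_lit 483363) (nat_lit 18) .nil)))) (.g (nat_lit 0) (.e (nat_lit 350869) (nat_lit 0) .nil) .nil))) 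
(.lf (nat_lit 570992) (.g (nat_lit 1924) (.e (nat_lit 475179) (nat_lit 24) (.e (nat_lit 516176) (nat_lit 14) (.e (nat_lit 466950) (nat_lit 11) (.e (nat_lit 335996) (nat_lit 1) (.e (nat_lit 57692) (nat_lit 156) (.e (nat_lit 163939) (nat_lit 18) .nil)))))) (.g (nat_lit 1) (.e (nat_lit 351762) (nat_lit 0) .nil) .nil)))) (.nd (nat_lit 9) 
(.lf (nat_lit 570736) (.g (nat_lit 2612) (.e (nat_lit 475179) (nat_lit 24) (.e (nat_lit 516117) (nat_lit 1) (.e (nat_lit 164330) (nat_lit 230) (.e (nat_lit 163941) (nat_lit 19) (.e (nat_lit 483339) (nat_lit 9) (.e (nat_lit 426318) (nat_lit 12) .nil)))))) (.g (nat_lit 1) (.e (nat_lit 351268) (nat_lit 0) .nil) .nil))) 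
(.lf (nat_lit 571248) (.g (nat_lit 5149) (.e (nat_lit 475184) (nat_lit 29) (.e (nat_lit 557109) (nat_lit 15) (.e (nat_lit 188449) (nat_lit 22) (.e (nat_lit 196676) (nat_lit 16) .nil)))) (.g (nat_lit 0) (.e (nat_lit 352054) (nat_lit 0) .nil) .nil))))) (.nd (nat_lit 8) (.nd (nat_lit 9) 
(.lf (nat_lit 570608) (.g (nat_lit 3191) (.e (nat_lit 475178) (nat_lit 24) (.e (nat_lit 516115) (nat_lit 1) (.e (nat_lit 164325) (nat_lit 230) (.e (nat_lit 163936) (nat_lit 18) .nil)))) (.g (nat_lit 0) (.e (nat_lit 351060) (nat_lit 0) .nil) .nil))) 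
(.lf (nat_lit 571120) (.g (nat_lit 2484) (.e (nat_lit 475183) (nat_lit 29) (.e (nat_lit 557109) (nat_lit 15) (.e (nat_lit 188434) (nat_lit 20) (.e (nat_lit 3271) (nat_lit 199) .nil)))) (.g (nat_lit 0) (.e (nat_lit 351911) (nat_lit 0) .nil) .nil)))) (.nd (nat_lit 9) 
(.lf (nat_lit 570864) (.g (nat_lit 3804) (.e (nat_lit 475179) (nat_lit 24) (.e (nat_lit 516120) (nat_lit 1) (.e (nat_lit 164330) (nat_lit 230) (.e (nat_lit 163941) (nat_lit 19) (.e (nat_lit 483329) (nat_lit 0) (.e (nat_lit 7335) (nat_lit 388) (.e (nat_lit 3067) (nat_lit 190) .nil))))))) (.g (nat_lit 1) (.e (nat_lit 351437) (nat_lit 0) .nil) .nil))) 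
(.lf (nat_lit 571376) (.g (nat_lit 3027) (.e (nat_lit 475185) (nat_lit 29) (.e (nat_lit 557100) (nat_lit 13) (.e (nat_lit 172106) (nat_lit 10) (.e (nat_lit 434244) (nat_lit 28) (.e (nat_lit 573458) (nat_lit 9) (.e (nat_lit 7936) (nat_lit 32) (.e (nat_lit 426317) (nat_lit 12) .nil))))))) (.g (nat_lit 1) (.e (nat_lit 352194) (nat_lit 0) .nil) .nil))))))))) 
(.nd (nat_lit 4) (.nd (nat_lit 5) (.nd (nat_lit 6) (.nd (nat_lit 7) (.nd (nat_lit 8) 
(.nd (nat_lit 9) 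
(.lf (nat_lit 570376) (.g (nat_lit 2270) (.e (nat_lit 475177) (nat_lit 24) (.e (nat_lit 516127) (nat_lit 2) (.e (nat_lit 213032) (nat_lit 11) (.e (nat_lit 24607) (nat_lit 3) (.e (nat_lit 98365) (nat_lit 26) (.e (nat_lit 426307) (nat_lit 12) .nil)))))) (.g (nat_lit 1) (.e (nat_lit 350738) (nat_lit 0) .nil) .nil))) 
(.lf (nat_lit 570888) (.g (nat_lit 2567) (.e (nat_lit 475179) (nat_lit 24) (.e (nat_lit 516120) (nat_lit 1) (.e (nat_lit 164332) (nat_lit 230) (.e (nat_lit 163905) (nat_lit 12) (.e (nat_lit 426479) (nat_lit 27) (.e (nat_lit 336414) (nat_lit 27) (.e (nat_lit 426318) (nat_lit 12) .nil))))))) (.g (nat_lit 1) (.e (nat_lit 351470) (nat_lit 0) .nil) .nil)))) (.nd (nat_lit 9) 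
(.lf (nat_lit 570632) (.g (nat_lit 2499) (.e (nat_lit 475178) (nat_lit 24) (.e (nat_lit 516124) (nat_lit 2) (.e (nat_lit 213030) (nat_lit 11) (.e (nat_lit 24609) (nat_lit 3) (.e (nat_lit 98358) (nat_lit 26) (.e (nat_lit 426320) (nat_lit 12) .nil)))))) (.g (nat_lit 1) (.e (nat_lit 351108) (nat_lit 0) .nil) .nil))) 
(.lf (nat_lit 571144) (.g (nat_lit 3610) (.e (nat_lit 475184) (nat_lit 29) (.e (nat_lit 557098) (nat_lit 13) (.e (nat_lit 172097) (nat_lit 9) (.e (nat_lit 426125) (nat_lit 2) (.e (nat_lit 196661) (nat_lit 12) (.e (nat_lit 57750) (nat_lit 201) (.e (nat_lit 3066) (nat_lit 190) .nil))))))) (.g (nat_lit 1) (.e (nat_lit 351945) (nat_lit 0) .nil) .nil))))) (.nd (nat_lit 8) (.nd (nat_lit 9) 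
(.lf (nat_lit 570504) (.g (nat_lit 2067) (.e (nat_lit 475177) (nat_lit 24) (.e (nat_lit 516174) (nat_lit 14) (.e (nat_lit 466954) (nat_lit 11) (.e (nat_lit 335988) (nat_lit 1) (.e (nat_lit 57690) (nat_lit 156) .nil))))) (.g (nat_lit 0) (.e (nat_lit 350922) (nat_lit 0) .nil) .nil))) 
(.lf (nat_lit 571016) (.g (nat_lit 2840) (.e (nat_lit 475179) (nat_lit 24) (.e (nat_lit 516176) (nat_lit 14) (.e (nat_lit 466954) (nat_lit 11) (.e (nat_lit 335995) (nat_lit 1) (.e (nat_lit 57655) (nat_lit 152) (.e (nat_lit 2503) (nat_lit 157) (.e (nat_lit 3062) (nat_lit 190) .nil))))))) (.g (nat_lit 1) (.e (nat_lit 351793) (nat_lit 0) .nil) .nil)))) (.nd (nat_lit 9) 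
(.lf (nat_lit 570760) (.g (nat_lit 2332) (.e (nat_lit 475179) (nat_lit 24) (.e (nat_lit 516119) (nat_lit 1) (.e (nat_lit 164322) (nat_lit 230) (.e (nat_lit 163902) (nat_lit 12) (.e (nat_lit 426567) (nat_lit 34) .nil))))) (.g (nat_lit 0) (.e (nat_lit 351297) (nat_lit 0) .nil) .nil))) 
(.lf (nat_lit 571272) (.g (nat_lit 3968) (.e (nat_lit 475184) (nat_lit 29) (.e (nat_lit 557109) (nat_lit 15) (.e (nat_lit 188452) (nat_lit 23) (.e (nat_lit 204829) (nat_lit 18) .nil)))) (.g (nat_lit 0) (.e (nat_lit 352078) (nat_lit 0) .nil) .nil)))))) (.nd (nat_lit 7) (.nd (nat_lit 8) (.nd (nat_lit 9) 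
(.lf (nat_lit 570440) (.g (nat_lit 2291) (.e (nat_lit 475177) (nat_lit 24) (.e (nat_lit 516150) (nat_lit 9) (.e (nat_lit 426323) (nat_lit 13) (.e (nat_lit 483363) (nat_lit 18) (.e (nat_lit 57685) (nat_lit 156) .nil))))) (.g (nat_lit 0) (.e (nat_lit 350825) (nat_lit 0) .nil) .nil))) 
(.lf (nat_lit 570952) (.g (nat_lit 2020) (.e (nat_lit 475179) (nat_lit 24) (.e (nat_lit 516150) (nat_lit 9) (.e (nat_lit 426323) (nat_lit 13) (.e (nat_lit 483365) (nat_lit 18) (.e (nat_lit 57686) (nat_lit 156) (.e (nat_lit 163939) (nat_lit 18) .nil)))))) (.g (nat_lit 1) (.e (nat_lit 351572) (nat_lit 0) .nil) .nil)))) (.nd (nat_lit 9) 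
(.lf (nat_lit 570696) (.g (nat_lit 3324) (.e (nat_lit 475179) (nat_lit 24) (.e (nat_lit 516115) (nat_lit 1) (.e (nat_lit 164327) (nat_lit 230) (.e (nat_lit 163903) (nat_lit 12) (.e (nat_lit 426567) (nat_lit 34) (.e (nat_lit 393293) (nat_lit 26) .nil)))))) (.g (nat_lit 1) (.e (nat_lit 351210) (nat_lit 0) .nil) .nil))) 
(.lf (nat_lit 571208) (.g (nat_lit 2282) (.e (nat_lit 475184) (nat_lit 29) (.e (nat_lit 557107) (nat_lit 15) (.e (nat_lit 188447) (nat_lit 22) (.e (nat_lit 196661) (nat_lit 12) (.e (nat_lit 57751) (nat_lit 201) (.e (nat_lit 3066) (nat_lit 190) .nil)))))) (.g (nat_lit 1) (.e (nat_lit 352014) (nat_lit 0) .nil) .nil))))) (.nd (nat_lit 8) (.nd (nat_lit 9) 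
(.lf (nat_lit 570568) (.g (nat_lit 397) (.e (nat_lit 475177) (nat_lit 24) (.e (nat_lit 516179) (nat_lit 15) (.e (nat_lit 475177) (nat_lit 24) .nil))) (.g (nat_lit 0) (.e (nat_lit 351005) (nat_lit 0) .nil) .nil))) 
(.lf (nat_lit 571080) (.g (nat_lit 3064) (.e (nat_lit 475183) (nat_lit 29) (.e (nat_lit 557100) (nat_lit 13) (.e (nat_lit 172113) (nat_lit 10) (.e (nat_lit 434247) (nat_lit 28) (.e (nat_lit 573456) (nat_lit 9) (.e (nat_lit 430) (nat_lit 32) (.e (nat_lit 426315) (nat_lit 12) .nil))))))) (.g (nat_lit 1) (.e (nat_lit 351869) (nat_lit 0) .nil) .nil)))) (.nd (nat_lit 9) 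
(.lf (nat_lit 570824) (.g (nat_lit 1061) (.e (nat_lit 475179) (nat_lit 24) (.e (nat_lit 516120) (nat_lit 1) (.e (nat_lit 164330) (nat_lit 230) (.e (nat_lit 163902) (nat_lit 12) .nil)))) (.g (nat_lit 0) (.e (nat_lit 351392) (nat_lit 0) .nil) .nil))) 
(.lf (nat_lit 571336) (.g (nat_lit 2225) (.e (nat_lit 475185) (nat_lit 29) (.e (nat_lit 557100) (nat_lit 13) (.e (nat_lit 172106) (nat_lit 10) (.e (nat_lit 434219) (nat_lit 19) (.e (nat_lit 499725) (nat_lit 0) .nil))))) (.g (nat_lit 0) (.e (nat_lit 352154) (nat_lit 0) .nil) .nil))))))) (.nd (nat_lit 6) (.nd (nat_lit 7) (.nd (nat_lit 8) (.nd (nat_lit 9) 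
(.lf (nat_lit 570408) (.g (nat_lit 1302) (.e (nat_lit 475177) (nat_lit 24) (.e (nat_lit 516148) (nat_lit 9) (.e (nat_lit 426438) (nat_lit 18) (.e (nat_lit 98386) (nat_lit 32) (.e (nat_lit 475177) (nat_lit 24) .nil))))) (.g (nat_lit 0) (.e (nat_lit 350782) (nat_lit 0) .nil) .nil))) 
(.lf (nat_lit 570920) (.g (nat_lit 2608) (.e (nat_lit 475179) (nat_lit 24) (.e (nat_lit 516146) (nat_lit 9) (.e (nat_lit 426323) (nat_lit 13) (.e (nat_lit 483363) (nat_lit 18) (.e (nat_lit 57686) (nat_lit 156) (.e (nat_lit 163939) (nat_lit 18) .nil)))))) (.g (nat_lit 1) (.e (nat_lit 351520) (nat_lit 0) .nil) .nil)))) (.nd (nat_lit 9) 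
(.lf (nat_lit 570664) (.g (nat_lit 2472) (.e (nat_lit 475179) (nat_lit 24) (.e (nat_lit 516115) (nat_lit 1) (.e (nat_lit 164325) (nat_lit 230) (.e (nat_lit 163903) (nat_lit 12) (.e (nat_lit 426478) (nat_lit 27) .nil))))) (.g (nat_lit 0) (.e (nat_lit 351156) (nat_lit 0) .nil) .nil))) 
(.lf (nat_lit 571176) (.g (nat_lit 2444) (.e (nat_lit 475184) (nat_lit 29) (.e (nat_lit 557100) (nat_lit 13) (.e (nat_lit 172106) (nat_lit 10) (.e (nat_lit 434244) (nat_lit 28) (.e (nat_lit 573458) (nat_lit 9) .nil))))) (.g (nat_lit 0) (.e (nat_lit 351977) (nat_lit 0) .nil) .nil))))) (.nd (nat_lit 8) (.nd (nat_lit 9) 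
(.lf (nat_lit 570536) (.g (nat_lit 2792) (.e (nat_lit 475177) (nat_lit 24) (.e (nat_lit 516176) (nat_lit 14) (.e (nat_lit 466954) (nat_lit 11) (.e (nat_lit 335987) (nat_lit 1) (.e (nat_lit 57691) (nat_lit 156) (.e (nat_lit 163938) (nat_lit 18) .nil)))))) (.g (nat_lit 1) (.e (nat_lit 350963) (nat_lit 0) .nil) .nil))) 
(.lf (nat_lit 571048) (.g (nat_lit 1209) (.e (nat_lit 475180) (nat_lit 25) (.e (nat_lit 524322) (nat_lit 12) (.e (nat_lit 450563) (nat_lit 0) (.e (nat_lit 6403) (nat_lit 339) .nil)))) (.g (nat_lit 0) (.e (nat_lit 351831) (nat_lit 0) .nil) .nil)))) (.nd (nat_lit 9) 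
(.lf (nat_lit 570792) (.g (nat_lit 1168) (.e (nat_lit 475179) (nat_lit 24) (.e (nat_lit 516119) (nat_lit 1) (.e (nat_lit 164327) (nat_lit 230) (.e (nat_lit 163903) (nat_lit 12) .nil)))) (.g (nat_lit 0) (.e (nat_lit 351352) (nat_lit 0) .nil) .nil))) 
(.lf (nat_lit 571304) (.g (nat_lit 1594) (.e (nat_lit 475185) (nat_lit 29) (.e (nat_lit 557098) (nat_lit 13) (.e (nat_lit 172097) (nat_lit 9) (.e (nat_lit 426125) (nat_lit 2) (.e (nat_lit 196630) (nat_lit 9) .nil))))) (.g (nat_lit 0) (.e (nat_lit 352121) (nat_lit 0) .nil) .nil)))))) (.nd (nat_lit 7) (.nd (nat_lit 8) (.nd (nat_lit 9) 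
(.lf (nat_lit 570472) (.g (nat_lit 2445) (.e (nat_lit 475177) (nat_lit 24) (.e (nat_lit 516150) (nat_lit 9) (.e (nat_lit 426438) (nat_lit 18) (.e (nat_lit 98358) (nat_lit 26) (.e (nat_lit 426362) (nat_lit 15) .nil))))) (.g (nat_lit 0) (.e (nat_lit 350861) (nat_lit 0) .nil) .nil))) 
(.lf (nat_lit 570984) (.g (nat_lit 1857) (.e (nat_lit 475179) (nat_lit 24) (.e (nat_lit 516174) (nat_lit 14) (.e (nat_lit 466954) (nat_lit 11) (.e (nat_lit 335995) (nat_lit 1) (.e (nat_lit 57687) (nat_lit 156) .nil))))) (.g (nat_lit 0) (.e (nat_lit 351754) (nat_lit 0) .nil) .nil)))) (.nd (nat_lit 9) 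
(.lf (nat_lit 570728) (.g (nat_lit 2539) (.e (nat_lit 475179) (nat_lit 24) (.e (nat_lit 516117) (nat_lit 1) (.e (nat_lit 164330) (nat_lit 230) (.e (nat_lit 163873) (nat_lit 3) (.e (nat_lit 204838) (nat_lit 20) .nil))))) (.g (nat_lit 0) (.e (nat_lit 351259) (nat_lit 0) .nil) .nil))) 
(.lf (nat_lit 571240) (.g (nat_lit 4358) (.e (nat_lit 475184) (nat_lit 29) (.e (nat_lit 557109) (nat_lit 15) (.e (nat_lit 188449) (nat_lit 22) (.e (nat_lit 196657) (nat_lit 12) .nil)))) (.g (nat_lit 0) (.e (nat_lit 352046) (nat_lit 0) .nil) .nil))))) (.nd (nat_lit 8) (.nd (nat_lit 9) 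
(.lf (nat_lit 570600) (.g (nat_lit 2758) (.e (nat_lit 475177) (nat_lit 24) (.e (nat_lit 516181) (nat_lit 15) (.e (nat_lit 475179) (nat_lit 24) (.e (nat_lit 516182) (nat_lit 15) (.e (nat_lit 475177) (nat_lit 24) (.e (nat_lit 516179) (nat_lit 15) .nil)))))) (.g (nat_lit 1) (.e (nat_lit 351052) (nat_lit 0) .nil) .nil))) 
(.lf (nat_lit 571112) (.g (nat_lit 1232) (.e (nat_lit 475183) (nat_lit 29) (.e (nat_lit 557108) (nat_lit 15) (.e (nat_lit 188450) (nat_lit 23) (.e (nat_lit 204821) (nat_lit 17) .nil)))) (.g (nat_lit 0) (.e (nat_lit 351903) (nat_lit 0) .nil) .nil)))) (.nd (nat_lit 9) 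
(.lf (nat_lit 570856) (.g (nat_lit 1782) (.e (nat_lit 475179) (nat_lit 24) (.e (nat_lit 516120) (nat_lit 1) (.e (nat_lit 164330) (nat_lit 230) (.e (nat_lit 163908) (nat_lit 12) .nil)))) (.g (nat_lit 0) (.e (nat_lit 351426) (nat_lit 0) .nil) .nil))) 
(.lf (nat_lit 571368) (.g (nat_lit 2551) (.e (nat_lit 475185) (nat_lit 29) (.e (nat_lit 557100) (nat_lit 13) (.e (nat_lit 172106) (nat_lit 10) (.e (nat_lit 434231) (nat_lit 23) (.e (nat_lit 532500) (nat_lit 1) (.e (nat_lit 65280) (nat_lit 219) (.e (nat_lit 163938) (nat_lit 18) .nil))))))) (.g (nat_lit 1) (.e (nat_lit 352186) (nat_lit 0) .nil) .nil)))))))) 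
(.nd (nat_lit 5) (.nd (nat_lit 6) (.nd (nat_lit 7) (.nd (nat_lit 8) (.nd (nat_lit 9) 
(.lf (nat_lit 570392) (.g (nat_lit 669) (.e (nat_lit 475177) (nat_lit 24) (.e (nat_lit 516146) (nat_lit 9) (.e (nat_lit 426131) (nat_lit 3) .nil))) (.g (nat_lit 0) (.e (nat_lit 350759) (nat_lit 0) .nil) .nil))) 
(.lf (nat_lit 570904) (.g (nat_lit 1720) (.e (nat_lit 475179) (nat_lit 24) (.e (nat_lit 516126) (nat_lit 2) (.e (nat_lit 213030) (nat_lit 11) (.e (nat_lit 24603) (nat_lit 2) (.e (nat_lit 90185) (nat_lit 17) (.e (nat_lit 237619) (nat_lit 12) .nil)))))) (.g (nat_lit 1) (.e (nat_lit 351492) (nat_lit 0) .nil) .nil)))) (.nd (nat_lit 9) 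
(.lf (nat_lit 570648) (.g (nat_lit 278) (.e (nat_lit 475179) (nat_lit 24) (.e (nat_lit 516115) (nat_lit 1) (.e (nat_lit 164325) (nat_lit 230) .nil))) (.g (nat_lit 0) (.e (nat_lit 351139) (nat_lit 0) .nil) .nil))) 
(.lf (nat_lit 571160) (.g (nat_lit 2644) (.e (nat_lit 475184) (nat_lit 29) (.e (nat_lit 557098) (nat_lit 13) (.e (nat_lit 172112) (nat_lit 10) (.e (nat_lit 434248) (nat_lit 28) (.e (nat_lit 573470) (nat_lit 11) (.e (nat_lit 16461) (nat_lit 12) .nil)))))) (.g (nat_lit 1) (.e (nat_lit 351961) (nat_lit 0) .nil) .nil))))) (.nd (nat_lit 8) (.nd (nat_lit 9) 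
(.lf (nat_lit 570520) (.g (nat_lit 1056) (.e (nat_lit 475177) (nat_lit 24) (.e (nat_lit 516174) (nat_lit 14) (.e (nat_lit 466954) (nat_lit 11) (.e (nat_lit 335996) (nat_lit 1) .nil)))) (.g (nat_lit 0) (.e (nat_lit 350940) (nat_lit 0) .nil) .nil))) 
(.lf (nat_lit 571032) (.g (nat_lit 966) (.e (nat_lit 475179) (nat_lit 24) (.e (nat_lit 516179) (nat_lit 15) (.e (nat_lit 475177) (nat_lit 24) (.e (nat_lit 516181) (nat_lit 15) .nil)))) (.g (nat_lit 0) (.e (nat_lit 351814) (nat_lit 0) .nil) .nil)))) (.nd (nat_lit 9) 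
(.lf (nat_lit 570776) (.g (nat_lit 2128) (.e (nat_lit 475179) (nat_lit 24) (.e (nat_lit 516119) (nat_lit 1) (.e (nat_lit 164325) (nat_lit 230) (.e (nat_lit 163907) (nat_lit 12) (.e (nat_lit 426491) (nat_lit 27) (.e (nat_lit 336409) (nat_lit 27) (.e (nat_lit 426313) (nat_lit 12) .nil))))))) (.g (nat_lit 1) (.e (nat_lit 351321) (nat_lit 0) .nil) .nil))) 
(.lf (nat_lit 571288) (.g (nat_lit 1356) (.e (nat_lit 475185) (nat_lit 29) (.e (nat_lit 557097) (nat_lit 13) (.e (nat_lit 172115) (nat_lit 10) (.e (nat_lit 434244) (nat_lit 28) .nil)))) (.g (nat_lit 0) (.e (nat_lit 352105) (nat_lit 0) .nil) .nil)))))) (.nd (nat_lit 7) (.nd (nat_lit 8) (.nd (nat_lit 9) 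
(.lf (nat_lit 570456) (.g (nat_lit 1993) (.e (nat_lit 475177) (nat_lit 24) (.e (nat_lit 516150) (nat_lit 9) (.e (nat_lit 426323) (nat_lit 13) (.e (nat_lit 483365) (nat_lit 18) (.e (nat_lit 57687) (nat_lit 156) (.e (nat_lit 163937) (nat_lit 18) .nil)))))) (.g (nat_lit 1) (.e (nat_lit 350843) (nat_lit 0) .nil) .nil))) 
(.lf (nat_lit 570968) (.g (nat_lit 1647) (.e (nat_lit 475179) (nat_lit 24) (.e (nat_lit 516174) (nat_lit 14) (.e (nat_lit 466954) (nat_lit 11) (.e (nat_lit 335985) (nat_lit 1) .nil)))) (.g (nat_lit 0) (.e (nat_lit 351734) (nat_lit 0) .nil) .nil)))) (.nd (nat_lit 9) 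
(.lf (nat_lit 570712) (.g (nat_lit 1765) (.e (nat_lit 475179) (nat_lit 24) (.e (nat_lit 516115) (nat_lit 1) (.e (nat_lit 164332) (nat_lit 230) (.e (nat_lit 163938) (nat_lit 18) .nil)))) (.g (nat_lit 0) (.e (nat_lit 351235) (nat_lit 0) .nil) .nil))) 
(.lf (nat_lit 571224) (.g (nat_lit 2388) (.e (nat_lit 475184) (nat_lit 29) (.e (nat_lit 557108) (nat_lit 15) (.e (nat_lit 188452) (nat_lit 23) (.e (nat_lit 204817) (nat_lit 17) .nil)))) (.g (nat_lit 0) (.e (nat_lit 352030) (nat_lit 0) .nil) .nil))))) (.nd (nat_lit 8) (.nd (nat_lit 9) 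
(.lf (nat_lit 570584) (.g (nat_lit 2058) (.e (nat_lit 475177) (nat_lit 24) (.e (nat_lit 516180) (nat_lit 15) (.e (nat_lit 475179) (nat_lit 24) (.e (nat_lit 516150) (nat_lit 9) (.e (nat_lit 426436) (nat_lit 18) .nil))))) (.g (nat_lit 0) (.e (nat_lit 351032) (nat_lit 0) .nil) .nil))) 
(.lf (nat_lit 571096) (.g (nat_lit 3134) (.e (nat_lit 475183) (nat_lit 29) (.e (nat_lit 557107) (nat_lit 15) (.e (nat_lit 188447) (nat_lit 22) (.e (nat_lit 196661) (nat_lit 12) (.e (nat_lit 57751) (nat_lit 201) (.e (nat_lit 3067) (nat_lit 190) .nil)))))) (.g (nat_lit 1) (.e (nat_lit 351887) (nat_lit 0) .nil) .nil)))) (.nd (nat_lit 9) 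
(.lf (nat_lit 570840) (.g (nat_lit 2970) (.e (nat_lit 475179) (nat_lit 24) (.e (nat_lit 516120) (nat_lit 1) (.e (nat_lit 164330) (nat_lit 230) (.e (nat_lit 163902) (nat_lit 12) (.e (nat_lit 426562) (nat_lit 33) (.e (nat_lit 392960) (nat_lit 8) (.e (nat_lit 3062) (nat_lit 190) .nil))))))) (.g (nat_lit 1) (.e (nat_lit 351408) (nat_lit 0) .nil) .nil))) 
(.lf (nat_lit 571352) (.g (nat_lit 2349) (.e (nat_lit 475185) (nat_lit 29) (.e (nat_lit 557100) (nat_lit 13) (.e (nat_lit 172106) (nat_lit 10) (.e (nat_lit 434231) (nat_lit 23) (.e (nat_lit 532483) (nat_lit 0) (.e (nat_lit 7936) (nat_lit 357) (.e (nat_lit 3063) (nat_lit 190) .nil))))))) (.g (nat_lit 1) (.e (nat_lit 352170) (nat_lit 0) .nil) .nil))))))) 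
(.nd (nat_lit 6) (.nd (nat_lit 7) (.nd (nat_lit 8) (.nd (nat_lit 9) 
(.lf (nat_lit 570424) (.g (nat_lit 2140) (.e (nat_lit 475177) (nat_lit 24) (.e (nat_lit 516149) (nat_lit 9) (.e (nat_lit 426323) (nat_lit 13) (.e (nat_lit 483366) (nat_lit 18) (.e (nat_lit 57686) (nat_lit 156) (.e (nat_lit 163936) (nat_lit 18) .nil)))))) (.g (nat_lit 1) (.e (nat_lit 350799) (nat_lit 0) .nil) .nil))) 
(.lf (nat_lit 570936) (.g (nat_lit 2952) (.e (nat_lit 475179) (nat_lit 24) (.e (nat_lit 516146) (nat_lit 9) (.e (nat_lit 426436) (nat_lit 18) (.e (nat_lit 98384) (nat_lit 32) (.e (nat_lit 475169) (nat_lit 22) (.e (nat_lit 499824) (nat_lit 5) (.e (nat_lit 3072) (nat_lit 190) .nil))))))) (.g (nat_lit 1) (.e (nat_lit 351536) (nat_lit 0) .nil) .nil)))) (.nd (nat_lit 9) 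
(.lf (nat_lit 570680) (.g (nat_lit 2288) (.e (nat_lit 475179) (nat_lit 24) (.e (nat_lit 516115) (nat_lit 1) (.e (nat_lit 164325) (nat_lit 230) (.e (nat_lit 163907) (nat_lit 12) (.e (nat_lit 426487) (nat_lit 27) .nil))))) (.g (nat_lit 0) (.e (nat_lit 351174) (nat_lit 0) .nil) .nil))) 
(.lf (nat_lit 571192) (.g (nat_lit 1717) (.e (nat_lit 475184) (nat_lit 29) (.e (nat_lit 557101) (nat_lit 13) (.e (nat_lit 172097) (nat_lit 9) (.e (nat_lit 426140) (nat_lit 3) (.e (nat_lit 212736) (nat_lit 33) .nil))))) (.g (nat_lit 0) (.e (nat_lit 351993) (nat_lit 0) .nil) .nil))))) (.nd (nat_lit 8) (.nd (nat_lit 9) 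
(.lf (nat_lit 570552) (.g (nat_lit 2936) (.e (nat_lit 475177) (nat_lit 24) (.e (nat_lit 516176) (nat_lit 14) (.e (nat_lit 466954) (nat_lit 11) (.e (nat_lit 335995) (nat_lit 1) (.e (nat_lit 57687) (nat_lit 156) (.e (nat_lit 163936) (nat_lit 18) .nil)))))) (.g (nat_lit 1) (.e (nat_lit 350984) (nat_lit 0) .nil) .nil))) 
(.lf (nat_lit 571064) (.g (nat_lit 823) (.e (nat_lit 475183) (nat_lit 29) (.e (nat_lit 557098) (nat_lit 13) (.e (nat_lit 172112) (nat_lit 10) .nil))) (.g (nat_lit 0) (.e (nat_lit 351853) (nat_lit 0) .nil) .nil)))) (.nd (nat_lit 9) 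
(.lf (nat_lit 570808) (.g (nat_lit 1723) (.e (nat_lit 475179) (nat_lit 24) (.e (nat_lit 516120) (nat_lit 1) (.e (nat_lit 164305) (nat_lit 226) (.e (nat_lit 2612) (nat_lit 163) (.e (nat_lit 163964) (nat_lit 25) .nil))))) (.g (nat_lit 0) (.e (nat_lit 351375) (nat_lit 0) .nil) .nil))) 
(.lf (nat_lit 571320) (.g (nat_lit 5095) (.e (nat_lit 475185) (nat_lit 29) (.e (nat_lit 557098) (nat_lit 13) (.e (nat_lit 172115) (nat_lit 10) (.e (nat_lit 434244) (nat_lit 28) (.e (nat_lit 573458) (nat_lit 9) (.e (nat_lit 394) (nat_lit 32) (.e (nat_lit 426316) (nat_lit 12) .nil))))))) (.g (nat_lit 1) (.e (nat_lit 352137) (nat_lit 0) .nil) .nil)))))) 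
(.nd (nat_lit 7) (.nd (nat_lit 8) (.nd (nat_lit 9) 
(.lf (nat_lit 570488) (.g (nat_lit 2494) (.e (nat_lit 475177) (nat_lit 24) (.e (nat_lit 516174) (nat_lit 14) (.e (nat_lit 466954) (nat_lit 11) (.e (nat_lit 335986) (nat_lit 1) (.e (nat_lit 57652) (nat_lit 152) .nil))))) (.g (nat_lit 0) (.e (nat_lit 350898) (nat_lit 0) .nil) .nil))) 
(.lf (nat_lit 571000) (.g (nat_lit 2671) (.e (nat_lit 475179) (nat_lit 24) (.e (nat_lit 516176) (nat_lit 14) (.e (nat_lit 466954) (nat_lit 11) (.e (nat_lit 335986) (nat_lit 1) (.e (nat_lit 57652) (nat_lit 152) (.e (nat_lit 2405) (nat_lit 157) (.e (nat_lit 3062) (nat_lit 190) .nil))))))) (.g (nat_lit 1) (.e (nat_lit 351772) (nat_lit 0) .nil) .nil)))) (.nd (nat_lit 9) 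
(.lf (nat_lit 570744) (.g (nat_lit 2091) (.e (nat_lit 475179) (nat_lit 24) (.e (nat_lit 516117) (nat_lit 1) (.e (nat_lit 164332) (nat_lit 230) (.e (nat_lit 163905) (nat_lit 12) (.e (nat_lit 426487) (nat_lit 27) .nil))))) (.g (nat_lit 0) (.e (nat_lit 351278) (nat_lit 0) .nil) .nil))) 
(.lf (nat_lit 571256) (.g (nat_lit 2065) (.e (nat_lit 475184) (nat_lit 29) (.e (nat_lit 557109) (nat_lit 15) (.e (nat_lit 188450) (nat_lit 23) (.e (nat_lit 204885) (nat_lit 33) .nil)))) (.g (nat_lit 0) (.e (nat_lit 352062) (nat_lit 0) .nil) .nil))))) (.nd (nat_lit 8) (.nd (nat_lit 9) 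
(.lf (nat_lit 570616) (.g (nat_lit 3450) (.e (nat_lit 475178) (nat_lit 24) (.e (nat_lit 516117) (nat_lit 1) (.e (nat_lit 164329) (nat_lit 230) (.e (nat_lit 163904) (nat_lit 12) (.e (nat_lit 426566) (nat_lit 34) (.e (nat_lit 393296) (nat_lit 26) .nil)))))) (.g (nat_lit 1) (.e (nat_lit 351078) (nat_lit 0) .nil) .nil))) 
(.lf (nat_lit 571128) (.g (nat_lit 2731) (.e (nat_lit 475183) (nat_lit 29) (.e (nat_lit 557109) (nat_lit 15) (.e (nat_lit 188449) (nat_lit 22) (.e (nat_lit 196683) (nat_lit 18) (.e (nat_lit 2810) (nat_lit 180) .nil))))) (.g (nat_lit 0) (.e (nat_lit 351919) (nat_lit 0) .nil) .nil)))) (.nd (nat_lit 9) 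
(.lf (nat_lit 570872) (.g (nat_lit 2931) (.e (nat_lit 475179) (nat_lit 24) (.e (nat_lit 516120) (nat_lit 1) (.e (nat_lit 164330) (nat_lit 230) (.e (nat_lit 163941) (nat_lit 19) (.e (nat_lit 483340) (nat_lit 9) .nil))))) (.g (nat_lit 0) (.e (nat_lit 351445) (nat_lit 0) .nil) .nil))) 
(.lf (nat_lit 571384) (.g (nat_lit 4676) (.e (nat_lit 475185) (nat_lit 29) (.e (nat_lit 557100) (nat_lit 13) (.e (nat_lit 172113) (nat_lit 10) (.e (nat_lit 434245) (nat_lit 28) (.e (nat_lit 573450) (nat_lit 9) (.e (nat_lit 375) (nat_lit 32) (.e (nat_lit 426310) (nat_lit 12) .nil))))))) (.g (nat_lit 1) (.e (nat_lit 352202) (nat_lit 0) .nil) .nil)))))))))) 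
(.nd (nat_lit 3) (.nd (nat_lit 4) (.nd (nat_lit 5) (.nd (nat_lit 6) (.nd (nat_lit 7) 
(.nd (nat_lit 8) (.nd (nat_lit 9) 
(.lf (nat_lit 570372) (.g (nat_lit 2284) (.e (nat_lit 475177) (nat_lit 24) (.e (nat_lit 516126) (nat_lit 2) (.e (nat_lit 213032) (nat_lit 11) (.e (nat_lit 24607) (nat_lit 3) (.e (nat_lit 98365) (nat_lit 26) (.e (nat_lit 426307) (nat_lit 12) .nil)))))) (.g (nat_lit 1) (.e (nat_lit 350734) (nat_lit 0) .nil) .nil))) 
(.lf (nat_lit 570884) (.g (nat_lit 1605) (.e (nat_lit 475179) (nat_lit 24) (.e (nat_lit 516120) (nat_lit 1) (.e (nat_lit 164332) (nat_lit 230) (.e (nat_lit 163902) (nat_lit 12) (.e (nat_lit 426481) (nat_lit 27) .nil))))) (.g (nat_lit 0) (.e (nat_lit 351466) (nat_lit 0) .nil) .nil)))) (.nd (nat_lit 9) 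
(.lf (nat_lit 570628) (.g (nat_lit 1706) (.e (nat_lit 475178) (nat_lit 24) (.e (nat_lit 516120) (nat_lit 1) (.e (nat_lit 164329) (nat_lit 230) (.e (nat_lit 163902) (nat_lit 12) (.e (nat_lit 426567) (nat_lit 34) (.e (nat_lit 393295) (nat_lit 26) .nil)))))) (.g (nat_lit 1) (.e (nat_lit 351098) (nat_lit 0) .nil) .nil))) 
(.lf (nat_lit 571140) (.g (nat_lit 2001) (.e (nat_lit 475184) (nat_lit 29) (.e (nat_lit 557096) (nat_lit 13) (.e (nat_lit 172126) (nat_lit 14) (.e (nat_lit 491537) (nat_lit 2) (.e (nat_lit 90185) (nat_lit 17) .nil))))) (.g (nat_lit 0) (.e (nat_lit 351940) (nat_lit 0) .nil) .nil))))) (.nd (nat_lit 8) (.nd (nat_lit 9) 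
(.lf (nat_lit 570500) (.g (nat_lit 1101) (.e (nat_lit 475177) (nat_lit 24) (.e (nat_lit 516174) (nat_lit 14) (.e (nat_lit 466954) (nat_lit 11) (.e (nat_lit 335988) (nat_lit 1) .nil)))) (.g (nat_lit 0) (.e (nat_lit 350914) (nat_lit 0) .nil) .nil))) 
(.lf (nat_lit 571012) (.g (nat_lit 2125) (.e (nat_lit 475179) (nat_lit 24) (.e (nat_lit 516176) (nat_lit 14) (.e (nat_lit 466954) (nat_lit 11) (.e (nat_lit 335988) (nat_lit 1) (.e (nat_lit 57690) (nat_lit 156) .nil))))) (.g (nat_lit 0) (.e (nat_lit 351789) (nat_lit 0) .nil) .nil)))) (.nd (nat_lit 9) 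
(.lf (nat_lit 570756) (.g (nat_lit 3176) (.e (nat_lit 475179) (nat_lit 24) (.e (nat_lit 516117) (nat_lit 1) (.e (nat_lit 164332) (nat_lit 230) (.e (nat_lit 163941) (nat_lit 19) (.e (nat_lit 483341) (nat_lit 9) (.e (nat_lit 433920) (nat_lit 12) .nil)))))) (.g (nat_lit 1) (.e (nat_lit 351290) (nat_lit 0) .nil) .nil))) 
(.lf (nat_lit 571268) (.g (nat_lit 4160) (.e (nat_lit 475184) (nat_lit 29) (.e (nat_lit 557109) (nat_lit 15) (.e (nat_lit 188452) (nat_lit 23) (.e (nat_lit 204822) (nat_lit 17) .nil)))) (.g (nat_lit 0) (.e (nat_lit 352074) (nat_lit 0) .nil) .nil)))))) (.nd (nat_lit 7) (.nd (nat_lit 8) (.nd (nat_lit 9) 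
(.lf (nat_lit 570436) (.g (nat_lit 3245) (.e (nat_lit 475177) (nat_lit 24) (.e (nat_lit 516150) (nat_lit 9) (.e (nat_lit 426131) (nat_lit 3) (.e (nat_lit 204838) (nat_lit 20) (.e (nat_lit 122624) (nat_lit 3) (.e (nat_lit 212736) (nat_lit 15) .nil)))))) (.g (nat_lit 1) (.e (nat_lit 350815) (nat_lit 0) .nil) .nil))) 
(.lf (nat_lit 570948) (.g (nat_lit 1778) (.e (nat_lit 475179) (nat_lit 24) (.e (nat_lit 516150) (nat_lit 9) (.e (nat_lit 426323) (nat_lit 13) (.e (nat_lit 483364) (nat_lit 18) (.e (nat_lit 57689) (nat_lit 156) .nil))))) (.g (nat_lit 0) (.e (nat_lit 351568) (nat_lit 0) .nil) .nil)))) (.nd (nat_lit 9) 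
(.lf (nat_lit 570692) (.g (nat_lit 494) (.e (nat_lit 475179) (nat_lit 24) (.e (nat_lit 516115) (nat_lit 1) (.e (nat_lit 164327) (nat_lit 230) .nil))) (.g (nat_lit 0) (.e (nat_lit 351206) (nat_lit 0) .nil) .nil))) 
(.lf (nat_lit 571204) (.g (nat_lit 1160) (.e (nat_lit 475184) (nat_lit 29) (.e (nat_lit 557107) (nat_lit 15) (.e (nat_lit 188447) (nat_lit 22) (.e (nat_lit 196661) (nat_lit 12) .nil)))) (.g (nat_lit 0) (.e (nat_lit 352010) (nat_lit 0) .nil) .nil))))) (.nd (nat_lit 8) (.nd (nat_lit 9) 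
(.lf (nat_lit 570564) (.g (nat_lit 615) (.e (nat_lit 475177) (nat_lit 24) (.e (nat_lit 516176) (nat_lit 14) (.e (nat_lit 466972) (nat_lit 21) .nil))) (.g (nat_lit 0) (.e (nat_lit 351001) (nat_lit 0) .nil) .nil))) 
(.lf (nat_lit 571076) (.g (nat_lit 3332) (.e (nat_lit 475183) (nat_lit 29) (.e (nat_lit 557100) (nat_lit 13) (.e (nat_lit 172113) (nat_lit 10) (.e (nat_lit 434245) (nat_lit 28) (.e (nat_lit 573469) (nat_lit 11) (.e (nat_lit 16458) (nat_lit 12) .nil)))))) (.g (nat_lit 1) (.e (nat_lit 351865) (nat_lit 0) .nil) .nil)))) (.nd (nat_lit 9) 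
(.lf (nat_lit 570820) (.g (nat_lit 1824) (.e (nat_lit 475179) (nat_lit 24) (.e (nat_lit 516120) (nat_lit 1) (.e (nat_lit 164330) (nat_lit 230) (.e (nat_lit 163857) (nat_lit 0) .nil)))) (.g (nat_lit 0) (.e (nat_lit 351388) (nat_lit 0) .nil) .nil))) 
(.lf (nat_lit 571332) (.g (nat_lit 1153) (.e (nat_lit 475185) (nat_lit 29) (.e (nat_lit 557100) (nat_lit 13) (.e (nat_lit 172106) (nat_lit 10) (.e (nat_lit 434209) (nat_lit 18) .nil)))) (.g (nat_lit 0) (.e (nat_lit 352150) (nat_lit 0) .nil) .nil))))))) (.nd (nat_lit 6) (.nd (nat_lit 7) (.nd (nat_lit 8) (.nd (nat_lit 9) 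
(.lf (nat_lit 570404) (.g (nat_lit 3479) (.e (nat_lit 475177) (nat_lit 24) (.e (nat_lit 516146) (nat_lit 9) (.e (nat_lit 426438) (nat_lit 18) (.e (nat_lit 98386) (nat_lit 32) (.e (nat_lit 475177) (nat_lit 24) (.e (nat_lit 516180) (nat_lit 15) .nil)))))) (.g (nat_lit 1) (.e (nat_lit 350773) (nat_lit 0) .nil) .nil))) 
(.lf (nat_lit 570916) (.g (nat_lit 3218) (.e (nat_lit 475179) (nat_lit 24) (.e (nat_lit 516146) (nat_lit 9) (.e (nat_lit 426131) (nat_lit 3) (.e (nat_lit 204837) (nat_lit 20) (.e (nat_lit 122624) (nat_lit 3) (.e (nat_lit 212736) (nat_lit 15) .nil)))))) (.g (nat_lit 1) (.e (nat_lit 351514) (nat_lit 0) .nil) .nil)))) (.nd (nat_lit 9) 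
(.lf (nat_lit 570660) (.g (nat_lit 2079) (.e (nat_lit 475179) (nat_lit 24) (.e (nat_lit 516115) (nat_lit 1) (.e (nat_lit 164325) (nat_lit 230) (.e (nat_lit 163901) (nat_lit 12) .nil)))) (.g (nat_lit 0) (.e (nat_lit 351152) (nat_lit 0) .nil) .nil))) 
(.lf (nat_lit 571172) (.g (nat_lit 2293) (.e (nat_lit 475184) (nat_lit 29) (.e (nat_lit 557100) (nat_lit 13) (.e (nat_lit 172106) (nat_lit 10) (.e (nat_lit 434231) (nat_lit 23) (.e (nat_lit 532490) (nat_lit 0) .nil))))) (.g (nat_lit 0) (.e (nat_lit 351973) (nat_lit 0) .nil) .nil))))) (.nd (nat_lit 8) (.nd (nat_lit 9) 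
(.lf (nat_lit 570532) (.g (nat_lit 3056) (.e (nat_lit 475177) (nat_lit 24) (.e (nat_lit 516176) (nat_lit 14) (.e (nat_lit 466954) (nat_lit 11) (.e (nat_lit 335986) (nat_lit 1) (.e (nat_lit 57686) (nat_lit 156) (.e (nat_lit 163936) (nat_lit 18) .nil)))))) (.g (nat_lit 1) (.e (nat_lit 350959) (nat_lit 0) .nil) .nil))) 
(.lf (nat_lit 571044) (.g (nat_lit 1775) (.e (nat_lit 483072) (nat_lit 24) (.e (nat_lit 516117) (nat_lit 1) (.e (nat_lit 164329) (nat_lit 230) (.e (nat_lit 163902) (nat_lit 12) (.e (nat_lit 426568) (nat_lit 34) .nil))))) (.g (nat_lit 0) (.e (nat_lit 351827) (nat_lit 0) .nil) .nil)))) (.nd (nat_lit 9) 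
(.lf (nat_lit 570788) (.g (nat_lit 1634) (.e (nat_lit 475179) (nat_lit 24) (.e (nat_lit 516119) (nat_lit 1) (.e (nat_lit 164326) (nat_lit 230) (.e (nat_lit 163941) (nat_lit 19) (.e (nat_lit 483337) (nat_lit 9) .nil))))) (.g (nat_lit 0) (.e (nat_lit 351346) (nat_lit 0) .nil) .nil))) 
(.lf (nat_lit 571300) (.g (nat_lit 1162) (.e (nat_lit 475185) (nat_lit 29) (.e (nat_lit 557098) (nat_lit 13) (.e (nat_lit 172099) (nat_lit 9) .nil))) (.g (nat_lit 0) (.e (nat_lit 352117) (nat_lit 0) .nil) .nil)))))) (.nd (nat_lit 7) (.nd (nat_lit 8) (.nd (nat_lit 9) 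
(.lf (nat_lit 570468) (.g (nat_lit 1510) (.e (nat_lit 475177) (nat_lit 24) (.e (nat_lit 516150) (nat_lit 9) (.e (nat_lit 426436) (nat_lit 18) (.e (nat_lit 98383) (nat_lit 32) .nil)))) (.g (nat_lit 0) (.e (nat_lit 350857) (nat_lit 0) .nil) .nil))) 
(.lf (nat_lit 570980) (.g (nat_lit 2447) (.e (nat_lit 475179) (nat_lit 24) (.e (nat_lit 516174) (nat_lit 14) (.e (nat_lit 466954) (nat_lit 11) (.e (nat_lit 335994) (nat_lit 1) (.e (nat_lit 57691) (nat_lit 156) (.e (nat_lit 163939) (nat_lit 18) .nil)))))) (.g (nat_lit 1) (.e (nat_lit 351750) (nat_lit 0) .nil) .nil)))) (.nd (nat_lit 9) 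
(.lf (nat_lit 570724) (.g (nat_lit 1608) (.e (nat_lit 475179) (nat_lit 24) (.e (nat_lit 516117) (nat_lit 1) (.e (nat_lit 164329) (nat_lit 230) (.e (nat_lit 163936) (nat_lit 18) .nil)))) (.g (nat_lit 0) (.e (nat_lit 351254) (nat_lit 0) .nil) .nil))) 
(.lf (nat_lit 571236) (.g (nat_lit 4928) (.e (nat_lit 475184) (nat_lit 29) (.e (nat_lit 557109) (nat_lit 15) (.e (nat_lit 188449) (nat_lit 22) (.e (nat_lit 196618) (nat_lit 9) .nil)))) (.g (nat_lit 0) (.e (nat_lit 352042) (nat_lit 0) .nil) .nil))))) (.nd (nat_lit 8) (.nd (nat_lit 9) 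
(.lf (nat_lit 570596) (.g (nat_lit 1877) (.e (nat_lit 475177) (nat_lit 24) (.e (nat_lit 516181) (nat_lit 15) (.e (nat_lit 475179) (nat_lit 24) (.e (nat_lit 516150) (nat_lit 9) (.e (nat_lit 426438) (nat_lit 18) .nil))))) (.g (nat_lit 0) (.e (nat_lit 351047) (nat_lit 0) .nil) .nil))) 
(.lf (nat_lit 571108) (.g (nat_lit 4411) (.e (nat_lit 475183) (nat_lit 29) (.e (nat_lit 557108) (nat_lit 15) (.e (nat_lit 188449) (nat_lit 22) (.e (nat_lit 196642) (nat_lit 9) (.e (nat_lit 1667) (nat_lit 116) .nil))))) (.g (nat_lit 0) (.e (nat_lit 351899) (nat_lit 0) .nil) .nil)))) (.nd (nat_lit 9) 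
(.lf (nat_lit 570852) (.g (nat_lit 2959) (.e (nat_lit 475179) (nat_lit 24) (.e (nat_lit 516120) (nat_lit 1) (.e (nat_lit 164330) (nat_lit 230) (.e (nat_lit 163905) (nat_lit 12) (.e (nat_lit 426489) (nat_lit 27) (.e (nat_lit 336409) (nat_lit 27) (.e (nat_lit 426313) (nat_lit 12) .nil))))))) (.g (nat_lit 1) (.e (nat_lit 351420) (nat_lit 0) .nil) .nil))) 
(.lf (nat_lit 571364) (.g (nat_lit 2982) (.e (nat_lit 475185) (nat_lit 29) (.e (nat_lit 557100) (nat_lit 13) (.e (nat_lit 172106) (nat_lit 10) (.e (nat_lit 434231) (nat_lit 23) (.e (nat_lit 532490) (nat_lit 0) (.e (nat_lit 7936) (nat_lit 357) (.e (nat_lit 3074) (nat_lit 190) .nil))))))) (.g (nat_lit 1) (.e (nat_lit 352182) (nat_lit 0) .nil) .nil)))))))) 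
(.nd (nat_lit 5) (.nd (nat_lit 6) (.nd (nat_lit 7) (.nd (nat_lit 8) (.nd (nat_lit 9) 
(.lf (nat_lit 570388) (.g (nat_lit 2350) (.e (nat_lit 475177) (nat_lit 24) (.e (nat_lit 516145) (nat_lit 9) (.e (nat_lit 426438) (nat_lit 18) (.e (nat_lit 98358) (nat_lit 26) (.e (nat_lit 426392) (nat_lit 15) .nil))))) (.g (nat_lit 0) (.e (nat_lit 350755) (nat_lit 0) .nil) .nil))) 
(.lf (nat_lit 570900) (.g (nat_lit 1258) (.e (nat_lit 475179) (nat_lit 24) (.e (nat_lit 516120) (nat_lit 1) (.e (nat_lit 164332) (nat_lit 230) (.e (nat_lit 163905) (nat_lit 12) (.e (nat_lit 426568) (nat_lit 34) .nil))))) (.g (nat_lit 0) (.e (nat_lit 351482) (nat_lit 0) .nil) .nil)))) (.nd (nat_lit 9) 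
(.lf (nat_lit 570644) (.g (nat_lit 1665) (.e (nat_lit 475178) (nat_lit 24) (.e (nat_lit 516176) (nat_lit 14) (.e (nat_lit 466971) (nat_lit 21) (.e (nat_lit 164179) (nat_lit 154) .nil)))) (.g (nat_lit 0) (.e (nat_lit 351132) (nat_lit 0) .nil) .nil))) 
(.lf (nat_lit 571156) (.g (nat_lit 818) (.e (nat_lit 475184) (nat_lit 29) (.e (nat_lit 557098) (nat_lit 13) (.e (nat_lit 172111) (nat_lit 10) .nil))) (.g (nat_lit 0) (.e (nat_lit 351957) (nat_lit 0) .nil) .nil))))) (.nd (nat_lit 8) (.nd (nat_lit 9) 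
(.lf (nat_lit 570516) (.g (nat_lit 1893) (.e (nat_lit 475177) (nat_lit 24) (.e (nat_lit 516174) (nat_lit 14) (.e (nat_lit 466954) (nat_lit 11) (.e (nat_lit 335995) (nat_lit 1) (.e (nat_lit 57687) (nat_lit 156) (.e (nat_lit 163939) (nat_lit 18) .nil)))))) (.g (nat_lit 1) (.e (nat_lit 350936) (nat_lit 0) .nil) .nil))) 
(.lf (nat_lit 571028) (.g (nat_lit 2300) (.e (nat_lit 475179) (nat_lit 24) (.e (nat_lit 516179) (nat_lit 15) (.e (nat_lit 475177) (nat_lit 24) (.e (nat_lit 516146) (nat_lit 9) (.e (nat_lit 426438) (nat_lit 18) (.e (nat_lit 98383) (nat_lit 32) .nil)))))) (.g (nat_lit 1) (.e (nat_lit 351810) (nat_lit 0) .nil) .nil)))) (.nd (nat_lit 9) 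
(.lf (nat_lit 570772) (.g (nat_lit 1654) (.e (nat_lit 475179) (nat_lit 24) (.e (nat_lit 516119) (nat_lit 1) (.e (nat_lit 164325) (nat_lit 230) (.e (nat_lit 163907) (nat_lit 12) (.e (nat_lit 426481) (nat_lit 27) .nil))))) (.g (nat_lit 0) (.e (nat_lit 351317) (nat_lit 0) .nil) .nil))) 
(.lf (nat_lit 571284) (.g (nat_lit 2784) (.e (nat_lit 475185) (nat_lit 29) (.e (nat_lit 557096) (nat_lit 13) (.e (nat_lit 172126) (nat_lit 14) (.e (nat_lit 491540) (nat_lit 3) (.e (nat_lit 98354) (nat_lit 26) (.e (nat_lit 426317) (nat_lit 12) .nil)))))) (.g (nat_lit 1) (.e (nat_lit 352101) (nat_lit 0) .nil) .nil)))))) (.nd (nat_lit 7) (.nd (nat_lit 8) (.nd (nat_lit 9) 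
(.lf (nat_lit 570452) (.g (nat_lit 1717) (.e (nat_lit 475177) (nat_lit 24) (.e (nat_lit 516150) (nat_lit 9) (.e (nat_lit 426323) (nat_lit 13) (.e (nat_lit 483364) (nat_lit 18) (.e (nat_lit 57692) (nat_lit 156) (.e (nat_lit 171776) (nat_lit 18) .nil)))))) (.g (nat_lit 1) (.e (nat_lit 350838) (nat_lit 0) .nil) .nil))) 
(.lf (nat_lit 570964) (.g (nat_lit 2250) (.e (nat_lit 475179) (nat_lit 24) (.e (nat_lit 516169) (nat_lit 13) (.e (nat_lit 458789) (nat_lit 23) (.e (nat_lit 532515) (nat_lit 3) (.e (nat_lit 122624) (nat_lit 3) (.e (nat_lit 212736) (nat_lit 15) .nil)))))) (.g (nat_lit 1) (.e (nat_lit 351725) (nat_lit 0) .nil) .nil)))) (.nd (nat_lit 9) 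
(.lf (nat_lit 570708) (.g (nat_lit 716) (.e (nat_lit 475179) (nat_lit 24) (.e (nat_lit 516115) (nat_lit 1) (.e (nat_lit 164332) (nat_lit 230) .nil))) (.g (nat_lit 0) (.e (nat_lit 351229) (nat_lit 0) .nil) .nil))) 
(.lf (nat_lit 571220) (.g (nat_lit 2084) (.e (nat_lit 475184) (nat_lit 29) (.e (nat_lit 557107) (nat_lit 15) (.e (nat_lit 188452) (nat_lit 23) (.e (nat_lit 204885) (nat_lit 33) .nil)))) (.g (nat_lit 0) (.e (nat_lit 352026) (nat_lit 0) .nil) .nil))))) (.nd (nat_lit 8) (.nd (nat_lit 9) 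
(.lf (nat_lit 570580) (.g (nat_lit 2975) (.e (nat_lit 475177) (nat_lit 24) (.e (nat_lit 516179) (nat_lit 15) (.e (nat_lit 475179) (nat_lit 24) (.e (nat_lit 516151) (nat_lit 9) (.e (nat_lit 433920) (nat_lit 18) .nil))))) (.g (nat_lit 0) (.e (nat_lit 351020) (nat_lit 0) .nil) .nil))) 
(.lf (nat_lit 571092) (.g (nat_lit 2392) (.e (nat_lit 475183) (nat_lit 29) (.e (nat_lit 557107) (nat_lit 15) (.e (nat_lit 188440) (nat_lit 20) (.e (nat_lit 3307) (nat_lit 202) (.e (nat_lit 573470) (nat_lit 11) .nil))))) (.g (nat_lit 0) (.e (nat_lit 351883) (nat_lit 0) .nil) .nil)))) (.nd (nat_lit 9) 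
(.lf (nat_lit 570836) (.g (nat_lit 3771) (.e (nat_lit 475179) (nat_lit 24) (.e (nat_lit 516120) (nat_lit 1) (.e (nat_lit 164330) (nat_lit 230) (.e (nat_lit 163902) (nat_lit 12) (.e (nat_lit 426558) (nat_lit 33) (.e (nat_lit 385030) (nat_lit 8) (.e (nat_lit 3067) (nat_lit 190) .nil))))))) (.g (nat_lit 1) (.e (nat_lit 351404) (nat_lit 0) .nil) .nil))) 
(.lf (nat_lit 571348) (.g (nat_lit 1851) (.e (nat_lit 475185) (nat_lit 29) (.e (nat_lit 557100) (nat_lit 13) (.e (nat_lit 172106) (nat_lit 10) (.e (nat_lit 434231) (nat_lit 23) (.e (nat_lit 532483) (nat_lit 0) (.e (nat_lit 1030) (nat_lit 81) (.e (nat_lit 4374) (nat_lit 257) (.e (nat_lit 2505) (nat_lit 157) (.e (nat_lit 3062) (nat_lit 190) .nil))))))))) (.g (nat_lit 1) (.e (nat_lit 352166) (nat_lit 0) .nil) .nil))))))) 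
(.nd (nat_lit 6) (.nd (nat_lit 7) (.nd (nat_lit 8) (.nd (nat_lit 9) 
(.lf (nat_lit 570420) (.g (nat_lit 1995) (.e (nat_lit 475177) (nat_lit 24) (.e (nat_lit 516149) (nat_lit 9) (.e (nat_lit 426323) (nat_lit 13) (.e (nat_lit 483365) (nat_lit 18) (.e (nat_lit 57685) (nat_lit 156) (.e (nat_lit 163936) (nat_lit 18) .nil)))))) (.g (nat_lit 1) (.e (nat_lit 350795) (nat_lit 0) .nil) .nil))) 
(.lf (nat_lit 570932) (.g (nat_lit 2838) (.e (nat_lit 475179) (nat_lit 24) (.e (nat_lit 516146) (nat_lit 9) (.e (nat_lit 426323) (nat_lit 13) (.e (nat_lit 483366) (nat_lit 18) (.e (nat_lit 57688) (nat_lit 156) (.e (nat_lit 163936) (nat_lit 18) .nil)))))) (.g (nat_lit 1) (.e (nat_lit 351532) (nat_lit 0) .nil) .nil)))) (.nd (nat_lit 9) 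
(.lf (nat_lit 570676) (.g (nat_lit 2289) (.e (nat_lit 475179) (nat_lit 24) (.e (nat_lit 516115) (nat_lit 1) (.e (nat_lit 164325) (nat_lit 230) (.e (nat_lit 163907) (nat_lit 12) (.e (nat_lit 426480) (nat_lit 27) .nil))))) (.g (nat_lit 0) (.e (nat_lit 351170) (nat_lit 0) .nil) .nil))) 
(.lf (nat_lit 571188) (.g (nat_lit 2833) (.e (nat_lit 475184) (nat_lit 29) (.e (nat_lit 557101) (nat_lit 13) (.e (nat_lit 172097) (nat_lit 9) (.e (nat_lit 426140) (nat_lit 3) (.e (nat_lit 204821) (nat_lit 17) (.e (nat_lit 6680) (nat_lit 357) (.e (nat_lit 3064) (nat_lit 190) .nil))))))) (.g (nat_lit 1) (.e (nat_lit 351989) (nat_lit 0) .nil) .nil))))) (.nd (nat_lit 8) (.nd (nat_lit 9) 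
(.lf (nat_lit 570548) (.g (nat_lit 2776) (.e (nat_lit 475177) (nat_lit 24) (.e (nat_lit 516176) (nat_lit 14) (.e (nat_lit 466954) (nat_lit 11) (.e (nat_lit 335994) (nat_lit 1) (.e (nat_lit 57691) (nat_lit 156) (.e (nat_lit 163939) (nat_lit 18) .nil)))))) (.g (nat_lit 1) (.e (nat_lit 350979) (nat_lit 0) .nil) .nil))) 
(.lf (nat_lit 571060) (.g (nat_lit 1368) (.e (nat_lit 475183) (nat_lit 29) (.e (nat_lit 557098) (nat_lit 13) (.e (nat_lit 172097) (nat_lit 9) (.e (nat_lit 426140) (nat_lit 3) .nil)))) (.g (nat_lit 0) (.e (nat_lit 351849) (nat_lit 0) .nil) .nil)))) (.nd (nat_lit 9) 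
(.lf (nat_lit 570804) (.g (nat_lit 2157) (.e (nat_lit 475179) (nat_lit 24) (.e (nat_lit 516119) (nat_lit 1) (.e (nat_lit 164332) (nat_lit 230) (.e (nat_lit 163941) (nat_lit 19) (.e (nat_lit 483341) (nat_lit 9) .nil))))) (.g (nat_lit 0) (.e (nat_lit 351369) (nat_lit 0) .nil) .nil))) 
(.lf (nat_lit 571316) (.g (nat_lit 860) (.e (nat_lit 475185) (nat_lit 29) (.e (nat_lit 557098) (nat_lit 13) (.e (nat_lit 172114) (nat_lit 10) .nil))) (.g (nat_lit 0) (.e (nat_lit 352133) (nat_lit 0) .nil) .nil)))))) (.nd (nat_lit 7) (.nd (nat_lit 8) (.nd (nat_lit 9) 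
(.lf (nat_lit 570484) (.g (nat_lit 1413) (.e (nat_lit 475177) (nat_lit 24) (.e (nat_lit 516174) (nat_lit 14) (.e (nat_lit 466950) (nat_lit 11) (.e (nat_lit 335995) (nat_lit 1) (.e (nat_lit 57688) (nat_lit 156) .nil))))) (.g (nat_lit 0) (.e (nat_lit 350894) (nat_lit 0) .nil) .nil))) 
(.lf (nat_lit 570996) (.g (nat_lit 1861) (.e (nat_lit 475179) (nat_lit 24) (.e (nat_lit 516176) (nat_lit 14) (.e (nat_lit 466953) (nat_lit 11) (.e (nat_lit 335996) (nat_lit 1) (.e (nat_lit 57692) (nat_lit 156) .nil))))) (.g (nat_lit 0) (.e (nat_lit 351766) (nat_lit 0) .nil) .nil)))) (.nd (nat_lit 9) 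
(.lf (nat_lit 570740) (.g (nat_lit 350) (.e (nat_lit 475179) (nat_lit 24) (.e (nat_lit 516117) (nat_lit 1) (.e (nat_lit 164332) (nat_lit 230) .nil))) (.g (nat_lit 0) (.e (nat_lit 351274) (nat_lit 0) .nil) .nil))) 
(.lf (nat_lit 571252) (.g (nat_lit 2446) (.e (nat_lit 475184) (nat_lit 29) (.e (nat_lit 557109) (nat_lit 15) (.e (nat_lit 188450) (nat_lit 23) (.e (nat_lit 204821) (nat_lit 17) (.e (nat_lit 6680) (nat_lit 357) .nil))))) (.g (nat_lit 0) (.e (nat_lit 352058) (nat_lit 0) .nil) .nil))))) (.nd (nat_lit 8) (.nd (nat_lit 9) 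
(.lf (nat_lit 570612) (.g (nat_lit 223) (.e (nat_lit 475178) (nat_lit 24) (.e (nat_lit 516117) (nat_lit 1) (.e (nat_lit 164329) (nat_lit 230) .nil))) (.g (nat_lit 0) (.e (nat_lit 351068) (nat_lit 0) .nil) .nil))) 
(.lf (nat_lit 571124) (.g (nat_lit 2726) (.e (nat_lit 475183) (nat_lit 29) (.e (nat_lit 557109) (nat_lit 15) (.e (nat_lit 188447) (nat_lit 22) (.e (nat_lit 196661) (nat_lit 12) .nil)))) (.g (nat_lit 0) (.e (nat_lit 351915) (nat_lit 0) .nil) .nil)))) (.nd (nat_lit 9) 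
(.lf (nat_lit 570868) (.g (nat_lit 3465) (.e (nat_lit 475179) (nat_lit 24) (.e (nat_lit 516120) (nat_lit 1) (.e (nat_lit 164330) (nat_lit 230) (.e (nat_lit 163941) (nat_lit 19) (.e (nat_lit 483333) (nat_lit 0) (.e (nat_lit 7348) (nat_lit 388) (.e (nat_lit 3067) (nat_lit 190) .nil))))))) (.g (nat_lit 1) (.e (nat_lit 351441) (nat_lit 0) .nil) .nil))) 
(.lf (nat_lit 571380) (.g (nat_lit 1183) (.e (nat_lit 475185) (nat_lit 29) (.e (nat_lit 557100) (nat_lit 13) (.e (nat_lit 172113) (nat_lit 10) (.e (nat_lit 434231) (nat_lit 23) .nil)))) (.g (nat_lit 0) (.e (nat_lit 352198) (nat_lit 0) .nil) .nil))))))))) (.nd (nat_lit 4) (.nd (nat_lit 5) (.nd (nat_lit 6) (.nd (nat_lit 7) (.nd (nat_lit 8) (.nd (nat_lit 9) 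
(.lf (nat_lit 570380) (.g (nat_lit 4154) (.e (nat_lit 475177) (nat_lit 24) (.e (nat_lit 516129) (nat_lit 3) (.e (nat_lit 221194) (nat_lit 11) (.e (nat_lit 336011) (nat_lit 2) (.e (nat_lit 90170) (nat_lit 13) (.e (nat_lit 172118) (nat_lit 12) .nil)))))) (.g (nat_lit 1) (.e (nat_lit 350742) (nat_lit 0) .nil) .nil))) 
(.lf (nat_lit 570892) (.g (nat_lit 2260) (.e (nat_lit 475179) (nat_lit 24) (.e (nat_lit 516120) (nat_lit 1) (.e (nat_lit 164332) (nat_lit 230) (.e (nat_lit 163905) (nat_lit 12) (.e (nat_lit 426491) (nat_lit 27) .nil))))) (.g (nat_lit 0) (.e (nat_lit 351474) (nat_lit 0) .nil) .nil)))) (.nd (nat_lit 9) 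
(.lf (nat_lit 570636) (.g (nat_lit 1268) (.e (nat_lit 475178) (nat_lit 24) (.e (nat_lit 516146) (nat_lit 9) (.e (nat_lit 426428) (nat_lit 17) (.e (nat_lit 90133) (nat_lit 9) .nil)))) (.g (nat_lit 0) (.e (nat_lit 351113) (nat_lit 0) .nil) .nil))) 
(.lf (nat_lit 571148) (.g (nat_lit 1785) (.e (nat_lit 475184) (nat_lit 29) (.e (nat_lit 557098) (nat_lit 13) (.e (nat_lit 172097) (nat_lit 9) (.e (nat_lit 426140) (nat_lit 3) (.e (nat_lit 204821) (nat_lit 17) .nil))))) (.g (nat_lit 0) (.e (nat_lit 351949) (nat_lit 0) .nil) .nil))))) (.nd (nat_lit 8) (.nd (nat_lit 9) 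
(.lf (nat_lit 570508) (.g (nat_lit 1277) (.e (nat_lit 475177) (nat_lit 24) (.e (nat_lit 516174) (nat_lit 14) (.e (nat_lit 466954) (nat_lit 11) (.e (nat_lit 335994) (nat_lit 1) (.e (nat_lit 57685) (nat_lit 156) .nil))))) (.g (nat_lit 0) (.e (nat_lit 350927) (nat_lit 0) .nil) .nil))) 
(.lf (nat_lit 571020) (.g (nat_lit 2151) (.e (nat_lit 475179) (nat_lit 24) (.e (nat_lit 516176) (nat_lit 14) (.e (nat_lit 466954) (nat_lit 11) (.e (nat_lit 335996) (nat_lit 1) (.e (nat_lit 57685) (nat_lit 156) .nil))))) (.g (nat_lit 0) (.e (nat_lit 351798) (nat_lit 0) .nil) .nil)))) (.nd (nat_lit 9) 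
(.lf (nat_lit 570764) (.g (nat_lit 1261) (.e (nat_lit 475179) (nat_lit 24) (.e (nat_lit 516119) (nat_lit 1) (.e (nat_lit 164324) (nat_lit 230) (.e (nat_lit 163903) (nat_lit 12) .nil)))) (.g (nat_lit 0) (.e (nat_lit 351304) (nat_lit 0) .nil) .nil))) 
(.lf (nat_lit 571276) (.g (nat_lit 2572) (.e (nat_lit 475184) (nat_lit 29) (.e (nat_lit 557109) (nat_lit 15) (.e (nat_lit 188452) (nat_lit 23) (.e (nat_lit 204884) (nat_lit 33) (.e (nat_lit 401451) (nat_lit 12) .nil))))) (.g (nat_lit 0) (.e (nat_lit 352082) (nat_lit 0) .nil) .nil)))))) (.nd (nat_lit 7) (.nd (nat_lit 8) (.nd (nat_lit 9) 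
(.lf (nat_lit 570444) (.g (nat_lit 3417) (.e (nat_lit 475177) (nat_lit 24) (.e (nat_lit 516150) (nat_lit 9) (.e (nat_lit 426323) (nat_lit 13) (.e (nat_lit 483363) (nat_lit 18) (.e (nat_lit 57691) (nat_lit 156) (.e (nat_lit 163938) (nat_lit 18) .nil)))))) (.g (nat_lit 1) (.e (nat_lit 350829) (nat_lit 0) .nil) .nil))) 
(.lf (nat_lit 570956) (.g (nat_lit 593) (.e (nat_lit 475179) (nat_lit 24) (.e (nat_lit 516150) (nat_lit 9) (.e (nat_lit 433920) (nat_lit 18) .nil))) (.g (nat_lit 0) (.e (nat_lit 351577) (nat_lit 0) .nil) .nil)))) (.nd (nat_lit 9) 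
(.lf (nat_lit 570700) (.g (nat_lit 3295) (.e (nat_lit 475179) (nat_lit 24) (.e (nat_lit 516115) (nat_lit 1) (.e (nat_lit 164327) (nat_lit 230) (.e (nat_lit 163903) (nat_lit 12) (.e (nat_lit 426568) (nat_lit 34) (.e (nat_lit 393294) (nat_lit 26) .nil)))))) (.g (nat_lit 1) (.e (nat_lit 351214) (nat_lit 0) .nil) .nil))) 
(.lf (nat_lit 571212) (.g (nat_lit 953) (.e (nat_lit 475184) (nat_lit 29) (.e (nat_lit 557107) (nat_lit 15) (.e (nat_lit 188450) (nat_lit 23) (.e (nat_lit 204821) (nat_lit 17) .nil)))) (.g (nat_lit 0) (.e (nat_lit 352018) (nat_lit 0) .nil) .nil))))) (.nd (nat_lit 8) (.nd (nat_lit 9) 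
(.lf (nat_lit 570572) (.g (nat_lit 960) (.e (nat_lit 475177) (nat_lit 24) (.e (nat_lit 516179) (nat_lit 15) (.e (nat_lit 475177) (nat_lit 24) (.e (nat_lit 516181) (nat_lit 15) .nil)))) (.g (nat_lit 0) (.e (nat_lit 351011) (nat_lit 0) .nil) .nil))) 
(.lf (nat_lit 571084) (.g (nat_lit 3125) (.e (nat_lit 475183) (nat_lit 29) (.e (nat_lit 557100) (nat_lit 13) (.e (nat_lit 172113) (nat_lit 10) (.e (nat_lit 434248) (nat_lit 28) (.e (nat_lit 573470) (nat_lit 11) (.e (nat_lit 16461) (nat_lit 12) .nil)))))) (.g (nat_lit 1) (.e (nat_lit 351873) (nat_lit 0) .nil) .nil)))) (.nd (nat_lit 9) 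
(.lf (nat_lit 570828) (.g (nat_lit 2879) (.e (nat_lit 475179) (nat_lit 24) (.e (nat_lit 516120) (nat_lit 1) (.e (nat_lit 164330) (nat_lit 230) (.e (nat_lit 163902) (nat_lit 12) (.e (nat_lit 426480) (nat_lit 27) .nil))))) (.g (nat_lit 0) (.e (nat_lit 351396) (nat_lit 0) .nil) .nil))) 
(.lf (nat_lit 571340) (.g (nat_lit 3637) (.e (nat_lit 475185) (nat_lit 29) (.e (nat_lit 557100) (nat_lit 13) (.e (nat_lit 172106) (nat_lit 10) (.e (nat_lit 434231) (nat_lit 23) (.e (nat_lit 532481) (nat_lit 0) (.e (nat_lit 6622) (nat_lit 357) (.e (nat_lit 3062) (nat_lit 190) .nil))))))) (.g (nat_lit 1) (.e (nat_lit 352158) (nat_lit 0) .nil) .nil))))))) 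
(.nd (nat_lit 6) (.nd (nat_lit 7) (.nd (nat_lit 8) (.nd (nat_lit 9) 
(.lf (nat_lit 570412) (.g (nat_lit 2172) (.e (nat_lit 475177) (nat_lit 24) (.e (nat_lit 516149) (nat_lit 9) (.e (nat_lit 426131) (nat_lit 3) (.e (nat_lit 204838) (nat_lit 20) (.e (nat_lit 122624) (nat_lit 3) (.e (nat_lit 212736) (nat_lit 15) .nil)))))) (.g (nat_lit 1) (.e (nat_lit 350786) (nat_lit 0) .nil) .nil))) 
(.lf (nat_lit 570924) (.g (nat_lit 3124) (.e (nat_lit 475179) (nat_lit 24) (.e (nat_lit 516146) (nat_lit 9) (.e (nat_lit 426323) (nat_lit 13) (.e (nat_lit 483363) (nat_lit 18) (.e (nat_lit 57692) (nat_lit 156) (.e (nat_lit 163938) (nat_lit 18) .nil)))))) (.g (nat_lit 1) (.e (nat_lit 351524) (nat_lit 0) .nil) .nil)))) (.nd (nat_lit 9) 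
(.lf (nat_lit 570668) (.g (nat_lit 2409) (.e (nat_lit 475179) (nat_lit 24) (.e (nat_lit 516115) (nat_lit 1) (.e (nat_lit 164325) (nat_lit 230) (.e (nat_lit 163903) (nat_lit 12) (.e (nat_lit 426567) (nat_lit 34) .nil))))) (.g (nat_lit 0) (.e (nat_lit 351160) (nat_lit 0) .nil) .nil))) 
(.lf (nat_lit 571180) (.g (nat_lit 2014) (.e (nat_lit 475184) (nat_lit 29) (.e (nat_lit 557100) (nat_lit 13) (.e (nat_lit 172113) (nat_lit 10) (.e (nat_lit 434248) (nat_lit 28) (.e (nat_lit 573452) (nat_lit 9) .nil))))) (.g (nat_lit 0) (.e (nat_lit 351981) (nat_lit 0) .nil) .nil))))) (.nd (nat_lit 8) (.nd (nat_lit 9) 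
(.lf (nat_lit 570540) (.g (nat_lit 2068) (.e (nat_lit 475177) (nat_lit 24) (.e (nat_lit 516176) (nat_lit 14) (.e (nat_lit 466954) (nat_lit 11) (.e (nat_lit 335988) (nat_lit 1) (.e (nat_lit 57690) (nat_lit 156) .nil))))) (.g (nat_lit 0) (.e (nat_lit 350970) (nat_lit 0) .nil) .nil))) 
(.lf (nat_lit 571052) (.g (nat_lit 3992) (.e (nat_lit 475183) (nat_lit 29) (.e (nat_lit 557097) (nat_lit 13) (.e (nat_lit 172097) (nat_lit 9) (.e (nat_lit 426125) (nat_lit 2) (.e (nat_lit 196661) (nat_lit 12) (.e (nat_lit 57751) (nat_lit 201) (.e (nat_lit 3067) (nat_lit 190) .nil))))))) (.g (nat_lit 1) (.e (nat_lit 351841) (nat_lit 0) .nil) .nil)))) (.nd (nat_lit 9) 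
(.lf (nat_lit 570796) (.g (nat_lit 772) (.e (nat_lit 475179) (nat_lit 24) (.e (nat_lit 516119) (nat_lit 1) (.e (nat_lit 164328) (nat_lit 230) .nil))) (.g (nat_lit 0) (.e (nat_lit 351359) (nat_lit 0) .nil) .nil))) 
(.lf (nat_lit 571308) (.g (nat_lit 1135) (.e (nat_lit 475185) (nat_lit 29) (.e (nat_lit 557098) (nat_lit 13) (.e (nat_lit 172102) (nat_lit 9) .nil))) (.g (nat_lit 0) (.e (nat_lit 352125) (nat_lit 0) .nil) .nil)))))) (.nd (nat_lit 7) (.nd (nat_lit 8) (.nd (nat_lit 9) 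
(.lf (nat_lit 570476) (.g (nat_lit 2423) (.e (nat_lit 475177) (nat_lit 24) (.e (nat_lit 516150) (nat_lit 9) (.e (nat_lit 426438) (nat_lit 18) (.e (nat_lit 98358) (nat_lit 26) (.e (nat_lit 426398) (nat_lit 15) .nil))))) (.g (nat_lit 0) (.e (nat_lit 350865) (nat_lit 0) .nil) .nil))) 
(.lf (nat_lit 570988) (.g (nat_lit 454) (.e (nat_lit 475179) (nat_lit 24) (.e (nat_lit 516176) (nat_lit 14) (.e (nat_lit 466950) (nat_lit 11) .nil))) (.g (nat_lit 0) (.e (nat_lit 351758) (nat_lit 0) .nil) .nil)))) (.nd (nat_lit 9) 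
(.lf (nat_lit 570732) (.g (nat_lit 1443) (.e (nat_lit 475179) (nat_lit 24) (.e (nat_lit 516117) (nat_lit 1) (.e (nat_lit 164330) (nat_lit 230) (.e (nat_lit 163908) (nat_lit 12) .nil)))) (.g (nat_lit 0) (.e (nat_lit 351263) (nat_lit 0) .nil) .nil))) 
(.lf (nat_lit 571244) (.g (nat_lit 3040) (.e (nat_lit 475184) (nat_lit 29) (.e (nat_lit 557109) (nat_lit 15) (.e (nat_lit 188449) (nat_lit 22) (.e (nat_lit 196661) (nat_lit 12) (.e (nat_lit 57750) (nat_lit 201) (.e (nat_lit 3065) (nat_lit 190) .nil)))))) (.g (nat_lit 1) (.e (nat_lit 352050) (nat_lit 0) .nil) .nil))))) (.nd (nat_lit 8) (.nd (nat_lit 9) 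
(.lf (nat_lit 570604) (.g (nat_lit 1274) (.e (nat_lit 475178) (nat_lit 24) (.e (nat_lit 516106) (nat_lit 0) (.e (nat_lit 2478) (nat_lit 157) (.e (nat_lit 5234) (nat_lit 296) .nil)))) (.g (nat_lit 0) (.e (nat_lit 351056) (nat_lit 0) .nil) .nil))) 
(.lf (nat_lit 571116) (.g (nat_lit 2110) (.e (nat_lit 475183) (nat_lit 29) (.e (nat_lit 557108) (nat_lit 15) (.e (nat_lit 188452) (nat_lit 23) (.e (nat_lit 204883) (nat_lit 33) (.e (nat_lit 401452) (nat_lit 12) .nil))))) (.g (nat_lit 0) (.e (nat_lit 351907) (nat_lit 0) .nil) .nil)))) (.nd (nat_lit 9) 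
(.lf (nat_lit 570860) (.g (nat_lit 2327) (.e (nat_lit 475179) (nat_lit 24) (.e (nat_lit 516120) (nat_lit 1) (.e (nat_lit 164330) (nat_lit 230) (.e (nat_lit 163913) (nat_lit 12) (.e (nat_lit 426503) (nat_lit 27) .nil))))) (.g (nat_lit 0) (.e (nat_lit 351431) (nat_lit 0) .nil) .nil))) 
(.lf (nat_lit 571372) (.g (nat_lit 4151) (.e (nat_lit 475185) (nat_lit 29) (.e (nat_lit 557100) (nat_lit 13) (.e (nat_lit 172106) (nat_lit 10) (.e (nat_lit 434244) (nat_lit 28) (.e (nat_lit 573450) (nat_lit 9) (.e (nat_lit 375) (nat_lit 32) (.e (nat_lit 426310) (nat_lit 12) .nil))))))) (.g (nat_lit 1) (.e (nat_lit 352190) (nat_lit 0) .nil) .nil)))))))) 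
(.nd (nat_lit 5) (.nd (nat_lit 6) (.nd (nat_lit 7) (.nd (nat_lit 8) (.nd (nat_lit 9) 
(.lf (nat_lit 570396) (.g (nat_lit 670) (.e (nat_lit 475177) (nat_lit 24) (.e (nat_lit 516146) (nat_lit 9) (.e (nat_lit 426437) (nat_lit 18) .nil))) (.g (nat_lit 0) (.e (nat_lit 350765) (nat_lit 0) .nil) .nil))) 
(.lf (nat_lit 570908) (.g (nat_lit 4219) (.e (nat_lit 475179) (nat_lit 24) (.e (nat_lit 516129) (nat_lit 3) (.e (nat_lit 221194) (nat_lit 11) (.e (nat_lit 336011) (nat_lit 2) (.e (nat_lit 90170) (nat_lit 13) (.e (nat_lit 172118) (nat_lit 12) .nil)))))) (.g (nat_lit 1) (.e (nat_lit 351498) (nat_lit 0) .nil) .nil)))) (.nd (nat_lit 9) 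
(.lf (nat_lit 570652) (.g (nat_lit 3028) (.e (nat_lit 475179) (nat_lit 24) (.e (nat_lit 516115) (nat_lit 1) (.e (nat_lit 164325) (nat_lit 230) (.e (nat_lit 163850) (nat_lit 0) (.e (nat_lit 3252) (nat_lit 197) .nil))))) (.g (nat_lit 0) (.e (nat_lit 351143) (nat_lit 0) .nil) .nil))) 
(.lf (nat_lit 571164) (.g (nat_lit 3769) (.e (nat_lit 475184) (nat_lit 29) (.e (nat_lit 557098) (nat_lit 13) (.e (nat_lit 172115) (nat_lit 10) (.e (nat_lit 434231) (nat_lit 23) (.e (nat_lit 532490) (nat_lit 0) (.e (nat_lit 6680) (nat_lit 357) (.e (nat_lit 3066) (nat_lit 190) .nil))))))) (.g (nat_lit 1) (.e (nat_lit 351965) (nat_lit 0) .nil) .nil))))) (.nd (nat_lit 8) (.nd (nat_lit 9) 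
(.lf (nat_lit 570524) (.g (nat_lit 1889) (.e (nat_lit 475177) (nat_lit 24) (.e (nat_lit 516176) (nat_lit 14) (.e (nat_lit 466954) (nat_lit 11) (.e (nat_lit 335985) (nat_lit 1) (.e (nat_lit 57686) (nat_lit 156) .nil))))) (.g (nat_lit 0) (.e (nat_lit 350948) (nat_lit 0) .nil) .nil))) 
(.lf (nat_lit 571036) (.g (nat_lit 2517) (.e (nat_lit 475179) (nat_lit 24) (.e (nat_lit 516179) (nat_lit 15) (.e (nat_lit 475179) (nat_lit 24) (.e (nat_lit 516144) (nat_lit 9) (.e (nat_lit 426436) (nat_lit 18) .nil))))) (.g (nat_lit 0) (.e (nat_lit 351818) (nat_lit 0) .nil) .nil)))) (.nd (nat_lit 9) 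
(.lf (nat_lit 570780) (.g (nat_lit 1008) (.e (nat_lit 475179) (nat_lit 24) (.e (nat_lit 516119) (nat_lit 1) (.e (nat_lit 164326) (nat_lit 230) (.e (nat_lit 163903) (nat_lit 12) .nil)))) (.g (nat_lit 0) (.e (nat_lit 351336) (nat_lit 0) .nil) .nil))) 
(.lf (nat_lit 571292) (.g (nat_lit 1110) (.e (nat_lit 475185) (nat_lit 29) (.e (nat_lit 557098) (nat_lit 13) (.e (nat_lit 172080) (nat_lit 7) .nil))) (.g (nat_lit 0) (.e (nat_lit 352109) (nat_lit 0) .nil) .nil)))))) (.nd (nat_lit 7) (.nd (nat_lit 8) (.nd (nat_lit 9) 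
(.lf (nat_lit 570460) (.g (nat_lit 2691) (.e (nat_lit 475177) (nat_lit 24) (.e (nat_lit 516150) (nat_lit 9) (.e (nat_lit 426323) (nat_lit 13) (.e (nat_lit 483366) (nat_lit 18) (.e (nat_lit 57686) (nat_lit 156) (.e (nat_lit 163936) (nat_lit 18) .nil)))))) (.g (nat_lit 1) (.e (nat_lit 350847) (nat_lit 0) .nil) .nil))) 
(.lf (nat_lit 570972) (.g (nat_lit 2799) (.e (nat_lit 475179) (nat_lit 24) (.e (nat_lit 516174) (nat_lit 14) (.e (nat_lit 466954) (nat_lit 11) (.e (nat_lit 335986) (nat_lit 1) (.e (nat_lit 57660) (nat_lit 152) (.e (nat_lit 2404) (nat_lit 157) (.e (nat_lit 3062) (nat_lit 190) .nil))))))) (.g (nat_lit 1) (.e (nat_lit 351738) (nat_lit 0) .nil) .nil)))) (.nd (nat_lit 9) 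
(.lf (nat_lit 570716) (.g (nat_lit 400) (.e (nat_lit 475179) (nat_lit 24) (.e (nat_lit 516117) (nat_lit 1) (.e (nat_lit 164305) (nat_lit 226) .nil))) (.g (nat_lit 0) (.e (nat_lit 351242) (nat_lit 0) .nil) .nil))) 
(.lf (nat_lit 571228) (.g (nat_lit 296) (.e (nat_lit 475184) (nat_lit 29) (.e (nat_lit 557109) (nat_lit 15) (.e (nat_lit 196352) (nat_lit 0) .nil))) (.g (nat_lit 0) (.e (nat_lit 352034) (nat_lit 0) .nil) .nil))))) (.nd (nat_lit 8) (.nd (nat_lit 9) 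
(.lf (nat_lit 570588) (.g (nat_lit 2805) (.e (nat_lit 475177) (nat_lit 24) (.e (nat_lit 516181) (nat_lit 15) (.e (nat_lit 475177) (nat_lit 24) (.e (nat_lit 516147) (nat_lit 9) (.e (nat_lit 426436) (nat_lit 18) (.e (nat_lit 98384) (nat_lit 32) .nil)))))) (.g (nat_lit 1) (.e (nat_lit 351036) (nat_lit 0) .nil) .nil))) 
(.lf (nat_lit 571100) (.g (nat_lit 3297) (.e (nat_lit 475183) (nat_lit 29) (.e (nat_lit 557107) (nat_lit 15) (.e (nat_lit 188452) (nat_lit 23) (.e (nat_lit 204884) (nat_lit 33) (.e (nat_lit 401453) (nat_lit 12) .nil))))) (.g (nat_lit 0) (.e (nat_lit 351891) (nat_lit 0) .nil) .nil)))) (.nd (nat_lit 9) 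
(.lf (nat_lit 570844) (.g (nat_lit 4433) (.e (nat_lit 475179) (nat_lit 24) (.e (nat_lit 516120) (nat_lit 1) (.e (nat_lit 164330) (nat_lit 230) (.e (nat_lit 163902) (nat_lit 12) (.e (nat_lit 426568) (nat_lit 34) (.e (nat_lit 393294) (nat_lit 26) .nil)))))) (.g (nat_lit 1) (.e (nat_lit 351412) (nat_lit 0) .nil) .nil))) 
(.lf (nat_lit 571356) (.g (nat_lit 1940) (.e (nat_lit 475185) (nat_lit 29) (.e (nat_lit 557100) (nat_lit 13) (.e (nat_lit 172106) (nat_lit 10) (.e (nat_lit 434231) (nat_lit 23) (.e (nat_lit 532486) (nat_lit 0) .nil))))) (.g (nat_lit 0) (.e (nat_lit 352174) (nat_lit 0) .nil) .nil))))))) (.nd (nat_lit 6) (.nd (nat_lit 7) (.nd (nat_lit 8) (.nd (nat_lit 9) 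
(.lf (nat_lit 570428) (.g (nat_lit 420) (.e (nat_lit 475177) (nat_lit 24) (.e (nat_lit 516150) (nat_lit 9) (.e (nat_lit 426131) (nat_lit 3) .nil))) (.g (nat_lit 0) (.e (nat_lit 350803) (nat_lit 0) .nil) .nil))) 
(.lf (nat_lit 570940) (.g (nat_lit 3246) (.e (nat_lit 475179) (nat_lit 24) (.e (nat_lit 516146) (nat_lit 9) (.e (nat_lit 426438) (nat_lit 18) (.e (nat_lit 98386) (nat_lit 32) (.e (nat_lit 475177) (nat_lit 24) (.e (nat_lit 516181) (nat_lit 15) .nil)))))) (.g (nat_lit 1) (.e (nat_lit 351540) (nat_lit 0) .nil) .nil)))) (.nd (nat_lit 9) 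
(.lf (nat_lit 570684) (.g (nat_lit 2288) (.e (nat_lit 475179) (nat_lit 24) (.e (nat_lit 516115) (nat_lit 1) (.e (nat_lit 164325) (nat_lit 230) (.e (nat_lit 163907) (nat_lit 12) (.e (nat_lit 426509) (nat_lit 27) .nil))))) (.g (nat_lit 0) (.e (nat_lit 351178) (nat_lit 0) .nil) .nil))) 
(.lf (nat_lit 571196) (.g (nat_lit 3579) (.e (nat_lit 475184) (nat_lit 29) (.e (nat_lit 557101) (nat_lit 13) (.e (nat_lit 172115) (nat_lit 10) (.e (nat_lit 434231) (nat_lit 23) (.e (nat_lit 532490) (nat_lit 0) (.e (nat_lit 6680) (nat_lit 357) (.e (nat_lit 3066) (nat_lit 190) .nil))))))) (.g (nat_lit 1) (.e (nat_lit 351997) (nat_lit 0) .nil) .nil))))) (.nd (nat_lit 8) (.nd (nat_lit 9) 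
(.lf (nat_lit 570556) (.g (nat_lit 3315) (.e (nat_lit 475177) (nat_lit 24) (.e (nat_lit 516176) (nat_lit 14) (.e (nat_lit 466954) (nat_lit 11) (.e (nat_lit 335995) (nat_lit 1) (.e (nat_lit 57691) (nat_lit 156) (.e (nat_lit 163939) (nat_lit 18) .nil)))))) (.g (nat_lit 1) (.e (nat_lit 350988) (nat_lit 0) .nil) .nil))) 
(.lf (nat_lit 571068) (.g (nat_lit 2772) (.e (nat_lit 475183) (nat_lit 29) (.e (nat_lit 557098) (nat_lit 13) (.e (nat_lit 172115) (nat_lit 10) (.e (nat_lit 434244) (nat_lit 28) (.e (nat_lit 573452) (nat_lit 9) (.e (nat_lit 430) (nat_lit 32) (.e (nat_lit 426308) (nat_lit 12) .nil))))))) (.g (nat_lit 1) (.e (nat_lit 351857) (nat_lit 0) .nil) .nil)))) (.nd (nat_lit 9) 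
(.lf (nat_lit 570812) (.g (nat_lit 2378) (.e (nat_lit 475179) (nat_lit 24) (.e (nat_lit 516120) (nat_lit 1) (.e (nat_lit 164322) (nat_lit 230) (.e (nat_lit 163902) (nat_lit 12) (.e (nat_lit 426568) (nat_lit 34) .nil))))) (.g (nat_lit 0) (.e (nat_lit 351379) (nat_lit 0) .nil) .nil))) 
(.lf (nat_lit 571324) (.g (nat_lit 970) (.e (nat_lit 475185) (nat_lit 29) (.e (nat_lit 557098) (nat_lit 13) (.e (nat_lit 172124) (nat_lit 14) (.e (nat_lit 491537) (nat_lit 2) .nil)))) (.g (nat_lit 0) (.e (nat_lit 352141) (nat_lit 0) .nil) .nil)))))) (.nd (nat_lit 7) (.nd (nat_lit 8) (.nd (nat_lit 9) 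
(.lf (nat_lit 570492) (.g (nat_lit 2686) (.e (nat_lit 475177) (nat_lit 24) (.e (nat_lit 516174) (nat_lit 14) (.e (nat_lit 466954) (nat_lit 11) (.e (nat_lit 335986) (nat_lit 1) (.e (nat_lit 57665) (nat_lit 152) .nil))))) (.g (nat_lit 0) (.e (nat_lit 350906) (nat_lit 0) .nil) .nil))) 
(.lf (nat_lit 571004) (.g (nat_lit 2149) (.e (nat_lit 475179) (nat_lit 24) (.e (nat_lit 516176) (nat_lit 14) (.e (nat_lit 466954) (nat_lit 11) (.e (nat_lit 335986) (nat_lit 1) (.e (nat_lit 57660) (nat_lit 152) .nil))))) (.g (nat_lit 0) (.e (nat_lit 351776) (nat_lit 0) .nil) .nil)))) (.nd (nat_lit 9) 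
(.lf (nat_lit 570748) (.g (nat_lit 2520) (.e (nat_lit 475179) (nat_lit 24) (.e (nat_lit 516117) (nat_lit 1) (.e (nat_lit 164332) (nat_lit 230) (.e (nat_lit 163905) (nat_lit 12) (.e (nat_lit 426489) (nat_lit 27) (.e (nat_lit 336406) (nat_lit 27) (.e (nat_lit 426313) (nat_lit 12) .nil))))))) (.g (nat_lit 1) (.e (nat_lit 351282) (nat_lit 0) .nil) .nil))) 
(.lf (nat_lit 571260) (.g (nat_lit 4105) (.e (nat_lit 475184) (nat_lit 29) (.e (nat_lit 557109) (nat_lit 15) (.e (nat_lit 188452) (nat_lit 23) (.e (nat_lit 204816) (nat_lit 17) (.e (nat_lit 6642) (nat_lit 357) .nil))))) (.g (nat_lit 0) (.e (nat_lit 352066) (nat_lit 0) .nil) .nil))))) (.nd (nat_lit 8) (.nd (nat_lit 9) 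
(.lf (nat_lit 570620) (.g (nat_lit 3460) (.e (nat_lit 475178) (nat_lit 24) (.e (nat_lit 516117) (nat_lit 1) (.e (nat_lit 164329) (nat_lit 230) (.e (nat_lit 163941) (nat_lit 19) (.e (nat_lit 483341) (nat_lit 9) (.e (nat_lit 426315) (nat_lit 12) .nil)))))) (.g (nat_lit 1) (.e (nat_lit 351082) (nat_lit 0) .nil) .nil))) 
(.lf (nat_lit 571132) (.g (nat_lit 3581) (.e (nat_lit 475183) (nat_lit 29) (.e (nat_lit 557109) (nat_lit 15) (.e (nat_lit 188450) (nat_lit 23) (.e (nat_lit 204884) (nat_lit 33) (.e (nat_lit 401454) (nat_lit 12) .nil))))) (.g (nat_lit 0) (.e (nat_lit 351923) (nat_lit 0) .nil) .nil)))) (.nd (nat_lit 9) 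
(.lf (nat_lit 570876) (.g (nat_lit 924) (.e (nat_lit 475179) (nat_lit 24) (.e (nat_lit 516120) (nat_lit 1) (.e (nat_lit 164331) (nat_lit 230) (.e (nat_lit 163902) (nat_lit 12) .nil)))) (.g (nat_lit 0) (.e (nat_lit 351455) (nat_lit 0) .nil) .nil))) 
(.lf (nat_lit 571388) (.g (nat_lit 2921) (.e (nat_lit 475185) (nat_lit 29) (.e (nat_lit 557100) (nat_lit 13) (.e (nat_lit 172113) (nat_lit 10) (.e (nat_lit 434245) (nat_lit 28) (.e (nat_lit 573458) (nat_lit 9) (.e (nat_lit 7936) (nat_lit 32) (.e (nat_lit 426310) (nat_lit 12) .nil))))))) (.g (nat_lit 1) (.e (nat_lit 352206) (nat_lit 0) .nil) .nil))))))))))) 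
(.nd (nat_lit 2) (.nd (nat_lit 3) (.nd (nat_lit 4) (.nd (nat_lit 5) (.nd (nat_lit 6) 
(.nd (nat_lit 7) (.nd (nat_lit 8) (.nd (nat_lit 9) 
(.lf (nat_lit 570370) (.g (nat_lit 1651) (.e (nat_lit 475177) (nat_lit 24) (.e (nat_lit 516125) (nat_lit 2) (.e (nat_lit 213030) (nat_lit 11) (.e (nat_lit 24608) (nat_lit 3) (.e (nat_lit 98363) (nat_lit 26) (.e (nat_lit 426318) (nat_lit 12) .nil)))))) (.g (nat_lit 1) (.e (nat_lit 350732) (nat_lit 0) .nil) .nil))) 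
(.lf (nat_lit 570882) (.g (nat_lit 1293) (.e (nat_lit 475179) (nat_lit 24) (.e (nat_lit 516120) (nat_lit 1) (.e (nat_lit 164332) (nat_lit 230) (.e (nat_lit 163902) (nat_lit 12) (.e (nat_lit 426479) (nat_lit 27) .nil))))) (.g (nat_lit 0) (.e (nat_lit 351464) (nat_lit 0) .nil) .nil)))) (.nd (nat_lit 9) 
(.lf (nat_lit 570626) (.g (nat_lit 1851) (.e (nat_lit 475178) (nat_lit 24) (.e (nat_lit 516120) (nat_lit 1) (.e (nat_lit 164329) (nat_lit 230) (.e (nat_lit 163902) (nat_lit 12) (.e (nat_lit 426484) (nat_lit 27) .nil))))) (.g (nat_lit 0) (.e (nat_lit 351095) (nat_lit 0) .nil) .nil))) 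
(.lf (nat_lit 571138) (.g (nat_lit 2692) (.e (nat_lit 475183) (nat_lit 29) (.e (nat_lit 557109) (nat_lit 15) (.e (nat_lit 188452) (nat_lit 23) (.e (nat_lit 204885) (nat_lit 33) .nil)))) (.g (nat_lit 0) (.e (nat_lit 351929) (nat_lit 0) .nil) .nil))))) (.nd (nat_lit 8) (.nd (nat_lit 9) 
(.lf (nat_lit 570498) (.g (nat_lit 2500) (.e (nat_lit 475177) (nat_lit 24) (.e (nat_lit 516174) (nat_lit 14) (.e (nat_lit 466954) (nat_lit 11) (.e (nat_lit 335987) (nat_lit 1) (.e (nat_lit 57692) (nat_lit 156) (.e (nat_lit 163938) (nat_lit 18) .nil)))))) (.g (nat_lit 1) (.e (nat_lit 350912) (nat_lit 0) .nil) .nil))) 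
(.lf (nat_lit 571010) (.g (nat_lit 1863) (.e (nat_lit 475179) (nat_lit 24) (.e (nat_lit 516176) (nat_lit 14) (.e (nat_lit 466954) (nat_lit 11) (.e (nat_lit 335988) (nat_lit 1) (.e (nat_lit 57665) (nat_lit 152) .nil))))) (.g (nat_lit 0) (.e (nat_lit 351787) (nat_lit 0) .nil) .nil)))) (.nd (nat_lit 9) 
(.lf (nat_lit 570754) (.g (nat_lit 2920) (.e (nat_lit 475179) (nat_lit 24) (.e (nat_lit 516117) (nat_lit 1) (.e (nat_lit 164332) (nat_lit 230) (.e (nat_lit 163941) (nat_lit 19) (.e (nat_lit 483333) (nat_lit 0) (.e (nat_lit 7335) (nat_lit 388) (.e (nat_lit 3067) (nat_lit 190) .nil))))))) (.g (nat_lit 1) (.e (nat_lit 351288) (nat_lit 0) .nil) .nil))) 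
(.lf (nat_lit 571266) (.g (nat_lit 3260) (.e (nat_lit 475184) (nat_lit 29) (.e (nat_lit 557109) (nat_lit 15) (.e (nat_lit 188452) (nat_lit 23) (.e (nat_lit 204821) (nat_lit 17) (.e (nat_lit 6680) (nat_lit 357) (.e (nat_lit 3064) (nat_lit 190) .nil)))))) (.g (nat_lit 1) (.e (nat_lit 352072) (nat_lit 0) .nil) .nil)))))) (.nd (nat_lit 7) (.nd (nat_lit 8) (.nd (nat_lit 9) 
(.lf (nat_lit 570434) (.g (nat_lit 3359) (.e (nat_lit 475177) (nat_lit 24) (.e (nat_lit 516150) (nat_lit 9) (.e (nat_lit 426131) (nat_lit 3) (.e (nat_lit 204837) (nat_lit 20) (.e (nat_lit 122624) (nat_lit 3) (.e (nat_lit 212736) (nat_lit 15) .nil)))))) (.g (nat_lit 1) (.e (nat_lit 350812) (nat_lit 0) .nil) .nil))) 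
(.lf (nat_lit 570946) (.g (nat_lit 3285) (.e (nat_lit 475179) (nat_lit 24) (.e (nat_lit 516150) (nat_lit 9) (.e (nat_lit 426323) (nat_lit 13) (.e (nat_lit 483363) (nat_lit 18) (.e (nat_lit 57688) (nat_lit 156) (.e (nat_lit 163936) (nat_lit 18) .nil)))))) (.g (nat_lit 1) (.e (nat_lit 351566) (nat_lit 0) .nil) .nil)))) (.nd (nat_lit 9) 
(.lf (nat_lit 570690) (.g (nat_lit 2364) (.e (nat_lit 475179) (nat_lit 24) (.e (nat_lit 516115) (nat_lit 1) (.e (nat_lit 164325) (nat_lit 230) (.e (nat_lit 163937) (nat_lit 18) .nil)))) (.g (nat_lit 0) (.e (nat_lit 351185) (nat_lit 0) .nil) .nil))) 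
(.lf (nat_lit 571202) (.g (nat_lit 377) (.e (nat_lit 475184) (nat_lit 29) (.e (nat_lit 557107) (nat_lit 15) (.e (nat_lit 196352) (nat_lit 20) .nil))) (.g (nat_lit 0) (.e (nat_lit 352008) (nat_lit 0) .nil) .nil))))) (.nd (nat_lit 8) (.nd (nat_lit 9) 
(.lf (nat_lit 570562) (.g (nat_lit 825) (.e (nat_lit 475177) (nat_lit 24) (.e (nat_lit 516176) (nat_lit 14) (.e (nat_lit 466970) (nat_lit 21) .nil))) (.g (nat_lit 0) (.e (nat_lit 350998) (nat_lit 0) .nil) .nil))) 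
(.lf (nat_lit 571074) (.g (nat_lit 520) (.e (nat_lit 475183) (nat_lit 29) (.e (nat_lit 557100) (nat_lit 13) (.e (nat_lit 172113) (nat_lit 10) .nil))) (.g (nat_lit 0) (.e (nat_lit 351863) (nat_lit 0) .nil) .nil)))) (.nd (nat_lit 9) 
(.lf (nat_lit 570818) (.g (nat_lit 366) (.e (nat_lit 475179) (nat_lit 24) (.e (nat_lit 516120) (nat_lit 1) (.e (nat_lit 164330) (nat_lit 230) .nil))) (.g (nat_lit 0) (.e (nat_lit 351386) (nat_lit 0) .nil) .nil))) 
(.lf (nat_lit 571330) (.g (nat_lit 449) (.e (nat_lit 475185) (nat_lit 29) (.e (nat_lit 557100) (nat_lit 13) (.e (nat_lit 172105) (nat_lit 10) .nil))) (.g (nat_lit 0) (.e (nat_lit 352148) (nat_lit 0) .nil) .nil))))))) (.nd (nat_lit 6) (.nd (nat_lit 7) (.nd (nat_lit 8) (.nd (nat_lit 9) 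
(.lf (nat_lit 570402) (.g (nat_lit 2524) (.e (nat_lit 475177) (nat_lit 24) (.e (nat_lit 516146) (nat_lit 9) (.e (nat_lit 426438) (nat_lit 18) (.e (nat_lit 98358) (nat_lit 26) (.e (nat_lit 426416) (nat_lit 15) .nil))))) (.g (nat_lit 0) (.e (nat_lit 350771) (nat_lit 0) .nil) .nil))) 
(.lf (nat_lit 570914) (.g (nat_lit 2439) (.e (nat_lit 475179) (nat_lit 24) (.e (nat_lit 516145) (nat_lit 9) (.e (nat_lit 426438) (nat_lit 18) (.e (nat_lit 98358) (nat_lit 26) (.e (nat_lit 433920) (nat_lit 18) .nil))))) (.g (nat_lit 0) (.e (nat_lit 351511) (nat_lit 0) .nil) .nil)))) (.nd (nat_lit 9) 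
(.lf (nat_lit 570658) (.g (nat_lit 1607) (.e (nat_lit 475179) (nat_lit 24) (.e (nat_lit 516115) (nat_lit 1) (.e (nat_lit 164325) (nat_lit 230) (.e (nat_lit 163875) (nat_lit 3) .nil)))) (.g (nat_lit 0) (.e (nat_lit 351150) (nat_lit 0) .nil) .nil))) 
(.lf (nat_lit 571170) (.g (nat_lit 2911) (.e (nat_lit 475184) (nat_lit 29) (.e (nat_lit 557098) (nat_lit 13) (.e (nat_lit 172126) (nat_lit 14) (.e (nat_lit 491537) (nat_lit 2) (.e (nat_lit 90133) (nat_lit 9) .nil))))) (.g (nat_lit 0) (.e (nat_lit 351971) (nat_lit 0) .nil) .nil))))) (.nd (nat_lit 8) (.nd (nat_lit 9) 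
(.lf (nat_lit 570530) (.g (nat_lit 1975) (.e (nat_lit 475177) (nat_lit 24) (.e (nat_lit 516176) (nat_lit 14) (.e (nat_lit 466954) (nat_lit 11) (.e (nat_lit 335986) (nat_lit 1) (.e (nat_lit 57657) (nat_lit 152) .nil))))) (.g (nat_lit 0) (.e (nat_lit 350955) (nat_lit 0) .nil) .nil))) 
(.lf (nat_lit 571042) (.g (nat_lit 3006) (.e (nat_lit 475179) (nat_lit 24) (.e (nat_lit 516179) (nat_lit 15) (.e (nat_lit 475179) (nat_lit 24) (.e (nat_lit 516179) (nat_lit 15) (.e (nat_lit 475179) (nat_lit 24) (.e (nat_lit 516182) (nat_lit 15) .nil)))))) (.g (nat_lit 1) (.e (nat_lit 351825) (nat_lit 0) .nil) .nil)))) (.nd (nat_lit 9) 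
(.lf (nat_lit 570786) (.g (nat_lit 1869) (.e (nat_lit 475179) (nat_lit 24) (.e (nat_lit 516119) (nat_lit 1) (.e (nat_lit 164326) (nat_lit 230) (.e (nat_lit 163903) (nat_lit 12) (.e (nat_lit 426568) (nat_lit 34) (.e (nat_lit 401152) (nat_lit 26) .nil)))))) (.g (nat_lit 1) (.e (nat_lit 351344) (nat_lit 0) .nil) .nil))) 
(.lf (nat_lit 571298) (.g (nat_lit 1129) (.e (nat_lit 475185) (nat_lit 29) (.e (nat_lit 557098) (nat_lit 13) (.e (nat_lit 172093) (nat_lit 9) .nil))) (.g (nat_lit 0) (.e (nat_lit 352115) (nat_lit 0) .nil) .nil)))))) (.nd (nat_lit 7) (.nd (nat_lit 8) (.nd (nat_lit 9) 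
(.lf (nat_lit 570466) (.g (nat_lit 327) (.e (nat_lit 475177) (nat_lit 24) (.e (nat_lit 516150) (nat_lit 9) (.e (nat_lit 426428) (nat_lit 17) .nil))) (.g (nat_lit 0) (.e (nat_lit 350854) (nat_lit 0) .nil) .nil))) 
(.lf (nat_lit 570978) (.g (nat_lit 2141) (.e (nat_lit 475179) (nat_lit 24) (.e (nat_lit 516174) (nat_lit 14) (.e (nat_lit 466954) (nat_lit 11) (.e (nat_lit 335988) (nat_lit 1) (.e (nat_lit 57690) (nat_lit 156) .nil))))) (.g (nat_lit 0) (.e (nat_lit 351748) (nat_lit 0) .nil) .nil)))) (.nd (nat_lit 9) 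
(.lf (nat_lit 570722) (.g (nat_lit 1317) (.e (nat_lit 475179) (nat_lit 24) (.e (nat_lit 516117) (nat_lit 1) (.e (nat_lit 164329) (nat_lit 230) (.e (nat_lit 163902) (nat_lit 12) (.e (nat_lit 426479) (nat_lit 27) .nil))))) (.g (nat_lit 0) (.e (nat_lit 351252) (nat_lit 0) .nil) .nil))) 
(.lf (nat_lit 571234) (.g (nat_lit 2413) (.e (nat_lit 475184) (nat_lit 29) (.e (nat_lit 557109) (nat_lit 15) (.e (nat_lit 188441) (nat_lit 20) (.e (nat_lit 3272) (nat_lit 199) (.e (nat_lit 548913) (nat_lit 18) .nil))))) (.g (nat_lit 0) (.e (nat_lit 352040) (nat_lit 0) .nil) .nil))))) (.nd (nat_lit 8) (.nd (nat_lit 9) 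
(.lf (nat_lit 570594) (.g (nat_lit 2350) (.e (nat_lit 475177) (nat_lit 24) (.e (nat_lit 516181) (nat_lit 15) (.e (nat_lit 475178) (nat_lit 24) (.e (nat_lit 516179) (nat_lit 15) (.e (nat_lit 475177) (nat_lit 24) (.e (nat_lit 516180) (nat_lit 15) .nil)))))) (.g (nat_lit 1) (.e (nat_lit 351045) (nat_lit 0) .nil) .nil))) 
(.lf (nat_lit 571106) (.g (nat_lit 3904) (.e (nat_lit 475183) (nat_lit 29) (.e (nat_lit 557108) (nat_lit 15) (.e (nat_lit 188449) (nat_lit 22) (.e (nat_lit 196624) (nat_lit 9) (.e (nat_lit 1677) (nat_lit 116) .nil))))) (.g (nat_lit 0) (.e (nat_lit 351897) (nat_lit 0) .nil) .nil)))) (.nd (nat_lit 9) 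
(.lf (nat_lit 570850) (.g (nat_lit 2398) (.e (nat_lit 475179) (nat_lit 24) (.e (nat_lit 516120) (nat_lit 1) (.e (nat_lit 164330) (nat_lit 230) (.e (nat_lit 163905) (nat_lit 12) (.e (nat_lit 426491) (nat_lit 27) .nil))))) (.g (nat_lit 0) (.e (nat_lit 351418) (nat_lit 0) .nil) .nil))) 
(.lf (nat_lit 571362) (.g (nat_lit 3342) (.e (nat_lit 475185) (nat_lit 29) (.e (nat_lit 557100) (nat_lit 13) (.e (nat_lit 172106) (nat_lit 10) (.e (nat_lit 434231) (nat_lit 23) (.e (nat_lit 532490) (nat_lit 0) (.e (nat_lit 7936) (nat_lit 357) (.e (nat_lit 3072) (nat_lit 190) .nil))))))) (.g (nat_lit 1) (.e (nat_lit 352180) (nat_lit 0) .nil) .nil)))))))) 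
(.nd (nat_lit 5) (.nd (nat_lit 6) (.nd (nat_lit 7) (.nd (nat_lit 8) (.nd (nat_lit 9) 
(.lf (nat_lit 570386) (.g (nat_lit 1797) (.e (nat_lit 475177) (nat_lit 24) (.e (nat_lit 516145) (nat_lit 9) (.e (nat_lit 426428) (nat_lit 17) (.e (nat_lit 90133) (nat_lit 9) .nil)))) (.g (nat_lit 0) (.e (nat_lit 350752) (nat_lit 0) .nil) .nil))) 
(.lf (nat_lit 570898) (.g (nat_lit 2417) (.e (nat_lit 475179) (nat_lit 24) (.e (nat_lit 516120) (nat_lit 1) (.e (nat_lit 164332) (nat_lit 230) (.e (nat_lit 163905) (nat_lit 12) (.e (nat_lit 426489) (nat_lit 27) (.e (nat_lit 336407) (nat_lit 27) (.e (nat_lit 426313) (nat_lit 12) .nil))))))) (.g (nat_lit 1) (.e (nat_lit 351480) (nat_lit 0) .nil) .nil)))) (.nd (nat_lit 9) 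
(.lf (nat_lit 570642) (.g (nat_lit 2324) (.e (nat_lit 475178) (nat_lit 24) (.e (nat_lit 516176) (nat_lit 14) (.e (nat_lit 466954) (nat_lit 11) (.e (nat_lit 335986) (nat_lit 1) (.e (nat_lit 57655) (nat_lit 152) .nil))))) (.g (nat_lit 0) (.e (nat_lit 351130) (nat_lit 0) .nil) .nil))) 
(.lf (nat_lit 571154) (.g (nat_lit 2767) (.e (nat_lit 475184) (nat_lit 29) (.e (nat_lit 557098) (nat_lit 13) (.e (nat_lit 172105) (nat_lit 10) (.e (nat_lit 434247) (nat_lit 28) (.e (nat_lit 573469) (nat_lit 11) (.e (nat_lit 16461) (nat_lit 12) .nil)))))) (.g (nat_lit 1) (.e (nat_lit 351955) (nat_lit 0) .nil) .nil))))) (.nd (nat_lit 8) (.nd (nat_lit 9) 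
(.lf (nat_lit 570514) (.g (nat_lit 2229) (.e (nat_lit 475177) (nat_lit 24) (.e (nat_lit 516174) (nat_lit 14) (.e (nat_lit 466954) (nat_lit 11) (.e (nat_lit 335995) (nat_lit 1) (.e (nat_lit 57686) (nat_lit 156) (.e (nat_lit 163939) (nat_lit 18) .nil)))))) (.g (nat_lit 1) (.e (nat_lit 350934) (nat_lit 0) .nil) .nil))) 
(.lf (nat_lit 571026) (.g (nat_lit 2327) (.e (nat_lit 475179) (nat_lit 24) (.e (nat_lit 516176) (nat_lit 14) (.e (nat_lit 466972) (nat_lit 21) (.e (nat_lit 164183) (nat_lit 154) (.e (nat_lit 65280) (nat_lit 62) (.e (nat_lit 164325) (nat_lit 230) (.e (nat_lit 163939) (nat_lit 18) .nil))))))) (.g (nat_lit 1) (.e (nat_lit 351808) (nat_lit 0) .nil) .nil)))) (.nd (nat_lit 9) 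
(.lf (nat_lit 570770) (.g (nat_lit 2733) (.e (nat_lit 475179) (nat_lit 24) (.e (nat_lit 516119) (nat_lit 1) (.e (nat_lit 164325) (nat_lit 230) (.e (nat_lit 163903) (nat_lit 12) (.e (nat_lit 426567) (nat_lit 34) (.e (nat_lit 393293) (nat_lit 26) .nil)))))) (.g (nat_lit 1) (.e (nat_lit 351315) (nat_lit 0) .nil) .nil))) 
(.lf (nat_lit 571282) (.g (nat_lit 2598) (.e (nat_lit 475185) (nat_lit 29) (.e (nat_lit 557095) (nat_lit 13) (.e (nat_lit 172126) (nat_lit 14) (.e (nat_lit 491537) (nat_lit 2) (.e (nat_lit 90185) (nat_lit 17) (.e (nat_lit 237616) (nat_lit 12) .nil)))))) (.g (nat_lit 1) (.e (nat_lit 352099) (nat_lit 0) .nil) .nil)))))) (.nd (nat_lit 7) (.nd (nat_lit 8) (.nd (nat_lit 9) 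
(.lf (nat_lit 570450) (.g (nat_lit 2395) (.e (nat_lit 475177) (nat_lit 24) (.e (nat_lit 516150) (nat_lit 9) (.e (nat_lit 426323) (nat_lit 13) (.e (nat_lit 483364) (nat_lit 18) (.e (nat_lit 57690) (nat_lit 156) (.e (nat_lit 163939) (nat_lit 18) .nil)))))) (.g (nat_lit 1) (.e (nat_lit 350836) (nat_lit 0) .nil) .nil))) 
(.lf (nat_lit 570962) (.g (nat_lit 3560) (.e (nat_lit 475179) (nat_lit 24) (.e (nat_lit 516166) (nat_lit 12) (.e (nat_lit 450562) (nat_lit 0) (.e (nat_lit 6072) (nat_lit 330) .nil)))) (.g (nat_lit 0) (.e (nat_lit 351686) (nat_lit 0) .nil) .nil)))) (.nd (nat_lit 9) 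
(.lf (nat_lit 570706) (.g (nat_lit 2040) (.e (nat_lit 475179) (nat_lit 24) (.e (nat_lit 516115) (nat_lit 1) (.e (nat_lit 164331) (nat_lit 230) (.e (nat_lit 163902) (nat_lit 12) (.e (nat_lit 426566) (nat_lit 34) .nil))))) (.g (nat_lit 0) (.e (nat_lit 351224) (nat_lit 0) .nil) .nil))) 
(.lf (nat_lit 571218) (.g (nat_lit 1853) (.e (nat_lit 475184) (nat_lit 29) (.e (nat_lit 557107) (nat_lit 15) (.e (nat_lit 188452) (nat_lit 23) (.e (nat_lit 204883) (nat_lit 33) (.e (nat_lit 401453) (nat_lit 12) .nil))))) (.g (nat_lit 0) (.e (nat_lit 352024) (nat_lit 0) .nil) .nil))))) (.nd (nat_lit 8) (.nd (nat_lit 9) 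
(.lf (nat_lit 570578) (.g (nat_lit 2554) (.e (nat_lit 475177) (nat_lit 24) (.e (nat_lit 516179) (nat_lit 15) (.e (nat_lit 475179) (nat_lit 24) (.e (nat_lit 516146) (nat_lit 9) (.e (nat_lit 433920) (nat_lit 18) .nil))))) (.g (nat_lit 0) (.e (nat_lit 351018) (nat_lit 0) .nil) .nil))) 
(.lf (nat_lit 571090) (.g (nat_lit 659) (.e (nat_lit 475183) (nat_lit 29) (.e (nat_lit 557107) (nat_lit 15) (.e (nat_lit 188440) (nat_lit 20) .nil))) (.g (nat_lit 0) (.e (nat_lit 351881) (nat_lit 0) .nil) .nil)))) (.nd (nat_lit 9) 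
(.lf (nat_lit 570834) (.g (nat_lit 2879) (.e (nat_lit 475179) (nat_lit 24) (.e (nat_lit 516120) (nat_lit 1) (.e (nat_lit 164330) (nat_lit 230) (.e (nat_lit 163902) (nat_lit 12) (.e (nat_lit 426502) (nat_lit 27) .nil))))) (.g (nat_lit 0) (.e (nat_lit 351402) (nat_lit 0) .nil) .nil))) 
(.lf (nat_lit 571346) (.g (nat_lit 1793) (.e (nat_lit 475185) (nat_lit 29) (.e (nat_lit 557100) (nat_lit 13) (.e (nat_lit 172106) (nat_lit 10) (.e (nat_lit 434231) (nat_lit 23) (.e (nat_lit 532483) (nat_lit 0) .nil))))) (.g (nat_lit 0) (.e (nat_lit 352164) (nat_lit 0) .nil) .nil))))))) (.nd (nat_lit 6) (.nd (nat_lit 7) (.nd (nat_lit 8) (.nd (nat_lit 9) 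
(.lf (nat_lit 570418) (.g (nat_lit 2286) (.e (nat_lit 475177) (nat_lit 24) (.e (nat_lit 516149) (nat_lit 9) (.e (nat_lit 426323) (nat_lit 13) (.e (nat_lit 483364) (nat_lit 18) (.e (nat_lit 57692) (nat_lit 156) (.e (nat_lit 163939) (nat_lit 18) .nil)))))) (.g (nat_lit 1) (.e (nat_lit 350793) (nat_lit 0) .nil) .nil))) 
(.lf (nat_lit 570930) (.g (nat_lit 2999) (.e (nat_lit 475179) (nat_lit 24) (.e (nat_lit 516146) (nat_lit 9) (.e (nat_lit 426323) (nat_lit 13) (.e (nat_lit 483365) (nat_lit 18) (.e (nat_lit 57692) (nat_lit 156) (.e (nat_lit 163938) (nat_lit 18) .nil)))))) (.g (nat_lit 1) (.e (nat_lit 351530) (nat_lit 0) .nil) .nil)))) (.nd (nat_lit 9) 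
(.lf (nat_lit 570674) (.g (nat_lit 1061) (.e (nat_lit 475179) (nat_lit 24) (.e (nat_lit 516115) (nat_lit 1) (.e (nat_lit 164325) (nat_lit 230) (.e (nat_lit 163907) (nat_lit 12) .nil)))) (.g (nat_lit 0) (.e (nat_lit 351167) (nat_lit 0) .nil) .nil))) 
(.lf (nat_lit 571186) (.g (nat_lit 3142) (.e (nat_lit 475184) (nat_lit 29) (.e (nat_lit 557101) (nat_lit 13) (.e (nat_lit 172097) (nat_lit 9) (.e (nat_lit 426125) (nat_lit 2) (.e (nat_lit 196661) (nat_lit 12) (.e (nat_lit 57751) (nat_lit 201) (.e (nat_lit 3066) (nat_lit 190) .nil))))))) (.g (nat_lit 1) (.e (nat_lit 351987) (nat_lit 0) .nil) .nil))))) (.nd (nat_lit 8) (.nd (nat_lit 9) 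
(.lf (nat_lit 570546) (.g (nat_lit 2482) (.e (nat_lit 475177) (nat_lit 24) (.e (nat_lit 516176) (nat_lit 14) (.e (nat_lit 466954) (nat_lit 11) (.e (nat_lit 335994) (nat_lit 1) (.e (nat_lit 57688) (nat_lit 156) (.e (nat_lit 163937) (nat_lit 18) .nil)))))) (.g (nat_lit 1) (.e (nat_lit 350977) (nat_lit 0) .nil) .nil))) 
(.lf (nat_lit 571058) (.g (nat_lit 2014) (.e (nat_lit 475183) (nat_lit 29) (.e (nat_lit 557098) (nat_lit 13) (.e (nat_lit 172097) (nat_lit 9) (.e (nat_lit 426125) (nat_lit 2) (.e (nat_lit 196661) (nat_lit 12) .nil))))) (.g (nat_lit 0) (.e (nat_lit 351847) (nat_lit 0) .nil) .nil)))) (.nd (nat_lit 9) 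
(.lf (nat_lit 570802) (.g (nat_lit 770) (.e (nat_lit 475179) (nat_lit 24) (.e (nat_lit 516119) (nat_lit 1) (.e (nat_lit 164332) (nat_lit 230) .nil))) (.g (nat_lit 0) (.e (nat_lit 351367) (nat_lit 0) .nil) .nil))) 
(.lf (nat_lit 571314) (.g (nat_lit 732) (.e (nat_lit 475185) (nat_lit 29) (.e (nat_lit 557098) (nat_lit 13) (.e (nat_lit 172111) (nat_lit 10) .nil))) (.g (nat_lit 0) (.e (nat_lit 352131) (nat_lit 0) .nil) .nil)))))) (.nd (nat_lit 7) (.nd (nat_lit 8) (.nd (nat_lit 9) 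
(.lf (nat_lit 570482) (.g (nat_lit 2581) (.e (nat_lit 475177) (nat_lit 24) (.e (nat_lit 516159) (nat_lit 10) (.e (nat_lit 434244) (nat_lit 28) (.e (nat_lit 573474) (nat_lit 12) (.e (nat_lit 65280) (nat_lit 202) .nil))))) (.g (nat_lit 0) (.e (nat_lit 350871) (nat_lit 0) .nil) .nil))) 
(.lf (nat_lit 570994) (.g (nat_lit 678) (.e (nat_lit 475179) (nat_lit 24) (.e (nat_lit 516176) (nat_lit 14) (.e (nat_lit 466952) (nat_lit 11) .nil))) (.g (nat_lit 0) (.e (nat_lit 351764) (nat_lit 0) .nil) .nil)))) (.nd (nat_lit 9) 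
(.lf (nat_lit 570738) (.g (nat_lit 3405) (.e (nat_lit 475179) (nat_lit 24) (.e (nat_lit 516117) (nat_lit 1) (.e (nat_lit 164330) (nat_lit 230) (.e (nat_lit 163941) (nat_lit 19) (.e (nat_lit 483341) (nat_lit 9) (.e (nat_lit 426314) (nat_lit 12) .nil)))))) (.g (nat_lit 1) (.e (nat_lit 351270) (nat_lit 0) .nil) .nil))) 
(.lf (nat_lit 571250) (.g (nat_lit 2221) (.e (nat_lit 475184) (nat_lit 29) (.e (nat_lit 557109) (nat_lit 15) (.e (nat_lit 188450) (nat_lit 23) (.e (nat_lit 204814) (nat_lit 17) .nil)))) (.g (nat_lit 0) (.e (nat_lit 352056) (nat_lit 0) .nil) .nil))))) (.nd (nat_lit 8) (.nd (nat_lit 9) 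
(.lf (nat_lit 570610) (.g (nat_lit 3183) (.e (nat_lit 475178) (nat_lit 24) (.e (nat_lit 516115) (nat_lit 1) (.e (nat_lit 164325) (nat_lit 230) (.e (nat_lit 163939) (nat_lit 18) .nil)))) (.g (nat_lit 0) (.e (nat_lit 351062) (nat_lit 0) .nil) .nil))) 
(.lf (nat_lit 571122) (.g (nat_lit 3222) (.e (nat_lit 475183) (nat_lit 29) (.e (nat_lit 557109) (nat_lit 15) (.e (nat_lit 188447) (nat_lit 22) (.e (nat_lit 196619) (nat_lit 9) .nil)))) (.g (nat_lit 0) (.e (nat_lit 351913) (nat_lit 0) .nil) .nil)))) (.nd (nat_lit 9) 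
(.lf (nat_lit 570866) (.g (nat_lit 3908) (.e (nat_lit 475179) (nat_lit 24) (.e (nat_lit 516120) (nat_lit 1) (.e (nat_lit 164330) (nat_lit 230) (.e (nat_lit 163941) (nat_lit 19) (.e (nat_lit 483333) (nat_lit 0) (.e (nat_lit 7335) (nat_lit 388) (.e (nat_lit 3067) (nat_lit 190) .nil))))))) (.g (nat_lit 1) (.e (nat_lit 351439) (nat_lit 0) .nil) .nil))) 
(.lf (nat_lit 571378) (.g (nat_lit 2424) (.e (nat_lit 475185) (nat_lit 29) (.e (nat_lit 557100) (nat_lit 13) (.e (nat_lit 172106) (nat_lit 10) (.e (nat_lit 434244) (nat_lit 28) (.e (nat_lit 573474) (nat_lit 12) .nil))))) (.g (nat_lit 0) (.e (nat_lit 352196) (nat_lit 0) .nil) .nil))))))))) (.nd (nat_lit 4) (.nd (nat_lit 5) (.nd (nat_lit 6) (.nd (nat_lit 7) (.nd (nat_lit 8) (.nd (nat_lit 9) 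
(.lf (nat_lit 570378) (.g (nat_lit 2704) (.e (nat_lit 475177) (nat_lit 24) (.e (nat_lit 516129) (nat_lit 3) (.e (nat_lit 221193) (nat_lit 11) (.e (nat_lit 336027) (nat_lit 3) (.e (nat_lit 98363) (nat_lit 26) (.e (nat_lit 426318) (nat_lit 12) .nil)))))) (.g (nat_lit 1) (.e (nat_lit 350740) (nat_lit 0) .nil) .nil))) 
(.lf (nat_lit 570890) (.g (nat_lit 2226) (.e (nat_lit 475179) (nat_lit 24) (.e (nat_lit 516120) (nat_lit 1) (.e (nat_lit 164332) (nat_lit 230) (.e (nat_lit 163905) (nat_lit 12) (.e (nat_lit 426487) (nat_lit 27) .nil))))) (.g (nat_lit 0) (.e (nat_lit 351472) (nat_lit 0) .nil) .nil)))) (.nd (nat_lit 9) 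
(.lf (nat_lit 570634) (.g (nat_lit 1554) (.e (nat_lit 475178) (nat_lit 24) (.e (nat_lit 516127) (nat_lit 2) (.e (nat_lit 213032) (nat_lit 11) (.e (nat_lit 24608) (nat_lit 3) (.e (nat_lit 98363) (nat_lit 26) .nil))))) (.g (nat_lit 0) (.e (nat_lit 351110) (nat_lit 0) .nil) .nil))) 
(.lf (nat_lit 571146) (.g (nat_lit 2196) (.e (nat_lit 475184) (nat_lit 29) (.e (nat_lit 557098) (nat_lit 13) (.e (nat_lit 172097) (nat_lit 9) (.e (nat_lit 426125) (nat_lit 2) (.e (nat_lit 196661) (nat_lit 12) (.e (nat_lit 57751) (nat_lit 201) (.e (nat_lit 3065) (nat_lit 190) .nil))))))) (.g (nat_lit 1) (.e (nat_lit 351947) (nat_lit 0) .nil) .nil))))) (.nd (nat_lit 8) (.nd (nat_lit 9) 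
(.lf (nat_lit 570506) (.g (nat_lit 2487) (.e (nat_lit 475177) (nat_lit 24) (.e (nat_lit 516174) (nat_lit 14) (.e (nat_lit 466954) (nat_lit 11) (.e (nat_lit 335993) (nat_lit 1) (.e (nat_lit 57691) (nat_lit 156) (.e (nat_lit 163938) (nat_lit 18) .nil)))))) (.g (nat_lit 1) (.e (nat_lit 350924) (nat_lit 0) .nil) .nil))) 
(.lf (nat_lit 571018) (.g (nat_lit 3139) (.e (nat_lit 475179) (nat_lit 24) (.e (nat_lit 516176) (nat_lit 14) (.e (nat_lit 466954) (nat_lit 11) (.e (nat_lit 335995) (nat_lit 1) (.e (nat_lit 57691) (nat_lit 156) (.e (nat_lit 163939) (nat_lit 18) .nil)))))) (.g (nat_lit 1) (.e (nat_lit 351795) (nat_lit 0) .nil) .nil)))) (.nd (nat_lit 9) 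
(.lf (nat_lit 570762) (.g (nat_lit 2852) (.e (nat_lit 475179) (nat_lit 24) (.e (nat_lit 516119) (nat_lit 1) (.e (nat_lit 164322) (nat_lit 230) (.e (nat_lit 163902) (nat_lit 12) (.e (nat_lit 426568) (nat_lit 34) (.e (nat_lit 393293) (nat_lit 26) .nil)))))) (.g (nat_lit 1) (.e (nat_lit 351299) (nat_lit 0) .nil) .nil))) 
(.lf (nat_lit 571274) (.g (nat_lit 2078) (.e (nat_lit 475184) (nat_lit 29) (.e (nat_lit 557109) (nat_lit 15) (.e (nat_lit 188452) (nat_lit 23) (.e (nat_lit 204883) (nat_lit 33) (.e (nat_lit 401451) (nat_lit 12) .nil))))) (.g (nat_lit 0) (.e (nat_lit 352080) (nat_lit 0) .nil) .nil)))))) (.nd (nat_lit 7) (.nd (nat_lit 8) (.nd (nat_lit 9) 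
(.lf (nat_lit 570442) (.g (nat_lit 2068) (.e (nat_lit 475177) (nat_lit 24) (.e (nat_lit 516150) (nat_lit 9) (.e (nat_lit 426323) (nat_lit 13) (.e (nat_lit 483363) (nat_lit 18) (.e (nat_lit 57687) (nat_lit 156) (.e (nat_lit 163936) (nat_lit 18) .nil)))))) (.g (nat_lit 1) (.e (nat_lit 350827) (nat_lit 0) .nil) .nil))) 
(.lf (nat_lit 570954) (.g (nat_lit 2446) (.e (nat_lit 475179) (nat_lit 24) (.e (nat_lit 516150) (nat_lit 9) (.e (nat_lit 426323) (nat_lit 13) (.e (nat_lit 483366) (nat_lit 18) (.e (nat_lit 57688) (nat_lit 156) (.e (nat_lit 163938) (nat_lit 18) .nil)))))) (.g (nat_lit 1) (.e (nat_lit 351574) (nat_lit 0) .nil) .nil)))) (.nd (nat_lit 9) 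
(.lf (nat_lit 570698) (.g (nat_lit 3030) (.e (nat_lit 475179) (nat_lit 24) (.e (nat_lit 516115) (nat_lit 1) (.e (nat_lit 164327) (nat_lit 230) (.e (nat_lit 163903) (nat_lit 12) (.e (nat_lit 426568) (nat_lit 34) (.e (nat_lit 393291) (nat_lit 26) .nil)))))) (.g (nat_lit 1) (.e (nat_lit 351212) (nat_lit 0) .nil) .nil))) 
(.lf (nat_lit 571210) (.g (nat_lit 1180) (.e (nat_lit 475184) (nat_lit 29) (.e (nat_lit 557107) (nat_lit 15) (.e (nat_lit 188450) (nat_lit 23) (.e (nat_lit 204814) (nat_lit 17) .nil)))) (.g (nat_lit 0) (.e (nat_lit 352016) (nat_lit 0) .nil) .nil))))) (.nd (nat_lit 8) (.nd (nat_lit 9) 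
(.lf (nat_lit 570570) (.g (nat_lit 1824) (.e (nat_lit 475177) (nat_lit 24) (.e (nat_lit 516179) (nat_lit 15) (.e (nat_lit 475177) (nat_lit 24) (.e (nat_lit 516150) (nat_lit 9) (.e (nat_lit 426438) (nat_lit 18) (.e (nat_lit 98383) (nat_lit 32) .nil)))))) (.g (nat_lit 1) (.e (nat_lit 351007) (nat_lit 0) .nil) .nil))) 
(.lf (nat_lit 571082) (.g (nat_lit 2038) (.e (nat_lit 475183) (nat_lit 29) (.e (nat_lit 557100) (nat_lit 13) (.e (nat_lit 172113) (nat_lit 10) (.e (nat_lit 434248) (nat_lit 28) (.e (nat_lit 573452) (nat_lit 9) .nil))))) (.g (nat_lit 0) (.e (nat_lit 351871) (nat_lit 0) .nil) .nil)))) (.nd (nat_lit 9) 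
(.lf (nat_lit 570826) (.g (nat_lit 2884) (.e (nat_lit 475179) (nat_lit 24) (.e (nat_lit 516120) (nat_lit 1) (.e (nat_lit 164330) (nat_lit 230) (.e (nat_lit 163902) (nat_lit 12) (.e (nat_lit 426479) (nat_lit 27) (.e (nat_lit 336367) (nat_lit 27) (.e (nat_lit 426320) (nat_lit 12) .nil))))))) (.g (nat_lit 1) (.e (nat_lit 351394) (nat_lit 0) .nil) .nil))) 
(.lf (nat_lit 571338) (.g (nat_lit 2907) (.e (nat_lit 475185) (nat_lit 29) (.e (nat_lit 557100) (nat_lit 13) (.e (nat_lit 172106) (nat_lit 10) (.e (nat_lit 434227) (nat_lit 20) (.e (nat_lit 507946) (nat_lit 18) (.e (nat_lit 303142) (nat_lit 12) .nil)))))) (.g (nat_lit 1) (.e (nat_lit 352156) (nat_lit 0) .nil) .nil))))))) (.nd (nat_lit 6) (.nd (nat_lit 7) (.nd (nat_lit 8) (.nd (nat_lit 9) 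
(.lf (nat_lit 570410) (.g (nat_lit 2252) (.e (nat_lit 475177) (nat_lit 24) (.e (nat_lit 516149) (nat_lit 9) (.e (nat_lit 426131) (nat_lit 3) (.e (nat_lit 204837) (nat_lit 20) (.e (nat_lit 122624) (nat_lit 3) (.e (nat_lit 212736) (nat_lit 15) .nil)))))) (.g (nat_lit 1) (.e (nat_lit 350784) (nat_lit 0) .nil) .nil))) 
(.lf (nat_lit 570922) (.g (nat_lit 3290) (.e (nat_lit 475179) (nat_lit 24) (.e (nat_lit 516146) (nat_lit 9) (.e (nat_lit 426323) (nat_lit 13) (.e (nat_lit 483363) (nat_lit 18) (.e (nat_lit 57691) (nat_lit 156) (.e (nat_lit 163938) (nat_lit 18) .nil)))))) (.g (nat_lit 1) (.e (nat_lit 351522) (nat_lit 0) .nil) .nil)))) (.nd (nat_lit 9) 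
(.lf (nat_lit 570666) (.g (nat_lit 2304) (.e (nat_lit 475179) (nat_lit 24) (.e (nat_lit 516115) (nat_lit 1) (.e (nat_lit 164325) (nat_lit 230) (.e (nat_lit 163903) (nat_lit 12) (.e (nat_lit 426481) (nat_lit 27) .nil))))) (.g (nat_lit 0) (.e (nat_lit 351158) (nat_lit 0) .nil) .nil))) 
(.lf (nat_lit 571178) (.g (nat_lit 483) (.e (nat_lit 475184) (nat_lit 29) (.e (nat_lit 557100) (nat_lit 13) (.e (nat_lit 172113) (nat_lit 10) .nil))) (.g (nat_lit 0) (.e (nat_lit 351979) (nat_lit 0) .nil) .nil))))) (.nd (nat_lit 8) (.nd (nat_lit 9) 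
(.lf (nat_lit 570538) (.g (nat_lit 2075) (.e (nat_lit 475177) (nat_lit 24) (.e (nat_lit 516176) (nat_lit 14) (.e (nat_lit 466954) (nat_lit 11) (.e (nat_lit 335988) (nat_lit 1) (.e (nat_lit 57665) (nat_lit 152) (.e (nat_lit 2466) (nat_lit 157) (.e (nat_lit 3057) (nat_lit 190) .nil))))))) (.g (nat_lit 1) (.e (nat_lit 350966) (nat_lit 0) .nil) .nil))) 
(.lf (nat_lit 571050) (.g (nat_lit 4439) (.e (nat_lit 475183) (nat_lit 29) (.e (nat_lit 557097) (nat_lit 13) (.e (nat_lit 172097) (nat_lit 9) (.e (nat_lit 426125) (nat_lit 2) (.e (nat_lit 196661) (nat_lit 12) (.e (nat_lit 57750) (nat_lit 201) (.e (nat_lit 3067) (nat_lit 190) .nil))))))) (.g (nat_lit 1) (.e (nat_lit 351839) (nat_lit 0) .nil) .nil)))) (.nd (nat_lit 9) 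
(.lf (nat_lit 570794) (.g (nat_lit 2940) (.e (nat_lit 475179) (nat_lit 24) (.e (nat_lit 516119) (nat_lit 1) (.e (nat_lit 164327) (nat_lit 230) (.e (nat_lit 163903) (nat_lit 12) (.e (nat_lit 426566) (nat_lit 34) (.e (nat_lit 393295) (nat_lit 26) .nil)))))) (.g (nat_lit 1) (.e (nat_lit 351355) (nat_lit 0) .nil) .nil))) 
(.lf (nat_lit 571306) (.g (nat_lit 1636) (.e (nat_lit 475185) (nat_lit 29) (.e (nat_lit 557098) (nat_lit 13) (.e (nat_lit 172097) (nat_lit 9) (.e (nat_lit 426140) (nat_lit 3) (.e (nat_lit 212736) (nat_lit 33) .nil))))) (.g (nat_lit 0) (.e (nat_lit 352123) (nat_lit 0) .nil) .nil)))))) (.nd (nat_lit 7) (.nd (nat_lit 8) (.nd (nat_lit 9) 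
(.lf (nat_lit 570474) (.g (nat_lit 2307) (.e (nat_lit 475177) (nat_lit 24) (.e (nat_lit 516150) (nat_lit 9) (.e (nat_lit 426438) (nat_lit 18) (.e (nat_lit 98358) (nat_lit 26) (.e (nat_lit 426363) (nat_lit 15) .nil))))) (.g (nat_lit 0) (.e (nat_lit 350863) (nat_lit 0) .nil) .nil))) 
(.lf (nat_lit 570986) (.g (nat_lit 2956) (.e (nat_lit 475179) (nat_lit 24) (.e (nat_lit 516174) (nat_lit 14) (.e (nat_lit 466954) (nat_lit 11) (.e (nat_lit 335995) (nat_lit 1) (.e (nat_lit 57688) (nat_lit 156) (.e (nat_lit 163939) (nat_lit 18) .nil)))))) (.g (nat_lit 1) (.e (nat_lit 351756) (nat_lit 0) .nil) .nil)))) (.nd (nat_lit 9) 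
(.lf (nat_lit 570730) (.g (nat_lit 3912) (.e (nat_lit 475179) (nat_lit 24) (.e (nat_lit 516117) (nat_lit 1) (.e (nat_lit 164330) (nat_lit 230) (.e (nat_lit 163902) (nat_lit 12) (.e (nat_lit 426481) (nat_lit 27) (.e (nat_lit 336389) (nat_lit 27) (.e (nat_lit 426308) (nat_lit 12) .nil))))))) (.g (nat_lit 1) (.e (nat_lit 351261) (nat_lit 0) .nil) .nil))) 
(.lf (nat_lit 571242) (.g (nat_lit 5053) (.e (nat_lit 475184) (nat_lit 29) (.e (nat_lit 557109) (nat_lit 15) (.e (nat_lit 188449) (nat_lit 22) (.e (nat_lit 196660) (nat_lit 12) .nil)))) (.g (nat_lit 0) (.e (nat_lit 352048) (nat_lit 0) .nil) .nil))))) (.nd (nat_lit 8) (.nd (nat_lit 9) 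
(.lf (nat_lit 570602) (.g (nat_lit 1522) (.e (nat_lit 475177) (nat_lit 24) (.e (nat_lit 524032) (nat_lit 18) (.e (nat_lit 57931) (nat_lit 282) (.e (nat_lit 163885) (nat_lit 5) (.e (nat_lit 221212) (nat_lit 22) (.e (nat_lit 196654) (nat_lit 11) (.e (nat_lit 16461) (nat_lit 12) .nil))))))) (.g (nat_lit 1) (.e (nat_lit 351054) (nat_lit 0) .nil) .nil))) 
(.lf (nat_lit 571114) (.g (nat_lit 3809) (.e (nat_lit 475183) (nat_lit 29) (.e (nat_lit 557108) (nat_lit 15) (.e (nat_lit 188452) (nat_lit 23) (.e (nat_lit 204823) (nat_lit 17) .nil)))) (.g (nat_lit 0) (.e (nat_lit 351905) (nat_lit 0) .nil) .nil)))) (.nd (nat_lit 9) 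
(.lf (nat_lit 570858) (.g (nat_lit 2367) (.e (nat_lit 475179) (nat_lit 24) (.e (nat_lit 516120) (nat_lit 1) (.e (nat_lit 164330) (nat_lit 230) (.e (nat_lit 163909) (nat_lit 12) (.e (nat_lit 426501) (nat_lit 27) .nil))))) (.g (nat_lit 0) (.e (nat_lit 351429) (nat_lit 0) .nil) .nil))) 
(.lf (nat_lit 571370) (.g (nat_lit 2824) (.e (nat_lit 475185) (nat_lit 29) (.e (nat_lit 557100) (nat_lit 13) (.e (nat_lit 172106) (nat_lit 10) (.e (nat_lit 434231) (nat_lit 23) (.e (nat_lit 532501) (nat_lit 1) .nil))))) (.g (nat_lit 0) (.e (nat_lit 352188) (nat_lit 0) .nil) .nil)))))))) (.nd (nat_lit 5) (.nd (nat_lit 6) (.nd (nat_lit 7) (.nd (nat_lit 8) (.nd (nat_lit 9) 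
(.lf (nat_lit 570394) (.g (nat_lit 899) (.e (nat_lit 475177) (nat_lit 24) (.e (nat_lit 516146) (nat_lit 9) (.e (nat_lit 426428) (nat_lit 17) (.e (nat_lit 90133) (nat_lit 9) .nil)))) (.g (nat_lit 0) (.e (nat_lit 350761) (nat_lit 0) .nil) .nil))) 
(.lf (nat_lit 570906) (.g (nat_lit 1533) (.e (nat_lit 475179) (nat_lit 24) (.e (nat_lit 516127) (nat_lit 2) (.e (nat_lit 213030) (nat_lit 11) (.e (nat_lit 24603) (nat_lit 2) (.e (nat_lit 90185) (nat_lit 17) (.e (nat_lit 237616) (nat_lit 12) .nil)))))) (.g (nat_lit 1) (.e (nat_lit 351495) (nat_lit 0) .nil) .nil)))) (.nd (nat_lit 9) 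
(.lf (nat_lit 570650) (.g (nat_lit 2377) (.e (nat_lit 475179) (nat_lit 24) (.e (nat_lit 516115) (nat_lit 1) (.e (nat_lit 164325) (nat_lit 230) (.e (nat_lit 163844) (nat_lit 0) .nil)))) (.g (nat_lit 0) (.e (nat_lit 351141) (nat_lit 0) .nil) .nil))) 
(.lf (nat_lit 571162) (.g (nat_lit 1691) (.e (nat_lit 475184) (nat_lit 29) (.e (nat_lit 557098) (nat_lit 13) (.e (nat_lit 172115) (nat_lit 10) (.e (nat_lit 434231) (nat_lit 23) (.e (nat_lit 532482) (nat_lit 0) .nil))))) (.g (nat_lit 0) (.e (nat_lit 351963) (nat_lit 0) .nil) .nil))))) (.nd (nat_lit 8) (.nd (nat_lit 9) 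
(.lf (nat_lit 570522) (.g (nat_lit 1988) (.e (nat_lit 475177) (nat_lit 24) (.e (nat_lit 516176) (nat_lit 14) (.e (nat_lit 466950) (nat_lit 11) (.e (nat_lit 335995) (nat_lit 1) (.e (nat_lit 57688) (nat_lit 156) (.e (nat_lit 163939) (nat_lit 18) .nil)))))) (.g (nat_lit 1) (.e (nat_lit 350945) (nat_lit 0) .nil) .nil))) 
(.lf (nat_lit 571034) (.g (nat_lit 2750) (.e (nat_lit 475179) (nat_lit 24) (.e (nat_lit 516179) (nat_lit 15) (.e (nat_lit 475177) (nat_lit 24) (.e (nat_lit 516181) (nat_lit 15) (.e (nat_lit 475179) (nat_lit 24) (.e (nat_lit 516182) (nat_lit 15) .nil)))))) (.g (nat_lit 1) (.e (nat_lit 351816) (nat_lit 0) .nil) .nil)))) (.nd (nat_lit 9) 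
(.lf (nat_lit 570778) (.g (nat_lit 1114) (.e (nat_lit 475179) (nat_lit 24) (.e (nat_lit 516119) (nat_lit 1) (.e (nat_lit 164325) (nat_lit 230) (.e (nat_lit 163947) (nat_lit 20) .nil)))) (.g (nat_lit 0) (.e (nat_lit 351334) (nat_lit 0) .nil) .nil))) 
(.lf (nat_lit 571290) (.g (nat_lit 621) (.e (nat_lit 475185) (nat_lit 29) (.e (nat_lit 557097) (nat_lit 13) (.e (nat_lit 172124) (nat_lit 14) .nil))) (.g (nat_lit 0) (.e (nat_lit 352107) (nat_lit 0) .nil) .nil)))))) (.nd (nat_lit 7) (.nd (nat_lit 8) (.nd (nat_lit 9) 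
(.lf (nat_lit 570458) (.g (nat_lit 2967) (.e (nat_lit 475177) (nat_lit 24) (.e (nat_lit 516150) (nat_lit 9) (.e (nat_lit 426323) (nat_lit 13) (.e (nat_lit 483365) (nat_lit 18) (.e (nat_lit 57688) (nat_lit 156) (.e (nat_lit 163938) (nat_lit 18) .nil)))))) (.g (nat_lit 1) (.e (nat_lit 350845) (nat_lit 0) .nil) .nil))) 
(.lf (nat_lit 570970) (.g (nat_lit 2776) (.e (nat_lit 475179) (nat_lit 24) (.e (nat_lit 516174) (nat_lit 14) (.e (nat_lit 466954) (nat_lit 11) (.e (nat_lit 335986) (nat_lit 1) (.e (nat_lit 57655) (nat_lit 152) (.e (nat_lit 2405) (nat_lit 157) (.e (nat_lit 3062) (nat_lit 190) .nil))))))) (.g (nat_lit 1) (.e (nat_lit 351736) (nat_lit 0) .nil) .nil)))) (.nd (nat_lit 9) 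
(.lf (nat_lit 570714) (.g (nat_lit 490) (.e (nat_lit 475179) (nat_lit 24) (.e (nat_lit 516117) (nat_lit 1) (.e (nat_lit 164258) (nat_lit 215) .nil))) (.g (nat_lit 0) (.e (nat_lit 351239) (nat_lit 0) .nil) .nil))) 
(.lf (nat_lit 571226) (.g (nat_lit 2309) (.e (nat_lit 475184) (nat_lit 29) (.e (nat_lit 557108) (nat_lit 15) (.e (nat_lit 188452) (nat_lit 23) (.e (nat_lit 204884) (nat_lit 33) .nil)))) (.g (nat_lit 0) (.e (nat_lit 352032) (nat_lit 0) .nil) .nil))))) (.nd (nat_lit 8) (.nd (nat_lit 9) 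
(.lf (nat_lit 570586) (.g (nat_lit 2026) (.e (nat_lit 475177) (nat_lit 24) (.e (nat_lit 516181) (nat_lit 15) (.e (nat_lit 475176) (nat_lit 24) (.e (nat_lit 516151) (nat_lit 9) (.e (nat_lit 433920) (nat_lit 18) .nil))))) (.g (nat_lit 0) (.e (nat_lit 351034) (nat_lit 0) .nil) .nil))) 
(.lf (nat_lit 571098) (.g (nat_lit 3650) (.e (nat_lit 475183) (nat_lit 29) (.e (nat_lit 557107) (nat_lit 15) (.e (nat_lit 188450) (nat_lit 23) (.e (nat_lit 204885) (nat_lit 33) (.e (nat_lit 401451) (nat_lit 12) .nil))))) (.g (nat_lit 1) (.e (nat_lit 351889) (nat_lit 0) .nil) .nil)))) (.nd (nat_lit 9) 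
(.lf (nat_lit 570842) (.g (nat_lit 4369) (.e (nat_lit 475179) (nat_lit 24) (.e (nat_lit 516120) (nat_lit 1) (.e (nat_lit 164330) (nat_lit 230) (.e (nat_lit 163902) (nat_lit 12) (.e (nat_lit 426568) (nat_lit 34) (.e (nat_lit 393291) (nat_lit 26) .nil)))))) (.g (nat_lit 1) (.e (nat_lit 351410) (nat_lit 0) .nil) .nil))) 
(.lf (nat_lit 571354) (.g (nat_lit 2392) (.e (nat_lit 475185) (nat_lit 29) (.e (nat_lit 557100) (nat_lit 13) (.e (nat_lit 172106) (nat_lit 10) (.e (nat_lit 434231) (nat_lit 23) (.e (nat_lit 532483) (nat_lit 0) (.e (nat_lit 7936) (nat_lit 357) (.e (nat_lit 3073) (nat_lit 190) .nil))))))) (.g (nat_lit 1) (.e (nat_lit 352172) (nat_lit 0) .nil) .nil))))))) 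
(.nd (nat_lit 6) (.nd (nat_lit 7) (.nd (nat_lit 8) (.nd (nat_lit 9) 
(.lf (nat_lit 570426) (.g (nat_lit 2048) (.e (nat_lit 475177) (nat_lit 24) (.e (nat_lit 516149) (nat_lit 9) (.e (nat_lit 426323) (nat_lit 13) (.e (nat_lit 483366) (nat_lit 18) (.e (nat_lit 57688) (nat_lit 156) (.e (nat_lit 163938) (nat_lit 18) .nil)))))) (.g (nat_lit 1) (.e (nat_lit 350801) (nat_lit 0) .nil) .nil))) 
(.lf (nat_lit 570938) (.g (nat_lit 3114) (.e (nat_lit 475179) (nat_lit 24) (.e (nat_lit 516146) (nat_lit 9) (.e (nat_lit 426438) (nat_lit 18) (.e (nat_lit 98384) (nat_lit 32) (.e (nat_lit 475177) (nat_lit 24) (.e (nat_lit 516181) (nat_lit 15) .nil)))))) (.g (nat_lit 1) (.e (nat_lit 351538) (nat_lit 0) .nil) .nil)))) (.nd (nat_lit 9) 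
(.lf (nat_lit 570682) (.g (nat_lit 2483) (.e (nat_lit 475179) (nat_lit 24) (.e (nat_lit 516115) (nat_lit 1) (.e (nat_lit 164325) (nat_lit 230) (.e (nat_lit 163907) (nat_lit 12) (.e (nat_lit 426491) (nat_lit 27) (.e (nat_lit 336409) (nat_lit 27) (.e (nat_lit 426313) (nat_lit 12) .nil))))))) (.g (nat_lit 1) (.e (nat_lit 351176) (nat_lit 0) .nil) .nil))) 
(.lf (nat_lit 571194) (.g (nat_lit 1518) (.e (nat_lit 475184) (nat_lit 29) (.e (nat_lit 557101) (nat_lit 13) (.e (nat_lit 172115) (nat_lit 10) (.e (nat_lit 434231) (nat_lit 23) (.e (nat_lit 532482) (nat_lit 0) .nil))))) (.g (nat_lit 0) (.e (nat_lit 351995) (nat_lit 0) .nil) .nil))))) (.nd (nat_lit 8) (.nd (nat_lit 9) 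
(.lf (nat_lit 570554) (.g (nat_lit 2896) (.e (nat_lit 475177) (nat_lit 24) (.e (nat_lit 516176) (nat_lit 14) (.e (nat_lit 466954) (nat_lit 11) (.e (nat_lit 335995) (nat_lit 1) (.e (nat_lit 57688) (nat_lit 156) (.e (nat_lit 163937) (nat_lit 18) .nil)))))) (.g (nat_lit 1) (.e (nat_lit 350986) (nat_lit 0) .nil) .nil))) 
(.lf (nat_lit 571066) (.g (nat_lit 2414) (.e (nat_lit 475183) (nat_lit 29) (.e (nat_lit 557098) (nat_lit 13) (.e (nat_lit 172112) (nat_lit 10) (.e (nat_lit 434248) (nat_lit 28) (.e (nat_lit 573470) (nat_lit 11) .nil))))) (.g (nat_lit 0) (.e (nat_lit 351855) (nat_lit 0) .nil) .nil)))) (.nd (nat_lit 9) 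
(.lf (nat_lit 570810) (.g (nat_lit 746) (.e (nat_lit 475179) (nat_lit 24) (.e (nat_lit 516120) (nat_lit 1) (.e (nat_lit 164322) (nat_lit 230) .nil))) (.g (nat_lit 0) (.e (nat_lit 351377) (nat_lit 0) .nil) .nil))) 
(.lf (nat_lit 571322) (.g (nat_lit 3393) (.e (nat_lit 475185) (nat_lit 29) (.e (nat_lit 557098) (nat_lit 13) (.e (nat_lit 172120) (nat_lit 12) (.e (nat_lit 475185) (nat_lit 29) (.e (nat_lit 557098) (nat_lit 13) (.e (nat_lit 172119) (nat_lit 12) .nil)))))) (.g (nat_lit 1) (.e (nat_lit 352139) (nat_lit 0) .nil) .nil)))))) (.nd (nat_lit 7) (.nd (nat_lit 8) (.nd (nat_lit 9) 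
(.lf (nat_lit 570490) (.g (nat_lit 2581) (.e (nat_lit 475177) (nat_lit 24) (.e (nat_lit 516174) (nat_lit 14) (.e (nat_lit 466954) (nat_lit 11) (.e (nat_lit 335986) (nat_lit 1) (.e (nat_lit 57655) (nat_lit 152) (.e (nat_lit 2504) (nat_lit 157) (.e (nat_lit 3067) (nat_lit 190) .nil))))))) (.g (nat_lit 1) (.e (nat_lit 350902) (nat_lit 0) .nil) .nil))) 
(.lf (nat_lit 571002) (.g (nat_lit 2923) (.e (nat_lit 475179) (nat_lit 24) (.e (nat_lit 516176) (nat_lit 14) (.e (nat_lit 466954) (nat_lit 11) (.e (nat_lit 335986) (nat_lit 1) (.e (nat_lit 57654) (nat_lit 152) (.e (nat_lit 2399) (nat_lit 157) (.e (nat_lit 3071) (nat_lit 190) .nil))))))) (.g (nat_lit 1) (.e (nat_lit 351774) (nat_lit 0) .nil) .nil)))) (.nd (nat_lit 9) 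
(.lf (nat_lit 570746) (.g (nat_lit 2125) (.e (nat_lit 475179) (nat_lit 24) (.e (nat_lit 516117) (nat_lit 1) (.e (nat_lit 164332) (nat_lit 230) (.e (nat_lit 163905) (nat_lit 12) (.e (nat_lit 426491) (nat_lit 27) .nil))))) (.g (nat_lit 0) (.e (nat_lit 351280) (nat_lit 0) .nil) .nil))) 
(.lf (nat_lit 571258) (.g (nat_lit 2781) (.e (nat_lit 475184) (nat_lit 29) (.e (nat_lit 557109) (nat_lit 15) (.e (nat_lit 188452) (nat_lit 23) (.e (nat_lit 204814) (nat_lit 17) .nil)))) (.g (nat_lit 0) (.e (nat_lit 352064) (nat_lit 0) .nil) .nil))))) (.nd (nat_lit 8) (.nd (nat_lit 9) 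
(.lf (nat_lit 570618) (.g (nat_lit 3039) (.e (nat_lit 475178) (nat_lit 24) (.e (nat_lit 516117) (nat_lit 1) (.e (nat_lit 164329) (nat_lit 230) (.e (nat_lit 163941) (nat_lit 19) (.e (nat_lit 483341) (nat_lit 9) (.e (nat_lit 426306) (nat_lit 12) .nil)))))) (.g (nat_lit 1) (.e (nat_lit 351080) (nat_lit 0) .nil) .nil))) 
(.lf (nat_lit 571130) (.g (nat_lit 2987) (.e (nat_lit 475183) (nat_lit 29) (.e (nat_lit 557109) (nat_lit 15) (.e (nat_lit 188450) (nat_lit 23) (.e (nat_lit 212736) (nat_lit 17) .nil)))) (.g (nat_lit 0) (.e (nat_lit 351921) (nat_lit 0) .nil) .nil)))) (.nd (nat_lit 9) 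
(.lf (nat_lit 570874) (.g (nat_lit 2312) (.e (nat_lit 475179) (nat_lit 24) (.e (nat_lit 516120) (nat_lit 1) (.e (nat_lit 164330) (nat_lit 230) (.e (nat_lit 163941) (nat_lit 19) (.e (nat_lit 491264) (nat_lit 9) (.e (nat_lit 426318) (nat_lit 12) .nil)))))) (.g (nat_lit 1) (.e (nat_lit 351447) (nat_lit 0) .nil) .nil))) 
(.lf (nat_lit 571386) (.g (nat_lit 3475) (.e (nat_lit 475185) (nat_lit 29) (.e (nat_lit 557100) (nat_lit 13) (.e (nat_lit 172113) (nat_lit 10) (.e (nat_lit 434245) (nat_lit 28) (.e (nat_lit 573451) (nat_lit 9) (.e (nat_lit 430) (nat_lit 32) (.e (nat_lit 426307) (nat_lit 12) .nil))))))) (.g (nat_lit 1) (.e (nat_lit 352204) (nat_lit 0) .nil) .nil)))))))))) 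
(.nd (nat_lit 3) (.nd (nat_lit 4) (.nd (nat_lit 5) (.nd (nat_lit 6) (.nd (nat_lit 7) 
(.nd (nat_lit 8) (.nd (nat_lit 9) 
(.lf (nat_lit 570374) (.g (nat_lit 1598) (.e (nat_lit 475177) (nat_lit 24) (.e (nat_lit 516127) (nat_lit 2) (.e (nat_lit 213030) (nat_lit 11) (.e (nat_lit 24603) (nat_lit 2) (.e (nat_lit 90185) (nat_lit 17) (.e (nat_lit 237616) (nat_lit 12) .nil)))))) (.g (nat_lit 1) (.e (nat_lit 350736) (nat_lit 0) .nil) .nil))) 
(.lf (nat_lit 570886) (.g (nat_lit 883) (.e (nat_lit 475179) (nat_lit 24) (.e (nat_lit 516120) (nat_lit 1) (.e (nat_lit 164332) (nat_lit 230) (.e (nat_lit 163905) (nat_lit 12) .nil)))) (.g (nat_lit 0) (.e (nat_lit 351468) (nat_lit 0) .nil) .nil)))) (.nd (nat_lit 9) 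
(.lf (nat_lit 570630) (.g (nat_lit 2557) (.e (nat_lit 475178) (nat_lit 24) (.e (nat_lit 516120) (nat_lit 1) (.e (nat_lit 164330) (nat_lit 230) (.e (nat_lit 163913) (nat_lit 12) (.e (nat_lit 433920) (nat_lit 34) .nil))))) (.g (nat_lit 0) (.e (nat_lit 351106) (nat_lit 0) .nil) .nil))) 
(.lf (nat_lit 571142) (.g (nat_lit 1730) (.e (nat_lit 475184) (nat_lit 29) (.e (nat_lit 557098) (nat_lit 13) (.e (nat_lit 172097) (nat_lit 9) (.e (nat_lit 426125) (nat_lit 2) (.e (nat_lit 196661) (nat_lit 12) .nil))))) (.g (nat_lit 0) (.e (nat_lit 351943) (nat_lit 0) .nil) .nil))))) (.nd (nat_lit 8) (.nd (nat_lit 9) 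
(.lf (nat_lit 570502) (.g (nat_lit 2377) (.e (nat_lit 475177) (nat_lit 24) (.e (nat_lit 516174) (nat_lit 14) (.e (nat_lit 466954) (nat_lit 11) (.e (nat_lit 335988) (nat_lit 1) (.e (nat_lit 57685) (nat_lit 156) (.e (nat_lit 163936) (nat_lit 18) .nil)))))) (.g (nat_lit 1) (.e (nat_lit 350920) (nat_lit 0) .nil) .nil))) 
(.lf (nat_lit 571014) (.g (nat_lit 2588) (.e (nat_lit 475179) (nat_lit 24) (.e (nat_lit 516176) (nat_lit 14) (.e (nat_lit 466954) (nat_lit 11) (.e (nat_lit 335994) (nat_lit 1) (.e (nat_lit 57691) (nat_lit 156) (.e (nat_lit 163939) (nat_lit 18) .nil)))))) (.g (nat_lit 1) (.e (nat_lit 351791) (nat_lit 0) .nil) .nil)))) (.nd (nat_lit 9) 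
(.lf (nat_lit 570758) (.g (nat_lit 1335) (.e (nat_lit 475179) (nat_lit 24) (.e (nat_lit 516119) (nat_lit 1) (.e (nat_lit 164322) (nat_lit 230) (.e (nat_lit 163902) (nat_lit 12) .nil)))) (.g (nat_lit 0) (.e (nat_lit 351295) (nat_lit 0) .nil) .nil))) 
(.lf (nat_lit 571270) (.g (nat_lit 4354) (.e (nat_lit 475184) (nat_lit 29) (.e (nat_lit 557109) (nat_lit 15) (.e (nat_lit 188452) (nat_lit 23) (.e (nat_lit 204824) (nat_lit 17) .nil)))) (.g (nat_lit 0) (.e (nat_lit 352076) (nat_lit 0) .nil) .nil)))))) (.nd (nat_lit 7) (.nd (nat_lit 8) (.nd (nat_lit 9) 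
(.lf (nat_lit 570438) (.g (nat_lit 377) (.e (nat_lit 475177) (nat_lit 24) (.e (nat_lit 516150) (nat_lit 9) (.e (nat_lit 426323) (nat_lit 13) .nil))) (.g (nat_lit 0) (.e (nat_lit 350818) (nat_lit 0) .nil) .nil))) 
(.lf (nat_lit 570950) (.g (nat_lit 1797) (.e (nat_lit 475179) (nat_lit 24) (.e (nat_lit 516150) (nat_lit 9) (.e (nat_lit 426323) (nat_lit 13) (.e (nat_lit 483365) (nat_lit 18) (.e (nat_lit 57685) (nat_lit 156) .nil))))) (.g (nat_lit 0) (.e (nat_lit 351570) (nat_lit 0) .nil) .nil)))) (.nd (nat_lit 9) 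
(.lf (nat_lit 570694) (.g (nat_lit 2743) (.e (nat_lit 475179) (nat_lit 24) (.e (nat_lit 516115) (nat_lit 1) (.e (nat_lit 164327) (nat_lit 230) (.e (nat_lit 163903) (nat_lit 12) (.e (nat_lit 426480) (nat_lit 27) .nil))))) (.g (nat_lit 0) (.e (nat_lit 351208) (nat_lit 0) .nil) .nil))) 
(.lf (nat_lit 571206) (.g (nat_lit 2610) (.e (nat_lit 475184) (nat_lit 29) (.e (nat_lit 557107) (nat_lit 15) (.e (nat_lit 188447) (nat_lit 22) (.e (nat_lit 196661) (nat_lit 12) (.e (nat_lit 57750) (nat_lit 201) (.e (nat_lit 3066) (nat_lit 190) .nil)))))) (.g (nat_lit 1) (.e (nat_lit 352012) (nat_lit 0) .nil) .nil))))) (.nd (nat_lit 8) (.nd (nat_lit 9) 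
(.lf (nat_lit 570566) (.g (nat_lit 2257) (.e (nat_lit 475177) (nat_lit 24) (.e (nat_lit 516176) (nat_lit 14) (.e (nat_lit 466972) (nat_lit 21) (.e (nat_lit 164183) (nat_lit 154) (.e (nat_lit 65280) (nat_lit 62) (.e (nat_lit 164327) (nat_lit 230) (.e (nat_lit 163939) (nat_lit 18) .nil))))))) (.g (nat_lit 1) (.e (nat_lit 351003) (nat_lit 0) .nil) .nil))) 
(.lf (nat_lit 571078) (.g (nat_lit 1853) (.e (nat_lit 475183) (nat_lit 29) (.e (nat_lit 557100) (nat_lit 13) (.e (nat_lit 172113) (nat_lit 10) (.e (nat_lit 434245) (nat_lit 28) (.e (nat_lit 573470) (nat_lit 11) .nil))))) (.g (nat_lit 0) (.e (nat_lit 351867) (nat_lit 0) .nil) .nil)))) (.nd (nat_lit 9) 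
(.lf (nat_lit 570822) (.g (nat_lit 1652) (.e (nat_lit 475179) (nat_lit 24) (.e (nat_lit 516120) (nat_lit 1) (.e (nat_lit 164330) (nat_lit 230) (.e (nat_lit 163900) (nat_lit 12) .nil)))) (.g (nat_lit 0) (.e (nat_lit 351390) (nat_lit 0) .nil) .nil))) 
(.lf (nat_lit 571334) (.g (nat_lit 1433) (.e (nat_lit 475185) (nat_lit 29) (.e (nat_lit 557100) (nat_lit 13) (.e (nat_lit 172106) (nat_lit 10) (.e (nat_lit 434219) (nat_lit 19) .nil)))) (.g (nat_lit 0) (.e (nat_lit 352152) (nat_lit 0) .nil) .nil))))))) (.nd (nat_lit 6) (.nd (nat_lit 7) (.nd (nat_lit 8) (.nd (nat_lit 9) 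
(.lf (nat_lit 570406) (.g (nat_lit 1906) (.e (nat_lit 475177) (nat_lit 24) (.e (nat_lit 516148) (nat_lit 9) (.e (nat_lit 426436) (nat_lit 18) (.e (nat_lit 98355) (nat_lit 26) (.e (nat_lit 426436) (nat_lit 18) .nil))))) (.g (nat_lit 0) (.e (nat_lit 350779) (nat_lit 0) .nil) .nil))) 
(.lf (nat_lit 570918) (.g (nat_lit 900) (.e (nat_lit 475179) (nat_lit 24) (.e (nat_lit 516146) (nat_lit 9) (.e (nat_lit 426246) (nat_lit 9) .nil))) (.g (nat_lit 0) (.e (nat_lit 351518) (nat_lit 0) .nil) .nil)))) (.nd (nat_lit 9) 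
(.lf (nat_lit 570662) (.g (nat_lit 3230) (.e (nat_lit 475179) (nat_lit 24) (.e (nat_lit 516115) (nat_lit 1) (.e (nat_lit 164325) (nat_lit 230) (.e (nat_lit 163902) (nat_lit 12) (.e (nat_lit 426568) (nat_lit 34) .nil))))) (.g (nat_lit 0) (.e (nat_lit 351154) (nat_lit 0) .nil) .nil))) 
(.lf (nat_lit 571174) (.g (nat_lit 1709) (.e (nat_lit 475184) (nat_lit 29) (.e (nat_lit 557100) (nat_lit 13) (.e (nat_lit 172106) (nat_lit 10) (.e (nat_lit 434244) (nat_lit 28) .nil)))) (.g (nat_lit 0) (.e (nat_lit 351975) (nat_lit 0) .nil) .nil))))) (.nd (nat_lit 8) (.nd (nat_lit 9) 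
(.lf (nat_lit 570534) (.g (nat_lit 1891) (.e (nat_lit 475177) (nat_lit 24) (.e (nat_lit 516176) (nat_lit 14) (.e (nat_lit 466954) (nat_lit 11) (.e (nat_lit 335986) (nat_lit 1) (.e (nat_lit 57687) (nat_lit 156) .nil))))) (.g (nat_lit 0) (.e (nat_lit 350961) (nat_lit 0) .nil) .nil))) 
(.lf (nat_lit 571046) (.g (nat_lit 1406) (.e (nat_lit 475180) (nat_lit 25) (.e (nat_lit 524319) (nat_lit 11) (.e (nat_lit 442421) (nat_lit 21) (.e (nat_lit 164177) (nat_lit 154) .nil)))) (.g (nat_lit 0) (.e (nat_lit 351829) (nat_lit 0) .nil) .nil)))) (.nd (nat_lit 9) 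
(.lf (nat_lit 570790) (.g (nat_lit 525) (.e (nat_lit 475179) (nat_lit 24) (.e (nat_lit 516119) (nat_lit 1) (.e (nat_lit 164327) (nat_lit 230) .nil))) (.g (nat_lit 0) (.e (nat_lit 351350) (nat_lit 0) .nil) .nil))) 
(.lf (nat_lit 571302) (.g (nat_lit 1165) (.e (nat_lit 475185) (nat_lit 29) (.e (nat_lit 557098) (nat_lit 13) (.e (nat_lit 172101) (nat_lit 9) .nil))) (.g (nat_lit 0) (.e (nat_lit 352119) (nat_lit 0) .nil) .nil)))))) (.nd (nat_lit 7) (.nd (nat_lit 8) (.nd (nat_lit 9) 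
(.lf (nat_lit 570470) (.g (nat_lit 1114) (.e (nat_lit 475177) (nat_lit 24) (.e (nat_lit 516150) (nat_lit 9) (.e (nat_lit 426437) (nat_lit 18) (.e (nat_lit 98385) (nat_lit 32) .nil)))) (.g (nat_lit 0) (.e (nat_lit 350859) (nat_lit 0) .nil) .nil))) 
(.lf (nat_lit 570982) (.g (nat_lit 2200) (.e (nat_lit 475179) (nat_lit 24) (.e (nat_lit 516174) (nat_lit 14) (.e (nat_lit 466954) (nat_lit 11) (.e (nat_lit 335995) (nat_lit 1) (.e (nat_lit 57686) (nat_lit 156) (.e (nat_lit 163936) (nat_lit 18) .nil)))))) (.g (nat_lit 1) (.e (nat_lit 351752) (nat_lit 0) .nil) .nil)))) (.nd (nat_lit 9) 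
(.lf (nat_lit 570726) (.g (nat_lit 425) (.e (nat_lit 475179) (nat_lit 24) (.e (nat_lit 516117) (nat_lit 1) (.e (nat_lit 164330) (nat_lit 230) .nil))) (.g (nat_lit 0) (.e (nat_lit 351256) (nat_lit 0) .nil) .nil))) 
(.lf (nat_lit 571238) (.g (nat_lit 3777) (.e (nat_lit 475184) (nat_lit 29) (.e (nat_lit 557109) (nat_lit 15) (.e (nat_lit 188449) (nat_lit 22) (.e (nat_lit 196637) (nat_lit 9) .nil)))) (.g (nat_lit 0) (.e (nat_lit 352044) (nat_lit 0) .nil) .nil))))) (.nd (nat_lit 8) (.nd (nat_lit 9) 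
(.lf (nat_lit 570598) (.g (nat_lit 1608) (.e (nat_lit 475177) (nat_lit 24) (.e (nat_lit 516181) (nat_lit 15) (.e (nat_lit 475179) (nat_lit 24) (.e (nat_lit 516178) (nat_lit 15) .nil)))) (.g (nat_lit 0) (.e (nat_lit 351049) (nat_lit 0) .nil) .nil))) 
(.lf (nat_lit 571110) (.g (nat_lit 4292) (.e (nat_lit 475183) (nat_lit 29) (.e (nat_lit 557108) (nat_lit 15) (.e (nat_lit 188449) (nat_lit 22) (.e (nat_lit 196660) (nat_lit 12) .nil)))) (.g (nat_lit 0) (.e (nat_lit 351901) (nat_lit 0) .nil) .nil)))) (.nd (nat_lit 9) 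
(.lf (nat_lit 570854) (.g (nat_lit 2879) (.e (nat_lit 475179) (nat_lit 24) (.e (nat_lit 516120) (nat_lit 1) (.e (nat_lit 164330) (nat_lit 230) (.e (nat_lit 163905) (nat_lit 12) (.e (nat_lit 426567) (nat_lit 34) (.e (nat_lit 393293) (nat_lit 26) .nil)))))) (.g (nat_lit 1) (.e (nat_lit 351424) (nat_lit 0) .nil) .nil))) 
(.lf (nat_lit 571366) (.g (nat_lit 2980) (.e (nat_lit 475185) (nat_lit 29) (.e (nat_lit 557100) (nat_lit 13) (.e (nat_lit 172106) (nat_lit 10) (.e (nat_lit 434231) (nat_lit 23) (.e (nat_lit 532499) (nat_lit 1) (.e (nat_lit 57761) (nat_lit 215) (.e (nat_lit 2508) (nat_lit 157) (.e (nat_lit 3062) (nat_lit 190) .nil)))))))) (.g (nat_lit 1) (.e (nat_lit 352184) (nat_lit 0) .nil) .nil)))))))) 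
(.nd (nat_lit 5) (.nd (nat_lit 6) (.nd (nat_lit 7) (.nd (nat_lit 8) (.nd (nat_lit 9) 
(.lf (nat_lit 570390) (.g (nat_lit 2143) (.e (nat_lit 475177) (nat_lit 24) (.e (nat_lit 516145) (nat_lit 9) (.e (nat_lit 426438) (nat_lit 18) (.e (nat_lit 98384) (nat_lit 32) (.e (nat_lit 475179) (nat_lit 24) .nil))))) (.g (nat_lit 0) (.e (nat_lit 350757) (nat_lit 0) .nil) .nil))) 
(.lf (nat_lit 570902) (.g (nat_lit 1850) (.e (nat_lit 475179) (nat_lit 24) (.e (nat_lit 516120) (nat_lit 1) (.e (nat_lit 164332) (nat_lit 230) (.e (nat_lit 163941) (nat_lit 19) (.e (nat_lit 483338) (nat_lit 9) .nil))))) (.g (nat_lit 0) (.e (nat_lit 351485) (nat_lit 0) .nil) .nil)))) (.nd (nat_lit 9) 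
(.lf (nat_lit 570646) (.g (nat_lit 2114) (.e (nat_lit 475178) (nat_lit 24) (.e (nat_lit 516179) (nat_lit 15) (.e (nat_lit 475179) (nat_lit 24) (.e (nat_lit 516179) (nat_lit 15) (.e (nat_lit 475177) (nat_lit 24) .nil))))) (.g (nat_lit 0) (.e (nat_lit 351134) (nat_lit 0) .nil) .nil))) 
(.lf (nat_lit 571158) (.g (nat_lit 2414) (.e (nat_lit 475184) (nat_lit 29) (.e (nat_lit 557098) (nat_lit 13) (.e (nat_lit 172112) (nat_lit 10) (.e (nat_lit 434248) (nat_lit 28) (.e (nat_lit 573469) (nat_lit 11) .nil))))) (.g (nat_lit 0) (.e (nat_lit 351959) (nat_lit 0) .nil) .nil))))) (.nd (nat_lit 8) (.nd (nat_lit 9) 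
(.lf (nat_lit 570518) (.g (nat_lit 2930) (.e (nat_lit 475177) (nat_lit 24) (.e (nat_lit 516174) (nat_lit 14) (.e (nat_lit 466954) (nat_lit 11) (.e (nat_lit 335995) (nat_lit 1) (.e (nat_lit 57688) (nat_lit 156) (.e (nat_lit 163938) (nat_lit 18) .nil)))))) (.g (nat_lit 1) (.e (nat_lit 350938) (nat_lit 0) .nil) .nil))) 
(.lf (nat_lit 571030) (.g (nat_lit 2228) (.e (nat_lit 475179) (nat_lit 24) (.e (nat_lit 516179) (nat_lit 15) (.e (nat_lit 475177) (nat_lit 24) (.e (nat_lit 516150) (nat_lit 9) (.e (nat_lit 426438) (nat_lit 18) (.e (nat_lit 98383) (nat_lit 32) .nil)))))) (.g (nat_lit 1) (.e (nat_lit 351812) (nat_lit 0) .nil) .nil)))) (.nd (nat_lit 9) 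
(.lf (nat_lit 570774) (.g (nat_lit 1808) (.e (nat_lit 475179) (nat_lit 24) (.e (nat_lit 516119) (nat_lit 1) (.e (nat_lit 164325) (nat_lit 230) (.e (nat_lit 163907) (nat_lit 12) (.e (nat_lit 426481) (nat_lit 27) (.e (nat_lit 336388) (nat_lit 27) (.e (nat_lit 426313) (nat_lit 12) .nil))))))) (.g (nat_lit 1) (.e (nat_lit 351319) (nat_lit 0) .nil) .nil))) 
(.lf (nat_lit 571286) (.g (nat_lit 1552) (.e (nat_lit 475185) (nat_lit 29) (.e (nat_lit 557097) (nat_lit 13) (.e (nat_lit 172115) (nat_lit 10) (.e (nat_lit 434227) (nat_lit 20) .nil)))) (.g (nat_lit 0) (.e (nat_lit 352103) (nat_lit 0) .nil) .nil)))))) (.nd (nat_lit 7) (.nd (nat_lit 8) (.nd (nat_lit 9) 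
(.lf (nat_lit 570454) (.g (nat_lit 2300) (.e (nat_lit 475177) (nat_lit 24) (.e (nat_lit 516150) (nat_lit 9) (.e (nat_lit 426323) (nat_lit 13) (.e (nat_lit 483365) (nat_lit 18) (.e (nat_lit 57686) (nat_lit 156) (.e (nat_lit 163939) (nat_lit 18) .nil)))))) (.g (nat_lit 1) (.e (nat_lit 350841) (nat_lit 0) .nil) .nil))) 
(.lf (nat_lit 570966) (.g (nat_lit 2086) (.e (nat_lit 475179) (nat_lit 24) (.e (nat_lit 516171) (nat_lit 13) (.e (nat_lit 458789) (nat_lit 23) (.e (nat_lit 532515) (nat_lit 3) (.e (nat_lit 122624) (nat_lit 3) (.e (nat_lit 212736) (nat_lit 15) .nil)))))) (.g (nat_lit 1) (.e (nat_lit 351728) (nat_lit 0) .nil) .nil)))) (.nd (nat_lit 9) 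
(.lf (nat_lit 570710) (.g (nat_lit 1351) (.e (nat_lit 475179) (nat_lit 24) (.e (nat_lit 516115) (nat_lit 1) (.e (nat_lit 164332) (nat_lit 230) (.e (nat_lit 163902) (nat_lit 12) .nil)))) (.g (nat_lit 0) (.e (nat_lit 351231) (nat_lit 0) .nil) .nil))) 
(.lf (nat_lit 571222) (.g (nat_lit 1040) (.e (nat_lit 475184) (nat_lit 29) (.e (nat_lit 557108) (nat_lit 15) (.e (nat_lit 188449) (nat_lit 22) .nil))) (.g (nat_lit 0) (.e (nat_lit 352028) (nat_lit 0) .nil) .nil))))) (.nd (nat_lit 8) (.nd (nat_lit 9) 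
(.lf (nat_lit 570582) (.g (nat_lit 150) (.e (nat_lit 475177) (nat_lit 24) (.e (nat_lit 516180) (nat_lit 15) (.e (nat_lit 475177) (nat_lit 24) .nil))) (.g (nat_lit 0) (.e (nat_lit 351023) (nat_lit 0) .nil) .nil))) 
(.lf (nat_lit 571094) (.g (nat_lit 1149) (.e (nat_lit 475183) (nat_lit 29) (.e (nat_lit 557107) (nat_lit 15) (.e (nat_lit 188447) (nat_lit 22) (.e (nat_lit 196661) (nat_lit 12) .nil)))) (.g (nat_lit 0) (.e (nat_lit 351885) (nat_lit 0) .nil) .nil)))) (.nd (nat_lit 9) 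
(.lf (nat_lit 570838) (.g (nat_lit 2879) (.e (nat_lit 475179) (nat_lit 24) (.e (nat_lit 516120) (nat_lit 1) (.e (nat_lit 164330) (nat_lit 230) (.e (nat_lit 163902) (nat_lit 12) (.e (nat_lit 426562) (nat_lit 33) .nil))))) (.g (nat_lit 0) (.e (nat_lit 351406) (nat_lit 0) .nil) .nil))) 
(.lf (nat_lit 571350) (.g (nat_lit 2994) (.e (nat_lit 475185) (nat_lit 29) (.e (nat_lit 557100) (nat_lit 13) (.e (nat_lit 172106) (nat_lit 10) (.e (nat_lit 434231) (nat_lit 23) (.e (nat_lit 532483) (nat_lit 0) (.e (nat_lit 6684) (nat_lit 357) (.e (nat_lit 3065) (nat_lit 190) .nil))))))) (.g (nat_lit 1) (.e (nat_lit 352168) (nat_lit 0) .nil) .nil))))))) 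
(.nd (nat_lit 6) (.nd (nat_lit 7) (.nd (nat_lit 8) (.nd (nat_lit 9) 
(.lf (nat_lit 570422) (.g (nat_lit 2418) (.e (nat_lit 475177) (nat_lit 24) (.e (nat_lit 516149) (nat_lit 9) (.e (nat_lit 426323) (nat_lit 13) (.e (nat_lit 483365) (nat_lit 18) (.e (nat_lit 57688) (nat_lit 156) (.e (nat_lit 163937) (nat_lit 18) .nil)))))) (.g (nat_lit 1) (.e (nat_lit 350797) (nat_lit 0) .nil) .nil))) 
(.lf (nat_lit 570934) (.g (nat_lit 2264) (.e (nat_lit 475179) (nat_lit 24) (.e (nat_lit 516146) (nat_lit 9) (.e (nat_lit 426434) (nat_lit 18) (.e (nat_lit 98384) (nat_lit 32) (.e (nat_lit 475177) (nat_lit 24) (.e (nat_lit 516181) (nat_lit 15) .nil)))))) (.g (nat_lit 1) (.e (nat_lit 351534) (nat_lit 0) .nil) .nil)))) (.nd (nat_lit 9) 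
(.lf (nat_lit 570678) (.g (nat_lit 2331) (.e (nat_lit 475179) (nat_lit 24) (.e (nat_lit 516115) (nat_lit 1) (.e (nat_lit 164325) (nat_lit 230) (.e (nat_lit 163907) (nat_lit 12) (.e (nat_lit 426481) (nat_lit 27) (.e (nat_lit 336386) (nat_lit 27) (.e (nat_lit 426313) (nat_lit 12) .nil))))))) (.g (nat_lit 1) (.e (nat_lit 351172) (nat_lit 0) .nil) .nil))) 
(.lf (nat_lit 571190) (.g (nat_lit 2853) (.e (nat_lit 475184) (nat_lit 29) (.e (nat_lit 557101) (nat_lit 13) (.e (nat_lit 172097) (nat_lit 9) (.e (nat_lit 426140) (nat_lit 3) (.e (nat_lit 204821) (nat_lit 17) (.e (nat_lit 6680) (nat_lit 357) (.e (nat_lit 3066) (nat_lit 190) .nil))))))) (.g (nat_lit 1) (.e (nat_lit 351991) (nat_lit 0) .nil) .nil))))) (.nd (nat_lit 8) (.nd (nat_lit 9) 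
(.lf (nat_lit 570550) (.g (nat_lit 2208) (.e (nat_lit 475177) (nat_lit 24) (.e (nat_lit 516176) (nat_lit 14) (.e (nat_lit 466954) (nat_lit 11) (.e (nat_lit 335995) (nat_lit 1) (.e (nat_lit 57685) (nat_lit 156) .nil))))) (.g (nat_lit 0) (.e (nat_lit 350982) (nat_lit 0) .nil) .nil))) 
(.lf (nat_lit 571062) (.g (nat_lit 2651) (.e (nat_lit 475183) (nat_lit 29) (.e (nat_lit 557098) (nat_lit 13) (.e (nat_lit 172097) (nat_lit 9) (.e (nat_lit 426140) (nat_lit 3) (.e (nat_lit 204821) (nat_lit 17) (.e (nat_lit 6680) (nat_lit 357) (.e (nat_lit 3066) (nat_lit 190) .nil))))))) (.g (nat_lit 1) (.e (nat_lit 351851) (nat_lit 0) .nil) .nil)))) (.nd (nat_lit 9) 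
(.lf (nat_lit 570806) (.g (nat_lit 1204) (.e (nat_lit 475179) (nat_lit 24) (.e (nat_lit 516120) (nat_lit 1) (.e (nat_lit 164304) (nat_lit 226) (.e (nat_lit 2612) (nat_lit 163) (.e (nat_lit 163964) (nat_lit 25) .nil))))) (.g (nat_lit 0) (.e (nat_lit 351373) (nat_lit 0) .nil) .nil))) 
(.lf (nat_lit 571318) (.g (nat_lit 1659) (.e (nat_lit 475185) (nat_lit 29) (.e (nat_lit 557098) (nat_lit 13) (.e (nat_lit 172115) (nat_lit 10) (.e (nat_lit 434238) (nat_lit 25) .nil)))) (.g (nat_lit 0) (.e (nat_lit 352135) (nat_lit 0) .nil) .nil)))))) (.nd (nat_lit 7) (.nd (nat_lit 8) (.nd (nat_lit 9) 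
(.lf (nat_lit 570486) (.g (nat_lit 1577) (.e (nat_lit 475177) (nat_lit 24) (.e (nat_lit 516174) (nat_lit 14) (.e (nat_lit 466954) (nat_lit 11) (.e (nat_lit 335985) (nat_lit 1) .nil)))) (.g (nat_lit 0) (.e (nat_lit 350896) (nat_lit 0) .nil) .nil))) 
(.lf (nat_lit 570998) (.g (nat_lit 1857) (.e (nat_lit 475179) (nat_lit 24) (.e (nat_lit 516176) (nat_lit 14) (.e (nat_lit 466954) (nat_lit 11) (.e (nat_lit 335985) (nat_lit 1) .nil)))) (.g (nat_lit 0) (.e (nat_lit 351770) (nat_lit 0) .nil) .nil)))) (.nd (nat_lit 9) 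
(.lf (nat_lit 570742) (.g (nat_lit 2200) (.e (nat_lit 475179) (nat_lit 24) (.e (nat_lit 516117) (nat_lit 1) (.e (nat_lit 164332) (nat_lit 230) (.e (nat_lit 163902) (nat_lit 12) (.e (nat_lit 426567) (nat_lit 34) (.e (nat_lit 393293) (nat_lit 26) .nil)))))) (.g (nat_lit 1) (.e (nat_lit 351276) (nat_lit 0) .nil) .nil))) 
(.lf (nat_lit 571254) (.g (nat_lit 2414) (.e (nat_lit 475184) (nat_lit 29) (.e (nat_lit 557109) (nat_lit 15) (.e (nat_lit 188450) (nat_lit 23) (.e (nat_lit 204883) (nat_lit 33) (.e (nat_lit 401451) (nat_lit 12) .nil))))) (.g (nat_lit 0) (.e (nat_lit 352060) (nat_lit 0) .nil) .nil))))) (.nd (nat_lit 8) (.nd (nat_lit 9) 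
(.lf (nat_lit 570614) (.g (nat_lit 3655) (.e (nat_lit 475178) (nat_lit 24) (.e (nat_lit 516117) (nat_lit 1) (.e (nat_lit 164329) (nat_lit 230) (.e (nat_lit 163902) (nat_lit 12) (.e (nat_lit 426566) (nat_lit 34) (.e (nat_lit 393296) (nat_lit 26) .nil)))))) (.g (nat_lit 1) (.e (nat_lit 351076) (nat_lit 0) .nil) .nil))) 
(.lf (nat_lit 571126) (.g (nat_lit 4479) (.e (nat_lit 475183) (nat_lit 29) (.e (nat_lit 557109) (nat_lit 15) (.e (nat_lit 188449) (nat_lit 22) (.e (nat_lit 196626) (nat_lit 9) .nil)))) (.g (nat_lit 0) (.e (nat_lit 351917) (nat_lit 0) .nil) .nil)))) (.nd (nat_lit 9) 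
(.lf (nat_lit 570870) (.g (nat_lit 3664) (.e (nat_lit 475179) (nat_lit 24) (.e (nat_lit 516120) (nat_lit 1) (.e (nat_lit 164330) (nat_lit 230) (.e (nat_lit 163941) (nat_lit 19) (.e (nat_lit 483337) (nat_lit 9) (.e (nat_lit 426313) (nat_lit 12) .nil)))))) (.g (nat_lit 1) (.e (nat_lit 351443) (nat_lit 0) .nil) .nil))) 
(.lf (nat_lit 571382) (.g (nat_lit 3430) (.e (nat_lit 475185) (nat_lit 29) (.e (nat_lit 557100) (nat_lit 13) (.e (nat_lit 172113) (nat_lit 10) (.e (nat_lit 434242) (nat_lit 28) (.e (nat_lit 573474) (nat_lit 12) (.e (nat_lit 57348) (nat_lit 0) (.e (nat_lit 6943) (nat_lit 375) (.e (nat_lit 163938) (nat_lit 18) .nil)))))))) (.g (nat_lit 1) (.e (nat_lit 352200) (nat_lit 0) .nil) .nil))))))))) 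
(.nd (nat_lit 4) (.nd (nat_lit 5) (.nd (nat_lit 6) (.nd (nat_lit 7) (.nd (nat_lit 8) 
(.nd (nat_lit 9) 
(.lf (nat_lit 570382) (.g (nat_lit 2540) (.e (nat_lit 475177) (nat_lit 24) (.e (nat_lit 516129) (nat_lit 3) (.e (nat_lit 221194) (nat_lit 11) (.e (nat_lit 336027) (nat_lit 3) (.e (nat_lit 98354) (nat_lit 26) .nil))))) (.g (nat_lit 0) (.e (nat_lit 350744) (nat_lit 0) .nil) .nil))) 
(.lf (nat_lit 570894) (.g (nat_lit 2243) (.e (nat_lit 475179) (nat_lit 24) (.e (nat_lit 516120) (nat_lit 1) (.e (nat_lit 164332) (nat_lit 230) (.e (nat_lit 163905) (nat_lit 12) (.e (nat_lit 426489) (nat_lit 27) .nil))))) (.g (nat_lit 0) (.e (nat_lit 351476) (nat_lit 0) .nil) .nil)))) (.nd (nat_lit 9) 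
(.lf (nat_lit 570638) (.g (nat_lit 1365) (.e (nat_lit 475178) (nat_lit 24) (.e (nat_lit 516151) (nat_lit 9) (.e (nat_lit 426042) (nat_lit 0) .nil))) (.g (nat_lit 0) (.e (nat_lit 351115) (nat_lit 0) .nil) .nil))) 
(.lf (nat_lit 571150) (.g (nat_lit 2979) (.e (nat_lit 475184) (nat_lit 29) (.e (nat_lit 557098) (nat_lit 13) (.e (nat_lit 172097) (nat_lit 9) (.e (nat_lit 426140) (nat_lit 3) (.e (nat_lit 204821) (nat_lit 17) (.e (nat_lit 6680) (nat_lit 357) (.e (nat_lit 3064) (nat_lit 190) .nil))))))) (.g (nat_lit 1) (.e (nat_lit 351951) (nat_lit 0) .nil) .nil))))) (.nd (nat_lit 8) (.nd (nat_lit 9) 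
(.lf (nat_lit 570510) (.g (nat_lit 2458) (.e (nat_lit 475177) (nat_lit 24) (.e (nat_lit 516174) (nat_lit 14) (.e (nat_lit 466954) (nat_lit 11) (.e (nat_lit 335994) (nat_lit 1) (.e (nat_lit 57688) (nat_lit 156) (.e (nat_lit 163938) (nat_lit 18) .nil)))))) (.g (nat_lit 1) (.e (nat_lit 350929) (nat_lit 0) .nil) .nil))) 
(.lf (nat_lit 571022) (.g (nat_lit 1783) (.e (nat_lit 475179) (nat_lit 24) (.e (nat_lit 516176) (nat_lit 14) (.e (nat_lit 466969) (nat_lit 21) (.e (nat_lit 164183) (nat_lit 154) (.e (nat_lit 65280) (nat_lit 62) .nil))))) (.g (nat_lit 0) (.e (nat_lit 351802) (nat_lit 0) .nil) .nil)))) (.nd (nat_lit 9) 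
(.lf (nat_lit 570766) (.g (nat_lit 327) (.e (nat_lit 475179) (nat_lit 24) (.e (nat_lit 516119) (nat_lit 1) (.e (nat_lit 164325) (nat_lit 230) .nil))) (.g (nat_lit 0) (.e (nat_lit 351310) (nat_lit 0) .nil) .nil))) 
(.lf (nat_lit 571278) (.g (nat_lit 3976) (.e (nat_lit 475184) (nat_lit 29) (.e (nat_lit 557109) (nat_lit 15) (.e (nat_lit 188452) (nat_lit 23) (.e (nat_lit 204884) (nat_lit 33) (.e (nat_lit 401453) (nat_lit 12) .nil))))) (.g (nat_lit 1) (.e (nat_lit 352084) (nat_lit 0) .nil) .nil)))))) (.nd (nat_lit 7) (.nd (nat_lit 8) (.nd (nat_lit 9) 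
(.lf (nat_lit 570446) (.g (nat_lit 2969) (.e (nat_lit 475177) (nat_lit 24) (.e (nat_lit 516150) (nat_lit 9) (.e (nat_lit 426323) (nat_lit 13) (.e (nat_lit 483363) (nat_lit 18) (.e (nat_lit 57692) (nat_lit 156) (.e (nat_lit 163938) (nat_lit 18) .nil)))))) (.g (nat_lit 1) (.e (nat_lit 350831) (nat_lit 0) .nil) .nil))) 
(.lf (nat_lit 570958) (.g (nat_lit 2181) (.e (nat_lit 475179) (nat_lit 24) (.e (nat_lit 516151) (nat_lit 9) (.e (nat_lit 426324) (nat_lit 13) (.e (nat_lit 483363) (nat_lit 18) .nil)))) (.g (nat_lit 0) (.e (nat_lit 351584) (nat_lit 0) .nil) .nil)))) (.nd (nat_lit 9) 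
(.lf (nat_lit 570702) (.g (nat_lit 1456) (.e (nat_lit 475179) (nat_lit 24) (.e (nat_lit 516115) (nat_lit 1) (.e (nat_lit 164327) (nat_lit 230) (.e (nat_lit 163906) (nat_lit 12) .nil)))) (.g (nat_lit 0) (.e (nat_lit 351216) (nat_lit 0) .nil) .nil))) 
(.lf (nat_lit 571214) (.g (nat_lit 2101) (.e (nat_lit 475184) (nat_lit 29) (.e (nat_lit 557107) (nat_lit 15) (.e (nat_lit 188450) (nat_lit 23) (.e (nat_lit 204821) (nat_lit 17) (.e (nat_lit 6680) (nat_lit 357) (.e (nat_lit 3064) (nat_lit 190) .nil)))))) (.g (nat_lit 1) (.e (nat_lit 352020) (nat_lit 0) .nil) .nil))))) (.nd (nat_lit 8) (.nd (nat_lit 9) 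
(.lf (nat_lit 570574) (.g (nat_lit 1891) (.e (nat_lit 475177) (nat_lit 24) (.e (nat_lit 516179) (nat_lit 15) (.e (nat_lit 475179) (nat_lit 24) (.e (nat_lit 516144) (nat_lit 9) .nil)))) (.g (nat_lit 0) (.e (nat_lit 351014) (nat_lit 0) .nil) .nil))) 
(.lf (nat_lit 571086) (.g (nat_lit 2481) (.e (nat_lit 475183) (nat_lit 29) (.e (nat_lit 557101) (nat_lit 13) (.e (nat_lit 172097) (nat_lit 9) (.e (nat_lit 426125) (nat_lit 2) (.e (nat_lit 196661) (nat_lit 12) (.e (nat_lit 57751) (nat_lit 201) (.e (nat_lit 3066) (nat_lit 190) .nil))))))) (.g (nat_lit 1) (.e (nat_lit 351875) (nat_lit 0) .nil) .nil)))) (.nd (nat_lit 9) 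
(.lf (nat_lit 570830) (.g (nat_lit 2790) (.e (nat_lit 475179) (nat_lit 24) (.e (nat_lit 516120) (nat_lit 1) (.e (nat_lit 164330) (nat_lit 230) (.e (nat_lit 163902) (nat_lit 12) (.e (nat_lit 426481) (nat_lit 27) (.e (nat_lit 336385) (nat_lit 27) (.e (nat_lit 426306) (nat_lit 12) .nil))))))) (.g (nat_lit 1) (.e (nat_lit 351398) (nat_lit 0) .nil) .nil))) 
(.lf (nat_lit 571342) (.g (nat_lit 3989) (.e (nat_lit 475185) (nat_lit 29) (.e (nat_lit 557100) (nat_lit 13) (.e (nat_lit 172106) (nat_lit 10) (.e (nat_lit 434231) (nat_lit 23) (.e (nat_lit 532482) (nat_lit 0) (.e (nat_lit 6619) (nat_lit 357) (.e (nat_lit 3071) (nat_lit 190) .nil))))))) (.g (nat_lit 1) (.e (nat_lit 352160) (nat_lit 0) .nil) .nil))))))) 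
(.nd (nat_lit 6) (.nd (nat_lit 7) (.nd (nat_lit 8) (.nd (nat_lit 9) 
(.lf (nat_lit 570414) (.g (nat_lit 2879) (.e (nat_lit 475177) (nat_lit 24) (.e (nat_lit 516149) (nat_lit 9) (.e (nat_lit 426323) (nat_lit 13) (.e (nat_lit 483363) (nat_lit 18) (.e (nat_lit 57691) (nat_lit 156) (.e (nat_lit 163938) (nat_lit 18) .nil)))))) (.g (nat_lit 1) (.e (nat_lit 350788) (nat_lit 0) .nil) .nil))) 
(.lf (nat_lit 570926) (.g (nat_lit 3221) (.e (nat_lit 475179) (nat_lit 24) (.e (nat_lit 516146) (nat_lit 9) (.e (nat_lit 426323) (nat_lit 13) (.e (nat_lit 483365) (nat_lit 18) (.e (nat_lit 57688) (nat_lit 156) (.e (nat_lit 163936) (nat_lit 18) .nil)))))) (.g (nat_lit 1) (.e (nat_lit 351526) (nat_lit 0) .nil) .nil)))) (.nd (nat_lit 9) 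
(.lf (nat_lit 570670) (.g (nat_lit 1252) (.e (nat_lit 475179) (nat_lit 24) (.e (nat_lit 516115) (nat_lit 1) (.e (nat_lit 164325) (nat_lit 230) (.e (nat_lit 163905) (nat_lit 12) .nil)))) (.g (nat_lit 0) (.e (nat_lit 351162) (nat_lit 0) .nil) .nil))) 
(.lf (nat_lit 571182) (.g (nat_lit 3338) (.e (nat_lit 475184) (nat_lit 29) (.e (nat_lit 557101) (nat_lit 13) (.e (nat_lit 172097) (nat_lit 9) (.e (nat_lit 426125) (nat_lit 2) (.e (nat_lit 196661) (nat_lit 12) (.e (nat_lit 57750) (nat_lit 201) (.e (nat_lit 3064) (nat_lit 190) .nil))))))) (.g (nat_lit 1) (.e (nat_lit 351983) (nat_lit 0) .nil) .nil))))) (.nd (nat_lit 8) (.nd (nat_lit 9) 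
(.lf (nat_lit 570542) (.g (nat_lit 2356) (.e (nat_lit 475177) (nat_lit 24) (.e (nat_lit 516176) (nat_lit 14) (.e (nat_lit 466954) (nat_lit 11) (.e (nat_lit 335993) (nat_lit 1) (.e (nat_lit 57691) (nat_lit 156) (.e (nat_lit 163938) (nat_lit 18) .nil)))))) (.g (nat_lit 1) (.e (nat_lit 350972) (nat_lit 0) .nil) .nil))) 
(.lf (nat_lit 571054) (.g (nat_lit 2458) (.e (nat_lit 475183) (nat_lit 29) (.e (nat_lit 557097) (nat_lit 13) (.e (nat_lit 172115) (nat_lit 10) (.e (nat_lit 434231) (nat_lit 23) (.e (nat_lit 532480) (nat_lit 0) .nil))))) (.g (nat_lit 0) (.e (nat_lit 351843) (nat_lit 0) .nil) .nil)))) (.nd (nat_lit 9) 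
(.lf (nat_lit 570798) (.g (nat_lit 1362) (.e (nat_lit 475179) (nat_lit 24) (.e (nat_lit 516119) (nat_lit 1) (.e (nat_lit 164329) (nat_lit 230) (.e (nat_lit 163904) (nat_lit 12) .nil)))) (.g (nat_lit 0) (.e (nat_lit 351361) (nat_lit 0) .nil) .nil))) 
(.lf (nat_lit 571310) (.g (nat_lit 421) (.e (nat_lit 475185) (nat_lit 29) (.e (nat_lit 557098) (nat_lit 13) (.e (nat_lit 172105) (nat_lit 10) .nil))) (.g (nat_lit 0) (.e (nat_lit 352127) (nat_lit 0) .nil) .nil)))))) (.nd (nat_lit 7) (.nd (nat_lit 8) (.nd (nat_lit 9) 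
(.lf (nat_lit 570478) (.g (nat_lit 847) (.e (nat_lit 475177) (nat_lit 24) (.e (nat_lit 516150) (nat_lit 9) (.e (nat_lit 426438) (nat_lit 18) (.e (nat_lit 98386) (nat_lit 32) .nil)))) (.g (nat_lit 0) (.e (nat_lit 350867) (nat_lit 0) .nil) .nil))) 
(.lf (nat_lit 570990) (.g (nat_lit 2695) (.e (nat_lit 475179) (nat_lit 24) (.e (nat_lit 516176) (nat_lit 14) (.e (nat_lit 466950) (nat_lit 11) (.e (nat_lit 335995) (nat_lit 1) (.e (nat_lit 57688) (nat_lit 156) (.e (nat_lit 163939) (nat_lit 18) .nil)))))) (.g (nat_lit 1) (.e (nat_lit 351760) (nat_lit 0) .nil) .nil)))) (.nd (nat_lit 9) 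
(.lf (nat_lit 570734) (.g (nat_lit 1839) (.e (nat_lit 475179) (nat_lit 24) (.e (nat_lit 516117) (nat_lit 1) (.e (nat_lit 164330) (nat_lit 230) (.e (nat_lit 163909) (nat_lit 12) (.e (nat_lit 426501) (nat_lit 27) .nil))))) (.g (nat_lit 0) (.e (nat_lit 351265) (nat_lit 0) .nil) .nil))) 
(.lf (nat_lit 571246) (.g (nat_lit 2918) (.e (nat_lit 475184) (nat_lit 29) (.e (nat_lit 557109) (nat_lit 15) (.e (nat_lit 188449) (nat_lit 22) (.e (nat_lit 196661) (nat_lit 12) (.e (nat_lit 57751) (nat_lit 201) (.e (nat_lit 3064) (nat_lit 190) .nil)))))) (.g (nat_lit 1) (.e (nat_lit 352052) (nat_lit 0) .nil) .nil))))) (.nd (nat_lit 8) (.nd (nat_lit 9) 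
(.lf (nat_lit 570606) (.g (nat_lit 2325) (.e (nat_lit 475178) (nat_lit 24) (.e (nat_lit 516115) (nat_lit 1) (.e (nat_lit 164325) (nat_lit 230) (.e (nat_lit 163906) (nat_lit 12) .nil)))) (.g (nat_lit 0) (.e (nat_lit 351058) (nat_lit 0) .nil) .nil))) 
(.lf (nat_lit 571118) (.g (nat_lit 3653) (.e (nat_lit 475183) (nat_lit 29) (.e (nat_lit 557108) (nat_lit 15) (.e (nat_lit 188452) (nat_lit 23) (.e (nat_lit 204885) (nat_lit 33) (.e (nat_lit 401452) (nat_lit 12) .nil))))) (.g (nat_lit 1) (.e (nat_lit 351909) (nat_lit 0) .nil) .nil)))) (.nd (nat_lit 9) 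
(.lf (nat_lit 570862) (.g (nat_lit 1373) (.e (nat_lit 475179) (nat_lit 24) (.e (nat_lit 516120) (nat_lit 1) (.e (nat_lit 164330) (nat_lit 230) (.e (nat_lit 163915) (nat_lit 12) .nil)))) (.g (nat_lit 0) (.e (nat_lit 351433) (nat_lit 0) .nil) .nil))) 
(.lf (nat_lit 571374) (.g (nat_lit 3890) (.e (nat_lit 475185) (nat_lit 29) (.e (nat_lit 557100) (nat_lit 13) (.e (nat_lit 172106) (nat_lit 10) (.e (nat_lit 434244) (nat_lit 28) (.e (nat_lit 573458) (nat_lit 9) (.e (nat_lit 426) (nat_lit 32) (.e (nat_lit 426313) (nat_lit 12) .nil))))))) (.g (nat_lit 1) (.e (nat_lit 352192) (nat_lit 0) .nil) .nil)))))))) 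
(.nd (nat_lit 5) (.nd (nat_lit 6) (.nd (nat_lit 7) (.nd (nat_lit 8) (.nd (nat_lit 9) 
(.lf (nat_lit 570398) (.g (nat_lit 2538) (.e (nat_lit 475177) (nat_lit 24) (.e (nat_lit 516146) (nat_lit 9) (.e (nat_lit 426438) (nat_lit 18) (.e (nat_lit 98358) (nat_lit 26) (.e (nat_lit 426362) (nat_lit 15) .nil))))) (.g (nat_lit 0) (.e (nat_lit 350767) (nat_lit 0) .nil) .nil))) 
(.lf (nat_lit 570910) (.g (nat_lit 3447) (.e (nat_lit 475179) (nat_lit 24) (.e (nat_lit 516131) (nat_lit 3) (.e (nat_lit 221190) (nat_lit 11) (.e (nat_lit 336011) (nat_lit 2) (.e (nat_lit 90170) (nat_lit 13) (.e (nat_lit 172120) (nat_lit 12) .nil)))))) (.g (nat_lit 1) (.e (nat_lit 351504) (nat_lit 0) .nil) .nil)))) (.nd (nat_lit 9) 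
(.lf (nat_lit 570654) (.g (nat_lit 4373) (.e (nat_lit 475179) (nat_lit 24) (.e (nat_lit 516115) (nat_lit 1) (.e (nat_lit 164325) (nat_lit 230) (.e (nat_lit 163873) (nat_lit 3) (.e (nat_lit 204838) (nat_lit 20) .nil))))) (.g (nat_lit 0) (.e (nat_lit 351146) (nat_lit 0) .nil) .nil))) 
(.lf (nat_lit 571166) (.g (nat_lit 1885) (.e (nat_lit 475184) (nat_lit 29) (.e (nat_lit 557098) (nat_lit 13) (.e (nat_lit 172115) (nat_lit 10) (.e (nat_lit 434231) (nat_lit 23) (.e (nat_lit 540416) (nat_lit 16) .nil))))) (.g (nat_lit 0) (.e (nat_lit 351967) (nat_lit 0) .nil) .nil))))) (.nd (nat_lit 8) (.nd (nat_lit 9) 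
(.lf (nat_lit 570526) (.g (nat_lit 2530) (.e (nat_lit 475177) (nat_lit 24) (.e (nat_lit 516176) (nat_lit 14) (.e (nat_lit 466954) (nat_lit 11) (.e (nat_lit 335986) (nat_lit 1) (.e (nat_lit 57652) (nat_lit 152) .nil))))) (.g (nat_lit 0) (.e (nat_lit 350950) (nat_lit 0) .nil) .nil))) 
(.lf (nat_lit 571038) (.g (nat_lit 2728) (.e (nat_lit 475179) (nat_lit 24) (.e (nat_lit 516179) (nat_lit 15) (.e (nat_lit 475179) (nat_lit 24) (.e (nat_lit 516146) (nat_lit 9) (.e (nat_lit 433920) (nat_lit 18) .nil))))) (.g (nat_lit 0) (.e (nat_lit 351820) (nat_lit 0) .nil) .nil)))) (.nd (nat_lit 9) 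
(.lf (nat_lit 570782) (.g (nat_lit 2667) (.e (nat_lit 475179) (nat_lit 24) (.e (nat_lit 516119) (nat_lit 1) (.e (nat_lit 164326) (nat_lit 230) (.e (nat_lit 163903) (nat_lit 12) (.e (nat_lit 426479) (nat_lit 27) (.e (nat_lit 336414) (nat_lit 27) (.e (nat_lit 426318) (nat_lit 12) .nil))))))) (.g (nat_lit 1) (.e (nat_lit 351339) (nat_lit 0) .nil) .nil))) 
(.lf (nat_lit 571294) (.g (nat_lit 1164) (.e (nat_lit 475185) (nat_lit 29) (.e (nat_lit 557098) (nat_lit 13) (.e (nat_lit 172085) (nat_lit 9) (.e (nat_lit 426125) (nat_lit 2) .nil)))) (.g (nat_lit 0) (.e (nat_lit 352111) (nat_lit 0) .nil) .nil)))))) (.nd (nat_lit 7) (.nd (nat_lit 8) (.nd (nat_lit 9) 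
(.lf (nat_lit 570462) (.g (nat_lit 2604) (.e (nat_lit 475177) (nat_lit 24) (.e (nat_lit 516150) (nat_lit 9) (.e (nat_lit 426323) (nat_lit 13) (.e (nat_lit 483366) (nat_lit 18) (.e (nat_lit 57688) (nat_lit 156) (.e (nat_lit 163938) (nat_lit 18) .nil)))))) (.g (nat_lit 1) (.e (nat_lit 350849) (nat_lit 0) .nil) .nil))) 
(.lf (nat_lit 570974) (.g (nat_lit 2277) (.e (nat_lit 475179) (nat_lit 24) (.e (nat_lit 516174) (nat_lit 14) (.e (nat_lit 466954) (nat_lit 11) (.e (nat_lit 335987) (nat_lit 1) (.e (nat_lit 57691) (nat_lit 156) (.e (nat_lit 163939) (nat_lit 18) .nil)))))) (.g (nat_lit 1) (.e (nat_lit 351743) (nat_lit 0) .nil) .nil)))) (.nd (nat_lit 9) 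
(.lf (nat_lit 570718) (.g (nat_lit 526) (.e (nat_lit 475179) (nat_lit 24) (.e (nat_lit 516117) (nat_lit 1) (.e (nat_lit 164322) (nat_lit 230) .nil))) (.g (nat_lit 0) (.e (nat_lit 351245) (nat_lit 0) .nil) .nil))) 
(.lf (nat_lit 571230) (.g (nat_lit 2014) (.e (nat_lit 475184) (nat_lit 29) (.e (nat_lit 557109) (nat_lit 15) (.e (nat_lit 188434) (nat_lit 20) (.e (nat_lit 3252) (nat_lit 197) .nil)))) (.g (nat_lit 0) (.e (nat_lit 352036) (nat_lit 0) .nil) .nil))))) (.nd (nat_lit 8) (.nd (nat_lit 9) 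
(.lf (nat_lit 570590) (.g (nat_lit 1782) (.e (nat_lit 475177) (nat_lit 24) (.e (nat_lit 516181) (nat_lit 15) (.e (nat_lit 475177) (nat_lit 24) (.e (nat_lit 516150) (nat_lit 9) (.e (nat_lit 426438) (nat_lit 18) (.e (nat_lit 98385) (nat_lit 32) .nil)))))) (.g (nat_lit 1) (.e (nat_lit 351039) (nat_lit 0) .nil) .nil))) 
(.lf (nat_lit 571102) (.g (nat_lit 3131) (.e (nat_lit 475183) (nat_lit 29) (.e (nat_lit 557107) (nat_lit 15) (.e (nat_lit 188452) (nat_lit 23) (.e (nat_lit 204885) (nat_lit 33) (.e (nat_lit 401450) (nat_lit 12) .nil))))) (.g (nat_lit 0) (.e (nat_lit 351893) (nat_lit 0) .nil) .nil)))) (.nd (nat_lit 9) 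
(.lf (nat_lit 570846) (.g (nat_lit 2372) (.e (nat_lit 475179) (nat_lit 24) (.e (nat_lit 516120) (nat_lit 1) (.e (nat_lit 164330) (nat_lit 230) (.e (nat_lit 163905) (nat_lit 12) (.e (nat_lit 426478) (nat_lit 27) .nil))))) (.g (nat_lit 0) (.e (nat_lit 351414) (nat_lit 0) .nil) .nil))) 
(.lf (nat_lit 571358) (.g (nat_lit 2854) (.e (nat_lit 475185) (nat_lit 29) (.e (nat_lit 557100) (nat_lit 13) (.e (nat_lit 172106) (nat_lit 10) (.e (nat_lit 434231) (nat_lit 23) (.e (nat_lit 532490) (nat_lit 0) (.e (nat_lit 7936) (nat_lit 357) (.e (nat_lit 3058) (nat_lit 190) .nil))))))) (.g (nat_lit 1) (.e (nat_lit 352176) (nat_lit 0) .nil) .nil))))))) 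
(.nd (nat_lit 6) (.nd (nat_lit 7) (.nd (nat_lit 8) (.nd (nat_lit 9) 
(.lf (nat_lit 570430) (.g (nat_lit 1306) (.e (nat_lit 475177) (nat_lit 24) (.e (nat_lit 516150) (nat_lit 9) (.e (nat_lit 426131) (nat_lit 3) (.e (nat_lit 204837) (nat_lit 20) .nil)))) (.g (nat_lit 0) (.e (nat_lit 350805) (nat_lit 0) .nil) .nil))) 
(.lf (nat_lit 570942) (.g (nat_lit 3866) (.e (nat_lit 475179) (nat_lit 24) (.e (nat_lit 516150) (nat_lit 9) (.e (nat_lit 426131) (nat_lit 3) (.e (nat_lit 204837) (nat_lit 20) (.e (nat_lit 122624) (nat_lit 3) (.e (nat_lit 212736) (nat_lit 15) .nil)))))) (.g (nat_lit 1) (.e (nat_lit 351557) (nat_lit 0) .nil) .nil)))) (.nd (nat_lit 9) 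
(.lf (nat_lit 570686) (.g (nat_lit 2541) (.e (nat_lit 475179) (nat_lit 24) (.e (nat_lit 516115) (nat_lit 1) (.e (nat_lit 164325) (nat_lit 230) (.e (nat_lit 163907) (nat_lit 12) (.e (nat_lit 426567) (nat_lit 34) (.e (nat_lit 393290) (nat_lit 26) .nil)))))) (.g (nat_lit 1) (.e (nat_lit 351181) (nat_lit 0) .nil) .nil))) 
(.lf (nat_lit 571198) (.g (nat_lit 1853) (.e (nat_lit 475184) (nat_lit 29) (.e (nat_lit 557101) (nat_lit 13) (.e (nat_lit 172115) (nat_lit 10) (.e (nat_lit 434244) (nat_lit 28) (.e (nat_lit 573469) (nat_lit 11) .nil))))) (.g (nat_lit 0) (.e (nat_lit 351999) (nat_lit 0) .nil) .nil))))) (.nd (nat_lit 8) (.nd (nat_lit 9) 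
(.lf (nat_lit 570558) (.g (nat_lit 2048) (.e (nat_lit 475177) (nat_lit 24) (.e (nat_lit 516176) (nat_lit 14) (.e (nat_lit 466954) (nat_lit 11) (.e (nat_lit 335996) (nat_lit 1) (.e (nat_lit 57685) (nat_lit 156) .nil))))) (.g (nat_lit 0) (.e (nat_lit 350990) (nat_lit 0) .nil) .nil))) 
(.lf (nat_lit 571070) (.g (nat_lit 1799) (.e (nat_lit 475183) (nat_lit 29) (.e (nat_lit 557100) (nat_lit 13) (.e (nat_lit 172106) (nat_lit 10) (.e (nat_lit 434231) (nat_lit 23) (.e (nat_lit 532483) (nat_lit 0) .nil))))) (.g (nat_lit 0) (.e (nat_lit 351859) (nat_lit 0) .nil) .nil)))) (.nd (nat_lit 9) 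
(.lf (nat_lit 570814) (.g (nat_lit 1246) (.e (nat_lit 475179) (nat_lit 24) (.e (nat_lit 516120) (nat_lit 1) (.e (nat_lit 164329) (nat_lit 230) (.e (nat_lit 163902) (nat_lit 12) (.e (nat_lit 426479) (nat_lit 27) .nil))))) (.g (nat_lit 0) (.e (nat_lit 351382) (nat_lit 0) .nil) .nil))) 
(.lf (nat_lit 571326) (.g (nat_lit 604) (.e (nat_lit 475185) (nat_lit 29) (.e (nat_lit 557100) (nat_lit 13) (.e (nat_lit 172042) (nat_lit 0) .nil))) (.g (nat_lit 0) (.e (nat_lit 352144) (nat_lit 0) .nil) .nil)))))) (.nd (nat_lit 7) (.nd (nat_lit 8) (.nd (nat_lit 9) 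
(.lf (nat_lit 570494) (.g (nat_lit 1861) (.e (nat_lit 475177) (nat_lit 24) (.e (nat_lit 516174) (nat_lit 14) (.e (nat_lit 466954) (nat_lit 11) (.e (nat_lit 335986) (nat_lit 1) (.e (nat_lit 57687) (nat_lit 156) .nil))))) (.g (nat_lit 0) (.e (nat_lit 350908) (nat_lit 0) .nil) .nil))) 
(.lf (nat_lit 571006) (.g (nat_lit 2769) (.e (nat_lit 475179) (nat_lit 24) (.e (nat_lit 516176) (nat_lit 14) (.e (nat_lit 466954) (nat_lit 11) (.e (nat_lit 335986) (nat_lit 1) (.e (nat_lit 57665) (nat_lit 152) .nil))))) (.g (nat_lit 0) (.e (nat_lit 351778) (nat_lit 0) .nil) .nil)))) (.nd (nat_lit 9) 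
(.lf (nat_lit 570750) (.g (nat_lit 2653) (.e (nat_lit 475179) (nat_lit 24) (.e (nat_lit 516117) (nat_lit 1) (.e (nat_lit 164332) (nat_lit 230) (.e (nat_lit 163905) (nat_lit 12) (.e (nat_lit 426489) (nat_lit 27) (.e (nat_lit 336407) (nat_lit 27) (.e (nat_lit 426306) (nat_lit 12) .nil))))))) (.g (nat_lit 1) (.e (nat_lit 351284) (nat_lit 0) .nil) .nil))) 
(.lf (nat_lit 571262) (.g (nat_lit 4157) (.e (nat_lit 475184) (nat_lit 29) (.e (nat_lit 557109) (nat_lit 15) (.e (nat_lit 188452) (nat_lit 23) (.e (nat_lit 204816) (nat_lit 17) (.e (nat_lit 6643) (nat_lit 357) (.e (nat_lit 3064) (nat_lit 190) .nil)))))) (.g (nat_lit 1) (.e (nat_lit 352068) (nat_lit 0) .nil) .nil))))) (.nd (nat_lit 8) (.nd (nat_lit 9) 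
(.lf (nat_lit 570622) (.g (nat_lit 2381) (.e (nat_lit 475178) (nat_lit 24) (.e (nat_lit 516119) (nat_lit 1) (.e (nat_lit 164326) (nat_lit 230) (.e (nat_lit 163907) (nat_lit 12) (.e (nat_lit 426566) (nat_lit 34) .nil))))) (.g (nat_lit 0) (.e (nat_lit 351087) (nat_lit 0) .nil) .nil))) 
(.lf (nat_lit 571134) (.g (nat_lit 3571) (.e (nat_lit 475183) (nat_lit 29) (.e (nat_lit 557109) (nat_lit 15) (.e (nat_lit 188450) (nat_lit 23) (.e (nat_lit 204885) (nat_lit 33) (.e (nat_lit 401450) (nat_lit 12) .nil))))) (.g (nat_lit 0) (.e (nat_lit 351925) (nat_lit 0) .nil) .nil)))) (.nd (nat_lit 9) 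
(.lf (nat_lit 570878) (.g (nat_lit 360) (.e (nat_lit 475179) (nat_lit 24) (.e (nat_lit 516120) (nat_lit 1) (.e (nat_lit 164332) (nat_lit 230) .nil))) (.g (nat_lit 0) (.e (nat_lit 351460) (nat_lit 0) .nil) .nil))) 
(.lf (nat_lit 571390) (.g (nat_lit 3819) (.e (nat_lit 475185) (nat_lit 29) (.e (nat_lit 557100) (nat_lit 13) (.e (nat_lit 172113) (nat_lit 10) (.e (nat_lit 434245) (nat_lit 28) (.e (nat_lit 573471) (nat_lit 11) (.e (nat_lit 16457) (nat_lit 12) .nil)))))) (.g (nat_lit 1) (.e (nat_lit 352208) (nat_lit 0) .nil) .nil)))))))))))) 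
(.nd (nat_lit 1) (.nd (nat_lit 2) (.nd (nat_lit 3) (.nd (nat_lit 4) (.nd (nat_lit 5) 
(.nd (nat_lit 6) (.nd (nat_lit 7) (.nd (nat_lit 8) (.nd (nat_lit 9) 
(.lf (nat_lit 570369) (.g (nat_lit 2346) (.e (nat_lit 475177) (nat_lit 24) (.e (nat_lit 516124) (nat_lit 2) (.e (nat_lit 213032) (nat_lit 11) (.e (nat_lit 24608) (nat_lit 3) (.e (nat_lit 98363) (nat_lit 26) (.e (nat_lit 426318) (nat_lit 12) .nil)))))) (.g (nat_lit 1) (.e (nat_lit 350731) (nat_lit 0) .nil) .nil))) 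
(.lf (nat_lit 570881) (.g (nat_lit 834) (.e (nat_lit 475179) (nat_lit 24) (.e (nat_lit 516120) (nat_lit 1) (.e (nat_lit 164332) (nat_lit 230) (.e (nat_lit 163902) (nat_lit 12) .nil)))) (.g (nat_lit 0) (.e (nat_lit 351463) (nat_lit 0) .nil) .nil)))) (.nd (nat_lit 9) 
(.lf (nat_lit 570625) (.g (nat_lit 1562) (.e (nat_lit 475178) (nat_lit 24) (.e (nat_lit 516120) (nat_lit 1) (.e (nat_lit 164329) (nat_lit 230) (.e (nat_lit 163902) (nat_lit 12) (.e (nat_lit 426478) (nat_lit 27) .nil))))) (.g (nat_lit 0) (.e (nat_lit 351093) (nat_lit 0) .nil) .nil))) 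
(.lf (nat_lit 571137) (.g (nat_lit 2092) (.e (nat_lit 475183) (nat_lit 29) (.e (nat_lit 557109) (nat_lit 15) (.e (nat_lit 188452) (nat_lit 23) (.e (nat_lit 204883) (nat_lit 33) .nil)))) (.g (nat_lit 0) (.e (nat_lit 351928) (nat_lit 0) .nil) .nil))))) (.nd (nat_lit 8) (.nd (nat_lit 9) 
(.lf (nat_lit 570497) (.g (nat_lit 2521) (.e (nat_lit 475177) (nat_lit 24) (.e (nat_lit 516174) (nat_lit 14) (.e (nat_lit 466954) (nat_lit 11) (.e (nat_lit 335987) (nat_lit 1) (.e (nat_lit 57691) (nat_lit 156) (.e (nat_lit 163939) (nat_lit 18) .nil)))))) (.g (nat_lit 1) (.e (nat_lit 350911) (nat_lit 0) .nil) .nil))) 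
(.lf (nat_lit 571009) (.g (nat_lit 1250) (.e (nat_lit 475179) (nat_lit 24) (.e (nat_lit 516176) (nat_lit 14) (.e (nat_lit 466954) (nat_lit 11) (.e (nat_lit 335988) (nat_lit 1) .nil)))) (.g (nat_lit 0) (.e (nat_lit 351786) (nat_lit 0) .nil) .nil)))) (.nd (nat_lit 9) 
(.lf (nat_lit 570753) (.g (nat_lit 1190) (.e (nat_lit 475179) (nat_lit 24) (.e (nat_lit 516117) (nat_lit 1) (.e (nat_lit 164332) (nat_lit 230) (.e (nat_lit 163905) (nat_lit 12) (.e (nat_lit 426568) (nat_lit 34) .nil))))) (.g (nat_lit 0) (.e (nat_lit 351287) (nat_lit 0) .nil) .nil))) 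
(.lf (nat_lit 571265) (.g (nat_lit 4417) (.e (nat_lit 475184) (nat_lit 29) (.e (nat_lit 557109) (nat_lit 15) (.e (nat_lit 188452) (nat_lit 23) (.e (nat_lit 204820) (nat_lit 17) .nil)))) (.g (nat_lit 0) (.e (nat_lit 352071) (nat_lit 0) .nil) .nil)))))) (.nd (nat_lit 7) (.nd (nat_lit 8) (.nd (nat_lit 9) 
(.lf (nat_lit 570433) (.g (nat_lit 2742) (.e (nat_lit 475177) (nat_lit 24) (.e (nat_lit 516150) (nat_lit 9) (.e (nat_lit 426131) (nat_lit 3) (.e (nat_lit 204837) (nat_lit 20) (.e (nat_lit 114689) (nat_lit 0) (.e (nat_lit 3249) (nat_lit 197) (.e (nat_lit 540416) (nat_lit 32) .nil))))))) (.g (nat_lit 1) (.e (nat_lit 350809) (nat_lit 0) .nil) .nil))) 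
(.lf (nat_lit 570945) (.g (nat_lit 423) (.e (nat_lit 475179) (nat_lit 24) (.e (nat_lit 516150) (nat_lit 9) (.e (nat_lit 426323) (nat_lit 13) .nil))) (.g (nat_lit 0) (.e (nat_lit 351563) (nat_lit 0) .nil) .nil)))) (.nd (nat_lit 9) 
(.lf (nat_lit 570689) (.g (nat_lit 3308) (.e (nat_lit 475179) (nat_lit 24) (.e (nat_lit 516115) (nat_lit 1) (.e (nat_lit 164325) (nat_lit 230) (.e (nat_lit 163936) (nat_lit 18) (.e (nat_lit 483072) (nat_lit 10) (.e (nat_lit 16461) (nat_lit 12) .nil)))))) (.g (nat_lit 1) (.e (nat_lit 351184) (nat_lit 0) .nil) .nil))) 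
(.lf (nat_lit 571201) (.g (nat_lit 2629) (.e (nat_lit 475184) (nat_lit 29) (.e (nat_lit 557107) (nat_lit 15) (.e (nat_lit 188440) (nat_lit 20) (.e (nat_lit 3307) (nat_lit 202) (.e (nat_lit 573469) (nat_lit 11) (.e (nat_lit 16458) (nat_lit 12) .nil)))))) (.g (nat_lit 1) (.e (nat_lit 352007) (nat_lit 0) .nil) .nil))))) (.nd (nat_lit 8) (.nd (nat_lit 9) 
(.lf (nat_lit 570561) (.g (nat_lit 1587) (.e (nat_lit 475177) (nat_lit 24) (.e (nat_lit 516176) (nat_lit 14) (.e (nat_lit 466969) (nat_lit 21) (.e (nat_lit 164179) (nat_lit 154) .nil)))) (.g (nat_lit 0) (.e (nat_lit 350997) (nat_lit 0) .nil) .nil))) 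
(.lf (nat_lit 571073) (.g (nat_lit 4077) (.e (nat_lit 475183) (nat_lit 29) (.e (nat_lit 557100) (nat_lit 13) (.e (nat_lit 172106) (nat_lit 10) (.e (nat_lit 434244) (nat_lit 28) (.e (nat_lit 573458) (nat_lit 9) (.e (nat_lit 426) (nat_lit 32) (.e (nat_lit 426306) (nat_lit 12) .nil))))))) (.g (nat_lit 1) (.e (nat_lit 351862) (nat_lit 0) .nil) .nil)))) (.nd (nat_lit 9) 
(.lf (nat_lit 570817) (.g (nat_lit 1624) (.e (nat_lit 475179) (nat_lit 24) (.e (nat_lit 516120) (nat_lit 1) (.e (nat_lit 164329) (nat_lit 230) (.e (nat_lit 163936) (nat_lit 18) .nil)))) (.g (nat_lit 0) (.e (nat_lit 351385) (nat_lit 0) .nil) .nil))) 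
(.lf (nat_lit 571329) (.g (nat_lit 419) (.e (nat_lit 475185) (nat_lit 29) (.e (nat_lit 557100) (nat_lit 13) (.e (nat_lit 172082) (nat_lit 7) .nil))) (.g (nat_lit 0) (.e (nat_lit 352147) (nat_lit 0) .nil) .nil))))))) (.nd (nat_lit 6) (.nd (nat_lit 7) (.nd (nat_lit 8) (.nd (nat_lit 9) 
(.lf (nat_lit 570401) (.g (nat_lit 2537) (.e (nat_lit 475177) (nat_lit 24) (.e (nat_lit 516146) (nat_lit 9) (.e (nat_lit 426438) (nat_lit 18) (.e (nat_lit 98358) (nat_lit 26) (.e (nat_lit 426375) (nat_lit 15) .nil))))) (.g (nat_lit 0) (.e (nat_lit 350770) (nat_lit 0) .nil) .nil))) 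
(.lf (nat_lit 570913) (.g (nat_lit 1329) (.e (nat_lit 475179) (nat_lit 24) (.e (nat_lit 516131) (nat_lit 3) (.e (nat_lit 221208) (nat_lit 21) (.e (nat_lit 164183) (nat_lit 154) (.e (nat_lit 57373) (nat_lit 2) .nil))))) (.g (nat_lit 0) (.e (nat_lit 351510) (nat_lit 0) .nil) .nil)))) (.nd (nat_lit 9) 
(.lf (nat_lit 570657) (.g (nat_lit 3391) (.e (nat_lit 475179) (nat_lit 24) (.e (nat_lit 516115) (nat_lit 1) (.e (nat_lit 164325) (nat_lit 230) (.e (nat_lit 163874) (nat_lit 3) (.e (nat_lit 204838) (nat_lit 20) .nil))))) (.g (nat_lit 0) (.e (nat_lit 351149) (nat_lit 0) .nil) .nil))) 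
(.lf (nat_lit 571169) (.g (nat_lit 843) (.e (nat_lit 475184) (nat_lit 29) (.e (nat_lit 557098) (nat_lit 13) (.e (nat_lit 172120) (nat_lit 12) .nil))) (.g (nat_lit 0) (.e (nat_lit 351970) (nat_lit 0) .nil) .nil))))) (.nd (nat_lit 8) (.nd (nat_lit 9) 
(.lf (nat_lit 570529) (.g (nat_lit 2468) (.e (nat_lit 475177) (nat_lit 24) (.e (nat_lit 516176) (nat_lit 14) (.e (nat_lit 466954) (nat_lit 11) (.e (nat_lit 335986) (nat_lit 1) (.e (nat_lit 57655) (nat_lit 152) (.e (nat_lit 2504) (nat_lit 157) (.e (nat_lit 3067) (nat_lit 190) .nil))))))) (.g (nat_lit 1) (.e (nat_lit 350954) (nat_lit 0) .nil) .nil))) 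
(.lf (nat_lit 571041) (.g (nat_lit 2803) (.e (nat_lit 475179) (nat_lit 24) (.e (nat_lit 516179) (nat_lit 15) (.e (nat_lit 475179) (nat_lit 24) (.e (nat_lit 516179) (nat_lit 15) (.e (nat_lit 475177) (nat_lit 24) (.e (nat_lit 516182) (nat_lit 15) .nil)))))) (.g (nat_lit 1) (.e (nat_lit 351823) (nat_lit 0) .nil) .nil)))) (.nd (nat_lit 9) 
(.lf (nat_lit 570785) (.g (nat_lit 3369) (.e (nat_lit 475179) (nat_lit 24) (.e (nat_lit 516119) (nat_lit 1) (.e (nat_lit 164326) (nat_lit 230) (.e (nat_lit 163903) (nat_lit 12) (.e (nat_lit 426568) (nat_lit 34) (.e (nat_lit 393292) (nat_lit 26) .nil)))))) (.g (nat_lit 1) (.e (nat_lit 351343) (nat_lit 0) .nil) .nil))) 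
(.lf (nat_lit 571297) (.g (nat_lit 955) (.e (nat_lit 475185) (nat_lit 29) (.e (nat_lit 557098) (nat_lit 13) (.e (nat_lit 172091) (nat_lit 9) .nil))) (.g (nat_lit 0) (.e (nat_lit 352114) (nat_lit 0) .nil) .nil)))))) (.nd (nat_lit 7) (.nd (nat_lit 8) (.nd (nat_lit 9) 
(.lf (nat_lit 570465) (.g (nat_lit 628) (.e (nat_lit 475177) (nat_lit 24) (.e (nat_lit 516150) (nat_lit 9) (.e (nat_lit 426427) (nat_lit 17) .nil))) (.g (nat_lit 0) (.e (nat_lit 350853) (nat_lit 0) .nil) .nil))) 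
(.lf (nat_lit 570977) (.g (nat_lit 1175) (.e (nat_lit 475179) (nat_lit 24) (.e (nat_lit 516174) (nat_lit 14) (.e (nat_lit 466954) (nat_lit 11) (.e (nat_lit 335988) (nat_lit 1) .nil)))) (.g (nat_lit 0) (.e (nat_lit 351746) (nat_lit 0) .nil) .nil)))) (.nd (nat_lit 9) 
(.lf (nat_lit 570721) (.g (nat_lit 915) (.e (nat_lit 475179) (nat_lit 24) (.e (nat_lit 516117) (nat_lit 1) (.e (nat_lit 164329) (nat_lit 230) (.e (nat_lit 163902) (nat_lit 12) .nil)))) (.g (nat_lit 0) (.e (nat_lit 351251) (nat_lit 0) .nil) .nil))) 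
(.lf (nat_lit 571233) (.g (nat_lit 2479) (.e (nat_lit 475184) (nat_lit 29) (.e (nat_lit 557109) (nat_lit 15) (.e (nat_lit 188441) (nat_lit 20) (.e (nat_lit 3272) (nat_lit 199) (.e (nat_lit 548902) (nat_lit 14) .nil))))) (.g (nat_lit 0) (.e (nat_lit 352039) (nat_lit 0) .nil) .nil))))) (.nd (nat_lit 8) (.nd (nat_lit 9) 
(.lf (nat_lit 570593) (.g (nat_lit 2277) (.e (nat_lit 475177) (nat_lit 24) (.e (nat_lit 516181) (nat_lit 15) (.e (nat_lit 475177) (nat_lit 24) (.e (nat_lit 516181) (nat_lit 15) (.e (nat_lit 475179) (nat_lit 24) (.e (nat_lit 516182) (nat_lit 15) .nil)))))) (.g (nat_lit 1) (.e (nat_lit 351044) (nat_lit 0) .nil) .nil))) 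
(.lf (nat_lit 571105) (.g (nat_lit 4280) (.e (nat_lit 475183) (nat_lit 29) (.e (nat_lit 557108) (nat_lit 15) (.e (nat_lit 188449) (nat_lit 22) (.e (nat_lit 196623) (nat_lit 9) .nil)))) (.g (nat_lit 0) (.e (nat_lit 351896) (nat_lit 0) .nil) .nil)))) (.nd (nat_lit 9) 
(.lf (nat_lit 570849) (.g (nat_lit 2804) (.e (nat_lit 475179) (nat_lit 24) (.e (nat_lit 516120) (nat_lit 1) (.e (nat_lit 164330) (nat_lit 230) (.e (nat_lit 163905) (nat_lit 12) (.e (nat_lit 426487) (nat_lit 27) (.e (nat_lit 336409) (nat_lit 27) (.e (nat_lit 426313) (nat_lit 12) .nil))))))) (.g (nat_lit 1) (.e (nat_lit 351417) (nat_lit 0) .nil) .nil))) 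
(.lf (nat_lit 571361) (.g (nat_lit 3431) (.e (nat_lit 475185) (nat_lit 29) (.e (nat_lit 557100) (nat_lit 13) (.e (nat_lit 172106) (nat_lit 10) (.e (nat_lit 434231) (nat_lit 23) (.e (nat_lit 532490) (nat_lit 0) (.e (nat_lit 7936) (nat_lit 357) (.e (nat_lit 3063) (nat_lit 190) .nil))))))) (.g (nat_lit 1) (.e (nat_lit 352179) (nat_lit 0) .nil) .nil)))))))) 
(.nd (nat_lit 5) (.nd (nat_lit 6) (.nd (nat_lit 7) (.nd (nat_lit 8) (.nd (nat_lit 9) 
(.lf (nat_lit 570385) (.g (nat_lit 688) (.e (nat_lit 475177) (nat_lit 24) (.e (nat_lit 516145) (nat_lit 9) (.e (nat_lit 426428) (nat_lit 17) .nil))) (.g (nat_lit 0) (.e (nat_lit 350751) (nat_lit 0) .nil) .nil))) 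
(.lf (nat_lit 570897) (.g (nat_lit 2476) (.e (nat_lit 475179) (nat_lit 24) (.e (nat_lit 516120) (nat_lit 1) (.e (nat_lit 164332) (nat_lit 230) (.e (nat_lit 163905) (nat_lit 12) (.e (nat_lit 426489) (nat_lit 27) (.e (nat_lit 336407) (nat_lit 27) (.e (nat_lit 426306) (nat_lit 12) .nil))))))) (.g (nat_lit 1) (.e (nat_lit 351479) (nat_lit 0) .nil) .nil)))) (.nd (nat_lit 9) 
(.lf (nat_lit 570641) (.g (nat_lit 742) (.e (nat_lit 475178) (nat_lit 24) (.e (nat_lit 516174) (nat_lit 14) (.e (nat_lit 466954) (nat_lit 11) .nil))) (.g (nat_lit 0) (.e (nat_lit 351129) (nat_lit 0) .nil) .nil))) 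
(.lf (nat_lit 571153) (.g (nat_lit 1794) (.e (nat_lit 475184) (nat_lit 29) (.e (nat_lit 557098) (nat_lit 13) (.e (nat_lit 172097) (nat_lit 9) (.e (nat_lit 426140) (nat_lit 3) (.e (nat_lit 212736) (nat_lit 33) .nil))))) (.g (nat_lit 0) (.e (nat_lit 351954) (nat_lit 0) .nil) .nil))))) (.nd (nat_lit 8) (.nd (nat_lit 9) 
(.lf (nat_lit 570513) (.g (nat_lit 3002) (.e (nat_lit 475177) (nat_lit 24) (.e (nat_lit 516174) (nat_lit 14) (.e (nat_lit 466954) (nat_lit 11) (.e (nat_lit 335995) (nat_lit 1) (.e (nat_lit 57686) (nat_lit 156) (.e (nat_lit 163936) (nat_lit 18) .nil)))))) (.g (nat_lit 1) (.e (nat_lit 350933) (nat_lit 0) .nil) .nil))) 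
(.lf (nat_lit 571025) (.g (nat_lit 1719) (.e (nat_lit 475179) (nat_lit 24) (.e (nat_lit 516176) (nat_lit 14) (.e (nat_lit 466972) (nat_lit 21) (.e (nat_lit 164183) (nat_lit 154) (.e (nat_lit 65280) (nat_lit 62) .nil))))) (.g (nat_lit 0) (.e (nat_lit 351807) (nat_lit 0) .nil) .nil)))) (.nd (nat_lit 9) 
(.lf (nat_lit 570769) (.g (nat_lit 2681) (.e (nat_lit 475179) (nat_lit 24) (.e (nat_lit 516119) (nat_lit 1) (.e (nat_lit 164325) (nat_lit 230) (.e (nat_lit 163903) (nat_lit 12) (.e (nat_lit 426564) (nat_lit 34) .nil))))) (.g (nat_lit 0) (.e (nat_lit 351314) (nat_lit 0) .nil) .nil))) 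
(.lf (nat_lit 571281) (.g (nat_lit 398) (.e (nat_lit 475185) (nat_lit 29) (.e (nat_lit 557091) (nat_lit 12) (.e (nat_lit 164030) (nat_lit 53) .nil))) (.g (nat_lit 0) (.e (nat_lit 352094) (nat_lit 0) .nil) .nil)))))) (.nd (nat_lit 7) (.nd (nat_lit 8) (.nd (nat_lit 9) 
(.lf (nat_lit 570449) (.g (nat_lit 1721) (.e (nat_lit 475177) (nat_lit 24) (.e (nat_lit 516150) (nat_lit 9) (.e (nat_lit 426323) (nat_lit 13) (.e (nat_lit 483364) (nat_lit 18) (.e (nat_lit 57689) (nat_lit 156) .nil))))) (.g (nat_lit 0) (.e (nat_lit 350835) (nat_lit 0) .nil) .nil))) 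
(.lf (nat_lit 570961) (.g (nat_lit 2787) (.e (nat_lit 475179) (nat_lit 24) (.e (nat_lit 516161) (nat_lit 10) (.e (nat_lit 434247) (nat_lit 28) (.e (nat_lit 573484) (nat_lit 13) (.e (nat_lit 65642) (nat_lit 15) (.e (nat_lit 7936) (nat_lit 195) (.e (nat_lit 516179) (nat_lit 15) .nil))))))) (.g (nat_lit 1) (.e (nat_lit 351654) (nat_lit 0) .nil) .nil)))) (.nd (nat_lit 9) 
(.lf (nat_lit 570705) (.g (nat_lit 732) (.e (nat_lit 475179) (nat_lit 24) (.e (nat_lit 516115) (nat_lit 1) (.e (nat_lit 164330) (nat_lit 230) .nil))) (.g (nat_lit 0) (.e (nat_lit 351221) (nat_lit 0) .nil) .nil))) 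
(.lf (nat_lit 571217) (.g (nat_lit 612) (.e (nat_lit 475184) (nat_lit 29) (.e (nat_lit 557107) (nat_lit 15) (.e (nat_lit 188451) (nat_lit 23) .nil))) (.g (nat_lit 0) (.e (nat_lit 352023) (nat_lit 0) .nil) .nil))))) (.nd (nat_lit 8) (.nd (nat_lit 9) 
(.lf (nat_lit 570577) (.g (nat_lit 2596) (.e (nat_lit 475177) (nat_lit 24) (.e (nat_lit 516179) (nat_lit 15) (.e (nat_lit 475179) (nat_lit 24) (.e (nat_lit 516146) (nat_lit 9) (.e (nat_lit 426434) (nat_lit 18) .nil))))) (.g (nat_lit 0) (.e (nat_lit 351017) (nat_lit 0) .nil) .nil))) 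
(.lf (nat_lit 571089) (.g (nat_lit 806) (.e (nat_lit 475183) (nat_lit 29) (.e (nat_lit 557103) (nat_lit 14) (.e (nat_lit 180287) (nat_lit 45) .nil))) (.g (nat_lit 0) (.e (nat_lit 351878) (nat_lit 0) .nil) .nil)))) (.nd (nat_lit 9) 
(.lf (nat_lit 570833) (.g (nat_lit 2953) (.e (nat_lit 475179) (nat_lit 24) (.e (nat_lit 516120) (nat_lit 1) (.e (nat_lit 164330) (nat_lit 230) (.e (nat_lit 163902) (nat_lit 12) (.e (nat_lit 426489) (nat_lit 27) (.e (nat_lit 336406) (nat_lit 27) (.e (nat_lit 426306) (nat_lit 12) .nil))))))) (.g (nat_lit 1) (.e (nat_lit 351401) (nat_lit 0) .nil) .nil))) 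
(.lf (nat_lit 571345) (.g (nat_lit 2083) (.e (nat_lit 475185) (nat_lit 29) (.e (nat_lit 557100) (nat_lit 13) (.e (nat_lit 172106) (nat_lit 10) (.e (nat_lit 434231) (nat_lit 23) (.e (nat_lit 532482) (nat_lit 0) (.e (nat_lit 7936) (nat_lit 357) (.e (nat_lit 3071) (nat_lit 190) .nil))))))) (.g (nat_lit 1) (.e (nat_lit 352163) (nat_lit 0) .nil) .nil))))))) 
(.nd (nat_lit 6) (.nd (nat_lit 7) (.nd (nat_lit 8) (.nd (nat_lit 9) 
(.lf (nat_lit 570417) (.g (nat_lit 2419) (.e (nat_lit 475177) (nat_lit 24) (.e (nat_lit 516149) (nat_lit 9) (.e (nat_lit 426323) (nat_lit 13) (.e (nat_lit 483363) (nat_lit 18) (.e (nat_lit 57692) (nat_lit 156) (.e (nat_lit 163939) (nat_lit 18) .nil)))))) (.g (nat_lit 1) (.e (nat_lit 350791) (nat_lit 0) .nil) .nil))) 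
(.lf (nat_lit 570929) (.g (nat_lit 3137) (.e (nat_lit 475179) (nat_lit 24) (.e (nat_lit 516146) (nat_lit 9) (.e (nat_lit 426323) (nat_lit 13) (.e (nat_lit 483365) (nat_lit 18) (.e (nat_lit 57691) (nat_lit 156) (.e (nat_lit 163939) (nat_lit 18) .nil)))))) (.g (nat_lit 1) (.e (nat_lit 351529) (nat_lit 0) .nil) .nil)))) (.nd (nat_lit 9) 
(.lf (nat_lit 570673) (.g (nat_lit 1579) (.e (nat_lit 475179) (nat_lit 24) (.e (nat_lit 516115) (nat_lit 1) (.e (nat_lit 164325) (nat_lit 230) (.e (nat_lit 163906) (nat_lit 12) .nil)))) (.g (nat_lit 0) (.e (nat_lit 351166) (nat_lit 0) .nil) .nil))) 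
(.lf (nat_lit 571185) (.g (nat_lit 1961) (.e (nat_lit 475184) (nat_lit 29) (.e (nat_lit 557101) (nat_lit 13) (.e (nat_lit 172097) (nat_lit 9) (.e (nat_lit 426125) (nat_lit 2) (.e (nat_lit 196661) (nat_lit 12) (.e (nat_lit 57751) (nat_lit 201) (.e (nat_lit 3065) (nat_lit 190) .nil))))))) (.g (nat_lit 1) (.e (nat_lit 351986) (nat_lit 0) .nil) .nil))))) (.nd (nat_lit 8) (.nd (nat_lit 9) 
(.lf (nat_lit 570545) (.g (nat_lit 2653) (.e (nat_lit 475177) (nat_lit 24) (.e (nat_lit 516176) (nat_lit 14) (.e (nat_lit 466954) (nat_lit 11) (.e (nat_lit 335994) (nat_lit 1) (.e (nat_lit 57686) (nat_lit 156) (.e (nat_lit 163936) (nat_lit 18) .nil)))))) (.g (nat_lit 1) (.e (nat_lit 350976) (nat_lit 0) .nil) .nil))) 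
(.lf (nat_lit 571057) (.g (nat_lit 5205) (.e (nat_lit 475183) (nat_lit 29) (.e (nat_lit 557097) (nat_lit 13) (.e (nat_lit 172115) (nat_lit 10) (.e (nat_lit 434244) (nat_lit 28) (.e (nat_lit 573458) (nat_lit 9) (.e (nat_lit 426) (nat_lit 32) (.e (nat_lit 426316) (nat_lit 12) .nil))))))) (.g (nat_lit 1) (.e (nat_lit 351846) (nat_lit 0) .nil) .nil)))) (.nd (nat_lit 9) 
(.lf (nat_lit 570801) (.g (nat_lit 763) (.e (nat_lit 475179) (nat_lit 24) (.e (nat_lit 516119) (nat_lit 1) (.e (nat_lit 164331) (nat_lit 230) .nil))) (.g (nat_lit 0) (.e (nat_lit 351365) (nat_lit 0) .nil) .nil))) 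
(.lf (nat_lit 571313) (.g (nat_lit 3522) (.e (nat_lit 475185) (nat_lit 29) (.e (nat_lit 557098) (nat_lit 13) (.e (nat_lit 172106) (nat_lit 10) (.e (nat_lit 434244) (nat_lit 28) (.e (nat_lit 573458) (nat_lit 9) (.e (nat_lit 394) (nat_lit 32) (.e (nat_lit 426316) (nat_lit 12) .nil))))))) (.g (nat_lit 1) (.e (nat_lit 352130) (nat_lit 0) .nil) .nil)))))) 
(.nd (nat_lit 7) (.nd (nat_lit 8) (.nd (nat_lit 9) 
(.lf (nat_lit 570481) (.g (nat_lit 2191) (.e (nat_lit 475177) (nat_lit 24) (.e (nat_lit 516159) (nat_lit 10) (.e (nat_lit 434244) (nat_lit 28) (.e (nat_lit 573473) (nat_lit 12) (.e (nat_lit 65280) (nat_lit 202) .nil))))) (.g (nat_lit 0) (.e (nat_lit 350870) (nat_lit 0) .nil) .nil))) 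
(.lf (nat_lit 570993) (.g (nat_lit 728) (.e (nat_lit 475179) (nat_lit 24) (.e (nat_lit 516176) (nat_lit 14) (.e (nat_lit 466951) (nat_lit 11) .nil))) (.g (nat_lit 0) (.e (nat_lit 351763) (nat_lit 0) .nil) .nil)))) (.nd (nat_lit 9) 
(.lf (nat_lit 570737) (.g (nat_lit 2840) (.e (nat_lit 475179) (nat_lit 24) (.e (nat_lit 516117) (nat_lit 1) (.e (nat_lit 164330) (nat_lit 230) (.e (nat_lit 163941) (nat_lit 19) (.e (nat_lit 483341) (nat_lit 9) (.e (nat_lit 426313) (nat_lit 12) .nil)))))) (.g (nat_lit 1) (.e (nat_lit 351269) (nat_lit 0) .nil) .nil))) 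
(.lf (nat_lit 571249) (.g (nat_lit 4934) (.e (nat_lit 475184) (nat_lit 29) (.e (nat_lit 557109) (nat_lit 15) (.e (nat_lit 188449) (nat_lit 22) (.e (nat_lit 196677) (nat_lit 16) .nil)))) (.g (nat_lit 0) (.e (nat_lit 352055) (nat_lit 0) .nil) .nil))))) (.nd (nat_lit 8) (.nd (nat_lit 9) 
(.lf (nat_lit 570609) (.g (nat_lit 3236) (.e (nat_lit 475178) (nat_lit 24) (.e (nat_lit 516115) (nat_lit 1) (.e (nat_lit 164325) (nat_lit 230) (.e (nat_lit 163938) (nat_lit 18) .nil)))) (.g (nat_lit 0) (.e (nat_lit 351061) (nat_lit 0) .nil) .nil))) 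
(.lf (nat_lit 571121) (.g (nat_lit 2481) (.e (nat_lit 475183) (nat_lit 29) (.e (nat_lit 557109) (nat_lit 15) (.e (nat_lit 188434) (nat_lit 20) (.e (nat_lit 3272) (nat_lit 199) .nil)))) (.g (nat_lit 0) (.e (nat_lit 351912) (nat_lit 0) .nil) .nil)))) (.nd (nat_lit 9) 
(.lf (nat_lit 570865) (.g (nat_lit 3064) (.e (nat_lit 475179) (nat_lit 24) (.e (nat_lit 516120) (nat_lit 1) (.e (nat_lit 164330) (nat_lit 230) (.e (nat_lit 163941) (nat_lit 19) (.e (nat_lit 483331) (nat_lit 0) .nil))))) (.g (nat_lit 0) (.e (nat_lit 351438) (nat_lit 0) .nil) .nil))) 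
(.lf (nat_lit 571377) (.g (nat_lit 2348) (.e (nat_lit 475185) (nat_lit 29) (.e (nat_lit 557100) (nat_lit 13) (.e (nat_lit 172106) (nat_lit 10) (.e (nat_lit 434244) (nat_lit 28) (.e (nat_lit 573470) (nat_lit 11) .nil))))) (.g (nat_lit 0) (.e (nat_lit 352195) (nat_lit 0) .nil) .nil))))))))) (.nd (nat_lit 4) (.nd (nat_lit 5) (.nd (nat_lit 6) (.nd (nat_lit 7) (.nd (nat_lit 8) (.nd (nat_lit 9) 
(.lf (nat_lit 570377) (.g (nat_lit 1225) (.e (nat_lit 475177) (nat_lit 24) (.e (nat_lit 516127) (nat_lit 2) (.e (nat_lit 213032) (nat_lit 11) (.e (nat_lit 24607) (nat_lit 3) (.e (nat_lit 106240) (nat_lit 26) .nil))))) (.g (nat_lit 0) (.e (nat_lit 350739) (nat_lit 0) .nil) .nil))) 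
(.lf (nat_lit 570889) (.g (nat_lit 1678) (.e (nat_lit 475179) (nat_lit 24) (.e (nat_lit 516120) (nat_lit 1) (.e (nat_lit 164332) (nat_lit 230) (.e (nat_lit 163905) (nat_lit 12) (.e (nat_lit 426481) (nat_lit 27) .nil))))) (.g (nat_lit 0) (.e (nat_lit 351471) (nat_lit 0) .nil) .nil)))) (.nd (nat_lit 9) 
(.lf (nat_lit 570633) (.g (nat_lit 1593) (.e (nat_lit 475178) (nat_lit 24) (.e (nat_lit 516126) (nat_lit 2) (.e (nat_lit 213032) (nat_lit 11) (.e (nat_lit 24608) (nat_lit 3) (.e (nat_lit 98363) (nat_lit 26) .nil))))) (.g (nat_lit 0) (.e (nat_lit 351109) (nat_lit 0) .nil) .nil))) 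
(.lf (nat_lit 571145) (.g (nat_lit 3200) (.e (nat_lit 475184) (nat_lit 29) (.e (nat_lit 557098) (nat_lit 13) (.e (nat_lit 172097) (nat_lit 9) (.e (nat_lit 426125) (nat_lit 2) (.e (nat_lit 196661) (nat_lit 12) (.e (nat_lit 57751) (nat_lit 201) (.e (nat_lit 3064) (nat_lit 190) .nil))))))) (.g (nat_lit 1) (.e (nat_lit 351946) (nat_lit 0) .nil) .nil))))) (.nd (nat_lit 8) (.nd (nat_lit 9) 
(.lf (nat_lit 570505) (.g (nat_lit 1574) (.e (nat_lit 475177) (nat_lit 24) (.e (nat_lit 516174) (nat_lit 14) (.e (nat_lit 466954) (nat_lit 11) (.e (nat_lit 335993) (nat_lit 1) .nil)))) (.g (nat_lit 0) (.e (nat_lit 350923) (nat_lit 0) .nil) .nil))) 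
(.lf (nat_lit 571017) (.g (nat_lit 2320) (.e (nat_lit 475179) (nat_lit 24) (.e (nat_lit 516176) (nat_lit 14) (.e (nat_lit 466954) (nat_lit 11) (.e (nat_lit 335995) (nat_lit 1) (.e (nat_lit 57686) (nat_lit 156) (.e (nat_lit 163939) (nat_lit 18) .nil)))))) (.g (nat_lit 1) (.e (nat_lit 351794) (nat_lit 0) .nil) .nil)))) (.nd (nat_lit 9) 
(.lf (nat_lit 570761) (.g (nat_lit 3139) (.e (nat_lit 475179) (nat_lit 24) (.e (nat_lit 516119) (nat_lit 1) (.e (nat_lit 164322) (nat_lit 230) (.e (nat_lit 163902) (nat_lit 12) (.e (nat_lit 426568) (nat_lit 34) (.e (nat_lit 393290) (nat_lit 26) .nil)))))) (.g (nat_lit 1) (.e (nat_lit 351298) (nat_lit 0) .nil) .nil))) 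
(.lf (nat_lit 571273) (.g (nat_lit 4450) (.e (nat_lit 475184) (nat_lit 29) (.e (nat_lit 557109) (nat_lit 15) (.e (nat_lit 188452) (nat_lit 23) (.e (nat_lit 204840) (nat_lit 21) .nil)))) (.g (nat_lit 0) (.e (nat_lit 352079) (nat_lit 0) .nil) .nil)))))) (.nd (nat_lit 7) (.nd (nat_lit 8) (.nd (nat_lit 9) 
(.lf (nat_lit 570441) (.g (nat_lit 2698) (.e (nat_lit 475177) (nat_lit 24) (.e (nat_lit 516150) (nat_lit 9) (.e (nat_lit 426323) (nat_lit 13) (.e (nat_lit 483363) (nat_lit 18) (.e (nat_lit 57686) (nat_lit 156) (.e (nat_lit 163939) (nat_lit 18) .nil)))))) (.g (nat_lit 1) (.e (nat_lit 350826) (nat_lit 0) .nil) .nil))) 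
(.lf (nat_lit 570953) (.g (nat_lit 2820) (.e (nat_lit 475179) (nat_lit 24) (.e (nat_lit 516150) (nat_lit 9) (.e (nat_lit 426323) (nat_lit 13) (.e (nat_lit 483365) (nat_lit 18) (.e (nat_lit 57688) (nat_lit 156) (.e (nat_lit 163938) (nat_lit 18) .nil)))))) (.g (nat_lit 1) (.e (nat_lit 351573) (nat_lit 0) .nil) .nil)))) (.nd (nat_lit 9) 
(.lf (nat_lit 570697) (.g (nat_lit 3017) (.e (nat_lit 475179) (nat_lit 24) (.e (nat_lit 516115) (nat_lit 1) (.e (nat_lit 164327) (nat_lit 230) (.e (nat_lit 163903) (nat_lit 12) (.e (nat_lit 426568) (nat_lit 34) (.e (nat_lit 393290) (nat_lit 26) .nil)))))) (.g (nat_lit 1) (.e (nat_lit 351211) (nat_lit 0) .nil) .nil))) 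
(.lf (nat_lit 571209) (.g (nat_lit 370) (.e (nat_lit 475184) (nat_lit 29) (.e (nat_lit 557107) (nat_lit 15) (.e (nat_lit 188450) (nat_lit 23) .nil))) (.g (nat_lit 0) (.e (nat_lit 352015) (nat_lit 0) .nil) .nil))))) (.nd (nat_lit 8) (.nd (nat_lit 9) 
(.lf (nat_lit 570569) (.g (nat_lit 2025) (.e (nat_lit 475177) (nat_lit 24) (.e (nat_lit 516179) (nat_lit 15) (.e (nat_lit 475177) (nat_lit 24) (.e (nat_lit 516150) (nat_lit 9) (.e (nat_lit 426360) (nat_lit 15) .nil))))) (.g (nat_lit 0) (.e (nat_lit 351006) (nat_lit 0) .nil) .nil))) 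
(.lf (nat_lit 571081) (.g (nat_lit 2834) (.e (nat_lit 475183) (nat_lit 29) (.e (nat_lit 557100) (nat_lit 13) (.e (nat_lit 172113) (nat_lit 10) (.e (nat_lit 434247) (nat_lit 28) (.e (nat_lit 573457) (nat_lit 9) (.e (nat_lit 430) (nat_lit 32) (.e (nat_lit 426315) (nat_lit 12) .nil))))))) (.g (nat_lit 1) (.e (nat_lit 351870) (nat_lit 0) .nil) .nil)))) (.nd (nat_lit 9) 
(.lf (nat_lit 570825) (.g (nat_lit 2618) (.e (nat_lit 475179) (nat_lit 24) (.e (nat_lit 516120) (nat_lit 1) (.e (nat_lit 164330) (nat_lit 230) (.e (nat_lit 163902) (nat_lit 12) (.e (nat_lit 426479) (nat_lit 27) .nil))))) (.g (nat_lit 0) (.e (nat_lit 351393) (nat_lit 0) .nil) .nil))) 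
(.lf (nat_lit 571337) (.g (nat_lit 3198) (.e (nat_lit 475185) (nat_lit 29) (.e (nat_lit 557100) (nat_lit 13) (.e (nat_lit 172106) (nat_lit 10) (.e (nat_lit 434227) (nat_lit 20) (.e (nat_lit 507930) (nat_lit 10) (.e (nat_lit 5627) (nat_lit 312) (.e (nat_lit 3071) (nat_lit 190) .nil))))))) (.g (nat_lit 1) (.e (nat_lit 352155) (nat_lit 0) .nil) .nil))))))) 
(.nd (nat_lit 6) (.nd (nat_lit 7) (.nd (nat_lit 8) (.nd (nat_lit 9) 
(.lf (nat_lit 570409) (.g (nat_lit 2144) (.e (nat_lit 475177) (nat_lit 24) (.e (nat_lit 516149) (nat_lit 9) (.e (nat_lit 426131) (nat_lit 3) (.e (nat_lit 204837) (nat_lit 20) (.e (nat_lit 114689) (nat_lit 0) (.e (nat_lit 3233) (nat_lit 197) (.e (nat_lit 540416) (nat_lit 32) .nil))))))) (.g (nat_lit 1) (.e (nat_lit 350783) (nat_lit 0) .nil) .nil))) 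
(.lf (nat_lit 570921) (.g (nat_lit 3244) (.e (nat_lit 475179) (nat_lit 24) (.e (nat_lit 516146) (nat_lit 9) (.e (nat_lit 426323) (nat_lit 13) (.e (nat_lit 483363) (nat_lit 18) (.e (nat_lit 57688) (nat_lit 156) (.e (nat_lit 163939) (nat_lit 18) .nil)))))) (.g (nat_lit 1) (.e (nat_lit 351521) (nat_lit 0) .nil) .nil)))) (.nd (nat_lit 9) 
(.lf (nat_lit 570665) (.g (nat_lit 1700) (.e (nat_lit 475179) (nat_lit 24) (.e (nat_lit 516115) (nat_lit 1) (.e (nat_lit 164325) (nat_lit 230) (.e (nat_lit 163903) (nat_lit 12) (.e (nat_lit 426479) (nat_lit 27) .nil))))) (.g (nat_lit 0) (.e (nat_lit 351157) (nat_lit 0) .nil) .nil))) 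
(.lf (nat_lit 571177) (.g (nat_lit 2348) (.e (nat_lit 475184) (nat_lit 29) (.e (nat_lit 557100) (nat_lit 13) (.e (nat_lit 172106) (nat_lit 10) (.e (nat_lit 434244) (nat_lit 28) (.e (nat_lit 573471) (nat_lit 11) .nil))))) (.g (nat_lit 0) (.e (nat_lit 351978) (nat_lit 0) .nil) .nil))))) (.nd (nat_lit 8) (.nd (nat_lit 9) 
(.lf (nat_lit 570537) (.g (nat_lit 1194) (.e (nat_lit 475177) (nat_lit 24) (.e (nat_lit 516176) (nat_lit 14) (.e (nat_lit 466954) (nat_lit 11) (.e (nat_lit 335988) (nat_lit 1) .nil)))) (.g (nat_lit 0) (.e (nat_lit 350964) (nat_lit 0) .nil) .nil))) 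
(.lf (nat_lit 571049) (.g (nat_lit 1844) (.e (nat_lit 475182) (nat_lit 28) (.e (nat_lit 548898) (nat_lit 14) (.e (nat_lit 2828) (nat_lit 182) (.e (nat_lit 409646) (nat_lit 18) (.e (nat_lit 311040) (nat_lit 34) .nil))))) (.g (nat_lit 0) (.e (nat_lit 351832) (nat_lit 0) .nil) .nil)))) (.nd (nat_lit 9) 
(.lf (nat_lit 570793) (.g (nat_lit 2259) (.e (nat_lit 475179) (nat_lit 24) (.e (nat_lit 516119) (nat_lit 1) (.e (nat_lit 164327) (nat_lit 230) (.e (nat_lit 163903) (nat_lit 12) (.e (nat_lit 426481) (nat_lit 27) .nil))))) (.g (nat_lit 0) (.e (nat_lit 351353) (nat_lit 0) .nil) .nil))) 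
(.lf (nat_lit 571305) (.g (nat_lit 1627) (.e (nat_lit 475185) (nat_lit 29) (.e (nat_lit 557098) (nat_lit 13) (.e (nat_lit 172097) (nat_lit 9) (.e (nat_lit 426140) (nat_lit 3) (.e (nat_lit 204821) (nat_lit 17) .nil))))) (.g (nat_lit 0) (.e (nat_lit 352122) (nat_lit 0) .nil) .nil)))))) (.nd (nat_lit 7) (.nd (nat_lit 8) (.nd (nat_lit 9) 
(.lf (nat_lit 570473) (.g (nat_lit 2321) (.e (nat_lit 475177) (nat_lit 24) (.e (nat_lit 516150) (nat_lit 9) (.e (nat_lit 426438) (nat_lit 18) (.e (nat_lit 98358) (nat_lit 26) (.e (nat_lit 426364) (nat_lit 15) .nil))))) (.g (nat_lit 0) (.e (nat_lit 350862) (nat_lit 0) .nil) .nil))) 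
(.lf (nat_lit 570985) (.g (nat_lit 2867) (.e (nat_lit 475179) (nat_lit 24) (.e (nat_lit 516174) (nat_lit 14) (.e (nat_lit 466954) (nat_lit 11) (.e (nat_lit 335995) (nat_lit 1) (.e (nat_lit 57688) (nat_lit 156) (.e (nat_lit 163938) (nat_lit 18) .nil)))))) (.g (nat_lit 1) (.e (nat_lit 351755) (nat_lit 0) .nil) .nil)))) (.nd (nat_lit 9) 
(.lf (nat_lit 570729) (.g (nat_lit 2637) (.e (nat_lit 475179) (nat_lit 24) (.e (nat_lit 516117) (nat_lit 1) (.e (nat_lit 164330) (nat_lit 230) (.e (nat_lit 163902) (nat_lit 12) (.e (nat_lit 426481) (nat_lit 27) .nil))))) (.g (nat_lit 0) (.e (nat_lit 351260) (nat_lit 0) .nil) .nil))) 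
(.lf (nat_lit 571241) (.g (nat_lit 5149) (.e (nat_lit 475184) (nat_lit 29) (.e (nat_lit 557109) (nat_lit 15) (.e (nat_lit 188449) (nat_lit 22) (.e (nat_lit 196658) (nat_lit 12) .nil)))) (.g (nat_lit 0) (.e (nat_lit 352047) (nat_lit 0) .nil) .nil))))) (.nd (nat_lit 8) (.nd (nat_lit 9) 
(.lf (nat_lit 570601) (.g (nat_lit 2304) (.e (nat_lit 475177) (nat_lit 24) (.e (nat_lit 516182) (nat_lit 15) (.e (nat_lit 475177) (nat_lit 24) (.e (nat_lit 516148) (nat_lit 9) (.e (nat_lit 426436) (nat_lit 18) (.e (nat_lit 98385) (nat_lit 32) .nil)))))) (.g (nat_lit 1) (.e (nat_lit 351053) (nat_lit 0) .nil) .nil))) 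
(.lf (nat_lit 571113) (.g (nat_lit 2634) (.e (nat_lit 475183) (nat_lit 29) (.e (nat_lit 557108) (nat_lit 15) (.e (nat_lit 188452) (nat_lit 23) (.e (nat_lit 204814) (nat_lit 17) .nil)))) (.g (nat_lit 0) (.e (nat_lit 351904) (nat_lit 0) .nil) .nil)))) (.nd (nat_lit 9) 
(.lf (nat_lit 570857) (.g (nat_lit 2038) (.e (nat_lit 475179) (nat_lit 24) (.e (nat_lit 516120) (nat_lit 1) (.e (nat_lit 164330) (nat_lit 230) (.e (nat_lit 163909) (nat_lit 12) .nil)))) (.g (nat_lit 0) (.e (nat_lit 351428) (nat_lit 0) .nil) .nil))) 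
(.lf (nat_lit 571369) (.g (nat_lit 2577) (.e (nat_lit 475185) (nat_lit 29) (.e (nat_lit 557100) (nat_lit 13) (.e (nat_lit 172106) (nat_lit 10) (.e (nat_lit 434231) (nat_lit 23) (.e (nat_lit 532500) (nat_lit 1) (.e (nat_lit 65280) (nat_lit 219) (.e (nat_lit 163939) (nat_lit 18) .nil))))))) (.g (nat_lit 1) (.e (nat_lit 352187) (nat_lit 0) .nil) .nil)))))))) 
(.nd (nat_lit 5) (.nd (nat_lit 6) (.nd (nat_lit 7) (.nd (nat_lit 8) (.nd (nat_lit 9) 
(.lf (nat_lit 570393) (.g (nat_lit 885) (.e (nat_lit 475177) (nat_lit 24) (.e (nat_lit 516146) (nat_lit 9) (.e (nat_lit 426428) (nat_lit 17) (.e (nat_lit 90125) (nat_lit 9) .nil)))) (.g (nat_lit 0) (.e (nat_lit 350760) (nat_lit 0) .nil) .nil))) 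
(.lf (nat_lit 570905) (.g (nat_lit 3022) (.e (nat_lit 475179) (nat_lit 24) (.e (nat_lit 516126) (nat_lit 2) (.e (nat_lit 213032) (nat_lit 11) (.e (nat_lit 24604) (nat_lit 2) (.e (nat_lit 90170) (nat_lit 13) (.e (nat_lit 172120) (nat_lit 12) .nil)))))) (.g (nat_lit 1) (.e (nat_lit 351493) (nat_lit 0) .nil) .nil)))) (.nd (nat_lit 9) 
(.lf (nat_lit 570649) (.g (nat_lit 2370) (.e (nat_lit 475179) (nat_lit 24) (.e (nat_lit 516115) (nat_lit 1) (.e (nat_lit 164325) (nat_lit 230) (.e (nat_lit 163841) (nat_lit 0) .nil)))) (.g (nat_lit 0) (.e (nat_lit 351140) (nat_lit 0) .nil) .nil))) 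
(.lf (nat_lit 571161) (.g (nat_lit 1755) (.e (nat_lit 475184) (nat_lit 29) (.e (nat_lit 557098) (nat_lit 13) (.e (nat_lit 172115) (nat_lit 10) (.e (nat_lit 434231) (nat_lit 23) (.e (nat_lit 532481) (nat_lit 0) .nil))))) (.g (nat_lit 0) (.e (nat_lit 351962) (nat_lit 0) .nil) .nil))))) (.nd (nat_lit 8) (.nd (nat_lit 9) 
(.lf (nat_lit 570521) (.g (nat_lit 1319) (.e (nat_lit 475177) (nat_lit 24) (.e (nat_lit 516174) (nat_lit 14) (.e (nat_lit 466969) (nat_lit 21) (.e (nat_lit 164179) (nat_lit 154) .nil)))) (.g (nat_lit 0) (.e (nat_lit 350944) (nat_lit 0) .nil) .nil))) 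
(.lf (nat_lit 571033) (.g (nat_lit 2169) (.e (nat_lit 475179) (nat_lit 24) (.e (nat_lit 516179) (nat_lit 15) (.e (nat_lit 475177) (nat_lit 24) (.e (nat_lit 516181) (nat_lit 15) (.e (nat_lit 475176) (nat_lit 24) (.e (nat_lit 516182) (nat_lit 15) .nil)))))) (.g (nat_lit 1) (.e (nat_lit 351815) (nat_lit 0) .nil) .nil)))) (.nd (nat_lit 9) 
(.lf (nat_lit 570777) (.g (nat_lit 2531) (.e (nat_lit 475179) (nat_lit 24) (.e (nat_lit 516119) (nat_lit 1) (.e (nat_lit 164325) (nat_lit 230) (.e (nat_lit 163907) (nat_lit 12) (.e (nat_lit 433920) (nat_lit 34) (.e (nat_lit 393296) (nat_lit 26) .nil)))))) (.g (nat_lit 1) (.e (nat_lit 351322) (nat_lit 0) .nil) .nil))) 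
(.lf (nat_lit 571289) (.g (nat_lit 599) (.e (nat_lit 475185) (nat_lit 29) (.e (nat_lit 557097) (nat_lit 13) (.e (nat_lit 172120) (nat_lit 12) .nil))) (.g (nat_lit 0) (.e (nat_lit 352106) (nat_lit 0) .nil) .nil)))))) (.nd (nat_lit 7) (.nd (nat_lit 8) (.nd (nat_lit 9) 
(.lf (nat_lit 570457) (.g (nat_lit 2923) (.e (nat_lit 475177) (nat_lit 24) (.e (nat_lit 516150) (nat_lit 9) (.e (nat_lit 426323) (nat_lit 13) (.e (nat_lit 483365) (nat_lit 18) (.e (nat_lit 57688) (nat_lit 156) (.e (nat_lit 163937) (nat_lit 18) .nil)))))) (.g (nat_lit 1) (.e (nat_lit 350844) (nat_lit 0) .nil) .nil))) 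
(.lf (nat_lit 570969) (.g (nat_lit 1039) (.e (nat_lit 475179) (nat_lit 24) (.e (nat_lit 516174) (nat_lit 14) (.e (nat_lit 466954) (nat_lit 11) (.e (nat_lit 335986) (nat_lit 1) .nil)))) (.g (nat_lit 0) (.e (nat_lit 351735) (nat_lit 0) .nil) .nil)))) (.nd (nat_lit 9) 
(.lf (nat_lit 570713) (.g (nat_lit 582) (.e (nat_lit 475179) (nat_lit 24) (.e (nat_lit 516117) (nat_lit 1) (.e (nat_lit 164256) (nat_lit 215) .nil))) (.g (nat_lit 0) (.e (nat_lit 351238) (nat_lit 0) .nil) .nil))) 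
(.lf (nat_lit 571225) (.g (nat_lit 4176) (.e (nat_lit 475184) (nat_lit 29) (.e (nat_lit 557108) (nat_lit 15) (.e (nat_lit 188452) (nat_lit 23) (.e (nat_lit 204821) (nat_lit 17) .nil)))) (.g (nat_lit 0) (.e (nat_lit 352031) (nat_lit 0) .nil) .nil))))) (.nd (nat_lit 8) (.nd (nat_lit 9) 
(.lf (nat_lit 570585) (.g (nat_lit 1380) (.e (nat_lit 475177) (nat_lit 24) (.e (nat_lit 516180) (nat_lit 15) (.e (nat_lit 475179) (nat_lit 24) (.e (nat_lit 516182) (nat_lit 15) .nil)))) (.g (nat_lit 0) (.e (nat_lit 351033) (nat_lit 0) .nil) .nil))) 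
(.lf (nat_lit 571097) (.g (nat_lit 2703) (.e (nat_lit 475183) (nat_lit 29) (.e (nat_lit 557107) (nat_lit 15) (.e (nat_lit 188450) (nat_lit 23) (.e (nat_lit 204884) (nat_lit 33) (.e (nat_lit 401454) (nat_lit 12) .nil))))) (.g (nat_lit 1) (.e (nat_lit 351888) (nat_lit 0) .nil) .nil)))) (.nd (nat_lit 9) 
(.lf (nat_lit 570841) (.g (nat_lit 3243) (.e (nat_lit 475179) (nat_lit 24) (.e (nat_lit 516120) (nat_lit 1) (.e (nat_lit 164330) (nat_lit 230) (.e (nat_lit 163902) (nat_lit 12) (.e (nat_lit 426567) (nat_lit 34) (.e (nat_lit 393293) (nat_lit 26) .nil)))))) (.g (nat_lit 1) (.e (nat_lit 351409) (nat_lit 0) .nil) .nil))) 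
(.lf (nat_lit 571353) (.g (nat_lit 2499) (.e (nat_lit 475185) (nat_lit 29) (.e (nat_lit 557100) (nat_lit 13) (.e (nat_lit 172106) (nat_lit 10) (.e (nat_lit 434231) (nat_lit 23) (.e (nat_lit 532483) (nat_lit 0) (.e (nat_lit 7936) (nat_lit 357) (.e (nat_lit 3072) (nat_lit 190) .nil))))))) (.g (nat_lit 1) (.e (nat_lit 352171) (nat_lit 0) .nil) .nil))))))) 
(.nd (nat_lit 6) (.nd (nat_lit 7) (.nd (nat_lit 8) (.nd (nat_lit 9) 
(.lf (nat_lit 570425) (.g (nat_lit 2052) (.e (nat_lit 475177) (nat_lit 24) (.e (nat_lit 516149) (nat_lit 9) (.e (nat_lit 426323) (nat_lit 13) (.e (nat_lit 483366) (nat_lit 18) (.e (nat_lit 57688) (nat_lit 156) (.e (nat_lit 163937) (nat_lit 18) .nil)))))) (.g (nat_lit 1) (.e (nat_lit 350800) (nat_lit 0) .nil) .nil))) 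
(.lf (nat_lit 570937) (.g (nat_lit 984) (.e (nat_lit 475179) (nat_lit 24) (.e (nat_lit 516146) (nat_lit 9) (.e (nat_lit 426437) (nat_lit 18) (.e (nat_lit 98385) (nat_lit 32) .nil)))) (.g (nat_lit 0) (.e (nat_lit 351537) (nat_lit 0) .nil) .nil)))) (.nd (nat_lit 9) 
(.lf (nat_lit 570681) (.g (nat_lit 2288) (.e (nat_lit 475179) (nat_lit 24) (.e (nat_lit 516115) (nat_lit 1) (.e (nat_lit 164325) (nat_lit 230) (.e (nat_lit 163907) (nat_lit 12) (.e (nat_lit 426491) (nat_lit 27) .nil))))) (.g (nat_lit 0) (.e (nat_lit 351175) (nat_lit 0) .nil) .nil))) 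
(.lf (nat_lit 571193) (.g (nat_lit 1621) (.e (nat_lit 475184) (nat_lit 29) (.e (nat_lit 557101) (nat_lit 13) (.e (nat_lit 172115) (nat_lit 10) (.e (nat_lit 434231) (nat_lit 23) (.e (nat_lit 532481) (nat_lit 0) .nil))))) (.g (nat_lit 0) (.e (nat_lit 351994) (nat_lit 0) .nil) .nil))))) (.nd (nat_lit 8) (.nd (nat_lit 9) 
(.lf (nat_lit 570553) (.g (nat_lit 1989) (.e (nat_lit 475177) (nat_lit 24) (.e (nat_lit 516176) (nat_lit 14) (.e (nat_lit 466954) (nat_lit 11) (.e (nat_lit 335995) (nat_lit 1) (.e (nat_lit 57687) (nat_lit 156) (.e (nat_lit 163939) (nat_lit 18) .nil)))))) (.g (nat_lit 1) (.e (nat_lit 350985) (nat_lit 0) .nil) .nil))) 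
(.lf (nat_lit 571065) (.g (nat_lit 2115) (.e (nat_lit 475183) (nat_lit 29) (.e (nat_lit 557098) (nat_lit 13) (.e (nat_lit 172112) (nat_lit 10) (.e (nat_lit 434248) (nat_lit 28) (.e (nat_lit 573452) (nat_lit 9) .nil))))) (.g (nat_lit 0) (.e (nat_lit 351854) (nat_lit 0) .nil) .nil)))) (.nd (nat_lit 9) 
(.lf (nat_lit 570809) (.g (nat_lit 609) (.e (nat_lit 475179) (nat_lit 24) (.e (nat_lit 516120) (nat_lit 1) (.e (nat_lit 164307) (nat_lit 226) .nil))) (.g (nat_lit 0) (.e (nat_lit 351376) (nat_lit 0) .nil) .nil))) 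
(.lf (nat_lit 571321) (.g (nat_lit 704) (.e (nat_lit 475185) (nat_lit 29) (.e (nat_lit 557098) (nat_lit 13) (.e (nat_lit 172116) (nat_lit 10) .nil))) (.g (nat_lit 0) (.e (nat_lit 352138) (nat_lit 0) .nil) .nil)))))) (.nd (nat_lit 7) (.nd (nat_lit 8) (.nd (nat_lit 9) 
(.lf (nat_lit 570489) (.g (nat_lit 2519) (.e (nat_lit 475177) (nat_lit 24) (.e (nat_lit 516174) (nat_lit 14) (.e (nat_lit 466954) (nat_lit 11) (.e (nat_lit 335986) (nat_lit 1) (.e (nat_lit 57655) (nat_lit 152) (.e (nat_lit 2485) (nat_lit 157) (.e (nat_lit 3067) (nat_lit 190) .nil))))))) (.g (nat_lit 1) (.e (nat_lit 350900) (nat_lit 0) .nil) .nil))) 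
(.lf (nat_lit 571001) (.g (nat_lit 2760) (.e (nat_lit 475179) (nat_lit 24) (.e (nat_lit 516176) (nat_lit 14) (.e (nat_lit 466954) (nat_lit 11) (.e (nat_lit 335986) (nat_lit 1) (.e (nat_lit 57652) (nat_lit 152) (.e (nat_lit 2485) (nat_lit 157) (.e (nat_lit 3067) (nat_lit 190) .nil))))))) (.g (nat_lit 1) (.e (nat_lit 351773) (nat_lit 0) .nil) .nil)))) (.nd (nat_lit 9) 
(.lf (nat_lit 570745) (.g (nat_lit 2331) (.e (nat_lit 475179) (nat_lit 24) (.e (nat_lit 516117) (nat_lit 1) (.e (nat_lit 164332) (nat_lit 230) (.e (nat_lit 163905) (nat_lit 12) (.e (nat_lit 426487) (nat_lit 27) (.e (nat_lit 336409) (nat_lit 27) (.e (nat_lit 426313) (nat_lit 12) .nil))))))) (.g (nat_lit 1) (.e (nat_lit 351279) (nat_lit 0) .nil) .nil))) 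
(.lf (nat_lit 571257) (.g (nat_lit 2225) (.e (nat_lit 475184) (nat_lit 29) (.e (nat_lit 557109) (nat_lit 15) (.e (nat_lit 188450) (nat_lit 23) (.e (nat_lit 212736) (nat_lit 33) .nil)))) (.g (nat_lit 0) (.e (nat_lit 352063) (nat_lit 0) .nil) .nil))))) (.nd (nat_lit 8) (.nd (nat_lit 9) 
(.lf (nat_lit 570617) (.g (nat_lit 3130) (.e (nat_lit 475178) (nat_lit 24) (.e (nat_lit 516117) (nat_lit 1) (.e (nat_lit 164329) (nat_lit 230) (.e (nat_lit 163941) (nat_lit 19) (.e (nat_lit 483337) (nat_lit 9) (.e (nat_lit 426308) (nat_lit 12) .nil)))))) (.g (nat_lit 1) (.e (nat_lit 351079) (nat_lit 0) .nil) .nil))) 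
(.lf (nat_lit 571129) (.g (nat_lit 2811) (.e (nat_lit 475183) (nat_lit 29) (.e (nat_lit 557109) (nat_lit 15) (.e (nat_lit 188450) (nat_lit 23) (.e (nat_lit 204821) (nat_lit 17) .nil)))) (.g (nat_lit 0) (.e (nat_lit 351920) (nat_lit 0) .nil) .nil)))) (.nd (nat_lit 9) 
(.lf (nat_lit 570873) (.g (nat_lit 3494) (.e (nat_lit 475179) (nat_lit 24) (.e (nat_lit 516120) (nat_lit 1) (.e (nat_lit 164330) (nat_lit 230) (.e (nat_lit 163941) (nat_lit 19) (.e (nat_lit 483341) (nat_lit 9) (.e (nat_lit 433920) (nat_lit 12) .nil)))))) (.g (nat_lit 1) (.e (nat_lit 351446) (nat_lit 0) .nil) .nil))) 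
(.lf (nat_lit 571385) (.g (nat_lit 4140) (.e (nat_lit 475185) (nat_lit 29) (.e (nat_lit 557100) (nat_lit 13) (.e (nat_lit 172113) (nat_lit 10) (.e (nat_lit 434245) (nat_lit 28) (.e (nat_lit 573450) (nat_lit 9) (.e (nat_lit 375) (nat_lit 32) (.e (nat_lit 426317) (nat_lit 12) .nil))))))) (.g (nat_lit 1) (.e (nat_lit 352203) (nat_lit 0) .nil) .nil)))))))))) 
(.nd (nat_lit 3) (.nd (nat_lit 4) (.nd (nat_lit 5) (.nd (nat_lit 6) (.nd (nat_lit 7) 
(.nd (nat_lit 8) (.nd (nat_lit 9) 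
(.lf (nat_lit 570373) (.g (nat_lit 1479) (.e (nat_lit 475177) (nat_lit 24) (.e (nat_lit 516126) (nat_lit 2) (.e (nat_lit 213032) (nat_lit 11) (.e (nat_lit 24607) (nat_lit 3) (.e (nat_lit 106240) (nat_lit 26) .nil))))) (.g (nat_lit 0) (.e (nat_lit 350735) (nat_lit 0) .nil) .nil))) 
(.lf (nat_lit 570885) (.g (nat_lit 2174) (.e (nat_lit 475179) (nat_lit 24) (.e (nat_lit 516120) (nat_lit 1) (.e (nat_lit 164332) (nat_lit 230) (.e (nat_lit 163902) (nat_lit 12) (.e (nat_lit 426567) (nat_lit 34) (.e (nat_lit 393293) (nat_lit 26) .nil)))))) (.g (nat_lit 1) (.e (nat_lit 351467) (nat_lit 0) .nil) .nil)))) (.nd (nat_lit 9) 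
(.lf (nat_lit 570629) (.g (nat_lit 3516) (.e (nat_lit 475178) (nat_lit 24) (.e (nat_lit 516120) (nat_lit 1) (.e (nat_lit 164329) (nat_lit 230) (.e (nat_lit 163904) (nat_lit 12) (.e (nat_lit 426566) (nat_lit 34) (.e (nat_lit 393296) (nat_lit 26) .nil)))))) (.g (nat_lit 1) (.e (nat_lit 351099) (nat_lit 0) .nil) .nil))) 
(.lf (nat_lit 571141) (.g (nat_lit 1575) (.e (nat_lit 475184) (nat_lit 29) (.e (nat_lit 557097) (nat_lit 13) (.e (nat_lit 172115) (nat_lit 10) (.e (nat_lit 434231) (nat_lit 23) .nil)))) (.g (nat_lit 0) (.e (nat_lit 351941) (nat_lit 0) .nil) .nil))))) (.nd (nat_lit 8) (.nd (nat_lit 9) 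
(.lf (nat_lit 570501) (.g (nat_lit 2001) (.e (nat_lit 475177) (nat_lit 24) (.e (nat_lit 516174) (nat_lit 14) (.e (nat_lit 466954) (nat_lit 11) (.e (nat_lit 335988) (nat_lit 1) (.e (nat_lit 57665) (nat_lit 152) (.e (nat_lit 2466) (nat_lit 157) (.e (nat_lit 3057) (nat_lit 190) .nil))))))) (.g (nat_lit 1) (.e (nat_lit 350916) (nat_lit 0) .nil) .nil))) 
(.lf (nat_lit 571013) (.g (nat_lit 1256) (.e (nat_lit 475179) (nat_lit 24) (.e (nat_lit 516176) (nat_lit 14) (.e (nat_lit 466954) (nat_lit 11) (.e (nat_lit 335994) (nat_lit 1) .nil)))) (.g (nat_lit 0) (.e (nat_lit 351790) (nat_lit 0) .nil) .nil)))) (.nd (nat_lit 9) 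
(.lf (nat_lit 570757) (.g (nat_lit 587) (.e (nat_lit 475179) (nat_lit 24) (.e (nat_lit 516119) (nat_lit 1) (.e (nat_lit 164322) (nat_lit 230) .nil))) (.g (nat_lit 0) (.e (nat_lit 351294) (nat_lit 0) .nil) .nil))) 
(.lf (nat_lit 571269) (.g (nat_lit 4322) (.e (nat_lit 475184) (nat_lit 29) (.e (nat_lit 557109) (nat_lit 15) (.e (nat_lit 188452) (nat_lit 23) (.e (nat_lit 204823) (nat_lit 17) .nil)))) (.g (nat_lit 0) (.e (nat_lit 352075) (nat_lit 0) .nil) .nil)))))) (.nd (nat_lit 7) (.nd (nat_lit 8) (.nd (nat_lit 9) 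
(.lf (nat_lit 570437) (.g (nat_lit 3614) (.e (nat_lit 475177) (nat_lit 24) (.e (nat_lit 516150) (nat_lit 9) (.e (nat_lit 426131) (nat_lit 3) (.e (nat_lit 204838) (nat_lit 20) (.e (nat_lit 114702) (nat_lit 20) (.e (nat_lit 1836) (nat_lit 123) (.e (nat_lit 548898) (nat_lit 14) (.e (nat_lit 3063) (nat_lit 190) .nil)))))))) (.g (nat_lit 1) (.e (nat_lit 350816) (nat_lit 0) .nil) .nil))) 
(.lf (nat_lit 570949) (.g (nat_lit 2118) (.e (nat_lit 475179) (nat_lit 24) (.e (nat_lit 516150) (nat_lit 9) (.e (nat_lit 426323) (nat_lit 13) (.e (nat_lit 483364) (nat_lit 18) (.e (nat_lit 57690) (nat_lit 156) (.e (nat_lit 163939) (nat_lit 18) .nil)))))) (.g (nat_lit 1) (.e (nat_lit 351569) (nat_lit 0) .nil) .nil)))) (.nd (nat_lit 9) 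
(.lf (nat_lit 570693) (.g (nat_lit 1048) (.e (nat_lit 475179) (nat_lit 24) (.e (nat_lit 516115) (nat_lit 1) (.e (nat_lit 164327) (nat_lit 230) (.e (nat_lit 163903) (nat_lit 12) .nil)))) (.g (nat_lit 0) (.e (nat_lit 351207) (nat_lit 0) .nil) .nil))) 
(.lf (nat_lit 571205) (.g (nat_lit 2490) (.e (nat_lit 475184) (nat_lit 29) (.e (nat_lit 557107) (nat_lit 15) (.e (nat_lit 188447) (nat_lit 22) (.e (nat_lit 196661) (nat_lit 12) (.e (nat_lit 57750) (nat_lit 201) (.e (nat_lit 3064) (nat_lit 190) .nil)))))) (.g (nat_lit 1) (.e (nat_lit 352011) (nat_lit 0) .nil) .nil))))) (.nd (nat_lit 8) (.nd (nat_lit 9) 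
(.lf (nat_lit 570565) (.g (nat_lit 1236) (.e (nat_lit 475177) (nat_lit 24) (.e (nat_lit 516176) (nat_lit 14) (.e (nat_lit 466972) (nat_lit 21) (.e (nat_lit 164183) (nat_lit 154) .nil)))) (.g (nat_lit 0) (.e (nat_lit 351002) (nat_lit 0) .nil) .nil))) 
(.lf (nat_lit 571077) (.g (nat_lit 3409) (.e (nat_lit 475183) (nat_lit 29) (.e (nat_lit 557100) (nat_lit 13) (.e (nat_lit 172113) (nat_lit 10) (.e (nat_lit 434245) (nat_lit 28) (.e (nat_lit 573469) (nat_lit 11) (.e (nat_lit 16461) (nat_lit 12) .nil)))))) (.g (nat_lit 1) (.e (nat_lit 351866) (nat_lit 0) .nil) .nil)))) (.nd (nat_lit 9) 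
(.lf (nat_lit 570821) (.g (nat_lit 1798) (.e (nat_lit 475179) (nat_lit 24) (.e (nat_lit 516120) (nat_lit 1) (.e (nat_lit 164330) (nat_lit 230) (.e (nat_lit 163872) (nat_lit 3) .nil)))) (.g (nat_lit 0) (.e (nat_lit 351389) (nat_lit 0) .nil) .nil))) 
(.lf (nat_lit 571333) (.g (nat_lit 1877) (.e (nat_lit 475185) (nat_lit 29) (.e (nat_lit 557100) (nat_lit 13) (.e (nat_lit 172106) (nat_lit 10) (.e (nat_lit 434217) (nat_lit 19) (.e (nat_lit 507648) (nat_lit 0) .nil))))) (.g (nat_lit 0) (.e (nat_lit 352151) (nat_lit 0) .nil) .nil))))))) (.nd (nat_lit 6) (.nd (nat_lit 7) (.nd (nat_lit 8) (.nd (nat_lit 9) 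
(.lf (nat_lit 570405) (.g (nat_lit 1226) (.e (nat_lit 475177) (nat_lit 24) (.e (nat_lit 516148) (nat_lit 9) (.e (nat_lit 426432) (nat_lit 17) (.e (nat_lit 90169) (nat_lit 13) (.e (nat_lit 179968) (nat_lit 18) .nil))))) (.g (nat_lit 0) (.e (nat_lit 350778) (nat_lit 0) .nil) .nil))) 
(.lf (nat_lit 570917) (.g (nat_lit 3016) (.e (nat_lit 475179) (nat_lit 24) (.e (nat_lit 516146) (nat_lit 9) (.e (nat_lit 426131) (nat_lit 3) (.e (nat_lit 204838) (nat_lit 20) (.e (nat_lit 122624) (nat_lit 3) (.e (nat_lit 212736) (nat_lit 15) .nil)))))) (.g (nat_lit 1) (.e (nat_lit 351516) (nat_lit 0) .nil) .nil)))) (.nd (nat_lit 9) 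
(.lf (nat_lit 570661) (.g (nat_lit 2191) (.e (nat_lit 475179) (nat_lit 24) (.e (nat_lit 516115) (nat_lit 1) (.e (nat_lit 164325) (nat_lit 230) (.e (nat_lit 163902) (nat_lit 12) .nil)))) (.g (nat_lit 0) (.e (nat_lit 351153) (nat_lit 0) .nil) .nil))) 
(.lf (nat_lit 571173) (.g (nat_lit 3144) (.e (nat_lit 475184) (nat_lit 29) (.e (nat_lit 557100) (nat_lit 13) (.e (nat_lit 172106) (nat_lit 10) (.e (nat_lit 434231) (nat_lit 23) (.e (nat_lit 532490) (nat_lit 0) (.e (nat_lit 6680) (nat_lit 357) (.e (nat_lit 3066) (nat_lit 190) .nil))))))) (.g (nat_lit 1) (.e (nat_lit 351974) (nat_lit 0) .nil) .nil))))) (.nd (nat_lit 8) (.nd (nat_lit 9) 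
(.lf (nat_lit 570533) (.g (nat_lit 2504) (.e (nat_lit 475177) (nat_lit 24) (.e (nat_lit 516176) (nat_lit 14) (.e (nat_lit 466954) (nat_lit 11) (.e (nat_lit 335986) (nat_lit 1) (.e (nat_lit 57686) (nat_lit 156) (.e (nat_lit 163939) (nat_lit 18) .nil)))))) (.g (nat_lit 1) (.e (nat_lit 350960) (nat_lit 0) .nil) .nil))) 
(.lf (nat_lit 571045) (.g (nat_lit 1054) (.e (nat_lit 483072) (nat_lit 24) (.e (nat_lit 516120) (nat_lit 1) (.e (nat_lit 164329) (nat_lit 230) .nil))) (.g (nat_lit 0) (.e (nat_lit 351828) (nat_lit 0) .nil) .nil)))) (.nd (nat_lit 9) 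
(.lf (nat_lit 570789) (.g (nat_lit 3447) (.e (nat_lit 475179) (nat_lit 24) (.e (nat_lit 516119) (nat_lit 1) (.e (nat_lit 164326) (nat_lit 230) (.e (nat_lit 163941) (nat_lit 19) (.e (nat_lit 483341) (nat_lit 9) (.e (nat_lit 426313) (nat_lit 12) .nil)))))) (.g (nat_lit 1) (.e (nat_lit 351347) (nat_lit 0) .nil) .nil))) 
(.lf (nat_lit 571301) (.g (nat_lit 1093) (.e (nat_lit 475185) (nat_lit 29) (.e (nat_lit 557098) (nat_lit 13) (.e (nat_lit 172100) (nat_lit 9) .nil))) (.g (nat_lit 0) (.e (nat_lit 352118) (nat_lit 0) .nil) .nil)))))) (.nd (nat_lit 7) (.nd (nat_lit 8) (.nd (nat_lit 9) 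
(.lf (nat_lit 570469) (.g (nat_lit 2516) (.e (nat_lit 475177) (nat_lit 24) (.e (nat_lit 516150) (nat_lit 9) (.e (nat_lit 426436) (nat_lit 18) (.e (nat_lit 98385) (nat_lit 32) (.e (nat_lit 475177) (nat_lit 24) (.e (nat_lit 516181) (nat_lit 15) .nil)))))) (.g (nat_lit 1) (.e (nat_lit 350858) (nat_lit 0) .nil) .nil))) 
(.lf (nat_lit 570981) (.g (nat_lit 1131) (.e (nat_lit 475179) (nat_lit 24) (.e (nat_lit 516174) (nat_lit 14) (.e (nat_lit 466954) (nat_lit 11) (.e (nat_lit 335995) (nat_lit 1) .nil)))) (.g (nat_lit 0) (.e (nat_lit 351751) (nat_lit 0) .nil) .nil)))) (.nd (nat_lit 9) 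
(.lf (nat_lit 570725) (.g (nat_lit 894) (.e (nat_lit 475179) (nat_lit 24) (.e (nat_lit 516117) (nat_lit 1) (.e (nat_lit 164329) (nat_lit 230) (.e (nat_lit 163941) (nat_lit 19) .nil)))) (.g (nat_lit 0) (.e (nat_lit 351255) (nat_lit 0) .nil) .nil))) 
(.lf (nat_lit 571237) (.g (nat_lit 5014) (.e (nat_lit 475184) (nat_lit 29) (.e (nat_lit 557109) (nat_lit 15) (.e (nat_lit 188449) (nat_lit 22) (.e (nat_lit 196625) (nat_lit 9) .nil)))) (.g (nat_lit 0) (.e (nat_lit 352043) (nat_lit 0) .nil) .nil))))) (.nd (nat_lit 8) (.nd (nat_lit 9) 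
(.lf (nat_lit 570597) (.g (nat_lit 2648) (.e (nat_lit 475177) (nat_lit 24) (.e (nat_lit 516181) (nat_lit 15) (.e (nat_lit 475179) (nat_lit 24) (.e (nat_lit 516151) (nat_lit 9) (.e (nat_lit 433920) (nat_lit 18) .nil))))) (.g (nat_lit 0) (.e (nat_lit 351048) (nat_lit 0) .nil) .nil))) 
(.lf (nat_lit 571109) (.g (nat_lit 3810) (.e (nat_lit 475183) (nat_lit 29) (.e (nat_lit 557108) (nat_lit 15) (.e (nat_lit 188449) (nat_lit 22) (.e (nat_lit 196657) (nat_lit 12) .nil)))) (.g (nat_lit 0) (.e (nat_lit 351900) (nat_lit 0) .nil) .nil)))) (.nd (nat_lit 9) 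
(.lf (nat_lit 570853) (.g (nat_lit 2607) (.e (nat_lit 475179) (nat_lit 24) (.e (nat_lit 516120) (nat_lit 1) (.e (nat_lit 164330) (nat_lit 230) (.e (nat_lit 163905) (nat_lit 12) (.e (nat_lit 426566) (nat_lit 34) (.e (nat_lit 393295) (nat_lit 26) .nil)))))) (.g (nat_lit 1) (.e (nat_lit 351423) (nat_lit 0) .nil) .nil))) 
(.lf (nat_lit 571365) (.g (nat_lit 2794) (.e (nat_lit 475185) (nat_lit 29) (.e (nat_lit 557100) (nat_lit 13) (.e (nat_lit 172106) (nat_lit 10) (.e (nat_lit 434231) (nat_lit 23) (.e (nat_lit 532499) (nat_lit 1) (.e (nat_lit 57761) (nat_lit 215) (.e (nat_lit 2505) (nat_lit 157) (.e (nat_lit 3062) (nat_lit 190) .nil)))))))) (.g (nat_lit 1) (.e (nat_lit 352183) (nat_lit 0) .nil) .nil)))))))) 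
(.nd (nat_lit 5) (.nd (nat_lit 6) (.nd (nat_lit 7) (.nd (nat_lit 8) (.nd (nat_lit 9) 
(.lf (nat_lit 570389) (.g (nat_lit 1816) (.e (nat_lit 475177) (nat_lit 24) (.e (nat_lit 516145) (nat_lit 9) (.e (nat_lit 426438) (nat_lit 18) (.e (nat_lit 98384) (nat_lit 32) (.e (nat_lit 475177) (nat_lit 24) .nil))))) (.g (nat_lit 0) (.e (nat_lit 350756) (nat_lit 0) .nil) .nil))) 
(.lf (nat_lit 570901) (.g (nat_lit 3056) (.e (nat_lit 475179) (nat_lit 24) (.e (nat_lit 516120) (nat_lit 1) (.e (nat_lit 164332) (nat_lit 230) (.e (nat_lit 163941) (nat_lit 19) (.e (nat_lit 483333) (nat_lit 0) (.e (nat_lit 7335) (nat_lit 388) (.e (nat_lit 3067) (nat_lit 190) .nil))))))) (.g (nat_lit 1) (.e (nat_lit 351484) (nat_lit 0) .nil) .nil)))) (.nd (nat_lit 9) 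
(.lf (nat_lit 570645) (.g (nat_lit 920) (.e (nat_lit 475178) (nat_lit 24) (.e (nat_lit 516176) (nat_lit 14) (.e (nat_lit 466972) (nat_lit 21) .nil))) (.g (nat_lit 0) (.e (nat_lit 351133) (nat_lit 0) .nil) .nil))) 
(.lf (nat_lit 571157) (.g (nat_lit 803) (.e (nat_lit 475184) (nat_lit 29) (.e (nat_lit 557098) (nat_lit 13) (.e (nat_lit 172112) (nat_lit 10) .nil))) (.g (nat_lit 0) (.e (nat_lit 351958) (nat_lit 0) .nil) .nil))))) (.nd (nat_lit 8) (.nd (nat_lit 9) 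
(.lf (nat_lit 570517) (.g (nat_lit 2811) (.e (nat_lit 475177) (nat_lit 24) (.e (nat_lit 516174) (nat_lit 14) (.e (nat_lit 466954) (nat_lit 11) (.e (nat_lit 335995) (nat_lit 1) (.e (nat_lit 57688) (nat_lit 156) (.e (nat_lit 163937) (nat_lit 18) .nil)))))) (.g (nat_lit 1) (.e (nat_lit 350937) (nat_lit 0) .nil) .nil))) 
(.lf (nat_lit 571029) (.g (nat_lit 2515) (.e (nat_lit 475179) (nat_lit 24) (.e (nat_lit 516179) (nat_lit 15) (.e (nat_lit 475177) (nat_lit 24) (.e (nat_lit 516150) (nat_lit 9) (.e (nat_lit 426434) (nat_lit 18) (.e (nat_lit 98384) (nat_lit 32) .nil)))))) (.g (nat_lit 1) (.e (nat_lit 351811) (nat_lit 0) .nil) .nil)))) (.nd (nat_lit 9) 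
(.lf (nat_lit 570773) (.g (nat_lit 1976) (.e (nat_lit 475179) (nat_lit 24) (.e (nat_lit 516119) (nat_lit 1) (.e (nat_lit 164325) (nat_lit 230) (.e (nat_lit 163907) (nat_lit 12) (.e (nat_lit 426481) (nat_lit 27) (.e (nat_lit 336386) (nat_lit 27) (.e (nat_lit 426313) (nat_lit 12) .nil))))))) (.g (nat_lit 1) (.e (nat_lit 351318) (nat_lit 0) .nil) .nil))) 
(.lf (nat_lit 571285) (.g (nat_lit 1297) (.e (nat_lit 475185) (nat_lit 29) (.e (nat_lit 557097) (nat_lit 13) (.e (nat_lit 172097) (nat_lit 9) (.e (nat_lit 426140) (nat_lit 3) .nil)))) (.g (nat_lit 0) (.e (nat_lit 352102) (nat_lit 0) .nil) .nil)))))) (.nd (nat_lit 7) (.nd (nat_lit 8) (.nd (nat_lit 9) 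
(.lf (nat_lit 570453) (.g (nat_lit 2527) (.e (nat_lit 475177) (nat_lit 24) (.e (nat_lit 516150) (nat_lit 9) (.e (nat_lit 426323) (nat_lit 13) (.e (nat_lit 483365) (nat_lit 18) (.e (nat_lit 57685) (nat_lit 156) (.e (nat_lit 163936) (nat_lit 18) .nil)))))) (.g (nat_lit 1) (.e (nat_lit 350840) (nat_lit 0) .nil) .nil))) 
(.lf (nat_lit 570965) (.g (nat_lit 2235) (.e (nat_lit 475179) (nat_lit 24) (.e (nat_lit 516171) (nat_lit 13) (.e (nat_lit 458789) (nat_lit 23) (.e (nat_lit 532513) (nat_lit 3) (.e (nat_lit 122624) (nat_lit 3) (.e (nat_lit 212736) (nat_lit 15) .nil)))))) (.g (nat_lit 1) (.e (nat_lit 351726) (nat_lit 0) .nil) .nil)))) (.nd (nat_lit 9) 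
(.lf (nat_lit 570709) (.g (nat_lit 1567) (.e (nat_lit 475179) (nat_lit 24) (.e (nat_lit 516115) (nat_lit 1) (.e (nat_lit 164332) (nat_lit 230) (.e (nat_lit 163874) (nat_lit 3) .nil)))) (.g (nat_lit 0) (.e (nat_lit 351230) (nat_lit 0) .nil) .nil))) 
(.lf (nat_lit 571221) (.g (nat_lit 2822) (.e (nat_lit 475184) (nat_lit 29) (.e (nat_lit 557107) (nat_lit 15) (.e (nat_lit 188452) (nat_lit 23) (.e (nat_lit 204885) (nat_lit 33) (.e (nat_lit 401450) (nat_lit 12) .nil))))) (.g (nat_lit 0) (.e (nat_lit 352027) (nat_lit 0) .nil) .nil))))) (.nd (nat_lit 8) (.nd (nat_lit 9) 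
(.lf (nat_lit 570581) (.g (nat_lit 3061) (.e (nat_lit 475177) (nat_lit 24) (.e (nat_lit 516179) (nat_lit 15) (.e (nat_lit 475179) (nat_lit 24) (.e (nat_lit 516179) (nat_lit 15) (.e (nat_lit 475179) (nat_lit 24) (.e (nat_lit 516182) (nat_lit 15) .nil)))))) (.g (nat_lit 1) (.e (nat_lit 351022) (nat_lit 0) .nil) .nil))) 
(.lf (nat_lit 571093) (.g (nat_lit 1473) (.e (nat_lit 475183) (nat_lit 29) (.e (nat_lit 557107) (nat_lit 15) (.e (nat_lit 188440) (nat_lit 20) (.e (nat_lit 3308) (nat_lit 202) .nil)))) (.g (nat_lit 0) (.e (nat_lit 351884) (nat_lit 0) .nil) .nil)))) (.nd (nat_lit 9) 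
(.lf (nat_lit 570837) (.g (nat_lit 3228) (.e (nat_lit 475179) (nat_lit 24) (.e (nat_lit 516120) (nat_lit 1) (.e (nat_lit 164330) (nat_lit 230) (.e (nat_lit 163902) (nat_lit 12) (.e (nat_lit 426558) (nat_lit 33) (.e (nat_lit 392960) (nat_lit 8) (.e (nat_lit 3062) (nat_lit 190) .nil))))))) (.g (nat_lit 1) (.e (nat_lit 351405) (nat_lit 0) .nil) .nil))) 
(.lf (nat_lit 571349) (.g (nat_lit 2715) (.e (nat_lit 475185) (nat_lit 29) (.e (nat_lit 557100) (nat_lit 13) (.e (nat_lit 172106) (nat_lit 10) (.e (nat_lit 434231) (nat_lit 23) (.e (nat_lit 532483) (nat_lit 0) (.e (nat_lit 6684) (nat_lit 357) (.e (nat_lit 3064) (nat_lit 190) .nil))))))) (.g (nat_lit 1) (.e (nat_lit 352167) (nat_lit 0) .nil) .nil))))))) 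
(.nd (nat_lit 6) (.nd (nat_lit 7) (.nd (nat_lit 8) (.nd (nat_lit 9) 
(.lf (nat_lit 570421) (.g (nat_lit 1481) (.e (nat_lit 475177) (nat_lit 24) (.e (nat_lit 516149) (nat_lit 9) (.e (nat_lit 426323) (nat_lit 13) (.e (nat_lit 483365) (nat_lit 18) (.e (nat_lit 57687) (nat_lit 156) (.e (nat_lit 163937) (nat_lit 18) .nil)))))) (.g (nat_lit 1) (.e (nat_lit 350796) (nat_lit 0) .nil) .nil))) 
(.lf (nat_lit 570933) (.g (nat_lit 1458) (.e (nat_lit 475179) (nat_lit 24) (.e (nat_lit 516146) (nat_lit 9) (.e (nat_lit 426428) (nat_lit 17) (.e (nat_lit 90125) (nat_lit 9) .nil)))) (.g (nat_lit 0) (.e (nat_lit 351533) (nat_lit 0) .nil) .nil)))) (.nd (nat_lit 9) 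
(.lf (nat_lit 570677) (.g (nat_lit 2051) (.e (nat_lit 475179) (nat_lit 24) (.e (nat_lit 516115) (nat_lit 1) (.e (nat_lit 164325) (nat_lit 230) (.e (nat_lit 163907) (nat_lit 12) (.e (nat_lit 426481) (nat_lit 27) .nil))))) (.g (nat_lit 0) (.e (nat_lit 351171) (nat_lit 0) .nil) .nil))) 
(.lf (nat_lit 571189) (.g (nat_lit 1758) (.e (nat_lit 475184) (nat_lit 29) (.e (nat_lit 557101) (nat_lit 13) (.e (nat_lit 172097) (nat_lit 9) (.e (nat_lit 426140) (nat_lit 3) (.e (nat_lit 204821) (nat_lit 17) (.e (nat_lit 6680) (nat_lit 357) (.e (nat_lit 3065) (nat_lit 190) .nil))))))) (.g (nat_lit 1) (.e (nat_lit 351990) (nat_lit 0) .nil) .nil))))) (.nd (nat_lit 8) (.nd (nat_lit 9) 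
(.lf (nat_lit 570549) (.g (nat_lit 1137) (.e (nat_lit 475177) (nat_lit 24) (.e (nat_lit 516176) (nat_lit 14) (.e (nat_lit 466954) (nat_lit 11) (.e (nat_lit 335995) (nat_lit 1) .nil)))) (.g (nat_lit 0) (.e (nat_lit 350980) (nat_lit 0) .nil) .nil))) 
(.lf (nat_lit 571061) (.g (nat_lit 2670) (.e (nat_lit 475183) (nat_lit 29) (.e (nat_lit 557098) (nat_lit 13) (.e (nat_lit 172097) (nat_lit 9) (.e (nat_lit 426140) (nat_lit 3) (.e (nat_lit 204821) (nat_lit 17) (.e (nat_lit 6676) (nat_lit 357) (.e (nat_lit 3066) (nat_lit 190) .nil))))))) (.g (nat_lit 1) (.e (nat_lit 351850) (nat_lit 0) .nil) .nil)))) (.nd (nat_lit 9) 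
(.lf (nat_lit 570805) (.g (nat_lit 502) (.e (nat_lit 475179) (nat_lit 24) (.e (nat_lit 516120) (nat_lit 1) (.e (nat_lit 164304) (nat_lit 226) .nil))) (.g (nat_lit 0) (.e (nat_lit 351371) (nat_lit 0) .nil) .nil))) 
(.lf (nat_lit 571317) (.g (nat_lit 3114) (.e (nat_lit 475185) (nat_lit 29) (.e (nat_lit 557098) (nat_lit 13) (.e (nat_lit 172115) (nat_lit 10) (.e (nat_lit 434231) (nat_lit 23) (.e (nat_lit 532490) (nat_lit 0) (.e (nat_lit 6680) (nat_lit 357) (.e (nat_lit 3066) (nat_lit 190) .nil))))))) (.g (nat_lit 1) (.e (nat_lit 352134) (nat_lit 0) .nil) .nil)))))) 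
(.nd (nat_lit 7) (.nd (nat_lit 8) (.nd (nat_lit 9) 
(.lf (nat_lit 570485) (.g (nat_lit 341) (.e (nat_lit 475177) (nat_lit 24) (.e (nat_lit 516174) (nat_lit 14) (.e (nat_lit 466954) (nat_lit 11) .nil))) (.g (nat_lit 0) (.e (nat_lit 350895) (nat_lit 0) .nil) .nil))) 
(.lf (nat_lit 570997) (.g (nat_lit 418) (.e (nat_lit 475179) (nat_lit 24) (.e (nat_lit 516176) (nat_lit 14) (.e (nat_lit 466954) (nat_lit 11) .nil))) (.g (nat_lit 0) (.e (nat_lit 351767) (nat_lit 0) .nil) .nil)))) (.nd (nat_lit 9) 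
(.lf (nat_lit 570741) (.g (nat_lit 1225) (.e (nat_lit 475179) (nat_lit 24) (.e (nat_lit 516117) (nat_lit 1) (.e (nat_lit 164332) (nat_lit 230) (.e (nat_lit 163902) (nat_lit 12) (.e (nat_lit 426479) (nat_lit 27) .nil))))) (.g (nat_lit 0) (.e (nat_lit 351275) (nat_lit 0) .nil) .nil))) 
(.lf (nat_lit 571253) (.g (nat_lit 2022) (.e (nat_lit 475184) (nat_lit 29) (.e (nat_lit 557109) (nat_lit 15) (.e (nat_lit 188450) (nat_lit 23) (.e (nat_lit 204883) (nat_lit 33) .nil)))) (.g (nat_lit 0) (.e (nat_lit 352059) (nat_lit 0) .nil) .nil))))) (.nd (nat_lit 8) (.nd (nat_lit 9) 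
(.lf (nat_lit 570613) (.g (nat_lit 1524) (.e (nat_lit 475178) (nat_lit 24) (.e (nat_lit 516117) (nat_lit 1) (.e (nat_lit 164329) (nat_lit 230) (.e (nat_lit 163902) (nat_lit 12) (.e (nat_lit 426478) (nat_lit 27) .nil))))) (.g (nat_lit 0) (.e (nat_lit 351071) (nat_lit 0) .nil) .nil))) 
(.lf (nat_lit 571125) (.g (nat_lit 4884) (.e (nat_lit 475183) (nat_lit 29) (.e (nat_lit 557109) (nat_lit 15) (.e (nat_lit 188449) (nat_lit 22) (.e (nat_lit 196619) (nat_lit 9) (.e (nat_lit 1666) (nat_lit 116) .nil))))) (.g (nat_lit 0) (.e (nat_lit 351916) (nat_lit 0) .nil) .nil)))) (.nd (nat_lit 9) 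
(.lf (nat_lit 570869) (.g (nat_lit 2894) (.e (nat_lit 475179) (nat_lit 24) (.e (nat_lit 516120) (nat_lit 1) (.e (nat_lit 164330) (nat_lit 230) (.e (nat_lit 163941) (nat_lit 19) (.e (nat_lit 483336) (nat_lit 9) .nil))))) (.g (nat_lit 0) (.e (nat_lit 351442) (nat_lit 0) .nil) .nil))) 
(.lf (nat_lit 571381) (.g (nat_lit 3604) (.e (nat_lit 475185) (nat_lit 29) (.e (nat_lit 557100) (nat_lit 13) (.e (nat_lit 172113) (nat_lit 10) (.e (nat_lit 434242) (nat_lit 28) (.e (nat_lit 573474) (nat_lit 12) (.e (nat_lit 57348) (nat_lit 0) (.e (nat_lit 6940) (nat_lit 375) (.e (nat_lit 163938) (nat_lit 18) .nil)))))))) (.g (nat_lit 1) (.e (nat_lit 352199) (nat_lit 0) .nil) .nil))))))))) 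
(.nd (nat_lit 4) (.nd (nat_lit 5) (.nd (nat_lit 6) (.nd (nat_lit 7) (.nd (nat_lit 8) 
(.nd (nat_lit 9) 
(.lf (nat_lit 570381) (.g (nat_lit 1189) (.e (nat_lit 475177) (nat_lit 24) (.e (nat_lit 516129) (nat_lit 3) (.e (nat_lit 221194) (nat_lit 11) (.e (nat_lit 336026) (nat_lit 3) (.e (nat_lit 98362) (nat_lit 26) .nil))))) (.g (nat_lit 0) (.e (nat_lit 350743) (nat_lit 0) .nil) .nil))) 
(.lf (nat_lit 570893) (.g (nat_lit 2330) (.e (nat_lit 475179) (nat_lit 24) (.e (nat_lit 516120) (nat_lit 1) (.e (nat_lit 164332) (nat_lit 230) (.e (nat_lit 163905) (nat_lit 12) (.e (nat_lit 426491) (nat_lit 27) (.e (nat_lit 336409) (nat_lit 27) (.e (nat_lit 426313) (nat_lit 12) .nil))))))) (.g (nat_lit 1) (.e (nat_lit 351475) (nat_lit 0) .nil) .nil)))) (.nd (nat_lit 9) 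
(.lf (nat_lit 570637) (.g (nat_lit 1636) (.e (nat_lit 475178) (nat_lit 24) (.e (nat_lit 516146) (nat_lit 9) (.e (nat_lit 426428) (nat_lit 17) (.e (nat_lit 90133) (nat_lit 9) (.e (nat_lit 2902) (nat_lit 184) .nil))))) (.g (nat_lit 0) (.e (nat_lit 351114) (nat_lit 0) .nil) .nil))) 
(.lf (nat_lit 571149) (.g (nat_lit 3613) (.e (nat_lit 475184) (nat_lit 29) (.e (nat_lit 557098) (nat_lit 13) (.e (nat_lit 172097) (nat_lit 9) (.e (nat_lit 426140) (nat_lit 3) (.e (nat_lit 204821) (nat_lit 17) (.e (nat_lit 6676) (nat_lit 357) (.e (nat_lit 3067) (nat_lit 190) .nil))))))) (.g (nat_lit 1) (.e (nat_lit 351950) (nat_lit 0) .nil) .nil))))) (.nd (nat_lit 8) (.nd (nat_lit 9) 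
(.lf (nat_lit 570509) (.g (nat_lit 2424) (.e (nat_lit 475177) (nat_lit 24) (.e (nat_lit 516174) (nat_lit 14) (.e (nat_lit 466954) (nat_lit 11) (.e (nat_lit 335994) (nat_lit 1) (.e (nat_lit 57688) (nat_lit 156) (.e (nat_lit 163937) (nat_lit 18) .nil)))))) (.g (nat_lit 1) (.e (nat_lit 350928) (nat_lit 0) .nil) .nil))) 
(.lf (nat_lit 571021) (.g (nat_lit 2330) (.e (nat_lit 475179) (nat_lit 24) (.e (nat_lit 516176) (nat_lit 14) (.e (nat_lit 466954) (nat_lit 11) (.e (nat_lit 335996) (nat_lit 1) (.e (nat_lit 57690) (nat_lit 156) .nil))))) (.g (nat_lit 0) (.e (nat_lit 351799) (nat_lit 0) .nil) .nil)))) (.nd (nat_lit 9) 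
(.lf (nat_lit 570765) (.g (nat_lit 2036) (.e (nat_lit 475179) (nat_lit 24) (.e (nat_lit 516119) (nat_lit 1) (.e (nat_lit 164324) (nat_lit 230) (.e (nat_lit 163905) (nat_lit 12) (.e (nat_lit 426566) (nat_lit 34) .nil))))) (.g (nat_lit 0) (.e (nat_lit 351305) (nat_lit 0) .nil) .nil))) 
(.lf (nat_lit 571277) (.g (nat_lit 2193) (.e (nat_lit 475184) (nat_lit 29) (.e (nat_lit 557109) (nat_lit 15) (.e (nat_lit 188452) (nat_lit 23) (.e (nat_lit 204884) (nat_lit 33) (.e (nat_lit 401452) (nat_lit 12) .nil))))) (.g (nat_lit 0) (.e (nat_lit 352083) (nat_lit 0) .nil) .nil)))))) (.nd (nat_lit 7) (.nd (nat_lit 8) (.nd (nat_lit 9) 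
(.lf (nat_lit 570445) (.g (nat_lit 3195) (.e (nat_lit 475177) (nat_lit 24) (.e (nat_lit 516150) (nat_lit 9) (.e (nat_lit 426323) (nat_lit 13) (.e (nat_lit 483363) (nat_lit 18) (.e (nat_lit 57691) (nat_lit 156) (.e (nat_lit 163939) (nat_lit 18) .nil)))))) (.g (nat_lit 1) (.e (nat_lit 350830) (nat_lit 0) .nil) .nil))) 
(.lf (nat_lit 570957) (.g (nat_lit 1879) (.e (nat_lit 475179) (nat_lit 24) (.e (nat_lit 516151) (nat_lit 9) (.e (nat_lit 426042) (nat_lit 0) (.e (nat_lit 3307) (nat_lit 202) .nil)))) (.g (nat_lit 0) (.e (nat_lit 351578) (nat_lit 0) .nil) .nil)))) (.nd (nat_lit 9) 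
(.lf (nat_lit 570701) (.g (nat_lit 2179) (.e (nat_lit 475179) (nat_lit 24) (.e (nat_lit 516115) (nat_lit 1) (.e (nat_lit 164327) (nat_lit 230) (.e (nat_lit 163904) (nat_lit 12) (.e (nat_lit 426566) (nat_lit 34) .nil))))) (.g (nat_lit 0) (.e (nat_lit 351215) (nat_lit 0) .nil) .nil))) 
(.lf (nat_lit 571213) (.g (nat_lit 1712) (.e (nat_lit 475184) (nat_lit 29) (.e (nat_lit 557107) (nat_lit 15) (.e (nat_lit 188450) (nat_lit 23) (.e (nat_lit 204821) (nat_lit 17) (.e (nat_lit 6676) (nat_lit 357) (.e (nat_lit 3064) (nat_lit 190) .nil)))))) (.g (nat_lit 1) (.e (nat_lit 352019) (nat_lit 0) .nil) .nil))))) (.nd (nat_lit 8) (.nd (nat_lit 9) 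
(.lf (nat_lit 570573) (.g (nat_lit 491) (.e (nat_lit 475177) (nat_lit 24) (.e (nat_lit 516179) (nat_lit 15) (.e (nat_lit 475179) (nat_lit 24) .nil))) (.g (nat_lit 0) (.e (nat_lit 351013) (nat_lit 0) .nil) .nil))) 
(.lf (nat_lit 571085) (.g (nat_lit 1715) (.e (nat_lit 475183) (nat_lit 29) (.e (nat_lit 557101) (nat_lit 13) (.e (nat_lit 172097) (nat_lit 9) (.e (nat_lit 426125) (nat_lit 2) (.e (nat_lit 196661) (nat_lit 12) .nil))))) (.g (nat_lit 0) (.e (nat_lit 351874) (nat_lit 0) .nil) .nil)))) (.nd (nat_lit 9) 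
(.lf (nat_lit 570829) (.g (nat_lit 2660) (.e (nat_lit 475179) (nat_lit 24) (.e (nat_lit 516120) (nat_lit 1) (.e (nat_lit 164330) (nat_lit 230) (.e (nat_lit 163902) (nat_lit 12) (.e (nat_lit 426481) (nat_lit 27) .nil))))) (.g (nat_lit 0) (.e (nat_lit 351397) (nat_lit 0) .nil) .nil))) 
(.lf (nat_lit 571341) (.g (nat_lit 2092) (.e (nat_lit 475185) (nat_lit 29) (.e (nat_lit 557100) (nat_lit 13) (.e (nat_lit 172106) (nat_lit 10) (.e (nat_lit 434231) (nat_lit 23) (.e (nat_lit 532482) (nat_lit 0) (.e (nat_lit 6617) (nat_lit 357) (.e (nat_lit 3063) (nat_lit 190) .nil))))))) (.g (nat_lit 1) (.e (nat_lit 352159) (nat_lit 0) .nil) .nil))))))) 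
(.nd (nat_lit 6) (.nd (nat_lit 7) (.nd (nat_lit 8) (.nd (nat_lit 9) 
(.lf (nat_lit 570413) (.g (nat_lit 2186) (.e (nat_lit 475177) (nat_lit 24) (.e (nat_lit 516149) (nat_lit 9) (.e (nat_lit 426323) (nat_lit 13) (.e (nat_lit 483363) (nat_lit 18) (.e (nat_lit 57686) (nat_lit 156) (.e (nat_lit 163939) (nat_lit 18) .nil)))))) (.g (nat_lit 1) (.e (nat_lit 350787) (nat_lit 0) .nil) .nil))) 
(.lf (nat_lit 570925) (.g (nat_lit 3051) (.e (nat_lit 475179) (nat_lit 24) (.e (nat_lit 516146) (nat_lit 9) (.e (nat_lit 426323) (nat_lit 13) (.e (nat_lit 483363) (nat_lit 18) (.e (nat_lit 57692) (nat_lit 156) (.e (nat_lit 163939) (nat_lit 18) .nil)))))) (.g (nat_lit 1) (.e (nat_lit 351525) (nat_lit 0) .nil) .nil)))) (.nd (nat_lit 9) 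
(.lf (nat_lit 570669) (.g (nat_lit 3414) (.e (nat_lit 475179) (nat_lit 24) (.e (nat_lit 516115) (nat_lit 1) (.e (nat_lit 164325) (nat_lit 230) (.e (nat_lit 163903) (nat_lit 12) (.e (nat_lit 426568) (nat_lit 34) (.e (nat_lit 393292) (nat_lit 26) .nil)))))) (.g (nat_lit 1) (.e (nat_lit 351161) (nat_lit 0) .nil) .nil))) 
(.lf (nat_lit 571181) (.g (nat_lit 2347) (.e (nat_lit 475184) (nat_lit 29) (.e (nat_lit 557100) (nat_lit 13) (.e (nat_lit 172113) (nat_lit 10) (.e (nat_lit 434248) (nat_lit 28) (.e (nat_lit 573469) (nat_lit 11) (.e (nat_lit 16458) (nat_lit 12) .nil)))))) (.g (nat_lit 1) (.e (nat_lit 351982) (nat_lit 0) .nil) .nil))))) (.nd (nat_lit 8) (.nd (nat_lit 9) 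
(.lf (nat_lit 570541) (.g (nat_lit 1625) (.e (nat_lit 475177) (nat_lit 24) (.e (nat_lit 516176) (nat_lit 14) (.e (nat_lit 466954) (nat_lit 11) (.e (nat_lit 335993) (nat_lit 1) .nil)))) (.g (nat_lit 0) (.e (nat_lit 350971) (nat_lit 0) .nil) .nil))) 
(.lf (nat_lit 571053) (.g (nat_lit 1218) (.e (nat_lit 475183) (nat_lit 29) (.e (nat_lit 557097) (nat_lit 13) (.e (nat_lit 172115) (nat_lit 10) (.e (nat_lit 434231) (nat_lit 23) .nil)))) (.g (nat_lit 0) (.e (nat_lit 351842) (nat_lit 0) .nil) .nil)))) (.nd (nat_lit 9) 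
(.lf (nat_lit 570797) (.g (nat_lit 776) (.e (nat_lit 475179) (nat_lit 24) (.e (nat_lit 516119) (nat_lit 1) (.e (nat_lit 164329) (nat_lit 230) .nil))) (.g (nat_lit 0) (.e (nat_lit 351360) (nat_lit 0) .nil) .nil))) 
(.lf (nat_lit 571309) (.g (nat_lit 1165) (.e (nat_lit 475185) (nat_lit 29) (.e (nat_lit 557098) (nat_lit 13) (.e (nat_lit 172104) (nat_lit 9) .nil))) (.g (nat_lit 0) (.e (nat_lit 352126) (nat_lit 0) .nil) .nil)))))) (.nd (nat_lit 7) (.nd (nat_lit 8) (.nd (nat_lit 9) 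
(.lf (nat_lit 570477) (.g (nat_lit 1852) (.e (nat_lit 475177) (nat_lit 24) (.e (nat_lit 516150) (nat_lit 9) (.e (nat_lit 426438) (nat_lit 18) (.e (nat_lit 98358) (nat_lit 26) (.e (nat_lit 433920) (nat_lit 18) .nil))))) (.g (nat_lit 0) (.e (nat_lit 350866) (nat_lit 0) .nil) .nil))) 
(.lf (nat_lit 570989) (.g (nat_lit 2609) (.e (nat_lit 475179) (nat_lit 24) (.e (nat_lit 516176) (nat_lit 14) (.e (nat_lit 466950) (nat_lit 11) (.e (nat_lit 335995) (nat_lit 1) (.e (nat_lit 57688) (nat_lit 156) (.e (nat_lit 163938) (nat_lit 18) .nil)))))) (.g (nat_lit 1) (.e (nat_lit 351759) (nat_lit 0) .nil) .nil)))) (.nd (nat_lit 9) 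
(.lf (nat_lit 570733) (.g (nat_lit 1839) (.e (nat_lit 475179) (nat_lit 24) (.e (nat_lit 516117) (nat_lit 1) (.e (nat_lit 164330) (nat_lit 230) (.e (nat_lit 163909) (nat_lit 12) (.e (nat_lit 426498) (nat_lit 27) .nil))))) (.g (nat_lit 0) (.e (nat_lit 351264) (nat_lit 0) .nil) .nil))) 
(.lf (nat_lit 571245) (.g (nat_lit 3348) (.e (nat_lit 475184) (nat_lit 29) (.e (nat_lit 557109) (nat_lit 15) (.e (nat_lit 188449) (nat_lit 22) (.e (nat_lit 196661) (nat_lit 12) (.e (nat_lit 57750) (nat_lit 201) (.e (nat_lit 3066) (nat_lit 190) .nil)))))) (.g (nat_lit 1) (.e (nat_lit 352051) (nat_lit 0) .nil) .nil))))) (.nd (nat_lit 8) (.nd (nat_lit 9) 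
(.lf (nat_lit 570605) (.g (nat_lit 2616) (.e (nat_lit 475178) (nat_lit 24) (.e (nat_lit 516115) (nat_lit 1) (.e (nat_lit 164325) (nat_lit 230) (.e (nat_lit 163901) (nat_lit 12) .nil)))) (.g (nat_lit 0) (.e (nat_lit 351057) (nat_lit 0) .nil) .nil))) 
(.lf (nat_lit 571117) (.g (nat_lit 4218) (.e (nat_lit 475183) (nat_lit 29) (.e (nat_lit 557108) (nat_lit 15) (.e (nat_lit 188452) (nat_lit 23) (.e (nat_lit 204885) (nat_lit 33) (.e (nat_lit 401450) (nat_lit 12) .nil))))) (.g (nat_lit 1) (.e (nat_lit 351908) (nat_lit 0) .nil) .nil)))) (.nd (nat_lit 9) 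
(.lf (nat_lit 570861) (.g (nat_lit 3020) (.e (nat_lit 475179) (nat_lit 24) (.e (nat_lit 516120) (nat_lit 1) (.e (nat_lit 164330) (nat_lit 230) (.e (nat_lit 163913) (nat_lit 12) (.e (nat_lit 433920) (nat_lit 34) (.e (nat_lit 393296) (nat_lit 26) .nil)))))) (.g (nat_lit 1) (.e (nat_lit 351432) (nat_lit 0) .nil) .nil))) 
(.lf (nat_lit 571373) (.g (nat_lit 2902) (.e (nat_lit 475185) (nat_lit 29) (.e (nat_lit 557100) (nat_lit 13) (.e (nat_lit 172106) (nat_lit 10) (.e (nat_lit 434244) (nat_lit 28) (.e (nat_lit 573451) (nat_lit 9) (.e (nat_lit 396) (nat_lit 32) (.e (nat_lit 426314) (nat_lit 12) .nil))))))) (.g (nat_lit 1) (.e (nat_lit 352191) (nat_lit 0) .nil) .nil)))))))) 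
(.nd (nat_lit 5) (.nd (nat_lit 6) (.nd (nat_lit 7) (.nd (nat_lit 8) (.nd (nat_lit 9) 
(.lf (nat_lit 570397) (.g (nat_lit 2307) (.e (nat_lit 475177) (nat_lit 24) (.e (nat_lit 516146) (nat_lit 9) (.e (nat_lit 426438) (nat_lit 18) (.e (nat_lit 98358) (nat_lit 26) (.e (nat_lit 426361) (nat_lit 15) .nil))))) (.g (nat_lit 0) (.e (nat_lit 350766) (nat_lit 0) .nil) .nil))) 
(.lf (nat_lit 570909) (.g (nat_lit 3373) (.e (nat_lit 475179) (nat_lit 24) (.e (nat_lit 516131) (nat_lit 3) (.e (nat_lit 221190) (nat_lit 11) (.e (nat_lit 336011) (nat_lit 2) (.e (nat_lit 90170) (nat_lit 13) (.e (nat_lit 172118) (nat_lit 12) .nil)))))) (.g (nat_lit 1) (.e (nat_lit 351503) (nat_lit 0) .nil) .nil)))) (.nd (nat_lit 9) 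
(.lf (nat_lit 570653) (.g (nat_lit 2364) (.e (nat_lit 475179) (nat_lit 24) (.e (nat_lit 516115) (nat_lit 1) (.e (nat_lit 164325) (nat_lit 230) (.e (nat_lit 163872) (nat_lit 3) .nil)))) (.g (nat_lit 0) (.e (nat_lit 351145) (nat_lit 0) .nil) .nil))) 
(.lf (nat_lit 571165) (.g (nat_lit 1960) (.e (nat_lit 475184) (nat_lit 29) (.e (nat_lit 557098) (nat_lit 13) (.e (nat_lit 172115) (nat_lit 10) (.e (nat_lit 434231) (nat_lit 23) (.e (nat_lit 532568) (nat_lit 16) .nil))))) (.g (nat_lit 0) (.e (nat_lit 351966) (nat_lit 0) .nil) .nil))))) (.nd (nat_lit 8) (.nd (nat_lit 9) 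
(.lf (nat_lit 570525) (.g (nat_lit 1069) (.e (nat_lit 475177) (nat_lit 24) (.e (nat_lit 516176) (nat_lit 14) (.e (nat_lit 466954) (nat_lit 11) (.e (nat_lit 335986) (nat_lit 1) .nil)))) (.g (nat_lit 0) (.e (nat_lit 350949) (nat_lit 0) .nil) .nil))) 
(.lf (nat_lit 571037) (.g (nat_lit 2771) (.e (nat_lit 475179) (nat_lit 24) (.e (nat_lit 516179) (nat_lit 15) (.e (nat_lit 475179) (nat_lit 24) (.e (nat_lit 516146) (nat_lit 9) (.e (nat_lit 426434) (nat_lit 18) .nil))))) (.g (nat_lit 0) (.e (nat_lit 351819) (nat_lit 0) .nil) .nil)))) (.nd (nat_lit 9) 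
(.lf (nat_lit 570781) (.g (nat_lit 1577) (.e (nat_lit 475179) (nat_lit 24) (.e (nat_lit 516119) (nat_lit 1) (.e (nat_lit 164326) (nat_lit 230) (.e (nat_lit 163903) (nat_lit 12) (.e (nat_lit 426479) (nat_lit 27) .nil))))) (.g (nat_lit 0) (.e (nat_lit 351338) (nat_lit 0) .nil) .nil))) 
(.lf (nat_lit 571293) (.g (nat_lit 859) (.e (nat_lit 475185) (nat_lit 29) (.e (nat_lit 557098) (nat_lit 13) (.e (nat_lit 172085) (nat_lit 9) .nil))) (.g (nat_lit 0) (.e (nat_lit 352110) (nat_lit 0) .nil) .nil)))))) (.nd (nat_lit 7) (.nd (nat_lit 8) (.nd (nat_lit 9) 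
(.lf (nat_lit 570461) (.g (nat_lit 2563) (.e (nat_lit 475177) (nat_lit 24) (.e (nat_lit 516150) (nat_lit 9) (.e (nat_lit 426323) (nat_lit 13) (.e (nat_lit 483366) (nat_lit 18) (.e (nat_lit 57688) (nat_lit 156) (.e (nat_lit 163937) (nat_lit 18) .nil)))))) (.g (nat_lit 1) (.e (nat_lit 350848) (nat_lit 0) .nil) .nil))) 
(.lf (nat_lit 570973) (.g (nat_lit 1935) (.e (nat_lit 475179) (nat_lit 24) (.e (nat_lit 516174) (nat_lit 14) (.e (nat_lit 466954) (nat_lit 11) (.e (nat_lit 335986) (nat_lit 1) (.e (nat_lit 57687) (nat_lit 156) .nil))))) (.g (nat_lit 0) (.e (nat_lit 351742) (nat_lit 0) .nil) .nil)))) (.nd (nat_lit 9) 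
(.lf (nat_lit 570717) (.g (nat_lit 604) (.e (nat_lit 475179) (nat_lit 24) (.e (nat_lit 516117) (nat_lit 1) (.e (nat_lit 164312) (nat_lit 226) .nil))) (.g (nat_lit 0) (.e (nat_lit 351244) (nat_lit 0) .nil) .nil))) 
(.lf (nat_lit 571229) (.g (nat_lit 1463) (.e (nat_lit 475184) (nat_lit 29) (.e (nat_lit 557109) (nat_lit 15) (.e (nat_lit 188427) (nat_lit 20) (.e (nat_lit 2402) (nat_lit 157) .nil)))) (.g (nat_lit 0) (.e (nat_lit 352035) (nat_lit 0) .nil) .nil))))) (.nd (nat_lit 8) (.nd (nat_lit 9) 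
(.lf (nat_lit 570589) (.g (nat_lit 2556) (.e (nat_lit 475177) (nat_lit 24) (.e (nat_lit 516181) (nat_lit 15) (.e (nat_lit 475177) (nat_lit 24) (.e (nat_lit 516150) (nat_lit 9) (.e (nat_lit 426434) (nat_lit 18) (.e (nat_lit 98384) (nat_lit 32) .nil)))))) (.g (nat_lit 1) (.e (nat_lit 351038) (nat_lit 0) .nil) .nil))) 
(.lf (nat_lit 571101) (.g (nat_lit 2392) (.e (nat_lit 475183) (nat_lit 29) (.e (nat_lit 557107) (nat_lit 15) (.e (nat_lit 188452) (nat_lit 23) (.e (nat_lit 204885) (nat_lit 33) .nil)))) (.g (nat_lit 0) (.e (nat_lit 351892) (nat_lit 0) .nil) .nil)))) (.nd (nat_lit 9) 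
(.lf (nat_lit 570845) (.g (nat_lit 1442) (.e (nat_lit 475179) (nat_lit 24) (.e (nat_lit 516120) (nat_lit 1) (.e (nat_lit 164330) (nat_lit 230) (.e (nat_lit 163905) (nat_lit 12) .nil)))) (.g (nat_lit 0) (.e (nat_lit 351413) (nat_lit 0) .nil) .nil))) 
(.lf (nat_lit 571357) (.g (nat_lit 2366) (.e (nat_lit 475185) (nat_lit 29) (.e (nat_lit 557100) (nat_lit 13) (.e (nat_lit 172106) (nat_lit 10) (.e (nat_lit 434231) (nat_lit 23) (.e (nat_lit 532490) (nat_lit 0) (.e (nat_lit 6680) (nat_lit 357) (.e (nat_lit 7936) (nat_lit 190) .nil))))))) (.g (nat_lit 1) (.e (nat_lit 352175) (nat_lit 0) .nil) .nil))))))) 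
(.nd (nat_lit 6) (.nd (nat_lit 7) (.nd (nat_lit 8) (.nd (nat_lit 9) 
(.lf (nat_lit 570429) (.g (nat_lit 1572) (.e (nat_lit 475177) (nat_lit 24) (.e (nat_lit 516150) (nat_lit 9) (.e (nat_lit 426131) (nat_lit 3) (.e (nat_lit 204833) (nat_lit 19) .nil)))) (.g (nat_lit 0) (.e (nat_lit 350804) (nat_lit 0) .nil) .nil))) 
(.lf (nat_lit 570941) (.g (nat_lit 3741) (.e (nat_lit 475179) (nat_lit 24) (.e (nat_lit 516150) (nat_lit 9) (.e (nat_lit 426131) (nat_lit 3) (.e (nat_lit 204837) (nat_lit 20) (.e (nat_lit 122624) (nat_lit 2) (.e (nat_lit 196624) (nat_lit 9) (.e (nat_lit 489) (nat_lit 38) .nil))))))) (.g (nat_lit 1) (.e (nat_lit 351556) (nat_lit 0) .nil) .nil)))) (.nd (nat_lit 9) 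
(.lf (nat_lit 570685) (.g (nat_lit 2288) (.e (nat_lit 475179) (nat_lit 24) (.e (nat_lit 516115) (nat_lit 1) (.e (nat_lit 164325) (nat_lit 230) (.e (nat_lit 163907) (nat_lit 12) (.e (nat_lit 426507) (nat_lit 27) .nil))))) (.g (nat_lit 0) (.e (nat_lit 351179) (nat_lit 0) .nil) .nil))) 
(.lf (nat_lit 571197) (.g (nat_lit 1763) (.e (nat_lit 475184) (nat_lit 29) (.e (nat_lit 557101) (nat_lit 13) (.e (nat_lit 172115) (nat_lit 10) (.e (nat_lit 434231) (nat_lit 23) (.e (nat_lit 540416) (nat_lit 16) .nil))))) (.g (nat_lit 0) (.e (nat_lit 351998) (nat_lit 0) .nil) .nil))))) (.nd (nat_lit 8) (.nd (nat_lit 9) 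
(.lf (nat_lit 570557) (.g (nat_lit 1139) (.e (nat_lit 475177) (nat_lit 24) (.e (nat_lit 516176) (nat_lit 14) (.e (nat_lit 466954) (nat_lit 11) (.e (nat_lit 335996) (nat_lit 1) .nil)))) (.g (nat_lit 0) (.e (nat_lit 350989) (nat_lit 0) .nil) .nil))) 
(.lf (nat_lit 571069) (.g (nat_lit 2703) (.e (nat_lit 475183) (nat_lit 29) (.e (nat_lit 557098) (nat_lit 13) (.e (nat_lit 172115) (nat_lit 10) (.e (nat_lit 434244) (nat_lit 28) (.e (nat_lit 573468) (nat_lit 10) (.e (nat_lit 8524) (nat_lit 205) (.e (nat_lit 3067) (nat_lit 190) .nil))))))) (.g (nat_lit 1) (.e (nat_lit 351858) (nat_lit 0) .nil) .nil)))) (.nd (nat_lit 9) 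
(.lf (nat_lit 570813) (.g (nat_lit 2046) (.e (nat_lit 475179) (nat_lit 24) (.e (nat_lit 516120) (nat_lit 1) (.e (nat_lit 164329) (nat_lit 230) (.e (nat_lit 163850) (nat_lit 0) (.e (nat_lit 3252) (nat_lit 197) .nil))))) (.g (nat_lit 0) (.e (nat_lit 351381) (nat_lit 0) .nil) .nil))) 
(.lf (nat_lit 571325) (.g (nat_lit 2207) (.e (nat_lit 475185) (nat_lit 29) (.e (nat_lit 557098) (nat_lit 13) (.e (nat_lit 172126) (nat_lit 14) (.e (nat_lit 491537) (nat_lit 2) (.e (nat_lit 90133) (nat_lit 9) .nil))))) (.g (nat_lit 0) (.e (nat_lit 352142) (nat_lit 0) .nil) .nil)))))) (.nd (nat_lit 7) (.nd (nat_lit 8) (.nd (nat_lit 9) 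
(.lf (nat_lit 570493) (.g (nat_lit 2443) (.e (nat_lit 475177) (nat_lit 24) (.e (nat_lit 516174) (nat_lit 14) (.e (nat_lit 466954) (nat_lit 11) (.e (nat_lit 335986) (nat_lit 1) (.e (nat_lit 57686) (nat_lit 156) (.e (nat_lit 163939) (nat_lit 18) .nil)))))) (.g (nat_lit 1) (.e (nat_lit 350907) (nat_lit 0) .nil) .nil))) 
(.lf (nat_lit 571005) (.g (nat_lit 2781) (.e (nat_lit 475179) (nat_lit 24) (.e (nat_lit 516176) (nat_lit 14) (.e (nat_lit 466954) (nat_lit 11) (.e (nat_lit 335986) (nat_lit 1) (.e (nat_lit 57664) (nat_lit 152) .nil))))) (.g (nat_lit 0) (.e (nat_lit 351777) (nat_lit 0) .nil) .nil)))) (.nd (nat_lit 9) 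
(.lf (nat_lit 570749) (.g (nat_lit 2635) (.e (nat_lit 475179) (nat_lit 24) (.e (nat_lit 516117) (nat_lit 1) (.e (nat_lit 164332) (nat_lit 230) (.e (nat_lit 163905) (nat_lit 12) (.e (nat_lit 426489) (nat_lit 27) (.e (nat_lit 336409) (nat_lit 27) (.e (nat_lit 426313) (nat_lit 12) .nil))))))) (.g (nat_lit 1) (.e (nat_lit 351283) (nat_lit 0) .nil) .nil))) 
(.lf (nat_lit 571261) (.g (nat_lit 4358) (.e (nat_lit 475184) (nat_lit 29) (.e (nat_lit 557109) (nat_lit 15) (.e (nat_lit 188452) (nat_lit 23) (.e (nat_lit 204816) (nat_lit 17) (.e (nat_lit 6642) (nat_lit 357) (.e (nat_lit 3064) (nat_lit 190) .nil)))))) (.g (nat_lit 1) (.e (nat_lit 352067) (nat_lit 0) .nil) .nil))))) (.nd (nat_lit 8) (.nd (nat_lit 9) 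
(.lf (nat_lit 570621) (.g (nat_lit 2945) (.e (nat_lit 475178) (nat_lit 24) (.e (nat_lit 516119) (nat_lit 1) (.e (nat_lit 164324) (nat_lit 230) (.e (nat_lit 163907) (nat_lit 12) (.e (nat_lit 426566) (nat_lit 34) (.e (nat_lit 393296) (nat_lit 26) .nil)))))) (.g (nat_lit 1) (.e (nat_lit 351086) (nat_lit 0) .nil) .nil))) 
(.lf (nat_lit 571133) (.g (nat_lit 2931) (.e (nat_lit 475183) (nat_lit 29) (.e (nat_lit 557109) (nat_lit 15) (.e (nat_lit 188450) (nat_lit 23) (.e (nat_lit 204885) (nat_lit 33) .nil)))) (.g (nat_lit 0) (.e (nat_lit 351924) (nat_lit 0) .nil) .nil)))) (.nd (nat_lit 9) 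
(.lf (nat_lit 570877) (.g (nat_lit 3474) (.e (nat_lit 475179) (nat_lit 24) (.e (nat_lit 516120) (nat_lit 1) (.e (nat_lit 164331) (nat_lit 230) (.e (nat_lit 163902) (nat_lit 12) (.e (nat_lit 426566) (nat_lit 34) (.e (nat_lit 393293) (nat_lit 26) .nil)))))) (.g (nat_lit 1) (.e (nat_lit 351456) (nat_lit 0) .nil) .nil))) 
(.lf (nat_lit 571389) (.g (nat_lit 3314) (.e (nat_lit 475185) (nat_lit 29) (.e (nat_lit 557100) (nat_lit 13) (.e (nat_lit 172113) (nat_lit 10) (.e (nat_lit 434245) (nat_lit 28) (.e (nat_lit 573469) (nat_lit 11) (.e (nat_lit 16458) (nat_lit 12) .nil)))))) (.g (nat_lit 1) (.e (nat_lit 352207) (nat_lit 0) .nil) .nil))))))))))) 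
(.nd (nat_lit 2) (.nd (nat_lit 3) (.nd (nat_lit 4) (.nd (nat_lit 5) (.nd (nat_lit 6) 
(.nd (nat_lit 7) (.nd (nat_lit 8) (.nd (nat_lit 9) 
(.lf (nat_lit 570371) (.g (nat_lit 2092) (.e (nat_lit 475177) (nat_lit 24) (.e (nat_lit 516126) (nat_lit 2) (.e (nat_lit 213032) (nat_lit 11) (.e (nat_lit 24607) (nat_lit 3) (.e (nat_lit 98363) (nat_lit 26) (.e (nat_lit 426318) (nat_lit 12) .nil)))))) (.g (nat_lit 1) (.e (nat_lit 350733) (nat_lit 0) .nil) .nil))) 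
(.lf (nat_lit 570883) (.g (nat_lit 2885) (.e (nat_lit 475179) (nat_lit 24) (.e (nat_lit 516120) (nat_lit 1) (.e (nat_lit 164332) (nat_lit 230) (.e (nat_lit 163902) (nat_lit 12) (.e (nat_lit 426479) (nat_lit 27) (.e (nat_lit 336414) (nat_lit 27) (.e (nat_lit 426318) (nat_lit 12) .nil))))))) (.g (nat_lit 1) (.e (nat_lit 351465) (nat_lit 0) .nil) .nil)))) (.nd (nat_lit 9) 
(.lf (nat_lit 570627) (.g (nat_lit 3746) (.e (nat_lit 475178) (nat_lit 24) (.e (nat_lit 516120) (nat_lit 1) (.e (nat_lit 164329) (nat_lit 230) (.e (nat_lit 163902) (nat_lit 12) (.e (nat_lit 426566) (nat_lit 34) (.e (nat_lit 393296) (nat_lit 26) .nil)))))) (.g (nat_lit 1) (.e (nat_lit 351097) (nat_lit 0) .nil) .nil))) 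
(.lf (nat_lit 571139) (.g (nat_lit 3020) (.e (nat_lit 475183) (nat_lit 29) (.e (nat_lit 557109) (nat_lit 15) (.e (nat_lit 188452) (nat_lit 23) (.e (nat_lit 212736) (nat_lit 33) .nil)))) (.g (nat_lit 0) (.e (nat_lit 351930) (nat_lit 0) .nil) .nil))))) (.nd (nat_lit 8) (.nd (nat_lit 9) 
(.lf (nat_lit 570499) (.g (nat_lit 2499) (.e (nat_lit 475177) (nat_lit 24) (.e (nat_lit 516174) (nat_lit 14) (.e (nat_lit 466954) (nat_lit 11) (.e (nat_lit 335987) (nat_lit 1) (.e (nat_lit 57692) (nat_lit 156) (.e (nat_lit 163939) (nat_lit 18) .nil)))))) (.g (nat_lit 1) (.e (nat_lit 350913) (nat_lit 0) .nil) .nil))) 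
(.lf (nat_lit 571011) (.g (nat_lit 2145) (.e (nat_lit 475179) (nat_lit 24) (.e (nat_lit 516176) (nat_lit 14) (.e (nat_lit 466954) (nat_lit 11) (.e (nat_lit 335988) (nat_lit 1) (.e (nat_lit 57685) (nat_lit 156) .nil))))) (.g (nat_lit 0) (.e (nat_lit 351788) (nat_lit 0) .nil) .nil)))) (.nd (nat_lit 9) 
(.lf (nat_lit 570755) (.g (nat_lit 1781) (.e (nat_lit 475179) (nat_lit 24) (.e (nat_lit 516117) (nat_lit 1) (.e (nat_lit 164332) (nat_lit 230) (.e (nat_lit 163941) (nat_lit 19) (.e (nat_lit 483338) (nat_lit 9) .nil))))) (.g (nat_lit 0) (.e (nat_lit 351289) (nat_lit 0) .nil) .nil))) 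
(.lf (nat_lit 571267) (.g (nat_lit 3277) (.e (nat_lit 475184) (nat_lit 29) (.e (nat_lit 557109) (nat_lit 15) (.e (nat_lit 188452) (nat_lit 23) (.e (nat_lit 204821) (nat_lit 17) (.e (nat_lit 6680) (nat_lit 357) (.e (nat_lit 3066) (nat_lit 190) .nil)))))) (.g (nat_lit 1) (.e (nat_lit 352073) (nat_lit 0) .nil) .nil)))))) (.nd (nat_lit 7) (.nd (nat_lit 8) (.nd (nat_lit 9) 
(.lf (nat_lit 570435) (.g (nat_lit 3461) (.e (nat_lit 475177) (nat_lit 24) (.e (nat_lit 516150) (nat_lit 9) (.e (nat_lit 426131) (nat_lit 3) (.e (nat_lit 204838) (nat_lit 20) (.e (nat_lit 114688) (nat_lit 0) (.e (nat_lit 3233) (nat_lit 197) (.e (nat_lit 540416) (nat_lit 32) .nil))))))) (.g (nat_lit 1) (.e (nat_lit 350814) (nat_lit 0) .nil) .nil))) 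
(.lf (nat_lit 570947) (.g (nat_lit 3075) (.e (nat_lit 475179) (nat_lit 24) (.e (nat_lit 516150) (nat_lit 9) (.e (nat_lit 426323) (nat_lit 13) (.e (nat_lit 483363) (nat_lit 18) (.e (nat_lit 57692) (nat_lit 156) (.e (nat_lit 163938) (nat_lit 18) .nil)))))) (.g (nat_lit 1) (.e (nat_lit 351567) (nat_lit 0) .nil) .nil)))) (.nd (nat_lit 9) 
(.lf (nat_lit 570691) (.g (nat_lit 732) (.e (nat_lit 475179) (nat_lit 24) (.e (nat_lit 516115) (nat_lit 1) (.e (nat_lit 164326) (nat_lit 230) .nil))) (.g (nat_lit 0) (.e (nat_lit 351205) (nat_lit 0) .nil) .nil))) 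
(.lf (nat_lit 571203) (.g (nat_lit 1149) (.e (nat_lit 475184) (nat_lit 29) (.e (nat_lit 557107) (nat_lit 15) (.e (nat_lit 188447) (nat_lit 22) (.e (nat_lit 196630) (nat_lit 9) .nil)))) (.g (nat_lit 0) (.e (nat_lit 352009) (nat_lit 0) .nil) .nil))))) (.nd (nat_lit 8) (.nd (nat_lit 9) 
(.lf (nat_lit 570563) (.g (nat_lit 1456) (.e (nat_lit 475177) (nat_lit 24) (.e (nat_lit 516176) (nat_lit 14) (.e (nat_lit 466971) (nat_lit 21) (.e (nat_lit 164178) (nat_lit 154) .nil)))) (.g (nat_lit 0) (.e (nat_lit 351000) (nat_lit 0) .nil) .nil))) 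
(.lf (nat_lit 571075) (.g (nat_lit 1575) (.e (nat_lit 475183) (nat_lit 29) (.e (nat_lit 557100) (nat_lit 13) (.e (nat_lit 172113) (nat_lit 10) (.e (nat_lit 434242) (nat_lit 28) .nil)))) (.g (nat_lit 0) (.e (nat_lit 351864) (nat_lit 0) .nil) .nil)))) (.nd (nat_lit 9) 
(.lf (nat_lit 570819) (.g (nat_lit 1813) (.e (nat_lit 475179) (nat_lit 24) (.e (nat_lit 516120) (nat_lit 1) (.e (nat_lit 164330) (nat_lit 230) (.e (nat_lit 163850) (nat_lit 0) .nil)))) (.g (nat_lit 0) (.e (nat_lit 351387) (nat_lit 0) .nil) .nil))) 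
(.lf (nat_lit 571331) (.g (nat_lit 1463) (.e (nat_lit 475185) (nat_lit 29) (.e (nat_lit 557100) (nat_lit 13) (.e (nat_lit 172106) (nat_lit 10) (.e (nat_lit 434201) (nat_lit 18) .nil)))) (.g (nat_lit 0) (.e (nat_lit 352149) (nat_lit 0) .nil) .nil))))))) (.nd (nat_lit 6) (.nd (nat_lit 7) (.nd (nat_lit 8) (.nd (nat_lit 9) 
(.lf (nat_lit 570403) (.g (nat_lit 2515) (.e (nat_lit 475177) (nat_lit 24) (.e (nat_lit 516146) (nat_lit 9) (.e (nat_lit 426438) (nat_lit 18) (.e (nat_lit 98358) (nat_lit 26) (.e (nat_lit 426398) (nat_lit 15) .nil))))) (.g (nat_lit 0) (.e (nat_lit 350772) (nat_lit 0) .nil) .nil))) 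
(.lf (nat_lit 570915) (.g (nat_lit 3109) (.e (nat_lit 475179) (nat_lit 24) (.e (nat_lit 516146) (nat_lit 9) (.e (nat_lit 426131) (nat_lit 3) (.e (nat_lit 204837) (nat_lit 20) (.e (nat_lit 122624) (nat_lit 2) (.e (nat_lit 196624) (nat_lit 9) (.e (nat_lit 489) (nat_lit 38) .nil))))))) (.g (nat_lit 1) (.e (nat_lit 351513) (nat_lit 0) .nil) .nil)))) (.nd (nat_lit 9) 
(.lf (nat_lit 570659) (.g (nat_lit 2818) (.e (nat_lit 475179) (nat_lit 24) (.e (nat_lit 516115) (nat_lit 1) (.e (nat_lit 164325) (nat_lit 230) (.e (nat_lit 163875) (nat_lit 3) (.e (nat_lit 204836) (nat_lit 20) .nil))))) (.g (nat_lit 0) (.e (nat_lit 351151) (nat_lit 0) .nil) .nil))) 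
(.lf (nat_lit 571171) (.g (nat_lit 2259) (.e (nat_lit 475184) (nat_lit 29) (.e (nat_lit 557100) (nat_lit 13) (.e (nat_lit 172106) (nat_lit 10) (.e (nat_lit 434231) (nat_lit 23) (.e (nat_lit 532483) (nat_lit 0) .nil))))) (.g (nat_lit 0) (.e (nat_lit 351972) (nat_lit 0) .nil) .nil))))) (.nd (nat_lit 8) (.nd (nat_lit 9) 
(.lf (nat_lit 570531) (.g (nat_lit 2722) (.e (nat_lit 475177) (nat_lit 24) (.e (nat_lit 516176) (nat_lit 14) (.e (nat_lit 466954) (nat_lit 11) (.e (nat_lit 335986) (nat_lit 1) (.e (nat_lit 57665) (nat_lit 152) .nil))))) (.g (nat_lit 0) (.e (nat_lit 350958) (nat_lit 0) .nil) .nil))) 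
(.lf (nat_lit 571043) (.g (nat_lit 3018) (.e (nat_lit 483072) (nat_lit 24) (.e (nat_lit 516115) (nat_lit 1) (.e (nat_lit 164325) (nat_lit 230) (.e (nat_lit 163904) (nat_lit 12) .nil)))) (.g (nat_lit 0) (.e (nat_lit 351826) (nat_lit 0) .nil) .nil)))) (.nd (nat_lit 9) 
(.lf (nat_lit 570787) (.g (nat_lit 1021) (.e (nat_lit 475179) (nat_lit 24) (.e (nat_lit 516119) (nat_lit 1) (.e (nat_lit 164326) (nat_lit 230) (.e (nat_lit 163941) (nat_lit 19) .nil)))) (.g (nat_lit 0) (.e (nat_lit 351345) (nat_lit 0) .nil) .nil))) 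
(.lf (nat_lit 571299) (.g (nat_lit 1516) (.e (nat_lit 475185) (nat_lit 29) (.e (nat_lit 557098) (nat_lit 13) (.e (nat_lit 172094) (nat_lit 9) (.e (nat_lit 426125) (nat_lit 2) .nil)))) (.g (nat_lit 0) (.e (nat_lit 352116) (nat_lit 0) .nil) .nil)))))) (.nd (nat_lit 7) (.nd (nat_lit 8) (.nd (nat_lit 9) 
(.lf (nat_lit 570467) (.g (nat_lit 564) (.e (nat_lit 475177) (nat_lit 24) (.e (nat_lit 516150) (nat_lit 9) (.e (nat_lit 426434) (nat_lit 18) .nil))) (.g (nat_lit 0) (.e (nat_lit 350855) (nat_lit 0) .nil) .nil))) 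
(.lf (nat_lit 570979) (.g (nat_lit 2394) (.e (nat_lit 475179) (nat_lit 24) (.e (nat_lit 516174) (nat_lit 14) (.e (nat_lit 466954) (nat_lit 11) (.e (nat_lit 335994) (nat_lit 1) (.e (nat_lit 57688) (nat_lit 156) (.e (nat_lit 163938) (nat_lit 18) .nil)))))) (.g (nat_lit 1) (.e (nat_lit 351749) (nat_lit 0) .nil) .nil)))) (.nd (nat_lit 9) 
(.lf (nat_lit 570723) (.g (nat_lit 1830) (.e (nat_lit 475179) (nat_lit 24) (.e (nat_lit 516117) (nat_lit 1) (.e (nat_lit 164329) (nat_lit 230) (.e (nat_lit 163902) (nat_lit 12) (.e (nat_lit 426481) (nat_lit 27) .nil))))) (.g (nat_lit 0) (.e (nat_lit 351253) (nat_lit 0) .nil) .nil))) 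
(.lf (nat_lit 571235) (.g (nat_lit 3136) (.e (nat_lit 475184) (nat_lit 29) (.e (nat_lit 557109) (nat_lit 15) (.e (nat_lit 188447) (nat_lit 22) (.e (nat_lit 196661) (nat_lit 12) (.e (nat_lit 57750) (nat_lit 201) (.e (nat_lit 3064) (nat_lit 190) .nil)))))) (.g (nat_lit 1) (.e (nat_lit 352041) (nat_lit 0) .nil) .nil))))) (.nd (nat_lit 8) (.nd (nat_lit 9) 
(.lf (nat_lit 570595) (.g (nat_lit 1672) (.e (nat_lit 475177) (nat_lit 24) (.e (nat_lit 516181) (nat_lit 15) (.e (nat_lit 475179) (nat_lit 24) (.e (nat_lit 516144) (nat_lit 9) (.e (nat_lit 426434) (nat_lit 18) .nil))))) (.g (nat_lit 0) (.e (nat_lit 351046) (nat_lit 0) .nil) .nil))) 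
(.lf (nat_lit 571107) (.g (nat_lit 2887) (.e (nat_lit 475183) (nat_lit 29) (.e (nat_lit 557108) (nat_lit 15) (.e (nat_lit 188449) (nat_lit 22) (.e (nat_lit 196626) (nat_lit 9) .nil)))) (.g (nat_lit 0) (.e (nat_lit 351898) (nat_lit 0) .nil) .nil)))) (.nd (nat_lit 9) 
(.lf (nat_lit 570851) (.g (nat_lit 2746) (.e (nat_lit 475179) (nat_lit 24) (.e (nat_lit 516120) (nat_lit 1) (.e (nat_lit 164330) (nat_lit 230) (.e (nat_lit 163905) (nat_lit 12) (.e (nat_lit 426489) (nat_lit 27) (.e (nat_lit 336406) (nat_lit 27) (.e (nat_lit 426313) (nat_lit 12) .nil))))))) (.g (nat_lit 1) (.e (nat_lit 351419) (nat_lit 0) .nil) .nil))) 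
(.lf (nat_lit 571363) (.g (nat_lit 3199) (.e (nat_lit 475185) (nat_lit 29) (.e (nat_lit 557100) (nat_lit 13) (.e (nat_lit 172106) (nat_lit 10) (.e (nat_lit 434231) (nat_lit 23) (.e (nat_lit 532490) (nat_lit 0) (.e (nat_lit 7936) (nat_lit 357) (.e (nat_lit 3073) (nat_lit 190) .nil))))))) (.g (nat_lit 1) (.e (nat_lit 352181) (nat_lit 0) .nil) .nil)))))))) 
(.nd (nat_lit 5) (.nd (nat_lit 6) (.nd (nat_lit 7) (.nd (nat_lit 8) (.nd (nat_lit 9) 
(.lf (nat_lit 570387) (.g (nat_lit 1528) (.e (nat_lit 475177) (nat_lit 24) (.e (nat_lit 516145) (nat_lit 9) (.e (nat_lit 426436) (nat_lit 18) (.e (nat_lit 98386) (nat_lit 32) (.e (nat_lit 475177) (nat_lit 24) .nil))))) (.g (nat_lit 0) (.e (nat_lit 350754) (nat_lit 0) .nil) .nil))) 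
(.lf (nat_lit 570899) (.g (nat_lit 2691) (.e (nat_lit 475179) (nat_lit 24) (.e (nat_lit 516120) (nat_lit 1) (.e (nat_lit 164332) (nat_lit 230) (.e (nat_lit 163905) (nat_lit 12) (.e (nat_lit 426564) (nat_lit 34) (.e (nat_lit 393291) (nat_lit 26) .nil)))))) (.g (nat_lit 1) (.e (nat_lit 351481) (nat_lit 0) .nil) .nil)))) (.nd (nat_lit 9) 
(.lf (nat_lit 570643) (.g (nat_lit 2130) (.e (nat_lit 475178) (nat_lit 24) (.e (nat_lit 516176) (nat_lit 14) (.e (nat_lit 466954) (nat_lit 11) (.e (nat_lit 335995) (nat_lit 1) (.e (nat_lit 57691) (nat_lit 156) .nil))))) (.g (nat_lit 0) (.e (nat_lit 351131) (nat_lit 0) .nil) .nil))) 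
(.lf (nat_lit 571155) (.g (nat_lit 2672) (.e (nat_lit 475184) (nat_lit 29) (.e (nat_lit 557098) (nat_lit 13) (.e (nat_lit 172105) (nat_lit 10) (.e (nat_lit 434248) (nat_lit 28) (.e (nat_lit 573469) (nat_lit 11) (.e (nat_lit 16461) (nat_lit 12) .nil)))))) (.g (nat_lit 1) (.e (nat_lit 351956) (nat_lit 0) .nil) .nil))))) (.nd (nat_lit 8) (.nd (nat_lit 9) 
(.lf (nat_lit 570515) (.g (nat_lit 2889) (.e (nat_lit 475177) (nat_lit 24) (.e (nat_lit 516174) (nat_lit 14) (.e (nat_lit 466954) (nat_lit 11) (.e (nat_lit 335995) (nat_lit 1) (.e (nat_lit 57687) (nat_lit 156) (.e (nat_lit 163936) (nat_lit 18) .nil)))))) (.g (nat_lit 1) (.e (nat_lit 350935) (nat_lit 0) .nil) .nil))) 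
(.lf (nat_lit 571027) (.g (nat_lit 395) (.e (nat_lit 475179) (nat_lit 24) (.e (nat_lit 516179) (nat_lit 15) (.e (nat_lit 475177) (nat_lit 24) .nil))) (.g (nat_lit 0) (.e (nat_lit 351809) (nat_lit 0) .nil) .nil)))) (.nd (nat_lit 9) 
(.lf (nat_lit 570771) (.g (nat_lit 870) (.e (nat_lit 475179) (nat_lit 24) (.e (nat_lit 516119) (nat_lit 1) (.e (nat_lit 164325) (nat_lit 230) (.e (nat_lit 163907) (nat_lit 12) (.e (nat_lit 426479) (nat_lit 27) .nil))))) (.g (nat_lit 0) (.e (nat_lit 351316) (nat_lit 0) .nil) .nil))) 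
(.lf (nat_lit 571283) (.g (nat_lit 1988) (.e (nat_lit 475185) (nat_lit 29) (.e (nat_lit 557096) (nat_lit 13) (.e (nat_lit 172113) (nat_lit 10) (.e (nat_lit 434245) (nat_lit 28) (.e (nat_lit 573458) (nat_lit 9) .nil))))) (.g (nat_lit 0) (.e (nat_lit 352100) (nat_lit 0) .nil) .nil)))))) (.nd (nat_lit 7) (.nd (nat_lit 8) (.nd (nat_lit 9) 
(.lf (nat_lit 570451) (.g (nat_lit 2837) (.e (nat_lit 475177) (nat_lit 24) (.e (nat_lit 516150) (nat_lit 9) (.e (nat_lit 426323) (nat_lit 13) (.e (nat_lit 483364) (nat_lit 18) (.e (nat_lit 57692) (nat_lit 156) (.e (nat_lit 163939) (nat_lit 18) .nil)))))) (.g (nat_lit 1) (.e (nat_lit 350837) (nat_lit 0) .nil) .nil))) 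
(.lf (nat_lit 570963) (.g (nat_lit 2431) (.e (nat_lit 475179) (nat_lit 24) (.e (nat_lit 516169) (nat_lit 13) (.e (nat_lit 458789) (nat_lit 23) (.e (nat_lit 532513) (nat_lit 3) (.e (nat_lit 122624) (nat_lit 3) (.e (nat_lit 212736) (nat_lit 15) .nil)))))) (.g (nat_lit 1) (.e (nat_lit 351723) (nat_lit 0) .nil) .nil)))) (.nd (nat_lit 9) 
(.lf (nat_lit 570707) (.g (nat_lit 1822) (.e (nat_lit 475179) (nat_lit 24) (.e (nat_lit 516115) (nat_lit 1) (.e (nat_lit 164331) (nat_lit 230) (.e (nat_lit 163904) (nat_lit 12) (.e (nat_lit 426566) (nat_lit 34) .nil))))) (.g (nat_lit 0) (.e (nat_lit 351225) (nat_lit 0) .nil) .nil))) 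
(.lf (nat_lit 571219) (.g (nat_lit 2101) (.e (nat_lit 475184) (nat_lit 29) (.e (nat_lit 557107) (nat_lit 15) (.e (nat_lit 188452) (nat_lit 23) (.e (nat_lit 204884) (nat_lit 33) .nil)))) (.g (nat_lit 0) (.e (nat_lit 352025) (nat_lit 0) .nil) .nil))))) (.nd (nat_lit 8) (.nd (nat_lit 9) 
(.lf (nat_lit 570579) (.g (nat_lit 967) (.e (nat_lit 475177) (nat_lit 24) (.e (nat_lit 516179) (nat_lit 15) (.e (nat_lit 475179) (nat_lit 24) (.e (nat_lit 516150) (nat_lit 9) .nil)))) (.g (nat_lit 0) (.e (nat_lit 351019) (nat_lit 0) .nil) .nil))) 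
(.lf (nat_lit 571091) (.g (nat_lit 2857) (.e (nat_lit 475183) (nat_lit 29) (.e (nat_lit 557107) (nat_lit 15) (.e (nat_lit 188440) (nat_lit 20) (.e (nat_lit 3307) (nat_lit 202) (.e (nat_lit 573469) (nat_lit 11) (.e (nat_lit 16461) (nat_lit 12) .nil)))))) (.g (nat_lit 1) (.e (nat_lit 351882) (nat_lit 0) .nil) .nil)))) (.nd (nat_lit 9) 
(.lf (nat_lit 570835) (.g (nat_lit 2974) (.e (nat_lit 475179) (nat_lit 24) (.e (nat_lit 516120) (nat_lit 1) (.e (nat_lit 164330) (nat_lit 230) (.e (nat_lit 163902) (nat_lit 12) (.e (nat_lit 426557) (nat_lit 33) (.e (nat_lit 385030) (nat_lit 8) (.e (nat_lit 3067) (nat_lit 190) .nil))))))) (.g (nat_lit 1) (.e (nat_lit 351403) (nat_lit 0) .nil) .nil))) 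
(.lf (nat_lit 571347) (.g (nat_lit 1877) (.e (nat_lit 475185) (nat_lit 29) (.e (nat_lit 557100) (nat_lit 13) (.e (nat_lit 172106) (nat_lit 10) (.e (nat_lit 434231) (nat_lit 23) (.e (nat_lit 532483) (nat_lit 0) (.e (nat_lit 1030) (nat_lit 81) (.e (nat_lit 4372) (nat_lit 257) (.e (nat_lit 2508) (nat_lit 157) (.e (nat_lit 3062) (nat_lit 190) .nil))))))))) (.g (nat_lit 1) (.e (nat_lit 352165) (nat_lit 0) .nil) .nil))))))) 
(.nd (nat_lit 6) (.nd (nat_lit 7) (.nd (nat_lit 8) (.nd (nat_lit 9) 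
(.lf (nat_lit 570419) (.g (nat_lit 1431) (.e (nat_lit 475177) (nat_lit 24) (.e (nat_lit 516149) (nat_lit 9) (.e (nat_lit 426323) (nat_lit 13) (.e (nat_lit 483364) (nat_lit 18) (.e (nat_lit 57692) (nat_lit 156) (.e (nat_lit 171776) (nat_lit 18) .nil)))))) (.g (nat_lit 1) (.e (nat_lit 350794) (nat_lit 0) .nil) .nil))) 
(.lf (nat_lit 570931) (.g (nat_lit 2914) (.e (nat_lit 475179) (nat_lit 24) (.e (nat_lit 516146) (nat_lit 9) (.e (nat_lit 426323) (nat_lit 13) (.e (nat_lit 483365) (nat_lit 18) (.e (nat_lit 57692) (nat_lit 156) (.e (nat_lit 163939) (nat_lit 18) .nil)))))) (.g (nat_lit 1) (.e (nat_lit 351531) (nat_lit 0) .nil) .nil)))) (.nd (nat_lit 9) 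
(.lf (nat_lit 570675) (.g (nat_lit 1276) (.e (nat_lit 475179) (nat_lit 24) (.e (nat_lit 516115) (nat_lit 1) (.e (nat_lit 164325) (nat_lit 230) (.e (nat_lit 163907) (nat_lit 12) (.e (nat_lit 426479) (nat_lit 27) .nil))))) (.g (nat_lit 0) (.e (nat_lit 351169) (nat_lit 0) .nil) .nil))) 
(.lf (nat_lit 571187) (.g (nat_lit 1744) (.e (nat_lit 475184) (nat_lit 29) (.e (nat_lit 557101) (nat_lit 13) (.e (nat_lit 172097) (nat_lit 9) (.e (nat_lit 426140) (nat_lit 3) (.e (nat_lit 204821) (nat_lit 17) .nil))))) (.g (nat_lit 0) (.e (nat_lit 351988) (nat_lit 0) .nil) .nil))))) (.nd (nat_lit 8) (.nd (nat_lit 9) 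
(.lf (nat_lit 570547) (.g (nat_lit 2519) (.e (nat_lit 475177) (nat_lit 24) (.e (nat_lit 516176) (nat_lit 14) (.e (nat_lit 466954) (nat_lit 11) (.e (nat_lit 335994) (nat_lit 1) (.e (nat_lit 57688) (nat_lit 156) (.e (nat_lit 163938) (nat_lit 18) .nil)))))) (.g (nat_lit 1) (.e (nat_lit 350978) (nat_lit 0) .nil) .nil))) 
(.lf (nat_lit 571059) (.g (nat_lit 3182) (.e (nat_lit 475183) (nat_lit 29) (.e (nat_lit 557098) (nat_lit 13) (.e (nat_lit 172097) (nat_lit 9) (.e (nat_lit 426125) (nat_lit 2) (.e (nat_lit 196661) (nat_lit 12) (.e (nat_lit 57750) (nat_lit 201) (.e (nat_lit 3066) (nat_lit 190) .nil))))))) (.g (nat_lit 1) (.e (nat_lit 351848) (nat_lit 0) .nil) .nil)))) (.nd (nat_lit 9) 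
(.lf (nat_lit 570803) (.g (nat_lit 2286) (.e (nat_lit 475179) (nat_lit 24) (.e (nat_lit 516119) (nat_lit 1) (.e (nat_lit 164332) (nat_lit 230) (.e (nat_lit 163941) (nat_lit 19) (.e (nat_lit 483337) (nat_lit 9) .nil))))) (.g (nat_lit 0) (.e (nat_lit 351368) (nat_lit 0) .nil) .nil))) 
(.lf (nat_lit 571315) (.g (nat_lit 425) (.e (nat_lit 475185) (nat_lit 29) (.e (nat_lit 557098) (nat_lit 13) (.e (nat_lit 172112) (nat_lit 10) .nil))) (.g (nat_lit 0) (.e (nat_lit 352132) (nat_lit 0) .nil) .nil)))))) (.nd (nat_lit 7) (.nd (nat_lit 8) (.nd (nat_lit 9) 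
(.lf (nat_lit 570483) (.g (nat_lit 2566) (.e (nat_lit 475177) (nat_lit 24) (.e (nat_lit 516159) (nat_lit 10) (.e (nat_lit 434244) (nat_lit 28) (.e (nat_lit 573481) (nat_lit 13) (.e (nat_lit 65637) (nat_lit 15) (.e (nat_lit 7936) (nat_lit 195) (.e (nat_lit 516179) (nat_lit 15) .nil))))))) (.g (nat_lit 1) (.e (nat_lit 350873) (nat_lit 0) .nil) .nil))) 
(.lf (nat_lit 570995) (.g (nat_lit 736) (.e (nat_lit 475179) (nat_lit 24) (.e (nat_lit 516176) (nat_lit 14) (.e (nat_lit 466953) (nat_lit 11) .nil))) (.g (nat_lit 0) (.e (nat_lit 351765) (nat_lit 0) .nil) .nil)))) (.nd (nat_lit 9) 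
(.lf (nat_lit 570739) (.g (nat_lit 4261) (.e (nat_lit 475179) (nat_lit 24) (.e (nat_lit 516117) (nat_lit 1) (.e (nat_lit 164330) (nat_lit 230) (.e (nat_lit 163941) (nat_lit 19) (.e (nat_lit 483341) (nat_lit 9) (.e (nat_lit 426315) (nat_lit 12) .nil)))))) (.g (nat_lit 1) (.e (nat_lit 351271) (nat_lit 0) .nil) .nil))) 
(.lf (nat_lit 571251) (.g (nat_lit 1916) (.e (nat_lit 475184) (nat_lit 29) (.e (nat_lit 557109) (nat_lit 15) (.e (nat_lit 188450) (nat_lit 23) (.e (nat_lit 204819) (nat_lit 17) .nil)))) (.g (nat_lit 0) (.e (nat_lit 352057) (nat_lit 0) .nil) .nil))))) (.nd (nat_lit 8) (.nd (nat_lit 9) 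
(.lf (nat_lit 570611) (.g (nat_lit 2469) (.e (nat_lit 475178) (nat_lit 24) (.e (nat_lit 516115) (nat_lit 1) (.e (nat_lit 164330) (nat_lit 230) (.e (nat_lit 163902) (nat_lit 12) (.e (nat_lit 426566) (nat_lit 34) .nil))))) (.g (nat_lit 0) (.e (nat_lit 351065) (nat_lit 0) .nil) .nil))) 
(.lf (nat_lit 571123) (.g (nat_lit 3029) (.e (nat_lit 475183) (nat_lit 29) (.e (nat_lit 557109) (nat_lit 15) (.e (nat_lit 188447) (nat_lit 22) (.e (nat_lit 196628) (nat_lit 9) .nil)))) (.g (nat_lit 0) (.e (nat_lit 351914) (nat_lit 0) .nil) .nil)))) (.nd (nat_lit 9) 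
(.lf (nat_lit 570867) (.g (nat_lit 3599) (.e (nat_lit 475179) (nat_lit 24) (.e (nat_lit 516120) (nat_lit 1) (.e (nat_lit 164330) (nat_lit 230) (.e (nat_lit 163941) (nat_lit 19) (.e (nat_lit 483333) (nat_lit 0) (.e (nat_lit 7337) (nat_lit 388) (.e (nat_lit 3067) (nat_lit 190) .nil))))))) (.g (nat_lit 1) (.e (nat_lit 351440) (nat_lit 0) .nil) .nil))) 
(.lf (nat_lit 571379) (.g (nat_lit 1039) (.e (nat_lit 475185) (nat_lit 29) (.e (nat_lit 557100) (nat_lit 13) (.e (nat_lit 172113) (nat_lit 10) (.e (nat_lit 434203) (nat_lit 18) .nil)))) (.g (nat_lit 0) (.e (nat_lit 352197) (nat_lit 0) .nil) .nil))))))))) (.nd (nat_lit 4) (.nd (nat_lit 5) (.nd (nat_lit 6) (.nd (nat_lit 7) (.nd (nat_lit 8) (.nd (nat_lit 9) 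
(.lf (nat_lit 570379) (.g (nat_lit 2970) (.e (nat_lit 475177) (nat_lit 24) (.e (nat_lit 516129) (nat_lit 3) (.e (nat_lit 221194) (nat_lit 11) (.e (nat_lit 336010) (nat_lit 2) (.e (nat_lit 90170) (nat_lit 13) (.e (nat_lit 172118) (nat_lit 12) .nil)))))) (.g (nat_lit 1) (.e (nat_lit 350741) (nat_lit 0) .nil) .nil))) 
(.lf (nat_lit 570891) (.g (nat_lit 2443) (.e (nat_lit 475179) (nat_lit 24) (.e (nat_lit 516120) (nat_lit 1) (.e (nat_lit 164332) (nat_lit 230) (.e (nat_lit 163905) (nat_lit 12) (.e (nat_lit 426487) (nat_lit 27) (.e (nat_lit 336409) (nat_lit 27) (.e (nat_lit 426313) (nat_lit 12) .nil))))))) (.g (nat_lit 1) (.e (nat_lit 351473) (nat_lit 0) .nil) .nil)))) (.nd (nat_lit 9) 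
(.lf (nat_lit 570635) (.g (nat_lit 1177) (.e (nat_lit 475178) (nat_lit 24) (.e (nat_lit 516146) (nat_lit 9) (.e (nat_lit 426428) (nat_lit 17) (.e (nat_lit 90130) (nat_lit 9) .nil)))) (.g (nat_lit 0) (.e (nat_lit 351112) (nat_lit 0) .nil) .nil))) 
(.lf (nat_lit 571147) (.g (nat_lit 3297) (.e (nat_lit 475184) (nat_lit 29) (.e (nat_lit 557098) (nat_lit 13) (.e (nat_lit 172097) (nat_lit 9) (.e (nat_lit 426125) (nat_lit 2) (.e (nat_lit 196661) (nat_lit 12) (.e (nat_lit 57751) (nat_lit 201) (.e (nat_lit 3066) (nat_lit 190) .nil))))))) (.g (nat_lit 1) (.e (nat_lit 351948) (nat_lit 0) .nil) .nil))))) (.nd (nat_lit 8) (.nd (nat_lit 9) 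
(.lf (nat_lit 570507) (.g (nat_lit 1053) (.e (nat_lit 475177) (nat_lit 24) (.e (nat_lit 516174) (nat_lit 14) (.e (nat_lit 466954) (nat_lit 11) (.e (nat_lit 335994) (nat_lit 1) .nil)))) (.g (nat_lit 0) (.e (nat_lit 350925) (nat_lit 0) .nil) .nil))) 
(.lf (nat_lit 571019) (.g (nat_lit 1237) (.e (nat_lit 475179) (nat_lit 24) (.e (nat_lit 516176) (nat_lit 14) (.e (nat_lit 466954) (nat_lit 11) (.e (nat_lit 335996) (nat_lit 1) .nil)))) (.g (nat_lit 0) (.e (nat_lit 351796) (nat_lit 0) .nil) .nil)))) (.nd (nat_lit 9) 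
(.lf (nat_lit 570763) (.g (nat_lit 424) (.e (nat_lit 475179) (nat_lit 24) (.e (nat_lit 516119) (nat_lit 1) (.e (nat_lit 164324) (nat_lit 230) .nil))) (.g (nat_lit 0) (.e (nat_lit 351303) (nat_lit 0) .nil) .nil))) 
(.lf (nat_lit 571275) (.g (nat_lit 2022) (.e (nat_lit 475184) (nat_lit 29) (.e (nat_lit 557109) (nat_lit 15) (.e (nat_lit 188452) (nat_lit 23) (.e (nat_lit 204883) (nat_lit 33) (.e (nat_lit 401452) (nat_lit 12) .nil))))) (.g (nat_lit 0) (.e (nat_lit 352081) (nat_lit 0) .nil) .nil)))))) (.nd (nat_lit 7) (.nd (nat_lit 8) (.nd (nat_lit 9) 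
(.lf (nat_lit 570443) (.g (nat_lit 2993) (.e (nat_lit 475177) (nat_lit 24) (.e (nat_lit 516150) (nat_lit 9) (.e (nat_lit 426323) (nat_lit 13) (.e (nat_lit 483363) (nat_lit 18) (.e (nat_lit 57688) (nat_lit 156) (.e (nat_lit 163937) (nat_lit 18) .nil)))))) (.g (nat_lit 1) (.e (nat_lit 350828) (nat_lit 0) .nil) .nil))) 
(.lf (nat_lit 570955) (.g (nat_lit 2716) (.e (nat_lit 475179) (nat_lit 24) (.e (nat_lit 516150) (nat_lit 9) (.e (nat_lit 426323) (nat_lit 13) (.e (nat_lit 483366) (nat_lit 18) (.e (nat_lit 57691) (nat_lit 156) (.e (nat_lit 163939) (nat_lit 18) .nil)))))) (.g (nat_lit 1) (.e (nat_lit 351575) (nat_lit 0) .nil) .nil)))) (.nd (nat_lit 9) 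
(.lf (nat_lit 570699) (.g (nat_lit 3000) (.e (nat_lit 475179) (nat_lit 24) (.e (nat_lit 516115) (nat_lit 1) (.e (nat_lit 164327) (nat_lit 230) (.e (nat_lit 163903) (nat_lit 12) (.e (nat_lit 426568) (nat_lit 34) (.e (nat_lit 393293) (nat_lit 26) .nil)))))) (.g (nat_lit 1) (.e (nat_lit 351213) (nat_lit 0) .nil) .nil))) 
(.lf (nat_lit 571211) (.g (nat_lit 1306) (.e (nat_lit 475184) (nat_lit 29) (.e (nat_lit 557107) (nat_lit 15) (.e (nat_lit 188450) (nat_lit 23) (.e (nat_lit 204817) (nat_lit 17) (.e (nat_lit 7936) (nat_lit 357) .nil))))) (.g (nat_lit 0) (.e (nat_lit 352017) (nat_lit 0) .nil) .nil))))) (.nd (nat_lit 8) (.nd (nat_lit 9) 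
(.lf (nat_lit 570571) (.g (nat_lit 1994) (.e (nat_lit 475177) (nat_lit 24) (.e (nat_lit 516179) (nat_lit 15) (.e (nat_lit 475177) (nat_lit 24) (.e (nat_lit 516150) (nat_lit 9) (.e (nat_lit 433920) (nat_lit 18) .nil))))) (.g (nat_lit 0) (.e (nat_lit 351008) (nat_lit 0) .nil) .nil))) 
(.lf (nat_lit 571083) (.g (nat_lit 3599) (.e (nat_lit 475183) (nat_lit 29) (.e (nat_lit 557100) (nat_lit 13) (.e (nat_lit 172113) (nat_lit 10) (.e (nat_lit 434248) (nat_lit 28) (.e (nat_lit 573469) (nat_lit 11) (.e (nat_lit 16461) (nat_lit 12) .nil)))))) (.g (nat_lit 1) (.e (nat_lit 351872) (nat_lit 0) .nil) .nil)))) (.nd (nat_lit 9) 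
(.lf (nat_lit 570827) (.g (nat_lit 3398) (.e (nat_lit 475179) (nat_lit 24) (.e (nat_lit 516120) (nat_lit 1) (.e (nat_lit 164330) (nat_lit 230) (.e (nat_lit 163902) (nat_lit 12) (.e (nat_lit 426479) (nat_lit 27) (.e (nat_lit 336414) (nat_lit 27) (.e (nat_lit 426318) (nat_lit 12) .nil))))))) (.g (nat_lit 1) (.e (nat_lit 351395) (nat_lit 0) .nil) .nil))) 
(.lf (nat_lit 571339) (.g (nat_lit 3417) (.e (nat_lit 475185) (nat_lit 29) (.e (nat_lit 557100) (nat_lit 13) (.e (nat_lit 172106) (nat_lit 10) (.e (nat_lit 434231) (nat_lit 23) (.e (nat_lit 532481) (nat_lit 0) (.e (nat_lit 6619) (nat_lit 357) (.e (nat_lit 3071) (nat_lit 190) .nil))))))) (.g (nat_lit 1) (.e (nat_lit 352157) (nat_lit 0) .nil) .nil))))))) 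
(.nd (nat_lit 6) (.nd (nat_lit 7) (.nd (nat_lit 8) (.nd (nat_lit 9) 
(.lf (nat_lit 570411) (.g (nat_lit 2348) (.e (nat_lit 475177) (nat_lit 24) (.e (nat_lit 516149) (nat_lit 9) (.e (nat_lit 426131) (nat_lit 3) (.e (nat_lit 204838) (nat_lit 20) (.e (nat_lit 114688) (nat_lit 0) (.e (nat_lit 3233) (nat_lit 197) (.e (nat_lit 540416) (nat_lit 32) .nil))))))) (.g (nat_lit 1) (.e (nat_lit 350785) (nat_lit 0) .nil) .nil))) 
(.lf (nat_lit 570923) (.g (nat_lit 3071) (.e (nat_lit 475179) (nat_lit 24) (.e (nat_lit 516146) (nat_lit 9) (.e (nat_lit 426323) (nat_lit 13) (.e (nat_lit 483363) (nat_lit 18) (.e (nat_lit 57691) (nat_lit 156) (.e (nat_lit 163939) (nat_lit 18) .nil)))))) (.g (nat_lit 1) (.e (nat_lit 351523) (nat_lit 0) .nil) .nil)))) (.nd (nat_lit 9) 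
(.lf (nat_lit 570667) (.g (nat_lit 3120) (.e (nat_lit 475179) (nat_lit 24) (.e (nat_lit 516115) (nat_lit 1) (.e (nat_lit 164325) (nat_lit 230) (.e (nat_lit 163903) (nat_lit 12) (.e (nat_lit 426564) (nat_lit 34) .nil))))) (.g (nat_lit 0) (.e (nat_lit 351159) (nat_lit 0) .nil) .nil))) 
(.lf (nat_lit 571179) (.g (nat_lit 1575) (.e (nat_lit 475184) (nat_lit 29) (.e (nat_lit 557100) (nat_lit 13) (.e (nat_lit 172113) (nat_lit 10) (.e (nat_lit 434242) (nat_lit 28) .nil)))) (.g (nat_lit 0) (.e (nat_lit 351980) (nat_lit 0) .nil) .nil))))) (.nd (nat_lit 8) (.nd (nat_lit 9) 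
(.lf (nat_lit 570539) (.g (nat_lit 2434) (.e (nat_lit 475177) (nat_lit 24) (.e (nat_lit 516176) (nat_lit 14) (.e (nat_lit 466954) (nat_lit 11) (.e (nat_lit 335988) (nat_lit 1) (.e (nat_lit 57685) (nat_lit 156) (.e (nat_lit 163936) (nat_lit 18) .nil)))))) (.g (nat_lit 1) (.e (nat_lit 350969) (nat_lit 0) .nil) .nil))) 
(.lf (nat_lit 571051) (.g (nat_lit 2564) (.e (nat_lit 475183) (nat_lit 29) (.e (nat_lit 557097) (nat_lit 13) (.e (nat_lit 172097) (nat_lit 9) (.e (nat_lit 426125) (nat_lit 2) (.e (nat_lit 196661) (nat_lit 12) (.e (nat_lit 57751) (nat_lit 201) (.e (nat_lit 3066) (nat_lit 190) .nil))))))) (.g (nat_lit 1) (.e (nat_lit 351840) (nat_lit 0) .nil) .nil)))) (.nd (nat_lit 9) 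
(.lf (nat_lit 570795) (.g (nat_lit 2121) (.e (nat_lit 475179) (nat_lit 24) (.e (nat_lit 516119) (nat_lit 1) (.e (nat_lit 164327) (nat_lit 230) (.e (nat_lit 163903) (nat_lit 12) (.e (nat_lit 426567) (nat_lit 34) .nil))))) (.g (nat_lit 0) (.e (nat_lit 351356) (nat_lit 0) .nil) .nil))) 
(.lf (nat_lit 571307) (.g (nat_lit 1165) (.e (nat_lit 475185) (nat_lit 29) (.e (nat_lit 557098) (nat_lit 13) (.e (nat_lit 172098) (nat_lit 9) .nil))) (.g (nat_lit 0) (.e (nat_lit 352124) (nat_lit 0) .nil) .nil)))))) (.nd (nat_lit 7) (.nd (nat_lit 8) (.nd (nat_lit 9) 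
(.lf (nat_lit 570475) (.g (nat_lit 2410) (.e (nat_lit 475177) (nat_lit 24) (.e (nat_lit 516150) (nat_lit 9) (.e (nat_lit 426438) (nat_lit 18) (.e (nat_lit 98358) (nat_lit 26) (.e (nat_lit 426416) (nat_lit 15) .nil))))) (.g (nat_lit 0) (.e (nat_lit 350864) (nat_lit 0) .nil) .nil))) 
(.lf (nat_lit 570987) (.g (nat_lit 3040) (.e (nat_lit 475179) (nat_lit 24) (.e (nat_lit 516174) (nat_lit 14) (.e (nat_lit 466954) (nat_lit 11) (.e (nat_lit 335995) (nat_lit 1) (.e (nat_lit 57691) (nat_lit 156) (.e (nat_lit 163939) (nat_lit 18) .nil)))))) (.g (nat_lit 1) (.e (nat_lit 351757) (nat_lit 0) .nil) .nil)))) (.nd (nat_lit 9) 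
(.lf (nat_lit 570731) (.g (nat_lit 3742) (.e (nat_lit 475179) (nat_lit 24) (.e (nat_lit 516117) (nat_lit 1) (.e (nat_lit 164330) (nat_lit 230) (.e (nat_lit 163905) (nat_lit 12) (.e (nat_lit 426481) (nat_lit 27) (.e (nat_lit 336389) (nat_lit 27) (.e (nat_lit 426308) (nat_lit 12) .nil))))))) (.g (nat_lit 1) (.e (nat_lit 351262) (nat_lit 0) .nil) .nil))) 
(.lf (nat_lit 571243) (.g (nat_lit 3230) (.e (nat_lit 475184) (nat_lit 29) (.e (nat_lit 557109) (nat_lit 15) (.e (nat_lit 188449) (nat_lit 22) (.e (nat_lit 196661) (nat_lit 12) (.e (nat_lit 57750) (nat_lit 201) (.e (nat_lit 3064) (nat_lit 190) .nil)))))) (.g (nat_lit 1) (.e (nat_lit 352049) (nat_lit 0) .nil) .nil))))) (.nd (nat_lit 8) (.nd (nat_lit 9) 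
(.lf (nat_lit 570603) (.g (nat_lit 1659) (.e (nat_lit 475178) (nat_lit 24) (.e (nat_lit 516106) (nat_lit 0) (.e (nat_lit 2458) (nat_lit 157) (.e (nat_lit 5224) (nat_lit 296) (.e (nat_lit 163903) (nat_lit 12) .nil))))) (.g (nat_lit 0) (.e (nat_lit 351055) (nat_lit 0) .nil) .nil))) 
(.lf (nat_lit 571115) (.g (nat_lit 3258) (.e (nat_lit 475183) (nat_lit 29) (.e (nat_lit 557108) (nat_lit 15) (.e (nat_lit 188452) (nat_lit 23) (.e (nat_lit 212736) (nat_lit 17) .nil)))) (.g (nat_lit 0) (.e (nat_lit 351906) (nat_lit 0) .nil) .nil)))) (.nd (nat_lit 9) 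
(.lf (nat_lit 570859) (.g (nat_lit 1419) (.e (nat_lit 475179) (nat_lit 24) (.e (nat_lit 516120) (nat_lit 1) (.e (nat_lit 164330) (nat_lit 230) (.e (nat_lit 163913) (nat_lit 12) .nil)))) (.g (nat_lit 0) (.e (nat_lit 351430) (nat_lit 0) .nil) .nil))) 
(.lf (nat_lit 571371) (.g (nat_lit 3063) (.e (nat_lit 475185) (nat_lit 29) (.e (nat_lit 557100) (nat_lit 13) (.e (nat_lit 172106) (nat_lit 10) (.e (nat_lit 434231) (nat_lit 23) (.e (nat_lit 532569) (nat_lit 16) (.e (nat_lit 409344) (nat_lit 12) .nil)))))) (.g (nat_lit 1) (.e (nat_lit 352189) (nat_lit 0) .nil) .nil)))))))) 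
(.nd (nat_lit 5) (.nd (nat_lit 6) (.nd (nat_lit 7) (.nd (nat_lit 8) (.nd (nat_lit 9) 
(.lf (nat_lit 570395) (.g (nat_lit 2279) (.e (nat_lit 475177) (nat_lit 24) (.e (nat_lit 516146) (nat_lit 9) (.e (nat_lit 426428) (nat_lit 17) (.e (nat_lit 90134) (nat_lit 9) (.e (nat_lit 2842) (nat_lit 184) (.e (nat_lit 426436) (nat_lit 18) (.e (nat_lit 98386) (nat_lit 32) .nil))))))) (.g (nat_lit 1) (.e (nat_lit 350763) (nat_lit 0) .nil) .nil))) 
(.lf (nat_lit 570907) (.g (nat_lit 3075) (.e (nat_lit 475179) (nat_lit 24) (.e (nat_lit 516127) (nat_lit 2) (.e (nat_lit 213032) (nat_lit 11) (.e (nat_lit 24604) (nat_lit 2) (.e (nat_lit 90170) (nat_lit 13) (.e (nat_lit 172120) (nat_lit 12) .nil)))))) (.g (nat_lit 1) (.e (nat_lit 351496) (nat_lit 0) .nil) .nil)))) (.nd (nat_lit 9) 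
(.lf (nat_lit 570651) (.g (nat_lit 2503) (.e (nat_lit 475179) (nat_lit 24) (.e (nat_lit 516115) (nat_lit 1) (.e (nat_lit 164325) (nat_lit 230) (.e (nat_lit 163845) (nat_lit 0) (.e (nat_lit 3256) (nat_lit 197) .nil))))) (.g (nat_lit 0) (.e (nat_lit 351142) (nat_lit 0) .nil) .nil))) 
(.lf (nat_lit 571163) (.g (nat_lit 1865) (.e (nat_lit 475184) (nat_lit 29) (.e (nat_lit 557098) (nat_lit 13) (.e (nat_lit 172115) (nat_lit 10) (.e (nat_lit 434231) (nat_lit 23) (.e (nat_lit 532490) (nat_lit 0) .nil))))) (.g (nat_lit 0) (.e (nat_lit 351964) (nat_lit 0) .nil) .nil))))) (.nd (nat_lit 8) (.nd (nat_lit 9) 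
(.lf (nat_lit 570523) (.g (nat_lit 1667) (.e (nat_lit 475177) (nat_lit 24) (.e (nat_lit 516176) (nat_lit 14) (.e (nat_lit 466954) (nat_lit 11) (.e (nat_lit 335985) (nat_lit 1) .nil)))) (.g (nat_lit 0) (.e (nat_lit 350947) (nat_lit 0) .nil) .nil))) 
(.lf (nat_lit 571035) (.g (nat_lit 487) (.e (nat_lit 475179) (nat_lit 24) (.e (nat_lit 516179) (nat_lit 15) (.e (nat_lit 475179) (nat_lit 24) .nil))) (.g (nat_lit 0) (.e (nat_lit 351817) (nat_lit 0) .nil) .nil)))) (.nd (nat_lit 9) 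
(.lf (nat_lit 570779) (.g (nat_lit 416) (.e (nat_lit 475179) (nat_lit 24) (.e (nat_lit 516119) (nat_lit 1) (.e (nat_lit 164326) (nat_lit 230) .nil))) (.g (nat_lit 0) (.e (nat_lit 351335) (nat_lit 0) .nil) .nil))) 
(.lf (nat_lit 571291) (.g (nat_lit 2349) (.e (nat_lit 475185) (nat_lit 29) (.e (nat_lit 557097) (nat_lit 13) (.e (nat_lit 172124) (nat_lit 14) (.e (nat_lit 491537) (nat_lit 2) (.e (nat_lit 90170) (nat_lit 13) .nil))))) (.g (nat_lit 0) (.e (nat_lit 352108) (nat_lit 0) .nil) .nil)))))) (.nd (nat_lit 7) (.nd (nat_lit 8) (.nd (nat_lit 9) 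
(.lf (nat_lit 570459) (.g (nat_lit 885) (.e (nat_lit 475177) (nat_lit 24) (.e (nat_lit 516150) (nat_lit 9) (.e (nat_lit 426323) (nat_lit 13) (.e (nat_lit 483366) (nat_lit 18) .nil)))) (.g (nat_lit 0) (.e (nat_lit 350846) (nat_lit 0) .nil) .nil))) 
(.lf (nat_lit 570971) (.g (nat_lit 2240) (.e (nat_lit 475179) (nat_lit 24) (.e (nat_lit 516174) (nat_lit 14) (.e (nat_lit 466954) (nat_lit 11) (.e (nat_lit 335986) (nat_lit 1) (.e (nat_lit 57660) (nat_lit 152) .nil))))) (.g (nat_lit 0) (.e (nat_lit 351737) (nat_lit 0) .nil) .nil)))) (.nd (nat_lit 9) 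
(.lf (nat_lit 570715) (.g (nat_lit 422) (.e (nat_lit 475179) (nat_lit 24) (.e (nat_lit 516117) (nat_lit 1) (.e (nat_lit 164304) (nat_lit 226) .nil))) (.g (nat_lit 0) (.e (nat_lit 351240) (nat_lit 0) .nil) .nil))) 
(.lf (nat_lit 571227) (.g (nat_lit 2332) (.e (nat_lit 475184) (nat_lit 29) (.e (nat_lit 557108) (nat_lit 15) (.e (nat_lit 188452) (nat_lit 23) (.e (nat_lit 204885) (nat_lit 33) (.e (nat_lit 401452) (nat_lit 12) .nil))))) (.g (nat_lit 0) (.e (nat_lit 352033) (nat_lit 0) .nil) .nil))))) (.nd (nat_lit 8) (.nd (nat_lit 9) 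
(.lf (nat_lit 570587) (.g (nat_lit 1954) (.e (nat_lit 475177) (nat_lit 24) (.e (nat_lit 516181) (nat_lit 15) (.e (nat_lit 475177) (nat_lit 24) (.e (nat_lit 516146) (nat_lit 9) (.e (nat_lit 426438) (nat_lit 18) (.e (nat_lit 98385) (nat_lit 32) .nil)))))) (.g (nat_lit 1) (.e (nat_lit 351035) (nat_lit 0) .nil) .nil))) 
(.lf (nat_lit 571099) (.g (nat_lit 2476) (.e (nat_lit 475183) (nat_lit 29) (.e (nat_lit 557107) (nat_lit 15) (.e (nat_lit 188452) (nat_lit 23) (.e (nat_lit 204884) (nat_lit 33) .nil)))) (.g (nat_lit 0) (.e (nat_lit 351890) (nat_lit 0) .nil) .nil)))) (.nd (nat_lit 9) 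
(.lf (nat_lit 570843) (.g (nat_lit 3134) (.e (nat_lit 475179) (nat_lit 24) (.e (nat_lit 516120) (nat_lit 1) (.e (nat_lit 164330) (nat_lit 230) (.e (nat_lit 163902) (nat_lit 12) (.e (nat_lit 426568) (nat_lit 34) (.e (nat_lit 393292) (nat_lit 26) .nil)))))) (.g (nat_lit 1) (.e (nat_lit 351411) (nat_lit 0) .nil) .nil))) 
(.lf (nat_lit 571355) (.g (nat_lit 2157) (.e (nat_lit 475185) (nat_lit 29) (.e (nat_lit 557100) (nat_lit 13) (.e (nat_lit 172106) (nat_lit 10) (.e (nat_lit 434231) (nat_lit 23) (.e (nat_lit 532483) (nat_lit 0) (.e (nat_lit 7936) (nat_lit 357) (.e (nat_lit 3074) (nat_lit 190) .nil))))))) (.g (nat_lit 1) (.e (nat_lit 352173) (nat_lit 0) .nil) .nil))))))) 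
(.nd (nat_lit 6) (.nd (nat_lit 7) (.nd (nat_lit 8) (.nd (nat_lit 9) 
(.lf (nat_lit 570427) (.g (nat_lit 2394) (.e (nat_lit 475177) (nat_lit 24) (.e (nat_lit 516149) (nat_lit 9) (.e (nat_lit 426323) (nat_lit 13) (.e (nat_lit 483366) (nat_lit 18) (.e (nat_lit 57691) (nat_lit 156) (.e (nat_lit 163939) (nat_lit 18) .nil)))))) (.g (nat_lit 1) (.e (nat_lit 350802) (nat_lit 0) .nil) .nil))) 
(.lf (nat_lit 570939) (.g (nat_lit 2228) (.e (nat_lit 475179) (nat_lit 24) (.e (nat_lit 516146) (nat_lit 9) (.e (nat_lit 426438) (nat_lit 18) (.e (nat_lit 98385) (nat_lit 32) (.e (nat_lit 475177) (nat_lit 24) (.e (nat_lit 516181) (nat_lit 15) .nil)))))) (.g (nat_lit 1) (.e (nat_lit 351539) (nat_lit 0) .nil) .nil)))) (.nd (nat_lit 9) 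
(.lf (nat_lit 570683) (.g (nat_lit 2288) (.e (nat_lit 475179) (nat_lit 24) (.e (nat_lit 516115) (nat_lit 1) (.e (nat_lit 164325) (nat_lit 230) (.e (nat_lit 163907) (nat_lit 12) (.e (nat_lit 426494) (nat_lit 27) .nil))))) (.g (nat_lit 0) (.e (nat_lit 351177) (nat_lit 0) .nil) .nil))) 
(.lf (nat_lit 571195) (.g (nat_lit 1790) (.e (nat_lit 475184) (nat_lit 29) (.e (nat_lit 557101) (nat_lit 13) (.e (nat_lit 172115) (nat_lit 10) (.e (nat_lit 434231) (nat_lit 23) (.e (nat_lit 532490) (nat_lit 0) .nil))))) (.g (nat_lit 0) (.e (nat_lit 351996) (nat_lit 0) .nil) .nil))))) (.nd (nat_lit 8) (.nd (nat_lit 9) 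
(.lf (nat_lit 570555) (.g (nat_lit 3018) (.e (nat_lit 475177) (nat_lit 24) (.e (nat_lit 516176) (nat_lit 14) (.e (nat_lit 466954) (nat_lit 11) (.e (nat_lit 335995) (nat_lit 1) (.e (nat_lit 57688) (nat_lit 156) (.e (nat_lit 163938) (nat_lit 18) .nil)))))) (.g (nat_lit 1) (.e (nat_lit 350987) (nat_lit 0) .nil) .nil))) 
(.lf (nat_lit 571067) (.g (nat_lit 2938) (.e (nat_lit 475183) (nat_lit 29) (.e (nat_lit 557098) (nat_lit 13) (.e (nat_lit 172115) (nat_lit 10) (.e (nat_lit 434231) (nat_lit 23) (.e (nat_lit 532490) (nat_lit 0) (.e (nat_lit 6680) (nat_lit 357) (.e (nat_lit 3066) (nat_lit 190) .nil))))))) (.g (nat_lit 1) (.e (nat_lit 351856) (nat_lit 0) .nil) .nil)))) (.nd (nat_lit 9) 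
(.lf (nat_lit 570811) (.g (nat_lit 1216) (.e (nat_lit 475179) (nat_lit 24) (.e (nat_lit 516120) (nat_lit 1) (.e (nat_lit 164322) (nat_lit 230) (.e (nat_lit 163902) (nat_lit 12) .nil)))) (.g (nat_lit 0) (.e (nat_lit 351378) (nat_lit 0) .nil) .nil))) 
(.lf (nat_lit 571323) (.g (nat_lit 3620) (.e (nat_lit 475185) (nat_lit 29) (.e (nat_lit 557098) (nat_lit 13) (.e (nat_lit 172120) (nat_lit 12) (.e (nat_lit 475185) (nat_lit 29) (.e (nat_lit 557100) (nat_lit 13) (.e (nat_lit 172118) (nat_lit 12) .nil)))))) (.g (nat_lit 1) (.e (nat_lit 352140) (nat_lit 0) .nil) .nil)))))) (.nd (nat_lit 7) (.nd (nat_lit 8) (.nd (nat_lit 9) 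
(.lf (nat_lit 570491) (.g (nat_lit 1956) (.e (nat_lit 475177) (nat_lit 24) (.e (nat_lit 516174) (nat_lit 14) (.e (nat_lit 466954) (nat_lit 11) (.e (nat_lit 335986) (nat_lit 1) (.e (nat_lit 57657) (nat_lit 152) .nil))))) (.g (nat_lit 0) (.e (nat_lit 350903) (nat_lit 0) .nil) .nil))) 
(.lf (nat_lit 571003) (.g (nat_lit 2674) (.e (nat_lit 475179) (nat_lit 24) (.e (nat_lit 516176) (nat_lit 14) (.e (nat_lit 466954) (nat_lit 11) (.e (nat_lit 335986) (nat_lit 1) (.e (nat_lit 57657) (nat_lit 152) (.e (nat_lit 2497) (nat_lit 157) (.e (nat_lit 3067) (nat_lit 190) .nil))))))) (.g (nat_lit 1) (.e (nat_lit 351775) (nat_lit 0) .nil) .nil)))) (.nd (nat_lit 9) 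
(.lf (nat_lit 570747) (.g (nat_lit 2218) (.e (nat_lit 475179) (nat_lit 24) (.e (nat_lit 516117) (nat_lit 1) (.e (nat_lit 164332) (nat_lit 230) (.e (nat_lit 163905) (nat_lit 12) (.e (nat_lit 426491) (nat_lit 27) (.e (nat_lit 336409) (nat_lit 27) (.e (nat_lit 426313) (nat_lit 12) .nil))))))) (.g (nat_lit 1) (.e (nat_lit 351281) (nat_lit 0) .nil) .nil))) 
(.lf (nat_lit 571259) (.g (nat_lit 3309) (.e (nat_lit 475184) (nat_lit 29) (.e (nat_lit 557109) (nat_lit 15) (.e (nat_lit 188452) (nat_lit 23) (.e (nat_lit 204814) (nat_lit 17) (.e (nat_lit 6666) (nat_lit 357) .nil))))) (.g (nat_lit 0) (.e (nat_lit 352065) (nat_lit 0) .nil) .nil))))) (.nd (nat_lit 8) (.nd (nat_lit 9) 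
(.lf (nat_lit 570619) (.g (nat_lit 2099) (.e (nat_lit 475178) (nat_lit 24) (.e (nat_lit 516117) (nat_lit 1) (.e (nat_lit 164329) (nat_lit 230) (.e (nat_lit 163941) (nat_lit 19) (.e (nat_lit 483341) (nat_lit 9) (.e (nat_lit 426313) (nat_lit 12) .nil)))))) (.g (nat_lit 1) (.e (nat_lit 351081) (nat_lit 0) .nil) .nil))) 
(.lf (nat_lit 571131) (.g (nat_lit 3031) (.e (nat_lit 475183) (nat_lit 29) (.e (nat_lit 557109) (nat_lit 15) (.e (nat_lit 188450) (nat_lit 23) (.e (nat_lit 204884) (nat_lit 33) .nil)))) (.g (nat_lit 0) (.e (nat_lit 351922) (nat_lit 0) .nil) .nil)))) (.nd (nat_lit 9) 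
(.lf (nat_lit 570875) (.g (nat_lit 427) (.e (nat_lit 475179) (nat_lit 24) (.e (nat_lit 516120) (nat_lit 1) (.e (nat_lit 164331) (nat_lit 230) .nil))) (.g (nat_lit 0) (.e (nat_lit 351454) (nat_lit 0) .nil) .nil))) 
(.lf (nat_lit 571387) (.g (nat_lit 2945) (.e (nat_lit 475185) (nat_lit 29) (.e (nat_lit 557100) (nat_lit 13) (.e (nat_lit 172113) (nat_lit 10) (.e (nat_lit 434245) (nat_lit 28) (.e (nat_lit 573451) (nat_lit 9) (.e (nat_lit 430) (nat_lit 32) (.e (nat_lit 426314) (nat_lit 12) .nil))))))) (.g (nat_lit 1) (.e (nat_lit 352205) (nat_lit 0) .nil) .nil)))))))))) 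
(.nd (nat_lit 3) (.nd (nat_lit 4) (.nd (nat_lit 5) (.nd (nat_lit 6) (.nd (nat_lit 7) 
(.nd (nat_lit 8) (.nd (nat_lit 9) 
(.lf (nat_lit 570375) (.g (nat_lit 2042) (.e (nat_lit 475177) (nat_lit 24) (.e (nat_lit 516127) (nat_lit 2) (.e (nat_lit 213032) (nat_lit 11) (.e (nat_lit 24607) (nat_lit 3) (.e (nat_lit 98363) (nat_lit 26) (.e (nat_lit 426318) (nat_lit 12) .nil)))))) (.g (nat_lit 1) (.e (nat_lit 350737) (nat_lit 0) .nil) .nil))) 
(.lf (nat_lit 570887) (.g (nat_lit 1874) (.e (nat_lit 475179) (nat_lit 24) (.e (nat_lit 516120) (nat_lit 1) (.e (nat_lit 164332) (nat_lit 230) (.e (nat_lit 163905) (nat_lit 12) (.e (nat_lit 426478) (nat_lit 27) .nil))))) (.g (nat_lit 0) (.e (nat_lit 351469) (nat_lit 0) .nil) .nil)))) (.nd (nat_lit 9) 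
(.lf (nat_lit 570631) (.g (nat_lit 1496) (.e (nat_lit 475178) (nat_lit 24) (.e (nat_lit 516120) (nat_lit 1) (.e (nat_lit 164330) (nat_lit 230) (.e (nat_lit 163915) (nat_lit 12) .nil)))) (.g (nat_lit 0) (.e (nat_lit 351107) (nat_lit 0) .nil) .nil))) 
(.lf (nat_lit 571143) (.g (nat_lit 3482) (.e (nat_lit 475184) (nat_lit 29) (.e (nat_lit 557098) (nat_lit 13) (.e (nat_lit 172097) (nat_lit 9) (.e (nat_lit 426125) (nat_lit 2) (.e (nat_lit 196661) (nat_lit 12) (.e (nat_lit 57750) (nat_lit 201) (.e (nat_lit 3064) (nat_lit 190) .nil))))))) (.g (nat_lit 1) (.e (nat_lit 351944) (nat_lit 0) .nil) .nil))))) (.nd (nat_lit 8) (.nd (nat_lit 9) 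
(.lf (nat_lit 570503) (.g (nat_lit 2114) (.e (nat_lit 475177) (nat_lit 24) (.e (nat_lit 516174) (nat_lit 14) (.e (nat_lit 466954) (nat_lit 11) (.e (nat_lit 335988) (nat_lit 1) (.e (nat_lit 57689) (nat_lit 156) .nil))))) (.g (nat_lit 0) (.e (nat_lit 350921) (nat_lit 0) .nil) .nil))) 
(.lf (nat_lit 571015) (.g (nat_lit 1237) (.e (nat_lit 475179) (nat_lit 24) (.e (nat_lit 516176) (nat_lit 14) (.e (nat_lit 466954) (nat_lit 11) (.e (nat_lit 335995) (nat_lit 1) .nil)))) (.g (nat_lit 0) (.e (nat_lit 351792) (nat_lit 0) .nil) .nil)))) (.nd (nat_lit 9) 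
(.lf (nat_lit 570759) (.g (nat_lit 2375) (.e (nat_lit 475179) (nat_lit 24) (.e (nat_lit 516119) (nat_lit 1) (.e (nat_lit 164322) (nat_lit 230) (.e (nat_lit 163902) (nat_lit 12) (.e (nat_lit 426479) (nat_lit 27) (.e (nat_lit 336414) (nat_lit 27) (.e (nat_lit 426318) (nat_lit 12) .nil))))))) (.g (nat_lit 1) (.e (nat_lit 351296) (nat_lit 0) .nil) .nil))) 
(.lf (nat_lit 571271) (.g (nat_lit 2725) (.e (nat_lit 475184) (nat_lit 29) (.e (nat_lit 557109) (nat_lit 15) (.e (nat_lit 188452) (nat_lit 23) (.e (nat_lit 212736) (nat_lit 17) .nil)))) (.g (nat_lit 0) (.e (nat_lit 352077) (nat_lit 0) .nil) .nil)))))) (.nd (nat_lit 7) (.nd (nat_lit 8) (.nd (nat_lit 9) 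
(.lf (nat_lit 570439) (.g (nat_lit 826) (.e (nat_lit 475177) (nat_lit 24) (.e (nat_lit 516150) (nat_lit 9) (.e (nat_lit 426323) (nat_lit 13) (.e (nat_lit 483363) (nat_lit 18) .nil)))) (.g (nat_lit 0) (.e (nat_lit 350819) (nat_lit 0) .nil) .nil))) 
(.lf (nat_lit 570951) (.g (nat_lit 2192) (.e (nat_lit 475179) (nat_lit 24) (.e (nat_lit 516150) (nat_lit 9) (.e (nat_lit 426323) (nat_lit 13) (.e (nat_lit 483365) (nat_lit 18) (.e (nat_lit 57686) (nat_lit 156) (.e (nat_lit 163936) (nat_lit 18) .nil)))))) (.g (nat_lit 1) (.e (nat_lit 351571) (nat_lit 0) .nil) .nil)))) (.nd (nat_lit 9) 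
(.lf (nat_lit 570695) (.g (nat_lit 2602) (.e (nat_lit 475179) (nat_lit 24) (.e (nat_lit 516115) (nat_lit 1) (.e (nat_lit 164327) (nat_lit 230) (.e (nat_lit 163903) (nat_lit 12) (.e (nat_lit 426481) (nat_lit 27) .nil))))) (.g (nat_lit 0) (.e (nat_lit 351209) (nat_lit 0) .nil) .nil))) 
(.lf (nat_lit 571207) (.g (nat_lit 2200) (.e (nat_lit 475184) (nat_lit 29) (.e (nat_lit 557107) (nat_lit 15) (.e (nat_lit 188447) (nat_lit 22) (.e (nat_lit 196661) (nat_lit 12) (.e (nat_lit 57751) (nat_lit 201) (.e (nat_lit 3064) (nat_lit 190) .nil)))))) (.g (nat_lit 1) (.e (nat_lit 352013) (nat_lit 0) .nil) .nil))))) (.nd (nat_lit 8) (.nd (nat_lit 9) 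
(.lf (nat_lit 570567) (.g (nat_lit 1451) (.e (nat_lit 475177) (nat_lit 24) (.e (nat_lit 516178) (nat_lit 15) (.e (nat_lit 475179) (nat_lit 24) (.e (nat_lit 516182) (nat_lit 15) (.e (nat_lit 475179) (nat_lit 24) .nil))))) (.g (nat_lit 0) (.e (nat_lit 351004) (nat_lit 0) .nil) .nil))) 
(.lf (nat_lit 571079) (.g (nat_lit 3035) (.e (nat_lit 475183) (nat_lit 29) (.e (nat_lit 557100) (nat_lit 13) (.e (nat_lit 172113) (nat_lit 10) (.e (nat_lit 434245) (nat_lit 28) (.e (nat_lit 573471) (nat_lit 11) (.e (nat_lit 16457) (nat_lit 12) .nil)))))) (.g (nat_lit 1) (.e (nat_lit 351868) (nat_lit 0) .nil) .nil)))) (.nd (nat_lit 9) 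
(.lf (nat_lit 570823) (.g (nat_lit 1745) (.e (nat_lit 475179) (nat_lit 24) (.e (nat_lit 516120) (nat_lit 1) (.e (nat_lit 164330) (nat_lit 230) (.e (nat_lit 163901) (nat_lit 12) .nil)))) (.g (nat_lit 0) (.e (nat_lit 351391) (nat_lit 0) .nil) .nil))) 
(.lf (nat_lit 571335) (.g (nat_lit 2304) (.e (nat_lit 475185) (nat_lit 29) (.e (nat_lit 557100) (nat_lit 13) (.e (nat_lit 172106) (nat_lit 10) (.e (nat_lit 434219) (nat_lit 19) (.e (nat_lit 499718) (nat_lit 0) .nil))))) (.g (nat_lit 0) (.e (nat_lit 352153) (nat_lit 0) .nil) .nil))))))) (.nd (nat_lit 6) (.nd (nat_lit 7) (.nd (nat_lit 8) (.nd (nat_lit 9) 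
(.lf (nat_lit 570407) (.g (nat_lit 2047) (.e (nat_lit 475177) (nat_lit 24) (.e (nat_lit 516148) (nat_lit 9) (.e (nat_lit 426436) (nat_lit 18) (.e (nat_lit 98358) (nat_lit 26) (.e (nat_lit 426438) (nat_lit 18) (.e (nat_lit 98385) (nat_lit 32) .nil)))))) (.g (nat_lit 1) (.e (nat_lit 350780) (nat_lit 0) .nil) .nil))) 
(.lf (nat_lit 570919) (.g (nat_lit 2626) (.e (nat_lit 475179) (nat_lit 24) (.e (nat_lit 516146) (nat_lit 9) (.e (nat_lit 426323) (nat_lit 13) (.e (nat_lit 483363) (nat_lit 18) (.e (nat_lit 57686) (nat_lit 156) (.e (nat_lit 163936) (nat_lit 18) .nil)))))) (.g (nat_lit 1) (.e (nat_lit 351519) (nat_lit 0) .nil) .nil)))) (.nd (nat_lit 9) 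
(.lf (nat_lit 570663) (.g (nat_lit 1143) (.e (nat_lit 475179) (nat_lit 24) (.e (nat_lit 516115) (nat_lit 1) (.e (nat_lit 164325) (nat_lit 230) (.e (nat_lit 163903) (nat_lit 12) .nil)))) (.g (nat_lit 0) (.e (nat_lit 351155) (nat_lit 0) .nil) .nil))) 
(.lf (nat_lit 571175) (.g (nat_lit 3951) (.e (nat_lit 475184) (nat_lit 29) (.e (nat_lit 557100) (nat_lit 13) (.e (nat_lit 172106) (nat_lit 10) (.e (nat_lit 434244) (nat_lit 28) (.e (nat_lit 573451) (nat_lit 9) (.e (nat_lit 396) (nat_lit 32) (.e (nat_lit 426308) (nat_lit 12) .nil))))))) (.g (nat_lit 1) (.e (nat_lit 351976) (nat_lit 0) .nil) .nil))))) (.nd (nat_lit 8) (.nd (nat_lit 9) 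
(.lf (nat_lit 570535) (.g (nat_lit 2820) (.e (nat_lit 475177) (nat_lit 24) (.e (nat_lit 516176) (nat_lit 14) (.e (nat_lit 466954) (nat_lit 11) (.e (nat_lit 335986) (nat_lit 1) (.e (nat_lit 57688) (nat_lit 156) (.e (nat_lit 163937) (nat_lit 18) .nil)))))) (.g (nat_lit 1) (.e (nat_lit 350962) (nat_lit 0) .nil) .nil))) 
(.lf (nat_lit 571047) (.g (nat_lit 1864) (.e (nat_lit 475180) (nat_lit 25) (.e (nat_lit 524319) (nat_lit 11) (.e (nat_lit 442421) (nat_lit 21) (.e (nat_lit 164177) (nat_lit 154) (.e (nat_lit 57388) (nat_lit 5) .nil))))) (.g (nat_lit 0) (.e (nat_lit 351830) (nat_lit 0) .nil) .nil)))) (.nd (nat_lit 9) 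
(.lf (nat_lit 570791) (.g (nat_lit 1344) (.e (nat_lit 475179) (nat_lit 24) (.e (nat_lit 516119) (nat_lit 1) (.e (nat_lit 164327) (nat_lit 230) (.e (nat_lit 163875) (nat_lit 3) .nil)))) (.g (nat_lit 0) (.e (nat_lit 351351) (nat_lit 0) .nil) .nil))) 
(.lf (nat_lit 571303) (.g (nat_lit 938) (.e (nat_lit 475185) (nat_lit 29) (.e (nat_lit 557098) (nat_lit 13) (.e (nat_lit 172096) (nat_lit 9) .nil))) (.g (nat_lit 0) (.e (nat_lit 352120) (nat_lit 0) .nil) .nil)))))) (.nd (nat_lit 7) (.nd (nat_lit 8) (.nd (nat_lit 9) 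
(.lf (nat_lit 570471) (.g (nat_lit 2241) (.e (nat_lit 475177) (nat_lit 24) (.e (nat_lit 516150) (nat_lit 9) (.e (nat_lit 426438) (nat_lit 18) (.e (nat_lit 98358) (nat_lit 26) (.e (nat_lit 426361) (nat_lit 15) .nil))))) (.g (nat_lit 0) (.e (nat_lit 350860) (nat_lit 0) .nil) .nil))) 
(.lf (nat_lit 570983) (.g (nat_lit 1971) (.e (nat_lit 475179) (nat_lit 24) (.e (nat_lit 516174) (nat_lit 14) (.e (nat_lit 466954) (nat_lit 11) (.e (nat_lit 335995) (nat_lit 1) (.e (nat_lit 57686) (nat_lit 156) (.e (nat_lit 163939) (nat_lit 18) .nil)))))) (.g (nat_lit 1) (.e (nat_lit 351753) (nat_lit 0) .nil) .nil)))) (.nd (nat_lit 9) 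
(.lf (nat_lit 570727) (.g (nat_lit 1555) (.e (nat_lit 475179) (nat_lit 24) (.e (nat_lit 516117) (nat_lit 1) (.e (nat_lit 164330) (nat_lit 230) (.e (nat_lit 163850) (nat_lit 0) .nil)))) (.g (nat_lit 0) (.e (nat_lit 351257) (nat_lit 0) .nil) .nil))) 
(.lf (nat_lit 571239) (.g (nat_lit 4276) (.e (nat_lit 475184) (nat_lit 29) (.e (nat_lit 557109) (nat_lit 15) (.e (nat_lit 188449) (nat_lit 22) (.e (nat_lit 196642) (nat_lit 9) .nil)))) (.g (nat_lit 0) (.e (nat_lit 352045) (nat_lit 0) .nil) .nil))))) (.nd (nat_lit 8) (.nd (nat_lit 9) 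
(.lf (nat_lit 570599) (.g (nat_lit 2682) (.e (nat_lit 475177) (nat_lit 24) (.e (nat_lit 516181) (nat_lit 15) (.e (nat_lit 475179) (nat_lit 24) (.e (nat_lit 516179) (nat_lit 15) (.e (nat_lit 475179) (nat_lit 24) (.e (nat_lit 516182) (nat_lit 15) .nil)))))) (.g (nat_lit 1) (.e (nat_lit 351051) (nat_lit 0) .nil) .nil))) 
(.lf (nat_lit 571111) (.g (nat_lit 1221) (.e (nat_lit 475183) (nat_lit 29) (.e (nat_lit 557108) (nat_lit 15) (.e (nat_lit 188449) (nat_lit 22) (.e (nat_lit 196661) (nat_lit 12) .nil)))) (.g (nat_lit 0) (.e (nat_lit 351902) (nat_lit 0) .nil) .nil)))) (.nd (nat_lit 9) 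
(.lf (nat_lit 570855) (.g (nat_lit 2094) (.e (nat_lit 475179) (nat_lit 24) (.e (nat_lit 516120) (nat_lit 1) (.e (nat_lit 164330) (nat_lit 230) (.e (nat_lit 163905) (nat_lit 12) (.e (nat_lit 426568) (nat_lit 34) .nil))))) (.g (nat_lit 0) (.e (nat_lit 351425) (nat_lit 0) .nil) .nil))) 
(.lf (nat_lit 571367) (.g (nat_lit 2838) (.e (nat_lit 475185) (nat_lit 29) (.e (nat_lit 557100) (nat_lit 13) (.e (nat_lit 172106) (nat_lit 10) (.e (nat_lit 434231) (nat_lit 23) (.e (nat_lit 532499) (nat_lit 1) (.e (nat_lit 57764) (nat_lit 215) (.e (nat_lit 2505) (nat_lit 157) (.e (nat_lit 3062) (nat_lit 190) .nil)))))))) (.g (nat_lit 1) (.e (nat_lit 352185) (nat_lit 0) .nil) .nil)))))))) 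
(.nd (nat_lit 5) (.nd (nat_lit 6) (.nd (nat_lit 7) (.nd (nat_lit 8) (.nd (nat_lit 9) 
(.lf (nat_lit 570391) (.g (nat_lit 1325) (.e (nat_lit 475177) (nat_lit 24) (.e (nat_lit 516145) (nat_lit 9) (.e (nat_lit 426438) (nat_lit 18) (.e (nat_lit 98386) (nat_lit 32) .nil)))) (.g (nat_lit 0) (.e (nat_lit 350758) (nat_lit 0) .nil) .nil))) 
(.lf (nat_lit 570903) (.g (nat_lit 3179) (.e (nat_lit 475179) (nat_lit 24) (.e (nat_lit 516120) (nat_lit 1) (.e (nat_lit 164332) (nat_lit 230) (.e (nat_lit 163941) (nat_lit 19) (.e (nat_lit 483341) (nat_lit 9) (.e (nat_lit 433920) (nat_lit 12) .nil)))))) (.g (nat_lit 1) (.e (nat_lit 351486) (nat_lit 0) .nil) .nil)))) (.nd (nat_lit 9) 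
(.lf (nat_lit 570647) (.g (nat_lit 1456) (.e (nat_lit 475178) (nat_lit 24) (.e (nat_lit 516179) (nat_lit 15) (.e (nat_lit 475179) (nat_lit 24) (.e (nat_lit 516182) (nat_lit 15) .nil)))) (.g (nat_lit 0) (.e (nat_lit 351135) (nat_lit 0) .nil) .nil))) 
(.lf (nat_lit 571159) (.g (nat_lit 2644) (.e (nat_lit 475184) (nat_lit 29) (.e (nat_lit 557098) (nat_lit 13) (.e (nat_lit 172112) (nat_lit 10) (.e (nat_lit 434248) (nat_lit 28) (.e (nat_lit 573470) (nat_lit 11) (.e (nat_lit 16458) (nat_lit 12) .nil)))))) (.g (nat_lit 1) (.e (nat_lit 351960) (nat_lit 0) .nil) .nil))))) (.nd (nat_lit 8) (.nd (nat_lit 9) 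
(.lf (nat_lit 570519) (.g (nat_lit 3281) (.e (nat_lit 475177) (nat_lit 24) (.e (nat_lit 516174) (nat_lit 14) (.e (nat_lit 466954) (nat_lit 11) (.e (nat_lit 335995) (nat_lit 1) (.e (nat_lit 57691) (nat_lit 156) (.e (nat_lit 163939) (nat_lit 18) .nil)))))) (.g (nat_lit 1) (.e (nat_lit 350939) (nat_lit 0) .nil) .nil))) 
(.lf (nat_lit 571031) (.g (nat_lit 3100) (.e (nat_lit 475179) (nat_lit 24) (.e (nat_lit 516179) (nat_lit 15) (.e (nat_lit 475177) (nat_lit 24) (.e (nat_lit 516179) (nat_lit 15) (.e (nat_lit 475179) (nat_lit 24) (.e (nat_lit 516182) (nat_lit 15) .nil)))))) (.g (nat_lit 1) (.e (nat_lit 351813) (nat_lit 0) .nil) .nil)))) (.nd (nat_lit 9) 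
(.lf (nat_lit 570775) (.g (nat_lit 1891) (.e (nat_lit 475179) (nat_lit 24) (.e (nat_lit 516119) (nat_lit 1) (.e (nat_lit 164325) (nat_lit 230) (.e (nat_lit 163907) (nat_lit 12) (.e (nat_lit 426491) (nat_lit 27) .nil))))) (.g (nat_lit 0) (.e (nat_lit 351320) (nat_lit 0) .nil) .nil))) 
(.lf (nat_lit 571287) (.g (nat_lit 1920) (.e (nat_lit 475185) (nat_lit 29) (.e (nat_lit 557097) (nat_lit 13) (.e (nat_lit 172115) (nat_lit 10) (.e (nat_lit 434231) (nat_lit 23) (.e (nat_lit 532569) (nat_lit 16) .nil))))) (.g (nat_lit 0) (.e (nat_lit 352104) (nat_lit 0) .nil) .nil)))))) (.nd (nat_lit 7) (.nd (nat_lit 8) (.nd (nat_lit 9) 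
(.lf (nat_lit 570455) (.g (nat_lit 3111) (.e (nat_lit 475177) (nat_lit 24) (.e (nat_lit 516150) (nat_lit 9) (.e (nat_lit 426323) (nat_lit 13) (.e (nat_lit 483365) (nat_lit 18) (.e (nat_lit 57687) (nat_lit 156) (.e (nat_lit 163936) (nat_lit 18) .nil)))))) (.g (nat_lit 1) (.e (nat_lit 350842) (nat_lit 0) .nil) .nil))) 
(.lf (nat_lit 570967) (.g (nat_lit 407) (.e (nat_lit 475179) (nat_lit 24) (.e (nat_lit 516174) (nat_lit 14) (.e (nat_lit 466954) (nat_lit 11) .nil))) (.g (nat_lit 0) (.e (nat_lit 351733) (nat_lit 0) .nil) .nil)))) (.nd (nat_lit 9) 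
(.lf (nat_lit 570711) (.g (nat_lit 1389) (.e (nat_lit 475179) (nat_lit 24) (.e (nat_lit 516115) (nat_lit 1) (.e (nat_lit 164332) (nat_lit 230) (.e (nat_lit 163905) (nat_lit 12) .nil)))) (.g (nat_lit 0) (.e (nat_lit 351232) (nat_lit 0) .nil) .nil))) 
(.lf (nat_lit 571223) (.g (nat_lit 3570) (.e (nat_lit 475184) (nat_lit 29) (.e (nat_lit 557108) (nat_lit 15) (.e (nat_lit 188452) (nat_lit 23) (.e (nat_lit 204816) (nat_lit 17) .nil)))) (.g (nat_lit 0) (.e (nat_lit 352029) (nat_lit 0) .nil) .nil))))) (.nd (nat_lit 8) (.nd (nat_lit 9) 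
(.lf (nat_lit 570583) (.g (nat_lit 2046) (.e (nat_lit 475177) (nat_lit 24) (.e (nat_lit 516180) (nat_lit 15) (.e (nat_lit 475177) (nat_lit 24) (.e (nat_lit 516150) (nat_lit 9) (.e (nat_lit 433920) (nat_lit 18) .nil))))) (.g (nat_lit 0) (.e (nat_lit 351024) (nat_lit 0) .nil) .nil))) 
(.lf (nat_lit 571095) (.g (nat_lit 3558) (.e (nat_lit 475183) (nat_lit 29) (.e (nat_lit 557107) (nat_lit 15) (.e (nat_lit 188447) (nat_lit 22) (.e (nat_lit 196661) (nat_lit 12) (.e (nat_lit 57750) (nat_lit 201) (.e (nat_lit 3067) (nat_lit 190) .nil)))))) (.g (nat_lit 1) (.e (nat_lit 351886) (nat_lit 0) .nil) .nil)))) (.nd (nat_lit 9) 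
(.lf (nat_lit 570839) (.g (nat_lit 3522) (.e (nat_lit 475179) (nat_lit 24) (.e (nat_lit 516120) (nat_lit 1) (.e (nat_lit 164330) (nat_lit 230) (.e (nat_lit 163902) (nat_lit 12) (.e (nat_lit 426562) (nat_lit 33) (.e (nat_lit 385030) (nat_lit 8) (.e (nat_lit 3067) (nat_lit 190) .nil))))))) (.g (nat_lit 1) (.e (nat_lit 351407) (nat_lit 0) .nil) .nil))) 
(.lf (nat_lit 571351) (.g (nat_lit 2574) (.e (nat_lit 475185) (nat_lit 29) (.e (nat_lit 557100) (nat_lit 13) (.e (nat_lit 172106) (nat_lit 10) (.e (nat_lit 434231) (nat_lit 23) (.e (nat_lit 532483) (nat_lit 0) (.e (nat_lit 7936) (nat_lit 357) (.e (nat_lit 3060) (nat_lit 190) .nil))))))) (.g (nat_lit 1) (.e (nat_lit 352169) (nat_lit 0) .nil) .nil))))))) 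
(.nd (nat_lit 6) (.nd (nat_lit 7) (.nd (nat_lit 8) (.nd (nat_lit 9) 
(.lf (nat_lit 570423) (.g (nat_lit 2417) (.e (nat_lit 475177) (nat_lit 24) (.e (nat_lit 516149) (nat_lit 9) (.e (nat_lit 426323) (nat_lit 13) (.e (nat_lit 483365) (nat_lit 18) (.e (nat_lit 57688) (nat_lit 156) (.e (nat_lit 163938) (nat_lit 18) .nil)))))) (.g (nat_lit 1) (.e (nat_lit 350798) (nat_lit 0) .nil) .nil))) 
(.lf (nat_lit 570935) (.g (nat_lit 1616) (.e (nat_lit 475179) (nat_lit 24) (.e (nat_lit 516146) (nat_lit 9) (.e (nat_lit 426436) (nat_lit 18) (.e (nat_lit 98358) (nat_lit 26) (.e (nat_lit 426428) (nat_lit 17) .nil))))) (.g (nat_lit 0) (.e (nat_lit 351535) (nat_lit 0) .nil) .nil)))) (.nd (nat_lit 9) 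
(.lf (nat_lit 570679) (.g (nat_lit 2163) (.e (nat_lit 475179) (nat_lit 24) (.e (nat_lit 516115) (nat_lit 1) (.e (nat_lit 164325) (nat_lit 230) (.e (nat_lit 163907) (nat_lit 12) (.e (nat_lit 426481) (nat_lit 27) (.e (nat_lit 336388) (nat_lit 27) (.e (nat_lit 426313) (nat_lit 12) .nil))))))) (.g (nat_lit 1) (.e (nat_lit 351173) (nat_lit 0) .nil) .nil))) 
(.lf (nat_lit 571191) (.g (nat_lit 1821) (.e (nat_lit 475184) (nat_lit 29) (.e (nat_lit 557101) (nat_lit 13) (.e (nat_lit 172097) (nat_lit 9) (.e (nat_lit 426140) (nat_lit 3) (.e (nat_lit 204883) (nat_lit 33) .nil))))) (.g (nat_lit 0) (.e (nat_lit 351992) (nat_lit 0) .nil) .nil))))) (.nd (nat_lit 8) (.nd (nat_lit 9) 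
(.lf (nat_lit 570551) (.g (nat_lit 2272) (.e (nat_lit 475177) (nat_lit 24) (.e (nat_lit 516176) (nat_lit 14) (.e (nat_lit 466954) (nat_lit 11) (.e (nat_lit 335995) (nat_lit 1) (.e (nat_lit 57686) (nat_lit 156) (.e (nat_lit 163939) (nat_lit 18) .nil)))))) (.g (nat_lit 1) (.e (nat_lit 350983) (nat_lit 0) .nil) .nil))) 
(.lf (nat_lit 571063) (.g (nat_lit 2672) (.e (nat_lit 475183) (nat_lit 29) (.e (nat_lit 557098) (nat_lit 13) (.e (nat_lit 172105) (nat_lit 10) (.e (nat_lit 434248) (nat_lit 28) (.e (nat_lit 573470) (nat_lit 11) (.e (nat_lit 16458) (nat_lit 12) .nil)))))) (.g (nat_lit 1) (.e (nat_lit 351852) (nat_lit 0) .nil) .nil)))) (.nd (nat_lit 9) 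
(.lf (nat_lit 570807) (.g (nat_lit 621) (.e (nat_lit 475179) (nat_lit 24) (.e (nat_lit 516120) (nat_lit 1) (.e (nat_lit 164305) (nat_lit 226) .nil))) (.g (nat_lit 0) (.e (nat_lit 351374) (nat_lit 0) .nil) .nil))) 
(.lf (nat_lit 571319) (.g (nat_lit 1535) (.e (nat_lit 475185) (nat_lit 29) (.e (nat_lit 557098) (nat_lit 13) (.e (nat_lit 172115) (nat_lit 10) (.e (nat_lit 434244) (nat_lit 28) (.e (nat_lit 573450) (nat_lit 9) .nil))))) (.g (nat_lit 0) (.e (nat_lit 352136) (nat_lit 0) .nil) .nil)))))) (.nd (nat_lit 7) (.nd (nat_lit 8) (.nd (nat_lit 9) 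
(.lf (nat_lit 570487) (.g (nat_lit 965) (.e (nat_lit 475177) (nat_lit 24) (.e (nat_lit 516174) (nat_lit 14) (.e (nat_lit 466954) (nat_lit 11) (.e (nat_lit 335986) (nat_lit 1) .nil)))) (.g (nat_lit 0) (.e (nat_lit 350897) (nat_lit 0) .nil) .nil))) 
(.lf (nat_lit 570999) (.g (nat_lit 2577) (.e (nat_lit 475179) (nat_lit 24) (.e (nat_lit 516176) (nat_lit 14) (.e (nat_lit 466954) (nat_lit 11) (.e (nat_lit 335986) (nat_lit 1) (.e (nat_lit 57652) (nat_lit 152) .nil))))) (.g (nat_lit 0) (.e (nat_lit 351771) (nat_lit 0) .nil) .nil)))) (.nd (nat_lit 9) 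
(.lf (nat_lit 570743) (.g (nat_lit 803) (.e (nat_lit 475179) (nat_lit 24) (.e (nat_lit 516117) (nat_lit 1) (.e (nat_lit 164332) (nat_lit 230) (.e (nat_lit 163905) (nat_lit 12) .nil)))) (.g (nat_lit 0) (.e (nat_lit 351277) (nat_lit 0) .nil) .nil))) 
(.lf (nat_lit 571255) (.g (nat_lit 2216) (.e (nat_lit 475184) (nat_lit 29) (.e (nat_lit 557109) (nat_lit 15) (.e (nat_lit 188450) (nat_lit 23) (.e (nat_lit 204884) (nat_lit 33) .nil)))) (.g (nat_lit 0) (.e (nat_lit 352061) (nat_lit 0) .nil) .nil))))) (.nd (nat_lit 8) (.nd (nat_lit 9) 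
(.lf (nat_lit 570615) (.g (nat_lit 1480) (.e (nat_lit 475178) (nat_lit 24) (.e (nat_lit 516117) (nat_lit 1) (.e (nat_lit 164329) (nat_lit 230) (.e (nat_lit 163902) (nat_lit 12) (.e (nat_lit 426567) (nat_lit 34) (.e (nat_lit 393295) (nat_lit 26) .nil)))))) (.g (nat_lit 1) (.e (nat_lit 351077) (nat_lit 0) .nil) .nil))) 
(.lf (nat_lit 571127) (.g (nat_lit 2640) (.e (nat_lit 475183) (nat_lit 29) (.e (nat_lit 557109) (nat_lit 15) (.e (nat_lit 188449) (nat_lit 22) (.e (nat_lit 196661) (nat_lit 12) (.e (nat_lit 57750) (nat_lit 201) .nil))))) (.g (nat_lit 0) (.e (nat_lit 351918) (nat_lit 0) .nil) .nil)))) (.nd (nat_lit 9) 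
(.lf (nat_lit 570871) (.g (nat_lit 2826) (.e (nat_lit 475179) (nat_lit 24) (.e (nat_lit 516120) (nat_lit 1) (.e (nat_lit 164330) (nat_lit 230) (.e (nat_lit 163941) (nat_lit 19) (.e (nat_lit 483338) (nat_lit 9) .nil))))) (.g (nat_lit 0) (.e (nat_lit 351444) (nat_lit 0) .nil) .nil))) 
(.lf (nat_lit 571383) (.g (nat_lit 4443) (.e (nat_lit 475185) (nat_lit 29) (.e (nat_lit 557100) (nat_lit 13) (.e (nat_lit 172113) (nat_lit 10) (.e (nat_lit 434245) (nat_lit 28) (.e (nat_lit 573450) (nat_lit 9) (.e (nat_lit 375) (nat_lit 32) (.e (nat_lit 426305) (nat_lit 12) .nil))))))) (.g (nat_lit 1) (.e (nat_lit 352201) (nat_lit 0) .nil) .nil))))))))) 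
(.nd (nat_lit 4) (.nd (nat_lit 5) (.nd (nat_lit 6) (.nd (nat_lit 7) (.nd (nat_lit 8) 
(.nd (nat_lit 9) 
(.lf (nat_lit 570383) (.g (nat_lit 2589) (.e (nat_lit 475177) (nat_lit 24) (.e (nat_lit 516131) (nat_lit 3) (.e (nat_lit 221194) (nat_lit 11) (.e (nat_lit 336010) (nat_lit 2) (.e (nat_lit 90170) (nat_lit 13) (.e (nat_lit 172118) (nat_lit 12) .nil)))))) (.g (nat_lit 1) (.e (nat_lit 350746) (nat_lit 0) .nil) .nil))) 
(.lf (nat_lit 570895) (.g (nat_lit 2632) (.e (nat_lit 475179) (nat_lit 24) (.e (nat_lit 516120) (nat_lit 1) (.e (nat_lit 164332) (nat_lit 230) (.e (nat_lit 163905) (nat_lit 12) (.e (nat_lit 426489) (nat_lit 27) (.e (nat_lit 336406) (nat_lit 27) (.e (nat_lit 426313) (nat_lit 12) .nil))))))) (.g (nat_lit 1) (.e (nat_lit 351477) (nat_lit 0) .nil) .nil)))) (.nd (nat_lit 9) 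
(.lf (nat_lit 570639) (.g (nat_lit 2109) (.e (nat_lit 475178) (nat_lit 24) (.e (nat_lit 516163) (nat_lit 11) (.e (nat_lit 442421) (nat_lit 21) (.e (nat_lit 164177) (nat_lit 154) .nil)))) (.g (nat_lit 0) (.e (nat_lit 351124) (nat_lit 0) .nil) .nil))) 
(.lf (nat_lit 571151) (.g (nat_lit 1981) (.e (nat_lit 475184) (nat_lit 29) (.e (nat_lit 557098) (nat_lit 13) (.e (nat_lit 172097) (nat_lit 9) (.e (nat_lit 426140) (nat_lit 3) (.e (nat_lit 204821) (nat_lit 17) (.e (nat_lit 6680) (nat_lit 357) (.e (nat_lit 3065) (nat_lit 190) .nil))))))) (.g (nat_lit 1) (.e (nat_lit 351952) (nat_lit 0) .nil) .nil))))) (.nd (nat_lit 8) (.nd (nat_lit 9) 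
(.lf (nat_lit 570511) (.g (nat_lit 2697) (.e (nat_lit 475177) (nat_lit 24) (.e (nat_lit 516174) (nat_lit 14) (.e (nat_lit 466954) (nat_lit 11) (.e (nat_lit 335994) (nat_lit 1) (.e (nat_lit 57691) (nat_lit 156) (.e (nat_lit 163939) (nat_lit 18) .nil)))))) (.g (nat_lit 1) (.e (nat_lit 350930) (nat_lit 0) .nil) .nil))) 
(.lf (nat_lit 571023) (.g (nat_lit 1601) (.e (nat_lit 475179) (nat_lit 24) (.e (nat_lit 516176) (nat_lit 14) (.e (nat_lit 466971) (nat_lit 21) (.e (nat_lit 164178) (nat_lit 154) (.e (nat_lit 57389) (nat_lit 5) .nil))))) (.g (nat_lit 0) (.e (nat_lit 351803) (nat_lit 0) .nil) .nil)))) (.nd (nat_lit 9) 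
(.lf (nat_lit 570767) (.g (nat_lit 1436) (.e (nat_lit 475179) (nat_lit 24) (.e (nat_lit 516119) (nat_lit 1) (.e (nat_lit 164325) (nat_lit 230) (.e (nat_lit 163903) (nat_lit 12) (.e (nat_lit 426479) (nat_lit 27) .nil))))) (.g (nat_lit 0) (.e (nat_lit 351311) (nat_lit 0) .nil) .nil))) 
(.lf (nat_lit 571279) (.g (nat_lit 2725) (.e (nat_lit 475184) (nat_lit 29) (.e (nat_lit 557109) (nat_lit 15) (.e (nat_lit 188452) (nat_lit 23) (.e (nat_lit 212736) (nat_lit 33) .nil)))) (.g (nat_lit 0) (.e (nat_lit 352085) (nat_lit 0) .nil) .nil)))))) (.nd (nat_lit 7) (.nd (nat_lit 8) (.nd (nat_lit 9) 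
(.lf (nat_lit 570447) (.g (nat_lit 2955) (.e (nat_lit 475177) (nat_lit 24) (.e (nat_lit 516150) (nat_lit 9) (.e (nat_lit 426323) (nat_lit 13) (.e (nat_lit 483363) (nat_lit 18) (.e (nat_lit 57692) (nat_lit 156) (.e (nat_lit 163939) (nat_lit 18) .nil)))))) (.g (nat_lit 1) (.e (nat_lit 350832) (nat_lit 0) .nil) .nil))) 
(.lf (nat_lit 570959) (.g (nat_lit 1086) (.e (nat_lit 475179) (nat_lit 24) (.e (nat_lit 516151) (nat_lit 9) (.e (nat_lit 426331) (nat_lit 13) .nil))) (.g (nat_lit 0) (.e (nat_lit 351585) (nat_lit 0) .nil) .nil)))) (.nd (nat_lit 9) 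
(.lf (nat_lit 570703) (.g (nat_lit 732) (.e (nat_lit 475179) (nat_lit 24) (.e (nat_lit 516115) (nat_lit 1) (.e (nat_lit 164329) (nat_lit 230) .nil))) (.g (nat_lit 0) (.e (nat_lit 351219) (nat_lit 0) .nil) .nil))) 
(.lf (nat_lit 571215) (.g (nat_lit 2101) (.e (nat_lit 475184) (nat_lit 29) (.e (nat_lit 557107) (nat_lit 15) (.e (nat_lit 188450) (nat_lit 23) (.e (nat_lit 204821) (nat_lit 17) (.e (nat_lit 6680) (nat_lit 357) (.e (nat_lit 3066) (nat_lit 190) .nil)))))) (.g (nat_lit 1) (.e (nat_lit 352021) (nat_lit 0) .nil) .nil))))) (.nd (nat_lit 8) (.nd (nat_lit 9) 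
(.lf (nat_lit 570575) (.g (nat_lit 2371) (.e (nat_lit 475177) (nat_lit 24) (.e (nat_lit 516179) (nat_lit 15) (.e (nat_lit 475179) (nat_lit 24) (.e (nat_lit 516144) (nat_lit 9) (.e (nat_lit 426436) (nat_lit 18) .nil))))) (.g (nat_lit 0) (.e (nat_lit 351015) (nat_lit 0) .nil) .nil))) 
(.lf (nat_lit 571087) (.g (nat_lit 2949) (.e (nat_lit 475183) (nat_lit 29) (.e (nat_lit 557101) (nat_lit 13) (.e (nat_lit 172115) (nat_lit 10) (.e (nat_lit 434231) (nat_lit 23) (.e (nat_lit 532490) (nat_lit 0) (.e (nat_lit 6680) (nat_lit 357) (.e (nat_lit 3066) (nat_lit 190) .nil))))))) (.g (nat_lit 1) (.e (nat_lit 351876) (nat_lit 0) .nil) .nil)))) (.nd (nat_lit 9) 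
(.lf (nat_lit 570831) (.g (nat_lit 2722) (.e (nat_lit 475179) (nat_lit 24) (.e (nat_lit 516120) (nat_lit 1) (.e (nat_lit 164330) (nat_lit 230) (.e (nat_lit 163902) (nat_lit 12) (.e (nat_lit 426481) (nat_lit 27) (.e (nat_lit 336386) (nat_lit 27) (.e (nat_lit 426306) (nat_lit 12) .nil))))))) (.g (nat_lit 1) (.e (nat_lit 351399) (nat_lit 0) .nil) .nil))) 
(.lf (nat_lit 571343) (.g (nat_lit 4296) (.e (nat_lit 475185) (nat_lit 29) (.e (nat_lit 557100) (nat_lit 13) (.e (nat_lit 172106) (nat_lit 10) (.e (nat_lit 434231) (nat_lit 23) (.e (nat_lit 532482) (nat_lit 0) (.e (nat_lit 6665) (nat_lit 357) (.e (nat_lit 3062) (nat_lit 190) .nil))))))) (.g (nat_lit 1) (.e (nat_lit 352161) (nat_lit 0) .nil) .nil))))))) 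
(.nd (nat_lit 6) (.nd (nat_lit 7) (.nd (nat_lit 8) (.nd (nat_lit 9) 
(.lf (nat_lit 570415) (.g (nat_lit 2660) (.e (nat_lit 475177) (nat_lit 24) (.e (nat_lit 516149) (nat_lit 9) (.e (nat_lit 426323) (nat_lit 13) (.e (nat_lit 483363) (nat_lit 18) (.e (nat_lit 57691) (nat_lit 156) (.e (nat_lit 163939) (nat_lit 18) .nil)))))) (.g (nat_lit 1) (.e (nat_lit 350789) (nat_lit 0) .nil) .nil))) 
(.lf (nat_lit 570927) (.g (nat_lit 3009) (.e (nat_lit 475179) (nat_lit 24) (.e (nat_lit 516146) (nat_lit 9) (.e (nat_lit 426323) (nat_lit 13) (.e (nat_lit 483365) (nat_lit 18) (.e (nat_lit 57688) (nat_lit 156) (.e (nat_lit 163939) (nat_lit 18) .nil)))))) (.g (nat_lit 1) (.e (nat_lit 351527) (nat_lit 0) .nil) .nil)))) (.nd (nat_lit 9) 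
(.lf (nat_lit 570671) (.g (nat_lit 2174) (.e (nat_lit 475179) (nat_lit 24) (.e (nat_lit 516115) (nat_lit 1) (.e (nat_lit 164325) (nat_lit 230) (.e (nat_lit 163905) (nat_lit 12) (.e (nat_lit 426530) (nat_lit 27) .nil))))) (.g (nat_lit 0) (.e (nat_lit 351164) (nat_lit 0) .nil) .nil))) 
(.lf (nat_lit 571183) (.g (nat_lit 3464) (.e (nat_lit 475184) (nat_lit 29) (.e (nat_lit 557101) (nat_lit 13) (.e (nat_lit 172097) (nat_lit 9) (.e (nat_lit 426125) (nat_lit 2) (.e (nat_lit 196661) (nat_lit 12) (.e (nat_lit 57750) (nat_lit 201) (.e (nat_lit 3066) (nat_lit 190) .nil))))))) (.g (nat_lit 1) (.e (nat_lit 351984) (nat_lit 0) .nil) .nil))))) (.nd (nat_lit 8) (.nd (nat_lit 9) 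
(.lf (nat_lit 570543) (.g (nat_lit 1144) (.e (nat_lit 475177) (nat_lit 24) (.e (nat_lit 516176) (nat_lit 14) (.e (nat_lit 466954) (nat_lit 11) (.e (nat_lit 335994) (nat_lit 1) .nil)))) (.g (nat_lit 0) (.e (nat_lit 350973) (nat_lit 0) .nil) .nil))) 
(.lf (nat_lit 571055) (.g (nat_lit 4102) (.e (nat_lit 475183) (nat_lit 29) (.e (nat_lit 557097) (nat_lit 13) (.e (nat_lit 172115) (nat_lit 10) (.e (nat_lit 434231) (nat_lit 23) (.e (nat_lit 532568) (nat_lit 16) (.e (nat_lit 401454) (nat_lit 12) .nil)))))) (.g (nat_lit 1) (.e (nat_lit 351844) (nat_lit 0) .nil) .nil)))) (.nd (nat_lit 9) 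
(.lf (nat_lit 570799) (.g (nat_lit 1911) (.e (nat_lit 475179) (nat_lit 24) (.e (nat_lit 516119) (nat_lit 1) (.e (nat_lit 164329) (nat_lit 230) (.e (nat_lit 163941) (nat_lit 19) (.e (nat_lit 483341) (nat_lit 9) .nil))))) (.g (nat_lit 0) (.e (nat_lit 351362) (nat_lit 0) .nil) .nil))) 
(.lf (nat_lit 571311) (.g (nat_lit 1095) (.e (nat_lit 475185) (nat_lit 29) (.e (nat_lit 557098) (nat_lit 13) (.e (nat_lit 172106) (nat_lit 10) .nil))) (.g (nat_lit 0) (.e (nat_lit 352128) (nat_lit 0) .nil) .nil)))))) (.nd (nat_lit 7) (.nd (nat_lit 8) (.nd (nat_lit 9) 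
(.lf (nat_lit 570479) (.g (nat_lit 1365) (.e (nat_lit 475177) (nat_lit 24) (.e (nat_lit 516151) (nat_lit 9) (.e (nat_lit 426042) (nat_lit 0) .nil))) (.g (nat_lit 0) (.e (nat_lit 350868) (nat_lit 0) .nil) .nil))) 
(.lf (nat_lit 570991) (.g (nat_lit 2030) (.e (nat_lit 475179) (nat_lit 24) (.e (nat_lit 516176) (nat_lit 14) (.e (nat_lit 466950) (nat_lit 11) (.e (nat_lit 335996) (nat_lit 1) (.e (nat_lit 57692) (nat_lit 156) (.e (nat_lit 163938) (nat_lit 18) .nil)))))) (.g (nat_lit 1) (.e (nat_lit 351761) (nat_lit 0) .nil) .nil)))) (.nd (nat_lit 9) 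
(.lf (nat_lit 570735) (.g (nat_lit 3564) (.e (nat_lit 475179) (nat_lit 24) (.e (nat_lit 516117) (nat_lit 1) (.e (nat_lit 164330) (nat_lit 230) (.e (nat_lit 163941) (nat_lit 19) (.e (nat_lit 483337) (nat_lit 9) (.e (nat_lit 426308) (nat_lit 12) .nil)))))) (.g (nat_lit 1) (.e (nat_lit 351267) (nat_lit 0) .nil) .nil))) 
(.lf (nat_lit 571247) (.g (nat_lit 3037) (.e (nat_lit 475184) (nat_lit 29) (.e (nat_lit 557109) (nat_lit 15) (.e (nat_lit 188449) (nat_lit 22) (.e (nat_lit 196661) (nat_lit 12) (.e (nat_lit 57751) (nat_lit 201) (.e (nat_lit 3066) (nat_lit 190) .nil)))))) (.g (nat_lit 1) (.e (nat_lit 352053) (nat_lit 0) .nil) .nil))))) (.nd (nat_lit 8) (.nd (nat_lit 9) 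
(.lf (nat_lit 570607) (.g (nat_lit 2560) (.e (nat_lit 475178) (nat_lit 24) (.e (nat_lit 516115) (nat_lit 1) (.e (nat_lit 164325) (nat_lit 230) (.e (nat_lit 163907) (nat_lit 12) (.e (nat_lit 433920) (nat_lit 34) .nil))))) (.g (nat_lit 0) (.e (nat_lit 351059) (nat_lit 0) .nil) .nil))) 
(.lf (nat_lit 571119) (.g (nat_lit 3258) (.e (nat_lit 475183) (nat_lit 29) (.e (nat_lit 557108) (nat_lit 15) (.e (nat_lit 188452) (nat_lit 23) (.e (nat_lit 212736) (nat_lit 33) .nil)))) (.g (nat_lit 0) (.e (nat_lit 351910) (nat_lit 0) .nil) .nil)))) (.nd (nat_lit 9) 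
(.lf (nat_lit 570863) (.g (nat_lit 1250) (.e (nat_lit 475179) (nat_lit 24) (.e (nat_lit 516120) (nat_lit 1) (.e (nat_lit 164330) (nat_lit 230) (.e (nat_lit 163941) (nat_lit 19) .nil)))) (.g (nat_lit 0) (.e (nat_lit 351436) (nat_lit 0) .nil) .nil))) 
(.lf (nat_lit 571375) (.g (nat_lit 3887) (.e (nat_lit 475185) (nat_lit 29) (.e (nat_lit 557100) (nat_lit 13) (.e (nat_lit 172106) (nat_lit 10) (.e (nat_lit 434244) (nat_lit 28) (.e (nat_lit 573458) (nat_lit 9) (.e (nat_lit 426) (nat_lit 32) (.e (nat_lit 426314) (nat_lit 12) .nil))))))) (.g (nat_lit 1) (.e (nat_lit 352193) (nat_lit 0) .nil) .nil)))))))) 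
(.nd (nat_lit 5) (.nd (nat_lit 6) (.nd (nat_lit 7) (.nd (nat_lit 8) (.nd (nat_lit 9) 
(.lf (nat_lit 570399) (.g (nat_lit 2393) (.e (nat_lit 475177) (nat_lit 24) (.e (nat_lit 516146) (nat_lit 9) (.e (nat_lit 426438) (nat_lit 18) (.e (nat_lit 98358) (nat_lit 26) (.e (nat_lit 426364) (nat_lit 15) .nil))))) (.g (nat_lit 0) (.e (nat_lit 350768) (nat_lit 0) .nil) .nil))) 
(.lf (nat_lit 570911) (.g (nat_lit 1508) (.e (nat_lit 475179) (nat_lit 24) (.e (nat_lit 516131) (nat_lit 3) (.e (nat_lit 221193) (nat_lit 11) (.e (nat_lit 336021) (nat_lit 3) (.e (nat_lit 98363) (nat_lit 26) .nil))))) (.g (nat_lit 0) (.e (nat_lit 351505) (nat_lit 0) .nil) .nil)))) (.nd (nat_lit 9) 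
(.lf (nat_lit 570655) (.g (nat_lit 2309) (.e (nat_lit 475179) (nat_lit 24) (.e (nat_lit 516115) (nat_lit 1) (.e (nat_lit 164325) (nat_lit 230) (.e (nat_lit 163874) (nat_lit 3) .nil)))) (.g (nat_lit 0) (.e (nat_lit 351147) (nat_lit 0) .nil) .nil))) 
(.lf (nat_lit 571167) (.g (nat_lit 1199) (.e (nat_lit 475184) (nat_lit 29) (.e (nat_lit 557098) (nat_lit 13) (.e (nat_lit 172115) (nat_lit 10) (.e (nat_lit 434238) (nat_lit 25) .nil)))) (.g (nat_lit 0) (.e (nat_lit 351968) (nat_lit 0) .nil) .nil))))) (.nd (nat_lit 8) (.nd (nat_lit 9) 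
(.lf (nat_lit 570527) (.g (nat_lit 2051) (.e (nat_lit 475177) (nat_lit 24) (.e (nat_lit 516176) (nat_lit 14) (.e (nat_lit 466954) (nat_lit 11) (.e (nat_lit 335986) (nat_lit 1) (.e (nat_lit 57655) (nat_lit 152) .nil))))) (.g (nat_lit 0) (.e (nat_lit 350951) (nat_lit 0) .nil) .nil))) 
(.lf (nat_lit 571039) (.g (nat_lit 2248) (.e (nat_lit 475179) (nat_lit 24) (.e (nat_lit 516179) (nat_lit 15) (.e (nat_lit 475179) (nat_lit 24) (.e (nat_lit 516150) (nat_lit 9) (.e (nat_lit 426438) (nat_lit 18) .nil))))) (.g (nat_lit 0) (.e (nat_lit 351821) (nat_lit 0) .nil) .nil)))) (.nd (nat_lit 9) 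
(.lf (nat_lit 570783) (.g (nat_lit 1906) (.e (nat_lit 475179) (nat_lit 24) (.e (nat_lit 516119) (nat_lit 1) (.e (nat_lit 164326) (nat_lit 230) (.e (nat_lit 163903) (nat_lit 12) (.e (nat_lit 426481) (nat_lit 27) .nil))))) (.g (nat_lit 0) (.e (nat_lit 351340) (nat_lit 0) .nil) .nil))) 
(.lf (nat_lit 571295) (.g (nat_lit 1194) (.e (nat_lit 475185) (nat_lit 29) (.e (nat_lit 557098) (nat_lit 13) (.e (nat_lit 172090) (nat_lit 9) .nil))) (.g (nat_lit 0) (.e (nat_lit 352112) (nat_lit 0) .nil) .nil)))))) (.nd (nat_lit 7) (.nd (nat_lit 8) (.nd (nat_lit 9) 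
(.lf (nat_lit 570463) (.g (nat_lit 3181) (.e (nat_lit 475177) (nat_lit 24) (.e (nat_lit 516150) (nat_lit 9) (.e (nat_lit 426323) (nat_lit 13) (.e (nat_lit 483366) (nat_lit 18) (.e (nat_lit 57691) (nat_lit 156) (.e (nat_lit 163938) (nat_lit 18) .nil)))))) (.g (nat_lit 1) (.e (nat_lit 350850) (nat_lit 0) .nil) .nil))) 
(.lf (nat_lit 570975) (.g (nat_lit 2594) (.e (nat_lit 475179) (nat_lit 24) (.e (nat_lit 516174) (nat_lit 14) (.e (nat_lit 466954) (nat_lit 11) (.e (nat_lit 335987) (nat_lit 1) (.e (nat_lit 57692) (nat_lit 156) (.e (nat_lit 163938) (nat_lit 18) .nil)))))) (.g (nat_lit 1) (.e (nat_lit 351744) (nat_lit 0) .nil) .nil)))) (.nd (nat_lit 9) 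
(.lf (nat_lit 570719) (.g (nat_lit 2800) (.e (nat_lit 475179) (nat_lit 24) (.e (nat_lit 516117) (nat_lit 1) (.e (nat_lit 164322) (nat_lit 230) (.e (nat_lit 163902) (nat_lit 12) (.e (nat_lit 426568) (nat_lit 34) (.e (nat_lit 393290) (nat_lit 26) .nil)))))) (.g (nat_lit 1) (.e (nat_lit 351246) (nat_lit 0) .nil) .nil))) 
(.lf (nat_lit 571231) (.g (nat_lit 1396) (.e (nat_lit 475184) (nat_lit 29) (.e (nat_lit 557109) (nat_lit 15) (.e (nat_lit 188437) (nat_lit 20) (.e (nat_lit 3238) (nat_lit 197) .nil)))) (.g (nat_lit 0) (.e (nat_lit 352037) (nat_lit 0) .nil) .nil))))) (.nd (nat_lit 8) (.nd (nat_lit 9) 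
(.lf (nat_lit 570591) (.g (nat_lit 2112) (.e (nat_lit 475177) (nat_lit 24) (.e (nat_lit 516181) (nat_lit 15) (.e (nat_lit 475177) (nat_lit 24) (.e (nat_lit 516181) (nat_lit 15) (.e (nat_lit 475177) (nat_lit 24) (.e (nat_lit 516182) (nat_lit 15) .nil)))))) (.g (nat_lit 1) (.e (nat_lit 351042) (nat_lit 0) .nil) .nil))) 
(.lf (nat_lit 571103) (.g (nat_lit 3327) (.e (nat_lit 475183) (nat_lit 29) (.e (nat_lit 557107) (nat_lit 15) (.e (nat_lit 188452) (nat_lit 23) (.e (nat_lit 204885) (nat_lit 33) (.e (nat_lit 401453) (nat_lit 12) .nil))))) (.g (nat_lit 0) (.e (nat_lit 351894) (nat_lit 0) .nil) .nil)))) (.nd (nat_lit 9) 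
(.lf (nat_lit 570847) (.g (nat_lit 2383) (.e (nat_lit 475179) (nat_lit 24) (.e (nat_lit 516120) (nat_lit 1) (.e (nat_lit 164330) (nat_lit 230) (.e (nat_lit 163905) (nat_lit 12) (.e (nat_lit 426481) (nat_lit 27) .nil))))) (.g (nat_lit 0) (.e (nat_lit 351415) (nat_lit 0) .nil) .nil))) 
(.lf (nat_lit 571359) (.g (nat_lit 2394) (.e (nat_lit 475185) (nat_lit 29) (.e (nat_lit 557100) (nat_lit 13) (.e (nat_lit 172106) (nat_lit 10) (.e (nat_lit 434231) (nat_lit 23) (.e (nat_lit 532490) (nat_lit 0) (.e (nat_lit 7936) (nat_lit 357) (.e (nat_lit 3059) (nat_lit 190) .nil))))))) (.g (nat_lit 1) (.e (nat_lit 352177) (nat_lit 0) .nil) .nil))))))) 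
(.nd (nat_lit 6) (.nd (nat_lit 7) (.nd (nat_lit 8) (.nd (nat_lit 9) 
(.lf (nat_lit 570431) (.g (nat_lit 2628) (.e (nat_lit 475177) (nat_lit 24) (.e (nat_lit 516150) (nat_lit 9) (.e (nat_lit 426131) (nat_lit 3) (.e (nat_lit 204837) (nat_lit 20) (.e (nat_lit 114688) (nat_lit 0) (.e (nat_lit 3233) (nat_lit 197) (.e (nat_lit 540416) (nat_lit 32) .nil))))))) (.g (nat_lit 1) (.e (nat_lit 350806) (nat_lit 0) .nil) .nil))) 
(.lf (nat_lit 570943) (.g (nat_lit 3627) (.e (nat_lit 475179) (nat_lit 24) (.e (nat_lit 516150) (nat_lit 9) (.e (nat_lit 426131) (nat_lit 3) (.e (nat_lit 204838) (nat_lit 20) (.e (nat_lit 122624) (nat_lit 2) (.e (nat_lit 196624) (nat_lit 9) (.e (nat_lit 489) (nat_lit 38) .nil))))))) (.g (nat_lit 1) (.e (nat_lit 351560) (nat_lit 0) .nil) .nil)))) (.nd (nat_lit 9) 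
(.lf (nat_lit 570687) (.g (nat_lit 2367) (.e (nat_lit 475179) (nat_lit 24) (.e (nat_lit 516115) (nat_lit 1) (.e (nat_lit 164325) (nat_lit 230) (.e (nat_lit 163908) (nat_lit 12) .nil)))) (.g (nat_lit 0) (.e (nat_lit 351182) (nat_lit 0) .nil) .nil))) 
(.lf (nat_lit 571199) (.g (nat_lit 710) (.e (nat_lit 475184) (nat_lit 29) (.e (nat_lit 557107) (nat_lit 15) (.e (nat_lit 188439) (nat_lit 20) .nil))) (.g (nat_lit 0) (.e (nat_lit 352005) (nat_lit 0) .nil) .nil))))) (.nd (nat_lit 8) (.nd (nat_lit 9) 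
(.lf (nat_lit 570559) (.g (nat_lit 2600) (.e (nat_lit 475177) (nat_lit 24) (.e (nat_lit 516176) (nat_lit 14) (.e (nat_lit 466954) (nat_lit 11) (.e (nat_lit 335996) (nat_lit 1) (.e (nat_lit 57685) (nat_lit 156) (.e (nat_lit 163936) (nat_lit 18) .nil)))))) (.g (nat_lit 1) (.e (nat_lit 350991) (nat_lit 0) .nil) .nil))) 
(.lf (nat_lit 571071) (.g (nat_lit 1373) (.e (nat_lit 475183) (nat_lit 29) (.e (nat_lit 557100) (nat_lit 13) (.e (nat_lit 172106) (nat_lit 10) (.e (nat_lit 434238) (nat_lit 25) .nil)))) (.g (nat_lit 0) (.e (nat_lit 351860) (nat_lit 0) .nil) .nil)))) (.nd (nat_lit 9) 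
(.lf (nat_lit 570815) (.g (nat_lit 2186) (.e (nat_lit 475179) (nat_lit 24) (.e (nat_lit 516120) (nat_lit 1) (.e (nat_lit 164329) (nat_lit 230) (.e (nat_lit 163902) (nat_lit 12) (.e (nat_lit 426479) (nat_lit 27) (.e (nat_lit 336414) (nat_lit 27) (.e (nat_lit 426318) (nat_lit 12) .nil))))))) (.g (nat_lit 1) (.e (nat_lit 351383) (nat_lit 0) .nil) .nil))) 
(.lf (nat_lit 571327) (.g (nat_lit 1372) (.e (nat_lit 475185) (nat_lit 29) (.e (nat_lit 557100) (nat_lit 13) (.e (nat_lit 172078) (nat_lit 7) (.e (nat_lit 409631) (nat_lit 12) (.e (nat_lit 32807) (nat_lit 18) .nil))))) (.g (nat_lit 0) (.e (nat_lit 352145) (nat_lit 0) .nil) .nil)))))) (.nd (nat_lit 7) (.nd (nat_lit 8) (.nd (nat_lit 9) 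
(.lf (nat_lit 570495) (.g (nat_lit 2760) (.e (nat_lit 475177) (nat_lit 24) (.e (nat_lit 516174) (nat_lit 14) (.e (nat_lit 466954) (nat_lit 11) (.e (nat_lit 335986) (nat_lit 1) (.e (nat_lit 57688) (nat_lit 156) (.e (nat_lit 163937) (nat_lit 18) .nil)))))) (.g (nat_lit 1) (.e (nat_lit 350909) (nat_lit 0) .nil) .nil))) 
(.lf (nat_lit 571007) (.g (nat_lit 2782) (.e (nat_lit 475179) (nat_lit 24) (.e (nat_lit 516176) (nat_lit 14) (.e (nat_lit 466954) (nat_lit 11) (.e (nat_lit 335986) (nat_lit 1) (.e (nat_lit 57665) (nat_lit 152) (.e (nat_lit 2497) (nat_lit 157) (.e (nat_lit 3067) (nat_lit 190) .nil))))))) (.g (nat_lit 1) (.e (nat_lit 351779) (nat_lit 0) .nil) .nil)))) (.nd (nat_lit 9) 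
(.lf (nat_lit 570751) (.g (nat_lit 2305) (.e (nat_lit 475179) (nat_lit 24) (.e (nat_lit 516117) (nat_lit 1) (.e (nat_lit 164332) (nat_lit 230) (.e (nat_lit 163905) (nat_lit 12) (.e (nat_lit 426489) (nat_lit 27) (.e (nat_lit 336407) (nat_lit 27) (.e (nat_lit 426313) (nat_lit 12) .nil))))))) (.g (nat_lit 1) (.e (nat_lit 351285) (nat_lit 0) .nil) .nil))) 
(.lf (nat_lit 571263) (.g (nat_lit 4182) (.e (nat_lit 475184) (nat_lit 29) (.e (nat_lit 557109) (nat_lit 15) (.e (nat_lit 188452) (nat_lit 23) (.e (nat_lit 204816) (nat_lit 17) (.e (nat_lit 6670) (nat_lit 357) .nil))))) (.g (nat_lit 0) (.e (nat_lit 352069) (nat_lit 0) .nil) .nil))))) (.nd (nat_lit 8) (.nd (nat_lit 9) 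
(.lf (nat_lit 570623) (.g (nat_lit 494) (.e (nat_lit 475178) (nat_lit 24) (.e (nat_lit 516119) (nat_lit 1) (.e (nat_lit 164345) (nat_lit 240) .nil))) (.g (nat_lit 0) (.e (nat_lit 351090) (nat_lit 0) .nil) .nil))) 
(.lf (nat_lit 571135) (.g (nat_lit 3591) (.e (nat_lit 475183) (nat_lit 29) (.e (nat_lit 557109) (nat_lit 15) (.e (nat_lit 188450) (nat_lit 23) (.e (nat_lit 204885) (nat_lit 33) (.e (nat_lit 401453) (nat_lit 12) .nil))))) (.g (nat_lit 0) (.e (nat_lit 351926) (nat_lit 0) .nil) .nil)))) (.nd (nat_lit 9) 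
(.lf (nat_lit 570879) (.g (nat_lit 2837) (.e (nat_lit 475179) (nat_lit 24) (.e (nat_lit 516120) (nat_lit 1) (.e (nat_lit 164332) (nat_lit 230) (.e (nat_lit 163874) (nat_lit 3) (.e (nat_lit 204836) (nat_lit 20) .nil))))) (.g (nat_lit 0) (.e (nat_lit 351461) (nat_lit 0) .nil) .nil))) 
(.lf (nat_lit 571391) (.g (nat_lit 3097) (.e (nat_lit 475185) (nat_lit 29) (.e (nat_lit 557100) (nat_lit 13) (.e (nat_lit 172113) (nat_lit 10) (.e (nat_lit 434245) (nat_lit 28) (.e (nat_lit 573471) (nat_lit 11) (.e (nat_lit 16461) (nat_lit 12) .nil)))))) (.g (nat_lit 1) (.e (nat_lit 352209) (nat_lit 0) .nil) .nil)))))))))))))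

noncomputable def tv5618 : DT := (.nd (nat_lit 0) (.nd (nat_lit 1) (.nd (nat_lit 2) (.nd (nat_lit 3) (.nd (nat_lit 4) (.nd (nat_lit 5) (.nd (nat_lit 6) (.nd (nat_lit 7) (.nd (nat_lit 8) (.nd (nat_lit 9) 
(.lf (nat_lit 571392) (.g (nat_lit 3095) (.e (nat_lit 475185) (nat_lit 29) (.e (nat_lit 557100) (nat_lit 13) (.e (nat_lit 172113) (nat_lit 10) (.e (nat_lit 434245) (nat_lit 28) (.e (nat_lit 573473) (nat_lit 12) (.e (nat_lit 57348) (nat_lit 0) (.e (nat_lit 6938) (nat_lit 375) (.e (nat_lit 163939) (nat_lit 18) .nil)))))))) (.g (nat_lit 1) (.e (nat_lit 352210) (nat_lit 0) .nil) .nil))) 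
(.lf (nat_lit 571904) (.g (nat_lit 2783) (.e (nat_lit 475199) (nat_lit 40) (.e (nat_lit 704598) (nat_lit 6) (.e (nat_lit 188453) (nat_lit 24) (.e (nat_lit 229681) (nat_lit 244) (.e (nat_lit 163905) (nat_lit 12) (.e (nat_lit 426320) (nat_lit 12) .nil)))))) (.g (nat_lit 1) (.e (nat_lit 353418) (nat_lit 0) .nil) .nil)))) (.nd (nat_lit 9) 
(.lf (nat_lit 571648) (.g (nat_lit 3461) (.e (nat_lit 475195) (nat_lit 40) (.e (nat_lit 704589) (nat_lit 3) (.e (nat_lit 163975) (nat_lit 30) (.e (nat_lit 573492) (nat_lit 15) (.e (nat_lit 81956) (nat_lit 23) (.e (nat_lit 98385) (nat_lit 32) .nil)))))) (.g (nat_lit 1) (.e (nat_lit 352498) (nat_lit 0) .nil) .nil))) 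
(.lf (nat_lit 572160) (.g (nat_lit 755) (.e (nat_lit 483336) (nat_lit 9) (.e (nat_lit 426107) (nat_lit 1) (.e (nat_lit 164324) (nat_lit 230) .nil))) (.g (nat_lit 0) (.e (nat_lit 353923) (nat_lit 0) .nil) .nil))))) (.nd (nat_lit 8) (.nd (nat_lit 9) 
(.lf (nat_lit 571520) (.g (nat_lit 850) (.e (nat_lit 475185) (nat_lit 29) (.e (nat_lit 557103) (nat_lit 14) (.e (nat_lit 180283) (nat_lit 45) .nil))) (.g (nat_lit 0) (.e (nat_lit 352339) (nat_lit 0) .nil) .nil))) 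
(.lf (nat_lit 572032) (.g (nat_lit 2781) (.e (nat_lit 475211) (nat_lit 41) (.e (nat_lit 712752) (nat_lit 29) (.e (nat_lit 442421) (nat_lit 21) (.e (nat_lit 164347) (nat_lit 240) (.e (nat_lit 2629) (nat_lit 164) (.e (nat_lit 172119) (nat_lit 12) .nil)))))) (.g (nat_lit 1) (.e (nat_lit 353681) (nat_lit 0) .nil) .nil)))) (.nd (nat_lit 9) 
(.lf (nat_lit 571776) (.g (nat_lit 3493) (.e (nat_lit 475198) (nat_lit 40) (.e (nat_lit 704590) (nat_lit 3) (.e (nat_lit 163975) (nat_lit 30) (.e (nat_lit 573491) (nat_lit 15) (.e (nat_lit 81954) (nat_lit 23) (.e (nat_lit 98385) (nat_lit 32) .nil)))))) (.g (nat_lit 1) (.e (nat_lit 352885) (nat_lit 0) .nil) .nil))) 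
(.lf (nat_lit 572288) (.g (nat_lit 3215) (.e (nat_lit 483337) (nat_lit 9) (.e (nat_lit 426100) (nat_lit 1) (.e (nat_lit 164403) (nat_lit 256) (.e (nat_lit 57378) (nat_lit 3) (.e (nat_lit 98355) (nat_lit 26) (.e (nat_lit 426323) (nat_lit 13) .nil)))))) (.g (nat_lit 1) (.e (nat_lit 354125) (nat_lit 0) .nil) .nil)))))) (.nd (nat_lit 7) (.nd (nat_lit 8) (.nd (nat_lit 9) 
(.lf (nat_lit 571456) (.g (nat_lit 1988) (.e (nat_lit 475185) (nat_lit 29) (.e (nat_lit 557101) (nat_lit 13) (.e (nat_lit 172115) (nat_lit 10) (.e (nat_lit 434219) (nat_lit 19) (.e (nat_lit 499718) (nat_lit 0) .nil))))) (.g (nat_lit 0) (.e (nat_lit 352275) (nat_lit 0) .nil) .nil))) 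
(.lf (nat_lit 571968) (.g (nat_lit 1531) (.e (nat_lit 475209) (nat_lit 41) (.e (nat_lit 712753) (nat_lit 30) (.e (nat_lit 450561) (nat_lit 0) (.e (nat_lit 5537) (nat_lit 306) (.e (nat_lit 2515) (nat_lit 157) .nil))))) (.g (nat_lit 0) (.e (nat_lit 353539) (nat_lit 0) .nil) .nil)))) (.nd (nat_lit 9) 
(.lf (nat_lit 571712) (.g (nat_lit 978) (.e (nat_lit 475198) (nat_lit 40) (.e (nat_lit 704589) (nat_lit 3) (.e (nat_lit 163975) (nat_lit 30) (.e (nat_lit 573491) (nat_lit 15) .nil)))) (.g (nat_lit 0) (.e (nat_lit 352674) (nat_lit 0) .nil) .nil))) 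
(.lf (nat_lit 572224) (.g (nat_lit 2135) (.e (nat_lit 483337) (nat_lit 9) (.e (nat_lit 426098) (nat_lit 1) (.e (nat_lit 164403) (nat_lit 256) (.e (nat_lit 57377) (nat_lit 3) (.e (nat_lit 98363) (nat_lit 26) .nil))))) (.g (nat_lit 0) (.e (nat_lit 354050) (nat_lit 0) .nil) .nil))))) (.nd (nat_lit 8) (.nd (nat_lit 9) 
(.lf (nat_lit 571584) (.g (nat_lit 4054) (.e (nat_lit 475185) (nat_lit 29) (.e (nat_lit 557109) (nat_lit 15) (.e (nat_lit 188434) (nat_lit 20) (.e (nat_lit 3272) (nat_lit 199) (.e (nat_lit 548898) (nat_lit 14) (.e (nat_lit 2884) (nat_lit 184) (.e (nat_lit 426317) (nat_lit 12) .nil))))))) (.g (nat_lit 1) (.e (nat_lit 352415) (nat_lit 0) .nil) .nil))) 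
(.lf (nat_lit 572096) (.g (nat_lit 593) (.e (nat_lit 475211) (nat_lit 41) (.e (nat_lit 712755) (nat_lit 30) (.e (nat_lit 450590) (nat_lit 12) .nil))) (.g (nat_lit 0) (.e (nat_lit 353757) (nat_lit 0) .nil) .nil)))) (.nd (nat_lit 9) 
(.lf (nat_lit 571840) (.g (nat_lit 3167) (.e (nat_lit 475199) (nat_lit 40) (.e (nat_lit 704589) (nat_lit 3) (.e (nat_lit 163976) (nat_lit 30) (.e (nat_lit 573491) (nat_lit 15) (.e (nat_lit 81946) (nat_lit 20) (.e (nat_lit 1802) (nat_lit 119) (.e (nat_lit 516181) (nat_lit 15) .nil))))))) (.g (nat_lit 1) (.e (nat_lit 353101) (nat_lit 0) .nil) .nil))) 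
(.lf (nat_lit 572352) (.g (nat_lit 1700) (.e (nat_lit 483337) (nat_lit 9) (.e (nat_lit 426108) (nat_lit 1) (.e (nat_lit 164332) (nat_lit 230) (.e (nat_lit 163865) (nat_lit 2) .nil)))) (.g (nat_lit 0) (.e (nat_lit 354447) (nat_lit 0) .nil) .nil))))))) (.nd (nat_lit 6) (.nd (nat_lit 7) (.nd (nat_lit 8) (.nd (nat_lit 9) 
(.lf (nat_lit 571424) (.g (nat_lit 3872) (.e (nat_lit 475185) (nat_lit 29) (.e (nat_lit 557100) (nat_lit 13) (.e (nat_lit 172113) (nat_lit 10) (.e (nat_lit 434248) (nat_lit 28) (.e (nat_lit 573475) (nat_lit 12) (.e (nat_lit 57345) (nat_lit 0) (.e (nat_lit 6938) (nat_lit 375) (.e (nat_lit 163939) (nat_lit 18) .nil)))))))) (.g (nat_lit 1) (.e (nat_lit 352242) (nat_lit 0) .nil) .nil))) 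
(.lf (nat_lit 571936) (.g (nat_lit 1016) (.e (nat_lit 475207) (nat_lit 41) (.e (nat_lit 712755) (nat_lit 30) (.e (nat_lit 450563) (nat_lit 0) (.e (nat_lit 5537) (nat_lit 306) .nil)))) (.g (nat_lit 0) (.e (nat_lit 353488) (nat_lit 0) .nil) .nil)))) (.nd (nat_lit 9) 
(.lf (nat_lit 571680) (.g (nat_lit 2614) (.e (nat_lit 475197) (nat_lit 40) (.e (nat_lit 704589) (nat_lit 3) (.e (nat_lit 163978) (nat_lit 30) (.e (nat_lit 573491) (nat_lit 15) (.e (nat_lit 89856) (nat_lit 20) .nil))))) (.g (nat_lit 0) (.e (nat_lit 352603) (nat_lit 0) .nil) .nil))) 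
(.lf (nat_lit 572192) (.g (nat_lit 2821) (.e (nat_lit 483337) (nat_lit 9) (.e (nat_lit 426098) (nat_lit 1) (.e (nat_lit 164398) (nat_lit 256) (.e (nat_lit 57373) (nat_lit 2) (.e (nat_lit 90169) (nat_lit 13) (.e (nat_lit 172122) (nat_lit 13) .nil)))))) (.g (nat_lit 1) (.e (nat_lit 354018) (nat_lit 0) .nil) .nil))))) (.nd (nat_lit 8) (.nd (nat_lit 9) 
(.lf (nat_lit 571552) (.g (nat_lit 1879) (.e (nat_lit 475185) (nat_lit 29) (.e (nat_lit 557107) (nat_lit 15) (.e (nat_lit 188452) (nat_lit 23) (.e (nat_lit 204883) (nat_lit 33) (.e (nat_lit 401453) (nat_lit 12) .nil))))) (.g (nat_lit 0) (.e (nat_lit 352381) (nat_lit 0) .nil) .nil))) 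
(.lf (nat_lit 572064) (.g (nat_lit 1940) (.e (nat_lit 475211) (nat_lit 41) (.e (nat_lit 712753) (nat_lit 30) (.e (nat_lit 450569) (nat_lit 0) (.e (nat_lit 5448) (nat_lit 306) (.e (nat_lit 2725) (nat_lit 172) (.e (nat_lit 237617) (nat_lit 12) .nil)))))) (.g (nat_lit 1) (.e (nat_lit 353713) (nat_lit 0) .nil) .nil)))) (.nd (nat_lit 9) 
(.lf (nat_lit 571808) (.g (nat_lit 2961) (.e (nat_lit 475198) (nat_lit 40) (.e (nat_lit 704599) (nat_lit 6) (.e (nat_lit 188455) (nat_lit 24) (.e (nat_lit 229663) (nat_lit 240) (.e (nat_lit 2497) (nat_lit 157) (.e (nat_lit 2854) (nat_lit 184) (.e (nat_lit 426320) (nat_lit 12) .nil))))))) (.g (nat_lit 1) (.e (nat_lit 352960) (nat_lit 0) .nil) .nil))) 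
(.lf (nat_lit 572320) (.g (nat_lit 1844) (.e (nat_lit 483337) (nat_lit 9) (.e (nat_lit 426107) (nat_lit 1) (.e (nat_lit 164327) (nat_lit 230) (.e (nat_lit 163870) (nat_lit 2) .nil)))) (.g (nat_lit 0) (.e (nat_lit 354340) (nat_lit 0) .nil) .nil)))))) (.nd (nat_lit 7) (.nd (nat_lit 8) (.nd (nat_lit 9) 
(.lf (nat_lit 571488) (.g (nat_lit 2908) (.e (nat_lit 475185) (nat_lit 29) (.e (nat_lit 557101) (nat_lit 13) (.e (nat_lit 172115) (nat_lit 10) (.e (nat_lit 434244) (nat_lit 28) (.e (nat_lit 573449) (nat_lit 9) (.e (nat_lit 370) (nat_lit 32) (.e (nat_lit 426312) (nat_lit 12) .nil))))))) (.g (nat_lit 1) (.e (nat_lit 352307) (nat_lit 0) .nil) .nil))) 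
(.lf (nat_lit 572000) (.g (nat_lit 728) (.e (nat_lit 475210) (nat_lit 41) (.e (nat_lit 712752) (nat_lit 29) (.e (nat_lit 442429) (nat_lit 24) .nil))) (.g (nat_lit 0) (.e (nat_lit 353613) (nat_lit 0) .nil) .nil)))) (.nd (nat_lit 9) 
(.lf (nat_lit 571744) (.g (nat_lit 3670) (.e (nat_lit 475198) (nat_lit 40) (.e (nat_lit 704589) (nat_lit 3) (.e (nat_lit 163979) (nat_lit 30) (.e (nat_lit 573482) (nat_lit 13) (.e (nat_lit 65604) (nat_lit 9) (.e (nat_lit 336013) (nat_lit 2) (.e (nat_lit 90134) (nat_lit 9) (.e (nat_lit 3055) (nat_lit 190) .nil)))))))) (.g (nat_lit 1) (.e (nat_lit 352786) (nat_lit 0) .nil) .nil))) 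
(.lf (nat_lit 572256) (.g (nat_lit 1618) (.e (nat_lit 483337) (nat_lit 9) (.e (nat_lit 426100) (nat_lit 1) (.e (nat_lit 164398) (nat_lit 256) (.e (nat_lit 57376) (nat_lit 3) (.e (nat_lit 98365) (nat_lit 26) .nil))))) (.g (nat_lit 0) (.e (nat_lit 354093) (nat_lit 0) .nil) .nil))))) (.nd (nat_lit 8) (.nd (nat_lit 9) 
(.lf (nat_lit 571616) (.g (nat_lit 1806) (.e (nat_lit 475185) (nat_lit 29) (.e (nat_lit 557109) (nat_lit 15) (.e (nat_lit 188450) (nat_lit 23) (.e (nat_lit 212736) (nat_lit 17) .nil)))) (.g (nat_lit 0) (.e (nat_lit 352448) (nat_lit 0) .nil) .nil))) 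
(.lf (nat_lit 572128) (.g (nat_lit 2323) (.e (nat_lit 483336) (nat_lit 9) (.e (nat_lit 426098) (nat_lit 1) (.e (nat_lit 164327) (nat_lit 230) (.e (nat_lit 163868) (nat_lit 2) (.e (nat_lit 196656) (nat_lit 11) (.e (nat_lit 16466) (nat_lit 13) .nil)))))) (.g (nat_lit 1) (.e (nat_lit 353878) (nat_lit 0) .nil) .nil)))) (.nd (nat_lit 9) 
(.lf (nat_lit 571872) (.g (nat_lit 1996) (.e (nat_lit 475199) (nat_lit 40) (.e (nat_lit 704589) (nat_lit 3) (.e (nat_lit 163979) (nat_lit 30) (.e (nat_lit 573491) (nat_lit 15) (.e (nat_lit 81942) (nat_lit 20) (.e (nat_lit 1802) (nat_lit 119) (.e (nat_lit 516181) (nat_lit 15) .nil))))))) (.g (nat_lit 1) (.e (nat_lit 353222) (nat_lit 0) .nil) .nil))) 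
(.lf (nat_lit 572384) (.g (nat_lit 3584) (.e (nat_lit 483337) (nat_lit 9) (.e (nat_lit 426187) (nat_lit 9) (.e (nat_lit 426436) (nat_lit 18) (.e (nat_lit 98335) (nat_lit 18) (.e (nat_lit 164325) (nat_lit 230) (.e (nat_lit 163944) (nat_lit 19) .nil)))))) (.g (nat_lit 1) (.e (nat_lit 354514) (nat_lit 0) .nil) .nil)))))))) 
(.nd (nat_lit 5) (.nd (nat_lit 6) (.nd (nat_lit 7) (.nd (nat_lit 8) (.nd (nat_lit 9) 
(.lf (nat_lit 571408) (.g (nat_lit 3351) (.e (nat_lit 475185) (nat_lit 29) (.e (nat_lit 557100) (nat_lit 13) (.e (nat_lit 172113) (nat_lit 10) (.e (nat_lit 434247) (nat_lit 28) (.e (nat_lit 573456) (nat_lit 9) (.e (nat_lit 430) (nat_lit 32) (.e (nat_lit 426307) (nat_lit 12) .nil))))))) (.g (nat_lit 1) (.e (nat_lit 352226) (nat_lit 0) .nil) .nil))) 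
(.lf (nat_lit 571920) (.g (nat_lit 546) (.e (nat_lit 475207) (nat_lit 41) (.e (nat_lit 712752) (nat_lit 29) (.e (nat_lit 442382) (nat_lit 8) .nil))) (.g (nat_lit 0) (.e (nat_lit 353465) (nat_lit 0) .nil) .nil)))) (.nd (nat_lit 9) 
(.lf (nat_lit 571664) (.g (nat_lit 470) (.e (nat_lit 475197) (nat_lit 40) (.e (nat_lit 704589) (nat_lit 3) (.e (nat_lit 163975) (nat_lit 30) .nil))) (.g (nat_lit 0) (.e (nat_lit 352541) (nat_lit 0) .nil) .nil))) 
(.lf (nat_lit 572176) (.g (nat_lit 1275) (.e (nat_lit 483336) (nat_lit 9) (.e (nat_lit 426108) (nat_lit 1) (.e (nat_lit 164403) (nat_lit 256) (.e (nat_lit 57377) (nat_lit 3) .nil)))) (.g (nat_lit 0) (.e (nat_lit 353971) (nat_lit 0) .nil) .nil))))) (.nd (nat_lit 8) (.nd (nat_lit 9) 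
(.lf (nat_lit 571536) (.g (nat_lit 2913) (.e (nat_lit 475185) (nat_lit 29) (.e (nat_lit 557107) (nat_lit 15) (.e (nat_lit 188447) (nat_lit 22) (.e (nat_lit 196661) (nat_lit 12) (.e (nat_lit 57750) (nat_lit 201) (.e (nat_lit 3065) (nat_lit 190) .nil)))))) (.g (nat_lit 1) (.e (nat_lit 352365) (nat_lit 0) .nil) .nil))) 
(.lf (nat_lit 572048) (.g (nat_lit 1188) (.e (nat_lit 475211) (nat_lit 41) (.e (nat_lit 712752) (nat_lit 29) (.e (nat_lit 442430) (nat_lit 24) (.e (nat_lit 229679) (nat_lit 244) .nil)))) (.g (nat_lit 0) (.e (nat_lit 353697) (nat_lit 0) .nil) .nil)))) (.nd (nat_lit 9) 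
(.lf (nat_lit 571792) (.g (nat_lit 2541) (.e (nat_lit 475198) (nat_lit 40) (.e (nat_lit 704598) (nat_lit 6) (.e (nat_lit 188439) (nat_lit 20) (.e (nat_lit 3409) (nat_lit 212) (.e (nat_lit 655378) (nat_lit 4) (.e (nat_lit 172118) (nat_lit 12) .nil)))))) (.g (nat_lit 1) (.e (nat_lit 352943) (nat_lit 0) .nil) .nil))) 
(.lf (nat_lit 572304) (.g (nat_lit 3977) (.e (nat_lit 483337) (nat_lit 9) (.e (nat_lit 426107) (nat_lit 1) (.e (nat_lit 164326) (nat_lit 230) (.e (nat_lit 163868) (nat_lit 2) (.e (nat_lit 196656) (nat_lit 11) (.e (nat_lit 16463) (nat_lit 13) .nil)))))) (.g (nat_lit 1) (.e (nat_lit 354243) (nat_lit 0) .nil) .nil)))))) (.nd (nat_lit 7) (.nd (nat_lit 8) (.nd (nat_lit 9) 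
(.lf (nat_lit 571472) (.g (nat_lit 3231) (.e (nat_lit 475185) (nat_lit 29) (.e (nat_lit 557101) (nat_lit 13) (.e (nat_lit 172115) (nat_lit 10) (.e (nat_lit 434231) (nat_lit 23) (.e (nat_lit 532490) (nat_lit 0) (.e (nat_lit 7936) (nat_lit 357) (.e (nat_lit 3058) (nat_lit 190) .nil))))))) (.g (nat_lit 1) (.e (nat_lit 352291) (nat_lit 0) .nil) .nil))) 
(.lf (nat_lit 571984) (.g (nat_lit 3361) (.e (nat_lit 475210) (nat_lit 41) (.e (nat_lit 712745) (nat_lit 27) (.e (nat_lit 426347) (nat_lit 14) (.e (nat_lit 491550) (nat_lit 9) (.e (nat_lit 336379) (nat_lit 27) (.e (nat_lit 426318) (nat_lit 12) .nil)))))) (.g (nat_lit 1) (.e (nat_lit 353569) (nat_lit 0) .nil) .nil)))) (.nd (nat_lit 9) 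
(.lf (nat_lit 571728) (.g (nat_lit 1731) (.e (nat_lit 475198) (nat_lit 40) (.e (nat_lit 704589) (nat_lit 3) (.e (nat_lit 163976) (nat_lit 30) (.e (nat_lit 573491) (nat_lit 15) (.e (nat_lit 81943) (nat_lit 20) (.e (nat_lit 1781) (nat_lit 119) (.e (nat_lit 516182) (nat_lit 15) .nil))))))) (.g (nat_lit 1) (.e (nat_lit 352725) (nat_lit 0) .nil) .nil))) 
(.lf (nat_lit 572240) (.g (nat_lit 953) (.e (nat_lit 483337) (nat_lit 9) (.e (nat_lit 426100) (nat_lit 1) (.e (nat_lit 164406) (nat_lit 258) .nil))) (.g (nat_lit 0) (.e (nat_lit 354077) (nat_lit 0) .nil) .nil))))) (.nd (nat_lit 8) (.nd (nat_lit 9) 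
(.lf (nat_lit 571600) (.g (nat_lit 3161) (.e (nat_lit 475185) (nat_lit 29) (.e (nat_lit 557109) (nat_lit 15) (.e (nat_lit 188449) (nat_lit 22) (.e (nat_lit 196661) (nat_lit 12) (.e (nat_lit 57751) (nat_lit 201) (.e (nat_lit 3066) (nat_lit 190) .nil)))))) (.g (nat_lit 1) (.e (nat_lit 352432) (nat_lit 0) .nil) .nil))) 
(.lf (nat_lit 572112) (.g (nat_lit 2723) (.e (nat_lit 475218) (nat_lit 44) (.e (nat_lit 737318) (nat_lit 15) (.e (nat_lit 49188) (nat_lit 11) (.e (nat_lit 16425) (nat_lit 7) (.e (nat_lit 409646) (nat_lit 18) (.e (nat_lit 303143) (nat_lit 12) .nil)))))) (.g (nat_lit 1) (.e (nat_lit 353795) (nat_lit 0) .nil) .nil)))) (.nd (nat_lit 9) 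
(.lf (nat_lit 571856) (.g (nat_lit 2646) (.e (nat_lit 475199) (nat_lit 40) (.e (nat_lit 704589) (nat_lit 3) (.e (nat_lit 163979) (nat_lit 30) (.e (nat_lit 573481) (nat_lit 13) (.e (nat_lit 65609) (nat_lit 10) .nil))))) (.g (nat_lit 0) (.e (nat_lit 353200) (nat_lit 0) .nil) .nil))) 
(.lf (nat_lit 572368) (.g (nat_lit 1264) (.e (nat_lit 483337) (nat_lit 9) (.e (nat_lit 426108) (nat_lit 1) (.e (nat_lit 164402) (nat_lit 256) (.e (nat_lit 57371) (nat_lit 2) .nil)))) (.g (nat_lit 0) (.e (nat_lit 354487) (nat_lit 0) .nil) .nil))))))) (.nd (nat_lit 6) (.nd (nat_lit 7) (.nd (nat_lit 8) (.nd (nat_lit 9) 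
(.lf (nat_lit 571440) (.g (nat_lit 2427) (.e (nat_lit 475185) (nat_lit 29) (.e (nat_lit 557100) (nat_lit 13) (.e (nat_lit 172126) (nat_lit 14) (.e (nat_lit 491539) (nat_lit 3) (.e (nat_lit 98354) (nat_lit 26) .nil))))) (.g (nat_lit 0) (.e (nat_lit 352258) (nat_lit 0) .nil) .nil))) 
(.lf (nat_lit 571952) (.g (nat_lit 2130) (.e (nat_lit 475209) (nat_lit 41) (.e (nat_lit 712739) (nat_lit 27) (.e (nat_lit 426171) (nat_lit 7) (.e (nat_lit 409646) (nat_lit 18) (.e (nat_lit 311040) (nat_lit 35) (.e (nat_lit 401454) (nat_lit 12) .nil)))))) (.g (nat_lit 1) (.e (nat_lit 353513) (nat_lit 0) .nil) .nil)))) (.nd (nat_lit 9) 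
(.lf (nat_lit 571696) (.g (nat_lit 2432) (.e (nat_lit 475197) (nat_lit 40) (.e (nat_lit 704592) (nat_lit 4) (.e (nat_lit 172082) (nat_lit 7) (.e (nat_lit 409649) (nat_lit 18) (.e (nat_lit 311040) (nat_lit 35) .nil))))) (.g (nat_lit 0) (.e (nat_lit 352650) (nat_lit 0) .nil) .nil))) 
(.lf (nat_lit 572208) (.g (nat_lit 1999) (.e (nat_lit 483337) (nat_lit 9) (.e (nat_lit 426098) (nat_lit 1) (.e (nat_lit 164399) (nat_lit 256) (.e (nat_lit 57373) (nat_lit 2) (.e (nat_lit 90167) (nat_lit 13) (.e (nat_lit 172123) (nat_lit 13) .nil)))))) (.g (nat_lit 1) (.e (nat_lit 354034) (nat_lit 0) .nil) .nil))))) (.nd (nat_lit 8) (.nd (nat_lit 9) 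
(.lf (nat_lit 571568) (.g (nat_lit 2548) (.e (nat_lit 475185) (nat_lit 29) (.e (nat_lit 557108) (nat_lit 15) (.e (nat_lit 188452) (nat_lit 23) (.e (nat_lit 204883) (nat_lit 33) .nil)))) (.g (nat_lit 0) (.e (nat_lit 352397) (nat_lit 0) .nil) .nil))) 
(.lf (nat_lit 572080) (.g (nat_lit 2234) (.e (nat_lit 475211) (nat_lit 41) (.e (nat_lit 712755) (nat_lit 30) (.e (nat_lit 450564) (nat_lit 0) (.e (nat_lit 5548) (nat_lit 306) (.e (nat_lit 2618) (nat_lit 164) .nil))))) (.g (nat_lit 0) (.e (nat_lit 353740) (nat_lit 0) .nil) .nil)))) (.nd (nat_lit 9) 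
(.lf (nat_lit 571824) (.g (nat_lit 1694) (.e (nat_lit 475199) (nat_lit 40) (.e (nat_lit 704589) (nat_lit 3) (.e (nat_lit 163975) (nat_lit 30) (.e (nat_lit 573491) (nat_lit 15) (.e (nat_lit 81942) (nat_lit 20) .nil))))) (.g (nat_lit 0) (.e (nat_lit 352983) (nat_lit 0) .nil) .nil))) 
(.lf (nat_lit 572336) (.g (nat_lit 946) (.e (nat_lit 483337) (nat_lit 9) (.e (nat_lit 426107) (nat_lit 1) (.e (nat_lit 164403) (nat_lit 256) (.e (nat_lit 57371) (nat_lit 2) .nil)))) (.g (nat_lit 0) (.e (nat_lit 354382) (nat_lit 0) .nil) .nil)))))) (.nd (nat_lit 7) (.nd (nat_lit 8) (.nd (nat_lit 9) 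
(.lf (nat_lit 571504) (.g (nat_lit 1714) (.e (nat_lit 475185) (nat_lit 29) (.e (nat_lit 557101) (nat_lit 13) (.e (nat_lit 172115) (nat_lit 10) (.e (nat_lit 434244) (nat_lit 28) (.e (nat_lit 573454) (nat_lit 9) .nil))))) (.g (nat_lit 0) (.e (nat_lit 352323) (nat_lit 0) .nil) .nil))) 
(.lf (nat_lit 572016) (.g (nat_lit 2087) (.e (nat_lit 475210) (nat_lit 41) (.e (nat_lit 712755) (nat_lit 30) (.e (nat_lit 450564) (nat_lit 0) (.e (nat_lit 5546) (nat_lit 306) (.e (nat_lit 2628) (nat_lit 164) .nil))))) (.g (nat_lit 0) (.e (nat_lit 353636) (nat_lit 0) .nil) .nil)))) (.nd (nat_lit 9) 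
(.lf (nat_lit 571760) (.g (nat_lit 2074) (.e (nat_lit 475198) (nat_lit 40) (.e (nat_lit 704589) (nat_lit 3) (.e (nat_lit 163979) (nat_lit 30) (.e (nat_lit 573491) (nat_lit 15) (.e (nat_lit 81955) (nat_lit 23) .nil))))) (.g (nat_lit 0) (.e (nat_lit 352805) (nat_lit 0) .nil) .nil))) 
(.lf (nat_lit 572272) (.g (nat_lit 2808) (.e (nat_lit 483337) (nat_lit 9) (.e (nat_lit 426100) (nat_lit 1) (.e (nat_lit 164399) (nat_lit 256) (.e (nat_lit 57378) (nat_lit 3) (.e (nat_lit 98355) (nat_lit 26) (.e (nat_lit 426323) (nat_lit 13) .nil)))))) (.g (nat_lit 1) (.e (nat_lit 354109) (nat_lit 0) .nil) .nil))))) (.nd (nat_lit 8) (.nd (nat_lit 9) 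
(.lf (nat_lit 571632) (.g (nat_lit 2301) (.e (nat_lit 475185) (nat_lit 29) (.e (nat_lit 557109) (nat_lit 15) (.e (nat_lit 188452) (nat_lit 23) (.e (nat_lit 204840) (nat_lit 21) .nil)))) (.g (nat_lit 0) (.e (nat_lit 352464) (nat_lit 0) .nil) .nil))) 
(.lf (nat_lit 572144) (.g (nat_lit 2218) (.e (nat_lit 483336) (nat_lit 9) (.e (nat_lit 426100) (nat_lit 1) (.e (nat_lit 164398) (nat_lit 256) (.e (nat_lit 57378) (nat_lit 3) (.e (nat_lit 98363) (nat_lit 26) (.e (nat_lit 426321) (nat_lit 13) .nil)))))) (.g (nat_lit 1) (.e (nat_lit 353904) (nat_lit 0) .nil) .nil)))) (.nd (nat_lit 9) 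
(.lf (nat_lit 571888) (.g (nat_lit 3300) (.e (nat_lit 475199) (nat_lit 40) (.e (nat_lit 704590) (nat_lit 3) (.e (nat_lit 163975) (nat_lit 30) (.e (nat_lit 573491) (nat_lit 15) (.e (nat_lit 81954) (nat_lit 23) (.e (nat_lit 98383) (nat_lit 32) .nil)))))) (.g (nat_lit 1) (.e (nat_lit 353354) (nat_lit 0) .nil) .nil))) 
(.lf (nat_lit 572400) (.g (nat_lit 3390) (.e (nat_lit 483337) (nat_lit 9) (.e (nat_lit 426196) (nat_lit 9) (.e (nat_lit 426436) (nat_lit 18) (.e (nat_lit 98335) (nat_lit 18) (.e (nat_lit 164331) (nat_lit 230) .nil))))) (.g (nat_lit 0) (.e (nat_lit 354549) (nat_lit 0) .nil) .nil))))))))) (.nd (nat_lit 4) (.nd (nat_lit 5) (.nd (nat_lit 6) (.nd (nat_lit 7) (.nd (nat_lit 8) (.nd (nat_lit 9) 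
(.lf (nat_lit 571400) (.g (nat_lit 3212) (.e (nat_lit 475185) (nat_lit 29) (.e (nat_lit 557100) (nat_lit 13) (.e (nat_lit 172113) (nat_lit 10) (.e (nat_lit 434245) (nat_lit 28) (.e (nat_lit 573474) (nat_lit 12) (.e (nat_lit 57566) (nat_lit 52) (.e (nat_lit 753671) (nat_lit 5) (.e (nat_lit 3063) (nat_lit 190) .nil)))))))) (.g (nat_lit 1) (.e (nat_lit 352218) (nat_lit 0) .nil) .nil))) 
(.lf (nat_lit 571912) (.g (nat_lit 2688) (.e (nat_lit 475199) (nat_lit 40) (.e (nat_lit 704598) (nat_lit 6) (.e (nat_lit 188455) (nat_lit 24) (.e (nat_lit 229681) (nat_lit 244) (.e (nat_lit 163905) (nat_lit 12) (.e (nat_lit 426320) (nat_lit 12) .nil)))))) (.g (nat_lit 1) (.e (nat_lit 353428) (nat_lit 0) .nil) .nil)))) (.nd (nat_lit 9) 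
(.lf (nat_lit 571656) (.g (nat_lit 4559) (.e (nat_lit 475196) (nat_lit 40) (.e (nat_lit 704589) (nat_lit 3) (.e (nat_lit 163979) (nat_lit 30) (.e (nat_lit 573493) (nat_lit 15) (.e (nat_lit 81956) (nat_lit 23) (.e (nat_lit 98385) (nat_lit 32) .nil)))))) (.g (nat_lit 1) (.e (nat_lit 352517) (nat_lit 0) .nil) .nil))) 
(.lf (nat_lit 572168) (.g (nat_lit 2581) (.e (nat_lit 483336) (nat_lit 9) (.e (nat_lit 426107) (nat_lit 1) (.e (nat_lit 164403) (nat_lit 256) (.e (nat_lit 57378) (nat_lit 3) (.e (nat_lit 98365) (nat_lit 26) .nil))))) (.g (nat_lit 0) (.e (nat_lit 353947) (nat_lit 0) .nil) .nil))))) (.nd (nat_lit 8) (.nd (nat_lit 9) 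
(.lf (nat_lit 571528) (.g (nat_lit 2858) (.e (nat_lit 475185) (nat_lit 29) (.e (nat_lit 557107) (nat_lit 15) (.e (nat_lit 188439) (nat_lit 20) (.e (nat_lit 3271) (nat_lit 199) (.e (nat_lit 548898) (nat_lit 14) (.e (nat_lit 2884) (nat_lit 184) (.e (nat_lit 426317) (nat_lit 12) .nil))))))) (.g (nat_lit 1) (.e (nat_lit 352357) (nat_lit 0) .nil) .nil))) 
(.lf (nat_lit 572040) (.g (nat_lit 1179) (.e (nat_lit 475211) (nat_lit 41) (.e (nat_lit 712752) (nat_lit 29) (.e (nat_lit 442428) (nat_lit 24) (.e (nat_lit 229680) (nat_lit 244) .nil)))) (.g (nat_lit 0) (.e (nat_lit 353689) (nat_lit 0) .nil) .nil)))) (.nd (nat_lit 9) 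
(.lf (nat_lit 571784) (.g (nat_lit 1025) (.e (nat_lit 475198) (nat_lit 40) (.e (nat_lit 704592) (nat_lit 4) (.e (nat_lit 172126) (nat_lit 14) (.e (nat_lit 491568) (nat_lit 13) .nil)))) (.g (nat_lit 0) (.e (nat_lit 352925) (nat_lit 0) .nil) .nil))) 
(.lf (nat_lit 572296) (.g (nat_lit 1476) (.e (nat_lit 483337) (nat_lit 9) (.e (nat_lit 426107) (nat_lit 1) (.e (nat_lit 164322) (nat_lit 230) (.e (nat_lit 163871) (nat_lit 2) .nil)))) (.g (nat_lit 0) (.e (nat_lit 354146) (nat_lit 0) .nil) .nil)))))) (.nd (nat_lit 7) (.nd (nat_lit 8) (.nd (nat_lit 9) 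
(.lf (nat_lit 571464) (.g (nat_lit 1304) (.e (nat_lit 475185) (nat_lit 29) (.e (nat_lit 557101) (nat_lit 13) (.e (nat_lit 172115) (nat_lit 10) (.e (nat_lit 434231) (nat_lit 23) (.e (nat_lit 532482) (nat_lit 0) .nil))))) (.g (nat_lit 0) (.e (nat_lit 352283) (nat_lit 0) .nil) .nil))) 
(.lf (nat_lit 571976) (.g (nat_lit 3405) (.e (nat_lit 475209) (nat_lit 41) (.e (nat_lit 712755) (nat_lit 30) (.e (nat_lit 450569) (nat_lit 0) (.e (nat_lit 5599) (nat_lit 310) (.e (nat_lit 163905) (nat_lit 12) (.e (nat_lit 426320) (nat_lit 12) .nil)))))) (.g (nat_lit 1) (.e (nat_lit 353549) (nat_lit 0) .nil) .nil)))) (.nd (nat_lit 9) 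
(.lf (nat_lit 571720) (.g (nat_lit 2031) (.e (nat_lit 475198) (nat_lit 40) (.e (nat_lit 704589) (nat_lit 3) (.e (nat_lit 163975) (nat_lit 30) (.e (nat_lit 573492) (nat_lit 15) (.e (nat_lit 81954) (nat_lit 23) (.e (nat_lit 98383) (nat_lit 32) .nil)))))) (.g (nat_lit 1) (.e (nat_lit 352707) (nat_lit 0) .nil) .nil))) 
(.lf (nat_lit 572232) (.g (nat_lit 2740) (.e (nat_lit 483337) (nat_lit 9) (.e (nat_lit 426099) (nat_lit 1) (.e (nat_lit 164399) (nat_lit 256) (.e (nat_lit 57373) (nat_lit 2) (.e (nat_lit 90170) (nat_lit 13) (.e (nat_lit 172121) (nat_lit 13) .nil)))))) (.g (nat_lit 1) (.e (nat_lit 354058) (nat_lit 0) .nil) .nil))))) (.nd (nat_lit 8) (.nd (nat_lit 9) 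
(.lf (nat_lit 571592) (.g (nat_lit 4993) (.e (nat_lit 475185) (nat_lit 29) (.e (nat_lit 557109) (nat_lit 15) (.e (nat_lit 188449) (nat_lit 22) (.e (nat_lit 196620) (nat_lit 9) .nil)))) (.g (nat_lit 0) (.e (nat_lit 352424) (nat_lit 0) .nil) .nil))) 
(.lf (nat_lit 572104) (.g (nat_lit 2531) (.e (nat_lit 475212) (nat_lit 42) (.e (nat_lit 720951) (nat_lit 24) (.e (nat_lit 106536) (nat_lit 11) (.e (nat_lit 16392) (nat_lit 0) (.e (nat_lit 6989) (nat_lit 377) (.e (nat_lit 2810) (nat_lit 180) (.e (nat_lit 303143) (nat_lit 12) .nil))))))) (.g (nat_lit 1) (.e (nat_lit 353771) (nat_lit 0) .nil) .nil)))) (.nd (nat_lit 9) 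
(.lf (nat_lit 571848) (.g (nat_lit 4767) (.e (nat_lit 475199) (nat_lit 40) (.e (nat_lit 704589) (nat_lit 3) (.e (nat_lit 163978) (nat_lit 30) (.e (nat_lit 573485) (nat_lit 13) (.e (nat_lit 65604) (nat_lit 9) (.e (nat_lit 336013) (nat_lit 2) (.e (nat_lit 90134) (nat_lit 9) (.e (nat_lit 3063) (nat_lit 190) .nil)))))))) (.g (nat_lit 1) (.e (nat_lit 353184) (nat_lit 0) .nil) .nil))) 
(.lf (nat_lit 572360) (.g (nat_lit 392) (.e (nat_lit 483337) (nat_lit 9) (.e (nat_lit 426108) (nat_lit 1) (.e (nat_lit 164401) (nat_lit 256) .nil))) (.g (nat_lit 0) (.e (nat_lit 354479) (nat_lit 0) .nil) .nil))))))) (.nd (nat_lit 6) (.nd (nat_lit 7) (.nd (nat_lit 8) (.nd (nat_lit 9) 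
(.lf (nat_lit 571432) (.g (nat_lit 2659) (.e (nat_lit 475185) (nat_lit 29) (.e (nat_lit 557100) (nat_lit 13) (.e (nat_lit 172113) (nat_lit 10) (.e (nat_lit 434248) (nat_lit 28) (.e (nat_lit 573475) (nat_lit 12) (.e (nat_lit 57351) (nat_lit 0) (.e (nat_lit 6940) (nat_lit 375) (.e (nat_lit 163938) (nat_lit 18) .nil)))))))) (.g (nat_lit 1) (.e (nat_lit 352250) (nat_lit 0) .nil) .nil))) 
(.lf (nat_lit 571944) (.g (nat_lit 582) (.e (nat_lit 475208) (nat_lit 41) (.e (nat_lit 712752) (nat_lit 29) (.e (nat_lit 442377) (nat_lit 0) .nil))) (.g (nat_lit 0) (.e (nat_lit 353503) (nat_lit 0) .nil) .nil)))) (.nd (nat_lit 9) 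
(.lf (nat_lit 571688) (.g (nat_lit 2116) (.e (nat_lit 475197) (nat_lit 40) (.e (nat_lit 704589) (nat_lit 3) (.e (nat_lit 163979) (nat_lit 30) (.e (nat_lit 573491) (nat_lit 15) (.e (nat_lit 89856) (nat_lit 20) (.e (nat_lit 1800) (nat_lit 119) (.e (nat_lit 516182) (nat_lit 15) .nil))))))) (.g (nat_lit 1) (.e (nat_lit 352613) (nat_lit 0) .nil) .nil))) 
(.lf (nat_lit 572200) (.g (nat_lit 3113) (.e (nat_lit 483337) (nat_lit 9) (.e (nat_lit 426098) (nat_lit 1) (.e (nat_lit 164398) (nat_lit 256) (.e (nat_lit 57378) (nat_lit 3) (.e (nat_lit 98363) (nat_lit 26) (.e (nat_lit 426321) (nat_lit 13) .nil)))))) (.g (nat_lit 1) (.e (nat_lit 354026) (nat_lit 0) .nil) .nil))))) (.nd (nat_lit 8) (.nd (nat_lit 9) 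
(.lf (nat_lit 571560) (.g (nat_lit 4847) (.e (nat_lit 475185) (nat_lit 29) (.e (nat_lit 557108) (nat_lit 15) (.e (nat_lit 188449) (nat_lit 22) (.e (nat_lit 196683) (nat_lit 18) .nil)))) (.g (nat_lit 0) (.e (nat_lit 352389) (nat_lit 0) .nil) .nil))) 
(.lf (nat_lit 572072) (.g (nat_lit 1598) (.e (nat_lit 475211) (nat_lit 41) (.e (nat_lit 712755) (nat_lit 30) (.e (nat_lit 450562) (nat_lit 0) (.e (nat_lit 5539) (nat_lit 306) (.e (nat_lit 7936) (nat_lit 164) .nil))))) (.g (nat_lit 0) (.e (nat_lit 353725) (nat_lit 0) .nil) .nil)))) (.nd (nat_lit 9) 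
(.lf (nat_lit 571816) (.g (nat_lit 4092) (.e (nat_lit 475199) (nat_lit 40) (.e (nat_lit 704589) (nat_lit 3) (.e (nat_lit 163975) (nat_lit 30) (.e (nat_lit 573481) (nat_lit 13) (.e (nat_lit 65604) (nat_lit 9) (.e (nat_lit 336013) (nat_lit 2) (.e (nat_lit 90134) (nat_lit 9) (.e (nat_lit 3063) (nat_lit 190) .nil)))))))) (.g (nat_lit 1) (.e (nat_lit 352971) (nat_lit 0) .nil) .nil))) 
(.lf (nat_lit 572328) (.g (nat_lit 2780) (.e (nat_lit 483337) (nat_lit 9) (.e (nat_lit 426107) (nat_lit 1) (.e (nat_lit 164347) (nat_lit 240) (.e (nat_lit 2422) (nat_lit 157) (.e (nat_lit 2668) (nat_lit 167) (.e (nat_lit 196686) (nat_lit 18) (.e (nat_lit 1385) (nat_lit 105) (.e (nat_lit 311343) (nat_lit 13) .nil)))))))) (.g (nat_lit 1) (.e (nat_lit 354373) (nat_lit 0) .nil) .nil)))))) 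
(.nd (nat_lit 7) (.nd (nat_lit 8) (.nd (nat_lit 9) 
(.lf (nat_lit 571496) (.g (nat_lit 3292) (.e (nat_lit 475185) (nat_lit 29) (.e (nat_lit 557101) (nat_lit 13) (.e (nat_lit 172115) (nat_lit 10) (.e (nat_lit 434244) (nat_lit 28) (.e (nat_lit 573450) (nat_lit 9) (.e (nat_lit 377) (nat_lit 32) (.e (nat_lit 426312) (nat_lit 12) .nil))))))) (.g (nat_lit 1) (.e (nat_lit 352315) (nat_lit 0) .nil) .nil))) 
(.lf (nat_lit 572008) (.g (nat_lit 412) (.e (nat_lit 475210) (nat_lit 41) (.e (nat_lit 712753) (nat_lit 30) (.e (nat_lit 450595) (nat_lit 17) .nil))) (.g (nat_lit 0) (.e (nat_lit 353623) (nat_lit 0) .nil) .nil)))) (.nd (nat_lit 9) 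
(.lf (nat_lit 571752) (.g (nat_lit 2089) (.e (nat_lit 475198) (nat_lit 40) (.e (nat_lit 704589) (nat_lit 3) (.e (nat_lit 163979) (nat_lit 30) (.e (nat_lit 573491) (nat_lit 15) (.e (nat_lit 81942) (nat_lit 20) .nil))))) (.g (nat_lit 0) (.e (nat_lit 352795) (nat_lit 0) .nil) .nil))) 
(.lf (nat_lit 572264) (.g (nat_lit 2290) (.e (nat_lit 483337) (nat_lit 9) (.e (nat_lit 426100) (nat_lit 1) (.e (nat_lit 164398) (nat_lit 256) (.e (nat_lit 57379) (nat_lit 3) (.e (nat_lit 98362) (nat_lit 26) .nil))))) (.g (nat_lit 0) (.e (nat_lit 354101) (nat_lit 0) .nil) .nil))))) (.nd (nat_lit 8) (.nd (nat_lit 9) 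
(.lf (nat_lit 571624) (.g (nat_lit 2041) (.e (nat_lit 475185) (nat_lit 29) (.e (nat_lit 557109) (nat_lit 15) (.e (nat_lit 188452) (nat_lit 23) (.e (nat_lit 204821) (nat_lit 17) (.e (nat_lit 6674) (nat_lit 357) .nil))))) (.g (nat_lit 0) (.e (nat_lit 352456) (nat_lit 0) .nil) .nil))) 
(.lf (nat_lit 572136) (.g (nat_lit 792) (.e (nat_lit 483336) (nat_lit 9) (.e (nat_lit 426100) (nat_lit 1) (.e (nat_lit 164330) (nat_lit 230) .nil))) (.g (nat_lit 0) (.e (nat_lit 353888) (nat_lit 0) .nil) .nil)))) (.nd (nat_lit 9) 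
(.lf (nat_lit 571880) (.g (nat_lit 2160) (.e (nat_lit 475199) (nat_lit 40) (.e (nat_lit 704589) (nat_lit 3) (.e (nat_lit 163979) (nat_lit 30) (.e (nat_lit 573491) (nat_lit 15) (.e (nat_lit 81947) (nat_lit 20) (.e (nat_lit 1798) (nat_lit 119) (.e (nat_lit 516182) (nat_lit 15) .nil))))))) (.g (nat_lit 1) (.e (nat_lit 353230) (nat_lit 0) .nil) .nil))) 
(.lf (nat_lit 572392) (.g (nat_lit 3789) (.e (nat_lit 483337) (nat_lit 9) (.e (nat_lit 426188) (nat_lit 9) (.e (nat_lit 426436) (nat_lit 18) (.e (nat_lit 98335) (nat_lit 18) (.e (nat_lit 164330) (nat_lit 230) (.e (nat_lit 163943) (nat_lit 19) .nil)))))) (.g (nat_lit 1) (.e (nat_lit 354528) (nat_lit 0) .nil) .nil)))))))) 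
(.nd (nat_lit 5) (.nd (nat_lit 6) (.nd (nat_lit 7) (.nd (nat_lit 8) (.nd (nat_lit 9) 
(.lf (nat_lit 571416) (.g (nat_lit 3989) (.e (nat_lit 475185) (nat_lit 29) (.e (nat_lit 557100) (nat_lit 13) (.e (nat_lit 172113) (nat_lit 10) (.e (nat_lit 434248) (nat_lit 28) (.e (nat_lit 573468) (nat_lit 10) (.e (nat_lit 16128) (nat_lit 205) (.e (nat_lit 3062) (nat_lit 190) .nil))))))) (.g (nat_lit 1) (.e (nat_lit 352234) (nat_lit 0) .nil) .nil))) 
(.lf (nat_lit 571928) (.g (nat_lit 1426) (.e (nat_lit 475207) (nat_lit 41) (.e (nat_lit 712755) (nat_lit 30) (.e (nat_lit 450562) (nat_lit 0) (.e (nat_lit 4756) (nat_lit 281) (.e (nat_lit 1127) (nat_lit 83) .nil))))) (.g (nat_lit 0) (.e (nat_lit 353475) (nat_lit 0) .nil) .nil)))) (.nd (nat_lit 9) 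
(.lf (nat_lit 571672) (.g (nat_lit 4104) (.e (nat_lit 475197) (nat_lit 40) (.e (nat_lit 704589) (nat_lit 3) (.e (nat_lit 163975) (nat_lit 30) (.e (nat_lit 573492) (nat_lit 15) (.e (nat_lit 81956) (nat_lit 23) (.e (nat_lit 98385) (nat_lit 32) .nil)))))) (.g (nat_lit 1) (.e (nat_lit 352560) (nat_lit 0) .nil) .nil))) 
(.lf (nat_lit 572184) (.g (nat_lit 3484) (.e (nat_lit 483337) (nat_lit 9) (.e (nat_lit 426098) (nat_lit 1) (.e (nat_lit 164325) (nat_lit 230) (.e (nat_lit 163871) (nat_lit 2) (.e (nat_lit 196656) (nat_lit 11) (.e (nat_lit 16466) (nat_lit 13) .nil)))))) (.g (nat_lit 1) (.e (nat_lit 353999) (nat_lit 0) .nil) .nil))))) (.nd (nat_lit 8) (.nd (nat_lit 9) 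
(.lf (nat_lit 571544) (.g (nat_lit 1926) (.e (nat_lit 475185) (nat_lit 29) (.e (nat_lit 557107) (nat_lit 15) (.e (nat_lit 188450) (nat_lit 23) (.e (nat_lit 204829) (nat_lit 18) (.e (nat_lit 65280) (nat_lit 219) .nil))))) (.g (nat_lit 0) (.e (nat_lit 352373) (nat_lit 0) .nil) .nil))) 
(.lf (nat_lit 572056) (.g (nat_lit 2158) (.e (nat_lit 475211) (nat_lit 41) (.e (nat_lit 712753) (nat_lit 30) (.e (nat_lit 450565) (nat_lit 0) (.e (nat_lit 5548) (nat_lit 306) (.e (nat_lit 2625) (nat_lit 164) (.e (nat_lit 172120) (nat_lit 12) .nil)))))) (.g (nat_lit 1) (.e (nat_lit 353705) (nat_lit 0) .nil) .nil)))) (.nd (nat_lit 9) 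
(.lf (nat_lit 571800) (.g (nat_lit 2670) (.e (nat_lit 475198) (nat_lit 40) (.e (nat_lit 704598) (nat_lit 6) (.e (nat_lit 188455) (nat_lit 24) (.e (nat_lit 229663) (nat_lit 240) (.e (nat_lit 2497) (nat_lit 157) (.e (nat_lit 2854) (nat_lit 184) (.e (nat_lit 426320) (nat_lit 12) .nil))))))) (.g (nat_lit 1) (.e (nat_lit 352951) (nat_lit 0) .nil) .nil))) 
(.lf (nat_lit 572312) (.g (nat_lit 4173) (.e (nat_lit 483337) (nat_lit 9) (.e (nat_lit 426107) (nat_lit 1) (.e (nat_lit 164326) (nat_lit 230) (.e (nat_lit 163871) (nat_lit 2) (.e (nat_lit 196656) (nat_lit 11) (.e (nat_lit 16463) (nat_lit 13) .nil)))))) (.g (nat_lit 1) (.e (nat_lit 354310) (nat_lit 0) .nil) .nil)))))) (.nd (nat_lit 7) (.nd (nat_lit 8) (.nd (nat_lit 9) 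
(.lf (nat_lit 571480) (.g (nat_lit 2987) (.e (nat_lit 475185) (nat_lit 29) (.e (nat_lit 557101) (nat_lit 13) (.e (nat_lit 172115) (nat_lit 10) (.e (nat_lit 434238) (nat_lit 25) (.e (nat_lit 548898) (nat_lit 14) (.e (nat_lit 2862) (nat_lit 184) (.e (nat_lit 426319) (nat_lit 12) .nil))))))) (.g (nat_lit 1) (.e (nat_lit 352299) (nat_lit 0) .nil) .nil))) 
(.lf (nat_lit 571992) (.g (nat_lit 469) (.e (nat_lit 475210) (nat_lit 41) (.e (nat_lit 712752) (nat_lit 29) (.e (nat_lit 450304) (nat_lit 0) .nil))) (.g (nat_lit 0) (.e (nat_lit 353600) (nat_lit 0) .nil) .nil)))) (.nd (nat_lit 9) 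
(.lf (nat_lit 571736) (.g (nat_lit 3766) (.e (nat_lit 475198) (nat_lit 40) (.e (nat_lit 704589) (nat_lit 3) (.e (nat_lit 163978) (nat_lit 30) (.e (nat_lit 573485) (nat_lit 13) (.e (nat_lit 65604) (nat_lit 9) (.e (nat_lit 336013) (nat_lit 2) (.e (nat_lit 90134) (nat_lit 9) (.e (nat_lit 3063) (nat_lit 190) .nil)))))))) (.g (nat_lit 1) (.e (nat_lit 352775) (nat_lit 0) .nil) .nil))) 
(.lf (nat_lit 572248) (.g (nat_lit 3068) (.e (nat_lit 483337) (nat_lit 9) (.e (nat_lit 426100) (nat_lit 1) (.e (nat_lit 164398) (nat_lit 256) (.e (nat_lit 57372) (nat_lit 2) (.e (nat_lit 90169) (nat_lit 13) (.e (nat_lit 172122) (nat_lit 13) .nil)))))) (.g (nat_lit 1) (.e (nat_lit 354085) (nat_lit 0) .nil) .nil))))) (.nd (nat_lit 8) (.nd (nat_lit 9) 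
(.lf (nat_lit 571608) (.g (nat_lit 4280) (.e (nat_lit 475185) (nat_lit 29) (.e (nat_lit 557109) (nat_lit 15) (.e (nat_lit 188449) (nat_lit 22) (.e (nat_lit 196688) (nat_lit 18) .nil)))) (.g (nat_lit 0) (.e (nat_lit 352440) (nat_lit 0) .nil) .nil))) 
(.lf (nat_lit 572120) (.g (nat_lit 2795) (.e (nat_lit 475220) (nat_lit 44) (.e (nat_lit 737318) (nat_lit 15) (.e (nat_lit 49189) (nat_lit 11) (.e (nat_lit 16425) (nat_lit 7) (.e (nat_lit 409643) (nat_lit 18) (.e (nat_lit 303143) (nat_lit 12) .nil)))))) (.g (nat_lit 1) (.e (nat_lit 353813) (nat_lit 0) .nil) .nil)))) (.nd (nat_lit 9) 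
(.lf (nat_lit 571864) (.g (nat_lit 3835) (.e (nat_lit 475199) (nat_lit 40) (.e (nat_lit 704589) (nat_lit 3) (.e (nat_lit 163979) (nat_lit 30) (.e (nat_lit 573482) (nat_lit 13) (.e (nat_lit 65619) (nat_lit 10) (.e (nat_lit 344117) (nat_lit 21) (.e (nat_lit 516182) (nat_lit 15) .nil))))))) (.g (nat_lit 1) (.e (nat_lit 353209) (nat_lit 0) .nil) .nil))) 
(.lf (nat_lit 572376) (.g (nat_lit 2235) (.e (nat_lit 483337) (nat_lit 9) (.e (nat_lit 426108) (nat_lit 1) (.e (nat_lit 164403) (nat_lit 256) (.e (nat_lit 57373) (nat_lit 2) (.e (nat_lit 90169) (nat_lit 13) .nil))))) (.g (nat_lit 0) (.e (nat_lit 354495) (nat_lit 0) .nil) .nil))))))) (.nd (nat_lit 6) (.nd (nat_lit 7) (.nd (nat_lit 8) (.nd (nat_lit 9) 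
(.lf (nat_lit 571448) (.g (nat_lit 3727) (.e (nat_lit 475185) (nat_lit 29) (.e (nat_lit 557101) (nat_lit 13) (.e (nat_lit 172097) (nat_lit 9) (.e (nat_lit 426125) (nat_lit 2) (.e (nat_lit 196661) (nat_lit 12) (.e (nat_lit 65280) (nat_lit 201) (.e (nat_lit 3072) (nat_lit 190) .nil))))))) (.g (nat_lit 1) (.e (nat_lit 352266) (nat_lit 0) .nil) .nil))) 
(.lf (nat_lit 571960) (.g (nat_lit 2708) (.e (nat_lit 475209) (nat_lit 41) (.e (nat_lit 712752) (nat_lit 29) (.e (nat_lit 442421) (nat_lit 21) (.e (nat_lit 164348) (nat_lit 240) (.e (nat_lit 2619) (nat_lit 164) (.e (nat_lit 172120) (nat_lit 12) .nil)))))) (.g (nat_lit 1) (.e (nat_lit 353530) (nat_lit 0) .nil) .nil)))) (.nd (nat_lit 9) 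
(.lf (nat_lit 571704) (.g (nat_lit 2502) (.e (nat_lit 475197) (nat_lit 40) (.e (nat_lit 704598) (nat_lit 6) (.e (nat_lit 188439) (nat_lit 20) (.e (nat_lit 3409) (nat_lit 212) (.e (nat_lit 655378) (nat_lit 4) (.e (nat_lit 172120) (nat_lit 12) .nil)))))) (.g (nat_lit 1) (.e (nat_lit 352662) (nat_lit 0) .nil) .nil))) 
(.lf (nat_lit 572216) (.g (nat_lit 1213) (.e (nat_lit 483337) (nat_lit 9) (.e (nat_lit 426098) (nat_lit 1) (.e (nat_lit 164403) (nat_lit 256) (.e (nat_lit 57371) (nat_lit 2) .nil)))) (.g (nat_lit 0) (.e (nat_lit 354042) (nat_lit 0) .nil) .nil))))) (.nd (nat_lit 8) (.nd (nat_lit 9) 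
(.lf (nat_lit 571576) (.g (nat_lit 2885) (.e (nat_lit 475185) (nat_lit 29) (.e (nat_lit 557109) (nat_lit 15) (.e (nat_lit 188434) (nat_lit 20) (.e (nat_lit 3115) (nat_lit 193) (.e (nat_lit 499774) (nat_lit 0) (.e (nat_lit 2797) (nat_lit 180) (.e (nat_lit 303143) (nat_lit 12) .nil))))))) (.g (nat_lit 1) (.e (nat_lit 352406) (nat_lit 0) .nil) .nil))) 
(.lf (nat_lit 572088) (.g (nat_lit 379) (.e (nat_lit 475211) (nat_lit 41) (.e (nat_lit 712755) (nat_lit 30) (.e (nat_lit 450569) (nat_lit 0) .nil))) (.g (nat_lit 0) (.e (nat_lit 353749) (nat_lit 0) .nil) .nil)))) (.nd (nat_lit 9) 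
(.lf (nat_lit 571832) (.g (nat_lit 417) (.e (nat_lit 475199) (nat_lit 40) (.e (nat_lit 704589) (nat_lit 3) (.e (nat_lit 163976) (nat_lit 30) .nil))) (.g (nat_lit 0) (.e (nat_lit 353092) (nat_lit 0) .nil) .nil))) 
(.lf (nat_lit 572344) (.g (nat_lit 797) (.e (nat_lit 483337) (nat_lit 9) (.e (nat_lit 426108) (nat_lit 1) (.e (nat_lit 164305) (nat_lit 226) .nil))) (.g (nat_lit 0) (.e (nat_lit 354390) (nat_lit 0) .nil) .nil)))))) (.nd (nat_lit 7) (.nd (nat_lit 8) (.nd (nat_lit 9) 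
(.lf (nat_lit 571512) (.g (nat_lit 3962) (.e (nat_lit 475185) (nat_lit 29) (.e (nat_lit 557101) (nat_lit 13) (.e (nat_lit 172115) (nat_lit 10) (.e (nat_lit 434244) (nat_lit 28) (.e (nat_lit 573468) (nat_lit 10) (.e (nat_lit 8524) (nat_lit 205) (.e (nat_lit 3067) (nat_lit 190) .nil))))))) (.g (nat_lit 1) (.e (nat_lit 352331) (nat_lit 0) .nil) .nil))) 
(.lf (nat_lit 572024) (.g (nat_lit 1421) (.e (nat_lit 475211) (nat_lit 41) (.e (nat_lit 712750) (nat_lit 29) (.e (nat_lit 442374) (nat_lit 0) (.e (nat_lit 2175) (nat_lit 143) (.e (nat_lit 712745) (nat_lit 27) .nil))))) (.g (nat_lit 0) (.e (nat_lit 353662) (nat_lit 0) .nil) .nil)))) (.nd (nat_lit 9) 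
(.lf (nat_lit 571768) (.g (nat_lit 1145) (.e (nat_lit 475198) (nat_lit 40) (.e (nat_lit 704590) (nat_lit 3) (.e (nat_lit 163975) (nat_lit 30) (.e (nat_lit 573481) (nat_lit 13) .nil)))) (.g (nat_lit 0) (.e (nat_lit 352873) (nat_lit 0) .nil) .nil))) 
(.lf (nat_lit 572280) (.g (nat_lit 2944) (.e (nat_lit 483337) (nat_lit 9) (.e (nat_lit 426100) (nat_lit 1) (.e (nat_lit 164403) (nat_lit 256) (.e (nat_lit 57373) (nat_lit 2) (.e (nat_lit 90169) (nat_lit 13) (.e (nat_lit 172121) (nat_lit 13) .nil)))))) (.g (nat_lit 1) (.e (nat_lit 354117) (nat_lit 0) .nil) .nil))))) (.nd (nat_lit 8) (.nd (nat_lit 9) 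
(.lf (nat_lit 571640) (.g (nat_lit 2441) (.e (nat_lit 483072) (nat_lit 29) (.e (nat_lit 557107) (nat_lit 15) (.e (nat_lit 188452) (nat_lit 23) (.e (nat_lit 204884) (nat_lit 33) .nil)))) (.g (nat_lit 0) (.e (nat_lit 352479) (nat_lit 0) .nil) .nil))) 
(.lf (nat_lit 572152) (.g (nat_lit 2179) (.e (nat_lit 483336) (nat_lit 9) (.e (nat_lit 426100) (nat_lit 1) (.e (nat_lit 164399) (nat_lit 256) (.e (nat_lit 57379) (nat_lit 3) (.e (nat_lit 98363) (nat_lit 26) (.e (nat_lit 426321) (nat_lit 13) .nil)))))) (.g (nat_lit 1) (.e (nat_lit 353912) (nat_lit 0) .nil) .nil)))) (.nd (nat_lit 9) 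
(.lf (nat_lit 571896) (.g (nat_lit 254) (.e (nat_lit 475199) (nat_lit 40) (.e (nat_lit 704595) (nat_lit 5) (.e (nat_lit 180278) (nat_lit 32) .nil))) (.g (nat_lit 0) (.e (nat_lit 353394) (nat_lit 0) .nil) .nil))) 
(.lf (nat_lit 572408) (.g (nat_lit 2042) (.e (nat_lit 483337) (nat_lit 9) (.e (nat_lit 426287) (nat_lit 10) (.e (nat_lit 434229) (nat_lit 22) (.e (nat_lit 524291) (nat_lit 0) (.e (nat_lit 3459) (nat_lit 216) (.e (nat_lit 688139) (nat_lit 5) (.e (nat_lit 3085) (nat_lit 191) .nil))))))) (.g (nat_lit 1) (.e (nat_lit 354593) (nat_lit 0) .nil) .nil)))))))))) 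
(.nd (nat_lit 3) (.nd (nat_lit 4) (.nd (nat_lit 5) (.nd (nat_lit 6) (.nd (nat_lit 7) 
(.nd (nat_lit 8) (.nd (nat_lit 9) 
(.lf (nat_lit 571396) (.g (nat_lit 3614) (.e (nat_lit 475185) (nat_lit 29) (.e (nat_lit 557100) (nat_lit 13) (.e (nat_lit 172113) (nat_lit 10) (.e (nat_lit 434245) (nat_lit 28) (.e (nat_lit 573474) (nat_lit 12) (.e (nat_lit 57348) (nat_lit 0) (.e (nat_lit 6938) (nat_lit 375) (.e (nat_lit 163939) (nat_lit 18) .nil)))))))) (.g (nat_lit 1) (.e (nat_lit 352214) (nat_lit 0) .nil) .nil))) 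
(.lf (nat_lit 571908) (.g (nat_lit 2374) (.e (nat_lit 475199) (nat_lit 40) (.e (nat_lit 704598) (nat_lit 6) (.e (nat_lit 188455) (nat_lit 24) (.e (nat_lit 229666) (nat_lit 240) (.e (nat_lit 2630) (nat_lit 164) (.e (nat_lit 172118) (nat_lit 12) .nil)))))) (.g (nat_lit 1) (.e (nat_lit 353423) (nat_lit 0) .nil) .nil)))) (.nd (nat_lit 9) 
(.lf (nat_lit 571652) (.g (nat_lit 3663) (.e (nat_lit 475196) (nat_lit 40) (.e (nat_lit 704589) (nat_lit 3) (.e (nat_lit 163978) (nat_lit 30) (.e (nat_lit 573485) (nat_lit 13) (.e (nat_lit 65619) (nat_lit 10) (.e (nat_lit 344117) (nat_lit 21) (.e (nat_lit 516180) (nat_lit 15) .nil))))))) (.g (nat_lit 1) (.e (nat_lit 352510) (nat_lit 0) .nil) .nil))) 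
(.lf (nat_lit 572164) (.g (nat_lit 1792) (.e (nat_lit 483336) (nat_lit 9) (.e (nat_lit 426107) (nat_lit 1) (.e (nat_lit 164327) (nat_lit 230) (.e (nat_lit 163871) (nat_lit 2) .nil)))) (.g (nat_lit 0) (.e (nat_lit 353934) (nat_lit 0) .nil) .nil))))) (.nd (nat_lit 8) (.nd (nat_lit 9) 
(.lf (nat_lit 571524) (.g (nat_lit 3079) (.e (nat_lit 475185) (nat_lit 29) (.e (nat_lit 557107) (nat_lit 15) (.e (nat_lit 188432) (nat_lit 20) (.e (nat_lit 3114) (nat_lit 193) (.e (nat_lit 499776) (nat_lit 0) (.e (nat_lit 2797) (nat_lit 180) (.e (nat_lit 303143) (nat_lit 12) .nil))))))) (.g (nat_lit 1) (.e (nat_lit 352353) (nat_lit 0) .nil) .nil))) 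
(.lf (nat_lit 572036) (.g (nat_lit 2548) (.e (nat_lit 475211) (nat_lit 41) (.e (nat_lit 712752) (nat_lit 29) (.e (nat_lit 442421) (nat_lit 21) (.e (nat_lit 164348) (nat_lit 240) (.e (nat_lit 2629) (nat_lit 164) .nil))))) (.g (nat_lit 0) (.e (nat_lit 353685) (nat_lit 0) .nil) .nil)))) (.nd (nat_lit 9) 
(.lf (nat_lit 571780) (.g (nat_lit 3948) (.e (nat_lit 475198) (nat_lit 40) (.e (nat_lit 704590) (nat_lit 3) (.e (nat_lit 163975) (nat_lit 30) (.e (nat_lit 573492) (nat_lit 15) (.e (nat_lit 81956) (nat_lit 23) (.e (nat_lit 98383) (nat_lit 32) .nil)))))) (.g (nat_lit 1) (.e (nat_lit 352900) (nat_lit 0) .nil) .nil))) 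
(.lf (nat_lit 572292) (.g (nat_lit 1851) (.e (nat_lit 483337) (nat_lit 9) (.e (nat_lit 426106) (nat_lit 1) (.e (nat_lit 164403) (nat_lit 256) (.e (nat_lit 57373) (nat_lit 2) (.e (nat_lit 90170) (nat_lit 13) .nil))))) (.g (nat_lit 0) (.e (nat_lit 354130) (nat_lit 0) .nil) .nil)))))) (.nd (nat_lit 7) (.nd (nat_lit 8) (.nd (nat_lit 9) 
(.lf (nat_lit 571460) (.g (nat_lit 3094) (.e (nat_lit 475185) (nat_lit 29) (.e (nat_lit 557101) (nat_lit 13) (.e (nat_lit 172115) (nat_lit 10) (.e (nat_lit 434231) (nat_lit 23) (.e (nat_lit 532481) (nat_lit 0) (.e (nat_lit 6637) (nat_lit 357) (.e (nat_lit 3071) (nat_lit 190) .nil))))))) (.g (nat_lit 1) (.e (nat_lit 352279) (nat_lit 0) .nil) .nil))) 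
(.lf (nat_lit 571972) (.g (nat_lit 1772) (.e (nat_lit 475209) (nat_lit 41) (.e (nat_lit 712755) (nat_lit 30) (.e (nat_lit 450563) (nat_lit 0) (.e (nat_lit 5537) (nat_lit 306) (.e (nat_lit 2515) (nat_lit 157) .nil))))) (.g (nat_lit 0) (.e (nat_lit 353544) (nat_lit 0) .nil) .nil)))) (.nd (nat_lit 9) 
(.lf (nat_lit 571716) (.g (nat_lit 2195) (.e (nat_lit 475198) (nat_lit 40) (.e (nat_lit 704589) (nat_lit 3) (.e (nat_lit 163975) (nat_lit 30) (.e (nat_lit 573491) (nat_lit 15) (.e (nat_lit 81946) (nat_lit 20) (.e (nat_lit 1802) (nat_lit 119) (.e (nat_lit 516178) (nat_lit 15) .nil))))))) (.g (nat_lit 1) (.e (nat_lit 352678) (nat_lit 0) .nil) .nil))) 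
(.lf (nat_lit 572228) (.g (nat_lit 1554) (.e (nat_lit 483337) (nat_lit 9) (.e (nat_lit 426099) (nat_lit 1) (.e (nat_lit 164398) (nat_lit 256) (.e (nat_lit 57373) (nat_lit 2) (.e (nat_lit 90170) (nat_lit 13) .nil))))) (.g (nat_lit 0) (.e (nat_lit 354054) (nat_lit 0) .nil) .nil))))) (.nd (nat_lit 8) (.nd (nat_lit 9) 
(.lf (nat_lit 571588) (.g (nat_lit 2185) (.e (nat_lit 475185) (nat_lit 29) (.e (nat_lit 557109) (nat_lit 15) (.e (nat_lit 188447) (nat_lit 22) (.e (nat_lit 196700) (nat_lit 22) .nil)))) (.g (nat_lit 0) (.e (nat_lit 352420) (nat_lit 0) .nil) .nil))) 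
(.lf (nat_lit 572100) (.g (nat_lit 3220) (.e (nat_lit 475211) (nat_lit 41) (.e (nat_lit 712755) (nat_lit 30) (.e (nat_lit 450597) (nat_lit 17) (.e (nat_lit 663589) (nat_lit 14) (.e (nat_lit 2807) (nat_lit 180) (.e (nat_lit 303143) (nat_lit 12) .nil)))))) (.g (nat_lit 1) (.e (nat_lit 353762) (nat_lit 0) .nil) .nil)))) (.nd (nat_lit 9) 
(.lf (nat_lit 571844) (.g (nat_lit 461) (.e (nat_lit 475199) (nat_lit 40) (.e (nat_lit 704589) (nat_lit 3) (.e (nat_lit 163978) (nat_lit 30) .nil))) (.g (nat_lit 0) (.e (nat_lit 353180) (nat_lit 0) .nil) .nil))) 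
(.lf (nat_lit 572356) (.g (nat_lit 1249) (.e (nat_lit 483337) (nat_lit 9) (.e (nat_lit 426108) (nat_lit 1) (.e (nat_lit 164332) (nat_lit 230) (.e (nat_lit 163869) (nat_lit 2) .nil)))) (.g (nat_lit 0) (.e (nat_lit 354453) (nat_lit 0) .nil) .nil))))))) (.nd (nat_lit 6) (.nd (nat_lit 7) (.nd (nat_lit 8) (.nd (nat_lit 9) 
(.lf (nat_lit 571428) (.g (nat_lit 3408) (.e (nat_lit 475185) (nat_lit 29) (.e (nat_lit 557100) (nat_lit 13) (.e (nat_lit 172113) (nat_lit 10) (.e (nat_lit 434248) (nat_lit 28) (.e (nat_lit 573475) (nat_lit 12) (.e (nat_lit 57347) (nat_lit 0) (.e (nat_lit 6943) (nat_lit 375) (.e (nat_lit 163936) (nat_lit 18) .nil)))))))) (.g (nat_lit 1) (.e (nat_lit 352246) (nat_lit 0) .nil) .nil))) 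
(.lf (nat_lit 571940) (.g (nat_lit 429) (.e (nat_lit 475207) (nat_lit 41) (.e (nat_lit 712755) (nat_lit 30) (.e (nat_lit 450596) (nat_lit 17) .nil))) (.g (nat_lit 0) (.e (nat_lit 353493) (nat_lit 0) .nil) .nil)))) (.nd (nat_lit 9) 
(.lf (nat_lit 571684) (.g (nat_lit 3870) (.e (nat_lit 475197) (nat_lit 40) (.e (nat_lit 704589) (nat_lit 3) (.e (nat_lit 163979) (nat_lit 30) (.e (nat_lit 573482) (nat_lit 13) (.e (nat_lit 65619) (nat_lit 10) (.e (nat_lit 344117) (nat_lit 21) (.e (nat_lit 516181) (nat_lit 15) .nil))))))) (.g (nat_lit 1) (.e (nat_lit 352609) (nat_lit 0) .nil) .nil))) 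
(.lf (nat_lit 572196) (.g (nat_lit 2122) (.e (nat_lit 483337) (nat_lit 9) (.e (nat_lit 426098) (nat_lit 1) (.e (nat_lit 164398) (nat_lit 256) (.e (nat_lit 57375) (nat_lit 2) (.e (nat_lit 90168) (nat_lit 13) .nil))))) (.g (nat_lit 0) (.e (nat_lit 354022) (nat_lit 0) .nil) .nil))))) (.nd (nat_lit 8) (.nd (nat_lit 9) 
(.lf (nat_lit 571556) (.g (nat_lit 606) (.e (nat_lit 475185) (nat_lit 29) (.e (nat_lit 557107) (nat_lit 15) (.e (nat_lit 188455) (nat_lit 24) .nil))) (.g (nat_lit 0) (.e (nat_lit 352385) (nat_lit 0) .nil) .nil))) 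
(.lf (nat_lit 572068) (.g (nat_lit 3004) (.e (nat_lit 475211) (nat_lit 41) (.e (nat_lit 712753) (nat_lit 30) (.e (nat_lit 450593) (nat_lit 16) (.e (nat_lit 655378) (nat_lit 4) (.e (nat_lit 172118) (nat_lit 12) .nil))))) (.g (nat_lit 1) (.e (nat_lit 353718) (nat_lit 0) .nil) .nil)))) (.nd (nat_lit 9) 
(.lf (nat_lit 571812) (.g (nat_lit 2046) (.e (nat_lit 475198) (nat_lit 40) (.e (nat_lit 704599) (nat_lit 6) (.e (nat_lit 188455) (nat_lit 24) (.e (nat_lit 229678) (nat_lit 244) (.e (nat_lit 163915) (nat_lit 12) (.e (nat_lit 426306) (nat_lit 12) .nil)))))) (.g (nat_lit 1) (.e (nat_lit 352965) (nat_lit 0) .nil) .nil))) 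
(.lf (nat_lit 572324) (.g (nat_lit 1572) (.e (nat_lit 483337) (nat_lit 9) (.e (nat_lit 426107) (nat_lit 1) (.e (nat_lit 164332) (nat_lit 230) (.e (nat_lit 163866) (nat_lit 2) .nil)))) (.g (nat_lit 0) (.e (nat_lit 354367) (nat_lit 0) .nil) .nil)))))) (.nd (nat_lit 7) (.nd (nat_lit 8) (.nd (nat_lit 9) 
(.lf (nat_lit 571492) (.g (nat_lit 1320) (.e (nat_lit 475185) (nat_lit 29) (.e (nat_lit 557101) (nat_lit 13) (.e (nat_lit 172115) (nat_lit 10) (.e (nat_lit 434244) (nat_lit 28) (.e (nat_lit 573450) (nat_lit 9) .nil))))) (.g (nat_lit 0) (.e (nat_lit 352311) (nat_lit 0) .nil) .nil))) 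
(.lf (nat_lit 572004) (.g (nat_lit 1506) (.e (nat_lit 475210) (nat_lit 41) (.e (nat_lit 712752) (nat_lit 29) (.e (nat_lit 442430) (nat_lit 24) (.e (nat_lit 229680) (nat_lit 244) (.e (nat_lit 163900) (nat_lit 12) .nil))))) (.g (nat_lit 0) (.e (nat_lit 353617) (nat_lit 0) .nil) .nil)))) (.nd (nat_lit 9) 
(.lf (nat_lit 571748) (.g (nat_lit 2860) (.e (nat_lit 475198) (nat_lit 40) (.e (nat_lit 704589) (nat_lit 3) (.e (nat_lit 163979) (nat_lit 30) (.e (nat_lit 573482) (nat_lit 13) (.e (nat_lit 65616) (nat_lit 10) (.e (nat_lit 344116) (nat_lit 21) (.e (nat_lit 516182) (nat_lit 15) .nil))))))) (.g (nat_lit 1) (.e (nat_lit 352790) (nat_lit 0) .nil) .nil))) 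
(.lf (nat_lit 572260) (.g (nat_lit 3152) (.e (nat_lit 483337) (nat_lit 9) (.e (nat_lit 426100) (nat_lit 1) (.e (nat_lit 164398) (nat_lit 256) (.e (nat_lit 57378) (nat_lit 3) (.e (nat_lit 98363) (nat_lit 26) (.e (nat_lit 426321) (nat_lit 13) .nil)))))) (.g (nat_lit 1) (.e (nat_lit 354097) (nat_lit 0) .nil) .nil))))) (.nd (nat_lit 8) (.nd (nat_lit 9) 
(.lf (nat_lit 571620) (.g (nat_lit 2286) (.e (nat_lit 475185) (nat_lit 29) (.e (nat_lit 557109) (nat_lit 15) (.e (nat_lit 188452) (nat_lit 23) (.e (nat_lit 204814) (nat_lit 17) (.e (nat_lit 6681) (nat_lit 357) .nil))))) (.g (nat_lit 0) (.e (nat_lit 352452) (nat_lit 0) .nil) .nil))) 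
(.lf (nat_lit 572132) (.g (nat_lit 1782) (.e (nat_lit 483336) (nat_lit 9) (.e (nat_lit 426098) (nat_lit 1) (.e (nat_lit 164399) (nat_lit 256) (.e (nat_lit 57378) (nat_lit 3) (.e (nat_lit 98363) (nat_lit 26) .nil))))) (.g (nat_lit 0) (.e (nat_lit 353884) (nat_lit 0) .nil) .nil)))) (.nd (nat_lit 9) 
(.lf (nat_lit 571876) (.g (nat_lit 1941) (.e (nat_lit 475199) (nat_lit 40) (.e (nat_lit 704589) (nat_lit 3) (.e (nat_lit 163979) (nat_lit 30) (.e (nat_lit 573491) (nat_lit 15) (.e (nat_lit 81946) (nat_lit 20) .nil))))) (.g (nat_lit 0) (.e (nat_lit 353226) (nat_lit 0) .nil) .nil))) 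
(.lf (nat_lit 572388) (.g (nat_lit 3499) (.e (nat_lit 483337) (nat_lit 9) (.e (nat_lit 426187) (nat_lit 9) (.e (nat_lit 426436) (nat_lit 18) (.e (nat_lit 98335) (nat_lit 18) (.e (nat_lit 164329) (nat_lit 230) (.e (nat_lit 163941) (nat_lit 19) .nil)))))) (.g (nat_lit 1) (.e (nat_lit 354518) (nat_lit 0) .nil) .nil)))))))) 
(.nd (nat_lit 5) (.nd (nat_lit 6) (.nd (nat_lit 7) (.nd (nat_lit 8) (.nd (nat_lit 9) 
(.lf (nat_lit 571412) (.g (nat_lit 3480) (.e (nat_lit 475185) (nat_lit 29) (.e (nat_lit 557100) (nat_lit 13) (.e (nat_lit 172113) (nat_lit 10) (.e (nat_lit 434248) (nat_lit 28) (.e (nat_lit 573452) (nat_lit 9) (.e (nat_lit 430) (nat_lit 32) (.e (nat_lit 426307) (nat_lit 12) .nil))))))) (.g (nat_lit 1) (.e (nat_lit 352230) (nat_lit 0) .nil) .nil))) 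
(.lf (nat_lit 571924) (.g (nat_lit 1767) (.e (nat_lit 475207) (nat_lit 41) (.e (nat_lit 712752) (nat_lit 29) (.e (nat_lit 442430) (nat_lit 24) (.e (nat_lit 229681) (nat_lit 244) (.e (nat_lit 163915) (nat_lit 12) .nil))))) (.g (nat_lit 0) (.e (nat_lit 353470) (nat_lit 0) .nil) .nil)))) (.nd (nat_lit 9) 
(.lf (nat_lit 571668) (.g (nat_lit 3643) (.e (nat_lit 475197) (nat_lit 40) (.e (nat_lit 704589) (nat_lit 3) (.e (nat_lit 163975) (nat_lit 30) (.e (nat_lit 573481) (nat_lit 13) (.e (nat_lit 65619) (nat_lit 10) (.e (nat_lit 344117) (nat_lit 21) (.e (nat_lit 516178) (nat_lit 15) .nil))))))) (.g (nat_lit 1) (.e (nat_lit 352545) (nat_lit 0) .nil) .nil))) 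
(.lf (nat_lit 572180) (.g (nat_lit 260) (.e (nat_lit 483337) (nat_lit 9) (.e (nat_lit 426098) (nat_lit 1) (.e (nat_lit 164325) (nat_lit 230) .nil))) (.g (nat_lit 0) (.e (nat_lit 353992) (nat_lit 0) .nil) .nil))))) (.nd (nat_lit 8) (.nd (nat_lit 9) 
(.lf (nat_lit 571540) (.g (nat_lit 2701) (.e (nat_lit 475185) (nat_lit 29) (.e (nat_lit 557107) (nat_lit 15) (.e (nat_lit 188450) (nat_lit 23) (.e (nat_lit 204816) (nat_lit 17) (.e (nat_lit 6619) (nat_lit 357) (.e (nat_lit 3071) (nat_lit 190) .nil)))))) (.g (nat_lit 1) (.e (nat_lit 352369) (nat_lit 0) .nil) .nil))) 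
(.lf (nat_lit 572052) (.g (nat_lit 893) (.e (nat_lit 475211) (nat_lit 41) (.e (nat_lit 712753) (nat_lit 30) (.e (nat_lit 450561) (nat_lit 0) (.e (nat_lit 5539) (nat_lit 306) .nil)))) (.g (nat_lit 0) (.e (nat_lit 353701) (nat_lit 0) .nil) .nil)))) (.nd (nat_lit 9) 
(.lf (nat_lit 571796) (.g (nat_lit 2602) (.e (nat_lit 475198) (nat_lit 40) (.e (nat_lit 704598) (nat_lit 6) (.e (nat_lit 188453) (nat_lit 24) (.e (nat_lit 229666) (nat_lit 240) (.e (nat_lit 2630) (nat_lit 164) (.e (nat_lit 172118) (nat_lit 12) .nil)))))) (.g (nat_lit 1) (.e (nat_lit 352947) (nat_lit 0) .nil) .nil))) 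
(.lf (nat_lit 572308) (.g (nat_lit 2374) (.e (nat_lit 483337) (nat_lit 9) (.e (nat_lit 426107) (nat_lit 1) (.e (nat_lit 164326) (nat_lit 230) (.e (nat_lit 163870) (nat_lit 2) (.e (nat_lit 196656) (nat_lit 11) .nil))))) (.g (nat_lit 0) (.e (nat_lit 354262) (nat_lit 0) .nil) .nil)))))) (.nd (nat_lit 7) (.nd (nat_lit 8) (.nd (nat_lit 9) 
(.lf (nat_lit 571476) (.g (nat_lit 1318) (.e (nat_lit 475185) (nat_lit 29) (.e (nat_lit 557101) (nat_lit 13) (.e (nat_lit 172115) (nat_lit 10) (.e (nat_lit 434237) (nat_lit 25) .nil)))) (.g (nat_lit 0) (.e (nat_lit 352295) (nat_lit 0) .nil) .nil))) 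
(.lf (nat_lit 571988) (.g (nat_lit 2900) (.e (nat_lit 475210) (nat_lit 41) (.e (nat_lit 712750) (nat_lit 29) (.e (nat_lit 442374) (nat_lit 0) (.e (nat_lit 2175) (nat_lit 143) (.e (nat_lit 712745) (nat_lit 27) (.e (nat_lit 433920) (nat_lit 12) .nil)))))) (.g (nat_lit 1) (.e (nat_lit 353579) (nat_lit 0) .nil) .nil)))) (.nd (nat_lit 9) 
(.lf (nat_lit 571732) (.g (nat_lit 1848) (.e (nat_lit 475198) (nat_lit 40) (.e (nat_lit 704589) (nat_lit 3) (.e (nat_lit 163976) (nat_lit 30) (.e (nat_lit 573491) (nat_lit 15) (.e (nat_lit 89856) (nat_lit 23) (.e (nat_lit 98386) (nat_lit 32) .nil)))))) (.g (nat_lit 1) (.e (nat_lit 352730) (nat_lit 0) .nil) .nil))) 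
(.lf (nat_lit 572244) (.g (nat_lit 1145) (.e (nat_lit 483337) (nat_lit 9) (.e (nat_lit 426100) (nat_lit 1) (.e (nat_lit 164398) (nat_lit 256) (.e (nat_lit 57370) (nat_lit 2) .nil)))) (.g (nat_lit 0) (.e (nat_lit 354081) (nat_lit 0) .nil) .nil))))) (.nd (nat_lit 8) (.nd (nat_lit 9) 
(.lf (nat_lit 571604) (.g (nat_lit 5438) (.e (nat_lit 475185) (nat_lit 29) (.e (nat_lit 557109) (nat_lit 15) (.e (nat_lit 188449) (nat_lit 22) (.e (nat_lit 196684) (nat_lit 18) .nil)))) (.g (nat_lit 0) (.e (nat_lit 352436) (nat_lit 0) .nil) .nil))) 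
(.lf (nat_lit 572116) (.g (nat_lit 2936) (.e (nat_lit 475219) (nat_lit 44) (.e (nat_lit 737318) (nat_lit 15) (.e (nat_lit 49188) (nat_lit 11) (.e (nat_lit 16425) (nat_lit 7) (.e (nat_lit 409646) (nat_lit 18) (.e (nat_lit 303143) (nat_lit 12) .nil)))))) (.g (nat_lit 1) (.e (nat_lit 353802) (nat_lit 0) .nil) .nil)))) (.nd (nat_lit 9) 
(.lf (nat_lit 571860) (.g (nat_lit 4115) (.e (nat_lit 475199) (nat_lit 40) (.e (nat_lit 704589) (nat_lit 3) (.e (nat_lit 163979) (nat_lit 30) (.e (nat_lit 573482) (nat_lit 13) (.e (nat_lit 65604) (nat_lit 9) (.e (nat_lit 336028) (nat_lit 3) (.e (nat_lit 106240) (nat_lit 32) .nil))))))) (.g (nat_lit 1) (.e (nat_lit 353204) (nat_lit 0) .nil) .nil))) 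
(.lf (nat_lit 572372) (.g (nat_lit 1717) (.e (nat_lit 483337) (nat_lit 9) (.e (nat_lit 426108) (nat_lit 1) (.e (nat_lit 164403) (nat_lit 256) (.e (nat_lit 57369) (nat_lit 2) .nil)))) (.g (nat_lit 0) (.e (nat_lit 354491) (nat_lit 0) .nil) .nil))))))) (.nd (nat_lit 6) (.nd (nat_lit 7) (.nd (nat_lit 8) (.nd (nat_lit 9) 
(.lf (nat_lit 571444) (.g (nat_lit 3793) (.e (nat_lit 475185) (nat_lit 29) (.e (nat_lit 557101) (nat_lit 13) (.e (nat_lit 172097) (nat_lit 9) (.e (nat_lit 426125) (nat_lit 2) (.e (nat_lit 196661) (nat_lit 12) (.e (nat_lit 57751) (nat_lit 201) (.e (nat_lit 3064) (nat_lit 190) .nil))))))) (.g (nat_lit 1) (.e (nat_lit 352262) (nat_lit 0) .nil) .nil))) 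
(.lf (nat_lit 571956) (.g (nat_lit 540) (.e (nat_lit 475209) (nat_lit 41) (.e (nat_lit 712752) (nat_lit 29) (.e (nat_lit 450304) (nat_lit 4) .nil))) (.g (nat_lit 0) (.e (nat_lit 353524) (nat_lit 0) .nil) .nil)))) (.nd (nat_lit 9) 
(.lf (nat_lit 571700) (.g (nat_lit 2068) (.e (nat_lit 475197) (nat_lit 40) (.e (nat_lit 704593) (nat_lit 4) (.e (nat_lit 172082) (nat_lit 7) (.e (nat_lit 409649) (nat_lit 18) (.e (nat_lit 311040) (nat_lit 35) .nil))))) (.g (nat_lit 0) (.e (nat_lit 352658) (nat_lit 0) .nil) .nil))) 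
(.lf (nat_lit 572212) (.g (nat_lit 722) (.e (nat_lit 483337) (nat_lit 9) (.e (nat_lit 426098) (nat_lit 1) (.e (nat_lit 164401) (nat_lit 256) .nil))) (.g (nat_lit 0) (.e (nat_lit 354038) (nat_lit 0) .nil) .nil))))) (.nd (nat_lit 8) (.nd (nat_lit 9) 
(.lf (nat_lit 571572) (.g (nat_lit 1740) (.e (nat_lit 475185) (nat_lit 29) (.e (nat_lit 557109) (nat_lit 15) (.e (nat_lit 188433) (nat_lit 20) (.e (nat_lit 3111) (nat_lit 193) .nil)))) (.g (nat_lit 0) (.e (nat_lit 352402) (nat_lit 0) .nil) .nil))) 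
(.lf (nat_lit 572084) (.g (nat_lit 2699) (.e (nat_lit 475211) (nat_lit 41) (.e (nat_lit 712755) (nat_lit 30) (.e (nat_lit 450568) (nat_lit 0) (.e (nat_lit 5448) (nat_lit 306) (.e (nat_lit 2630) (nat_lit 164) (.e (nat_lit 172118) (nat_lit 12) .nil)))))) (.g (nat_lit 1) (.e (nat_lit 353745) (nat_lit 0) .nil) .nil)))) (.nd (nat_lit 9) 
(.lf (nat_lit 571828) (.g (nat_lit 2995) (.e (nat_lit 475199) (nat_lit 40) (.e (nat_lit 704589) (nat_lit 3) (.e (nat_lit 163975) (nat_lit 30) (.e (nat_lit 573491) (nat_lit 15) (.e (nat_lit 81954) (nat_lit 23) (.e (nat_lit 106240) (nat_lit 32) .nil)))))) (.g (nat_lit 1) (.e (nat_lit 352991) (nat_lit 0) .nil) .nil))) 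
(.lf (nat_lit 572340) (.g (nat_lit 2349) (.e (nat_lit 483337) (nat_lit 9) (.e (nat_lit 426107) (nat_lit 1) (.e (nat_lit 164403) (nat_lit 256) (.e (nat_lit 57373) (nat_lit 2) (.e (nat_lit 90169) (nat_lit 13) (.e (nat_lit 172121) (nat_lit 13) .nil)))))) (.g (nat_lit 1) (.e (nat_lit 354386) (nat_lit 0) .nil) .nil)))))) (.nd (nat_lit 7) (.nd (nat_lit 8) (.nd (nat_lit 9) 
(.lf (nat_lit 571508) (.g (nat_lit 4073) (.e (nat_lit 475185) (nat_lit 29) (.e (nat_lit 557101) (nat_lit 13) (.e (nat_lit 172115) (nat_lit 10) (.e (nat_lit 434244) (nat_lit 28) (.e (nat_lit 573458) (nat_lit 9) (.e (nat_lit 426) (nat_lit 32) (.e (nat_lit 426308) (nat_lit 12) .nil))))))) (.g (nat_lit 1) (.e (nat_lit 352327) (nat_lit 0) .nil) .nil))) 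
(.lf (nat_lit 572020) (.g (nat_lit 2028) (.e (nat_lit 475211) (nat_lit 41) (.e (nat_lit 712745) (nat_lit 27) (.e (nat_lit 426163) (nat_lit 6) (.e (nat_lit 253962) (nat_lit 9) (.e (nat_lit 1277) (nat_lit 94) .nil))))) (.g (nat_lit 0) (.e (nat_lit 353651) (nat_lit 0) .nil) .nil)))) (.nd (nat_lit 9) 
(.lf (nat_lit 571764) (.g (nat_lit 5161) (.e (nat_lit 475198) (nat_lit 40) (.e (nat_lit 704589) (nat_lit 3) (.e (nat_lit 163979) (nat_lit 30) (.e (nat_lit 573493) (nat_lit 15) (.e (nat_lit 81956) (nat_lit 23) (.e (nat_lit 98385) (nat_lit 32) .nil)))))) (.g (nat_lit 1) (.e (nat_lit 352853) (nat_lit 0) .nil) .nil))) 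
(.lf (nat_lit 572276) (.g (nat_lit 2279) (.e (nat_lit 483337) (nat_lit 9) (.e (nat_lit 426100) (nat_lit 1) (.e (nat_lit 164403) (nat_lit 256) (.e (nat_lit 57370) (nat_lit 2) (.e (nat_lit 90168) (nat_lit 13) .nil))))) (.g (nat_lit 0) (.e (nat_lit 354113) (nat_lit 0) .nil) .nil))))) (.nd (nat_lit 8) (.nd (nat_lit 9) 
(.lf (nat_lit 571636) (.g (nat_lit 4057) (.e (nat_lit 475185) (nat_lit 29) (.e (nat_lit 557109) (nat_lit 15) (.e (nat_lit 188452) (nat_lit 23) (.e (nat_lit 204885) (nat_lit 33) (.e (nat_lit 409344) (nat_lit 12) .nil))))) (.g (nat_lit 1) (.e (nat_lit 352468) (nat_lit 0) .nil) .nil))) 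
(.lf (nat_lit 572148) (.g (nat_lit 615) (.e (nat_lit 483336) (nat_lit 9) (.e (nat_lit 426100) (nat_lit 1) (.e (nat_lit 164399) (nat_lit 256) .nil))) (.g (nat_lit 0) (.e (nat_lit 353908) (nat_lit 0) .nil) .nil)))) (.nd (nat_lit 9) 
(.lf (nat_lit 571892) (.g (nat_lit 1761) (.e (nat_lit 475199) (nat_lit 40) (.e (nat_lit 704592) (nat_lit 4) (.e (nat_lit 172126) (nat_lit 14) (.e (nat_lit 491550) (nat_lit 9) (.e (nat_lit 336375) (nat_lit 27) .nil))))) (.g (nat_lit 0) (.e (nat_lit 353382) (nat_lit 0) .nil) .nil))) 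
(.lf (nat_lit 572404) (.g (nat_lit 3766) (.e (nat_lit 483337) (nat_lit 9) (.e (nat_lit 426200) (nat_lit 9) (.e (nat_lit 426436) (nat_lit 18) (.e (nat_lit 98335) (nat_lit 18) (.e (nat_lit 164324) (nat_lit 230) (.e (nat_lit 163941) (nat_lit 19) .nil)))))) (.g (nat_lit 1) (.e (nat_lit 354580) (nat_lit 0) .nil) .nil))))))))) 
(.nd (nat_lit 4) (.nd (nat_lit 5) (.nd (nat_lit 6) (.nd (nat_lit 7) (.nd (nat_lit 8) 
(.nd (nat_lit 9) 
(.lf (nat_lit 571404) (.g (nat_lit 3584) (.e (nat_lit 475185) (nat_lit 29) (.e (nat_lit 557100) (nat_lit 13) (.e (nat_lit 172113) (nat_lit 10) (.e (nat_lit 434245) (nat_lit 28) (.e (nat_lit 573474) (nat_lit 12) (.e (nat_lit 57567) (nat_lit 52) (.e (nat_lit 753672) (nat_lit 5) (.e (nat_lit 3071) (nat_lit 190) .nil)))))))) (.g (nat_lit 1) (.e (nat_lit 352222) (nat_lit 0) .nil) .nil))) 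
(.lf (nat_lit 571916) (.g (nat_lit 354) (.e (nat_lit 475207) (nat_lit 41) (.e (nat_lit 712750) (nat_lit 29) (.e (nat_lit 450304) (nat_lit 0) .nil))) (.g (nat_lit 0) (.e (nat_lit 353458) (nat_lit 0) .nil) .nil)))) (.nd (nat_lit 9) 
(.lf (nat_lit 571660) (.g (nat_lit 2594) (.e (nat_lit 475196) (nat_lit 40) (.e (nat_lit 704590) (nat_lit 3) (.e (nat_lit 163975) (nat_lit 30) (.e (nat_lit 573481) (nat_lit 13) (.e (nat_lit 65604) (nat_lit 9) (.e (nat_lit 336028) (nat_lit 3) (.e (nat_lit 106240) (nat_lit 32) .nil))))))) (.g (nat_lit 1) (.e (nat_lit 352526) (nat_lit 0) .nil) .nil))) 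
(.lf (nat_lit 572172) (.g (nat_lit 2006) (.e (nat_lit 483336) (nat_lit 9) (.e (nat_lit 426108) (nat_lit 1) (.e (nat_lit 164332) (nat_lit 230) (.e (nat_lit 163867) (nat_lit 2) (.e (nat_lit 196654) (nat_lit 11) .nil))))) (.g (nat_lit 0) (.e (nat_lit 353963) (nat_lit 0) .nil) .nil))))) (.nd (nat_lit 8) (.nd (nat_lit 9) 
(.lf (nat_lit 571532) (.g (nat_lit 1046) (.e (nat_lit 475185) (nat_lit 29) (.e (nat_lit 557107) (nat_lit 15) (.e (nat_lit 188440) (nat_lit 20) (.e (nat_lit 3255) (nat_lit 197) .nil)))) (.g (nat_lit 0) (.e (nat_lit 352361) (nat_lit 0) .nil) .nil))) 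
(.lf (nat_lit 572044) (.g (nat_lit 2964) (.e (nat_lit 475211) (nat_lit 41) (.e (nat_lit 712752) (nat_lit 29) (.e (nat_lit 442430) (nat_lit 24) (.e (nat_lit 229665) (nat_lit 240) (.e (nat_lit 2630) (nat_lit 164) (.e (nat_lit 172118) (nat_lit 12) .nil)))))) (.g (nat_lit 1) (.e (nat_lit 353693) (nat_lit 0) .nil) .nil)))) (.nd (nat_lit 9) 
(.lf (nat_lit 571788) (.g (nat_lit 283) (.e (nat_lit 475198) (nat_lit 40) (.e (nat_lit 704595) (nat_lit 5) (.e (nat_lit 188160) (nat_lit 32) .nil))) (.g (nat_lit 0) (.e (nat_lit 352936) (nat_lit 0) .nil) .nil))) 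
(.lf (nat_lit 572300) (.g (nat_lit 342) (.e (nat_lit 483337) (nat_lit 9) (.e (nat_lit 426107) (nat_lit 1) (.e (nat_lit 164326) (nat_lit 230) .nil))) (.g (nat_lit 0) (.e (nat_lit 354185) (nat_lit 0) .nil) .nil)))))) (.nd (nat_lit 7) (.nd (nat_lit 8) (.nd (nat_lit 9) 
(.lf (nat_lit 571468) (.g (nat_lit 1570) (.e (nat_lit 475185) (nat_lit 29) (.e (nat_lit 557101) (nat_lit 13) (.e (nat_lit 172115) (nat_lit 10) (.e (nat_lit 434231) (nat_lit 23) (.e (nat_lit 532490) (nat_lit 0) .nil))))) (.g (nat_lit 0) (.e (nat_lit 352287) (nat_lit 0) .nil) .nil))) 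
(.lf (nat_lit 571980) (.g (nat_lit 1899) (.e (nat_lit 475210) (nat_lit 41) (.e (nat_lit 712745) (nat_lit 27) (.e (nat_lit 425984) (nat_lit 0) (.e (nat_lit 7586) (nat_lit 406) (.e (nat_lit 65653) (nat_lit 27) (.e (nat_lit 433920) (nat_lit 12) .nil)))))) (.g (nat_lit 1) (.e (nat_lit 353564) (nat_lit 0) .nil) .nil)))) (.nd (nat_lit 9) 
(.lf (nat_lit 571724) (.g (nat_lit 2891) (.e (nat_lit 475198) (nat_lit 40) (.e (nat_lit 704589) (nat_lit 3) (.e (nat_lit 163976) (nat_lit 30) (.e (nat_lit 573481) (nat_lit 13) (.e (nat_lit 65604) (nat_lit 9) (.e (nat_lit 336013) (nat_lit 2) (.e (nat_lit 90134) (nat_lit 9) (.e (nat_lit 3063) (nat_lit 190) .nil)))))))) (.g (nat_lit 1) (.e (nat_lit 352721) (nat_lit 0) .nil) .nil))) 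
(.lf (nat_lit 572236) (.g (nat_lit 1646) (.e (nat_lit 483337) (nat_lit 9) (.e (nat_lit 426099) (nat_lit 1) (.e (nat_lit 164399) (nat_lit 256) (.e (nat_lit 57378) (nat_lit 3) (.e (nat_lit 98362) (nat_lit 26) (.e (nat_lit 426329) (nat_lit 13) .nil)))))) (.g (nat_lit 1) (.e (nat_lit 354062) (nat_lit 0) .nil) .nil))))) (.nd (nat_lit 8) (.nd (nat_lit 9) 
(.lf (nat_lit 571596) (.g (nat_lit 3329) (.e (nat_lit 475185) (nat_lit 29) (.e (nat_lit 557109) (nat_lit 15) (.e (nat_lit 188449) (nat_lit 22) (.e (nat_lit 196661) (nat_lit 12) (.e (nat_lit 57750) (nat_lit 201) (.e (nat_lit 3064) (nat_lit 190) .nil)))))) (.g (nat_lit 1) (.e (nat_lit 352428) (nat_lit 0) .nil) .nil))) 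
(.lf (nat_lit 572108) (.g (nat_lit 1931) (.e (nat_lit 475214) (nat_lit 42) (.e (nat_lit 720931) (nat_lit 21) (.e (nat_lit 57926) (nat_lit 282) (.e (nat_lit 163933) (nat_lit 17) (.e (nat_lit 466981) (nat_lit 23) .nil))))) (.g (nat_lit 0) (.e (nat_lit 353791) (nat_lit 0) .nil) .nil)))) (.nd (nat_lit 9) 
(.lf (nat_lit 571852) (.g (nat_lit 3079) (.e (nat_lit 475199) (nat_lit 40) (.e (nat_lit 704589) (nat_lit 3) (.e (nat_lit 163978) (nat_lit 30) (.e (nat_lit 573485) (nat_lit 13) (.e (nat_lit 65619) (nat_lit 10) (.e (nat_lit 344119) (nat_lit 21) (.e (nat_lit 516182) (nat_lit 15) .nil))))))) (.g (nat_lit 1) (.e (nat_lit 353189) (nat_lit 0) .nil) .nil))) 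
(.lf (nat_lit 572364) (.g (nat_lit 2038) (.e (nat_lit 483337) (nat_lit 9) (.e (nat_lit 426108) (nat_lit 1) (.e (nat_lit 164401) (nat_lit 256) (.e (nat_lit 57377) (nat_lit 3) (.e (nat_lit 98362) (nat_lit 26) .nil))))) (.g (nat_lit 0) (.e (nat_lit 354483) (nat_lit 0) .nil) .nil))))))) (.nd (nat_lit 6) (.nd (nat_lit 7) (.nd (nat_lit 8) (.nd (nat_lit 9) 
(.lf (nat_lit 571436) (.g (nat_lit 907) (.e (nat_lit 475185) (nat_lit 29) (.e (nat_lit 557100) (nat_lit 13) (.e (nat_lit 172118) (nat_lit 12) (.e (nat_lit 475185) (nat_lit 29) .nil)))) (.g (nat_lit 0) (.e (nat_lit 352254) (nat_lit 0) .nil) .nil))) 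
(.lf (nat_lit 571948) (.g (nat_lit 1257) (.e (nat_lit 475208) (nat_lit 41) (.e (nat_lit 712755) (nat_lit 30) (.e (nat_lit 450563) (nat_lit 0) (.e (nat_lit 5539) (nat_lit 306) .nil)))) (.g (nat_lit 0) (.e (nat_lit 353507) (nat_lit 0) .nil) .nil)))) (.nd (nat_lit 9) 
(.lf (nat_lit 571692) (.g (nat_lit 4739) (.e (nat_lit 475197) (nat_lit 40) (.e (nat_lit 704589) (nat_lit 3) (.e (nat_lit 163979) (nat_lit 30) (.e (nat_lit 573493) (nat_lit 15) (.e (nat_lit 81956) (nat_lit 23) (.e (nat_lit 98385) (nat_lit 32) .nil)))))) (.g (nat_lit 1) (.e (nat_lit 352633) (nat_lit 0) .nil) .nil))) 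
(.lf (nat_lit 572204) (.g (nat_lit 2250) (.e (nat_lit 483337) (nat_lit 9) (.e (nat_lit 426098) (nat_lit 1) (.e (nat_lit 164398) (nat_lit 256) (.e (nat_lit 57379) (nat_lit 3) (.e (nat_lit 98362) (nat_lit 26) .nil))))) (.g (nat_lit 0) (.e (nat_lit 354030) (nat_lit 0) .nil) .nil))))) (.nd (nat_lit 8) (.nd (nat_lit 9) 
(.lf (nat_lit 571564) (.g (nat_lit 248) (.e (nat_lit 475185) (nat_lit 29) (.e (nat_lit 557108) (nat_lit 15) (.e (nat_lit 188452) (nat_lit 23) .nil))) (.g (nat_lit 0) (.e (nat_lit 352393) (nat_lit 0) .nil) .nil))) 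
(.lf (nat_lit 572076) (.g (nat_lit 1186) (.e (nat_lit 475211) (nat_lit 41) (.e (nat_lit 712755) (nat_lit 30) (.e (nat_lit 450563) (nat_lit 0) (.e (nat_lit 7936) (nat_lit 306) .nil)))) (.g (nat_lit 0) (.e (nat_lit 353736) (nat_lit 0) .nil) .nil)))) (.nd (nat_lit 9) 
(.lf (nat_lit 571820) (.g (nat_lit 2852) (.e (nat_lit 475199) (nat_lit 40) (.e (nat_lit 704589) (nat_lit 3) (.e (nat_lit 163975) (nat_lit 30) (.e (nat_lit 573481) (nat_lit 13) (.e (nat_lit 65619) (nat_lit 10) (.e (nat_lit 344119) (nat_lit 21) (.e (nat_lit 516182) (nat_lit 15) .nil))))))) (.g (nat_lit 1) (.e (nat_lit 352977) (nat_lit 0) .nil) .nil))) 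
(.lf (nat_lit 572332) (.g (nat_lit 2363) (.e (nat_lit 483337) (nat_lit 9) (.e (nat_lit 426107) (nat_lit 1) (.e (nat_lit 164401) (nat_lit 256) (.e (nat_lit 57373) (nat_lit 2) (.e (nat_lit 90167) (nat_lit 13) (.e (nat_lit 172123) (nat_lit 13) .nil)))))) (.g (nat_lit 1) (.e (nat_lit 354378) (nat_lit 0) .nil) .nil)))))) (.nd (nat_lit 7) (.nd (nat_lit 8) (.nd (nat_lit 9) 
(.lf (nat_lit 571500) (.g (nat_lit 2991) (.e (nat_lit 475185) (nat_lit 29) (.e (nat_lit 557101) (nat_lit 13) (.e (nat_lit 172115) (nat_lit 10) (.e (nat_lit 434244) (nat_lit 28) (.e (nat_lit 573450) (nat_lit 9) (.e (nat_lit 414) (nat_lit 32) (.e (nat_lit 426312) (nat_lit 12) .nil))))))) (.g (nat_lit 1) (.e (nat_lit 352319) (nat_lit 0) .nil) .nil))) 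
(.lf (nat_lit 572012) (.g (nat_lit 1460) (.e (nat_lit 475210) (nat_lit 41) (.e (nat_lit 712755) (nat_lit 30) (.e (nat_lit 450562) (nat_lit 0) (.e (nat_lit 5537) (nat_lit 306) .nil)))) (.g (nat_lit 0) (.e (nat_lit 353628) (nat_lit 0) .nil) .nil)))) (.nd (nat_lit 9) 
(.lf (nat_lit 571756) (.g (nat_lit 3534) (.e (nat_lit 475198) (nat_lit 40) (.e (nat_lit 704589) (nat_lit 3) (.e (nat_lit 163979) (nat_lit 30) (.e (nat_lit 573491) (nat_lit 15) (.e (nat_lit 81946) (nat_lit 20) (.e (nat_lit 1802) (nat_lit 119) (.e (nat_lit 516182) (nat_lit 15) .nil))))))) (.g (nat_lit 1) (.e (nat_lit 352799) (nat_lit 0) .nil) .nil))) 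
(.lf (nat_lit 572268) (.g (nat_lit 2015) (.e (nat_lit 483337) (nat_lit 9) (.e (nat_lit 426100) (nat_lit 1) (.e (nat_lit 164399) (nat_lit 256) (.e (nat_lit 57372) (nat_lit 2) (.e (nat_lit 90169) (nat_lit 13) (.e (nat_lit 172121) (nat_lit 13) .nil)))))) (.g (nat_lit 1) (.e (nat_lit 354105) (nat_lit 0) .nil) .nil))))) (.nd (nat_lit 8) (.nd (nat_lit 9) 
(.lf (nat_lit 571628) (.g (nat_lit 3644) (.e (nat_lit 475185) (nat_lit 29) (.e (nat_lit 557109) (nat_lit 15) (.e (nat_lit 188452) (nat_lit 23) (.e (nat_lit 204825) (nat_lit 17) (.e (nat_lit 6655) (nat_lit 357) .nil))))) (.g (nat_lit 0) (.e (nat_lit 352460) (nat_lit 0) .nil) .nil))) 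
(.lf (nat_lit 572140) (.g (nat_lit 1515) (.e (nat_lit 483336) (nat_lit 9) (.e (nat_lit 426100) (nat_lit 1) (.e (nat_lit 164398) (nat_lit 256) (.e (nat_lit 57372) (nat_lit 2) .nil)))) (.g (nat_lit 0) (.e (nat_lit 353900) (nat_lit 0) .nil) .nil)))) (.nd (nat_lit 9) 
(.lf (nat_lit 571884) (.g (nat_lit 4729) (.e (nat_lit 475199) (nat_lit 40) (.e (nat_lit 704589) (nat_lit 3) (.e (nat_lit 163979) (nat_lit 30) (.e (nat_lit 573493) (nat_lit 15) (.e (nat_lit 81956) (nat_lit 23) (.e (nat_lit 106240) (nat_lit 32) .nil)))))) (.g (nat_lit 1) (.e (nat_lit 353328) (nat_lit 0) .nil) .nil))) 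
(.lf (nat_lit 572396) (.g (nat_lit 3743) (.e (nat_lit 483337) (nat_lit 9) (.e (nat_lit 426189) (nat_lit 9) (.e (nat_lit 426436) (nat_lit 18) (.e (nat_lit 98335) (nat_lit 18) (.e (nat_lit 164326) (nat_lit 230) (.e (nat_lit 163941) (nat_lit 19) .nil)))))) (.g (nat_lit 1) (.e (nat_lit 354541) (nat_lit 0) .nil) .nil)))))))) 
(.nd (nat_lit 5) (.nd (nat_lit 6) (.nd (nat_lit 7) (.nd (nat_lit 8) (.nd (nat_lit 9) 
(.lf (nat_lit 571420) (.g (nat_lit 3181) (.e (nat_lit 475185) (nat_lit 29) (.e (nat_lit 557100) (nat_lit 13) (.e (nat_lit 172113) (nat_lit 10) (.e (nat_lit 434248) (nat_lit 28) (.e (nat_lit 573473) (nat_lit 12) (.e (nat_lit 57348) (nat_lit 0) (.e (nat_lit 6938) (nat_lit 375) (.e (nat_lit 163939) (nat_lit 18) .nil)))))))) (.g (nat_lit 1) (.e (nat_lit 352238) (nat_lit 0) .nil) .nil))) 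
(.lf (nat_lit 571932) (.g (nat_lit 891) (.e (nat_lit 475207) (nat_lit 41) (.e (nat_lit 712755) (nat_lit 30) (.e (nat_lit 450562) (nat_lit 0) (.e (nat_lit 7936) (nat_lit 310) .nil)))) (.g (nat_lit 0) (.e (nat_lit 353480) (nat_lit 0) .nil) .nil)))) (.nd (nat_lit 9) 
(.lf (nat_lit 571676) (.g (nat_lit 1561) (.e (nat_lit 475197) (nat_lit 40) (.e (nat_lit 704589) (nat_lit 3) (.e (nat_lit 163976) (nat_lit 30) (.e (nat_lit 573492) (nat_lit 15) (.e (nat_lit 81954) (nat_lit 23) .nil))))) (.g (nat_lit 0) (.e (nat_lit 352588) (nat_lit 0) .nil) .nil))) 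
(.lf (nat_lit 572188) (.g (nat_lit 2233) (.e (nat_lit 483337) (nat_lit 9) (.e (nat_lit 426098) (nat_lit 1) (.e (nat_lit 164398) (nat_lit 256) (.e (nat_lit 57372) (nat_lit 2) (.e (nat_lit 90168) (nat_lit 13) .nil))))) (.g (nat_lit 0) (.e (nat_lit 354014) (nat_lit 0) .nil) .nil))))) (.nd (nat_lit 8) (.nd (nat_lit 9) 
(.lf (nat_lit 571548) (.g (nat_lit 2392) (.e (nat_lit 475185) (nat_lit 29) (.e (nat_lit 557107) (nat_lit 15) (.e (nat_lit 188450) (nat_lit 23) (.e (nat_lit 204885) (nat_lit 33) (.e (nat_lit 409344) (nat_lit 12) .nil))))) (.g (nat_lit 1) (.e (nat_lit 352377) (nat_lit 0) .nil) .nil))) 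
(.lf (nat_lit 572060) (.g (nat_lit 2272) (.e (nat_lit 475211) (nat_lit 41) (.e (nat_lit 712753) (nat_lit 30) (.e (nat_lit 450568) (nat_lit 0) (.e (nat_lit 5448) (nat_lit 306) (.e (nat_lit 2725) (nat_lit 172) (.e (nat_lit 237619) (nat_lit 12) .nil)))))) (.g (nat_lit 1) (.e (nat_lit 353709) (nat_lit 0) .nil) .nil)))) (.nd (nat_lit 9) 
(.lf (nat_lit 571804) (.g (nat_lit 2725) (.e (nat_lit 475198) (nat_lit 40) (.e (nat_lit 704599) (nat_lit 6) (.e (nat_lit 188453) (nat_lit 24) (.e (nat_lit 229678) (nat_lit 244) (.e (nat_lit 163913) (nat_lit 12) (.e (nat_lit 426318) (nat_lit 12) .nil)))))) (.g (nat_lit 1) (.e (nat_lit 352956) (nat_lit 0) .nil) .nil))) 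
(.lf (nat_lit 572316) (.g (nat_lit 1292) (.e (nat_lit 483337) (nat_lit 9) (.e (nat_lit 426107) (nat_lit 1) (.e (nat_lit 164327) (nat_lit 230) (.e (nat_lit 163866) (nat_lit 2) .nil)))) (.g (nat_lit 0) (.e (nat_lit 354327) (nat_lit 0) .nil) .nil)))))) (.nd (nat_lit 7) (.nd (nat_lit 8) (.nd (nat_lit 9) 
(.lf (nat_lit 571484) (.g (nat_lit 4724) (.e (nat_lit 475185) (nat_lit 29) (.e (nat_lit 557101) (nat_lit 13) (.e (nat_lit 172115) (nat_lit 10) (.e (nat_lit 434238) (nat_lit 25) (.e (nat_lit 548913) (nat_lit 18) (.e (nat_lit 172119) (nat_lit 12) .nil)))))) (.g (nat_lit 1) (.e (nat_lit 352303) (nat_lit 0) .nil) .nil))) 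
(.lf (nat_lit 571996) (.g (nat_lit 2531) (.e (nat_lit 475210) (nat_lit 41) (.e (nat_lit 712752) (nat_lit 29) (.e (nat_lit 442421) (nat_lit 21) (.e (nat_lit 164348) (nat_lit 240) (.e (nat_lit 2629) (nat_lit 164) .nil))))) (.g (nat_lit 0) (.e (nat_lit 353608) (nat_lit 0) .nil) .nil)))) (.nd (nat_lit 9) 
(.lf (nat_lit 571740) (.g (nat_lit 3865) (.e (nat_lit 475198) (nat_lit 40) (.e (nat_lit 704589) (nat_lit 3) (.e (nat_lit 163978) (nat_lit 30) (.e (nat_lit 573485) (nat_lit 13) (.e (nat_lit 65619) (nat_lit 10) (.e (nat_lit 344117) (nat_lit 21) (.e (nat_lit 516181) (nat_lit 15) .nil))))))) (.g (nat_lit 1) (.e (nat_lit 352779) (nat_lit 0) .nil) .nil))) 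
(.lf (nat_lit 572252) (.g (nat_lit 2869) (.e (nat_lit 483337) (nat_lit 9) (.e (nat_lit 426100) (nat_lit 1) (.e (nat_lit 164398) (nat_lit 256) (.e (nat_lit 57373) (nat_lit 2) (.e (nat_lit 90169) (nat_lit 13) (.e (nat_lit 172122) (nat_lit 13) .nil)))))) (.g (nat_lit 1) (.e (nat_lit 354089) (nat_lit 0) .nil) .nil))))) (.nd (nat_lit 8) (.nd (nat_lit 9) 
(.lf (nat_lit 571612) (.g (nat_lit 5179) (.e (nat_lit 475185) (nat_lit 29) (.e (nat_lit 557109) (nat_lit 15) (.e (nat_lit 188449) (nat_lit 22) (.e (nat_lit 196693) (nat_lit 18) .nil)))) (.g (nat_lit 0) (.e (nat_lit 352444) (nat_lit 0) .nil) .nil))) 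
(.lf (nat_lit 572124) (.g (nat_lit 609) (.e (nat_lit 483333) (nat_lit 0) (.e (nat_lit 7096) (nat_lit 380) (.e (nat_lit 164358) (nat_lit 246) .nil))) (.g (nat_lit 0) (.e (nat_lit 353834) (nat_lit 0) .nil) .nil)))) (.nd (nat_lit 9) 
(.lf (nat_lit 571868) (.g (nat_lit 1739) (.e (nat_lit 475199) (nat_lit 40) (.e (nat_lit 704589) (nat_lit 3) (.e (nat_lit 163979) (nat_lit 30) (.e (nat_lit 573491) (nat_lit 15) (.e (nat_lit 81928) (nat_lit 20) .nil))))) (.g (nat_lit 0) (.e (nat_lit 353217) (nat_lit 0) .nil) .nil))) 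
(.lf (nat_lit 572380) (.g (nat_lit 2726) (.e (nat_lit 483337) (nat_lit 9) (.e (nat_lit 426108) (nat_lit 1) (.e (nat_lit 164403) (nat_lit 256) (.e (nat_lit 57378) (nat_lit 3) (.e (nat_lit 98355) (nat_lit 26) (.e (nat_lit 426323) (nat_lit 13) .nil)))))) (.g (nat_lit 1) (.e (nat_lit 354499) (nat_lit 0) .nil) .nil))))))) (.nd (nat_lit 6) (.nd (nat_lit 7) (.nd (nat_lit 8) (.nd (nat_lit 9) 
(.lf (nat_lit 571452) (.g (nat_lit 1612) (.e (nat_lit 475185) (nat_lit 29) (.e (nat_lit 557101) (nat_lit 13) (.e (nat_lit 172097) (nat_lit 9) (.e (nat_lit 426140) (nat_lit 3) (.e (nat_lit 204821) (nat_lit 17) .nil))))) (.g (nat_lit 0) (.e (nat_lit 352270) (nat_lit 0) .nil) .nil))) 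
(.lf (nat_lit 571964) (.g (nat_lit 2898) (.e (nat_lit 475209) (nat_lit 41) (.e (nat_lit 712752) (nat_lit 29) (.e (nat_lit 442428) (nat_lit 24) (.e (nat_lit 229681) (nat_lit 244) (.e (nat_lit 163905) (nat_lit 12) (.e (nat_lit 426320) (nat_lit 12) .nil)))))) (.g (nat_lit 1) (.e (nat_lit 353534) (nat_lit 0) .nil) .nil)))) (.nd (nat_lit 9) 
(.lf (nat_lit 571708) (.g (nat_lit 494) (.e (nat_lit 475198) (nat_lit 40) (.e (nat_lit 704589) (nat_lit 3) (.e (nat_lit 163975) (nat_lit 30) .nil))) (.g (nat_lit 0) (.e (nat_lit 352668) (nat_lit 0) .nil) .nil))) 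
(.lf (nat_lit 572220) (.g (nat_lit 3201) (.e (nat_lit 483337) (nat_lit 9) (.e (nat_lit 426098) (nat_lit 1) (.e (nat_lit 164403) (nat_lit 256) (.e (nat_lit 57373) (nat_lit 2) (.e (nat_lit 90169) (nat_lit 13) (.e (nat_lit 172122) (nat_lit 13) .nil)))))) (.g (nat_lit 1) (.e (nat_lit 354046) (nat_lit 0) .nil) .nil))))) (.nd (nat_lit 8) (.nd (nat_lit 9) 
(.lf (nat_lit 571580) (.g (nat_lit 1293) (.e (nat_lit 475185) (nat_lit 29) (.e (nat_lit 557109) (nat_lit 15) (.e (nat_lit 188434) (nat_lit 20) (.e (nat_lit 3269) (nat_lit 199) .nil)))) (.g (nat_lit 0) (.e (nat_lit 352411) (nat_lit 0) .nil) .nil))) 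
(.lf (nat_lit 572092) (.g (nat_lit 3367) (.e (nat_lit 475211) (nat_lit 41) (.e (nat_lit 712755) (nat_lit 30) (.e (nat_lit 450569) (nat_lit 0) (.e (nat_lit 5599) (nat_lit 310) (.e (nat_lit 163905) (nat_lit 12) (.e (nat_lit 426320) (nat_lit 12) .nil)))))) (.g (nat_lit 1) (.e (nat_lit 353753) (nat_lit 0) .nil) .nil)))) (.nd (nat_lit 9) 
(.lf (nat_lit 571836) (.g (nat_lit 2615) (.e (nat_lit 475199) (nat_lit 40) (.e (nat_lit 704589) (nat_lit 3) (.e (nat_lit 163976) (nat_lit 30) (.e (nat_lit 573481) (nat_lit 13) (.e (nat_lit 65619) (nat_lit 10) (.e (nat_lit 344119) (nat_lit 21) (.e (nat_lit 516182) (nat_lit 15) .nil))))))) (.g (nat_lit 1) (.e (nat_lit 353097) (nat_lit 0) .nil) .nil))) 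
(.lf (nat_lit 572348) (.g (nat_lit 1682) (.e (nat_lit 483337) (nat_lit 9) (.e (nat_lit 426108) (nat_lit 1) (.e (nat_lit 164330) (nat_lit 230) (.e (nat_lit 163869) (nat_lit 2) .nil)))) (.g (nat_lit 0) (.e (nat_lit 354424) (nat_lit 0) .nil) .nil)))))) (.nd (nat_lit 7) (.nd (nat_lit 8) (.nd (nat_lit 9) 
(.lf (nat_lit 571516) (.g (nat_lit 3125) (.e (nat_lit 475185) (nat_lit 29) (.e (nat_lit 557101) (nat_lit 13) (.e (nat_lit 172124) (nat_lit 14) (.e (nat_lit 491540) (nat_lit 3) (.e (nat_lit 98363) (nat_lit 26) (.e (nat_lit 426318) (nat_lit 12) .nil)))))) (.g (nat_lit 1) (.e (nat_lit 352335) (nat_lit 0) .nil) .nil))) 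
(.lf (nat_lit 572028) (.g (nat_lit 574) (.e (nat_lit 475211) (nat_lit 41) (.e (nat_lit 712750) (nat_lit 29) (.e (nat_lit 442429) (nat_lit 24) .nil))) (.g (nat_lit 0) (.e (nat_lit 353667) (nat_lit 0) .nil) .nil)))) (.nd (nat_lit 9) 
(.lf (nat_lit 571772) (.g (nat_lit 2549) (.e (nat_lit 475198) (nat_lit 40) (.e (nat_lit 704590) (nat_lit 3) (.e (nat_lit 163975) (nat_lit 30) (.e (nat_lit 573481) (nat_lit 13) (.e (nat_lit 65619) (nat_lit 10) (.e (nat_lit 344116) (nat_lit 21) (.e (nat_lit 516182) (nat_lit 15) .nil))))))) (.g (nat_lit 1) (.e (nat_lit 352880) (nat_lit 0) .nil) .nil))) 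
(.lf (nat_lit 572284) (.g (nat_lit 2836) (.e (nat_lit 483337) (nat_lit 9) (.e (nat_lit 426100) (nat_lit 1) (.e (nat_lit 164403) (nat_lit 256) (.e (nat_lit 57377) (nat_lit 3) (.e (nat_lit 98357) (nat_lit 26) .nil))))) (.g (nat_lit 0) (.e (nat_lit 354121) (nat_lit 0) .nil) .nil))))) (.nd (nat_lit 8) (.nd (nat_lit 9) 
(.lf (nat_lit 571644) (.g (nat_lit 1117) (.e (nat_lit 483072) (nat_lit 29) (.e (nat_lit 557109) (nat_lit 15) (.e (nat_lit 188450) (nat_lit 23) .nil))) (.g (nat_lit 0) (.e (nat_lit 352483) (nat_lit 0) .nil) .nil))) 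
(.lf (nat_lit 572156) (.g (nat_lit 2067) (.e (nat_lit 483336) (nat_lit 9) (.e (nat_lit 426100) (nat_lit 1) (.e (nat_lit 164403) (nat_lit 256) (.e (nat_lit 57377) (nat_lit 3) .nil)))) (.g (nat_lit 0) (.e (nat_lit 353916) (nat_lit 0) .nil) .nil)))) (.nd (nat_lit 9) 
(.lf (nat_lit 571900) (.g (nat_lit 2414) (.e (nat_lit 475199) (nat_lit 40) (.e (nat_lit 704598) (nat_lit 6) (.e (nat_lit 188446) (nat_lit 21) (.e (nat_lit 164347) (nat_lit 240) (.e (nat_lit 2619) (nat_lit 164) (.e (nat_lit 172118) (nat_lit 12) .nil)))))) (.g (nat_lit 1) (.e (nat_lit 353412) (nat_lit 0) .nil) .nil))) 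
(.lf (nat_lit 572412) (.g (nat_lit 2025) (.e (nat_lit 483337) (nat_lit 9) (.e (nat_lit 426306) (nat_lit 12) (.e (nat_lit 475179) (nat_lit 24) (.e (nat_lit 516117) (nat_lit 1) (.e (nat_lit 164329) (nat_lit 230) .nil))))) (.g (nat_lit 0) (.e (nat_lit 354621) (nat_lit 0) .nil) .nil))))))))))) 
(.nd (nat_lit 2) (.nd (nat_lit 3) (.nd (nat_lit 4) (.nd (nat_lit 5) (.nd (nat_lit 6) 
(.nd (nat_lit 7) (.nd (nat_lit 8) (.nd (nat_lit 9) 
(.lf (nat_lit 571394) (.g (nat_lit 2859) (.e (nat_lit 475185) (nat_lit 29) (.e (nat_lit 557100) (nat_lit 13) (.e (nat_lit 172113) (nat_lit 10) (.e (nat_lit 434245) (nat_lit 28) (.e (nat_lit 573474) (nat_lit 12) (.e (nat_lit 57347) (nat_lit 0) (.e (nat_lit 6938) (nat_lit 375) (.e (nat_lit 163938) (nat_lit 18) .nil)))))))) (.g (nat_lit 1) (.e (nat_lit 352212) (nat_lit 0) .nil) .nil))) 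
(.lf (nat_lit 571906) (.g (nat_lit 3747) (.e (nat_lit 475199) (nat_lit 40) (.e (nat_lit 704598) (nat_lit 6) (.e (nat_lit 188455) (nat_lit 24) (.e (nat_lit 229663) (nat_lit 240) (.e (nat_lit 2622) (nat_lit 164) (.e (nat_lit 172119) (nat_lit 12) .nil)))))) (.g (nat_lit 1) (.e (nat_lit 353421) (nat_lit 0) .nil) .nil)))) (.nd (nat_lit 9) 
(.lf (nat_lit 571650) (.g (nat_lit 2197) (.e (nat_lit 475196) (nat_lit 40) (.e (nat_lit 704589) (nat_lit 3) (.e (nat_lit 163975) (nat_lit 30) (.e (nat_lit 573491) (nat_lit 15) (.e (nat_lit 81954) (nat_lit 23) (.e (nat_lit 98385) (nat_lit 32) .nil)))))) (.g (nat_lit 1) (.e (nat_lit 352500) (nat_lit 0) .nil) .nil))) 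
(.lf (nat_lit 572162) (.g (nat_lit 715) (.e (nat_lit 483336) (nat_lit 9) (.e (nat_lit 426107) (nat_lit 1) (.e (nat_lit 164327) (nat_lit 230) .nil))) (.g (nat_lit 0) (.e (nat_lit 353930) (nat_lit 0) .nil) .nil))))) (.nd (nat_lit 8) (.nd (nat_lit 9) 
(.lf (nat_lit 571522) (.g (nat_lit 670) (.e (nat_lit 475185) (nat_lit 29) (.e (nat_lit 557105) (nat_lit 14) (.e (nat_lit 180286) (nat_lit 45) .nil))) (.g (nat_lit 0) (.e (nat_lit 352344) (nat_lit 0) .nil) .nil))) 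
(.lf (nat_lit 572034) (.g (nat_lit 3234) (.e (nat_lit 475211) (nat_lit 41) (.e (nat_lit 712752) (nat_lit 29) (.e (nat_lit 442421) (nat_lit 21) (.e (nat_lit 164348) (nat_lit 240) (.e (nat_lit 2628) (nat_lit 164) (.e (nat_lit 172118) (nat_lit 12) .nil)))))) (.g (nat_lit 1) (.e (nat_lit 353683) (nat_lit 0) .nil) .nil)))) (.nd (nat_lit 9) 
(.lf (nat_lit 571778) (.g (nat_lit 2325) (.e (nat_lit 475198) (nat_lit 40) (.e (nat_lit 704590) (nat_lit 3) (.e (nat_lit 163975) (nat_lit 30) (.e (nat_lit 573492) (nat_lit 15) (.e (nat_lit 81954) (nat_lit 23) .nil))))) (.g (nat_lit 0) (.e (nat_lit 352898) (nat_lit 0) .nil) .nil))) 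
(.lf (nat_lit 572290) (.g (nat_lit 3052) (.e (nat_lit 483337) (nat_lit 9) (.e (nat_lit 426100) (nat_lit 1) (.e (nat_lit 164403) (nat_lit 256) (.e (nat_lit 57378) (nat_lit 3) (.e (nat_lit 98362) (nat_lit 26) (.e (nat_lit 426329) (nat_lit 13) .nil)))))) (.g (nat_lit 1) (.e (nat_lit 354127) (nat_lit 0) .nil) .nil)))))) (.nd (nat_lit 7) (.nd (nat_lit 8) (.nd (nat_lit 9) 
(.lf (nat_lit 571458) (.g (nat_lit 3800) (.e (nat_lit 475185) (nat_lit 29) (.e (nat_lit 557101) (nat_lit 13) (.e (nat_lit 172115) (nat_lit 10) (.e (nat_lit 434231) (nat_lit 23) (.e (nat_lit 532481) (nat_lit 0) (.e (nat_lit 6619) (nat_lit 357) (.e (nat_lit 3071) (nat_lit 190) .nil))))))) (.g (nat_lit 1) (.e (nat_lit 352277) (nat_lit 0) .nil) .nil))) 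
(.lf (nat_lit 571970) (.g (nat_lit 583) (.e (nat_lit 475209) (nat_lit 41) (.e (nat_lit 712755) (nat_lit 30) (.e (nat_lit 450560) (nat_lit 0) .nil))) (.g (nat_lit 0) (.e (nat_lit 353542) (nat_lit 0) .nil) .nil)))) (.nd (nat_lit 9) 
(.lf (nat_lit 571714) (.g (nat_lit 2040) (.e (nat_lit 475198) (nat_lit 40) (.e (nat_lit 704589) (nat_lit 3) (.e (nat_lit 163975) (nat_lit 30) (.e (nat_lit 573491) (nat_lit 15) (.e (nat_lit 81943) (nat_lit 20) (.e (nat_lit 1781) (nat_lit 119) (.e (nat_lit 516182) (nat_lit 15) .nil))))))) (.g (nat_lit 1) (.e (nat_lit 352676) (nat_lit 0) .nil) .nil))) 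
(.lf (nat_lit 572226) (.g (nat_lit 2437) (.e (nat_lit 483337) (nat_lit 9) (.e (nat_lit 426098) (nat_lit 1) (.e (nat_lit 164403) (nat_lit 256) (.e (nat_lit 57378) (nat_lit 3) (.e (nat_lit 98362) (nat_lit 26) (.e (nat_lit 426329) (nat_lit 13) .nil)))))) (.g (nat_lit 1) (.e (nat_lit 354052) (nat_lit 0) .nil) .nil))))) (.nd (nat_lit 8) (.nd (nat_lit 9) 
(.lf (nat_lit 571586) (.g (nat_lit 1966) (.e (nat_lit 475185) (nat_lit 29) (.e (nat_lit 557109) (nat_lit 15) (.e (nat_lit 188447) (nat_lit 22) (.e (nat_lit 196628) (nat_lit 9) .nil)))) (.g (nat_lit 0) (.e (nat_lit 352418) (nat_lit 0) .nil) .nil))) 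
(.lf (nat_lit 572098) (.g (nat_lit 415) (.e (nat_lit 475211) (nat_lit 41) (.e (nat_lit 712755) (nat_lit 30) (.e (nat_lit 450597) (nat_lit 17) .nil))) (.g (nat_lit 0) (.e (nat_lit 353759) (nat_lit 0) .nil) .nil)))) (.nd (nat_lit 9) 
(.lf (nat_lit 571842) (.g (nat_lit 2819) (.e (nat_lit 475199) (nat_lit 40) (.e (nat_lit 704589) (nat_lit 3) (.e (nat_lit 163976) (nat_lit 30) (.e (nat_lit 573491) (nat_lit 15) (.e (nat_lit 81954) (nat_lit 23) (.e (nat_lit 106240) (nat_lit 32) .nil)))))) (.g (nat_lit 1) (.e (nat_lit 353107) (nat_lit 0) .nil) .nil))) 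
(.lf (nat_lit 572354) (.g (nat_lit 1145) (.e (nat_lit 483337) (nat_lit 9) (.e (nat_lit 426108) (nat_lit 1) (.e (nat_lit 164332) (nat_lit 230) (.e (nat_lit 163867) (nat_lit 2) .nil)))) (.g (nat_lit 0) (.e (nat_lit 354450) (nat_lit 0) .nil) .nil))))))) (.nd (nat_lit 6) (.nd (nat_lit 7) (.nd (nat_lit 8) (.nd (nat_lit 9) 
(.lf (nat_lit 571426) (.g (nat_lit 2911) (.e (nat_lit 475185) (nat_lit 29) (.e (nat_lit 557100) (nat_lit 13) (.e (nat_lit 172113) (nat_lit 10) (.e (nat_lit 434248) (nat_lit 28) (.e (nat_lit 573475) (nat_lit 12) (.e (nat_lit 57347) (nat_lit 0) (.e (nat_lit 6938) (nat_lit 375) (.e (nat_lit 163938) (nat_lit 18) .nil)))))))) (.g (nat_lit 1) (.e (nat_lit 352244) (nat_lit 0) .nil) .nil))) 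
(.lf (nat_lit 571938) (.g (nat_lit 1104) (.e (nat_lit 475207) (nat_lit 41) (.e (nat_lit 712755) (nat_lit 30) (.e (nat_lit 450569) (nat_lit 0) (.e (nat_lit 5597) (nat_lit 310) .nil)))) (.g (nat_lit 0) (.e (nat_lit 353490) (nat_lit 0) .nil) .nil)))) (.nd (nat_lit 9) 
(.lf (nat_lit 571682) (.g (nat_lit 1928) (.e (nat_lit 475197) (nat_lit 40) (.e (nat_lit 704589) (nat_lit 3) (.e (nat_lit 163979) (nat_lit 30) (.e (nat_lit 573482) (nat_lit 13) (.e (nat_lit 65616) (nat_lit 10) .nil))))) (.g (nat_lit 0) (.e (nat_lit 352607) (nat_lit 0) .nil) .nil))) 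
(.lf (nat_lit 572194) (.g (nat_lit 4307) (.e (nat_lit 483337) (nat_lit 9) (.e (nat_lit 426098) (nat_lit 1) (.e (nat_lit 164398) (nat_lit 256) (.e (nat_lit 57374) (nat_lit 2) (.e (nat_lit 90170) (nat_lit 13) (.e (nat_lit 172123) (nat_lit 13) .nil)))))) (.g (nat_lit 1) (.e (nat_lit 354020) (nat_lit 0) .nil) .nil))))) (.nd (nat_lit 8) (.nd (nat_lit 9) 
(.lf (nat_lit 571554) (.g (nat_lit 576) (.e (nat_lit 475185) (nat_lit 29) (.e (nat_lit 557107) (nat_lit 15) (.e (nat_lit 188453) (nat_lit 24) .nil))) (.g (nat_lit 0) (.e (nat_lit 352383) (nat_lit 0) .nil) .nil))) 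
(.lf (nat_lit 572066) (.g (nat_lit 1883) (.e (nat_lit 475211) (nat_lit 41) (.e (nat_lit 712753) (nat_lit 30) (.e (nat_lit 450569) (nat_lit 0) (.e (nat_lit 5599) (nat_lit 310) (.e (nat_lit 163911) (nat_lit 12) (.e (nat_lit 426310) (nat_lit 12) .nil)))))) (.g (nat_lit 1) (.e (nat_lit 353715) (nat_lit 0) .nil) .nil)))) (.nd (nat_lit 9) 
(.lf (nat_lit 571810) (.g (nat_lit 1864) (.e (nat_lit 475198) (nat_lit 40) (.e (nat_lit 704599) (nat_lit 6) (.e (nat_lit 188455) (nat_lit 24) (.e (nat_lit 229665) (nat_lit 240) (.e (nat_lit 2725) (nat_lit 172) (.e (nat_lit 237619) (nat_lit 12) .nil)))))) (.g (nat_lit 1) (.e (nat_lit 352963) (nat_lit 0) .nil) .nil))) 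
(.lf (nat_lit 572322) (.g (nat_lit 789) (.e (nat_lit 483337) (nat_lit 9) (.e (nat_lit 426107) (nat_lit 1) (.e (nat_lit 164331) (nat_lit 230) .nil))) (.g (nat_lit 0) (.e (nat_lit 354362) (nat_lit 0) .nil) .nil)))))) (.nd (nat_lit 7) (.nd (nat_lit 8) (.nd (nat_lit 9) 
(.lf (nat_lit 571490) (.g (nat_lit 3301) (.e (nat_lit 475185) (nat_lit 29) (.e (nat_lit 557101) (nat_lit 13) (.e (nat_lit 172115) (nat_lit 10) (.e (nat_lit 434244) (nat_lit 28) (.e (nat_lit 573449) (nat_lit 9) (.e (nat_lit 437) (nat_lit 32) (.e (nat_lit 426305) (nat_lit 12) .nil))))))) (.g (nat_lit 1) (.e (nat_lit 352309) (nat_lit 0) .nil) .nil))) 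
(.lf (nat_lit 572002) (.g (nat_lit 2269) (.e (nat_lit 475210) (nat_lit 41) (.e (nat_lit 712752) (nat_lit 29) (.e (nat_lit 442430) (nat_lit 24) (.e (nat_lit 229666) (nat_lit 240) (.e (nat_lit 2725) (nat_lit 172) (.e (nat_lit 237616) (nat_lit 12) .nil)))))) (.g (nat_lit 1) (.e (nat_lit 353615) (nat_lit 0) .nil) .nil)))) (.nd (nat_lit 9) 
(.lf (nat_lit 571746) (.g (nat_lit 3942) (.e (nat_lit 475198) (nat_lit 40) (.e (nat_lit 704589) (nat_lit 3) (.e (nat_lit 163979) (nat_lit 30) (.e (nat_lit 573482) (nat_lit 13) (.e (nat_lit 65604) (nat_lit 9) (.e (nat_lit 336028) (nat_lit 3) (.e (nat_lit 106240) (nat_lit 32) .nil))))))) (.g (nat_lit 1) (.e (nat_lit 352788) (nat_lit 0) .nil) .nil))) 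
(.lf (nat_lit 572258) (.g (nat_lit 2002) (.e (nat_lit 483337) (nat_lit 9) (.e (nat_lit 426100) (nat_lit 1) (.e (nat_lit 164398) (nat_lit 256) (.e (nat_lit 57377) (nat_lit 3) (.e (nat_lit 98363) (nat_lit 26) .nil))))) (.g (nat_lit 0) (.e (nat_lit 354095) (nat_lit 0) .nil) .nil))))) (.nd (nat_lit 8) (.nd (nat_lit 9) 
(.lf (nat_lit 571618) (.g (nat_lit 2441) (.e (nat_lit 475185) (nat_lit 29) (.e (nat_lit 557109) (nat_lit 15) (.e (nat_lit 188450) (nat_lit 23) (.e (nat_lit 204885) (nat_lit 33) (.e (nat_lit 409344) (nat_lit 12) .nil))))) (.g (nat_lit 0) (.e (nat_lit 352450) (nat_lit 0) .nil) .nil))) 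
(.lf (nat_lit 572130) (.g (nat_lit 1474) (.e (nat_lit 483336) (nat_lit 9) (.e (nat_lit 426098) (nat_lit 1) (.e (nat_lit 164398) (nat_lit 256) (.e (nat_lit 57378) (nat_lit 3) .nil)))) (.g (nat_lit 0) (.e (nat_lit 353882) (nat_lit 0) .nil) .nil)))) (.nd (nat_lit 9) 
(.lf (nat_lit 571874) (.g (nat_lit 2679) (.e (nat_lit 475199) (nat_lit 40) (.e (nat_lit 704589) (nat_lit 3) (.e (nat_lit 163979) (nat_lit 30) (.e (nat_lit 573491) (nat_lit 15) (.e (nat_lit 81943) (nat_lit 20) (.e (nat_lit 1781) (nat_lit 119) (.e (nat_lit 516182) (nat_lit 15) .nil))))))) (.g (nat_lit 1) (.e (nat_lit 353224) (nat_lit 0) .nil) .nil))) 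
(.lf (nat_lit 572386) (.g (nat_lit 3583) (.e (nat_lit 483337) (nat_lit 9) (.e (nat_lit 426187) (nat_lit 9) (.e (nat_lit 426436) (nat_lit 18) (.e (nat_lit 98335) (nat_lit 18) (.e (nat_lit 164327) (nat_lit 230) (.e (nat_lit 163941) (nat_lit 19) .nil)))))) (.g (nat_lit 1) (.e (nat_lit 354516) (nat_lit 0) .nil) .nil)))))))) 
(.nd (nat_lit 5) (.nd (nat_lit 6) (.nd (nat_lit 7) (.nd (nat_lit 8) (.nd (nat_lit 9) 
(.lf (nat_lit 571410) (.g (nat_lit 3138) (.e (nat_lit 475185) (nat_lit 29) (.e (nat_lit 557100) (nat_lit 13) (.e (nat_lit 172113) (nat_lit 10) (.e (nat_lit 434247) (nat_lit 28) (.e (nat_lit 573457) (nat_lit 9) (.e (nat_lit 430) (nat_lit 32) (.e (nat_lit 426307) (nat_lit 12) .nil))))))) (.g (nat_lit 1) (.e (nat_lit 352228) (nat_lit 0) .nil) .nil))) 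
(.lf (nat_lit 571922) (.g (nat_lit 1975) (.e (nat_lit 475207) (nat_lit 41) (.e (nat_lit 712752) (nat_lit 29) (.e (nat_lit 442430) (nat_lit 24) (.e (nat_lit 229680) (nat_lit 244) (.e (nat_lit 163913) (nat_lit 12) .nil))))) (.g (nat_lit 0) (.e (nat_lit 353468) (nat_lit 0) .nil) .nil)))) (.nd (nat_lit 9) 
(.lf (nat_lit 571666) (.g (nat_lit 3432) (.e (nat_lit 475197) (nat_lit 40) (.e (nat_lit 704589) (nat_lit 3) (.e (nat_lit 163975) (nat_lit 30) (.e (nat_lit 573481) (nat_lit 13) (.e (nat_lit 65604) (nat_lit 9) (.e (nat_lit 336028) (nat_lit 3) (.e (nat_lit 98383) (nat_lit 32) .nil))))))) (.g (nat_lit 1) (.e (nat_lit 352543) (nat_lit 0) .nil) .nil))) 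
(.lf (nat_lit 572178) (.g (nat_lit 3121) (.e (nat_lit 483336) (nat_lit 9) (.e (nat_lit 426187) (nat_lit 9) (.e (nat_lit 426436) (nat_lit 18) (.e (nat_lit 98335) (nat_lit 18) (.e (nat_lit 164332) (nat_lit 230) (.e (nat_lit 163941) (nat_lit 19) .nil)))))) (.g (nat_lit 1) (.e (nat_lit 353977) (nat_lit 0) .nil) .nil))))) (.nd (nat_lit 8) (.nd (nat_lit 9) 
(.lf (nat_lit 571538) (.g (nat_lit 2628) (.e (nat_lit 475185) (nat_lit 29) (.e (nat_lit 557107) (nat_lit 15) (.e (nat_lit 188447) (nat_lit 22) (.e (nat_lit 196661) (nat_lit 12) (.e (nat_lit 57751) (nat_lit 201) (.e (nat_lit 3065) (nat_lit 190) .nil)))))) (.g (nat_lit 1) (.e (nat_lit 352367) (nat_lit 0) .nil) .nil))) 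
(.lf (nat_lit 572050) (.g (nat_lit 2806) (.e (nat_lit 475211) (nat_lit 41) (.e (nat_lit 712752) (nat_lit 29) (.e (nat_lit 442430) (nat_lit 24) (.e (nat_lit 229681) (nat_lit 244) (.e (nat_lit 163913) (nat_lit 12) (.e (nat_lit 426318) (nat_lit 12) .nil)))))) (.g (nat_lit 1) (.e (nat_lit 353699) (nat_lit 0) .nil) .nil)))) (.nd (nat_lit 9) 
(.lf (nat_lit 571794) (.g (nat_lit 2249) (.e (nat_lit 475198) (nat_lit 40) (.e (nat_lit 704598) (nat_lit 6) (.e (nat_lit 188453) (nat_lit 24) (.e (nat_lit 229663) (nat_lit 240) (.e (nat_lit 2622) (nat_lit 164) (.e (nat_lit 172119) (nat_lit 12) .nil)))))) (.g (nat_lit 1) (.e (nat_lit 352945) (nat_lit 0) .nil) .nil))) 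
(.lf (nat_lit 572306) (.g (nat_lit 4285) (.e (nat_lit 483337) (nat_lit 9) (.e (nat_lit 426107) (nat_lit 1) (.e (nat_lit 164326) (nat_lit 230) (.e (nat_lit 163870) (nat_lit 2) (.e (nat_lit 196654) (nat_lit 11) (.e (nat_lit 16463) (nat_lit 13) .nil)))))) (.g (nat_lit 1) (.e (nat_lit 354259) (nat_lit 0) .nil) .nil)))))) (.nd (nat_lit 7) (.nd (nat_lit 8) (.nd (nat_lit 9) 
(.lf (nat_lit 571474) (.g (nat_lit 2429) (.e (nat_lit 475185) (nat_lit 29) (.e (nat_lit 557101) (nat_lit 13) (.e (nat_lit 172115) (nat_lit 10) (.e (nat_lit 434231) (nat_lit 23) (.e (nat_lit 532490) (nat_lit 0) (.e (nat_lit 7936) (nat_lit 357) (.e (nat_lit 3064) (nat_lit 190) .nil))))))) (.g (nat_lit 1) (.e (nat_lit 352293) (nat_lit 0) .nil) .nil))) 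
(.lf (nat_lit 571986) (.g (nat_lit 1967) (.e (nat_lit 475210) (nat_lit 41) (.e (nat_lit 712745) (nat_lit 27) (.e (nat_lit 426347) (nat_lit 14) (.e (nat_lit 491569) (nat_lit 13) (.e (nat_lit 393295) (nat_lit 26) .nil))))) (.g (nat_lit 0) (.e (nat_lit 353572) (nat_lit 0) .nil) .nil)))) (.nd (nat_lit 9) 
(.lf (nat_lit 571730) (.g (nat_lit 1328) (.e (nat_lit 475198) (nat_lit 40) (.e (nat_lit 704589) (nat_lit 3) (.e (nat_lit 163976) (nat_lit 30) (.e (nat_lit 573491) (nat_lit 15) (.e (nat_lit 89856) (nat_lit 20) .nil))))) (.g (nat_lit 0) (.e (nat_lit 352727) (nat_lit 0) .nil) .nil))) 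
(.lf (nat_lit 572242) (.g (nat_lit 1068) (.e (nat_lit 483337) (nat_lit 9) (.e (nat_lit 426100) (nat_lit 1) (.e (nat_lit 164396) (nat_lit 256) (.e (nat_lit 57379) (nat_lit 3) .nil)))) (.g (nat_lit 0) (.e (nat_lit 354079) (nat_lit 0) .nil) .nil))))) (.nd (nat_lit 8) (.nd (nat_lit 9) 
(.lf (nat_lit 571602) (.g (nat_lit 5438) (.e (nat_lit 475185) (nat_lit 29) (.e (nat_lit 557109) (nat_lit 15) (.e (nat_lit 188449) (nat_lit 22) (.e (nat_lit 196676) (nat_lit 16) .nil)))) (.g (nat_lit 0) (.e (nat_lit 352434) (nat_lit 0) .nil) .nil))) 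
(.lf (nat_lit 572114) (.g (nat_lit 3177) (.e (nat_lit 475218) (nat_lit 44) (.e (nat_lit 737318) (nat_lit 15) (.e (nat_lit 49189) (nat_lit 11) (.e (nat_lit 16425) (nat_lit 7) (.e (nat_lit 409645) (nat_lit 18) (.e (nat_lit 303143) (nat_lit 12) .nil)))))) (.g (nat_lit 1) (.e (nat_lit 353797) (nat_lit 0) .nil) .nil)))) (.nd (nat_lit 9) 
(.lf (nat_lit 571858) (.g (nat_lit 4106) (.e (nat_lit 475199) (nat_lit 40) (.e (nat_lit 704589) (nat_lit 3) (.e (nat_lit 163979) (nat_lit 30) (.e (nat_lit 573482) (nat_lit 13) (.e (nat_lit 65604) (nat_lit 9) (.e (nat_lit 336013) (nat_lit 2) (.e (nat_lit 90134) (nat_lit 9) (.e (nat_lit 3055) (nat_lit 190) .nil)))))))) (.g (nat_lit 1) (.e (nat_lit 353202) (nat_lit 0) .nil) .nil))) 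
(.lf (nat_lit 572370) (.g (nat_lit 2228) (.e (nat_lit 483337) (nat_lit 9) (.e (nat_lit 426108) (nat_lit 1) (.e (nat_lit 164402) (nat_lit 256) (.e (nat_lit 57377) (nat_lit 3) (.e (nat_lit 98357) (nat_lit 26) .nil))))) (.g (nat_lit 0) (.e (nat_lit 354489) (nat_lit 0) .nil) .nil))))))) (.nd (nat_lit 6) (.nd (nat_lit 7) (.nd (nat_lit 8) (.nd (nat_lit 9) 
(.lf (nat_lit 571442) (.g (nat_lit 1051) (.e (nat_lit 475185) (nat_lit 29) (.e (nat_lit 557101) (nat_lit 13) (.e (nat_lit 172097) (nat_lit 9) (.e (nat_lit 426032) (nat_lit 0) .nil)))) (.g (nat_lit 0) (.e (nat_lit 352260) (nat_lit 0) .nil) .nil))) 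
(.lf (nat_lit 571954) (.g (nat_lit 2185) (.e (nat_lit 475209) (nat_lit 41) (.e (nat_lit 712742) (nat_lit 27) (.e (nat_lit 426171) (nat_lit 7) (.e (nat_lit 409649) (nat_lit 18) (.e (nat_lit 311040) (nat_lit 35) (.e (nat_lit 401454) (nat_lit 12) .nil)))))) (.g (nat_lit 1) (.e (nat_lit 353516) (nat_lit 0) .nil) .nil)))) (.nd (nat_lit 9) 
(.lf (nat_lit 571698) (.g (nat_lit 976) (.e (nat_lit 475197) (nat_lit 40) (.e (nat_lit 704592) (nat_lit 4) (.e (nat_lit 172126) (nat_lit 14) (.e (nat_lit 491550) (nat_lit 9) .nil)))) (.g (nat_lit 0) (.e (nat_lit 352652) (nat_lit 0) .nil) .nil))) 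
(.lf (nat_lit 572210) (.g (nat_lit 2132) (.e (nat_lit 483337) (nat_lit 9) (.e (nat_lit 426098) (nat_lit 1) (.e (nat_lit 164399) (nat_lit 256) (.e (nat_lit 57377) (nat_lit 3) (.e (nat_lit 98363) (nat_lit 26) (.e (nat_lit 426321) (nat_lit 13) .nil)))))) (.g (nat_lit 1) (.e (nat_lit 354036) (nat_lit 0) .nil) .nil))))) (.nd (nat_lit 8) (.nd (nat_lit 9) 
(.lf (nat_lit 571570) (.g (nat_lit 2728) (.e (nat_lit 475185) (nat_lit 29) (.e (nat_lit 557108) (nat_lit 15) (.e (nat_lit 188452) (nat_lit 23) (.e (nat_lit 212736) (nat_lit 33) .nil)))) (.g (nat_lit 0) (.e (nat_lit 352399) (nat_lit 0) .nil) .nil))) 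
(.lf (nat_lit 572082) (.g (nat_lit 3058) (.e (nat_lit 475211) (nat_lit 41) (.e (nat_lit 712755) (nat_lit 30) (.e (nat_lit 450566) (nat_lit 0) (.e (nat_lit 5548) (nat_lit 306) (.e (nat_lit 2619) (nat_lit 164) (.e (nat_lit 172119) (nat_lit 12) .nil)))))) (.g (nat_lit 1) (.e (nat_lit 353742) (nat_lit 0) .nil) .nil)))) (.nd (nat_lit 9) 
(.lf (nat_lit 571826) (.g (nat_lit 1804) (.e (nat_lit 475199) (nat_lit 40) (.e (nat_lit 704589) (nat_lit 3) (.e (nat_lit 163975) (nat_lit 30) (.e (nat_lit 573491) (nat_lit 15) (.e (nat_lit 81943) (nat_lit 20) (.e (nat_lit 1801) (nat_lit 119) (.e (nat_lit 516182) (nat_lit 15) .nil))))))) (.g (nat_lit 1) (.e (nat_lit 352985) (nat_lit 0) .nil) .nil))) 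
(.lf (nat_lit 572338) (.g (nat_lit 2665) (.e (nat_lit 483337) (nat_lit 9) (.e (nat_lit 426107) (nat_lit 1) (.e (nat_lit 164403) (nat_lit 256) (.e (nat_lit 57371) (nat_lit 2) (.e (nat_lit 90169) (nat_lit 13) (.e (nat_lit 172121) (nat_lit 13) .nil)))))) (.g (nat_lit 1) (.e (nat_lit 354384) (nat_lit 0) .nil) .nil)))))) (.nd (nat_lit 7) (.nd (nat_lit 8) (.nd (nat_lit 9) 
(.lf (nat_lit 571506) (.g (nat_lit 3402) (.e (nat_lit 475185) (nat_lit 29) (.e (nat_lit 557101) (nat_lit 13) (.e (nat_lit 172115) (nat_lit 10) (.e (nat_lit 434244) (nat_lit 28) (.e (nat_lit 573458) (nat_lit 9) (.e (nat_lit 394) (nat_lit 32) (.e (nat_lit 426314) (nat_lit 12) .nil))))))) (.g (nat_lit 1) (.e (nat_lit 352325) (nat_lit 0) .nil) .nil))) 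
(.lf (nat_lit 572018) (.g (nat_lit 411) (.e (nat_lit 475210) (nat_lit 41) (.e (nat_lit 712755) (nat_lit 30) (.e (nat_lit 450569) (nat_lit 0) .nil))) (.g (nat_lit 0) (.e (nat_lit 353639) (nat_lit 0) .nil) .nil)))) (.nd (nat_lit 9) 
(.lf (nat_lit 571762) (.g (nat_lit 4025) (.e (nat_lit 475198) (nat_lit 40) (.e (nat_lit 704589) (nat_lit 3) (.e (nat_lit 163979) (nat_lit 30) (.e (nat_lit 573492) (nat_lit 15) (.e (nat_lit 81956) (nat_lit 23) (.e (nat_lit 98383) (nat_lit 32) .nil)))))) (.g (nat_lit 1) (.e (nat_lit 352808) (nat_lit 0) .nil) .nil))) 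
(.lf (nat_lit 572274) (.g (nat_lit 1101) (.e (nat_lit 483337) (nat_lit 9) (.e (nat_lit 426100) (nat_lit 1) (.e (nat_lit 164402) (nat_lit 256) .nil))) (.g (nat_lit 0) (.e (nat_lit 354111) (nat_lit 0) .nil) .nil))))) (.nd (nat_lit 8) (.nd (nat_lit 9) 
(.lf (nat_lit 571634) (.g (nat_lit 3867) (.e (nat_lit 475185) (nat_lit 29) (.e (nat_lit 557109) (nat_lit 15) (.e (nat_lit 188452) (nat_lit 23) (.e (nat_lit 204883) (nat_lit 33) (.e (nat_lit 401453) (nat_lit 12) .nil))))) (.g (nat_lit 1) (.e (nat_lit 352466) (nat_lit 0) .nil) .nil))) 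
(.lf (nat_lit 572146) (.g (nat_lit 2757) (.e (nat_lit 483336) (nat_lit 9) (.e (nat_lit 426100) (nat_lit 1) (.e (nat_lit 164398) (nat_lit 256) (.e (nat_lit 57379) (nat_lit 3) (.e (nat_lit 98354) (nat_lit 26) .nil))))) (.g (nat_lit 0) (.e (nat_lit 353906) (nat_lit 0) .nil) .nil)))) (.nd (nat_lit 9) 
(.lf (nat_lit 571890) (.g (nat_lit 2826) (.e (nat_lit 475199) (nat_lit 40) (.e (nat_lit 704592) (nat_lit 4) (.e (nat_lit 172126) (nat_lit 14) (.e (nat_lit 491549) (nat_lit 9) (.e (nat_lit 336369) (nat_lit 27) (.e (nat_lit 426310) (nat_lit 12) .nil)))))) (.g (nat_lit 1) (.e (nat_lit 353378) (nat_lit 0) .nil) .nil))) 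
(.lf (nat_lit 572402) (.g (nat_lit 1656) (.e (nat_lit 483337) (nat_lit 9) (.e (nat_lit 426198) (nat_lit 9) (.e (nat_lit 426402) (nat_lit 15) (.e (nat_lit 1788) (nat_lit 119) (.e (nat_lit 516116) (nat_lit 1) .nil))))) (.g (nat_lit 0) (.e (nat_lit 354551) (nat_lit 0) .nil) .nil))))))))) (.nd (nat_lit 4) (.nd (nat_lit 5) (.nd (nat_lit 6) (.nd (nat_lit 7) (.nd (nat_lit 8) (.nd (nat_lit 9) 
(.lf (nat_lit 571402) (.g (nat_lit 3840) (.e (nat_lit 475185) (nat_lit 29) (.e (nat_lit 557100) (nat_lit 13) (.e (nat_lit 172113) (nat_lit 10) (.e (nat_lit 434245) (nat_lit 28) (.e (nat_lit 573474) (nat_lit 12) (.e (nat_lit 57567) (nat_lit 52) (.e (nat_lit 753671) (nat_lit 5) (.e (nat_lit 3063) (nat_lit 190) .nil)))))))) (.g (nat_lit 1) (.e (nat_lit 352220) (nat_lit 0) .nil) .nil))) 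
(.lf (nat_lit 571914) (.g (nat_lit 2115) (.e (nat_lit 475199) (nat_lit 40) (.e (nat_lit 704599) (nat_lit 6) (.e (nat_lit 188418) (nat_lit 0) (.e (nat_lit 2174) (nat_lit 143) (.e (nat_lit 712745) (nat_lit 27) (.e (nat_lit 433920) (nat_lit 12) .nil)))))) (.g (nat_lit 1) (.e (nat_lit 353431) (nat_lit 0) .nil) .nil)))) (.nd (nat_lit 9) 
(.lf (nat_lit 571658) (.g (nat_lit 483) (.e (nat_lit 475196) (nat_lit 40) (.e (nat_lit 704590) (nat_lit 3) (.e (nat_lit 163975) (nat_lit 30) .nil))) (.g (nat_lit 0) (.e (nat_lit 352523) (nat_lit 0) .nil) .nil))) 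
(.lf (nat_lit 572170) (.g (nat_lit 2121) (.e (nat_lit 483336) (nat_lit 9) (.e (nat_lit 426108) (nat_lit 1) (.e (nat_lit 164330) (nat_lit 230) (.e (nat_lit 163867) (nat_lit 2) (.e (nat_lit 196656) (nat_lit 11) .nil))))) (.g (nat_lit 0) (.e (nat_lit 353955) (nat_lit 0) .nil) .nil))))) (.nd (nat_lit 8) (.nd (nat_lit 9) 
(.lf (nat_lit 571530) (.g (nat_lit 2809) (.e (nat_lit 475185) (nat_lit 29) (.e (nat_lit 557107) (nat_lit 15) (.e (nat_lit 188439) (nat_lit 20) (.e (nat_lit 3272) (nat_lit 199) (.e (nat_lit 548897) (nat_lit 14) (.e (nat_lit 2884) (nat_lit 184) (.e (nat_lit 426317) (nat_lit 12) .nil))))))) (.g (nat_lit 1) (.e (nat_lit 352359) (nat_lit 0) .nil) .nil))) 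
(.lf (nat_lit 572042) (.g (nat_lit 715) (.e (nat_lit 475211) (nat_lit 41) (.e (nat_lit 712752) (nat_lit 29) (.e (nat_lit 442429) (nat_lit 24) .nil))) (.g (nat_lit 0) (.e (nat_lit 353691) (nat_lit 0) .nil) .nil)))) (.nd (nat_lit 9) 
(.lf (nat_lit 571786) (.g (nat_lit 679) (.e (nat_lit 475198) (nat_lit 40) (.e (nat_lit 704595) (nat_lit 5) (.e (nat_lit 180278) (nat_lit 32) (.e (nat_lit 1660) (nat_lit 115) .nil)))) (.g (nat_lit 0) (.e (nat_lit 352934) (nat_lit 0) .nil) .nil))) 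
(.lf (nat_lit 572298) (.g (nat_lit 2816) (.e (nat_lit 483337) (nat_lit 9) (.e (nat_lit 426107) (nat_lit 1) (.e (nat_lit 164325) (nat_lit 230) (.e (nat_lit 163867) (nat_lit 2) (.e (nat_lit 196654) (nat_lit 11) (.e (nat_lit 16463) (nat_lit 13) .nil)))))) (.g (nat_lit 1) (.e (nat_lit 354160) (nat_lit 0) .nil) .nil)))))) (.nd (nat_lit 7) (.nd (nat_lit 8) (.nd (nat_lit 9) 
(.lf (nat_lit 571466) (.g (nat_lit 2414) (.e (nat_lit 475185) (nat_lit 29) (.e (nat_lit 557101) (nat_lit 13) (.e (nat_lit 172115) (nat_lit 10) (.e (nat_lit 434231) (nat_lit 23) (.e (nat_lit 532482) (nat_lit 0) (.e (nat_lit 6642) (nat_lit 357) (.e (nat_lit 3055) (nat_lit 190) .nil))))))) (.g (nat_lit 1) (.e (nat_lit 352285) (nat_lit 0) .nil) .nil))) 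
(.lf (nat_lit 571978) (.g (nat_lit 5058) (.e (nat_lit 475210) (nat_lit 41) (.e (nat_lit 712722) (nat_lit 15) (.e (nat_lit 3302) (nat_lit 202) (.e (nat_lit 573484) (nat_lit 13) (.e (nat_lit 65610) (nat_lit 10) (.e (nat_lit 344117) (nat_lit 21) (.e (nat_lit 516178) (nat_lit 15) .nil))))))) (.g (nat_lit 1) (.e (nat_lit 353552) (nat_lit 0) .nil) .nil)))) (.nd (nat_lit 9) 
(.lf (nat_lit 571722) (.g (nat_lit 424) (.e (nat_lit 475198) (nat_lit 40) (.e (nat_lit 704589) (nat_lit 3) (.e (nat_lit 163976) (nat_lit 30) .nil))) (.g (nat_lit 0) (.e (nat_lit 352719) (nat_lit 0) .nil) .nil))) 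
(.lf (nat_lit 572234) (.g (nat_lit 3153) (.e (nat_lit 483337) (nat_lit 9) (.e (nat_lit 426099) (nat_lit 1) (.e (nat_lit 164399) (nat_lit 256) (.e (nat_lit 57374) (nat_lit 2) (.e (nat_lit 90170) (nat_lit 13) (.e (nat_lit 172123) (nat_lit 13) .nil)))))) (.g (nat_lit 1) (.e (nat_lit 354060) (nat_lit 0) .nil) .nil))))) (.nd (nat_lit 8) (.nd (nat_lit 9) 
(.lf (nat_lit 571594) (.g (nat_lit 4450) (.e (nat_lit 475185) (nat_lit 29) (.e (nat_lit 557109) (nat_lit 15) (.e (nat_lit 188449) (nat_lit 22) (.e (nat_lit 196624) (nat_lit 9) .nil)))) (.g (nat_lit 0) (.e (nat_lit 352426) (nat_lit 0) .nil) .nil))) 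
(.lf (nat_lit 572106) (.g (nat_lit 1518) (.e (nat_lit 475214) (nat_lit 42) (.e (nat_lit 728832) (nat_lit 4) (.e (nat_lit 213030) (nat_lit 11) (.e (nat_lit 24660) (nat_lit 13) (.e (nat_lit 393292) (nat_lit 26) .nil))))) (.g (nat_lit 1) (.e (nat_lit 353786) (nat_lit 0) .nil) .nil)))) (.nd (nat_lit 9) 
(.lf (nat_lit 571850) (.g (nat_lit 3804) (.e (nat_lit 475199) (nat_lit 40) (.e (nat_lit 704589) (nat_lit 3) (.e (nat_lit 163978) (nat_lit 30) (.e (nat_lit 573485) (nat_lit 13) (.e (nat_lit 65619) (nat_lit 10) (.e (nat_lit 344117) (nat_lit 21) (.e (nat_lit 516182) (nat_lit 15) .nil))))))) (.g (nat_lit 1) (.e (nat_lit 353187) (nat_lit 0) .nil) .nil))) 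
(.lf (nat_lit 572362) (.g (nat_lit 2535) (.e (nat_lit 483337) (nat_lit 9) (.e (nat_lit 426108) (nat_lit 1) (.e (nat_lit 164401) (nat_lit 256) (.e (nat_lit 57373) (nat_lit 2) (.e (nat_lit 90167) (nat_lit 13) (.e (nat_lit 172123) (nat_lit 13) .nil)))))) (.g (nat_lit 1) (.e (nat_lit 354481) (nat_lit 0) .nil) .nil))))))) (.nd (nat_lit 6) (.nd (nat_lit 7) (.nd (nat_lit 8) (.nd (nat_lit 9) 
(.lf (nat_lit 571434) (.g (nat_lit 1409) (.e (nat_lit 475185) (nat_lit 29) (.e (nat_lit 557100) (nat_lit 13) (.e (nat_lit 172115) (nat_lit 10) (.e (nat_lit 434231) (nat_lit 23) .nil)))) (.g (nat_lit 0) (.e (nat_lit 352252) (nat_lit 0) .nil) .nil))) 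
(.lf (nat_lit 571946) (.g (nat_lit 1461) (.e (nat_lit 475208) (nat_lit 41) (.e (nat_lit 712752) (nat_lit 29) (.e (nat_lit 442428) (nat_lit 24) (.e (nat_lit 229680) (nat_lit 244) .nil)))) (.g (nat_lit 0) (.e (nat_lit 353505) (nat_lit 0) .nil) .nil)))) (.nd (nat_lit 9) 
(.lf (nat_lit 571690) (.g (nat_lit 1966) (.e (nat_lit 475197) (nat_lit 40) (.e (nat_lit 704589) (nat_lit 3) (.e (nat_lit 163979) (nat_lit 30) (.e (nat_lit 573491) (nat_lit 15) (.e (nat_lit 89856) (nat_lit 23) .nil))))) (.g (nat_lit 0) (.e (nat_lit 352616) (nat_lit 0) .nil) .nil))) 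
(.lf (nat_lit 572202) (.g (nat_lit 2683) (.e (nat_lit 483337) (nat_lit 9) (.e (nat_lit 426098) (nat_lit 1) (.e (nat_lit 164398) (nat_lit 256) (.e (nat_lit 57379) (nat_lit 3) (.e (nat_lit 98354) (nat_lit 26) (.e (nat_lit 426323) (nat_lit 13) .nil)))))) (.g (nat_lit 1) (.e (nat_lit 354028) (nat_lit 0) .nil) .nil))))) (.nd (nat_lit 8) (.nd (nat_lit 9) 
(.lf (nat_lit 571562) (.g (nat_lit 3847) (.e (nat_lit 475185) (nat_lit 29) (.e (nat_lit 557108) (nat_lit 15) (.e (nat_lit 188449) (nat_lit 22) (.e (nat_lit 204544) (nat_lit 21) .nil)))) (.g (nat_lit 0) (.e (nat_lit 352391) (nat_lit 0) .nil) .nil))) 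
(.lf (nat_lit 572074) (.g (nat_lit 4292) (.e (nat_lit 475211) (nat_lit 41) (.e (nat_lit 712755) (nat_lit 30) (.e (nat_lit 450563) (nat_lit 0) (.e (nat_lit 5537) (nat_lit 306) (.e (nat_lit 2628) (nat_lit 164) (.e (nat_lit 172120) (nat_lit 12) .nil)))))) (.g (nat_lit 1) (.e (nat_lit 353732) (nat_lit 0) .nil) .nil)))) (.nd (nat_lit 9) 
(.lf (nat_lit 571818) (.g (nat_lit 3061) (.e (nat_lit 475199) (nat_lit 40) (.e (nat_lit 704589) (nat_lit 3) (.e (nat_lit 163975) (nat_lit 30) (.e (nat_lit 573481) (nat_lit 13) (.e (nat_lit 65619) (nat_lit 10) (.e (nat_lit 344116) (nat_lit 21) (.e (nat_lit 516182) (nat_lit 15) .nil))))))) (.g (nat_lit 1) (.e (nat_lit 352975) (nat_lit 0) .nil) .nil))) 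
(.lf (nat_lit 572330) (.g (nat_lit 2374) (.e (nat_lit 483337) (nat_lit 9) (.e (nat_lit 426107) (nat_lit 1) (.e (nat_lit 164396) (nat_lit 256) (.e (nat_lit 57371) (nat_lit 2) (.e (nat_lit 90167) (nat_lit 13) (.e (nat_lit 172123) (nat_lit 13) .nil)))))) (.g (nat_lit 1) (.e (nat_lit 354376) (nat_lit 0) .nil) .nil)))))) (.nd (nat_lit 7) (.nd (nat_lit 8) (.nd (nat_lit 9) 
(.lf (nat_lit 571498) (.g (nat_lit 3190) (.e (nat_lit 475185) (nat_lit 29) (.e (nat_lit 557101) (nat_lit 13) (.e (nat_lit 172115) (nat_lit 10) (.e (nat_lit 434244) (nat_lit 28) (.e (nat_lit 573450) (nat_lit 9) (.e (nat_lit 381) (nat_lit 32) (.e (nat_lit 433920) (nat_lit 12) .nil))))))) (.g (nat_lit 1) (.e (nat_lit 352317) (nat_lit 0) .nil) .nil))) 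
(.lf (nat_lit 572010) (.g (nat_lit 444) (.e (nat_lit 475210) (nat_lit 41) (.e (nat_lit 712755) (nat_lit 30) (.e (nat_lit 450562) (nat_lit 0) .nil))) (.g (nat_lit 0) (.e (nat_lit 353626) (nat_lit 0) .nil) .nil)))) (.nd (nat_lit 9) 
(.lf (nat_lit 571754) (.g (nat_lit 2011) (.e (nat_lit 475198) (nat_lit 40) (.e (nat_lit 704589) (nat_lit 3) (.e (nat_lit 163979) (nat_lit 30) (.e (nat_lit 573491) (nat_lit 15) (.e (nat_lit 81943) (nat_lit 20) (.e (nat_lit 1798) (nat_lit 119) (.e (nat_lit 516182) (nat_lit 15) .nil))))))) (.g (nat_lit 1) (.e (nat_lit 352797) (nat_lit 0) .nil) .nil))) 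
(.lf (nat_lit 572266) (.g (nat_lit 4300) (.e (nat_lit 483337) (nat_lit 9) (.e (nat_lit 426100) (nat_lit 1) (.e (nat_lit 164398) (nat_lit 256) (.e (nat_lit 57379) (nat_lit 3) (.e (nat_lit 98365) (nat_lit 26) (.e (nat_lit 426325) (nat_lit 13) .nil)))))) (.g (nat_lit 1) (.e (nat_lit 354103) (nat_lit 0) .nil) .nil))))) (.nd (nat_lit 8) (.nd (nat_lit 9) 
(.lf (nat_lit 571626) (.g (nat_lit 3469) (.e (nat_lit 475185) (nat_lit 29) (.e (nat_lit 557109) (nat_lit 15) (.e (nat_lit 188452) (nat_lit 23) (.e (nat_lit 204821) (nat_lit 17) (.e (nat_lit 6680) (nat_lit 357) (.e (nat_lit 3066) (nat_lit 190) .nil)))))) (.g (nat_lit 1) (.e (nat_lit 352458) (nat_lit 0) .nil) .nil))) 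
(.lf (nat_lit 572138) (.g (nat_lit 675) (.e (nat_lit 483336) (nat_lit 9) (.e (nat_lit 426100) (nat_lit 1) (.e (nat_lit 164332) (nat_lit 230) .nil))) (.g (nat_lit 0) (.e (nat_lit 353891) (nat_lit 0) .nil) .nil)))) (.nd (nat_lit 9) 
(.lf (nat_lit 571882) (.g (nat_lit 3362) (.e (nat_lit 475199) (nat_lit 40) (.e (nat_lit 704589) (nat_lit 3) (.e (nat_lit 163979) (nat_lit 30) (.e (nat_lit 573491) (nat_lit 15) (.e (nat_lit 81954) (nat_lit 23) (.e (nat_lit 106240) (nat_lit 32) .nil)))))) (.g (nat_lit 1) (.e (nat_lit 353236) (nat_lit 0) .nil) .nil))) 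
(.lf (nat_lit 572394) (.g (nat_lit 3490) (.e (nat_lit 483337) (nat_lit 9) (.e (nat_lit 426189) (nat_lit 9) (.e (nat_lit 426436) (nat_lit 18) (.e (nat_lit 98335) (nat_lit 18) (.e (nat_lit 164325) (nat_lit 230) (.e (nat_lit 163943) (nat_lit 19) .nil)))))) (.g (nat_lit 1) (.e (nat_lit 354539) (nat_lit 0) .nil) .nil)))))))) 
(.nd (nat_lit 5) (.nd (nat_lit 6) (.nd (nat_lit 7) (.nd (nat_lit 8) (.nd (nat_lit 9) 
(.lf (nat_lit 571418) (.g (nat_lit 4044) (.e (nat_lit 475185) (nat_lit 29) (.e (nat_lit 557100) (nat_lit 13) (.e (nat_lit 172113) (nat_lit 10) (.e (nat_lit 434248) (nat_lit 28) (.e (nat_lit 573471) (nat_lit 11) (.e (nat_lit 16456) (nat_lit 12) .nil)))))) (.g (nat_lit 1) (.e (nat_lit 352236) (nat_lit 0) .nil) .nil))) 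
(.lf (nat_lit 571930) (.g (nat_lit 1113) (.e (nat_lit 475207) (nat_lit 41) (.e (nat_lit 712755) (nat_lit 30) (.e (nat_lit 450562) (nat_lit 0) (.e (nat_lit 5539) (nat_lit 306) .nil)))) (.g (nat_lit 0) (.e (nat_lit 353478) (nat_lit 0) .nil) .nil)))) (.nd (nat_lit 9) 
(.lf (nat_lit 571674) (.g (nat_lit 765) (.e (nat_lit 475197) (nat_lit 40) (.e (nat_lit 704589) (nat_lit 3) (.e (nat_lit 163976) (nat_lit 30) (.e (nat_lit 573491) (nat_lit 15) .nil)))) (.g (nat_lit 0) (.e (nat_lit 352574) (nat_lit 0) .nil) .nil))) 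
(.lf (nat_lit 572186) (.g (nat_lit 1416) (.e (nat_lit 483337) (nat_lit 9) (.e (nat_lit 426098) (nat_lit 1) (.e (nat_lit 164396) (nat_lit 256) (.e (nat_lit 57379) (nat_lit 3) (.e (nat_lit 98363) (nat_lit 26) .nil))))) (.g (nat_lit 0) (.e (nat_lit 354012) (nat_lit 0) .nil) .nil))))) (.nd (nat_lit 8) (.nd (nat_lit 9) 
(.lf (nat_lit 571546) (.g (nat_lit 2446) (.e (nat_lit 475185) (nat_lit 29) (.e (nat_lit 557107) (nat_lit 15) (.e (nat_lit 188450) (nat_lit 23) (.e (nat_lit 204883) (nat_lit 33) (.e (nat_lit 401452) (nat_lit 12) .nil))))) (.g (nat_lit 1) (.e (nat_lit 352375) (nat_lit 0) .nil) .nil))) 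
(.lf (nat_lit 572058) (.g (nat_lit 2504) (.e (nat_lit 475211) (nat_lit 41) (.e (nat_lit 712753) (nat_lit 30) (.e (nat_lit 450568) (nat_lit 0) (.e (nat_lit 5448) (nat_lit 306) (.e (nat_lit 2630) (nat_lit 164) (.e (nat_lit 172118) (nat_lit 12) .nil)))))) (.g (nat_lit 1) (.e (nat_lit 353707) (nat_lit 0) .nil) .nil)))) (.nd (nat_lit 9) 
(.lf (nat_lit 571802) (.g (nat_lit 3163) (.e (nat_lit 475198) (nat_lit 40) (.e (nat_lit 704598) (nat_lit 6) (.e (nat_lit 188455) (nat_lit 24) (.e (nat_lit 229678) (nat_lit 244) (.e (nat_lit 163913) (nat_lit 12) (.e (nat_lit 426318) (nat_lit 12) .nil)))))) (.g (nat_lit 1) (.e (nat_lit 352953) (nat_lit 0) .nil) .nil))) 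
(.lf (nat_lit 572314) (.g (nat_lit 1775) (.e (nat_lit 483337) (nat_lit 9) (.e (nat_lit 426107) (nat_lit 1) (.e (nat_lit 164326) (nat_lit 230) (.e (nat_lit 163871) (nat_lit 2) (.e (nat_lit 204544) (nat_lit 11) .nil))))) (.g (nat_lit 0) (.e (nat_lit 354314) (nat_lit 0) .nil) .nil)))))) (.nd (nat_lit 7) (.nd (nat_lit 8) (.nd (nat_lit 9) 
(.lf (nat_lit 571482) (.g (nat_lit 3246) (.e (nat_lit 475185) (nat_lit 29) (.e (nat_lit 557101) (nat_lit 13) (.e (nat_lit 172115) (nat_lit 10) (.e (nat_lit 434238) (nat_lit 25) (.e (nat_lit 548898) (nat_lit 14) (.e (nat_lit 2878) (nat_lit 184) (.e (nat_lit 426317) (nat_lit 12) .nil))))))) (.g (nat_lit 1) (.e (nat_lit 352301) (nat_lit 0) .nil) .nil))) 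
(.lf (nat_lit 571994) (.g (nat_lit 1532) (.e (nat_lit 475210) (nat_lit 41) (.e (nat_lit 712752) (nat_lit 29) (.e (nat_lit 442419) (nat_lit 21) (.e (nat_lit 164398) (nat_lit 256) .nil)))) (.g (nat_lit 0) (.e (nat_lit 353606) (nat_lit 0) .nil) .nil)))) (.nd (nat_lit 9) 
(.lf (nat_lit 571738) (.g (nat_lit 3999) (.e (nat_lit 475198) (nat_lit 40) (.e (nat_lit 704589) (nat_lit 3) (.e (nat_lit 163978) (nat_lit 30) (.e (nat_lit 573485) (nat_lit 13) (.e (nat_lit 65604) (nat_lit 9) (.e (nat_lit 336028) (nat_lit 3) (.e (nat_lit 106240) (nat_lit 32) .nil))))))) (.g (nat_lit 1) (.e (nat_lit 352777) (nat_lit 0) .nil) .nil))) 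
(.lf (nat_lit 572250) (.g (nat_lit 3449) (.e (nat_lit 483337) (nat_lit 9) (.e (nat_lit 426100) (nat_lit 1) (.e (nat_lit 164398) (nat_lit 256) (.e (nat_lit 57372) (nat_lit 2) (.e (nat_lit 90185) (nat_lit 17) (.e (nat_lit 237624) (nat_lit 13) .nil)))))) (.g (nat_lit 1) (.e (nat_lit 354087) (nat_lit 0) .nil) .nil))))) (.nd (nat_lit 8) (.nd (nat_lit 9) 
(.lf (nat_lit 571610) (.g (nat_lit 5422) (.e (nat_lit 475185) (nat_lit 29) (.e (nat_lit 557109) (nat_lit 15) (.e (nat_lit 188449) (nat_lit 22) (.e (nat_lit 196690) (nat_lit 18) .nil)))) (.g (nat_lit 0) (.e (nat_lit 352442) (nat_lit 0) .nil) .nil))) 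
(.lf (nat_lit 572122) (.g (nat_lit 3389) (.e (nat_lit 475220) (nat_lit 44) (.e (nat_lit 737318) (nat_lit 15) (.e (nat_lit 49189) (nat_lit 11) (.e (nat_lit 16425) (nat_lit 7) (.e (nat_lit 409648) (nat_lit 18) (.e (nat_lit 303143) (nat_lit 12) .nil)))))) (.g (nat_lit 1) (.e (nat_lit 353815) (nat_lit 0) .nil) .nil)))) (.nd (nat_lit 9) 
(.lf (nat_lit 571866) (.g (nat_lit 3340) (.e (nat_lit 475199) (nat_lit 40) (.e (nat_lit 704589) (nat_lit 3) (.e (nat_lit 163979) (nat_lit 30) (.e (nat_lit 573482) (nat_lit 13) (.e (nat_lit 65619) (nat_lit 10) (.e (nat_lit 344119) (nat_lit 21) (.e (nat_lit 516182) (nat_lit 15) .nil))))))) (.g (nat_lit 1) (.e (nat_lit 353211) (nat_lit 0) .nil) .nil))) 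
(.lf (nat_lit 572378) (.g (nat_lit 2227) (.e (nat_lit 483337) (nat_lit 9) (.e (nat_lit 426108) (nat_lit 1) (.e (nat_lit 164403) (nat_lit 256) (.e (nat_lit 57377) (nat_lit 3) (.e (nat_lit 98362) (nat_lit 26) .nil))))) (.g (nat_lit 0) (.e (nat_lit 354497) (nat_lit 0) .nil) .nil))))))) (.nd (nat_lit 6) (.nd (nat_lit 7) (.nd (nat_lit 8) (.nd (nat_lit 9) 
(.lf (nat_lit 571450) (.g (nat_lit 3651) (.e (nat_lit 475185) (nat_lit 29) (.e (nat_lit 557101) (nat_lit 13) (.e (nat_lit 172097) (nat_lit 9) (.e (nat_lit 426125) (nat_lit 2) (.e (nat_lit 196688) (nat_lit 18) .nil))))) (.g (nat_lit 0) (.e (nat_lit 352268) (nat_lit 0) .nil) .nil))) 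
(.lf (nat_lit 571962) (.g (nat_lit 1251) (.e (nat_lit 475209) (nat_lit 41) (.e (nat_lit 712752) (nat_lit 29) (.e (nat_lit 442428) (nat_lit 24) (.e (nat_lit 229666) (nat_lit 240) (.e (nat_lit 2725) (nat_lit 172) .nil))))) (.g (nat_lit 0) (.e (nat_lit 353532) (nat_lit 0) .nil) .nil)))) (.nd (nat_lit 9) 
(.lf (nat_lit 571706) (.g (nat_lit 3329) (.e (nat_lit 475197) (nat_lit 40) (.e (nat_lit 704598) (nat_lit 6) (.e (nat_lit 188453) (nat_lit 24) (.e (nat_lit 229663) (nat_lit 240) (.e (nat_lit 2630) (nat_lit 164) (.e (nat_lit 172118) (nat_lit 12) .nil)))))) (.g (nat_lit 1) (.e (nat_lit 352664) (nat_lit 0) .nil) .nil))) 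
(.lf (nat_lit 572218) (.g (nat_lit 3145) (.e (nat_lit 483337) (nat_lit 9) (.e (nat_lit 426098) (nat_lit 1) (.e (nat_lit 164403) (nat_lit 256) (.e (nat_lit 57373) (nat_lit 2) (.e (nat_lit 90167) (nat_lit 13) (.e (nat_lit 172123) (nat_lit 13) .nil)))))) (.g (nat_lit 1) (.e (nat_lit 354044) (nat_lit 0) .nil) .nil))))) (.nd (nat_lit 8) (.nd (nat_lit 9) 
(.lf (nat_lit 571578) (.g (nat_lit 1358) (.e (nat_lit 475185) (nat_lit 29) (.e (nat_lit 557109) (nat_lit 15) (.e (nat_lit 188434) (nat_lit 20) (.e (nat_lit 3144) (nat_lit 193) .nil)))) (.g (nat_lit 0) (.e (nat_lit 352409) (nat_lit 0) .nil) .nil))) 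
(.lf (nat_lit 572090) (.g (nat_lit 1321) (.e (nat_lit 475211) (nat_lit 41) (.e (nat_lit 712755) (nat_lit 30) (.e (nat_lit 450569) (nat_lit 0) (.e (nat_lit 5448) (nat_lit 306) (.e (nat_lit 2622) (nat_lit 164) .nil))))) (.g (nat_lit 0) (.e (nat_lit 353751) (nat_lit 0) .nil) .nil)))) (.nd (nat_lit 9) 
(.lf (nat_lit 571834) (.g (nat_lit 3313) (.e (nat_lit 475199) (nat_lit 40) (.e (nat_lit 704589) (nat_lit 3) (.e (nat_lit 163976) (nat_lit 30) (.e (nat_lit 573481) (nat_lit 13) (.e (nat_lit 65604) (nat_lit 9) (.e (nat_lit 336028) (nat_lit 3) (.e (nat_lit 106240) (nat_lit 32) .nil))))))) (.g (nat_lit 1) (.e (nat_lit 353094) (nat_lit 0) .nil) .nil))) 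
(.lf (nat_lit 572346) (.g (nat_lit 4201) (.e (nat_lit 483337) (nat_lit 9) (.e (nat_lit 426108) (nat_lit 1) (.e (nat_lit 164329) (nat_lit 230) (.e (nat_lit 163867) (nat_lit 2) (.e (nat_lit 196656) (nat_lit 11) (.e (nat_lit 16463) (nat_lit 13) .nil)))))) (.g (nat_lit 1) (.e (nat_lit 354410) (nat_lit 0) .nil) .nil)))))) (.nd (nat_lit 7) (.nd (nat_lit 8) (.nd (nat_lit 9) 
(.lf (nat_lit 571514) (.g (nat_lit 3514) (.e (nat_lit 475185) (nat_lit 29) (.e (nat_lit 557101) (nat_lit 13) (.e (nat_lit 172115) (nat_lit 10) (.e (nat_lit 434244) (nat_lit 28) (.e (nat_lit 573474) (nat_lit 12) (.e (nat_lit 57344) (nat_lit 0) (.e (nat_lit 6938) (nat_lit 375) (.e (nat_lit 163939) (nat_lit 18) .nil)))))))) (.g (nat_lit 1) (.e (nat_lit 352333) (nat_lit 0) .nil) .nil))) 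
(.lf (nat_lit 572026) (.g (nat_lit 574) (.e (nat_lit 475211) (nat_lit 41) (.e (nat_lit 712750) (nat_lit 29) (.e (nat_lit 442419) (nat_lit 21) .nil))) (.g (nat_lit 0) (.e (nat_lit 353665) (nat_lit 0) .nil) .nil)))) (.nd (nat_lit 9) 
(.lf (nat_lit 571770) (.g (nat_lit 3562) (.e (nat_lit 475198) (nat_lit 40) (.e (nat_lit 704590) (nat_lit 3) (.e (nat_lit 163975) (nat_lit 30) (.e (nat_lit 573481) (nat_lit 13) (.e (nat_lit 65604) (nat_lit 9) (.e (nat_lit 336028) (nat_lit 3) (.e (nat_lit 106240) (nat_lit 32) .nil))))))) (.g (nat_lit 1) (.e (nat_lit 352877) (nat_lit 0) .nil) .nil))) 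
(.lf (nat_lit 572282) (.g (nat_lit 4325) (.e (nat_lit 483337) (nat_lit 9) (.e (nat_lit 426100) (nat_lit 1) (.e (nat_lit 164403) (nat_lit 256) (.e (nat_lit 57373) (nat_lit 2) (.e (nat_lit 90170) (nat_lit 13) (.e (nat_lit 172121) (nat_lit 13) .nil)))))) (.g (nat_lit 1) (.e (nat_lit 354119) (nat_lit 0) .nil) .nil))))) (.nd (nat_lit 8) (.nd (nat_lit 9) 
(.lf (nat_lit 571642) (.g (nat_lit 2542) (.e (nat_lit 483072) (nat_lit 29) (.e (nat_lit 557108) (nat_lit 15) (.e (nat_lit 188452) (nat_lit 23) (.e (nat_lit 204883) (nat_lit 33) (.e (nat_lit 401454) (nat_lit 12) .nil))))) (.g (nat_lit 0) (.e (nat_lit 352481) (nat_lit 0) .nil) .nil))) 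
(.lf (nat_lit 572154) (.g (nat_lit 1645) (.e (nat_lit 483336) (nat_lit 9) (.e (nat_lit 426100) (nat_lit 1) (.e (nat_lit 164403) (nat_lit 256) (.e (nat_lit 57373) (nat_lit 2) .nil)))) (.g (nat_lit 0) (.e (nat_lit 353914) (nat_lit 0) .nil) .nil)))) (.nd (nat_lit 9) 
(.lf (nat_lit 571898) (.g (nat_lit 2299) (.e (nat_lit 475199) (nat_lit 40) (.e (nat_lit 704598) (nat_lit 6) (.e (nat_lit 188444) (nat_lit 21) (.e (nat_lit 164347) (nat_lit 240) (.e (nat_lit 2619) (nat_lit 164) (.e (nat_lit 172118) (nat_lit 12) .nil)))))) (.g (nat_lit 1) (.e (nat_lit 353407) (nat_lit 0) .nil) .nil))) 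
(.lf (nat_lit 572410) (.g (nat_lit 2891) (.e (nat_lit 483337) (nat_lit 9) (.e (nat_lit 426305) (nat_lit 12) (.e (nat_lit 475179) (nat_lit 24) (.e (nat_lit 516117) (nat_lit 1) (.e (nat_lit 164330) (nat_lit 230) (.e (nat_lit 163941) (nat_lit 19) .nil)))))) (.g (nat_lit 1) (.e (nat_lit 354603) (nat_lit 0) .nil) .nil)))))))))) 
(.nd (nat_lit 3) (.nd (nat_lit 4) (.nd (nat_lit 5) (.nd (nat_lit 6) (.nd (nat_lit 7) 
(.nd (nat_lit 8) (.nd (nat_lit 9) 
(.lf (nat_lit 571398) (.g (nat_lit 4634) (.e (nat_lit 475185) (nat_lit 29) (.e (nat_lit 557100) (nat_lit 13) (.e (nat_lit 172113) (nat_lit 10) (.e (nat_lit 434245) (nat_lit 28) (.e (nat_lit 573474) (nat_lit 12) (.e (nat_lit 57348) (nat_lit 0) (.e (nat_lit 6943) (nat_lit 375) (.e (nat_lit 163938) (nat_lit 18) .nil)))))))) (.g (nat_lit 1) (.e (nat_lit 352216) (nat_lit 0) .nil) .nil))) 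
(.lf (nat_lit 571910) (.g (nat_lit 1858) (.e (nat_lit 475199) (nat_lit 40) (.e (nat_lit 704598) (nat_lit 6) (.e (nat_lit 188455) (nat_lit 24) (.e (nat_lit 229666) (nat_lit 240) (.e (nat_lit 2725) (nat_lit 172) (.e (nat_lit 237617) (nat_lit 12) .nil)))))) (.g (nat_lit 1) (.e (nat_lit 353425) (nat_lit 0) .nil) .nil)))) (.nd (nat_lit 9) 
(.lf (nat_lit 571654) (.g (nat_lit 3657) (.e (nat_lit 475196) (nat_lit 40) (.e (nat_lit 704589) (nat_lit 3) (.e (nat_lit 163979) (nat_lit 30) (.e (nat_lit 573482) (nat_lit 13) (.e (nat_lit 65619) (nat_lit 10) (.e (nat_lit 344117) (nat_lit 21) (.e (nat_lit 516180) (nat_lit 15) .nil))))))) (.g (nat_lit 1) (.e (nat_lit 352512) (nat_lit 0) .nil) .nil))) 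
(.lf (nat_lit 572166) (.g (nat_lit 1192) (.e (nat_lit 483336) (nat_lit 9) (.e (nat_lit 426107) (nat_lit 1) (.e (nat_lit 164403) (nat_lit 256) .nil))) (.g (nat_lit 0) (.e (nat_lit 353945) (nat_lit 0) .nil) .nil))))) (.nd (nat_lit 8) (.nd (nat_lit 9) 
(.lf (nat_lit 571526) (.g (nat_lit 444) (.e (nat_lit 475185) (nat_lit 29) (.e (nat_lit 557107) (nat_lit 15) (.e (nat_lit 188438) (nat_lit 20) .nil))) (.g (nat_lit 0) (.e (nat_lit 352355) (nat_lit 0) .nil) .nil))) 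
(.lf (nat_lit 572038) (.g (nat_lit 1143) (.e (nat_lit 475211) (nat_lit 41) (.e (nat_lit 712752) (nat_lit 29) (.e (nat_lit 442428) (nat_lit 24) (.e (nat_lit 229666) (nat_lit 240) .nil)))) (.g (nat_lit 0) (.e (nat_lit 353687) (nat_lit 0) .nil) .nil)))) (.nd (nat_lit 9) 
(.lf (nat_lit 571782) (.g (nat_lit 3030) (.e (nat_lit 475198) (nat_lit 40) (.e (nat_lit 704592) (nat_lit 4) (.e (nat_lit 172126) (nat_lit 14) (.e (nat_lit 491549) (nat_lit 9) (.e (nat_lit 336414) (nat_lit 27) (.e (nat_lit 426318) (nat_lit 12) .nil)))))) (.g (nat_lit 1) (.e (nat_lit 352916) (nat_lit 0) .nil) .nil))) 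
(.lf (nat_lit 572294) (.g (nat_lit 1147) (.e (nat_lit 483337) (nat_lit 9) (.e (nat_lit 426107) (nat_lit 1) (.e (nat_lit 164322) (nat_lit 230) (.e (nat_lit 163867) (nat_lit 2) .nil)))) (.g (nat_lit 0) (.e (nat_lit 354133) (nat_lit 0) .nil) .nil)))))) (.nd (nat_lit 7) (.nd (nat_lit 8) (.nd (nat_lit 9) 
(.lf (nat_lit 571462) (.g (nat_lit 3245) (.e (nat_lit 475185) (nat_lit 29) (.e (nat_lit 557101) (nat_lit 13) (.e (nat_lit 172115) (nat_lit 10) (.e (nat_lit 434231) (nat_lit 23) (.e (nat_lit 532481) (nat_lit 0) (.e (nat_lit 6691) (nat_lit 357) (.e (nat_lit 3056) (nat_lit 190) .nil))))))) (.g (nat_lit 1) (.e (nat_lit 352281) (nat_lit 0) .nil) .nil))) 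
(.lf (nat_lit 571974) (.g (nat_lit 428) (.e (nat_lit 475209) (nat_lit 41) (.e (nat_lit 712755) (nat_lit 30) (.e (nat_lit 450568) (nat_lit 0) .nil))) (.g (nat_lit 0) (.e (nat_lit 353547) (nat_lit 0) .nil) .nil)))) (.nd (nat_lit 9) 
(.lf (nat_lit 571718) (.g (nat_lit 1887) (.e (nat_lit 475198) (nat_lit 40) (.e (nat_lit 704589) (nat_lit 3) (.e (nat_lit 163975) (nat_lit 30) (.e (nat_lit 573491) (nat_lit 15) (.e (nat_lit 89856) (nat_lit 20) (.e (nat_lit 1784) (nat_lit 119) (.e (nat_lit 516182) (nat_lit 15) .nil))))))) (.g (nat_lit 1) (.e (nat_lit 352680) (nat_lit 0) .nil) .nil))) 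
(.lf (nat_lit 572230) (.g (nat_lit 1986) (.e (nat_lit 483337) (nat_lit 9) (.e (nat_lit 426099) (nat_lit 1) (.e (nat_lit 164399) (nat_lit 256) (.e (nat_lit 57372) (nat_lit 2) (.e (nat_lit 90185) (nat_lit 17) (.e (nat_lit 237624) (nat_lit 13) .nil)))))) (.g (nat_lit 1) (.e (nat_lit 354056) (nat_lit 0) .nil) .nil))))) (.nd (nat_lit 8) (.nd (nat_lit 9) 
(.lf (nat_lit 571590) (.g (nat_lit 4953) (.e (nat_lit 475185) (nat_lit 29) (.e (nat_lit 557109) (nat_lit 15) (.e (nat_lit 188449) (nat_lit 22) (.e (nat_lit 196618) (nat_lit 9) .nil)))) (.g (nat_lit 0) (.e (nat_lit 352422) (nat_lit 0) .nil) .nil))) 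
(.lf (nat_lit 572102) (.g (nat_lit 1595) (.e (nat_lit 475212) (nat_lit 42) (.e (nat_lit 728832) (nat_lit 4) (.e (nat_lit 213032) (nat_lit 11) (.e (nat_lit 24655) (nat_lit 13) (.e (nat_lit 393295) (nat_lit 26) .nil))))) (.g (nat_lit 1) (.e (nat_lit 353765) (nat_lit 0) .nil) .nil)))) (.nd (nat_lit 9) 
(.lf (nat_lit 571846) (.g (nat_lit 886) (.e (nat_lit 475199) (nat_lit 40) (.e (nat_lit 704589) (nat_lit 3) (.e (nat_lit 163978) (nat_lit 30) (.e (nat_lit 573485) (nat_lit 13) .nil)))) (.g (nat_lit 0) (.e (nat_lit 353182) (nat_lit 0) .nil) .nil))) 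
(.lf (nat_lit 572358) (.g (nat_lit 726) (.e (nat_lit 483337) (nat_lit 9) (.e (nat_lit 426108) (nat_lit 1) (.e (nat_lit 164406) (nat_lit 258) .nil))) (.g (nat_lit 0) (.e (nat_lit 354477) (nat_lit 0) .nil) .nil))))))) (.nd (nat_lit 6) (.nd (nat_lit 7) (.nd (nat_lit 8) (.nd (nat_lit 9) 
(.lf (nat_lit 571430) (.g (nat_lit 2904) (.e (nat_lit 475185) (nat_lit 29) (.e (nat_lit 557100) (nat_lit 13) (.e (nat_lit 172113) (nat_lit 10) (.e (nat_lit 434248) (nat_lit 28) (.e (nat_lit 573475) (nat_lit 12) (.e (nat_lit 57348) (nat_lit 0) (.e (nat_lit 6938) (nat_lit 375) (.e (nat_lit 163938) (nat_lit 18) .nil)))))))) (.g (nat_lit 1) (.e (nat_lit 352248) (nat_lit 0) .nil) .nil))) 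
(.lf (nat_lit 571942) (.g (nat_lit 3710) (.e (nat_lit 475207) (nat_lit 41) (.e (nat_lit 712755) (nat_lit 30) (.e (nat_lit 450597) (nat_lit 17) (.e (nat_lit 663589) (nat_lit 14) (.e (nat_lit 2798) (nat_lit 180) (.e (nat_lit 303143) (nat_lit 12) .nil)))))) (.g (nat_lit 1) (.e (nat_lit 353496) (nat_lit 0) .nil) .nil)))) (.nd (nat_lit 9) 
(.lf (nat_lit 571686) (.g (nat_lit 2074) (.e (nat_lit 475197) (nat_lit 40) (.e (nat_lit 704589) (nat_lit 3) (.e (nat_lit 163979) (nat_lit 30) (.e (nat_lit 573491) (nat_lit 15) (.e (nat_lit 81946) (nat_lit 20) .nil))))) (.g (nat_lit 0) (.e (nat_lit 352611) (nat_lit 0) .nil) .nil))) 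
(.lf (nat_lit 572198) (.g (nat_lit 2237) (.e (nat_lit 483337) (nat_lit 9) (.e (nat_lit 426098) (nat_lit 1) (.e (nat_lit 164398) (nat_lit 256) (.e (nat_lit 57377) (nat_lit 3) (.e (nat_lit 98363) (nat_lit 26) .nil))))) (.g (nat_lit 0) (.e (nat_lit 354024) (nat_lit 0) .nil) .nil))))) (.nd (nat_lit 8) (.nd (nat_lit 9) 
(.lf (nat_lit 571558) (.g (nat_lit 381) (.e (nat_lit 475185) (nat_lit 29) (.e (nat_lit 557107) (nat_lit 15) (.e (nat_lit 188456) (nat_lit 25) .nil))) (.g (nat_lit 0) (.e (nat_lit 352387) (nat_lit 0) .nil) .nil))) 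
(.lf (nat_lit 572070) (.g (nat_lit 456) (.e (nat_lit 475211) (nat_lit 41) (.e (nat_lit 712755) (nat_lit 30) (.e (nat_lit 450562) (nat_lit 0) .nil))) (.g (nat_lit 0) (.e (nat_lit 353720) (nat_lit 0) .nil) .nil)))) (.nd (nat_lit 9) 
(.lf (nat_lit 571814) (.g (nat_lit 405) (.e (nat_lit 475199) (nat_lit 40) (.e (nat_lit 704589) (nat_lit 3) (.e (nat_lit 163975) (nat_lit 30) .nil))) (.g (nat_lit 0) (.e (nat_lit 352969) (nat_lit 0) .nil) .nil))) 
(.lf (nat_lit 572326) (.g (nat_lit 3134) (.e (nat_lit 483337) (nat_lit 9) (.e (nat_lit 426107) (nat_lit 1) (.e (nat_lit 164332) (nat_lit 230) (.e (nat_lit 163869) (nat_lit 2) (.e (nat_lit 196654) (nat_lit 11) (.e (nat_lit 16463) (nat_lit 13) .nil)))))) (.g (nat_lit 1) (.e (nat_lit 354369) (nat_lit 0) .nil) .nil)))))) (.nd (nat_lit 7) (.nd (nat_lit 8) (.nd (nat_lit 9) 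
(.lf (nat_lit 571494) (.g (nat_lit 2796) (.e (nat_lit 475185) (nat_lit 29) (.e (nat_lit 557101) (nat_lit 13) (.e (nat_lit 172115) (nat_lit 10) (.e (nat_lit 434244) (nat_lit 28) (.e (nat_lit 573450) (nat_lit 9) (.e (nat_lit 372) (nat_lit 32) (.e (nat_lit 426319) (nat_lit 12) .nil))))))) (.g (nat_lit 1) (.e (nat_lit 352313) (nat_lit 0) .nil) .nil))) 
(.lf (nat_lit 572006) (.g (nat_lit 3243) (.e (nat_lit 475210) (nat_lit 41) (.e (nat_lit 712753) (nat_lit 30) (.e (nat_lit 450564) (nat_lit 0) (.e (nat_lit 5548) (nat_lit 306) (.e (nat_lit 2628) (nat_lit 164) (.e (nat_lit 172118) (nat_lit 12) .nil)))))) (.g (nat_lit 1) (.e (nat_lit 353620) (nat_lit 0) .nil) .nil)))) (.nd (nat_lit 9) 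
(.lf (nat_lit 571750) (.g (nat_lit 4331) (.e (nat_lit 475198) (nat_lit 40) (.e (nat_lit 704589) (nat_lit 3) (.e (nat_lit 163979) (nat_lit 30) (.e (nat_lit 573482) (nat_lit 13) (.e (nat_lit 65619) (nat_lit 10) (.e (nat_lit 344117) (nat_lit 21) (.e (nat_lit 516178) (nat_lit 15) .nil))))))) (.g (nat_lit 1) (.e (nat_lit 352793) (nat_lit 0) .nil) .nil))) 
(.lf (nat_lit 572262) (.g (nat_lit 2686) (.e (nat_lit 483337) (nat_lit 9) (.e (nat_lit 426100) (nat_lit 1) (.e (nat_lit 164398) (nat_lit 256) (.e (nat_lit 57379) (nat_lit 3) (.e (nat_lit 98354) (nat_lit 26) (.e (nat_lit 426323) (nat_lit 13) .nil)))))) (.g (nat_lit 1) (.e (nat_lit 354099) (nat_lit 0) .nil) .nil))))) (.nd (nat_lit 8) (.nd (nat_lit 9) 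
(.lf (nat_lit 571622) (.g (nat_lit 4303) (.e (nat_lit 475185) (nat_lit 29) (.e (nat_lit 557109) (nat_lit 15) (.e (nat_lit 188452) (nat_lit 23) (.e (nat_lit 204816) (nat_lit 17) (.e (nat_lit 6619) (nat_lit 357) (.e (nat_lit 3071) (nat_lit 190) .nil)))))) (.g (nat_lit 1) (.e (nat_lit 352454) (nat_lit 0) .nil) .nil))) 
(.lf (nat_lit 572134) (.g (nat_lit 728) (.e (nat_lit 483336) (nat_lit 9) (.e (nat_lit 426098) (nat_lit 1) (.e (nat_lit 164403) (nat_lit 256) .nil))) (.g (nat_lit 0) (.e (nat_lit 353886) (nat_lit 0) .nil) .nil)))) (.nd (nat_lit 9) 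
(.lf (nat_lit 571878) (.g (nat_lit 3692) (.e (nat_lit 475199) (nat_lit 40) (.e (nat_lit 704589) (nat_lit 3) (.e (nat_lit 163979) (nat_lit 30) (.e (nat_lit 573491) (nat_lit 15) (.e (nat_lit 81946) (nat_lit 20) (.e (nat_lit 1802) (nat_lit 119) (.e (nat_lit 516181) (nat_lit 15) .nil))))))) (.g (nat_lit 1) (.e (nat_lit 353228) (nat_lit 0) .nil) .nil))) 
(.lf (nat_lit 572390) (.g (nat_lit 3529) (.e (nat_lit 483337) (nat_lit 9) (.e (nat_lit 426188) (nat_lit 9) (.e (nat_lit 426436) (nat_lit 18) (.e (nat_lit 98335) (nat_lit 18) (.e (nat_lit 164327) (nat_lit 230) (.e (nat_lit 163944) (nat_lit 19) .nil)))))) (.g (nat_lit 1) (.e (nat_lit 354525) (nat_lit 0) .nil) .nil)))))))) 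
(.nd (nat_lit 5) (.nd (nat_lit 6) (.nd (nat_lit 7) (.nd (nat_lit 8) (.nd (nat_lit 9) 
(.lf (nat_lit 571414) (.g (nat_lit 2518) (.e (nat_lit 475185) (nat_lit 29) (.e (nat_lit 557100) (nat_lit 13) (.e (nat_lit 172113) (nat_lit 10) (.e (nat_lit 434248) (nat_lit 28) (.e (nat_lit 573457) (nat_lit 9) (.e (nat_lit 430) (nat_lit 32) (.e (nat_lit 426308) (nat_lit 12) .nil))))))) (.g (nat_lit 1) (.e (nat_lit 352232) (nat_lit 0) .nil) .nil))) 
(.lf (nat_lit 571926) (.g (nat_lit 362) (.e (nat_lit 475207) (nat_lit 41) (.e (nat_lit 712755) (nat_lit 30) (.e (nat_lit 450562) (nat_lit 0) .nil))) (.g (nat_lit 0) (.e (nat_lit 353473) (nat_lit 0) .nil) .nil)))) (.nd (nat_lit 9) 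
(.lf (nat_lit 571670) (.g (nat_lit 1726) (.e (nat_lit 475197) (nat_lit 40) (.e (nat_lit 704589) (nat_lit 3) (.e (nat_lit 163975) (nat_lit 30) (.e (nat_lit 573491) (nat_lit 15) (.e (nat_lit 81946) (nat_lit 20) (.e (nat_lit 1802) (nat_lit 119) (.e (nat_lit 516178) (nat_lit 15) .nil))))))) (.g (nat_lit 1) (.e (nat_lit 352547) (nat_lit 0) .nil) .nil))) 
(.lf (nat_lit 572182) (.g (nat_lit 3527) (.e (nat_lit 483337) (nat_lit 9) (.e (nat_lit 426098) (nat_lit 1) (.e (nat_lit 164325) (nat_lit 230) (.e (nat_lit 163868) (nat_lit 2) (.e (nat_lit 196656) (nat_lit 11) (.e (nat_lit 16466) (nat_lit 13) .nil)))))) (.g (nat_lit 1) (.e (nat_lit 353996) (nat_lit 0) .nil) .nil))))) (.nd (nat_lit 8) (.nd (nat_lit 9) 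
(.lf (nat_lit 571542) (.g (nat_lit 2569) (.e (nat_lit 475185) (nat_lit 29) (.e (nat_lit 557107) (nat_lit 15) (.e (nat_lit 188450) (nat_lit 23) (.e (nat_lit 204821) (nat_lit 17) (.e (nat_lit 6680) (nat_lit 357) (.e (nat_lit 3065) (nat_lit 190) .nil)))))) (.g (nat_lit 1) (.e (nat_lit 352371) (nat_lit 0) .nil) .nil))) 
(.lf (nat_lit 572054) (.g (nat_lit 1761) (.e (nat_lit 475211) (nat_lit 41) (.e (nat_lit 712753) (nat_lit 30) (.e (nat_lit 450564) (nat_lit 0) (.e (nat_lit 5548) (nat_lit 306) (.e (nat_lit 2618) (nat_lit 164) .nil))))) (.g (nat_lit 0) (.e (nat_lit 353703) (nat_lit 0) .nil) .nil)))) (.nd (nat_lit 9) 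
(.lf (nat_lit 571798) (.g (nat_lit 1515) (.e (nat_lit 475198) (nat_lit 40) (.e (nat_lit 704598) (nat_lit 6) (.e (nat_lit 188453) (nat_lit 24) (.e (nat_lit 229680) (nat_lit 244) (.e (nat_lit 163900) (nat_lit 12) .nil))))) (.g (nat_lit 0) (.e (nat_lit 352949) (nat_lit 0) .nil) .nil))) 
(.lf (nat_lit 572310) (.g (nat_lit 4019) (.e (nat_lit 483337) (nat_lit 9) (.e (nat_lit 426107) (nat_lit 1) (.e (nat_lit 164326) (nat_lit 230) (.e (nat_lit 163871) (nat_lit 2) (.e (nat_lit 196654) (nat_lit 11) (.e (nat_lit 16463) (nat_lit 13) .nil)))))) (.g (nat_lit 1) (.e (nat_lit 354305) (nat_lit 0) .nil) .nil)))))) (.nd (nat_lit 7) (.nd (nat_lit 8) (.nd (nat_lit 9) 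
(.lf (nat_lit 571478) (.g (nat_lit 1490) (.e (nat_lit 475185) (nat_lit 29) (.e (nat_lit 557101) (nat_lit 13) (.e (nat_lit 172115) (nat_lit 10) (.e (nat_lit 434238) (nat_lit 25) (.e (nat_lit 548898) (nat_lit 14) .nil))))) (.g (nat_lit 0) (.e (nat_lit 352297) (nat_lit 0) .nil) .nil))) 
(.lf (nat_lit 571990) (.g (nat_lit 574) (.e (nat_lit 475210) (nat_lit 41) (.e (nat_lit 712750) (nat_lit 29) (.e (nat_lit 442393) (nat_lit 20) .nil))) (.g (nat_lit 0) (.e (nat_lit 353582) (nat_lit 0) .nil) .nil)))) (.nd (nat_lit 9) 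
(.lf (nat_lit 571734) (.g (nat_lit 2964) (.e (nat_lit 475198) (nat_lit 40) (.e (nat_lit 704589) (nat_lit 3) (.e (nat_lit 163978) (nat_lit 30) (.e (nat_lit 573479) (nat_lit 13) (.e (nat_lit 65619) (nat_lit 10) .nil))))) (.g (nat_lit 0) (.e (nat_lit 352773) (nat_lit 0) .nil) .nil))) 
(.lf (nat_lit 572246) (.g (nat_lit 2117) (.e (nat_lit 483337) (nat_lit 9) (.e (nat_lit 426100) (nat_lit 1) (.e (nat_lit 164398) (nat_lit 256) (.e (nat_lit 57372) (nat_lit 2) (.e (nat_lit 90168) (nat_lit 13) .nil))))) (.g (nat_lit 0) (.e (nat_lit 354083) (nat_lit 0) .nil) .nil))))) (.nd (nat_lit 8) (.nd (nat_lit 9) 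
(.lf (nat_lit 571606) (.g (nat_lit 5438) (.e (nat_lit 475185) (nat_lit 29) (.e (nat_lit 557109) (nat_lit 15) (.e (nat_lit 188449) (nat_lit 22) (.e (nat_lit 196685) (nat_lit 18) .nil)))) (.g (nat_lit 0) (.e (nat_lit 352438) (nat_lit 0) .nil) .nil))) 
(.lf (nat_lit 572118) (.g (nat_lit 3267) (.e (nat_lit 475219) (nat_lit 44) (.e (nat_lit 737318) (nat_lit 15) (.e (nat_lit 49189) (nat_lit 11) (.e (nat_lit 16425) (nat_lit 7) (.e (nat_lit 409645) (nat_lit 18) (.e (nat_lit 303143) (nat_lit 12) .nil)))))) (.g (nat_lit 1) (.e (nat_lit 353804) (nat_lit 0) .nil) .nil)))) (.nd (nat_lit 9) 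
(.lf (nat_lit 571862) (.g (nat_lit 2107) (.e (nat_lit 475199) (nat_lit 40) (.e (nat_lit 704589) (nat_lit 3) (.e (nat_lit 163979) (nat_lit 30) (.e (nat_lit 573482) (nat_lit 13) (.e (nat_lit 65609) (nat_lit 10) (.e (nat_lit 344118) (nat_lit 21) (.e (nat_lit 516182) (nat_lit 15) .nil))))))) (.g (nat_lit 1) (.e (nat_lit 353206) (nat_lit 0) .nil) .nil))) 
(.lf (nat_lit 572374) (.g (nat_lit 2431) (.e (nat_lit 483337) (nat_lit 9) (.e (nat_lit 426108) (nat_lit 1) (.e (nat_lit 164403) (nat_lit 256) (.e (nat_lit 57371) (nat_lit 2) (.e (nat_lit 90169) (nat_lit 13) (.e (nat_lit 172121) (nat_lit 13) .nil)))))) (.g (nat_lit 1) (.e (nat_lit 354493) (nat_lit 0) .nil) .nil))))))) (.nd (nat_lit 6) (.nd (nat_lit 7) (.nd (nat_lit 8) (.nd (nat_lit 9) 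
(.lf (nat_lit 571446) (.g (nat_lit 3347) (.e (nat_lit 475185) (nat_lit 29) (.e (nat_lit 557101) (nat_lit 13) (.e (nat_lit 172097) (nat_lit 9) (.e (nat_lit 426125) (nat_lit 2) (.e (nat_lit 196661) (nat_lit 12) (.e (nat_lit 65280) (nat_lit 201) (.e (nat_lit 3059) (nat_lit 190) .nil))))))) (.g (nat_lit 1) (.e (nat_lit 352264) (nat_lit 0) .nil) .nil))) 
(.lf (nat_lit 571958) (.g (nat_lit 537) (.e (nat_lit 475209) (nat_lit 41) (.e (nat_lit 712752) (nat_lit 29) (.e (nat_lit 442411) (nat_lit 20) .nil))) (.g (nat_lit 0) (.e (nat_lit 353526) (nat_lit 0) .nil) .nil)))) (.nd (nat_lit 9) 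
(.lf (nat_lit 571702) (.g (nat_lit 252) (.e (nat_lit 475197) (nat_lit 40) (.e (nat_lit 704595) (nat_lit 5) (.e (nat_lit 180278) (nat_lit 32) .nil))) (.g (nat_lit 0) (.e (nat_lit 352660) (nat_lit 0) .nil) .nil))) 
(.lf (nat_lit 572214) (.g (nat_lit 1764) (.e (nat_lit 483337) (nat_lit 9) (.e (nat_lit 426098) (nat_lit 1) (.e (nat_lit 164402) (nat_lit 256) (.e (nat_lit 57373) (nat_lit 2) (.e (nat_lit 90185) (nat_lit 17) .nil))))) (.g (nat_lit 0) (.e (nat_lit 354040) (nat_lit 0) .nil) .nil))))) (.nd (nat_lit 8) (.nd (nat_lit 9) 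
(.lf (nat_lit 571574) (.g (nat_lit 2709) (.e (nat_lit 475185) (nat_lit 29) (.e (nat_lit 557109) (nat_lit 15) (.e (nat_lit 188434) (nat_lit 20) (.e (nat_lit 3107) (nat_lit 193) (.e (nat_lit 499776) (nat_lit 0) (.e (nat_lit 2797) (nat_lit 180) (.e (nat_lit 303143) (nat_lit 12) .nil))))))) (.g (nat_lit 1) (.e (nat_lit 352404) (nat_lit 0) .nil) .nil))) 
(.lf (nat_lit 572086) (.g (nat_lit 2064) (.e (nat_lit 475211) (nat_lit 41) (.e (nat_lit 712755) (nat_lit 30) (.e (nat_lit 450568) (nat_lit 0) (.e (nat_lit 5599) (nat_lit 310) (.e (nat_lit 163911) (nat_lit 12) (.e (nat_lit 426310) (nat_lit 12) .nil)))))) (.g (nat_lit 1) (.e (nat_lit 353747) (nat_lit 0) .nil) .nil)))) (.nd (nat_lit 9) 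
(.lf (nat_lit 571830) (.g (nat_lit 2093) (.e (nat_lit 475199) (nat_lit 40) (.e (nat_lit 704589) (nat_lit 3) (.e (nat_lit 163975) (nat_lit 30) (.e (nat_lit 573492) (nat_lit 15) (.e (nat_lit 81954) (nat_lit 23) (.e (nat_lit 98383) (nat_lit 32) .nil)))))) (.g (nat_lit 1) (.e (nat_lit 353078) (nat_lit 0) .nil) .nil))) 
(.lf (nat_lit 572342) (.g (nat_lit 2552) (.e (nat_lit 483337) (nat_lit 9) (.e (nat_lit 426107) (nat_lit 1) (.e (nat_lit 164403) (nat_lit 256) (.e (nat_lit 57377) (nat_lit 3) (.e (nat_lit 98363) (nat_lit 26) (.e (nat_lit 426321) (nat_lit 13) .nil)))))) (.g (nat_lit 1) (.e (nat_lit 354388) (nat_lit 0) .nil) .nil)))))) (.nd (nat_lit 7) (.nd (nat_lit 8) (.nd (nat_lit 9) 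
(.lf (nat_lit 571510) (.g (nat_lit 3655) (.e (nat_lit 475185) (nat_lit 29) (.e (nat_lit 557101) (nat_lit 13) (.e (nat_lit 172115) (nat_lit 10) (.e (nat_lit 434244) (nat_lit 28) (.e (nat_lit 573468) (nat_lit 10) (.e (nat_lit 8192) (nat_lit 0) (.e (nat_lit 4423) (nat_lit 261) (.e (nat_lit 163939) (nat_lit 18) .nil)))))))) (.g (nat_lit 1) (.e (nat_lit 352329) (nat_lit 0) .nil) .nil))) 
(.lf (nat_lit 572022) (.g (nat_lit 154) (.e (nat_lit 475211) (nat_lit 41) (.e (nat_lit 712749) (nat_lit 28) (.e (nat_lit 442112) (nat_lit 4) .nil))) (.g (nat_lit 0) (.e (nat_lit 353658) (nat_lit 0) .nil) .nil)))) (.nd (nat_lit 9) 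
(.lf (nat_lit 571766) (.g (nat_lit 526) (.e (nat_lit 475198) (nat_lit 40) (.e (nat_lit 704590) (nat_lit 3) (.e (nat_lit 163950) (nat_lit 21) .nil))) (.g (nat_lit 0) (.e (nat_lit 352870) (nat_lit 0) .nil) .nil))) 
(.lf (nat_lit 572278) (.g (nat_lit 3094) (.e (nat_lit 483337) (nat_lit 9) (.e (nat_lit 426100) (nat_lit 1) (.e (nat_lit 164403) (nat_lit 256) (.e (nat_lit 57371) (nat_lit 2) (.e (nat_lit 90168) (nat_lit 13) (.e (nat_lit 172123) (nat_lit 13) .nil)))))) (.g (nat_lit 1) (.e (nat_lit 354115) (nat_lit 0) .nil) .nil))))) (.nd (nat_lit 8) (.nd (nat_lit 9) 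
(.lf (nat_lit 571638) (.g (nat_lit 2493) (.e (nat_lit 483072) (nat_lit 29) (.e (nat_lit 557100) (nat_lit 13) (.e (nat_lit 172106) (nat_lit 10) (.e (nat_lit 434231) (nat_lit 23) (.e (nat_lit 532569) (nat_lit 16) .nil))))) (.g (nat_lit 0) (.e (nat_lit 352477) (nat_lit 0) .nil) .nil))) 
(.lf (nat_lit 572150) (.g (nat_lit 2126) (.e (nat_lit 483336) (nat_lit 9) (.e (nat_lit 426100) (nat_lit 1) (.e (nat_lit 164399) (nat_lit 256) (.e (nat_lit 57372) (nat_lit 2) (.e (nat_lit 90169) (nat_lit 13) .nil))))) (.g (nat_lit 0) (.e (nat_lit 353910) (nat_lit 0) .nil) .nil)))) (.nd (nat_lit 9) 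
(.lf (nat_lit 571894) (.g (nat_lit 2027) (.e (nat_lit 475199) (nat_lit 40) (.e (nat_lit 704595) (nat_lit 5) (.e (nat_lit 180277) (nat_lit 32) (.e (nat_lit 1427) (nat_lit 108) (.e (nat_lit 336379) (nat_lit 27) .nil))))) (.g (nat_lit 0) (.e (nat_lit 353392) (nat_lit 0) .nil) .nil))) 
(.lf (nat_lit 572406) (.g (nat_lit 3913) (.e (nat_lit 483337) (nat_lit 9) (.e (nat_lit 426200) (nat_lit 9) (.e (nat_lit 426436) (nat_lit 18) (.e (nat_lit 98335) (nat_lit 18) (.e (nat_lit 164330) (nat_lit 230) (.e (nat_lit 163941) (nat_lit 19) .nil)))))) (.g (nat_lit 1) (.e (nat_lit 354582) (nat_lit 0) .nil) .nil))))))))) 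
(.nd (nat_lit 4) (.nd (nat_lit 5) (.nd (nat_lit 6) (.nd (nat_lit 7) (.nd (nat_lit 8) 
(.nd (nat_lit 9) 
(.lf (nat_lit 571406) (.g (nat_lit 4738) (.e (nat_lit 475185) (nat_lit 29) (.e (nat_lit 557100) (nat_lit 13) (.e (nat_lit 172113) (nat_lit 10) (.e (nat_lit 434245) (nat_lit 28) (.e (nat_lit 573474) (nat_lit 12) (.e (nat_lit 57567) (nat_lit 52) (.e (nat_lit 753680) (nat_lit 5) (.e (nat_lit 3062) (nat_lit 190) .nil)))))))) (.g (nat_lit 1) (.e (nat_lit 352224) (nat_lit 0) .nil) .nil))) 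
(.lf (nat_lit 571918) (.g (nat_lit 422) (.e (nat_lit 475207) (nat_lit 41) (.e (nat_lit 712752) (nat_lit 29) (.e (nat_lit 450304) (nat_lit 0) .nil))) (.g (nat_lit 0) (.e (nat_lit 353463) (nat_lit 0) .nil) .nil)))) (.nd (nat_lit 9) 
(.lf (nat_lit 571662) (.g (nat_lit 626) (.e (nat_lit 475196) (nat_lit 40) (.e (nat_lit 704590) (nat_lit 3) (.e (nat_lit 163977) (nat_lit 30) .nil))) (.g (nat_lit 0) (.e (nat_lit 352535) (nat_lit 0) .nil) .nil))) 
(.lf (nat_lit 572174) (.g (nat_lit 745) (.e (nat_lit 483336) (nat_lit 9) (.e (nat_lit 426108) (nat_lit 1) (.e (nat_lit 164401) (nat_lit 256) .nil))) (.g (nat_lit 0) (.e (nat_lit 353969) (nat_lit 0) .nil) .nil))))) (.nd (nat_lit 8) (.nd (nat_lit 9) 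
(.lf (nat_lit 571534) (.g (nat_lit 1452) (.e (nat_lit 475185) (nat_lit 29) (.e (nat_lit 557107) (nat_lit 15) (.e (nat_lit 188447) (nat_lit 22) (.e (nat_lit 196628) (nat_lit 9) .nil)))) (.g (nat_lit 0) (.e (nat_lit 352363) (nat_lit 0) .nil) .nil))) 
(.lf (nat_lit 572046) (.g (nat_lit 2464) (.e (nat_lit 475211) (nat_lit 41) (.e (nat_lit 712752) (nat_lit 29) (.e (nat_lit 442430) (nat_lit 24) (.e (nat_lit 229678) (nat_lit 244) (.e (nat_lit 163913) (nat_lit 12) (.e (nat_lit 426318) (nat_lit 12) .nil)))))) (.g (nat_lit 1) (.e (nat_lit 353695) (nat_lit 0) .nil) .nil)))) (.nd (nat_lit 9) 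
(.lf (nat_lit 571790) (.g (nat_lit 390) (.e (nat_lit 475198) (nat_lit 40) (.e (nat_lit 704596) (nat_lit 5) (.e (nat_lit 180275) (nat_lit 32) .nil))) (.g (nat_lit 0) (.e (nat_lit 352939) (nat_lit 0) .nil) .nil))) 
(.lf (nat_lit 572302) (.g (nat_lit 3129) (.e (nat_lit 483337) (nat_lit 9) (.e (nat_lit 426107) (nat_lit 1) (.e (nat_lit 164326) (nat_lit 230) (.e (nat_lit 163866) (nat_lit 2) (.e (nat_lit 196654) (nat_lit 11) (.e (nat_lit 16466) (nat_lit 13) .nil)))))) (.g (nat_lit 1) (.e (nat_lit 354187) (nat_lit 0) .nil) .nil)))))) (.nd (nat_lit 7) (.nd (nat_lit 8) (.nd (nat_lit 9) 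
(.lf (nat_lit 571470) (.g (nat_lit 4247) (.e (nat_lit 475185) (nat_lit 29) (.e (nat_lit 557101) (nat_lit 13) (.e (nat_lit 172115) (nat_lit 10) (.e (nat_lit 434231) (nat_lit 23) (.e (nat_lit 532490) (nat_lit 0) (.e (nat_lit 6680) (nat_lit 357) (.e (nat_lit 3065) (nat_lit 190) .nil))))))) (.g (nat_lit 1) (.e (nat_lit 352289) (nat_lit 0) .nil) .nil))) 
(.lf (nat_lit 571982) (.g (nat_lit 286) (.e (nat_lit 475210) (nat_lit 41) (.e (nat_lit 712745) (nat_lit 27) (.e (nat_lit 426347) (nat_lit 14) .nil))) (.g (nat_lit 0) (.e (nat_lit 353567) (nat_lit 0) .nil) .nil)))) (.nd (nat_lit 9) 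
(.lf (nat_lit 571726) (.g (nat_lit 1589) (.e (nat_lit 475198) (nat_lit 40) (.e (nat_lit 704589) (nat_lit 3) (.e (nat_lit 163976) (nat_lit 30) (.e (nat_lit 573481) (nat_lit 13) (.e (nat_lit 65609) (nat_lit 10) (.e (nat_lit 344116) (nat_lit 21) (.e (nat_lit 516182) (nat_lit 15) .nil))))))) (.g (nat_lit 1) (.e (nat_lit 352723) (nat_lit 0) .nil) .nil))) 
(.lf (nat_lit 572238) (.g (nat_lit 789) (.e (nat_lit 483337) (nat_lit 9) (.e (nat_lit 426100) (nat_lit 1) (.e (nat_lit 164331) (nat_lit 230) .nil))) (.g (nat_lit 0) (.e (nat_lit 354065) (nat_lit 0) .nil) .nil))))) (.nd (nat_lit 8) (.nd (nat_lit 9) 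
(.lf (nat_lit 571598) (.g (nat_lit 3035) (.e (nat_lit 475185) (nat_lit 29) (.e (nat_lit 557109) (nat_lit 15) (.e (nat_lit 188449) (nat_lit 22) (.e (nat_lit 196661) (nat_lit 12) (.e (nat_lit 57751) (nat_lit 201) (.e (nat_lit 3064) (nat_lit 190) .nil)))))) (.g (nat_lit 1) (.e (nat_lit 352430) (nat_lit 0) .nil) .nil))) 
(.lf (nat_lit 572110) (.g (nat_lit 4548) (.e (nat_lit 475214) (nat_lit 42) (.e (nat_lit 720956) (nat_lit 25) (.e (nat_lit 114727) (nat_lit 28) (.e (nat_lit 147494) (nat_lit 11) (.e (nat_lit 24665) (nat_lit 14) (.e (nat_lit 401451) (nat_lit 12) .nil)))))) (.g (nat_lit 1) (.e (nat_lit 353793) (nat_lit 0) .nil) .nil)))) (.nd (nat_lit 9) 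
(.lf (nat_lit 571854) (.g (nat_lit 2759) (.e (nat_lit 475199) (nat_lit 40) (.e (nat_lit 704589) (nat_lit 3) (.e (nat_lit 163978) (nat_lit 30) (.e (nat_lit 573491) (nat_lit 15) (.e (nat_lit 89856) (nat_lit 20) .nil))))) (.g (nat_lit 0) (.e (nat_lit 353193) (nat_lit 0) .nil) .nil))) 
(.lf (nat_lit 572366) (.g (nat_lit 2453) (.e (nat_lit 483337) (nat_lit 9) (.e (nat_lit 426108) (nat_lit 1) (.e (nat_lit 164401) (nat_lit 256) (.e (nat_lit 57378) (nat_lit 3) (.e (nat_lit 98357) (nat_lit 26) .nil))))) (.g (nat_lit 0) (.e (nat_lit 354485) (nat_lit 0) .nil) .nil))))))) (.nd (nat_lit 6) (.nd (nat_lit 7) (.nd (nat_lit 8) (.nd (nat_lit 9) 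
(.lf (nat_lit 571438) (.g (nat_lit 4700) (.e (nat_lit 475185) (nat_lit 29) (.e (nat_lit 557100) (nat_lit 13) (.e (nat_lit 172124) (nat_lit 14) (.e (nat_lit 491537) (nat_lit 2) (.e (nat_lit 90170) (nat_lit 13) (.e (nat_lit 172120) (nat_lit 12) .nil)))))) (.g (nat_lit 1) (.e (nat_lit 352256) (nat_lit 0) .nil) .nil))) 
(.lf (nat_lit 571950) (.g (nat_lit 400) (.e (nat_lit 475208) (nat_lit 41) (.e (nat_lit 712755) (nat_lit 30) (.e (nat_lit 450597) (nat_lit 17) .nil))) (.g (nat_lit 0) (.e (nat_lit 353509) (nat_lit 0) .nil) .nil)))) (.nd (nat_lit 9) 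
(.lf (nat_lit 571694) (.g (nat_lit 3260) (.e (nat_lit 475197) (nat_lit 40) (.e (nat_lit 704590) (nat_lit 3) (.e (nat_lit 163975) (nat_lit 30) (.e (nat_lit 573481) (nat_lit 13) (.e (nat_lit 65619) (nat_lit 10) (.e (nat_lit 344117) (nat_lit 21) (.e (nat_lit 516180) (nat_lit 15) .nil))))))) (.g (nat_lit 1) (.e (nat_lit 352644) (nat_lit 0) .nil) .nil))) 
(.lf (nat_lit 572206) (.g (nat_lit 4257) (.e (nat_lit 483337) (nat_lit 9) (.e (nat_lit 426098) (nat_lit 1) (.e (nat_lit 164398) (nat_lit 256) (.e (nat_lit 57379) (nat_lit 3) (.e (nat_lit 98365) (nat_lit 26) (.e (nat_lit 426325) (nat_lit 13) .nil)))))) (.g (nat_lit 1) (.e (nat_lit 354032) (nat_lit 0) .nil) .nil))))) (.nd (nat_lit 8) (.nd (nat_lit 9) 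
(.lf (nat_lit 571566) (.g (nat_lit 2291) (.e (nat_lit 475185) (nat_lit 29) (.e (nat_lit 557108) (nat_lit 15) (.e (nat_lit 188452) (nat_lit 23) (.e (nat_lit 204817) (nat_lit 17) .nil)))) (.g (nat_lit 0) (.e (nat_lit 352395) (nat_lit 0) .nil) .nil))) 
(.lf (nat_lit 572078) (.g (nat_lit 2088) (.e (nat_lit 475211) (nat_lit 41) (.e (nat_lit 712755) (nat_lit 30) (.e (nat_lit 450564) (nat_lit 0) (.e (nat_lit 5546) (nat_lit 306) (.e (nat_lit 2629) (nat_lit 164) .nil))))) (.g (nat_lit 0) (.e (nat_lit 353738) (nat_lit 0) .nil) .nil)))) (.nd (nat_lit 9) 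
(.lf (nat_lit 571822) (.g (nat_lit 732) (.e (nat_lit 475199) (nat_lit 40) (.e (nat_lit 704589) (nat_lit 3) (.e (nat_lit 163975) (nat_lit 30) (.e (nat_lit 573491) (nat_lit 15) .nil)))) (.g (nat_lit 0) (.e (nat_lit 352981) (nat_lit 0) .nil) .nil))) 
(.lf (nat_lit 572334) (.g (nat_lit 404) (.e (nat_lit 483337) (nat_lit 9) (.e (nat_lit 426107) (nat_lit 1) (.e (nat_lit 164403) (nat_lit 256) .nil))) (.g (nat_lit 0) (.e (nat_lit 354380) (nat_lit 0) .nil) .nil)))))) (.nd (nat_lit 7) (.nd (nat_lit 8) (.nd (nat_lit 9) 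
(.lf (nat_lit 571502) (.g (nat_lit 3115) (.e (nat_lit 475185) (nat_lit 29) (.e (nat_lit 557101) (nat_lit 13) (.e (nat_lit 172115) (nat_lit 10) (.e (nat_lit 434244) (nat_lit 28) (.e (nat_lit 573450) (nat_lit 9) (.e (nat_lit 416) (nat_lit 32) (.e (nat_lit 426314) (nat_lit 12) .nil))))))) (.g (nat_lit 1) (.e (nat_lit 352321) (nat_lit 0) .nil) .nil))) 
(.lf (nat_lit 572014) (.g (nat_lit 1351) (.e (nat_lit 475210) (nat_lit 41) (.e (nat_lit 712755) (nat_lit 30) (.e (nat_lit 450563) (nat_lit 0) (.e (nat_lit 4751) (nat_lit 281) .nil)))) (.g (nat_lit 0) (.e (nat_lit 353633) (nat_lit 0) .nil) .nil)))) (.nd (nat_lit 9) 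
(.lf (nat_lit 571758) (.g (nat_lit 1932) (.e (nat_lit 475198) (nat_lit 40) (.e (nat_lit 704589) (nat_lit 3) (.e (nat_lit 163979) (nat_lit 30) (.e (nat_lit 573491) (nat_lit 15) (.e (nat_lit 89856) (nat_lit 20) .nil))))) (.g (nat_lit 0) (.e (nat_lit 352801) (nat_lit 0) .nil) .nil))) 
(.lf (nat_lit 572270) (.g (nat_lit 2101) (.e (nat_lit 483337) (nat_lit 9) (.e (nat_lit 426100) (nat_lit 1) (.e (nat_lit 164399) (nat_lit 256) (.e (nat_lit 57377) (nat_lit 3) (.e (nat_lit 98357) (nat_lit 26) .nil))))) (.g (nat_lit 0) (.e (nat_lit 354107) (nat_lit 0) .nil) .nil))))) (.nd (nat_lit 8) (.nd (nat_lit 9) 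
(.lf (nat_lit 571630) (.g (nat_lit 2302) (.e (nat_lit 475185) (nat_lit 29) (.e (nat_lit 557109) (nat_lit 15) (.e (nat_lit 188452) (nat_lit 23) (.e (nat_lit 212736) (nat_lit 17) .nil)))) (.g (nat_lit 0) (.e (nat_lit 352462) (nat_lit 0) .nil) .nil))) 
(.lf (nat_lit 572142) (.g (nat_lit 2867) (.e (nat_lit 483336) (nat_lit 9) (.e (nat_lit 426100) (nat_lit 1) (.e (nat_lit 164398) (nat_lit 256) (.e (nat_lit 57378) (nat_lit 3) (.e (nat_lit 98355) (nat_lit 26) .nil))))) (.g (nat_lit 0) (.e (nat_lit 353902) (nat_lit 0) .nil) .nil)))) (.nd (nat_lit 9) 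
(.lf (nat_lit 571886) (.g (nat_lit 3811) (.e (nat_lit 475199) (nat_lit 40) (.e (nat_lit 704590) (nat_lit 3) (.e (nat_lit 163975) (nat_lit 30) (.e (nat_lit 573481) (nat_lit 13) (.e (nat_lit 65619) (nat_lit 10) (.e (nat_lit 344117) (nat_lit 21) (.e (nat_lit 516178) (nat_lit 15) .nil))))))) (.g (nat_lit 1) (.e (nat_lit 353352) (nat_lit 0) .nil) .nil))) 
(.lf (nat_lit 572398) (.g (nat_lit 3565) (.e (nat_lit 483337) (nat_lit 9) (.e (nat_lit 426189) (nat_lit 9) (.e (nat_lit 426436) (nat_lit 18) (.e (nat_lit 98335) (nat_lit 18) (.e (nat_lit 164327) (nat_lit 230) (.e (nat_lit 163944) (nat_lit 19) .nil)))))) (.g (nat_lit 1) (.e (nat_lit 354543) (nat_lit 0) .nil) .nil)))))))) 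
(.nd (nat_lit 5) (.nd (nat_lit 6) (.nd (nat_lit 7) (.nd (nat_lit 8) (.nd (nat_lit 9) 
(.lf (nat_lit 571422) (.g (nat_lit 2882) (.e (nat_lit 475185) (nat_lit 29) (.e (nat_lit 557100) (nat_lit 13) (.e (nat_lit 172113) (nat_lit 10) (.e (nat_lit 434248) (nat_lit 28) (.e (nat_lit 573475) (nat_lit 12) (.e (nat_lit 57344) (nat_lit 0) (.e (nat_lit 6942) (nat_lit 375) (.e (nat_lit 163938) (nat_lit 18) .nil)))))))) (.g (nat_lit 1) (.e (nat_lit 352240) (nat_lit 0) .nil) .nil))) 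
(.lf (nat_lit 571934) (.g (nat_lit 1057) (.e (nat_lit 475207) (nat_lit 41) (.e (nat_lit 712755) (nat_lit 30) (.e (nat_lit 450563) (nat_lit 0) (.e (nat_lit 7936) (nat_lit 281) .nil)))) (.g (nat_lit 0) (.e (nat_lit 353482) (nat_lit 0) .nil) .nil)))) (.nd (nat_lit 9) 
(.lf (nat_lit 571678) (.g (nat_lit 1984) (.e (nat_lit 475197) (nat_lit 40) (.e (nat_lit 704589) (nat_lit 3) (.e (nat_lit 163978) (nat_lit 30) (.e (nat_lit 573485) (nat_lit 13) (.e (nat_lit 65604) (nat_lit 9) (.e (nat_lit 336013) (nat_lit 2) (.e (nat_lit 90134) (nat_lit 9) (.e (nat_lit 3063) (nat_lit 190) .nil)))))))) (.g (nat_lit 1) (.e (nat_lit 352601) (nat_lit 0) .nil) .nil))) 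
(.lf (nat_lit 572190) (.g (nat_lit 3087) (.e (nat_lit 483337) (nat_lit 9) (.e (nat_lit 426098) (nat_lit 1) (.e (nat_lit 164398) (nat_lit 256) (.e (nat_lit 57372) (nat_lit 2) (.e (nat_lit 90169) (nat_lit 13) (.e (nat_lit 172122) (nat_lit 13) .nil)))))) (.g (nat_lit 1) (.e (nat_lit 354016) (nat_lit 0) .nil) .nil))))) (.nd (nat_lit 8) (.nd (nat_lit 9) 
(.lf (nat_lit 571550) (.g (nat_lit 1488) (.e (nat_lit 475185) (nat_lit 29) (.e (nat_lit 557107) (nat_lit 15) (.e (nat_lit 188452) (nat_lit 23) (.e (nat_lit 204883) (nat_lit 33) .nil)))) (.g (nat_lit 0) (.e (nat_lit 352379) (nat_lit 0) .nil) .nil))) 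
(.lf (nat_lit 572062) (.g (nat_lit 2537) (.e (nat_lit 475211) (nat_lit 41) (.e (nat_lit 712753) (nat_lit 30) (.e (nat_lit 450568) (nat_lit 0) (.e (nat_lit 5599) (nat_lit 310) (.e (nat_lit 163913) (nat_lit 12) (.e (nat_lit 426318) (nat_lit 12) .nil)))))) (.g (nat_lit 1) (.e (nat_lit 353711) (nat_lit 0) .nil) .nil)))) (.nd (nat_lit 9) 
(.lf (nat_lit 571806) (.g (nat_lit 2445) (.e (nat_lit 475198) (nat_lit 40) (.e (nat_lit 704599) (nat_lit 6) (.e (nat_lit 188453) (nat_lit 24) (.e (nat_lit 229680) (nat_lit 244) (.e (nat_lit 163913) (nat_lit 12) (.e (nat_lit 426318) (nat_lit 12) .nil)))))) (.g (nat_lit 1) (.e (nat_lit 352958) (nat_lit 0) .nil) .nil))) 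
(.lf (nat_lit 572318) (.g (nat_lit 4530) (.e (nat_lit 483337) (nat_lit 9) (.e (nat_lit 426107) (nat_lit 1) (.e (nat_lit 164327) (nat_lit 230) (.e (nat_lit 163868) (nat_lit 2) (.e (nat_lit 196654) (nat_lit 11) (.e (nat_lit 16463) (nat_lit 13) .nil)))))) (.g (nat_lit 1) (.e (nat_lit 354334) (nat_lit 0) .nil) .nil)))))) (.nd (nat_lit 7) (.nd (nat_lit 8) (.nd (nat_lit 9) 
(.lf (nat_lit 571486) (.g (nat_lit 1930) (.e (nat_lit 475185) (nat_lit 29) (.e (nat_lit 557101) (nat_lit 13) (.e (nat_lit 172115) (nat_lit 10) (.e (nat_lit 434244) (nat_lit 28) (.e (nat_lit 573448) (nat_lit 9) .nil))))) (.g (nat_lit 0) (.e (nat_lit 352305) (nat_lit 0) .nil) .nil))) 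
(.lf (nat_lit 571998) (.g (nat_lit 551) (.e (nat_lit 475210) (nat_lit 41) (.e (nat_lit 712752) (nat_lit 29) (.e (nat_lit 442428) (nat_lit 24) .nil))) (.g (nat_lit 0) (.e (nat_lit 353611) (nat_lit 0) .nil) .nil)))) (.nd (nat_lit 9) 
(.lf (nat_lit 571742) (.g (nat_lit 3089) (.e (nat_lit 475198) (nat_lit 40) (.e (nat_lit 704589) (nat_lit 3) (.e (nat_lit 163978) (nat_lit 30) (.e (nat_lit 573491) (nat_lit 15) (.e (nat_lit 89856) (nat_lit 20) (.e (nat_lit 1784) (nat_lit 119) (.e (nat_lit 516182) (nat_lit 15) .nil))))))) (.g (nat_lit 1) (.e (nat_lit 352781) (nat_lit 0) .nil) .nil))) 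
(.lf (nat_lit 572254) (.g (nat_lit 2270) (.e (nat_lit 483337) (nat_lit 9) (.e (nat_lit 426100) (nat_lit 1) (.e (nat_lit 164398) (nat_lit 256) (.e (nat_lit 57375) (nat_lit 2) (.e (nat_lit 90167) (nat_lit 13) (.e (nat_lit 172123) (nat_lit 13) .nil)))))) (.g (nat_lit 1) (.e (nat_lit 354091) (nat_lit 0) .nil) .nil))))) (.nd (nat_lit 8) (.nd (nat_lit 9) 
(.lf (nat_lit 571614) (.g (nat_lit 5438) (.e (nat_lit 475185) (nat_lit 29) (.e (nat_lit 557109) (nat_lit 15) (.e (nat_lit 188449) (nat_lit 22) (.e (nat_lit 196695) (nat_lit 18) .nil)))) (.g (nat_lit 0) (.e (nat_lit 352446) (nat_lit 0) .nil) .nil))) 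
(.lf (nat_lit 572126) (.g (nat_lit 2130) (.e (nat_lit 483333) (nat_lit 0) (.e (nat_lit 7105) (nat_lit 380) (.e (nat_lit 164288) (nat_lit 224) (.e (nat_lit 164092) (nat_lit 82) (.e (nat_lit 500046) (nat_lit 16) (.e (nat_lit 16463) (nat_lit 13) .nil)))))) (.g (nat_lit 1) (.e (nat_lit 353839) (nat_lit 0) .nil) .nil)))) (.nd (nat_lit 9) 
(.lf (nat_lit 571870) (.g (nat_lit 2244) (.e (nat_lit 475199) (nat_lit 40) (.e (nat_lit 704589) (nat_lit 3) (.e (nat_lit 163979) (nat_lit 30) (.e (nat_lit 573491) (nat_lit 15) (.e (nat_lit 81928) (nat_lit 20) (.e (nat_lit 1788) (nat_lit 119) (.e (nat_lit 516182) (nat_lit 15) .nil))))))) (.g (nat_lit 1) (.e (nat_lit 353219) (nat_lit 0) .nil) .nil))) 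
(.lf (nat_lit 572382) (.g (nat_lit 3642) (.e (nat_lit 483337) (nat_lit 9) (.e (nat_lit 426186) (nat_lit 9) (.e (nat_lit 426436) (nat_lit 18) (.e (nat_lit 98335) (nat_lit 18) (.e (nat_lit 164325) (nat_lit 230) (.e (nat_lit 163943) (nat_lit 19) .nil)))))) (.g (nat_lit 1) (.e (nat_lit 354512) (nat_lit 0) .nil) .nil))))))) (.nd (nat_lit 6) (.nd (nat_lit 7) (.nd (nat_lit 8) (.nd (nat_lit 9) 
(.lf (nat_lit 571454) (.g (nat_lit 3543) (.e (nat_lit 475185) (nat_lit 29) (.e (nat_lit 557101) (nat_lit 13) (.e (nat_lit 172097) (nat_lit 9) (.e (nat_lit 426140) (nat_lit 3) (.e (nat_lit 204821) (nat_lit 17) (.e (nat_lit 6680) (nat_lit 357) (.e (nat_lit 3065) (nat_lit 190) .nil))))))) (.g (nat_lit 1) (.e (nat_lit 352272) (nat_lit 0) .nil) .nil))) 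
(.lf (nat_lit 571966) (.g (nat_lit 1214) (.e (nat_lit 475209) (nat_lit 41) (.e (nat_lit 712752) (nat_lit 29) (.e (nat_lit 442430) (nat_lit 24) (.e (nat_lit 229679) (nat_lit 244) .nil)))) (.g (nat_lit 0) (.e (nat_lit 353537) (nat_lit 0) .nil) .nil)))) (.nd (nat_lit 9) 
(.lf (nat_lit 571710) (.g (nat_lit 3465) (.e (nat_lit 475198) (nat_lit 40) (.e (nat_lit 704589) (nat_lit 3) (.e (nat_lit 163975) (nat_lit 30) (.e (nat_lit 573481) (nat_lit 13) (.e (nat_lit 65604) (nat_lit 9) (.e (nat_lit 336028) (nat_lit 3) (.e (nat_lit 106240) (nat_lit 32) .nil))))))) (.g (nat_lit 1) (.e (nat_lit 352670) (nat_lit 0) .nil) .nil))) 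
(.lf (nat_lit 572222) (.g (nat_lit 4132) (.e (nat_lit 483337) (nat_lit 9) (.e (nat_lit 426098) (nat_lit 1) (.e (nat_lit 164403) (nat_lit 256) (.e (nat_lit 57373) (nat_lit 2) (.e (nat_lit 90170) (nat_lit 13) (.e (nat_lit 172123) (nat_lit 13) .nil)))))) (.g (nat_lit 1) (.e (nat_lit 354048) (nat_lit 0) .nil) .nil))))) (.nd (nat_lit 8) (.nd (nat_lit 9) 
(.lf (nat_lit 571582) (.g (nat_lit 3621) (.e (nat_lit 475185) (nat_lit 29) (.e (nat_lit 557109) (nat_lit 15) (.e (nat_lit 188434) (nat_lit 20) (.e (nat_lit 3272) (nat_lit 199) (.e (nat_lit 548896) (nat_lit 14) (.e (nat_lit 2884) (nat_lit 184) (.e (nat_lit 426317) (nat_lit 12) .nil))))))) (.g (nat_lit 1) (.e (nat_lit 352413) (nat_lit 0) .nil) .nil))) 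
(.lf (nat_lit 572094) (.g (nat_lit 364) (.e (nat_lit 475211) (nat_lit 41) (.e (nat_lit 712755) (nat_lit 30) (.e (nat_lit 458496) (nat_lit 0) .nil))) (.g (nat_lit 0) (.e (nat_lit 353755) (nat_lit 0) .nil) .nil)))) (.nd (nat_lit 9) 
(.lf (nat_lit 571838) (.g (nat_lit 1731) (.e (nat_lit 475199) (nat_lit 40) (.e (nat_lit 704589) (nat_lit 3) (.e (nat_lit 163976) (nat_lit 30) (.e (nat_lit 573491) (nat_lit 15) (.e (nat_lit 81942) (nat_lit 20) (.e (nat_lit 1802) (nat_lit 119) (.e (nat_lit 516182) (nat_lit 15) .nil))))))) (.g (nat_lit 1) (.e (nat_lit 353099) (nat_lit 0) .nil) .nil))) 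
(.lf (nat_lit 572350) (.g (nat_lit 2604) (.e (nat_lit 483337) (nat_lit 9) (.e (nat_lit 426108) (nat_lit 1) (.e (nat_lit 164331) (nat_lit 230) (.e (nat_lit 163869) (nat_lit 2) (.e (nat_lit 196654) (nat_lit 11) .nil))))) (.g (nat_lit 0) (.e (nat_lit 354440) (nat_lit 0) .nil) .nil)))))) (.nd (nat_lit 7) (.nd (nat_lit 8) (.nd (nat_lit 9) 
(.lf (nat_lit 571518) (.g (nat_lit 4099) (.e (nat_lit 475185) (nat_lit 29) (.e (nat_lit 557101) (nat_lit 13) (.e (nat_lit 172126) (nat_lit 14) (.e (nat_lit 491537) (nat_lit 2) (.e (nat_lit 90170) (nat_lit 13) (.e (nat_lit 172120) (nat_lit 12) .nil)))))) (.g (nat_lit 1) (.e (nat_lit 352337) (nat_lit 0) .nil) .nil))) 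
(.lf (nat_lit 572030) (.g (nat_lit 698) (.e (nat_lit 475211) (nat_lit 41) (.e (nat_lit 712752) (nat_lit 29) (.e (nat_lit 442412) (nat_lit 20) .nil))) (.g (nat_lit 0) (.e (nat_lit 353678) (nat_lit 0) .nil) .nil)))) (.nd (nat_lit 9) 
(.lf (nat_lit 571774) (.g (nat_lit 3580) (.e (nat_lit 475198) (nat_lit 40) (.e (nat_lit 704590) (nat_lit 3) (.e (nat_lit 163975) (nat_lit 30) (.e (nat_lit 573481) (nat_lit 13) (.e (nat_lit 65619) (nat_lit 10) (.e (nat_lit 344117) (nat_lit 21) (.e (nat_lit 516181) (nat_lit 15) .nil))))))) (.g (nat_lit 1) (.e (nat_lit 352882) (nat_lit 0) .nil) .nil))) 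
(.lf (nat_lit 572286) (.g (nat_lit 2543) (.e (nat_lit 483337) (nat_lit 9) (.e (nat_lit 426100) (nat_lit 1) (.e (nat_lit 164403) (nat_lit 256) (.e (nat_lit 57377) (nat_lit 3) (.e (nat_lit 98363) (nat_lit 26) .nil))))) (.g (nat_lit 0) (.e (nat_lit 354123) (nat_lit 0) .nil) .nil))))) (.nd (nat_lit 8) (.nd (nat_lit 9) 
(.lf (nat_lit 571646) (.g (nat_lit 3147) (.e (nat_lit 483072) (nat_lit 29) (.e (nat_lit 557109) (nat_lit 15) (.e (nat_lit 188452) (nat_lit 23) (.e (nat_lit 204884) (nat_lit 33) .nil)))) (.g (nat_lit 0) (.e (nat_lit 352485) (nat_lit 0) .nil) .nil))) 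
(.lf (nat_lit 572158) (.g (nat_lit 524) (.e (nat_lit 483336) (nat_lit 9) (.e (nat_lit 426107) (nat_lit 1) (.e (nat_lit 164322) (nat_lit 230) .nil))) (.g (nat_lit 0) (.e (nat_lit 353920) (nat_lit 0) .nil) .nil)))) (.nd (nat_lit 9) 
(.lf (nat_lit 571902) (.g (nat_lit 2478) (.e (nat_lit 475199) (nat_lit 40) (.e (nat_lit 704598) (nat_lit 6) (.e (nat_lit 188453) (nat_lit 24) (.e (nat_lit 229666) (nat_lit 240) (.e (nat_lit 2630) (nat_lit 164) (.e (nat_lit 172118) (nat_lit 12) .nil)))))) (.g (nat_lit 1) (.e (nat_lit 353416) (nat_lit 0) .nil) .nil))) 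
(.lf (nat_lit 572414) (.g (nat_lit 3448) (.e (nat_lit 483337) (nat_lit 9) (.e (nat_lit 426306) (nat_lit 12) (.e (nat_lit 475179) (nat_lit 24) (.e (nat_lit 516117) (nat_lit 1) (.e (nat_lit 164332) (nat_lit 230) (.e (nat_lit 163941) (nat_lit 19) .nil)))))) (.g (nat_lit 1) (.e (nat_lit 354624) (nat_lit 0) .nil) .nil)))))))))))) 
(.nd (nat_lit 1) (.nd (nat_lit 2) (.nd (nat_lit 3) (.nd (nat_lit 4) (.nd (nat_lit 5) 
(.nd (nat_lit 6) (.nd (nat_lit 7) (.nd (nat_lit 8) (.nd (nat_lit 9) 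
(.lf (nat_lit 571393) (.g (nat_lit 2978) (.e (nat_lit 475185) (nat_lit 29) (.e (nat_lit 557100) (nat_lit 13) (.e (nat_lit 172113) (nat_lit 10) (.e (nat_lit 434245) (nat_lit 28) (.e (nat_lit 573473) (nat_lit 12) (.e (nat_lit 57348) (nat_lit 0) (.e (nat_lit 6942) (nat_lit 375) (.e (nat_lit 163938) (nat_lit 18) .nil)))))))) (.g (nat_lit 1) (.e (nat_lit 352211) (nat_lit 0) .nil) .nil))) 
(.lf (nat_lit 571905) (.g (nat_lit 2876) (.e (nat_lit 475199) (nat_lit 40) (.e (nat_lit 704598) (nat_lit 6) (.e (nat_lit 188454) (nat_lit 24) (.e (nat_lit 229663) (nat_lit 240) (.e (nat_lit 2630) (nat_lit 164) (.e (nat_lit 172118) (nat_lit 12) .nil)))))) (.g (nat_lit 1) (.e (nat_lit 353420) (nat_lit 0) .nil) .nil)))) (.nd (nat_lit 9) 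
(.lf (nat_lit 571649) (.g (nat_lit 3357) (.e (nat_lit 475196) (nat_lit 40) (.e (nat_lit 704589) (nat_lit 3) (.e (nat_lit 163975) (nat_lit 30) (.e (nat_lit 573481) (nat_lit 13) (.e (nat_lit 65619) (nat_lit 10) (.e (nat_lit 344117) (nat_lit 21) (.e (nat_lit 516180) (nat_lit 15) .nil))))))) (.g (nat_lit 1) (.e (nat_lit 352499) (nat_lit 0) .nil) .nil))) 
(.lf (nat_lit 572161) (.g (nat_lit 3000) (.e (nat_lit 483336) (nat_lit 9) (.e (nat_lit 426107) (nat_lit 1) (.e (nat_lit 164326) (nat_lit 230) (.e (nat_lit 163868) (nat_lit 2) (.e (nat_lit 196655) (nat_lit 11) (.e (nat_lit 16465) (nat_lit 13) .nil)))))) (.g (nat_lit 1) (.e (nat_lit 353927) (nat_lit 0) .nil) .nil))))) (.nd (nat_lit 8) (.nd (nat_lit 9) 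
(.lf (nat_lit 571521) (.g (nat_lit 864) (.e (nat_lit 475185) (nat_lit 29) (.e (nat_lit 557103) (nat_lit 14) (.e (nat_lit 180286) (nat_lit 45) .nil))) (.g (nat_lit 0) (.e (nat_lit 352340) (nat_lit 0) .nil) .nil))) 
(.lf (nat_lit 572033) (.g (nat_lit 3317) (.e (nat_lit 475211) (nat_lit 41) (.e (nat_lit 712752) (nat_lit 29) (.e (nat_lit 442421) (nat_lit 21) (.e (nat_lit 164348) (nat_lit 240) (.e (nat_lit 2619) (nat_lit 164) (.e (nat_lit 172118) (nat_lit 12) .nil)))))) (.g (nat_lit 1) (.e (nat_lit 353682) (nat_lit 0) .nil) .nil)))) (.nd (nat_lit 9) 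
(.lf (nat_lit 571777) (.g (nat_lit 2419) (.e (nat_lit 475198) (nat_lit 40) (.e (nat_lit 704590) (nat_lit 3) (.e (nat_lit 163975) (nat_lit 30) (.e (nat_lit 573491) (nat_lit 15) (.e (nat_lit 81954) (nat_lit 23) (.e (nat_lit 106240) (nat_lit 32) .nil)))))) (.g (nat_lit 1) (.e (nat_lit 352886) (nat_lit 0) .nil) .nil))) 
(.lf (nat_lit 572289) (.g (nat_lit 3144) (.e (nat_lit 483337) (nat_lit 9) (.e (nat_lit 426100) (nat_lit 1) (.e (nat_lit 164403) (nat_lit 256) (.e (nat_lit 57378) (nat_lit 3) (.e (nat_lit 98357) (nat_lit 26) .nil))))) (.g (nat_lit 0) (.e (nat_lit 354126) (nat_lit 0) .nil) .nil)))))) (.nd (nat_lit 7) (.nd (nat_lit 8) (.nd (nat_lit 9) 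
(.lf (nat_lit 571457) (.g (nat_lit 1416) (.e (nat_lit 475185) (nat_lit 29) (.e (nat_lit 557101) (nat_lit 13) (.e (nat_lit 172115) (nat_lit 10) (.e (nat_lit 434231) (nat_lit 23) (.e (nat_lit 532481) (nat_lit 0) .nil))))) (.g (nat_lit 0) (.e (nat_lit 352276) (nat_lit 0) .nil) .nil))) 
(.lf (nat_lit 571969) (.g (nat_lit 660) (.e (nat_lit 475209) (nat_lit 41) (.e (nat_lit 712753) (nat_lit 30) (.e (nat_lit 450569) (nat_lit 0) (.e (nat_lit 5448) (nat_lit 306) .nil)))) (.g (nat_lit 0) (.e (nat_lit 353540) (nat_lit 0) .nil) .nil)))) (.nd (nat_lit 9) 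
(.lf (nat_lit 571713) (.g (nat_lit 1940) (.e (nat_lit 475198) (nat_lit 40) (.e (nat_lit 704589) (nat_lit 3) (.e (nat_lit 163975) (nat_lit 30) (.e (nat_lit 573491) (nat_lit 15) (.e (nat_lit 81942) (nat_lit 20) .nil))))) (.g (nat_lit 0) (.e (nat_lit 352675) (nat_lit 0) .nil) .nil))) 
(.lf (nat_lit 572225) (.g (nat_lit 2673) (.e (nat_lit 483337) (nat_lit 9) (.e (nat_lit 426098) (nat_lit 1) (.e (nat_lit 164403) (nat_lit 256) (.e (nat_lit 57378) (nat_lit 3) (.e (nat_lit 98355) (nat_lit 26) (.e (nat_lit 426323) (nat_lit 13) .nil)))))) (.g (nat_lit 1) (.e (nat_lit 354051) (nat_lit 0) .nil) .nil))))) (.nd (nat_lit 8) (.nd (nat_lit 9) 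
(.lf (nat_lit 571585) (.g (nat_lit 3829) (.e (nat_lit 475185) (nat_lit 29) (.e (nat_lit 557109) (nat_lit 15) (.e (nat_lit 188441) (nat_lit 20) (.e (nat_lit 3272) (nat_lit 199) (.e (nat_lit 548913) (nat_lit 18) (.e (nat_lit 172118) (nat_lit 12) .nil)))))) (.g (nat_lit 1) (.e (nat_lit 352417) (nat_lit 0) .nil) .nil))) 
(.lf (nat_lit 572097) (.g (nat_lit 593) (.e (nat_lit 475211) (nat_lit 41) (.e (nat_lit 712755) (nat_lit 30) (.e (nat_lit 450595) (nat_lit 17) .nil))) (.g (nat_lit 0) (.e (nat_lit 353758) (nat_lit 0) .nil) .nil)))) (.nd (nat_lit 9) 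
(.lf (nat_lit 571841) (.g (nat_lit 1779) (.e (nat_lit 475199) (nat_lit 40) (.e (nat_lit 704589) (nat_lit 3) (.e (nat_lit 163976) (nat_lit 30) (.e (nat_lit 573491) (nat_lit 15) (.e (nat_lit 89856) (nat_lit 20) (.e (nat_lit 1784) (nat_lit 119) (.e (nat_lit 516182) (nat_lit 15) .nil))))))) (.g (nat_lit 1) (.e (nat_lit 353102) (nat_lit 0) .nil) .nil))) 
(.lf (nat_lit 572353) (.g (nat_lit 1657) (.e (nat_lit 483337) (nat_lit 9) (.e (nat_lit 426108) (nat_lit 1) (.e (nat_lit 164332) (nat_lit 230) (.e (nat_lit 163866) (nat_lit 2) (.e (nat_lit 196653) (nat_lit 11) .nil))))) (.g (nat_lit 0) (.e (nat_lit 354448) (nat_lit 0) .nil) .nil))))))) (.nd (nat_lit 6) (.nd (nat_lit 7) (.nd (nat_lit 8) (.nd (nat_lit 9) 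
(.lf (nat_lit 571425) (.g (nat_lit 3597) (.e (nat_lit 475185) (nat_lit 29) (.e (nat_lit 557100) (nat_lit 13) (.e (nat_lit 172113) (nat_lit 10) (.e (nat_lit 434248) (nat_lit 28) (.e (nat_lit 573475) (nat_lit 12) (.e (nat_lit 57345) (nat_lit 0) (.e (nat_lit 6940) (nat_lit 375) (.e (nat_lit 163938) (nat_lit 18) .nil)))))))) (.g (nat_lit 1) (.e (nat_lit 352243) (nat_lit 0) .nil) .nil))) 
(.lf (nat_lit 571937) (.g (nat_lit 1170) (.e (nat_lit 475207) (nat_lit 41) (.e (nat_lit 712755) (nat_lit 30) (.e (nat_lit 450563) (nat_lit 0) (.e (nat_lit 5539) (nat_lit 306) .nil)))) (.g (nat_lit 0) (.e (nat_lit 353489) (nat_lit 0) .nil) .nil)))) (.nd (nat_lit 9) 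
(.lf (nat_lit 571681) (.g (nat_lit 3879) (.e (nat_lit 475197) (nat_lit 40) (.e (nat_lit 704589) (nat_lit 3) (.e (nat_lit 163979) (nat_lit 30) (.e (nat_lit 573482) (nat_lit 13) (.e (nat_lit 65604) (nat_lit 9) (.e (nat_lit 336028) (nat_lit 3) (.e (nat_lit 98386) (nat_lit 32) .nil))))))) (.g (nat_lit 1) (.e (nat_lit 352606) (nat_lit 0) .nil) .nil))) 
(.lf (nat_lit 572193) (.g (nat_lit 3676) (.e (nat_lit 483337) (nat_lit 9) (.e (nat_lit 426098) (nat_lit 1) (.e (nat_lit 164398) (nat_lit 256) (.e (nat_lit 57373) (nat_lit 2) (.e (nat_lit 90170) (nat_lit 13) (.e (nat_lit 172123) (nat_lit 13) .nil)))))) (.g (nat_lit 1) (.e (nat_lit 354019) (nat_lit 0) .nil) .nil))))) (.nd (nat_lit 8) (.nd (nat_lit 9) 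
(.lf (nat_lit 571553) (.g (nat_lit 3039) (.e (nat_lit 475185) (nat_lit 29) (.e (nat_lit 557107) (nat_lit 15) (.e (nat_lit 188452) (nat_lit 23) (.e (nat_lit 204885) (nat_lit 33) (.e (nat_lit 409344) (nat_lit 12) .nil))))) (.g (nat_lit 0) (.e (nat_lit 352382) (nat_lit 0) .nil) .nil))) 
(.lf (nat_lit 572065) (.g (nat_lit 749) (.e (nat_lit 475211) (nat_lit 41) (.e (nat_lit 712753) (nat_lit 30) (.e (nat_lit 450569) (nat_lit 0) (.e (nat_lit 5598) (nat_lit 310) .nil)))) (.g (nat_lit 0) (.e (nat_lit 353714) (nat_lit 0) .nil) .nil)))) (.nd (nat_lit 9) 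
(.lf (nat_lit 571809) (.g (nat_lit 1754) (.e (nat_lit 475198) (nat_lit 40) (.e (nat_lit 704599) (nat_lit 6) (.e (nat_lit 188455) (nat_lit 24) (.e (nat_lit 229665) (nat_lit 240) (.e (nat_lit 2725) (nat_lit 172) (.e (nat_lit 237616) (nat_lit 12) .nil)))))) (.g (nat_lit 1) (.e (nat_lit 352962) (nat_lit 0) .nil) .nil))) 
(.lf (nat_lit 572321) (.g (nat_lit 3035) (.e (nat_lit 483337) (nat_lit 9) (.e (nat_lit 426107) (nat_lit 1) (.e (nat_lit 164327) (nat_lit 230) (.e (nat_lit 163871) (nat_lit 2) (.e (nat_lit 196653) (nat_lit 11) (.e (nat_lit 16463) (nat_lit 13) .nil)))))) (.g (nat_lit 1) (.e (nat_lit 354341) (nat_lit 0) .nil) .nil)))))) (.nd (nat_lit 7) (.nd (nat_lit 8) (.nd (nat_lit 9) 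
(.lf (nat_lit 571489) (.g (nat_lit 2401) (.e (nat_lit 475185) (nat_lit 29) (.e (nat_lit 557101) (nat_lit 13) (.e (nat_lit 172115) (nat_lit 10) (.e (nat_lit 434244) (nat_lit 28) (.e (nat_lit 573449) (nat_lit 9) (.e (nat_lit 387) (nat_lit 32) (.e (nat_lit 426314) (nat_lit 12) .nil))))))) (.g (nat_lit 1) (.e (nat_lit 352308) (nat_lit 0) .nil) .nil))) 
(.lf (nat_lit 572001) (.g (nat_lit 2082) (.e (nat_lit 475210) (nat_lit 41) (.e (nat_lit 712752) (nat_lit 29) (.e (nat_lit 442430) (nat_lit 24) (.e (nat_lit 229665) (nat_lit 240) (.e (nat_lit 2725) (nat_lit 172) (.e (nat_lit 237617) (nat_lit 12) .nil)))))) (.g (nat_lit 1) (.e (nat_lit 353614) (nat_lit 0) .nil) .nil)))) (.nd (nat_lit 9) 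
(.lf (nat_lit 571745) (.g (nat_lit 3698) (.e (nat_lit 475198) (nat_lit 40) (.e (nat_lit 704589) (nat_lit 3) (.e (nat_lit 163979) (nat_lit 30) (.e (nat_lit 573482) (nat_lit 13) (.e (nat_lit 65604) (nat_lit 9) (.e (nat_lit 336013) (nat_lit 2) (.e (nat_lit 90134) (nat_lit 9) (.e (nat_lit 3063) (nat_lit 190) .nil)))))))) (.g (nat_lit 1) (.e (nat_lit 352787) (nat_lit 0) .nil) .nil))) 
(.lf (nat_lit 572257) (.g (nat_lit 2165) (.e (nat_lit 483337) (nat_lit 9) (.e (nat_lit 426100) (nat_lit 1) (.e (nat_lit 164398) (nat_lit 256) (.e (nat_lit 57377) (nat_lit 3) (.e (nat_lit 98357) (nat_lit 26) .nil))))) (.g (nat_lit 0) (.e (nat_lit 354094) (nat_lit 0) .nil) .nil))))) (.nd (nat_lit 8) (.nd (nat_lit 9) 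
(.lf (nat_lit 571617) (.g (nat_lit 2603) (.e (nat_lit 475185) (nat_lit 29) (.e (nat_lit 557109) (nat_lit 15) (.e (nat_lit 188450) (nat_lit 23) (.e (nat_lit 204830) (nat_lit 18) (.e (nat_lit 65280) (nat_lit 219) .nil))))) (.g (nat_lit 0) (.e (nat_lit 352449) (nat_lit 0) .nil) .nil))) 
(.lf (nat_lit 572129) (.g (nat_lit 729) (.e (nat_lit 483336) (nat_lit 9) (.e (nat_lit 426098) (nat_lit 1) (.e (nat_lit 164332) (nat_lit 230) .nil))) (.g (nat_lit 0) (.e (nat_lit 353880) (nat_lit 0) .nil) .nil)))) (.nd (nat_lit 9) 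
(.lf (nat_lit 571873) (.g (nat_lit 2304) (.e (nat_lit 475199) (nat_lit 40) (.e (nat_lit 704589) (nat_lit 3) (.e (nat_lit 163979) (nat_lit 30) (.e (nat_lit 573491) (nat_lit 15) (.e (nat_lit 81942) (nat_lit 20) (.e (nat_lit 1802) (nat_lit 119) (.e (nat_lit 516182) (nat_lit 15) .nil))))))) (.g (nat_lit 1) (.e (nat_lit 353223) (nat_lit 0) .nil) .nil))) 
(.lf (nat_lit 572385) (.g (nat_lit 4104) (.e (nat_lit 483337) (nat_lit 9) (.e (nat_lit 426187) (nat_lit 9) (.e (nat_lit 426436) (nat_lit 18) (.e (nat_lit 98335) (nat_lit 18) (.e (nat_lit 164326) (nat_lit 230) (.e (nat_lit 163941) (nat_lit 19) .nil)))))) (.g (nat_lit 1) (.e (nat_lit 354515) (nat_lit 0) .nil) .nil)))))))) 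
(.nd (nat_lit 5) (.nd (nat_lit 6) (.nd (nat_lit 7) (.nd (nat_lit 8) (.nd (nat_lit 9) 
(.lf (nat_lit 571409) (.g (nat_lit 2817) (.e (nat_lit 475185) (nat_lit 29) (.e (nat_lit 557100) (nat_lit 13) (.e (nat_lit 172113) (nat_lit 10) (.e (nat_lit 434247) (nat_lit 28) (.e (nat_lit 573456) (nat_lit 9) (.e (nat_lit 430) (nat_lit 32) (.e (nat_lit 426314) (nat_lit 12) .nil))))))) (.g (nat_lit 1) (.e (nat_lit 352227) (nat_lit 0) .nil) .nil))) 
(.lf (nat_lit 571921) (.g (nat_lit 1504) (.e (nat_lit 475207) (nat_lit 41) (.e (nat_lit 712752) (nat_lit 29) (.e (nat_lit 442430) (nat_lit 24) (.e (nat_lit 229679) (nat_lit 244) .nil)))) (.g (nat_lit 0) (.e (nat_lit 353467) (nat_lit 0) .nil) .nil)))) (.nd (nat_lit 9) 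
(.lf (nat_lit 571665) (.g (nat_lit 792) (.e (nat_lit 475197) (nat_lit 40) (.e (nat_lit 704589) (nat_lit 3) (.e (nat_lit 163975) (nat_lit 30) (.e (nat_lit 573481) (nat_lit 13) .nil)))) (.g (nat_lit 0) (.e (nat_lit 352542) (nat_lit 0) .nil) .nil))) 
(.lf (nat_lit 572177) (.g (nat_lit 1888) (.e (nat_lit 483336) (nat_lit 9) (.e (nat_lit 426108) (nat_lit 1) (.e (nat_lit 164403) (nat_lit 256) (.e (nat_lit 57378) (nat_lit 3) (.e (nat_lit 98363) (nat_lit 26) .nil))))) (.g (nat_lit 0) (.e (nat_lit 353972) (nat_lit 0) .nil) .nil))))) (.nd (nat_lit 8) (.nd (nat_lit 9) 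
(.lf (nat_lit 571537) (.g (nat_lit 2546) (.e (nat_lit 475185) (nat_lit 29) (.e (nat_lit 557107) (nat_lit 15) (.e (nat_lit 188447) (nat_lit 22) (.e (nat_lit 196661) (nat_lit 12) (.e (nat_lit 57751) (nat_lit 201) (.e (nat_lit 3064) (nat_lit 190) .nil)))))) (.g (nat_lit 1) (.e (nat_lit 352366) (nat_lit 0) .nil) .nil))) 
(.lf (nat_lit 572049) (.g (nat_lit 2123) (.e (nat_lit 475211) (nat_lit 41) (.e (nat_lit 712752) (nat_lit 29) (.e (nat_lit 442430) (nat_lit 24) (.e (nat_lit 229681) (nat_lit 244) (.e (nat_lit 163911) (nat_lit 12) (.e (nat_lit 426310) (nat_lit 12) .nil)))))) (.g (nat_lit 1) (.e (nat_lit 353698) (nat_lit 0) .nil) .nil)))) (.nd (nat_lit 9) 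
(.lf (nat_lit 571793) (.g (nat_lit 2686) (.e (nat_lit 475198) (nat_lit 40) (.e (nat_lit 704598) (nat_lit 6) (.e (nat_lit 188444) (nat_lit 21) (.e (nat_lit 164348) (nat_lit 240) (.e (nat_lit 2628) (nat_lit 164) (.e (nat_lit 172118) (nat_lit 12) .nil)))))) (.g (nat_lit 1) (.e (nat_lit 352944) (nat_lit 0) .nil) .nil))) 
(.lf (nat_lit 572305) (.g (nat_lit 3727) (.e (nat_lit 483337) (nat_lit 9) (.e (nat_lit 426107) (nat_lit 1) (.e (nat_lit 164326) (nat_lit 230) (.e (nat_lit 163868) (nat_lit 2) (.e (nat_lit 196656) (nat_lit 11) (.e (nat_lit 16466) (nat_lit 13) .nil)))))) (.g (nat_lit 1) (.e (nat_lit 354244) (nat_lit 0) .nil) .nil)))))) (.nd (nat_lit 7) (.nd (nat_lit 8) (.nd (nat_lit 9) 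
(.lf (nat_lit 571473) (.g (nat_lit 3098) (.e (nat_lit 475185) (nat_lit 29) (.e (nat_lit 557101) (nat_lit 13) (.e (nat_lit 172115) (nat_lit 10) (.e (nat_lit 434231) (nat_lit 23) (.e (nat_lit 532490) (nat_lit 0) (.e (nat_lit 7936) (nat_lit 357) (.e (nat_lit 3063) (nat_lit 190) .nil))))))) (.g (nat_lit 1) (.e (nat_lit 352292) (nat_lit 0) .nil) .nil))) 
(.lf (nat_lit 571985) (.g (nat_lit 2620) (.e (nat_lit 475210) (nat_lit 41) (.e (nat_lit 712745) (nat_lit 27) (.e (nat_lit 426347) (nat_lit 14) (.e (nat_lit 491569) (nat_lit 13) (.e (nat_lit 393293) (nat_lit 26) .nil))))) (.g (nat_lit 1) (.e (nat_lit 353571) (nat_lit 0) .nil) .nil)))) (.nd (nat_lit 9) 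
(.lf (nat_lit 571729) (.g (nat_lit 1872) (.e (nat_lit 475198) (nat_lit 40) (.e (nat_lit 704589) (nat_lit 3) (.e (nat_lit 163976) (nat_lit 30) (.e (nat_lit 573491) (nat_lit 15) (.e (nat_lit 81946) (nat_lit 20) (.e (nat_lit 1802) (nat_lit 119) (.e (nat_lit 516178) (nat_lit 15) .nil))))))) (.g (nat_lit 1) (.e (nat_lit 352726) (nat_lit 0) .nil) .nil))) 
(.lf (nat_lit 572241) (.g (nat_lit 2106) (.e (nat_lit 483337) (nat_lit 9) (.e (nat_lit 426100) (nat_lit 1) (.e (nat_lit 164396) (nat_lit 256) (.e (nat_lit 57371) (nat_lit 2) (.e (nat_lit 90167) (nat_lit 13) .nil))))) (.g (nat_lit 0) (.e (nat_lit 354078) (nat_lit 0) .nil) .nil))))) (.nd (nat_lit 8) (.nd (nat_lit 9) 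
(.lf (nat_lit 571601) (.g (nat_lit 5357) (.e (nat_lit 475185) (nat_lit 29) (.e (nat_lit 557109) (nat_lit 15) (.e (nat_lit 188449) (nat_lit 22) (.e (nat_lit 196675) (nat_lit 16) .nil)))) (.g (nat_lit 0) (.e (nat_lit 352433) (nat_lit 0) .nil) .nil))) 
(.lf (nat_lit 572113) (.g (nat_lit 2521) (.e (nat_lit 475218) (nat_lit 44) (.e (nat_lit 737318) (nat_lit 15) (.e (nat_lit 49189) (nat_lit 11) (.e (nat_lit 16424) (nat_lit 7) (.e (nat_lit 409645) (nat_lit 18) (.e (nat_lit 303143) (nat_lit 12) .nil)))))) (.g (nat_lit 1) (.e (nat_lit 353796) (nat_lit 0) .nil) .nil)))) (.nd (nat_lit 9) 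
(.lf (nat_lit 571857) (.g (nat_lit 3817) (.e (nat_lit 475199) (nat_lit 40) (.e (nat_lit 704589) (nat_lit 3) (.e (nat_lit 163979) (nat_lit 30) (.e (nat_lit 573482) (nat_lit 13) (.e (nat_lit 65590) (nat_lit 9) (.e (nat_lit 336019) (nat_lit 3) (.e (nat_lit 98384) (nat_lit 32) .nil))))))) (.g (nat_lit 1) (.e (nat_lit 353201) (nat_lit 0) .nil) .nil))) 
(.lf (nat_lit 572369) (.g (nat_lit 3198) (.e (nat_lit 483337) (nat_lit 9) (.e (nat_lit 426108) (nat_lit 1) (.e (nat_lit 164402) (nat_lit 256) (.e (nat_lit 57371) (nat_lit 2) (.e (nat_lit 90167) (nat_lit 13) (.e (nat_lit 172123) (nat_lit 13) .nil)))))) (.g (nat_lit 1) (.e (nat_lit 354488) (nat_lit 0) .nil) .nil))))))) (.nd (nat_lit 6) (.nd (nat_lit 7) (.nd (nat_lit 8) (.nd (nat_lit 9) 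
(.lf (nat_lit 571441) (.g (nat_lit 881) (.e (nat_lit 475185) (nat_lit 29) (.e (nat_lit 557101) (nat_lit 13) (.e (nat_lit 172081) (nat_lit 7) (.e (nat_lit 409631) (nat_lit 12) (.e (nat_lit 32807) (nat_lit 18) .nil))))) (.g (nat_lit 0) (.e (nat_lit 352259) (nat_lit 0) .nil) .nil))) 
(.lf (nat_lit 571953) (.g (nat_lit 1026) (.e (nat_lit 475209) (nat_lit 41) (.e (nat_lit 712742) (nat_lit 27) (.e (nat_lit 426173) (nat_lit 7) (.e (nat_lit 409616) (nat_lit 10) (.e (nat_lit 7936) (nat_lit 300) .nil))))) (.g (nat_lit 0) (.e (nat_lit 353515) (nat_lit 0) .nil) .nil)))) (.nd (nat_lit 9) 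
(.lf (nat_lit 571697) (.g (nat_lit 978) (.e (nat_lit 475197) (nat_lit 40) (.e (nat_lit 704592) (nat_lit 4) (.e (nat_lit 172126) (nat_lit 14) (.e (nat_lit 491549) (nat_lit 9) .nil)))) (.g (nat_lit 0) (.e (nat_lit 352651) (nat_lit 0) .nil) .nil))) 
(.lf (nat_lit 572209) (.g (nat_lit 2053) (.e (nat_lit 483337) (nat_lit 9) (.e (nat_lit 426098) (nat_lit 1) (.e (nat_lit 164399) (nat_lit 256) (.e (nat_lit 57377) (nat_lit 3) (.e (nat_lit 98357) (nat_lit 26) .nil))))) (.g (nat_lit 0) (.e (nat_lit 354035) (nat_lit 0) .nil) .nil))))) (.nd (nat_lit 8) (.nd (nat_lit 9) 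
(.lf (nat_lit 571569) (.g (nat_lit 1895) (.e (nat_lit 475185) (nat_lit 29) (.e (nat_lit 557108) (nat_lit 15) (.e (nat_lit 188452) (nat_lit 23) (.e (nat_lit 204885) (nat_lit 33) (.e (nat_lit 409344) (nat_lit 12) .nil))))) (.g (nat_lit 0) (.e (nat_lit 352398) (nat_lit 0) .nil) .nil))) 
(.lf (nat_lit 572081) (.g (nat_lit 2064) (.e (nat_lit 475211) (nat_lit 41) (.e (nat_lit 712755) (nat_lit 30) (.e (nat_lit 450565) (nat_lit 0) (.e (nat_lit 5548) (nat_lit 306) (.e (nat_lit 2625) (nat_lit 164) .nil))))) (.g (nat_lit 0) (.e (nat_lit 353741) (nat_lit 0) .nil) .nil)))) (.nd (nat_lit 9) 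
(.lf (nat_lit 571825) (.g (nat_lit 1819) (.e (nat_lit 475199) (nat_lit 40) (.e (nat_lit 704589) (nat_lit 3) (.e (nat_lit 163975) (nat_lit 30) (.e (nat_lit 573491) (nat_lit 15) (.e (nat_lit 81942) (nat_lit 20) (.e (nat_lit 1802) (nat_lit 119) (.e (nat_lit 516182) (nat_lit 15) .nil))))))) (.g (nat_lit 1) (.e (nat_lit 352984) (nat_lit 0) .nil) .nil))) 
(.lf (nat_lit 572337) (.g (nat_lit 1892) (.e (nat_lit 483337) (nat_lit 9) (.e (nat_lit 426107) (nat_lit 1) (.e (nat_lit 164403) (nat_lit 256) (.e (nat_lit 57371) (nat_lit 2) (.e (nat_lit 90166) (nat_lit 13) .nil))))) (.g (nat_lit 0) (.e (nat_lit 354383) (nat_lit 0) .nil) .nil)))))) (.nd (nat_lit 7) (.nd (nat_lit 8) (.nd (nat_lit 9) 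
(.lf (nat_lit 571505) (.g (nat_lit 2724) (.e (nat_lit 475185) (nat_lit 29) (.e (nat_lit 557101) (nat_lit 13) (.e (nat_lit 172115) (nat_lit 10) (.e (nat_lit 434244) (nat_lit 28) (.e (nat_lit 573458) (nat_lit 9) (.e (nat_lit 394) (nat_lit 32) (.e (nat_lit 426313) (nat_lit 12) .nil))))))) (.g (nat_lit 1) (.e (nat_lit 352324) (nat_lit 0) .nil) .nil))) 
(.lf (nat_lit 572017) (.g (nat_lit 3264) (.e (nat_lit 475210) (nat_lit 41) (.e (nat_lit 712755) (nat_lit 30) (.e (nat_lit 450568) (nat_lit 0) (.e (nat_lit 5599) (nat_lit 310) (.e (nat_lit 163905) (nat_lit 12) (.e (nat_lit 426320) (nat_lit 12) .nil)))))) (.g (nat_lit 1) (.e (nat_lit 353638) (nat_lit 0) .nil) .nil)))) (.nd (nat_lit 9) 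
(.lf (nat_lit 571761) (.g (nat_lit 2509) (.e (nat_lit 475198) (nat_lit 40) (.e (nat_lit 704589) (nat_lit 3) (.e (nat_lit 163979) (nat_lit 30) (.e (nat_lit 573491) (nat_lit 15) (.e (nat_lit 89856) (nat_lit 23) (.e (nat_lit 98386) (nat_lit 32) .nil)))))) (.g (nat_lit 1) (.e (nat_lit 352806) (nat_lit 0) .nil) .nil))) 
(.lf (nat_lit 572273) (.g (nat_lit 1144) (.e (nat_lit 483337) (nat_lit 9) (.e (nat_lit 426100) (nat_lit 1) (.e (nat_lit 164401) (nat_lit 256) .nil))) (.g (nat_lit 0) (.e (nat_lit 354110) (nat_lit 0) .nil) .nil))))) (.nd (nat_lit 8) (.nd (nat_lit 9) 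
(.lf (nat_lit 571633) (.g (nat_lit 3429) (.e (nat_lit 475185) (nat_lit 29) (.e (nat_lit 557109) (nat_lit 15) (.e (nat_lit 188452) (nat_lit 23) (.e (nat_lit 204883) (nat_lit 33) (.e (nat_lit 401452) (nat_lit 12) .nil))))) (.g (nat_lit 1) (.e (nat_lit 352465) (nat_lit 0) .nil) .nil))) 
(.lf (nat_lit 572145) (.g (nat_lit 1537) (.e (nat_lit 483336) (nat_lit 9) (.e (nat_lit 426100) (nat_lit 1) (.e (nat_lit 164398) (nat_lit 256) (.e (nat_lit 57379) (nat_lit 3) .nil)))) (.g (nat_lit 0) (.e (nat_lit 353905) (nat_lit 0) .nil) .nil)))) (.nd (nat_lit 9) 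
(.lf (nat_lit 571889) (.g (nat_lit 1032) (.e (nat_lit 475199) (nat_lit 40) (.e (nat_lit 704592) (nat_lit 4) (.e (nat_lit 172124) (nat_lit 14) (.e (nat_lit 491571) (nat_lit 13) .nil)))) (.g (nat_lit 0) (.e (nat_lit 353373) (nat_lit 0) .nil) .nil))) 
(.lf (nat_lit 572401) (.g (nat_lit 4263) (.e (nat_lit 483337) (nat_lit 9) (.e (nat_lit 426197) (nat_lit 9) (.e (nat_lit 426436) (nat_lit 18) (.e (nat_lit 98335) (nat_lit 18) (.e (nat_lit 164329) (nat_lit 230) (.e (nat_lit 163941) (nat_lit 19) .nil)))))) (.g (nat_lit 1) (.e (nat_lit 354550) (nat_lit 0) .nil) .nil))))))))) 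
(.nd (nat_lit 4) (.nd (nat_lit 5) (.nd (nat_lit 6) (.nd (nat_lit 7) (.nd (nat_lit 8) 
(.nd (nat_lit 9) 
(.lf (nat_lit 571401) (.g (nat_lit 4351) (.e (nat_lit 475185) (nat_lit 29) (.e (nat_lit 557100) (nat_lit 13) (.e (nat_lit 172113) (nat_lit 10) (.e (nat_lit 434245) (nat_lit 28) (.e (nat_lit 573474) (nat_lit 12) (.e (nat_lit 57566) (nat_lit 52) (.e (nat_lit 753680) (nat_lit 5) (.e (nat_lit 3062) (nat_lit 190) .nil)))))))) (.g (nat_lit 1) (.e (nat_lit 352219) (nat_lit 0) .nil) .nil))) 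
(.lf (nat_lit 571913) (.g (nat_lit 2265) (.e (nat_lit 475199) (nat_lit 40) (.e (nat_lit 704598) (nat_lit 6) (.e (nat_lit 188455) (nat_lit 24) (.e (nat_lit 229681) (nat_lit 244) (.e (nat_lit 163913) (nat_lit 12) (.e (nat_lit 426318) (nat_lit 12) .nil)))))) (.g (nat_lit 1) (.e (nat_lit 353430) (nat_lit 0) .nil) .nil)))) (.nd (nat_lit 9) 
(.lf (nat_lit 571657) (.g (nat_lit 1356) (.e (nat_lit 475196) (nat_lit 40) (.e (nat_lit 704590) (nat_lit 3) (.e (nat_lit 163950) (nat_lit 21) (.e (nat_lit 499725) (nat_lit 0) .nil)))) (.g (nat_lit 0) (.e (nat_lit 352521) (nat_lit 0) .nil) .nil))) 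
(.lf (nat_lit 572169) (.g (nat_lit 1961) (.e (nat_lit 483336) (nat_lit 9) (.e (nat_lit 426108) (nat_lit 1) (.e (nat_lit 164329) (nat_lit 230) (.e (nat_lit 163867) (nat_lit 2) (.e (nat_lit 196656) (nat_lit 11) .nil))))) (.g (nat_lit 0) (.e (nat_lit 353949) (nat_lit 0) .nil) .nil))))) (.nd (nat_lit 8) (.nd (nat_lit 9) 
(.lf (nat_lit 571529) (.g (nat_lit 2783) (.e (nat_lit 475185) (nat_lit 29) (.e (nat_lit 557107) (nat_lit 15) (.e (nat_lit 188439) (nat_lit 20) (.e (nat_lit 3272) (nat_lit 199) (.e (nat_lit 548896) (nat_lit 14) (.e (nat_lit 2884) (nat_lit 184) (.e (nat_lit 426317) (nat_lit 12) .nil))))))) (.g (nat_lit 1) (.e (nat_lit 352358) (nat_lit 0) .nil) .nil))) 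
(.lf (nat_lit 572041) (.g (nat_lit 2411) (.e (nat_lit 475211) (nat_lit 41) (.e (nat_lit 712752) (nat_lit 29) (.e (nat_lit 442428) (nat_lit 24) (.e (nat_lit 229680) (nat_lit 244) (.e (nat_lit 163913) (nat_lit 12) (.e (nat_lit 426318) (nat_lit 12) .nil)))))) (.g (nat_lit 1) (.e (nat_lit 353690) (nat_lit 0) .nil) .nil)))) (.nd (nat_lit 9) 
(.lf (nat_lit 571785) (.g (nat_lit 1354) (.e (nat_lit 475198) (nat_lit 40) (.e (nat_lit 704595) (nat_lit 5) (.e (nat_lit 180225) (nat_lit 0) (.e (nat_lit 4439) (nat_lit 263) .nil)))) (.g (nat_lit 0) (.e (nat_lit 352930) (nat_lit 0) .nil) .nil))) 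
(.lf (nat_lit 572297) (.g (nat_lit 429) (.e (nat_lit 483337) (nat_lit 9) (.e (nat_lit 426107) (nat_lit 1) (.e (nat_lit 164325) (nat_lit 230) .nil))) (.g (nat_lit 0) (.e (nat_lit 354159) (nat_lit 0) .nil) .nil)))))) (.nd (nat_lit 7) (.nd (nat_lit 8) (.nd (nat_lit 9) 
(.lf (nat_lit 571465) (.g (nat_lit 3483) (.e (nat_lit 475185) (nat_lit 29) (.e (nat_lit 557101) (nat_lit 13) (.e (nat_lit 172115) (nat_lit 10) (.e (nat_lit 434231) (nat_lit 23) (.e (nat_lit 532482) (nat_lit 0) (.e (nat_lit 6619) (nat_lit 357) (.e (nat_lit 3071) (nat_lit 190) .nil))))))) (.g (nat_lit 1) (.e (nat_lit 352284) (nat_lit 0) .nil) .nil))) 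
(.lf (nat_lit 571977) (.g (nat_lit 408) (.e (nat_lit 475209) (nat_lit 41) (.e (nat_lit 712755) (nat_lit 30) (.e (nat_lit 450597) (nat_lit 17) .nil))) (.g (nat_lit 0) (.e (nat_lit 353550) (nat_lit 0) .nil) .nil)))) (.nd (nat_lit 9) 
(.lf (nat_lit 571721) (.g (nat_lit 3409) (.e (nat_lit 475198) (nat_lit 40) (.e (nat_lit 704589) (nat_lit 3) (.e (nat_lit 163975) (nat_lit 30) (.e (nat_lit 573492) (nat_lit 15) (.e (nat_lit 81956) (nat_lit 23) (.e (nat_lit 106240) (nat_lit 32) .nil)))))) (.g (nat_lit 1) (.e (nat_lit 352708) (nat_lit 0) .nil) .nil))) 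
(.lf (nat_lit 572233) (.g (nat_lit 2699) (.e (nat_lit 483337) (nat_lit 9) (.e (nat_lit 426099) (nat_lit 1) (.e (nat_lit 164399) (nat_lit 256) (.e (nat_lit 57373) (nat_lit 2) (.e (nat_lit 90170) (nat_lit 13) (.e (nat_lit 172123) (nat_lit 13) .nil)))))) (.g (nat_lit 1) (.e (nat_lit 354059) (nat_lit 0) .nil) .nil))))) (.nd (nat_lit 8) (.nd (nat_lit 9) 
(.lf (nat_lit 571593) (.g (nat_lit 5071) (.e (nat_lit 475185) (nat_lit 29) (.e (nat_lit 557109) (nat_lit 15) (.e (nat_lit 188449) (nat_lit 22) (.e (nat_lit 196622) (nat_lit 9) .nil)))) (.g (nat_lit 0) (.e (nat_lit 352425) (nat_lit 0) .nil) .nil))) 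
(.lf (nat_lit 572105) (.g (nat_lit 1319) (.e (nat_lit 475212) (nat_lit 42) (.e (nat_lit 720955) (nat_lit 25) (.e (nat_lit 114698) (nat_lit 11) (.e (nat_lit 426172) (nat_lit 7) .nil)))) (.g (nat_lit 0) (.e (nat_lit 353772) (nat_lit 0) .nil) .nil)))) (.nd (nat_lit 9) 
(.lf (nat_lit 571849) (.g (nat_lit 4230) (.e (nat_lit 475199) (nat_lit 40) (.e (nat_lit 704589) (nat_lit 3) (.e (nat_lit 163978) (nat_lit 30) (.e (nat_lit 573485) (nat_lit 13) (.e (nat_lit 65604) (nat_lit 9) (.e (nat_lit 336028) (nat_lit 3) (.e (nat_lit 106240) (nat_lit 32) .nil))))))) (.g (nat_lit 1) (.e (nat_lit 353185) (nat_lit 0) .nil) .nil))) 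
(.lf (nat_lit 572361) (.g (nat_lit 1851) (.e (nat_lit 483337) (nat_lit 9) (.e (nat_lit 426108) (nat_lit 1) (.e (nat_lit 164401) (nat_lit 256) (.e (nat_lit 57371) (nat_lit 2) (.e (nat_lit 90168) (nat_lit 13) .nil))))) (.g (nat_lit 0) (.e (nat_lit 354480) (nat_lit 0) .nil) .nil))))))) (.nd (nat_lit 6) (.nd (nat_lit 7) (.nd (nat_lit 8) (.nd (nat_lit 9) 
(.lf (nat_lit 571433) (.g (nat_lit 660) (.e (nat_lit 475185) (nat_lit 29) (.e (nat_lit 557100) (nat_lit 13) (.e (nat_lit 172115) (nat_lit 10) .nil))) (.g (nat_lit 0) (.e (nat_lit 352251) (nat_lit 0) .nil) .nil))) 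
(.lf (nat_lit 571945) (.g (nat_lit 573) (.e (nat_lit 475208) (nat_lit 41) (.e (nat_lit 712752) (nat_lit 29) (.e (nat_lit 450304) (nat_lit 0) .nil))) (.g (nat_lit 0) (.e (nat_lit 353504) (nat_lit 0) .nil) .nil)))) (.nd (nat_lit 9) 
(.lf (nat_lit 571689) (.g (nat_lit 2769) (.e (nat_lit 475197) (nat_lit 40) (.e (nat_lit 704589) (nat_lit 3) (.e (nat_lit 163979) (nat_lit 30) (.e (nat_lit 573491) (nat_lit 15) (.e (nat_lit 81954) (nat_lit 23) (.e (nat_lit 98385) (nat_lit 32) .nil)))))) (.g (nat_lit 1) (.e (nat_lit 352615) (nat_lit 0) .nil) .nil))) 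
(.lf (nat_lit 572201) (.g (nat_lit 4021) (.e (nat_lit 483337) (nat_lit 9) (.e (nat_lit 426098) (nat_lit 1) (.e (nat_lit 164398) (nat_lit 256) (.e (nat_lit 57378) (nat_lit 3) (.e (nat_lit 98365) (nat_lit 26) (.e (nat_lit 426325) (nat_lit 13) .nil)))))) (.g (nat_lit 1) (.e (nat_lit 354027) (nat_lit 0) .nil) .nil))))) (.nd (nat_lit 8) (.nd (nat_lit 9) 
(.lf (nat_lit 571561) (.g (nat_lit 4259) (.e (nat_lit 475185) (nat_lit 29) (.e (nat_lit 557108) (nat_lit 15) (.e (nat_lit 188449) (nat_lit 22) (.e (nat_lit 196687) (nat_lit 18) .nil)))) (.g (nat_lit 0) (.e (nat_lit 352390) (nat_lit 0) .nil) .nil))) 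
(.lf (nat_lit 572073) (.g (nat_lit 420) (.e (nat_lit 475211) (nat_lit 41) (.e (nat_lit 712755) (nat_lit 30) (.e (nat_lit 450563) (nat_lit 0) .nil))) (.g (nat_lit 0) (.e (nat_lit 353726) (nat_lit 0) .nil) .nil)))) (.nd (nat_lit 9) 
(.lf (nat_lit 571817) (.g (nat_lit 3591) (.e (nat_lit 475199) (nat_lit 40) (.e (nat_lit 704589) (nat_lit 3) (.e (nat_lit 163975) (nat_lit 30) (.e (nat_lit 573481) (nat_lit 13) (.e (nat_lit 65604) (nat_lit 9) (.e (nat_lit 336028) (nat_lit 3) (.e (nat_lit 106240) (nat_lit 32) .nil))))))) (.g (nat_lit 1) (.e (nat_lit 352972) (nat_lit 0) .nil) .nil))) 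
(.lf (nat_lit 572329) (.g (nat_lit 667) (.e (nat_lit 483337) (nat_lit 9) (.e (nat_lit 426107) (nat_lit 1) (.e (nat_lit 164406) (nat_lit 258) .nil))) (.g (nat_lit 0) (.e (nat_lit 354374) (nat_lit 0) .nil) .nil)))))) (.nd (nat_lit 7) (.nd (nat_lit 8) (.nd (nat_lit 9) 
(.lf (nat_lit 571497) (.g (nat_lit 4272) (.e (nat_lit 475185) (nat_lit 29) (.e (nat_lit 557101) (nat_lit 13) (.e (nat_lit 172115) (nat_lit 10) (.e (nat_lit 434244) (nat_lit 28) (.e (nat_lit 573450) (nat_lit 9) (.e (nat_lit 375) (nat_lit 32) (.e (nat_lit 426309) (nat_lit 12) .nil))))))) (.g (nat_lit 1) (.e (nat_lit 352316) (nat_lit 0) .nil) .nil))) 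
(.lf (nat_lit 572009) (.g (nat_lit 602) (.e (nat_lit 475210) (nat_lit 41) (.e (nat_lit 712755) (nat_lit 30) (.e (nat_lit 450560) (nat_lit 0) .nil))) (.g (nat_lit 0) (.e (nat_lit 353625) (nat_lit 0) .nil) .nil)))) (.nd (nat_lit 9) 
(.lf (nat_lit 571753) (.g (nat_lit 2166) (.e (nat_lit 475198) (nat_lit 40) (.e (nat_lit 704589) (nat_lit 3) (.e (nat_lit 163979) (nat_lit 30) (.e (nat_lit 573491) (nat_lit 15) (.e (nat_lit 81943) (nat_lit 20) (.e (nat_lit 1781) (nat_lit 119) (.e (nat_lit 516182) (nat_lit 15) .nil))))))) (.g (nat_lit 1) (.e (nat_lit 352796) (nat_lit 0) .nil) .nil))) 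
(.lf (nat_lit 572265) (.g (nat_lit 3233) (.e (nat_lit 483337) (nat_lit 9) (.e (nat_lit 426100) (nat_lit 1) (.e (nat_lit 164398) (nat_lit 256) (.e (nat_lit 57379) (nat_lit 3) (.e (nat_lit 98363) (nat_lit 26) (.e (nat_lit 426321) (nat_lit 13) .nil)))))) (.g (nat_lit 1) (.e (nat_lit 354102) (nat_lit 0) .nil) .nil))))) (.nd (nat_lit 8) (.nd (nat_lit 9) 
(.lf (nat_lit 571625) (.g (nat_lit 3622) (.e (nat_lit 475185) (nat_lit 29) (.e (nat_lit 557109) (nat_lit 15) (.e (nat_lit 188452) (nat_lit 23) (.e (nat_lit 204821) (nat_lit 17) (.e (nat_lit 6680) (nat_lit 357) (.e (nat_lit 3065) (nat_lit 190) .nil)))))) (.g (nat_lit 1) (.e (nat_lit 352457) (nat_lit 0) .nil) .nil))) 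
(.lf (nat_lit 572137) (.g (nat_lit 1516) (.e (nat_lit 483336) (nat_lit 9) (.e (nat_lit 426100) (nat_lit 1) (.e (nat_lit 164330) (nat_lit 230) (.e (nat_lit 163869) (nat_lit 2) .nil)))) (.g (nat_lit 0) (.e (nat_lit 353889) (nat_lit 0) .nil) .nil)))) (.nd (nat_lit 9) 
(.lf (nat_lit 571881) (.g (nat_lit 2460) (.e (nat_lit 475199) (nat_lit 40) (.e (nat_lit 704589) (nat_lit 3) (.e (nat_lit 163979) (nat_lit 30) (.e (nat_lit 573491) (nat_lit 15) (.e (nat_lit 89856) (nat_lit 20) (.e (nat_lit 1784) (nat_lit 119) (.e (nat_lit 516182) (nat_lit 15) .nil))))))) (.g (nat_lit 1) (.e (nat_lit 353231) (nat_lit 0) .nil) .nil))) 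
(.lf (nat_lit 572393) (.g (nat_lit 3759) (.e (nat_lit 483337) (nat_lit 9) (.e (nat_lit 426189) (nat_lit 9) (.e (nat_lit 426436) (nat_lit 18) (.e (nat_lit 98335) (nat_lit 18) (.e (nat_lit 164324) (nat_lit 230) (.e (nat_lit 163943) (nat_lit 19) .nil)))))) (.g (nat_lit 1) (.e (nat_lit 354538) (nat_lit 0) .nil) .nil)))))))) 
(.nd (nat_lit 5) (.nd (nat_lit 6) (.nd (nat_lit 7) (.nd (nat_lit 8) (.nd (nat_lit 9) 
(.lf (nat_lit 571417) (.g (nat_lit 2946) (.e (nat_lit 475185) (nat_lit 29) (.e (nat_lit 557100) (nat_lit 13) (.e (nat_lit 172113) (nat_lit 10) (.e (nat_lit 434248) (nat_lit 28) (.e (nat_lit 573468) (nat_lit 10) (.e (nat_lit 16128) (nat_lit 205) (.e (nat_lit 3071) (nat_lit 190) .nil))))))) (.g (nat_lit 1) (.e (nat_lit 352235) (nat_lit 0) .nil) .nil))) 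
(.lf (nat_lit 571929) (.g (nat_lit 1332) (.e (nat_lit 475207) (nat_lit 41) (.e (nat_lit 712755) (nat_lit 30) (.e (nat_lit 450562) (nat_lit 0) (.e (nat_lit 4805) (nat_lit 281) .nil)))) (.g (nat_lit 0) (.e (nat_lit 353476) (nat_lit 0) .nil) .nil)))) (.nd (nat_lit 9) 
(.lf (nat_lit 571673) (.g (nat_lit 475) (.e (nat_lit 475197) (nat_lit 40) (.e (nat_lit 704589) (nat_lit 3) (.e (nat_lit 163976) (nat_lit 30) .nil))) (.g (nat_lit 0) (.e (nat_lit 352573) (nat_lit 0) .nil) .nil))) 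
(.lf (nat_lit 572185) (.g (nat_lit 726) (.e (nat_lit 483337) (nat_lit 9) (.e (nat_lit 426098) (nat_lit 1) (.e (nat_lit 164331) (nat_lit 230) .nil))) (.g (nat_lit 0) (.e (nat_lit 354010) (nat_lit 0) .nil) .nil))))) (.nd (nat_lit 8) (.nd (nat_lit 9) 
(.lf (nat_lit 571545) (.g (nat_lit 1552) (.e (nat_lit 475185) (nat_lit 29) (.e (nat_lit 557107) (nat_lit 15) (.e (nat_lit 188450) (nat_lit 23) (.e (nat_lit 204830) (nat_lit 18) (.e (nat_lit 65280) (nat_lit 220) .nil))))) (.g (nat_lit 0) (.e (nat_lit 352374) (nat_lit 0) .nil) .nil))) 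
(.lf (nat_lit 572057) (.g (nat_lit 3051) (.e (nat_lit 475211) (nat_lit 41) (.e (nat_lit 712753) (nat_lit 30) (.e (nat_lit 450565) (nat_lit 0) (.e (nat_lit 5548) (nat_lit 306) (.e (nat_lit 2628) (nat_lit 164) (.e (nat_lit 172118) (nat_lit 12) .nil)))))) (.g (nat_lit 1) (.e (nat_lit 353706) (nat_lit 0) .nil) .nil)))) (.nd (nat_lit 9) 
(.lf (nat_lit 571801) (.g (nat_lit 2540) (.e (nat_lit 475198) (nat_lit 40) (.e (nat_lit 704598) (nat_lit 6) (.e (nat_lit 188455) (nat_lit 24) (.e (nat_lit 229666) (nat_lit 240) (.e (nat_lit 2630) (nat_lit 164) (.e (nat_lit 172118) (nat_lit 12) .nil)))))) (.g (nat_lit 1) (.e (nat_lit 352952) (nat_lit 0) .nil) .nil))) 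
(.lf (nat_lit 572313) (.g (nat_lit 3932) (.e (nat_lit 483337) (nat_lit 9) (.e (nat_lit 426107) (nat_lit 1) (.e (nat_lit 164326) (nat_lit 230) (.e (nat_lit 163871) (nat_lit 2) (.e (nat_lit 196656) (nat_lit 11) (.e (nat_lit 16466) (nat_lit 13) .nil)))))) (.g (nat_lit 1) (.e (nat_lit 354311) (nat_lit 0) .nil) .nil)))))) (.nd (nat_lit 7) (.nd (nat_lit 8) (.nd (nat_lit 9) 
(.lf (nat_lit 571481) (.g (nat_lit 2594) (.e (nat_lit 475185) (nat_lit 29) (.e (nat_lit 557101) (nat_lit 13) (.e (nat_lit 172115) (nat_lit 10) (.e (nat_lit 434238) (nat_lit 25) (.e (nat_lit 548898) (nat_lit 14) (.e (nat_lit 2878) (nat_lit 184) (.e (nat_lit 426310) (nat_lit 12) .nil))))))) (.g (nat_lit 1) (.e (nat_lit 352300) (nat_lit 0) .nil) .nil))) 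
(.lf (nat_lit 571993) (.g (nat_lit 728) (.e (nat_lit 475210) (nat_lit 41) (.e (nat_lit 712752) (nat_lit 29) (.e (nat_lit 442393) (nat_lit 20) .nil))) (.g (nat_lit 0) (.e (nat_lit 353602) (nat_lit 0) .nil) .nil)))) (.nd (nat_lit 9) 
(.lf (nat_lit 571737) (.g (nat_lit 4839) (.e (nat_lit 475198) (nat_lit 40) (.e (nat_lit 704589) (nat_lit 3) (.e (nat_lit 163978) (nat_lit 30) (.e (nat_lit 573485) (nat_lit 13) (.e (nat_lit 65604) (nat_lit 9) (.e (nat_lit 336013) (nat_lit 2) (.e (nat_lit 90134) (nat_lit 9) (.e (nat_lit 3071) (nat_lit 190) .nil)))))))) (.g (nat_lit 1) (.e (nat_lit 352776) (nat_lit 0) .nil) .nil))) 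
(.lf (nat_lit 572249) (.g (nat_lit 3502) (.e (nat_lit 483337) (nat_lit 9) (.e (nat_lit 426100) (nat_lit 1) (.e (nat_lit 164398) (nat_lit 256) (.e (nat_lit 57372) (nat_lit 2) (.e (nat_lit 90185) (nat_lit 17) (.e (nat_lit 237621) (nat_lit 13) .nil)))))) (.g (nat_lit 1) (.e (nat_lit 354086) (nat_lit 0) .nil) .nil))))) (.nd (nat_lit 8) (.nd (nat_lit 9) 
(.lf (nat_lit 571609) (.g (nat_lit 5124) (.e (nat_lit 475185) (nat_lit 29) (.e (nat_lit 557109) (nat_lit 15) (.e (nat_lit 188449) (nat_lit 22) (.e (nat_lit 196689) (nat_lit 18) .nil)))) (.g (nat_lit 0) (.e (nat_lit 352441) (nat_lit 0) .nil) .nil))) 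
(.lf (nat_lit 572121) (.g (nat_lit 2987) (.e (nat_lit 475220) (nat_lit 44) (.e (nat_lit 737318) (nat_lit 15) (.e (nat_lit 49189) (nat_lit 11) (.e (nat_lit 16425) (nat_lit 7) (.e (nat_lit 409644) (nat_lit 18) (.e (nat_lit 303143) (nat_lit 12) .nil)))))) (.g (nat_lit 1) (.e (nat_lit 353814) (nat_lit 0) .nil) .nil)))) (.nd (nat_lit 9) 
(.lf (nat_lit 571865) (.g (nat_lit 3327) (.e (nat_lit 475199) (nat_lit 40) (.e (nat_lit 704589) (nat_lit 3) (.e (nat_lit 163979) (nat_lit 30) (.e (nat_lit 573482) (nat_lit 13) (.e (nat_lit 65619) (nat_lit 10) (.e (nat_lit 344117) (nat_lit 21) (.e (nat_lit 524032) (nat_lit 15) .nil))))))) (.g (nat_lit 1) (.e (nat_lit 353210) (nat_lit 0) .nil) .nil))) 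
(.lf (nat_lit 572377) (.g (nat_lit 2169) (.e (nat_lit 483337) (nat_lit 9) (.e (nat_lit 426108) (nat_lit 1) (.e (nat_lit 164403) (nat_lit 256) (.e (nat_lit 57377) (nat_lit 3) (.e (nat_lit 98357) (nat_lit 26) .nil))))) (.g (nat_lit 0) (.e (nat_lit 354496) (nat_lit 0) .nil) .nil))))))) (.nd (nat_lit 6) (.nd (nat_lit 7) (.nd (nat_lit 8) (.nd (nat_lit 9) 
(.lf (nat_lit 571449) (.g (nat_lit 3676) (.e (nat_lit 475185) (nat_lit 29) (.e (nat_lit 557101) (nat_lit 13) (.e (nat_lit 172097) (nat_lit 9) (.e (nat_lit 426125) (nat_lit 2) (.e (nat_lit 196687) (nat_lit 18) .nil))))) (.g (nat_lit 0) (.e (nat_lit 352267) (nat_lit 0) .nil) .nil))) 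
(.lf (nat_lit 571961) (.g (nat_lit 2332) (.e (nat_lit 475209) (nat_lit 41) (.e (nat_lit 712752) (nat_lit 29) (.e (nat_lit 442421) (nat_lit 21) (.e (nat_lit 164348) (nat_lit 240) (.e (nat_lit 2628) (nat_lit 164) .nil))))) (.g (nat_lit 0) (.e (nat_lit 353531) (nat_lit 0) .nil) .nil)))) (.nd (nat_lit 9) 
(.lf (nat_lit 571705) (.g (nat_lit 1668) (.e (nat_lit 475197) (nat_lit 40) (.e (nat_lit 704598) (nat_lit 6) (.e (nat_lit 188453) (nat_lit 24) (.e (nat_lit 229663) (nat_lit 240) (.e (nat_lit 2622) (nat_lit 164) .nil))))) (.g (nat_lit 0) (.e (nat_lit 352663) (nat_lit 0) .nil) .nil))) 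
(.lf (nat_lit 572217) (.g (nat_lit 2824) (.e (nat_lit 483337) (nat_lit 9) (.e (nat_lit 426098) (nat_lit 1) (.e (nat_lit 164403) (nat_lit 256) (.e (nat_lit 57371) (nat_lit 2) (.e (nat_lit 90168) (nat_lit 13) (.e (nat_lit 172123) (nat_lit 13) .nil)))))) (.g (nat_lit 1) (.e (nat_lit 354043) (nat_lit 0) .nil) .nil))))) (.nd (nat_lit 8) (.nd (nat_lit 9) 
(.lf (nat_lit 571577) (.g (nat_lit 1503) (.e (nat_lit 475185) (nat_lit 29) (.e (nat_lit 557109) (nat_lit 15) (.e (nat_lit 188434) (nat_lit 20) (.e (nat_lit 3115) (nat_lit 193) (.e (nat_lit 499776) (nat_lit 0) .nil))))) (.g (nat_lit 0) (.e (nat_lit 352407) (nat_lit 0) .nil) .nil))) 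
(.lf (nat_lit 572089) (.g (nat_lit 978) (.e (nat_lit 475211) (nat_lit 41) (.e (nat_lit 712755) (nat_lit 30) (.e (nat_lit 450569) (nat_lit 0) (.e (nat_lit 5924) (nat_lit 321) .nil)))) (.g (nat_lit 0) (.e (nat_lit 353750) (nat_lit 0) .nil) .nil)))) (.nd (nat_lit 9) 
(.lf (nat_lit 571833) (.g (nat_lit 3313) (.e (nat_lit 475199) (nat_lit 40) (.e (nat_lit 704589) (nat_lit 3) (.e (nat_lit 163976) (nat_lit 30) (.e (nat_lit 573481) (nat_lit 13) (.e (nat_lit 65604) (nat_lit 9) (.e (nat_lit 336013) (nat_lit 2) (.e (nat_lit 90134) (nat_lit 9) (.e (nat_lit 3055) (nat_lit 190) .nil)))))))) (.g (nat_lit 1) (.e (nat_lit 353093) (nat_lit 0) .nil) .nil))) 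
(.lf (nat_lit 572345) (.g (nat_lit 274) (.e (nat_lit 483337) (nat_lit 9) (.e (nat_lit 426108) (nat_lit 1) (.e (nat_lit 164329) (nat_lit 230) .nil))) (.g (nat_lit 0) (.e (nat_lit 354392) (nat_lit 0) .nil) .nil)))))) (.nd (nat_lit 7) (.nd (nat_lit 8) (.nd (nat_lit 9) 
(.lf (nat_lit 571513) (.g (nat_lit 2495) (.e (nat_lit 475185) (nat_lit 29) (.e (nat_lit 557101) (nat_lit 13) (.e (nat_lit 172115) (nat_lit 10) (.e (nat_lit 434244) (nat_lit 28) (.e (nat_lit 573468) (nat_lit 10) (.e (nat_lit 16128) (nat_lit 205) (.e (nat_lit 3071) (nat_lit 190) .nil))))))) (.g (nat_lit 1) (.e (nat_lit 352332) (nat_lit 0) .nil) .nil))) 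
(.lf (nat_lit 572025) (.g (nat_lit 410) (.e (nat_lit 475211) (nat_lit 41) (.e (nat_lit 712750) (nat_lit 29) (.e (nat_lit 450304) (nat_lit 4) .nil))) (.g (nat_lit 0) (.e (nat_lit 353663) (nat_lit 0) .nil) .nil)))) (.nd (nat_lit 9) 
(.lf (nat_lit 571769) (.g (nat_lit 4174) (.e (nat_lit 475198) (nat_lit 40) (.e (nat_lit 704590) (nat_lit 3) (.e (nat_lit 163975) (nat_lit 30) (.e (nat_lit 573481) (nat_lit 13) (.e (nat_lit 65604) (nat_lit 9) (.e (nat_lit 336028) (nat_lit 3) (.e (nat_lit 98383) (nat_lit 32) .nil))))))) (.g (nat_lit 1) (.e (nat_lit 352876) (nat_lit 0) .nil) .nil))) 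
(.lf (nat_lit 572281) (.g (nat_lit 3773) (.e (nat_lit 483337) (nat_lit 9) (.e (nat_lit 426100) (nat_lit 1) (.e (nat_lit 164403) (nat_lit 256) (.e (nat_lit 57373) (nat_lit 2) (.e (nat_lit 90169) (nat_lit 13) (.e (nat_lit 172122) (nat_lit 13) .nil)))))) (.g (nat_lit 1) (.e (nat_lit 354118) (nat_lit 0) .nil) .nil))))) (.nd (nat_lit 8) (.nd (nat_lit 9) 
(.lf (nat_lit 571641) (.g (nat_lit 2774) (.e (nat_lit 483072) (nat_lit 29) (.e (nat_lit 557108) (nat_lit 15) (.e (nat_lit 188449) (nat_lit 22) (.e (nat_lit 196630) (nat_lit 9) (.e (nat_lit 1669) (nat_lit 116) .nil))))) (.g (nat_lit 0) (.e (nat_lit 352480) (nat_lit 0) .nil) .nil))) 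
(.lf (nat_lit 572153) (.g (nat_lit 836) (.e (nat_lit 483336) (nat_lit 9) (.e (nat_lit 426100) (nat_lit 1) (.e (nat_lit 164403) (nat_lit 256) .nil))) (.g (nat_lit 0) (.e (nat_lit 353913) (nat_lit 0) .nil) .nil)))) (.nd (nat_lit 9) 
(.lf (nat_lit 571897) (.g (nat_lit 452) (.e (nat_lit 475199) (nat_lit 40) (.e (nat_lit 704595) (nat_lit 5) (.e (nat_lit 180288) (nat_lit 45) .nil))) (.g (nat_lit 0) (.e (nat_lit 353402) (nat_lit 0) .nil) .nil))) 
(.lf (nat_lit 572409) (.g (nat_lit 541) (.e (nat_lit 483337) (nat_lit 9) (.e (nat_lit 426305) (nat_lit 12) (.e (nat_lit 475178) (nat_lit 24) .nil))) (.g (nat_lit 0) (.e (nat_lit 354601) (nat_lit 0) .nil) .nil)))))))))) (.nd (nat_lit 3) (.nd (nat_lit 4) (.nd (nat_lit 5) (.nd (nat_lit 6) (.nd (nat_lit 7) (.nd (nat_lit 8) (.nd (nat_lit 9) 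
(.lf (nat_lit 571397) (.g (nat_lit 3495) (.e (nat_lit 475185) (nat_lit 29) (.e (nat_lit 557100) (nat_lit 13) (.e (nat_lit 172113) (nat_lit 10) (.e (nat_lit 434245) (nat_lit 28) (.e (nat_lit 573474) (nat_lit 12) (.e (nat_lit 57348) (nat_lit 0) (.e (nat_lit 6942) (nat_lit 375) (.e (nat_lit 163938) (nat_lit 18) .nil)))))))) (.g (nat_lit 1) (.e (nat_lit 352215) (nat_lit 0) .nil) .nil))) 
(.lf (nat_lit 571909) (.g (nat_lit 3029) (.e (nat_lit 475199) (nat_lit 40) (.e (nat_lit 704598) (nat_lit 6) (.e (nat_lit 188455) (nat_lit 24) (.e (nat_lit 229666) (nat_lit 240) (.e (nat_lit 2630) (nat_lit 164) (.e (nat_lit 172120) (nat_lit 12) .nil)))))) (.g (nat_lit 1) (.e (nat_lit 353424) (nat_lit 0) .nil) .nil)))) (.nd (nat_lit 9) 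
(.lf (nat_lit 571653) (.g (nat_lit 2828) (.e (nat_lit 475196) (nat_lit 40) (.e (nat_lit 704589) (nat_lit 3) (.e (nat_lit 163978) (nat_lit 30) (.e (nat_lit 573491) (nat_lit 15) (.e (nat_lit 89856) (nat_lit 23) .nil))))) (.g (nat_lit 0) (.e (nat_lit 352511) (nat_lit 0) .nil) .nil))) 
(.lf (nat_lit 572165) (.g (nat_lit 868) (.e (nat_lit 483336) (nat_lit 9) (.e (nat_lit 426107) (nat_lit 1) (.e (nat_lit 164331) (nat_lit 230) .nil))) (.g (nat_lit 0) (.e (nat_lit 353944) (nat_lit 0) .nil) .nil))))) (.nd (nat_lit 8) (.nd (nat_lit 9) 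
(.lf (nat_lit 571525) (.g (nat_lit 606) (.e (nat_lit 475185) (nat_lit 29) (.e (nat_lit 557107) (nat_lit 15) (.e (nat_lit 188434) (nat_lit 20) .nil))) (.g (nat_lit 0) (.e (nat_lit 352354) (nat_lit 0) .nil) .nil))) 
(.lf (nat_lit 572037) (.g (nat_lit 987) (.e (nat_lit 475211) (nat_lit 41) (.e (nat_lit 712752) (nat_lit 29) (.e (nat_lit 442428) (nat_lit 24) (.e (nat_lit 229665) (nat_lit 240) .nil)))) (.g (nat_lit 0) (.e (nat_lit 353686) (nat_lit 0) .nil) .nil)))) (.nd (nat_lit 9) 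
(.lf (nat_lit 571781) (.g (nat_lit 585) (.e (nat_lit 475198) (nat_lit 40) (.e (nat_lit 704590) (nat_lit 3) (.e (nat_lit 163977) (nat_lit 30) .nil))) (.g (nat_lit 0) (.e (nat_lit 352908) (nat_lit 0) .nil) .nil))) 
(.lf (nat_lit 572293) (.g (nat_lit 410) (.e (nat_lit 483337) (nat_lit 9) (.e (nat_lit 426107) (nat_lit 1) (.e (nat_lit 164322) (nat_lit 230) .nil))) (.g (nat_lit 0) (.e (nat_lit 354131) (nat_lit 0) .nil) .nil)))))) (.nd (nat_lit 7) (.nd (nat_lit 8) (.nd (nat_lit 9) 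
(.lf (nat_lit 571461) (.g (nat_lit 3146) (.e (nat_lit 475185) (nat_lit 29) (.e (nat_lit 557101) (nat_lit 13) (.e (nat_lit 172115) (nat_lit 10) (.e (nat_lit 434231) (nat_lit 23) (.e (nat_lit 532481) (nat_lit 0) (.e (nat_lit 6639) (nat_lit 357) (.e (nat_lit 3055) (nat_lit 190) .nil))))))) (.g (nat_lit 1) (.e (nat_lit 352280) (nat_lit 0) .nil) .nil))) 
(.lf (nat_lit 571973) (.g (nat_lit 590) (.e (nat_lit 475209) (nat_lit 41) (.e (nat_lit 712755) (nat_lit 30) (.e (nat_lit 450566) (nat_lit 0) .nil))) (.g (nat_lit 0) (.e (nat_lit 353546) (nat_lit 0) .nil) .nil)))) (.nd (nat_lit 9) 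
(.lf (nat_lit 571717) (.g (nat_lit 3419) (.e (nat_lit 475198) (nat_lit 40) (.e (nat_lit 704589) (nat_lit 3) (.e (nat_lit 163975) (nat_lit 30) (.e (nat_lit 573491) (nat_lit 15) (.e (nat_lit 81946) (nat_lit 20) (.e (nat_lit 1802) (nat_lit 119) (.e (nat_lit 516182) (nat_lit 15) .nil))))))) (.g (nat_lit 1) (.e (nat_lit 352679) (nat_lit 0) .nil) .nil))) 
(.lf (nat_lit 572229) (.g (nat_lit 1990) (.e (nat_lit 483337) (nat_lit 9) (.e (nat_lit 426099) (nat_lit 1) (.e (nat_lit 164399) (nat_lit 256) (.e (nat_lit 57372) (nat_lit 2) (.e (nat_lit 90168) (nat_lit 13) .nil))))) (.g (nat_lit 0) (.e (nat_lit 354055) (nat_lit 0) .nil) .nil))))) (.nd (nat_lit 8) (.nd (nat_lit 9) 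
(.lf (nat_lit 571589) (.g (nat_lit 4855) (.e (nat_lit 475185) (nat_lit 29) (.e (nat_lit 557109) (nat_lit 15) (.e (nat_lit 188449) (nat_lit 22) (.e (nat_lit 196617) (nat_lit 9) .nil)))) (.g (nat_lit 0) (.e (nat_lit 352421) (nat_lit 0) .nil) .nil))) 
(.lf (nat_lit 572101) (.g (nat_lit 323) (.e (nat_lit 475211) (nat_lit 41) (.e (nat_lit 712755) (nat_lit 30) (.e (nat_lit 450593) (nat_lit 16) .nil))) (.g (nat_lit 0) (.e (nat_lit 353764) (nat_lit 0) .nil) .nil)))) (.nd (nat_lit 9) 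
(.lf (nat_lit 571845) (.g (nat_lit 3075) (.e (nat_lit 475199) (nat_lit 40) (.e (nat_lit 704589) (nat_lit 3) (.e (nat_lit 163978) (nat_lit 30) (.e (nat_lit 573479) (nat_lit 13) (.e (nat_lit 65619) (nat_lit 10) .nil))))) (.g (nat_lit 0) (.e (nat_lit 353181) (nat_lit 0) .nil) .nil))) 
(.lf (nat_lit 572357) (.g (nat_lit 1465) (.e (nat_lit 483337) (nat_lit 9) (.e (nat_lit 426108) (nat_lit 1) (.e (nat_lit 164332) (nat_lit 230) (.e (nat_lit 164080) (nat_lit 61) .nil)))) (.g (nat_lit 0) (.e (nat_lit 354476) (nat_lit 0) .nil) .nil))))))) (.nd (nat_lit 6) (.nd (nat_lit 7) (.nd (nat_lit 8) (.nd (nat_lit 9) 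
(.lf (nat_lit 571429) (.g (nat_lit 4351) (.e (nat_lit 475185) (nat_lit 29) (.e (nat_lit 557100) (nat_lit 13) (.e (nat_lit 172113) (nat_lit 10) (.e (nat_lit 434248) (nat_lit 28) (.e (nat_lit 573475) (nat_lit 12) (.e (nat_lit 57347) (nat_lit 0) (.e (nat_lit 6943) (nat_lit 375) (.e (nat_lit 163938) (nat_lit 18) .nil)))))))) (.g (nat_lit 1) (.e (nat_lit 352247) (nat_lit 0) .nil) .nil))) 
(.lf (nat_lit 571941) (.g (nat_lit 441) (.e (nat_lit 475207) (nat_lit 41) (.e (nat_lit 712755) (nat_lit 30) (.e (nat_lit 450597) (nat_lit 17) .nil))) (.g (nat_lit 0) (.e (nat_lit 353494) (nat_lit 0) .nil) .nil)))) (.nd (nat_lit 9) 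
(.lf (nat_lit 571685) (.g (nat_lit 965) (.e (nat_lit 475197) (nat_lit 40) (.e (nat_lit 704589) (nat_lit 3) (.e (nat_lit 163979) (nat_lit 30) (.e (nat_lit 573491) (nat_lit 15) .nil)))) (.g (nat_lit 0) (.e (nat_lit 352610) (nat_lit 0) .nil) .nil))) 
(.lf (nat_lit 572197) (.g (nat_lit 2257) (.e (nat_lit 483337) (nat_lit 9) (.e (nat_lit 426098) (nat_lit 1) (.e (nat_lit 164398) (nat_lit 256) (.e (nat_lit 57377) (nat_lit 3) (.e (nat_lit 98357) (nat_lit 26) .nil))))) (.g (nat_lit 0) (.e (nat_lit 354023) (nat_lit 0) .nil) .nil))))) (.nd (nat_lit 8) (.nd (nat_lit 9) 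
(.lf (nat_lit 571557) (.g (nat_lit 1257) (.e (nat_lit 475185) (nat_lit 29) (.e (nat_lit 557107) (nat_lit 15) (.e (nat_lit 188455) (nat_lit 24) (.e (nat_lit 229535) (nat_lit 134) .nil)))) (.g (nat_lit 0) (.e (nat_lit 352386) (nat_lit 0) .nil) .nil))) 
(.lf (nat_lit 572069) (.g (nat_lit 593) (.e (nat_lit 475211) (nat_lit 41) (.e (nat_lit 712755) (nat_lit 30) (.e (nat_lit 450561) (nat_lit 0) .nil))) (.g (nat_lit 0) (.e (nat_lit 353719) (nat_lit 0) .nil) .nil)))) (.nd (nat_lit 9) 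
(.lf (nat_lit 571813) (.g (nat_lit 1095) (.e (nat_lit 475198) (nat_lit 40) (.e (nat_lit 704599) (nat_lit 6) (.e (nat_lit 188455) (nat_lit 24) (.e (nat_lit 229679) (nat_lit 244) (.e (nat_lit 163915) (nat_lit 12) .nil))))) (.g (nat_lit 0) (.e (nat_lit 352966) (nat_lit 0) .nil) .nil))) 
(.lf (nat_lit 572325) (.g (nat_lit 1620) (.e (nat_lit 483337) (nat_lit 9) (.e (nat_lit 426107) (nat_lit 1) (.e (nat_lit 164332) (nat_lit 230) (.e (nat_lit 163867) (nat_lit 2) .nil)))) (.g (nat_lit 0) (.e (nat_lit 354368) (nat_lit 0) .nil) .nil)))))) (.nd (nat_lit 7) (.nd (nat_lit 8) (.nd (nat_lit 9) 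
(.lf (nat_lit 571493) (.g (nat_lit 2326) (.e (nat_lit 475185) (nat_lit 29) (.e (nat_lit 557101) (nat_lit 13) (.e (nat_lit 172115) (nat_lit 10) (.e (nat_lit 434244) (nat_lit 28) (.e (nat_lit 573450) (nat_lit 9) (.e (nat_lit 370) (nat_lit 32) (.e (nat_lit 426319) (nat_lit 12) .nil))))))) (.g (nat_lit 1) (.e (nat_lit 352312) (nat_lit 0) .nil) .nil))) 
(.lf (nat_lit 572005) (.g (nat_lit 2296) (.e (nat_lit 475210) (nat_lit 41) (.e (nat_lit 712753) (nat_lit 30) (.e (nat_lit 450564) (nat_lit 0) (.e (nat_lit 5548) (nat_lit 306) (.e (nat_lit 2619) (nat_lit 164) (.e (nat_lit 172119) (nat_lit 12) .nil)))))) (.g (nat_lit 1) (.e (nat_lit 353619) (nat_lit 0) .nil) .nil)))) (.nd (nat_lit 9) 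
(.lf (nat_lit 571749) (.g (nat_lit 3026) (.e (nat_lit 475198) (nat_lit 40) (.e (nat_lit 704589) (nat_lit 3) (.e (nat_lit 163979) (nat_lit 30) (.e (nat_lit 573482) (nat_lit 13) (.e (nat_lit 65619) (nat_lit 10) (.e (nat_lit 344116) (nat_lit 21) (.e (nat_lit 516182) (nat_lit 15) .nil))))))) (.g (nat_lit 1) (.e (nat_lit 352792) (nat_lit 0) .nil) .nil))) 
(.lf (nat_lit 572261) (.g (nat_lit 4076) (.e (nat_lit 483337) (nat_lit 9) (.e (nat_lit 426100) (nat_lit 1) (.e (nat_lit 164398) (nat_lit 256) (.e (nat_lit 57378) (nat_lit 3) (.e (nat_lit 98365) (nat_lit 26) (.e (nat_lit 426325) (nat_lit 13) .nil)))))) (.g (nat_lit 1) (.e (nat_lit 354098) (nat_lit 0) .nil) .nil))))) (.nd (nat_lit 8) (.nd (nat_lit 9) 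
(.lf (nat_lit 571621) (.g (nat_lit 3801) (.e (nat_lit 475185) (nat_lit 29) (.e (nat_lit 557109) (nat_lit 15) (.e (nat_lit 188452) (nat_lit 23) (.e (nat_lit 204815) (nat_lit 17) (.e (nat_lit 6619) (nat_lit 357) (.e (nat_lit 3071) (nat_lit 190) .nil)))))) (.g (nat_lit 1) (.e (nat_lit 352453) (nat_lit 0) .nil) .nil))) 
(.lf (nat_lit 572133) (.g (nat_lit 1782) (.e (nat_lit 483336) (nat_lit 9) (.e (nat_lit 426098) (nat_lit 1) (.e (nat_lit 164399) (nat_lit 256) (.e (nat_lit 57379) (nat_lit 3) (.e (nat_lit 98363) (nat_lit 26) .nil))))) (.g (nat_lit 0) (.e (nat_lit 353885) (nat_lit 0) .nil) .nil)))) (.nd (nat_lit 9) 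
(.lf (nat_lit 571877) (.g (nat_lit 2639) (.e (nat_lit 475199) (nat_lit 40) (.e (nat_lit 704589) (nat_lit 3) (.e (nat_lit 163979) (nat_lit 30) (.e (nat_lit 573491) (nat_lit 15) (.e (nat_lit 81946) (nat_lit 20) (.e (nat_lit 1802) (nat_lit 119) (.e (nat_lit 516178) (nat_lit 15) .nil))))))) (.g (nat_lit 1) (.e (nat_lit 353227) (nat_lit 0) .nil) .nil))) 
(.lf (nat_lit 572389) (.g (nat_lit 3684) (.e (nat_lit 483337) (nat_lit 9) (.e (nat_lit 426188) (nat_lit 9) (.e (nat_lit 426436) (nat_lit 18) (.e (nat_lit 98335) (nat_lit 18) (.e (nat_lit 164324) (nat_lit 230) (.e (nat_lit 163941) (nat_lit 19) .nil)))))) (.g (nat_lit 1) (.e (nat_lit 354524) (nat_lit 0) .nil) .nil)))))))) 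
(.nd (nat_lit 5) (.nd (nat_lit 6) (.nd (nat_lit 7) (.nd (nat_lit 8) (.nd (nat_lit 9) 
(.lf (nat_lit 571413) (.g (nat_lit 2942) (.e (nat_lit 475185) (nat_lit 29) (.e (nat_lit 557100) (nat_lit 13) (.e (nat_lit 172113) (nat_lit 10) (.e (nat_lit 434248) (nat_lit 28) (.e (nat_lit 573452) (nat_lit 9) (.e (nat_lit 430) (nat_lit 32) (.e (nat_lit 426314) (nat_lit 12) .nil))))))) (.g (nat_lit 1) (.e (nat_lit 352231) (nat_lit 0) .nil) .nil))) 
(.lf (nat_lit 571925) (.g (nat_lit 393) (.e (nat_lit 475207) (nat_lit 41) (.e (nat_lit 712753) (nat_lit 30) (.e (nat_lit 450569) (nat_lit 0) .nil))) (.g (nat_lit 0) (.e (nat_lit 353471) (nat_lit 0) .nil) .nil)))) (.nd (nat_lit 9) 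
(.lf (nat_lit 571669) (.g (nat_lit 861) (.e (nat_lit 475197) (nat_lit 40) (.e (nat_lit 704589) (nat_lit 3) (.e (nat_lit 163975) (nat_lit 30) (.e (nat_lit 573491) (nat_lit 15) .nil)))) (.g (nat_lit 0) (.e (nat_lit 352546) (nat_lit 0) .nil) .nil))) 
(.lf (nat_lit 572181) (.g (nat_lit 2559) (.e (nat_lit 483337) (nat_lit 9) (.e (nat_lit 426098) (nat_lit 1) (.e (nat_lit 164325) (nat_lit 230) (.e (nat_lit 163867) (nat_lit 2) (.e (nat_lit 196654) (nat_lit 11) (.e (nat_lit 16463) (nat_lit 13) .nil)))))) (.g (nat_lit 1) (.e (nat_lit 353995) (nat_lit 0) .nil) .nil))))) (.nd (nat_lit 8) (.nd (nat_lit 9) 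
(.lf (nat_lit 571541) (.g (nat_lit 2408) (.e (nat_lit 475185) (nat_lit 29) (.e (nat_lit 557107) (nat_lit 15) (.e (nat_lit 188450) (nat_lit 23) (.e (nat_lit 204821) (nat_lit 17) (.e (nat_lit 6680) (nat_lit 357) (.e (nat_lit 3064) (nat_lit 190) .nil)))))) (.g (nat_lit 1) (.e (nat_lit 352370) (nat_lit 0) .nil) .nil))) 
(.lf (nat_lit 572053) (.g (nat_lit 2315) (.e (nat_lit 475211) (nat_lit 41) (.e (nat_lit 712753) (nat_lit 30) (.e (nat_lit 450564) (nat_lit 0) (.e (nat_lit 5546) (nat_lit 306) (.e (nat_lit 2618) (nat_lit 164) (.e (nat_lit 172119) (nat_lit 12) .nil)))))) (.g (nat_lit 1) (.e (nat_lit 353702) (nat_lit 0) .nil) .nil)))) (.nd (nat_lit 9) 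
(.lf (nat_lit 571797) (.g (nat_lit 2683) (.e (nat_lit 475198) (nat_lit 40) (.e (nat_lit 704598) (nat_lit 6) (.e (nat_lit 188453) (nat_lit 24) (.e (nat_lit 229678) (nat_lit 244) (.e (nat_lit 163913) (nat_lit 12) (.e (nat_lit 426318) (nat_lit 12) .nil)))))) (.g (nat_lit 1) (.e (nat_lit 352948) (nat_lit 0) .nil) .nil))) 
(.lf (nat_lit 572309) (.g (nat_lit 4041) (.e (nat_lit 483337) (nat_lit 9) (.e (nat_lit 426107) (nat_lit 1) (.e (nat_lit 164326) (nat_lit 230) (.e (nat_lit 163871) (nat_lit 2) (.e (nat_lit 196653) (nat_lit 11) (.e (nat_lit 16463) (nat_lit 13) .nil)))))) (.g (nat_lit 1) (.e (nat_lit 354304) (nat_lit 0) .nil) .nil)))))) (.nd (nat_lit 7) (.nd (nat_lit 8) (.nd (nat_lit 9) 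
(.lf (nat_lit 571477) (.g (nat_lit 3529) (.e (nat_lit 475185) (nat_lit 29) (.e (nat_lit 557101) (nat_lit 13) (.e (nat_lit 172115) (nat_lit 10) (.e (nat_lit 434238) (nat_lit 25) (.e (nat_lit 548897) (nat_lit 14) (.e (nat_lit 2884) (nat_lit 184) (.e (nat_lit 426317) (nat_lit 12) .nil))))))) (.g (nat_lit 1) (.e (nat_lit 352296) (nat_lit 0) .nil) .nil))) 
(.lf (nat_lit 571989) (.g (nat_lit 410) (.e (nat_lit 475210) (nat_lit 41) (.e (nat_lit 712750) (nat_lit 29) (.e (nat_lit 450304) (nat_lit 4) .nil))) (.g (nat_lit 0) (.e (nat_lit 353580) (nat_lit 0) .nil) .nil)))) (.nd (nat_lit 9) 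
(.lf (nat_lit 571733) (.g (nat_lit 3082) (.e (nat_lit 475198) (nat_lit 40) (.e (nat_lit 704589) (nat_lit 3) (.e (nat_lit 163976) (nat_lit 30) (.e (nat_lit 573492) (nat_lit 15) (.e (nat_lit 81956) (nat_lit 23) (.e (nat_lit 106240) (nat_lit 32) .nil)))))) (.g (nat_lit 1) (.e (nat_lit 352759) (nat_lit 0) .nil) .nil))) 
(.lf (nat_lit 572245) (.g (nat_lit 2140) (.e (nat_lit 483337) (nat_lit 9) (.e (nat_lit 426100) (nat_lit 1) (.e (nat_lit 164398) (nat_lit 256) (.e (nat_lit 57371) (nat_lit 2) (.e (nat_lit 90167) (nat_lit 13) .nil))))) (.g (nat_lit 0) (.e (nat_lit 354082) (nat_lit 0) .nil) .nil))))) (.nd (nat_lit 8) (.nd (nat_lit 9) 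
(.lf (nat_lit 571605) (.g (nat_lit 4488) (.e (nat_lit 475185) (nat_lit 29) (.e (nat_lit 557109) (nat_lit 15) (.e (nat_lit 188449) (nat_lit 22) (.e (nat_lit 196686) (nat_lit 18) .nil)))) (.g (nat_lit 0) (.e (nat_lit 352437) (nat_lit 0) .nil) .nil))) 
(.lf (nat_lit 572117) (.g (nat_lit 2553) (.e (nat_lit 475219) (nat_lit 44) (.e (nat_lit 737318) (nat_lit 15) (.e (nat_lit 49188) (nat_lit 11) (.e (nat_lit 16425) (nat_lit 7) (.e (nat_lit 409648) (nat_lit 18) (.e (nat_lit 303142) (nat_lit 12) .nil)))))) (.g (nat_lit 1) (.e (nat_lit 353803) (nat_lit 0) .nil) .nil)))) (.nd (nat_lit 9) 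
(.lf (nat_lit 571861) (.g (nat_lit 2363) (.e (nat_lit 475199) (nat_lit 40) (.e (nat_lit 704589) (nat_lit 3) (.e (nat_lit 163979) (nat_lit 30) (.e (nat_lit 573482) (nat_lit 13) (.e (nat_lit 65609) (nat_lit 10) (.e (nat_lit 344116) (nat_lit 21) (.e (nat_lit 516182) (nat_lit 15) .nil))))))) (.g (nat_lit 1) (.e (nat_lit 353205) (nat_lit 0) .nil) .nil))) 
(.lf (nat_lit 572373) (.g (nat_lit 1555) (.e (nat_lit 483337) (nat_lit 9) (.e (nat_lit 426108) (nat_lit 1) (.e (nat_lit 164403) (nat_lit 256) (.e (nat_lit 57370) (nat_lit 2) (.e (nat_lit 90169) (nat_lit 13) .nil))))) (.g (nat_lit 0) (.e (nat_lit 354492) (nat_lit 0) .nil) .nil))))))) (.nd (nat_lit 6) (.nd (nat_lit 7) (.nd (nat_lit 8) (.nd (nat_lit 9) 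
(.lf (nat_lit 571445) (.g (nat_lit 3776) (.e (nat_lit 475185) (nat_lit 29) (.e (nat_lit 557101) (nat_lit 13) (.e (nat_lit 172097) (nat_lit 9) (.e (nat_lit 426125) (nat_lit 2) (.e (nat_lit 196661) (nat_lit 12) (.e (nat_lit 57751) (nat_lit 201) (.e (nat_lit 3065) (nat_lit 190) .nil))))))) (.g (nat_lit 1) (.e (nat_lit 352263) (nat_lit 0) .nil) .nil))) 
(.lf (nat_lit 571957) (.g (nat_lit 549) (.e (nat_lit 475209) (nat_lit 41) (.e (nat_lit 712752) (nat_lit 29) (.e (nat_lit 442382) (nat_lit 8) .nil))) (.g (nat_lit 0) (.e (nat_lit 353525) (nat_lit 0) .nil) .nil)))) (.nd (nat_lit 9) 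
(.lf (nat_lit 571701) (.g (nat_lit 1049) (.e (nat_lit 475197) (nat_lit 40) (.e (nat_lit 704595) (nat_lit 5) (.e (nat_lit 180277) (nat_lit 32) (.e (nat_lit 1658) (nat_lit 115) (.e (nat_lit 393290) (nat_lit 26) .nil))))) (.g (nat_lit 0) (.e (nat_lit 352659) (nat_lit 0) .nil) .nil))) 
(.lf (nat_lit 572213) (.g (nat_lit 722) (.e (nat_lit 483337) (nat_lit 9) (.e (nat_lit 426098) (nat_lit 1) (.e (nat_lit 164402) (nat_lit 256) .nil))) (.g (nat_lit 0) (.e (nat_lit 354039) (nat_lit 0) .nil) .nil))))) (.nd (nat_lit 8) (.nd (nat_lit 9) 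
(.lf (nat_lit 571573) (.g (nat_lit 4940) (.e (nat_lit 475185) (nat_lit 29) (.e (nat_lit 557109) (nat_lit 15) (.e (nat_lit 188433) (nat_lit 20) (.e (nat_lit 3114) (nat_lit 193) (.e (nat_lit 499776) (nat_lit 0) (.e (nat_lit 2797) (nat_lit 180) (.e (nat_lit 303143) (nat_lit 12) .nil))))))) (.g (nat_lit 1) (.e (nat_lit 352403) (nat_lit 0) .nil) .nil))) 
(.lf (nat_lit 572085) (.g (nat_lit 3253) (.e (nat_lit 475211) (nat_lit 41) (.e (nat_lit 712755) (nat_lit 30) (.e (nat_lit 450568) (nat_lit 0) (.e (nat_lit 5599) (nat_lit 310) (.e (nat_lit 163905) (nat_lit 12) (.e (nat_lit 426320) (nat_lit 12) .nil)))))) (.g (nat_lit 1) (.e (nat_lit 353746) (nat_lit 0) .nil) .nil)))) (.nd (nat_lit 9) 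
(.lf (nat_lit 571829) (.g (nat_lit 924) (.e (nat_lit 475199) (nat_lit 40) (.e (nat_lit 704589) (nat_lit 3) (.e (nat_lit 163975) (nat_lit 30) (.e (nat_lit 573492) (nat_lit 15) .nil)))) (.g (nat_lit 0) (.e (nat_lit 352992) (nat_lit 0) .nil) .nil))) 
(.lf (nat_lit 572341) (.g (nat_lit 2251) (.e (nat_lit 483337) (nat_lit 9) (.e (nat_lit 426107) (nat_lit 1) (.e (nat_lit 164403) (nat_lit 256) (.e (nat_lit 57377) (nat_lit 3) (.e (nat_lit 98362) (nat_lit 26) .nil))))) (.g (nat_lit 0) (.e (nat_lit 354387) (nat_lit 0) .nil) .nil)))))) (.nd (nat_lit 7) (.nd (nat_lit 8) (.nd (nat_lit 9) 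
(.lf (nat_lit 571509) (.g (nat_lit 2080) (.e (nat_lit 475185) (nat_lit 29) (.e (nat_lit 557101) (nat_lit 13) (.e (nat_lit 172115) (nat_lit 10) (.e (nat_lit 434244) (nat_lit 28) (.e (nat_lit 573458) (nat_lit 9) (.e (nat_lit 7936) (nat_lit 32) (.e (nat_lit 426312) (nat_lit 12) .nil))))))) (.g (nat_lit 1) (.e (nat_lit 352328) (nat_lit 0) .nil) .nil))) 
(.lf (nat_lit 572021) (.g (nat_lit 2868) (.e (nat_lit 475211) (nat_lit 41) (.e (nat_lit 712745) (nat_lit 27) (.e (nat_lit 426347) (nat_lit 14) (.e (nat_lit 491569) (nat_lit 13) (.e (nat_lit 393295) (nat_lit 26) .nil))))) (.g (nat_lit 1) (.e (nat_lit 353655) (nat_lit 0) .nil) .nil)))) (.nd (nat_lit 9) 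
(.lf (nat_lit 571765) (.g (nat_lit 4301) (.e (nat_lit 475198) (nat_lit 40) (.e (nat_lit 704589) (nat_lit 3) (.e (nat_lit 163979) (nat_lit 30) (.e (nat_lit 573493) (nat_lit 15) (.e (nat_lit 81956) (nat_lit 23) (.e (nat_lit 106240) (nat_lit 32) .nil)))))) (.g (nat_lit 1) (.e (nat_lit 352854) (nat_lit 0) .nil) .nil))) 
(.lf (nat_lit 572277) (.g (nat_lit 1633) (.e (nat_lit 483337) (nat_lit 9) (.e (nat_lit 426100) (nat_lit 1) (.e (nat_lit 164403) (nat_lit 256) (.e (nat_lit 57371) (nat_lit 2) .nil)))) (.g (nat_lit 0) (.e (nat_lit 354114) (nat_lit 0) .nil) .nil))))) (.nd (nat_lit 8) (.nd (nat_lit 9) 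
(.lf (nat_lit 571637) (.g (nat_lit 1148) (.e (nat_lit 475185) (nat_lit 29) (.e (nat_lit 557109) (nat_lit 15) (.e (nat_lit 188457) (nat_lit 25) (.e (nat_lit 245784) (nat_lit 9) .nil)))) (.g (nat_lit 0) (.e (nat_lit 352469) (nat_lit 0) .nil) .nil))) 
(.lf (nat_lit 572149) (.g (nat_lit 1324) (.e (nat_lit 483336) (nat_lit 9) (.e (nat_lit 426100) (nat_lit 1) (.e (nat_lit 164399) (nat_lit 256) (.e (nat_lit 57372) (nat_lit 2) .nil)))) (.g (nat_lit 0) (.e (nat_lit 353909) (nat_lit 0) .nil) .nil)))) (.nd (nat_lit 9) 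
(.lf (nat_lit 571893) (.g (nat_lit 262) (.e (nat_lit 475199) (nat_lit 40) (.e (nat_lit 704595) (nat_lit 5) (.e (nat_lit 180277) (nat_lit 32) .nil))) (.g (nat_lit 0) (.e (nat_lit 353389) (nat_lit 0) .nil) .nil))) 
(.lf (nat_lit 572405) (.g (nat_lit 3639) (.e (nat_lit 483337) (nat_lit 9) (.e (nat_lit 426200) (nat_lit 9) (.e (nat_lit 426436) (nat_lit 18) (.e (nat_lit 98335) (nat_lit 18) (.e (nat_lit 164327) (nat_lit 230) (.e (nat_lit 163944) (nat_lit 19) .nil)))))) (.g (nat_lit 1) (.e (nat_lit 354581) (nat_lit 0) .nil) .nil))))))))) 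
(.nd (nat_lit 4) (.nd (nat_lit 5) (.nd (nat_lit 6) (.nd (nat_lit 7) (.nd (nat_lit 8) 
(.nd (nat_lit 9) 
(.lf (nat_lit 571405) (.g (nat_lit 4186) (.e (nat_lit 475185) (nat_lit 29) (.e (nat_lit 557100) (nat_lit 13) (.e (nat_lit 172113) (nat_lit 10) (.e (nat_lit 434245) (nat_lit 28) (.e (nat_lit 573474) (nat_lit 12) (.e (nat_lit 57567) (nat_lit 52) (.e (nat_lit 753674) (nat_lit 5) (.e (nat_lit 3063) (nat_lit 190) .nil)))))))) (.g (nat_lit 1) (.e (nat_lit 352223) (nat_lit 0) .nil) .nil))) 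
(.lf (nat_lit 571917) (.g (nat_lit 354) (.e (nat_lit 475207) (nat_lit 41) (.e (nat_lit 712750) (nat_lit 29) (.e (nat_lit 450304) (nat_lit 4) .nil))) (.g (nat_lit 0) (.e (nat_lit 353459) (nat_lit 0) .nil) .nil)))) (.nd (nat_lit 9) 
(.lf (nat_lit 571661) (.g (nat_lit 1928) (.e (nat_lit 475196) (nat_lit 40) (.e (nat_lit 704590) (nat_lit 3) (.e (nat_lit 163975) (nat_lit 30) (.e (nat_lit 573491) (nat_lit 15) (.e (nat_lit 81954) (nat_lit 23) .nil))))) (.g (nat_lit 0) (.e (nat_lit 352529) (nat_lit 0) .nil) .nil))) 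
(.lf (nat_lit 572173) (.g (nat_lit 1740) (.e (nat_lit 483336) (nat_lit 9) (.e (nat_lit 426108) (nat_lit 1) (.e (nat_lit 164332) (nat_lit 230) (.e (nat_lit 163869) (nat_lit 2) .nil)))) (.g (nat_lit 0) (.e (nat_lit 353964) (nat_lit 0) .nil) .nil))))) (.nd (nat_lit 8) (.nd (nat_lit 9) 
(.lf (nat_lit 571533) (.g (nat_lit 1086) (.e (nat_lit 475185) (nat_lit 29) (.e (nat_lit 557107) (nat_lit 15) (.e (nat_lit 188440) (nat_lit 20) (.e (nat_lit 3295) (nat_lit 202) .nil)))) (.g (nat_lit 0) (.e (nat_lit 352362) (nat_lit 0) .nil) .nil))) 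
(.lf (nat_lit 572045) (.g (nat_lit 2298) (.e (nat_lit 475211) (nat_lit 41) (.e (nat_lit 712752) (nat_lit 29) (.e (nat_lit 442430) (nat_lit 24) (.e (nat_lit 229665) (nat_lit 240) (.e (nat_lit 2725) (nat_lit 172) (.e (nat_lit 237617) (nat_lit 12) .nil)))))) (.g (nat_lit 1) (.e (nat_lit 353694) (nat_lit 0) .nil) .nil)))) (.nd (nat_lit 9) 
(.lf (nat_lit 571789) (.g (nat_lit 283) (.e (nat_lit 475198) (nat_lit 40) (.e (nat_lit 704595) (nat_lit 5) (.e (nat_lit 188160) (nat_lit 39) .nil))) (.g (nat_lit 0) (.e (nat_lit 352937) (nat_lit 0) .nil) .nil))) 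
(.lf (nat_lit 572301) (.g (nat_lit 3263) (.e (nat_lit 483337) (nat_lit 9) (.e (nat_lit 426107) (nat_lit 1) (.e (nat_lit 164326) (nat_lit 230) (.e (nat_lit 163865) (nat_lit 2) (.e (nat_lit 196654) (nat_lit 11) (.e (nat_lit 16463) (nat_lit 13) .nil)))))) (.g (nat_lit 1) (.e (nat_lit 354186) (nat_lit 0) .nil) .nil)))))) (.nd (nat_lit 7) (.nd (nat_lit 8) (.nd (nat_lit 9) 
(.lf (nat_lit 571469) (.g (nat_lit 2575) (.e (nat_lit 475185) (nat_lit 29) (.e (nat_lit 557101) (nat_lit 13) (.e (nat_lit 172115) (nat_lit 10) (.e (nat_lit 434231) (nat_lit 23) (.e (nat_lit 532490) (nat_lit 0) (.e (nat_lit 6680) (nat_lit 357) (.e (nat_lit 3055) (nat_lit 190) .nil))))))) (.g (nat_lit 1) (.e (nat_lit 352288) (nat_lit 0) .nil) .nil))) 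
(.lf (nat_lit 571981) (.g (nat_lit 213) (.e (nat_lit 475210) (nat_lit 41) (.e (nat_lit 712745) (nat_lit 27) (.e (nat_lit 433920) (nat_lit 0) .nil))) (.g (nat_lit 0) (.e (nat_lit 353566) (nat_lit 0) .nil) .nil)))) (.nd (nat_lit 9) 
(.lf (nat_lit 571725) (.g (nat_lit 3124) (.e (nat_lit 475198) (nat_lit 40) (.e (nat_lit 704589) (nat_lit 3) (.e (nat_lit 163976) (nat_lit 30) (.e (nat_lit 573481) (nat_lit 13) (.e (nat_lit 65604) (nat_lit 9) (.e (nat_lit 336028) (nat_lit 3) (.e (nat_lit 106240) (nat_lit 32) .nil))))))) (.g (nat_lit 1) (.e (nat_lit 352722) (nat_lit 0) .nil) .nil))) 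
(.lf (nat_lit 572237) (.g (nat_lit 1081) (.e (nat_lit 483337) (nat_lit 9) (.e (nat_lit 426100) (nat_lit 1) (.e (nat_lit 164330) (nat_lit 230) .nil))) (.g (nat_lit 0) (.e (nat_lit 354063) (nat_lit 0) .nil) .nil))))) (.nd (nat_lit 8) (.nd (nat_lit 9) 
(.lf (nat_lit 571597) (.g (nat_lit 3375) (.e (nat_lit 475185) (nat_lit 29) (.e (nat_lit 557109) (nat_lit 15) (.e (nat_lit 188449) (nat_lit 22) (.e (nat_lit 196661) (nat_lit 12) (.e (nat_lit 57750) (nat_lit 201) (.e (nat_lit 3065) (nat_lit 190) .nil)))))) (.g (nat_lit 1) (.e (nat_lit 352429) (nat_lit 0) .nil) .nil))) 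
(.lf (nat_lit 572109) (.g (nat_lit 3219) (.e (nat_lit 475214) (nat_lit 42) (.e (nat_lit 720956) (nat_lit 25) (.e (nat_lit 114711) (nat_lit 21) (.e (nat_lit 57681) (nat_lit 155) (.e (nat_lit 122913) (nat_lit 13) (.e (nat_lit 344068) (nat_lit 0) (.e (nat_lit 3065) (nat_lit 190) .nil))))))) (.g (nat_lit 1) (.e (nat_lit 353792) (nat_lit 0) .nil) .nil)))) (.nd (nat_lit 9) 
(.lf (nat_lit 571853) (.g (nat_lit 1964) (.e (nat_lit 475199) (nat_lit 40) (.e (nat_lit 704589) (nat_lit 3) (.e (nat_lit 163978) (nat_lit 30) (.e (nat_lit 573491) (nat_lit 15) .nil)))) (.g (nat_lit 0) (.e (nat_lit 353192) (nat_lit 0) .nil) .nil))) 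
(.lf (nat_lit 572365) (.g (nat_lit 2184) (.e (nat_lit 483337) (nat_lit 9) (.e (nat_lit 426108) (nat_lit 1) (.e (nat_lit 164401) (nat_lit 256) (.e (nat_lit 57377) (nat_lit 3) (.e (nat_lit 98363) (nat_lit 26) (.e (nat_lit 426321) (nat_lit 13) .nil)))))) (.g (nat_lit 1) (.e (nat_lit 354484) (nat_lit 0) .nil) .nil))))))) (.nd (nat_lit 6) (.nd (nat_lit 7) (.nd (nat_lit 8) (.nd (nat_lit 9) 
(.lf (nat_lit 571437) (.g (nat_lit 2872) (.e (nat_lit 475185) (nat_lit 29) (.e (nat_lit 557100) (nat_lit 13) (.e (nat_lit 172120) (nat_lit 12) (.e (nat_lit 475185) (nat_lit 29) (.e (nat_lit 557097) (nat_lit 13) .nil))))) (.g (nat_lit 0) (.e (nat_lit 352255) (nat_lit 0) .nil) .nil))) 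
(.lf (nat_lit 571949) (.g (nat_lit 923) (.e (nat_lit 475208) (nat_lit 41) (.e (nat_lit 712755) (nat_lit 30) (.e (nat_lit 450568) (nat_lit 0) (.e (nat_lit 5598) (nat_lit 310) .nil)))) (.g (nat_lit 0) (.e (nat_lit 353508) (nat_lit 0) .nil) .nil)))) (.nd (nat_lit 9) 
(.lf (nat_lit 571693) (.g (nat_lit 516) (.e (nat_lit 475197) (nat_lit 40) (.e (nat_lit 704590) (nat_lit 3) (.e (nat_lit 163950) (nat_lit 21) .nil))) (.g (nat_lit 0) (.e (nat_lit 352643) (nat_lit 0) .nil) .nil))) 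
(.lf (nat_lit 572205) (.g (nat_lit 3209) (.e (nat_lit 483337) (nat_lit 9) (.e (nat_lit 426098) (nat_lit 1) (.e (nat_lit 164398) (nat_lit 256) (.e (nat_lit 57379) (nat_lit 3) (.e (nat_lit 98363) (nat_lit 26) (.e (nat_lit 426321) (nat_lit 13) .nil)))))) (.g (nat_lit 1) (.e (nat_lit 354031) (nat_lit 0) .nil) .nil))))) (.nd (nat_lit 8) (.nd (nat_lit 9) 
(.lf (nat_lit 571565) (.g (nat_lit 2430) (.e (nat_lit 475185) (nat_lit 29) (.e (nat_lit 557108) (nat_lit 15) (.e (nat_lit 188452) (nat_lit 23) (.e (nat_lit 204815) (nat_lit 17) .nil)))) (.g (nat_lit 0) (.e (nat_lit 352394) (nat_lit 0) .nil) .nil))) 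
(.lf (nat_lit 572077) (.g (nat_lit 3038) (.e (nat_lit 475211) (nat_lit 41) (.e (nat_lit 712755) (nat_lit 30) (.e (nat_lit 450564) (nat_lit 0) (.e (nat_lit 5546) (nat_lit 306) (.e (nat_lit 2619) (nat_lit 164) (.e (nat_lit 172118) (nat_lit 12) .nil)))))) (.g (nat_lit 1) (.e (nat_lit 353737) (nat_lit 0) .nil) .nil)))) (.nd (nat_lit 9) 
(.lf (nat_lit 571821) (.g (nat_lit 4617) (.e (nat_lit 475199) (nat_lit 40) (.e (nat_lit 704589) (nat_lit 3) (.e (nat_lit 163975) (nat_lit 30) (.e (nat_lit 573484) (nat_lit 13) (.e (nat_lit 65610) (nat_lit 10) (.e (nat_lit 344117) (nat_lit 21) (.e (nat_lit 516179) (nat_lit 15) .nil))))))) (.g (nat_lit 1) (.e (nat_lit 352980) (nat_lit 0) .nil) .nil))) 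
(.lf (nat_lit 572333) (.g (nat_lit 1942) (.e (nat_lit 483337) (nat_lit 9) (.e (nat_lit 426107) (nat_lit 1) (.e (nat_lit 164402) (nat_lit 256) (.e (nat_lit 57377) (nat_lit 3) (.e (nat_lit 98357) (nat_lit 26) .nil))))) (.g (nat_lit 0) (.e (nat_lit 354379) (nat_lit 0) .nil) .nil)))))) (.nd (nat_lit 7) (.nd (nat_lit 8) (.nd (nat_lit 9) 
(.lf (nat_lit 571501) (.g (nat_lit 3461) (.e (nat_lit 475185) (nat_lit 29) (.e (nat_lit 557101) (nat_lit 13) (.e (nat_lit 172115) (nat_lit 10) (.e (nat_lit 434244) (nat_lit 28) (.e (nat_lit 573450) (nat_lit 9) (.e (nat_lit 411) (nat_lit 32) (.e (nat_lit 426317) (nat_lit 12) .nil))))))) (.g (nat_lit 1) (.e (nat_lit 352320) (nat_lit 0) .nil) .nil))) 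
(.lf (nat_lit 572013) (.g (nat_lit 445) (.e (nat_lit 475210) (nat_lit 41) (.e (nat_lit 712755) (nat_lit 30) (.e (nat_lit 450563) (nat_lit 0) .nil))) (.g (nat_lit 0) (.e (nat_lit 353632) (nat_lit 0) .nil) .nil)))) (.nd (nat_lit 9) 
(.lf (nat_lit 571757) (.g (nat_lit 1875) (.e (nat_lit 475198) (nat_lit 40) (.e (nat_lit 704589) (nat_lit 3) (.e (nat_lit 163979) (nat_lit 30) (.e (nat_lit 573491) (nat_lit 15) (.e (nat_lit 81947) (nat_lit 20) .nil))))) (.g (nat_lit 0) (.e (nat_lit 352800) (nat_lit 0) .nil) .nil))) 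
(.lf (nat_lit 572269) (.g (nat_lit 2104) (.e (nat_lit 483337) (nat_lit 9) (.e (nat_lit 426100) (nat_lit 1) (.e (nat_lit 164399) (nat_lit 256) (.e (nat_lit 57373) (nat_lit 2) (.e (nat_lit 90167) (nat_lit 13) (.e (nat_lit 172123) (nat_lit 13) .nil)))))) (.g (nat_lit 1) (.e (nat_lit 354106) (nat_lit 0) .nil) .nil))))) (.nd (nat_lit 8) (.nd (nat_lit 9) 
(.lf (nat_lit 571629) (.g (nat_lit 3115) (.e (nat_lit 475185) (nat_lit 29) (.e (nat_lit 557109) (nat_lit 15) (.e (nat_lit 188452) (nat_lit 23) (.e (nat_lit 204827) (nat_lit 17) .nil)))) (.g (nat_lit 0) (.e (nat_lit 352461) (nat_lit 0) .nil) .nil))) 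
(.lf (nat_lit 572141) (.g (nat_lit 1608) (.e (nat_lit 483336) (nat_lit 9) (.e (nat_lit 426100) (nat_lit 1) (.e (nat_lit 164398) (nat_lit 256) (.e (nat_lit 57373) (nat_lit 2) .nil)))) (.g (nat_lit 0) (.e (nat_lit 353901) (nat_lit 0) .nil) .nil)))) (.nd (nat_lit 9) 
(.lf (nat_lit 571885) (.g (nat_lit 3998) (.e (nat_lit 475199) (nat_lit 40) (.e (nat_lit 704590) (nat_lit 3) (.e (nat_lit 163973) (nat_lit 30) (.e (nat_lit 573484) (nat_lit 13) (.e (nat_lit 65610) (nat_lit 10) (.e (nat_lit 344117) (nat_lit 21) (.e (nat_lit 516179) (nat_lit 15) .nil))))))) (.g (nat_lit 1) (.e (nat_lit 353349) (nat_lit 0) .nil) .nil))) 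
(.lf (nat_lit 572397) (.g (nat_lit 3346) (.e (nat_lit 483337) (nat_lit 9) (.e (nat_lit 426189) (nat_lit 9) (.e (nat_lit 426436) (nat_lit 18) (.e (nat_lit 98335) (nat_lit 18) (.e (nat_lit 164327) (nat_lit 230) (.e (nat_lit 163941) (nat_lit 19) .nil)))))) (.g (nat_lit 1) (.e (nat_lit 354542) (nat_lit 0) .nil) .nil)))))))) 
(.nd (nat_lit 5) (.nd (nat_lit 6) (.nd (nat_lit 7) (.nd (nat_lit 8) (.nd (nat_lit 9) 
(.lf (nat_lit 571421) (.g (nat_lit 3064) (.e (nat_lit 475185) (nat_lit 29) (.e (nat_lit 557100) (nat_lit 13) (.e (nat_lit 172113) (nat_lit 10) (.e (nat_lit 434248) (nat_lit 28) (.e (nat_lit 573473) (nat_lit 12) (.e (nat_lit 57348) (nat_lit 0) (.e (nat_lit 6942) (nat_lit 375) (.e (nat_lit 163938) (nat_lit 18) .nil)))))))) (.g (nat_lit 1) (.e (nat_lit 352239) (nat_lit 0) .nil) .nil))) 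
(.lf (nat_lit 571933) (.g (nat_lit 354) (.e (nat_lit 475207) (nat_lit 41) (.e (nat_lit 712755) (nat_lit 30) (.e (nat_lit 450563) (nat_lit 0) .nil))) (.g (nat_lit 0) (.e (nat_lit 353481) (nat_lit 0) .nil) .nil)))) (.nd (nat_lit 9) 
(.lf (nat_lit 571677) (.g (nat_lit 2711) (.e (nat_lit 475197) (nat_lit 40) (.e (nat_lit 704589) (nat_lit 3) (.e (nat_lit 163978) (nat_lit 30) (.e (nat_lit 573485) (nat_lit 13) (.e (nat_lit 65604) (nat_lit 9) (.e (nat_lit 336013) (nat_lit 2) (.e (nat_lit 90134) (nat_lit 9) (.e (nat_lit 3055) (nat_lit 190) .nil)))))))) (.g (nat_lit 1) (.e (nat_lit 352600) (nat_lit 0) .nil) .nil))) 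
(.lf (nat_lit 572189) (.g (nat_lit 2414) (.e (nat_lit 483337) (nat_lit 9) (.e (nat_lit 426098) (nat_lit 1) (.e (nat_lit 164398) (nat_lit 256) (.e (nat_lit 57372) (nat_lit 2) (.e (nat_lit 90169) (nat_lit 13) (.e (nat_lit 172121) (nat_lit 13) .nil)))))) (.g (nat_lit 1) (.e (nat_lit 354015) (nat_lit 0) .nil) .nil))))) (.nd (nat_lit 8) (.nd (nat_lit 9) 
(.lf (nat_lit 571549) (.g (nat_lit 578) (.e (nat_lit 475185) (nat_lit 29) (.e (nat_lit 557107) (nat_lit 15) (.e (nat_lit 188451) (nat_lit 23) .nil))) (.g (nat_lit 0) (.e (nat_lit 352378) (nat_lit 0) .nil) .nil))) 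
(.lf (nat_lit 572061) (.g (nat_lit 1861) (.e (nat_lit 475211) (nat_lit 41) (.e (nat_lit 712753) (nat_lit 30) (.e (nat_lit 450568) (nat_lit 0) (.e (nat_lit 5599) (nat_lit 310) (.e (nat_lit 163911) (nat_lit 12) (.e (nat_lit 426310) (nat_lit 12) .nil)))))) (.g (nat_lit 1) (.e (nat_lit 353710) (nat_lit 0) .nil) .nil)))) (.nd (nat_lit 9) 
(.lf (nat_lit 571805) (.g (nat_lit 1681) (.e (nat_lit 475198) (nat_lit 40) (.e (nat_lit 704599) (nat_lit 6) (.e (nat_lit 188453) (nat_lit 24) (.e (nat_lit 229678) (nat_lit 244) (.e (nat_lit 163915) (nat_lit 12) .nil))))) (.g (nat_lit 0) (.e (nat_lit 352957) (nat_lit 0) .nil) .nil))) 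
(.lf (nat_lit 572317) (.g (nat_lit 2643) (.e (nat_lit 483337) (nat_lit 9) (.e (nat_lit 426107) (nat_lit 1) (.e (nat_lit 164327) (nat_lit 230) (.e (nat_lit 163868) (nat_lit 2) (.e (nat_lit 196653) (nat_lit 11) .nil))))) (.g (nat_lit 0) (.e (nat_lit 354333) (nat_lit 0) .nil) .nil)))))) (.nd (nat_lit 7) (.nd (nat_lit 8) (.nd (nat_lit 9) 
(.lf (nat_lit 571485) (.g (nat_lit 776) (.e (nat_lit 475185) (nat_lit 29) (.e (nat_lit 557101) (nat_lit 13) (.e (nat_lit 172115) (nat_lit 10) (.e (nat_lit 434244) (nat_lit 28) .nil)))) (.g (nat_lit 0) (.e (nat_lit 352304) (nat_lit 0) .nil) .nil))) 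
(.lf (nat_lit 571997) (.g (nat_lit 2206) (.e (nat_lit 475210) (nat_lit 41) (.e (nat_lit 712752) (nat_lit 29) (.e (nat_lit 442421) (nat_lit 21) (.e (nat_lit 164401) (nat_lit 256) (.e (nat_lit 57449) (nat_lit 20) .nil))))) (.g (nat_lit 0) (.e (nat_lit 353610) (nat_lit 0) .nil) .nil)))) (.nd (nat_lit 9) 
(.lf (nat_lit 571741) (.g (nat_lit 2635) (.e (nat_lit 475198) (nat_lit 40) (.e (nat_lit 704589) (nat_lit 3) (.e (nat_lit 163978) (nat_lit 30) (.e (nat_lit 573491) (nat_lit 15) (.e (nat_lit 89856) (nat_lit 20) .nil))))) (.g (nat_lit 0) (.e (nat_lit 352780) (nat_lit 0) .nil) .nil))) 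
(.lf (nat_lit 572253) (.g (nat_lit 3708) (.e (nat_lit 483337) (nat_lit 9) (.e (nat_lit 426100) (nat_lit 1) (.e (nat_lit 164398) (nat_lit 256) (.e (nat_lit 57373) (nat_lit 2) (.e (nat_lit 90170) (nat_lit 13) (.e (nat_lit 172123) (nat_lit 13) .nil)))))) (.g (nat_lit 1) (.e (nat_lit 354090) (nat_lit 0) .nil) .nil))))) (.nd (nat_lit 8) (.nd (nat_lit 9) 
(.lf (nat_lit 571613) (.g (nat_lit 4977) (.e (nat_lit 475185) (nat_lit 29) (.e (nat_lit 557109) (nat_lit 15) (.e (nat_lit 188449) (nat_lit 22) (.e (nat_lit 196694) (nat_lit 18) .nil)))) (.g (nat_lit 0) (.e (nat_lit 352445) (nat_lit 0) .nil) .nil))) 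
(.lf (nat_lit 572125) (.g (nat_lit 333) (.e (nat_lit 483333) (nat_lit 0) (.e (nat_lit 7096) (nat_lit 380) (.e (nat_lit 164368) (nat_lit 247) .nil))) (.g (nat_lit 0) (.e (nat_lit 353835) (nat_lit 0) .nil) .nil)))) (.nd (nat_lit 9) 
(.lf (nat_lit 571869) (.g (nat_lit 2507) (.e (nat_lit 475199) (nat_lit 40) (.e (nat_lit 704589) (nat_lit 3) (.e (nat_lit 163979) (nat_lit 30) (.e (nat_lit 573491) (nat_lit 15) (.e (nat_lit 81928) (nat_lit 20) (.e (nat_lit 1788) (nat_lit 119) (.e (nat_lit 516181) (nat_lit 15) .nil))))))) (.g (nat_lit 1) (.e (nat_lit 353218) (nat_lit 0) .nil) .nil))) 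
(.lf (nat_lit 572381) (.g (nat_lit 3533) (.e (nat_lit 483337) (nat_lit 9) (.e (nat_lit 426172) (nat_lit 7) (.e (nat_lit 409602) (nat_lit 0) (.e (nat_lit 577) (nat_lit 43) (.e (nat_lit 516106) (nat_lit 0) (.e (nat_lit 3459) (nat_lit 216) (.e (nat_lit 688139) (nat_lit 5) (.e (nat_lit 3085) (nat_lit 191) .nil)))))))) (.g (nat_lit 1) (.e (nat_lit 354503) (nat_lit 0) .nil) .nil))))))) 
(.nd (nat_lit 6) (.nd (nat_lit 7) (.nd (nat_lit 8) (.nd (nat_lit 9) 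
(.lf (nat_lit 571453) (.g (nat_lit 3482) (.e (nat_lit 475185) (nat_lit 29) (.e (nat_lit 557101) (nat_lit 13) (.e (nat_lit 172097) (nat_lit 9) (.e (nat_lit 426140) (nat_lit 3) (.e (nat_lit 204821) (nat_lit 17) (.e (nat_lit 6680) (nat_lit 357) (.e (nat_lit 3064) (nat_lit 190) .nil))))))) (.g (nat_lit 1) (.e (nat_lit 352271) (nat_lit 0) .nil) .nil))) 
(.lf (nat_lit 571965) (.g (nat_lit 1274) (.e (nat_lit 475209) (nat_lit 41) (.e (nat_lit 712752) (nat_lit 29) (.e (nat_lit 442430) (nat_lit 24) (.e (nat_lit 229677) (nat_lit 244) .nil)))) (.g (nat_lit 0) (.e (nat_lit 353536) (nat_lit 0) .nil) .nil)))) (.nd (nat_lit 9) 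
(.lf (nat_lit 571709) (.g (nat_lit 3290) (.e (nat_lit 475198) (nat_lit 40) (.e (nat_lit 704589) (nat_lit 3) (.e (nat_lit 163975) (nat_lit 30) (.e (nat_lit 573481) (nat_lit 13) (.e (nat_lit 65604) (nat_lit 9) (.e (nat_lit 336013) (nat_lit 2) (.e (nat_lit 90134) (nat_lit 9) (.e (nat_lit 3055) (nat_lit 190) .nil)))))))) (.g (nat_lit 1) (.e (nat_lit 352669) (nat_lit 0) .nil) .nil))) 
(.lf (nat_lit 572221) (.g (nat_lit 4005) (.e (nat_lit 483337) (nat_lit 9) (.e (nat_lit 426098) (nat_lit 1) (.e (nat_lit 164403) (nat_lit 256) (.e (nat_lit 57373) (nat_lit 2) (.e (nat_lit 90170) (nat_lit 13) (.e (nat_lit 172121) (nat_lit 13) .nil)))))) (.g (nat_lit 1) (.e (nat_lit 354047) (nat_lit 0) .nil) .nil))))) (.nd (nat_lit 8) (.nd (nat_lit 9) 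
(.lf (nat_lit 571581) (.g (nat_lit 3664) (.e (nat_lit 475185) (nat_lit 29) (.e (nat_lit 557109) (nat_lit 15) (.e (nat_lit 188434) (nat_lit 20) (.e (nat_lit 3271) (nat_lit 199) (.e (nat_lit 548898) (nat_lit 14) (.e (nat_lit 2884) (nat_lit 184) (.e (nat_lit 426317) (nat_lit 12) .nil))))))) (.g (nat_lit 1) (.e (nat_lit 352412) (nat_lit 0) .nil) .nil))) 
(.lf (nat_lit 572093) (.g (nat_lit 2217) (.e (nat_lit 475211) (nat_lit 41) (.e (nat_lit 712755) (nat_lit 30) (.e (nat_lit 450569) (nat_lit 0) (.e (nat_lit 5599) (nat_lit 310) (.e (nat_lit 163911) (nat_lit 12) (.e (nat_lit 426310) (nat_lit 12) .nil)))))) (.g (nat_lit 1) (.e (nat_lit 353754) (nat_lit 0) .nil) .nil)))) (.nd (nat_lit 9) 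
(.lf (nat_lit 571837) (.g (nat_lit 1524) (.e (nat_lit 475199) (nat_lit 40) (.e (nat_lit 704589) (nat_lit 3) (.e (nat_lit 163976) (nat_lit 30) (.e (nat_lit 573491) (nat_lit 15) (.e (nat_lit 81942) (nat_lit 20) .nil))))) (.g (nat_lit 0) (.e (nat_lit 353098) (nat_lit 0) .nil) .nil))) 
(.lf (nat_lit 572349) (.g (nat_lit 4156) (.e (nat_lit 483337) (nat_lit 9) (.e (nat_lit 426108) (nat_lit 1) (.e (nat_lit 164330) (nat_lit 230) (.e (nat_lit 163869) (nat_lit 2) (.e (nat_lit 196654) (nat_lit 11) (.e (nat_lit 16463) (nat_lit 13) .nil)))))) (.g (nat_lit 1) (.e (nat_lit 354425) (nat_lit 0) .nil) .nil)))))) (.nd (nat_lit 7) (.nd (nat_lit 8) (.nd (nat_lit 9) 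
(.lf (nat_lit 571517) (.g (nat_lit 3454) (.e (nat_lit 475185) (nat_lit 29) (.e (nat_lit 557101) (nat_lit 13) (.e (nat_lit 172126) (nat_lit 14) (.e (nat_lit 491537) (nat_lit 2) (.e (nat_lit 90170) (nat_lit 13) (.e (nat_lit 172118) (nat_lit 12) .nil)))))) (.g (nat_lit 1) (.e (nat_lit 352336) (nat_lit 0) .nil) .nil))) 
(.lf (nat_lit 572029) (.g (nat_lit 2461) (.e (nat_lit 475211) (nat_lit 41) (.e (nat_lit 712752) (nat_lit 29) (.e (nat_lit 442374) (nat_lit 0) (.e (nat_lit 2059) (nat_lit 142) (.e (nat_lit 704593) (nat_lit 4) (.e (nat_lit 172119) (nat_lit 12) .nil)))))) (.g (nat_lit 1) (.e (nat_lit 353672) (nat_lit 0) .nil) .nil)))) (.nd (nat_lit 9) 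
(.lf (nat_lit 571773) (.g (nat_lit 4757) (.e (nat_lit 475198) (nat_lit 40) (.e (nat_lit 704590) (nat_lit 3) (.e (nat_lit 163975) (nat_lit 30) (.e (nat_lit 573481) (nat_lit 13) (.e (nat_lit 65619) (nat_lit 10) (.e (nat_lit 344117) (nat_lit 21) (.e (nat_lit 516178) (nat_lit 15) .nil))))))) (.g (nat_lit 1) (.e (nat_lit 352881) (nat_lit 0) .nil) .nil))) 
(.lf (nat_lit 572285) (.g (nat_lit 2892) (.e (nat_lit 483337) (nat_lit 9) (.e (nat_lit 426100) (nat_lit 1) (.e (nat_lit 164403) (nat_lit 256) (.e (nat_lit 57377) (nat_lit 3) (.e (nat_lit 98362) (nat_lit 26) .nil))))) (.g (nat_lit 0) (.e (nat_lit 354122) (nat_lit 0) .nil) .nil))))) (.nd (nat_lit 8) (.nd (nat_lit 9) 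
(.lf (nat_lit 571645) (.g (nat_lit 3064) (.e (nat_lit 483072) (nat_lit 29) (.e (nat_lit 557109) (nat_lit 15) (.e (nat_lit 188450) (nat_lit 23) (.e (nat_lit 204883) (nat_lit 33) (.e (nat_lit 401454) (nat_lit 12) .nil))))) (.g (nat_lit 0) (.e (nat_lit 352484) (nat_lit 0) .nil) .nil))) 
(.lf (nat_lit 572157) (.g (nat_lit 2802) (.e (nat_lit 483336) (nat_lit 9) (.e (nat_lit 426100) (nat_lit 1) (.e (nat_lit 164403) (nat_lit 256) (.e (nat_lit 57378) (nat_lit 3) (.e (nat_lit 98363) (nat_lit 26) .nil))))) (.g (nat_lit 0) (.e (nat_lit 353917) (nat_lit 0) .nil) .nil)))) (.nd (nat_lit 9) 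
(.lf (nat_lit 571901) (.g (nat_lit 2397) (.e (nat_lit 475199) (nat_lit 40) (.e (nat_lit 704598) (nat_lit 6) (.e (nat_lit 188453) (nat_lit 24) (.e (nat_lit 229665) (nat_lit 240) (.e (nat_lit 2725) (nat_lit 172) (.e (nat_lit 237615) (nat_lit 12) .nil)))))) (.g (nat_lit 1) (.e (nat_lit 353415) (nat_lit 0) .nil) .nil))) 
(.lf (nat_lit 572413) (.g (nat_lit 2275) (.e (nat_lit 483337) (nat_lit 9) (.e (nat_lit 426306) (nat_lit 12) (.e (nat_lit 475179) (nat_lit 24) (.e (nat_lit 516117) (nat_lit 1) (.e (nat_lit 164330) (nat_lit 230) (.e (nat_lit 163941) (nat_lit 19) .nil)))))) (.g (nat_lit 1) (.e (nat_lit 354622) (nat_lit 0) .nil) .nil))))))))))) 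
(.nd (nat_lit 2) (.nd (nat_lit 3) (.nd (nat_lit 4) (.nd (nat_lit 5) (.nd (nat_lit 6) 
(.nd (nat_lit 7) (.nd (nat_lit 8) (.nd (nat_lit 9) 
(.lf (nat_lit 571395) (.g (nat_lit 4171) (.e (nat_lit 475185) (nat_lit 29) (.e (nat_lit 557100) (nat_lit 13) (.e (nat_lit 172113) (nat_lit 10) (.e (nat_lit 434245) (nat_lit 28) (.e (nat_lit 573474) (nat_lit 12) (.e (nat_lit 57347) (nat_lit 0) (.e (nat_lit 6943) (nat_lit 375) (.e (nat_lit 163938) (nat_lit 18) .nil)))))))) (.g (nat_lit 1) (.e (nat_lit 352213) (nat_lit 0) .nil) .nil))) 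
(.lf (nat_lit 571907) (.g (nat_lit 1820) (.e (nat_lit 475199) (nat_lit 40) (.e (nat_lit 704598) (nat_lit 6) (.e (nat_lit 188455) (nat_lit 24) (.e (nat_lit 229665) (nat_lit 240) (.e (nat_lit 2725) (nat_lit 172) (.e (nat_lit 237617) (nat_lit 12) .nil)))))) (.g (nat_lit 1) (.e (nat_lit 353422) (nat_lit 0) .nil) .nil)))) (.nd (nat_lit 9) 
(.lf (nat_lit 571651) (.g (nat_lit 3920) (.e (nat_lit 475196) (nat_lit 40) (.e (nat_lit 704589) (nat_lit 3) (.e (nat_lit 163975) (nat_lit 30) (.e (nat_lit 573492) (nat_lit 15) (.e (nat_lit 81956) (nat_lit 23) (.e (nat_lit 98385) (nat_lit 32) .nil)))))) (.g (nat_lit 1) (.e (nat_lit 352501) (nat_lit 0) .nil) .nil))) 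
(.lf (nat_lit 572163) (.g (nat_lit 2810) (.e (nat_lit 483336) (nat_lit 9) (.e (nat_lit 426107) (nat_lit 1) (.e (nat_lit 164327) (nat_lit 230) (.e (nat_lit 163868) (nat_lit 2) (.e (nat_lit 196656) (nat_lit 11) (.e (nat_lit 16466) (nat_lit 13) .nil)))))) (.g (nat_lit 1) (.e (nat_lit 353933) (nat_lit 0) .nil) .nil))))) (.nd (nat_lit 8) (.nd (nat_lit 9) 
(.lf (nat_lit 571523) (.g (nat_lit 3284) (.e (nat_lit 475185) (nat_lit 29) (.e (nat_lit 557107) (nat_lit 15) (.e (nat_lit 188424) (nat_lit 20) (.e (nat_lit 3114) (nat_lit 193) (.e (nat_lit 499776) (nat_lit 0) (.e (nat_lit 2797) (nat_lit 180) (.e (nat_lit 303143) (nat_lit 12) .nil))))))) (.g (nat_lit 1) (.e (nat_lit 352352) (nat_lit 0) .nil) .nil))) 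
(.lf (nat_lit 572035) (.g (nat_lit 3191) (.e (nat_lit 475211) (nat_lit 41) (.e (nat_lit 712752) (nat_lit 29) (.e (nat_lit 442421) (nat_lit 21) (.e (nat_lit 164348) (nat_lit 240) (.e (nat_lit 2628) (nat_lit 164) (.e (nat_lit 172120) (nat_lit 12) .nil)))))) (.g (nat_lit 1) (.e (nat_lit 353684) (nat_lit 0) .nil) .nil)))) (.nd (nat_lit 9) 
(.lf (nat_lit 571779) (.g (nat_lit 2960) (.e (nat_lit 475198) (nat_lit 40) (.e (nat_lit 704590) (nat_lit 3) (.e (nat_lit 163975) (nat_lit 30) (.e (nat_lit 573492) (nat_lit 15) (.e (nat_lit 81954) (nat_lit 23) (.e (nat_lit 98386) (nat_lit 32) .nil)))))) (.g (nat_lit 1) (.e (nat_lit 352899) (nat_lit 0) .nil) .nil))) 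
(.lf (nat_lit 572291) (.g (nat_lit 2343) (.e (nat_lit 483337) (nat_lit 9) (.e (nat_lit 426105) (nat_lit 1) (.e (nat_lit 164403) (nat_lit 256) (.e (nat_lit 57373) (nat_lit 2) (.e (nat_lit 90170) (nat_lit 13) (.e (nat_lit 172121) (nat_lit 13) .nil)))))) (.g (nat_lit 1) (.e (nat_lit 354129) (nat_lit 0) .nil) .nil)))))) (.nd (nat_lit 7) (.nd (nat_lit 8) (.nd (nat_lit 9) 
(.lf (nat_lit 571459) (.g (nat_lit 3283) (.e (nat_lit 475185) (nat_lit 29) (.e (nat_lit 557101) (nat_lit 13) (.e (nat_lit 172115) (nat_lit 10) (.e (nat_lit 434231) (nat_lit 23) (.e (nat_lit 532481) (nat_lit 0) (.e (nat_lit 6637) (nat_lit 357) (.e (nat_lit 3063) (nat_lit 190) .nil))))))) (.g (nat_lit 1) (.e (nat_lit 352278) (nat_lit 0) .nil) .nil))) 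
(.lf (nat_lit 571971) (.g (nat_lit 2108) (.e (nat_lit 475209) (nat_lit 41) (.e (nat_lit 712755) (nat_lit 30) (.e (nat_lit 450562) (nat_lit 0) (.e (nat_lit 5954) (nat_lit 322) (.e (nat_lit 57449) (nat_lit 20) .nil))))) (.g (nat_lit 0) (.e (nat_lit 353543) (nat_lit 0) .nil) .nil)))) (.nd (nat_lit 9) 
(.lf (nat_lit 571715) (.g (nat_lit 1885) (.e (nat_lit 475198) (nat_lit 40) (.e (nat_lit 704589) (nat_lit 3) (.e (nat_lit 163975) (nat_lit 30) (.e (nat_lit 573491) (nat_lit 15) (.e (nat_lit 81943) (nat_lit 20) (.e (nat_lit 1798) (nat_lit 119) (.e (nat_lit 516182) (nat_lit 15) .nil))))))) (.g (nat_lit 1) (.e (nat_lit 352677) (nat_lit 0) .nil) .nil))) 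
(.lf (nat_lit 572227) (.g (nat_lit 4156) (.e (nat_lit 483337) (nat_lit 9) (.e (nat_lit 426098) (nat_lit 1) (.e (nat_lit 164403) (nat_lit 256) (.e (nat_lit 57378) (nat_lit 3) (.e (nat_lit 98365) (nat_lit 26) (.e (nat_lit 426325) (nat_lit 13) .nil)))))) (.g (nat_lit 1) (.e (nat_lit 354053) (nat_lit 0) .nil) .nil))))) (.nd (nat_lit 8) (.nd (nat_lit 9) 
(.lf (nat_lit 571587) (.g (nat_lit 2179) (.e (nat_lit 475185) (nat_lit 29) (.e (nat_lit 557109) (nat_lit 15) (.e (nat_lit 188447) (nat_lit 22) (.e (nat_lit 196688) (nat_lit 18) .nil)))) (.g (nat_lit 0) (.e (nat_lit 352419) (nat_lit 0) .nil) .nil))) 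
(.lf (nat_lit 572099) (.g (nat_lit 2910) (.e (nat_lit 475211) (nat_lit 41) (.e (nat_lit 712755) (nat_lit 30) (.e (nat_lit 450597) (nat_lit 17) (.e (nat_lit 663589) (nat_lit 14) (.e (nat_lit 2804) (nat_lit 180) (.e (nat_lit 303143) (nat_lit 12) .nil)))))) (.g (nat_lit 1) (.e (nat_lit 353761) (nat_lit 0) .nil) .nil)))) (.nd (nat_lit 9) 
(.lf (nat_lit 571843) (.g (nat_lit 3529) (.e (nat_lit 475199) (nat_lit 40) (.e (nat_lit 704589) (nat_lit 3) (.e (nat_lit 163976) (nat_lit 30) (.e (nat_lit 573492) (nat_lit 15) (.e (nat_lit 81956) (nat_lit 23) (.e (nat_lit 106240) (nat_lit 32) .nil)))))) (.g (nat_lit 1) (.e (nat_lit 353167) (nat_lit 0) .nil) .nil))) 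
(.lf (nat_lit 572355) (.g (nat_lit 2489) (.e (nat_lit 483337) (nat_lit 9) (.e (nat_lit 426108) (nat_lit 1) (.e (nat_lit 164332) (nat_lit 230) (.e (nat_lit 163867) (nat_lit 2) (.e (nat_lit 196653) (nat_lit 11) (.e (nat_lit 16463) (nat_lit 13) .nil)))))) (.g (nat_lit 1) (.e (nat_lit 354451) (nat_lit 0) .nil) .nil))))))) (.nd (nat_lit 6) (.nd (nat_lit 7) (.nd (nat_lit 8) (.nd (nat_lit 9) 
(.lf (nat_lit 571427) (.g (nat_lit 4026) (.e (nat_lit 475185) (nat_lit 29) (.e (nat_lit 557100) (nat_lit 13) (.e (nat_lit 172113) (nat_lit 10) (.e (nat_lit 434248) (nat_lit 28) (.e (nat_lit 573475) (nat_lit 12) (.e (nat_lit 57347) (nat_lit 0) (.e (nat_lit 6940) (nat_lit 375) (.e (nat_lit 163938) (nat_lit 18) .nil)))))))) (.g (nat_lit 1) (.e (nat_lit 352245) (nat_lit 0) .nil) .nil))) 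
(.lf (nat_lit 571939) (.g (nat_lit 1009) (.e (nat_lit 475207) (nat_lit 41) (.e (nat_lit 712755) (nat_lit 30) (.e (nat_lit 450595) (nat_lit 17) (.e (nat_lit 663589) (nat_lit 14) .nil)))) (.g (nat_lit 0) (.e (nat_lit 353492) (nat_lit 0) .nil) .nil)))) (.nd (nat_lit 9) 
(.lf (nat_lit 571683) (.g (nat_lit 3917) (.e (nat_lit 475197) (nat_lit 40) (.e (nat_lit 704589) (nat_lit 3) (.e (nat_lit 163979) (nat_lit 30) (.e (nat_lit 573482) (nat_lit 13) (.e (nat_lit 65619) (nat_lit 10) (.e (nat_lit 344117) (nat_lit 21) (.e (nat_lit 516178) (nat_lit 15) .nil))))))) (.g (nat_lit 1) (.e (nat_lit 352608) (nat_lit 0) .nil) .nil))) 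
(.lf (nat_lit 572195) (.g (nat_lit 2206) (.e (nat_lit 483337) (nat_lit 9) (.e (nat_lit 426098) (nat_lit 1) (.e (nat_lit 164398) (nat_lit 256) (.e (nat_lit 57375) (nat_lit 2) (.e (nat_lit 90167) (nat_lit 13) (.e (nat_lit 172123) (nat_lit 13) .nil)))))) (.g (nat_lit 1) (.e (nat_lit 354021) (nat_lit 0) .nil) .nil))))) (.nd (nat_lit 8) (.nd (nat_lit 9) 
(.lf (nat_lit 571555) (.g (nat_lit 1233) (.e (nat_lit 475185) (nat_lit 29) (.e (nat_lit 557107) (nat_lit 15) (.e (nat_lit 188453) (nat_lit 24) (.e (nat_lit 237312) (nat_lit 141) .nil)))) (.g (nat_lit 0) (.e (nat_lit 352384) (nat_lit 0) .nil) .nil))) 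
(.lf (nat_lit 572067) (.g (nat_lit 293) (.e (nat_lit 475211) (nat_lit 41) (.e (nat_lit 712753) (nat_lit 30) (.e (nat_lit 458496) (nat_lit 0) .nil))) (.g (nat_lit 0) (.e (nat_lit 353716) (nat_lit 0) .nil) .nil)))) (.nd (nat_lit 9) 
(.lf (nat_lit 571811) (.g (nat_lit 3089) (.e (nat_lit 475198) (nat_lit 40) (.e (nat_lit 704599) (nat_lit 6) (.e (nat_lit 188455) (nat_lit 24) (.e (nat_lit 229678) (nat_lit 244) (.e (nat_lit 163913) (nat_lit 12) (.e (nat_lit 426318) (nat_lit 12) .nil)))))) (.g (nat_lit 1) (.e (nat_lit 352964) (nat_lit 0) .nil) .nil))) 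
(.lf (nat_lit 572323) (.g (nat_lit 3575) (.e (nat_lit 483337) (nat_lit 9) (.e (nat_lit 426107) (nat_lit 1) (.e (nat_lit 164331) (nat_lit 230) (.e (nat_lit 163867) (nat_lit 2) (.e (nat_lit 196654) (nat_lit 11) (.e (nat_lit 16463) (nat_lit 13) .nil)))))) (.g (nat_lit 1) (.e (nat_lit 354363) (nat_lit 0) .nil) .nil)))))) (.nd (nat_lit 7) (.nd (nat_lit 8) (.nd (nat_lit 9) 
(.lf (nat_lit 571491) (.g (nat_lit 2210) (.e (nat_lit 475185) (nat_lit 29) (.e (nat_lit 557101) (nat_lit 13) (.e (nat_lit 172115) (nat_lit 10) (.e (nat_lit 434244) (nat_lit 28) (.e (nat_lit 573449) (nat_lit 9) (.e (nat_lit 7936) (nat_lit 32) (.e (nat_lit 426317) (nat_lit 12) .nil))))))) (.g (nat_lit 1) (.e (nat_lit 352310) (nat_lit 0) .nil) .nil))) 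
(.lf (nat_lit 572003) (.g (nat_lit 2109) (.e (nat_lit 475210) (nat_lit 41) (.e (nat_lit 712752) (nat_lit 29) (.e (nat_lit 442430) (nat_lit 24) (.e (nat_lit 229678) (nat_lit 244) (.e (nat_lit 163915) (nat_lit 12) .nil))))) (.g (nat_lit 0) (.e (nat_lit 353616) (nat_lit 0) .nil) .nil)))) (.nd (nat_lit 9) 
(.lf (nat_lit 571747) (.g (nat_lit 1954) (.e (nat_lit 475198) (nat_lit 40) (.e (nat_lit 704589) (nat_lit 3) (.e (nat_lit 163979) (nat_lit 30) (.e (nat_lit 573482) (nat_lit 13) (.e (nat_lit 65609) (nat_lit 10) .nil))))) (.g (nat_lit 0) (.e (nat_lit 352789) (nat_lit 0) .nil) .nil))) 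
(.lf (nat_lit 572259) (.g (nat_lit 2367) (.e (nat_lit 483337) (nat_lit 9) (.e (nat_lit 426100) (nat_lit 1) (.e (nat_lit 164398) (nat_lit 256) (.e (nat_lit 57378) (nat_lit 3) (.e (nat_lit 98357) (nat_lit 26) .nil))))) (.g (nat_lit 0) (.e (nat_lit 354096) (nat_lit 0) .nil) .nil))))) (.nd (nat_lit 8) (.nd (nat_lit 9) 
(.lf (nat_lit 571619) (.g (nat_lit 1763) (.e (nat_lit 475185) (nat_lit 29) (.e (nat_lit 557109) (nat_lit 15) (.e (nat_lit 188452) (nat_lit 23) (.e (nat_lit 204814) (nat_lit 17) .nil)))) (.g (nat_lit 0) (.e (nat_lit 352451) (nat_lit 0) .nil) .nil))) 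
(.lf (nat_lit 572131) (.g (nat_lit 1509) (.e (nat_lit 483336) (nat_lit 9) (.e (nat_lit 426098) (nat_lit 1) (.e (nat_lit 164398) (nat_lit 256) (.e (nat_lit 57379) (nat_lit 3) .nil)))) (.g (nat_lit 0) (.e (nat_lit 353883) (nat_lit 0) .nil) .nil)))) (.nd (nat_lit 9) 
(.lf (nat_lit 571875) (.g (nat_lit 2193) (.e (nat_lit 475199) (nat_lit 40) (.e (nat_lit 704589) (nat_lit 3) (.e (nat_lit 163979) (nat_lit 30) (.e (nat_lit 573491) (nat_lit 15) (.e (nat_lit 81943) (nat_lit 20) (.e (nat_lit 1801) (nat_lit 119) (.e (nat_lit 516182) (nat_lit 15) .nil))))))) (.g (nat_lit 1) (.e (nat_lit 353225) (nat_lit 0) .nil) .nil))) 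
(.lf (nat_lit 572387) (.g (nat_lit 3878) (.e (nat_lit 483337) (nat_lit 9) (.e (nat_lit 426187) (nat_lit 9) (.e (nat_lit 426436) (nat_lit 18) (.e (nat_lit 98335) (nat_lit 18) (.e (nat_lit 164327) (nat_lit 230) (.e (nat_lit 163944) (nat_lit 19) .nil)))))) (.g (nat_lit 1) (.e (nat_lit 354517) (nat_lit 0) .nil) .nil)))))))) 
(.nd (nat_lit 5) (.nd (nat_lit 6) (.nd (nat_lit 7) (.nd (nat_lit 8) (.nd (nat_lit 9) 
(.lf (nat_lit 571411) (.g (nat_lit 3261) (.e (nat_lit 475185) (nat_lit 29) (.e (nat_lit 557100) (nat_lit 13) (.e (nat_lit 172113) (nat_lit 10) (.e (nat_lit 434247) (nat_lit 28) (.e (nat_lit 573469) (nat_lit 11) (.e (nat_lit 16458) (nat_lit 12) .nil)))))) (.g (nat_lit 1) (.e (nat_lit 352229) (nat_lit 0) .nil) .nil))) 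
(.lf (nat_lit 571923) (.g (nat_lit 1788) (.e (nat_lit 475207) (nat_lit 41) (.e (nat_lit 712752) (nat_lit 29) (.e (nat_lit 442430) (nat_lit 24) (.e (nat_lit 229680) (nat_lit 244) (.e (nat_lit 163915) (nat_lit 12) .nil))))) (.g (nat_lit 0) (.e (nat_lit 353469) (nat_lit 0) .nil) .nil)))) (.nd (nat_lit 9) 
(.lf (nat_lit 571667) (.g (nat_lit 1548) (.e (nat_lit 475197) (nat_lit 40) (.e (nat_lit 704589) (nat_lit 3) (.e (nat_lit 163975) (nat_lit 30) (.e (nat_lit 573481) (nat_lit 13) (.e (nat_lit 65613) (nat_lit 10) (.e (nat_lit 344119) (nat_lit 21) (.e (nat_lit 516182) (nat_lit 15) .nil))))))) (.g (nat_lit 1) (.e (nat_lit 352544) (nat_lit 0) .nil) .nil))) 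
(.lf (nat_lit 572179) (.g (nat_lit 2893) (.e (nat_lit 483336) (nat_lit 9) (.e (nat_lit 426198) (nat_lit 9) (.e (nat_lit 426436) (nat_lit 18) (.e (nat_lit 98335) (nat_lit 18) (.e (nat_lit 164329) (nat_lit 230) (.e (nat_lit 163941) (nat_lit 19) .nil)))))) (.g (nat_lit 1) (.e (nat_lit 353980) (nat_lit 0) .nil) .nil))))) (.nd (nat_lit 8) (.nd (nat_lit 9) 
(.lf (nat_lit 571539) (.g (nat_lit 2572) (.e (nat_lit 475185) (nat_lit 29) (.e (nat_lit 557107) (nat_lit 15) (.e (nat_lit 188450) (nat_lit 23) (.e (nat_lit 204815) (nat_lit 17) (.e (nat_lit 6619) (nat_lit 357) (.e (nat_lit 3071) (nat_lit 190) .nil)))))) (.g (nat_lit 1) (.e (nat_lit 352368) (nat_lit 0) .nil) .nil))) 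
(.lf (nat_lit 572051) (.g (nat_lit 4130) (.e (nat_lit 475211) (nat_lit 41) (.e (nat_lit 712753) (nat_lit 30) (.e (nat_lit 450561) (nat_lit 0) (.e (nat_lit 5537) (nat_lit 306) (.e (nat_lit 2628) (nat_lit 164) (.e (nat_lit 172120) (nat_lit 12) .nil)))))) (.g (nat_lit 1) (.e (nat_lit 353700) (nat_lit 0) .nil) .nil)))) (.nd (nat_lit 9) 
(.lf (nat_lit 571795) (.g (nat_lit 2616) (.e (nat_lit 475198) (nat_lit 40) (.e (nat_lit 704598) (nat_lit 6) (.e (nat_lit 188453) (nat_lit 24) (.e (nat_lit 229665) (nat_lit 240) (.e (nat_lit 2630) (nat_lit 164) (.e (nat_lit 172118) (nat_lit 12) .nil)))))) (.g (nat_lit 1) (.e (nat_lit 352946) (nat_lit 0) .nil) .nil))) 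
(.lf (nat_lit 572307) (.g (nat_lit 3823) (.e (nat_lit 483337) (nat_lit 9) (.e (nat_lit 426107) (nat_lit 1) (.e (nat_lit 164326) (nat_lit 230) (.e (nat_lit 163870) (nat_lit 2) (.e (nat_lit 196654) (nat_lit 11) (.e (nat_lit 16466) (nat_lit 13) .nil)))))) (.g (nat_lit 1) (.e (nat_lit 354260) (nat_lit 0) .nil) .nil)))))) (.nd (nat_lit 7) (.nd (nat_lit 8) (.nd (nat_lit 9) 
(.lf (nat_lit 571475) (.g (nat_lit 3049) (.e (nat_lit 475185) (nat_lit 29) (.e (nat_lit 557101) (nat_lit 13) (.e (nat_lit 172115) (nat_lit 10) (.e (nat_lit 434231) (nat_lit 23) (.e (nat_lit 532569) (nat_lit 16) (.e (nat_lit 409344) (nat_lit 12) .nil)))))) (.g (nat_lit 1) (.e (nat_lit 352294) (nat_lit 0) .nil) .nil))) 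
(.lf (nat_lit 571987) (.g (nat_lit 2606) (.e (nat_lit 475210) (nat_lit 41) (.e (nat_lit 712745) (nat_lit 27) (.e (nat_lit 426347) (nat_lit 14) (.e (nat_lit 491569) (nat_lit 13) (.e (nat_lit 393296) (nat_lit 26) .nil))))) (.g (nat_lit 1) (.e (nat_lit 353573) (nat_lit 0) .nil) .nil)))) (.nd (nat_lit 9) 
(.lf (nat_lit 571731) (.g (nat_lit 2297) (.e (nat_lit 475198) (nat_lit 40) (.e (nat_lit 704589) (nat_lit 3) (.e (nat_lit 163976) (nat_lit 30) (.e (nat_lit 573491) (nat_lit 15) (.e (nat_lit 81954) (nat_lit 23) (.e (nat_lit 106240) (nat_lit 32) .nil)))))) (.g (nat_lit 1) (.e (nat_lit 352729) (nat_lit 0) .nil) .nil))) 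
(.lf (nat_lit 572243) (.g (nat_lit 367) (.e (nat_lit 483337) (nat_lit 9) (.e (nat_lit 426100) (nat_lit 1) (.e (nat_lit 164398) (nat_lit 256) .nil))) (.g (nat_lit 0) (.e (nat_lit 354080) (nat_lit 0) .nil) .nil))))) (.nd (nat_lit 8) (.nd (nat_lit 9) 
(.lf (nat_lit 571603) (.g (nat_lit 3667) (.e (nat_lit 475185) (nat_lit 29) (.e (nat_lit 557109) (nat_lit 15) (.e (nat_lit 188449) (nat_lit 22) (.e (nat_lit 196683) (nat_lit 18) .nil)))) (.g (nat_lit 0) (.e (nat_lit 352435) (nat_lit 0) .nil) .nil))) 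
(.lf (nat_lit 572115) (.g (nat_lit 2803) (.e (nat_lit 475218) (nat_lit 44) (.e (nat_lit 737318) (nat_lit 15) (.e (nat_lit 49189) (nat_lit 11) (.e (nat_lit 16425) (nat_lit 7) (.e (nat_lit 409646) (nat_lit 18) (.e (nat_lit 303143) (nat_lit 12) .nil)))))) (.g (nat_lit 1) (.e (nat_lit 353798) (nat_lit 0) .nil) .nil)))) (.nd (nat_lit 9) 
(.lf (nat_lit 571859) (.g (nat_lit 4536) (.e (nat_lit 475199) (nat_lit 40) (.e (nat_lit 704589) (nat_lit 3) (.e (nat_lit 163979) (nat_lit 30) (.e (nat_lit 573482) (nat_lit 13) (.e (nat_lit 65604) (nat_lit 9) (.e (nat_lit 336013) (nat_lit 2) (.e (nat_lit 90134) (nat_lit 9) (.e (nat_lit 3063) (nat_lit 190) .nil)))))))) (.g (nat_lit 1) (.e (nat_lit 353203) (nat_lit 0) .nil) .nil))) 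
(.lf (nat_lit 572371) (.g (nat_lit 2230) (.e (nat_lit 483337) (nat_lit 9) (.e (nat_lit 426108) (nat_lit 1) (.e (nat_lit 164402) (nat_lit 256) (.e (nat_lit 57377) (nat_lit 3) (.e (nat_lit 98363) (nat_lit 26) .nil))))) (.g (nat_lit 0) (.e (nat_lit 354490) (nat_lit 0) .nil) .nil))))))) (.nd (nat_lit 6) (.nd (nat_lit 7) (.nd (nat_lit 8) (.nd (nat_lit 9) 
(.lf (nat_lit 571443) (.g (nat_lit 4051) (.e (nat_lit 475185) (nat_lit 29) (.e (nat_lit 557101) (nat_lit 13) (.e (nat_lit 172097) (nat_lit 9) (.e (nat_lit 426125) (nat_lit 2) (.e (nat_lit 196661) (nat_lit 12) (.e (nat_lit 57750) (nat_lit 201) (.e (nat_lit 3065) (nat_lit 190) .nil))))))) (.g (nat_lit 1) (.e (nat_lit 352261) (nat_lit 0) .nil) .nil))) 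
(.lf (nat_lit 571955) (.g (nat_lit 1377) (.e (nat_lit 475209) (nat_lit 41) (.e (nat_lit 712750) (nat_lit 29) (.e (nat_lit 442430) (nat_lit 24) (.e (nat_lit 229666) (nat_lit 240) (.e (nat_lit 2725) (nat_lit 172) .nil))))) (.g (nat_lit 0) (.e (nat_lit 353519) (nat_lit 0) .nil) .nil)))) (.nd (nat_lit 9) 
(.lf (nat_lit 571699) (.g (nat_lit 3020) (.e (nat_lit 475197) (nat_lit 40) (.e (nat_lit 704592) (nat_lit 4) (.e (nat_lit 172126) (nat_lit 14) (.e (nat_lit 491571) (nat_lit 13) (.e (nat_lit 393292) (nat_lit 26) .nil))))) (.g (nat_lit 1) (.e (nat_lit 352657) (nat_lit 0) .nil) .nil))) 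
(.lf (nat_lit 572211) (.g (nat_lit 2704) (.e (nat_lit 483337) (nat_lit 9) (.e (nat_lit 426098) (nat_lit 1) (.e (nat_lit 164399) (nat_lit 256) (.e (nat_lit 57378) (nat_lit 3) (.e (nat_lit 98355) (nat_lit 26) (.e (nat_lit 426323) (nat_lit 13) .nil)))))) (.g (nat_lit 1) (.e (nat_lit 354037) (nat_lit 0) .nil) .nil))))) (.nd (nat_lit 8) (.nd (nat_lit 9) 
(.lf (nat_lit 571571) (.g (nat_lit 1082) (.e (nat_lit 475185) (nat_lit 29) (.e (nat_lit 557109) (nat_lit 15) (.e (nat_lit 188427) (nat_lit 20) (.e (nat_lit 3310) (nat_lit 202) .nil)))) (.g (nat_lit 0) (.e (nat_lit 352401) (nat_lit 0) .nil) .nil))) 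
(.lf (nat_lit 572083) (.g (nat_lit 609) (.e (nat_lit 475211) (nat_lit 41) (.e (nat_lit 712755) (nat_lit 30) (.e (nat_lit 450567) (nat_lit 0) .nil))) (.g (nat_lit 0) (.e (nat_lit 353743) (nat_lit 0) .nil) .nil)))) (.nd (nat_lit 9) 
(.lf (nat_lit 571827) (.g (nat_lit 2161) (.e (nat_lit 475199) (nat_lit 40) (.e (nat_lit 704589) (nat_lit 3) (.e (nat_lit 163975) (nat_lit 30) (.e (nat_lit 573491) (nat_lit 15) (.e (nat_lit 89856) (nat_lit 20) (.e (nat_lit 1784) (nat_lit 119) (.e (nat_lit 516182) (nat_lit 15) .nil))))))) (.g (nat_lit 1) (.e (nat_lit 352986) (nat_lit 0) .nil) .nil))) 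
(.lf (nat_lit 572339) (.g (nat_lit 3315) (.e (nat_lit 483337) (nat_lit 9) (.e (nat_lit 426107) (nat_lit 1) (.e (nat_lit 164403) (nat_lit 256) (.e (nat_lit 57373) (nat_lit 2) (.e (nat_lit 90167) (nat_lit 13) (.e (nat_lit 172123) (nat_lit 13) .nil)))))) (.g (nat_lit 1) (.e (nat_lit 354385) (nat_lit 0) .nil) .nil)))))) (.nd (nat_lit 7) (.nd (nat_lit 8) (.nd (nat_lit 9) 
(.lf (nat_lit 571507) (.g (nat_lit 3479) (.e (nat_lit 475185) (nat_lit 29) (.e (nat_lit 557101) (nat_lit 13) (.e (nat_lit 172115) (nat_lit 10) (.e (nat_lit 434244) (nat_lit 28) (.e (nat_lit 573458) (nat_lit 9) (.e (nat_lit 417) (nat_lit 32) (.e (nat_lit 426318) (nat_lit 12) .nil))))))) (.g (nat_lit 1) (.e (nat_lit 352326) (nat_lit 0) .nil) .nil))) 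
(.lf (nat_lit 572019) (.g (nat_lit 1755) (.e (nat_lit 475211) (nat_lit 41) (.e (nat_lit 712745) (nat_lit 27) (.e (nat_lit 425984) (nat_lit 0) (.e (nat_lit 7586) (nat_lit 406) (.e (nat_lit 65653) (nat_lit 27) (.e (nat_lit 433920) (nat_lit 12) .nil)))))) (.g (nat_lit 1) (.e (nat_lit 353649) (nat_lit 0) .nil) .nil)))) (.nd (nat_lit 9) 
(.lf (nat_lit 571763) (.g (nat_lit 4298) (.e (nat_lit 475198) (nat_lit 40) (.e (nat_lit 704589) (nat_lit 3) (.e (nat_lit 163979) (nat_lit 30) (.e (nat_lit 573493) (nat_lit 15) (.e (nat_lit 81956) (nat_lit 23) (.e (nat_lit 98383) (nat_lit 32) .nil)))))) (.g (nat_lit 1) (.e (nat_lit 352852) (nat_lit 0) .nil) .nil))) 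
(.lf (nat_lit 572275) (.g (nat_lit 1660) (.e (nat_lit 483337) (nat_lit 9) (.e (nat_lit 426100) (nat_lit 1) (.e (nat_lit 164403) (nat_lit 256) (.e (nat_lit 57370) (nat_lit 2) .nil)))) (.g (nat_lit 0) (.e (nat_lit 354112) (nat_lit 0) .nil) .nil))))) (.nd (nat_lit 8) (.nd (nat_lit 9) 
(.lf (nat_lit 571635) (.g (nat_lit 3897) (.e (nat_lit 475185) (nat_lit 29) (.e (nat_lit 557109) (nat_lit 15) (.e (nat_lit 188452) (nat_lit 23) (.e (nat_lit 204884) (nat_lit 33) (.e (nat_lit 401452) (nat_lit 12) .nil))))) (.g (nat_lit 1) (.e (nat_lit 352467) (nat_lit 0) .nil) .nil))) 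
(.lf (nat_lit 572147) (.g (nat_lit 2356) (.e (nat_lit 483336) (nat_lit 9) (.e (nat_lit 426100) (nat_lit 1) (.e (nat_lit 164398) (nat_lit 256) (.e (nat_lit 57379) (nat_lit 3) (.e (nat_lit 98363) (nat_lit 26) .nil))))) (.g (nat_lit 0) (.e (nat_lit 353907) (nat_lit 0) .nil) .nil)))) (.nd (nat_lit 9) 
(.lf (nat_lit 571891) (.g (nat_lit 3213) (.e (nat_lit 475199) (nat_lit 40) (.e (nat_lit 704592) (nat_lit 4) (.e (nat_lit 172126) (nat_lit 14) (.e (nat_lit 491549) (nat_lit 9) (.e (nat_lit 336414) (nat_lit 27) (.e (nat_lit 426318) (nat_lit 12) .nil)))))) (.g (nat_lit 1) (.e (nat_lit 353379) (nat_lit 0) .nil) .nil))) 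
(.lf (nat_lit 572403) (.g (nat_lit 1090) (.e (nat_lit 483337) (nat_lit 9) (.e (nat_lit 426200) (nat_lit 9) (.e (nat_lit 426436) (nat_lit 18) (.e (nat_lit 98335) (nat_lit 18) .nil)))) (.g (nat_lit 0) (.e (nat_lit 354577) (nat_lit 0) .nil) .nil))))))))) (.nd (nat_lit 4) (.nd (nat_lit 5) (.nd (nat_lit 6) (.nd (nat_lit 7) (.nd (nat_lit 8) (.nd (nat_lit 9) 
(.lf (nat_lit 571403) (.g (nat_lit 4265) (.e (nat_lit 475185) (nat_lit 29) (.e (nat_lit 557100) (nat_lit 13) (.e (nat_lit 172113) (nat_lit 10) (.e (nat_lit 434245) (nat_lit 28) (.e (nat_lit 573474) (nat_lit 12) (.e (nat_lit 57567) (nat_lit 52) (.e (nat_lit 753672) (nat_lit 5) (.e (nat_lit 3063) (nat_lit 190) .nil)))))))) (.g (nat_lit 1) (.e (nat_lit 352221) (nat_lit 0) .nil) .nil))) 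
(.lf (nat_lit 571915) (.g (nat_lit 1247) (.e (nat_lit 483072) (nat_lit 40) (.e (nat_lit 704745) (nat_lit 12) (.e (nat_lit 57504) (nat_lit 38) (.e (nat_lit 639020) (nat_lit 16) (.e (nat_lit 65627) (nat_lit 13) .nil))))) (.g (nat_lit 0) (.e (nat_lit 353455) (nat_lit 0) .nil) .nil)))) (.nd (nat_lit 9) 
(.lf (nat_lit 571659) (.g (nat_lit 1164) (.e (nat_lit 475196) (nat_lit 40) (.e (nat_lit 704590) (nat_lit 3) (.e (nat_lit 163975) (nat_lit 30) (.e (nat_lit 573481) (nat_lit 13) .nil)))) (.g (nat_lit 0) (.e (nat_lit 352524) (nat_lit 0) .nil) .nil))) 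
(.lf (nat_lit 572171) (.g (nat_lit 1829) (.e (nat_lit 483336) (nat_lit 9) (.e (nat_lit 426108) (nat_lit 1) (.e (nat_lit 164330) (nat_lit 230) (.e (nat_lit 163869) (nat_lit 2) .nil)))) (.g (nat_lit 0) (.e (nat_lit 353956) (nat_lit 0) .nil) .nil))))) (.nd (nat_lit 8) (.nd (nat_lit 9) 
(.lf (nat_lit 571531) (.g (nat_lit 3191) (.e (nat_lit 475185) (nat_lit 29) (.e (nat_lit 557107) (nat_lit 15) (.e (nat_lit 188439) (nat_lit 20) (.e (nat_lit 3272) (nat_lit 199) (.e (nat_lit 548898) (nat_lit 14) (.e (nat_lit 2884) (nat_lit 184) (.e (nat_lit 426317) (nat_lit 12) .nil))))))) (.g (nat_lit 1) (.e (nat_lit 352360) (nat_lit 0) .nil) .nil))) 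
(.lf (nat_lit 572043) (.g (nat_lit 2553) (.e (nat_lit 475211) (nat_lit 41) (.e (nat_lit 712752) (nat_lit 29) (.e (nat_lit 442430) (nat_lit 24) (.e (nat_lit 229663) (nat_lit 240) (.e (nat_lit 2622) (nat_lit 164) (.e (nat_lit 172118) (nat_lit 12) .nil)))))) (.g (nat_lit 1) (.e (nat_lit 353692) (nat_lit 0) .nil) .nil)))) (.nd (nat_lit 9) 
(.lf (nat_lit 571787) (.g (nat_lit 1375) (.e (nat_lit 475198) (nat_lit 40) (.e (nat_lit 704595) (nat_lit 5) (.e (nat_lit 180278) (nat_lit 32) (.e (nat_lit 1661) (nat_lit 115) (.e (nat_lit 401152) (nat_lit 26) .nil))))) (.g (nat_lit 0) (.e (nat_lit 352935) (nat_lit 0) .nil) .nil))) 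
(.lf (nat_lit 572299) (.g (nat_lit 2482) (.e (nat_lit 483337) (nat_lit 9) (.e (nat_lit 426107) (nat_lit 1) (.e (nat_lit 164325) (nat_lit 230) (.e (nat_lit 163869) (nat_lit 2) (.e (nat_lit 196653) (nat_lit 11) (.e (nat_lit 16463) (nat_lit 13) .nil)))))) (.g (nat_lit 1) (.e (nat_lit 354167) (nat_lit 0) .nil) .nil)))))) (.nd (nat_lit 7) (.nd (nat_lit 8) (.nd (nat_lit 9) 
(.lf (nat_lit 571467) (.g (nat_lit 2842) (.e (nat_lit 475185) (nat_lit 29) (.e (nat_lit 557101) (nat_lit 13) (.e (nat_lit 172115) (nat_lit 10) (.e (nat_lit 434231) (nat_lit 23) (.e (nat_lit 532486) (nat_lit 0) (.e (nat_lit 7936) (nat_lit 357) (.e (nat_lit 3062) (nat_lit 190) .nil))))))) (.g (nat_lit 1) (.e (nat_lit 352286) (nat_lit 0) .nil) .nil))) 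
(.lf (nat_lit 571979) (.g (nat_lit 4526) (.e (nat_lit 475210) (nat_lit 41) (.e (nat_lit 712722) (nat_lit 15) (.e (nat_lit 3302) (nat_lit 202) (.e (nat_lit 573492) (nat_lit 15) (.e (nat_lit 81956) (nat_lit 23) (.e (nat_lit 106240) (nat_lit 32) .nil)))))) (.g (nat_lit 1) (.e (nat_lit 353555) (nat_lit 0) .nil) .nil)))) (.nd (nat_lit 9) 
(.lf (nat_lit 571723) (.g (nat_lit 2885) (.e (nat_lit 475198) (nat_lit 40) (.e (nat_lit 704589) (nat_lit 3) (.e (nat_lit 163976) (nat_lit 30) (.e (nat_lit 573481) (nat_lit 13) (.e (nat_lit 65604) (nat_lit 9) (.e (nat_lit 336013) (nat_lit 2) (.e (nat_lit 90134) (nat_lit 9) (.e (nat_lit 3055) (nat_lit 190) .nil)))))))) (.g (nat_lit 1) (.e (nat_lit 352720) (nat_lit 0) .nil) .nil))) 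
(.lf (nat_lit 572235) (.g (nat_lit 1741) (.e (nat_lit 483337) (nat_lit 9) (.e (nat_lit 426099) (nat_lit 1) (.e (nat_lit 164399) (nat_lit 256) (.e (nat_lit 57377) (nat_lit 3) (.e (nat_lit 98363) (nat_lit 26) .nil))))) (.g (nat_lit 0) (.e (nat_lit 354061) (nat_lit 0) .nil) .nil))))) (.nd (nat_lit 8) (.nd (nat_lit 9) 
(.lf (nat_lit 571595) (.g (nat_lit 1313) (.e (nat_lit 475185) (nat_lit 29) (.e (nat_lit 557109) (nat_lit 15) (.e (nat_lit 188449) (nat_lit 22) (.e (nat_lit 196628) (nat_lit 9) .nil)))) (.g (nat_lit 0) (.e (nat_lit 352427) (nat_lit 0) .nil) .nil))) 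
(.lf (nat_lit 572107) (.g (nat_lit 1406) (.e (nat_lit 475214) (nat_lit 42) (.e (nat_lit 720930) (nat_lit 21) (.e (nat_lit 57927) (nat_lit 282) (.e (nat_lit 163933) (nat_lit 17) (.e (nat_lit 466981) (nat_lit 23) .nil))))) (.g (nat_lit 0) (.e (nat_lit 353787) (nat_lit 0) .nil) .nil)))) (.nd (nat_lit 9) 
(.lf (nat_lit 571851) (.g (nat_lit 3299) (.e (nat_lit 475199) (nat_lit 40) (.e (nat_lit 704589) (nat_lit 3) (.e (nat_lit 163978) (nat_lit 30) (.e (nat_lit 573485) (nat_lit 13) (.e (nat_lit 65619) (nat_lit 10) (.e (nat_lit 344117) (nat_lit 21) (.e (nat_lit 524032) (nat_lit 15) .nil))))))) (.g (nat_lit 1) (.e (nat_lit 353188) (nat_lit 0) .nil) .nil))) 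
(.lf (nat_lit 572363) (.g (nat_lit 2025) (.e (nat_lit 483337) (nat_lit 9) (.e (nat_lit 426108) (nat_lit 1) (.e (nat_lit 164401) (nat_lit 256) (.e (nat_lit 57373) (nat_lit 2) (.e (nat_lit 90169) (nat_lit 13) (.e (nat_lit 172121) (nat_lit 13) .nil)))))) (.g (nat_lit 1) (.e (nat_lit 354482) (nat_lit 0) .nil) .nil))))))) (.nd (nat_lit 6) (.nd (nat_lit 7) (.nd (nat_lit 8) (.nd (nat_lit 9) 
(.lf (nat_lit 571435) (.g (nat_lit 1336) (.e (nat_lit 475185) (nat_lit 29) (.e (nat_lit 557100) (nat_lit 13) (.e (nat_lit 172115) (nat_lit 10) (.e (nat_lit 434244) (nat_lit 28) .nil)))) (.g (nat_lit 0) (.e (nat_lit 352253) (nat_lit 0) .nil) .nil))) 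
(.lf (nat_lit 571947) (.g (nat_lit 1960) (.e (nat_lit 475208) (nat_lit 41) (.e (nat_lit 712755) (nat_lit 30) (.e (nat_lit 450563) (nat_lit 0) (.e (nat_lit 5537) (nat_lit 306) (.e (nat_lit 2515) (nat_lit 157) (.e (nat_lit 2854) (nat_lit 184) (.e (nat_lit 426320) (nat_lit 12) .nil))))))) (.g (nat_lit 1) (.e (nat_lit 353506) (nat_lit 0) .nil) .nil)))) (.nd (nat_lit 9) 
(.lf (nat_lit 571691) (.g (nat_lit 3843) (.e (nat_lit 475197) (nat_lit 40) (.e (nat_lit 704589) (nat_lit 3) (.e (nat_lit 163979) (nat_lit 30) (.e (nat_lit 573492) (nat_lit 15) (.e (nat_lit 81956) (nat_lit 23) (.e (nat_lit 98383) (nat_lit 32) .nil)))))) (.g (nat_lit 1) (.e (nat_lit 352617) (nat_lit 0) .nil) .nil))) 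
(.lf (nat_lit 572203) (.g (nat_lit 2393) (.e (nat_lit 483337) (nat_lit 9) (.e (nat_lit 426098) (nat_lit 1) (.e (nat_lit 164398) (nat_lit 256) (.e (nat_lit 57379) (nat_lit 3) (.e (nat_lit 98355) (nat_lit 26) (.e (nat_lit 426323) (nat_lit 13) .nil)))))) (.g (nat_lit 1) (.e (nat_lit 354029) (nat_lit 0) .nil) .nil))))) (.nd (nat_lit 8) (.nd (nat_lit 9) 
(.lf (nat_lit 571563) (.g (nat_lit 5774) (.e (nat_lit 475185) (nat_lit 29) (.e (nat_lit 557108) (nat_lit 15) (.e (nat_lit 188449) (nat_lit 22) (.e (nat_lit 196700) (nat_lit 22) .nil)))) (.g (nat_lit 0) (.e (nat_lit 352392) (nat_lit 0) .nil) .nil))) 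
(.lf (nat_lit 572075) (.g (nat_lit 1690) (.e (nat_lit 475211) (nat_lit 41) (.e (nat_lit 712755) (nat_lit 30) (.e (nat_lit 450563) (nat_lit 0) (.e (nat_lit 5539) (nat_lit 306) (.e (nat_lit 7936) (nat_lit 164) .nil))))) (.g (nat_lit 0) (.e (nat_lit 353734) (nat_lit 0) .nil) .nil)))) (.nd (nat_lit 9) 
(.lf (nat_lit 571819) (.g (nat_lit 2975) (.e (nat_lit 475199) (nat_lit 40) (.e (nat_lit 704589) (nat_lit 3) (.e (nat_lit 163975) (nat_lit 30) (.e (nat_lit 573481) (nat_lit 13) (.e (nat_lit 65619) (nat_lit 10) (.e (nat_lit 344117) (nat_lit 21) (.e (nat_lit 524032) (nat_lit 15) .nil))))))) (.g (nat_lit 1) (.e (nat_lit 352976) (nat_lit 0) .nil) .nil))) 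
(.lf (nat_lit 572331) (.g (nat_lit 1986) (.e (nat_lit 483337) (nat_lit 9) (.e (nat_lit 426107) (nat_lit 1) (.e (nat_lit 164396) (nat_lit 256) (.e (nat_lit 57371) (nat_lit 2) (.e (nat_lit 90168) (nat_lit 13) .nil))))) (.g (nat_lit 0) (.e (nat_lit 354377) (nat_lit 0) .nil) .nil)))))) (.nd (nat_lit 7) (.nd (nat_lit 8) (.nd (nat_lit 9) 
(.lf (nat_lit 571499) (.g (nat_lit 2956) (.e (nat_lit 475185) (nat_lit 29) (.e (nat_lit 557101) (nat_lit 13) (.e (nat_lit 172115) (nat_lit 10) (.e (nat_lit 434244) (nat_lit 28) (.e (nat_lit 573450) (nat_lit 9) (.e (nat_lit 390) (nat_lit 32) (.e (nat_lit 426314) (nat_lit 12) .nil))))))) (.g (nat_lit 1) (.e (nat_lit 352318) (nat_lit 0) .nil) .nil))) 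
(.lf (nat_lit 572011) (.g (nat_lit 1465) (.e (nat_lit 475210) (nat_lit 41) (.e (nat_lit 712755) (nat_lit 30) (.e (nat_lit 450562) (nat_lit 0) (.e (nat_lit 4751) (nat_lit 281) .nil)))) (.g (nat_lit 0) (.e (nat_lit 353627) (nat_lit 0) .nil) .nil)))) (.nd (nat_lit 9) 
(.lf (nat_lit 571755) (.g (nat_lit 2405) (.e (nat_lit 475198) (nat_lit 40) (.e (nat_lit 704589) (nat_lit 3) (.e (nat_lit 163979) (nat_lit 30) (.e (nat_lit 573491) (nat_lit 15) (.e (nat_lit 81946) (nat_lit 20) (.e (nat_lit 1802) (nat_lit 119) (.e (nat_lit 516178) (nat_lit 15) .nil))))))) (.g (nat_lit 1) (.e (nat_lit 352798) (nat_lit 0) .nil) .nil))) 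
(.lf (nat_lit 572267) (.g (nat_lit 435) (.e (nat_lit 483337) (nat_lit 9) (.e (nat_lit 426100) (nat_lit 1) (.e (nat_lit 164399) (nat_lit 256) .nil))) (.g (nat_lit 0) (.e (nat_lit 354104) (nat_lit 0) .nil) .nil))))) (.nd (nat_lit 8) (.nd (nat_lit 9) 
(.lf (nat_lit 571627) (.g (nat_lit 3052) (.e (nat_lit 475185) (nat_lit 29) (.e (nat_lit 557109) (nat_lit 15) (.e (nat_lit 188452) (nat_lit 23) (.e (nat_lit 204824) (nat_lit 17) .nil)))) (.g (nat_lit 0) (.e (nat_lit 352459) (nat_lit 0) .nil) .nil))) 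
(.lf (nat_lit 572139) (.g (nat_lit 4047) (.e (nat_lit 483336) (nat_lit 9) (.e (nat_lit 426100) (nat_lit 1) (.e (nat_lit 164332) (nat_lit 230) (.e (nat_lit 163869) (nat_lit 2) (.e (nat_lit 196656) (nat_lit 11) (.e (nat_lit 16463) (nat_lit 13) .nil)))))) (.g (nat_lit 1) (.e (nat_lit 353897) (nat_lit 0) .nil) .nil)))) (.nd (nat_lit 9) 
(.lf (nat_lit 571883) (.g (nat_lit 4145) (.e (nat_lit 475199) (nat_lit 40) (.e (nat_lit 704589) (nat_lit 3) (.e (nat_lit 163979) (nat_lit 30) (.e (nat_lit 573492) (nat_lit 15) (.e (nat_lit 81956) (nat_lit 23) (.e (nat_lit 98383) (nat_lit 32) .nil)))))) (.g (nat_lit 1) (.e (nat_lit 353240) (nat_lit 0) .nil) .nil))) 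
(.lf (nat_lit 572395) (.g (nat_lit 3216) (.e (nat_lit 483337) (nat_lit 9) (.e (nat_lit 426189) (nat_lit 9) (.e (nat_lit 426436) (nat_lit 18) (.e (nat_lit 98335) (nat_lit 18) (.e (nat_lit 164325) (nat_lit 230) (.e (nat_lit 163944) (nat_lit 19) .nil)))))) (.g (nat_lit 1) (.e (nat_lit 354540) (nat_lit 0) .nil) .nil)))))))) 
(.nd (nat_lit 5) (.nd (nat_lit 6) (.nd (nat_lit 7) (.nd (nat_lit 8) (.nd (nat_lit 9) 
(.lf (nat_lit 571419) (.g (nat_lit 2801) (.e (nat_lit 475185) (nat_lit 29) (.e (nat_lit 557100) (nat_lit 13) (.e (nat_lit 172113) (nat_lit 10) (.e (nat_lit 434248) (nat_lit 28) (.e (nat_lit 573473) (nat_lit 12) (.e (nat_lit 57348) (nat_lit 0) (.e (nat_lit 6938) (nat_lit 375) (.e (nat_lit 163938) (nat_lit 18) .nil)))))))) (.g (nat_lit 1) (.e (nat_lit 352237) (nat_lit 0) .nil) .nil))) 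
(.lf (nat_lit 571931) (.g (nat_lit 1627) (.e (nat_lit 475207) (nat_lit 41) (.e (nat_lit 712755) (nat_lit 30) (.e (nat_lit 450562) (nat_lit 0) (.e (nat_lit 5539) (nat_lit 306) (.e (nat_lit 2477) (nat_lit 157) .nil))))) (.g (nat_lit 0) (.e (nat_lit 353479) (nat_lit 0) .nil) .nil)))) (.nd (nat_lit 9) 
(.lf (nat_lit 571675) (.g (nat_lit 1949) (.e (nat_lit 475197) (nat_lit 40) (.e (nat_lit 704589) (nat_lit 3) (.e (nat_lit 163976) (nat_lit 30) (.e (nat_lit 573491) (nat_lit 15) (.e (nat_lit 81946) (nat_lit 20) (.e (nat_lit 1802) (nat_lit 119) (.e (nat_lit 516181) (nat_lit 15) .nil))))))) (.g (nat_lit 1) (.e (nat_lit 352575) (nat_lit 0) .nil) .nil))) 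
(.lf (nat_lit 572187) (.g (nat_lit 2079) (.e (nat_lit 483337) (nat_lit 9) (.e (nat_lit 426098) (nat_lit 1) (.e (nat_lit 164398) (nat_lit 256) (.e (nat_lit 57371) (nat_lit 2) (.e (nat_lit 90167) (nat_lit 13) .nil))))) (.g (nat_lit 0) (.e (nat_lit 354013) (nat_lit 0) .nil) .nil))))) (.nd (nat_lit 8) (.nd (nat_lit 9) 
(.lf (nat_lit 571547) (.g (nat_lit 2602) (.e (nat_lit 475185) (nat_lit 29) (.e (nat_lit 557107) (nat_lit 15) (.e (nat_lit 188450) (nat_lit 23) (.e (nat_lit 204884) (nat_lit 33) (.e (nat_lit 401452) (nat_lit 12) .nil))))) (.g (nat_lit 1) (.e (nat_lit 352376) (nat_lit 0) .nil) .nil))) 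
(.lf (nat_lit 572059) (.g (nat_lit 2102) (.e (nat_lit 475211) (nat_lit 41) (.e (nat_lit 712753) (nat_lit 30) (.e (nat_lit 450568) (nat_lit 0) (.e (nat_lit 5448) (nat_lit 306) (.e (nat_lit 2725) (nat_lit 172) (.e (nat_lit 237616) (nat_lit 12) .nil)))))) (.g (nat_lit 1) (.e (nat_lit 353708) (nat_lit 0) .nil) .nil)))) (.nd (nat_lit 9) 
(.lf (nat_lit 571803) (.g (nat_lit 2697) (.e (nat_lit 475198) (nat_lit 40) (.e (nat_lit 704599) (nat_lit 6) (.e (nat_lit 188453) (nat_lit 24) (.e (nat_lit 229665) (nat_lit 240) (.e (nat_lit 2630) (nat_lit 164) (.e (nat_lit 172118) (nat_lit 12) .nil)))))) (.g (nat_lit 1) (.e (nat_lit 352955) (nat_lit 0) .nil) .nil))) 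
(.lf (nat_lit 572315) (.g (nat_lit 430) (.e (nat_lit 483337) (nat_lit 9) (.e (nat_lit 426107) (nat_lit 1) (.e (nat_lit 164327) (nat_lit 230) .nil))) (.g (nat_lit 0) (.e (nat_lit 354326) (nat_lit 0) .nil) .nil)))))) (.nd (nat_lit 7) (.nd (nat_lit 8) (.nd (nat_lit 9) 
(.lf (nat_lit 571483) (.g (nat_lit 4220) (.e (nat_lit 475185) (nat_lit 29) (.e (nat_lit 557101) (nat_lit 13) (.e (nat_lit 172115) (nat_lit 10) (.e (nat_lit 434238) (nat_lit 25) (.e (nat_lit 548898) (nat_lit 14) (.e (nat_lit 2884) (nat_lit 184) (.e (nat_lit 426317) (nat_lit 12) .nil))))))) (.g (nat_lit 1) (.e (nat_lit 352302) (nat_lit 0) .nil) .nil))) 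
(.lf (nat_lit 571995) (.g (nat_lit 3294) (.e (nat_lit 475210) (nat_lit 41) (.e (nat_lit 712752) (nat_lit 29) (.e (nat_lit 442421) (nat_lit 21) (.e (nat_lit 164348) (nat_lit 240) (.e (nat_lit 2628) (nat_lit 164) (.e (nat_lit 172120) (nat_lit 12) .nil)))))) (.g (nat_lit 1) (.e (nat_lit 353607) (nat_lit 0) .nil) .nil)))) (.nd (nat_lit 9) 
(.lf (nat_lit 571739) (.g (nat_lit 2998) (.e (nat_lit 475198) (nat_lit 40) (.e (nat_lit 704589) (nat_lit 3) (.e (nat_lit 163978) (nat_lit 30) (.e (nat_lit 573485) (nat_lit 13) (.e (nat_lit 65619) (nat_lit 10) (.e (nat_lit 344116) (nat_lit 21) (.e (nat_lit 516182) (nat_lit 15) .nil))))))) (.g (nat_lit 1) (.e (nat_lit 352778) (nat_lit 0) .nil) .nil))) 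
(.lf (nat_lit 572251) (.g (nat_lit 2191) (.e (nat_lit 483337) (nat_lit 9) (.e (nat_lit 426100) (nat_lit 1) (.e (nat_lit 164398) (nat_lit 256) (.e (nat_lit 57373) (nat_lit 2) (.e (nat_lit 90169) (nat_lit 13) (.e (nat_lit 172121) (nat_lit 13) .nil)))))) (.g (nat_lit 1) (.e (nat_lit 354088) (nat_lit 0) .nil) .nil))))) (.nd (nat_lit 8) (.nd (nat_lit 9) 
(.lf (nat_lit 571611) (.g (nat_lit 5262) (.e (nat_lit 475185) (nat_lit 29) (.e (nat_lit 557109) (nat_lit 15) (.e (nat_lit 188449) (nat_lit 22) (.e (nat_lit 196691) (nat_lit 18) .nil)))) (.g (nat_lit 0) (.e (nat_lit 352443) (nat_lit 0) .nil) .nil))) 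
(.lf (nat_lit 572123) (.g (nat_lit 1075) (.e (nat_lit 483332) (nat_lit 0) (.e (nat_lit 7096) (nat_lit 380) (.e (nat_lit 164368) (nat_lit 247) (.e (nat_lit 8318) (nat_lit 64) .nil)))) (.g (nat_lit 0) (.e (nat_lit 353826) (nat_lit 0) .nil) .nil)))) (.nd (nat_lit 9) 
(.lf (nat_lit 571867) (.g (nat_lit 832) (.e (nat_lit 475199) (nat_lit 40) (.e (nat_lit 704589) (nat_lit 3) (.e (nat_lit 163979) (nat_lit 30) (.e (nat_lit 573491) (nat_lit 15) .nil)))) (.g (nat_lit 0) (.e (nat_lit 353216) (nat_lit 0) .nil) .nil))) 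
(.lf (nat_lit 572379) (.g (nat_lit 2281) (.e (nat_lit 483337) (nat_lit 9) (.e (nat_lit 426108) (nat_lit 1) (.e (nat_lit 164403) (nat_lit 256) (.e (nat_lit 57377) (nat_lit 3) (.e (nat_lit 98363) (nat_lit 26) (.e (nat_lit 426321) (nat_lit 13) .nil)))))) (.g (nat_lit 1) (.e (nat_lit 354498) (nat_lit 0) .nil) .nil))))))) (.nd (nat_lit 6) (.nd (nat_lit 7) (.nd (nat_lit 8) (.nd (nat_lit 9) 
(.lf (nat_lit 571451) (.g (nat_lit 3593) (.e (nat_lit 475185) (nat_lit 29) (.e (nat_lit 557101) (nat_lit 13) (.e (nat_lit 172097) (nat_lit 9) (.e (nat_lit 426125) (nat_lit 2) (.e (nat_lit 196700) (nat_lit 22) .nil))))) (.g (nat_lit 0) (.e (nat_lit 352269) (nat_lit 0) .nil) .nil))) 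
(.lf (nat_lit 571963) (.g (nat_lit 1161) (.e (nat_lit 475209) (nat_lit 41) (.e (nat_lit 712752) (nat_lit 29) (.e (nat_lit 442428) (nat_lit 24) (.e (nat_lit 229680) (nat_lit 244) .nil)))) (.g (nat_lit 0) (.e (nat_lit 353533) (nat_lit 0) .nil) .nil)))) (.nd (nat_lit 9) 
(.lf (nat_lit 571707) (.g (nat_lit 2258) (.e (nat_lit 475197) (nat_lit 40) (.e (nat_lit 704598) (nat_lit 6) (.e (nat_lit 188455) (nat_lit 24) (.e (nat_lit 229663) (nat_lit 240) (.e (nat_lit 2622) (nat_lit 164) (.e (nat_lit 172118) (nat_lit 12) .nil)))))) (.g (nat_lit 1) (.e (nat_lit 352665) (nat_lit 0) .nil) .nil))) 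
(.lf (nat_lit 572219) (.g (nat_lit 2684) (.e (nat_lit 483337) (nat_lit 9) (.e (nat_lit 426098) (nat_lit 1) (.e (nat_lit 164403) (nat_lit 256) (.e (nat_lit 57373) (nat_lit 2) (.e (nat_lit 90169) (nat_lit 13) .nil))))) (.g (nat_lit 0) (.e (nat_lit 354045) (nat_lit 0) .nil) .nil))))) (.nd (nat_lit 8) (.nd (nat_lit 9) 
(.lf (nat_lit 571579) (.g (nat_lit 3020) (.e (nat_lit 475185) (nat_lit 29) (.e (nat_lit 557109) (nat_lit 15) (.e (nat_lit 188434) (nat_lit 20) (.e (nat_lit 3205) (nat_lit 194) (.e (nat_lit 507946) (nat_lit 18) (.e (nat_lit 303143) (nat_lit 12) .nil)))))) (.g (nat_lit 1) (.e (nat_lit 352410) (nat_lit 0) .nil) .nil))) 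
(.lf (nat_lit 572091) (.g (nat_lit 3097) (.e (nat_lit 475211) (nat_lit 41) (.e (nat_lit 712755) (nat_lit 30) (.e (nat_lit 450569) (nat_lit 0) (.e (nat_lit 5448) (nat_lit 306) (.e (nat_lit 2630) (nat_lit 164) (.e (nat_lit 172118) (nat_lit 12) .nil)))))) (.g (nat_lit 1) (.e (nat_lit 353752) (nat_lit 0) .nil) .nil)))) (.nd (nat_lit 9) 
(.lf (nat_lit 571835) (.g (nat_lit 2673) (.e (nat_lit 475199) (nat_lit 40) (.e (nat_lit 704589) (nat_lit 3) (.e (nat_lit 163976) (nat_lit 30) (.e (nat_lit 573481) (nat_lit 13) (.e (nat_lit 65619) (nat_lit 10) (.e (nat_lit 344117) (nat_lit 21) (.e (nat_lit 524032) (nat_lit 15) .nil))))))) (.g (nat_lit 1) (.e (nat_lit 353096) (nat_lit 0) .nil) .nil))) 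
(.lf (nat_lit 572347) (.g (nat_lit 3155) (.e (nat_lit 483337) (nat_lit 9) (.e (nat_lit 426108) (nat_lit 1) (.e (nat_lit 164329) (nat_lit 230) (.e (nat_lit 163867) (nat_lit 2) (.e (nat_lit 196656) (nat_lit 11) (.e (nat_lit 16465) (nat_lit 13) .nil)))))) (.g (nat_lit 1) (.e (nat_lit 354412) (nat_lit 0) .nil) .nil)))))) (.nd (nat_lit 7) (.nd (nat_lit 8) (.nd (nat_lit 9) 
(.lf (nat_lit 571515) (.g (nat_lit 4107) (.e (nat_lit 475185) (nat_lit 29) (.e (nat_lit 557101) (nat_lit 13) (.e (nat_lit 172115) (nat_lit 10) (.e (nat_lit 434244) (nat_lit 28) (.e (nat_lit 573474) (nat_lit 12) (.e (nat_lit 57345) (nat_lit 0) (.e (nat_lit 6938) (nat_lit 375) (.e (nat_lit 163939) (nat_lit 18) .nil)))))))) (.g (nat_lit 1) (.e (nat_lit 352334) (nat_lit 0) .nil) .nil))) 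
(.lf (nat_lit 572027) (.g (nat_lit 2398) (.e (nat_lit 475211) (nat_lit 41) (.e (nat_lit 712750) (nat_lit 29) (.e (nat_lit 442419) (nat_lit 21) (.e (nat_lit 164348) (nat_lit 240) (.e (nat_lit 2619) (nat_lit 164) .nil))))) (.g (nat_lit 0) (.e (nat_lit 353666) (nat_lit 0) .nil) .nil)))) (.nd (nat_lit 9) 
(.lf (nat_lit 571771) (.g (nat_lit 2546) (.e (nat_lit 475198) (nat_lit 40) (.e (nat_lit 704590) (nat_lit 3) (.e (nat_lit 163975) (nat_lit 30) (.e (nat_lit 573481) (nat_lit 13) (.e (nat_lit 65613) (nat_lit 10) (.e (nat_lit 344119) (nat_lit 21) (.e (nat_lit 516182) (nat_lit 15) .nil))))))) (.g (nat_lit 1) (.e (nat_lit 352878) (nat_lit 0) .nil) .nil))) 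
(.lf (nat_lit 572283) (.g (nat_lit 4460) (.e (nat_lit 483337) (nat_lit 9) (.e (nat_lit 426100) (nat_lit 1) (.e (nat_lit 164403) (nat_lit 256) (.e (nat_lit 57373) (nat_lit 2) (.e (nat_lit 90170) (nat_lit 13) (.e (nat_lit 172123) (nat_lit 13) .nil)))))) (.g (nat_lit 1) (.e (nat_lit 354120) (nat_lit 0) .nil) .nil))))) (.nd (nat_lit 8) (.nd (nat_lit 9) 
(.lf (nat_lit 571643) (.g (nat_lit 2365) (.e (nat_lit 483072) (nat_lit 29) (.e (nat_lit 557108) (nat_lit 15) (.e (nat_lit 188452) (nat_lit 23) (.e (nat_lit 204885) (nat_lit 33) .nil)))) (.g (nat_lit 0) (.e (nat_lit 352482) (nat_lit 0) .nil) .nil))) 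
(.lf (nat_lit 572155) (.g (nat_lit 2791) (.e (nat_lit 483336) (nat_lit 9) (.e (nat_lit 426100) (nat_lit 1) (.e (nat_lit 164403) (nat_lit 256) (.e (nat_lit 57373) (nat_lit 2) (.e (nat_lit 90170) (nat_lit 13) .nil))))) (.g (nat_lit 0) (.e (nat_lit 353915) (nat_lit 0) .nil) .nil)))) (.nd (nat_lit 9) 
(.lf (nat_lit 571899) (.g (nat_lit 2944) (.e (nat_lit 475199) (nat_lit 40) (.e (nat_lit 704598) (nat_lit 6) (.e (nat_lit 188444) (nat_lit 21) (.e (nat_lit 164348) (nat_lit 240) (.e (nat_lit 2619) (nat_lit 164) (.e (nat_lit 172119) (nat_lit 12) .nil)))))) (.g (nat_lit 1) (.e (nat_lit 353409) (nat_lit 0) .nil) .nil))) 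
(.lf (nat_lit 572411) (.g (nat_lit 3994) (.e (nat_lit 483337) (nat_lit 9) (.e (nat_lit 426305) (nat_lit 12) (.e (nat_lit 475179) (nat_lit 24) (.e (nat_lit 516120) (nat_lit 1) (.e (nat_lit 164330) (nat_lit 230) (.e (nat_lit 163941) (nat_lit 19) .nil)))))) (.g (nat_lit 1) (.e (nat_lit 354606) (nat_lit 0) .nil) .nil)))))))))) 
(.nd (nat_lit 3) (.nd (nat_lit 4) (.nd (nat_lit 5) (.nd (nat_lit 6) (.nd (nat_lit 7) 
(.nd (nat_lit 8) (.nd (nat_lit 9) 
(.lf (nat_lit 571399) (.g (nat_lit 2687) (.e (nat_lit 475185) (nat_lit 29) (.e (nat_lit 557100) (nat_lit 13) (.e (nat_lit 172113) (nat_lit 10) (.e (nat_lit 434245) (nat_lit 28) (.e (nat_lit 573474) (nat_lit 12) (.e (nat_lit 57351) (nat_lit 0) (.e (nat_lit 6940) (nat_lit 375) (.e (nat_lit 163938) (nat_lit 18) .nil)))))))) (.g (nat_lit 1) (.e (nat_lit 352217) (nat_lit 0) .nil) .nil))) 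
(.lf (nat_lit 571911) (.g (nat_lit 3661) (.e (nat_lit 475199) (nat_lit 40) (.e (nat_lit 704598) (nat_lit 6) (.e (nat_lit 188455) (nat_lit 24) (.e (nat_lit 229678) (nat_lit 244) (.e (nat_lit 163908) (nat_lit 12) (.e (nat_lit 426312) (nat_lit 12) .nil)))))) (.g (nat_lit 1) (.e (nat_lit 353427) (nat_lit 0) .nil) .nil)))) (.nd (nat_lit 9) 
(.lf (nat_lit 571655) (.g (nat_lit 2565) (.e (nat_lit 475196) (nat_lit 40) (.e (nat_lit 704589) (nat_lit 3) (.e (nat_lit 163979) (nat_lit 30) (.e (nat_lit 573491) (nat_lit 15) (.e (nat_lit 81954) (nat_lit 23) (.e (nat_lit 98385) (nat_lit 32) .nil)))))) (.g (nat_lit 1) (.e (nat_lit 352513) (nat_lit 0) .nil) .nil))) 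
(.lf (nat_lit 572167) (.g (nat_lit 2055) (.e (nat_lit 483336) (nat_lit 9) (.e (nat_lit 426107) (nat_lit 1) (.e (nat_lit 164403) (nat_lit 256) (.e (nat_lit 57378) (nat_lit 3) .nil)))) (.g (nat_lit 0) (.e (nat_lit 353946) (nat_lit 0) .nil) .nil))))) (.nd (nat_lit 8) (.nd (nat_lit 9) 
(.lf (nat_lit 571527) (.g (nat_lit 2804) (.e (nat_lit 475185) (nat_lit 29) (.e (nat_lit 557107) (nat_lit 15) (.e (nat_lit 188439) (nat_lit 20) (.e (nat_lit 3270) (nat_lit 199) (.e (nat_lit 548898) (nat_lit 14) (.e (nat_lit 2884) (nat_lit 184) (.e (nat_lit 426317) (nat_lit 12) .nil))))))) (.g (nat_lit 1) (.e (nat_lit 352356) (nat_lit 0) .nil) .nil))) 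
(.lf (nat_lit 572039) (.g (nat_lit 1234) (.e (nat_lit 475211) (nat_lit 41) (.e (nat_lit 712752) (nat_lit 29) (.e (nat_lit 442428) (nat_lit 24) (.e (nat_lit 229679) (nat_lit 244) .nil)))) (.g (nat_lit 0) (.e (nat_lit 353688) (nat_lit 0) .nil) .nil)))) (.nd (nat_lit 9) 
(.lf (nat_lit 571783) (.g (nat_lit 2231) (.e (nat_lit 475198) (nat_lit 40) (.e (nat_lit 704592) (nat_lit 4) (.e (nat_lit 172126) (nat_lit 14) (.e (nat_lit 491550) (nat_lit 9) (.e (nat_lit 336379) (nat_lit 27) (.e (nat_lit 426318) (nat_lit 12) .nil)))))) (.g (nat_lit 1) (.e (nat_lit 352917) (nat_lit 0) .nil) .nil))) 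
(.lf (nat_lit 572295) (.g (nat_lit 2887) (.e (nat_lit 483337) (nat_lit 9) (.e (nat_lit 426107) (nat_lit 1) (.e (nat_lit 164322) (nat_lit 230) (.e (nat_lit 163869) (nat_lit 2) (.e (nat_lit 196654) (nat_lit 11) .nil))))) (.g (nat_lit 0) (.e (nat_lit 354145) (nat_lit 0) .nil) .nil)))))) (.nd (nat_lit 7) (.nd (nat_lit 8) (.nd (nat_lit 9) 
(.lf (nat_lit 571463) (.g (nat_lit 3804) (.e (nat_lit 475185) (nat_lit 29) (.e (nat_lit 557101) (nat_lit 13) (.e (nat_lit 172115) (nat_lit 10) (.e (nat_lit 434231) (nat_lit 23) (.e (nat_lit 532481) (nat_lit 0) (.e (nat_lit 6691) (nat_lit 357) (.e (nat_lit 3057) (nat_lit 190) .nil))))))) (.g (nat_lit 1) (.e (nat_lit 352282) (nat_lit 0) .nil) .nil))) 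
(.lf (nat_lit 571975) (.g (nat_lit 3230) (.e (nat_lit 475209) (nat_lit 41) (.e (nat_lit 712755) (nat_lit 30) (.e (nat_lit 450568) (nat_lit 0) (.e (nat_lit 5599) (nat_lit 310) (.e (nat_lit 163905) (nat_lit 12) (.e (nat_lit 426320) (nat_lit 12) .nil)))))) (.g (nat_lit 1) (.e (nat_lit 353548) (nat_lit 0) .nil) .nil)))) (.nd (nat_lit 9) 
(.lf (nat_lit 571719) (.g (nat_lit 2524) (.e (nat_lit 475198) (nat_lit 40) (.e (nat_lit 704589) (nat_lit 3) (.e (nat_lit 163975) (nat_lit 30) (.e (nat_lit 573491) (nat_lit 15) (.e (nat_lit 81954) (nat_lit 23) (.e (nat_lit 106240) (nat_lit 32) .nil)))))) (.g (nat_lit 1) (.e (nat_lit 352682) (nat_lit 0) .nil) .nil))) 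
(.lf (nat_lit 572231) (.g (nat_lit 1757) (.e (nat_lit 483337) (nat_lit 9) (.e (nat_lit 426099) (nat_lit 1) (.e (nat_lit 164399) (nat_lit 256) (.e (nat_lit 57373) (nat_lit 2) (.e (nat_lit 90168) (nat_lit 13) .nil))))) (.g (nat_lit 0) (.e (nat_lit 354057) (nat_lit 0) .nil) .nil))))) (.nd (nat_lit 8) (.nd (nat_lit 9) 
(.lf (nat_lit 571591) (.g (nat_lit 5081) (.e (nat_lit 475185) (nat_lit 29) (.e (nat_lit 557109) (nat_lit 15) (.e (nat_lit 188449) (nat_lit 22) (.e (nat_lit 196619) (nat_lit 9) .nil)))) (.g (nat_lit 0) (.e (nat_lit 352423) (nat_lit 0) .nil) .nil))) 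
(.lf (nat_lit 572103) (.g (nat_lit 1679) (.e (nat_lit 475212) (nat_lit 42) (.e (nat_lit 720931) (nat_lit 21) (.e (nat_lit 57926) (nat_lit 282) (.e (nat_lit 163932) (nat_lit 17) (.e (nat_lit 466976) (nat_lit 22) .nil))))) (.g (nat_lit 0) (.e (nat_lit 353767) (nat_lit 0) .nil) .nil)))) (.nd (nat_lit 9) 
(.lf (nat_lit 571847) (.g (nat_lit 4730) (.e (nat_lit 475199) (nat_lit 40) (.e (nat_lit 704589) (nat_lit 3) (.e (nat_lit 163978) (nat_lit 30) (.e (nat_lit 573485) (nat_lit 13) (.e (nat_lit 65604) (nat_lit 9) (.e (nat_lit 336013) (nat_lit 2) (.e (nat_lit 90134) (nat_lit 9) (.e (nat_lit 3055) (nat_lit 190) .nil)))))))) (.g (nat_lit 1) (.e (nat_lit 353183) (nat_lit 0) .nil) .nil))) 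
(.lf (nat_lit 572359) (.g (nat_lit 2119) (.e (nat_lit 483337) (nat_lit 9) (.e (nat_lit 426108) (nat_lit 1) (.e (nat_lit 164396) (nat_lit 256) (.e (nat_lit 57371) (nat_lit 2) (.e (nat_lit 90167) (nat_lit 13) (.e (nat_lit 172123) (nat_lit 13) .nil)))))) (.g (nat_lit 1) (.e (nat_lit 354478) (nat_lit 0) .nil) .nil))))))) (.nd (nat_lit 6) (.nd (nat_lit 7) (.nd (nat_lit 8) (.nd (nat_lit 9) 
(.lf (nat_lit 571431) (.g (nat_lit 3394) (.e (nat_lit 475185) (nat_lit 29) (.e (nat_lit 557100) (nat_lit 13) (.e (nat_lit 172113) (nat_lit 10) (.e (nat_lit 434248) (nat_lit 28) (.e (nat_lit 573475) (nat_lit 12) (.e (nat_lit 57348) (nat_lit 0) (.e (nat_lit 6943) (nat_lit 375) (.e (nat_lit 163936) (nat_lit 18) .nil)))))))) (.g (nat_lit 1) (.e (nat_lit 352249) (nat_lit 0) .nil) .nil))) 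
(.lf (nat_lit 571943) (.g (nat_lit 878) (.e (nat_lit 475207) (nat_lit 41) (.e (nat_lit 712755) (nat_lit 30) (.e (nat_lit 450597) (nat_lit 17) (.e (nat_lit 671488) (nat_lit 14) .nil)))) (.g (nat_lit 0) (.e (nat_lit 353498) (nat_lit 0) .nil) .nil)))) (.nd (nat_lit 9) 
(.lf (nat_lit 571687) (.g (nat_lit 2452) (.e (nat_lit 475197) (nat_lit 40) (.e (nat_lit 704589) (nat_lit 3) (.e (nat_lit 163979) (nat_lit 30) (.e (nat_lit 573491) (nat_lit 15) (.e (nat_lit 81946) (nat_lit 20) (.e (nat_lit 1802) (nat_lit 119) (.e (nat_lit 516181) (nat_lit 15) .nil))))))) (.g (nat_lit 1) (.e (nat_lit 352612) (nat_lit 0) .nil) .nil))) 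
(.lf (nat_lit 572199) (.g (nat_lit 2371) (.e (nat_lit 483337) (nat_lit 9) (.e (nat_lit 426098) (nat_lit 1) (.e (nat_lit 164398) (nat_lit 256) (.e (nat_lit 57378) (nat_lit 3) (.e (nat_lit 98357) (nat_lit 26) .nil))))) (.g (nat_lit 0) (.e (nat_lit 354025) (nat_lit 0) .nil) .nil))))) (.nd (nat_lit 8) (.nd (nat_lit 9) 
(.lf (nat_lit 571559) (.g (nat_lit 509) (.e (nat_lit 475185) (nat_lit 29) (.e (nat_lit 557108) (nat_lit 15) (.e (nat_lit 188449) (nat_lit 22) .nil))) (.g (nat_lit 0) (.e (nat_lit 352388) (nat_lit 0) .nil) .nil))) 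
(.lf (nat_lit 572071) (.g (nat_lit 1486) (.e (nat_lit 475211) (nat_lit 41) (.e (nat_lit 712755) (nat_lit 30) (.e (nat_lit 450562) (nat_lit 0) (.e (nat_lit 5537) (nat_lit 306) .nil)))) (.g (nat_lit 0) (.e (nat_lit 353724) (nat_lit 0) .nil) .nil)))) (.nd (nat_lit 9) 
(.lf (nat_lit 571815) (.g (nat_lit 3709) (.e (nat_lit 475199) (nat_lit 40) (.e (nat_lit 704589) (nat_lit 3) (.e (nat_lit 163975) (nat_lit 30) (.e (nat_lit 573481) (nat_lit 13) (.e (nat_lit 65604) (nat_lit 9) (.e (nat_lit 336013) (nat_lit 2) (.e (nat_lit 90134) (nat_lit 9) (.e (nat_lit 3055) (nat_lit 190) .nil)))))))) (.g (nat_lit 1) (.e (nat_lit 352970) (nat_lit 0) .nil) .nil))) 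
(.lf (nat_lit 572327) (.g (nat_lit 3230) (.e (nat_lit 483337) (nat_lit 9) (.e (nat_lit 426107) (nat_lit 1) (.e (nat_lit 164332) (nat_lit 230) (.e (nat_lit 163869) (nat_lit 2) (.e (nat_lit 196656) (nat_lit 11) .nil))))) (.g (nat_lit 0) (.e (nat_lit 354370) (nat_lit 0) .nil) .nil)))))) (.nd (nat_lit 7) (.nd (nat_lit 8) (.nd (nat_lit 9) 
(.lf (nat_lit 571495) (.g (nat_lit 3049) (.e (nat_lit 475185) (nat_lit 29) (.e (nat_lit 557101) (nat_lit 13) (.e (nat_lit 172115) (nat_lit 10) (.e (nat_lit 434244) (nat_lit 28) (.e (nat_lit 573450) (nat_lit 9) (.e (nat_lit 373) (nat_lit 32) (.e (nat_lit 426305) (nat_lit 12) .nil))))))) (.g (nat_lit 1) (.e (nat_lit 352314) (nat_lit 0) .nil) .nil))) 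
(.lf (nat_lit 572007) (.g (nat_lit 245) (.e (nat_lit 475210) (nat_lit 41) (.e (nat_lit 712753) (nat_lit 30) (.e (nat_lit 450569) (nat_lit 0) .nil))) (.g (nat_lit 0) (.e (nat_lit 353622) (nat_lit 0) .nil) .nil)))) (.nd (nat_lit 9) 
(.lf (nat_lit 571751) (.g (nat_lit 1837) (.e (nat_lit 475198) (nat_lit 40) (.e (nat_lit 704589) (nat_lit 3) (.e (nat_lit 163979) (nat_lit 30) (.e (nat_lit 573491) (nat_lit 15) (.e (nat_lit 81928) (nat_lit 20) .nil))))) (.g (nat_lit 0) (.e (nat_lit 352794) (nat_lit 0) .nil) .nil))) 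
(.lf (nat_lit 572263) (.g (nat_lit 2412) (.e (nat_lit 483337) (nat_lit 9) (.e (nat_lit 426100) (nat_lit 1) (.e (nat_lit 164398) (nat_lit 256) (.e (nat_lit 57379) (nat_lit 3) (.e (nat_lit 98355) (nat_lit 26) (.e (nat_lit 426323) (nat_lit 13) .nil)))))) (.g (nat_lit 1) (.e (nat_lit 354100) (nat_lit 0) .nil) .nil))))) (.nd (nat_lit 8) (.nd (nat_lit 9) 
(.lf (nat_lit 571623) (.g (nat_lit 1520) (.e (nat_lit 475185) (nat_lit 29) (.e (nat_lit 557109) (nat_lit 15) (.e (nat_lit 188452) (nat_lit 23) (.e (nat_lit 204821) (nat_lit 17) .nil)))) (.g (nat_lit 0) (.e (nat_lit 352455) (nat_lit 0) .nil) .nil))) 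
(.lf (nat_lit 572135) (.g (nat_lit 1449) (.e (nat_lit 483336) (nat_lit 9) (.e (nat_lit 426098) (nat_lit 1) (.e (nat_lit 164403) (nat_lit 256) (.e (nat_lit 57378) (nat_lit 3) .nil)))) (.g (nat_lit 0) (.e (nat_lit 353887) (nat_lit 0) .nil) .nil)))) (.nd (nat_lit 9) 
(.lf (nat_lit 571879) (.g (nat_lit 1905) (.e (nat_lit 475199) (nat_lit 40) (.e (nat_lit 704589) (nat_lit 3) (.e (nat_lit 163979) (nat_lit 30) (.e (nat_lit 573491) (nat_lit 15) (.e (nat_lit 81947) (nat_lit 20) (.e (nat_lit 1781) (nat_lit 119) (.e (nat_lit 516182) (nat_lit 15) .nil))))))) (.g (nat_lit 1) (.e (nat_lit 353229) (nat_lit 0) .nil) .nil))) 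
(.lf (nat_lit 572391) (.g (nat_lit 3850) (.e (nat_lit 483337) (nat_lit 9) (.e (nat_lit 426188) (nat_lit 9) (.e (nat_lit 426436) (nat_lit 18) (.e (nat_lit 98335) (nat_lit 18) (.e (nat_lit 164330) (nat_lit 230) (.e (nat_lit 163941) (nat_lit 19) .nil)))))) (.g (nat_lit 1) (.e (nat_lit 354527) (nat_lit 0) .nil) .nil)))))))) 
(.nd (nat_lit 5) (.nd (nat_lit 6) (.nd (nat_lit 7) (.nd (nat_lit 8) (.nd (nat_lit 9) 
(.lf (nat_lit 571415) (.g (nat_lit 2721) (.e (nat_lit 475185) (nat_lit 29) (.e (nat_lit 557100) (nat_lit 13) (.e (nat_lit 172113) (nat_lit 10) (.e (nat_lit 434248) (nat_lit 28) (.e (nat_lit 573457) (nat_lit 9) (.e (nat_lit 430) (nat_lit 32) (.e (nat_lit 426315) (nat_lit 12) .nil))))))) (.g (nat_lit 1) (.e (nat_lit 352233) (nat_lit 0) .nil) .nil))) 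
(.lf (nat_lit 571927) (.g (nat_lit 1579) (.e (nat_lit 475207) (nat_lit 41) (.e (nat_lit 712755) (nat_lit 30) (.e (nat_lit 450562) (nat_lit 0) (.e (nat_lit 4751) (nat_lit 281) (.e (nat_lit 1131) (nat_lit 83) .nil))))) (.g (nat_lit 0) (.e (nat_lit 353474) (nat_lit 0) .nil) .nil)))) (.nd (nat_lit 9) 
(.lf (nat_lit 571671) (.g (nat_lit 2119) (.e (nat_lit 475197) (nat_lit 40) (.e (nat_lit 704589) (nat_lit 3) (.e (nat_lit 163975) (nat_lit 30) (.e (nat_lit 573491) (nat_lit 15) (.e (nat_lit 81946) (nat_lit 20) (.e (nat_lit 1802) (nat_lit 119) (.e (nat_lit 516181) (nat_lit 15) .nil))))))) (.g (nat_lit 1) (.e (nat_lit 352548) (nat_lit 0) .nil) .nil))) 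
(.lf (nat_lit 572183) (.g (nat_lit 2205) (.e (nat_lit 483337) (nat_lit 9) (.e (nat_lit 426098) (nat_lit 1) (.e (nat_lit 164325) (nat_lit 230) (.e (nat_lit 163869) (nat_lit 2) (.e (nat_lit 196653) (nat_lit 11) (.e (nat_lit 16463) (nat_lit 13) .nil)))))) (.g (nat_lit 1) (.e (nat_lit 353998) (nat_lit 0) .nil) .nil))))) (.nd (nat_lit 8) (.nd (nat_lit 9) 
(.lf (nat_lit 571543) (.g (nat_lit 2355) (.e (nat_lit 475185) (nat_lit 29) (.e (nat_lit 557107) (nat_lit 15) (.e (nat_lit 188450) (nat_lit 23) (.e (nat_lit 204821) (nat_lit 17) (.e (nat_lit 6680) (nat_lit 357) (.e (nat_lit 3066) (nat_lit 190) .nil)))))) (.g (nat_lit 1) (.e (nat_lit 352372) (nat_lit 0) .nil) .nil))) 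
(.lf (nat_lit 572055) (.g (nat_lit 3150) (.e (nat_lit 475211) (nat_lit 41) (.e (nat_lit 712753) (nat_lit 30) (.e (nat_lit 450564) (nat_lit 0) (.e (nat_lit 5548) (nat_lit 306) (.e (nat_lit 2628) (nat_lit 164) (.e (nat_lit 172118) (nat_lit 12) .nil)))))) (.g (nat_lit 1) (.e (nat_lit 353704) (nat_lit 0) .nil) .nil)))) (.nd (nat_lit 9) 
(.lf (nat_lit 571799) (.g (nat_lit 237) (.e (nat_lit 475198) (nat_lit 40) (.e (nat_lit 704598) (nat_lit 6) (.e (nat_lit 188454) (nat_lit 24) .nil))) (.g (nat_lit 0) (.e (nat_lit 352950) (nat_lit 0) .nil) .nil))) 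
(.lf (nat_lit 572311) (.g (nat_lit 3563) (.e (nat_lit 483337) (nat_lit 9) (.e (nat_lit 426107) (nat_lit 1) (.e (nat_lit 164326) (nat_lit 230) (.e (nat_lit 163871) (nat_lit 2) (.e (nat_lit 196654) (nat_lit 11) (.e (nat_lit 16466) (nat_lit 13) .nil)))))) (.g (nat_lit 1) (.e (nat_lit 354306) (nat_lit 0) .nil) .nil)))))) (.nd (nat_lit 7) (.nd (nat_lit 8) (.nd (nat_lit 9) 
(.lf (nat_lit 571479) (.g (nat_lit 2518) (.e (nat_lit 475185) (nat_lit 29) (.e (nat_lit 557101) (nat_lit 13) (.e (nat_lit 172115) (nat_lit 10) (.e (nat_lit 434238) (nat_lit 25) (.e (nat_lit 548898) (nat_lit 14) (.e (nat_lit 2853) (nat_lit 184) (.e (nat_lit 426319) (nat_lit 12) .nil))))))) (.g (nat_lit 1) (.e (nat_lit 352298) (nat_lit 0) .nil) .nil))) 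
(.lf (nat_lit 571991) (.g (nat_lit 1361) (.e (nat_lit 475210) (nat_lit 41) (.e (nat_lit 712750) (nat_lit 29) (.e (nat_lit 442419) (nat_lit 21) (.e (nat_lit 164398) (nat_lit 256) .nil)))) (.g (nat_lit 0) (.e (nat_lit 353585) (nat_lit 0) .nil) .nil)))) (.nd (nat_lit 9) 
(.lf (nat_lit 571735) (.g (nat_lit 3972) (.e (nat_lit 475198) (nat_lit 40) (.e (nat_lit 704589) (nat_lit 3) (.e (nat_lit 163978) (nat_lit 30) (.e (nat_lit 573485) (nat_lit 13) (.e (nat_lit 65604) (nat_lit 9) (.e (nat_lit 336013) (nat_lit 2) (.e (nat_lit 90134) (nat_lit 9) (.e (nat_lit 3055) (nat_lit 190) .nil)))))))) (.g (nat_lit 1) (.e (nat_lit 352774) (nat_lit 0) .nil) .nil))) 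
(.lf (nat_lit 572247) (.g (nat_lit 2390) (.e (nat_lit 483337) (nat_lit 9) (.e (nat_lit 426100) (nat_lit 1) (.e (nat_lit 164398) (nat_lit 256) (.e (nat_lit 57372) (nat_lit 2) (.e (nat_lit 90169) (nat_lit 13) (.e (nat_lit 172121) (nat_lit 13) .nil)))))) (.g (nat_lit 1) (.e (nat_lit 354084) (nat_lit 0) .nil) .nil))))) (.nd (nat_lit 8) (.nd (nat_lit 9) 
(.lf (nat_lit 571607) (.g (nat_lit 3697) (.e (nat_lit 475185) (nat_lit 29) (.e (nat_lit 557109) (nat_lit 15) (.e (nat_lit 188449) (nat_lit 22) (.e (nat_lit 196687) (nat_lit 18) .nil)))) (.g (nat_lit 0) (.e (nat_lit 352439) (nat_lit 0) .nil) .nil))) 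
(.lf (nat_lit 572119) (.g (nat_lit 3029) (.e (nat_lit 475219) (nat_lit 44) (.e (nat_lit 737318) (nat_lit 15) (.e (nat_lit 49189) (nat_lit 11) (.e (nat_lit 16425) (nat_lit 7) (.e (nat_lit 409646) (nat_lit 18) (.e (nat_lit 303143) (nat_lit 12) .nil)))))) (.g (nat_lit 1) (.e (nat_lit 353805) (nat_lit 0) .nil) .nil)))) (.nd (nat_lit 9) 
(.lf (nat_lit 571863) (.g (nat_lit 1877) (.e (nat_lit 475199) (nat_lit 40) (.e (nat_lit 704589) (nat_lit 3) (.e (nat_lit 163979) (nat_lit 30) (.e (nat_lit 573482) (nat_lit 13) (.e (nat_lit 65613) (nat_lit 10) .nil))))) (.g (nat_lit 0) (.e (nat_lit 353207) (nat_lit 0) .nil) .nil))) 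
(.lf (nat_lit 572375) (.g (nat_lit 3047) (.e (nat_lit 483337) (nat_lit 9) (.e (nat_lit 426108) (nat_lit 1) (.e (nat_lit 164403) (nat_lit 256) (.e (nat_lit 57373) (nat_lit 2) (.e (nat_lit 90167) (nat_lit 13) (.e (nat_lit 172123) (nat_lit 13) .nil)))))) (.g (nat_lit 1) (.e (nat_lit 354494) (nat_lit 0) .nil) .nil))))))) (.nd (nat_lit 6) (.nd (nat_lit 7) (.nd (nat_lit 8) (.nd (nat_lit 9) 
(.lf (nat_lit 571447) (.g (nat_lit 3653) (.e (nat_lit 475185) (nat_lit 29) (.e (nat_lit 557101) (nat_lit 13) (.e (nat_lit 172097) (nat_lit 9) (.e (nat_lit 426125) (nat_lit 2) (.e (nat_lit 196661) (nat_lit 12) (.e (nat_lit 65280) (nat_lit 201) (.e (nat_lit 3060) (nat_lit 190) .nil))))))) (.g (nat_lit 1) (.e (nat_lit 352265) (nat_lit 0) .nil) .nil))) 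
(.lf (nat_lit 571959) (.g (nat_lit 992) (.e (nat_lit 475209) (nat_lit 41) (.e (nat_lit 712752) (nat_lit 29) (.e (nat_lit 442421) (nat_lit 21) (.e (nat_lit 164346) (nat_lit 240) .nil)))) (.g (nat_lit 0) (.e (nat_lit 353527) (nat_lit 0) .nil) .nil)))) (.nd (nat_lit 9) 
(.lf (nat_lit 571703) (.g (nat_lit 1659) (.e (nat_lit 475197) (nat_lit 40) (.e (nat_lit 704595) (nat_lit 5) (.e (nat_lit 180285) (nat_lit 45) (.e (nat_lit 2797) (nat_lit 180) (.e (nat_lit 311040) (nat_lit 35) .nil))))) (.g (nat_lit 0) (.e (nat_lit 352661) (nat_lit 0) .nil) .nil))) 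
(.lf (nat_lit 572215) (.g (nat_lit 1807) (.e (nat_lit 483337) (nat_lit 9) (.e (nat_lit 426098) (nat_lit 1) (.e (nat_lit 164403) (nat_lit 256) (.e (nat_lit 57370) (nat_lit 2) (.e (nat_lit 90168) (nat_lit 13) .nil))))) (.g (nat_lit 0) (.e (nat_lit 354041) (nat_lit 0) .nil) .nil))))) (.nd (nat_lit 8) (.nd (nat_lit 9) 
(.lf (nat_lit 571575) (.g (nat_lit 3025) (.e (nat_lit 475185) (nat_lit 29) (.e (nat_lit 557109) (nat_lit 15) (.e (nat_lit 188434) (nat_lit 20) (.e (nat_lit 3115) (nat_lit 193) (.e (nat_lit 499728) (nat_lit 0) (.e (nat_lit 2797) (nat_lit 180) (.e (nat_lit 303143) (nat_lit 12) .nil))))))) (.g (nat_lit 1) (.e (nat_lit 352405) (nat_lit 0) .nil) .nil))) 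
(.lf (nat_lit 572087) (.g (nat_lit 2697) (.e (nat_lit 475211) (nat_lit 41) (.e (nat_lit 712755) (nat_lit 30) (.e (nat_lit 450568) (nat_lit 0) (.e (nat_lit 5599) (nat_lit 310) (.e (nat_lit 163913) (nat_lit 12) (.e (nat_lit 426318) (nat_lit 12) .nil)))))) (.g (nat_lit 1) (.e (nat_lit 353748) (nat_lit 0) .nil) .nil)))) (.nd (nat_lit 9) 
(.lf (nat_lit 571831) (.g (nat_lit 3821) (.e (nat_lit 475199) (nat_lit 40) (.e (nat_lit 704589) (nat_lit 3) (.e (nat_lit 163975) (nat_lit 30) (.e (nat_lit 573492) (nat_lit 15) (.e (nat_lit 81956) (nat_lit 23) (.e (nat_lit 106240) (nat_lit 32) .nil)))))) (.g (nat_lit 1) (.e (nat_lit 353079) (nat_lit 0) .nil) .nil))) 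
(.lf (nat_lit 572343) (.g (nat_lit 2925) (.e (nat_lit 483337) (nat_lit 9) (.e (nat_lit 426107) (nat_lit 1) (.e (nat_lit 164403) (nat_lit 256) (.e (nat_lit 57378) (nat_lit 3) (.e (nat_lit 98355) (nat_lit 26) (.e (nat_lit 426323) (nat_lit 13) .nil)))))) (.g (nat_lit 1) (.e (nat_lit 354389) (nat_lit 0) .nil) .nil)))))) (.nd (nat_lit 7) (.nd (nat_lit 8) (.nd (nat_lit 9) 
(.lf (nat_lit 571511) (.g (nat_lit 3285) (.e (nat_lit 475185) (nat_lit 29) (.e (nat_lit 557101) (nat_lit 13) (.e (nat_lit 172115) (nat_lit 10) (.e (nat_lit 434244) (nat_lit 28) (.e (nat_lit 573468) (nat_lit 10) (.e (nat_lit 8194) (nat_lit 0) (.e (nat_lit 4423) (nat_lit 261) (.e (nat_lit 163939) (nat_lit 18) .nil)))))))) (.g (nat_lit 1) (.e (nat_lit 352330) (nat_lit 0) .nil) .nil))) 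
(.lf (nat_lit 572023) (.g (nat_lit 309) (.e (nat_lit 475211) (nat_lit 41) (.e (nat_lit 712749) (nat_lit 28) (.e (nat_lit 434192) (nat_lit 13) .nil))) (.g (nat_lit 0) (.e (nat_lit 353659) (nat_lit 0) .nil) .nil)))) (.nd (nat_lit 9) 
(.lf (nat_lit 571767) (.g (nat_lit 470) (.e (nat_lit 475198) (nat_lit 40) (.e (nat_lit 704590) (nat_lit 3) (.e (nat_lit 163975) (nat_lit 30) .nil))) (.g (nat_lit 0) (.e (nat_lit 352872) (nat_lit 0) .nil) .nil))) 
(.lf (nat_lit 572279) (.g (nat_lit 3682) (.e (nat_lit 483337) (nat_lit 9) (.e (nat_lit 426100) (nat_lit 1) (.e (nat_lit 164403) (nat_lit 256) (.e (nat_lit 57373) (nat_lit 2) (.e (nat_lit 90167) (nat_lit 13) (.e (nat_lit 172123) (nat_lit 13) .nil)))))) (.g (nat_lit 1) (.e (nat_lit 354116) (nat_lit 0) .nil) .nil))))) (.nd (nat_lit 8) (.nd (nat_lit 9) 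
(.lf (nat_lit 571639) (.g (nat_lit 1548) (.e (nat_lit 483072) (nat_lit 29) (.e (nat_lit 557107) (nat_lit 15) (.e (nat_lit 188452) (nat_lit 23) (.e (nat_lit 204883) (nat_lit 33) .nil)))) (.g (nat_lit 0) (.e (nat_lit 352478) (nat_lit 0) .nil) .nil))) 
(.lf (nat_lit 572151) (.g (nat_lit 1359) (.e (nat_lit 483336) (nat_lit 9) (.e (nat_lit 426100) (nat_lit 1) (.e (nat_lit 164399) (nat_lit 256) (.e (nat_lit 57373) (nat_lit 2) .nil)))) (.g (nat_lit 0) (.e (nat_lit 353911) (nat_lit 0) .nil) .nil)))) (.nd (nat_lit 9) 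
(.lf (nat_lit 571895) (.g (nat_lit 1486) (.e (nat_lit 475199) (nat_lit 40) (.e (nat_lit 704595) (nat_lit 5) (.e (nat_lit 180277) (nat_lit 32) (.e (nat_lit 1428) (nat_lit 108) (.e (nat_lit 336372) (nat_lit 27) .nil))))) (.g (nat_lit 0) (.e (nat_lit 353393) (nat_lit 0) .nil) .nil))) 
(.lf (nat_lit 572407) (.g (nat_lit 3867) (.e (nat_lit 483337) (nat_lit 9) (.e (nat_lit 426200) (nat_lit 9) (.e (nat_lit 426436) (nat_lit 18) (.e (nat_lit 98335) (nat_lit 18) (.e (nat_lit 164330) (nat_lit 230) (.e (nat_lit 163943) (nat_lit 19) .nil)))))) (.g (nat_lit 1) (.e (nat_lit 354583) (nat_lit 0) .nil) .nil))))))))) 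
(.nd (nat_lit 4) (.nd (nat_lit 5) (.nd (nat_lit 6) (.nd (nat_lit 7) (.nd (nat_lit 8) 
(.nd (nat_lit 9) 
(.lf (nat_lit 571407) (.g (nat_lit 3788) (.e (nat_lit 475185) (nat_lit 29) (.e (nat_lit 557100) (nat_lit 13) (.e (nat_lit 172113) (nat_lit 10) (.e (nat_lit 434245) (nat_lit 28) (.e (nat_lit 573474) (nat_lit 12) (.e (nat_lit 57574) (nat_lit 55) (.e (nat_lit 786176) (nat_lit 0) (.e (nat_lit 484) (nat_lit 38) .nil)))))))) (.g (nat_lit 1) (.e (nat_lit 352225) (nat_lit 0) .nil) .nil))) 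
(.lf (nat_lit 571919) (.g (nat_lit 422) (.e (nat_lit 475207) (nat_lit 41) (.e (nat_lit 712752) (nat_lit 29) (.e (nat_lit 450304) (nat_lit 4) .nil))) (.g (nat_lit 0) (.e (nat_lit 353464) (nat_lit 0) .nil) .nil)))) (.nd (nat_lit 9) 
(.lf (nat_lit 571663) (.g (nat_lit 1132) (.e (nat_lit 475196) (nat_lit 40) (.e (nat_lit 704592) (nat_lit 4) (.e (nat_lit 172126) (nat_lit 14) (.e (nat_lit 491567) (nat_lit 13) .nil)))) (.g (nat_lit 0) (.e (nat_lit 352539) (nat_lit 0) .nil) .nil))) 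
(.lf (nat_lit 572175) (.g (nat_lit 1418) (.e (nat_lit 483336) (nat_lit 9) (.e (nat_lit 426108) (nat_lit 1) (.e (nat_lit 164403) (nat_lit 256) (.e (nat_lit 57373) (nat_lit 2) .nil)))) (.g (nat_lit 0) (.e (nat_lit 353970) (nat_lit 0) .nil) .nil))))) (.nd (nat_lit 8) (.nd (nat_lit 9) 
(.lf (nat_lit 571535) (.g (nat_lit 2839) (.e (nat_lit 475185) (nat_lit 29) (.e (nat_lit 557107) (nat_lit 15) (.e (nat_lit 188447) (nat_lit 22) (.e (nat_lit 196661) (nat_lit 12) (.e (nat_lit 57750) (nat_lit 201) (.e (nat_lit 3064) (nat_lit 190) .nil)))))) (.g (nat_lit 1) (.e (nat_lit 352364) (nat_lit 0) .nil) .nil))) 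
(.lf (nat_lit 572047) (.g (nat_lit 2091) (.e (nat_lit 475211) (nat_lit 41) (.e (nat_lit 712752) (nat_lit 29) (.e (nat_lit 442430) (nat_lit 24) (.e (nat_lit 229678) (nat_lit 244) (.e (nat_lit 163915) (nat_lit 12) .nil))))) (.g (nat_lit 0) (.e (nat_lit 353696) (nat_lit 0) .nil) .nil)))) (.nd (nat_lit 9) 
(.lf (nat_lit 571791) (.g (nat_lit 931) (.e (nat_lit 475198) (nat_lit 40) (.e (nat_lit 704596) (nat_lit 5) (.e (nat_lit 180277) (nat_lit 32) (.e (nat_lit 1638) (nat_lit 114) .nil)))) (.g (nat_lit 0) (.e (nat_lit 352940) (nat_lit 0) .nil) .nil))) 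
(.lf (nat_lit 572303) (.g (nat_lit 3039) (.e (nat_lit 483337) (nat_lit 9) (.e (nat_lit 426107) (nat_lit 1) (.e (nat_lit 164326) (nat_lit 230) (.e (nat_lit 163868) (nat_lit 2) (.e (nat_lit 196652) (nat_lit 11) (.e (nat_lit 16466) (nat_lit 13) .nil)))))) (.g (nat_lit 1) (.e (nat_lit 354237) (nat_lit 0) .nil) .nil)))))) (.nd (nat_lit 7) (.nd (nat_lit 8) (.nd (nat_lit 9) 
(.lf (nat_lit 571471) (.g (nat_lit 2403) (.e (nat_lit 475185) (nat_lit 29) (.e (nat_lit 557101) (nat_lit 13) (.e (nat_lit 172115) (nat_lit 10) (.e (nat_lit 434231) (nat_lit 23) (.e (nat_lit 532490) (nat_lit 0) (.e (nat_lit 7936) (nat_lit 357) (.e (nat_lit 3055) (nat_lit 190) .nil))))))) (.g (nat_lit 1) (.e (nat_lit 352290) (nat_lit 0) .nil) .nil))) 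
(.lf (nat_lit 571983) (.g (nat_lit 3568) (.e (nat_lit 475210) (nat_lit 41) (.e (nat_lit 712745) (nat_lit 27) (.e (nat_lit 426347) (nat_lit 14) (.e (nat_lit 491550) (nat_lit 9) (.e (nat_lit 336369) (nat_lit 27) (.e (nat_lit 426310) (nat_lit 12) .nil)))))) (.g (nat_lit 1) (.e (nat_lit 353568) (nat_lit 0) .nil) .nil)))) (.nd (nat_lit 9) 
(.lf (nat_lit 571727) (.g (nat_lit 1619) (.e (nat_lit 475198) (nat_lit 40) (.e (nat_lit 704589) (nat_lit 3) (.e (nat_lit 163976) (nat_lit 30) (.e (nat_lit 573491) (nat_lit 15) (.e (nat_lit 81942) (nat_lit 20) .nil))))) (.g (nat_lit 0) (.e (nat_lit 352724) (nat_lit 0) .nil) .nil))) 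
(.lf (nat_lit 572239) (.g (nat_lit 2068) (.e (nat_lit 483337) (nat_lit 9) (.e (nat_lit 426100) (nat_lit 1) (.e (nat_lit 164332) (nat_lit 230) (.e (nat_lit 163867) (nat_lit 2) (.e (nat_lit 196653) (nat_lit 11) (.e (nat_lit 16463) (nat_lit 13) .nil)))))) (.g (nat_lit 1) (.e (nat_lit 354067) (nat_lit 0) .nil) .nil))))) (.nd (nat_lit 8) (.nd (nat_lit 9) 
(.lf (nat_lit 571599) (.g (nat_lit 3096) (.e (nat_lit 475185) (nat_lit 29) (.e (nat_lit 557109) (nat_lit 15) (.e (nat_lit 188449) (nat_lit 22) (.e (nat_lit 196661) (nat_lit 12) (.e (nat_lit 57751) (nat_lit 201) (.e (nat_lit 3065) (nat_lit 190) .nil)))))) (.g (nat_lit 1) (.e (nat_lit 352431) (nat_lit 0) .nil) .nil))) 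
(.lf (nat_lit 572111) (.g (nat_lit 2296) (.e (nat_lit 475218) (nat_lit 44) (.e (nat_lit 737318) (nat_lit 15) (.e (nat_lit 49187) (nat_lit 11) (.e (nat_lit 16425) (nat_lit 7) (.e (nat_lit 409648) (nat_lit 18) (.e (nat_lit 303142) (nat_lit 12) .nil)))))) (.g (nat_lit 1) (.e (nat_lit 353794) (nat_lit 0) .nil) .nil)))) (.nd (nat_lit 9) 
(.lf (nat_lit 571855) (.g (nat_lit 397) (.e (nat_lit 475199) (nat_lit 40) (.e (nat_lit 704589) (nat_lit 3) (.e (nat_lit 163979) (nat_lit 30) .nil))) (.g (nat_lit 0) (.e (nat_lit 353199) (nat_lit 0) .nil) .nil))) 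
(.lf (nat_lit 572367) (.g (nat_lit 1404) (.e (nat_lit 483337) (nat_lit 9) (.e (nat_lit 426108) (nat_lit 1) (.e (nat_lit 164402) (nat_lit 256) (.e (nat_lit 57370) (nat_lit 2) .nil)))) (.g (nat_lit 0) (.e (nat_lit 354486) (nat_lit 0) .nil) .nil))))))) (.nd (nat_lit 6) (.nd (nat_lit 7) (.nd (nat_lit 8) (.nd (nat_lit 9) 
(.lf (nat_lit 571439) (.g (nat_lit 4798) (.e (nat_lit 475185) (nat_lit 29) (.e (nat_lit 557100) (nat_lit 13) (.e (nat_lit 172126) (nat_lit 14) (.e (nat_lit 491537) (nat_lit 2) (.e (nat_lit 90170) (nat_lit 13) (.e (nat_lit 172120) (nat_lit 12) .nil)))))) (.g (nat_lit 1) (.e (nat_lit 352257) (nat_lit 0) .nil) .nil))) 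
(.lf (nat_lit 571951) (.g (nat_lit 2023) (.e (nat_lit 475208) (nat_lit 41) (.e (nat_lit 712755) (nat_lit 30) (.e (nat_lit 450593) (nat_lit 16) (.e (nat_lit 655364) (nat_lit 0) (.e (nat_lit 2884) (nat_lit 184) .nil))))) (.g (nat_lit 0) (.e (nat_lit 353511) (nat_lit 0) .nil) .nil)))) (.nd (nat_lit 9) 
(.lf (nat_lit 571695) (.g (nat_lit 1174) (.e (nat_lit 475197) (nat_lit 40) (.e (nat_lit 704590) (nat_lit 3) (.e (nat_lit 163975) (nat_lit 30) (.e (nat_lit 573491) (nat_lit 15) .nil)))) (.g (nat_lit 0) (.e (nat_lit 352645) (nat_lit 0) .nil) .nil))) 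
(.lf (nat_lit 572207) (.g (nat_lit 1962) (.e (nat_lit 483337) (nat_lit 9) (.e (nat_lit 426098) (nat_lit 1) (.e (nat_lit 164399) (nat_lit 256) (.e (nat_lit 57372) (nat_lit 2) (.e (nat_lit 90169) (nat_lit 13) (.e (nat_lit 172121) (nat_lit 13) .nil)))))) (.g (nat_lit 1) (.e (nat_lit 354033) (nat_lit 0) .nil) .nil))))) (.nd (nat_lit 8) (.nd (nat_lit 9) 
(.lf (nat_lit 571567) (.g (nat_lit 3316) (.e (nat_lit 475185) (nat_lit 29) (.e (nat_lit 557108) (nat_lit 15) (.e (nat_lit 188452) (nat_lit 23) (.e (nat_lit 204821) (nat_lit 17) .nil)))) (.g (nat_lit 0) (.e (nat_lit 352396) (nat_lit 0) .nil) .nil))) 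
(.lf (nat_lit 572079) (.g (nat_lit 2182) (.e (nat_lit 475211) (nat_lit 41) (.e (nat_lit 712755) (nat_lit 30) (.e (nat_lit 450564) (nat_lit 0) (.e (nat_lit 5547) (nat_lit 306) (.e (nat_lit 2619) (nat_lit 164) .nil))))) (.g (nat_lit 0) (.e (nat_lit 353739) (nat_lit 0) .nil) .nil)))) (.nd (nat_lit 9) 
(.lf (nat_lit 571823) (.g (nat_lit 1683) (.e (nat_lit 475199) (nat_lit 40) (.e (nat_lit 704589) (nat_lit 3) (.e (nat_lit 163975) (nat_lit 30) (.e (nat_lit 573491) (nat_lit 15) (.e (nat_lit 81941) (nat_lit 20) .nil))))) (.g (nat_lit 0) (.e (nat_lit 352982) (nat_lit 0) .nil) .nil))) 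
(.lf (nat_lit 572335) (.g (nat_lit 1586) (.e (nat_lit 483337) (nat_lit 9) (.e (nat_lit 426107) (nat_lit 1) (.e (nat_lit 164403) (nat_lit 256) (.e (nat_lit 57370) (nat_lit 2) (.e (nat_lit 90167) (nat_lit 13) .nil))))) (.g (nat_lit 0) (.e (nat_lit 354381) (nat_lit 0) .nil) .nil)))))) (.nd (nat_lit 7) (.nd (nat_lit 8) (.nd (nat_lit 9) 
(.lf (nat_lit 571503) (.g (nat_lit 4183) (.e (nat_lit 475185) (nat_lit 29) (.e (nat_lit 557101) (nat_lit 13) (.e (nat_lit 172115) (nat_lit 10) (.e (nat_lit 434244) (nat_lit 28) (.e (nat_lit 573451) (nat_lit 9) (.e (nat_lit 396) (nat_lit 32) (.e (nat_lit 426308) (nat_lit 12) .nil))))))) (.g (nat_lit 1) (.e (nat_lit 352322) (nat_lit 0) .nil) .nil))) 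
(.lf (nat_lit 572015) (.g (nat_lit 2962) (.e (nat_lit 475210) (nat_lit 41) (.e (nat_lit 712755) (nat_lit 30) (.e (nat_lit 450564) (nat_lit 0) (.e (nat_lit 5546) (nat_lit 306) (.e (nat_lit 2619) (nat_lit 164) (.e (nat_lit 172118) (nat_lit 12) .nil)))))) (.g (nat_lit 1) (.e (nat_lit 353635) (nat_lit 0) .nil) .nil)))) (.nd (nat_lit 9) 
(.lf (nat_lit 571759) (.g (nat_lit 2878) (.e (nat_lit 475198) (nat_lit 40) (.e (nat_lit 704589) (nat_lit 3) (.e (nat_lit 163979) (nat_lit 30) (.e (nat_lit 573491) (nat_lit 15) (.e (nat_lit 81954) (nat_lit 23) (.e (nat_lit 106240) (nat_lit 32) .nil)))))) (.g (nat_lit 1) (.e (nat_lit 352804) (nat_lit 0) .nil) .nil))) 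
(.lf (nat_lit 572271) (.g (nat_lit 2149) (.e (nat_lit 483337) (nat_lit 9) (.e (nat_lit 426100) (nat_lit 1) (.e (nat_lit 164399) (nat_lit 256) (.e (nat_lit 57377) (nat_lit 3) (.e (nat_lit 98363) (nat_lit 26) (.e (nat_lit 426321) (nat_lit 13) .nil)))))) (.g (nat_lit 1) (.e (nat_lit 354108) (nat_lit 0) .nil) .nil))))) (.nd (nat_lit 8) (.nd (nat_lit 9) 
(.lf (nat_lit 571631) (.g (nat_lit 4701) (.e (nat_lit 475185) (nat_lit 29) (.e (nat_lit 557109) (nat_lit 15) (.e (nat_lit 188452) (nat_lit 23) (.e (nat_lit 204829) (nat_lit 18) (.e (nat_lit 65280) (nat_lit 219) (.e (nat_lit 163939) (nat_lit 18) .nil)))))) (.g (nat_lit 1) (.e (nat_lit 352463) (nat_lit 0) .nil) .nil))) 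
(.lf (nat_lit 572143) (.g (nat_lit 2770) (.e (nat_lit 483336) (nat_lit 9) (.e (nat_lit 426100) (nat_lit 1) (.e (nat_lit 164398) (nat_lit 256) (.e (nat_lit 57378) (nat_lit 3) (.e (nat_lit 98356) (nat_lit 26) .nil))))) (.g (nat_lit 0) (.e (nat_lit 353903) (nat_lit 0) .nil) .nil)))) (.nd (nat_lit 9) 
(.lf (nat_lit 571887) (.g (nat_lit 3915) (.e (nat_lit 475199) (nat_lit 40) (.e (nat_lit 704590) (nat_lit 3) (.e (nat_lit 163975) (nat_lit 30) (.e (nat_lit 573481) (nat_lit 13) (.e (nat_lit 65619) (nat_lit 10) (.e (nat_lit 344117) (nat_lit 21) (.e (nat_lit 516181) (nat_lit 15) .nil))))))) (.g (nat_lit 1) (.e (nat_lit 353353) (nat_lit 0) .nil) .nil))) 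
(.lf (nat_lit 572399) (.g (nat_lit 3015) (.e (nat_lit 483337) (nat_lit 9) (.e (nat_lit 426189) (nat_lit 9) (.e (nat_lit 426436) (nat_lit 18) (.e (nat_lit 98335) (nat_lit 18) (.e (nat_lit 164329) (nat_lit 230) (.e (nat_lit 163941) (nat_lit 19) .nil)))))) (.g (nat_lit 1) (.e (nat_lit 354544) (nat_lit 0) .nil) .nil)))))))) 
(.nd (nat_lit 5) (.nd (nat_lit 6) (.nd (nat_lit 7) (.nd (nat_lit 8) (.nd (nat_lit 9) 
(.lf (nat_lit 571423) (.g (nat_lit 3495) (.e (nat_lit 475185) (nat_lit 29) (.e (nat_lit 557100) (nat_lit 13) (.e (nat_lit 172113) (nat_lit 10) (.e (nat_lit 434248) (nat_lit 28) (.e (nat_lit 573475) (nat_lit 12) (.e (nat_lit 57345) (nat_lit 0) (.e (nat_lit 6938) (nat_lit 375) (.e (nat_lit 163938) (nat_lit 18) .nil)))))))) (.g (nat_lit 1) (.e (nat_lit 352241) (nat_lit 0) .nil) .nil))) 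
(.lf (nat_lit 571935) (.g (nat_lit 1135) (.e (nat_lit 475207) (nat_lit 41) (.e (nat_lit 712755) (nat_lit 30) (.e (nat_lit 450563) (nat_lit 0) (.e (nat_lit 5796) (nat_lit 320) .nil)))) (.g (nat_lit 0) (.e (nat_lit 353485) (nat_lit 0) .nil) .nil)))) (.nd (nat_lit 9) 
(.lf (nat_lit 571679) (.g (nat_lit 3759) (.e (nat_lit 475197) (nat_lit 40) (.e (nat_lit 704589) (nat_lit 3) (.e (nat_lit 163978) (nat_lit 30) (.e (nat_lit 573485) (nat_lit 13) (.e (nat_lit 65619) (nat_lit 10) (.e (nat_lit 344117) (nat_lit 21) (.e (nat_lit 516181) (nat_lit 15) .nil))))))) (.g (nat_lit 1) (.e (nat_lit 352602) (nat_lit 0) .nil) .nil))) 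
(.lf (nat_lit 572191) (.g (nat_lit 2148) (.e (nat_lit 483337) (nat_lit 9) (.e (nat_lit 426098) (nat_lit 1) (.e (nat_lit 164398) (nat_lit 256) (.e (nat_lit 57373) (nat_lit 2) (.e (nat_lit 90169) (nat_lit 13) (.e (nat_lit 172121) (nat_lit 13) .nil)))))) (.g (nat_lit 1) (.e (nat_lit 354017) (nat_lit 0) .nil) .nil))))) (.nd (nat_lit 8) (.nd (nat_lit 9) 
(.lf (nat_lit 571551) (.g (nat_lit 1922) (.e (nat_lit 475185) (nat_lit 29) (.e (nat_lit 557107) (nat_lit 15) (.e (nat_lit 188452) (nat_lit 23) (.e (nat_lit 204883) (nat_lit 33) (.e (nat_lit 401452) (nat_lit 12) .nil))))) (.g (nat_lit 0) (.e (nat_lit 352380) (nat_lit 0) .nil) .nil))) 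
(.lf (nat_lit 572063) (.g (nat_lit 2749) (.e (nat_lit 475211) (nat_lit 41) (.e (nat_lit 712753) (nat_lit 30) (.e (nat_lit 450569) (nat_lit 0) (.e (nat_lit 5448) (nat_lit 306) (.e (nat_lit 2630) (nat_lit 164) (.e (nat_lit 172118) (nat_lit 12) .nil)))))) (.g (nat_lit 1) (.e (nat_lit 353712) (nat_lit 0) .nil) .nil)))) (.nd (nat_lit 9) 
(.lf (nat_lit 571807) (.g (nat_lit 2574) (.e (nat_lit 475198) (nat_lit 40) (.e (nat_lit 704599) (nat_lit 6) (.e (nat_lit 188453) (nat_lit 24) (.e (nat_lit 229681) (nat_lit 244) (.e (nat_lit 163905) (nat_lit 12) (.e (nat_lit 426320) (nat_lit 12) .nil)))))) (.g (nat_lit 1) (.e (nat_lit 352959) (nat_lit 0) .nil) .nil))) 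
(.lf (nat_lit 572319) (.g (nat_lit 2235) (.e (nat_lit 483337) (nat_lit 9) (.e (nat_lit 426107) (nat_lit 1) (.e (nat_lit 164327) (nat_lit 230) (.e (nat_lit 163869) (nat_lit 2) (.e (nat_lit 196654) (nat_lit 11) .nil))))) (.g (nat_lit 0) (.e (nat_lit 354339) (nat_lit 0) .nil) .nil)))))) (.nd (nat_lit 7) (.nd (nat_lit 8) (.nd (nat_lit 9) 
(.lf (nat_lit 571487) (.g (nat_lit 1537) (.e (nat_lit 475185) (nat_lit 29) (.e (nat_lit 557101) (nat_lit 13) (.e (nat_lit 172115) (nat_lit 10) (.e (nat_lit 434244) (nat_lit 28) (.e (nat_lit 573449) (nat_lit 9) .nil))))) (.g (nat_lit 0) (.e (nat_lit 352306) (nat_lit 0) .nil) .nil))) 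
(.lf (nat_lit 571999) (.g (nat_lit 1197) (.e (nat_lit 475210) (nat_lit 41) (.e (nat_lit 712752) (nat_lit 29) (.e (nat_lit 442428) (nat_lit 24) (.e (nat_lit 229666) (nat_lit 240) .nil)))) (.g (nat_lit 0) (.e (nat_lit 353612) (nat_lit 0) .nil) .nil)))) (.nd (nat_lit 9) 
(.lf (nat_lit 571743) (.g (nat_lit 429) (.e (nat_lit 475198) (nat_lit 40) (.e (nat_lit 704589) (nat_lit 3) (.e (nat_lit 163979) (nat_lit 30) .nil))) (.g (nat_lit 0) (.e (nat_lit 352785) (nat_lit 0) .nil) .nil))) 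
(.lf (nat_lit 572255) (.g (nat_lit 2192) (.e (nat_lit 483337) (nat_lit 9) (.e (nat_lit 426100) (nat_lit 1) (.e (nat_lit 164398) (nat_lit 256) (.e (nat_lit 57375) (nat_lit 2) (.e (nat_lit 90168) (nat_lit 13) .nil))))) (.g (nat_lit 0) (.e (nat_lit 354092) (nat_lit 0) .nil) .nil))))) (.nd (nat_lit 8) (.nd (nat_lit 9) 
(.lf (nat_lit 571615) (.g (nat_lit 2296) (.e (nat_lit 475185) (nat_lit 29) (.e (nat_lit 557109) (nat_lit 15) (.e (nat_lit 188450) (nat_lit 23) (.e (nat_lit 204815) (nat_lit 17) (.e (nat_lit 6619) (nat_lit 357) .nil))))) (.g (nat_lit 0) (.e (nat_lit 352447) (nat_lit 0) .nil) .nil))) 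
(.lf (nat_lit 572127) (.g (nat_lit 713) (.e (nat_lit 483336) (nat_lit 9) (.e (nat_lit 426011) (nat_lit 0) (.e (nat_lit 2399) (nat_lit 157) .nil))) (.g (nat_lit 0) (.e (nat_lit 353871) (nat_lit 0) .nil) .nil)))) (.nd (nat_lit 9) 
(.lf (nat_lit 571871) (.g (nat_lit 2030) (.e (nat_lit 475199) (nat_lit 40) (.e (nat_lit 704589) (nat_lit 3) (.e (nat_lit 163979) (nat_lit 30) (.e (nat_lit 573491) (nat_lit 15) (.e (nat_lit 81941) (nat_lit 20) .nil))))) (.g (nat_lit 0) (.e (nat_lit 353221) (nat_lit 0) .nil) .nil))) 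
(.lf (nat_lit 572383) (.g (nat_lit 3815) (.e (nat_lit 483337) (nat_lit 9) (.e (nat_lit 426186) (nat_lit 9) (.e (nat_lit 426436) (nat_lit 18) (.e (nat_lit 98335) (nat_lit 18) (.e (nat_lit 164327) (nat_lit 230) (.e (nat_lit 163944) (nat_lit 19) .nil)))))) (.g (nat_lit 1) (.e (nat_lit 354513) (nat_lit 0) .nil) .nil))))))) (.nd (nat_lit 6) (.nd (nat_lit 7) (.nd (nat_lit 8) (.nd (nat_lit 9) 
(.lf (nat_lit 571455) (.g (nat_lit 2438) (.e (nat_lit 475185) (nat_lit 29) (.e (nat_lit 557101) (nat_lit 13) (.e (nat_lit 172097) (nat_lit 9) (.e (nat_lit 426140) (nat_lit 3) (.e (nat_lit 212736) (nat_lit 17) (.e (nat_lit 6668) (nat_lit 357) (.e (nat_lit 3062) (nat_lit 190) .nil))))))) (.g (nat_lit 1) (.e (nat_lit 352273) (nat_lit 0) .nil) .nil))) 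
(.lf (nat_lit 571967) (.g (nat_lit 2133) (.e (nat_lit 475209) (nat_lit 41) (.e (nat_lit 712752) (nat_lit 29) (.e (nat_lit 442430) (nat_lit 24) (.e (nat_lit 229680) (nat_lit 244) (.e (nat_lit 163905) (nat_lit 12) (.e (nat_lit 426320) (nat_lit 12) .nil)))))) (.g (nat_lit 1) (.e (nat_lit 353538) (nat_lit 0) .nil) .nil)))) (.nd (nat_lit 9) 
(.lf (nat_lit 571711) (.g (nat_lit 2836) (.e (nat_lit 475198) (nat_lit 40) (.e (nat_lit 704589) (nat_lit 3) (.e (nat_lit 163975) (nat_lit 30) (.e (nat_lit 573481) (nat_lit 13) (.e (nat_lit 65619) (nat_lit 10) (.e (nat_lit 344116) (nat_lit 21) (.e (nat_lit 516182) (nat_lit 15) .nil))))))) (.g (nat_lit 1) (.e (nat_lit 352673) (nat_lit 0) .nil) .nil))) 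
(.lf (nat_lit 572223) (.g (nat_lit 2428) (.e (nat_lit 483337) (nat_lit 9) (.e (nat_lit 426098) (nat_lit 1) (.e (nat_lit 164403) (nat_lit 256) (.e (nat_lit 57377) (nat_lit 3) (.e (nat_lit 98357) (nat_lit 26) .nil))))) (.g (nat_lit 0) (.e (nat_lit 354049) (nat_lit 0) .nil) .nil))))) (.nd (nat_lit 8) (.nd (nat_lit 9) 
(.lf (nat_lit 571583) (.g (nat_lit 3609) (.e (nat_lit 475185) (nat_lit 29) (.e (nat_lit 557109) (nat_lit 15) (.e (nat_lit 188434) (nat_lit 20) (.e (nat_lit 3272) (nat_lit 199) (.e (nat_lit 548897) (nat_lit 14) (.e (nat_lit 2884) (nat_lit 184) (.e (nat_lit 426317) (nat_lit 12) .nil))))))) (.g (nat_lit 1) (.e (nat_lit 352414) (nat_lit 0) .nil) .nil))) 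
(.lf (nat_lit 572095) (.g (nat_lit 2559) (.e (nat_lit 475211) (nat_lit 41) (.e (nat_lit 712755) (nat_lit 30) (.e (nat_lit 458496) (nat_lit 0) (.e (nat_lit 5546) (nat_lit 306) (.e (nat_lit 2619) (nat_lit 164) (.e (nat_lit 172119) (nat_lit 12) .nil)))))) (.g (nat_lit 1) (.e (nat_lit 353756) (nat_lit 0) .nil) .nil)))) (.nd (nat_lit 9) 
(.lf (nat_lit 571839) (.g (nat_lit 1712) (.e (nat_lit 475199) (nat_lit 40) (.e (nat_lit 704589) (nat_lit 3) (.e (nat_lit 163976) (nat_lit 30) (.e (nat_lit 573491) (nat_lit 15) (.e (nat_lit 81943) (nat_lit 20) (.e (nat_lit 1801) (nat_lit 119) (.e (nat_lit 516182) (nat_lit 15) .nil))))))) (.g (nat_lit 1) (.e (nat_lit 353100) (nat_lit 0) .nil) .nil))) 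
(.lf (nat_lit 572351) (.g (nat_lit 305) (.e (nat_lit 483337) (nat_lit 9) (.e (nat_lit 426108) (nat_lit 1) (.e (nat_lit 164332) (nat_lit 230) .nil))) (.g (nat_lit 0) (.e (nat_lit 354446) (nat_lit 0) .nil) .nil)))))) (.nd (nat_lit 7) (.nd (nat_lit 8) (.nd (nat_lit 9) 
(.lf (nat_lit 571519) (.g (nat_lit 2834) (.e (nat_lit 475185) (nat_lit 29) (.e (nat_lit 557101) (nat_lit 13) (.e (nat_lit 172126) (nat_lit 14) (.e (nat_lit 491540) (nat_lit 3) (.e (nat_lit 98363) (nat_lit 26) (.e (nat_lit 426318) (nat_lit 12) .nil)))))) (.g (nat_lit 1) (.e (nat_lit 352338) (nat_lit 0) .nil) .nil))) 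
(.lf (nat_lit 572031) (.g (nat_lit 1221) (.e (nat_lit 475211) (nat_lit 41) (.e (nat_lit 712752) (nat_lit 29) (.e (nat_lit 442421) (nat_lit 21) (.e (nat_lit 164347) (nat_lit 240) .nil)))) (.g (nat_lit 0) (.e (nat_lit 353679) (nat_lit 0) .nil) .nil)))) (.nd (nat_lit 9) 
(.lf (nat_lit 571775) (.g (nat_lit 3263) (.e (nat_lit 475198) (nat_lit 40) (.e (nat_lit 704590) (nat_lit 3) (.e (nat_lit 163975) (nat_lit 30) (.e (nat_lit 573491) (nat_lit 15) (.e (nat_lit 81954) (nat_lit 23) (.e (nat_lit 98383) (nat_lit 32) .nil)))))) (.g (nat_lit 1) (.e (nat_lit 352884) (nat_lit 0) .nil) .nil))) 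
(.lf (nat_lit 572287) (.g (nat_lit 1519) (.e (nat_lit 483337) (nat_lit 9) (.e (nat_lit 426100) (nat_lit 1) (.e (nat_lit 164403) (nat_lit 256) (.e (nat_lit 57378) (nat_lit 3) .nil)))) (.g (nat_lit 0) (.e (nat_lit 354124) (nat_lit 0) .nil) .nil))))) (.nd (nat_lit 8) (.nd (nat_lit 9) 
(.lf (nat_lit 571647) (.g (nat_lit 2074) (.e (nat_lit 483072) (nat_lit 29) (.e (nat_lit 557109) (nat_lit 15) (.e (nat_lit 188452) (nat_lit 23) (.e (nat_lit 204885) (nat_lit 33) .nil)))) (.g (nat_lit 0) (.e (nat_lit 352486) (nat_lit 0) .nil) .nil))) 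
(.lf (nat_lit 572159) (.g (nat_lit 2332) (.e (nat_lit 483336) (nat_lit 9) (.e (nat_lit 426107) (nat_lit 1) (.e (nat_lit 164322) (nat_lit 230) (.e (nat_lit 163867) (nat_lit 2) (.e (nat_lit 196656) (nat_lit 11) .nil))))) (.g (nat_lit 0) (.e (nat_lit 353922) (nat_lit 0) .nil) .nil)))) (.nd (nat_lit 9) 
(.lf (nat_lit 571903) (.g (nat_lit 3827) (.e (nat_lit 475199) (nat_lit 40) (.e (nat_lit 704598) (nat_lit 6) (.e (nat_lit 188453) (nat_lit 24) (.e (nat_lit 229678) (nat_lit 244) (.e (nat_lit 163908) (nat_lit 12) (.e (nat_lit 426312) (nat_lit 12) .nil)))))) (.g (nat_lit 1) (.e (nat_lit 353417) (nat_lit 0) .nil) .nil))) 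
(.lf (nat_lit 572415) (.g (nat_lit 3342) (.e (nat_lit 483337) (nat_lit 9) (.e (nat_lit 426308) (nat_lit 12) (.e (nat_lit 475179) (nat_lit 24) (.e (nat_lit 516117) (nat_lit 1) (.e (nat_lit 164329) (nat_lit 230) (.e (nat_lit 163941) (nat_lit 19) .nil)))))) (.g (nat_lit 1) (.e (nat_lit 354640) (nat_lit 0) .nil) .nil)))))))))))))

noncomputable def tv5619 : DT := (.nd (nat_lit 0) (.nd (nat_lit 1) (.nd (nat_lit 2) (.nd (nat_lit 3) (.nd (nat_lit 4) (.nd (nat_lit 5) (.nd (nat_lit 6) (.nd (nat_lit 7) (.nd (nat_lit 8) (.nd (nat_lit 9) 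
(.lf (nat_lit 572416) (.g (nat_lit 3075) (.e (nat_lit 483337) (nat_lit 9) (.e (nat_lit 426308) (nat_lit 12) (.e (nat_lit 475179) (nat_lit 24) (.e (nat_lit 516120) (nat_lit 1) (.e (nat_lit 164329) (nat_lit 230) (.e (nat_lit 163941) (nat_lit 19) .nil)))))) (.g (nat_lit 1) (.e (nat_lit 354647) (nat_lit 0) .nil) .nil))) 
(.lf (nat_lit 572928) (.g (nat_lit 329) (.e (nat_lit 483363) (nat_lit 18) (.e (nat_lit 57692) (nat_lit 156) (.e (nat_lit 163907) (nat_lit 12) .nil))) (.g (nat_lit 0) (.e (nat_lit 357234) (nat_lit 0) .nil) .nil)))) (.nd (nat_lit 9) 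
(.lf (nat_lit 572672) (.g (nat_lit 4115) (.e (nat_lit 483341) (nat_lit 9) (.e (nat_lit 426185) (nat_lit 9) (.e (nat_lit 426436) (nat_lit 18) (.e (nat_lit 98335) (nat_lit 18) (.e (nat_lit 164332) (nat_lit 230) (.e (nat_lit 163941) (nat_lit 19) .nil)))))) (.g (nat_lit 1) (.e (nat_lit 355302) (nat_lit 0) .nil) .nil))) 
(.lf (nat_lit 573184) (.g (nat_lit 1504) (.e (nat_lit 483364) (nat_lit 18) (.e (nat_lit 57926) (nat_lit 282) (.e (nat_lit 163874) (nat_lit 3) (.e (nat_lit 204875) (nat_lit 31) .nil)))) (.g (nat_lit 0) (.e (nat_lit 357559) (nat_lit 0) .nil) .nil))))) (.nd (nat_lit 8) (.nd (nat_lit 9) 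
(.lf (nat_lit 572544) (.g (nat_lit 1631) (.e (nat_lit 483341) (nat_lit 9) (.e (nat_lit 426098) (nat_lit 1) (.e (nat_lit 164403) (nat_lit 256) (.e (nat_lit 57378) (nat_lit 3) .nil)))) (.g (nat_lit 0) (.e (nat_lit 354997) (nat_lit 0) .nil) .nil))) 
(.lf (nat_lit 573056) (.g (nat_lit 2763) (.e (nat_lit 483363) (nat_lit 18) (.e (nat_lit 57926) (nat_lit 282) (.e (nat_lit 163875) (nat_lit 3) (.e (nat_lit 204859) (nat_lit 26) (.e (nat_lit 336118) (nat_lit 9) (.e (nat_lit 336453) (nat_lit 34) .nil)))))) (.g (nat_lit 1) (.e (nat_lit 357394) (nat_lit 0) .nil) .nil)))) (.nd (nat_lit 9) 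
(.lf (nat_lit 572800) (.g (nat_lit 313) (.e (nat_lit 483350) (nat_lit 17) (.e (nat_lit 6113) (nat_lit 332) (.e (nat_lit 1376) (nat_lit 104) .nil))) (.g (nat_lit 0) (.e (nat_lit 357042) (nat_lit 0) .nil) .nil))) 
(.lf (nat_lit 573312) (.g (nat_lit 2657) (.e (nat_lit 483365) (nat_lit 18) (.e (nat_lit 57847) (nat_lit 252) (.e (nat_lit 57365) (nat_lit 1) (.e (nat_lit 57854) (nat_lit 252) (.e (nat_lit 57389) (nat_lit 5) (.e (nat_lit 114723) (nat_lit 24) (.e (nat_lit 106506) (nat_lit 9) (.e (nat_lit 497) (nat_lit 39) .nil)))))))) (.g (nat_lit 1) (.e (nat_lit 357723) (nat_lit 0) .nil) .nil)))))) 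
(.nd (nat_lit 7) (.nd (nat_lit 8) (.nd (nat_lit 9) 
(.lf (nat_lit 572480) (.g (nat_lit 787) (.e (nat_lit 483340) (nat_lit 9) (.e (nat_lit 426100) (nat_lit 1) (.e (nat_lit 164399) (nat_lit 256) .nil))) (.g (nat_lit 0) (.e (nat_lit 354830) (nat_lit 0) .nil) .nil))) 
(.lf (nat_lit 572992) (.g (nat_lit 1536) (.e (nat_lit 483363) (nat_lit 18) (.e (nat_lit 57849) (nat_lit 252) (.e (nat_lit 57372) (nat_lit 2) (.e (nat_lit 90160) (nat_lit 11) .nil)))) (.g (nat_lit 0) (.e (nat_lit 357319) (nat_lit 0) .nil) .nil)))) (.nd (nat_lit 9) 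
(.lf (nat_lit 572736) (.g (nat_lit 519) (.e (nat_lit 491264) (nat_lit 10) (.e (nat_lit 434277) (nat_lit 39) (.e (nat_lit 663584) (nat_lit 12) (.e (nat_lit 163979) (nat_lit 30) .nil)))) (.g (nat_lit 0) (.e (nat_lit 355857) (nat_lit 0) .nil) .nil))) 
(.lf (nat_lit 573248) (.g (nat_lit 2207) (.e (nat_lit 483364) (nat_lit 18) (.e (nat_lit 57931) (nat_lit 282) (.e (nat_lit 163869) (nat_lit 2) (.e (nat_lit 196672) (nat_lit 15) (.e (nat_lit 89856) (nat_lit 18) .nil))))) (.g (nat_lit 1) (.e (nat_lit 357635) (nat_lit 0) .nil) .nil))))) (.nd (nat_lit 8) (.nd (nat_lit 9) 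
(.lf (nat_lit 572608) (.g (nat_lit 2698) (.e (nat_lit 483341) (nat_lit 9) (.e (nat_lit 426107) (nat_lit 1) (.e (nat_lit 164324) (nat_lit 230) (.e (nat_lit 163867) (nat_lit 2) (.e (nat_lit 196656) (nat_lit 11) (.e (nat_lit 16466) (nat_lit 13) .nil)))))) (.g (nat_lit 1) (.e (nat_lit 355125) (nat_lit 0) .nil) .nil))) 
(.lf (nat_lit 573120) (.g (nat_lit 2169) (.e (nat_lit 483363) (nat_lit 18) (.e (nat_lit 57931) (nat_lit 282) (.e (nat_lit 163874) (nat_lit 3) (.e (nat_lit 204876) (nat_lit 31) (.e (nat_lit 384768) (nat_lit 18) .nil))))) (.g (nat_lit 1) (.e (nat_lit 357470) (nat_lit 0) .nil) .nil)))) (.nd (nat_lit 9) 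
(.lf (nat_lit 572864) (.g (nat_lit 1986) (.e (nat_lit 483362) (nat_lit 18) (.e (nat_lit 57926) (nat_lit 282) (.e (nat_lit 163875) (nat_lit 3) (.e (nat_lit 204866) (nat_lit 28) (.e (nat_lit 360192) (nat_lit 18) .nil))))) (.g (nat_lit 0) (.e (nat_lit 357134) (nat_lit 0) .nil) .nil))) 
(.lf (nat_lit 573376) (.g (nat_lit 3564) (.e (nat_lit 483365) (nat_lit 18) (.e (nat_lit 57849) (nat_lit 252) (.e (nat_lit 57375) (nat_lit 2) (.e (nat_lit 90160) (nat_lit 11) (.e (nat_lit 24630) (nat_lit 9) (.e (nat_lit 336456) (nat_lit 34) .nil)))))) (.g (nat_lit 1) (.e (nat_lit 357806) (nat_lit 0) .nil) .nil))))))) (.nd (nat_lit 6) (.nd (nat_lit 7) (.nd (nat_lit 8) (.nd (nat_lit 9) 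
(.lf (nat_lit 572448) (.g (nat_lit 2787) (.e (nat_lit 483339) (nat_lit 9) (.e (nat_lit 426261) (nat_lit 9) (.e (nat_lit 426435) (nat_lit 18) (.e (nat_lit 98334) (nat_lit 18) (.e (nat_lit 164330) (nat_lit 230) (.e (nat_lit 163941) (nat_lit 19) .nil)))))) (.g (nat_lit 1) (.e (nat_lit 354778) (nat_lit 0) .nil) .nil))) 
(.lf (nat_lit 572960) (.g (nat_lit 870) (.e (nat_lit 483363) (nat_lit 18) (.e (nat_lit 57847) (nat_lit 252) (.e (nat_lit 57372) (nat_lit 2) (.e (nat_lit 90160) (nat_lit 11) .nil)))) (.g (nat_lit 0) (.e (nat_lit 357278) (nat_lit 0) .nil) .nil)))) (.nd (nat_lit 9) 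
(.lf (nat_lit 572704) (.g (nat_lit 2404) (.e (nat_lit 491264) (nat_lit 9) (.e (nat_lit 426098) (nat_lit 1) (.e (nat_lit 164327) (nat_lit 230) (.e (nat_lit 163868) (nat_lit 2) (.e (nat_lit 196656) (nat_lit 11) .nil))))) (.g (nat_lit 0) (.e (nat_lit 355745) (nat_lit 0) .nil) .nil))) 
(.lf (nat_lit 573216) (.g (nat_lit 2267) (.e (nat_lit 483364) (nat_lit 18) (.e (nat_lit 57927) (nat_lit 282) (.e (nat_lit 163874) (nat_lit 3) (.e (nat_lit 204861) (nat_lit 26) (.e (nat_lit 336078) (nat_lit 9) .nil))))) (.g (nat_lit 0) (.e (nat_lit 357597) (nat_lit 0) .nil) .nil))))) (.nd (nat_lit 8) (.nd (nat_lit 9) 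
(.lf (nat_lit 572576) (.g (nat_lit 2048) (.e (nat_lit 483341) (nat_lit 9) (.e (nat_lit 426100) (nat_lit 1) (.e (nat_lit 164399) (nat_lit 256) (.e (nat_lit 57372) (nat_lit 2) (.e (nat_lit 90169) (nat_lit 13) (.e (nat_lit 172121) (nat_lit 13) .nil)))))) (.g (nat_lit 1) (.e (nat_lit 355063) (nat_lit 0) .nil) .nil))) 
(.lf (nat_lit 573088) (.g (nat_lit 1962) (.e (nat_lit 483363) (nat_lit 18) (.e (nat_lit 57927) (nat_lit 282) (.e (nat_lit 163874) (nat_lit 3) (.e (nat_lit 204876) (nat_lit 31) (.e (nat_lit 384768) (nat_lit 18) .nil))))) (.g (nat_lit 1) (.e (nat_lit 357435) (nat_lit 0) .nil) .nil)))) (.nd (nat_lit 9) 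
(.lf (nat_lit 572832) (.g (nat_lit 603) (.e (nat_lit 483362) (nat_lit 18) (.e (nat_lit 57688) (nat_lit 156) (.e (nat_lit 163936) (nat_lit 18) .nil))) (.g (nat_lit 0) (.e (nat_lit 357100) (nat_lit 0) .nil) .nil))) 
(.lf (nat_lit 573344) (.g (nat_lit 2962) (.e (nat_lit 483365) (nat_lit 18) (.e (nat_lit 57848) (nat_lit 252) (.e (nat_lit 57372) (nat_lit 2) (.e (nat_lit 90159) (nat_lit 11) (.e (nat_lit 24625) (nat_lit 9) (.e (nat_lit 336454) (nat_lit 34) .nil)))))) (.g (nat_lit 1) (.e (nat_lit 357765) (nat_lit 0) .nil) .nil)))))) (.nd (nat_lit 7) (.nd (nat_lit 8) (.nd (nat_lit 9) 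
(.lf (nat_lit 572512) (.g (nat_lit 2971) (.e (nat_lit 483341) (nat_lit 9) (.e (nat_lit 426097) (nat_lit 1) (.e (nat_lit 164327) (nat_lit 230) (.e (nat_lit 163871) (nat_lit 2) (.e (nat_lit 196654) (nat_lit 11) (.e (nat_lit 16466) (nat_lit 13) .nil)))))) (.g (nat_lit 1) (.e (nat_lit 354906) (nat_lit 0) .nil) .nil))) 
(.lf (nat_lit 573024) (.g (nat_lit 1756) (.e (nat_lit 483363) (nat_lit 18) (.e (nat_lit 57854) (nat_lit 252) (.e (nat_lit 57373) (nat_lit 2) (.e (nat_lit 90160) (nat_lit 11) (.e (nat_lit 24638) (nat_lit 9) .nil))))) (.g (nat_lit 0) (.e (nat_lit 357354) (nat_lit 0) .nil) .nil)))) (.nd (nat_lit 9) 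
(.lf (nat_lit 572768) (.g (nat_lit 306) (.e (nat_lit 483343) (nat_lit 17) (.e (nat_lit 6722) (nat_lit 362) (.e (nat_lit 188160) (nat_lit 26) .nil))) (.g (nat_lit 0) (.e (nat_lit 356365) (nat_lit 0) .nil) .nil))) 
(.lf (nat_lit 573280) (.g (nat_lit 2179) (.e (nat_lit 483365) (nat_lit 18) (.e (nat_lit 57688) (nat_lit 156) (.e (nat_lit 163907) (nat_lit 12) (.e (nat_lit 426438) (nat_lit 18) (.e (nat_lit 98363) (nat_lit 26) .nil))))) (.g (nat_lit 0) (.e (nat_lit 357676) (nat_lit 0) .nil) .nil))))) (.nd (nat_lit 8) (.nd (nat_lit 9) 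
(.lf (nat_lit 572640) (.g (nat_lit 849) (.e (nat_lit 483341) (nat_lit 9) (.e (nat_lit 426108) (nat_lit 1) (.e (nat_lit 164304) (nat_lit 226) .nil))) (.g (nat_lit 0) (.e (nat_lit 355217) (nat_lit 0) .nil) .nil))) 
(.lf (nat_lit 573152) (.g (nat_lit 1996) (.e (nat_lit 483364) (nat_lit 18) (.e (nat_lit 57924) (nat_lit 282) (.e (nat_lit 163867) (nat_lit 2) (.e (nat_lit 196672) (nat_lit 15) (.e (nat_lit 89856) (nat_lit 18) .nil))))) (.g (nat_lit 1) (.e (nat_lit 357518) (nat_lit 0) .nil) .nil)))) (.nd (nat_lit 9) 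
(.lf (nat_lit 572896) (.g (nat_lit 504) (.e (nat_lit 483363) (nat_lit 18) (.e (nat_lit 57688) (nat_lit 156) (.e (nat_lit 163906) (nat_lit 12) .nil))) (.g (nat_lit 0) (.e (nat_lit 357179) (nat_lit 0) .nil) .nil))) 
(.lf (nat_lit 573408) (.g (nat_lit 2641) (.e (nat_lit 483365) (nat_lit 18) (.e (nat_lit 57854) (nat_lit 252) (.e (nat_lit 57373) (nat_lit 2) (.e (nat_lit 90156) (nat_lit 11) (.e (nat_lit 24627) (nat_lit 9) .nil))))) (.g (nat_lit 0) (.e (nat_lit 357845) (nat_lit 0) .nil) .nil)))))))) (.nd (nat_lit 5) (.nd (nat_lit 6) (.nd (nat_lit 7) (.nd (nat_lit 8) (.nd (nat_lit 9) 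
(.lf (nat_lit 572432) (.g (nat_lit 2718) (.e (nat_lit 483339) (nat_lit 9) (.e (nat_lit 426232) (nat_lit 9) (.e (nat_lit 426435) (nat_lit 18) (.e (nat_lit 98334) (nat_lit 18) (.e (nat_lit 164330) (nat_lit 230) (.e (nat_lit 163941) (nat_lit 19) .nil)))))) (.g (nat_lit 1) (.e (nat_lit 354720) (nat_lit 0) .nil) .nil))) 
(.lf (nat_lit 572944) (.g (nat_lit 3671) (.e (nat_lit 483363) (nat_lit 18) (.e (nat_lit 57847) (nat_lit 252) (.e (nat_lit 57365) (nat_lit 1) (.e (nat_lit 57854) (nat_lit 252) (.e (nat_lit 57389) (nat_lit 5) (.e (nat_lit 114723) (nat_lit 24) (.e (nat_lit 106506) (nat_lit 9) (.e (nat_lit 497) (nat_lit 39) .nil)))))))) (.g (nat_lit 1) (.e (nat_lit 357258) (nat_lit 0) .nil) .nil)))) (.nd (nat_lit 9) 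
(.lf (nat_lit 572688) (.g (nat_lit 4050) (.e (nat_lit 483341) (nat_lit 9) (.e (nat_lit 426198) (nat_lit 9) (.e (nat_lit 426436) (nat_lit 18) (.e (nat_lit 98335) (nat_lit 18) (.e (nat_lit 164330) (nat_lit 230) (.e (nat_lit 163941) (nat_lit 19) .nil)))))) (.g (nat_lit 1) (.e (nat_lit 355354) (nat_lit 0) .nil) .nil))) 
(.lf (nat_lit 573200) (.g (nat_lit 1571) (.e (nat_lit 483364) (nat_lit 18) (.e (nat_lit 57927) (nat_lit 282) (.e (nat_lit 163868) (nat_lit 2) (.e (nat_lit 196663) (nat_lit 13) (.e (nat_lit 65599) (nat_lit 9) (.e (nat_lit 343808) (nat_lit 34) .nil)))))) (.g (nat_lit 1) (.e (nat_lit 357575) (nat_lit 0) .nil) .nil))))) (.nd (nat_lit 8) (.nd (nat_lit 9) 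
(.lf (nat_lit 572560) (.g (nat_lit 4133) (.e (nat_lit 483341) (nat_lit 9) (.e (nat_lit 426100) (nat_lit 1) (.e (nat_lit 164332) (nat_lit 230) (.e (nat_lit 163869) (nat_lit 2) (.e (nat_lit 196656) (nat_lit 11) (.e (nat_lit 16465) (nat_lit 13) .nil)))))) (.g (nat_lit 1) (.e (nat_lit 355044) (nat_lit 0) .nil) .nil))) 
(.lf (nat_lit 573072) (.g (nat_lit 1967) (.e (nat_lit 483363) (nat_lit 18) (.e (nat_lit 57927) (nat_lit 282) (.e (nat_lit 163868) (nat_lit 2) (.e (nat_lit 196672) (nat_lit 15) (.e (nat_lit 89856) (nat_lit 18) .nil))))) (.g (nat_lit 1) (.e (nat_lit 357410) (nat_lit 0) .nil) .nil)))) (.nd (nat_lit 9) 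
(.lf (nat_lit 572816) (.g (nat_lit 2812) (.e (nat_lit 483354) (nat_lit 17) (.e (nat_lit 6680) (nat_lit 357) (.e (nat_lit 3090) (nat_lit 191) (.e (nat_lit 483410) (nat_lit 27) (.e (nat_lit 401459) (nat_lit 13) .nil))))) (.g (nat_lit 1) (.e (nat_lit 357076) (nat_lit 0) .nil) .nil))) 
(.lf (nat_lit 573328) (.g (nat_lit 2803) (.e (nat_lit 483365) (nat_lit 18) (.e (nat_lit 57847) (nat_lit 252) (.e (nat_lit 57373) (nat_lit 2) (.e (nat_lit 90160) (nat_lit 11) (.e (nat_lit 24630) (nat_lit 9) (.e (nat_lit 336456) (nat_lit 34) .nil)))))) (.g (nat_lit 1) (.e (nat_lit 357745) (nat_lit 0) .nil) .nil)))))) (.nd (nat_lit 7) (.nd (nat_lit 8) (.nd (nat_lit 9) 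
(.lf (nat_lit 572496) (.g (nat_lit 2608) (.e (nat_lit 483340) (nat_lit 9) (.e (nat_lit 426108) (nat_lit 1) (.e (nat_lit 164330) (nat_lit 230) (.e (nat_lit 163869) (nat_lit 2) (.e (nat_lit 196656) (nat_lit 11) .nil))))) (.g (nat_lit 0) (.e (nat_lit 354860) (nat_lit 0) .nil) .nil))) 
(.lf (nat_lit 573008) (.g (nat_lit 3484) (.e (nat_lit 483363) (nat_lit 18) (.e (nat_lit 57854) (nat_lit 252) (.e (nat_lit 57371) (nat_lit 2) (.e (nat_lit 90160) (nat_lit 11) (.e (nat_lit 24628) (nat_lit 9) (.e (nat_lit 336454) (nat_lit 34) .nil)))))) (.g (nat_lit 1) (.e (nat_lit 357338) (nat_lit 0) .nil) .nil)))) (.nd (nat_lit 9) 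
(.lf (nat_lit 572752) (.g (nat_lit 350) (.e (nat_lit 491264) (nat_lit 16) (.e (nat_lit 491566) (nat_lit 12) (.e (nat_lit 392960) (nat_lit 24) .nil))) (.g (nat_lit 0) (.e (nat_lit 356301) (nat_lit 0) .nil) .nil))) 
(.lf (nat_lit 573264) (.g (nat_lit 2202) (.e (nat_lit 483364) (nat_lit 18) (.e (nat_lit 57931) (nat_lit 282) (.e (nat_lit 163874) (nat_lit 3) (.e (nat_lit 204866) (nat_lit 28) (.e (nat_lit 360192) (nat_lit 18) .nil))))) (.g (nat_lit 0) (.e (nat_lit 357651) (nat_lit 0) .nil) .nil))))) (.nd (nat_lit 8) (.nd (nat_lit 9) 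
(.lf (nat_lit 572624) (.g (nat_lit 1405) (.e (nat_lit 483341) (nat_lit 9) (.e (nat_lit 426107) (nat_lit 1) (.e (nat_lit 164327) (nat_lit 230) (.e (nat_lit 163870) (nat_lit 2) .nil)))) (.g (nat_lit 0) (.e (nat_lit 355180) (nat_lit 0) .nil) .nil))) 
(.lf (nat_lit 573136) (.g (nat_lit 2628) (.e (nat_lit 483364) (nat_lit 18) (.e (nat_lit 57853) (nat_lit 252) (.e (nat_lit 57371) (nat_lit 2) (.e (nat_lit 90160) (nat_lit 11) (.e (nat_lit 24627) (nat_lit 9) .nil))))) (.g (nat_lit 0) (.e (nat_lit 357493) (nat_lit 0) .nil) .nil)))) (.nd (nat_lit 9) 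
(.lf (nat_lit 572880) (.g (nat_lit 2986) (.e (nat_lit 483363) (nat_lit 18) (.e (nat_lit 57686) (nat_lit 156) (.e (nat_lit 163903) (nat_lit 12) (.e (nat_lit 426438) (nat_lit 18) (.e (nat_lit 98363) (nat_lit 26) (.e (nat_lit 426321) (nat_lit 13) .nil)))))) (.g (nat_lit 1) (.e (nat_lit 357156) (nat_lit 0) .nil) .nil))) 
(.lf (nat_lit 573392) (.g (nat_lit 2687) (.e (nat_lit 483365) (nat_lit 18) (.e (nat_lit 57852) (nat_lit 252) (.e (nat_lit 57371) (nat_lit 2) (.e (nat_lit 90160) (nat_lit 11) (.e (nat_lit 24630) (nat_lit 9) (.e (nat_lit 336456) (nat_lit 34) .nil)))))) (.g (nat_lit 1) (.e (nat_lit 357825) (nat_lit 0) .nil) .nil))))))) (.nd (nat_lit 6) (.nd (nat_lit 7) (.nd (nat_lit 8) (.nd (nat_lit 9) 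
(.lf (nat_lit 572464) (.g (nat_lit 1662) (.e (nat_lit 483340) (nat_lit 9) (.e (nat_lit 426098) (nat_lit 1) (.e (nat_lit 164325) (nat_lit 230) (.e (nat_lit 163868) (nat_lit 2) .nil)))) (.g (nat_lit 0) (.e (nat_lit 354807) (nat_lit 0) .nil) .nil))) 
(.lf (nat_lit 572976) (.g (nat_lit 2338) (.e (nat_lit 483363) (nat_lit 18) (.e (nat_lit 57847) (nat_lit 252) (.e (nat_lit 57375) (nat_lit 2) (.e (nat_lit 90160) (nat_lit 11) (.e (nat_lit 24625) (nat_lit 9) (.e (nat_lit 336455) (nat_lit 34) .nil)))))) (.g (nat_lit 1) (.e (nat_lit 357303) (nat_lit 0) .nil) .nil)))) (.nd (nat_lit 9) 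
(.lf (nat_lit 572720) (.g (nat_lit 1479) (.e (nat_lit 491264) (nat_lit 9) (.e (nat_lit 426318) (nat_lit 12) (.e (nat_lit 475179) (nat_lit 24) (.e (nat_lit 516120) (nat_lit 1) (.e (nat_lit 164329) (nat_lit 230) .nil))))) (.g (nat_lit 0) (.e (nat_lit 355815) (nat_lit 0) .nil) .nil))) 
(.lf (nat_lit 573232) (.g (nat_lit 1522) (.e (nat_lit 483364) (nat_lit 18) (.e (nat_lit 57928) (nat_lit 282) (.e (nat_lit 163875) (nat_lit 3) (.e (nat_lit 204865) (nat_lit 28) (.e (nat_lit 360192) (nat_lit 18) .nil))))) (.g (nat_lit 1) (.e (nat_lit 357615) (nat_lit 0) .nil) .nil))))) (.nd (nat_lit 8) (.nd (nat_lit 9) 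
(.lf (nat_lit 572592) (.g (nat_lit 1212) (.e (nat_lit 483341) (nat_lit 9) (.e (nat_lit 426105) (nat_lit 1) (.e (nat_lit 164330) (nat_lit 230) (.e (nat_lit 163869) (nat_lit 2) .nil)))) (.g (nat_lit 0) (.e (nat_lit 355082) (nat_lit 0) .nil) .nil))) 
(.lf (nat_lit 573104) (.g (nat_lit 2643) (.e (nat_lit 483363) (nat_lit 18) (.e (nat_lit 57930) (nat_lit 282) (.e (nat_lit 163867) (nat_lit 2) (.e (nat_lit 196672) (nat_lit 15) (.e (nat_lit 89856) (nat_lit 18) .nil))))) (.g (nat_lit 1) (.e (nat_lit 357451) (nat_lit 0) .nil) .nil)))) (.nd (nat_lit 9) 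
(.lf (nat_lit 572848) (.g (nat_lit 2364) (.e (nat_lit 483362) (nat_lit 18) (.e (nat_lit 57854) (nat_lit 252) (.e (nat_lit 57373) (nat_lit 2) (.e (nat_lit 90160) (nat_lit 11) .nil)))) (.g (nat_lit 0) (.e (nat_lit 357116) (nat_lit 0) .nil) .nil))) 
(.lf (nat_lit 573360) (.g (nat_lit 2002) (.e (nat_lit 483365) (nat_lit 18) (.e (nat_lit 57849) (nat_lit 252) (.e (nat_lit 57365) (nat_lit 1) (.e (nat_lit 57854) (nat_lit 252) (.e (nat_lit 57389) (nat_lit 5) (.e (nat_lit 114723) (nat_lit 24) (.e (nat_lit 106507) (nat_lit 9) (.e (nat_lit 492) (nat_lit 39) .nil)))))))) (.g (nat_lit 1) (.e (nat_lit 357783) (nat_lit 0) .nil) .nil)))))) 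
(.nd (nat_lit 7) (.nd (nat_lit 8) (.nd (nat_lit 9) 
(.lf (nat_lit 572528) (.g (nat_lit 2317) (.e (nat_lit 483341) (nat_lit 9) (.e (nat_lit 426098) (nat_lit 1) (.e (nat_lit 164398) (nat_lit 256) (.e (nat_lit 57373) (nat_lit 2) (.e (nat_lit 90170) (nat_lit 13) .nil))))) (.g (nat_lit 0) (.e (nat_lit 354980) (nat_lit 0) .nil) .nil))) 
(.lf (nat_lit 573040) (.g (nat_lit 2454) (.e (nat_lit 483363) (nat_lit 18) (.e (nat_lit 57926) (nat_lit 282) (.e (nat_lit 163871) (nat_lit 2) (.e (nat_lit 196672) (nat_lit 15) (.e (nat_lit 89856) (nat_lit 18) .nil))))) (.g (nat_lit 1) (.e (nat_lit 357377) (nat_lit 0) .nil) .nil)))) (.nd (nat_lit 9) 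
(.lf (nat_lit 572784) (.g (nat_lit 3262) (.e (nat_lit 483346) (nat_lit 17) (.e (nat_lit 6720) (nat_lit 361) (.e (nat_lit 172150) (nat_lit 27) (.e (nat_lit 336232) (nat_lit 14) (.e (nat_lit 401456) (nat_lit 13) .nil))))) (.g (nat_lit 1) (.e (nat_lit 356845) (nat_lit 0) .nil) .nil))) 
(.lf (nat_lit 573296) (.g (nat_lit 2164) (.e (nat_lit 483365) (nat_lit 18) (.e (nat_lit 57846) (nat_lit 252) (.e (nat_lit 57372) (nat_lit 2) (.e (nat_lit 90160) (nat_lit 11) (.e (nat_lit 24636) (nat_lit 9) (.e (nat_lit 343808) (nat_lit 34) .nil)))))) (.g (nat_lit 1) (.e (nat_lit 357707) (nat_lit 0) .nil) .nil))))) (.nd (nat_lit 8) (.nd (nat_lit 9) 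
(.lf (nat_lit 572656) (.g (nat_lit 397) (.e (nat_lit 483341) (nat_lit 9) (.e (nat_lit 426108) (nat_lit 1) (.e (nat_lit 164332) (nat_lit 230) .nil))) (.g (nat_lit 0) (.e (nat_lit 355265) (nat_lit 0) .nil) .nil))) 
(.lf (nat_lit 573168) (.g (nat_lit 2072) (.e (nat_lit 483364) (nat_lit 18) (.e (nat_lit 57926) (nat_lit 282) (.e (nat_lit 163868) (nat_lit 2) (.e (nat_lit 196674) (nat_lit 15) (.e (nat_lit 89856) (nat_lit 18) .nil))))) (.g (nat_lit 0) (.e (nat_lit 357535) (nat_lit 0) .nil) .nil)))) (.nd (nat_lit 9) 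
(.lf (nat_lit 572912) (.g (nat_lit 377) (.e (nat_lit 483363) (nat_lit 18) (.e (nat_lit 57691) (nat_lit 156) (.e (nat_lit 163907) (nat_lit 12) .nil))) (.g (nat_lit 0) (.e (nat_lit 357211) (nat_lit 0) .nil) .nil))) 
(.lf (nat_lit 573424) (.g (nat_lit 2164) (.e (nat_lit 483365) (nat_lit 18) (.e (nat_lit 57929) (nat_lit 282) (.e (nat_lit 163869) (nat_lit 2) (.e (nat_lit 196674) (nat_lit 15) (.e (nat_lit 89856) (nat_lit 18) .nil))))) (.g (nat_lit 1) (.e (nat_lit 357866) (nat_lit 0) .nil) .nil))))))))) (.nd (nat_lit 4) (.nd (nat_lit 5) (.nd (nat_lit 6) (.nd (nat_lit 7) (.nd (nat_lit 8) (.nd (nat_lit 9) 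
(.lf (nat_lit 572424) (.g (nat_lit 2053) (.e (nat_lit 483338) (nat_lit 9) (.e (nat_lit 426228) (nat_lit 9) (.e (nat_lit 426435) (nat_lit 18) (.e (nat_lit 98334) (nat_lit 18) (.e (nat_lit 164332) (nat_lit 230) (.e (nat_lit 163943) (nat_lit 19) .nil)))))) (.g (nat_lit 1) (.e (nat_lit 354694) (nat_lit 0) .nil) .nil))) 
(.lf (nat_lit 572936) (.g (nat_lit 629) (.e (nat_lit 483363) (nat_lit 18) (.e (nat_lit 57847) (nat_lit 252) (.e (nat_lit 57365) (nat_lit 1) .nil))) (.g (nat_lit 0) (.e (nat_lit 357245) (nat_lit 0) .nil) .nil)))) (.nd (nat_lit 9) 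
(.lf (nat_lit 572680) (.g (nat_lit 4357) (.e (nat_lit 483341) (nat_lit 9) (.e (nat_lit 426196) (nat_lit 9) (.e (nat_lit 426436) (nat_lit 18) (.e (nat_lit 98335) (nat_lit 18) (.e (nat_lit 164326) (nat_lit 230) (.e (nat_lit 163941) (nat_lit 19) .nil)))))) (.g (nat_lit 1) (.e (nat_lit 355333) (nat_lit 0) .nil) .nil))) 
(.lf (nat_lit 573192) (.g (nat_lit 1841) (.e (nat_lit 483364) (nat_lit 18) (.e (nat_lit 57926) (nat_lit 282) (.e (nat_lit 163875) (nat_lit 3) (.e (nat_lit 204876) (nat_lit 31) (.e (nat_lit 384768) (nat_lit 18) .nil))))) (.g (nat_lit 1) (.e (nat_lit 357567) (nat_lit 0) .nil) .nil))))) (.nd (nat_lit 8) (.nd (nat_lit 9) 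
(.lf (nat_lit 572552) (.g (nat_lit 4034) (.e (nat_lit 483341) (nat_lit 9) (.e (nat_lit 426100) (nat_lit 1) (.e (nat_lit 164330) (nat_lit 230) (.e (nat_lit 163869) (nat_lit 2) (.e (nat_lit 196655) (nat_lit 11) (.e (nat_lit 16465) (nat_lit 13) .nil)))))) (.g (nat_lit 1) (.e (nat_lit 355021) (nat_lit 0) .nil) .nil))) 
(.lf (nat_lit 573064) (.g (nat_lit 1797) (.e (nat_lit 483363) (nat_lit 18) (.e (nat_lit 57926) (nat_lit 282) (.e (nat_lit 163875) (nat_lit 3) (.e (nat_lit 204878) (nat_lit 31) (.e (nat_lit 384768) (nat_lit 18) .nil))))) (.g (nat_lit 0) (.e (nat_lit 357402) (nat_lit 0) .nil) .nil)))) (.nd (nat_lit 9) 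
(.lf (nat_lit 572808) (.g (nat_lit 842) (.e (nat_lit 483350) (nat_lit 17) (.e (nat_lit 6666) (nat_lit 357) (.e (nat_lit 2857) (nat_lit 184) (.e (nat_lit 426533) (nat_lit 28) .nil)))) (.g (nat_lit 0) (.e (nat_lit 357055) (nat_lit 0) .nil) .nil))) 
(.lf (nat_lit 573320) (.g (nat_lit 3331) (.e (nat_lit 483365) (nat_lit 18) (.e (nat_lit 57847) (nat_lit 252) (.e (nat_lit 57371) (nat_lit 2) (.e (nat_lit 90160) (nat_lit 11) (.e (nat_lit 24627) (nat_lit 9) (.e (nat_lit 336454) (nat_lit 34) .nil)))))) (.g (nat_lit 1) (.e (nat_lit 357733) (nat_lit 0) .nil) .nil)))))) (.nd (nat_lit 7) (.nd (nat_lit 8) (.nd (nat_lit 9) 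
(.lf (nat_lit 572488) (.g (nat_lit 2083) (.e (nat_lit 483340) (nat_lit 9) (.e (nat_lit 426100) (nat_lit 1) (.e (nat_lit 164403) (nat_lit 256) (.e (nat_lit 57378) (nat_lit 3) .nil)))) (.g (nat_lit 0) (.e (nat_lit 354838) (nat_lit 0) .nil) .nil))) 
(.lf (nat_lit 573000) (.g (nat_lit 1562) (.e (nat_lit 483363) (nat_lit 18) (.e (nat_lit 57849) (nat_lit 252) (.e (nat_lit 57379) (nat_lit 3) (.e (nat_lit 98312) (nat_lit 9) (.e (nat_lit 336077) (nat_lit 9) .nil))))) (.g (nat_lit 0) (.e (nat_lit 357329) (nat_lit 0) .nil) .nil)))) (.nd (nat_lit 9) 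
(.lf (nat_lit 572744) (.g (nat_lit 2472) (.e (nat_lit 491264) (nat_lit 15) (.e (nat_lit 475199) (nat_lit 40) (.e (nat_lit 704589) (nat_lit 3) (.e (nat_lit 163950) (nat_lit 21) .nil)))) (.g (nat_lit 0) (.e (nat_lit 356266) (nat_lit 0) .nil) .nil))) 
(.lf (nat_lit 573256) (.g (nat_lit 2053) (.e (nat_lit 483364) (nat_lit 18) (.e (nat_lit 57931) (nat_lit 282) (.e (nat_lit 163873) (nat_lit 3) (.e (nat_lit 204861) (nat_lit 26) (.e (nat_lit 336078) (nat_lit 9) .nil))))) (.g (nat_lit 0) (.e (nat_lit 357643) (nat_lit 0) .nil) .nil))))) (.nd (nat_lit 8) (.nd (nat_lit 9) 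
(.lf (nat_lit 572616) (.g (nat_lit 2721) (.e (nat_lit 483341) (nat_lit 9) (.e (nat_lit 426107) (nat_lit 1) (.e (nat_lit 164326) (nat_lit 230) (.e (nat_lit 163869) (nat_lit 2) (.e (nat_lit 196654) (nat_lit 11) (.e (nat_lit 16466) (nat_lit 13) .nil)))))) (.g (nat_lit 1) (.e (nat_lit 355163) (nat_lit 0) .nil) .nil))) 
(.lf (nat_lit 573128) (.g (nat_lit 1989) (.e (nat_lit 483364) (nat_lit 18) (.e (nat_lit 57852) (nat_lit 252) (.e (nat_lit 57371) (nat_lit 2) (.e (nat_lit 90160) (nat_lit 11) (.e (nat_lit 24628) (nat_lit 9) .nil))))) (.g (nat_lit 0) (.e (nat_lit 357483) (nat_lit 0) .nil) .nil)))) (.nd (nat_lit 9) 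
(.lf (nat_lit 572872) (.g (nat_lit 1434) (.e (nat_lit 483362) (nat_lit 18) (.e (nat_lit 57931) (nat_lit 282) (.e (nat_lit 163869) (nat_lit 2) (.e (nat_lit 196672) (nat_lit 15) .nil)))) (.g (nat_lit 0) (.e (nat_lit 357144) (nat_lit 0) .nil) .nil))) 
(.lf (nat_lit 573384) (.g (nat_lit 1587) (.e (nat_lit 483365) (nat_lit 18) (.e (nat_lit 57849) (nat_lit 252) (.e (nat_lit 57379) (nat_lit 3) (.e (nat_lit 98316) (nat_lit 9) .nil)))) (.g (nat_lit 0) (.e (nat_lit 357814) (nat_lit 0) .nil) .nil))))))) (.nd (nat_lit 6) (.nd (nat_lit 7) (.nd (nat_lit 8) (.nd (nat_lit 9) 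
(.lf (nat_lit 572456) (.g (nat_lit 1922) (.e (nat_lit 483339) (nat_lit 9) (.e (nat_lit 426262) (nat_lit 9) (.e (nat_lit 426435) (nat_lit 18) (.e (nat_lit 98335) (nat_lit 18) (.e (nat_lit 164325) (nat_lit 230) (.e (nat_lit 163944) (nat_lit 19) .nil)))))) (.g (nat_lit 1) (.e (nat_lit 354795) (nat_lit 0) .nil) .nil))) 
(.lf (nat_lit 572968) (.g (nat_lit 1365) (.e (nat_lit 483363) (nat_lit 18) (.e (nat_lit 57847) (nat_lit 252) (.e (nat_lit 57373) (nat_lit 2) (.e (nat_lit 90160) (nat_lit 11) .nil)))) (.g (nat_lit 0) (.e (nat_lit 357291) (nat_lit 0) .nil) .nil)))) (.nd (nat_lit 9) 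
(.lf (nat_lit 572712) (.g (nat_lit 2228) (.e (nat_lit 491264) (nat_lit 9) (.e (nat_lit 426100) (nat_lit 1) (.e (nat_lit 164332) (nat_lit 230) (.e (nat_lit 163869) (nat_lit 2) (.e (nat_lit 196654) (nat_lit 11) .nil))))) (.g (nat_lit 0) (.e (nat_lit 355763) (nat_lit 0) .nil) .nil))) 
(.lf (nat_lit 573224) (.g (nat_lit 1788) (.e (nat_lit 483364) (nat_lit 18) (.e (nat_lit 57927) (nat_lit 282) (.e (nat_lit 163875) (nat_lit 3) (.e (nat_lit 204865) (nat_lit 28) (.e (nat_lit 360192) (nat_lit 18) .nil))))) (.g (nat_lit 1) (.e (nat_lit 357606) (nat_lit 0) .nil) .nil))))) (.nd (nat_lit 8) (.nd (nat_lit 9) 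
(.lf (nat_lit 572584) (.g (nat_lit 2623) (.e (nat_lit 483341) (nat_lit 9) (.e (nat_lit 426100) (nat_lit 1) (.e (nat_lit 164403) (nat_lit 256) (.e (nat_lit 57373) (nat_lit 2) (.e (nat_lit 90169) (nat_lit 13) .nil))))) (.g (nat_lit 0) (.e (nat_lit 355071) (nat_lit 0) .nil) .nil))) 
(.lf (nat_lit 573096) (.g (nat_lit 1804) (.e (nat_lit 483363) (nat_lit 18) (.e (nat_lit 57927) (nat_lit 282) (.e (nat_lit 163875) (nat_lit 3) (.e (nat_lit 204877) (nat_lit 31) (.e (nat_lit 384768) (nat_lit 18) .nil))))) (.g (nat_lit 1) (.e (nat_lit 357443) (nat_lit 0) .nil) .nil)))) (.nd (nat_lit 9) 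
(.lf (nat_lit 572840) (.g (nat_lit 794) (.e (nat_lit 483362) (nat_lit 18) (.e (nat_lit 57847) (nat_lit 252) (.e (nat_lit 57372) (nat_lit 2) .nil))) (.g (nat_lit 0) (.e (nat_lit 357108) (nat_lit 0) .nil) .nil))) 
(.lf (nat_lit 573352) (.g (nat_lit 3431) (.e (nat_lit 483365) (nat_lit 18) (.e (nat_lit 57848) (nat_lit 252) (.e (nat_lit 57374) (nat_lit 2) (.e (nat_lit 90158) (nat_lit 11) (.e (nat_lit 24628) (nat_lit 9) (.e (nat_lit 336454) (nat_lit 34) .nil)))))) (.g (nat_lit 1) (.e (nat_lit 357774) (nat_lit 0) .nil) .nil)))))) (.nd (nat_lit 7) (.nd (nat_lit 8) (.nd (nat_lit 9) 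
(.lf (nat_lit 572520) (.g (nat_lit 1900) (.e (nat_lit 483341) (nat_lit 9) (.e (nat_lit 426098) (nat_lit 1) (.e (nat_lit 164330) (nat_lit 230) (.e (nat_lit 163867) (nat_lit 2) .nil)))) (.g (nat_lit 0) (.e (nat_lit 354944) (nat_lit 0) .nil) .nil))) 
(.lf (nat_lit 573032) (.g (nat_lit 1786) (.e (nat_lit 483363) (nat_lit 18) (.e (nat_lit 57925) (nat_lit 282) (.e (nat_lit 163875) (nat_lit 3) (.e (nat_lit 204865) (nat_lit 28) (.e (nat_lit 360192) (nat_lit 18) .nil))))) (.g (nat_lit 1) (.e (nat_lit 357364) (nat_lit 0) .nil) .nil)))) (.nd (nat_lit 9) 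
(.lf (nat_lit 572776) (.g (nat_lit 200) (.e (nat_lit 483345) (nat_lit 17) (.e (nat_lit 6720) (nat_lit 361) (.e (nat_lit 172149) (nat_lit 27) .nil))) (.g (nat_lit 0) (.e (nat_lit 356538) (nat_lit 0) .nil) .nil))) 
(.lf (nat_lit 573288) (.g (nat_lit 3501) (.e (nat_lit 483365) (nat_lit 18) (.e (nat_lit 57692) (nat_lit 156) (.e (nat_lit 163907) (nat_lit 12) (.e (nat_lit 426428) (nat_lit 17) (.e (nat_lit 90170) (nat_lit 13) (.e (nat_lit 172123) (nat_lit 13) .nil)))))) (.g (nat_lit 1) (.e (nat_lit 357689) (nat_lit 0) .nil) .nil))))) (.nd (nat_lit 8) (.nd (nat_lit 9) 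
(.lf (nat_lit 572648) (.g (nat_lit 398) (.e (nat_lit 483341) (nat_lit 9) (.e (nat_lit 426108) (nat_lit 1) (.e (nat_lit 164330) (nat_lit 230) .nil))) (.g (nat_lit 0) (.e (nat_lit 355233) (nat_lit 0) .nil) .nil))) 
(.lf (nat_lit 573160) (.g (nat_lit 1622) (.e (nat_lit 483364) (nat_lit 18) (.e (nat_lit 57925) (nat_lit 282) (.e (nat_lit 163875) (nat_lit 3) (.e (nat_lit 204865) (nat_lit 28) (.e (nat_lit 360192) (nat_lit 18) .nil))))) (.g (nat_lit 1) (.e (nat_lit 357526) (nat_lit 0) .nil) .nil)))) (.nd (nat_lit 9) 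
(.lf (nat_lit 572904) (.g (nat_lit 2138) (.e (nat_lit 483363) (nat_lit 18) (.e (nat_lit 57688) (nat_lit 156) (.e (nat_lit 163907) (nat_lit 12) (.e (nat_lit 426438) (nat_lit 18) (.e (nat_lit 98365) (nat_lit 26) .nil))))) (.g (nat_lit 0) (.e (nat_lit 357190) (nat_lit 0) .nil) .nil))) 
(.lf (nat_lit 573416) (.g (nat_lit 1766) (.e (nat_lit 483365) (nat_lit 18) (.e (nat_lit 57924) (nat_lit 282) (.e (nat_lit 163868) (nat_lit 2) (.e (nat_lit 196672) (nat_lit 15) (.e (nat_lit 89856) (nat_lit 18) .nil))))) (.g (nat_lit 1) (.e (nat_lit 357857) (nat_lit 0) .nil) .nil)))))))) (.nd (nat_lit 5) (.nd (nat_lit 6) (.nd (nat_lit 7) (.nd (nat_lit 8) (.nd (nat_lit 9) 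
(.lf (nat_lit 572440) (.g (nat_lit 2505) (.e (nat_lit 483339) (nat_lit 9) (.e (nat_lit 426259) (nat_lit 9) (.e (nat_lit 426435) (nat_lit 18) (.e (nat_lit 98335) (nat_lit 18) (.e (nat_lit 164330) (nat_lit 230) (.e (nat_lit 163941) (nat_lit 19) .nil)))))) (.g (nat_lit 1) (.e (nat_lit 354749) (nat_lit 0) .nil) .nil))) 
(.lf (nat_lit 572952) (.g (nat_lit 2547) (.e (nat_lit 483363) (nat_lit 18) (.e (nat_lit 57847) (nat_lit 252) (.e (nat_lit 57368) (nat_lit 1) (.e (nat_lit 57854) (nat_lit 252) (.e (nat_lit 57389) (nat_lit 5) (.e (nat_lit 114723) (nat_lit 24) (.e (nat_lit 106507) (nat_lit 9) (.e (nat_lit 490) (nat_lit 39) .nil)))))))) (.g (nat_lit 1) (.e (nat_lit 357270) (nat_lit 0) .nil) .nil)))) (.nd (nat_lit 9) 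
(.lf (nat_lit 572696) (.g (nat_lit 1170) (.e (nat_lit 483341) (nat_lit 9) (.e (nat_lit 426204) (nat_lit 9) (.e (nat_lit 426412) (nat_lit 15) (.e (nat_lit 1800) (nat_lit 119) .nil)))) (.g (nat_lit 0) (.e (nat_lit 355516) (nat_lit 0) .nil) .nil))) 
(.lf (nat_lit 573208) (.g (nat_lit 1774) (.e (nat_lit 483364) (nat_lit 18) (.e (nat_lit 57927) (nat_lit 282) (.e (nat_lit 163871) (nat_lit 2) (.e (nat_lit 196673) (nat_lit 15) (.e (nat_lit 89856) (nat_lit 18) .nil))))) (.g (nat_lit 0) (.e (nat_lit 357589) (nat_lit 0) .nil) .nil))))) (.nd (nat_lit 8) (.nd (nat_lit 9) 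
(.lf (nat_lit 572568) (.g (nat_lit 2425) (.e (nat_lit 483341) (nat_lit 9) (.e (nat_lit 426100) (nat_lit 1) (.e (nat_lit 164398) (nat_lit 256) (.e (nat_lit 57378) (nat_lit 3) (.e (nat_lit 98356) (nat_lit 26) .nil))))) (.g (nat_lit 0) (.e (nat_lit 355055) (nat_lit 0) .nil) .nil))) 
(.lf (nat_lit 573080) (.g (nat_lit 2304) (.e (nat_lit 483363) (nat_lit 18) (.e (nat_lit 57927) (nat_lit 282) (.e (nat_lit 163873) (nat_lit 3) (.e (nat_lit 204865) (nat_lit 28) (.e (nat_lit 360192) (nat_lit 18) .nil))))) (.g (nat_lit 1) (.e (nat_lit 357426) (nat_lit 0) .nil) .nil)))) (.nd (nat_lit 9) 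
(.lf (nat_lit 572824) (.g (nat_lit 979) (.e (nat_lit 491264) (nat_lit 17) (.e (nat_lit 6722) (nat_lit 362) (.e (nat_lit 180272) (nat_lit 26) (.e (nat_lit 704736) (nat_lit 11) (.e (nat_lit 16465) (nat_lit 13) .nil))))) (.g (nat_lit 0) (.e (nat_lit 357091) (nat_lit 0) .nil) .nil))) 
(.lf (nat_lit 573336) (.g (nat_lit 2106) (.e (nat_lit 483365) (nat_lit 18) (.e (nat_lit 57848) (nat_lit 252) (.e (nat_lit 57369) (nat_lit 2) (.e (nat_lit 90158) (nat_lit 11) (.e (nat_lit 24628) (nat_lit 9) (.e (nat_lit 336454) (nat_lit 34) .nil)))))) (.g (nat_lit 1) (.e (nat_lit 357756) (nat_lit 0) .nil) .nil)))))) (.nd (nat_lit 7) (.nd (nat_lit 8) (.nd (nat_lit 9) 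
(.lf (nat_lit 572504) (.g (nat_lit 3007) (.e (nat_lit 483340) (nat_lit 9) (.e (nat_lit 426187) (nat_lit 9) (.e (nat_lit 426436) (nat_lit 18) (.e (nat_lit 98335) (nat_lit 18) (.e (nat_lit 164330) (nat_lit 230) (.e (nat_lit 163941) (nat_lit 19) .nil)))))) (.g (nat_lit 1) (.e (nat_lit 354874) (nat_lit 0) .nil) .nil))) 
(.lf (nat_lit 573016) (.g (nat_lit 2408) (.e (nat_lit 483363) (nat_lit 18) (.e (nat_lit 57854) (nat_lit 252) (.e (nat_lit 57373) (nat_lit 2) (.e (nat_lit 90156) (nat_lit 11) .nil)))) (.g (nat_lit 0) (.e (nat_lit 357346) (nat_lit 0) .nil) .nil)))) (.nd (nat_lit 9) 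
(.lf (nat_lit 572760) (.g (nat_lit 231) (.e (nat_lit 483342) (nat_lit 17) (.e (nat_lit 6720) (nat_lit 361) (.e (nat_lit 172149) (nat_lit 27) .nil))) (.g (nat_lit 0) (.e (nat_lit 356313) (nat_lit 0) .nil) .nil))) 
(.lf (nat_lit 573272) (.g (nat_lit 1553) (.e (nat_lit 483365) (nat_lit 18) (.e (nat_lit 57687) (nat_lit 156) (.e (nat_lit 163907) (nat_lit 12) (.e (nat_lit 426428) (nat_lit 17) .nil)))) (.g (nat_lit 0) (.e (nat_lit 357662) (nat_lit 0) .nil) .nil))))) (.nd (nat_lit 8) (.nd (nat_lit 9) 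
(.lf (nat_lit 572632) (.g (nat_lit 4422) (.e (nat_lit 483341) (nat_lit 9) (.e (nat_lit 426107) (nat_lit 1) (.e (nat_lit 164332) (nat_lit 230) (.e (nat_lit 163869) (nat_lit 2) (.e (nat_lit 196656) (nat_lit 11) (.e (nat_lit 16463) (nat_lit 13) .nil)))))) (.g (nat_lit 1) (.e (nat_lit 355207) (nat_lit 0) .nil) .nil))) 
(.lf (nat_lit 573144) (.g (nat_lit 2595) (.e (nat_lit 483364) (nat_lit 18) (.e (nat_lit 57854) (nat_lit 252) (.e (nat_lit 57373) (nat_lit 2) (.e (nat_lit 90160) (nat_lit 11) (.e (nat_lit 24628) (nat_lit 9) (.e (nat_lit 336455) (nat_lit 34) .nil)))))) (.g (nat_lit 1) (.e (nat_lit 357508) (nat_lit 0) .nil) .nil)))) (.nd (nat_lit 9) 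
(.lf (nat_lit 572888) (.g (nat_lit 395) (.e (nat_lit 483363) (nat_lit 18) (.e (nat_lit 57688) (nat_lit 156) (.e (nat_lit 163903) (nat_lit 12) .nil))) (.g (nat_lit 0) (.e (nat_lit 357167) (nat_lit 0) .nil) .nil))) 
(.lf (nat_lit 573400) (.g (nat_lit 2699) (.e (nat_lit 483365) (nat_lit 18) (.e (nat_lit 57853) (nat_lit 252) (.e (nat_lit 57371) (nat_lit 2) (.e (nat_lit 90160) (nat_lit 11) (.e (nat_lit 24630) (nat_lit 9) (.e (nat_lit 336456) (nat_lit 34) .nil)))))) (.g (nat_lit 1) (.e (nat_lit 357833) (nat_lit 0) .nil) .nil))))))) (.nd (nat_lit 6) (.nd (nat_lit 7) (.nd (nat_lit 8) (.nd (nat_lit 9) 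
(.lf (nat_lit 572472) (.g (nat_lit 4055) (.e (nat_lit 483340) (nat_lit 9) (.e (nat_lit 426100) (nat_lit 1) (.e (nat_lit 164332) (nat_lit 230) (.e (nat_lit 163869) (nat_lit 2) (.e (nat_lit 196656) (nat_lit 11) (.e (nat_lit 16466) (nat_lit 13) .nil)))))) (.g (nat_lit 1) (.e (nat_lit 354821) (nat_lit 0) .nil) .nil))) 
(.lf (nat_lit 572984) (.g (nat_lit 2567) (.e (nat_lit 483363) (nat_lit 18) (.e (nat_lit 57847) (nat_lit 252) (.e (nat_lit 57378) (nat_lit 3) (.e (nat_lit 98313) (nat_lit 9) (.e (nat_lit 336077) (nat_lit 9) .nil))))) (.g (nat_lit 0) (.e (nat_lit 357311) (nat_lit 0) .nil) .nil)))) (.nd (nat_lit 9) 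
(.lf (nat_lit 572728) (.g (nat_lit 1081) (.e (nat_lit 491264) (nat_lit 10) (.e (nat_lit 434212) (nat_lit 18) (.e (nat_lit 5951) (nat_lit 322) (.e (nat_lit 57378) (nat_lit 3) (.e (nat_lit 98365) (nat_lit 26) .nil))))) (.g (nat_lit 0) (.e (nat_lit 355839) (nat_lit 0) .nil) .nil))) 
(.lf (nat_lit 573240) (.g (nat_lit 1676) (.e (nat_lit 483364) (nat_lit 18) (.e (nat_lit 57929) (nat_lit 282) (.e (nat_lit 163874) (nat_lit 3) (.e (nat_lit 204866) (nat_lit 28) (.e (nat_lit 360192) (nat_lit 18) .nil))))) (.g (nat_lit 1) (.e (nat_lit 357625) (nat_lit 0) .nil) .nil))))) (.nd (nat_lit 8) (.nd (nat_lit 9) 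
(.lf (nat_lit 572600) (.g (nat_lit 1569) (.e (nat_lit 483341) (nat_lit 9) (.e (nat_lit 426106) (nat_lit 1) (.e (nat_lit 164327) (nat_lit 230) (.e (nat_lit 163870) (nat_lit 2) .nil)))) (.g (nat_lit 0) (.e (nat_lit 355106) (nat_lit 0) .nil) .nil))) 
(.lf (nat_lit 573112) (.g (nat_lit 2243) (.e (nat_lit 483363) (nat_lit 18) (.e (nat_lit 57931) (nat_lit 282) (.e (nat_lit 163867) (nat_lit 2) (.e (nat_lit 196674) (nat_lit 15) (.e (nat_lit 89856) (nat_lit 18) .nil))))) (.g (nat_lit 1) (.e (nat_lit 357459) (nat_lit 0) .nil) .nil)))) (.nd (nat_lit 9) 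
(.lf (nat_lit 572856) (.g (nat_lit 1564) (.e (nat_lit 483362) (nat_lit 18) (.e (nat_lit 57926) (nat_lit 282) (.e (nat_lit 163871) (nat_lit 2) (.e (nat_lit 196674) (nat_lit 15) (.e (nat_lit 89856) (nat_lit 18) .nil))))) (.g (nat_lit 0) (.e (nat_lit 357124) (nat_lit 0) .nil) .nil))) 
(.lf (nat_lit 573368) (.g (nat_lit 2774) (.e (nat_lit 483365) (nat_lit 18) (.e (nat_lit 57849) (nat_lit 252) (.e (nat_lit 57373) (nat_lit 2) (.e (nat_lit 90159) (nat_lit 11) (.e (nat_lit 24627) (nat_lit 9) .nil))))) (.g (nat_lit 0) (.e (nat_lit 357797) (nat_lit 0) .nil) .nil)))))) (.nd (nat_lit 7) (.nd (nat_lit 8) (.nd (nat_lit 9) 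
(.lf (nat_lit 572536) (.g (nat_lit 3077) (.e (nat_lit 483341) (nat_lit 9) (.e (nat_lit 426098) (nat_lit 1) (.e (nat_lit 164399) (nat_lit 256) (.e (nat_lit 57379) (nat_lit 3) (.e (nat_lit 98365) (nat_lit 26) (.e (nat_lit 426326) (nat_lit 13) .nil)))))) (.g (nat_lit 1) (.e (nat_lit 354989) (nat_lit 0) .nil) .nil))) 
(.lf (nat_lit 573048) (.g (nat_lit 2589) (.e (nat_lit 483363) (nat_lit 18) (.e (nat_lit 57926) (nat_lit 282) (.e (nat_lit 163874) (nat_lit 3) (.e (nat_lit 204866) (nat_lit 28) (.e (nat_lit 360192) (nat_lit 18) .nil))))) (.g (nat_lit 1) (.e (nat_lit 357386) (nat_lit 0) .nil) .nil)))) (.nd (nat_lit 9) 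
(.lf (nat_lit 572792) (.g (nat_lit 825) (.e (nat_lit 483350) (nat_lit 17) (.e (nat_lit 970) (nat_lit 81) (.e (nat_lit 5954) (nat_lit 322) (.e (nat_lit 57349) (nat_lit 0) .nil)))) (.g (nat_lit 0) (.e (nat_lit 357019) (nat_lit 0) .nil) .nil))) 
(.lf (nat_lit 573304) (.g (nat_lit 1497) (.e (nat_lit 483365) (nat_lit 18) (.e (nat_lit 57846) (nat_lit 252) (.e (nat_lit 57379) (nat_lit 3) (.e (nat_lit 106240) (nat_lit 14) .nil)))) (.g (nat_lit 0) (.e (nat_lit 357715) (nat_lit 0) .nil) .nil))))) (.nd (nat_lit 8) (.nd (nat_lit 9) 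
(.lf (nat_lit 572664) (.g (nat_lit 1374) (.e (nat_lit 483341) (nat_lit 9) (.e (nat_lit 426108) (nat_lit 1) (.e (nat_lit 164401) (nat_lit 256) (.e (nat_lit 57377) (nat_lit 3) .nil)))) (.g (nat_lit 0) (.e (nat_lit 355288) (nat_lit 0) .nil) .nil))) 
(.lf (nat_lit 573176) (.g (nat_lit 2124) (.e (nat_lit 483364) (nat_lit 18) (.e (nat_lit 57926) (nat_lit 282) (.e (nat_lit 163871) (nat_lit 2) (.e (nat_lit 196674) (nat_lit 15) (.e (nat_lit 89856) (nat_lit 18) .nil))))) (.g (nat_lit 1) (.e (nat_lit 357549) (nat_lit 0) .nil) .nil)))) (.nd (nat_lit 9) 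
(.lf (nat_lit 572920) (.g (nat_lit 3018) (.e (nat_lit 483363) (nat_lit 18) (.e (nat_lit 57691) (nat_lit 156) (.e (nat_lit 163907) (nat_lit 12) (.e (nat_lit 426438) (nat_lit 18) (.e (nat_lit 98363) (nat_lit 26) (.e (nat_lit 426321) (nat_lit 13) .nil)))))) (.g (nat_lit 1) (.e (nat_lit 357222) (nat_lit 0) .nil) .nil))) 
(.lf (nat_lit 573432) (.g (nat_lit 1706) (.e (nat_lit 483365) (nat_lit 18) (.e (nat_lit 57929) (nat_lit 282) (.e (nat_lit 163874) (nat_lit 3) (.e (nat_lit 204878) (nat_lit 31) .nil)))) (.g (nat_lit 0) (.e (nat_lit 357874) (nat_lit 0) .nil) .nil)))))))))) (.nd (nat_lit 3) (.nd (nat_lit 4) (.nd (nat_lit 5) (.nd (nat_lit 6) (.nd (nat_lit 7) (.nd (nat_lit 8) (.nd (nat_lit 9) 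
(.lf (nat_lit 572420) (.g (nat_lit 2094) (.e (nat_lit 483337) (nat_lit 9) (.e (nat_lit 426316) (nat_lit 12) (.e (nat_lit 475179) (nat_lit 24) (.e (nat_lit 516117) (nat_lit 1) (.e (nat_lit 164329) (nat_lit 230) .nil))))) (.g (nat_lit 0) (.e (nat_lit 354676) (nat_lit 0) .nil) .nil))) 
(.lf (nat_lit 572932) (.g (nat_lit 3193) (.e (nat_lit 483363) (nat_lit 18) (.e (nat_lit 57692) (nat_lit 156) (.e (nat_lit 163907) (nat_lit 12) (.e (nat_lit 426438) (nat_lit 18) (.e (nat_lit 98365) (nat_lit 26) (.e (nat_lit 426325) (nat_lit 13) .nil)))))) (.g (nat_lit 1) (.e (nat_lit 357240) (nat_lit 0) .nil) .nil)))) (.nd (nat_lit 9) 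
(.lf (nat_lit 572676) (.g (nat_lit 3849) (.e (nat_lit 483341) (nat_lit 9) (.e (nat_lit 426188) (nat_lit 9) (.e (nat_lit 426436) (nat_lit 18) (.e (nat_lit 98335) (nat_lit 18) (.e (nat_lit 164330) (nat_lit 230) (.e (nat_lit 163942) (nat_lit 19) .nil)))))) (.g (nat_lit 1) (.e (nat_lit 355317) (nat_lit 0) .nil) .nil))) 
(.lf (nat_lit 573188) (.g (nat_lit 2516) (.e (nat_lit 483364) (nat_lit 18) (.e (nat_lit 57926) (nat_lit 282) (.e (nat_lit 163875) (nat_lit 3) (.e (nat_lit 204861) (nat_lit 26) (.e (nat_lit 336077) (nat_lit 9) .nil))))) (.g (nat_lit 0) (.e (nat_lit 357563) (nat_lit 0) .nil) .nil))))) (.nd (nat_lit 8) (.nd (nat_lit 9) 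
(.lf (nat_lit 572548) (.g (nat_lit 2381) (.e (nat_lit 483341) (nat_lit 9) (.e (nat_lit 426100) (nat_lit 1) (.e (nat_lit 164329) (nat_lit 230) (.e (nat_lit 163867) (nat_lit 2) (.e (nat_lit 196655) (nat_lit 11) .nil))))) (.g (nat_lit 0) (.e (nat_lit 355013) (nat_lit 0) .nil) .nil))) 
(.lf (nat_lit 573060) (.g (nat_lit 2821) (.e (nat_lit 483363) (nat_lit 18) (.e (nat_lit 57926) (nat_lit 282) (.e (nat_lit 163875) (nat_lit 3) (.e (nat_lit 204866) (nat_lit 28) (.e (nat_lit 360192) (nat_lit 18) .nil))))) (.g (nat_lit 1) (.e (nat_lit 357398) (nat_lit 0) .nil) .nil)))) (.nd (nat_lit 9) 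
(.lf (nat_lit 572804) (.g (nat_lit 450) (.e (nat_lit 483350) (nat_lit 17) (.e (nat_lit 6218) (nat_lit 333) (.e (nat_lit 57863) (nat_lit 256) .nil))) (.g (nat_lit 0) (.e (nat_lit 357050) (nat_lit 0) .nil) .nil))) 
(.lf (nat_lit 573316) (.g (nat_lit 2437) (.e (nat_lit 483365) (nat_lit 18) (.e (nat_lit 57847) (nat_lit 252) (.e (nat_lit 57368) (nat_lit 1) (.e (nat_lit 57854) (nat_lit 252) (.e (nat_lit 57389) (nat_lit 5) (.e (nat_lit 114723) (nat_lit 24) (.e (nat_lit 106504) (nat_lit 9) (.e (nat_lit 492) (nat_lit 39) .nil)))))))) (.g (nat_lit 1) (.e (nat_lit 357728) (nat_lit 0) .nil) .nil)))))) 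
(.nd (nat_lit 7) (.nd (nat_lit 8) (.nd (nat_lit 9) 
(.lf (nat_lit 572484) (.g (nat_lit 1983) (.e (nat_lit 483340) (nat_lit 9) (.e (nat_lit 426100) (nat_lit 1) (.e (nat_lit 164399) (nat_lit 256) (.e (nat_lit 57378) (nat_lit 3) (.e (nat_lit 98363) (nat_lit 26) .nil))))) (.g (nat_lit 0) (.e (nat_lit 354834) (nat_lit 0) .nil) .nil))) 
(.lf (nat_lit 572996) (.g (nat_lit 3294) (.e (nat_lit 483363) (nat_lit 18) (.e (nat_lit 57849) (nat_lit 252) (.e (nat_lit 57375) (nat_lit 2) (.e (nat_lit 90160) (nat_lit 11) (.e (nat_lit 24630) (nat_lit 9) (.e (nat_lit 336456) (nat_lit 34) .nil)))))) (.g (nat_lit 1) (.e (nat_lit 357325) (nat_lit 0) .nil) .nil)))) (.nd (nat_lit 9) 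
(.lf (nat_lit 572740) (.g (nat_lit 603) (.e (nat_lit 491264) (nat_lit 14) (.e (nat_lit 466977) (nat_lit 22) (.e (nat_lit 196610) (nat_lit 0) .nil))) (.g (nat_lit 0) (.e (nat_lit 356250) (nat_lit 0) .nil) .nil))) 
(.lf (nat_lit 573252) (.g (nat_lit 3481) (.e (nat_lit 483364) (nat_lit 18) (.e (nat_lit 57931) (nat_lit 282) (.e (nat_lit 163869) (nat_lit 2) (.e (nat_lit 196681) (nat_lit 17) (.e (nat_lit 131105) (nat_lit 9) (.e (nat_lit 336454) (nat_lit 34) .nil)))))) (.g (nat_lit 1) (.e (nat_lit 357639) (nat_lit 0) .nil) .nil))))) (.nd (nat_lit 8) (.nd (nat_lit 9) 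
(.lf (nat_lit 572612) (.g (nat_lit 1007) (.e (nat_lit 483341) (nat_lit 9) (.e (nat_lit 426107) (nat_lit 1) (.e (nat_lit 164325) (nat_lit 230) (.e (nat_lit 163870) (nat_lit 2) .nil)))) (.g (nat_lit 0) (.e (nat_lit 355145) (nat_lit 0) .nil) .nil))) 
(.lf (nat_lit 573124) (.g (nat_lit 603) (.e (nat_lit 483364) (nat_lit 18) (.e (nat_lit 57692) (nat_lit 156) (.e (nat_lit 163900) (nat_lit 12) .nil))) (.g (nat_lit 0) (.e (nat_lit 357476) (nat_lit 0) .nil) .nil)))) (.nd (nat_lit 9) 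
(.lf (nat_lit 572868) (.g (nat_lit 935) (.e (nat_lit 483362) (nat_lit 18) (.e (nat_lit 57927) (nat_lit 282) (.e (nat_lit 163875) (nat_lit 3) (.e (nat_lit 204859) (nat_lit 26) .nil)))) (.g (nat_lit 0) (.e (nat_lit 357140) (nat_lit 0) .nil) .nil))) 
(.lf (nat_lit 573380) (.g (nat_lit 1436) (.e (nat_lit 483365) (nat_lit 18) (.e (nat_lit 57849) (nat_lit 252) (.e (nat_lit 57378) (nat_lit 3) (.e (nat_lit 106240) (nat_lit 14) .nil)))) (.g (nat_lit 0) (.e (nat_lit 357810) (nat_lit 0) .nil) .nil))))))) (.nd (nat_lit 6) (.nd (nat_lit 7) (.nd (nat_lit 8) (.nd (nat_lit 9) 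
(.lf (nat_lit 572452) (.g (nat_lit 2504) (.e (nat_lit 483339) (nat_lit 9) (.e (nat_lit 426262) (nat_lit 9) (.e (nat_lit 426435) (nat_lit 18) (.e (nat_lit 98333) (nat_lit 18) (.e (nat_lit 164325) (nat_lit 230) (.e (nat_lit 163941) (nat_lit 19) .nil)))))) (.g (nat_lit 1) (.e (nat_lit 354786) (nat_lit 0) .nil) .nil))) 
(.lf (nat_lit 572964) (.g (nat_lit 2498) (.e (nat_lit 483363) (nat_lit 18) (.e (nat_lit 57847) (nat_lit 252) (.e (nat_lit 57372) (nat_lit 2) (.e (nat_lit 90160) (nat_lit 11) (.e (nat_lit 24636) (nat_lit 9) (.e (nat_lit 343808) (nat_lit 34) .nil)))))) (.g (nat_lit 1) (.e (nat_lit 357287) (nat_lit 0) .nil) .nil)))) (.nd (nat_lit 9) 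
(.lf (nat_lit 572708) (.g (nat_lit 2019) (.e (nat_lit 491264) (nat_lit 9) (.e (nat_lit 426099) (nat_lit 1) (.e (nat_lit 164332) (nat_lit 230) (.e (nat_lit 163869) (nat_lit 2) (.e (nat_lit 196656) (nat_lit 11) .nil))))) (.g (nat_lit 0) (.e (nat_lit 355752) (nat_lit 0) .nil) .nil))) 
(.lf (nat_lit 573220) (.g (nat_lit 1220) (.e (nat_lit 483364) (nat_lit 18) (.e (nat_lit 57927) (nat_lit 282) (.e (nat_lit 163874) (nat_lit 3) (.e (nat_lit 204875) (nat_lit 31) (.e (nat_lit 384768) (nat_lit 18) .nil))))) (.g (nat_lit 0) (.e (nat_lit 357601) (nat_lit 0) .nil) .nil))))) (.nd (nat_lit 8) (.nd (nat_lit 9) 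
(.lf (nat_lit 572580) (.g (nat_lit 1914) (.e (nat_lit 483341) (nat_lit 9) (.e (nat_lit 426100) (nat_lit 1) (.e (nat_lit 164399) (nat_lit 256) (.e (nat_lit 57378) (nat_lit 3) (.e (nat_lit 98362) (nat_lit 26) (.e (nat_lit 426330) (nat_lit 13) .nil)))))) (.g (nat_lit 1) (.e (nat_lit 355067) (nat_lit 0) .nil) .nil))) 
(.lf (nat_lit 573092) (.g (nat_lit 2040) (.e (nat_lit 483363) (nat_lit 18) (.e (nat_lit 57927) (nat_lit 282) (.e (nat_lit 163875) (nat_lit 3) (.e (nat_lit 204865) (nat_lit 28) (.e (nat_lit 360192) (nat_lit 18) .nil))))) (.g (nat_lit 1) (.e (nat_lit 357439) (nat_lit 0) .nil) .nil)))) (.nd (nat_lit 9) 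
(.lf (nat_lit 572836) (.g (nat_lit 454) (.e (nat_lit 483362) (nat_lit 18) (.e (nat_lit 57691) (nat_lit 156) (.e (nat_lit 163938) (nat_lit 18) .nil))) (.g (nat_lit 0) (.e (nat_lit 357104) (nat_lit 0) .nil) .nil))) 
(.lf (nat_lit 573348) (.g (nat_lit 1941) (.e (nat_lit 483365) (nat_lit 18) (.e (nat_lit 57848) (nat_lit 252) (.e (nat_lit 57374) (nat_lit 2) (.e (nat_lit 90121) (nat_lit 9) (.e (nat_lit 312) (nat_lit 23) .nil))))) (.g (nat_lit 0) (.e (nat_lit 357770) (nat_lit 0) .nil) .nil)))))) (.nd (nat_lit 7) (.nd (nat_lit 8) (.nd (nat_lit 9) 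
(.lf (nat_lit 572516) (.g (nat_lit 3702) (.e (nat_lit 483341) (nat_lit 9) (.e (nat_lit 426098) (nat_lit 1) (.e (nat_lit 164325) (nat_lit 230) (.e (nat_lit 163868) (nat_lit 2) (.e (nat_lit 196656) (nat_lit 11) (.e (nat_lit 16465) (nat_lit 13) .nil)))))) (.g (nat_lit 1) (.e (nat_lit 354913) (nat_lit 0) .nil) .nil))) 
(.lf (nat_lit 573028) (.g (nat_lit 1874) (.e (nat_lit 483363) (nat_lit 18) (.e (nat_lit 57924) (nat_lit 282) (.e (nat_lit 163868) (nat_lit 2) (.e (nat_lit 196672) (nat_lit 15) (.e (nat_lit 89856) (nat_lit 18) .nil))))) (.g (nat_lit 1) (.e (nat_lit 357360) (nat_lit 0) .nil) .nil)))) (.nd (nat_lit 9) 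
(.lf (nat_lit 572772) (.g (nat_lit 377) (.e (nat_lit 483344) (nat_lit 17) (.e (nat_lit 6722) (nat_lit 362) (.e (nat_lit 180270) (nat_lit 26) .nil))) (.g (nat_lit 0) (.e (nat_lit 356453) (nat_lit 0) .nil) .nil))) 
(.lf (nat_lit 573284) (.g (nat_lit 3272) (.e (nat_lit 483365) (nat_lit 18) (.e (nat_lit 57691) (nat_lit 156) (.e (nat_lit 163939) (nat_lit 18) (.e (nat_lit 475177) (nat_lit 24) (.e (nat_lit 516150) (nat_lit 9) (.e (nat_lit 426323) (nat_lit 13) .nil)))))) (.g (nat_lit 1) (.e (nat_lit 357685) (nat_lit 0) .nil) .nil))))) (.nd (nat_lit 8) (.nd (nat_lit 9) 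
(.lf (nat_lit 572644) (.g (nat_lit 955) (.e (nat_lit 483341) (nat_lit 9) (.e (nat_lit 426108) (nat_lit 1) (.e (nat_lit 164329) (nat_lit 230) (.e (nat_lit 163850) (nat_lit 0) .nil)))) (.g (nat_lit 0) (.e (nat_lit 355223) (nat_lit 0) .nil) .nil))) 
(.lf (nat_lit 573156) (.g (nat_lit 1830) (.e (nat_lit 483364) (nat_lit 18) (.e (nat_lit 57924) (nat_lit 282) (.e (nat_lit 163871) (nat_lit 2) (.e (nat_lit 196672) (nat_lit 15) (.e (nat_lit 89856) (nat_lit 18) .nil))))) (.g (nat_lit 1) (.e (nat_lit 357522) (nat_lit 0) .nil) .nil)))) (.nd (nat_lit 9) 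
(.lf (nat_lit 572900) (.g (nat_lit 1815) (.e (nat_lit 483363) (nat_lit 18) (.e (nat_lit 57688) (nat_lit 156) (.e (nat_lit 163907) (nat_lit 12) (.e (nat_lit 426436) (nat_lit 18) .nil)))) (.g (nat_lit 0) (.e (nat_lit 357183) (nat_lit 0) .nil) .nil))) 
(.lf (nat_lit 573412) (.g (nat_lit 2568) (.e (nat_lit 483365) (nat_lit 18) (.e (nat_lit 57854) (nat_lit 252) (.e (nat_lit 57373) (nat_lit 2) (.e (nat_lit 90160) (nat_lit 11) (.e (nat_lit 24636) (nat_lit 9) (.e (nat_lit 343808) (nat_lit 34) .nil)))))) (.g (nat_lit 1) (.e (nat_lit 357852) (nat_lit 0) .nil) .nil)))))))) 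
(.nd (nat_lit 5) (.nd (nat_lit 6) (.nd (nat_lit 7) (.nd (nat_lit 8) (.nd (nat_lit 9) 
(.lf (nat_lit 572436) (.g (nat_lit 2833) (.e (nat_lit 483339) (nat_lit 9) (.e (nat_lit 426234) (nat_lit 9) (.e (nat_lit 426435) (nat_lit 18) (.e (nat_lit 98334) (nat_lit 18) (.e (nat_lit 164330) (nat_lit 230) (.e (nat_lit 163941) (nat_lit 19) .nil)))))) (.g (nat_lit 1) (.e (nat_lit 354732) (nat_lit 0) .nil) .nil))) 
(.lf (nat_lit 572948) (.g (nat_lit 1526) (.e (nat_lit 483363) (nat_lit 18) (.e (nat_lit 57847) (nat_lit 252) (.e (nat_lit 57368) (nat_lit 1) (.e (nat_lit 57854) (nat_lit 252) (.e (nat_lit 57389) (nat_lit 5) .nil))))) (.g (nat_lit 0) (.e (nat_lit 357262) (nat_lit 0) .nil) .nil)))) (.nd (nat_lit 9) 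
(.lf (nat_lit 572692) (.g (nat_lit 576) (.e (nat_lit 483341) (nat_lit 9) (.e (nat_lit 426200) (nat_lit 9) (.e (nat_lit 426374) (nat_lit 15) .nil))) (.g (nat_lit 0) (.e (nat_lit 355492) (nat_lit 0) .nil) .nil))) 
(.lf (nat_lit 573204) (.g (nat_lit 2119) (.e (nat_lit 483364) (nat_lit 18) (.e (nat_lit 57927) (nat_lit 282) (.e (nat_lit 163869) (nat_lit 2) (.e (nat_lit 196666) (nat_lit 13) (.e (nat_lit 65591) (nat_lit 9) .nil))))) (.g (nat_lit 0) (.e (nat_lit 357580) (nat_lit 0) .nil) .nil))))) (.nd (nat_lit 8) (.nd (nat_lit 9) 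
(.lf (nat_lit 572564) (.g (nat_lit 3025) (.e (nat_lit 483341) (nat_lit 9) (.e (nat_lit 426100) (nat_lit 1) (.e (nat_lit 164398) (nat_lit 256) (.e (nat_lit 57372) (nat_lit 2) (.e (nat_lit 90185) (nat_lit 17) (.e (nat_lit 237621) (nat_lit 13) .nil)))))) (.g (nat_lit 1) (.e (nat_lit 355051) (nat_lit 0) .nil) .nil))) 
(.lf (nat_lit 573076) (.g (nat_lit 2322) (.e (nat_lit 483363) (nat_lit 18) (.e (nat_lit 57927) (nat_lit 282) (.e (nat_lit 163869) (nat_lit 2) (.e (nat_lit 196674) (nat_lit 15) (.e (nat_lit 89856) (nat_lit 18) .nil))))) (.g (nat_lit 1) (.e (nat_lit 357418) (nat_lit 0) .nil) .nil)))) (.nd (nat_lit 9) 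
(.lf (nat_lit 572820) (.g (nat_lit 623) (.e (nat_lit 491264) (nat_lit 17) (.e (nat_lit 6716) (nat_lit 361) (.e (nat_lit 172076) (nat_lit 6) (.e (nat_lit 253989) (nat_lit 11) (.e (nat_lit 16465) (nat_lit 13) .nil))))) (.g (nat_lit 0) (.e (nat_lit 357087) (nat_lit 0) .nil) .nil))) 
(.lf (nat_lit 573332) (.g (nat_lit 2150) (.e (nat_lit 483365) (nat_lit 18) (.e (nat_lit 57847) (nat_lit 252) (.e (nat_lit 57375) (nat_lit 2) (.e (nat_lit 90160) (nat_lit 11) (.e (nat_lit 24636) (nat_lit 9) (.e (nat_lit 343808) (nat_lit 34) .nil)))))) (.g (nat_lit 1) (.e (nat_lit 357752) (nat_lit 0) .nil) .nil)))))) (.nd (nat_lit 7) (.nd (nat_lit 8) (.nd (nat_lit 9) 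
(.lf (nat_lit 572500) (.g (nat_lit 3120) (.e (nat_lit 483340) (nat_lit 9) (.e (nat_lit 426108) (nat_lit 1) (.e (nat_lit 164332) (nat_lit 230) (.e (nat_lit 163869) (nat_lit 2) (.e (nat_lit 196656) (nat_lit 11) .nil))))) (.g (nat_lit 0) (.e (nat_lit 354868) (nat_lit 0) .nil) .nil))) 
(.lf (nat_lit 573012) (.g (nat_lit 2414) (.e (nat_lit 483363) (nat_lit 18) (.e (nat_lit 57854) (nat_lit 252) (.e (nat_lit 57373) (nat_lit 2) (.e (nat_lit 90124) (nat_lit 9) .nil)))) (.g (nat_lit 0) (.e (nat_lit 357342) (nat_lit 0) .nil) .nil)))) (.nd (nat_lit 9) 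
(.lf (nat_lit 572756) (.g (nat_lit 805) (.e (nat_lit 491264) (nat_lit 16) (.e (nat_lit 491566) (nat_lit 12) (.e (nat_lit 385071) (nat_lit 30) .nil))) (.g (nat_lit 0) (.e (nat_lit 356306) (nat_lit 0) .nil) .nil))) 
(.lf (nat_lit 573268) (.g (nat_lit 2292) (.e (nat_lit 483365) (nat_lit 18) (.e (nat_lit 57687) (nat_lit 156) (.e (nat_lit 163903) (nat_lit 12) (.e (nat_lit 426438) (nat_lit 18) (.e (nat_lit 98363) (nat_lit 26) .nil))))) (.g (nat_lit 0) (.e (nat_lit 357658) (nat_lit 0) .nil) .nil))))) (.nd (nat_lit 8) (.nd (nat_lit 9) 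
(.lf (nat_lit 572628) (.g (nat_lit 2628) (.e (nat_lit 483341) (nat_lit 9) (.e (nat_lit 426107) (nat_lit 1) (.e (nat_lit 164331) (nat_lit 230) (.e (nat_lit 163869) (nat_lit 2) (.e (nat_lit 196654) (nat_lit 11) .nil))))) (.g (nat_lit 0) (.e (nat_lit 355198) (nat_lit 0) .nil) .nil))) 
(.lf (nat_lit 573140) (.g (nat_lit 1918) (.e (nat_lit 483364) (nat_lit 18) (.e (nat_lit 57854) (nat_lit 252) (.e (nat_lit 57373) (nat_lit 2) (.e (nat_lit 90125) (nat_lit 9) .nil)))) (.g (nat_lit 0) (.e (nat_lit 357500) (nat_lit 0) .nil) .nil)))) (.nd (nat_lit 9) 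
(.lf (nat_lit 572884) (.g (nat_lit 1515) (.e (nat_lit 483363) (nat_lit 18) (.e (nat_lit 57688) (nat_lit 156) (.e (nat_lit 163902) (nat_lit 12) (.e (nat_lit 426434) (nat_lit 18) .nil)))) (.g (nat_lit 0) (.e (nat_lit 357161) (nat_lit 0) .nil) .nil))) 
(.lf (nat_lit 573396) (.g (nat_lit 1734) (.e (nat_lit 483365) (nat_lit 18) (.e (nat_lit 57852) (nat_lit 252) (.e (nat_lit 57377) (nat_lit 3) (.e (nat_lit 98313) (nat_lit 9) (.e (nat_lit 336074) (nat_lit 9) .nil))))) (.g (nat_lit 0) (.e (nat_lit 357829) (nat_lit 0) .nil) .nil))))))) (.nd (nat_lit 6) (.nd (nat_lit 7) (.nd (nat_lit 8) (.nd (nat_lit 9) 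
(.lf (nat_lit 572468) (.g (nat_lit 3149) (.e (nat_lit 483340) (nat_lit 9) (.e (nat_lit 426098) (nat_lit 1) (.e (nat_lit 164327) (nat_lit 230) (.e (nat_lit 163871) (nat_lit 2) (.e (nat_lit 196654) (nat_lit 11) (.e (nat_lit 16466) (nat_lit 13) .nil)))))) (.g (nat_lit 1) (.e (nat_lit 354814) (nat_lit 0) .nil) .nil))) 
(.lf (nat_lit 572980) (.g (nat_lit 2457) (.e (nat_lit 483363) (nat_lit 18) (.e (nat_lit 57847) (nat_lit 252) (.e (nat_lit 57375) (nat_lit 2) (.e (nat_lit 90160) (nat_lit 11) (.e (nat_lit 24636) (nat_lit 9) (.e (nat_lit 343808) (nat_lit 34) .nil)))))) (.g (nat_lit 1) (.e (nat_lit 357307) (nat_lit 0) .nil) .nil)))) (.nd (nat_lit 9) 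
(.lf (nat_lit 572724) (.g (nat_lit 389) (.e (nat_lit 491264) (nat_lit 9) (.e (nat_lit 426446) (nat_lit 20) (.e (nat_lit 122624) (nat_lit 2) .nil))) (.g (nat_lit 0) (.e (nat_lit 355821) (nat_lit 0) .nil) .nil))) 
(.lf (nat_lit 573236) (.g (nat_lit 1716) (.e (nat_lit 483364) (nat_lit 18) (.e (nat_lit 57929) (nat_lit 282) (.e (nat_lit 163869) (nat_lit 2) (.e (nat_lit 196674) (nat_lit 15) (.e (nat_lit 89856) (nat_lit 18) .nil))))) (.g (nat_lit 1) (.e (nat_lit 357621) (nat_lit 0) .nil) .nil))))) (.nd (nat_lit 8) (.nd (nat_lit 9) 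
(.lf (nat_lit 572596) (.g (nat_lit 3169) (.e (nat_lit 483341) (nat_lit 9) (.e (nat_lit 426106) (nat_lit 1) (.e (nat_lit 164322) (nat_lit 230) (.e (nat_lit 163871) (nat_lit 2) (.e (nat_lit 196654) (nat_lit 11) (.e (nat_lit 16466) (nat_lit 13) .nil)))))) (.g (nat_lit 1) (.e (nat_lit 355091) (nat_lit 0) .nil) .nil))) 
(.lf (nat_lit 573108) (.g (nat_lit 2519) (.e (nat_lit 483363) (nat_lit 18) (.e (nat_lit 57930) (nat_lit 282) (.e (nat_lit 163873) (nat_lit 3) (.e (nat_lit 204865) (nat_lit 28) (.e (nat_lit 360192) (nat_lit 18) .nil))))) (.g (nat_lit 1) (.e (nat_lit 357455) (nat_lit 0) .nil) .nil)))) (.nd (nat_lit 9) 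
(.lf (nat_lit 572852) (.g (nat_lit 2097) (.e (nat_lit 483362) (nat_lit 18) (.e (nat_lit 57926) (nat_lit 282) (.e (nat_lit 163868) (nat_lit 2) (.e (nat_lit 196672) (nat_lit 15) (.e (nat_lit 89856) (nat_lit 18) .nil))))) (.g (nat_lit 0) (.e (nat_lit 357120) (nat_lit 0) .nil) .nil))) 
(.lf (nat_lit 573364) (.g (nat_lit 3200) (.e (nat_lit 483365) (nat_lit 18) (.e (nat_lit 57849) (nat_lit 252) (.e (nat_lit 57371) (nat_lit 2) (.e (nat_lit 90160) (nat_lit 11) (.e (nat_lit 24627) (nat_lit 9) .nil))))) (.g (nat_lit 0) (.e (nat_lit 357789) (nat_lit 0) .nil) .nil)))))) (.nd (nat_lit 7) (.nd (nat_lit 8) (.nd (nat_lit 9) 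
(.lf (nat_lit 572532) (.g (nat_lit 2278) (.e (nat_lit 483341) (nat_lit 9) (.e (nat_lit 426098) (nat_lit 1) (.e (nat_lit 164399) (nat_lit 256) (.e (nat_lit 57372) (nat_lit 2) (.e (nat_lit 90169) (nat_lit 13) (.e (nat_lit 172122) (nat_lit 13) .nil)))))) (.g (nat_lit 1) (.e (nat_lit 354984) (nat_lit 0) .nil) .nil))) 
(.lf (nat_lit 573044) (.g (nat_lit 1795) (.e (nat_lit 483363) (nat_lit 18) (.e (nat_lit 57926) (nat_lit 282) (.e (nat_lit 163873) (nat_lit 3) (.e (nat_lit 204878) (nat_lit 31) (.e (nat_lit 384768) (nat_lit 18) .nil))))) (.g (nat_lit 0) (.e (nat_lit 357382) (nat_lit 0) .nil) .nil)))) (.nd (nat_lit 9) 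
(.lf (nat_lit 572788) (.g (nat_lit 449) (.e (nat_lit 483346) (nat_lit 17) (.e (nat_lit 6724) (nat_lit 362) (.e (nat_lit 180224) (nat_lit 0) .nil))) (.g (nat_lit 0) (.e (nat_lit 356924) (nat_lit 0) .nil) .nil))) 
(.lf (nat_lit 573300) (.g (nat_lit 862) (.e (nat_lit 483365) (nat_lit 18) (.e (nat_lit 57846) (nat_lit 252) (.e (nat_lit 57376) (nat_lit 3) (.e (nat_lit 106240) (nat_lit 14) .nil)))) (.g (nat_lit 0) (.e (nat_lit 357711) (nat_lit 0) .nil) .nil))))) (.nd (nat_lit 8) (.nd (nat_lit 9) 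
(.lf (nat_lit 572660) (.g (nat_lit 4041) (.e (nat_lit 483341) (nat_lit 9) (.e (nat_lit 426108) (nat_lit 1) (.e (nat_lit 164332) (nat_lit 230) (.e (nat_lit 163867) (nat_lit 2) (.e (nat_lit 196655) (nat_lit 11) (.e (nat_lit 16465) (nat_lit 13) .nil)))))) (.g (nat_lit 1) (.e (nat_lit 355273) (nat_lit 0) .nil) .nil))) 
(.lf (nat_lit 573172) (.g (nat_lit 1343) (.e (nat_lit 483364) (nat_lit 18) (.e (nat_lit 57926) (nat_lit 282) (.e (nat_lit 163869) (nat_lit 2) (.e (nat_lit 196673) (nat_lit 15) .nil)))) (.g (nat_lit 0) (.e (nat_lit 357541) (nat_lit 0) .nil) .nil)))) (.nd (nat_lit 9) 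
(.lf (nat_lit 572916) (.g (nat_lit 1559) (.e (nat_lit 483363) (nat_lit 18) (.e (nat_lit 57691) (nat_lit 156) (.e (nat_lit 163907) (nat_lit 12) (.e (nat_lit 426434) (nat_lit 18) .nil)))) (.g (nat_lit 0) (.e (nat_lit 357215) (nat_lit 0) .nil) .nil))) 
(.lf (nat_lit 573428) (.g (nat_lit 2160) (.e (nat_lit 483365) (nat_lit 18) (.e (nat_lit 57929) (nat_lit 282) (.e (nat_lit 163874) (nat_lit 3) (.e (nat_lit 204866) (nat_lit 28) (.e (nat_lit 360192) (nat_lit 18) .nil))))) (.g (nat_lit 1) (.e (nat_lit 357870) (nat_lit 0) .nil) .nil))))))))) (.nd (nat_lit 4) (.nd (nat_lit 5) (.nd (nat_lit 6) (.nd (nat_lit 7) (.nd (nat_lit 8) (.nd (nat_lit 9) 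
(.lf (nat_lit 572428) (.g (nat_lit 1947) (.e (nat_lit 483339) (nat_lit 9) (.e (nat_lit 426230) (nat_lit 9) (.e (nat_lit 426435) (nat_lit 18) (.e (nat_lit 98333) (nat_lit 18) (.e (nat_lit 164327) (nat_lit 230) (.e (nat_lit 163941) (nat_lit 19) .nil)))))) (.g (nat_lit 1) (.e (nat_lit 354711) (nat_lit 0) .nil) .nil))) 
(.lf (nat_lit 572940) (.g (nat_lit 2865) (.e (nat_lit 483363) (nat_lit 18) (.e (nat_lit 57847) (nat_lit 252) (.e (nat_lit 57365) (nat_lit 1) (.e (nat_lit 57854) (nat_lit 252) (.e (nat_lit 57389) (nat_lit 5) (.e (nat_lit 114723) (nat_lit 24) (.e (nat_lit 106504) (nat_lit 9) (.e (nat_lit 492) (nat_lit 39) .nil)))))))) (.g (nat_lit 1) (.e (nat_lit 357251) (nat_lit 0) .nil) .nil)))) (.nd (nat_lit 9) 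
(.lf (nat_lit 572684) (.g (nat_lit 630) (.e (nat_lit 483341) (nat_lit 9) (.e (nat_lit 426198) (nat_lit 9) (.e (nat_lit 426360) (nat_lit 15) .nil))) (.g (nat_lit 0) (.e (nat_lit 355345) (nat_lit 0) .nil) .nil))) 
(.lf (nat_lit 573196) (.g (nat_lit 1491) (.e (nat_lit 483364) (nat_lit 18) (.e (nat_lit 57927) (nat_lit 282) (.e (nat_lit 163866) (nat_lit 2) (.e (nat_lit 196672) (nat_lit 15) (.e (nat_lit 89856) (nat_lit 18) .nil))))) (.g (nat_lit 0) (.e (nat_lit 357571) (nat_lit 0) .nil) .nil))))) (.nd (nat_lit 8) (.nd (nat_lit 9) 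
(.lf (nat_lit 572556) (.g (nat_lit 3640) (.e (nat_lit 483341) (nat_lit 9) (.e (nat_lit 426100) (nat_lit 1) (.e (nat_lit 164332) (nat_lit 230) (.e (nat_lit 163867) (nat_lit 2) (.e (nat_lit 196655) (nat_lit 11) (.e (nat_lit 16465) (nat_lit 13) .nil)))))) (.g (nat_lit 1) (.e (nat_lit 355037) (nat_lit 0) .nil) .nil))) 
(.lf (nat_lit 573068) (.g (nat_lit 2663) (.e (nat_lit 483363) (nat_lit 18) (.e (nat_lit 57927) (nat_lit 282) (.e (nat_lit 163866) (nat_lit 2) (.e (nat_lit 196681) (nat_lit 17) (.e (nat_lit 131109) (nat_lit 9) (.e (nat_lit 336456) (nat_lit 34) .nil)))))) (.g (nat_lit 1) (.e (nat_lit 357406) (nat_lit 0) .nil) .nil)))) (.nd (nat_lit 9) 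
(.lf (nat_lit 572812) (.g (nat_lit 2681) (.e (nat_lit 483354) (nat_lit 17) (.e (nat_lit 6676) (nat_lit 357) (.e (nat_lit 2856) (nat_lit 184) (.e (nat_lit 426533) (nat_lit 28) (.e (nat_lit 344068) (nat_lit 0) (.e (nat_lit 3090) (nat_lit 191) .nil)))))) (.g (nat_lit 1) (.e (nat_lit 357071) (nat_lit 0) .nil) .nil))) 
(.lf (nat_lit 573324) (.g (nat_lit 2150) (.e (nat_lit 483365) (nat_lit 18) (.e (nat_lit 57847) (nat_lit 252) (.e (nat_lit 57372) (nat_lit 2) (.e (nat_lit 90160) (nat_lit 11) (.e (nat_lit 24636) (nat_lit 9) (.e (nat_lit 343808) (nat_lit 34) .nil)))))) (.g (nat_lit 1) (.e (nat_lit 357741) (nat_lit 0) .nil) .nil)))))) (.nd (nat_lit 7) (.nd (nat_lit 8) (.nd (nat_lit 9) 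
(.lf (nat_lit 572492) (.g (nat_lit 2612) (.e (nat_lit 483340) (nat_lit 9) (.e (nat_lit 426107) (nat_lit 1) (.e (nat_lit 164327) (nat_lit 230) (.e (nat_lit 163871) (nat_lit 2) (.e (nat_lit 196656) (nat_lit 11) .nil))))) (.g (nat_lit 0) (.e (nat_lit 354848) (nat_lit 0) .nil) .nil))) 
(.lf (nat_lit 573004) (.g (nat_lit 1478) (.e (nat_lit 483363) (nat_lit 18) (.e (nat_lit 57853) (nat_lit 252) (.e (nat_lit 57371) (nat_lit 2) (.e (nat_lit 90128) (nat_lit 9) .nil)))) (.g (nat_lit 0) (.e (nat_lit 357333) (nat_lit 0) .nil) .nil)))) (.nd (nat_lit 9) 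
(.lf (nat_lit 572748) (.g (nat_lit 2714) (.e (nat_lit 491264) (nat_lit 16) (.e (nat_lit 491558) (nat_lit 10) (.e (nat_lit 344133) (nat_lit 26) (.e (nat_lit 557119) (nat_lit 18) (.e (nat_lit 2797) (nat_lit 180) .nil))))) (.g (nat_lit 0) (.e (nat_lit 356286) (nat_lit 0) .nil) .nil))) 
(.lf (nat_lit 573260) (.g (nat_lit 4050) (.e (nat_lit 483364) (nat_lit 18) (.e (nat_lit 57931) (nat_lit 282) (.e (nat_lit 163874) (nat_lit 3) (.e (nat_lit 204861) (nat_lit 26) (.e (nat_lit 336076) (nat_lit 9) (.e (nat_lit 336454) (nat_lit 34) .nil)))))) (.g (nat_lit 1) (.e (nat_lit 357647) (nat_lit 0) .nil) .nil))))) (.nd (nat_lit 8) (.nd (nat_lit 9) 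
(.lf (nat_lit 572620) (.g (nat_lit 1336) (.e (nat_lit 483341) (nat_lit 9) (.e (nat_lit 426107) (nat_lit 1) (.e (nat_lit 164327) (nat_lit 230) (.e (nat_lit 163867) (nat_lit 2) .nil)))) (.g (nat_lit 0) (.e (nat_lit 355173) (nat_lit 0) .nil) .nil))) 
(.lf (nat_lit 573132) (.g (nat_lit 3463) (.e (nat_lit 483364) (nat_lit 18) (.e (nat_lit 57852) (nat_lit 252) (.e (nat_lit 57373) (nat_lit 2) (.e (nat_lit 90160) (nat_lit 11) (.e (nat_lit 24627) (nat_lit 9) (.e (nat_lit 336454) (nat_lit 34) .nil)))))) (.g (nat_lit 1) (.e (nat_lit 357488) (nat_lit 0) .nil) .nil)))) (.nd (nat_lit 9) 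
(.lf (nat_lit 572876) (.g (nat_lit 3419) (.e (nat_lit 483363) (nat_lit 18) (.e (nat_lit 57686) (nat_lit 156) (.e (nat_lit 163902) (nat_lit 12) (.e (nat_lit 426428) (nat_lit 17) (.e (nat_lit 90170) (nat_lit 13) (.e (nat_lit 172123) (nat_lit 13) .nil)))))) (.g (nat_lit 1) (.e (nat_lit 357150) (nat_lit 0) .nil) .nil))) 
(.lf (nat_lit 573388) (.g (nat_lit 1664) (.e (nat_lit 483365) (nat_lit 18) (.e (nat_lit 57851) (nat_lit 252) (.e (nat_lit 57371) (nat_lit 2) (.e (nat_lit 90160) (nat_lit 11) (.e (nat_lit 24636) (nat_lit 9) .nil))))) (.g (nat_lit 0) (.e (nat_lit 357821) (nat_lit 0) .nil) .nil))))))) (.nd (nat_lit 6) (.nd (nat_lit 7) (.nd (nat_lit 8) (.nd (nat_lit 9) 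
(.lf (nat_lit 572460) (.g (nat_lit 713) (.e (nat_lit 483340) (nat_lit 9) (.e (nat_lit 426011) (nat_lit 0) (.e (nat_lit 2399) (nat_lit 157) .nil))) (.g (nat_lit 0) (.e (nat_lit 354802) (nat_lit 0) .nil) .nil))) 
(.lf (nat_lit 572972) (.g (nat_lit 2970) (.e (nat_lit 483363) (nat_lit 18) (.e (nat_lit 57847) (nat_lit 252) (.e (nat_lit 57373) (nat_lit 2) (.e (nat_lit 90160) (nat_lit 11) (.e (nat_lit 24630) (nat_lit 9) (.e (nat_lit 336456) (nat_lit 34) .nil)))))) (.g (nat_lit 1) (.e (nat_lit 357295) (nat_lit 0) .nil) .nil)))) (.nd (nat_lit 9) 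
(.lf (nat_lit 572716) (.g (nat_lit 1348) (.e (nat_lit 491264) (nat_lit 9) (.e (nat_lit 426110) (nat_lit 1) (.e (nat_lit 164327) (nat_lit 230) (.e (nat_lit 163868) (nat_lit 2) .nil)))) (.g (nat_lit 0) (.e (nat_lit 355777) (nat_lit 0) .nil) .nil))) 
(.lf (nat_lit 573228) (.g (nat_lit 1552) (.e (nat_lit 483364) (nat_lit 18) (.e (nat_lit 57927) (nat_lit 282) (.e (nat_lit 163875) (nat_lit 3) (.e (nat_lit 204877) (nat_lit 31) (.e (nat_lit 384768) (nat_lit 18) .nil))))) (.g (nat_lit 1) (.e (nat_lit 357610) (nat_lit 0) .nil) .nil))))) (.nd (nat_lit 8) (.nd (nat_lit 9) 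
(.lf (nat_lit 572588) (.g (nat_lit 1660) (.e (nat_lit 483341) (nat_lit 9) (.e (nat_lit 426100) (nat_lit 1) (.e (nat_lit 164403) (nat_lit 256) (.e (nat_lit 57378) (nat_lit 3) .nil)))) (.g (nat_lit 0) (.e (nat_lit 355076) (nat_lit 0) .nil) .nil))) 
(.lf (nat_lit 573100) (.g (nat_lit 1708) (.e (nat_lit 483363) (nat_lit 18) (.e (nat_lit 57928) (nat_lit 282) (.e (nat_lit 163875) (nat_lit 3) (.e (nat_lit 204865) (nat_lit 28) (.e (nat_lit 360192) (nat_lit 18) .nil))))) (.g (nat_lit 1) (.e (nat_lit 357447) (nat_lit 0) .nil) .nil)))) (.nd (nat_lit 9) 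
(.lf (nat_lit 572844) (.g (nat_lit 587) (.e (nat_lit 483362) (nat_lit 18) (.e (nat_lit 57849) (nat_lit 252) (.e (nat_lit 57377) (nat_lit 3) .nil))) (.g (nat_lit 0) (.e (nat_lit 357112) (nat_lit 0) .nil) .nil))) 
(.lf (nat_lit 573356) (.g (nat_lit 1965) (.e (nat_lit 483365) (nat_lit 18) (.e (nat_lit 57848) (nat_lit 252) (.e (nat_lit 57375) (nat_lit 2) (.e (nat_lit 90155) (nat_lit 10) .nil)))) (.g (nat_lit 0) (.e (nat_lit 357778) (nat_lit 0) .nil) .nil)))))) (.nd (nat_lit 7) (.nd (nat_lit 8) (.nd (nat_lit 9) 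
(.lf (nat_lit 572524) (.g (nat_lit 1008) (.e (nat_lit 483341) (nat_lit 9) (.e (nat_lit 426098) (nat_lit 1) (.e (nat_lit 164396) (nat_lit 256) .nil))) (.g (nat_lit 0) (.e (nat_lit 354976) (nat_lit 0) .nil) .nil))) 
(.lf (nat_lit 573036) (.g (nat_lit 2059) (.e (nat_lit 483363) (nat_lit 18) (.e (nat_lit 57926) (nat_lit 282) (.e (nat_lit 163868) (nat_lit 2) (.e (nat_lit 196674) (nat_lit 15) (.e (nat_lit 89856) (nat_lit 18) .nil))))) (.g (nat_lit 0) (.e (nat_lit 357369) (nat_lit 0) .nil) .nil)))) (.nd (nat_lit 9) 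
(.lf (nat_lit 572780) (.g (nat_lit 3731) (.e (nat_lit 483346) (nat_lit 17) (.e (nat_lit 6712) (nat_lit 360) (.e (nat_lit 163978) (nat_lit 30) (.e (nat_lit 573484) (nat_lit 13) (.e (nat_lit 65563) (nat_lit 1) (.e (nat_lit 57926) (nat_lit 282) (.e (nat_lit 163943) (nat_lit 19) .nil))))))) (.g (nat_lit 1) (.e (nat_lit 356719) (nat_lit 0) .nil) .nil))) 
(.lf (nat_lit 573292) (.g (nat_lit 1239) (.e (nat_lit 483365) (nat_lit 18) (.e (nat_lit 57844) (nat_lit 252) (.e (nat_lit 57372) (nat_lit 2) (.e (nat_lit 90160) (nat_lit 11) .nil)))) (.g (nat_lit 0) (.e (nat_lit 357700) (nat_lit 0) .nil) .nil))))) (.nd (nat_lit 8) (.nd (nat_lit 9) 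
(.lf (nat_lit 572652) (.g (nat_lit 4502) (.e (nat_lit 483341) (nat_lit 9) (.e (nat_lit 426108) (nat_lit 1) (.e (nat_lit 164330) (nat_lit 230) (.e (nat_lit 163869) (nat_lit 2) (.e (nat_lit 196655) (nat_lit 11) (.e (nat_lit 16465) (nat_lit 13) .nil)))))) (.g (nat_lit 1) (.e (nat_lit 355246) (nat_lit 0) .nil) .nil))) 
(.lf (nat_lit 573164) (.g (nat_lit 2102) (.e (nat_lit 483364) (nat_lit 18) (.e (nat_lit 57926) (nat_lit 282) (.e (nat_lit 163867) (nat_lit 2) (.e (nat_lit 196672) (nat_lit 15) (.e (nat_lit 89856) (nat_lit 18) .nil))))) (.g (nat_lit 1) (.e (nat_lit 357530) (nat_lit 0) .nil) .nil)))) (.nd (nat_lit 9) 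
(.lf (nat_lit 572908) (.g (nat_lit 2360) (.e (nat_lit 483363) (nat_lit 18) (.e (nat_lit 57691) (nat_lit 156) (.e (nat_lit 163905) (nat_lit 12) (.e (nat_lit 426438) (nat_lit 18) (.e (nat_lit 98362) (nat_lit 26) (.e (nat_lit 426329) (nat_lit 13) .nil)))))) (.g (nat_lit 1) (.e (nat_lit 357207) (nat_lit 0) .nil) .nil))) 
(.lf (nat_lit 573420) (.g (nat_lit 1700) (.e (nat_lit 483365) (nat_lit 18) (.e (nat_lit 57924) (nat_lit 282) (.e (nat_lit 163875) (nat_lit 3) (.e (nat_lit 204866) (nat_lit 28) (.e (nat_lit 360192) (nat_lit 18) .nil))))) (.g (nat_lit 0) (.e (nat_lit 357861) (nat_lit 0) .nil) .nil)))))))) (.nd (nat_lit 5) (.nd (nat_lit 6) (.nd (nat_lit 7) (.nd (nat_lit 8) (.nd (nat_lit 9) 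
(.lf (nat_lit 572444) (.g (nat_lit 2048) (.e (nat_lit 483339) (nat_lit 9) (.e (nat_lit 426260) (nat_lit 9) (.e (nat_lit 426435) (nat_lit 18) (.e (nat_lit 98334) (nat_lit 18) (.e (nat_lit 164332) (nat_lit 230) (.e (nat_lit 163941) (nat_lit 19) .nil)))))) (.g (nat_lit 1) (.e (nat_lit 354766) (nat_lit 0) .nil) .nil))) 
(.lf (nat_lit 572956) (.g (nat_lit 2126) (.e (nat_lit 483363) (nat_lit 18) (.e (nat_lit 57847) (nat_lit 252) (.e (nat_lit 57372) (nat_lit 2) (.e (nat_lit 90125) (nat_lit 9) (.e (nat_lit 333) (nat_lit 26) .nil))))) (.g (nat_lit 0) (.e (nat_lit 357274) (nat_lit 0) .nil) .nil)))) (.nd (nat_lit 9) 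
(.lf (nat_lit 572700) (.g (nat_lit 2817) (.e (nat_lit 483341) (nat_lit 9) (.e (nat_lit 426316) (nat_lit 12) (.e (nat_lit 475178) (nat_lit 24) (.e (nat_lit 516117) (nat_lit 1) (.e (nat_lit 164329) (nat_lit 230) (.e (nat_lit 163941) (nat_lit 19) .nil)))))) (.g (nat_lit 1) (.e (nat_lit 355720) (nat_lit 0) .nil) .nil))) 
(.lf (nat_lit 573212) (.g (nat_lit 1690) (.e (nat_lit 483364) (nat_lit 18) (.e (nat_lit 57927) (nat_lit 282) (.e (nat_lit 163873) (nat_lit 3) (.e (nat_lit 204867) (nat_lit 28) .nil)))) (.g (nat_lit 0) (.e (nat_lit 357593) (nat_lit 0) .nil) .nil))))) (.nd (nat_lit 8) (.nd (nat_lit 9) 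
(.lf (nat_lit 572572) (.g (nat_lit 3501) (.e (nat_lit 483341) (nat_lit 9) (.e (nat_lit 426100) (nat_lit 1) (.e (nat_lit 164398) (nat_lit 256) (.e (nat_lit 57379) (nat_lit 3) (.e (nat_lit 98365) (nat_lit 26) (.e (nat_lit 426325) (nat_lit 13) .nil)))))) (.g (nat_lit 1) (.e (nat_lit 355059) (nat_lit 0) .nil) .nil))) 
(.lf (nat_lit 573084) (.g (nat_lit 2232) (.e (nat_lit 483363) (nat_lit 18) (.e (nat_lit 57927) (nat_lit 282) (.e (nat_lit 163874) (nat_lit 3) (.e (nat_lit 204861) (nat_lit 26) (.e (nat_lit 336077) (nat_lit 9) .nil))))) (.g (nat_lit 0) (.e (nat_lit 357431) (nat_lit 0) .nil) .nil)))) (.nd (nat_lit 9) 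
(.lf (nat_lit 572828) (.g (nat_lit 1558) (.e (nat_lit 483362) (nat_lit 18) (.e (nat_lit 57688) (nat_lit 156) (.e (nat_lit 163903) (nat_lit 12) (.e (nat_lit 426436) (nat_lit 18) .nil)))) (.g (nat_lit 0) (.e (nat_lit 357096) (nat_lit 0) .nil) .nil))) 
(.lf (nat_lit 573340) (.g (nat_lit 962) (.e (nat_lit 483365) (nat_lit 18) (.e (nat_lit 57848) (nat_lit 252) (.e (nat_lit 57372) (nat_lit 2) (.e (nat_lit 90125) (nat_lit 9) .nil)))) (.g (nat_lit 0) (.e (nat_lit 357760) (nat_lit 0) .nil) .nil)))))) (.nd (nat_lit 7) (.nd (nat_lit 8) (.nd (nat_lit 9) 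
(.lf (nat_lit 572508) (.g (nat_lit 627) (.e (nat_lit 483340) (nat_lit 9) (.e (nat_lit 426198) (nat_lit 9) (.e (nat_lit 426402) (nat_lit 15) .nil))) (.g (nat_lit 0) (.e (nat_lit 354879) (nat_lit 0) .nil) .nil))) 
(.lf (nat_lit 573020) (.g (nat_lit 3944) (.e (nat_lit 483363) (nat_lit 18) (.e (nat_lit 57854) (nat_lit 252) (.e (nat_lit 57373) (nat_lit 2) (.e (nat_lit 90160) (nat_lit 11) (.e (nat_lit 24628) (nat_lit 9) (.e (nat_lit 336454) (nat_lit 34) .nil)))))) (.g (nat_lit 1) (.e (nat_lit 357350) (nat_lit 0) .nil) .nil)))) (.nd (nat_lit 9) 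
(.lf (nat_lit 572764) (.g (nat_lit 422) (.e (nat_lit 483343) (nat_lit 17) (.e (nat_lit 6712) (nat_lit 360) (.e (nat_lit 163976) (nat_lit 30) .nil))) (.g (nat_lit 0) (.e (nat_lit 356326) (nat_lit 0) .nil) .nil))) 
(.lf (nat_lit 573276) (.g (nat_lit 419) (.e (nat_lit 483365) (nat_lit 18) (.e (nat_lit 57688) (nat_lit 156) (.e (nat_lit 163903) (nat_lit 12) .nil))) (.g (nat_lit 0) (.e (nat_lit 357669) (nat_lit 0) .nil) .nil))))) (.nd (nat_lit 8) (.nd (nat_lit 9) 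
(.lf (nat_lit 572636) (.g (nat_lit 994) (.e (nat_lit 483341) (nat_lit 9) (.e (nat_lit 426107) (nat_lit 1) (.e (nat_lit 164401) (nat_lit 256) (.e (nat_lit 57378) (nat_lit 3) .nil)))) (.g (nat_lit 0) (.e (nat_lit 355213) (nat_lit 0) .nil) .nil))) 
(.lf (nat_lit 573148) (.g (nat_lit 1422) (.e (nat_lit 483364) (nat_lit 18) (.e (nat_lit 57854) (nat_lit 252) (.e (nat_lit 57377) (nat_lit 3) (.e (nat_lit 98309) (nat_lit 0) .nil)))) (.g (nat_lit 0) (.e (nat_lit 357513) (nat_lit 0) .nil) .nil)))) (.nd (nat_lit 9) 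
(.lf (nat_lit 572892) (.g (nat_lit 496) (.e (nat_lit 483363) (nat_lit 18) (.e (nat_lit 57688) (nat_lit 156) (.e (nat_lit 163904) (nat_lit 12) .nil))) (.g (nat_lit 0) (.e (nat_lit 357175) (nat_lit 0) .nil) .nil))) 
(.lf (nat_lit 573404) (.g (nat_lit 3431) (.e (nat_lit 483365) (nat_lit 18) (.e (nat_lit 57854) (nat_lit 252) (.e (nat_lit 57371) (nat_lit 2) (.e (nat_lit 90159) (nat_lit 11) (.e (nat_lit 24627) (nat_lit 9) (.e (nat_lit 336454) (nat_lit 34) .nil)))))) (.g (nat_lit 1) (.e (nat_lit 357838) (nat_lit 0) .nil) .nil))))))) (.nd (nat_lit 6) (.nd (nat_lit 7) (.nd (nat_lit 8) (.nd (nat_lit 9) 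
(.lf (nat_lit 572476) (.g (nat_lit 1678) (.e (nat_lit 483340) (nat_lit 9) (.e (nat_lit 426100) (nat_lit 1) (.e (nat_lit 164398) (nat_lit 256) (.e (nat_lit 57378) (nat_lit 3) .nil)))) (.g (nat_lit 0) (.e (nat_lit 354826) (nat_lit 0) .nil) .nil))) 
(.lf (nat_lit 572988) (.g (nat_lit 1804) (.e (nat_lit 483363) (nat_lit 18) (.e (nat_lit 57849) (nat_lit 252) (.e (nat_lit 57372) (nat_lit 2) (.e (nat_lit 90125) (nat_lit 9) .nil)))) (.g (nat_lit 0) (.e (nat_lit 357315) (nat_lit 0) .nil) .nil)))) (.nd (nat_lit 9) 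
(.lf (nat_lit 572732) (.g (nat_lit 1025) (.e (nat_lit 491264) (nat_lit 10) (.e (nat_lit 434275) (nat_lit 39) (.e (nat_lit 663584) (nat_lit 12) (.e (nat_lit 163979) (nat_lit 30) .nil)))) (.g (nat_lit 0) (.e (nat_lit 355849) (nat_lit 0) .nil) .nil))) 
(.lf (nat_lit 573244) (.g (nat_lit 1087) (.e (nat_lit 483364) (nat_lit 18) (.e (nat_lit 57930) (nat_lit 282) (.e (nat_lit 163867) (nat_lit 2) (.e (nat_lit 196672) (nat_lit 15) .nil)))) (.g (nat_lit 0) (.e (nat_lit 357629) (nat_lit 0) .nil) .nil))))) (.nd (nat_lit 8) (.nd (nat_lit 9) 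
(.lf (nat_lit 572604) (.g (nat_lit 2110) (.e (nat_lit 483341) (nat_lit 9) (.e (nat_lit 426106) (nat_lit 1) (.e (nat_lit 164332) (nat_lit 230) (.e (nat_lit 163865) (nat_lit 2) (.e (nat_lit 196654) (nat_lit 11) .nil))))) (.g (nat_lit 0) (.e (nat_lit 355117) (nat_lit 0) .nil) .nil))) 
(.lf (nat_lit 573116) (.g (nat_lit 2338) (.e (nat_lit 483363) (nat_lit 18) (.e (nat_lit 57931) (nat_lit 282) (.e (nat_lit 163874) (nat_lit 3) (.e (nat_lit 204861) (nat_lit 26) (.e (nat_lit 336077) (nat_lit 9) .nil))))) (.g (nat_lit 0) (.e (nat_lit 357466) (nat_lit 0) .nil) .nil)))) (.nd (nat_lit 9) 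
(.lf (nat_lit 572860) (.g (nat_lit 1382) (.e (nat_lit 483362) (nat_lit 18) (.e (nat_lit 57926) (nat_lit 282) (.e (nat_lit 163874) (nat_lit 3) (.e (nat_lit 204877) (nat_lit 31) (.e (nat_lit 384768) (nat_lit 18) .nil))))) (.g (nat_lit 1) (.e (nat_lit 357130) (nat_lit 0) .nil) .nil))) 
(.lf (nat_lit 573372) (.g (nat_lit 3161) (.e (nat_lit 483365) (nat_lit 18) (.e (nat_lit 57849) (nat_lit 252) (.e (nat_lit 57374) (nat_lit 2) (.e (nat_lit 90157) (nat_lit 11) (.e (nat_lit 24627) (nat_lit 9) (.e (nat_lit 336454) (nat_lit 34) .nil)))))) (.g (nat_lit 1) (.e (nat_lit 357801) (nat_lit 0) .nil) .nil)))))) (.nd (nat_lit 7) (.nd (nat_lit 8) (.nd (nat_lit 9) 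
(.lf (nat_lit 572540) (.g (nat_lit 1726) (.e (nat_lit 483341) (nat_lit 9) (.e (nat_lit 426098) (nat_lit 1) (.e (nat_lit 164403) (nat_lit 256) (.e (nat_lit 57371) (nat_lit 2) .nil)))) (.g (nat_lit 0) (.e (nat_lit 354993) (nat_lit 0) .nil) .nil))) 
(.lf (nat_lit 573052) (.g (nat_lit 2256) (.e (nat_lit 483363) (nat_lit 18) (.e (nat_lit 57926) (nat_lit 282) (.e (nat_lit 163874) (nat_lit 3) (.e (nat_lit 204877) (nat_lit 31) (.e (nat_lit 384768) (nat_lit 18) .nil))))) (.g (nat_lit 1) (.e (nat_lit 357390) (nat_lit 0) .nil) .nil)))) (.nd (nat_lit 9) 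
(.lf (nat_lit 572796) (.g (nat_lit 1067) (.e (nat_lit 483350) (nat_lit 17) (.e (nat_lit 6113) (nat_lit 332) (.e (nat_lit 1374) (nat_lit 104) (.e (nat_lit 311040) (nat_lit 25) .nil)))) (.g (nat_lit 0) (.e (nat_lit 357037) (nat_lit 0) .nil) .nil))) 
(.lf (nat_lit 573308) (.g (nat_lit 2322) (.e (nat_lit 483365) (nat_lit 18) (.e (nat_lit 57847) (nat_lit 252) (.e (nat_lit 57365) (nat_lit 1) (.e (nat_lit 57854) (nat_lit 252) (.e (nat_lit 57389) (nat_lit 5) (.e (nat_lit 114723) (nat_lit 24) (.e (nat_lit 106504) (nat_lit 9) (.e (nat_lit 492) (nat_lit 39) .nil)))))))) (.g (nat_lit 1) (.e (nat_lit 357719) (nat_lit 0) .nil) .nil))))) 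
(.nd (nat_lit 8) (.nd (nat_lit 9) 
(.lf (nat_lit 572668) (.g (nat_lit 1667) (.e (nat_lit 483341) (nat_lit 9) (.e (nat_lit 426108) (nat_lit 1) (.e (nat_lit 164403) (nat_lit 256) (.e (nat_lit 57378) (nat_lit 3) (.e (nat_lit 98356) (nat_lit 26) .nil))))) (.g (nat_lit 0) (.e (nat_lit 355292) (nat_lit 0) .nil) .nil))) 
(.lf (nat_lit 573180) (.g (nat_lit 1500) (.e (nat_lit 483364) (nat_lit 18) (.e (nat_lit 57926) (nat_lit 282) (.e (nat_lit 163873) (nat_lit 3) (.e (nat_lit 204878) (nat_lit 31) .nil)))) (.g (nat_lit 0) (.e (nat_lit 357555) (nat_lit 0) .nil) .nil)))) (.nd (nat_lit 9) 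
(.lf (nat_lit 572924) (.g (nat_lit 2018) (.e (nat_lit 483363) (nat_lit 18) (.e (nat_lit 57692) (nat_lit 156) (.e (nat_lit 163905) (nat_lit 12) (.e (nat_lit 426438) (nat_lit 18) (.e (nat_lit 98362) (nat_lit 26) (.e (nat_lit 426329) (nat_lit 13) .nil)))))) (.g (nat_lit 1) (.e (nat_lit 357230) (nat_lit 0) .nil) .nil))) 
(.lf (nat_lit 573436) (.g (nat_lit 2046) (.e (nat_lit 483365) (nat_lit 18) (.e (nat_lit 57930) (nat_lit 282) (.e (nat_lit 163869) (nat_lit 2) (.e (nat_lit 196674) (nat_lit 15) (.e (nat_lit 89856) (nat_lit 18) .nil))))) (.g (nat_lit 1) (.e (nat_lit 357878) (nat_lit 0) .nil) .nil))))))))))) 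
(.nd (nat_lit 2) (.nd (nat_lit 3) (.nd (nat_lit 4) (.nd (nat_lit 5) (.nd (nat_lit 6) 
(.nd (nat_lit 7) (.nd (nat_lit 8) (.nd (nat_lit 9) 
(.lf (nat_lit 572418) (.g (nat_lit 2611) (.e (nat_lit 483337) (nat_lit 9) (.e (nat_lit 426313) (nat_lit 12) (.e (nat_lit 475179) (nat_lit 24) (.e (nat_lit 516117) (nat_lit 1) (.e (nat_lit 164330) (nat_lit 230) (.e (nat_lit 163941) (nat_lit 19) .nil)))))) (.g (nat_lit 1) (.e (nat_lit 354650) (nat_lit 0) .nil) .nil))) 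
(.lf (nat_lit 572930) (.g (nat_lit 2171) (.e (nat_lit 483363) (nat_lit 18) (.e (nat_lit 57692) (nat_lit 156) (.e (nat_lit 163907) (nat_lit 12) (.e (nat_lit 426438) (nat_lit 18) (.e (nat_lit 98362) (nat_lit 26) (.e (nat_lit 426329) (nat_lit 13) .nil)))))) (.g (nat_lit 1) (.e (nat_lit 357238) (nat_lit 0) .nil) .nil)))) (.nd (nat_lit 9) 
(.lf (nat_lit 572674) (.g (nat_lit 3725) (.e (nat_lit 483341) (nat_lit 9) (.e (nat_lit 426187) (nat_lit 9) (.e (nat_lit 426436) (nat_lit 18) (.e (nat_lit 98335) (nat_lit 18) (.e (nat_lit 164329) (nat_lit 230) (.e (nat_lit 163942) (nat_lit 19) .nil)))))) (.g (nat_lit 1) (.e (nat_lit 355304) (nat_lit 0) .nil) .nil))) 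
(.lf (nat_lit 573186) (.g (nat_lit 1913) (.e (nat_lit 483364) (nat_lit 18) (.e (nat_lit 57926) (nat_lit 282) (.e (nat_lit 163874) (nat_lit 3) (.e (nat_lit 204877) (nat_lit 31) (.e (nat_lit 384768) (nat_lit 18) .nil))))) (.g (nat_lit 1) (.e (nat_lit 357561) (nat_lit 0) .nil) .nil))))) (.nd (nat_lit 8) (.nd (nat_lit 9) 
(.lf (nat_lit 572546) (.g (nat_lit 2891) (.e (nat_lit 483341) (nat_lit 9) (.e (nat_lit 426099) (nat_lit 1) (.e (nat_lit 164332) (nat_lit 230) (.e (nat_lit 163869) (nat_lit 2) (.e (nat_lit 196653) (nat_lit 11) (.e (nat_lit 16465) (nat_lit 13) .nil)))))) (.g (nat_lit 1) (.e (nat_lit 355003) (nat_lit 0) .nil) .nil))) 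
(.lf (nat_lit 573058) (.g (nat_lit 2483) (.e (nat_lit 483363) (nat_lit 18) (.e (nat_lit 57926) (nat_lit 282) (.e (nat_lit 163875) (nat_lit 3) (.e (nat_lit 204861) (nat_lit 26) (.e (nat_lit 336077) (nat_lit 9) .nil))))) (.g (nat_lit 0) (.e (nat_lit 357396) (nat_lit 0) .nil) .nil)))) (.nd (nat_lit 9) 
(.lf (nat_lit 572802) (.g (nat_lit 3127) (.e (nat_lit 483350) (nat_lit 17) (.e (nat_lit 6113) (nat_lit 332) (.e (nat_lit 1376) (nat_lit 104) (.e (nat_lit 303153) (nat_lit 27) .nil)))) (.g (nat_lit 0) (.e (nat_lit 357045) (nat_lit 0) .nil) .nil))) 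
(.lf (nat_lit 573314) (.g (nat_lit 3403) (.e (nat_lit 483365) (nat_lit 18) (.e (nat_lit 57847) (nat_lit 252) (.e (nat_lit 57365) (nat_lit 1) (.e (nat_lit 57854) (nat_lit 252) (.e (nat_lit 57389) (nat_lit 5) (.e (nat_lit 114723) (nat_lit 24) (.e (nat_lit 106509) (nat_lit 9) (.e (nat_lit 492) (nat_lit 39) .nil)))))))) (.g (nat_lit 1) (.e (nat_lit 357725) (nat_lit 0) .nil) .nil)))))) 
(.nd (nat_lit 7) (.nd (nat_lit 8) (.nd (nat_lit 9) 
(.lf (nat_lit 572482) (.g (nat_lit 2289) (.e (nat_lit 483340) (nat_lit 9) (.e (nat_lit 426100) (nat_lit 1) (.e (nat_lit 164399) (nat_lit 256) (.e (nat_lit 57372) (nat_lit 2) (.e (nat_lit 90169) (nat_lit 13) .nil))))) (.g (nat_lit 0) (.e (nat_lit 354832) (nat_lit 0) .nil) .nil))) 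
(.lf (nat_lit 572994) (.g (nat_lit 3693) (.e (nat_lit 483363) (nat_lit 18) (.e (nat_lit 57849) (nat_lit 252) (.e (nat_lit 57375) (nat_lit 2) (.e (nat_lit 90158) (nat_lit 11) (.e (nat_lit 24630) (nat_lit 9) (.e (nat_lit 336456) (nat_lit 34) .nil)))))) (.g (nat_lit 1) (.e (nat_lit 357323) (nat_lit 0) .nil) .nil)))) (.nd (nat_lit 9) 
(.lf (nat_lit 572738) (.g (nat_lit 791) (.e (nat_lit 491264) (nat_lit 13) (.e (nat_lit 458774) (nat_lit 18) (.e (nat_lit 5224) (nat_lit 296) (.e (nat_lit 163871) (nat_lit 2) .nil)))) (.g (nat_lit 0) (.e (nat_lit 356240) (nat_lit 0) .nil) .nil))) 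
(.lf (nat_lit 573250) (.g (nat_lit 2453) (.e (nat_lit 483364) (nat_lit 18) (.e (nat_lit 57931) (nat_lit 282) (.e (nat_lit 163869) (nat_lit 2) (.e (nat_lit 196674) (nat_lit 15) (.e (nat_lit 89856) (nat_lit 18) .nil))))) (.g (nat_lit 1) (.e (nat_lit 357637) (nat_lit 0) .nil) .nil))))) (.nd (nat_lit 8) (.nd (nat_lit 9) 
(.lf (nat_lit 572610) (.g (nat_lit 367) (.e (nat_lit 483341) (nat_lit 9) (.e (nat_lit 426107) (nat_lit 1) (.e (nat_lit 164325) (nat_lit 230) .nil))) (.g (nat_lit 0) (.e (nat_lit 355137) (nat_lit 0) .nil) .nil))) 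
(.lf (nat_lit 573122) (.g (nat_lit 2550) (.e (nat_lit 483363) (nat_lit 18) (.e (nat_lit 57931) (nat_lit 282) (.e (nat_lit 163874) (nat_lit 3) (.e (nat_lit 204878) (nat_lit 31) (.e (nat_lit 384768) (nat_lit 18) .nil))))) (.g (nat_lit 0) (.e (nat_lit 357472) (nat_lit 0) .nil) .nil)))) (.nd (nat_lit 9) 
(.lf (nat_lit 572866) (.g (nat_lit 1369) (.e (nat_lit 483362) (nat_lit 18) (.e (nat_lit 57926) (nat_lit 282) (.e (nat_lit 163875) (nat_lit 3) (.e (nat_lit 204877) (nat_lit 31) (.e (nat_lit 384768) (nat_lit 18) .nil))))) (.g (nat_lit 0) (.e (nat_lit 357136) (nat_lit 0) .nil) .nil))) 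
(.lf (nat_lit 573378) (.g (nat_lit 730) (.e (nat_lit 483365) (nat_lit 18) (.e (nat_lit 57849) (nat_lit 252) (.e (nat_lit 57376) (nat_lit 3) .nil))) (.g (nat_lit 0) (.e (nat_lit 357808) (nat_lit 0) .nil) .nil))))))) (.nd (nat_lit 6) (.nd (nat_lit 7) (.nd (nat_lit 8) (.nd (nat_lit 9) 
(.lf (nat_lit 572450) (.g (nat_lit 2082) (.e (nat_lit 483339) (nat_lit 9) (.e (nat_lit 426261) (nat_lit 9) (.e (nat_lit 426435) (nat_lit 18) (.e (nat_lit 98335) (nat_lit 18) (.e (nat_lit 164327) (nat_lit 230) (.e (nat_lit 163944) (nat_lit 19) .nil)))))) (.g (nat_lit 1) (.e (nat_lit 354780) (nat_lit 0) .nil) .nil))) 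
(.lf (nat_lit 572962) (.g (nat_lit 2840) (.e (nat_lit 483363) (nat_lit 18) (.e (nat_lit 57847) (nat_lit 252) (.e (nat_lit 57372) (nat_lit 2) (.e (nat_lit 90160) (nat_lit 11) (.e (nat_lit 24628) (nat_lit 9) (.e (nat_lit 336452) (nat_lit 34) .nil)))))) (.g (nat_lit 1) (.e (nat_lit 357285) (nat_lit 0) .nil) .nil)))) (.nd (nat_lit 9) 
(.lf (nat_lit 572706) (.g (nat_lit 1924) (.e (nat_lit 491264) (nat_lit 9) (.e (nat_lit 426098) (nat_lit 1) (.e (nat_lit 164327) (nat_lit 230) (.e (nat_lit 163871) (nat_lit 2) (.e (nat_lit 196654) (nat_lit 11) .nil))))) (.g (nat_lit 0) (.e (nat_lit 355747) (nat_lit 0) .nil) .nil))) 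
(.lf (nat_lit 573218) (.g (nat_lit 2121) (.e (nat_lit 483364) (nat_lit 18) (.e (nat_lit 57927) (nat_lit 282) (.e (nat_lit 163874) (nat_lit 3) (.e (nat_lit 204866) (nat_lit 28) (.e (nat_lit 360192) (nat_lit 18) .nil))))) (.g (nat_lit 1) (.e (nat_lit 357599) (nat_lit 0) .nil) .nil))))) (.nd (nat_lit 8) (.nd (nat_lit 9) 
(.lf (nat_lit 572578) (.g (nat_lit 2954) (.e (nat_lit 483341) (nat_lit 9) (.e (nat_lit 426100) (nat_lit 1) (.e (nat_lit 164399) (nat_lit 256) (.e (nat_lit 57377) (nat_lit 3) (.e (nat_lit 98365) (nat_lit 26) (.e (nat_lit 426326) (nat_lit 13) .nil)))))) (.g (nat_lit 1) (.e (nat_lit 355065) (nat_lit 0) .nil) .nil))) 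
(.lf (nat_lit 573090) (.g (nat_lit 2285) (.e (nat_lit 483363) (nat_lit 18) (.e (nat_lit 57927) (nat_lit 282) (.e (nat_lit 163874) (nat_lit 3) (.e (nat_lit 204878) (nat_lit 31) (.e (nat_lit 384768) (nat_lit 18) .nil))))) (.g (nat_lit 0) (.e (nat_lit 357437) (nat_lit 0) .nil) .nil)))) (.nd (nat_lit 9) 
(.lf (nat_lit 572834) (.g (nat_lit 1996) (.e (nat_lit 483362) (nat_lit 18) (.e (nat_lit 57691) (nat_lit 156) (.e (nat_lit 163907) (nat_lit 12) (.e (nat_lit 426428) (nat_lit 17) (.e (nat_lit 90170) (nat_lit 13) .nil))))) (.g (nat_lit 0) (.e (nat_lit 357102) (nat_lit 0) .nil) .nil))) 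
(.lf (nat_lit 573346) (.g (nat_lit 2402) (.e (nat_lit 483365) (nat_lit 18) (.e (nat_lit 57848) (nat_lit 252) (.e (nat_lit 57373) (nat_lit 2) (.e (nat_lit 90158) (nat_lit 11) (.e (nat_lit 24628) (nat_lit 9) (.e (nat_lit 336454) (nat_lit 34) .nil)))))) (.g (nat_lit 1) (.e (nat_lit 357768) (nat_lit 0) .nil) .nil)))))) (.nd (nat_lit 7) (.nd (nat_lit 8) (.nd (nat_lit 9) 
(.lf (nat_lit 572514) (.g (nat_lit 1001) (.e (nat_lit 483341) (nat_lit 9) (.e (nat_lit 426098) (nat_lit 1) (.e (nat_lit 164324) (nat_lit 230) .nil))) (.g (nat_lit 0) (.e (nat_lit 354909) (nat_lit 0) .nil) .nil))) 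
(.lf (nat_lit 573026) (.g (nat_lit 2169) (.e (nat_lit 483363) (nat_lit 18) (.e (nat_lit 57924) (nat_lit 282) (.e (nat_lit 163867) (nat_lit 2) (.e (nat_lit 196672) (nat_lit 15) (.e (nat_lit 89856) (nat_lit 18) .nil))))) (.g (nat_lit 1) (.e (nat_lit 357358) (nat_lit 0) .nil) .nil)))) (.nd (nat_lit 9) 
(.lf (nat_lit 572770) (.g (nat_lit 1710) (.e (nat_lit 483343) (nat_lit 17) (.e (nat_lit 6724) (nat_lit 362) (.e (nat_lit 180271) (nat_lit 26) (.e (nat_lit 704737) (nat_lit 11) (.e (nat_lit 16464) (nat_lit 13) .nil))))) (.g (nat_lit 0) (.e (nat_lit 356400) (nat_lit 0) .nil) .nil))) 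
(.lf (nat_lit 573282) (.g (nat_lit 3520) (.e (nat_lit 483365) (nat_lit 18) (.e (nat_lit 57691) (nat_lit 156) (.e (nat_lit 163905) (nat_lit 12) (.e (nat_lit 426428) (nat_lit 17) (.e (nat_lit 90185) (nat_lit 17) (.e (nat_lit 237623) (nat_lit 13) .nil)))))) (.g (nat_lit 1) (.e (nat_lit 357681) (nat_lit 0) .nil) .nil))))) (.nd (nat_lit 8) (.nd (nat_lit 9) 
(.lf (nat_lit 572642) (.g (nat_lit 1062) (.e (nat_lit 483341) (nat_lit 9) (.e (nat_lit 426108) (nat_lit 1) (.e (nat_lit 164305) (nat_lit 226) (.e (nat_lit 2612) (nat_lit 163) .nil)))) (.g (nat_lit 0) (.e (nat_lit 355221) (nat_lit 0) .nil) .nil))) 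
(.lf (nat_lit 573154) (.g (nat_lit 2431) (.e (nat_lit 483364) (nat_lit 18) (.e (nat_lit 57924) (nat_lit 282) (.e (nat_lit 163867) (nat_lit 2) (.e (nat_lit 196681) (nat_lit 17) (.e (nat_lit 131105) (nat_lit 9) (.e (nat_lit 336454) (nat_lit 34) .nil)))))) (.g (nat_lit 1) (.e (nat_lit 357520) (nat_lit 0) .nil) .nil)))) (.nd (nat_lit 9) 
(.lf (nat_lit 572898) (.g (nat_lit 3013) (.e (nat_lit 483363) (nat_lit 18) (.e (nat_lit 57688) (nat_lit 156) (.e (nat_lit 163907) (nat_lit 12) (.e (nat_lit 426428) (nat_lit 17) (.e (nat_lit 90185) (nat_lit 17) (.e (nat_lit 237623) (nat_lit 13) .nil)))))) (.g (nat_lit 1) (.e (nat_lit 357181) (nat_lit 0) .nil) .nil))) 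
(.lf (nat_lit 573410) (.g (nat_lit 4154) (.e (nat_lit 483365) (nat_lit 18) (.e (nat_lit 57854) (nat_lit 252) (.e (nat_lit 57373) (nat_lit 2) (.e (nat_lit 90160) (nat_lit 11) (.e (nat_lit 24623) (nat_lit 9) (.e (nat_lit 336456) (nat_lit 34) .nil)))))) (.g (nat_lit 1) (.e (nat_lit 357850) (nat_lit 0) .nil) .nil)))))))) 
(.nd (nat_lit 5) (.nd (nat_lit 6) (.nd (nat_lit 7) (.nd (nat_lit 8) (.nd (nat_lit 9) 
(.lf (nat_lit 572434) (.g (nat_lit 2597) (.e (nat_lit 483339) (nat_lit 9) (.e (nat_lit 426232) (nat_lit 9) (.e (nat_lit 426435) (nat_lit 18) (.e (nat_lit 98335) (nat_lit 18) (.e (nat_lit 164330) (nat_lit 230) (.e (nat_lit 163941) (nat_lit 19) .nil)))))) (.g (nat_lit 1) (.e (nat_lit 354726) (nat_lit 0) .nil) .nil))) 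
(.lf (nat_lit 572946) (.g (nat_lit 3852) (.e (nat_lit 483363) (nat_lit 18) (.e (nat_lit 57847) (nat_lit 252) (.e (nat_lit 57365) (nat_lit 1) (.e (nat_lit 57854) (nat_lit 252) (.e (nat_lit 57389) (nat_lit 5) (.e (nat_lit 114723) (nat_lit 24) (.e (nat_lit 106507) (nat_lit 9) (.e (nat_lit 492) (nat_lit 39) .nil)))))))) (.g (nat_lit 1) (.e (nat_lit 357260) (nat_lit 0) .nil) .nil)))) (.nd (nat_lit 9) 
(.lf (nat_lit 572690) (.g (nat_lit 3057) (.e (nat_lit 483341) (nat_lit 9) (.e (nat_lit 426199) (nat_lit 9) (.e (nat_lit 426436) (nat_lit 18) (.e (nat_lit 98335) (nat_lit 18) (.e (nat_lit 164329) (nat_lit 230) (.e (nat_lit 163942) (nat_lit 19) .nil)))))) (.g (nat_lit 1) (.e (nat_lit 355426) (nat_lit 0) .nil) .nil))) 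
(.lf (nat_lit 573202) (.g (nat_lit 1699) (.e (nat_lit 483364) (nat_lit 18) (.e (nat_lit 57927) (nat_lit 282) (.e (nat_lit 163868) (nat_lit 2) (.e (nat_lit 196673) (nat_lit 15) (.e (nat_lit 89856) (nat_lit 18) .nil))))) (.g (nat_lit 1) (.e (nat_lit 357578) (nat_lit 0) .nil) .nil))))) (.nd (nat_lit 8) (.nd (nat_lit 9) 
(.lf (nat_lit 572562) (.g (nat_lit 1399) (.e (nat_lit 483341) (nat_lit 9) (.e (nat_lit 426100) (nat_lit 1) (.e (nat_lit 164398) (nat_lit 256) (.e (nat_lit 57370) (nat_lit 2) .nil)))) (.g (nat_lit 0) (.e (nat_lit 355049) (nat_lit 0) .nil) .nil))) 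
(.lf (nat_lit 573074) (.g (nat_lit 2201) (.e (nat_lit 483363) (nat_lit 18) (.e (nat_lit 57927) (nat_lit 282) (.e (nat_lit 163868) (nat_lit 2) (.e (nat_lit 196674) (nat_lit 15) (.e (nat_lit 89856) (nat_lit 18) .nil))))) (.g (nat_lit 1) (.e (nat_lit 357412) (nat_lit 0) .nil) .nil)))) (.nd (nat_lit 9) 
(.lf (nat_lit 572818) (.g (nat_lit 217) (.e (nat_lit 483358) (nat_lit 17) (.e (nat_lit 6680) (nat_lit 357) (.e (nat_lit 2856) (nat_lit 184) .nil))) (.g (nat_lit 0) (.e (nat_lit 357078) (nat_lit 0) .nil) .nil))) 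
(.lf (nat_lit 573330) (.g (nat_lit 3942) (.e (nat_lit 483365) (nat_lit 18) (.e (nat_lit 57847) (nat_lit 252) (.e (nat_lit 57375) (nat_lit 2) (.e (nat_lit 90160) (nat_lit 11) (.e (nat_lit 24627) (nat_lit 9) (.e (nat_lit 336454) (nat_lit 34) .nil)))))) (.g (nat_lit 1) (.e (nat_lit 357750) (nat_lit 0) .nil) .nil)))))) (.nd (nat_lit 7) (.nd (nat_lit 8) (.nd (nat_lit 9) 
(.lf (nat_lit 572498) (.g (nat_lit 2681) (.e (nat_lit 483340) (nat_lit 9) (.e (nat_lit 426108) (nat_lit 1) (.e (nat_lit 164332) (nat_lit 230) (.e (nat_lit 163867) (nat_lit 2) (.e (nat_lit 196656) (nat_lit 11) .nil))))) (.g (nat_lit 0) (.e (nat_lit 354866) (nat_lit 0) .nil) .nil))) 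
(.lf (nat_lit 573010) (.g (nat_lit 1997) (.e (nat_lit 483363) (nat_lit 18) (.e (nat_lit 57854) (nat_lit 252) (.e (nat_lit 57371) (nat_lit 2) (.e (nat_lit 90160) (nat_lit 11) (.e (nat_lit 24636) (nat_lit 9) (.e (nat_lit 343808) (nat_lit 34) .nil)))))) (.g (nat_lit 1) (.e (nat_lit 357340) (nat_lit 0) .nil) .nil)))) (.nd (nat_lit 9) 
(.lf (nat_lit 572754) (.g (nat_lit 889) (.e (nat_lit 491264) (nat_lit 16) (.e (nat_lit 491566) (nat_lit 12) (.e (nat_lit 392960) (nat_lit 24) (.e (nat_lit 516145) (nat_lit 9) (.e (nat_lit 433920) (nat_lit 13) .nil))))) (.g (nat_lit 0) (.e (nat_lit 356303) (nat_lit 0) .nil) .nil))) 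
(.lf (nat_lit 573266) (.g (nat_lit 3141) (.e (nat_lit 483365) (nat_lit 18) (.e (nat_lit 57687) (nat_lit 156) (.e (nat_lit 163902) (nat_lit 12) (.e (nat_lit 426428) (nat_lit 17) (.e (nat_lit 90185) (nat_lit 17) (.e (nat_lit 237623) (nat_lit 13) .nil)))))) (.g (nat_lit 1) (.e (nat_lit 357656) (nat_lit 0) .nil) .nil))))) (.nd (nat_lit 8) (.nd (nat_lit 9) 
(.lf (nat_lit 572626) (.g (nat_lit 2687) (.e (nat_lit 483341) (nat_lit 9) (.e (nat_lit 426107) (nat_lit 1) (.e (nat_lit 164327) (nat_lit 230) (.e (nat_lit 163870) (nat_lit 2) (.e (nat_lit 196656) (nat_lit 11) (.e (nat_lit 16465) (nat_lit 13) .nil)))))) (.g (nat_lit 1) (.e (nat_lit 355184) (nat_lit 0) .nil) .nil))) 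
(.lf (nat_lit 573138) (.g (nat_lit 1993) (.e (nat_lit 483364) (nat_lit 18) (.e (nat_lit 57854) (nat_lit 252) (.e (nat_lit 57371) (nat_lit 2) (.e (nat_lit 90160) (nat_lit 11) (.e (nat_lit 24636) (nat_lit 9) (.e (nat_lit 336451) (nat_lit 34) .nil)))))) (.g (nat_lit 1) (.e (nat_lit 357498) (nat_lit 0) .nil) .nil)))) (.nd (nat_lit 9) 
(.lf (nat_lit 572882) (.g (nat_lit 1873) (.e (nat_lit 483363) (nat_lit 18) (.e (nat_lit 57686) (nat_lit 156) (.e (nat_lit 163905) (nat_lit 12) (.e (nat_lit 426428) (nat_lit 17) (.e (nat_lit 90170) (nat_lit 13) .nil))))) (.g (nat_lit 0) (.e (nat_lit 357158) (nat_lit 0) .nil) .nil))) 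
(.lf (nat_lit 573394) (.g (nat_lit 3551) (.e (nat_lit 483365) (nat_lit 18) (.e (nat_lit 57852) (nat_lit 252) (.e (nat_lit 57373) (nat_lit 2) (.e (nat_lit 90160) (nat_lit 11) (.e (nat_lit 24627) (nat_lit 9) (.e (nat_lit 336454) (nat_lit 34) .nil)))))) (.g (nat_lit 1) (.e (nat_lit 357827) (nat_lit 0) .nil) .nil))))))) (.nd (nat_lit 6) (.nd (nat_lit 7) (.nd (nat_lit 8) (.nd (nat_lit 9) 
(.lf (nat_lit 572466) (.g (nat_lit 1944) (.e (nat_lit 483340) (nat_lit 9) (.e (nat_lit 426098) (nat_lit 1) (.e (nat_lit 164325) (nat_lit 230) (.e (nat_lit 163871) (nat_lit 2) (.e (nat_lit 196654) (nat_lit 11) .nil))))) (.g (nat_lit 0) (.e (nat_lit 354809) (nat_lit 0) .nil) .nil))) 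
(.lf (nat_lit 572978) (.g (nat_lit 2813) (.e (nat_lit 483363) (nat_lit 18) (.e (nat_lit 57847) (nat_lit 252) (.e (nat_lit 57375) (nat_lit 2) (.e (nat_lit 90160) (nat_lit 11) (.e (nat_lit 24628) (nat_lit 9) (.e (nat_lit 336452) (nat_lit 34) .nil)))))) (.g (nat_lit 1) (.e (nat_lit 357305) (nat_lit 0) .nil) .nil)))) (.nd (nat_lit 9) 
(.lf (nat_lit 572722) (.g (nat_lit 1559) (.e (nat_lit 491264) (nat_lit 9) (.e (nat_lit 426320) (nat_lit 12) (.e (nat_lit 475179) (nat_lit 24) (.e (nat_lit 516117) (nat_lit 1) (.e (nat_lit 164332) (nat_lit 230) .nil))))) (.g (nat_lit 0) (.e (nat_lit 355817) (nat_lit 0) .nil) .nil))) 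
(.lf (nat_lit 573234) (.g (nat_lit 1484) (.e (nat_lit 483364) (nat_lit 18) (.e (nat_lit 57929) (nat_lit 282) (.e (nat_lit 163869) (nat_lit 2) (.e (nat_lit 196672) (nat_lit 15) (.e (nat_lit 89856) (nat_lit 18) .nil))))) (.g (nat_lit 1) (.e (nat_lit 357619) (nat_lit 0) .nil) .nil))))) (.nd (nat_lit 8) (.nd (nat_lit 9) 
(.lf (nat_lit 572594) (.g (nat_lit 3573) (.e (nat_lit 483341) (nat_lit 9) (.e (nat_lit 426106) (nat_lit 1) (.e (nat_lit 164322) (nat_lit 230) (.e (nat_lit 163867) (nat_lit 2) (.e (nat_lit 196656) (nat_lit 11) (.e (nat_lit 16466) (nat_lit 13) .nil)))))) (.g (nat_lit 1) (.e (nat_lit 355089) (nat_lit 0) .nil) .nil))) 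
(.lf (nat_lit 573106) (.g (nat_lit 1963) (.e (nat_lit 483363) (nat_lit 18) (.e (nat_lit 57930) (nat_lit 282) (.e (nat_lit 163869) (nat_lit 2) (.e (nat_lit 196672) (nat_lit 15) (.e (nat_lit 89856) (nat_lit 18) .nil))))) (.g (nat_lit 1) (.e (nat_lit 357453) (nat_lit 0) .nil) .nil)))) (.nd (nat_lit 9) 
(.lf (nat_lit 572850) (.g (nat_lit 1186) (.e (nat_lit 483362) (nat_lit 18) (.e (nat_lit 57925) (nat_lit 282) (.e (nat_lit 163875) (nat_lit 3) (.e (nat_lit 204865) (nat_lit 28) (.e (nat_lit 360192) (nat_lit 18) .nil))))) (.g (nat_lit 0) (.e (nat_lit 357118) (nat_lit 0) .nil) .nil))) 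
(.lf (nat_lit 573362) (.g (nat_lit 2528) (.e (nat_lit 483365) (nat_lit 18) (.e (nat_lit 57849) (nat_lit 252) (.e (nat_lit 57368) (nat_lit 1) (.e (nat_lit 57854) (nat_lit 252) (.e (nat_lit 57389) (nat_lit 5) (.e (nat_lit 114723) (nat_lit 24) (.e (nat_lit 106507) (nat_lit 9) (.e (nat_lit 492) (nat_lit 39) .nil)))))))) (.g (nat_lit 1) (.e (nat_lit 357787) (nat_lit 0) .nil) .nil)))))) 
(.nd (nat_lit 7) (.nd (nat_lit 8) (.nd (nat_lit 9) 
(.lf (nat_lit 572530) (.g (nat_lit 1835) (.e (nat_lit 483341) (nat_lit 9) (.e (nat_lit 426098) (nat_lit 1) (.e (nat_lit 164398) (nat_lit 256) (.e (nat_lit 57379) (nat_lit 3) .nil)))) (.g (nat_lit 0) (.e (nat_lit 354982) (nat_lit 0) .nil) .nil))) 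
(.lf (nat_lit 573042) (.g (nat_lit 2455) (.e (nat_lit 483363) (nat_lit 18) (.e (nat_lit 57926) (nat_lit 282) (.e (nat_lit 163871) (nat_lit 2) (.e (nat_lit 196674) (nat_lit 15) (.e (nat_lit 89856) (nat_lit 18) .nil))))) (.g (nat_lit 1) (.e (nat_lit 357379) (nat_lit 0) .nil) .nil)))) (.nd (nat_lit 9) 
(.lf (nat_lit 572786) (.g (nat_lit 2581) (.e (nat_lit 483346) (nat_lit 17) (.e (nat_lit 6722) (nat_lit 362) (.e (nat_lit 180269) (nat_lit 25) (.e (nat_lit 696343) (nat_lit 8) (.e (nat_lit 172123) (nat_lit 13) .nil))))) (.g (nat_lit 1) (.e (nat_lit 356893) (nat_lit 0) .nil) .nil))) 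
(.lf (nat_lit 573298) (.g (nat_lit 3066) (.e (nat_lit 483365) (nat_lit 18) (.e (nat_lit 57846) (nat_lit 252) (.e (nat_lit 57375) (nat_lit 2) (.e (nat_lit 90160) (nat_lit 11) (.e (nat_lit 24630) (nat_lit 9) (.e (nat_lit 336454) (nat_lit 34) .nil)))))) (.g (nat_lit 1) (.e (nat_lit 357709) (nat_lit 0) .nil) .nil))))) (.nd (nat_lit 8) (.nd (nat_lit 9) 
(.lf (nat_lit 572658) (.g (nat_lit 1975) (.e (nat_lit 483341) (nat_lit 9) (.e (nat_lit 426108) (nat_lit 1) (.e (nat_lit 164332) (nat_lit 230) (.e (nat_lit 163865) (nat_lit 2) .nil)))) (.g (nat_lit 0) (.e (nat_lit 355267) (nat_lit 0) .nil) .nil))) 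
(.lf (nat_lit 573170) (.g (nat_lit 2479) (.e (nat_lit 483364) (nat_lit 18) (.e (nat_lit 57926) (nat_lit 282) (.e (nat_lit 163869) (nat_lit 2) (.e (nat_lit 196666) (nat_lit 13) (.e (nat_lit 65591) (nat_lit 9) .nil))))) (.g (nat_lit 0) (.e (nat_lit 357537) (nat_lit 0) .nil) .nil)))) (.nd (nat_lit 9) 
(.lf (nat_lit 572914) (.g (nat_lit 3984) (.e (nat_lit 483363) (nat_lit 18) (.e (nat_lit 57691) (nat_lit 156) (.e (nat_lit 163907) (nat_lit 12) (.e (nat_lit 426428) (nat_lit 17) (.e (nat_lit 90170) (nat_lit 13) (.e (nat_lit 172122) (nat_lit 13) .nil)))))) (.g (nat_lit 1) (.e (nat_lit 357213) (nat_lit 0) .nil) .nil))) 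
(.lf (nat_lit 573426) (.g (nat_lit 2186) (.e (nat_lit 483365) (nat_lit 18) (.e (nat_lit 57929) (nat_lit 282) (.e (nat_lit 163873) (nat_lit 3) (.e (nat_lit 204866) (nat_lit 28) (.e (nat_lit 360192) (nat_lit 18) .nil))))) (.g (nat_lit 0) (.e (nat_lit 357868) (nat_lit 0) .nil) .nil))))))))) (.nd (nat_lit 4) (.nd (nat_lit 5) (.nd (nat_lit 6) (.nd (nat_lit 7) (.nd (nat_lit 8) (.nd (nat_lit 9) 
(.lf (nat_lit 572426) (.g (nat_lit 1818) (.e (nat_lit 483339) (nat_lit 9) (.e (nat_lit 426110) (nat_lit 1) (.e (nat_lit 164327) (nat_lit 230) (.e (nat_lit 163871) (nat_lit 2) (.e (nat_lit 196653) (nat_lit 11) .nil))))) (.g (nat_lit 0) (.e (nat_lit 354700) (nat_lit 0) .nil) .nil))) 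
(.lf (nat_lit 572938) (.g (nat_lit 1921) (.e (nat_lit 483363) (nat_lit 18) (.e (nat_lit 57847) (nat_lit 252) (.e (nat_lit 57365) (nat_lit 1) (.e (nat_lit 57854) (nat_lit 252) (.e (nat_lit 57389) (nat_lit 5) .nil))))) (.g (nat_lit 0) (.e (nat_lit 357247) (nat_lit 0) .nil) .nil)))) (.nd (nat_lit 9) 
(.lf (nat_lit 572682) (.g (nat_lit 4918) (.e (nat_lit 483341) (nat_lit 9) (.e (nat_lit 426197) (nat_lit 9) (.e (nat_lit 426436) (nat_lit 18) (.e (nat_lit 98335) (nat_lit 18) (.e (nat_lit 164322) (nat_lit 230) (.e (nat_lit 163942) (nat_lit 19) .nil)))))) (.g (nat_lit 1) (.e (nat_lit 355336) (nat_lit 0) .nil) .nil))) 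
(.lf (nat_lit 573194) (.g (nat_lit 1600) (.e (nat_lit 483364) (nat_lit 18) (.e (nat_lit 57926) (nat_lit 282) (.e (nat_lit 163875) (nat_lit 3) (.e (nat_lit 204878) (nat_lit 31) .nil)))) (.g (nat_lit 0) (.e (nat_lit 357569) (nat_lit 0) .nil) .nil))))) (.nd (nat_lit 8) (.nd (nat_lit 9) 
(.lf (nat_lit 572554) (.g (nat_lit 1753) (.e (nat_lit 483341) (nat_lit 9) (.e (nat_lit 426100) (nat_lit 1) (.e (nat_lit 164331) (nat_lit 230) (.e (nat_lit 163867) (nat_lit 2) .nil)))) (.g (nat_lit 0) (.e (nat_lit 355031) (nat_lit 0) .nil) .nil))) 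
(.lf (nat_lit 573066) (.g (nat_lit 817) (.e (nat_lit 483363) (nat_lit 18) (.e (nat_lit 57927) (nat_lit 282) (.e (nat_lit 163866) (nat_lit 2) (.e (nat_lit 196673) (nat_lit 15) .nil)))) (.g (nat_lit 0) (.e (nat_lit 357404) (nat_lit 0) .nil) .nil)))) (.nd (nat_lit 9) 
(.lf (nat_lit 572810) (.g (nat_lit 1904) (.e (nat_lit 483350) (nat_lit 17) (.e (nat_lit 6679) (nat_lit 357) (.e (nat_lit 2856) (nat_lit 184) (.e (nat_lit 426533) (nat_lit 28) (.e (nat_lit 344069) (nat_lit 0) .nil))))) (.g (nat_lit 0) (.e (nat_lit 357057) (nat_lit 0) .nil) .nil))) 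
(.lf (nat_lit 573322) (.g (nat_lit 2421) (.e (nat_lit 483365) (nat_lit 18) (.e (nat_lit 57847) (nat_lit 252) (.e (nat_lit 57372) (nat_lit 2) (.e (nat_lit 90157) (nat_lit 11) (.e (nat_lit 24627) (nat_lit 9) .nil))))) (.g (nat_lit 0) (.e (nat_lit 357735) (nat_lit 0) .nil) .nil)))))) (.nd (nat_lit 7) (.nd (nat_lit 8) (.nd (nat_lit 9) 
(.lf (nat_lit 572490) (.g (nat_lit 2621) (.e (nat_lit 483340) (nat_lit 9) (.e (nat_lit 426107) (nat_lit 1) (.e (nat_lit 164327) (nat_lit 230) (.e (nat_lit 163868) (nat_lit 2) (.e (nat_lit 196656) (nat_lit 11) .nil))))) (.g (nat_lit 0) (.e (nat_lit 354845) (nat_lit 0) .nil) .nil))) 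
(.lf (nat_lit 573002) (.g (nat_lit 1433) (.e (nat_lit 483363) (nat_lit 18) (.e (nat_lit 57849) (nat_lit 252) (.e (nat_lit 57379) (nat_lit 3) (.e (nat_lit 106240) (nat_lit 14) .nil)))) (.g (nat_lit 0) (.e (nat_lit 357331) (nat_lit 0) .nil) .nil)))) (.nd (nat_lit 9) 
(.lf (nat_lit 572746) (.g (nat_lit 943) (.e (nat_lit 491264) (nat_lit 16) (.e (nat_lit 491547) (nat_lit 9) (.e (nat_lit 336016) (nat_lit 2) (.e (nat_lit 98048) (nat_lit 2) .nil)))) (.g (nat_lit 0) (.e (nat_lit 356278) (nat_lit 0) .nil) .nil))) 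
(.lf (nat_lit 573258) (.g (nat_lit 2084) (.e (nat_lit 483364) (nat_lit 18) (.e (nat_lit 57931) (nat_lit 282) (.e (nat_lit 163873) (nat_lit 3) (.e (nat_lit 204866) (nat_lit 28) .nil)))) (.g (nat_lit 0) (.e (nat_lit 357645) (nat_lit 0) .nil) .nil))))) (.nd (nat_lit 8) (.nd (nat_lit 9) 
(.lf (nat_lit 572618) (.g (nat_lit 2934) (.e (nat_lit 483341) (nat_lit 9) (.e (nat_lit 426107) (nat_lit 1) (.e (nat_lit 164326) (nat_lit 230) (.e (nat_lit 163871) (nat_lit 2) (.e (nat_lit 196654) (nat_lit 11) (.e (nat_lit 16466) (nat_lit 13) .nil)))))) (.g (nat_lit 1) (.e (nat_lit 355168) (nat_lit 0) .nil) .nil))) 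
(.lf (nat_lit 573130) (.g (nat_lit 1249) (.e (nat_lit 483364) (nat_lit 18) (.e (nat_lit 57852) (nat_lit 252) (.e (nat_lit 57373) (nat_lit 2) (.e (nat_lit 90125) (nat_lit 9) .nil)))) (.g (nat_lit 0) (.e (nat_lit 357485) (nat_lit 0) .nil) .nil)))) (.nd (nat_lit 9) 
(.lf (nat_lit 572874) (.g (nat_lit 1485) (.e (nat_lit 483362) (nat_lit 18) (.e (nat_lit 57931) (nat_lit 282) (.e (nat_lit 163869) (nat_lit 2) (.e (nat_lit 196681) (nat_lit 17) .nil)))) (.g (nat_lit 0) (.e (nat_lit 357146) (nat_lit 0) .nil) .nil))) 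
(.lf (nat_lit 573386) (.g (nat_lit 1590) (.e (nat_lit 483365) (nat_lit 18) (.e (nat_lit 57851) (nat_lit 252) (.e (nat_lit 57371) (nat_lit 2) (.e (nat_lit 90133) (nat_lit 9) (.e (nat_lit 313) (nat_lit 23) .nil))))) (.g (nat_lit 0) (.e (nat_lit 357816) (nat_lit 0) .nil) .nil))))))) (.nd (nat_lit 6) (.nd (nat_lit 7) (.nd (nat_lit 8) (.nd (nat_lit 9) 
(.lf (nat_lit 572458) (.g (nat_lit 2391) (.e (nat_lit 483339) (nat_lit 9) (.e (nat_lit 426262) (nat_lit 9) (.e (nat_lit 426435) (nat_lit 18) (.e (nat_lit 98335) (nat_lit 18) (.e (nat_lit 164330) (nat_lit 230) (.e (nat_lit 163943) (nat_lit 19) .nil)))))) (.g (nat_lit 1) (.e (nat_lit 354798) (nat_lit 0) .nil) .nil))) 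
(.lf (nat_lit 572970) (.g (nat_lit 2311) (.e (nat_lit 483363) (nat_lit 18) (.e (nat_lit 57847) (nat_lit 252) (.e (nat_lit 57373) (nat_lit 2) (.e (nat_lit 90160) (nat_lit 11) (.e (nat_lit 24628) (nat_lit 9) .nil))))) (.g (nat_lit 0) (.e (nat_lit 357293) (nat_lit 0) .nil) .nil)))) (.nd (nat_lit 9) 
(.lf (nat_lit 572714) (.g (nat_lit 1356) (.e (nat_lit 491264) (nat_lit 9) (.e (nat_lit 426110) (nat_lit 1) (.e (nat_lit 164326) (nat_lit 230) (.e (nat_lit 163868) (nat_lit 2) .nil)))) (.g (nat_lit 0) (.e (nat_lit 355773) (nat_lit 0) .nil) .nil))) 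
(.lf (nat_lit 573226) (.g (nat_lit 1480) (.e (nat_lit 483364) (nat_lit 18) (.e (nat_lit 57927) (nat_lit 282) (.e (nat_lit 163875) (nat_lit 3) (.e (nat_lit 204867) (nat_lit 28) .nil)))) (.g (nat_lit 0) (.e (nat_lit 357608) (nat_lit 0) .nil) .nil))))) (.nd (nat_lit 8) (.nd (nat_lit 9) 
(.lf (nat_lit 572586) (.g (nat_lit 1653) (.e (nat_lit 483341) (nat_lit 9) (.e (nat_lit 426100) (nat_lit 1) (.e (nat_lit 164403) (nat_lit 256) (.e (nat_lit 57377) (nat_lit 3) .nil)))) (.g (nat_lit 0) (.e (nat_lit 355073) (nat_lit 0) .nil) .nil))) 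
(.lf (nat_lit 573098) (.g (nat_lit 1856) (.e (nat_lit 483363) (nat_lit 18) (.e (nat_lit 57928) (nat_lit 282) (.e (nat_lit 163868) (nat_lit 2) (.e (nat_lit 196672) (nat_lit 15) (.e (nat_lit 89856) (nat_lit 18) .nil))))) (.g (nat_lit 1) (.e (nat_lit 357445) (nat_lit 0) .nil) .nil)))) (.nd (nat_lit 9) 
(.lf (nat_lit 572842) (.g (nat_lit 655) (.e (nat_lit 483362) (nat_lit 18) (.e (nat_lit 57849) (nat_lit 252) (.e (nat_lit 57372) (nat_lit 2) .nil))) (.g (nat_lit 0) (.e (nat_lit 357110) (nat_lit 0) .nil) .nil))) 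
(.lf (nat_lit 573354) (.g (nat_lit 1477) (.e (nat_lit 483365) (nat_lit 18) (.e (nat_lit 57848) (nat_lit 252) (.e (nat_lit 57375) (nat_lit 2) (.e (nat_lit 90123) (nat_lit 9) .nil)))) (.g (nat_lit 0) (.e (nat_lit 357776) (nat_lit 0) .nil) .nil)))))) (.nd (nat_lit 7) (.nd (nat_lit 8) (.nd (nat_lit 9) 
(.lf (nat_lit 572522) (.g (nat_lit 2565) (.e (nat_lit 483341) (nat_lit 9) (.e (nat_lit 426098) (nat_lit 1) (.e (nat_lit 164332) (nat_lit 230) (.e (nat_lit 163869) (nat_lit 2) (.e (nat_lit 196653) (nat_lit 11) (.e (nat_lit 16464) (nat_lit 13) .nil)))))) (.g (nat_lit 1) (.e (nat_lit 354965) (nat_lit 0) .nil) .nil))) 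
(.lf (nat_lit 573034) (.g (nat_lit 1437) (.e (nat_lit 483363) (nat_lit 18) (.e (nat_lit 57926) (nat_lit 282) (.e (nat_lit 163868) (nat_lit 2) (.e (nat_lit 196663) (nat_lit 13) .nil)))) (.g (nat_lit 0) (.e (nat_lit 357366) (nat_lit 0) .nil) .nil)))) (.nd (nat_lit 9) 
(.lf (nat_lit 572778) (.g (nat_lit 2230) (.e (nat_lit 483346) (nat_lit 17) (.e (nat_lit 6712) (nat_lit 360) (.e (nat_lit 163975) (nat_lit 30) (.e (nat_lit 573451) (nat_lit 9) (.e (nat_lit 1401) (nat_lit 106) .nil))))) (.g (nat_lit 0) (.e (nat_lit 356701) (nat_lit 0) .nil) .nil))) 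
(.lf (nat_lit 573290) (.g (nat_lit 1211) (.e (nat_lit 483365) (nat_lit 18) (.e (nat_lit 57844) (nat_lit 252) (.e (nat_lit 57371) (nat_lit 2) (.e (nat_lit 90128) (nat_lit 9) .nil)))) (.g (nat_lit 0) (.e (nat_lit 357698) (nat_lit 0) .nil) .nil))))) (.nd (nat_lit 8) (.nd (nat_lit 9) 
(.lf (nat_lit 572650) (.g (nat_lit 1234) (.e (nat_lit 483341) (nat_lit 9) (.e (nat_lit 426108) (nat_lit 1) (.e (nat_lit 164330) (nat_lit 230) (.e (nat_lit 163867) (nat_lit 2) .nil)))) (.g (nat_lit 0) (.e (nat_lit 355236) (nat_lit 0) .nil) .nil))) 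
(.lf (nat_lit 573162) (.g (nat_lit 595) (.e (nat_lit 483364) (nat_lit 18) (.e (nat_lit 57926) (nat_lit 282) (.e (nat_lit 163865) (nat_lit 2) (.e (nat_lit 196672) (nat_lit 15) .nil)))) (.g (nat_lit 0) (.e (nat_lit 357528) (nat_lit 0) .nil) .nil)))) (.nd (nat_lit 9) 
(.lf (nat_lit 572906) (.g (nat_lit 476) (.e (nat_lit 483363) (nat_lit 18) (.e (nat_lit 57688) (nat_lit 156) (.e (nat_lit 163917) (nat_lit 13) .nil))) (.g (nat_lit 0) (.e (nat_lit 357194) (nat_lit 0) .nil) .nil))) 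
(.lf (nat_lit 573418) (.g (nat_lit 1116) (.e (nat_lit 483365) (nat_lit 18) (.e (nat_lit 57924) (nat_lit 282) (.e (nat_lit 163875) (nat_lit 3) (.e (nat_lit 204850) (nat_lit 26) .nil)))) (.g (nat_lit 0) (.e (nat_lit 357859) (nat_lit 0) .nil) .nil)))))))) (.nd (nat_lit 5) (.nd (nat_lit 6) (.nd (nat_lit 7) (.nd (nat_lit 8) (.nd (nat_lit 9) 
(.lf (nat_lit 572442) (.g (nat_lit 2133) (.e (nat_lit 483339) (nat_lit 9) (.e (nat_lit 426260) (nat_lit 9) (.e (nat_lit 426435) (nat_lit 18) (.e (nat_lit 98333) (nat_lit 18) (.e (nat_lit 164325) (nat_lit 230) (.e (nat_lit 163944) (nat_lit 19) .nil)))))) (.g (nat_lit 1) (.e (nat_lit 354762) (nat_lit 0) .nil) .nil))) 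
(.lf (nat_lit 572954) (.g (nat_lit 1398) (.e (nat_lit 483363) (nat_lit 18) (.e (nat_lit 57847) (nat_lit 252) (.e (nat_lit 57371) (nat_lit 2) (.e (nat_lit 90160) (nat_lit 11) .nil)))) (.g (nat_lit 0) (.e (nat_lit 357272) (nat_lit 0) .nil) .nil)))) (.nd (nat_lit 9) 
(.lf (nat_lit 572698) (.g (nat_lit 3175) (.e (nat_lit 483341) (nat_lit 9) (.e (nat_lit 426305) (nat_lit 12) (.e (nat_lit 475179) (nat_lit 24) (.e (nat_lit 516117) (nat_lit 1) (.e (nat_lit 164330) (nat_lit 230) (.e (nat_lit 163941) (nat_lit 19) .nil)))))) (.g (nat_lit 1) (.e (nat_lit 355617) (nat_lit 0) .nil) .nil))) 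
(.lf (nat_lit 573210) (.g (nat_lit 2107) (.e (nat_lit 483364) (nat_lit 18) (.e (nat_lit 57927) (nat_lit 282) (.e (nat_lit 163873) (nat_lit 3) (.e (nat_lit 204865) (nat_lit 28) (.e (nat_lit 360192) (nat_lit 18) .nil))))) (.g (nat_lit 1) (.e (nat_lit 357591) (nat_lit 0) .nil) .nil))))) (.nd (nat_lit 8) (.nd (nat_lit 9) 
(.lf (nat_lit 572570) (.g (nat_lit 2408) (.e (nat_lit 483341) (nat_lit 9) (.e (nat_lit 426100) (nat_lit 1) (.e (nat_lit 164398) (nat_lit 256) (.e (nat_lit 57379) (nat_lit 3) (.e (nat_lit 98354) (nat_lit 26) .nil))))) (.g (nat_lit 0) (.e (nat_lit 355057) (nat_lit 0) .nil) .nil))) 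
(.lf (nat_lit 573082) (.g (nat_lit 1560) (.e (nat_lit 483363) (nat_lit 18) (.e (nat_lit 57927) (nat_lit 282) (.e (nat_lit 163873) (nat_lit 3) (.e (nat_lit 204876) (nat_lit 31) .nil)))) (.g (nat_lit 0) (.e (nat_lit 357428) (nat_lit 0) .nil) .nil)))) (.nd (nat_lit 9) 
(.lf (nat_lit 572826) (.g (nat_lit 1611) (.e (nat_lit 483362) (nat_lit 18) (.e (nat_lit 57688) (nat_lit 156) (.e (nat_lit 163902) (nat_lit 12) (.e (nat_lit 426438) (nat_lit 18) .nil)))) (.g (nat_lit 0) (.e (nat_lit 357094) (nat_lit 0) .nil) .nil))) 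
(.lf (nat_lit 573338) (.g (nat_lit 1788) (.e (nat_lit 483365) (nat_lit 18) (.e (nat_lit 57848) (nat_lit 252) (.e (nat_lit 57372) (nat_lit 2) (.e (nat_lit 90123) (nat_lit 9) .nil)))) (.g (nat_lit 0) (.e (nat_lit 357758) (nat_lit 0) .nil) .nil)))))) (.nd (nat_lit 7) (.nd (nat_lit 8) (.nd (nat_lit 9) 
(.lf (nat_lit 572506) (.g (nat_lit 2805) (.e (nat_lit 483340) (nat_lit 9) (.e (nat_lit 426187) (nat_lit 9) (.e (nat_lit 426436) (nat_lit 18) (.e (nat_lit 98335) (nat_lit 18) (.e (nat_lit 164332) (nat_lit 230) (.e (nat_lit 163941) (nat_lit 19) .nil)))))) (.g (nat_lit 1) (.e (nat_lit 354876) (nat_lit 0) .nil) .nil))) 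
(.lf (nat_lit 573018) (.g (nat_lit 2261) (.e (nat_lit 483363) (nat_lit 18) (.e (nat_lit 57854) (nat_lit 252) (.e (nat_lit 57373) (nat_lit 2) (.e (nat_lit 90158) (nat_lit 11) (.e (nat_lit 24629) (nat_lit 9) .nil))))) (.g (nat_lit 0) (.e (nat_lit 357348) (nat_lit 0) .nil) .nil)))) (.nd (nat_lit 9) 
(.lf (nat_lit 572762) (.g (nat_lit 1527) (.e (nat_lit 483342) (nat_lit 17) (.e (nat_lit 6722) (nat_lit 362) (.e (nat_lit 180271) (nat_lit 26) (.e (nat_lit 704738) (nat_lit 11) (.e (nat_lit 16464) (nat_lit 13) .nil))))) (.g (nat_lit 0) (.e (nat_lit 356316) (nat_lit 0) .nil) .nil))) 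
(.lf (nat_lit 573274) (.g (nat_lit 1645) (.e (nat_lit 483365) (nat_lit 18) (.e (nat_lit 57687) (nat_lit 156) (.e (nat_lit 163938) (nat_lit 18) (.e (nat_lit 475177) (nat_lit 24) (.e (nat_lit 516149) (nat_lit 9) (.e (nat_lit 426323) (nat_lit 13) .nil)))))) (.g (nat_lit 1) (.e (nat_lit 357666) (nat_lit 0) .nil) .nil))))) (.nd (nat_lit 8) (.nd (nat_lit 9) 
(.lf (nat_lit 572634) (.g (nat_lit 787) (.e (nat_lit 483341) (nat_lit 9) (.e (nat_lit 426107) (nat_lit 1) (.e (nat_lit 164406) (nat_lit 258) .nil))) (.g (nat_lit 0) (.e (nat_lit 355211) (nat_lit 0) .nil) .nil))) 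
(.lf (nat_lit 573146) (.g (nat_lit 2258) (.e (nat_lit 483364) (nat_lit 18) (.e (nat_lit 57854) (nat_lit 252) (.e (nat_lit 57373) (nat_lit 2) (.e (nat_lit 90160) (nat_lit 11) (.e (nat_lit 24636) (nat_lit 9) (.e (nat_lit 343808) (nat_lit 34) .nil)))))) (.g (nat_lit 1) (.e (nat_lit 357510) (nat_lit 0) .nil) .nil)))) (.nd (nat_lit 9) 
(.lf (nat_lit 572890) (.g (nat_lit 2889) (.e (nat_lit 483363) (nat_lit 18) (.e (nat_lit 57688) (nat_lit 156) (.e (nat_lit 163903) (nat_lit 12) (.e (nat_lit 426438) (nat_lit 18) (.e (nat_lit 98363) (nat_lit 26) (.e (nat_lit 426321) (nat_lit 13) .nil)))))) (.g (nat_lit 1) (.e (nat_lit 357173) (nat_lit 0) .nil) .nil))) 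
(.lf (nat_lit 573402) (.g (nat_lit 2404) (.e (nat_lit 483365) (nat_lit 18) (.e (nat_lit 57854) (nat_lit 252) (.e (nat_lit 57366) (nat_lit 1) (.e (nat_lit 57854) (nat_lit 252) (.e (nat_lit 57389) (nat_lit 5) (.e (nat_lit 114723) (nat_lit 24) (.e (nat_lit 106507) (nat_lit 9) (.e (nat_lit 492) (nat_lit 39) .nil)))))))) (.g (nat_lit 1) (.e (nat_lit 357836) (nat_lit 0) .nil) .nil))))))) 
(.nd (nat_lit 6) (.nd (nat_lit 7) (.nd (nat_lit 8) (.nd (nat_lit 9) 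
(.lf (nat_lit 572474) (.g (nat_lit 2533) (.e (nat_lit 483340) (nat_lit 9) (.e (nat_lit 426100) (nat_lit 1) (.e (nat_lit 164398) (nat_lit 256) (.e (nat_lit 57372) (nat_lit 2) (.e (nat_lit 90169) (nat_lit 13) .nil))))) (.g (nat_lit 0) (.e (nat_lit 354824) (nat_lit 0) .nil) .nil))) 
(.lf (nat_lit 572986) (.g (nat_lit 1441) (.e (nat_lit 483363) (nat_lit 18) (.e (nat_lit 57847) (nat_lit 252) (.e (nat_lit 57379) (nat_lit 3) (.e (nat_lit 98312) (nat_lit 9) (.e (nat_lit 336077) (nat_lit 9) .nil))))) (.g (nat_lit 0) (.e (nat_lit 357313) (nat_lit 0) .nil) .nil)))) (.nd (nat_lit 9) 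
(.lf (nat_lit 572730) (.g (nat_lit 451) (.e (nat_lit 491264) (nat_lit 10) (.e (nat_lit 434275) (nat_lit 39) (.e (nat_lit 663584) (nat_lit 12) .nil))) (.g (nat_lit 0) (.e (nat_lit 355845) (nat_lit 0) .nil) .nil))) 
(.lf (nat_lit 573242) (.g (nat_lit 1432) (.e (nat_lit 483364) (nat_lit 18) (.e (nat_lit 57929) (nat_lit 282) (.e (nat_lit 163874) (nat_lit 3) (.e (nat_lit 204877) (nat_lit 31) (.e (nat_lit 384768) (nat_lit 18) .nil))))) (.g (nat_lit 1) (.e (nat_lit 357627) (nat_lit 0) .nil) .nil))))) (.nd (nat_lit 8) (.nd (nat_lit 9) 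
(.lf (nat_lit 572602) (.g (nat_lit 2179) (.e (nat_lit 483341) (nat_lit 9) (.e (nat_lit 426106) (nat_lit 1) (.e (nat_lit 164330) (nat_lit 230) (.e (nat_lit 163869) (nat_lit 2) (.e (nat_lit 196656) (nat_lit 11) .nil))))) (.g (nat_lit 0) (.e (nat_lit 355111) (nat_lit 0) .nil) .nil))) 
(.lf (nat_lit 573114) (.g (nat_lit 2821) (.e (nat_lit 483363) (nat_lit 18) (.e (nat_lit 57931) (nat_lit 282) (.e (nat_lit 163869) (nat_lit 2) (.e (nat_lit 196674) (nat_lit 15) (.e (nat_lit 89856) (nat_lit 18) .nil))))) (.g (nat_lit 1) (.e (nat_lit 357464) (nat_lit 0) .nil) .nil)))) (.nd (nat_lit 9) 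
(.lf (nat_lit 572858) (.g (nat_lit 1565) (.e (nat_lit 483362) (nat_lit 18) (.e (nat_lit 57926) (nat_lit 282) (.e (nat_lit 163874) (nat_lit 3) (.e (nat_lit 204866) (nat_lit 28) (.e (nat_lit 360192) (nat_lit 18) .nil))))) (.g (nat_lit 0) (.e (nat_lit 357128) (nat_lit 0) .nil) .nil))) 
(.lf (nat_lit 573370) (.g (nat_lit 612) (.e (nat_lit 483365) (nat_lit 18) (.e (nat_lit 57849) (nat_lit 252) (.e (nat_lit 57374) (nat_lit 2) .nil))) (.g (nat_lit 0) (.e (nat_lit 357799) (nat_lit 0) .nil) .nil)))))) (.nd (nat_lit 7) (.nd (nat_lit 8) (.nd (nat_lit 9) 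
(.lf (nat_lit 572538) (.g (nat_lit 1007) (.e (nat_lit 483341) (nat_lit 9) (.e (nat_lit 426098) (nat_lit 1) (.e (nat_lit 164403) (nat_lit 256) .nil))) (.g (nat_lit 0) (.e (nat_lit 354991) (nat_lit 0) .nil) .nil))) 
(.lf (nat_lit 573050) (.g (nat_lit 1549) (.e (nat_lit 483363) (nat_lit 18) (.e (nat_lit 57926) (nat_lit 282) (.e (nat_lit 163874) (nat_lit 3) (.e (nat_lit 204875) (nat_lit 31) .nil)))) (.g (nat_lit 0) (.e (nat_lit 357388) (nat_lit 0) .nil) .nil)))) (.nd (nat_lit 9) 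
(.lf (nat_lit 572794) (.g (nat_lit 2980) (.e (nat_lit 483350) (nat_lit 17) (.e (nat_lit 6113) (nat_lit 332) (.e (nat_lit 1374) (nat_lit 104) (.e (nat_lit 303111) (nat_lit 0) .nil)))) (.g (nat_lit 0) (.e (nat_lit 357026) (nat_lit 0) .nil) .nil))) 
(.lf (nat_lit 573306) (.g (nat_lit 1808) (.e (nat_lit 483365) (nat_lit 18) (.e (nat_lit 57847) (nat_lit 252) (.e (nat_lit 57365) (nat_lit 1) (.e (nat_lit 57854) (nat_lit 252) (.e (nat_lit 57389) (nat_lit 5) .nil))))) (.g (nat_lit 0) (.e (nat_lit 357717) (nat_lit 0) .nil) .nil))))) (.nd (nat_lit 8) (.nd (nat_lit 9) 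
(.lf (nat_lit 572666) (.g (nat_lit 2379) (.e (nat_lit 483341) (nat_lit 9) (.e (nat_lit 426108) (nat_lit 1) (.e (nat_lit 164403) (nat_lit 256) (.e (nat_lit 57373) (nat_lit 2) (.e (nat_lit 90169) (nat_lit 13) (.e (nat_lit 172121) (nat_lit 13) .nil)))))) (.g (nat_lit 1) (.e (nat_lit 355290) (nat_lit 0) .nil) .nil))) 
(.lf (nat_lit 573178) (.g (nat_lit 739) (.e (nat_lit 483364) (nat_lit 18) (.e (nat_lit 57926) (nat_lit 282) (.e (nat_lit 163872) (nat_lit 3) (.e (nat_lit 204865) (nat_lit 28) .nil)))) (.g (nat_lit 0) (.e (nat_lit 357552) (nat_lit 0) .nil) .nil)))) (.nd (nat_lit 9) 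
(.lf (nat_lit 572922) (.g (nat_lit 488) (.e (nat_lit 483363) (nat_lit 18) (.e (nat_lit 57691) (nat_lit 156) (.e (nat_lit 163916) (nat_lit 13) .nil))) (.g (nat_lit 0) (.e (nat_lit 357224) (nat_lit 0) .nil) .nil))) 
(.lf (nat_lit 573434) (.g (nat_lit 2102) (.e (nat_lit 483365) (nat_lit 18) (.e (nat_lit 57930) (nat_lit 282) (.e (nat_lit 163867) (nat_lit 2) (.e (nat_lit 196674) (nat_lit 15) (.e (nat_lit 89856) (nat_lit 18) .nil))))) (.g (nat_lit 1) (.e (nat_lit 357876) (nat_lit 0) .nil) .nil)))))))))) 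
(.nd (nat_lit 3) (.nd (nat_lit 4) (.nd (nat_lit 5) (.nd (nat_lit 6) (.nd (nat_lit 7) 
(.nd (nat_lit 8) (.nd (nat_lit 9) 
(.lf (nat_lit 572422) (.g (nat_lit 1861) (.e (nat_lit 483337) (nat_lit 9) (.e (nat_lit 426316) (nat_lit 12) (.e (nat_lit 475179) (nat_lit 24) (.e (nat_lit 516120) (nat_lit 1) (.e (nat_lit 164329) (nat_lit 230) .nil))))) (.g (nat_lit 0) (.e (nat_lit 354680) (nat_lit 0) .nil) .nil))) 
(.lf (nat_lit 572934) (.g (nat_lit 438) (.e (nat_lit 483363) (nat_lit 18) (.e (nat_lit 57692) (nat_lit 156) (.e (nat_lit 163916) (nat_lit 13) .nil))) (.g (nat_lit 0) (.e (nat_lit 357242) (nat_lit 0) .nil) .nil)))) (.nd (nat_lit 9) 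
(.lf (nat_lit 572678) (.g (nat_lit 3797) (.e (nat_lit 483341) (nat_lit 9) (.e (nat_lit 426189) (nat_lit 9) (.e (nat_lit 426436) (nat_lit 18) (.e (nat_lit 98335) (nat_lit 18) (.e (nat_lit 164329) (nat_lit 230) (.e (nat_lit 163942) (nat_lit 19) .nil)))))) (.g (nat_lit 1) (.e (nat_lit 355326) (nat_lit 0) .nil) .nil))) 
(.lf (nat_lit 573190) (.g (nat_lit 2487) (.e (nat_lit 483364) (nat_lit 18) (.e (nat_lit 57926) (nat_lit 282) (.e (nat_lit 163875) (nat_lit 3) (.e (nat_lit 204866) (nat_lit 28) (.e (nat_lit 360192) (nat_lit 18) .nil))))) (.g (nat_lit 1) (.e (nat_lit 357565) (nat_lit 0) .nil) .nil))))) (.nd (nat_lit 8) (.nd (nat_lit 9) 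
(.lf (nat_lit 572550) (.g (nat_lit 1774) (.e (nat_lit 483341) (nat_lit 9) (.e (nat_lit 426100) (nat_lit 1) (.e (nat_lit 164330) (nat_lit 230) (.e (nat_lit 163869) (nat_lit 2) (.e (nat_lit 196653) (nat_lit 11) (.e (nat_lit 16464) (nat_lit 13) .nil)))))) (.g (nat_lit 1) (.e (nat_lit 355018) (nat_lit 0) .nil) .nil))) 
(.lf (nat_lit 573062) (.g (nat_lit 2169) (.e (nat_lit 483363) (nat_lit 18) (.e (nat_lit 57926) (nat_lit 282) (.e (nat_lit 163875) (nat_lit 3) (.e (nat_lit 204876) (nat_lit 31) (.e (nat_lit 384768) (nat_lit 18) .nil))))) (.g (nat_lit 1) (.e (nat_lit 357400) (nat_lit 0) .nil) .nil)))) (.nd (nat_lit 9) 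
(.lf (nat_lit 572806) (.g (nat_lit 2996) (.e (nat_lit 483350) (nat_lit 17) (.e (nat_lit 6666) (nat_lit 357) (.e (nat_lit 2856) (nat_lit 184) (.e (nat_lit 426533) (nat_lit 28) (.e (nat_lit 344068) (nat_lit 0) (.e (nat_lit 3090) (nat_lit 191) .nil)))))) (.g (nat_lit 1) (.e (nat_lit 357053) (nat_lit 0) .nil) .nil))) 
(.lf (nat_lit 573318) (.g (nat_lit 2833) (.e (nat_lit 483365) (nat_lit 18) (.e (nat_lit 57847) (nat_lit 252) (.e (nat_lit 57368) (nat_lit 1) (.e (nat_lit 57854) (nat_lit 252) (.e (nat_lit 57389) (nat_lit 5) (.e (nat_lit 114723) (nat_lit 24) (.e (nat_lit 106505) (nat_lit 9) (.e (nat_lit 497) (nat_lit 39) .nil)))))))) (.g (nat_lit 1) (.e (nat_lit 357730) (nat_lit 0) .nil) .nil)))))) 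
(.nd (nat_lit 7) (.nd (nat_lit 8) (.nd (nat_lit 9) 
(.lf (nat_lit 572486) (.g (nat_lit 854) (.e (nat_lit 483340) (nat_lit 9) (.e (nat_lit 426100) (nat_lit 1) (.e (nat_lit 164403) (nat_lit 256) .nil))) (.g (nat_lit 0) (.e (nat_lit 354836) (nat_lit 0) .nil) .nil))) 
(.lf (nat_lit 572998) (.g (nat_lit 1450) (.e (nat_lit 483363) (nat_lit 18) (.e (nat_lit 57849) (nat_lit 252) (.e (nat_lit 57377) (nat_lit 3) (.e (nat_lit 98316) (nat_lit 9) .nil)))) (.g (nat_lit 0) (.e (nat_lit 357327) (nat_lit 0) .nil) .nil)))) (.nd (nat_lit 9) 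
(.lf (nat_lit 572742) (.g (nat_lit 2158) (.e (nat_lit 491264) (nat_lit 15) (.e (nat_lit 475198) (nat_lit 40) (.e (nat_lit 704590) (nat_lit 3) (.e (nat_lit 163950) (nat_lit 21) (.e (nat_lit 499725) (nat_lit 0) .nil))))) (.g (nat_lit 0) (.e (nat_lit 356264) (nat_lit 0) .nil) .nil))) 
(.lf (nat_lit 573254) (.g (nat_lit 3653) (.e (nat_lit 483364) (nat_lit 18) (.e (nat_lit 57931) (nat_lit 282) (.e (nat_lit 163869) (nat_lit 2) (.e (nat_lit 196681) (nat_lit 17) (.e (nat_lit 131109) (nat_lit 9) (.e (nat_lit 336454) (nat_lit 34) .nil)))))) (.g (nat_lit 1) (.e (nat_lit 357641) (nat_lit 0) .nil) .nil))))) (.nd (nat_lit 8) (.nd (nat_lit 9) 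
(.lf (nat_lit 572614) (.g (nat_lit 2136) (.e (nat_lit 483341) (nat_lit 9) (.e (nat_lit 426107) (nat_lit 1) (.e (nat_lit 164325) (nat_lit 230) (.e (nat_lit 163871) (nat_lit 2) (.e (nat_lit 196653) (nat_lit 11) (.e (nat_lit 16464) (nat_lit 13) .nil)))))) (.g (nat_lit 1) (.e (nat_lit 355150) (nat_lit 0) .nil) .nil))) 
(.lf (nat_lit 573126) (.g (nat_lit 2952) (.e (nat_lit 483364) (nat_lit 18) (.e (nat_lit 57852) (nat_lit 252) (.e (nat_lit 57370) (nat_lit 2) (.e (nat_lit 90158) (nat_lit 11) (.e (nat_lit 24628) (nat_lit 9) (.e (nat_lit 336454) (nat_lit 34) .nil)))))) (.g (nat_lit 1) (.e (nat_lit 357480) (nat_lit 0) .nil) .nil)))) (.nd (nat_lit 9) 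
(.lf (nat_lit 572870) (.g (nat_lit 1278) (.e (nat_lit 483362) (nat_lit 18) (.e (nat_lit 57928) (nat_lit 282) (.e (nat_lit 163868) (nat_lit 2) (.e (nat_lit 196672) (nat_lit 15) (.e (nat_lit 89856) (nat_lit 18) .nil))))) (.g (nat_lit 0) (.e (nat_lit 357142) (nat_lit 0) .nil) .nil))) 
(.lf (nat_lit 573382) (.g (nat_lit 2545) (.e (nat_lit 483365) (nat_lit 18) (.e (nat_lit 57849) (nat_lit 252) (.e (nat_lit 57379) (nat_lit 3) (.e (nat_lit 98313) (nat_lit 9) (.e (nat_lit 336073) (nat_lit 9) .nil))))) (.g (nat_lit 0) (.e (nat_lit 357812) (nat_lit 0) .nil) .nil))))))) (.nd (nat_lit 6) (.nd (nat_lit 7) (.nd (nat_lit 8) (.nd (nat_lit 9) 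
(.lf (nat_lit 572454) (.g (nat_lit 2781) (.e (nat_lit 483339) (nat_lit 9) (.e (nat_lit 426262) (nat_lit 9) (.e (nat_lit 426435) (nat_lit 18) (.e (nat_lit 98334) (nat_lit 18) (.e (nat_lit 164330) (nat_lit 230) (.e (nat_lit 163941) (nat_lit 19) .nil)))))) (.g (nat_lit 1) (.e (nat_lit 354791) (nat_lit 0) .nil) .nil))) 
(.lf (nat_lit 572966) (.g (nat_lit 3301) (.e (nat_lit 483363) (nat_lit 18) (.e (nat_lit 57847) (nat_lit 252) (.e (nat_lit 57373) (nat_lit 2) (.e (nat_lit 90158) (nat_lit 11) (.e (nat_lit 24628) (nat_lit 9) (.e (nat_lit 336456) (nat_lit 34) .nil)))))) (.g (nat_lit 1) (.e (nat_lit 357289) (nat_lit 0) .nil) .nil)))) (.nd (nat_lit 9) 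
(.lf (nat_lit 572710) (.g (nat_lit 1464) (.e (nat_lit 491264) (nat_lit 9) (.e (nat_lit 426100) (nat_lit 1) (.e (nat_lit 164332) (nat_lit 230) (.e (nat_lit 163867) (nat_lit 2) .nil)))) (.g (nat_lit 0) (.e (nat_lit 355755) (nat_lit 0) .nil) .nil))) 
(.lf (nat_lit 573222) (.g (nat_lit 1817) (.e (nat_lit 483364) (nat_lit 18) (.e (nat_lit 57927) (nat_lit 282) (.e (nat_lit 163874) (nat_lit 3) (.e (nat_lit 204877) (nat_lit 31) (.e (nat_lit 384768) (nat_lit 18) .nil))))) (.g (nat_lit 1) (.e (nat_lit 357603) (nat_lit 0) .nil) .nil))))) (.nd (nat_lit 8) (.nd (nat_lit 9) 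
(.lf (nat_lit 572582) (.g (nat_lit 1704) (.e (nat_lit 483341) (nat_lit 9) (.e (nat_lit 426100) (nat_lit 1) (.e (nat_lit 164403) (nat_lit 256) (.e (nat_lit 57371) (nat_lit 2) .nil)))) (.g (nat_lit 0) (.e (nat_lit 355069) (nat_lit 0) .nil) .nil))) 
(.lf (nat_lit 573094) (.g (nat_lit 1545) (.e (nat_lit 483363) (nat_lit 18) (.e (nat_lit 57927) (nat_lit 282) (.e (nat_lit 163875) (nat_lit 3) (.e (nat_lit 204867) (nat_lit 28) .nil)))) (.g (nat_lit 0) (.e (nat_lit 357441) (nat_lit 0) .nil) .nil)))) (.nd (nat_lit 9) 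
(.lf (nat_lit 572838) (.g (nat_lit 529) (.e (nat_lit 483362) (nat_lit 18) (.e (nat_lit 57692) (nat_lit 156) (.e (nat_lit 163905) (nat_lit 12) .nil))) (.g (nat_lit 0) (.e (nat_lit 357106) (nat_lit 0) .nil) .nil))) 
(.lf (nat_lit 573350) (.g (nat_lit 1780) (.e (nat_lit 483365) (nat_lit 18) (.e (nat_lit 57848) (nat_lit 252) (.e (nat_lit 57374) (nat_lit 2) (.e (nat_lit 90122) (nat_lit 9) (.e (nat_lit 312) (nat_lit 23) .nil))))) (.g (nat_lit 0) (.e (nat_lit 357772) (nat_lit 0) .nil) .nil)))))) (.nd (nat_lit 7) (.nd (nat_lit 8) (.nd (nat_lit 9) 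
(.lf (nat_lit 572518) (.g (nat_lit 2578) (.e (nat_lit 483341) (nat_lit 9) (.e (nat_lit 426098) (nat_lit 1) (.e (nat_lit 164327) (nat_lit 230) (.e (nat_lit 163868) (nat_lit 2) (.e (nat_lit 196656) (nat_lit 11) (.e (nat_lit 16466) (nat_lit 13) .nil)))))) (.g (nat_lit 1) (.e (nat_lit 354928) (nat_lit 0) .nil) .nil))) 
(.lf (nat_lit 573030) (.g (nat_lit 1781) (.e (nat_lit 483363) (nat_lit 18) (.e (nat_lit 57924) (nat_lit 282) (.e (nat_lit 163875) (nat_lit 3) (.e (nat_lit 204865) (nat_lit 28) (.e (nat_lit 360192) (nat_lit 18) .nil))))) (.g (nat_lit 1) (.e (nat_lit 357362) (nat_lit 0) .nil) .nil)))) (.nd (nat_lit 9) 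
(.lf (nat_lit 572774) (.g (nat_lit 2186) (.e (nat_lit 483345) (nat_lit 17) (.e (nat_lit 6712) (nat_lit 360) (.e (nat_lit 163979) (nat_lit 30) (.e (nat_lit 573482) (nat_lit 13) (.e (nat_lit 65563) (nat_lit 1) .nil))))) (.g (nat_lit 0) (.e (nat_lit 356515) (nat_lit 0) .nil) .nil))) 
(.lf (nat_lit 573286) (.g (nat_lit 3350) (.e (nat_lit 483365) (nat_lit 18) (.e (nat_lit 57692) (nat_lit 156) (.e (nat_lit 163905) (nat_lit 12) (.e (nat_lit 426428) (nat_lit 17) (.e (nat_lit 90170) (nat_lit 13) (.e (nat_lit 172123) (nat_lit 13) .nil)))))) (.g (nat_lit 1) (.e (nat_lit 357687) (nat_lit 0) .nil) .nil))))) (.nd (nat_lit 8) (.nd (nat_lit 9) 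
(.lf (nat_lit 572646) (.g (nat_lit 4212) (.e (nat_lit 483341) (nat_lit 9) (.e (nat_lit 426108) (nat_lit 1) (.e (nat_lit 164329) (nat_lit 230) (.e (nat_lit 163867) (nat_lit 2) (.e (nat_lit 196655) (nat_lit 11) (.e (nat_lit 16465) (nat_lit 13) .nil)))))) (.g (nat_lit 1) (.e (nat_lit 355227) (nat_lit 0) .nil) .nil))) 
(.lf (nat_lit 573158) (.g (nat_lit 1654) (.e (nat_lit 483364) (nat_lit 18) (.e (nat_lit 57924) (nat_lit 282) (.e (nat_lit 163875) (nat_lit 3) (.e (nat_lit 204866) (nat_lit 28) (.e (nat_lit 360192) (nat_lit 18) .nil))))) (.g (nat_lit 0) (.e (nat_lit 357524) (nat_lit 0) .nil) .nil)))) (.nd (nat_lit 9) 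
(.lf (nat_lit 572902) (.g (nat_lit 2032) (.e (nat_lit 483363) (nat_lit 18) (.e (nat_lit 57688) (nat_lit 156) (.e (nat_lit 163907) (nat_lit 12) (.e (nat_lit 426437) (nat_lit 18) .nil)))) (.g (nat_lit 0) (.e (nat_lit 357188) (nat_lit 0) .nil) .nil))) 
(.lf (nat_lit 573414) (.g (nat_lit 2082) (.e (nat_lit 483365) (nat_lit 18) (.e (nat_lit 57924) (nat_lit 282) (.e (nat_lit 163867) (nat_lit 2) (.e (nat_lit 196672) (nat_lit 15) (.e (nat_lit 89856) (nat_lit 18) .nil))))) (.g (nat_lit 1) (.e (nat_lit 357855) (nat_lit 0) .nil) .nil)))))))) (.nd (nat_lit 5) (.nd (nat_lit 6) (.nd (nat_lit 7) (.nd (nat_lit 8) (.nd (nat_lit 9) 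
(.lf (nat_lit 572438) (.g (nat_lit 2616) (.e (nat_lit 483339) (nat_lit 9) (.e (nat_lit 426234) (nat_lit 9) (.e (nat_lit 426435) (nat_lit 18) (.e (nat_lit 98335) (nat_lit 18) (.e (nat_lit 164330) (nat_lit 230) (.e (nat_lit 163941) (nat_lit 19) .nil)))))) (.g (nat_lit 1) (.e (nat_lit 354736) (nat_lit 0) .nil) .nil))) 
(.lf (nat_lit 572950) (.g (nat_lit 2649) (.e (nat_lit 483363) (nat_lit 18) (.e (nat_lit 57847) (nat_lit 252) (.e (nat_lit 57368) (nat_lit 1) (.e (nat_lit 57854) (nat_lit 252) (.e (nat_lit 57389) (nat_lit 5) (.e (nat_lit 114722) (nat_lit 24) (.e (nat_lit 106507) (nat_lit 9) (.e (nat_lit 492) (nat_lit 39) .nil)))))))) (.g (nat_lit 1) (.e (nat_lit 357265) (nat_lit 0) .nil) .nil)))) (.nd (nat_lit 9) 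
(.lf (nat_lit 572694) (.g (nat_lit 2679) (.e (nat_lit 483341) (nat_lit 9) (.e (nat_lit 426200) (nat_lit 9) (.e (nat_lit 426402) (nat_lit 15) (.e (nat_lit 1788) (nat_lit 119) (.e (nat_lit 516116) (nat_lit 1) (.e (nat_lit 164329) (nat_lit 230) (.e (nat_lit 163941) (nat_lit 19) .nil))))))) (.g (nat_lit 1) (.e (nat_lit 355494) (nat_lit 0) .nil) .nil))) 
(.lf (nat_lit 573206) (.g (nat_lit 2080) (.e (nat_lit 483364) (nat_lit 18) (.e (nat_lit 57927) (nat_lit 282) (.e (nat_lit 163869) (nat_lit 2) (.e (nat_lit 196674) (nat_lit 15) (.e (nat_lit 89856) (nat_lit 18) .nil))))) (.g (nat_lit 1) (.e (nat_lit 357585) (nat_lit 0) .nil) .nil))))) (.nd (nat_lit 8) (.nd (nat_lit 9) 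
(.lf (nat_lit 572566) (.g (nat_lit 2843) (.e (nat_lit 483341) (nat_lit 9) (.e (nat_lit 426100) (nat_lit 1) (.e (nat_lit 164398) (nat_lit 256) (.e (nat_lit 57377) (nat_lit 3) (.e (nat_lit 98365) (nat_lit 26) (.e (nat_lit 426326) (nat_lit 13) .nil)))))) (.g (nat_lit 1) (.e (nat_lit 355053) (nat_lit 0) .nil) .nil))) 
(.lf (nat_lit 573078) (.g (nat_lit 2100) (.e (nat_lit 483363) (nat_lit 18) (.e (nat_lit 57927) (nat_lit 282) (.e (nat_lit 163871) (nat_lit 2) (.e (nat_lit 196674) (nat_lit 15) (.e (nat_lit 89856) (nat_lit 18) .nil))))) (.g (nat_lit 1) (.e (nat_lit 357424) (nat_lit 0) .nil) .nil)))) (.nd (nat_lit 9) 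
(.lf (nat_lit 572822) (.g (nat_lit 1446) (.e (nat_lit 491264) (nat_lit 17) (.e (nat_lit 6722) (nat_lit 362) (.e (nat_lit 180271) (nat_lit 26) (.e (nat_lit 704738) (nat_lit 11) (.e (nat_lit 16464) (nat_lit 13) .nil))))) (.g (nat_lit 0) (.e (nat_lit 357089) (nat_lit 0) .nil) .nil))) 
(.lf (nat_lit 573334) (.g (nat_lit 2030) (.e (nat_lit 483365) (nat_lit 18) (.e (nat_lit 57848) (nat_lit 252) (.e (nat_lit 57368) (nat_lit 1) (.e (nat_lit 57854) (nat_lit 252) (.e (nat_lit 57389) (nat_lit 5) (.e (nat_lit 114723) (nat_lit 24) (.e (nat_lit 106507) (nat_lit 9) (.e (nat_lit 492) (nat_lit 39) .nil)))))))) (.g (nat_lit 1) (.e (nat_lit 357754) (nat_lit 0) .nil) .nil)))))) 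
(.nd (nat_lit 7) (.nd (nat_lit 8) (.nd (nat_lit 9) 
(.lf (nat_lit 572502) (.g (nat_lit 3239) (.e (nat_lit 483340) (nat_lit 9) (.e (nat_lit 426187) (nat_lit 9) (.e (nat_lit 426436) (nat_lit 18) (.e (nat_lit 98335) (nat_lit 18) (.e (nat_lit 164325) (nat_lit 230) (.e (nat_lit 163944) (nat_lit 19) .nil)))))) (.g (nat_lit 1) (.e (nat_lit 354872) (nat_lit 0) .nil) .nil))) 
(.lf (nat_lit 573014) (.g (nat_lit 2488) (.e (nat_lit 483363) (nat_lit 18) (.e (nat_lit 57854) (nat_lit 252) (.e (nat_lit 57373) (nat_lit 2) (.e (nat_lit 90125) (nat_lit 9) (.e (nat_lit 331) (nat_lit 26) .nil))))) (.g (nat_lit 0) (.e (nat_lit 357344) (nat_lit 0) .nil) .nil)))) (.nd (nat_lit 9) 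
(.lf (nat_lit 572758) (.g (nat_lit 1334) (.e (nat_lit 483342) (nat_lit 17) (.e (nat_lit 6113) (nat_lit 332) (.e (nat_lit 1374) (nat_lit 104) (.e (nat_lit 303154) (nat_lit 28) .nil)))) (.g (nat_lit 0) (.e (nat_lit 356309) (nat_lit 0) .nil) .nil))) 
(.lf (nat_lit 573270) (.g (nat_lit 2012) (.e (nat_lit 483365) (nat_lit 18) (.e (nat_lit 57687) (nat_lit 156) (.e (nat_lit 163905) (nat_lit 12) (.e (nat_lit 426428) (nat_lit 17) (.e (nat_lit 90170) (nat_lit 13) .nil))))) (.g (nat_lit 0) (.e (nat_lit 357660) (nat_lit 0) .nil) .nil))))) (.nd (nat_lit 8) (.nd (nat_lit 9) 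
(.lf (nat_lit 572630) (.g (nat_lit 4307) (.e (nat_lit 483341) (nat_lit 9) (.e (nat_lit 426107) (nat_lit 1) (.e (nat_lit 164332) (nat_lit 230) (.e (nat_lit 163869) (nat_lit 2) (.e (nat_lit 196654) (nat_lit 11) (.e (nat_lit 16463) (nat_lit 13) .nil)))))) (.g (nat_lit 1) (.e (nat_lit 355204) (nat_lit 0) .nil) .nil))) 
(.lf (nat_lit 573142) (.g (nat_lit 1105) (.e (nat_lit 483364) (nat_lit 18) (.e (nat_lit 57854) (nat_lit 252) (.e (nat_lit 57373) (nat_lit 2) (.e (nat_lit 90160) (nat_lit 11) .nil)))) (.g (nat_lit 0) (.e (nat_lit 357502) (nat_lit 0) .nil) .nil)))) (.nd (nat_lit 9) 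
(.lf (nat_lit 572886) (.g (nat_lit 2399) (.e (nat_lit 483363) (nat_lit 18) (.e (nat_lit 57688) (nat_lit 156) (.e (nat_lit 163902) (nat_lit 12) (.e (nat_lit 426438) (nat_lit 18) (.e (nat_lit 98362) (nat_lit 26) (.e (nat_lit 426329) (nat_lit 13) .nil)))))) (.g (nat_lit 1) (.e (nat_lit 357165) (nat_lit 0) .nil) .nil))) 
(.lf (nat_lit 573398) (.g (nat_lit 2064) (.e (nat_lit 483365) (nat_lit 18) (.e (nat_lit 57853) (nat_lit 252) (.e (nat_lit 57371) (nat_lit 2) (.e (nat_lit 90128) (nat_lit 9) (.e (nat_lit 334) (nat_lit 26) .nil))))) (.g (nat_lit 0) (.e (nat_lit 357831) (nat_lit 0) .nil) .nil))))))) (.nd (nat_lit 6) (.nd (nat_lit 7) (.nd (nat_lit 8) (.nd (nat_lit 9) 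
(.lf (nat_lit 572470) (.g (nat_lit 2236) (.e (nat_lit 483340) (nat_lit 9) (.e (nat_lit 426098) (nat_lit 1) (.e (nat_lit 164399) (nat_lit 256) (.e (nat_lit 57378) (nat_lit 3) (.e (nat_lit 98358) (nat_lit 26) .nil))))) (.g (nat_lit 0) (.e (nat_lit 354817) (nat_lit 0) .nil) .nil))) 
(.lf (nat_lit 572982) (.g (nat_lit 389) (.e (nat_lit 483363) (nat_lit 18) (.e (nat_lit 57847) (nat_lit 252) (.e (nat_lit 57377) (nat_lit 3) .nil))) (.g (nat_lit 0) (.e (nat_lit 357309) (nat_lit 0) .nil) .nil)))) (.nd (nat_lit 9) 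
(.lf (nat_lit 572726) (.g (nat_lit 1020) (.e (nat_lit 491264) (nat_lit 10) (.e (nat_lit 434209) (nat_lit 18) (.e (nat_lit 5224) (nat_lit 296) (.e (nat_lit 163871) (nat_lit 2) .nil)))) (.g (nat_lit 0) (.e (nat_lit 355833) (nat_lit 0) .nil) .nil))) 
(.lf (nat_lit 573238) (.g (nat_lit 1613) (.e (nat_lit 483364) (nat_lit 18) (.e (nat_lit 57929) (nat_lit 282) (.e (nat_lit 163873) (nat_lit 3) (.e (nat_lit 204878) (nat_lit 31) (.e (nat_lit 384768) (nat_lit 18) .nil))))) (.g (nat_lit 0) (.e (nat_lit 357623) (nat_lit 0) .nil) .nil))))) (.nd (nat_lit 8) (.nd (nat_lit 9) 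
(.lf (nat_lit 572598) (.g (nat_lit 3011) (.e (nat_lit 483341) (nat_lit 9) (.e (nat_lit 426106) (nat_lit 1) (.e (nat_lit 164324) (nat_lit 230) (.e (nat_lit 163868) (nat_lit 2) (.e (nat_lit 196654) (nat_lit 11) (.e (nat_lit 16466) (nat_lit 13) .nil)))))) (.g (nat_lit 1) (.e (nat_lit 355095) (nat_lit 0) .nil) .nil))) 
(.lf (nat_lit 573110) (.g (nat_lit 767) (.e (nat_lit 483363) (nat_lit 18) (.e (nat_lit 57931) (nat_lit 282) (.e (nat_lit 163865) (nat_lit 2) (.e (nat_lit 196672) (nat_lit 15) .nil)))) (.g (nat_lit 0) (.e (nat_lit 357457) (nat_lit 0) .nil) .nil)))) (.nd (nat_lit 9) 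
(.lf (nat_lit 572854) (.g (nat_lit 1603) (.e (nat_lit 483362) (nat_lit 18) (.e (nat_lit 57926) (nat_lit 282) (.e (nat_lit 163869) (nat_lit 2) (.e (nat_lit 196674) (nat_lit 15) (.e (nat_lit 89856) (nat_lit 18) .nil))))) (.g (nat_lit 1) (.e (nat_lit 357122) (nat_lit 0) .nil) .nil))) 
(.lf (nat_lit 573366) (.g (nat_lit 933) (.e (nat_lit 483365) (nat_lit 18) (.e (nat_lit 57849) (nat_lit 252) (.e (nat_lit 57372) (nat_lit 2) (.e (nat_lit 90128) (nat_lit 9) .nil)))) (.g (nat_lit 0) (.e (nat_lit 357791) (nat_lit 0) .nil) .nil)))))) (.nd (nat_lit 7) (.nd (nat_lit 8) (.nd (nat_lit 9) 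
(.lf (nat_lit 572534) (.g (nat_lit 2769) (.e (nat_lit 483341) (nat_lit 9) (.e (nat_lit 426098) (nat_lit 1) (.e (nat_lit 164399) (nat_lit 256) (.e (nat_lit 57377) (nat_lit 3) (.e (nat_lit 98365) (nat_lit 26) (.e (nat_lit 426326) (nat_lit 13) .nil)))))) (.g (nat_lit 1) (.e (nat_lit 354986) (nat_lit 0) .nil) .nil))) 
(.lf (nat_lit 573046) (.g (nat_lit 2476) (.e (nat_lit 483363) (nat_lit 18) (.e (nat_lit 57926) (nat_lit 282) (.e (nat_lit 163874) (nat_lit 3) (.e (nat_lit 204861) (nat_lit 26) (.e (nat_lit 336077) (nat_lit 9) .nil))))) (.g (nat_lit 0) (.e (nat_lit 357384) (nat_lit 0) .nil) .nil)))) (.nd (nat_lit 9) 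
(.lf (nat_lit 572790) (.g (nat_lit 3078) (.e (nat_lit 483346) (nat_lit 17) (.e (nat_lit 6724) (nat_lit 362) (.e (nat_lit 180271) (nat_lit 26) (.e (nat_lit 704737) (nat_lit 11) (.e (nat_lit 16466) (nat_lit 13) .nil))))) (.g (nat_lit 1) (.e (nat_lit 356996) (nat_lit 0) .nil) .nil))) 
(.lf (nat_lit 573302) (.g (nat_lit 2500) (.e (nat_lit 483365) (nat_lit 18) (.e (nat_lit 57846) (nat_lit 252) (.e (nat_lit 57379) (nat_lit 3) (.e (nat_lit 98313) (nat_lit 9) (.e (nat_lit 336074) (nat_lit 9) .nil))))) (.g (nat_lit 0) (.e (nat_lit 357713) (nat_lit 0) .nil) .nil))))) (.nd (nat_lit 8) (.nd (nat_lit 9) 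
(.lf (nat_lit 572662) (.g (nat_lit 4667) (.e (nat_lit 483341) (nat_lit 9) (.e (nat_lit 426108) (nat_lit 1) (.e (nat_lit 164332) (nat_lit 230) (.e (nat_lit 163869) (nat_lit 2) (.e (nat_lit 196655) (nat_lit 11) (.e (nat_lit 16465) (nat_lit 13) .nil)))))) (.g (nat_lit 1) (.e (nat_lit 355282) (nat_lit 0) .nil) .nil))) 
(.lf (nat_lit 573174) (.g (nat_lit 2124) (.e (nat_lit 483364) (nat_lit 18) (.e (nat_lit 57926) (nat_lit 282) (.e (nat_lit 163871) (nat_lit 2) (.e (nat_lit 196672) (nat_lit 15) (.e (nat_lit 89856) (nat_lit 18) .nil))))) (.g (nat_lit 1) (.e (nat_lit 357547) (nat_lit 0) .nil) .nil)))) (.nd (nat_lit 9) 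
(.lf (nat_lit 572918) (.g (nat_lit 1532) (.e (nat_lit 483363) (nat_lit 18) (.e (nat_lit 57691) (nat_lit 156) (.e (nat_lit 163907) (nat_lit 12) (.e (nat_lit 426437) (nat_lit 18) .nil)))) (.g (nat_lit 0) (.e (nat_lit 357220) (nat_lit 0) .nil) .nil))) 
(.lf (nat_lit 573430) (.g (nat_lit 1735) (.e (nat_lit 483365) (nat_lit 18) (.e (nat_lit 57929) (nat_lit 282) (.e (nat_lit 163874) (nat_lit 3) (.e (nat_lit 204876) (nat_lit 31) (.e (nat_lit 384768) (nat_lit 18) .nil))))) (.g (nat_lit 1) (.e (nat_lit 357872) (nat_lit 0) .nil) .nil))))))))) (.nd (nat_lit 4) (.nd (nat_lit 5) (.nd (nat_lit 6) (.nd (nat_lit 7) (.nd (nat_lit 8) (.nd (nat_lit 9) 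
(.lf (nat_lit 572430) (.g (nat_lit 1917) (.e (nat_lit 483339) (nat_lit 9) (.e (nat_lit 426230) (nat_lit 9) (.e (nat_lit 426435) (nat_lit 18) (.e (nat_lit 98335) (nat_lit 18) (.e (nat_lit 164327) (nat_lit 230) (.e (nat_lit 163944) (nat_lit 19) .nil)))))) (.g (nat_lit 1) (.e (nat_lit 354716) (nat_lit 0) .nil) .nil))) 
(.lf (nat_lit 572942) (.g (nat_lit 3447) (.e (nat_lit 483363) (nat_lit 18) (.e (nat_lit 57847) (nat_lit 252) (.e (nat_lit 57365) (nat_lit 1) (.e (nat_lit 57854) (nat_lit 252) (.e (nat_lit 57389) (nat_lit 5) (.e (nat_lit 114723) (nat_lit 24) (.e (nat_lit 106505) (nat_lit 9) (.e (nat_lit 492) (nat_lit 39) .nil)))))))) (.g (nat_lit 1) (.e (nat_lit 357254) (nat_lit 0) .nil) .nil)))) (.nd (nat_lit 9) 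
(.lf (nat_lit 572686) (.g (nat_lit 2100) (.e (nat_lit 483341) (nat_lit 9) (.e (nat_lit 426198) (nat_lit 9) (.e (nat_lit 426436) (nat_lit 18) (.e (nat_lit 98335) (nat_lit 18) (.e (nat_lit 164322) (nat_lit 230) .nil))))) (.g (nat_lit 0) (.e (nat_lit 355352) (nat_lit 0) .nil) .nil))) 
(.lf (nat_lit 573198) (.g (nat_lit 1938) (.e (nat_lit 483364) (nat_lit 18) (.e (nat_lit 57927) (nat_lit 282) (.e (nat_lit 163867) (nat_lit 2) (.e (nat_lit 196672) (nat_lit 15) (.e (nat_lit 89856) (nat_lit 18) .nil))))) (.g (nat_lit 0) (.e (nat_lit 357573) (nat_lit 0) .nil) .nil))))) (.nd (nat_lit 8) (.nd (nat_lit 9) 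
(.lf (nat_lit 572558) (.g (nat_lit 2197) (.e (nat_lit 483341) (nat_lit 9) (.e (nat_lit 426100) (nat_lit 1) (.e (nat_lit 164332) (nat_lit 230) (.e (nat_lit 163869) (nat_lit 2) (.e (nat_lit 196653) (nat_lit 11) (.e (nat_lit 16464) (nat_lit 13) .nil)))))) (.g (nat_lit 1) (.e (nat_lit 355040) (nat_lit 0) .nil) .nil))) 
(.lf (nat_lit 573070) (.g (nat_lit 1415) (.e (nat_lit 483363) (nat_lit 18) (.e (nat_lit 57927) (nat_lit 282) (.e (nat_lit 163867) (nat_lit 2) (.e (nat_lit 196681) (nat_lit 17) .nil)))) (.g (nat_lit 0) (.e (nat_lit 357408) (nat_lit 0) .nil) .nil)))) (.nd (nat_lit 9) 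
(.lf (nat_lit 572814) (.g (nat_lit 2112) (.e (nat_lit 483354) (nat_lit 17) (.e (nat_lit 6680) (nat_lit 357) (.e (nat_lit 3089) (nat_lit 191) (.e (nat_lit 483409) (nat_lit 27) (.e (nat_lit 401459) (nat_lit 13) .nil))))) (.g (nat_lit 1) (.e (nat_lit 357073) (nat_lit 0) .nil) .nil))) 
(.lf (nat_lit 573326) (.g (nat_lit 2255) (.e (nat_lit 483365) (nat_lit 18) (.e (nat_lit 57847) (nat_lit 252) (.e (nat_lit 57373) (nat_lit 2) (.e (nat_lit 90160) (nat_lit 11) (.e (nat_lit 24628) (nat_lit 9) .nil))))) (.g (nat_lit 0) (.e (nat_lit 357743) (nat_lit 0) .nil) .nil)))))) (.nd (nat_lit 7) (.nd (nat_lit 8) (.nd (nat_lit 9) 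
(.lf (nat_lit 572494) (.g (nat_lit 2197) (.e (nat_lit 483340) (nat_lit 9) (.e (nat_lit 426108) (nat_lit 1) (.e (nat_lit 164329) (nat_lit 230) (.e (nat_lit 163867) (nat_lit 2) (.e (nat_lit 196656) (nat_lit 11) .nil))))) (.g (nat_lit 0) (.e (nat_lit 354855) (nat_lit 0) .nil) .nil))) 
(.lf (nat_lit 573006) (.g (nat_lit 2640) (.e (nat_lit 483363) (nat_lit 18) (.e (nat_lit 57853) (nat_lit 252) (.e (nat_lit 57371) (nat_lit 2) (.e (nat_lit 90160) (nat_lit 11) (.e (nat_lit 24630) (nat_lit 9) .nil))))) (.g (nat_lit 0) (.e (nat_lit 357335) (nat_lit 0) .nil) .nil)))) (.nd (nat_lit 9) 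
(.lf (nat_lit 572750) (.g (nat_lit 895) (.e (nat_lit 491264) (nat_lit 16) (.e (nat_lit 491566) (nat_lit 12) (.e (nat_lit 385057) (nat_lit 22) .nil))) (.g (nat_lit 0) (.e (nat_lit 356292) (nat_lit 0) .nil) .nil))) 
(.lf (nat_lit 573262) (.g (nat_lit 2485) (.e (nat_lit 483364) (nat_lit 18) (.e (nat_lit 57931) (nat_lit 282) (.e (nat_lit 163874) (nat_lit 3) (.e (nat_lit 204861) (nat_lit 26) (.e (nat_lit 336078) (nat_lit 9) .nil))))) (.g (nat_lit 0) (.e (nat_lit 357649) (nat_lit 0) .nil) .nil))))) (.nd (nat_lit 8) (.nd (nat_lit 9) 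
(.lf (nat_lit 572622) (.g (nat_lit 934) (.e (nat_lit 483341) (nat_lit 9) (.e (nat_lit 426107) (nat_lit 1) (.e (nat_lit 164327) (nat_lit 230) (.e (nat_lit 163868) (nat_lit 2) .nil)))) (.g (nat_lit 0) (.e (nat_lit 355175) (nat_lit 0) .nil) .nil))) 
(.lf (nat_lit 573134) (.g (nat_lit 400) (.e (nat_lit 483364) (nat_lit 18) (.e (nat_lit 57852) (nat_lit 252) (.e (nat_lit 57377) (nat_lit 3) .nil))) (.g (nat_lit 0) (.e (nat_lit 357490) (nat_lit 0) .nil) .nil)))) (.nd (nat_lit 9) 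
(.lf (nat_lit 572878) (.g (nat_lit 1885) (.e (nat_lit 483363) (nat_lit 18) (.e (nat_lit 57686) (nat_lit 156) (.e (nat_lit 163903) (nat_lit 12) (.e (nat_lit 426428) (nat_lit 17) (.e (nat_lit 90169) (nat_lit 13) .nil))))) (.g (nat_lit 0) (.e (nat_lit 357152) (nat_lit 0) .nil) .nil))) 
(.lf (nat_lit 573390) (.g (nat_lit 3245) (.e (nat_lit 483365) (nat_lit 18) (.e (nat_lit 57852) (nat_lit 252) (.e (nat_lit 57371) (nat_lit 2) (.e (nat_lit 90159) (nat_lit 11) (.e (nat_lit 24627) (nat_lit 9) (.e (nat_lit 336454) (nat_lit 34) .nil)))))) (.g (nat_lit 1) (.e (nat_lit 357823) (nat_lit 0) .nil) .nil))))))) (.nd (nat_lit 6) (.nd (nat_lit 7) (.nd (nat_lit 8) (.nd (nat_lit 9) 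
(.lf (nat_lit 572462) (.g (nat_lit 2732) (.e (nat_lit 483340) (nat_lit 9) (.e (nat_lit 426097) (nat_lit 1) (.e (nat_lit 164327) (nat_lit 230) (.e (nat_lit 163871) (nat_lit 2) (.e (nat_lit 196654) (nat_lit 11) (.e (nat_lit 16466) (nat_lit 13) .nil)))))) (.g (nat_lit 1) (.e (nat_lit 354804) (nat_lit 0) .nil) .nil))) 
(.lf (nat_lit 572974) (.g (nat_lit 1621) (.e (nat_lit 483363) (nat_lit 18) (.e (nat_lit 57847) (nat_lit 252) (.e (nat_lit 57375) (nat_lit 2) (.e (nat_lit 90125) (nat_lit 9) (.e (nat_lit 333) (nat_lit 26) .nil))))) (.g (nat_lit 0) (.e (nat_lit 357297) (nat_lit 0) .nil) .nil)))) (.nd (nat_lit 9) 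
(.lf (nat_lit 572718) (.g (nat_lit 1323) (.e (nat_lit 491264) (nat_lit 9) (.e (nat_lit 426110) (nat_lit 1) (.e (nat_lit 164327) (nat_lit 230) (.e (nat_lit 163871) (nat_lit 2) .nil)))) (.g (nat_lit 0) (.e (nat_lit 355786) (nat_lit 0) .nil) .nil))) 
(.lf (nat_lit 573230) (.g (nat_lit 1759) (.e (nat_lit 483364) (nat_lit 18) (.e (nat_lit 57928) (nat_lit 282) (.e (nat_lit 163868) (nat_lit 2) (.e (nat_lit 196672) (nat_lit 15) (.e (nat_lit 89856) (nat_lit 18) .nil))))) (.g (nat_lit 1) (.e (nat_lit 357612) (nat_lit 0) .nil) .nil))))) (.nd (nat_lit 8) (.nd (nat_lit 9) 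
(.lf (nat_lit 572590) (.g (nat_lit 2810) (.e (nat_lit 483341) (nat_lit 9) (.e (nat_lit 426100) (nat_lit 1) (.e (nat_lit 164403) (nat_lit 256) (.e (nat_lit 57378) (nat_lit 3) (.e (nat_lit 98363) (nat_lit 26) (.e (nat_lit 426321) (nat_lit 13) .nil)))))) (.g (nat_lit 1) (.e (nat_lit 355078) (nat_lit 0) .nil) .nil))) 
(.lf (nat_lit 573102) (.g (nat_lit 1553) (.e (nat_lit 483363) (nat_lit 18) (.e (nat_lit 57929) (nat_lit 282) (.e (nat_lit 163869) (nat_lit 2) (.e (nat_lit 196674) (nat_lit 15) (.e (nat_lit 89856) (nat_lit 18) .nil))))) (.g (nat_lit 0) (.e (nat_lit 357449) (nat_lit 0) .nil) .nil)))) (.nd (nat_lit 9) 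
(.lf (nat_lit 572846) (.g (nat_lit 2548) (.e (nat_lit 483362) (nat_lit 18) (.e (nat_lit 57854) (nat_lit 252) (.e (nat_lit 57373) (nat_lit 2) (.e (nat_lit 90158) (nat_lit 11) .nil)))) (.g (nat_lit 0) (.e (nat_lit 357114) (nat_lit 0) .nil) .nil))) 
(.lf (nat_lit 573358) (.g (nat_lit 1070) (.e (nat_lit 483365) (nat_lit 18) (.e (nat_lit 57848) (nat_lit 252) (.e (nat_lit 57379) (nat_lit 3) (.e (nat_lit 98315) (nat_lit 9) .nil)))) (.g (nat_lit 0) (.e (nat_lit 357781) (nat_lit 0) .nil) .nil)))))) (.nd (nat_lit 7) (.nd (nat_lit 8) (.nd (nat_lit 9) 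
(.lf (nat_lit 572526) (.g (nat_lit 1883) (.e (nat_lit 483341) (nat_lit 9) (.e (nat_lit 426098) (nat_lit 1) (.e (nat_lit 164398) (nat_lit 256) (.e (nat_lit 57372) (nat_lit 2) .nil)))) (.g (nat_lit 0) (.e (nat_lit 354978) (nat_lit 0) .nil) .nil))) 
(.lf (nat_lit 573038) (.g (nat_lit 1567) (.e (nat_lit 483363) (nat_lit 18) (.e (nat_lit 57926) (nat_lit 282) (.e (nat_lit 163869) (nat_lit 2) (.e (nat_lit 196673) (nat_lit 15) (.e (nat_lit 89856) (nat_lit 18) .nil))))) (.g (nat_lit 0) (.e (nat_lit 357373) (nat_lit 0) .nil) .nil)))) (.nd (nat_lit 9) 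
(.lf (nat_lit 572782) (.g (nat_lit 435) (.e (nat_lit 483346) (nat_lit 17) (.e (nat_lit 6712) (nat_lit 360) (.e (nat_lit 163979) (nat_lit 30) .nil))) (.g (nat_lit 0) (.e (nat_lit 356746) (nat_lit 0) .nil) .nil))) 
(.lf (nat_lit 573294) (.g (nat_lit 3240) (.e (nat_lit 483365) (nat_lit 18) (.e (nat_lit 57846) (nat_lit 252) (.e (nat_lit 57371) (nat_lit 2) (.e (nat_lit 90160) (nat_lit 11) (.e (nat_lit 24630) (nat_lit 9) (.e (nat_lit 336456) (nat_lit 34) .nil)))))) (.g (nat_lit 1) (.e (nat_lit 357702) (nat_lit 0) .nil) .nil))))) (.nd (nat_lit 8) (.nd (nat_lit 9) 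
(.lf (nat_lit 572654) (.g (nat_lit 1058) (.e (nat_lit 483341) (nat_lit 9) (.e (nat_lit 426108) (nat_lit 1) (.e (nat_lit 164331) (nat_lit 230) (.e (nat_lit 163867) (nat_lit 2) .nil)))) (.g (nat_lit 0) (.e (nat_lit 355258) (nat_lit 0) .nil) .nil))) 
(.lf (nat_lit 573166) (.g (nat_lit 2667) (.e (nat_lit 483364) (nat_lit 18) (.e (nat_lit 57926) (nat_lit 282) (.e (nat_lit 163867) (nat_lit 2) (.e (nat_lit 196681) (nat_lit 17) (.e (nat_lit 131109) (nat_lit 9) (.e (nat_lit 336454) (nat_lit 34) .nil)))))) (.g (nat_lit 1) (.e (nat_lit 357532) (nat_lit 0) .nil) .nil)))) (.nd (nat_lit 9) 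
(.lf (nat_lit 572910) (.g (nat_lit 3391) (.e (nat_lit 483363) (nat_lit 18) (.e (nat_lit 57691) (nat_lit 156) (.e (nat_lit 163905) (nat_lit 12) (.e (nat_lit 426438) (nat_lit 18) (.e (nat_lit 98365) (nat_lit 26) (.e (nat_lit 426325) (nat_lit 13) .nil)))))) (.g (nat_lit 1) (.e (nat_lit 357209) (nat_lit 0) .nil) .nil))) 
(.lf (nat_lit 573422) (.g (nat_lit 1840) (.e (nat_lit 483365) (nat_lit 18) (.e (nat_lit 57929) (nat_lit 282) (.e (nat_lit 163867) (nat_lit 2) (.e (nat_lit 196674) (nat_lit 15) (.e (nat_lit 89856) (nat_lit 18) .nil))))) (.g (nat_lit 0) (.e (nat_lit 357863) (nat_lit 0) .nil) .nil)))))))) (.nd (nat_lit 5) (.nd (nat_lit 6) (.nd (nat_lit 7) (.nd (nat_lit 8) (.nd (nat_lit 9) 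
(.lf (nat_lit 572446) (.g (nat_lit 2339) (.e (nat_lit 483339) (nat_lit 9) (.e (nat_lit 426260) (nat_lit 9) (.e (nat_lit 426435) (nat_lit 18) (.e (nat_lit 98335) (nat_lit 18) (.e (nat_lit 164330) (nat_lit 230) (.e (nat_lit 163943) (nat_lit 19) .nil)))))) (.g (nat_lit 1) (.e (nat_lit 354772) (nat_lit 0) .nil) .nil))) 
(.lf (nat_lit 572958) (.g (nat_lit 3217) (.e (nat_lit 483363) (nat_lit 18) (.e (nat_lit 57847) (nat_lit 252) (.e (nat_lit 57372) (nat_lit 2) (.e (nat_lit 90158) (nat_lit 11) (.e (nat_lit 24628) (nat_lit 9) (.e (nat_lit 336456) (nat_lit 34) .nil)))))) (.g (nat_lit 1) (.e (nat_lit 357276) (nat_lit 0) .nil) .nil)))) (.nd (nat_lit 9) 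
(.lf (nat_lit 572702) (.g (nat_lit 1317) (.e (nat_lit 491264) (nat_lit 9) (.e (nat_lit 426098) (nat_lit 1) (.e (nat_lit 164327) (nat_lit 230) (.e (nat_lit 163868) (nat_lit 2) .nil)))) (.g (nat_lit 0) (.e (nat_lit 355743) (nat_lit 0) .nil) .nil))) 
(.lf (nat_lit 573214) (.g (nat_lit 2006) (.e (nat_lit 483364) (nat_lit 18) (.e (nat_lit 57927) (nat_lit 282) (.e (nat_lit 163873) (nat_lit 3) (.e (nat_lit 204878) (nat_lit 31) (.e (nat_lit 384768) (nat_lit 18) .nil))))) (.g (nat_lit 1) (.e (nat_lit 357595) (nat_lit 0) .nil) .nil))))) (.nd (nat_lit 8) (.nd (nat_lit 9) 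
(.lf (nat_lit 572574) (.g (nat_lit 389) (.e (nat_lit 483341) (nat_lit 9) (.e (nat_lit 426100) (nat_lit 1) (.e (nat_lit 164399) (nat_lit 256) .nil))) (.g (nat_lit 0) (.e (nat_lit 355061) (nat_lit 0) .nil) .nil))) 
(.lf (nat_lit 573086) (.g (nat_lit 2362) (.e (nat_lit 483363) (nat_lit 18) (.e (nat_lit 57927) (nat_lit 282) (.e (nat_lit 163874) (nat_lit 3) (.e (nat_lit 204866) (nat_lit 28) (.e (nat_lit 360192) (nat_lit 18) .nil))))) (.g (nat_lit 1) (.e (nat_lit 357433) (nat_lit 0) .nil) .nil)))) (.nd (nat_lit 9) 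
(.lf (nat_lit 572830) (.g (nat_lit 801) (.e (nat_lit 483362) (nat_lit 18) (.e (nat_lit 57688) (nat_lit 156) (.e (nat_lit 163905) (nat_lit 12) .nil))) (.g (nat_lit 0) (.e (nat_lit 357098) (nat_lit 0) .nil) .nil))) 
(.lf (nat_lit 573342) (.g (nat_lit 1286) (.e (nat_lit 483365) (nat_lit 18) (.e (nat_lit 57848) (nat_lit 252) (.e (nat_lit 57372) (nat_lit 2) (.e (nat_lit 90130) (nat_lit 9) .nil)))) (.g (nat_lit 0) (.e (nat_lit 357762) (nat_lit 0) .nil) .nil)))))) (.nd (nat_lit 7) (.nd (nat_lit 8) (.nd (nat_lit 9) 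
(.lf (nat_lit 572510) (.g (nat_lit 2372) (.e (nat_lit 483340) (nat_lit 9) (.e (nat_lit 426200) (nat_lit 9) (.e (nat_lit 426436) (nat_lit 18) (.e (nat_lit 98335) (nat_lit 18) (.e (nat_lit 164327) (nat_lit 230) .nil))))) (.g (nat_lit 0) (.e (nat_lit 354892) (nat_lit 0) .nil) .nil))) 
(.lf (nat_lit 573022) (.g (nat_lit 2871) (.e (nat_lit 483363) (nat_lit 18) (.e (nat_lit 57854) (nat_lit 252) (.e (nat_lit 57373) (nat_lit 2) (.e (nat_lit 90160) (nat_lit 11) (.e (nat_lit 24636) (nat_lit 9) (.e (nat_lit 336453) (nat_lit 34) .nil)))))) (.g (nat_lit 1) (.e (nat_lit 357352) (nat_lit 0) .nil) .nil)))) (.nd (nat_lit 9) 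
(.lf (nat_lit 572766) (.g (nat_lit 1421) (.e (nat_lit 483343) (nat_lit 17) (.e (nat_lit 6718) (nat_lit 361) (.e (nat_lit 172076) (nat_lit 6) (.e (nat_lit 253991) (nat_lit 11) (.e (nat_lit 16462) (nat_lit 13) .nil))))) (.g (nat_lit 0) (.e (nat_lit 356340) (nat_lit 0) .nil) .nil))) 
(.lf (nat_lit 573278) (.g (nat_lit 3662) (.e (nat_lit 483365) (nat_lit 18) (.e (nat_lit 57688) (nat_lit 156) (.e (nat_lit 163907) (nat_lit 12) (.e (nat_lit 426428) (nat_lit 17) (.e (nat_lit 90170) (nat_lit 13) (.e (nat_lit 172123) (nat_lit 13) .nil)))))) (.g (nat_lit 1) (.e (nat_lit 357672) (nat_lit 0) .nil) .nil))))) (.nd (nat_lit 8) (.nd (nat_lit 9) 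
(.lf (nat_lit 572638) (.g (nat_lit 2336) (.e (nat_lit 483341) (nat_lit 9) (.e (nat_lit 426107) (nat_lit 1) (.e (nat_lit 164403) (nat_lit 256) (.e (nat_lit 57373) (nat_lit 2) (.e (nat_lit 90169) (nat_lit 13) (.e (nat_lit 172121) (nat_lit 13) .nil)))))) (.g (nat_lit 1) (.e (nat_lit 355215) (nat_lit 0) .nil) .nil))) 
(.lf (nat_lit 573150) (.g (nat_lit 1608) (.e (nat_lit 483364) (nat_lit 18) (.e (nat_lit 57854) (nat_lit 252) (.e (nat_lit 57378) (nat_lit 3) (.e (nat_lit 98313) (nat_lit 9) (.e (nat_lit 343808) (nat_lit 9) .nil))))) (.g (nat_lit 0) (.e (nat_lit 357515) (nat_lit 0) .nil) .nil)))) (.nd (nat_lit 9) 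
(.lf (nat_lit 572894) (.g (nat_lit 1440) (.e (nat_lit 483363) (nat_lit 18) (.e (nat_lit 57688) (nat_lit 156) (.e (nat_lit 163905) (nat_lit 12) (.e (nat_lit 426434) (nat_lit 18) .nil)))) (.g (nat_lit 0) (.e (nat_lit 357177) (nat_lit 0) .nil) .nil))) 
(.lf (nat_lit 573406) (.g (nat_lit 2204) (.e (nat_lit 483365) (nat_lit 18) (.e (nat_lit 57854) (nat_lit 252) (.e (nat_lit 57371) (nat_lit 2) (.e (nat_lit 90160) (nat_lit 11) (.e (nat_lit 24636) (nat_lit 9) (.e (nat_lit 343808) (nat_lit 34) .nil)))))) (.g (nat_lit 1) (.e (nat_lit 357843) (nat_lit 0) .nil) .nil))))))) (.nd (nat_lit 6) (.nd (nat_lit 7) (.nd (nat_lit 8) (.nd (nat_lit 9) 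
(.lf (nat_lit 572478) (.g (nat_lit 1647) (.e (nat_lit 483340) (nat_lit 9) (.e (nat_lit 426100) (nat_lit 1) (.e (nat_lit 164398) (nat_lit 256) (.e (nat_lit 57379) (nat_lit 3) .nil)))) (.g (nat_lit 0) (.e (nat_lit 354828) (nat_lit 0) .nil) .nil))) 
(.lf (nat_lit 572990) (.g (nat_lit 1813) (.e (nat_lit 483363) (nat_lit 18) (.e (nat_lit 57849) (nat_lit 252) (.e (nat_lit 57372) (nat_lit 2) (.e (nat_lit 90157) (nat_lit 11) .nil)))) (.g (nat_lit 0) (.e (nat_lit 357317) (nat_lit 0) .nil) .nil)))) (.nd (nat_lit 9) 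
(.lf (nat_lit 572734) (.g (nat_lit 910) (.e (nat_lit 491264) (nat_lit 10) (.e (nat_lit 434275) (nat_lit 39) (.e (nat_lit 663585) (nat_lit 12) (.e (nat_lit 163977) (nat_lit 30) .nil)))) (.g (nat_lit 0) (.e (nat_lit 355851) (nat_lit 0) .nil) .nil))) 
(.lf (nat_lit 573246) (.g (nat_lit 1287) (.e (nat_lit 483364) (nat_lit 18) (.e (nat_lit 57931) (nat_lit 282) (.e (nat_lit 163867) (nat_lit 2) (.e (nat_lit 196681) (nat_lit 17) .nil)))) (.g (nat_lit 0) (.e (nat_lit 357631) (nat_lit 0) .nil) .nil))))) (.nd (nat_lit 8) (.nd (nat_lit 9) 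
(.lf (nat_lit 572606) (.g (nat_lit 276) (.e (nat_lit 483341) (nat_lit 9) (.e (nat_lit 426107) (nat_lit 1) (.e (nat_lit 164324) (nat_lit 230) .nil))) (.g (nat_lit 0) (.e (nat_lit 355122) (nat_lit 0) .nil) .nil))) 
(.lf (nat_lit 573118) (.g (nat_lit 2630) (.e (nat_lit 483363) (nat_lit 18) (.e (nat_lit 57931) (nat_lit 282) (.e (nat_lit 163874) (nat_lit 3) (.e (nat_lit 204866) (nat_lit 28) (.e (nat_lit 360192) (nat_lit 18) .nil))))) (.g (nat_lit 1) (.e (nat_lit 357468) (nat_lit 0) .nil) .nil)))) (.nd (nat_lit 9) 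
(.lf (nat_lit 572862) (.g (nat_lit 2625) (.e (nat_lit 483362) (nat_lit 18) (.e (nat_lit 57926) (nat_lit 282) (.e (nat_lit 163875) (nat_lit 3) (.e (nat_lit 204861) (nat_lit 26) (.e (nat_lit 336075) (nat_lit 9) (.e (nat_lit 336454) (nat_lit 34) .nil)))))) (.g (nat_lit 1) (.e (nat_lit 357132) (nat_lit 0) .nil) .nil))) 
(.lf (nat_lit 573374) (.g (nat_lit 2811) (.e (nat_lit 483365) (nat_lit 18) (.e (nat_lit 57849) (nat_lit 252) (.e (nat_lit 57375) (nat_lit 2) (.e (nat_lit 90128) (nat_lit 9) (.e (nat_lit 310) (nat_lit 23) .nil))))) (.g (nat_lit 0) (.e (nat_lit 357803) (nat_lit 0) .nil) .nil)))))) (.nd (nat_lit 7) (.nd (nat_lit 8) (.nd (nat_lit 9) 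
(.lf (nat_lit 572542) (.g (nat_lit 3247) (.e (nat_lit 483341) (nat_lit 9) (.e (nat_lit 426098) (nat_lit 1) (.e (nat_lit 164403) (nat_lit 256) (.e (nat_lit 57373) (nat_lit 2) (.e (nat_lit 90170) (nat_lit 13) (.e (nat_lit 172121) (nat_lit 13) .nil)))))) (.g (nat_lit 1) (.e (nat_lit 354995) (nat_lit 0) .nil) .nil))) 
(.lf (nat_lit 573054) (.g (nat_lit 1547) (.e (nat_lit 483363) (nat_lit 18) (.e (nat_lit 57926) (nat_lit 282) (.e (nat_lit 163875) (nat_lit 3) (.e (nat_lit 204850) (nat_lit 26) .nil)))) (.g (nat_lit 0) (.e (nat_lit 357392) (nat_lit 0) .nil) .nil)))) (.nd (nat_lit 9) 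
(.lf (nat_lit 572798) (.g (nat_lit 1554) (.e (nat_lit 483350) (nat_lit 17) (.e (nat_lit 6113) (nat_lit 332) (.e (nat_lit 1374) (nat_lit 104) (.e (nat_lit 303152) (nat_lit 27) .nil)))) (.g (nat_lit 0) (.e (nat_lit 357039) (nat_lit 0) .nil) .nil))) 
(.lf (nat_lit 573310) (.g (nat_lit 2904) (.e (nat_lit 483365) (nat_lit 18) (.e (nat_lit 57847) (nat_lit 252) (.e (nat_lit 57365) (nat_lit 1) (.e (nat_lit 57854) (nat_lit 252) (.e (nat_lit 57389) (nat_lit 5) (.e (nat_lit 114723) (nat_lit 24) (.e (nat_lit 106505) (nat_lit 9) (.e (nat_lit 492) (nat_lit 39) .nil)))))))) (.g (nat_lit 1) (.e (nat_lit 357721) (nat_lit 0) .nil) .nil))))) 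
(.nd (nat_lit 8) (.nd (nat_lit 9) 
(.lf (nat_lit 572670) (.g (nat_lit 4155) (.e (nat_lit 483341) (nat_lit 9) (.e (nat_lit 426185) (nat_lit 9) (.e (nat_lit 426436) (nat_lit 18) (.e (nat_lit 98335) (nat_lit 18) (.e (nat_lit 164324) (nat_lit 230) (.e (nat_lit 163941) (nat_lit 19) .nil)))))) (.g (nat_lit 1) (.e (nat_lit 355300) (nat_lit 0) .nil) .nil))) 
(.lf (nat_lit 573182) (.g (nat_lit 2247) (.e (nat_lit 483364) (nat_lit 18) (.e (nat_lit 57926) (nat_lit 282) (.e (nat_lit 163874) (nat_lit 3) (.e (nat_lit 204866) (nat_lit 28) (.e (nat_lit 360192) (nat_lit 18) .nil))))) (.g (nat_lit 1) (.e (nat_lit 357557) (nat_lit 0) .nil) .nil)))) (.nd (nat_lit 9) 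
(.lf (nat_lit 572926) (.g (nat_lit 3043) (.e (nat_lit 483363) (nat_lit 18) (.e (nat_lit 57692) (nat_lit 156) (.e (nat_lit 163905) (nat_lit 12) (.e (nat_lit 426438) (nat_lit 18) (.e (nat_lit 98365) (nat_lit 26) (.e (nat_lit 426325) (nat_lit 13) .nil)))))) (.g (nat_lit 1) (.e (nat_lit 357232) (nat_lit 0) .nil) .nil))) 
(.lf (nat_lit 573438) (.g (nat_lit 2482) (.e (nat_lit 483365) (nat_lit 18) (.e (nat_lit 57930) (nat_lit 282) (.e (nat_lit 163873) (nat_lit 3) (.e (nat_lit 204865) (nat_lit 28) (.e (nat_lit 360192) (nat_lit 18) .nil))))) (.g (nat_lit 1) (.e (nat_lit 357880) (nat_lit 0) .nil) .nil)))))))))))) 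
(.nd (nat_lit 1) (.nd (nat_lit 2) (.nd (nat_lit 3) (.nd (nat_lit 4) (.nd (nat_lit 5) 
(.nd (nat_lit 6) (.nd (nat_lit 7) (.nd (nat_lit 8) (.nd (nat_lit 9) 
(.lf (nat_lit 572417) (.g (nat_lit 2580) (.e (nat_lit 483337) (nat_lit 9) (.e (nat_lit 426313) (nat_lit 12) (.e (nat_lit 475179) (nat_lit 24) (.e (nat_lit 516117) (nat_lit 1) (.e (nat_lit 164329) (nat_lit 230) (.e (nat_lit 163941) (nat_lit 19) .nil)))))) (.g (nat_lit 1) (.e (nat_lit 354649) (nat_lit 0) .nil) .nil))) 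
(.lf (nat_lit 572929) (.g (nat_lit 2491) (.e (nat_lit 483363) (nat_lit 18) (.e (nat_lit 57692) (nat_lit 156) (.e (nat_lit 163907) (nat_lit 12) (.e (nat_lit 426428) (nat_lit 17) (.e (nat_lit 90185) (nat_lit 17) (.e (nat_lit 237623) (nat_lit 13) .nil)))))) (.g (nat_lit 1) (.e (nat_lit 357236) (nat_lit 0) .nil) .nil)))) (.nd (nat_lit 9) 
(.lf (nat_lit 572673) (.g (nat_lit 3584) (.e (nat_lit 483341) (nat_lit 9) (.e (nat_lit 426187) (nat_lit 9) (.e (nat_lit 426436) (nat_lit 18) (.e (nat_lit 98335) (nat_lit 18) (.e (nat_lit 164326) (nat_lit 230) (.e (nat_lit 163942) (nat_lit 19) .nil)))))) (.g (nat_lit 1) (.e (nat_lit 355303) (nat_lit 0) .nil) .nil))) 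
(.lf (nat_lit 573185) (.g (nat_lit 1814) (.e (nat_lit 483364) (nat_lit 18) (.e (nat_lit 57926) (nat_lit 282) (.e (nat_lit 163874) (nat_lit 3) (.e (nat_lit 204876) (nat_lit 31) (.e (nat_lit 384768) (nat_lit 18) .nil))))) (.g (nat_lit 1) (.e (nat_lit 357560) (nat_lit 0) .nil) .nil))))) (.nd (nat_lit 8) (.nd (nat_lit 9) 
(.lf (nat_lit 572545) (.g (nat_lit 2474) (.e (nat_lit 483341) (nat_lit 9) (.e (nat_lit 426099) (nat_lit 1) (.e (nat_lit 164332) (nat_lit 230) (.e (nat_lit 163869) (nat_lit 2) (.e (nat_lit 196653) (nat_lit 11) .nil))))) (.g (nat_lit 0) (.e (nat_lit 355002) (nat_lit 0) .nil) .nil))) 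
(.lf (nat_lit 573057) (.g (nat_lit 2236) (.e (nat_lit 483363) (nat_lit 18) (.e (nat_lit 57926) (nat_lit 282) (.e (nat_lit 163875) (nat_lit 3) (.e (nat_lit 204861) (nat_lit 26) (.e (nat_lit 336075) (nat_lit 9) .nil))))) (.g (nat_lit 0) (.e (nat_lit 357395) (nat_lit 0) .nil) .nil)))) (.nd (nat_lit 9) 
(.lf (nat_lit 572801) (.g (nat_lit 3084) (.e (nat_lit 483350) (nat_lit 17) (.e (nat_lit 6113) (nat_lit 332) (.e (nat_lit 1376) (nat_lit 104) (.e (nat_lit 303122) (nat_lit 6) .nil)))) (.g (nat_lit 0) (.e (nat_lit 357043) (nat_lit 0) .nil) .nil))) 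
(.lf (nat_lit 573313) (.g (nat_lit 3315) (.e (nat_lit 483365) (nat_lit 18) (.e (nat_lit 57847) (nat_lit 252) (.e (nat_lit 57365) (nat_lit 1) (.e (nat_lit 57854) (nat_lit 252) (.e (nat_lit 57389) (nat_lit 5) (.e (nat_lit 114723) (nat_lit 24) (.e (nat_lit 106507) (nat_lit 9) (.e (nat_lit 492) (nat_lit 39) .nil)))))))) (.g (nat_lit 1) (.e (nat_lit 357724) (nat_lit 0) .nil) .nil)))))) 
(.nd (nat_lit 7) (.nd (nat_lit 8) (.nd (nat_lit 9) 
(.lf (nat_lit 572481) (.g (nat_lit 1488) (.e (nat_lit 483340) (nat_lit 9) (.e (nat_lit 426100) (nat_lit 1) (.e (nat_lit 164399) (nat_lit 256) (.e (nat_lit 57372) (nat_lit 2) .nil)))) (.g (nat_lit 0) (.e (nat_lit 354831) (nat_lit 0) .nil) .nil))) 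
(.lf (nat_lit 572993) (.g (nat_lit 2011) (.e (nat_lit 483363) (nat_lit 18) (.e (nat_lit 57849) (nat_lit 252) (.e (nat_lit 57375) (nat_lit 2) (.e (nat_lit 90134) (nat_lit 9) (.e (nat_lit 290) (nat_lit 21) .nil))))) (.g (nat_lit 0) (.e (nat_lit 357322) (nat_lit 0) .nil) .nil)))) (.nd (nat_lit 9) 
(.lf (nat_lit 572737) (.g (nat_lit 322) (.e (nat_lit 491264) (nat_lit 10) (.e (nat_lit 434279) (nat_lit 39) (.e (nat_lit 663584) (nat_lit 12) .nil))) (.g (nat_lit 0) (.e (nat_lit 355858) (nat_lit 0) .nil) .nil))) 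
(.lf (nat_lit 573249) (.g (nat_lit 1915) (.e (nat_lit 483364) (nat_lit 18) (.e (nat_lit 57931) (nat_lit 282) (.e (nat_lit 163869) (nat_lit 2) (.e (nat_lit 196673) (nat_lit 15) .nil)))) (.g (nat_lit 0) (.e (nat_lit 357636) (nat_lit 0) .nil) .nil))))) (.nd (nat_lit 8) (.nd (nat_lit 9) 
(.lf (nat_lit 572609) (.g (nat_lit 2693) (.e (nat_lit 483341) (nat_lit 9) (.e (nat_lit 426107) (nat_lit 1) (.e (nat_lit 164324) (nat_lit 230) (.e (nat_lit 163871) (nat_lit 2) (.e (nat_lit 196654) (nat_lit 11) (.e (nat_lit 16466) (nat_lit 13) .nil)))))) (.g (nat_lit 1) (.e (nat_lit 355130) (nat_lit 0) .nil) .nil))) 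
(.lf (nat_lit 573121) (.g (nat_lit 2279) (.e (nat_lit 483363) (nat_lit 18) (.e (nat_lit 57931) (nat_lit 282) (.e (nat_lit 163874) (nat_lit 3) (.e (nat_lit 204877) (nat_lit 31) (.e (nat_lit 384768) (nat_lit 18) .nil))))) (.g (nat_lit 1) (.e (nat_lit 357471) (nat_lit 0) .nil) .nil)))) (.nd (nat_lit 9) 
(.lf (nat_lit 572865) (.g (nat_lit 1299) (.e (nat_lit 483362) (nat_lit 18) (.e (nat_lit 57926) (nat_lit 282) (.e (nat_lit 163875) (nat_lit 3) (.e (nat_lit 204876) (nat_lit 31) (.e (nat_lit 384768) (nat_lit 18) .nil))))) (.g (nat_lit 0) (.e (nat_lit 357135) (nat_lit 0) .nil) .nil))) 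
(.lf (nat_lit 573377) (.g (nat_lit 2301) (.e (nat_lit 483365) (nat_lit 18) (.e (nat_lit 57849) (nat_lit 252) (.e (nat_lit 57375) (nat_lit 2) (.e (nat_lit 90160) (nat_lit 11) (.e (nat_lit 32512) (nat_lit 9) .nil))))) (.g (nat_lit 0) (.e (nat_lit 357807) (nat_lit 0) .nil) .nil))))))) (.nd (nat_lit 6) (.nd (nat_lit 7) (.nd (nat_lit 8) (.nd (nat_lit 9) 
(.lf (nat_lit 572449) (.g (nat_lit 1917) (.e (nat_lit 483339) (nat_lit 9) (.e (nat_lit 426261) (nat_lit 9) (.e (nat_lit 426435) (nat_lit 18) (.e (nat_lit 98334) (nat_lit 18) (.e (nat_lit 164332) (nat_lit 230) (.e (nat_lit 163943) (nat_lit 19) .nil)))))) (.g (nat_lit 1) (.e (nat_lit 354779) (nat_lit 0) .nil) .nil))) 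
(.lf (nat_lit 572961) (.g (nat_lit 4044) (.e (nat_lit 483363) (nat_lit 18) (.e (nat_lit 57847) (nat_lit 252) (.e (nat_lit 57372) (nat_lit 2) (.e (nat_lit 90160) (nat_lit 11) (.e (nat_lit 24627) (nat_lit 9) (.e (nat_lit 336454) (nat_lit 34) .nil)))))) (.g (nat_lit 1) (.e (nat_lit 357284) (nat_lit 0) .nil) .nil)))) (.nd (nat_lit 9) 
(.lf (nat_lit 572705) (.g (nat_lit 2068) (.e (nat_lit 491264) (nat_lit 9) (.e (nat_lit 426098) (nat_lit 1) (.e (nat_lit 164327) (nat_lit 230) (.e (nat_lit 163871) (nat_lit 2) (.e (nat_lit 196653) (nat_lit 11) .nil))))) (.g (nat_lit 0) (.e (nat_lit 355746) (nat_lit 0) .nil) .nil))) 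
(.lf (nat_lit 573217) (.g (nat_lit 1855) (.e (nat_lit 483364) (nat_lit 18) (.e (nat_lit 57927) (nat_lit 282) (.e (nat_lit 163874) (nat_lit 3) (.e (nat_lit 204865) (nat_lit 28) (.e (nat_lit 360192) (nat_lit 18) .nil))))) (.g (nat_lit 1) (.e (nat_lit 357598) (nat_lit 0) .nil) .nil))))) (.nd (nat_lit 8) (.nd (nat_lit 9) 
(.lf (nat_lit 572577) (.g (nat_lit 1996) (.e (nat_lit 483341) (nat_lit 9) (.e (nat_lit 426100) (nat_lit 1) (.e (nat_lit 164399) (nat_lit 256) (.e (nat_lit 57377) (nat_lit 3) (.e (nat_lit 98363) (nat_lit 26) (.e (nat_lit 426321) (nat_lit 13) .nil)))))) (.g (nat_lit 1) (.e (nat_lit 355064) (nat_lit 0) .nil) .nil))) 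
(.lf (nat_lit 573089) (.g (nat_lit 2059) (.e (nat_lit 483363) (nat_lit 18) (.e (nat_lit 57927) (nat_lit 282) (.e (nat_lit 163874) (nat_lit 3) (.e (nat_lit 204877) (nat_lit 31) (.e (nat_lit 384768) (nat_lit 18) .nil))))) (.g (nat_lit 1) (.e (nat_lit 357436) (nat_lit 0) .nil) .nil)))) (.nd (nat_lit 9) 
(.lf (nat_lit 572833) (.g (nat_lit 1212) (.e (nat_lit 483362) (nat_lit 18) (.e (nat_lit 57691) (nat_lit 156) (.e (nat_lit 163905) (nat_lit 12) (.e (nat_lit 426438) (nat_lit 18) .nil)))) (.g (nat_lit 0) (.e (nat_lit 357101) (nat_lit 0) .nil) .nil))) 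
(.lf (nat_lit 573345) (.g (nat_lit 3223) (.e (nat_lit 483365) (nat_lit 18) (.e (nat_lit 57848) (nat_lit 252) (.e (nat_lit 57372) (nat_lit 2) (.e (nat_lit 90160) (nat_lit 11) (.e (nat_lit 24628) (nat_lit 9) (.e (nat_lit 336454) (nat_lit 34) .nil)))))) (.g (nat_lit 1) (.e (nat_lit 357767) (nat_lit 0) .nil) .nil)))))) (.nd (nat_lit 7) (.nd (nat_lit 8) (.nd (nat_lit 9) 
(.lf (nat_lit 572513) (.g (nat_lit 1013) (.e (nat_lit 483341) (nat_lit 9) (.e (nat_lit 426098) (nat_lit 1) (.e (nat_lit 164300) (nat_lit 226) .nil))) (.g (nat_lit 0) (.e (nat_lit 354908) (nat_lit 0) .nil) .nil))) 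
(.lf (nat_lit 573025) (.g (nat_lit 1666) (.e (nat_lit 483363) (nat_lit 18) (.e (nat_lit 57873) (nat_lit 264) (.e (nat_lit 1181) (nat_lit 87) (.e (nat_lit 57469) (nat_lit 26) (.e (nat_lit 540703) (nat_lit 11) .nil))))) (.g (nat_lit 0) (.e (nat_lit 357357) (nat_lit 0) .nil) .nil)))) (.nd (nat_lit 9) 
(.lf (nat_lit 572769) (.g (nat_lit 2090) (.e (nat_lit 483343) (nat_lit 17) (.e (nat_lit 6724) (nat_lit 362) (.e (nat_lit 180271) (nat_lit 26) (.e (nat_lit 704737) (nat_lit 11) (.e (nat_lit 16462) (nat_lit 13) .nil))))) (.g (nat_lit 1) (.e (nat_lit 356399) (nat_lit 0) .nil) .nil))) 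
(.lf (nat_lit 573281) (.g (nat_lit 2255) (.e (nat_lit 483365) (nat_lit 18) (.e (nat_lit 57688) (nat_lit 156) (.e (nat_lit 163907) (nat_lit 12) (.e (nat_lit 426438) (nat_lit 18) (.e (nat_lit 98365) (nat_lit 26) .nil))))) (.g (nat_lit 0) (.e (nat_lit 357677) (nat_lit 0) .nil) .nil))))) (.nd (nat_lit 8) (.nd (nat_lit 9) 
(.lf (nat_lit 572641) (.g (nat_lit 1029) (.e (nat_lit 483341) (nat_lit 9) (.e (nat_lit 426108) (nat_lit 1) (.e (nat_lit 164305) (nat_lit 226) (.e (nat_lit 2433) (nat_lit 157) .nil)))) (.g (nat_lit 0) (.e (nat_lit 355219) (nat_lit 0) .nil) .nil))) 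
(.lf (nat_lit 573153) (.g (nat_lit 1621) (.e (nat_lit 483364) (nat_lit 18) (.e (nat_lit 57924) (nat_lit 282) (.e (nat_lit 163867) (nat_lit 2) (.e (nat_lit 196674) (nat_lit 15) (.e (nat_lit 89856) (nat_lit 18) .nil))))) (.g (nat_lit 0) (.e (nat_lit 357519) (nat_lit 0) .nil) .nil)))) (.nd (nat_lit 9) 
(.lf (nat_lit 572897) (.g (nat_lit 414) (.e (nat_lit 483363) (nat_lit 18) (.e (nat_lit 57688) (nat_lit 156) (.e (nat_lit 163907) (nat_lit 12) .nil))) (.g (nat_lit 0) (.e (nat_lit 357180) (nat_lit 0) .nil) .nil))) 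
(.lf (nat_lit 573409) (.g (nat_lit 1065) (.e (nat_lit 483365) (nat_lit 18) (.e (nat_lit 57854) (nat_lit 252) (.e (nat_lit 57373) (nat_lit 2) (.e (nat_lit 90160) (nat_lit 11) .nil)))) (.g (nat_lit 0) (.e (nat_lit 357846) (nat_lit 0) .nil) .nil)))))))) (.nd (nat_lit 5) (.nd (nat_lit 6) (.nd (nat_lit 7) (.nd (nat_lit 8) (.nd (nat_lit 9) 
(.lf (nat_lit 572433) (.g (nat_lit 1981) (.e (nat_lit 483339) (nat_lit 9) (.e (nat_lit 426232) (nat_lit 9) (.e (nat_lit 426435) (nat_lit 18) (.e (nat_lit 98335) (nat_lit 18) (.e (nat_lit 164327) (nat_lit 230) (.e (nat_lit 163941) (nat_lit 19) .nil)))))) (.g (nat_lit 1) (.e (nat_lit 354723) (nat_lit 0) .nil) .nil))) 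
(.lf (nat_lit 572945) (.g (nat_lit 2690) (.e (nat_lit 483363) (nat_lit 18) (.e (nat_lit 57847) (nat_lit 252) (.e (nat_lit 57365) (nat_lit 1) (.e (nat_lit 57854) (nat_lit 252) (.e (nat_lit 57389) (nat_lit 5) (.e (nat_lit 114723) (nat_lit 24) (.e (nat_lit 106507) (nat_lit 9) (.e (nat_lit 490) (nat_lit 39) .nil)))))))) (.g (nat_lit 1) (.e (nat_lit 357259) (nat_lit 0) .nil) .nil)))) (.nd (nat_lit 9) 
(.lf (nat_lit 572689) (.g (nat_lit 3819) (.e (nat_lit 483341) (nat_lit 9) (.e (nat_lit 426198) (nat_lit 9) (.e (nat_lit 426436) (nat_lit 18) (.e (nat_lit 98335) (nat_lit 18) (.e (nat_lit 164331) (nat_lit 230) (.e (nat_lit 163941) (nat_lit 19) .nil)))))) (.g (nat_lit 1) (.e (nat_lit 355355) (nat_lit 0) .nil) .nil))) 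
(.lf (nat_lit 573201) (.g (nat_lit 1692) (.e (nat_lit 483364) (nat_lit 18) (.e (nat_lit 57927) (nat_lit 282) (.e (nat_lit 163868) (nat_lit 2) (.e (nat_lit 196672) (nat_lit 15) (.e (nat_lit 89856) (nat_lit 18) .nil))))) (.g (nat_lit 1) (.e (nat_lit 357577) (nat_lit 0) .nil) .nil))))) (.nd (nat_lit 8) (.nd (nat_lit 9) 
(.lf (nat_lit 572561) (.g (nat_lit 418) (.e (nat_lit 483341) (nat_lit 9) (.e (nat_lit 426100) (nat_lit 1) (.e (nat_lit 164398) (nat_lit 256) .nil))) (.g (nat_lit 0) (.e (nat_lit 355048) (nat_lit 0) .nil) .nil))) 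
(.lf (nat_lit 573073) (.g (nat_lit 1996) (.e (nat_lit 483363) (nat_lit 18) (.e (nat_lit 57927) (nat_lit 282) (.e (nat_lit 163868) (nat_lit 2) (.e (nat_lit 196673) (nat_lit 15) (.e (nat_lit 89856) (nat_lit 18) .nil))))) (.g (nat_lit 1) (.e (nat_lit 357411) (nat_lit 0) .nil) .nil)))) (.nd (nat_lit 9) 
(.lf (nat_lit 572817) (.g (nat_lit 1293) (.e (nat_lit 483356) (nat_lit 17) (.e (nat_lit 6680) (nat_lit 357) (.e (nat_lit 2856) (nat_lit 184) (.e (nat_lit 426533) (nat_lit 28) .nil)))) (.g (nat_lit 0) (.e (nat_lit 357077) (nat_lit 0) .nil) .nil))) 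
(.lf (nat_lit 573329) (.g (nat_lit 3639) (.e (nat_lit 483365) (nat_lit 18) (.e (nat_lit 57847) (nat_lit 252) (.e (nat_lit 57375) (nat_lit 2) (.e (nat_lit 90160) (nat_lit 11) (.e (nat_lit 24623) (nat_lit 9) (.e (nat_lit 336456) (nat_lit 34) .nil)))))) (.g (nat_lit 1) (.e (nat_lit 357749) (nat_lit 0) .nil) .nil)))))) (.nd (nat_lit 7) (.nd (nat_lit 8) (.nd (nat_lit 9) 
(.lf (nat_lit 572497) (.g (nat_lit 2323) (.e (nat_lit 483340) (nat_lit 9) (.e (nat_lit 426108) (nat_lit 1) (.e (nat_lit 164332) (nat_lit 230) (.e (nat_lit 163867) (nat_lit 2) .nil)))) (.g (nat_lit 0) (.e (nat_lit 354865) (nat_lit 0) .nil) .nil))) 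
(.lf (nat_lit 573009) (.g (nat_lit 2671) (.e (nat_lit 483363) (nat_lit 18) (.e (nat_lit 57854) (nat_lit 252) (.e (nat_lit 57371) (nat_lit 2) (.e (nat_lit 90160) (nat_lit 11) (.e (nat_lit 24636) (nat_lit 9) (.e (nat_lit 336451) (nat_lit 34) .nil)))))) (.g (nat_lit 1) (.e (nat_lit 357339) (nat_lit 0) .nil) .nil)))) (.nd (nat_lit 9) 
(.lf (nat_lit 572753) (.g (nat_lit 444) (.e (nat_lit 491264) (nat_lit 16) (.e (nat_lit 491566) (nat_lit 12) (.e (nat_lit 392960) (nat_lit 24) (.e (nat_lit 516143) (nat_lit 9) (.e (nat_lit 426330) (nat_lit 13) .nil))))) (.g (nat_lit 0) (.e (nat_lit 356302) (nat_lit 0) .nil) .nil))) 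
(.lf (nat_lit 573265) (.g (nat_lit 2525) (.e (nat_lit 483364) (nat_lit 18) (.e (nat_lit 57931) (nat_lit 282) (.e (nat_lit 163874) (nat_lit 3) (.e (nat_lit 204867) (nat_lit 28) .nil)))) (.g (nat_lit 0) (.e (nat_lit 357652) (nat_lit 0) .nil) .nil))))) (.nd (nat_lit 8) (.nd (nat_lit 9) 
(.lf (nat_lit 572625) (.g (nat_lit 2718) (.e (nat_lit 483341) (nat_lit 9) (.e (nat_lit 426107) (nat_lit 1) (.e (nat_lit 164327) (nat_lit 230) (.e (nat_lit 163870) (nat_lit 2) (.e (nat_lit 196655) (nat_lit 11) (.e (nat_lit 16465) (nat_lit 13) .nil)))))) (.g (nat_lit 1) (.e (nat_lit 355183) (nat_lit 0) .nil) .nil))) 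
(.lf (nat_lit 573137) (.g (nat_lit 3096) (.e (nat_lit 483364) (nat_lit 18) (.e (nat_lit 57854) (nat_lit 252) (.e (nat_lit 57371) (nat_lit 2) (.e (nat_lit 90160) (nat_lit 11) (.e (nat_lit 24580) (nat_lit 0) (.e (nat_lit 6445) (nat_lit 343) (.e (nat_lit 492) (nat_lit 39) .nil))))))) (.g (nat_lit 1) (.e (nat_lit 357496) (nat_lit 0) .nil) .nil)))) (.nd (nat_lit 9) 
(.lf (nat_lit 572881) (.g (nat_lit 2581) (.e (nat_lit 483363) (nat_lit 18) (.e (nat_lit 57686) (nat_lit 156) (.e (nat_lit 163903) (nat_lit 12) (.e (nat_lit 426438) (nat_lit 18) (.e (nat_lit 98365) (nat_lit 26) (.e (nat_lit 426334) (nat_lit 13) .nil)))))) (.g (nat_lit 1) (.e (nat_lit 357157) (nat_lit 0) .nil) .nil))) 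
(.lf (nat_lit 573393) (.g (nat_lit 3715) (.e (nat_lit 483365) (nat_lit 18) (.e (nat_lit 57852) (nat_lit 252) (.e (nat_lit 57373) (nat_lit 2) (.e (nat_lit 90159) (nat_lit 11) (.e (nat_lit 24627) (nat_lit 9) (.e (nat_lit 336454) (nat_lit 34) .nil)))))) (.g (nat_lit 1) (.e (nat_lit 357826) (nat_lit 0) .nil) .nil))))))) (.nd (nat_lit 6) (.nd (nat_lit 7) (.nd (nat_lit 8) (.nd (nat_lit 9) 
(.lf (nat_lit 572465) (.g (nat_lit 1600) (.e (nat_lit 483340) (nat_lit 9) (.e (nat_lit 426098) (nat_lit 1) (.e (nat_lit 164325) (nat_lit 230) (.e (nat_lit 163871) (nat_lit 2) .nil)))) (.g (nat_lit 0) (.e (nat_lit 354808) (nat_lit 0) .nil) .nil))) 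
(.lf (nat_lit 572977) (.g (nat_lit 4064) (.e (nat_lit 483363) (nat_lit 18) (.e (nat_lit 57847) (nat_lit 252) (.e (nat_lit 57375) (nat_lit 2) (.e (nat_lit 90160) (nat_lit 11) (.e (nat_lit 24627) (nat_lit 9) (.e (nat_lit 336454) (nat_lit 34) .nil)))))) (.g (nat_lit 1) (.e (nat_lit 357304) (nat_lit 0) .nil) .nil)))) (.nd (nat_lit 9) 
(.lf (nat_lit 572721) (.g (nat_lit 2156) (.e (nat_lit 491264) (nat_lit 9) (.e (nat_lit 426320) (nat_lit 12) (.e (nat_lit 475179) (nat_lit 24) (.e (nat_lit 516117) (nat_lit 1) (.e (nat_lit 164330) (nat_lit 230) .nil))))) (.g (nat_lit 0) (.e (nat_lit 355816) (nat_lit 0) .nil) .nil))) 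
(.lf (nat_lit 573233) (.g (nat_lit 1675) (.e (nat_lit 483364) (nat_lit 18) (.e (nat_lit 57929) (nat_lit 282) (.e (nat_lit 163867) (nat_lit 2) (.e (nat_lit 196672) (nat_lit 15) (.e (nat_lit 89856) (nat_lit 18) .nil))))) (.g (nat_lit 0) (.e (nat_lit 357616) (nat_lit 0) .nil) .nil))))) (.nd (nat_lit 8) (.nd (nat_lit 9) 
(.lf (nat_lit 572593) (.g (nat_lit 3090) (.e (nat_lit 483341) (nat_lit 9) (.e (nat_lit 426105) (nat_lit 1) (.e (nat_lit 164332) (nat_lit 230) (.e (nat_lit 163869) (nat_lit 2) (.e (nat_lit 196653) (nat_lit 11) (.e (nat_lit 16463) (nat_lit 13) .nil)))))) (.g (nat_lit 1) (.e (nat_lit 355085) (nat_lit 0) .nil) .nil))) 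
(.lf (nat_lit 573105) (.g (nat_lit 2143) (.e (nat_lit 483363) (nat_lit 18) (.e (nat_lit 57930) (nat_lit 282) (.e (nat_lit 163867) (nat_lit 2) (.e (nat_lit 196674) (nat_lit 15) (.e (nat_lit 89856) (nat_lit 18) .nil))))) (.g (nat_lit 1) (.e (nat_lit 357452) (nat_lit 0) .nil) .nil)))) (.nd (nat_lit 9) 
(.lf (nat_lit 572849) (.g (nat_lit 1376) (.e (nat_lit 483362) (nat_lit 18) (.e (nat_lit 57925) (nat_lit 282) (.e (nat_lit 163871) (nat_lit 2) (.e (nat_lit 196672) (nat_lit 15) (.e (nat_lit 89856) (nat_lit 18) .nil))))) (.g (nat_lit 1) (.e (nat_lit 357117) (nat_lit 0) .nil) .nil))) 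
(.lf (nat_lit 573361) (.g (nat_lit 2090) (.e (nat_lit 483365) (nat_lit 18) (.e (nat_lit 57849) (nat_lit 252) (.e (nat_lit 57365) (nat_lit 1) (.e (nat_lit 57854) (nat_lit 252) (.e (nat_lit 57389) (nat_lit 5) (.e (nat_lit 114723) (nat_lit 24) (.e (nat_lit 106509) (nat_lit 9) (.e (nat_lit 492) (nat_lit 39) .nil)))))))) (.g (nat_lit 1) (.e (nat_lit 357784) (nat_lit 0) .nil) .nil)))))) 
(.nd (nat_lit 7) (.nd (nat_lit 8) (.nd (nat_lit 9) 
(.lf (nat_lit 572529) (.g (nat_lit 1829) (.e (nat_lit 483341) (nat_lit 9) (.e (nat_lit 426098) (nat_lit 1) (.e (nat_lit 164398) (nat_lit 256) (.e (nat_lit 57378) (nat_lit 3) .nil)))) (.g (nat_lit 0) (.e (nat_lit 354981) (nat_lit 0) .nil) .nil))) 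
(.lf (nat_lit 573041) (.g (nat_lit 1754) (.e (nat_lit 483363) (nat_lit 18) (.e (nat_lit 57926) (nat_lit 282) (.e (nat_lit 163871) (nat_lit 2) (.e (nat_lit 196673) (nat_lit 15) (.e (nat_lit 89856) (nat_lit 18) .nil))))) (.g (nat_lit 0) (.e (nat_lit 357378) (nat_lit 0) .nil) .nil)))) (.nd (nat_lit 9) 
(.lf (nat_lit 572785) (.g (nat_lit 459) (.e (nat_lit 483346) (nat_lit 17) (.e (nat_lit 6722) (nat_lit 362) (.e (nat_lit 180224) (nat_lit 0) .nil))) (.g (nat_lit 0) (.e (nat_lit 356846) (nat_lit 0) .nil) .nil))) 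
(.lf (nat_lit 573297) (.g (nat_lit 2786) (.e (nat_lit 483365) (nat_lit 18) (.e (nat_lit 57846) (nat_lit 252) (.e (nat_lit 57373) (nat_lit 2) (.e (nat_lit 90160) (nat_lit 11) (.e (nat_lit 24630) (nat_lit 9) .nil))))) (.g (nat_lit 0) (.e (nat_lit 357708) (nat_lit 0) .nil) .nil))))) (.nd (nat_lit 8) (.nd (nat_lit 9) 
(.lf (nat_lit 572657) (.g (nat_lit 1795) (.e (nat_lit 483341) (nat_lit 9) (.e (nat_lit 426108) (nat_lit 1) (.e (nat_lit 164332) (nat_lit 230) (.e (nat_lit 163847) (nat_lit 0) .nil)))) (.g (nat_lit 0) (.e (nat_lit 355266) (nat_lit 0) .nil) .nil))) 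
(.lf (nat_lit 573169) (.g (nat_lit 3446) (.e (nat_lit 483364) (nat_lit 18) (.e (nat_lit 57926) (nat_lit 282) (.e (nat_lit 163868) (nat_lit 2) (.e (nat_lit 196681) (nat_lit 17) (.e (nat_lit 131109) (nat_lit 9) (.e (nat_lit 336454) (nat_lit 34) .nil)))))) (.g (nat_lit 1) (.e (nat_lit 357536) (nat_lit 0) .nil) .nil)))) (.nd (nat_lit 9) 
(.lf (nat_lit 572913) (.g (nat_lit 1563) (.e (nat_lit 483363) (nat_lit 18) (.e (nat_lit 57691) (nat_lit 156) (.e (nat_lit 163907) (nat_lit 12) (.e (nat_lit 425986) (nat_lit 0) .nil)))) (.g (nat_lit 0) (.e (nat_lit 357212) (nat_lit 0) .nil) .nil))) 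
(.lf (nat_lit 573425) (.g (nat_lit 2205) (.e (nat_lit 483365) (nat_lit 18) (.e (nat_lit 57929) (nat_lit 282) (.e (nat_lit 163873) (nat_lit 3) (.e (nat_lit 204865) (nat_lit 28) (.e (nat_lit 360192) (nat_lit 18) .nil))))) (.g (nat_lit 1) (.e (nat_lit 357867) (nat_lit 0) .nil) .nil))))))))) (.nd (nat_lit 4) (.nd (nat_lit 5) (.nd (nat_lit 6) (.nd (nat_lit 7) (.nd (nat_lit 8) (.nd (nat_lit 9) 
(.lf (nat_lit 572425) (.g (nat_lit 3018) (.e (nat_lit 483339) (nat_lit 9) (.e (nat_lit 426110) (nat_lit 1) (.e (nat_lit 164327) (nat_lit 230) (.e (nat_lit 163868) (nat_lit 2) (.e (nat_lit 196656) (nat_lit 11) (.e (nat_lit 16466) (nat_lit 13) .nil)))))) (.g (nat_lit 1) (.e (nat_lit 354698) (nat_lit 0) .nil) .nil))) 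
(.lf (nat_lit 572937) (.g (nat_lit 1581) (.e (nat_lit 483363) (nat_lit 18) (.e (nat_lit 57847) (nat_lit 252) (.e (nat_lit 57365) (nat_lit 1) (.e (nat_lit 57851) (nat_lit 252) (.e (nat_lit 57389) (nat_lit 5) .nil))))) (.g (nat_lit 0) (.e (nat_lit 357246) (nat_lit 0) .nil) .nil)))) (.nd (nat_lit 9) 
(.lf (nat_lit 572681) (.g (nat_lit 3794) (.e (nat_lit 483341) (nat_lit 9) (.e (nat_lit 426196) (nat_lit 9) (.e (nat_lit 426436) (nat_lit 18) (.e (nat_lit 98335) (nat_lit 18) (.e (nat_lit 164332) (nat_lit 230) (.e (nat_lit 163943) (nat_lit 19) .nil)))))) (.g (nat_lit 1) (.e (nat_lit 355334) (nat_lit 0) .nil) .nil))) 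
(.lf (nat_lit 573193) (.g (nat_lit 1901) (.e (nat_lit 483364) (nat_lit 18) (.e (nat_lit 57926) (nat_lit 282) (.e (nat_lit 163875) (nat_lit 3) (.e (nat_lit 204877) (nat_lit 31) (.e (nat_lit 384768) (nat_lit 18) .nil))))) (.g (nat_lit 1) (.e (nat_lit 357568) (nat_lit 0) .nil) .nil))))) (.nd (nat_lit 8) (.nd (nat_lit 9) 
(.lf (nat_lit 572553) (.g (nat_lit 3011) (.e (nat_lit 483341) (nat_lit 9) (.e (nat_lit 426100) (nat_lit 1) (.e (nat_lit 164330) (nat_lit 230) (.e (nat_lit 163869) (nat_lit 2) (.e (nat_lit 196656) (nat_lit 11) (.e (nat_lit 16463) (nat_lit 13) .nil)))))) (.g (nat_lit 1) (.e (nat_lit 355022) (nat_lit 0) .nil) .nil))) 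
(.lf (nat_lit 573065) (.g (nat_lit 535) (.e (nat_lit 483363) (nat_lit 18) (.e (nat_lit 57927) (nat_lit 282) (.e (nat_lit 163865) (nat_lit 2) .nil))) (.g (nat_lit 0) (.e (nat_lit 357403) (nat_lit 0) .nil) .nil)))) (.nd (nat_lit 9) 
(.lf (nat_lit 572809) (.g (nat_lit 950) (.e (nat_lit 483350) (nat_lit 17) (.e (nat_lit 6677) (nat_lit 357) (.e (nat_lit 2856) (nat_lit 184) (.e (nat_lit 426533) (nat_lit 28) .nil)))) (.g (nat_lit 0) (.e (nat_lit 357056) (nat_lit 0) .nil) .nil))) 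
(.lf (nat_lit 573321) (.g (nat_lit 1608) (.e (nat_lit 483365) (nat_lit 18) (.e (nat_lit 57847) (nat_lit 252) (.e (nat_lit 57372) (nat_lit 2) (.e (nat_lit 90156) (nat_lit 11) .nil)))) (.g (nat_lit 0) (.e (nat_lit 357734) (nat_lit 0) .nil) .nil)))))) (.nd (nat_lit 7) (.nd (nat_lit 8) (.nd (nat_lit 9) 
(.lf (nat_lit 572489) (.g (nat_lit 3071) (.e (nat_lit 483340) (nat_lit 9) (.e (nat_lit 426107) (nat_lit 1) (.e (nat_lit 164326) (nat_lit 230) (.e (nat_lit 163868) (nat_lit 2) (.e (nat_lit 196655) (nat_lit 11) (.e (nat_lit 16465) (nat_lit 13) .nil)))))) (.g (nat_lit 1) (.e (nat_lit 354843) (nat_lit 0) .nil) .nil))) 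
(.lf (nat_lit 573001) (.g (nat_lit 1433) (.e (nat_lit 483363) (nat_lit 18) (.e (nat_lit 57849) (nat_lit 252) (.e (nat_lit 57379) (nat_lit 3) (.e (nat_lit 106240) (nat_lit 11) .nil)))) (.g (nat_lit 0) (.e (nat_lit 357330) (nat_lit 0) .nil) .nil)))) (.nd (nat_lit 9) 
(.lf (nat_lit 572745) (.g (nat_lit 1828) (.e (nat_lit 491264) (nat_lit 15) (.e (nat_lit 475199) (nat_lit 40) (.e (nat_lit 704590) (nat_lit 3) (.e (nat_lit 163950) (nat_lit 21) .nil)))) (.g (nat_lit 0) (.e (nat_lit 356267) (nat_lit 0) .nil) .nil))) 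
(.lf (nat_lit 573257) (.g (nat_lit 1591) (.e (nat_lit 483364) (nat_lit 18) (.e (nat_lit 57931) (nat_lit 282) (.e (nat_lit 163873) (nat_lit 3) (.e (nat_lit 204865) (nat_lit 28) .nil)))) (.g (nat_lit 0) (.e (nat_lit 357644) (nat_lit 0) .nil) .nil))))) (.nd (nat_lit 8) (.nd (nat_lit 9) 
(.lf (nat_lit 572617) (.g (nat_lit 3145) (.e (nat_lit 483341) (nat_lit 9) (.e (nat_lit 426107) (nat_lit 1) (.e (nat_lit 164326) (nat_lit 230) (.e (nat_lit 163870) (nat_lit 2) (.e (nat_lit 196654) (nat_lit 11) (.e (nat_lit 16466) (nat_lit 13) .nil)))))) (.g (nat_lit 1) (.e (nat_lit 355165) (nat_lit 0) .nil) .nil))) 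
(.lf (nat_lit 573129) (.g (nat_lit 3050) (.e (nat_lit 483364) (nat_lit 18) (.e (nat_lit 57852) (nat_lit 252) (.e (nat_lit 57371) (nat_lit 2) (.e (nat_lit 90160) (nat_lit 11) (.e (nat_lit 24630) (nat_lit 9) (.e (nat_lit 336456) (nat_lit 34) .nil)))))) (.g (nat_lit 1) (.e (nat_lit 357484) (nat_lit 0) .nil) .nil)))) (.nd (nat_lit 9) 
(.lf (nat_lit 572873) (.g (nat_lit 1449) (.e (nat_lit 483362) (nat_lit 18) (.e (nat_lit 57931) (nat_lit 282) (.e (nat_lit 163869) (nat_lit 2) (.e (nat_lit 196674) (nat_lit 15) .nil)))) (.g (nat_lit 0) (.e (nat_lit 357145) (nat_lit 0) .nil) .nil))) 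
(.lf (nat_lit 573385) (.g (nat_lit 1219) (.e (nat_lit 483365) (nat_lit 18) (.e (nat_lit 57851) (nat_lit 252) (.e (nat_lit 57371) (nat_lit 2) (.e (nat_lit 90121) (nat_lit 9) .nil)))) (.g (nat_lit 0) (.e (nat_lit 357815) (nat_lit 0) .nil) .nil))))))) (.nd (nat_lit 6) (.nd (nat_lit 7) (.nd (nat_lit 8) (.nd (nat_lit 9) 
(.lf (nat_lit 572457) (.g (nat_lit 2016) (.e (nat_lit 483339) (nat_lit 9) (.e (nat_lit 426262) (nat_lit 9) (.e (nat_lit 426435) (nat_lit 18) (.e (nat_lit 98335) (nat_lit 18) (.e (nat_lit 164327) (nat_lit 230) (.e (nat_lit 163944) (nat_lit 19) .nil)))))) (.g (nat_lit 1) (.e (nat_lit 354796) (nat_lit 0) .nil) .nil))) 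
(.lf (nat_lit 572969) (.g (nat_lit 2366) (.e (nat_lit 483363) (nat_lit 18) (.e (nat_lit 57847) (nat_lit 252) (.e (nat_lit 57373) (nat_lit 2) (.e (nat_lit 90160) (nat_lit 11) (.e (nat_lit 24624) (nat_lit 9) .nil))))) (.g (nat_lit 0) (.e (nat_lit 357292) (nat_lit 0) .nil) .nil)))) (.nd (nat_lit 9) 
(.lf (nat_lit 572713) (.g (nat_lit 2560) (.e (nat_lit 491264) (nat_lit 9) (.e (nat_lit 426100) (nat_lit 1) (.e (nat_lit 164332) (nat_lit 230) (.e (nat_lit 163869) (nat_lit 2) (.e (nat_lit 196655) (nat_lit 11) .nil))))) (.g (nat_lit 0) (.e (nat_lit 355764) (nat_lit 0) .nil) .nil))) 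
(.lf (nat_lit 573225) (.g (nat_lit 2105) (.e (nat_lit 483364) (nat_lit 18) (.e (nat_lit 57927) (nat_lit 282) (.e (nat_lit 163875) (nat_lit 3) (.e (nat_lit 204866) (nat_lit 28) (.e (nat_lit 360192) (nat_lit 18) .nil))))) (.g (nat_lit 1) (.e (nat_lit 357607) (nat_lit 0) .nil) .nil))))) (.nd (nat_lit 8) (.nd (nat_lit 9) 
(.lf (nat_lit 572585) (.g (nat_lit 3365) (.e (nat_lit 483341) (nat_lit 9) (.e (nat_lit 426100) (nat_lit 1) (.e (nat_lit 164403) (nat_lit 256) (.e (nat_lit 57373) (nat_lit 2) (.e (nat_lit 90170) (nat_lit 13) (.e (nat_lit 172121) (nat_lit 13) .nil)))))) (.g (nat_lit 1) (.e (nat_lit 355072) (nat_lit 0) .nil) .nil))) 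
(.lf (nat_lit 573097) (.g (nat_lit 1545) (.e (nat_lit 483363) (nat_lit 18) (.e (nat_lit 57927) (nat_lit 282) (.e (nat_lit 163875) (nat_lit 3) (.e (nat_lit 204878) (nat_lit 31) .nil)))) (.g (nat_lit 0) (.e (nat_lit 357444) (nat_lit 0) .nil) .nil)))) (.nd (nat_lit 9) 
(.lf (nat_lit 572841) (.g (nat_lit 1662) (.e (nat_lit 483362) (nat_lit 18) (.e (nat_lit 57847) (nat_lit 252) (.e (nat_lit 57372) (nat_lit 2) (.e (nat_lit 90158) (nat_lit 11) .nil)))) (.g (nat_lit 0) (.e (nat_lit 357109) (nat_lit 0) .nil) .nil))) 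
(.lf (nat_lit 573353) (.g (nat_lit 2006) (.e (nat_lit 483365) (nat_lit 18) (.e (nat_lit 57848) (nat_lit 252) (.e (nat_lit 57375) (nat_lit 2) (.e (nat_lit 90121) (nat_lit 9) (.e (nat_lit 312) (nat_lit 23) .nil))))) (.g (nat_lit 0) (.e (nat_lit 357775) (nat_lit 0) .nil) .nil)))))) (.nd (nat_lit 7) (.nd (nat_lit 8) (.nd (nat_lit 9) 
(.lf (nat_lit 572521) (.g (nat_lit 2169) (.e (nat_lit 483341) (nat_lit 9) (.e (nat_lit 426098) (nat_lit 1) (.e (nat_lit 164330) (nat_lit 230) (.e (nat_lit 163869) (nat_lit 2) .nil)))) (.g (nat_lit 0) (.e (nat_lit 354945) (nat_lit 0) .nil) .nil))) 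
(.lf (nat_lit 573033) (.g (nat_lit 2572) (.e (nat_lit 483363) (nat_lit 18) (.e (nat_lit 57926) (nat_lit 282) (.e (nat_lit 163867) (nat_lit 2) (.e (nat_lit 196672) (nat_lit 15) (.e (nat_lit 89856) (nat_lit 18) .nil))))) (.g (nat_lit 1) (.e (nat_lit 357365) (nat_lit 0) .nil) .nil)))) (.nd (nat_lit 9) 
(.lf (nat_lit 572777) (.g (nat_lit 2649) (.e (nat_lit 483345) (nat_lit 17) (.e (nat_lit 6720) (nat_lit 361) (.e (nat_lit 172150) (nat_lit 27) (.e (nat_lit 336232) (nat_lit 14) (.e (nat_lit 401456) (nat_lit 13) .nil))))) (.g (nat_lit 1) (.e (nat_lit 356539) (nat_lit 0) .nil) .nil))) 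
(.lf (nat_lit 573289) (.g (nat_lit 1202) (.e (nat_lit 483365) (nat_lit 18) (.e (nat_lit 57704) (nat_lit 164) (.e (nat_lit 2610) (nat_lit 163) (.e (nat_lit 163849) (nat_lit 0) .nil)))) (.g (nat_lit 0) (.e (nat_lit 357695) (nat_lit 0) .nil) .nil))))) (.nd (nat_lit 8) (.nd (nat_lit 9) 
(.lf (nat_lit 572649) (.g (nat_lit 1947) (.e (nat_lit 483341) (nat_lit 9) (.e (nat_lit 426108) (nat_lit 1) (.e (nat_lit 164330) (nat_lit 230) (.e (nat_lit 163865) (nat_lit 2) .nil)))) (.g (nat_lit 0) (.e (nat_lit 355235) (nat_lit 0) .nil) .nil))) 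
(.lf (nat_lit 573161) (.g (nat_lit 486) (.e (nat_lit 483364) (nat_lit 18) (.e (nat_lit 57926) (nat_lit 282) (.e (nat_lit 163848) (nat_lit 0) .nil))) (.g (nat_lit 0) (.e (nat_lit 357527) (nat_lit 0) .nil) .nil)))) (.nd (nat_lit 9) 
(.lf (nat_lit 572905) (.g (nat_lit 445) (.e (nat_lit 483363) (nat_lit 18) (.e (nat_lit 57688) (nat_lit 156) (.e (nat_lit 163916) (nat_lit 13) .nil))) (.g (nat_lit 0) (.e (nat_lit 357191) (nat_lit 0) .nil) .nil))) 
(.lf (nat_lit 573417) (.g (nat_lit 1930) (.e (nat_lit 483365) (nat_lit 18) (.e (nat_lit 57924) (nat_lit 282) (.e (nat_lit 163871) (nat_lit 2) (.e (nat_lit 196672) (nat_lit 15) (.e (nat_lit 89856) (nat_lit 18) .nil))))) (.g (nat_lit 1) (.e (nat_lit 357858) (nat_lit 0) .nil) .nil)))))))) (.nd (nat_lit 5) (.nd (nat_lit 6) (.nd (nat_lit 7) (.nd (nat_lit 8) (.nd (nat_lit 9) 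
(.lf (nat_lit 572441) (.g (nat_lit 2412) (.e (nat_lit 483339) (nat_lit 9) (.e (nat_lit 426260) (nat_lit 9) (.e (nat_lit 426435) (nat_lit 18) (.e (nat_lit 98333) (nat_lit 18) (.e (nat_lit 164325) (nat_lit 230) (.e (nat_lit 163941) (nat_lit 19) .nil)))))) (.g (nat_lit 1) (.e (nat_lit 354760) (nat_lit 0) .nil) .nil))) 
(.lf (nat_lit 572953) (.g (nat_lit 3143) (.e (nat_lit 483363) (nat_lit 18) (.e (nat_lit 57847) (nat_lit 252) (.e (nat_lit 57370) (nat_lit 2) (.e (nat_lit 90158) (nat_lit 11) (.e (nat_lit 24628) (nat_lit 9) (.e (nat_lit 336456) (nat_lit 34) .nil)))))) (.g (nat_lit 1) (.e (nat_lit 357271) (nat_lit 0) .nil) .nil)))) (.nd (nat_lit 9) 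
(.lf (nat_lit 572697) (.g (nat_lit 1840) (.e (nat_lit 483341) (nat_lit 9) (.e (nat_lit 426213) (nat_lit 9) (.e (nat_lit 426125) (nat_lit 2) (.e (nat_lit 196615) (nat_lit 0) .nil)))) (.g (nat_lit 0) (.e (nat_lit 355517) (nat_lit 0) .nil) .nil))) 
(.lf (nat_lit 573209) (.g (nat_lit 1825) (.e (nat_lit 483364) (nat_lit 18) (.e (nat_lit 57927) (nat_lit 282) (.e (nat_lit 163871) (nat_lit 2) (.e (nat_lit 196674) (nat_lit 15) (.e (nat_lit 89856) (nat_lit 18) .nil))))) (.g (nat_lit 1) (.e (nat_lit 357590) (nat_lit 0) .nil) .nil))))) (.nd (nat_lit 8) (.nd (nat_lit 9) 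
(.lf (nat_lit 572569) (.g (nat_lit 2479) (.e (nat_lit 483341) (nat_lit 9) (.e (nat_lit 426100) (nat_lit 1) (.e (nat_lit 164398) (nat_lit 256) (.e (nat_lit 57378) (nat_lit 3) (.e (nat_lit 98363) (nat_lit 26) (.e (nat_lit 426321) (nat_lit 13) .nil)))))) (.g (nat_lit 1) (.e (nat_lit 355056) (nat_lit 0) .nil) .nil))) 
(.lf (nat_lit 573081) (.g (nat_lit 2692) (.e (nat_lit 483363) (nat_lit 18) (.e (nat_lit 57927) (nat_lit 282) (.e (nat_lit 163873) (nat_lit 3) (.e (nat_lit 204866) (nat_lit 28) (.e (nat_lit 360192) (nat_lit 18) .nil))))) (.g (nat_lit 1) (.e (nat_lit 357427) (nat_lit 0) .nil) .nil)))) (.nd (nat_lit 9) 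
(.lf (nat_lit 572825) (.g (nat_lit 1897) (.e (nat_lit 483362) (nat_lit 18) (.e (nat_lit 57688) (nat_lit 156) (.e (nat_lit 163902) (nat_lit 12) (.e (nat_lit 426428) (nat_lit 17) (.e (nat_lit 90170) (nat_lit 13) .nil))))) (.g (nat_lit 0) (.e (nat_lit 357093) (nat_lit 0) .nil) .nil))) 
(.lf (nat_lit 573337) (.g (nat_lit 1378) (.e (nat_lit 483365) (nat_lit 18) (.e (nat_lit 57848) (nat_lit 252) (.e (nat_lit 57372) (nat_lit 2) (.e (nat_lit 90121) (nat_lit 9) (.e (nat_lit 309) (nat_lit 23) .nil))))) (.g (nat_lit 0) (.e (nat_lit 357757) (nat_lit 0) .nil) .nil)))))) (.nd (nat_lit 7) (.nd (nat_lit 8) (.nd (nat_lit 9) 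
(.lf (nat_lit 572505) (.g (nat_lit 3706) (.e (nat_lit 483340) (nat_lit 9) (.e (nat_lit 426187) (nat_lit 9) (.e (nat_lit 426436) (nat_lit 18) (.e (nat_lit 98335) (nat_lit 18) (.e (nat_lit 164330) (nat_lit 230) (.e (nat_lit 163943) (nat_lit 19) .nil)))))) (.g (nat_lit 1) (.e (nat_lit 354875) (nat_lit 0) .nil) .nil))) 
(.lf (nat_lit 573017) (.g (nat_lit 1623) (.e (nat_lit 483363) (nat_lit 18) (.e (nat_lit 57854) (nat_lit 252) (.e (nat_lit 57373) (nat_lit 2) (.e (nat_lit 90157) (nat_lit 11) .nil)))) (.g (nat_lit 0) (.e (nat_lit 357347) (nat_lit 0) .nil) .nil)))) (.nd (nat_lit 9) 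
(.lf (nat_lit 572761) (.g (nat_lit 655) (.e (nat_lit 483342) (nat_lit 17) (.e (nat_lit 6722) (nat_lit 362) (.e (nat_lit 180270) (nat_lit 26) (.e (nat_lit 704741) (nat_lit 11) .nil)))) (.g (nat_lit 0) (.e (nat_lit 356314) (nat_lit 0) .nil) .nil))) 
(.lf (nat_lit 573273) (.g (nat_lit 1999) (.e (nat_lit 483365) (nat_lit 18) (.e (nat_lit 57687) (nat_lit 156) (.e (nat_lit 163908) (nat_lit 12) (.e (nat_lit 426412) (nat_lit 15) (.e (nat_lit 1800) (nat_lit 119) .nil))))) (.g (nat_lit 0) (.e (nat_lit 357663) (nat_lit 0) .nil) .nil))))) (.nd (nat_lit 8) (.nd (nat_lit 9) 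
(.lf (nat_lit 572633) (.g (nat_lit 4362) (.e (nat_lit 483341) (nat_lit 9) (.e (nat_lit 426107) (nat_lit 1) (.e (nat_lit 164332) (nat_lit 230) (.e (nat_lit 163869) (nat_lit 2) (.e (nat_lit 196656) (nat_lit 11) (.e (nat_lit 16466) (nat_lit 13) .nil)))))) (.g (nat_lit 1) (.e (nat_lit 355208) (nat_lit 0) .nil) .nil))) 
(.lf (nat_lit 573145) (.g (nat_lit 2328) (.e (nat_lit 483364) (nat_lit 18) (.e (nat_lit 57854) (nat_lit 252) (.e (nat_lit 57373) (nat_lit 2) (.e (nat_lit 90160) (nat_lit 11) (.e (nat_lit 24636) (nat_lit 9) (.e (nat_lit 336451) (nat_lit 34) .nil)))))) (.g (nat_lit 1) (.e (nat_lit 357509) (nat_lit 0) .nil) .nil)))) (.nd (nat_lit 9) 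
(.lf (nat_lit 572889) (.g (nat_lit 2354) (.e (nat_lit 483363) (nat_lit 18) (.e (nat_lit 57688) (nat_lit 156) (.e (nat_lit 163903) (nat_lit 12) (.e (nat_lit 426438) (nat_lit 18) (.e (nat_lit 98362) (nat_lit 26) (.e (nat_lit 426329) (nat_lit 13) .nil)))))) (.g (nat_lit 1) (.e (nat_lit 357172) (nat_lit 0) .nil) .nil))) 
(.lf (nat_lit 573401) (.g (nat_lit 2563) (.e (nat_lit 483365) (nat_lit 18) (.e (nat_lit 57853) (nat_lit 252) (.e (nat_lit 57373) (nat_lit 2) (.e (nat_lit 90158) (nat_lit 11) (.e (nat_lit 24628) (nat_lit 9) .nil))))) (.g (nat_lit 0) (.e (nat_lit 357834) (nat_lit 0) .nil) .nil))))))) (.nd (nat_lit 6) (.nd (nat_lit 7) (.nd (nat_lit 8) (.nd (nat_lit 9) 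
(.lf (nat_lit 572473) (.g (nat_lit 1599) (.e (nat_lit 483340) (nat_lit 9) (.e (nat_lit 426100) (nat_lit 1) (.e (nat_lit 164398) (nat_lit 256) (.e (nat_lit 57372) (nat_lit 2) .nil)))) (.g (nat_lit 0) (.e (nat_lit 354823) (nat_lit 0) .nil) .nil))) 
(.lf (nat_lit 572985) (.g (nat_lit 369) (.e (nat_lit 483363) (nat_lit 18) (.e (nat_lit 57847) (nat_lit 252) (.e (nat_lit 57379) (nat_lit 3) .nil))) (.g (nat_lit 0) (.e (nat_lit 357312) (nat_lit 0) .nil) .nil)))) (.nd (nat_lit 9) 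
(.lf (nat_lit 572729) (.g (nat_lit 1849) (.e (nat_lit 491264) (nat_lit 10) (.e (nat_lit 434275) (nat_lit 39) (.e (nat_lit 663580) (nat_lit 9) (.e (nat_lit 2684) (nat_lit 168) (.e (nat_lit 204883) (nat_lit 33) .nil))))) (.g (nat_lit 0) (.e (nat_lit 355844) (nat_lit 0) .nil) .nil))) 
(.lf (nat_lit 573241) (.g (nat_lit 2054) (.e (nat_lit 483364) (nat_lit 18) (.e (nat_lit 57929) (nat_lit 282) (.e (nat_lit 163874) (nat_lit 3) (.e (nat_lit 204867) (nat_lit 28) (.e (nat_lit 360192) (nat_lit 18) .nil))))) (.g (nat_lit 0) (.e (nat_lit 357626) (nat_lit 0) .nil) .nil))))) (.nd (nat_lit 8) (.nd (nat_lit 9) 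
(.lf (nat_lit 572601) (.g (nat_lit 2597) (.e (nat_lit 483341) (nat_lit 9) (.e (nat_lit 426106) (nat_lit 1) (.e (nat_lit 164330) (nat_lit 230) (.e (nat_lit 163869) (nat_lit 2) (.e (nat_lit 196654) (nat_lit 11) (.e (nat_lit 16466) (nat_lit 13) .nil)))))) (.g (nat_lit 1) (.e (nat_lit 355110) (nat_lit 0) .nil) .nil))) 
(.lf (nat_lit 573113) (.g (nat_lit 2578) (.e (nat_lit 483363) (nat_lit 18) (.e (nat_lit 57931) (nat_lit 282) (.e (nat_lit 163869) (nat_lit 2) (.e (nat_lit 196672) (nat_lit 15) (.e (nat_lit 89856) (nat_lit 18) .nil))))) (.g (nat_lit 1) (.e (nat_lit 357463) (nat_lit 0) .nil) .nil)))) (.nd (nat_lit 9) 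
(.lf (nat_lit 572857) (.g (nat_lit 1022) (.e (nat_lit 483362) (nat_lit 18) (.e (nat_lit 57926) (nat_lit 282) (.e (nat_lit 163874) (nat_lit 3) (.e (nat_lit 204865) (nat_lit 28) .nil)))) (.g (nat_lit 0) (.e (nat_lit 357127) (nat_lit 0) .nil) .nil))) 
(.lf (nat_lit 573369) (.g (nat_lit 1347) (.e (nat_lit 483365) (nat_lit 18) (.e (nat_lit 57849) (nat_lit 252) (.e (nat_lit 57373) (nat_lit 2) (.e (nat_lit 90160) (nat_lit 11) .nil)))) (.g (nat_lit 0) (.e (nat_lit 357798) (nat_lit 0) .nil) .nil)))))) (.nd (nat_lit 7) (.nd (nat_lit 8) (.nd (nat_lit 9) 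
(.lf (nat_lit 572537) (.g (nat_lit 996) (.e (nat_lit 483341) (nat_lit 9) (.e (nat_lit 426098) (nat_lit 1) (.e (nat_lit 164402) (nat_lit 256) .nil))) (.g (nat_lit 0) (.e (nat_lit 354990) (nat_lit 0) .nil) .nil))) 
(.lf (nat_lit 573049) (.g (nat_lit 2017) (.e (nat_lit 483363) (nat_lit 18) (.e (nat_lit 57926) (nat_lit 282) (.e (nat_lit 163874) (nat_lit 3) (.e (nat_lit 204867) (nat_lit 28) .nil)))) (.g (nat_lit 0) (.e (nat_lit 357387) (nat_lit 0) .nil) .nil)))) (.nd (nat_lit 9) 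
(.lf (nat_lit 572793) (.g (nat_lit 2192) (.e (nat_lit 483350) (nat_lit 17) (.e (nat_lit 6113) (nat_lit 332) (.e (nat_lit 1374) (nat_lit 104) (.e (nat_lit 303106) (nat_lit 0) .nil)))) (.g (nat_lit 0) (.e (nat_lit 357024) (nat_lit 0) .nil) .nil))) 
(.lf (nat_lit 573305) (.g (nat_lit 653) (.e (nat_lit 483365) (nat_lit 18) (.e (nat_lit 57847) (nat_lit 252) (.e (nat_lit 57345) (nat_lit 0) .nil))) (.g (nat_lit 0) (.e (nat_lit 357716) (nat_lit 0) .nil) .nil))))) (.nd (nat_lit 8) (.nd (nat_lit 9) 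
(.lf (nat_lit 572665) (.g (nat_lit 2073) (.e (nat_lit 483341) (nat_lit 9) (.e (nat_lit 426108) (nat_lit 1) (.e (nat_lit 164401) (nat_lit 256) (.e (nat_lit 57378) (nat_lit 3) (.e (nat_lit 98365) (nat_lit 26) .nil))))) (.g (nat_lit 0) (.e (nat_lit 355289) (nat_lit 0) .nil) .nil))) 
(.lf (nat_lit 573177) (.g (nat_lit 487) (.e (nat_lit 483364) (nat_lit 18) (.e (nat_lit 57926) (nat_lit 282) (.e (nat_lit 163872) (nat_lit 3) .nil))) (.g (nat_lit 0) (.e (nat_lit 357551) (nat_lit 0) .nil) .nil)))) (.nd (nat_lit 9) 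
(.lf (nat_lit 572921) (.g (nat_lit 3478) (.e (nat_lit 483363) (nat_lit 18) (.e (nat_lit 57691) (nat_lit 156) (.e (nat_lit 163907) (nat_lit 12) (.e (nat_lit 426438) (nat_lit 18) (.e (nat_lit 98365) (nat_lit 26) (.e (nat_lit 426325) (nat_lit 13) .nil)))))) (.g (nat_lit 1) (.e (nat_lit 357223) (nat_lit 0) .nil) .nil))) 
(.lf (nat_lit 573433) (.g (nat_lit 2504) (.e (nat_lit 483365) (nat_lit 18) (.e (nat_lit 57930) (nat_lit 282) (.e (nat_lit 163867) (nat_lit 2) (.e (nat_lit 196672) (nat_lit 15) (.e (nat_lit 89856) (nat_lit 18) .nil))))) (.g (nat_lit 1) (.e (nat_lit 357875) (nat_lit 0) .nil) .nil)))))))))) 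
(.nd (nat_lit 3) (.nd (nat_lit 4) (.nd (nat_lit 5) (.nd (nat_lit 6) (.nd (nat_lit 7) 
(.nd (nat_lit 8) (.nd (nat_lit 9) 
(.lf (nat_lit 572421) (.g (nat_lit 2541) (.e (nat_lit 483337) (nat_lit 9) (.e (nat_lit 426316) (nat_lit 12) (.e (nat_lit 475179) (nat_lit 24) (.e (nat_lit 516117) (nat_lit 1) (.e (nat_lit 164330) (nat_lit 230) (.e (nat_lit 163941) (nat_lit 19) .nil)))))) (.g (nat_lit 1) (.e (nat_lit 354677) (nat_lit 0) .nil) .nil))) 
(.lf (nat_lit 572933) (.g (nat_lit 1449) (.e (nat_lit 483363) (nat_lit 18) (.e (nat_lit 57692) (nat_lit 156) (.e (nat_lit 163913) (nat_lit 12) (.e (nat_lit 426433) (nat_lit 18) .nil)))) (.g (nat_lit 0) (.e (nat_lit 357241) (nat_lit 0) .nil) .nil)))) (.nd (nat_lit 9) 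
(.lf (nat_lit 572677) (.g (nat_lit 3777) (.e (nat_lit 483341) (nat_lit 9) (.e (nat_lit 426189) (nat_lit 9) (.e (nat_lit 426436) (nat_lit 18) (.e (nat_lit 98335) (nat_lit 18) (.e (nat_lit 164326) (nat_lit 230) (.e (nat_lit 163942) (nat_lit 19) .nil)))))) (.g (nat_lit 1) (.e (nat_lit 355325) (nat_lit 0) .nil) .nil))) 
(.lf (nat_lit 573189) (.g (nat_lit 2154) (.e (nat_lit 483364) (nat_lit 18) (.e (nat_lit 57926) (nat_lit 282) (.e (nat_lit 163875) (nat_lit 3) (.e (nat_lit 204865) (nat_lit 28) (.e (nat_lit 360192) (nat_lit 18) .nil))))) (.g (nat_lit 1) (.e (nat_lit 357564) (nat_lit 0) .nil) .nil))))) (.nd (nat_lit 8) (.nd (nat_lit 9) 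
(.lf (nat_lit 572549) (.g (nat_lit 950) (.e (nat_lit 483341) (nat_lit 9) (.e (nat_lit 426100) (nat_lit 1) (.e (nat_lit 164330) (nat_lit 230) (.e (nat_lit 163867) (nat_lit 2) .nil)))) (.g (nat_lit 0) (.e (nat_lit 355014) (nat_lit 0) .nil) .nil))) 
(.lf (nat_lit 573061) (.g (nat_lit 1624) (.e (nat_lit 483363) (nat_lit 18) (.e (nat_lit 57926) (nat_lit 282) (.e (nat_lit 163875) (nat_lit 3) (.e (nat_lit 204867) (nat_lit 28) .nil)))) (.g (nat_lit 0) (.e (nat_lit 357399) (nat_lit 0) .nil) .nil)))) (.nd (nat_lit 9) 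
(.lf (nat_lit 572805) (.g (nat_lit 3529) (.e (nat_lit 483350) (nat_lit 17) (.e (nat_lit 6664) (nat_lit 357) (.e (nat_lit 2887) (nat_lit 184) (.e (nat_lit 426499) (nat_lit 27) (.e (nat_lit 336231) (nat_lit 14) (.e (nat_lit 401458) (nat_lit 13) .nil)))))) (.g (nat_lit 1) (.e (nat_lit 357052) (nat_lit 0) .nil) .nil))) 
(.lf (nat_lit 573317) (.g (nat_lit 3019) (.e (nat_lit 483365) (nat_lit 18) (.e (nat_lit 57847) (nat_lit 252) (.e (nat_lit 57368) (nat_lit 1) (.e (nat_lit 57854) (nat_lit 252) (.e (nat_lit 57389) (nat_lit 5) (.e (nat_lit 114723) (nat_lit 24) (.e (nat_lit 106505) (nat_lit 9) (.e (nat_lit 492) (nat_lit 39) .nil)))))))) (.g (nat_lit 1) (.e (nat_lit 357729) (nat_lit 0) .nil) .nil)))))) 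
(.nd (nat_lit 7) (.nd (nat_lit 8) (.nd (nat_lit 9) 
(.lf (nat_lit 572485) (.g (nat_lit 1522) (.e (nat_lit 483340) (nat_lit 9) (.e (nat_lit 426100) (nat_lit 1) (.e (nat_lit 164399) (nat_lit 256) (.e (nat_lit 57379) (nat_lit 3) .nil)))) (.g (nat_lit 0) (.e (nat_lit 354835) (nat_lit 0) .nil) .nil))) 
(.lf (nat_lit 572997) (.g (nat_lit 1460) (.e (nat_lit 483363) (nat_lit 18) (.e (nat_lit 57849) (nat_lit 252) (.e (nat_lit 57377) (nat_lit 3) (.e (nat_lit 98309) (nat_lit 0) .nil)))) (.g (nat_lit 0) (.e (nat_lit 357326) (nat_lit 0) .nil) .nil)))) (.nd (nat_lit 9) 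
(.lf (nat_lit 572741) (.g (nat_lit 2081) (.e (nat_lit 491264) (nat_lit 15) (.e (nat_lit 475198) (nat_lit 40) (.e (nat_lit 704514) (nat_lit 0) (.e (nat_lit 2668) (nat_lit 167) (.e (nat_lit 196686) (nat_lit 18) .nil))))) (.g (nat_lit 0) (.e (nat_lit 356263) (nat_lit 0) .nil) .nil))) 
(.lf (nat_lit 573253) (.g (nat_lit 2825) (.e (nat_lit 483364) (nat_lit 18) (.e (nat_lit 57931) (nat_lit 282) (.e (nat_lit 163869) (nat_lit 2) (.e (nat_lit 196681) (nat_lit 17) (.e (nat_lit 131105) (nat_lit 9) (.e (nat_lit 336456) (nat_lit 34) .nil)))))) (.g (nat_lit 1) (.e (nat_lit 357640) (nat_lit 0) .nil) .nil))))) (.nd (nat_lit 8) (.nd (nat_lit 9) 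
(.lf (nat_lit 572613) (.g (nat_lit 2120) (.e (nat_lit 483341) (nat_lit 9) (.e (nat_lit 426107) (nat_lit 1) (.e (nat_lit 164325) (nat_lit 230) (.e (nat_lit 163870) (nat_lit 2) (.e (nat_lit 196655) (nat_lit 11) (.e (nat_lit 16465) (nat_lit 13) .nil)))))) (.g (nat_lit 1) (.e (nat_lit 355147) (nat_lit 0) .nil) .nil))) 
(.lf (nat_lit 573125) (.g (nat_lit 2602) (.e (nat_lit 483364) (nat_lit 18) (.e (nat_lit 57851) (nat_lit 252) (.e (nat_lit 57371) (nat_lit 2) (.e (nat_lit 90160) (nat_lit 11) (.e (nat_lit 24627) (nat_lit 9) (.e (nat_lit 336454) (nat_lit 34) .nil)))))) (.g (nat_lit 1) (.e (nat_lit 357478) (nat_lit 0) .nil) .nil)))) (.nd (nat_lit 9) 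
(.lf (nat_lit 572869) (.g (nat_lit 1313) (.e (nat_lit 483362) (nat_lit 18) (.e (nat_lit 57927) (nat_lit 282) (.e (nat_lit 163875) (nat_lit 3) (.e (nat_lit 204859) (nat_lit 26) (.e (nat_lit 336118) (nat_lit 9) .nil))))) (.g (nat_lit 0) (.e (nat_lit 357141) (nat_lit 0) .nil) .nil))) 
(.lf (nat_lit 573381) (.g (nat_lit 2002) (.e (nat_lit 483365) (nat_lit 18) (.e (nat_lit 57849) (nat_lit 252) (.e (nat_lit 57379) (nat_lit 3) (.e (nat_lit 98308) (nat_lit 0) .nil)))) (.g (nat_lit 0) (.e (nat_lit 357811) (nat_lit 0) .nil) .nil))))))) (.nd (nat_lit 6) (.nd (nat_lit 7) (.nd (nat_lit 8) (.nd (nat_lit 9) 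
(.lf (nat_lit 572453) (.g (nat_lit 2212) (.e (nat_lit 483339) (nat_lit 9) (.e (nat_lit 426262) (nat_lit 9) (.e (nat_lit 426435) (nat_lit 18) (.e (nat_lit 98333) (nat_lit 18) (.e (nat_lit 164325) (nat_lit 230) (.e (nat_lit 163944) (nat_lit 19) .nil)))))) (.g (nat_lit 1) (.e (nat_lit 354788) (nat_lit 0) .nil) .nil))) 
(.lf (nat_lit 572965) (.g (nat_lit 1752) (.e (nat_lit 483363) (nat_lit 18) (.e (nat_lit 57847) (nat_lit 252) (.e (nat_lit 57372) (nat_lit 2) (.e (nat_lit 90160) (nat_lit 11) (.e (nat_lit 24638) (nat_lit 9) (.e (nat_lit 343808) (nat_lit 34) .nil)))))) (.g (nat_lit 1) (.e (nat_lit 357288) (nat_lit 0) .nil) .nil)))) (.nd (nat_lit 9) 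
(.lf (nat_lit 572709) (.g (nat_lit 1521) (.e (nat_lit 491264) (nat_lit 9) (.e (nat_lit 426100) (nat_lit 1) (.e (nat_lit 164332) (nat_lit 230) (.e (nat_lit 163866) (nat_lit 2) .nil)))) (.g (nat_lit 0) (.e (nat_lit 355754) (nat_lit 0) .nil) .nil))) 
(.lf (nat_lit 573221) (.g (nat_lit 1717) (.e (nat_lit 483364) (nat_lit 18) (.e (nat_lit 57927) (nat_lit 282) (.e (nat_lit 163874) (nat_lit 3) (.e (nat_lit 204876) (nat_lit 31) (.e (nat_lit 384768) (nat_lit 18) .nil))))) (.g (nat_lit 1) (.e (nat_lit 357602) (nat_lit 0) .nil) .nil))))) (.nd (nat_lit 8) (.nd (nat_lit 9) 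
(.lf (nat_lit 572581) (.g (nat_lit 1687) (.e (nat_lit 483341) (nat_lit 9) (.e (nat_lit 426100) (nat_lit 1) (.e (nat_lit 164403) (nat_lit 256) (.e (nat_lit 57370) (nat_lit 2) .nil)))) (.g (nat_lit 0) (.e (nat_lit 355068) (nat_lit 0) .nil) .nil))) 
(.lf (nat_lit 573093) (.g (nat_lit 2357) (.e (nat_lit 483363) (nat_lit 18) (.e (nat_lit 57927) (nat_lit 282) (.e (nat_lit 163875) (nat_lit 3) (.e (nat_lit 204866) (nat_lit 28) (.e (nat_lit 360192) (nat_lit 18) .nil))))) (.g (nat_lit 1) (.e (nat_lit 357440) (nat_lit 0) .nil) .nil)))) (.nd (nat_lit 9) 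
(.lf (nat_lit 572837) (.g (nat_lit 479) (.e (nat_lit 483362) (nat_lit 18) (.e (nat_lit 57691) (nat_lit 156) (.e (nat_lit 163939) (nat_lit 18) .nil))) (.g (nat_lit 0) (.e (nat_lit 357105) (nat_lit 0) .nil) .nil))) 
(.lf (nat_lit 573349) (.g (nat_lit 1639) (.e (nat_lit 483365) (nat_lit 18) (.e (nat_lit 57848) (nat_lit 252) (.e (nat_lit 57374) (nat_lit 2) (.e (nat_lit 90122) (nat_lit 9) .nil)))) (.g (nat_lit 0) (.e (nat_lit 357771) (nat_lit 0) .nil) .nil)))))) (.nd (nat_lit 7) (.nd (nat_lit 8) (.nd (nat_lit 9) 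
(.lf (nat_lit 572517) (.g (nat_lit 947) (.e (nat_lit 483341) (nat_lit 9) (.e (nat_lit 426098) (nat_lit 1) (.e (nat_lit 164325) (nat_lit 230) (.e (nat_lit 163870) (nat_lit 2) .nil)))) (.g (nat_lit 0) (.e (nat_lit 354918) (nat_lit 0) .nil) .nil))) 
(.lf (nat_lit 573029) (.g (nat_lit 1984) (.e (nat_lit 483363) (nat_lit 18) (.e (nat_lit 57924) (nat_lit 282) (.e (nat_lit 163871) (nat_lit 2) (.e (nat_lit 196672) (nat_lit 15) (.e (nat_lit 89856) (nat_lit 18) .nil))))) (.g (nat_lit 1) (.e (nat_lit 357361) (nat_lit 0) .nil) .nil)))) (.nd (nat_lit 9) 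
(.lf (nat_lit 572773) (.g (nat_lit 2950) (.e (nat_lit 483345) (nat_lit 17) (.e (nat_lit 6712) (nat_lit 360) (.e (nat_lit 163978) (nat_lit 30) (.e (nat_lit 573484) (nat_lit 13) (.e (nat_lit 65563) (nat_lit 1) .nil))))) (.g (nat_lit 0) (.e (nat_lit 356508) (nat_lit 0) .nil) .nil))) 
(.lf (nat_lit 573285) (.g (nat_lit 359) (.e (nat_lit 483365) (nat_lit 18) (.e (nat_lit 57692) (nat_lit 156) (.e (nat_lit 163905) (nat_lit 12) .nil))) (.g (nat_lit 0) (.e (nat_lit 357686) (nat_lit 0) .nil) .nil))))) (.nd (nat_lit 8) (.nd (nat_lit 9) 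
(.lf (nat_lit 572645) (.g (nat_lit 2748) (.e (nat_lit 483341) (nat_lit 9) (.e (nat_lit 426108) (nat_lit 1) (.e (nat_lit 164329) (nat_lit 230) (.e (nat_lit 163867) (nat_lit 2) (.e (nat_lit 196653) (nat_lit 11) (.e (nat_lit 16465) (nat_lit 13) .nil)))))) (.g (nat_lit 1) (.e (nat_lit 355225) (nat_lit 0) .nil) .nil))) 
(.lf (nat_lit 573157) (.g (nat_lit 1574) (.e (nat_lit 483364) (nat_lit 18) (.e (nat_lit 57924) (nat_lit 282) (.e (nat_lit 163875) (nat_lit 3) (.e (nat_lit 204865) (nat_lit 28) (.e (nat_lit 360192) (nat_lit 18) .nil))))) (.g (nat_lit 1) (.e (nat_lit 357523) (nat_lit 0) .nil) .nil)))) (.nd (nat_lit 9) 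
(.lf (nat_lit 572901) (.g (nat_lit 2346) (.e (nat_lit 483363) (nat_lit 18) (.e (nat_lit 57688) (nat_lit 156) (.e (nat_lit 163907) (nat_lit 12) (.e (nat_lit 426436) (nat_lit 18) (.e (nat_lit 98358) (nat_lit 26) .nil))))) (.g (nat_lit 0) (.e (nat_lit 357184) (nat_lit 0) .nil) .nil))) 
(.lf (nat_lit 573413) (.g (nat_lit 1438) (.e (nat_lit 483365) (nat_lit 18) (.e (nat_lit 57854) (nat_lit 252) (.e (nat_lit 57377) (nat_lit 3) (.e (nat_lit 98309) (nat_lit 0) .nil)))) (.g (nat_lit 0) (.e (nat_lit 357853) (nat_lit 0) .nil) .nil)))))))) (.nd (nat_lit 5) (.nd (nat_lit 6) (.nd (nat_lit 7) (.nd (nat_lit 8) (.nd (nat_lit 9) 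
(.lf (nat_lit 572437) (.g (nat_lit 1995) (.e (nat_lit 483339) (nat_lit 9) (.e (nat_lit 426234) (nat_lit 9) (.e (nat_lit 426435) (nat_lit 18) (.e (nat_lit 98334) (nat_lit 18) (.e (nat_lit 164332) (nat_lit 230) (.e (nat_lit 163943) (nat_lit 19) .nil)))))) (.g (nat_lit 1) (.e (nat_lit 354733) (nat_lit 0) .nil) .nil))) 
(.lf (nat_lit 572949) (.g (nat_lit 2287) (.e (nat_lit 483363) (nat_lit 18) (.e (nat_lit 57847) (nat_lit 252) (.e (nat_lit 57368) (nat_lit 1) (.e (nat_lit 57854) (nat_lit 252) (.e (nat_lit 57389) (nat_lit 5) (.e (nat_lit 114722) (nat_lit 24) (.e (nat_lit 106505) (nat_lit 9) (.e (nat_lit 497) (nat_lit 39) .nil)))))))) (.g (nat_lit 1) (.e (nat_lit 357264) (nat_lit 0) .nil) .nil)))) (.nd (nat_lit 9) 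
(.lf (nat_lit 572693) (.g (nat_lit 1315) (.e (nat_lit 483341) (nat_lit 9) (.e (nat_lit 426200) (nat_lit 9) (.e (nat_lit 426399) (nat_lit 15) (.e (nat_lit 1799) (nat_lit 119) (.e (nat_lit 516117) (nat_lit 1) .nil))))) (.g (nat_lit 0) (.e (nat_lit 355493) (nat_lit 0) .nil) .nil))) 
(.lf (nat_lit 573205) (.g (nat_lit 1844) (.e (nat_lit 483364) (nat_lit 18) (.e (nat_lit 57927) (nat_lit 282) (.e (nat_lit 163869) (nat_lit 2) (.e (nat_lit 196672) (nat_lit 15) (.e (nat_lit 89856) (nat_lit 18) .nil))))) (.g (nat_lit 1) (.e (nat_lit 357584) (nat_lit 0) .nil) .nil))))) (.nd (nat_lit 8) (.nd (nat_lit 9) 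
(.lf (nat_lit 572565) (.g (nat_lit 2294) (.e (nat_lit 483341) (nat_lit 9) (.e (nat_lit 426100) (nat_lit 1) (.e (nat_lit 164398) (nat_lit 256) (.e (nat_lit 57373) (nat_lit 2) (.e (nat_lit 90169) (nat_lit 13) .nil))))) (.g (nat_lit 0) (.e (nat_lit 355052) (nat_lit 0) .nil) .nil))) 
(.lf (nat_lit 573077) (.g (nat_lit 2115) (.e (nat_lit 483363) (nat_lit 18) (.e (nat_lit 57927) (nat_lit 282) (.e (nat_lit 163871) (nat_lit 2) (.e (nat_lit 196672) (nat_lit 15) (.e (nat_lit 89856) (nat_lit 18) .nil))))) (.g (nat_lit 1) (.e (nat_lit 357423) (nat_lit 0) .nil) .nil)))) (.nd (nat_lit 9) 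
(.lf (nat_lit 572821) (.g (nat_lit 588) (.e (nat_lit 491264) (nat_lit 17) (.e (nat_lit 6717) (nat_lit 361) (.e (nat_lit 172076) (nat_lit 6) (.e (nat_lit 253990) (nat_lit 11) .nil)))) (.g (nat_lit 0) (.e (nat_lit 357088) (nat_lit 0) .nil) .nil))) 
(.lf (nat_lit 573333) (.g (nat_lit 370) (.e (nat_lit 483365) (nat_lit 18) (.e (nat_lit 57848) (nat_lit 252) (.e (nat_lit 57368) (nat_lit 1) .nil))) (.g (nat_lit 0) (.e (nat_lit 357753) (nat_lit 0) .nil) .nil)))))) (.nd (nat_lit 7) (.nd (nat_lit 8) (.nd (nat_lit 9) 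
(.lf (nat_lit 572501) (.g (nat_lit 3164) (.e (nat_lit 483340) (nat_lit 9) (.e (nat_lit 426187) (nat_lit 9) (.e (nat_lit 426436) (nat_lit 18) (.e (nat_lit 98335) (nat_lit 18) (.e (nat_lit 164324) (nat_lit 230) (.e (nat_lit 163943) (nat_lit 19) .nil)))))) (.g (nat_lit 1) (.e (nat_lit 354871) (nat_lit 0) .nil) .nil))) 
(.lf (nat_lit 573013) (.g (nat_lit 2107) (.e (nat_lit 483363) (nat_lit 18) (.e (nat_lit 57854) (nat_lit 252) (.e (nat_lit 57373) (nat_lit 2) (.e (nat_lit 90125) (nat_lit 9) .nil)))) (.g (nat_lit 0) (.e (nat_lit 357343) (nat_lit 0) .nil) .nil)))) (.nd (nat_lit 9) 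
(.lf (nat_lit 572757) (.g (nat_lit 1316) (.e (nat_lit 483342) (nat_lit 17) (.e (nat_lit 6113) (nat_lit 332) (.e (nat_lit 1374) (nat_lit 104) (.e (nat_lit 303152) (nat_lit 27) .nil)))) (.g (nat_lit 0) (.e (nat_lit 356308) (nat_lit 0) .nil) .nil))) 
(.lf (nat_lit 573269) (.g (nat_lit 2316) (.e (nat_lit 483365) (nat_lit 18) (.e (nat_lit 57687) (nat_lit 156) (.e (nat_lit 163903) (nat_lit 12) (.e (nat_lit 426438) (nat_lit 18) (.e (nat_lit 98365) (nat_lit 26) .nil))))) (.g (nat_lit 0) (.e (nat_lit 357659) (nat_lit 0) .nil) .nil))))) (.nd (nat_lit 8) (.nd (nat_lit 9) 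
(.lf (nat_lit 572629) (.g (nat_lit 3240) (.e (nat_lit 483341) (nat_lit 9) (.e (nat_lit 426107) (nat_lit 1) (.e (nat_lit 164332) (nat_lit 230) (.e (nat_lit 163869) (nat_lit 2) (.e (nat_lit 196653) (nat_lit 11) .nil))))) (.g (nat_lit 0) (.e (nat_lit 355203) (nat_lit 0) .nil) .nil))) 
(.lf (nat_lit 573141) (.g (nat_lit 2113) (.e (nat_lit 483364) (nat_lit 18) (.e (nat_lit 57854) (nat_lit 252) (.e (nat_lit 57373) (nat_lit 2) (.e (nat_lit 90156) (nat_lit 11) .nil)))) (.g (nat_lit 0) (.e (nat_lit 357501) (nat_lit 0) .nil) .nil)))) (.nd (nat_lit 9) 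
(.lf (nat_lit 572885) (.g (nat_lit 1960) (.e (nat_lit 483363) (nat_lit 18) (.e (nat_lit 57688) (nat_lit 156) (.e (nat_lit 163902) (nat_lit 12) (.e (nat_lit 426436) (nat_lit 18) (.e (nat_lit 98359) (nat_lit 26) .nil))))) (.g (nat_lit 0) (.e (nat_lit 357163) (nat_lit 0) .nil) .nil))) 
(.lf (nat_lit 573397) (.g (nat_lit 1274) (.e (nat_lit 483365) (nat_lit 18) (.e (nat_lit 57852) (nat_lit 252) (.e (nat_lit 57378) (nat_lit 3) (.e (nat_lit 98307) (nat_lit 0) .nil)))) (.g (nat_lit 0) (.e (nat_lit 357830) (nat_lit 0) .nil) .nil))))))) (.nd (nat_lit 6) (.nd (nat_lit 7) (.nd (nat_lit 8) (.nd (nat_lit 9) 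
(.lf (nat_lit 572469) (.g (nat_lit 1013) (.e (nat_lit 483340) (nat_lit 9) (.e (nat_lit 426098) (nat_lit 1) (.e (nat_lit 164399) (nat_lit 256) .nil))) (.g (nat_lit 0) (.e (nat_lit 354816) (nat_lit 0) .nil) .nil))) 
(.lf (nat_lit 572981) (.g (nat_lit 1706) (.e (nat_lit 483363) (nat_lit 18) (.e (nat_lit 57847) (nat_lit 252) (.e (nat_lit 57375) (nat_lit 2) (.e (nat_lit 90160) (nat_lit 11) (.e (nat_lit 24638) (nat_lit 9) (.e (nat_lit 343808) (nat_lit 34) .nil)))))) (.g (nat_lit 1) (.e (nat_lit 357308) (nat_lit 0) .nil) .nil)))) (.nd (nat_lit 9) 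
(.lf (nat_lit 572725) (.g (nat_lit 836) (.e (nat_lit 491264) (nat_lit 10) (.e (nat_lit 434209) (nat_lit 18) (.e (nat_lit 5223) (nat_lit 296) (.e (nat_lit 163871) (nat_lit 2) .nil)))) (.g (nat_lit 0) (.e (nat_lit 355831) (nat_lit 0) .nil) .nil))) 
(.lf (nat_lit 573237) (.g (nat_lit 1536) (.e (nat_lit 483364) (nat_lit 18) (.e (nat_lit 57929) (nat_lit 282) (.e (nat_lit 163873) (nat_lit 3) (.e (nat_lit 204865) (nat_lit 28) (.e (nat_lit 360192) (nat_lit 18) .nil))))) (.g (nat_lit 0) (.e (nat_lit 357622) (nat_lit 0) .nil) .nil))))) (.nd (nat_lit 8) (.nd (nat_lit 9) 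
(.lf (nat_lit 572597) (.g (nat_lit 2510) (.e (nat_lit 483341) (nat_lit 9) (.e (nat_lit 426106) (nat_lit 1) (.e (nat_lit 164324) (nat_lit 230) (.e (nat_lit 163867) (nat_lit 2) (.e (nat_lit 196656) (nat_lit 11) (.e (nat_lit 16463) (nat_lit 13) .nil)))))) (.g (nat_lit 1) (.e (nat_lit 355094) (nat_lit 0) .nil) .nil))) 
(.lf (nat_lit 573109) (.g (nat_lit 2081) (.e (nat_lit 483363) (nat_lit 18) (.e (nat_lit 57930) (nat_lit 282) (.e (nat_lit 163873) (nat_lit 3) (.e (nat_lit 204866) (nat_lit 28) (.e (nat_lit 360192) (nat_lit 18) .nil))))) (.g (nat_lit 0) (.e (nat_lit 357456) (nat_lit 0) .nil) .nil)))) (.nd (nat_lit 9) 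
(.lf (nat_lit 572853) (.g (nat_lit 1275) (.e (nat_lit 483362) (nat_lit 18) (.e (nat_lit 57926) (nat_lit 282) (.e (nat_lit 163869) (nat_lit 2) (.e (nat_lit 196672) (nat_lit 15) (.e (nat_lit 89856) (nat_lit 18) .nil))))) (.g (nat_lit 1) (.e (nat_lit 357121) (nat_lit 0) .nil) .nil))) 
(.lf (nat_lit 573365) (.g (nat_lit 1530) (.e (nat_lit 483365) (nat_lit 18) (.e (nat_lit 57849) (nat_lit 252) (.e (nat_lit 57372) (nat_lit 2) (.e (nat_lit 90125) (nat_lit 9) .nil)))) (.g (nat_lit 0) (.e (nat_lit 357790) (nat_lit 0) .nil) .nil)))))) (.nd (nat_lit 7) (.nd (nat_lit 8) (.nd (nat_lit 9) 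
(.lf (nat_lit 572533) (.g (nat_lit 1835) (.e (nat_lit 483341) (nat_lit 9) (.e (nat_lit 426098) (nat_lit 1) (.e (nat_lit 164399) (nat_lit 256) (.e (nat_lit 57377) (nat_lit 3) (.e (nat_lit 98363) (nat_lit 26) (.e (nat_lit 426321) (nat_lit 13) .nil)))))) (.g (nat_lit 1) (.e (nat_lit 354985) (nat_lit 0) .nil) .nil))) 
(.lf (nat_lit 573045) (.g (nat_lit 1243) (.e (nat_lit 483363) (nat_lit 18) (.e (nat_lit 57926) (nat_lit 282) (.e (nat_lit 163874) (nat_lit 3) (.e (nat_lit 204854) (nat_lit 26) .nil)))) (.g (nat_lit 0) (.e (nat_lit 357383) (nat_lit 0) .nil) .nil)))) (.nd (nat_lit 9) 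
(.lf (nat_lit 572789) (.g (nat_lit 2513) (.e (nat_lit 483346) (nat_lit 17) (.e (nat_lit 6724) (nat_lit 362) (.e (nat_lit 180269) (nat_lit 25) (.e (nat_lit 696343) (nat_lit 8) (.e (nat_lit 172123) (nat_lit 13) .nil))))) (.g (nat_lit 1) (.e (nat_lit 356974) (nat_lit 0) .nil) .nil))) 
(.lf (nat_lit 573301) (.g (nat_lit 887) (.e (nat_lit 483365) (nat_lit 18) (.e (nat_lit 57846) (nat_lit 252) (.e (nat_lit 57377) (nat_lit 3) (.e (nat_lit 98317) (nat_lit 9) .nil)))) (.g (nat_lit 0) (.e (nat_lit 357712) (nat_lit 0) .nil) .nil))))) (.nd (nat_lit 8) (.nd (nat_lit 9) 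
(.lf (nat_lit 572661) (.g (nat_lit 2620) (.e (nat_lit 483341) (nat_lit 9) (.e (nat_lit 426108) (nat_lit 1) (.e (nat_lit 164332) (nat_lit 230) (.e (nat_lit 163869) (nat_lit 2) (.e (nat_lit 196653) (nat_lit 11) (.e (nat_lit 16464) (nat_lit 13) .nil)))))) (.g (nat_lit 1) (.e (nat_lit 355280) (nat_lit 0) .nil) .nil))) 
(.lf (nat_lit 573173) (.g (nat_lit 2189) (.e (nat_lit 483364) (nat_lit 18) (.e (nat_lit 57926) (nat_lit 282) (.e (nat_lit 163869) (nat_lit 2) (.e (nat_lit 196674) (nat_lit 15) (.e (nat_lit 89856) (nat_lit 18) .nil))))) (.g (nat_lit 1) (.e (nat_lit 357542) (nat_lit 0) .nil) .nil)))) (.nd (nat_lit 9) 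
(.lf (nat_lit 572917) (.g (nat_lit 1340) (.e (nat_lit 483363) (nat_lit 18) (.e (nat_lit 57691) (nat_lit 156) (.e (nat_lit 163907) (nat_lit 12) (.e (nat_lit 426436) (nat_lit 18) .nil)))) (.g (nat_lit 0) (.e (nat_lit 357216) (nat_lit 0) .nil) .nil))) 
(.lf (nat_lit 573429) (.g (nat_lit 2040) (.e (nat_lit 483365) (nat_lit 18) (.e (nat_lit 57929) (nat_lit 282) (.e (nat_lit 163874) (nat_lit 3) (.e (nat_lit 204867) (nat_lit 28) (.e (nat_lit 360192) (nat_lit 18) .nil))))) (.g (nat_lit 0) (.e (nat_lit 357871) (nat_lit 0) .nil) .nil))))))))) (.nd (nat_lit 4) (.nd (nat_lit 5) (.nd (nat_lit 6) (.nd (nat_lit 7) (.nd (nat_lit 8) (.nd (nat_lit 9) 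
(.lf (nat_lit 572429) (.g (nat_lit 2716) (.e (nat_lit 483339) (nat_lit 9) (.e (nat_lit 426230) (nat_lit 9) (.e (nat_lit 426435) (nat_lit 18) (.e (nat_lit 98334) (nat_lit 18) (.e (nat_lit 164330) (nat_lit 230) (.e (nat_lit 163941) (nat_lit 19) .nil)))))) (.g (nat_lit 1) (.e (nat_lit 354714) (nat_lit 0) .nil) .nil))) 
(.lf (nat_lit 572941) (.g (nat_lit 3824) (.e (nat_lit 483363) (nat_lit 18) (.e (nat_lit 57847) (nat_lit 252) (.e (nat_lit 57365) (nat_lit 1) (.e (nat_lit 57854) (nat_lit 252) (.e (nat_lit 57389) (nat_lit 5) (.e (nat_lit 114723) (nat_lit 24) (.e (nat_lit 106504) (nat_lit 9) (.e (nat_lit 497) (nat_lit 39) .nil)))))))) (.g (nat_lit 1) (.e (nat_lit 357253) (nat_lit 0) .nil) .nil)))) (.nd (nat_lit 9) 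
(.lf (nat_lit 572685) (.g (nat_lit 657) (.e (nat_lit 483341) (nat_lit 9) (.e (nat_lit 426198) (nat_lit 9) (.e (nat_lit 426402) (nat_lit 15) (.e (nat_lit 1788) (nat_lit 119) .nil)))) (.g (nat_lit 0) (.e (nat_lit 355347) (nat_lit 0) .nil) .nil))) 
(.lf (nat_lit 573197) (.g (nat_lit 822) (.e (nat_lit 483364) (nat_lit 18) (.e (nat_lit 57927) (nat_lit 282) (.e (nat_lit 163866) (nat_lit 2) (.e (nat_lit 196673) (nat_lit 15) .nil)))) (.g (nat_lit 0) (.e (nat_lit 357572) (nat_lit 0) .nil) .nil))))) (.nd (nat_lit 8) (.nd (nat_lit 9) 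
(.lf (nat_lit 572557) (.g (nat_lit 3770) (.e (nat_lit 483341) (nat_lit 9) (.e (nat_lit 426100) (nat_lit 1) (.e (nat_lit 164332) (nat_lit 230) (.e (nat_lit 163867) (nat_lit 2) (.e (nat_lit 196656) (nat_lit 11) (.e (nat_lit 16465) (nat_lit 13) .nil)))))) (.g (nat_lit 1) (.e (nat_lit 355038) (nat_lit 0) .nil) .nil))) 
(.lf (nat_lit 573069) (.g (nat_lit 2100) (.e (nat_lit 483363) (nat_lit 18) (.e (nat_lit 57927) (nat_lit 282) (.e (nat_lit 163867) (nat_lit 2) (.e (nat_lit 196672) (nat_lit 15) (.e (nat_lit 89856) (nat_lit 18) .nil))))) (.g (nat_lit 1) (.e (nat_lit 357407) (nat_lit 0) .nil) .nil)))) (.nd (nat_lit 9) 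
(.lf (nat_lit 572813) (.g (nat_lit 2496) (.e (nat_lit 483354) (nat_lit 17) (.e (nat_lit 6680) (nat_lit 357) (.e (nat_lit 2857) (nat_lit 184) (.e (nat_lit 426533) (nat_lit 28) (.e (nat_lit 344068) (nat_lit 0) (.e (nat_lit 3090) (nat_lit 191) .nil)))))) (.g (nat_lit 1) (.e (nat_lit 357072) (nat_lit 0) .nil) .nil))) 
(.lf (nat_lit 573325) (.g (nat_lit 2310) (.e (nat_lit 483365) (nat_lit 18) (.e (nat_lit 57847) (nat_lit 252) (.e (nat_lit 57373) (nat_lit 2) (.e (nat_lit 90160) (nat_lit 11) (.e (nat_lit 24624) (nat_lit 9) .nil))))) (.g (nat_lit 0) (.e (nat_lit 357742) (nat_lit 0) .nil) .nil)))))) (.nd (nat_lit 7) (.nd (nat_lit 8) (.nd (nat_lit 9) 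
(.lf (nat_lit 572493) (.g (nat_lit 1183) (.e (nat_lit 483340) (nat_lit 9) (.e (nat_lit 426107) (nat_lit 1) (.e (nat_lit 164403) (nat_lit 256) .nil))) (.g (nat_lit 0) (.e (nat_lit 354852) (nat_lit 0) .nil) .nil))) 
(.lf (nat_lit 573005) (.g (nat_lit 1630) (.e (nat_lit 483363) (nat_lit 18) (.e (nat_lit 57853) (nat_lit 252) (.e (nat_lit 57371) (nat_lit 2) (.e (nat_lit 90156) (nat_lit 11) (.e (nat_lit 24630) (nat_lit 9) .nil))))) (.g (nat_lit 0) (.e (nat_lit 357334) (nat_lit 0) .nil) .nil)))) (.nd (nat_lit 9) 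
(.lf (nat_lit 572749) (.g (nat_lit 927) (.e (nat_lit 491264) (nat_lit 16) (.e (nat_lit 491566) (nat_lit 12) (.e (nat_lit 385056) (nat_lit 22) .nil))) (.g (nat_lit 0) (.e (nat_lit 356291) (nat_lit 0) .nil) .nil))) 
(.lf (nat_lit 573261) (.g (nat_lit 2474) (.e (nat_lit 483364) (nat_lit 18) (.e (nat_lit 57931) (nat_lit 282) (.e (nat_lit 163874) (nat_lit 3) (.e (nat_lit 204861) (nat_lit 26) (.e (nat_lit 336077) (nat_lit 9) .nil))))) (.g (nat_lit 0) (.e (nat_lit 357648) (nat_lit 0) .nil) .nil))))) (.nd (nat_lit 8) (.nd (nat_lit 9) 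
(.lf (nat_lit 572621) (.g (nat_lit 2187) (.e (nat_lit 483341) (nat_lit 9) (.e (nat_lit 426107) (nat_lit 1) (.e (nat_lit 164327) (nat_lit 230) (.e (nat_lit 163867) (nat_lit 2) (.e (nat_lit 196654) (nat_lit 11) .nil))))) (.g (nat_lit 0) (.e (nat_lit 355174) (nat_lit 0) .nil) .nil))) 
(.lf (nat_lit 573133) (.g (nat_lit 2606) (.e (nat_lit 483364) (nat_lit 18) (.e (nat_lit 57852) (nat_lit 252) (.e (nat_lit 57373) (nat_lit 2) (.e (nat_lit 90160) (nat_lit 11) (.e (nat_lit 24628) (nat_lit 9) (.e (nat_lit 336456) (nat_lit 34) .nil)))))) (.g (nat_lit 1) (.e (nat_lit 357489) (nat_lit 0) .nil) .nil)))) (.nd (nat_lit 9) 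
(.lf (nat_lit 572877) (.g (nat_lit 1114) (.e (nat_lit 483363) (nat_lit 18) (.e (nat_lit 57686) (nat_lit 156) (.e (nat_lit 163902) (nat_lit 12) (.e (nat_lit 426436) (nat_lit 18) .nil)))) (.g (nat_lit 0) (.e (nat_lit 357151) (nat_lit 0) .nil) .nil))) 
(.lf (nat_lit 573389) (.g (nat_lit 1551) (.e (nat_lit 483365) (nat_lit 18) (.e (nat_lit 57852) (nat_lit 252) (.e (nat_lit 57371) (nat_lit 2) (.e (nat_lit 90156) (nat_lit 11) (.e (nat_lit 24630) (nat_lit 9) .nil))))) (.g (nat_lit 0) (.e (nat_lit 357822) (nat_lit 0) .nil) .nil))))))) (.nd (nat_lit 6) (.nd (nat_lit 7) (.nd (nat_lit 8) (.nd (nat_lit 9) 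
(.lf (nat_lit 572461) (.g (nat_lit 2636) (.e (nat_lit 483340) (nat_lit 9) (.e (nat_lit 426097) (nat_lit 1) (.e (nat_lit 164327) (nat_lit 230) (.e (nat_lit 163868) (nat_lit 2) (.e (nat_lit 196654) (nat_lit 11) (.e (nat_lit 16466) (nat_lit 13) .nil)))))) (.g (nat_lit 1) (.e (nat_lit 354803) (nat_lit 0) .nil) .nil))) 
(.lf (nat_lit 572973) (.g (nat_lit 1305) (.e (nat_lit 483363) (nat_lit 18) (.e (nat_lit 57847) (nat_lit 252) (.e (nat_lit 57374) (nat_lit 2) (.e (nat_lit 90125) (nat_lit 9) .nil)))) (.g (nat_lit 0) (.e (nat_lit 357296) (nat_lit 0) .nil) .nil)))) (.nd (nat_lit 9) 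
(.lf (nat_lit 572717) (.g (nat_lit 2557) (.e (nat_lit 491264) (nat_lit 9) (.e (nat_lit 426110) (nat_lit 1) (.e (nat_lit 164327) (nat_lit 230) (.e (nat_lit 163868) (nat_lit 2) (.e (nat_lit 196655) (nat_lit 11) .nil))))) (.g (nat_lit 0) (.e (nat_lit 355784) (nat_lit 0) .nil) .nil))) 
(.lf (nat_lit 573229) (.g (nat_lit 1480) (.e (nat_lit 483364) (nat_lit 18) (.e (nat_lit 57927) (nat_lit 282) (.e (nat_lit 163875) (nat_lit 3) (.e (nat_lit 204878) (nat_lit 31) .nil)))) (.g (nat_lit 0) (.e (nat_lit 357611) (nat_lit 0) .nil) .nil))))) (.nd (nat_lit 8) (.nd (nat_lit 9) 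
(.lf (nat_lit 572589) (.g (nat_lit 2361) (.e (nat_lit 483341) (nat_lit 9) (.e (nat_lit 426100) (nat_lit 1) (.e (nat_lit 164403) (nat_lit 256) (.e (nat_lit 57378) (nat_lit 3) (.e (nat_lit 98362) (nat_lit 26) .nil))))) (.g (nat_lit 0) (.e (nat_lit 355077) (nat_lit 0) .nil) .nil))) 
(.lf (nat_lit 573101) (.g (nat_lit 1322) (.e (nat_lit 483363) (nat_lit 18) (.e (nat_lit 57929) (nat_lit 282) (.e (nat_lit 163869) (nat_lit 2) (.e (nat_lit 196672) (nat_lit 15) (.e (nat_lit 89856) (nat_lit 18) .nil))))) (.g (nat_lit 0) (.e (nat_lit 357448) (nat_lit 0) .nil) .nil)))) (.nd (nat_lit 9) 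
(.lf (nat_lit 572845) (.g (nat_lit 556) (.e (nat_lit 483362) (nat_lit 18) (.e (nat_lit 57853) (nat_lit 252) (.e (nat_lit 57371) (nat_lit 2) .nil))) (.g (nat_lit 0) (.e (nat_lit 357113) (nat_lit 0) .nil) .nil))) 
(.lf (nat_lit 573357) (.g (nat_lit 2817) (.e (nat_lit 483365) (nat_lit 18) (.e (nat_lit 57848) (nat_lit 252) (.e (nat_lit 57375) (nat_lit 2) (.e (nat_lit 90159) (nat_lit 11) (.e (nat_lit 24625) (nat_lit 9) (.e (nat_lit 336454) (nat_lit 34) .nil)))))) (.g (nat_lit 1) (.e (nat_lit 357779) (nat_lit 0) .nil) .nil)))))) (.nd (nat_lit 7) (.nd (nat_lit 8) (.nd (nat_lit 9) 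
(.lf (nat_lit 572525) (.g (nat_lit 963) (.e (nat_lit 483341) (nat_lit 9) (.e (nat_lit 426098) (nat_lit 1) (.e (nat_lit 164398) (nat_lit 256) .nil))) (.g (nat_lit 0) (.e (nat_lit 354977) (nat_lit 0) .nil) .nil))) 
(.lf (nat_lit 573037) (.g (nat_lit 2292) (.e (nat_lit 483363) (nat_lit 18) (.e (nat_lit 57926) (nat_lit 282) (.e (nat_lit 163869) (nat_lit 2) (.e (nat_lit 196672) (nat_lit 15) (.e (nat_lit 89856) (nat_lit 18) .nil))))) (.g (nat_lit 1) (.e (nat_lit 357372) (nat_lit 0) .nil) .nil)))) (.nd (nat_lit 9) 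
(.lf (nat_lit 572781) (.g (nat_lit 3763) (.e (nat_lit 483346) (nat_lit 17) (.e (nat_lit 6712) (nat_lit 360) (.e (nat_lit 163978) (nat_lit 30) (.e (nat_lit 573484) (nat_lit 13) (.e (nat_lit 65563) (nat_lit 1) (.e (nat_lit 57927) (nat_lit 282) (.e (nat_lit 163943) (nat_lit 19) .nil))))))) (.g (nat_lit 1) (.e (nat_lit 356720) (nat_lit 0) .nil) .nil))) 
(.lf (nat_lit 573293) (.g (nat_lit 3704) (.e (nat_lit 483365) (nat_lit 18) (.e (nat_lit 57846) (nat_lit 252) (.e (nat_lit 57371) (nat_lit 2) (.e (nat_lit 90160) (nat_lit 11) (.e (nat_lit 24627) (nat_lit 9) (.e (nat_lit 336454) (nat_lit 34) .nil)))))) (.g (nat_lit 1) (.e (nat_lit 357701) (nat_lit 0) .nil) .nil))))) (.nd (nat_lit 8) (.nd (nat_lit 9) 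
(.lf (nat_lit 572653) (.g (nat_lit 3491) (.e (nat_lit 483341) (nat_lit 9) (.e (nat_lit 426108) (nat_lit 1) (.e (nat_lit 164330) (nat_lit 230) (.e (nat_lit 163869) (nat_lit 2) (.e (nat_lit 196656) (nat_lit 11) (.e (nat_lit 16463) (nat_lit 13) .nil)))))) (.g (nat_lit 1) (.e (nat_lit 355248) (nat_lit 0) .nil) .nil))) 
(.lf (nat_lit 573165) (.g (nat_lit 2628) (.e (nat_lit 483364) (nat_lit 18) (.e (nat_lit 57926) (nat_lit 282) (.e (nat_lit 163867) (nat_lit 2) (.e (nat_lit 196681) (nat_lit 17) (.e (nat_lit 131105) (nat_lit 9) (.e (nat_lit 336454) (nat_lit 34) .nil)))))) (.g (nat_lit 1) (.e (nat_lit 357531) (nat_lit 0) .nil) .nil)))) (.nd (nat_lit 9) 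
(.lf (nat_lit 572909) (.g (nat_lit 2930) (.e (nat_lit 483363) (nat_lit 18) (.e (nat_lit 57691) (nat_lit 156) (.e (nat_lit 163905) (nat_lit 12) (.e (nat_lit 426438) (nat_lit 18) (.e (nat_lit 98363) (nat_lit 26) (.e (nat_lit 426321) (nat_lit 13) .nil)))))) (.g (nat_lit 1) (.e (nat_lit 357208) (nat_lit 0) .nil) .nil))) 
(.lf (nat_lit 573421) (.g (nat_lit 1931) (.e (nat_lit 483365) (nat_lit 18) (.e (nat_lit 57929) (nat_lit 282) (.e (nat_lit 163867) (nat_lit 2) (.e (nat_lit 196672) (nat_lit 15) (.e (nat_lit 89856) (nat_lit 18) .nil))))) (.g (nat_lit 1) (.e (nat_lit 357862) (nat_lit 0) .nil) .nil)))))))) (.nd (nat_lit 5) (.nd (nat_lit 6) (.nd (nat_lit 7) (.nd (nat_lit 8) (.nd (nat_lit 9) 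
(.lf (nat_lit 572445) (.g (nat_lit 2017) (.e (nat_lit 483339) (nat_lit 9) (.e (nat_lit 426260) (nat_lit 9) (.e (nat_lit 426435) (nat_lit 18) (.e (nat_lit 98334) (nat_lit 18) (.e (nat_lit 164332) (nat_lit 230) (.e (nat_lit 163943) (nat_lit 19) .nil)))))) (.g (nat_lit 1) (.e (nat_lit 354767) (nat_lit 0) .nil) .nil))) 
(.lf (nat_lit 572957) (.g (nat_lit 2436) (.e (nat_lit 483363) (nat_lit 18) (.e (nat_lit 57847) (nat_lit 252) (.e (nat_lit 57372) (nat_lit 2) (.e (nat_lit 90157) (nat_lit 11) (.e (nat_lit 24627) (nat_lit 9) .nil))))) (.g (nat_lit 0) (.e (nat_lit 357275) (nat_lit 0) .nil) .nil)))) (.nd (nat_lit 9) 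
(.lf (nat_lit 572701) (.g (nat_lit 3402) (.e (nat_lit 483341) (nat_lit 9) (.e (nat_lit 426316) (nat_lit 12) (.e (nat_lit 475179) (nat_lit 24) (.e (nat_lit 516117) (nat_lit 1) (.e (nat_lit 164329) (nat_lit 230) (.e (nat_lit 163941) (nat_lit 19) .nil)))))) (.g (nat_lit 1) (.e (nat_lit 355725) (nat_lit 0) .nil) .nil))) 
(.lf (nat_lit 573213) (.g (nat_lit 1565) (.e (nat_lit 483364) (nat_lit 18) (.e (nat_lit 57927) (nat_lit 282) (.e (nat_lit 163873) (nat_lit 3) (.e (nat_lit 204876) (nat_lit 31) .nil)))) (.g (nat_lit 0) (.e (nat_lit 357594) (nat_lit 0) .nil) .nil))))) (.nd (nat_lit 8) (.nd (nat_lit 9) 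
(.lf (nat_lit 572573) (.g (nat_lit 3527) (.e (nat_lit 483341) (nat_lit 9) (.e (nat_lit 426100) (nat_lit 1) (.e (nat_lit 164398) (nat_lit 256) (.e (nat_lit 57379) (nat_lit 3) (.e (nat_lit 98365) (nat_lit 26) (.e (nat_lit 426326) (nat_lit 13) .nil)))))) (.g (nat_lit 1) (.e (nat_lit 355060) (nat_lit 0) .nil) .nil))) 
(.lf (nat_lit 573085) (.g (nat_lit 2093) (.e (nat_lit 483363) (nat_lit 18) (.e (nat_lit 57927) (nat_lit 282) (.e (nat_lit 163874) (nat_lit 3) (.e (nat_lit 204865) (nat_lit 28) (.e (nat_lit 360192) (nat_lit 18) .nil))))) (.g (nat_lit 1) (.e (nat_lit 357432) (nat_lit 0) .nil) .nil)))) (.nd (nat_lit 9) 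
(.lf (nat_lit 572829) (.g (nat_lit 1708) (.e (nat_lit 483362) (nat_lit 18) (.e (nat_lit 57688) (nat_lit 156) (.e (nat_lit 163903) (nat_lit 12) (.e (nat_lit 426438) (nat_lit 18) .nil)))) (.g (nat_lit 0) (.e (nat_lit 357097) (nat_lit 0) .nil) .nil))) 
(.lf (nat_lit 573341) (.g (nat_lit 1124) (.e (nat_lit 483365) (nat_lit 18) (.e (nat_lit 57848) (nat_lit 252) (.e (nat_lit 57372) (nat_lit 2) (.e (nat_lit 90125) (nat_lit 9) (.e (nat_lit 331) (nat_lit 26) .nil))))) (.g (nat_lit 0) (.e (nat_lit 357761) (nat_lit 0) .nil) .nil)))))) (.nd (nat_lit 7) (.nd (nat_lit 8) (.nd (nat_lit 9) 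
(.lf (nat_lit 572509) (.g (nat_lit 1663) (.e (nat_lit 483340) (nat_lit 9) (.e (nat_lit 426200) (nat_lit 9) (.e (nat_lit 426436) (nat_lit 18) (.e (nat_lit 98335) (nat_lit 18) .nil)))) (.g (nat_lit 0) (.e (nat_lit 354891) (nat_lit 0) .nil) .nil))) 
(.lf (nat_lit 573021) (.g (nat_lit 3133) (.e (nat_lit 483363) (nat_lit 18) (.e (nat_lit 57854) (nat_lit 252) (.e (nat_lit 57373) (nat_lit 2) (.e (nat_lit 90160) (nat_lit 11) (.e (nat_lit 24636) (nat_lit 9) (.e (nat_lit 336451) (nat_lit 34) .nil)))))) (.g (nat_lit 1) (.e (nat_lit 357351) (nat_lit 0) .nil) .nil)))) (.nd (nat_lit 9) 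
(.lf (nat_lit 572765) (.g (nat_lit 425) (.e (nat_lit 483343) (nat_lit 17) (.e (nat_lit 6718) (nat_lit 361) (.e (nat_lit 172074) (nat_lit 6) .nil))) (.g (nat_lit 0) (.e (nat_lit 356339) (nat_lit 0) .nil) .nil))) 
(.lf (nat_lit 573277) (.g (nat_lit 2635) (.e (nat_lit 483365) (nat_lit 18) (.e (nat_lit 57688) (nat_lit 156) (.e (nat_lit 163903) (nat_lit 12) (.e (nat_lit 426428) (nat_lit 17) (.e (nat_lit 90170) (nat_lit 13) (.e (nat_lit 172121) (nat_lit 13) .nil)))))) (.g (nat_lit 1) (.e (nat_lit 357670) (nat_lit 0) .nil) .nil))))) (.nd (nat_lit 8) (.nd (nat_lit 9) 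
(.lf (nat_lit 572637) (.g (nat_lit 220) (.e (nat_lit 483341) (nat_lit 9) (.e (nat_lit 426107) (nat_lit 1) (.e (nat_lit 164403) (nat_lit 256) .nil))) (.g (nat_lit 0) (.e (nat_lit 355214) (nat_lit 0) .nil) .nil))) 
(.lf (nat_lit 573149) (.g (nat_lit 1292) (.e (nat_lit 483364) (nat_lit 18) (.e (nat_lit 57854) (nat_lit 252) (.e (nat_lit 57378) (nat_lit 3) (.e (nat_lit 98312) (nat_lit 9) .nil)))) (.g (nat_lit 0) (.e (nat_lit 357514) (nat_lit 0) .nil) .nil)))) (.nd (nat_lit 9) 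
(.lf (nat_lit 572893) (.g (nat_lit 491) (.e (nat_lit 483363) (nat_lit 18) (.e (nat_lit 57688) (nat_lit 156) (.e (nat_lit 163905) (nat_lit 12) .nil))) (.g (nat_lit 0) (.e (nat_lit 357176) (nat_lit 0) .nil) .nil))) 
(.lf (nat_lit 573405) (.g (nat_lit 2632) (.e (nat_lit 483365) (nat_lit 18) (.e (nat_lit 57854) (nat_lit 252) (.e (nat_lit 57371) (nat_lit 2) (.e (nat_lit 90160) (nat_lit 11) (.e (nat_lit 24580) (nat_lit 0) (.e (nat_lit 6445) (nat_lit 343) (.e (nat_lit 492) (nat_lit 39) .nil))))))) (.g (nat_lit 1) (.e (nat_lit 357840) (nat_lit 0) .nil) .nil))))))) 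
(.nd (nat_lit 6) (.nd (nat_lit 7) (.nd (nat_lit 8) (.nd (nat_lit 9) 
(.lf (nat_lit 572477) (.g (nat_lit 2568) (.e (nat_lit 483340) (nat_lit 9) (.e (nat_lit 426100) (nat_lit 1) (.e (nat_lit 164398) (nat_lit 256) (.e (nat_lit 57378) (nat_lit 3) (.e (nat_lit 98358) (nat_lit 26) .nil))))) (.g (nat_lit 0) (.e (nat_lit 354827) (nat_lit 0) .nil) .nil))) 
(.lf (nat_lit 572989) (.g (nat_lit 2024) (.e (nat_lit 483363) (nat_lit 18) (.e (nat_lit 57849) (nat_lit 252) (.e (nat_lit 57372) (nat_lit 2) (.e (nat_lit 90128) (nat_lit 9) (.e (nat_lit 7936) (nat_lit 23) .nil))))) (.g (nat_lit 0) (.e (nat_lit 357316) (nat_lit 0) .nil) .nil)))) (.nd (nat_lit 9) 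
(.lf (nat_lit 572733) (.g (nat_lit 415) (.e (nat_lit 491264) (nat_lit 10) (.e (nat_lit 434275) (nat_lit 39) (.e (nat_lit 663585) (nat_lit 12) .nil))) (.g (nat_lit 0) (.e (nat_lit 355850) (nat_lit 0) .nil) .nil))) 
(.lf (nat_lit 573245) (.g (nat_lit 1256) (.e (nat_lit 483364) (nat_lit 18) (.e (nat_lit 57930) (nat_lit 282) (.e (nat_lit 163873) (nat_lit 3) (.e (nat_lit 204865) (nat_lit 28) .nil)))) (.g (nat_lit 0) (.e (nat_lit 357630) (nat_lit 0) .nil) .nil))))) (.nd (nat_lit 8) (.nd (nat_lit 9) 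
(.lf (nat_lit 572605) (.g (nat_lit 2190) (.e (nat_lit 483341) (nat_lit 9) (.e (nat_lit 426107) (nat_lit 1) (.e (nat_lit 164322) (nat_lit 230) (.e (nat_lit 163868) (nat_lit 2) (.e (nat_lit 196656) (nat_lit 11) .nil))))) (.g (nat_lit 0) (.e (nat_lit 355121) (nat_lit 0) .nil) .nil))) 
(.lf (nat_lit 573117) (.g (nat_lit 2358) (.e (nat_lit 483363) (nat_lit 18) (.e (nat_lit 57931) (nat_lit 282) (.e (nat_lit 163874) (nat_lit 3) (.e (nat_lit 204865) (nat_lit 28) (.e (nat_lit 360192) (nat_lit 18) .nil))))) (.g (nat_lit 1) (.e (nat_lit 357467) (nat_lit 0) .nil) .nil)))) (.nd (nat_lit 9) 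
(.lf (nat_lit 572861) (.g (nat_lit 1308) (.e (nat_lit 483362) (nat_lit 18) (.e (nat_lit 57926) (nat_lit 282) (.e (nat_lit 163875) (nat_lit 3) (.e (nat_lit 204859) (nat_lit 26) .nil)))) (.g (nat_lit 0) (.e (nat_lit 357131) (nat_lit 0) .nil) .nil))) 
(.lf (nat_lit 573373) (.g (nat_lit 1844) (.e (nat_lit 483365) (nat_lit 18) (.e (nat_lit 57849) (nat_lit 252) (.e (nat_lit 57375) (nat_lit 2) (.e (nat_lit 90125) (nat_lit 9) .nil)))) (.g (nat_lit 0) (.e (nat_lit 357802) (nat_lit 0) .nil) .nil)))))) (.nd (nat_lit 7) (.nd (nat_lit 8) (.nd (nat_lit 9) 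
(.lf (nat_lit 572541) (.g (nat_lit 3272) (.e (nat_lit 483341) (nat_lit 9) (.e (nat_lit 426098) (nat_lit 1) (.e (nat_lit 164403) (nat_lit 256) (.e (nat_lit 57373) (nat_lit 2) (.e (nat_lit 90169) (nat_lit 13) .nil))))) (.g (nat_lit 0) (.e (nat_lit 354994) (nat_lit 0) .nil) .nil))) 
(.lf (nat_lit 573053) (.g (nat_lit 2012) (.e (nat_lit 483363) (nat_lit 18) (.e (nat_lit 57926) (nat_lit 282) (.e (nat_lit 163874) (nat_lit 3) (.e (nat_lit 204878) (nat_lit 31) .nil)))) (.g (nat_lit 0) (.e (nat_lit 357391) (nat_lit 0) .nil) .nil)))) (.nd (nat_lit 9) 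
(.lf (nat_lit 572797) (.g (nat_lit 1067) (.e (nat_lit 483350) (nat_lit 17) (.e (nat_lit 6113) (nat_lit 332) (.e (nat_lit 1374) (nat_lit 104) (.e (nat_lit 311040) (nat_lit 26) .nil)))) (.g (nat_lit 0) (.e (nat_lit 357038) (nat_lit 0) .nil) .nil))) 
(.lf (nat_lit 573309) (.g (nat_lit 2810) (.e (nat_lit 483365) (nat_lit 18) (.e (nat_lit 57847) (nat_lit 252) (.e (nat_lit 57365) (nat_lit 1) (.e (nat_lit 57854) (nat_lit 252) (.e (nat_lit 57389) (nat_lit 5) (.e (nat_lit 114723) (nat_lit 24) (.e (nat_lit 106504) (nat_lit 9) (.e (nat_lit 497) (nat_lit 39) .nil)))))))) (.g (nat_lit 1) (.e (nat_lit 357720) (nat_lit 0) .nil) .nil))))) 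
(.nd (nat_lit 8) (.nd (nat_lit 9) 
(.lf (nat_lit 572669) (.g (nat_lit 2359) (.e (nat_lit 483341) (nat_lit 9) (.e (nat_lit 426108) (nat_lit 1) (.e (nat_lit 164403) (nat_lit 256) (.e (nat_lit 57378) (nat_lit 3) (.e (nat_lit 98362) (nat_lit 26) (.e (nat_lit 426330) (nat_lit 13) .nil)))))) (.g (nat_lit 1) (.e (nat_lit 355293) (nat_lit 0) .nil) .nil))) 
(.lf (nat_lit 573181) (.g (nat_lit 1982) (.e (nat_lit 483364) (nat_lit 18) (.e (nat_lit 57926) (nat_lit 282) (.e (nat_lit 163874) (nat_lit 3) (.e (nat_lit 204865) (nat_lit 28) (.e (nat_lit 360192) (nat_lit 18) .nil))))) (.g (nat_lit 1) (.e (nat_lit 357556) (nat_lit 0) .nil) .nil)))) (.nd (nat_lit 9) 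
(.lf (nat_lit 572925) (.g (nat_lit 2577) (.e (nat_lit 483363) (nat_lit 18) (.e (nat_lit 57692) (nat_lit 156) (.e (nat_lit 163905) (nat_lit 12) (.e (nat_lit 426438) (nat_lit 18) (.e (nat_lit 98363) (nat_lit 26) (.e (nat_lit 426321) (nat_lit 13) .nil)))))) (.g (nat_lit 1) (.e (nat_lit 357231) (nat_lit 0) .nil) .nil))) 
(.lf (nat_lit 573437) (.g (nat_lit 1344) (.e (nat_lit 483365) (nat_lit 18) (.e (nat_lit 57930) (nat_lit 282) (.e (nat_lit 163873) (nat_lit 3) (.e (nat_lit 204858) (nat_lit 26) .nil)))) (.g (nat_lit 0) (.e (nat_lit 357879) (nat_lit 0) .nil) .nil))))))))))) (.nd (nat_lit 2) (.nd (nat_lit 3) (.nd (nat_lit 4) (.nd (nat_lit 5) (.nd (nat_lit 6) (.nd (nat_lit 7) (.nd (nat_lit 8) (.nd (nat_lit 9) 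
(.lf (nat_lit 572419) (.g (nat_lit 2545) (.e (nat_lit 483337) (nat_lit 9) (.e (nat_lit 426313) (nat_lit 12) (.e (nat_lit 475179) (nat_lit 24) (.e (nat_lit 516120) (nat_lit 1) (.e (nat_lit 164329) (nat_lit 230) (.e (nat_lit 163941) (nat_lit 19) .nil)))))) (.g (nat_lit 1) (.e (nat_lit 354651) (nat_lit 0) .nil) .nil))) 
(.lf (nat_lit 572931) (.g (nat_lit 2729) (.e (nat_lit 483363) (nat_lit 18) (.e (nat_lit 57692) (nat_lit 156) (.e (nat_lit 163907) (nat_lit 12) (.e (nat_lit 426438) (nat_lit 18) (.e (nat_lit 98363) (nat_lit 26) (.e (nat_lit 426321) (nat_lit 13) .nil)))))) (.g (nat_lit 1) (.e (nat_lit 357239) (nat_lit 0) .nil) .nil)))) (.nd (nat_lit 9) 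
(.lf (nat_lit 572675) (.g (nat_lit 3544) (.e (nat_lit 483341) (nat_lit 9) (.e (nat_lit 426188) (nat_lit 9) (.e (nat_lit 426436) (nat_lit 18) (.e (nat_lit 98335) (nat_lit 18) (.e (nat_lit 164329) (nat_lit 230) (.e (nat_lit 163941) (nat_lit 19) .nil)))))) (.g (nat_lit 1) (.e (nat_lit 355316) (nat_lit 0) .nil) .nil))) 
(.lf (nat_lit 573187) (.g (nat_lit 1966) (.e (nat_lit 483364) (nat_lit 18) (.e (nat_lit 57926) (nat_lit 282) (.e (nat_lit 163874) (nat_lit 3) (.e (nat_lit 204878) (nat_lit 31) .nil)))) (.g (nat_lit 0) (.e (nat_lit 357562) (nat_lit 0) .nil) .nil))))) (.nd (nat_lit 8) (.nd (nat_lit 9) 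
(.lf (nat_lit 572547) (.g (nat_lit 1366) (.e (nat_lit 483341) (nat_lit 9) (.e (nat_lit 426100) (nat_lit 1) (.e (nat_lit 164329) (nat_lit 230) (.e (nat_lit 163867) (nat_lit 2) .nil)))) (.g (nat_lit 0) (.e (nat_lit 355010) (nat_lit 0) .nil) .nil))) 
(.lf (nat_lit 573059) (.g (nat_lit 2489) (.e (nat_lit 483363) (nat_lit 18) (.e (nat_lit 57926) (nat_lit 282) (.e (nat_lit 163875) (nat_lit 3) (.e (nat_lit 204865) (nat_lit 28) (.e (nat_lit 360192) (nat_lit 18) .nil))))) (.g (nat_lit 1) (.e (nat_lit 357397) (nat_lit 0) .nil) .nil)))) (.nd (nat_lit 9) 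
(.lf (nat_lit 572803) (.g (nat_lit 400) (.e (nat_lit 483350) (nat_lit 17) (.e (nat_lit 6218) (nat_lit 333) (.e (nat_lit 57810) (nat_lit 246) .nil))) (.g (nat_lit 0) (.e (nat_lit 357049) (nat_lit 0) .nil) .nil))) 
(.lf (nat_lit 573315) (.g (nat_lit 2370) (.e (nat_lit 483365) (nat_lit 18) (.e (nat_lit 57847) (nat_lit 252) (.e (nat_lit 57368) (nat_lit 1) (.e (nat_lit 57854) (nat_lit 252) (.e (nat_lit 57389) (nat_lit 5) (.e (nat_lit 114722) (nat_lit 24) (.e (nat_lit 106507) (nat_lit 9) (.e (nat_lit 492) (nat_lit 39) .nil)))))))) (.g (nat_lit 1) (.e (nat_lit 357727) (nat_lit 0) .nil) .nil)))))) 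
(.nd (nat_lit 7) (.nd (nat_lit 8) (.nd (nat_lit 9) 
(.lf (nat_lit 572483) (.g (nat_lit 2468) (.e (nat_lit 483340) (nat_lit 9) (.e (nat_lit 426100) (nat_lit 1) (.e (nat_lit 164399) (nat_lit 256) (.e (nat_lit 57373) (nat_lit 2) (.e (nat_lit 90169) (nat_lit 13) .nil))))) (.g (nat_lit 0) (.e (nat_lit 354833) (nat_lit 0) .nil) .nil))) 
(.lf (nat_lit 572995) (.g (nat_lit 3157) (.e (nat_lit 483363) (nat_lit 18) (.e (nat_lit 57849) (nat_lit 252) (.e (nat_lit 57375) (nat_lit 2) (.e (nat_lit 90160) (nat_lit 11) (.e (nat_lit 24630) (nat_lit 9) .nil))))) (.g (nat_lit 0) (.e (nat_lit 357324) (nat_lit 0) .nil) .nil)))) (.nd (nat_lit 9) 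
(.lf (nat_lit 572739) (.g (nat_lit 1079) (.e (nat_lit 491264) (nat_lit 13) (.e (nat_lit 458774) (nat_lit 18) (.e (nat_lit 5939) (nat_lit 322) (.e (nat_lit 57377) (nat_lit 3) .nil)))) (.g (nat_lit 0) (.e (nat_lit 356245) (nat_lit 0) .nil) .nil))) 
(.lf (nat_lit 573251) (.g (nat_lit 1177) (.e (nat_lit 483364) (nat_lit 18) (.e (nat_lit 57931) (nat_lit 282) (.e (nat_lit 163869) (nat_lit 2) (.e (nat_lit 196681) (nat_lit 17) .nil)))) (.g (nat_lit 0) (.e (nat_lit 357638) (nat_lit 0) .nil) .nil))))) (.nd (nat_lit 8) (.nd (nat_lit 9) 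
(.lf (nat_lit 572611) (.g (nat_lit 1285) (.e (nat_lit 483341) (nat_lit 9) (.e (nat_lit 426107) (nat_lit 1) (.e (nat_lit 164325) (nat_lit 230) (.e (nat_lit 163844) (nat_lit 0) .nil)))) (.g (nat_lit 0) (.e (nat_lit 355138) (nat_lit 0) .nil) .nil))) 
(.lf (nat_lit 573123) (.g (nat_lit 3309) (.e (nat_lit 483364) (nat_lit 18) (.e (nat_lit 57691) (nat_lit 156) (.e (nat_lit 163907) (nat_lit 12) (.e (nat_lit 426436) (nat_lit 18) (.e (nat_lit 98358) (nat_lit 26) (.e (nat_lit 426323) (nat_lit 13) .nil)))))) (.g (nat_lit 1) (.e (nat_lit 357474) (nat_lit 0) .nil) .nil)))) (.nd (nat_lit 9) 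
(.lf (nat_lit 572867) (.g (nat_lit 376) (.e (nat_lit 483362) (nat_lit 18) (.e (nat_lit 57927) (nat_lit 282) (.e (nat_lit 163869) (nat_lit 2) .nil))) (.g (nat_lit 0) (.e (nat_lit 357137) (nat_lit 0) .nil) .nil))) 
(.lf (nat_lit 573379) (.g (nat_lit 1436) (.e (nat_lit 483365) (nat_lit 18) (.e (nat_lit 57849) (nat_lit 252) (.e (nat_lit 57378) (nat_lit 3) (.e (nat_lit 106240) (nat_lit 11) .nil)))) (.g (nat_lit 0) (.e (nat_lit 357809) (nat_lit 0) .nil) .nil))))))) (.nd (nat_lit 6) (.nd (nat_lit 7) (.nd (nat_lit 8) (.nd (nat_lit 9) 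
(.lf (nat_lit 572451) (.g (nat_lit 2065) (.e (nat_lit 483339) (nat_lit 9) (.e (nat_lit 426261) (nat_lit 9) (.e (nat_lit 426435) (nat_lit 18) (.e (nat_lit 98335) (nat_lit 18) (.e (nat_lit 164332) (nat_lit 230) (.e (nat_lit 163943) (nat_lit 19) .nil)))))) (.g (nat_lit 1) (.e (nat_lit 354784) (nat_lit 0) .nil) .nil))) 
(.lf (nat_lit 572963) (.g (nat_lit 2937) (.e (nat_lit 483363) (nat_lit 18) (.e (nat_lit 57847) (nat_lit 252) (.e (nat_lit 57372) (nat_lit 2) (.e (nat_lit 90160) (nat_lit 11) (.e (nat_lit 24628) (nat_lit 9) (.e (nat_lit 336455) (nat_lit 34) .nil)))))) (.g (nat_lit 1) (.e (nat_lit 357286) (nat_lit 0) .nil) .nil)))) (.nd (nat_lit 9) 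
(.lf (nat_lit 572707) (.g (nat_lit 740) (.e (nat_lit 491264) (nat_lit 9) (.e (nat_lit 426099) (nat_lit 1) (.e (nat_lit 164332) (nat_lit 230) (.e (nat_lit 163867) (nat_lit 2) .nil)))) (.g (nat_lit 0) (.e (nat_lit 355751) (nat_lit 0) .nil) .nil))) 
(.lf (nat_lit 573219) (.g (nat_lit 2663) (.e (nat_lit 483364) (nat_lit 18) (.e (nat_lit 57927) (nat_lit 282) (.e (nat_lit 163874) (nat_lit 3) (.e (nat_lit 204867) (nat_lit 28) (.e (nat_lit 360192) (nat_lit 18) .nil))))) (.g (nat_lit 1) (.e (nat_lit 357600) (nat_lit 0) .nil) .nil))))) (.nd (nat_lit 8) (.nd (nat_lit 9) 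
(.lf (nat_lit 572579) (.g (nat_lit 1413) (.e (nat_lit 483341) (nat_lit 9) (.e (nat_lit 426100) (nat_lit 1) (.e (nat_lit 164399) (nat_lit 256) (.e (nat_lit 57378) (nat_lit 3) (.e (nat_lit 98362) (nat_lit 26) .nil))))) (.g (nat_lit 0) (.e (nat_lit 355066) (nat_lit 0) .nil) .nil))) 
(.lf (nat_lit 573091) (.g (nat_lit 3140) (.e (nat_lit 483363) (nat_lit 18) (.e (nat_lit 57927) (nat_lit 282) (.e (nat_lit 163875) (nat_lit 3) (.e (nat_lit 204861) (nat_lit 26) (.e (nat_lit 336075) (nat_lit 9) (.e (nat_lit 336456) (nat_lit 34) .nil)))))) (.g (nat_lit 1) (.e (nat_lit 357438) (nat_lit 0) .nil) .nil)))) (.nd (nat_lit 9) 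
(.lf (nat_lit 572835) (.g (nat_lit 1342) (.e (nat_lit 483362) (nat_lit 18) (.e (nat_lit 57691) (nat_lit 156) (.e (nat_lit 163907) (nat_lit 12) (.e (nat_lit 426438) (nat_lit 18) .nil)))) (.g (nat_lit 0) (.e (nat_lit 357103) (nat_lit 0) .nil) .nil))) 
(.lf (nat_lit 573347) (.g (nat_lit 1237) (.e (nat_lit 483365) (nat_lit 18) (.e (nat_lit 57848) (nat_lit 252) (.e (nat_lit 57373) (nat_lit 2) (.e (nat_lit 90160) (nat_lit 11) .nil)))) (.g (nat_lit 0) (.e (nat_lit 357769) (nat_lit 0) .nil) .nil)))))) (.nd (nat_lit 7) (.nd (nat_lit 8) (.nd (nat_lit 9) 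
(.lf (nat_lit 572515) (.g (nat_lit 2016) (.e (nat_lit 483341) (nat_lit 9) (.e (nat_lit 426098) (nat_lit 1) (.e (nat_lit 164325) (nat_lit 230) (.e (nat_lit 163867) (nat_lit 2) (.e (nat_lit 196654) (nat_lit 11) .nil))))) (.g (nat_lit 0) (.e (nat_lit 354911) (nat_lit 0) .nil) .nil))) 
(.lf (nat_lit 573027) (.g (nat_lit 1669) (.e (nat_lit 483363) (nat_lit 18) (.e (nat_lit 57924) (nat_lit 282) (.e (nat_lit 163867) (nat_lit 2) (.e (nat_lit 196674) (nat_lit 15) (.e (nat_lit 89856) (nat_lit 18) .nil))))) (.g (nat_lit 0) (.e (nat_lit 357359) (nat_lit 0) .nil) .nil)))) (.nd (nat_lit 9) 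
(.lf (nat_lit 572771) (.g (nat_lit 437) (.e (nat_lit 483343) (nat_lit 17) (.e (nat_lit 6724) (nat_lit 362) (.e (nat_lit 188160) (nat_lit 26) .nil))) (.g (nat_lit 0) (.e (nat_lit 356401) (nat_lit 0) .nil) .nil))) 
(.lf (nat_lit 573283) (.g (nat_lit 3438) (.e (nat_lit 483365) (nat_lit 18) (.e (nat_lit 57691) (nat_lit 156) (.e (nat_lit 163938) (nat_lit 18) (.e (nat_lit 475177) (nat_lit 24) (.e (nat_lit 516150) (nat_lit 9) (.e (nat_lit 426323) (nat_lit 13) .nil)))))) (.g (nat_lit 1) (.e (nat_lit 357684) (nat_lit 0) .nil) .nil))))) (.nd (nat_lit 8) (.nd (nat_lit 9) 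
(.lf (nat_lit 572643) (.g (nat_lit 1154) (.e (nat_lit 483341) (nat_lit 9) (.e (nat_lit 426108) (nat_lit 1) (.e (nat_lit 164329) (nat_lit 230) (.e (nat_lit 163843) (nat_lit 0) .nil)))) (.g (nat_lit 0) (.e (nat_lit 355222) (nat_lit 0) .nil) .nil))) 
(.lf (nat_lit 573155) (.g (nat_lit 1685) (.e (nat_lit 483364) (nat_lit 18) (.e (nat_lit 57924) (nat_lit 282) (.e (nat_lit 163868) (nat_lit 2) (.e (nat_lit 196672) (nat_lit 15) (.e (nat_lit 89856) (nat_lit 18) .nil))))) (.g (nat_lit 1) (.e (nat_lit 357521) (nat_lit 0) .nil) .nil)))) (.nd (nat_lit 9) 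
(.lf (nat_lit 572899) (.g (nat_lit 1906) (.e (nat_lit 483363) (nat_lit 18) (.e (nat_lit 57688) (nat_lit 156) (.e (nat_lit 163907) (nat_lit 12) (.e (nat_lit 426434) (nat_lit 18) .nil)))) (.g (nat_lit 0) (.e (nat_lit 357182) (nat_lit 0) .nil) .nil))) 
(.lf (nat_lit 573411) (.g (nat_lit 4323) (.e (nat_lit 483365) (nat_lit 18) (.e (nat_lit 57854) (nat_lit 252) (.e (nat_lit 57373) (nat_lit 2) (.e (nat_lit 90160) (nat_lit 11) (.e (nat_lit 24627) (nat_lit 9) (.e (nat_lit 336454) (nat_lit 34) .nil)))))) (.g (nat_lit 1) (.e (nat_lit 357851) (nat_lit 0) .nil) .nil)))))))) 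
(.nd (nat_lit 5) (.nd (nat_lit 6) (.nd (nat_lit 7) (.nd (nat_lit 8) (.nd (nat_lit 9) 
(.lf (nat_lit 572435) (.g (nat_lit 1968) (.e (nat_lit 483339) (nat_lit 9) (.e (nat_lit 426234) (nat_lit 9) (.e (nat_lit 426435) (nat_lit 18) (.e (nat_lit 98333) (nat_lit 18) (.e (nat_lit 164327) (nat_lit 230) (.e (nat_lit 163941) (nat_lit 19) .nil)))))) (.g (nat_lit 1) (.e (nat_lit 354729) (nat_lit 0) .nil) .nil))) 
(.lf (nat_lit 572947) (.g (nat_lit 3936) (.e (nat_lit 483363) (nat_lit 18) (.e (nat_lit 57847) (nat_lit 252) (.e (nat_lit 57365) (nat_lit 1) (.e (nat_lit 57854) (nat_lit 252) (.e (nat_lit 57389) (nat_lit 5) (.e (nat_lit 114723) (nat_lit 24) (.e (nat_lit 106509) (nat_lit 9) (.e (nat_lit 492) (nat_lit 39) .nil)))))))) (.g (nat_lit 1) (.e (nat_lit 357261) (nat_lit 0) .nil) .nil)))) (.nd (nat_lit 9) 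
(.lf (nat_lit 572691) (.g (nat_lit 1438) (.e (nat_lit 483341) (nat_lit 9) (.e (nat_lit 426200) (nat_lit 9) (.e (nat_lit 426362) (nat_lit 15) (.e (nat_lit 1788) (nat_lit 119) (.e (nat_lit 516116) (nat_lit 1) .nil))))) (.g (nat_lit 0) (.e (nat_lit 355491) (nat_lit 0) .nil) .nil))) 
(.lf (nat_lit 573203) (.g (nat_lit 1876) (.e (nat_lit 483364) (nat_lit 18) (.e (nat_lit 57927) (nat_lit 282) (.e (nat_lit 163868) (nat_lit 2) (.e (nat_lit 196674) (nat_lit 15) (.e (nat_lit 89856) (nat_lit 18) .nil))))) (.g (nat_lit 1) (.e (nat_lit 357579) (nat_lit 0) .nil) .nil))))) (.nd (nat_lit 8) (.nd (nat_lit 9) 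
(.lf (nat_lit 572563) (.g (nat_lit 2048) (.e (nat_lit 483341) (nat_lit 9) (.e (nat_lit 426100) (nat_lit 1) (.e (nat_lit 164398) (nat_lit 256) (.e (nat_lit 57372) (nat_lit 2) (.e (nat_lit 90169) (nat_lit 13) .nil))))) (.g (nat_lit 0) (.e (nat_lit 355050) (nat_lit 0) .nil) .nil))) 
(.lf (nat_lit 573075) (.g (nat_lit 2093) (.e (nat_lit 483363) (nat_lit 18) (.e (nat_lit 57927) (nat_lit 282) (.e (nat_lit 163869) (nat_lit 2) (.e (nat_lit 196672) (nat_lit 15) (.e (nat_lit 89856) (nat_lit 18) .nil))))) (.g (nat_lit 1) (.e (nat_lit 357417) (nat_lit 0) .nil) .nil)))) (.nd (nat_lit 9) 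
(.lf (nat_lit 572819) (.g (nat_lit 563) (.e (nat_lit 491264) (nat_lit 17) (.e (nat_lit 6207) (nat_lit 333) (.e (nat_lit 57794) (nat_lit 245) (.e (nat_lit 1159) (nat_lit 86) (.e (nat_lit 49187) (nat_lit 11) .nil))))) (.g (nat_lit 0) (.e (nat_lit 357083) (nat_lit 0) .nil) .nil))) 
(.lf (nat_lit 573331) (.g (nat_lit 1808) (.e (nat_lit 483365) (nat_lit 18) (.e (nat_lit 57847) (nat_lit 252) (.e (nat_lit 57375) (nat_lit 2) (.e (nat_lit 90160) (nat_lit 11) (.e (nat_lit 24629) (nat_lit 9) .nil))))) (.g (nat_lit 0) (.e (nat_lit 357751) (nat_lit 0) .nil) .nil)))))) (.nd (nat_lit 7) (.nd (nat_lit 8) (.nd (nat_lit 9) 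
(.lf (nat_lit 572499) (.g (nat_lit 3183) (.e (nat_lit 483340) (nat_lit 9) (.e (nat_lit 426108) (nat_lit 1) (.e (nat_lit 164332) (nat_lit 230) (.e (nat_lit 163869) (nat_lit 2) (.e (nat_lit 196654) (nat_lit 11) .nil))))) (.g (nat_lit 0) (.e (nat_lit 354867) (nat_lit 0) .nil) .nil))) 
(.lf (nat_lit 573011) (.g (nat_lit 2408) (.e (nat_lit 483363) (nat_lit 18) (.e (nat_lit 57854) (nat_lit 252) (.e (nat_lit 57373) (nat_lit 2) (.e (nat_lit 90122) (nat_lit 9) .nil)))) (.g (nat_lit 0) (.e (nat_lit 357341) (nat_lit 0) .nil) .nil)))) (.nd (nat_lit 9) 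
(.lf (nat_lit 572755) (.g (nat_lit 1625) (.e (nat_lit 491264) (nat_lit 16) (.e (nat_lit 491566) (nat_lit 12) (.e (nat_lit 392960) (nat_lit 24) (.e (nat_lit 516151) (nat_lit 9) (.e (nat_lit 433920) (nat_lit 13) .nil))))) (.g (nat_lit 0) (.e (nat_lit 356304) (nat_lit 0) .nil) .nil))) 
(.lf (nat_lit 573267) (.g (nat_lit 3385) (.e (nat_lit 483365) (nat_lit 18) (.e (nat_lit 57687) (nat_lit 156) (.e (nat_lit 163902) (nat_lit 12) (.e (nat_lit 426438) (nat_lit 18) (.e (nat_lit 98358) (nat_lit 26) (.e (nat_lit 426323) (nat_lit 13) .nil)))))) (.g (nat_lit 1) (.e (nat_lit 357657) (nat_lit 0) .nil) .nil))))) (.nd (nat_lit 8) (.nd (nat_lit 9) 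
(.lf (nat_lit 572627) (.g (nat_lit 2345) (.e (nat_lit 483341) (nat_lit 9) (.e (nat_lit 426107) (nat_lit 1) (.e (nat_lit 164327) (nat_lit 230) (.e (nat_lit 163871) (nat_lit 2) (.e (nat_lit 196653) (nat_lit 11) (.e (nat_lit 16464) (nat_lit 13) .nil)))))) (.g (nat_lit 1) (.e (nat_lit 355185) (nat_lit 0) .nil) .nil))) 
(.lf (nat_lit 573139) (.g (nat_lit 1946) (.e (nat_lit 483364) (nat_lit 18) (.e (nat_lit 57854) (nat_lit 252) (.e (nat_lit 57371) (nat_lit 2) (.e (nat_lit 90160) (nat_lit 11) (.e (nat_lit 24636) (nat_lit 9) (.e (nat_lit 343808) (nat_lit 34) .nil)))))) (.g (nat_lit 1) (.e (nat_lit 357499) (nat_lit 0) .nil) .nil)))) (.nd (nat_lit 9) 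
(.lf (nat_lit 572883) (.g (nat_lit 401) (.e (nat_lit 483363) (nat_lit 18) (.e (nat_lit 57688) (nat_lit 156) (.e (nat_lit 163902) (nat_lit 12) .nil))) (.g (nat_lit 0) (.e (nat_lit 357160) (nat_lit 0) .nil) .nil))) 
(.lf (nat_lit 573395) (.g (nat_lit 2074) (.e (nat_lit 483365) (nat_lit 18) (.e (nat_lit 57852) (nat_lit 252) (.e (nat_lit 57373) (nat_lit 2) (.e (nat_lit 90160) (nat_lit 11) (.e (nat_lit 24636) (nat_lit 9) .nil))))) (.g (nat_lit 0) (.e (nat_lit 357828) (nat_lit 0) .nil) .nil))))))) (.nd (nat_lit 6) (.nd (nat_lit 7) (.nd (nat_lit 8) (.nd (nat_lit 9) 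
(.lf (nat_lit 572467) (.g (nat_lit 3155) (.e (nat_lit 483340) (nat_lit 9) (.e (nat_lit 426098) (nat_lit 1) (.e (nat_lit 164327) (nat_lit 230) (.e (nat_lit 163868) (nat_lit 2) (.e (nat_lit 196654) (nat_lit 11) (.e (nat_lit 16466) (nat_lit 13) .nil)))))) (.g (nat_lit 1) (.e (nat_lit 354813) (nat_lit 0) .nil) .nil))) 
(.lf (nat_lit 572979) (.g (nat_lit 3100) (.e (nat_lit 483363) (nat_lit 18) (.e (nat_lit 57847) (nat_lit 252) (.e (nat_lit 57375) (nat_lit 2) (.e (nat_lit 90160) (nat_lit 11) (.e (nat_lit 24628) (nat_lit 9) (.e (nat_lit 336455) (nat_lit 34) .nil)))))) (.g (nat_lit 1) (.e (nat_lit 357306) (nat_lit 0) .nil) .nil)))) (.nd (nat_lit 9) 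
(.lf (nat_lit 572723) (.g (nat_lit 1544) (.e (nat_lit 491264) (nat_lit 9) (.e (nat_lit 426320) (nat_lit 12) (.e (nat_lit 475179) (nat_lit 24) (.e (nat_lit 516120) (nat_lit 1) (.e (nat_lit 164332) (nat_lit 230) .nil))))) (.g (nat_lit 0) (.e (nat_lit 355820) (nat_lit 0) .nil) .nil))) 
(.lf (nat_lit 573235) (.g (nat_lit 1387) (.e (nat_lit 483364) (nat_lit 18) (.e (nat_lit 57929) (nat_lit 282) (.e (nat_lit 163869) (nat_lit 2) (.e (nat_lit 196673) (nat_lit 15) (.e (nat_lit 89856) (nat_lit 18) .nil))))) (.g (nat_lit 0) (.e (nat_lit 357620) (nat_lit 0) .nil) .nil))))) (.nd (nat_lit 8) (.nd (nat_lit 9) 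
(.lf (nat_lit 572595) (.g (nat_lit 3190) (.e (nat_lit 483341) (nat_lit 9) (.e (nat_lit 426106) (nat_lit 1) (.e (nat_lit 164322) (nat_lit 230) (.e (nat_lit 163868) (nat_lit 2) (.e (nat_lit 196654) (nat_lit 11) (.e (nat_lit 16466) (nat_lit 13) .nil)))))) (.g (nat_lit 1) (.e (nat_lit 355090) (nat_lit 0) .nil) .nil))) 
(.lf (nat_lit 573107) (.g (nat_lit 2105) (.e (nat_lit 483363) (nat_lit 18) (.e (nat_lit 57930) (nat_lit 282) (.e (nat_lit 163869) (nat_lit 2) (.e (nat_lit 196674) (nat_lit 15) (.e (nat_lit 89856) (nat_lit 18) .nil))))) (.g (nat_lit 1) (.e (nat_lit 357454) (nat_lit 0) .nil) .nil)))) (.nd (nat_lit 9) 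
(.lf (nat_lit 572851) (.g (nat_lit 2047) (.e (nat_lit 483362) (nat_lit 18) (.e (nat_lit 57926) (nat_lit 282) (.e (nat_lit 163867) (nat_lit 2) (.e (nat_lit 196672) (nat_lit 15) (.e (nat_lit 89856) (nat_lit 18) .nil))))) (.g (nat_lit 0) (.e (nat_lit 357119) (nat_lit 0) .nil) .nil))) 
(.lf (nat_lit 573363) (.g (nat_lit 2616) (.e (nat_lit 483365) (nat_lit 18) (.e (nat_lit 57849) (nat_lit 252) (.e (nat_lit 57368) (nat_lit 1) (.e (nat_lit 57854) (nat_lit 252) (.e (nat_lit 57389) (nat_lit 5) (.e (nat_lit 114723) (nat_lit 24) (.e (nat_lit 106509) (nat_lit 9) (.e (nat_lit 492) (nat_lit 39) .nil)))))))) (.g (nat_lit 1) (.e (nat_lit 357788) (nat_lit 0) .nil) .nil)))))) 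
(.nd (nat_lit 7) (.nd (nat_lit 8) (.nd (nat_lit 9) 
(.lf (nat_lit 572531) (.g (nat_lit 282) (.e (nat_lit 483341) (nat_lit 9) (.e (nat_lit 426098) (nat_lit 1) (.e (nat_lit 164399) (nat_lit 256) .nil))) (.g (nat_lit 0) (.e (nat_lit 354983) (nat_lit 0) .nil) .nil))) 
(.lf (nat_lit 573043) (.g (nat_lit 1682) (.e (nat_lit 483363) (nat_lit 18) (.e (nat_lit 57926) (nat_lit 282) (.e (nat_lit 163873) (nat_lit 3) (.e (nat_lit 204861) (nat_lit 26) (.e (nat_lit 336077) (nat_lit 9) .nil))))) (.g (nat_lit 0) (.e (nat_lit 357381) (nat_lit 0) .nil) .nil)))) (.nd (nat_lit 9) 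
(.lf (nat_lit 572787) (.g (nat_lit 255) (.e (nat_lit 483346) (nat_lit 17) (.e (nat_lit 6722) (nat_lit 362) (.e (nat_lit 180272) (nat_lit 26) .nil))) (.g (nat_lit 0) (.e (nat_lit 356913) (nat_lit 0) .nil) .nil))) 
(.lf (nat_lit 573299) (.g (nat_lit 3233) (.e (nat_lit 483365) (nat_lit 18) (.e (nat_lit 57846) (nat_lit 252) (.e (nat_lit 57375) (nat_lit 2) (.e (nat_lit 90160) (nat_lit 11) (.e (nat_lit 24630) (nat_lit 9) (.e (nat_lit 336456) (nat_lit 34) .nil)))))) (.g (nat_lit 1) (.e (nat_lit 357710) (nat_lit 0) .nil) .nil))))) (.nd (nat_lit 8) (.nd (nat_lit 9) 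
(.lf (nat_lit 572659) (.g (nat_lit 1215) (.e (nat_lit 483341) (nat_lit 9) (.e (nat_lit 426108) (nat_lit 1) (.e (nat_lit 164332) (nat_lit 230) (.e (nat_lit 163867) (nat_lit 2) .nil)))) (.g (nat_lit 0) (.e (nat_lit 355269) (nat_lit 0) .nil) .nil))) 
(.lf (nat_lit 573171) (.g (nat_lit 1950) (.e (nat_lit 483364) (nat_lit 18) (.e (nat_lit 57926) (nat_lit 282) (.e (nat_lit 163869) (nat_lit 2) (.e (nat_lit 196672) (nat_lit 15) (.e (nat_lit 89856) (nat_lit 18) .nil))))) (.g (nat_lit 1) (.e (nat_lit 357540) (nat_lit 0) .nil) .nil)))) (.nd (nat_lit 9) 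
(.lf (nat_lit 572915) (.g (nat_lit 3082) (.e (nat_lit 483363) (nat_lit 18) (.e (nat_lit 57691) (nat_lit 156) (.e (nat_lit 163907) (nat_lit 12) (.e (nat_lit 426428) (nat_lit 17) (.e (nat_lit 90185) (nat_lit 17) (.e (nat_lit 237623) (nat_lit 13) .nil)))))) (.g (nat_lit 1) (.e (nat_lit 357214) (nat_lit 0) .nil) .nil))) 
(.lf (nat_lit 573427) (.g (nat_lit 1888) (.e (nat_lit 483365) (nat_lit 18) (.e (nat_lit 57929) (nat_lit 282) (.e (nat_lit 163874) (nat_lit 3) (.e (nat_lit 204865) (nat_lit 28) (.e (nat_lit 360192) (nat_lit 18) .nil))))) (.g (nat_lit 1) (.e (nat_lit 357869) (nat_lit 0) .nil) .nil))))))))) (.nd (nat_lit 4) (.nd (nat_lit 5) (.nd (nat_lit 6) (.nd (nat_lit 7) (.nd (nat_lit 8) (.nd (nat_lit 9) 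
(.lf (nat_lit 572427) (.g (nat_lit 2468) (.e (nat_lit 483339) (nat_lit 9) (.e (nat_lit 426228) (nat_lit 9) (.e (nat_lit 426435) (nat_lit 18) (.e (nat_lit 98335) (nat_lit 18) (.e (nat_lit 164330) (nat_lit 230) (.e (nat_lit 163941) (nat_lit 19) .nil)))))) (.g (nat_lit 1) (.e (nat_lit 354710) (nat_lit 0) .nil) .nil))) 
(.lf (nat_lit 572939) (.g (nat_lit 2762) (.e (nat_lit 483363) (nat_lit 18) (.e (nat_lit 57847) (nat_lit 252) (.e (nat_lit 57365) (nat_lit 1) (.e (nat_lit 57854) (nat_lit 252) (.e (nat_lit 57389) (nat_lit 5) (.e (nat_lit 114722) (nat_lit 24) (.e (nat_lit 106507) (nat_lit 9) (.e (nat_lit 492) (nat_lit 39) .nil)))))))) (.g (nat_lit 1) (.e (nat_lit 357250) (nat_lit 0) .nil) .nil)))) (.nd (nat_lit 9) 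
(.lf (nat_lit 572683) (.g (nat_lit 644) (.e (nat_lit 483341) (nat_lit 9) (.e (nat_lit 426198) (nat_lit 9) (.e (nat_lit 426350) (nat_lit 15) .nil))) (.g (nat_lit 0) (.e (nat_lit 355344) (nat_lit 0) .nil) .nil))) 
(.lf (nat_lit 573195) (.g (nat_lit 685) (.e (nat_lit 483364) (nat_lit 18) (.e (nat_lit 57927) (nat_lit 282) (.e (nat_lit 163848) (nat_lit 0) (.e (nat_lit 3262) (nat_lit 198) .nil)))) (.g (nat_lit 0) (.e (nat_lit 357570) (nat_lit 0) .nil) .nil))))) (.nd (nat_lit 8) (.nd (nat_lit 9) 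
(.lf (nat_lit 572555) (.g (nat_lit 941) (.e (nat_lit 483341) (nat_lit 9) (.e (nat_lit 426100) (nat_lit 1) (.e (nat_lit 164332) (nat_lit 230) (.e (nat_lit 163867) (nat_lit 2) .nil)))) (.g (nat_lit 0) (.e (nat_lit 355034) (nat_lit 0) .nil) .nil))) 
(.lf (nat_lit 573067) (.g (nat_lit 2524) (.e (nat_lit 483363) (nat_lit 18) (.e (nat_lit 57927) (nat_lit 282) (.e (nat_lit 163866) (nat_lit 2) (.e (nat_lit 196681) (nat_lit 17) (.e (nat_lit 131105) (nat_lit 9) (.e (nat_lit 336456) (nat_lit 34) .nil)))))) (.g (nat_lit 1) (.e (nat_lit 357405) (nat_lit 0) .nil) .nil)))) (.nd (nat_lit 9) 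
(.lf (nat_lit 572811) (.g (nat_lit 1649) (.e (nat_lit 483354) (nat_lit 17) (.e (nat_lit 6674) (nat_lit 357) (.e (nat_lit 2936) (nat_lit 184) (.e (nat_lit 426532) (nat_lit 28) (.e (nat_lit 344069) (nat_lit 0) (.e (nat_lit 3090) (nat_lit 191) .nil)))))) (.g (nat_lit 1) (.e (nat_lit 357070) (nat_lit 0) .nil) .nil))) 
(.lf (nat_lit 573323) (.g (nat_lit 3420) (.e (nat_lit 483365) (nat_lit 18) (.e (nat_lit 57847) (nat_lit 252) (.e (nat_lit 57372) (nat_lit 2) (.e (nat_lit 90160) (nat_lit 11) (.e (nat_lit 24628) (nat_lit 9) (.e (nat_lit 336456) (nat_lit 34) .nil)))))) (.g (nat_lit 1) (.e (nat_lit 357740) (nat_lit 0) .nil) .nil)))))) (.nd (nat_lit 7) (.nd (nat_lit 8) (.nd (nat_lit 9) 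
(.lf (nat_lit 572491) (.g (nat_lit 2964) (.e (nat_lit 483340) (nat_lit 9) (.e (nat_lit 426107) (nat_lit 1) (.e (nat_lit 164327) (nat_lit 230) (.e (nat_lit 163868) (nat_lit 2) (.e (nat_lit 196656) (nat_lit 11) (.e (nat_lit 16463) (nat_lit 13) .nil)))))) (.g (nat_lit 1) (.e (nat_lit 354846) (nat_lit 0) .nil) .nil))) 
(.lf (nat_lit 573003) (.g (nat_lit 1314) (.e (nat_lit 483363) (nat_lit 18) (.e (nat_lit 57852) (nat_lit 252) (.e (nat_lit 57370) (nat_lit 2) (.e (nat_lit 90158) (nat_lit 11) .nil)))) (.g (nat_lit 0) (.e (nat_lit 357332) (nat_lit 0) .nil) .nil)))) (.nd (nat_lit 9) 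
(.lf (nat_lit 572747) (.g (nat_lit 689) (.e (nat_lit 491264) (nat_lit 16) (.e (nat_lit 491558) (nat_lit 10) (.e (nat_lit 344130) (nat_lit 26) .nil))) (.g (nat_lit 0) (.e (nat_lit 356285) (nat_lit 0) .nil) .nil))) 
(.lf (nat_lit 573259) (.g (nat_lit 1623) (.e (nat_lit 483364) (nat_lit 18) (.e (nat_lit 57931) (nat_lit 282) (.e (nat_lit 163873) (nat_lit 3) (.e (nat_lit 204878) (nat_lit 31) .nil)))) (.g (nat_lit 0) (.e (nat_lit 357646) (nat_lit 0) .nil) .nil))))) (.nd (nat_lit 8) (.nd (nat_lit 9) 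
(.lf (nat_lit 572619) (.g (nat_lit 295) (.e (nat_lit 483341) (nat_lit 9) (.e (nat_lit 426107) (nat_lit 1) (.e (nat_lit 164327) (nat_lit 230) .nil))) (.g (nat_lit 0) (.e (nat_lit 355171) (nat_lit 0) .nil) .nil))) 
(.lf (nat_lit 573131) (.g (nat_lit 1006) (.e (nat_lit 483364) (nat_lit 18) (.e (nat_lit 57852) (nat_lit 252) (.e (nat_lit 57373) (nat_lit 2) (.e (nat_lit 90160) (nat_lit 11) .nil)))) (.g (nat_lit 0) (.e (nat_lit 357486) (nat_lit 0) .nil) .nil)))) (.nd (nat_lit 9) 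
(.lf (nat_lit 572875) (.g (nat_lit 1771) (.e (nat_lit 483362) (nat_lit 18) (.e (nat_lit 57931) (nat_lit 282) (.e (nat_lit 163873) (nat_lit 3) (.e (nat_lit 204861) (nat_lit 26) (.e (nat_lit 336075) (nat_lit 9) .nil))))) (.g (nat_lit 0) (.e (nat_lit 357147) (nat_lit 0) .nil) .nil))) 
(.lf (nat_lit 573387) (.g (nat_lit 1021) (.e (nat_lit 483365) (nat_lit 18) (.e (nat_lit 57851) (nat_lit 252) (.e (nat_lit 57371) (nat_lit 2) (.e (nat_lit 90160) (nat_lit 11) .nil)))) (.g (nat_lit 0) (.e (nat_lit 357817) (nat_lit 0) .nil) .nil))))))) (.nd (nat_lit 6) (.nd (nat_lit 7) (.nd (nat_lit 8) (.nd (nat_lit 9) 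
(.lf (nat_lit 572459) (.g (nat_lit 2338) (.e (nat_lit 483339) (nat_lit 9) (.e (nat_lit 426318) (nat_lit 12) (.e (nat_lit 475179) (nat_lit 24) (.e (nat_lit 516120) (nat_lit 1) (.e (nat_lit 164329) (nat_lit 230) (.e (nat_lit 163941) (nat_lit 19) .nil)))))) (.g (nat_lit 1) (.e (nat_lit 354800) (nat_lit 0) .nil) .nil))) 
(.lf (nat_lit 572971) (.g (nat_lit 2859) (.e (nat_lit 483363) (nat_lit 18) (.e (nat_lit 57847) (nat_lit 252) (.e (nat_lit 57373) (nat_lit 2) (.e (nat_lit 90160) (nat_lit 11) (.e (nat_lit 24630) (nat_lit 9) (.e (nat_lit 336454) (nat_lit 34) .nil)))))) (.g (nat_lit 1) (.e (nat_lit 357294) (nat_lit 0) .nil) .nil)))) (.nd (nat_lit 9) 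
(.lf (nat_lit 572715) (.g (nat_lit 1345) (.e (nat_lit 491264) (nat_lit 9) (.e (nat_lit 426110) (nat_lit 1) (.e (nat_lit 164326) (nat_lit 230) (.e (nat_lit 163871) (nat_lit 2) .nil)))) (.g (nat_lit 0) (.e (nat_lit 355774) (nat_lit 0) .nil) .nil))) 
(.lf (nat_lit 573227) (.g (nat_lit 1492) (.e (nat_lit 483364) (nat_lit 18) (.e (nat_lit 57927) (nat_lit 282) (.e (nat_lit 163875) (nat_lit 3) (.e (nat_lit 204876) (nat_lit 31) (.e (nat_lit 384768) (nat_lit 18) .nil))))) (.g (nat_lit 1) (.e (nat_lit 357609) (nat_lit 0) .nil) .nil))))) (.nd (nat_lit 8) (.nd (nat_lit 9) 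
(.lf (nat_lit 572587) (.g (nat_lit 2497) (.e (nat_lit 483341) (nat_lit 9) (.e (nat_lit 426100) (nat_lit 1) (.e (nat_lit 164403) (nat_lit 256) (.e (nat_lit 57377) (nat_lit 3) (.e (nat_lit 98365) (nat_lit 26) (.e (nat_lit 426326) (nat_lit 13) .nil)))))) (.g (nat_lit 1) (.e (nat_lit 355074) (nat_lit 0) .nil) .nil))) 
(.lf (nat_lit 573099) (.g (nat_lit 1902) (.e (nat_lit 483363) (nat_lit 18) (.e (nat_lit 57928) (nat_lit 282) (.e (nat_lit 163871) (nat_lit 2) (.e (nat_lit 196672) (nat_lit 15) (.e (nat_lit 89856) (nat_lit 18) .nil))))) (.g (nat_lit 1) (.e (nat_lit 357446) (nat_lit 0) .nil) .nil)))) (.nd (nat_lit 9) 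
(.lf (nat_lit 572843) (.g (nat_lit 1872) (.e (nat_lit 483362) (nat_lit 18) (.e (nat_lit 57849) (nat_lit 252) (.e (nat_lit 57372) (nat_lit 2) (.e (nat_lit 90158) (nat_lit 11) (.e (nat_lit 24630) (nat_lit 9) .nil))))) (.g (nat_lit 0) (.e (nat_lit 357111) (nat_lit 0) .nil) .nil))) 
(.lf (nat_lit 573355) (.g (nat_lit 1320) (.e (nat_lit 483365) (nat_lit 18) (.e (nat_lit 57848) (nat_lit 252) (.e (nat_lit 57375) (nat_lit 2) (.e (nat_lit 90125) (nat_lit 9) .nil)))) (.g (nat_lit 0) (.e (nat_lit 357777) (nat_lit 0) .nil) .nil)))))) (.nd (nat_lit 7) (.nd (nat_lit 8) (.nd (nat_lit 9) 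
(.lf (nat_lit 572523) (.g (nat_lit 4035) (.e (nat_lit 483341) (nat_lit 9) (.e (nat_lit 426098) (nat_lit 1) (.e (nat_lit 164332) (nat_lit 230) (.e (nat_lit 163869) (nat_lit 2) (.e (nat_lit 196655) (nat_lit 11) (.e (nat_lit 16465) (nat_lit 13) .nil)))))) (.g (nat_lit 1) (.e (nat_lit 354968) (nat_lit 0) .nil) .nil))) 
(.lf (nat_lit 573035) (.g (nat_lit 2335) (.e (nat_lit 483363) (nat_lit 18) (.e (nat_lit 57926) (nat_lit 282) (.e (nat_lit 163868) (nat_lit 2) (.e (nat_lit 196672) (nat_lit 15) (.e (nat_lit 89856) (nat_lit 18) .nil))))) (.g (nat_lit 1) (.e (nat_lit 357368) (nat_lit 0) .nil) .nil)))) (.nd (nat_lit 9) 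
(.lf (nat_lit 572779) (.g (nat_lit 2801) (.e (nat_lit 483346) (nat_lit 17) (.e (nat_lit 6712) (nat_lit 360) (.e (nat_lit 163978) (nat_lit 30) (.e (nat_lit 573484) (nat_lit 13) (.e (nat_lit 65563) (nat_lit 1) .nil))))) (.g (nat_lit 0) (.e (nat_lit 356718) (nat_lit 0) .nil) .nil))) 
(.lf (nat_lit 573291) (.g (nat_lit 1339) (.e (nat_lit 483365) (nat_lit 18) (.e (nat_lit 57844) (nat_lit 252) (.e (nat_lit 57371) (nat_lit 2) (.e (nat_lit 90160) (nat_lit 11) .nil)))) (.g (nat_lit 0) (.e (nat_lit 357699) (nat_lit 0) .nil) .nil))))) (.nd (nat_lit 8) (.nd (nat_lit 9) 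
(.lf (nat_lit 572651) (.g (nat_lit 2294) (.e (nat_lit 483341) (nat_lit 9) (.e (nat_lit 426108) (nat_lit 1) (.e (nat_lit 164330) (nat_lit 230) (.e (nat_lit 163869) (nat_lit 2) (.e (nat_lit 196653) (nat_lit 11) (.e (nat_lit 16464) (nat_lit 13) .nil)))))) (.g (nat_lit 1) (.e (nat_lit 355244) (nat_lit 0) .nil) .nil))) 
(.lf (nat_lit 573163) (.g (nat_lit 1942) (.e (nat_lit 483364) (nat_lit 18) (.e (nat_lit 57926) (nat_lit 282) (.e (nat_lit 163866) (nat_lit 2) (.e (nat_lit 196681) (nat_lit 17) (.e (nat_lit 131109) (nat_lit 9) (.e (nat_lit 336456) (nat_lit 34) .nil)))))) (.g (nat_lit 1) (.e (nat_lit 357529) (nat_lit 0) .nil) .nil)))) (.nd (nat_lit 9) 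
(.lf (nat_lit 572907) (.g (nat_lit 4025) (.e (nat_lit 483363) (nat_lit 18) (.e (nat_lit 57691) (nat_lit 156) (.e (nat_lit 163905) (nat_lit 12) (.e (nat_lit 426428) (nat_lit 17) (.e (nat_lit 90170) (nat_lit 13) (.e (nat_lit 172122) (nat_lit 13) .nil)))))) (.g (nat_lit 1) (.e (nat_lit 357204) (nat_lit 0) .nil) .nil))) 
(.lf (nat_lit 573419) (.g (nat_lit 1704) (.e (nat_lit 483365) (nat_lit 18) (.e (nat_lit 57924) (nat_lit 282) (.e (nat_lit 163875) (nat_lit 3) (.e (nat_lit 204865) (nat_lit 28) (.e (nat_lit 360192) (nat_lit 18) .nil))))) (.g (nat_lit 1) (.e (nat_lit 357860) (nat_lit 0) .nil) .nil)))))))) (.nd (nat_lit 5) (.nd (nat_lit 6) (.nd (nat_lit 7) (.nd (nat_lit 8) (.nd (nat_lit 9) 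
(.lf (nat_lit 572443) (.g (nat_lit 2708) (.e (nat_lit 483339) (nat_lit 9) (.e (nat_lit 426260) (nat_lit 9) (.e (nat_lit 426435) (nat_lit 18) (.e (nat_lit 98334) (nat_lit 18) (.e (nat_lit 164330) (nat_lit 230) (.e (nat_lit 163941) (nat_lit 19) .nil)))))) (.g (nat_lit 1) (.e (nat_lit 354765) (nat_lit 0) .nil) .nil))) 
(.lf (nat_lit 572955) (.g (nat_lit 3572) (.e (nat_lit 483363) (nat_lit 18) (.e (nat_lit 57847) (nat_lit 252) (.e (nat_lit 57371) (nat_lit 2) (.e (nat_lit 90160) (nat_lit 11) (.e (nat_lit 24627) (nat_lit 9) (.e (nat_lit 336454) (nat_lit 34) .nil)))))) (.g (nat_lit 1) (.e (nat_lit 357273) (nat_lit 0) .nil) .nil)))) (.nd (nat_lit 9) 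
(.lf (nat_lit 572699) (.g (nat_lit 3331) (.e (nat_lit 483341) (nat_lit 9) (.e (nat_lit 426315) (nat_lit 12) (.e (nat_lit 475179) (nat_lit 24) (.e (nat_lit 516119) (nat_lit 1) (.e (nat_lit 164332) (nat_lit 230) (.e (nat_lit 163941) (nat_lit 19) .nil)))))) (.g (nat_lit 1) (.e (nat_lit 355689) (nat_lit 0) .nil) .nil))) 
(.lf (nat_lit 573211) (.g (nat_lit 2479) (.e (nat_lit 483364) (nat_lit 18) (.e (nat_lit 57927) (nat_lit 282) (.e (nat_lit 163873) (nat_lit 3) (.e (nat_lit 204866) (nat_lit 28) (.e (nat_lit 360192) (nat_lit 18) .nil))))) (.g (nat_lit 1) (.e (nat_lit 357592) (nat_lit 0) .nil) .nil))))) (.nd (nat_lit 8) (.nd (nat_lit 9) 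
(.lf (nat_lit 572571) (.g (nat_lit 2558) (.e (nat_lit 483341) (nat_lit 9) (.e (nat_lit 426100) (nat_lit 1) (.e (nat_lit 164398) (nat_lit 256) (.e (nat_lit 57379) (nat_lit 3) (.e (nat_lit 98363) (nat_lit 26) (.e (nat_lit 426321) (nat_lit 13) .nil)))))) (.g (nat_lit 1) (.e (nat_lit 355058) (nat_lit 0) .nil) .nil))) 
(.lf (nat_lit 573083) (.g (nat_lit 2177) (.e (nat_lit 483363) (nat_lit 18) (.e (nat_lit 57927) (nat_lit 282) (.e (nat_lit 163873) (nat_lit 3) (.e (nat_lit 204878) (nat_lit 31) (.e (nat_lit 384768) (nat_lit 18) .nil))))) (.g (nat_lit 1) (.e (nat_lit 357429) (nat_lit 0) .nil) .nil)))) (.nd (nat_lit 9) 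
(.lf (nat_lit 572827) (.g (nat_lit 2255) (.e (nat_lit 483362) (nat_lit 18) (.e (nat_lit 57688) (nat_lit 156) (.e (nat_lit 163903) (nat_lit 12) (.e (nat_lit 426428) (nat_lit 17) (.e (nat_lit 90170) (nat_lit 13) .nil))))) (.g (nat_lit 0) (.e (nat_lit 357095) (nat_lit 0) .nil) .nil))) 
(.lf (nat_lit 573339) (.g (nat_lit 1583) (.e (nat_lit 483365) (nat_lit 18) (.e (nat_lit 57848) (nat_lit 252) (.e (nat_lit 57372) (nat_lit 2) (.e (nat_lit 90124) (nat_lit 9) .nil)))) (.g (nat_lit 0) (.e (nat_lit 357759) (nat_lit 0) .nil) .nil)))))) (.nd (nat_lit 7) (.nd (nat_lit 8) (.nd (nat_lit 9) 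
(.lf (nat_lit 572507) (.g (nat_lit 2887) (.e (nat_lit 483340) (nat_lit 9) (.e (nat_lit 426188) (nat_lit 9) (.e (nat_lit 426436) (nat_lit 18) (.e (nat_lit 98335) (nat_lit 18) (.e (nat_lit 164330) (nat_lit 230) (.e (nat_lit 163943) (nat_lit 19) .nil)))))) (.g (nat_lit 1) (.e (nat_lit 354877) (nat_lit 0) .nil) .nil))) 
(.lf (nat_lit 573019) (.g (nat_lit 1237) (.e (nat_lit 483363) (nat_lit 18) (.e (nat_lit 57854) (nat_lit 252) (.e (nat_lit 57373) (nat_lit 2) (.e (nat_lit 90160) (nat_lit 11) .nil)))) (.g (nat_lit 0) (.e (nat_lit 357349) (nat_lit 0) .nil) .nil)))) (.nd (nat_lit 9) 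
(.lf (nat_lit 572763) (.g (nat_lit 485) (.e (nat_lit 483343) (nat_lit 17) (.e (nat_lit 6712) (nat_lit 360) (.e (nat_lit 163975) (nat_lit 30) .nil))) (.g (nat_lit 0) (.e (nat_lit 356324) (nat_lit 0) .nil) .nil))) 
(.lf (nat_lit 573275) (.g (nat_lit 400) (.e (nat_lit 483365) (nat_lit 18) (.e (nat_lit 57688) (nat_lit 156) (.e (nat_lit 163902) (nat_lit 12) .nil))) (.g (nat_lit 0) (.e (nat_lit 357667) (nat_lit 0) .nil) .nil))))) (.nd (nat_lit 8) (.nd (nat_lit 9) 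
(.lf (nat_lit 572635) (.g (nat_lit 1017) (.e (nat_lit 483341) (nat_lit 9) (.e (nat_lit 426107) (nat_lit 1) (.e (nat_lit 164401) (nat_lit 256) (.e (nat_lit 57373) (nat_lit 2) .nil)))) (.g (nat_lit 0) (.e (nat_lit 355212) (nat_lit 0) .nil) .nil))) 
(.lf (nat_lit 573147) (.g (nat_lit 1624) (.e (nat_lit 483364) (nat_lit 18) (.e (nat_lit 57854) (nat_lit 252) (.e (nat_lit 57373) (nat_lit 2) (.e (nat_lit 90160) (nat_lit 11) (.e (nat_lit 24638) (nat_lit 9) .nil))))) (.g (nat_lit 0) (.e (nat_lit 357511) (nat_lit 0) .nil) .nil)))) (.nd (nat_lit 9) 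
(.lf (nat_lit 572891) (.g (nat_lit 3383) (.e (nat_lit 483363) (nat_lit 18) (.e (nat_lit 57688) (nat_lit 156) (.e (nat_lit 163903) (nat_lit 12) (.e (nat_lit 426438) (nat_lit 18) (.e (nat_lit 98365) (nat_lit 26) (.e (nat_lit 426325) (nat_lit 13) .nil)))))) (.g (nat_lit 1) (.e (nat_lit 357174) (nat_lit 0) .nil) .nil))) 
(.lf (nat_lit 573403) (.g (nat_lit 2492) (.e (nat_lit 483365) (nat_lit 18) (.e (nat_lit 57854) (nat_lit 252) (.e (nat_lit 57366) (nat_lit 1) (.e (nat_lit 57854) (nat_lit 252) (.e (nat_lit 57389) (nat_lit 5) (.e (nat_lit 114723) (nat_lit 24) (.e (nat_lit 106509) (nat_lit 9) (.e (nat_lit 492) (nat_lit 39) .nil)))))))) (.g (nat_lit 1) (.e (nat_lit 357837) (nat_lit 0) .nil) .nil))))))) 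
(.nd (nat_lit 6) (.nd (nat_lit 7) (.nd (nat_lit 8) (.nd (nat_lit 9) 
(.lf (nat_lit 572475) (.g (nat_lit 1691) (.e (nat_lit 483340) (nat_lit 9) (.e (nat_lit 426100) (nat_lit 1) (.e (nat_lit 164398) (nat_lit 256) (.e (nat_lit 57373) (nat_lit 2) .nil)))) (.g (nat_lit 0) (.e (nat_lit 354825) (nat_lit 0) .nil) .nil))) 
(.lf (nat_lit 572987) (.g (nat_lit 1811) (.e (nat_lit 483363) (nat_lit 18) (.e (nat_lit 57849) (nat_lit 252) (.e (nat_lit 57372) (nat_lit 2) (.e (nat_lit 90122) (nat_lit 9) .nil)))) (.g (nat_lit 0) (.e (nat_lit 357314) (nat_lit 0) .nil) .nil)))) (.nd (nat_lit 9) 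
(.lf (nat_lit 572731) (.g (nat_lit 1285) (.e (nat_lit 491264) (nat_lit 10) (.e (nat_lit 434275) (nat_lit 39) (.e (nat_lit 663584) (nat_lit 12) (.e (nat_lit 163976) (nat_lit 30) (.e (nat_lit 573469) (nat_lit 11) .nil))))) (.g (nat_lit 0) (.e (nat_lit 355847) (nat_lit 0) .nil) .nil))) 
(.lf (nat_lit 573243) (.g (nat_lit 1770) (.e (nat_lit 483364) (nat_lit 18) (.e (nat_lit 57929) (nat_lit 282) (.e (nat_lit 163874) (nat_lit 3) (.e (nat_lit 204878) (nat_lit 31) .nil)))) (.g (nat_lit 0) (.e (nat_lit 357628) (nat_lit 0) .nil) .nil))))) (.nd (nat_lit 8) (.nd (nat_lit 9) 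
(.lf (nat_lit 572603) (.g (nat_lit 3070) (.e (nat_lit 483341) (nat_lit 9) (.e (nat_lit 426106) (nat_lit 1) (.e (nat_lit 164331) (nat_lit 230) (.e (nat_lit 163867) (nat_lit 2) (.e (nat_lit 196654) (nat_lit 11) (.e (nat_lit 16466) (nat_lit 13) .nil)))))) (.g (nat_lit 1) (.e (nat_lit 355115) (nat_lit 0) .nil) .nil))) 
(.lf (nat_lit 573115) (.g (nat_lit 2637) (.e (nat_lit 483363) (nat_lit 18) (.e (nat_lit 57931) (nat_lit 282) (.e (nat_lit 163873) (nat_lit 3) (.e (nat_lit 204866) (nat_lit 28) (.e (nat_lit 360192) (nat_lit 18) .nil))))) (.g (nat_lit 1) (.e (nat_lit 357465) (nat_lit 0) .nil) .nil)))) (.nd (nat_lit 9) 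
(.lf (nat_lit 572859) (.g (nat_lit 1315) (.e (nat_lit 483362) (nat_lit 18) (.e (nat_lit 57926) (nat_lit 282) (.e (nat_lit 163874) (nat_lit 3) (.e (nat_lit 204876) (nat_lit 31) (.e (nat_lit 384768) (nat_lit 18) .nil))))) (.g (nat_lit 1) (.e (nat_lit 357129) (nat_lit 0) .nil) .nil))) 
(.lf (nat_lit 573371) (.g (nat_lit 2455) (.e (nat_lit 483365) (nat_lit 18) (.e (nat_lit 57849) (nat_lit 252) (.e (nat_lit 57374) (nat_lit 2) (.e (nat_lit 90156) (nat_lit 11) (.e (nat_lit 24627) (nat_lit 9) .nil))))) (.g (nat_lit 0) (.e (nat_lit 357800) (nat_lit 0) .nil) .nil)))))) (.nd (nat_lit 7) (.nd (nat_lit 8) (.nd (nat_lit 9) 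
(.lf (nat_lit 572539) (.g (nat_lit 1689) (.e (nat_lit 483341) (nat_lit 9) (.e (nat_lit 426098) (nat_lit 1) (.e (nat_lit 164403) (nat_lit 256) (.e (nat_lit 57370) (nat_lit 2) .nil)))) (.g (nat_lit 0) (.e (nat_lit 354992) (nat_lit 0) .nil) .nil))) 
(.lf (nat_lit 573051) (.g (nat_lit 2156) (.e (nat_lit 483363) (nat_lit 18) (.e (nat_lit 57926) (nat_lit 282) (.e (nat_lit 163874) (nat_lit 3) (.e (nat_lit 204876) (nat_lit 31) (.e (nat_lit 384768) (nat_lit 18) .nil))))) (.g (nat_lit 1) (.e (nat_lit 357389) (nat_lit 0) .nil) .nil)))) (.nd (nat_lit 9) 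
(.lf (nat_lit 572795) (.g (nat_lit 2456) (.e (nat_lit 483350) (nat_lit 17) (.e (nat_lit 6113) (nat_lit 332) (.e (nat_lit 1374) (nat_lit 104) (.e (nat_lit 303122) (nat_lit 6) .nil)))) (.g (nat_lit 0) (.e (nat_lit 357035) (nat_lit 0) .nil) .nil))) 
(.lf (nat_lit 573307) (.g (nat_lit 2225) (.e (nat_lit 483365) (nat_lit 18) (.e (nat_lit 57847) (nat_lit 252) (.e (nat_lit 57365) (nat_lit 1) (.e (nat_lit 57854) (nat_lit 252) (.e (nat_lit 57389) (nat_lit 5) (.e (nat_lit 114722) (nat_lit 24) (.e (nat_lit 106507) (nat_lit 9) (.e (nat_lit 492) (nat_lit 39) .nil)))))))) (.g (nat_lit 1) (.e (nat_lit 357718) (nat_lit 0) .nil) .nil))))) 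
(.nd (nat_lit 8) (.nd (nat_lit 9) 
(.lf (nat_lit 572667) (.g (nat_lit 3659) (.e (nat_lit 483341) (nat_lit 9) (.e (nat_lit 426108) (nat_lit 1) (.e (nat_lit 164403) (nat_lit 256) (.e (nat_lit 57373) (nat_lit 2) (.e (nat_lit 90170) (nat_lit 13) (.e (nat_lit 172121) (nat_lit 13) .nil)))))) (.g (nat_lit 1) (.e (nat_lit 355291) (nat_lit 0) .nil) .nil))) 
(.lf (nat_lit 573179) (.g (nat_lit 1951) (.e (nat_lit 483364) (nat_lit 18) (.e (nat_lit 57926) (nat_lit 282) (.e (nat_lit 163873) (nat_lit 3) (.e (nat_lit 204865) (nat_lit 28) (.e (nat_lit 360192) (nat_lit 18) .nil))))) (.g (nat_lit 0) (.e (nat_lit 357554) (nat_lit 0) .nil) .nil)))) (.nd (nat_lit 9) 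
(.lf (nat_lit 572923) (.g (nat_lit 2356) (.e (nat_lit 483363) (nat_lit 18) (.e (nat_lit 57692) (nat_lit 156) (.e (nat_lit 163905) (nat_lit 12) (.e (nat_lit 426428) (nat_lit 17) (.e (nat_lit 90185) (nat_lit 17) (.e (nat_lit 237623) (nat_lit 13) .nil)))))) (.g (nat_lit 1) (.e (nat_lit 357228) (nat_lit 0) .nil) .nil))) 
(.lf (nat_lit 573435) (.g (nat_lit 1938) (.e (nat_lit 483365) (nat_lit 18) (.e (nat_lit 57930) (nat_lit 282) (.e (nat_lit 163869) (nat_lit 2) (.e (nat_lit 196672) (nat_lit 15) (.e (nat_lit 89856) (nat_lit 18) .nil))))) (.g (nat_lit 1) (.e (nat_lit 357877) (nat_lit 0) .nil) .nil)))))))))) 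
(.nd (nat_lit 3) (.nd (nat_lit 4) (.nd (nat_lit 5) (.nd (nat_lit 6) (.nd (nat_lit 7) 
(.nd (nat_lit 8) (.nd (nat_lit 9) 
(.lf (nat_lit 572423) (.g (nat_lit 594) (.e (nat_lit 483338) (nat_lit 9) (.e (nat_lit 426110) (nat_lit 1) (.e (nat_lit 164327) (nat_lit 230) .nil))) (.g (nat_lit 0) (.e (nat_lit 354693) (nat_lit 0) .nil) .nil))) 
(.lf (nat_lit 572935) (.g (nat_lit 1143) (.e (nat_lit 483363) (nat_lit 18) (.e (nat_lit 57846) (nat_lit 252) (.e (nat_lit 57370) (nat_lit 2) (.e (nat_lit 90158) (nat_lit 11) .nil)))) (.g (nat_lit 0) (.e (nat_lit 357244) (nat_lit 0) .nil) .nil)))) (.nd (nat_lit 9) 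
(.lf (nat_lit 572679) (.g (nat_lit 3225) (.e (nat_lit 483341) (nat_lit 9) (.e (nat_lit 426189) (nat_lit 9) (.e (nat_lit 426436) (nat_lit 18) (.e (nat_lit 98335) (nat_lit 18) (.e (nat_lit 164331) (nat_lit 230) (.e (nat_lit 163942) (nat_lit 19) .nil)))))) (.g (nat_lit 1) (.e (nat_lit 355327) (nat_lit 0) .nil) .nil))) 
(.lf (nat_lit 573191) (.g (nat_lit 1600) (.e (nat_lit 483364) (nat_lit 18) (.e (nat_lit 57926) (nat_lit 282) (.e (nat_lit 163875) (nat_lit 3) (.e (nat_lit 204867) (nat_lit 28) .nil)))) (.g (nat_lit 0) (.e (nat_lit 357566) (nat_lit 0) .nil) .nil))))) (.nd (nat_lit 8) (.nd (nat_lit 9) 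
(.lf (nat_lit 572551) (.g (nat_lit 3420) (.e (nat_lit 483341) (nat_lit 9) (.e (nat_lit 426100) (nat_lit 1) (.e (nat_lit 164330) (nat_lit 230) (.e (nat_lit 163869) (nat_lit 2) (.e (nat_lit 196653) (nat_lit 11) (.e (nat_lit 16465) (nat_lit 13) .nil)))))) (.g (nat_lit 1) (.e (nat_lit 355019) (nat_lit 0) .nil) .nil))) 
(.lf (nat_lit 573063) (.g (nat_lit 2230) (.e (nat_lit 483363) (nat_lit 18) (.e (nat_lit 57926) (nat_lit 282) (.e (nat_lit 163875) (nat_lit 3) (.e (nat_lit 204877) (nat_lit 31) (.e (nat_lit 384768) (nat_lit 18) .nil))))) (.g (nat_lit 1) (.e (nat_lit 357401) (nat_lit 0) .nil) .nil)))) (.nd (nat_lit 9) 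
(.lf (nat_lit 572807) (.g (nat_lit 2723) (.e (nat_lit 483350) (nat_lit 17) (.e (nat_lit 6666) (nat_lit 357) (.e (nat_lit 2856) (nat_lit 184) (.e (nat_lit 426533) (nat_lit 28) (.e (nat_lit 344069) (nat_lit 0) (.e (nat_lit 3090) (nat_lit 191) .nil)))))) (.g (nat_lit 1) (.e (nat_lit 357054) (nat_lit 0) .nil) .nil))) 
(.lf (nat_lit 573319) (.g (nat_lit 2772) (.e (nat_lit 483365) (nat_lit 18) (.e (nat_lit 57847) (nat_lit 252) (.e (nat_lit 57368) (nat_lit 1) (.e (nat_lit 57854) (nat_lit 252) (.e (nat_lit 57389) (nat_lit 5) (.e (nat_lit 114723) (nat_lit 24) (.e (nat_lit 106506) (nat_lit 9) (.e (nat_lit 497) (nat_lit 39) .nil)))))))) (.g (nat_lit 1) (.e (nat_lit 357732) (nat_lit 0) .nil) .nil)))))) 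
(.nd (nat_lit 7) (.nd (nat_lit 8) (.nd (nat_lit 9) 
(.lf (nat_lit 572487) (.g (nat_lit 1663) (.e (nat_lit 483340) (nat_lit 9) (.e (nat_lit 426100) (nat_lit 1) (.e (nat_lit 164403) (nat_lit 256) (.e (nat_lit 57373) (nat_lit 2) .nil)))) (.g (nat_lit 0) (.e (nat_lit 354837) (nat_lit 0) .nil) .nil))) 
(.lf (nat_lit 572999) (.g (nat_lit 3889) (.e (nat_lit 483363) (nat_lit 18) (.e (nat_lit 57849) (nat_lit 252) (.e (nat_lit 57377) (nat_lit 3) (.e (nat_lit 98317) (nat_lit 9) (.e (nat_lit 336074) (nat_lit 9) .nil))))) (.g (nat_lit 0) (.e (nat_lit 357328) (nat_lit 0) .nil) .nil)))) (.nd (nat_lit 9) 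
(.lf (nat_lit 572743) (.g (nat_lit 2134) (.e (nat_lit 491264) (nat_lit 15) (.e (nat_lit 475199) (nat_lit 40) (.e (nat_lit 704514) (nat_lit 0) (.e (nat_lit 2668) (nat_lit 167) (.e (nat_lit 196686) (nat_lit 18) .nil))))) (.g (nat_lit 0) (.e (nat_lit 356265) (nat_lit 0) .nil) .nil))) 
(.lf (nat_lit 573255) (.g (nat_lit 2024) (.e (nat_lit 483364) (nat_lit 18) (.e (nat_lit 57931) (nat_lit 282) (.e (nat_lit 163873) (nat_lit 3) (.e (nat_lit 204861) (nat_lit 26) (.e (nat_lit 336077) (nat_lit 9) .nil))))) (.g (nat_lit 0) (.e (nat_lit 357642) (nat_lit 0) .nil) .nil))))) (.nd (nat_lit 8) (.nd (nat_lit 9) 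
(.lf (nat_lit 572615) (.g (nat_lit 1994) (.e (nat_lit 483341) (nat_lit 9) (.e (nat_lit 426107) (nat_lit 1) (.e (nat_lit 164326) (nat_lit 230) (.e (nat_lit 163867) (nat_lit 2) (.e (nat_lit 196654) (nat_lit 11) (.e (nat_lit 16466) (nat_lit 13) .nil)))))) (.g (nat_lit 1) (.e (nat_lit 355156) (nat_lit 0) .nil) .nil))) 
(.lf (nat_lit 573127) (.g (nat_lit 1400) (.e (nat_lit 483364) (nat_lit 18) (.e (nat_lit 57852) (nat_lit 252) (.e (nat_lit 57371) (nat_lit 2) (.e (nat_lit 90156) (nat_lit 11) .nil)))) (.g (nat_lit 0) (.e (nat_lit 357481) (nat_lit 0) .nil) .nil)))) (.nd (nat_lit 9) 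
(.lf (nat_lit 572871) (.g (nat_lit 1315) (.e (nat_lit 483362) (nat_lit 18) (.e (nat_lit 57928) (nat_lit 282) (.e (nat_lit 163871) (nat_lit 2) (.e (nat_lit 196672) (nat_lit 15) (.e (nat_lit 89856) (nat_lit 18) .nil))))) (.g (nat_lit 0) (.e (nat_lit 357143) (nat_lit 0) .nil) .nil))) 
(.lf (nat_lit 573383) (.g (nat_lit 1957) (.e (nat_lit 483365) (nat_lit 18) (.e (nat_lit 57849) (nat_lit 252) (.e (nat_lit 57379) (nat_lit 3) (.e (nat_lit 98314) (nat_lit 9) .nil)))) (.g (nat_lit 0) (.e (nat_lit 357813) (nat_lit 0) .nil) .nil))))))) (.nd (nat_lit 6) (.nd (nat_lit 7) (.nd (nat_lit 8) (.nd (nat_lit 9) 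
(.lf (nat_lit 572455) (.g (nat_lit 2130) (.e (nat_lit 483339) (nat_lit 9) (.e (nat_lit 426262) (nat_lit 9) (.e (nat_lit 426435) (nat_lit 18) (.e (nat_lit 98334) (nat_lit 18) (.e (nat_lit 164332) (nat_lit 230) (.e (nat_lit 163941) (nat_lit 19) .nil)))))) (.g (nat_lit 1) (.e (nat_lit 354792) (nat_lit 0) .nil) .nil))) 
(.lf (nat_lit 572967) (.g (nat_lit 1735) (.e (nat_lit 483363) (nat_lit 18) (.e (nat_lit 57847) (nat_lit 252) (.e (nat_lit 57373) (nat_lit 2) (.e (nat_lit 90158) (nat_lit 11) (.e (nat_lit 24629) (nat_lit 9) .nil))))) (.g (nat_lit 0) (.e (nat_lit 357290) (nat_lit 0) .nil) .nil)))) (.nd (nat_lit 9) 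
(.lf (nat_lit 572711) (.g (nat_lit 1560) (.e (nat_lit 491264) (nat_lit 9) (.e (nat_lit 426100) (nat_lit 1) (.e (nat_lit 164332) (nat_lit 230) (.e (nat_lit 163869) (nat_lit 2) .nil)))) (.g (nat_lit 0) (.e (nat_lit 355758) (nat_lit 0) .nil) .nil))) 
(.lf (nat_lit 573223) (.g (nat_lit 2311) (.e (nat_lit 483364) (nat_lit 18) (.e (nat_lit 57927) (nat_lit 282) (.e (nat_lit 163874) (nat_lit 3) (.e (nat_lit 204878) (nat_lit 31) (.e (nat_lit 384768) (nat_lit 18) .nil))))) (.g (nat_lit 0) (.e (nat_lit 357604) (nat_lit 0) .nil) .nil))))) (.nd (nat_lit 8) (.nd (nat_lit 9) 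
(.lf (nat_lit 572583) (.g (nat_lit 1022) (.e (nat_lit 483341) (nat_lit 9) (.e (nat_lit 426100) (nat_lit 1) (.e (nat_lit 164403) (nat_lit 256) (.e (nat_lit 57373) (nat_lit 2) .nil)))) (.g (nat_lit 0) (.e (nat_lit 355070) (nat_lit 0) .nil) .nil))) 
(.lf (nat_lit 573095) (.g (nat_lit 1743) (.e (nat_lit 483363) (nat_lit 18) (.e (nat_lit 57927) (nat_lit 282) (.e (nat_lit 163875) (nat_lit 3) (.e (nat_lit 204876) (nat_lit 31) (.e (nat_lit 384768) (nat_lit 18) .nil))))) (.g (nat_lit 1) (.e (nat_lit 357442) (nat_lit 0) .nil) .nil)))) (.nd (nat_lit 9) 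
(.lf (nat_lit 572839) (.g (nat_lit 994) (.e (nat_lit 483362) (nat_lit 18) (.e (nat_lit 57847) (nat_lit 252) (.e (nat_lit 57370) (nat_lit 2) (.e (nat_lit 90158) (nat_lit 11) .nil)))) (.g (nat_lit 0) (.e (nat_lit 357107) (nat_lit 0) .nil) .nil))) 
(.lf (nat_lit 573351) (.g (nat_lit 1338) (.e (nat_lit 483365) (nat_lit 18) (.e (nat_lit 57848) (nat_lit 252) (.e (nat_lit 57374) (nat_lit 2) (.e (nat_lit 90125) (nat_lit 9) .nil)))) (.g (nat_lit 0) (.e (nat_lit 357773) (nat_lit 0) .nil) .nil)))))) (.nd (nat_lit 7) (.nd (nat_lit 8) (.nd (nat_lit 9) 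
(.lf (nat_lit 572519) (.g (nat_lit 1867) (.e (nat_lit 483341) (nat_lit 9) (.e (nat_lit 426098) (nat_lit 1) (.e (nat_lit 164330) (nat_lit 230) (.e (nat_lit 163866) (nat_lit 2) .nil)))) (.g (nat_lit 0) (.e (nat_lit 354943) (nat_lit 0) .nil) .nil))) 
(.lf (nat_lit 573031) (.g (nat_lit 1936) (.e (nat_lit 483363) (nat_lit 18) (.e (nat_lit 57925) (nat_lit 282) (.e (nat_lit 163871) (nat_lit 2) (.e (nat_lit 196672) (nat_lit 15) (.e (nat_lit 89856) (nat_lit 18) .nil))))) (.g (nat_lit 1) (.e (nat_lit 357363) (nat_lit 0) .nil) .nil)))) (.nd (nat_lit 9) 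
(.lf (nat_lit 572775) (.g (nat_lit 2744) (.e (nat_lit 483345) (nat_lit 17) (.e (nat_lit 6718) (nat_lit 361) (.e (nat_lit 172150) (nat_lit 27) (.e (nat_lit 336232) (nat_lit 14) (.e (nat_lit 401456) (nat_lit 13) .nil))))) (.g (nat_lit 1) (.e (nat_lit 356536) (nat_lit 0) .nil) .nil))) 
(.lf (nat_lit 573287) (.g (nat_lit 359) (.e (nat_lit 483365) (nat_lit 18) (.e (nat_lit 57692) (nat_lit 156) (.e (nat_lit 163907) (nat_lit 12) .nil))) (.g (nat_lit 0) (.e (nat_lit 357688) (nat_lit 0) .nil) .nil))))) (.nd (nat_lit 8) (.nd (nat_lit 9) 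
(.lf (nat_lit 572647) (.g (nat_lit 1209) (.e (nat_lit 483341) (nat_lit 9) (.e (nat_lit 426108) (nat_lit 1) (.e (nat_lit 164329) (nat_lit 230) (.e (nat_lit 163869) (nat_lit 2) .nil)))) (.g (nat_lit 0) (.e (nat_lit 355230) (nat_lit 0) .nil) .nil))) 
(.lf (nat_lit 573159) (.g (nat_lit 1782) (.e (nat_lit 483364) (nat_lit 18) (.e (nat_lit 57925) (nat_lit 282) (.e (nat_lit 163871) (nat_lit 2) (.e (nat_lit 196672) (nat_lit 15) (.e (nat_lit 89856) (nat_lit 18) .nil))))) (.g (nat_lit 1) (.e (nat_lit 357525) (nat_lit 0) .nil) .nil)))) (.nd (nat_lit 9) 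
(.lf (nat_lit 572903) (.g (nat_lit 2693) (.e (nat_lit 483363) (nat_lit 18) (.e (nat_lit 57688) (nat_lit 156) (.e (nat_lit 163907) (nat_lit 12) (.e (nat_lit 426438) (nat_lit 18) (.e (nat_lit 98362) (nat_lit 26) (.e (nat_lit 426329) (nat_lit 13) .nil)))))) (.g (nat_lit 1) (.e (nat_lit 357189) (nat_lit 0) .nil) .nil))) 
(.lf (nat_lit 573415) (.g (nat_lit 1669) (.e (nat_lit 483365) (nat_lit 18) (.e (nat_lit 57924) (nat_lit 282) (.e (nat_lit 163867) (nat_lit 2) (.e (nat_lit 196674) (nat_lit 15) (.e (nat_lit 89856) (nat_lit 18) .nil))))) (.g (nat_lit 0) (.e (nat_lit 357856) (nat_lit 0) .nil) .nil)))))))) (.nd (nat_lit 5) (.nd (nat_lit 6) (.nd (nat_lit 7) (.nd (nat_lit 8) (.nd (nat_lit 9) 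
(.lf (nat_lit 572439) (.g (nat_lit 2057) (.e (nat_lit 483339) (nat_lit 9) (.e (nat_lit 426234) (nat_lit 9) (.e (nat_lit 426435) (nat_lit 18) (.e (nat_lit 98335) (nat_lit 18) (.e (nat_lit 164332) (nat_lit 230) (.e (nat_lit 163943) (nat_lit 19) .nil)))))) (.g (nat_lit 1) (.e (nat_lit 354739) (nat_lit 0) .nil) .nil))) 
(.lf (nat_lit 572951) (.g (nat_lit 3304) (.e (nat_lit 483363) (nat_lit 18) (.e (nat_lit 57847) (nat_lit 252) (.e (nat_lit 57368) (nat_lit 1) (.e (nat_lit 57854) (nat_lit 252) (.e (nat_lit 57389) (nat_lit 5) (.e (nat_lit 114723) (nat_lit 24) (.e (nat_lit 106505) (nat_lit 9) (.e (nat_lit 492) (nat_lit 39) .nil)))))))) (.g (nat_lit 1) (.e (nat_lit 357267) (nat_lit 0) .nil) .nil)))) (.nd (nat_lit 9) 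
(.lf (nat_lit 572695) (.g (nat_lit 3781) (.e (nat_lit 483341) (nat_lit 9) (.e (nat_lit 426200) (nat_lit 9) (.e (nat_lit 426436) (nat_lit 18) (.e (nat_lit 98335) (nat_lit 18) (.e (nat_lit 164331) (nat_lit 230) (.e (nat_lit 163942) (nat_lit 19) .nil)))))) (.g (nat_lit 1) (.e (nat_lit 355510) (nat_lit 0) .nil) .nil))) 
(.lf (nat_lit 573207) (.g (nat_lit 1838) (.e (nat_lit 483364) (nat_lit 18) (.e (nat_lit 57927) (nat_lit 282) (.e (nat_lit 163871) (nat_lit 2) (.e (nat_lit 196672) (nat_lit 15) (.e (nat_lit 89856) (nat_lit 18) .nil))))) (.g (nat_lit 1) (.e (nat_lit 357588) (nat_lit 0) .nil) .nil))))) (.nd (nat_lit 8) (.nd (nat_lit 9) 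
(.lf (nat_lit 572567) (.g (nat_lit 1210) (.e (nat_lit 483341) (nat_lit 9) (.e (nat_lit 426100) (nat_lit 1) (.e (nat_lit 164398) (nat_lit 256) (.e (nat_lit 57378) (nat_lit 3) .nil)))) (.g (nat_lit 0) (.e (nat_lit 355054) (nat_lit 0) .nil) .nil))) 
(.lf (nat_lit 573079) (.g (nat_lit 1550) (.e (nat_lit 483363) (nat_lit 18) (.e (nat_lit 57927) (nat_lit 282) (.e (nat_lit 163873) (nat_lit 3) (.e (nat_lit 204861) (nat_lit 26) (.e (nat_lit 336077) (nat_lit 9) .nil))))) (.g (nat_lit 0) (.e (nat_lit 357425) (nat_lit 0) .nil) .nil)))) (.nd (nat_lit 9) 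
(.lf (nat_lit 572823) (.g (nat_lit 895) (.e (nat_lit 491264) (nat_lit 17) (.e (nat_lit 6722) (nat_lit 362) (.e (nat_lit 180272) (nat_lit 26) (.e (nat_lit 704735) (nat_lit 11) (.e (nat_lit 16465) (nat_lit 13) .nil))))) (.g (nat_lit 0) (.e (nat_lit 357090) (nat_lit 0) .nil) .nil))) 
(.lf (nat_lit 573335) (.g (nat_lit 2118) (.e (nat_lit 483365) (nat_lit 18) (.e (nat_lit 57848) (nat_lit 252) (.e (nat_lit 57368) (nat_lit 1) (.e (nat_lit 57854) (nat_lit 252) (.e (nat_lit 57389) (nat_lit 5) (.e (nat_lit 114723) (nat_lit 24) (.e (nat_lit 106509) (nat_lit 9) (.e (nat_lit 492) (nat_lit 39) .nil)))))))) (.g (nat_lit 1) (.e (nat_lit 357755) (nat_lit 0) .nil) .nil)))))) 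
(.nd (nat_lit 7) (.nd (nat_lit 8) (.nd (nat_lit 9) 
(.lf (nat_lit 572503) (.g (nat_lit 3114) (.e (nat_lit 483340) (nat_lit 9) (.e (nat_lit 426187) (nat_lit 9) (.e (nat_lit 426436) (nat_lit 18) (.e (nat_lit 98335) (nat_lit 18) (.e (nat_lit 164327) (nat_lit 230) (.e (nat_lit 163944) (nat_lit 19) .nil)))))) (.g (nat_lit 1) (.e (nat_lit 354873) (nat_lit 0) .nil) .nil))) 
(.lf (nat_lit 573015) (.g (nat_lit 2602) (.e (nat_lit 483363) (nat_lit 18) (.e (nat_lit 57854) (nat_lit 252) (.e (nat_lit 57373) (nat_lit 2) (.e (nat_lit 90133) (nat_lit 9) (.e (nat_lit 333) (nat_lit 26) .nil))))) (.g (nat_lit 0) (.e (nat_lit 357345) (nat_lit 0) .nil) .nil)))) (.nd (nat_lit 9) 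
(.lf (nat_lit 572759) (.g (nat_lit 429) (.e (nat_lit 483342) (nat_lit 17) (.e (nat_lit 6113) (nat_lit 332) (.e (nat_lit 1376) (nat_lit 104) .nil))) (.g (nat_lit 0) (.e (nat_lit 356310) (nat_lit 0) .nil) .nil))) 
(.lf (nat_lit 573271) (.g (nat_lit 2483) (.e (nat_lit 483365) (nat_lit 18) (.e (nat_lit 57687) (nat_lit 156) (.e (nat_lit 163905) (nat_lit 12) (.e (nat_lit 426438) (nat_lit 18) (.e (nat_lit 98358) (nat_lit 26) (.e (nat_lit 426323) (nat_lit 13) .nil)))))) (.g (nat_lit 1) (.e (nat_lit 357661) (nat_lit 0) .nil) .nil))))) (.nd (nat_lit 8) (.nd (nat_lit 9) 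
(.lf (nat_lit 572631) (.g (nat_lit 4174) (.e (nat_lit 483341) (nat_lit 9) (.e (nat_lit 426107) (nat_lit 1) (.e (nat_lit 164332) (nat_lit 230) (.e (nat_lit 163869) (nat_lit 2) (.e (nat_lit 196654) (nat_lit 11) (.e (nat_lit 16466) (nat_lit 13) .nil)))))) (.g (nat_lit 1) (.e (nat_lit 355205) (nat_lit 0) .nil) .nil))) 
(.lf (nat_lit 573143) (.g (nat_lit 2478) (.e (nat_lit 483364) (nat_lit 18) (.e (nat_lit 57854) (nat_lit 252) (.e (nat_lit 57373) (nat_lit 2) (.e (nat_lit 90160) (nat_lit 11) (.e (nat_lit 24624) (nat_lit 9) (.e (nat_lit 336455) (nat_lit 34) .nil)))))) (.g (nat_lit 1) (.e (nat_lit 357507) (nat_lit 0) .nil) .nil)))) (.nd (nat_lit 9) 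
(.lf (nat_lit 572887) (.g (nat_lit 2940) (.e (nat_lit 483363) (nat_lit 18) (.e (nat_lit 57688) (nat_lit 156) (.e (nat_lit 163902) (nat_lit 12) (.e (nat_lit 426438) (nat_lit 18) (.e (nat_lit 98363) (nat_lit 26) (.e (nat_lit 426321) (nat_lit 13) .nil)))))) (.g (nat_lit 1) (.e (nat_lit 357166) (nat_lit 0) .nil) .nil))) 
(.lf (nat_lit 573399) (.g (nat_lit 3627) (.e (nat_lit 483365) (nat_lit 18) (.e (nat_lit 57853) (nat_lit 252) (.e (nat_lit 57371) (nat_lit 2) (.e (nat_lit 90158) (nat_lit 11) (.e (nat_lit 24630) (nat_lit 9) (.e (nat_lit 336456) (nat_lit 34) .nil)))))) (.g (nat_lit 1) (.e (nat_lit 357832) (nat_lit 0) .nil) .nil))))))) (.nd (nat_lit 6) (.nd (nat_lit 7) (.nd (nat_lit 8) (.nd (nat_lit 9) 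
(.lf (nat_lit 572471) (.g (nat_lit 1069) (.e (nat_lit 483340) (nat_lit 9) (.e (nat_lit 426099) (nat_lit 1) (.e (nat_lit 164332) (nat_lit 230) (.e (nat_lit 163867) (nat_lit 2) (.e (nat_lit 196656) (nat_lit 11) .nil))))) (.g (nat_lit 0) (.e (nat_lit 354818) (nat_lit 0) .nil) .nil))) 
(.lf (nat_lit 572983) (.g (nat_lit 898) (.e (nat_lit 483363) (nat_lit 18) (.e (nat_lit 57847) (nat_lit 252) (.e (nat_lit 57377) (nat_lit 3) (.e (nat_lit 98315) (nat_lit 9) .nil)))) (.g (nat_lit 0) (.e (nat_lit 357310) (nat_lit 0) .nil) .nil)))) (.nd (nat_lit 9) 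
(.lf (nat_lit 572727) (.g (nat_lit 859) (.e (nat_lit 491264) (nat_lit 10) (.e (nat_lit 434212) (nat_lit 18) (.e (nat_lit 5222) (nat_lit 296) (.e (nat_lit 163871) (nat_lit 2) (.e (nat_lit 196656) (nat_lit 11) .nil))))) (.g (nat_lit 0) (.e (nat_lit 355838) (nat_lit 0) .nil) .nil))) 
(.lf (nat_lit 573239) (.g (nat_lit 1477) (.e (nat_lit 483364) (nat_lit 18) (.e (nat_lit 57929) (nat_lit 282) (.e (nat_lit 163874) (nat_lit 3) (.e (nat_lit 204865) (nat_lit 28) (.e (nat_lit 360192) (nat_lit 18) .nil))))) (.g (nat_lit 1) (.e (nat_lit 357624) (nat_lit 0) .nil) .nil))))) (.nd (nat_lit 8) (.nd (nat_lit 9) 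
(.lf (nat_lit 572599) (.g (nat_lit 2240) (.e (nat_lit 483341) (nat_lit 9) (.e (nat_lit 426106) (nat_lit 1) (.e (nat_lit 164324) (nat_lit 230) (.e (nat_lit 163871) (nat_lit 2) (.e (nat_lit 196654) (nat_lit 11) (.e (nat_lit 16466) (nat_lit 13) .nil)))))) (.g (nat_lit 1) (.e (nat_lit 355096) (nat_lit 0) .nil) .nil))) 
(.lf (nat_lit 573111) (.g (nat_lit 2279) (.e (nat_lit 483363) (nat_lit 18) (.e (nat_lit 57931) (nat_lit 282) (.e (nat_lit 163867) (nat_lit 2) (.e (nat_lit 196672) (nat_lit 15) (.e (nat_lit 89856) (nat_lit 18) .nil))))) (.g (nat_lit 1) (.e (nat_lit 357458) (nat_lit 0) .nil) .nil)))) (.nd (nat_lit 9) 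
(.lf (nat_lit 572855) (.g (nat_lit 1596) (.e (nat_lit 483362) (nat_lit 18) (.e (nat_lit 57926) (nat_lit 282) (.e (nat_lit 163871) (nat_lit 2) (.e (nat_lit 196672) (nat_lit 15) (.e (nat_lit 89856) (nat_lit 18) .nil))))) (.g (nat_lit 0) (.e (nat_lit 357123) (nat_lit 0) .nil) .nil))) 
(.lf (nat_lit 573367) (.g (nat_lit 1250) (.e (nat_lit 483365) (nat_lit 18) (.e (nat_lit 57849) (nat_lit 252) (.e (nat_lit 57372) (nat_lit 2) (.e (nat_lit 90160) (nat_lit 11) .nil)))) (.g (nat_lit 0) (.e (nat_lit 357792) (nat_lit 0) .nil) .nil)))))) (.nd (nat_lit 7) (.nd (nat_lit 8) (.nd (nat_lit 9) 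
(.lf (nat_lit 572535) (.g (nat_lit 1785) (.e (nat_lit 483341) (nat_lit 9) (.e (nat_lit 426098) (nat_lit 1) (.e (nat_lit 164399) (nat_lit 256) (.e (nat_lit 57378) (nat_lit 3) (.e (nat_lit 98362) (nat_lit 26) (.e (nat_lit 426330) (nat_lit 13) .nil)))))) (.g (nat_lit 1) (.e (nat_lit 354987) (nat_lit 0) .nil) .nil))) 
(.lf (nat_lit 573047) (.g (nat_lit 2326) (.e (nat_lit 483363) (nat_lit 18) (.e (nat_lit 57926) (nat_lit 282) (.e (nat_lit 163874) (nat_lit 3) (.e (nat_lit 204865) (nat_lit 28) (.e (nat_lit 360192) (nat_lit 18) .nil))))) (.g (nat_lit 1) (.e (nat_lit 357385) (nat_lit 0) .nil) .nil)))) (.nd (nat_lit 9) 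
(.lf (nat_lit 572791) (.g (nat_lit 2301) (.e (nat_lit 483347) (nat_lit 17) (.e (nat_lit 6684) (nat_lit 357) (.e (nat_lit 2856) (nat_lit 184) (.e (nat_lit 426533) (nat_lit 28) (.e (nat_lit 344068) (nat_lit 0) .nil))))) (.g (nat_lit 0) (.e (nat_lit 357001) (nat_lit 0) .nil) .nil))) 
(.lf (nat_lit 573303) (.g (nat_lit 1497) (.e (nat_lit 483365) (nat_lit 18) (.e (nat_lit 57846) (nat_lit 252) (.e (nat_lit 57379) (nat_lit 3) (.e (nat_lit 106240) (nat_lit 11) .nil)))) (.g (nat_lit 0) (.e (nat_lit 357714) (nat_lit 0) .nil) .nil))))) (.nd (nat_lit 8) (.nd (nat_lit 9) 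
(.lf (nat_lit 572663) (.g (nat_lit 1403) (.e (nat_lit 483341) (nat_lit 9) (.e (nat_lit 426108) (nat_lit 1) (.e (nat_lit 164401) (nat_lit 256) (.e (nat_lit 57373) (nat_lit 2) .nil)))) (.g (nat_lit 0) (.e (nat_lit 355287) (nat_lit 0) .nil) .nil))) 
(.lf (nat_lit 573175) (.g (nat_lit 1469) (.e (nat_lit 483364) (nat_lit 18) (.e (nat_lit 57926) (nat_lit 282) (.e (nat_lit 163871) (nat_lit 2) (.e (nat_lit 196673) (nat_lit 15) .nil)))) (.g (nat_lit 0) (.e (nat_lit 357548) (nat_lit 0) .nil) .nil)))) (.nd (nat_lit 9) 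
(.lf (nat_lit 572919) (.g (nat_lit 2452) (.e (nat_lit 483363) (nat_lit 18) (.e (nat_lit 57691) (nat_lit 156) (.e (nat_lit 163907) (nat_lit 12) (.e (nat_lit 426438) (nat_lit 18) (.e (nat_lit 98362) (nat_lit 26) (.e (nat_lit 426329) (nat_lit 13) .nil)))))) (.g (nat_lit 1) (.e (nat_lit 357221) (nat_lit 0) .nil) .nil))) 
(.lf (nat_lit 573431) (.g (nat_lit 1848) (.e (nat_lit 483365) (nat_lit 18) (.e (nat_lit 57929) (nat_lit 282) (.e (nat_lit 163874) (nat_lit 3) (.e (nat_lit 204877) (nat_lit 31) (.e (nat_lit 384768) (nat_lit 18) .nil))))) (.g (nat_lit 1) (.e (nat_lit 357873) (nat_lit 0) .nil) .nil))))))))) (.nd (nat_lit 4) (.nd (nat_lit 5) (.nd (nat_lit 6) (.nd (nat_lit 7) (.nd (nat_lit 8) (.nd (nat_lit 9) 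
(.lf (nat_lit 572431) (.g (nat_lit 2307) (.e (nat_lit 483339) (nat_lit 9) (.e (nat_lit 426230) (nat_lit 9) (.e (nat_lit 426435) (nat_lit 18) (.e (nat_lit 98335) (nat_lit 18) (.e (nat_lit 164330) (nat_lit 230) (.e (nat_lit 163943) (nat_lit 19) .nil)))))) (.g (nat_lit 1) (.e (nat_lit 354718) (nat_lit 0) .nil) .nil))) 
(.lf (nat_lit 572943) (.g (nat_lit 3724) (.e (nat_lit 483363) (nat_lit 18) (.e (nat_lit 57847) (nat_lit 252) (.e (nat_lit 57365) (nat_lit 1) (.e (nat_lit 57854) (nat_lit 252) (.e (nat_lit 57389) (nat_lit 5) (.e (nat_lit 114723) (nat_lit 24) (.e (nat_lit 106505) (nat_lit 9) (.e (nat_lit 497) (nat_lit 39) .nil)))))))) (.g (nat_lit 1) (.e (nat_lit 357256) (nat_lit 0) .nil) .nil)))) (.nd (nat_lit 9) 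
(.lf (nat_lit 572687) (.g (nat_lit 2519) (.e (nat_lit 483341) (nat_lit 9) (.e (nat_lit 426198) (nat_lit 9) (.e (nat_lit 426436) (nat_lit 18) (.e (nat_lit 98335) (nat_lit 18) (.e (nat_lit 164322) (nat_lit 230) (.e (nat_lit 163941) (nat_lit 19) .nil)))))) (.g (nat_lit 1) (.e (nat_lit 355353) (nat_lit 0) .nil) .nil))) 
(.lf (nat_lit 573199) (.g (nat_lit 1458) (.e (nat_lit 483364) (nat_lit 18) (.e (nat_lit 57927) (nat_lit 282) (.e (nat_lit 163867) (nat_lit 2) (.e (nat_lit 196681) (nat_lit 17) .nil)))) (.g (nat_lit 0) (.e (nat_lit 357574) (nat_lit 0) .nil) .nil))))) (.nd (nat_lit 8) (.nd (nat_lit 9) 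
(.lf (nat_lit 572559) (.g (nat_lit 4179) (.e (nat_lit 483341) (nat_lit 9) (.e (nat_lit 426100) (nat_lit 1) (.e (nat_lit 164332) (nat_lit 230) (.e (nat_lit 163869) (nat_lit 2) (.e (nat_lit 196655) (nat_lit 11) (.e (nat_lit 16465) (nat_lit 13) .nil)))))) (.g (nat_lit 1) (.e (nat_lit 355043) (nat_lit 0) .nil) .nil))) 
(.lf (nat_lit 573071) (.g (nat_lit 1882) (.e (nat_lit 483363) (nat_lit 18) (.e (nat_lit 57927) (nat_lit 282) (.e (nat_lit 163868) (nat_lit 2) (.e (nat_lit 196663) (nat_lit 13) (.e (nat_lit 65599) (nat_lit 9) (.e (nat_lit 343808) (nat_lit 34) .nil)))))) (.g (nat_lit 1) (.e (nat_lit 357409) (nat_lit 0) .nil) .nil)))) (.nd (nat_lit 9) 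
(.lf (nat_lit 572815) (.g (nat_lit 2547) (.e (nat_lit 483354) (nat_lit 17) (.e (nat_lit 6680) (nat_lit 357) (.e (nat_lit 3090) (nat_lit 191) (.e (nat_lit 483409) (nat_lit 27) (.e (nat_lit 401459) (nat_lit 13) .nil))))) (.g (nat_lit 1) (.e (nat_lit 357075) (nat_lit 0) .nil) .nil))) 
(.lf (nat_lit 573327) (.g (nat_lit 2755) (.e (nat_lit 483365) (nat_lit 18) (.e (nat_lit 57847) (nat_lit 252) (.e (nat_lit 57373) (nat_lit 2) (.e (nat_lit 90160) (nat_lit 11) (.e (nat_lit 24630) (nat_lit 9) (.e (nat_lit 336454) (nat_lit 34) .nil)))))) (.g (nat_lit 1) (.e (nat_lit 357744) (nat_lit 0) .nil) .nil)))))) (.nd (nat_lit 7) (.nd (nat_lit 8) (.nd (nat_lit 9) 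
(.lf (nat_lit 572495) (.g (nat_lit 2266) (.e (nat_lit 483340) (nat_lit 9) (.e (nat_lit 426108) (nat_lit 1) (.e (nat_lit 164330) (nat_lit 230) (.e (nat_lit 163867) (nat_lit 2) (.e (nat_lit 196656) (nat_lit 11) .nil))))) (.g (nat_lit 0) (.e (nat_lit 354858) (nat_lit 0) .nil) .nil))) 
(.lf (nat_lit 573007) (.g (nat_lit 1814) (.e (nat_lit 483363) (nat_lit 18) (.e (nat_lit 57853) (nat_lit 252) (.e (nat_lit 57373) (nat_lit 2) (.e (nat_lit 90158) (nat_lit 11) .nil)))) (.g (nat_lit 0) (.e (nat_lit 357336) (nat_lit 0) .nil) .nil)))) (.nd (nat_lit 9) 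
(.lf (nat_lit 572751) (.g (nat_lit 1225) (.e (nat_lit 491264) (nat_lit 16) (.e (nat_lit 491566) (nat_lit 12) (.e (nat_lit 385058) (nat_lit 22) .nil))) (.g (nat_lit 0) (.e (nat_lit 356293) (nat_lit 0) .nil) .nil))) 
(.lf (nat_lit 573263) (.g (nat_lit 1491) (.e (nat_lit 483364) (nat_lit 18) (.e (nat_lit 57931) (nat_lit 282) (.e (nat_lit 163874) (nat_lit 3) (.e (nat_lit 204865) (nat_lit 28) .nil)))) (.g (nat_lit 0) (.e (nat_lit 357650) (nat_lit 0) .nil) .nil))))) (.nd (nat_lit 8) (.nd (nat_lit 9) 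
(.lf (nat_lit 572623) (.g (nat_lit 3875) (.e (nat_lit 483341) (nat_lit 9) (.e (nat_lit 426107) (nat_lit 1) (.e (nat_lit 164327) (nat_lit 230) (.e (nat_lit 163868) (nat_lit 2) (.e (nat_lit 196655) (nat_lit 11) (.e (nat_lit 16465) (nat_lit 13) .nil)))))) (.g (nat_lit 1) (.e (nat_lit 355177) (nat_lit 0) .nil) .nil))) 
(.lf (nat_lit 573135) (.g (nat_lit 1499) (.e (nat_lit 483364) (nat_lit 18) (.e (nat_lit 57852) (nat_lit 252) (.e (nat_lit 57377) (nat_lit 3) (.e (nat_lit 98316) (nat_lit 9) (.e (nat_lit 336078) (nat_lit 9) .nil))))) (.g (nat_lit 0) (.e (nat_lit 357491) (nat_lit 0) .nil) .nil)))) (.nd (nat_lit 9) 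
(.lf (nat_lit 572879) (.g (nat_lit 3842) (.e (nat_lit 483363) (nat_lit 18) (.e (nat_lit 57686) (nat_lit 156) (.e (nat_lit 163903) (nat_lit 12) (.e (nat_lit 426428) (nat_lit 17) (.e (nat_lit 90170) (nat_lit 13) (.e (nat_lit 172123) (nat_lit 13) .nil)))))) (.g (nat_lit 1) (.e (nat_lit 357153) (nat_lit 0) .nil) .nil))) 
(.lf (nat_lit 573391) (.g (nat_lit 2850) (.e (nat_lit 483365) (nat_lit 18) (.e (nat_lit 57852) (nat_lit 252) (.e (nat_lit 57371) (nat_lit 2) (.e (nat_lit 90160) (nat_lit 11) (.e (nat_lit 24630) (nat_lit 9) (.e (nat_lit 336454) (nat_lit 34) .nil)))))) (.g (nat_lit 1) (.e (nat_lit 357824) (nat_lit 0) .nil) .nil))))))) (.nd (nat_lit 6) (.nd (nat_lit 7) (.nd (nat_lit 8) (.nd (nat_lit 9) 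
(.lf (nat_lit 572463) (.g (nat_lit 2523) (.e (nat_lit 483340) (nat_lit 9) (.e (nat_lit 426098) (nat_lit 1) (.e (nat_lit 164325) (nat_lit 230) (.e (nat_lit 163866) (nat_lit 2) (.e (nat_lit 196654) (nat_lit 11) .nil))))) (.g (nat_lit 0) (.e (nat_lit 354806) (nat_lit 0) .nil) .nil))) 
(.lf (nat_lit 572975) (.g (nat_lit 3103) (.e (nat_lit 483363) (nat_lit 18) (.e (nat_lit 57847) (nat_lit 252) (.e (nat_lit 57375) (nat_lit 2) (.e (nat_lit 90158) (nat_lit 11) (.e (nat_lit 24628) (nat_lit 9) (.e (nat_lit 336456) (nat_lit 34) .nil)))))) (.g (nat_lit 1) (.e (nat_lit 357298) (nat_lit 0) .nil) .nil)))) (.nd (nat_lit 9) 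
(.lf (nat_lit 572719) (.g (nat_lit 1804) (.e (nat_lit 491264) (nat_lit 9) (.e (nat_lit 426318) (nat_lit 12) (.e (nat_lit 475179) (nat_lit 24) (.e (nat_lit 516117) (nat_lit 1) (.e (nat_lit 164329) (nat_lit 230) .nil))))) (.g (nat_lit 0) (.e (nat_lit 355814) (nat_lit 0) .nil) .nil))) 
(.lf (nat_lit 573231) (.g (nat_lit 1744) (.e (nat_lit 483364) (nat_lit 18) (.e (nat_lit 57928) (nat_lit 282) (.e (nat_lit 163871) (nat_lit 2) (.e (nat_lit 196672) (nat_lit 15) (.e (nat_lit 89856) (nat_lit 18) .nil))))) (.g (nat_lit 1) (.e (nat_lit 357614) (nat_lit 0) .nil) .nil))))) (.nd (nat_lit 8) (.nd (nat_lit 9) 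
(.lf (nat_lit 572591) (.g (nat_lit 3740) (.e (nat_lit 483341) (nat_lit 9) (.e (nat_lit 426100) (nat_lit 1) (.e (nat_lit 164403) (nat_lit 256) (.e (nat_lit 57378) (nat_lit 3) (.e (nat_lit 98365) (nat_lit 26) (.e (nat_lit 426327) (nat_lit 13) .nil)))))) (.g (nat_lit 1) (.e (nat_lit 355079) (nat_lit 0) .nil) .nil))) 
(.lf (nat_lit 573103) (.g (nat_lit 1449) (.e (nat_lit 483363) (nat_lit 18) (.e (nat_lit 57929) (nat_lit 282) (.e (nat_lit 163874) (nat_lit 3) (.e (nat_lit 204866) (nat_lit 28) (.e (nat_lit 360192) (nat_lit 18) .nil))))) (.g (nat_lit 0) (.e (nat_lit 357450) (nat_lit 0) .nil) .nil)))) (.nd (nat_lit 9) 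
(.lf (nat_lit 572847) (.g (nat_lit 3218) (.e (nat_lit 483362) (nat_lit 18) (.e (nat_lit 57854) (nat_lit 252) (.e (nat_lit 57373) (nat_lit 2) (.e (nat_lit 90159) (nat_lit 11) .nil)))) (.g (nat_lit 0) (.e (nat_lit 357115) (nat_lit 0) .nil) .nil))) 
(.lf (nat_lit 573359) (.g (nat_lit 445) (.e (nat_lit 483365) (nat_lit 18) (.e (nat_lit 57849) (nat_lit 252) (.e (nat_lit 57365) (nat_lit 1) .nil))) (.g (nat_lit 0) (.e (nat_lit 357782) (nat_lit 0) .nil) .nil)))))) (.nd (nat_lit 7) (.nd (nat_lit 8) (.nd (nat_lit 9) 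
(.lf (nat_lit 572527) (.g (nat_lit 2858) (.e (nat_lit 483341) (nat_lit 9) (.e (nat_lit 426098) (nat_lit 1) (.e (nat_lit 164398) (nat_lit 256) (.e (nat_lit 57372) (nat_lit 2) (.e (nat_lit 90185) (nat_lit 17) .nil))))) (.g (nat_lit 0) (.e (nat_lit 354979) (nat_lit 0) .nil) .nil))) 
(.lf (nat_lit 573039) (.g (nat_lit 2529) (.e (nat_lit 483363) (nat_lit 18) (.e (nat_lit 57926) (nat_lit 282) (.e (nat_lit 163869) (nat_lit 2) (.e (nat_lit 196674) (nat_lit 15) (.e (nat_lit 89856) (nat_lit 18) .nil))))) (.g (nat_lit 1) (.e (nat_lit 357374) (nat_lit 0) .nil) .nil)))) (.nd (nat_lit 9) 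
(.lf (nat_lit 572783) (.g (nat_lit 1770) (.e (nat_lit 483346) (nat_lit 17) (.e (nat_lit 6718) (nat_lit 361) (.e (nat_lit 172143) (nat_lit 25) (.e (nat_lit 319490) (nat_lit 0) (.e (nat_lit 5664) (nat_lit 312) (.e (nat_lit 3078) (nat_lit 191) .nil)))))) (.g (nat_lit 1) (.e (nat_lit 356796) (nat_lit 0) .nil) .nil))) 
(.lf (nat_lit 573295) (.g (nat_lit 1365) (.e (nat_lit 483365) (nat_lit 18) (.e (nat_lit 57846) (nat_lit 252) (.e (nat_lit 57372) (nat_lit 2) (.e (nat_lit 90156) (nat_lit 11) (.e (nat_lit 24630) (nat_lit 9) .nil))))) (.g (nat_lit 0) (.e (nat_lit 357703) (nat_lit 0) .nil) .nil))))) (.nd (nat_lit 8) (.nd (nat_lit 9) 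
(.lf (nat_lit 572655) (.g (nat_lit 2547) (.e (nat_lit 483341) (nat_lit 9) (.e (nat_lit 426108) (nat_lit 1) (.e (nat_lit 164331) (nat_lit 230) (.e (nat_lit 163869) (nat_lit 2) (.e (nat_lit 196654) (nat_lit 11) .nil))))) (.g (nat_lit 0) (.e (nat_lit 355261) (nat_lit 0) .nil) .nil))) 
(.lf (nat_lit 573167) (.g (nat_lit 1995) (.e (nat_lit 483364) (nat_lit 18) (.e (nat_lit 57926) (nat_lit 282) (.e (nat_lit 163868) (nat_lit 2) (.e (nat_lit 196672) (nat_lit 15) (.e (nat_lit 89856) (nat_lit 18) .nil))))) (.g (nat_lit 1) (.e (nat_lit 357534) (nat_lit 0) .nil) .nil)))) (.nd (nat_lit 9) 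
(.lf (nat_lit 572911) (.g (nat_lit 1515) (.e (nat_lit 483363) (nat_lit 18) (.e (nat_lit 57691) (nat_lit 156) (.e (nat_lit 163906) (nat_lit 12) (.e (nat_lit 426438) (nat_lit 18) (.e (nat_lit 98363) (nat_lit 26) .nil))))) (.g (nat_lit 0) (.e (nat_lit 357210) (nat_lit 0) .nil) .nil))) 
(.lf (nat_lit 573423) (.g (nat_lit 1928) (.e (nat_lit 483365) (nat_lit 18) (.e (nat_lit 57929) (nat_lit 282) (.e (nat_lit 163869) (nat_lit 2) (.e (nat_lit 196672) (nat_lit 15) (.e (nat_lit 89856) (nat_lit 18) .nil))))) (.g (nat_lit 1) (.e (nat_lit 357865) (nat_lit 0) .nil) .nil)))))))) (.nd (nat_lit 5) (.nd (nat_lit 6) (.nd (nat_lit 7) (.nd (nat_lit 8) (.nd (nat_lit 9) 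
(.lf (nat_lit 572447) (.g (nat_lit 2159) (.e (nat_lit 483339) (nat_lit 9) (.e (nat_lit 426260) (nat_lit 9) (.e (nat_lit 426435) (nat_lit 18) (.e (nat_lit 98335) (nat_lit 18) (.e (nat_lit 164332) (nat_lit 230) (.e (nat_lit 163943) (nat_lit 19) .nil)))))) (.g (nat_lit 1) (.e (nat_lit 354775) (nat_lit 0) .nil) .nil))) 
(.lf (nat_lit 572959) (.g (nat_lit 3497) (.e (nat_lit 483363) (nat_lit 18) (.e (nat_lit 57847) (nat_lit 252) (.e (nat_lit 57372) (nat_lit 2) (.e (nat_lit 90158) (nat_lit 11) (.e (nat_lit 24630) (nat_lit 9) (.e (nat_lit 336456) (nat_lit 34) .nil)))))) (.g (nat_lit 1) (.e (nat_lit 357277) (nat_lit 0) .nil) .nil)))) (.nd (nat_lit 9) 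
(.lf (nat_lit 572703) (.g (nat_lit 1855) (.e (nat_lit 491264) (nat_lit 9) (.e (nat_lit 426098) (nat_lit 1) (.e (nat_lit 164327) (nat_lit 230) (.e (nat_lit 163868) (nat_lit 2) (.e (nat_lit 196654) (nat_lit 11) .nil))))) (.g (nat_lit 0) (.e (nat_lit 355744) (nat_lit 0) .nil) .nil))) 
(.lf (nat_lit 573215) (.g (nat_lit 2263) (.e (nat_lit 483364) (nat_lit 18) (.e (nat_lit 57927) (nat_lit 282) (.e (nat_lit 163874) (nat_lit 3) (.e (nat_lit 204861) (nat_lit 26) (.e (nat_lit 336077) (nat_lit 9) .nil))))) (.g (nat_lit 0) (.e (nat_lit 357596) (nat_lit 0) .nil) .nil))))) (.nd (nat_lit 8) (.nd (nat_lit 9) 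
(.lf (nat_lit 572575) (.g (nat_lit 1593) (.e (nat_lit 483341) (nat_lit 9) (.e (nat_lit 426100) (nat_lit 1) (.e (nat_lit 164399) (nat_lit 256) (.e (nat_lit 57372) (nat_lit 2) (.e (nat_lit 90167) (nat_lit 13) .nil))))) (.g (nat_lit 0) (.e (nat_lit 355062) (nat_lit 0) .nil) .nil))) 
(.lf (nat_lit 573087) (.g (nat_lit 1092) (.e (nat_lit 483363) (nat_lit 18) (.e (nat_lit 57927) (nat_lit 282) (.e (nat_lit 163874) (nat_lit 3) (.e (nat_lit 204875) (nat_lit 31) .nil)))) (.g (nat_lit 0) (.e (nat_lit 357434) (nat_lit 0) .nil) .nil)))) (.nd (nat_lit 9) 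
(.lf (nat_lit 572831) (.g (nat_lit 2109) (.e (nat_lit 483362) (nat_lit 18) (.e (nat_lit 57688) (nat_lit 156) (.e (nat_lit 163907) (nat_lit 12) (.e (nat_lit 426428) (nat_lit 17) .nil)))) (.g (nat_lit 0) (.e (nat_lit 357099) (nat_lit 0) .nil) .nil))) 
(.lf (nat_lit 573343) (.g (nat_lit 1340) (.e (nat_lit 483365) (nat_lit 18) (.e (nat_lit 57848) (nat_lit 252) (.e (nat_lit 57372) (nat_lit 2) (.e (nat_lit 90133) (nat_lit 9) (.e (nat_lit 7936) (nat_lit 23) .nil))))) (.g (nat_lit 0) (.e (nat_lit 357763) (nat_lit 0) .nil) .nil)))))) (.nd (nat_lit 7) (.nd (nat_lit 8) (.nd (nat_lit 9) 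
(.lf (nat_lit 572511) (.g (nat_lit 716) (.e (nat_lit 483341) (nat_lit 9) (.e (nat_lit 426011) (nat_lit 0) (.e (nat_lit 2399) (nat_lit 157) .nil))) (.g (nat_lit 0) (.e (nat_lit 354905) (nat_lit 0) .nil) .nil))) 
(.lf (nat_lit 573023) (.g (nat_lit 2441) (.e (nat_lit 483363) (nat_lit 18) (.e (nat_lit 57854) (nat_lit 252) (.e (nat_lit 57373) (nat_lit 2) (.e (nat_lit 90160) (nat_lit 11) (.e (nat_lit 24636) (nat_lit 9) (.e (nat_lit 343808) (nat_lit 34) .nil)))))) (.g (nat_lit 1) (.e (nat_lit 357353) (nat_lit 0) .nil) .nil)))) (.nd (nat_lit 9) 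
(.lf (nat_lit 572767) (.g (nat_lit 1769) (.e (nat_lit 483343) (nat_lit 17) (.e (nat_lit 6722) (nat_lit 362) (.e (nat_lit 180271) (nat_lit 26) (.e (nat_lit 704737) (nat_lit 11) (.e (nat_lit 16464) (nat_lit 13) .nil))))) (.g (nat_lit 0) (.e (nat_lit 356362) (nat_lit 0) .nil) .nil))) 
(.lf (nat_lit 573279) (.g (nat_lit 3678) (.e (nat_lit 483365) (nat_lit 18) (.e (nat_lit 57688) (nat_lit 156) (.e (nat_lit 163907) (nat_lit 12) (.e (nat_lit 426436) (nat_lit 18) (.e (nat_lit 98358) (nat_lit 26) (.e (nat_lit 426323) (nat_lit 13) .nil)))))) (.g (nat_lit 1) (.e (nat_lit 357675) (nat_lit 0) .nil) .nil))))) (.nd (nat_lit 8) (.nd (nat_lit 9) 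
(.lf (nat_lit 572639) (.g (nat_lit 2013) (.e (nat_lit 483341) (nat_lit 9) (.e (nat_lit 426107) (nat_lit 1) (.e (nat_lit 164403) (nat_lit 256) (.e (nat_lit 57377) (nat_lit 3) (.e (nat_lit 98362) (nat_lit 26) .nil))))) (.g (nat_lit 0) (.e (nat_lit 355216) (nat_lit 0) .nil) .nil))) 
(.lf (nat_lit 573151) (.g (nat_lit 1936) (.e (nat_lit 483364) (nat_lit 18) (.e (nat_lit 57854) (nat_lit 252) (.e (nat_lit 57378) (nat_lit 3) (.e (nat_lit 98335) (nat_lit 18) .nil)))) (.g (nat_lit 0) (.e (nat_lit 357517) (nat_lit 0) .nil) .nil)))) (.nd (nat_lit 9) 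
(.lf (nat_lit 572895) (.g (nat_lit 1445) (.e (nat_lit 483363) (nat_lit 18) (.e (nat_lit 57688) (nat_lit 156) (.e (nat_lit 163905) (nat_lit 12) (.e (nat_lit 426436) (nat_lit 18) .nil)))) (.g (nat_lit 0) (.e (nat_lit 357178) (nat_lit 0) .nil) .nil))) 
(.lf (nat_lit 573407) (.g (nat_lit 2187) (.e (nat_lit 483365) (nat_lit 18) (.e (nat_lit 57854) (nat_lit 252) (.e (nat_lit 57373) (nat_lit 2) (.e (nat_lit 90156) (nat_lit 11) .nil)))) (.g (nat_lit 0) (.e (nat_lit 357844) (nat_lit 0) .nil) .nil))))))) (.nd (nat_lit 6) (.nd (nat_lit 7) (.nd (nat_lit 8) (.nd (nat_lit 9) 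
(.lf (nat_lit 572479) (.g (nat_lit 2867) (.e (nat_lit 483340) (nat_lit 9) (.e (nat_lit 426100) (nat_lit 1) (.e (nat_lit 164398) (nat_lit 256) (.e (nat_lit 57379) (nat_lit 3) (.e (nat_lit 98354) (nat_lit 26) .nil))))) (.g (nat_lit 0) (.e (nat_lit 354829) (nat_lit 0) .nil) .nil))) 
(.lf (nat_lit 572991) (.g (nat_lit 3719) (.e (nat_lit 483363) (nat_lit 18) (.e (nat_lit 57849) (nat_lit 252) (.e (nat_lit 57372) (nat_lit 2) (.e (nat_lit 90158) (nat_lit 11) (.e (nat_lit 24630) (nat_lit 9) (.e (nat_lit 336456) (nat_lit 34) .nil)))))) (.g (nat_lit 1) (.e (nat_lit 357318) (nat_lit 0) .nil) .nil)))) (.nd (nat_lit 9) 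
(.lf (nat_lit 572735) (.g (nat_lit 889) (.e (nat_lit 491264) (nat_lit 10) (.e (nat_lit 434276) (nat_lit 39) (.e (nat_lit 663584) (nat_lit 12) (.e (nat_lit 163976) (nat_lit 30) .nil)))) (.g (nat_lit 0) (.e (nat_lit 355854) (nat_lit 0) .nil) .nil))) 
(.lf (nat_lit 573247) (.g (nat_lit 2880) (.e (nat_lit 483364) (nat_lit 18) (.e (nat_lit 57931) (nat_lit 282) (.e (nat_lit 163869) (nat_lit 2) (.e (nat_lit 196666) (nat_lit 13) (.e (nat_lit 65591) (nat_lit 9) .nil))))) (.g (nat_lit 0) (.e (nat_lit 357633) (nat_lit 0) .nil) .nil))))) (.nd (nat_lit 8) (.nd (nat_lit 9) 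
(.lf (nat_lit 572607) (.g (nat_lit 3270) (.e (nat_lit 483341) (nat_lit 9) (.e (nat_lit 426107) (nat_lit 1) (.e (nat_lit 164324) (nat_lit 230) (.e (nat_lit 163867) (nat_lit 2) (.e (nat_lit 196654) (nat_lit 11) (.e (nat_lit 16466) (nat_lit 13) .nil)))))) (.g (nat_lit 1) (.e (nat_lit 355123) (nat_lit 0) .nil) .nil))) 
(.lf (nat_lit 573119) (.g (nat_lit 1591) (.e (nat_lit 483363) (nat_lit 18) (.e (nat_lit 57931) (nat_lit 282) (.e (nat_lit 163874) (nat_lit 3) (.e (nat_lit 204875) (nat_lit 31) (.e (nat_lit 384768) (nat_lit 18) .nil))))) (.g (nat_lit 0) (.e (nat_lit 357469) (nat_lit 0) .nil) .nil)))) (.nd (nat_lit 9) 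
(.lf (nat_lit 572863) (.g (nat_lit 1661) (.e (nat_lit 483362) (nat_lit 18) (.e (nat_lit 57926) (nat_lit 282) (.e (nat_lit 163875) (nat_lit 3) (.e (nat_lit 204865) (nat_lit 28) (.e (nat_lit 360192) (nat_lit 18) .nil))))) (.g (nat_lit 0) (.e (nat_lit 357133) (nat_lit 0) .nil) .nil))) 
(.lf (nat_lit 573375) (.g (nat_lit 3337) (.e (nat_lit 483365) (nat_lit 18) (.e (nat_lit 57849) (nat_lit 252) (.e (nat_lit 57375) (nat_lit 2) (.e (nat_lit 90160) (nat_lit 11) (.e (nat_lit 24630) (nat_lit 9) (.e (nat_lit 336454) (nat_lit 34) .nil)))))) (.g (nat_lit 1) (.e (nat_lit 357805) (nat_lit 0) .nil) .nil)))))) (.nd (nat_lit 7) (.nd (nat_lit 8) (.nd (nat_lit 9) 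
(.lf (nat_lit 572543) (.g (nat_lit 1686) (.e (nat_lit 483341) (nat_lit 9) (.e (nat_lit 426098) (nat_lit 1) (.e (nat_lit 164403) (nat_lit 256) (.e (nat_lit 57377) (nat_lit 3) .nil)))) (.g (nat_lit 0) (.e (nat_lit 354996) (nat_lit 0) .nil) .nil))) 
(.lf (nat_lit 573055) (.g (nat_lit 2696) (.e (nat_lit 483363) (nat_lit 18) (.e (nat_lit 57926) (nat_lit 282) (.e (nat_lit 163875) (nat_lit 3) (.e (nat_lit 204859) (nat_lit 26) (.e (nat_lit 336116) (nat_lit 9) (.e (nat_lit 336453) (nat_lit 34) .nil)))))) (.g (nat_lit 1) (.e (nat_lit 357393) (nat_lit 0) .nil) .nil)))) (.nd (nat_lit 9) 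
(.lf (nat_lit 572799) (.g (nat_lit 2737) (.e (nat_lit 483350) (nat_lit 17) (.e (nat_lit 6113) (nat_lit 332) (.e (nat_lit 1374) (nat_lit 104) (.e (nat_lit 303153) (nat_lit 27) .nil)))) (.g (nat_lit 0) (.e (nat_lit 357040) (nat_lit 0) .nil) .nil))) 
(.lf (nat_lit 573311) (.g (nat_lit 2718) (.e (nat_lit 483365) (nat_lit 18) (.e (nat_lit 57847) (nat_lit 252) (.e (nat_lit 57365) (nat_lit 1) (.e (nat_lit 57854) (nat_lit 252) (.e (nat_lit 57389) (nat_lit 5) (.e (nat_lit 114723) (nat_lit 24) (.e (nat_lit 106505) (nat_lit 9) (.e (nat_lit 497) (nat_lit 39) .nil)))))))) (.g (nat_lit 1) (.e (nat_lit 357722) (nat_lit 0) .nil) .nil))))) 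
(.nd (nat_lit 8) (.nd (nat_lit 9) 
(.lf (nat_lit 572671) (.g (nat_lit 4114) (.e (nat_lit 483341) (nat_lit 9) (.e (nat_lit 426185) (nat_lit 9) (.e (nat_lit 426436) (nat_lit 18) (.e (nat_lit 98335) (nat_lit 18) (.e (nat_lit 164325) (nat_lit 230) (.e (nat_lit 163941) (nat_lit 19) .nil)))))) (.g (nat_lit 1) (.e (nat_lit 355301) (nat_lit 0) .nil) .nil))) 
(.lf (nat_lit 573183) (.g (nat_lit 1972) (.e (nat_lit 483364) (nat_lit 18) (.e (nat_lit 57926) (nat_lit 282) (.e (nat_lit 163874) (nat_lit 3) (.e (nat_lit 204867) (nat_lit 28) .nil)))) (.g (nat_lit 0) (.e (nat_lit 357558) (nat_lit 0) .nil) .nil)))) (.nd (nat_lit 9) 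
(.lf (nat_lit 572927) (.g (nat_lit 1720) (.e (nat_lit 483363) (nat_lit 18) (.e (nat_lit 57692) (nat_lit 156) (.e (nat_lit 163906) (nat_lit 12) (.e (nat_lit 426438) (nat_lit 18) (.e (nat_lit 98362) (nat_lit 26) (.e (nat_lit 426329) (nat_lit 13) .nil)))))) (.g (nat_lit 1) (.e (nat_lit 357233) (nat_lit 0) .nil) .nil))) 
(.lf (nat_lit 573439) (.g (nat_lit 2093) (.e (nat_lit 483365) (nat_lit 18) (.e (nat_lit 57930) (nat_lit 282) (.e (nat_lit 163873) (nat_lit 3) (.e (nat_lit 204866) (nat_lit 28) (.e (nat_lit 360192) (nat_lit 18) .nil))))) (.g (nat_lit 0) (.e (nat_lit 357881) (nat_lit 0) .nil) .nil)))))))))))))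


end

end Pool.Agent.Lib.MP_5854e1_co.Cz
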