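import Pool.Agent.Lib.MP_5854e1_co.DecRow

/-!
# Sparse corrections
-/

set_option autoImplicit false
set_option maxRecDepth 100000

namespace Pool.Agent.Lib.MP_5854e1_co.Cz

noncomputable section

noncomputable def tz00 : DT := (.nd (nat_lit 16) (.nd (nat_lit 15) (.nd (nat_lit 6) 
(.nd (nat_lit 4) (.nd (nat_lit 8) (.nd (nat_lit 28) (.nd (nat_lit 19) (.nd (nat_lit 10) 
(.nd (nat_lit 22) (.nd (nat_lit 18) 
(.lf (nat_lit 1140850688) (dlOf (nat_lit 1) (nat_lit 0x400200020008000002))) 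
(.lf (nat_lit 2359296) (dlOf (nat_lit 4) (nat_lit 0x1cc17000853f0003a9b4034740c005d82e000ec00000553f000429b40347010003582e0006a7e000753680676c180020008004400200180008150003)))) 
(.nd (nat_lit 20) (.lf (nat_lit 14680064) (dlOf (nat_lit 1) (nat_lit 0x20018770001))) 
(.lf (nat_lit 15728640) (dlOf (nat_lit 1) (nat_lit 0x40028820001))))) (.nd (nat_lit 9) 
(.nd (nat_lit 7) (.lf (nat_lit 4362077184) (dlOf (nat_lit 1) (nat_lit 0x180028002881))) 
(.lf (nat_lit 3422557312) (dlOf (nat_lit 2) (nat_lit 0x180b0003e2040008004001c0008009502)))) 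
(.nd (nat_lit 12) 
(.lf (nat_lit 5435819648) (dlOf (nat_lit 2) (nat_lit 0xf01800004c080020008001400200020008003983))) 
(.lf (nat_lit 2281707136) (dlOf (nat_lit 1) (nat_lit 0x2000400060018009d82)))))) (.nd (nat_lit 18) 
(.nd (nat_lit 7) (.nd (nat_lit 21) 
(.lf (nat_lit 13107200) (dlOf (nat_lit 1) (nat_lit 0x20028700001))) 
(.lf (nat_lit 2621440) (dlOf (nat_lit 1) (nat_lit 0x80028180001)))) 
(.lf (nat_lit 28835968) (dlOf (nat_lit 1) (nat_lit 0x400200020008da0482)))) (.nd (nat_lit 20) 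
(.nd (nat_lit 21) (.lf (nat_lit 2819358720) (dlOf (nat_lit 2) (nat_lit 0x1202000033018250000))) 
(.lf (nat_lit 15466496) (dlOf (nat_lit 1) (nat_lit 0x400287f0001)))) 
(.lf (nat_lit 31195136) (dlOf (nat_lit 1) (nat_lit 0x80018e70001)))))) (.nd (nat_lit 27) 
(.nd (nat_lit 18) (.nd (nat_lit 19) (.nd (nat_lit 10) 
(.lf (nat_lit 1344274432) (dlOf (nat_lit 1) (nat_lit 0x20008560001))) 
(.lf (nat_lit 1342184448) (dlOf (nat_lit 1) (nat_lit 0x40020002000800bf02)))) (.nd (nat_lit 9) 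
(.nd (nat_lit 20) (.lf (nat_lit 1881669632) (dlOf (nat_lit 1) (nat_lit 0x80028fc0001))) 
(.lf (nat_lit 1343750144) (dlOf (nat_lit 1) (nat_lit 0x40028360001)))) 
(.lf (nat_lit 1345847808) (dlOf (nat_lit 1) (nat_lit 0x58002000a0008e07b02))))) (.nd (nat_lit 10) 
(.nd (nat_lit 19) (.lf (nat_lit 4563664896) (dlOf (nat_lit 1) (nat_lit 0x600280c0001))) 
(.lf (nat_lit 3557556224) (dlOf (nat_lit 3) (nat_lit 0x50070000c02c0054b820058037802608080160008003c00200400008260003)))) 
(.nd (nat_lit 9) 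
(.lf (nat_lit 3557037056) (dlOf (nat_lit 1) (nat_lit 0x4800800d000200680008129203))) 
(.lf (nat_lit 6174279168) (dlOf (nat_lit 1) (nat_lit 0x1600080d3681)))))) (.nd (nat_lit 26) 
(.nd (nat_lit 7) (.nd (nat_lit 18) 
(.lf (nat_lit 2013265920) (dlOf (nat_lit 1) (nat_lit 0x400200020008000002))) 
(.lf (nat_lit 4697882624) (dlOf (nat_lit 1) (nat_lit 0x600280c0001)))) 
(.lf (nat_lit 4160754816) (dlOf (nat_lit 1) (nat_lit 0xc00400100018009502)))) (.nd (nat_lit 7) 
(.nd (nat_lit 9) (.nd (nat_lit 18) 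
(.lf (nat_lit 471859200) (dlOf (nat_lit 1) (nat_lit 0x20008540001))) 
(.lf (nat_lit 2080636928) (dlOf (nat_lit 1) (nat_lit 0x80080004002000200080a0003)))) 
(.lf (nat_lit 469766656) (dlOf (nat_lit 1) (nat_lit 0xc0028008681)))) 
(.lf (nat_lit 469764224) (dlOf (nat_lit 1) (nat_lit 0x40028004781))))))) (.nd (nat_lit 11) 
(.nd (nat_lit 10) (.nd (nat_lit 20) (.nd (nat_lit 18) (.nd (nat_lit 26) 
(.lf (nat_lit 1342701824) (dlOf (nat_lit 1) (nat_lit 0x800180c0481))) 
(.lf (nat_lit 470286592) (dlOf (nat_lit 1) (nat_lit 0x800180c0481)))) (.nd (nat_lit 22) 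
(.lf (nat_lit 3154379008) (dlOf (nat_lit 1) (nat_lit 0x400200020008160702))) 
(.lf (nat_lit 46399744) (dlOf (nat_lit 2) (nat_lit 0x1348c000b2819380a80))))) (.nd (nat_lit 7) 
(.nd (nat_lit 18) (.nd (nat_lit 19) 
(.lf (nat_lit 1048832) (dlOf (nat_lit 1) (nat_lit 0xe0028067a81))) 
(.lf (nat_lit 1345847552) (dlOf (nat_lit 4) (nat_lit 0x142d8001214f000407b8001a018005053c000c1ee0006604001014f000307b8000001003d0008012800200100008e02b03)))) 
(.lf (nat_lit 41156864) (dlOf (nat_lit 1) (nat_lit 0xa80080034002001a0009222b03)))) 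
(.lf (nat_lit 19927424) (dlOf (nat_lit 1) (nat_lit 0x8002000200089d8382))))) (.nd (nat_lit 12) 
(.nd (nat_lit 7) (.nd (nat_lit 26) 
(.lf (nat_lit 536872704) (dlOf (nat_lit 1) (nat_lit 0x88008003800200140008003b83))) 
(.lf (nat_lit 201328384) (dlOf (nat_lit 2) (nat_lit 0xe041000201e80011c100168008008000200180008003b83)))) 
(.lf (nat_lit 1140852096) (dlOf (nat_lit 1) (nat_lit 0x80028003581)))) (.nd (nat_lit 7) 
(.nd (nat_lit 9) (.lf (nat_lit 3422557440) (dlOf (nat_lit 1) (nat_lit 0x440018009581))) 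
(.lf (nat_lit 603985664) (dlOf (nat_lit 1) (nat_lit 0x2002800a001)))) 
(.lf (nat_lit 8132480) (dlOf (nat_lit 1) (nat_lit 0x800800040020002000851a303)))))) 
(.nd (nat_lit 9) (.nd (nat_lit 12) (.nd (nat_lit 7) 
(.lf (nat_lit 2751465728) (dlOf (nat_lit 1) (nat_lit 0x80028004b81))) (.nd (nat_lit 18) 
(.lf (nat_lit 49809792) (dlOf (nat_lit 1) (nat_lit 0x2e00194c4e81))) 
(.lf (nat_lit 3489925504) (dlOf (nat_lit 1) (nat_lit 0x20028004e81))))) (.nd (nat_lit 26) 
(.nd (nat_lit 10) (.lf (nat_lit 1879054720) (dlOf (nat_lit 1) (nat_lit 0x40040002000800af82))) 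
(.lf (nat_lit 671096192) (dlOf (nat_lit 1) (nat_lit 0x380080010002000a000800c903)))) 
(.nd (nat_lit 27) 
(.lf (nat_lit 67115392) (dlOf (nat_lit 1) (nat_lit 0x1000800040020002000800af83))) 
(.lf (nat_lit 3690994048) (dlOf (nat_lit 1) (nat_lit 0x1000800040020002000800af83)))))) 
(.nd (nat_lit 7) (.nd (nat_lit 10) (.nd (nat_lit 20) 
(.lf (nat_lit 40372992) (dlOf (nat_lit 1) (nat_lit 0x200291f5a81))) 
(.lf (nat_lit 49810176) (dlOf (nat_lit 1) (nat_lit 0x1200294c5a81)))) 
(.lf (nat_lit 603983616) (dlOf (nat_lit 1) (nat_lit 0x20008007481)))) (.nd (nat_lit 10) 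
(.nd (nat_lit 20) (.lf (nat_lit 4899212160) (dlOf (nat_lit 1) (nat_lit 0x200080d5c01))) 
(.lf (nat_lit 20188032) (dlOf (nat_lit 1) (nat_lit 0x4002000200089d5c02)))) 
(.lf (nat_lit 3690991488) (dlOf (nat_lit 1) (nat_lit 0x8008000400200020008007783)))))))) 
(.nd (nat_lit 18) (.nd (nat_lit 10) (.nd (nat_lit 20) (.nd (nat_lit 9) (.nd (nat_lit 7) 
(.nd (nat_lit 19) 
(.lf (nat_lit 23068688) (dlOf (nat_lit 3) (nat_lit 0x629844005eb10024e4b080f0a57808541fc03d6000000208600fe6110057ac4002bd54201f495e00c607f00508000000761800d800400220018b50102))) 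
(.nd (nat_lit 22) (.lf (nat_lit 19398672) (dlOf (nat_lit 1) (nat_lit 0x8008000400200020008990a03))) 
(.lf (nat_lit 15204368) (dlOf (nat_lit 2) (nat_lit 0xfe3500023408018000801b4002003200087c0483))))) 
(.nd (nat_lit 27) (.lf (nat_lit 3490187664) (dlOf (nat_lit 1) (nat_lit 0x20018004e81))) 
(.lf (nat_lit 1476921744) (dlOf (nat_lit 1) (nat_lit 0x4000082d4e81))))) (.nd (nat_lit 7) 
(.nd (nat_lit 8) (.nd (nat_lit 11) 
(.lf (nat_lit 1476399632) (dlOf (nat_lit 1) (nat_lit 0x6900080424002023c0008008683))) 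
(.lf (nat_lit 1543510544) (dlOf (nat_lit 1) (nat_lit 0x380080010002000a000800b283)))) 
(.lf (nat_lit 6643782416) (dlOf (nat_lit 1) (nat_lit 0x20018008f81)))) (.nd (nat_lit 26) 
(.lf (nat_lit 2952794768) (dlOf (nat_lit 1) (nat_lit 0x400400020008008c82))) 
(.lf (nat_lit 603984528) (dlOf (nat_lit 1) (nat_lit 0x8008000400200020008008c83)))))) 
(.nd (nat_lit 21) (.nd (nat_lit 25) (.nd (nat_lit 9) 
(.lf (nat_lit 9437200) (dlOf (nat_lit 2) (nat_lit 0x221a8003a8080020008000400200020008550483))) 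
(.lf (nat_lit 2752512528) (dlOf (nat_lit 6) (nat_lit 0x4c080004bc0200140660064020000b0074009740c014c080004b102006a0400025801005402000129c0800f8008018000200160008018403)))) 
(.nd (nat_lit 7) (.lf (nat_lit 59768848) (dlOf (nat_lit 1) (nat_lit 0x400200020009830282))) 
(.lf (nat_lit 47186064) (dlOf (nat_lit 1) (nat_lit 0x680080004002000e00093b1003))))) 
(.nd (nat_lit 28) (.nd (nat_lit 19) 
(.lf (nat_lit 11534352) (dlOf (nat_lit 1) (nat_lit 0x8008010c002002200086b0283))) 
(.lf (nat_lit 2755133456) (dlOf (nat_lit 2) (nat_lit 0x60670027d018110480)))) (.nd (nat_lit 8) 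
(.lf (nat_lit 3493330960) (dlOf (nat_lit 2) (nat_lit 0x606700547818110480))) 
(.lf (nat_lit 1345847568) (dlOf (nat_lit 5) (nat_lit 0xc2d80002006000070200020b60000340800183ec001000c0000c0400120fb000b0030000001004f0008005000200060008e03b03))))))) 
(.nd (nat_lit 7) (.nd (nat_lit 26) (.nd (nat_lit 8) (.nd (nat_lit 21) 
(.lf (nat_lit 50332688) (dlOf (nat_lit 1) (nat_lit 0x3000294c2881))) 
(.lf (nat_lit 56624144) (dlOf (nat_lit 1) (nat_lit 0x20019732881)))) (.nd (nat_lit 9) 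
(.lf (nat_lit 1344800016) (dlOf (nat_lit 3) (nat_lit 0x105b8000e00800080000002e04002000200020008983002))) 
(.lf (nat_lit 2952795920) (dlOf (nat_lit 1) (nat_lit 0xa800800100020006000800a003))))) 
(.nd (nat_lit 19) (.nd (nat_lit 11) 
(.lf (nat_lit 4362077200) (dlOf (nat_lit 1) (nat_lit 0x16e0028002881))) 
(.lf (nat_lit 872418320) (dlOf (nat_lit 2) (nat_lit 0x280e0000ac04002400200040008005f82)))) 
(.nd (nat_lit 31) (.lf (nat_lit 604505104) (dlOf (nat_lit 1) (nat_lit 0xc200082d2881))) 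
(.lf (nat_lit 2751988752) (dlOf (nat_lit 1) (nat_lit 0x400200020008002882)))))) (.nd (nat_lit 12) 
(.nd (nat_lit 9) (.nd (nat_lit 26) 
(.lf (nat_lit 134221200) (dlOf (nat_lit 1) (nat_lit 0x400400020008006c82))) 
(.lf (nat_lit 4227861904) (dlOf (nat_lit 1) (nat_lit 0x400400020008006c82)))) (.nd (nat_lit 27) 
(.lf (nat_lit 603983760) (dlOf (nat_lit 1) (nat_lit 0x8008000400200020008007783))) 
(.lf (nat_lit 469766032) (dlOf (nat_lit 1) (nat_lit 0x400400020008007782))))) (.nd (nat_lit 8) 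
(.nd (nat_lit 9) (.lf (nat_lit 2617250960) (dlOf (nat_lit 1) (nat_lit 0x400400020008009502))) 
(.lf (nat_lit 2214598288) (dlOf (nat_lit 1) (nat_lit 0x1800400140008009e82)))) (.nd (nat_lit 11) 
(.lf (nat_lit 603985296) (dlOf (nat_lit 1) (nat_lit 0x20028009901))) 
(.lf (nat_lit 3489668496) (dlOf (nat_lit 1) (nat_lit 0x80040004000800c982)))))))) (.nd (nat_lit 10) 
(.nd (nat_lit 22) (.nd (nat_lit 26) (.nd (nat_lit 23) (.nd (nat_lit 20) (.nd (nat_lit 28) 
(.lf (nat_lit 537133072) (dlOf (nat_lit 1) (nat_lit 0x4800400020018020482))) 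
(.lf (nat_lit 1879310352) (dlOf (nat_lit 1) (nat_lit 0x188008029000200f600080d0683)))) 
(.lf (nat_lit 1310736) (dlOf (nat_lit 1) (nat_lit 0x200180b0481)))) (.nd (nat_lit 19) 
(.nd (nat_lit 21) (.lf (nat_lit 25427984) (dlOf (nat_lit 1) (nat_lit 0xe0028c00101))) 
(.lf (nat_lit 10747920) (dlOf (nat_lit 2) (nat_lit 0x18aea0015c02000a0008620481)))) 
(.lf (nat_lit 27000848) (dlOf (nat_lit 1) (nat_lit 0x40028ca0481))))) (.nd (nat_lit 30) 
(.nd (nat_lit 7) 
(.lf (nat_lit 1006895120) (dlOf (nat_lit 1) (nat_lit 0x188008029000200f600080d0683))) 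
(.lf (nat_lit 335806608) (dlOf (nat_lit 1) (nat_lit 0x8004000600080a2802)))) (.nd (nat_lit 8) 
(.nd (nat_lit 19) (.lf (nat_lit 1409548304) (dlOf (nat_lit 1) (nat_lit 0x4800400020018020482))) 
(.lf (nat_lit 3557556240) (dlOf (nat_lit 3) (nat_lit 0x45811801e00380005f0400de046003200e000018100220008020800200780008260203)))) 
(.lf (nat_lit 3557038352) (dlOf (nat_lit 11) (nat_lit 0x60220002f010005011000170080008190004c0c2001406000050228001502000a018400280c0000c0450002983000702280078088000a2080028044000500200360610012030000500880008a0c0004044000440200040220002101000b0110000f408007800800980020008000812aa83)))))) 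
(.nd (nat_lit 21) (.nd (nat_lit 24) (.nd (nat_lit 7) 
(.lf (nat_lit 12845072) (dlOf (nat_lit 6) (nat_lit 0x5d4940006a280001404000352500002810001a9280001008001d49400069300000304000b5250003a8a0000d260000040c006c004006e00186e0502))) 
(.lf (nat_lit 46402448) (dlOf (nat_lit 2) (nat_lit 0x18b410068d7ec000e408001c00200240009385c82)))) 
(.nd (nat_lit 19) (.lf (nat_lit 63176720) (dlOf (nat_lit 1) (nat_lit 0x4004000200099f0282))) 
(.lf (nat_lit 21757968) (dlOf (nat_lit 1) (nat_lit 0x60028a70481))))) (.nd (nat_lit 19) 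
(.nd (nat_lit 8) (.lf (nat_lit 41157136) (dlOf (nat_lit 1) (nat_lit 0x7800400140019227b82))) 
(.lf (nat_lit 41156880) (dlOf (nat_lit 5) (nat_lit 0x16738003b2c80001c0800059ce0000d02000ccb200006010012659000000080218008007400200460009223b03)))) 
(.nd (nat_lit 20) 
(.lf (nat_lit 15466512) (dlOf (nat_lit 1) (nat_lit 0x500080048002003e00087f0183))) 
(.lf (nat_lit 8126480) (dlOf (nat_lit 1) (nat_lit 0x8008001000200080008510003))))))) 
(.nd (nat_lit 8) (.nd (nat_lit 11) (.nd (nat_lit 9) (.nd (nat_lit 19) 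
(.lf (nat_lit 1610875920) (dlOf (nat_lit 1) (nat_lit 0x60028092881))) 
(.lf (nat_lit 36439056) (dlOf (nat_lit 1) (nat_lit 0x20019072881)))) 
(.lf (nat_lit 5234755088) (dlOf (nat_lit 1) (nat_lit 0x4002000400080d3682)))) (.nd (nat_lit 20) 
(.lf (nat_lit 5771627536) (dlOf (nat_lit 1) (nat_lit 0x8008001400200020008005f83))) 
(.lf (nat_lit 60034064) (dlOf (nat_lit 2) (nat_lit 0x229a0000ac04000400400020009845f82))))) 
(.nd (nat_lit 7) (.nd (nat_lit 19) 
(.lf (nat_lit 1346635024) (dlOf (nat_lit 2) (nat_lit 0x815f00013018fe3000))) 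
(.lf (nat_lit 69993744) (dlOf (nat_lit 2) (nat_lit 0x1e10f0001c018e63000)))) (.nd (nat_lit 19) 
(.lf (nat_lit 2751727504) (dlOf (nat_lit 2) (nat_lit 0x202200001c04000400200020008004202))) 
(.lf (nat_lit 2752251792) (dlOf (nat_lit 1) (nat_lit 0x120008004201))))))))) (.nd (nat_lit 28) 
(.nd (nat_lit 18) (.nd (nat_lit 26) (.nd (nat_lit 11) (.nd (nat_lit 8) (.nd (nat_lit 19) 
(.nd (nat_lit 10) (.nd (nat_lit 20) 
(.lf (nat_lit 16777296) (dlOf (nat_lit 2) (nat_lit 0x5e578031087e0005f04000200188e0201))) 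
(.lf (nat_lit 13631568) (dlOf (nat_lit 1) (nat_lit 0x400200260008730d02)))) 
(.lf (nat_lit 4966057040) (dlOf (nat_lit 1) (nat_lit 0x8008000400200020008002883)))) 
(.nd (nat_lit 20) (.lf (nat_lit 48758864) (dlOf (nat_lit 1) (nat_lit 0x1c00200120009420702))) 
(.lf (nat_lit 3670096) (dlOf (nat_lit 1) (nat_lit 0x20028210f81))))) (.nd (nat_lit 7) 
(.nd (nat_lit 9) (.lf (nat_lit 1360) (dlOf (nat_lit 1) (nat_lit 0xe0028003301))) (.nd (nat_lit 27) 
(.lf (nat_lit 2684355408) (dlOf (nat_lit 1) (nat_lit 0x20028002481))) 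
(.lf (nat_lit 2281702224) (dlOf (nat_lit 2) (nat_lit 0x804c002602400019028002480))))) 
(.nd (nat_lit 4) (.lf (nat_lit 42992064) (dlOf (nat_lit 1) (nat_lit 0x200292a1081))) 
(.lf (nat_lit 42992080) (dlOf (nat_lit 1) (nat_lit 0x800192a1101)))))) (.nd (nat_lit 7) 
(.nd (nat_lit 21) (.nd (nat_lit 8) 
(.lf (nat_lit 4429187152) (dlOf (nat_lit 1) (nat_lit 0x400400020008004702))) 
(.lf (nat_lit 5368712016) (dlOf (nat_lit 1) (nat_lit 0x400400020008005c02)))) (.nd (nat_lit 19) 
(.lf (nat_lit 31459920) (dlOf (nat_lit 1) (nat_lit 0x400400020008e95282))) 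
(.lf (nat_lit 54004304) (dlOf (nat_lit 1) (nat_lit 0x2680080004002003400095f5283))))) 
(.nd (nat_lit 12) (.lf (nat_lit 3280) (dlOf (nat_lit 1) (nat_lit 0x6c00200100008006402))) 
(.nd (nat_lit 27) (.lf (nat_lit 4294974672) (dlOf (nat_lit 1) (nat_lit 0x100040002000800c282))) 
(.lf (nat_lit 134225104) (dlOf (nat_lit 1) (nat_lit 0x800800040020002000800c283))))))) 
(.nd (nat_lit 31) (.nd (nat_lit 32) (.nd (nat_lit 4) (.nd (nat_lit 27) 
(.lf (nat_lit 1678245952) (dlOf (nat_lit 1) (nat_lit 0x28008001c002000600081b0d03))) 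
(.lf (nat_lit 201850944) (dlOf (nat_lit 3) (nat_lit 0x140760002002011a03b0000b0180a0d00)))) 
(.nd (nat_lit 7) 
(.lf (nat_lit 68157520) (dlOf (nat_lit 6) (nat_lit 0x2a07100011010011000000074080020000000380400500000001802000c00000005818400700))) 
(.lf (nat_lit 603984080) (dlOf (nat_lit 1) (nat_lit 0x8008000400200020008008083))))) 
(.nd (nat_lit 8) (.nd (nat_lit 11) 
(.lf (nat_lit 4362600528) (dlOf (nat_lit 1) (nat_lit 0x4780080004002006c00080a0f83))) 
(.nd (nat_lit 12) (.lf (nat_lit 4362078288) (dlOf (nat_lit 1) (nat_lit 0x400400020008004702))) 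
(.lf (nat_lit 4362082384) (dlOf (nat_lit 1) (nat_lit 0x400040002000800a702))))) 
(.lf (nat_lit 5033167696) (dlOf (nat_lit 1) (nat_lit 0x400400020008005c02))))) (.nd (nat_lit 4) 
(.nd (nat_lit 7) (.nd (nat_lit 9) 
(.lf (nat_lit 2755133504) (dlOf (nat_lit 2) (nat_lit 0x330340019010800cc046006401e00004048110780))) 
(.lf (nat_lit 3422552640) (dlOf (nat_lit 1) (nat_lit 0xc00400020018001582)))) 
(.lf (nat_lit 2885688512) (dlOf (nat_lit 1) (nat_lit 0x40040002000800c202)))) (.nd (nat_lit 7) 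
(.nd (nat_lit 10) (.lf (nat_lit 2214593360) (dlOf (nat_lit 1) (nat_lit 0x1000400020008002482))) 
(.lf (nat_lit 2751465296) (dlOf (nat_lit 1) (nat_lit 0x80008000400200020008003f03)))) 
(.nd (nat_lit 9) 
(.lf (nat_lit 3288341712) (dlOf (nat_lit 1) (nat_lit 0x2800800100020002000800c283))) 
(.lf (nat_lit 3422552784) (dlOf (nat_lit 1) (nat_lit 0x20028002001)))))))) (.nd (nat_lit 4) 
(.nd (nat_lit 7) (.nd (nat_lit 8) (.nd (nat_lit 19) 
(.lf (nat_lit 1310784) (dlOf (nat_lit 1) (nat_lit 0xc00280b0781))) (.nd (nat_lit 21) 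
(.lf (nat_lit 21758016) (dlOf (nat_lit 6) (nat_lit 0x14400000012810078ec58029726002200000002306005e000000100100240000000600801a80000000a040004002001a0008a70782))) 
(.lf (nat_lit 2754347072) (dlOf (nat_lit 2) (nat_lit 0x100000007d02000400180d0b81))))) 
(.nd (nat_lit 9) (.nd (nat_lit 10) 
(.lf (nat_lit 2752774464) (dlOf (nat_lit 1) (nat_lit 0x20028048601))) 
(.lf (nat_lit 2818839872) (dlOf (nat_lit 1) (nat_lit 0x8008022c00200440008129903)))) 
(.nd (nat_lit 10) (.lf (nat_lit 20187968) (dlOf (nat_lit 1) (nat_lit 0x4002000200089d5c02))) 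
(.lf (nat_lit 264000) (dlOf (nat_lit 1) (nat_lit 0x10008000800200140008003e03)))))) 
(.nd (nat_lit 8) (.nd (nat_lit 19) 
(.lf (nat_lit 2818841280) (dlOf (nat_lit 1) (nat_lit 0x48008007c0020048000812b983))) 
(.lf (nat_lit 19667648) (dlOf (nat_lit 1) (nat_lit 0x4002000200089db982)))) (.nd (nat_lit 10) 
(.lf (nat_lit 23331264) (dlOf (nat_lit 2) (nat_lit 0x600000000018b80880))) (.nd (nat_lit 19) 
(.lf (nat_lit 2818840000) (dlOf (nat_lit 2) (nat_lit 0x540000001802001a0008129a01))) 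
(.lf (nat_lit 67900864) (dlOf (nat_lit 1) (nat_lit 0x8008000800200020008339a03))))))) 
(.nd (nat_lit 7) (.nd (nat_lit 21) (.nd (nat_lit 9) (.nd (nat_lit 26) 
(.lf (nat_lit 134479952) (dlOf (nat_lit 4) (nat_lit 0x70000000a404004000000047020020041000e01f8000001000300080040002001e0008031003))) 
(.lf (nat_lit 201588816) (dlOf (nat_lit 4) (nat_lit 0x700000009604004000000040020020041000e01f8000001000300080040002001e0008031003)))) 
(.lf (nat_lit 1610876496) (dlOf (nat_lit 1) (nat_lit 0x400200020008093882)))) (.nd (nat_lit 8) 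
(.nd (nat_lit 9) (.lf (nat_lit 2754347088) (dlOf (nat_lit 1) (nat_lit 0x200180d0d01))) 
(.lf (nat_lit 8132176) (dlOf (nat_lit 1) (nat_lit 0x18008000c00200040008519c03)))) 
(.lf (nat_lit 23331152) (dlOf (nat_lit 1) (nat_lit 0x1000200020008b80602))))) (.nd (nat_lit 8) 
(.nd (nat_lit 11) (.nd (nat_lit 20) 
(.lf (nat_lit 19661520) (dlOf (nat_lit 1) (nat_lit 0x380080034002001400089d2003))) 
(.lf (nat_lit 8127184) (dlOf (nat_lit 2) (nat_lit 0xab84b005abf10000c81000a8008004400200040008512003)))) 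
(.lf (nat_lit 57412304) (dlOf (nat_lit 2) (nat_lit 0x4676800088080020008004400200120009795883)))) 
(.nd (nat_lit 9) (.nd (nat_lit 10) 
(.lf (nat_lit 786896) (dlOf (nat_lit 1) (nat_lit 0x3d800200700008017b02))) 
(.lf (nat_lit 2818840016) (dlOf (nat_lit 2) (nat_lit 0x4003000780000004008009c002000a0008129b02)))) 
(.nd (nat_lit 11) (.lf (nat_lit 2752251856) (dlOf (nat_lit 1) (nat_lit 0xe0008004501))) 
(.lf (nat_lit 67899344) (dlOf (nat_lit 1) (nat_lit 0x380018337a81))))))))) (.nd (nat_lit 11) 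
(.nd (nat_lit 18) (.nd (nat_lit 10) (.nd (nat_lit 27) (.nd (nat_lit 4) (.nd (nat_lit 7) 
(.lf (nat_lit 3493331008) (dlOf (nat_lit 2) (nat_lit 0x330340019010800cc046006401e00004048110780))) 
(.lf (nat_lit 2952794816) (dlOf (nat_lit 1) (nat_lit 0x8a0008008c81)))) 
(.lf (nat_lit 1342702032) (dlOf (nat_lit 1) (nat_lit 0x32400180c0a01)))) (.nd (nat_lit 7) 
(.lf (nat_lit 4228382800) (dlOf (nat_lit 1) (nat_lit 0x4780080004002006c00080a0f83))) 
(.nd (nat_lit 8) 
(.lf (nat_lit 1476399312) (dlOf (nat_lit 1) (nat_lit 0x8008000400200020008008083))) 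
(.lf (nat_lit 470286800) (dlOf (nat_lit 1) (nat_lit 0x32400180c0a01)))))) (.nd (nat_lit 27) 
(.nd (nat_lit 8) (.nd (nat_lit 9) 
(.lf (nat_lit 4630512720) (dlOf (nat_lit 1) (nat_lit 0x20028002881))) 
(.lf (nat_lit 335545936) (dlOf (nat_lit 1) (nat_lit 0x20028003881)))) 
(.lf (nat_lit 4093642064) (dlOf (nat_lit 1) (nat_lit 0x20028003301)))) (.nd (nat_lit 4) 
(.lf (nat_lit 5773460800) (dlOf (nat_lit 1) (nat_lit 0x5a00080e3281))) (.nd (nat_lit 9) 
(.lf (nat_lit 3690992720) (dlOf (nat_lit 1) (nat_lit 0x400400020008009302))) 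
(.lf (nat_lit 4160755280) (dlOf (nat_lit 1) (nat_lit 0x8008000400200020008009c03))))))) 
(.nd (nat_lit 4) (.nd (nat_lit 26) (.nd (nat_lit 19) 
(.lf (nat_lit 402915392) (dlOf (nat_lit 1) (nat_lit 0x200280a1581))) (.nd (nat_lit 20) 
(.lf (nat_lit 3492544576) (dlOf (nat_lit 2) (nat_lit 0x100000007d02000400180d0b81))) 
(.lf (nat_lit 5773197376) (dlOf (nat_lit 12) (nat_lit 0x442640007402036213f04a30990001c81002204c8000e00400102740188132002205080530000000de10005426400024020080132000110100750990000840801484c8000400401202640001f0201681320000e01005e09900006c080100008023c002003600080b0503))))) 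
(.nd (nat_lit 7) (.nd (nat_lit 8) 
(.lf (nat_lit 6377177152) (dlOf (nat_lit 12) (nat_lit 0x442460007402036213204a30918001c810022048c000e00400102560188123002205000530000000de100054246000240200801230001101007509180008408014848c000400401202460001f0201681230000e01005e09180006c080100008023c002003600080b0503))) 
(.lf (nat_lit 3557036352) (dlOf (nat_lit 2) (nat_lit 0x10070000b8080008008001400200140008128203)))) 
(.lf (nat_lit 1410078656) (dlOf (nat_lit 3) (nat_lit 0x8077005760100040000000000800700080024002002000080fa603))))) 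
(.nd (nat_lit 9) (.nd (nat_lit 7) (.nd (nat_lit 21) 
(.lf (nat_lit 1342963792) (dlOf (nat_lit 1) (nat_lit 0x2000200020008121602))) 
(.lf (nat_lit 3492544592) (dlOf (nat_lit 1) (nat_lit 0x200180d0d01)))) 
(.lf (nat_lit 5772149200) (dlOf (nat_lit 1) (nat_lit 0x20028091101)))) (.nd (nat_lit 26) 
(.lf (nat_lit 5234755152) (dlOf (nat_lit 1) (nat_lit 0x37000802e8002015000080d3883))) 
(.lf (nat_lit 6375605840) (dlOf (nat_lit 1) (nat_lit 0x20028003881))))))) (.nd (nat_lit 7) 
(.nd (nat_lit 8) (.nd (nat_lit 27) (.nd (nat_lit 4) 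
(.lf (nat_lit 3489664064) (dlOf (nat_lit 1) (nat_lit 0x1c0028006081))) (.nd (nat_lit 12) 
(.lf (nat_lit 1345325648) (dlOf (nat_lit 1) (nat_lit 0x400400020008b55282))) 
(.lf (nat_lit 3557038672) (dlOf (nat_lit 1) (nat_lit 0xb000800240020008000812b683))))) 
(.nd (nat_lit 4) (.lf (nat_lit 3623880768) (dlOf (nat_lit 1) (nat_lit 0x400400020008004702))) 
(.nd (nat_lit 26) (.lf (nat_lit 3623880784) (dlOf (nat_lit 1) (nat_lit 0x20018004701))) 
(.lf (nat_lit 1006635088) (dlOf (nat_lit 1) (nat_lit 0x8008000400200020008004703)))))) 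
(.nd (nat_lit 9) (.nd (nat_lit 26) (.nd (nat_lit 4) 
(.lf (nat_lit 1879055680) (dlOf (nat_lit 1) (nat_lit 0x2001800c901))) 
(.lf (nat_lit 3490188624) (dlOf (nat_lit 2) (nat_lit 0x241b600140ab00008028006a00)))) 
(.nd (nat_lit 29) (.lf (nat_lit 1409289552) (dlOf (nat_lit 2) (nat_lit 0x3800600008018006a00))) 
(.lf (nat_lit 1946160464) (dlOf (nat_lit 2) (nat_lit 0x4800e00008018006a00))))) (.nd (nat_lit 10) 
(.nd (nat_lit 26) (.lf (nat_lit 6710889296) (dlOf (nat_lit 1) (nat_lit 0x400400020008005c02))) 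
(.lf (nat_lit 4764732240) (dlOf (nat_lit 1) (nat_lit 0x400400020008005c02)))) 
(.lf (nat_lit 2952793936) (dlOf (nat_lit 2) (nat_lit 0x1601c00254018007780)))))) (.nd (nat_lit 26) 
(.nd (nat_lit 4) (.nd (nat_lit 9) 
(.lf (nat_lit 3623880896) (dlOf (nat_lit 1) (nat_lit 0x60018004901))) 
(.lf (nat_lit 1879051968) (dlOf (nat_lit 1) (nat_lit 0x8008000400200020008007283)))) 
(.nd (nat_lit 9) (.nd (nat_lit 27) 
(.lf (nat_lit 1879055568) (dlOf (nat_lit 1) (nat_lit 0x1f800801080020084000800c283))) 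
(.lf (nat_lit 2550144208) (dlOf (nat_lit 1) (nat_lit 0x40040002000800c282)))) 
(.lf (nat_lit 1476922064) (dlOf (nat_lit 1) (nat_lit 0xc002001e00082d5882))))) (.nd (nat_lit 10) 
(.nd (nat_lit 4) (.lf (nat_lit 3690994112) (dlOf (nat_lit 1) (nat_lit 0x2002800af81))) 
(.lf (nat_lit 3557038288) (dlOf (nat_lit 1) (nat_lit 0xe002812a881)))) (.nd (nat_lit 29) 
(.nd (nat_lit 30) 
(.lf (nat_lit 2483035344) (dlOf (nat_lit 1) (nat_lit 0x800800040020002000800c283))) 
(.lf (nat_lit 1409293520) (dlOf (nat_lit 1) (nat_lit 0x40040002000800c282)))) (.nd (nat_lit 27) 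
(.lf (nat_lit 1946164432) (dlOf (nat_lit 1) (nat_lit 0x800800040020002000800c283))) 
(.lf (nat_lit 4227865808) (dlOf (nat_lit 1) (nat_lit 0x40040004000800c282))))))))))) 
(.nd (nat_lit 6) (.nd (nat_lit 4) (.nd (nat_lit 18) (.nd (nat_lit 7) (.nd (nat_lit 19) 
(.nd (nat_lit 8) (.nd (nat_lit 10) 
(.lf (nat_lit 10518528) (dlOf (nat_lit 1) (nat_lit 0x3400085e0001))) (.nd (nat_lit 11) 
(.lf (nat_lit 1342215168) (dlOf (nat_lit 2) (nat_lit 0x682380000004002400400080008009202))) 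
(.lf (nat_lit 19958784) (dlOf (nat_lit 2) (nat_lit 0x58060002c02000200189d5f01))))) 
(.nd (nat_lit 9) (.lf (nat_lit 2751498496) (dlOf (nat_lit 1) (nat_lit 0xc0028004b81))) 
(.nd (nat_lit 10) (.lf (nat_lit 6039831296) (dlOf (nat_lit 1) (nat_lit 0x40028002101))) 
(.lf (nat_lit 469796608) (dlOf (nat_lit 1) (nat_lit 0x20018003b81)))))) (.nd (nat_lit 22) 
(.nd (nat_lit 20) (.nd (nat_lit 23) 
(.lf (nat_lit 2654208) (dlOf (nat_lit 1) (nat_lit 0x1c00200060008180002))) 
(.lf (nat_lit 11042816) (dlOf (nat_lit 2) (nat_lit 0x5584b00000018660000)))) (.nd (nat_lit 8) 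
(.lf (nat_lit 9994240) (dlOf (nat_lit 2) (nat_lit 0x65a3b001dcee003a101000280080038002001a00085a0003))) 
(.lf (nat_lit 1345880320) (dlOf (nat_lit 5) (nat_lit 0x42a4000c0f700110490001a01800183dc0018124000660400020920003201000107b80048248000000802d000400080008e02b02))))) 
(.nd (nat_lit 8) (.nd (nat_lit 21) 
(.lf (nat_lit 55083008) (dlOf (nat_lit 1) (nat_lit 0x24004001a00096a0002))) 
(.lf (nat_lit 48791552) (dlOf (nat_lit 1) (nat_lit 0xc0029430001)))) 
(.lf (nat_lit 57182976) (dlOf (nat_lit 1) (nat_lit 0xc004000a0009795a82)))))) (.nd (nat_lit 8) 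
(.nd (nat_lit 10) (.nd (nat_lit 9) (.nd (nat_lit 26) 
(.lf (nat_lit 1476434048) (dlOf (nat_lit 3) (nat_lit 0x4700880295c0801f8044014ac04003c004009e000800a882))) 
(.lf (nat_lit 3691026560) (dlOf (nat_lit 2) (nat_lit 0x5000000000008003800800040020042000800a883)))) 
(.lf (nat_lit 19960448) (dlOf (nat_lit 1) (nat_lit 0x4002000200089d8b02)))) (.nd (nat_lit 26) 
(.nd (nat_lit 27) 
(.lf (nat_lit 2684393088) (dlOf (nat_lit 2) (nat_lit 0x600340011804000c00400220008009d82))) 
(.lf (nat_lit 2281739904) (dlOf (nat_lit 1) (nat_lit 0x400400280008009d82)))) 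
(.lf (nat_lit 67147392) (dlOf (nat_lit 1) (nat_lit 0x1e0008009d81))))) (.nd (nat_lit 10) 
(.nd (nat_lit 9) (.lf (nat_lit 37259648) (dlOf (nat_lit 1) (nat_lit 0x200190d4e81))) 
(.lf (nat_lit 19958656) (dlOf (nat_lit 1) (nat_lit 0x4002000200089d5c02)))) (.nd (nat_lit 21) 
(.nd (nat_lit 27) (.lf (nat_lit 268469632) (dlOf (nat_lit 1) (nat_lit 0x1000400020018053582))) 
(.lf (nat_lit 4966090112) (dlOf (nat_lit 1) (nat_lit 0x80018003581)))) 
(.lf (nat_lit 4095772032) (dlOf (nat_lit 1) (nat_lit 0x20008000c002000600080e3583))))))) 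
(.nd (nat_lit 21) (.nd (nat_lit 26) (.nd (nat_lit 29) (.nd (nat_lit 8) (.nd (nat_lit 20) 
(.nd (nat_lit 25) (.lf (nat_lit 1208254464) (dlOf (nat_lit 1) (nat_lit 0x4004000200080b0002))) 
(.lf (nat_lit 33849344) (dlOf (nat_lit 1) (nat_lit 0x1a800800b8002004a0008f60003)))) 
(.lf (nat_lit 30703616) (dlOf (nat_lit 1) (nat_lit 0x120008e40001)))) (.nd (nat_lit 7) 
(.lf (nat_lit 46432512) (dlOf (nat_lit 1) (nat_lit 0x20019380a81))) 
(.lf (nat_lit 3489958272) (dlOf (nat_lit 1) (nat_lit 0x400200020008004e82))))) (.nd (nat_lit 27) 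
(.nd (nat_lit 30) 
(.lf (nat_lit 2953084928) (dlOf (nat_lit 3) (nat_lit 0xc0140061101000100a00306c0801000080010002001c00080f0003))) 
(.lf (nat_lit 4026826752) (dlOf (nat_lit 3) (nat_lit 0x601b0025080800300d80128004002000400080018090002)))) 
(.nd (nat_lit 7) 
(.lf (nat_lit 2819391488) (dlOf (nat_lit 2) (nat_lit 0x30000029ac0800c000800e8002005a0008250003))) 
(.lf (nat_lit 1745125504) (dlOf (nat_lit 1) (nat_lit 0x4004000200080a2002)))))) (.nd (nat_lit 27) 
(.nd (nat_lit 19) (.nd (nat_lit 7) 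
(.lf (nat_lit 3288629248) (dlOf (nat_lit 3) (nat_lit 0x601b0037980800300d801bc804002000400080018090002))) 
(.lf (nat_lit 4899244928) (dlOf (nat_lit 1) (nat_lit 0x4002000200080d5c02)))) (.nd (nat_lit 20) 
(.lf (nat_lit 3557588992) (dlOf (nat_lit 2) (nat_lit 0x70328015e4080020008000400200060008270003))) 
(.lf (nat_lit 4095508480) (dlOf (nat_lit 1) (nat_lit 0x68004000800080d0002))))) (.nd (nat_lit 30) 
(.nd (nat_lit 20) (.lf (nat_lit 2617540608) (dlOf (nat_lit 1) (nat_lit 0x200080e0001))) 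
(.lf (nat_lit 471105536) (dlOf (nat_lit 2) (nat_lit 0x1c0fc00a7e0200520008270001)))) 
(.nd (nat_lit 29) 
(.lf (nat_lit 3691282432) (dlOf (nat_lit 2) (nat_lit 0x20080015e4080018008002400200040008110003))) 
(.lf (nat_lit 2080669696) (dlOf (nat_lit 1) (nat_lit 0x4004000200080b0002))))))) (.nd (nat_lit 8) 
(.nd (nat_lit 19) (.nd (nat_lit 20) (.nd (nat_lit 23) 
(.lf (nat_lit 2392064) (dlOf (nat_lit 1) (nat_lit 0x40008150001))) 
(.lf (nat_lit 44335104) (dlOf (nat_lit 1) (nat_lit 0x200292f0001)))) 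
(.lf (nat_lit 24412160) (dlOf (nat_lit 1) (nat_lit 0x1060008b90001)))) (.nd (nat_lit 10) 
(.lf (nat_lit 11304960) (dlOf (nat_lit 1) (nat_lit 0x20028690001))) 
(.lf (nat_lit 54299648) (dlOf (nat_lit 1) (nat_lit 0x20029655f01))))) (.nd (nat_lit 9) 
(.nd (nat_lit 7) (.lf (nat_lit 20224256) (dlOf (nat_lit 1) (nat_lit 0x4002000200089da982))) 
(.lf (nat_lit 36473216) (dlOf (nat_lit 1) (nat_lit 0x60019074e81)))) (.nd (nat_lit 10) 
(.lf (nat_lit 20220800) (dlOf (nat_lit 1) (nat_lit 0x4002000200089d5c02))) 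
(.lf (nat_lit 8165248) (dlOf (nat_lit 1) (nat_lit 0x40020002000851a302)))))))) (.nd (nat_lit 19) 
(.nd (nat_lit 7) (.nd (nat_lit 28) (.nd (nat_lit 18) (.nd (nat_lit 10) (.nd (nat_lit 20) 
(.lf (nat_lit 23101456) (dlOf (nat_lit 3) (nat_lit 0x334f58002a578000820800200000003b0200040028b50101))) 
(.lf (nat_lit 2752544784) (dlOf (nat_lit 3) (nat_lit 0x4248000950100021240003680802d0008009800200ce0008020483)))) 
(.nd (nat_lit 8) (.nd (nat_lit 22) 
(.lf (nat_lit 2818608144) (dlOf (nat_lit 5) (nat_lit 0x500500018018000ac08005400c000530200100380002881000a00000004c0801d8008000c00200160008005f83))) 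
(.lf (nat_lit 54561808) (dlOf (nat_lit 1) (nat_lit 0x20029655f81)))) 
(.lf (nat_lit 201361168) (dlOf (nat_lit 3) (nat_lit 0x4601e80008c0800c80f40004404007400400100008003c02))))) 
(.nd (nat_lit 20) (.nd (nat_lit 21) (.nd (nat_lit 22) 
(.lf (nat_lit 671383568) (dlOf (nat_lit 28) (nat_lit 0x1a40460068020011d00980358024006400001daa0a00ba023002b0100081804c0138012000200000ed40500670128056008800b4040000401f00ed304006b012805f8088002404001da406008e02500010000076801001f0094004004401d9e04012802500ec80100980128075e808048009403ab40402b404a01d580200da02500ea681002f01280753008023809403a9204002c04a00ce01300ea402000c009807518080280088007002601d4404004402b007601280750c100450094009402601d3f04012002500e6b8100ae012802d0088039a208019005601bc70200a602b0004012806f181007a80ac03744040048056001c02500d9b020034012806cc808004008c005404000de40401180250009011000000104a90008000400200020008170883))) 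
(.lf (nat_lit 2755952656) (dlOf (nat_lit 1) (nat_lit 0x6600081c0681)))) 
(.lf (nat_lit 44335120) (dlOf (nat_lit 5) (nat_lit 0x2731780121850008cbf80001406000262f000090100053178000140800418bc000cc280000404002200192f0101)))) 
(.nd (nat_lit 21) (.lf (nat_lit 18120720) (dlOf (nat_lit 1) (nat_lit 0xc00400020018910a02))) 
(.nd (nat_lit 22) (.lf (nat_lit 62160912) (dlOf (nat_lit 1) (nat_lit 0x20029960001))) 
(.lf (nat_lit 24412176) (dlOf (nat_lit 1) (nat_lit 0x57800806e4002027a0008b90683))))))) 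
(.nd (nat_lit 27) (.nd (nat_lit 18) (.nd (nat_lit 8) 
(.lf (nat_lit 3490742288) (dlOf (nat_lit 3) (nat_lit 0x4230000dd8100021180005ac0802d0008009800200ce0008020483))) 
(.lf (nat_lit 1342216464) (dlOf (nat_lit 8) (nat_lit 0x203f0001600800081f80009e0400340fc0004e02001c07e0002681000403f00011808000827400440fc000a02a0002283000d03f0000f40800a000800b0002000e000800aa83)))) 
(.nd (nat_lit 20) (.nd (nat_lit 22) 
(.lf (nat_lit 1879343120) (dlOf (nat_lit 8) (nat_lit 0xfe05800f802b8001015400080a401bc0070000a85000702b8000500802f8338000260400500bc003c05b007b02c0076815c0f680a8069805103d90270008812002e801c002a002000028a000c02f0009016c01f00b001dc05703d902a01a601440f6809c000e048000b0010000104807b815c0f5c0a8066a05103da02700000c20079815c0f7c0a8066805103db0270000082003c800805f400213fa00080e0503))) 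
(.lf (nat_lit 3494150160) (dlOf (nat_lit 1) (nat_lit 0x6600081c0681)))) 
(.lf (nat_lit 1343520784) (dlOf (nat_lit 1) (nat_lit 0x8008000400200020008290283))))) 
(.nd (nat_lit 29) (.nd (nat_lit 10) 
(.lf (nat_lit 1543798800) (dlOf (nat_lit 28) (nat_lit 0x1a40460068020011d00980358024006400001a450a00ba023002b0100081804c0138012000200000d218500670128056008800b4040000401f00d2084006b012805f8088002404001a3f06008e02500010000068ec1001f0094004004401a3904013002500d14810094012806888080480094033e80402b404a019f302005e02500cf881006d0128067c0080238094033da040030026019e302001602500670098067841002800880070026019df04004402b00760128067701004500940094026019da04012002500cb90100ae012802d0088032d60801900560184e0200a602b00040128061341007a80ac03062040048056001c02500c0602003401280602408004008c0054040009400401180250009011000000104a90008000400200020008170883))) 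
(.lf (nat_lit 473992208) (dlOf (nat_lit 2) (nat_lit 0x422e0005602000c0009005f81)))) 
(.nd (nat_lit 26) (.lf (nat_lit 4161044496) (dlOf (nat_lit 1) (nat_lit 0x200280d0481))) 
(.lf (nat_lit 1006927888) (dlOf (nat_lit 8) (nat_lit 0xfe05800f802b8001015400080a401bc0030000a05000702b80004c0802f8310000240400500bc003c05b007b02c0076815c0f680a8069805103d90270008812002e8016002a002000028a000c02f0009016c01f00b001dc05703d902a01a601440f6809c000e048000b0010000104807b815c0f5c0a8066a05103da02700000c20079815c0f7c0a8066805103db0270000082003c800805f400213fa00080e0503))))))) 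
(.nd (nat_lit 8) (.nd (nat_lit 12) (.nd (nat_lit 9) (.nd (nat_lit 10) 
(.lf (nat_lit 17072272) (dlOf (nat_lit 1) (nat_lit 0x4004000200088e0482))) 
(.lf (nat_lit 671124624) (dlOf (nat_lit 1) (nat_lit 0x80018006201)))) (.nd (nat_lit 10) 
(.lf (nat_lit 5167418000) (dlOf (nat_lit 1) (nat_lit 0x6a0028055501))) 
(.lf (nat_lit 201361040) (dlOf (nat_lit 1) (nat_lit 0x298008014c00200200008003a83))))) 
(.nd (nat_lit 9) (.lf (nat_lit 134257808) (dlOf (nat_lit 1) (nat_lit 0x77c004060c000800c202))) 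
(.nd (nat_lit 26) (.nd (nat_lit 27) 
(.lf (nat_lit 2684393104) (dlOf (nat_lit 8) (nat_lit 0x2c01c000a00000017820021007000f00000005c08008c01c00380000001682000400700040000000140800b00000000602003000e0000101001e007000c80000000008000400400560018009e82))) 
(.lf (nat_lit 2281739920) (dlOf (nat_lit 3) (nat_lit 0x100a0001004c000250400040280004013000090100050008001800200080008009e83)))) 
(.lf (nat_lit 6643816080) (dlOf (nat_lit 4) (nat_lit 0x2c06a0018034000d0000000641800300d40020068000e0000000903000401a800280d00014000000000600020018009e81)))))) 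
(.nd (nat_lit 11) (.nd (nat_lit 10) (.nd (nat_lit 12) 
(.lf (nat_lit 4026827152) (dlOf (nat_lit 2) (nat_lit 0x805c00ce00200060028090781))) 
(.lf (nat_lit 67146128) (dlOf (nat_lit 1) (nat_lit 0x40018008381)))) (.nd (nat_lit 9) 
(.nd (nat_lit 26) (.lf (nat_lit 5502961040) (dlOf (nat_lit 1) (nat_lit 0x400200040008003602))) 
(.lf (nat_lit 4630545808) (dlOf (nat_lit 1) (nat_lit 0x20008006800200100008003603)))) 
(.lf (nat_lit 4429219728) (dlOf (nat_lit 1) (nat_lit 0x400200020008004202))))) (.nd (nat_lit 21) 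
(.nd (nat_lit 9) (.lf (nat_lit 6241159568) (dlOf (nat_lit 1) (nat_lit 0x20008004e81))) 
(.lf (nat_lit 2080410512) (dlOf (nat_lit 2) (nat_lit 0x2006000174080010008002c00200020008005c83)))) 
(.nd (nat_lit 20) (.lf (nat_lit 56658320) (dlOf (nat_lit 1) (nat_lit 0x20009734e81))) 
(.lf (nat_lit 2754644368) (dlOf (nat_lit 1) (nat_lit 0x200180f4e81)))))))) (.nd (nat_lit 21) 
(.nd (nat_lit 18) (.nd (nat_lit 28) (.nd (nat_lit 26) (.nd (nat_lit 22) 
(.lf (nat_lit 2819129360) (dlOf (nat_lit 7) (nat_lit 0x740d400ab602004a06a001a03480048c1000581a800180d20012104002c06a00088810012035000881a4001ba0800480d4001c03600070110000001800380080208002000c00081a0483))) 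
(.lf (nat_lit 55083024) (dlOf (nat_lit 6) (nat_lit 0x3025800149278000560800049600002a0200044b000014810005258800912c0001893c0001b0600104b1001525800019278000340c00b4004005200196a0102)))) 
(.nd (nat_lit 27) 
(.lf (nat_lit 1678278672) (dlOf (nat_lit 6) (nat_lit 0x16408800014020018052004e0168000805c000220c010405a0001002000c052000028100070290000100800900080054002006600081d0103))) 
(.lf (nat_lit 2886238224) (dlOf (nat_lit 3) (nat_lit 0x132040000e0098004e81004c810000000040020002002200081a0482))))) 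
(.nd (nat_lit 7) (.nd (nat_lit 26) (.nd (nat_lit 27) 
(.lf (nat_lit 805863440) (dlOf (nat_lit 6) (nat_lit 0x1640880002b020018052004e0168000805c0004e0c010405a0002602000c0520000d8100070290000680800900080054002006600081d0103))) 
(.lf (nat_lit 3624435728) (dlOf (nat_lit 3) (nat_lit 0x132040000e00a00072c1004c810000000040020002002200081a0482)))) 
(.lf (nat_lit 3557326864) (dlOf (nat_lit 2) (nat_lit 0x8072000d78181c0480)))) 
(.lf (nat_lit 3490220432) (dlOf (nat_lit 1) (nat_lit 0x20018004e81))))) (.nd (nat_lit 7) 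
(.nd (nat_lit 8) (.nd (nat_lit 20) 
(.lf (nat_lit 21790736) (dlOf (nat_lit 1) (nat_lit 0x400200020008a70482))) 
(.lf (nat_lit 471629840) (dlOf (nat_lit 1) (nat_lit 0x20018360281)))) 
(.lf (nat_lit 51151120) (dlOf (nat_lit 1) (nat_lit 0x1d0008010800200020009507403)))) 
(.nd (nat_lit 8) 
(.lf (nat_lit 537693328) (dlOf (nat_lit 1) (nat_lit 0xf80080038002008000080f6203))) 
(.lf (nat_lit 68979088) (dlOf (nat_lit 1) (nat_lit 0x20018844e81)))))) (.nd (nat_lit 20) 
(.nd (nat_lit 7) (.nd (nat_lit 23) (.nd (nat_lit 28) 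
(.lf (nat_lit 2654224) (dlOf (nat_lit 5) (nat_lit 0x44291c012d46a0001404005aa47003d51a8016a64c0000a0c00c548e0066a35002f4c980001018027a91c00ad46a0000304005e0018180101))) 
(.lf (nat_lit 3492315152) (dlOf (nat_lit 1) (nat_lit 0x2700080128002002a00080c0883)))) 
(.nd (nat_lit 18) 
(.lf (nat_lit 15237136) (dlOf (nat_lit 1) (nat_lit 0x3b00080160002000400087c0483))) 
(.lf (nat_lit 28082192) (dlOf (nat_lit 1) (nat_lit 0x840008038c002024a0008d50283))))) 
(.nd (nat_lit 18) 
(.lf (nat_lit 5774018960) (dlOf (nat_lit 2) (nat_lit 0x8014000c6c0800580080004002000200080e4e83))) 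
(.lf (nat_lit 36473232) (dlOf (nat_lit 1) (nat_lit 0x60019074e81))))) (.nd (nat_lit 18) 
(.nd (nat_lit 31) (.nd (nat_lit 8) 
(.lf (nat_lit 1345880592) (dlOf (nat_lit 1) (nat_lit 0x20018e07b81))) 
(.lf (nat_lit 1345880336) (dlOf (nat_lit 5) (nat_lit 0x1e152001107d800a02480001c0c000c1f60000d0200040fb0000601000207d800000080378008004000200020008e03b03)))) 
(.nd (nat_lit 26) 
(.lf (nat_lit 3493363728) (dlOf (nat_lit 4) (nat_lit 0x103380008088000c03600e680600040410070c810002020803860080090008005400200240008120883))) 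
(.lf (nat_lit 2755166224) (dlOf (nat_lit 4) (nat_lit 0x103380008088000c03600844060004041003fa010002020801fcc080090008005400200240008120883))))) 
(.nd (nat_lit 7) (.nd (nat_lit 22) 
(.lf (nat_lit 29130768) (dlOf (nat_lit 1) (nat_lit 0x8008000400200020008dc0a03))) 
(.lf (nat_lit 24936464) (dlOf (nat_lit 1) (nat_lit 0x38008003800200380008bd0a03)))) 
(.lf (nat_lit 8163984) (dlOf (nat_lit 1) (nat_lit 0x8008000400200020008518c83))))))))) 
(.nd (nat_lit 18) (.nd (nat_lit 26) (.nd (nat_lit 21) (.nd (nat_lit 7) (.nd (nat_lit 19) 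
(.nd (nat_lit 4) (.nd (nat_lit 20) 
(.lf (nat_lit 46170176) (dlOf (nat_lit 1) (nat_lit 0x840019380001))) 
(.lf (nat_lit 3490742336) (dlOf (nat_lit 5) (nat_lit 0x3c3c60002902037a23201cb1168033088001183c6000a134000118501250f58039874800282800022000000028401020f58031074800ac2680000006008e0018020781)))) 
(.nd (nat_lit 10) (.nd (nat_lit 23) 
(.lf (nat_lit 2684387408) (dlOf (nat_lit 2) (nat_lit 0x8e02900b5c018000000))) 
(.lf (nat_lit 25198672) (dlOf (nat_lit 2) (nat_lit 0x580000009e04001800200020008bf0d02)))) 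
(.nd (nat_lit 8) 
(.lf (nat_lit 134253648) (dlOf (nat_lit 1) (nat_lit 0x298008014c00200200008006083))) 
(.lf (nat_lit 34128) (dlOf (nat_lit 1) (nat_lit 0x400400020008003302)))))) (.nd (nat_lit 8) 
(.nd (nat_lit 24) 
(.lf (nat_lit 3494412368) (dlOf (nat_lit 2) (nat_lit 0x480780005604004800400360018220d02))) 
(.lf (nat_lit 21528656) (dlOf (nat_lit 2) (nat_lit 0xdbc60001b018a40500)))) 
(.lf (nat_lit 25723216) (dlOf (nat_lit 1) (nat_lit 0xc00200020008c10802))))) (.nd (nat_lit 4) 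
(.nd (nat_lit 8) (.lf (nat_lit 1342213824) (dlOf (nat_lit 1) (nat_lit 0x800400420008007282))) 
(.nd (nat_lit 10) (.lf (nat_lit 50889152) (dlOf (nat_lit 1) (nat_lit 0x200194d7a81))) 
(.lf (nat_lit 134254016) (dlOf (nat_lit 1) (nat_lit 0x1c0008014800200020008006d03))))) 
(.nd (nat_lit 8) (.nd (nat_lit 12) 
(.lf (nat_lit 134253776) (dlOf (nat_lit 2) (nat_lit 0xd800000060040004002007e0008006402))) 
(.lf (nat_lit 134257872) (dlOf (nat_lit 2) (nat_lit 0x4301d80021c0801700080088002004e000800c283)))) 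
(.lf (nat_lit 50889168) (dlOf (nat_lit 1) (nat_lit 0x10008001c002000400094d7b03)))))) 
(.nd (nat_lit 19) (.nd (nat_lit 23) (.nd (nat_lit 4) (.nd (nat_lit 7) 
(.lf (nat_lit 3492845632) (dlOf (nat_lit 1) (nat_lit 0xd200080fa681))) 
(.lf (nat_lit 19956416) (dlOf (nat_lit 1) (nat_lit 0x200189d1e81)))) 
(.lf (nat_lit 52461648) (dlOf (nat_lit 1) (nat_lit 0x400400020009530702)))) (.nd (nat_lit 4) 
(.nd (nat_lit 22) (.lf (nat_lit 44073024) (dlOf (nat_lit 1) (nat_lit 0xac004002200092c0502))) 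
(.lf (nat_lit 14712896) (dlOf (nat_lit 1) (nat_lit 0x1fc00200ca0008770502)))) 
(.lf (nat_lit 14712912) (dlOf (nat_lit 1) (nat_lit 0x1800200020008770702))))) (.nd (nat_lit 20) 
(.nd (nat_lit 4) (.lf (nat_lit 3492315200) (dlOf (nat_lit 1) (nat_lit 0x200280c1401))) 
(.nd (nat_lit 22) 
(.lf (nat_lit 3492315216) (dlOf (nat_lit 2) (nat_lit 0x120ae0000100805c000800d0002006600080c1603))) 
(.lf (nat_lit 32014416) (dlOf (nat_lit 1) (nat_lit 0x40028ed0701))))) (.nd (nat_lit 25) 
(.nd (nat_lit 28) 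
(.lf (nat_lit 3702864) (dlOf (nat_lit 1) (nat_lit 0x148008007400200b40008210f83))) 
(.lf (nat_lit 3493363792) (dlOf (nat_lit 4) (nat_lit 0x15c0d201c404400aa021801b00ac00b0054003602400190100000b03804b81a4000c0c8023e04400e5021802e80ac014805400860240040010001b807c00800320014018000150b000f0220000880802b800803e8002001e0008121003)))) 
(.nd (nat_lit 8) (.lf (nat_lit 54037072) (dlOf (nat_lit 1) (nat_lit 0x8002000200095f5282))) 
(.lf (nat_lit 49841488) (dlOf (nat_lit 2) (nat_lit 0x812c00001c040014004004000194c3302)))))))) 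
(.nd (nat_lit 4) (.nd (nat_lit 28) (.nd (nat_lit 27) (.nd (nat_lit 7) (.nd (nat_lit 19) 
(.lf (nat_lit 2752544832) (dlOf (nat_lit 5) (nat_lit 0x3c3ea0002902037a24a01cb122803308d401183ea000a134000118501250fe8039879c00282800022000000028401020fe8031079c00ac2680000006008e0018020781))) 
(.lf (nat_lit 2754117696) (dlOf (nat_lit 5) (nat_lit 0x341f5000198100220fa8003055800d42a20003206001c1f5000180100040fa8000bc080078008007c002001a00080c1783)))) 
(.lf (nat_lit 604017600) (dlOf (nat_lit 1) (nat_lit 0x2e0018009201)))) (.nd (nat_lit 8) 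
(.nd (nat_lit 9) (.lf (nat_lit 3422584896) (dlOf (nat_lit 2) (nat_lit 0x8e02900aa3018000000))) 
(.lf (nat_lit 201366080) (dlOf (nat_lit 3) (nat_lit 0x70000001dc0801f8000000e404004000400e2000800b482)))) 
(.lf (nat_lit 201361728) (dlOf (nat_lit 2) (nat_lit 0x1c0000003d02000a0008004c81))))) 
(.nd (nat_lit 7) (.nd (nat_lit 8) 
(.lf (nat_lit 3557326912) (dlOf (nat_lit 2) (nat_lit 0x3803f005078181c0900))) (.nd (nat_lit 9) 
(.lf (nat_lit 469800256) (dlOf (nat_lit 1) (nat_lit 0x980080004002001c0008009903))) 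
(.lf (nat_lit 1543538496) (dlOf (nat_lit 10) (nat_lit 0x1809801ac03e01020130001b030015011002a807c01e0026000340600dc02800400060000c81003700a0019c018002600000018030079014000d007c0204026009c00c000170400990140047807c02c4026013c00c0001684002e0140012807c008c0180002b06001a0280001481002f00f8000480801a8008011000200540008003e03))))) 
(.nd (nat_lit 8) (.nd (nat_lit 9) 
(.lf (nat_lit 3691024576) (dlOf (nat_lit 1) (nat_lit 0x260028007f01))) 
(.lf (nat_lit 6376426176) (dlOf (nat_lit 1) (nat_lit 0x400200020008095782)))) 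
(.lf (nat_lit 469799360) (dlOf (nat_lit 1) (nat_lit 0x28008004800200060008008603)))))) 
(.nd (nat_lit 27) (.nd (nat_lit 21) (.nd (nat_lit 29) (.nd (nat_lit 12) 
(.lf (nat_lit 67666000) (dlOf (nat_lit 2) (nat_lit 0x16803c019c0000002f8282d0200))) 
(.lf (nat_lit 67145808) (dlOf (nat_lit 1) (nat_lit 0x120018007d81)))) (.nd (nat_lit 7) 
(.lf (nat_lit 2756214864) (dlOf (nat_lit 2) (nat_lit 0x480780005804004800400360018220d02))) 
(.lf (nat_lit 4094198224) (dlOf (nat_lit 3) (nat_lit 0xe023001140100050118008600801a0008000400200020008017b03))))) 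
(.nd (nat_lit 20) 
(.lf (nat_lit 2754117712) (dlOf (nat_lit 2) (nat_lit 0xc1088000b80800d00080018002003a00080c1903))) 
(.lf (nat_lit 2755166288) (dlOf (nat_lit 4) (nat_lit 0x15c0d201c404400aa021801b00ac00b0054003602400190100000b43804b81a4000c0c8023e04400e5021802e80ac014805400860240040010001b807c00800320014018000158b000f0220000880802b800803e8002001e0008121003))))) 
(.nd (nat_lit 7) (.nd (nat_lit 8) 
(.lf (nat_lit 3154673744) (dlOf (nat_lit 2) (nat_lit 0xc1028806080cc030403a019601600cc00280017c28005000800b800200040008310203))) 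
(.nd (nat_lit 9) 
(.lf (nat_lit 201365840) (dlOf (nat_lit 1) (nat_lit 0x14800801440020018000800ab83))) 
(.lf (nat_lit 201361232) (dlOf (nat_lit 2) (nat_lit 0x80000001a04001400200ec0008003f02))))) 
(.nd (nat_lit 8) (.lf (nat_lit 3154673872) (dlOf (nat_lit 1) (nat_lit 0x20028310501))) 
(.nd (nat_lit 29) 
(.lf (nat_lit 469800400) (dlOf (nat_lit 2) (nat_lit 0x11047000070080248008011000200220008009b03))) 
(.lf (nat_lit 1006671312) (dlOf (nat_lit 1) (nat_lit 0x40008009b01))))))))) (.nd (nat_lit 19) 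
(.nd (nat_lit 8) (.nd (nat_lit 4) (.nd (nat_lit 26) (.nd (nat_lit 10) (.nd (nat_lit 28) 
(.nd (nat_lit 29) 
(.lf (nat_lit 1208254528) (dlOf (nat_lit 2) (nat_lit 0x11002900050060001c81000080080004002000200080b0503))) 
(.lf (nat_lit 671383616) (dlOf (nat_lit 11) (nat_lit 0x118025000328100cb01280290088000c20802b404a000600201aa025000148100ad0128000a00805680940004a04039404a000220201800250000f0100960128000700805c8094000000401e400200a20008170d82)))) 
(.lf (nat_lit 402948160) (dlOf (nat_lit 2) (nat_lit 0xc0000007402000200180b0501)))) 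
(.lf (nat_lit 47481920) (dlOf (nat_lit 1) (nat_lit 0x20029402881)))) (.nd (nat_lit 27) 
(.lf (nat_lit 335839296) (dlOf (nat_lit 2) (nat_lit 0xc0000007402000200180b0501))) 
(.nd (nat_lit 29) 
(.lf (nat_lit 1543798848) (dlOf (nat_lit 11) (nat_lit 0x19602500520110001a8100568094000d204023004a000620201aa025000148100ad0128000a00805680940004a04039404a000220201800250000f0100960128000700805c8094000000401e400200a20008170d82))) 
(.lf (nat_lit 2080669760) (dlOf (nat_lit 2) (nat_lit 0x11002900050060001c81000080080004002000200080b0503)))))) 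
(.nd (nat_lit 26) (.nd (nat_lit 23) (.nd (nat_lit 27) 
(.lf (nat_lit 3758391376) (dlOf (nat_lit 2) (nat_lit 0x3c00000002018170700))) 
(.lf (nat_lit 671383632) (dlOf (nat_lit 32) (nat_lit 0x38202501020110001541005f809403640440005404052a025000298100500128001440800e808c022c03800300090019003000c800c0074002009a000000278702530128259008800098080a9004a08f802200025820349012824580880009408048c04a043a0220002482015501280de008800090080ed004a08100220002302011f011000114080008088000880414b804a0ac4022008700f8001081801300940008204159c04a0b8a022000200204f901282958088010403e0003f0607e002504580110000f8101e9009410e40440003d04019202501230110000f01001f8000000740401a80440001e02025a0220000e0100d0011000068080138088000320408a4044000180201820220000b81001301280d900880002c0801d4044000150202040220000a01015f01280fb008804100000000006003a0028171001)))) 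
(.nd (nat_lit 7) (.lf (nat_lit 29655120) (dlOf (nat_lit 2) (nat_lit 0x1ac9d40002f818e30200))) 
(.lf (nat_lit 43287760) (dlOf (nat_lit 2) (nat_lit 0x2a4e30001d8192a2d80))))) (.nd (nat_lit 29) 
(.nd (nat_lit 27) 
(.lf (nat_lit 67403856) (dlOf (nat_lit 6) (nat_lit 0x2a0ff00011010011000000074080020000000380400500000001802000c000000058180f0700))) 
(.lf (nat_lit 1543798864) (dlOf (nat_lit 32) (nat_lit 0x38202501020110001701005f809403640440005b04052a0250002d0100500128001600800e808c022c03400300090019003000c800c0074002009a0000002b07025301282590088000a6080a9004a08f80220002902034901282458088000a208048c04a043a0220002802015501280de00880009e080ed004a08100220002682011f011000130080008088000960414b804a0ac4022008700f8001241801300940009004159c04a0b8a022000238204f901282958088010403e000460607e00250458011000114101e9009410e404400044040192025012301100010c1001f8000000820401a80440001e02025a0220000e0100d0011000068080138088000320408a4044000180201820220000b81001301280d900880002c0801d4044000150202040220000a01015f01280fb008804100000000006003a0028171001))))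 
(.nd (nat_lit 31) 
(.lf (nat_lit 5167677520) (dlOf (nat_lit 5) (nat_lit 0x7801400200060005e04001a0030002e81000700180016c08002000c000b404002000400700018100502))) 
(.lf (nat_lit 3020193872) (dlOf (nat_lit 15) (nat_lit 0xe9406202580250001302030d018800180b005e804a0002506005a031000120102fb01880bc009400046080c0006200c802f002e0128000881817080c4017405e0278025000108300b70188000800800d80c40003e04001c0620001e0201fe031005901600680094000300c001404a00011020ab0000000020104f40000000080807a80c4036c04a036c01e0053000827180000000014180000211d40008150702))))))) 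
(.nd (nat_lit 21) (.nd (nat_lit 32) (.nd (nat_lit 7) (.nd (nat_lit 11) 
(.lf (nat_lit 3221520720) (dlOf (nat_lit 3) (nat_lit 0x11a00a00030810003022800134080030008001400200180008124d03))) 
(.lf (nat_lit 2751760720) (dlOf (nat_lit 1) (nat_lit 0x40018004d81)))) 
(.lf (nat_lit 2885978064) (dlOf (nat_lit 1) (nat_lit 0x740028144501)))) (.nd (nat_lit 26) 
(.lf (nat_lit 6442746192) (dlOf (nat_lit 1) (nat_lit 0x4004000200081b0602))) (.nd (nat_lit 27) 
(.lf (nat_lit 6509855056) (dlOf (nat_lit 1) (nat_lit 0x20018154d01))) 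
(.lf (nat_lit 5838766416) (dlOf (nat_lit 1) (nat_lit 0x4004000200081b0602)))))) (.nd (nat_lit 20) 
(.nd (nat_lit 7) (.nd (nat_lit 10) 
(.lf (nat_lit 23363920) (dlOf (nat_lit 4) (nat_lit 0xda480009804005ad240004b02007b68100020018b80600))) 
(.lf (nat_lit 56919376) (dlOf (nat_lit 1) (nat_lit 0x400400020009793302)))) 
(.lf (nat_lit 23364048) (dlOf (nat_lit 1) (nat_lit 0xc00200040008b80a02)))) (.nd (nat_lit 4) 
(.lf (nat_lit 20220736) (dlOf (nat_lit 1) (nat_lit 0x8002000200089d5c02))) (.nd (nat_lit 7) 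
(.lf (nat_lit 20221264) (dlOf (nat_lit 1) (nat_lit 0x4002000200089d6a02))) 
(.lf (nat_lit 57967056) (dlOf (nat_lit 1) (nat_lit 0x1000297a7b01)))))))) (.nd (nat_lit 4) 
(.nd (nat_lit 21) (.nd (nat_lit 22) (.nd (nat_lit 23) 
(.lf (nat_lit 819264) (dlOf (nat_lit 3) (nat_lit 0x5383e2029e174015b05780a6828c0001010044c3e2022617400cf0b5008d80000000010003c004001a0008020782))) 
(.lf (nat_lit 9207872) (dlOf (nat_lit 2) (nat_lit 0xaa87d0000ba04000400400020008530502)))) 
(.nd (nat_lit 23) (.lf (nat_lit 21790784) (dlOf (nat_lit 1) (nat_lit 0x80080004002000a0008a70783))) 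
(.lf (nat_lit 13402176) (dlOf (nat_lit 1) (nat_lit 0x8008003000200060008721783))))) 
(.nd (nat_lit 8) (.nd (nat_lit 9) 
(.lf (nat_lit 1346142272) (dlOf (nat_lit 2) (nat_lit 0x18814d00d006c804803600048e0c00a000400440008e60602))) 
(.lf (nat_lit 36473408) (dlOf (nat_lit 1) (nat_lit 0x20019075201)))) 
(.lf (nat_lit 20745024) (dlOf (nat_lit 1) (nat_lit 0x4002000200089d5c02))))) (.nd (nat_lit 20) 
(.nd (nat_lit 30) (.nd (nat_lit 22) 
(.lf (nat_lit 470581328) (dlOf (nat_lit 1) (nat_lit 0x5e0008130d01))) 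
(.lf (nat_lit 13402192) (dlOf (nat_lit 1) (nat_lit 0x80018721901)))) (.nd (nat_lit 8) 
(.lf (nat_lit 1342996560) (dlOf (nat_lit 1) (nat_lit 0x5e0008130d01))) 
(.lf (nat_lit 3490487120) (dlOf (nat_lit 1) (nat_lit 0x40040002000800bc82))))) (.nd (nat_lit 9) 
(.nd (nat_lit 8) (.nd (nat_lit 23) 
(.lf (nat_lit 1346142288) (dlOf (nat_lit 1) (nat_lit 0xc800400360008e60702))) 
(.lf (nat_lit 45908048) (dlOf (nat_lit 3) (nat_lit 0xb0c90000fc0800486480001e04006400200280009360702)))) 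
(.lf (nat_lit 50103632) (dlOf (nat_lit 1) (nat_lit 0x500080004002001600094c3303)))) 
(.nd (nat_lit 7) (.lf (nat_lit 68979280) (dlOf (nat_lit 1) (nat_lit 0x8008004000200060008845283))) 
(.lf (nat_lit 8159952) (dlOf (nat_lit 1) (nat_lit 0x400200020008512002))))))))))) (.nd (nat_lit 18) 
(.nd (nat_lit 15) (.nd (nat_lit 4) (.nd (nat_lit 19) (.nd (nat_lit 7) (.nd (nat_lit 6) 
(.nd (nat_lit 22) (.nd (nat_lit 26) (.nd (nat_lit 27) 
(.lf (nat_lit 4563468288) (dlOf (nat_lit 2) (nat_lit 0x300bc030780402f000400020018090002))) 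
(.nd (nat_lit 29) 
(.lf (nat_lit 4697686016) (dlOf (nat_lit 2) (nat_lit 0x300bc037340402f000400020018090002))) 
(.lf (nat_lit 3087073280) (dlOf (nat_lit 1) (nat_lit 0x10002001800080b0002))))) (.nd (nat_lit 8) 
(.lf (nat_lit 3825270784) (dlOf (nat_lit 1) (nat_lit 0x10002001800080b0002))) 
(.lf (nat_lit 3556835584) (dlOf (nat_lit 1) (nat_lit 0x20008080a81))))) (.nd (nat_lit 8) 
(.nd (nat_lit 20) (.lf (nat_lit 14745600) (dlOf (nat_lit 1) (nat_lit 0x400400020008770002))) 
(.lf (nat_lit 7405568) (dlOf (nat_lit 1) (nat_lit 0x1400184b0001)))) 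
(.lf (nat_lit 474022144) (dlOf (nat_lit 2) (nat_lit 0x400280050004002ca08002400400100009000a82))))) 
(.nd (nat_lit 8) (.nd (nat_lit 20) (.nd (nat_lit 9) 
(.lf (nat_lit 14745664) (dlOf (nat_lit 1) (nat_lit 0x40008770501))) 
(.lf (nat_lit 3355509312) (dlOf (nat_lit 2) (nat_lit 0x701700011c0800c80080018002001600080a1583)))) 
(.nd (nat_lit 21) (.lf (nat_lit 13697088) (dlOf (nat_lit 1) (nat_lit 0x80018740e01))) 
(.lf (nat_lit 1345388608) (dlOf (nat_lit 2) (nat_lit 0x141b2000a07d00123828b90600))))) 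
(.nd (nat_lit 10) (.nd (nat_lit 12) 
(.lf (nat_lit 2617312064) (dlOf (nat_lit 1) (nat_lit 0x2400280a2301))) 
(.lf (nat_lit 3355513664) (dlOf (nat_lit 1) (nat_lit 0x8400280a8f81)))) 
(.lf (nat_lit 3492874048) (dlOf (nat_lit 2) (nat_lit 0x18201c000168180f3e00)))))) (.nd (nat_lit 9) 
(.nd (nat_lit 27) (.nd (nat_lit 6) (.nd (nat_lit 8) 
(.lf (nat_lit 8456320) (dlOf (nat_lit 1) (nat_lit 0x220008514781))) 
(.lf (nat_lit 8455552) (dlOf (nat_lit 1) (nat_lit 0x400200020008513582)))) (.nd (nat_lit 8) 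
(.lf (nat_lit 2952859840) (dlOf (nat_lit 2) (nat_lit 0x2400400008018007f00))) 
(.lf (nat_lit 11600320) (dlOf (nat_lit 2) (nat_lit 0x7000000000040080002002000086c0882))))) 
(.nd (nat_lit 10) (.nd (nat_lit 6) 
(.lf (nat_lit 1208025216) (dlOf (nat_lit 1) (nat_lit 0x400200020008090302))) 
(.lf (nat_lit 469832128) (dlOf (nat_lit 1) (nat_lit 0x8008005c002000e0008008603)))) 
(.nd (nat_lit 11) (.lf (nat_lit 4697687424) (dlOf (nat_lit 1) (nat_lit 0x20018093581))) 
(.lf (nat_lit 2885754240) (dlOf (nat_lit 2) (nat_lit 0x80000000004001c002000e000800c902)))))) 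
(.nd (nat_lit 8) (.nd (nat_lit 6) (.nd (nat_lit 12) 
(.lf (nat_lit 8455808) (dlOf (nat_lit 1) (nat_lit 0x20028513981))) 
(.lf (nat_lit 19994240) (dlOf (nat_lit 1) (nat_lit 0x4002000200089d9d82)))) (.nd (nat_lit 10) 
(.lf (nat_lit 3355509440) (dlOf (nat_lit 1) (nat_lit 0x180080038002000200080a1e83))) 
(.lf (nat_lit 3623945920) (dlOf (nat_lit 1) (nat_lit 0x2000200040008003a82))))) (.nd (nat_lit 11) 
(.nd (nat_lit 6) 
(.lf (nat_lit 6039868288) (dlOf (nat_lit 1) (nat_lit 0x8008000400200020008009003))) 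
(.lf (nat_lit 3355509696) (dlOf (nat_lit 1) (nat_lit 0x2400280a2781)))) (.nd (nat_lit 12) 
(.lf (nat_lit 4563471232) (dlOf (nat_lit 1) (nat_lit 0x400400020008095c02))) 
(.lf (nat_lit 134290304) (dlOf (nat_lit 1) (nat_lit 0x30002001a000800bc82)))))))) (.nd (nat_lit 21) 
(.nd (nat_lit 26) (.nd (nat_lit 6) (.nd (nat_lit 20) (.nd (nat_lit 28) 
(.lf (nat_lit 1611202560) (dlOf (nat_lit 1) (nat_lit 0x200028110001))) 
(.lf (nat_lit 805896192) (dlOf (nat_lit 1) (nat_lit 0x80080014002002e00081e0003)))) 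
(.nd (nat_lit 23) (.lf (nat_lit 18415616) (dlOf (nat_lit 1) (nat_lit 0x80028930001))) 
(.lf (nat_lit 10027008) (dlOf (nat_lit 2) (nat_lit 0x40bc003a10080090008004c002002e00085a0003))))) 
(.nd (nat_lit 7) (.lf (nat_lit 3494445120) (dlOf (nat_lit 1) (nat_lit 0x20018220b81))) 
(.lf (nat_lit 50921920) (dlOf (nat_lit 2) (nat_lit 0x4000002470194d7a80))))) (.nd (nat_lit 6) 
(.nd (nat_lit 7) (.nd (nat_lit 27) 
(.lf (nat_lit 1678311424) (dlOf (nat_lit 1) (nat_lit 0x80080014002002e00081e0003))) 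
(.lf (nat_lit 738787328) (dlOf (nat_lit 1) (nat_lit 0x200028110001)))) 
(.lf (nat_lit 3154706560) (dlOf (nat_lit 2) (nat_lit 0x1500c8029cc080008008001c00200140008310483)))) 
(.nd (nat_lit 22) 
(.lf (nat_lit 201916480) (dlOf (nat_lit 1) (nat_lit 0x100080018002001c00080c1783))) 
(.lf (nat_lit 2756247616) (dlOf (nat_lit 1) (nat_lit 0x20018220b81)))))) (.nd (nat_lit 11) 
(.nd (nat_lit 26) (.nd (nat_lit 8) (.nd (nat_lit 28) 
(.lf (nat_lit 3735552) (dlOf (nat_lit 1) (nat_lit 0x18008001000200180008220003))) 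
(.lf (nat_lit 3493396480) (dlOf (nat_lit 3) (nat_lit 0x1201d005bc81000c00e802d300800400080024002000a0008130003)))) 
(.lf (nat_lit 7935232) (dlOf (nat_lit 1) (nat_lit 0xa40008519581)))) (.nd (nat_lit 6) 
(.lf (nat_lit 2755198976) (dlOf (nat_lit 3) (nat_lit 0x1201d002f481000c00e8016cc0800400080024002000a0008130003))) 
(.lf (nat_lit 2754150464) (dlOf (nat_lit 2) (nat_lit 0xa0438000e80800980080040002001800080c1783))))) 
(.nd (nat_lit 8) (.nd (nat_lit 6) 
(.lf (nat_lit 20520064) (dlOf (nat_lit 1) (nat_lit 0x2600189dc181))) (.nd (nat_lit 10) 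
(.lf (nat_lit 7931968) (dlOf (nat_lit 2) (nat_lit 0x29bb00071818514700))) 
(.lf (nat_lit 7937088) (dlOf (nat_lit 1) (nat_lit 0x16002851bf01))))) (.nd (nat_lit 7) 
(.nd (nat_lit 12) (.lf (nat_lit 57215744) (dlOf (nat_lit 1) (nat_lit 0x400200020009795a82))) 
(.lf (nat_lit 7936768) (dlOf (nat_lit 1) (nat_lit 0x2002851b981)))) 
(.lf (nat_lit 57215360) (dlOf (nat_lit 1) (nat_lit 0x100029794e81)))))))) (.nd (nat_lit 6) 
(.nd (nat_lit 19) (.nd (nat_lit 11) (.nd (nat_lit 27) (.nd (nat_lit 10) (.nd (nat_lit 22) 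
(.lf (nat_lit 1343291408) (dlOf (nat_lit 2) (nat_lit 0x300150006bc0800300080060002001600081e0483))) 
(.lf (nat_lit 13697040) (dlOf (nat_lit 1) (nat_lit 0x20008000400200020008740103)))) 
(.nd (nat_lit 20) 
(.lf (nat_lit 48301072) (dlOf (nat_lit 1) (nat_lit 0x3000800bc00200260009402883))) 
(.nd (nat_lit 21) (.lf (nat_lit 55641104) (dlOf (nat_lit 1) (nat_lit 0x4002000200096d2882))) 
(.lf (nat_lit 36766736) (dlOf (nat_lit 1) (nat_lit 0x400200020009072882)))))) (.nd (nat_lit 7) 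
(.nd (nat_lit 8) 
(.lf (nat_lit 4496360976) (dlOf (nat_lit 1) (nat_lit 0x12000800ac00200240008053683))) 
(.nd (nat_lit 10) (.lf (nat_lit 2617316112) (dlOf (nat_lit 1) (nat_lit 0x178004004c00080a8f82))) 
(.lf (nat_lit 671155984) (dlOf (nat_lit 1) (nat_lit 0x8008000400200020008143c03))))) 
(.nd (nat_lit 10) (.lf (nat_lit 2080440720) (dlOf (nat_lit 1) (nat_lit 0x400400020018091002))) 
(.lf (nat_lit 6308300176) (dlOf (nat_lit 1) (nat_lit 0x60018053601)))))) (.nd (nat_lit 7) 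
(.nd (nat_lit 8) (.nd (nat_lit 10) 
(.lf (nat_lit 3623950864) (dlOf (nat_lit 2) (nat_lit 0x80000000004001c002000e000800b282))) 
(.lf (nat_lit 1342246416) (dlOf (nat_lit 1) (nat_lit 0x8008000400200020008007083)))) 
(.nd (nat_lit 10) 
(.lf (nat_lit 1342249232) (dlOf (nat_lit 11) (nat_lit 0x1e07e0002c81000f0a7000160080080538000ae0400080fc0004f02001014e000b03f000138100040538002c0fc0004d04000207e000230100090a7000581f800200540004506000607e000220100040a7000681f80007a08009c004008e001800aa82))) 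
(.lf (nat_lit 1409355024) (dlOf (nat_lit 1) (nat_lit 0x1c0018006701))))) (.nd (nat_lit 8) 
(.nd (nat_lit 20) (.nd (nat_lit 27) 
(.lf (nat_lit 2483096720) (dlOf (nat_lit 1) (nat_lit 0x98008010000200460008006203))) 
(.lf (nat_lit 1543572624) (dlOf (nat_lit 1) (nat_lit 0x1300008146201)))) 
(.lf (nat_lit 19991696) (dlOf (nat_lit 1) (nat_lit 0x8004000400189d6202)))) (.nd (nat_lit 9) 
(.lf (nat_lit 56691088) (dlOf (nat_lit 1) (nat_lit 0x1800400040009734e82))) 
(.lf (nat_lit 54594448) (dlOf (nat_lit 1) (nat_lit 0xa0009655c81))))))) (.nd (nat_lit 20) 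
(.nd (nat_lit 21) (.nd (nat_lit 7) (.nd (nat_lit 26) (.nd (nat_lit 27) 
(.lf (nat_lit 805896208) (dlOf (nat_lit 1) (nat_lit 0x80080004002000200081e0803))) 
(.lf (nat_lit 134807568) (dlOf (nat_lit 1) (nat_lit 0x6c00180c0881)))) 
(.lf (nat_lit 1678311440) (dlOf (nat_lit 1) (nat_lit 0x4004000200181e0702)))) (.nd (nat_lit 8) 
(.lf (nat_lit 3154706576) (dlOf (nat_lit 1) (nat_lit 0x20018310481))) 
(.lf (nat_lit 591760) (dlOf (nat_lit 1) (nat_lit 0x400400020008004202))))) (.nd (nat_lit 9) 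
(.nd (nat_lit 28) (.lf (nat_lit 2686992) (dlOf (nat_lit 1) (nat_lit 0x20018190701))) 
(.lf (nat_lit 3492347920) (dlOf (nat_lit 1) (nat_lit 0x1b600080c0881)))) 
(.lf (nat_lit 61408784) (dlOf (nat_lit 1) (nat_lit 0x4b000201800009923682))))) (.nd (nat_lit 21) 
(.nd (nat_lit 22) (.nd (nat_lit 9) 
(.lf (nat_lit 10027024) (dlOf (nat_lit 1) (nat_lit 0x580080070002001200085a0a03))) 
(.lf (nat_lit 1880687120) (dlOf (nat_lit 1) (nat_lit 0x200008b37b81)))) (.nd (nat_lit 10) 
(.lf (nat_lit 30998544) (dlOf (nat_lit 1) (nat_lit 0x1000400020008e60a02))) 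
(.lf (nat_lit 39388176) (dlOf (nat_lit 1) (nat_lit 0x20019192881))))) (.nd (nat_lit 12) 
(.nd (nat_lit 10) (.nd (nat_lit 22) 
(.lf (nat_lit 3735568) (dlOf (nat_lit 5) (nat_lit 0x184fc001825c0010103000801f0000142000204fc001825c0010103000801f0000102000404fc002425c0012103000601f00000c2000204fc000c25c0012103000901f000008200040008001c00200020008220503))) 
(.lf (nat_lit 24707088) (dlOf (nat_lit 5) (nat_lit 0x797900034bad002d5848000ac1800c2f20004575a0001b040028bc8000e5d6800068100022f200003204005400400140008bb0102)))) 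
(.lf (nat_lit 20515856) (dlOf (nat_lit 3) (nat_lit 0x6a570000701000352b0000000800280080054002003600089d5f83)))) 
(.nd (nat_lit 7) (.lf (nat_lit 7933968) (dlOf (nat_lit 1) (nat_lit 0x48008001400200120008517a83))) 
(.lf (nat_lit 7934608) (dlOf (nat_lit 1) (nat_lit 0x400400020008518c82)))))))) (.nd (nat_lit 7) 
(.nd (nat_lit 19) (.nd (nat_lit 8) (.nd (nat_lit 12) (.nd (nat_lit 21) 
(.lf (nat_lit 16842832) (dlOf (nat_lit 2) (nat_lit 0x9ce8b806d71a403b78ce00a9a910049cde0022e5780162124004b005002c787001f24ac03850d800ac6cf00d221f80017c6800b00080048002000800088e0203))) 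
(.nd (nat_lit 22) (.lf (nat_lit 1881210960) (dlOf (nat_lit 1) (nat_lit 0x400400020008e60702))) 
(.lf (nat_lit 14745680) (dlOf (nat_lit 6) (nat_lit 0x280000002602000c00000012810004a2900008808034f1a000938ce000dbef0069b898013512c0001614000f8d0000000200040008770701))))) 
(.nd (nat_lit 9) (.lf (nat_lit 201398352) (dlOf (nat_lit 1) (nat_lit 0x4001800a701))) 
(.lf (nat_lit 2617316944) (dlOf (nat_lit 1) (nat_lit 0x580080014002001a00080a9c03))))) 
(.nd (nat_lit 10) (.nd (nat_lit 9) 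
(.lf (nat_lit 11600208) (dlOf (nat_lit 1) (nat_lit 0x200186c0601))) 
(.lf (nat_lit 3355509584) (dlOf (nat_lit 3) (nat_lit 0x10170000ec08006004c000640400cc004001000180a2482)))) 
(.nd (nat_lit 12) (.lf (nat_lit 39912784) (dlOf (nat_lit 1) (nat_lit 0x200291f3301))) 
(.lf (nat_lit 469833040) (dlOf (nat_lit 1) (nat_lit 0x20028009901)))))) (.nd (nat_lit 20) 
(.nd (nat_lit 26) (.nd (nat_lit 24) 
(.lf (nat_lit 3494445136) (dlOf (nat_lit 2) (nat_lit 0xf300f0000ac080ca0008034800200200008220d03))) 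
(.lf (nat_lit 21561424) (dlOf (nat_lit 1) (nat_lit 0x1300008a40501)))) (.nd (nat_lit 22) 
(.lf (nat_lit 201916496) (dlOf (nat_lit 1) (nat_lit 0x8004000200180c1902))) 
(.lf (nat_lit 2756247632) (dlOf (nat_lit 2) (nat_lit 0xf300f0000b0080ca0008034800200200008220d03))))) 
(.nd (nat_lit 8) (.lf (nat_lit 1343815760) (dlOf (nat_lit 1) (nat_lit 0x20018370201))) 
(.lf (nat_lit 7930704) (dlOf (nat_lit 2) (nat_lit 0x4a7540006404000c00400080008512482)))))) 
(.nd (nat_lit 8) (.nd (nat_lit 9) (.nd (nat_lit 11) (.nd (nat_lit 12) 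
(.lf (nat_lit 6308298960) (dlOf (nat_lit 1) (nat_lit 0x20018050901))) 
(.lf (nat_lit 7934160) (dlOf (nat_lit 1) (nat_lit 0x2c0028518081)))) 
(.lf (nat_lit 536938704) (dlOf (nat_lit 1) (nat_lit 0x1a0018004a01)))) (.nd (nat_lit 19) 
(.lf (nat_lit 2617311952) (dlOf (nat_lit 3) (nat_lit 0x10158000ec08006004c000640400cc004001000180a2002))) 
(.lf (nat_lit 7930576) (dlOf (nat_lit 2) (nat_lit 0x3956c00076040208004000c0018512002))))) 
(.nd (nat_lit 9) (.nd (nat_lit 10) (.nd (nat_lit 19) 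
(.lf (nat_lit 11600336) (dlOf (nat_lit 1) (nat_lit 0x200286c0a01))) 
(.lf (nat_lit 50921936) (dlOf (nat_lit 2) (nat_lit 0x16eec00040000010104000c00094d7b01)))) 
(.lf (nat_lit 3691058640) (dlOf (nat_lit 1) (nat_lit 0x20028009b01)))) (.nd (nat_lit 10) 
(.lf (nat_lit 3892380624) (dlOf (nat_lit 1) (nat_lit 0x400400020018102882))) (.nd (nat_lit 26) 
(.lf (nat_lit 671156176) (dlOf (nat_lit 1) (nat_lit 0x20028144501))) 
(.lf (nat_lit 2751530960) (dlOf (nat_lit 1) (nat_lit 0x400400060018004502)))))))))) 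
(.nd (nat_lit 6) (.nd (nat_lit 4) (.nd (nat_lit 19) (.nd (nat_lit 7) (.nd (nat_lit 8) 
(.nd (nat_lit 26) 
(.lf (nat_lit 3490807808) (dlOf (nat_lit 3) (nat_lit 0xa158000960100590ac001f855c00000080074004006c0008020002))) 
(.nd (nat_lit 27) 
(.lf (nat_lit 2752610304) (dlOf (nat_lit 3) (nat_lit 0xa15d000de8100590ae801f857000000080074004006c0008020002))) 
(.lf (nat_lit 470908928) (dlOf (nat_lit 1) (nat_lit 0x80080004002000200081f0003))))) 
(.nd (nat_lit 9) 
(.lf (nat_lit 134319360) (dlOf (nat_lit 1) (nat_lit 0x580080084002001a0008006603))) 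
(.nd (nat_lit 10) (.lf (nat_lit 39947008) (dlOf (nat_lit 2) (nat_lit 0xeca2000178191f5a80))) 
(.lf (nat_lit 3087107840) (dlOf (nat_lit 1) (nat_lit 0x20008143b81)))))) (.nd (nat_lit 11) 
(.nd (nat_lit 8) (.nd (nat_lit 27) 
(.lf (nat_lit 4563501184) (dlOf (nat_lit 1) (nat_lit 0xa80080020002000c0008090303))) 
(.lf (nat_lit 1208057984) (dlOf (nat_lit 1) (nat_lit 0x400200020008090302)))) 
(.lf (nat_lit 6442551168) (dlOf (nat_lit 1) (nat_lit 0xa00280f4101)))) (.nd (nat_lit 10) 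
(.nd (nat_lit 27) (.lf (nat_lit 4362176640) (dlOf (nat_lit 1) (nat_lit 0x400400020008004782))) 
(.lf (nat_lit 469862528) (dlOf (nat_lit 1) (nat_lit 0x400400020008004782)))) 
(.lf (nat_lit 8494208) (dlOf (nat_lit 1) (nat_lit 0x4002851c181)))))) (.nd (nat_lit 26) 
(.nd (nat_lit 20) (.nd (nat_lit 21) (.nd (nat_lit 24) 
(.lf (nat_lit 4816896) (dlOf (nat_lit 1) (nat_lit 0xc80080020002000400082c0003))) 
(.lf (nat_lit 55148544) (dlOf (nat_lit 1) (nat_lit 0x400296c0001)))) (.nd (nat_lit 9) 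
(.lf (nat_lit 3492380672) (dlOf (nat_lit 2) (nat_lit 0x143d80120157000000280c0000))) 
(.lf (nat_lit 61441536) (dlOf (nat_lit 1) (nat_lit 0x3800200160009923682))))) (.nd (nat_lit 7) 
(.nd (nat_lit 8) (.lf (nat_lit 33131008) (dlOf (nat_lit 1) (nat_lit 0x400200020008f54f82))) 
(.lf (nat_lit 20545792) (dlOf (nat_lit 1) (nat_lit 0x4002000200089d0a82)))) 
(.lf (nat_lit 3491332224) (dlOf (nat_lit 2) (nat_lit 0x101e7000fe818090080))))) (.nd (nat_lit 27) 
(.nd (nat_lit 7) (.nd (nat_lit 21) 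
(.lf (nat_lit 4362698752) (dlOf (nat_lit 1) (nat_lit 0x200080d0001))) 
(.lf (nat_lit 2754183168) (dlOf (nat_lit 2) (nat_lit 0x143fc012015c000000280c0000)))) 
(.lf (nat_lit 2753134720) (dlOf (nat_lit 2) (nat_lit 0x101f900109018090080)))) (.nd (nat_lit 31) 
(.nd (nat_lit 8) (.lf (nat_lit 471433216) (dlOf (nat_lit 1) (nat_lit 0x200282f0001))) 
(.lf (nat_lit 738822912) (dlOf (nat_lit 1) (nat_lit 0xc00200040008125a82)))) (.nd (nat_lit 30) 
(.lf (nat_lit 3154739200) (dlOf (nat_lit 2) (nat_lit 0xc809000af204003c004000a0008310002))) 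
(.lf (nat_lit 4228481024) (dlOf (nat_lit 1) (nat_lit 0x200080d0001)))))))) (.nd (nat_lit 20) 
(.nd (nat_lit 8) (.nd (nat_lit 11) (.nd (nat_lit 10) (.nd (nat_lit 26) 
(.lf (nat_lit 4697718800) (dlOf (nat_lit 5) (nat_lit 0x600d00024064001201f00dd903000d01a000480c8002c03e01bb106001a034000a0190004807c037600c00340680014032000a00f806ebc180058008008800200020008090003))) 
(.nd (nat_lit 27) 
(.lf (nat_lit 2483126288) (dlOf (nat_lit 2) (nat_lit 0xd202a00800140019401000e8008001c00200340008020483))) 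
(.lf (nat_lit 2348908560) (dlOf (nat_lit 2) (nat_lit 0xd202a0080014002f941000e8008001c00200340008020483))))) 
(.nd (nat_lit 26) (.lf (nat_lit 2818671632) (dlOf (nat_lit 1) (nat_lit 0x30004009600080d2882))) 
(.lf (nat_lit 4362175504) (dlOf (nat_lit 1) (nat_lit 0x120028002881))))) (.nd (nat_lit 19) 
(.nd (nat_lit 7) (.lf (nat_lit 39946768) (dlOf (nat_lit 1) (nat_lit 0x4004000600091f5082))) 
(.lf (nat_lit 8493712) (dlOf (nat_lit 1) (nat_lit 0x2000851b681)))) (.nd (nat_lit 9) 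
(.lf (nat_lit 69831696) (dlOf (nat_lit 2) (nat_lit 0x1b0b7000585a0000ac08000800400420018cd5f82))) 
(.lf (nat_lit 738822672) (dlOf (nat_lit 1) (nat_lit 0x400200040008125082)))))) (.nd (nat_lit 7) 
(.nd (nat_lit 10) (.nd (nat_lit 21) 
(.lf (nat_lit 4563501328) (dlOf (nat_lit 1) (nat_lit 0x5000400100008090a82))) 
(.lf (nat_lit 2195728) (dlOf (nat_lit 1) (nat_lit 0x6a0008039000202420008150483)))) 
(.lf (nat_lit 2617349392) (dlOf (nat_lit 1) (nat_lit 0x200080a9681)))) (.nd (nat_lit 28) 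
(.nd (nat_lit 19) (.lf (nat_lit 1073842064) (dlOf (nat_lit 1) (nat_lit 0x1800200040008004202))) 
(.lf (nat_lit 2752087952) (dlOf (nat_lit 1) (nat_lit 0x60028004201)))) (.nd (nat_lit 9) 
(.lf (nat_lit 4697720208) (dlOf (nat_lit 1) (nat_lit 0x20028093601))) 
(.lf (nat_lit 5637245840) (dlOf (nat_lit 2) (nat_lit 0x8014001a0010000e01000280080054002000c0008055c83))))))) 
(.nd (nat_lit 19) (.nd (nat_lit 22) (.nd (nat_lit 10) (.nd (nat_lit 26) 
(.lf (nat_lit 3490807824) (dlOf (nat_lit 4) (nat_lit 0x5185600038a0400203da0160158000dd8200030ac0005e00800a8008003400200960008020483))) 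
(.lf (nat_lit 2752610320) (dlOf (nat_lit 4) (nat_lit 0x518574002680400203fe016015d000950200030ae8003a40800a8008003400200960008020483)))) 
(.lf (nat_lit 36799504) (dlOf (nat_lit 1) (nat_lit 0xb400400020019072882)))) (.nd (nat_lit 23) 
(.lf (nat_lit 22118416) (dlOf (nat_lit 1) (nat_lit 0x200018a90481))) 
(.lf (nat_lit 47284240) (dlOf (nat_lit 1) (nat_lit 0x11a00093c0001))))) (.nd (nat_lit 7) 
(.nd (nat_lit 22) (.nd (nat_lit 8) 
(.lf (nat_lit 471433232) (dlOf (nat_lit 1) (nat_lit 0x200282f0781))) 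
(.lf (nat_lit 1008305424) (dlOf (nat_lit 1) (nat_lit 0x400200020008b53002)))) (.nd (nat_lit 21) 
(.lf (nat_lit 31031312) (dlOf (nat_lit 1) (nat_lit 0xa0018e60a01))) 
(.lf (nat_lit 16351248) (dlOf (nat_lit 13) (nat_lit 0xa56a000220100082b500010c0800495a80024a7e0004104000e56a000200100052b5000114fc0007c08001cad40003d02000a56a0001e0100062b5000315a00006e08000cab20003602000a56a0001a8100052b50000d00800395a80000004004000200040008890282))))) 
(.nd (nat_lit 8) (.nd (nat_lit 26) 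
(.lf (nat_lit 3491332240) (dlOf (nat_lit 2) (nat_lit 0x1c1ed0000a818090100))) 
(.lf (nat_lit 2753134736) (dlOf (nat_lit 2) (nat_lit 0x1c1ff0000b018090100)))) 
(.lf (nat_lit 7968656) (dlOf (nat_lit 1) (nat_lit 0x2e001851a301)))))))) (.nd (nat_lit 31) 
(.nd (nat_lit 8) (.nd (nat_lit 11) (.nd (nat_lit 4) (.nd (nat_lit 19) (.nd (nat_lit 9) 
(.nd (nat_lit 26) 
(.lf (nat_lit 2013364288) (dlOf (nat_lit 2) (nat_lit 0x6d0068001e0080008008000400200140008020503))) 
(.lf (nat_lit 1140949056) (dlOf (nat_lit 2) (nat_lit 0x6d0068001e0080008008000400200140008020503)))) 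
(.lf (nat_lit 1610712640) (dlOf (nat_lit 1) (nat_lit 0x100028093801)))) (.nd (nat_lit 20) 
(.lf (nat_lit 21594176) (dlOf (nat_lit 3) (nat_lit 0x1800000ae602000c00000572818a51680))) 
(.lf (nat_lit 10059840) (dlOf (nat_lit 7) (nat_lit 0x280000002e020069a1d00850000000941003e6874020b2660069839008e00000008c2000e64cc000f06e00b600000010030005d0e80468000000300801a80000000502000c00185b0781))))) 
(.nd (nat_lit 27) (.nd (nat_lit 21) 
(.lf (nat_lit 16875600) (dlOf (nat_lit 2) (nat_lit 0xd843600051b3c036887e0005f06001000188e0201))) 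
(.lf (nat_lit 2195536) (dlOf (nat_lit 1) (nat_lit 0x348008007400200ea0008150003)))) 
(.nd (nat_lit 7) (.lf (nat_lit 6375442000) (dlOf (nat_lit 1) (nat_lit 0x6a0018003881))) 
(.lf (nat_lit 4697718992) (dlOf (nat_lit 1) (nat_lit 0x1800400020018090902)))))) (.nd (nat_lit 10) 
(.nd (nat_lit 4) (.nd (nat_lit 7) 
(.lf (nat_lit 53578304) (dlOf (nat_lit 1) (nat_lit 0x180080004002000200095f5203))) 
(.lf (nat_lit 100544) (dlOf (nat_lit 1) (nat_lit 0x20018004901)))) (.nd (nat_lit 9) 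
(.lf (nat_lit 100432) (dlOf (nat_lit 1) (nat_lit 0x20028004701))) 
(.lf (nat_lit 69306960) (dlOf (nat_lit 2) (nat_lit 0x6846000000040010002000a0008905282))))) 
(.nd (nat_lit 7) (.nd (nat_lit 9) 
(.lf (nat_lit 7969856) (dlOf (nat_lit 1) (nat_lit 0x2002851bf01))) 
(.lf (nat_lit 1812041280) (dlOf (nat_lit 1) (nat_lit 0x400400020008147182)))) (.nd (nat_lit 4) 
(.lf (nat_lit 105664) (dlOf (nat_lit 1) (nat_lit 0x8002800c201))) 
(.lf (nat_lit 5838576848) (dlOf (nat_lit 1) (nat_lit 0x280080004002000200080fc283))))))) 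
(.nd (nat_lit 7) (.nd (nat_lit 19) (.nd (nat_lit 9) (.nd (nat_lit 10) 
(.lf (nat_lit 1476493648) (dlOf (nat_lit 3) (nat_lit 0x101c8000380800100d80000004000c00200080008010802))) 
(.lf (nat_lit 5773559120) (dlOf (nat_lit 1) (nat_lit 0x80080004002000200080e3303)))) 
(.lf (nat_lit 20027216) (dlOf (nat_lit 2) (nat_lit 0x1b99000080080018008000c002000400089da203)))) 
(.nd (nat_lit 9) (.nd (nat_lit 20) 
(.lf (nat_lit 1611236688) (dlOf (nat_lit 1) (nat_lit 0x120008123301))) 
(.lf (nat_lit 49907024) (dlOf (nat_lit 2) (nat_lit 0x23a1800038080080008000c002001200094c3303)))) 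
(.lf (nat_lit 7963472) (dlOf (nat_lit 2) (nat_lit 0x1a4ea8000c80800480080024002000e0008512483))))) 
(.nd (nat_lit 11) (.nd (nat_lit 4) 
(.lf (nat_lit 11633088) (dlOf (nat_lit 2) (nat_lit 0x1a800000000040030002001000086c0882))) 
(.nd (nat_lit 9) 
(.lf (nat_lit 1881244112) (dlOf (nat_lit 8) (nat_lit 0x2c0ca0003d0200160650001a0100060328000a8080050194000400400140ca0000c020010065000048100070328000000800580080028002000a0008e81103))) 
(.lf (nat_lit 1073842128) (dlOf (nat_lit 2) (nat_lit 0x80340002004001c00200060008004502))))) 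
(.nd (nat_lit 9) (.nd (nat_lit 10) 
(.lf (nat_lit 738298320) (dlOf (nat_lit 1) (nat_lit 0x100028094e81))) 
(.lf (nat_lit 1543605712) (dlOf (nat_lit 1) (nat_lit 0x40018146d01)))) 
(.lf (nat_lit 4563504080) (dlOf (nat_lit 1) (nat_lit 0x4004000e0008095d82))))))) (.nd (nat_lit 19) 
(.nd (nat_lit 27) (.nd (nat_lit 4) (.nd (nat_lit 20) 
(.lf (nat_lit 2483126336) (dlOf (nat_lit 5) (nat_lit 0x10602a007a0140000941002a80a0000480403ec05c00b402a0011014803380a005f803002ca010012a00700a40030046801200e8003013a00000008c5801380a0000400402b8004004a0008020782))) 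
(.nd (nat_lit 26) 
(.lf (nat_lit 3490807872) (dlOf (nat_lit 12) (nat_lit 0xe83c600961510001482005a0f58000a00801487ac0004c0400104640002502029e232011d116801d0894013844001121e900130f18057075c01183020070168009c0ac805e055400142a202a2145012609f000484d0000463c001c3d4000180201381eb00950a380004010010851c0001c04009028e0000c02029c1eb017a0e900330558011c2a2023a14001660000000143002d093004543d602701d201050c1800f056401f82ac0048151015b0a380ac850003d827e01b2134013b0000000006000f8008027000203b00008020783))) 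
(.lf (nat_lit 2752610368) (dlOf (nat_lit 12) (nat_lit 0xe83ea00961560001482005a0fe8000a00801487f40004c0400104940002502029e24a011d122801d08e8013846a01121fb00130fa805707b001183020070160009c0af005e056800142ac02a2145012609f000484d0000463c001c3f8000180201381fd00950a380004010010851c0001a04009028e0000c02029c1fd017a0f38033056c011c2ac023a14001660000000143008a87f404e03ce00b41b101050c1800f057801f82b60048156015b0a380ac850003d827e01b2134013b0000000006000f8008027000203b00008020783))))) 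
(.nd (nat_lit 8) 
(.lf (nat_lit 6442551376) (dlOf (nat_lit 1) (nat_lit 0x80080004002000200080f4703))) 
(.nd (nat_lit 11) (.lf (nat_lit 3288432976) (dlOf (nat_lit 1) (nat_lit 0x320028014d01))) 
(.lf (nat_lit 6442551632) (dlOf (nat_lit 1) (nat_lit 0x4000080f4d81)))))) (.nd (nat_lit 8) 
(.nd (nat_lit 4) 
(.lf (nat_lit 2348908608) (dlOf (nat_lit 5) (nat_lit 0x10602a007a0140000941002a80a0000480403ec05800b402a0011014803380a005f803002ca010012a00700a40030046801000e8003013a00000008c5801380a0000400402b8004004a0008020782))) 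
(.nd (nat_lit 7) 
(.lf (nat_lit 2617349712) (dlOf (nat_lit 1) (nat_lit 0x60008006c002001a00080a9c03))) 
(.lf (nat_lit 2617344720) (dlOf (nat_lit 4) (nat_lit 0xf580ac00b80180003b0400e00340001981012401a0019804c0006408008400401ce00180a2002))))) 
(.nd (nat_lit 7) (.nd (nat_lit 9) 
(.lf (nat_lit 3691086160) (dlOf (nat_lit 1) (nat_lit 0xc00200040008010802))) 
(.lf (nat_lit 3355542352) (dlOf (nat_lit 4) (nat_lit 0xf580b800b80180003b0400e002b000198101240158019804c0006408008400401ce00180a2482)))) 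
(.lf (nat_lit 3087108048) (dlOf (nat_lit 1) (nat_lit 0x20028144501)))))) (.nd (nat_lit 20) 
(.nd (nat_lit 4) (.nd (nat_lit 21) (.nd (nat_lit 26) 
(.lf (nat_lit 3221848128) (dlOf (nat_lit 1) (nat_lit 0x400181a1401))) 
(.lf (nat_lit 3960045632) (dlOf (nat_lit 1) (nat_lit 0x20002000600081a1782)))) 
(.lf (nat_lit 2754183232) (dlOf (nat_lit 1) (nat_lit 0x400080020002002400080c1783)))) 
(.nd (nat_lit 7) (.nd (nat_lit 21) 
(.lf (nat_lit 3960045648) (dlOf (nat_lit 3) (nat_lit 0x4808c00027020002046000120181a1900))) 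
(.lf (nat_lit 2754183248) (dlOf (nat_lit 3) (nat_lit 0xd81f90001701003f0fc8000b00801a800800b0002008e00080c1903)))) 
(.lf (nat_lit 2752088016) (dlOf (nat_lit 1) (nat_lit 0x1c0028004501))))) (.nd (nat_lit 26) 
(.nd (nat_lit 4) (.nd (nat_lit 7) 
(.lf (nat_lit 3491332672) (dlOf (nat_lit 2) (nat_lit 0xa1ec00000018091080))) 
(.lf (nat_lit 3491332544) (dlOf (nat_lit 4) (nat_lit 0x3c03ca00c01e400dc0a98001701800a84e40001004003445a013a1e500aa0a98026050c000001000e800401880018090882)))) 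
(.lf (nat_lit 3491332560) (dlOf (nat_lit 9) (nat_lit 0xcc1e800160a80000981020d87a000032040fb03d0000180208041e80000b8102b00f40000580800207a00002604004c3d000010020118249008c123804588ec016c454017e1fd00100f400458788023039e00021a000360b58046059c02302ca011e15e007a0ae00458568008c2a4011214f006d0a6805284f0034026e0118135008c09700018000000005c07e800200f80008090a02)))) 
(.nd (nat_lit 4) (.nd (nat_lit 7) 
(.lf (nat_lit 2753135168) (dlOf (nat_lit 2) (nat_lit 0xa1fe00000018091080))) 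
(.lf (nat_lit 2753135040) (dlOf (nat_lit 4) (nat_lit 0x3c03ee00c01f600dc0ac00016c1800a84e40001004003448a013a1f700aa0ac0026050c000001000e800401880018090882)))) 
(.lf (nat_lit 2753135056) (dlOf (nat_lit 9) (nat_lit 0xcc1fa00160a80000981020d87e800032040fb03f4000180208041fa0000b8102b00fd0000580800207e80002604004c3f4000100200b623f00bf1090045881000403f401181e400010da804606b8023035801161a0008c0b5804605a400d82c6011615f00230ab8047855001e82a4011214f006d0a6805284f0034026e0118135008c09700018000000005c07e800200f80008090a02)))))))))) 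
(.nd (nat_lit 6) (.nd (nat_lit 4) (.nd (nat_lit 28) (.nd (nat_lit 21) (.nd (nat_lit 15) 
(.nd (nat_lit 27) (.nd (nat_lit 22) (.nd (nat_lit 20) 
(.lf (nat_lit 604307456) (dlOf (nat_lit 2) (nat_lit 0x501e0030580800100080098002000c0008130003))) 
(.lf (nat_lit 68485120) (dlOf (nat_lit 1) (nat_lit 0x1e0018580001)))) (.nd (nat_lit 8) 
(.lf (nat_lit 21299200) (dlOf (nat_lit 1) (nat_lit 0x8008035400201240008a30003))) 
(.lf (nat_lit 46989568) (dlOf (nat_lit 1) (nat_lit 0x400400060009380a82))))) (.nd (nat_lit 30) 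
(.nd (nat_lit 19) (.lf (nat_lit 671416320) (dlOf (nat_lit 1) (nat_lit 0x1c00400020018190002))) 
(.lf (nat_lit 2819424256) (dlOf (nat_lit 3) (nat_lit 0x1e0720032801001001b00140808018000800b400200300008280003)))) 
(.nd (nat_lit 29) (.lf (nat_lit 3355770880) (dlOf (nat_lit 1) (nat_lit 0x4002000a0008110002))) 
(.lf (nat_lit 1745158144) (dlOf (nat_lit 2) (nat_lit 0x3a03800bf10180b0000)))))) (.nd (nat_lit 31) 
(.nd (nat_lit 19) (.nd (nat_lit 27) 
(.lf (nat_lit 537231360) (dlOf (nat_lit 1) (nat_lit 0x40028060001))) 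
(.lf (nat_lit 671449088) (dlOf (nat_lit 1) (nat_lit 0x200281a0001)))) (.nd (nat_lit 7) 
(.lf (nat_lit 27099136) (dlOf (nat_lit 2) (nat_lit 0x1342c017f8040020004000c0018ca0002))) 
(.lf (nat_lit 47022208) (dlOf (nat_lit 2) (nat_lit 0xf7390001b019392000))))) (.nd (nat_lit 26) 
(.nd (nat_lit 19) 
(.lf (nat_lit 3221585920) (dlOf (nat_lit 1) (nat_lit 0x680080070002007e0008150003))) 
(.lf (nat_lit 2819457024) (dlOf (nat_lit 1) (nat_lit 0x20008002000200080008290003)))) 
(.nd (nat_lit 22) 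
(.lf (nat_lit 3959783424) (dlOf (nat_lit 1) (nat_lit 0x680080070002007e0008150003))) 
(.lf (nat_lit 2756018176) (dlOf (nat_lit 1) (nat_lit 0x1780080094002003e00081d0003))))))) 
(.nd (nat_lit 7) (.nd (nat_lit 19) (.nd (nat_lit 15) (.nd (nat_lit 8) 
(.lf (nat_lit 37027840) (dlOf (nat_lit 1) (nat_lit 0x20019080001))) 
(.lf (nat_lit 41222400) (dlOf (nat_lit 1) (nat_lit 0x100009222b01)))) (.nd (nat_lit 23) 
(.lf (nat_lit 3506176) (dlOf (nat_lit 4) (nat_lit 0x1c68200082748003936003b3e0c005cd04000e66b00052748004136003b3a100034d0400064e9000726c007508180020008004400200180008200003))) 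
(.lf (nat_lit 62226432) (dlOf (nat_lit 1) (nat_lit 0x400400020009980002))))) (.nd (nat_lit 20) 
(.nd (nat_lit 23) (.lf (nat_lit 2754412544) (dlOf (nat_lit 2) (nat_lit 0x15a20f0065f8180e0000))) 
(.lf (nat_lit 28114944) (dlOf (nat_lit 1) (nat_lit 0x10008000800200040008d50003)))) 
(.lf (nat_lit 12386304) (dlOf (nat_lit 1) (nat_lit 0x7800800a0002003400086c0003))))) 
(.nd (nat_lit 9) (.nd (nat_lit 8) (.nd (nat_lit 19) 
(.lf (nat_lit 28639360) (dlOf (nat_lit 1) (nat_lit 0x8008000400200020008da0483))) 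
(.lf (nat_lit 36503680) (dlOf (nat_lit 1) (nat_lit 0x60019070301)))) 
(.lf (nat_lit 19729792) (dlOf (nat_lit 1) (nat_lit 0x1a600189d6c01)))) (.nd (nat_lit 10) 
(.nd (nat_lit 15) (.lf (nat_lit 20253568) (dlOf (nat_lit 1) (nat_lit 0x4002000200089d5c02))) 
(.lf (nat_lit 20286336) (dlOf (nat_lit 1) (nat_lit 0x4002000200089d5c02)))) 
(.lf (nat_lit 8198016) (dlOf (nat_lit 1) (nat_lit 0x2001851a301))))))) (.nd (nat_lit 26) 
(.nd (nat_lit 30) (.nd (nat_lit 27) (.nd (nat_lit 29) 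
(.lf (nat_lit 268763136) (dlOf (nat_lit 1) (nat_lit 0x800400020018130002))) 
(.lf (nat_lit 5100601344) (dlOf (nat_lit 1) (nat_lit 0x200280f0001)))) 
(.lf (nat_lit 402980864) (dlOf (nat_lit 1) (nat_lit 0x800800b0002002800080c0003)))) 
(.nd (nat_lit 31) (.nd (nat_lit 27) 
(.lf (nat_lit 5637472256) (dlOf (nat_lit 1) (nat_lit 0x1000180f0001))) 
(.lf (nat_lit 1476722688) (dlOf (nat_lit 2) (nat_lit 0x501d001358080018008000800200060008150003)))) 
(.nd (nat_lit 7) (.nd (nat_lit 15) 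
(.lf (nat_lit 3492610048) (dlOf (nat_lit 2) (nat_lit 0x15a1fa0038a8180e0000))) 
(.lf (nat_lit 3494215680) (dlOf (nat_lit 1) (nat_lit 0x1780080094002003e00081d0003)))) 
(.lf (nat_lit 3489995648) (dlOf (nat_lit 1) (nat_lit 0x1000800140020004000800bc83)))))) 
(.nd (nat_lit 15) (.nd (nat_lit 29) (.nd (nat_lit 27) 
(.lf (nat_lit 335872000) (dlOf (nat_lit 1) (nat_lit 0x800800b0002002800080c0003))) 
(.lf (nat_lit 1543831552) (dlOf (nat_lit 1) (nat_lit 0x1c00400020018190002)))) (.nd (nat_lit 19) 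
(.nd (nat_lit 30) (.lf (nat_lit 872742912) (dlOf (nat_lit 2) (nat_lit 0x3a03800da70180b0000))) 
(.lf (nat_lit 6241452032) (dlOf (nat_lit 1) (nat_lit 0x1000180f0001)))) 
(.lf (nat_lit 4096589824) (dlOf (nat_lit 1) (nat_lit 0x20018130001))))) (.nd (nat_lit 27) 
(.nd (nat_lit 19) (.lf (nat_lit 1409646592) (dlOf (nat_lit 1) (nat_lit 0x40028060001))) 
(.lf (nat_lit 3557654528) (dlOf (nat_lit 1) (nat_lit 0x20008002000200080008290003)))) 
(.nd (nat_lit 20) (.lf (nat_lit 1543864320) (dlOf (nat_lit 1) (nat_lit 0x200281a0001))) 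
(.lf (nat_lit 471171072) (dlOf (nat_lit 2) (nat_lit 0x204700134008022800801dc002006a00082a0003)))))))) 
(.nd (nat_lit 15) (.nd (nat_lit 19) (.nd (nat_lit 22) (.nd (nat_lit 27) (.nd (nat_lit 8) 
(.nd (nat_lit 26) (.lf (nat_lit 1342504976) (dlOf (nat_lit 1) (nat_lit 0xc00200040008040482))) 
(.nd (nat_lit 28) 
(.lf (nat_lit 604307472) (dlOf (nat_lit 2) (nat_lit 0x80f00006004008800400100008130282))) 
(.lf (nat_lit 2483355664) (dlOf (nat_lit 1) (nat_lit 0x400080d0881))))) (.nd (nat_lit 7) 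
(.lf (nat_lit 1880425744) (dlOf (nat_lit 3) (nat_lit 0x1d821c00070040040000000170200040018983001))) 
(.nd (nat_lit 9) (.lf (nat_lit 35981712) (dlOf (nat_lit 1) (nat_lit 0x20019014e81))) 
(.lf (nat_lit 8718224) (dlOf (nat_lit 1) (nat_lit 0x8008000400200020008514203)))))) 
(.nd (nat_lit 26) (.nd (nat_lit 7) (.nd (nat_lit 30) 
(.lf (nat_lit 134545424) (dlOf (nat_lit 2) (nat_lit 0x201700000018070500))) 
(.lf (nat_lit 3355770896) (dlOf (nat_lit 5) (nat_lit 0x2c062000460200220310001b0100290188000580802400000000004001800200160008110102)))) 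
(.lf (nat_lit 5771692944) (dlOf (nat_lit 1) (nat_lit 0x20018005c81)))) (.nd (nat_lit 28) 
(.nd (nat_lit 31) (.lf (nat_lit 201654288) (dlOf (nat_lit 2) (nat_lit 0x201700000018070500))) 
(.lf (nat_lit 2349137936) (dlOf (nat_lit 1) (nat_lit 0x400080d0881)))) 
(.lf (nat_lit 470089744) (dlOf (nat_lit 1) (nat_lit 0xc00200040008040482)))))) (.nd (nat_lit 7) 
(.nd (nat_lit 21) (.nd (nat_lit 25) 
(.lf (nat_lit 12910608) (dlOf (nat_lit 1) (nat_lit 0x8004000400186e0502))) 
(.lf (nat_lit 46465040) (dlOf (nat_lit 2) (nat_lit 0x42a5001d10080008008000c00200060009380003)))) 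
(.nd (nat_lit 20) (.lf (nat_lit 23396368) (dlOf (nat_lit 1) (nat_lit 0x16800400780008b80002))) 
(.lf (nat_lit 24444944) (dlOf (nat_lit 6) (nat_lit 0x6ed28000368d0001afe0000541800cda500026d1a00135fc00002830019b4a0004da34000ebf8000040600336940007b46800557f0000060c0066d28001968d0007afe0000081801e0008011400200080008ba0503))))) 
(.nd (nat_lit 8) (.lf (nat_lit 21299344) (dlOf (nat_lit 1) (nat_lit 0x20018a31001))) 
(.lf (nat_lit 54856080) (dlOf (nat_lit 1) (nat_lit 0x20029654e81)))))) (.nd (nat_lit 21) 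
(.nd (nat_lit 20) (.nd (nat_lit 22) (.nd (nat_lit 26) (.nd (nat_lit 27) 
(.lf (nat_lit 851984) (dlOf (nat_lit 1) (nat_lit 0x400200020008020482))) 
(.lf (nat_lit 2819424272) (dlOf (nat_lit 3) (nat_lit 0x17810c00800380005f040034043000c00e0000141002e00080794002000e0008280203)))) 
(.lf (nat_lit 3557621776) (dlOf (nat_lit 1) (nat_lit 0x20028280201)))) (.nd (nat_lit 7) 
(.lf (nat_lit 5046288) (dlOf (nat_lit 1) (nat_lit 0x800400020008300482))) 
(.lf (nat_lit 38603152) (dlOf (nat_lit 1) (nat_lit 0x20019134e81))))) (.nd (nat_lit 22) 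
(.nd (nat_lit 23) (.lf (nat_lit 1344077840) (dlOf (nat_lit 1) (nat_lit 0x18004000600083c0182))) 
(.lf (nat_lit 27066384) (dlOf (nat_lit 1) (nat_lit 0x800080050002002c0008ca0483)))) 
(.lf (nat_lit 14483472) (dlOf (nat_lit 1) (nat_lit 0x400400020008760282))))) (.nd (nat_lit 7) 
(.nd (nat_lit 20) (.nd (nat_lit 26) 
(.lf (nat_lit 3492610064) (dlOf (nat_lit 2) (nat_lit 0x12907e800076040044004005400080e0102))) 
(.lf (nat_lit 2754412560) (dlOf (nat_lit 2) (nat_lit 0x129083c00076040044004005400080e0102)))) 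
(.lf (nat_lit 24969232) (dlOf (nat_lit 1) (nat_lit 0xc0018bd0a01)))) (.nd (nat_lit 9) 
(.nd (nat_lit 20) (.lf (nat_lit 472713616) (dlOf (nat_lit 1) (nat_lit 0x5c00400480008a44e82))) 
(.lf (nat_lit 33360272) (dlOf (nat_lit 1) (nat_lit 0x20008f54e81)))) 
(.lf (nat_lit 19729296) (dlOf (nat_lit 1) (nat_lit 0x600289d5c81))))))) (.nd (nat_lit 19) 
(.nd (nat_lit 28) (.nd (nat_lit 29) (.nd (nat_lit 7) (.nd (nat_lit 20) (.nd (nat_lit 22) 
(.lf (nat_lit 3221585936) (dlOf (nat_lit 26) (nat_lit 0xd009c004c03200b420200150178057fc08010011802bfa04006009c02c204600a7602017b0230053a8080be0118025c08a0272043000701c0053882003281380273204008409c0137602007404e009ba010038027004dcc0800a0138009804e0134704012e04e007b013804d10100630138017404e0134204011c04e000e01a8011009c0267e0c060008c01160450014c820017023000a44080160130000808a012603d012001e002100dc048c01a024600300c00000009e44004a00f800b8038002400e0096000000974200040118000a00402c808c000390201760460001b81008d023000070080a801180002e04060008c00520450000a8200b30270065811c070008c00e604500a402200c6010c019008402fa040008201c000d80b0004005002c80160011000000000684320008035800205d80008150503)))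 
(.lf (nat_lit 12943376) (dlOf (nat_lit 1) (nat_lit 0x180080010002000a00086f0103)))) 
(.lf (nat_lit 24477712) (dlOf (nat_lit 6) (nat_lit 0xd7a8000ebbd0000a8200025a2800014080012d140000804000568a00003020004bd400035a28000081000c0008003000200120008ba0503)))) 
(.nd (nat_lit 9) (.lf (nat_lit 36014480) (dlOf (nat_lit 1) (nat_lit 0x20019014e81))) 
(.lf (nat_lit 8750992) (dlOf (nat_lit 1) (nat_lit 0x40028514201))))) (.nd (nat_lit 10) 
(.nd (nat_lit 26) 
(.lf (nat_lit 537231376) (dlOf (nat_lit 2) (nat_lit 0x40330003f80802b8008007c002003e0008060483))) 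
(.lf (nat_lit 3959783440) (dlOf (nat_lit 26) (nat_lit 0x5f008c012e0450139021800380e002cce10006009c02c204600b2982017b0230059440801a013800980640151504004004600a4c810015017805234080328138026f804008409c0136602007404e009b2010038027004d8c0800a0138009804e0133e04012e04e007b013804ce8100630138017404e0133804011c04e000e01a8011009c0266a0c005c08c00297020300046008b022800a4c100160130000808a012603d012001e002100dc048c01a024600300c00000009ac4004a00f800b8038002400e0096000000924200040118000800402c808c000350201760460001981008d023000044080a801180001c04060008c0052045000060200b30270065811c070008c00e604500a402200c6010c019008402fa040008201c000d80b0004005002c80160011000000000684320008035800205d80008150503)))) 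
(.lf (nat_lit 2751824912) (dlOf (nat_lit 1) (nat_lit 0x20018002881))))) (.nd (nat_lit 26) 
(.nd (nat_lit 27) (.nd (nat_lit 30) 
(.lf (nat_lit 4563763216) (dlOf (nat_lit 1) (nat_lit 0x200280d0001))) 
(.lf (nat_lit 1342537744) (dlOf (nat_lit 1) (nat_lit 0x20018050a01)))) 
(.lf (nat_lit 4697980944) (dlOf (nat_lit 1) (nat_lit 0x200280d0001)))) (.nd (nat_lit 20) 
(.nd (nat_lit 27) 
(.lf (nat_lit 1409646608) (dlOf (nat_lit 2) (nat_lit 0x40330006380802b8008007c002003e0008060483))) 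
(.lf (nat_lit 470122512) (dlOf (nat_lit 1) (nat_lit 0x20018050a01)))) 
(.lf (nat_lit 471171088) (dlOf (nat_lit 2) (nat_lit 0x2900000017c0800c0008019c002000800082a0203)))))) 
(.nd (nat_lit 8) (.nd (nat_lit 28) (.nd (nat_lit 21) 
(.lf (nat_lit 537755664) (dlOf (nat_lit 9) (nat_lit 0x20000000b80400040000005b0200080000001c0100050000000dc0800a80780000e0400100480000502001e0240000201000401200000c0803280080084002002a0008160203))) 
(.lf (nat_lit 11370512) (dlOf (nat_lit 1) (nat_lit 0x1b800800fc002002c0008690103)))) 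
(.nd (nat_lit 9) 
(.lf (nat_lit 1410170896) (dlOf (nat_lit 9) (nat_lit 0x20000000b80400040000005b0200080000001c0100050000000dc0800a80780000e0400100480000602001e0240000201000401200000c0803280080084002002a0008160203))) 
(.lf (nat_lit 1880984080) (dlOf (nat_lit 1) (nat_lit 0x8008000400200020008dd5083))))) 
(.nd (nat_lit 7) (.nd (nat_lit 9) 
(.lf (nat_lit 60654864) (dlOf (nat_lit 1) (nat_lit 0x200298c3001))) 
(.lf (nat_lit 45976336) (dlOf (nat_lit 1) (nat_lit 0x20019385b81)))) (.nd (nat_lit 9) 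
(.nd (nat_lit 20) (.lf (nat_lit 38635920) (dlOf (nat_lit 1) (nat_lit 0x400200040009134e82))) 
(.lf (nat_lit 54364560) (dlOf (nat_lit 1) (nat_lit 0x20019654e81)))) 
(.lf (nat_lit 1879934864) (dlOf (nat_lit 1) (nat_lit 0xe8008005c002003600083d4203))))))))) 
(.nd (nat_lit 15) (.nd (nat_lit 4) (.nd (nat_lit 19) (.nd (nat_lit 28) (.nd (nat_lit 21) 
(.nd (nat_lit 22) (.nd (nat_lit 29) 
(.lf (nat_lit 1208287296) (dlOf (nat_lit 16) (nat_lit 0x2e780a408bc0500ac000c00039030223014801b00a00638018000710601ac029008b0060001c0100e380a4015805000d002401710060000802c000de1401f8052005400c00037020024014801380300004c08072405202a802801410060000881809100a401d005001c400c00010830067014801600a002d401800020060096029003400600007c1000500a400480180001e0402e00290074014007b8030000380c068405202540280008011809d0030000361003ac0520001a0202c002900d90060000641000f800800e8002001c00080b0503))) 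
(.lf (nat_lit 3892641856) (dlOf (nat_lit 1) (nat_lit 0x20004000c0008180502)))) (.nd (nat_lit 7) 
(.lf (nat_lit 54856512) (dlOf (nat_lit 1) (nat_lit 0x1400400be0009655c02))) 
(.lf (nat_lit 47513792) (dlOf (nat_lit 1) (nat_lit 0x8008000400200020009400783))))) 
(.nd (nat_lit 9) (.nd (nat_lit 7) 
(.lf (nat_lit 56952128) (dlOf (nat_lit 1) (nat_lit 0x440019793281))) 
(.lf (nat_lit 23396800) (dlOf (nat_lit 1) (nat_lit 0xc00400120008b80882)))) (.nd (nat_lit 10) 
(.lf (nat_lit 20253504) (dlOf (nat_lit 1) (nat_lit 0x4002000200089d5c02))) 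
(.lf (nat_lit 20256576) (dlOf (nat_lit 1) (nat_lit 0x2800189da101)))))) (.nd (nat_lit 26) 
(.nd (nat_lit 29) (.nd (nat_lit 32) 
(.lf (nat_lit 268763200) (dlOf (nat_lit 3) (nat_lit 0x4602a000c014800a80a0014180c0090054001c029001601400282c1800b8008000800200120008131683))) 
(.lf (nat_lit 4563730496) (dlOf (nat_lit 2) (nat_lit 0x280520008e02000600280d0481)))) 
(.lf (nat_lit 4026859584) (dlOf (nat_lit 2) (nat_lit 0x10168000800802b800800f400200d600080a0d03)))) 
(.nd (nat_lit 7) 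
(.lf (nat_lit 2080702528) (dlOf (nat_lit 16) (nat_lit 0x2e780a408bc0500ac000c00039030223014801b00a00638018000710601ac029008b0060001c0100e380a4015805000d002401710060000802c000de1401f8052005400c00037020024014801380300004c08072405202a802801410060000881809100a401d005001c400c00010830067014801600a002d401800020060096029003400600007c1000500a400480180001e0402e00290074014007b8030000380c068405202540280008011809d0030000361003ac0520001a0202c002900d90060000641000f800800e8002001c00080b0503))) 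
(.nd (nat_lit 10) (.lf (nat_lit 335872192) (dlOf (nat_lit 1) (nat_lit 0xc00180c1b01))) 
(.lf (nat_lit 1008010432) (dlOf (nat_lit 2) (nat_lit 0x101c6000130200020018982d01))))))) 
(.nd (nat_lit 10) (.nd (nat_lit 20) (.nd (nat_lit 22) (.nd (nat_lit 23) 
(.lf (nat_lit 852032) (dlOf (nat_lit 1) (nat_lit 0xc0028020781))) 
(.lf (nat_lit 9240640) (dlOf (nat_lit 1) (nat_lit 0x8008001400200020008530503)))) 
(.lf (nat_lit 21823552) (dlOf (nat_lit 8) (nat_lit 0xa7c888000940804f6abc015355a00ada550007d28802be4440005ea0000230c00d1aaf000110100b6d578031e9540091eae000200600299c400cbc8b005ee1c0000300c024722c01198700000282006ec8b003461c00000008000800400d60018a70782)))) 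
(.lf (nat_lit 1346175040) (dlOf (nat_lit 2) (nat_lit 0x1029a000a0d900123828e60600)))) 
(.nd (nat_lit 7) (.nd (nat_lit 12) 
(.lf (nat_lit 1410139968) (dlOf (nat_lit 4) (nat_lit 0x600000006c0400440000002e020132000000168180f3e00))) 
(.lf (nat_lit 20780864) (dlOf (nat_lit 1) (nat_lit 0x200289da101)))) (.nd (nat_lit 9) 
(.lf (nat_lit 58524864) (dlOf (nat_lit 1) (nat_lit 0x50002001a00097e2d02))) 
(.lf (nat_lit 2752317120) (dlOf (nat_lit 1) (nat_lit 0x20008003a81))))))) (.nd (nat_lit 27) 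
(.nd (nat_lit 22) (.nd (nat_lit 19) (.nd (nat_lit 26) (.nd (nat_lit 9) 
(.lf (nat_lit 1376336) (dlOf (nat_lit 1) (nat_lit 0x1c004000200080c1002))) 
(.lf (nat_lit 35981904) (dlOf (nat_lit 1) (nat_lit 0x4002000c0009015282)))) (.nd (nat_lit 29) 
(.lf (nat_lit 2483355728) (dlOf (nat_lit 3) (nat_lit 0x18090001402a00058040002025000700000013c1003c80080080002004200080d0d03))) 
(.lf (nat_lit 872742992) (dlOf (nat_lit 4) (nat_lit 0xc0000002601000c0188001080800500000006a040030002007e00080b0682))))) 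
(.nd (nat_lit 20) (.nd (nat_lit 7) 
(.lf (nat_lit 42795088) (dlOf (nat_lit 1) (nat_lit 0x8008000400200760009280703))) 
(.lf (nat_lit 19731920) (dlOf (nat_lit 1) (nat_lit 0x1000289d9b01)))) (.nd (nat_lit 21) 
(.lf (nat_lit 10289232) (dlOf (nat_lit 1) (nat_lit 0x4004000200185c1002))) 
(.lf (nat_lit 1346175056) (dlOf (nat_lit 1) (nat_lit 0x20008e60701)))))) (.nd (nat_lit 21) 
(.nd (nat_lit 19) (.nd (nat_lit 23) (.nd (nat_lit 26) 
(.lf (nat_lit 3494182992) (dlOf (nat_lit 1) (nat_lit 0x80080020002000200081c0f83))) 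
(.lf (nat_lit 2755985488) (dlOf (nat_lit 1) (nat_lit 0x80080020002000200081c0f83)))) 
(.lf (nat_lit 29687888) (dlOf (nat_lit 2) (nat_lit 0x1b09d400d008e80017c100008008000800200060008e30203)))) 
(.nd (nat_lit 9) (.lf (nat_lit 13434960) (dlOf (nat_lit 2) (nat_lit 0x671500008018721900))) 
(.lf (nat_lit 38603344) (dlOf (nat_lit 1) (nat_lit 0x400200020009135282))))) (.nd (nat_lit 8) 
(.nd (nat_lit 19) (.lf (nat_lit 49613392) (dlOf (nat_lit 2) (nat_lit 0xa9f80000e819465280))) 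
(.lf (nat_lit 33360464) (dlOf (nat_lit 1) (nat_lit 0x400400020008f55282)))) (.nd (nat_lit 10) 
(.lf (nat_lit 23396688) (dlOf (nat_lit 2) (nat_lit 0xe975100020018b80600))) 
(.lf (nat_lit 56952144) (dlOf (nat_lit 4) (nat_lit 0x24bda004e5ec000150200042f70000880801097a400148660001004007a0029793301))))))) 
(.nd (nat_lit 26) (.nd (nat_lit 7) (.nd (nat_lit 8) (.nd (nat_lit 29) 
(.lf (nat_lit 1208287312) (dlOf (nat_lit 3) (nat_lit 0x80720005302005a027000110180b0680))) 
(.lf (nat_lit 1745158224) (dlOf (nat_lit 4) (nat_lit 0xc0000002601000c0188001080800500000006a040030002007e00080b0682)))) 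
(.lf (nat_lit 3624209744) (dlOf (nat_lit 3) (nat_lit 0x803e0000a01001e01f00004c080108008001800200120008146a03)))) 
(.nd (nat_lit 8) (.lf (nat_lit 402981072) (dlOf (nat_lit 1) (nat_lit 0x800180c1881))) 
(.lf (nat_lit 2818905552) (dlOf (nat_lit 2) (nat_lit 0x8000000080080038008003000200120008129b03))))) 
(.nd (nat_lit 9) (.nd (nat_lit 7) (.nd (nat_lit 28) 
(.lf (nat_lit 2349138000) (dlOf (nat_lit 3) (nat_lit 0x18090001402a0005104000202500070000001201003c80080080002004200080d0d03))) 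
(.lf (nat_lit 2080702544) (dlOf (nat_lit 3) (nat_lit 0x80720005302005a027000110180b0680)))) 
(.lf (nat_lit 6377242832) (dlOf (nat_lit 1) (nat_lit 0x80080004002000400080c1b83)))) 
(.nd (nat_lit 7) (.nd (nat_lit 19) 
(.lf (nat_lit 1008011856) (dlOf (nat_lit 2) (nat_lit 0x81c20001d0200020008985281))) 
(.lf (nat_lit 472713808) (dlOf (nat_lit 2) (nat_lit 0x585140000004000800400020008a45282)))) 
(.lf (nat_lit 2886010832) (dlOf (nat_lit 1) (nat_lit 0x800200020008144502)))))))) (.nd (nat_lit 19) 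
(.nd (nat_lit 29) (.nd (nat_lit 9) (.nd (nat_lit 20) (.nd (nat_lit 8) (.nd (nat_lit 22) 
(.lf (nat_lit 3288694864) (dlOf (nat_lit 1) (nat_lit 0x680080078002001c00080c1603))) 
(.lf (nat_lit 29720656) (dlOf (nat_lit 2) (nat_lit 0xef5c18069a750000be080020004003c0018e30202)))) 
(.nd (nat_lit 7) 
(.lf (nat_lit 3624242512) (dlOf (nat_lit 3) (nat_lit 0x80110005c07c001c0000000a03003501f00004c080018008002c00200120008146a03))) 
(.lf (nat_lit 366032) (dlOf (nat_lit 1) (nat_lit 0x400400020018009b02))))) (.nd (nat_lit 22) 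
(.nd (nat_lit 23) (.lf (nat_lit 1409104) (dlOf (nat_lit 1) (nat_lit 0x200280c1001))) 
(.lf (nat_lit 9797712) (dlOf (nat_lit 2) (nat_lit 0x79050001e018580500)))) 
(.lf (nat_lit 55935056) (dlOf (nat_lit 2) (nat_lit 0x2a7b00445348000381000200080004002001400096f0703))))) 
(.nd (nat_lit 7) (.nd (nat_lit 4) 
(.lf (nat_lit 3493168960) (dlOf (nat_lit 8) (nat_lit 0x11a41800003602042c0c00001a8101d40600000d0080220300000660401101ac01800bf0295044000581ec00a40080002e0a018e0d6002a063003e02fc126c1100062087003f03d803480100005a1c05e41800002b0205a000180f3e01))) 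
(.nd (nat_lit 10) 
(.lf (nat_lit 45451856) (dlOf (nat_lit 6) (nat_lit 0x177528000f408009ba940015c620003c040052ea50024718802cb3a8009196c00037080054ea5002d718801e33a8008996c00036080020ea5000f7188007b2d8000000c00b8004001e0009325282))) 
(.lf (nat_lit 8750672) (dlOf (nat_lit 1) (nat_lit 0x40028513881))))) (.nd (nat_lit 8) 
(.lf (nat_lit 5503290064) (dlOf (nat_lit 1) (nat_lit 0x1800280e5881))) 
(.lf (nat_lit 8751056) (dlOf (nat_lit 1) (nat_lit 0x40028514501)))))) (.nd (nat_lit 26) 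
(.nd (nat_lit 4) (.nd (nat_lit 28) 
(.lf (nat_lit 1610973248) (dlOf (nat_lit 2) (nat_lit 0x1cc0550297027001180dc000700c005c004002800180b0502))) 
(.lf (nat_lit 4026892352) (dlOf (nat_lit 2) (nat_lit 0x39803c000640400fc004005c00180c1782)))) 
(.nd (nat_lit 27) (.lf (nat_lit 1610973264) (dlOf (nat_lit 1) (nat_lit 0xc004000200080b0682))) 
(.lf (nat_lit 5234851920) (dlOf (nat_lit 5) (nat_lit 0xb0054000bc04007002a0005d02002a0150002d81001500a800168080098008006800200100008100503))))) 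
(.nd (nat_lit 28) (.nd (nat_lit 4) 
(.lf (nat_lit 738558016) (dlOf (nat_lit 2) (nat_lit 0x1cc0550297027001180dc0006c0c005c004002800180b0502))) 
(.lf (nat_lit 738558032) (dlOf (nat_lit 1) (nat_lit 0xc004000200080b0682)))) (.nd (nat_lit 9) 
(.lf (nat_lit 3154477136) (dlOf (nat_lit 11) (nat_lit 0x2032802a00ac016402e00bc0000000e840124000000070080368000000360402800000001a0200840000000c8100050318054817c022c0b003d20560197023000180e807c006a03d402b01c500b8031803401a40100000b160018058001b023003300ac000120c04840ac0250035015600b80001c180a800ac0000804064c08c004004301890158000001800e00080010002007a00081a0703))) 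
(.lf (nat_lit 4096099920) (dlOf (nat_lit 1) (nat_lit 0x400280e3881))))))) (.nd (nat_lit 9) 
(.nd (nat_lit 30) (.nd (nat_lit 4) (.nd (nat_lit 21) 
(.lf (nat_lit 21856320) (dlOf (nat_lit 2) (nat_lit 0x820d700011818a70780))) 
(.lf (nat_lit 53313600) (dlOf (nat_lit 1) (nat_lit 0x400200020009590502)))) (.nd (nat_lit 7) 
(.lf (nat_lit 884816) (dlOf (nat_lit 2) (nat_lit 0x880000002a0200020018031001))) 
(.lf (nat_lit 471700944) (dlOf (nat_lit 1) (nat_lit 0xc00183d9b01))))) (.nd (nat_lit 10) 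
(.nd (nat_lit 4) 
(.lf (nat_lit 1346207808) (dlOf (nat_lit 2) (nat_lit 0x4a0580010829a0d460d9072d06c0030827001c011a00ae07d005003e00091c4003900080658002004c0008e60603))) 
(.lf (nat_lit 5772247248) (dlOf (nat_lit 1) (nat_lit 0x3800028090901)))) (.nd (nat_lit 8) 
(.lf (nat_lit 5772248144) (dlOf (nat_lit 1) (nat_lit 0x980018092881))) 
(.lf (nat_lit 1880982864) (dlOf (nat_lit 1) (nat_lit 0x400400020008dd3302)))))) (.nd (nat_lit 11) 
(.nd (nat_lit 4) (.nd (nat_lit 10) 
(.lf (nat_lit 8225600) (dlOf (nat_lit 1) (nat_lit 0x8008000400200020008512303))) 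
(.lf (nat_lit 2752350016) (dlOf (nat_lit 1) (nat_lit 0x8008004800200260008003e03)))) 
(.nd (nat_lit 7) (.lf (nat_lit 4095575632) (dlOf (nat_lit 1) (nat_lit 0x4004000200080e3882))) 
(.lf (nat_lit 2752350160) (dlOf (nat_lit 2) (nat_lit 0x1010000040080020008001c00200040008004503))))) 
(.nd (nat_lit 8) (.nd (nat_lit 21) 
(.lf (nat_lit 35490384) (dlOf (nat_lit 1) (nat_lit 0x8008000400200020009015283))) 
(.lf (nat_lit 33393232) (dlOf (nat_lit 1) (nat_lit 0x458008016c00200da0008f55283)))) 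
(.nd (nat_lit 23) (.lf (nat_lit 54365008) (dlOf (nat_lit 1) (nat_lit 0x800400020019655c02))) 
(.lf (nat_lit 45976400) (dlOf (nat_lit 1) (nat_lit 0x20019385c01))))))))))))

end

end Pool.Agent.Lib.MP_5854e1_co.Cz

namespace Pool.Agent.Lib.MP_5854e1_co.Cz

noncomputable section

noncomputable def tz01 : DT := (.nd (nat_lit 18) (.nd (nat_lit 6) (.nd (nat_lit 16) 
(.nd (nat_lit 4) (.nd (nat_lit 19) (.nd (nat_lit 8) (.nd (nat_lit 15) (.nd (nat_lit 28) 
(.nd (nat_lit 20) (.nd (nat_lit 7) (.nd (nat_lit 21) 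
(.lf (nat_lit 1140858880) (dlOf (nat_lit 1) (nat_lit 0x80018000001))) 
(.lf (nat_lit 52436992) (dlOf (nat_lit 1) (nat_lit 0x20029530001)))) 
(.lf (nat_lit 2281715328) (dlOf (nat_lit 1) (nat_lit 0x40008000400200020008009d83)))) 
(.nd (nat_lit 24) (.lf (nat_lit 47194112) (dlOf (nat_lit 1) (nat_lit 0x4002000200093b0002))) 
(.lf (nat_lit 30416896) (dlOf (nat_lit 1) (nat_lit 0x3400200040008e30002))))) (.nd (nat_lit 9) 
(.nd (nat_lit 10) (.nd (nat_lit 22) 
(.lf (nat_lit 2013274112) (dlOf (nat_lit 1) (nat_lit 0x80018000001))) 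
(.lf (nat_lit 473964544) (dlOf (nat_lit 1) (nat_lit 0xa0008000c00200020008fe0003)))) 
(.lf (nat_lit 1476408320) (dlOf (nat_lit 1) (nat_lit 0x20018009201)))) (.nd (nat_lit 10) 
(.lf (nat_lit 3623893504) (dlOf (nat_lit 1) (nat_lit 0xe00020158000800b282))) 
(.lf (nat_lit 2617259520) (dlOf (nat_lit 1) (nat_lit 0x400400020008009c02)))))) (.nd (nat_lit 9) 
(.nd (nat_lit 7) (.nd (nat_lit 11) 
(.lf (nat_lit 469804032) (dlOf (nat_lit 1) (nat_lit 0x60028002881))) 
(.lf (nat_lit 19966976) (dlOf (nat_lit 2) (nat_lit 0x1300c000d6a40002c04000a00189d5f01)))) 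
(.nd (nat_lit 26) 
(.lf (nat_lit 1476442240) (dlOf (nat_lit 2) (nat_lit 0x10070029580800600080040002006c000800a883))) 
(.lf (nat_lit 3691034752) (dlOf (nat_lit 2) (nat_lit 0x148000000000400880020008000800a882))))) 
(.nd (nat_lit 10) (.nd (nat_lit 11) 
(.lf (nat_lit 19968640) (dlOf (nat_lit 1) (nat_lit 0x28008000c002000400089d8b03))) 
(.lf (nat_lit 5033208448) (dlOf (nat_lit 1) (nat_lit 0x20028005481)))) (.nd (nat_lit 7) 
(.lf (nat_lit 4966098432) (dlOf (nat_lit 1) (nat_lit 0x2a0028003681))) 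
(.lf (nat_lit 19967616) (dlOf (nat_lit 1) (nat_lit 0x180080010002000600089d7183))))))) 
(.nd (nat_lit 27) (.nd (nat_lit 7) (.nd (nat_lit 20) 
(.lf (nat_lit 54534400) (dlOf (nat_lit 1) (nat_lit 0x100029650a81))) (.nd (nat_lit 21) 
(.lf (nat_lit 1057024) (dlOf (nat_lit 1) (nat_lit 0x400400020008067a82))) 
(.lf (nat_lit 40902912) (dlOf (nat_lit 2) (nat_lit 0x121ec000d004001000400020009202a02))))) 
(.nd (nat_lit 12) (.nd (nat_lit 9) 
(.lf (nat_lit 3489671552) (dlOf (nat_lit 1) (nat_lit 0x400200020008004e82))) 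
(.lf (nat_lit 19966848) (dlOf (nat_lit 1) (nat_lit 0x4002000200089d5c02)))) (.nd (nat_lit 11) 
(.lf (nat_lit 19935616) (dlOf (nat_lit 1) (nat_lit 0x10004000400189d8382))) 
(.lf (nat_lit 1342192000) (dlOf (nat_lit 1) (nat_lit 0x800800dc0020006000800af83)))))) 
(.nd (nat_lit 9) (.nd (nat_lit 31) (.nd (nat_lit 7) 
(.lf (nat_lit 4697628928) (dlOf (nat_lit 1) (nat_lit 0x4400400060008000a82))) 
(.lf (nat_lit 671104384) (dlOf (nat_lit 1) (nat_lit 0x8002000c000800c902)))) (.nd (nat_lit 15) 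
(.lf (nat_lit 3892322560) (dlOf (nat_lit 2) (nat_lit 0x5008c001c8040044004000e0008000a82))) 
(.lf (nat_lit 2818613504) (dlOf (nat_lit 1) (nat_lit 0x13800801e400201e60008000a83))))) 
(.nd (nat_lit 15) (.nd (nat_lit 28) 
(.lf (nat_lit 201336576) (dlOf (nat_lit 2) (nat_lit 0x401040004070000470400020028003b81))) 
(.lf (nat_lit 1006642944) (dlOf (nat_lit 1) (nat_lit 0x20028003b81)))) 
(.lf (nat_lit 201369344) (dlOf (nat_lit 2) (nat_lit 0x4020800380f40004070000470600080018003b81))))))) 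
(.nd (nat_lit 15) (.nd (nat_lit 21) (.nd (nat_lit 28) (.nd (nat_lit 26) (.nd (nat_lit 8) 
(.lf (nat_lit 4726784) (dlOf (nat_lit 1) (nat_lit 0x4004000200082b0002))) 
(.lf (nat_lit 50864384) (dlOf (nat_lit 5) (nat_lit 0x1a6f0c00db784003db540001183002cde18027ef080004408000b7860051bc20001082002dde18000100800c800802c0002003c00094d2a03)))) 
(.nd (nat_lit 27) 
(.lf (nat_lit 1678254080) (dlOf (nat_lit 6) (nat_lit 0x1000000ecc81000600000765c08006000003b2c04001c086000c03300678820052000000000080080008013c002003200081c0003))) 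
(.lf (nat_lit 2886213632) (dlOf (nat_lit 1) (nat_lit 0x1400400040008190002))))) (.nd (nat_lit 9) 
(.nd (nat_lit 27) 
(.lf (nat_lit 805838848) (dlOf (nat_lit 6) (nat_lit 0x1000000d1a0100060000068c80800600000346204001c086000c033003a4020052000000000080080008013c002003200081c0003))) 
(.lf (nat_lit 3624411136) (dlOf (nat_lit 1) (nat_lit 0x1400400040008190002)))) (.nd (nat_lit 8) 
(.nd (nat_lit 26) (.lf (nat_lit 1342710272) (dlOf (nat_lit 2) (nat_lit 0x4823c0010c8180c0d80))) 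
(.lf (nat_lit 470295040) (dlOf (nat_lit 2) (nat_lit 0x4823c0010e0180c0d80)))) 
(.lf (nat_lit 1880632064) (dlOf (nat_lit 2) (nat_lit 0x7837c0002604003800400660018b05a82)))))) 
(.nd (nat_lit 9) (.nd (nat_lit 20) (.nd (nat_lit 26) (.nd (nat_lit 28) 
(.lf (nat_lit 2629632) (dlOf (nat_lit 1) (nat_lit 0x20018180001))) 
(.lf (nat_lit 3492290560) (dlOf (nat_lit 1) (nat_lit 0x80080004002000200080c0003)))) 
(.lf (nat_lit 2754093056) (dlOf (nat_lit 1) (nat_lit 0x80080004002000200080c0003)))) 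
(.nd (nat_lit 8) (.lf (nat_lit 37232640) (dlOf (nat_lit 1) (nat_lit 0x200190c0001))) 
(.lf (nat_lit 1345855744) (dlOf (nat_lit 4) (nat_lit 0x241ee0006802000e0f70003301000607b8000000802f8008000800200300008e02b03))))) 
(.nd (nat_lit 8) (.nd (nat_lit 10) 
(.lf (nat_lit 1345856000) (dlOf (nat_lit 1) (nat_lit 0x4002000e0008e07b02))) 
(.lf (nat_lit 20461056) (dlOf (nat_lit 1) (nat_lit 0x200289d9c01)))) 
(.lf (nat_lit 49818368) (dlOf (nat_lit 1) (nat_lit 0x4004000200094c5a82)))))) (.nd (nat_lit 20) 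
(.nd (nat_lit 30) (.nd (nat_lit 23) (.nd (nat_lit 26) 
(.lf (nat_lit 805871616) (dlOf (nat_lit 18) (nat_lit 0x16e022003e600809f011001f2a04025808800f94020192044007c1810101022003e080806f811001f020403d008800f80020188044007b60100c6022003da80805c011001ed004052408800f6102018e044007af810096022003d7408016011001eb40402a808800f4b020022044007a5010010016800000080318008022800201fc00081d0003))) 
(.lf (nat_lit 738762752) (dlOf (nat_lit 3) (nat_lit 0x1c05500b9a01000c02a805ccc0802e8008016000200920008100003)))) 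
(.nd (nat_lit 9) (.lf (nat_lit 11051008) (dlOf (nat_lit 2) (nat_lit 0xb84b00000018660000))) 
(.lf (nat_lit 8955392) (dlOf (nat_lit 1) (nat_lit 0xc00200060008513682))))) (.nd (nat_lit 26) 
(.nd (nat_lit 27) 
(.lf (nat_lit 1611177984) (dlOf (nat_lit 3) (nat_lit 0x1c05500aeb01000c02a8057540802e8008016000200920008100003))) 
(.lf (nat_lit 3892879360) (dlOf (nat_lit 2) (nat_lit 0xc80900161e04003c004000a0008280002)))) 
(.lf (nat_lit 1678286848) (dlOf (nat_lit 18) (nat_lit 0xdf022003e4c08064811001f2404040408800f910201e8044007c801016e022003e200809f011001f0a04025808800f8402018c044007b60100c4022003da80805c011001ed004031c08800f58020292044007ab010096022003d5008016011001ea20402a808800f4c020022044007a5010010016800000080318008022800201fc00081d0003))))) 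
(.nd (nat_lit 8) (.nd (nat_lit 9) (.nd (nat_lit 22) 
(.lf (nat_lit 10002432) (dlOf (nat_lit 1) (nat_lit 0xc800800bc002005400085a0003))) 
(.lf (nat_lit 22585344) (dlOf (nat_lit 1) (nat_lit 0x6c004002c0008b00002)))) 
(.lf (nat_lit 1345888768) (dlOf (nat_lit 1) (nat_lit 0x14004003e0008e07b02)))) (.nd (nat_lit 24) 
(.lf (nat_lit 1345888512) (dlOf (nat_lit 4) (nat_lit 0xa152000307b8001a010002054800081ee00066040006152000107b8000001004c8008000400200160008e02b03))) 
(.lf (nat_lit 20488448) (dlOf (nat_lit 1) (nat_lit 0x4002000200089d0a82)))))))) (.nd (nat_lit 19) 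
(.nd (nat_lit 7) (.nd (nat_lit 27) (.nd (nat_lit 21) (.nd (nat_lit 8) (.nd (nat_lit 10) 
(.nd (nat_lit 15) (.lf (nat_lit 1346379792) (dlOf (nat_lit 2) (nat_lit 0x40b400bf1818f60000))) 
(.lf (nat_lit 22061072) (dlOf (nat_lit 1) (nat_lit 0x60018a90481)))) 
(.lf (nat_lit 50340880) (dlOf (nat_lit 1) (nat_lit 0x1e00294c2881)))) (.nd (nat_lit 9) 
(.lf (nat_lit 51422480) (dlOf (nat_lit 3) (nat_lit 0x4ce90001c81000374b0000e0080018008000800200080009513003))) 
(.lf (nat_lit 536880912) (dlOf (nat_lit 1) (nat_lit 0x200028003c01))))) (.nd (nat_lit 9) 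
(.nd (nat_lit 22) (.nd (nat_lit 24) 
(.lf (nat_lit 2105360) (dlOf (nat_lit 1) (nat_lit 0x220018150001))) 
(.lf (nat_lit 52437008) (dlOf (nat_lit 1) (nat_lit 0x400400020019530002)))) (.nd (nat_lit 15) 
(.lf (nat_lit 23076880) (dlOf (nat_lit 3) (nat_lit 0x1ecde701f56a400fb351803052c201ac95e000d0000001043003d379c00a9a8c00e2cce006b0000000ec200a1800803e000205be0008b50103))) 
(.lf (nat_lit 23109648) (dlOf (nat_lit 2) (nat_lit 0x60000013c818b60500))))) (.nd (nat_lit 8) 
(.lf (nat_lit 2754620944) (dlOf (nat_lit 1) (nat_lit 0x200180f7081))) 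
(.lf (nat_lit 19968784) (dlOf (nat_lit 1) (nat_lit 0x800089d8f81)))))) (.nd (nat_lit 12) 
(.nd (nat_lit 26) (.nd (nat_lit 15) 
(.lf (nat_lit 2818583568) (dlOf (nat_lit 1) (nat_lit 0x18008002000200020008005f83))) 
(.lf (nat_lit 2818616336) (dlOf (nat_lit 7) (nat_lit 0x18018001c008004c0000002b030013003000154080058018000a804005800c000530200620000000981001100000004808000800800f800200020008005f83)))) 
(.nd (nat_lit 10) 
(.lf (nat_lit 470851600) (dlOf (nat_lit 2) (nat_lit 0x3001200048c0800300080060002001600081c0483))) 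
(.lf (nat_lit 1275112464) (dlOf (nat_lit 1) (nat_lit 0x1300080008002002c0008005f83))))) 
(.nd (nat_lit 8) (.nd (nat_lit 9) 
(.lf (nat_lit 3690999824) (dlOf (nat_lit 2) (nat_lit 0x28000004c40200120008007a81))) 
(.lf (nat_lit 1543518736) (dlOf (nat_lit 1) (nat_lit 0x8002000c000800b282)))) (.nd (nat_lit 26) 
(.lf (nat_lit 1476409616) (dlOf (nat_lit 13) (nat_lit 0x3805c001400e00100000002f03000d00b8005805800340000005d060012017000800b00050000000b80c02d002200052020014017000800b0049804400440000005108000e017001500b004e804400440200002007000e002000880080038000000501000040170002281000200b80010c08000805c0008404001002e00100070002002000200b8000f808000805c0007a0401bc0020002000800aa82))) 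
(.lf (nat_lit 3691002128) (dlOf (nat_lit 10) (nat_lit 0x13002800178080078014000ba04001000a0005502000402c0001015000280500004024004600500080010001503000b00b00044056000402a0010014800100880008024000400800610028004000800880000005314000802c00020028001441000380a40008024000e0020002283001f0020000b80800200100005a040088002000a000800aa82))))))) 
(.nd (nat_lit 27) (.nd (nat_lit 29) (.nd (nat_lit 8) (.nd (nat_lit 11) 
(.lf (nat_lit 19936912) (dlOf (nat_lit 1) (nat_lit 0x4000089d9e81))) 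
(.lf (nat_lit 1342189200) (dlOf (nat_lit 1) (nat_lit 0x400400020018007182)))) (.nd (nat_lit 9) 
(.lf (nat_lit 62925200) (dlOf (nat_lit 1) (nat_lit 0x200299a4e81))) (.nd (nat_lit 15) 
(.lf (nat_lit 2415929232) (dlOf (nat_lit 1) (nat_lit 0x400400020008004202))) 
(.lf (nat_lit 1073784720) (dlOf (nat_lit 2) (nat_lit 0x4014800058080008008000800200020008004203)))))) 
(.nd (nat_lit 8) (.nd (nat_lit 10) 
(.lf (nat_lit 5167426192) (dlOf (nat_lit 1) (nat_lit 0xe00080110002004c0008055503))) 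
(.lf (nat_lit 2684368528) (dlOf (nat_lit 1) (nat_lit 0x40028009e81)))) (.nd (nat_lit 9) 
(.nd (nat_lit 11) 
(.lf (nat_lit 2755699088) (dlOf (nat_lit 2) (nat_lit 0x402c800000040010004000800081b0782))) 
(.lf (nat_lit 2754652560) (dlOf (nat_lit 1) (nat_lit 0x4002000200080f4e82)))) 
(.lf (nat_lit 2751473552) (dlOf (nat_lit 1) (nat_lit 0xc00200020008004202)))))) (.nd (nat_lit 28) 
(.nd (nat_lit 9) (.nd (nat_lit 26) 
(.lf (nat_lit 4966065552) (dlOf (nat_lit 1) (nat_lit 0x60018003601))) 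
(.lf (nat_lit 6106916240) (dlOf (nat_lit 1) (nat_lit 0xc0018003601)))) (.nd (nat_lit 8) 
(.lf (nat_lit 2281715344) (dlOf (nat_lit 1) (nat_lit 0x20008009e81))) (.nd (nat_lit 15) 
(.lf (nat_lit 4429195152) (dlOf (nat_lit 1) (nat_lit 0x20008004201))) 
(.lf (nat_lit 6576711568) (dlOf (nat_lit 1) (nat_lit 0x50008002400200020008004203)))))) 
(.nd (nat_lit 8) (.nd (nat_lit 11) 
(.lf (nat_lit 2617259152) (dlOf (nat_lit 1) (nat_lit 0x18008000400200040008009503))) 
(.lf (nat_lit 2550148240) (dlOf (nat_lit 1) (nat_lit 0x20028006201)))) (.nd (nat_lit 10) 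
(.lf (nat_lit 402697104) (dlOf (nat_lit 2) (nat_lit 0x380280004404000400200020008005c82))) 
(.nd (nat_lit 15) (.lf (nat_lit 1006643088) (dlOf (nat_lit 1) (nat_lit 0x400400020008004202))) 
(.lf (nat_lit 5838514064) (dlOf (nat_lit 1) (nat_lit 0x50008000400200020008004203))))))))) 
(.nd (nat_lit 21) (.nd (nat_lit 26) (.nd (nat_lit 28) (.nd (nat_lit 20) (.nd (nat_lit 7) 
(.nd (nat_lit 27) (.lf (nat_lit 5906112528) (dlOf (nat_lit 1) (nat_lit 0x9200181c0481))) 
(.lf (nat_lit 2819104784) (dlOf (nat_lit 2) (nat_lit 0x8072000918181a0480)))) 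
(.lf (nat_lit 534416) (dlOf (nat_lit 1) (nat_lit 0x1000400020008004202)))) (.nd (nat_lit 22) 
(.lf (nat_lit 9969680) (dlOf (nat_lit 1) (nat_lit 0x200185a0a01))) 
(.lf (nat_lit 5775376) (dlOf (nat_lit 2) (nat_lit 0x200000006c040014002000800083d0282))))) 
(.nd (nat_lit 8) (.nd (nat_lit 9) 
(.lf (nat_lit 805871632) (dlOf (nat_lit 6) (nat_lit 0xb680440001581041b01680009c081e800b40004c04007808800940430000d82003d0220025010c00034080170002016c00081d0102))) 
(.lf (nat_lit 1342710288) (dlOf (nat_lit 2) (nat_lit 0x3a23c0010c8180c0d80)))) 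
(.lf (nat_lit 1342710032) (dlOf (nat_lit 2) (nat_lit 0x96247001170180c0480))))) (.nd (nat_lit 15) 
(.nd (nat_lit 7) (.nd (nat_lit 22) 
(.lf (nat_lit 6510092304) (dlOf (nat_lit 1) (nat_lit 0x9200181c0481))) 
(.lf (nat_lit 2756190224) (dlOf (nat_lit 3) (nat_lit 0x2101000107e800870100008404003a404000400400080018210882)))) 
(.lf (nat_lit 2751997840) (dlOf (nat_lit 2) (nat_lit 0x182200001c04000400200020008004202)))) 
(.nd (nat_lit 30) (.nd (nat_lit 9) 
(.lf (nat_lit 4362641424) (dlOf (nat_lit 4) (nat_lit 0x4032000088100050190000140800300c800008040024002001200080c0102))) 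
(.lf (nat_lit 2752035344) (dlOf (nat_lit 1) (nat_lit 0x2e002800b281)))) (.nd (nat_lit 27) 
(.lf (nat_lit 1678286864) (dlOf (nat_lit 6) (nat_lit 0xb680440000a01041b016800044081e800b40002004007808800940430000282003d0220025010c00008080170002016c00081d0102))) 
(.lf (nat_lit 4228423696) (dlOf (nat_lit 4) (nat_lit 0x40310001381000501880006c0800300c400034040024002001200080c0102))))))) 
(.nd (nat_lit 15) (.nd (nat_lit 20) (.nd (nat_lit 28) (.nd (nat_lit 24) 
(.lf (nat_lit 2629648) (dlOf (nat_lit 4) (nat_lit 0xd548e00014020010a4700002810008523800010080018008003c002001c0008180103))) 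
(.lf (nat_lit 19406864) (dlOf (nat_lit 1) (nat_lit 0x400400040018990a02)))) (.nd (nat_lit 31) 
(.lf (nat_lit 1344806928) (dlOf (nat_lit 1) (nat_lit 0x20018980001))) 
(.lf (nat_lit 3492290576) (dlOf (nat_lit 1) (nat_lit 0x200180c0881))))) (.nd (nat_lit 10) 
(.nd (nat_lit 8) (.lf (nat_lit 24649744) (dlOf (nat_lit 1) (nat_lit 0x180080010002000a0008bb0103))) 
(.lf (nat_lit 1345855760) (dlOf (nat_lit 4) (nat_lit 0x400c0000e0200020fb00030030000301000187e400282e000220fb00140030000002003980080014002000e0008e03b03)))) 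
(.nd (nat_lit 7) (.lf (nat_lit 20458512) (dlOf (nat_lit 1) (nat_lit 0x200189d5f81))) 
(.lf (nat_lit 20458640) (dlOf (nat_lit 1) (nat_lit 0x400289d6201)))))) (.nd (nat_lit 8) 
(.nd (nat_lit 7) (.nd (nat_lit 9) 
(.lf (nat_lit 27828240) (dlOf (nat_lit 13) (nat_lit 0x32b940008a04001d5ca0004402000eae500035698007a82c000820c00195ca0012a0b000200200055728001ab4c0007c0800055ca0012a0b0001e8200055728000f008000ac0800195ca0002ae300025688007a82c0006e14000d6040003602000aae50001a8100025728000d008003ab940000004001400200160008d30282))) 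
(.lf (nat_lit 58237456) (dlOf (nat_lit 2) (nat_lit 0x2452d8000000800380080034002003a00097c7b83)))) 
(.lf (nat_lit 20493456) (dlOf (nat_lit 1) (nat_lit 0x200289d9501)))) (.nd (nat_lit 22) 
(.lf (nat_lit 1345888528) (dlOf (nat_lit 4) (nat_lit 0x80180001c0400101f60000c02000a175000607d800000100348008002400200100008e03b03))) 
(.lf (nat_lit 58237200) (dlOf (nat_lit 1) (nat_lit 0x4004000200097c3b02))))))))) (.nd (nat_lit 15) 
(.nd (nat_lit 4) (.nd (nat_lit 8) (.nd (nat_lit 9) (.nd (nat_lit 28) (.nd (nat_lit 20) 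
(.nd (nat_lit 21) 
(.lf (nat_lit 1678319616) (dlOf (nat_lit 1) (nat_lit 0x80080004002000200081e0003))) 
(.nd (nat_lit 23) (.lf (nat_lit 2695168) (dlOf (nat_lit 1) (nat_lit 0x60028190001))) 
(.lf (nat_lit 27860992) (dlOf (nat_lit 2) (nat_lit 0xeae6005f2818d30000))))) 
(.lf (nat_lit 3743744) (dlOf (nat_lit 3) (nat_lit 0x1259001d180800192c80000004001c00400060008220002)))) 
(.nd (nat_lit 27) (.nd (nat_lit 29) 
(.lf (nat_lit 1342775296) (dlOf (nat_lit 1) (nat_lit 0x3c004000400080c0002))) 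
(.lf (nat_lit 805904384) (dlOf (nat_lit 1) (nat_lit 0x80080004002000200081e0003)))) 
(.nd (nat_lit 10) (.lf (nat_lit 470360064) (dlOf (nat_lit 1) (nat_lit 0x3c004000400080c0002))) 
(.lf (nat_lit 4697695232) (dlOf (nat_lit 1) (nat_lit 0xa0028092881)))))) (.nd (nat_lit 7) 
(.nd (nat_lit 10) (.lf (nat_lit 34155008) (dlOf (nat_lit 1) (nat_lit 0x400400020008fb4f82))) 
(.nd (nat_lit 12) (.lf (nat_lit 1610688000) (dlOf (nat_lit 1) (nat_lit 0x40018093681))) 
(.lf (nat_lit 6643856896) (dlOf (nat_lit 1) (nat_lit 0x8008000400200020008009c03))))) 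
(.nd (nat_lit 10) 
(.lf (nat_lit 5167458944) (dlOf (nat_lit 1) (nat_lit 0x358008015400200fa0008055483))) 
(.lf (nat_lit 20002432) (dlOf (nat_lit 1) (nat_lit 0x80080004002000200089d9d83)))))) 
(.nd (nat_lit 9) (.nd (nat_lit 7) (.nd (nat_lit 19) (.nd (nat_lit 10) 
(.lf (nat_lit 474030336) (dlOf (nat_lit 2) (nat_lit 0xa00500050008005941000280080024002001a0009000a83))) 
(.lf (nat_lit 1610687744) (dlOf (nat_lit 2) (nat_lit 0xc01d0000e818092f00)))) (.nd (nat_lit 20) 
(.lf (nat_lit 25764096) (dlOf (nat_lit 1) (nat_lit 0x20008001400200060008c10703))) 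
(.lf (nat_lit 20521216) (dlOf (nat_lit 1) (nat_lit 0x4002000200089d0a82))))) (.nd (nat_lit 10) 
(.nd (nat_lit 11) (.lf (nat_lit 20001152) (dlOf (nat_lit 1) (nat_lit 0x200189d8381))) 
(.lf (nat_lit 4563478912) (dlOf (nat_lit 1) (nat_lit 0x120028094e81)))) 
(.lf (nat_lit 1610687872) (dlOf (nat_lit 1) (nat_lit 0x8008000400200020008093583))))) 
(.nd (nat_lit 26) (.nd (nat_lit 21) 
(.lf (nat_lit 3758172928) (dlOf (nat_lit 1) (nat_lit 0xc004000400080d5a82))) 
(.lf (nat_lit 39922432) (dlOf (nat_lit 1) (nat_lit 0x4002000200091f5a82)))) (.nd (nat_lit 10) 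
(.lf (nat_lit 3154193152) (dlOf (nat_lit 1) (nat_lit 0x20008105a81))) 
(.lf (nat_lit 469837568) (dlOf (nat_lit 1) (nat_lit 0x58008000400200020008003b83))))))) 
(.nd (nat_lit 10) (.nd (nat_lit 19) (.nd (nat_lit 8) (.nd (nat_lit 9) (.nd (nat_lit 22) 
(.lf (nat_lit 43065360) (dlOf (nat_lit 1) (nat_lit 0x1400292a0001))) 
(.lf (nat_lit 13705232) (dlOf (nat_lit 1) (nat_lit 0x400200020008740102)))) 
(.lf (nat_lit 3154192912) (dlOf (nat_lit 1) (nat_lit 0x40018105081)))) (.nd (nat_lit 28) 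
(.nd (nat_lit 20) (.lf (nat_lit 2147557648) (dlOf (nat_lit 1) (nat_lit 0x400200020008090a82))) 
(.lf (nat_lit 19996944) (dlOf (nat_lit 1) (nat_lit 0x4002000200089d0a82)))) (.nd (nat_lit 11) 
(.lf (nat_lit 4563476752) (dlOf (nat_lit 2) (nat_lit 0x180480029a0401a800200320008090a82))) 
(.lf (nat_lit 1342257424) (dlOf (nat_lit 14) (nat_lit 0x607e0002c8100050a7000101f8000b00800082c2000a14e000403f00015c1800201f80009e0400082c2000614e000a03f00013818001853800280fc0004d04000407e000230100030a7000401f800240540004506000607e0002001000403f0000fc08005053800300fc0003d0400101650000e01000303f0000000800400080054002001a000800aa83)))))) 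
(.nd (nat_lit 20) (.nd (nat_lit 27) (.nd (nat_lit 21) (.nd (nat_lit 28) 
(.lf (nat_lit 1611210768) (dlOf (nat_lit 4) (nat_lit 0x400b4000800500108820008029000200140041e080010068001f80200560008110081))) 
(.lf (nat_lit 805904400) (dlOf (nat_lit 1) (nat_lit 0x800800d0002000200081e0803)))) 
(.lf (nat_lit 27861008) (dlOf (nat_lit 14) (nat_lit 0x3d5ca0004502001eae5000350a00011010004ab94003141600041040010ae5000650a0002282c000800c002d5ca0006a1400045058000f8180042b940019428000ca0b0001e83000e5728000f0080032b940007604003d5ca0018ae3000a5058000dc18003a82c0006c0400395ca00035020010ae5000550a0000d010007ab940019428000000400020018d30281)))) 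
(.nd (nat_lit 26) (.lf (nat_lit 134815760) (dlOf (nat_lit 1) (nat_lit 0x4002000200080c0882))) 
(.lf (nat_lit 738795536) (dlOf (nat_lit 4) (nat_lit 0x400b40008005000fe02000802900020014003f4080010068001e60200560008110081))))) 
(.nd (nat_lit 21) (.nd (nat_lit 22) 
(.lf (nat_lit 10035216) (dlOf (nat_lit 1) (nat_lit 0x8008000c002000400085b0483))) 
(.lf (nat_lit 31006736) (dlOf (nat_lit 1) (nat_lit 0xc00400020018e60a02)))) 
(.lf (nat_lit 3743760) (dlOf (nat_lit 5) (nat_lit 0x498e00104bd000c254000612580000a10001098e00104bd000b254000612580000810002098e00184bd0007254000512580000610001098e000e4bd0009254000592580000410003c00200160008220502)))))) 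
(.nd (nat_lit 9) (.nd (nat_lit 8) (.nd (nat_lit 7) (.nd (nat_lit 11) 
(.lf (nat_lit 39396368) (dlOf (nat_lit 1) (nat_lit 0x20019192881))) 
(.lf (nat_lit 6710963216) (dlOf (nat_lit 1) (nat_lit 0x8008000400200020008005f83)))) 
(.lf (nat_lit 2550213776) (dlOf (nat_lit 1) (nat_lit 0x1e0018006201)))) (.nd (nat_lit 7) 
(.nd (nat_lit 20) (.lf (nat_lit 32056592) (dlOf (nat_lit 1) (nat_lit 0x400200020008ef3002))) 
(.lf (nat_lit 1345922320) (dlOf (nat_lit 3) (nat_lit 0x341380001b02008414d0000c818e23000)))) 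
(.lf (nat_lit 6308308368) (dlOf (nat_lit 3) (nat_lit 0x4c0180004a01002600c00024c080020008000800200020008053603))))) 
(.nd (nat_lit 23) (.nd (nat_lit 27) (.nd (nat_lit 7) 
(.lf (nat_lit 5100348944) (dlOf (nat_lit 1) (nat_lit 0x25c0018053681))) 
(.lf (nat_lit 536946576) (dlOf (nat_lit 1) (nat_lit 0x400400040018004202)))) (.nd (nat_lit 26) 
(.lf (nat_lit 6308308496) (dlOf (nat_lit 5) (nat_lit 0x128060000740400480300003802000a0180001b81002300c0000d4080028008003c00200160008053683))) 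
(.lf (nat_lit 4496369168) (dlOf (nat_lit 1) (nat_lit 0x20028053681))))) (.nd (nat_lit 7) 
(.nd (nat_lit 19) (.lf (nat_lit 43066896) (dlOf (nat_lit 1) (nat_lit 0x400292a3681))) 
(.lf (nat_lit 61416976) (dlOf (nat_lit 1) (nat_lit 0x9b000205260009923682)))) 
(.lf (nat_lit 8988560) (dlOf (nat_lit 1) (nat_lit 0x18008000400200040008514203)))))))) 
(.nd (nat_lit 28) (.nd (nat_lit 21) (.nd (nat_lit 29) (.nd (nat_lit 4) (.nd (nat_lit 7) 
(.nd (nat_lit 19) (.nd (nat_lit 8) 
(.lf (nat_lit 47292416) (dlOf (nat_lit 1) (nat_lit 0x28004001000093c0002))) 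
(.lf (nat_lit 134327552) (dlOf (nat_lit 1) (nat_lit 0x2c0018006601)))) (.nd (nat_lit 20) 
(.lf (nat_lit 4825088) (dlOf (nat_lit 1) (nat_lit 0xc00282c0001))) 
(.lf (nat_lit 35233792) (dlOf (nat_lit 1) (nat_lit 0x360019000001))))) (.nd (nat_lit 9) 
(.lf (nat_lit 4362184832) (dlOf (nat_lit 1) (nat_lit 0x400400020008004782))) 
(.lf (nat_lit 8496768) (dlOf (nat_lit 1) (nat_lit 0x1800200120008513982))))) (.nd (nat_lit 11) 
(.nd (nat_lit 10) (.nd (nat_lit 23) 
(.lf (nat_lit 2348916752) (dlOf (nat_lit 4) (nat_lit 0xc602c039a015016b00a0069c03001460100022007802c8038016c01a009a00c009b00180618000017ca2c0060020001400e005df820012008000000080a18008033c00207120008020483))) 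
(.lf (nat_lit 25272336) (dlOf (nat_lit 1) (nat_lit 0x40008bf0881)))) 
(.lf (nat_lit 8496144) (dlOf (nat_lit 1) (nat_lit 0x20028512881)))) (.nd (nat_lit 7) 
(.lf (nat_lit 6442559504) (dlOf (nat_lit 1) (nat_lit 0x1200180f4701))) 
(.lf (nat_lit 37857680) (dlOf (nat_lit 1) (nat_lit 0x2200090d4e81)))))) (.nd (nat_lit 27) 
(.nd (nat_lit 7) (.nd (nat_lit 19) (.nd (nat_lit 20) 
(.lf (nat_lit 2684461072) (dlOf (nat_lit 1) (nat_lit 0x20018020401))) 
(.lf (nat_lit 2752618512) (dlOf (nat_lit 2) (nat_lit 0xc0e500601818020480)))) 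
(.lf (nat_lit 1678352400) (dlOf (nat_lit 1) (nat_lit 0xc002001e00081f0a02)))) (.nd (nat_lit 9) 
(.lf (nat_lit 4831947152) (dlOf (nat_lit 1) (nat_lit 0x20018054e81))) 
(.lf (nat_lit 2752096144) (dlOf (nat_lit 1) (nat_lit 0x400400020008004202))))) (.nd (nat_lit 4) 
(.nd (nat_lit 10) 
(.lf (nat_lit 2885787648) (dlOf (nat_lit 1) (nat_lit 0x8008000c002000e0008070003))) 
(.lf (nat_lit 738307072) (dlOf (nat_lit 2) (nat_lit 0x1202d000100080070008001000200060008095f03)))) 
(.nd (nat_lit 19) 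
(.lf (nat_lit 2885787664) (dlOf (nat_lit 10) (nat_lit 0x701880017c0800580b8000804a000a01e000500c0001542000400b8000403c000401800090010001482000580b8001004a000c01e000500c000144200028094000803c000801a000f00c000100080009614004405a0006024000200b800180440006610004c05a0008024000400b800280440006410004805a0008024000100b80050044000621000180480018014000800880020018000601001cc00400180018070202))) 
(.lf (nat_lit 3892944912) (dlOf (nat_lit 1) (nat_lit 0x4004000200082a0a02))))))) (.nd (nat_lit 11) 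
(.nd (nat_lit 4) (.nd (nat_lit 7) (.nd (nat_lit 8) (.nd (nat_lit 20) 
(.lf (nat_lit 6397952) (dlOf (nat_lit 1) (nat_lit 0x140018420001))) 
(.lf (nat_lit 28418048) (dlOf (nat_lit 1) (nat_lit 0x600080014002000c0008d90003)))) 
(.lf (nat_lit 20553984) (dlOf (nat_lit 1) (nat_lit 0x200089d0a81)))) 
(.lf (nat_lit 20035200) (dlOf (nat_lit 1) (nat_lit 0x10004000800089d9d82)))) (.nd (nat_lit 22) 
(.nd (nat_lit 10) (.lf (nat_lit 28418064) (dlOf (nat_lit 1) (nat_lit 0x40008d90281))) 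
(.lf (nat_lit 36807696) (dlOf (nat_lit 1) (nat_lit 0x20019072881)))) (.nd (nat_lit 19) 
(.lf (nat_lit 23175184) (dlOf (nat_lit 3) (nat_lit 0x3a0000009e40800ab2fc00000040028002000a0008b60502))) 
(.lf (nat_lit 24748048) (dlOf (nat_lit 1) (nat_lit 0x38008001800200060008bb0103)))))) 
(.nd (nat_lit 7) (.nd (nat_lit 9) 
(.lf (nat_lit 69839888) (dlOf (nat_lit 2) (nat_lit 0xc05a000560200160008cd5f81))) 
(.lf (nat_lit 39954960) (dlOf (nat_lit 1) (nat_lit 0x1400091f5081)))) (.nd (nat_lit 9) 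
(.nd (nat_lit 19) (.lf (nat_lit 32614800) (dlOf (nat_lit 1) (nat_lit 0x20028ef4e81))) 
(.lf (nat_lit 62499216) (dlOf (nat_lit 1) (nat_lit 0x200299a4e81)))) 
(.lf (nat_lit 20556688) (dlOf (nat_lit 1) (nat_lit 0x4002000200089d5c82))))))) (.nd (nat_lit 27) 
(.nd (nat_lit 7) (.nd (nat_lit 19) (.nd (nat_lit 9) (.nd (nat_lit 20) 
(.lf (nat_lit 2483134480) (dlOf (nat_lit 4) (nat_lit 0xc602e039a015016b00a0069c03001460100022007802c8038016c01a009a00c009b0018061800000ca02c0060020001400e00315020012008000000080a18008033c00207120008020483))) 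
(.lf (nat_lit 3490816016) (dlOf (nat_lit 2) (nat_lit 0xc0b500337018020480)))) 
(.lf (nat_lit 4026638864) (dlOf (nat_lit 1) (nat_lit 0x40018018401)))) (.nd (nat_lit 4) 
(.lf (nat_lit 1344905216) (dlOf (nat_lit 2) (nat_lit 0x80a4029d804000400400020018990002))) 
(.nd (nat_lit 29) 
(.lf (nat_lit 1342808080) (dlOf (nat_lit 2) (nat_lit 0x108cc015cc040008002001e00080d0682))) 
(.lf (nat_lit 805937168) (dlOf (nat_lit 1) (nat_lit 0xc002001e00081f0a02)))))) (.nd (nat_lit 8) 
(.nd (nat_lit 4) (.lf (nat_lit 5100381824) (dlOf (nat_lit 1) (nat_lit 0x2f800201bc0008053982))) 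
(.nd (nat_lit 26) (.lf (nat_lit 3489770640) (dlOf (nat_lit 1) (nat_lit 0x420018006201))) 
(.lf (nat_lit 1409395856) (dlOf (nat_lit 1) (nat_lit 0x400400020008006202))))) (.nd (nat_lit 9) 
(.lf (nat_lit 1409395088) (dlOf (nat_lit 1) (nat_lit 0x20028004e81))) 
(.lf (nat_lit 5637254032) (dlOf (nat_lit 2) (nat_lit 0x601400230010000e010004800800ec00200180008055c83)))))) 
(.nd (nat_lit 26) (.nd (nat_lit 4) 
(.lf (nat_lit 3623985152) (dlOf (nat_lit 1) (nat_lit 0x8008000c002000e0008070003))) 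
(.nd (nat_lit 29) (.nd (nat_lit 30) 
(.lf (nat_lit 402759696) (dlOf (nat_lit 1) (nat_lit 0x20028090001))) 
(.lf (nat_lit 3623985168) (dlOf (nat_lit 10) (nat_lit 0x701880017c0800580b8000804a000a019000500c0001542000400b80004032000401800090010001482000580b8001004a000c019000500c00014420002809400100360004019000f00c000100080009614004405a00060240002009000180440006610004c05a00080240004009000280440006410004805a0008024000100900050044000621000180480018015000800880020018000601001cc00400180018070202)))) 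
(.lf (nat_lit 4160856080) (dlOf (nat_lit 1) (nat_lit 0x20028020481))))) (.nd (nat_lit 4) 
(.nd (nat_lit 7) 
(.lf (nat_lit 3691094272) (dlOf (nat_lit 2) (nat_lit 0x1007400ae804000800200060008010702))) 
(.lf (nat_lit 469870720) (dlOf (nat_lit 1) (nat_lit 0x18008000800200060008004783)))) 
(.nd (nat_lit 7) 
(.lf (nat_lit 470392848) (dlOf (nat_lit 2) (nat_lit 0x108cc00ad6040008002001e00080d0682))) 
(.lf (nat_lit 5838580880) (dlOf (nat_lit 1) (nat_lit 0x200080f6201)))))))))) (.nd (nat_lit 28) 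
(.nd (nat_lit 16) (.nd (nat_lit 26) (.nd (nat_lit 24) (.nd (nat_lit 7) (.nd (nat_lit 4) 
(.nd (nat_lit 8) (.nd (nat_lit 22) 
(.lf (nat_lit 2819104832) (dlOf (nat_lit 2) (nat_lit 0x3803f002430181a0900))) 
(.lf (nat_lit 4726848) (dlOf (nat_lit 1) (nat_lit 0x400082b0501)))) 
(.lf (nat_lit 39855424) (dlOf (nat_lit 1) (nat_lit 0x800191f3281)))) (.nd (nat_lit 10) 
(.nd (nat_lit 8) 
(.lf (nat_lit 13639760) (dlOf (nat_lit 4) (nat_lit 0x20000001200800680000007e04002c0000003e0200560018730d01))) 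
(.lf (nat_lit 2281710416) (dlOf (nat_lit 2) (nat_lit 0x90120000c8080010008001c00200040008002483)))) 
(.nd (nat_lit 29) (.lf (nat_lit 5502936656) (dlOf (nat_lit 1) (nat_lit 0x400400020008003882))) 
(.lf (nat_lit 4966065744) (dlOf (nat_lit 1) (nat_lit 0x400400020008003882)))))) (.nd (nat_lit 10) 
(.nd (nat_lit 4) (.lf (nat_lit 14196928) (dlOf (nat_lit 1) (nat_lit 0x400400260008750402))) 
(.nd (nat_lit 8) (.lf (nat_lit 6039806672) (dlOf (nat_lit 1) (nat_lit 0x400400020008002002))) 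
(.lf (nat_lit 537552) (dlOf (nat_lit 1) (nat_lit 0x1a0028009201))))) (.nd (nat_lit 15) 
(.lf (nat_lit 4429195216) (dlOf (nat_lit 1) (nat_lit 0x20008004501))) (.nd (nat_lit 30) 
(.lf (nat_lit 42960) (dlOf (nat_lit 1) (nat_lit 0x20028004501))) 
(.lf (nat_lit 1073784784) (dlOf (nat_lit 2) (nat_lit 0x180a40002004001800400120008004502))))))) 
(.nd (nat_lit 15) (.nd (nat_lit 4) (.nd (nat_lit 7) 
(.lf (nat_lit 51389504) (dlOf (nat_lit 1) (nat_lit 0x20019512881))) (.nd (nat_lit 8) 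
(.lf (nat_lit 51389632) (dlOf (nat_lit 2) (nat_lit 0x3674800020080010008000c00200020009512d03))) 
(.lf (nat_lit 58204608) (dlOf (nat_lit 3) (nat_lit 0xb6108006708000280000008083000cc210003f40801080080094002000600097c7003))))) 
(.nd (nat_lit 9) (.nd (nat_lit 19) 
(.lf (nat_lit 16785488) (dlOf (nat_lit 2) (nat_lit 0x18e43f0002f8188e0200))) 
(.lf (nat_lit 21504080) (dlOf (nat_lit 2) (nat_lit 0x7c7e0001b018a40500)))) (.nd (nat_lit 8) 
(.lf (nat_lit 20459088) (dlOf (nat_lit 1) (nat_lit 0x400289d7181))) 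
(.lf (nat_lit 19931984) (dlOf (nat_lit 2) (nat_lit 0x12000000064040008002000400089d2482)))))) 
(.nd (nat_lit 19) (.nd (nat_lit 9) (.nd (nat_lit 23) 
(.lf (nat_lit 16818256) (dlOf (nat_lit 2) (nat_lit 0x7010fc02fc3560005f04001400188e0201))) 
(.lf (nat_lit 25206864) (dlOf (nat_lit 4) (nat_lit 0x8000000510200100000002801001400000013c0800700080064002001e0008bf0d03)))) 
(.nd (nat_lit 4) (.lf (nat_lit 19968576) (dlOf (nat_lit 1) (nat_lit 0x200189d8981))) 
(.lf (nat_lit 62958160) (dlOf (nat_lit 1) (nat_lit 0x600199a5281))))) (.nd (nat_lit 4) 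
(.lf (nat_lit 58237376) (dlOf (nat_lit 1) (nat_lit 0x2600297c7001))) (.nd (nat_lit 7) 
(.lf (nat_lit 21536848) (dlOf (nat_lit 2) (nat_lit 0x21bc70001b018a40500))) 
(.lf (nat_lit 61383888) (dlOf (nat_lit 1) (nat_lit 0x10008000800200020009922d83)))))))) 
(.nd (nat_lit 31) (.nd (nat_lit 4) (.nd (nat_lit 7) (.nd (nat_lit 9) (.nd (nat_lit 27) 
(.lf (nat_lit 1678254144) (dlOf (nat_lit 1) (nat_lit 0x8008012c002003c00081c0c83))) 
(.lf (nat_lit 201859136) (dlOf (nat_lit 1) (nat_lit 0x200180a0d01)))) 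
(.lf (nat_lit 4362091072) (dlOf (nat_lit 3) (nat_lit 0xb0198001980801400cc000000400040040016000800b482)))) 
(.nd (nat_lit 8) (.lf (nat_lit 4362086592) (dlOf (nat_lit 1) (nat_lit 0x4c00200120008004902))) 
(.lf (nat_lit 603992512) (dlOf (nat_lit 1) (nat_lit 0xa80080054002005e0008008603))))) 
(.nd (nat_lit 8) (.nd (nat_lit 9) (.nd (nat_lit 11) 
(.lf (nat_lit 67674192) (dlOf (nat_lit 2) (nat_lit 0x18c12e00d001e0009007002c0000000be100008004001000082d0202))) 
(.lf (nat_lit 4362086480) (dlOf (nat_lit 1) (nat_lit 0x20028004701)))) 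
(.lf (nat_lit 6106916432) (dlOf (nat_lit 1) (nat_lit 0x20028003881)))) (.nd (nat_lit 7) 
(.lf (nat_lit 603993424) (dlOf (nat_lit 1) (nat_lit 0xc00200340008009902))) (.nd (nat_lit 15) 
(.lf (nat_lit 603993552) (dlOf (nat_lit 2) (nat_lit 0x180d000048040030002002a0008009b02))) 
(.lf (nat_lit 604026320) (dlOf (nat_lit 2) (nat_lit 0x3803400012018009b00))))))) (.nd (nat_lit 19) 
(.nd (nat_lit 4) (.nd (nat_lit 7) (.nd (nat_lit 8) 
(.lf (nat_lit 2752520256) (dlOf (nat_lit 1) (nat_lit 0x20018020781))) 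
(.lf (nat_lit 3825248064) (dlOf (nat_lit 2) (nat_lit 0xf600000016818003e00)))) (.nd (nat_lit 9) 
(.lf (nat_lit 2885696704) (dlOf (nat_lit 1) (nat_lit 0x1000800180020008000800c203))) 
(.lf (nat_lit 3825215168) (dlOf (nat_lit 1) (nat_lit 0x5d000202900008003a82))))) (.nd (nat_lit 7) 
(.nd (nat_lit 9) (.lf (nat_lit 2348820816) (dlOf (nat_lit 1) (nat_lit 0x40028004d81))) 
(.lf (nat_lit 6643786576) (dlOf (nat_lit 1) (nat_lit 0x400400020008002482)))) 
(.lf (nat_lit 2754620624) (dlOf (nat_lit 1) (nat_lit 0x600080f6401))))) (.nd (nat_lit 15) 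
(.nd (nat_lit 4) (.lf (nat_lit 2754093120) (dlOf (nat_lit 2) (nat_lit 0x140870001d0180c1780))) 
(.nd (nat_lit 20) (.lf (nat_lit 2754093136) (dlOf (nat_lit 1) (nat_lit 0x800080c1901))) 
(.lf (nat_lit 2755141712) (dlOf (nat_lit 2) (nat_lit 0x3288700005604002c00400080008121002))))) 
(.nd (nat_lit 20) (.nd (nat_lit 21) 
(.lf (nat_lit 2756223056) (dlOf (nat_lit 5) (nat_lit 0xc434000e0000001682000910d00008000000580800284340002b02000821a00015018220d00))) 
(.lf (nat_lit 2754125904) (dlOf (nat_lit 1) (nat_lit 0x1400280c1901)))) 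
(.lf (nat_lit 2755174480) (dlOf (nat_lit 2) (nat_lit 0x12034800381100048086002002400110100003807c000561800c000400040018121002)))))))) 
(.nd (nat_lit 19) (.nd (nat_lit 15) (.nd (nat_lit 9) (.nd (nat_lit 20) (.nd (nat_lit 7) 
(.nd (nat_lit 21) 
(.lf (nat_lit 16851024) (dlOf (nat_lit 2) (nat_lit 0xfba2e0191c6900dae338007424800aa00a0004f6b003d78700017c380118008005c002001800088e0203))) 
(.lf (nat_lit 14753872) (dlOf (nat_lit 3) (nat_lit 0x126ef00013010014377800094080040008001800200060008770703)))) 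
(.lf (nat_lit 604059088) (dlOf (nat_lit 1) (nat_lit 0x1800200080008009b02)))) (.nd (nat_lit 4) 
(.nd (nat_lit 23) (.lf (nat_lit 2752585792) (dlOf (nat_lit 1) (nat_lit 0x4004000e0018020782))) 
(.lf (nat_lit 43065408) (dlOf (nat_lit 1) (nat_lit 0x1400292a0001)))) 
(.lf (nat_lit 38871120) (dlOf (nat_lit 1) (nat_lit 0x20029170701))))) (.nd (nat_lit 4) 
(.nd (nat_lit 7) (.lf (nat_lit 3355521856) (dlOf (nat_lit 1) (nat_lit 0x6000400ee00080a8f82))) 
(.lf (nat_lit 1744906944) (dlOf (nat_lit 1) (nat_lit 0x8008000400200020008095783)))) 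
(.nd (nat_lit 8) (.lf (nat_lit 1610688080) (dlOf (nat_lit 1) (nat_lit 0x400200020008093882))) 
(.nd (nat_lit 20) 
(.lf (nat_lit 3355517776) (dlOf (nat_lit 3) (nat_lit 0x1402e0001d81000c0100001004c00064080048004000400080a2482))) 
(.lf (nat_lit 19997520) (dlOf (nat_lit 1) (nat_lit 0x4002000200089d2482))))))) (.nd (nat_lit 26) 
(.nd (nat_lit 10) (.nd (nat_lit 7) (.nd (nat_lit 8) 
(.lf (nat_lit 16883792) (dlOf (nat_lit 2) (nat_lit 0x1da86c0091367806990fc000be0c000c004001c00188e0202))) 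
(.lf (nat_lit 671197520) (dlOf (nat_lit 4) (nat_lit 0x2400e000058080028070002001c00040000000283000400e000380380008000000040600020028144d81)))) 
(.lf (nat_lit 108752) (dlOf (nat_lit 1) (nat_lit 0x1c0018004a01)))) (.nd (nat_lit 7) 
(.nd (nat_lit 9) (.lf (nat_lit 134327632) (dlOf (nat_lit 1) (nat_lit 0x100002002c0008006a02))) 
(.lf (nat_lit 20035408) (dlOf (nat_lit 1) (nat_lit 0xc004000400089da202)))) 
(.lf (nat_lit 108496) (dlOf (nat_lit 1) (nat_lit 0x40018004501))))) (.nd (nat_lit 29) 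
(.nd (nat_lit 4) (.nd (nat_lit 7) 
(.lf (nat_lit 2348916800) (dlOf (nat_lit 13) (nat_lit 0x3ae02a000158101fe0150000a40808d80b00dbc05404b202800c100c001f003402d001800280080052001803f80000004a2407b80540238028000120204b4016008a007400080300a020100109007829500380b7801a063800c029500400ef800c0048002050e000000118c0076015000088080ec80a8000420400d0058002a02a002d00780518034000c01600420000001006000e015000060080f380a80002c040230054002400e000048200ea015000000080bb8008010c002064a0008020783))) 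
(.lf (nat_lit 1140957376) (dlOf (nat_lit 1) (nat_lit 0x80018031701)))) 
(.lf (nat_lit 2348916816) (dlOf (nat_lit 1) (nat_lit 0x18004000c0008020902)))) (.nd (nat_lit 7) 
(.nd (nat_lit 10) (.lf (nat_lit 5972797520) (dlOf (nat_lit 1) (nat_lit 0x400400020008144702))) 
(.lf (nat_lit 5972796496) (dlOf (nat_lit 1) (nat_lit 0x20028142881)))) 
(.lf (nat_lit 2751571920) (dlOf (nat_lit 1) (nat_lit 0x20028004501))))))) (.nd (nat_lit 26) 
(.nd (nat_lit 4) (.nd (nat_lit 21) (.nd (nat_lit 15) 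
(.lf (nat_lit 10035264) (dlOf (nat_lit 2) (nat_lit 0x78327004716f00188b6c019c5a200762ad0061135802889a4007449200b6203000118985b0780))) 
(.nd (nat_lit 20) 
(.lf (nat_lit 3221856320) (dlOf (nat_lit 1) (nat_lit 0x980080074002004e00081a1403))) 
(.lf (nat_lit 10068032) (dlOf (nat_lit 1) (nat_lit 0x4002000200085b0782))))) (.nd (nat_lit 7) 
(.lf (nat_lit 7972928) (dlOf (nat_lit 1) (nat_lit 0x400200020008514702))) 
(.lf (nat_lit 20558016) (dlOf (nat_lit 1) (nat_lit 0x1800189d7f01))))) (.nd (nat_lit 7) 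
(.nd (nat_lit 15) (.nd (nat_lit 22) 
(.lf (nat_lit 42541136) (dlOf (nat_lit 1) (nat_lit 0xa0019260701))) 
(.lf (nat_lit 21569616) (dlOf (nat_lit 1) (nat_lit 0x20028a40501)))) 
(.lf (nat_lit 3221856336) (dlOf (nat_lit 2) (nat_lit 0xb01780001008010800800b4002002a00081a1603)))) 
(.nd (nat_lit 10) (.lf (nat_lit 7971280) (dlOf (nat_lit 1) (nat_lit 0x400200020008511102))) 
(.lf (nat_lit 7943632) (dlOf (nat_lit 1) (nat_lit 0x20028519b01)))))) (.nd (nat_lit 15) 
(.nd (nat_lit 10) (.nd (nat_lit 4) (.nd (nat_lit 9) 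
(.lf (nat_lit 201924672) (dlOf (nat_lit 1) (nat_lit 0x8008000c002000200080c1783))) 
(.lf (nat_lit 2753110592) (dlOf (nat_lit 1) (nat_lit 0x20028091081)))) 
(.lf (nat_lit 69806672) (dlOf (nat_lit 1) (nat_lit 0x400200020008c75282)))) (.nd (nat_lit 7) 
(.lf (nat_lit 2752063296) (dlOf (nat_lit 1) (nat_lit 0x1c0028003e01))) 
(.lf (nat_lit 2752063168) (dlOf (nat_lit 1) (nat_lit 0x20018003a81))))) (.nd (nat_lit 27) 
(.nd (nat_lit 4) (.nd (nat_lit 7) 
(.lf (nat_lit 2754191424) (dlOf (nat_lit 1) (nat_lit 0x4004000200180c1782))) 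
(.lf (nat_lit 2753143232) (dlOf (nat_lit 2) (nat_lit 0xd87dc000b604004400200040008090882)))) 
(.lf (nat_lit 2753143248) (dlOf (nat_lit 3) (nat_lit 0x4c3f4000813c0000b820015109000c85500000008002c00400380018090a02)))) 
(.nd (nat_lit 4) (.nd (nat_lit 29) 
(.lf (nat_lit 201957440) (dlOf (nat_lit 4) (nat_lit 0x2c02c000330200320160001901000a00b0000c00800680080008002000c00080c1783))) 
(.lf (nat_lit 3960053824) (dlOf (nat_lit 3) (nat_lit 0x80110001601001401900009c0800900080018002003200081a1783)))) 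
(.lf (nat_lit 3960053840) (dlOf (nat_lit 6) (nat_lit 0xe0170000b80802a00bc0004604012005e0002202004a02f0000801003d017800034080010008001c002002000081a1903))))))))) 
(.nd (nat_lit 26) (.nd (nat_lit 16) (.nd (nat_lit 7) (.nd (nat_lit 4) (.nd (nat_lit 11) 
(.nd (nat_lit 19) (.nd (nat_lit 8) 
(.lf (nat_lit 3490717760) (dlOf (nat_lit 1) (nat_lit 0x20018020781))) 
(.lf (nat_lit 1476407616) (dlOf (nat_lit 1) (nat_lit 0x1e0028008201)))) (.nd (nat_lit 9) 
(.lf (nat_lit 805838912) (dlOf (nat_lit 1) (nat_lit 0x8008012c002003c00081c0c83))) 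
(.lf (nat_lit 1342710336) (dlOf (nat_lit 2) (nat_lit 0x6048e0005602000200080c1081))))) 
(.nd (nat_lit 9) (.nd (nat_lit 10) 
(.lf (nat_lit 805353536) (dlOf (nat_lit 1) (nat_lit 0xa000800a681))) 
(.lf (nat_lit 2550148160) (dlOf (nat_lit 1) (nat_lit 0x80028006081)))) 
(.lf (nat_lit 1879060032) (dlOf (nat_lit 1) (nat_lit 0x20028007181))))) (.nd (nat_lit 21) 
(.nd (nat_lit 8) 
(.lf (nat_lit 3494420560) (dlOf (nat_lit 5) (nat_lit 0xc40a000e00000016020009102800080000005608002840a0002a02000820500014818220d00))) 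
(.nd (nat_lit 9) 
(.lf (nat_lit 1342710096) (dlOf (nat_lit 14) (nat_lit 0x44c462000e1c600050de0001301809d88c400d43d2002a1c600030de00012c2007708cc03d8462003622d00260f48002071800203780004a0c001c231000248100b91188001200808488cc000800401144660003f0201222330001e8100740fd0000e8080150000000640400580000003102012222300017010007111800000080128008001c00200b600080c0603))) 
(.lf (nat_lit 1476409168) (dlOf (nat_lit 1) (nat_lit 0x8002800a201))))) (.nd (nat_lit 15) 
(.nd (nat_lit 20) (.lf (nat_lit 3492290640) (dlOf (nat_lit 1) (nat_lit 0x200180c1601))) 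
(.lf (nat_lit 3493339216) (dlOf (nat_lit 2) (nat_lit 0x32881c0005404002c00400080008121002)))) 
(.lf (nat_lit 3493371984) (dlOf (nat_lit 2) (nat_lit 0x12034800381100048086002002400110100003807c000541800c000400040018121002)))))) 
(.nd (nat_lit 8) (.nd (nat_lit 9) (.nd (nat_lit 10) 
(.lf (nat_lit 1476409552) (dlOf (nat_lit 1) (nat_lit 0x4000800a881))) 
(.lf (nat_lit 1342188752) (dlOf (nat_lit 1) (nat_lit 0x230008004000200c40008006403)))) 
(.nd (nat_lit 4) (.lf (nat_lit 1342189248) (dlOf (nat_lit 1) (nat_lit 0x400400020008007282))) 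
(.nd (nat_lit 10) (.lf (nat_lit 4160758480) (dlOf (nat_lit 1) (nat_lit 0x1400400020008002002))) 
(.lf (nat_lit 1342222032) (dlOf (nat_lit 1) (nat_lit 0x400400020008007302)))))) (.nd (nat_lit 10) 
(.nd (nat_lit 4) 
(.lf (nat_lit 1342710208) (dlOf (nat_lit 1) (nat_lit 0x380080024002001600080c0883))) 
(.nd (nat_lit 11) (.lf (nat_lit 2952836048) (dlOf (nat_lit 2) (nat_lit 0x4201e00000018009200))) 
(.lf (nat_lit 5771373520) (dlOf (nat_lit 1) (nat_lit 0x20028005d81))))) (.nd (nat_lit 4) 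
(.lf (nat_lit 3623892928) (dlOf (nat_lit 2) (nat_lit 0x28048015f40400200020016000800a602))) 
(.nd (nat_lit 29) (.lf (nat_lit 2415929296) (dlOf (nat_lit 1) (nat_lit 0x400400020008004502))) 
(.lf (nat_lit 4026542032) (dlOf (nat_lit 1) (nat_lit 0x20028004501)))))))) (.nd (nat_lit 8) 
(.nd (nat_lit 4) (.nd (nat_lit 15) (.nd (nat_lit 9) (.nd (nat_lit 20) 
(.lf (nat_lit 4697694272) (dlOf (nat_lit 1) (nat_lit 0x40008090001))) 
(.lf (nat_lit 3490783296) (dlOf (nat_lit 1) (nat_lit 0x4004000e0018020782)))) 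
(.lf (nat_lit 3491308096) (dlOf (nat_lit 1) (nat_lit 0x20028091081)))) (.nd (nat_lit 7) 
(.lf (nat_lit 4697727040) (dlOf (nat_lit 1) (nat_lit 0x18008000800200060008090003))) 
(.lf (nat_lit 5771993280) (dlOf (nat_lit 3) (nat_lit 0x600500002a02005a02800014818031b00))))) 
(.nd (nat_lit 15) (.nd (nat_lit 7) (.nd (nat_lit 19) 
(.lf (nat_lit 4563476560) (dlOf (nat_lit 1) (nat_lit 0x40008090001))) 
(.lf (nat_lit 1343823952) (dlOf (nat_lit 2) (nat_lit 0xba1420002f818370200)))) 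
(.lf (nat_lit 4697694416) (dlOf (nat_lit 1) (nat_lit 0xc0028090901)))) (.nd (nat_lit 9) 
(.nd (nat_lit 19) 
(.lf (nat_lit 4563509328) (dlOf (nat_lit 1) (nat_lit 0x18008000800200060008090003))) 
(.lf (nat_lit 1342808144) (dlOf (nat_lit 2) (nat_lit 0xc4780003202000200280d0f81)))) 
(.lf (nat_lit 1880730192) (dlOf (nat_lit 1) (nat_lit 0x400400020008b55282)))))) (.nd (nat_lit 15) 
(.nd (nat_lit 4) (.nd (nat_lit 7) (.nd (nat_lit 20) 
(.lf (nat_lit 3623954240) (dlOf (nat_lit 2) (nat_lit 0x9b0000000b40800d0008000400200060008003e03))) 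
(.lf (nat_lit 3492882240) (dlOf (nat_lit 3) (nat_lit 0x140380002e02019601c000168180f3e00)))) 
(.lf (nat_lit 1880695232) (dlOf (nat_lit 1) (nat_lit 0x100018b37001)))) (.nd (nat_lit 27) 
(.nd (nat_lit 7) 
(.lf (nat_lit 4563476816) (dlOf (nat_lit 2) (nat_lit 0x6009000000080070008005800200480008090d03))) 
(.lf (nat_lit 1879122384) (dlOf (nat_lit 1) (nat_lit 0x20018017101)))) (.nd (nat_lit 10) 
(.lf (nat_lit 5774057936) (dlOf (nat_lit 2) (nat_lit 0xd01c8008bc0800680080050002000200080f7b03))) 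
(.lf (nat_lit 1476474320) (dlOf (nat_lit 1) (nat_lit 0x20028009b01)))))) (.nd (nat_lit 20) 
(.nd (nat_lit 7) (.lf (nat_lit 1476501840) (dlOf (nat_lit 1) (nat_lit 0x40008010801))) 
(.nd (nat_lit 9) 
(.lf (nat_lit 1881252304) (dlOf (nat_lit 8) (nat_lit 0x280ca0003d0200160650001a0100040328000a80800481940004004001c0ca0000c02001006500004810007032800000080028008002000200060008e81103))) 
(.lf (nat_lit 3087116240) (dlOf (nat_lit 1) (nat_lit 0xbc0028144501))))) (.nd (nat_lit 4) 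
(.nd (nat_lit 7) (.lf (nat_lit 3492915008) (dlOf (nat_lit 2) (nat_lit 0xc401c000168180f3e00))) 
(.lf (nat_lit 3491340736) (dlOf (nat_lit 2) (nat_lit 0xd8794000b804004400200040008090882)))) 
(.lf (nat_lit 3491340752) (dlOf (nat_lit 3) (nat_lit 0x4c3d0000813c0000b8200150fe800c85780000008002c00400380018090a02)))))))) 
(.nd (nat_lit 7) (.nd (nat_lit 4) (.nd (nat_lit 15) (.nd (nat_lit 8) (.nd (nat_lit 16) 
(.nd (nat_lit 11) 
(.lf (nat_lit 470295104) (dlOf (nat_lit 2) (nat_lit 0x6048e0004f02000200080c1081))) 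
(.lf (nat_lit 469776960) (dlOf (nat_lit 1) (nat_lit 0x40040002001800b482)))) (.nd (nat_lit 9) 
(.lf (nat_lit 474554432) (dlOf (nat_lit 2) (nat_lit 0xd02ac008214300290660008f01801880080088002005c00091a0603))) 
(.lf (nat_lit 2617320000) (dlOf (nat_lit 1) (nat_lit 0xc00180a1581))))) (.nd (nat_lit 10) 
(.lf (nat_lit 1008804160) (dlOf (nat_lit 2) (nat_lit 0x440000000002000a0018f97e01))) 
(.nd (nat_lit 11) 
(.lf (nat_lit 469841216) (dlOf (nat_lit 1) (nat_lit 0x800802e8002005c0008009903))) 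
(.lf (nat_lit 4227870016) (dlOf (nat_lit 1) (nat_lit 0x60002005a0008006902)))))) (.nd (nat_lit 27) 
(.nd (nat_lit 19) (.nd (nat_lit 31) 
(.lf (nat_lit 4630618176) (dlOf (nat_lit 1) (nat_lit 0x400400040018020502))) 
(.lf (nat_lit 2483134528) (dlOf (nat_lit 13) (nat_lit 0x3ae02a000158101fe0150000a40808d80b80dbc05404b202800c100c001f003402d001800280090052001803f80000004a2407b80540238028000120204b4017008a007800080300a020100109007829500380b7801a063800c029500480ef800c0048002050e000000118c0076015000088080ec80a8000420400d005c002a02a002d00780518034000c01600420000001006000e015000060080f380a80002c040230054002400e000048200ea015000000080bb8008010c002064a0008020783)))) 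
(.lf (nat_lit 4096368704) (dlOf (nat_lit 2) (nat_lit 0x15c0000003c018100500)))) (.nd (nat_lit 8) 
(.lf (nat_lit 4764835904) (dlOf (nat_lit 1) (nat_lit 0x400400040018020502))) 
(.lf (nat_lit 5838513984) (dlOf (nat_lit 1) (nat_lit 0x6800400020008003e02)))))) (.nd (nat_lit 10) 
(.nd (nat_lit 15) (.nd (nat_lit 19) (.nd (nat_lit 9) 
(.lf (nat_lit 473964624) (dlOf (nat_lit 11) (nat_lit 0x2b85a001202cc00036040002169000178100350b30000b4080098598000580400d42cc0002302007e169000108100080b30000640802305a00001a0400b42d2000070200b216900550b3000000100058008005800200040008fe0703))) 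
(.lf (nat_lit 3691002448) (dlOf (nat_lit 1) (nat_lit 0x480020006000800b682)))) (.nd (nat_lit 8) 
(.lf (nat_lit 474554448) (dlOf (nat_lit 1) (nat_lit 0x180080014002000400091a0703))) 
(.lf (nat_lit 470294864) (dlOf (nat_lit 14) (nat_lit 0x44c462000e1c600050de00014c1809d88c400d43d2002a1c600030de0001482007708cc03d8462003622d00260f4800207180020378000510c001c231000280100b911880013c0808488cc0008e04011446600046020122233000220100740fe000104080150000000660400580000003202012221f0001401000710f800000080128008001c00200b600080c0603))))) 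
(.nd (nat_lit 16) 
(.lf (nat_lit 3154681936) (dlOf (nat_lit 2) (nat_lit 0x68819003640c0010e0590142028800f813c04c809802a404600cd02180720100039806601a602b010901200bc0074065002c02b600500cc00000017c8005d0008073800203fa0008310203))) 
(.nd (nat_lit 19) (.lf (nat_lit 2483134544) (dlOf (nat_lit 1) (nat_lit 0x18004000c0008020902))) 
(.lf (nat_lit 470392912) (dlOf (nat_lit 2) (nat_lit 0xc4780001c02000200280d0f81)))))) 
(.nd (nat_lit 8) (.nd (nat_lit 12) (.nd (nat_lit 15) 
(.lf (nat_lit 4630521424) (dlOf (nat_lit 1) (nat_lit 0x20028003881))) 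
(.lf (nat_lit 335586896) (dlOf (nat_lit 1) (nat_lit 0x40028003881)))) 
(.lf (nat_lit 2617325136) (dlOf (nat_lit 1) (nat_lit 0x8004000800180a9c02)))) (.nd (nat_lit 11) 
(.nd (nat_lit 21) (.lf (nat_lit 1008215376) (dlOf (nat_lit 1) (nat_lit 0x4004000a0008b03302))) 
(.lf (nat_lit 473441616) (dlOf (nat_lit 2) (nat_lit 0x84640000004011800400380008f53302)))) 
(.lf (nat_lit 2483072336) (dlOf (nat_lit 1) (nat_lit 0x220008006a01))))))) (.nd (nat_lit 11) 
(.nd (nat_lit 8) (.nd (nat_lit 9) (.nd (nat_lit 16) (.nd (nat_lit 19) 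
(.lf (nat_lit 335586512) (dlOf (nat_lit 1) (nat_lit 0x400400020018002d82))) 
(.lf (nat_lit 1009296592) (dlOf (nat_lit 2) (nat_lit 0x1d03f8012c1a0019405f0001d8390e2d80)))) 
(.lf (nat_lit 6241232080) (dlOf (nat_lit 1) (nat_lit 0x18008000400200020008052d83)))) 
(.nd (nat_lit 4) (.lf (nat_lit 1543513792) (dlOf (nat_lit 1) (nat_lit 0x1340008003a81))) 
(.lf (nat_lit 2617320144) (dlOf (nat_lit 3) (nat_lit 0x1402b0001d81000c0100001004c00064080048004000400080a2002))))) 
(.nd (nat_lit 16) (.nd (nat_lit 4) 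
(.lf (nat_lit 470294976) (dlOf (nat_lit 1) (nat_lit 0x380080024002001600080c0883))) 
(.nd (nat_lit 9) (.lf (nat_lit 469775824) (dlOf (nat_lit 1) (nat_lit 0x5000400040008009b02))) 
(.lf (nat_lit 1006643152) (dlOf (nat_lit 1) (nat_lit 0x20008004501))))) (.nd (nat_lit 15) 
(.nd (nat_lit 30) 
(.lf (nat_lit 469841360) (dlOf (nat_lit 3) (nat_lit 0x1416500010010004047000070080010008001000200060008009b03))) 
(.lf (nat_lit 3691066832) (dlOf (nat_lit 2) (nat_lit 0x100a8001140800a8008003400200280008009b03)))) 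
(.lf (nat_lit 469874128) (dlOf (nat_lit 2) (nat_lit 0x216500010018009b00)))))) (.nd (nat_lit 9) 
(.nd (nat_lit 10) (.nd (nat_lit 8) (.nd (nat_lit 15) (.nd (nat_lit 16) 
(.lf (nat_lit 3691002064) (dlOf (nat_lit 1) (nat_lit 0x2001800a881))) 
(.lf (nat_lit 3691067600) (dlOf (nat_lit 1) (nat_lit 0x3800800180020016000800a883)))) 
(.lf (nat_lit 3691034832) (dlOf (nat_lit 1) (nat_lit 0x20002000a000800a882)))) 
(.lf (nat_lit 5301610960) (dlOf (nat_lit 1) (nat_lit 0x140018004e81)))) (.nd (nat_lit 12) 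
(.lf (nat_lit 1543580880) (dlOf (nat_lit 1) (nat_lit 0x60028146401))) 
(.lf (nat_lit 4227874000) (dlOf (nat_lit 1) (nat_lit 0x2002800c281))))) (.nd (nat_lit 4) 
(.nd (nat_lit 10) (.nd (nat_lit 12) 
(.lf (nat_lit 6376434368) (dlOf (nat_lit 1) (nat_lit 0x8008000400200020008095783))) 
(.lf (nat_lit 469777088) (dlOf (nat_lit 2) (nat_lit 0x82740131204000c0040006000800b982)))) 
(.nd (nat_lit 15) 
(.lf (nat_lit 4227870400) (dlOf (nat_lit 2) (nat_lit 0x80640003d0200100028007281))) 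
(.lf (nat_lit 4227903168) (dlOf (nat_lit 1) (nat_lit 0x40018007281))))) (.nd (nat_lit 10) 
(.nd (nat_lit 15) 
(.lf (nat_lit 6377974480) (dlOf (nat_lit 1) (nat_lit 0x900080004002000200080e5883))) 
(.lf (nat_lit 3556879056) (dlOf (nat_lit 1) (nat_lit 0x280080030002001c00080d5883)))) 
(.lf (nat_lit 4227903184) (dlOf (nat_lit 1) (nat_lit 0x20008007301))))))))))) (.nd (nat_lit 15) 
(.nd (nat_lit 16) (.nd (nat_lit 4) (.nd (nat_lit 28) (.nd (nat_lit 8) (.nd (nat_lit 19) 
(.nd (nat_lit 21) (.nd (nat_lit 7) (.nd (nat_lit 12) 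
(.lf (nat_lit 1812209664) (dlOf (nat_lit 1) (nat_lit 0x38008001800200060008180003))) 
(.lf (nat_lit 2818846720) (dlOf (nat_lit 1) (nat_lit 0x40028127a81)))) 
(.lf (nat_lit 4899220096) (dlOf (nat_lit 1) (nat_lit 0x4004001800180d5482)))) (.nd (nat_lit 23) 
(.lf (nat_lit 19144704) (dlOf (nat_lit 1) (nat_lit 0x800200040008970002))) (.nd (nat_lit 24) 
(.lf (nat_lit 44310528) (dlOf (nat_lit 1) (nat_lit 0x180080004002001a00092f0003))) 
(.lf (nat_lit 27533312) (dlOf (nat_lit 1) (nat_lit 0x40028cf0001)))))) (.nd (nat_lit 22) 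
(.nd (nat_lit 6) (.nd (nat_lit 24) 
(.lf (nat_lit 2819366912) (dlOf (nat_lit 2) (nat_lit 0x7031002c3c080020008000400200060008250003))) 
(.lf (nat_lit 17571840) (dlOf (nat_lit 1) (nat_lit 0x34002000400088e0002)))) 
(.lf (nat_lit 10231872) (dlOf (nat_lit 1) (nat_lit 0x200185c0d81)))) (.nd (nat_lit 7) 
(.nd (nat_lit 23) 
(.lf (nat_lit 21766208) (dlOf (nat_lit 7) (nat_lit 0x280000002e020069d8b00850000000941003e762c020b9300069b97008e00000008c2000e7260000f72a00b600000010030005ec580468000000300801a80000000502000c0018a70781))) 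
(.lf (nat_lit 13377600) (dlOf (nat_lit 1) (nat_lit 0x248008007400200860008721783)))) 
(.lf (nat_lit 8141504) (dlOf (nat_lit 1) (nat_lit 0x6001851b981)))))) (.nd (nat_lit 7) 
(.nd (nat_lit 19) (.nd (nat_lit 6) (.nd (nat_lit 20) 
(.lf (nat_lit 1745101056) (dlOf (nat_lit 1) (nat_lit 0x20018090a81))) 
(.lf (nat_lit 60039424) (dlOf (nat_lit 1) (nat_lit 0x60019840a81)))) 
(.lf (nat_lit 20196160) (dlOf (nat_lit 1) (nat_lit 0x4002000200089d5c02)))) (.nd (nat_lit 10) 
(.lf (nat_lit 46932224) (dlOf (nat_lit 1) (nat_lit 0xa0029380a81))) 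
(.lf (nat_lit 67908864) (dlOf (nat_lit 1) (nat_lit 0x30008003800200080008339583))))) 
(.nd (nat_lit 6) (.nd (nat_lit 10) 
(.lf (nat_lit 20196224) (dlOf (nat_lit 1) (nat_lit 0x4002000200089d5c02))) 
(.lf (nat_lit 8140672) (dlOf (nat_lit 1) (nat_lit 0x2001851a301)))) (.nd (nat_lit 10) 
(.nd (nat_lit 21) 
(.lf (nat_lit 1074012608) (dlOf (nat_lit 2) (nat_lit 0x3014800070080010008004400200100008090883))) 
(.lf (nat_lit 23339456) (dlOf (nat_lit 2) (nat_lit 0x1a80000000004003000200100008b80882)))) 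
(.lf (nat_lit 67909056) (dlOf (nat_lit 1) (nat_lit 0x60018339a01))))))) (.nd (nat_lit 6) 
(.nd (nat_lit 26) (.nd (nat_lit 19) (.nd (nat_lit 27) 
(.lf (nat_lit 4563673088) (dlOf (nat_lit 1) (nat_lit 0x580080020002001a00080c0003))) 
(.nd (nat_lit 29) 
(.lf (nat_lit 4697890816) (dlOf (nat_lit 1) (nat_lit 0x580080020002001a00080c0003))) 
(.lf (nat_lit 939794432) (dlOf (nat_lit 1) (nat_lit 0x38008001800200060008180003))))) 
(.nd (nat_lit 8) 
(.lf (nat_lit 5773205504) (dlOf (nat_lit 13) (nat_lit 0x1984bc0197e0400cc25e00cbd02006612f0065e01001c0978032e40801984bc019660400cc25e00cac02006612f006558100090978032a80801984bc019520400cc25e00ca802006612f00653010033097803294080058008004c002006800080b0003))) 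
(.lf (nat_lit 1880891648) (dlOf (nat_lit 1) (nat_lit 0x20018c90a81))))) (.nd (nat_lit 12) 
(.nd (nat_lit 19) 
(.lf (nat_lit 3691257856) (dlOf (nat_lit 2) (nat_lit 0x1000a802fa4080148008005000200220008100003))) 
(.nd (nat_lit 20) 
(.lf (nat_lit 4096532480) (dlOf (nat_lit 1) (nat_lit 0x10008000400200020008120003))) 
(.lf (nat_lit 6377185280) (dlOf (nat_lit 13) (nat_lit 0x19848000e2a0400cc240007140200661200038981001c090001c3008019848000e0c0400cc2400070302006612000381010009090001c0408019848000e000400cc240006ff0200661200037f010033090001bf0080058008004c002006800080b0003))))) 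
(.nd (nat_lit 7) (.lf (nat_lit 3557044224) (dlOf (nat_lit 1) (nat_lit 0x40028127a81))) 
(.lf (nat_lit 3557046400) (dlOf (nat_lit 4) (nat_lit 0x6407000aa302002e03f0052b01000301c000058080150008008400200f6000812a883)))))) 
(.nd (nat_lit 29) (.nd (nat_lit 26) (.nd (nat_lit 19) (.nd (nat_lit 27) 
(.lf (nat_lit 1342447680) (dlOf (nat_lit 3) (nat_lit 0x3445a000460200161f300021818030d80))) 
(.lf (nat_lit 402923584) (dlOf (nat_lit 1) (nat_lit 0x100080010002000400080b0503)))) 
(.lf (nat_lit 5773205568) (dlOf (nat_lit 18) (nat_lit 0xf004fc08442640007404016a132000398106a509f836d04c803142600007206020013f01890990001c4100ea04fc09ac2640007004057213f02ed099001802840a840000006f0800c81320003701009009f8000980804484fc00cc2640002404052c13f02880990000881006a84fc08ec2640002104015c13f02130990000801009104c80003e0409d02640001c0204b013f029409900006c1000684fc0028264000180402bc13f01860990000001005f800803d80020db400080b0503)))) 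
(.nd (nat_lit 27) 
(.lf (nat_lit 335814720) (dlOf (nat_lit 1) (nat_lit 0x100080010002000400080b0503))) 
(.lf (nat_lit 470032448) (dlOf (nat_lit 3) (nat_lit 0x3445a000490200161f200023018030d80))))) 
(.nd (nat_lit 8) (.nd (nat_lit 19) 
(.lf (nat_lit 1006903360) (dlOf (nat_lit 1) (nat_lit 0x200280d0d01))) 
(.lf (nat_lit 6377185344) (dlOf (nat_lit 18) (nat_lit 0xf004c808442460007404016a123000398106a5099036d048c03142420007206020013201890918001c4100ea04c809ac2460007004057213202ed091801802800a840000006f0800c8123000370100900990000980804484c800cc2460002404052c13202880918000881006a84c808ec2460002104015c132021309180008010091048c0003e0409d02460001c0204b0132029409180006c1000684c80028246000180402bc13201860918000001005f800803d80020db400080b0503)))) 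
(.nd (nat_lit 7) (.lf (nat_lit 6376137024) (dlOf (nat_lit 1) (nat_lit 0xb000200320008090c02))) 
(.lf (nat_lit 1946427840) (dlOf (nat_lit 2) (nat_lit 0x3014800074080010008004400200100008090883)))))))) 
(.nd (nat_lit 26) (.nd (nat_lit 6) (.nd (nat_lit 7) (.nd (nat_lit 19) (.nd (nat_lit 29) 
(.nd (nat_lit 22) (.nd (nat_lit 20) 
(.lf (nat_lit 44310544) (dlOf (nat_lit 4) (nat_lit 0x15317800b18500002808008cc5e00486140000282000c317800718500000808003c002000400092f0102))) 
(.lf (nat_lit 1318928) (dlOf (nat_lit 1) (nat_lit 0x4200080b0481)))) (.nd (nat_lit 23) 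
(.lf (nat_lit 21241872) (dlOf (nat_lit 2) (nat_lit 0x24e60005ec080020008000400200020008a20483))) 
(.lf (nat_lit 12853264) (dlOf (nat_lit 6) (nat_lit 0xd31f8000500800218fc0004c500000504000863f00043140000101000318fc0004c500000304000c63f00063140000081000a80080064002001200086e0503))))) 
(.nd (nat_lit 28) (.nd (nat_lit 27) 
(.lf (nat_lit 537141264) (dlOf (nat_lit 1) (nat_lit 0x180080024002003e0008030883))) 
(.lf (nat_lit 671358992) (dlOf (nat_lit 2) (nat_lit 0x404a00da02200601828160480)))) 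
(.nd (nat_lit 31) 
(.lf (nat_lit 939794448) (dlOf (nat_lit 1) (nat_lit 0x20008000400200040008180483))) 
(.lf (nat_lit 3087278096) (dlOf (nat_lit 8) (nat_lit 0x600580052c08013002c002920401a401600060000009a0200690058004a808012002c001d20400100400006202000c024000a00e800000100190008005400200360008160483)))))) 
(.nd (nat_lit 28) (.nd (nat_lit 8) (.nd (nat_lit 10) 
(.lf (nat_lit 2891792) (dlOf (nat_lit 1) (nat_lit 0xc002000200081d0102))) 
(.lf (nat_lit 36447248) (dlOf (nat_lit 1) (nat_lit 0x20009072881)))) 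
(.lf (nat_lit 7086352) (dlOf (nat_lit 1) (nat_lit 0x2600184b0701)))) (.nd (nat_lit 20) 
(.lf (nat_lit 3492552720) (dlOf (nat_lit 1) (nat_lit 0x80080004002000200080e0103))) 
(.nd (nat_lit 27) 
(.lf (nat_lit 1344020496) (dlOf (nat_lit 2) (nat_lit 0x782600190c040030004000800083a0a02))) 
(.lf (nat_lit 5773205520) (dlOf (nat_lit 2) (nat_lit 0x26425e00cbb02000800280b0001))))))) 
(.nd (nat_lit 9) (.nd (nat_lit 8) (.nd (nat_lit 11) 
(.lf (nat_lit 8664208) (dlOf (nat_lit 1) (nat_lit 0x400200020008519502))) 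
(.lf (nat_lit 3624152208) (dlOf (nat_lit 1) (nat_lit 0xa40028146201)))) 
(.lf (nat_lit 35924368) (dlOf (nat_lit 1) (nat_lit 0x20019014e81)))) (.nd (nat_lit 10) 
(.nd (nat_lit 19) (.lf (nat_lit 46410640) (dlOf (nat_lit 1) (nat_lit 0x40029385c81))) 
(.lf (nat_lit 54274960) (dlOf (nat_lit 1) (nat_lit 0x1400200060009655c82)))) (.nd (nat_lit 11) 
(.lf (nat_lit 272272) (dlOf (nat_lit 1) (nat_lit 0x10008000400200020008004203))) 
(.lf (nat_lit 2818846608) (dlOf (nat_lit 2) (nat_lit 0x1007e004ae0200200008127781))))))) 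
(.nd (nat_lit 19) (.nd (nat_lit 30) (.nd (nat_lit 23) (.nd (nat_lit 9) 
(.lf (nat_lit 671359056) (dlOf (nat_lit 2) (nat_lit 0x10025002a5018160900))) 
(.lf (nat_lit 35924560) (dlOf (nat_lit 1) (nat_lit 0x20019015281)))) (.nd (nat_lit 20) 
(.lf (nat_lit 29630544) (dlOf (nat_lit 2) (nat_lit 0x18ee8a00df5c1806c2750000be0c001800400300018e30202))) 
(.lf (nat_lit 26484816) (dlOf (nat_lit 2) (nat_lit 0xca616000260200020008c50701))))) 
(.nd (nat_lit 7) (.nd (nat_lit 9) 
(.lf (nat_lit 1342447696) (dlOf (nat_lit 2) (nat_lit 0xdc00000015818031000))) 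
(.lf (nat_lit 1610884688) (dlOf (nat_lit 1) (nat_lit 0x400200020008093882)))) 
(.lf (nat_lit 1074012624) (dlOf (nat_lit 1) (nat_lit 0xa0018090a01))))) (.nd (nat_lit 20) 
(.nd (nat_lit 24) (.nd (nat_lit 22) 
(.lf (nat_lit 9183312) (dlOf (nat_lit 1) (nat_lit 0xe0018530681))) 
(.lf (nat_lit 13377616) (dlOf (nat_lit 1) (nat_lit 0x1680080044002007c0008721903)))) 
(.nd (nat_lit 7) 
(.lf (nat_lit 59514960) (dlOf (nat_lit 22) (nat_lit 0x6499f8038ccf801e8595003c2c98066139803849a8000450c006c67c00e72ca80749350000880c0398cf801c859500f726a00010c1800c19f80007e040390cfc012a5950001b0200f333f0000d40806b99f8002cb2a0003404013667e002333e00401654018c9cc00ec4d40001805007433f002c165401389cc009a4d4000178400032ca8000b80801619f800042040190cfc01405950000f02001433f0000680807b19f40558cf802b4594013d2c980ab1398054c9a8000160c01aa67d013d2ca0000541000c99f00044b2800184e6000926a00004820103165004289a8000110400be67d00b92ca0000401002a19f4031cb28000020400b45940000081012533e809c96500000008001800400020009800702)))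 
(.lf (nat_lit 19669712) (dlOf (nat_lit 1) (nat_lit 0x4004000200189d2002))))) (.nd (nat_lit 7) 
(.nd (nat_lit 8) 
(.lf (nat_lit 5773205584) (dlOf (nat_lit 5) (nat_lit 0x781300002a0100a009880006c0804f84c4000220402082620001002000400080b0681))) 
(.lf (nat_lit 1843536) (dlOf (nat_lit 2) (nat_lit 0x2a4700019818150600)))) 
(.lf (nat_lit 8135376) (dlOf (nat_lit 2) (nat_lit 0xd184b0070bf10000c81000280080028002000e0008512003))))))) 
(.nd (nat_lit 30) (.nd (nat_lit 27) (.nd (nat_lit 6) (.nd (nat_lit 7) (.nd (nat_lit 19) 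
(.lf (nat_lit 4362346512) (dlOf (nat_lit 3) (nat_lit 0x20520007023001c2010008011800000040068004001e0008030a02))) 
(.lf (nat_lit 2754355216) (dlOf (nat_lit 1) (nat_lit 0x80080004002000200080e0103)))) 
(.lf (nat_lit 2752259984) (dlOf (nat_lit 1) (nat_lit 0x80018004201)))) (.nd (nat_lit 8) 
(.nd (nat_lit 9) (.lf (nat_lit 67379280) (dlOf (nat_lit 2) (nat_lit 0x6000000110180f0700))) 
(.lf (nat_lit 69478992) (dlOf (nat_lit 3) (nat_lit 0x80338003c0e6000370400160ce0001b018a25280)))) 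
(.lf (nat_lit 2751736144) (dlOf (nat_lit 3) (nat_lit 0x382c80000a04000c164000040200020008004d81))))) 
(.nd (nat_lit 20) (.nd (nat_lit 6) 
(.lf (nat_lit 5301870608) (dlOf (nat_lit 1) (nat_lit 0x140008006c002003a00080c0003))) 
(.nd (nat_lit 7) (.lf (nat_lit 470032464) (dlOf (nat_lit 2) (nat_lit 0xdc00000015018031000))) 
(.lf (nat_lit 2885953744) (dlOf (nat_lit 1) (nat_lit 0x20028144a01))))) (.nd (nat_lit 10) 
(.nd (nat_lit 19) 
(.lf (nat_lit 471080976) (dlOf (nat_lit 1) (nat_lit 0x8008000400200020008270283))) 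
(.lf (nat_lit 471605264) (dlOf (nat_lit 1) (nat_lit 0x20028350681)))) 
(.lf (nat_lit 1008479248) (dlOf (nat_lit 1) (nat_lit 0x20018c95f81)))))) (.nd (nat_lit 27) 
(.nd (nat_lit 28) (.nd (nat_lit 29) 
(.lf (nat_lit 5436088336) (dlOf (nat_lit 1) (nat_lit 0x140008006c002003a00080c0003))) 
(.lf (nat_lit 3825475600) (dlOf (nat_lit 8) (nat_lit 0x600580077008013002c003b40401a40160006000000e28200690058006ec08012002c002f0040010040000a002000c024000a00e800000100190008005400200360008160483)))) 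
(.nd (nat_lit 6) (.nd (nat_lit 10) 
(.lf (nat_lit 1409556496) (dlOf (nat_lit 1) (nat_lit 0x180080024002003e0008030883))) 
(.lf (nat_lit 6241397776) (dlOf (nat_lit 1) (nat_lit 0x38002000200080d5f82)))) 
(.lf (nat_lit 1946427856) (dlOf (nat_lit 1) (nat_lit 0xa0018090a01))))) (.nd (nat_lit 29) 
(.nd (nat_lit 6) (.nd (nat_lit 31) 
(.lf (nat_lit 1543774224) (dlOf (nat_lit 2) (nat_lit 0x404a00da02200337028160480))) 
(.lf (nat_lit 3691257872) (dlOf (nat_lit 2) (nat_lit 0x1180b4000be04002400200040008100202)))) 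
(.lf (nat_lit 1543774288) (dlOf (nat_lit 2) (nat_lit 0x1002500579818160900)))) (.nd (nat_lit 19) 
(.nd (nat_lit 28) 
(.lf (nat_lit 1812209680) (dlOf (nat_lit 1) (nat_lit 0x20008000400200040008180483))) 
(.lf (nat_lit 4228128784) (dlOf (nat_lit 3) (nat_lit 0x204b000701f8032d41000800fc00000040068004001e0008030a02)))) 
(.nd (nat_lit 6) 
(.lf (nat_lit 6377185296) (dlOf (nat_lit 2) (nat_lit 0x2642400071202000800280b0001))) 
(.lf (nat_lit 6377185360) (dlOf (nat_lit 5) (nat_lit 0x781210002a0100a009100006c0804f8488000220402082440001002000400080b0681)))))))))) 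
(.nd (nat_lit 4) (.nd (nat_lit 19) (.nd (nat_lit 28) (.nd (nat_lit 21) (.nd (nat_lit 20) 
(.nd (nat_lit 31) (.nd (nat_lit 10) 
(.lf (nat_lit 537206784) (dlOf (nat_lit 1) (nat_lit 0x8008000800200040008050003))) 
(.lf (nat_lit 38085632) (dlOf (nat_lit 1) (nat_lit 0x400200140009132882)))) (.nd (nat_lit 27) 
(.lf (nat_lit 6442786816) (dlOf (nat_lit 3) (nat_lit 0x130188069000800500d00044064001403100070178068f8200d300080184002003200081b0003))) 
(.lf (nat_lit 3355779072) (dlOf (nat_lit 1) (nat_lit 0x20018110001))))) (.nd (nat_lit 6) 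
(.lf (nat_lit 26550272) (dlOf (nat_lit 1) (nat_lit 0x20018c50001))) 
(.lf (nat_lit 9773120) (dlOf (nat_lit 1) (nat_lit 0x8008000400200020008580483))))) (.nd (nat_lit 8) 
(.nd (nat_lit 20) (.lf (nat_lit 10821632) (dlOf (nat_lit 1) (nat_lit 0x400200020008630002))) 
(.nd (nat_lit 23) (.lf (nat_lit 37036032) (dlOf (nat_lit 1) (nat_lit 0x400200020009080002))) 
(.lf (nat_lit 62201856) (dlOf (nat_lit 1) (nat_lit 0x24004001a0009970002))))) (.nd (nat_lit 6) 
(.nd (nat_lit 7) (.lf (nat_lit 58007808) (dlOf (nat_lit 1) (nat_lit 0x400097a2a01))) 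
(.lf (nat_lit 20261760) (dlOf (nat_lit 1) (nat_lit 0x4002000200089d5c02)))) 
(.lf (nat_lit 20261696) (dlOf (nat_lit 1) (nat_lit 0x4002000200089d5c02)))))) (.nd (nat_lit 26) 
(.nd (nat_lit 27) (.nd (nat_lit 6) 
(.lf (nat_lit 4563738624) (dlOf (nat_lit 1) (nat_lit 0xc000800d4002003e00080d0003))) 
(.lf (nat_lit 2416255040) (dlOf (nat_lit 1) (nat_lit 0x4c00080c1781)))) (.nd (nat_lit 30) 
(.lf (nat_lit 4697956352) (dlOf (nat_lit 1) (nat_lit 0xc000800d4002003e00080d0003))) 
(.lf (nat_lit 1476730880) (dlOf (nat_lit 2) (nat_lit 0x501e001a040800100080098002000c0008150003))))) 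
(.nd (nat_lit 6) (.nd (nat_lit 27) 
(.lf (nat_lit 1409622016) (dlOf (nat_lit 1) (nat_lit 0x8008000800200040008050003))) 
(.lf (nat_lit 5838807040) (dlOf (nat_lit 3) (nat_lit 0x130188076940800500d000440640014031000701780768c200d300080184002003200081b0003)))) 
(.nd (nat_lit 27) 
(.lf (nat_lit 3557105728) (dlOf (nat_lit 3) (nat_lit 0xe061000201f802bbc10000818400b007e00aee0400320018130001))) 
(.lf (nat_lit 3154452544) (dlOf (nat_lit 1) (nat_lit 0x20004000c00081a0502))))))) (.nd (nat_lit 6) 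
(.nd (nat_lit 27) (.nd (nat_lit 20) (.nd (nat_lit 7) 
(.lf (nat_lit 4096598016) (dlOf (nat_lit 1) (nat_lit 0x400200020008130002))) 
(.lf (nat_lit 1879915648) (dlOf (nat_lit 1) (nat_lit 0x2a00183dc181)))) (.nd (nat_lit 21) 
(.nd (nat_lit 24) (.lf (nat_lit 1908736) (dlOf (nat_lit 1) (nat_lit 0x20028150001))) 
(.lf (nat_lit 18685952) (dlOf (nat_lit 1) (nat_lit 0x600080014002000c0008960003)))) 
(.lf (nat_lit 4005888) (dlOf (nat_lit 1) (nat_lit 0x40008000400200020008260003))))) 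
(.nd (nat_lit 26) (.nd (nat_lit 20) 
(.lf (nat_lit 2819432448) (dlOf (nat_lit 3) (nat_lit 0x5006c000c02c00281020058037800fa0080160008003c00200400008280003))) 
(.lf (nat_lit 5773271040) (dlOf (nat_lit 1) (nat_lit 0x280080108002004400080c0003)))) 
(.nd (nat_lit 29) 
(.lf (nat_lit 471670784) (dlOf (nat_lit 1) (nat_lit 0x80080004002000200083c0003))) 
(.lf (nat_lit 6377250816) (dlOf (nat_lit 1) (nat_lit 0x280080108002004400080c0003)))))) 
(.nd (nat_lit 10) (.nd (nat_lit 20) (.nd (nat_lit 21) (.nd (nat_lit 23) 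
(.lf (nat_lit 21831744) (dlOf (nat_lit 2) (nat_lit 0x6c00000012818a70780))) 
(.lf (nat_lit 13443136) (dlOf (nat_lit 1) (nat_lit 0xd00018721781)))) 
(.lf (nat_lit 4096598080) (dlOf (nat_lit 1) (nat_lit 0x40018131681)))) (.nd (nat_lit 7) 
(.lf (nat_lit 1346183232) (dlOf (nat_lit 2) (nat_lit 0x302c0002a0d9001606c00040270002c11a001208c000e01780091c3803b80080004002000a0008e60603))) 
(.lf (nat_lit 6377251008) (dlOf (nat_lit 1) (nat_lit 0x1c004001000180c1b02))))) (.nd (nat_lit 7) 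
(.nd (nat_lit 8) (.lf (nat_lit 8201792) (dlOf (nat_lit 1) (nat_lit 0x3000200020008513802))) 
(.lf (nat_lit 1410148160) (dlOf (nat_lit 2) (nat_lit 0xc000000168180f3e00)))) (.nd (nat_lit 9) 
(.lf (nat_lit 58533056) (dlOf (nat_lit 1) (nat_lit 0x1b00080030002000a00097e2d03))) 
(.lf (nat_lit 19740352) (dlOf (nat_lit 1) (nat_lit 0x600289da001)))))))) (.nd (nat_lit 6) 
(.nd (nat_lit 19) (.nd (nat_lit 27) (.nd (nat_lit 20) (.nd (nat_lit 26) (.nd (nat_lit 7) 
(.nd (nat_lit 8) 
(.lf (nat_lit 5905915920) (dlOf (nat_lit 6) (nat_lit 0x46404a01ca017000a782000601f800180ec048404a01d6017000a284012a012807a805c0028408009007e007403b0004016800c00a4044c04a01ba0170009d86000a01280000008004800800d000200340008160483))) 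
(.lf (nat_lit 23404816) (dlOf (nat_lit 1) (nat_lit 0x18008000800200040008b80483)))) 
(.nd (nat_lit 8) 
(.lf (nat_lit 4832174224) (dlOf (nat_lit 1) (nat_lit 0x8008000400200020008101003))) 
(.lf (nat_lit 35989904) (dlOf (nat_lit 1) (nat_lit 0x20019014e81))))) (.nd (nat_lit 28) 
(.lf (nat_lit 6509895696) (dlOf (nat_lit 6) (nat_lit 0x46404c01ca017000f002000601f800180ec048404c01d6017000eb04012a013007a805c003a608009007e007403b0004015000c00a4044c04c01ba017000e606000a01300000008004800800d000200340008160483))) 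
(.nd (nat_lit 30) (.lf (nat_lit 2483363856) (dlOf (nat_lit 1) (nat_lit 0xc002002000080d0882))) 
(.lf (nat_lit 5704589328) (dlOf (nat_lit 1) (nat_lit 0xc0018100001)))))) (.nd (nat_lit 10) 
(.nd (nat_lit 21) (.lf (nat_lit 1343561744) (dlOf (nat_lit 1) (nat_lit 0x18002000a0008290282))) 
(.nd (nat_lit 22) 
(.lf (nat_lit 62201872) (dlOf (nat_lit 6) (nat_lit 0x305228014a8cc0002808000548a00013020004a450000901000552300092914001946600005060010a4600155228001a8cc000080c00b400400520019970102))) 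
(.lf (nat_lit 24453136) (dlOf (nat_lit 6) (nat_lit 0x3b4a0003da340002a080012d1a0000502000968d00002010002b4680000c080035a50001ad1a000020400020028ba0501))))) 
(.nd (nat_lit 8) (.lf (nat_lit 60107792) (dlOf (nat_lit 1) (nat_lit 0x8008000400200020009845f83))) 
(.lf (nat_lit 1880433936) (dlOf (nat_lit 3) (nat_lit 0x4821c00070040140000000170200020018983001)))))) 
(.nd (nat_lit 26) (.nd (nat_lit 28) (.nd (nat_lit 30) 
(.lf (nat_lit 134553616) (dlOf (nat_lit 23) (nat_lit 0x66008805a3808033004402d1a04019802201689020132000001d3810093000000e94080380000006b604025c08200357020236043008c020800d44100658148032c0a200700400038013001c00840188014019600700cb00300670000004f224001c094000603b0012e82019a01d8009340809100ec004400404bc0760021d02027603b0010e01013e01d80085c0807d00ec004240404cc076001fe02025e03b000fe01013201d8007e408005810c000720402300820001502023e043000b020005080ec02f406c00f6017005d00980070000000001c00b0004007a0018070502))) 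
(.lf (nat_lit 3355779088) (dlOf (nat_lit 3) (nat_lit 0x20064003603100010090000d81800200c40002c0400b800400100008110102)))) 
(.nd (nat_lit 29) 
(.lf (nat_lit 1476730896) (dlOf (nat_lit 2) (nat_lit 0x80f00006004008800400100008150282))) 
(.lf (nat_lit 6308569104) (dlOf (nat_lit 1) (nat_lit 0xc0018100001))))) (.nd (nat_lit 22) 
(.nd (nat_lit 31) 
(.lf (nat_lit 201662480) (dlOf (nat_lit 23) (nat_lit 0x6600880547c08033004402a3c0401980220151a02013200000193810093000000c94080380000005b604025c082002d7020236043008c020800b44100658148032c0a200700400038013001c008c0188014019600700cb00300670000004d62406680760025f02000e04a000301d8009241009100ec004600404bc0760022f02027603b0011601013e01d8008640807d00ec004280404bc0760020502026603b0010181013201d80080008005810c0006a0402300820000c02023e043000b020005080ec02f406c00f6017005d00980070000000001c00b0004007a0018070502))) 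
(.lf (nat_lit 2349146128) (dlOf (nat_lit 1) (nat_lit 0xc002002000080d0882)))) 
(.lf (nat_lit 474292240) (dlOf (nat_lit 1) (nat_lit 0x1f80009120001)))))) (.nd (nat_lit 20) 
(.nd (nat_lit 22) (.nd (nat_lit 27) (.nd (nat_lit 21) (.nd (nat_lit 28) 
(.lf (nat_lit 860176) (dlOf (nat_lit 1) (nat_lit 0x400400020008020482))) 
(.lf (nat_lit 1343037456) (dlOf (nat_lit 1) (nat_lit 0x1000400080008140102)))) 
(.lf (nat_lit 2957328) (dlOf (nat_lit 1) (nat_lit 0x8c00181e0501)))) (.nd (nat_lit 26) 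
(.lf (nat_lit 2819432464) (dlOf (nat_lit 3) (nat_lit 0x45810c01e00380005f0400de043003200e000014100220008020800200780008280203))) 
(.lf (nat_lit 470622224) (dlOf (nat_lit 1) (nat_lit 0x1000400080008140102))))) (.nd (nat_lit 23) 
(.lf (nat_lit 21831696) (dlOf (nat_lit 1) (nat_lit 0x378008000400200900008a70483))) 
(.lf (nat_lit 13443088) (dlOf (nat_lit 1) (nat_lit 0x20018720981))))) (.nd (nat_lit 21) 
(.nd (nat_lit 23) (.lf (nat_lit 18685968) (dlOf (nat_lit 1) (nat_lit 0x40008960281))) 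
(.lf (nat_lit 27074576) (dlOf (nat_lit 2) (nat_lit 0xfc8e80032c08018000801b400200320008ca0483)))) 
(.lf (nat_lit 4005904) (dlOf (nat_lit 1) (nat_lit 0x40018260881)))))) (.nd (nat_lit 20) 
(.nd (nat_lit 27) (.nd (nat_lit 8) (.nd (nat_lit 26) (.nd (nat_lit 28) 
(.lf (nat_lit 1610948688) (dlOf (nat_lit 2) (nat_lit 0x20370000c0180a1700))) 
(.lf (nat_lit 4563738704) (dlOf (nat_lit 1) (nat_lit 0x88002001600080d0502)))) 
(.lf (nat_lit 2483363920) (dlOf (nat_lit 4) (nat_lit 0x1c02a0005b02014c02b0002d01000c007802b0034000b0080088002002000080d0d02)))) 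
(.nd (nat_lit 10) (.lf (nat_lit 7151952) (dlOf (nat_lit 1) (nat_lit 0x2a00184b0801))) 
(.lf (nat_lit 56960336) (dlOf (nat_lit 4) (nat_lit 0x105ed00032f600078000000540c0004bdc0002202003c5e90007219800040100248008000400200060009793303))))) 
(.nd (nat_lit 28) (.nd (nat_lit 7) (.nd (nat_lit 26) 
(.lf (nat_lit 3892650064) (dlOf (nat_lit 6) (nat_lit 0x4a000000074080250000000380401280000001b0200940000000c81002b02c0063015800980a6004e046000b021801b0100032c0740186035002501800088094019c042008a01e001600d0048805c001802600f400d00cb004000d00000001648006800200140008180702))) 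
(.lf (nat_lit 2349146192) (dlOf (nat_lit 4) (nat_lit 0x1c02a0005402014c02b0002981000c007802b0034000a2080088002002000080d0d02)))) 
(.lf (nat_lit 1745166544) (dlOf (nat_lit 1) (nat_lit 0x200280c1b81)))) (.nd (nat_lit 8) 
(.lf (nat_lit 4697956432) (dlOf (nat_lit 1) (nat_lit 0x88002001600080d0502))) 
(.lf (nat_lit 3624217936) (dlOf (nat_lit 4) (nat_lit 0x5c0450029022000080f800b8078000a037002c01a80018000000281c001c08a0062044004001f001580f000a0076006a037003201a80004c3802200dc0002204005000400360018146a02)))))) 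
(.nd (nat_lit 19) (.nd (nat_lit 9) (.nd (nat_lit 22) 
(.lf (nat_lit 1384528) (dlOf (nat_lit 1) (nat_lit 0x44004000a00080c1002))) 
(.lf (nat_lit 55910480) (dlOf (nat_lit 1) (nat_lit 0x1600296f0701)))) 
(.lf (nat_lit 34941520) (dlOf (nat_lit 1) (nat_lit 0x8008000400200020008fb5283)))) (.nd (nat_lit 7) 
(.nd (nat_lit 8) 
(.lf (nat_lit 1346183248) (dlOf (nat_lit 7) (nat_lit 0x650af8081857805a41ae01f009b00f104580005c2803b057c00702bc023e0d70000b03001d06b8020826c00cc116000150600500d7000098100950af0068835c0254136011a08b000090400750af8028057805241ae000000600020018e60701))) 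
(.lf (nat_lit 8202576) (dlOf (nat_lit 1) (nat_lit 0x1800200140008514d82)))) (.nd (nat_lit 26) 
(.lf (nat_lit 5773271248) (dlOf (nat_lit 1) (nat_lit 0x14004000e00180c1882))) 
(.lf (nat_lit 6377251024) (dlOf (nat_lit 1) (nat_lit 0x4002000200080c1b82)))))))))) 
(.nd (nat_lit 16) (.nd (nat_lit 6) (.nd (nat_lit 26) (.nd (nat_lit 28) (.nd (nat_lit 19) 
(.nd (nat_lit 4) (.nd (nat_lit 7) (.nd (nat_lit 23) (.nd (nat_lit 8) 
(.lf (nat_lit 2400256) (dlOf (nat_lit 4) (nat_lit 0xaa4700d1d0100095238068e008003291c033b604008c004006e0018150002))) 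
(.lf (nat_lit 56929024) (dlOf (nat_lit 3) (nat_lit 0x2a9140002804004d48a0001102001a0019795a81)))) 
(.nd (nat_lit 20) 
(.lf (nat_lit 44343296) (dlOf (nat_lit 1) (nat_lit 0x280080010002000a00092f0003))) 
(.lf (nat_lit 9740288) (dlOf (nat_lit 1) (nat_lit 0x90008002c00200160008580003))))) 
(.nd (nat_lit 8) 
(.lf (nat_lit 1074045056) (dlOf (nat_lit 3) (nat_lit 0x4201380054c08021009c002a404002c004004c0008090082))) 
(.lf (nat_lit 20228992) (dlOf (nat_lit 1) (nat_lit 0x4002000200089d5c02))))) (.nd (nat_lit 21) 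
(.nd (nat_lit 7) 
(.lf (nat_lit 2684657680) (dlOf (nat_lit 5) (nat_lit 0x6280cc036c0580004a0400d0033007e01600010c101aa00cc0e9005800041040aca032021e01580028064000760c0dd400400760018110102))) 
(.lf (nat_lit 1074045072) (dlOf (nat_lit 1) (nat_lit 0x48008008c002003c0008090103)))) 
(.nd (nat_lit 20) 
(.lf (nat_lit 44343312) (dlOf (nat_lit 4) (nat_lit 0x113178008185000028080034c5e00166140000282000d317800598500000808001c004000600192f0102))) 
(.lf (nat_lit 24420368) (dlOf (nat_lit 1) (nat_lit 0x488008052c00201ee0008b90683)))))) 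
(.nd (nat_lit 20) (.nd (nat_lit 21) (.nd (nat_lit 22) 
(.lf (nat_lit 2819399696) (dlOf (nat_lit 1) (nat_lit 0x20028260201))) 
(.lf (nat_lit 21798928) (dlOf (nat_lit 2) (nat_lit 0x428e9c02046a2006500400020028a70481)))) 
(.nd (nat_lit 7) (.lf (nat_lit 2924560) (dlOf (nat_lit 1) (nat_lit 0x200181d0101))) 
(.lf (nat_lit 36481424) (dlOf (nat_lit 1) (nat_lit 0x20029074e81))))) (.nd (nat_lit 7) 
(.nd (nat_lit 9) (.lf (nat_lit 29138960) (dlOf (nat_lit 1) (nat_lit 0x400400040018dc0a02))) 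
(.lf (nat_lit 8172048) (dlOf (nat_lit 1) (nat_lit 0x20028518681)))) 
(.lf (nat_lit 8172176) (dlOf (nat_lit 1) (nat_lit 0x28008000400200020008518c83)))))) 
(.nd (nat_lit 30) (.nd (nat_lit 4) (.nd (nat_lit 27) (.nd (nat_lit 29) 
(.lf (nat_lit 4563705856) (dlOf (nat_lit 1) (nat_lit 0x38008003c002001a00080c0003))) 
(.lf (nat_lit 2953093120) (dlOf (nat_lit 1) (nat_lit 0x20018100001)))) 
(.lf (nat_lit 4697923584) (dlOf (nat_lit 1) (nat_lit 0x38008003c002001a00080c0003)))) 
(.nd (nat_lit 27) (.nd (nat_lit 29) 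
(.lf (nat_lit 4563705872) (dlOf (nat_lit 2) (nat_lit 0x50178057800800380080030002001c00080c0003))) 
(.lf (nat_lit 805609488) (dlOf (nat_lit 1) (nat_lit 0x20018140a01)))) (.nd (nat_lit 29) 
(.lf (nat_lit 4697923600) (dlOf (nat_lit 2) (nat_lit 0x5017805cf80800380080030002001c00080c0003))) 
(.lf (nat_lit 3087310864) (dlOf (nat_lit 5) (nat_lit 0x400e002800000ed50200040050002001c006800001da806007202000de3810038010006f18080100008000800200240008170883)))))) 
(.nd (nat_lit 31) (.nd (nat_lit 4) 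
(.lf (nat_lit 1476698112) (dlOf (nat_lit 1) (nat_lit 0x20008140001))) (.nd (nat_lit 19) 
(.lf (nat_lit 1476698128) (dlOf (nat_lit 1) (nat_lit 0x80008140201))) 
(.lf (nat_lit 1343004688) (dlOf (nat_lit 2) (nat_lit 0x488ac0347204000800400060008130882))))) 
(.nd (nat_lit 4) (.lf (nat_lit 3489966464) (dlOf (nat_lit 1) (nat_lit 0x400200020008004e82))) 
(.nd (nat_lit 19) 
(.lf (nat_lit 3494158352) (dlOf (nat_lit 1) (nat_lit 0x200080024002001200081c0683))) 
(.lf (nat_lit 3492585488) (dlOf (nat_lit 2) (nat_lit 0x7a1fa0001d8180e0100)))))))) 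
(.nd (nat_lit 31) (.nd (nat_lit 7) (.nd (nat_lit 4) (.nd (nat_lit 8) 
(.lf (nat_lit 5167685632) (dlOf (nat_lit 1) (nat_lit 0xc00200020008100002))) 
(.lf (nat_lit 738500864) (dlOf (nat_lit 1) (nat_lit 0x1000200020008090a82)))) (.nd (nat_lit 10) 
(.nd (nat_lit 19) (.lf (nat_lit 1678024720) (dlOf (nat_lit 1) (nat_lit 0x20018140a01))) 
(.lf (nat_lit 470589456) (dlOf (nat_lit 2) (nat_lit 0x488ac03b3c04000800400060008130882)))) 
(.lf (nat_lit 1009036304) (dlOf (nat_lit 1) (nat_lit 0x800200040009005f82))))) (.nd (nat_lit 8) 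
(.nd (nat_lit 4) 
(.lf (nat_lit 1946460288) (dlOf (nat_lit 3) (nat_lit 0x4201380057408021009c002b804002c004004c0008090082))) 
(.lf (nat_lit 1946460304) (dlOf (nat_lit 1) (nat_lit 0x48008008c002003c0008090103)))) 
(.nd (nat_lit 32) (.lf (nat_lit 1141156240) (dlOf (nat_lit 1) (nat_lit 0x120018124e81))) 
(.lf (nat_lit 5436123536) (dlOf (nat_lit 3) (nat_lit 0xb4011001a88100550088009e4080268008001c002005600080e4e83)))))) 
(.nd (nat_lit 27) (.nd (nat_lit 7) (.nd (nat_lit 19) (.nd (nat_lit 22) 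
(.lf (nat_lit 3825508368) (dlOf (nat_lit 5) (nat_lit 0x400e002800000d228200040050002001c006800001a4306007202000c27010038010006134080100008000800200240008170883))) 
(.lf (nat_lit 2755960848) (dlOf (nat_lit 1) (nat_lit 0x200080024002001200081c0683)))) 
(.lf (nat_lit 2754387984) (dlOf (nat_lit 2) (nat_lit 0x7a20f0001d8180e0100)))) (.nd (nat_lit 19) 
(.lf (nat_lit 2751768464) (dlOf (nat_lit 1) (nat_lit 0x120008016800200040008004203))) 
(.lf (nat_lit 2752292752) (dlOf (nat_lit 1) (nat_lit 0x40018004201))))) (.nd (nat_lit 4) 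
(.nd (nat_lit 28) (.lf (nat_lit 6644080640) (dlOf (nat_lit 1) (nat_lit 0x8b0002041e00080e0002))) 
(.lf (nat_lit 3691290624) (dlOf (nat_lit 3) (nat_lit 0xc0150034681000100a801a180801000080010002001c0008110003)))) 
(.nd (nat_lit 9) (.nd (nat_lit 10) 
(.lf (nat_lit 6644080656) (dlOf (nat_lit 2) (nat_lit 0xd808400218040008004000400080e0482))) 
(.lf (nat_lit 2885985296) (dlOf (nat_lit 1) (nat_lit 0x140028142881)))) 
(.lf (nat_lit 3959726608) (dlOf (nat_lit 3) (nat_lit 0x1000000093c04000801c004950200020008128401)))))))) 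
(.nd (nat_lit 4) (.nd (nat_lit 28) (.nd (nat_lit 19) (.nd (nat_lit 8) (.nd (nat_lit 27) 
(.nd (nat_lit 9) 
(.lf (nat_lit 22323264) (dlOf (nat_lit 3) (nat_lit 0x145f28008580801aaf94000000400c0004004a0008ac0d82))) 
(.lf (nat_lit 1074045504) (dlOf (nat_lit 1) (nat_lit 0x800400020008091082)))) (.nd (nat_lit 26) 
(.lf (nat_lit 1208262720) (dlOf (nat_lit 2) (nat_lit 0x6201480028030000e4080004002000200080b0502))) 
(.lf (nat_lit 6107209792) (dlOf (nat_lit 2) (nat_lit 0x140070000ba04000c004008000180b0502))))) 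
(.nd (nat_lit 7) (.lf (nat_lit 20228928) (dlOf (nat_lit 1) (nat_lit 0x4002000200089d5c02))) 
(.nd (nat_lit 21) 
(.lf (nat_lit 1074045376) (dlOf (nat_lit 3) (nat_lit 0x20148000700800500500000004002c002001a0008090882))) 
(.lf (nat_lit 23372224) (dlOf (nat_lit 2) (nat_lit 0x5c0000000002000a0008b80881)))))) 
(.nd (nat_lit 22) (.nd (nat_lit 9) (.nd (nat_lit 20) 
(.lf (nat_lit 827456) (dlOf (nat_lit 1) (nat_lit 0x40028020781))) 
(.lf (nat_lit 10264640) (dlOf (nat_lit 1) (nat_lit 0xc004000c00085c0d82)))) 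
(.lf (nat_lit 36481600) (dlOf (nat_lit 1) (nat_lit 0x400200020009075202)))) (.nd (nat_lit 23) 
(.lf (nat_lit 21798976) (dlOf (nat_lit 2) (nat_lit 0x963a7010e1a880008c100020008000400200080008a70783))) 
(.lf (nat_lit 13410368) (dlOf (nat_lit 2) (nat_lit 0x46f400006404000400400040018721782)))))) 
(.nd (nat_lit 26) (.nd (nat_lit 20) (.nd (nat_lit 7) (.nd (nat_lit 27) 
(.lf (nat_lit 6711189568) (dlOf (nat_lit 2) (nat_lit 0x140070000ba04000c004008000180b0502))) 
(.lf (nat_lit 402956352) (dlOf (nat_lit 1) (nat_lit 0x280080060002000800080b0503)))) 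
(.lf (nat_lit 4563706048) (dlOf (nat_lit 1) (nat_lit 0x140008001c002002c00080c1b03)))) 
(.nd (nat_lit 8) (.nd (nat_lit 21) 
(.lf (nat_lit 5773238336) (dlOf (nat_lit 2) (nat_lit 0xc11f000390180b0500))) 
(.lf (nat_lit 1346150464) (dlOf (nat_lit 2) (nat_lit 0x4bc29a029e0d9011706c009901f4002c0f800be03000e401780091c388888008014800203a40008e60603)))) 
(.lf (nat_lit 3493111616) (dlOf (nat_lit 1) (nat_lit 0x1c004000200180f3e02))))) (.nd (nat_lit 9) 
(.nd (nat_lit 27) (.nd (nat_lit 7) 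
(.lf (nat_lit 335847488) (dlOf (nat_lit 1) (nat_lit 0x280080060002000800080b0503))) 
(.lf (nat_lit 1946460608) (dlOf (nat_lit 3) (nat_lit 0x20148000740800500500000004002c002001a0008090882)))) 
(.nd (nat_lit 19) 
(.lf (nat_lit 2080677952) (dlOf (nat_lit 2) (nat_lit 0x6201480028030000e4080004002000200080b0502))) 
(.lf (nat_lit 6377218112) (dlOf (nat_lit 2) (nat_lit 0xc110000390180b0500))))) (.nd (nat_lit 7) 
(.nd (nat_lit 8) (.lf (nat_lit 1946460736) (dlOf (nat_lit 1) (nat_lit 0x800400020008091082))) 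
(.lf (nat_lit 1410115392) (dlOf (nat_lit 6) (nat_lit 0x2203b801481d8008c0cc004c06500280000000d82800081dc00100cc00035040046077002603b00118198009800000034080018078004203b804201c401b40cc01340000001705001903c000281dc03380e2016c0660012030006b80000005a180004004004000180f3e02)))) 
(.lf (nat_lit 1410115264) (dlOf (nat_lit 1) (nat_lit 0x7e00080f3a81))))))) (.nd (nat_lit 30) 
(.nd (nat_lit 23) (.nd (nat_lit 29) (.nd (nat_lit 7) (.nd (nat_lit 8) 
(.lf (nat_lit 470589520) (dlOf (nat_lit 2) (nat_lit 0xe1000005061c00380ca000480600040028130d01))) 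
(.lf (nat_lit 6509863248) (dlOf (nat_lit 1) (nat_lit 0x18008000400200060008154d03)))) 
(.lf (nat_lit 4563706064) (dlOf (nat_lit 1) (nat_lit 0x10008003c002001600080c1b83)))) 
(.nd (nat_lit 7) (.nd (nat_lit 26) 
(.lf (nat_lit 3087310928) (dlOf (nat_lit 8) (nat_lit 0x160028000401000f2000000278300390050005802001a00000004d0600200070002601001e00380012c0800200000008c04013400e0006000000210200ce003800100080170008012000200180008171003))) 
(.lf (nat_lit 5167685712) (dlOf (nat_lit 5) (nat_lit 0xc014000e002800178100060050002400a0005d04000c0140002d81000600a000168080040008004c00200100008100503)))) 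
(.lf (nat_lit 2751768784) (dlOf (nat_lit 1) (nat_lit 0x80018004a01))))) (.nd (nat_lit 20) 
(.nd (nat_lit 22) (.lf (nat_lit 25469008) (dlOf (nat_lit 1) (nat_lit 0x2400200020008c10182))) 
(.lf (nat_lit 29663312) (dlOf (nat_lit 2) (nat_lit 0x5f2dc03113a80005f0400020018e30201)))) 
(.nd (nat_lit 24) (.lf (nat_lit 9740368) (dlOf (nat_lit 1) (nat_lit 0x10002000a0008580502))) 
(.lf (nat_lit 26517584) (dlOf (nat_lit 1) (nat_lit 0xa0008c50701)))))) (.nd (nat_lit 28) 
(.nd (nat_lit 29) (.nd (nat_lit 7) (.nd (nat_lit 8) 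
(.lf (nat_lit 1208262736) (dlOf (nat_lit 1) (nat_lit 0x200280b0681))) 
(.lf (nat_lit 3221528912) (dlOf (nat_lit 3) (nat_lit 0x440140006402015c00a00030818124d00)))) 
(.nd (nat_lit 8) (.lf (nat_lit 5436123856) (dlOf (nat_lit 2) (nat_lit 0x12011000138180e5880))) 
(.lf (nat_lit 3221529040) (dlOf (nat_lit 2) (nat_lit 0x200e0051a818127100))))) (.nd (nat_lit 9) 
(.nd (nat_lit 26) 
(.lf (nat_lit 3758399568) (dlOf (nat_lit 15) (nat_lit 0xe9406202580250001302030d018800180b005e804a0002506005a031000120102fb01880bc009400046080c0006200c802f002e0128000881817080c4017405e0278025000108300b70188000800800d80c40003e04001c0620001e0201fe031005901600680094000300c001404a00011020ab0000000020104f40000000080807a80c4036c04a036c01e0053000827180000000014180000211d40008170702))) 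
(.lf (nat_lit 3825508432) (dlOf (nat_lit 8) (nat_lit 0x160028000401000f20000002b0300390050005802001a0000000540600200070002981001e0038001480800200000009a04013400e0006000000248200ce00380011c080170008012000200180008171003)))) 
(.lf (nat_lit 1610917456) (dlOf (nat_lit 1) (nat_lit 0x20028093881))))) (.nd (nat_lit 19) 
(.nd (nat_lit 7) (.nd (nat_lit 8) 
(.lf (nat_lit 2080677968) (dlOf (nat_lit 1) (nat_lit 0x200280b0681))) 
(.lf (nat_lit 1345627472) (dlOf (nat_lit 1) (nat_lit 0x8008000400200020008dd3303)))) 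
(.lf (nat_lit 2013571792) (dlOf (nat_lit 1) (nat_lit 0xa000200020008125882)))) (.nd (nat_lit 20) 
(.lf (nat_lit 1343004752) (dlOf (nat_lit 2) (nat_lit 0xe0ff8005061c00380de0004f0600040028130d01))) 
(.lf (nat_lit 1346150480) (dlOf (nat_lit 2) (nat_lit 0x210a60013835c0002e08004800200260008e60702))))))))) 
(.nd (nat_lit 4) (.nd (nat_lit 6) (.nd (nat_lit 20) (.nd (nat_lit 26) (.nd (nat_lit 22) 
(.nd (nat_lit 31) (.nd (nat_lit 27) 
(.lf (nat_lit 1342545920) (dlOf (nat_lit 3) (nat_lit 0x22470044f01000112380222c0800180080010002001a0008050003))) 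
(.lf (nat_lit 134586368) (dlOf (nat_lit 1) (nat_lit 0x10008000c00200060008080003)))) 
(.nd (nat_lit 29) 
(.lf (nat_lit 3355811840) (dlOf (nat_lit 2) (nat_lit 0xa00900329c080108008008000200520008120003))) 
(.lf (nat_lit 3892682752) (dlOf (nat_lit 1) (nat_lit 0x1580080038002003600081b0003))))) 
(.nd (nat_lit 8) (.nd (nat_lit 19) 
(.lf (nat_lit 6660096) (dlOf (nat_lit 1) (nat_lit 0x40008440001))) 
(.lf (nat_lit 13475840) (dlOf (nat_lit 1) (nat_lit 0x800400020008720002)))) 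
(.lf (nat_lit 46506240) (dlOf (nat_lit 1) (nat_lit 0x20029380a81))))) (.nd (nat_lit 28) 
(.nd (nat_lit 27) (.lf (nat_lit 4362444800) (dlOf (nat_lit 1) (nat_lit 0x40008080001))) 
(.lf (nat_lit 201695232) (dlOf (nat_lit 1) (nat_lit 0x10008000c00200060008080003)))) 
(.nd (nat_lit 31) (.nd (nat_lit 22) 
(.lf (nat_lit 470130688) (dlOf (nat_lit 3) (nat_lit 0x224700761810001123803ac00800180080010002001a0008050003))) 
(.lf (nat_lit 474324992) (dlOf (nat_lit 1) (nat_lit 0x500029150001)))) (.nd (nat_lit 29) 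
(.lf (nat_lit 2617614336) (dlOf (nat_lit 8) (nat_lit 0x14058008e102000202c0046f8100060150023700800280a8011b40403cc05c007150200100300037e81011b017801a70080118008005400200360008100003))) 
(.lf (nat_lit 4228227072) (dlOf (nat_lit 1) (nat_lit 0x40008080001))))))) (.nd (nat_lit 22) 
(.nd (nat_lit 8) (.nd (nat_lit 26) 
(.lf (nat_lit 3493699584) (dlOf (nat_lit 1) (nat_lit 0x100080008002000400081a0003))) 
(.lf (nat_lit 2755502080) (dlOf (nat_lit 1) (nat_lit 0x100080008002000400081a0003)))) 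
(.nd (nat_lit 7) 
(.lf (nat_lit 1345694464) (dlOf (nat_lit 7) (nat_lit 0x3845c00180b40003104000c1170001801000308b800101680005e08000822e0001e0200061170000e81000608b80006c0800f8008000400200080008dd5a83))) 
(.lf (nat_lit 20294528) (dlOf (nat_lit 1) (nat_lit 0x80080004002000200089d5c03))))) 
(.nd (nat_lit 23) (.nd (nat_lit 9) 
(.lf (nat_lit 22913024) (dlOf (nat_lit 2) (nat_lit 0x55bc400000018b40000))) 
(.lf (nat_lit 8237568) (dlOf (nat_lit 1) (nat_lit 0x400400020018518682)))) (.nd (nat_lit 24) 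
(.lf (nat_lit 14524416) (dlOf (nat_lit 1) (nat_lit 0x60008003000200160008760003))) 
(.lf (nat_lit 31301632) (dlOf (nat_lit 1) (nat_lit 0x80028e80001))))))) (.nd (nat_lit 19) 
(.nd (nat_lit 26) (.nd (nat_lit 8) (.nd (nat_lit 28) 
(.lf (nat_lit 1610981440) (dlOf (nat_lit 2) (nat_lit 0x124015401e409c04900370001c0380b0500))) 
(.lf (nat_lit 4026900544) (dlOf (nat_lit 2) (nat_lit 0xc400f000190180c1780)))) (.nd (nat_lit 9) 
(.lf (nat_lit 21340480) (dlOf (nat_lit 1) (nat_lit 0x8008000400200020008a34c03))) 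
(.lf (nat_lit 8759104) (dlOf (nat_lit 1) (nat_lit 0xc20008513e01))))) (.nd (nat_lit 21) 
(.nd (nat_lit 11) 
(.lf (nat_lit 738566208) (dlOf (nat_lit 2) (nat_lit 0x124015401e409c04900370001b0380b0500))) 
(.lf (nat_lit 2483402816) (dlOf (nat_lit 1) (nat_lit 0x200280fa681)))) (.nd (nat_lit 7) 
(.lf (nat_lit 2753929280) (dlOf (nat_lit 1) (nat_lit 0x3880080014002007400080a0d03))) 
(.lf (nat_lit 1009099968) (dlOf (nat_lit 1) (nat_lit 0x80009082d01)))))) (.nd (nat_lit 21) 
(.nd (nat_lit 7) (.nd (nat_lit 22) 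
(.lf (nat_lit 470655040) (dlOf (nat_lit 1) (nat_lit 0x40008003800200020008150003))) 
(.lf (nat_lit 13475904) (dlOf (nat_lit 1) (nat_lit 0x40008721781)))) 
(.lf (nat_lit 18718912) (dlOf (nat_lit 1) (nat_lit 0x6e0028970481)))) (.nd (nat_lit 9) 
(.lf (nat_lit 53321792) (dlOf (nat_lit 1) (nat_lit 0x400200020009590502))) 
(.lf (nat_lit 3492657728) (dlOf (nat_lit 1) (nat_lit 0x1400080fb481))))))) (.nd (nat_lit 6) 
(.nd (nat_lit 28) (.nd (nat_lit 19) (.nd (nat_lit 29) (.nd (nat_lit 20) (.nd (nat_lit 7) 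
(.nd (nat_lit 26) 
(.lf (nat_lit 6442819600) (dlOf (nat_lit 2) (nat_lit 0x100c800ad6040004002000800081c0682))) 
(.lf (nat_lit 6509928464) (dlOf (nat_lit 5) (nat_lit 0x2002e001e0020012035000800b80075810004005c003a60400b406a002402f0015013000e805c003981000a400400040018160482)))) 
(.lf (nat_lit 4295337872) (dlOf (nat_lit 1) (nat_lit 0x58008002400200040008114203)))) 
(.nd (nat_lit 21) (.nd (nat_lit 22) 
(.lf (nat_lit 9805840) (dlOf (nat_lit 1) (nat_lit 0x54004004c0008580002))) 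
(.lf (nat_lit 22388752) (dlOf (nat_lit 3) (nat_lit 0x22f380009604000561a000370200080028ad0201)))) 
(.lf (nat_lit 24485904) (dlOf (nat_lit 6) (nat_lit 0x12f50001977a00015040002bd4000028100025de800010080012f50001177a0000304000abd400035de800008100010008000c00200100008ba0503))))) 
(.nd (nat_lit 26) (.nd (nat_lit 27) (.nd (nat_lit 30) 
(.lf (nat_lit 537239568) (dlOf (nat_lit 3) (nat_lit 0x2817c005c0b4001005700340260005008800d403e0026b0c00a006b000201800038000000000c0004004000c0008070502))) 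
(.lf (nat_lit 5905948688) (dlOf (nat_lit 5) (nat_lit 0x2002e0014f020012038000800b80051410004005c002840400b4070002402f0015012800e805c002761000a400400040018160482)))) 
(.lf (nat_lit 671457296) (dlOf (nat_lit 3) (nat_lit 0xf00180029c04000400c00a60030009d0281a0480)))) 
(.nd (nat_lit 30) (.lf (nat_lit 4899315728) (dlOf (nat_lit 1) (nat_lit 0x240018100001))) 
(.lf (nat_lit 1678090256) (dlOf (nat_lit 3) (nat_lit 0x580aa0151402004005600700098000001000b00080008002001c0008180503)))))) 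
(.nd (nat_lit 20) (.nd (nat_lit 22) (.nd (nat_lit 29) 
(.lf (nat_lit 892944) (dlOf (nat_lit 1) (nat_lit 0x20018030881))) 
(.lf (nat_lit 537763856) (dlOf (nat_lit 1) (nat_lit 0x20028170481)))) (.nd (nat_lit 7) 
(.lf (nat_lit 21864464) (dlOf (nat_lit 1) (nat_lit 0x400400020008a70482))) 
(.lf (nat_lit 38644112) (dlOf (nat_lit 1) (nat_lit 0x40019134e81))))) (.nd (nat_lit 7) 
(.nd (nat_lit 10) 
(.lf (nat_lit 27107344) (dlOf (nat_lit 1) (nat_lit 0x3b0008016000200040008ca0483))) 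
(.lf (nat_lit 50177040) (dlOf (nat_lit 1) (nat_lit 0x2400294c2881)))) 
(.lf (nat_lit 12427664) (dlOf (nat_lit 1) (nat_lit 0x50004011800086c0782)))))) (.nd (nat_lit 26) 
(.nd (nat_lit 30) (.nd (nat_lit 27) (.nd (nat_lit 29) 
(.lf (nat_lit 2416287760) (dlOf (nat_lit 1) (nat_lit 0x4004000200080d0882))) 
(.lf (nat_lit 805675024) (dlOf (nat_lit 3) (nat_lit 0x580aa0168302004005600700098000001000b00080008002001c0008180503)))) 
(.lf (nat_lit 2550505488) (dlOf (nat_lit 1) (nat_lit 0x4004000200080d0882)))) (.nd (nat_lit 7) 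
(.nd (nat_lit 9) (.lf (nat_lit 1343070224) (dlOf (nat_lit 1) (nat_lit 0x400400060008150002))) 
(.lf (nat_lit 1345694224) (dlOf (nat_lit 4) (nat_lit 0x101f60002602000c0fb000128100090a9000383ec0048124000240600340028dd5081)))) 
(.lf (nat_lit 3490556304) (dlOf (nat_lit 1) (nat_lit 0x20018004e81))))) (.nd (nat_lit 27) 
(.nd (nat_lit 19) 
(.lf (nat_lit 1409654800) (dlOf (nat_lit 3) (nat_lit 0x2817c005c0b4001005700340260005008800d403e002790c00a006b000201800038000000000c0004004000c0008070502))) 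
(.lf (nat_lit 1410179088) (dlOf (nat_lit 1) (nat_lit 0x20028170481)))) (.nd (nat_lit 30) 
(.lf (nat_lit 2617614352) (dlOf (nat_lit 3) (nat_lit 0x18054000ab02001a02a00054818100200))) 
(.nd (nat_lit 32) 
(.lf (nat_lit 1543872528) (dlOf (nat_lit 3) (nat_lit 0xf0018003be04000400c00a6003000e58281a0480))) 
(.lf (nat_lit 5838839824) (dlOf (nat_lit 2) (nat_lit 0x100c8015cc040004002000800081c0682)))))))) 
(.nd (nat_lit 19) (.nd (nat_lit 28) (.nd (nat_lit 22) (.nd (nat_lit 7) (.nd (nat_lit 20) 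
(.lf (nat_lit 6442819664) (dlOf (nat_lit 2) (nat_lit 0x200b80002c040040004001000081c0f82))) 
(.lf (nat_lit 9805904) (dlOf (nat_lit 2) (nat_lit 0xe8c600073ff0001e028580500)))) (.nd (nat_lit 10) 
(.lf (nat_lit 1208328400) (dlOf (nat_lit 1) (nat_lit 0x4002000200080c1b82))) 
(.lf (nat_lit 43361488) (dlOf (nat_lit 11) (nat_lit 0x5548c00021810018a4600010408050525c0007e04039a92e0003e0201234970001e810003a89805bd3f800aa92e049748c00e50000000ec2803a525c0007204020292e000380200e14970001b810029a460000440802000080240002010c00092a2d83))))) 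
(.nd (nat_lit 8) 
(.lf (nat_lit 29728848) (dlOf (nat_lit 2) (nat_lit 0x54efe8024f454011796e01399ba00dac8e0076e468009612000b1003002c7860070ba2800f9ba400acc6100d24ea00017c6800b0008004800200080008e30203))) 
(.nd (nat_lit 21) (.lf (nat_lit 21340496) (dlOf (nat_lit 1) (nat_lit 0x400400020008a34d02))) 
(.lf (nat_lit 23437648) (dlOf (nat_lit 1) (nat_lit 0x20008b80601)))))) (.nd (nat_lit 27) 
(.nd (nat_lit 21) 
(.lf (nat_lit 4026900560) (dlOf (nat_lit 2) (nat_lit 0x5800a0002e02000200280c1901))) 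
(.lf (nat_lit 1881514064) (dlOf (nat_lit 3) (nat_lit 0xf81c600b00e200de03d8000fc18002838c0006c04004800400080008f40702)))) 
(.nd (nat_lit 26) 
(.lf (nat_lit 5234860112) (dlOf (nat_lit 5) (nat_lit 0x1a01a000f00c8004006000040160005e08001801a000100c8007006000300160005d08001601a000d00c80030060000b60c0024034001a019000800c0001681800780080044002000a0008100503))) 
(.lf (nat_lit 5838839888) (dlOf (nat_lit 2) (nat_lit 0x200b800058040040004001000081c0f82)))))) 
(.nd (nat_lit 10) (.nd (nat_lit 9) (.nd (nat_lit 23) 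
(.lf (nat_lit 893008) (dlOf (nat_lit 2) (nat_lit 0x2e00000015018031000))) 
(.lf (nat_lit 42836048) (dlOf (nat_lit 1) (nat_lit 0x20029280701)))) 
(.lf (nat_lit 36547152) (dlOf (nat_lit 1) (nat_lit 0x10008000400200020009075283)))) 
(.nd (nat_lit 7) (.lf (nat_lit 8238160) (dlOf (nat_lit 1) (nat_lit 0x1400400040018519302))) 
(.lf (nat_lit 1344124368) (dlOf (nat_lit 1) (nat_lit 0x400283d9b01)))))))))))

end

end Pool.Agent.Lib.MP_5854e1_co.Cz

namespace Pool.Agent.Lib.MP_5854e1_co.Cz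

noncomputable section

noncomputable def tz02 : DT := (.nd (nat_lit 16) (.nd (nat_lit 4) (.nd (nat_lit 15) 
(.nd (nat_lit 18) (.nd (nat_lit 6) (.nd (nat_lit 28) (.nd (nat_lit 23) (.nd (nat_lit 8) 
(.nd (nat_lit 27) (.nd (nat_lit 19) 
(.lf (nat_lit 1140981760) (dlOf (nat_lit 1) (nat_lit 0x1c002001c0008040002))) 
(.lf (nat_lit 19529728) (dlOf (nat_lit 1) (nat_lit 0x180080004002000e00089b0003)))) 
(.nd (nat_lit 29) (.lf (nat_lit 6643908608) (dlOf (nat_lit 1) (nat_lit 0x6c002002c0008050002))) 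
(.lf (nat_lit 2885812224) (dlOf (nat_lit 1) (nat_lit 0xa8002000200080a0002))))) (.nd (nat_lit 7) 
(.nd (nat_lit 9) (.lf (nat_lit 54657280) (dlOf (nat_lit 1) (nat_lit 0x2000200140009650a82))) 
(.lf (nat_lit 671221504) (dlOf (nat_lit 2) (nat_lit 0x10170000ac080008008000c00200040008143b83)))) 
(.lf (nat_lit 20581760) (dlOf (nat_lit 1) (nat_lit 0x1000289d6c01))))) (.nd (nat_lit 25) 
(.nd (nat_lit 7) (.nd (nat_lit 19) 
(.lf (nat_lit 26345472) (dlOf (nat_lit 1) (nat_lit 0xa800200640008c40002))) 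
(.lf (nat_lit 27918336) (dlOf (nat_lit 1) (nat_lit 0x118008000400200260008d40003)))) 
(.lf (nat_lit 8526976) (dlOf (nat_lit 1) (nat_lit 0x2002851c181)))) (.nd (nat_lit 8) 
(.nd (nat_lit 20) (.lf (nat_lit 44171264) (dlOf (nat_lit 1) (nat_lit 0xa00292d0001))) 
(.lf (nat_lit 47316992) (dlOf (nat_lit 1) (nat_lit 0x180080004002001a00093d0003)))) 
(.lf (nat_lit 46792960) (dlOf (nat_lit 1) (nat_lit 0xc000200100009380a82)))))) (.nd (nat_lit 27) 
(.nd (nat_lit 7) (.nd (nat_lit 21) (.nd (nat_lit 19) 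
(.lf (nat_lit 335675392) (dlOf (nat_lit 1) (nat_lit 0x2e0018090001))) 
(.lf (nat_lit 1343881216) (dlOf (nat_lit 1) (nat_lit 0x400400100008370002)))) (.nd (nat_lit 9) 
(.lf (nat_lit 3491889152) (dlOf (nat_lit 1) (nat_lit 0x400400020008090002))) 
(.lf (nat_lit 4095870464) (dlOf (nat_lit 1) (nat_lit 0x400280e3681))))) (.nd (nat_lit 8) 
(.lf (nat_lit 1346502784) (dlOf (nat_lit 1) (nat_lit 0x28008001400200060008f72003))) 
(.nd (nat_lit 9) (.lf (nat_lit 3489799552) (dlOf (nat_lit 1) (nat_lit 0x2e002800c901))) 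
(.lf (nat_lit 6241258368) (dlOf (nat_lit 1) (nat_lit 0x4004000200080d5c02)))))) (.nd (nat_lit 8) 
(.nd (nat_lit 29) (.nd (nat_lit 30) 
(.lf (nat_lit 402784256) (dlOf (nat_lit 1) (nat_lit 0x2e0018090001))) 
(.lf (nat_lit 3624009728) (dlOf (nat_lit 1) (nat_lit 0xa8002000200080a0002)))) 
(.lf (nat_lit 2013396992) (dlOf (nat_lit 1) (nat_lit 0x1c002001c0008040002)))) (.nd (nat_lit 9) 
(.lf (nat_lit 473563392) (dlOf (nat_lit 4) (nat_lit 0x101ee000680200080f70003301000307b8000000803680080008002001a0008f62a03))) 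
(.lf (nat_lit 3087140608) (dlOf (nat_lit 1) (nat_lit 0x20008143b81))))))) (.nd (nat_lit 29) 
(.nd (nat_lit 19) (.nd (nat_lit 31) (.nd (nat_lit 21) (.nd (nat_lit 26) 
(.lf (nat_lit 4697751616) (dlOf (nat_lit 2) (nat_lit 0xc05e000000200200028090001))) 
(.lf (nat_lit 5435949120) (dlOf (nat_lit 3) (nat_lit 0x401f800380f8001c0740012035000a0000015ac2800280fc002007c001003a000701a8003800000ad41400ec004000a0018051682)))) 
(.nd (nat_lit 7) (.nd (nat_lit 23) 
(.lf (nat_lit 52559936) (dlOf (nat_lit 1) (nat_lit 0x60019550601))) 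
(.lf (nat_lit 10616896) (dlOf (nat_lit 3) (nat_lit 0x143280008680801a9940000000400c0004004a0008600d82)))) 
(.lf (nat_lit 11665856) (dlOf (nat_lit 2) (nat_lit 0x5c0000000002000a00086c0881))))) 
(.nd (nat_lit 28) (.nd (nat_lit 7) 
(.lf (nat_lit 3288465472) (dlOf (nat_lit 4) (nat_lit 0xb9009800094080ac804c00046040060040005401d000c00580006018008000800f400200a00008020783))) 
(.lf (nat_lit 3221359040) (dlOf (nat_lit 1) (nat_lit 0x2800200020008114e82)))) (.nd (nat_lit 20) 
(.nd (nat_lit 27) 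
(.lf (nat_lit 2416050240) (dlOf (nat_lit 5) (nat_lit 0xa60110053007002b002e0002506006202500a7012000e008c0154044014a02100940100046007c02f003800d0017005300a80438028004c0080140000000118d0042010800a0080000440802f4048001402300ae0108054808000d003e007c00a001f000000080380bc0008007c00200f60008020783))) 
(.lf (nat_lit 2550267968) (dlOf (nat_lit 5) (nat_lit 0xa60110053007402b002e0002506006202700a7013000e008c0154044014a02100940100046007c02f003a00d0017005300a80438028004c0080140000000118d0042010800a0080000440802f404c001402300ae0108054808000d003e007c00a001f000000080380bc0008007c00200f60008020783)))) 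
(.lf (nat_lit 3490840640) (dlOf (nat_lit 2) (nat_lit 0x206800011818020780)))))) (.nd (nat_lit 10) 
(.nd (nat_lit 20) (.nd (nat_lit 24) 
(.lf (nat_lit 4849728) (dlOf (nat_lit 1) (nat_lit 0x200182d0501))) 
(.lf (nat_lit 21626944) (dlOf (nat_lit 1) (nat_lit 0x680080040002001e0008a51683)))) 
(.lf (nat_lit 10092608) (dlOf (nat_lit 2) (nat_lit 0x96327010e16880008c1000200080004002000800085b0783)))) 
(.nd (nat_lit 7) (.lf (nat_lit 9045824) (dlOf (nat_lit 1) (nat_lit 0x10008000400200020008513e03))) 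
(.lf (nat_lit 32113856) (dlOf (nat_lit 2) (nat_lit 0xe257000692700004a080010004001e0018ef2d02)))))) 
(.nd (nat_lit 19) (.nd (nat_lit 26) (.nd (nat_lit 7) (.nd (nat_lit 10) 
(.lf (nat_lit 4026662976) (dlOf (nat_lit 4) (nat_lit 0xb9009800094080ac804c00046040060040005401d000c00580006018008000800f400200a00008020783))) 
(.lf (nat_lit 1610744896) (dlOf (nat_lit 1) (nat_lit 0x20018092881)))) (.nd (nat_lit 27) 
(.lf (nat_lit 3758227904) (dlOf (nat_lit 1) (nat_lit 0x4c0028107001))) 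
(.lf (nat_lit 3892445632) (dlOf (nat_lit 1) (nat_lit 0x2800200040008117a82))))) (.nd (nat_lit 27) 
(.nd (nat_lit 7) (.nd (nat_lit 9) 
(.lf (nat_lit 2752643136) (dlOf (nat_lit 2) (nat_lit 0x206800011818020780))) 
(.lf (nat_lit 1677859392) (dlOf (nat_lit 7) (nat_lit 0x180ac0006c0200160560003481002c02b000f804c000cc0800c00ac000650200180560003001003f02b0017004c000000800a8004000c001811b482)))) 
(.lf (nat_lit 3020030400) (dlOf (nat_lit 1) (nat_lit 0x20200080e7a81)))) (.nd (nat_lit 9) 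
(.nd (nat_lit 10) 
(.lf (nat_lit 5301731392) (dlOf (nat_lit 3) (nat_lit 0x401f800380f8001c0740012037000a000002b982800280fc002007c001003a000701b80038000015ca1400ec004000a0018051682))) 
(.lf (nat_lit 3959555136) (dlOf (nat_lit 1) (nat_lit 0x2800200020008112882)))) 
(.lf (nat_lit 3959560768) (dlOf (nat_lit 4) (nat_lit 0x604600130218005810000580700007708000e0460003b01002602300188114004408400000060056002811b481)))))) 
(.nd (nat_lit 21) (.nd (nat_lit 26) 
(.lf (nat_lit 805961792) (dlOf (nat_lit 2) (nat_lit 0x470158017c026000000400100008201401))) 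
(.nd (nat_lit 27) 
(.lf (nat_lit 1678377024) (dlOf (nat_lit 1) (nat_lit 0x28008000400200560008201783))) 
(.lf (nat_lit 3960078400) (dlOf (nat_lit 3) (nat_lit 0x688158000580400880ac0002902000c00281a1781))))) 
(.nd (nat_lit 28) 
(.lf (nat_lit 2754216000) (dlOf (nat_lit 2) (nat_lit 0x206800030210000ec1000080080008002001800080c1783))) 
(.lf (nat_lit 4096393280) (dlOf (nat_lit 1) (nat_lit 0x10008000c00200060008100503)))))))) 
(.nd (nat_lit 21) (.nd (nat_lit 28) (.nd (nat_lit 6) (.nd (nat_lit 31) (.nd (nat_lit 22) 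
(.nd (nat_lit 26) (.nd (nat_lit 8) 
(.lf (nat_lit 33947648) (dlOf (nat_lit 1) (nat_lit 0x360018f80001))) 
(.lf (nat_lit 25559296) (dlOf (nat_lit 1) (nat_lit 0x400200020008c10702)))) (.nd (nat_lit 7) 
(.lf (nat_lit 1678114816) (dlOf (nat_lit 2) (nat_lit 0x4000015f40200520008190001))) 
(.lf (nat_lit 4362469504) (dlOf (nat_lit 1) (nat_lit 0xdd000801a400200ec0008090083))))) 
(.nd (nat_lit 7) (.nd (nat_lit 8) 
(.lf (nat_lit 12976128) (dlOf (nat_lit 1) (nat_lit 0xe00186f0001))) 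
(.lf (nat_lit 46530816) (dlOf (nat_lit 1) (nat_lit 0x20019380a81)))) 
(.lf (nat_lit 14024832) (dlOf (nat_lit 1) (nat_lit 0x20028750281))))) (.nd (nat_lit 26) 
(.nd (nat_lit 27) (.nd (nat_lit 30) 
(.lf (nat_lit 6442844160) (dlOf (nat_lit 2) (nat_lit 0x5005c00ee602000200281d0001))) 
(.lf (nat_lit 3221618688) (dlOf (nat_lit 1) (nat_lit 0x1300080008002000c0008160003)))) 
(.lf (nat_lit 3355836416) (dlOf (nat_lit 8) (nat_lit 0x405e00d8402000a02f006c18100060168036000800280b401afc0403cc06200cbf0200100330065381011b0190030ac080118008005400200360008120003)))) 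
(.nd (nat_lit 22) 
(.lf (nat_lit 3959816192) (dlOf (nat_lit 1) (nat_lit 0x1300080008002000c0008160003))) 
(.lf (nat_lit 2756050944) (dlOf (nat_lit 1) (nat_lit 0x120008002c002003400081e0003)))))) 
(.nd (nat_lit 29) (.nd (nat_lit 7) (.nd (nat_lit 19) 
(.lf (nat_lit 47579200) (dlOf (nat_lit 1) (nat_lit 0x360029400001))) 
(.lf (nat_lit 917568) (dlOf (nat_lit 1) (nat_lit 0x48008001c00200140008030d83)))) 
(.lf (nat_lit 394944) (dlOf (nat_lit 1) (nat_lit 0x20028003a81)))) (.nd (nat_lit 7) 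
(.nd (nat_lit 26) 
(.lf (nat_lit 1611006016) (dlOf (nat_lit 5) (nat_lit 0x4702a8013808801a403c0003b060042055005801b806f0088019403c000390808de055027b02a0002813c0c1009c08d403701f801b00b180a40c4c044062a01e0001c09000a01b8000b008013000801b4002085a00080b0503))) 
(.lf (nat_lit 738590784) (dlOf (nat_lit 5) (nat_lit 0x4702a8013808801a403c00039060042055005801b806f0088019403c000370808de055027b02a0002813c0c1009c08d403701f801b00b180a40c4c044062a01e0001b09000a01b8000b008013000801b4002085a00080b0503)))) 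
(.lf (nat_lit 2818965696) (dlOf (nat_lit 1) (nat_lit 0x400400020008130402)))))) (.nd (nat_lit 26) 
(.nd (nat_lit 30) (.nd (nat_lit 27) (.nd (nat_lit 29) 
(.lf (nat_lit 4563795968) (dlOf (nat_lit 2) (nat_lit 0xc00a0000804402e64080148004006e00080e0002))) 
(.lf (nat_lit 805699584) (dlOf (nat_lit 2) (nat_lit 0x4000014810200520008190001)))) 
(.lf (nat_lit 4698013696) (dlOf (nat_lit 2) (nat_lit 0xc00a0000804402ba8080148004006e00080e0002)))) 
(.nd (nat_lit 7) (.nd (nat_lit 19) 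
(.lf (nat_lit 3494248448) (dlOf (nat_lit 1) (nat_lit 0x120008002c002003400081e0003))) 
(.lf (nat_lit 1879965696) (dlOf (nat_lit 1) (nat_lit 0x400200020008490002)))) 
(.lf (nat_lit 1476788352) (dlOf (nat_lit 1) (nat_lit 0xc002000400081a0482))))) (.nd (nat_lit 7) 
(.nd (nat_lit 6) (.nd (nat_lit 19) 
(.lf (nat_lit 5838864384) (dlOf (nat_lit 2) (nat_lit 0x5005c008c102000200281d0001))) 
(.lf (nat_lit 1007550464) (dlOf (nat_lit 1) (nat_lit 0x400200020008490002)))) 
(.lf (nat_lit 474350656) (dlOf (nat_lit 1) (nat_lit 0x8008004400200020009162883)))) 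
(.nd (nat_lit 8) 
(.lf (nat_lit 4228251776) (dlOf (nat_lit 1) (nat_lit 0xdd000801a400200ec0008090083))) 
(.lf (nat_lit 4095608192) (dlOf (nat_lit 1) (nat_lit 0x8004000200180e3582))))))) (.nd (nat_lit 24) 
(.nd (nat_lit 6) (.nd (nat_lit 11) (.nd (nat_lit 8) (.nd (nat_lit 20) 
(.lf (nat_lit 1881538560) (dlOf (nat_lit 1) (nat_lit 0x380080018002000e0008f40003))) 
(.lf (nat_lit 3538944) (dlOf (nat_lit 1) (nat_lit 0x40008200001)))) 
(.lf (nat_lit 8259328) (dlOf (nat_lit 1) (nat_lit 0x20008513b81)))) (.nd (nat_lit 7) 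
(.lf (nat_lit 3492682240) (dlOf (nat_lit 1) (nat_lit 0x180080010002000400080fb283))) 
(.nd (nat_lit 8) (.lf (nat_lit 2754481280) (dlOf (nat_lit 2) (nat_lit 0x2a040000048180f6100))) 
(.lf (nat_lit 2754480512) (dlOf (nat_lit 1) (nat_lit 0x200080f4e81)))))) (.nd (nat_lit 8) 
(.nd (nat_lit 28) (.nd (nat_lit 23) 
(.lf (nat_lit 2753953856) (dlOf (nat_lit 1) (nat_lit 0x20008003c002002200080a0d03))) 
(.lf (nat_lit 44433472) (dlOf (nat_lit 1) (nat_lit 0x40019310d81)))) (.nd (nat_lit 11) 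
(.lf (nat_lit 1881538624) (dlOf (nat_lit 1) (nat_lit 0x18004001c0008f40602))) 
(.lf (nat_lit 3492677696) (dlOf (nat_lit 1) (nat_lit 0xe00080f4701))))) (.nd (nat_lit 7) 
(.lf (nat_lit 3493201728) (dlOf (nat_lit 3) (nat_lit 0x1800e0000b80803300700005a040008004000200180f3e02))) 
(.nd (nat_lit 9) (.lf (nat_lit 8262080) (dlOf (nat_lit 1) (nat_lit 0x8008000400200020008518603))) 
(.lf (nat_lit 3492681664) (dlOf (nat_lit 1) (nat_lit 0x8004001400180fa602))))))) (.nd (nat_lit 7) 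
(.nd (nat_lit 8) (.nd (nat_lit 6) (.nd (nat_lit 10) 
(.lf (nat_lit 62259200) (dlOf (nat_lit 1) (nat_lit 0x20019990001))) 
(.lf (nat_lit 19794944) (dlOf (nat_lit 1) (nat_lit 0x180080008002000a00089d5f03)))) 
(.lf (nat_lit 19796544) (dlOf (nat_lit 1) (nat_lit 0x600289d8981)))) (.nd (nat_lit 9) 
(.nd (nat_lit 10) (.lf (nat_lit 20840768) (dlOf (nat_lit 1) (nat_lit 0x30004001e00089e5f02))) 
(.lf (nat_lit 19799360) (dlOf (nat_lit 1) (nat_lit 0x200089dc901)))) 
(.lf (nat_lit 19794752) (dlOf (nat_lit 1) (nat_lit 0x4002000200089d5c02))))) (.nd (nat_lit 8) 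
(.nd (nat_lit 9) (.nd (nat_lit 19) 
(.lf (nat_lit 58065024) (dlOf (nat_lit 1) (nat_lit 0x4004000a00097b3682))) 
(.lf (nat_lit 20840576) (dlOf (nat_lit 1) (nat_lit 0xd0008008c002003200089e2003)))) 
(.lf (nat_lit 19796608) (dlOf (nat_lit 1) (nat_lit 0x100080018002000800089d8b03)))) 
(.nd (nat_lit 9) (.nd (nat_lit 11) 
(.lf (nat_lit 19796352) (dlOf (nat_lit 1) (nat_lit 0x180080024002000a00089d8383))) 
(.lf (nat_lit 19798400) (dlOf (nat_lit 1) (nat_lit 0x80080004002000200089daf83)))) 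
(.nd (nat_lit 19) (.lf (nat_lit 20319104) (dlOf (nat_lit 1) (nat_lit 0x4002000200089d5c02))) 
(.lf (nat_lit 19794816) (dlOf (nat_lit 1) (nat_lit 0x4002000200089d5c02)))))))))) (.nd (nat_lit 6) 
(.nd (nat_lit 18) (.nd (nat_lit 31) (.nd (nat_lit 8) (.nd (nat_lit 19) (.nd (nat_lit 27) 
(.nd (nat_lit 20) (.nd (nat_lit 28) 
(.lf (nat_lit 5368872960) (dlOf (nat_lit 1) (nat_lit 0x4400400020008060002))) 
(.lf (nat_lit 268599296) (dlOf (nat_lit 1) (nat_lit 0x8004000200180a0002)))) 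
(.lf (nat_lit 47349760) (dlOf (nat_lit 1) (nat_lit 0x280080010002000a00093d0003)))) 
(.nd (nat_lit 7) (.lf (nat_lit 5503090688) (dlOf (nat_lit 1) (nat_lit 0x4400400020008060002))) 
(.lf (nat_lit 1208123520) (dlOf (nat_lit 1) (nat_lit 0x400200020008090302))))) (.nd (nat_lit 20) 
(.nd (nat_lit 7) (.nd (nat_lit 26) 
(.lf (nat_lit 1342865408) (dlOf (nat_lit 1) (nat_lit 0x1600180f0001))) 
(.lf (nat_lit 470450176) (dlOf (nat_lit 1) (nat_lit 0x1600180f0001)))) 
(.lf (nat_lit 30048384) (dlOf (nat_lit 1) (nat_lit 0x80018e30481)))) (.nd (nat_lit 10) 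
(.lf (nat_lit 16416768) (dlOf (nat_lit 1) (nat_lit 0x80080004002000200088a0003))) 
(.lf (nat_lit 58360832) (dlOf (nat_lit 1) (nat_lit 0x80080004002000200097e2883)))))) 
(.nd (nat_lit 7) (.nd (nat_lit 9) 
(.lf (nat_lit 20611328) (dlOf (nat_lit 1) (nat_lit 0xa00080004002000200089d0a83))) 
(.nd (nat_lit 12) 
(.lf (nat_lit 57314048) (dlOf (nat_lit 3) (nat_lit 0x29910000a01000e57c80032be00002208001c00400a00019795a82))) 
(.lf (nat_lit 170752) (dlOf (nat_lit 1) (nat_lit 0x2001800b981))))) (.nd (nat_lit 9) 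
(.nd (nat_lit 11) 
(.lf (nat_lit 4362240384) (dlOf (nat_lit 1) (nat_lit 0x68008004800200180008015a83))) 
(.lf (nat_lit 170368) (dlOf (nat_lit 1) (nat_lit 0x40040002000800af82)))) (.nd (nat_lit 20) 
(.lf (nat_lit 5771529088) (dlOf (nat_lit 1) (nat_lit 0x20018005c01))) 
(.lf (nat_lit 20089728) (dlOf (nat_lit 1) (nat_lit 0x4002000200089d5c02))))))) (.nd (nat_lit 27) 
(.nd (nat_lit 28) (.nd (nat_lit 8) (.nd (nat_lit 21) (.nd (nat_lit 26) 
(.lf (nat_lit 2684518400) (dlOf (nat_lit 1) (nat_lit 0x40018080001))) 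
(.lf (nat_lit 3288498176) (dlOf (nat_lit 1) (nat_lit 0x280080010002000a0008030003)))) 
(.lf (nat_lit 2753724416) (dlOf (nat_lit 1) (nat_lit 0x400400020008090002)))) 
(.lf (nat_lit 2751629056) (dlOf (nat_lit 3) (nat_lit 0x83700002c0200041b800015818003b80)))) 
(.nd (nat_lit 7) (.nd (nat_lit 19) 
(.lf (nat_lit 4026695680) (dlOf (nat_lit 1) (nat_lit 0x280080010002000a0008030003))) 
(.lf (nat_lit 4095377408) (dlOf (nat_lit 1) (nat_lit 0x4004000200180a0002)))) 
(.lf (nat_lit 3556933760) (dlOf (nat_lit 1) (nat_lit 0x200180f3681))))) (.nd (nat_lit 8) 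
(.nd (nat_lit 19) (.nd (nat_lit 29) 
(.lf (nat_lit 6643941376) (dlOf (nat_lit 1) (nat_lit 0x20018090001))) 
(.lf (nat_lit 2885844992) (dlOf (nat_lit 3) (nat_lit 0x400c0001c05e001002e0008016800300680014030000e017000400980040008002000001da914000e0300005017000100680014030000801300070010001800003b4e1c0020002000200080b0002)))) 
(.lf (nat_lit 3893002240) (dlOf (nat_lit 2) (nat_lit 0x20064004f4040028004000a00082c0002)))) 
(.nd (nat_lit 7) (.lf (nat_lit 2818736384) (dlOf (nat_lit 2) (nat_lit 0x6046000000180e2a00))) 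
(.nd (nat_lit 9) 
(.lf (nat_lit 4228022656) (dlOf (nat_lit 1) (nat_lit 0x68008004800200180008015a83))) 
(.lf (nat_lit 2617414528) (dlOf (nat_lit 1) (nat_lit 0x1400280a9001)))))))) (.nd (nat_lit 7) 
(.nd (nat_lit 19) (.nd (nat_lit 23) (.nd (nat_lit 27) (.nd (nat_lit 28) 
(.lf (nat_lit 6442876928) (dlOf (nat_lit 1) (nat_lit 0x4002000400081f0002))) 
(.lf (nat_lit 4563828736) (dlOf (nat_lit 1) (nat_lit 0x400180f0001)))) (.nd (nat_lit 26) 
(.lf (nat_lit 4698046464) (dlOf (nat_lit 1) (nat_lit 0x400180f0001))) 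
(.lf (nat_lit 5838897152) (dlOf (nat_lit 1) (nat_lit 0x4002000400081f0002))))) (.nd (nat_lit 20) 
(.lf (nat_lit 10911744) (dlOf (nat_lit 1) (nat_lit 0xa0008009800200100008640003))) 
(.nd (nat_lit 21) (.lf (nat_lit 26640384) (dlOf (nat_lit 1) (nat_lit 0x400200020008c50002))) 
(.lf (nat_lit 16154624) (dlOf (nat_lit 1) (nat_lit 0x40018870001)))))) (.nd (nat_lit 21) 
(.nd (nat_lit 23) (.nd (nat_lit 26) 
(.lf (nat_lit 537821184) (dlOf (nat_lit 4) (nat_lit 0x303c000701d800240ea0016071000a03800028198002c0c4001606100050000076944800081d800140e201da304000a07600ea10181b0000))) 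
(.lf (nat_lit 68059136) (dlOf (nat_lit 1) (nat_lit 0xa00183e0001)))) (.nd (nat_lit 20) 
(.lf (nat_lit 42893312) (dlOf (nat_lit 2) (nat_lit 0x39394019d804000400400020009290002))) 
(.lf (nat_lit 27164672) (dlOf (nat_lit 1) (nat_lit 0x20018cb0001))))) (.nd (nat_lit 9) 
(.nd (nat_lit 10) 
(.lf (nat_lit 29261824) (dlOf (nat_lit 1) (nat_lit 0x180080004002000e0008de0003))) 
(.lf (nat_lit 19827712) (dlOf (nat_lit 1) (nat_lit 0x4002000200089d5f02)))) 
(.lf (nat_lit 61769216) (dlOf (nat_lit 2) (nat_lit 0x853e8000fc080018008002800200040009923683)))))) 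
(.nd (nat_lit 27) (.nd (nat_lit 26) (.nd (nat_lit 10) (.nd (nat_lit 28) 
(.lf (nat_lit 3221651584) (dlOf (nat_lit 3) (nat_lit 0x49023001c0114003fa08012808c0038045000fe028170080))) 
(.lf (nat_lit 805732480) (dlOf (nat_lit 2) (nat_lit 0xc026001fd02000600181a0081)))) 
(.lf (nat_lit 20356224) (dlOf (nat_lit 1) (nat_lit 0x1a00189dc181)))) (.nd (nat_lit 29) 
(.lf (nat_lit 4362502272) (dlOf (nat_lit 1) (nat_lit 0x10008000800200020008090083))) 
(.lf (nat_lit 1678147712) (dlOf (nat_lit 2) (nat_lit 0xc0260021202000600181a0081))))) 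
(.nd (nat_lit 29) (.nd (nat_lit 26) 
(.lf (nat_lit 134643840) (dlOf (nat_lit 7) (nat_lit 0x17003c002ca04003808600b0041000af820004021801a0104002bc0800a00860046041002901f800574180010104002b804017808600c003f00260098004e0180f10008001800200360008090083))) 
(.lf (nat_lit 201752704) (dlOf (nat_lit 7) (nat_lit 0x170038002d204003808600b0041000aa820004021801a0104002a80800a00860046041002901f80054c180010104002a404017808600c003f00260098004e0180f10008001800200360008090083)))) 
(.nd (nat_lit 8) (.nd (nat_lit 28) 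
(.lf (nat_lit 3959849088) (dlOf (nat_lit 3) (nat_lit 0x49023001c01140042408012808c003804500108828170080))) 
(.lf (nat_lit 4228284544) (dlOf (nat_lit 1) (nat_lit 0x10008000800200020008090083)))) 
(.lf (nat_lit 3959849344) (dlOf (nat_lit 2) (nat_lit 0xa004600742018170780)))))))) 
(.nd (nat_lit 30) (.nd (nat_lit 26) (.nd (nat_lit 8) (.nd (nat_lit 19) (.nd (nat_lit 18) 
(.lf (nat_lit 268599360) (dlOf (nat_lit 3) (nat_lit 0x46016000c00a800a8050008ec0c009002c001c015001600a0011d41800b80080008002001200080a1683))) 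
(.lf (nat_lit 24543296) (dlOf (nat_lit 1) (nat_lit 0x8008000400200400008ba0c83)))) 
(.nd (nat_lit 20) 
(.lf (nat_lit 134905920) (dlOf (nat_lit 2) (nat_lit 0x400c400200220007304000400280d0b81))) 
(.nd (nat_lit 21) (.lf (nat_lit 10125376) (dlOf (nat_lit 2) (nat_lit 0x6c000000128185b0780))) 
(.lf (nat_lit 45776960) (dlOf (nat_lit 1) (nat_lit 0x60019360601)))))) (.nd (nat_lit 7) 
(.nd (nat_lit 10) (.lf (nat_lit 20089664) (dlOf (nat_lit 1) (nat_lit 0x4002000200089d5c02))) 
(.lf (nat_lit 939689792) (dlOf (nat_lit 2) (nat_lit 0x44000000000200060028143e01)))) 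
(.nd (nat_lit 9) 
(.lf (nat_lit 134644160) (dlOf (nat_lit 2) (nat_lit 0x40013002080000000008010800200460008090882))) 
(.lf (nat_lit 169920) (dlOf (nat_lit 2) (nat_lit 0x1653f002be80800180080074002003c000800a603)))))) 
(.nd (nat_lit 27) (.nd (nat_lit 8) (.nd (nat_lit 9) (.nd (nat_lit 19) 
(.lf (nat_lit 4630675520) (dlOf (nat_lit 3) (nat_lit 0x100160008002801230100040058002000a0048b0400040008051681))) 
(.lf (nat_lit 4362764352) (dlOf (nat_lit 1) (nat_lit 0x3200080f1781)))) 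
(.lf (nat_lit 2751633984) (dlOf (nat_lit 8) (nat_lit 0x1884400184200007704001c2110003b0100021088001c4080380844000e00400444220006302007a21100030810026108800000080018008002c0020016000800b483)))) 
(.nd (nat_lit 7) 
(.lf (nat_lit 2752414016) (dlOf (nat_lit 2) (nat_lit 0x3c3f4009d80200060018014c01))) 
(.lf (nat_lit 2751629248) (dlOf (nat_lit 1) (nat_lit 0x20008004401))))) (.nd (nat_lit 18) 
(.nd (nat_lit 10) (.nd (nat_lit 19) 
(.lf (nat_lit 4764893248) (dlOf (nat_lit 3) (nat_lit 0x100160008002802854100040058002000a00a140400040008051681))) 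
(.lf (nat_lit 202014784) (dlOf (nat_lit 2) (nat_lit 0x400c400200220007304000400280d0b81)))) 
(.lf (nat_lit 474121280) (dlOf (nat_lit 1) (nat_lit 0x2a00190e2881)))) (.nd (nat_lit 7) 
(.lf (nat_lit 473858112) (dlOf (nat_lit 2) (nat_lit 0x8814d003d06c80091c1002b000800dc002001c0008fc0603))) 
(.lf (nat_lit 201753024) (dlOf (nat_lit 2) (nat_lit 0x40013002080000000008010800200460008090882))))))) 
(.nd (nat_lit 31) (.nd (nat_lit 19) (.nd (nat_lit 10) (.nd (nat_lit 26) 
(.lf (nat_lit 1073905728) (dlOf (nat_lit 1) (nat_lit 0x400400020018020782))) 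
(.lf (nat_lit 1946320960) (dlOf (nat_lit 1) (nat_lit 0x400400020018020782)))) (.nd (nat_lit 7) 
(.lf (nat_lit 1610778176) (dlOf (nat_lit 2) (nat_lit 0x101040000004001000400080008093802))) 
(.lf (nat_lit 1610778048) (dlOf (nat_lit 3) (nat_lit 0x280b4001cc020006068000701f8007101001e8008005400200140008093603))))) 
(.nd (nat_lit 7) (.nd (nat_lit 10) (.nd (nat_lit 26) 
(.lf (nat_lit 5772050496) (dlOf (nat_lit 1) (nat_lit 0xd0008005c002002e0008051683))) 
(.lf (nat_lit 6376030272) (dlOf (nat_lit 1) (nat_lit 0xd0008005c002002e0008051683)))) 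
(.lf (nat_lit 5772313664) (dlOf (nat_lit 1) (nat_lit 0x140018092881)))) (.nd (nat_lit 8) 
(.lf (nat_lit 6376295104) (dlOf (nat_lit 1) (nat_lit 0x8008000400200020008095783))) 
(.lf (nat_lit 6378127808) (dlOf (nat_lit 1) (nat_lit 0x800400080008117002)))))) (.nd (nat_lit 8) 
(.nd (nat_lit 26) (.nd (nat_lit 7) 
(.lf (nat_lit 4026695744) (dlOf (nat_lit 3) (nat_lit 0x20808001040160001204005e020002700580198028000000c0164004002c0018030d82))) 
(.nd (nat_lit 9) (.lf (nat_lit 3758264512) (dlOf (nat_lit 1) (nat_lit 0x60018127f01))) 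
(.lf (nat_lit 3892484800) (dlOf (nat_lit 1) (nat_lit 0x40020002000815b982))))) (.nd (nat_lit 9) 
(.nd (nat_lit 19) 
(.lf (nat_lit 3288498240) (dlOf (nat_lit 3) (nat_lit 0x20808001040160001204005e020002700580198028000000c0164004002c0018030d82))) 
(.lf (nat_lit 4095377472) (dlOf (nat_lit 1) (nat_lit 0x80080004002000200080a1683)))) 
(.lf (nat_lit 4228022848) (dlOf (nat_lit 5) (nat_lit 0x3580c8013ac0401b4064009d202014c032004dd0100760190026e0080068008002400200180008018503))))) 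
(.nd (nat_lit 7) (.nd (nat_lit 9) 
(.lf (nat_lit 3490611520) (dlOf (nat_lit 2) (nat_lit 0x3c3d00044a0200060018014c01))) 
(.nd (nat_lit 18) 
(.lf (nat_lit 3492972352) (dlOf (nat_lit 2) (nat_lit 0x504040002d02000200280f3e01))) 
(.lf (nat_lit 3493234496) (dlOf (nat_lit 2) (nat_lit 0x17201c000168180f3e00))))) (.nd (nat_lit 26) 
(.lf (nat_lit 3221651904) (dlOf (nat_lit 2) (nat_lit 0x21901e00078000000b808031400200180008170882))) 
(.lf (nat_lit 3959849408) (dlOf (nat_lit 2) (nat_lit 0x21901e00078000000b608031400200180008170882)))))))))) 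
(.nd (nat_lit 6) (.nd (nat_lit 15) (.nd (nat_lit 18) (.nd (nat_lit 19) (.nd (nat_lit 28) 
(.nd (nat_lit 20) (.nd (nat_lit 7) (.nd (nat_lit 32) (.nd (nat_lit 9) 
(.lf (nat_lit 12714000) (dlOf (nat_lit 1) (nat_lit 0x488008052c00201ee00086d0683))) 
(.lf (nat_lit 1073873424) (dlOf (nat_lit 4) (nat_lit 0x60290024f0100090148012540800780a40092604007c00400100018018402)))) 
(.nd (nat_lit 27) (.lf (nat_lit 4295098384) (dlOf (nat_lit 1) (nat_lit 0xa0028070501))) 
(.lf (nat_lit 4429316112) (dlOf (nat_lit 1) (nat_lit 0xa0028070501))))) (.nd (nat_lit 8) 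
(.nd (nat_lit 9) (.lf (nat_lit 3221363856) (dlOf (nat_lit 1) (nat_lit 0x18002004e000811c202))) 
(.lf (nat_lit 1208093328) (dlOf (nat_lit 2) (nat_lit 0x580b40004004000800400040018095502)))) 
(.lf (nat_lit 37882256) (dlOf (nat_lit 1) (nat_lit 0x4002000200090d4e82))))) (.nd (nat_lit 8) 
(.nd (nat_lit 21) (.nd (nat_lit 22) 
(.lf (nat_lit 68288528) (dlOf (nat_lit 1) (nat_lit 0x80028500281))) 
(.lf (nat_lit 47317008) (dlOf (nat_lit 4) (nat_lit 0x155e2000b2ea40005608008d7880048ba90000d82000c5e200072ea40003408003c002000400093d0102)))) 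
(.lf (nat_lit 24248336) (dlOf (nat_lit 1) (nat_lit 0x9000800c4002001e0008b90683)))) 
(.nd (nat_lit 11) (.lf (nat_lit 20054288) (dlOf (nat_lit 1) (nat_lit 0x4002000200089d0a82))) 
(.lf (nat_lit 20060432) (dlOf (nat_lit 4) (nat_lit 0x5ac80006602000ed640001f8100027548000700800300080020002000800089daa83)))))) 
(.nd (nat_lit 26) (.nd (nat_lit 27) (.nd (nat_lit 30) 
(.lf (nat_lit 2952921104) (dlOf (nat_lit 4) (nat_lit 0x28010000280400040080001302000401b00020018000081001c000800a400200220008020283))) 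
(.lf (nat_lit 1879179280) (dlOf (nat_lit 1) (nat_lit 0x1000200020008050a02)))) 
(.lf (nat_lit 4160880656) (dlOf (nat_lit 1) (nat_lit 0x20028050381)))) (.nd (nat_lit 7) 
(.nd (nat_lit 8) (.lf (nat_lit 1006764048) (dlOf (nat_lit 1) (nat_lit 0x1000200020008050a02))) 
(.lf (nat_lit 2617382160) (dlOf (nat_lit 1) (nat_lit 0x600280a9681)))) (.nd (nat_lit 8) 
(.lf (nat_lit 4093772944) (dlOf (nat_lit 1) (nat_lit 0x400400020008002b02))) 
(.lf (nat_lit 1409419664) (dlOf (nat_lit 1) (nat_lit 0x20018004e81))))))) (.nd (nat_lit 21) 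
(.nd (nat_lit 27) (.nd (nat_lit 10) (.nd (nat_lit 20) (.nd (nat_lit 26) 
(.lf (nat_lit 1342832656) (dlOf (nat_lit 6) (nat_lit 0x1045e01e022600b80d18000541800688bc135444c07c220e04ba0d18000142000488bc134c44c080c20e04ae0d18000102000308bc133044c07f820e04a40d180000c2000188bc134444c086a20e04b00d1800008201550008084800207fc00080e0503))) 
(.lf (nat_lit 4362731536) (dlOf (nat_lit 1) (nat_lit 0x280080010002002600080e0a03)))) 
(.lf (nat_lit 10092560) (dlOf (nat_lit 2) (nat_lit 0x428c9c02045a200be504000200285b0481)))) 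
(.nd (nat_lit 7) (.lf (nat_lit 55182608) (dlOf (nat_lit 2) (nat_lit 0x30c13000190196d3000))) 
(.lf (nat_lit 3490319504) (dlOf (nat_lit 1) (nat_lit 0x2400400100008006202))))) (.nd (nat_lit 26) 
(.nd (nat_lit 29) 
(.lf (nat_lit 134873104) (dlOf (nat_lit 3) (nat_lit 0x1e04100d2281000b02080690c0800b000800dc002000800080d0883))) 
(.lf (nat_lit 3892969488) (dlOf (nat_lit 2) (nat_lit 0x50288000980800100080014002000600082c0283)))) 
(.nd (nat_lit 28) 
(.lf (nat_lit 201981968) (dlOf (nat_lit 3) (nat_lit 0x1e04100ed501000b0208076a00800b000800dc002000800080d0883))) 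
(.nd (nat_lit 29) 
(.lf (nat_lit 470417424) (dlOf (nat_lit 6) (nat_lit 0x1045e01e022600b80d98000501800688bc135444c07c220c04ba0d98000142000488bc134c44c080c20c04ae0d98000102000308bc133044c07f820c04a40d980000c2000188bc134444c086a20c04b00d9800008201550008084800207fc00080e0503))) 
(.lf (nat_lit 4228513808) (dlOf (nat_lit 1) (nat_lit 0x280080010002002600080e0a03))))))) 
(.nd (nat_lit 23) (.nd (nat_lit 8) (.nd (nat_lit 9) 
(.lf (nat_lit 3492413456) (dlOf (nat_lit 1) (nat_lit 0x38004001200080c0882))) 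
(.lf (nat_lit 57281040) (dlOf (nat_lit 1) (nat_lit 0x60029795081)))) 
(.lf (nat_lit 41551120) (dlOf (nat_lit 2) (nat_lit 0x38920000a019243000)))) (.nd (nat_lit 8) 
(.nd (nat_lit 22) 
(.lf (nat_lit 27918352) (dlOf (nat_lit 3) (nat_lit 0x55aa2005ad4f000f66400017c18006b5440000c04002000200100008d40202))) 
(.lf (nat_lit 15335440) (dlOf (nat_lit 1) (nat_lit 0x3000287e0481)))) 
(.lf (nat_lit 32113936) (dlOf (nat_lit 2) (nat_lit 0x849c00019018ef3000))))))) (.nd (nat_lit 31) 
(.nd (nat_lit 19) (.nd (nat_lit 28) (.nd (nat_lit 10) (.nd (nat_lit 20) 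
(.lf (nat_lit 5905973264) (dlOf (nat_lit 1) (nat_lit 0x400400020008170882))) 
(.lf (nat_lit 55967760) (dlOf (nat_lit 1) (nat_lit 0x400400020009700282)))) (.nd (nat_lit 7) 
(.lf (nat_lit 47580432) (dlOf (nat_lit 1) (nat_lit 0x1e0019403001))) 
(.lf (nat_lit 8787088) (dlOf (nat_lit 1) (nat_lit 0x1e0028519501))))) (.nd (nat_lit 26) 
(.nd (nat_lit 27) (.nd (nat_lit 30) 
(.lf (nat_lit 4563795984) (dlOf (nat_lit 2) (nat_lit 0x14019800064080098008001c002002200080e0103))) 
(.lf (nat_lit 5637537808) (dlOf (nat_lit 1) (nat_lit 0xc0028100001)))) 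
(.lf (nat_lit 4698013712) (dlOf (nat_lit 2) (nat_lit 0x1401980000c080098008001c002002200080e0103)))) 
(.nd (nat_lit 8) (.lf (nat_lit 6241517584) (dlOf (nat_lit 1) (nat_lit 0xc0028100001))) 
(.lf (nat_lit 1009124624) (dlOf (nat_lit 8) (nat_lit 0xb071800701d8000680800681c40003302000a0e30001071000501d8000640c00281c600020e2000803b0000c41800b838c00a40ec000260400020e200012010025071801901d8000440802bc00402f20009083002)))))) 
(.nd (nat_lit 8) (.nd (nat_lit 23) (.nd (nat_lit 10) (.nd (nat_lit 20) 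
(.lf (nat_lit 17694736) (dlOf (nat_lit 1) (nat_lit 0xa00088f0781))) 
(.lf (nat_lit 25034768) (dlOf (nat_lit 1) (nat_lit 0x8000200200008be0882)))) 
(.lf (nat_lit 70126608) (dlOf (nat_lit 2) (nat_lit 0xe00e4000ac04000800200180008ec5f82)))) 
(.nd (nat_lit 20) (.nd (nat_lit 22) 
(.lf (nat_lit 11403280) (dlOf (nat_lit 2) (nat_lit 0x6000001358186a0500))) 
(.lf (nat_lit 15597584) (dlOf (nat_lit 2) (nat_lit 0x931800b2804000800200060008810282)))) 
(.lf (nat_lit 10354704) (dlOf (nat_lit 1) (nat_lit 0x600185d0481))))) (.nd (nat_lit 7) 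
(.lf (nat_lit 69076240) (dlOf (nat_lit 1) (nat_lit 0xc004000400088a3002))) (.nd (nat_lit 11) 
(.lf (nat_lit 19796368) (dlOf (nat_lit 1) (nat_lit 0x80080010002000600089d8383))) 
(.lf (nat_lit 36571536) (dlOf (nat_lit 1) (nat_lit 0x5c00200280009074e82))))))) (.nd (nat_lit 28) 
(.nd (nat_lit 7) (.nd (nat_lit 29) (.nd (nat_lit 26) 
(.lf (nat_lit 3355836432) (dlOf (nat_lit 3) (nat_lit 0x1805a000ac02001a02d00054818120200))) 
(.nd (nat_lit 30) (.lf (nat_lit 6509953040) (dlOf (nat_lit 1) (nat_lit 0x400400020008170882))) 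
(.lf (nat_lit 3288727568) (dlOf (nat_lit 6) (nat_lit 0x6601a0069040803380d00347e04000c064019df0200b803600cee01000601b000000080050008016c002008e00080d0883))))) 
(.nd (nat_lit 20) 
(.lf (nat_lit 2756050960) (dlOf (nat_lit 1) (nat_lit 0x980080040002003200081e0103))) 
(.lf (nat_lit 2752905232) (dlOf (nat_lit 1) (nat_lit 0x4000800a4002000e0008060483))))) 
(.nd (nat_lit 19) (.nd (nat_lit 27) 
(.lf (nat_lit 2751858576) (dlOf (nat_lit 2) (nat_lit 0xc1100000e0200020018004201))) 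
(.lf (nat_lit 2886076304) (dlOf (nat_lit 1) (nat_lit 0x1000400060018144202)))) (.nd (nat_lit 8) 
(.lf (nat_lit 2754481296) (dlOf (nat_lit 1) (nat_lit 0x200080f6201))) 
(.lf (nat_lit 2752382864) (dlOf (nat_lit 1) (nat_lit 0x400200020008004202)))))) (.nd (nat_lit 27) 
(.nd (nat_lit 20) (.nd (nat_lit 22) (.nd (nat_lit 29) 
(.lf (nat_lit 2416312336) (dlOf (nat_lit 1) (nat_lit 0x180080010002000e00080d0883))) 
(.lf (nat_lit 4026925072) (dlOf (nat_lit 6) (nat_lit 0x6601a0076980803380d003b4804000c06401d440200b803600ea181000601b000000080050008016c002008e00080d0883)))) 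
(.lf (nat_lit 3494248464) (dlOf (nat_lit 1) (nat_lit 0x980080040002003200081e0103)))) 
(.lf (nat_lit 3491102736) (dlOf (nat_lit 1) (nat_lit 0x4000800a4002000e0008060483)))) 
(.nd (nat_lit 29) (.nd (nat_lit 26) 
(.lf (nat_lit 2550530064) (dlOf (nat_lit 1) (nat_lit 0x180080010002000e00080d0883))) 
(.lf (nat_lit 2617638928) (dlOf (nat_lit 6) (nat_lit 0x11202f00c80090001281002b80bc000c0520004304061602f009d014817b0048000820c00a405e0004002047c02e02c80088000ec1009c800803340020d120008110103)))) 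
(.nd (nat_lit 8) (.lf (nat_lit 4228251664) (dlOf (nat_lit 1) (nat_lit 0x40018090001))) 
(.lf (nat_lit 4228251920) (dlOf (nat_lit 1) (nat_lit 0x20018090481))))))))) (.nd (nat_lit 30) 
(.nd (nat_lit 19) (.nd (nat_lit 18) (.nd (nat_lit 22) (.nd (nat_lit 11) (.nd (nat_lit 7) 
(.nd (nat_lit 20) (.lf (nat_lit 2952953872) (dlOf (nat_lit 1) (nat_lit 0x6800400060008030002))) 
(.lf (nat_lit 2752675856) (dlOf (nat_lit 3) (nat_lit 0x3408500ed50100170428076a00801800080008002002e0008030883)))) 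
(.lf (nat_lit 168592) (dlOf (nat_lit 1) (nat_lit 0x400200020008008c82)))) (.nd (nat_lit 8) 
(.nd (nat_lit 9) (.lf (nat_lit 2751633424) (dlOf (nat_lit 1) (nat_lit 0x80040004001800a602))) 
(.lf (nat_lit 805473808) (dlOf (nat_lit 1) (nat_lit 0xc00200020008117082)))) 
(.lf (nat_lit 3154286864) (dlOf (nat_lit 1) (nat_lit 0x4000815aa81))))) (.nd (nat_lit 10) 
(.nd (nat_lit 20) (.nd (nat_lit 21) 
(.lf (nat_lit 29523984) (dlOf (nat_lit 1) (nat_lit 0x40028e10681))) 
(.lf (nat_lit 14843920) (dlOf (nat_lit 1) (nat_lit 0x800200040008780382)))) 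
(.lf (nat_lit 47349776) (dlOf (nat_lit 4) (nat_lit 0x115e200082ea4000560800357880016ba90000d82000d5e20005aea40003408001c004000600193d0102)))) 
(.nd (nat_lit 9) (.lf (nat_lit 54692880) (dlOf (nat_lit 1) (nat_lit 0xc00400340009655f82))) 
(.lf (nat_lit 474121744) (dlOf (nat_lit 1) (nat_lit 0x10e00290e3681)))))) (.nd (nat_lit 27) 
(.nd (nat_lit 10) (.nd (nat_lit 20) (.nd (nat_lit 22) 
(.lf (nat_lit 67534864) (dlOf (nat_lit 1) (nat_lit 0x800281f0281))) 
(.lf (nat_lit 21397520) (dlOf (nat_lit 1) (nat_lit 0x30008000400200260008a30003)))) 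
(.lf (nat_lit 1474576) (dlOf (nat_lit 1) (nat_lit 0x100080138002000800080d0483)))) (.nd (nat_lit 7) 
(.lf (nat_lit 60197904) (dlOf (nat_lit 2) (nat_lit 0xd32d0000ac04000c00200020009845f82))) 
(.lf (nat_lit 20354192) (dlOf (nat_lit 1) (nat_lit 0x4002000400089d9502))))) (.nd (nat_lit 7) 
(.nd (nat_lit 26) (.lf (nat_lit 134644240) (dlOf (nat_lit 2) (nat_lit 0x15203100066818090d80))) 
(.nd (nat_lit 29) 
(.lf (nat_lit 201753104) (dlOf (nat_lit 4) (nat_lit 0xb80bc0040a0401f40620014302000203100066818090d80))) 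
(.lf (nat_lit 2886107664) (dlOf (nat_lit 2) (nat_lit 0x120430025d018158400))))) (.nd (nat_lit 26) 
(.lf (nat_lit 134643856) (dlOf (nat_lit 4) (nat_lit 0x28202f0001d01012d0178000e40809d80bc0002a040084002002c0008090102))) 
(.lf (nat_lit 201752720) (dlOf (nat_lit 4) (nat_lit 0x28202f0001d01012d0178000e40809d80bc0002c040084002002c0008090102))))))) 
(.nd (nat_lit 27) (.nd (nat_lit 20) (.nd (nat_lit 8) (.nd (nat_lit 23) 
(.lf (nat_lit 2754248720) (dlOf (nat_lit 1) (nat_lit 0x8004000200080d0882))) 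
(.lf (nat_lit 11173904) (dlOf (nat_lit 3) (nat_lit 0xc3cb00091e48001041000311b000047920003b0400140028670101)))) 
(.lf (nat_lit 55215376) (dlOf (nat_lit 1) (nat_lit 0x58008002c002003a00096d3003)))) 
(.nd (nat_lit 23) (.nd (nat_lit 8) 
(.lf (nat_lit 24805392) (dlOf (nat_lit 4) (nat_lit 0x62bc8002d5d68000ac1000daf20005975a0001b040024bc800105d6800068100068008000400200080008bb0103))) 
(.lf (nat_lit 58361104) (dlOf (nat_lit 9) (nat_lit 0x3965000072040018cfa0003802000c67c000b26a00020fc80006c0c00c0cfc0002602001e67b000226980006c1000899ec0004b2400064e5000f2698000642000499ec00309ca0001504000a67b00072728000501000100080084002011000097e3003)))) 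
(.nd (nat_lit 21) 
(.lf (nat_lit 10125328) (dlOf (nat_lit 1) (nat_lit 0x3780080004002009000085b0483))) 
(.lf (nat_lit 16416784) (dlOf (nat_lit 2) (nat_lit 0x1a7d600043ea00017c1000100080024002001000088a0203)))))) 
(.nd (nat_lit 29) (.nd (nat_lit 26) 
(.lf (nat_lit 134905872) (dlOf (nat_lit 3) (nat_lit 0x4d02a002b00f40348a0800c40a800c603d001d01980690c1800680080014002002200080d0883))) 
(.nd (nat_lit 28) 
(.lf (nat_lit 202014736) (dlOf (nat_lit 3) (nat_lit 0x4d02a802b00f403b540800c40aa00c603d001d0198076a01800680080014002002200080d0883))) 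
(.lf (nat_lit 470450192) (dlOf (nat_lit 1) (nat_lit 0x200180f0101))))) (.nd (nat_lit 7) 
(.nd (nat_lit 26) (.lf (nat_lit 2819260432) (dlOf (nat_lit 1) (nat_lit 0x20028210201))) 
(.lf (nat_lit 3154804752) (dlOf (nat_lit 1) (nat_lit 0x400400020008330a02)))) 
(.lf (nat_lit 738888080) (dlOf (nat_lit 1) (nat_lit 0xa0018124e81))))))) (.nd (nat_lit 31) 
(.nd (nat_lit 10) (.nd (nat_lit 18) (.nd (nat_lit 7) (.nd (nat_lit 19) 
(.lf (nat_lit 1346535440) (dlOf (nat_lit 1) (nat_lit 0x1f80008fa0001))) 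
(.lf (nat_lit 1342865424) (dlOf (nat_lit 1) (nat_lit 0x200180f0101)))) 
(.lf (nat_lit 1409452432) (dlOf (nat_lit 1) (nat_lit 0x20018004e81)))) (.nd (nat_lit 7) 
(.nd (nat_lit 20) (.lf (nat_lit 5838897168) (dlOf (nat_lit 1) (nat_lit 0x1600081f0801))) 
(.lf (nat_lit 1343651856) (dlOf (nat_lit 1) (nat_lit 0x200182d0281)))) 
(.lf (nat_lit 5772312976) (dlOf (nat_lit 2) (nat_lit 0xb82620096130000b0028091000))))) 
(.nd (nat_lit 11) (.nd (nat_lit 7) (.nd (nat_lit 8) 
(.lf (nat_lit 1880261648) (dlOf (nat_lit 1) (nat_lit 0x4c0028802881))) 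
(.lf (nat_lit 1344701712) (dlOf (nat_lit 4) (nat_lit 0x5c0bd000105b8000e01001300000002e0400ac000000140200580008983001)))) 
(.lf (nat_lit 5637309840) (dlOf (nat_lit 1) (nat_lit 0x1000280d3601)))) (.nd (nat_lit 7) 
(.nd (nat_lit 18) 
(.lf (nat_lit 5771529232) (dlOf (nat_lit 1) (nat_lit 0x18008000400200020008005f83))) 
(.lf (nat_lit 5771791376) (dlOf (nat_lit 1) (nat_lit 0x400200020008005f82)))) 
(.lf (nat_lit 1812106384) (dlOf (nat_lit 1) (nat_lit 0x20028146201)))))) (.nd (nat_lit 18) 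
(.nd (nat_lit 28) (.nd (nat_lit 19) (.nd (nat_lit 27) 
(.lf (nat_lit 3288498192) (dlOf (nat_lit 1) (nat_lit 0x78008003000200200008030883))) 
(.lf (nat_lit 3422715920) (dlOf (nat_lit 3) (nat_lit 0xf0190000fc0800e00c80007a04002400200180008070102)))) 
(.lf (nat_lit 3893002256) (dlOf (nat_lit 2) (nat_lit 0x1400a0002602000400282c0281)))) 
(.nd (nat_lit 19) (.nd (nat_lit 20) 
(.lf (nat_lit 4026695696) (dlOf (nat_lit 1) (nat_lit 0x78008003000200200008030883))) 
(.lf (nat_lit 3490873360) (dlOf (nat_lit 3) (nat_lit 0x3408800d2281001704400690c0801800080008002002e0008030883)))) 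
(.lf (nat_lit 3492446224) (dlOf (nat_lit 1) (nat_lit 0x8004000200080d0882))))) (.nd (nat_lit 7) 
(.nd (nat_lit 22) (.nd (nat_lit 26) 
(.lf (nat_lit 4026957840) (dlOf (nat_lit 4) (nat_lit 0x8005c0004a02002202e000210100aa0170001040803180080174002000e00080e0103))) 
(.lf (nat_lit 3288760336) (dlOf (nat_lit 4) (nat_lit 0x8005c0004a02002202e000210100aa0170001040803180080174002000e00080e0103)))) 
(.lf (nat_lit 3494281232) (dlOf (nat_lit 1) (nat_lit 0x4004000200081f0702)))) (.nd (nat_lit 26) 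
(.lf (nat_lit 3221651600) (dlOf (nat_lit 1) (nat_lit 0x180008170101))) 
(.lf (nat_lit 3959849104) (dlOf (nat_lit 1) (nat_lit 0x180008170101))))))))) (.nd (nat_lit 18) 
(.nd (nat_lit 30) (.nd (nat_lit 15) (.nd (nat_lit 21) (.nd (nat_lit 7) (.nd (nat_lit 9) 
(.nd (nat_lit 23) (.nd (nat_lit 24) 
(.lf (nat_lit 4563533904) (dlOf (nat_lit 2) (nat_lit 0xc05e000000200200028090001))) 
(.lf (nat_lit 16908368) (dlOf (nat_lit 2) (nat_lit 0x1e65f500d821f806f06ac000be0c0004004004600188e0202)))) 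
(.nd (nat_lit 19) 
(.lf (nat_lit 25296976) (dlOf (nat_lit 5) (nat_lit 0x9c3780013c08001e45800070e0000460400059160002281000bc380001100801a8008003000200600008bf0d03))) 
(.lf (nat_lit 42598480) (dlOf (nat_lit 1) (nat_lit 0x20029260701))))) (.nd (nat_lit 10) 
(.lf (nat_lit 68815440) (dlOf (nat_lit 1) (nat_lit 0x8008000400200020008785283))) 
(.lf (nat_lit 2617382480) (dlOf (nat_lit 1) (nat_lit 0xb0004005400080a9c02))))) (.nd (nat_lit 8) 
(.nd (nat_lit 9) 
(.lf (nat_lit 805444816) (dlOf (nat_lit 2) (nat_lit 0x802b00027408086800800100020090000811c283))) 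
(.lf (nat_lit 2617377488) (dlOf (nat_lit 2) (nat_lit 0x80158000ec0800800080090002008e00080a2003)))) 
(.nd (nat_lit 9) 
(.lf (nat_lit 3020030416) (dlOf (nat_lit 3) (nat_lit 0x400e000100000042c10000803800206040144004000600080e7b02))) 
(.lf (nat_lit 3087140816) (dlOf (nat_lit 2) (nat_lit 0x20016000130200020028144501)))))) 
(.nd (nat_lit 8) (.nd (nat_lit 19) 
(.lf (nat_lit 52559952) (dlOf (nat_lit 9) (nat_lit 0x2d7f40008b2a00055348001141800a304c0006c04018d82600035020018c1200116088009afec003d7f4001cb290013594001029ec00654d2000698c0000b89000560900042fec001965200016060122b290036534800044100022ca4000040400718240044bfb001d594800000180040008004c00200100009550703))) 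
(.nd (nat_lit 20) 
(.lf (nat_lit 2754216016) (dlOf (nat_lit 4) (nat_lit 0x6a034001f819401c80c6003804d0067021000c8084000681801000d00090063003d0210000c81800881a000980a6004e0480023021000f807800062140090004004a00180c1902))) 
(.lf (nat_lit 45744208) (dlOf (nat_lit 1) (nat_lit 0x400400060019360702))))) (.nd (nat_lit 7) 
(.nd (nat_lit 9) (.lf (nat_lit 39978320) (dlOf (nat_lit 1) (nat_lit 0x8008000c002000400091f3303))) 
(.lf (nat_lit 20054864) (dlOf (nat_lit 2) (nat_lit 0x3a6d3800064040004004000800189d2482)))) 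
(.lf (nat_lit 8000976) (dlOf (nat_lit 2) (nat_lit 0xc4c600010018519b00)))))) (.nd (nat_lit 26) 
(.nd (nat_lit 8) (.nd (nat_lit 19) (.nd (nat_lit 20) 
(.lf (nat_lit 52592720) (dlOf (nat_lit 22) (nat_lit 0x64b04c038d82201e8b2a003c594006629ec03854d2000450c006cc1100e75950074a9a4000880c039982201c8b2a00f753480010c1800c304c0007e040391826012ab2a0001b0200f36098000d40806bb04c002d65400034040136c13002360880402ca8018d4f600eca6900016850074609802c2ca801394f6009aa69000160400035950000ac08016304c000420401918260140b2a0000e8200146098000680807b3048055982202b4b29013d59400ab29ec054d4d2000170c01aac12013d5948000581000cb04400456520018a7b0009534800048201032ca404294d2000110400bec1200b95948000401002a3048031d652000020400b4b2900000810125609009caca40000008001800400020009550702))) 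
(.lf (nat_lit 62029904) (dlOf (nat_lit 1) (nat_lit 0x14002000c0009931702)))) 
(.lf (nat_lit 45776976) (dlOf (nat_lit 1) (nat_lit 0x160019360701)))) (.nd (nat_lit 7) 
(.lf (nat_lit 167248) (dlOf (nat_lit 1) (nat_lit 0xe20018006a01))) (.nd (nat_lit 9) 
(.lf (nat_lit 9082320) (dlOf (nat_lit 1) (nat_lit 0x20028519b01))) 
(.lf (nat_lit 671254480) (dlOf (nat_lit 1) (nat_lit 0x5400400020008144502)))))) (.nd (nat_lit 29) 
(.nd (nat_lit 8) (.nd (nat_lit 7) 
(.lf (nat_lit 4362764368) (dlOf (nat_lit 2) (nat_lit 0xe00cc0002004007c004000200080f1902))) 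
(.lf (nat_lit 2214757072) (dlOf (nat_lit 1) (nat_lit 0x10004000200080a2002)))) (.nd (nat_lit 27) 
(.lf (nat_lit 4362240336) (dlOf (nat_lit 3) (nat_lit 0x5401000010070000b81000280400003204002c002000e0008014d82))) 
(.lf (nat_lit 469926224) (dlOf (nat_lit 1) (nat_lit 0x20008014d81))))) (.nd (nat_lit 21) 
(.nd (nat_lit 20) (.lf (nat_lit 604143696) (dlOf (nat_lit 2) (nat_lit 0x1403b00011018030700))) 
(.lf (nat_lit 2752675920) (dlOf (nat_lit 2) (nat_lit 0x2e04a000100080010008000400200020008031003)))) 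
(.nd (nat_lit 19) (.lf (nat_lit 1008894032) (dlOf (nat_lit 1) (nat_lit 0x400400020008fc0702))) 
(.lf (nat_lit 2754248784) (dlOf (nat_lit 1) (nat_lit 0x38008000c002000c00080d0d03)))))))) 
(.nd (nat_lit 27) (.nd (nat_lit 15) (.nd (nat_lit 10) (.nd (nat_lit 19) (.nd (nat_lit 26) 
(.lf (nat_lit 5368840272) (dlOf (nat_lit 1) (nat_lit 0x2c00400060008040502))) 
(.lf (nat_lit 1140981840) (dlOf (nat_lit 2) (nat_lit 0x1e00300078000000f008002400400040008040502)))) 
(.nd (nat_lit 26) 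
(.lf (nat_lit 3221880912) (dlOf (nat_lit 5) (nat_lit 0x10050000240400180280001102000e02f000028100160178000100801500080110002002400081a1603))) 
(.lf (nat_lit 1678377040) (dlOf (nat_lit 3) (nat_lit 0x13502b005d004c000200805b40ac0000d0200020028201901))))) 
(.nd (nat_lit 7) (.nd (nat_lit 8) 
(.lf (nat_lit 5637276752) (dlOf (nat_lit 1) (nat_lit 0x4400180d2881))) 
(.lf (nat_lit 1409420624) (dlOf (nat_lit 2) (nat_lit 0x9800c002e00300008028006a00)))) 
(.lf (nat_lit 3221363920) (dlOf (nat_lit 3) (nat_lit 0x360460004e81000b0230002700805b000802040020036000811c283))))) 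
(.nd (nat_lit 8) (.nd (nat_lit 7) (.nd (nat_lit 19) 
(.lf (nat_lit 3490873424) (dlOf (nat_lit 2) (nat_lit 0x2e04a00011c080010008000400200020008031003))) 
(.lf (nat_lit 3492446288) (dlOf (nat_lit 1) (nat_lit 0x38008000c002000c00080d0d03)))) 
(.lf (nat_lit 4093807312) (dlOf (nat_lit 1) (nat_lit 0x20018005881)))) (.nd (nat_lit 10) 
(.nd (nat_lit 7) (.lf (nat_lit 1342341456) (dlOf (nat_lit 1) (nat_lit 0xc0028014d01))) 
(.lf (nat_lit 1342341584) (dlOf (nat_lit 1) (nat_lit 0x500080040002001a0008017103)))) 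
(.nd (nat_lit 9) 
(.lf (nat_lit 1409453392) (dlOf (nat_lit 2) (nat_lit 0x8000c004a00300008028006a00))) 
(.lf (nat_lit 3758266192) (dlOf (nat_lit 2) (nat_lit 0x801c00020020016002812a201))))))) 
(.nd (nat_lit 26) (.nd (nat_lit 28) (.nd (nat_lit 7) (.nd (nat_lit 8) 
(.lf (nat_lit 5503058000) (dlOf (nat_lit 1) (nat_lit 0x2c00400060008040502))) 
(.lf (nat_lit 3355575120) (dlOf (nat_lit 2) (nat_lit 0x80170000ec0800800080090002008e00080a2483)))) 
(.lf (nat_lit 3892445648) (dlOf (nat_lit 2) (nat_lit 0xa068000203300010000002020c012800400020018117b02)))) 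
(.nd (nat_lit 15) (.nd (nat_lit 19) 
(.lf (nat_lit 2013397072) (dlOf (nat_lit 2) (nat_lit 0x1e00300078000000f008002400400040008040502))) 
(.lf (nat_lit 5772017744) (dlOf (nat_lit 2) (nat_lit 0x520140001900800f0008007800200720008040503)))) 
(.lf (nat_lit 1476558928) (dlOf (nat_lit 4) (nat_lit 0x10034000130100040000000600800280000000804014400200ac0008050702))))) 
(.nd (nat_lit 7) (.nd (nat_lit 8) (.nd (nat_lit 28) 
(.lf (nat_lit 3960078416) (dlOf (nat_lit 6) (nat_lit 0x120140021c07e0114033008b01400458074003001201160070052002800280000005c2400040000002c02007a0160001481008b020004580e0022c02c0002706009001f004a00f0000001001b00080110002004600081a1903))) 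
(.lf (nat_lit 6375997520) (dlOf (nat_lit 2) (nat_lit 0x520140001840800f0008007800200720008040503)))) 
(.lf (nat_lit 4228022608) (dlOf (nat_lit 5) (nat_lit 0x56032000220100240190001080801680c80007e0400b0064000240200160028014d01)))) 
(.nd (nat_lit 8) (.nd (nat_lit 9) 
(.lf (nat_lit 6107037904) (dlOf (nat_lit 1) (nat_lit 0x400400020008031882))) 
(.lf (nat_lit 6377605840) (dlOf (nat_lit 1) (nat_lit 0x3a00280e5881)))) 
(.lf (nat_lit 4228022736) (dlOf (nat_lit 2) (nat_lit 0x1b80000000004008400200580008017102)))))))) 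
(.nd (nat_lit 15) (.nd (nat_lit 19) (.nd (nat_lit 30) (.nd (nat_lit 20) (.nd (nat_lit 22) 
(.nd (nat_lit 7) (.nd (nat_lit 27) 
(.lf (nat_lit 6509953104) (dlOf (nat_lit 1) (nat_lit 0xa0008002000200060008171003))) 
(.lf (nat_lit 738590800) (dlOf (nat_lit 3) (nat_lit 0x6814c01c8042000e01d000070300050298032808400018080070004002800080b0682)))) 
(.lf (nat_lit 4362469840) (dlOf (nat_lit 3) (nat_lit 0x30168000800800100b40003a040004002000a0008090a02)))) 
(.nd (nat_lit 21) 
(.lf (nat_lit 29753424) (dlOf (nat_lit 2) (nat_lit 0x1bb51201319ba00dcc8e0077e46800ff1e2011587f004abbb0061d6c802beb5a005b5ac00d1ad58013ca9c0132006007cf69002e78600017c7802b00080008002001a0008e30203))) 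
(.lf (nat_lit 48627792) (dlOf (nat_lit 1) (nat_lit 0x3000400040009420702))))) (.nd (nat_lit 21) 
(.nd (nat_lit 7) (.nd (nat_lit 24) 
(.lf (nat_lit 9830480) (dlOf (nat_lit 2) (nat_lit 0x2184e0001e018580500))) 
(.lf (nat_lit 26607696) (dlOf (nat_lit 1) (nat_lit 0x20008c50701)))) 
(.lf (nat_lit 43386064) (dlOf (nat_lit 2) (nat_lit 0x881cf8000760400c0004003600192a2d82)))) 
(.nd (nat_lit 8) (.lf (nat_lit 37093456) (dlOf (nat_lit 1) (nat_lit 0x400400020009090702))) 
(.lf (nat_lit 58065232) (dlOf (nat_lit 1) (nat_lit 0x30008001c002000600097b8a83)))))) 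
(.nd (nat_lit 28) (.nd (nat_lit 29) (.nd (nat_lit 26) 
(.lf (nat_lit 1074135120) (dlOf (nat_lit 3) (nat_lit 0x7e0270001a01001c0138000c4080008008002c002000400080c1903))) 
(.lf (nat_lit 3288727632) (dlOf (nat_lit 6) (nat_lit 0x5d01d00040028000a208003c074000400a000280200f200f80013c0807a00800008c0400780400004502000400280d0d01)))) 
(.nd (nat_lit 32) 
(.lf (nat_lit 1611006032) (dlOf (nat_lit 3) (nat_lit 0x6814c01c8042000e01d000070300050298032808400018080070004002800080b0682))) 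
(.lf (nat_lit 5905973328) (dlOf (nat_lit 1) (nat_lit 0xa0008002000200060008171003))))) 
(.nd (nat_lit 7) (.nd (nat_lit 20) (.nd (nat_lit 21) 
(.lf (nat_lit 4026925136) (dlOf (nat_lit 6) (nat_lit 0x5d01d000400280009408003c074000400a000248200f200f8001200807a00800007e0400780400003e02000400280d0d01))) 
(.lf (nat_lit 1881538640) (dlOf (nat_lit 8) (nat_lit 0x8f41c603c00e202e303d807901e80007e1002b41c4028407b0001f0200ad0710000f408086838c04cc0f6000360400040e30000781010e071808981ec0000e0800541c6003e07b00000028f40700)))) 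
(.lf (nat_lit 1880490064) (dlOf (nat_lit 1) (nat_lit 0x4002000200089a0702)))) (.nd (nat_lit 8) 
(.lf (nat_lit 5772805328) (dlOf (nat_lit 1) (nat_lit 0x400200040008092d82))) 
(.lf (nat_lit 4228252112) (dlOf (nat_lit 3) (nat_lit 0x30160000800800100b00003a040004002000a0008090a02))))))) 
(.nd (nat_lit 7) (.nd (nat_lit 8) (.nd (nat_lit 20) (.nd (nat_lit 22) 
(.lf (nat_lit 917584) (dlOf (nat_lit 2) (nat_lit 0x370000000a80800080080008002002a0008031003))) 
(.lf (nat_lit 13500496) (dlOf (nat_lit 4) (nat_lit 0x80000004a020010000000248100140000001200800700080064002001e0008730d03)))) 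
(.lf (nat_lit 4063312) (dlOf (nat_lit 1) (nat_lit 0x20028270d01)))) (.nd (nat_lit 11) 
(.lf (nat_lit 19792720) (dlOf (nat_lit 2) (nat_lit 0x31ed3800064040004004000200089d2482))) 
(.lf (nat_lit 19794768) (dlOf (nat_lit 1) (nat_lit 0x4004000200089d5c02))))) (.nd (nat_lit 10) 
(.nd (nat_lit 8) (.nd (nat_lit 9) 
(.lf (nat_lit 6377308368) (dlOf (nat_lit 1) (nat_lit 0x4002000200080c1b82))) 
(.lf (nat_lit 8258256) (dlOf (nat_lit 2) (nat_lit 0x15f880006404020800400040018512002)))) 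
(.lf (nat_lit 1345194448) (dlOf (nat_lit 3) (nat_lit 0xc616500b410100480b28057ec080030008001000200140008b04e83)))) 
(.nd (nat_lit 8) (.nd (nat_lit 11) 
(.lf (nat_lit 61736144) (dlOf (nat_lit 2) (nat_lit 0x18a5a0001d819922d80))) 
(.lf (nat_lit 19799248) (dlOf (nat_lit 1) (nat_lit 0x180080008002000400089dc283)))) 
(.lf (nat_lit 2752382928) (dlOf (nat_lit 1) (nat_lit 0x40028004501))))))) (.nd (nat_lit 7) 
(.nd (nat_lit 8) (.nd (nat_lit 20) (.nd (nat_lit 24) (.nd (nat_lit 9) 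
(.lf (nat_lit 48660560) (dlOf (nat_lit 1) (nat_lit 0x8008000400200020009420703))) 
(.lf (nat_lit 42371664) (dlOf (nat_lit 1) (nat_lit 0x400200020009245282)))) (.nd (nat_lit 19) 
(.lf (nat_lit 29786192) (dlOf (nat_lit 2) (nat_lit 0x6b3a2803513a80005f0400100018e30201))) 
(.lf (nat_lit 21921872) (dlOf (nat_lit 1) (nat_lit 0x400400020008a81002))))) (.nd (nat_lit 23) 
(.nd (nat_lit 9) 
(.lf (nat_lit 473858128) (dlOf (nat_lit 5) (nat_lit 0x45829801c614b014d06b800058180570530001829602040d70000a83001d0a6000f835c000240803b0298009a14b016b06b8000001801a80080038002001e0008fc0703))) 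
(.lf (nat_lit 51808848) (dlOf (nat_lit 1) (nat_lit 0x4004002c0009515282)))) (.nd (nat_lit 24) 
(.lf (nat_lit 9863248) (dlOf (nat_lit 1) (nat_lit 0x20028580501))) 
(.lf (nat_lit 26640464) (dlOf (nat_lit 5) (nat_lit 0x6b38540004c040085c2a0002502000ce150001201000270a8000600800180080030002000a0008c50703)))))) 
(.nd (nat_lit 19) (.nd (nat_lit 26) (.nd (nat_lit 10) 
(.lf (nat_lit 805732688) (dlOf (nat_lit 1) (nat_lit 0x400081a0601))) 
(.lf (nat_lit 3490090320) (dlOf (nat_lit 2) (nat_lit 0x60ab00008018006a00)))) (.nd (nat_lit 27) 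
(.nd (nat_lit 29) (.lf (nat_lit 4362502480) (dlOf (nat_lit 1) (nat_lit 0x20028090601))) 
(.lf (nat_lit 1678147920) (dlOf (nat_lit 1) (nat_lit 0x400081a0601)))) 
(.lf (nat_lit 4228284752) (dlOf (nat_lit 1) (nat_lit 0x20028090601))))) (.nd (nat_lit 20) 
(.nd (nat_lit 21) 
(.lf (nat_lit 3490611536) (dlOf (nat_lit 5) (nat_lit 0x470f40001900801287a0000c60402d03d0000610200fe1e800020018014d00))) 
(.lf (nat_lit 3047760) (dlOf (nat_lit 2) (nat_lit 0x692800006404001c00400040018200602)))) 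
(.nd (nat_lit 26) (.lf (nat_lit 3493757264) (dlOf (nat_lit 2) (nat_lit 0x3a050000238181b0600))) 
(.lf (nat_lit 2755559760) (dlOf (nat_lit 2) (nat_lit 0x3a050000200181b0600))))))) (.nd (nat_lit 26) 
(.nd (nat_lit 8) (.nd (nat_lit 9) 
(.lf (nat_lit 21397712) (dlOf (nat_lit 2) (nat_lit 0x40a78003980800a800800c800200420008a31b83))) 
(.lf (nat_lit 8291024) (dlOf (nat_lit 1) (nat_lit 0x400200020008512002)))) (.nd (nat_lit 9) 
(.nd (nat_lit 27) (.nd (nat_lit 28) 
(.lf (nat_lit 3221651920) (dlOf (nat_lit 10) (nat_lit 0x8300500009808204802800032040f540140001802084600a0000b810254005000058080108028000260401ac0140001002010c00a0000781028b02a81da81440ef009c079204d032102501970124062c08a0744035031701a0193809c0e5004c062802303a201101bd007c0bb403c0022012012400801cc0018000c0000000026024c0018170a01))) 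
(.lf (nat_lit 805732816) (dlOf (nat_lit 20) (nat_lit 0x3780280004e0400940ac00a40550001302038902a81c101380e0406e07ca012040c00501ca001800040180e580aa071604e038f01b81f98048104c01407220060000f8602cf02a81038138037c06e062c0120000f04038202a81be81380df406e07c20120002008020700280e4800c0001d0e056c05502cc027017480dc0a08024003200a0000e05038202a81c201380e1406e07ce012040900501c2801800036180038024002a00a0000d0201c302b0000600812a01580002e04020002600014020016056000098101c902b0061804c000200805180ac0000f0202e205501bd0090000381000b00480001a0406140ac01880130000602007502b0005015400040a80100013006600900000028099000801d000201d600081a0a03)))) 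
(.lf (nat_lit 134644176) (dlOf (nat_lit 2) (nat_lit 0xc03100000018090a00)))) 
(.lf (nat_lit 20354000) (dlOf (nat_lit 1) (nat_lit 0x1000189d9201))))) (.nd (nat_lit 27) 
(.nd (nat_lit 29) 
(.lf (nat_lit 4362502608) (dlOf (nat_lit 5) (nat_lit 0x29c05a001e0240001002009601680007c0801d80e002a005a0001d04005c038009101680006c1000c0008001400200040008090a03))) 
(.lf (nat_lit 1678148048) (dlOf (nat_lit 20) (nat_lit 0x3780280004e0400940ac00a40550001302038902a81c101380e0406e07ca012040c00501ca001800040180e580aa071604e038f01b81f98048104c01407220060000f8602cf02a81038138037c06e062c0120000f04038202a81be81380df406e07c20120002008020700280e4800c0001d0e056c05502cc027017480dc0a08024003200a0000e05038202a81c201380e1406e07ce012040900501c2801800036180038024002a00a0000d0201c302b0000600812a01580002e04020002600014020016056000098101c902b0061804c000200805180ac0000f0202e205501bd0090000381000b00480001a0406140ac01880130000602007502b0005015400040a80100013006600900000028099000801d000201d600081a0a03))))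 
(.nd (nat_lit 28) (.nd (nat_lit 29) 
(.lf (nat_lit 201753040) (dlOf (nat_lit 2) (nat_lit 0xc03100000018090a00))) 
(.lf (nat_lit 3959849424) (dlOf (nat_lit 10) (nat_lit 0x8300500009808204802800032040f540140001802084600a0000b810254005000058080108028000260401ac0140001002010c00a0000781028b02a81da81440ef009c079204d032102501970124062c08a0744035031701a0193809c0e5004c062802303a201101bd007c0bb403c0022012012400801cc0018000c0000000026024c0018170a01)))) 
(.lf (nat_lit 4228284880) (dlOf (nat_lit 5) (nat_lit 0x29c058001e0240001002009601600007c0801d80dc02a00580001d04005c037009101600006c1000c0008001400200040008090a03))))))))))) 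
(.nd (nat_lit 15) (.nd (nat_lit 4) (.nd (nat_lit 19) (.nd (nat_lit 30) (.nd (nat_lit 8) 
(.nd (nat_lit 6) (.nd (nat_lit 18) (.nd (nat_lit 21) 
(.lf (nat_lit 25362432) (dlOf (nat_lit 1) (nat_lit 0x400200020008c00002))) 
(.lf (nat_lit 2293760) (dlOf (nat_lit 4) (nat_lit 0x1dd2200690008005e0ec0344204002707601a060200040028150001)))) 
(.nd (nat_lit 22) (.nd (nat_lit 21) 
(.lf (nat_lit 6510018560) (dlOf (nat_lit 1) (nat_lit 0x190008029c00200060008180003))) 
(.lf (nat_lit 2555904) (dlOf (nat_lit 3) (nat_lit 0x15238033bc08001a91c0000004001c00400060008170002)))) 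
(.nd (nat_lit 9) (.lf (nat_lit 48693248) (dlOf (nat_lit 1) (nat_lit 0x8008000800200040009420003))) 
(.lf (nat_lit 58130944) (dlOf (nat_lit 3) (nat_lit 0x708400068020003842000330197c7b00)))))) 
(.nd (nat_lit 18) (.nd (nat_lit 28) 
(.lf (nat_lit 2281898048) (dlOf (nat_lit 1) (nat_lit 0x1a00180a0001))) 
(.lf (nat_lit 5234688064) (dlOf (nat_lit 3) (nat_lit 0x700b8003804000ad404001802e000c010002b4c1000c80080064002000e0008091683)))) 
(.nd (nat_lit 20) (.nd (nat_lit 27) 
(.lf (nat_lit 805765184) (dlOf (nat_lit 1) (nat_lit 0x1000281a0001))) 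
(.lf (nat_lit 134676544) (dlOf (nat_lit 1) (nat_lit 0x7a0018090001)))) 
(.lf (nat_lit 471269440) (dlOf (nat_lit 1) (nat_lit 0x200282e0001)))))) (.nd (nat_lit 6) 
(.nd (nat_lit 18) (.nd (nat_lit 7) (.nd (nat_lit 22) 
(.lf (nat_lit 4563599616) (dlOf (nat_lit 2) (nat_lit 0x580d0002ca04000c00200020008090a82))) 
(.lf (nat_lit 46334208) (dlOf (nat_lit 1) (nat_lit 0x20029380a81)))) 
(.lf (nat_lit 20122496) (dlOf (nat_lit 1) (nat_lit 0x4002000200089d5c02)))) (.nd (nat_lit 21) 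
(.nd (nat_lit 23) (.lf (nat_lit 471269632) (dlOf (nat_lit 1) (nat_lit 0x18000182e0701))) 
(.lf (nat_lit 60227840) (dlOf (nat_lit 1) (nat_lit 0x20009840a81)))) 
(.lf (nat_lit 20381952) (dlOf (nat_lit 1) (nat_lit 0x4002000200089d0a82))))) (.nd (nat_lit 20) 
(.nd (nat_lit 10) 
(.lf (nat_lit 4362273088) (dlOf (nat_lit 2) (nat_lit 0x811c0138404000c004000a0008014c02))) 
(.lf (nat_lit 2818774336) (dlOf (nat_lit 1) (nat_lit 0x60028129901)))) (.nd (nat_lit 9) 
(.lf (nat_lit 9634112) (dlOf (nat_lit 1) (nat_lit 0x8008000400200020008574c03))) 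
(.lf (nat_lit 20122432) (dlOf (nat_lit 1) (nat_lit 0x4002000200089d5c02))))))) (.nd (nat_lit 27) 
(.nd (nat_lit 7) (.nd (nat_lit 22) (.nd (nat_lit 6) (.nd (nat_lit 18) 
(.lf (nat_lit 5704450048) (dlOf (nat_lit 6) (nat_lit 0x9100c0032fc0804380600197a0401e403000cbc0200f20180065d81007900c0032a80800b800800f8002004e0008080003))) 
(.lf (nat_lit 5906038784) (dlOf (nat_lit 1) (nat_lit 0x190008029c00200060008180003)))) 
(.lf (nat_lit 1881342016) (dlOf (nat_lit 2) (nat_lit 0x2406500030818ea0500)))) (.nd (nat_lit 31) 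
(.lf (nat_lit 1346568192) (dlOf (nat_lit 1) (nat_lit 0x500028fd0001))) 
(.lf (nat_lit 3494051840) (dlOf (nat_lit 2) (nat_lit 0x8842c01a4002000200081b0001))))) 
(.nd (nat_lit 6) (.nd (nat_lit 8) (.nd (nat_lit 26) 
(.lf (nat_lit 5905778816) (dlOf (nat_lit 1) (nat_lit 0x400200020008144782))) 
(.lf (nat_lit 1677920384) (dlOf (nat_lit 1) (nat_lit 0x8008026c002008e0008114783)))) 
(.lf (nat_lit 3556970368) (dlOf (nat_lit 1) (nat_lit 0x400400020008127782)))) (.nd (nat_lit 11) 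
(.lf (nat_lit 3221684672) (dlOf (nat_lit 2) (nat_lit 0x1f603c001900d006c0000000b80c001000200320008170882))) 
(.lf (nat_lit 3556972992) (dlOf (nat_lit 1) (nat_lit 0xa80040020000812af82)))))) (.nd (nat_lit 31) 
(.nd (nat_lit 10) (.nd (nat_lit 7) (.nd (nat_lit 29) 
(.lf (nat_lit 1476591616) (dlOf (nat_lit 1) (nat_lit 0x3c00200160008090002))) 
(.lf (nat_lit 6308429824) (dlOf (nat_lit 6) (nat_lit 0x9100c001c5408043806000e280401e4030007130200f20180038901007900c001c040800b800800f8002004e0008080003)))) 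
(.lf (nat_lit 1745029760) (dlOf (nat_lit 1) (nat_lit 0x400200020008095482)))) (.nd (nat_lit 7) 
(.nd (nat_lit 8) 
(.lf (nat_lit 2013464064) (dlOf (nat_lit 4) (nat_lit 0x3cc04c0006a0201b4026000348100c50130001a008025800800dc00200280008093683))) 
(.lf (nat_lit 2013463808) (dlOf (nat_lit 2) (nat_lit 0xc006000e00000002c100008008001c00200200008092f03)))) 
(.lf (nat_lit 2013463936) (dlOf (nat_lit 1) (nat_lit 0x15800800b000200320008093583))))) 
(.nd (nat_lit 6) (.nd (nat_lit 7) 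
(.lf (nat_lit 3691184128) (dlOf (nat_lit 1) (nat_lit 0x500080128002006e0008090003))) 
(.lf (nat_lit 4160951936) (dlOf (nat_lit 1) (nat_lit 0xa00280a9d81)))) (.nd (nat_lit 7) 
(.nd (nat_lit 8) 
(.lf (nat_lit 4228055616) (dlOf (nat_lit 2) (nat_lit 0x201000137004000400400220008018502))) 
(.lf (nat_lit 4228055360) (dlOf (nat_lit 2) (nat_lit 0x81000085a04000c004000a0008014c02)))) 
(.lf (nat_lit 3959882176) (dlOf (nat_lit 2) (nat_lit 0x1f603c001900d006c0000000b60c001000200320008170882)))))))) 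
(.nd (nat_lit 21) (.nd (nat_lit 28) (.nd (nat_lit 20) (.nd (nat_lit 26) (.nd (nat_lit 29) 
(.nd (nat_lit 22) 
(.lf (nat_lit 134938624) (dlOf (nat_lit 2) (nat_lit 0x330098023680805180080064002009400080e0003))) 
(.lf (nat_lit 21692416) (dlOf (nat_lit 2) (nat_lit 0x6f6a8010c80400b800200560008a60002)))) 
(.nd (nat_lit 6) (.lf (nat_lit 537591808) (dlOf (nat_lit 2) (nat_lit 0x134031000000180c0000))) 
(.lf (nat_lit 537591872) (dlOf (nat_lit 9) (nat_lit 0x45c07e0003b0201ce03f0001d0100f801f8000e40800a80fc000700400f407e000330200c403f000190100e601f8000c00801b00fc0005e040004004005800180c1782))))) 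
(.nd (nat_lit 27) (.lf (nat_lit 4362797056) (dlOf (nat_lit 1) (nat_lit 0x20018100001))) 
(.lf (nat_lit 202047488) (dlOf (nat_lit 2) (nat_lit 0x330098035f80805180080064002009400080e0003))))) 
(.nd (nat_lit 6) (.nd (nat_lit 7) 
(.lf (nat_lit 26935296) (dlOf (nat_lit 1) (nat_lit 0x80008c90001))) 
(.lf (nat_lit 2753233024) (dlOf (nat_lit 7) (nat_lit 0xe01f9001090100240fd0007f00805487e802182a8010c14f001b09e004484dc003f414014c3f80015502007a1fc000aa01001c0fe00054c080220008019400200300008090083)))) 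
(.nd (nat_lit 7) (.lf (nat_lit 14614592) (dlOf (nat_lit 1) (nat_lit 0x1180008770501))) 
(.lf (nat_lit 2753233344) (dlOf (nat_lit 3) (nat_lit 0x1cc3ee0005b0201921f700720f080590560000000c0048004023c0018090882)))))) 
(.nd (nat_lit 26) (.nd (nat_lit 6) (.nd (nat_lit 7) (.nd (nat_lit 20) 
(.lf (nat_lit 1342898176) (dlOf (nat_lit 1) (nat_lit 0x400200020008100002))) 
(.lf (nat_lit 5773131776) (dlOf (nat_lit 2) (nat_lit 0x8097804528080008008000c002000200080a0003)))) 
(.lf (nat_lit 3491430528) (dlOf (nat_lit 7) (nat_lit 0xe01e7000fe8100240f40007a80805487a002182bc010c14f001b09e004484dc003d014014c3d40015f02007a1ea000af01001c0f5000574080220008019400200300008090083)))) 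
(.nd (nat_lit 7) (.lf (nat_lit 5773131840) (dlOf (nat_lit 1) (nat_lit 0x400180a1581))) 
(.lf (nat_lit 3491430848) (dlOf (nat_lit 3) (nat_lit 0x1cc3ca0005c0201921e500720e60059054c000000c0048004023c0018090882))))) 
(.nd (nat_lit 18) (.nd (nat_lit 27) 
(.lf (nat_lit 1410007040) (dlOf (nat_lit 2) (nat_lit 0x134031000000180c0000))) (.nd (nat_lit 29) 
(.lf (nat_lit 470482944) (dlOf (nat_lit 1) (nat_lit 0x400200020008100002))) 
(.lf (nat_lit 4228579328) (dlOf (nat_lit 1) (nat_lit 0x20018100001))))) (.nd (nat_lit 6) 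
(.lf (nat_lit 4094626432) (dlOf (nat_lit 1) (nat_lit 0x20018055481))) 
(.lf (nat_lit 470745152) (dlOf (nat_lit 3) (nat_lit 0x440c000e0950002482000c012800120080008008002400200880008170503))))))) 
(.nd (nat_lit 6) (.nd (nat_lit 28) (.nd (nat_lit 20) (.nd (nat_lit 23) (.nd (nat_lit 18) 
(.lf (nat_lit 2818048) (dlOf (nat_lit 1) (nat_lit 0x400080004002000200081b0003))) 
(.lf (nat_lit 24051712) (dlOf (nat_lit 1) (nat_lit 0x7800800a000200340008b80003)))) 
(.nd (nat_lit 24) (.lf (nat_lit 15400960) (dlOf (nat_lit 1) (nat_lit 0x4004000600187f0002))) 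
(.lf (nat_lit 32178176) (dlOf (nat_lit 1) (nat_lit 0x1a0028ef0001))))) (.nd (nat_lit 8) 
(.lf (nat_lit 3866624) (dlOf (nat_lit 1) (nat_lit 0x19400400720008240002))) 
(.lf (nat_lit 8066816) (dlOf (nat_lit 1) (nat_lit 0xc0040002000851a002))))) (.nd (nat_lit 11) 
(.nd (nat_lit 18) (.nd (nat_lit 8) 
(.lf (nat_lit 472580096) (dlOf (nat_lit 2) (nat_lit 0xca07c006760189c0000))) 
(.lf (nat_lit 473628928) (dlOf (nat_lit 5) (nat_lit 0x70a9000403dc00281240006806000c152000707b80040248000cc0c00081240006402000c152000607b80040248000000c01bc00400260008f62a02)))) 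
(.nd (nat_lit 10) (.lf (nat_lit 3493789696) (dlOf (nat_lit 1) (nat_lit 0x600081b0001))) 
(.lf (nat_lit 3492742144) (dlOf (nat_lit 1) (nat_lit 0x4002000200080f2882))))) (.nd (nat_lit 7) 
(.lf (nat_lit 3492743168) (dlOf (nat_lit 1) (nat_lit 0x10004000400180f4702))) 
(.lf (nat_lit 3492743296) (dlOf (nat_lit 1) (nat_lit 0x10004000400180f4782)))))) (.nd (nat_lit 18) 
(.nd (nat_lit 7) (.nd (nat_lit 8) (.nd (nat_lit 22) 
(.lf (nat_lit 472580160) (dlOf (nat_lit 2) (nat_lit 0x980a68042836401ac1b000c607d014303e00091c2804080080194002005e00089c0603))) 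
(.lf (nat_lit 7012416) (dlOf (nat_lit 1) (nat_lit 0x4004000600084b0002)))) 
(.lf (nat_lit 50005312) (dlOf (nat_lit 1) (nat_lit 0x200094c3281)))) (.nd (nat_lit 10) 
(.nd (nat_lit 22) (.lf (nat_lit 4096458944) (dlOf (nat_lit 1) (nat_lit 0x20018111701))) 
(.lf (nat_lit 32178368) (dlOf (nat_lit 1) (nat_lit 0x1c0028ef0781)))) 
(.lf (nat_lit 32179392) (dlOf (nat_lit 2) (nat_lit 0xc67c001426a00009410013000800b000200500008ef2d03))))) 
(.nd (nat_lit 7) (.nd (nat_lit 24) (.nd (nat_lit 8) 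
(.lf (nat_lit 473890880) (dlOf (nat_lit 2) (nat_lit 0xa058c012029a00aa0d9003006c00091c200168008000400200140008fc0603))) 
(.lf (nat_lit 46072128) (dlOf (nat_lit 1) (nat_lit 0x1048008069000203ce0009380c03)))) 
(.nd (nat_lit 9) (.lf (nat_lit 20906048) (dlOf (nat_lit 1) (nat_lit 0x200289f0501))) 
(.lf (nat_lit 19857984) (dlOf (nat_lit 1) (nat_lit 0x200189d1581))))) (.nd (nat_lit 8) 
(.lf (nat_lit 3492743360) (dlOf (nat_lit 1) (nat_lit 0x100080010002000400080f4903))) 
(.lf (nat_lit 8327616) (dlOf (nat_lit 1) (nat_lit 0x580080010002000a0008518603))))))))) 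
(.nd (nat_lit 6) (.nd (nat_lit 18) (.nd (nat_lit 7) (.nd (nat_lit 19) (.nd (nat_lit 26) 
(.nd (nat_lit 29) (.nd (nat_lit 20) (.nd (nat_lit 23) (.nd (nat_lit 10) 
(.lf (nat_lit 6576865296) (dlOf (nat_lit 1) (nat_lit 0x1800400100018160482))) 
(.lf (nat_lit 54725648) (dlOf (nat_lit 3) (nat_lit 0x18e80001073a0002b02001639d00014c0800b8008009400200080009655f83)))) 
(.nd (nat_lit 21) (.lf (nat_lit 25362448) (dlOf (nat_lit 1) (nat_lit 0x8008000400200020008c00103))) 
(.lf (nat_lit 10682384) (dlOf (nat_lit 3) (nat_lit 0x218e400096040004af4000370200080028610201))))) 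
(.nd (nat_lit 10) (.nd (nat_lit 23) 
(.lf (nat_lit 1245712) (dlOf (nat_lit 1) (nat_lit 0x80080004002000200080a7b83))) 
(.lf (nat_lit 9634320) (dlOf (nat_lit 1) (nat_lit 0x400400020008578402)))) (.nd (nat_lit 9) 
(.lf (nat_lit 1345522704) (dlOf (nat_lit 2) (nat_lit 0xf83a40014080000560400200008c95f81))) 
(.lf (nat_lit 43189776) (dlOf (nat_lit 1) (nat_lit 0x800292a3681)))))) (.nd (nat_lit 27) 
(.nd (nat_lit 10) (.nd (nat_lit 28) 
(.lf (nat_lit 4832034832) (dlOf (nat_lit 1) (nat_lit 0x1c400200820008090002))) 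
(.lf (nat_lit 2952986640) (dlOf (nat_lit 1) (nat_lit 0x7c004001e0008080482)))) 
(.lf (nat_lit 5905777680) (dlOf (nat_lit 1) (nat_lit 0x380080028002000a0008142883)))) 
(.nd (nat_lit 9) 
(.lf (nat_lit 6308429840) (dlOf (nat_lit 5) (nat_lit 0x2d006000e240400f00300070b0200b40180037e81005a00c001bd8080058008003400200240008080003))) 
(.lf (nat_lit 3087204880) (dlOf (nat_lit 1) (nat_lit 0xc00200040008158402)))))) (.nd (nat_lit 28) 
(.nd (nat_lit 29) (.nd (nat_lit 9) 
(.lf (nat_lit 69403664) (dlOf (nat_lit 1) (nat_lit 0x8008000400200020008962883))) 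
(.lf (nat_lit 201523728) (dlOf (nat_lit 1) (nat_lit 0x3c0008018401)))) (.nd (nat_lit 30) 
(.lf (nat_lit 604176400) (dlOf (nat_lit 1) (nat_lit 0x20018080481))) 
(.lf (nat_lit 5972885520) (dlOf (nat_lit 1) (nat_lit 0x1800400100018160482))))) (.nd (nat_lit 8) 
(.nd (nat_lit 20) 
(.lf (nat_lit 5704450064) (dlOf (nat_lit 5) (nat_lit 0x2d0060019760400f003000cb80200b40180065381005a00c00327c080058008003400200240008080003))) 
(.lf (nat_lit 471007248) (dlOf (nat_lit 2) (nat_lit 0x8874000be04000c00400020018230202)))) 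
(.lf (nat_lit 3556972816) (dlOf (nat_lit 1) (nat_lit 0x480020002000812aa82)))))) (.nd (nat_lit 20) 
(.nd (nat_lit 23) (.nd (nat_lit 26) (.nd (nat_lit 27) 
(.lf (nat_lit 537591824) (dlOf (nat_lit 1) (nat_lit 0xe4004005400080c0982))) 
(.lf (nat_lit 134938640) (dlOf (nat_lit 2) (nat_lit 0x1d4076018a036002c00b8000ec1805a00080008002002e00080e0103)))) 
(.nd (nat_lit 27) (.lf (nat_lit 67829776) (dlOf (nat_lit 1) (nat_lit 0x19c0008310281))) 
(.lf (nat_lit 202047504) (dlOf (nat_lit 2) (nat_lit 0x1d4076018a036002c00b8000ec1805a00080008002002e00080e0103))))) 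
(.nd (nat_lit 8) 
(.lf (nat_lit 11206672) (dlOf (nat_lit 3) (nat_lit 0x1ec94301f53e680fb1f2c030479601ac3c9000d0000001043003d250c00a8f9600e2753006b0000000ec200a1800803e000205be0008670103))) 
(.lf (nat_lit 30081296) (dlOf (nat_lit 1) (nat_lit 0x400200020008e30702))))) (.nd (nat_lit 23) 
(.nd (nat_lit 24) (.lf (nat_lit 1769488) (dlOf (nat_lit 1) (nat_lit 0x8c0018130501))) 
(.lf (nat_lit 18546704) (dlOf (nat_lit 1) (nat_lit 0x20018950681)))) (.nd (nat_lit 24) 
(.lf (nat_lit 10158096) (dlOf (nat_lit 1) (nat_lit 0x4004000200085b0482))) 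
(.lf (nat_lit 26935312) (dlOf (nat_lit 1) (nat_lit 0x400400020008c90182))))))) (.nd (nat_lit 8) 
(.nd (nat_lit 9) (.nd (nat_lit 10) (.nd (nat_lit 26) 
(.lf (nat_lit 3491430544) (dlOf (nat_lit 2) (nat_lit 0x550aa0000000800f000800c400200700008090103))) 
(.lf (nat_lit 2753233040) (dlOf (nat_lit 2) (nat_lit 0x550ac8000000800f000800c400200700008090103)))) 
(.lf (nat_lit 3355645072) (dlOf (nat_lit 2) (nat_lit 0xc0178007000801700080150002001c00080a9503)))) 
(.nd (nat_lit 30) (.nd (nat_lit 19) 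
(.lf (nat_lit 2818773648) (dlOf (nat_lit 1) (nat_lit 0x400400060008128c82))) 
(.lf (nat_lit 8065680) (dlOf (nat_lit 1) (nat_lit 0x10008000400200020008518c83)))) 
(.nd (nat_lit 10) (.lf (nat_lit 3892517520) (dlOf (nat_lit 1) (nat_lit 0xa002815b681))) 
(.lf (nat_lit 4160951952) (dlOf (nat_lit 1) (nat_lit 0xc004000200080a9e82)))))) (.nd (nat_lit 10) 
(.nd (nat_lit 21) (.nd (nat_lit 26) 
(.lf (nat_lit 805505424) (dlOf (nat_lit 1) (nat_lit 0x20018114e81))) 
(.lf (nat_lit 1543702928) (dlOf (nat_lit 1) (nat_lit 0x188008018800200300008144e83)))) 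
(.nd (nat_lit 11) (.lf (nat_lit 2294160) (dlOf (nat_lit 1) (nat_lit 0x680008150781))) 
(.lf (nat_lit 36899216) (dlOf (nat_lit 1) (nat_lit 0x820009074e81))))) (.nd (nat_lit 19) 
(.nd (nat_lit 30) (.lf (nat_lit 537069456) (dlOf (nat_lit 1) (nat_lit 0x60028004201))) 
(.lf (nat_lit 5905778576) (dlOf (nat_lit 1) (nat_lit 0x300018144201)))) (.nd (nat_lit 9) 
(.lf (nat_lit 8066448) (dlOf (nat_lit 1) (nat_lit 0x20028519901))) 
(.lf (nat_lit 722832) (dlOf (nat_lit 1) (nat_lit 0x400400020008004202)))))))) (.nd (nat_lit 30) 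
(.nd (nat_lit 22) (.nd (nat_lit 19) (.nd (nat_lit 20) (.nd (nat_lit 21) 
(.lf (nat_lit 470220816) (dlOf (nat_lit 5) (nat_lit 0x15124800908fc02a3e0800344920151e02001824900a8e01000d1248054680800300080134002008200080a0503))) 
(.lf (nat_lit 2555920) (dlOf (nat_lit 5) (nat_lit 0x54b80010a52000c51e800628ac0000a1000114b80010a52000b51e800628ac000081000214b80018a52000751e800528ac000061000114b8000ea52000951e8005a8ac0000410003c00200160008170502)))) 
(.lf (nat_lit 2752970768) (dlOf (nat_lit 2) (nat_lit 0xa80b90009ac080020008000800200020008070503)))) 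
(.nd (nat_lit 7) (.nd (nat_lit 9) 
(.lf (nat_lit 11468816) (dlOf (nat_lit 2) (nat_lit 0x350000004d60400e0002000e00086a0502))) 
(.lf (nat_lit 2752446992) (dlOf (nat_lit 1) (nat_lit 0x20018018401)))) 
(.lf (nat_lit 62851472) (dlOf (nat_lit 1) (nat_lit 0x14002000800099a4e82))))) (.nd (nat_lit 23) 
(.nd (nat_lit 20) (.nd (nat_lit 7) 
(.lf (nat_lit 2756116496) (dlOf (nat_lit 1) (nat_lit 0x20028200a01))) 
(.lf (nat_lit 54984848) (dlOf (nat_lit 1) (nat_lit 0xd8008000400200220009681003)))) 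
(.nd (nat_lit 8) 
(.lf (nat_lit 58130960) (dlOf (nat_lit 2) (nat_lit 0x17c21000d6100000fe080194004008600197c7b82))) 
(.lf (nat_lit 58130704) (dlOf (nat_lit 2) (nat_lit 0x5865000060197c3b00))))) (.nd (nat_lit 19) 
(.nd (nat_lit 10) 
(.lf (nat_lit 13041680) (dlOf (nat_lit 1) (nat_lit 0x380080018002000600086f0103))) 
(.lf (nat_lit 46599184) (dlOf (nat_lit 2) (nat_lit 0x262e00212fd8001581000080080014002000e0009385f83)))) 
(.nd (nat_lit 20) (.lf (nat_lit 13565968) (dlOf (nat_lit 1) (nat_lit 0x40008730881))) 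
(.lf (nat_lit 14614544) (dlOf (nat_lit 1) (nat_lit 0x20018770001))))))) (.nd (nat_lit 31) 
(.nd (nat_lit 11) (.nd (nat_lit 26) (.nd (nat_lit 32) 
(.lf (nat_lit 1342636048) (dlOf (nat_lit 5) (nat_lit 0x15124800908fc02d1c0800344920168d02001824900b4581000d124805a240800300080134002008200080a0503))) 
(.lf (nat_lit 5637603344) (dlOf (nat_lit 1) (nat_lit 0x20028120a01)))) 
(.lf (nat_lit 6241583120) (dlOf (nat_lit 1) (nat_lit 0x20028120a01)))) (.nd (nat_lit 7) 
(.lf (nat_lit 1881607184) (dlOf (nat_lit 1) (nat_lit 0x3000200020008f65f82))) (.nd (nat_lit 21) 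
(.lf (nat_lit 1208420752) (dlOf (nat_lit 1) (nat_lit 0x5800800a4002003200080e4e83))) 
(.lf (nat_lit 6377900432) (dlOf (nat_lit 1) (nat_lit 0x600080e4e81)))))) (.nd (nat_lit 7) 
(.nd (nat_lit 10) (.nd (nat_lit 20) 
(.lf (nat_lit 3494314000) (dlOf (nat_lit 1) (nat_lit 0x20028200a01))) 
(.lf (nat_lit 3491168272) (dlOf (nat_lit 2) (nat_lit 0xa80b90009e4080020008000800200020008070503)))) 
(.lf (nat_lit 3492742160) (dlOf (nat_lit 1) (nat_lit 0x200180f2881)))) (.nd (nat_lit 8) 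
(.nd (nat_lit 26) 
(.lf (nat_lit 3221684368) (dlOf (nat_lit 2) (nat_lit 0x2b4000000000201740018170101))) 
(.lf (nat_lit 3959881872) (dlOf (nat_lit 2) (nat_lit 0x2b4000000000201740018170101)))) 
(.lf (nat_lit 3490122128) (dlOf (nat_lit 1) (nat_lit 0x400200020008004e82)))))))) (.nd (nat_lit 8) 
(.nd (nat_lit 26) (.nd (nat_lit 18) (.nd (nat_lit 29) (.nd (nat_lit 7) (.nd (nat_lit 20) 
(.lf (nat_lit 1073938512) (dlOf (nat_lit 1) (nat_lit 0xc0008031001))) 
(.lf (nat_lit 3490906192) (dlOf (nat_lit 1) (nat_lit 0x400200020008031002)))) 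
(.lf (nat_lit 5637341392) (dlOf (nat_lit 1) (nat_lit 0x8002000200080d0902)))) (.nd (nat_lit 7) 
(.nd (nat_lit 19) 
(.lf (nat_lit 6308429904) (dlOf (nat_lit 4) (nat_lit 0x124036006a01a008200c8025802c000e4100154036000801a005c00c802d002c000de1000140160006e02000e0018080501))) 
(.lf (nat_lit 537591888) (dlOf (nat_lit 5) (nat_lit 0x805703be029003c0100000680c043c0a40003202007405d003202b80200088008003e000401c0001885004102900009c0800f000800f0002010400080c1903)))) 
(.lf (nat_lit 1880818896) (dlOf (nat_lit 1) (nat_lit 0x800200020008bb2d82))))) (.nd (nat_lit 24) 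
(.nd (nat_lit 19) (.nd (nat_lit 21) 
(.lf (nat_lit 2819031120) (dlOf (nat_lit 4) (nat_lit 0x12a000000020100310000000080800e80000000004002c00200040008150702))) 
(.lf (nat_lit 48693328) (dlOf (nat_lit 3) (nat_lit 0x534910001f810013a48800980000001e08005400400220009420702)))) 
(.nd (nat_lit 7) 
(.lf (nat_lit 14614608) (dlOf (nat_lit 2) (nat_lit 0x2c66c0004404003800400160018770702))) 
(.lf (nat_lit 4128976) (dlOf (nat_lit 2) (nat_lit 0x3981c0005402001c0018290481))))) 
(.nd (nat_lit 7) (.nd (nat_lit 9) 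
(.lf (nat_lit 21954640) (dlOf (nat_lit 2) (nat_lit 0x68c0700445f80016297c000560c000c00200060008a81002))) 
(.lf (nat_lit 62851664) (dlOf (nat_lit 2) (nat_lit 0x2741000000199a5280)))) (.nd (nat_lit 10) 
(.lf (nat_lit 19861712) (dlOf (nat_lit 1) (nat_lit 0x4004000200189d8082))) 
(.lf (nat_lit 19864784) (dlOf (nat_lit 1) (nat_lit 0x4004000200089dc282))))))) (.nd (nat_lit 27) 
(.nd (nat_lit 29) (.nd (nat_lit 18) (.nd (nat_lit 19) (.nd (nat_lit 20) 
(.lf (nat_lit 5704450128) (dlOf (nat_lit 4) (nat_lit 0x124036006a01a008200c8025802c000e4100154036000801a005c00c802d002c000de1000140160006e02000e0018080501))) 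
(.lf (nat_lit 68354128) (dlOf (nat_lit 2) (nat_lit 0x3300000005f0200080008570201)))) 
(.lf (nat_lit 1410007120) (dlOf (nat_lit 1) (nat_lit 0x200080018002000a00080c1603)))) 
(.lf (nat_lit 3557228624) (dlOf (nat_lit 3) (nat_lit 0x350000000100801b80000000004002400200120008170702)))) 
(.nd (nat_lit 9) (.nd (nat_lit 20) 
(.lf (nat_lit 1946353744) (dlOf (nat_lit 1) (nat_lit 0xc0008031001))) 
(.lf (nat_lit 2752708688) (dlOf (nat_lit 1) (nat_lit 0x400200020008031002)))) 
(.lf (nat_lit 4095936080) (dlOf (nat_lit 1) (nat_lit 0x4004000200080e3882))))) (.nd (nat_lit 18) 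
(.nd (nat_lit 21) (.nd (nat_lit 7) 
(.lf (nat_lit 4764927056) (dlOf (nat_lit 1) (nat_lit 0x400400020008092882))) 
(.lf (nat_lit 6643974864) (dlOf (nat_lit 1) (nat_lit 0x3c004000400080b2002)))) (.nd (nat_lit 19) 
(.lf (nat_lit 1008926800) (dlOf (nat_lit 1) (nat_lit 0x260028fe0701))) 
(.lf (nat_lit 472580176) (dlOf (nat_lit 3) (nat_lit 0x2581b801240cc000a03a004880b80008a1000cc1780001202000a00189c0701))))) 
(.nd (nat_lit 19) 
(.lf (nat_lit 1007091792) (dlOf (nat_lit 10) (nat_lit 0x11614a00720a40001824c0004c0c029c294011a000000128200150a50000880803a0528000420402542940002002009c14a0034000000060100830000000080401cc0000000202002608300950000000001000680080254002000c0008170703))) 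
(.lf (nat_lit 470745168) (dlOf (nat_lit 7) (nat_lit 0x1c83d801801e7000130200020f60036079c0004a08001c3d8000200200a00000000c0100b60000000100802a8000000000400ac00200240008170702))))))) 
(.nd (nat_lit 7) (.nd (nat_lit 29) (.nd (nat_lit 23) (.nd (nat_lit 10) (.nd (nat_lit 26) 
(.lf (nat_lit 1342374224) (dlOf (nat_lit 1) (nat_lit 0x680080024002001a0008014d03))) 
(.lf (nat_lit 4362273104) (dlOf (nat_lit 2) (nat_lit 0x11023000038080030008001800200340008014d83)))) 
(.lf (nat_lit 1543703888) (dlOf (nat_lit 6) (nat_lit 0x3b80b0038403a0076018005300800048020004400400060000000a8700a100e800e006001700100020005000d00100004c2800900200002404019805801c601d007100c0031004000040100022002000b0000000143800e8074000020400b4004003e0018146a02)))) 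
(.nd (nat_lit 18) (.nd (nat_lit 21) 
(.lf (nat_lit 9634128) (dlOf (nat_lit 1) (nat_lit 0x400400020018574d82))) 
(.lf (nat_lit 11731280) (dlOf (nat_lit 1) (nat_lit 0x200086c0601)))) 
(.lf (nat_lit 25624912) (dlOf (nat_lit 1) (nat_lit 0x400200040008c10802))))) (.nd (nat_lit 9) 
(.nd (nat_lit 12) (.nd (nat_lit 26) 
(.lf (nat_lit 939721040) (dlOf (nat_lit 2) (nat_lit 0x4404a000220200040028154d81))) 
(.lf (nat_lit 4228055376) (dlOf (nat_lit 8) (nat_lit 0xa0080000690200380400003401003b02000019c080160100000cc0400740800004202005e040000200100330200000fc080028008000c00200340008014d03)))) 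
(.nd (nat_lit 10) (.lf (nat_lit 2818773328) (dlOf (nat_lit 1) (nat_lit 0x17c0028128301))) 
(.lf (nat_lit 2818774352) (dlOf (nat_lit 1) (nat_lit 0x60028129901))))) (.nd (nat_lit 10) 
(.nd (nat_lit 28) (.lf (nat_lit 6039995216) (dlOf (nat_lit 1) (nat_lit 0x3c004000400080b2482))) 
(.lf (nat_lit 4160947024) (dlOf (nat_lit 3) (nat_lit 0x1402b000500d0000b01000d806800056040024004000800080a2482)))) 
(.lf (nat_lit 2818772816) (dlOf (nat_lit 2) (nat_lit 0x601b0013040800280080004002000a0008127783)))))) 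
(.nd (nat_lit 19) (.nd (nat_lit 28) (.nd (nat_lit 18) 
(.lf (nat_lit 1812136400) (dlOf (nat_lit 2) (nat_lit 0x6600b001c00200291c1000e0008009000200300008157103))) 
(.nd (nat_lit 26) 
(.lf (nat_lit 3221684688) (dlOf (nat_lit 5) (nat_lit 0x7000a0000c81002a005000060080168028000800000017040122051004a025002b0124022806a00ca01f003d00f0000003000b8008000c00200020008170a03))) 
(.lf (nat_lit 3959882192) (dlOf (nat_lit 5) (nat_lit 0x7000a0000c81002a005000060080168028000800000017040122051004a025002b0124022806a00ca01f003d00f0000003000b8008000c00200020008170a03))))) 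
(.nd (nat_lit 22) (.nd (nat_lit 26) 
(.lf (nat_lit 1342374352) (dlOf (nat_lit 2) (nat_lit 0x8c39e00061cd00010e580291c1801d8008012800200140008017103))) 
(.lf (nat_lit 4228055504) (dlOf (nat_lit 5) (nat_lit 0xf409e0026042008901500291c1800c813c02e809a00a3504002802a004d2010016000000000080140008010000200320008017103)))) 
(.lf (nat_lit 474153424) (dlOf (nat_lit 1) (nat_lit 0x4a00190e1101))))) (.nd (nat_lit 9) 
(.nd (nat_lit 10) (.nd (nat_lit 26) 
(.lf (nat_lit 3491430864) (dlOf (nat_lit 5) (nat_lit 0x12b07a000302700001904044e1e80000c0102650f400005c0800f093801c43fa01921e8009d0e7800d065802742da013a15e009d0a7802784dc0000024000400400da0018090a02))) 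
(.lf (nat_lit 2753233360) (dlOf (nat_lit 5) (nat_lit 0x12b07e800302700001904044e1fa0000c0102650fd00005c08038884803243f4013a1e4001e0d9800d067802742da013a154009d0a7802784dc0000024000400400da0018090a02)))) 
(.lf (nat_lit 8062416) (dlOf (nat_lit 1) (nat_lit 0x400200020008513602)))) (.nd (nat_lit 10) 
(.nd (nat_lit 12) (.lf (nat_lit 4094364624) (dlOf (nat_lit 1) (nat_lit 0x180028055d81))) 
(.lf (nat_lit 8068048) (dlOf (nat_lit 1) (nat_lit 0x4002851bf01)))) 
(.lf (nat_lit 2752186320) (dlOf (nat_lit 1) (nat_lit 0x400200020008004502)))))))))) 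
(.nd (nat_lit 4) (.nd (nat_lit 28) (.nd (nat_lit 6) (.nd (nat_lit 18) (.nd (nat_lit 8) 
(.nd (nat_lit 29) (.nd (nat_lit 19) (.nd (nat_lit 26) 
(.lf (nat_lit 6576898048) (dlOf (nat_lit 1) (nat_lit 0x18008000c00200060008180003))) 
(.lf (nat_lit 4362305536) (dlOf (nat_lit 1) (nat_lit 0x8008006000200020008020003)))) 
(.nd (nat_lit 9) (.lf (nat_lit 60522496) (dlOf (nat_lit 1) (nat_lit 0xc0019890001))) 
(.lf (nat_lit 8094208) (dlOf (nat_lit 1) (nat_lit 0x10002000e0008511482))))) (.nd (nat_lit 7) 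
(.nd (nat_lit 9) (.nd (nat_lit 27) 
(.lf (nat_lit 5972918272) (dlOf (nat_lit 1) (nat_lit 0x18008000c00200060008180003))) 
(.lf (nat_lit 1812168704) (dlOf (nat_lit 2) (nat_lit 0xb01300068084017f808003000400040008160002)))) 
(.lf (nat_lit 4832069120) (dlOf (nat_lit 1) (nat_lit 0x200180d3681)))) (.nd (nat_lit 9) 
(.lf (nat_lit 1611366528) (dlOf (nat_lit 1) (nat_lit 0x40028163681))) 
(.lf (nat_lit 1745062528) (dlOf (nat_lit 1) (nat_lit 0x400200020008095482)))))) (.nd (nat_lit 7) 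
(.nd (nat_lit 19) (.lf (nat_lit 22249728) (dlOf (nat_lit 1) (nat_lit 0x5a0028ab7101))) 
(.nd (nat_lit 21) (.lf (nat_lit 51085568) (dlOf (nat_lit 1) (nat_lit 0x400094f2b01))) 
(.lf (nat_lit 69959936) (dlOf (nat_lit 1) (nat_lit 0x20018e22a01))))) (.nd (nat_lit 10) 
(.nd (nat_lit 20) 
(.lf (nat_lit 4899179392) (dlOf (nat_lit 1) (nat_lit 0x28008000c002000200080d5c03))) 
(.lf (nat_lit 20155264) (dlOf (nat_lit 1) (nat_lit 0x4002000200089d5c02)))) 
(.lf (nat_lit 8099712) (dlOf (nat_lit 1) (nat_lit 0x40020002000851a302)))))) (.nd (nat_lit 20) 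
(.nd (nat_lit 29) (.nd (nat_lit 9) (.nd (nat_lit 21) 
(.lf (nat_lit 4362567680) (dlOf (nat_lit 1) (nat_lit 0x348008000400200640008090003))) 
(.lf (nat_lit 10977280) (dlOf (nat_lit 1) (nat_lit 0x18008000400200060008650003)))) 
(.lf (nat_lit 8885760) (dlOf (nat_lit 1) (nat_lit 0x20028519c01)))) (.nd (nat_lit 8) 
(.nd (nat_lit 26) (.lf (nat_lit 1611104256) (dlOf (nat_lit 1) (nat_lit 0x1c00280e0001))) 
(.lf (nat_lit 738689024) (dlOf (nat_lit 1) (nat_lit 0x1c00280e0001)))) 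
(.lf (nat_lit 1745322240) (dlOf (nat_lit 1) (nat_lit 0x8008000400200060008112b03))))) 
(.nd (nat_lit 8) (.nd (nat_lit 9) 
(.lf (nat_lit 24608768) (dlOf (nat_lit 3) (nat_lit 0x15e4001d20080032f240000004001c00400220008ba0002))) 
(.lf (nat_lit 8357376) (dlOf (nat_lit 1) (nat_lit 0x40008000400200020008513683)))) (.nd (nat_lit 7) 
(.lf (nat_lit 60260608) (dlOf (nat_lit 1) (nat_lit 0x3800802e800200020009840a83))) 
(.lf (nat_lit 8357248) (dlOf (nat_lit 1) (nat_lit 0x100028513581))))))) (.nd (nat_lit 19) 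
(.nd (nat_lit 8) (.nd (nat_lit 9) (.nd (nat_lit 18) (.nd (nat_lit 26) 
(.lf (nat_lit 134447168) (dlOf (nat_lit 10) (nat_lit 0x2001880009808002814c0018080006c02d002500e00008c201bd8104000360401bc082000180207040410000b810002021002b00c4000200800040820000902004e031001e00880001410000810800bc062004803000300088000002003f000800bc002017c0008020783))) 
(.lf (nat_lit 201556032) (dlOf (nat_lit 10) (nat_lit 0x2001880009808002814c0018080006c02d002500e80008c201bd8104000320401bc082000180207040410000b810002021002b00c4000200800040820000902004e031001e00880001410000810800bc062004803000300088000002003f000800bc002017c0008020783)))) 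
(.nd (nat_lit 21) (.lf (nat_lit 9928768) (dlOf (nat_lit 1) (nat_lit 0x180080004002002a0008591683))) 
(.lf (nat_lit 2755100736) (dlOf (nat_lit 2) (nat_lit 0x1480340012018c05200840046029014901180a70078011402e000080e00320028110781))))) 
(.nd (nat_lit 29) (.lf (nat_lit 3288564288) (dlOf (nat_lit 1) (nat_lit 0xc00200a60008091082))) 
(.lf (nat_lit 1677951552) (dlOf (nat_lit 1) (nat_lit 0x360018128b81))))) (.nd (nat_lit 9) 
(.nd (nat_lit 18) (.nd (nat_lit 26) 
(.lf (nat_lit 3355672896) (dlOf (nat_lit 1) (nat_lit 0x400180b5f01))) 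
(.lf (nat_lit 3825434944) (dlOf (nat_lit 2) (nat_lit 0x6802800000040010004001e0018154c02)))) 
(.lf (nat_lit 2886172992) (dlOf (nat_lit 1) (nat_lit 0xf4002004a0008188602)))) (.nd (nat_lit 20) 
(.lf (nat_lit 4899179328) (dlOf (nat_lit 1) (nat_lit 0x200080008002000200080d5c03))) 
(.lf (nat_lit 20155200) (dlOf (nat_lit 1) (nat_lit 0x4002000200089d5c02)))))) (.nd (nat_lit 18) 
(.nd (nat_lit 7) (.nd (nat_lit 8) 
(.lf (nat_lit 537624640) (dlOf (nat_lit 2) (nat_lit 0x4502f8000840803100080020002001200080e0e03))) 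
(.lf (nat_lit 54231360) (dlOf (nat_lit 1) (nat_lit 0x180080008002000a0009650c03)))) 
(.nd (nat_lit 9) (.lf (nat_lit 25919680) (dlOf (nat_lit 1) (nat_lit 0x20028c10401))) 
(.lf (nat_lit 8100544) (dlOf (nat_lit 1) (nat_lit 0x40020002000851b982))))) (.nd (nat_lit 20) 
(.nd (nat_lit 23) (.lf (nat_lit 21987392) (dlOf (nat_lit 1) (nat_lit 0x400400060018a80d82))) 
(.lf (nat_lit 13598784) (dlOf (nat_lit 2) (nat_lit 0x3f8c60029bd60003e028730b80)))) 
(.lf (nat_lit 14647360) (dlOf (nat_lit 3) (nat_lit 0x70f12009275f001600000018418006df8c00090040044002002a0008770502))))))) 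
(.nd (nat_lit 30) (.nd (nat_lit 6) (.nd (nat_lit 27) (.nd (nat_lit 10) (.nd (nat_lit 7) 
(.nd (nat_lit 31) (.lf (nat_lit 5100503040) (dlOf (nat_lit 1) (nat_lit 0x200180d0001))) 
(.lf (nat_lit 2953019392) (dlOf (nat_lit 1) (nat_lit 0x80018090001)))) 
(.lf (nat_lit 2416148608) (dlOf (nat_lit 1) (nat_lit 0x40018090081)))) (.nd (nat_lit 8) 
(.lf (nat_lit 5167613440) (dlOf (nat_lit 1) (nat_lit 0x8002000200080d3682))) 
(.lf (nat_lit 5167613184) (dlOf (nat_lit 1) (nat_lit 0x138004003400080d2f02))))) (.nd (nat_lit 26) 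
(.nd (nat_lit 7) (.nd (nat_lit 29) 
(.lf (nat_lit 4697849856) (dlOf (nat_lit 2) (nat_lit 0x100cc0382c04010c004005600080a0002))) 
(.lf (nat_lit 939753472) (dlOf (nat_lit 2) (nat_lit 0xb0130006808400cce08003000400040008160002)))) 
(.lf (nat_lit 2550366336) (dlOf (nat_lit 1) (nat_lit 0x40018090081)))) (.nd (nat_lit 18) 
(.lf (nat_lit 3154870272) (dlOf (nat_lit 1) (nat_lit 0x20028360001))) 
(.lf (nat_lit 472350720) (dlOf (nat_lit 1) (nat_lit 0x3000200480008980002)))))) (.nd (nat_lit 8) 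
(.nd (nat_lit 18) (.nd (nat_lit 26) 
(.lf (nat_lit 4697849920) (dlOf (nat_lit 3) (nat_lit 0x80cc000580400180660002b02001600180a1581))) 
(.lf (nat_lit 469991488) (dlOf (nat_lit 9) (nat_lit 0x80f200328748014838c011a186006a0c10000b02804786a80004352000e06d00d200000008c2000301b000c0000000200400040000000c01003f0f2001f074800f83040001006009c1e401930e4802807201d1838e09a41bd008d0db804406180700306007c182000040900070f20060871c003837a0000606005e1e401f00ed00f8874807043920dae1c704a40de800086f0010430c035418300410c10000005007e8008058400218360008020783)))) 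
(.nd (nat_lit 19) 
(.lf (nat_lit 1009221696) (dlOf (nat_lit 1) (nat_lit 0x100080008002000200090a0603))) 
(.lf (nat_lit 473923648) (dlOf (nat_lit 2) (nat_lit 0xaf816000150a682c5836401001b00b6e09c05a5046802d81f00048e1c0f14004147e0008fc0602))))) 
(.nd (nat_lit 7) (.nd (nat_lit 19) 
(.lf (nat_lit 3087237440) (dlOf (nat_lit 2) (nat_lit 0x6802800000040010004001e0018154c02))) 
(.lf (nat_lit 473661760) (dlOf (nat_lit 2) (nat_lit 0xe00000000018f97e00)))) (.nd (nat_lit 27) 
(.lf (nat_lit 2416148928) (dlOf (nat_lit 2) (nat_lit 0x500d000000080010008001400200020008090883))) 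
(.lf (nat_lit 2550366656) (dlOf (nat_lit 2) (nat_lit 0x500d000000080010008001400200020008090883))))))) 
(.nd (nat_lit 6) (.nd (nat_lit 20) (.nd (nat_lit 18) (.nd (nat_lit 26) 
(.lf (nat_lit 1476624384) (dlOf (nat_lit 1) (nat_lit 0x600080a0001))) (.nd (nat_lit 29) 
(.lf (nat_lit 3691216896) (dlOf (nat_lit 1) (nat_lit 0x1200080a0001))) 
(.lf (nat_lit 4228087808) (dlOf (nat_lit 1) (nat_lit 0x8008006000200020008020003))))) 
(.nd (nat_lit 21) 
(.lf (nat_lit 4228349952) (dlOf (nat_lit 1) (nat_lit 0x348008000400200640008090003))) 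
(.lf (nat_lit 1344765952) (dlOf (nat_lit 1) (nat_lit 0x3000200480008980002))))) (.nd (nat_lit 27) 
(.nd (nat_lit 8) (.lf (nat_lit 1343979520) (dlOf (nat_lit 1) (nat_lit 0x100018390001))) 
(.lf (nat_lit 1345814784) (dlOf (nat_lit 1) (nat_lit 0x680080098002000c0008e02b03)))) 
(.nd (nat_lit 26) (.lf (nat_lit 5773164544) (dlOf (nat_lit 1) (nat_lit 0x4004000200180b0002))) 
(.lf (nat_lit 6377144320) (dlOf (nat_lit 1) (nat_lit 0x4004000200180b0002)))))) (.nd (nat_lit 20) 
(.nd (nat_lit 26) (.nd (nat_lit 9) (.nd (nat_lit 18) 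
(.lf (nat_lit 1342406720) (dlOf (nat_lit 9) (nat_lit 0x80f200328748014838c011a17c006a0bc8000b02804786c40004360000e06600d200000008c20003019400c0000000200400040000000c01003f0f2001f074800f82f20001006009c1e401930e4802807201d1838e09a41bd008d0db804405f007002f4007c179000040900070f20060871c003837a0000606005e1e401f00ed00f8874807043920dae1c704a40de800086f001042f8035417a00410bc8000005007e8008058400218360008020783))) 
(.lf (nat_lit 1881636928) (dlOf (nat_lit 1) (nat_lit 0x400200020008f80502)))) 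
(.lf (nat_lit 4026761792) (dlOf (nat_lit 1) (nat_lit 0xc00200a60008091082)))) (.nd (nat_lit 19) 
(.lf (nat_lit 3691216960) (dlOf (nat_lit 1) (nat_lit 0x6e00080a0901))) 
(.lf (nat_lit 1410039872) (dlOf (nat_lit 2) (nat_lit 0x4502f8000840803100080020002001200080e0e03))))) 
(.nd (nat_lit 19) (.nd (nat_lit 8) 
(.lf (nat_lit 3493298240) (dlOf (nat_lit 2) (nat_lit 0x1480340012018c05200840046029014901180a70078011402e000080e00320028110781))) 
(.lf (nat_lit 3493037888) (dlOf (nat_lit 6) (nat_lit 0x12b03d8000d80807b81ec0006a0404a80f6000340202a007b0001701019503d8000b40801780080444002014000080f3e03)))) 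
(.nd (nat_lit 26) 
(.lf (nat_lit 5773164608) (dlOf (nat_lit 2) (nat_lit 0xc827e0007202000200280b0501))) 
(.lf (nat_lit 6377144384) (dlOf (nat_lit 2) (nat_lit 0xc82640007202000200280b0501))))))))) 
(.nd (nat_lit 6) (.nd (nat_lit 28) (.nd (nat_lit 29) (.nd (nat_lit 18) (.nd (nat_lit 20) 
(.nd (nat_lit 27) (.nd (nat_lit 8) (.nd (nat_lit 10) 
(.lf (nat_lit 4295196688) (dlOf (nat_lit 1) (nat_lit 0xc004000400080a0682))) 
(.lf (nat_lit 54758416) (dlOf (nat_lit 1) (nat_lit 0x800400020009655f82)))) 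
(.lf (nat_lit 36406544) (dlOf (nat_lit 2) (nat_lit 0x400000002e04008c002000a0009073002)))) 
(.nd (nat_lit 26) (.nd (nat_lit 32) 
(.lf (nat_lit 134447120) (dlOf (nat_lit 4) (nat_lit 0xc05e001c502001202f000dd8100030178005e0080060008001400200320008020483))) 
(.lf (nat_lit 4429414416) (dlOf (nat_lit 1) (nat_lit 0xc004000400080a0682)))) 
(.lf (nat_lit 201555984) (dlOf (nat_lit 4) (nat_lit 0xc05e0013402001202f000950100030178003a4080060008001400200320008020483))))) 
(.nd (nat_lit 8) (.nd (nat_lit 9) (.nd (nat_lit 21) 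
(.lf (nat_lit 68386832) (dlOf (nat_lit 1) (nat_lit 0x200018570001))) 
(.lf (nat_lit 15958032) (dlOf (nat_lit 1) (nat_lit 0x1800200020008850382)))) 
(.lf (nat_lit 9667088) (dlOf (nat_lit 1) (nat_lit 0x40008578401)))) (.nd (nat_lit 7) 
(.lf (nat_lit 11763984) (dlOf (nat_lit 1) (nat_lit 0x200286c0481))) 
(.lf (nat_lit 33261968) (dlOf (nat_lit 1) (nat_lit 0x20018f54e81)))))) (.nd (nat_lit 19) 
(.nd (nat_lit 20) (.nd (nat_lit 7) 
(.lf (nat_lit 46631952) (dlOf (nat_lit 2) (nat_lit 0x431700010fe8000ac08004c00400200009385f82))) 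
(.lf (nat_lit 201818512) (dlOf (nat_lit 2) (nat_lit 0x80ec019c004001c004000a0008090782)))) 
(.nd (nat_lit 21) (.lf (nat_lit 26705936) (dlOf (nat_lit 1) (nat_lit 0x20018c60381))) 
(.lf (nat_lit 24608784) (dlOf (nat_lit 6) (nat_lit 0x2bd400085de8005ae94002d68a00015080010bbd000b5d280062d140000a0c001d77a0010ba500085a2800010180022f50002d77a001aba5000f5a280000c200062f50001977a0010ba500055a28000082000980080004002000a0008ba0503))))) 
(.nd (nat_lit 21) (.nd (nat_lit 10) (.nd (nat_lit 23) 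
(.lf (nat_lit 21987344) (dlOf (nat_lit 1) (nat_lit 0x4c00400040018a80882))) 
(.lf (nat_lit 13598736) (dlOf (nat_lit 2) (nat_lit 0x138c401da40200020008730881)))) 
(.lf (nat_lit 56591376) (dlOf (nat_lit 1) (nat_lit 0x8008000400200020009732883)))) (.nd (nat_lit 7) 
(.lf (nat_lit 28278800) (dlOf (nat_lit 1) (nat_lit 0x20018d80681))) 
(.lf (nat_lit 19894672) (dlOf (nat_lit 1) (nat_lit 0x1e00289d8381))))))) (.nd (nat_lit 31) 
(.nd (nat_lit 18) (.nd (nat_lit 9) (.nd (nat_lit 19) (.nd (nat_lit 27) 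
(.lf (nat_lit 604209168) (dlOf (nat_lit 1) (nat_lit 0x400200020008090182))) 
(.lf (nat_lit 1812168720) (dlOf (nat_lit 6) (nat_lit 0x7c002c01a001201de00400df00100638000003c014030003001f200b00eb00200760000003ac1002a4030021400b00fb002006e8000003a610045803001ac00b000600480660010020800401a2000000e606003600000067008023800800bc00200420008160483)))) 
(.lf (nat_lit 537624592) (dlOf (nat_lit 6) (nat_lit 0x102580010c08029812c000820401100600003f0200a60300001e81001c02f8000e00806d800802c0002003600080e0103)))) 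
(.nd (nat_lit 27) (.lf (nat_lit 537100816) (dlOf (nat_lit 2) (nat_lit 0x5205f00249818018400))) 
(.lf (nat_lit 671318544) (dlOf (nat_lit 8) (nat_lit 0x2880b0020004c0060023004200e801e806000f402000340050039001002d00000098c2401e804c0058023002b00e8017806000c802000720080056002802b00080148000004c412004a00000261810022011804c807401f403000b6005002588400170118025007401d0030006c00800740028012c02800b008c026403a00fe0180037004003980140094e14000400a004a50200f00028158401))))) 
(.nd (nat_lit 26) (.nd (nat_lit 30) 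
(.lf (nat_lit 537362448) (dlOf (nat_lit 1) (nat_lit 0x400200020008090002))) 
(.lf (nat_lit 1611104272) (dlOf (nat_lit 2) (nat_lit 0x581540000604001c004000e00080e0102)))) 
(.lf (nat_lit 738689040) (dlOf (nat_lit 2) (nat_lit 0x581540003204001c004000e00080e0102))))) 
(.nd (nat_lit 7) (.nd (nat_lit 18) (.nd (nat_lit 19) 
(.lf (nat_lit 2752741392) (dlOf (nat_lit 1) (nat_lit 0xb800800a800200500008030883))) 
(.lf (nat_lit 2819325968) (dlOf (nat_lit 1) (nat_lit 0x1c00400040008240282)))) (.nd (nat_lit 20) 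
(.lf (nat_lit 2756149264) (dlOf (nat_lit 1) (nat_lit 0x400400020018200a02))) 
(.lf (nat_lit 2753003536) (dlOf (nat_lit 5) (nat_lit 0x5839c0064e0400041d000020890013582000207380097c0801383a0003c1ce002e07e00200070000002000080080058002001e0008070503))))) 
(.nd (nat_lit 19) (.nd (nat_lit 27) 
(.lf (nat_lit 2751694736) (dlOf (nat_lit 2) (nat_lit 0x608800007018004200))) 
(.lf (nat_lit 3959654288) (dlOf (nat_lit 1) (nat_lit 0x400200020008114202)))) 
(.lf (nat_lit 2752219024) (dlOf (nat_lit 1) (nat_lit 0x800200020008004202))))))) (.nd (nat_lit 30) 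
(.nd (nat_lit 26) (.nd (nat_lit 7) (.nd (nat_lit 27) 
(.lf (nat_lit 2953019408) (dlOf (nat_lit 1) (nat_lit 0x400200020008090182))) (.nd (nat_lit 29) 
(.lf (nat_lit 2550366224) (dlOf (nat_lit 1) (nat_lit 0x780008090001))) 
(.lf (nat_lit 939753488) (dlOf (nat_lit 6) (nat_lit 0x7c002c01a001201de00400df001006380000029e14030003001f200b00eb002007600000028a1002a4030021400b00fb002006e80000028410045803001ac00b000600480660010020800401a20000009d86003600000043408023800800bc00200420008160483))))) 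
(.nd (nat_lit 27) (.lf (nat_lit 2416148624) (dlOf (nat_lit 1) (nat_lit 0x1a0008090101))) 
(.lf (nat_lit 2550366352) (dlOf (nat_lit 1) (nat_lit 0x1a0008090101))))) (.nd (nat_lit 19) 
(.nd (nat_lit 20) (.nd (nat_lit 21) 
(.lf (nat_lit 469991440) (dlOf (nat_lit 24) (nat_lit 0x15871c017ca04008039a0015102010e1d102a30e68003871404303820014f0801001d1029a0e68000871404183820013b08012a1d102b20e6800c07140470382001390800861d10009a0100760e88058873c020439a01801cb000950400360e88004a00809407340024c0401fc3a200181cd0008a8200130e68004400801c8744033c39a00421c1000868300480e68004280800e0744001fe0401b83a200581cd0007b82007f0e88001873400ac382000f606001a1cd0007a81000f0e68003b8080410734001d60400143a200da1cd003c0e08003a4180a58734001c80404f439a000e20200f41d100f10e6800000100568008001400204860008020483))) 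
(.lf (nat_lit 1008959504) (dlOf (nat_lit 1) (nat_lit 0x60019000001)))) 
(.lf (nat_lit 471040016) (dlOf (nat_lit 3) (nat_lit 0x20584008411c000e07e0004583000b047000181f8001140800c000400280018250382)))) 
(.nd (nat_lit 20) 
(.lf (nat_lit 470515728) (dlOf (nat_lit 1) (nat_lit 0xc000800c0002004c0008110a03))) 
(.lf (nat_lit 471564304) (dlOf (nat_lit 1) (nat_lit 0x80028330181)))))) (.nd (nat_lit 18) 
(.nd (nat_lit 19) (.nd (nat_lit 7) (.nd (nat_lit 20) 
(.lf (nat_lit 1342406672) (dlOf (nat_lit 24) (nat_lit 0x15871c00ca004008039a001e202010e1d102a30e6800387140430382001e00801001d1029a0e6800087140418382001cc08012a1d102b20e6800c07140470382001ca0800861d1000e28100760e88058873c020439a01801cb000dd8400130e68006d40801b0744003680404a039a001b20200fe1d1000c0e68006841002407340033e0400e43a2019e1cd00210e08006701800e07440031e0401b83a200581cd000c402000d0e680061c0803f8744000c39a00561c1000c303000f0e68005fc080410734002f80400143a200da1cd003c0e08005e0180a58734002ea0404f439a001730200f41d100f10e6800000100568008001400204860008020483)))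 
(.lf (nat_lit 3490938896) (dlOf (nat_lit 1) (nat_lit 0xb800800a800200500008030883)))) 
(.lf (nat_lit 3489897616) (dlOf (nat_lit 1) (nat_lit 0x3c80040464000800c202)))) (.nd (nat_lit 26) 
(.lf (nat_lit 1342930960) (dlOf (nat_lit 1) (nat_lit 0xc000800c0002004c0008110a03))) 
(.lf (nat_lit 1410039824) (dlOf (nat_lit 6) (nat_lit 0x102580010c08029812c000820401100600003f0200a60300001e81001c02f8000e00806d800802c0002003600080e0103))))) 
(.nd (nat_lit 20) (.nd (nat_lit 7) (.nd (nat_lit 10) 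
(.lf (nat_lit 3494346768) (dlOf (nat_lit 1) (nat_lit 0x400400020018200a02))) 
(.lf (nat_lit 3492774928) (dlOf (nat_lit 1) (nat_lit 0x200180f2881)))) 
(.lf (nat_lit 3624370320) (dlOf (nat_lit 2) (nat_lit 0x10000000000200180008183f01)))) 
(.nd (nat_lit 8) 
(.lf (nat_lit 3491201040) (dlOf (nat_lit 7) (nat_lit 0x5855c0073e0400f43aa01ae15300470a18009e41803a8550004ba0401142a80025802008a1540012a8100730fe001207e801f82b40034159000a0aa00178510005426c007e135002f08d800d80000000028015c004001e0008070502))) 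
(.lf (nat_lit 1345814800) (dlOf (nat_lit 1) (nat_lit 0x23800800a000200060008e03b03)))))))) 
(.nd (nat_lit 18) (.nd (nat_lit 29) (.nd (nat_lit 20) (.nd (nat_lit 8) (.nd (nat_lit 7) 
(.nd (nat_lit 22) 
(.lf (nat_lit 4697849936) (dlOf (nat_lit 1) (nat_lit 0x280080038002003800080a1703))) 
(.lf (nat_lit 63144016) (dlOf (nat_lit 2) (nat_lit 0x24e6004426a0000381000200080004002001400099e0703)))) 
(.lf (nat_lit 474186960) (dlOf (nat_lit 5) (nat_lit 0x440b900010c08036881c015c35a006c172000210300350b9000104080160894022841604e020700820d9012d86b402902e4008616e030d05a008b82b005c0148036600101c10000000ec600108008045800200be00090e2d83)))) 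
(.nd (nat_lit 10) (.lf (nat_lit 4424016) (dlOf (nat_lit 1) (nat_lit 0x1c00400060008290802))) 
(.lf (nat_lit 3489897808) (dlOf (nat_lit 1) (nat_lit 0x2e002800c901))))) (.nd (nat_lit 19) 
(.nd (nat_lit 7) (.nd (nat_lit 26) 
(.lf (nat_lit 3490938960) (dlOf (nat_lit 4) (nat_lit 0x1a416a000490201d00b50002381005605a8001180800300080064002001e0008031003))) 
(.lf (nat_lit 68386896) (dlOf (nat_lit 2) (nat_lit 0xea12900500608029008003580000005f0800020018570201)))) 
(.lf (nat_lit 43222224) (dlOf (nat_lit 1) (nat_lit 0xc00292a2d81)))) (.nd (nat_lit 7) 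
(.nd (nat_lit 9) (.lf (nat_lit 10190928) (dlOf (nat_lit 1) (nat_lit 0x1800285c1001))) 
(.lf (nat_lit 39553616) (dlOf (nat_lit 1) (nat_lit 0x80019195281)))) 
(.lf (nat_lit 8094416) (dlOf (nat_lit 2) (nat_lit 0x15f880006404020800400040018512002)))))) 
(.nd (nat_lit 8) (.nd (nat_lit 26) (.nd (nat_lit 27) 
(.lf (nat_lit 4832068688) (dlOf (nat_lit 1) (nat_lit 0x300080004002000200080d2883))) 
(.lf (nat_lit 5234721872) (dlOf (nat_lit 1) (nat_lit 0x8004000200080d2882)))) (.nd (nat_lit 7) 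
(.lf (nat_lit 2752741456) (dlOf (nat_lit 4) (nat_lit 0x1a41ca000420201d00e5000200100560728000fc0800300080064002001e0008031003))) 
(.lf (nat_lit 2080605392) (dlOf (nat_lit 2) (nat_lit 0x300f8000c4080008008000c00200040008092d83))))) 
(.nd (nat_lit 9) (.nd (nat_lit 26) (.nd (nat_lit 28) 
(.lf (nat_lit 671318352) (dlOf (nat_lit 2) (nat_lit 0x46026000f0000000a01000d00080060002008a0008154d83))) 
(.lf (nat_lit 3087237456) (dlOf (nat_lit 2) (nat_lit 0x6001f00d300d8000a010054800800cc002000a0008154d83)))) 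
(.lf (nat_lit 3825434960) (dlOf (nat_lit 4) (nat_lit 0x2f40400002f02017c020000170100db0100000b4080088008001400200040008154d03)))) 
(.nd (nat_lit 26) 
(.lf (nat_lit 5100505936) (dlOf (nat_lit 1) (nat_lit 0x80080008002000200080d5c03))) 
(.lf (nat_lit 4899179344) (dlOf (nat_lit 1) (nat_lit 0x80080174002008400080d5c03))))))) 
(.nd (nat_lit 19) (.nd (nat_lit 21) (.nd (nat_lit 7) (.nd (nat_lit 8) 
(.lf (nat_lit 3892805712) (dlOf (nat_lit 2) (nat_lit 0x6401440280066000202400a000e801e805800ac00a0005f0c00020018280201))) 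
(.nd (nat_lit 10) (.lf (nat_lit 25657680) (dlOf (nat_lit 1) (nat_lit 0x8008000400200020008c10803))) 
(.lf (nat_lit 3490155856) (dlOf (nat_lit 2) (nat_lit 0x98468004c22200008028006a00))))) 
(.nd (nat_lit 8) 
(.lf (nat_lit 5772903632) (dlOf (nat_lit 2) (nat_lit 0x280a00006204000800200040008092d82))) 
(.lf (nat_lit 872907216) (dlOf (nat_lit 4) (nat_lit 0x2010c00180000022f040002045001150100050000007740803180080084002002c00080f7b03))))) 
(.nd (nat_lit 20) (.nd (nat_lit 22) 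
(.lf (nat_lit 1009221712) (dlOf (nat_lit 1) (nat_lit 0x4e00290a0701))) 
(.lf (nat_lit 48726096) (dlOf (nat_lit 3) (nat_lit 0x129af000a6d5240007e0800440000000f0200120029420701)))) 
(.nd (nat_lit 25) (.nd (nat_lit 26) 
(.lf (nat_lit 3493298256) (dlOf (nat_lit 1) (nat_lit 0xa0018110901))) 
(.lf (nat_lit 2755100752) (dlOf (nat_lit 1) (nat_lit 0xa0018110901)))) 
(.lf (nat_lit 37191760) (dlOf (nat_lit 1) (nat_lit 0x4004000200090b0702)))))) (.nd (nat_lit 20) 
(.nd (nat_lit 8) (.nd (nat_lit 9) (.nd (nat_lit 22) 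
(.lf (nat_lit 1343193168) (dlOf (nat_lit 2) (nat_lit 0x482f00000004003c00400140008190702))) 
(.lf (nat_lit 21987408) (dlOf (nat_lit 2) (nat_lit 0x45a1e0002d0200020028a81001)))) 
(.lf (nat_lit 1345292880) (dlOf (nat_lit 2) (nat_lit 0xc1340001c0200080008b55281)))) 
(.nd (nat_lit 26) 
(.lf (nat_lit 3490677072) (dlOf (nat_lit 4) (nat_lit 0x1187a0000c80400b03d00006102003c1e800020018014d00))) 
(.lf (nat_lit 2752479568) (dlOf (nat_lit 1) (nat_lit 0x2c00200100008014d82))))) (.nd (nat_lit 22) 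
(.nd (nat_lit 9) 
(.lf (nat_lit 473923664) (dlOf (nat_lit 6) (nat_lit 0x602be00080d70000b8201df0af8011857807981ae002e0d6005c04d802d822c0002c1806b82be03820d70000a8200b10af80f4035c00141360001206043215f021b06b800000100450008009c00201460008fc0703))) 
(.lf (nat_lit 1346341456) (dlOf (nat_lit 7) (nat_lit 0x602d0004a01c0001e82004000e0000ec080278814010c3520042168005b0a28025033c00cc164004c073002f00e000400680006e24013040a007e1a9001c0b4002c8514012419e00660b200280398014807001340340003612001216800350a2801a833c006c0380003408006220500220d4800885a000d028a00540cf0038039800a0070000001c005000400200008f05282)))) 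
(.nd (nat_lit 21) 
(.lf (nat_lit 14647376) (dlOf (nat_lit 5) (nat_lit 0x5646f80009808032a37c0248dde000250400e43ec000100100013778000600800c8008000c00200140008770703))) 
(.lf (nat_lit 16744528) (dlOf (nat_lit 2) (nat_lit 0x18e86c00df2fa806c10fc000be0c0018004003000188e0202))))))))))))

end

end Pool.Agent.Lib.MP_5854e1_co.Cz

namespace Pool.Agent.Lib.MP_5854e1_co.Cz

noncomputable section

noncomputable def tz03 : DT := (.nd (nat_lit 15) (.nd (nat_lit 6) (.nd (nat_lit 18) 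
(.nd (nat_lit 16) (.nd (nat_lit 4) (.nd (nat_lit 21) (.nd (nat_lit 26) (.nd (nat_lit 23) 
(.nd (nat_lit 7) (.nd (nat_lit 8) 
(.lf (nat_lit 3221368320) (dlOf (nat_lit 1) (nat_lit 0x400400020008116f82))) 
(.lf (nat_lit 50995456) (dlOf (nat_lit 1) (nat_lit 0xe800294e7a81)))) 
(.lf (nat_lit 3892453504) (dlOf (nat_lit 1) (nat_lit 0x400200020008123682)))) (.nd (nat_lit 7) 
(.nd (nat_lit 19) (.lf (nat_lit 47325184) (dlOf (nat_lit 1) (nat_lit 0x24004000e00093d0002))) 
(.lf (nat_lit 42606592) (dlOf (nat_lit 1) (nat_lit 0x400400020009260002)))) 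
(.lf (nat_lit 8530048) (dlOf (nat_lit 1) (nat_lit 0x2400400020018514782))))) (.nd (nat_lit 20) 
(.nd (nat_lit 27) (.lf (nat_lit 5435957248) (dlOf (nat_lit 1) (nat_lit 0xc00400040008060002))) 
(.nd (nat_lit 29) (.lf (nat_lit 3691126784) (dlOf (nat_lit 1) (nat_lit 0x6000400060008040002))) 
(.lf (nat_lit 5301739520) (dlOf (nat_lit 1) (nat_lit 0xc00400040008060002))))) (.nd (nat_lit 7) 
(.lf (nat_lit 1007820800) (dlOf (nat_lit 1) (nat_lit 0x4200287f0001))) 
(.lf (nat_lit 6376532608) (dlOf (nat_lit 1) (nat_lit 0x400200020008095482)))))) (.nd (nat_lit 7) 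
(.nd (nat_lit 26) (.nd (nat_lit 24) (.nd (nat_lit 10) 
(.lf (nat_lit 3809280) (dlOf (nat_lit 1) (nat_lit 0x80028230001))) 
(.lf (nat_lit 39986176) (dlOf (nat_lit 1) (nat_lit 0x4004000200091f2882)))) (.nd (nat_lit 23) 
(.lf (nat_lit 19537920) (dlOf (nat_lit 1) (nat_lit 0xc004000200189c0002))) 
(.lf (nat_lit 27926528) (dlOf (nat_lit 3) (nat_lit 0x40dfc001e6c700363324017d20c0015bf8003cd8e006c664802f94180060008001c00200060008d40003))))) 
(.nd (nat_lit 8) (.nd (nat_lit 9) 
(.lf (nat_lit 472522752) (dlOf (nat_lit 1) (nat_lit 0x28008000c002001600089b0003))) 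
(.lf (nat_lit 4095878656) (dlOf (nat_lit 1) (nat_lit 0x400280e3681)))) 
(.lf (nat_lit 473571584) (dlOf (nat_lit 5) (nat_lit 0x100a7800583dc00380fe0006806001c14f000907b800601fc000cc0c00100fe0006402001c14f000907b800681fc000000c0158004003a0008f62a02))))) 
(.nd (nat_lit 19) (.nd (nat_lit 22) 
(.lf (nat_lit 11673728) (dlOf (nat_lit 1) (nat_lit 0x800800e8002004200086c0083))) 
(.lf (nat_lit 41033856) (dlOf (nat_lit 1) (nat_lit 0x5c0008011400200b40009213683)))) 
(.nd (nat_lit 8) (.lf (nat_lit 53094016) (dlOf (nat_lit 1) (nat_lit 0x3400200060009573982))) 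
(.lf (nat_lit 36317568) (dlOf (nat_lit 1) (nat_lit 0x20019074e81))))))) (.nd (nat_lit 19) 
(.nd (nat_lit 31) (.nd (nat_lit 20) (.nd (nat_lit 27) (.nd (nat_lit 7) 
(.lf (nat_lit 25305104) (dlOf (nat_lit 2) (nat_lit 0x1322a01a3f0200020008bf0881))) (.nd (nat_lit 8) 
(.lf (nat_lit 44179600) (dlOf (nat_lit 1) (nat_lit 0x680080004002000e00092d1003))) 
(.lf (nat_lit 1610753424) (dlOf (nat_lit 1) (nat_lit 0xc00200020008093602))))) (.nd (nat_lit 8) 
(.nd (nat_lit 10) 
(.lf (nat_lit 4697759760) (dlOf (nat_lit 5) (nat_lit 0x1c05e001202d000800f806ec81800180bc002405a01bb104000802f000a0168005807c037600c001005e001002d000b00f806ebc18008000800fc00200020008090003))) 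
(.lf (nat_lit 939664400) (dlOf (nat_lit 1) (nat_lit 0x6000200480008142882)))) 
(.lf (nat_lit 1744970000) (dlOf (nat_lit 1) (nat_lit 0x180028090a81))))) (.nd (nat_lit 8) 
(.nd (nat_lit 7) (.nd (nat_lit 9) 
(.lf (nat_lit 47325200) (dlOf (nat_lit 4) (nat_lit 0x44bc400235d48000ac100042f1000257520001b04001ebc4000f5d48000681000080080050002000800093d0103))) 
(.lf (nat_lit 9576976) (dlOf (nat_lit 1) (nat_lit 0x1c0028578401)))) 
(.lf (nat_lit 20067984) (dlOf (nat_lit 2) (nat_lit 0x4000000180189d9e80)))) (.nd (nat_lit 10) 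
(.nd (nat_lit 11) (.lf (nat_lit 20062480) (dlOf (nat_lit 1) (nat_lit 0x4002000200089d0a82))) 
(.lf (nat_lit 20068624) (dlOf (nat_lit 1) (nat_lit 0x80080008002000400089daa83)))) 
(.lf (nat_lit 51520784) (dlOf (nat_lit 1) (nat_lit 0x8008000400200020009513003)))))) 
(.nd (nat_lit 28) (.nd (nat_lit 26) (.nd (nat_lit 7) 
(.lf (nat_lit 2684493840) (dlOf (nat_lit 2) (nat_lit 0x5a03300009818070100))) 
(.lf (nat_lit 3355588240) (dlOf (nat_lit 1) (nat_lit 0x10002000200080a9e82)))) (.nd (nat_lit 20) 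
(.lf (nat_lit 3288473616) (dlOf (nat_lit 1) (nat_lit 0x8008000400200020008020483))) 
(.lf (nat_lit 2752651280) (dlOf (nat_lit 3) (nat_lit 0x1621700ed501000a10b8076a0080008008008800200080008030883))))) 
(.nd (nat_lit 29) (.nd (nat_lit 20) (.nd (nat_lit 27) 
(.lf (nat_lit 2416058384) (dlOf (nat_lit 1) (nat_lit 0x20008030881))) 
(.lf (nat_lit 2550276112) (dlOf (nat_lit 1) (nat_lit 0x20008030881)))) 
(.lf (nat_lit 3490848784) (dlOf (nat_lit 3) (nat_lit 0x1620200d2281000a10100690c080008008008800200080008030883)))) 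
(.nd (nat_lit 9) 
(.lf (nat_lit 4026671120) (dlOf (nat_lit 1) (nat_lit 0x8008000400200020008020483))) 
(.lf (nat_lit 4093782544) (dlOf (nat_lit 1) (nat_lit 0x20018005081))))))) (.nd (nat_lit 21) 
(.nd (nat_lit 26) (.nd (nat_lit 20) (.nd (nat_lit 27) 
(.lf (nat_lit 1342840848) (dlOf (nat_lit 1) (nat_lit 0x5800280e0501))) 
(.lf (nat_lit 134881296) (dlOf (nat_lit 4) (nat_lit 0x180f4000807001a4504000203d000b01980690c10004804c0347e04003c002002200080d0882)))) 
(.lf (nat_lit 10100752) (dlOf (nat_lit 1) (nat_lit 0x6780080110002002c00085b0483)))) 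
(.nd (nat_lit 20) (.nd (nat_lit 28) 
(.lf (nat_lit 201990160) (dlOf (nat_lit 4) (nat_lit 0x180f4000807001daa04000203d000b0198076a010004804c03b4804003c002002200080d0882))) 
(.lf (nat_lit 470425616) (dlOf (nat_lit 1) (nat_lit 0x5800280e0501)))) 
(.lf (nat_lit 471474192) (dlOf (nat_lit 2) (nat_lit 0x826000dde04000c00400020008310a02))))) 
(.nd (nat_lit 22) (.nd (nat_lit 23) (.nd (nat_lit 26) 
(.lf (nat_lit 3492421648) (dlOf (nat_lit 1) (nat_lit 0x380080010002001800080d0883))) 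
(.lf (nat_lit 2754224144) (dlOf (nat_lit 1) (nat_lit 0x380080010002001800080d0883)))) 
(.lf (nat_lit 27926544) (dlOf (nat_lit 4) (nat_lit 0x456a88048353c01799900005f060008cc90002c8100056a88000180800100080058002000a0008d40203)))) 
(.nd (nat_lit 8) (.lf (nat_lit 57289232) (dlOf (nat_lit 2) (nat_lit 0xd86500012819795080))) 
(.lf (nat_lit 32122128) (dlOf (nat_lit 2) (nat_lit 0x909e801e84b00006408000800200060008ef3002)))))))) 
(.nd (nat_lit 4) (.nd (nat_lit 19) (.nd (nat_lit 9) (.nd (nat_lit 20) (.nd (nat_lit 21) 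
(.nd (nat_lit 8) (.lf (nat_lit 4899151872) (dlOf (nat_lit 1) (nat_lit 0x600180a0001))) 
(.lf (nat_lit 4563607808) (dlOf (nat_lit 2) (nat_lit 0x1480bc002ca040004004011c0018090a82)))) 
(.nd (nat_lit 24) (.lf (nat_lit 2753765376) (dlOf (nat_lit 1) (nat_lit 0xa0018090001))) 
(.lf (nat_lit 52633600) (dlOf (nat_lit 1) (nat_lit 0x8004000e0009560002))))) (.nd (nat_lit 22) 
(.nd (nat_lit 8) (.lf (nat_lit 18030592) (dlOf (nat_lit 1) (nat_lit 0x20008002000200080008900003))) 
(.lf (nat_lit 1253632) (dlOf (nat_lit 2) (nat_lit 0x40600001f8180a2b00)))) (.nd (nat_lit 23) 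
(.lf (nat_lit 22224896) (dlOf (nat_lit 1) (nat_lit 0x340008aa0001))) 
(.lf (nat_lit 47390720) (dlOf (nat_lit 1) (nat_lit 0x4002000200093e0002)))))) (.nd (nat_lit 10) 
(.nd (nat_lit 26) (.nd (nat_lit 11) 
(.lf (nat_lit 2684564352) (dlOf (nat_lit 1) (nat_lit 0xa80080058002000200080a9003))) 
(.lf (nat_lit 20130688) (dlOf (nat_lit 1) (nat_lit 0x4002000200089d5c02)))) (.nd (nat_lit 8) 
(.lf (nat_lit 1141058176) (dlOf (nat_lit 1) (nat_lit 0x200008095481))) 
(.lf (nat_lit 1141058432) (dlOf (nat_lit 2) (nat_lit 0x920130001f00800580080008002000a0008095c03))))) 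
(.nd (nat_lit 29) (.nd (nat_lit 26) 
(.lf (nat_lit 3355653632) (dlOf (nat_lit 2) (nat_lit 0x20000001bc0800080080038002001000080a9c03))) 
(.lf (nat_lit 2617456128) (dlOf (nat_lit 1) (nat_lit 0x14004000200080a9c02)))) (.nd (nat_lit 7) 
(.lf (nat_lit 2013472256) (dlOf (nat_lit 1) (nat_lit 0x8008000400200020008093683))) 
(.lf (nat_lit 4160960128) (dlOf (nat_lit 1) (nat_lit 0x54002001c00080a9d82))))))) (.nd (nat_lit 26) 
(.nd (nat_lit 8) (.nd (nat_lit 22) (.nd (nat_lit 27) 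
(.lf (nat_lit 1342906368) (dlOf (nat_lit 1) (nat_lit 0x400200020008100002))) 
(.lf (nat_lit 134946816) (dlOf (nat_lit 7) (nat_lit 0x1007400060130046e02000201d0007004c011b40801a006c0071502003c0360038a01001d01b001c4c0801780ec00b802e006fd04000400280e0001)))) 
(.lf (nat_lit 21700608) (dlOf (nat_lit 2) (nat_lit 0x65da0001dea18021901000280080038002001a0008a60003)))) 
(.nd (nat_lit 7) (.lf (nat_lit 46866688) (dlOf (nat_lit 1) (nat_lit 0x3400400020009380a82))) 
(.lf (nat_lit 20654976) (dlOf (nat_lit 1) (nat_lit 0x4002000200089d5c02))))) (.nd (nat_lit 29) 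
(.nd (nat_lit 27) (.lf (nat_lit 4362805248) (dlOf (nat_lit 1) (nat_lit 0x980008100001))) 
(.nd (nat_lit 28) 
(.lf (nat_lit 202055680) (dlOf (nat_lit 7) (nat_lit 0x100740006013006c002000201d0007004c01afc0801a006c00cbf02003c0360065e81001d01b0032f00801780ec00b802e00ca704000400280e0001))) 
(.lf (nat_lit 470491136) (dlOf (nat_lit 1) (nat_lit 0x400200020008100002))))) (.nd (nat_lit 8) 
(.nd (nat_lit 30) 
(.lf (nat_lit 3154845696) (dlOf (nat_lit 1) (nat_lit 0x10008000400200040008350003))) 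
(.lf (nat_lit 4228587520) (dlOf (nat_lit 1) (nat_lit 0x980008100001)))) 
(.lf (nat_lit 6378168576) (dlOf (nat_lit 2) (nat_lit 0x80280001f818112b00))))))) (.nd (nat_lit 28) 
(.nd (nat_lit 19) (.nd (nat_lit 8) (.nd (nat_lit 10) (.nd (nat_lit 29) (.nd (nat_lit 21) 
(.lf (nat_lit 1073946640) (dlOf (nat_lit 1) (nat_lit 0x260018030881))) 
(.lf (nat_lit 10690576) (dlOf (nat_lit 1) (nat_lit 0xaa000203160008610202)))) (.nd (nat_lit 26) 
(.lf (nat_lit 4832043024) (dlOf (nat_lit 1) (nat_lit 0x4002000200080a0102))) 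
(.lf (nat_lit 604184592) (dlOf (nat_lit 4) (nat_lit 0x700c80030048018360800380220012302002a016000600a80020000000000c002000400280008080482))))) 
(.nd (nat_lit 7) (.lf (nat_lit 54733840) (dlOf (nat_lit 1) (nat_lit 0x60029655f81))) 
(.lf (nat_lit 3355653264) (dlOf (nat_lit 3) (nat_lit 0x120178007000800080bc00362040128004001000180a9502))))) 
(.nd (nat_lit 7) (.nd (nat_lit 9) 
(.lf (nat_lit 4966261008) (dlOf (nat_lit 1) (nat_lit 0x20008090a81))) (.nd (nat_lit 10) 
(.lf (nat_lit 2214798096) (dlOf (nat_lit 1) (nat_lit 0x4004000200080a2102))) 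
(.lf (nat_lit 8599312) (dlOf (nat_lit 1) (nat_lit 0x4800800180020006000851a003))))) 
(.nd (nat_lit 27) (.lf (nat_lit 537077648) (dlOf (nat_lit 1) (nat_lit 0x20028004201))) 
(.lf (nat_lit 671295376) (dlOf (nat_lit 1) (nat_lit 0x400200020008144202)))))) (.nd (nat_lit 21) 
(.nd (nat_lit 26) (.nd (nat_lit 29) 
(.lf (nat_lit 134946832) (dlOf (nat_lit 2) (nat_lit 0x46203b022201b010b805c000760c02a0004042000180e0102))) 
(.lf (nat_lit 2819301392) (dlOf (nat_lit 1) (nat_lit 0x1000400040008230382)))) (.nd (nat_lit 10) 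
(.nd (nat_lit 27) (.lf (nat_lit 4362805264) (dlOf (nat_lit 1) (nat_lit 0x360008100101))) 
(.lf (nat_lit 202055696) (dlOf (nat_lit 2) (nat_lit 0x46203b022201b010b805c000760c02a0004042000180e0102)))) 
(.lf (nat_lit 68887568) (dlOf (nat_lit 1) (nat_lit 0x80080004002000200087e2883))))) 
(.nd (nat_lit 8) (.nd (nat_lit 23) 
(.lf (nat_lit 19603472) (dlOf (nat_lit 1) (nat_lit 0x100080004002000200089c0183))) 
(.lf (nat_lit 11214864) (dlOf (nat_lit 2) (nat_lit 0xc80000001d818670100)))) 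
(.lf (nat_lit 36381968) (dlOf (nat_lit 1) (nat_lit 0xe0009073001)))))) (.nd (nat_lit 27) 
(.nd (nat_lit 10) (.nd (nat_lit 26) (.nd (nat_lit 29) 
(.lf (nat_lit 5637349392) (dlOf (nat_lit 1) (nat_lit 0x8004000200180d0002))) 
(.lf (nat_lit 2952994832) (dlOf (nat_lit 6) (nat_lit 0x1800800ab602000401c00270020013000c002460c002400800060030009082000e0020006800c001ba08004805400120030003000000000180008008007000200260008080483)))) 
(.nd (nat_lit 19) (.lf (nat_lit 1946361872) (dlOf (nat_lit 1) (nat_lit 0x260018030881))) 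
(.lf (nat_lit 4095418384) (dlOf (nat_lit 1) (nat_lit 0x8004000200180b0a02))))) (.nd (nat_lit 7) 
(.lf (nat_lit 1345530896) (dlOf (nat_lit 2) (nat_lit 0x4163000c099800183a4000ac0c0014004000a0008c95f82))) 
(.nd (nat_lit 8) (.lf (nat_lit 1409494160) (dlOf (nat_lit 1) (nat_lit 0x20028006201))) 
(.lf (nat_lit 3489869200) (dlOf (nat_lit 1) (nat_lit 0x2e0008006c81)))))) (.nd (nat_lit 26) 
(.nd (nat_lit 7) (.nd (nat_lit 9) 
(.lf (nat_lit 1476599824) (dlOf (nat_lit 1) (nat_lit 0x200180a0481))) 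
(.lf (nat_lit 3087213072) (dlOf (nat_lit 8) (nat_lit 0x114044001c01700263020041005801480240120000004bc0600f600b007100480320000009740c01a8016004b10200c600b0025801006f00580129c08011802c0094a0401c8004002e0018158402)))) 
(.nd (nat_lit 8) 
(.lf (nat_lit 4160960144) (dlOf (nat_lit 6) (nat_lit 0x180560001d02001002b000500d80006c1001100ac00400360001804000402b000800d0000541001100ac00680340001104002c00180a9e81))) 
(.lf (nat_lit 3624086928) (dlOf (nat_lit 1) (nat_lit 0x40008146c81))))) (.nd (nat_lit 19) 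
(.lf (nat_lit 3691192336) (dlOf (nat_lit 1) (nat_lit 0x7c004001e00080a0482))) (.nd (nat_lit 30) 
(.lf (nat_lit 3154845712) (dlOf (nat_lit 1) (nat_lit 0x24004000e0008350282))) 
(.lf (nat_lit 4228587536) (dlOf (nat_lit 1) (nat_lit 0x360008100101)))))))))) (.nd (nat_lit 4) 
(.nd (nat_lit 21) (.nd (nat_lit 26) (.nd (nat_lit 16) (.nd (nat_lit 28) (.nd (nat_lit 30) 
(.nd (nat_lit 7) 
(.lf (nat_lit 2819497984) (dlOf (nat_lit 2) (nat_lit 0x340160000000800b00080018002001e00082b0003))) 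
(.lf (nat_lit 134619520) (dlOf (nat_lit 1) (nat_lit 0xe0008090781)))) (.nd (nat_lit 27) 
(.lf (nat_lit 3221626880) (dlOf (nat_lit 1) (nat_lit 0x200080080002001c0008160003))) 
(.lf (nat_lit 3355844608) (dlOf (nat_lit 5) (nat_lit 0x7b00c40197e04002c06600600320065382003d0190030ac0800680c80185004016400401820008120002))))) 
(.nd (nat_lit 27) (.nd (nat_lit 29) 
(.lf (nat_lit 4563804160) (dlOf (nat_lit 2) (nat_lit 0x980c402e64040010002002c00080e0002))) 
(.lf (nat_lit 805707776) (dlOf (nat_lit 1) (nat_lit 0x8008001000200060008190003)))) 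
(.nd (nat_lit 30) 
(.lf (nat_lit 4698021888) (dlOf (nat_lit 2) (nat_lit 0x980c402ba8040010002002c00080e0002))) 
(.lf (nat_lit 1476796416) (dlOf (nat_lit 2) (nat_lit 0x40000065002000800081f0001)))))) 
(.nd (nat_lit 8) (.nd (nat_lit 23) (.nd (nat_lit 24) 
(.lf (nat_lit 1343692800) (dlOf (nat_lit 1) (nat_lit 0x8008000400200020008330003))) 
(.lf (nat_lit 18292736) (dlOf (nat_lit 1) (nat_lit 0x4004000e0018920002)))) 
(.lf (nat_lit 9904128) (dlOf (nat_lit 3) (nat_lit 0x17452015d6020003a2900aea018590000)))) 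
(.nd (nat_lit 7) (.lf (nat_lit 46604544) (dlOf (nat_lit 1) (nat_lit 0xd0008005800200020009380a83))) 
(.lf (nat_lit 39790976) (dlOf (nat_lit 1) (nat_lit 0x1c00191f4e81)))))) (.nd (nat_lit 27) 
(.nd (nat_lit 19) (.nd (nat_lit 7) (.nd (nat_lit 30) 
(.lf (nat_lit 604381184) (dlOf (nat_lit 2) (nat_lit 0x400000be502000800081f0001))) 
(.lf (nat_lit 1678123008) (dlOf (nat_lit 1) (nat_lit 0x8008001000200060008190003)))) 
(.lf (nat_lit 4362477696) (dlOf (nat_lit 2) (nat_lit 0x7003300109018090080)))) (.nd (nat_lit 10) 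
(.nd (nat_lit 28) (.lf (nat_lit 68034560) (dlOf (nat_lit 1) (nat_lit 0x200283a0001))) 
(.lf (nat_lit 3557695488) (dlOf (nat_lit 2) (nat_lit 0x340160000000800b00080018002001e00082b0003)))) 
(.lf (nat_lit 4094569472) (dlOf (nat_lit 1) (nat_lit 0x20028055f01))))) (.nd (nat_lit 7) 
(.nd (nat_lit 28) 
(.lf (nat_lit 3959824384) (dlOf (nat_lit 1) (nat_lit 0x200080080002001c0008160003))) 
(.lf (nat_lit 2617647104) (dlOf (nat_lit 1) (nat_lit 0x4002000a0008130002)))) (.nd (nat_lit 8) 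
(.lf (nat_lit 4228259968) (dlOf (nat_lit 2) (nat_lit 0x70032000fe818090080))) (.nd (nat_lit 11) 
(.lf (nat_lit 201728384) (dlOf (nat_lit 1) (nat_lit 0x20018090781))) 
(.lf (nat_lit 474360192) (dlOf (nat_lit 1) (nat_lit 0x20029164e81)))))))) (.nd (nat_lit 8) 
(.nd (nat_lit 10) (.nd (nat_lit 20) (.nd (nat_lit 16) 
(.lf (nat_lit 1881546752) (dlOf (nat_lit 1) (nat_lit 0x14004000e0008f40002))) 
(.lf (nat_lit 15147008) (dlOf (nat_lit 1) (nat_lit 0x80080004002000200087c0003)))) 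
(.nd (nat_lit 22) (.nd (nat_lit 23) 
(.lf (nat_lit 3547136) (dlOf (nat_lit 4) (nat_lit 0xa4b200ecf8100092590076740800312c803a8404008c004006e0018200002))) 
(.lf (nat_lit 62267392) (dlOf (nat_lit 1) (nat_lit 0x40029990001)))) 
(.lf (nat_lit 16130048) (dlOf (nat_lit 1) (nat_lit 0x200018870001))))) (.nd (nat_lit 9) 
(.nd (nat_lit 11) 
(.lf (nat_lit 1344742400) (dlOf (nat_lit 1) (nat_lit 0x10008000800200040008982883))) 
(.lf (nat_lit 19803136) (dlOf (nat_lit 2) (nat_lit 0xac03000160189d5f00)))) (.nd (nat_lit 7) 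
(.nd (nat_lit 20) 
(.lf (nat_lit 61810176) (dlOf (nat_lit 2) (nat_lit 0x7a9140007e04001000200040009923682))) 
(.lf (nat_lit 8332800) (dlOf (nat_lit 1) (nat_lit 0x18008006400200140008513683)))) 
(.lf (nat_lit 61810304) (dlOf (nat_lit 2) (nat_lit 0x5528800158080168008013800200060009923983)))))) 
(.nd (nat_lit 11) (.nd (nat_lit 7) (.nd (nat_lit 9) (.nd (nat_lit 10) 
(.lf (nat_lit 58073344) (dlOf (nat_lit 1) (nat_lit 0x4200097b7a81))) 
(.lf (nat_lit 8271104) (dlOf (nat_lit 1) (nat_lit 0x400400020008519582)))) 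
(.lf (nat_lit 3492751104) (dlOf (nat_lit 2) (nat_lit 0x80800001502003200180f3b81)))) 
(.nd (nat_lit 12) (.lf (nat_lit 61810048) (dlOf (nat_lit 1) (nat_lit 0x7000400aa0009923582))) 
(.lf (nat_lit 19871104) (dlOf (nat_lit 1) (nat_lit 0x6400089d9901))))) (.nd (nat_lit 9) 
(.nd (nat_lit 7) (.lf (nat_lit 20330752) (dlOf (nat_lit 1) (nat_lit 0x8002000200089da982))) 
(.nd (nat_lit 12) (.lf (nat_lit 44509568) (dlOf (nat_lit 1) (nat_lit 0x400200020009324e82))) 
(.lf (nat_lit 19806592) (dlOf (nat_lit 1) (nat_lit 0x200289daf81))))) (.nd (nat_lit 19) 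
(.lf (nat_lit 20327296) (dlOf (nat_lit 1) (nat_lit 0x4002000200089d5c02))) 
(.lf (nat_lit 19803008) (dlOf (nat_lit 1) (nat_lit 0x4002000200089d5c02)))))))) (.nd (nat_lit 31) 
(.nd (nat_lit 20) (.nd (nat_lit 28) (.nd (nat_lit 16) (.nd (nat_lit 7) (.nd (nat_lit 19) 
(.nd (nat_lit 21) 
(.lf (nat_lit 537272336) (dlOf (nat_lit 1) (nat_lit 0x8008000800200020008070503))) 
(.lf (nat_lit 27664400) (dlOf (nat_lit 1) (nat_lit 0x10008000400200060008d10383)))) 
(.lf (nat_lit 11411472) (dlOf (nat_lit 2) (nat_lit 0x54000001358186a0500)))) (.nd (nat_lit 8) 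
(.nd (nat_lit 26) 
(.lf (nat_lit 134619280) (dlOf (nat_lit 2) (nat_lit 0x1f4076000150200020028090101))) 
(.lf (nat_lit 201728144) (dlOf (nat_lit 2) (nat_lit 0x1f4076000160200020028090101)))) 
(.lf (nat_lit 1745234320) (dlOf (nat_lit 1) (nat_lit 0x6200280e4e81))))) (.nd (nat_lit 22) 
(.nd (nat_lit 26) (.lf (nat_lit 1074208784) (dlOf (nat_lit 1) (nat_lit 0x4002000400080e0102))) 
(.lf (nat_lit 4362543120) (dlOf (nat_lit 1) (nat_lit 0x3400400080018090002)))) (.nd (nat_lit 10) 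
(.lf (nat_lit 13574160) (dlOf (nat_lit 1) (nat_lit 0x1780080004002001c0008730883))) 
(.lf (nat_lit 46607376) (dlOf (nat_lit 2) (nat_lit 0x1f97ec000ac04001c002000e0009385f82)))))) 
(.nd (nat_lit 27) (.nd (nat_lit 16) (.nd (nat_lit 21) (.nd (nat_lit 26) 
(.lf (nat_lit 4563804176) (dlOf (nat_lit 3) (nat_lit 0x4803c000240202be0330000c8180e0100))) 
(.lf (nat_lit 1409687568) (dlOf (nat_lit 1) (nat_lit 0x8008000800200020008070503)))) 
(.lf (nat_lit 1881546768) (dlOf (nat_lit 1) (nat_lit 0x20018f40001)))) (.nd (nat_lit 26) 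
(.lf (nat_lit 4563869712) (dlOf (nat_lit 1) (nat_lit 0x20028110081))) 
(.lf (nat_lit 1946624016) (dlOf (nat_lit 1) (nat_lit 0x4002000400080e0102))))) (.nd (nat_lit 10) 
(.nd (nat_lit 16) 
(.lf (nat_lit 4698021904) (dlOf (nat_lit 3) (nat_lit 0x4803c0000f0202be033000018180e0100))) 
(.nd (nat_lit 26) (.lf (nat_lit 4698087440) (dlOf (nat_lit 1) (nat_lit 0x20028110081))) 
(.lf (nat_lit 5838938128) (dlOf (nat_lit 1) (nat_lit 0x8008000800200020008220883))))) 
(.nd (nat_lit 8) (.lf (nat_lit 5771766800) (dlOf (nat_lit 1) (nat_lit 0x400200020008005f82))) 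
(.lf (nat_lit 1009132816) (dlOf (nat_lit 8) (nat_lit 0x680e3003003b0000d010013838c00041c40003304005a0e3002b03b0000c81001a838c00b00ec0003104003e0e3000c03b0000c010015038c00940ec000260400520e3002303b00008810035000800d400200240009083003))))))) 
(.nd (nat_lit 19) (.nd (nat_lit 22) (.nd (nat_lit 24) (.nd (nat_lit 26) 
(.lf (nat_lit 1343627280) (dlOf (nat_lit 1) (nat_lit 0x200282c0681))) 
(.lf (nat_lit 68558864) (dlOf (nat_lit 1) (nat_lit 0x80080004002000200085b0283)))) 
(.lf (nat_lit 18227216) (dlOf (nat_lit 1) (nat_lit 0x20028920281)))) (.nd (nat_lit 8) 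
(.nd (nat_lit 9) (.lf (nat_lit 5644304) (dlOf (nat_lit 2) (nat_lit 0x100000001b0183b0280))) 
(.lf (nat_lit 58139152) (dlOf (nat_lit 1) (nat_lit 0x800097c7b81)))) 
(.lf (nat_lit 47654160) (dlOf (nat_lit 1) (nat_lit 0x520029403001))))) (.nd (nat_lit 8) 
(.nd (nat_lit 10) (.nd (nat_lit 16) 
(.lf (nat_lit 25042960) (dlOf (nat_lit 1) (nat_lit 0x400200020008be0882))) 
(.lf (nat_lit 12525584) (dlOf (nat_lit 1) (nat_lit 0x200186d0681)))) 
(.lf (nat_lit 50209808) (dlOf (nat_lit 1) (nat_lit 0x2600294c2881)))) (.nd (nat_lit 7) 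
(.nd (nat_lit 10) (.lf (nat_lit 20848912) (dlOf (nat_lit 1) (nat_lit 0x200189e4981))) 
(.lf (nat_lit 69084432) (dlOf (nat_lit 2) (nat_lit 0x2cc0000003a02000600188a3001)))) 
(.lf (nat_lit 33434000) (dlOf (nat_lit 1) (nat_lit 0x20008f54e81))))))) (.nd (nat_lit 29) 
(.nd (nat_lit 16) (.nd (nat_lit 26) (.nd (nat_lit 20) (.nd (nat_lit 27) 
(.lf (nat_lit 2416320528) (dlOf (nat_lit 1) (nat_lit 0x80080004002000200080e0103))) 
(.nd (nat_lit 28) 
(.lf (nat_lit 3355844624) (dlOf (nat_lit 2) (nat_lit 0x30168002a4080160008001c00200900008120203))) 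
(.lf (nat_lit 2550538256) (dlOf (nat_lit 1) (nat_lit 0x80080004002000200080e0103))))) 
(.nd (nat_lit 19) (.lf (nat_lit 3491110928) (dlOf (nat_lit 1) (nat_lit 0x20018060481))) 
(.lf (nat_lit 3493732368) (dlOf (nat_lit 1) (nat_lit 0x5300080108002000e00081b0003))))) 
(.nd (nat_lit 19) (.nd (nat_lit 27) 
(.lf (nat_lit 3288735760) (dlOf (nat_lit 4) (nat_lit 0x480c00348204002006001a3f0200a403200d068180d0880))) 
(.lf (nat_lit 2617647120) (dlOf (nat_lit 5) (nat_lit 0x2c05c0004602002202e0001b0100290170000540802400000000004001800200160008130102)))) 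
(.lf (nat_lit 3557695504) (dlOf (nat_lit 1) (nat_lit 0x30002000400082b0282))))) (.nd (nat_lit 7) 
(.nd (nat_lit 11) (.nd (nat_lit 27) 
(.lf (nat_lit 6442917904) (dlOf (nat_lit 1) (nat_lit 0x8008000800200020008220883))) 
(.lf (nat_lit 3624345616) (dlOf (nat_lit 3) (nat_lit 0xd01a000900000348a08000806c0002034001300000690c1800c8008001400200520008170883)))) 
(.lf (nat_lit 3492751376) (dlOf (nat_lit 4) (nat_lit 0x5803a0005502005201d0002881001701000013c080170008011c002007400080f4703)))) 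
(.nd (nat_lit 8) 
(.lf (nat_lit 3221692560) (dlOf (nat_lit 2) (nat_lit 0x5b80000000004023400200160008170102))) 
(.lf (nat_lit 3490130320) (dlOf (nat_lit 1) (nat_lit 0x400400020018004e82)))))) (.nd (nat_lit 16) 
(.nd (nat_lit 9) (.nd (nat_lit 27) (.nd (nat_lit 20) 
(.lf (nat_lit 4026933264) (dlOf (nat_lit 4) (nat_lit 0x480c003b4c04002006001da40200a403200eb70180d0880))) 
(.lf (nat_lit 2752913424) (dlOf (nat_lit 1) (nat_lit 0x20018060481)))) (.nd (nat_lit 19) 
(.lf (nat_lit 3892715536) (dlOf (nat_lit 11) (nat_lit 0xa05a005e70100c9016002ee00804b80b00176a0401ac05800bb302012c02c005d88100d6016002eb80804b80b00175a0402c805800ba702000c02c005a4810013016002cfc08010800801c4002007e00081d0483))) 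
(.lf (nat_lit 2819498000) (dlOf (nat_lit 1) (nat_lit 0x30002000400082b0282))))) (.nd (nat_lit 7) 
(.lf (nat_lit 2752389648) (dlOf (nat_lit 13) (nat_lit 0x980860025e01009b0430012e80804d02180096204025410c004b002013e0860025381008904300129408042822402001100049f04011808900840440012781004482240210110004950400100880024a01008e0448044022000926080008110004920200060018018401))) 
(.nd (nat_lit 27) (.lf (nat_lit 2751866768) (dlOf (nat_lit 2) (nat_lit 0x208800007018004200))) 
(.lf (nat_lit 2886084496) (dlOf (nat_lit 1) (nat_lit 0x40028144201)))))) (.nd (nat_lit 7) 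
(.nd (nat_lit 9) (.nd (nat_lit 26) 
(.lf (nat_lit 2819039248) (dlOf (nat_lit 1) (nat_lit 0x400200020008160382))) 
(.lf (nat_lit 2886148112) (dlOf (nat_lit 3) (nat_lit 0xd01a0009000003b5408000806c000203400130000076a01800c8008001400200520008170883)))) 
(.lf (nat_lit 2752455184) (dlOf (nat_lit 2) (nat_lit 0x1c2480025d018018400)))) (.nd (nat_lit 8) 
(.lf (nat_lit 3959890064) (dlOf (nat_lit 2) (nat_lit 0x5b80000000004023400200160008170102))) 
(.nd (nat_lit 9) (.lf (nat_lit 4027001232) (dlOf (nat_lit 1) (nat_lit 0x40004000c00080f4e82))) 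
(.lf (nat_lit 2751932304) (dlOf (nat_lit 2) (nat_lit 0x102200001c04000400200020008004202))))))))))) 
(.nd (nat_lit 4) (.nd (nat_lit 16) (.nd (nat_lit 18) (.nd (nat_lit 30) (.nd (nat_lit 19) 
(.nd (nat_lit 8) (.nd (nat_lit 23) (.nd (nat_lit 7) 
(.lf (nat_lit 4630650944) (dlOf (nat_lit 1) (nat_lit 0x400400020008040482))) 
(.lf (nat_lit 268574912) (dlOf (nat_lit 1) (nat_lit 0x140028081701)))) (.nd (nat_lit 22) 
(.lf (nat_lit 25305152) (dlOf (nat_lit 2) (nat_lit 0x3f22c00298700003e028bf0b80))) 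
(.lf (nat_lit 12722240) (dlOf (nat_lit 1) (nat_lit 0x80080004002000200086e0c83))))) 
(.nd (nat_lit 7) (.nd (nat_lit 26) 
(.lf (nat_lit 6442592064) (dlOf (nat_lit 2) (nat_lit 0x1a034000168180f3e00))) 
(.lf (nat_lit 469903168) (dlOf (nat_lit 1) (nat_lit 0x60008003e01)))) 
(.lf (nat_lit 3154256320) (dlOf (nat_lit 3) (nat_lit 0x381a000140cc0002000000808300060340003f40803b8008000800200100008137003))))) 
(.nd (nat_lit 9) (.nd (nat_lit 20) (.nd (nat_lit 7) (.nd (nat_lit 22) 
(.lf (nat_lit 537534528) (dlOf (nat_lit 1) (nat_lit 0x2c002001800080a0d02))) 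
(.lf (nat_lit 21635136) (dlOf (nat_lit 1) (nat_lit 0x180080004002002a0008a51683)))) 
(.lf (nat_lit 25829568) (dlOf (nat_lit 1) (nat_lit 0x8008000400200020008c10403)))) 
(.nd (nat_lit 24) (.lf (nat_lit 10100800) (dlOf (nat_lit 1) (nat_lit 0x80080004002000200085b0783))) 
(.lf (nat_lit 60432448) (dlOf (nat_lit 1) (nat_lit 0x400200020009860502))))) (.nd (nat_lit 8) 
(.lf (nat_lit 36317760) (dlOf (nat_lit 1) (nat_lit 0x8008001400200020009075203))) (.nd (nat_lit 26) 
(.lf (nat_lit 665408) (dlOf (nat_lit 2) (nat_lit 0x34ac3c0006404005400200060008003e02))) 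
(.lf (nat_lit 2752128832) (dlOf (nat_lit 1) (nat_lit 0x31000401060008003e02))))))) 
(.nd (nat_lit 26) (.nd (nat_lit 7) (.nd (nat_lit 22) (.nd (nat_lit 27) 
(.lf (nat_lit 4026671168) (dlOf (nat_lit 13) (nat_lit 0xa00100000a00802380800004c0402d00260002502000401e003e00980008c100d200800003a040008040000190203ea020001b00e8071002c000300c000c0400001302035002000b40058000141002b8080000060406440400000202041a020013100580000010186800801a400200ac0008020783))) 
(.lf (nat_lit 2013405248) (dlOf (nat_lit 3) (nat_lit 0x40060002000002854100018018000800000a140400020028051681)))) 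
(.lf (nat_lit 1346510912) (dlOf (nat_lit 1) (nat_lit 0x400200020008f80502)))) (.nd (nat_lit 10) 
(.lf (nat_lit 3758236096) (dlOf (nat_lit 2) (nat_lit 0x16007000500300022208015800400140018107002))) 
(.lf (nat_lit 3221368256) (dlOf (nat_lit 1) (nat_lit 0x400400020008116d02))))) (.nd (nat_lit 29) 
(.nd (nat_lit 19) (.nd (nat_lit 31) 
(.lf (nat_lit 1140990016) (dlOf (nat_lit 3) (nat_lit 0x4006000200000123010001801800080000048b0400020028051681))) 
(.lf (nat_lit 3288473664) (dlOf (nat_lit 13) (nat_lit 0xa00100000a00802380800004c0402d00260002502000401e003e00980008c100d200800003a0400080400001b0203ea020001b00e8071002c000300c000c0400001302035002000b40058000141002b8080000060406440400000202041a020013100580000010186800801a400200ac0008020783)))) 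
(.lf (nat_lit 1409949760) (dlOf (nat_lit 2) (nat_lit 0x3004c0000b0180a0d80)))) (.nd (nat_lit 9) 
(.nd (nat_lit 19) (.lf (nat_lit 6107045952) (dlOf (nat_lit 1) (nat_lit 0x400400020008040482))) 
(.lf (nat_lit 1678385216) (dlOf (nat_lit 1) (nat_lit 0x300080038002001a0008201783)))) 
(.lf (nat_lit 3959568960) (dlOf (nat_lit 6) (nat_lit 0x3101c001a8058000ee0800d805e00880140003882004d017802880b8000e008000c05e000802e00031820003017800a00b8000c2080138004012a000811b482))))))) 
(.nd (nat_lit 28) (.nd (nat_lit 7) (.nd (nat_lit 20) (.nd (nat_lit 21) (.nd (nat_lit 22) 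
(.lf (nat_lit 3288735808) (dlOf (nat_lit 3) (nat_lit 0x8c0400007c020034020000170180d0b80))) 
(.lf (nat_lit 54927424) (dlOf (nat_lit 2) (nat_lit 0x2100000003c0200020019670501)))) 
(.lf (nat_lit 48635968) (dlOf (nat_lit 1) (nat_lit 0x20029420601)))) (.nd (nat_lit 12) 
(.lf (nat_lit 26615872) (dlOf (nat_lit 1) (nat_lit 0x1fc00200ca0008c50502))) 
(.lf (nat_lit 8269888) (dlOf (nat_lit 1) (nat_lit 0x4000401200008517d02))))) (.nd (nat_lit 8) 
(.nd (nat_lit 9) (.nd (nat_lit 10) 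
(.lf (nat_lit 2818973888) (dlOf (nat_lit 1) (nat_lit 0x1800400040018130402))) 
(.lf (nat_lit 58598592) (dlOf (nat_lit 1) (nat_lit 0x200297e2d01)))) 
(.lf (nat_lit 8272576) (dlOf (nat_lit 1) (nat_lit 0x40020002000851b982)))) (.nd (nat_lit 12) 
(.nd (nat_lit 19) (.lf (nat_lit 4362478016) (dlOf (nat_lit 2) (nat_lit 0x2e00000000018090880))) 
(.lf (nat_lit 2753438144) (dlOf (nat_lit 2) (nat_lit 0x130e88000000800f0008000400200460008090883)))) 
(.lf (nat_lit 8270272) (dlOf (nat_lit 1) (nat_lit 0x10008000800200020008518603)))))) 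
(.nd (nat_lit 29) (.nd (nat_lit 20) (.nd (nat_lit 22) (.nd (nat_lit 27) 
(.lf (nat_lit 4563804224) (dlOf (nat_lit 3) (nat_lit 0x1805200a0c020002029005058180e1680))) 
(.lf (nat_lit 4698021952) (dlOf (nat_lit 3) (nat_lit 0x18052004760200020290023a8180e1680)))) 
(.lf (nat_lit 1346773056) (dlOf (nat_lit 2) (nat_lit 0xd02ac008214300290660008f01801880080088002005c0009000603)))) 
(.nd (nat_lit 7) 
(.lf (nat_lit 3493214272) (dlOf (nat_lit 1) (nat_lit 0x80080004002000200080fa683))) 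
(.lf (nat_lit 3491635648) (dlOf (nat_lit 2) (nat_lit 0x130df8000000800f0008000400200460008090883))))) 
(.nd (nat_lit 7) (.nd (nat_lit 21) (.nd (nat_lit 27) 
(.lf (nat_lit 4026933312) (dlOf (nat_lit 3) (nat_lit 0x8c0400007c0200340200001a0180d0b80))) 
(.lf (nat_lit 5234892864) (dlOf (nat_lit 1) (nat_lit 0x20028140d81)))) 
(.lf (nat_lit 1881546816) (dlOf (nat_lit 1) (nat_lit 0x5c0008f40601)))) (.nd (nat_lit 8) 
(.nd (nat_lit 9) (.lf (nat_lit 4096663744) (dlOf (nat_lit 1) (nat_lit 0x18004000c0008155802))) 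
(.lf (nat_lit 6376270528) (dlOf (nat_lit 1) (nat_lit 0x400200020008095782)))) 
(.lf (nat_lit 4228260288) (dlOf (nat_lit 2) (nat_lit 0x2e00000000018090880)))))))) 
(.nd (nat_lit 26) (.nd (nat_lit 20) (.nd (nat_lit 31) (.nd (nat_lit 7) (.nd (nat_lit 27) 
(.nd (nat_lit 30) (.nd (nat_lit 11) 
(.lf (nat_lit 14884928) (dlOf (nat_lit 1) (nat_lit 0x20018790501))) 
(.lf (nat_lit 211008) (dlOf (nat_lit 1) (nat_lit 0x2001800a681)))) (.nd (nat_lit 18) 
(.lf (nat_lit 1342382144) (dlOf (nat_lit 2) (nat_lit 0x30924000837a000080400060028020781))) 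
(.lf (nat_lit 1074208832) (dlOf (nat_lit 2) (nat_lit 0x20148000840800080080008002000400080e0e03))))) 
(.nd (nat_lit 19) (.lf (nat_lit 134422592) (dlOf (nat_lit 1) (nat_lit 0x1400400280008020782))) 
(.lf (nat_lit 134946880) (dlOf (nat_lit 2) (nat_lit 0x880740005702000400180e0e01))))) 
(.nd (nat_lit 9) (.nd (nat_lit 10) 
(.lf (nat_lit 5772091584) (dlOf (nat_lit 1) (nat_lit 0x260028075801))) 
(.lf (nat_lit 19870912) (dlOf (nat_lit 1) (nat_lit 0x90004002e00089d9502)))) 
(.lf (nat_lit 537077440) (dlOf (nat_lit 1) (nat_lit 0x20028003a81))))) (.nd (nat_lit 8) 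
(.nd (nat_lit 7) (.nd (nat_lit 18) 
(.lf (nat_lit 6442655808) (dlOf (nat_lit 1) (nat_lit 0x20008120d81))) 
(.lf (nat_lit 6442917952) (dlOf (nat_lit 1) (nat_lit 0x440008220b81)))) 
(.lf (nat_lit 2818781888) (dlOf (nat_lit 1) (nat_lit 0x400200600008128c82)))) (.nd (nat_lit 7) 
(.nd (nat_lit 10) (.lf (nat_lit 3087212864) (dlOf (nat_lit 2) (nat_lit 0x6000a00000018154c00))) 
(.lf (nat_lit 3489869120) (dlOf (nat_lit 1) (nat_lit 0x400400060008006902)))) 
(.lf (nat_lit 3221692864) (dlOf (nat_lit 2) (nat_lit 0x9800f0065c0000005c0400d00018170881)))))) 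
(.nd (nat_lit 8) (.nd (nat_lit 19) (.nd (nat_lit 18) 
(.lf (nat_lit 13836352) (dlOf (nat_lit 1) (nat_lit 0x560018750001))) 
(.lf (nat_lit 9904192) (dlOf (nat_lit 3) (nat_lit 0x2d348a0121a430001d20800168e400ad61002d748a011ba430002d1c8015a818067800814a0002033c0008591683)))) 
(.nd (nat_lit 24) (.lf (nat_lit 4137024) (dlOf (nat_lit 1) (nat_lit 0x8008000400200020008290003))) 
(.lf (nat_lit 20914240) (dlOf (nat_lit 2) (nat_lit 0xaa858c000ba040004004000200089f0502))))) 
(.nd (nat_lit 7) (.nd (nat_lit 10) 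
(.lf (nat_lit 20130624) (dlOf (nat_lit 1) (nat_lit 0x4002000200089d5c02))) 
(.lf (nat_lit 3493013312) (dlOf (nat_lit 2) (nat_lit 0x19601c000168180f3e00)))) (.nd (nat_lit 19) 
(.lf (nat_lit 11739584) (dlOf (nat_lit 2) (nat_lit 0x1000000000002000a00086c0881))) 
(.lf (nat_lit 3491439040) (dlOf (nat_lit 2) (nat_lit 0x40b9000000080008008000800200140008090883))))))) 
(.nd (nat_lit 28) (.nd (nat_lit 8) (.nd (nat_lit 18) (.nd (nat_lit 19) 
(.lf (nat_lit 201531456) (dlOf (nat_lit 1) (nat_lit 0x1400400280008020782))) 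
(.lf (nat_lit 202055744) (dlOf (nat_lit 2) (nat_lit 0x880740005702000400180e0e01)))) 
(.nd (nat_lit 7) 
(.lf (nat_lit 738664512) (dlOf (nat_lit 1) (nat_lit 0x880080004002000e00080d0483))) 
(.lf (nat_lit 2754559168) (dlOf (nat_lit 1) (nat_lit 0x4004008000080fc202))))) (.nd (nat_lit 7) 
(.nd (nat_lit 9) (.lf (nat_lit 3825410368) (dlOf (nat_lit 2) (nat_lit 0x6000a00000018154c00))) 
(.lf (nat_lit 1141058368) (dlOf (nat_lit 3) (nat_lit 0x1e20260003f0100440130000a80800600080014002000c0008095c03)))) 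
(.nd (nat_lit 18) 
(.lf (nat_lit 2753241536) (dlOf (nat_lit 2) (nat_lit 0x40b9000000080008008000800200140008090883))) 
(.lf (nat_lit 3959890368) (dlOf (nat_lit 2) (nat_lit 0x9800f0065c0000005b0400d00018170881)))))) 
(.nd (nat_lit 18) (.nd (nat_lit 7) (.nd (nat_lit 30) 
(.lf (nat_lit 469966912) (dlOf (nat_lit 2) (nat_lit 0x30924000837a000080400060028020781))) 
(.lf (nat_lit 5838676032) (dlOf (nat_lit 1) (nat_lit 0x20008120d81)))) (.nd (nat_lit 8) 
(.nd (nat_lit 9) (.lf (nat_lit 6376071360) (dlOf (nat_lit 1) (nat_lit 0x260028075801))) 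
(.lf (nat_lit 3556979392) (dlOf (nat_lit 1) (nat_lit 0x400200020008128c82)))) 
(.lf (nat_lit 3556981184) (dlOf (nat_lit 1) (nat_lit 0xc40040024000812af82))))) (.nd (nat_lit 29) 
(.nd (nat_lit 19) (.lf (nat_lit 5838938176) (dlOf (nat_lit 1) (nat_lit 0x440008220b81))) 
(.lf (nat_lit 473899072) (dlOf (nat_lit 2) (nat_lit 0x8f0a68083036402141b0012007c00123848fc0600)))) 
(.nd (nat_lit 27) 
(.lf (nat_lit 1946624064) (dlOf (nat_lit 2) (nat_lit 0x20148000840800080080008002000400080e0e03))) 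
(.lf (nat_lit 4228325440) (dlOf (nat_lit 1) (nat_lit 0xe0018090001))))))))) (.nd (nat_lit 16) 
(.nd (nat_lit 30) (.nd (nat_lit 26) (.nd (nat_lit 18) (.nd (nat_lit 24) (.nd (nat_lit 7) 
(.nd (nat_lit 8) (.lf (nat_lit 45752400) (dlOf (nat_lit 1) (nat_lit 0xd0002005a0009360702))) 
(.lf (nat_lit 11673936) (dlOf (nat_lit 2) (nat_lit 0xa5094000a2040210004003000086c0602)))) 
(.nd (nat_lit 11) 
(.lf (nat_lit 4697759952) (dlOf (nat_lit 1) (nat_lit 0x40008001000200020008090903))) 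
(.lf (nat_lit 671230160) (dlOf (nat_lit 1) (nat_lit 0x20008144a01))))) (.nd (nat_lit 9) 
(.nd (nat_lit 12) (.lf (nat_lit 52568144) (dlOf (nat_lit 1) (nat_lit 0x400400020009550702))) 
(.lf (nat_lit 20066384) (dlOf (nat_lit 1) (nat_lit 0x4002000200089d7d82)))) (.nd (nat_lit 8) 
(.lf (nat_lit 20068944) (dlOf (nat_lit 1) (nat_lit 0xc2000805dc002009e00089db683))) 
(.lf (nat_lit 20063056) (dlOf (nat_lit 2) (nat_lit 0x737880057b4e000190289d2480)))))) 
(.nd (nat_lit 23) (.nd (nat_lit 7) (.nd (nat_lit 19) 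
(.lf (nat_lit 17178704) (dlOf (nat_lit 2) (nat_lit 0x1a643f0002f8188e0200))) 
(.lf (nat_lit 21897296) (dlOf (nat_lit 1) (nat_lit 0x180028a81001)))) 
(.lf (nat_lit 134619600) (dlOf (nat_lit 1) (nat_lit 0x40018090a01)))) (.nd (nat_lit 20) 
(.nd (nat_lit 21) 
(.lf (nat_lit 29761616) (dlOf (nat_lit 2) (nat_lit 0xd87450005318403693a80005f0600100018e30201))) 
(.lf (nat_lit 61218896) (dlOf (nat_lit 1) (nat_lit 0x200298e0701)))) (.nd (nat_lit 7) 
(.lf (nat_lit 26615888) (dlOf (nat_lit 1) (nat_lit 0x1800200020008c50702))) 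
(.lf (nat_lit 43394256) (dlOf (nat_lit 1) (nat_lit 0x8004000600092a2d82))))))) (.nd (nat_lit 27) 
(.nd (nat_lit 29) (.nd (nat_lit 7) (.nd (nat_lit 9) 
(.lf (nat_lit 6509961296) (dlOf (nat_lit 2) (nat_lit 0x880c80005a04000800400020018171002))) 
(.lf (nat_lit 68823632) (dlOf (nat_lit 2) (nat_lit 0xa0fc0000e818785280)))) 
(.lf (nat_lit 4362478032) (dlOf (nat_lit 6) (nat_lit 0x32c033000e016800080100bb00cc0003e0408140660001d0201620330000e0101d201980006c080018008001400200020008090a03)))) 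
(.nd (nat_lit 28) (.nd (nat_lit 19) 
(.lf (nat_lit 2752651344) (dlOf (nat_lit 4) (nat_lit 0x3f88a0020444c00fe2170002783008211400420898020842e0004d0600082280005113000a885c000840c00b8004006c0018031002))) 
(.lf (nat_lit 2754224208) (dlOf (nat_lit 1) (nat_lit 0x200280d0d01)))) (.nd (nat_lit 7) 
(.lf (nat_lit 5167521872) (dlOf (nat_lit 5) (nat_lit 0x7806800200300005e04001a0180002e81000700c00016c080020060000b404002000400700018080502))) 
(.lf (nat_lit 872554704) (dlOf (nat_lit 1) (nat_lit 0x20028090901)))))) (.nd (nat_lit 7) 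
(.nd (nat_lit 9) (.nd (nat_lit 20) 
(.lf (nat_lit 4496695376) (dlOf (nat_lit 5) (nat_lit 0x6e0118001240800580c80008a0401d806800a803300c0019000f80c002f00460003f0a017c03201450110000d01010d80080024002002a0008120503))) 
(.lf (nat_lit 1008083024) (dlOf (nat_lit 1) (nat_lit 0x4002000200089c0702)))) 
(.lf (nat_lit 2617390672) (dlOf (nat_lit 14) (nat_lit 0x300bc004405c009cd04004602c0009681001e0160004b00801000c4007c0580011f04001202c0008d81003c018800f80b00023208001c0580011602003c02c000810100590178000f40803280bc0007804001405e0003102007002f0001581002801600000008022800801d8002002600080a9c03)))) 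
(.nd (nat_lit 9) (.nd (nat_lit 10) 
(.lf (nat_lit 201728464) (dlOf (nat_lit 1) (nat_lit 0x40018090a01))) 
(.lf (nat_lit 469906896) (dlOf (nat_lit 2) (nat_lit 0x60b2800080080028008001000200060008009b03)))) 
(.nd (nat_lit 8) 
(.lf (nat_lit 2617385680) (dlOf (nat_lit 16) (nat_lit 0x28a018815e80ac00076080154062014e02b0001d02008e0158000e40800680ac000700400980560003302014c0340009018801080a0005803a0146013000190500210158000bc0800200ac0005c0400200560002d02007802b000158100420158000680803500ac000320400400560001802004802b0000a010004015800048080ce000802f4002002400080a2003))) 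
(.lf (nat_lit 2886084560) (dlOf (nat_lit 1) (nat_lit 0x20028144501)))))))) (.nd (nat_lit 29) 
(.nd (nat_lit 31) (.nd (nat_lit 18) (.nd (nat_lit 8) (.nd (nat_lit 9) 
(.lf (nat_lit 5772025936) (dlOf (nat_lit 2) (nat_lit 0xc02800032018040500))) 
(.lf (nat_lit 5637285456) (dlOf (nat_lit 1) (nat_lit 0x600180d3881)))) 
(.lf (nat_lit 1409428816) (dlOf (nat_lit 4) (nat_lit 0xc0be0001302004405f001401380138018000200c00ec0be0000e0200640028006a01)))) 
(.nd (nat_lit 22) (.nd (nat_lit 28) 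
(.lf (nat_lit 1074143312) (dlOf (nat_lit 2) (nat_lit 0x12027000188180c1900))) 
(.lf (nat_lit 5637546064) (dlOf (nat_lit 3) (nat_lit 0x3601d0003a81002700e8001d00800480080084002003a0008100503)))) 
(.lf (nat_lit 1346773072) (dlOf (nat_lit 1) (nat_lit 0x18008001400200040009000703))))) 
(.nd (nat_lit 11) (.nd (nat_lit 28) (.nd (nat_lit 8) 
(.lf (nat_lit 3288735824) (dlOf (nat_lit 8) (nat_lit 0x70100000a404000c0140005102002401f002700500013c1002500800009a04015404000046020084020000228100500100001100800080080024002003c00080d0d03))) 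
(.lf (nat_lit 3355583312) (dlOf (nat_lit 16) (nat_lit 0x28a01a015e80b800076080154068014e02e0001d02008e0170000e40800680b80007004009805c0003302001203400a6015801080a0005803a0146013000190500210170000bc0800200b80005c04002005c0002d02007802e000158100420170000680803500b80003204004005c0001802004802e0000a010004017000048080ce000802f4002002400080a2483)))) 
(.nd (nat_lit 19) 
(.lf (nat_lit 3490848848) (dlOf (nat_lit 4) (nat_lit 0x3f884c020442200fe2020002b030082109804208440208404000540600082130005108800a8808000920c00b8004006c0018031002))) 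
(.lf (nat_lit 3492421712) (dlOf (nat_lit 1) (nat_lit 0x200280d0d01))))) (.nd (nat_lit 7) 
(.lf (nat_lit 3490065744) (dlOf (nat_lit 2) (nat_lit 0x581b6002a0ab00008028006a00))) 
(.nd (nat_lit 9) 
(.lf (nat_lit 3221372112) (dlOf (nat_lit 3) (nat_lit 0xc80f80010204002401c0007f020002001811c281))) 
(.lf (nat_lit 3556911824) (dlOf (nat_lit 1) (nat_lit 0x14002000800080d5882))))))) (.nd (nat_lit 18) 
(.nd (nat_lit 9) (.nd (nat_lit 19) (.nd (nat_lit 7) 
(.lf (nat_lit 3959563344) (dlOf (nat_lit 2) (nat_lit 0x600e00ae8818112880))) 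
(.lf (nat_lit 1610752208) (dlOf (nat_lit 1) (nat_lit 0x1800400080008090902)))) (.nd (nat_lit 27) 
(.lf (nat_lit 1678385232) (dlOf (nat_lit 3) (nat_lit 0x1d02b0000400801c01580001a040004002000e0008201902))) 
(.lf (nat_lit 6376005712) (dlOf (nat_lit 2) (nat_lit 0xc02800030818040500))))) (.nd (nat_lit 7) 
(.nd (nat_lit 11) (.lf (nat_lit 1610753616) (dlOf (nat_lit 1) (nat_lit 0x400200020008093882))) 
(.lf (nat_lit 4228001360) (dlOf (nat_lit 1) (nat_lit 0x20018007181)))) (.nd (nat_lit 10) 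
(.lf (nat_lit 6241266640) (dlOf (nat_lit 2) (nat_lit 0x401d000168180d5d80))) 
(.lf (nat_lit 1677862864) (dlOf (nat_lit 1) (nat_lit 0x9800400040018114502)))))) (.nd (nat_lit 7) 
(.nd (nat_lit 32) (.nd (nat_lit 21) 
(.lf (nat_lit 4026933328) (dlOf (nat_lit 8) (nat_lit 0x701000009604000c0140004a02002401f00270050001201002500800008c0401540400003f0200840200001f0100500100000f40800080080024002003c00080d0d03))) 
(.lf (nat_lit 1881546832) (dlOf (nat_lit 10) (nat_lit 0x24007180cb03880c980f6004807a0001f84017003d8000f80801203880007a04039c1c6019607b0001b02000303d8000d00800c038c003c0f60000f0402480e3011c03d80001c1003501ec000080400d81c6006807b00000028f40700)))) 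
(.nd (nat_lit 26) 
(.lf (nat_lit 5905981520) (dlOf (nat_lit 2) (nat_lit 0x880c80005804000800400020018171002))) 
(.lf (nat_lit 6241525840) (dlOf (nat_lit 3) (nat_lit 0x3601d0003a81002700e8001d00800480080084002003a0008100503))))) 
(.nd (nat_lit 8) (.nd (nat_lit 9) 
(.lf (nat_lit 6377316560) (dlOf (nat_lit 1) (nat_lit 0x4002000200080c1b82))) 
(.lf (nat_lit 1745234640) (dlOf (nat_lit 1) (nat_lit 0x5400280e5881)))) 
(.lf (nat_lit 4228260304) (dlOf (nat_lit 6) (nat_lit 0x32c032000e016000080100bb00c80003e0408140640001d0201620320000e0101d201900006c080018008001400200020008090a03)))))))) 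
(.nd (nat_lit 8) (.nd (nat_lit 18) (.nd (nat_lit 26) (.nd (nat_lit 7) (.nd (nat_lit 22) 
(.nd (nat_lit 20) (.lf (nat_lit 6576873552) (dlOf (nat_lit 1) (nat_lit 0x20028171001))) 
(.lf (nat_lit 3490914384) (dlOf (nat_lit 1) (nat_lit 0x1400200020008031002)))) (.nd (nat_lit 9) 
(.lf (nat_lit 63119440) (dlOf (nat_lit 1) (nat_lit 0x1600299e0701))) 
(.lf (nat_lit 32189008) (dlOf (nat_lit 1) (nat_lit 0x20008ef5281))))) (.nd (nat_lit 9) 
(.nd (nat_lit 10) (.lf (nat_lit 2818781392) (dlOf (nat_lit 1) (nat_lit 0x200028128081))) 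
(.lf (nat_lit 3489869008) (dlOf (nat_lit 1) (nat_lit 0x1a0028006401)))) 
(.lf (nat_lit 2818783952) (dlOf (nat_lit 1) (nat_lit 0x2002812b981))))) (.nd (nat_lit 27) 
(.nd (nat_lit 20) (.nd (nat_lit 7) 
(.lf (nat_lit 5972893776) (dlOf (nat_lit 1) (nat_lit 0x20028171001))) 
(.lf (nat_lit 3556978896) (dlOf (nat_lit 1) (nat_lit 0x200028128081)))) (.nd (nat_lit 29) 
(.lf (nat_lit 68362320) (dlOf (nat_lit 2) (nat_lit 0x3680400005f0200160018570201))) 
(.lf (nat_lit 2752716880) (dlOf (nat_lit 1) (nat_lit 0x1400200020008031002))))) (.nd (nat_lit 9) 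
(.lf (nat_lit 4496498768) (dlOf (nat_lit 5) (nat_lit 0x6e005800118080058068000840401d803800a801b00c000d000f806002f00160003f0a017c01a01450050000d01010d80080024002002a0008090503))) 
(.nd (nat_lit 10) (.lf (nat_lit 472066640) (dlOf (nat_lit 1) (nat_lit 0x400400020008805282))) 
(.lf (nat_lit 4764935760) (dlOf (nat_lit 1) (nat_lit 0x400400020008093882))))))) (.nd (nat_lit 19) 
(.nd (nat_lit 26) (.nd (nat_lit 20) (.nd (nat_lit 27) 
(.lf (nat_lit 1879515216) (dlOf (nat_lit 10) (nat_lit 0x11615500720a9800182600004c0c029c2aa011a000000128200150aa8000880803a0554000420402542aa0002002009c1550034000000060100830000000080401cc0000000202002608600950000000001000680080254002000c0008190703))) 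
(.lf (nat_lit 3624345680) (dlOf (nat_lit 4) (nat_lit 0xc082000a03400130000001581800080d80014068001c0000002a03008c00000012408001000800e0002003a0008171003)))) 
(.lf (nat_lit 35070032) (dlOf (nat_lit 3) (nat_lit 0x8b930001e01001f5e30000e4080018008001400200080008fd0703)))) 
(.nd (nat_lit 27) 
(.lf (nat_lit 3557236816) (dlOf (nat_lit 4) (nat_lit 0x578000000080401300000000202000a0170001005801c0000000000c002c00200080008170702))) 
(.lf (nat_lit 2886148176) (dlOf (nat_lit 4) (nat_lit 0xc082000a034001300000013c1800080d80014068001c0000002683008c00000010808001000800e0002003a0008171003))))) 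
(.nd (nat_lit 20) (.nd (nat_lit 7) (.nd (nat_lit 22) 
(.lf (nat_lit 470753360) (dlOf (nat_lit 4) (nat_lit 0x3012d000110100130000000100800482f80000004006c00400020018170702))) 
(.lf (nat_lit 13574224) (dlOf (nat_lit 2) (nat_lit 0x800000024018730d00)))) 
(.lf (nat_lit 19869904) (dlOf (nat_lit 1) (nat_lit 0x4004000400189d8082)))) (.nd (nat_lit 9) 
(.lf (nat_lit 25108560) (dlOf (nat_lit 1) (nat_lit 0x80008011c002000e0008be1603))) 
(.nd (nat_lit 21) 
(.lf (nat_lit 1008675408) (dlOf (nat_lit 2) (nat_lit 0x180000001d0200060018ef5281))) 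
(.lf (nat_lit 1346316880) (dlOf (nat_lit 8) (nat_lit 0xc01c0002281000600e000110080028070000780400140380003b02000216800040b30000dc1000385a000042cc001215800030ab00040514001819e000c01c000500d0000d84000f85a000402b000021450011067800e00700000014008c00400040008f05282)))))))) 
(.nd (nat_lit 7) (.nd (nat_lit 10) (.nd (nat_lit 11) (.nd (nat_lit 12) (.nd (nat_lit 18) 
(.lf (nat_lit 11739472) (dlOf (nat_lit 2) (nat_lit 0x4e633000198186c0600))) 
(.lf (nat_lit 3493273936) (dlOf (nat_lit 1) (nat_lit 0x280018104d81)))) 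
(.lf (nat_lit 2818781520) (dlOf (nat_lit 1) (nat_lit 0x1440028128301)))) (.nd (nat_lit 9) 
(.lf (nat_lit 8071504) (dlOf (nat_lit 1) (nat_lit 0x180018514d81))) 
(.lf (nat_lit 19868496) (dlOf (nat_lit 1) (nat_lit 0x400189d5c01))))) (.nd (nat_lit 9) 
(.nd (nat_lit 18) 
(.lf (nat_lit 1543712080) (dlOf (nat_lit 4) (nat_lit 0x4c0580088023002500e80278060012c020002e008001a002800d000801080000001512000c023001200e8015806000040200001308003802c0038011801280740120030007c010003b0000000143001a0008008800200280008146a03))) 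
(.lf (nat_lit 3490131280) (dlOf (nat_lit 2) (nat_lit 0x5008600008018006a00)))) (.nd (nat_lit 11) 
(.lf (nat_lit 8599376) (dlOf (nat_lit 1) (nat_lit 0x2001851a201))) 
(.lf (nat_lit 2818781008) (dlOf (nat_lit 2) (nat_lit 0x100d80098204001c00200160008127782)))))) 
(.nd (nat_lit 18) (.nd (nat_lit 9) (.nd (nat_lit 20) 
(.lf (nat_lit 1611342288) (dlOf (nat_lit 1) (nat_lit 0x60008137b01))) (.nd (nat_lit 26) 
(.lf (nat_lit 3491439056) (dlOf (nat_lit 2) (nat_lit 0x2a8668015432000ae0d3005505c002980480000014000800200060008090a02))) 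
(.lf (nat_lit 2753241552) (dlOf (nat_lit 2) (nat_lit 0x2a8660015431c00aa0e80057062802980480000014000800200060008090a02))))) 
(.nd (nat_lit 27) (.lf (nat_lit 537077712) (dlOf (nat_lit 1) (nat_lit 0x20028004501))) 
(.lf (nat_lit 671295440) (dlOf (nat_lit 1) (nat_lit 0x20018144501))))) (.nd (nat_lit 9) 
(.nd (nat_lit 11) (.nd (nat_lit 26) 
(.lf (nat_lit 3221692880) (dlOf (nat_lit 5) (nat_lit 0x840aa00ea01e007c005001a80000003210015801400100000000c02003402a802e0078019001400320000000b8400d902a80b88144009009401f0049017801a80c5007c05d403c022c006003b00000000048039000800f400200560008170a03))) 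
(.lf (nat_lit 3959890384) (dlOf (nat_lit 5) (nat_lit 0x840aa00ea01e007c005001a80000003210015801400100000000c02003402a802e0078019001400320000000b8400d902a80b88144009009401f0049017801a80c5007c05d403c022c006003b00000000048039000800f400200560008170a03)))) 
(.lf (nat_lit 57092560) (dlOf (nat_lit 1) (nat_lit 0x140029794e81)))) (.nd (nat_lit 10) 
(.lf (nat_lit 19872720) (dlOf (nat_lit 1) (nat_lit 0x600289dbf01))) 
(.lf (nat_lit 2751932368) (dlOf (nat_lit 1) (nat_lit 0x20008004501))))))))))) (.nd (nat_lit 16) 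
(.nd (nat_lit 4) (.nd (nat_lit 31) (.nd (nat_lit 18) (.nd (nat_lit 19) (.nd (nat_lit 8) 
(.nd (nat_lit 21) (.nd (nat_lit 27) (.nd (nat_lit 30) 
(.lf (nat_lit 67280896) (dlOf (nat_lit 1) (nat_lit 0x20028090001))) 
(.lf (nat_lit 5435990016) (dlOf (nat_lit 1) (nat_lit 0x9400200080008090002)))) (.nd (nat_lit 10) 
(.lf (nat_lit 5301772288) (dlOf (nat_lit 1) (nat_lit 0x9400200080008090002))) 
(.lf (nat_lit 738372608) (dlOf (nat_lit 3) (nat_lit 0x1805a0002001001202d0000fc080308008002c002007a0008095f03))))) 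
(.nd (nat_lit 6) (.nd (nat_lit 7) 
(.lf (nat_lit 56795136) (dlOf (nat_lit 1) (nat_lit 0x400400020009760002))) 
(.lf (nat_lit 41066624) (dlOf (nat_lit 1) (nat_lit 0x40029213681)))) 
(.lf (nat_lit 472032448) (dlOf (nat_lit 3) (nat_lit 0x581160002502003a08b00011818802d00))))) 
(.nd (nat_lit 6) (.nd (nat_lit 7) 
(.lf (nat_lit 872588544) (dlOf (nat_lit 1) (nat_lit 0x20028092f01))) (.nd (nat_lit 9) 
(.lf (nat_lit 2013439360) (dlOf (nat_lit 1) (nat_lit 0xe0018093581))) 
(.lf (nat_lit 20097920) (dlOf (nat_lit 1) (nat_lit 0x4002000200089d5c02))))) (.nd (nat_lit 7) 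
(.nd (nat_lit 21) (.lf (nat_lit 59943744) (dlOf (nat_lit 1) (nat_lit 0x660019845c01))) 
(.lf (nat_lit 20097856) (dlOf (nat_lit 1) (nat_lit 0x4002000200089d5c02)))) 
(.lf (nat_lit 11706816) (dlOf (nat_lit 2) (nat_lit 0x540000000002000800086c0881)))))) 
(.nd (nat_lit 20) (.nd (nat_lit 26) (.nd (nat_lit 27) 
(.lf (nat_lit 806002688) (dlOf (nat_lit 2) (nat_lit 0x2ca05601700098068a41002d00080114002003e0008210003))) 
(.nd (nat_lit 28) (.lf (nat_lit 134914048) (dlOf (nat_lit 1) (nat_lit 0x78002007600080e0002))) 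
(.lf (nat_lit 5772058624) (dlOf (nat_lit 1) (nat_lit 0x400400020008060002))))) (.nd (nat_lit 28) 
(.nd (nat_lit 27) 
(.lf (nat_lit 1678417920) (dlOf (nat_lit 2) (nat_lit 0x2ca05601700098075e81002d00080114002003e0008210003))) 
(.lf (nat_lit 202022912) (dlOf (nat_lit 1) (nat_lit 0x78002007600080e0002)))) (.nd (nat_lit 6) 
(.lf (nat_lit 6376038400) (dlOf (nat_lit 1) (nat_lit 0x400400020008060002))) 
(.lf (nat_lit 6378136000) (dlOf (nat_lit 1) (nat_lit 0xc004000c0008117002)))))) (.nd (nat_lit 8) 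
(.nd (nat_lit 21) (.nd (nat_lit 27) 
(.lf (nat_lit 1343922176) (dlOf (nat_lit 1) (nat_lit 0xe0018380001))) 
(.lf (nat_lit 5773107200) (dlOf (nat_lit 1) (nat_lit 0x4004000200080a0002)))) (.nd (nat_lit 22) 
(.lf (nat_lit 3842048) (dlOf (nat_lit 1) (nat_lit 0x1c00200060008230002))) (.nd (nat_lit 23) 
(.lf (nat_lit 24813568) (dlOf (nat_lit 1) (nat_lit 0x20028bc0001))) 
(.lf (nat_lit 16424960) (dlOf (nat_lit 1) (nat_lit 0x1180080004002002600088a0003)))))) 
(.nd (nat_lit 6) (.nd (nat_lit 7) 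
(.lf (nat_lit 473604352) (dlOf (nat_lit 5) (nat_lit 0xc2a400040f7001c0490001a018001054800081ee00066040004152000320100030a9000083dc0000008026c00400200008f62a02))) 
(.lf (nat_lit 20622208) (dlOf (nat_lit 1) (nat_lit 0x200189d5c01)))) 
(.lf (nat_lit 49981888) (dlOf (nat_lit 1) (nat_lit 0x2400094c4e81))))))) (.nd (nat_lit 28) 
(.nd (nat_lit 7) (.nd (nat_lit 19) (.nd (nat_lit 6) (.nd (nat_lit 20) 
(.lf (nat_lit 5906014208) (dlOf (nat_lit 1) (nat_lit 0x8008002400200020008180003))) 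
(.nd (nat_lit 21) (.lf (nat_lit 26648576) (dlOf (nat_lit 1) (nat_lit 0x400400020008c50002))) 
(.lf (nat_lit 37134336) (dlOf (nat_lit 1) (nat_lit 0x200190a0001))))) (.nd (nat_lit 10) 
(.lf (nat_lit 26648640) (dlOf (nat_lit 1) (nat_lit 0x40008c50501))) 
(.lf (nat_lit 44475456) (dlOf (nat_lit 1) (nat_lit 0x40029322881))))) (.nd (nat_lit 20) 
(.lf (nat_lit 9347072) (dlOf (nat_lit 1) (nat_lit 0x2e0008540001))) (.nd (nat_lit 21) 
(.lf (nat_lit 14589952) (dlOf (nat_lit 1) (nat_lit 0x400400020008770002))) 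
(.lf (nat_lit 29270016) (dlOf (nat_lit 1) (nat_lit 0xc00400020018df0002)))))) (.nd (nat_lit 6) 
(.nd (nat_lit 8) (.nd (nat_lit 26) 
(.lf (nat_lit 537305216) (dlOf (nat_lit 1) (nat_lit 0x400400020008090082))) 
(.lf (nat_lit 4362510464) (dlOf (nat_lit 3) (nat_lit 0xc047001238100010238006e0080010008001000200100008090083)))) 
(.lf (nat_lit 19835776) (dlOf (nat_lit 1) (nat_lit 0x4002000200089d5c02)))) (.nd (nat_lit 8) 
(.nd (nat_lit 26) 
(.lf (nat_lit 1611047104) (dlOf (nat_lit 2) (nat_lit 0x200fc001ca040018002003800080c1702))) 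
(.lf (nat_lit 738631872) (dlOf (nat_lit 2) (nat_lit 0x201f8000740800200080018002000a00080c1b03)))) 
(.lf (nat_lit 1678156224) (dlOf (nat_lit 1) (nat_lit 0x300080004002000200081a0883)))))) 
(.nd (nat_lit 6) (.nd (nat_lit 26) (.nd (nat_lit 7) (.nd (nat_lit 27) 
(.lf (nat_lit 4563836928) (dlOf (nat_lit 3) (nat_lit 0x20000005f840802c80940000004001800400c600080f0002))) 
(.lf (nat_lit 4698054656) (dlOf (nat_lit 3) (nat_lit 0x20000006d340802c80940000004001800400c600080f0002)))) 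
(.lf (nat_lit 805740928) (dlOf (nat_lit 1) (nat_lit 0xc00281a0781)))) (.nd (nat_lit 7) 
(.nd (nat_lit 19) (.lf (nat_lit 5838905344) (dlOf (nat_lit 1) (nat_lit 0x340008200001))) 
(.lf (nat_lit 1410244608) (dlOf (nat_lit 4) (nat_lit 0x303c000701dc00240ec0016071000a03800028198002c0c6001606100050000069004800081dc00140e201a3e04000a07700ced8181b0000)))) 
(.lf (nat_lit 1409720448) (dlOf (nat_lit 1) (nat_lit 0x400400020008090082))))) (.nd (nat_lit 7) 
(.nd (nat_lit 10) 
(.lf (nat_lit 473866304) (dlOf (nat_lit 2) (nat_lit 0xb06c800281f00048e08002400400040008fc0602))) 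
(.nd (nat_lit 26) 
(.lf (nat_lit 1344709696) (dlOf (nat_lit 2) (nat_lit 0x50a1801988080020008000c00200040008982883))) 
(.lf (nat_lit 472294464) (dlOf (nat_lit 1) (nat_lit 0x20008982881))))) (.nd (nat_lit 8) 
(.lf (nat_lit 6376303296) (dlOf (nat_lit 1) (nat_lit 0x400200020008095782))) 
(.lf (nat_lit 805740992) (dlOf (nat_lit 1) (nat_lit 0x300080004002000200081a0883)))))))) 
(.nd (nat_lit 26) (.nd (nat_lit 27) (.nd (nat_lit 6) (.nd (nat_lit 18) (.nd (nat_lit 7) 
(.nd (nat_lit 19) (.lf (nat_lit 3491930112) (dlOf (nat_lit 1) (nat_lit 0xa0018090001))) 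
(.lf (nat_lit 3221921792) (dlOf (nat_lit 7) (nat_lit 0x8c02f00d168100460178067780802300bc033b404011805e0196a020006037003a1810064020000000080410008002000201d200081b0003)))) 
(.lf (nat_lit 3491405952) (dlOf (nat_lit 1) (nat_lit 0x2400400080008090082)))) (.nd (nat_lit 8) 
(.nd (nat_lit 19) (.lf (nat_lit 6442885120) (dlOf (nat_lit 1) (nat_lit 0x340008200001))) 
(.lf (nat_lit 3491667968) (dlOf (nat_lit 1) (nat_lit 0x400400020008090002)))) 
(.lf (nat_lit 3493765376) (dlOf (nat_lit 1) (nat_lit 0x4004000200181b0482))))) (.nd (nat_lit 7) 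
(.nd (nat_lit 8) (.lf (nat_lit 3491406400) (dlOf (nat_lit 1) (nat_lit 0x20028091081))) 
(.nd (nat_lit 9) (.lf (nat_lit 3221400896) (dlOf (nat_lit 1) (nat_lit 0x20018116901))) 
(.lf (nat_lit 3492980544) (dlOf (nat_lit 2) (nat_lit 0x84000000170180f3e00))))) (.nd (nat_lit 18) 
(.lf (nat_lit 3491406272) (dlOf (nat_lit 2) (nat_lit 0x4e43ca0005c0200020028090881))) 
(.lf (nat_lit 3221660096) (dlOf (nat_lit 2) (nat_lit 0x49c0780005c0200020028170881)))))) 
(.nd (nat_lit 30) (.nd (nat_lit 8) (.nd (nat_lit 6) (.nd (nat_lit 7) 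
(.lf (nat_lit 2819006464) (dlOf (nat_lit 17) (nat_lit 0x9c07e01d8602002803f00eb801003501f8075b80800100fc0379a04008c07e01bcb02004803f00de501000601f806f100801380fc0377e04000407e01bbe02004e03f00dde81002701f806d540801380fc0369e04000807e01b4e02000803f00da401000101f806d140800300fc01a160400c000200ae0008150002))) 
(.lf (nat_lit 2281878656) (dlOf (nat_lit 1) (nat_lit 0x400180a9501)))) 
(.lf (nat_lit 2819006528) (dlOf (nat_lit 30) (nat_lit 0x47007e0006802023003f0003381011a01f8001940808c00fc000c804046407e0006302002c03f0003101051b03900ad00fc000c208134c0e4021203f0003002036d039003280fc000be08006c0e4006a03f0002f02009801f8001740808900fc000b204042c07e000570205fe072009301f8000a01003900fc0004e0400bc0e4002403f000130200c9039000c80fc0004808004007e0002302097c07200ea01f8000881009000fc0004204046807e000200201fc03f0000f81011b01f8000740802c81c8032c07e0001c040014072011901f80006c1008800fc0003404045807e0001902023403f0000c010473039008380fc00000080164004017c0018150502))))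 
(.nd (nat_lit 10) 
(.lf (nat_lit 2818744576) (dlOf (nat_lit 1) (nat_lit 0x80080014002000c00080f7a83))) 
(.lf (nat_lit 2281878784) (dlOf (nat_lit 1) (nat_lit 0x400180a9581))))) (.nd (nat_lit 6) 
(.nd (nat_lit 19) 
(.lf (nat_lit 3624050688) (dlOf (nat_lit 3) (nat_lit 0x400c0001c05e001002e00080168003006c00140300008014000700900040008002000001a4414000e03000050170001006c00140300008014000700100018000034841c0020002000200080b0002))) 
(.lf (nat_lit 3893010432) (dlOf (nat_lit 1) (nat_lit 0x200282d0001)))) (.nd (nat_lit 7) 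
(.nd (nat_lit 8) (.lf (nat_lit 3892490304) (dlOf (nat_lit 1) (nat_lit 0xc00400020008157d02))) 
(.lf (nat_lit 3624313152) (dlOf (nat_lit 1) (nat_lit 0x58004004c0008154c02)))) 
(.lf (nat_lit 3892492992) (dlOf (nat_lit 1) (nat_lit 0x2001815b981))))))) (.nd (nat_lit 6) 
(.nd (nat_lit 28) (.nd (nat_lit 18) (.nd (nat_lit 7) 
(.lf (nat_lit 3960119296) (dlOf (nat_lit 7) (nat_lit 0x8c02f00ec90100460178075040802300bc03a7e04011805e01ccf02000603700676010064020000000080410008002000201d200081b0003))) 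
(.lf (nat_lit 2753208448) (dlOf (nat_lit 1) (nat_lit 0x2400400080008090082)))) (.nd (nat_lit 8) 
(.nd (nat_lit 19) 
(.lf (nat_lit 6509993984) (dlOf (nat_lit 1) (nat_lit 0x8008002400200020008180003))) 
(.lf (nat_lit 2753470464) (dlOf (nat_lit 1) (nat_lit 0x400400020008090002)))) 
(.lf (nat_lit 2755567872) (dlOf (nat_lit 1) (nat_lit 0x4004000200181b0482))))) (.nd (nat_lit 7) 
(.nd (nat_lit 8) (.nd (nat_lit 20) 
(.lf (nat_lit 3154812928) (dlOf (nat_lit 3) (nat_lit 0xc028007e90200060000037d818330000))) 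
(.lf (nat_lit 4095385600) (dlOf (nat_lit 1) (nat_lit 0x4002000200080a0002)))) 
(.lf (nat_lit 3556942080) (dlOf (nat_lit 2) (nat_lit 0x604900000018102b00)))) (.nd (nat_lit 18) 
(.lf (nat_lit 4094337152) (dlOf (nat_lit 1) (nat_lit 0x68008000400200060008043683))) 
(.lf (nat_lit 4228292736) (dlOf (nat_lit 3) (nat_lit 0xc0400011781000102000068c080010008001000200100008090083)))))) 
(.nd (nat_lit 7) (.nd (nat_lit 27) (.nd (nat_lit 10) (.nd (nat_lit 11) 
(.lf (nat_lit 2753208896) (dlOf (nat_lit 1) (nat_lit 0x20028091081))) 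
(.lf (nat_lit 2751642176) (dlOf (nat_lit 7) (nat_lit 0x621100041080001dc100058844000ec0401b44220007002001e2110003181003c108800184080120844000000401380020006000800b482)))) 
(.lf (nat_lit 6509735488) (dlOf (nat_lit 1) (nat_lit 0x400400020008147182)))) (.nd (nat_lit 8) 
(.lf (nat_lit 4228031040) (dlOf (nat_lit 1) (nat_lit 0x10004000a0008018502))) (.nd (nat_lit 12) 
(.lf (nat_lit 2886115648) (dlOf (nat_lit 1) (nat_lit 0x58004004c0008154c02))) 
(.lf (nat_lit 3154293056) (dlOf (nat_lit 1) (nat_lit 0x1a0008010400200160008158203)))))) 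
(.nd (nat_lit 27) (.nd (nat_lit 9) (.nd (nat_lit 19) 
(.lf (nat_lit 3556942272) (dlOf (nat_lit 2) (nat_lit 0x1000c00020040005000000444180130008002400200040008107003))) 
(.lf (nat_lit 2753208768) (dlOf (nat_lit 2) (nat_lit 0x4e43ee0005b0200020028090881)))) 
(.lf (nat_lit 2751637440) (dlOf (nat_lit 1) (nat_lit 0x400200020008004402)))) (.nd (nat_lit 8) 
(.lf (nat_lit 3154292928) (dlOf (nat_lit 2) (nat_lit 0x80238000940800d8008001c00200020008157f03))) 
(.lf (nat_lit 3959857600) (dlOf (nat_lit 2) (nat_lit 0x49c0780005b0200020028170881))))))))) 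
(.nd (nat_lit 6) (.nd (nat_lit 18) (.nd (nat_lit 31) (.nd (nat_lit 19) (.nd (nat_lit 29) 
(.nd (nat_lit 10) (.nd (nat_lit 20) (.nd (nat_lit 8) 
(.lf (nat_lit 23240720) (dlOf (nat_lit 1) (nat_lit 0x8008010c00200220008b70283))) 
(.lf (nat_lit 4429357328) (dlOf (nat_lit 1) (nat_lit 0x400400020008090482)))) (.nd (nat_lit 7) 
(.lf (nat_lit 30580752) (dlOf (nat_lit 1) (nat_lit 0xa0008e40781))) 
(.lf (nat_lit 11706512) (dlOf (nat_lit 1) (nat_lit 0xe00186c0101))))) (.nd (nat_lit 7) 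
(.nd (nat_lit 22) 
(.lf (nat_lit 5771537424) (dlOf (nat_lit 1) (nat_lit 0x8008001000200020008005f83))) 
(.lf (nat_lit 54701072) (dlOf (nat_lit 3) (nat_lit 0x42a3000158080039518000a604007400400340009655f82)))) 
(.lf (nat_lit 5637318032) (dlOf (nat_lit 1) (nat_lit 0x200180d3601))))) (.nd (nat_lit 27) 
(.nd (nat_lit 10) (.nd (nat_lit 11) 
(.lf (nat_lit 604151824) (dlOf (nat_lit 2) (nat_lit 0x1c00000017818040380))) 
(.lf (nat_lit 5905754128) (dlOf (nat_lit 1) (nat_lit 0x400200020008144702)))) 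
(.lf (nat_lit 1677894672) (dlOf (nat_lit 3) (nat_lit 0x58154002002401bec04001402200080000051301000c8008002800200120008112883)))) 
(.nd (nat_lit 7) (.lf (nat_lit 2013439504) (dlOf (nat_lit 1) (nat_lit 0x40008093681))) 
(.nd (nat_lit 9) (.lf (nat_lit 738369680) (dlOf (nat_lit 1) (nat_lit 0xf000400080008090402))) 
(.lf (nat_lit 738372240) (dlOf (nat_lit 1) (nat_lit 0xa0028095501))))))) (.nd (nat_lit 22) 
(.nd (nat_lit 20) (.nd (nat_lit 21) (.nd (nat_lit 26) 
(.lf (nat_lit 134914064) (dlOf (nat_lit 2) (nat_lit 0x1ca01d8000ec0827f80080e4000203ac00080e0103))) 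
(.lf (nat_lit 202022928) (dlOf (nat_lit 2) (nat_lit 0x1ca01d8000ec0827f80080e4000203ac00080e0103)))) 
(.lf (nat_lit 11182096) (dlOf (nat_lit 2) (nat_lit 0x9250c0007604005000400060018670102)))) 
(.nd (nat_lit 21) (.lf (nat_lit 1343922192) (dlOf (nat_lit 1) (nat_lit 0x20018380781))) 
(.lf (nat_lit 3842064) (dlOf (nat_lit 5) (nat_lit 0x4412c8012c9400002b04005a4b2003d25000168fe4000360c00c496400664a0002f1fc8000681802792c800ac9400001904005e0018230101))))) 
(.nd (nat_lit 8) (.nd (nat_lit 7) 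
(.lf (nat_lit 16424976) (dlOf (nat_lit 3) (nat_lit 0x54fac005a7d4000f39900017c180069f580000a040020002001000088a0202))) 
(.lf (nat_lit 49980560) (dlOf (nat_lit 1) (nat_lit 0x18002000200094c2b02)))) (.nd (nat_lit 24) 
(.lf (nat_lit 41592080) (dlOf (nat_lit 1) (nat_lit 0x20019243001))) 
(.lf (nat_lit 58369296) (dlOf (nat_lit 18) (nat_lit 0x158cfa007c67c00642ca0042164c02289cc01164d40001c86007b33e803c1650000700800cccf8011a593006c273003693500006e100194cfa009a67c00742ca0047964c02489cc012c4d400061f90000d83800493500006a04015ccfa00ee59400282730000981803599f401d8b28000240400ca67d00832ca0000881007819ec0058cc801e659200c92728067934c00a893600e43f10000d8700d933d8070964803009ca01c04d3000724d8000682807619ec02a4cc801da59200d8272807c934c039893601a63f10000c87001633d8012964801749ca0001806010a67b008f2c9004c939402749a60001708013e67b00a82c900549394029c9a600603f10000b0500a033d8052964802f49ca01924d30000a8400a133d80521648026c9ca01404d3001c1f880005028000934c00026040058004001800197e3002)))))))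 
(.nd (nat_lit 29) (.nd (nat_lit 26) (.nd (nat_lit 7) (.nd (nat_lit 19) 
(.lf (nat_lit 3490881552) (dlOf (nat_lit 1) (nat_lit 0xc0008000400200140008030883))) 
(.lf (nat_lit 3492454416) (dlOf (nat_lit 3) (nat_lit 0x141ea00d2281000b0f180690c080038008000800200a200080d0883)))) 
(.lf (nat_lit 3494027664) (dlOf (nat_lit 1) (nat_lit 0x200281b0781)))) (.nd (nat_lit 9) 
(.nd (nat_lit 28) (.lf (nat_lit 3422724112) (dlOf (nat_lit 2) (nat_lit 0x5a03300009818090100))) 
(.lf (nat_lit 3691159568) (dlOf (nat_lit 1) (nat_lit 0x6800400060008050002)))) (.nd (nat_lit 8) 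
(.lf (nat_lit 3556942352) (dlOf (nat_lit 1) (nat_lit 0xc0028107b81))) 
(.lf (nat_lit 2617418512) (dlOf (nat_lit 1) (nat_lit 0x15800080a2101)))))) (.nd (nat_lit 19) 
(.nd (nat_lit 26) (.nd (nat_lit 28) 
(.lf (nat_lit 2684526608) (dlOf (nat_lit 3) (nat_lit 0xf0190000fc0800e00c80007a04002400200180008090102))) 
(.lf (nat_lit 2952962064) (dlOf (nat_lit 3) (nat_lit 0x1401c0001781000300e0000b8080008008001000200020008040383)))) 
(.nd (nat_lit 8) 
(.lf (nat_lit 2752684048) (dlOf (nat_lit 1) (nat_lit 0xc0008000400200140008030883))) 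
(.lf (nat_lit 3154295056) (dlOf (nat_lit 1) (nat_lit 0x6001815aa81))))) (.nd (nat_lit 21) 
(.nd (nat_lit 26) 
(.lf (nat_lit 2819268624) (dlOf (nat_lit 2) (nat_lit 0x8114000f004000c00400080008210202))) 
(.lf (nat_lit 3154812944) (dlOf (nat_lit 3) (nat_lit 0x12024000400e80350c100028064000803000cf10400020028330a01)))) 
(.lf (nat_lit 2754256912) (dlOf (nat_lit 3) (nat_lit 0x141fc00ed501000b0fa8076a0080038008000800200a200080d0883))))))) 
(.nd (nat_lit 29) (.nd (nat_lit 21) (.nd (nat_lit 22) (.nd (nat_lit 8) (.nd (nat_lit 7) 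
(.lf (nat_lit 60206096) (dlOf (nat_lit 1) (nat_lit 0x20008001000200060009845f83))) 
(.lf (nat_lit 3221659792) (dlOf (nat_lit 2) (nat_lit 0x2e800000000040050002002c0008170102)))) 
(.nd (nat_lit 11) 
(.lf (nat_lit 5772321168) (dlOf (nat_lit 4) (nat_lit 0x1309f001d04c4011826000160060062130000af01004e098000574080038008006000200340008091003))) 
(.lf (nat_lit 3490097552) (dlOf (nat_lit 1) (nat_lit 0x20018004e81))))) (.nd (nat_lit 20) 
(.nd (nat_lit 23) 
(.lf (nat_lit 3494289424) (dlOf (nat_lit 8) (nat_lit 0x88540041404000442a002090200082150010381000110d00008444003b00800044260002111000eb02000110980008444003a60800044260002111000e88281f0700))) 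
(.lf (nat_lit 13017104) (dlOf (nat_lit 5) (nat_lit 0x78c660034618002d2ba0000501800c18cc0044c3000005040028633000e30c0000101000218cc00006040054004001400086f0102)))) 
(.nd (nat_lit 8) (.lf (nat_lit 22454288) (dlOf (nat_lit 2) (nat_lit 0x19614001ed02000a0008ae0481))) 
(.lf (nat_lit 47621392) (dlOf (nat_lit 1) (nat_lit 0x10008001000200020009403003)))))) 
(.nd (nat_lit 19) (.nd (nat_lit 20) (.nd (nat_lit 22) 
(.lf (nat_lit 2531344) (dlOf (nat_lit 1) (nat_lit 0x80008000400200180008170503))) 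
(.lf (nat_lit 15114256) (dlOf (nat_lit 1) (nat_lit 0x1400187b0281)))) (.nd (nat_lit 10) 
(.lf (nat_lit 24551440) (dlOf (nat_lit 6) (nat_lit 0x5da500006d060001504000369400002810001b4a00001008001da500006bf80000304000b6940003b418000d7f0000040c006c004006e0018ba0502))) 
(.lf (nat_lit 20360208) (dlOf (nat_lit 2) (nat_lit 0x752b8000380800080080010002000400089d5f83))))) 
(.nd (nat_lit 7) (.nd (nat_lit 10) 
(.lf (nat_lit 11444240) (dlOf (nat_lit 2) (nat_lit 0x68000004d6040004002000200086a0502))) 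
(.lf (nat_lit 54438928) (dlOf (nat_lit 1) (nat_lit 0x20029655f81)))) 
(.lf (nat_lit 19833744) (dlOf (nat_lit 1) (nat_lit 0x180080014002000400089d2583)))))) 
(.nd (nat_lit 7) (.nd (nat_lit 9) (.nd (nat_lit 10) (.nd (nat_lit 26) 
(.lf (nat_lit 1611046928) (dlOf (nat_lit 1) (nat_lit 0x94002000800080c0002))) 
(.lf (nat_lit 738631696) (dlOf (nat_lit 1) (nat_lit 0x94002000800080c0002)))) 
(.lf (nat_lit 604417040) (dlOf (nat_lit 11) (nat_lit 0x68050002801800051040018014002500600014010021805001140180004f04002a01400020048001381000f805000c00180004b04004603a000f01b800b80d0009c0540004408000a03a000301b800108100040000000740400240280003802002001400260060000001001200080084002001e0008205f83)))) 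
(.nd (nat_lit 19) 
(.lf (nat_lit 2886115856) (dlOf (nat_lit 9) (nat_lit 0x740158079809c00b004c013601e00e400d0032005c032402800300130014005806b80080098c2801600560006022008000f004a8068028002e01e801400e700680720018002c004004c41200a8043005f01e007b00dc035406a024a0000025e0500c7021810300f802e407800b403b015a01b809e80d4004401402720000025d08015601b802700ac018c03c0198014000c0050012c42808500f8054c06e009a02b007600f0070805003a401a001200a00f70030012c0400ab00dc008c03c01c60140036006800c8028039800c004a70c027a037003c00a001294100c480080be400208480008158403))) 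
(.lf (nat_lit 2752422416) (dlOf (nat_lit 2) (nat_lit 0x608800249818018400))))) (.nd (nat_lit 8) 
(.nd (nat_lit 20) 
(.lf (nat_lit 3959857296) (dlOf (nat_lit 2) (nat_lit 0x2e800000000040050002002c0008170102))) 
(.lf (nat_lit 4095123600) (dlOf (nat_lit 1) (nat_lit 0x400400020008062802)))) 
(.lf (nat_lit 2751899536) (dlOf (nat_lit 2) (nat_lit 0x1044000038080028008000400200040008004203))))))) 
(.nd (nat_lit 26) (.nd (nat_lit 28) (.nd (nat_lit 18) (.nd (nat_lit 9) (.nd (nat_lit 20) 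
(.nd (nat_lit 21) (.lf (nat_lit 25337936) (dlOf (nat_lit 1) (nat_lit 0x400200260008bf0d02))) 
(.lf (nat_lit 52600912) (dlOf (nat_lit 10) (nat_lit 0x1a6098022aca80008a08008d65400043020050b2a0000e8100235950000680801630480029822009ab29004b594002829ec00dd4d2000170c0016c12004759480005810002304800d182200eebfb0042594801229ec00594d200c4000000088700285948000080802db04801d9652000000400240019550701)))) 
(.nd (nat_lit 8) (.lf (nat_lit 10133584) (dlOf (nat_lit 1) (nat_lit 0x200285b0901))) 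
(.lf (nat_lit 11706704) (dlOf (nat_lit 1) (nat_lit 0x400286c0601))))) (.nd (nat_lit 8) 
(.nd (nat_lit 7) (.lf (nat_lit 39496272) (dlOf (nat_lit 1) (nat_lit 0x4400400420009195282))) 
(.lf (nat_lit 2281874128) (dlOf (nat_lit 2) (nat_lit 0x80260026011000190280a2000)))) 
(.nd (nat_lit 10) (.lf (nat_lit 20624336) (dlOf (nat_lit 1) (nat_lit 0x3c00289d9201))) 
(.lf (nat_lit 671262672) (dlOf (nat_lit 1) (nat_lit 0x8e0028144501)))))) (.nd (nat_lit 23) 
(.nd (nat_lit 7) (.nd (nat_lit 27) 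
(.lf (nat_lit 1074176080) (dlOf (nat_lit 1) (nat_lit 0x600280d0d01))) 
(.lf (nat_lit 2819006544) (dlOf (nat_lit 4) (nat_lit 0x5ac0000000402025a0000000101010903980a58000000000800bc00200120008150702)))) 
(.lf (nat_lit 3221660112) (dlOf (nat_lit 3) (nat_lit 0x2e0560000b810032028801080d4005804e002c02600250110021807c008403c000000e003e0018170a01)))) 
(.nd (nat_lit 19) (.nd (nat_lit 20) 
(.lf (nat_lit 29794384) (dlOf (nat_lit 2) (nat_lit 0x1e6b8300d84ea006f0474000be0c000400400460018e30202))) 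
(.lf (nat_lit 26648656) (dlOf (nat_lit 6) (nat_lit 0x280000002602000c00000012810004a3780008808034e46c0093234000d8850069ad6001351a00001614000f236000000200040008c50701)))) 
(.lf (nat_lit 13541456) (dlOf (nat_lit 2) (nat_lit 0x280000009004002400200060008730d02)))))) 
(.nd (nat_lit 7) (.nd (nat_lit 29) (.nd (nat_lit 19) (.nd (nat_lit 20) 
(.lf (nat_lit 1476567120) (dlOf (nat_lit 2) (nat_lit 0x1403b00011018050700))) 
(.lf (nat_lit 3490881616) (dlOf (nat_lit 2) (nat_lit 0x24346000470200020018031001)))) 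
(.lf (nat_lit 3492454480) (dlOf (nat_lit 6) (nat_lit 0x9116803d87ac00083a40005706002023200920f58001581001608c801ec3d60005504003e23200840f58001501000207ac0008604003c004002200180d0d02)))) 
(.nd (nat_lit 8) (.lf (nat_lit 805482064) (dlOf (nat_lit 1) (nat_lit 0x60008117181))) 
(.lf (nat_lit 805740880) (dlOf (nat_lit 1) (nat_lit 0x500080028002000600081a0603))))) 
(.nd (nat_lit 9) (.nd (nat_lit 18) (.nd (nat_lit 19) 
(.lf (nat_lit 1342349776) (dlOf (nat_lit 2) (nat_lit 0x38744001c39e00041cd00020e580291c200048008009800200080008017103))) 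
(.lf (nat_lit 3491406288) (dlOf (nat_lit 5) (nat_lit 0x703d00001902000e1e80000c0100340f400005c0805b07a00000004001400400360018090a02)))) 
(.lf (nat_lit 805741008) (dlOf (nat_lit 5) (nat_lit 0x80055003a027001b00dc0030062006202400400090011802800b400c00020100078055003c027001d80dc0024062006c024003b0090018802800c400c0001f10007c0550033027000c813000d406e004a02b0040012001d80480088020003c00a00240030000745001f015400fc09c007e037002a015801c009000f8024007a010002e0050009802000c800c0001b14000200181a0a01)))) 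
(.nd (nat_lit 8) (.lf (nat_lit 1345235664) (dlOf (nat_lit 1) (nat_lit 0x400400020018b05882))) 
(.lf (nat_lit 3087181776) (dlOf (nat_lit 1) (nat_lit 0xe0028144501))))))) (.nd (nat_lit 27) 
(.nd (nat_lit 29) (.nd (nat_lit 8) (.nd (nat_lit 19) 
(.lf (nat_lit 69378128) (dlOf (nat_lit 2) (nat_lit 0xd00580003f0200020028940701))) 
(.lf (nat_lit 4362772560) (dlOf (nat_lit 2) (nat_lit 0x2033000080180f1900)))) (.nd (nat_lit 18) 
(.nd (nat_lit 10) 
(.lf (nat_lit 4362248528) (dlOf (nat_lit 2) (nat_lit 0x20230000380800880080068002001e0008014d83))) 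
(.lf (nat_lit 69903696) (dlOf (nat_lit 1) (nat_lit 0x800200020008e13302)))) (.nd (nat_lit 7) 
(.lf (nat_lit 4362510672) (dlOf (nat_lit 4) (nat_lit 0x4c00b0000660401a40a2006404b0091023004a011402e005a00360240001686002e02b000000080168008006800200140008090603))) 
(.lf (nat_lit 4362510800) (dlOf (nat_lit 3) (nat_lit 0x480b40004004000405a0001d0200600018090a01)))))) 
(.nd (nat_lit 7) (.nd (nat_lit 18) (.nd (nat_lit 19) 
(.lf (nat_lit 2752684112) (dlOf (nat_lit 2) (nat_lit 0x24370000400200020018031001))) 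
(.lf (nat_lit 2754256976) (dlOf (nat_lit 6) (nat_lit 0x9122803d87f400083ce0005006002024a00920fe80013c10016092801ec3fa0004e04003e24a00840fe8001341000207f40007804003c004002200180d0d02)))) 
(.nd (nat_lit 8) (.lf (nat_lit 1946591312) (dlOf (nat_lit 1) (nat_lit 0x600280d0d01))) 
(.lf (nat_lit 1678156112) (dlOf (nat_lit 1) (nat_lit 0x500080028002000600081a0603))))) 
(.nd (nat_lit 9) (.nd (nat_lit 18) 
(.lf (nat_lit 2753208784) (dlOf (nat_lit 5) (nat_lit 0x703f40001902000e1fa0000c0100340fd00005c0805b07e80000004001400400360018090a02))) 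
(.lf (nat_lit 1678156240) (dlOf (nat_lit 5) (nat_lit 0x80055003a027001b00dc0030062006202400400090011802800b400c00020100078055003c027001d80dc0024062006c024003b0090018802800c400c0001f10007c0550033027000c813000d406e004a02b0040012001d80480088020003c00a00240030000745001f015400fc09c007e037002a015801c009000f8024007a010002e0050009802000c800c0001b14000200181a0a01)))) 
(.lf (nat_lit 2752161744) (dlOf (nat_lit 1) (nat_lit 0x108008004400200380008004503)))))) 
(.nd (nat_lit 7) (.nd (nat_lit 8) (.nd (nat_lit 12) 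
(.lf (nat_lit 1007856208) (dlOf (nat_lit 1) (nat_lit 0x400400020008805282))) 
(.lf (nat_lit 3154295376) (dlOf (nat_lit 1) (nat_lit 0x2001815b681)))) (.nd (nat_lit 18) 
(.nd (nat_lit 29) 
(.lf (nat_lit 469934416) (dlOf (nat_lit 1) (nat_lit 0x10008005800200040008014d83))) 
(.lf (nat_lit 4228030800) (dlOf (nat_lit 9) (nat_lit 0x1b0080000690200d80400003401007702000019c080360100000cc0400b4080000440200200400002101006c0200001000803701000007e04003c002003e0008014d02)))) 
(.nd (nat_lit 28) 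
(.lf (nat_lit 2886115664) (dlOf (nat_lit 4) (nat_lit 0x2806800f8026000280401bc013000130100580098000940800a8008001c00200860008154d83))) 
(.lf (nat_lit 4228292944) (dlOf (nat_lit 4) (nat_lit 0x4c00ac000640401a40940064044009101f804a00f802e005800360240001606002e027800000080168008006800200140008090603)))))) 
(.nd (nat_lit 18) (.nd (nat_lit 22) 
(.lf (nat_lit 4228030928) (dlOf (nat_lit 4) (nat_lit 0x45027802301080148e08008409e008404d0051a82001500000000008019800800e000200640008017103))) 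
(.lf (nat_lit 474128848) (dlOf (nat_lit 1) (nat_lit 0x400190e1101)))) (.nd (nat_lit 8) 
(.lf (nat_lit 738631888) (dlOf (nat_lit 2) (nat_lit 0x100000017c0800b800800fc002007000080c1b83))) 
(.nd (nat_lit 28) 
(.lf (nat_lit 3959857616) (dlOf (nat_lit 3) (nat_lit 0x2e0560000b810032028801080d4005804e002c02600250110021807c008403c000000e003e0018170a01))) 
(.lf (nat_lit 4228293072) (dlOf (nat_lit 3) (nat_lit 0x480b0000400400040580001d0200600018090a01))))))))))) 
(.nd (nat_lit 6) (.nd (nat_lit 19) (.nd (nat_lit 28) (.nd (nat_lit 26) (.nd (nat_lit 20) 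
(.nd (nat_lit 10) (.nd (nat_lit 9) (.nd (nat_lit 4) 
(.lf (nat_lit 10985472) (dlOf (nat_lit 1) (nat_lit 0x168008008400200280008650003))) 
(.nd (nat_lit 21) 
(.lf (nat_lit 25403408) (dlOf (nat_lit 1) (nat_lit 0x20008000400200020008c00103))) 
(.lf (nat_lit 44277776) (dlOf (nat_lit 1) (nat_lit 0x11a00092e0001))))) (.nd (nat_lit 27) 
(.lf (nat_lit 537109008) (dlOf (nat_lit 5) (nat_lit 0x4a817c0093e04027c0be0049e02012e05f0024a81009c02f80124c080230008036000200b00008018403))) 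
(.lf (nat_lit 671326736) (dlOf (nat_lit 2) (nat_lit 0x3380b00098c0400d000400020018158402))))) 
(.nd (nat_lit 4) (.nd (nat_lit 9) 
(.lf (nat_lit 2818817024) (dlOf (nat_lit 1) (nat_lit 0xa002812bf01))) 
(.lf (nat_lit 2684597760) (dlOf (nat_lit 1) (nat_lit 0x100080008002000600080a9c03)))) 
(.nd (nat_lit 7) (.lf (nat_lit 2818815760) (dlOf (nat_lit 1) (nat_lit 0x40040004001812a002))) 
(.nd (nat_lit 11) (.lf (nat_lit 2684597392) (dlOf (nat_lit 1) (nat_lit 0x400180a9501))) 
(.lf (nat_lit 1074244752) (dlOf (nat_lit 1) (nat_lit 0x10004000200080f6202))))))) (.nd (nat_lit 21) 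
(.nd (nat_lit 9) (.nd (nat_lit 4) 
(.lf (nat_lit 18063360) (dlOf (nat_lit 1) (nat_lit 0x1e0018900001))) (.nd (nat_lit 10) 
(.lf (nat_lit 47423504) (dlOf (nat_lit 1) (nat_lit 0xac00193f0081))) 
(.lf (nat_lit 39298064) (dlOf (nat_lit 1) (nat_lit 0x8008000800200020009192883))))) 
(.nd (nat_lit 23) (.lf (nat_lit 1286672) (dlOf (nat_lit 1) (nat_lit 0x80080004002000200080a7b83))) 
(.lf (nat_lit 9675280) (dlOf (nat_lit 9) (nat_lit 0x88ec00620000013181001823b0001c000004c40400708ec00043f800091e88009780c0310000004ba0200020000025881000ac07006e80000096008001c000004a702003f80e000a4978012941003a800800d000200840008578403))))) 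
(.nd (nat_lit 25) (.nd (nat_lit 4) 
(.lf (nat_lit 20163456) (dlOf (nat_lit 1) (nat_lit 0x4002000200089d5c02))) (.nd (nat_lit 18) 
(.lf (nat_lit 15966224) (dlOf (nat_lit 2) (nat_lit 0x396240011804000400400020018850382))) 
(.lf (nat_lit 24616976) (dlOf (nat_lit 1) (nat_lit 0x800400040018ba0502))))) (.nd (nat_lit 7) 
(.nd (nat_lit 8) 
(.lf (nat_lit 58171920) (dlOf (nat_lit 3) (nat_lit 0x22aef000ab81001057780055808001000800e4002001600097c7b83))) 
(.lf (nat_lit 41132304) (dlOf (nat_lit 1) (nat_lit 0x8c00400160009223b02)))) 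
(.lf (nat_lit 62103696) (dlOf (nat_lit 1) (nat_lit 0xd8008000400200220009951003))))))) 
(.nd (nat_lit 29) (.nd (nat_lit 7) (.nd (nat_lit 9) (.nd (nat_lit 31) 
(.lf (nat_lit 1141088272) (dlOf (nat_lit 1) (nat_lit 0x400180c0001))) 
(.lf (nat_lit 3288571920) (dlOf (nat_lit 1) (nat_lit 0x7a000801bc002011e0008090003)))) 
(.nd (nat_lit 4) 
(.lf (nat_lit 3288572416) (dlOf (nat_lit 3) (nat_lit 0x300016000dc02003602000066818090d80))) 
(.lf (nat_lit 3288572432) (dlOf (nat_lit 3) (nat_lit 0x90016000dc02009802000066818090d80))))) 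
(.nd (nat_lit 10) (.lf (nat_lit 3288572048) (dlOf (nat_lit 2) (nat_lit 0x2c00500018818090100))) 
(.lf (nat_lit 3422794896) (dlOf (nat_lit 2) (nat_lit 0x100760016a02004a00080a9501))))) 
(.nd (nat_lit 4) (.nd (nat_lit 7) 
(.lf (nat_lit 604217344) (dlOf (nat_lit 1) (nat_lit 0x3c002001600080b0002))) (.nd (nat_lit 9) 
(.lf (nat_lit 1677959552) (dlOf (nat_lit 1) (nat_lit 0x20028125a81))) 
(.lf (nat_lit 738438016) (dlOf (nat_lit 1) (nat_lit 0x40028095c01))))) (.nd (nat_lit 18) 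
(.nd (nat_lit 7) (.lf (nat_lit 1812176912) (dlOf (nat_lit 1) (nat_lit 0x100008170881))) 
(.lf (nat_lit 1677959568) (dlOf (nat_lit 1) (nat_lit 0x20028126181)))) (.nd (nat_lit 10) 
(.lf (nat_lit 2753011728) (dlOf (nat_lit 2) (nat_lit 0x250448009ac080008008000400200060008070503))) 
(.lf (nat_lit 2751964176) (dlOf (nat_lit 1) (nat_lit 0xc00200040008002882)))))))) (.nd (nat_lit 4) 
(.nd (nat_lit 27) (.nd (nat_lit 8) (.nd (nat_lit 9) (.nd (nat_lit 30) 
(.lf (nat_lit 2953027584) (dlOf (nat_lit 1) (nat_lit 0x500080128002006e00080b0003))) 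
(.lf (nat_lit 1879285760) (dlOf (nat_lit 1) (nat_lit 0x8008003c002000c00080c0003)))) 
(.lf (nat_lit 4026769920) (dlOf (nat_lit 3) (nat_lit 0x300016000dd02003602000066818090d80)))) 
(.nd (nat_lit 7) (.lf (nat_lit 5167621376) (dlOf (nat_lit 1) (nat_lit 0x200280d2f01))) 
(.nd (nat_lit 18) (.lf (nat_lit 805544320) (dlOf (nat_lit 1) (nat_lit 0x20028125a81))) 
(.lf (nat_lit 1342677376) (dlOf (nat_lit 1) (nat_lit 0x6800080c0781)))))) (.nd (nat_lit 26) 
(.nd (nat_lit 7) (.nd (nat_lit 10) 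
(.lf (nat_lit 402890752) (dlOf (nat_lit 1) (nat_lit 0x200080a0001))) 
(.lf (nat_lit 6308473856) (dlOf (nat_lit 1) (nat_lit 0x50008005c002001800080d5f03)))) 
(.lf (nat_lit 6308473728) (dlOf (nat_lit 1) (nat_lit 0x800280d5c01)))) (.nd (nat_lit 21) 
(.nd (nat_lit 29) (.lf (nat_lit 3691225088) (dlOf (nat_lit 1) (nat_lit 0x800180b0001))) 
(.lf (nat_lit 1006870528) (dlOf (nat_lit 1) (nat_lit 0x8008003c002000c00080c0003)))) 
(.nd (nat_lit 8) 
(.lf (nat_lit 1009229824) (dlOf (nat_lit 1) (nat_lit 0x380080018002000e00090a0003))) 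
(.lf (nat_lit 1008967936) (dlOf (nat_lit 1) (nat_lit 0x18004000e0009000a82))))))) (.nd (nat_lit 27) 
(.nd (nat_lit 18) (.nd (nat_lit 7) (.nd (nat_lit 9) 
(.lf (nat_lit 1342414864) (dlOf (nat_lit 13) (nat_lit 0x5c2a8004fe0203e4247000f00101e312380073008104891c0039404001448e001c80201d2247000dd81007712380068408053891c0033804035048e00186020132247000c28100ab1238005e008001091c0000004089000400040008020482))) 
(.lf (nat_lit 4026769936) (dlOf (nat_lit 2) (nat_lit 0x1c800b0006e818090d80)))) 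
(.lf (nat_lit 4026769552) (dlOf (nat_lit 2) (nat_lit 0x2c00500018818090100)))) (.nd (nat_lit 7) 
(.nd (nat_lit 8) 
(.lf (nat_lit 3491209232) (dlOf (nat_lit 5) (nat_lit 0x582dc0074e040004170000208c0013c82000205b8009340801382e0003c16e002e07800200070000002000080080058002001e0008070503))) 
(.lf (nat_lit 1344775440) (dlOf (nat_lit 3) (nat_lit 0x44000000170200360000000a018983000)))) 
(.lf (nat_lit 3490163088) (dlOf (nat_lit 1) (nat_lit 0x20018004e81))))) (.nd (nat_lit 26) 
(.nd (nat_lit 29) (.nd (nat_lit 7) 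
(.lf (nat_lit 1476632592) (dlOf (nat_lit 1) (nat_lit 0x4002000200080b0182))) 
(.lf (nat_lit 3624378512) (dlOf (nat_lit 1) (nat_lit 0x60008183f01)))) (.nd (nat_lit 30) 
(.lf (nat_lit 939761680) (dlOf (nat_lit 1) (nat_lit 0x100008170881))) 
(.lf (nat_lit 2013503504) (dlOf (nat_lit 1) (nat_lit 0x400180c0001))))) (.nd (nat_lit 9) 
(.nd (nat_lit 20) (.nd (nat_lit 30) 
(.lf (nat_lit 469999632) (dlOf (nat_lit 13) (nat_lit 0x5c2a800a930203e4247000a78101e31238004ec08104891c0027204001448e001370201d22470009501007712380045408053891c0021a04035048e000f60201322470007a0100ab1238003a408001091c0000004089000400040008020482))) 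
(.lf (nat_lit 3691225104) (dlOf (nat_lit 1) (nat_lit 0x4002000200080b0182)))) 
(.lf (nat_lit 471048208) (dlOf (nat_lit 3) (nat_lit 0xd011c004607e00045820023047000228080070008010800200060008250383)))) 
(.lf (nat_lit 470262288) (dlOf (nat_lit 1) (nat_lit 0x200180c0d81)))))))) (.nd (nat_lit 21) 
(.nd (nat_lit 8) (.nd (nat_lit 22) (.nd (nat_lit 26) (.nd (nat_lit 23) (.nd (nat_lit 28) 
(.lf (nat_lit 537632784) (dlOf (nat_lit 4) (nat_lit 0x5c0960004302009e04b0002081005f0258000ec080228008011c002000400080e0103))) 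
(.lf (nat_lit 1342939152) (dlOf (nat_lit 1) (nat_lit 0x20018110a01)))) (.nd (nat_lit 4) 
(.lf (nat_lit 42968064) (dlOf (nat_lit 1) (nat_lit 0x9e00192a2881))) 
(.lf (nat_lit 10199056) (dlOf (nat_lit 1) (nat_lit 0x200185c0881))))) (.nd (nat_lit 9) 
(.nd (nat_lit 27) 
(.lf (nat_lit 1410048016) (dlOf (nat_lit 4) (nat_lit 0x5c0960004302009e04b0002081005f0258000ec080228008011c002000400080e0103))) 
(.lf (nat_lit 470523920) (dlOf (nat_lit 1) (nat_lit 0x20018110a01)))) 
(.lf (nat_lit 2752487952) (dlOf (nat_lit 14) (nat_lit 0x1e839400741c800560df0024057802082a800a8142017a0a0001704d800e02580078126004e09000510010013186000283940098a0400e81ca004c402006a0a5000f0028012f01003e0294015800a004ba04006e0e50018052802a8014009620c00b41ca00960a5001905080270014009601000f81ca00640a50007050802d80140094e10007814a00800050025282006c05900148028009401200520010024f840026005001400240093c0801b4164001a0a8002b0050014802400a4002004950a00d20b2002f00500150024009260c0060004004a0018018402)))))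 
(.nd (nat_lit 18) (.nd (nat_lit 4) 
(.lf (nat_lit 21733376) (dlOf (nat_lit 2) (nat_lit 0x4074802190080090008004c002002e0008a60003))) 
(.nd (nat_lit 10) 
(.lf (nat_lit 21733392) (dlOf (nat_lit 1) (nat_lit 0x58008007000200120008a60a03))) 
(.lf (nat_lit 38511632) (dlOf (nat_lit 1) (nat_lit 0x20009132881))))) (.nd (nat_lit 20) 
(.lf (nat_lit 13606928) (dlOf (nat_lit 4) (nat_lit 0x373c6201acdea807698100ddf18806c37aa01da40400c3c620068dea8075681001d8008019400200360008730883))) 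
(.lf (nat_lit 23044112) (dlOf (nat_lit 3) (nat_lit 0xc96100094af00010410003280400052bc0003b0400140028b50101)))))) 
(.nd (nat_lit 4) (.nd (nat_lit 9) (.nd (nat_lit 22) 
(.lf (nat_lit 51093760) (dlOf (nat_lit 1) (nat_lit 0x80080004002000200094f2b03))) 
(.lf (nat_lit 46899456) (dlOf (nat_lit 1) (nat_lit 0x20019380a81)))) (.nd (nat_lit 7) 
(.lf (nat_lit 67876608) (dlOf (nat_lit 1) (nat_lit 0x2001833a001))) 
(.lf (nat_lit 67876736) (dlOf (nat_lit 1) (nat_lit 0x6001833a301))))) (.nd (nat_lit 7) 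
(.nd (nat_lit 10) (.lf (nat_lit 51093776) (dlOf (nat_lit 1) (nat_lit 0x200294f3b01))) 
(.lf (nat_lit 1881122064) (dlOf (nat_lit 1) (nat_lit 0x8008000c00200020008e23003)))) 
(.lf (nat_lit 67876240) (dlOf (nat_lit 1) (nat_lit 0x20018339901)))))) (.nd (nat_lit 20) 
(.nd (nat_lit 23) (.nd (nat_lit 7) (.nd (nat_lit 4) 
(.lf (nat_lit 1345036288) (dlOf (nat_lit 1) (nat_lit 0x580080040002001c00089d0003))) 
(.nd (nat_lit 10) 
(.lf (nat_lit 1345036304) (dlOf (nat_lit 1) (nat_lit 0x78008001c002002400089d0283))) 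
(.lf (nat_lit 36414480) (dlOf (nat_lit 1) (nat_lit 0x20019072881))))) (.nd (nat_lit 8) 
(.lf (nat_lit 19642000) (dlOf (nat_lit 1) (nat_lit 0x180080004002000200089d9e83))) 
(.nd (nat_lit 10) (.lf (nat_lit 19902864) (dlOf (nat_lit 1) (nat_lit 0x2800289d8381))) 
(.lf (nat_lit 19643792) (dlOf (nat_lit 1) (nat_lit 0x4002000600089dc982)))))) (.nd (nat_lit 4) 
(.nd (nat_lit 22) (.lf (nat_lit 28024832) (dlOf (nat_lit 1) (nat_lit 0x40018d50001))) 
(.lf (nat_lit 15441920) (dlOf (nat_lit 1) (nat_lit 0x800087f0001)))) (.nd (nat_lit 18) 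
(.lf (nat_lit 15441936) (dlOf (nat_lit 1) (nat_lit 0x4004000200087f0182))) 
(.lf (nat_lit 15704080) (dlOf (nat_lit 1) (nat_lit 0x20018820201)))))) (.nd (nat_lit 18) 
(.nd (nat_lit 8) (.nd (nat_lit 4) 
(.lf (nat_lit 50045952) (dlOf (nat_lit 1) (nat_lit 0xe00294c2881))) (.nd (nat_lit 26) 
(.lf (nat_lit 3493568528) (dlOf (nat_lit 1) (nat_lit 0x28008002c00200460008170483))) 
(.lf (nat_lit 2755371024) (dlOf (nat_lit 1) (nat_lit 0x28008002c00200460008170483))))) 
(.nd (nat_lit 7) 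
(.lf (nat_lit 58434832) (dlOf (nat_lit 4) (nat_lit 0x2f25680006c0801812b40003404003895a0001902000200297e3001))) 
(.lf (nat_lit 33270160) (dlOf (nat_lit 1) (nat_lit 0x20018f54e81))))) (.nd (nat_lit 4) 
(.nd (nat_lit 8) (.lf (nat_lit 8365568) (dlOf (nat_lit 1) (nat_lit 0x800400380018513682))) 
(.lf (nat_lit 46113024) (dlOf (nat_lit 1) (nat_lit 0x58008005c00200220009380a83)))) 
(.nd (nat_lit 24) (.nd (nat_lit 25) 
(.lf (nat_lit 12558352) (dlOf (nat_lit 1) (nat_lit 0x180080010002000400086d0683))) 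
(.lf (nat_lit 46112784) (dlOf (nat_lit 2) (nat_lit 0x19a46001d10080068008002000200160009380003)))) 
(.lf (nat_lit 29335568) (dlOf (nat_lit 1) (nat_lit 0x10008000400200020008df0183))))))))) 
(.nd (nat_lit 4) (.nd (nat_lit 8) (.nd (nat_lit 19) (.nd (nat_lit 28) (.nd (nat_lit 26) 
(.nd (nat_lit 27) (.nd (nat_lit 18) (.nd (nat_lit 23) 
(.lf (nat_lit 4295204928) (dlOf (nat_lit 1) (nat_lit 0x4004000200080b0c82))) 
(.lf (nat_lit 25403456) (dlOf (nat_lit 1) (nat_lit 0x80018c00e01)))) 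
(.lf (nat_lit 2596928) (dlOf (nat_lit 1) (nat_lit 0x8008000400200020008170c83)))) (.nd (nat_lit 32) 
(.lf (nat_lit 134455360) (dlOf (nat_lit 3) (nat_lit 0x1380c40150022000050401a803100ff0088000001001d8008005400200100008020783))) 
(.lf (nat_lit 4429422656) (dlOf (nat_lit 1) (nat_lit 0x4004000200080b0c82))))) (.nd (nat_lit 9) 
(.nd (nat_lit 18) 
(.lf (nat_lit 201564224) (dlOf (nat_lit 3) (nat_lit 0x1380c40150022000050401a803100ff0088000001001d8008005400200100008020783))) 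
(.lf (nat_lit 2755108928) (dlOf (nat_lit 2) (nat_lit 0x21d600001018110780)))) (.nd (nat_lit 29) 
(.lf (nat_lit 3288572480) (dlOf (nat_lit 2) (nat_lit 0x200000000018091080))) 
(.lf (nat_lit 1677959744) (dlOf (nat_lit 1) (nat_lit 0xc00400020018128b82)))))) (.nd (nat_lit 26) 
(.nd (nat_lit 30) (.nd (nat_lit 27) 
(.lf (nat_lit 4563640384) (dlOf (nat_lit 4) (nat_lit 0x8068001e02f000200f8000fc1802700cc052405c0003604012602e006200f0000d01003800080114002007c00080b0503))) 
(.lf (nat_lit 4697858112) (dlOf (nat_lit 4) (nat_lit 0x8068001e02f000200f8000fc1802700cc052405c0003804012602e006200f0000d01003800080114002007c00080b0503)))) 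
(.nd (nat_lit 9) (.nd (nat_lit 18) 
(.lf (nat_lit 1342414912) (dlOf (nat_lit 7) (nat_lit 0x12623100941158000b01001c80000004604004c000000200202102490000801038c124805708fc0bcc3e006281c702c50de800020281aa89240840490017423f014c118803788ac0aac3e0010a1ef01cc0f4815d871c09ac37a01001b7001a0bd00000060097000801d800209e20008020783))) 
(.lf (nat_lit 3493306432) (dlOf (nat_lit 2) (nat_lit 0x21c400001018110780)))) 
(.lf (nat_lit 4026769984) (dlOf (nat_lit 2) (nat_lit 0x200000000018091080))))) (.nd (nat_lit 18) 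
(.nd (nat_lit 27) 
(.lf (nat_lit 2483265600) (dlOf (nat_lit 2) (nat_lit 0xc01e00dfc02000a0018090001))) 
(.lf (nat_lit 469999680) (dlOf (nat_lit 7) (nat_lit 0x12623100941158000b01001c80000004604004c000000200202102490000801038c124805708fc0bcc3e006281c702c50de800020281aa89240840490017423f014c118803788ac0aac3e0010a1ef01cc0f4815d871c09ac37a01001b7001a0c180000060097000801d800209e20008020783)))) 
(.lf (nat_lit 1009229888) (dlOf (nat_lit 1) (nat_lit 0x18004001c00090a0602)))))) (.nd (nat_lit 18) 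
(.nd (nat_lit 9) (.nd (nat_lit 23) (.nd (nat_lit 26) 
(.lf (nat_lit 537632832) (dlOf (nat_lit 2) (nat_lit 0x7017c00042040004004003400180e0e02))) 
(.lf (nat_lit 1410048064) (dlOf (nat_lit 2) (nat_lit 0x7017c00042040004004003400180e0e02)))) 
(.lf (nat_lit 59482176) (dlOf (nat_lit 1) (nat_lit 0x60019800601)))) (.nd (nat_lit 7) 
(.lf (nat_lit 8108608) (dlOf (nat_lit 1) (nat_lit 0x2800800440020014000851b483))) (.nd (nat_lit 21) 
(.lf (nat_lit 67877568) (dlOf (nat_lit 1) (nat_lit 0x40020078000833b982))) 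
(.lf (nat_lit 19643072) (dlOf (nat_lit 1) (nat_lit 0x4002000200089db982)))))) (.nd (nat_lit 20) 
(.nd (nat_lit 9) (.nd (nat_lit 11) 
(.lf (nat_lit 13606976) (dlOf (nat_lit 2) (nat_lit 0x2bc630003e018730b80))) 
(.lf (nat_lit 3492784192) (dlOf (nat_lit 1) (nat_lit 0x4004000200080f4702)))) 
(.lf (nat_lit 3492788800) (dlOf (nat_lit 1) (nat_lit 0x1c0002015a00080fb482)))) (.nd (nat_lit 7) 
(.nd (nat_lit 24) 
(.lf (nat_lit 473931840) (dlOf (nat_lit 2) (nat_lit 0x1e160000a0a6804f8364002c1b0001408d000a03e80091c30076800800d4002002e0008fc0603))) 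
(.lf (nat_lit 20947008) (dlOf (nat_lit 1) (nat_lit 0x80080014002000200089f0503)))) 
(.lf (nat_lit 41919680) (dlOf (nat_lit 1) (nat_lit 0x20019242d01))))))) (.nd (nat_lit 7) 
(.nd (nat_lit 9) (.nd (nat_lit 20) (.nd (nat_lit 21) (.nd (nat_lit 26) 
(.lf (nat_lit 805544256) (dlOf (nat_lit 10) (nat_lit 0x5a00a0022501002d0050010b4080168028008500400640140041602001200a0020781002d0050010340801680280080e0400b40140040402005a00a00000018124c00))) 
(.lf (nat_lit 1677959488) (dlOf (nat_lit 10) (nat_lit 0x5a00a004ec01002d0050027080801680280137a040024014009ad02005a00a004d581001900500269c080168028013420400b40140099e02005a00a00000018124c00)))) 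
(.lf (nat_lit 1008968000) (dlOf (nat_lit 2) (nat_lit 0x181900000004002000400160009000c02)))) 
(.nd (nat_lit 18) (.lf (nat_lit 2752749888) (dlOf (nat_lit 1) (nat_lit 0x140018048601))) 
(.lf (nat_lit 46113088) (dlOf (nat_lit 2) (nat_lit 0x40000002702001c0009380c01))))) 
(.nd (nat_lit 20) (.nd (nat_lit 18) (.nd (nat_lit 19) 
(.lf (nat_lit 239424) (dlOf (nat_lit 1) (nat_lit 0x3e0018003e01))) 
(.lf (nat_lit 134981440) (dlOf (nat_lit 1) (nat_lit 0x8e00080f3e01)))) 
(.lf (nat_lit 1946658624) (dlOf (nat_lit 5) (nat_lit 0xbc0000001b01005e0000000d00806900000005c04040c0000002d02008600180f3e01)))) 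
(.nd (nat_lit 10) (.lf (nat_lit 20163392) (dlOf (nat_lit 1) (nat_lit 0x8002000200089d5c02))) 
(.lf (nat_lit 3493046080) (dlOf (nat_lit 2) (nat_lit 0x15601c000168180f3e00)))))) (.nd (nat_lit 28) 
(.nd (nat_lit 19) (.nd (nat_lit 30) (.nd (nat_lit 20) 
(.lf (nat_lit 23306688) (dlOf (nat_lit 2) (nat_lit 0x700000000004008000200200008b80882))) 
(.lf (nat_lit 1286592) (dlOf (nat_lit 1) (nat_lit 0x80080004002000200080a7003)))) (.nd (nat_lit 18) 
(.lf (nat_lit 3288572352) (dlOf (nat_lit 2) (nat_lit 0x6600000000018090880))) 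
(.lf (nat_lit 1745330624) (dlOf (nat_lit 2) (nat_lit 0x20228008680803100080010002000c0008117003))))) 
(.nd (nat_lit 10) (.lf (nat_lit 51093952) (dlOf (nat_lit 1) (nat_lit 0x200294f7001))) 
(.lf (nat_lit 8109504) (dlOf (nat_lit 1) (nat_lit 0x800800040020004000851cd03))))) 
(.nd (nat_lit 10) (.nd (nat_lit 27) (.nd (nat_lit 29) 
(.lf (nat_lit 2416157120) (dlOf (nat_lit 2) (nat_lit 0x4800d000000080028008002000200060008090883))) 
(.lf (nat_lit 4026769856) (dlOf (nat_lit 2) (nat_lit 0x6600000000018090880)))) 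
(.lf (nat_lit 2550374848) (dlOf (nat_lit 2) (nat_lit 0x4800d000000080028008002000200060008090883)))) 
(.nd (nat_lit 9) (.lf (nat_lit 4095714752) (dlOf (nat_lit 1) (nat_lit 0x10002000400080e3602))) 
(.lf (nat_lit 3492788160) (dlOf (nat_lit 1) (nat_lit 0x6800800d8002002a00080fa603)))))))) 
(.nd (nat_lit 19) (.nd (nat_lit 29) (.nd (nat_lit 18) (.nd (nat_lit 7) (.nd (nat_lit 8) 
(.nd (nat_lit 9) (.lf (nat_lit 5704492112) (dlOf (nat_lit 1) (nat_lit 0x4004000200080d2882))) 
(.lf (nat_lit 5637383760) (dlOf (nat_lit 1) (nat_lit 0x23800800d800200ce00080d3883)))) 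
(.lf (nat_lit 23306576) (dlOf (nat_lit 1) (nat_lit 0x20018b80601)))) (.nd (nat_lit 8) 
(.lf (nat_lit 9674960) (dlOf (nat_lit 1) (nat_lit 0x40008571881))) (.nd (nat_lit 21) 
(.lf (nat_lit 3288572368) (dlOf (nat_lit 3) (nat_lit 0xa804c000480400cc026000220200020018090a01))) 
(.lf (nat_lit 23306704) (dlOf (nat_lit 1) (nat_lit 0x20028b80a01)))))) (.nd (nat_lit 21) 
(.nd (nat_lit 9) (.nd (nat_lit 8) 
(.lf (nat_lit 35102800) (dlOf (nat_lit 1) (nat_lit 0x20028fd0701))) 
(.lf (nat_lit 25665872) (dlOf (nat_lit 1) (nat_lit 0x400200020008c10802)))) (.nd (nat_lit 7) 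
(.lf (nat_lit 38251088) (dlOf (nat_lit 1) (nat_lit 0x400400020009135282))) 
(.lf (nat_lit 1476897488) (dlOf (nat_lit 3) (nat_lit 0x6406a0002702000c029000600f80005c1001580080058002000400082d5883))))) 
(.nd (nat_lit 22) (.lf (nat_lit 44539984) (dlOf (nat_lit 1) (nat_lit 0x360029320001))) 
(.nd (nat_lit 24) 
(.lf (nat_lit 48734288) (dlOf (nat_lit 8) (nat_lit 0x47b5e00290aa48009551c0007e0c0482a920003e0202415490001e810010aa4800080000001e080336bc0000354900005020129af00090d5240000e080022bc0006954900003029420700))) 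
(.lf (nat_lit 31957072) (dlOf (nat_lit 1) (nat_lit 0x40028eb0701))))))) (.nd (nat_lit 30) 
(.nd (nat_lit 8) (.nd (nat_lit 9) (.nd (nat_lit 18) 
(.lf (nat_lit 939761744) (dlOf (nat_lit 1) (nat_lit 0x20028171001))) 
(.lf (nat_lit 1009229904) (dlOf (nat_lit 8) (nat_lit 0x8f41c603c00e202e303b007901d40007e1002b41c402840760001f0200ad0710000f408086838c04cc0ec000360400040e30000781010e071808981d80000e0800541c6003e076000000290a0700)))) 
(.lf (nat_lit 5234730576) (dlOf (nat_lit 1) (nat_lit 0x4004000200080d3882)))) (.nd (nat_lit 7) 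
(.nd (nat_lit 11) (.lf (nat_lit 805544272) (dlOf (nat_lit 2) (nat_lit 0x400a00033818124d00))) 
(.lf (nat_lit 2885921104) (dlOf (nat_lit 5) (nat_lit 0x6043001f020800480000002c0c0004036000150200060410003000000014100020104000c000000040400060008144d81)))) 
(.lf (nat_lit 2751701968) (dlOf (nat_lit 1) (nat_lit 0x40028002881))))) (.nd (nat_lit 28) 
(.nd (nat_lit 7) (.nd (nat_lit 18) 
(.lf (nat_lit 1812176976) (dlOf (nat_lit 1) (nat_lit 0x20028171001))) 
(.lf (nat_lit 3892813904) (dlOf (nat_lit 2) (nat_lit 0xc1028806080cc030403a019601600cc00280017c28005000800b800200040008280203)))) 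
(.lf (nat_lit 3892814032) (dlOf (nat_lit 1) (nat_lit 0x20028280501)))) (.nd (nat_lit 7) 
(.nd (nat_lit 8) (.lf (nat_lit 6174254160) (dlOf (nat_lit 1) (nat_lit 0x4004000200080d2882))) 
(.lf (nat_lit 6308473680) (dlOf (nat_lit 1) (nat_lit 0x4004000200080d5c02)))) 
(.lf (nat_lit 4026769872) (dlOf (nat_lit 3) (nat_lit 0xa804c000480400cc026000220200020018090a01))))))) 
(.nd (nat_lit 18) (.nd (nat_lit 20) (.nd (nat_lit 9) (.nd (nat_lit 24) (.nd (nat_lit 26) 
(.lf (nat_lit 3492520016) (dlOf (nat_lit 1) (nat_lit 0x80080004002000200080d0d03))) 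
(.lf (nat_lit 2754322512) (dlOf (nat_lit 1) (nat_lit 0x80080004002000200080d0d03)))) 
(.nd (nat_lit 7) 
(.lf (nat_lit 59482192) (dlOf (nat_lit 9) (nat_lit 0x2ccca0008595000526a0001141800a19f80006c04018ccfc0003502001867d001133e00099998003ccca001c59400132c98010139800649a800063f20000b09000533e800419980018b2800015060122594003626a00004410002165000004040070cfa0044666001d2ca000000180040008004c00200100009800703))) 
(.lf (nat_lit 19640528) (dlOf (nat_lit 1) (nat_lit 0x2c00289d8081))))) (.nd (nat_lit 7) 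
(.nd (nat_lit 8) (.lf (nat_lit 19640912) (dlOf (nat_lit 1) (nat_lit 0x400289d8981))) 
(.lf (nat_lit 19637072) (dlOf (nat_lit 2) (nat_lit 0x3ac1000076040208004000c00189d2482)))) 
(.lf (nat_lit 19636944) (dlOf (nat_lit 2) (nat_lit 0x491000006404000c004000800089d2002))))) 
(.nd (nat_lit 22) (.nd (nat_lit 21) 
(.lf (nat_lit 10199120) (dlOf (nat_lit 2) (nat_lit 0x692480005404000c004000200185c1002))) 
(.lf (nat_lit 45850704) (dlOf (nat_lit 1) (nat_lit 0x20029360701)))) (.nd (nat_lit 7) 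
(.nd (nat_lit 8) (.lf (nat_lit 8104016) (dlOf (nat_lit 1) (nat_lit 0x400400020008514702))) 
(.lf (nat_lit 50046288) (dlOf (nat_lit 2) (nat_lit 0x130a9e0000e02013600194c3301)))) 
(.lf (nat_lit 8106192) (dlOf (nat_lit 1) (nat_lit 0xa0028518081)))))) (.nd (nat_lit 21) 
(.nd (nat_lit 24) (.nd (nat_lit 8) (.nd (nat_lit 26) 
(.lf (nat_lit 1343201360) (dlOf (nat_lit 2) (nat_lit 0x5212d00011018190700))) 
(.lf (nat_lit 68132944) (dlOf (nat_lit 2) (nat_lit 0x600000011018400700)))) 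
(.lf (nat_lit 2752487760) (dlOf (nat_lit 1) (nat_lit 0x30008026000200240008014d83)))) 
(.nd (nat_lit 22) (.lf (nat_lit 59744336) (dlOf (nat_lit 1) (nat_lit 0x400400020009820702))) 
(.lf (nat_lit 21995600) (dlOf (nat_lit 1) (nat_lit 0x400400020018a81002))))) (.nd (nat_lit 8) 
(.nd (nat_lit 22) 
(.lf (nat_lit 473931856) (dlOf (nat_lit 5) (nat_lit 0x9415f004b06b80005810015057c00d81ae0001504005415f000090100470af8020835c000000801f000400560008fc0702))) 
(.lf (nat_lit 16752720) (dlOf (nat_lit 2) (nat_lit 0xfc43f0002f8188e0200)))) (.nd (nat_lit 7) 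
(.lf (nat_lit 2754591568) (dlOf (nat_lit 1) (nat_lit 0x800080fbc81))) 
(.lf (nat_lit 19901392) (dlOf (nat_lit 1) (nat_lit 0x600089d5d81))))))))))))

end

end Pool.Agent.Lib.MP_5854e1_co.Cz

namespace Pool.Agent.Lib.MP_5854e1_co.Cz

noncomputable section

noncomputable def tz04 : DT := (.nd (nat_lit 17) (.nd (nat_lit 4) (.nd (nat_lit 16) 
(.nd (nat_lit 28) (.nd (nat_lit 6) (.nd (nat_lit 26) (.nd (nat_lit 19) (.nd (nat_lit 7) 
(.nd (nat_lit 8) (.nd (nat_lit 22) (.nd (nat_lit 31) (.nd (nat_lit 24) 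
(.lf (nat_lit 5368709152) (dlOf (nat_lit 1) (nat_lit 0x5400200140008000002))) 
(.lf (nat_lit 16777248) (dlOf (nat_lit 1) (nat_lit 0x4002000200088e0002)))) (.nd (nat_lit 27) 
(.lf (nat_lit 2684354592) (dlOf (nat_lit 1) (nat_lit 0x800800cc002003e0008000003))) 
(.lf (nat_lit 2281701408) (dlOf (nat_lit 1) (nat_lit 0x800800e800200360008000003))))) 
(.nd (nat_lit 18) 
(.lf (nat_lit 20971552) (dlOf (nat_lit 3) (nat_lit 0x16885600046020066000000228189f0180))) 
(.lf (nat_lit 14942240) (dlOf (nat_lit 1) (nat_lit 0x4004000200087a0602))))) (.nd (nat_lit 11) 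
(.lf (nat_lit 9699616) (dlOf (nat_lit 1) (nat_lit 0x4e0018574201))) 
(.lf (nat_lit 536873248) (dlOf (nat_lit 1) (nat_lit 0x400200020008004b82))))) (.nd (nat_lit 8) 
(.nd (nat_lit 9) (.nd (nat_lit 18) 
(.lf (nat_lit 2097312) (dlOf (nat_lit 1) (nat_lit 0x8008000400200020008150203))) 
(.lf (nat_lit 1208221856) (dlOf (nat_lit 1) (nat_lit 0x200080a2b81)))) 
(.lf (nat_lit 2684355232) (dlOf (nat_lit 1) (nat_lit 0x28008000400200020008001c03)))) 
(.nd (nat_lit 9) (.nd (nat_lit 23) 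
(.lf (nat_lit 5502928288) (dlOf (nat_lit 1) (nat_lit 0x2ec00401a20008003602))) 
(.lf (nat_lit 8390048) (dlOf (nat_lit 1) (nat_lit 0x400200020008513602)))) (.nd (nat_lit 11) 
(.lf (nat_lit 2281702304) (dlOf (nat_lit 1) (nat_lit 0x7c0008002601))) 
(.lf (nat_lit 4294974368) (dlOf (nat_lit 1) (nat_lit 0x2002800bc81))))))) (.nd (nat_lit 20) 
(.nd (nat_lit 27) (.nd (nat_lit 9) 
(.lf (nat_lit 1611137056) (dlOf (nat_lit 2) (nat_lit 0x1801500004c0802b800800c400200c800080f0b03))) 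
(.lf (nat_lit 8918560) (dlOf (nat_lit 1) (nat_lit 0x190008008000200480008519c03)))) 
(.nd (nat_lit 18) 
(.lf (nat_lit 134742048) (dlOf (nat_lit 9) (nat_lit 0x4004300e9020800080fc033407a011003800c8b050096021805f8104026007e015c03d009201d003b00e00322a18007c0860191302011e0430084020800f80fc02d407a002603a007601c00644430060010c02d007e01870040044043001301f8061bc1002b810c00e807e0186d04005c043009401f8061ac1002f00080004002001c00080a0903))) 
(.lf (nat_lit 2819358752) (dlOf (nat_lit 27) (nat_lit 0x17e81bc00a8068000e804054c06f002b01a00039c1002f01bc0034068000e604055806f002b01a0003941000c01bc001c6040a900de0052034000710202600378003840803b80000015a0400c4000000ac020020043000800e0002941003d01d4012408c0054032004d01480080084003404000a200000044870057000000220080248118016400000086040130000000428100890000002100800900000010604012408c00920210003f82004902300240084000fc080260000000790201300000003b81000c03780002c0806501bc00240680000a0401c806f000048101150378000140802501bc000080402140de000000200de0018250601)))))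 
(.nd (nat_lit 18) (.nd (nat_lit 22) 
(.lf (nat_lit 26738720) (dlOf (nat_lit 1) (nat_lit 0x20008c70701))) 
(.lf (nat_lit 5767200) (dlOf (nat_lit 1) (nat_lit 0x4004000200083d0602)))) (.nd (nat_lit 8) 
(.lf (nat_lit 16515104) (dlOf (nat_lit 1) (nat_lit 0x4004000200088b0682))) 
(.lf (nat_lit 1835296) (dlOf (nat_lit 1) (nat_lit 0x1400400020008150502))))))) (.nd (nat_lit 31) 
(.nd (nat_lit 19) (.nd (nat_lit 29) (.nd (nat_lit 7) 
(.lf (nat_lit 67108896) (dlOf (nat_lit 1) (nat_lit 0x40008001c00200140008000003))) 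
(.lf (nat_lit 5436080288) (dlOf (nat_lit 2) (nat_lit 0x1100a0000b40800600080018002001c00080c1303)))) 
(.nd (nat_lit 8) 
(.lf (nat_lit 5033164832) (dlOf (nat_lit 1) (nat_lit 0x80080028002000a0008000003))) 
(.lf (nat_lit 603983648) (dlOf (nat_lit 1) (nat_lit 0x8008000400200020008007483))))) 
(.nd (nat_lit 27) 
(.lf (nat_lit 4362600480) (dlOf (nat_lit 2) (nat_lit 0x250198000000807a000802cc002000800080a0903))) 
(.nd (nat_lit 29) 
(.lf (nat_lit 201850912) (dlOf (nat_lit 9) (nat_lit 0x4004300e9020800080fc033407a011003800e31850096021805f8104026007e015c03d009201d003b00e0038c418007c08601c6002011e0430084020800f80fc02d407a002603a007601c00717830060010c02d007e01bd6040044043001301f806f541002b810c00e807e01bd304005c043009401f806f401002f00080004002001c00080a0903))) 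
(.lf (nat_lit 738721824) (dlOf (nat_lit 2) (nat_lit 0x1801500004c0802b800800c400200c800080f0b03)))))) 
(.nd (nat_lit 9) (.nd (nat_lit 8) (.nd (nat_lit 19) (.nd (nat_lit 27) 
(.lf (nat_lit 2214592544) (dlOf (nat_lit 1) (nat_lit 0x400400020008000002))) 
(.lf (nat_lit 6643777568) (dlOf (nat_lit 1) (nat_lit 0x8008006000200280008000003)))) 
(.lf (nat_lit 3288858656) (dlOf (nat_lit 2) (nat_lit 0x1a018000d8080003c03a01c6206001200281c0901)))) 
(.nd (nat_lit 11) (.lf (nat_lit 2752512288) (dlOf (nat_lit 1) (nat_lit 0x20018014201))) 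
(.lf (nat_lit 2348812576) (dlOf (nat_lit 1) (nat_lit 0x800200060008004b82))))) (.nd (nat_lit 7) 
(.nd (nat_lit 11) (.nd (nat_lit 30) 
(.lf (nat_lit 6509822496) (dlOf (nat_lit 1) (nat_lit 0x44c004019c0008157f02))) 
(.lf (nat_lit 3288597024) (dlOf (nat_lit 11) (nat_lit 0x18036000d01a000600ac002d20c001c06c0004034000b402000501b00059c0800800d800400560016604003002b000b181000801a80031c0800580d800300680001804000e036000701a00005c1000480d8002c06800016040016036000c01a0000541001b800801a400200100008090d83)))) 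
(.lf (nat_lit 2751470112) (dlOf (nat_lit 2) (nat_lit 0x88770018260400400040006000800b282)))) 
(.nd (nat_lit 8) (.lf (nat_lit 2751465120) (dlOf (nat_lit 1) (nat_lit 0x200028003a81))) 
(.lf (nat_lit 3288341408) (dlOf (nat_lit 1) (nat_lit 0x800801100020074000800bc83)))))))) 
(.nd (nat_lit 9) (.nd (nat_lit 18) (.nd (nat_lit 19) (.nd (nat_lit 10) (.nd (nat_lit 7) 
(.lf (nat_lit 12583008) (dlOf (nat_lit 1) (nat_lit 0x4002000200086d1282))) 
(.lf (nat_lit 2348812512) (dlOf (nat_lit 2) (nat_lit 0xa00a00006604002800400040018004a82)))) 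
(.nd (nat_lit 26) 
(.lf (nat_lit 134220896) (dlOf (nat_lit 1) (nat_lit 0x8008005800200180008006083))) 
(.lf (nat_lit 3288337504) (dlOf (nat_lit 1) (nat_lit 0x400400020008006082))))) (.nd (nat_lit 22) 
(.nd (nat_lit 26) (.lf (nat_lit 134742112) (dlOf (nat_lit 2) (nat_lit 0x1404f0000a0180a1300))) 
(.lf (nat_lit 4362600544) (dlOf (nat_lit 1) (nat_lit 0x1080080058002003000080a1283)))) 
(.nd (nat_lit 21) 
(.lf (nat_lit 55050336) (dlOf (nat_lit 9) (nat_lit 0x1098c00064c4000325d0003129400089260185e0a000e4c60003262000392f0001497400164a50005249806174300041318001898800024bc000725d0006129400149260185b0c00104c60008262000112f00024974001a4a500052498061643000193180307604000498c017c40200124c600be1810001263005f04080398008018000200080009690783))) 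
(.lf (nat_lit 48758880) (dlOf (nat_lit 1) (nat_lit 0x8008000400200020009420903)))))) 
(.nd (nat_lit 8) (.nd (nat_lit 10) (.nd (nat_lit 19) 
(.lf (nat_lit 24379488) (dlOf (nat_lit 2) (nat_lit 0xeb65f8008320803bd850000100600300018b91301))) 
(.lf (nat_lit 45875296) (dlOf (nat_lit 1) (nat_lit 0xc00400180009360902)))) 
(.lf (nat_lit 49022048) (dlOf (nat_lit 1) (nat_lit 0x27c0019462901)))) (.nd (nat_lit 7) 
(.nd (nat_lit 12) 
(.lf (nat_lit 50070880) (dlOf (nat_lit 2) (nat_lit 0x53784000bbbb0002da98000001800b000800f8002000200094c3403))) 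
(.lf (nat_lit 2818839904) (dlOf (nat_lit 1) (nat_lit 0x80028129901)))) (.nd (nat_lit 10) 
(.lf (nat_lit 47974880) (dlOf (nat_lit 1) (nat_lit 0xa0019404e81))) 
(.lf (nat_lit 8127968) (dlOf (nat_lit 1) (nat_lit 0x400200020008513602))))))) (.nd (nat_lit 8) 
(.nd (nat_lit 10) (.nd (nat_lit 7) (.nd (nat_lit 11) 
(.lf (nat_lit 603984480) (dlOf (nat_lit 1) (nat_lit 0x6900080424002023c0008008983))) 
(.lf (nat_lit 5570300512) (dlOf (nat_lit 1) (nat_lit 0x200080078002000e00080d5383)))) 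
(.lf (nat_lit 603984608) (dlOf (nat_lit 1) (nat_lit 0x400200020008008c82)))) (.nd (nat_lit 26) 
(.nd (nat_lit 27) (.lf (nat_lit 2684360288) (dlOf (nat_lit 1) (nat_lit 0x1000400020008009c02))) 
(.lf (nat_lit 2281707104) (dlOf (nat_lit 1) (nat_lit 0x400400020008009c02)))) (.nd (nat_lit 27) 
(.lf (nat_lit 2214598240) (dlOf (nat_lit 1) (nat_lit 0x400400020008009c02))) 
(.lf (nat_lit 6643783264) (dlOf (nat_lit 1) (nat_lit 0x400400020008009c02)))))) (.nd (nat_lit 19) 
(.nd (nat_lit 7) (.nd (nat_lit 10) 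
(.lf (nat_lit 134224736) (dlOf (nat_lit 1) (nat_lit 0x62000800bc81))) 
(.lf (nat_lit 67114848) (dlOf (nat_lit 1) (nat_lit 0x40020002000800a302)))) 
(.lf (nat_lit 5502927840) (dlOf (nat_lit 1) (nat_lit 0xc0018002881)))) (.nd (nat_lit 18) 
(.lf (nat_lit 2751988704) (dlOf (nat_lit 1) (nat_lit 0x400200020008002882))) (.nd (nat_lit 20) 
(.lf (nat_lit 34341856) (dlOf (nat_lit 1) (nat_lit 0x400200020008fb2882))) 
(.lf (nat_lit 47973344) (dlOf (nat_lit 1) (nat_lit 0x40029402881))))))))) (.nd (nat_lit 26) 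
(.nd (nat_lit 31) (.nd (nat_lit 6) (.nd (nat_lit 18) (.nd (nat_lit 7) (.nd (nat_lit 21) 
(.lf (nat_lit 2013265952) (dlOf (nat_lit 1) (nat_lit 0x400400020008000002))) 
(.lf (nat_lit 1344274464) (dlOf (nat_lit 1) (nat_lit 0x400400100008560182)))) (.nd (nat_lit 29) 
(.lf (nat_lit 1342184352) (dlOf (nat_lit 1) (nat_lit 0x40040002000800bc82))) 
(.lf (nat_lit 1879055264) (dlOf (nat_lit 1) (nat_lit 0x40040002000800bc82))))) (.nd (nat_lit 19) 
(.lf (nat_lit 1343488032) (dlOf (nat_lit 5) (nat_lit 0x404e8004823800d0408000413a0067202002c08e0020c01000304700102408034000800d400200c60008260683))) 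
(.nd (nat_lit 21) 
(.lf (nat_lit 5773197344) (dlOf (nat_lit 2) (nat_lit 0x704bc0008a04001c004000a00180b0182))) 
(.lf (nat_lit 1346109472) (dlOf (nat_lit 1) (nat_lit 0x20018e50681)))))) (.nd (nat_lit 7) 
(.nd (nat_lit 9) (.nd (nat_lit 10) 
(.lf (nat_lit 805830752) (dlOf (nat_lit 2) (nat_lit 0xa902b0029804c0002008009400400f600181b1302))) 
(.lf (nat_lit 1342180448) (dlOf (nat_lit 1) (nat_lit 0x400400020008006082)))) (.nd (nat_lit 8) 
(.lf (nat_lit 6308498016) (dlOf (nat_lit 1) (nat_lit 0x80080014002000200080d5383))) 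
(.lf (nat_lit 1476400992) (dlOf (nat_lit 1) (nat_lit 0x2002800a301))))) (.nd (nat_lit 9) 
(.lf (nat_lit 5772149216) (dlOf (nat_lit 2) (nat_lit 0x20a680002c080010008000800200020008091283))) 
(.nd (nat_lit 12) (.lf (nat_lit 1345586144) (dlOf (nat_lit 1) (nat_lit 0xc80018d72881))) 
(.lf (nat_lit 1342182368) (dlOf (nat_lit 1) (nat_lit 0x620028009201))))))) (.nd (nat_lit 7) 
(.nd (nat_lit 8) (.nd (nat_lit 6) (.nd (nat_lit 19) 
(.lf (nat_lit 6710886432) (dlOf (nat_lit 1) (nat_lit 0x100080020002000c0008000003))) 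
(.lf (nat_lit 4027056160) (dlOf (nat_lit 2) (nat_lit 0x1a018000d8080003c03a0191506001200281c0901)))) 
(.lf (nat_lit 2550140000) (dlOf (nat_lit 1) (nat_lit 0x400400020008006082)))) (.nd (nat_lit 10) 
(.nd (nat_lit 18) 
(.lf (nat_lit 3490709792) (dlOf (nat_lit 1) (nat_lit 0x8008000400200020008014183))) 
(.lf (nat_lit 3490971936) (dlOf (nat_lit 1) (nat_lit 0x20028047801)))) (.nd (nat_lit 6) 
(.lf (nat_lit 2952793888) (dlOf (nat_lit 1) (nat_lit 0x8008000400200020008007483))) 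
(.lf (nat_lit 3490188640) (dlOf (nat_lit 1) (nat_lit 0xc0028006a81)))))) (.nd (nat_lit 8) 
(.nd (nat_lit 9) (.nd (nat_lit 12) 
(.lf (nat_lit 3490971808) (dlOf (nat_lit 1) (nat_lit 0x600008044301))) 
(.lf (nat_lit 2952794272) (dlOf (nat_lit 1) (nat_lit 0x20018007d81)))) (.nd (nat_lit 6) 
(.lf (nat_lit 4161017504) (dlOf (nat_lit 1) (nat_lit 0x1000180a9f81))) 
(.lf (nat_lit 2952795872) (dlOf (nat_lit 1) (nat_lit 0xb8008001c0020004000800a003))))) 
(.nd (nat_lit 9) (.nd (nat_lit 18) 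
(.lf (nat_lit 3490709920) (dlOf (nat_lit 1) (nat_lit 0xa080080004002011e0008016b83))) 
(.lf (nat_lit 3494117792) (dlOf (nat_lit 1) (nat_lit 0x4004000200181b0782)))) 
(.lf (nat_lit 2550143904) (dlOf (nat_lit 1) (nat_lit 0x800801b4002005e000800bc83))))))) 
(.nd (nat_lit 31) (.nd (nat_lit 7) (.nd (nat_lit 30) (.nd (nat_lit 32) (.nd (nat_lit 8) 
(.lf (nat_lit 471859232) (dlOf (nat_lit 1) (nat_lit 0x400400100008540182))) 
(.lf (nat_lit 469765920) (dlOf (nat_lit 1) (nat_lit 0x400400020008007482)))) (.nd (nat_lit 29) 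
(.lf (nat_lit 4764729376) (dlOf (nat_lit 1) (nat_lit 0x10008001800200040008000003))) 
(.lf (nat_lit 5301600288) (dlOf (nat_lit 1) (nat_lit 0x80080018002000a0008000003))))) 
(.nd (nat_lit 6) (.nd (nat_lit 9) 
(.lf (nat_lit 6377177120) (dlOf (nat_lit 2) (nat_lit 0x704800008a04001c004000a00180b0182))) 
(.lf (nat_lit 1409810976) (dlOf (nat_lit 1) (nat_lit 0x400200020008090d82)))) (.nd (nat_lit 29) 
(.lf (nat_lit 1409289312) (dlOf (nat_lit 1) (nat_lit 0x400400020008006082))) 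
(.lf (nat_lit 1946160224) (dlOf (nat_lit 1) (nat_lit 0x8008000400200020008006083)))))) 
(.nd (nat_lit 6) (.nd (nat_lit 8) 
(.lf (nat_lit 5301862560) (dlOf (nat_lit 2) (nat_lit 0x1100a00005c0800600080018002001c00080c1303))) 
(.nd (nat_lit 9) (.lf (nat_lit 472385952) (dlOf (nat_lit 1) (nat_lit 0x20018984e81))) 
(.lf (nat_lit 1409293216) (dlOf (nat_lit 1) (nat_lit 0xc80080394002011a000800bc83))))) 
(.nd (nat_lit 12) (.nd (nat_lit 8) 
(.lf (nat_lit 5301862624) (dlOf (nat_lit 2) (nat_lit 0x440088000000801480080020002003600080c1a83))) 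
(.lf (nat_lit 5704516576) (dlOf (nat_lit 1) (nat_lit 0x400280d2881)))) (.nd (nat_lit 10) 
(.lf (nat_lit 469767136) (dlOf (nat_lit 1) (nat_lit 0x620028009201))) 
(.lf (nat_lit 1543509984) (dlOf (nat_lit 2) (nat_lit 0x8064000000400200040010000800a602))))))) 
(.nd (nat_lit 11) (.nd (nat_lit 18) (.nd (nat_lit 6) (.nd (nat_lit 7) (.nd (nat_lit 30) 
(.lf (nat_lit 3154640928) (dlOf (nat_lit 2) (nat_lit 0xc019005348182f0680))) 
(.lf (nat_lit 4228382752) (dlOf (nat_lit 2) (nat_lit 0x250190000000807a000802cc002000800080a0903)))) 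
(.lf (nat_lit 3690991776) (dlOf (nat_lit 1) (nat_lit 0x20018007d81)))) 
(.lf (nat_lit 4228382816) (dlOf (nat_lit 5) (nat_lit 0x5f02880078134039007402cc0320063018000800a0000201803600640000f0202ce0320000701007701900001408038000802ac002039200080a1303)))) 
(.nd (nat_lit 6) (.nd (nat_lit 19) 
(.lf (nat_lit 3691249696) (dlOf (nat_lit 7) (nat_lit 0x1c05c000e02a000701100038084001c032001201800320060006017000300a80014044000c021000300d80030064001803000060140031f880008017000400a800200440010021000800c8004006000c7818001805c000c02a0005011000300840018032000a0180031c860006017000300a80018044000c021000600c8002806000c6c18000805c000c02a0005011000280840018032000a01800080088018cc380078008002c002000c00080e0683))) 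
(.lf (nat_lit 3557556256) (dlOf (nat_lit 5) (nat_lit 0x60068004ff0200300340027881003302480138c080010124009be04006800200220008260482)))) 
(.lf (nat_lit 2483290208) (dlOf (nat_lit 5) (nat_lit 0x400780004c0800c00a801100200001004000c010000070100100080000140801380080004002000200080a1303))))) 
(.nd (nat_lit 9) (.nd (nat_lit 6) (.nd (nat_lit 7) 
(.lf (nat_lit 3557038368) (dlOf (nat_lit 2) (nat_lit 0x70308000a008011000800040020038000812ab03))) 
(.lf (nat_lit 3557038496) (dlOf (nat_lit 1) (nat_lit 0x14002812af81)))) (.nd (nat_lit 7) 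
(.lf (nat_lit 2483031136) (dlOf (nat_lit 1) (nat_lit 0x400400020008006082))) 
(.lf (nat_lit 4227865824) (dlOf (nat_lit 1) (nat_lit 0x80040002001800c502))))) (.nd (nat_lit 10) 
(.nd (nat_lit 27) (.lf (nat_lit 2483035040) (dlOf (nat_lit 1) (nat_lit 0x40040002000800bc82))) 
(.lf (nat_lit 4227865504) (dlOf (nat_lit 1) (nat_lit 0x28002001c000800bc82)))) 
(.lf (nat_lit 3690991520) (dlOf (nat_lit 1) (nat_lit 0x20028007881))))))))) (.nd (nat_lit 18) 
(.nd (nat_lit 6) (.nd (nat_lit 10) (.nd (nat_lit 19) (.nd (nat_lit 23) (.nd (nat_lit 27) 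
(.nd (nat_lit 28) (.nd (nat_lit 7) 
(.lf (nat_lit 16842784) (dlOf (nat_lit 1) (nat_lit 0x4002000200088e0002))) 
(.lf (nat_lit 2684425120) (dlOf (nat_lit 1) (nat_lit 0x10004000c0008009102)))) (.nd (nat_lit 26) 
(.lf (nat_lit 4563468320) (dlOf (nat_lit 1) (nat_lit 0x20028090001))) 
(.lf (nat_lit 335609888) (dlOf (nat_lit 1) (nat_lit 0x20028090001))))) (.nd (nat_lit 29) 
(.lf (nat_lit 3355508768) (dlOf (nat_lit 1) (nat_lit 0x80080004002000200080a0003))) 
(.lf (nat_lit 1744896032) (dlOf (nat_lit 1) (nat_lit 0x80080288002008a0008090003))))) 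
(.nd (nat_lit 8) (.nd (nat_lit 20) 
(.lf (nat_lit 27328544) (dlOf (nat_lit 1) (nat_lit 0x400400020018cd0682))) 
(.lf (nat_lit 47251488) (dlOf (nat_lit 1) (nat_lit 0x200293c0101)))) 
(.lf (nat_lit 11600160) (dlOf (nat_lit 1) (nat_lit 0x3200286c0501))))) (.nd (nat_lit 20) 
(.nd (nat_lit 7) (.lf (nat_lit 21561376) (dlOf (nat_lit 1) (nat_lit 0x8008001400200040008a40103))) 
(.nd (nat_lit 8) 
(.lf (nat_lit 3154706592) (dlOf (nat_lit 1) (nat_lit 0x30008002400200080008310483))) 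
(.lf (nat_lit 537461152) (dlOf (nat_lit 1) (nat_lit 0xa0028090781))))) (.nd (nat_lit 21) 
(.nd (nat_lit 24) (.lf (nat_lit 10027040) (dlOf (nat_lit 1) (nat_lit 0x200285a0b01))) 
(.lf (nat_lit 26804256) (dlOf (nat_lit 6) (nat_lit 0x12dfb009d6c7008035480135aa20080d4f000d6a00002b4fc0029a7a0046cda00056648013b320017a82c0275b1c01c2d520007664802ef418009b5480174e040011b1c018ad52005a28200b96a9002ce8080290008003c00200460008c70703)))) 
(.lf (nat_lit 24707104) (dlOf (nat_lit 4) (nat_lit 0x10bce00085db8000c010002af38001576e0002e040014bce00010818bb0700)))))) 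
(.nd (nat_lit 28) (.nd (nat_lit 20) (.nd (nat_lit 7) (.nd (nat_lit 30) 
(.lf (nat_lit 4496360736) (dlOf (nat_lit 1) (nat_lit 0x6400200040008053102))) 
(.lf (nat_lit 5570102560) (dlOf (nat_lit 1) (nat_lit 0x400200020008053102)))) 
(.lf (nat_lit 8455584) (dlOf (nat_lit 1) (nat_lit 0x400200020008513602)))) (.nd (nat_lit 8) 
(.lf (nat_lit 59837472) (dlOf (nat_lit 1) (nat_lit 0x18008000800200060009846003))) 
(.lf (nat_lit 7935264) (dlOf (nat_lit 1) (nat_lit 0x400400040008519782))))) (.nd (nat_lit 8) 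
(.nd (nat_lit 7) (.nd (nat_lit 26) 
(.lf (nat_lit 2952860704) (dlOf (nat_lit 1) (nat_lit 0x180018009201))) 
(.lf (nat_lit 3691058208) (dlOf (nat_lit 1) (nat_lit 0x60018009201)))) 
(.lf (nat_lit 872481952) (dlOf (nat_lit 1) (nat_lit 0xc00200020008092b82)))) (.nd (nat_lit 27) 
(.lf (nat_lit 5100340512) (dlOf (nat_lit 1) (nat_lit 0xe20008053101))) 
(.lf (nat_lit 4697687328) (dlOf (nat_lit 1) (nat_lit 0x20018093101))))))) (.nd (nat_lit 10) 
(.nd (nat_lit 8) (.nd (nat_lit 20) (.nd (nat_lit 7) (.nd (nat_lit 19) 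
(.lf (nat_lit 12648544) (dlOf (nat_lit 1) (nat_lit 0x4002000200086d1282))) 
(.lf (nat_lit 42532960) (dlOf (nat_lit 1) (nat_lit 0x20029260901)))) (.nd (nat_lit 24) 
(.lf (nat_lit 470352096) (dlOf (nat_lit 1) (nat_lit 0x80080004002000200080c0483))) 
(.lf (nat_lit 17367264) (dlOf (nat_lit 1) (nat_lit 0x4004000200088e0582))))) (.nd (nat_lit 19) 
(.lf (nat_lit 47251552) (dlOf (nat_lit 1) (nat_lit 0x44002000200093c0782))) (.nd (nat_lit 21) 
(.lf (nat_lit 1343815776) (dlOf (nat_lit 1) (nat_lit 0x20008001000200060008370483))) 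
(.lf (nat_lit 28901472) (dlOf (nat_lit 1) (nat_lit 0x60008da0481)))))) (.nd (nat_lit 7) 
(.nd (nat_lit 9) (.nd (nat_lit 11) 
(.lf (nat_lit 1208025440) (dlOf (nat_lit 2) (nat_lit 0x402500000018090e00))) 
(.lf (nat_lit 134285664) (dlOf (nat_lit 1) (nat_lit 0x1c00200580008004e82)))) 
(.lf (nat_lit 2483100512) (dlOf (nat_lit 1) (nat_lit 0x1b00080140002005e000800bc83)))) 
(.nd (nat_lit 26) 
(.lf (nat_lit 268501984) (dlOf (nat_lit 1) (nat_lit 0x10008001400200020008052883))) 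
(.lf (nat_lit 3019965408) (dlOf (nat_lit 1) (nat_lit 0x800280d2881)))))) (.nd (nat_lit 8) 
(.nd (nat_lit 12) (.nd (nat_lit 7) (.nd (nat_lit 9) 
(.lf (nat_lit 1543572576) (dlOf (nat_lit 1) (nat_lit 0x800400020008146082))) 
(.lf (nat_lit 43058784) (dlOf (nat_lit 1) (nat_lit 0x200292a3901)))) 
(.lf (nat_lit 872482016) (dlOf (nat_lit 2) (nat_lit 0x380b40000004000400400020018092e02)))) 
(.nd (nat_lit 26) (.nd (nat_lit 27) 
(.lf (nat_lit 2684425824) (dlOf (nat_lit 1) (nat_lit 0x60028009c01))) 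
(.lf (nat_lit 3355514464) (dlOf (nat_lit 1) (nat_lit 0x4004000200080a9c02)))) 
(.lf (nat_lit 6643848800) (dlOf (nat_lit 1) (nat_lit 0x10008000400200020008009c03))))) 
(.nd (nat_lit 7) (.nd (nat_lit 9) (.nd (nat_lit 27) 
(.lf (nat_lit 3019965792) (dlOf (nat_lit 2) (nat_lit 0x210000000cc0800100080010002000600080d3403))) 
(.lf (nat_lit 3154183520) (dlOf (nat_lit 2) (nat_lit 0x404700000018103400)))) 
(.lf (nat_lit 671156064) (dlOf (nat_lit 1) (nat_lit 0x1b8008020800200b20008143f83)))) 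
(.nd (nat_lit 9) (.nd (nat_lit 26) 
(.lf (nat_lit 6308300256) (dlOf (nat_lit 1) (nat_lit 0x3400400020008053602))) 
(.lf (nat_lit 4899014112) (dlOf (nat_lit 1) (nat_lit 0x400200020008053602)))) 
(.lf (nat_lit 3623950304) (dlOf (nat_lit 4) (nat_lit 0x2000004e6010001000002578080008000000000400200020016000800a602)))))))) 
(.nd (nat_lit 6) (.nd (nat_lit 19) (.nd (nat_lit 27) (.nd (nat_lit 22) (.nd (nat_lit 26) 
(.nd (nat_lit 29) 
(.lf (nat_lit 4563730464) (dlOf (nat_lit 2) (nat_lit 0x2003c0000002000a00080d0101))) 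
(.lf (nat_lit 4026859552) (dlOf (nat_lit 13) (nat_lit 0x401b000880c0005405201c6306000a03600e3101000301b000400b8038bc08001006c01c5002000c0320014018000100a4037ac0c002406c01bd502002403600d8e81000101b006b0c0801080b801f4a04007c05c00f7802005602e007b7810028017003d640802a8008007c00200c600080a0903)))) 
(.nd (nat_lit 28) 
(.lf (nat_lit 3288662048) (dlOf (nat_lit 13) (nat_lit 0x401b000880c000540520191606000a03600c8a81000301b000400b80322208001006c018eb02000c0320014018000100a4030e00c002406c0186f02002403600bd901000101b005d7c0801080b801f6004007c05c00f7402005602e007b6810028017003d400802a8008007c00200c600080a0903))) 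
(.lf (nat_lit 872742944) (dlOf (nat_lit 12) (nat_lit 0x154040001301d039f00e41dcc068001202f076d01301e6009400480420016020004700e8330006c15a402e0016016039900901cb8044090800c027a005000f0000001389039a00e41da00680ec402604240128332006c15a402e001c016036400901d08044087c00c02d0005000268b009a01d002180d402b8062003c0300152017004d809c00b4042006c01f000300c000f00380174002036a000000230c0045020000a80fc074807402d403500e0018803180c0074805e01d002e010b013800180880738042024e020015a00e809d80700188030013c00e019300080e880000008a4800f804c000440203d0039021b01a001400b8085804c00ba01b01e200b8001805803d402603be01200cf00880dc801802d8000000431803da039022001a000100b8086c04c013201b01b800b80dd004c06dc02401cc01101b700300548000000842c00c807e0fce039080601a007a80c000f40541012026067c012835c006c187402e0832012047000880140028074400c013c005009d0000000f87802100e401dc0680003d0409d4039050901a028880980bd004a088401b02f200b816f804808f4022000a0000001e09018a01c80dd80d0003004c00de01b00330088000d42804c00080f740020e4400080b0183)))))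 
(.nd (nat_lit 7) (.nd (nat_lit 20) (.nd (nat_lit 21) 
(.lf (nat_lit 12910624) (dlOf (nat_lit 1) (nat_lit 0x200286e0a01))) 
(.lf (nat_lit 15007776) (dlOf (nat_lit 1) (nat_lit 0x8004000600187a0602)))) 
(.lf (nat_lit 16056352) (dlOf (nat_lit 1) (nat_lit 0x5e0018860681)))) (.nd (nat_lit 8) 
(.lf (nat_lit 21299360) (dlOf (nat_lit 1) (nat_lit 0x8008000400200020008a31303))) 
(.lf (nat_lit 54856608) (dlOf (nat_lit 1) (nat_lit 0x7000200aa0009655c82)))))) (.nd (nat_lit 26) 
(.nd (nat_lit 28) (.nd (nat_lit 29) (.nd (nat_lit 30) 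
(.lf (nat_lit 134545440) (dlOf (nat_lit 1) (nat_lit 0x1400200020008070682))) 
(.lf (nat_lit 1208287264) (dlOf (nat_lit 4) (nat_lit 0x1a0380002701011e01c008880200008c08002c0720001f02000400280b0181)))) 
(.lf (nat_lit 1745158176) (dlOf (nat_lit 12) (nat_lit 0x154040001301d039f00e41dcc068001202f076d01301e6009400480420016020004700e8330006c15a402e0016016039900901cb8044090800c027a005000f0000001389039a00e41da00680ec402604240128332006c15a402e001c016036400901d08044087c00c02d0005000268b009a01d002180d402b8062003c0300152017004d809c00b4042006c01f000300c000f00380174002036a000000230c0045020000a80fc074807402d403500e0018803180c0074805e01d002e010b013800180880738042024e020015a00e809d80700188030013c00e019300080e880000008a4800f804c000440203d0039021b01a001400b8085804c00ba01b01e200b8001805803d402603be01200cf00880dc801802d8000000431803da039022001a000100b8086c04c013201b01b800b80dd004c06dc02401cc01101b700300548000000842c00c807e0fce039080601a007a80c000f40541012026067c012835c006c187402e0832012047000880140028074400c013c005009d0000000f87802100e401dc0680003d0409d4039050901a028880980bd004a088401b02f200b816f804808f4022000a0000001e09018a01c80dd80d0003004c00de01b00330088000d42804c00080f740020e4400080b0183))))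 
(.nd (nat_lit 30) 
(.lf (nat_lit 4697948192) (dlOf (nat_lit 2) (nat_lit 0x2003c0000002000a00080d0101))) 
(.lf (nat_lit 1476722720) (dlOf (nat_lit 1) (nat_lit 0x200028150601))))) (.nd (nat_lit 7) 
(.nd (nat_lit 28) (.lf (nat_lit 201654304) (dlOf (nat_lit 1) (nat_lit 0x1400200020008070682))) 
(.lf (nat_lit 2080702496) (dlOf (nat_lit 4) (nat_lit 0x1a0380002701011e01c008880200008c08002c0720001f02000400280b0181)))) 
(.nd (nat_lit 22) 
(.lf (nat_lit 738525344) (dlOf (nat_lit 1) (nat_lit 0x80080004002000200080a2b83))) 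
(.lf (nat_lit 474284192) (dlOf (nat_lit 1) (nat_lit 0x800200c00009111302))))))) (.nd (nat_lit 23) 
(.nd (nat_lit 7) (.nd (nat_lit 8) (.nd (nat_lit 26) 
(.lf (nat_lit 3492610080) (dlOf (nat_lit 10) (nat_lit 0xa507f001d43f6007c1650010e83014e0fe00086c0809f07f0003d80406343f8001e702007a1fc000d18101710fe0005f8080cc87f0002f60405943f8001790202d01fc00180b28000001000300080054002000400080e0483))) 
(.lf (nat_lit 2754412576) (dlOf (nat_lit 10) (nat_lit 0xa5084401d4420007c1690011083014e10880087c0809f0844003d8040634422001e702007a211000d4010171108800614080cc8844003000405944220017e0202d021100180b48000001000300080054002000400080e0483)))) 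
(.lf (nat_lit 8193312) (dlOf (nat_lit 1) (nat_lit 0xc00400080018513102)))) (.nd (nat_lit 11) 
(.lf (nat_lit 8196512) (dlOf (nat_lit 1) (nat_lit 0x20018518381))) 
(.lf (nat_lit 36506016) (dlOf (nat_lit 1) (nat_lit 0x20019074e81))))) (.nd (nat_lit 21) 
(.nd (nat_lit 24) 
(.lf (nat_lit 9240608) (dlOf (nat_lit 3) (nat_lit 0x3c498001b1b480008c0801f4000000450200040018530181))) 
(.lf (nat_lit 59572256) (dlOf (nat_lit 2) (nat_lit 0x154048000d8080038008000c00200120009810683)))) 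
(.nd (nat_lit 24) (.lf (nat_lit 11337760) (dlOf (nat_lit 1) (nat_lit 0xfb00040aba0008690482))) 
(.lf (nat_lit 28114976) (dlOf (nat_lit 1) (nat_lit 0x8008000800200020008d50603))))))) 
(.nd (nat_lit 7) (.nd (nat_lit 28) (.nd (nat_lit 8) (.nd (nat_lit 9) (.nd (nat_lit 27) 
(.lf (nat_lit 3288662112) (dlOf (nat_lit 4) (nat_lit 0x300b00002e0400dc0000001302001403500020150000041000380080058002017800080a1303))) 
(.lf (nat_lit 738525280) (dlOf (nat_lit 1) (nat_lit 0x80080004002000200080a1983)))) 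
(.lf (nat_lit 54856288) (dlOf (nat_lit 1) (nat_lit 0x180019655381)))) (.nd (nat_lit 19) 
(.lf (nat_lit 11862368) (dlOf (nat_lit 3) (nat_lit 0x4d494000ac04001ea4a0001302000c00086c0681))) 
(.lf (nat_lit 1900896) (dlOf (nat_lit 5) (nat_lit 0x2514bc025aa5c00a552a0065a94802c147a0172a2b0002b06013252e0066a94802c947a0176a2b0000984004052e0014a948005947a003aa2b0000904007152e00004008028800804ec002006a0008150683))))) 
(.nd (nat_lit 27) (.nd (nat_lit 29) 
(.lf (nat_lit 4563730528) (dlOf (nat_lit 2) (nat_lit 0xc00f0000000800180080060002000200080d0783))) 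
(.lf (nat_lit 4026859616) (dlOf (nat_lit 1) (nat_lit 0x800080a1281)))) 
(.lf (nat_lit 4697948256) (dlOf (nat_lit 2) (nat_lit 0xc00f0000000800180080060002000200080d0783))))) 
(.nd (nat_lit 9) (.nd (nat_lit 21) (.nd (nat_lit 22) 
(.lf (nat_lit 402981088) (dlOf (nat_lit 1) (nat_lit 0x1800180c1a81))) 
(.lf (nat_lit 474284256) (dlOf (nat_lit 1) (nat_lit 0x24000400f80009111a82)))) 
(.lf (nat_lit 19202272) (dlOf (nat_lit 1) (nat_lit 0x400400020008970582)))) (.nd (nat_lit 8) 
(.lf (nat_lit 8196832) (dlOf (nat_lit 1) (nat_lit 0x400200020008518c82))) (.nd (nat_lit 10) 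
(.lf (nat_lit 34407392) (dlOf (nat_lit 1) (nat_lit 0x400200020008fb2882))) 
(.lf (nat_lit 3493140448) (dlOf (nat_lit 2) (nat_lit 0x444600afb02001200080fa601)))))))))) 
(.nd (nat_lit 16) (.nd (nat_lit 8) (.nd (nat_lit 18) (.nd (nat_lit 6) (.nd (nat_lit 26) 
(.nd (nat_lit 27) (.nd (nat_lit 19) (.nd (nat_lit 20) (.nd (nat_lit 22) 
(.lf (nat_lit 27263024) (dlOf (nat_lit 1) (nat_lit 0x20008cc0981))) 
(.lf (nat_lit 23068720) (dlOf (nat_lit 4) (nat_lit 0x285380009804003029c00035020022b53001409d00005c10010000800e8002001e0008b50683)))) 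
(.lf (nat_lit 13631536) (dlOf (nat_lit 1) (nat_lit 0x100018730b01)))) (.nd (nat_lit 7) 
(.lf (nat_lit 15204400) (dlOf (nat_lit 2) (nat_lit 0x2befb00007a040008002001c00087c0702))) 
(.nd (nat_lit 10) (.lf (nat_lit 537395376) (dlOf (nat_lit 1) (nat_lit 0x20028090301))) 
(.lf (nat_lit 59245744) (dlOf (nat_lit 1) (nat_lit 0x4002000200097e2c02)))))) (.nd (nat_lit 28) 
(.nd (nat_lit 29) (.lf (nat_lit 5502926896) (dlOf (nat_lit 1) (nat_lit 0xa000200020008000002))) 
(.nd (nat_lit 30) 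
(.lf (nat_lit 4966055984) (dlOf (nat_lit 1) (nat_lit 0x8008007c00200020008000003))) 
(.lf (nat_lit 6039797808) (dlOf (nat_lit 1) (nat_lit 0x400400020008000002))))) (.nd (nat_lit 9) 
(.lf (nat_lit 4160749616) (dlOf (nat_lit 1) (nat_lit 0x20028000001))) 
(.lf (nat_lit 3623885360) (dlOf (nat_lit 2) (nat_lit 0x500e8001680800f8008004c0020018000800b383)))))) 
(.nd (nat_lit 7) (.nd (nat_lit 27) (.nd (nat_lit 28) (.nd (nat_lit 32) 
(.lf (nat_lit 1140850736) (dlOf (nat_lit 1) (nat_lit 0x20028000001))) 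
(.lf (nat_lit 5435818032) (dlOf (nat_lit 1) (nat_lit 0x20008000001)))) 
(.lf (nat_lit 4630511664) (dlOf (nat_lit 1) (nat_lit 0x20008000001)))) (.nd (nat_lit 29) 
(.lf (nat_lit 3422552112) (dlOf (nat_lit 1) (nat_lit 0x1400400080008000002))) 
(.lf (nat_lit 6106906672) (dlOf (nat_lit 1) (nat_lit 0x8000200020008000002))))) (.nd (nat_lit 10) 
(.nd (nat_lit 9) (.lf (nat_lit 1409810608) (dlOf (nat_lit 1) (nat_lit 0x60028090301))) 
(.lf (nat_lit 3422552752) (dlOf (nat_lit 1) (nat_lit 0x80008001d81)))) (.nd (nat_lit 11) 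
(.lf (nat_lit 2751465136) (dlOf (nat_lit 1) (nat_lit 0x8008000400200020008003a83))) 
(.lf (nat_lit 3959426736) (dlOf (nat_lit 1) (nat_lit 0x360018007281))))))) (.nd (nat_lit 9) 
(.nd (nat_lit 7) (.nd (nat_lit 19) (.nd (nat_lit 10) 
(.lf (nat_lit 38797424) (dlOf (nat_lit 1) (nat_lit 0x400200020009162482))) 
(.lf (nat_lit 3690992752) (dlOf (nat_lit 1) (nat_lit 0x250008040800203320008009403)))) 
(.nd (nat_lit 22) (.nd (nat_lit 26) 
(.lf (nat_lit 134742128) (dlOf (nat_lit 7) (nat_lit 0x17408600f803f0000d82007402080002c08032010400014040218082000090200d60410000401008a02080001c0801d000800d0002000a00080a1583))) 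
(.lf (nat_lit 201850992) (dlOf (nat_lit 7) (nat_lit 0x17408600f803f0000d82007402080002c08032010400014040218082000090200d60410000401008a02080001c0801d000800d0002000a00080a1583)))) 
(.lf (nat_lit 55050352) (dlOf (nat_lit 8) (nat_lit 0x4498c00144c4001e25e000112540002a10004498c002e4bc0000a02001126300004c0800493180024988000a4a500042498000142000212e8002c94a00144930000203000326300011310003497400184a5000b24980000c280031318001c98800184ba000b2528005124c000041400e400400240009690d02))))) 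
(.nd (nat_lit 28) (.nd (nat_lit 26) 
(.lf (nat_lit 3312) (dlOf (nat_lit 1) (nat_lit 0x1000800ec00200200008006503))) 
(.lf (nat_lit 2885684464) (dlOf (nat_lit 3) (nat_lit 0x40080003102000602e00014018006500)))) 
(.nd (nat_lit 12) (.lf (nat_lit 1879051504) (dlOf (nat_lit 1) (nat_lit 0x1400400100008006502))) 
(.lf (nat_lit 2952797424) (dlOf (nat_lit 1) (nat_lit 0x80040002001800c602)))))) (.nd (nat_lit 7) 
(.nd (nat_lit 32) (.nd (nat_lit 26) (.nd (nat_lit 29) 
(.lf (nat_lit 1342180976) (dlOf (nat_lit 1) (nat_lit 0x400400020008007182))) 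
(.lf (nat_lit 1879051888) (dlOf (nat_lit 1) (nat_lit 0x400400020008007182)))) 
(.lf (nat_lit 4227862128) (dlOf (nat_lit 1) (nat_lit 0x8008000400200020008007183)))) 
(.nd (nat_lit 10) (.lf (nat_lit 6710889072) (dlOf (nat_lit 1) (nat_lit 0x400200020008005402))) 
(.nd (nat_lit 11) (.lf (nat_lit 5435819632) (dlOf (nat_lit 1) (nat_lit 0x20028003981))) 
(.lf (nat_lit 4294970992) (dlOf (nat_lit 1) (nat_lit 0x400400020008007182)))))) (.nd (nat_lit 12) 
(.nd (nat_lit 10) (.lf (nat_lit 49810160) (dlOf (nat_lit 1) (nat_lit 0x3c004000600094c5a02))) 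
(.lf (nat_lit 2348812016) (dlOf (nat_lit 1) (nat_lit 0x400200040008003b02)))) (.nd (nat_lit 26) 
(.lf (nat_lit 1342182128) (dlOf (nat_lit 1) (nat_lit 0x8008000800200020008008e83))) 
(.lf (nat_lit 3690992368) (dlOf (nat_lit 1) (nat_lit 0x10008000400200020008008e83)))))))) 
(.nd (nat_lit 19) (.nd (nat_lit 20) (.nd (nat_lit 27) (.nd (nat_lit 26) (.nd (nat_lit 23) 
(.nd (nat_lit 30) (.lf (nat_lit 537133104) (dlOf (nat_lit 1) (nat_lit 0x4800200020008020582))) 
(.lf (nat_lit 1610874928) (dlOf (nat_lit 1) (nat_lit 0x20008090001)))) 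
(.lf (nat_lit 25428016) (dlOf (nat_lit 2) (nat_lit 0x88a7e00012018c00680)))) (.nd (nat_lit 7) 
(.lf (nat_lit 1409548336) (dlOf (nat_lit 1) (nat_lit 0x4800200020008020582))) 
(.lf (nat_lit 5436080304) (dlOf (nat_lit 2) (nat_lit 0x440088000000801480080020002003600080c1603))))) 
(.nd (nat_lit 7) (.nd (nat_lit 9) (.nd (nat_lit 26) 
(.lf (nat_lit 671350832) (dlOf (nat_lit 3) (nat_lit 0x801800030040004058000000200040028160581))) 
(.lf (nat_lit 1543766064) (dlOf (nat_lit 3) (nat_lit 0x801800030040004058000000200040028160581)))) 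
(.lf (nat_lit 5771627056) (dlOf (nat_lit 1) (nat_lit 0x20028005181)))) (.nd (nat_lit 6) 
(.lf (nat_lit 4697882800) (dlOf (nat_lit 1) (nat_lit 0x40008001c002000600080c1603))) 
(.lf (nat_lit 2818840304) (dlOf (nat_lit 1) (nat_lit 0x8800800080020020000812a003)))))) 
(.nd (nat_lit 7) (.nd (nat_lit 9) (.nd (nat_lit 22) 
(.lf (nat_lit 1343488048) (dlOf (nat_lit 1) (nat_lit 0x6800200740008260982))) 
(.lf (nat_lit 30670896) (dlOf (nat_lit 2) (nat_lit 0x2200000007818e40e80)))) (.nd (nat_lit 6) 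
(.lf (nat_lit 53742128) (dlOf (nat_lit 2) (nat_lit 0xd49c000460195f5180))) 
(.lf (nat_lit 20189808) (dlOf (nat_lit 1) (nat_lit 0x380080050002000200089d8983))))) 
(.nd (nat_lit 6) (.nd (nat_lit 10) 
(.lf (nat_lit 9699504) (dlOf (nat_lit 1) (nat_lit 0x400200020008571602))) 
(.lf (nat_lit 1007944880) (dlOf (nat_lit 1) (nat_lit 0x30004001200088c2c02)))) 
(.lf (nat_lit 20189424) (dlOf (nat_lit 1) (nat_lit 0x600189d8081)))))) (.nd (nat_lit 21) 
(.nd (nat_lit 26) (.nd (nat_lit 7) (.nd (nat_lit 20) 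
(.lf (nat_lit 21758000) (dlOf (nat_lit 1) (nat_lit 0x60028a70581))) 
(.lf (nat_lit 27000880) (dlOf (nat_lit 2) (nat_lit 0x100000003702000e0008ca0701)))) 
(.lf (nat_lit 5772148912) (dlOf (nat_lit 1) (nat_lit 0x80008090681)))) (.nd (nat_lit 10) 
(.nd (nat_lit 20) (.lf (nat_lit 470548528) (dlOf (nat_lit 1) (nat_lit 0x2800200260008120f82))) 
(.lf (nat_lit 471597104) (dlOf (nat_lit 2) (nat_lit 0x103ce0005c0200020008350801)))) 
(.lf (nat_lit 1410073648) (dlOf (nat_lit 1) (nat_lit 0x200080008002003000080f2883))))) 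
(.nd (nat_lit 25) (.nd (nat_lit 26) (.nd (nat_lit 23) 
(.lf (nat_lit 3492544560) (dlOf (nat_lit 1) (nat_lit 0x200180d0b01))) 
(.lf (nat_lit 11272240) (dlOf (nat_lit 2) (nat_lit 0x42b18001156c002ca08000800400060018680d82)))) 
(.nd (nat_lit 9) (.lf (nat_lit 2754347056) (dlOf (nat_lit 1) (nat_lit 0x200180d0b01))) 
(.lf (nat_lit 472648240) (dlOf (nat_lit 1) (nat_lit 0x200089e5181))))) (.nd (nat_lit 7) 
(.nd (nat_lit 20) (.lf (nat_lit 36438064) (dlOf (nat_lit 1) (nat_lit 0x400400020019070002))) 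
(.lf (nat_lit 58458160) (dlOf (nat_lit 1) (nat_lit 0x1a00297e0001)))) 
(.lf (nat_lit 58459312) (dlOf (nat_lit 3) (nat_lit 0x184ae0002d81000525680008c0800300080048002000c00097e2c03)))))))) 
(.nd (nat_lit 28) (.nd (nat_lit 26) (.nd (nat_lit 7) (.nd (nat_lit 18) (.nd (nat_lit 20) 
(.nd (nat_lit 6) 
(.lf (nat_lit 1073743664) (dlOf (nat_lit 1) (nat_lit 0x8008000400200020008003d83))) 
(.nd (nat_lit 25) (.lf (nat_lit 5905582448) (dlOf (nat_lit 1) (nat_lit 0xe0028004e81))) 
(.lf (nat_lit 33556848) (dlOf (nat_lit 1) (nat_lit 0x20008f54e81))))) (.nd (nat_lit 9) 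
(.nd (nat_lit 19) (.lf (nat_lit 49285488) (dlOf (nat_lit 1) (nat_lit 0x20009464e81))) 
(.lf (nat_lit 49809776) (dlOf (nat_lit 1) (nat_lit 0x200194c4e81)))) 
(.lf (nat_lit 19925872) (dlOf (nat_lit 1) (nat_lit 0x4002000200089d5c02))))) (.nd (nat_lit 6) 
(.nd (nat_lit 12) (.lf (nat_lit 11796784) (dlOf (nat_lit 2) (nat_lit 0x3828da000218186c0500))) 
(.lf (nat_lit 20189488) (dlOf (nat_lit 1) (nat_lit 0x400189d8081)))) (.nd (nat_lit 19) 
(.nd (nat_lit 21) (.lf (nat_lit 46401904) (dlOf (nat_lit 1) (nat_lit 0x2400200020009384e82))) 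
(.lf (nat_lit 40110448) (dlOf (nat_lit 1) (nat_lit 0x4004000200091f4e82)))) 
(.lf (nat_lit 41683312) (dlOf (nat_lit 1) (nat_lit 0x180029244e81)))))) (.nd (nat_lit 9) 
(.nd (nat_lit 10) (.nd (nat_lit 11) 
(.lf (nat_lit 42992112) (dlOf (nat_lit 2) (nat_lit 0x482e0005602000600092a1381))) 
(.lf (nat_lit 536877552) (dlOf (nat_lit 1) (nat_lit 0x1000800080020002000800b283)))) 
(.nd (nat_lit 6) (.lf (nat_lit 8390064) (dlOf (nat_lit 1) (nat_lit 0x400200020008513602))) 
(.lf (nat_lit 8390128) (dlOf (nat_lit 1) (nat_lit 0x400200020008513602))))) (.nd (nat_lit 6) 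
(.nd (nat_lit 10) (.lf (nat_lit 671095728) (dlOf (nat_lit 2) (nat_lit 0x6000000a781800bd80))) 
(.lf (nat_lit 536872880) (dlOf (nat_lit 1) (nat_lit 0x400400020008004382)))) (.nd (nat_lit 10) 
(.lf (nat_lit 38536176) (dlOf (nat_lit 1) (nat_lit 0x800200020009132882))) 
(.lf (nat_lit 8130544) (dlOf (nat_lit 1) (nat_lit 0x400200020008517a82))))))) (.nd (nat_lit 12) 
(.nd (nat_lit 6) (.nd (nat_lit 7) (.nd (nat_lit 9) 
(.lf (nat_lit 2752774448) (dlOf (nat_lit 3) (nat_lit 0x6005002590100020528012a0080008008005c00200080008048403))) 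
(.lf (nat_lit 201328432) (dlOf (nat_lit 1) (nat_lit 0x20028003d81)))) 
(.lf (nat_lit 4496559024) (dlOf (nat_lit 1) (nat_lit 0x200180e5d01)))) (.nd (nat_lit 18) 
(.nd (nat_lit 7) (.lf (nat_lit 4898949488) (dlOf (nat_lit 1) (nat_lit 0x400200020008004e82))) 
(.lf (nat_lit 2751988720) (dlOf (nat_lit 1) (nat_lit 0x800200020008002882)))) (.nd (nat_lit 19) 
(.lf (nat_lit 738462064) (dlOf (nat_lit 1) (nat_lit 0x20018094e81))) 
(.lf (nat_lit 4362865008) (dlOf (nat_lit 1) (nat_lit 0x400400020018114e82)))))) (.nd (nat_lit 6) 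
(.nd (nat_lit 7) (.nd (nat_lit 10) 
(.lf (nat_lit 4362082608) (dlOf (nat_lit 1) (nat_lit 0x2002800ab81))) 
(.lf (nat_lit 3422557488) (dlOf (nat_lit 1) (nat_lit 0x20028009881)))) 
(.lf (nat_lit 2754878384) (dlOf (nat_lit 1) (nat_lit 0x12400080fbd81)))) (.nd (nat_lit 7) 
(.nd (nat_lit 9) (.lf (nat_lit 2751469936) (dlOf (nat_lit 1) (nat_lit 0x2001800ad01))) 
(.lf (nat_lit 67114864) (dlOf (nat_lit 1) (nat_lit 0x4001800a301)))) (.nd (nat_lit 31) 
(.lf (nat_lit 201333232) (dlOf (nat_lit 1) (nat_lit 0x100040008001800b282))) 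
(.lf (nat_lit 2348816880) (dlOf (nat_lit 1) (nat_lit 0x40040002000800b282)))))))) (.nd (nat_lit 27) 
(.nd (nat_lit 6) (.nd (nat_lit 7) (.nd (nat_lit 10) 
(.lf (nat_lit 3490971952) (dlOf (nat_lit 3) (nat_lit 0x800100000c0800803000000404007c00400160018047a02))) 
(.nd (nat_lit 12) 
(.lf (nat_lit 3489664304) (dlOf (nat_lit 2) (nat_lit 0x4428000260200020028006881))) 
(.lf (nat_lit 2952797488) (dlOf (nat_lit 1) (nat_lit 0x54004001a001800c702))))) (.nd (nat_lit 9) 
(.nd (nat_lit 10) (.lf (nat_lit 3490187696) (dlOf (nat_lit 1) (nat_lit 0x20018004e81))) 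
(.lf (nat_lit 5637408176) (dlOf (nat_lit 1) (nat_lit 0x7a00280d3601)))) (.nd (nat_lit 11) 
(.lf (nat_lit 2415921072) (dlOf (nat_lit 1) (nat_lit 0x400400060008004382))) 
(.lf (nat_lit 2952794032) (dlOf (nat_lit 1) (nat_lit 0xdc0018007a01)))))) (.nd (nat_lit 26) 
(.nd (nat_lit 7) (.nd (nat_lit 11) 
(.lf (nat_lit 4563665264) (dlOf (nat_lit 1) (nat_lit 0x4002000200080c5802))) 
(.lf (nat_lit 3490187632) (dlOf (nat_lit 1) (nat_lit 0x20018004e81)))) (.nd (nat_lit 9) 
(.lf (nat_lit 4026538480) (dlOf (nat_lit 1) (nat_lit 0x20008002c002000a000800b283))) 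
(.lf (nat_lit 1342184432) (dlOf (nat_lit 1) (nat_lit 0x40020002000800bf02))))) (.nd (nat_lit 11) 
(.nd (nat_lit 9) 
(.lf (nat_lit 4095213936) (dlOf (nat_lit 1) (nat_lit 0x8008000400200020008085803))) 
(.lf (nat_lit 3557037936) (dlOf (nat_lit 1) (nat_lit 0x280040014000812a302)))) (.nd (nat_lit 18) 
(.lf (nat_lit 5704255856) (dlOf (nat_lit 1) (nat_lit 0x8008000800200020008004e83))) 
(.lf (nat_lit 4093905264) (dlOf (nat_lit 1) (nat_lit 0x8008000400200020008004e83))))))) 
(.nd (nat_lit 30) (.nd (nat_lit 7) (.nd (nat_lit 6) (.nd (nat_lit 10) 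
(.lf (nat_lit 469768496) (dlOf (nat_lit 1) (nat_lit 0x40020004000800ab82))) 
(.lf (nat_lit 1006640432) (dlOf (nat_lit 1) (nat_lit 0x3000800200020006000800c703)))) 
(.nd (nat_lit 10) (.lf (nat_lit 4697882992) (dlOf (nat_lit 1) (nat_lit 0x4002000200080c5802))) 
(.lf (nat_lit 2550144368) (dlOf (nat_lit 1) (nat_lit 0x2001800c901))))) (.nd (nat_lit 19) 
(.lf (nat_lit 472908784) (dlOf (nat_lit 1) (nat_lit 0xc00200020008b52882))) (.nd (nat_lit 20) 
(.lf (nat_lit 4698145776) (dlOf (nat_lit 1) (nat_lit 0x20028122881))) 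
(.lf (nat_lit 1008206832) (dlOf (nat_lit 1) (nat_lit 0x400200020008b02882)))))) (.nd (nat_lit 10) 
(.nd (nat_lit 18) (.nd (nat_lit 12) 
(.lf (nat_lit 5773986160) (dlOf (nat_lit 1) (nat_lit 0x1a00080e4e81))) 
(.lf (nat_lit 3623885168) (dlOf (nat_lit 1) (nat_lit 0x40040006001800ad02)))) (.nd (nat_lit 21) 
(.lf (nat_lit 5771626864) (dlOf (nat_lit 1) (nat_lit 0x20028004e81))) (.nd (nat_lit 26) 
(.lf (nat_lit 5773724016) (dlOf (nat_lit 1) (nat_lit 0x400280e4e81))) 
(.lf (nat_lit 6377703792) (dlOf (nat_lit 1) (nat_lit 0x400280e4e81)))))) (.nd (nat_lit 6) 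
(.nd (nat_lit 7) 
(.lf (nat_lit 3624144176) (dlOf (nat_lit 2) (nat_lit 0xa00d8000a0080008008001000200060008146883))) 
(.lf (nat_lit 6375605680) (dlOf (nat_lit 1) (nat_lit 0x60028003601)))) 
(.lf (nat_lit 3623884784) (dlOf (nat_lit 1) (nat_lit 0x6800800500020022000800a603))))))))) 
(.nd (nat_lit 18) (.nd (nat_lit 8) (.nd (nat_lit 28) (.nd (nat_lit 19) (.nd (nat_lit 10) 
(.nd (nat_lit 11) (.nd (nat_lit 6) (.nd (nat_lit 23) 
(.lf (nat_lit 23134256) (dlOf (nat_lit 2) (nat_lit 0xc800000011018b60900))) 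
(.lf (nat_lit 48300080) (dlOf (nat_lit 1) (nat_lit 0x400400020019400002)))) 
(.lf (nat_lit 47251568) (dlOf (nat_lit 5) (nat_lit 0x6bd300025de00001410002af4c001177800004040012bd3000a5de00000c10003af4c00257780000204000800293c0d01)))) 
(.nd (nat_lit 6) (.nd (nat_lit 12) 
(.lf (nat_lit 42011184) (dlOf (nat_lit 2) (nat_lit 0x344e5000726980022c100020008000400200120009245183))) 
(.lf (nat_lit 201398832) (dlOf (nat_lit 1) (nat_lit 0x2001800b381)))) 
(.lf (nat_lit 8456304) (dlOf (nat_lit 1) (nat_lit 0x100018514781))))) (.nd (nat_lit 11) 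
(.nd (nat_lit 20) 
(.lf (nat_lit 48301232) (dlOf (nat_lit 4) (nat_lit 0x2c9a80005f02001067e0002c81000233f000160080008008002400200200009402c03))) 
(.nd (nat_lit 21) 
(.lf (nat_lit 55641264) (dlOf (nat_lit 1) (nat_lit 0x100080038002001a00096d2c03))) 
(.lf (nat_lit 36766896) (dlOf (nat_lit 1) (nat_lit 0x4002007c0009072c02))))) (.nd (nat_lit 7) 
(.lf (nat_lit 2754678320) (dlOf (nat_lit 4) (nat_lit 0x4c03a0005502007401d0002a01003101400230074013802c0005106000400180f7181))) 
(.lf (nat_lit 134290608) (dlOf (nat_lit 1) (nat_lit 0x14000800c201)))))) (.nd (nat_lit 9) 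
(.nd (nat_lit 26) (.nd (nat_lit 20) 
(.lf (nat_lit 134807600) (dlOf (nat_lit 4) (nat_lit 0x1580760002e0200a203b0001681005a01d8000ac0800700080004002009200080c0e83))) 
(.lf (nat_lit 26804272) (dlOf (nat_lit 2) (nat_lit 0x26a90001640801a0008001000200160008c70903)))) 
(.nd (nat_lit 21) (.nd (nat_lit 22) 
(.lf (nat_lit 201916464) (dlOf (nat_lit 6) (nat_lit 0x8101d8000b80801600ec0005a0402100760002b02019e03b0001501002801d80003008047000803bc002000200080c0f83))) 
(.lf (nat_lit 2756247600) (dlOf (nat_lit 2) (nat_lit 0x11c03c000040200180008220b01)))) 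
(.lf (nat_lit 2754150448) (dlOf (nat_lit 1) (nat_lit 0x140008002c002002400080c0f83))))) 
(.nd (nat_lit 6) (.lf (nat_lit 51972656) (dlOf (nat_lit 1) (nat_lit 0x20029515181))) 
(.nd (nat_lit 20) (.lf (nat_lit 61408880) (dlOf (nat_lit 1) (nat_lit 0x800200020009923982))) 
(.lf (nat_lit 7931504) (dlOf (nat_lit 1) (nat_lit 0x400200020008513982))))))) (.nd (nat_lit 30) 
(.nd (nat_lit 26) (.nd (nat_lit 10) (.nd (nat_lit 32) 
(.lf (nat_lit 402718768) (dlOf (nat_lit 1) (nat_lit 0x400400020008090002))) 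
(.lf (nat_lit 4697686064) (dlOf (nat_lit 1) (nat_lit 0x400400020008090002)))) 
(.lf (nat_lit 2952860720) (dlOf (nat_lit 1) (nat_lit 0x60018009201)))) (.nd (nat_lit 20) 
(.nd (nat_lit 27) (.lf (nat_lit 872480816) (dlOf (nat_lit 1) (nat_lit 0x20008090001))) 
(.lf (nat_lit 2617311280) (dlOf (nat_lit 1) (nat_lit 0x200180a0001)))) 
(.lf (nat_lit 470876208) (dlOf (nat_lit 4) (nat_lit 0x50c1c80001d0202960e40000e0100f20720000580800b800801ec002004600081c0703))))) 
(.nd (nat_lit 19) (.nd (nat_lit 9) (.nd (nat_lit 10) 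
(.lf (nat_lit 1343291440) (dlOf (nat_lit 5) (nat_lit 0x106ac0003804014033a0000a02001419d000020100140ce80000408004800801ec002000200081e0703))) 
(.lf (nat_lit 3691058224) (dlOf (nat_lit 1) (nat_lit 0x180018009201)))) 
(.lf (nat_lit 3556837936) (dlOf (nat_lit 1) (nat_lit 0x1800200580008085182)))) (.nd (nat_lit 7) 
(.nd (nat_lit 21) 
(.lf (nat_lit 3494445104) (dlOf (nat_lit 2) (nat_lit 0x11c03c000040200180008220b01))) 
(.lf (nat_lit 3492347952) (dlOf (nat_lit 3) (nat_lit 0x1aa08c00640458000c810052823000060040190004004200080c0e82)))) 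
(.lf (nat_lit 1346962608) (dlOf (nat_lit 2) (nat_lit 0x160dd000d01a00017c1000200080008002001a0009102c03))))))) 
(.nd (nat_lit 7) (.nd (nat_lit 28) (.nd (nat_lit 20) (.nd (nat_lit 6) (.nd (nat_lit 9) 
(.lf (nat_lit 10551600) (dlOf (nat_lit 2) (nat_lit 0x52023002540185f8400))) 
(.lf (nat_lit 671156016) (dlOf (nat_lit 1) (nat_lit 0x70008001800200020008143d83)))) 
(.nd (nat_lit 9) (.nd (nat_lit 23) 
(.lf (nat_lit 592240) (dlOf (nat_lit 1) (nat_lit 0x20028004e81))) 
(.lf (nat_lit 59312496) (dlOf (nat_lit 1) (nat_lit 0x200297e4e81)))) 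
(.lf (nat_lit 2885753712) (dlOf (nat_lit 1) (nat_lit 0x86000800bc81))))) (.nd (nat_lit 24) 
(.nd (nat_lit 11) (.lf (nat_lit 11600240) (dlOf (nat_lit 2) (nat_lit 0x7a1d006770186c0780))) 
(.lf (nat_lit 37292400) (dlOf (nat_lit 1) (nat_lit 0x80080004002001e00090d4e83)))) (.nd (nat_lit 9) 
(.lf (nat_lit 57739632) (dlOf (nat_lit 1) (nat_lit 0x2c0029794e81))) 
(.lf (nat_lit 19991408) (dlOf (nat_lit 1) (nat_lit 0x4002000200089d5c02)))))) (.nd (nat_lit 29) 
(.nd (nat_lit 9) (.nd (nat_lit 6) 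
(.lf (nat_lit 1409355056) (dlOf (nat_lit 1) (nat_lit 0x80018006881))) (.nd (nat_lit 27) 
(.lf (nat_lit 3489728880) (dlOf (nat_lit 1) (nat_lit 0x40018004e81))) 
(.lf (nat_lit 2550204784) (dlOf (nat_lit 1) (nat_lit 0x20028004e81))))) (.nd (nat_lit 10) 
(.lf (nat_lit 5704321904) (dlOf (nat_lit 1) (nat_lit 0x3400400020008055c02))) 
(.lf (nat_lit 1342248816) (dlOf (nat_lit 1) (nat_lit 0x800800200020004000800a303))))) 
(.nd (nat_lit 6) (.nd (nat_lit 11) 
(.lf (nat_lit 4093707568) (dlOf (nat_lit 1) (nat_lit 0x400200020008003202))) 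
(.lf (nat_lit 4227927344) (dlOf (nat_lit 1) (nat_lit 0x400200020008006882)))) (.nd (nat_lit 9) 
(.nd (nat_lit 11) (.lf (nat_lit 4095279472) (dlOf (nat_lit 1) (nat_lit 0xc00400060018085802))) 
(.lf (nat_lit 6376982896) (dlOf (nat_lit 1) (nat_lit 0x400400200008094e82)))) 
(.lf (nat_lit 5234559856) (dlOf (nat_lit 1) (nat_lit 0x1000400020008055c02))))))) (.nd (nat_lit 9) 
(.nd (nat_lit 23) (.nd (nat_lit 12) (.nd (nat_lit 6) 
(.lf (nat_lit 6241191344) (dlOf (nat_lit 1) (nat_lit 0x800200060008053602))) (.nd (nat_lit 10) 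
(.lf (nat_lit 50399728) (dlOf (nat_lit 2) (nat_lit 0x1a929c001f0040014004001000194c4f02))) 
(.lf (nat_lit 4697687536) (dlOf (nat_lit 1) (nat_lit 0x400400020008093602))))) (.nd (nat_lit 20) 
(.lf (nat_lit 3355514352) (dlOf (nat_lit 1) (nat_lit 0x400280a9c01))) 
(.lf (nat_lit 19994096) (dlOf (nat_lit 1) (nat_lit 0x200189d9c01))))) (.nd (nat_lit 6) 
(.lf (nat_lit 8455600) (dlOf (nat_lit 1) (nat_lit 0x400200020008513602))) (.nd (nat_lit 20) 
(.lf (nat_lit 8455664) (dlOf (nat_lit 1) (nat_lit 0x400200020008513602))) 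
(.lf (nat_lit 61933040) (dlOf (nat_lit 1) (nat_lit 0x20029923601)))))) (.nd (nat_lit 27) 
(.nd (nat_lit 19) (.nd (nat_lit 25) 
(.lf (nat_lit 3492873200) (dlOf (nat_lit 1) (nat_lit 0x200180f2881))) 
(.lf (nat_lit 36766704) (dlOf (nat_lit 1) (nat_lit 0x8008000400200920009072883)))) 
(.nd (nat_lit 21) (.lf (nat_lit 2752054256) (dlOf (nat_lit 1) (nat_lit 0x20018002881))) 
(.lf (nat_lit 53019632) (dlOf (nat_lit 1) (nat_lit 0x20019572881))))) (.nd (nat_lit 6) 
(.nd (nat_lit 10) (.nd (nat_lit 11) 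
(.lf (nat_lit 3355513776) (dlOf (nat_lit 1) (nat_lit 0x4800280a9181))) 
(.lf (nat_lit 2885753776) (dlOf (nat_lit 2) (nat_lit 0x274088014e04000a001b004f00000029e1000540020016000800bd82)))) 
(.lf (nat_lit 671156144) (dlOf (nat_lit 1) (nat_lit 0x120028144381)))) (.nd (nat_lit 26) 
(.lf (nat_lit 2818638832) (dlOf (nat_lit 1) (nat_lit 0x400400020008082882))) 
(.lf (nat_lit 738264048) (dlOf (nat_lit 1) (nat_lit 0x20028002881))))))))) (.nd (nat_lit 19) 
(.nd (nat_lit 26) (.nd (nat_lit 6) (.nd (nat_lit 7) (.nd (nat_lit 22) (.nd (nat_lit 30) 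
(.nd (nat_lit 9) (.lf (nat_lit 134545456) (dlOf (nat_lit 1) (nat_lit 0x60018070901))) 
(.lf (nat_lit 42273328) (dlOf (nat_lit 2) (nat_lit 0x1a2728004934c0011608001400200200009245182)))) 
(.nd (nat_lit 29) 
(.lf (nat_lit 1208287280) (dlOf (nat_lit 2) (nat_lit 0x1013800280280046e0800d4004002a00080b0482))) 
(.lf (nat_lit 1745158192) (dlOf (nat_lit 2) (nat_lit 0x806c00060220011e0280b0480))))) 
(.nd (nat_lit 9) (.nd (nat_lit 21) 
(.lf (nat_lit 30736432) (dlOf (nat_lit 2) (nat_lit 0xb400000007818e40e80))) 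
(.lf (nat_lit 24444976) (dlOf (nat_lit 1) (nat_lit 0x60018ba0a01)))) 
(.lf (nat_lit 23396912) (dlOf (nat_lit 6) (nat_lit 0x41b9160206c3800009c101076458081b0e00000a0400b7916004cc3800002410108e45808170e00000604042b916020bc380000001000480080020002010c0008b80f03))))) 
(.nd (nat_lit 28) (.nd (nat_lit 20) 
(.lf (nat_lit 21299376) (dlOf (nat_lit 1) (nat_lit 0x80080420002010a0008a31603))) 
(.lf (nat_lit 11862192) (dlOf (nat_lit 1) (nat_lit 0x200286c0301)))) (.nd (nat_lit 27) 
(.lf (nat_lit 5637472432) (dlOf (nat_lit 1) (nat_lit 0xf80080078002001400080f1603))) 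
(.lf (nat_lit 402981040) (dlOf (nat_lit 1) (nat_lit 0x14004000200080c1602)))))) (.nd (nat_lit 8) 
(.nd (nat_lit 22) (.nd (nat_lit 9) 
(.lf (nat_lit 4026859632) (dlOf (nat_lit 5) (nat_lit 0x300d80003a0400200600001b0200020360000c81003701b000060080040008000400200fc00080a1583))) 
(.lf (nat_lit 52758128) (dlOf (nat_lit 1) (nat_lit 0x20019573981)))) (.nd (nat_lit 24) 
(.lf (nat_lit 38076528) (dlOf (nat_lit 1) (nat_lit 0x20009122481))) 
(.lf (nat_lit 21299312) (dlOf (nat_lit 1) (nat_lit 0x40008002000200120008a30a83))))) 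
(.nd (nat_lit 7) (.nd (nat_lit 21) 
(.lf (nat_lit 3624208752) (dlOf (nat_lit 1) (nat_lit 0x8002000a0008144e82))) 
(.lf (nat_lit 35981680) (dlOf (nat_lit 1) (nat_lit 0x20019014e81)))) (.nd (nat_lit 9) 
(.lf (nat_lit 23396848) (dlOf (nat_lit 2) (nat_lit 0xab22c006d870000a4828b80d80))) 
(.lf (nat_lit 54856688) (dlOf (nat_lit 2) (nat_lit 0x5263000000080030008000c00200120009655f03))))))) 
(.nd (nat_lit 27) (.nd (nat_lit 28) (.nd (nat_lit 6) (.nd (nat_lit 20) 
(.lf (nat_lit 67436592) (dlOf (nat_lit 1) (nat_lit 0x400200020008140702))) 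
(.lf (nat_lit 68485168) (dlOf (nat_lit 3) (nat_lit 0x2835c001417e000a0b800050370000f02001580000001e0400d0002003a0008580e82)))) 
(.lf (nat_lit 3288662128) (dlOf (nat_lit 5) (nat_lit 0x300d80003a0400200600001b0200020360000c81003701b000060080040008000400200fc00080a1583)))) 
(.nd (nat_lit 7) (.nd (nat_lit 29) 
(.lf (nat_lit 2483355696) (dlOf (nat_lit 2) (nat_lit 0xf0140000340800380080008002000e00080d0b03))) 
(.lf (nat_lit 872742960) (dlOf (nat_lit 2) (nat_lit 0x806c00060220011e0280b0480)))) 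
(.lf (nat_lit 335872176) (dlOf (nat_lit 1) (nat_lit 0x1800180c1601))))) (.nd (nat_lit 8) 
(.nd (nat_lit 28) 
(.lf (nat_lit 2349137968) (dlOf (nat_lit 2) (nat_lit 0xf0140000340800380080008002000e00080d0b03))) 
(.nd (nat_lit 29) (.lf (nat_lit 2617573424) (dlOf (nat_lit 1) (nat_lit 0x20028100d81))) 
(.lf (nat_lit 2080702512) (dlOf (nat_lit 2) (nat_lit 0x1013800280280046e0800d4004002a00080b0482))))) 
(.nd (nat_lit 6) (.lf (nat_lit 2886010672) (dlOf (nat_lit 1) (nat_lit 0x20008143d81))) 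
(.lf (nat_lit 474284400) (dlOf (nat_lit 1) (nat_lit 0x2e000401220009115802))))))) (.nd (nat_lit 21) 
(.nd (nat_lit 28) (.nd (nat_lit 20) (.nd (nat_lit 6) (.nd (nat_lit 9) 
(.lf (nat_lit 5046320) (dlOf (nat_lit 1) (nat_lit 0x100028300701))) 
(.lf (nat_lit 537726512) (dlOf (nat_lit 2) (nat_lit 0x14c0be0004e02000600080f7181)))) 
(.lf (nat_lit 38603248) (dlOf (nat_lit 1) (nat_lit 0x2c80080004002005e0009134f03)))) 
(.nd (nat_lit 7) (.nd (nat_lit 22) 
(.lf (nat_lit 27066416) (dlOf (nat_lit 1) (nat_lit 0x78008000800200740008ca0703))) 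
(.lf (nat_lit 22872112) (dlOf (nat_lit 1) (nat_lit 0x540008b30681)))) 
(.lf (nat_lit 2753364144) (dlOf (nat_lit 1) (nat_lit 0x60018090301))))) (.nd (nat_lit 26) 
(.nd (nat_lit 6) (.nd (nat_lit 7) 
(.lf (nat_lit 1343029296) (dlOf (nat_lit 1) (nat_lit 0x1260008130b01))) 
(.lf (nat_lit 3491561648) (dlOf (nat_lit 1) (nat_lit 0xc0028090301)))) 
(.lf (nat_lit 1879901168) (dlOf (nat_lit 1) (nat_lit 0x4004000200083d2882)))) (.nd (nat_lit 9) 
(.nd (nat_lit 20) (.lf (nat_lit 470614064) (dlOf (nat_lit 1) (nat_lit 0x1260008130b01))) 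
(.lf (nat_lit 4095541296) (dlOf (nat_lit 2) (nat_lit 0x1021c00058040038004005600080d0602)))) 
(.lf (nat_lit 1007488560) (dlOf (nat_lit 1) (nat_lit 0x4004000400083d7182)))))) (.nd (nat_lit 8) 
(.nd (nat_lit 28) (.nd (nat_lit 10) 
(.lf (nat_lit 2754412592) (dlOf (nat_lit 15) (nat_lit 0xd1c21000540fb0043078013fc2d208e81520002b05006b108002485a4000aa08018042000501690002a02015710800014c08136880804643d601101df00070000000b420019084400044040458422005c1690000d82004a10880005c08076084400028041744422000130206b0211000090100fd1088000440812e8844000200401884220000f02005400280e0681))) 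
(.lf (nat_lit 36504624) (dlOf (nat_lit 1) (nat_lit 0x20019072881)))) (.nd (nat_lit 9) 
(.nd (nat_lit 20) 
(.lf (nat_lit 3492610096) (dlOf (nat_lit 15) (nat_lit 0xd1c1fb00540f20043072c13fc2ca08e815c0002b05006b0fd80248594000aa0801803f600501650002a0201570fd80014c08136878004643ac01101ca00070000000b42001907f0000440404583f8005c1650000d82004a0fe00005c0807607f0000280417443f8000130206b01fc000090100fd0fe0000440812e87f0000200401883f80000f02005400280e0681))) 
(.lf (nat_lit 3493658672) (dlOf (nat_lit 1) (nat_lit 0x8008001800200020008190883)))) 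
(.lf (nat_lit 1345129008) (dlOf (nat_lit 1) (nat_lit 0x100018a45181))))) (.nd (nat_lit 22) 
(.nd (nat_lit 6) (.lf (nat_lit 20780848) (dlOf (nat_lit 2) (nat_lit 0x2a5b0000e8189da100))) 
(.nd (nat_lit 25) (.lf (nat_lit 1345128816) (dlOf (nat_lit 1) (nat_lit 0xc00400020008a44e82))) 
(.lf (nat_lit 36505968) (dlOf (nat_lit 1) (nat_lit 0x20019074e81))))) (.nd (nat_lit 23) 
(.lf (nat_lit 57477488) (dlOf (nat_lit 1) (nat_lit 0x20019794e81))) 
(.lf (nat_lit 49088880) (dlOf (nat_lit 1) (nat_lit 0x800200020009464e82))))))))))) (.nd (nat_lit 4) 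
(.nd (nat_lit 18) (.nd (nat_lit 16) (.nd (nat_lit 30) (.nd (nat_lit 19) (.nd (nat_lit 6) 
(.nd (nat_lit 27) (.nd (nat_lit 7) (.nd (nat_lit 8) 
(.lf (nat_lit 52559904) (dlOf (nat_lit 1) (nat_lit 0x280080030002000e0009550183))) 
(.lf (nat_lit 4563534112) (dlOf (nat_lit 5) (nat_lit 0x100b4001003e0016c04000401f00003010002017800180b4001803e0000506000a02f000100f8000041002a0008000c002001a0008090a83)))) 
(.lf (nat_lit 20054688) (dlOf (nat_lit 1) (nat_lit 0x4002000200089d1c02)))) (.nd (nat_lit 8) 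
(.nd (nat_lit 28) 
(.lf (nat_lit 2885812256) (dlOf (nat_lit 1) (nat_lit 0x100080014002000c00080a0683))) 
(.lf (nat_lit 1006764064) (dlOf (nat_lit 1) (nat_lit 0x8008000c00200040008050c03)))) 
(.lf (nat_lit 4697752864) (dlOf (nat_lit 4) (nat_lit 0x1016800080ac0004e08000c05a000401f00013020003017800020080208008006c002001a0008093103))))) 
(.nd (nat_lit 10) (.nd (nat_lit 8) (.nd (nat_lit 20) 
(.lf (nat_lit 335675488) (dlOf (nat_lit 1) (nat_lit 0x80018090081))) 
(.lf (nat_lit 24248416) (dlOf (nat_lit 2) (nat_lit 0x4e00000009818b91300)))) 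
(.lf (nat_lit 738331488) (dlOf (nat_lit 1) (nat_lit 0x1000200060008095c02)))) (.nd (nat_lit 7) 
(.nd (nat_lit 12) (.lf (nat_lit 134352224) (dlOf (nat_lit 1) (nat_lit 0x520018006a81))) 
(.lf (nat_lit 805444960) (dlOf (nat_lit 1) (nat_lit 0x800800040020002000811c903)))) 
(.lf (nat_lit 136672) (dlOf (nat_lit 1) (nat_lit 0x20028009b01)))))) (.nd (nat_lit 26) 
(.nd (nat_lit 21) (.nd (nat_lit 29) (.nd (nat_lit 23) 
(.lf (nat_lit 134873120) (dlOf (nat_lit 1) (nat_lit 0x30004000c00080d0882))) 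
(.lf (nat_lit 42598432) (dlOf (nat_lit 1) (nat_lit 0xa0029260181)))) (.nd (nat_lit 6) 
(.lf (nat_lit 537526304) (dlOf (nat_lit 1) (nat_lit 0x180080008002000a00080a0903))) 
(.lf (nat_lit 537526368) (dlOf (nat_lit 2) (nat_lit 0x3607400270358000901000900080094002001800080a1283))))) 
(.nd (nat_lit 7) 
(.lf (nat_lit 11141152) (dlOf (nat_lit 3) (nat_lit 0x100e58001c80807c80000007e04000400200160008660502))) 
(.lf (nat_lit 20584096) (dlOf (nat_lit 1) (nat_lit 0x400189d9f81))))) (.nd (nat_lit 28) 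
(.nd (nat_lit 27) 
(.lf (nat_lit 4362731552) (dlOf (nat_lit 3) (nat_lit 0x1811800dc0580003604000c02d00080160000581000700080088002006400080e0b03))) 
(.lf (nat_lit 201981984) (dlOf (nat_lit 1) (nat_lit 0x30004000c00080d0882)))) (.nd (nat_lit 29) 
(.lf (nat_lit 470417440) (dlOf (nat_lit 2) (nat_lit 0xa0b9801e740800080080048002000a00080e0a03))) 
(.lf (nat_lit 3154772000) (dlOf (nat_lit 2) (nat_lit 0x408e0000002000c0028320c01))))))) 
(.nd (nat_lit 26) (.nd (nat_lit 6) (.nd (nat_lit 7) (.nd (nat_lit 10) (.nd (nat_lit 19) 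
(.nd (nat_lit 27) 
(.lf (nat_lit 1879179296) (dlOf (nat_lit 1) (nat_lit 0x8008000c00200040008050c03))) 
(.lf (nat_lit 3624009760) (dlOf (nat_lit 1) (nat_lit 0x100080014002000c00080a0683)))) 
(.lf (nat_lit 1342832672) (dlOf (nat_lit 2) (nat_lit 0xa0b88034c40800080080048002000a00080e0a03)))) 
(.lf (nat_lit 1342313504) (dlOf (nat_lit 2) (nat_lit 0x102380093e04005c00400240018009202)))) 
(.nd (nat_lit 10) 
(.lf (nat_lit 1610744224) (dlOf (nat_lit 4) (nat_lit 0x28084002ac040014042000cf02000a02100067018091000))) 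
(.lf (nat_lit 3221364128) (dlOf (nat_lit 1) (nat_lit 0xb0001811cb01))))) (.nd (nat_lit 10) 
(.nd (nat_lit 27) (.nd (nat_lit 19) 
(.lf (nat_lit 5368840288) (dlOf (nat_lit 1) (nat_lit 0x240028040781))) 
(.lf (nat_lit 1344929888) (dlOf (nat_lit 2) (nat_lit 0xc2ac00100cd000604b0000ac1800500080038002000c00089a0903)))) 
(.nd (nat_lit 32) (.lf (nat_lit 1208090720) (dlOf (nat_lit 1) (nat_lit 0x40008090081))) 
(.lf (nat_lit 5503058016) (dlOf (nat_lit 1) (nat_lit 0x240028040781))))) (.nd (nat_lit 7) 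
(.lf (nat_lit 3490319712) (dlOf (nat_lit 1) (nat_lit 0x660008006a81))) 
(.lf (nat_lit 3221363936) (dlOf (nat_lit 1) (nat_lit 0x4001811c501)))))) (.nd (nat_lit 27) 
(.nd (nat_lit 7) (.nd (nat_lit 6) (.nd (nat_lit 19) 
(.lf (nat_lit 6241255456) (dlOf (nat_lit 1) (nat_lit 0x200280d0001))) 
(.lf (nat_lit 1409941536) (dlOf (nat_lit 1) (nat_lit 0x180080008002000a00080a0903)))) 
(.lf (nat_lit 1409941600) (dlOf (nat_lit 5) (nat_lit 0x4b029002d00cc001401000015060104052005c01980004c10024814801540660000504006a0520004019800010100140008008c002001c00080a1303)))) 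
(.nd (nat_lit 6) (.nd (nat_lit 9) 
(.lf (nat_lit 1946288544) (dlOf (nat_lit 1) (nat_lit 0x400200020008016b82))) 
(.lf (nat_lit 5972821920) (dlOf (nat_lit 2) (nat_lit 0x5008800074080018008000c00200040008144283)))) 
(.lf (nat_lit 1677859296) (dlOf (nat_lit 2) (nat_lit 0x102b002e500801880080084002005a000811b283))))) 
(.nd (nat_lit 6) (.nd (nat_lit 19) (.nd (nat_lit 10) 
(.lf (nat_lit 3691118624) (dlOf (nat_lit 1) (nat_lit 0x2e0008020501))) 
(.lf (nat_lit 3959555104) (dlOf (nat_lit 3) (nat_lit 0x600e00af0010003000005524080010008004400200200008112883)))) 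
(.nd (nat_lit 7) 
(.lf (nat_lit 4228513824) (dlOf (nat_lit 3) (nat_lit 0x180fc00dc0560003604000c02c00080158000541000700080088002006400080e0b03))) 
(.lf (nat_lit 6377046176) (dlOf (nat_lit 1) (nat_lit 0x4002000200080a2b82))))) (.nd (nat_lit 7) 
(.lf (nat_lit 6377572704) (dlOf (nat_lit 1) (nat_lit 0x20004000400180e4e82))) 
(.lf (nat_lit 3959560672) (dlOf (nat_lit 1) (nat_lit 0x800800880020038000811b283)))))))) 
(.nd (nat_lit 29) (.nd (nat_lit 26) (.nd (nat_lit 7) (.nd (nat_lit 22) (.nd (nat_lit 9) 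
(.lf (nat_lit 268632096) (dlOf (nat_lit 1) (nat_lit 0x8004000200080e0002))) (.nd (nat_lit 11) 
(.lf (nat_lit 134414880) (dlOf (nat_lit 1) (nat_lit 0xa0018017f01))) 
(.lf (nat_lit 199200) (dlOf (nat_lit 1) (nat_lit 0x100018005101))))) (.nd (nat_lit 19) 
(.nd (nat_lit 21) 
(.lf (nat_lit 21168160) (dlOf (nat_lit 2) (nat_lit 0xa4e6000200080020008001000200040008a10503))) 
(.lf (nat_lit 23265312) (dlOf (nat_lit 1) (nat_lit 0xa0018b70681)))) 
(.lf (nat_lit 30081056) (dlOf (nat_lit 1) (nat_lit 0x40028e30001))))) (.nd (nat_lit 6) 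
(.nd (nat_lit 8) (.lf (nat_lit 3221429408) (dlOf (nat_lit 1) (nat_lit 0xc0040002000811c202))) 
(.lf (nat_lit 8586656) (dlOf (nat_lit 1) (nat_lit 0x400200020008513602)))) (.nd (nat_lit 8) 
(.lf (nat_lit 19071200) (dlOf (nat_lit 2) (nat_lit 0x66800002d018970580))) 
(.lf (nat_lit 33752032) (dlOf (nat_lit 1) (nat_lit 0xc0018f52881)))))) (.nd (nat_lit 30) 
(.nd (nat_lit 7) (.nd (nat_lit 6) (.nd (nat_lit 19) 
(.lf (nat_lit 4630708256) (dlOf (nat_lit 1) (nat_lit 0x20028090001))) 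
(.lf (nat_lit 472580128) (dlOf (nat_lit 2) (nat_lit 0x1403e00009c0800100080030002003200089c0183)))) 
(.lf (nat_lit 472580192) (dlOf (nat_lit 3) (nat_lit 0x2b050c015427600ae139005c066805281d4028c0e60002c0c017014300b709d805c84e402f819a01fe07500fe0398000a83001b000801d0002002800089c0903)))) 
(.nd (nat_lit 27) (.lf (nat_lit 4362273184) (dlOf (nat_lit 1) (nat_lit 0x40002002c0008016b82))) 
(.lf (nat_lit 469959072) (dlOf (nat_lit 1) (nat_lit 0x8008000400200020008016b83))))) 
(.nd (nat_lit 10) (.nd (nat_lit 19) 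
(.lf (nat_lit 5704450080) (dlOf (nat_lit 7) (nat_lit 0x3b806c059803001b001501670040000ec2003180600002e040390030000150200be0180000901000f00c000044080080060000180401a800400380008080102))) 
(.nd (nat_lit 31) (.lf (nat_lit 1410007072) (dlOf (nat_lit 2) (nat_lit 0x15c04c000000180c0b00))) 
(.lf (nat_lit 3557490720) (dlOf (nat_lit 1) (nat_lit 0x20008220681))))) (.nd (nat_lit 6) 
(.lf (nat_lit 3556970400) (dlOf (nat_lit 1) (nat_lit 0x10008001800200020008127883))) 
(.nd (nat_lit 8) (.lf (nat_lit 3556971616) (dlOf (nat_lit 1) (nat_lit 0x20018129401))) 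
(.lf (nat_lit 3556972384) (dlOf (nat_lit 1) (nat_lit 0x10c0040080000812a302)))))))) 
(.nd (nat_lit 30) (.nd (nat_lit 9) (.nd (nat_lit 10) (.nd (nat_lit 8) (.nd (nat_lit 19) 
(.lf (nat_lit 5100470304) (dlOf (nat_lit 1) (nat_lit 0x4004007a0008090102))) 
(.lf (nat_lit 537591840) (dlOf (nat_lit 2) (nat_lit 0x15c04c000000180c0b00)))) 
(.lf (nat_lit 1006829856) (dlOf (nat_lit 1) (nat_lit 0x4a0002012800080c0502)))) (.nd (nat_lit 6) 
(.lf (nat_lit 2818776096) (dlOf (nat_lit 1) (nat_lit 0x80040008001812bf02))) 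
(.lf (nat_lit 2818776160) (dlOf (nat_lit 1) (nat_lit 0x80040004001812c002))))) (.nd (nat_lit 6) 
(.nd (nat_lit 7) (.nd (nat_lit 8) 
(.lf (nat_lit 2818773536) (dlOf (nat_lit 1) (nat_lit 0x16c0028128801))) 
(.lf (nat_lit 2818774816) (dlOf (nat_lit 1) (nat_lit 0x8001812a001)))) 
(.lf (nat_lit 2752186016) (dlOf (nat_lit 1) (nat_lit 0x260028003a81)))) (.nd (nat_lit 7) 
(.lf (nat_lit 2885879648) (dlOf (nat_lit 1) (nat_lit 0x558008015c00201100008143f83))) 
(.lf (nat_lit 2818773728) (dlOf (nat_lit 1) (nat_lit 0x20018128c81)))))) (.nd (nat_lit 8) 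
(.nd (nat_lit 26) (.nd (nat_lit 6) (.nd (nat_lit 10) 
(.lf (nat_lit 6308429856) (dlOf (nat_lit 7) (nat_lit 0x3b806c059803001b001501670040000ec2003180600002e040390030000160200be0180000901000f00c000044080080060000180401a800400380008080102))) 
(.lf (nat_lit 3758298144) (dlOf (nat_lit 1) (nat_lit 0x60018129201)))) 
(.lf (nat_lit 1880293472) (dlOf (nat_lit 1) (nat_lit 0x20004000a0008811982)))) (.nd (nat_lit 9) 
(.lf (nat_lit 6107103264) (dlOf (nat_lit 1) (nat_lit 0x8008003000200120008090003))) 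
(.nd (nat_lit 27) 
(.lf (nat_lit 3825402400) (dlOf (nat_lit 1) (nat_lit 0x8008000400200020008157f03))) 
(.lf (nat_lit 1812136480) (dlOf (nat_lit 3) (nat_lit 0x1100f8014440800080000099004001000200020008157f02)))))) 
(.nd (nat_lit 6) (.nd (nat_lit 7) 
(.lf (nat_lit 1879245088) (dlOf (nat_lit 1) (nat_lit 0x4a0002012800080c0502))) (.nd (nat_lit 10) 
(.lf (nat_lit 4228055456) (dlOf (nat_lit 1) (nat_lit 0x4c00200340008016b82))) 
(.lf (nat_lit 2013463968) (dlOf (nat_lit 10) (nat_lit 0x8a0130007880804d8098003500403d404c000420202400260001c8100ef0130000d80807a80980006a0403cc04c00030020200026000120100f501300003c080118008007c002003e0008093603))))) 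
(.lf (nat_lit 2013463520) (dlOf (nat_lit 6) (nat_lit 0x2b0130068900802c0098033f604016004c019fa0200b002600cfb81000e013000000080048008001000200140008092883)))))))) 
(.nd (nat_lit 21) (.nd (nat_lit 16) (.nd (nat_lit 28) (.nd (nat_lit 7) (.nd (nat_lit 23) 
(.nd (nat_lit 26) (.nd (nat_lit 27) (.nd (nat_lit 30) 
(.lf (nat_lit 537264160) (dlOf (nat_lit 1) (nat_lit 0x2c0018070681))) 
(.lf (nat_lit 1611005984) (dlOf (nat_lit 7) (nat_lit 0x2f6053012601a80c20084014c03a000270802f2053011e01a80c08084014403a000260801b205000e5019006d008003a00380000e0800a205000510190027808000880380000d080014050000060100e0028007000c8038804001c801c000050480b0180)))) 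
(.lf (nat_lit 3355836448) (dlOf (nat_lit 1) (nat_lit 0xe00080018002002c0008120503)))) 
(.nd (nat_lit 27) 
(.lf (nat_lit 3288727584) (dlOf (nat_lit 2) (nat_lit 0x3c0190000000800800080024002003800080d0883))) 
(.lf (nat_lit 738590752) (dlOf (nat_lit 7) (nat_lit 0x2f6053012601a80c20084014c03a000270802f2053011e01a80c08084014403a000260801b205000e5019006d008003a00380000e0800a205000510190027808000880380000d080014050000060100e0028007000c8038804001c801c000050480b0180))))) 
(.nd (nat_lit 20) (.nd (nat_lit 24) 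
(.lf (nat_lit 12976160) (dlOf (nat_lit 1) (nat_lit 0x200080010002000800086f0703))) 
(.lf (nat_lit 29753376) (dlOf (nat_lit 1) (nat_lit 0x40018e30001)))) 
(.lf (nat_lit 9830432) (dlOf (nat_lit 2) (nat_lit 0x20000000ec0800f0008000400200440008580103))))) 
(.nd (nat_lit 8) (.nd (nat_lit 6) 
(.lf (nat_lit 2349203616) (dlOf (nat_lit 1) (nat_lit 0x18004000c00181b0202))) 
(.lf (nat_lit 604373216) (dlOf (nat_lit 1) (nat_lit 0x580080030002001800081a0583)))) 
(.nd (nat_lit 9) (.lf (nat_lit 21365216) (dlOf (nat_lit 1) (nat_lit 0x10c0008a37281))) 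
(.lf (nat_lit 50725856) (dlOf (nat_lit 1) (nat_lit 0x4004000600194c2882)))))) (.nd (nat_lit 27) 
(.nd (nat_lit 31) (.nd (nat_lit 6) (.nd (nat_lit 26) 
(.lf (nat_lit 4563796000) (dlOf (nat_lit 1) (nat_lit 0x1000080e0701))) 
(.lf (nat_lit 1409679392) (dlOf (nat_lit 1) (nat_lit 0x2c0018070681)))) 
(.lf (nat_lit 1879441760) (dlOf (nat_lit 1) (nat_lit 0x20018150901)))) (.nd (nat_lit 7) 
(.lf (nat_lit 4026925088) (dlOf (nat_lit 2) (nat_lit 0x3c0190000000800800080024002003800080d0883))) 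
(.nd (nat_lit 8) (.lf (nat_lit 2483421344) (dlOf (nat_lit 1) (nat_lit 0x18004000c00181b0202))) 
(.lf (nat_lit 3490056608) (dlOf (nat_lit 1) (nat_lit 0x400200020008004e82)))))) (.nd (nat_lit 31) 
(.nd (nat_lit 6) (.nd (nat_lit 10) 
(.lf (nat_lit 471203872) (dlOf (nat_lit 1) (nat_lit 0x800182c0681))) 
(.lf (nat_lit 474350624) (dlOf (nat_lit 1) (nat_lit 0x120019162881)))) 
(.lf (nat_lit 1476788448) (dlOf (nat_lit 1) (nat_lit 0x580080030002001800081a0583)))) 
(.nd (nat_lit 7) (.nd (nat_lit 29) 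
(.lf (nat_lit 2617638944) (dlOf (nat_lit 1) (nat_lit 0x30008001000200180008110483))) 
(.lf (nat_lit 3154509856) (dlOf (nat_lit 2) (nat_lit 0x6e05100220198002c41000180080018002000400081f0603)))) 
(.lf (nat_lit 4228252064) (dlOf (nat_lit 1) (nat_lit 0x20018090781))))))) (.nd (nat_lit 29) 
(.nd (nat_lit 28) (.nd (nat_lit 20) (.nd (nat_lit 22) (.nd (nat_lit 9) 
(.lf (nat_lit 59703328) (dlOf (nat_lit 1) (nat_lit 0x20019820181))) 
(.lf (nat_lit 134677024) (dlOf (nat_lit 1) (nat_lit 0x1c004000c0008090d82)))) (.nd (nat_lit 7) 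
(.lf (nat_lit 13041696) (dlOf (nat_lit 4) (nat_lit 0x1cc720001a02000263900063110000601000298e40001604000c002001000086f0702))) 
(.lf (nat_lit 54984864) (dlOf (nat_lit 1) (nat_lit 0x400400020019681302))))) (.nd (nat_lit 6) 
(.nd (nat_lit 19) (.lf (nat_lit 9895968) (dlOf (nat_lit 1) (nat_lit 0x800200020008590702))) 
(.lf (nat_lit 23003168) (dlOf (nat_lit 1) (nat_lit 0x8008000800200020008b40503)))) 
(.lf (nat_lit 47645792) (dlOf (nat_lit 1) (nat_lit 0x28e0019402901))))) (.nd (nat_lit 10) 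
(.nd (nat_lit 20) (.nd (nat_lit 22) 
(.lf (nat_lit 3557228576) (dlOf (nat_lit 1) (nat_lit 0x180018170181))) 
(.lf (nat_lit 3494314016) (dlOf (nat_lit 1) (nat_lit 0x20018200b01)))) 
(.lf (nat_lit 471269408) (dlOf (nat_lit 1) (nat_lit 0x1c00080004002003200082e0003)))) 
(.nd (nat_lit 6) (.lf (nat_lit 5772346656) (dlOf (nat_lit 1) (nat_lit 0x20018093101))) 
(.nd (nat_lit 7) (.lf (nat_lit 3490123104) (dlOf (nat_lit 1) (nat_lit 0xa0028006a81))) 
(.lf (nat_lit 5772346592) (dlOf (nat_lit 1) (nat_lit 0x400400020008092e02))))))) (.nd (nat_lit 26) 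
(.nd (nat_lit 27) (.nd (nat_lit 6) (.nd (nat_lit 30) 
(.lf (nat_lit 537329696) (dlOf (nat_lit 1) (nat_lit 0x8008000400200020008090003))) 
(.lf (nat_lit 1611071520) (dlOf (nat_lit 1) (nat_lit 0x10008000c002000400080d0103)))) 
(.lf (nat_lit 805765472) (dlOf (nat_lit 2) (nat_lit 0x2038000070181a0680)))) (.nd (nat_lit 30) 
(.lf (nat_lit 2819031072) (dlOf (nat_lit 1) (nat_lit 0xe0018150181))) 
(.lf (nat_lit 3892772896) (dlOf (nat_lit 2) (nat_lit 0x400c80020060014d008003800200040008250682))))) 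
(.nd (nat_lit 6) (.nd (nat_lit 7) (.nd (nat_lit 22) 
(.lf (nat_lit 738656288) (dlOf (nat_lit 1) (nat_lit 0x10008000c002000400080d0103))) 
(.lf (nat_lit 2756116512) (dlOf (nat_lit 1) (nat_lit 0x20018200b01)))) 
(.lf (nat_lit 2751924128) (dlOf (nat_lit 1) (nat_lit 0x20028004281)))) (.nd (nat_lit 7) 
(.nd (nat_lit 8) (.lf (nat_lit 4228317280) (dlOf (nat_lit 1) (nat_lit 0x60028090001))) 
(.lf (nat_lit 1678180704) (dlOf (nat_lit 2) (nat_lit 0x2038000070181a0680)))) 
(.lf (nat_lit 2751923168) (dlOf (nat_lit 1) (nat_lit 0x8008000400200020008002883)))))))) 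
(.nd (nat_lit 24) (.nd (nat_lit 6) (.nd (nat_lit 19) (.nd (nat_lit 23) (.nd (nat_lit 26) 
(.lf (nat_lit 2490400) (dlOf (nat_lit 1) (nat_lit 0x28008000400200040008160903))) 
(.lf (nat_lit 2753953824) (dlOf (nat_lit 7) (nat_lit 0x2204380718c0800e021c038c404007010e01c5e02003408700deb01001e043806f5408002021c037a6040028004002600180a0902)))) 
(.nd (nat_lit 20) (.lf (nat_lit 10879008) (dlOf (nat_lit 1) (nat_lit 0x1a800400a20018640682))) 
(.lf (nat_lit 16121888) (dlOf (nat_lit 1) (nat_lit 0x18008000800200120008870603))))) 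
(.nd (nat_lit 8) (.nd (nat_lit 10) 
(.lf (nat_lit 15663136) (dlOf (nat_lit 1) (nat_lit 0x20018810681))) 
(.lf (nat_lit 46009376) (dlOf (nat_lit 1) (nat_lit 0x20029386001)))) (.nd (nat_lit 7) 
(.nd (nat_lit 9) (.lf (nat_lit 8324384) (dlOf (nat_lit 1) (nat_lit 0x20028513101))) 
(.lf (nat_lit 3492742944) (dlOf (nat_lit 1) (nat_lit 0x2680080004002014e00080f3d03)))) 
(.lf (nat_lit 2754480544) (dlOf (nat_lit 1) (nat_lit 0x200080f4e81)))))) (.nd (nat_lit 8) 
(.nd (nat_lit 7) (.nd (nat_lit 16) (.nd (nat_lit 22) 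
(.lf (nat_lit 1881538656) (dlOf (nat_lit 1) (nat_lit 0xf400400240008f40902))) 
(.lf (nat_lit 48627808) (dlOf (nat_lit 1) (nat_lit 0x118004007a0009420902)))) 
(.lf (nat_lit 473890912) (dlOf (nat_lit 2) (nat_lit 0x429a000000200040008fc0901)))) 
(.nd (nat_lit 16) (.lf (nat_lit 8262368) (dlOf (nat_lit 1) (nat_lit 0x400200020008518c82))) 
(.lf (nat_lit 8327904) (dlOf (nat_lit 1) (nat_lit 0x8008000400200040008518c83))))) 
(.nd (nat_lit 10) (.nd (nat_lit 7) (.nd (nat_lit 11) 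
(.lf (nat_lit 11993440) (dlOf (nat_lit 3) (nat_lit 0x318fc0048c50001c610000d2dc8001582000818fc0048c50002061000102dc80004c2000f00080020002001200086c0683))) 
(.lf (nat_lit 1345194336) (dlOf (nat_lit 1) (nat_lit 0x3800400260008b04e82)))) 
(.lf (nat_lit 50267104) (dlOf (nat_lit 1) (nat_lit 0x200194c2881)))) (.nd (nat_lit 7) 
(.nd (nat_lit 26) (.lf (nat_lit 1345193312) (dlOf (nat_lit 2) (nat_lit 0x9a16500008018b03400))) 
(.lf (nat_lit 472778080) (dlOf (nat_lit 4) (nat_lit 0xae1650001601004a0b28000400802505940000004003c004000c0018b03402)))) 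
(.lf (nat_lit 8259040) (dlOf (nat_lit 1) (nat_lit 0xb0008000400200120008513603))))))) 
(.nd (nat_lit 9) (.nd (nat_lit 8) (.nd (nat_lit 20) (.nd (nat_lit 6) 
(.lf (nat_lit 19791904) (dlOf (nat_lit 1) (nat_lit 0x80080028002000800089d0003))) (.nd (nat_lit 10) 
(.lf (nat_lit 19796064) (dlOf (nat_lit 1) (nat_lit 0x200089d7d81))) 
(.lf (nat_lit 19795040) (dlOf (nat_lit 1) (nat_lit 0x4004000200089d6082))))) (.nd (nat_lit 16) 
(.lf (nat_lit 20840544) (dlOf (nat_lit 1) (nat_lit 0x38008001c002000600089e1983))) 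
(.lf (nat_lit 58654816) (dlOf (nat_lit 1) (nat_lit 0x4004000200197e0082))))) (.nd (nat_lit 7) 
(.nd (nat_lit 10) (.lf (nat_lit 19792224) (dlOf (nat_lit 1) (nat_lit 0x4002000200089d0e02))) 
(.lf (nat_lit 19799392) (dlOf (nat_lit 1) (nat_lit 0x200080008002000600089dc903)))) 
(.nd (nat_lit 6) (.lf (nat_lit 20322720) (dlOf (nat_lit 1) (nat_lit 0x8008000c002000800089daf83))) 
(.lf (nat_lit 19795424) (dlOf (nat_lit 1) (nat_lit 0x8002000200089d6e02)))))) (.nd (nat_lit 6) 
(.nd (nat_lit 8) (.nd (nat_lit 7) 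
(.lf (nat_lit 23527968) (dlOf (nat_lit 1) (nat_lit 0x800400020008b80d82))) 
(.lf (nat_lit 19792544) (dlOf (nat_lit 1) (nat_lit 0x4002000200089d1c02)))) (.nd (nat_lit 10) 
(.nd (nat_lit 11) (.lf (nat_lit 19792800) (dlOf (nat_lit 1) (nat_lit 0x80080024002001000089d2603))) 
(.lf (nat_lit 19798944) (dlOf (nat_lit 1) (nat_lit 0x880080060002001800089dbc83)))) 
(.lf (nat_lit 19795872) (dlOf (nat_lit 1) (nat_lit 0xc004000400089d7882))))) (.nd (nat_lit 7) 
(.nd (nat_lit 10) 
(.lf (nat_lit 19796576) (dlOf (nat_lit 1) (nat_lit 0x66800803c4002011800089d8983))) 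
(.lf (nat_lit 19797600) (dlOf (nat_lit 1) (nat_lit 0x200089d9c01)))) (.nd (nat_lit 16) 
(.lf (nat_lit 19798752) (dlOf (nat_lit 1) (nat_lit 0x200189db981))) 
(.lf (nat_lit 19864288) (dlOf (nat_lit 1) (nat_lit 0x200189db981)))))))))) (.nd (nat_lit 8) 
(.nd (nat_lit 28) (.nd (nat_lit 18) (.nd (nat_lit 19) (.nd (nat_lit 26) (.nd (nat_lit 23) 
(.nd (nat_lit 7) (.nd (nat_lit 6) (.nd (nat_lit 20) 
(.lf (nat_lit 6422576) (dlOf (nat_lit 1) (nat_lit 0xc8008008c002002c0008420003))) 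
(.lf (nat_lit 17956912) (dlOf (nat_lit 1) (nat_lit 0x400200020008900b82)))) (.nd (nat_lit 9) 
(.lf (nat_lit 6442584176) (dlOf (nat_lit 1) (nat_lit 0x4004000400180f4782))) 
(.lf (nat_lit 1208093296) (dlOf (nat_lit 1) (nat_lit 0x1400400080008095402))))) (.nd (nat_lit 9) 
(.nd (nat_lit 16) (.lf (nat_lit 33686704) (dlOf (nat_lit 1) (nat_lit 0x8008000400200020008f52c03))) 
(.lf (nat_lit 35849392) (dlOf (nat_lit 1) (nat_lit 0xc4004010c0009012c02)))) 
(.lf (nat_lit 2818773680) (dlOf (nat_lit 1) (nat_lit 0x10008003000200120008128c83))))) 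
(.nd (nat_lit 16) (.nd (nat_lit 20) (.nd (nat_lit 7) 
(.lf (nat_lit 10616880) (dlOf (nat_lit 6) (nat_lit 0x7075800503a600321ca0002983000f0e980028728000a408004c394000510200101d30002781000f0eb000907280008e08000c004003c0008600602))) 
(.lf (nat_lit 8524976) (dlOf (nat_lit 1) (nat_lit 0x18008000400200020008519503)))) 
(.nd (nat_lit 22) 
(.lf (nat_lit 59899952) (dlOf (nat_lit 1) (nat_lit 0x30008001800200020009840003))) 
(.lf (nat_lit 47317040) (dlOf (nat_lit 1) (nat_lit 0x10004001200093d0d02))))) (.nd (nat_lit 6) 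
(.nd (nat_lit 20) 
(.lf (nat_lit 25362480) (dlOf (nat_lit 2) (nat_lit 0xb15d94015e52a01090ec0002b038c00680))) 
(.lf (nat_lit 30605360) (dlOf (nat_lit 2) (nat_lit 0x600000001e04001c00400060008e40e82)))) 
(.lf (nat_lit 44236912) (dlOf (nat_lit 1) (nat_lit 0x300080008002000200092e0d03)))))) 
(.nd (nat_lit 11) (.nd (nat_lit 29) (.nd (nat_lit 16) (.nd (nat_lit 32) 
(.lf (nat_lit 1140981808) (dlOf (nat_lit 2) (nat_lit 0x2a006001600000008c1000680080010002000e0008040383))) 
(.lf (nat_lit 5435949104) (dlOf (nat_lit 1) (nat_lit 0x18008003c002000e0008050d03)))) 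
(.lf (nat_lit 3288530992) (dlOf (nat_lit 2) (nat_lit 0xf800d40648068034403101a101800ce00a801e8052008e023018801000b8802c000442401ec00400c60018070902)))) 
(.nd (nat_lit 7) (.lf (nat_lit 2752643120) (dlOf (nat_lit 1) (nat_lit 0xa0018020581))) 
(.lf (nat_lit 6107037872) (dlOf (nat_lit 1) (nat_lit 0x400400020008031602))))) (.nd (nat_lit 7) 
(.nd (nat_lit 27) 
(.lf (nat_lit 1677858864) (dlOf (nat_lit 2) (nat_lit 0x2602b0015140808a000800c40020004000811a603))) 
(.lf (nat_lit 3959560240) (dlOf (nat_lit 1) (nat_lit 0x5c0020008000811a602)))) (.nd (nat_lit 6) 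
(.lf (nat_lit 2754809520) (dlOf (nat_lit 1) (nat_lit 0x11e00280f7281))) 
(.lf (nat_lit 6509694192) (dlOf (nat_lit 3) (nat_lit 0x2b013000018080138098000000400c800200320008146502))))))) 
(.nd (nat_lit 16) (.nd (nat_lit 23) (.nd (nat_lit 29) (.nd (nat_lit 10) (.nd (nat_lit 26) 
(.lf (nat_lit 3221880880) (dlOf (nat_lit 6) (nat_lit 0xaa00000009c08056000000048040048000000230200d40000001101006e0070000000800a000800b8002003800081a0e83))) 
(.lf (nat_lit 67764272) (dlOf (nat_lit 2) (nat_lit 0x132000000078182e0e80)))) 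
(.lf (nat_lit 8000560) (dlOf (nat_lit 2) (nat_lit 0xb2630028d0080028008003800200020008519203)))) 
(.nd (nat_lit 9) (.nd (nat_lit 21) 
(.lf (nat_lit 3960078384) (dlOf (nat_lit 4) (nat_lit 0x2500000002702012c0000001181009300000008408004000800b8002002e00081a0f83))) 
(.lf (nat_lit 2754215984) (dlOf (nat_lit 1) (nat_lit 0x900080030002005e00080c0f83)))) 
(.lf (nat_lit 2753167920) (dlOf (nat_lit 1) (nat_lit 0x420018090f01))))) (.nd (nat_lit 21) 
(.nd (nat_lit 6) (.nd (nat_lit 20) 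
(.lf (nat_lit 46792752) (dlOf (nat_lit 1) (nat_lit 0x1180080028002007c0009380003))) 
(.lf (nat_lit 10092592) (dlOf (nat_lit 6) (nat_lit 0x7a4300016808001d8f00008a040012c78000440200122330001a81001a0000000800800100080018002001000085b0583)))) 
(.lf (nat_lit 9046128) (dlOf (nat_lit 1) (nat_lit 0x180080010002000a0008514783)))) 
(.nd (nat_lit 22) (.lf (nat_lit 11141168) (dlOf (nat_lit 1) (nat_lit 0x40028660d81))) 
(.lf (nat_lit 15335472) (dlOf (nat_lit 1) (nat_lit 0x100080004002000200087e0703)))))) 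
(.nd (nat_lit 7) (.nd (nat_lit 27) (.nd (nat_lit 20) 
(.lf (nat_lit 537591856) (dlOf (nat_lit 7) (nat_lit 0x404b0001b01000f0258000d408001012c000680401380be0003202029205f00930180000c41003100c00006004008c00400a000080c0f82))) 
(.lf (nat_lit 1769520) (dlOf (nat_lit 1) (nat_lit 0x80028130881)))) (.nd (nat_lit 26) 
(.lf (nat_lit 134938672) (dlOf (nat_lit 2) (nat_lit 0x268174052c0b4026e04c013600400ce80000005a140330002000a00080e0682))) 
(.lf (nat_lit 202047536) (dlOf (nat_lit 2) (nat_lit 0xa5816c01340b4026e04c013600400ce80000005a140330002000a00080e0682))))) 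
(.nd (nat_lit 6) (.lf (nat_lit 36373680) (dlOf (nat_lit 1) (nat_lit 0x560009072c01))) 
(.lf (nat_lit 8065776) (dlOf (nat_lit 1) (nat_lit 0xc0028518e81))))))) (.nd (nat_lit 19) 
(.nd (nat_lit 26) (.nd (nat_lit 16) (.nd (nat_lit 30) (.nd (nat_lit 6) (.nd (nat_lit 7) 
(.lf (nat_lit 9830448) (dlOf (nat_lit 1) (nat_lit 0x2000200060008580382))) 
(.lf (nat_lit 51774640) (dlOf (nat_lit 1) (nat_lit 0x20009512c01)))) 
(.lf (nat_lit 395376) (dlOf (nat_lit 1) (nat_lit 0x8002000c0008004782)))) (.nd (nat_lit 27) 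
(.nd (nat_lit 29) (.lf (nat_lit 1074135088) (dlOf (nat_lit 1) (nat_lit 0x24002000c00080c0f82))) 
(.lf (nat_lit 1611006000) (dlOf (nat_lit 3) (nat_lit 0x8035000101080080074004920c00700a600220350013010803080740048e100084004001a00080b0482)))) 
(.lf (nat_lit 3355836464) (dlOf (nat_lit 2) (nat_lit 0x360000000000800700080068002001e0008120d83))))) 
(.nd (nat_lit 21) (.nd (nat_lit 7) 
(.lf (nat_lit 30867504) (dlOf (nat_lit 1) (nat_lit 0x800400020008e50b82))) 
(.lf (nat_lit 134676656) (dlOf (nat_lit 4) (nat_lit 0x102180008104000180800640820000b02000404300020208000281000c8008006400200660008090303)))) 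
(.nd (nat_lit 23) (.lf (nat_lit 23527472) (dlOf (nat_lit 1) (nat_lit 0x400200020008b80002))) 
(.lf (nat_lit 15138864) (dlOf (nat_lit 8) (nat_lit 0x1d686403040000003704000e0000001b0100170000000d408004000000068040048dfa0000a0200026fd0000081000a0000000000800280080028002001400087c0703)))))) 
(.nd (nat_lit 27) (.nd (nat_lit 6) 
(.lf (nat_lit 67502128) (dlOf (nat_lit 1) (nat_lit 0x4004000200181a0982))) (.nd (nat_lit 7) 
(.lf (nat_lit 4362469488) (dlOf (nat_lit 1) (nat_lit 0x40018090001))) 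
(.lf (nat_lit 604373232) (dlOf (nat_lit 1) (nat_lit 0x200281a0601))))) (.nd (nat_lit 16) 
(.nd (nat_lit 29) (.lf (nat_lit 2349203504) (dlOf (nat_lit 1) (nat_lit 0x200281b0001))) 
(.lf (nat_lit 738590768) (dlOf (nat_lit 3) (nat_lit 0x8035000101080080074004920c00700a600220350013010803080740048e100084004001a00080b0482)))) 
(.nd (nat_lit 7) (.lf (nat_lit 2886139952) (dlOf (nat_lit 2) (nat_lit 0x1603d00004818160580))) 
(.lf (nat_lit 201785520) (dlOf (nat_lit 4) (nat_lit 0x102180008104000180800640820000b02000404300020208000281000c8008006400200660008090303))))))) 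
(.nd (nat_lit 7) (.nd (nat_lit 21) (.nd (nat_lit 16) (.nd (nat_lit 20) 
(.lf (nat_lit 17694768) (dlOf (nat_lit 3) (nat_lit 0xd78b00003602000b65c000400000003c1000100080008002001000088f0e83))) 
(.nd (nat_lit 22) 
(.lf (nat_lit 27131952) (dlOf (nat_lit 2) (nat_lit 0x410e00006e04002000400040018ca0702))) 
(.lf (nat_lit 22937648) (dlOf (nat_lit 1) (nat_lit 0x16e0008b40d81))))) (.nd (nat_lit 23) 
(.lf (nat_lit 5177392) (dlOf (nat_lit 1) (nat_lit 0x60018320701))) 
(.lf (nat_lit 13566000) (dlOf (nat_lit 2) (nat_lit 0x605a2000000200020018730b01))))) 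
(.nd (nat_lit 12) (.nd (nat_lit 6) (.nd (nat_lit 16) 
(.lf (nat_lit 4063280) (dlOf (nat_lit 2) (nat_lit 0x1306c8000100800300080018002001a0008270b03))) 
(.lf (nat_lit 25100336) (dlOf (nat_lit 5) (nat_lit 0x672f4003353200439130010c88800ae1b40032ee200134040006955800646fc002e36a00191ac00088d50004456000321f40018ffe000c7b6800080000006c44001f22600239110014c368000d018001e44c004f222000986d00017030009c8980086444003f0da0002b06000e0018be0e81)))) 
(.lf (nat_lit 19795568) (dlOf (nat_lit 1) (nat_lit 0x8008003c002000a00089d7183)))) (.nd (nat_lit 6) 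
(.nd (nat_lit 16) 
(.lf (nat_lit 19796528) (dlOf (nat_lit 1) (nat_lit 0x20008001c002000600089d8983))) 
(.lf (nat_lit 19862064) (dlOf (nat_lit 1) (nat_lit 0x1a00289d8981)))) 
(.lf (nat_lit 19796592) (dlOf (nat_lit 1) (nat_lit 0x8004000200089d8982)))))) (.nd (nat_lit 10) 
(.nd (nat_lit 6) (.nd (nat_lit 9) 
(.lf (nat_lit 20840624) (dlOf (nat_lit 1) (nat_lit 0x50008002c002000a00089e2d83))) 
(.lf (nat_lit 19798704) (dlOf (nat_lit 1) (nat_lit 0x30008000c002000800089db803)))) 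
(.lf (nat_lit 19862256) (dlOf (nat_lit 1) (nat_lit 0x200289d8e81)))) (.nd (nat_lit 6) 
(.nd (nat_lit 11) (.lf (nat_lit 34473136) (dlOf (nat_lit 1) (nat_lit 0x1000400060008fb2c02))) 
(.lf (nat_lit 2754481328) (dlOf (nat_lit 3) (nat_lit 0xe40cc003e0400000c82001b0200000500800100080018002000600080f6283)))) 
(.lf (nat_lit 2754546928) (dlOf (nat_lit 2) (nat_lit 0x2903c8000d408005000800c4002000200080f6503)))))))) 
(.nd (nat_lit 16) (.nd (nat_lit 27) (.nd (nat_lit 18) (.nd (nat_lit 20) (.nd (nat_lit 7) 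
(.nd (nat_lit 19) (.lf (nat_lit 5637275696) (dlOf (nat_lit 1) (nat_lit 0x4004000200080d0002))) 
(.nd (nat_lit 21) (.lf (nat_lit 3557425200) (dlOf (nat_lit 1) (nat_lit 0x200181f0981))) 
(.lf (nat_lit 3492413488) (dlOf (nat_lit 6) (nat_lit 0x1901a000040c600020420001b030007034802c81100006408015408800030020014044000158100010220000a408005800800d8002000a00080c0e83))))) 
(.nd (nat_lit 6) 
(.lf (nat_lit 4630642864) (dlOf (nat_lit 1) (nat_lit 0x8008000400200060008031603))) 
(.lf (nat_lit 335675632) (dlOf (nat_lit 1) (nat_lit 0x20018090a81))))) (.nd (nat_lit 9) 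
(.nd (nat_lit 31) (.lf (nat_lit 1343356976) (dlOf (nat_lit 1) (nat_lit 0x1940018200981))) 
(.lf (nat_lit 3490840624) (dlOf (nat_lit 1) (nat_lit 0xa0018020581)))) (.nd (nat_lit 7) 
(.lf (nat_lit 3491365424) (dlOf (nat_lit 1) (nat_lit 0x420018090f01))) 
(.lf (nat_lit 3492939440) (dlOf (nat_lit 1) (nat_lit 0x2000080f3a81)))))) (.nd (nat_lit 26) 
(.nd (nat_lit 6) (.nd (nat_lit 20) 
(.lf (nat_lit 5637537840) (dlOf (nat_lit 1) (nat_lit 0x10004000a0008100382))) 
(.lf (nat_lit 1343619120) (dlOf (nat_lit 2) (nat_lit 0x103ce0005c02000200082c0801)))) 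
(.lf (nat_lit 1343095024) (dlOf (nat_lit 1) (nat_lit 0x400200020008150702)))) (.nd (nat_lit 6) 
(.nd (nat_lit 19) (.lf (nat_lit 6241517616) (dlOf (nat_lit 1) (nat_lit 0x10004000a0008100382))) 
(.lf (nat_lit 4095606832) (dlOf (nat_lit 1) (nat_lit 0x4004000200080e0002)))) 
(.lf (nat_lit 872809584) (dlOf (nat_lit 1) (nat_lit 0x3200180e2a01)))))) (.nd (nat_lit 7) 
(.nd (nat_lit 31) (.nd (nat_lit 10) (.nd (nat_lit 26) 
(.lf (nat_lit 2013397040) (dlOf (nat_lit 2) (nat_lit 0x2a006001600000008c1000680080010002000e0008040383))) 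
(.lf (nat_lit 5301731376) (dlOf (nat_lit 1) (nat_lit 0x18008003c002000e0008050d03)))) 
(.lf (nat_lit 469898288) (dlOf (nat_lit 2) (nat_lit 0x102380146804005c00400240018009202)))) 
(.nd (nat_lit 18) (.nd (nat_lit 9) 
(.lf (nat_lit 3154772016) (dlOf (nat_lit 4) (nat_lit 0x300320007016800d80aa001c0520004026802000d000380280003f0e000605a0001b0100010238000980800c000800c000200040008320e83))) 
(.lf (nat_lit 4227993136) (dlOf (nat_lit 1) (nat_lit 0x3c0008007181)))) (.nd (nat_lit 29) 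
(.lf (nat_lit 2617638960) (dlOf (nat_lit 2) (nat_lit 0x6006001b40060002d0400060008110681))) 
(.lf (nat_lit 3154509872) (dlOf (nat_lit 4) (nat_lit 0x5702d0000f40800600500006e0400080b40000002004e00181f0701)))))) 
(.nd (nat_lit 6) (.nd (nat_lit 10) 
(.lf (nat_lit 2080768176) (dlOf (nat_lit 2) (nat_lit 0x90168000a40800780080018002000c00080c1603))) 
(.nd (nat_lit 11) 
(.lf (nat_lit 474088624) (dlOf (nat_lit 8) (nat_lit 0x37102001085a000802cc006c16300240a28018850c00c828400641240026067800081cc00b002e00440150002f8c00130b3000d058c000bc0800744080032168001a0b30009058c002828a001c14300110a100050490004c19e00240ca0015039800e005c009802a0005d1a008c169001400c0001641001605a40068030000580400d6169001e0b300160060000a80c01d42d20056166003000c0001141801c8008001000200020009082c03))) 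
(.lf (nat_lit 1543638192) (dlOf (nat_lit 1) (nat_lit 0x8008000c00200040008146283))))) 
(.nd (nat_lit 9) (.nd (nat_lit 18) 
(.lf (nat_lit 473563376) (dlOf (nat_lit 1) (nat_lit 0x20018f61e81))) 
(.lf (nat_lit 1476788464) (dlOf (nat_lit 1) (nat_lit 0x200281a0601)))) 
(.lf (nat_lit 3087140592) (dlOf (nat_lit 1) (nat_lit 0x60008143b01))))))) (.nd (nat_lit 26) 
(.nd (nat_lit 18) (.nd (nat_lit 6) (.nd (nat_lit 32) (.nd (nat_lit 9) 
(.lf (nat_lit 1342898224) (dlOf (nat_lit 1) (nat_lit 0x20018101081))) 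
(.lf (nat_lit 1345522224) (dlOf (nat_lit 1) (nat_lit 0xc00200360008c95182)))) (.nd (nat_lit 27) 
(.lf (nat_lit 6711083056) (dlOf (nat_lit 1) (nat_lit 0x8008005400200020008090003))) 
(.lf (nat_lit 6308429872) (dlOf (nat_lit 1) (nat_lit 0x400200020008080382))))) (.nd (nat_lit 7) 
(.nd (nat_lit 20) (.lf (nat_lit 1879244912) (dlOf (nat_lit 1) (nat_lit 0x4004000200080c0002))) 
(.lf (nat_lit 1880293488) (dlOf (nat_lit 1) (nat_lit 0x80028811d01)))) 
(.lf (nat_lit 5774180592) (dlOf (nat_lit 1) (nat_lit 0x1a0008111e81))))) (.nd (nat_lit 27) 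
(.nd (nat_lit 29) (.nd (nat_lit 30) 
(.lf (nat_lit 4563861552) (dlOf (nat_lit 1) (nat_lit 0x400008110601))) 
(.lf (nat_lit 1342636080) (dlOf (nat_lit 9) (nat_lit 0x2024c001212480018920027047a0194232008c118802008b000183de00021ee00cc0e90007072000843780002a1801a0249009311f804788f40144464013c1d200660e40050871c00e437a00d21bc00014890087124802d88fc0003808023049200ca23f0000d8200c412480cd88fc01b4462003822b0000d04002c124800064080550924025047e02962310091115800a08a0000c2f2000180c01b224900b111f807008c4018c4560001708006a00180a0901)))) 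
(.lf (nat_lit 805765168) (dlOf (nat_lit 1) (nat_lit 0x80080008002000200081a0003)))) 
(.nd (nat_lit 30) (.lf (nat_lit 4698079280) (dlOf (nat_lit 1) (nat_lit 0x400008110601))) 
(.lf (nat_lit 3624337456) (dlOf (nat_lit 2) (nat_lit 0x1603d00004818160580)))))) (.nd (nat_lit 7) 
(.nd (nat_lit 27) (.nd (nat_lit 10) (.nd (nat_lit 19) 
(.lf (nat_lit 5704450096) (dlOf (nat_lit 1) (nat_lit 0x400200020008080382))) 
(.lf (nat_lit 1410007088) (dlOf (nat_lit 4) (nat_lit 0x240b2010004b0001b02009402f8000c80801e017c00052040048004004800080c0e82)))) 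
(.lf (nat_lit 3020100656) (dlOf (nat_lit 1) (nat_lit 0x60018129201)))) (.nd (nat_lit 18) 
(.nd (nat_lit 19) 
(.lf (nat_lit 4764926000) (dlOf (nat_lit 1) (nat_lit 0x8008008400200020008090003))) 
(.lf (nat_lit 470482992) (dlOf (nat_lit 1) (nat_lit 0x20018101081)))) (.nd (nat_lit 30) 
(.lf (nat_lit 1007091760) (dlOf (nat_lit 1) (nat_lit 0x5800800a400200420008170483))) 
(.lf (nat_lit 4228317232) (dlOf (nat_lit 1) (nat_lit 0x4e00080004002005a0008090003)))))) 
(.nd (nat_lit 27) (.nd (nat_lit 6) (.nd (nat_lit 9) 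
(.lf (nat_lit 4096458928) (dlOf (nat_lit 1) (nat_lit 0x20028111601))) 
(.lf (nat_lit 3556971184) (dlOf (nat_lit 1) (nat_lit 0x10008003000200120008128c83)))) 
(.lf (nat_lit 3556971248) (dlOf (nat_lit 2) (nat_lit 0x180420001d0200020018128e81)))) 
(.nd (nat_lit 18) (.nd (nat_lit 20) 
(.lf (nat_lit 472580336) (dlOf (nat_lit 1) (nat_lit 0x88002007800089c1e82))) 
(.lf (nat_lit 473628912) (dlOf (nat_lit 2) (nat_lit 0x10e0005128080028008000800200040008f61e83)))) 
(.lf (nat_lit 473891056) (dlOf (nat_lit 3) (nat_lit 0x282cc00e6402000c16600731018fc1e80))))))))) 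
(.nd (nat_lit 11) (.nd (nat_lit 16) (.nd (nat_lit 7) (.nd (nat_lit 26) (.nd (nat_lit 30) 
(.nd (nat_lit 6) (.lf (nat_lit 39978288) (dlOf (nat_lit 1) (nat_lit 0x4004000400091f3202))) 
(.nd (nat_lit 19) (.lf (nat_lit 268566896) (dlOf (nat_lit 1) (nat_lit 0x40028085801))) 
(.lf (nat_lit 60424560) (dlOf (nat_lit 1) (nat_lit 0x8c00400c20019857602))))) (.nd (nat_lit 6) 
(.lf (nat_lit 1342570800) (dlOf (nat_lit 1) (nat_lit 0x8008010400200020008067a03))) 
(.nd (nat_lit 10) (.lf (nat_lit 1610744176) (dlOf (nat_lit 1) (nat_lit 0x20028090f81))) 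
(.lf (nat_lit 1610745200) (dlOf (nat_lit 3) (nat_lit 0x540a40002c02002c05200015818093500)))))) 
(.nd (nat_lit 27) (.nd (nat_lit 6) 
(.lf (nat_lit 2483421488) (dlOf (nat_lit 1) (nat_lit 0x20008001c002000400081b0503))) 
(.nd (nat_lit 18) 
(.lf (nat_lit 5167513968) (dlOf (nat_lit 1) (nat_lit 0x3a800802c800201400008075803))) 
(.lf (nat_lit 4362469744) (dlOf (nat_lit 1) (nat_lit 0x530008001000200680008090783))))) 
(.nd (nat_lit 6) (.lf (nat_lit 738328880) (dlOf (nat_lit 2) (nat_lit 0x1805200031018090b00))) 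
(.nd (nat_lit 28) 
(.lf (nat_lit 201720176) (dlOf (nat_lit 2) (nat_lit 0x1380ec019dc040114004003c0018090782))) 
(.lf (nat_lit 4228252016) (dlOf (nat_lit 1) (nat_lit 0x3d00080010002005a0008090783))))))) 
(.nd (nat_lit 9) (.nd (nat_lit 6) (.nd (nat_lit 10) (.nd (nat_lit 18) 
(.lf (nat_lit 43123120) (dlOf (nat_lit 2) (nat_lit 0x1b9c8005b0080020008001c002000a00092a1003))) 
(.lf (nat_lit 4362469808) (dlOf (nat_lit 1) (nat_lit 0x20018090781)))) 
(.lf (nat_lit 4899079600) (dlOf (nat_lit 1) (nat_lit 0x20008053601)))) (.nd (nat_lit 10) 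
(.lf (nat_lit 43123184) (dlOf (nat_lit 1) (nat_lit 0x200092a1381))) (.nd (nat_lit 23) 
(.lf (nat_lit 5637277168) (dlOf (nat_lit 1) (nat_lit 0x4004000200080d3602))) 
(.lf (nat_lit 8521200) (dlOf (nat_lit 1) (nat_lit 0x400200020008513602)))))) (.nd (nat_lit 26) 
(.nd (nat_lit 18) (.lf (nat_lit 2818704368) (dlOf (nat_lit 1) (nat_lit 0x40002001600080d2882))) 
(.nd (nat_lit 20) (.lf (nat_lit 50725872) (dlOf (nat_lit 1) (nat_lit 0x10004001000094c2882))) 
(.lf (nat_lit 3493200880) (dlOf (nat_lit 1) (nat_lit 0x200180f2881))))) (.nd (nat_lit 27) 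
(.nd (nat_lit 6) (.lf (nat_lit 5972821936) (dlOf (nat_lit 1) (nat_lit 0x40028144381))) 
(.lf (nat_lit 2751857648) (dlOf (nat_lit 1) (nat_lit 0x60018002881)))) (.nd (nat_lit 20) 
(.lf (nat_lit 6375736304) (dlOf (nat_lit 1) (nat_lit 0x400400020008002882))) 
(.lf (nat_lit 473302000) (dlOf (nat_lit 4) (nat_lit 0x30170015e80800180b800aea04003c05c005740200040018e92881)))))))) 
(.nd (nat_lit 6) (.nd (nat_lit 9) (.nd (nat_lit 10) (.nd (nat_lit 7) 
(.lf (nat_lit 6376325424) (dlOf (nat_lit 1) (nat_lit 0x20018090b01))) (.nd (nat_lit 19) 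
(.lf (nat_lit 4362273200) (dlOf (nat_lit 1) (nat_lit 0xc00080018002001a0008017483))) 
(.lf (nat_lit 6378160560) (dlOf (nat_lit 1) (nat_lit 0x40008116e81))))) (.nd (nat_lit 19) 
(.nd (nat_lit 23) 
(.lf (nat_lit 2013463984) (dlOf (nat_lit 3) (nat_lit 0x680260003f01002c0130000900800600080010002000c0008093603))) 
(.lf (nat_lit 8586672) (dlOf (nat_lit 1) (nat_lit 0x400200020008513602)))) (.nd (nat_lit 23) 
(.lf (nat_lit 1008403888) (dlOf (nat_lit 1) (nat_lit 0x800400020008bb3602))) 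
(.lf (nat_lit 43713968) (dlOf (nat_lit 1) (nat_lit 0x8004000200092a3602)))))) (.nd (nat_lit 7) 
(.nd (nat_lit 10) (.lf (nat_lit 8061744) (dlOf (nat_lit 1) (nat_lit 0xb0008003c00200020008512203))) 
(.nd (nat_lit 18) 
(.lf (nat_lit 2885879600) (dlOf (nat_lit 1) (nat_lit 0xc0008000c00200020008143d83))) 
(.lf (nat_lit 2751924016) (dlOf (nat_lit 3) (nat_lit 0x82140003404001410a0000b0200040028003d81))))) 
(.nd (nat_lit 10) (.lf (nat_lit 3355644848) (dlOf (nat_lit 1) (nat_lit 0x3200280a9181))) 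
(.lf (nat_lit 2885879728) (dlOf (nat_lit 1) (nat_lit 0x180028144381)))))) (.nd (nat_lit 9) 
(.nd (nat_lit 20) (.nd (nat_lit 7) 
(.lf (nat_lit 4096459120) (dlOf (nat_lit 2) (nat_lit 0x280000055b0200140018115801))) 
(.nd (nat_lit 23) 
(.lf (nat_lit 2013464048) (dlOf (nat_lit 2) (nat_lit 0x920130001f00800580080008002000a0008093603))) 
(.lf (nat_lit 8586736) (dlOf (nat_lit 1) (nat_lit 0x400200020008513602))))) (.nd (nat_lit 7) 
(.lf (nat_lit 2753233264) (dlOf (nat_lit 16) (nat_lit 0x87e801d7e0400b03f400ebc0200581fa0075b8100c50fa8001077c01c2c0804183ea00cee02011e1f80065c81008f0fc0032c40804787e00196004023c3f000cad02003e1f80065581008f0fc0032a40804787e00195004023c3f000ca602011e1f8006528100230fc00327c08033000811dc00201f00008090783))) 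
(.nd (nat_lit 26) 
(.lf (nat_lit 3491430896) (dlOf (nat_lit 5) (nat_lit 0x90f68008180800187b40040a0400143da002020201401eb0006a018090d80))) 
(.lf (nat_lit 2753233392) (dlOf (nat_lit 5) (nat_lit 0x30ff8008180800487fc004080400143fe002020201401fd0006a018090d80)))))) 
(.nd (nat_lit 18) (.nd (nat_lit 19) (.nd (nat_lit 21) 
(.lf (nat_lit 671286256) (dlOf (nat_lit 1) (nat_lit 0x400200020008142882))) 
(.lf (nat_lit 48432112) (dlOf (nat_lit 1) (nat_lit 0x400200020009402882)))) (.nd (nat_lit 21) 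
(.lf (nat_lit 38470640) (dlOf (nat_lit 1) (nat_lit 0x20009132881))) 
(.lf (nat_lit 36373488) (dlOf (nat_lit 1) (nat_lit 0x20029072881))))) (.nd (nat_lit 19) 
(.nd (nat_lit 24) 
(.lf (nat_lit 2751923184) (dlOf (nat_lit 1) (nat_lit 0x8008000400200020008002883))) 
(.lf (nat_lit 50791408) (dlOf (nat_lit 1) (nat_lit 0x200294c2881)))) 
(.lf (nat_lit 50267120) (dlOf (nat_lit 3) (nat_lit 0x4e880151402000874400a4c0194c2880)))))))) 
(.nd (nat_lit 16) (.nd (nat_lit 21) (.nd (nat_lit 7) (.nd (nat_lit 26) (.nd (nat_lit 10) 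
(.nd (nat_lit 20) (.lf (nat_lit 37882224) (dlOf (nat_lit 1) (nat_lit 0x14002000a00090d4e82))) 
(.lf (nat_lit 55708016) (dlOf (nat_lit 1) (nat_lit 0xe00296d4e81)))) (.nd (nat_lit 28) 
(.lf (nat_lit 3221364080) (dlOf (nat_lit 1) (nat_lit 0x1800800980020052000811c903))) 
(.lf (nat_lit 805444976) (dlOf (nat_lit 1) (nat_lit 0x14000800680020040000811c903))))) 
(.nd (nat_lit 18) (.nd (nat_lit 19) 
(.lf (nat_lit 3825338736) (dlOf (nat_lit 1) (nat_lit 0x20018144e81))) 
(.lf (nat_lit 738855280) (dlOf (nat_lit 1) (nat_lit 0x160018124e81)))) (.nd (nat_lit 22) 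
(.lf (nat_lit 335939952) (dlOf (nat_lit 1) (nat_lit 0x80080004002000800080e4e83))) 
(.lf (nat_lit 474351984) (dlOf (nat_lit 1) (nat_lit 0x8008000400200020009164e83)))))) 
(.nd (nat_lit 6) (.nd (nat_lit 9) (.nd (nat_lit 10) (.nd (nat_lit 27) 
(.lf (nat_lit 3556903344) (dlOf (nat_lit 1) (nat_lit 0x5600280d4e81))) 
(.lf (nat_lit 1812072880) (dlOf (nat_lit 1) (nat_lit 0x400400020008144e82)))) 
(.lf (nat_lit 1543638448) (dlOf (nat_lit 1) (nat_lit 0x20028146d01)))) (.nd (nat_lit 12) 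
(.lf (nat_lit 4563536816) (dlOf (nat_lit 1) (nat_lit 0x108008002c002001a0008095d03))) 
(.lf (nat_lit 138160) (dlOf (nat_lit 3) (nat_lit 0x1a682000b274800593600029a0c0030d0400144e9000a26c00050c1800480080018002000a000800bd83))))) 
(.nd (nat_lit 10) (.nd (nat_lit 12) 
(.lf (nat_lit 37882352) (dlOf (nat_lit 1) (nat_lit 0x400190d4f01))) 
(.lf (nat_lit 1677859312) (dlOf (nat_lit 1) (nat_lit 0x6000800140020058000811b283)))) 
(.nd (nat_lit 28) 
(.lf (nat_lit 3221360112) (dlOf (nat_lit 1) (nat_lit 0x458008000400200440008116f03))) 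
(.lf (nat_lit 805441008) (dlOf (nat_lit 1) (nat_lit 0x1000200060008116f02))))))) (.nd (nat_lit 18) 
(.nd (nat_lit 22) (.nd (nat_lit 6) 
(.lf (nat_lit 20057392) (dlOf (nat_lit 1) (nat_lit 0x5800289d6881))) (.nd (nat_lit 9) 
(.nd (nat_lit 24) (.lf (nat_lit 1345456496) (dlOf (nat_lit 1) (nat_lit 0x94004000c0008c34e82))) 
(.lf (nat_lit 53610864) (dlOf (nat_lit 1) (nat_lit 0x400195f4e81)))) 
(.lf (nat_lit 20056944) (dlOf (nat_lit 1) (nat_lit 0x1b00080004002003000089d5c03))))) 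
(.nd (nat_lit 19) (.lf (nat_lit 49416560) (dlOf (nat_lit 1) (nat_lit 0x400200020009464e82))) 
(.lf (nat_lit 33163632) (dlOf (nat_lit 1) (nat_lit 0x20018f54e81))))) (.nd (nat_lit 19) 
(.nd (nat_lit 22) (.lf (nat_lit 1344670064) (dlOf (nat_lit 1) (nat_lit 0x40008924e81))) 
(.lf (nat_lit 40241520) (dlOf (nat_lit 1) (nat_lit 0x24004000200091f4e82)))) (.nd (nat_lit 24) 
(.nd (nat_lit 20) (.lf (nat_lit 2754480496) (dlOf (nat_lit 1) (nat_lit 0x200080f4e81))) 
(.lf (nat_lit 37620080) (dlOf (nat_lit 1) (nat_lit 0x200090d4e81)))) (.nd (nat_lit 9) 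
(.lf (nat_lit 19799408) (dlOf (nat_lit 1) (nat_lit 0x280080018002000600089dc903))) 
(.lf (nat_lit 19794800) (dlOf (nat_lit 1) (nat_lit 0x4002000200089d5c02)))))))) (.nd (nat_lit 30) 
(.nd (nat_lit 19) (.nd (nat_lit 18) (.nd (nat_lit 6) 
(.lf (nat_lit 805505456) (dlOf (nat_lit 1) (nat_lit 0x8008000400200020008114e83))) 
(.nd (nat_lit 20) (.lf (nat_lit 4966254960) (dlOf (nat_lit 1) (nat_lit 0x400400020008094e82))) 
(.lf (nat_lit 2754808176) (dlOf (nat_lit 1) (nat_lit 0x200280f4e81))))) (.nd (nat_lit 20) 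
(.lf (nat_lit 69667184) (dlOf (nat_lit 1) (nat_lit 0x8008000400200040008b94e83))) 
(.lf (nat_lit 62327152) (dlOf (nat_lit 1) (nat_lit 0x200299a4e81))))) (.nd (nat_lit 18) 
(.nd (nat_lit 21) (.lf (nat_lit 68880752) (dlOf (nat_lit 1) (nat_lit 0x4002000400087e4e82))) 
(.nd (nat_lit 22) (.lf (nat_lit 37423472) (dlOf (nat_lit 1) (nat_lit 0x200190d4e81))) 
(.lf (nat_lit 41617776) (dlOf (nat_lit 1) (nat_lit 0x180029244e81))))) (.nd (nat_lit 22) 
(.lf (nat_lit 45025648) (dlOf (nat_lit 1) (nat_lit 0x20029324e81))) 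
(.lf (nat_lit 49219952) (dlOf (nat_lit 1) (nat_lit 0x800200020009464e82)))))) (.nd (nat_lit 28) 
(.nd (nat_lit 31) (.nd (nat_lit 7) 
(.lf (nat_lit 5503125872) (dlOf (nat_lit 1) (nat_lit 0x400400020008094e82))) 
(.lf (nat_lit 1141050352) (dlOf (nat_lit 1) (nat_lit 0x8008000800200060008095f03)))) 
(.nd (nat_lit 6) 
(.lf (nat_lit 3221425456) (dlOf (nat_lit 2) (nat_lit 0x200000004604000800200020008116882))) 
(.lf (nat_lit 3221424496) (dlOf (nat_lit 1) (nat_lit 0x20018114e81))))) (.nd (nat_lit 7) 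
(.nd (nat_lit 18) (.nd (nat_lit 19) 
(.lf (nat_lit 1543702896) (dlOf (nat_lit 1) (nat_lit 0x400400020008144e82))) 
(.lf (nat_lit 3490384240) (dlOf (nat_lit 1) (nat_lit 0xc0008004e81)))) 
(.lf (nat_lit 3490122096) (dlOf (nat_lit 1) (nat_lit 0x20018004e81)))) (.nd (nat_lit 6) 
(.lf (nat_lit 6241323952) (dlOf (nat_lit 1) (nat_lit 0x2c00280d5d01))) 
(.lf (nat_lit 3624078832) (dlOf (nat_lit 1) (nat_lit 0x40028146f01))))))))))))

end

end Pool.Agent.Lib.MP_5854e1_co.Cz

namespace Pool.Agent.Lib.MP_5854e1_co.Cz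

noncomputable section

noncomputable def tz05 : DT := (.nd (nat_lit 17) (.nd (nat_lit 6) (.nd (nat_lit 4) 
(.nd (nat_lit 16) (.nd (nat_lit 28) (.nd (nat_lit 19) (.nd (nat_lit 18) (.nd (nat_lit 7) 
(.nd (nat_lit 9) (.nd (nat_lit 8) 
(.lf (nat_lit 16785440) (dlOf (nat_lit 1) (nat_lit 0x80080004002000200088e0003))) 
(.lf (nat_lit 536881440) (dlOf (nat_lit 1) (nat_lit 0x18008000800200020008004b83)))) 
(.nd (nat_lit 10) (.lf (nat_lit 2281710112) (dlOf (nat_lit 1) (nat_lit 0x160028001481))) 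
(.lf (nat_lit 2147493408) (dlOf (nat_lit 1) (nat_lit 0xc00200120008003702))))) (.nd (nat_lit 8) 
(.lf (nat_lit 2684363424) (dlOf (nat_lit 1) (nat_lit 0x20028001c01))) (.nd (nat_lit 10) 
(.lf (nat_lit 2754619808) (dlOf (nat_lit 1) (nat_lit 0x4002000200080f4e82))) 
(.lf (nat_lit 8398240) (dlOf (nat_lit 1) (nat_lit 0x400200020008513602)))))) (.nd (nat_lit 9) 
(.nd (nat_lit 23) (.nd (nat_lit 26) 
(.lf (nat_lit 671359008) (dlOf (nat_lit 5) (nat_lit 0x74022005ff810039011002ff4080188088017f204011004400bf00200020018160481))) 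
(.lf (nat_lit 1677991968) (dlOf (nat_lit 1) (nat_lit 0x3d000203180008130482)))) (.nd (nat_lit 20) 
(.lf (nat_lit 29630496) (dlOf (nat_lit 1) (nat_lit 0x20028e30001))) 
(.lf (nat_lit 62136352) (dlOf (nat_lit 1) (nat_lit 0x1400400040009960102))))) (.nd (nat_lit 7) 
(.lf (nat_lit 6509830688) (dlOf (nat_lit 1) (nat_lit 0x400400020008157f02))) (.nd (nat_lit 20) 
(.lf (nat_lit 738470816) (dlOf (nat_lit 1) (nat_lit 0x120028095c81))) 
(.lf (nat_lit 20196256) (dlOf (nat_lit 1) (nat_lit 0x4004000600189d5c82))))))) (.nd (nat_lit 26) 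
(.nd (nat_lit 20) (.nd (nat_lit 27) (.nd (nat_lit 21) (.nd (nat_lit 7) (.nd (nat_lit 10) 
(.lf (nat_lit 4726816) (dlOf (nat_lit 1) (nat_lit 0x2200282b0181))) 
(.lf (nat_lit 537632) (dlOf (nat_lit 1) (nat_lit 0x1c0028009201)))) 
(.lf (nat_lit 537403552) (dlOf (nat_lit 1) (nat_lit 0x8008000400200040008090203)))) 
(.nd (nat_lit 22) 
(.lf (nat_lit 27795488) (dlOf (nat_lit 3) (nat_lit 0x546600610020002a33002dc818d20680))) 
(.lf (nat_lit 48767008) (dlOf (nat_lit 1) (nat_lit 0x8008000400200020009420183))))) 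
(.nd (nat_lit 18) (.nd (nat_lit 29) 
(.lf (nat_lit 134750240) (dlOf (nat_lit 4) (nat_lit 0x1004100c8b01001b0208064540800a810403222040034004003200080a0902))) 
(.lf (nat_lit 2819104800) (dlOf (nat_lit 2) (nat_lit 0x54603f0005b8181a0600)))) 
(.lf (nat_lit 2819366944) (dlOf (nat_lit 10) (nat_lit 0x100620005281000e031000290080230188001420400fc0c4000a00200400600004f010006023000280000011208000800000088020008000000428100200000001e408000800801c0002000c0008250603))))) 
(.nd (nat_lit 8) (.nd (nat_lit 21) 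
(.lf (nat_lit 9969696) (dlOf (nat_lit 2) (nat_lit 0x80000003102000a00085a0b01))) 
(.lf (nat_lit 3678240) (dlOf (nat_lit 1) (nat_lit 0x28008000400200040008210903)))) 
(.lf (nat_lit 1843488) (dlOf (nat_lit 1) (nat_lit 0x40028150501))))) (.nd (nat_lit 18) 
(.nd (nat_lit 27) (.nd (nat_lit 29) 
(.lf (nat_lit 4362608672) (dlOf (nat_lit 1) (nat_lit 0x258004005600080a0902))) 
(.lf (nat_lit 1678254112) (dlOf (nat_lit 1) (nat_lit 0x4004000200081c0a02)))) (.nd (nat_lit 7) 
(.lf (nat_lit 201859104) (dlOf (nat_lit 4) (nat_lit 0x1004100e3181001b0208071880800a8104038bc040034004003200080a0902))) 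
(.lf (nat_lit 3959955872) (dlOf (nat_lit 2) (nat_lit 0xd00d401d0604001800400120008170782))))) 
(.nd (nat_lit 7) (.nd (nat_lit 10) 
(.lf (nat_lit 2755403808) (dlOf (nat_lit 1) (nat_lit 0x98008002800200020008180703))) 
(.lf (nat_lit 67908640) (dlOf (nat_lit 1) (nat_lit 0x18008000400200020008339203)))) 
(.lf (nat_lit 67908000) (dlOf (nat_lit 1) (nat_lit 0x40018338381))))))) (.nd (nat_lit 11) 
(.nd (nat_lit 19) (.nd (nat_lit 27) (.nd (nat_lit 8) (.nd (nat_lit 7) (.nd (nat_lit 31) 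
(.lf (nat_lit 805576736) (dlOf (nat_lit 1) (nat_lit 0x3d000203180008130482))) 
(.lf (nat_lit 2953060384) (dlOf (nat_lit 1) (nat_lit 0x1c00080f0601)))) 
(.lf (nat_lit 4563673248) (dlOf (nat_lit 5) (nat_lit 0x1e80d00005e0400a40660002b020012033000150100030198000a40803d800800b0002004c00080c1303)))) 
(.nd (nat_lit 9) (.lf (nat_lit 3490980128) (dlOf (nat_lit 1) (nat_lit 0x20028047801))) 
(.lf (nat_lit 2952804128) (dlOf (nat_lit 2) (nat_lit 0x4c0060025681800a000))))) (.nd (nat_lit 7) 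
(.nd (nat_lit 20) 
(.lf (nat_lit 1543774240) (dlOf (nat_lit 2) (nat_lit 0x2c04a002c0220032d828160480))) 
(.lf (nat_lit 5772681248) (dlOf (nat_lit 1) (nat_lit 0x400400020008090002)))) 
(.lf (nat_lit 4697890976) (dlOf (nat_lit 5) (nat_lit 0x1e80d0000320400a4066000150200120330000a01000301980004c0803d800800b0002004c00080c1303))))) 
(.nd (nat_lit 20) (.nd (nat_lit 9) (.nd (nat_lit 26) 
(.lf (nat_lit 805838880) (dlOf (nat_lit 1) (nat_lit 0x4004000200081c0a02))) (.nd (nat_lit 30) 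
(.lf (nat_lit 3154649120) (dlOf (nat_lit 1) (nat_lit 0x400200020008300682))) 
(.lf (nat_lit 4228390944) (dlOf (nat_lit 1) (nat_lit 0x258004005600080a0902))))) (.nd (nat_lit 27) 
(.lf (nat_lit 1409819168) (dlOf (nat_lit 1) (nat_lit 0x18008000800200020008090d83))) 
(.lf (nat_lit 470295072) (dlOf (nat_lit 2) (nat_lit 0x3a23c0010e0180c0d80))))) (.nd (nat_lit 27) 
(.nd (nat_lit 18) (.lf (nat_lit 1343758368) (dlOf (nat_lit 1) (nat_lit 0xc00400020008360682))) 
(.lf (nat_lit 3493601312) (dlOf (nat_lit 1) (nat_lit 0x98008002800200020008180703)))) 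
(.nd (nat_lit 26) 
(.lf (nat_lit 5773205536) (dlOf (nat_lit 5) (nat_lit 0xd409780011c080c284f00c3c25e0004604021813c03070978001141006a04bc000700401d8002000a00080b0182))) 
(.lf (nat_lit 6377185312) (dlOf (nat_lit 5) (nat_lit 0xd409000011c080c284bc0c3c2400004604021812f03070900001141006a0480000700401d8002000a00080b0182))))))) 
(.nd (nat_lit 31) (.nd (nat_lit 10) (.nd (nat_lit 12) (.nd (nat_lit 21) 
(.lf (nat_lit 5771372960) (dlOf (nat_lit 1) (nat_lit 0x20028004e81))) 
(.lf (nat_lit 6377449888) (dlOf (nat_lit 1) (nat_lit 0x4004000200080e4e82)))) (.nd (nat_lit 7) 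
(.lf (nat_lit 1476409632) (dlOf (nat_lit 1) (nat_lit 0x5000800280020046000800ab03))) 
(.lf (nat_lit 1476409760) (dlOf (nat_lit 1) (nat_lit 0x40020002000800af82))))) (.nd (nat_lit 7) 
(.lf (nat_lit 1342189088) (dlOf (nat_lit 1) (nat_lit 0x400200020008007102))) (.nd (nat_lit 26) 
(.lf (nat_lit 1342193056) (dlOf (nat_lit 1) (nat_lit 0x2001800cb01))) 
(.lf (nat_lit 1409301920) (dlOf (nat_lit 1) (nat_lit 0x2001800cb01)))))) (.nd (nat_lit 7) 
(.nd (nat_lit 8) (.nd (nat_lit 10) 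
(.lf (nat_lit 3623893536) (dlOf (nat_lit 1) (nat_lit 0x28008000c0020002000800b283))) 
(.lf (nat_lit 4227870240) (dlOf (nat_lit 1) (nat_lit 0x88008003000200220008007103)))) 
(.lf (nat_lit 3691002144) (dlOf (nat_lit 2) (nat_lit 0x1001b00640010000a010003800800040020002000800ab03)))) 
(.nd (nat_lit 18) (.nd (nat_lit 8) 
(.lf (nat_lit 3087019168) (dlOf (nat_lit 3) (nat_lit 0xc040000801d000500c8001006000048100008040000401d000600c8001806000044100004004001e0018006282))) 
(.lf (nat_lit 3489671584) (dlOf (nat_lit 1) (nat_lit 0x20018004e81)))) (.nd (nat_lit 27) 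
(.lf (nat_lit 3489933728) (dlOf (nat_lit 1) (nat_lit 0x400200020008004e82))) 
(.lf (nat_lit 3624151456) (dlOf (nat_lit 1) (nat_lit 0x40028144e81))))))))) (.nd (nat_lit 19) 
(.nd (nat_lit 8) (.nd (nat_lit 27) (.nd (nat_lit 18) (.nd (nat_lit 22) (.nd (nat_lit 24) 
(.lf (nat_lit 1677795360) (dlOf (nat_lit 2) (nat_lit 0x2c0540064b818090000))) 
(.lf (nat_lit 16850976) (dlOf (nat_lit 1) (nat_lit 0x4004000200088e0002)))) (.nd (nat_lit 20) 
(.lf (nat_lit 29433888) (dlOf (nat_lit 1) (nat_lit 0x20018e00681))) 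
(.lf (nat_lit 13705248) (dlOf (nat_lit 1) (nat_lit 0xb8008006c002001c0008740483))))) 
(.nd (nat_lit 20) (.nd (nat_lit 21) 
(.lf (nat_lit 4563738656) (dlOf (nat_lit 3) (nat_lit 0x80cc0006c040034066002201500200090000001801b0008000c002001200080d0103))) 
(.lf (nat_lit 27598880) (dlOf (nat_lit 3) (nat_lit 0x18cc70053f0100016a78029b4080018008001000200060008d00683)))) 
(.lf (nat_lit 1343561760) (dlOf (nat_lit 1) (nat_lit 0x2000200240008290602))))) (.nd (nat_lit 26) 
(.nd (nat_lit 18) (.nd (nat_lit 7) 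
(.lf (nat_lit 1744904224) (dlOf (nat_lit 1) (nat_lit 0x60028090001))) 
(.lf (nat_lit 134298784) (dlOf (nat_lit 1) (nat_lit 0x4001800c201)))) (.nd (nat_lit 28) 
(.lf (nat_lit 134553632) (dlOf (nat_lit 4) (nat_lit 0x100000000301000900000001408007003c0010000000000400320008070681))) 
(.lf (nat_lit 4697956384) (dlOf (nat_lit 3) (nat_lit 0x80cc0006c040034066002201500200090000001801b0008000c002001200080d0103))))) 
(.nd (nat_lit 10) (.nd (nat_lit 18) 
(.lf (nat_lit 738271264) (dlOf (nat_lit 1) (nat_lit 0x80080250002008c0008090003))) 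
(.lf (nat_lit 201662496) (dlOf (nat_lit 4) (nat_lit 0x10000000030100090000000140800700380010000000000400320008070681)))) 
(.nd (nat_lit 7) (.lf (nat_lit 738274336) (dlOf (nat_lit 1) (nat_lit 0x20028096001))) 
(.lf (nat_lit 6643857056) (dlOf (nat_lit 1) (nat_lit 0x10008000400200020008009f83))))))) 
(.nd (nat_lit 10) (.nd (nat_lit 11) (.nd (nat_lit 7) 
(.lf (nat_lit 4563476768) (dlOf (nat_lit 1) (nat_lit 0x88008001c00200420008090a83))) 
(.nd (nat_lit 18) (.lf (nat_lit 805380512) (dlOf (nat_lit 2) (nat_lit 0xa605400000018090780))) 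
(.lf (nat_lit 21307808) (dlOf (nat_lit 1) (nat_lit 0x20018a36b81))))) (.nd (nat_lit 27) 
(.nd (nat_lit 30) (.lf (nat_lit 4563478944) (dlOf (nat_lit 1) (nat_lit 0x160028094e81))) 
(.lf (nat_lit 1342253472) (dlOf (nat_lit 1) (nat_lit 0x400400020018004e82)))) (.nd (nat_lit 7) 
(.lf (nat_lit 671164704) (dlOf (nat_lit 1) (nat_lit 0x1000400020008144b82))) 
(.lf (nat_lit 3154192800) (dlOf (nat_lit 1) (nat_lit 0x1000008104e81)))))) (.nd (nat_lit 7) 
(.nd (nat_lit 26) 
(.lf (nat_lit 4697695520) (dlOf (nat_lit 4) (nat_lit 0x1000480004e04002806800240120001302001401a0000200803b800800c000200120008093103))) 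
(.nd (nat_lit 30) (.lf (nat_lit 4496368928) (dlOf (nat_lit 1) (nat_lit 0x4400400280008053102))) 
(.lf (nat_lit 5570110752) (dlOf (nat_lit 1) (nat_lit 0x400200020008053102))))) (.nd (nat_lit 9) 
(.nd (nat_lit 23) (.lf (nat_lit 1140925856) (dlOf (nat_lit 1) (nat_lit 0x3800400100018003602))) 
(.lf (nat_lit 8463776) (dlOf (nat_lit 1) (nat_lit 0x400200020008513602)))) 
(.lf (nat_lit 8464288) (dlOf (nat_lit 1) (nat_lit 0x640028514281))))))) (.nd (nat_lit 20) 
(.nd (nat_lit 27) (.nd (nat_lit 22) (.nd (nat_lit 10) (.nd (nat_lit 21) 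
(.lf (nat_lit 1611210784) (dlOf (nat_lit 3) (nat_lit 0x100c00091c0800480380011c04000400200020008110482))) 
(.lf (nat_lit 27861024) (dlOf (nat_lit 1) (nat_lit 0xc00400020008d30602)))) 
(.lf (nat_lit 8991776) (dlOf (nat_lit 1) (nat_lit 0x580008519201)))) (.nd (nat_lit 26) 
(.lf (nat_lit 3494453280) (dlOf (nat_lit 1) (nat_lit 0x400200140008230482))) 
(.lf (nat_lit 2756255776) (dlOf (nat_lit 1) (nat_lit 0x400200140008230482))))) (.nd (nat_lit 26) 
(.nd (nat_lit 18) 
(.lf (nat_lit 3892912160) (dlOf (nat_lit 2) (nat_lit 0x408e0000002000c0028290c01))) 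
(.lf (nat_lit 2819432480) (dlOf (nat_lit 5) (nat_lit 0x6006800a94020030034005430100330230029e0080010118014e804006800200220008280482)))) 
(.nd (nat_lit 22) 
(.lf (nat_lit 738795552) (dlOf (nat_lit 3) (nat_lit 0x100c00091c0800480380011c04000400200020008110482))) 
(.lf (nat_lit 474554400) (dlOf (nat_lit 1) (nat_lit 0x1e00291a0181)))))) (.nd (nat_lit 7) 
(.nd (nat_lit 28) (.nd (nat_lit 8) (.nd (nat_lit 9) 
(.lf (nat_lit 24715296) (dlOf (nat_lit 1) (nat_lit 0x20018bb0701))) 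
(.lf (nat_lit 20526624) (dlOf (nat_lit 3) (nat_lit 0x142af800ab1d2005a47d802aa0dc020800000c0e0a0179b4e005fb8189d9c00)))) 
(.lf (nat_lit 8202528) (dlOf (nat_lit 2) (nat_lit 0x20b44001cc04000c00400020018514b82)))) 
(.nd (nat_lit 9) (.nd (nat_lit 18) 
(.lf (nat_lit 1343823904) (dlOf (nat_lit 1) (nat_lit 0x20018370001))) 
(.lf (nat_lit 1346183200) (dlOf (nat_lit 2) (nat_lit 0x1042ac000000200140018e60181)))) 
(.lf (nat_lit 3491308064) (dlOf (nat_lit 1) (nat_lit 0x400400020008090d82))))) (.nd (nat_lit 18) 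
(.nd (nat_lit 8) (.nd (nat_lit 26) 
(.lf (nat_lit 3491307680) (dlOf (nat_lit 3) (nat_lit 0x415c000988100020ae0004bc080008008001000200040008090203))) 
(.lf (nat_lit 2753110176) (dlOf (nat_lit 3) (nat_lit 0x41520009f0100020a90004f0080008008001000200040008090203)))) 
(.lf (nat_lit 12132768) (dlOf (nat_lit 1) (nat_lit 0x200286c0781)))) (.nd (nat_lit 26) 
(.lf (nat_lit 5773271200) (dlOf (nat_lit 1) (nat_lit 0x4004000200080c1302))) 
(.lf (nat_lit 6377250976) (dlOf (nat_lit 1) (nat_lit 0x4004000200080c1302))))))))) 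
(.nd (nat_lit 18) (.nd (nat_lit 19) (.nd (nat_lit 11) (.nd (nat_lit 16) (.nd (nat_lit 7) 
(.nd (nat_lit 20) (.nd (nat_lit 12) 
(.lf (nat_lit 27271216) (dlOf (nat_lit 1) (nat_lit 0x20008000400200020008cc0983))) 
(.lf (nat_lit 469774384) (dlOf (nat_lit 1) (nat_lit 0x520028007c01)))) (.nd (nat_lit 22) 
(.lf (nat_lit 17834032) (dlOf (nat_lit 2) (nat_lit 0x3a000000078188f0e80))) (.nd (nat_lit 23) 
(.lf (nat_lit 22028336) (dlOf (nat_lit 1) (nat_lit 0xa8008002400200020008a90703))) 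
(.lf (nat_lit 13639728) (dlOf (nat_lit 1) (nat_lit 0x48008000800200040008730b03)))))) 
(.nd (nat_lit 8) (.nd (nat_lit 10) 
(.lf (nat_lit 47194288) (dlOf (nat_lit 4) (nat_lit 0x6c420003302000562100019010002b108000c40800100080008002000400093b1603))) 
(.lf (nat_lit 37758128) (dlOf (nat_lit 1) (nat_lit 0x4004000200090d2c02)))) (.nd (nat_lit 9) 
(.lf (nat_lit 8398256) (dlOf (nat_lit 1) (nat_lit 0x400200020008513602))) 
(.lf (nat_lit 469776304) (dlOf (nat_lit 1) (nat_lit 0x1b800800040020006000800a403)))))) 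
(.nd (nat_lit 8) (.nd (nat_lit 20) 
(.lf (nat_lit 1610686512) (dlOf (nat_lit 1) (nat_lit 0x20028090001))) (.nd (nat_lit 26) 
(.lf (nat_lit 3490783280) (dlOf (nat_lit 1) (nat_lit 0x20028020581))) 
(.lf (nat_lit 2752585776) (dlOf (nat_lit 1) (nat_lit 0x20028020581))))) (.nd (nat_lit 27) 
(.nd (nat_lit 7) 
(.lf (nat_lit 4563476784) (dlOf (nat_lit 1) (nat_lit 0x100008002400200640008090b03))) 
(.lf (nat_lit 8463792) (dlOf (nat_lit 1) (nat_lit 0x400200020008513602)))) (.nd (nat_lit 29) 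
(.lf (nat_lit 1208033584) (dlOf (nat_lit 1) (nat_lit 0x400400020018090b02))) 
(.lf (nat_lit 1744904496) (dlOf (nat_lit 1) (nat_lit 0x100028090b01))))))) (.nd (nat_lit 10) 
(.nd (nat_lit 12) (.nd (nat_lit 20) (.nd (nat_lit 16) 
(.lf (nat_lit 402663984) (dlOf (nat_lit 1) (nat_lit 0x400400020008005182))) 
(.lf (nat_lit 3556846128) (dlOf (nat_lit 1) (nat_lit 0x140008085181)))) (.nd (nat_lit 22) 
(.lf (nat_lit 45099568) (dlOf (nat_lit 1) (nat_lit 0x8004000a0009325182))) 
(.lf (nat_lit 32516656) (dlOf (nat_lit 1) (nat_lit 0x10008000800200020008ef5183))))) 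
(.nd (nat_lit 7) (.nd (nat_lit 8) 
(.lf (nat_lit 4362090544) (dlOf (nat_lit 3) (nat_lit 0x806600550020002047002a281800a600))) 
(.lf (nat_lit 2885696304) (dlOf (nat_lit 1) (nat_lit 0x800800080020002000800bc83)))) 
(.lf (nat_lit 671103920) (dlOf (nat_lit 2) (nat_lit 0x27404c013c01b009f001804d00000029e1000480040002001800bd82))))) 
(.nd (nat_lit 8) (.nd (nat_lit 7) 
(.lf (nat_lit 2885758512) (dlOf (nat_lit 1) (nat_lit 0x8004000e0008007182))) (.nd (nat_lit 9) 
(.lf (nat_lit 2754620592) (dlOf (nat_lit 3) (nat_lit 0x808800054020004044000198180f6280))) 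
(.lf (nat_lit 3959434928) (dlOf (nat_lit 1) (nat_lit 0x18008000400200140008007283))))) 
(.nd (nat_lit 12) (.nd (nat_lit 26) 
(.lf (nat_lit 1342188848) (dlOf (nat_lit 1) (nat_lit 0x240028006881))) 
(.lf (nat_lit 4227870000) (dlOf (nat_lit 2) (nat_lit 0x100000004c04002c00200100008006882)))) 
(.lf (nat_lit 1342192944) (dlOf (nat_lit 1) (nat_lit 0x2000800c701))))))) (.nd (nat_lit 28) 
(.nd (nat_lit 16) (.nd (nat_lit 21) (.nd (nat_lit 24) (.nd (nat_lit 9) 
(.lf (nat_lit 2819104816) (dlOf (nat_lit 9) (nat_lit 0x5181d0000560400c80000002a020178074000138100150228109808403d00000001d06011a0210000e01007703a002a01cc0002a0800180000000402002004600150100000001005e00080404002002200081a0703))) 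
(.lf (nat_lit 38283824) (dlOf (nat_lit 1) (nat_lit 0xc00400020009135182)))) (.nd (nat_lit 20) 
(.lf (nat_lit 21504048) (dlOf (nat_lit 1) (nat_lit 0xc0008a40381))) 
(.lf (nat_lit 30941232) (dlOf (nat_lit 1) (nat_lit 0x400200020008e50b82))))) (.nd (nat_lit 9) 
(.nd (nat_lit 10) 
(.lf (nat_lit 2754093104) (dlOf (nat_lit 2) (nat_lit 0x21022401101100003104005e00080c0f81))) 
(.lf (nat_lit 57156656) (dlOf (nat_lit 1) (nat_lit 0x160019792881)))) 
(.lf (nat_lit 20459056) (dlOf (nat_lit 1) (nat_lit 0x15800800c8002008000089d7183))))) 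
(.nd (nat_lit 27) (.nd (nat_lit 7) (.nd (nat_lit 8) 
(.lf (nat_lit 1611210800) (dlOf (nat_lit 6) (nat_lit 0x17008200b004000560180000cc1800e0104000620400140a0017c04500bc022000880c800a80620026020004100e0005806c02ac02e0118016000168a0001028005c811402dc088001a0320020018800c8080011c038000601b00b300b804a0058000562800b4000000000200ae0018110601))) 
(.lf (nat_lit 20523824) (dlOf (nat_lit 1) (nat_lit 0x200189d5c01)))) 
(.lf (nat_lit 37299376) (dlOf (nat_lit 2) (nat_lit 0x164330002f8190d2c00)))) (.nd (nat_lit 26) 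
(.nd (nat_lit 29) 
(.lf (nat_lit 134815792) (dlOf (nat_lit 2) (nat_lit 0xc0760002b02005800080c0e81))) 
(.lf (nat_lit 3892912176) (dlOf (nat_lit 4) (nat_lit 0x300320007016800d80aa001c0520004026802000d000380280003f0e000605a0001b0100010238000980800c000800c000200040008290e83)))) 
(.nd (nat_lit 29) 
(.lf (nat_lit 201924656) (dlOf (nat_lit 5) (nat_lit 0xa80760002e02005a03b0001681000a01d8000ac0802600ec0005404014c004000a00180c0f82))) 
(.lf (nat_lit 738795568) (dlOf (nat_lit 6) (nat_lit 0x17008200b004000560180000c81800e0104000600400140a0017c04500bc022000880c800a80620026020004100e0005806c02ac02e0118016000160a0001028005c811402dc088001a0320020018800c8080011c038000601b00b300b804a0058000542800b4000000000200ae0018110601))))))) 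
(.nd (nat_lit 26) (.nd (nat_lit 9) (.nd (nat_lit 29) (.nd (nat_lit 7) 
(.lf (nat_lit 3492290608) (dlOf (nat_lit 2) (nat_lit 0x13023000ac1160003204006200080c0e81))) 
(.lf (nat_lit 3490195888) (dlOf (nat_lit 1) (nat_lit 0x20018004e81)))) (.nd (nat_lit 10) 
(.lf (nat_lit 1879580720) (dlOf (nat_lit 1) (nat_lit 0x400400020008200982))) 
(.lf (nat_lit 1880630320) (dlOf (nat_lit 1) (nat_lit 0x180018b02881))))) (.nd (nat_lit 11) 
(.lf (nat_lit 1342710320) (dlOf (nat_lit 3) (nat_lit 0x290924017038e005c1bd0000a0300010e380003408016800800c4002001200080c0f03))) 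
(.lf (nat_lit 1346906672) (dlOf (nat_lit 1) (nat_lit 0x4004000200090a5182))))) (.nd (nat_lit 27) 
(.nd (nat_lit 7) 
(.lf (nat_lit 1409818672) (dlOf (nat_lit 2) (nat_lit 0xe081700185604007800400640008090002))) 
(.lf (nat_lit 1409818800) (dlOf (nat_lit 3) (nat_lit 0x1340b60002902000205b00013818090300)))) 
(.nd (nat_lit 8) 
(.lf (nat_lit 470295088) (dlOf (nat_lit 3) (nat_lit 0x290924017038e005c1bd0000a8300010e380003408016800800c4002001200080c0f03))) 
(.lf (nat_lit 473441584) (dlOf (nat_lit 1) (nat_lit 0x1a60028f53201)))))))) (.nd (nat_lit 16) 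
(.nd (nat_lit 19) (.nd (nat_lit 30) (.nd (nat_lit 20) (.nd (nat_lit 28) (.nd (nat_lit 21) 
(.lf (nat_lit 671359024) (dlOf (nat_lit 2) (nat_lit 0x5008c0003004000400200200008160582))) 
(.lf (nat_lit 44310576) (dlOf (nat_lit 1) (nat_lit 0x10004001200092f0d02)))) (.nd (nat_lit 26) 
(.lf (nat_lit 3087278128) (dlOf (nat_lit 15) (nat_lit 0x200f80017008001802c0004804018c016000230200b201f015600a80e2802c000300c048402a03d200b0000b82012800a80f8002c0002c0801a40160001502000a00b0000a0100a900580004808045802c00300120000d0400a801f01ea00580a800280198012031200000004850197005800d8024064c000000050600400000000201006d011002f007c0490036014001700420068000002804a000801bc002065c0008160583))) 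
(.lf (nat_lit 470032432) (dlOf (nat_lit 1) (nat_lit 0xe0008030c81))))) (.nd (nat_lit 7) 
(.nd (nat_lit 8) 
(.lf (nat_lit 30679088) (dlOf (nat_lit 3) (nat_lit 0x68d20003f02000600000007818e40e80))) 
(.lf (nat_lit 20199216) (dlOf (nat_lit 1) (nat_lit 0x200189da101)))) 
(.lf (nat_lit 39070128) (dlOf (nat_lit 1) (nat_lit 0x400200020009194e82))))) (.nd (nat_lit 7) 
(.nd (nat_lit 27) (.nd (nat_lit 26) 
(.lf (nat_lit 1342447664) (dlOf (nat_lit 1) (nat_lit 0xe0008030c81))) 
(.lf (nat_lit 3825475632) (dlOf (nat_lit 15) (nat_lit 0x200f80017008001802c0004804018c016000230200b201f015600a80e2802c000300c048402a03d200b0000b82012800a80f8002c0002c0801a40160001502000a00b0000a0100a900580004808045802c00300120000d0400a801f01ea00580a800280198012031200000004850197005800d8024064c000000050600400000000201006d011002f007c0490036014001700420068000002804a000801bc002065c0008160583)))) 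
(.nd (nat_lit 32) 
(.lf (nat_lit 1543774256) (dlOf (nat_lit 2) (nat_lit 0x5008c0003004000400200200008160582))) 
(.lf (nat_lit 5838741552) (dlOf (nat_lit 1) (nat_lit 0x3000400040008190902))))) (.nd (nat_lit 26) 
(.lf (nat_lit 4026802352) (dlOf (nat_lit 1) (nat_lit 0x18008000800200040008090303))) 
(.nd (nat_lit 31) (.lf (nat_lit 5436088496) (dlOf (nat_lit 1) (nat_lit 0xc002000200080c1602))) 
(.lf (nat_lit 3288604848) (dlOf (nat_lit 1) (nat_lit 0x18008000800200040008090303))))))) 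
(.nd (nat_lit 21) (.nd (nat_lit 9) (.nd (nat_lit 20) 
(.lf (nat_lit 13377584) (dlOf (nat_lit 2) (nat_lit 0x21358000d408002800800ac00200be0008720f83))) 
(.nd (nat_lit 23) (.lf (nat_lit 471605296) (dlOf (nat_lit 1) (nat_lit 0x400400040018350802))) 
(.lf (nat_lit 27009072) (dlOf (nat_lit 8) (nat_lit 0x1d761403040000003704000e0000001b0100170000000d40800400000006804004994e0000a020002ca70000081000a000000000080028008002800200140008ca0703))))) 
(.nd (nat_lit 7) (.lf (nat_lit 4362874416) (dlOf (nat_lit 1) (nat_lit 0x4a0018117181))) 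
(.lf (nat_lit 537672624) (dlOf (nat_lit 4) (nat_lit 0x8078001303b000b81d400540e200280700015031000a818400100c00020000000a709001c03b0005180800981d80028604001c004001200080fbd82))))) 
(.nd (nat_lit 7) (.nd (nat_lit 20) 
(.lf (nat_lit 2891824) (dlOf (nat_lit 2) (nat_lit 0x4ea5f0002b0181d0680))) 
(.lf (nat_lit 29106224) (dlOf (nat_lit 1) (nat_lit 0x20018dc0b81)))) (.nd (nat_lit 8) 
(.lf (nat_lit 36447408) (dlOf (nat_lit 1) (nat_lit 0x400400da0009072c02))) 
(.lf (nat_lit 61613488) (dlOf (nat_lit 1) (nat_lit 0x8008000400200020009923603))))))) 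
(.nd (nat_lit 29) (.nd (nat_lit 19) (.nd (nat_lit 31) (.nd (nat_lit 22) (.nd (nat_lit 23) 
(.nd (nat_lit 21) 
(.lf (nat_lit 134553648) (dlOf (nat_lit 17) (nat_lit 0x5b204200bb02080e080f805e4072015e03102410088000a03014f810806f007c000203d015f01c805580c40aa4022000270c001c041000120100e002080ab0044000460800040a8000a04b030a021800a81080ec4082001004002ab01f816980f40b84074005e03901a801c002000d40b5c02805900130068009015f80440004440015c082000210200260410001001006a021000b80440003c080b380220001c0204dc0110000d8100e10088000680808b0044000320409d8022000180203fa0110000b8100a400a8000180800b80540000a040004004002e0018070902))) 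
(.lf (nat_lit 2433072) (dlOf (nat_lit 1) (nat_lit 0x10800200400008160982)))) (.nd (nat_lit 9) 
(.lf (nat_lit 8729648) (dlOf (nat_lit 1) (nat_lit 0xa0028519201))) 
(.lf (nat_lit 42281520) (dlOf (nat_lit 2) (nat_lit 0x1f2728001134c0011608001400400280009245182))))) 
(.nd (nat_lit 21) (.nd (nat_lit 7) 
(.lf (nat_lit 30744624) (dlOf (nat_lit 3) (nat_lit 0x90000000d80800700000001e04001800200020008e40e82))) 
(.lf (nat_lit 21307568) (dlOf (nat_lit 1) (nat_lit 0x20008a31601)))) (.nd (nat_lit 8) 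
(.lf (nat_lit 23405104) (dlOf (nat_lit 5) (nat_lit 0x14e45800eb0e00002704004d9160031c3800002810013e45800eb0e000006040051916003dc38000000100230008003000200600008b80f03))) 
(.lf (nat_lit 56960304) (dlOf (nat_lit 1) (nat_lit 0x800200040009793202)))))) (.nd (nat_lit 27) 
(.nd (nat_lit 7) (.nd (nat_lit 28) 
(.lf (nat_lit 6509895728) (dlOf (nat_lit 11) (nat_lit 0x700130050805c0008a0801bc04c0142017000220200120130007005c000840800a40760052029006d0130046005c000821001e804c01320170002002005e0130050805c0007e08000802e0003e0200bc02600a400b8000f41002f0098028802e0003b0400ba026004900f0056005c0006a0c005000400860018160582))) 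
(.lf (nat_lit 2483363888) (dlOf (nat_lit 12) (nat_lit 0x802e00013810006015000600340004808000401c0001c0200900100000d0100490068000640800080a002e0020006200e00130018000342001b80400001204011c020000c00e00002020062008001e003800006080064020000400e000008203b3012806e0040008801c0030003000000480d0b00)))) 
(.lf (nat_lit 3557105840) (dlOf (nat_lit 1) (nat_lit 0x20008000400200020008130283)))) 
(.nd (nat_lit 26) (.lf (nat_lit 2550472752) (dlOf (nat_lit 1) (nat_lit 0x2e00080c0e81))) 
(.lf (nat_lit 2349146160) (dlOf (nat_lit 12) (nat_lit 0xc02a000c0068000941000200b00004804000401c0001c0200900100000d0100490068000640800080a002e0020006200e00130018000342001b80400001204011c020000c00e00002020062008001e003800006080064020000400e000008203b3012806e0040008801c0030003000000480d0b00)))))) 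
(.nd (nat_lit 20) (.nd (nat_lit 21) (.nd (nat_lit 7) (.nd (nat_lit 26) 
(.lf (nat_lit 1343037488) (dlOf (nat_lit 2) (nat_lit 0x420b0002b018140680))) 
(.lf (nat_lit 470622256) (dlOf (nat_lit 2) (nat_lit 0x420f0002b018140680)))) 
(.lf (nat_lit 34415792) (dlOf (nat_lit 1) (nat_lit 0x1800200020008fb2c02)))) (.nd (nat_lit 22) 
(.lf (nat_lit 2957360) (dlOf (nat_lit 5) (nat_lit 0x3f06f80b8836400100e2004a065016600600020000000541800101cc02300df014d06c8009019404cc018000290a0122160008a00000008810003058000281c60001704003a00181e0901))) 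
(.lf (nat_lit 7151664) (dlOf (nat_lit 1) (nat_lit 0x4002000200084b0002))))) (.nd (nat_lit 9) 
(.nd (nat_lit 22) 
(.lf (nat_lit 27074608) (dlOf (nat_lit 2) (nat_lit 0x2be2080007a040008002001c0008ca0702))) 
(.lf (nat_lit 22880304) (dlOf (nat_lit 1) (nat_lit 0x140028b30681)))) 
(.lf (nat_lit 1909296) (dlOf (nat_lit 1) (nat_lit 0xc00200020008150f02)))))) (.nd (nat_lit 26) 
(.nd (nat_lit 7) (.nd (nat_lit 9) (.nd (nat_lit 27) 
(.lf (nat_lit 5905915952) (dlOf (nat_lit 11) (nat_lit 0x700128050805c0008a0801bc04a0142017000220200120128007005c000840800a40760052029006d0128046005c000821001e804a01320170002002005e0128050805c0007e08000802e0003e0200bc02500a400b8000f41002f0094028802e0003b0400ba025004900f0056005c0006a0c005000400860018160582))) 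
(.lf (nat_lit 3892650032) (dlOf (nat_lit 2) (nat_lit 0x1e80dc0038a04003000400180008180482)))) 
(.lf (nat_lit 537734704) (dlOf (nat_lit 2) (nat_lit 0x13c05f000270180f7180)))) (.nd (nat_lit 27) 
(.lf (nat_lit 5100609712) (dlOf (nat_lit 1) (nat_lit 0xc0008101601))) (.nd (nat_lit 28) 
(.lf (nat_lit 2818908336) (dlOf (nat_lit 1) (nat_lit 0xe0002002c0008130282))) 
(.lf (nat_lit 5234827440) (dlOf (nat_lit 1) (nat_lit 0x4000280f1601)))))) (.nd (nat_lit 28) 
(.nd (nat_lit 7) (.nd (nat_lit 8) 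
(.lf (nat_lit 2754948656) (dlOf (nat_lit 5) (nat_lit 0xcc00e8001540806e8074000a804035803a000510201c802000f100f8001381001f000800a8002000800080f7183))) 
(.lf (nat_lit 2886018864) (dlOf (nat_lit 3) (nat_lit 0x1f00d80003404013c06c0014034000b00000002c1800b8008000c002000e0008143d83)))) 
(.lf (nat_lit 738533552) (dlOf (nat_lit 1) (nat_lit 0x4004000c00080a2d82)))) (.nd (nat_lit 11) 
(.nd (nat_lit 19) (.lf (nat_lit 872751280) (dlOf (nat_lit 1) (nat_lit 0x400180c1601))) 
(.lf (nat_lit 6377250992) (dlOf (nat_lit 1) (nat_lit 0x8008014c002004a00080c1603)))) 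
(.lf (nat_lit 1007499440) (dlOf (nat_lit 1) (nat_lit 0x4002000200083da882)))))))))) 
(.nd (nat_lit 11) (.nd (nat_lit 7) (.nd (nat_lit 4) (.nd (nat_lit 19) (.nd (nat_lit 16) 
(.nd (nat_lit 8) (.nd (nat_lit 27) (.nd (nat_lit 20) 
(.lf (nat_lit 2483298400) (dlOf (nat_lit 26) (nat_lit 0x4300500002d0200540280001601003a0140000a80806b00a0000520400b4050000280200940280001381001d0140000980802380a00004a0401c8050000210202460280000f8101230140000780805200a00003a0402040500001c02025a0280000d8100470140000680801200a0000320404bc05000018020202027002e00b80004c10003009c0002204015c0500001002014a02800140070000381001880a0000100401b405000005020090028000008101010140000000800a80080038002000400080a1303))) 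
(.lf (nat_lit 24387680) (dlOf (nat_lit 2) (nat_lit 0xb097600008018b91300)))) (.nd (nat_lit 10) 
(.lf (nat_lit 2349080672) (dlOf (nat_lit 12) (nat_lit 0x4900a00004a04022c050000240201260280001181008b01400140038000440801d80500002102015e028000100100980140000740804e80a0000380402e40500001702014c0280000a8100610140000000800180080098002001600080a1283))) 
(.lf (nat_lit 3691000928) (dlOf (nat_lit 1) (nat_lit 0x2e0018009401))))) (.nd (nat_lit 9) 
(.nd (nat_lit 12) (.lf (nat_lit 6509830496) (dlOf (nat_lit 1) (nat_lit 0x20018154f01))) 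
(.lf (nat_lit 19935584) (dlOf (nat_lit 1) (nat_lit 0x600289d8381)))) 
(.lf (nat_lit 1342191456) (dlOf (nat_lit 2) (nat_lit 0x604e8012800801d000800100020042000800a303))))) 
(.nd (nat_lit 22) (.nd (nat_lit 21) (.nd (nat_lit 29) 
(.lf (nat_lit 1208033632) (dlOf (nat_lit 1) (nat_lit 0x800400020018090e02))) 
(.lf (nat_lit 1744904544) (dlOf (nat_lit 2) (nat_lit 0x8070000240200080028090e01)))) 
(.nd (nat_lit 8) (.lf (nat_lit 37036128) (dlOf (nat_lit 1) (nat_lit 0x400200020009081982))) 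
(.lf (nat_lit 2171232) (dlOf (nat_lit 1) (nat_lit 0x40018150681))))) (.nd (nat_lit 26) 
(.nd (nat_lit 10) 
(.lf (nat_lit 3494191200) (dlOf (nat_lit 3) (nat_lit 0x204c000110100170260000840800680080060002001400081c1283))) 
(.lf (nat_lit 38085728) (dlOf (nat_lit 1) (nat_lit 0x800200020009132902)))) (.nd (nat_lit 27) 
(.lf (nat_lit 2755993696) (dlOf (nat_lit 1) (nat_lit 0x1e00080134002002a00081c1303))) 
(.lf (nat_lit 474292320) (dlOf (nat_lit 5) (nat_lit 0x841600061b200dd5820001112800206c80375408001445c00062250008105800386c80375010001045c000a2250008105800386c80374c10000800400020009120782))))))) 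
(.nd (nat_lit 18) (.nd (nat_lit 21) (.nd (nat_lit 16) (.nd (nat_lit 23) 
(.lf (nat_lit 4228391008) (dlOf (nat_lit 2) (nat_lit 0x90032000080180a1300))) 
(.lf (nat_lit 42475616) (dlOf (nat_lit 2) (nat_lit 0x3c924002450200040019251981)))) 
(.nd (nat_lit 20) 
(.lf (nat_lit 537469024) (dlOf (nat_lit 2) (nat_lit 0x2007400160358000901000080080070002000c00080a1283))) 
(.lf (nat_lit 1343823968) (dlOf (nat_lit 1) (nat_lit 0x400400020008370482))))) (.nd (nat_lit 8) 
(.nd (nat_lit 9) (.lf (nat_lit 48767072) (dlOf (nat_lit 1) (nat_lit 0x8008000400200080009420903))) 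
(.lf (nat_lit 61351520) (dlOf (nat_lit 1) (nat_lit 0xa80019923901)))) (.nd (nat_lit 9) 
(.lf (nat_lit 23601504) (dlOf (nat_lit 1) (nat_lit 0x20018b80681))) 
(.lf (nat_lit 7944032) (dlOf (nat_lit 1) (nat_lit 0x40020002000851a302)))))) (.nd (nat_lit 8) 
(.nd (nat_lit 20) (.nd (nat_lit 10) 
(.lf (nat_lit 17571936) (dlOf (nat_lit 1) (nat_lit 0x4004000200088e0482))) 
(.lf (nat_lit 49030240) (dlOf (nat_lit 1) (nat_lit 0x3a0019462901)))) (.nd (nat_lit 16) 
(.lf (nat_lit 45883488) (dlOf (nat_lit 1) (nat_lit 0x40009360901))) 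
(.lf (nat_lit 1346183264) (dlOf (nat_lit 1) (nat_lit 0x280008000400200100008e60903))))) 
(.nd (nat_lit 9) (.nd (nat_lit 10) 
(.lf (nat_lit 1843552) (dlOf (nat_lit 1) (nat_lit 0x60008150681))) 
(.lf (nat_lit 50079072) (dlOf (nat_lit 8) (nat_lit 0x66856900392a2815d94f8056891407be474000b22e8000d03000095644ea8a8c049654506fb2a200648f8800066140060a8c0003202263c54600a41f10000c41002095400068a9e265e5460001603006e2a300004c0819215a44d7ca8c045254506e62a2015514f8005c9140b66474009d1f100000040057000802ac00200ec00094c3403)))) 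
(.lf (nat_lit 8136544) (dlOf (nat_lit 1) (nat_lit 0x100028513f81))))))) (.nd (nat_lit 26) 
(.nd (nat_lit 30) (.nd (nat_lit 18) (.nd (nat_lit 8) 
(.lf (nat_lit 38805616) (dlOf (nat_lit 1) (nat_lit 0x20009162481))) (.nd (nat_lit 9) 
(.lf (nat_lit 4697694576) (dlOf (nat_lit 1) (nat_lit 0xb8008002800200460008090f83))) 
(.lf (nat_lit 7944048) (dlOf (nat_lit 1) (nat_lit 0x40020002000851a302))))) (.nd (nat_lit 8) 
(.lf (nat_lit 37036144) (dlOf (nat_lit 1) (nat_lit 0x1800400060009081d02))) (.nd (nat_lit 21) 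
(.lf (nat_lit 5100609904) (dlOf (nat_lit 1) (nat_lit 0x8008000400200020008105803))) 
(.lf (nat_lit 23404912) (dlOf (nat_lit 2) (nat_lit 0xd5a400c1d818b80780)))))) (.nd (nat_lit 16) 
(.nd (nat_lit 9) (.nd (nat_lit 8) 
(.lf (nat_lit 1346379888) (dlOf (nat_lit 9) (nat_lit 0xf049000881fc0009c080010124000c07f00026820005049000301fc00086080010124000e07f00021020006049000401fc0007c08001c124001007f0001e020009049000601fc00076080020124001207f00010000000dc180018008009800200220008f60183))) 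
(.lf (nat_lit 1074012528) (dlOf (nat_lit 2) (nat_lit 0x6380a4019dc04007800400c00018090782)))) 
(.nd (nat_lit 27) 
(.lf (nat_lit 1342191472) (dlOf (nat_lit 2) (nat_lit 0x80274007e804001c0040002001800a302))) 
(.lf (nat_lit 1476409200) (dlOf (nat_lit 1) (nat_lit 0x1c002000e000800a302))))) (.nd (nat_lit 8) 
(.lf (nat_lit 3491307632) (dlOf (nat_lit 1) (nat_lit 0x800400020008090002))) (.nd (nat_lit 18) 
(.lf (nat_lit 3491307888) (dlOf (nat_lit 1) (nat_lit 0x468008018c00200b40008090783))) 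
(.lf (nat_lit 5637480816) (dlOf (nat_lit 1) (nat_lit 0x3d0008010c00200e800080f5803))))))) 
(.nd (nat_lit 8) (.nd (nat_lit 10) (.nd (nat_lit 16) (.nd (nat_lit 27) 
(.lf (nat_lit 2483298416) (dlOf (nat_lit 1) (nat_lit 0x300080008002000400080a1583))) 
(.lf (nat_lit 2349080688) (dlOf (nat_lit 1) (nat_lit 0x300080008002000400080a1583)))) 
(.nd (nat_lit 18) (.lf (nat_lit 68755568) (dlOf (nat_lit 1) (nat_lit 0x180028731d01))) 
(.lf (nat_lit 474292336) (dlOf (nat_lit 5) (nat_lit 0xc2250009105800306c80000a0c000845c000c2250009105800286c80000810002845c00082250005105800306c80000610002445c000c2250005105800386c80000410000800400020009120d02))))) 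
(.nd (nat_lit 12) (.nd (nat_lit 16) 
(.lf (nat_lit 473441392) (dlOf (nat_lit 1) (nat_lit 0x2a0008f52a01))) 
(.lf (nat_lit 3019973744) (dlOf (nat_lit 1) (nat_lit 0x2400180d2a01)))) 
(.lf (nat_lit 3557045360) (dlOf (nat_lit 2) (nat_lit 0x1081bc0000004001800400160008129402))))) 
(.nd (nat_lit 12) (.nd (nat_lit 16) 
(.lf (nat_lit 470294896) (dlOf (nat_lit 2) (nat_lit 0x1f1238035f80801200080098002006a00080c0783))) 
(.nd (nat_lit 18) (.lf (nat_lit 2753110384) (dlOf (nat_lit 1) (nat_lit 0x1000200060008090782))) 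
(.lf (nat_lit 6241460592) (dlOf (nat_lit 1) (nat_lit 0x3d0008010c00200e800080f5803))))) 
(.nd (nat_lit 9) (.nd (nat_lit 16) 
(.lf (nat_lit 603992432) (dlOf (nat_lit 1) (nat_lit 0x30008006c00200700008008383))) 
(.lf (nat_lit 469840240) (dlOf (nat_lit 1) (nat_lit 0x20028008381)))) 
(.lf (nat_lit 3691001712) (dlOf (nat_lit 1) (nat_lit 0x20001800a301)))))))) (.nd (nat_lit 32) 
(.nd (nat_lit 8) (.nd (nat_lit 4) (.nd (nat_lit 9) (.nd (nat_lit 22) (.nd (nat_lit 18) 
(.lf (nat_lit 28844256) (dlOf (nat_lit 2) (nat_lit 0x6c150002d018da0580))) 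
(.lf (nat_lit 68428000) (dlOf (nat_lit 1) (nat_lit 0x50008000400200020008570583)))) 
(.nd (nat_lit 16) 
(.lf (nat_lit 1346380000) (dlOf (nat_lit 1) (nat_lit 0x10008000400200040008f60a83))) 
(.lf (nat_lit 30482656) (dlOf (nat_lit 2) (nat_lit 0x13676800070080268008008000200040008e30583))))) 
(.nd (nat_lit 10) (.nd (nat_lit 16) 
(.lf (nat_lit 19673824) (dlOf (nat_lit 1) (nat_lit 0x200189d8c81))) 
(.lf (nat_lit 7942880) (dlOf (nat_lit 1) (nat_lit 0x20018518c81)))) 
(.lf (nat_lit 671164128) (dlOf (nat_lit 1) (nat_lit 0x40028143a81))))) (.nd (nat_lit 10) 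
(.nd (nat_lit 16) 
(.lf (nat_lit 1345855728) (dlOf (nat_lit 1) (nat_lit 0x48008000c00200080008e01e83))) 
(.nd (nat_lit 18) 
(.lf (nat_lit 18948336) (dlOf (nat_lit 1) (nat_lit 0x20008000400200020008970603))) 
(.lf (nat_lit 1346183408) (dlOf (nat_lit 1) (nat_lit 0xa0008000400200060008e61e83))))) 
(.nd (nat_lit 9) (.lf (nat_lit 2147493104) (dlOf (nat_lit 1) (nat_lit 0x20008002e81))) 
(.nd (nat_lit 16) (.lf (nat_lit 2952804080) (dlOf (nat_lit 2) (nat_lit 0x802d0025701800a000))) 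
(.lf (nat_lit 2952869616) (dlOf (nat_lit 1) (nat_lit 0x11000800640020062000800a003))))))) 
(.nd (nat_lit 9) (.nd (nat_lit 18) (.nd (nat_lit 10) (.nd (nat_lit 26) 
(.lf (nat_lit 1342710256) (dlOf (nat_lit 3) (nat_lit 0x28478002050200d423c001010180c0d80))) 
(.lf (nat_lit 470295024) (dlOf (nat_lit 3) (nat_lit 0x28478002060200d423c001010180c0d80)))) 
(.nd (nat_lit 16) (.lf (nat_lit 8398320) (dlOf (nat_lit 1) (nat_lit 0x400200020008513602))) 
(.lf (nat_lit 8463856) (dlOf (nat_lit 1) (nat_lit 0x400200020008513602))))) (.nd (nat_lit 4) 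
(.lf (nat_lit 2818848224) (dlOf (nat_lit 1) (nat_lit 0x1a0028129b01))) (.nd (nat_lit 16) 
(.lf (nat_lit 8660464) (dlOf (nat_lit 1) (nat_lit 0x400200020008513602))) 
(.lf (nat_lit 8201712) (dlOf (nat_lit 1) (nat_lit 0x400200020008513602)))))) (.nd (nat_lit 4) 
(.nd (nat_lit 10) (.nd (nat_lit 25) 
(.lf (nat_lit 2752259040) (dlOf (nat_lit 1) (nat_lit 0x1a00080004002002e0008002883))) 
(.lf (nat_lit 34350048) (dlOf (nat_lit 1) (nat_lit 0x20018fb2881)))) (.nd (nat_lit 16) 
(.lf (nat_lit 1543518176) (dlOf (nat_lit 1) (nat_lit 0xc002000a000800a602))) 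
(.lf (nat_lit 3493148640) (dlOf (nat_lit 1) (nat_lit 0x8004000600180fa602))))) (.nd (nat_lit 18) 
(.lf (nat_lit 2751996912) (dlOf (nat_lit 1) (nat_lit 0x800200020008002882))) (.nd (nat_lit 19) 
(.lf (nat_lit 3959694320) (dlOf (nat_lit 1) (nat_lit 0x74002002e0008112882))) 
(.lf (nat_lit 36447216) (dlOf (nat_lit 1) (nat_lit 0x10008000800200020009072883)))))))) 
(.nd (nat_lit 28) (.nd (nat_lit 16) (.nd (nat_lit 26) (.nd (nat_lit 27) 
(.lf (nat_lit 4831847408) (dlOf (nat_lit 1) (nat_lit 0x800800c400200020008002883))) 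
(.lf (nat_lit 6576677872) (dlOf (nat_lit 1) (nat_lit 0x20028002881)))) (.nd (nat_lit 27) 
(.lf (nat_lit 4898956272) (dlOf (nat_lit 1) (nat_lit 0x800800e000200020008002883))) 
(.nd (nat_lit 30) 
(.lf (nat_lit 4496303088) (dlOf (nat_lit 1) (nat_lit 0x8008006400200020008002883))) 
(.lf (nat_lit 5570044912) (dlOf (nat_lit 1) (nat_lit 0x8008005000200020008002883)))))) 
(.nd (nat_lit 27) (.nd (nat_lit 30) 
(.lf (nat_lit 4295304176) (dlOf (nat_lit 1) (nat_lit 0x20028112881))) 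
(.lf (nat_lit 5369046000) (dlOf (nat_lit 1) (nat_lit 0x80080090002000200080e2883)))) 
(.nd (nat_lit 26) (.nd (nat_lit 29) 
(.lf (nat_lit 5503263728) (dlOf (nat_lit 1) (nat_lit 0x80080098002000200080e2883))) 
(.lf (nat_lit 4966392816) (dlOf (nat_lit 1) (nat_lit 0x80080044002000200080e2883)))) 
(.lf (nat_lit 5033501680) (dlOf (nat_lit 1) (nat_lit 0x80080050002000200080e2883)))))) 
(.nd (nat_lit 26) (.nd (nat_lit 27) (.nd (nat_lit 30) 
(.lf (nat_lit 5100282864) (dlOf (nat_lit 1) (nat_lit 0x800800e000200020008002883))) 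
(.lf (nat_lit 6174024688) (dlOf (nat_lit 1) (nat_lit 0x8008006000200020008002883)))) 
(.nd (nat_lit 4) 
(.lf (nat_lit 5773271264) (dlOf (nat_lit 1) (nat_lit 0x8008014c002004a00080c1a83))) 
(.nd (nat_lit 30) 
(.lf (nat_lit 5234500592) (dlOf (nat_lit 1) (nat_lit 0x800800c400200020008002883))) 
(.lf (nat_lit 6308242416) (dlOf (nat_lit 1) (nat_lit 0x8008009000200020008002883)))))) 
(.nd (nat_lit 4) (.nd (nat_lit 19) 
(.lf (nat_lit 5301870816) (dlOf (nat_lit 1) (nat_lit 0xc002000200080c1a82))) 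
(.lf (nat_lit 6376136928) (dlOf (nat_lit 1) (nat_lit 0x10008000c00200040008090a83)))) 
(.nd (nat_lit 27) (.nd (nat_lit 29) 
(.lf (nat_lit 5704262640) (dlOf (nat_lit 1) (nat_lit 0x8008009800200020008002883))) 
(.lf (nat_lit 5167391728) (dlOf (nat_lit 1) (nat_lit 0x1000400100008002882)))) 
(.lf (nat_lit 5838480368) (dlOf (nat_lit 1) (nat_lit 0x20028002881))))))))) (.nd (nat_lit 28) 
(.nd (nat_lit 18) (.nd (nat_lit 20) (.nd (nat_lit 27) (.nd (nat_lit 32) (.nd (nat_lit 8) 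
(.nd (nat_lit 23) (.lf (nat_lit 3221235824) (dlOf (nat_lit 1) (nat_lit 0x460018004781))) 
(.lf (nat_lit 8398960) (dlOf (nat_lit 1) (nat_lit 0x400400020018514782)))) (.nd (nat_lit 16) 
(.nd (nat_lit 7) (.lf (nat_lit 534896) (dlOf (nat_lit 1) (nat_lit 0x400400020008004e82))) 
(.lf (nat_lit 536885744) (dlOf (nat_lit 1) (nat_lit 0x2002800b281)))) (.nd (nat_lit 22) 
(.lf (nat_lit 3288410480) (dlOf (nat_lit 1) (nat_lit 0x120018004e81))) 
(.lf (nat_lit 54602096) (dlOf (nat_lit 1) (nat_lit 0x80008001800200120009654e83)))))) 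
(.nd (nat_lit 29) (.nd (nat_lit 30) 
(.lf (nat_lit 4294977904) (dlOf (nat_lit 1) (nat_lit 0x20008004e81))) 
(.lf (nat_lit 5368719728) (dlOf (nat_lit 1) (nat_lit 0x20028004e81)))) (.nd (nat_lit 26) 
(.lf (nat_lit 4831848816) (dlOf (nat_lit 1) (nat_lit 0x180018004e81))) 
(.lf (nat_lit 4898957680) (dlOf (nat_lit 1) (nat_lit 0x180018004e81)))))) (.nd (nat_lit 8) 
(.nd (nat_lit 9) (.nd (nat_lit 26) 
(.lf (nat_lit 4429195376) (dlOf (nat_lit 1) (nat_lit 0x400400020008004782))) 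
(.lf (nat_lit 1811949680) (dlOf (nat_lit 1) (nat_lit 0x20018004781)))) 
(.lf (nat_lit 1744906864) (dlOf (nat_lit 1) (nat_lit 0x40018095401)))) (.nd (nat_lit 12) 
(.nd (nat_lit 29) (.lf (nat_lit 1275079024) (dlOf (nat_lit 1) (nat_lit 0x20028004e81))) 
(.lf (nat_lit 5033175408) (dlOf (nat_lit 1) (nat_lit 0x400400020008004e82)))) (.nd (nat_lit 7) 
(.lf (nat_lit 671103856) (dlOf (nat_lit 1) (nat_lit 0x4a000800bc81))) 
(.lf (nat_lit 201341424) (dlOf (nat_lit 1) (nat_lit 0xb80080004002000e000800b283))))))) 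
(.nd (nat_lit 24) (.nd (nat_lit 8) (.nd (nat_lit 4) 
(.lf (nat_lit 2754620640) (dlOf (nat_lit 1) (nat_lit 0x280080008002000400080f6503))) 
(.nd (nat_lit 7) 
(.lf (nat_lit 2754621040) (dlOf (nat_lit 1) (nat_lit 0x80080004002000200080f7183))) 
(.lf (nat_lit 2754620656) (dlOf (nat_lit 2) (nat_lit 0x300e0000300800400080004002000800080f6503))))) 
(.nd (nat_lit 4) 
(.lf (nat_lit 2754619744) (dlOf (nat_lit 1) (nat_lit 0x200080004002000600080f4e83))) 
(.nd (nat_lit 16) (.lf (nat_lit 49293680) (dlOf (nat_lit 1) (nat_lit 0x400400020019464e82))) 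
(.lf (nat_lit 49359216) (dlOf (nat_lit 1) (nat_lit 0x8008000400200020009464e83)))))) 
(.nd (nat_lit 9) (.nd (nat_lit 19) (.nd (nat_lit 4) 
(.lf (nat_lit 51390944) (dlOf (nat_lit 1) (nat_lit 0x60029514e81))) 
(.lf (nat_lit 53487984) (dlOf (nat_lit 1) (nat_lit 0x18008007c002002200095f4e83)))) 
(.nd (nat_lit 16) (.lf (nat_lit 20457840) (dlOf (nat_lit 1) (nat_lit 0x600289d4e81))) 
(.lf (nat_lit 20523376) (dlOf (nat_lit 1) (nat_lit 0x4004000200189d4e82))))) (.nd (nat_lit 16) 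
(.lf (nat_lit 19934064) (dlOf (nat_lit 1) (nat_lit 0x4002000200089d5c02))) 
(.lf (nat_lit 19999600) (dlOf (nat_lit 1) (nat_lit 0x8002000200089d5c02))))))) (.nd (nat_lit 16) 
(.nd (nat_lit 20) (.nd (nat_lit 8) (.nd (nat_lit 4) 
(.lf (nat_lit 4899220064) (dlOf (nat_lit 1) (nat_lit 0x30008000c002000800080d5383))) 
(.nd (nat_lit 7) 
(.lf (nat_lit 2818849904) (dlOf (nat_lit 2) (nat_lit 0x1001f8000bc0800e800800bc0020168000812c103))) 
(.lf (nat_lit 2818849520) (dlOf (nat_lit 1) (nat_lit 0x2002812b981))))) (.nd (nat_lit 26) 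
(.lf (nat_lit 3221498224) (dlOf (nat_lit 2) (nat_lit 0x1000002e6804008000200460008114e82))) 
(.lf (nat_lit 4899219824) (dlOf (nat_lit 1) (nat_lit 0x400280d4e81))))) (.nd (nat_lit 7) 
(.nd (nat_lit 4) (.lf (nat_lit 50080096) (dlOf (nat_lit 2) (nat_lit 0x2546001618194c4e80))) 
(.nd (nat_lit 21) (.lf (nat_lit 39070064) (dlOf (nat_lit 1) (nat_lit 0x400200020009194e82))) 
(.lf (nat_lit 57944432) (dlOf (nat_lit 1) (nat_lit 0xc00200120009794e82))))) (.nd (nat_lit 10) 
(.lf (nat_lit 33303024) (dlOf (nat_lit 1) (nat_lit 0xa0028f54f01))) 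
(.lf (nat_lit 8142320) (dlOf (nat_lit 1) (nat_lit 0x800800040020002000851cd03)))))) 
(.nd (nat_lit 25) (.nd (nat_lit 26) (.nd (nat_lit 27) 
(.lf (nat_lit 5369047408) (dlOf (nat_lit 1) (nat_lit 0xe00180e4e81))) (.nd (nat_lit 29) 
(.lf (nat_lit 5503265136) (dlOf (nat_lit 1) (nat_lit 0x1400180e4e81))) 
(.lf (nat_lit 4966394224) (dlOf (nat_lit 1) (nat_lit 0x1800180e4e81))))) (.nd (nat_lit 20) 
(.lf (nat_lit 5033503088) (dlOf (nat_lit 1) (nat_lit 0x1400180e4e81))) 
(.lf (nat_lit 2754947440) (dlOf (nat_lit 1) (nat_lit 0xf8008000c002002200080f4e83))))) 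
(.nd (nat_lit 19) (.nd (nat_lit 20) 
(.lf (nat_lit 59058544) (dlOf (nat_lit 1) (nat_lit 0x100080004002000200097e4e83))) 
(.nd (nat_lit 21) (.lf (nat_lit 39135600) (dlOf (nat_lit 1) (nat_lit 0xc00200020009194e82))) 
(.lf (nat_lit 53815664) (dlOf (nat_lit 1) (nat_lit 0x800801dc002009600095f4e83))))) 
(.nd (nat_lit 7) (.nd (nat_lit 20) 
(.lf (nat_lit 36514160) (dlOf (nat_lit 1) (nat_lit 0x20019074e81))) 
(.lf (nat_lit 37562736) (dlOf (nat_lit 1) (nat_lit 0x200090d4e81)))) 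
(.lf (nat_lit 38611440) (dlOf (nat_lit 1) (nat_lit 0x8008000400200020009134f03)))))))) 
(.nd (nat_lit 26) (.nd (nat_lit 31) (.nd (nat_lit 29) (.nd (nat_lit 7) (.nd (nat_lit 16) 
(.lf (nat_lit 5771372912) (dlOf (nat_lit 1) (nat_lit 0xa0028004e81))) 
(.lf (nat_lit 1345137008) (dlOf (nat_lit 1) (nat_lit 0x8008000400200020008a44e83)))) 
(.nd (nat_lit 4) (.lf (nat_lit 1345661664) (dlOf (nat_lit 1) (nat_lit 0x20018dd5981))) 
(.lf (nat_lit 1342188784) (dlOf (nat_lit 1) (nat_lit 0x1000200060008006502))))) (.nd (nat_lit 27) 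
(.nd (nat_lit 30) (.lf (nat_lit 5100284272) (dlOf (nat_lit 1) (nat_lit 0x180018004e81))) 
(.lf (nat_lit 6174026096) (dlOf (nat_lit 1) (nat_lit 0x180018004e81)))) (.nd (nat_lit 16) 
(.lf (nat_lit 5234502000) (dlOf (nat_lit 1) (nat_lit 0x180018004e81))) 
(.lf (nat_lit 5234567536) (dlOf (nat_lit 1) (nat_lit 0x8004000a0008054e82)))))) (.nd (nat_lit 16) 
(.nd (nat_lit 27) (.nd (nat_lit 19) (.nd (nat_lit 30) 
(.lf (nat_lit 6710897008) (dlOf (nat_lit 1) (nat_lit 0x20028004e81))) 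
(.lf (nat_lit 3489671536) (dlOf (nat_lit 1) (nat_lit 0x400200020008004e82)))) 
(.lf (nat_lit 3490195824) (dlOf (nat_lit 1) (nat_lit 0x400200020008004e82)))) (.nd (nat_lit 18) 
(.lf (nat_lit 2550147440) (dlOf (nat_lit 1) (nat_lit 0xc00400020008004e82))) 
(.lf (nat_lit 3624151408) (dlOf (nat_lit 1) (nat_lit 0x11800400040018144e82))))) (.nd (nat_lit 7) 
(.nd (nat_lit 4) 
(.lf (nat_lit 3489999200) (dlOf (nat_lit 2) (nat_lit 0xd04400638c0800d8008006800200500008004e83))) 
(.lf (nat_lit 3623954544) (dlOf (nat_lit 2) (nat_lit 0x806c00068040004004001a0018004782)))) 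
(.nd (nat_lit 8) (.lf (nat_lit 3624217824) (dlOf (nat_lit 1) (nat_lit 0x800400080018146502))) 
(.lf (nat_lit 2952871392) (dlOf (nat_lit 1) (nat_lit 0xa800800380020030000800cd03))))))) 
(.nd (nat_lit 31) (.nd (nat_lit 7) (.nd (nat_lit 16) (.nd (nat_lit 19) 
(.lf (nat_lit 5704264048) (dlOf (nat_lit 1) (nat_lit 0x140018004e81))) 
(.lf (nat_lit 472394096) (dlOf (nat_lit 1) (nat_lit 0x8000400460008984e82)))) (.nd (nat_lit 8) 
(.lf (nat_lit 1543580784) (dlOf (nat_lit 1) (nat_lit 0x40028146081))) (.nd (nat_lit 18) 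
(.lf (nat_lit 1409362288) (dlOf (nat_lit 1) (nat_lit 0x40018004e81))) 
(.lf (nat_lit 472197488) (dlOf (nat_lit 1) (nat_lit 0x180080004002000400088c4e83)))))) 
(.nd (nat_lit 4) (.nd (nat_lit 8) 
(.lf (nat_lit 469838048) (dlOf (nat_lit 1) (nat_lit 0x140018004a81))) 
(.lf (nat_lit 1543580128) (dlOf (nat_lit 1) (nat_lit 0x8008000c00200020008144e83)))) 
(.nd (nat_lit 8) (.lf (nat_lit 6377450224) (dlOf (nat_lit 1) (nat_lit 0x1c00280e5a01))) 
(.lf (nat_lit 469843440) (dlOf (nat_lit 1) (nat_lit 0x1e002800cd01)))))) (.nd (nat_lit 7) 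
(.nd (nat_lit 27) (.nd (nat_lit 4) 
(.lf (nat_lit 2483038560) (dlOf (nat_lit 1) (nat_lit 0x20028004e81))) (.nd (nat_lit 18) 
(.lf (nat_lit 4093651312) (dlOf (nat_lit 1) (nat_lit 0x20028004e81))) 
(.lf (nat_lit 4093913456) (dlOf (nat_lit 1) (nat_lit 0x40028004e81))))) (.nd (nat_lit 10) 
(.lf (nat_lit 3154192752) (dlOf (nat_lit 1) (nat_lit 0xc0008104e81))) 
(.lf (nat_lit 4227874160) (dlOf (nat_lit 2) (nat_lit 0x40320033101800c900))))) (.nd (nat_lit 10) 
(.nd (nat_lit 9) 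
(.lf (nat_lit 3557046512) (dlOf (nat_lit 3) (nat_lit 0x601c0001980800e80e0000000400300040030000812a902))) 
(.lf (nat_lit 4093651696) (dlOf (nat_lit 1) (nat_lit 0x100028005a01)))) (.nd (nat_lit 4) 
(.lf (nat_lit 4227874016) (dlOf (nat_lit 1) (nat_lit 0x80040002001800c502))) 
(.lf (nat_lit 4227870192) (dlOf (nat_lit 1) (nat_lit 0x48002000e0008006f02))))))))))) 
(.nd (nat_lit 16) (.nd (nat_lit 4) (.nd (nat_lit 19) (.nd (nat_lit 28) (.nd (nat_lit 7) 
(.nd (nat_lit 26) (.nd (nat_lit 18) (.nd (nat_lit 8) (.nd (nat_lit 20) (.nd (nat_lit 21) 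
(.lf (nat_lit 12722208) (dlOf (nat_lit 1) (nat_lit 0x100080004002000200086e0a03))) 
(.lf (nat_lit 14819360) (dlOf (nat_lit 1) (nat_lit 0x60018780601)))) 
(.lf (nat_lit 26353696) (dlOf (nat_lit 1) (nat_lit 0x400400020008c40602)))) (.nd (nat_lit 20) 
(.lf (nat_lit 1744970016) (dlOf (nat_lit 1) (nat_lit 0x860008090a81))) 
(.lf (nat_lit 11673888) (dlOf (nat_lit 2) (nat_lit 0x53f10000e00800100080008002000400086c0503))))) 
(.nd (nat_lit 20) (.nd (nat_lit 22) (.nd (nat_lit 27) 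
(.lf (nat_lit 3758497824) (dlOf (nat_lit 1) (nat_lit 0x20028220681))) 
(.lf (nat_lit 3355844640) (dlOf (nat_lit 1) (nat_lit 0x3d8008004000201880008120503)))) 
(.lf (nat_lit 29761568) (dlOf (nat_lit 1) (nat_lit 0x400200020008e30002)))) (.nd (nat_lit 21) 
(.lf (nat_lit 9838624) (dlOf (nat_lit 2) (nat_lit 0x294398013c1bb005b0ce003580000007610013400201460008580102))) 
(.lf (nat_lit 24518688) (dlOf (nat_lit 1) (nat_lit 0x400200020008ba0a02)))))) (.nd (nat_lit 10) 
(.nd (nat_lit 30) (.nd (nat_lit 18) 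
(.lf (nat_lit 2348949536) (dlOf (nat_lit 2) (nat_lit 0x1402a0003014000094100070008002800200140008050783))) 
(.lf (nat_lit 4496695328) (dlOf (nat_lit 1) (nat_lit 0xa000800b400200720008120103)))) 
(.nd (nat_lit 6) (.lf (nat_lit 3288473632) (dlOf (nat_lit 1) (nat_lit 0x20018020481))) 
(.lf (nat_lit 6107045984) (dlOf (nat_lit 1) (nat_lit 0x50008000400200dc0008040783))))) 
(.nd (nat_lit 9) (.nd (nat_lit 11) 
(.lf (nat_lit 3959563296) (dlOf (nat_lit 2) (nat_lit 0x19803802bc004000800400060008112882))) 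
(.lf (nat_lit 738339872) (dlOf (nat_lit 1) (nat_lit 0x20028096001)))) 
(.lf (nat_lit 6509702688) (dlOf (nat_lit 1) (nat_lit 0x40028147101)))))) (.nd (nat_lit 8) 
(.nd (nat_lit 10) (.nd (nat_lit 6) (.nd (nat_lit 9) 
(.lf (nat_lit 3285152) (dlOf (nat_lit 1) (nat_lit 0x8008000400200020008200203))) 
(.lf (nat_lit 20062880) (dlOf (nat_lit 1) (nat_lit 0x4002000200089d1c02)))) 
(.lf (nat_lit 1677863136) (dlOf (nat_lit 4) (nat_lit 0x10028000660400040a8001c0110001602000d0088000a80800d80080014002001a0008114a83)))) 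
(.nd (nat_lit 20) (.lf (nat_lit 134360224) (dlOf (nat_lit 1) (nat_lit 0x40028006281))) 
(.lf (nat_lit 2754751648) (dlOf (nat_lit 1) (nat_lit 0x4400080f6281))))) (.nd (nat_lit 18) 
(.nd (nat_lit 6) (.lf (nat_lit 537012128) (dlOf (nat_lit 1) (nat_lit 0xbc004004c0008004282))) 
(.nd (nat_lit 21) 
(.lf (nat_lit 2818712544) (dlOf (nat_lit 2) (nat_lit 0xa0068009ac0800180080010002000600080d2883))) 
(.lf (nat_lit 48374752) (dlOf (nat_lit 1) (nat_lit 0x3000800c800200700009402883))))) 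
(.nd (nat_lit 9) (.nd (nat_lit 11) 
(.lf (nat_lit 134619552) (dlOf (nat_lit 2) (nat_lit 0xc003b003a0018090780))) 
(.lf (nat_lit 20330912) (dlOf (nat_lit 1) (nat_lit 0x100080010002000e00089daf83)))) 
(.lf (nat_lit 2751866784) (dlOf (nat_lit 1) (nat_lit 0x8008000400200020008004283))))))) 
(.nd (nat_lit 29) (.nd (nat_lit 18) (.nd (nat_lit 6) (.nd (nat_lit 8) (.nd (nat_lit 10) 
(.lf (nat_lit 2483167264) (dlOf (nat_lit 2) (nat_lit 0x1402a0003014000094100070008002800200140008050783))) 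
(.lf (nat_lit 1342321696) (dlOf (nat_lit 1) (nat_lit 0x80028009201)))) 
(.lf (nat_lit 4563542304) (dlOf (nat_lit 6) (nat_lit 0x6034002f0178001807c002d80c004405e002c02d000f00f8000181800100bc001005a000601f00002830001017800180b4002803e0000306000202f00070168004007c000020c005c004000e0018090a82)))) 
(.nd (nat_lit 7) 
(.lf (nat_lit 6711025760) (dlOf (nat_lit 1) (nat_lit 0x50008000400200dc0008040783))) 
(.lf (nat_lit 1409428704) (dlOf (nat_lit 1) (nat_lit 0x40018006501))))) (.nd (nat_lit 27) 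
(.nd (nat_lit 22) (.nd (nat_lit 30) 
(.lf (nat_lit 4563804192) (dlOf (nat_lit 2) (nat_lit 0x140520002502000200180e0701))) 
(.lf (nat_lit 5637546016) (dlOf (nat_lit 1) (nat_lit 0x980080104002007c0008100103)))) 
(.lf (nat_lit 1346773024) (dlOf (nat_lit 1) (nat_lit 0x1e0029000181)))) (.nd (nat_lit 6) 
(.lf (nat_lit 471212064) (dlOf (nat_lit 2) (nat_lit 0x1103f0019f80800400080020002002600082c0683))) 
(.lf (nat_lit 3624283488) (dlOf (nat_lit 1) (nat_lit 0x4004005e0008146a82)))))) (.nd (nat_lit 26) 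
(.nd (nat_lit 11) (.nd (nat_lit 6) (.nd (nat_lit 8) 
(.lf (nat_lit 1881546784) (dlOf (nat_lit 1) (nat_lit 0x400200060008f40182))) 
(.lf (nat_lit 1879187744) (dlOf (nat_lit 1) (nat_lit 0x18008000400200060008067803)))) 
(.lf (nat_lit 1879449952) (dlOf (nat_lit 1) (nat_lit 0x180018150901)))) (.nd (nat_lit 7) 
(.lf (nat_lit 805448992) (dlOf (nat_lit 1) (nat_lit 0x400080020002000e0008116783))) 
(.lf (nat_lit 805448096) (dlOf (nat_lit 1) (nat_lit 0xf80080054002000e0008114e83))))) 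
(.nd (nat_lit 7) (.nd (nat_lit 6) (.nd (nat_lit 9) 
(.lf (nat_lit 6241525792) (dlOf (nat_lit 1) (nat_lit 0x980080104002007c0008100103))) 
(.lf (nat_lit 1946296864) (dlOf (nat_lit 1) (nat_lit 0x28004000e0008017f02)))) 
(.lf (nat_lit 5167521888) (dlOf (nat_lit 1) (nat_lit 0x718008034800201940008080783)))) 
(.nd (nat_lit 11) 
(.lf (nat_lit 1946296736) (dlOf (nat_lit 1) (nat_lit 0x8008000400200020008016b83))) 
(.lf (nat_lit 6241266080) (dlOf (nat_lit 1) (nat_lit 0x4200180d4e81)))))))) (.nd (nat_lit 30) 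
(.nd (nat_lit 21) (.nd (nat_lit 20) (.nd (nat_lit 26) (.nd (nat_lit 6) (.nd (nat_lit 18) 
(.nd (nat_lit 27) 
(.lf (nat_lit 537534496) (dlOf (nat_lit 11) (nat_lit 0x1b02f807840080040174038dc04024c0ba00f6054008c02280718c18001817c025c0ba00c6054005e02280718820002017c025c0ba00c6054005f02280717820038817401f00a800b404500deb03009502e80320150018008a01bd506011c0540011022806f4c100058150037a00400080be00f5902001000180a0901))) 
(.lf (nat_lit 134881312) (dlOf (nat_lit 2) (nat_lit 0x16013000000180d0880)))) 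
(.lf (nat_lit 9314336) (dlOf (nat_lit 1) (nat_lit 0x2a0028540701)))) 
(.lf (nat_lit 34219104) (dlOf (nat_lit 2) (nat_lit 0xaff00000004004c004000c0008fb2902)))) 
(.nd (nat_lit 27) 
(.lf (nat_lit 4362739744) (dlOf (nat_lit 2) (nat_lit 0x1813c0006c0400b0004005a00080e0b02))) 
(.lf (nat_lit 201990176) (dlOf (nat_lit 2) (nat_lit 0x16013000000180d0880))))) (.nd (nat_lit 6) 
(.nd (nat_lit 23) (.lf (nat_lit 18489376) (dlOf (nat_lit 1) (nat_lit 0x60028940681))) 
(.lf (nat_lit 10100768) (dlOf (nat_lit 1) (nat_lit 0x200285b0481)))) 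
(.lf (nat_lit 6168800) (dlOf (nat_lit 1) (nat_lit 0x2400200040008420582))))) (.nd (nat_lit 8) 
(.nd (nat_lit 7) (.nd (nat_lit 9) (.nd (nat_lit 18) 
(.lf (nat_lit 2755272736) (dlOf (nat_lit 1) (nat_lit 0x20028140c01))) 
(.lf (nat_lit 19800096) (dlOf (nat_lit 1) (nat_lit 0x600289d0001)))) 
(.lf (nat_lit 8009248) (dlOf (nat_lit 2) (nat_lit 0x65820029e0080018008000c00200040008519c03)))) 
(.nd (nat_lit 6) (.lf (nat_lit 8009376) (dlOf (nat_lit 1) (nat_lit 0x20018519f81))) 
(.nd (nat_lit 11) (.lf (nat_lit 8270560) (dlOf (nat_lit 1) (nat_lit 0x400200020008518c82))) 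
(.lf (nat_lit 19806944) (dlOf (nat_lit 1) (nat_lit 0x200289db981)))))) (.nd (nat_lit 6) 
(.nd (nat_lit 7) (.lf (nat_lit 3023136) (dlOf (nat_lit 1) (nat_lit 0x1400400020008200502))) 
(.nd (nat_lit 9) (.lf (nat_lit 36317600) (dlOf (nat_lit 1) (nat_lit 0x20019074e81))) 
(.lf (nat_lit 19807136) (dlOf (nat_lit 1) (nat_lit 0x200289dbc81))))) (.nd (nat_lit 7) 
(.lf (nat_lit 49948000) (dlOf (nat_lit 1) (nat_lit 0x14004000200194c3402))) (.nd (nat_lit 18) 
(.lf (nat_lit 53093344) (dlOf (nat_lit 1) (nat_lit 0x51000802b000200880009572883))) 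
(.lf (nat_lit 472785888) (dlOf (nat_lit 1) (nat_lit 0x20018b02881)))))))) (.nd (nat_lit 31) 
(.nd (nat_lit 6) (.nd (nat_lit 8) (.nd (nat_lit 18) (.nd (nat_lit 20) 
(.lf (nat_lit 1409949728) (dlOf (nat_lit 11) (nat_lit 0x1b02f806ae00800401740324204024c0ba00f6054008c02100645818001817c025c0ba00c6054005e02100645420002017c025c0ba00c6054005f02100644420038817401f00a800b404200c3803009502e8032015001800840186f06011c05400110210061b4100058150030d60400080be00f5002001000180a0901))) 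
(.lf (nat_lit 5773074464) (dlOf (nat_lit 1) (nat_lit 0xa00180a0781)))) 
(.lf (nat_lit 6376267808) (dlOf (nat_lit 1) (nat_lit 0x8008008000200300008090003)))) 
(.nd (nat_lit 7) (.lf (nat_lit 5774123296) (dlOf (nat_lit 1) (nat_lit 0xc00400020008108002))) 
(.lf (nat_lit 1345989024) (dlOf (nat_lit 2) (nat_lit 0x1c1b200c090200020018e24e81))))) 
(.nd (nat_lit 7) (.nd (nat_lit 21) 
(.lf (nat_lit 1409949792) (dlOf (nat_lit 7) (nat_lit 0x80570000b81008d02e802c015c02780a4014a033000100400005428029017400a80ae00ce052004f01980004c200468174015c0ae013e052009e019800100200000a14021c0ba000c0570068029002600cc0000810007c0ba000030200de00280a1301))) 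
(.lf (nat_lit 1344938080) (dlOf (nat_lit 2) (nat_lit 0x2143000909d800584e4002819a0056075002c0398000ac3003280080144002000600089a0903)))) 
(.nd (nat_lit 8) (.lf (nat_lit 1879711968) (dlOf (nat_lit 1) (nat_lit 0x3400182e0581))) 
(.lf (nat_lit 1881023456) (dlOf (nat_lit 1) (nat_lit 0x400200020008dd2882)))))) (.nd (nat_lit 8) 
(.nd (nat_lit 26) (.nd (nat_lit 9) (.nd (nat_lit 20) 
(.lf (nat_lit 3221889056) (dlOf (nat_lit 2) (nat_lit 0x1009c0015e040030004001e00181b0482))) 
(.lf (nat_lit 3493470240) (dlOf (nat_lit 1) (nat_lit 0x20028140c01)))) 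
(.lf (nat_lit 3490587168) (dlOf (nat_lit 1) (nat_lit 0x8008000400200020008017f03)))) 
(.nd (nat_lit 28) 
(.lf (nat_lit 3960086560) (dlOf (nat_lit 2) (nat_lit 0x1009c0015e040030004001e00181b0482))) 
(.lf (nat_lit 4228522016) (dlOf (nat_lit 2) (nat_lit 0x181200006c0400b0004005a00080e0b02))))) 
(.nd (nat_lit 6) (.nd (nat_lit 7) 
(.lf (nat_lit 3490586912) (dlOf (nat_lit 1) (nat_lit 0xc00400120018014182))) 
(.lf (nat_lit 3490587040) (dlOf (nat_lit 1) (nat_lit 0xe0008000400200240008016b83)))) 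
(.nd (nat_lit 10) 
(.lf (nat_lit 4094568800) (dlOf (nat_lit 2) (nat_lit 0x30438076a4080008008002c002003a0008054e83))) 
(.lf (nat_lit 3490327904) (dlOf (nat_lit 1) (nat_lit 0x20028006a81))))))))) (.nd (nat_lit 6) 
(.nd (nat_lit 30) (.nd (nat_lit 26) (.nd (nat_lit 20) (.nd (nat_lit 7) (.nd (nat_lit 27) 
(.nd (nat_lit 10) (.nd (nat_lit 19) 
(.lf (nat_lit 2416058416) (dlOf (nat_lit 1) (nat_lit 0x1c00200080008030c82))) 
(.lf (nat_lit 537534512) (dlOf (nat_lit 2) (nat_lit 0x14016400058040038004000e00080a0982)))) 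
(.nd (nat_lit 8) (.lf (nat_lit 9057328) (dlOf (nat_lit 1) (nat_lit 0xee0028519201))) 
(.lf (nat_lit 537012016) (dlOf (nat_lit 1) (nat_lit 0x500080028002000c0008003d83))))) 
(.nd (nat_lit 9) (.nd (nat_lit 28) 
(.lf (nat_lit 4966195248) (dlOf (nat_lit 1) (nat_lit 0x20008040381))) 
(.lf (nat_lit 2550276144) (dlOf (nat_lit 1) (nat_lit 0x1c00200080008030c82)))) 
(.lf (nat_lit 134619696) (dlOf (nat_lit 2) (nat_lit 0x1b0188000180800900080068002008e0008090f03))))) 
(.nd (nat_lit 8) (.nd (nat_lit 10) 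
(.lf (nat_lit 268574896) (dlOf (nat_lit 2) (nat_lit 0x21001400019018081600))) 
(.lf (nat_lit 48374960) (dlOf (nat_lit 6) (nat_lit 0x96406002f1d04000be08022901800067410002e82008b406000164080162030000a8040008e82000450200020019402c01)))) 
(.nd (nat_lit 10) 
(.lf (nat_lit 134619568) (dlOf (nat_lit 4) (nat_lit 0x3800ec00e820401c00760074002003003b0039b818090780))) 
(.lf (nat_lit 53093808) (dlOf (nat_lit 1) (nat_lit 0xf8008002000200160009573603)))))) 
(.nd (nat_lit 19) (.nd (nat_lit 25) (.nd (nat_lit 7) (.nd (nat_lit 9) 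
(.lf (nat_lit 9838640) (dlOf (nat_lit 2) (nat_lit 0x21d60001a018580380))) 
(.lf (nat_lit 11674160) (dlOf (nat_lit 3) (nat_lit 0xbc6300005010005e318000000800480080018002001400086c0f03)))) 
(.lf (nat_lit 9576624) (dlOf (nat_lit 1) (nat_lit 0x20018571601)))) (.nd (nat_lit 22) 
(.lf (nat_lit 59908144) (dlOf (nat_lit 1) (nat_lit 0x40008001c00200040009840003))) 
(.lf (nat_lit 47325232) (dlOf (nat_lit 4) (nat_lit 0xaf08001c604001d7840002b48000710200055e98002aef0000ec0800e8004000200093d0d02))))) 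
(.nd (nat_lit 10) (.nd (nat_lit 18) (.nd (nat_lit 24) 
(.lf (nat_lit 10100784) (dlOf (nat_lit 1) (nat_lit 0x4004000200085b0582))) 
(.lf (nat_lit 26878000) (dlOf (nat_lit 2) (nat_lit 0x154260001d0200040018c80701)))) 
(.lf (nat_lit 25042992) (dlOf (nat_lit 1) (nat_lit 0x80008be0e81)))) (.nd (nat_lit 7) 
(.lf (nat_lit 8005168) (dlOf (nat_lit 1) (nat_lit 0xc00400020018513782))) (.nd (nat_lit 8) 
(.lf (nat_lit 8005296) (dlOf (nat_lit 1) (nat_lit 0x580018513a81))) 
(.lf (nat_lit 43656624) (dlOf (nat_lit 1) (nat_lit 0xc004000200092a3602)))))))) (.nd (nat_lit 18) 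
(.nd (nat_lit 27) (.nd (nat_lit 19) (.nd (nat_lit 7) 
(.lf (nat_lit 5167521840) (dlOf (nat_lit 1) (nat_lit 0x1800400020008080382))) 
(.lf (nat_lit 6509702320) (dlOf (nat_lit 3) (nat_lit 0xe0260003401000101300019c0800080080004002000c0008146283)))) 
(.nd (nat_lit 21) 
(.lf (nat_lit 67772464) (dlOf (nat_lit 2) (nat_lit 0x880000001e040004004000200082e0e82))) 
(.lf (nat_lit 2754224176) (dlOf (nat_lit 2) (nat_lit 0x87580003404001c004001400080d0b02))))) 
(.nd (nat_lit 10) (.nd (nat_lit 19) 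
(.lf (nat_lit 5033304112) (dlOf (nat_lit 1) (nat_lit 0x20008040381))) 
(.lf (nat_lit 3154780208) (dlOf (nat_lit 10) (nat_lit 0x2c0c002c405a0015026800200d0005c028016600300090010000fc380c08168038c0060003604002605a0001a81002102d0000d0080848168000600404980b400300030001782003a02d00007c08099016802200060001e0401c605a006e00180003c100040008010800200700008320e83)))) 
(.nd (nat_lit 7) (.lf (nat_lit 469906480) (dlOf (nat_lit 1) (nat_lit 0x80028009201))) 
(.lf (nat_lit 474096816) (dlOf (nat_lit 9) (nat_lit 0x9c204003d0d0801985a000d428a006a0cf0043059001d81cc00d002e004e015003200000017c500078000000bc0400f440800521a100230b400128514008019e005a0b2001f039800f005c011402a00500000002e8a00110b480058060000b20800782d200340180002c0200030b480015c0801205a4009403000054040052169002300c000114100080008010000200020009082c03)))))) 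
(.nd (nat_lit 8) (.nd (nat_lit 20) (.nd (nat_lit 9) 
(.lf (nat_lit 4496695344) (dlOf (nat_lit 2) (nat_lit 0xb901a002900cc0418064002c0300098011800080280038008006c002004e0008120383))) 
(.lf (nat_lit 201728560) (dlOf (nat_lit 2) (nat_lit 0x1b0188000180800900080068002008e0008090f03)))) 
(.nd (nat_lit 19) 
(.lf (nat_lit 2752913456) (dlOf (nat_lit 3) (nat_lit 0x3084800183f4000c155000609c00036c20002884800143f4000c155000609c000364200068008001000200020008060603))) 
(.lf (nat_lit 2755534896) (dlOf (nat_lit 1) (nat_lit 0x10c004000c00081b0002))))) (.nd (nat_lit 7) 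
(.nd (nat_lit 9) 
(.lf (nat_lit 2755535152) (dlOf (nat_lit 1) (nat_lit 0x19800800a000200a400081b0503))) 
(.lf (nat_lit 2751866672) (dlOf (nat_lit 1) (nat_lit 0x8008000400200020008003d83)))) 
(.lf (nat_lit 201728432) (dlOf (nat_lit 2) (nat_lit 0xc003b00674818090780))))))) (.nd (nat_lit 18) 
(.nd (nat_lit 19) (.nd (nat_lit 27) (.nd (nat_lit 8) (.nd (nat_lit 9) (.nd (nat_lit 20) 
(.lf (nat_lit 5368848432) (dlOf (nat_lit 1) (nat_lit 0xbc00400280008040382))) 
(.lf (nat_lit 1343365168) (dlOf (nat_lit 1) (nat_lit 0x20028210981)))) 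
(.lf (nat_lit 1342320176) (dlOf (nat_lit 2) (nat_lit 0x8423c0006e018007180)))) 
(.lf (nat_lit 1879187760) (dlOf (nat_lit 1) (nat_lit 0x18008000400200060008067a03)))) 
(.nd (nat_lit 26) (.nd (nat_lit 28) 
(.lf (nat_lit 5503066160) (dlOf (nat_lit 1) (nat_lit 0xbc00400280008040382))) 
(.lf (nat_lit 1476534320) (dlOf (nat_lit 1) (nat_lit 0x10008000400200020008040d03)))) 
(.nd (nat_lit 7) (.nd (nat_lit 28) 
(.lf (nat_lit 3422691376) (dlOf (nat_lit 1) (nat_lit 0x18008000400200040008060d83))) 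
(.lf (nat_lit 3691126832) (dlOf (nat_lit 1) (nat_lit 0x10008000400200020008040d03)))) 
(.lf (nat_lit 1543646384) (dlOf (nat_lit 1) (nat_lit 0x20028146281)))))) (.nd (nat_lit 21) 
(.nd (nat_lit 26) 
(.lf (nat_lit 3221889072) (dlOf (nat_lit 3) (nat_lit 0x760430002a81001602180014c08013800800c4002000e00081b0683))) 
(.nd (nat_lit 27) 
(.lf (nat_lit 1409949744) (dlOf (nat_lit 2) (nat_lit 0x14016400070040038004000e00080a0982))) 
(.lf (nat_lit 3960086576) (dlOf (nat_lit 3) (nat_lit 0x760430002a81001602180014c08013800800c4002000e00081b0683))))) 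
(.nd (nat_lit 7) (.nd (nat_lit 10) 
(.lf (nat_lit 3492421680) (dlOf (nat_lit 2) (nat_lit 0x87100003404001c004001400080d0b02))) 
(.lf (nat_lit 1345987632) (dlOf (nat_lit 2) (nat_lit 0x7010a0067e0200020018e22881)))) 
(.lf (nat_lit 1881810096) (dlOf (nat_lit 1) (nat_lit 0x20019042c01)))))) (.nd (nat_lit 26) 
(.nd (nat_lit 20) (.nd (nat_lit 27) (.nd (nat_lit 7) (.nd (nat_lit 29) 
(.lf (nat_lit 5637546032) (dlOf (nat_lit 2) (nat_lit 0xc0480002b02000c0008100381))) 
(.lf (nat_lit 4026933296) (dlOf (nat_lit 2) (nat_lit 0x44020000018180d0b00)))) 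
(.lf (nat_lit 3490064816) (dlOf (nat_lit 1) (nat_lit 0x20018004e81)))) (.nd (nat_lit 29) 
(.lf (nat_lit 3355844656) (dlOf (nat_lit 1) (nat_lit 0x2b000800ac00200ec0008120d83))) 
(.lf (nat_lit 3892715568) (dlOf (nat_lit 5) (nat_lit 0x5581680007a0400b40b4000370200a605a0001b01008802d0000000800f0008009c002006c00081d0703))))) 
(.nd (nat_lit 8) (.nd (nat_lit 31) 
(.lf (nat_lit 1343627312) (dlOf (nat_lit 1) (nat_lit 0x4004000400182c0802))) 
(.lf (nat_lit 3491110960) (dlOf (nat_lit 3) (nat_lit 0x307f400183d0000c15f000609c0003342000287f400143d0000c15f000609c00032c200068008001000200020008060603)))) 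
(.lf (nat_lit 3493732656) (dlOf (nat_lit 1) (nat_lit 0x1600081b0501))))) (.nd (nat_lit 29) 
(.nd (nat_lit 28) (.lf (nat_lit 3288735792) (dlOf (nat_lit 2) (nat_lit 0x44020000018180d0b00))) 
(.lf (nat_lit 1409687600) (dlOf (nat_lit 2) (nat_lit 0x102d800b01500004408000c00400040018070902)))) 
(.nd (nat_lit 7) (.nd (nat_lit 32) 
(.lf (nat_lit 1946558512) (dlOf (nat_lit 1) (nat_lit 0x4200080c0e81))) 
(.lf (nat_lit 6241525808) (dlOf (nat_lit 2) (nat_lit 0xc04a0002e02000c0008100381)))) 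
(.lf (nat_lit 4228260272) (dlOf (nat_lit 4) (nat_lit 0x2cc0640080c020166032004050100b3019002024080030008001c00200100008090783)))))))) 
(.nd (nat_lit 11) (.nd (nat_lit 8) (.nd (nat_lit 19) (.nd (nat_lit 7) (.nd (nat_lit 12) 
(.nd (nat_lit 26) 
(.lf (nat_lit 6711025776) (dlOf (nat_lit 1) (nat_lit 0x548008020800201d00008040d03))) 
(.lf (nat_lit 6107046000) (dlOf (nat_lit 1) (nat_lit 0x548008020800201d00008040d03)))) 
(.lf (nat_lit 20066416) (dlOf (nat_lit 1) (nat_lit 0x4002000200089d7d82)))) (.nd (nat_lit 9) 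
(.lf (nat_lit 3557171440) (dlOf (nat_lit 1) (nat_lit 0x400400020018130702))) 
(.lf (nat_lit 671229680) (dlOf (nat_lit 1) (nat_lit 0xa0018143b01))))) (.nd (nat_lit 26) 
(.nd (nat_lit 28) (.nd (nat_lit 10) 
(.lf (nat_lit 537534576) (dlOf (nat_lit 1) (nat_lit 0x200180a1581))) 
(.lf (nat_lit 9057392) (dlOf (nat_lit 1) (nat_lit 0x288008009000203e00008519403)))) 
(.nd (nat_lit 7) (.lf (nat_lit 5772025968) (dlOf (nat_lit 1) (nat_lit 0x20028040d01))) 
(.lf (nat_lit 1343103216) (dlOf (nat_lit 1) (nat_lit 0x8008000400200020008150703))))) 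
(.nd (nat_lit 27) (.lf (nat_lit 1409949808) (dlOf (nat_lit 1) (nat_lit 0x200180a1581))) 
(.lf (nat_lit 6376005744) (dlOf (nat_lit 1) (nat_lit 0x20028040d01)))))) (.nd (nat_lit 7) 
(.nd (nat_lit 20) (.nd (nat_lit 26) 
(.lf (nat_lit 134619504) (dlOf (nat_lit 2) (nat_lit 0x50076000000200060008090781))) 
(.nd (nat_lit 28) 
(.lf (nat_lit 201728368) (dlOf (nat_lit 5) (nat_lit 0xdf00ec019dc04002807600ce602001403b0067281001601d80339008108000804b800206c20008090783))) 
(.lf (nat_lit 4228260208) (dlOf (nat_lit 1) (nat_lit 0x300008090781))))) (.nd (nat_lit 18) 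
(.nd (nat_lit 21) (.lf (nat_lit 9576816) (dlOf (nat_lit 1) (nat_lit 0x400400020008575802))) 
(.lf (nat_lit 11673968) (dlOf (nat_lit 2) (nat_lit 0xd0370070b0186c0780)))) 
(.lf (nat_lit 3491635568) (dlOf (nat_lit 1) (nat_lit 0x40018090781))))) (.nd (nat_lit 10) 
(.nd (nat_lit 18) (.lf (nat_lit 53093360) (dlOf (nat_lit 1) (nat_lit 0x8008000800200040009572883))) 
(.nd (nat_lit 19) (.lf (nat_lit 38151152) (dlOf (nat_lit 1) (nat_lit 0x20019132881))) 
(.lf (nat_lit 37626864) (dlOf (nat_lit 1) (nat_lit 0x600290d2881))))) (.nd (nat_lit 9) 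
(.nd (nat_lit 12) (.lf (nat_lit 8529392) (dlOf (nat_lit 1) (nat_lit 0x400200020008513602))) 
(.lf (nat_lit 20067824) (dlOf (nat_lit 1) (nat_lit 0x400189d9c01)))) 
(.lf (nat_lit 1677862896) (dlOf (nat_lit 1) (nat_lit 0x28008004800200100008114603))))))) 
(.nd (nat_lit 20) (.nd (nat_lit 18) (.nd (nat_lit 8) (.nd (nat_lit 26) 
(.lf (nat_lit 141424) (dlOf (nat_lit 1) (nat_lit 0x7400400080018004782))) 
(.lf (nat_lit 5972830320) (dlOf (nat_lit 1) (nat_lit 0x400400020008144782)))) (.nd (nat_lit 12) 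
(.nd (nat_lit 27) 
(.lf (nat_lit 805448048) (dlOf (nat_lit 1) (nat_lit 0x48008002400200120008114e83))) 
(.lf (nat_lit 134359408) (dlOf (nat_lit 1) (nat_lit 0x20018004e81)))) 
(.lf (nat_lit 3959568752) (dlOf (nat_lit 1) (nat_lit 0xe001811ad01))))) (.nd (nat_lit 21) 
(.nd (nat_lit 27) (.lf (nat_lit 3490064752) (dlOf (nat_lit 1) (nat_lit 0x20018004e81))) 
(.nd (nat_lit 28) (.lf (nat_lit 1745234288) (dlOf (nat_lit 1) (nat_lit 0x6600280e4e81))) 
(.lf (nat_lit 3624282480) (dlOf (nat_lit 1) (nat_lit 0x20028144e81))))) (.nd (nat_lit 8) 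
(.lf (nat_lit 19803760) (dlOf (nat_lit 1) (nat_lit 0x600289d7181))) 
(.lf (nat_lit 40249712) (dlOf (nat_lit 1) (nat_lit 0x1000191f4e81)))))) (.nd (nat_lit 19) 
(.nd (nat_lit 18) (.nd (nat_lit 9) (.nd (nat_lit 22) 
(.lf (nat_lit 1345464688) (dlOf (nat_lit 1) (nat_lit 0x8008000400200020008c34e83))) 
(.lf (nat_lit 49424752) (dlOf (nat_lit 1) (nat_lit 0xc00200020009464e82)))) 
(.lf (nat_lit 20065136) (dlOf (nat_lit 1) (nat_lit 0x1a00080030002003000089d5c03)))) 
(.nd (nat_lit 21) (.lf (nat_lit 39201136) (dlOf (nat_lit 1) (nat_lit 0x400200020009194e82))) 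
(.lf (nat_lit 473311600) (dlOf (nat_lit 1) (nat_lit 0x70008000400200020008e94e83))))) 
(.nd (nat_lit 18) (.nd (nat_lit 7) (.nd (nat_lit 21) 
(.lf (nat_lit 39463280) (dlOf (nat_lit 1) (nat_lit 0x20029194e81))) 
(.lf (nat_lit 33171824) (dlOf (nat_lit 1) (nat_lit 0x120028f54e81)))) 
(.lf (nat_lit 39463408) (dlOf (nat_lit 1) (nat_lit 0x120029194f01)))) (.nd (nat_lit 22) 
(.lf (nat_lit 37628272) (dlOf (nat_lit 1) (nat_lit 0x200090d4e81))) 
(.lf (nat_lit 41822576) (dlOf (nat_lit 1) (nat_lit 0x80019244e81)))))))))) (.nd (nat_lit 8) 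
(.nd (nat_lit 4) (.nd (nat_lit 19) (.nd (nat_lit 27) (.nd (nat_lit 18) (.nd (nat_lit 30) 
(.nd (nat_lit 6) (.nd (nat_lit 23) 
(.lf (nat_lit 52633632) (dlOf (nat_lit 2) (nat_lit 0xba880009c5c000380400020029560681))) 
(.lf (nat_lit 44245024) (dlOf (nat_lit 1) (nat_lit 0x200292e0101)))) (.nd (nat_lit 7) 
(.lf (nat_lit 44245088) (dlOf (nat_lit 1) (nat_lit 0x44002000200092e0782))) 
(.lf (nat_lit 6509767904) (dlOf (nat_lit 1) (nat_lit 0x20028146501))))) (.nd (nat_lit 7) 
(.nd (nat_lit 10) (.lf (nat_lit 6174220320) (dlOf (nat_lit 1) (nat_lit 0x1c00400160008090102))) 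
(.lf (nat_lit 3758306336) (dlOf (nat_lit 1) (nat_lit 0x10008000400200020008129203)))) 
(.nd (nat_lit 6) (.lf (nat_lit 3556978848) (dlOf (nat_lit 1) (nat_lit 0x400400020008127d82))) 
(.lf (nat_lit 3556980960) (dlOf (nat_lit 1) (nat_lit 0x1d0008023c0020114000812a883)))))) 
(.nd (nat_lit 22) (.nd (nat_lit 20) 
(.lf (nat_lit 4362543136) (dlOf (nat_lit 1) (nat_lit 0x1c004000a0018090002))) 
(.lf (nat_lit 9904160) (dlOf (nat_lit 1) (nat_lit 0x400200020008590702)))) (.nd (nat_lit 6) 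
(.nd (nat_lit 7) (.lf (nat_lit 21438496) (dlOf (nat_lit 1) (nat_lit 0x88002004c0008a40102))) 
(.lf (nat_lit 23535776) (dlOf (nat_lit 1) (nat_lit 0x4004002e0008b80202)))) 
(.lf (nat_lit 21438560) (dlOf (nat_lit 1) (nat_lit 0x4000400080008a40782)))))) (.nd (nat_lit 9) 
(.nd (nat_lit 30) (.nd (nat_lit 7) (.nd (nat_lit 18) 
(.lf (nat_lit 4496498720) (dlOf (nat_lit 1) (nat_lit 0xa000800b400200720008090103))) 
(.lf (nat_lit 471277600) (dlOf (nat_lit 1) (nat_lit 0x80080004002000200082e0003)))) 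
(.lf (nat_lit 2818781344) (dlOf (nat_lit 1) (nat_lit 0x400400020008127d82)))) (.nd (nat_lit 6) 
(.nd (nat_lit 18) (.lf (nat_lit 5570240544) (dlOf (nat_lit 1) (nat_lit 0x1c00400160008090102))) 
(.lf (nat_lit 3892781088) (dlOf (nat_lit 2) (nat_lit 0xc0190026a018260680)))) 
(.lf (nat_lit 1275273440) (dlOf (nat_lit 1) (nat_lit 0x2800180c1a81))))) (.nd (nat_lit 10) 
(.nd (nat_lit 12) (.lf (nat_lit 2550342176) (dlOf (nat_lit 1) (nat_lit 0x140008090d81))) 
(.lf (nat_lit 2818781728) (dlOf (nat_lit 1) (nat_lit 0x13c0028128801)))) (.nd (nat_lit 6) 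
(.nd (nat_lit 7) (.lf (nat_lit 2818784800) (dlOf (nat_lit 1) (nat_lit 0x2e002812cf81))) 
(.lf (nat_lit 3422762656) (dlOf (nat_lit 1) (nat_lit 0x9600280a9f81)))) 
(.lf (nat_lit 3422762592) (dlOf (nat_lit 2) (nat_lit 0xa03300130190029a41002400080094002005e00080a9c03))))))) 
(.nd (nat_lit 18) (.nd (nat_lit 26) (.nd (nat_lit 20) (.nd (nat_lit 6) (.nd (nat_lit 21) 
(.lf (nat_lit 134946848) (dlOf (nat_lit 4) (nat_lit 0x602d0006013000080000021d0600360000010101001b0000000000800b00080044002010200080e0483))) 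
(.lf (nat_lit 27992096) (dlOf (nat_lit 1) (nat_lit 0x18008000800200120008d50603)))) 
(.lf (nat_lit 9117920) (dlOf (nat_lit 1) (nat_lit 0xe0028524201)))) (.nd (nat_lit 10) 
(.lf (nat_lit 60497952) (dlOf (nat_lit 1) (nat_lit 0x20029880101))) 
(.lf (nat_lit 54209568) (dlOf (nat_lit 1) (nat_lit 0x8008000400200020009656003))))) 
(.nd (nat_lit 27) (.nd (nat_lit 20) 
(.lf (nat_lit 4362805280) (dlOf (nat_lit 10) (nat_lit 0x4c033000d68102850198006740805980cc0033604003c08200099020056052016502300ed80cc001300c059408c00120330004b82008c0230002540804c011c00074040988066000000201a20008100481))) 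
(.lf (nat_lit 4095418400) (dlOf (nat_lit 2) (nat_lit 0xa03a00004c080010008001c002000c00080b0b03)))) 
(.nd (nat_lit 21) (.nd (nat_lit 28) 
(.lf (nat_lit 202055712) (dlOf (nat_lit 4) (nat_lit 0x602d800601300008000002210600360000010101001b0000000000800b00080044002010200080e0483))) 
(.lf (nat_lit 4228587552) (dlOf (nat_lit 10) (nat_lit 0x4c032000d401028501900066c0805980c80033204003c0740009902005604b016501f80ed80c8001300c059407e00120320004b82008c01f8002540804c01000006a040988064000000201a20008100481)))) 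
(.lf (nat_lit 472588320) (dlOf (nat_lit 1) (nat_lit 0x400289c0181)))))) (.nd (nat_lit 20) 
(.nd (nat_lit 9) (.nd (nat_lit 11) 
(.lf (nat_lit 9379872) (dlOf (nat_lit 1) (nat_lit 0x980018550501))) 
(.lf (nat_lit 3492751392) (dlOf (nat_lit 2) (nat_lit 0x3807400000040008004000200080f4702)))) 
(.nd (nat_lit 6) (.lf (nat_lit 3490652704) (dlOf (nat_lit 1) (nat_lit 0x20018017f01))) 
(.lf (nat_lit 19869280) (dlOf (nat_lit 1) (nat_lit 0x4000289d7181))))) (.nd (nat_lit 22) 
(.nd (nat_lit 6) 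
(.lf (nat_lit 20914208) (dlOf (nat_lit 3) (nat_lit 0x240000001140803f00000007c040050002000600089f0182))) 
(.lf (nat_lit 473899104) (dlOf (nat_lit 2) (nat_lit 0x1901b2000000200360008fc0901)))) 
(.nd (nat_lit 21) 
(.lf (nat_lit 23011360) (dlOf (nat_lit 3) (nat_lit 0x1009d0001c80807c80000007e04000400200160008b40502))) 
(.lf (nat_lit 16719904) (dlOf (nat_lit 1) (nat_lit 0x480080014002000800088d0683)))))))) 
(.nd (nat_lit 18) (.nd (nat_lit 26) (.nd (nat_lit 9) (.nd (nat_lit 19) (.nd (nat_lit 7) 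
(.nd (nat_lit 23) (.nd (nat_lit 28) 
(.lf (nat_lit 134422576) (dlOf (nat_lit 2) (nat_lit 0x2b4094000200200020018020581))) 
(.lf (nat_lit 939728944) (dlOf (nat_lit 2) (nat_lit 0x5000b0001a818160580)))) (.nd (nat_lit 6) 
(.lf (nat_lit 30613552) (dlOf (nat_lit 1) (nat_lit 0x300028e40e81))) 
(.lf (nat_lit 44245104) (dlOf (nat_lit 5) (nat_lit 0x663e00023138000141000298f80010c4e0000404001263e000a31380000c1000398f80024c4e0000204000800292e0d01))))) 
(.nd (nat_lit 6) (.nd (nat_lit 10) 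
(.lf (nat_lit 2147688624) (dlOf (nat_lit 1) (nat_lit 0x2800180c1601))) 
(.lf (nat_lit 3489868976) (dlOf (nat_lit 2) (nat_lit 0x41a300016018006280)))) 
(.lf (nat_lit 8595696) (dlOf (nat_lit 1) (nat_lit 0x60018514b81))))) (.nd (nat_lit 6) 
(.nd (nat_lit 20) (.nd (nat_lit 21) 
(.lf (nat_lit 134946864) (dlOf (nat_lit 6) (nat_lit 0x3e03c0002201001400500010808018017401600b8069004c027a013819f0024065c01007cc0000001687004f02e800c8130000580800280ba00017020fa200180e0681))) 
(.lf (nat_lit 3492487216) (dlOf (nat_lit 1) (nat_lit 0x1200080d0b01)))) 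
(.lf (nat_lit 22749232) (dlOf (nat_lit 4) (nat_lit 0x75820002ab7800155b400165060004b04000b201000658200058c082858008021c002014c0008b20d83)))) 
(.nd (nat_lit 7) (.lf (nat_lit 731248) (dlOf (nat_lit 1) (nat_lit 0x8008000800200020008004783))) 
(.lf (nat_lit 1611342064) (dlOf (nat_lit 2) (nat_lit 0x5c0ae0144a02000c0018131e81)))))) 
(.nd (nat_lit 11) (.nd (nat_lit 12) (.nd (nat_lit 19) 
(.lf (nat_lit 11739696) (dlOf (nat_lit 1) (nat_lit 0x200086c0f01))) 
(.lf (nat_lit 3491439152) (dlOf (nat_lit 2) (nat_lit 0x800000000c04007c00200080008090f02)))) 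
(.nd (nat_lit 6) (.lf (nat_lit 2818781872) (dlOf (nat_lit 1) (nat_lit 0x400200020008128c82))) 
(.lf (nat_lit 20132464) (dlOf (nat_lit 1) (nat_lit 0x200189d8981))))) (.nd (nat_lit 6) 
(.nd (nat_lit 7) (.lf (nat_lit 5771569712) (dlOf (nat_lit 1) (nat_lit 0x400400020008005182))) 
(.lf (nat_lit 805514928) (dlOf (nat_lit 2) (nat_lit 0x80000000a0200020018117281)))) 
(.nd (nat_lit 7) (.lf (nat_lit 3892525680) (dlOf (nat_lit 1) (nat_lit 0x8001815b681))) 
(.lf (nat_lit 20658928) (dlOf (nat_lit 1) (nat_lit 0x80080004002000200089db983))))))) 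
(.nd (nat_lit 29) (.nd (nat_lit 27) (.nd (nat_lit 7) 
(.lf (nat_lit 4362805296) (dlOf (nat_lit 2) (nat_lit 0x81400001c04001400400480008100682))) 
(.nd (nat_lit 11) (.lf (nat_lit 3556979376) (dlOf (nat_lit 1) (nat_lit 0x400200020008128c82))) 
(.lf (nat_lit 3556981424) (dlOf (nat_lit 1) (nat_lit 0x2e002812b801))))) (.nd (nat_lit 19) 
(.nd (nat_lit 32) 
(.lf (nat_lit 201531440) (dlOf (nat_lit 2) (nat_lit 0x2b4094000200200020018020581))) 
(.lf (nat_lit 4496498736) (dlOf (nat_lit 2) (nat_lit 0xb900e0029006c0418034002c0180098005800080280038008006c002004e0008090383)))) 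
(.lf (nat_lit 202055728) (dlOf (nat_lit 6) (nat_lit 0x3e03c000220100140050001080802c017400c00b4069004c027a013819f0024065c01007cc0000001687004f02d000c8130000580800280b400017020fa200180e0681))))) 
(.nd (nat_lit 19) (.nd (nat_lit 10) (.nd (nat_lit 27) 
(.lf (nat_lit 604184624) (dlOf (nat_lit 1) (nat_lit 0x180008035800200860008080703))) 
(.lf (nat_lit 1812144176) (dlOf (nat_lit 2) (nat_lit 0x5000b0001a818160580)))) (.nd (nat_lit 6) 
(.lf (nat_lit 3020108848) (dlOf (nat_lit 1) (nat_lit 0x10008000400200020008129203))) 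
(.lf (nat_lit 2751670000) (dlOf (nat_lit 1) (nat_lit 0x20028003b01))))) (.nd (nat_lit 9) 
(.nd (nat_lit 21) 
(.lf (nat_lit 4228587568) (dlOf (nat_lit 2) (nat_lit 0x81240001c04001400400480008100682))) 
(.lf (nat_lit 2754289712) (dlOf (nat_lit 1) (nat_lit 0x1200080d0b01)))) 
(.lf (nat_lit 2753241648) (dlOf (nat_lit 2) (nat_lit 0x800000000c04007c00200080008090f02))))))) 
(.nd (nat_lit 19) (.nd (nat_lit 26) (.nd (nat_lit 22) (.nd (nat_lit 28) (.nd (nat_lit 7) 
(.lf (nat_lit 6442917936) (dlOf (nat_lit 1) (nat_lit 0x500008220b01))) 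
(.lf (nat_lit 12001456) (dlOf (nat_lit 1) (nat_lit 0x4004000200086c0302)))) (.nd (nat_lit 27) 
(.nd (nat_lit 30) (.lf (nat_lit 805773360) (dlOf (nat_lit 1) (nat_lit 0x4004000200181a0002))) 
(.lf (nat_lit 1879515184) (dlOf (nat_lit 1) (nat_lit 0x5800800a400200420008190483)))) 
(.lf (nat_lit 3624345648) (dlOf (nat_lit 1) (nat_lit 0x20018170c81))))) (.nd (nat_lit 6) 
(.nd (nat_lit 20) 
(.lf (nat_lit 15147056) (dlOf (nat_lit 6) (nat_lit 0x20d0c805400000006e0800380000003602001e0000001a81000c0000000d00800300000000004000c004005200187c0702))) 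
(.lf (nat_lit 30875696) (dlOf (nat_lit 1) (nat_lit 0x20018e50b81)))) (.nd (nat_lit 25) 
(.lf (nat_lit 21438576) (dlOf (nat_lit 1) (nat_lit 0x400200020008a40d02))) 
(.lf (nat_lit 54993008) (dlOf (nat_lit 1) (nat_lit 0x240019680a81)))))) (.nd (nat_lit 27) 
(.nd (nat_lit 20) (.lf (nat_lit 67575856) (dlOf (nat_lit 2) (nat_lit 0x40000002402000c0008220801))) 
(.lf (nat_lit 2752978992) (dlOf (nat_lit 1) (nat_lit 0x19c00400360008070882)))) (.nd (nat_lit 28) 
(.lf (nat_lit 2886148144) (dlOf (nat_lit 1) (nat_lit 0x20018170c81))) (.nd (nat_lit 29) 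
(.lf (nat_lit 5838938160) (dlOf (nat_lit 1) (nat_lit 0x500008220b01))) 
(.lf (nat_lit 4228325424) (dlOf (nat_lit 1) (nat_lit 0x4200080004002004a0008090003))))))) 
(.nd (nat_lit 20) (.nd (nat_lit 6) (.nd (nat_lit 24) 
(.lf (nat_lit 4096729136) (dlOf (nat_lit 1) (nat_lit 0x20008160601))) 
(.lf (nat_lit 53420080) (dlOf (nat_lit 1) (nat_lit 0x4004000200095c0d02)))) (.nd (nat_lit 7) 
(.lf (nat_lit 3492751472) (dlOf (nat_lit 1) (nat_lit 0x980080018002000800080f4783))) 
(.lf (nat_lit 19870448) (dlOf (nat_lit 1) (nat_lit 0x400189d8e81))))) (.nd (nat_lit 7) 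
(.nd (nat_lit 21) (.nd (nat_lit 22) 
(.lf (nat_lit 10428464) (dlOf (nat_lit 1) (nat_lit 0x100002002a00085d0702))) 
(.lf (nat_lit 23011376) (dlOf (nat_lit 1) (nat_lit 0x40028b40d81)))) 
(.lf (nat_lit 25108528) (dlOf (nat_lit 1) (nat_lit 0xd0008008400200480008be0e83)))) 
(.nd (nat_lit 6) (.lf (nat_lit 41886896) (dlOf (nat_lit 1) (nat_lit 0x400400060009242c02))) 
(.lf (nat_lit 39791344) (dlOf (nat_lit 1) (nat_lit 0xae00191f5a01))))))))) (.nd (nat_lit 18) 
(.nd (nat_lit 31) (.nd (nat_lit 7) (.nd (nat_lit 23) (.nd (nat_lit 26) (.nd (nat_lit 4) 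
(.lf (nat_lit 268642656) (dlOf (nat_lit 1) (nat_lit 0x200280e4e81))) (.nd (nat_lit 24) 
(.lf (nat_lit 37431664) (dlOf (nat_lit 1) (nat_lit 0x154002005000090d4e82))) 
(.lf (nat_lit 54208880) (dlOf (nat_lit 1) (nat_lit 0x4e0009654e81))))) (.nd (nat_lit 32) 
(.nd (nat_lit 4) (.lf (nat_lit 1409494368) (dlOf (nat_lit 1) (nat_lit 0x20028006a81))) 
(.lf (nat_lit 1409493360) (dlOf (nat_lit 1) (nat_lit 0x20028004e81)))) (.nd (nat_lit 27) 
(.lf (nat_lit 4630718832) (dlOf (nat_lit 1) (nat_lit 0x800400020008094e82))) 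
(.lf (nat_lit 6107113840) (dlOf (nat_lit 1) (nat_lit 0x400400020008094e82)))))) (.nd (nat_lit 9) 
(.nd (nat_lit 19) (.lf (nat_lit 58927472) (dlOf (nat_lit 1) (nat_lit 0x4002000200097e4e82))) 
(.lf (nat_lit 32188784) (dlOf (nat_lit 1) (nat_lit 0x800400040018ef4e82)))) (.nd (nat_lit 4) 
(.lf (nat_lit 8599392) (dlOf (nat_lit 1) (nat_lit 0x40020002000851a302))) 
(.lf (nat_lit 8599408) (dlOf (nat_lit 1) (nat_lit 0x2001851a301)))))) (.nd (nat_lit 9) 
(.nd (nat_lit 6) (.nd (nat_lit 11) 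
(.lf (nat_lit 6378168752) (dlOf (nat_lit 1) (nat_lit 0x18008001400200020008116e83))) 
(.nd (nat_lit 23) (.lf (nat_lit 1208166832) (dlOf (nat_lit 1) (nat_lit 0x400400020008094e82))) 
(.lf (nat_lit 58927536) (dlOf (nat_lit 1) (nat_lit 0xc002000200097e4e82))))) (.nd (nat_lit 10) 
(.lf (nat_lit 474161648) (dlOf (nat_lit 15) (nat_lit 0x1d09180009e04004c48c0004e02006c2460002601000f0a90002053c000900800442a4000a14f0002382000f0a90001853c0008808003c2a4000814f0002182001f0a90016853c00841ea0004206001624600020a90005853c000800c003c2a4002a14f0001f02000b12300010548002829e000380600542460001b8100361230000d4080040918000680400a8004002600090e1382))) 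
(.lf (nat_lit 8070640) (dlOf (nat_lit 1) (nat_lit 0x400200020008513602))))) (.nd (nat_lit 4) 
(.nd (nat_lit 6) (.nd (nat_lit 10) 
(.lf (nat_lit 1141058464) (dlOf (nat_lit 5) (nat_lit 0x810098000c204042804c000600200c20260002f81006801300000008016000800ac00200320008095c83))) 
(.lf (nat_lit 5905786784) (dlOf (nat_lit 1) (nat_lit 0x1d40028144281)))) 
(.lf (nat_lit 57877472) (dlOf (nat_lit 1) (nat_lit 0x80008004c002001a0009792883)))) 
(.nd (nat_lit 6) (.lf (nat_lit 5905786800) (dlOf (nat_lit 1) (nat_lit 0x120018144381))) 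
(.lf (nat_lit 1141058544) (dlOf (nat_lit 6) (nat_lit 0x1d0130001180806f80980008004035404c0003f02011c0260001f0100860130000f4080020008001c00200260008095f03))))))) 
(.nd (nat_lit 29) (.nd (nat_lit 6) (.nd (nat_lit 4) (.nd (nat_lit 7) 
(.lf (nat_lit 3489869088) (dlOf (nat_lit 1) (nat_lit 0x400400060008006782))) 
(.lf (nat_lit 3422761888) (dlOf (nat_lit 3) (nat_lit 0x380ec0008072000c037000301a800180c0001804e001110c000c03b000201800042010000800800a4002002e00080a9103)))) 
(.nd (nat_lit 7) 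
(.lf (nat_lit 3221433648) (dlOf (nat_lit 2) (nat_lit 0x180000002302002e0028116881))) 
(.nd (nat_lit 9) (.lf (nat_lit 3556979120) (dlOf (nat_lit 1) (nat_lit 0xc00200020008128482))) 
(.lf (nat_lit 3355653040) (dlOf (nat_lit 1) (nat_lit 0x1c00280a9181)))))) (.nd (nat_lit 4) 
(.nd (nat_lit 7) (.lf (nat_lit 3556978528) (dlOf (nat_lit 1) (nat_lit 0x2000400060008127782))) 
(.lf (nat_lit 3489869280) (dlOf (nat_lit 1) (nat_lit 0x8008000400200020008006e03)))) 
(.nd (nat_lit 7) (.lf (nat_lit 3221432688) (dlOf (nat_lit 1) (nat_lit 0x20028114e81))) 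
(.nd (nat_lit 9) 
(.lf (nat_lit 3489869296) (dlOf (nat_lit 1) (nat_lit 0x380080004002001a0008006f03))) 
(.lf (nat_lit 3493012464) (dlOf (nat_lit 1) (nat_lit 0x4002000200080f2882))))))) (.nd (nat_lit 11) 
(.nd (nat_lit 4) (.nd (nat_lit 6) 
(.lf (nat_lit 3825410464) (dlOf (nat_lit 2) (nat_lit 0x3a00b00231818156b80))) 
(.lf (nat_lit 2751670112) (dlOf (nat_lit 1) (nat_lit 0x400400020008003f82)))) (.nd (nat_lit 6) 
(.lf (nat_lit 2684564272) (dlOf (nat_lit 1) (nat_lit 0xf0002000800080a8f82))) (.nd (nat_lit 7) 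
(.lf (nat_lit 2753241456) (dlOf (nat_lit 2) (nat_lit 0x110738033b8080030008004400200020008090783))) 
(.lf (nat_lit 4160959984) (dlOf (nat_lit 1) (nat_lit 0x280080018002001400080a9c03)))))) 
(.nd (nat_lit 4) (.nd (nat_lit 6) 
(.lf (nat_lit 2885888288) (dlOf (nat_lit 1) (nat_lit 0x40008144b81))) 
(.lf (nat_lit 2818784224) (dlOf (nat_lit 2) (nat_lit 0x400d80096204007c0040008000812bf02)))) 
(.nd (nat_lit 6) (.lf (nat_lit 2818784560) (dlOf (nat_lit 1) (nat_lit 0x2c0020004000812c702))) 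
(.nd (nat_lit 19) (.lf (nat_lit 4094896496) (dlOf (nat_lit 1) (nat_lit 0x20028054e81))) 
(.lf (nat_lit 4094372208) (dlOf (nat_lit 1) (nat_lit 0x800400020008054e82))))))))) 
(.nd (nat_lit 19) (.nd (nat_lit 30) (.nd (nat_lit 6) (.nd (nat_lit 7) (.nd (nat_lit 20) 
(.nd (nat_lit 26) (.lf (nat_lit 805773616) (dlOf (nat_lit 1) (nat_lit 0x600281a0501))) 
(.lf (nat_lit 4362543408) (dlOf (nat_lit 2) (nat_lit 0xc200000021818090500)))) 
(.lf (nat_lit 2755076400) (dlOf (nat_lit 1) (nat_lit 0x380018104901)))) (.nd (nat_lit 4) 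
(.lf (nat_lit 472328608) (dlOf (nat_lit 1) (nat_lit 0x10008001000200040008984e83))) 
(.lf (nat_lit 52897200) (dlOf (nat_lit 1) (nat_lit 0x60029573601))))) (.nd (nat_lit 4) 
(.nd (nat_lit 10) (.nd (nat_lit 11) 
(.lf (nat_lit 23535968) (dlOf (nat_lit 1) (nat_lit 0x38008002800200260008b80683))) 
(.lf (nat_lit 57092448) (dlOf (nat_lit 1) (nat_lit 0xa0029794e81)))) 
(.lf (nat_lit 57091424) (dlOf (nat_lit 1) (nat_lit 0x240029793401)))) (.nd (nat_lit 20) 
(.lf (nat_lit 474425712) (dlOf (nat_lit 1) (nat_lit 0x400200040009164e82))) 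
(.lf (nat_lit 53946736) (dlOf (nat_lit 1) (nat_lit 0x80080038002000200095f4e83)))))) 
(.nd (nat_lit 26) (.nd (nat_lit 11) (.nd (nat_lit 4) 
(.lf (nat_lit 3493273952) (dlOf (nat_lit 1) (nat_lit 0x400400020018104f02))) (.nd (nat_lit 6) 
(.lf (nat_lit 3493273904) (dlOf (nat_lit 1) (nat_lit 0x380018104901))) 
(.lf (nat_lit 3221692784) (dlOf (nat_lit 1) (nat_lit 0x1d0008002c002002e0008170783))))) 
(.nd (nat_lit 6) (.lf (nat_lit 3490130352) (dlOf (nat_lit 1) (nat_lit 0x20028004e81))) 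
(.nd (nat_lit 29) (.lf (nat_lit 3490130288) (dlOf (nat_lit 1) (nat_lit 0x400400020018004e82))) 
(.lf (nat_lit 4027001200) (dlOf (nat_lit 1) (nat_lit 0x200180f4e81)))))) (.nd (nat_lit 6) 
(.nd (nat_lit 4) 
(.lf (nat_lit 6375810464) (dlOf (nat_lit 1) (nat_lit 0x3e0008036c00201e80008003603))) 
(.lf (nat_lit 4228325680) (dlOf (nat_lit 1) (nat_lit 0x60028090501)))) (.nd (nat_lit 7) 
(.nd (nat_lit 11) 
(.lf (nat_lit 3959890288) (dlOf (nat_lit 3) (nat_lit 0x1a015801c2c04005c00000cee02000c0018170781))) 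
(.lf (nat_lit 6376860016) (dlOf (nat_lit 1) (nat_lit 0x400400020008094e82)))) 
(.lf (nat_lit 2080842736) (dlOf (nat_lit 1) (nat_lit 0x4002000200080e2882))))))) (.nd (nat_lit 6) 
(.nd (nat_lit 20) (.nd (nat_lit 4) (.nd (nat_lit 7) 
(.lf (nat_lit 3492751136) (dlOf (nat_lit 1) (nat_lit 0x4200080f3d01))) 
(.lf (nat_lit 3490652576) (dlOf (nat_lit 1) (nat_lit 0x400200020008016b82)))) (.nd (nat_lit 7) 
(.nd (nat_lit 9) 
(.lf (nat_lit 6376333616) (dlOf (nat_lit 2) (nat_lit 0x48240000360200c00008090b01))) 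
(.lf (nat_lit 19869488) (dlOf (nat_lit 1) (nat_lit 0x800289d7481)))) 
(.lf (nat_lit 19870128) (dlOf (nat_lit 1) (nat_lit 0x400089d8481))))) (.nd (nat_lit 4) 
(.lf (nat_lit 8332704) (dlOf (nat_lit 1) (nat_lit 0x400200020008513602))) (.nd (nat_lit 9) 
(.nd (nat_lit 21) (.lf (nat_lit 43984304) (dlOf (nat_lit 1) (nat_lit 0x18002000200092a3602))) 
(.lf (nat_lit 8332720) (dlOf (nat_lit 2) (nat_lit 0x5d3100047018513600)))) 
(.lf (nat_lit 8333232) (dlOf (nat_lit 1) (nat_lit 0x40018514381)))))) (.nd (nat_lit 7) 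
(.nd (nat_lit 4) (.nd (nat_lit 11) (.nd (nat_lit 24) 
(.lf (nat_lit 3088736) (dlOf (nat_lit 1) (nat_lit 0x20028200681))) 
(.lf (nat_lit 19865952) (dlOf (nat_lit 1) (nat_lit 0x3800089d0e01)))) 
(.lf (nat_lit 2754554208) (dlOf (nat_lit 1) (nat_lit 0x4004000200080f4e82)))) (.nd (nat_lit 20) 
(.lf (nat_lit 57616752) (dlOf (nat_lit 1) (nat_lit 0x400400020009794e82))) (.nd (nat_lit 21) 
(.lf (nat_lit 1008675184) (dlOf (nat_lit 1) (nat_lit 0x8008000400200020008ef4e83))) 
(.lf (nat_lit 54471024) (dlOf (nat_lit 1) (nat_lit 0x8008000400200020009654e83)))))) 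
(.nd (nat_lit 9) (.nd (nat_lit 10) 
(.lf (nat_lit 1346316784) (dlOf (nat_lit 1) (nat_lit 0x1400200080008f04f02))) 
(.lf (nat_lit 8332784) (dlOf (nat_lit 1) (nat_lit 0x400200020008513602)))) (.nd (nat_lit 4) 
(.lf (nat_lit 3492751328) (dlOf (nat_lit 2) (nat_lit 0x300e8000500800b8008001c002000a00080f4583))) 
(.nd (nat_lit 10) (.lf (nat_lit 41886704) (dlOf (nat_lit 1) (nat_lit 0x100019242881))) 
(.lf (nat_lit 3492751344) (dlOf (nat_lit 2) (nat_lit 0x40120000b00800b00080004002003000080f4603)))))))))))))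

end

end Pool.Agent.Lib.MP_5854e1_co.Cz

namespace Pool.Agent.Lib.MP_5854e1_co.Cz

noncomputable section

noncomputable def tz06 : DT := (.nd (nat_lit 13) (.nd (nat_lit 4) (.nd (nat_lit 28) 
(.nd (nat_lit 18) (.nd (nat_lit 6) (.nd (nat_lit 19) (.nd (nat_lit 8) (.nd (nat_lit 23) 
(.nd (nat_lit 10) (.nd (nat_lit 26) (.nd (nat_lit 9) 
(.lf (nat_lit 2684518432) (dlOf (nat_lit 1) (nat_lit 0x20028080501))) 
(.lf (nat_lit 134382112) (dlOf (nat_lit 1) (nat_lit 0x400400020008017f02)))) (.nd (nat_lit 27) 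
(.lf (nat_lit 5435981856) (dlOf (nat_lit 1) (nat_lit 0x8008003c002001e0008090003))) 
(.lf (nat_lit 6107070496) (dlOf (nat_lit 1) (nat_lit 0x7c00080004002009c0008050703))))) 
(.nd (nat_lit 7) (.nd (nat_lit 9) 
(.lf (nat_lit 201360416) (dlOf (nat_lit 2) (nat_lit 0x12808c006e02f00af0028002880))) 
(.lf (nat_lit 2147517984) (dlOf (nat_lit 3) (nat_lit 0xc005000300000003c1000300140000004000800400200018003702)))) 
(.lf (nat_lit 1610777760) (dlOf (nat_lit 1) (nat_lit 0x400400020008092b82))))) (.nd (nat_lit 22) 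
(.nd (nat_lit 7) (.lf (nat_lit 27426848) (dlOf (nat_lit 1) (nat_lit 0x800200040008ce0482))) 
(.lf (nat_lit 44204192) (dlOf (nat_lit 1) (nat_lit 0x18004001400092d1302)))) (.nd (nat_lit 17) 
(.lf (nat_lit 29392928) (dlOf (nat_lit 1) (nat_lit 0x84004000c0018e00682))) 
(.lf (nat_lit 14843936) (dlOf (nat_lit 3) (nat_lit 0x26340000c01000a2bc000050080030008001000200180008780603)))))) 
(.nd (nat_lit 7) (.nd (nat_lit 10) (.nd (nat_lit 20) 
(.lf (nat_lit 6442615072) (dlOf (nat_lit 1) (nat_lit 0x18008000400200020008104203))) 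
(.lf (nat_lit 41058592) (dlOf (nat_lit 1) (nat_lit 0x1000400020009218002)))) 
(.lf (nat_lit 3422590240) (dlOf (nat_lit 1) (nat_lit 0x400400020018009782)))) (.nd (nat_lit 12) 
(.nd (nat_lit 9) (.lf (nat_lit 4362240416) (dlOf (nat_lit 1) (nat_lit 0x1c004000a0008016b82))) 
(.lf (nat_lit 20089760) (dlOf (nat_lit 1) (nat_lit 0x4004000800189d5c82)))) (.nd (nat_lit 20) 
(.lf (nat_lit 3355612064) (dlOf (nat_lit 1) (nat_lit 0x480080034002002a00080a9103))) 
(.lf (nat_lit 20091808) (dlOf (nat_lit 1) (nat_lit 0x3f8008038400201a000089d9103))))))) 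
(.nd (nat_lit 21) (.nd (nat_lit 17) (.nd (nat_lit 22) (.nd (nat_lit 26) 
(.lf (nat_lit 3221782560) (dlOf (nat_lit 1) (nat_lit 0xa0008180901))) 
(.lf (nat_lit 3959980064) (dlOf (nat_lit 1) (nat_lit 0xa0008180901)))) 
(.lf (nat_lit 21528608) (dlOf (nat_lit 2) (nat_lit 0x580000007604001c002000c0008a40102)))) 
(.nd (nat_lit 26) (.nd (nat_lit 27) 
(.lf (nat_lit 3221913632) (dlOf (nat_lit 8) (nat_lit 0x2c07000120160010e82002701780240050003d808010405c001e702007802e000bf010017017801e00b8002f608002805e007e02e000bc820008017800000080320008000400200c000081b0483))) 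
(.lf (nat_lit 2819260448) (dlOf (nat_lit 1) (nat_lit 0x6c004000e0018210482)))) (.nd (nat_lit 27) 
(.lf (nat_lit 1678409760) (dlOf (nat_lit 8) (nat_lit 0x27c0ac001d3020140056000d781005d02b0006ac0805901580033a0402840ac0019b020144056000bf01006202b000000080088008003000200160008210483))) 
(.lf (nat_lit 3960111136) (dlOf (nat_lit 8) (nat_lit 0x2c07000120160011082002701780240050003d808010405c001e702007802e000c2810017017801e00b80030008002805e007e02e000bf020008017800000080320008000400200c000081b0483)))))) 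
(.nd (nat_lit 20) (.nd (nat_lit 17) 
(.lf (nat_lit 2754117664) (dlOf (nat_lit 1) (nat_lit 0x18008008c002000e00080c0b03))) 
(.nd (nat_lit 22) (.lf (nat_lit 11173920) (dlOf (nat_lit 1) (nat_lit 0x20028670481))) 
(.lf (nat_lit 15368224) (dlOf (nat_lit 1) (nat_lit 0x200187e0601))))) (.nd (nat_lit 7) 
(.nd (nat_lit 9) 
(.lf (nat_lit 24805408) (dlOf (nat_lit 4) (nat_lit 0x12bce00085db8000c0100032f38001976e0002e040010bce00010818bb0700))) 
(.lf (nat_lit 8029728) (dlOf (nat_lit 1) (nat_lit 0x240018513701)))) 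
(.lf (nat_lit 37259680) (dlOf (nat_lit 1) (nat_lit 0x2c00090d4e81))))))) (.nd (nat_lit 8) 
(.nd (nat_lit 19) (.nd (nat_lit 7) (.nd (nat_lit 21) (.nd (nat_lit 9) 
(.lf (nat_lit 33888) (dlOf (nat_lit 1) (nat_lit 0x520018002901))) 
(.lf (nat_lit 5435984480) (dlOf (nat_lit 1) (nat_lit 0x44004003c0008095382)))) (.nd (nat_lit 20) 
(.lf (nat_lit 69369952) (dlOf (nat_lit 1) (nat_lit 0x7a0028940901))) 
(.lf (nat_lit 24281184) (dlOf (nat_lit 2) (nat_lit 0x3a9836000cabe00e855b007725d8021d2e6000100a00160018b91301))))) 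
(.nd (nat_lit 11) (.nd (nat_lit 20) 
(.lf (nat_lit 44204256) (dlOf (nat_lit 1) (nat_lit 0x200192d1a81))) 
(.lf (nat_lit 9601248) (dlOf (nat_lit 1) (nat_lit 0x20008571a81)))) 
(.lf (nat_lit 4362111200) (dlOf (nat_lit 2) (nat_lit 0x90290000b0080028008006c002001a0008004a83))))) 
(.nd (nat_lit 10) (.nd (nat_lit 17) (.nd (nat_lit 20) 
(.lf (nat_lit 3221782624) (dlOf (nat_lit 4) (nat_lit 0x17c08a000140201ea046002e02180148100008c0700056016000098500080218000440802f00080248002001e0008181303))) 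
(.lf (nat_lit 3702880) (dlOf (nat_lit 2) (nat_lit 0x24b200010000000401001e0008005c00200920008211303)))) 
(.lf (nat_lit 537559136) (dlOf (nat_lit 2) (nat_lit 0x1101ac00048040088002000800080a1282)))) 
(.nd (nat_lit 7) (.lf (nat_lit 55215200) (dlOf (nat_lit 1) (nat_lit 0x3600196d2901))) 
(.lf (nat_lit 691424) (dlOf (nat_lit 1) (nat_lit 0xa80080114002000a0008006503)))))) 
(.nd (nat_lit 9) (.nd (nat_lit 11) (.nd (nat_lit 17) 
(.lf (nat_lit 23626080) (dlOf (nat_lit 3) (nat_lit 0x32f50004977a001cba5000d5a2800158200082f50004977a0020ba500105a280004c2000f0008002000200120008b80683))) 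
(.lf (nat_lit 4362240352) (dlOf (nat_lit 1) (nat_lit 0x20018014f01)))) (.nd (nat_lit 7) 
(.nd (nat_lit 17) (.lf (nat_lit 19958112) (dlOf (nat_lit 1) (nat_lit 0x4002000200089d4e82))) 
(.lf (nat_lit 5435984224) (dlOf (nat_lit 2) (nat_lit 0x1004401b8c04000800200020008094e82)))) 
(.lf (nat_lit 201365984) (dlOf (nat_lit 2) (nat_lit 0x101b0029d008022800801f00020148000800b283))))) 
(.nd (nat_lit 7) (.nd (nat_lit 10) 
(.lf (nat_lit 5972728672) (dlOf (nat_lit 1) (nat_lit 0x2c001800bc81))) 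
(.lf (nat_lit 2751629152) (dlOf (nat_lit 1) (nat_lit 0x10008000400200060008003f83)))) 
(.nd (nat_lit 11) 
(.lf (nat_lit 3221264352) (dlOf (nat_lit 2) (nat_lit 0x28028000000400040020004000800a602))) 
(.lf (nat_lit 8032224) (dlOf (nat_lit 1) (nat_lit 0x2c0018517a81)))))))) (.nd (nat_lit 6) 
(.nd (nat_lit 17) (.nd (nat_lit 19) (.nd (nat_lit 20) (.nd (nat_lit 27) (.nd (nat_lit 9) 
(.lf (nat_lit 2755952672) (dlOf (nat_lit 3) (nat_lit 0x44400174f0200021c6008d80181c0900))) 
(.lf (nat_lit 3221520928) (dlOf (nat_lit 1) (nat_lit 0x20028127f01)))) (.nd (nat_lit 31) 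
(.lf (nat_lit 1208254496) (dlOf (nat_lit 1) (nat_lit 0x200180b0181))) 
(.lf (nat_lit 3355738144) (dlOf (nat_lit 1) (nat_lit 0x60002001000080e0682))))) (.nd (nat_lit 7) 
(.lf (nat_lit 9732128) (dlOf (nat_lit 1) (nat_lit 0x88002004c0008580102))) (.nd (nat_lit 8) 
(.lf (nat_lit 11829408) (dlOf (nat_lit 1) (nat_lit 0x4004002e00086c0202))) 
(.lf (nat_lit 20224416) (dlOf (nat_lit 1) (nat_lit 0x4002000200089daf82)))))) (.nd (nat_lit 20) 
(.nd (nat_lit 7) (.nd (nat_lit 23) 
(.lf (nat_lit 2819391520) (dlOf (nat_lit 3) (nat_lit 0x220030002240800c80000010a04001c00200100008250602))) 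
(.lf (nat_lit 9207840) (dlOf (nat_lit 3) (nat_lit 0x240000001140803f00000007c04005000200060008530182)))) 
(.lf (nat_lit 36473248) (dlOf (nat_lit 1) (nat_lit 0x20019074e81)))) (.nd (nat_lit 22) 
(.nd (nat_lit 23) (.lf (nat_lit 3964960) (dlOf (nat_lit 1) (nat_lit 0x20018260b01))) 
(.lf (nat_lit 45908000) (dlOf (nat_lit 1) (nat_lit 0x36c00200da0009360182)))) (.nd (nat_lit 23) 
(.lf (nat_lit 24936480) (dlOf (nat_lit 2) (nat_lit 0x18523800000080148008000800200380008bd0b03))) 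
(.lf (nat_lit 16547872) (dlOf (nat_lit 1) (nat_lit 0x200188b0681))))))) (.nd (nat_lit 21) 
(.nd (nat_lit 9) (.nd (nat_lit 8) (.nd (nat_lit 22) 
(.lf (nat_lit 537296928) (dlOf (nat_lit 1) (nat_lit 0x80028080681))) 
(.lf (nat_lit 29786144) (dlOf (nat_lit 1) (nat_lit 0x400400020008e30002)))) (.nd (nat_lit 7) 
(.lf (nat_lit 1678147872) (dlOf (nat_lit 4) (nat_lit 0x2c06a00045020012054000220100a90168055805c00070080004002001000081a0502))) 
(.lf (nat_lit 3221651872) (dlOf (nat_lit 2) (nat_lit 0x6804600404818170780))))) (.nd (nat_lit 10) 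
(.lf (nat_lit 201753120) (dlOf (nat_lit 2) (nat_lit 0x15203100066818090d80))) (.nd (nat_lit 12) 
(.lf (nat_lit 8816160) (dlOf (nat_lit 1) (nat_lit 0x80028513701))) 
(.lf (nat_lit 8820256) (dlOf (nat_lit 3) (nat_lit 0xd00000303808002ac10014f004002400400020018519c02)))))) 
(.nd (nat_lit 8) (.nd (nat_lit 19) 
(.lf (nat_lit 10911776) (dlOf (nat_lit 1) (nat_lit 0x400400580008640682))) (.nd (nat_lit 20) 
(.lf (nat_lit 53379104) (dlOf (nat_lit 1) (nat_lit 0x200295b0101))) 
(.lf (nat_lit 4096032) (dlOf (nat_lit 1) (nat_lit 0x40018280481))))) 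
(.lf (nat_lit 3047712) (dlOf (nat_lit 1) (nat_lit 0x2ac00200680008200502)))))) (.nd (nat_lit 8) 
(.nd (nat_lit 20) (.nd (nat_lit 17) (.nd (nat_lit 9) (.nd (nat_lit 22) 
(.lf (nat_lit 2349105248) (dlOf (nat_lit 14) (nat_lit 0x1d80a80004a040010054000201000020070000901802080a80004604010005400a8010000110200200150012004000042080120054007201000010020042015001100400003a080078054007601000070070000701801200a800036040118054004c010001100700005c1801d00a80002c0400b005400400100000a8200060080000000803d000800f8002001a00080a1283))) 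
(.lf (nat_lit 29655136) (dlOf (nat_lit 1) (nat_lit 0x58008003000200080008e30483)))) 
(.lf (nat_lit 54823520) (dlOf (nat_lit 1) (nat_lit 0x36000801cc002005a0009655383)))) 
(.nd (nat_lit 7) (.lf (nat_lit 46565984) (dlOf (nat_lit 1) (nat_lit 0xc00200020009385382))) 
(.nd (nat_lit 19) (.lf (nat_lit 1611038944) (dlOf (nat_lit 1) (nat_lit 0x200180c1a81))) 
(.lf (nat_lit 2819522784) (dlOf (nat_lit 1) (nat_lit 0x800282c0581)))))) (.nd (nat_lit 7) 
(.nd (nat_lit 21) (.lf (nat_lit 9732192) (dlOf (nat_lit 1) (nat_lit 0x4000400080008580782))) 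
(.nd (nat_lit 22) 
(.lf (nat_lit 62160992) (dlOf (nat_lit 5) (nat_lit 0x41d000030df80028650001c09c01bab0800021d000030df80008650002009c01baa08000a1d000070df80050650002409c01ba80800081d000060df80050650002409c01ba60800060009960781))) 
(.lf (nat_lit 24412256) (dlOf (nat_lit 2) (nat_lit 0x38306c01c52ec000100400040018b91301))))) 
(.nd (nat_lit 17) (.lf (nat_lit 8164064) (dlOf (nat_lit 1) (nat_lit 0x8008000400200020008518c83))) 
(.lf (nat_lit 8295136) (dlOf (nat_lit 1) (nat_lit 0x8008000400200020008518c83)))))) 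
(.nd (nat_lit 21) (.nd (nat_lit 9) (.nd (nat_lit 10) (.nd (nat_lit 11) 
(.lf (nat_lit 21397984) (dlOf (nat_lit 1) (nat_lit 0x38008001800200160008a37283))) 
(.lf (nat_lit 38177248) (dlOf (nat_lit 1) (nat_lit 0x580009134e81)))) 
(.lf (nat_lit 2818872800) (dlOf (nat_lit 3) (nat_lit 0x1600600011810001002000070080068008004c002002a0008129b03)))) 
(.nd (nat_lit 17) (.lf (nat_lit 34374624) (dlOf (nat_lit 1) (nat_lit 0x20018fb2881))) 
(.nd (nat_lit 19) (.lf (nat_lit 2751890400) (dlOf (nat_lit 1) (nat_lit 0x400400020018002882))) 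
(.lf (nat_lit 34505696) (dlOf (nat_lit 1) (nat_lit 0x20018fb2881)))))) (.nd (nat_lit 19) 
(.nd (nat_lit 7) (.nd (nat_lit 17) 
(.lf (nat_lit 11829600) (dlOf (nat_lit 1) (nat_lit 0x380080028002002600086c0683))) 
(.lf (nat_lit 11960672) (dlOf (nat_lit 1) (nat_lit 0x200186c0681)))) 
(.lf (nat_lit 40272864) (dlOf (nat_lit 1) (nat_lit 0xe00291f2881)))) (.nd (nat_lit 9) 
(.nd (nat_lit 17) (.lf (nat_lit 8160736) (dlOf (nat_lit 1) (nat_lit 0x400200020008513602))) 
(.lf (nat_lit 8291808) (dlOf (nat_lit 1) (nat_lit 0x28008000400200020008513603)))) 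
(.lf (nat_lit 61768672) (dlOf (nat_lit 1) (nat_lit 0x20019922881))))))))) (.nd (nat_lit 26) 
(.nd (nat_lit 8) (.nd (nat_lit 19) (.nd (nat_lit 30) (.nd (nat_lit 7) (.nd (nat_lit 9) 
(.nd (nat_lit 10) 
(.lf (nat_lit 402948128) (dlOf (nat_lit 2) (nat_lit 0x2a001a00b800100500000001181800a00080160002000c00080b0183))) 
(.lf (nat_lit 2952827936) (dlOf (nat_lit 1) (nat_lit 0x58008002800200240008009203)))) 
(.lf (nat_lit 4563437088) (dlOf (nat_lit 1) (nat_lit 0x30008000400200060008003703)))) 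
(.nd (nat_lit 9) (.lf (nat_lit 2550300832) (dlOf (nat_lit 1) (nat_lit 0x400400020008044302))) 
(.lf (nat_lit 805473952) (dlOf (nat_lit 1) (nat_lit 0x10008003c00200020008117203))))) 
(.nd (nat_lit 6) (.nd (nat_lit 9) (.nd (nat_lit 22) 
(.lf (nat_lit 1879343136) (dlOf (nat_lit 1) (nat_lit 0x28002000a00080e0a02))) 
(.lf (nat_lit 3494150176) (dlOf (nat_lit 3) (nat_lit 0x4416015c10200021b1008de0181c0900)))) 
(.lf (nat_lit 1342213664) (dlOf (nat_lit 1) (nat_lit 0xc00400160008007102)))) (.nd (nat_lit 7) 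
(.nd (nat_lit 17) 
(.lf (nat_lit 3492053088) (dlOf (nat_lit 2) (nat_lit 0x130c800004c0800100080024002002200080a1303))) 
(.lf (nat_lit 1346535520) (dlOf (nat_lit 5) (nat_lit 0x841a00061a200c2f02000111280020688030ba08001445c0006225000810680038688030b610001045c000a225000810680038688030b210000800400020008fa0782)))) 
(.lf (nat_lit 1346404576) (dlOf (nat_lit 1) (nat_lit 0x168008007800200880008f60a83)))))) 
(.nd (nat_lit 18) (.nd (nat_lit 6) (.nd (nat_lit 17) (.nd (nat_lit 9) (.nd (nat_lit 20) 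
(.lf (nat_lit 3492315168) (dlOf (nat_lit 1) (nat_lit 0x18008008c002000e00080c0b03))) 
(.lf (nat_lit 1343782944) (dlOf (nat_lit 1) (nat_lit 0x8008000400200020008370003)))) 
(.lf (nat_lit 1342734880) (dlOf (nat_lit 2) (nat_lit 0x1823c001020180c0d80)))) (.nd (nat_lit 21) 
(.lf (nat_lit 805994528) (dlOf (nat_lit 8) (nat_lit 0x27c0ac001d3020140056000d381005d02b000690080590158003360402840ac00199020144056000bc81006202b000000080088008003000200160008210483))) 
(.lf (nat_lit 1344962592) (dlOf (nat_lit 1) (nat_lit 0x400289a0181))))) (.nd (nat_lit 7) 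
(.lf (nat_lit 5771922016) (dlOf (nat_lit 1) (nat_lit 0x20018005381))) 
(.lf (nat_lit 1342734560) (dlOf (nat_lit 2) (nat_lit 0x581f30003f0180c0480))))) (.nd (nat_lit 6) 
(.nd (nat_lit 31) (.nd (nat_lit 21) 
(.lf (nat_lit 5773230112) (dlOf (nat_lit 3) (nat_lit 0x10000001180803301640007c04000c002000200080b0182))) 
(.lf (nat_lit 1346142240) (dlOf (nat_lit 2) (nat_lit 0x90143004809d80048334000000c00bc004003a0008e60182)))) 
(.nd (nat_lit 7) (.lf (nat_lit 3490611744) (dlOf (nat_lit 2) (nat_lit 0xa15400202818017f00))) 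
(.lf (nat_lit 3491528864) (dlOf (nat_lit 1) (nat_lit 0x20018090201))))) (.nd (nat_lit 7) 
(.lf (nat_lit 1346142304) (dlOf (nat_lit 1) (nat_lit 0x8004001c0008e60902))) 
(.lf (nat_lit 5772182752) (dlOf (nat_lit 1) (nat_lit 0xe8008006800200220008092e03))))))) 
(.nd (nat_lit 6) (.nd (nat_lit 7) (.nd (nat_lit 17) (.nd (nat_lit 10) 
(.lf (nat_lit 3491004704) (dlOf (nat_lit 2) (nat_lit 0x202200529018047800))) (.nd (nat_lit 11) 
(.lf (nat_lit 4160787744) (dlOf (nat_lit 1) (nat_lit 0x14004000c0008009782))) 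
(.lf (nat_lit 1342213408) (dlOf (nat_lit 1) (nat_lit 0x18004001e0008006782))))) (.nd (nat_lit 18) 
(.nd (nat_lit 27) (.lf (nat_lit 1342341408) (dlOf (nat_lit 1) (nat_lit 0x40028014181))) 
(.lf (nat_lit 2550300960) (dlOf (nat_lit 1) (nat_lit 0x7800400100018047802)))) 
(.lf (nat_lit 805732640) (dlOf (nat_lit 4) (nat_lit 0x2c06a00048020012054000238100a90168055805c00074080004002001000081a0502))))) 
(.nd (nat_lit 18) (.nd (nat_lit 10) 
(.lf (nat_lit 1342341536) (dlOf (nat_lit 1) (nat_lit 0xc0028016b81))) 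
(.lf (nat_lit 3489832352) (dlOf (nat_lit 1) (nat_lit 0x6001800cb01)))) (.nd (nat_lit 19) 
(.lf (nat_lit 3624305056) (dlOf (nat_lit 1) (nat_lit 0x140008156b81))) (.nd (nat_lit 27) 
(.lf (nat_lit 3490611616) (dlOf (nat_lit 3) (nat_lit 0xa04600046702000223000233018016b80))) 
(.lf (nat_lit 5772312992) (dlOf (nat_lit 6) (nat_lit 0x690988005800800084c0002bc0401d825e0009a02001412f00046010077097800228080058008001400200780008091003))))))) 
(.nd (nat_lit 17) (.nd (nat_lit 7) (.nd (nat_lit 10) 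
(.lf (nat_lit 1342214496) (dlOf (nat_lit 1) (nat_lit 0x140028008381))) 
(.lf (nat_lit 3490221408) (dlOf (nat_lit 1) (nat_lit 0x400200020008006a82)))) (.nd (nat_lit 9) 
(.nd (nat_lit 11) 
(.lf (nat_lit 2952828384) (dlOf (nat_lit 1) (nat_lit 0x170008004400200200008009b03))) 
(.lf (nat_lit 2952830432) (dlOf (nat_lit 2) (nat_lit 0x220000052181800cd00)))) 
(.lf (nat_lit 805345248) (dlOf (nat_lit 1) (nat_lit 0x2000800a601))))) (.nd (nat_lit 7) 
(.nd (nat_lit 11) (.lf (nat_lit 3490611552) (dlOf (nat_lit 2) (nat_lit 0x2022f00261818014f00))) 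
(.lf (nat_lit 3489827168) (dlOf (nat_lit 1) (nat_lit 0x400200020008004e82)))) (.nd (nat_lit 11) 
(.nd (nat_lit 18) (.lf (nat_lit 1342341600) (dlOf (nat_lit 1) (nat_lit 0x80028017281))) 
(.lf (nat_lit 3490611680) (dlOf (nat_lit 2) (nat_lit 0x222f00014018017280)))) 
(.lf (nat_lit 1344702944) (dlOf (nat_lit 1) (nat_lit 0x80018984e81)))))))) (.nd (nat_lit 29) 
(.nd (nat_lit 18) (.nd (nat_lit 19) (.nd (nat_lit 8) (.nd (nat_lit 9) (.nd (nat_lit 6) 
(.lf (nat_lit 469802016) (dlOf (nat_lit 1) (nat_lit 0x400080010002000a000800bf03))) 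
(.lf (nat_lit 2483063904) (dlOf (nat_lit 2) (nat_lit 0x40140005b4080028008001000200060008006083)))) 
(.nd (nat_lit 12) 
(.lf (nat_lit 335578656) (dlOf (nat_lit 1) (nat_lit 0x30008005c002000c0008003703))) 
(.lf (nat_lit 2617284128) (dlOf (nat_lit 2) (nat_lit 0x2280140104008006e00300ea000003038200098008001000200180008009c03))))) 
(.nd (nat_lit 6) (.nd (nat_lit 7) 
(.lf (nat_lit 469926176) (dlOf (nat_lit 1) (nat_lit 0x2000802d800200c60008014203))) 
(.lf (nat_lit 469926304) (dlOf (nat_lit 1) (nat_lit 0x80028016b81)))) 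
(.lf (nat_lit 469796704) (dlOf (nat_lit 1) (nat_lit 0x20004000e0008003f82))))) (.nd (nat_lit 6) 
(.nd (nat_lit 7) (.nd (nat_lit 27) 
(.lf (nat_lit 3557326880) (dlOf (nat_lit 2) (nat_lit 0x54603f000738181c0600))) 
(.lf (nat_lit 470319136) (dlOf (nat_lit 2) (nat_lit 0x141b30038a8180c0000)))) 
(.lf (nat_lit 1409843360) (dlOf (nat_lit 1) (nat_lit 0x8008000400200040008090203)))) 
(.nd (nat_lit 7) 
(.lf (nat_lit 1409974368) (dlOf (nat_lit 5) (nat_lit 0x96052004a0198000541002d0148012c06600013040080052003f01980001410003014800008040064004003c00180a1302))) 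
(.nd (nat_lit 20) (.lf (nat_lit 470319328) (dlOf (nat_lit 2) (nat_lit 0x2a1f20003f0180c0480))) 
(.lf (nat_lit 471367904) (dlOf (nat_lit 2) (nat_lit 0x102600002a02000400082e0581))))))) 
(.nd (nat_lit 31) (.nd (nat_lit 7) (.nd (nat_lit 30) (.nd (nat_lit 20) 
(.lf (nat_lit 335839264) (dlOf (nat_lit 2) (nat_lit 0x2a001a00b800100500000001181800a00080160002000c00080b0183))) 
(.lf (nat_lit 471105568) (dlOf (nat_lit 2) (nat_lit 0x6047001201f800104080068004002a0008270602)))) 
(.nd (nat_lit 8) (.lf (nat_lit 1409712160) (dlOf (nat_lit 1) (nat_lit 0x80028080681))) 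
(.lf (nat_lit 1409581344) (dlOf (nat_lit 2) (nat_lit 0x1302f8028ac0800b8008008c00200180008047803))))) 
(.nd (nat_lit 9) 
(.lf (nat_lit 1409581216) (dlOf (nat_lit 1) (nat_lit 0x800800d4002004c0008044303))) 
(.lf (nat_lit 1410107040) (dlOf (nat_lit 1) (nat_lit 0x1c00280f3a81))))) (.nd (nat_lit 6) 
(.nd (nat_lit 19) (.nd (nat_lit 30) 
(.lf (nat_lit 2617540640) (dlOf (nat_lit 4) (nat_lit 0x40580002602000202c000128100030068000880800800080044002002e00080e0683))) 
(.lf (nat_lit 3691282464) (dlOf (nat_lit 1) (nat_lit 0x8002000a0008110602)))) 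
(.lf (nat_lit 3557589024) (dlOf (nat_lit 10) (nat_lit 0x100650005401000e03280029c080230194001420400fc0ca000a00200400630004f01000602480028000001180800080000008b020008000000440100200000001ec08000800801c0002000c0008270603)))) 
(.nd (nat_lit 7) 
(.lf (nat_lit 2483322976) (dlOf (nat_lit 14) (nat_lit 0x40540002702000202a0000f81006d01500006c0802700a800030040110052008800f00009820051015003d0040000200800e405400d20100000702006401500228040000100800e005400a6010000028200450080000100803200a8010c020000030400d802a00540080000041003280a8000000400c0004002200180a1302))) 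
(.lf (nat_lit 3557720288) (dlOf (nat_lit 1) (nat_lit 0x800282c0581))))))) (.nd (nat_lit 8) 
(.nd (nat_lit 19) (.nd (nat_lit 6) (.nd (nat_lit 18) (.nd (nat_lit 9) 
(.lf (nat_lit 5167415328) (dlOf (nat_lit 1) (nat_lit 0x400400020008050002))) 
(.lf (nat_lit 6377605664) (dlOf (nat_lit 1) (nat_lit 0xc00280e5101)))) (.nd (nat_lit 30) 
(.lf (nat_lit 1006927904) (dlOf (nat_lit 1) (nat_lit 0x28002000a00080e0a02))) 
(.lf (nat_lit 2080669728) (dlOf (nat_lit 1) (nat_lit 0x200180b0181))))) (.nd (nat_lit 7) 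
(.nd (nat_lit 30) 
(.lf (nat_lit 5167677536) (dlOf (nat_lit 1) (nat_lit 0x718008034800201940008100783))) 
(.lf (nat_lit 6241419360) (dlOf (nat_lit 1) (nat_lit 0x200280e1981)))) 
(.lf (nat_lit 3020067552) (dlOf (nat_lit 1) (nat_lit 0x838008000400200d40008128c83))))) 
(.nd (nat_lit 6) (.nd (nat_lit 20) (.nd (nat_lit 17) 
(.lf (nat_lit 4094459936) (dlOf (nat_lit 1) (nat_lit 0x40028050001))) 
(.lf (nat_lit 3154804768) (dlOf (nat_lit 1) (nat_lit 0x400400020008330a82)))) (.nd (nat_lit 27) 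
(.lf (nat_lit 4095508512) (dlOf (nat_lit 1) (nat_lit 0x200280d0481))) 
(.lf (nat_lit 6377209888) (dlOf (nat_lit 3) (nat_lit 0x10000001180803301800007c04000c002000200080b0182))))) 
(.nd (nat_lit 7) 
(.lf (nat_lit 3154673760) (dlOf (nat_lit 2) (nat_lit 0x9815c014fc040138004000c0008310482))) 
(.lf (nat_lit 6376161504) (dlOf (nat_lit 2) (nat_lit 0x2086800238080020008000400200080008090a83)))))) 
(.nd (nat_lit 17) (.nd (nat_lit 9) (.nd (nat_lit 27) (.nd (nat_lit 10) 
(.lf (nat_lit 1946714528) (dlOf (nat_lit 2) (nat_lit 0x12022000000181b0780))) 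
(.lf (nat_lit 4095772064) (dlOf (nat_lit 1) (nat_lit 0x600180e3601)))) (.nd (nat_lit 7) 
(.lf (nat_lit 4228153632) (dlOf (nat_lit 1) (nat_lit 0x2000200020008047802))) 
(.lf (nat_lit 4227893664) (dlOf (nat_lit 1) (nat_lit 0x7000800b800200080008004e83))))) 
(.nd (nat_lit 6) (.lf (nat_lit 4094725024) (dlOf (nat_lit 1) (nat_lit 0x80028055c81))) 
(.lf (nat_lit 4095771616) (dlOf (nat_lit 1) (nat_lit 0x200080024002000a00080e2883))))) 
(.nd (nat_lit 9) (.nd (nat_lit 7) 
(.lf (nat_lit 5301765408) (dlOf (nat_lit 1) (nat_lit 0x18008002c00200060008093103))) 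
(.nd (nat_lit 11) (.lf (nat_lit 4228022688) (dlOf (nat_lit 1) (nat_lit 0x23c00200ec0008016b82))) 
(.lf (nat_lit 6241290656) (dlOf (nat_lit 1) (nat_lit 0x200080004002000200080d4e83))))) 
(.nd (nat_lit 6) 
(.lf (nat_lit 3020068640) (dlOf (nat_lit 2) (nat_lit 0x101700127008001800800380020002000812a003))) 
(.nd (nat_lit 27) (.lf (nat_lit 4096164832) (dlOf (nat_lit 1) (nat_lit 0x400280e2881))) 
(.lf (nat_lit 6377866208) (dlOf (nat_lit 2) (nat_lit 0x240500039602000c00280e2881))))))))))) 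
(.nd (nat_lit 6) (.nd (nat_lit 17) (.nd (nat_lit 18) (.nd (nat_lit 26) (.nd (nat_lit 28) 
(.nd (nat_lit 24) (.nd (nat_lit 9) (.nd (nat_lit 7) 
(.lf (nat_lit 15237168) (dlOf (nat_lit 1) (nat_lit 0x24002003c00087c0702))) (.nd (nat_lit 8) 
(.lf (nat_lit 537428144) (dlOf (nat_lit 3) (nat_lit 0x1340b60002902000205b00013818090300))) 
(.lf (nat_lit 8422832) (dlOf (nat_lit 1) (nat_lit 0x8008000400200020008513603))))) 
(.nd (nat_lit 10) (.nd (nat_lit 20) 
(.lf (nat_lit 33589808) (dlOf (nat_lit 1) (nat_lit 0x400200020008f55182))) 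
(.lf (nat_lit 45124144) (dlOf (nat_lit 1) (nat_lit 0x60009325181)))) 
(.lf (nat_lit 671125040) (dlOf (nat_lit 3) (nat_lit 0xb00130044807402a803000bc010003800480510014024c004012a0000002c0800a20130003808c0018040014201d00a100c004c004000200120138005009e00100470000000ae28003800401500018007182))))) 
(.nd (nat_lit 22) (.nd (nat_lit 7) 
(.lf (nat_lit 17858608) (dlOf (nat_lit 3) (nat_lit 0x90000000d80800700000001e040018002000200088f0e82))) 
(.nd (nat_lit 8) (.lf (nat_lit 59278512) (dlOf (nat_lit 1) (nat_lit 0x4004000600097e2c02))) 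
(.lf (nat_lit 58755504) (dlOf (nat_lit 1) (nat_lit 0x4002000200097e4e82))))) (.nd (nat_lit 19) 
(.nd (nat_lit 20) 
(.lf (nat_lit 23101488) (dlOf (nat_lit 3) (nat_lit 0xa4c00001681001126000005c080058008003400200040008b50683))) 
(.lf (nat_lit 22052912) (dlOf (nat_lit 1) (nat_lit 0x160008a90701)))) 
(.lf (nat_lit 23625776) (dlOf (nat_lit 1) (nat_lit 0xdc00400240008b80002)))))) (.nd (nat_lit 7) 
(.nd (nat_lit 19) (.nd (nat_lit 8) (.nd (nat_lit 20) 
(.lf (nat_lit 268468272) (dlOf (nat_lit 1) (nat_lit 0x400400020008050002))) 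
(.lf (nat_lit 3490742320) (dlOf (nat_lit 14) (nat_lit 0x1d03da000210201be1ed001f0ab8000801004507b40003e0402843da0001d0200021ed0000e0100b80f680006c0804f07b40003404055c4600001802029a2300000b8101451180000580802507b4000240404c046002f422f0000482004611a000000080258008021400200a40008020583)))) 
(.lf (nat_lit 2550172976) (dlOf (nat_lit 2) (nat_lit 0xe001800098080010008005000200140008006883)))) 
(.nd (nat_lit 21) (.lf (nat_lit 3494412336) (dlOf (nat_lit 1) (nat_lit 0x400200020008220b02))) 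
(.lf (nat_lit 3492315184) (dlOf (nat_lit 2) (nat_lit 0x290fd0000b40801b00080178002000c00080c0e83))))) 
(.nd (nat_lit 8) (.nd (nat_lit 9) 
(.lf (nat_lit 1342213296) (dlOf (nat_lit 1) (nat_lit 0x8400200040008006282))) 
(.lf (nat_lit 1342215856) (dlOf (nat_lit 1) (nat_lit 0x540040010001800a002)))) (.nd (nat_lit 9) 
(.lf (nat_lit 3490220464) (dlOf (nat_lit 1) (nat_lit 0x400400020008004e82))) 
(.lf (nat_lit 939563952) (dlOf (nat_lit 1) (nat_lit 0x40040002001800bd82))))))) (.nd (nat_lit 31) 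
(.nd (nat_lit 8) (.nd (nat_lit 20) (.nd (nat_lit 10) 
(.lf (nat_lit 5435850800) (dlOf (nat_lit 1) (nat_lit 0x40018000001))) 
(.lf (nat_lit 67146800) (dlOf (nat_lit 1) (nat_lit 0x18008000400200020008009203)))) 
(.nd (nat_lit 27) (.lf (nat_lit 68190256) (dlOf (nat_lit 1) (nat_lit 0x400200020008450702))) 
(.lf (nat_lit 470843440) (dlOf (nat_lit 4) (nat_lit 0x380d80003a04003c43a001819b000050200030cd80001008007000800e4002006000081c0703))))) 
(.nd (nat_lit 9) 
(.lf (nat_lit 470319408) (dlOf (nat_lit 16) (nat_lit 0x50226002a106001586cc000e40c007c44c002220c000a0d98001bc1800306cc000dc0400083e40006a020042173000328100ba0b98001880802607ac03342e60005e0401b41730002e8100d90b980016c0800a887c000960400543e40002202001e2260010106000706cc000420c005044c002820c00120d98000801800c8898006c41800381b30000e03001b0f90000000803280080378002005600080c0503))) 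
(.nd (nat_lit 27) 
(.lf (nat_lit 872450864) (dlOf (nat_lit 1) (nat_lit 0x1a00080040002010e0008005c03))) 
(.lf (nat_lit 1275104048) (dlOf (nat_lit 1) (nat_lit 0x20018005c01)))))) (.nd (nat_lit 19) 
(.nd (nat_lit 8) (.nd (nat_lit 10) 
(.lf (nat_lit 2752544816) (dlOf (nat_lit 14) (nat_lit 0x1d03fe000210201be1ff001f0ae0000801004507fc0003e0402843fe0001d0200021ff0000e0100b80ff80006c0804f07fc0003404055c4900001802029a2480000b8101451240000580802507fc000240404c049002f424700004820046126000000080258008021400200a40008020583))) 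
(.lf (nat_lit 3691025456) (dlOf (nat_lit 1) (nat_lit 0x58008002800200240008009203)))) 
(.nd (nat_lit 7) (.lf (nat_lit 3288370480) (dlOf (nat_lit 1) (nat_lit 0x3400200060008006882))) 
(.lf (nat_lit 2754644400) (dlOf (nat_lit 1) (nat_lit 0x200180f4e81))))) (.nd (nat_lit 21) 
(.nd (nat_lit 22) 
(.lf (nat_lit 3557326896) (dlOf (nat_lit 9) (nat_lit 0x5181d0000540400c800000029020178074000130100150240109808403d00000001c06011a0210000d81007703a002a01cc000280800180000000402002004900150100000001005e00080404002002200081c0703))) 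
(.lf (nat_lit 2756214832) (dlOf (nat_lit 1) (nat_lit 0x400200020008220b02)))) 
(.lf (nat_lit 2754117680) (dlOf (nat_lit 3) (nat_lit 0x6420f000168100021078000a80800a80080020002002600080c0f83))))))) 
(.nd (nat_lit 21) (.nd (nat_lit 26) (.nd (nat_lit 7) (.nd (nat_lit 9) (.nd (nat_lit 22) 
(.nd (nat_lit 8) 
(.lf (nat_lit 671383600) (dlOf (nat_lit 3) (nat_lit 0x1c02500012010001012800068080310008019c00201840008170c83))) 
(.lf (nat_lit 537166128) (dlOf (nat_lit 2) (nat_lit 0x2902f8012580800a8008003400200040008048403)))) 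
(.nd (nat_lit 19) 
(.lf (nat_lit 30703664) (dlOf (nat_lit 13) (nat_lit 0xcac8e804be2080752b5a0003f0603495ad0001e81011cc8e800be2080006c080102b5a000300201fd5ad00017810031c8e80186208070eb5a0000f06003191d000bc4100d3d6b4000140c022f23a0113882021dad680001c1800456b40000c0400aab5a0000502001591d000018100d4c8e806962080466b5a000000600280018e40e81))) 
(.lf (nat_lit 13402160) (dlOf (nat_lit 1) (nat_lit 0x48008004400200180008720f83))))) 
(.nd (nat_lit 30) 
(.lf (nat_lit 6442746416) (dlOf (nat_lit 2) (nat_lit 0x480e8002004a001201a000900c0000542000780080020002001000081b0f03))) 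
(.lf (nat_lit 3221520944) (dlOf (nat_lit 6) (nat_lit 0x3500380184000000240400d800e0001181000900700008808037803801a40000002004002000e0054000000074100188008006400200140008128003))))) 
(.nd (nat_lit 19) (.nd (nat_lit 8) 
(.lf (nat_lit 51676336) (dlOf (nat_lit 1) (nat_lit 0x20009512c01))) 
(.lf (nat_lit 8684976) (dlOf (nat_lit 2) (nat_lit 0x791e0008e0200020018513601)))) (.nd (nat_lit 10) 
(.lf (nat_lit 3491528880) (dlOf (nat_lit 1) (nat_lit 0x18008002c00200080008090303))) 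
(.lf (nat_lit 34374832) (dlOf (nat_lit 1) (nat_lit 0x20018fb2c01)))))) (.nd (nat_lit 27) 
(.nd (nat_lit 7) (.nd (nat_lit 31) 
(.lf (nat_lit 5167677488) (dlOf (nat_lit 1) (nat_lit 0x1800400020008100382))) 
(.lf (nat_lit 3020193840) (dlOf (nat_lit 3) (nat_lit 0xf00c0003a20400d0060003e02a0021011800c80880039e100084002001a0008150482)))) 
(.nd (nat_lit 9) (.lf (nat_lit 6241419440) (dlOf (nat_lit 1) (nat_lit 0x800280e2d81))) 
(.lf (nat_lit 1410107056) (dlOf (nat_lit 1) (nat_lit 0x400180f3a81))))) (.nd (nat_lit 8) 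
(.nd (nat_lit 9) 
(.lf (nat_lit 1543798832) (dlOf (nat_lit 3) (nat_lit 0x1c02500013810001012800068080310008019c00201840008170c83))) 
(.lf (nat_lit 5838766640) (dlOf (nat_lit 2) (nat_lit 0x480e8002004a001201a000900c0000502000780080020002001000081b0f03)))) 
(.nd (nat_lit 7) (.lf (nat_lit 4228153648) (dlOf (nat_lit 1) (nat_lit 0x4002000e0008047a02))) 
(.lf (nat_lit 2885978032) (dlOf (nat_lit 1) (nat_lit 0x4800400020008144382))))))) (.nd (nat_lit 19) 
(.nd (nat_lit 9) (.nd (nat_lit 20) 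
(.lf (nat_lit 6586416) (dlOf (nat_lit 3) (nat_lit 0x80cf2000390202e84d100007018430e80))) 
(.lf (nat_lit 7634992) (dlOf (nat_lit 3) (nat_lit 0x8181c000390202e8a66000070184c0e80)))) 
(.nd (nat_lit 8) (.nd (nat_lit 10) 
(.lf (nat_lit 23364144) (dlOf (nat_lit 2) (nat_lit 0x191a88000280800f000800b8002002e0008b80f03))) 
(.lf (nat_lit 2754907696) (dlOf (nat_lit 5) (nat_lit 0xd40a50002a810015052800150080460294000a20402d819a00b60a8000270280f7180)))) 
(.lf (nat_lit 20223792) (dlOf (nat_lit 1) (nat_lit 0xc002000600089da102))))) (.nd (nat_lit 7) 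
(.nd (nat_lit 31) (.nd (nat_lit 8) 
(.lf (nat_lit 11305008) (dlOf (nat_lit 1) (nat_lit 0x400200040008690682))) 
(.lf (nat_lit 20748080) (dlOf (nat_lit 2) (nat_lit 0x551d8001a00800080080010002000200089da103)))) 
(.nd (nat_lit 26) 
(.lf (nat_lit 3492577328) (dlOf (nat_lit 15) (nat_lit 0x14c190008d0c70009834c004c000000560800ac1900002a8100190c800014c080110038000a204000417e003e00e0002782001c05f800382c40009c08000c19e003e00e0002602001f00700012c0800502480008804003819e000380200040bf0001a81000506e0000cc0805005ec0a4c2e6002a170000168300270b98000b00801c80080034002002600080e0683))) 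
(.lf (nat_lit 2754379824) (dlOf (nat_lit 15) (nat_lit 0x14c198008d0cb00098314004c000000560800ac1980002a8100190cc00014c080110038000a2040004162003e00e00027820007070800e02c40009c08000c182003e00e0002602001f00700012c08005024800088040038182000380200040b10001a8100050670000cc0805005e80a4c2e6002a170000168300270b98000b00801c80080034002002600080e0683))))) 
(.nd (nat_lit 8) 
(.lf (nat_lit 1345094832) (dlOf (nat_lit 2) (nat_lit 0x800e00015008019000800d8002001e00089e2c03))) 
(.nd (nat_lit 11) (.lf (nat_lit 8163760) (dlOf (nat_lit 1) (nat_lit 0x400400020018518482))) 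
(.lf (nat_lit 36473264) (dlOf (nat_lit 1) (nat_lit 0x20019074e81))))))))) (.nd (nat_lit 26) 
(.nd (nat_lit 18) (.nd (nat_lit 21) (.nd (nat_lit 8) (.nd (nat_lit 20) (.nd (nat_lit 30) 
(.nd (nat_lit 9) (.lf (nat_lit 21135408) (dlOf (nat_lit 1) (nat_lit 0x400200020008a10702))) 
(.lf (nat_lit 134382128) (dlOf (nat_lit 2) (nat_lit 0x4094000440200020018018001)))) 
(.nd (nat_lit 19) 
(.lf (nat_lit 4026695728) (dlOf (nat_lit 4) (nat_lit 0x150080000c0160001504002000b000098100120050000080800280080018002001a0008030c83))) 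
(.lf (nat_lit 3221913648) (dlOf (nat_lit 19) (nat_lit 0xa9e038054600b028e8000000ac0c03180800302038015f00b0001541802900e0002002c00054040540040003001c016a0058000a60c001c070000520200a802e000110100330170000840803680b80003c04024c05c0001c02027202e0000d8100230170000600808f80b80002e04048805c0001402029605402a4017002f00a80108050006401d014e00780004c3009400b8000803a0001204023002e000088100150170000400806080b80001e040154004073400181b0682))))) 
(.nd (nat_lit 7) (.nd (nat_lit 9) 
(.lf (nat_lit 17989680) (dlOf (nat_lit 1) (nat_lit 0x20018900b81))) 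
(.lf (nat_lit 55740976) (dlOf (nat_lit 1) (nat_lit 0x4004000200096d5182)))) 
(.lf (nat_lit 9601200) (dlOf (nat_lit 2) (nat_lit 0x28e90c010f4820095a3f0060cee0000c8200020008008800200020008571603))))) 
(.nd (nat_lit 27) (.nd (nat_lit 7) 
(.lf (nat_lit 167728) (dlOf (nat_lit 1) (nat_lit 0x20008001000200060008007483))) 
(.lf (nat_lit 168368) (dlOf (nat_lit 1) (nat_lit 0x18008000c00200060008008483)))) (.nd (nat_lit 28) 
(.lf (nat_lit 4429349168) (dlOf (nat_lit 1) (nat_lit 0x400200020008090502))) 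
(.lf (nat_lit 2550300976) (dlOf (nat_lit 1) (nat_lit 0xa0018047a01)))))) (.nd (nat_lit 19) 
(.nd (nat_lit 7) (.nd (nat_lit 9) 
(.lf (nat_lit 14843952) (dlOf (nat_lit 1) (nat_lit 0xc00200020008780d02))) 
(.lf (nat_lit 11698736) (dlOf (nat_lit 5) (nat_lit 0x14f18c00eb7ac0002204004dc630031deb00002810013f18c00eb7ac00006040051c63003ddeb0000001002300080030002006000086c0f03)))) 
(.lf (nat_lit 35816624) (dlOf (nat_lit 1) (nat_lit 0x20019012c01)))) (.nd (nat_lit 22) 
(.lf (nat_lit 11173936) (dlOf (nat_lit 1) (nat_lit 0x400400040018670682))) 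
(.lf (nat_lit 15368240) (dlOf (nat_lit 2) (nat_lit 0x951400038040044004001600087e0702)))))) 
(.nd (nat_lit 19) (.nd (nat_lit 7) (.nd (nat_lit 8) 
(.lf (nat_lit 134644272) (dlOf (nat_lit 2) (nat_lit 0x1203100000018090f00))) 
(.lf (nat_lit 11960624) (dlOf (nat_lit 1) (nat_lit 0x4002000200086c0502)))) (.nd (nat_lit 11) 
(.nd (nat_lit 28) 
(.lf (nat_lit 3221651888) (dlOf (nat_lit 7) (nat_lit 0xac08c008800201180460043f8100810230020300804081180101604020408c0080a020110046001e0228020241000600080040002002e0008170783))) 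
(.lf (nat_lit 805732784) (dlOf (nat_lit 5) (nat_lit 0x480158018c0260080c04005c056002800980202c100498158018c0260080a04012005600630098020241000980080030002003400081a0783)))) 
(.lf (nat_lit 3490089392) (dlOf (nat_lit 1) (nat_lit 0x400200020008004e82))))) (.nd (nat_lit 9) 
(.nd (nat_lit 20) (.lf (nat_lit 17727536) (dlOf (nat_lit 1) (nat_lit 0x3000288f0e81))) 
(.lf (nat_lit 4096048) (dlOf (nat_lit 2) (nat_lit 0x412f0002b018280680)))) (.nd (nat_lit 20) 
(.nd (nat_lit 21) 
(.lf (nat_lit 3490611760) (dlOf (nat_lit 5) (nat_lit 0x7015400fa0a90000901001c055003cc2a40002004006a1540000f8101210a9000074080268008000400200020008018003))) 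
(.lf (nat_lit 3047984) (dlOf (nat_lit 1) (nat_lit 0x60028200f01)))) 
(.lf (nat_lit 3493757488) (dlOf (nat_lit 2) (nat_lit 0x60680000a8181b0f00))))))) (.nd (nat_lit 27) 
(.nd (nat_lit 29) (.nd (nat_lit 31) (.nd (nat_lit 7) 
(.lf (nat_lit 68583472) (dlOf (nat_lit 2) (nat_lit 0x40000002402000c00085e0801))) 
(.lf (nat_lit 4362240432) (dlOf (nat_lit 1) (nat_lit 0x480080024002000e0008017483)))) 
(.nd (nat_lit 28) (.nd (nat_lit 30) 
(.lf (nat_lit 2214756400) (dlOf (nat_lit 1) (nat_lit 0x4004000200080a0002))) 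
(.lf (nat_lit 3288498224) (dlOf (nat_lit 4) (nat_lit 0x150080000c0160001604002000b0000a0100120050000080800280080018002001a0008030c83)))) 
(.lf (nat_lit 2483191856) (dlOf (nat_lit 3) (nat_lit 0x40000000880800180a8000c01c000140400240018070901))))) 
(.nd (nat_lit 10) (.nd (nat_lit 9) 
(.lf (nat_lit 3020066864) (dlOf (nat_lit 1) (nat_lit 0x20008000c00200040008127c03))) 
(.nd (nat_lit 20) 
(.lf (nat_lit 2752414256) (dlOf (nat_lit 2) (nat_lit 0x3049000a350200200018018b01))) 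
(.lf (nat_lit 2755559984) (dlOf (nat_lit 2) (nat_lit 0x60680000a0181b0f00))))) (.nd (nat_lit 8) 
(.lf (nat_lit 2754776624) (dlOf (nat_lit 2) (nat_lit 0x662180002a0180f7180))) 
(.lf (nat_lit 2751891248) (dlOf (nat_lit 1) (nat_lit 0x9000400020008003d82)))))) (.nd (nat_lit 28) 
(.nd (nat_lit 18) (.nd (nat_lit 19) (.nd (nat_lit 30) 
(.lf (nat_lit 6643941424) (dlOf (nat_lit 1) (nat_lit 0x20028090d81))) 
(.lf (nat_lit 3422715952) (dlOf (nat_lit 2) (nat_lit 0x280800005a04003800400160008070682)))) 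
(.lf (nat_lit 3960111152) (dlOf (nat_lit 19) (nat_lit 0xa9e038054600b028e8000000ac0c03180800302038015f00b0001541802900e0002002c00054040540040003001c016a0058000a60c001c070000520200a802e000110100330170000840803680b80003c04024c05c0001c02027202e0000d8100230170000600808f80b80002e04048805c0001402029605402a4017002f00a80108050006401d014e00780004c3009400b8000803a0001204023002e000088100150170000400806080b80001e040154004073400181b0682)))) 
(.nd (nat_lit 7) (.lf (nat_lit 201753136) (dlOf (nat_lit 2) (nat_lit 0x1203100000018090f00))) 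
(.nd (nat_lit 8) (.lf (nat_lit 738623664) (dlOf (nat_lit 1) (nat_lit 0x200180c1601))) 
(.lf (nat_lit 3959849392) (dlOf (nat_lit 2) (nat_lit 0x6804600717018170780)))))) (.nd (nat_lit 7) 
(.nd (nat_lit 9) (.nd (nat_lit 29) 
(.lf (nat_lit 3691151408) (dlOf (nat_lit 1) (nat_lit 0xd4002002a0008050482))) 
(.lf (nat_lit 5301764144) (dlOf (nat_lit 1) (nat_lit 0x1400400120008090002)))) 
(.lf (nat_lit 4228022832) (dlOf (nat_lit 2) (nat_lit 0x7203100012018018000)))) (.nd (nat_lit 11) 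
(.lf (nat_lit 469926320) (dlOf (nat_lit 1) (nat_lit 0x20028017481))) 
(.lf (nat_lit 1007847856) (dlOf (nat_lit 1) (nat_lit 0x780028804e81))))))))) (.nd (nat_lit 11) 
(.nd (nat_lit 7) (.nd (nat_lit 8) (.nd (nat_lit 30) (.nd (nat_lit 17) (.nd (nat_lit 9) 
(.nd (nat_lit 21) (.lf (nat_lit 9732208) (dlOf (nat_lit 1) (nat_lit 0x400200020008580d02))) 
(.lf (nat_lit 62161008) (dlOf (nat_lit 5) (nat_lit 0x837e000219400050270000141800106fc0014328000a04e000020300010df80030650001809c000030600021bf00060ca00030138000040c0004002000a0009960d02)))) 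
(.lf (nat_lit 8160880) (dlOf (nat_lit 1) (nat_lit 0x800200040008513982)))) (.nd (nat_lit 9) 
(.nd (nat_lit 18) (.lf (nat_lit 44204144) (dlOf (nat_lit 1) (nat_lit 0x200292d0a81))) 
(.lf (nat_lit 3047536) (dlOf (nat_lit 1) (nat_lit 0x8008008c00200200008200003)))) 
(.lf (nat_lit 474121840) (dlOf (nat_lit 1) (nat_lit 0x600190e3981))))) (.nd (nat_lit 18) 
(.nd (nat_lit 10) (.nd (nat_lit 17) 
(.lf (nat_lit 1346404464) (dlOf (nat_lit 10) (nat_lit 0x102a4001014f000407b800138180028548002029e000c0f7000268300040a90003853c00141ee0004306000615200070a7800203dc000840c00182a4001414f000a07b8000f8180030548002029e00160f70001e0300030a90001853c000760800142a4001614f0001b8200030a78000cc080178008000c002001a0008f60183))) 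
(.lf (nat_lit 1346535536) (dlOf (nat_lit 5) (nat_lit 0xc2250009106800306880000a0c000845c000c2250009106800286880000810002845c00082250005106800306880000610002445c000c2250005106800386880000410000800400020008fa0d02)))) 
(.lf (nat_lit 3691025520) (dlOf (nat_lit 1) (nat_lit 0x20028009401)))) (.nd (nat_lit 10) 
(.nd (nat_lit 17) 
(.lf (nat_lit 5838766192) (dlOf (nat_lit 1) (nat_lit 0x80080004002000200081b0003))) 
(.lf (nat_lit 4228284528) (dlOf (nat_lit 1) (nat_lit 0x20028090001)))) 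
(.lf (nat_lit 3557069936) (dlOf (nat_lit 2) (nat_lit 0x40000000440400a000200120008129402)))))) 
(.nd (nat_lit 17) (.nd (nat_lit 32) (.nd (nat_lit 26) 
(.lf (nat_lit 268730736) (dlOf (nat_lit 1) (nat_lit 0x40028115801))) 
(.lf (nat_lit 1946452336) (dlOf (nat_lit 1) (nat_lit 0x20018090781)))) (.nd (nat_lit 27) 
(.nd (nat_lit 28) 
(.lf (nat_lit 6442746224) (dlOf (nat_lit 2) (nat_lit 0x17003001c2c04000c004000200181b0782))) 
(.lf (nat_lit 4563698032) (dlOf (nat_lit 1) (nat_lit 0x8008000c002000200080c5803)))) 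
(.lf (nat_lit 4697915760) (dlOf (nat_lit 1) (nat_lit 0x8008000c002000200080c5803))))) 
(.nd (nat_lit 26) (.nd (nat_lit 18) 
(.lf (nat_lit 44204400) (dlOf (nat_lit 1) (nat_lit 0x200092d5801))) (.nd (nat_lit 22) 
(.nd (nat_lit 28) (.lf (nat_lit 3221651824) (dlOf (nat_lit 1) (nat_lit 0x14800400160008170782))) 
(.lf (nat_lit 805732720) (dlOf (nat_lit 1) (nat_lit 0xe00181a0781)))) 
(.lf (nat_lit 21397872) (dlOf (nat_lit 2) (nat_lit 0x142a2000a142000609b002c10180110008009800200860008a35803))))) 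
(.nd (nat_lit 27) (.nd (nat_lit 29) 
(.lf (nat_lit 4362502512) (dlOf (nat_lit 1) (nat_lit 0x20018090781))) 
(.lf (nat_lit 1678147952) (dlOf (nat_lit 4) (nat_lit 0xb009003b3c080078158000402600e360400e405600080098038a01003280080098002003a00081a0783)))) 
(.nd (nat_lit 29) 
(.lf (nat_lit 201752944) (dlOf (nat_lit 3) (nat_lit 0x49005801c2c0404d40760118036000b00b8033b8180d8000817b800200da0008090783))) 
(.lf (nat_lit 3959849328) (dlOf (nat_lit 4) (nat_lit 0xd0023002d011401c6c08019c08c00920450071402000502300381c08029000800c4002003a0008170783)))))))) 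
(.nd (nat_lit 17) (.nd (nat_lit 10) (.nd (nat_lit 8) (.nd (nat_lit 21) (.nd (nat_lit 22) 
(.lf (nat_lit 3892609264) (dlOf (nat_lit 1) (nat_lit 0x17000800d4002004a0008160703))) 
(.lf (nat_lit 38043888) (dlOf (nat_lit 1) (nat_lit 0x20009111e81)))) (.nd (nat_lit 18) 
(.lf (nat_lit 471892208) (dlOf (nat_lit 1) (nat_lit 0x80080004002000200086b0603))) 
(.lf (nat_lit 1346142448) (dlOf (nat_lit 1) (nat_lit 0x2000400880008e61e82))))) (.nd (nat_lit 21) 
(.nd (nat_lit 19) (.lf (nat_lit 3556803568) (dlOf (nat_lit 1) (nat_lit 0x2400200080008002882))) 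
(.lf (nat_lit 558064) (dlOf (nat_lit 1) (nat_lit 0x120018002881)))) (.nd (nat_lit 9) 
(.lf (nat_lit 23364080) (dlOf (nat_lit 1) (nat_lit 0x400200040008b80d82))) 
(.lf (nat_lit 31491056) (dlOf (nat_lit 1) (nat_lit 0x60028e92881)))))) (.nd (nat_lit 12) 
(.nd (nat_lit 8) (.lf (nat_lit 335578352) (dlOf (nat_lit 1) (nat_lit 0x340028002e81))) 
(.nd (nat_lit 9) (.lf (nat_lit 8422896) (dlOf (nat_lit 1) (nat_lit 0x8008000400200020008513603))) 
(.lf (nat_lit 469796848) (dlOf (nat_lit 1) (nat_lit 0x1a0018004601))))) (.nd (nat_lit 26) 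
(.nd (nat_lit 27) 
(.lf (nat_lit 2684392944) (dlOf (nat_lit 1) (nat_lit 0x8008001c00200140008009c03))) 
(.lf (nat_lit 2281739760) (dlOf (nat_lit 1) (nat_lit 0x4000200220008009c02)))) 
(.lf (nat_lit 6643815920) (dlOf (nat_lit 1) (nat_lit 0x10004002c0008009c02)))))) (.nd (nat_lit 26) 
(.nd (nat_lit 9) (.nd (nat_lit 10) (.nd (nat_lit 18) 
(.lf (nat_lit 43155952) (dlOf (nat_lit 2) (nat_lit 0x22278000ac040004004000800092a1382))) 
(.lf (nat_lit 134644208) (dlOf (nat_lit 5) (nat_lit 0x4000bc0040c0401b4094013c02f001028200660250008080805000c4001a804001400400160008090d82)))) 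
(.lf (nat_lit 8553968) (dlOf (nat_lit 1) (nat_lit 0x400200020008513602)))) (.nd (nat_lit 20) 
(.lf (nat_lit 35816432) (dlOf (nat_lit 1) (nat_lit 0x20019012881))) 
(.lf (nat_lit 36865008) (dlOf (nat_lit 2) (nat_lit 0x64c3002dc819072880))))) (.nd (nat_lit 27) 
(.nd (nat_lit 8) (.lf (nat_lit 69370096) (dlOf (nat_lit 1) (nat_lit 0x20018941e81))) 
(.nd (nat_lit 10) 
(.lf (nat_lit 2751890416) (dlOf (nat_lit 1) (nat_lit 0x8008000800200020008002883))) 
(.lf (nat_lit 1677887472) (dlOf (nat_lit 2) (nat_lit 0xf80000000004004800200080008114602))))) 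
(.nd (nat_lit 10) (.nd (nat_lit 18) 
(.lf (nat_lit 469926384) (dlOf (nat_lit 1) (nat_lit 0x40028017d01))) 
(.lf (nat_lit 201753072) (dlOf (nat_lit 5) (nat_lit 0x368128027805e0020604010002f001020100660250008080805000c4001a804001400400160008090d82)))) 
(.lf (nat_lit 6375507440) (dlOf (nat_lit 1) (nat_lit 0x20018003601)))))))) (.nd (nat_lit 21) 
(.nd (nat_lit 28) (.nd (nat_lit 8) (.nd (nat_lit 27) (.nd (nat_lit 10) (.nd (nat_lit 17) 
(.lf (nat_lit 4362111088) (dlOf (nat_lit 1) (nat_lit 0x20028004781))) 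
(.lf (nat_lit 9078896) (dlOf (nat_lit 1) (nat_lit 0x40018514781)))) 
(.lf (nat_lit 8559728) (dlOf (nat_lit 1) (nat_lit 0x80020004000851c102)))) (.nd (nat_lit 7) 
(.nd (nat_lit 10) (.lf (nat_lit 4429219952) (dlOf (nat_lit 1) (nat_lit 0x400400020008004782))) 
(.lf (nat_lit 2818874480) (dlOf (nat_lit 1) (nat_lit 0x98001812c101)))) 
(.lf (nat_lit 201361648) (dlOf (nat_lit 1) (nat_lit 0x440018004b81))))) (.nd (nat_lit 29) 
(.nd (nat_lit 18) (.nd (nat_lit 10) (.nd (nat_lit 17) 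
(.lf (nat_lit 5368744304) (dlOf (nat_lit 3) (nat_lit 0x4100980385808012804c01c2a04000400200020008004e82))) 
(.lf (nat_lit 55740784) (dlOf (nat_lit 1) (nat_lit 0x600296d4e81)))) 
(.lf (nat_lit 134258032) (dlOf (nat_lit 2) (nat_lit 0x1801d8000000800d8008008800200ea000800c903)))) 
(.nd (nat_lit 19) (.lf (nat_lit 297328) (dlOf (nat_lit 1) (nat_lit 0xc00400020008004e82))) 
(.lf (nat_lit 46958960) (dlOf (nat_lit 1) (nat_lit 0x40029384e81))))) (.nd (nat_lit 26) 
(.nd (nat_lit 27) (.lf (nat_lit 1610647920) (dlOf (nat_lit 1) (nat_lit 0x400400020008004e82))) 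
(.lf (nat_lit 671123824) (dlOf (nat_lit 1) (nat_lit 0xc0028004e81)))) (.nd (nat_lit 7) 
(.lf (nat_lit 4898982256) (dlOf (nat_lit 1) (nat_lit 0x400200020008004e82))) 
(.lf (nat_lit 2751633904) (dlOf (nat_lit 1) (nat_lit 0x80040002000800b282))))))) (.nd (nat_lit 8) 
(.nd (nat_lit 26) (.nd (nat_lit 7) (.nd (nat_lit 10) 
(.lf (nat_lit 3623913584) (dlOf (nat_lit 1) (nat_lit 0xa0018004781))) 
(.lf (nat_lit 2952830064) (dlOf (nat_lit 2) (nat_lit 0x270020000bc08013800800200020014000800c103)))) 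
(.lf (nat_lit 3489828080) (dlOf (nat_lit 1) (nat_lit 0x260028006501)))) (.nd (nat_lit 7) 
(.nd (nat_lit 29) 
(.lf (nat_lit 1543538800) (dlOf (nat_lit 2) (nat_lit 0xe0000000d00800400080018002002a0008004783))) 
(.lf (nat_lit 1006667888) (dlOf (nat_lit 1) (nat_lit 0x8008000400200020008004783)))) 
(.lf (nat_lit 3691026672) (dlOf (nat_lit 1) (nat_lit 0x1000080014002001e000800a903))))) 
(.nd (nat_lit 18) (.nd (nat_lit 7) (.nd (nat_lit 27) 
(.lf (nat_lit 2483063152) (dlOf (nat_lit 2) (nat_lit 0x2014003c98080038008001c002000a0008004e83))) 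
(.lf (nat_lit 4227893616) (dlOf (nat_lit 3) (nat_lit 0x202c00c7d8100060160063e8080048008002400200120008004e83)))) 
(.nd (nat_lit 9) (.lf (nat_lit 5234526704) (dlOf (nat_lit 1) (nat_lit 0x4c0018004f01))) 
(.lf (nat_lit 4094725104) (dlOf (nat_lit 1) (nat_lit 0x80008055f01))))) (.nd (nat_lit 17) 
(.lf (nat_lit 1880394096) (dlOf (nat_lit 1) (nat_lit 0x140028924e81))) (.nd (nat_lit 27) 
(.lf (nat_lit 3490089328) (dlOf (nat_lit 1) (nat_lit 0x800200020008004e82))) 
(.lf (nat_lit 403081584) (dlOf (nat_lit 1) (nat_lit 0xc004000200080e4e82)))))))) (.nd (nat_lit 19) 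
(.nd (nat_lit 17) (.nd (nat_lit 18) (.nd (nat_lit 22) 
(.lf (nat_lit 1345358192) (dlOf (nat_lit 1) (nat_lit 0x400400020008b54e82))) 
(.lf (nat_lit 49318256) (dlOf (nat_lit 1) (nat_lit 0x10008000c00200080009464e83)))) 
(.nd (nat_lit 20) (.lf (nat_lit 56920432) (dlOf (nat_lit 1) (nat_lit 0x20019794e81))) 
(.nd (nat_lit 22) 
(.lf (nat_lit 1345620336) (dlOf (nat_lit 1) (nat_lit 0x8008000400200020008d74e83))) 
(.lf (nat_lit 49580400) (dlOf (nat_lit 1) (nat_lit 0x98008004c00200160009464e83)))))) 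
(.nd (nat_lit 26) (.nd (nat_lit 20) 
(.lf (nat_lit 5773625712) (dlOf (nat_lit 1) (nat_lit 0x200280e4e81))) 
(.lf (nat_lit 49449328) (dlOf (nat_lit 1) (nat_lit 0x400200020009464e82)))) (.nd (nat_lit 7) 
(.lf (nat_lit 6377605488) (dlOf (nat_lit 1) (nat_lit 0xc00280e4e81))) 
(.lf (nat_lit 6377605616) (dlOf (nat_lit 1) (nat_lit 0x4004000200080e4f02)))))) (.nd (nat_lit 17) 
(.nd (nat_lit 7) (.nd (nat_lit 18) 
(.lf (nat_lit 37259632) (dlOf (nat_lit 1) (nat_lit 0x4002000600090d4e82))) (.nd (nat_lit 22) 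
(.lf (nat_lit 36473200) (dlOf (nat_lit 1) (nat_lit 0x60019074e81))) 
(.lf (nat_lit 49056112) (dlOf (nat_lit 1) (nat_lit 0x20029464e81))))) (.nd (nat_lit 18) 
(.lf (nat_lit 40405488) (dlOf (nat_lit 1) (nat_lit 0x4004000200191f4f02))) 
(.lf (nat_lit 33327600) (dlOf (nat_lit 1) (nat_lit 0x40028f54f01))))) (.nd (nat_lit 18) 
(.nd (nat_lit 8) (.lf (nat_lit 8030320) (dlOf (nat_lit 1) (nat_lit 0xe80018514781))) 
(.lf (nat_lit 36342128) (dlOf (nat_lit 1) (nat_lit 0x40019074e81)))) (.nd (nat_lit 7) 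
(.lf (nat_lit 49187184) (dlOf (nat_lit 1) (nat_lit 0x800200020009464e82))) 
(.lf (nat_lit 8294384) (dlOf (nat_lit 1) (nat_lit 0x20018517a81))))))))))) (.nd (nat_lit 17) 
(.nd (nat_lit 18) (.nd (nat_lit 4) (.nd (nat_lit 8) (.nd (nat_lit 26) (.nd (nat_lit 19) 
(.nd (nat_lit 20) (.nd (nat_lit 9) 
(.lf (nat_lit 29401120) (dlOf (nat_lit 1) (nat_lit 0x400400020008e00682))) 
(.lf (nat_lit 4563445280) (dlOf (nat_lit 2) (nat_lit 0xc0420007000000060100048008000400200020008003703)))) 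
(.nd (nat_lit 6) (.lf (nat_lit 47226912) (dlOf (nat_lit 1) (nat_lit 0x600080020002001e00093c0103))) 
(.lf (nat_lit 1880137952) (dlOf (nat_lit 1) (nat_lit 0x20018740581))))) (.nd (nat_lit 30) 
(.nd (nat_lit 21) (.nd (nat_lit 22) 
(.lf (nat_lit 537436192) (dlOf (nat_lit 1) (nat_lit 0x400200020008090002))) 
(.lf (nat_lit 21536800) (dlOf (nat_lit 2) (nat_lit 0x20000000ec0800f0008000400200440008a40103)))) 
(.lf (nat_lit 11051040) (dlOf (nat_lit 2) (nat_lit 0xb7e200035018660500)))) (.nd (nat_lit 6) 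
(.nd (nat_lit 31) 
(.lf (nat_lit 1343791136) (dlOf (nat_lit 1) (nat_lit 0x8008000400200020008370003))) 
(.lf (nat_lit 3491274784) (dlOf (nat_lit 2) (nat_lit 0x287b00000a04000400200040008080682)))) 
(.lf (nat_lit 1611178080) (dlOf (nat_lit 1) (nat_lit 0x1000200020008101a02)))))) (.nd (nat_lit 9) 
(.nd (nat_lit 6) (.nd (nat_lit 19) 
(.lf (nat_lit 2755698720) (dlOf (nat_lit 2) (nat_lit 0x1021400000040028002002400081b0002))) 
(.lf (nat_lit 2753077280) (dlOf (nat_lit 2) (nat_lit 0x287f80000a04000400200040008080682)))) 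
(.nd (nat_lit 7) (.nd (nat_lit 19) 
(.lf (nat_lit 471900256) (dlOf (nat_lit 1) (nat_lit 0x4004000600086b0482))) 
(.lf (nat_lit 738762848) (dlOf (nat_lit 4) (nat_lit 0xc06a0002e0200020350001581000101a8000a8080038008000400200140008101c83)))) 
(.lf (nat_lit 2483072224) (dlOf (nat_lit 1) (nat_lit 0x500080044002000e0008006503))))) 
(.nd (nat_lit 10) (.nd (nat_lit 6) 
(.lf (nat_lit 2751511072) (dlOf (nat_lit 2) (nat_lit 0x190ee00304c08001800800140020002000800b283))) 
(.lf (nat_lit 5033208416) (dlOf (nat_lit 1) (nat_lit 0x20028005381)))) (.nd (nat_lit 7) 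
(.nd (nat_lit 12) 
(.lf (nat_lit 335586848) (dlOf (nat_lit 2) (nat_lit 0x804800300220000e04002c0018003701))) 
(.lf (nat_lit 2617292320) (dlOf (nat_lit 2) (nat_lit 0xa00500607018009c00)))) 
(.lf (nat_lit 2617292448) (dlOf (nat_lit 1) (nat_lit 0x20028009f81))))))) (.nd (nat_lit 6) 
(.nd (nat_lit 10) (.nd (nat_lit 11) (.nd (nat_lit 7) 
(.lf (nat_lit 11575584) (dlOf (nat_lit 1) (nat_lit 0x80080008002000200086c0503))) 
(.lf (nat_lit 1543545248) (dlOf (nat_lit 5) (nat_lit 0xa017006f0c0800300b8000c00001bc204000402e00ddd810003017006ee40802580080084002000400080b0783)))) 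
(.nd (nat_lit 9) 
(.lf (nat_lit 1476442528) (dlOf (nat_lit 1) (nat_lit 0x800800040020002000800af83))) 
(.lf (nat_lit 4094733216) (dlOf (nat_lit 1) (nat_lit 0x80028055c81))))) (.nd (nat_lit 9) 
(.nd (nat_lit 19) (.lf (nat_lit 8431008) (dlOf (nat_lit 1) (nat_lit 0x400200020008513602))) 
(.lf (nat_lit 8955296) (dlOf (nat_lit 1) (nat_lit 0x400200020008513602)))) 
(.lf (nat_lit 4026574752) (dlOf (nat_lit 1) (nat_lit 0x40028004281))))) (.nd (nat_lit 7) 
(.nd (nat_lit 19) (.nd (nat_lit 11) 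
(.lf (nat_lit 11575648) (dlOf (nat_lit 1) (nat_lit 0x100080010002000600086c0683))) 
(.lf (nat_lit 19966304) (dlOf (nat_lit 1) (nat_lit 0x4002000200089d4e82)))) (.nd (nat_lit 26) 
(.lf (nat_lit 1342742880) (dlOf (nat_lit 1) (nat_lit 0x348008012c002009000080c0683))) 
(.lf (nat_lit 470327648) (dlOf (nat_lit 1) (nat_lit 0x348008012c002009000080c0683))))) 
(.nd (nat_lit 26) (.nd (nat_lit 10) 
(.lf (nat_lit 4966097888) (dlOf (nat_lit 1) (nat_lit 0x20028002881))) (.nd (nat_lit 28) 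
(.lf (nat_lit 3221272544) (dlOf (nat_lit 5) (nat_lit 0xc0a60008037004e6020002029800100dc012ce08001c09e000a044002b082000300300000008004000800280020022000800a603))) 
(.lf (nat_lit 805353440) (dlOf (nat_lit 5) (nat_lit 0x1013c0008070009cc04000604f000301c00259c1000280dc001401400552040002037000301200038028000c00c0000008007c002800a601))))) 
(.nd (nat_lit 9) 
(.lf (nat_lit 604026336) (dlOf (nat_lit 1) (nat_lit 0x100080020002004e0008009b03))) 
(.lf (nat_lit 6509606880) (dlOf (nat_lit 1) (nat_lit 0xec0020058000800a602)))))))) 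
(.nd (nat_lit 11) (.nd (nat_lit 19) (.nd (nat_lit 6) (.nd (nat_lit 7) (.nd (nat_lit 23) 
(.nd (nat_lit 26) 
(.lf (nat_lit 1343266864) (dlOf (nat_lit 1) (nat_lit 0x80080004002000200081e0703))) 
(.lf (nat_lit 470851632) (dlOf (nat_lit 5) (nat_lit 0x106900003a0401403360000a02001419b000020100140cd80000408004800801ec002000200081c0703)))) 
(.nd (nat_lit 8) 
(.lf (nat_lit 13672496) (dlOf (nat_lit 2) (nat_lit 0x3131300498000000ac080098002001e0008740682))) 
(.lf (nat_lit 11575600) (dlOf (nat_lit 1) (nat_lit 0x4002000200086c0502))))) (.nd (nat_lit 23) 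
(.nd (nat_lit 26) (.lf (nat_lit 3892356528) (dlOf (nat_lit 1) (nat_lit 0xc00400020008083602))) 
(.lf (nat_lit 3556812208) (dlOf (nat_lit 1) (nat_lit 0x20018003601)))) 
(.lf (nat_lit 8431024) (dlOf (nat_lit 1) (nat_lit 0x400200020008513602))))) (.nd (nat_lit 10) 
(.nd (nat_lit 9) (.nd (nat_lit 23) 
(.lf (nat_lit 1346412656) (dlOf (nat_lit 1) (nat_lit 0x20028f60181))) 
(.lf (nat_lit 46178416) (dlOf (nat_lit 1) (nat_lit 0x60029380181)))) 
(.lf (nat_lit 19968624) (dlOf (nat_lit 1) (nat_lit 0x4004000200189d8982)))) (.nd (nat_lit 7) 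
(.lf (nat_lit 1476441200) (dlOf (nat_lit 1) (nat_lit 0x20018009401))) 
(.lf (nat_lit 8431088) (dlOf (nat_lit 1) (nat_lit 0x400200020008513602)))))) (.nd (nat_lit 7) 
(.nd (nat_lit 22) (.nd (nat_lit 21) 
(.lf (nat_lit 3557335088) (dlOf (nat_lit 6) (nat_lit 0x580000001481000201c8000980801501a000800be0034049002d0240014008400f40000001c0c002e000000020100010340005019c00040be000a048000201000000028002000802fc002001a00081c0703))) 
(.nd (nat_lit 26) (.lf (nat_lit 3492323376) (dlOf (nat_lit 1) (nat_lit 0x1600080c0e81))) 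
(.lf (nat_lit 2754125872) (dlOf (nat_lit 1) (nat_lit 0x2ca00080c0f81))))) (.nd (nat_lit 24) 
(.nd (nat_lit 26) 
(.lf (nat_lit 3494420528) (dlOf (nat_lit 2) (nat_lit 0x4414000040200020008220b01))) 
(.lf (nat_lit 2756223024) (dlOf (nat_lit 2) (nat_lit 0x443e000040200020008220b01)))) 
(.lf (nat_lit 21536816) (dlOf (nat_lit 1) (nat_lit 0x2000200060008a40382))))) (.nd (nat_lit 6) 
(.nd (nat_lit 10) (.lf (nat_lit 23634096) (dlOf (nat_lit 1) (nat_lit 0x400400020008b80302))) 
(.lf (nat_lit 1344840880) (dlOf (nat_lit 1) (nat_lit 0x8008000400200020008982c03)))) 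
(.nd (nat_lit 8) (.nd (nat_lit 21) 
(.lf (nat_lit 14196976) (dlOf (nat_lit 1) (nat_lit 0x20028750701))) 
(.lf (nat_lit 45654256) (dlOf (nat_lit 1) (nat_lit 0x8c00400020009341e82)))) 
(.lf (nat_lit 1344840688) (dlOf (nat_lit 1) (nat_lit 0x20028982881))))))) (.nd (nat_lit 8) 
(.nd (nat_lit 10) (.nd (nat_lit 20) (.nd (nat_lit 6) (.nd (nat_lit 22) 
(.lf (nat_lit 3758139952) (dlOf (nat_lit 1) (nat_lit 0xc20018085181))) 
(.lf (nat_lit 473999920) (dlOf (nat_lit 1) (nat_lit 0x120029005181)))) 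
(.lf (nat_lit 3691034864) (dlOf (nat_lit 1) (nat_lit 0x40008001c002000a000800a903)))) 
(.nd (nat_lit 23) 
(.lf (nat_lit 1345366576) (dlOf (nat_lit 1) (nat_lit 0x30008001400200020008b55183))) 
(.lf (nat_lit 45132336) (dlOf (nat_lit 2) (nat_lit 0x114f60008c0200040019325181))))) 
(.nd (nat_lit 7) (.nd (nat_lit 6) (.nd (nat_lit 19) 
(.lf (nat_lit 3087052336) (dlOf (nat_lit 2) (nat_lit 0x30054008001600600090002a038007180))) 
(.lf (nat_lit 20491824) (dlOf (nat_lit 1) (nat_lit 0x3800400c600089d7182)))) 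
(.lf (nat_lit 2952838256) (dlOf (nat_lit 2) (nat_lit 0x580240001781800c100)))) (.nd (nat_lit 26) 
(.lf (nat_lit 134261936) (dlOf (nat_lit 1) (nat_lit 0x78008001800200140008006283))) 
(.lf (nat_lit 1946201264) (dlOf (nat_lit 1) (nat_lit 0x400400020008006282)))))) (.nd (nat_lit 26) 
(.nd (nat_lit 25) (.nd (nat_lit 6) (.nd (nat_lit 7) 
(.lf (nat_lit 1342221616) (dlOf (nat_lit 1) (nat_lit 0x340028006881))) 
(.lf (nat_lit 134262192) (dlOf (nat_lit 1) (nat_lit 0x1e0028006d01)))) 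
(.lf (nat_lit 4295010672) (dlOf (nat_lit 1) (nat_lit 0x40018004e81)))) (.nd (nat_lit 19) 
(.lf (nat_lit 33597808) (dlOf (nat_lit 1) (nat_lit 0x140018f54e81))) (.nd (nat_lit 20) 
(.lf (nat_lit 44607856) (dlOf (nat_lit 1) (nat_lit 0x20029324e81))) 
(.lf (nat_lit 54045040) (dlOf (nat_lit 1) (nat_lit 0x600195f4e81)))))) (.nd (nat_lit 6) 
(.nd (nat_lit 7) (.lf (nat_lit 2751506736) (dlOf (nat_lit 1) (nat_lit 0x840028004b81))) 
(.lf (nat_lit 2754652592) (dlOf (nat_lit 1) (nat_lit 0x4002000200080f4e82)))) (.nd (nat_lit 22) 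
(.nd (nat_lit 27) (.lf (nat_lit 1946200432) (dlOf (nat_lit 1) (nat_lit 0x20028004e81))) 
(.lf (nat_lit 5033208176) (dlOf (nat_lit 1) (nat_lit 0x20028004e81)))) 
(.lf (nat_lit 473999728) (dlOf (nat_lit 1) (nat_lit 0x8008000c00200040009004e83))))))))) 
(.nd (nat_lit 4) (.nd (nat_lit 28) (.nd (nat_lit 21) (.nd (nat_lit 29) (.nd (nat_lit 23) 
(.nd (nat_lit 9) (.nd (nat_lit 26) 
(.lf (nat_lit 1208262688) (dlOf (nat_lit 3) (nat_lit 0x5b0128001180801500940008a040004004000200180b0182))) 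
(.lf (nat_lit 6644080672) (dlOf (nat_lit 3) (nat_lit 0x580880014a04002c0440008602000200180e0501)))) 
(.nd (nat_lit 6) 
(.lf (nat_lit 3221529120) (dlOf (nat_lit 14) (nat_lit 0x3600e0020c81001e0070010580800580380082a04010801c0040d02006200e0020601002200700102c0800800380080e04008001c0040602017600e0020281005000700100c0800180380080404001001c0040102002000e001eb818127f00))) 
(.lf (nat_lit 34382816) (dlOf (nat_lit 1) (nat_lit 0xa0018fb2881))))) (.nd (nat_lit 19) 
(.nd (nat_lit 20) (.lf (nat_lit 29663264) (dlOf (nat_lit 1) (nat_lit 0x400200020008e30002))) 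
(.lf (nat_lit 9740320) (dlOf (nat_lit 1) (nat_lit 0x50002001c0008580102)))) (.nd (nat_lit 6) 
(.lf (nat_lit 9216032) (dlOf (nat_lit 3) (nat_lit 0x21b44a0004602000a00000022818530180))) 
(.lf (nat_lit 42770528) (dlOf (nat_lit 1) (nat_lit 0x20029280901)))))) (.nd (nat_lit 7) 
(.nd (nat_lit 22) (.nd (nat_lit 26) 
(.lf (nat_lit 2684657696) (dlOf (nat_lit 1) (nat_lit 0x2a0008110481))) 
(.lf (nat_lit 6107209760) (dlOf (nat_lit 1) (nat_lit 0x200080b0181)))) 
(.lf (nat_lit 2755960864) (dlOf (nat_lit 3) (nat_lit 0x1000002e5e04000c000011b002000200081c0901)))) 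
(.nd (nat_lit 6) 
(.lf (nat_lit 671391904) (dlOf (nat_lit 4) (nat_lit 0xe8050004b002000201f002538100210140012940800a00080068002001e0008184603))) 
(.nd (nat_lit 19) (.lf (nat_lit 2885985248) (dlOf (nat_lit 1) (nat_lit 0x280028142881))) 
(.lf (nat_lit 2752291808) (dlOf (nat_lit 1) (nat_lit 0x2200080004002003c0008002883))))))) 
(.nd (nat_lit 6) (.nd (nat_lit 23) (.nd (nat_lit 10) (.nd (nat_lit 26) 
(.lf (nat_lit 2924576) (dlOf (nat_lit 1) (nat_lit 0x4002000200081d0482))) 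
(.lf (nat_lit 2754388000) (dlOf (nat_lit 1) (nat_lit 0xa80080108002004a00080e0483)))) 
(.lf (nat_lit 19706912) (dlOf (nat_lit 2) (nat_lit 0xb52d80127c0800280080038002000200089d9203)))) 
(.nd (nat_lit 19) 
(.lf (nat_lit 14983200) (dlOf (nat_lit 2) (nat_lit 0x934c0000004002c004001200087a0602))) 
(.lf (nat_lit 28090400) (dlOf (nat_lit 1) (nat_lit 0x80018d50601))))) (.nd (nat_lit 23) 
(.nd (nat_lit 20) 
(.lf (nat_lit 2753863776) (dlOf (nat_lit 2) (nat_lit 0xe854800006040014004000e00180a1282))) 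
(.lf (nat_lit 24420448) (dlOf (nat_lit 2) (nat_lit 0x4a306c02692ec000100400020028b91301)))) 
(.nd (nat_lit 8) 
(.lf (nat_lit 62169184) (dlOf (nat_lit 9) (nat_lit 0x114b60006a590003527800328e8000945001bab0a000ea5b000352c8003a944001549e0016a3a0005514006ea830004296c00194b20002a510007527800628e8001545001ba80c0010a5b000852c80012944002549e001aa3a0005514006e9830001a96c037320400054b601b2a020012a5b00d9481000152d806c9c080398008018000200080009960783))) 
(.lf (nat_lit 11837792) (dlOf (nat_lit 1) (nat_lit 0x200186c0681))))))) (.nd (nat_lit 26) 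
(.nd (nat_lit 7) (.nd (nat_lit 19) (.nd (nat_lit 27) (.nd (nat_lit 22) 
(.lf (nat_lit 6711189536) (dlOf (nat_lit 1) (nat_lit 0x200080b0181))) 
(.lf (nat_lit 3494158368) (dlOf (nat_lit 3) (nat_lit 0x1000002ba204000c000011bc02000200081c0901)))) 
(.nd (nat_lit 6) 
(.lf (nat_lit 402956320) (dlOf (nat_lit 3) (nat_lit 0x3000020004602000c0180001f0180b0180))) 
(.lf (nat_lit 402956384) (dlOf (nat_lit 1) (nat_lit 0x68002000600080b0782))))) (.nd (nat_lit 6) 
(.nd (nat_lit 20) 
(.lf (nat_lit 3492585504) (dlOf (nat_lit 1) (nat_lit 0xa80080108002004a00080e0483))) 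
(.nd (nat_lit 21) 
(.lf (nat_lit 5773238304) (dlOf (nat_lit 5) (nat_lit 0x8050c0009c0400342860004d02004a11c000228101000a20000f80800c000800b4002000a00080b0183))) 
(.lf (nat_lit 1346150432) (dlOf (nat_lit 2) (nat_lit 0x18c286006607300000028e60180))))) 
(.lf (nat_lit 1346150496) (dlOf (nat_lit 3) (nat_lit 0x403540005804018829a014c0d9000506b806401f000000100058004005c0008e60902))))) 
(.nd (nat_lit 8) (.nd (nat_lit 6) 
(.lf (nat_lit 5637447840) (dlOf (nat_lit 1) (nat_lit 0x80080004002000200080f1303))) 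
(.lf (nat_lit 4697923808) (dlOf (nat_lit 1) (nat_lit 0xd80080038002003400080c1a83)))) 
(.nd (nat_lit 11) 
(.lf (nat_lit 4026835360) (dlOf (nat_lit 1) (nat_lit 0x10008000c00200060008090783))) 
(.lf (nat_lit 1345628576) (dlOf (nat_lit 1) (nat_lit 0x5400400020018dd4e82)))))) (.nd (nat_lit 27) 
(.nd (nat_lit 29) (.nd (nat_lit 6) 
(.lf (nat_lit 335847456) (dlOf (nat_lit 3) (nat_lit 0x3000020004602000c0180001f0180b0180))) 
(.lf (nat_lit 335847520) (dlOf (nat_lit 1) (nat_lit 0x68002000600080b0782)))) (.nd (nat_lit 7) 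
(.lf (nat_lit 4094468128) (dlOf (nat_lit 1) (nat_lit 0x1000803fc00200c80008050003))) 
(.lf (nat_lit 6241427616) (dlOf (nat_lit 1) (nat_lit 0x80080004002000200080f1303))))) 
(.nd (nat_lit 19) (.nd (nat_lit 8) 
(.lf (nat_lit 2080677920) (dlOf (nat_lit 3) (nat_lit 0x5b0128001180801500940008a040004004000200180b0182))) 
(.lf (nat_lit 1543807264) (dlOf (nat_lit 2) (nat_lit 0x7802c0047013000f008c01fc03a00a2018004d00800298020016400a008600200360000029705000100080158002001a0008187803)))) 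
(.nd (nat_lit 6) 
(.lf (nat_lit 6377218080) (dlOf (nat_lit 5) (nat_lit 0x804d00009c0400342680004d02004a10d0002281010009a8000f80800c000800b4002000a00080b0183))) 
(.lf (nat_lit 1007460576) (dlOf (nat_lit 1) (nat_lit 0x340018370581)))))))) (.nd (nat_lit 8) 
(.nd (nat_lit 28) (.nd (nat_lit 19) (.nd (nat_lit 29) (.nd (nat_lit 6) (.nd (nat_lit 7) 
(.nd (nat_lit 9) 
(.lf (nat_lit 22323248) (dlOf (nat_lit 6) (nat_lit 0x70514005028400321390002603000f0a1000284e40009608004c2720004a0200101420002401000f0a2800904e40008008000c004003c0008ac0602))) 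
(.lf (nat_lit 42248752) (dlOf (nat_lit 2) (nat_lit 0x202728001134c0011608001000400280009245182)))) 
(.lf (nat_lit 5369012400) (dlOf (nat_lit 1) (nat_lit 0x4004004a00080c1602)))) (.nd (nat_lit 9) 
(.nd (nat_lit 20) (.lf (nat_lit 38051952) (dlOf (nat_lit 1) (nat_lit 0x400200020009122482))) 
(.lf (nat_lit 62169200) (dlOf (nat_lit 8) (nat_lit 0x454b60014a59001e528800128a8000281000454b6002ea510000982001152d80004808004a96c00254b2000aa3a000451400001420002293c002d4740014a280000203000352d80012964003549e0018a3a000b51400000c28003296c001d4b20018a4f000b51d000528a0000041400e400400240009960d02)))) 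
(.lf (nat_lit 20230768) (dlOf (nat_lit 1) (nat_lit 0x200189d8981))))) (.nd (nat_lit 26) 
(.nd (nat_lit 30) 
(.lf (nat_lit 2684657712) (dlOf (nat_lit 3) (nat_lit 0x380000002d02001a0000000b818110680))) 
(.lf (nat_lit 3758399536) (dlOf (nat_lit 3) (nat_lit 0xf00c0003a20400d0060003e02a0021011800c80880039e100084002001a0008170482)))) 
(.nd (nat_lit 7) (.nd (nat_lit 9) 
(.lf (nat_lit 3825508400) (dlOf (nat_lit 2) (nat_lit 0x2b0100000680802a8008004400200c60008170c83))) 
(.lf (nat_lit 2754915888) (dlOf (nat_lit 1) (nat_lit 0x100080008002000200080f7183)))) 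
(.lf (nat_lit 5033468080) (dlOf (nat_lit 1) (nat_lit 0x8004000c00080c1602)))))) (.nd (nat_lit 21) 
(.nd (nat_lit 22) (.nd (nat_lit 9) 
(.lf (nat_lit 827440) (dlOf (nat_lit 1) (nat_lit 0x400400020008020582))) 
(.lf (nat_lit 537701936) (dlOf (nat_lit 6) (nat_lit 0x10000000b004019005a00ce024007d010800980780068000000550a01ae02d009601200488084008403c0005408008c00000028810153016802880a8037000a00660030020000000138280090008019c002011800080f7183)))) 
(.nd (nat_lit 23) 
(.lf (nat_lit 21798960) (dlOf (nat_lit 6) (nat_lit 0x7afc80016808001d3380008a04001299c000440200122240001a81001a000000080080010008001800200100008a70583))) 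
(.lf (nat_lit 13410352) (dlOf (nat_lit 3) (nat_lit 0x3c600001e2f0000d410008747c0005404000c004000a0018720f82))))) 
(.nd (nat_lit 6) (.nd (nat_lit 26) 
(.lf (nat_lit 2924592) (dlOf (nat_lit 2) (nat_lit 0x5e4240002b0181d0680))) 
(.lf (nat_lit 2754388016) (dlOf (nat_lit 3) (nat_lit 0x684420000560202aa211000098180e0680)))) 
(.nd (nat_lit 9) (.lf (nat_lit 8173680) (dlOf (nat_lit 1) (nat_lit 0x8002851a881))) 
(.lf (nat_lit 8169072) (dlOf (nat_lit 1) (nat_lit 0x60028513981))))))) (.nd (nat_lit 27) 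
(.nd (nat_lit 19) (.nd (nat_lit 26) (.nd (nat_lit 7) 
(.lf (nat_lit 1342480432) (dlOf (nat_lit 1) (nat_lit 0x8008000400200020008040703))) 
(.lf (nat_lit 4563706032) (dlOf (nat_lit 1) (nat_lit 0xd80080038002003400080c1603)))) 
(.nd (nat_lit 29) (.lf (nat_lit 335847472) (dlOf (nat_lit 2) (nat_lit 0x4026000f90180b0480))) 
(.lf (nat_lit 5167685680) (dlOf (nat_lit 2) (nat_lit 0x1c01400040020000a01000d0008007800200260008100383))))) 
(.nd (nat_lit 20) 
(.lf (nat_lit 3492585520) (dlOf (nat_lit 3) (nat_lit 0x6843f6000560202aa1fc000098180e0680))) 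
(.nd (nat_lit 21) 
(.lf (nat_lit 4095516720) (dlOf (nat_lit 2) (nat_lit 0x810e0002c02001a00080d0601))) 
(.lf (nat_lit 1346150448) (dlOf (nat_lit 1) (nat_lit 0x4400400040008e60302)))))) (.nd (nat_lit 7) 
(.nd (nat_lit 26) (.nd (nat_lit 29) 
(.lf (nat_lit 402956336) (dlOf (nat_lit 2) (nat_lit 0x4024000f98180b0480))) 
(.lf (nat_lit 3087310896) (dlOf (nat_lit 2) (nat_lit 0x2b0100000680802a8008004400200c60008170c83)))) 
(.lf (nat_lit 470065200) (dlOf (nat_lit 1) (nat_lit 0x8008000400200020008040703)))) 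
(.nd (nat_lit 6) (.nd (nat_lit 26) 
(.lf (nat_lit 4697923760) (dlOf (nat_lit 2) (nat_lit 0x490148000c0080080008004c002002800080c1603))) 
(.lf (nat_lit 4228161712) (dlOf (nat_lit 2) (nat_lit 0x200b0000cc04000400200020008044d02)))) 
(.lf (nat_lit 5772190960) (dlOf (nat_lit 1) (nat_lit 0x800400020008092e82))))))) (.nd (nat_lit 11) 
(.nd (nat_lit 26) (.nd (nat_lit 6) (.nd (nat_lit 7) (.nd (nat_lit 27) 
(.lf (nat_lit 537174320) (dlOf (nat_lit 2) (nat_lit 0x2a05f0024b018048400))) 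
(.lf (nat_lit 671392048) (dlOf (nat_lit 8) (nat_lit 0x4800800320028037800000a220c00a40580050026006f00c000f002000b000a004a002004c0000013243800080980099004010805800840260002011803280740114030008e010004400400248014011c0040058000002638a00a500e80328060018001000de0050025904000d0028012a40800300740000004002000400060018188402)))) 
(.nd (nat_lit 10) (.lf (nat_lit 8171952) (dlOf (nat_lit 1) (nat_lit 0xc0028518481))) 
(.lf (nat_lit 1610917296) (dlOf (nat_lit 1) (nat_lit 0x80028093601))))) (.nd (nat_lit 7) 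
(.lf (nat_lit 1074045296) (dlOf (nat_lit 2) (nat_lit 0x890148033b80800200080108002001a0008090783))) 
(.nd (nat_lit 9) (.lf (nat_lit 1074045424) (dlOf (nat_lit 2) (nat_lit 0x3802900103018090d80))) 
(.lf (nat_lit 5773763568) (dlOf (nat_lit 1) (nat_lit 0x400180e2881)))))) (.nd (nat_lit 6) 
(.nd (nat_lit 27) (.nd (nat_lit 28) 
(.lf (nat_lit 4362379568) (dlOf (nat_lit 1) (nat_lit 0x20028048401))) 
(.lf (nat_lit 1409589552) (dlOf (nat_lit 1) (nat_lit 0x48008000400200060008047a03)))) 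
(.nd (nat_lit 29) 
(.lf (nat_lit 1543807280) (dlOf (nat_lit 9) (nat_lit 0x1001d00100040007801400e80000005d08001e0080010002801d0000000b80c00800580032026000100e80200060000a810015805800a8026008300e801d80600154020000530a001202c001501300098020004800a007a000000288500460040025001400dc00400600000002804000c0040004801400c40000004c0600220080004002801d0000000940c00d400400080008187a02))) 
(.lf (nat_lit 4228161840) (dlOf (nat_lit 1) (nat_lit 0x10008015400200020008047a03))))) 
(.nd (nat_lit 7) (.lf (nat_lit 1946460528) (dlOf (nat_lit 1) (nat_lit 0x60018090781))) 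
(.nd (nat_lit 9) (.lf (nat_lit 1946460656) (dlOf (nat_lit 2) (nat_lit 0x3802900102818090d80))) 
(.lf (nat_lit 6377743344) (dlOf (nat_lit 1) (nat_lit 0x200280e2881))))))) (.nd (nat_lit 22) 
(.nd (nat_lit 26) (.nd (nat_lit 27) (.nd (nat_lit 20) 
(.lf (nat_lit 305520) (dlOf (nat_lit 1) (nat_lit 0x20028004e81))) 
(.lf (nat_lit 1880402288) (dlOf (nat_lit 1) (nat_lit 0x400400020018924e82)))) (.nd (nat_lit 7) 
(.lf (nat_lit 2013571440) (dlOf (nat_lit 1) (nat_lit 0xc0028124e81))) 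
(.lf (nat_lit 2013571568) (dlOf (nat_lit 1) (nat_lit 0x180018124f01))))) (.nd (nat_lit 6) 
(.lf (nat_lit 4899253040) (dlOf (nat_lit 1) (nat_lit 0x200080d5c01))) (.nd (nat_lit 27) 
(.lf (nat_lit 5436123504) (dlOf (nat_lit 2) (nat_lit 0x318044006a2040024004000200080e4e82))) 
(.lf (nat_lit 738503024) (dlOf (nat_lit 1) (nat_lit 0x20028094e81)))))) (.nd (nat_lit 20) 
(.nd (nat_lit 19) (.lf (nat_lit 56928624) (dlOf (nat_lit 1) (nat_lit 0x20029794e81))) 
(.nd (nat_lit 21) (.lf (nat_lit 46967152) (dlOf (nat_lit 1) (nat_lit 0x2000400420009384e82))) 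
(.lf (nat_lit 49064304) (dlOf (nat_lit 1) (nat_lit 0x8008000400200020009464e83))))) 
(.nd (nat_lit 25) (.nd (nat_lit 6) 
(.lf (nat_lit 8174896) (dlOf (nat_lit 1) (nat_lit 0x40040002000851c702))) 
(.lf (nat_lit 33335792) (dlOf (nat_lit 1) (nat_lit 0x60028f54f01)))) (.nd (nat_lit 19) 
(.lf (nat_lit 39102832) (dlOf (nat_lit 1) (nat_lit 0x8008001800200020009194e83))) 
(.lf (nat_lit 41724272) (dlOf (nat_lit 1) (nat_lit 0x140029244e81))))))))))) (.nd (nat_lit 4) 
(.nd (nat_lit 30) (.nd (nat_lit 19) (.nd (nat_lit 8) (.nd (nat_lit 18) (.nd (nat_lit 7) 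
(.nd (nat_lit 31) (.nd (nat_lit 6) (.nd (nat_lit 9) 
(.lf (nat_lit 4899119136) (dlOf (nat_lit 1) (nat_lit 0x3800400040008080102))) 
(.lf (nat_lit 134390304) (dlOf (nat_lit 1) (nat_lit 0x400400020008017f02)))) (.nd (nat_lit 20) 
(.lf (nat_lit 52600928) (dlOf (nat_lit 1) (nat_lit 0x148004005a0009550902))) 
(.lf (nat_lit 24289376) (dlOf (nat_lit 2) (nat_lit 0x1dd83600f297600008028b91300))))) 
(.nd (nat_lit 20) (.nd (nat_lit 28) 
(.lf (nat_lit 2147655712) (dlOf (nat_lit 3) (nat_lit 0x1006c000860402000360003e02000200080b0181))) 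
(.lf (nat_lit 6711058464) (dlOf (nat_lit 1) (nat_lit 0xa0028060b01)))) 
(.lf (nat_lit 2752684064) (dlOf (nat_lit 1) (nat_lit 0x8008000400200020008030983))))) 
(.nd (nat_lit 9) (.nd (nat_lit 6) 
(.lf (nat_lit 9609376) (dlOf (nat_lit 1) (nat_lit 0x20018571301))) 
(.lf (nat_lit 5100445920) (dlOf (nat_lit 1) (nat_lit 0x400200060008081a82)))) (.nd (nat_lit 10) 
(.nd (nat_lit 21) 
(.lf (nat_lit 738372256) (dlOf (nat_lit 1) (nat_lit 0xa800800a0002002c0008095583))) 
(.lf (nat_lit 472033952) (dlOf (nat_lit 1) (nat_lit 0x8008000400200020008805583)))) 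
(.lf (nat_lit 6509735584) (dlOf (nat_lit 1) (nat_lit 0x400400020008147202)))))) (.nd (nat_lit 6) 
(.nd (nat_lit 10) (.nd (nat_lit 21) 
(.lf (nat_lit 13017120) (dlOf (nat_lit 4) (nat_lit 0x1063900083110000681000298e40014c4400018040014639000058186f0700))) 
(.lf (nat_lit 27697184) (dlOf (nat_lit 1) (nat_lit 0x180018d10681)))) (.nd (nat_lit 9) 
(.lf (nat_lit 8827936) (dlOf (nat_lit 1) (nat_lit 0x20018519201))) 
(.lf (nat_lit 8828448) (dlOf (nat_lit 2) (nat_lit 0x3b6600607018519c00))))) (.nd (nat_lit 21) 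
(.lf (nat_lit 2819006560) (dlOf (nat_lit 1) (nat_lit 0xe0008150881))) 
(.lf (nat_lit 48668768) (dlOf (nat_lit 1) (nat_lit 0x20009420901)))))) (.nd (nat_lit 26) 
(.nd (nat_lit 7) (.nd (nat_lit 6) (.nd (nat_lit 9) 
(.lf (nat_lit 41066784) (dlOf (nat_lit 1) (nat_lit 0x20029218001))) 
(.lf (nat_lit 2281874208) (dlOf (nat_lit 1) (nat_lit 0x7c00080a2181)))) 
(.lf (nat_lit 805485408) (dlOf (nat_lit 10) (nat_lit 0x6c02600b020200040550057781001202b0009814c001402600ae606002405600120298002804c015ca0c00200ac000e0530008009802b9018006815800300a600ae30400020530056981000b009802b4408000804c012f00401080040002001811bc82)))) 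
(.nd (nat_lit 9) (.nd (nat_lit 10) 
(.lf (nat_lit 21406112) (dlOf (nat_lit 1) (nat_lit 0x20018a36b81))) 
(.lf (nat_lit 8562080) (dlOf (nat_lit 1) (nat_lit 0x400200020008513602)))) 
(.lf (nat_lit 20097952) (dlOf (nat_lit 1) (nat_lit 0x800189d5c81))))) (.nd (nat_lit 31) 
(.nd (nat_lit 6) (.lf (nat_lit 4362248608) (dlOf (nat_lit 1) (nat_lit 0x13000200020008016b82))) 
(.nd (nat_lit 11) (.lf (nat_lit 4362248544) (dlOf (nat_lit 1) (nat_lit 0x14004000e0008014f02))) 
(.lf (nat_lit 738371936) (dlOf (nat_lit 8) (nat_lit 0x2816800200b2001404b00070210076a4200008168000c08401da704002405a00ed281000102d00768c08002816403b3e0400100b2000204b00ece82000202c801a8104037320801b0004016c0018094e82))))) 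
(.nd (nat_lit 6) (.lf (nat_lit 2755043616) (dlOf (nat_lit 1) (nat_lit 0x20018104181))) 
(.nd (nat_lit 7) (.lf (nat_lit 2751641952) (dlOf (nat_lit 1) (nat_lit 0x2000800ab81))) 
(.lf (nat_lit 2751898592) (dlOf (nat_lit 1) (nat_lit 0x5800800a800200200008002883)))))))) 
(.nd (nat_lit 21) (.nd (nat_lit 25) (.nd (nat_lit 26) (.nd (nat_lit 18) (.nd (nat_lit 27) 
(.lf (nat_lit 806002720) (dlOf (nat_lit 11) (nat_lit 0x36e056000e981007c02b0006a0080d081580034e0406700ac001a402034a056015a00980066c100e20158003320404fc0ac0017902005c0560001a81000902b00003c080d2015804c0026000000400800028210481))) 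
(.lf (nat_lit 134914080) (dlOf (nat_lit 1) (nat_lit 0x8c002004a00080e0482)))) 
(.lf (nat_lit 537829408) (dlOf (nat_lit 1) (nat_lit 0x200080004002000a00081b0003)))) 
(.nd (nat_lit 27) (.lf (nat_lit 67805216) (dlOf (nat_lit 1) (nat_lit 0x3800182f0a81))) 
(.nd (nat_lit 28) (.lf (nat_lit 202022944) (dlOf (nat_lit 1) (nat_lit 0x8c002004a00080e0482))) 
(.lf (nat_lit 3154812960) (dlOf (nat_lit 2) (nat_lit 0x1402c000a014000f4028330a80)))))) 
(.nd (nat_lit 6) (.lf (nat_lit 42639392) (dlOf (nat_lit 1) (nat_lit 0x400400020009260182))) 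
(.nd (nat_lit 8) (.lf (nat_lit 59416672) (dlOf (nat_lit 1) (nat_lit 0x4002000200097f1982))) 
(.lf (nat_lit 34253152) (dlOf (nat_lit 2) (nat_lit 0x2c130006c818fb4e80)))))) (.nd (nat_lit 6) 
(.nd (nat_lit 8) (.nd (nat_lit 10) (.nd (nat_lit 22) 
(.lf (nat_lit 28221472) (dlOf (nat_lit 1) (nat_lit 0x60028d70681))) 
(.lf (nat_lit 15638560) (dlOf (nat_lit 1) (nat_lit 0x80028810681)))) 
(.lf (nat_lit 20624416) (dlOf (nat_lit 1) (nat_lit 0x3a00289d9201)))) (.nd (nat_lit 7) 
(.lf (nat_lit 8299808) (dlOf (nat_lit 1) (nat_lit 0x60018513101))) 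
(.lf (nat_lit 8303008) (dlOf (nat_lit 1) (nat_lit 0x880028518381))))) (.nd (nat_lit 7) 
(.nd (nat_lit 8) (.nd (nat_lit 20) 
(.lf (nat_lit 472555616) (dlOf (nat_lit 2) (nat_lit 0xc2ac00100cd000604b0000a81800500080038002000c00089c0903))) 
(.lf (nat_lit 29007968) (dlOf (nat_lit 1) (nat_lit 0x20018da0481)))) 
(.lf (nat_lit 12231008) (dlOf (nat_lit 1) (nat_lit 0x4002000200086c0682)))) (.nd (nat_lit 8) 
(.lf (nat_lit 8303328) (dlOf (nat_lit 1) (nat_lit 0x8008000400200020008518c83))) (.nd (nat_lit 9) 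
(.lf (nat_lit 49981920) (dlOf (nat_lit 1) (nat_lit 0x8004000200194c4e82))) 
(.lf (nat_lit 53126112) (dlOf (nat_lit 1) (nat_lit 0x20029572881))))))))) (.nd (nat_lit 31) 
(.nd (nat_lit 26) (.nd (nat_lit 6) (.nd (nat_lit 7) (.nd (nat_lit 19) 
(.lf (nat_lit 1343397920) (dlOf (nat_lit 1) (nat_lit 0x68008001000200020008220483))) 
(.lf (nat_lit 1344970784) (dlOf (nat_lit 1) (nat_lit 0x20004000e00189a0182)))) 
(.lf (nat_lit 5772321184) (dlOf (nat_lit 5) (nat_lit 0x384c4002c004004c25e0009a02000812f000460100130978002280800a800800c000200460008091003)))) 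
(.nd (nat_lit 7) (.nd (nat_lit 9) 
(.lf (nat_lit 1343660128) (dlOf (nat_lit 3) (nat_lit 0x30b080028274003880800142c2000e09d00040470005dc1800400080024002000400082e0483))) 
(.lf (nat_lit 2013439584) (dlOf (nat_lit 1) (nat_lit 0x20028093901)))) (.nd (nat_lit 10) 
(.lf (nat_lit 1611047136) (dlOf (nat_lit 3) (nat_lit 0xc058000160100020020000880800080080010002001a00080c1a83))) 
(.lf (nat_lit 5637317856) (dlOf (nat_lit 1) (nat_lit 0x4004000200080d2e02)))))) (.nd (nat_lit 9) 
(.nd (nat_lit 27) (.nd (nat_lit 10) 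
(.lf (nat_lit 1678417952) (dlOf (nat_lit 11) (nat_lit 0x36e056000e98101a102b0006bc0803e01580035a0406700ac001ab02034a056015a009800674100e20158003360404fc0ac0017e02005c0560001d01000902b000050080d2015804c0026000000400800028210481))) 
(.lf (nat_lit 1141025824) (dlOf (nat_lit 1) (nat_lit 0x20028096001)))) (.nd (nat_lit 29) 
(.lf (nat_lit 1275240480) (dlOf (nat_lit 3) (nat_lit 0x1006c000860402000360003e02000200080b0181))) 
(.lf (nat_lit 6107078688) (dlOf (nat_lit 1) (nat_lit 0xa0028060b01))))) (.nd (nat_lit 8) 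
(.nd (nat_lit 6) 
(.lf (nat_lit 1409720864) (dlOf (nat_lit 1) (nat_lit 0x8008000400200020008090d83))) 
(.lf (nat_lit 6376565344) (dlOf (nat_lit 1) (nat_lit 0xc00400060008095382)))) (.nd (nat_lit 7) 
(.lf (nat_lit 6241299232) (dlOf (nat_lit 1) (nat_lit 0x200180d5c01))) 
(.lf (nat_lit 1141025696) (dlOf (nat_lit 1) (nat_lit 0x100018095c81))))))) (.nd (nat_lit 7) 
(.nd (nat_lit 27) (.nd (nat_lit 19) (.nd (nat_lit 8) 
(.lf (nat_lit 3490881568) (dlOf (nat_lit 1) (nat_lit 0x8008000400200020008030983))) 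
(.lf (nat_lit 3288506656) (dlOf (nat_lit 1) (nat_lit 0x8c00400020018047802)))) (.nd (nat_lit 9) 
(.lf (nat_lit 3221921824) (dlOf (nat_lit 29) (nat_lit 0xb20540316020002100fc0424070071802e003700b0008743003101500c3c0800030038000401700086c200508100010c070001e016001030300f8017000814080378100008005c002020400ac0540019020801500e40454060071202f03aa01700ce0050003d81c02700a807a002f044101700028050004801e001e70a009002e000d181036d017801a00b800344080e3805e000802e000d002036401780066c0817800bc00332040c4805e0018c02004202f000c001008702a015d80bc0e3805c0017e060164054002b020800b80e40cd005e07e802e000bd85007102a000e81040068072066e02f04060170005e4280410144029406a000b304010005100db01a800300480015e0c00100aa000780200460560001c01002402b0000d4080148144002806a000250400f2051008501a800090100118158000420403880a201500350000f02002302b0000740803e0150009c0a0066804000ac01f801900e001cc06606ba02f0352017000000402b80008110400203a000081b0483))) 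
(.lf (nat_lit 3490619936) (dlOf (nat_lit 1) (nat_lit 0x8008000800200020008017f03))))) 
(.nd (nat_lit 6) (.nd (nat_lit 8) 
(.lf (nat_lit 3960119328) (dlOf (nat_lit 29) (nat_lit 0xb20540316020002100fc0424070071802e003700b0008843003101500c3c0800030038000401700087c2007c00b80040c0402840800086038000f00b000810180378100008005c002020400ac0540019020801500e40454060071202f03aa01700ce0050003d81c02700a807a002f044101700028050004801e001e70a06da02f00340170006a81002400b800350040e3805e000802e000d38203640178006740817800bc00336040c4805e0018d02010e05402bb01781c700b80030a0c008405e00183020164054002b020800b80e40cd005e07e802e000c005007102a000e81040068072066e02f04060170005f8280410144029406a000b304010005100db01a800300480015e0c00100aa000780200460560001f01002402b0000e80803c8144021406a0002a040052051000a01a8000a01001181580004c0403880a201500350001182002302b0000880803e0150009c0a0066804000ac01f801900e001cc06606ba02f0352017000000402b80008110400203a000081b0483))) 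
(.lf (nat_lit 3624313120) (dlOf (nat_lit 1) (nat_lit 0x660028154181)))) (.nd (nat_lit 8) 
(.lf (nat_lit 3355620960) (dlOf (nat_lit 3) (nat_lit 0xa00000182604005c00000b2a02008800180a9c01))) 
(.lf (nat_lit 4228030816) (dlOf (nat_lit 3) (nat_lit 0x4f0200026100802781000140058009710400100028014f01)))))) 
(.nd (nat_lit 8) (.nd (nat_lit 11) (.nd (nat_lit 9) 
(.lf (nat_lit 4096434336) (dlOf (nat_lit 1) (nat_lit 0x1400400040008111302))) 
(.lf (nat_lit 3355621024) (dlOf (nat_lit 1) (nat_lit 0x1000280a9f81)))) (.nd (nat_lit 12) 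
(.lf (nat_lit 3825380512) (dlOf (nat_lit 1) (nat_lit 0x8008000400200020008146283))) 
(.lf (nat_lit 3221404832) (dlOf (nat_lit 1) (nat_lit 0x40040002001811c202))))) (.nd (nat_lit 9) 
(.nd (nat_lit 6) (.lf (nat_lit 4228030880) (dlOf (nat_lit 1) (nat_lit 0x188002001c0008016b82))) 
(.lf (nat_lit 3624313312) (dlOf (nat_lit 1) (nat_lit 0x400200020008157282)))) (.nd (nat_lit 11) 
(.lf (nat_lit 3355620256) (dlOf (nat_lit 1) (nat_lit 0x18002000200080a9102))) 
(.lf (nat_lit 3489840032) (dlOf (nat_lit 1) (nat_lit 0x8008051c00200fe000800bc83))))))))) 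
(.nd (nat_lit 29) (.nd (nat_lit 8) (.nd (nat_lit 9) (.nd (nat_lit 19) (.nd (nat_lit 20) 
(.nd (nat_lit 18) (.nd (nat_lit 6) (.nd (nat_lit 23) 
(.lf (nat_lit 2281873456) (dlOf (nat_lit 1) (nat_lit 0x4004000200080a0002))) 
(.lf (nat_lit 25337904) (dlOf (nat_lit 1) (nat_lit 0x100018bf0b01)))) 
(.lf (nat_lit 175344) (dlOf (nat_lit 1) (nat_lit 0x20018006501)))) (.nd (nat_lit 26) 
(.lf (nat_lit 5637578800) (dlOf (nat_lit 1) (nat_lit 0xbc00400020008110d02))) 
(.lf (nat_lit 3557204016) (dlOf (nat_lit 1) (nat_lit 0x7000200220008160d02))))) (.nd (nat_lit 22) 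
(.nd (nat_lit 18) (.nd (nat_lit 24) 
(.lf (nat_lit 3490881584) (dlOf (nat_lit 1) (nat_lit 0x1a8008002000201440008030c83))) 
(.lf (nat_lit 17997872) (dlOf (nat_lit 1) (nat_lit 0x20018900b81)))) 
(.lf (nat_lit 3491143728) (dlOf (nat_lit 1) (nat_lit 0x20028070901)))) (.nd (nat_lit 7) 
(.lf (nat_lit 30580784) (dlOf (nat_lit 3) (nat_lit 0xd71e80003602000b4f5000400000003c100010008000800200100008e40e83))) 
(.lf (nat_lit 38970544) (dlOf (nat_lit 1) (nat_lit 0x80019192c01)))))) (.nd (nat_lit 21) 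
(.nd (nat_lit 20) (.nd (nat_lit 27) (.nd (nat_lit 18) 
(.lf (nat_lit 3221921840) (dlOf (nat_lit 20) (nat_lit 0x1148038080500b02b28000000ac0c199c080095e038040200b00088000000aa100fec080046e038019a00b000150184c3010009e40700b220160002983077302001f500e0000a40803540a600660500007017000100040004a10076005c0002202000202e000100100230170000780802b00b8000380406380a8036e03f0179019824680b800036100f080a80574050019601f80d700b80002e1004b00a80290050016701f805000cc0188060092a02e000f0048000503834e01500e780a0018003f009f01700e800a80788050059800f0000987041b02a015e0140019807e039c02e005800e800048280c1015003280a0057202e000088302db02a00418140040005c0001006016e05400007810453020000000080008008104c002012800081b0683))) 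
(.lf (nat_lit 17735728) (dlOf (nat_lit 1) (nat_lit 0x200288f0e81)))) (.nd (nat_lit 26) 
(.lf (nat_lit 134914096) (dlOf (nat_lit 2) (nat_lit 0x12e00000005a04000c002002e00080e0682))) 
(.lf (nat_lit 202022960) (dlOf (nat_lit 2) (nat_lit 0x12e00000005a04000c002002e00080e0682))))) 
(.nd (nat_lit 23) (.lf (nat_lit 1343922224) (dlOf (nat_lit 1) (nat_lit 0x400400200008380e82))) 
(.lf (nat_lit 10133552) (dlOf (nat_lit 2) (nat_lit 0x163e50001a8185b0580))))) (.nd (nat_lit 7) 
(.nd (nat_lit 23) 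
(.lf (nat_lit 3492454448) (dlOf (nat_lit 2) (nat_lit 0xb07a800034040008004002000080d0b02))) 
(.lf (nat_lit 11182128) (dlOf (nat_lit 1) (nat_lit 0x20028670681)))) (.nd (nat_lit 6) 
(.lf (nat_lit 32154800) (dlOf (nat_lit 1) (nat_lit 0x800400300018ef2c02))) 
(.lf (nat_lit 20881648) (dlOf (nat_lit 1) (nat_lit 0x4002000200089e4502))))))) (.nd (nat_lit 18) 
(.nd (nat_lit 11) (.nd (nat_lit 19) (.nd (nat_lit 20) 
(.lf (nat_lit 134390320) (dlOf (nat_lit 1) (nat_lit 0x18008000800200040008018003))) 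
(.lf (nat_lit 11706928) (dlOf (nat_lit 1) (nat_lit 0x800800d8002000200086c0f03)))) 
(.lf (nat_lit 3491406384) (dlOf (nat_lit 2) (nat_lit 0x183d600061d200003028090f00)))) 
(.nd (nat_lit 6) (.nd (nat_lit 19) 
(.lf (nat_lit 54700592) (dlOf (nat_lit 1) (nat_lit 0x500080018002001c0009655183))) 
(.lf (nat_lit 56273456) (dlOf (nat_lit 1) (nat_lit 0x20004000c0019735182)))) 
(.lf (nat_lit 5435992688) (dlOf (nat_lit 1) (nat_lit 0x6f800404540008095402))))) (.nd (nat_lit 10) 
(.nd (nat_lit 27) (.nd (nat_lit 11) 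
(.lf (nat_lit 3490619952) (dlOf (nat_lit 1) (nat_lit 0x40028018001))) 
(.lf (nat_lit 60205616) (dlOf (nat_lit 3) (nat_lit 0x2aef000fe0100085778007e80800a80080020002001e0009845183)))) 
(.nd (nat_lit 26) 
(.lf (nat_lit 134652464) (dlOf (nat_lit 2) (nat_lit 0xc062000060200040018090f01))) 
(.lf (nat_lit 201761328) (dlOf (nat_lit 2) (nat_lit 0xc062000060200040018090f01))))) 
(.nd (nat_lit 7) (.lf (nat_lit 2416356912) (dlOf (nat_lit 1) (nat_lit 0x4004000200080f7182))) 
(.nd (nat_lit 23) (.lf (nat_lit 3288770224) (dlOf (nat_lit 1) (nat_lit 0x4002000200080f3a82))) 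
(.lf (nat_lit 8824496) (dlOf (nat_lit 2) (nat_lit 0x1eeac001a004001c00200400008513a82)))))))) 
(.nd (nat_lit 7) (.nd (nat_lit 11) (.nd (nat_lit 6) (.nd (nat_lit 30) 
(.lf (nat_lit 4362248496) (dlOf (nat_lit 1) (nat_lit 0x2c004000e0008014902))) 
(.lf (nat_lit 3288506672) (dlOf (nat_lit 1) (nat_lit 0x1000400020018047a02)))) (.nd (nat_lit 18) 
(.lf (nat_lit 3491406192) (dlOf (nat_lit 1) (nat_lit 0x1800400160018090782))) (.nd (nat_lit 28) 
(.lf (nat_lit 4362510704) (dlOf (nat_lit 1) (nat_lit 0x20028090781))) 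
(.lf (nat_lit 1409720688) (dlOf (nat_lit 1) (nat_lit 0x40028090781)))))) (.nd (nat_lit 21) 
(.nd (nat_lit 6) (.lf (nat_lit 3221400880) (dlOf (nat_lit 1) (nat_lit 0x24002000c0008116882))) 
(.nd (nat_lit 22) (.lf (nat_lit 3221399920) (dlOf (nat_lit 1) (nat_lit 0x800400020018114e82))) 
(.lf (nat_lit 46311792) (dlOf (nat_lit 1) (nat_lit 0x400400020009384e82))))) (.nd (nat_lit 18) 
(.lf (nat_lit 36350320) (dlOf (nat_lit 1) (nat_lit 0x40019074e81))) (.nd (nat_lit 23) 
(.lf (nat_lit 20359536) (dlOf (nat_lit 1) (nat_lit 0x8004000400189d4e82))) 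
(.lf (nat_lit 62302576) (dlOf (nat_lit 1) (nat_lit 0x200199a4e81))))))) (.nd (nat_lit 6) 
(.nd (nat_lit 10) (.nd (nat_lit 11) 
(.lf (nat_lit 4362248624) (dlOf (nat_lit 1) (nat_lit 0x38008001400200080008017483))) 
(.lf (nat_lit 4563577264) (dlOf (nat_lit 1) (nat_lit 0x400400020008094e82)))) (.nd (nat_lit 18) 
(.nd (nat_lit 19) (.lf (nat_lit 8562096) (dlOf (nat_lit 1) (nat_lit 0x400200020008513602))) 
(.lf (nat_lit 53126576) (dlOf (nat_lit 1) (nat_lit 0x20029573601)))) 
(.lf (nat_lit 1346282928) (dlOf (nat_lit 1) (nat_lit 0x400400020008e83602))))) (.nd (nat_lit 21) 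
(.nd (nat_lit 9) (.lf (nat_lit 8562160) (dlOf (nat_lit 1) (nat_lit 0x400200020008513602))) 
(.nd (nat_lit 18) (.lf (nat_lit 56271856) (dlOf (nat_lit 1) (nat_lit 0x1e0029732881))) 
(.lf (nat_lit 1476830192) (dlOf (nat_lit 1) (nat_lit 0x80028202881))))) (.nd (nat_lit 9) 
(.lf (nat_lit 473344496) (dlOf (nat_lit 1) (nat_lit 0x160008ef4f01))) (.nd (nat_lit 19) 
(.lf (nat_lit 5773894640) (dlOf (nat_lit 1) (nat_lit 0x4004000200080e2882))) 
(.lf (nat_lit 70165488) (dlOf (nat_lit 1) (nat_lit 0xc0018f42881))))))))) (.nd (nat_lit 28) 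
(.nd (nat_lit 31) (.nd (nat_lit 7) (.nd (nat_lit 6) (.nd (nat_lit 8) (.nd (nat_lit 9) 
(.lf (nat_lit 1678417968) (dlOf (nat_lit 1) (nat_lit 0x8008000400200020008210683))) 
(.lf (nat_lit 604416560) (dlOf (nat_lit 1) (nat_lit 0xd0008002800200380008205183)))) 
(.lf (nat_lit 671262512) (dlOf (nat_lit 1) (nat_lit 0x400400020018143d82)))) (.nd (nat_lit 8) 
(.lf (nat_lit 5905754224) (dlOf (nat_lit 1) (nat_lit 0xc0028144781))) (.nd (nat_lit 26) 
(.lf (nat_lit 1611047280) (dlOf (nat_lit 12) (nat_lit 0x140b40014057000100280159018003016800240ae0004042000800280158c200038168002000a0056104000c05a000802b8006010000040540010005002af85000202c8001815c00100960004005002ad84000102c8001812c00040680002005002a904000702c8002815c008740800140b20008057001ea82000102c8002015c001400a003ce060016005001e68100070028000000801e00080078002001200080c5803))) 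
(.lf (nat_lit 738632048) (dlOf (nat_lit 12) (nat_lit 0x80b20006057000402580010014016081000040b2000604b000101a00008014015f61000140b400140570001002802b7c18003016800240ae00040420008002802b78200038168002000a00adc04000c05a000802b80060100000405400100050056d05000702c8002815c013a20800140b20008057004b582000102c8002015c001400a00964060016005004b18100070028000000801e00080078002001200080c5803)))))) 
(.nd (nat_lit 8) (.nd (nat_lit 26) 
(.lf (nat_lit 1611047088) (dlOf (nat_lit 1) (nat_lit 0x380080050002002800080c1603))) 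
(.lf (nat_lit 738631856) (dlOf (nat_lit 3) (nat_lit 0xc058000160100020020000880800080080010002001a00080c1603)))) 
(.nd (nat_lit 6) (.nd (nat_lit 26) 
(.lf (nat_lit 671262640) (dlOf (nat_lit 1) (nat_lit 0x140028144381))) 
(.lf (nat_lit 1677895600) (dlOf (nat_lit 1) (nat_lit 0x8008000400200020008114383)))) 
(.lf (nat_lit 1677894640) (dlOf (nat_lit 1) (nat_lit 0x80008006c002000a0008112883)))))) 
(.nd (nat_lit 19) (.nd (nat_lit 20) (.nd (nat_lit 18) 
(.lf (nat_lit 2684526640) (dlOf (nat_lit 2) (nat_lit 0x280800005a04003800400160008090682))) 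
(.lf (nat_lit 2819006512) (dlOf (nat_lit 12) (nat_lit 0x17003f000f301003301f80078c0800280fc003ae04000807e001d502016003f000e68100b801f80072c0800a01c80036a04000c07e001a30200d8072000cd0100780390006240808901c800310040058004003c0008150482)))) 
(.nd (nat_lit 9) 
(.lf (nat_lit 2752684080) (dlOf (nat_lit 1) (nat_lit 0x1a8008002000201440008030c83))) 
(.lf (nat_lit 2754784816) (dlOf (nat_lit 1) (nat_lit 0x100080008002001400080f7183))))) 
(.nd (nat_lit 9) (.nd (nat_lit 6) (.nd (nat_lit 21) 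
(.lf (nat_lit 3960119344) (dlOf (nat_lit 20) (nat_lit 0x1148038080500b02b28000000ac0c199c080095e038040200b00088000000aa100fec080046e038019a00b000150184c3010009e40700b220160002983077302001f500e0000a40803540a600660500007017000100040004a10076005c0002202000202e000100100230170000780802b00b8000380406380a8036e03f0179019824680b800036100f080a80574050019601f80d700b80002e1004b00a80290050016701f805000cc0188060092a02e000f0048000503834e01500e780a0018003f009f01700e800a80788050059800f0000987041b02a015e0140019807e039c02e005800e800048280c1015003280a0057202e000088302db02a00418140040005c0001006016e05400007810453020000000080008008104c002012800081b0683))) 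
(.lf (nat_lit 2754256944) (dlOf (nat_lit 2) (nat_lit 0xb07f000034040008004002000080d0b02)))) 
(.lf (nat_lit 2754521456) (dlOf (nat_lit 1) (nat_lit 0x4002000200080f4e82)))) (.nd (nat_lit 7) 
(.lf (nat_lit 2753208880) (dlOf (nat_lit 2) (nat_lit 0x183fa00061e700003028090f00))) 
(.lf (nat_lit 2752161456) (dlOf (nat_lit 1) (nat_lit 0xc0008003a81))))))) (.nd (nat_lit 26) 
(.nd (nat_lit 27) (.nd (nat_lit 6) (.nd (nat_lit 8) 
(.lf (nat_lit 806002736) (dlOf (nat_lit 1) (nat_lit 0x8008000400200020008210683))) 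
(.lf (nat_lit 4026704176) (dlOf (nat_lit 1) (nat_lit 0x1000200020008048402)))) (.nd (nat_lit 8) 
(.lf (nat_lit 5100445808) (dlOf (nat_lit 1) (nat_lit 0x400200020008080a82))) 
(.lf (nat_lit 805480816) (dlOf (nat_lit 1) (nat_lit 0x30008004800200060008114e83))))) 
(.nd (nat_lit 7) (.nd (nat_lit 6) 
(.lf (nat_lit 2013438000) (dlOf (nat_lit 1) (nat_lit 0x20008090001))) 
(.lf (nat_lit 5234663536) (dlOf (nat_lit 1) (nat_lit 0x12400400860008080d02)))) (.nd (nat_lit 9) 
(.lf (nat_lit 6308405424) (dlOf (nat_lit 2) (nat_lit 0xf800b00019018071600))) 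
(.lf (nat_lit 3087181488) (dlOf (nat_lit 1) (nat_lit 0x10008000400200020008143a83)))))) 
(.nd (nat_lit 6) (.nd (nat_lit 30) (.nd (nat_lit 19) 
(.lf (nat_lit 1006805040) (dlOf (nat_lit 1) (nat_lit 0xd000280a0881))) 
(.lf (nat_lit 3154812976) (dlOf (nat_lit 6) (nat_lit 0x40ae0054019002500c00003818001806400100300000d0400180190000601000101b8001006400014080084032000801800000028330b80)))) 
(.nd (nat_lit 8) (.nd (nat_lit 9) 
(.lf (nat_lit 6241558576) (dlOf (nat_lit 1) (nat_lit 0xbc00400020008110d02))) 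
(.lf (nat_lit 4228031024) (dlOf (nat_lit 1) (nat_lit 0x1800400180008018002)))) 
(.lf (nat_lit 4228030768) (dlOf (nat_lit 1) (nat_lit 0x2c004000e0008014902))))) (.nd (nat_lit 7) 
(.nd (nat_lit 8) (.lf (nat_lit 3020078192) (dlOf (nat_lit 1) (nat_lit 0x198002812c101))) 
(.lf (nat_lit 3154294640) (dlOf (nat_lit 1) (nat_lit 0x2001815a301)))) 
(.lf (nat_lit 872850416) (dlOf (nat_lit 1) (nat_lit 0x5000400ae00080e2882)))))))))))

end

end Pool.Agent.Lib.MP_5854e1_co.Cz
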