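import Pool.Agent.Lib.MP_5854e1_co.DecRow

/-!
# Sparse corrections
-/

set_option autoImplicit false
set_option maxRecDepth 100000

namespace Pool.Agent.Lib.MP_5854e1_co.Cz

noncomputable section

noncomputable def tz141 : DT := (.nd (nat_lit 15) (.nd (nat_lit 16) (.nd (nat_lit 6) 
(.nd (nat_lit 17) (.nd (nat_lit 10) (.nd (nat_lit 26) (.nd (nat_lit 20) (.nd (nat_lit 27) 
(.nd (nat_lit 22) (.nd (nat_lit 28) 
(.lf (nat_lit 3758366734) (dlOf (nat_lit 1) (nat_lit 0x20028140181))) 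
(.lf (nat_lit 1342447630) (dlOf (nat_lit 1) (nat_lit 0x8008005000200040008030883)))) 
(.nd (nat_lit 7) 
(.lf (nat_lit 12853262) (dlOf (nat_lit 3) (nat_lit 0x8c780000502000863c0002312800000100098008003c002000c00086e0403))) 
(.lf (nat_lit 46145678) (dlOf (nat_lit 1) (nat_lit 0x80009380401))))) (.nd (nat_lit 9) 
(.nd (nat_lit 7) 
(.lf (nat_lit 2819104782) (dlOf (nat_lit 11) (nat_lit 0x26c01f802ae40800e01c80029c0409dc0e4021003f0009d02009c01f8004a40800901c80024004007c0e40011c02002603f0008701001b0390004300806081c8006407e000fe040002072000000181a0480))) 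
(.lf (nat_lit 3892846734) (dlOf (nat_lit 1) (nat_lit 0x8002000a0008280482)))) (.nd (nat_lit 8) 
(.lf (nat_lit 4698155534) (dlOf (nat_lit 3) (nat_lit 0x60340001301000101a000094080010008000c00200040008125083))) 
(.lf (nat_lit 5771373326) (dlOf (nat_lit 1) (nat_lit 0x400400020018005b02)))))) (.nd (nat_lit 8) 
(.nd (nat_lit 9) (.nd (nat_lit 22) 
(.lf (nat_lit 9969678) (dlOf (nat_lit 1) (nat_lit 0x480080094002003400085a0a03))) 
(.lf (nat_lit 5775374) (dlOf (nat_lit 1) (nat_lit 0x1a00183d0201)))) (.nd (nat_lit 11) 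
(.lf (nat_lit 58204686) (dlOf (nat_lit 3) (nat_lit 0x537e100609810018bf0802ca80802580080224002000800097c7b03))) 
(.lf (nat_lit 49818126) (dlOf (nat_lit 1) (nat_lit 0x200194c5081))))) (.nd (nat_lit 7) 
(.nd (nat_lit 9) (.nd (nat_lit 22) 
(.lf (nat_lit 1345855758) (dlOf (nat_lit 1) (nat_lit 0x28004000c0008e03a02))) 
(.lf (nat_lit 58204430) (dlOf (nat_lit 1) (nat_lit 0x8008002c002000600097c3a03)))) 
(.lf (nat_lit 19933966) (dlOf (nat_lit 4) (nat_lit 0x80a1800305080006408001428600031020022143000000189d5b00)))) 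
(.nd (nat_lit 9) (.lf (nat_lit 33302926) (dlOf (nat_lit 1) (nat_lit 0x20018f54e81))) 
(.lf (nat_lit 20458382) (dlOf (nat_lit 1) (nat_lit 0x200289d5c81))))))) (.nd (nat_lit 9) 
(.nd (nat_lit 19) (.nd (nat_lit 27) (.nd (nat_lit 29) 
(.lf (nat_lit 4362346510) (dlOf (nat_lit 2) (nat_lit 0x500320044b818030a00))) 
(.lf (nat_lit 3825475598) (dlOf (nat_lit 2) (nat_lit 0x3200e800274080148008009000200620008160483)))) 
(.nd (nat_lit 29) (.nd (nat_lit 30) 
(.lf (nat_lit 470032398) (dlOf (nat_lit 1) (nat_lit 0x8008005000200040008030883))) 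
(.lf (nat_lit 1543774222) (dlOf (nat_lit 2) (nat_lit 0x4c04a003802200336028160480)))) 
(.lf (nat_lit 4228128782) (dlOf (nat_lit 2) (nat_lit 0x500310075e018030a00))))) (.nd (nat_lit 18) 
(.lf (nat_lit 3557302286) (dlOf (nat_lit 1) (nat_lit 0x200281b0181))) (.nd (nat_lit 21) 
(.lf (nat_lit 3557564430) (dlOf (nat_lit 1) (nat_lit 0x8008000400200020008270203))) 
(.lf (nat_lit 4096532494) (dlOf (nat_lit 1) (nat_lit 0x174002003a0008120002)))))) (.nd (nat_lit 8) 
(.nd (nat_lit 12) (.nd (nat_lit 18) 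
(.lf (nat_lit 4093651470) (dlOf (nat_lit 1) (nat_lit 0x20028005081))) 
(.lf (nat_lit 4093913614) (dlOf (nat_lit 1) (nat_lit 0x800400020008005082)))) (.nd (nat_lit 7) 
(.lf (nat_lit 201341454) (dlOf (nat_lit 1) (nat_lit 0x4000800040020004000800b283))) 
(.lf (nat_lit 3557046926) (dlOf (nat_lit 1) (nat_lit 0xe0008007c00200f0000812b683))))) 
(.nd (nat_lit 18) (.nd (nat_lit 29) 
(.lf (nat_lit 1275079566) (dlOf (nat_lit 1) (nat_lit 0x40028005c81))) 
(.lf (nat_lit 5033175950) (dlOf (nat_lit 1) (nat_lit 0x400400020008005c82)))) (.nd (nat_lit 29) 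
(.lf (nat_lit 4496567182) (dlOf (nat_lit 1) (nat_lit 0x200280e5c81))) 
(.lf (nat_lit 738470798) (dlOf (nat_lit 1) (nat_lit 0x1000400040018095c82)))))))) (.nd (nat_lit 8) 
(.nd (nat_lit 7) (.nd (nat_lit 27) (.nd (nat_lit 20) (.nd (nat_lit 28) 
(.lf (nat_lit 1073751054) (dlOf (nat_lit 1) (nat_lit 0x400400020008002882))) 
(.lf (nat_lit 4026541070) (dlOf (nat_lit 1) (nat_lit 0x400400020008002882)))) (.nd (nat_lit 9) 
(.lf (nat_lit 56108046) (dlOf (nat_lit 1) (nat_lit 0x20019732881))) 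
(.lf (nat_lit 19936782) (dlOf (nat_lit 1) (nat_lit 0x800189d9c01))))) (.nd (nat_lit 11) 
(.lf (nat_lit 6106915854) (dlOf (nat_lit 1) (nat_lit 0x20028002881))) (.nd (nat_lit 12) 
(.lf (nat_lit 5771373582) (dlOf (nat_lit 1) (nat_lit 0x400200020008005f82))) 
(.lf (nat_lit 2818849806) (dlOf (nat_lit 2) (nat_lit 0x5203d0052881812bf00)))))) (.nd (nat_lit 27) 
(.nd (nat_lit 18) (.nd (nat_lit 26) 
(.lf (nat_lit 2684368526) (dlOf (nat_lit 1) (nat_lit 0x400200080008009e82))) 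
(.lf (nat_lit 67122830) (dlOf (nat_lit 1) (nat_lit 0x400400020008009e82)))) 
(.lf (nat_lit 20723342) (dlOf (nat_lit 1) (nat_lit 0x4002000200089d9e82)))) (.nd (nat_lit 9) 
(.lf (nat_lit 3355456654) (dlOf (nat_lit 1) (nat_lit 0x400400020008009502))) (.nd (nat_lit 26) 
(.lf (nat_lit 2281715342) (dlOf (nat_lit 1) (nat_lit 0x10008001c002000c0008009e83))) 
(.lf (nat_lit 6643791502) (dlOf (nat_lit 1) (nat_lit 0x800400020008009e82))))))) (.nd (nat_lit 25) 
(.nd (nat_lit 7) (.nd (nat_lit 11) (.nd (nat_lit 18) 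
(.lf (nat_lit 1344808206) (dlOf (nat_lit 1) (nat_lit 0x1c00400100008983002))) 
(.lf (nat_lit 1346643214) (dlOf (nat_lit 1) (nat_lit 0x40018fe3001)))) 
(.lf (nat_lit 4227869966) (dlOf (nat_lit 8) (nat_lit 0x14032000190100060190000b40800280c8000460400140640002102000a0320000f8100050190000780800280c80003a04009000400240018006682)))) 
(.nd (nat_lit 9) (.nd (nat_lit 12) 
(.lf (nat_lit 4227870094) (dlOf (nat_lit 2) (nat_lit 0x1c0000001602000e0008006c81))) 
(.lf (nat_lit 2885696910) (dlOf (nat_lit 1) (nat_lit 0x28008000c0020002000800c903)))) 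
(.lf (nat_lit 2751735694) (dlOf (nat_lit 1) (nat_lit 0x9c00400040008004202))))) (.nd (nat_lit 18) 
(.nd (nat_lit 19) (.lf (nat_lit 36709646) (dlOf (nat_lit 1) (nat_lit 0x400200020009073002))) 
(.nd (nat_lit 22) (.lf (nat_lit 51913998) (dlOf (nat_lit 1) (nat_lit 0x20029513001))) 
(.lf (nat_lit 47719694) (dlOf (nat_lit 1) (nat_lit 0x300029403001))))) (.nd (nat_lit 19) 
(.lf (nat_lit 36971790) (dlOf (nat_lit 1) (nat_lit 0x10008000c00200040009073003))) 
(.lf (nat_lit 36447502) (dlOf (nat_lit 1) (nat_lit 0x8008000400200ba0009073003)))))))) 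
(.nd (nat_lit 18) (.nd (nat_lit 26) (.nd (nat_lit 10) (.nd (nat_lit 23) (.nd (nat_lit 21) 
(.nd (nat_lit 9) 
(.lf (nat_lit 1342840846) (dlOf (nat_lit 1) (nat_lit 0x18008000c002003c00080e0403))) 
(.lf (nat_lit 1073881614) (dlOf (nat_lit 6) (nat_lit 0x2501480127c0801500a40093c040098052004950200500290024a010028014800080340092608008000400320018018402)))) 
(.nd (nat_lit 20) (.lf (nat_lit 36315150) (dlOf (nat_lit 1) (nat_lit 0x20019070001))) 
(.lf (nat_lit 3493470222) (dlOf (nat_lit 1) (nat_lit 0x400400040008140a02))))) (.nd (nat_lit 19) 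
(.nd (nat_lit 7) (.lf (nat_lit 47325198) (dlOf (nat_lit 1) (nat_lit 0x800193d0081))) 
(.lf (nat_lit 44179598) (dlOf (nat_lit 1) (nat_lit 0x200192d1001)))) (.nd (nat_lit 20) 
(.lf (nat_lit 11149326) (dlOf (nat_lit 2) (nat_lit 0x15655f00021818660180))) 
(.lf (nat_lit 16392206) (dlOf (nat_lit 1) (nat_lit 0x400088a0181)))))) (.nd (nat_lit 8) 
(.nd (nat_lit 9) (.lf (nat_lit 402793486) (dlOf (nat_lit 1) (nat_lit 0x400400020008092882))) 
(.lf (nat_lit 3355588110) (dlOf (nat_lit 1) (nat_lit 0x200180a9c01)))) (.nd (nat_lit 25) 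
(.nd (nat_lit 7) 
(.lf (nat_lit 805448974) (dlOf (nat_lit 3) (nat_lit 0x110098000c808005804c0003a040138004004e0018116682))) 
(.lf (nat_lit 1610753422) (dlOf (nat_lit 1) (nat_lit 0xc00200020008093602)))) (.nd (nat_lit 19) 
(.lf (nat_lit 34743566) (dlOf (nat_lit 1) (nat_lit 0x720028fb3001))) 
(.lf (nat_lit 36316430) (dlOf (nat_lit 1) (nat_lit 0x400200a80009073002))))))) (.nd (nat_lit 28) 
(.nd (nat_lit 30) (.nd (nat_lit 7) (.nd (nat_lit 19) 
(.lf (nat_lit 604119054) (dlOf (nat_lit 1) (nat_lit 0x80028030001))) 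
(.lf (nat_lit 2755272718) (dlOf (nat_lit 1) (nat_lit 0x400400040008140a02)))) 
(.lf (nat_lit 2751604622) (dlOf (nat_lit 1) (nat_lit 0x20008004201)))) (.nd (nat_lit 11) 
(.nd (nat_lit 31) (.lf (nat_lit 5435957262) (dlOf (nat_lit 1) (nat_lit 0x160018060a01))) 
(.lf (nat_lit 3288473614) (dlOf (nat_lit 1) (nat_lit 0x80018020481)))) 
(.lf (nat_lit 5972830222) (dlOf (nat_lit 1) (nat_lit 0x1000200020008144702))))) (.nd (nat_lit 9) 
(.nd (nat_lit 8) (.nd (nat_lit 10) (.nd (nat_lit 19) 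
(.lf (nat_lit 5301739534) (dlOf (nat_lit 1) (nat_lit 0x160018060a01))) 
(.lf (nat_lit 470425614) (dlOf (nat_lit 1) (nat_lit 0x18008000c002003c00080e0403)))) 
(.lf (nat_lit 2080515086) (dlOf (nat_lit 1) (nat_lit 0x400400020008092882)))) 
(.lf (nat_lit 3154256142) (dlOf (nat_lit 1) (nat_lit 0x20018133a01)))) (.nd (nat_lit 7) 
(.nd (nat_lit 11) (.lf (nat_lit 3154256398) (dlOf (nat_lit 1) (nat_lit 0x20018137b01))) 
(.lf (nat_lit 3556911630) (dlOf (nat_lit 1) (nat_lit 0x1800080d5081)))) 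
(.lf (nat_lit 4094831502) (dlOf (nat_lit 1) (nat_lit 0x80028055c81))))))) (.nd (nat_lit 31) 
(.nd (nat_lit 21) (.nd (nat_lit 32) (.nd (nat_lit 7) (.nd (nat_lit 19) 
(.lf (nat_lit 9838606) (dlOf (nat_lit 1) (nat_lit 0x50008000c00200480008580003))) 
(.lf (nat_lit 68034574) (dlOf (nat_lit 1) (nat_lit 0x400183a0181)))) 
(.lf (nat_lit 1745234318) (dlOf (nat_lit 1) (nat_lit 0x5e00280e4e81)))) (.nd (nat_lit 28) 
(.nd (nat_lit 8) 
(.lf (nat_lit 5905981454) (dlOf (nat_lit 1) (nat_lit 0x700080028002000c0008170883))) 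
(.lf (nat_lit 4362477838) (dlOf (nat_lit 1) (nat_lit 0x20028090481)))) (.nd (nat_lit 27) 
(.lf (nat_lit 4563804174) (dlOf (nat_lit 2) (nat_lit 0x446033000438180e0080))) 
(.lf (nat_lit 4698021902) (dlOf (nat_lit 2) (nat_lit 0x4460330008c0180e0080)))))) (.nd (nat_lit 19) 
(.nd (nat_lit 7) (.nd (nat_lit 9) 
(.lf (nat_lit 15081486) (dlOf (nat_lit 2) (nat_lit 0x64750017d4080068008004c002001600087b0283))) 
(.lf (nat_lit 40249870) (dlOf (nat_lit 1) (nat_lit 0x4002000200091f5082)))) 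
(.lf (nat_lit 3547278) (dlOf (nat_lit 1) (nat_lit 0x8002001c0008200102)))) (.nd (nat_lit 7) 
(.nd (nat_lit 8) 
(.lf (nat_lit 29237262) (dlOf (nat_lit 2) (nat_lit 0xabbc0000004000400400060018de0182))) 
(.lf (nat_lit 70133006) (dlOf (nat_lit 1) (nat_lit 0x20028f43001)))) 
(.lf (nat_lit 33433998) (dlOf (nat_lit 1) (nat_lit 0x400200020008f54e82)))))) (.nd (nat_lit 26) 
(.nd (nat_lit 29) (.nd (nat_lit 7) 
(.lf (nat_lit 3355844622) (dlOf (nat_lit 26) (nat_lit 0x17c066036c0310002782012c01980ef80c805640620004e060096033016f01900da80c40009a0c01800660208032000260201e101880011c080f500c4004c05800240110002303022a018808c004400f0000000450600e8031000220100b601980dd80c80438062010a02c0004014807380480008012000430e000a033012c019008d00c4000840c0588064000410201fa032000200101340190000fc0803980c806f0062008a0110001f03002a0190000f00800c80cc05d406402180310001016000380a403d4024009401100170048000e04001680c803ec0620003704020403200c90188000d4100b180c8000640404c00640003102021e032000178100b20190000b80805a80c80002c04049c064000140202da032017f0188000001003900080298002001e0008120183)))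 
(.lf (nat_lit 3490064782) (dlOf (nat_lit 1) (nat_lit 0x20018004e81)))) (.nd (nat_lit 19) 
(.lf (nat_lit 3892715534) (dlOf (nat_lit 1) (nat_lit 0x800800c0002001600081d0483))) 
(.lf (nat_lit 2819497998) (dlOf (nat_lit 2) (nat_lit 0x50160017d40800f0008002c002003000082b0283))))) 
(.nd (nat_lit 19) (.nd (nat_lit 27) 
(.lf (nat_lit 6509961230) (dlOf (nat_lit 1) (nat_lit 0x700080028002000c0008170883))) 
(.lf (nat_lit 2617647118) (dlOf (nat_lit 1) (nat_lit 0x20008130101)))) (.nd (nat_lit 9) 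
(.lf (nat_lit 3557695502) (dlOf (nat_lit 2) (nat_lit 0x5016002e0c0800f0008002c002003000082b0283))) 
(.lf (nat_lit 2752389646) (dlOf (nat_lit 14) (nat_lit 0x140860025e0100100430012ec0800602180097404003c10c004b102001c0860025801000f04300129c0800682180094c04004410c004a502001e089000404400127c10009022400341100049e04001c0890008044001254100080224002c1100049404001e089000a04400124c100038008004000200080008018403))))))))) 
(.nd (nat_lit 17) (.nd (nat_lit 18) (.nd (nat_lit 8) (.nd (nat_lit 11) (.nd (nat_lit 7) 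
(.nd (nat_lit 9) 
(.lf (nat_lit 13639758) (dlOf (nat_lit 2) (nat_lit 0x188000000400200140018730d01))) 
(.lf (nat_lit 19935822) (dlOf (nat_lit 1) (nat_lit 0x200080004002000200089d8983)))) 
(.nd (nat_lit 20) (.nd (nat_lit 26) 
(.lf (nat_lit 3493863630) (dlOf (nat_lit 2) (nat_lit 0x2015d000e28181b0480))) 
(.lf (nat_lit 2755666126) (dlOf (nat_lit 2) (nat_lit 0x20153000e28181b0480)))) 
(.lf (nat_lit 1056974) (dlOf (nat_lit 1) (nat_lit 0x400400020008065a82))))) (.nd (nat_lit 9) 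
(.nd (nat_lit 12) (.lf (nat_lit 134229198) (dlOf (nat_lit 1) (nat_lit 0x20018006401))) 
(.nd (nat_lit 27) (.lf (nat_lit 1342192846) (dlOf (nat_lit 1) (nat_lit 0x2002800c281))) 
(.lf (nat_lit 134233294) (dlOf (nat_lit 1) (nat_lit 0x60008003c002000c000800c283))))) 
(.nd (nat_lit 7) (.lf (nat_lit 3087019598) (dlOf (nat_lit 1) (nat_lit 0x80018007181))) 
(.nd (nat_lit 19) (.lf (nat_lit 4093651662) (dlOf (nat_lit 1) (nat_lit 0x20028005881))) 
(.lf (nat_lit 49818318) (dlOf (nat_lit 1) (nat_lit 0x200194c5881))))))) (.nd (nat_lit 7) 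
(.nd (nat_lit 11) (.nd (nat_lit 19) 
(.lf (nat_lit 3154254) (dlOf (nat_lit 2) (nat_lit 0x23f900019018200600))) (.nd (nat_lit 26) 
(.lf (nat_lit 1074274638) (dlOf (nat_lit 2) (nat_lit 0x2000000200181b0600))) 
(.lf (nat_lit 1946689870) (dlOf (nat_lit 2) (nat_lit 0x2000000238181b0600))))) (.nd (nat_lit 9) 
(.nd (nat_lit 10) (.lf (nat_lit 4362086734) (dlOf (nat_lit 1) (nat_lit 0x9000400320018004d82))) 
(.lf (nat_lit 4227874126) (dlOf (nat_lit 1) (nat_lit 0xc0020002000800c902)))) 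
(.lf (nat_lit 19934030) (dlOf (nat_lit 1) (nat_lit 0x4002000200089d5c02))))) (.nd (nat_lit 11) 
(.nd (nat_lit 10) (.nd (nat_lit 27) 
(.lf (nat_lit 4362085326) (dlOf (nat_lit 1) (nat_lit 0x1c00200020008002882))) 
(.lf (nat_lit 469771214) (dlOf (nat_lit 1) (nat_lit 0x5000200040008002882)))) 
(.lf (nat_lit 2348820430) (dlOf (nat_lit 1) (nat_lit 0x140008004481)))) (.nd (nat_lit 9) 
(.lf (nat_lit 671099342) (dlOf (nat_lit 1) (nat_lit 0x3400080104002003e0008004e83))) 
(.nd (nat_lit 10) (.lf (nat_lit 5368720334) (dlOf (nat_lit 2) (nat_lit 0x401000003018005d80))) 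
(.lf (nat_lit 603992014) (dlOf (nat_lit 3) (nat_lit 0x180d80096c04000c06c003d20200020028007a81)))))))) 
(.nd (nat_lit 26) (.nd (nat_lit 23) (.nd (nat_lit 20) (.nd (nat_lit 7) (.nd (nat_lit 27) 
(.lf (nat_lit 1342447694) (dlOf (nat_lit 2) (nat_lit 0x1871c0000004004800400360008030f82))) 
(.lf (nat_lit 402923598) (dlOf (nat_lit 1) (nat_lit 0x4004000200080b0682)))) 
(.lf (nat_lit 4697891022) (dlOf (nat_lit 2) (nat_lit 0x2b80000001404001c002000200080c1802)))) 
(.nd (nat_lit 7) (.nd (nat_lit 8) 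
(.lf (nat_lit 5773205582) (dlOf (nat_lit 8) (nat_lit 0x661300002b01000e0980001540801084c0000a804007c27c01401310000982001809f003b84c40002408003427c0108131000088200690988000400801500080010002005200080b0683))) 
(.lf (nat_lit 3416398) (dlOf (nat_lit 2) (nat_lit 0x274500019018200600)))) 
(.lf (nat_lit 20198094) (dlOf (nat_lit 1) (nat_lit 0x4002000200089d8c82))))) (.nd (nat_lit 24) 
(.nd (nat_lit 20) (.nd (nat_lit 22) 
(.lf (nat_lit 9183310) (dlOf (nat_lit 1) (nat_lit 0xc00400020018530682))) 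
(.lf (nat_lit 13377614) (dlOf (nat_lit 1) (nat_lit 0x1c8008005400200960008721903)))) 
(.lf (nat_lit 10231886) (dlOf (nat_lit 1) (nat_lit 0x4002000200085c0f82)))) (.nd (nat_lit 19) 
(.nd (nat_lit 20) (.lf (nat_lit 29630542) (dlOf (nat_lit 1) (nat_lit 0x800400020018e30182))) 
(.lf (nat_lit 26484814) (dlOf (nat_lit 1) (nat_lit 0x20008c50701)))) 
(.lf (nat_lit 59514958) (dlOf (nat_lit 2) (nat_lit 0x525920001b019800680)))))) (.nd (nat_lit 7) 
(.nd (nat_lit 27) (.nd (nat_lit 19) (.nd (nat_lit 32) 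
(.lf (nat_lit 335814734) (dlOf (nat_lit 1) (nat_lit 0x4004000200080b0682))) 
(.lf (nat_lit 4630782030) (dlOf (nat_lit 1) (nat_lit 0x4004000200080b0682)))) 
(.lf (nat_lit 4096532558) (dlOf (nat_lit 1) (nat_lit 0xec00200520008120502)))) (.nd (nat_lit 30) 
(.nd (nat_lit 32) 
(.lf (nat_lit 470032462) (dlOf (nat_lit 2) (nat_lit 0x1871c0000004004800400360008030f82))) 
(.lf (nat_lit 4764999758) (dlOf (nat_lit 1) (nat_lit 0x4004000200080b0682)))) (.nd (nat_lit 19) 
(.lf (nat_lit 1543774286) (dlOf (nat_lit 2) (nat_lit 0x2404a000000200020008160901))) 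
(.lf (nat_lit 6377185358) (dlOf (nat_lit 8) (nat_lit 0x661210002b01000e090800154080108484000a804007c262014012200009820018098803b8488000240800342620108122000088200690910000400801500080010002005200080b0683)))))) 
(.nd (nat_lit 8) (.nd (nat_lit 11) 
(.lf (nat_lit 3557044942) (dlOf (nat_lit 1) (nat_lit 0x9d800800a0002004c0008128c83))) 
(.nd (nat_lit 21) (.lf (nat_lit 4093913806) (dlOf (nat_lit 1) (nat_lit 0x800400020008005882))) 
(.lf (nat_lit 6377712334) (dlOf (nat_lit 1) (nat_lit 0x4002000200080e5882))))) (.nd (nat_lit 9) 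
(.lf (nat_lit 473180622) (dlOf (nat_lit 1) (nat_lit 0x20018d74e81))) (.nd (nat_lit 10) 
(.lf (nat_lit 4496567246) (dlOf (nat_lit 8) (nat_lit 0xe01a001580c8008c0460001b06004c0340029019000c808c000300c00ec06400340220000a8200040190000500801480c8009404400011040012032000080100110190000000801800080060002001000080e5d83))) 
(.lf (nat_lit 2751735758) (dlOf (nat_lit 1) (nat_lit 0x38008001800200060008004483))))))))) 
(.nd (nat_lit 18) (.nd (nat_lit 26) (.nd (nat_lit 31) (.nd (nat_lit 28) (.nd (nat_lit 9) 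
(.nd (nat_lit 19) 
(.lf (nat_lit 25305166) (dlOf (nat_lit 9) (nat_lit 0x2761bc000a20400cb22c0004d020017916000cc3800012410014e1c00009004088322c044587000023820145c8b00a1e1c00008c0805f722c02df8700002282003bc8b001de1c00008808014800400100008bf0d02))) 
(.lf (nat_lit 134881358) (dlOf (nat_lit 2) (nat_lit 0xbf00c4048c05800f4014014300880015820006800802ec002007400080d0d03)))) 
(.lf (nat_lit 20067918) (dlOf (nat_lit 1) (nat_lit 0x800189d9c01)))) (.nd (nat_lit 7) 
(.nd (nat_lit 10) 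
(.lf (nat_lit 805969998) (dlOf (nat_lit 4) (nat_lit 0x5102a80268138014006e00c0024005400900300028018c00c000300e003e055001b027000f00dc00d405600720240022009001d002800d800c0002b1000a4055003502980278138014806e00ac02b0058012002a0048017c02000b000a00570030000a850014000800d000201380008201503))) 
(.lf (nat_lit 5637284942) (dlOf (nat_lit 1) (nat_lit 0x2c00180d2881)))) 
(.lf (nat_lit 4563545038) (dlOf (nat_lit 3) (nat_lit 0x3c0520001b0200060290000c018095d80))))) 
(.nd (nat_lit 27) (.nd (nat_lit 19) (.nd (nat_lit 20) 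
(.lf (nat_lit 2416058446) (dlOf (nat_lit 1) (nat_lit 0x20028030f81))) 
(.lf (nat_lit 3490848846) (dlOf (nat_lit 2) (nat_lit 0x221c500110d70000001001400080024002001c0008030f83)))) 
(.lf (nat_lit 3492421710) (dlOf (nat_lit 1) (nat_lit 0x80080010002000200080d0d03)))) 
(.nd (nat_lit 7) (.nd (nat_lit 9) 
(.lf (nat_lit 2550276174) (dlOf (nat_lit 1) (nat_lit 0x20028030f81))) 
(.lf (nat_lit 3355588174) (dlOf (nat_lit 1) (nat_lit 0x10004006200080a9c02)))) 
(.lf (nat_lit 3624018126) (dlOf (nat_lit 3) (nat_lit 0x6e01b000800100074410014006c0039e040014004000200180b0482)))))) 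
(.nd (nat_lit 27) (.nd (nat_lit 11) (.nd (nat_lit 19) (.nd (nat_lit 20) 
(.lf (nat_lit 4630650958) (dlOf (nat_lit 1) (nat_lit 0x40008040501))) 
(.lf (nat_lit 2752651342) (dlOf (nat_lit 2) (nat_lit 0x221d700110e18000001001400080024002001c0008030f83)))) 
(.lf (nat_lit 2754224206) (dlOf (nat_lit 1) (nat_lit 0x80080010002000200080d0d03)))) 
(.nd (nat_lit 8) (.lf (nat_lit 68823630) (dlOf (nat_lit 1) (nat_lit 0x8008000400200020008785283))) 
(.nd (nat_lit 9) 
(.lf (nat_lit 1409428814) (dlOf (nat_lit 3) (nat_lit 0xa02f80004008005817c0001c04001c004001c0018006a02))) 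
(.lf (nat_lit 6241266510) (dlOf (nat_lit 1) (nat_lit 0x4200280d5c01)))))) (.nd (nat_lit 7) 
(.nd (nat_lit 29) (.nd (nat_lit 19) 
(.lf (nat_lit 4764868686) (dlOf (nat_lit 1) (nat_lit 0x40008040501))) 
(.lf (nat_lit 201990222) (dlOf (nat_lit 2) (nat_lit 0xbf00c4048c05800f4014014300880013c20006800802ec002007400080d0d03)))) 
(.nd (nat_lit 8) 
(.lf (nat_lit 3959563342) (dlOf (nat_lit 2) (nat_lit 0xcc01c015e00200020018112881))) 
(.lf (nat_lit 3959564622) (dlOf (nat_lit 1) (nat_lit 0x20018114d81))))) (.nd (nat_lit 8) 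
(.lf (nat_lit 2885820622) (dlOf (nat_lit 3) (nat_lit 0x6e01a00080010007441001400680039e040014004000200180b0482))) 
(.nd (nat_lit 11) 
(.lf (nat_lit 3959563214) (dlOf (nat_lit 7) (nat_lit 0x4000e00af281002c0070016000002bb408009c01c000600000aec82001f0070001800002bb00800d001c00a800000aeb82001e0070001800002ba208006800401540008112882))) 
(.lf (nat_lit 738339790) (dlOf (nat_lit 3) (nat_lit 0x1281600054082005c032002e00e000a805c005402c000a00d002800180006c4000380a80002a04006c00400040018095d82)))))))) 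
(.nd (nat_lit 8) (.nd (nat_lit 30) (.nd (nat_lit 23) (.nd (nat_lit 7) 
(.lf (nat_lit 4496695374) (dlOf (nat_lit 1) (nat_lit 0x300080038002004e0008120503))) 
(.nd (nat_lit 10) (.lf (nat_lit 1007034574) (dlOf (nat_lit 1) (nat_lit 0x180018150481))) 
(.lf (nat_lit 19807438) (dlOf (nat_lit 1) (nat_lit 0x600289dc281))))) (.nd (nat_lit 9) 
(.nd (nat_lit 20) (.lf (nat_lit 29761614) (dlOf (nat_lit 1) (nat_lit 0xc0028e30181))) 
(.lf (nat_lit 9838670) (dlOf (nat_lit 1) (nat_lit 0xb000800c0002007c0008580503)))) 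
(.lf (nat_lit 42347086) (dlOf (nat_lit 1) (nat_lit 0x64002004a0009245282))))) (.nd (nat_lit 28) 
(.nd (nat_lit 7) (.nd (nat_lit 26) 
(.lf (nat_lit 1074143310) (dlOf (nat_lit 2) (nat_lit 0x2809c00068040010004001800180c1902))) 
(.lf (nat_lit 3288735822) (dlOf (nat_lit 7) (nat_lit 0x7e040000298100200050001440802c008000092040500040000470200c2020000230100580100001140801a00080158002009200080d0d03)))) 
(.lf (nat_lit 1745234638) (dlOf (nat_lit 1) (nat_lit 0x7200280e5881)))) (.nd (nat_lit 32) 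
(.nd (nat_lit 21) 
(.lf (nat_lit 4026933326) (dlOf (nat_lit 7) (nat_lit 0x7e040000260100200050001280802c008000084040500040000400200c20200001f8100580100000f80801a00080158002009200080d0d03))) 
(.lf (nat_lit 1881546830) (dlOf (nat_lit 2) (nat_lit 0x80f4000000200040018f40681)))) 
(.nd (nat_lit 26) 
(.lf (nat_lit 5637546062) (dlOf (nat_lit 2) (nat_lit 0x2a00e8001d00800f8008004400200260008100503))) 
(.lf (nat_lit 6241525838) (dlOf (nat_lit 2) (nat_lit 0x2a00e8001d00800f8008004400200260008100503))))))) 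
(.nd (nat_lit 28) (.nd (nat_lit 7) (.nd (nat_lit 20) (.nd (nat_lit 27) 
(.lf (nat_lit 4295369038) (dlOf (nat_lit 1) (nat_lit 0x4002000200081a0602))) 
(.lf (nat_lit 4429586766) (dlOf (nat_lit 1) (nat_lit 0x4002000200081a0602)))) (.nd (nat_lit 22) 
(.lf (nat_lit 3547470) (dlOf (nat_lit 1) (nat_lit 0x38008000c002000a0008200603))) 
(.lf (nat_lit 58073422) (dlOf (nat_lit 8) (nat_lit 0xa1940006204000f0ca000a86500017020006c328001a1940005a0800170ca000486500003020003c328001a1940000a0800130ca000286500001020003c320001219400000080008004002800197b8982))))) 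
(.nd (nat_lit 11) (.nd (nat_lit 19) 
(.lf (nat_lit 4362478030) (dlOf (nat_lit 4) (nat_lit 0x1f20330000e8100230198000700807980cc00036040078004008a0008090a02))) 
(.lf (nat_lit 2753438158) (dlOf (nat_lit 1) (nat_lit 0x8008000400200020008090a03)))) 
(.lf (nat_lit 50211278) (dlOf (nat_lit 1) (nat_lit 0x6c002005800094c4e82))))) (.nd (nat_lit 11) 
(.nd (nat_lit 7) (.nd (nat_lit 21) 
(.lf (nat_lit 872817998) (dlOf (nat_lit 1) (nat_lit 0x4002000200080e3302))) 
(.lf (nat_lit 5773862222) (dlOf (nat_lit 2) (nat_lit 0x5413f000110180e3300)))) (.nd (nat_lit 19) 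
(.lf (nat_lit 4228260302) (dlOf (nat_lit 4) (nat_lit 0x1f20320000e8100230190000700807980c800036040078004008a0008090a02))) 
(.lf (nat_lit 3491635662) (dlOf (nat_lit 1) (nat_lit 0x8008000400200020008090a03))))) 
(.nd (nat_lit 19) (.lf (nat_lit 872819150) (dlOf (nat_lit 1) (nat_lit 0x44002009600080e4e82))) 
(.nd (nat_lit 20) 
(.lf (nat_lit 472787406) (dlOf (nat_lit 2) (nat_lit 0x301720168202000a0028b04e81))) 
(.lf (nat_lit 1881024974) (dlOf (nat_lit 1) (nat_lit 0xc00400060008dd4e82))))))))))) 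
(.nd (nat_lit 28) (.nd (nat_lit 18) (.nd (nat_lit 6) (.nd (nat_lit 17) (.nd (nat_lit 19) 
(.nd (nat_lit 7) (.nd (nat_lit 8) (.nd (nat_lit 21) 
(.lf (nat_lit 1610686478) (dlOf (nat_lit 1) (nat_lit 0xe0018090001))) 
(.lf (nat_lit 27336718) (dlOf (nat_lit 1) (nat_lit 0x500018cd0281)))) 
(.lf (nat_lit 738274062) (dlOf (nat_lit 1) (nat_lit 0x20018095b01)))) (.nd (nat_lit 8) 
(.lf (nat_lit 6039876750) (dlOf (nat_lit 1) (nat_lit 0x8008000400200020008009503))) 
(.lf (nat_lit 54602638) (dlOf (nat_lit 1) (nat_lit 0x80080040002000a0009655c83))))) 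
(.nd (nat_lit 21) (.nd (nat_lit 22) (.nd (nat_lit 26) 
(.lf (nat_lit 1611210766) (dlOf (nat_lit 10) (nat_lit 0x10290009300800080140042404001c0a4002110200100520010781000702a80048148005c06e0024034000101600008008003fe18001c0a4003c034000fe820003029000180d0003f00800640ae001e9020002052000f3818110080))) 
(.lf (nat_lit 738795534) (dlOf (nat_lit 10) (nat_lit 0x10290008d0080008014003fa04001c0a4001fc020010052000fd01000702a80048148005c06e0024034000101600008008003da18001c0a4003c034000f5820003029000180d0003cc0800640ae001d4020002052000e9018110080)))) 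
(.lf (nat_lit 2756255758) (dlOf (nat_lit 1) (nat_lit 0x20018230081)))) (.nd (nat_lit 7) 
(.nd (nat_lit 24) 
(.lf (nat_lit 11083790) (dlOf (nat_lit 2) (nat_lit 0x2c4de000380200080028660181))) 
(.lf (nat_lit 27861006) (dlOf (nat_lit 2) (nat_lit 0x6ab9400295c6001ca0b0002f838d30200)))) 
(.lf (nat_lit 20526734) (dlOf (nat_lit 1) (nat_lit 0x8002000e00089d9e82)))))) (.nd (nat_lit 20) 
(.nd (nat_lit 7) (.nd (nat_lit 11) (.nd (nat_lit 22) 
(.lf (nat_lit 604184590) (dlOf (nat_lit 3) (nat_lit 0x44016001100a80080000002740c005802c02d6011000100000000018001800800f400200540008080483))) 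
(.lf (nat_lit 12787726) (dlOf (nat_lit 1) (nat_lit 0x4002000200086e0402)))) 
(.lf (nat_lit 5905786894) (dlOf (nat_lit 1) (nat_lit 0x400200020008144702)))) (.nd (nat_lit 8) 
(.lf (nat_lit 3355653262) (dlOf (nat_lit 1) (nat_lit 0x14004000200080a9502))) (.nd (nat_lit 9) 
(.lf (nat_lit 58927502) (dlOf (nat_lit 1) (nat_lit 0x4002000200097e4e82))) 
(.lf (nat_lit 1141058446) (dlOf (nat_lit 3) (nat_lit 0x20a026000308100c001300018008019000800d400200140008095c83)))))) 
(.nd (nat_lit 8) (.nd (nat_lit 9) 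
(.lf (nat_lit 22749198) (dlOf (nat_lit 2) (nat_lit 0xd608004aada0002b028b20180))) (.nd (nat_lit 19) 
(.lf (nat_lit 11739662) (dlOf (nat_lit 3) (nat_lit 0x200000053808000800000266040070002000a00086c0d82))) 
(.lf (nat_lit 2753241614) (dlOf (nat_lit 1) (nat_lit 0x60018090d81))))) (.nd (nat_lit 7) 
(.nd (nat_lit 9) (.lf (nat_lit 1253646) (dlOf (nat_lit 1) (nat_lit 0x200080a3a01))) 
(.lf (nat_lit 54209294) (dlOf (nat_lit 3) (nat_lit 0x7c98a00104bb000190200062628000c4080190008006c00200500009655b03)))) 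
(.lf (nat_lit 37431694) (dlOf (nat_lit 1) (nat_lit 0x38002001200090d4e82))))))) (.nd (nat_lit 8) 
(.nd (nat_lit 7) (.nd (nat_lit 17) (.nd (nat_lit 21) (.nd (nat_lit 23) (.nd (nat_lit 24) 
(.lf (nat_lit 3355517006) (dlOf (nat_lit 1) (nat_lit 0x800280a0001))) 
(.lf (nat_lit 16851022) (dlOf (nat_lit 2) (nat_lit 0x3e33800300080028008004c002002e00088e0183)))) 
(.lf (nat_lit 25239630) (dlOf (nat_lit 2) (nat_lit 0xf000000023818bf0d00)))) (.nd (nat_lit 9) 
(.nd (nat_lit 19) 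
(.lf (nat_lit 14753870) (dlOf (nat_lit 2) (nat_lit 0x8377800094080020008001000200020008770703))) 
(.lf (nat_lit 44638286) (dlOf (nat_lit 1) (nat_lit 0x160019320001)))) 
(.lf (nat_lit 20524622) (dlOf (nat_lit 1) (nat_lit 0x380080014002003800089d7183))))) 
(.nd (nat_lit 20) (.nd (nat_lit 26) 
(.lf (nat_lit 6442655822) (dlOf (nat_lit 1) (nat_lit 0x3c0008120f81))) 
(.lf (nat_lit 4496498766) (dlOf (nat_lit 1) (nat_lit 0x300080038002004e0008090503)))) 
(.lf (nat_lit 2752716878) (dlOf (nat_lit 1) (nat_lit 0x20008002c002001a0008030f83))))) 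
(.nd (nat_lit 26) (.nd (nat_lit 9) (.nd (nat_lit 20) 
(.lf (nat_lit 3221299406) (dlOf (nat_lit 2) (nat_lit 0x24020000e2818090480))) 
(.lf (nat_lit 3219662) (dlOf (nat_lit 2) (nat_lit 0x23d900123818200480)))) 
(.lf (nat_lit 20132558) (dlOf (nat_lit 1) (nat_lit 0x4002000200089d8c82)))) (.nd (nat_lit 27) 
(.lf (nat_lit 1677795534) (dlOf (nat_lit 2) (nat_lit 0x11204f00ae01c005280980048e0c000400400060008090482))) 
(.nd (nat_lit 31) 
(.lf (nat_lit 1812013262) (dlOf (nat_lit 2) (nat_lit 0x14024000600f8008f01000480080028002001c00080b0483))) 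
(.lf (nat_lit 3959496910) (dlOf (nat_lit 2) (nat_lit 0x24020000e2818090480))))))) (.nd (nat_lit 17) 
(.nd (nat_lit 9) (.nd (nat_lit 11) (.nd (nat_lit 24) 
(.lf (nat_lit 1208033614) (dlOf (nat_lit 6) (nat_lit 0xa00a400580180001d04000c02900080060000701000600a40020050001e00c0000d0300110148000440801b009c0000004037000400020008090d02))) 
(.lf (nat_lit 16851278) (dlOf (nat_lit 1) (nat_lit 0xc8002003e00088e0782)))) 
(.lf (nat_lit 671164750) (dlOf (nat_lit 1) (nat_lit 0x60028144d81)))) (.nd (nat_lit 10) 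
(.lf (nat_lit 19999566) (dlOf (nat_lit 1) (nat_lit 0x4002000200089d5c02))) 
(.lf (nat_lit 7944014) (dlOf (nat_lit 1) (nat_lit 0x2001851a201))))) (.nd (nat_lit 10) 
(.nd (nat_lit 7) (.nd (nat_lit 11) 
(.lf (nat_lit 738926926) (dlOf (nat_lit 1) (nat_lit 0x400400040018148982))) 
(.lf (nat_lit 2885888334) (dlOf (nat_lit 1) (nat_lit 0x10008000400200020008144d83)))) 
(.lf (nat_lit 2753241550) (dlOf (nat_lit 1) (nat_lit 0xc0018090a01)))) (.nd (nat_lit 9) 
(.lf (nat_lit 3758306638) (dlOf (nat_lit 1) (nat_lit 0x58008002c00200020008129903))) 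
(.lf (nat_lit 2818781006) (dlOf (nat_lit 1) (nat_lit 0xc00400020008127782)))))))) (.nd (nat_lit 21) 
(.nd (nat_lit 31) (.nd (nat_lit 19) (.nd (nat_lit 27) (.nd (nat_lit 7) (.nd (nat_lit 6) 
(.nd (nat_lit 20) 
(.lf (nat_lit 4362543118) (dlOf (nat_lit 1) (nat_lit 0x210008001400200440008090003))) 
(.lf (nat_lit 1515534) (dlOf (nat_lit 1) (nat_lit 0x200080e0a01)))) 
(.lf (nat_lit 46473550) (dlOf (nat_lit 1) (nat_lit 0x10008000400200020009380d03)))) 
(.nd (nat_lit 8) (.lf (nat_lit 4832174222) (dlOf (nat_lit 1) (nat_lit 0x1e800200540008101002))) 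
(.lf (nat_lit 21307790) (dlOf (nat_lit 1) (nat_lit 0x1c00400120008a35d82))))) (.nd (nat_lit 26) 
(.nd (nat_lit 29) 
(.lf (nat_lit 134553614) (dlOf (nat_lit 3) (nat_lit 0x3e03b0011f810001021800000080050008002c00200100008070503))) 
(.lf (nat_lit 671424526) (dlOf (nat_lit 1) (nat_lit 0x820028190181)))) 
(.lf (nat_lit 201662478) (dlOf (nat_lit 3) (nat_lit 0x3e03b00128810001021800000080050008002c00200100008070503))))) 
(.nd (nat_lit 6) (.nd (nat_lit 17) (.nd (nat_lit 23) 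
(.lf (nat_lit 18685966) (dlOf (nat_lit 1) (nat_lit 0x88008000400200060008960283))) 
(.lf (nat_lit 27074574) (dlOf (nat_lit 2) (nat_lit 0x1eb9a0014900800e8008000800200020008ca0483)))) 
(.lf (nat_lit 23011342) (dlOf (nat_lit 3) (nat_lit 0xc896100674af00010c1000983bc0007004000c00400040008b40182)))) 
(.nd (nat_lit 7) (.nd (nat_lit 8) 
(.lf (nat_lit 38611534) (dlOf (nat_lit 1) (nat_lit 0x6800400140019135282))) 
(.lf (nat_lit 1909070) (dlOf (nat_lit 1) (nat_lit 0x20018150601)))) 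
(.lf (nat_lit 2040014) (dlOf (nat_lit 2) (nat_lit 0x3d56c0022aae00123828150480)))))) 
(.nd (nat_lit 30) (.nd (nat_lit 6) (.nd (nat_lit 19) (.nd (nat_lit 20) 
(.lf (nat_lit 2818908174) (dlOf (nat_lit 1) (nat_lit 0x148008001800200460008130003))) 
(.lf (nat_lit 2752847886) (dlOf (nat_lit 1) (nat_lit 0x400400020008050182)))) (.nd (nat_lit 9) 
(.lf (nat_lit 2819432462) (dlOf (nat_lit 2) (nat_lit 0x302300022408008000802d0002003a0008280183))) 
(.lf (nat_lit 2752455182) (dlOf (nat_lit 6) (nat_lit 0x42480025e0100041240012e80800489300092a0400404980049402002024c00249818018400))))) 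
(.nd (nat_lit 8) (.nd (nat_lit 17) 
(.lf (nat_lit 2755993678) (dlOf (nat_lit 1) (nat_lit 0x200281c0f81))) 
(.lf (nat_lit 6442917966) (dlOf (nat_lit 2) (nat_lit 0xe01800019018220d00)))) 
(.lf (nat_lit 6442787150) (dlOf (nat_lit 3) (nat_lit 0x3402f0002381000a0178001180800880080008002001600081b0603))))) 
(.nd (nat_lit 6) (.nd (nat_lit 7) (.nd (nat_lit 26) 
(.lf (nat_lit 3221561358) (dlOf (nat_lit 1) (nat_lit 0x400200020008140482))) 
(.lf (nat_lit 3959758862) (dlOf (nat_lit 1) (nat_lit 0x400200020008140482)))) (.nd (nat_lit 26) 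
(.lf (nat_lit 3221692814) (dlOf (nat_lit 2) (nat_lit 0x2400e00384818170780))) 
(.lf (nat_lit 3959890318) (dlOf (nat_lit 2) (nat_lit 0x2400e0065b018170780))))) (.nd (nat_lit 7) 
(.lf (nat_lit 3892650062) (dlOf (nat_lit 2) (nat_lit 0x2d02c0052015800ac0a60058046000b02180168100024c0740144035007d01800038094024c042006a01e002200d0042005c0048026012600d0093004000800000001648006800200240008180702))) 
(.nd (nat_lit 26) 
(.lf (nat_lit 3221692878) (dlOf (nat_lit 5) (nat_lit 0x400f001c0028000320800dc014000c0000000c02004a00f001a80280002e0800ac0a2003c035003100f8000001801c800800f400200240008170a03))) 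
(.lf (nat_lit 3959890382) (dlOf (nat_lit 5) (nat_lit 0x400f001c0028000320800dc014000c0000000c02004a00f001a80280002e0800ac0a2003c035003100f8000001801c800800f400200240008170a03)))))))) 
(.nd (nat_lit 24) (.nd (nat_lit 6) (.nd (nat_lit 17) (.nd (nat_lit 8) (.nd (nat_lit 11) 
(.lf (nat_lit 8200718) (dlOf (nat_lit 1) (nat_lit 0x160018511481))) 
(.lf (nat_lit 40708622) (dlOf (nat_lit 1) (nat_lit 0x1600191f5081)))) 
(.lf (nat_lit 41230606) (dlOf (nat_lit 1) (nat_lit 0x60019223a01)))) (.nd (nat_lit 7) 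
(.nd (nat_lit 22) (.lf (nat_lit 11477006) (dlOf (nat_lit 1) (nat_lit 0x80080008002000a00086a0503))) 
(.lf (nat_lit 15671310) (dlOf (nat_lit 2) (nat_lit 0x2131800b2804000400400020018810282)))) 
(.lf (nat_lit 2754559118) (dlOf (nat_lit 1) (nat_lit 0x200280fc201))))) (.nd (nat_lit 9) 
(.nd (nat_lit 7) (.lf (nat_lit 44507214) (dlOf (nat_lit 1) (nat_lit 0xd80019320001))) 
(.nd (nat_lit 10) 
(.lf (nat_lit 3481806) (dlOf (nat_lit 3) (nat_lit 0x44ab00024702000c53200121818200480))) 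
(.lf (nat_lit 2754559182) (dlOf (nat_lit 1) (nat_lit 0x200280fc281))))) (.nd (nat_lit 7) 
(.lf (nat_lit 45427278) (dlOf (nat_lit 2) (nat_lit 0x995ec000370200020019325281))) (.nd (nat_lit 8) 
(.lf (nat_lit 40708814) (dlOf (nat_lit 1) (nat_lit 0x1400191f5881))) 
(.lf (nat_lit 8202190) (dlOf (nat_lit 1) (nat_lit 0x1e0008514481))))))) (.nd (nat_lit 7) 
(.nd (nat_lit 19) (.nd (nat_lit 6) (.nd (nat_lit 22) 
(.lf (nat_lit 62201870) (dlOf (nat_lit 1) (nat_lit 0x20019970081))) 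
(.lf (nat_lit 24453134) (dlOf (nat_lit 3) (nat_lit 0x3da4800626ec000050400056920004af8800000100148008000c00200060008ba0403)))) 
(.lf (nat_lit 20262222) (dlOf (nat_lit 1) (nat_lit 0x4004000200189d6a02)))) (.nd (nat_lit 6) 
(.nd (nat_lit 17) (.lf (nat_lit 29171726) (dlOf (nat_lit 1) (nat_lit 0x20008dd0a01))) 
(.lf (nat_lit 29302798) (dlOf (nat_lit 1) (nat_lit 0x20028df0181)))) 
(.lf (nat_lit 25108558) (dlOf (nat_lit 1) (nat_lit 0x120008be1501))))) (.nd (nat_lit 6) 
(.nd (nat_lit 8) (.nd (nat_lit 9) 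
(.lf (nat_lit 28778638) (dlOf (nat_lit 1) (nat_lit 0x400200020008da0482))) 
(.lf (nat_lit 20788878) (dlOf (nat_lit 1) (nat_lit 0x4002000200089d9e82)))) 
(.lf (nat_lit 54471566) (dlOf (nat_lit 1) (nat_lit 0x8008000400200020009655c83)))) (.nd (nat_lit 8) 
(.nd (nat_lit 10) (.lf (nat_lit 20263630) (dlOf (nat_lit 1) (nat_lit 0x80080004002000200089d8c83))) 
(.lf (nat_lit 19740366) (dlOf (nat_lit 1) (nat_lit 0x800289da001)))) 
(.lf (nat_lit 58532814) (dlOf (nat_lit 1) (nat_lit 0x80080010002000400097e2883))))))))) 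
(.nd (nat_lit 17) (.nd (nat_lit 27) (.nd (nat_lit 6) (.nd (nat_lit 31) (.nd (nat_lit 9) 
(.nd (nat_lit 32) (.nd (nat_lit 7) 
(.lf (nat_lit 1343299598) (dlOf (nat_lit 1) (nat_lit 0x200181e0481))) 
(.lf (nat_lit 1342775438) (dlOf (nat_lit 1) (nat_lit 0x4002000200080c0102)))) (.nd (nat_lit 10) 
(.lf (nat_lit 4563476494) (dlOf (nat_lit 1) (nat_lit 0x310008017000200800008090003))) 
(.lf (nat_lit 5704330254) (dlOf (nat_lit 1) (nat_lit 0x8008000400200020008055f83))))) 
(.nd (nat_lit 7) (.nd (nat_lit 8) 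
(.lf (nat_lit 1880695310) (dlOf (nat_lit 2) (nat_lit 0x1f06f8029ec080138008002400200100008b37b03))) 
(.lf (nat_lit 1879914254) (dlOf (nat_lit 1) (nat_lit 0x2600183da001)))) 
(.lf (nat_lit 5704330126) (dlOf (nat_lit 2) (nat_lit 0xe00600007804001000400040018055c82))))) 
(.nd (nat_lit 18) (.nd (nat_lit 7) (.nd (nat_lit 8) 
(.lf (nat_lit 3494453262) (dlOf (nat_lit 1) (nat_lit 0x20018230081))) 
(.lf (nat_lit 2952869646) (dlOf (nat_lit 1) (nat_lit 0x58008000c0020004000800a003)))) 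
(.lf (nat_lit 2952867726) (dlOf (nat_lit 3) (nat_lit 0x601c0025701000200e0012b4080108008006c00200620008007783)))) 
(.nd (nat_lit 19) (.nd (nat_lit 20) 
(.lf (nat_lit 2953125902) (dlOf (nat_lit 1) (nat_lit 0x40018150281))) 
(.lf (nat_lit 3491045390) (dlOf (nat_lit 1) (nat_lit 0x400400020008050182)))) 
(.lf (nat_lit 3557629966) (dlOf (nat_lit 1) (nat_lit 0x20028280181)))))) (.nd (nat_lit 8) 
(.nd (nat_lit 19) (.nd (nat_lit 7) 
(.lf (nat_lit 3494191182) (dlOf (nat_lit 1) (nat_lit 0x200281c0f81))) 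
(.lf (nat_lit 805380302) (dlOf (nat_lit 2) (nat_lit 0x11204f00ae01c005280980048e0c000400400060008090482)))) 
(.nd (nat_lit 20) 
(.lf (nat_lit 3492356174) (dlOf (nat_lit 3) (nat_lit 0x107a00004804000c3d00002202000200180c1501))) 
(.lf (nat_lit 1343823950) (dlOf (nat_lit 1) (nat_lit 0x400200020008370182))))) (.nd (nat_lit 9) 
(.nd (nat_lit 19) 
(.lf (nat_lit 4563476814) (dlOf (nat_lit 5) (nat_lit 0x10033001001900048078001403a006001500110090000983001080cc00c0064003a01e002100e8022005400ac024000240c00080340000e8100150090000000802080080d8c002000e0008090d03))) 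
(.lf (nat_lit 1342775630) (dlOf (nat_lit 6) (nat_lit 0x1708c4000445a0004c04007c231000258100071188001200801088cc002845a00301f30002003000c0f98000fc0807a800800d4002028a00080c0603)))) 
(.nd (nat_lit 7) 
(.lf (nat_lit 5704330062) (dlOf (nat_lit 2) (nat_lit 0x300c000264080020008000800200020008055c03))) 
(.lf (nat_lit 5704330190) (dlOf (nat_lit 9) (nat_lit 0x100d802e0064004802c001200b0001684001000c8000b008008806c0034032002200b0001583007100d800e006400ec0160002a0600c401b00530058000a410033006c01dc016000060401c601b00a100c8070802c007400e0000208001601b0003005800000100290008007400200020008055d83))))))) 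
(.nd (nat_lit 18) (.nd (nat_lit 6) (.nd (nat_lit 7) (.nd (nat_lit 8) (.nd (nat_lit 11) 
(.lf (nat_lit 469836814) (dlOf (nat_lit 1) (nat_lit 0x4002000a0008002882))) 
(.lf (nat_lit 5234568206) (dlOf (nat_lit 1) (nat_lit 0x1800200080008055f82)))) 
(.lf (nat_lit 1476474638) (dlOf (nat_lit 1) (nat_lit 0x2002800a001)))) (.nd (nat_lit 8) 
(.lf (nat_lit 470360206) (dlOf (nat_lit 1) (nat_lit 0x4002000200080c0102))) 
(.lf (nat_lit 1476472718) (dlOf (nat_lit 1) (nat_lit 0x40018007781))))) (.nd (nat_lit 29) 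
(.nd (nat_lit 7) 
(.lf (nat_lit 470360398) (dlOf (nat_lit 6) (nat_lit 0x1708c4000445a0005304007c2310002901000711880013c0801088cc002845a00301f20002383000c0f90001180807a800800d4002028a00080c0603))) 
(.nd (nat_lit 9) (.lf (nat_lit 5774057934) (dlOf (nat_lit 1) (nat_lit 0x18004000400080f7b02))) 
(.lf (nat_lit 4697695182) (dlOf (nat_lit 2) (nat_lit 0x20048011d804009c00400040008092882))))) 
(.nd (nat_lit 8) 
(.lf (nat_lit 939598030) (dlOf (nat_lit 2) (nat_lit 0x14024000600f8008f01000480080028002001c00080b0483))) 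
(.nd (nat_lit 9) (.lf (nat_lit 1007757774) (dlOf (nat_lit 1) (nat_lit 0x4002000600087a4e82))) 
(.lf (nat_lit 5234568142) (dlOf (nat_lit 5) (nat_lit 0x270158000900800d00bc006c05c0002104002c02f00170170000801000200bc0000c04008400400060008055d82))))))) 
(.nd (nat_lit 26) (.nd (nat_lit 6) (.nd (nat_lit 7) (.nd (nat_lit 29) 
(.lf (nat_lit 1476730894) (dlOf (nat_lit 3) (nat_lit 0x203c0003881000101e0000b4080158008005800200040008150203))) 
(.lf (nat_lit 4161085454) (dlOf (nat_lit 1) (nat_lit 0x20008120181)))) 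
(.lf (nat_lit 5771701134) (dlOf (nat_lit 1) (nat_lit 0x9c004001a0008005c82)))) (.nd (nat_lit 8) 
(.lf (nat_lit 2550472782) (dlOf (nat_lit 8) (nat_lit 0x40200001e81005e013001a008400dc040000401f0001e04005e0130030808400a0040005801f0001d84003e0000000dc08002005c0006c04017804400bc0170001a82003e0000000d0080038008001c002001000080c1503))) 
(.lf (nat_lit 3624217934) (dlOf (nat_lit 4) (nat_lit 0x5808a004a044003701f001200f0008c06e004803500280000000503800701140078088005803e002901e000280ec00a806e004e0350000987002701b800044080068008009800200060008146a03))))) 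
(.nd (nat_lit 31) (.nd (nat_lit 6) (.nd (nat_lit 9) 
(.lf (nat_lit 1543839758) (dlOf (nat_lit 1) (nat_lit 0x820028190181))) 
(.lf (nat_lit 6375679502) (dlOf (nat_lit 1) (nat_lit 0xa0018003681)))) 
(.lf (nat_lit 5838807374) (dlOf (nat_lit 3) (nat_lit 0x3402f0002001000a0178000fc0800880080008002001600081b0603)))) 
(.nd (nat_lit 6) (.nd (nat_lit 30) 
(.lf (nat_lit 2617581582) (dlOf (nat_lit 4) (nat_lit 0x2e02e0002281001700900010c080060048000700400a0004003e0008100182))) 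
(.lf (nat_lit 3691323406) (dlOf (nat_lit 1) (nat_lit 0x40018150281)))) 
(.lf (nat_lit 3154452558) (dlOf (nat_lit 1) (nat_lit 0xc00181a0701)))))))) (.nd (nat_lit 26) 
(.nd (nat_lit 6) (.nd (nat_lit 10) (.nd (nat_lit 7) (.nd (nat_lit 27) (.nd (nat_lit 22) 
(.lf (nat_lit 2952994830) (dlOf (nat_lit 3) (nat_lit 0x1009c002740400b0058000202a0006000000000180008008000800200500008080483))) 
(.lf (nat_lit 3494060046) (dlOf (nat_lit 1) (nat_lit 0x4002000200081b0002)))) (.nd (nat_lit 8) 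
(.lf (nat_lit 3087213070) (dlOf (nat_lit 8) (nat_lit 0x42005801e802400e8000004bc06005c00b0029004801f0000009760c014c016008a00900480000012e818027802c009620400dc016004b002009600b0025381004d005801298080260008008800200920008158403))) 
(.lf (nat_lit 5774188814) (dlOf (nat_lit 1) (nat_lit 0xc0008113a01))))) (.nd (nat_lit 8) 
(.lf (nat_lit 3492751502) (dlOf (nat_lit 1) (nat_lit 0x180080034002000e00080f4803))) 
(.lf (nat_lit 3490130318) (dlOf (nat_lit 1) (nat_lit 0x400400020018004e82))))) (.nd (nat_lit 7) 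
(.nd (nat_lit 8) (.lf (nat_lit 1344742414) (dlOf (nat_lit 1) (nat_lit 0x20028982881))) 
(.nd (nat_lit 11) 
(.lf (nat_lit 1346053390) (dlOf (nat_lit 1) (nat_lit 0x38008001400200020008e23003))) 
(.lf (nat_lit 3489869070) (dlOf (nat_lit 1) (nat_lit 0x20008006681))))) (.nd (nat_lit 8) 
(.nd (nat_lit 9) (.lf (nat_lit 3489873038) (dlOf (nat_lit 1) (nat_lit 0x8002800c201))) 
(.lf (nat_lit 4160960142) (dlOf (nat_lit 1) (nat_lit 0xb200080a9e81)))) 
(.lf (nat_lit 3489869198) (dlOf (nat_lit 1) (nat_lit 0x400400060008006c82)))))) (.nd (nat_lit 19) 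
(.nd (nat_lit 18) (.nd (nat_lit 7) 
(.lf (nat_lit 3490914382) (dlOf (nat_lit 1) (nat_lit 0x20008002c002001a0008030f83))) 
(.lf (nat_lit 3494060238) (dlOf (nat_lit 2) (nat_lit 0xe248000e28181b0480)))) (.nd (nat_lit 8) 
(.lf (nat_lit 1879515214) (dlOf (nat_lit 5) (nat_lit 0x2380000004a04024c000000040200d000000001010086000000000080008008026800200160008190703))) 
(.lf (nat_lit 3490131278) (dlOf (nat_lit 3) (nat_lit 0xc1500006089000300280004c18002822c0002004000800400020008006a02))))) 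
(.nd (nat_lit 8) (.nd (nat_lit 9) (.nd (nat_lit 29) 
(.lf (nat_lit 1343168590) (dlOf (nat_lit 1) (nat_lit 0x400200020008190702))) 
(.lf (nat_lit 1880039502) (dlOf (nat_lit 1) (nat_lit 0xd60008540701)))) 
(.lf (nat_lit 1346316878) (dlOf (nat_lit 9) (nat_lit 0x380380004502002201c000220100930b4005a031802740380003e06002201c0001e01000a0b400010598001c2b00008156000d0a28004833c0008196000408300010398003807000040340003716000a15800080ab000080700006c0c00202d000161450008067800a80700006a1000442d00010158000d0a28005033c0038038000000a00140018f05281)))) 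
(.nd (nat_lit 7) 
(.lf (nat_lit 3493798222) (dlOf (nat_lit 3) (nat_lit 0xa0540002901000102a00011c0800100080008002000200081b0603))) 
(.lf (nat_lit 3491439054) (dlOf (nat_lit 1) (nat_lit 0xc0018090a01))))))) (.nd (nat_lit 6) 
(.nd (nat_lit 7) (.nd (nat_lit 8) (.nd (nat_lit 10) 
(.lf (nat_lit 471015438) (dlOf (nat_lit 1) (nat_lit 0x500028240281))) 
(.lf (nat_lit 6241332238) (dlOf (nat_lit 1) (nat_lit 0x200180d5f81)))) (.nd (nat_lit 10) 
(.nd (nat_lit 11) 
(.lf (nat_lit 6378168590) (dlOf (nat_lit 1) (nat_lit 0x200080010002000e0008113a03))) 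
(.lf (nat_lit 3556981006) (dlOf (nat_lit 1) (nat_lit 0xc0020004000812aa82)))) 
(.lf (nat_lit 473113870) (dlOf (nat_lit 1) (nat_lit 0x20008d13001))))) (.nd (nat_lit 8) 
(.nd (nat_lit 9) 
(.lf (nat_lit 2617455758) (dlOf (nat_lit 2) (nat_lit 0x20000002b40800080080038002001000080a9503))) 
(.lf (nat_lit 3556979342) (dlOf (nat_lit 1) (nat_lit 0x13c0028128c01)))) (.nd (nat_lit 19) 
(.nd (nat_lit 20) (.lf (nat_lit 4630719374) (dlOf (nat_lit 1) (nat_lit 0x400400020008095c82))) 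
(.lf (nat_lit 4094897038) (dlOf (nat_lit 1) (nat_lit 0x20028055c81)))) 
(.lf (nat_lit 4094372750) (dlOf (nat_lit 1) (nat_lit 0x400400020008055c82)))))) (.nd (nat_lit 8) 
(.nd (nat_lit 30) (.nd (nat_lit 19) 
(.lf (nat_lit 471277646) (dlOf (nat_lit 1) (nat_lit 0x18002000200082e0182))) 
(.lf (nat_lit 470753358) (dlOf (nat_lit 2) (nat_lit 0x417c000000200040018170701)))) 
(.nd (nat_lit 18) (.lf (nat_lit 5838676046) (dlOf (nat_lit 1) (nat_lit 0x3c0008120f81))) 
(.nd (nat_lit 27) 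
(.lf (nat_lit 3557236814) (dlOf (nat_lit 4) (nat_lit 0x1080000000804009c00000002020002017001700000000010026000800b400200460008170703))) 
(.lf (nat_lit 5838938190) (dlOf (nat_lit 2) (nat_lit 0xe01800019818220d00)))))) (.nd (nat_lit 7) 
(.nd (nat_lit 9) (.nd (nat_lit 10) 
(.lf (nat_lit 6376333646) (dlOf (nat_lit 3) (nat_lit 0x5b0918000680801784880000004003c00400620008090d02))) 
(.lf (nat_lit 1543712078) (dlOf (nat_lit 1) (nat_lit 0xf00080060002002c0008146a03)))) 
(.lf (nat_lit 3556978510) (dlOf (nat_lit 1) (nat_lit 0xc00400020008127782)))) (.nd (nat_lit 29) 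
(.lf (nat_lit 4630719438) (dlOf (nat_lit 1) (nat_lit 0x400400020018095d82))) 
(.lf (nat_lit 6241332174) (dlOf (nat_lit 2) (nat_lit 0x1001d000168180d5d80))))))))))) 
(.nd (nat_lit 17) (.nd (nat_lit 18) (.nd (nat_lit 16) (.nd (nat_lit 19) (.nd (nat_lit 10) 
(.nd (nat_lit 31) (.nd (nat_lit 7) (.nd (nat_lit 6) 
(.lf (nat_lit 25206798) (dlOf (nat_lit 1) (nat_lit 0x6a0008bf0881))) (.nd (nat_lit 23) 
(.lf (nat_lit 6375383118) (dlOf (nat_lit 1) (nat_lit 0xb20018000001))) 
(.lf (nat_lit 25206862) (dlOf (nat_lit 11) (nat_lit 0xb30000000a604049c000000520203000000002881011e000000140080a500000009e040240000000490201dc000000238101090000001180808a80000008a040454000000440200500018bf0d01))))) 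
(.nd (nat_lit 20) (.nd (nat_lit 26) 
(.lf (nat_lit 671129806) (dlOf (nat_lit 3) (nat_lit 0x2a02c000e881001801600073c0801f0008013c002006200080b0483))) 
(.lf (nat_lit 1543545038) (dlOf (nat_lit 3) (nat_lit 0x2a02c000e881001801600073c0801f0008013c002006200080b0483)))) 
(.lf (nat_lit 3186894) (dlOf (nat_lit 2) (nat_lit 0x10a22002470200040018200481))))) 
(.nd (nat_lit 8) (.nd (nat_lit 6) 
(.lf (nat_lit 3691035278) (dlOf (nat_lit 1) (nat_lit 0x1000800500020016000800b683))) 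
(.nd (nat_lit 7) 
(.lf (nat_lit 2751511118) (dlOf (nat_lit 1) (nat_lit 0x1000800040020002000800b603))) 
(.lf (nat_lit 2755698894) (dlOf (nat_lit 2) (nat_lit 0xb05900000c0800500080044002003200081b0483))))) 
(.nd (nat_lit 7) (.lf (nat_lit 2751506702) (dlOf (nat_lit 1) (nat_lit 0xbe0008004b81))) 
(.nd (nat_lit 9) (.lf (nat_lit 2754652558) (dlOf (nat_lit 1) (nat_lit 0x4002000200080f4e82))) 
(.lf (nat_lit 4094733198) (dlOf (nat_lit 1) (nat_lit 0xa0028055c81))))))) (.nd (nat_lit 8) 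
(.nd (nat_lit 9) (.nd (nat_lit 11) (.nd (nat_lit 26) 
(.lf (nat_lit 1073783822) (dlOf (nat_lit 1) (nat_lit 0x400400020008002882))) 
(.lf (nat_lit 469804046) (dlOf (nat_lit 1) (nat_lit 0x60028002881)))) 
(.lf (nat_lit 2952838158) (dlOf (nat_lit 1) (nat_lit 0x100020004000800bf02)))) (.nd (nat_lit 6) 
(.nd (nat_lit 26) (.lf (nat_lit 4563445262) (dlOf (nat_lit 2) (nat_lit 0x203d00021018003680))) 
(.lf (nat_lit 335586830) (dlOf (nat_lit 2) (nat_lit 0x1c012000220200040018003681)))) 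
(.nd (nat_lit 26) (.lf (nat_lit 1342222030) (dlOf (nat_lit 1) (nat_lit 0x400400020008007302))) 
(.lf (nat_lit 4227903182) (dlOf (nat_lit 1) (nat_lit 0x400400020008007302)))))) (.nd (nat_lit 28) 
(.nd (nat_lit 7) (.nd (nat_lit 20) 
(.lf (nat_lit 60859662) (dlOf (nat_lit 1) (nat_lit 0x18008000c002000400098c3003))) 
(.lf (nat_lit 36742414) (dlOf (nat_lit 1) (nat_lit 0x400200020009073002)))) 
(.lf (nat_lit 604024718) (dlOf (nat_lit 1) (nat_lit 0x2400400280008007782)))) (.nd (nat_lit 7) 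
(.nd (nat_lit 26) 
(.lf (nat_lit 1342221582) (dlOf (nat_lit 1) (nat_lit 0x10008000400200020008006683))) 
(.lf (nat_lit 4227902734) (dlOf (nat_lit 3) (nat_lit 0x40640001d02000403200000018006680)))) 
(.lf (nat_lit 2952834958) (dlOf (nat_lit 2) (nat_lit 0x601c00257018007780))))))) (.nd (nat_lit 31) 
(.nd (nat_lit 6) (.nd (nat_lit 21) (.nd (nat_lit 20) (.nd (nat_lit 26) 
(.lf (nat_lit 805871630) (dlOf (nat_lit 5) (nat_lit 0x100b4002ae04229405a0011802080002d000800106be016800880b00000008007c002008200081d0082))) 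
(.lf (nat_lit 1678286862) (dlOf (nat_lit 5) (nat_lit 0x100b40018a04229405a0008702080002d000398106be016800880b00000008007c002008200081d0082)))) 
(.lf (nat_lit 1613838) (dlOf (nat_lit 1) (nat_lit 0x28002001e0008100182)))) (.nd (nat_lit 23) 
(.nd (nat_lit 9) (.lf (nat_lit 19439630) (dlOf (nat_lit 1) (nat_lit 0x200089a0a01))) 
(.lf (nat_lit 58237454) (dlOf (nat_lit 1) (nat_lit 0x200297c7b01)))) (.nd (nat_lit 24) 
(.lf (nat_lit 11051022) (dlOf (nat_lit 3) (nat_lit 0x108000000228100323e680009f2c0008608000c004001c0008660182))) 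
(.lf (nat_lit 27828238) (dlOf (nat_lit 2) (nat_lit 0xd6040006ae500045718004282c000be10000400200160008d30202)))))) 
(.nd (nat_lit 20) (.nd (nat_lit 26) 
(.lf (nat_lit 1611178062) (dlOf (nat_lit 1) (nat_lit 0xa0008003c00200260008101683))) 
(.nd (nat_lit 27) (.lf (nat_lit 67674190) (dlOf (nat_lit 1) (nat_lit 0x400182d0181))) 
(.lf (nat_lit 738762830) (dlOf (nat_lit 1) (nat_lit 0x50008002c002002a0008101683))))) 
(.nd (nat_lit 22) (.lf (nat_lit 1343791182) (dlOf (nat_lit 1) (nat_lit 0x400400060018370182))) 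
(.lf (nat_lit 56139854) (dlOf (nat_lit 1) (nat_lit 0x480019730001)))))) (.nd (nat_lit 26) 
(.nd (nat_lit 20) (.nd (nat_lit 6) (.nd (nat_lit 7) 
(.lf (nat_lit 2819137550) (dlOf (nat_lit 1) (nat_lit 0x378008002400200f400081a0483))) 
(.lf (nat_lit 3490228622) (dlOf (nat_lit 1) (nat_lit 0x400200020008004e82)))) 
(.lf (nat_lit 3494420558) (dlOf (nat_lit 3) (nat_lit 0x408140005804003040a0002a0200380018220d01)))) 
(.nd (nat_lit 21) 
(.lf (nat_lit 3491274766) (dlOf (nat_lit 2) (nat_lit 0xf0f6800018080028008000800200020008080183))) 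
(.lf (nat_lit 3493371918) (dlOf (nat_lit 1) (nat_lit 0x6a0008120881))))) (.nd (nat_lit 28) 
(.nd (nat_lit 6) (.nd (nat_lit 21) 
(.lf (nat_lit 2753077262) (dlOf (nat_lit 2) (nat_lit 0xf0ff800018080028008000800200020008080183))) 
(.lf (nat_lit 2755174414) (dlOf (nat_lit 1) (nat_lit 0x6a0008120881)))) 
(.lf (nat_lit 2756223054) (dlOf (nat_lit 3) (nat_lit 0x408680005a0400304340002b0200380018220d01)))) 
(.nd (nat_lit 6) (.nd (nat_lit 8) 
(.lf (nat_lit 3557335054) (dlOf (nat_lit 7) (nat_lit 0x340610029201011203080072c0806b8184003740400e40c2001aa020108061000cd81007e03080063808041800800e0002002600081c0483))) 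
(.lf (nat_lit 3154682126) (dlOf (nat_lit 3) (nat_lit 0x480580048002001c02c00010038011ec100160008029c00200420008310703)))) 
(.lf (nat_lit 3154681934) (dlOf (nat_lit 6) (nat_lit 0xa046000640100700160011001c0016408007c0300008702011e0570030023004380dc027c040012401f00a100c8048806002280140100009000428900200000001bc080238008019c00200520008310183)))))))) 
(.nd (nat_lit 30) (.nd (nat_lit 6) (.nd (nat_lit 20) (.nd (nat_lit 7) (.nd (nat_lit 9) 
(.nd (nat_lit 27) (.lf (nat_lit 2483134478) (dlOf (nat_lit 2) (nat_lit 0x6400e00000018020480))) 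
(.lf (nat_lit 2885787662) (dlOf (nat_lit 2) (nat_lit 0x80700017e04002c002000a0008070182)))) 
(.lf (nat_lit 3154225678) (dlOf (nat_lit 1) (nat_lit 0x2a0018105081)))) (.nd (nat_lit 8) 
(.lf (nat_lit 108686) (dlOf (nat_lit 1) (nat_lit 0x20018004801))) (.nd (nat_lit 10) 
(.lf (nat_lit 4831947150) (dlOf (nat_lit 1) (nat_lit 0x20018054e81))) 
(.lf (nat_lit 114062) (dlOf (nat_lit 1) (nat_lit 0x400020006000800c902)))))) (.nd (nat_lit 8) 
(.nd (nat_lit 7) (.nd (nat_lit 21) 
(.lf (nat_lit 47292430) (dlOf (nat_lit 1) (nat_lit 0x10002001c00093c0002))) 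
(.lf (nat_lit 28418062) (dlOf (nat_lit 1) (nat_lit 0x88008000400200060008d90283)))) 
(.lf (nat_lit 20559502) (dlOf (nat_lit 1) (nat_lit 0x1600289d9e81)))) (.nd (nat_lit 7) 
(.nd (nat_lit 25) (.lf (nat_lit 1007789326) (dlOf (nat_lit 1) (nat_lit 0x200087a3001))) 
(.lf (nat_lit 34710798) (dlOf (nat_lit 1) (nat_lit 0x400400020008fb3002)))) 
(.lf (nat_lit 2753143182) (dlOf (nat_lit 1) (nat_lit 0x20028090781)))))) (.nd (nat_lit 7) 
(.nd (nat_lit 26) (.nd (nat_lit 8) (.nd (nat_lit 9) (.nd (nat_lit 19) 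
(.lf (nat_lit 16883790) (dlOf (nat_lit 2) (nat_lit 0x1e4360002200800200080020002000800088e0183))) 
(.lf (nat_lit 134848590) (dlOf (nat_lit 3) (nat_lit 0x700620003d020004031000000180c1500)))) 
(.lf (nat_lit 53586510) (dlOf (nat_lit 1) (nat_lit 0x4002000200095f5282)))) (.nd (nat_lit 9) 
(.lf (nat_lit 6576778574) (dlOf (nat_lit 1) (nat_lit 0x400400020008146a02))) 
(.lf (nat_lit 20032334) (dlOf (nat_lit 1) (nat_lit 0x200189d5c01))))) (.nd (nat_lit 19) 
(.nd (nat_lit 27) (.lf (nat_lit 4630618190) (dlOf (nat_lit 1) (nat_lit 0x400400020008020682))) 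
(.lf (nat_lit 4764835918) (dlOf (nat_lit 1) (nat_lit 0x400400020008020682)))) (.nd (nat_lit 21) 
(.lf (nat_lit 201957454) (dlOf (nat_lit 2) (nat_lit 0x4037000301900028028000680c00b4002008800080c1902))) 
(.lf (nat_lit 2754191438) (dlOf (nat_lit 2) (nat_lit 0x1c1620003402000200180c1901)))))) 
(.nd (nat_lit 29) (.nd (nat_lit 8) (.nd (nat_lit 20) 
(.lf (nat_lit 6509666510) (dlOf (nat_lit 10) (nat_lit 0xf40000023802023801200a1005002400000046e0c00f40000023502001c0000011501001b0000008a00802f00000044c0400040000021f02007a000000f681003d0000007ac08016000802a4002034000080b0483))) 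
(.lf (nat_lit 3252430) (dlOf (nat_lit 2) (nat_lit 0x102ac00091c080050008005000200160008200483)))) 
(.lf (nat_lit 20032462) (dlOf (nat_lit 2) (nat_lit 0x42af00058f95000030289d5d80)))) 
(.nd (nat_lit 8) (.nd (nat_lit 26) 
(.lf (nat_lit 805413070) (dlOf (nat_lit 4) (nat_lit 0x13404c002490201f604f00fb01c00290098011403000740000012385005501300091408531800803ac00206740008090483))) 
(.lf (nat_lit 604086478) (dlOf (nat_lit 1) (nat_lit 0x1000200020008010482)))) 
(.lf (nat_lit 671197134) (dlOf (nat_lit 4) (nat_lit 0x40580002020000d00e80078060003c020000200200040000000483800080600002004004c0300028010000b00000000c180068008002c00200160008144483))))))) 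
(.nd (nat_lit 29) (.nd (nat_lit 6) (.nd (nat_lit 7) (.nd (nat_lit 19) (.nd (nat_lit 27) 
(.lf (nat_lit 3221331982) (dlOf (nat_lit 2) (nat_lit 0xe01f00200018090000))) 
(.lf (nat_lit 3623985166) (dlOf (nat_lit 2) (nat_lit 0x80740016204002c002000a0008070182)))) 
(.lf (nat_lit 5771993102) (dlOf (nat_lit 3) (nat_lit 0xb805001c1602001602800e01818030000)))) 
(.nd (nat_lit 9) (.lf (nat_lit 3491340686) (dlOf (nat_lit 1) (nat_lit 0x20028090781))) 
(.lf (nat_lit 5637254030) (dlOf (nat_lit 2) (nat_lit 0x8004000380200020028055c81))))) 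
(.nd (nat_lit 19) (.nd (nat_lit 7) (.nd (nat_lit 8) 
(.lf (nat_lit 3490816078) (dlOf (nat_lit 6) (nat_lit 0x160e20024481000a05000117c080050280008bc0400281400045c02001809e00000018020900))) 
(.lf (nat_lit 1476501838) (dlOf (nat_lit 1) (nat_lit 0x40008010801)))) 
(.lf (nat_lit 3221332174) (dlOf (nat_lit 5) (nat_lit 0x7401000071c08050014c029406e004202c0002012006c808002d4000001c50c0044020000e181009d0100006f408002800801ec00200280008090483)))) 
(.nd (nat_lit 7) (.nd (nat_lit 20) 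
(.lf (nat_lit 3221856334) (dlOf (nat_lit 8) (nat_lit 0x2c056001802a800c0148005406c002e0310026015800a8078006402200100100011005000c8018000482c00c00ac00520550032029001880d800e4062004402b001e0148008007800d8022006a010001100500130020008400c000231a003200a0001101000702b002380c80002c0800140ac000130200620560000881000102a80be814405140940300035015201a00bc807c058403c028c012015c00300000048016000800f4002005200081a1503))) 
(.lf (nat_lit 1345953870) (dlOf (nat_lit 1) (nat_lit 0x400400020008e20002)))) 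
(.lf (nat_lit 5774090702) (dlOf (nat_lit 1) (nat_lit 0x7600280f7b01)))))) (.nd (nat_lit 7) 
(.nd (nat_lit 6) (.nd (nat_lit 9) 
(.lf (nat_lit 6375972878) (dlOf (nat_lit 3) (nat_lit 0xb8050018b302001602800c4d818030000))) 
(.lf (nat_lit 6241232398) (dlOf (nat_lit 2) (nat_lit 0x2d0010000d808003000800a400200240008053683)))) 
(.nd (nat_lit 8) (.nd (nat_lit 19) 
(.lf (nat_lit 1881251918) (dlOf (nat_lit 4) (nat_lit 0x3018800180be00ced040006062000d02f8033b010004018800200be00ce30400160028e80001))) 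
(.lf (nat_lit 3960053838) (dlOf (nat_lit 2) (nat_lit 0x30178000340800a8008003c002001e00081a1903)))) 
(.lf (nat_lit 4093748558) (dlOf (nat_lit 1) (nat_lit 0x400200020008003302))))) (.nd (nat_lit 26) 
(.nd (nat_lit 8) (.nd (nat_lit 27) 
(.lf (nat_lit 5905686734) (dlOf (nat_lit 10) (nat_lit 0xf40000023802023801100a1005002400000046e0c00f40000023502001c0000011501001b0000008a00802f00000044c0400040000022302007a000000f681003d0000007ac08016000802a4002034000080b0483))) 
(.lf (nat_lit 2013372622) (dlOf (nat_lit 1) (nat_lit 0x80018031b81)))) 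
(.lf (nat_lit 1881252302) (dlOf (nat_lit 1) (nat_lit 0xc0008e81101)))) (.nd (nat_lit 9) 
(.nd (nat_lit 27) 
(.lf (nat_lit 1677828302) (dlOf (nat_lit 4) (nat_lit 0x13404c002490201f604f00fb01c00290098011403000740000012385005501300091408531800803ac00206740008090483))) 
(.lf (nat_lit 3959529678) (dlOf (nat_lit 5) (nat_lit 0x7401000071c08050014c029406e004202c0002012006c808002d4000001c50c0044020000e181009d0100006f408002800801ec00200280008090483)))) 
(.lf (nat_lit 5972797134) (dlOf (nat_lit 1) (nat_lit 0x400400020008143a82))))))))) 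
(.nd (nat_lit 16) (.nd (nat_lit 6) (.nd (nat_lit 29) (.nd (nat_lit 19) (.nd (nat_lit 28) 
(.nd (nat_lit 7) (.nd (nat_lit 9) (.nd (nat_lit 27) 
(.lf (nat_lit 2214895630) (dlOf (nat_lit 2) (nat_lit 0x2c01c002200c0001c028100180))) 
(.lf (nat_lit 3422855182) (dlOf (nat_lit 3) (nat_lit 0x1840190001140801500c80007c0405a000400920008120182)))) 
(.lf (nat_lit 56928782) (dlOf (nat_lit 1) (nat_lit 0x20029795081)))) (.nd (nat_lit 8) 
(.lf (nat_lit 2400398) (dlOf (nat_lit 1) (nat_lit 0x8002001c0008150102))) 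
(.lf (nat_lit 54832014) (dlOf (nat_lit 1) (nat_lit 0xe0029655c81))))) (.nd (nat_lit 7) 
(.nd (nat_lit 8) (.nd (nat_lit 26) 
(.lf (nat_lit 1476698126) (dlOf (nat_lit 1) (nat_lit 0x2e0008140181))) 
(.lf (nat_lit 3691290638) (dlOf (nat_lit 1) (nat_lit 0x38008001c00200060008110203)))) 
(.lf (nat_lit 3489967374) (dlOf (nat_lit 1) (nat_lit 0x2800400020008006682)))) (.nd (nat_lit 32) 
(.lf (nat_lit 268738958) (dlOf (nat_lit 1) (nat_lit 0x20018115d81))) 
(.lf (nat_lit 4563706254) (dlOf (nat_lit 2) (nat_lit 0x380b8002003c0067e04000200080c5d81)))))) 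
(.nd (nat_lit 22) (.nd (nat_lit 7) (.nd (nat_lit 26) 
(.lf (nat_lit 1343004686) (dlOf (nat_lit 1) (nat_lit 0xa0008000400200040008130883))) 
(.lf (nat_lit 470589454) (dlOf (nat_lit 1) (nat_lit 0xa0008000400200040008130883)))) 
(.nd (nat_lit 8) (.lf (nat_lit 20756110) (dlOf (nat_lit 1) (nat_lit 0x4002000200089d9e82))) 
(.lf (nat_lit 36481422) (dlOf (nat_lit 1) (nat_lit 0x20029074e81))))) (.nd (nat_lit 8) 
(.nd (nat_lit 10) (.lf (nat_lit 13410318) (dlOf (nat_lit 1) (nat_lit 0x40008720801))) 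
(.lf (nat_lit 50111502) (dlOf (nat_lit 1) (nat_lit 0x200094c2881)))) (.nd (nat_lit 7) 
(.lf (nat_lit 48014606) (dlOf (nat_lit 1) (nat_lit 0x40009403001))) 
(.lf (nat_lit 46967694) (dlOf (nat_lit 1) (nat_lit 0x1800400f40009385c82))))))) (.nd (nat_lit 9) 
(.nd (nat_lit 26) (.nd (nat_lit 27) (.nd (nat_lit 28) 
(.lf (nat_lit 2684657678) (dlOf (nat_lit 2) (nat_lit 0x50190000ec080058008000800200240008110103))) 
(.lf (nat_lit 805609486) (dlOf (nat_lit 2) (nat_lit 0x2813001856040004004001c0008140a02)))) 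
(.lf (nat_lit 3087310862) (dlOf (nat_lit 1) (nat_lit 0x2000400100008170882)))) (.nd (nat_lit 10) 
(.nd (nat_lit 31) 
(.lf (nat_lit 1678024718) (dlOf (nat_lit 2) (nat_lit 0x2813000d38040004004001c0008140a02))) 
(.lf (nat_lit 3825508366) (dlOf (nat_lit 1) (nat_lit 0x2000400100008170882)))) 
(.lf (nat_lit 2751767566) (dlOf (nat_lit 1) (nat_lit 0x20018002881))))) (.nd (nat_lit 10) 
(.nd (nat_lit 7) (.nd (nat_lit 26) 
(.lf (nat_lit 5905883662) (dlOf (nat_lit 5) (nat_lit 0x901b000480c80090056004c606000202b0026281000101a0012ec0800500ac0096004001000400100008158402))) 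
(.lf (nat_lit 3959726606) (dlOf (nat_lit 5) (nat_lit 0x300070012540803480380092804006001c0049302000200e001f0818128400)))) 
(.lf (nat_lit 738503566) (dlOf (nat_lit 1) (nat_lit 0x240028095c81)))) (.nd (nat_lit 27) 
(.lf (nat_lit 4832142862) (dlOf (nat_lit 1) (nat_lit 0x400180d3681))) 
(.lf (nat_lit 5234796046) (dlOf (nat_lit 1) (nat_lit 0x4002000200080d3682))))))) (.nd (nat_lit 30) 
(.nd (nat_lit 8) (.nd (nat_lit 22) (.nd (nat_lit 7) (.nd (nat_lit 26) (.nd (nat_lit 27) 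
(.lf (nat_lit 6711189582) (dlOf (nat_lit 1) (nat_lit 0x4004000200080b0682))) 
(.lf (nat_lit 402956366) (dlOf (nat_lit 2) (nat_lit 0x30010000b40800200080024002000400080b0683)))) 
(.lf (nat_lit 335847502) (dlOf (nat_lit 2) (nat_lit 0x30010000b40800200080024002000400080b0683)))) 
(.nd (nat_lit 9) (.lf (nat_lit 268738766) (dlOf (nat_lit 1) (nat_lit 0x140028111b81))) 
(.lf (nat_lit 20230862) (dlOf (nat_lit 1) (nat_lit 0x4002000200089d8c82))))) (.nd (nat_lit 19) 
(.nd (nat_lit 7) (.nd (nat_lit 20) 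
(.lf (nat_lit 2755960910) (dlOf (nat_lit 1) (nat_lit 0x140008003000200ba00081c0f83))) 
(.lf (nat_lit 47489102) (dlOf (nat_lit 1) (nat_lit 0x18008000400200020009400003)))) 
(.lf (nat_lit 56928974) (dlOf (nat_lit 1) (nat_lit 0x20029795881)))) (.nd (nat_lit 23) 
(.lf (nat_lit 21798990) (dlOf (nat_lit 1) (nat_lit 0x1bc0008a70901))) 
(.lf (nat_lit 13410382) (dlOf (nat_lit 1) (nat_lit 0x40028721901)))))) (.nd (nat_lit 19) 
(.nd (nat_lit 10) (.lf (nat_lit 2400590) (dlOf (nat_lit 1) (nat_lit 0x38008000c002000a0008150603))) 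
(.lf (nat_lit 20229454) (dlOf (nat_lit 1) (nat_lit 0x200189d6a01)))) (.nd (nat_lit 26) 
(.lf (nat_lit 135045454) (dlOf (nat_lit 1) (nat_lit 0x30002000c00081b0602))) (.nd (nat_lit 27) 
(.lf (nat_lit 4362903886) (dlOf (nat_lit 2) (nat_lit 0x4000000008181a0600))) 
(.lf (nat_lit 202154318) (dlOf (nat_lit 1) (nat_lit 0x30002000c00081b0602))))))) (.nd (nat_lit 26) 
(.nd (nat_lit 8) (.nd (nat_lit 22) (.nd (nat_lit 27) 
(.lf (nat_lit 3758399566) (dlOf (nat_lit 12) (nat_lit 0x27e0310001301022c018801180b0047804a0002506005c031000120101c3018802b00940004608006c0620002202025a0310001001001b018800060082a480000000804156800000002020346000000008100e5018800080b003c404a039201e003000082a380000000018193800211b80008170702))) 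
(.lf (nat_lit 1208262734) (dlOf (nat_lit 1) (nat_lit 0xc002000600080b0682)))) 
(.lf (nat_lit 3494158414) (dlOf (nat_lit 1) (nat_lit 0x140008003000200ba00081c0f83)))) 
(.nd (nat_lit 7) (.lf (nat_lit 3221528910) (dlOf (nat_lit 1) (nat_lit 0x8800200b00008124c82))) 
(.lf (nat_lit 3221529038) (dlOf (nat_lit 1) (nat_lit 0x3000200580008127102))))) (.nd (nat_lit 8) 
(.nd (nat_lit 7) (.nd (nat_lit 28) 
(.lf (nat_lit 6107209806) (dlOf (nat_lit 1) (nat_lit 0x4004000200080b0682))) 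
(.lf (nat_lit 2080677966) (dlOf (nat_lit 1) (nat_lit 0xc002000600080b0682)))) 
(.lf (nat_lit 5436123854) (dlOf (nat_lit 3) (nat_lit 0x802200028020026011000138180e5880)))) 
(.nd (nat_lit 19) (.lf (nat_lit 3959726414) (dlOf (nat_lit 1) (nat_lit 0x8800200b00008124c82))) 
(.lf (nat_lit 4228686158) (dlOf (nat_lit 2) (nat_lit 0x4000000008181a0600)))))))) (.nd (nat_lit 28) 
(.nd (nat_lit 20) (.nd (nat_lit 26) (.nd (nat_lit 6) (.nd (nat_lit 8) (.nd (nat_lit 19) 
(.nd (nat_lit 30) (.lf (nat_lit 134586382) (dlOf (nat_lit 2) (nat_lit 0x200000018018080180))) 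
(.lf (nat_lit 3355811854) (dlOf (nat_lit 4) (nat_lit 0x7c008800114080c78048000860404c4024000e01100070048000e01805d8008022000200200008120183)))) 
(.lf (nat_lit 892942) (dlOf (nat_lit 1) (nat_lit 0x400400020008030882)))) (.nd (nat_lit 7) 
(.lf (nat_lit 59090190) (dlOf (nat_lit 1) (nat_lit 0x200297e3001))) 
(.lf (nat_lit 36546958) (dlOf (nat_lit 1) (nat_lit 0x20019074e81))))) (.nd (nat_lit 22) 
(.nd (nat_lit 7) (.lf (nat_lit 1610981454) (dlOf (nat_lit 1) (nat_lit 0x7c004001600080b0682))) 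
(.lf (nat_lit 2818941134) (dlOf (nat_lit 1) (nat_lit 0x400200020008130482)))) (.nd (nat_lit 8) 
(.lf (nat_lit 29728846) (dlOf (nat_lit 3) (nat_lit 0x1591a00059010001c8d000210080070008003c00200020008e30183))) 
(.lf (nat_lit 21340494) (dlOf (nat_lit 1) (nat_lit 0x1400400040008a34c82)))))) (.nd (nat_lit 29) 
(.nd (nat_lit 27) (.nd (nat_lit 30) 
(.lf (nat_lit 6509928462) (dlOf (nat_lit 1) (nat_lit 0x70008000c002000a0008160483))) 
(.lf (nat_lit 3288702990) (dlOf (nat_lit 1) (nat_lit 0x98008004c002006a00080c0803)))) 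
(.lf (nat_lit 201695246) (dlOf (nat_lit 2) (nat_lit 0x200000018018080180)))) (.nd (nat_lit 6) 
(.nd (nat_lit 30) 
(.lf (nat_lit 604348430) (dlOf (nat_lit 1) (nat_lit 0x60008000c00200280008190283))) 
(.lf (nat_lit 1678090254) (dlOf (nat_lit 2) (nat_lit 0xb029804eb0080008008001400200240008180503)))) 
(.lf (nat_lit 738566222) (dlOf (nat_lit 1) (nat_lit 0x7c004001600080b0682)))))) (.nd (nat_lit 19) 
(.nd (nat_lit 9) (.nd (nat_lit 24) 
(.lf (nat_lit 7708686) (dlOf (nat_lit 1) (nat_lit 0x5000184d0a01))) 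
(.lf (nat_lit 24485902) (dlOf (nat_lit 3) (nat_lit 0xabcf000028100025e7800000080010008000800200040008ba0403)))) 
(.nd (nat_lit 8) (.lf (nat_lit 43361806) (dlOf (nat_lit 2) (nat_lit 0x2a92e0007202001000092a3681))) 
(.lf (nat_lit 20296462) (dlOf (nat_lit 1) (nat_lit 0x80080004002000200089d8f83))))) 
(.nd (nat_lit 6) (.nd (nat_lit 23) 
(.lf (nat_lit 22913038) (dlOf (nat_lit 4) (nat_lit 0x40000000230100700000001140800b35200008604004000200760008b40182))) 
(.lf (nat_lit 31301646) (dlOf (nat_lit 1) (nat_lit 0x400200020008e80182)))) (.nd (nat_lit 7) 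
(.nd (nat_lit 8) 
(.lf (nat_lit 4038734) (dlOf (nat_lit 2) (nat_lit 0xd800000000040064002001e0008270d02))) 
(.lf (nat_lit 1941838) (dlOf (nat_lit 2) (nat_lit 0x4a4700019818150600)))) 
(.lf (nat_lit 8237518) (dlOf (nat_lit 1) (nat_lit 0x400400020018518682))))))) (.nd (nat_lit 27) 
(.nd (nat_lit 29) (.nd (nat_lit 6) (.nd (nat_lit 8) 
(.lf (nat_lit 1342545934) (dlOf (nat_lit 1) (nat_lit 0xc000800cc00200400008050a03))) 
(.lf (nat_lit 1345168654) (dlOf (nat_lit 1) (nat_lit 0x20008aa3001)))) 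
(.lf (nat_lit 3490557262) (dlOf (nat_lit 3) (nat_lit 0x48074000260400700400001002003c0018006a01)))) 
(.nd (nat_lit 30) (.nd (nat_lit 31) 
(.lf (nat_lit 805675022) (dlOf (nat_lit 2) (nat_lit 0xb029804e3c080008008001400200240008180503))) 
(.lf (nat_lit 2953158670) (dlOf (nat_lit 1) (nat_lit 0x1200081b0181)))) (.nd (nat_lit 6) 
(.lf (nat_lit 4026900494) (dlOf (nat_lit 1) (nat_lit 0x98008004c002006a00080c0803))) 
(.lf (nat_lit 4026900558) (dlOf (nat_lit 2) (nat_lit 0x118024000680401bc00201be00080c1902)))))) 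
(.nd (nat_lit 30) (.nd (nat_lit 20) (.nd (nat_lit 22) (.nd (nat_lit 31) 
(.lf (nat_lit 470130702) (dlOf (nat_lit 1) (nat_lit 0xc000800cc00200400008050a03))) 
(.lf (nat_lit 2617614350) (dlOf (nat_lit 28) (nat_lit 0x11018014400b80009e0805b806004f802f01770170001381805800c008d405e04fa02e0002683021c017801e80b8000980809d005c00420290002382002f018013700b8013c052000460605b402e001b01480ec804400040000004508005a02f00022010145018012e00bc05f805c02ca02901b100900010c280de00bc01a005c000420401a602f000208100440178001000812300bc0007e04063c05e04d402e01790088000f81801b00bc000780400200640182030024c01780ea00b8024c05202a0012008300880048024000702002f805e03fe02e0001b82017701780fa00b80006a0800c005e00b602e000198201d90178000c8080f780bc000620404c405e0002f02024402f000170101f00178000500800280bc0002404006c05c000110204d602f02200170000001006e0008015400200060008100183)))) 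
(.lf (nat_lit 474325006) (dlOf (nat_lit 1) (nat_lit 0x10008000400200020009150083)))) 
(.lf (nat_lit 471179278) (dlOf (nat_lit 1) (nat_lit 0x200182b0281)))) (.nd (nat_lit 9) 
(.nd (nat_lit 26) 
(.lf (nat_lit 1476763662) (dlOf (nat_lit 1) (nat_lit 0x60008000c00200280008190283))) 
(.lf (nat_lit 3691356174) (dlOf (nat_lit 1) (nat_lit 0x1200081b0181)))) 
(.lf (nat_lit 6377810446) (dlOf (nat_lit 1) (nat_lit 0x800180e5081))))))))) (.nd (nat_lit 6) 
(.nd (nat_lit 16) (.nd (nat_lit 30) (.nd (nat_lit 26) (.nd (nat_lit 24) (.nd (nat_lit 19) 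
(.nd (nat_lit 7) (.nd (nat_lit 18) (.nd (nat_lit 22) 
(.lf (nat_lit 6711058446) (dlOf (nat_lit 2) (nat_lit 0x600b00028054001c00a00cd306000c0008060a01))) 
(.lf (nat_lit 12754958) (dlOf (nat_lit 1) (nat_lit 0xa00286e0401)))) 
(.lf (nat_lit 2819006478) (dlOf (nat_lit 2) (nat_lit 0x1003f00ec2818150000)))) (.nd (nat_lit 8) 
(.lf (nat_lit 4832010382) (dlOf (nat_lit 1) (nat_lit 0x8008000400200020008081003))) 
(.lf (nat_lit 4832010638) (dlOf (nat_lit 1) (nat_lit 0xc400200280008085d82))))) (.nd (nat_lit 10) 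
(.nd (nat_lit 27) 
(.lf (nat_lit 806002702) (dlOf (nat_lit 3) (nat_lit 0x2402b0006b4080038158003580400e4004003e0008210082))) 
(.lf (nat_lit 2819268622) (dlOf (nat_lit 1) (nat_lit 0x80080024002000e0008210183)))) 
(.nd (nat_lit 7) (.lf (nat_lit 36349198) (dlOf (nat_lit 1) (nat_lit 0x8008000400200ec0009073003))) 
(.lf (nat_lit 49980558) (dlOf (nat_lit 1) (nat_lit 0x14002000800094c2b02)))))) (.nd (nat_lit 18) 
(.nd (nat_lit 19) (.nd (nat_lit 21) 
(.lf (nat_lit 25337870) (dlOf (nat_lit 1) (nat_lit 0x400200260008bf0882))) 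
(.lf (nat_lit 27435022) (dlOf (nat_lit 1) (nat_lit 0x5800800e000200160008ce0183)))) 
(.nd (nat_lit 7) (.lf (nat_lit 19570702) (dlOf (nat_lit 1) (nat_lit 0x200289c0181))) 
(.lf (nat_lit 20624526) (dlOf (nat_lit 1) (nat_lit 0x200289d9501))))) (.nd (nat_lit 7) 
(.nd (nat_lit 19) 
(.lf (nat_lit 24551438) (dlOf (nat_lit 3) (nat_lit 0x9b49000014080045a480000004001400400280018ba0402))) 
(.lf (nat_lit 22978574) (dlOf (nat_lit 2) (nat_lit 0x8f3300022818b40180)))) (.nd (nat_lit 8) 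
(.lf (nat_lit 20362894) (dlOf (nat_lit 1) (nat_lit 0x4002000200089d9e82))) 
(.lf (nat_lit 54960526) (dlOf (nat_lit 1) (nat_lit 0x294002006a0009685d82))))))) (.nd (nat_lit 27) 
(.nd (nat_lit 9) (.nd (nat_lit 19) (.nd (nat_lit 28) 
(.lf (nat_lit 67280910) (dlOf (nat_lit 1) (nat_lit 0x40018090181))) 
(.lf (nat_lit 4630683662) (dlOf (nat_lit 2) (nat_lit 0x1100a00038010012a208000400200020008060a02)))) 
(.nd (nat_lit 21) (.lf (nat_lit 67805198) (dlOf (nat_lit 1) (nat_lit 0x2000182f0a01))) 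
(.lf (nat_lit 2754256910) (dlOf (nat_lit 2) (nat_lit 0x61fc00de20180d0880))))) (.nd (nat_lit 11) 
(.lf (nat_lit 4362248718) (dlOf (nat_lit 1) (nat_lit 0xe0028018401))) 
(.lf (nat_lit 2751642126) (dlOf (nat_lit 1) (nat_lit 0x2000800100020014000800b283))))) 
(.nd (nat_lit 9) (.nd (nat_lit 7) (.nd (nat_lit 19) 
(.lf (nat_lit 4764901390) (dlOf (nat_lit 2) (nat_lit 0x1100a0003801001bea08000400200020008060a02))) 
(.lf (nat_lit 470458382) (dlOf (nat_lit 1) (nat_lit 0x8008000400200020008100683)))) 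
(.lf (nat_lit 738632078) (dlOf (nat_lit 10) (nat_lit 0xa816800200ae001c0050033383003d02d0012015c009800a006660600120050033281000302b8003001400cc808006c0b400340050032d82000c02d0004801400b2a0805180b402b00570145002801650180098168000c00a0059304002405a000b00280164810064800801d0002001200080c5d83)))) 
(.nd (nat_lit 18) (.lf (nat_lit 469934606) (dlOf (nat_lit 1) (nat_lit 0x4c00200020008018402))) 
(.lf (nat_lit 2886115854) (dlOf (nat_lit 12) (nat_lit 0x18c04e002801a0026302000400a0013100800600dc001406a00380000025e03001301b800400d40088000004bb060008043009101f000700dc001806a003a0000025d05002001b8012c40801b00f8006406e000a0140025803001101b80129c0800780dc002c028004a60400260370025281000301b8012900808e000802e400203fc0008158403))))))) 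
(.nd (nat_lit 28) (.nd (nat_lit 8) (.nd (nat_lit 19) (.nd (nat_lit 10) (.nd (nat_lit 18) 
(.lf (nat_lit 6107078670) (dlOf (nat_lit 2) (nat_lit 0x600b00028054001c00a0075806000c0008060a01))) 
(.lf (nat_lit 3758530574) (dlOf (nat_lit 1) (nat_lit 0x1a0008270201)))) 
(.lf (nat_lit 5905753102) (dlOf (nat_lit 1) (nat_lit 0x400400020008142882)))) (.nd (nat_lit 26) 
(.lf (nat_lit 3893010446) (dlOf (nat_lit 1) (nat_lit 0x200282d0181))) 
(.lf (nat_lit 1678417934) (dlOf (nat_lit 3) (nat_lit 0x2402b0009200800381580048e0400e4004003e0008210082))))) 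
(.nd (nat_lit 7) (.nd (nat_lit 9) 
(.lf (nat_lit 3221400846) (dlOf (nat_lit 2) (nat_lit 0x300bc0005804005400200040008116682))) 
(.nd (nat_lit 10) (.lf (nat_lit 1141025550) (dlOf (nat_lit 1) (nat_lit 0x7000400160018095b02))) 
(.lf (nat_lit 3758274318) (dlOf (nat_lit 1) (nat_lit 0x2000800040020002000812a003))))) 
(.nd (nat_lit 9) (.nd (nat_lit 26) 
(.lf (nat_lit 3221660046) (dlOf (nat_lit 2) (nat_lit 0x28118010fe04000800200040008170782))) 
(.lf (nat_lit 3959857550) (dlOf (nat_lit 2) (nat_lit 0x2811801d4804000800200040008170782)))) 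
(.lf (nat_lit 1141025678) (dlOf (nat_lit 1) (nat_lit 0x800400020008095c82)))))) (.nd (nat_lit 19) 
(.nd (nat_lit 18) (.nd (nat_lit 10) (.nd (nat_lit 26) 
(.lf (nat_lit 6308405262) (dlOf (nat_lit 1) (nat_lit 0x8008000400200020008070003))) 
(.lf (nat_lit 5704425486) (dlOf (nat_lit 1) (nat_lit 0x8008000400200020008070003)))) 
(.lf (nat_lit 2080547854) (dlOf (nat_lit 1) (nat_lit 0x1c00400080008092882)))) (.nd (nat_lit 7) 
(.lf (nat_lit 4228292622) (dlOf (nat_lit 1) (nat_lit 0xd400400400008090002))) 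
(.lf (nat_lit 3493241230) (dlOf (nat_lit 1) (nat_lit 0xc0028106181))))) (.nd (nat_lit 8) 
(.nd (nat_lit 20) (.nd (nat_lit 21) 
(.lf (nat_lit 1342873614) (dlOf (nat_lit 1) (nat_lit 0x8008000400200020008100683))) 
(.lf (nat_lit 3492454414) (dlOf (nat_lit 2) (nat_lit 0x61ea00c258180d0880)))) 
(.lf (nat_lit 1343922190) (dlOf (nat_lit 1) (nat_lit 0x8004001a0008380782)))) (.nd (nat_lit 7) 
(.lf (nat_lit 3493765390) (dlOf (nat_lit 1) (nat_lit 0x4004000200181b0482))) 
(.lf (nat_lit 5772321166) (dlOf (nat_lit 2) (nat_lit 0x370978002280800200080010002000c0008091003)))))))) 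
(.nd (nat_lit 19) (.nd (nat_lit 7) (.nd (nat_lit 28) (.nd (nat_lit 9) (.nd (nat_lit 8) 
(.nd (nat_lit 20) 
(.lf (nat_lit 2819072014) (dlOf (nat_lit 1) (nat_lit 0x518008028c00200520008190283))) 
(.lf (nat_lit 24616974) (dlOf (nat_lit 1) (nat_lit 0x400400020018ba0402)))) 
(.lf (nat_lit 23306510) (dlOf (nat_lit 1) (nat_lit 0x360028b80481)))) (.nd (nat_lit 20) 
(.nd (nat_lit 27) 
(.lf (nat_lit 537109006) (dlOf (nat_lit 6) (nat_lit 0x2602f80127c08019017c0093c0400b00be0049502005c05f0024a01002e02f80124c0800e8008013400200a00008018403))) 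
(.lf (nat_lit 671326734) (dlOf (nat_lit 2) (nat_lit 0x4380b00098c04000400200020008158402)))) 
(.nd (nat_lit 18) 
(.lf (nat_lit 9675278) (dlOf (nat_lit 7) (nat_lit 0xe4700012f00800723800050000004bb04000a8e00025d010016476000180000096008009c000004a702001000000253018578400))) 
(.lf (nat_lit 58171918) (dlOf (nat_lit 1) (nat_lit 0x2000197c7b01)))))) (.nd (nat_lit 18) 
(.nd (nat_lit 10) (.nd (nat_lit 26) (.nd (nat_lit 29) 
(.lf (nat_lit 1342414862) (dlOf (nat_lit 6) (nat_lit 0x1c0123800908f0003be08057048e001dd020006247000d60100021238006a808000891c0034e0401b400400340018020482))) 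
(.lf (nat_lit 2953027598) (dlOf (nat_lit 1) (nat_lit 0x180080008002000400080b0183)))) 
(.lf (nat_lit 469999630) (dlOf (nat_lit 5) (nat_lit 0xd12380048008039091c0023c0401c848e0011c0200142470008d818020480)))) 
(.nd (nat_lit 8) (.lf (nat_lit 5234729998) (dlOf (nat_lit 1) (nat_lit 0x4004000200080d2882))) 
(.lf (nat_lit 3489901838) (dlOf (nat_lit 1) (nat_lit 0x400200020008006682))))) (.nd (nat_lit 20) 
(.nd (nat_lit 27) (.lf (nat_lit 2416418830) (dlOf (nat_lit 1) (nat_lit 0x200181c0681))) 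
(.lf (nat_lit 2550636558) (dlOf (nat_lit 1) (nat_lit 0x200181c0681)))) 
(.lf (nat_lit 3493306382) (dlOf (nat_lit 1) (nat_lit 0x60018110481)))))) (.nd (nat_lit 28) 
(.nd (nat_lit 9) (.nd (nat_lit 8) (.nd (nat_lit 10) 
(.lf (nat_lit 62103694) (dlOf (nat_lit 1) (nat_lit 0x8008001000200020009951003))) 
(.lf (nat_lit 3422794894) (dlOf (nat_lit 1) (nat_lit 0x100080008002000600080a9503)))) 
(.lf (nat_lit 1141088654) (dlOf (nat_lit 1) (nat_lit 0x1500080044002000a00080c5d83)))) 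
(.nd (nat_lit 8) (.nd (nat_lit 18) 
(.lf (nat_lit 8631950) (dlOf (nat_lit 1) (nat_lit 0x400400020008519e82))) 
(.lf (nat_lit 20428430) (dlOf (nat_lit 1) (nat_lit 0x4002000200089d9e82)))) 
(.lf (nat_lit 4899187598) (dlOf (nat_lit 1) (nat_lit 0x200180d5c81))))) (.nd (nat_lit 11) 
(.nd (nat_lit 18) (.nd (nat_lit 27) 
(.lf (nat_lit 2416157070) (dlOf (nat_lit 1) (nat_lit 0x20028090781))) 
(.lf (nat_lit 2550374798) (dlOf (nat_lit 1) (nat_lit 0x20028090781)))) (.nd (nat_lit 26) 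
(.lf (nat_lit 1342677390) (dlOf (nat_lit 1) (nat_lit 0x200180c0781))) 
(.lf (nat_lit 470262158) (dlOf (nat_lit 1) (nat_lit 0x200180c0781))))) (.nd (nat_lit 9) 
(.nd (nat_lit 27) (.lf (nat_lit 3490163086) (dlOf (nat_lit 1) (nat_lit 0x20018004e81))) 
(.lf (nat_lit 1476897166) (dlOf (nat_lit 1) (nat_lit 0x200282d4e81)))) 
(.lf (nat_lit 5100514190) (dlOf (nat_lit 1) (nat_lit 0x200280d5c81))))))) (.nd (nat_lit 21) 
(.nd (nat_lit 23) (.nd (nat_lit 9) (.nd (nat_lit 7) 
(.lf (nat_lit 22781966) (dlOf (nat_lit 2) (nat_lit 0x1d5b8003eada0002b028b20180))) 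
(.lf (nat_lit 67877006) (dlOf (nat_lit 1) (nat_lit 0x6002833a881)))) (.nd (nat_lit 18) 
(.lf (nat_lit 51094030) (dlOf (nat_lit 1) (nat_lit 0x200194f7b01))) 
(.lf (nat_lit 2752487950) (dlOf (nat_lit 18) (nat_lit 0x41ca011c0a00002001001318180040394001c142004c504000a0e5000e0508003000c009880c013c14a007c0050025e020017064802b8294010c00a004bb0600c80a5003e0028012e8100048394010c14a00280a100450028012c420002839400b01a800220c900530528018828400f800a004b00c00140e5000406480150294000c142009a00500253850004072800f8324011014a00460a1003b002801298280230294010000a004a504001600500252010042066801a02f0010c16c01120b2004305380048288001413c009400a0055004801f00040093e28011017800a000a005b004801278180048344010c19a003c0c6004305e004482c800a415000880a7004405100238028014001200860010024a8b0046066800982f4011817800640b6008a059002182a0011814e009400a005300480230004009282800041c400380bc001a05b004502c8001414e009000a005100480124c3801d0008040000200900008018403))))) 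
(.nd (nat_lit 18) (.nd (nat_lit 24) 
(.lf (nat_lit 10199054) (dlOf (nat_lit 1) (nat_lit 0x80080004002000200085c0883))) 
(.lf (nat_lit 60530702) (dlOf (nat_lit 1) (nat_lit 0x18008004400200080009890083)))) 
(.nd (nat_lit 9) 
(.lf (nat_lit 13606926) (dlOf (nat_lit 3) (nat_lit 0xdf1880369c04000b7a600d7e0200180008730881))) 
(.lf (nat_lit 42968590) (dlOf (nat_lit 1) (nat_lit 0x3000192a3681)))))) (.nd (nat_lit 8) 
(.nd (nat_lit 24) (.nd (nat_lit 23) 
(.lf (nat_lit 1345036302) (dlOf (nat_lit 1) (nat_lit 0x1c004001000089d0202))) 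
(.lf (nat_lit 11247630) (dlOf (nat_lit 1) (nat_lit 0x400400020008680182)))) (.nd (nat_lit 7) 
(.lf (nat_lit 58433550) (dlOf (nat_lit 1) (nat_lit 0x2200297e0001))) 
(.lf (nat_lit 19641998) (dlOf (nat_lit 1) (nat_lit 0x2000289d9e81))))) (.nd (nat_lit 10) 
(.nd (nat_lit 12) (.lf (nat_lit 473669902) (dlOf (nat_lit 1) (nat_lit 0x40018f97401))) 
(.lf (nat_lit 19640590) (dlOf (nat_lit 1) (nat_lit 0x2c00289d8081)))) (.nd (nat_lit 11) 
(.nd (nat_lit 20) (.lf (nat_lit 36676878) (dlOf (nat_lit 1) (nat_lit 0x800200040009073002))) 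
(.lf (nat_lit 33531150) (dlOf (nat_lit 1) (nat_lit 0x20008f53001)))) 
(.lf (nat_lit 19639566) (dlOf (nat_lit 1) (nat_lit 0x4004000200089d6682))))))))) (.nd (nat_lit 8) 
(.nd (nat_lit 16) (.nd (nat_lit 26) (.nd (nat_lit 18) (.nd (nat_lit 20) (.nd (nat_lit 28) 
(.nd (nat_lit 7) 
(.lf (nat_lit 2147655758) (dlOf (nat_lit 1) (nat_lit 0x80080004002000200080b0683))) 
(.lf (nat_lit 3758273230) (dlOf (nat_lit 1) (nat_lit 0x4800400140008128c82)))) (.nd (nat_lit 19) 
(.lf (nat_lit 1476567118) (dlOf (nat_lit 1) (nat_lit 0xc00400080018050702))) 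
(.lf (nat_lit 3492454478) (dlOf (nat_lit 2) (nat_lit 0x4207ac000ac040008002000600080d0d02))))) 
(.nd (nat_lit 7) (.nd (nat_lit 9) 
(.lf (nat_lit 3490881614) (dlOf (nat_lit 2) (nat_lit 0xc1fa00030e9000000100178008001000201180008030f83))) 
(.lf (nat_lit 33204814) (dlOf (nat_lit 1) (nat_lit 0x1800400040008f55282)))) (.nd (nat_lit 9) 
(.lf (nat_lit 9609422) (dlOf (nat_lit 1) (nat_lit 0x260028571801))) 
(.lf (nat_lit 20099790) (dlOf (nat_lit 1) (nat_lit 0x4002000200089d8c82)))))) (.nd (nat_lit 24) 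
(.nd (nat_lit 29) (.nd (nat_lit 9) 
(.lf (nat_lit 2007246) (dlOf (nat_lit 2) (nat_lit 0x1154c002470200040018150481))) 
(.lf (nat_lit 1345235662) (dlOf (nat_lit 1) (nat_lit 0x1c00400040018b05882)))) (.nd (nat_lit 7) 
(.lf (nat_lit 2819006542) (dlOf (nat_lit 5) (nat_lit 0x133000000008040988000000020202b20000000081024d039813100000000008017800200760008150702))) 
(.lf (nat_lit 537829582) (dlOf (nat_lit 4) (nat_lit 0x8d0000007980804e81840208000001cd0400aa061008d00000072c1000d800800d8002005a00081b0483))))) 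
(.nd (nat_lit 19) (.nd (nat_lit 20) 
(.lf (nat_lit 29794382) (dlOf (nat_lit 2) (nat_lit 0x30b83000108e800214100060008001400200060008e30183))) 
(.lf (nat_lit 26648654) (dlOf (nat_lit 1) (nat_lit 0x18002000c0008c50702)))) (.nd (nat_lit 20) 
(.lf (nat_lit 21930062) (dlOf (nat_lit 1) (nat_lit 0x400200020008a80f82))) 
(.lf (nat_lit 25075790) (dlOf (nat_lit 1) (nat_lit 0x400400020008be1502))))))) (.nd (nat_lit 31) 
(.nd (nat_lit 28) (.nd (nat_lit 7) (.nd (nat_lit 29) 
(.lf (nat_lit 1275240526) (dlOf (nat_lit 1) (nat_lit 0x80080004002000200080b0683))) 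
(.lf (nat_lit 5033336910) (dlOf (nat_lit 1) (nat_lit 0xc0018071681)))) 
(.lf (nat_lit 738631886) (dlOf (nat_lit 2) (nat_lit 0x200fc001ca040018002003800080c1b82)))) 
(.nd (nat_lit 7) (.nd (nat_lit 18) 
(.lf (nat_lit 474128462) (dlOf (nat_lit 1) (nat_lit 0x400190e0001))) 
(.lf (nat_lit 471244878) (dlOf (nat_lit 1) (nat_lit 0x4a00182e0181)))) 
(.lf (nat_lit 6377614030) (dlOf (nat_lit 1) (nat_lit 0x200280e5881))))) (.nd (nat_lit 7) 
(.nd (nat_lit 19) 
(.lf (nat_lit 2752684110) (dlOf (nat_lit 2) (nat_lit 0xc20f00030f3800000100178008001000201180008030f83))) 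
(.nd (nat_lit 21) 
(.lf (nat_lit 4228554830) (dlOf (nat_lit 7) (nat_lit 0x4402c000190100890160000c00800300b00005c0400200580002c020050037005301600140090000560c014406e011202c000e0120000a81802d00080050002000e00080f1503))) 
(.lf (nat_lit 2754256974) (dlOf (nat_lit 2) (nat_lit 0x4207f40009e040008002000600080d0d02))))) 
(.nd (nat_lit 22) 
(.lf (nat_lit 2885853390) (dlOf (nat_lit 3) (nat_lit 0xa601a007100100378000003a20c014803400de002006f00000073c1800c8008014c002003600080b0483))) 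
(.lf (nat_lit 2755829966) (dlOf (nat_lit 2) (nat_lit 0xe1ad000e28181b0480))))))) (.nd (nat_lit 18) 
(.nd (nat_lit 9) (.nd (nat_lit 7) (.nd (nat_lit 21) 
(.lf (nat_lit 59482190) (dlOf (nat_lit 2) (nat_lit 0x1867b00083320012164800909ca002c4d30001b059800680))) 
(.nd (nat_lit 26) 
(.lf (nat_lit 3492520014) (dlOf (nat_lit 2) (nat_lit 0x187ac000ac040028004004600180d0d02))) 
(.lf (nat_lit 2754322510) (dlOf (nat_lit 2) (nat_lit 0x187f40009e040028004004600180d0d02))))) 
(.nd (nat_lit 21) 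
(.lf (nat_lit 3494093006) (dlOf (nat_lit 3) (nat_lit 0x201f4000307d80071410000841800382040008002000200081b0482))) 
(.lf (nat_lit 2334926) (dlOf (nat_lit 2) (nat_lit 0x25422000297300123828150480))))) 
(.nd (nat_lit 10) (.nd (nat_lit 7) (.nd (nat_lit 19) 
(.lf (nat_lit 36940366) (dlOf (nat_lit 1) (nat_lit 0x20019075281))) 
(.lf (nat_lit 39561806) (dlOf (nat_lit 1) (nat_lit 0x20019195281)))) 
(.lf (nat_lit 20165326) (dlOf (nat_lit 1) (nat_lit 0x80080004002000200089d8c83)))) 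
(.nd (nat_lit 11) (.lf (nat_lit 5704492622) (dlOf (nat_lit 1) (nat_lit 0x4004000200080d3882))) 
(.lf (nat_lit 6509801038) (dlOf (nat_lit 1) (nat_lit 0x20008147181)))))) (.nd (nat_lit 19) 
(.nd (nat_lit 7) (.nd (nat_lit 9) (.nd (nat_lit 22) 
(.lf (nat_lit 3892813902) (dlOf (nat_lit 2) (nat_lit 0xb0160003000800d0008000400200020008280183))) 
(.lf (nat_lit 2756157518) (dlOf (nat_lit 2) (nat_lit 0x1c0108011803c0003d0400060028211501)))) 
(.lf (nat_lit 53979726) (dlOf (nat_lit 1) (nat_lit 0x4002000200095f5282)))) (.nd (nat_lit 26) 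
(.lf (nat_lit 805806286) (dlOf (nat_lit 2) (nat_lit 0xa00700050026001238281a0480))) 
(.lf (nat_lit 1678221518) (dlOf (nat_lit 2) (nat_lit 0xa00700050026001238281a0480))))) 
(.nd (nat_lit 22) (.nd (nat_lit 7) (.nd (nat_lit 20) 
(.lf (nat_lit 1343201358) (dlOf (nat_lit 2) (nat_lit 0x3a12d00011018190700))) 
(.lf (nat_lit 20947022) (dlOf (nat_lit 1) (nat_lit 0x80080004002000a00089f0683)))) 
(.lf (nat_lit 2072782) (dlOf (nat_lit 2) (nat_lit 0x1058080091c080050008005000200160008150483)))) 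
(.nd (nat_lit 7) (.nd (nat_lit 23) 
(.lf (nat_lit 21995598) (dlOf (nat_lit 1) (nat_lit 0xe0008a80f81))) 
(.lf (nat_lit 13606990) (dlOf (nat_lit 6) (nat_lit 0x477aa0004a0202cbc630134deb00010010048f18c00cb7ac0003f04013dc63003cdeb0000f810003f18c0007a04003400400240008730d02)))) 
(.lf (nat_lit 57649870) (dlOf (nat_lit 1) (nat_lit 0x20019795881)))))))) (.nd (nat_lit 16) 
(.nd (nat_lit 18) (.nd (nat_lit 7) (.nd (nat_lit 11) (.nd (nat_lit 21) 
(.lf (nat_lit 3624051022) (dlOf (nat_lit 3) (nat_lit 0x140000005602000601b0002a0180b0600))) 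
(.lf (nat_lit 2269518) (dlOf (nat_lit 2) (nat_lit 0x2cee00019818150600)))) (.nd (nat_lit 9) 
(.nd (nat_lit 10) (.lf (nat_lit 174414) (dlOf (nat_lit 1) (nat_lit 0x20028004d81))) 
(.lf (nat_lit 1543679310) (dlOf (nat_lit 1) (nat_lit 0x2c0028146a01)))) 
(.lf (nat_lit 6241299278) (dlOf (nat_lit 1) (nat_lit 0x3800280d5c01))))) (.nd (nat_lit 11) 
(.nd (nat_lit 19) (.lf (nat_lit 134390222) (dlOf (nat_lit 1) (nat_lit 0x9c0028017101))) 
(.nd (nat_lit 26) 
(.lf (nat_lit 3491406286) (dlOf (nat_lit 3) (nat_lit 0x1a0f40000640800887a00003004012400200280008090a02))) 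
(.lf (nat_lit 2753208782) (dlOf (nat_lit 3) (nat_lit 0x1a0fd0000640800887e80003004012400200280008090a02))))) 
(.nd (nat_lit 9) (.nd (nat_lit 25) 
(.lf (nat_lit 1344448974) (dlOf (nat_lit 1) (nat_lit 0x400400020008804e82))) 
(.lf (nat_lit 35826126) (dlOf (nat_lit 1) (nat_lit 0x400400020009014e82)))) 
(.lf (nat_lit 1141025742) (dlOf (nat_lit 2) (nat_lit 0x320240000d818095d80)))))) (.nd (nat_lit 26) 
(.nd (nat_lit 9) (.nd (nat_lit 7) 
(.lf (nat_lit 18784590) (dlOf (nat_lit 1) (nat_lit 0x400200020008970802))) (.nd (nat_lit 28) 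
(.lf (nat_lit 3221660110) (dlOf (nat_lit 1) (nat_lit 0x18002000a0008170a02))) 
(.lf (nat_lit 805741006) (dlOf (nat_lit 5) (nat_lit 0x480aa000e04e000701b800200c40050024002000a0001003000080380078154001c09c000e0370002012000880480034014000a0060000f87001602a80040138000c09800120370004015800100900054024002400a0003004000300180003a28001c0aa000c04e000501b800080ac00380480010012000e00500030018000362000d0004001a00181a0a02))))) 
(.nd (nat_lit 20) 
(.lf (nat_lit 1344709582) (dlOf (nat_lit 1) (nat_lit 0x60008001c00200120008982883))) 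
(.lf (nat_lit 41329614) (dlOf (nat_lit 1) (nat_lit 0x400400020019242882))))) (.nd (nat_lit 27) 
(.nd (nat_lit 7) 
(.lf (nat_lit 1410244942) (dlOf (nat_lit 2) (nat_lit 0x1c0ec0005202000800081b0601))) 
(.nd (nat_lit 29) (.lf (nat_lit 4362510798) (dlOf (nat_lit 2) (nat_lit 0x802d00010018090a00))) 
(.lf (nat_lit 1678156238) (dlOf (nat_lit 5) (nat_lit 0x480aa000e04e000701b800200c40050024002000a0001003000080380078154001c09c000e0370002012000880480034014000a0060000f87001602a80040138000c09800120370004015800100900054024002400a0003004000300180003a28001c0aa000c04e000501b800080ac00380480010012000e00500030018000362000d0004001a00181a0a02))))) 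
(.nd (nat_lit 28) (.lf (nat_lit 3959857614) (dlOf (nat_lit 1) (nat_lit 0x18002000a0008170a02))) 
(.lf (nat_lit 4228293070) (dlOf (nat_lit 2) (nat_lit 0x802c00010018090a00))))))) (.nd (nat_lit 29) 
(.nd (nat_lit 10) (.nd (nat_lit 7) (.nd (nat_lit 9) (.nd (nat_lit 20) 
(.lf (nat_lit 1409524046) (dlOf (nat_lit 1) (nat_lit 0x40008014c81))) 
(.lf (nat_lit 9675086) (dlOf (nat_lit 1) (nat_lit 0x400200020008574c82)))) 
(.lf (nat_lit 19901262) (dlOf (nat_lit 1) (nat_lit 0x4002000200089d5c02)))) (.nd (nat_lit 26) 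
(.nd (nat_lit 27) (.lf (nat_lit 2416157134) (dlOf (nat_lit 1) (nat_lit 0x80018090a01))) 
(.lf (nat_lit 2550374862) (dlOf (nat_lit 1) (nat_lit 0x80018090a01)))) 
(.lf (nat_lit 3288572366) (dlOf (nat_lit 1) (nat_lit 0x17c004001e0018090a02))))) (.nd (nat_lit 18) 
(.nd (nat_lit 7) (.lf (nat_lit 19641678) (dlOf (nat_lit 1) (nat_lit 0x600289d9901))) 
(.lf (nat_lit 67874766) (dlOf (nat_lit 1) (nat_lit 0x40008337a81)))) (.nd (nat_lit 19) 
(.nd (nat_lit 21) (.lf (nat_lit 501070) (dlOf (nat_lit 1) (nat_lit 0x20028003301))) 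
(.lf (nat_lit 5773960526) (dlOf (nat_lit 1) (nat_lit 0x100080008002000200080e3303)))) 
(.lf (nat_lit 50308430) (dlOf (nat_lit 1) (nat_lit 0x180080004002000400094c3303)))))) 
(.nd (nat_lit 7) (.nd (nat_lit 18) (.nd (nat_lit 9) (.nd (nat_lit 11) 
(.lf (nat_lit 537108814) (dlOf (nat_lit 1) (nat_lit 0x40008014c81))) 
(.lf (nat_lit 2751707470) (dlOf (nat_lit 1) (nat_lit 0x70008000c0020002000800ab83)))) 
(.lf (nat_lit 4899187534) (dlOf (nat_lit 1) (nat_lit 0x78002002600080d5c02)))) (.nd (nat_lit 10) 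
(.nd (nat_lit 26) (.lf (nat_lit 3892814158) (dlOf (nat_lit 1) (nat_lit 0x5400200140008280782))) 
(.lf (nat_lit 872915278) (dlOf (nat_lit 1) (nat_lit 0x400200020008108982)))) 
(.lf (nat_lit 604480846) (dlOf (nat_lit 1) (nat_lit 0x8008000c002000200082d3303))))) 
(.nd (nat_lit 9) (.nd (nat_lit 11) 
(.lf (nat_lit 4026769870) (dlOf (nat_lit 1) (nat_lit 0x17c004001e0018090a02))) 
(.lf (nat_lit 1880336846) (dlOf (nat_lit 1) (nat_lit 0xe0028864e81)))) (.nd (nat_lit 10) 
(.lf (nat_lit 4899187662) (dlOf (nat_lit 1) (nat_lit 0x200180d5d81))) 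
(.lf (nat_lit 2885920718) (dlOf (nat_lit 2) (nat_lit 0xc086000c03e0001000000044180060008001400200180008144483))))))))))))

end

end Pool.Agent.Lib.MP_5854e1_co.Cz

namespace Pool.Agent.Lib.MP_5854e1_co.Cz

noncomputable section

noncomputable def tz142 : DT := (.nd (nat_lit 17) (.nd (nat_lit 3) (.nd (nat_lit 15) 
(.nd (nat_lit 28) (.nd (nat_lit 18) (.nd (nat_lit 8) (.nd (nat_lit 9) (.nd (nat_lit 19) 
(.nd (nat_lit 7) (.nd (nat_lit 12) 
(.lf (nat_lit 22028326) (dlOf (nat_lit 2) (nat_lit 0x13ac00002a0200060028a90581))) 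
(.lf (nat_lit 603992102) (dlOf (nat_lit 1) (nat_lit 0x20028007b01)))) (.nd (nat_lit 6) 
(.lf (nat_lit 1056934) (dlOf (nat_lit 1) (nat_lit 0x400400020008064902))) 
(.lf (nat_lit 19937510) (dlOf (nat_lit 1) (nat_lit 0xc00189da881))))) (.nd (nat_lit 26) 
(.nd (nat_lit 20) 
(.lf (nat_lit 2819104806) (dlOf (nat_lit 2) (nat_lit 0x10007e000b702006400081a0601))) 
(.lf (nat_lit 9969702) (dlOf (nat_lit 1) (nat_lit 0x4004002200085a0c02)))) (.nd (nat_lit 29) 
(.lf (nat_lit 3288866854) (dlOf (nat_lit 1) (nat_lit 0x8002000400081d0a02))) 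
(.lf (nat_lit 1678254118) (dlOf (nat_lit 1) (nat_lit 0x200281c0a01)))))) (.nd (nat_lit 6) 
(.nd (nat_lit 10) (.nd (nat_lit 20) (.nd (nat_lit 26) 
(.lf (nat_lit 5368719910) (dlOf (nat_lit 1) (nat_lit 0x800400020008005182))) 
(.lf (nat_lit 5033175590) (dlOf (nat_lit 1) (nat_lit 0x800400020008005182)))) 
(.lf (nat_lit 53488166) (dlOf (nat_lit 1) (nat_lit 0x200295f5181)))) (.nd (nat_lit 11) 
(.lf (nat_lit 2147493414) (dlOf (nat_lit 1) (nat_lit 0x1c002000c0008003702))) 
(.lf (nat_lit 2754620966) (dlOf (nat_lit 1) (nat_lit 0x4004000200080f7182))))) (.nd (nat_lit 26) 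
(.nd (nat_lit 19) (.nd (nat_lit 29) 
(.lf (nat_lit 1207969382) (dlOf (nat_lit 2) (nat_lit 0x9002900020818003900))) 
(.lf (nat_lit 1744840294) (dlOf (nat_lit 2) (nat_lit 0x1c070000000200060028003901)))) 
(.lf (nat_lit 8922726) (dlOf (nat_lit 3) (nat_lit 0x251308000580400dc9840002b0200020028513901)))) 
(.nd (nat_lit 10) (.lf (nat_lit 5033175654) (dlOf (nat_lit 1) (nat_lit 0x20018005381))) 
(.lf (nat_lit 738207334) (dlOf (nat_lit 2) (nat_lit 0x2002a800a00dc0000008000400400180018003902))))))) 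
(.nd (nat_lit 7) (.nd (nat_lit 27) (.nd (nat_lit 10) (.nd (nat_lit 9) 
(.lf (nat_lit 8399142) (dlOf (nat_lit 1) (nat_lit 0x20018514b81))) 
(.lf (nat_lit 20458278) (dlOf (nat_lit 1) (nat_lit 0x200089d5c01)))) (.nd (nat_lit 19) 
(.lf (nat_lit 4294978854) (dlOf (nat_lit 1) (nat_lit 0x20008006801))) (.nd (nat_lit 20) 
(.lf (nat_lit 535846) (dlOf (nat_lit 1) (nat_lit 0x10008000400200040008006803))) 
(.lf (nat_lit 20458790) (dlOf (nat_lit 1) (nat_lit 0x400289d6801)))))) (.nd (nat_lit 9) 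
(.nd (nat_lit 26) (.nd (nat_lit 29) 
(.lf (nat_lit 5502936358) (dlOf (nat_lit 1) (nat_lit 0x400400020008003182))) 
(.lf (nat_lit 4966065446) (dlOf (nat_lit 1) (nat_lit 0x400400020008003182)))) 
(.lf (nat_lit 6106916134) (dlOf (nat_lit 1) (nat_lit 0x20028003181)))) (.nd (nat_lit 12) 
(.lf (nat_lit 2818583334) (dlOf (nat_lit 1) (nat_lit 0x440028005c01))) 
(.lf (nat_lit 2885696294) (dlOf (nat_lit 2) (nat_lit 0x2805c00aa20400200020016000800bc82)))))) 
(.nd (nat_lit 11) (.nd (nat_lit 10) (.nd (nat_lit 6) 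
(.lf (nat_lit 8397222) (dlOf (nat_lit 1) (nat_lit 0x20008511001))) (.nd (nat_lit 9) 
(.lf (nat_lit 2105830) (dlOf (nat_lit 1) (nat_lit 0x2e000201220008150c82))) 
(.lf (nat_lit 2751472614) (dlOf (nat_lit 1) (nat_lit 0x400200020008002882))))) (.nd (nat_lit 26) 
(.lf (nat_lit 4429195174) (dlOf (nat_lit 1) (nat_lit 0x20008004301))) (.nd (nat_lit 31) 
(.lf (nat_lit 4362086310) (dlOf (nat_lit 1) (nat_lit 0x5c002001a0008004302))) 
(.lf (nat_lit 6509569958) (dlOf (nat_lit 1) (nat_lit 0x8004000a0018004302)))))) (.nd (nat_lit 20) 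
(.nd (nat_lit 29) (.lf (nat_lit 1275079590) (dlOf (nat_lit 1) (nat_lit 0x1c002000a0008005d02))) 
(.lf (nat_lit 5033175974) (dlOf (nat_lit 1) (nat_lit 0x400400020008005d02)))) (.nd (nat_lit 9) 
(.lf (nat_lit 2754619814) (dlOf (nat_lit 1) (nat_lit 0x4002000200080f4e82))) 
(.lf (nat_lit 20458406) (dlOf (nat_lit 1) (nat_lit 0x200289d5d01)))))))) (.nd (nat_lit 7) 
(.nd (nat_lit 6) (.nd (nat_lit 23) (.nd (nat_lit 11) (.nd (nat_lit 26) (.nd (nat_lit 27) 
(.lf (nat_lit 537141286) (dlOf (nat_lit 4) (nat_lit 0x940be0002002001005f0000f81000202f80007408006000800d400200600008030a03))) 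
(.lf (nat_lit 671359014) (dlOf (nat_lit 2) (nat_lit 0x160250038011002ff010004800801a400200ee0008160483)))) 
(.nd (nat_lit 8) 
(.lf (nat_lit 1812209702) (dlOf (nat_lit 2) (nat_lit 0x130000000a80800a80080040002000c0008180583))) 
(.lf (nat_lit 2755928358) (dlOf (nat_lit 1) (nat_lit 0x200181b0501))))) (.nd (nat_lit 8) 
(.nd (nat_lit 21) (.lf (nat_lit 1745103398) (dlOf (nat_lit 1) (nat_lit 0xc8004005a0008095182))) 
(.lf (nat_lit 69478950) (dlOf (nat_lit 1) (nat_lit 0x380080024002000a0008a25183)))) 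
(.lf (nat_lit 273702) (dlOf (nat_lit 1) (nat_lit 0x10008000400200020008006803))))) 
(.nd (nat_lit 19) (.nd (nat_lit 21) 
(.lf (nat_lit 25436198) (dlOf (nat_lit 1) (nat_lit 0x20028c00501))) 
(.lf (nat_lit 44310566) (dlOf (nat_lit 1) (nat_lit 0x10002002000092f0982)))) (.nd (nat_lit 9) 
(.nd (nat_lit 21) 
(.lf (nat_lit 27009062) (dlOf (nat_lit 2) (nat_lit 0x30ec28002c4080058008000400200120008ca0603))) 
(.lf (nat_lit 45883430) (dlOf (nat_lit 1) (nat_lit 0x2c0019360201)))) 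
(.lf (nat_lit 32254502) (dlOf (nat_lit 1) (nat_lit 0x60018ef5181)))))) (.nd (nat_lit 12) 
(.nd (nat_lit 19) (.nd (nat_lit 20) 
(.lf (nat_lit 2349080678) (dlOf (nat_lit 3) (nat_lit 0x18405000027020002028000128180a1300))) 
(.lf (nat_lit 26484838) (dlOf (nat_lit 1) (nat_lit 0x8004000c0018c50d02)))) (.nd (nat_lit 8) 
(.lf (nat_lit 59514982) (dlOf (nat_lit 1) (nat_lit 0x1000400080009800982))) 
(.lf (nat_lit 50080102) (dlOf (nat_lit 3) (nat_lit 0x14aa0014ae02001a546000000194c4e80))))) 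
(.nd (nat_lit 9) (.nd (nat_lit 10) 
(.lf (nat_lit 2751740006) (dlOf (nat_lit 1) (nat_lit 0xa001800a801))) 
(.lf (nat_lit 2818849894) (dlOf (nat_lit 8) (nat_lit 0x518088000540402bc0e403a604201ec01f804d806c000501000ec0e4008a042003101f8033006c0004c10012806c01a0022015c00d8000941804080d80558044000230401580220000d810163011000060080cc800808140020036000812c083)))) 
(.nd (nat_lit 20) (.lf (nat_lit 19674726) (dlOf (nat_lit 1) (nat_lit 0x1c002000200089d9c02))) 
(.lf (nat_lit 8140390) (dlOf (nat_lit 1) (nat_lit 0x400200020008519c02))))))) (.nd (nat_lit 8) 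
(.nd (nat_lit 20) (.nd (nat_lit 6) (.nd (nat_lit 9) 
(.lf (nat_lit 42214566) (dlOf (nat_lit 1) (nat_lit 0xc00400300009242c02))) 
(.lf (nat_lit 2885953190) (dlOf (nat_lit 1) (nat_lit 0x80008143a81)))) 
(.lf (nat_lit 5436088550) (dlOf (nat_lit 1) (nat_lit 0x1180080080002002600080c1d83)))) 
(.nd (nat_lit 9) (.nd (nat_lit 11) 
(.lf (nat_lit 58467494) (dlOf (nat_lit 1) (nat_lit 0x80080070002003600097e2c03))) 
(.lf (nat_lit 20196518) (dlOf (nat_lit 1) (nat_lit 0x400089d6281)))) 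
(.lf (nat_lit 20197030) (dlOf (nat_lit 1) (nat_lit 0xec002006400089d7202))))) (.nd (nat_lit 9) 
(.nd (nat_lit 6) (.nd (nat_lit 10) 
(.lf (nat_lit 61612454) (dlOf (nat_lit 1) (nat_lit 0x20019921001))) 
(.lf (nat_lit 8136102) (dlOf (nat_lit 1) (nat_lit 0x400200020008513602)))) 
(.lf (nat_lit 5905850854) (dlOf (nat_lit 1) (nat_lit 0x8b0008032c002006c0008157d03)))) 
(.nd (nat_lit 32) (.nd (nat_lit 6) 
(.lf (nat_lit 3959695270) (dlOf (nat_lit 1) (nat_lit 0x94002002e0008114302))) 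
(.lf (nat_lit 738470886) (dlOf (nat_lit 1) (nat_lit 0x400200020008095e82)))) (.nd (nat_lit 27) 
(.lf (nat_lit 4899220390) (dlOf (nat_lit 1) (nat_lit 0x200180d5d01))) 
(.lf (nat_lit 4496567206) (dlOf (nat_lit 1) (nat_lit 0x300080014002000e00080e5d03))))))))) 
(.nd (nat_lit 26) (.nd (nat_lit 11) (.nd (nat_lit 18) (.nd (nat_lit 7) (.nd (nat_lit 6) 
(.nd (nat_lit 30) (.lf (nat_lit 805838886) (dlOf (nat_lit 1) (nat_lit 0x200281c0a01))) 
(.lf (nat_lit 4027064358) (dlOf (nat_lit 1) (nat_lit 0x8002000400081d0a02)))) (.nd (nat_lit 8) 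
(.lf (nat_lit 4563412582) (dlOf (nat_lit 2) (nat_lit 0x1a00cc0000004003400400ce0018003902))) 
(.lf (nat_lit 2952803686) (dlOf (nat_lit 1) (nat_lit 0x400400020008009902))))) (.nd (nat_lit 8) 
(.nd (nat_lit 29) (.lf (nat_lit 2415928998) (dlOf (nat_lit 1) (nat_lit 0x20008003a81))) 
(.lf (nat_lit 4026541734) (dlOf (nat_lit 1) (nat_lit 0x24c00200840008003a82)))) 
(.lf (nat_lit 2415929254) (dlOf (nat_lit 1) (nat_lit 0x20028004301))))) (.nd (nat_lit 7) 
(.nd (nat_lit 6) (.nd (nat_lit 19) (.nd (nat_lit 27) 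
(.lf (nat_lit 1342447654) (dlOf (nat_lit 4) (nat_lit 0xc23c000d04a0000801000d82500003a0400081280001c0200040018030a01))) 
(.lf (nat_lit 939794470) (dlOf (nat_lit 2) (nat_lit 0x130000000a80800a80080040002000c0008180583)))) 
(.lf (nat_lit 1346117670) (dlOf (nat_lit 1) (nat_lit 0x20018e50781)))) 
(.lf (nat_lit 5637416550) (dlOf (nat_lit 2) (nat_lit 0x700540005a040014004000600080d3902)))) 
(.nd (nat_lit 6) (.nd (nat_lit 27) 
(.lf (nat_lit 4563673254) (dlOf (nat_lit 7) (nat_lit 0x24033000130100060198000840800380cc0003e0400b003e0001d02001601f0000b8100180198000000800f800800d0002002e00080c1483))) 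
(.lf (nat_lit 4697890982) (dlOf (nat_lit 1) (nat_lit 0x400180c1381)))) 
(.lf (nat_lit 4697891046) (dlOf (nat_lit 2) (nat_lit 0x1f00900038c0803b0008004c002003200080c1b83)))))) 
(.nd (nat_lit 10) (.nd (nat_lit 7) (.nd (nat_lit 18) (.nd (nat_lit 6) 
(.lf (nat_lit 6710897190) (dlOf (nat_lit 1) (nat_lit 0x40028005181))) 
(.lf (nat_lit 6710897254) (dlOf (nat_lit 1) (nat_lit 0xa0018005381)))) (.nd (nat_lit 21) 
(.lf (nat_lit 268708390) (dlOf (nat_lit 1) (nat_lit 0x4004000400080e5182))) 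
(.lf (nat_lit 1881418278) (dlOf (nat_lit 2) (nat_lit 0x80e100046018f05180))))) (.nd (nat_lit 8) 
(.nd (nat_lit 9) (.lf (nat_lit 3493079206) (dlOf (nat_lit 1) (nat_lit 0xa000280f4881))) 
(.lf (nat_lit 1345333926) (dlOf (nat_lit 1) (nat_lit 0x10008001400200020008b55603)))) 
(.lf (nat_lit 3489933734) (dlOf (nat_lit 1) (nat_lit 0x20008004e81))))) (.nd (nat_lit 27) 
(.nd (nat_lit 18) (.nd (nat_lit 19) (.nd (nat_lit 29) 
(.lf (nat_lit 3489672486) (dlOf (nat_lit 1) (nat_lit 0xc00200020008006802))) 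
(.lf (nat_lit 1879059750) (dlOf (nat_lit 1) (nat_lit 0x400400020008006802)))) 
(.lf (nat_lit 3490196774) (dlOf (nat_lit 2) (nat_lit 0x1022c0004804000400200020008006802)))) 
(.lf (nat_lit 3489934630) (dlOf (nat_lit 2) (nat_lit 0x608b00012018006800)))) (.nd (nat_lit 6) 
(.lf (nat_lit 2550148390) (dlOf (nat_lit 1) (nat_lit 0x400400020008006802))) (.nd (nat_lit 31) 
(.lf (nat_lit 939535590) (dlOf (nat_lit 1) (nat_lit 0x20018006501))) 
(.lf (nat_lit 3087019238) (dlOf (nat_lit 2) (nat_lit 0x201f000700b8000d4100010008003400200160008006503)))))))) 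
(.nd (nat_lit 7) (.nd (nat_lit 30) (.nd (nat_lit 6) (.nd (nat_lit 9) (.nd (nat_lit 10) 
(.nd (nat_lit 18) (.lf (nat_lit 474488870) (dlOf (nat_lit 1) (nat_lit 0x1000400120019180202))) 
(.lf (nat_lit 470032422) (dlOf (nat_lit 4) (nat_lit 0xc23c000d04a0000801000d82500003a0400081280001c0200040018030a01)))) 
(.nd (nat_lit 8) 
(.lf (nat_lit 469775398) (dlOf (nat_lit 2) (nat_lit 0x302380146204004800400160008009202))) 
(.lf (nat_lit 4630521126) (dlOf (nat_lit 1) (nat_lit 0x20028003181))))) (.nd (nat_lit 19) 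
(.lf (nat_lit 4764740134) (dlOf (nat_lit 1) (nat_lit 0x40028005181))) 
(.lf (nat_lit 472394278) (dlOf (nat_lit 1) (nat_lit 0x74004002e0008985182))))) (.nd (nat_lit 8) 
(.lf (nat_lit 473964646) (dlOf (nat_lit 1) (nat_lit 0x20028fe0981))) 
(.lf (nat_lit 1006645606) (dlOf (nat_lit 1) (nat_lit 0xc0028008381))))) (.nd (nat_lit 9) 
(.nd (nat_lit 6) (.nd (nat_lit 27) 
(.lf (nat_lit 1409556518) (dlOf (nat_lit 4) (nat_lit 0x940be0002002001005f0000f81000202f80007408006000800d400200600008030a03))) 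
(.lf (nat_lit 1543774246) (dlOf (nat_lit 2) (nat_lit 0x16025003801100199c10004800801a400200ee0008160483)))) 
(.lf (nat_lit 3690999910) (dlOf (nat_lit 1) (nat_lit 0x20018007d81)))) (.nd (nat_lit 8) 
(.lf (nat_lit 6376925734) (dlOf (nat_lit 1) (nat_lit 0xa0018095181))) 
(.lf (nat_lit 2080385830) (dlOf (nat_lit 2) (nat_lit 0xe00c000b9818005c00)))))) (.nd (nat_lit 29) 
(.nd (nat_lit 6) (.nd (nat_lit 8) (.nd (nat_lit 9) 
(.lf (nat_lit 1409818790) (dlOf (nat_lit 1) (nat_lit 0xfc00400a40018090282))) 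
(.lf (nat_lit 3557044902) (dlOf (nat_lit 1) (nat_lit 0x27000801bc00201720008128c83)))) 
(.lf (nat_lit 3690999718) (dlOf (nat_lit 1) (nat_lit 0x20028007901)))) (.nd (nat_lit 11) 
(.nd (nat_lit 8) (.lf (nat_lit 469774566) (dlOf (nat_lit 1) (nat_lit 0x400400020018008082))) 
(.lf (nat_lit 1409819110) (dlOf (nat_lit 1) (nat_lit 0x20008000400200040008090c83)))) 
(.nd (nat_lit 10) 
(.lf (nat_lit 3691002086) (dlOf (nat_lit 1) (nat_lit 0x10008000c002001c000800a883))) 
(.lf (nat_lit 469777638) (dlOf (nat_lit 1) (nat_lit 0x800800dc0020006000800c603)))))) 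
(.nd (nat_lit 8) (.nd (nat_lit 10) (.nd (nat_lit 6) 
(.lf (nat_lit 5301870758) (dlOf (nat_lit 1) (nat_lit 0x200180c1381))) 
(.lf (nat_lit 5301870822) (dlOf (nat_lit 8) (nat_lit 0x3b00500828022000e304012a011000710100b50088003840803c0044000f604029c0220007a0201940110003c8100b10088001e00812e00080d98002052800080c1b83)))) 
(.nd (nat_lit 9) 
(.lf (nat_lit 4227873958) (dlOf (nat_lit 1) (nat_lit 0x1000800ac002000a000800c203))) 
(.lf (nat_lit 1006642854) (dlOf (nat_lit 1) (nat_lit 0x20018003a81))))) (.nd (nat_lit 9) 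
(.lf (nat_lit 872685990) (dlOf (nat_lit 1) (nat_lit 0x20018091001))) (.nd (nat_lit 10) 
(.lf (nat_lit 2080385958) (dlOf (nat_lit 1) (nat_lit 0x74400401480008005d02))) 
(.lf (nat_lit 1006643110) (dlOf (nat_lit 1) (nat_lit 0x20008004301)))))))))) (.nd (nat_lit 18) 
(.nd (nat_lit 26) (.nd (nat_lit 19) (.nd (nat_lit 6) (.nd (nat_lit 24) (.nd (nat_lit 7) 
(.nd (nat_lit 8) (.nd (nat_lit 9) 
(.lf (nat_lit 1881186342) (dlOf (nat_lit 1) (nat_lit 0x38008001800200020008e40203))) 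
(.lf (nat_lit 4563445286) (dlOf (nat_lit 3) (nat_lit 0xe042000a020800200f400100000001808000604200130000000001000500080040002000a0008003703)))) 
(.lf (nat_lit 2818616102) (dlOf (nat_lit 3) (nat_lit 0x22016003d00a8001003801c00180006006000e002001300000044c1c001800c0020e0200140008005c01)))) 
(.nd (nat_lit 11) (.nd (nat_lit 9) 
(.lf (nat_lit 8429990) (dlOf (nat_lit 1) (nat_lit 0x30008000400200020008511003))) 
(.lf (nat_lit 42918) (dlOf (nat_lit 1) (nat_lit 0x20028004301)))) (.nd (nat_lit 8) 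
(.lf (nat_lit 2550181030) (dlOf (nat_lit 2) (nat_lit 0x2404c000380200040018006281))) 
(.lf (nat_lit 3489709478) (dlOf (nat_lit 6) (nat_lit 0x141f50001801000a0fa8000b80800207d40005a0400403ea000060200181f5000a0e10000101000700080028002003e000800cb83)))))) 
(.nd (nat_lit 20) (.nd (nat_lit 21) 
(.lf (nat_lit 16818214) (dlOf (nat_lit 1) (nat_lit 0x4002000200088e0002))) 
(.lf (nat_lit 27303974) (dlOf (nat_lit 2) (nat_lit 0xa96c0165204000800200060008cd0682)))) 
(.nd (nat_lit 22) (.nd (nat_lit 23) 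
(.lf (nat_lit 17866790) (dlOf (nat_lit 1) (nat_lit 0x300008900a81))) 
(.lf (nat_lit 26255398) (dlOf (nat_lit 1) (nat_lit 0x10008000400200040008c20783)))) 
(.lf (nat_lit 22061094) (dlOf (nat_lit 3) (nat_lit 0x125338006a6f6002838100021120000a820001d338000c702000622400014838a90580)))))) 
(.nd (nat_lit 8) (.nd (nat_lit 9) (.nd (nat_lit 10) 
(.lf (nat_lit 4235366) (dlOf (nat_lit 1) (nat_lit 0x20018290281))) 
(.lf (nat_lit 2952838246) (dlOf (nat_lit 5) (nat_lit 0xb0138020808c012c03c003e01a000500480048020003800a005600200110000000a04800800000004e04002c04e004001e00140098006802400bc000000260a00360130008004800080000004a0c00780040016000800c082)))) 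
(.nd (nat_lit 20) (.lf (nat_lit 1208002150) (dlOf (nat_lit 2) (nat_lit 0x7e02400020818003900))) 
(.lf (nat_lit 61908582) (dlOf (nat_lit 2) (nat_lit 0x14c90000c80800500080044002000a0009923903))))) 
(.nd (nat_lit 7) (.nd (nat_lit 9) 
(.lf (nat_lit 671129958) (dlOf (nat_lit 3) (nat_lit 0x400b00070036001200600140000000a42000700b000340360010006000800000009c2000400080048002003c00080b0703))) 
(.lf (nat_lit 19966822) (dlOf (nat_lit 1) (nat_lit 0x4002000200089d5c02)))) 
(.lf (nat_lit 11575782) (dlOf (nat_lit 1) (nat_lit 0x4002000200086c0c82)))))) (.nd (nat_lit 30) 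
(.nd (nat_lit 6) (.nd (nat_lit 9) (.nd (nat_lit 22) 
(.lf (nat_lit 10002470) (dlOf (nat_lit 1) (nat_lit 0x80008017c002007400085a0c03))) 
(.lf (nat_lit 22585382) (dlOf (nat_lit 1) (nat_lit 0x80c00201520008b00882)))) (.nd (nat_lit 11) 
(.lf (nat_lit 50897446) (dlOf (nat_lit 1) (nat_lit 0x4002000200094d8802))) 
(.lf (nat_lit 44608038) (dlOf (nat_lit 1) (nat_lit 0x20029325181))))) (.nd (nat_lit 8) 
(.nd (nat_lit 9) (.lf (nat_lit 21536870) (dlOf (nat_lit 1) (nat_lit 0x4000400080008a40782))) 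
(.lf (nat_lit 52995686) (dlOf (nat_lit 2) (nat_lit 0x5fbbb00016819573900)))) 
(.lf (nat_lit 14197094) (dlOf (nat_lit 1) (nat_lit 0x400400020008750982))))) (.nd (nat_lit 31) 
(.nd (nat_lit 6) (.nd (nat_lit 7) 
(.lf (nat_lit 1881713190) (dlOf (nat_lit 1) (nat_lit 0x400400020008fe5182))) 
(.lf (nat_lit 1346938022) (dlOf (nat_lit 2) (nat_lit 0x40dd000101a000174100008008000800200660009102c03)))) 
(.lf (nat_lit 1611178086) (dlOf (nat_lit 1) (nat_lit 0x20028101e01)))) (.nd (nat_lit 20) 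
(.lf (nat_lit 3494420518) (dlOf (nat_lit 9) (nat_lit 0x14101000c07e8008d01000308680028426001c20200070808007b420003084c003d804001c434000a2130009101000284440004202001ea0a000821a000310980028808000c222001e808000a21a0005109800508080010222001e708000e21a0004109800408080018202001e608000821a0001109800288080004222001e50800020018220901))) 
(.nd (nat_lit 21) (.lf (nat_lit 3491274790) (dlOf (nat_lit 1) (nat_lit 0xe0018080981))) 
(.lf (nat_lit 3493371942) (dlOf (nat_lit 4) (nat_lit 0x1e0f5000b03100018088004003600020030000585000c07a8001006c0001408000c0d8001a03c00020018000001800c80080038002001e0008120a03)))))))) 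
(.nd (nat_lit 8) (.nd (nat_lit 6) (.nd (nat_lit 7) (.nd (nat_lit 9) (.nd (nat_lit 20) 
(.lf (nat_lit 2756223014) (dlOf (nat_lit 9) (nat_lit 0x14101000c07e8009301000308bc0028450001c21700070808007fc2000308a0003fc04001c45e000a228000910b8002842c0004202001fc0a000822f00031140002885c000c216001fa08000a22f00051140005085c0010216001f908000e22f00041140004085c0018202001f808000822f00011140002885c0004216001f70800020018220901))) 
(.lf (nat_lit 2755174438) (dlOf (nat_lit 4) (nat_lit 0x1e0f5000b03100018088004003600020030000585000c07a8001006c0001408000c0d8001a03c00020018000001800c80080038002001e0008120a03)))) 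
(.lf (nat_lit 335586854) (dlOf (nat_lit 5) (nat_lit 0x802600020120039008800038180168044001801e0000204000c0110000081000700980038048000000800bc00400140008003702)))) 
(.nd (nat_lit 9) (.nd (nat_lit 28) 
(.lf (nat_lit 3288378534) (dlOf (nat_lit 3) (nat_lit 0xa0350002381000501a8000e00800e0008000400200060008006283))) 
(.lf (nat_lit 2483072166) (dlOf (nat_lit 1) (nat_lit 0x20018006281)))) (.nd (nat_lit 10) 
(.lf (nat_lit 3691033254) (dlOf (nat_lit 1) (nat_lit 0x28008000c00200060008008c83))) 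
(.lf (nat_lit 2754653862) (dlOf (nat_lit 1) (nat_lit 0x80080010002000400080f7203)))))) 
(.nd (nat_lit 9) (.nd (nat_lit 7) (.nd (nat_lit 10) 
(.lf (nat_lit 738762854) (dlOf (nat_lit 1) (nat_lit 0x400200020008101e02))) 
(.lf (nat_lit 604028006) (dlOf (nat_lit 9) (nat_lit 0x4007000c0000000a81003e801c01d800c00fe00000012830001003800580000004808020c00e012c00600530018017000402a8000000230a00840000000f81000e00380006808005801c0003204008000e000180200a6001800c081)))) 
(.lf (nat_lit 2885725414) (dlOf (nat_lit 8) (nat_lit 0x3005c000a0180001a82000600e0013001000080060003106000c01c000700d800a801000080060003008001803000060000000b81000180c00005a0400680600002a02000401c00080020000a4100008008012400200060008006503)))) 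
(.nd (nat_lit 19) 
(.lf (nat_lit 3556812390) (dlOf (nat_lit 2) (nat_lit 0x3f014800380180000008003000400260008003902))) 
(.lf (nat_lit 6375908966) (dlOf (nat_lit 1) (nat_lit 0x8008001400200020008003903)))))) 
(.nd (nat_lit 9) (.nd (nat_lit 22) (.nd (nat_lit 6) (.nd (nat_lit 10) 
(.lf (nat_lit 5838514470) (dlOf (nat_lit 1) (nat_lit 0x340018004b81))) 
(.lf (nat_lit 1946201382) (dlOf (nat_lit 2) (nat_lit 0x40148000b0080008008000800200020008006803)))) 
(.lf (nat_lit 1543545190) (dlOf (nat_lit 3) (nat_lit 0x400b00070032001200600140000000a42000700b000340320010006000800000009c2000400080048002003c00080b0703)))) 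
(.nd (nat_lit 6) (.nd (nat_lit 7) 
(.lf (nat_lit 2755698982) (dlOf (nat_lit 6) (nat_lit 0xeb0590001a80800582c8000d00400081640006502021e0b2000320100b905900018c0800a80080050002002e00081b0503))) 
(.lf (nat_lit 2755699110) (dlOf (nat_lit 2) (nat_lit 0x882c800000040004004000a00081b0782)))) 
(.lf (nat_lit 2755699046) (dlOf (nat_lit 2) (nat_lit 0xc02c800058040004002000200081b0702))))) 
(.nd (nat_lit 7) (.nd (nat_lit 27) 
(.lf (nat_lit 872459046) (dlOf (nat_lit 2) (nat_lit 0x6000000a8818005c00))) (.nd (nat_lit 29) 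
(.lf (nat_lit 4764773158) (dlOf (nat_lit 1) (nat_lit 0x800400020008005c02))) 
(.lf (nat_lit 2080418598) (dlOf (nat_lit 1) (nat_lit 0x20018005c01))))) (.nd (nat_lit 10) 
(.nd (nat_lit 20) (.lf (nat_lit 5301644198) (dlOf (nat_lit 1) (nat_lit 0xc00200020008005d02))) 
(.lf (nat_lit 4094733222) (dlOf (nat_lit 1) (nat_lit 0x8008000400200020008055d03)))) 
(.lf (nat_lit 469804966) (dlOf (nat_lit 1) (nat_lit 0x40028004301)))))))) (.nd (nat_lit 30) 
(.nd (nat_lit 6) (.nd (nat_lit 22) (.nd (nat_lit 26) (.nd (nat_lit 7) (.nd (nat_lit 8) 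
(.nd (nat_lit 19) (.lf (nat_lit 402956326) (dlOf (nat_lit 1) (nat_lit 0xa4002001e00080b0302))) 
(.lf (nat_lit 2924582) (dlOf (nat_lit 1) (nat_lit 0x8a00281d0501)))) 
(.lf (nat_lit 306470) (dlOf (nat_lit 1) (nat_lit 0x8c00080008002000e0008006803)))) (.nd (nat_lit 9) 
(.lf (nat_lit 4697923750) (dlOf (nat_lit 2) (nat_lit 0xc0168000800800700080054002003200080c1383))) 
(.lf (nat_lit 36481702) (dlOf (nat_lit 1) (nat_lit 0x4002006e0009075602))))) (.nd (nat_lit 7) 
(.nd (nat_lit 19) (.nd (nat_lit 20) 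
(.lf (nat_lit 335847462) (dlOf (nat_lit 1) (nat_lit 0xa4002001e00080b0302))) 
(.lf (nat_lit 68460582) (dlOf (nat_lit 1) (nat_lit 0x20008580d81)))) 
(.lf (nat_lit 2754388006) (dlOf (nat_lit 7) (nat_lit 0xe85540020270000720400021540003781001c0aa800784e0000440800283f4000200200201fa00010aa800a84e0000380c00d43f4003c1550000d8280e0500)))) 
(.nd (nat_lit 29) (.lf (nat_lit 4496599974) (dlOf (nat_lit 1) (nat_lit 0x1c00280e5d01))) 
(.lf (nat_lit 738503590) (dlOf (nat_lit 1) (nat_lit 0x20028095d01)))))) (.nd (nat_lit 9) 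
(.nd (nat_lit 21) (.nd (nat_lit 23) 
(.lf (nat_lit 2755960870) (dlOf (nat_lit 1) (nat_lit 0x300080184002004200081c0903))) 
(.lf (nat_lit 12886054) (dlOf (nat_lit 2) (nat_lit 0x6343001bf40800280080010002000400086e0a03)))) 
(.nd (nat_lit 7) (.lf (nat_lit 24944678) (dlOf (nat_lit 1) (nat_lit 0x8008000400200020008bd0c03))) 
(.lf (nat_lit 31761574) (dlOf (nat_lit 1) (nat_lit 0x1000200260008e92c02))))) (.nd (nat_lit 21) 
(.nd (nat_lit 19) (.lf (nat_lit 39103014) (dlOf (nat_lit 1) (nat_lit 0x5a0019195181))) 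
(.lf (nat_lit 46967334) (dlOf (nat_lit 1) (nat_lit 0x400400020009385182)))) (.nd (nat_lit 11) 
(.lf (nat_lit 8172070) (dlOf (nat_lit 1) (nat_lit 0x60028518901))) 
(.lf (nat_lit 41724454) (dlOf (nat_lit 1) (nat_lit 0x88008000400200020009245183))))))) 
(.nd (nat_lit 7) (.nd (nat_lit 26) (.nd (nat_lit 10) (.nd (nat_lit 19) 
(.lf (nat_lit 62169190) (dlOf (nat_lit 2) (nat_lit 0xa52d806d34080308008001800200420009960783))) 
(.lf (nat_lit 42770534) (dlOf (nat_lit 1) (nat_lit 0x20029280981)))) 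
(.lf (nat_lit 2818882662) (dlOf (nat_lit 2) (nat_lit 0x120210000a008003000800040020004000812c083)))) 
(.nd (nat_lit 10) (.nd (nat_lit 21) 
(.lf (nat_lit 2755960934) (dlOf (nat_lit 3) (nat_lit 0xd02600008808005813000042040004004000a00181c1382))) 
(.lf (nat_lit 2753863782) (dlOf (nat_lit 1) (nat_lit 0x200180a1301)))) 
(.lf (nat_lit 67943526) (dlOf (nat_lit 1) (nat_lit 0x2000800040020002000833c083))))) 
(.nd (nat_lit 8) (.nd (nat_lit 28) 
(.lf (nat_lit 4966359270) (dlOf (nat_lit 1) (nat_lit 0x4002000200080c1d82))) 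
(.lf (nat_lit 4697923814) (dlOf (nat_lit 8) (nat_lit 0x55c06a000402f000d016800580ac033804e01d801b00f300b0015804800bc01a005c009000718a000d017800580b4001c056002e01f0007104000100f8003840800300b4000803e0007b04002402f001a00f8001e81000d00bc000f20400bc05e001c02d003400f8001e018090800806c800206a200080c1b83)))) 
(.nd (nat_lit 11) (.lf (nat_lit 6509863398) (dlOf (nat_lit 1) (nat_lit 0xc400400020018157302))) 
(.lf (nat_lit 8174054) (dlOf (nat_lit 1) (nat_lit 0x20008000c0020004000851b283))))))) 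
(.nd (nat_lit 28) (.nd (nat_lit 6) (.nd (nat_lit 8) (.nd (nat_lit 9) 
(.lf (nat_lit 3758399526) (dlOf (nat_lit 2) (nat_lit 0x7002400015018170280))) 
(.lf (nat_lit 3221529126) (dlOf (nat_lit 2) (nat_lit 0x10a00e001eb818127f00)))) (.nd (nat_lit 7) 
(.nd (nat_lit 10) 
(.lf (nat_lit 5905883430) (dlOf (nat_lit 1) (nat_lit 0x48008001c00200080008154603))) 
(.lf (nat_lit 1610917158) (dlOf (nat_lit 1) (nat_lit 0x20028093181)))) 
(.lf (nat_lit 1610916262) (dlOf (nat_lit 1) (nat_lit 0x400400020018091002))))) (.nd (nat_lit 7) 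
(.nd (nat_lit 8) (.nd (nat_lit 9) 
(.lf (nat_lit 3758399590) (dlOf (nat_lit 6) (nat_lit 0x802b0003e8100080158001f00800400ac000ea0400200560007402001002b00039818170d00))) 
(.lf (nat_lit 1610917478) (dlOf (nat_lit 2) (nat_lit 0x2e05a00023018093900)))) (.nd (nat_lit 27) 
(.lf (nat_lit 3221528934) (dlOf (nat_lit 1) (nat_lit 0x40018124f01))) 
(.lf (nat_lit 3892617574) (dlOf (nat_lit 1) (nat_lit 0x400200140008160982))))) (.nd (nat_lit 8) 
(.lf (nat_lit 5369012454) (dlOf (nat_lit 2) (nat_lit 0x1a804e003001a000718280c1b80))) 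
(.nd (nat_lit 26) 
(.lf (nat_lit 3221529062) (dlOf (nat_lit 11) (nat_lit 0x10201f00560038015401800900000001204006601f00008c080ad00f802dc01c00b200c0062002002700000004414058c07c00c203c00b40070029003000c0000000200a01e003e00800070029003000b40000001f0800b000e0000f01016101f003000f002cc01c00a200c0047000000074280030038000380402cc01c0001b0201b603e004200700006810e3300080140002011e0008127303))) 
(.lf (nat_lit 3959726566) (dlOf (nat_lit 4) (nat_lit 0x190070012800800f80380093004008001c003e80200a40008127d01))))))) 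
(.nd (nat_lit 31) (.nd (nat_lit 6) (.nd (nat_lit 7) (.nd (nat_lit 9) 
(.lf (nat_lit 1476698150) (dlOf (nat_lit 1) (nat_lit 0xe800800c000200040008140603))) 
(.lf (nat_lit 1345104422) (dlOf (nat_lit 1) (nat_lit 0x4004000200089e5182)))) 
(.lf (nat_lit 5637447846) (dlOf (nat_lit 1) (nat_lit 0x100080008002003c00080f1383)))) 
(.nd (nat_lit 8) 
(.lf (nat_lit 1346150502) (dlOf (nat_lit 4) (nat_lit 0xa6053405b01b2028e0d8015403e801701f00380060026002f0000707014b0a680b4836405480fa005607c000060401150a6809b836404400fa000207c00aa018000000289748008013800203640008e60983))) 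
(.lf (nat_lit 1345627494) (dlOf (nat_lit 1) (nat_lit 0x140018dd3481))))) (.nd (nat_lit 7) 
(.nd (nat_lit 8) (.nd (nat_lit 19) (.nd (nat_lit 22) 
(.lf (nat_lit 3691290662) (dlOf (nat_lit 2) (nat_lit 0x1100a8000000800100080060002001c0008110703))) 
(.lf (nat_lit 3494158374) (dlOf (nat_lit 1) (nat_lit 0x300080184002004200081c0903)))) 
(.lf (nat_lit 3492585510) (dlOf (nat_lit 7) (nat_lit 0xe857c00202700007204000215e0003781001c0af800784e0000440800283d0000200200201e800010af800a84e0000380c00d43d0003c15f0000d8280e0500)))) 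
(.lf (nat_lit 3489967398) (dlOf (nat_lit 2) (nat_lit 0x2022c0004804000400200020008006802)))) 
(.nd (nat_lit 6) 
(.lf (nat_lit 3557077670) (dlOf (nat_lit 1) (nat_lit 0x9d8008000400200c00008128c83))) 
(.lf (nat_lit 3491537382) (dlOf (nat_lit 1) (nat_lit 0x21800801e800200e80008090c83)))))))))) 
(.nd (nat_lit 18) (.nd (nat_lit 28) (.nd (nat_lit 8) (.nd (nat_lit 26) (.nd (nat_lit 20) 
(.nd (nat_lit 27) (.nd (nat_lit 9) (.nd (nat_lit 15) (.nd (nat_lit 19) 
(.lf (nat_lit 23076910) (dlOf (nat_lit 1) (nat_lit 0x78008000800200200008b50683))) 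
(.lf (nat_lit 27795502) (dlOf (nat_lit 1) (nat_lit 0x30008004400200120008d20883)))) 
(.lf (nat_lit 23109678) (dlOf (nat_lit 2) (nat_lit 0x969fa00008018b60900)))) (.nd (nat_lit 10) 
(.lf (nat_lit 50864686) (dlOf (nat_lit 2) (nat_lit 0x1769a0004502000200294d8a81))) 
(.lf (nat_lit 2147493422) (dlOf (nat_lit 1) (nat_lit 0x3c002000a0008003782))))) (.nd (nat_lit 15) 
(.nd (nat_lit 6) (.nd (nat_lit 9) 
(.lf (nat_lit 134750254) (dlOf (nat_lit 1) (nat_lit 0x1600280a0981))) 
(.lf (nat_lit 6039806510) (dlOf (nat_lit 1) (nat_lit 0x28008000400200060008001483)))) 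
(.lf (nat_lit 134750318) (dlOf (nat_lit 5) (nat_lit 0x601040001c0400400820000d0200220410000601002102080002c0803980080848002000200080a1503)))) 
(.nd (nat_lit 7) (.lf (nat_lit 671129646) (dlOf (nat_lit 1) (nat_lit 0x4004000200180b0002))) 
(.lf (nat_lit 671129774) (dlOf (nat_lit 1) (nat_lit 0x80080010002001400080b0303)))))) 
(.nd (nat_lit 9) (.nd (nat_lit 6) (.nd (nat_lit 7) (.nd (nat_lit 15) 
(.lf (nat_lit 17834030) (dlOf (nat_lit 1) (nat_lit 0x8004000200088f0e82))) 
(.lf (nat_lit 13672494) (dlOf (nat_lit 24) (nat_lit 0x388af4001a0000002582000b31e001f15e800080000004a0601ac57a00d60000001241000198f00270af400343ee00480000001202002a95e80008a040028cb60003a020648686000190102c434300100f6c00062080b44d0c000300201ac0000001701000231b001f95d000058080050d0c0064574000158200582ba0000a408001000000048040028000000200200b46860000f810030343000070080029a18000320401d0000000050201a20000000201005200000000c08029800000002040270cb6014418d001301f80f080000000010025c00200280008740602))))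 
(.lf (nat_lit 19970222) (dlOf (nat_lit 1) (nat_lit 0x600089da881)))) (.nd (nat_lit 23) 
(.lf (nat_lit 38805614) (dlOf (nat_lit 1) (nat_lit 0x20029162481))) 
(.lf (nat_lit 47194222) (dlOf (nat_lit 2) (nat_lit 0x5588400000040084002000a00093b0a82))))) 
(.nd (nat_lit 11) (.nd (nat_lit 6) 
(.lf (nat_lit 40903214) (dlOf (nat_lit 2) (nat_lit 0x488e00022819208a80))) 
(.lf (nat_lit 19968622) (dlOf (nat_lit 1) (nat_lit 0x4004000200189d8982)))) (.nd (nat_lit 7) 
(.lf (nat_lit 20459054) (dlOf (nat_lit 1) (nat_lit 0x4a00089d7181))) 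
(.lf (nat_lit 19937966) (dlOf (nat_lit 1) (nat_lit 0x4002000200089db782))))))) (.nd (nat_lit 27) 
(.nd (nat_lit 6) (.nd (nat_lit 11) (.nd (nat_lit 15) (.nd (nat_lit 19) 
(.lf (nat_lit 2752520238) (dlOf (nat_lit 2) (nat_lit 0xe08900010818020580))) 
(.lf (nat_lit 2754093102) (dlOf (nat_lit 1) (nat_lit 0x200180c0e01)))) 
(.lf (nat_lit 2755698734) (dlOf (nat_lit 1) (nat_lit 0x34004000800081b0002)))) 
(.lf (nat_lit 3825215534) (dlOf (nat_lit 1) (nat_lit 0x80018004701)))) (.nd (nat_lit 10) 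
(.lf (nat_lit 67674222) (dlOf (nat_lit 1) (nat_lit 0x5200182d0481))) 
(.lf (nat_lit 2754620526) (dlOf (nat_lit 1) (nat_lit 0x80080004002000200080f6083))))) 
(.nd (nat_lit 6) (.nd (nat_lit 29) (.nd (nat_lit 9) 
(.lf (nat_lit 201859118) (dlOf (nat_lit 1) (nat_lit 0x1600280a0981))) 
(.lf (nat_lit 3422560814) (dlOf (nat_lit 1) (nat_lit 0x180028001481)))) (.nd (nat_lit 10) 
(.lf (nat_lit 5033175598) (dlOf (nat_lit 1) (nat_lit 0x40018005181))) 
(.lf (nat_lit 738240046) (dlOf (nat_lit 1) (nat_lit 0x98008002c00200020008003783))))) 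
(.nd (nat_lit 7) 
(.lf (nat_lit 201859182) (dlOf (nat_lit 5) (nat_lit 0x601040001c0400400820000d0200220410000601002102080002c0803980080848002000200080a1503))) 
(.lf (nat_lit 2348852974) (dlOf (nat_lit 2) (nat_lit 0x400d000028040020004000c0008003b02))))))) 
(.nd (nat_lit 6) (.nd (nat_lit 7) (.nd (nat_lit 15) (.nd (nat_lit 10) 
(.lf (nat_lit 4362086702) (dlOf (nat_lit 1) (nat_lit 0x30008001800200200008004b83))) 
(.nd (nat_lit 19) (.lf (nat_lit 4294978862) (dlOf (nat_lit 1) (nat_lit 0x400400020008006882))) 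
(.lf (nat_lit 20458798) (dlOf (nat_lit 1) (nat_lit 0x400289d6881))))) (.nd (nat_lit 10) 
(.lf (nat_lit 1073785134) (dlOf (nat_lit 2) (nat_lit 0x2009c0005604000c00200020008004b82))) 
(.nd (nat_lit 26) (.lf (nat_lit 6442495278) (dlOf (nat_lit 1) (nat_lit 0x20018006881))) 
(.lf (nat_lit 5972733230) (dlOf (nat_lit 1) (nat_lit 0x20018006881)))))) (.nd (nat_lit 10) 
(.nd (nat_lit 11) (.nd (nat_lit 15) 
(.lf (nat_lit 61350318) (dlOf (nat_lit 1) (nat_lit 0xb400203ac0009921002))) 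
(.lf (nat_lit 58237358) (dlOf (nat_lit 1) (nat_lit 0x1600097c6e81)))) (.nd (nat_lit 15) 
(.lf (nat_lit 2754619822) (dlOf (nat_lit 1) (nat_lit 0x200180f4e81))) 
(.lf (nat_lit 2754652590) (dlOf (nat_lit 1) (nat_lit 0x4002000200080f4e82))))) (.nd (nat_lit 9) 
(.lf (nat_lit 2147493294) (dlOf (nat_lit 2) (nat_lit 0xa8050002ca04002000200020008003602))) 
(.nd (nat_lit 26) (.lf (nat_lit 4429195182) (dlOf (nat_lit 1) (nat_lit 0x400400020008004382))) 
(.lf (nat_lit 2751473582) (dlOf (nat_lit 1) (nat_lit 0x400400020008004382))))))) (.nd (nat_lit 11) 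
(.nd (nat_lit 26) (.nd (nat_lit 10) (.nd (nat_lit 15) 
(.lf (nat_lit 2147492846) (dlOf (nat_lit 1) (nat_lit 0x8008003400200020008002883))) 
(.lf (nat_lit 35693550) (dlOf (nat_lit 1) (nat_lit 0x20019012881)))) 
(.lf (nat_lit 8398830) (dlOf (nat_lit 1) (nat_lit 0x40018514601)))) (.nd (nat_lit 9) 
(.lf (nat_lit 1140860398) (dlOf (nat_lit 1) (nat_lit 0x8008000400200020008003603))) 
(.nd (nat_lit 27) (.lf (nat_lit 2751472622) (dlOf (nat_lit 1) (nat_lit 0x400200020008002882))) 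
(.lf (nat_lit 1811948526) (dlOf (nat_lit 1) (nat_lit 0x8008000400200020008002883)))))) 
(.nd (nat_lit 19) (.nd (nat_lit 7) (.nd (nat_lit 10) 
(.lf (nat_lit 671103854) (dlOf (nat_lit 1) (nat_lit 0x1c0040064000800bc82))) 
(.lf (nat_lit 603991918) (dlOf (nat_lit 2) (nat_lit 0x200580098604001c00200100008007782)))) 
(.lf (nat_lit 201341422) (dlOf (nat_lit 1) (nat_lit 0x50004000e000800b282)))) (.nd (nat_lit 15) 
(.lf (nat_lit 49818094) (dlOf (nat_lit 1) (nat_lit 0x80080004002000200094c4f03))) (.nd (nat_lit 21) 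
(.lf (nat_lit 56142318) (dlOf (nat_lit 1) (nat_lit 0x400400040019734f02))) 
(.lf (nat_lit 33073646) (dlOf (nat_lit 1) (nat_lit 0x60028f54f01))))))))) (.nd (nat_lit 9) 
(.nd (nat_lit 19) (.nd (nat_lit 11) (.nd (nat_lit 10) (.nd (nat_lit 7) (.nd (nat_lit 8) 
(.lf (nat_lit 3490717742) (dlOf (nat_lit 2) (nat_lit 0xe08c00010818020580))) 
(.lf (nat_lit 1543545134) (dlOf (nat_lit 2) (nat_lit 0x40078001880800200080010002000e00080b0503)))) 
(.lf (nat_lit 1543545006) (dlOf (nat_lit 1) (nat_lit 0x80080010002001400080b0303)))) 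
(.nd (nat_lit 8) (.nd (nat_lit 21) 
(.lf (nat_lit 3623887918) (dlOf (nat_lit 1) (nat_lit 0x1500008002881))) (.nd (nat_lit 26) 
(.lf (nat_lit 5773468718) (dlOf (nat_lit 1) (nat_lit 0x1800180e2881))) 
(.lf (nat_lit 6377448494) (dlOf (nat_lit 1) (nat_lit 0x4600180e2881))))) 
(.lf (nat_lit 5773501742) (dlOf (nat_lit 1) (nat_lit 0x3600280e3201))))) (.nd (nat_lit 6) 
(.nd (nat_lit 10) (.lf (nat_lit 2415929646) (dlOf (nat_lit 1) (nat_lit 0x900028004b81))) 
(.nd (nat_lit 15) (.lf (nat_lit 2550148398) (dlOf (nat_lit 1) (nat_lit 0x20028006881))) 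
(.lf (nat_lit 1342221614) (dlOf (nat_lit 1) (nat_lit 0xc0028006881))))) (.nd (nat_lit 26) 
(.nd (nat_lit 27) 
(.lf (nat_lit 1342191726) (dlOf (nat_lit 2) (nat_lit 0x82740154c040048002000c000800a882))) 
(.lf (nat_lit 1476409454) (dlOf (nat_lit 6) (nat_lit 0x2c02e000e007005530200f80088029780810c8044022c01c00a5c04008c017003c00380291c1001a805c000800e0060004002a00000000020002800802540020044000800a883)))) 
(.nd (nat_lit 8) 
(.lf (nat_lit 3691001966) (dlOf (nat_lit 4) (nat_lit 0x620050052e010007015000400a4001c036001a019001400a00028048014000a002400200523880020016001f8000000000800480020010000800a882))) 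
(.lf (nat_lit 469776750) (dlOf (nat_lit 1) (nat_lit 0x50002000c000800ac82))))))) (.nd (nat_lit 7) 
(.nd (nat_lit 15) (.nd (nat_lit 10) (.nd (nat_lit 21) 
(.lf (nat_lit 805838894) (dlOf (nat_lit 1) (nat_lit 0x200081c0a01))) 
(.lf (nat_lit 3492290606) (dlOf (nat_lit 1) (nat_lit 0x200180c0e01)))) 
(.lf (nat_lit 472392750) (dlOf (nat_lit 2) (nat_lit 0x14155002cf818982880)))) (.nd (nat_lit 20) 
(.lf (nat_lit 1879613486) (dlOf (nat_lit 1) (nat_lit 0x40018240881))) 
(.lf (nat_lit 471375918) (dlOf (nat_lit 1) (nat_lit 0xc004001200082f0e82))))) (.nd (nat_lit 15) 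
(.nd (nat_lit 6) (.nd (nat_lit 8) 
(.lf (nat_lit 1409818798) (dlOf (nat_lit 2) (nat_lit 0x16c05b00014818090300))) 
(.lf (nat_lit 1345855918) (dlOf (nat_lit 1) (nat_lit 0x38008000400200060008e06e83)))) 
(.nd (nat_lit 26) 
(.lf (nat_lit 1342710254) (dlOf (nat_lit 7) (nat_lit 0x7d88f00045a04009c4780022c02002423c001158100ca11e0008180800288f00040a04032c4780020302000200280c0d81))) 
(.lf (nat_lit 470295022) (dlOf (nat_lit 7) (nat_lit 0x7d88f00045a04009c4780022c02002423c0011581000511e0008180806508f00040804032c4780020302000200280c0d81))))) 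
(.nd (nat_lit 8) (.lf (nat_lit 1344840878) (dlOf (nat_lit 1) (nat_lit 0x20028982c01))) 
(.nd (nat_lit 10) (.lf (nat_lit 3490228654) (dlOf (nat_lit 1) (nat_lit 0xc00200040008004e82))) 
(.lf (nat_lit 1009296814) (dlOf (nat_lit 1) (nat_lit 0x30002000200090e3602)))))))) 
(.nd (nat_lit 10) (.nd (nat_lit 6) (.nd (nat_lit 7) (.nd (nat_lit 11) (.nd (nat_lit 26) 
(.lf (nat_lit 1342710318) (dlOf (nat_lit 8) (nat_lit 0x21c700020810008124803107c0004038e00241bd0001e0400011248002871c000760801603e0000e1c7000a0de8000e818001871c000720400044920003802000224900050e3800106f40006e0c006c004002000080c0e82))) 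
(.lf (nat_lit 470295086) (dlOf (nat_lit 8) (nat_lit 0x21c700020810008124803107c0004038e00241bd0001e0400011248002871c000760801603e0000e1c7000a0de8000e818001871c000720400044920003802000224900050e3800106f40006e0c006c004002000080c0e82)))) 
(.lf (nat_lit 6710897198) (dlOf (nat_lit 1) (nat_lit 0xc0018005181)))) (.nd (nat_lit 8) 
(.nd (nat_lit 26) 
(.lf (nat_lit 1476410030) (dlOf (nat_lit 2) (nat_lit 0x38000000ba0400100020016000800b782))) 
(.lf (nat_lit 3691002542) (dlOf (nat_lit 2) (nat_lit 0x1800000014c0801b800800ec0020014000800b783)))) 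
(.lf (nat_lit 6710930350) (dlOf (nat_lit 1) (nat_lit 0x400400020008005d02))))) (.nd (nat_lit 26) 
(.nd (nat_lit 15) (.lf (nat_lit 5637153774) (dlOf (nat_lit 1) (nat_lit 0x20018002881))) 
(.nd (nat_lit 19) 
(.lf (nat_lit 3623920622) (dlOf (nat_lit 1) (nat_lit 0x58008005400200280008002883))) 
(.lf (nat_lit 1880663022) (dlOf (nat_lit 1) (nat_lit 0x50008003000200020008b02883))))) 
(.nd (nat_lit 8) (.lf (nat_lit 469777134) (dlOf (nat_lit 1) (nat_lit 0x180040010000800b982))) 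
(.nd (nat_lit 30) (.lf (nat_lit 3154125806) (dlOf (nat_lit 1) (nat_lit 0x60018002881))) 
(.lf (nat_lit 6375351278) (dlOf (nat_lit 2) (nat_lit 0x5014001fc4080038008000c00200020008002883))))))) 
(.nd (nat_lit 7) (.nd (nat_lit 8) (.nd (nat_lit 6) (.nd (nat_lit 26) 
(.lf (nat_lit 4563445294) (dlOf (nat_lit 3) (nat_lit 0x408200020000001702000202100000c080070008003c00200080008003783))) 
(.lf (nat_lit 335586862) (dlOf (nat_lit 2) (nat_lit 0x14013000a009000080440003c0c001c00200040008003782)))) 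
(.nd (nat_lit 26) (.lf (nat_lit 1342189166) (dlOf (nat_lit 1) (nat_lit 0x2400200160008007182))) 
(.lf (nat_lit 4227870318) (dlOf (nat_lit 1) (nat_lit 0x2c002003a0008007182))))) (.nd (nat_lit 15) 
(.nd (nat_lit 27) (.lf (nat_lit 1342191406) (dlOf (nat_lit 1) (nat_lit 0x500040004000800a102))) 
(.lf (nat_lit 1476409134) (dlOf (nat_lit 2) (nat_lit 0x180d000048040030002002a000800a102)))) 
(.lf (nat_lit 1476441902) (dlOf (nat_lit 2) (nat_lit 0x380340001201800a100))))) (.nd (nat_lit 15) 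
(.nd (nat_lit 8) (.lf (nat_lit 939536046) (dlOf (nat_lit 2) (nat_lit 0x201a0001e818007280))) 
(.nd (nat_lit 26) (.lf (nat_lit 2415929262) (dlOf (nat_lit 1) (nat_lit 0xc00400020008004382))) 
(.lf (nat_lit 1006643118) (dlOf (nat_lit 1) (nat_lit 0x20008004381))))) (.nd (nat_lit 6) 
(.lf (nat_lit 1879092910) (dlOf (nat_lit 1) (nat_lit 0x60018007281))) (.nd (nat_lit 29) 
(.lf (nat_lit 2415961838) (dlOf (nat_lit 2) (nat_lit 0x90044001401a000140400060028003b01))) 
(.lf (nat_lit 4026574574) (dlOf (nat_lit 1) (nat_lit 0xa0004002a0008003b02)))))))))) 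
(.nd (nat_lit 15) (.nd (nat_lit 26) (.nd (nat_lit 21) (.nd (nat_lit 28) (.nd (nat_lit 7) 
(.nd (nat_lit 24) (.nd (nat_lit 6) (.nd (nat_lit 29) 
(.lf (nat_lit 6442721326) (dlOf (nat_lit 2) (nat_lit 0x18000000000080050008001000200020008190803))) 
(.lf (nat_lit 537141294) (dlOf (nat_lit 3) (nat_lit 0xdc0000000bc080a500000005c04004400200520008030c02)))) 
(.lf (nat_lit 1208230254) (dlOf (nat_lit 1) (nat_lit 0x4004000200080a7602)))) (.nd (nat_lit 19) 
(.nd (nat_lit 20) 
(.lf (nat_lit 25436206) (dlOf (nat_lit 6) (nat_lit 0x54c300014808008a6180009e04002960200033020060b01000190100555808000c40801a80080038002000c0008c00603))) 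
(.lf (nat_lit 30679086) (dlOf (nat_lit 1) (nat_lit 0x68008001c002000e0008e40e83)))) 
(.lf (nat_lit 21766190) (dlOf (nat_lit 1) (nat_lit 0xc00400040018a70582))))) (.nd (nat_lit 8) 
(.nd (nat_lit 19) (.lf (nat_lit 51651758) (dlOf (nat_lit 1) (nat_lit 0x20029512c01))) 
(.lf (nat_lit 34350254) (dlOf (nat_lit 1) (nat_lit 0xc00400060008fb2c02)))) (.nd (nat_lit 6) 
(.lf (nat_lit 537672622) (dlOf (nat_lit 3) (nat_lit 0x281d800240ea000c07100060380003018800180c20006000000a707000b03b00050c080008008002c002000600080fbd83))) 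
(.lf (nat_lit 2818847726) (dlOf (nat_lit 2) (nat_lit 0x4d01f802960080060008000800200300008129203)))))) 
(.nd (nat_lit 27) (.nd (nat_lit 6) (.nd (nat_lit 8) 
(.lf (nat_lit 1342971950) (dlOf (nat_lit 1) (nat_lit 0x100018120e01))) 
(.lf (nat_lit 3490980142) (dlOf (nat_lit 2) (nat_lit 0x3988c001cc43c000390400020028047a01)))) 
(.lf (nat_lit 1879318638) (dlOf (nat_lit 1) (nat_lit 0x2400080d1501)))) (.nd (nat_lit 19) 
(.nd (nat_lit 29) (.lf (nat_lit 402923566) (dlOf (nat_lit 1) (nat_lit 0x4002000400080b0402))) 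
(.lf (nat_lit 3087278126) (dlOf (nat_lit 19) (nat_lit 0x19600b0001201007a00580008c08022802c000320402440160001802018c00b0000b8100c300580005808065802c0002a0400440160000f02005600b000068100670058000300800b002c000160400180160000a02004c00b0000301002700580001408005802c000080400d80160000302004a00b0000101004a0110025007c0128036009400d001a0058000002800080080004002002e0008160583)))) 
(.lf (nat_lit 5773205550) (dlOf (nat_lit 1) (nat_lit 0x200080004002005000080b0403)))))) 
(.nd (nat_lit 6) (.nd (nat_lit 23) (.nd (nat_lit 7) (.nd (nat_lit 8) 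
(.lf (nat_lit 2891822) (dlOf (nat_lit 3) (nat_lit 0x2929f8014d4da0002b0400b2a7e005a5368000a41000200080068002001600081d0603))) 
(.lf (nat_lit 5773731118) (dlOf (nat_lit 1) (nat_lit 0x4002000200080e3202)))) 
(.lf (nat_lit 36447406) (dlOf (nat_lit 1) (nat_lit 0x740009072c01)))) (.nd (nat_lit 7) 
(.nd (nat_lit 20) 
(.lf (nat_lit 44310574) (dlOf (nat_lit 5) (nat_lit 0xc63e00073138001941000198f8000c8040018c7c00026270003102000531f0000989c000be080020004001a00092f0d02))) 
(.lf (nat_lit 45359150) (dlOf (nat_lit 1) (nat_lit 0x400400020019320002)))) 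
(.lf (nat_lit 45361582) (dlOf (nat_lit 1) (nat_lit 0x3000800bc00200260009324e83))))) 
(.nd (nat_lit 8) (.nd (nat_lit 12) 
(.lf (nat_lit 57944814) (dlOf (nat_lit 1) (nat_lit 0x1000400040009795a02))) 
(.lf (nat_lit 19675886) (dlOf (nat_lit 1) (nat_lit 0x200189db981)))) (.nd (nat_lit 7) 
(.lf (nat_lit 8140654) (dlOf (nat_lit 1) (nat_lit 0x800800040020002000851a303))) (.nd (nat_lit 9) 
(.lf (nat_lit 1881418222) (dlOf (nat_lit 1) (nat_lit 0x120008000800200220008f04f03))) 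
(.lf (nat_lit 3493079022) (dlOf (nat_lit 1) (nat_lit 0x18002001a00080f4602)))))))) 
(.nd (nat_lit 27) (.nd (nat_lit 28) (.nd (nat_lit 7) (.nd (nat_lit 8) 
(.lf (nat_lit 3825475630) (dlOf (nat_lit 19) (nat_lit 0x19600b0001201007a00580008c08022802c000320402440160001802018c00b0000b8100c300580005808065802c0002a0400440160000f02005600b000068100670058000300800b002c000160400180160000a02004c00b0000301002700580001408005802c000080400d80160000302004a00b0000101004a0110025007c0128036009400d001a0058000002800080080004002002e0008160583))) 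
(.lf (nat_lit 2752782638) (dlOf (nat_lit 3) (nat_lit 0x34490004bf02004624c0024b018048400)))) 
(.nd (nat_lit 8) (.nd (nat_lit 9) 
(.lf (nat_lit 67908782) (dlOf (nat_lit 1) (nat_lit 0xc0018339501))) 
(.lf (nat_lit 4899220142) (dlOf (nat_lit 1) (nat_lit 0x200180d5681)))) 
(.lf (nat_lit 4899220398) (dlOf (nat_lit 1) (nat_lit 0x200280d5d01))))) (.nd (nat_lit 30) 
(.nd (nat_lit 6) (.lf (nat_lit 335814702) (dlOf (nat_lit 1) (nat_lit 0x4002000400080b0402))) 
(.lf (nat_lit 2483298414) (dlOf (nat_lit 6) (nat_lit 0xa00ac03c804a0000e0401d4025000068100ef0128000300800380ac03ec04a0000b04000402800d70128000001001280080164002003200080a1503)))) 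
(.nd (nat_lit 8) 
(.lf (nat_lit 1409556526) (dlOf (nat_lit 3) (nat_lit 0xdc0000000b0080a500000005604004400200520008030c02))) 
(.lf (nat_lit 4093912366) (dlOf (nat_lit 1) (nat_lit 0x20028003201)))))) (.nd (nat_lit 30) 
(.nd (nat_lit 6) (.nd (nat_lit 7) 
(.lf (nat_lit 470556718) (dlOf (nat_lit 1) (nat_lit 0x100018120e01))) (.nd (nat_lit 9) 
(.lf (nat_lit 738470318) (dlOf (nat_lit 1) (nat_lit 0x140028094e81))) 
(.lf (nat_lit 2885953454) (dlOf (nat_lit 1) (nat_lit 0x40018144381))))) (.nd (nat_lit 28) 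
(.lf (nat_lit 2349080686) (dlOf (nat_lit 6) (nat_lit 0xa00ac03c804a0000e0401d4025000068100ef0128000300800380ac03ec04a0000b04000402800d70128000001001280080164002003200080a1503))) 
(.lf (nat_lit 1006903406) (dlOf (nat_lit 1) (nat_lit 0x2400080d1501))))) (.nd (nat_lit 7) 
(.nd (nat_lit 6) (.nd (nat_lit 19) 
(.lf (nat_lit 5838741550) (dlOf (nat_lit 2) (nat_lit 0x14018000000200020008190901))) 
(.lf (nat_lit 6377185326) (dlOf (nat_lit 1) (nat_lit 0x200080004002005000080b0403)))) 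
(.lf (nat_lit 6376136814) (dlOf (nat_lit 2) (nat_lit 0x104f80001c04001c00200040008090182)))) 
(.nd (nat_lit 9) (.lf (nat_lit 6375613870) (dlOf (nat_lit 2) (nat_lit 0x1a03a000b2818003600))) 
(.lf (nat_lit 3959695278) (dlOf (nat_lit 1) (nat_lit 0x60018114381)))))))) (.nd (nat_lit 8) 
(.nd (nat_lit 19) (.nd (nat_lit 29) (.nd (nat_lit 20) (.nd (nat_lit 9) (.nd (nat_lit 21) 
(.lf (nat_lit 474259502) (dlOf (nat_lit 1) (nat_lit 0x200290f0c01))) 
(.lf (nat_lit 44343342) (dlOf (nat_lit 3) (nat_lit 0x131380019408000989c000c4040020004004400092f0d02)))) 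
(.nd (nat_lit 6) 
(.lf (nat_lit 1074045486) (dlOf (nat_lit 2) (nat_lit 0x10804e000000200180008090e81))) 
(.lf (nat_lit 5436123886) (dlOf (nat_lit 7) (nat_lit 0xa30088000ac0815e80c4029c058004202a0024014004700780010038000801a002600a0021004800f002000d400f0010006000680140020006000281c014c011000128100210088000900800b004400042040a2806200aa02c00090088000781803980083174002009a00080e5a03))))) 
(.nd (nat_lit 6) (.nd (nat_lit 9) (.nd (nat_lit 22) 
(.lf (nat_lit 1351726) (dlOf (nat_lit 1) (nat_lit 0x80080004002000200080b0583))) 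
(.lf (nat_lit 30711854) (dlOf (nat_lit 1) (nat_lit 0x8008000400200020008e40e83)))) 
(.lf (nat_lit 57975342) (dlOf (nat_lit 4) (nat_lit 0x18bda000450200065ed000218100022f68000000801a000800bc002006600097a8a83)))) 
(.nd (nat_lit 21) (.lf (nat_lit 9740398) (dlOf (nat_lit 1) (nat_lit 0x20028580c01))) 
(.lf (nat_lit 62169198) (dlOf (nat_lit 1) (nat_lit 0x48008001000200120009960c03)))))) 
(.nd (nat_lit 28) (.nd (nat_lit 26) (.nd (nat_lit 30) 
(.lf (nat_lit 2684657710) (dlOf (nat_lit 1) (nat_lit 0x1c004001a0008110682))) 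
(.lf (nat_lit 3758399534) (dlOf (nat_lit 5) (nat_lit 0xdc030000130100b8018002200a40100044000250600e603000050148000901001b00c00000004000c00200100008170402)))) 
(.lf (nat_lit 3825508398) (dlOf (nat_lit 11) (nat_lit 0x858040003c01e02be00e807980700004034006800f00040070000bc38160008000e003c05fc01d00c600e00268064010401e0002e0c02a401d001100c8009003c0005a0c030004801b2023009b01000578070032c0320028018003b007800700380aa800e010c000000160a00690120036008c017c040012a01d005c00e00318064063c00e0024000000158800340038000a8080138074003c00e0002904000201d00120038000601000200800074038000120408cc020045700e000044101af000806d800204ba0008170c03)))) 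
(.nd (nat_lit 6) (.nd (nat_lit 9) 
(.lf (nat_lit 3087310894) (dlOf (nat_lit 11) (nat_lit 0x858040003c01e02be00e807980700004034006800f00040070000c838160008000e003c05fc01d00c600e00268064010401e000310c02a401d001100c8009003c000600c030004801b2023009b01000578070032c0320028018003b007800700380aa800e010c000000178a00690120036008c017c040012a01d005c00e00318064063c00e0024000000170800340038000b4080138074003c00e0002c04000201d00120038000601000200800074038000120408cc020045700e000044101af000806d800204ba0008170c03))) 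
(.lf (nat_lit 1946460718) (dlOf (nat_lit 2) (nat_lit 0x10804e000000200180008090e81)))) 
(.lf (nat_lit 2013571822) (dlOf (nat_lit 3) (nat_lit 0xc02600030108000a0100118098004801a0001e0400080018125a01)))))) 
(.nd (nat_lit 20) (.nd (nat_lit 23) (.nd (nat_lit 31) (.nd (nat_lit 6) 
(.lf (nat_lit 2924590) (dlOf (nat_lit 2) (nat_lit 0xd8000000190181d0600))) 
(.lf (nat_lit 57453294) (dlOf (nat_lit 1) (nat_lit 0x400400020009795a02)))) (.nd (nat_lit 26) 
(.lf (nat_lit 3492585518) (dlOf (nat_lit 2) (nat_lit 0xf60ae0000000809a0008018c00200b800080e0603))) 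
(.lf (nat_lit 2754388014) (dlOf (nat_lit 2) (nat_lit 0xf60a90000000809a0008018c00200b800080e0603))))) 
(.nd (nat_lit 21) (.lf (nat_lit 42770478) (dlOf (nat_lit 1) (nat_lit 0x1c0029280281))) 
(.lf (nat_lit 11313198) (dlOf (nat_lit 1) (nat_lit 0x8008000800200040008690683))))) 
(.nd (nat_lit 9) (.nd (nat_lit 21) 
(.lf (nat_lit 10264622) (dlOf (nat_lit 5) (nat_lit 0x3571140005404005b88a00029020041c630042deb00000c1000af18c000f88a0029bd6000000385c0c00))) 
(.lf (nat_lit 1346150446) (dlOf (nat_lit 5) (nat_lit 0x610a28032833c004c19600440a200a903980110070000161800640e60000a0200a6073000038100020a600190514018019e00be0c600c6039800000280330008001000200ac0008e60283)))) 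
(.lf (nat_lit 35433006) (dlOf (nat_lit 1) (nat_lit 0x40019015181)))))) (.nd (nat_lit 7) 
(.nd (nat_lit 29) (.nd (nat_lit 10) (.nd (nat_lit 6) (.nd (nat_lit 26) 
(.lf (nat_lit 3221528878) (dlOf (nat_lit 1) (nat_lit 0x820028124901))) 
(.lf (nat_lit 1543807278) (dlOf (nat_lit 7) (nat_lit 0x218060000400601200000002a03002200e80014c0800980b001c804c0005104003000200170000001401000d00000009404001403000540080035002800114180278008020400200220008187a03)))) 
(.lf (nat_lit 1074045294) (dlOf (nat_lit 1) (nat_lit 0x1400400280008090782)))) (.nd (nat_lit 9) 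
(.lf (nat_lit 40150318) (dlOf (nat_lit 1) (nat_lit 0xe00191f3201))) 
(.lf (nat_lit 19707694) (dlOf (nat_lit 2) (nat_lit 0xca5b000100189da100))))) (.nd (nat_lit 26) 
(.nd (nat_lit 27) 
(.lf (nat_lit 537174318) (dlOf (nat_lit 3) (nat_lit 0x40be0049802000405f0024b018048400))) 
(.lf (nat_lit 671392046) (dlOf (nat_lit 4) (nat_lit 0x5e80b005f804c01ca018007b00400380014022000402040000026487004d016002800980144046014201d007000c0032004001a801000e40050064001002680000098e2802b403a00de0180032004003d8014009641000c400401dc0018188402)))) 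
(.nd (nat_lit 6) (.nd (nat_lit 28) 
(.lf (nat_lit 3959726382) (dlOf (nat_lit 1) (nat_lit 0x820028124901))) 
(.lf (nat_lit 4228161838) (dlOf (nat_lit 1) (nat_lit 0xc00400020018047a02)))) 
(.lf (nat_lit 1946460526) (dlOf (nat_lit 1) (nat_lit 0x1400400280008090782)))))) (.nd (nat_lit 6) 
(.nd (nat_lit 11) (.nd (nat_lit 10) 
(.lf (nat_lit 8171950) (dlOf (nat_lit 1) (nat_lit 0x60028518481))) 
(.lf (nat_lit 61646254) (dlOf (nat_lit 1) (nat_lit 0x100009923601)))) (.nd (nat_lit 26) 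
(.nd (nat_lit 29) (.lf (nat_lit 3624184238) (dlOf (nat_lit 1) (nat_lit 0x140028144e81))) 
(.lf (nat_lit 2013571502) (dlOf (nat_lit 1) (nat_lit 0xc0028124e81)))) 
(.lf (nat_lit 5436123566) (dlOf (nat_lit 2) (nat_lit 0x12004400000040004002000e00080e4e82))))) 
(.nd (nat_lit 23) (.nd (nat_lit 9) 
(.lf (nat_lit 23372270) (dlOf (nat_lit 1) (nat_lit 0x400200020008b80d82))) 
(.lf (nat_lit 5772190702) (dlOf (nat_lit 1) (nat_lit 0x800400020008092882)))) (.nd (nat_lit 20) 
(.lf (nat_lit 44868590) (dlOf (nat_lit 1) (nat_lit 0x98008002800200020009322883))) 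
(.lf (nat_lit 62694382) (dlOf (nat_lit 1) (nat_lit 0x400199a2881))))))))))) (.nd (nat_lit 3) 
(.nd (nat_lit 15) (.nd (nat_lit 18) (.nd (nat_lit 28) (.nd (nat_lit 7) (.nd (nat_lit 19) 
(.nd (nat_lit 26) (.nd (nat_lit 6) (.nd (nat_lit 8) (.nd (nat_lit 9) 
(.lf (nat_lit 6039937062) (dlOf (nat_lit 1) (nat_lit 0x8008000800200060008060803))) 
(.lf (nat_lit 1208101414) (dlOf (nat_lit 1) (nat_lit 0x20028095181)))) 
(.lf (nat_lit 1073881382) (dlOf (nat_lit 1) (nat_lit 0x20028014601)))) (.nd (nat_lit 9) 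
(.nd (nat_lit 10) 
(.lf (nat_lit 11673702) (dlOf (nat_lit 1) (nat_lit 0x300080194002007200086c0003))) 
(.lf (nat_lit 8535142) (dlOf (nat_lit 2) (nat_lit 0x10aeb0000a00800080080044002000a000851c083)))) 
(.lf (nat_lit 1208101478) (dlOf (nat_lit 1) (nat_lit 0x400400020008095382))))) (.nd (nat_lit 27) 
(.nd (nat_lit 6) (.nd (nat_lit 20) 
(.lf (nat_lit 69345318) (dlOf (nat_lit 1) (nat_lit 0x400400020008940202))) 
(.lf (nat_lit 2752651302) (dlOf (nat_lit 5) (nat_lit 0x5621c0001001002010e000074080008870000380400704380000f0200020018030a01)))) 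
(.lf (nat_lit 604119142) (dlOf (nat_lit 1) (nat_lit 0x240028030d01)))) (.nd (nat_lit 6) 
(.nd (nat_lit 10) (.lf (nat_lit 6643916838) (dlOf (nat_lit 1) (nat_lit 0x400400020018060802))) 
(.lf (nat_lit 3959563302) (dlOf (nat_lit 2) (nat_lit 0x1f003802bc004003000400200008112882)))) 
(.lf (nat_lit 2885820774) (dlOf (nat_lit 1) (nat_lit 0x14002000200080b0702)))))) (.nd (nat_lit 20) 
(.nd (nat_lit 24) (.nd (nat_lit 26) 
(.lf (nat_lit 3221889062) (dlOf (nat_lit 2) (nat_lit 0x13026800980d4004c04c0000006000a00081b0501))) 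
(.nd (nat_lit 27) (.lf (nat_lit 67772454) (dlOf (nat_lit 1) (nat_lit 0x200082e0d81))) 
(.lf (nat_lit 3960086566) (dlOf (nat_lit 2) (nat_lit 0x13026800980d4004c04c0000006000a00081b0501))))) 
(.nd (nat_lit 8) (.lf (nat_lit 21635110) (dlOf (nat_lit 1) (nat_lit 0x400200020008a50a82))) 
(.lf (nat_lit 50995494) (dlOf (nat_lit 1) (nat_lit 0x200194e8081))))) (.nd (nat_lit 9) 
(.nd (nat_lit 21) (.nd (nat_lit 22) 
(.lf (nat_lit 60432422) (dlOf (nat_lit 1) (nat_lit 0x1a0019860301))) 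
(.lf (nat_lit 22683686) (dlOf (nat_lit 2) (nat_lit 0x3ed380005404001000200040008b10802)))) 
(.lf (nat_lit 3809318) (dlOf (nat_lit 1) (nat_lit 0xa0008230901)))) (.nd (nat_lit 10) 
(.lf (nat_lit 58337830) (dlOf (nat_lit 1) (nat_lit 0x4004000200097e5182))) 
(.lf (nat_lit 8005158) (dlOf (nat_lit 1) (nat_lit 0x40028513701))))))) (.nd (nat_lit 6) 
(.nd (nat_lit 8) (.nd (nat_lit 21) (.nd (nat_lit 10) 
(.lf (nat_lit 9576614) (dlOf (nat_lit 1) (nat_lit 0x50008000400200200008571383))) 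
(.lf (nat_lit 3221372070) (dlOf (nat_lit 1) (nat_lit 0x2001811c201)))) (.nd (nat_lit 22) 
(.lf (nat_lit 35792038) (dlOf (nat_lit 1) (nat_lit 0x20019012c01))) 
(.lf (nat_lit 48374950) (dlOf (nat_lit 8) (nat_lit 0x6f9a0005f02013c80c00553a0800174100292030000b20400f90180005802019c80c00013a08001501000d1d040008a040045018000320200200009402c01))))) 
(.nd (nat_lit 9) (.lf (nat_lit 8528294) (dlOf (nat_lit 1) (nat_lit 0x20008511001))) 
(.nd (nat_lit 20) 
(.lf (nat_lit 3355583398) (dlOf (nat_lit 3) (nat_lit 0x17c068003a02e0001882000101a0000c00800200080198002000400080a2603))) 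
(.lf (nat_lit 20063142) (dlOf (nat_lit 1) (nat_lit 0x4004000200089d2602)))))) (.nd (nat_lit 21) 
(.nd (nat_lit 8) (.lf (nat_lit 8529126) (dlOf (nat_lit 1) (nat_lit 0x5280080370002010a0008512e03))) 
(.nd (nat_lit 11) 
(.lf (nat_lit 1073881574) (dlOf (nat_lit 2) (nat_lit 0x7014800000080298008000400200580008017d03))) 
(.lf (nat_lit 3221367270) (dlOf (nat_lit 5) (nat_lit 0x1a003800500000173304006800e00b99010034007005cc40801980380054000017300400040018114e81))))) 
(.nd (nat_lit 9) (.lf (nat_lit 3285478) (dlOf (nat_lit 1) (nat_lit 0x40018200c81))) 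
(.lf (nat_lit 36316134) (dlOf (nat_lit 1) (nat_lit 0x20019072881))))))) (.nd (nat_lit 27) 
(.nd (nat_lit 19) (.nd (nat_lit 8) (.nd (nat_lit 6) (.nd (nat_lit 9) 
(.lf (nat_lit 3490848806) (dlOf (nat_lit 5) (nat_lit 0x562070001001002010380007408000881c0003804007040e0000f0200020018030a01))) 
(.lf (nat_lit 335686182) (dlOf (nat_lit 1) (nat_lit 0x400400020008095182)))) 
(.lf (nat_lit 335686246) (dlOf (nat_lit 1) (nat_lit 0x400400020008095382)))) (.nd (nat_lit 7) 
(.lf (nat_lit 3020038438) (dlOf (nat_lit 1) (nat_lit 0x5a00280f8081))) 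
(.lf (nat_lit 5637285286) (dlOf (nat_lit 1) (nat_lit 0x4a00280d3601))))) (.nd (nat_lit 6) 
(.nd (nat_lit 7) (.nd (nat_lit 21) 
(.lf (nat_lit 1880762918) (dlOf (nat_lit 1) (nat_lit 0x60028b55181))) 
(.lf (nat_lit 1345989158) (dlOf (nat_lit 1) (nat_lit 0x8008000400200020008e25183)))) 
(.lf (nat_lit 1881810086) (dlOf (nat_lit 2) (nat_lit 0x83ac000e204000400200020009042c02)))) 
(.nd (nat_lit 10) (.nd (nat_lit 21) 
(.lf (nat_lit 1409949798) (dlOf (nat_lit 2) (nat_lit 0x1c02c0000800800080080028002001400080a1383))) 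
(.lf (nat_lit 1344938086) (dlOf (nat_lit 4) (nat_lit 0xa0534004c1b200260d8001f03e801181f00001c14001c0fa0000c02002214d000203e8000001001400080100002002800089a0983)))) 
(.lf (nat_lit 1881810022) (dlOf (nat_lit 1) (nat_lit 0x11c00200060009042982)))))) (.nd (nat_lit 29) 
(.nd (nat_lit 8) (.nd (nat_lit 7) (.nd (nat_lit 9) 
(.lf (nat_lit 472522790) (dlOf (nat_lit 2) (nat_lit 0x1c0b48000000800880080018002002a00089b0783))) 
(.lf (nat_lit 473571878) (dlOf (nat_lit 1) (nat_lit 0x80008009400200060008f68803)))) 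
(.lf (nat_lit 474096806) (dlOf (nat_lit 9) (nat_lit 0x8684000416400360170002f8300151020009068400082d000040cf0006059000e805c00e802a0005d0e0058169002700c0001641001505a4000b00400342d200057020090169004900c0001501002305a400880300004504000a168000300b8000c81000f000800a800200440009082c03)))) 
(.nd (nat_lit 6) 
(.lf (nat_lit 2617385766) (dlOf (nat_lit 3) (nat_lit 0x17c062003a02b000188200010188000c00800200080198002000400080a2183))) 
(.lf (nat_lit 3624018278) (dlOf (nat_lit 1) (nat_lit 0x14002000200080b0702))))) (.nd (nat_lit 7) 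
(.nd (nat_lit 8) (.nd (nat_lit 19) 
(.lf (nat_lit 1007820838) (dlOf (nat_lit 1) (nat_lit 0xa00087f0781))) 
(.lf (nat_lit 3154780198) (dlOf (nat_lit 1) (nat_lit 0x1e000800ac00200e60008320d83)))) 
(.lf (nat_lit 2080515366) (dlOf (nat_lit 1) (nat_lit 0x400200020008093182)))) (.nd (nat_lit 8) 
(.lf (nat_lit 1008872102) (dlOf (nat_lit 1) (nat_lit 0x15800800a800200320008fa5603))) 
(.lf (nat_lit 939665318) (dlOf (nat_lit 1) (nat_lit 0x1020028144301)))))))) (.nd (nat_lit 19) 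
(.nd (nat_lit 30) (.nd (nat_lit 20) (.nd (nat_lit 22) (.nd (nat_lit 26) (.nd (nat_lit 28) 
(.nd (nat_lit 21) (.nd (nat_lit 29) 
(.lf (nat_lit 6442852390) (dlOf (nat_lit 6) (nat_lit 0x4064001402f0000a82000101a000100c400026080440068019e0310000902001701a000f80c4000100800180640000502000600181e0901))) 
(.lf (nat_lit 537272358) (dlOf (nat_lit 2) (nat_lit 0x240a2001c03f000a0190003801c0002610000800200060008070782)))) 
(.lf (nat_lit 27664422) (dlOf (nat_lit 1) (nat_lit 0x10008000400200080008d10883)))) 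
(.nd (nat_lit 29) 
(.lf (nat_lit 4563804198) (dlOf (nat_lit 2) (nat_lit 0xa00c800020040018004001200080e0a82))) 
(.lf (nat_lit 805707814) (dlOf (nat_lit 3) (nat_lit 0x12a0158042806406ee013022f00500004420003804c0058014000100400060018190981))))) 
(.nd (nat_lit 28) (.nd (nat_lit 7) 
(.lf (nat_lit 4496695334) (dlOf (nat_lit 2) (nat_lit 0x1f01a0000000801800080050002005c0008120203))) 
(.lf (nat_lit 738599078) (dlOf (nat_lit 1) (nat_lit 0x80080008002000200080c1483)))) 
(.nd (nat_lit 27) (.lf (nat_lit 2483429414) (dlOf (nat_lit 1) (nat_lit 0x4004000200181b0002))) 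
(.lf (nat_lit 3154518054) (dlOf (nat_lit 2) (nat_lit 0x120288002c4080088008001c002001800081f0603)))))) 
(.nd (nat_lit 21) (.nd (nat_lit 6) 
(.lf (nat_lit 12984358) (dlOf (nat_lit 3) (nat_lit 0x5a9180005408003548c001a6cc0000504001200186f0901))) 
(.lf (nat_lit 38151270) (dlOf (nat_lit 1) (nat_lit 0x20019132981)))) (.nd (nat_lit 7) 
(.lf (nat_lit 48636006) (dlOf (nat_lit 1) (nat_lit 0x20029420981))) 
(.lf (nat_lit 23470566) (dlOf (nat_lit 1) (nat_lit 0x50002000e0008b80c82)))))) (.nd (nat_lit 21) 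
(.nd (nat_lit 23) (.nd (nat_lit 7) (.nd (nat_lit 26) 
(.lf (nat_lit 1450022) (dlOf (nat_lit 1) (nat_lit 0x4004000200080d0582))) 
(.lf (nat_lit 68558886) (dlOf (nat_lit 2) (nat_lit 0xb063800581b400042080004004000200185b0782)))) 
(.lf (nat_lit 51782822) (dlOf (nat_lit 1) (nat_lit 0x100080098002002c0009512c03)))) 
(.nd (nat_lit 22) (.lf (nat_lit 26615846) (dlOf (nat_lit 1) (nat_lit 0x1000400040018c50282))) 
(.lf (nat_lit 30810150) (dlOf (nat_lit 1) (nat_lit 0x30008000800200040008e50a83))))) 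
(.nd (nat_lit 8) (.nd (nat_lit 7) 
(.lf (nat_lit 473311782) (dlOf (nat_lit 1) (nat_lit 0x20018e95181))) 
(.lf (nat_lit 20329126) (dlOf (nat_lit 1) (nat_lit 0x4002000200089d8c82)))) (.nd (nat_lit 9) 
(.lf (nat_lit 58073382) (dlOf (nat_lit 1) (nat_lit 0x10004002200097b8082))) 
(.lf (nat_lit 20327206) (dlOf (nat_lit 1) (nat_lit 0x4002000200089d5c02))))))) (.nd (nat_lit 27) 
(.nd (nat_lit 28) (.nd (nat_lit 7) (.nd (nat_lit 26) 
(.lf (nat_lit 3221626918) (dlOf (nat_lit 2) (nat_lit 0xe017800680b800000080008004000a0008160982))) 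
(.lf (nat_lit 1678123046) (dlOf (nat_lit 1) (nat_lit 0x50008001c00200080008190983)))) 
(.lf (nat_lit 1611014310) (dlOf (nat_lit 1) (nat_lit 0x80080004002000200080c1383)))) 
(.nd (nat_lit 6) (.nd (nat_lit 22) 
(.lf (nat_lit 1409687590) (dlOf (nat_lit 2) (nat_lit 0x240a2001c03f000a0190003801c0004e10000800200060008070782))) 
(.lf (nat_lit 3494256678) (dlOf (nat_lit 2) (nat_lit 0x180e40000a040034002000a00081e0902)))) 
(.lf (nat_lit 1346773094) (dlOf (nat_lit 2) (nat_lit 0x1a82ac00ce14300570660001081801800080044002005e0009000983))))) 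
(.nd (nat_lit 11) (.nd (nat_lit 26) (.nd (nat_lit 29) 
(.lf (nat_lit 3355844646) (dlOf (nat_lit 2) (nat_lit 0x401a0001340801d8008006c00200bc0008120603))) 
(.lf (nat_lit 3892715558) (dlOf (nat_lit 2) (nat_lit 0x10f02a0099814404d8098027003300ae0028002fc28046800802e0002022800081d0603)))) 
(.lf (nat_lit 3959824422) (dlOf (nat_lit 2) (nat_lit 0x280bc0006e04003c00400220008160982)))) 
(.nd (nat_lit 8) (.lf (nat_lit 6376794662) (dlOf (nat_lit 1) (nat_lit 0x100028095181))) 
(.lf (nat_lit 3624283430) (dlOf (nat_lit 1) (nat_lit 0x40028146801))))))) (.nd (nat_lit 8) 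
(.nd (nat_lit 6) (.nd (nat_lit 20) (.nd (nat_lit 23) 
(.lf (nat_lit 68034598) (dlOf (nat_lit 1) (nat_lit 0x10008001c002000200083a0603))) 
(.lf (nat_lit 9314342) (dlOf (nat_lit 1) (nat_lit 0x400200020008540902)))) (.nd (nat_lit 21) 
(.lf (nat_lit 10362918) (dlOf (nat_lit 2) (nat_lit 0x2263b000150185d0580))) 
(.lf (nat_lit 29237286) (dlOf (nat_lit 2) (nat_lit 0x4aef00000018de0780))))) (.nd (nat_lit 9) 
(.nd (nat_lit 7) (.lf (nat_lit 42868838) (dlOf (nat_lit 1) (nat_lit 0x3800200040009280982))) 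
(.lf (nat_lit 470687974) (dlOf (nat_lit 1) (nat_lit 0x20008150681)))) (.nd (nat_lit 12) 
(.lf (nat_lit 61744742) (dlOf (nat_lit 2) (nat_lit 0xc00000006604000800200440009923902))) 
(.lf (nat_lit 8271462) (dlOf (nat_lit 1) (nat_lit 0x8008000400200020008519c03)))))) 
(.nd (nat_lit 7) (.nd (nat_lit 24) (.nd (nat_lit 9) 
(.lf (nat_lit 537796902) (dlOf (nat_lit 1) (nat_lit 0x1600081b0501))) 
(.lf (nat_lit 2754493222) (dlOf (nat_lit 1) (nat_lit 0x200280fbc81)))) (.nd (nat_lit 6) 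
(.lf (nat_lit 19803942) (dlOf (nat_lit 1) (nat_lit 0x2400289d7481))) 
(.lf (nat_lit 19802982) (dlOf (nat_lit 1) (nat_lit 0x4002000200089d5c02))))) (.nd (nat_lit 6) 
(.nd (nat_lit 11) (.lf (nat_lit 8267174) (dlOf (nat_lit 1) (nat_lit 0x400200020008513602))) 
(.lf (nat_lit 2754493862) (dlOf (nat_lit 1) (nat_lit 0x28002002800080fcb82)))) 
(.lf (nat_lit 3490587110) (dlOf (nat_lit 2) (nat_lit 0xb0f3000088080008008002c00200140008017303)))))))) 
(.nd (nat_lit 18) (.nd (nat_lit 29) (.nd (nat_lit 7) (.nd (nat_lit 6) (.nd (nat_lit 23) 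
(.nd (nat_lit 19) (.nd (nat_lit 8) (.nd (nat_lit 20) (.nd (nat_lit 27) 
(.lf (nat_lit 67280934) (dlOf (nat_lit 1) (nat_lit 0x10008001c00200020008090603))) 
(.lf (nat_lit 6643949606) (dlOf (nat_lit 1) (nat_lit 0x3800200140008090602)))) 
(.lf (nat_lit 3490881574) (dlOf (nat_lit 2) (nat_lit 0x101ed0000e018030a00)))) (.nd (nat_lit 9) 
(.lf (nat_lit 469934374) (dlOf (nat_lit 1) (nat_lit 0x20028014601))) 
(.lf (nat_lit 54700838) (dlOf (nat_lit 1) (nat_lit 0xc0029655c01))))) (.nd (nat_lit 30) 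
(.nd (nat_lit 26) (.lf (nat_lit 134914086) (dlOf (nat_lit 1) (nat_lit 0x18002000600080e0502))) 
(.lf (nat_lit 202022950) (dlOf (nat_lit 1) (nat_lit 0x18002000600080e0502)))) (.nd (nat_lit 27) 
(.lf (nat_lit 3221921830) (dlOf (nat_lit 17) (nat_lit 0x1080a200ce035004400f80018048000ea1009880ac03b605500dd01901238044000e41003b40ac002e0110003882020302b013d0154016809201140390105019010180c4080005e032802b00ac014810100440810020027000a00d800400870000000de38008c080028202f000368201030178001b00801d815400e405e000250401cc056022c02a808701440344096007e032014a01780d800b8017c02201c20100080003000088500a3815804ec0aa000c054013002900b40144010809600f0040000c01f80b300d80554062029c02f01b6017003600ac012803c0268011016d00800ae802802700100032006001d000000084a00aa015805080aa0012054013002880aa00c4044805e036202e009301580a0004405b8020025600a0007004002e800000040340034082028202f0000f02014302b0098815400080a803120520119028804c812c029c080009e03f021401b00aa80c4044805e035602e01030158027807804e002202a2010017d00500198020048c00c00900000000e14018502b00fb0154073c0a4033e0510100025811400d8000c064019e03100f701780b200b80490056009e01e017500880c70040069c01402a0006008a00000006c8801400bc0003404055005e000190200b0055012c02880c38128073c092030604001de01a80f780d002d003e010e01e012b00300000050059000805f0002015800081b0503)))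 
(.lf (nat_lit 5772058662) (dlOf (nat_lit 1) (nat_lit 0x400400020008060c02)))))) (.nd (nat_lit 25) 
(.nd (nat_lit 20) (.nd (nat_lit 22) 
(.lf (nat_lit 25337894) (dlOf (nat_lit 1) (nat_lit 0x800200240008bf0902))) 
(.lf (nat_lit 29532198) (dlOf (nat_lit 1) (nat_lit 0x1800200140008e10782)))) 
(.lf (nat_lit 30580774) (dlOf (nat_lit 3) (nat_lit 0xb6e90005ac0800ab748002c604002400400500018e40d82)))) 
(.nd (nat_lit 8) (.nd (nat_lit 9) 
(.lf (nat_lit 62038054) (dlOf (nat_lit 1) (nat_lit 0xe0019940301))) 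
(.lf (nat_lit 46311974) (dlOf (nat_lit 1) (nat_lit 0x400400020009385182)))) 
(.lf (nat_lit 46836518) (dlOf (nat_lit 1) (nat_lit 0x30008001800200080009385c03)))))) 
(.nd (nat_lit 21) (.nd (nat_lit 8) 
(.lf (nat_lit 5435990118) (dlOf (nat_lit 1) (nat_lit 0x20018090101))) (.nd (nat_lit 11) 
(.lf (nat_lit 4362248550) (dlOf (nat_lit 2) (nat_lit 0xb8023802180b4007ae08001c00400060008015202))) 
(.lf (nat_lit 34253158) (dlOf (nat_lit 1) (nat_lit 0x4004000c0008fb4e82))))) (.nd (nat_lit 24) 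
(.nd (nat_lit 10) 
(.lf (nat_lit 472555622) (dlOf (nat_lit 3) (nat_lit 0x7414d003a06c801d027000e811a000407d000070500260b0000385340090138005a08d001c03e000000280270008011c002000800089c0983))) 
(.lf (nat_lit 1344447590) (dlOf (nat_lit 1) (nat_lit 0x20018802981)))) (.nd (nat_lit 20) 
(.lf (nat_lit 52600934) (dlOf (nat_lit 2) (nat_lit 0x18000000000080128008000c002006e0009550983))) 
(.lf (nat_lit 62038118) (dlOf (nat_lit 1) (nat_lit 0x20009940d81))))))) (.nd (nat_lit 8) 
(.nd (nat_lit 10) (.nd (nat_lit 6) (.nd (nat_lit 9) 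
(.lf (nat_lit 9609382) (dlOf (nat_lit 1) (nat_lit 0x8008000400200020008571383))) 
(.lf (nat_lit 20099750) (dlOf (nat_lit 1) (nat_lit 0x4002000200089d8c82)))) 
(.lf (nat_lit 9609446) (dlOf (nat_lit 2) (nat_lit 0x81f400071818571b80)))) (.nd (nat_lit 11) 
(.lf (nat_lit 37397670) (dlOf (nat_lit 1) (nat_lit 0x4004000200090d2c02))) 
(.lf (nat_lit 1543679142) (dlOf (nat_lit 3) (nat_lit 0x1402b00150140000b01000100ac0005604005c00400040018146282))))) 
(.nd (nat_lit 26) (.nd (nat_lit 9) (.nd (nat_lit 10) 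
(.lf (nat_lit 8561062) (dlOf (nat_lit 1) (nat_lit 0xf8008000400200020008511003))) 
(.lf (nat_lit 5637318054) (dlOf (nat_lit 1) (nat_lit 0x3e00280d3601)))) 
(.lf (nat_lit 3355620262) (dlOf (nat_lit 1) (nat_lit 0x400080a9101)))) (.nd (nat_lit 6) 
(.lf (nat_lit 4362248614) (dlOf (nat_lit 4) (nat_lit 0x2808e004ad020006047001f881000a0238000000800a8008005000200260008016e83))) 
(.nd (nat_lit 27) 
(.lf (nat_lit 4362248678) (dlOf (nat_lit 10) (nat_lit 0x1dc0ac006004900290158005808800a221001c80ac0054049002001580018088009641002340ac008e049003f015800e00880095410009c0a8004a002003c056001f0158012601001181500092c0400c0056003ed02004402b001f4010007000000000080248008011400202fa0008017d03))) 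
(.lf (nat_lit 469934566) (dlOf (nat_lit 2) (nat_lit 0xa074400a439e00381cd00290e58012c8200118008003000200040008017d03)))))))) 
(.nd (nat_lit 26) (.nd (nat_lit 30) (.nd (nat_lit 8) (.nd (nat_lit 6) (.nd (nat_lit 27) 
(.lf (nat_lit 806002726) (dlOf (nat_lit 9) (nat_lit 0x22605500c1027006180dc031c05600a002400f30090071004000a4014018c0060002309011602a8055813802e806e01ee012002500500011428083815400c00a6018404e00ba01b807c00ac025804801c601200d70080045002803d400c0004314027205500f102980a88138053c06e00b0031007b015800c8090017c02c0244012010c0080000802801ec00c00042180454056016002a809e813802ec06403ac0130001f850003022800700b40007008035c0a8024805300fd022802800f000bc060007802d0024015801a80a40078048000401700350030000d858082815004080a6012e030001e01580130044000681400d000400280018210502))) 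
(.lf (nat_lit 2819268646) (dlOf (nat_lit 1) (nat_lit 0x8008000400200020008210603)))) 
(.lf (nat_lit 5100445926) (dlOf (nat_lit 1) (nat_lit 0x4a0008081b81)))) (.nd (nat_lit 6) 
(.nd (nat_lit 9) (.lf (nat_lit 2818744614) (dlOf (nat_lit 1) (nat_lit 0x800180f8081))) 
(.lf (nat_lit 671262502) (dlOf (nat_lit 1) (nat_lit 0x420028143d01)))) 
(.lf (nat_lit 805485414) (dlOf (nat_lit 1) (nat_lit 0x400080054002000c000811bc83))))) 
(.nd (nat_lit 7) (.nd (nat_lit 6) (.nd (nat_lit 11) 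
(.lf (nat_lit 3893010470) (dlOf (nat_lit 1) (nat_lit 0x200282d0601))) 
(.lf (nat_lit 5905754150) (dlOf (nat_lit 1) (nat_lit 0x400400020008144702)))) 
(.lf (nat_lit 1880269926) (dlOf (nat_lit 1) (nat_lit 0x60008802981)))) (.nd (nat_lit 32) 
(.nd (nat_lit 9) (.lf (nat_lit 1880269990) (dlOf (nat_lit 1) (nat_lit 0x400400020008802c02))) 
(.lf (nat_lit 3758273190) (dlOf (nat_lit 1) (nat_lit 0x30004000e0008128c82)))) (.nd (nat_lit 8) 
(.lf (nat_lit 5905753766) (dlOf (nat_lit 1) (nat_lit 0x400400020008143a82))) 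
(.lf (nat_lit 5905754022) (dlOf (nat_lit 1) (nat_lit 0xac0028144301))))))) (.nd (nat_lit 8) 
(.nd (nat_lit 27) (.nd (nat_lit 19) 
(.lf (nat_lit 2752684070) (dlOf (nat_lit 2) (nat_lit 0x101ff0000e018030a00))) 
(.lf (nat_lit 1678417958) (dlOf (nat_lit 9) (nat_lit 0x22605500c1027006180dc031c05600a002400f30090071004000a4014018c0060002489011602a8055813802e806e01ee012002500500012028083815400c00a6018404e00ba01b807c00ac025804801c601200d70080045002803d400c0004614027205500f102980a88138053c06e00b0031007b015800c8090017c02c0244012010c0080000802801ec00c00045180454056016002a809e813802ec06403ac0130001f850003022800700b40007408035c0a8024805300fd022802800f000bc060007802d0024015801a80a40078048000401700350030000e058082815004080a6012e030001e01580130044000681400d000400280018210502)))) 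
(.nd (nat_lit 28) 
(.lf (nat_lit 3960119334) (dlOf (nat_lit 17) (nat_lit 0x1080a200ce035004400f80018048000ea1009880ac03b605500dd01901238044000e41003b40ac002e0110003882020302b013d0154016809201140390105019010180c4080005e032802b00ac014810100440810020027000a00d800400870000000de38008c080028202f000368201030178001b00801d815400e405e000250401cc056022c02a808701440344096007e032014a01780d800b8017c02201c20100080003000088500a3815804ec0aa000c054013002900b40144010809600f0040000c01f80b300d80554062029c02f01b6017003600ac012803c0268011016d00800ae802802700100032006001d000000084a00aa015805080aa0012054013002880aa00c4044805e036202e009301580a0004405b8020025600a0007004002e800000040340034082028202f0000f02014302b0098815400080a803120520119028804c812c029c080009e03f021401b00aa80c4044805e035602e01030158027807804e002202a2010017d00500198020048c00c00900000000e14018502b00fb0154073c0a4033e0510100025811400d8000c064019e03100f701780b200b80490056009e01e017500880c70040069c01402a0006008a00000006c8801400bc0003404055005e000190200b0055012c02880c38128073c092030604001de01a80f780d002d003e010e01e012b00300000050059000805f0002015800081b0503)))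 
(.nd (nat_lit 30) 
(.lf (nat_lit 3154812966) (dlOf (nat_lit 4) (nat_lit 0x402c0002014000f682000600b00030050003d608000409e0002014000f5028330a80))) 
(.lf (nat_lit 6376038438) (dlOf (nat_lit 1) (nat_lit 0x400400020008060c02)))))) (.nd (nat_lit 6) 
(.nd (nat_lit 10) (.nd (nat_lit 11) (.nd (nat_lit 12) 
(.lf (nat_lit 2755830054) (dlOf (nat_lit 1) (nat_lit 0x4002000200081b0502))) 
(.lf (nat_lit 3154293030) (dlOf (nat_lit 1) (nat_lit 0x20018158081)))) 
(.lf (nat_lit 1677895974) (dlOf (nat_lit 1) (nat_lit 0x46000801c800200220008114b83)))) 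
(.nd (nat_lit 7) (.lf (nat_lit 872588582) (dlOf (nat_lit 1) (nat_lit 0x220018093181))) 
(.lf (nat_lit 2752161702) (dlOf (nat_lit 1) (nat_lit 0x16000800d800200480008004303))))) 
(.nd (nat_lit 22) 
(.lf (nat_lit 2885853542) (dlOf (nat_lit 3) (nat_lit 0x4c0300030017001580b40094048005c01a002b00c0012005c00a8026004a011002c0028015000800840000002918005a02e002f0168007809000b8034005401800290098013004400a000a00560020027000800180000004e2c002c004005a00180b0702))) 
(.lf (nat_lit 2755830118) (dlOf (nat_lit 1) (nat_lit 0x200281b0701)))))))) (.nd (nat_lit 21) 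
(.nd (nat_lit 6) (.nd (nat_lit 32) (.nd (nat_lit 10) (.nd (nat_lit 20) (.nd (nat_lit 22) 
(.nd (nat_lit 8) (.lf (nat_lit 958502) (dlOf (nat_lit 1) (nat_lit 0x400400020008040582))) 
(.lf (nat_lit 604416806) (dlOf (nat_lit 6) (nat_lit 0x2403a000c01b800b00d000400540023c08001c043000901d000800a8004660c0034086000e03a000f0150008c41800a010c000407a001e03a000f01b800a80d0005c0540014020000200a0002803000080120026000001178b00020048008b40800980080074002001a0008205c03)))) 
(.nd (nat_lit 7) 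
(.lf (nat_lit 13017126) (dlOf (nat_lit 5) (nat_lit 0x1031e000c95e80002a080010c780001302001a63c000028100022bd0000000803180080088002000e00086f0903))) 
(.lf (nat_lit 54960294) (dlOf (nat_lit 1) (nat_lit 0x400400480009681482))))) (.nd (nat_lit 19) 
(.nd (nat_lit 22) (.lf (nat_lit 26648614) (dlOf (nat_lit 1) (nat_lit 0x80008c50281))) 
(.lf (nat_lit 22454310) (dlOf (nat_lit 4) (nat_lit 0xe2c3c000540400058000001e020026a350000e818ae0580)))) 
(.lf (nat_lit 10395686) (dlOf (nat_lit 2) (nat_lit 0x2226c0010fe00002a04000200085d0581))))) 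
(.nd (nat_lit 8) (.nd (nat_lit 7) 
(.lf (nat_lit 8824358) (dlOf (nat_lit 1) (nat_lit 0x20018513701))) 
(.lf (nat_lit 34514086) (dlOf (nat_lit 1) (nat_lit 0x400400020008fb2c02)))) (.nd (nat_lit 9) 
(.lf (nat_lit 3490098470) (dlOf (nat_lit 2) (nat_lit 0xc116000240200020018006801))) 
(.lf (nat_lit 2751899430) (dlOf (nat_lit 1) (nat_lit 0x20018003d01)))))) (.nd (nat_lit 26) 
(.nd (nat_lit 27) (.nd (nat_lit 28) 
(.lf (nat_lit 5906014246) (dlOf (nat_lit 5) (nat_lit 0xc404a0005a020076025003300f0022805c000540c00c804a00760170001482003200b80002408009000800fc002000a0008180583))) 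
(.lf (nat_lit 4563836966) (dlOf (nat_lit 1) (nat_lit 0x80080028002001000080f0c03)))) 
(.lf (nat_lit 4698054694) (dlOf (nat_lit 1) (nat_lit 0x80080028002001000080f0c03)))) 
(.nd (nat_lit 27) 
(.lf (nat_lit 6509994022) (dlOf (nat_lit 5) (nat_lit 0xc404c0005a020076026003300f0022805c000540c00c804c00760170001482003200b80002408009000800fc002000a0008180583))) 
(.lf (nat_lit 4496728102) (dlOf (nat_lit 1) (nat_lit 0xe0028160481)))))) (.nd (nat_lit 7) 
(.nd (nat_lit 19) (.nd (nat_lit 9) 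
(.lf (nat_lit 26648678) (dlOf (nat_lit 1) (nat_lit 0x40018c50d01))) 
(.lf (nat_lit 1476830822) (dlOf (nat_lit 2) (nat_lit 0x52014001c0060000001002800080078002003c0008203903)))) 
(.nd (nat_lit 8) (.lf (nat_lit 59678822) (dlOf (nat_lit 1) (nat_lit 0x400200040009820982))) 
(.lf (nat_lit 537829734) (dlOf (nat_lit 9) (nat_lit 0xb81d800040cc010c0000001983002803b001101980006408004c0ec00300660001882002b03b000b0198000600800280000002502006807500820000000781002c80000003a04015c0000001c02001a00281b0701))))) 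
(.nd (nat_lit 27) (.nd (nat_lit 8) 
(.lf (nat_lit 1611047142) (dlOf (nat_lit 2) (nat_lit 0x2009a000e302004c00180c1b81))) 
(.lf (nat_lit 8826854) (dlOf (nat_lit 1) (nat_lit 0x38008002c00200460008517a83)))) 
(.nd (nat_lit 26) 
(.lf (nat_lit 3624313318) (dlOf (nat_lit 6) (nat_lit 0x19406e00ec03500750000000bc1800e80e805a406e023e03500280080068802805240000002d0c008203a00f801b804a8028000560c00cc07401e2037008d0050000a81808180dc007006a012a00a00500000000a02000680080498002004a0008157303))) 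
(.lf (nat_lit 2886115814) (dlOf (nat_lit 1) (nat_lit 0x3c00400be0018157d02))))))) (.nd (nat_lit 20) 
(.nd (nat_lit 6) (.nd (nat_lit 23) (.nd (nat_lit 7) 
(.lf (nat_lit 1344709670) (dlOf (nat_lit 1) (nat_lit 0x400400020008982882))) 
(.lf (nat_lit 69642918) (dlOf (nat_lit 1) (nat_lit 0x400400020008b95602)))) (.nd (nat_lit 19) 
(.lf (nat_lit 27697190) (dlOf (nat_lit 1) (nat_lit 0x8008000400200020008d10883))) 
(.lf (nat_lit 11444262) (dlOf (nat_lit 2) (nat_lit 0x713580004c080088008003c002000600086a0783))))) 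
(.nd (nat_lit 8) (.nd (nat_lit 10) 
(.lf (nat_lit 48668774) (dlOf (nat_lit 1) (nat_lit 0x80019420981))) 
(.lf (nat_lit 44999782) (dlOf (nat_lit 1) (nat_lit 0x20019322981)))) 
(.lf (nat_lit 69642598) (dlOf (nat_lit 1) (nat_lit 0x8008000400200020008b94e83))))) 
(.nd (nat_lit 9) (.nd (nat_lit 6) (.nd (nat_lit 7) 
(.lf (nat_lit 3580198) (dlOf (nat_lit 1) (nat_lit 0x1c002001e0008200502))) 
(.lf (nat_lit 8299942) (dlOf (nat_lit 1) (nat_lit 0x400200020008513602)))) (.nd (nat_lit 8) 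
(.lf (nat_lit 473866342) (dlOf (nat_lit 2) (nat_lit 0x1681b20000e0200020008fc0981))) 
(.lf (nat_lit 8303974) (dlOf (nat_lit 1) (nat_lit 0x160028519901))))) (.nd (nat_lit 22) 
(.nd (nat_lit 7) (.lf (nat_lit 53914150) (dlOf (nat_lit 1) (nat_lit 0x1400195f5181))) 
(.lf (nat_lit 62827174) (dlOf (nat_lit 1) (nat_lit 0x200199a5601)))) (.nd (nat_lit 23) 
(.lf (nat_lit 41331238) (dlOf (nat_lit 1) (nat_lit 0x400200020009245182))) 
(.lf (nat_lit 32942630) (dlOf (nat_lit 1) (nat_lit 0x20028f55181)))))))))) (.nd (nat_lit 18) 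
(.nd (nat_lit 15) (.nd (nat_lit 28) (.nd (nat_lit 20) (.nd (nat_lit 26) (.nd (nat_lit 30) 
(.nd (nat_lit 6) (.nd (nat_lit 19) 
(.lf (nat_lit 21110830) (dlOf (nat_lit 1) (nat_lit 0x8008003800200120008a10703))) 
(.lf (nat_lit 537534510) (dlOf (nat_lit 1) (nat_lit 0x38004000e00080a0982)))) (.nd (nat_lit 7) 
(.lf (nat_lit 537534574) (dlOf (nat_lit 6) (nat_lit 0xa605d001402a000f81140001c0c01340ba009c054004b0228000341801a817400f00a800820450000603004202e8029015000ec08a0000b060060054002a02280000010011800800b8002001a00080a1503))) 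
(.lf (nat_lit 8533998) (dlOf (nat_lit 1) (nat_lit 0x2001851a601))))) (.nd (nat_lit 7) 
(.nd (nat_lit 9) 
(.lf (nat_lit 3221889070) (dlOf (nat_lit 5) (nat_lit 0x40138000dc08003811c00380880000a04001004700004810008023802d80bc00000080218004003a00081b0602))) 
(.lf (nat_lit 1208101422) (dlOf (nat_lit 1) (nat_lit 0x400400020008095182)))) (.nd (nat_lit 10) 
(.lf (nat_lit 3758236078) (dlOf (nat_lit 2) (nat_lit 0x400e0050b818106e80))) 
(.lf (nat_lit 3221368238) (dlOf (nat_lit 1) (nat_lit 0x400400020008116d02)))))) (.nd (nat_lit 6) 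
(.nd (nat_lit 11) (.nd (nat_lit 19) 
(.lf (nat_lit 3288473646) (dlOf (nat_lit 1) (nat_lit 0xdc00200460008020582))) 
(.lf (nat_lit 3960086574) (dlOf (nat_lit 5) (nat_lit 0x40138000e008003811c00380880000a04001004700004810008023802d80bc00000080218004003a00081b0602)))) 
(.nd (nat_lit 7) (.lf (nat_lit 738339374) (dlOf (nat_lit 1) (nat_lit 0x14004000a0008095182))) 
(.lf (nat_lit 1812081070) (dlOf (nat_lit 1) (nat_lit 0x6000200480008144e82))))) (.nd (nat_lit 7) 
(.lf (nat_lit 6107045998) (dlOf (nat_lit 1) (nat_lit 0xa58008024400201ee0008040c03))) 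
(.nd (nat_lit 8) (.lf (nat_lit 3959564526) (dlOf (nat_lit 1) (nat_lit 0x400400020008114b82))) 
(.lf (nat_lit 738339822) (dlOf (nat_lit 1) (nat_lit 0x8008000400200020008095e83))))))) 
(.nd (nat_lit 24) (.nd (nat_lit 21) (.nd (nat_lit 7) (.nd (nat_lit 22) 
(.lf (nat_lit 2752651310) (dlOf (nat_lit 10) (nat_lit 0x1e22800019810020117800808a800984500050226001e10c8010042c00cc202000320e000222f00151140000842c00382020003108015c22f01311140027885802b8216025e10100520788000bc3000e08bc0348450003810b00c30808000b82000288a00005a04005845000101010001602001d1148000a80800f8874000240401b800400a00008030c02))) 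
(.lf (nat_lit 47325230) (dlOf (nat_lit 2) (nat_lit 0xaef0000be040018002002000093d0d02)))) 
(.lf (nat_lit 39463342) (dlOf (nat_lit 1) (nat_lit 0x8008000800200020009194e83)))) (.nd (nat_lit 7) 
(.nd (nat_lit 8) 
(.lf (nat_lit 11674158) (dlOf (nat_lit 16) (nat_lit 0x1f718c00ff7ac0003f04003fc630001f01004ce31801d6f580007a0800ff8c60087bd60001b02004ce318027ef580006808010f8c600a5bd600015020036e31801f6f580004608011f8c600020020069c630000f81004fe318000740801c718c00bb7ac0001c04009fc630000d010095e31803aef58000180801ab8c60071bd60000482004fe3180276f5800000080004004004e00186c0e82))) 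
(.lf (nat_lit 8009518) (dlOf (nat_lit 1) (nat_lit 0x80040002001851a102)))) 
(.lf (nat_lit 3285166) (dlOf (nat_lit 1) (nat_lit 0x80018200301))))) (.nd (nat_lit 7) 
(.nd (nat_lit 12) (.nd (nat_lit 6) 
(.lf (nat_lit 54140974) (dlOf (nat_lit 1) (nat_lit 0x20019630281))) 
(.lf (nat_lit 24256622) (dlOf (nat_lit 2) (nat_lit 0xa25d00000018b91500)))) (.nd (nat_lit 11) 
(.lf (nat_lit 20066414) (dlOf (nat_lit 1) (nat_lit 0x4002000200089d7d82))) 
(.lf (nat_lit 20068462) (dlOf (nat_lit 1) (nat_lit 0x100080004002000200089da883))))) 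
(.nd (nat_lit 6) (.lf (nat_lit 20069038) (dlOf (nat_lit 1) (nat_lit 0x80080004002000200089db783))) 
(.nd (nat_lit 8) (.lf (nat_lit 28451054) (dlOf (nat_lit 1) (nat_lit 0x400200020008da0602))) 
(.lf (nat_lit 33171950) (dlOf (nat_lit 1) (nat_lit 0x40008f54f01)))))))) (.nd (nat_lit 26) 
(.nd (nat_lit 30) (.nd (nat_lit 7) (.nd (nat_lit 6) (.nd (nat_lit 27) 
(.lf (nat_lit 2416058414) (dlOf (nat_lit 2) (nat_lit 0x7800800017818030c00))) 
(.lf (nat_lit 2550276142) (dlOf (nat_lit 2) (nat_lit 0x7800900016018030c00)))) 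
(.lf (nat_lit 6711025774) (dlOf (nat_lit 1) (nat_lit 0xa58008024400201ee0008040c03)))) 
(.nd (nat_lit 8) 
(.lf (nat_lit 5234630830) (dlOf (nat_lit 1) (nat_lit 0x480080034002000e0008062d83))) 
(.nd (nat_lit 32) (.lf (nat_lit 402792878) (dlOf (nat_lit 1) (nat_lit 0x1c00200020008091002))) 
(.lf (nat_lit 4697760174) (dlOf (nat_lit 22) (nat_lit 0xa4068007402f0036016801b007c002d21000a8068006402f0037016801a007c002d01000a4068006802f00350168018007c002ce10002c068007402f0039016801b807c002cc10008005e001802d000e00f80058c1800600b000240280015804000402d000a681000e0168005300800700b40028a04002005a0014302000a02d0009c81000b00f0004c00800b80bc0017a04000c05a0003002000202d0001781000a0178000a40801700bc00b805a005e01f0000e83002c017801600b400b003e0001c06006402f002b0168018807c000360c00dc05e007002d003800f8000681800e80b4000000400d400400020018091002)))))) 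
(.nd (nat_lit 8) (.nd (nat_lit 20) (.nd (nat_lit 19) (.nd (nat_lit 27) 
(.lf (nat_lit 4026671150) (dlOf (nat_lit 1) (nat_lit 0xdc00200460008020582))) 
(.lf (nat_lit 1476534318) (dlOf (nat_lit 1) (nat_lit 0x400400020008040d02)))) 
(.lf (nat_lit 1344938030) (dlOf (nat_lit 1) (nat_lit 0x4004000200089a0282)))) (.nd (nat_lit 31) 
(.lf (nat_lit 1343365166) (dlOf (nat_lit 1) (nat_lit 0x14002001a0008210882))) 
(.lf (nat_lit 3490848814) (dlOf (nat_lit 10) (nat_lit 0x3a2140001981000f1098000c0080100868004042a004c2130028108800f0810008022200661010001787000110d000a884c0004222001c101000170400ae10d0098884c013c402015c111012f080802903c40005818007043401a4213001c08880618404000561000144260002a02002c21300080808000a41000f8820000240401b800400a00008030c02))))) 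
(.nd (nat_lit 9) (.lf (nat_lit 1879187758) (dlOf (nat_lit 1) (nat_lit 0xc00400080008067a02))) 
(.lf (nat_lit 1342322478) (dlOf (nat_lit 2) (nat_lit 0x60b280008008002800800100020006000800a103)))))) 
(.nd (nat_lit 9) (.nd (nat_lit 7) (.nd (nat_lit 27) (.nd (nat_lit 6) 
(.lf (nat_lit 1409949742) (dlOf (nat_lit 1) (nat_lit 0x38004000e00080a0982))) 
(.lf (nat_lit 1409949806) (dlOf (nat_lit 6) (nat_lit 0xa605d001402a000f81080001c0c01340ba009c054004b0210000341801a817400f00a800820420000603004202e8029015000ec0840000b060060054002a02100000010011800800b8002001a00080a1503)))) 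
(.nd (nat_lit 21) 
(.lf (nat_lit 3154780206) (dlOf (nat_lit 8) (nat_lit 0xcc02d0030000c0007e08036c0b400820030001b02000702d0000a008036816801040060002004019805a00090240020800c0001e0c00180b2001e0000000382008602d00000c080008008006400200b00008320e83))) 
(.lf (nat_lit 472522798) (dlOf (nat_lit 1) (nat_lit 0x30008000c002000e00089b0a03))))) 
(.nd (nat_lit 8) 
(.lf (nat_lit 6377054382) (dlOf (nat_lit 1) (nat_lit 0x80080004002000200080a2d83))) 
(.nd (nat_lit 27) 
(.lf (nat_lit 872554926) (dlOf (nat_lit 2) (nat_lit 0x1680980012c04009400200020008091002))) 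
(.lf (nat_lit 2080514478) (dlOf (nat_lit 1) (nat_lit 0xa0008091001)))))) (.nd (nat_lit 27) 
(.nd (nat_lit 6) (.lf (nat_lit 335686190) (dlOf (nat_lit 1) (nat_lit 0x400400020008095182))) 
(.nd (nat_lit 7) (.lf (nat_lit 6241266542) (dlOf (nat_lit 1) (nat_lit 0x8004000200080d5c02))) 
(.lf (nat_lit 3556911854) (dlOf (nat_lit 1) (nat_lit 0x200080d5a01))))) (.nd (nat_lit 7) 
(.nd (nat_lit 19) 
(.lf (nat_lit 2617385518) (dlOf (nat_lit 1) (nat_lit 0x148008008c002002000080a1483))) 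
(.lf (nat_lit 473571886) (dlOf (nat_lit 4) (nat_lit 0x28236000411a0002282000a08d80010c08005846c0000004015000400020008f68a82)))) 
(.lf (nat_lit 5838614190) (dlOf (nat_lit 1) (nat_lit 0x4c002000c00080f7282)))))))) 
(.nd (nat_lit 26) (.nd (nat_lit 9) (.nd (nat_lit 28) (.nd (nat_lit 6) (.nd (nat_lit 23) 
(.nd (nat_lit 8) (.nd (nat_lit 19) 
(.lf (nat_lit 2684526638) (dlOf (nat_lit 1) (nat_lit 0x8008001000200020008090683))) 
(.lf (nat_lit 134914094) (dlOf (nat_lit 4) (nat_lit 0xa0310002901000e0188001440800500c40008a040008004000600080e0602)))) 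
(.lf (nat_lit 178478) (dlOf (nat_lit 1) (nat_lit 0x40040002000800ab82)))) (.nd (nat_lit 19) 
(.nd (nat_lit 20) 
(.lf (nat_lit 12754990) (dlOf (nat_lit 1) (nat_lit 0x1b0008003c002000200086e0a03))) 
(.lf (nat_lit 30580782) (dlOf (nat_lit 1) (nat_lit 0x38008002c00200120008e40e83)))) 
(.lf (nat_lit 10133550) (dlOf (nat_lit 1) (nat_lit 0x200085b0581))))) (.nd (nat_lit 8) 
(.nd (nat_lit 10) (.lf (nat_lit 24289390) (dlOf (nat_lit 2) (nat_lit 0xa01c00000018b91500))) 
(.lf (nat_lit 175214) (dlOf (nat_lit 1) (nat_lit 0x20028006081)))) 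
(.lf (nat_lit 178542) (dlOf (nat_lit 1) (nat_lit 0x40040002000800ac82))))) (.nd (nat_lit 29) 
(.nd (nat_lit 20) 
(.lf (nat_lit 1346543662) (dlOf (nat_lit 5) (nat_lit 0x211280028834001034400064060004225000510680020688000c60c000445c0004225000710680030688000c210000845c0008225000710680030688000be10000800400060008fb0d02))) 
(.lf (nat_lit 3490881582) (dlOf (nat_lit 3) (nat_lit 0x908b800a03460002c04004e1a300015818030c00)))) 
(.nd (nat_lit 7) (.nd (nat_lit 27) 
(.lf (nat_lit 1879220270) (dlOf (nat_lit 2) (nat_lit 0x3085800060080010008000c002000200080a0903))) 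
(.lf (nat_lit 4160921646) (dlOf (nat_lit 1) (nat_lit 0xc0008090681)))) 
(.lf (nat_lit 805480878) (dlOf (nat_lit 3) (nat_lit 0x5815400200240188204001402200080000051a41000c8008002800200120008114e83)))))) 
(.nd (nat_lit 6) (.nd (nat_lit 19) (.nd (nat_lit 31) 
(.lf (nat_lit 134390318) (dlOf (nat_lit 11) (nat_lit 0x6b025004380bc000d20801b0094010602f0003402001101780019c08035812802e005e000660400d404a00790178001101000680bc000860401a409400fa02f00021020068025003e00bc0008008002c09400e002f0001f82005f0178000f80801a800800b000200460008018003))) 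
(.lf (nat_lit 6576841262) (dlOf (nat_lit 1) (nat_lit 0x200018158001)))) (.nd (nat_lit 10) 
(.lf (nat_lit 3491406382) (dlOf (nat_lit 2) (nat_lit 0x40f5800000080018008003400200020008090e83))) 
(.lf (nat_lit 8037934) (dlOf (nat_lit 1) (nat_lit 0x400200020008513782))))) (.nd (nat_lit 10) 
(.nd (nat_lit 8) (.lf (nat_lit 3892493038) (dlOf (nat_lit 1) (nat_lit 0x2001815b981))) 
(.lf (nat_lit 36348910) (dlOf (nat_lit 1) (nat_lit 0x20019072881)))) (.nd (nat_lit 7) 
(.lf (nat_lit 3892492142) (dlOf (nat_lit 1) (nat_lit 0x1b80040076000815a302))) (.nd (nat_lit 23) 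
(.lf (nat_lit 537049070) (dlOf (nat_lit 1) (nat_lit 0x40040002000800a602))) 
(.lf (nat_lit 8566766) (dlOf (nat_lit 1) (nat_lit 0x40040002000851a602)))))))) (.nd (nat_lit 31) 
(.nd (nat_lit 8) (.nd (nat_lit 19) (.nd (nat_lit 27) 
(.lf (nat_lit 1141022766) (dlOf (nat_lit 1) (nat_lit 0x20008090001))) 
(.lf (nat_lit 1006805038) (dlOf (nat_lit 1) (nat_lit 0x4004000200180a0802)))) (.nd (nat_lit 9) 
(.nd (nat_lit 27) (.lf (nat_lit 67805230) (dlOf (nat_lit 1) (nat_lit 0x3800182f0b81))) 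
(.lf (nat_lit 202022958) (dlOf (nat_lit 4) (nat_lit 0xa0310002581000e0188001280800500c40007c040008004000600080e0602)))) 
(.lf (nat_lit 473604654) (dlOf (nat_lit 3) (nat_lit 0x1608d80011408005046c0008604015800400240008f68a82))))) 
(.nd (nat_lit 6) (.nd (nat_lit 9) 
(.lf (nat_lit 4362248494) (dlOf (nat_lit 2) (nat_lit 0x37023801290080030008011c00200060008014903))) 
(.lf (nat_lit 6241299246) (dlOf (nat_lit 1) (nat_lit 0x200180d5c01)))) (.nd (nat_lit 12) 
(.lf (nat_lit 1677895662) (dlOf (nat_lit 1) (nat_lit 0x3c0008114601))) 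
(.lf (nat_lit 1677899758) (dlOf (nat_lit 1) (nat_lit 0x7000800180020014000811a603)))))) 
(.nd (nat_lit 19) (.nd (nat_lit 8) (.nd (nat_lit 9) (.nd (nat_lit 20) 
(.lf (nat_lit 3691159598) (dlOf (nat_lit 2) (nat_lit 0x800580004a04002c00400040018050402))) 
(.lf (nat_lit 2752684078) (dlOf (nat_lit 3) (nat_lit 0x9091800a03700002f04004e1b800017018030c00)))) 
(.lf (nat_lit 4228031022) (dlOf (nat_lit 3) (nat_lit 0x202680008c0800c013400280560001e0400040008018001)))) 
(.nd (nat_lit 27) 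
(.lf (nat_lit 3288506670) (dlOf (nat_lit 1) (nat_lit 0x28008003000200060008047a03))) 
(.lf (nat_lit 4228030766) (dlOf (nat_lit 2) (nat_lit 0x370200028e4080030008011c00200060008014903))))) 
(.nd (nat_lit 9) (.nd (nat_lit 6) 
(.lf (nat_lit 3154812974) (dlOf (nat_lit 2) (nat_lit 0x601900000018330b80))) 
(.lf (nat_lit 2753208430) (dlOf (nat_lit 1) (nat_lit 0x40018090001)))) (.nd (nat_lit 7) 
(.lf (nat_lit 2753208878) (dlOf (nat_lit 2) (nat_lit 0x40fe800000080018008003400200020008090e83))) 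
(.lf (nat_lit 2752161710) (dlOf (nat_lit 1) (nat_lit 0x20018004381))))))))) (.nd (nat_lit 8) 
(.nd (nat_lit 19) (.nd (nat_lit 27) (.nd (nat_lit 21) (.nd (nat_lit 15) (.nd (nat_lit 28) 
(.nd (nat_lit 20) (.nd (nat_lit 30) 
(.lf (nat_lit 537272366) (dlOf (nat_lit 1) (nat_lit 0x10008001000200060008070803))) 
(.lf (nat_lit 3758497838) (dlOf (nat_lit 2) (nat_lit 0x100280003c04000c00400080008220882)))) 
(.lf (nat_lit 26615854) (dlOf (nat_lit 4) (nat_lit 0x11b3e800657b40002c08001acfa0001402000367d000faf680004c1001780080130002002a0008c50403)))) 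
(.nd (nat_lit 26) (.lf (nat_lit 2416320558) (dlOf (nat_lit 2) (nat_lit 0x580240001d0180e0600))) 
(.lf (nat_lit 1409687598) (dlOf (nat_lit 2) (nat_lit 0x300a8000250200020018070901))))) 
(.nd (nat_lit 6) (.nd (nat_lit 10) 
(.lf (nat_lit 2752946222) (dlOf (nat_lit 3) (nat_lit 0x98108001c02e000250400380420000f018070800))) 
(.lf (nat_lit 4026969134) (dlOf (nat_lit 1) (nat_lit 0x400180f6081)))) 
(.lf (nat_lit 2751899374) (dlOf (nat_lit 1) (nat_lit 0x100018003b01))))) (.nd (nat_lit 15) 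
(.nd (nat_lit 23) (.nd (nat_lit 6) 
(.lf (nat_lit 52830254) (dlOf (nat_lit 1) (nat_lit 0x30008001800200020009570003))) 
(.lf (nat_lit 1881546990) (dlOf (nat_lit 1) (nat_lit 0x8008000800200120008f41e83)))) 
(.nd (nat_lit 22) (.lf (nat_lit 61218862) (dlOf (nat_lit 1) (nat_lit 0x10002000400098e0282))) 
(.lf (nat_lit 48635950) (dlOf (nat_lit 2) (nat_lit 0x3b00000004804009000200280009420282))))) 
(.nd (nat_lit 9) (.nd (nat_lit 20) 
(.lf (nat_lit 48668718) (dlOf (nat_lit 1) (nat_lit 0x7800200280009420282))) 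
(.lf (nat_lit 49717294) (dlOf (nat_lit 1) (nat_lit 0x400200020009490a02)))) 
(.lf (nat_lit 20360750) (dlOf (nat_lit 1) (nat_lit 0x600289d7181)))))) (.nd (nat_lit 26) 
(.nd (nat_lit 9) (.nd (nat_lit 29) (.nd (nat_lit 28) 
(.lf (nat_lit 3355844654) (dlOf (nat_lit 3) (nat_lit 0x2000001c240805b00c80000004021800401b80008120782))) 
(.lf (nat_lit 2550538286) (dlOf (nat_lit 2) (nat_lit 0x58026000208180e0600)))) (.nd (nat_lit 15) 
(.lf (nat_lit 3892715566) (dlOf (nat_lit 1) (nat_lit 0xa0008005c002003e00081d0703))) 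
(.lf (nat_lit 2819006510) (dlOf (nat_lit 14) (nat_lit 0x11f01f80009c080e300fc0004c04043807e0002502001e03f0001101009101f8000780808400fc0003a04029c07e0001c02017003f0000d8100ff01f8000680809080fc000320404c407e0001802021e03f0000b8100fa01f80000008022000800c8002008e0008150403))))) 
(.nd (nat_lit 15) 
(.lf (nat_lit 134619694) (dlOf (nat_lit 2) (nat_lit 0x504062000000200020028090e81))) 
(.lf (nat_lit 134652462) (dlOf (nat_lit 1) (nat_lit 0x10008000c00200040008090e83))))) 
(.nd (nat_lit 9) (.nd (nat_lit 20) (.nd (nat_lit 15) 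
(.lf (nat_lit 4496695342) (dlOf (nat_lit 1) (nat_lit 0x3100080054002012a0008120383))) 
(.lf (nat_lit 4496728110) (dlOf (nat_lit 1) (nat_lit 0x160028160581)))) (.nd (nat_lit 29) 
(.lf (nat_lit 471212078) (dlOf (nat_lit 2) (nat_lit 0x981f8000ec040008002003000082c0802))) 
(.lf (nat_lit 1008082990) (dlOf (nat_lit 2) (nat_lit 0x20e30000c0189c0280))))) (.nd (nat_lit 15) 
(.lf (nat_lit 201728558) (dlOf (nat_lit 2) (nat_lit 0x504062000000200020028090e81))) 
(.lf (nat_lit 201761326) (dlOf (nat_lit 1) (nat_lit 0x10008000c00200040008090e83))))))) 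
(.nd (nat_lit 9) (.nd (nat_lit 24) (.nd (nat_lit 21) (.nd (nat_lit 6) 
(.lf (nat_lit 925742) (dlOf (nat_lit 1) (nat_lit 0x40028030c01))) 
(.lf (nat_lit 1344156782) (dlOf (nat_lit 1) (nat_lit 0x200083d9401)))) (.nd (nat_lit 15) 
(.lf (nat_lit 11411502) (dlOf (nat_lit 3) (nat_lit 0x23e318011ef580004a080130d0c0000f02001200086a0801))) 
(.lf (nat_lit 11444270) (dlOf (nat_lit 2) (nat_lit 0x2c1688000940800480080018002000200086a0803))))) 
(.nd (nat_lit 6) (.nd (nat_lit 22) (.nd (nat_lit 23) 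
(.lf (nat_lit 17702958) (dlOf (nat_lit 2) (nat_lit 0x8000000078188f0e80))) 
(.lf (nat_lit 59645998) (dlOf (nat_lit 3) (nat_lit 0x89c2400030040005174000000200060019820281)))) 
(.lf (nat_lit 21897262) (dlOf (nat_lit 1) (nat_lit 0xc00400040008a80c02)))) (.nd (nat_lit 7) 
(.lf (nat_lit 53387374) (dlOf (nat_lit 1) (nat_lit 0x1a00295b0c01))) 
(.lf (nat_lit 18751726) (dlOf (nat_lit 1) (nat_lit 0x400200020008970602)))))) (.nd (nat_lit 7) 
(.nd (nat_lit 20) 
(.lf (nat_lit 3490587182) (dlOf (nat_lit 2) (nat_lit 0x42022c0000004021000200300008018002))) 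
(.nd (nat_lit 26) (.lf (nat_lit 3491635758) (dlOf (nat_lit 2) (nat_lit 0x1a1c50001b018090e80))) 
(.lf (nat_lit 2753438254) (dlOf (nat_lit 2) (nat_lit 0x1a1d70001b018090e80))))) (.nd (nat_lit 6) 
(.lf (nat_lit 6376270510) (dlOf (nat_lit 1) (nat_lit 0x400400020008095682))) (.nd (nat_lit 15) 
(.lf (nat_lit 40774382) (dlOf (nat_lit 2) (nat_lit 0x28b058000780800200080004002000600091f5a03))) 
(.lf (nat_lit 40807150) (dlOf (nat_lit 3) (nat_lit 0x3aea80005404000d78a002cbaa00055990000781800680080008002000400091f5a03)))))))) 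
(.nd (nat_lit 6) (.nd (nat_lit 10) (.nd (nat_lit 20) (.nd (nat_lit 11) 
(.lf (nat_lit 23470510) (dlOf (nat_lit 1) (nat_lit 0x180028b80781))) (.nd (nat_lit 19) 
(.lf (nat_lit 3490064814) (dlOf (nat_lit 1) (nat_lit 0x20018004e81))) 
(.lf (nat_lit 57551278) (dlOf (nat_lit 1) (nat_lit 0x300029794e81))))) (.nd (nat_lit 7) 
(.nd (nat_lit 9) (.lf (nat_lit 2755535150) (dlOf (nat_lit 1) (nat_lit 0x4004000e00181b0502))) 
(.lf (nat_lit 8299310) (dlOf (nat_lit 1) (nat_lit 0xe0028512201)))) 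
(.lf (nat_lit 8266158) (dlOf (nat_lit 1) (nat_lit 0x48008000400200ba0008511003))))) 
(.nd (nat_lit 7) (.nd (nat_lit 9) (.nd (nat_lit 11) 
(.lf (nat_lit 872850734) (dlOf (nat_lit 1) (nat_lit 0x2400280e3201))) 
(.lf (nat_lit 3624283438) (dlOf (nat_lit 1) (nat_lit 0x40028146881)))) 
(.lf (nat_lit 8300334) (dlOf (nat_lit 1) (nat_lit 0x60018513d81)))) (.nd (nat_lit 12) 
(.nd (nat_lit 9) (.lf (nat_lit 8824238) (dlOf (nat_lit 2) (nat_lit 0x1bb96000a7018513600))) 
(.lf (nat_lit 2886084526) (dlOf (nat_lit 1) (nat_lit 0x800400280008144382)))) (.nd (nat_lit 15) 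
(.lf (nat_lit 19805614) (dlOf (nat_lit 1) (nat_lit 0x80080004002000200089d9903))) 
(.lf (nat_lit 19838382) (dlOf (nat_lit 1) (nat_lit 0x4002000200089d9902))))))) (.nd (nat_lit 7) 
(.nd (nat_lit 26) (.nd (nat_lit 9) (.nd (nat_lit 27) 
(.lf (nat_lit 1879449966) (dlOf (nat_lit 1) (nat_lit 0x60028150a01))) 
(.lf (nat_lit 134619502) (dlOf (nat_lit 2) (nat_lit 0xca03b003a2818090780)))) 
(.lf (nat_lit 8271726) (dlOf (nat_lit 1) (nat_lit 0x2c800800440020076000851a303)))) 
(.nd (nat_lit 27) (.nd (nat_lit 19) 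
(.lf (nat_lit 4362477934) (dlOf (nat_lit 1) (nat_lit 0x400400740008090782))) 
(.lf (nat_lit 4095615342) (dlOf (nat_lit 1) (nat_lit 0x200280e0f81)))) (.nd (nat_lit 28) 
(.lf (nat_lit 201728366) (dlOf (nat_lit 2) (nat_lit 0xca03b00677018090780))) 
(.lf (nat_lit 4228260206) (dlOf (nat_lit 1) (nat_lit 0x400400740008090782)))))) (.nd (nat_lit 15) 
(.nd (nat_lit 9) (.nd (nat_lit 26) 
(.lf (nat_lit 134619630) (dlOf (nat_lit 3) (nat_lit 0x440940020602003e04a00102818090d80))) 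
(.lf (nat_lit 201728494) (dlOf (nat_lit 3) (nat_lit 0x7c0940020602002204a00102018090d80)))) 
(.lf (nat_lit 1345725422) (dlOf (nat_lit 1) (nat_lit 0x400200020008dd2882)))) (.nd (nat_lit 19) 
(.nd (nat_lit 20) (.lf (nat_lit 8823790) (dlOf (nat_lit 2) (nat_lit 0x5b8900e31818512880))) 
(.lf (nat_lit 1880531950) (dlOf (nat_lit 1) (nat_lit 0x1400289e2881)))) 
(.lf (nat_lit 3492717550) (dlOf (nat_lit 1) (nat_lit 0x4002000200080f2882)))))))))))

end

end Pool.Agent.Lib.MP_5854e1_co.Cz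

namespace Pool.Agent.Lib.MP_5854e1_co.Cz

noncomputable section

noncomputable def tz143 : DT := (.nd (nat_lit 15) (.nd (nat_lit 17) (.nd (nat_lit 28) 
(.nd (nat_lit 18) (.nd (nat_lit 3) (.nd (nat_lit 19) (.nd (nat_lit 8) (.nd (nat_lit 22) 
(.nd (nat_lit 26) (.nd (nat_lit 24) 
(.lf (nat_lit 3221299238) (dlOf (nat_lit 1) (nat_lit 0x20028090001))) 
(.lf (nat_lit 16850982) (dlOf (nat_lit 1) (nat_lit 0x1a80080004002004c00088e0003)))) 
(.nd (nat_lit 6) (.lf (nat_lit 4362151974) (dlOf (nat_lit 1) (nat_lit 0x20018004701))) 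
(.lf (nat_lit 5435893350) (dlOf (nat_lit 2) (nat_lit 0x51018800b00b00008c08000800400020018003902))))) 
(.nd (nat_lit 20) (.lf (nat_lit 21045286) (dlOf (nat_lit 1) (nat_lit 0x20028a00901))) 
(.nd (nat_lit 21) 
(.lf (nat_lit 13705254) (dlOf (nat_lit 1) (nat_lit 0x6000800a000200540008740503))) 
(.lf (nat_lit 15802406) (dlOf (nat_lit 1) (nat_lit 0x1c20028830601)))))) (.nd (nat_lit 11) 
(.nd (nat_lit 7) 
(.lf (nat_lit 1677795622) (dlOf (nat_lit 2) (nat_lit 0x281440007004002c00400080008090502))) 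
(.nd (nat_lit 10) (.lf (nat_lit 8462758) (dlOf (nat_lit 1) (nat_lit 0x400200020008511002))) 
(.lf (nat_lit 4899022246) (dlOf (nat_lit 1) (nat_lit 0x400200020008053602))))) (.nd (nat_lit 6) 
(.lf (nat_lit 3758172582) (dlOf (nat_lit 1) (nat_lit 0x200080d4e81))) 
(.lf (nat_lit 1208035814) (dlOf (nat_lit 1) (nat_lit 0x560018094e81)))))) (.nd (nat_lit 6) 
(.nd (nat_lit 20) (.nd (nat_lit 21) 
(.lf (nat_lit 3892912166) (dlOf (nat_lit 4) (nat_lit 0x400cc001002c001630400020470009781000a0238002f00801c00080008002001a0008290d83))) 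
(.lf (nat_lit 2754158630) (dlOf (nat_lit 1) (nat_lit 0x5a00080c0b81)))) (.nd (nat_lit 7) 
(.lf (nat_lit 2753110566) (dlOf (nat_lit 1) (nat_lit 0xc00400020018090e02))) 
(.lf (nat_lit 37299366) (dlOf (nat_lit 1) (nat_lit 0x200290d2c01))))) (.nd (nat_lit 10) 
(.nd (nat_lit 8) (.nd (nat_lit 20) 
(.lf (nat_lit 42541158) (dlOf (nat_lit 2) (nat_lit 0x80000000004004000400260019260982))) 
(.lf (nat_lit 2753110118) (dlOf (nat_lit 1) (nat_lit 0x800400020008090002)))) 
(.lf (nat_lit 57223526) (dlOf (nat_lit 1) (nat_lit 0x80029794e81)))) (.nd (nat_lit 7) 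
(.lf (nat_lit 8988262) (dlOf (nat_lit 1) (nat_lit 0x20018513901))) 
(.lf (nat_lit 20524262) (dlOf (nat_lit 1) (nat_lit 0x180080040002001200089d6503))))))) 
(.nd (nat_lit 29) (.nd (nat_lit 7) (.nd (nat_lit 19) (.nd (nat_lit 20) (.nd (nat_lit 8) 
(.lf (nat_lit 5503002158) (dlOf (nat_lit 1) (nat_lit 0x40008003781))) 
(.lf (nat_lit 3221299502) (dlOf (nat_lit 5) (nat_lit 0x570170000f00800c808000070040074040000370200300200001a818090500)))) 
(.nd (nat_lit 21) (.lf (nat_lit 38871086) (dlOf (nat_lit 1) (nat_lit 0x60029170281))) 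
(.lf (nat_lit 7413806) (dlOf (nat_lit 1) (nat_lit 0xc8008008c002002c00084b0003))))) 
(.nd (nat_lit 23) (.lf (nat_lit 4362674222) (dlOf (nat_lit 1) (nat_lit 0x4004000600080d0f82))) 
(.lf (nat_lit 42541102) (dlOf (nat_lit 1) (nat_lit 0x60029260281))))) (.nd (nat_lit 6) 
(.nd (nat_lit 8) (.lf (nat_lit 20003502) (dlOf (nat_lit 1) (nat_lit 0x4002000200089db782))) 
(.nd (nat_lit 9) (.lf (nat_lit 1275142574) (dlOf (nat_lit 2) (nat_lit 0x5201b0004b018091000))) 
(.lf (nat_lit 3355521966) (dlOf (nat_lit 1) (nat_lit 0x2c00280a9181))))) (.nd (nat_lit 8) 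
(.lf (nat_lit 67707118) (dlOf (nat_lit 1) (nat_lit 0x1c00282d0601))) (.nd (nat_lit 19) 
(.lf (nat_lit 50407918) (dlOf (nat_lit 2) (nat_lit 0x24a7000788194c4f00))) 
(.lf (nat_lit 33106414) (dlOf (nat_lit 1) (nat_lit 0x60028f54f01))))))) (.nd (nat_lit 31) 
(.nd (nat_lit 6) (.nd (nat_lit 8) (.nd (nat_lit 19) 
(.lf (nat_lit 738271278) (dlOf (nat_lit 1) (nat_lit 0x20028090001))) 
(.lf (nat_lit 1678319662) (dlOf (nat_lit 1) (nat_lit 0x80080004002000600081e0f83)))) 
(.lf (nat_lit 604059438) (dlOf (nat_lit 1) (nat_lit 0x2002800a101)))) (.nd (nat_lit 7) 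
(.lf (nat_lit 604058734) (dlOf (nat_lit 2) (nat_lit 0xb01f800078080040008000800200180008009403))) 
(.lf (nat_lit 738274286) (dlOf (nat_lit 1) (nat_lit 0x400200020008095e82))))) (.nd (nat_lit 19) 
(.nd (nat_lit 9) (.nd (nat_lit 20) 
(.lf (nat_lit 3959496750) (dlOf (nat_lit 1) (nat_lit 0x70008001800200640008090003))) 
(.lf (nat_lit 2752585774) (dlOf (nat_lit 2) (nat_lit 0x1e87fc0004004000c00400060008020582)))) 
(.nd (nat_lit 7) 
(.lf (nat_lit 2754686510) (dlOf (nat_lit 2) (nat_lit 0x3c03a0005402000200180f7181))) 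
(.lf (nat_lit 2751539118) (dlOf (nat_lit 1) (nat_lit 0x60008004381))))) (.nd (nat_lit 7) 
(.nd (nat_lit 22) 
(.lf (nat_lit 3892912174) (dlOf (nat_lit 2) (nat_lit 0x181900007e04000c00200020008290e82))) 
(.lf (nat_lit 2756255790) (dlOf (nat_lit 3) (nat_lit 0xe0000000a00803900000000004009800200080008230602)))) 
(.lf (nat_lit 2753110190) (dlOf (nat_lit 1) (nat_lit 0x40028090301)))))))) (.nd (nat_lit 3) 
(.nd (nat_lit 7) (.nd (nat_lit 21) (.nd (nat_lit 19) (.nd (nat_lit 8) (.nd (nat_lit 26) 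
(.lf (nat_lit 134553638) (dlOf (nat_lit 2) (nat_lit 0x3100a80005c080010008003c00200060008070783))) 
(.lf (nat_lit 201662502) (dlOf (nat_lit 2) (nat_lit 0x3100b000008080010008003c00200060008070783)))) 
(.lf (nat_lit 2886018854) (dlOf (nat_lit 1) (nat_lit 0x33800201f40008143d02)))) (.nd (nat_lit 6) 
(.nd (nat_lit 23) (.lf (nat_lit 2819432486) (dlOf (nat_lit 2) (nat_lit 0x1803400005018280600))) 
(.lf (nat_lit 59580454) (dlOf (nat_lit 2) (nat_lit 0xb4400005a03000000080084004006e0009810782)))) 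
(.lf (nat_lit 42803302) (dlOf (nat_lit 2) (nat_lit 0x383f100000019280980))))) (.nd (nat_lit 11) 
(.nd (nat_lit 20) (.nd (nat_lit 22) 
(.lf (nat_lit 2433062) (dlOf (nat_lit 1) (nat_lit 0xc400200400008160902))) 
(.lf (nat_lit 6627366) (dlOf (nat_lit 1) (nat_lit 0x400400020018440a82)))) 
(.lf (nat_lit 7675942) (dlOf (nat_lit 1) (nat_lit 0x4004000200184d0a82)))) (.nd (nat_lit 6) 
(.lf (nat_lit 53815846) (dlOf (nat_lit 1) (nat_lit 0x200195f5181))) 
(.lf (nat_lit 8206438) (dlOf (nat_lit 1) (nat_lit 0x28002001a000851a802)))))) (.nd (nat_lit 8) 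
(.nd (nat_lit 11) (.nd (nat_lit 27) (.nd (nat_lit 9) 
(.lf (nat_lit 4832174246) (dlOf (nat_lit 1) (nat_lit 0x800400020008101382))) 
(.lf (nat_lit 20263590) (dlOf (nat_lit 1) (nat_lit 0x80080004002000200089d8c83)))) 
(.nd (nat_lit 26) 
(.lf (nat_lit 1208295590) (dlOf (nat_lit 1) (nat_lit 0x38008000c002002a00080c1483))) 
(.lf (nat_lit 738533542) (dlOf (nat_lit 2) (nat_lit 0x20370000c0180a2c00))))) (.nd (nat_lit 6) 
(.lf (nat_lit 20262054) (dlOf (nat_lit 1) (nat_lit 0x80080004002000200089d6283))) (.nd (nat_lit 10) 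
(.lf (nat_lit 2886019302) (dlOf (nat_lit 1) (nat_lit 0x280080024002000e0008144b03))) 
(.lf (nat_lit 339174) (dlOf (nat_lit 1) (nat_lit 0x400200020008006502)))))) (.nd (nat_lit 9) 
(.nd (nat_lit 21) 
(.lf (nat_lit 43852198) (dlOf (nat_lit 2) (nat_lit 0x3607000598080050008008c002007c00092a1003))) 
(.lf (nat_lit 8200614) (dlOf (nat_lit 1) (nat_lit 0x400200020008511002)))) (.nd (nat_lit 6) 
(.nd (nat_lit 23) (.lf (nat_lit 2751801254) (dlOf (nat_lit 1) (nat_lit 0x20028004301))) 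
(.lf (nat_lit 8726438) (dlOf (nat_lit 1) (nat_lit 0x20028514301)))) 
(.lf (nat_lit 47522790) (dlOf (nat_lit 1) (nat_lit 0x8008000400200020009402883))))))) 
(.nd (nat_lit 21) (.nd (nat_lit 26) (.nd (nat_lit 9) (.nd (nat_lit 30) (.nd (nat_lit 6) 
(.nd (nat_lit 19) 
(.lf (nat_lit 134553646) (dlOf (nat_lit 5) (nat_lit 0xf02580d0010801dc08200e603e001201e804e80e40048062005201900270090065804400050280328086001c041002401d000094180648108033c0220001e0401bc0110000c018070900))) 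
(.lf (nat_lit 43851822) (dlOf (nat_lit 1) (nat_lit 0x1180080028002007c00092a0003)))) 
(.lf (nat_lit 21307502) (dlOf (nat_lit 3) (nat_lit 0x7ed300003808006769800000040044004001e0008a30a82)))) 
(.nd (nat_lit 29) 
(.lf (nat_lit 3221561390) (dlOf (nat_lit 1) (nat_lit 0x20008000400200120008140603))) 
(.lf (nat_lit 5905915950) (dlOf (nat_lit 12) (nat_lit 0x7001280011c0803800940008c04019c04a0118017000228200680128045805c000880801c004a00043020028025000208100700128001000803800940007c0401c004a0003a0200e00250001c01004b0128049005c0006a08003400400100018160582))))) 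
(.nd (nat_lit 7) (.lf (nat_lit 21307950) (dlOf (nat_lit 2) (nat_lit 0x30d6600011818a38000))) 
(.lf (nat_lit 537734830) (dlOf (nat_lit 1) (nat_lit 0x5800280f7281))))) (.nd (nat_lit 27) 
(.nd (nat_lit 6) (.nd (nat_lit 8) 
(.lf (nat_lit 6509895726) (dlOf (nat_lit 12) (nat_lit 0x7001300011c0803800980008c04019c04c0118017000228200680130045805c000880801c004c00043020028026000208100700130001000803800980007c0401c004c0003a0200e00260001c01004b0130049005c0006a08003400400100018160582))) 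
(.lf (nat_lit 2751801646) (dlOf (nat_lit 1) (nat_lit 0x40028004b81)))) 
(.lf (nat_lit 2755993710) (dlOf (nat_lit 3) (nat_lit 0x7814c000680400380c4001c041000d01d800700880038036001c003000190681c1500)))) 
(.nd (nat_lit 29) (.nd (nat_lit 31) 
(.lf (nat_lit 201662510) (dlOf (nat_lit 14) (nat_lit 0x3012c09e808402be041017501f001980f403540720154031000100d0002805009c80220014010000140b001a02100009c0802f0154000409609c6043036b0210278010411dc07e07f403d049a01d001280e409900700370035037b00a01b7804c0d0002406ac011003c008001b80000004a4400d808200021020162041000100101a5020806980c4000405806560110000f040009021013800440003a0803900220001c02012e0110000d0100710088000640803c810402c406205860110000c03001300880005c0800080580000404006000401660018070802))) 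
(.lf (nat_lit 2349146158) (dlOf (nat_lit 2) (nat_lit 0x63008000e800c00000080008002000200080d0b02)))) 
(.lf (nat_lit 3959758894) (dlOf (nat_lit 1) (nat_lit 0x20008000400200120008140603)))))) 
(.nd (nat_lit 9) (.nd (nat_lit 19) (.nd (nat_lit 8) (.nd (nat_lit 20) 
(.lf (nat_lit 2433070) (dlOf (nat_lit 1) (nat_lit 0x2c800200a80008160982))) 
(.lf (nat_lit 62201902) (dlOf (nat_lit 6) (nat_lit 0x114b60032a3c000d5150003981800f296c00814b2004ca4f002451d0016a8a0000ca1400754b60036a59000d527800728e80035450000640a003aa5b001d52c8007293c002d474000ea280003105001e52d800ea964003d49e0020a3a000f51400017c280200008001000200060009970d03)))) 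
(.lf (nat_lit 40183086) (dlOf (nat_lit 1) (nat_lit 0x3000191f3201)))) (.nd (nat_lit 7) 
(.nd (nat_lit 22) 
(.lf (nat_lit 2957358) (dlOf (nat_lit 4) (nat_lit 0x502c0001e15400020a80006836400500e2000e065000e0060000a83800a058000081cc00040e3000706c800a81c4008c0ca00020630000f0700030808046000000020080054004000200081e0902))) 
(.lf (nat_lit 7151662) (dlOf (nat_lit 1) (nat_lit 0x4002000200084b0002)))) 
(.lf (nat_lit 8205742) (dlOf (nat_lit 1) (nat_lit 0x10002001c0008519902))))) (.nd (nat_lit 10) 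
(.nd (nat_lit 11) (.nd (nat_lit 20) 
(.lf (nat_lit 23405102) (dlOf (nat_lit 19) (nat_lit 0x19322c00b38700001f820057c8b0000f808030e45801c30e00003d0400c99160076c380000d81002f645801bb0e0000340400919160055c380000a8100266458014b0e0000230400f7916007bc3800008010013e458006b0e00001f0400b39160000f01005bc8b0027e1c00003808010722c0001a0200619160000c810046c8b0049e1c00001808016322c0000b02006391600005010070c8b003be1c00001208003b55e00b99160062c380000001803300080028002003c0008b80e83))) 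
(.lf (nat_lit 58008110) (dlOf (nat_lit 3) (nat_lit 0x345ed000228100092f680010c0801a800800b8002004600097a8a83)))) 
(.lf (nat_lit 36514350) (dlOf (nat_lit 1) (nat_lit 0x4002005e0009075182)))) (.nd (nat_lit 6) 
(.nd (nat_lit 8) 
(.lf (nat_lit 2754948654) (dlOf (nat_lit 1) (nat_lit 0x23800800d4002000800080f7183))) 
(.lf (nat_lit 19740462) (dlOf (nat_lit 1) (nat_lit 0x200289da101)))) 
(.lf (nat_lit 20264558) (dlOf (nat_lit 1) (nat_lit 0x1880080024002005a00089d9c83))))))))) 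
(.nd (nat_lit 27) (.nd (nat_lit 18) (.nd (nat_lit 3) (.nd (nat_lit 7) (.nd (nat_lit 19) 
(.nd (nat_lit 6) (.nd (nat_lit 8) 
(.lf (nat_lit 5167458854) (dlOf (nat_lit 1) (nat_lit 0x40028055181))) 
(.lf (nat_lit 1409363238) (dlOf (nat_lit 1) (nat_lit 0x400400040018006802)))) 
(.lf (nat_lit 4563476838) (dlOf (nat_lit 1) (nat_lit 0x3a0028090e81)))) (.nd (nat_lit 6) 
(.nd (nat_lit 9) (.lf (nat_lit 3492356134) (dlOf (nat_lit 1) (nat_lit 0x5a00080c0b81))) 
(.lf (nat_lit 3491308070) (dlOf (nat_lit 1) (nat_lit 0xc00400020018090e02)))) 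
(.lf (nat_lit 1409884262) (dlOf (nat_lit 1) (nat_lit 0x80080004002000200080a1383))))) 
(.nd (nat_lit 6) (.nd (nat_lit 8) 
(.lf (nat_lit 1342256806) (dlOf (nat_lit 1) (nat_lit 0x800802e8002005c000800a003))) 
(.nd (nat_lit 9) (.lf (nat_lit 4563478950) (dlOf (nat_lit 1) (nat_lit 0xe0028094e81))) 
(.lf (nat_lit 5637221286) (dlOf (nat_lit 1) (nat_lit 0x820028055d01))))) (.nd (nat_lit 10) 
(.lf (nat_lit 4563476710) (dlOf (nat_lit 1) (nat_lit 0xb0008004c00200680008090a83))) 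
(.lf (nat_lit 3489737958) (dlOf (nat_lit 1) (nat_lit 0x120008006501)))))) (.nd (nat_lit 31) 
(.nd (nat_lit 8) (.nd (nat_lit 6) (.nd (nat_lit 7) 
(.lf (nat_lit 805904430) (dlOf (nat_lit 1) (nat_lit 0x80080004002000600081e0f83))) 
(.lf (nat_lit 1342257838) (dlOf (nat_lit 1) (nat_lit 0x6001800b781)))) 
(.lf (nat_lit 1342257262) (dlOf (nat_lit 3) (nat_lit 0x1814e001303f002a981000a8584004829c003607e000701500291c20002000800040020018000800a883)))) 
(.nd (nat_lit 6) (.nd (nat_lit 10) 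
(.lf (nat_lit 5704330030) (dlOf (nat_lit 3) (nat_lit 0x2500c0002500800200600012604001000400040018055c02))) 
(.lf (nat_lit 1342256942) (dlOf (nat_lit 3) (nat_lit 0x141650001001000404700007008001000800100020006000800a103)))) 
(.lf (nat_lit 4563479406) (dlOf (nat_lit 1) (nat_lit 0x60028095c01))))) (.nd (nat_lit 10) 
(.nd (nat_lit 19) (.nd (nat_lit 26) 
(.lf (nat_lit 3490783278) (dlOf (nat_lit 2) (nat_lit 0x1e87b40004004000c00400060008020582))) 
(.lf (nat_lit 4094763054) (dlOf (nat_lit 1) (nat_lit 0x20028050001)))) (.nd (nat_lit 7) 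
(.lf (nat_lit 3494453294) (dlOf (nat_lit 3) (nat_lit 0xe0000000b80803900000000004009800200080008230602))) 
(.lf (nat_lit 3491307694) (dlOf (nat_lit 1) (nat_lit 0x40028090301))))) (.nd (nat_lit 6) 
(.nd (nat_lit 9) (.lf (nat_lit 4093715758) (dlOf (nat_lit 1) (nat_lit 0x20028003201))) 
(.lf (nat_lit 2952869678) (dlOf (nat_lit 2) (nat_lit 0x100a0001140800a800800340020028000800a103)))) 
(.lf (nat_lit 2952868974) (dlOf (nat_lit 1) (nat_lit 0x1400008009401))))))) (.nd (nat_lit 31) 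
(.nd (nat_lit 30) (.nd (nat_lit 6) (.nd (nat_lit 7) 
(.lf (nat_lit 4563738662) (dlOf (nat_lit 1) (nat_lit 0x8c004004200080d0202))) (.nd (nat_lit 26) 
(.lf (nat_lit 5100609702) (dlOf (nat_lit 1) (nat_lit 0x78008000400200260008101483))) 
(.lf (nat_lit 872751270) (dlOf (nat_lit 1) (nat_lit 0x4004000200080c1382))))) (.nd (nat_lit 3) 
(.lf (nat_lit 4563738726) (dlOf (nat_lit 1) (nat_lit 0x200180d0781))) 
(.lf (nat_lit 5100609646) (dlOf (nat_lit 1) (nat_lit 0x23800200a60008100a82))))) (.nd (nat_lit 20) 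
(.nd (nat_lit 3) (.nd (nat_lit 19) 
(.lf (nat_lit 1342513190) (dlOf (nat_lit 12) (nat_lit 0x80e88005073c000c39a00141cb00050e280015428006873c000a804002c3a2000e1c5000298200030e8800148080030744002839e000a1cd000b0e28000dc2000107140006c04002c3a200081c50001a8200060e88000d0080010744000c38a000330400101d100070e28000c81000085fc0005404006c00400480018040582))) 
(.lf (nat_lit 1343037478) (dlOf (nat_lit 1) (nat_lit 0x9e0008140501)))) 
(.lf (nat_lit 1343037486) (dlOf (nat_lit 5) (nat_lit 0x4822800010f70001481004087b80009e04002449200121f200010e3800386f400242f8000460a00041bd00022818140600)))) 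
(.nd (nat_lit 6) (.lf (nat_lit 1346183206) (dlOf (nat_lit 1) (nat_lit 0x218004002a0008e60202))) 
(.lf (nat_lit 1346183270) (dlOf (nat_lit 4) (nat_lit 0x10160001006c800c03600018138001808d0007046000038300030580002c1b2000609c000804680003020002858000301b2001609c00040468000002004f0008000800200180008e60983)))))) 
(.nd (nat_lit 6) (.nd (nat_lit 8) (.nd (nat_lit 3) (.nd (nat_lit 19) 
(.lf (nat_lit 3020234790) (dlOf (nat_lit 2) (nat_lit 0x4060000b702000c00181a0601))) 
(.lf (nat_lit 3557629990) (dlOf (nat_lit 2) (nat_lit 0x10378002dc080050008007400200040008280603)))) 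
(.lf (nat_lit 2483363886) (dlOf (nat_lit 2) (nat_lit 0x63008000e800c00000080008002000200080d0b02)))) 
(.nd (nat_lit 11) 
(.lf (nat_lit 4096075046) (dlOf (nat_lit 1) (nat_lit 0x80080004002000200080e3183))) 
(.lf (nat_lit 3490524454) (dlOf (nat_lit 1) (nat_lit 0x400200020008006802))))) (.nd (nat_lit 3) 
(.nd (nat_lit 7) 
(.lf (nat_lit 3557106022) (dlOf (nat_lit 1) (nat_lit 0x38008001c00200060008130983))) 
(.lf (nat_lit 3490000358) (dlOf (nat_lit 2) (nat_lit 0x1503d80001c080038008002c00200020008006e83)))) 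
(.nd (nat_lit 7) 
(.lf (nat_lit 3494191214) (dlOf (nat_lit 3) (nat_lit 0x7814c000680400380c4001c041000d01d800700880038036001c003000190681c1500))) 
(.lf (nat_lit 3490000110) (dlOf (nat_lit 1) (nat_lit 0x20018006501)))))))) (.nd (nat_lit 32) 
(.nd (nat_lit 18) (.nd (nat_lit 8) (.nd (nat_lit 6) (.nd (nat_lit 3) (.nd (nat_lit 11) 
(.lf (nat_lit 471932966) (dlOf (nat_lit 1) (nat_lit 0x4002000200086d0a82))) 
(.lf (nat_lit 469837862) (dlOf (nat_lit 1) (nat_lit 0x700080004002001e0008004703)))) 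
(.lf (nat_lit 4228456494) (dlOf (nat_lit 1) (nat_lit 0x4004000600080d0f82)))) (.nd (nat_lit 7) 
(.nd (nat_lit 10) 
(.lf (nat_lit 474554470) (dlOf (nat_lit 2) (nat_lit 0x1a82ac00ce14300570660001081801800080044002005e00091a0983))) 
(.lf (nat_lit 1543580774) (dlOf (nat_lit 1) (nat_lit 0x20028146081)))) 
(.lf (nat_lit 2550213862) (dlOf (nat_lit 1) (nat_lit 0x8008002800200160008006503))))) 
(.nd (nat_lit 3) (.nd (nat_lit 6) (.nd (nat_lit 7) 
(.lf (nat_lit 402728230) (dlOf (nat_lit 1) (nat_lit 0x40018093181))) 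
(.lf (nat_lit 3154192806) (dlOf (nat_lit 1) (nat_lit 0x20002011e0008104e82)))) 
(.lf (nat_lit 1006707174) (dlOf (nat_lit 1) (nat_lit 0x20018017d01)))) (.nd (nat_lit 6) 
(.nd (nat_lit 10) (.lf (nat_lit 2617320238) (dlOf (nat_lit 1) (nat_lit 0x5200280a2201))) 
(.lf (nat_lit 1476474670) (dlOf (nat_lit 1) (nat_lit 0x180020008000800a102)))) 
(.lf (nat_lit 1543581166) (dlOf (nat_lit 1) (nat_lit 0x140028146f01)))))) (.nd (nat_lit 19) 
(.nd (nat_lit 3) (.nd (nat_lit 7) (.nd (nat_lit 20) (.nd (nat_lit 22) 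
(.lf (nat_lit 470097958) (dlOf (nat_lit 12) (nat_lit 0x80e88005073c000c39a00141cb00050e280015428006873c000a804002c3a2000e1c5000298200030e8800148080030744002839e000a1cd000b0e28000dc2000107140006c04002c3a200081c50001a8200060e88000d0080010744000c38a000330400101d100070e28000c81000085e80005404006c00400480018040582))) 
(.lf (nat_lit 474292262) (dlOf (nat_lit 1) (nat_lit 0x180019120201)))) 
(.lf (nat_lit 471146534) (dlOf (nat_lit 1) (nat_lit 0x60018280601)))) 
(.lf (nat_lit 2080710822) (dlOf (nat_lit 1) (nat_lit 0x4004000200080c1382)))) 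
(.lf (nat_lit 2617581614) (dlOf (nat_lit 2) (nat_lit 0x3602f00000018100780)))) (.nd (nat_lit 3) 
(.nd (nat_lit 9) (.lf (nat_lit 470622246) (dlOf (nat_lit 1) (nat_lit 0x9e0008140501))) 
(.lf (nat_lit 473770534) (dlOf (nat_lit 2) (nat_lit 0x1019a0008b0200020018fa5181)))) 
(.lf (nat_lit 470622254) (dlOf (nat_lit 5) (nat_lit 0x4822800010f700012c1004087b80009004002449200121f300010e3800386f4002430c0003f0a00041bd0001f018140600)))))) 
(.nd (nat_lit 9) (.nd (nat_lit 6) (.nd (nat_lit 20) (.nd (nat_lit 3) (.nd (nat_lit 7) 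
(.lf (nat_lit 4697956390) (dlOf (nat_lit 1) (nat_lit 0x8c004004200080d0202))) 
(.lf (nat_lit 6308308390) (dlOf (nat_lit 2) (nat_lit 0x900c000264080020008000800200020008053603)))) 
(.lf (nat_lit 4697694638) (dlOf (nat_lit 2) (nat_lit 0x180480028a040004002000c0008091002)))) 
(.nd (nat_lit 3) (.nd (nat_lit 8) 
(.lf (nat_lit 6377250982) (dlOf (nat_lit 1) (nat_lit 0x4002000200080c1482))) 
(.lf (nat_lit 5773009318) (dlOf (nat_lit 1) (nat_lit 0x30008001800200020008091003)))) 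
(.lf (nat_lit 5772485038) (dlOf (nat_lit 1) (nat_lit 0xc000400120008091002))))) (.nd (nat_lit 3) 
(.nd (nat_lit 7) (.lf (nat_lit 4697956454) (dlOf (nat_lit 1) (nat_lit 0x200180d0781))) 
(.nd (nat_lit 26) (.lf (nat_lit 5773271270) (dlOf (nat_lit 1) (nat_lit 0x800280c1b81))) 
(.lf (nat_lit 6377251046) (dlOf (nat_lit 1) (nat_lit 0x20002000600080c1d82))))) (.nd (nat_lit 7) 
(.lf (nat_lit 4697694574) (dlOf (nat_lit 1) (nat_lit 0x880080014002002e0008090f83))) 
(.lf (nat_lit 4697695470) (dlOf (nat_lit 1) (nat_lit 0x7400200280008092e82)))))) (.nd (nat_lit 26) 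
(.nd (nat_lit 6) (.nd (nat_lit 7) (.nd (nat_lit 11) 
(.lf (nat_lit 5774058022) (dlOf (nat_lit 1) (nat_lit 0x400080f8801))) 
(.lf (nat_lit 5771700774) (dlOf (nat_lit 1) (nat_lit 0x800400020008005182)))) 
(.lf (nat_lit 5771701158) (dlOf (nat_lit 1) (nat_lit 0xc0008005d01)))) (.nd (nat_lit 7) 
(.lf (nat_lit 5234567782) (dlOf (nat_lit 1) (nat_lit 0x40018055381))) 
(.lf (nat_lit 4697695206) (dlOf (nat_lit 1) (nat_lit 0x120028092881))))) (.nd (nat_lit 20) 
(.nd (nat_lit 10) (.nd (nat_lit 18) 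
(.lf (nat_lit 5301676582) (dlOf (nat_lit 1) (nat_lit 0x40018005181))) 
(.lf (nat_lit 6376204838) (dlOf (nat_lit 1) (nat_lit 0x1bc0018095181)))) 
(.lf (nat_lit 6375417382) (dlOf (nat_lit 1) (nat_lit 0x400400160018003702)))) (.nd (nat_lit 3) 
(.nd (nat_lit 6) (.lf (nat_lit 6376466982) (dlOf (nat_lit 1) (nat_lit 0x400400020008095182))) 
(.lf (nat_lit 6376467046) (dlOf (nat_lit 1) (nat_lit 0x400400020008095382)))) 
(.lf (nat_lit 6376466990) (dlOf (nat_lit 1) (nat_lit 0x400400020008095182)))))))))) 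
(.nd (nat_lit 3) (.nd (nat_lit 28) (.nd (nat_lit 19) (.nd (nat_lit 29) (.nd (nat_lit 18) 
(.nd (nat_lit 21) (.nd (nat_lit 8) (.nd (nat_lit 7) (.nd (nat_lit 30) 
(.lf (nat_lit 4496498726) (dlOf (nat_lit 2) (nat_lit 0x1f00e0000000801800080050002005c0008090203))) 
(.lf (nat_lit 5570240550) (dlOf (nat_lit 1) (nat_lit 0x3000200060008090202)))) (.nd (nat_lit 6) 
(.lf (nat_lit 8599206) (dlOf (nat_lit 1) (nat_lit 0xe002851a001))) 
(.lf (nat_lit 9642214) (dlOf (nat_lit 2) (nat_lit 0x120330008418c000c00d00071838571b80))))) 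
(.nd (nat_lit 6) (.nd (nat_lit 9) (.lf (nat_lit 207142) (dlOf (nat_lit 1) (nat_lit 0x40028004b81))) 
(.lf (nat_lit 1141058342) (dlOf (nat_lit 3) (nat_lit 0x4026000f30100ef0130007340800600080028002000e0008095c03)))) 
(.lf (nat_lit 67314022) (dlOf (nat_lit 1) (nat_lit 0x80080004002000200080b0983))))) 
(.nd (nat_lit 20) (.nd (nat_lit 22) 
(.lf (nat_lit 52633638) (dlOf (nat_lit 2) (nat_lit 0x1b7528001b8c40000008008400200380009560782))) 
(.lf (nat_lit 14884902) (dlOf (nat_lit 1) (nat_lit 0x20028790281)))) (.nd (nat_lit 6) 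
(.lf (nat_lit 20132518) (dlOf (nat_lit 1) (nat_lit 0x4002000200089d8c82))) 
(.lf (nat_lit 45294694) (dlOf (nat_lit 1) (nat_lit 0x400200020009322982)))))) (.nd (nat_lit 20) 
(.nd (nat_lit 7) (.nd (nat_lit 9) (.nd (nat_lit 21) 
(.lf (nat_lit 21438502) (dlOf (nat_lit 1) (nat_lit 0x160028a40201))) 
(.lf (nat_lit 15147046) (dlOf (nat_lit 2) (nat_lit 0x1be8640017e040050004002a00187c0602)))) 
(.lf (nat_lit 46606886) (dlOf (nat_lit 1) (nat_lit 0x5a0019385181)))) (.nd (nat_lit 6) 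
(.lf (nat_lit 54993062) (dlOf (nat_lit 1) (nat_lit 0x20009681481))) 
(.lf (nat_lit 23536102) (dlOf (nat_lit 1) (nat_lit 0x8008000400200020008b80c83))))) 
(.nd (nat_lit 9) (.nd (nat_lit 23) 
(.lf (nat_lit 18292774) (dlOf (nat_lit 4) (nat_lit 0xc78ce00026020035c670000881001be33800034080198008000800200060008920783))) 
(.lf (nat_lit 9904166) (dlOf (nat_lit 3) (nat_lit 0x2d1480001408001e8a40000004004c00200400008590982)))) 
(.nd (nat_lit 21) (.lf (nat_lit 51849766) (dlOf (nat_lit 1) (nat_lit 0x60029515181))) 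
(.lf (nat_lit 53946918) (dlOf (nat_lit 1) (nat_lit 0xc00080064002000400095f5183))))))) 
(.nd (nat_lit 8) (.nd (nat_lit 26) (.nd (nat_lit 6) 
(.lf (nat_lit 3892781094) (dlOf (nat_lit 5) (nat_lit 0x15028800f013c005c048000b2060012063000f02c00060118003807e001e03b00030138002243000b81a0000c08c002e03f000b0000002202000500ec001c0000008604001e0008260781))) 
(.nd (nat_lit 11) (.lf (nat_lit 2818781414) (dlOf (nat_lit 1) (nat_lit 0x2c002000a0008128082))) 
(.lf (nat_lit 5905787110) (dlOf (nat_lit 1) (nat_lit 0x340018144b01))))) (.nd (nat_lit 32) 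
(.nd (nat_lit 20) 
(.lf (nat_lit 604184614) (dlOf (nat_lit 4) (nat_lit 0x14086000a019000c782000c01b0002740802301140000004000c00200200008080602))) 
(.lf (nat_lit 2752716838) (dlOf (nat_lit 2) (nat_lit 0xa1ff0000e818030a00)))) (.nd (nat_lit 9) 
(.lf (nat_lit 4899151910) (dlOf (nat_lit 1) (nat_lit 0x200080a0c01))) 
(.lf (nat_lit 6107114022) (dlOf (nat_lit 1) (nat_lit 0x800400020008095182)))))) (.nd (nat_lit 7) 
(.nd (nat_lit 9) (.nd (nat_lit 27) 
(.lf (nat_lit 537078054) (dlOf (nat_lit 1) (nat_lit 0x20028004b81))) 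
(.lf (nat_lit 671295782) (dlOf (nat_lit 1) (nat_lit 0x1c0018144b81)))) (.nd (nat_lit 10) 
(.lf (nat_lit 738405158) (dlOf (nat_lit 1) (nat_lit 0x7400400040018095c02))) 
(.lf (nat_lit 2818780966) (dlOf (nat_lit 1) (nat_lit 0x40018127481))))) (.nd (nat_lit 6) 
(.nd (nat_lit 9) (.lf (nat_lit 2818781606) (dlOf (nat_lit 1) (nat_lit 0xc00200020008128402))) 
(.lf (nat_lit 5905786790) (dlOf (nat_lit 1) (nat_lit 0x2260028144301)))) (.nd (nat_lit 9) 
(.lf (nat_lit 3825410534) (dlOf (nat_lit 7) (nat_lit 0x3800b000c004800480000005e0c022001600ea00900710000000b418048802c000560402480160002a02012800b000140100160058000980802b0008004000200120008157303))) 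
(.lf (nat_lit 738405350) (dlOf (nat_lit 1) (nat_lit 0x400200020008095e82)))))))) (.nd (nat_lit 20) 
(.nd (nat_lit 24) (.nd (nat_lit 26) (.nd (nat_lit 27) 
(.lf (nat_lit 537600038) (dlOf (nat_lit 1) (nat_lit 0x1080080068002004200080d0903))) 
(.lf (nat_lit 134946854) (dlOf (nat_lit 5) (nat_lit 0x910000001bc0800100c4000520400a800000022020006031002b00880018000000000c009000400b400080e0502)))) 
(.nd (nat_lit 8) (.nd (nat_lit 27) 
(.lf (nat_lit 4362805286) (dlOf (nat_lit 11) (nat_lit 0x4f80530375023800101140598066020202d0002485014002980c0811c002806601d002d000240404280298004014400100960af20470008022810b00cc090005a006802400023080488029814f014400380960b7e047000b022818600cc044c05a0062024001800e001080240008a2801000a600040470002202002b02e0289014c192408e05aa0330001f8403e9029009381180180082048e0330001d04048a0290018814416a008c07f00450021020819980cc000701804ac0b608fe052059c023019280cc054c02e000340a014805201c70230000b010043000801dc00201ba0008100503)))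 
(.lf (nat_lit 202055718) (dlOf (nat_lit 5) (nat_lit 0x910000001bc0800100c4000520400a800000022020006031002b00880018000000000c009000400b400080e0502)))) 
(.lf (nat_lit 738926886) (dlOf (nat_lit 2) (nat_lit 0x301680013804003400400080008148082))))) 
(.nd (nat_lit 9) (.nd (nat_lit 18) 
(.lf (nat_lit 21700646) (dlOf (nat_lit 1) (nat_lit 0x20028a60c01))) 
(.lf (nat_lit 21962790) (dlOf (nat_lit 1) (nat_lit 0x18008001c002000c0008a80a03)))) 
(.nd (nat_lit 6) 
(.lf (nat_lit 19869478) (dlOf (nat_lit 3) (nat_lit 0xab2180098c04005590c004c502004400289d7481))) 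
(.lf (nat_lit 61548134) (dlOf (nat_lit 2) (nat_lit 0x2e52d80000008008800801c400200260009923903)))))) 
(.nd (nat_lit 21) (.nd (nat_lit 18) (.nd (nat_lit 7) (.nd (nat_lit 23) 
(.lf (nat_lit 22749222) (dlOf (nat_lit 1) (nat_lit 0x420028b20601))) 
(.lf (nat_lit 31137830) (dlOf (nat_lit 1) (nat_lit 0x10004000a0018e70782)))) 
(.lf (nat_lit 68887718) (dlOf (nat_lit 1) (nat_lit 0x4002000200087e2c02)))) (.nd (nat_lit 6) 
(.lf (nat_lit 23011366) (dlOf (nat_lit 2) (nat_lit 0x980000006404008000200400008b40602))) 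
(.nd (nat_lit 9) (.lf (nat_lit 52371558) (dlOf (nat_lit 1) (nat_lit 0x70002000a0009530982))) 
(.lf (nat_lit 43984486) (dlOf (nat_lit 1) (nat_lit 0x4004000200192a3902)))))) (.nd (nat_lit 7) 
(.nd (nat_lit 6) (.nd (nat_lit 9) 
(.lf (nat_lit 3874854) (dlOf (nat_lit 2) (nat_lit 0x3098e000470200020018240b81))) 
(.lf (nat_lit 41626150) (dlOf (nat_lit 1) (nat_lit 0xa0029245181)))) 
(.lf (nat_lit 45817958) (dlOf (nat_lit 1) (nat_lit 0x240019360981)))) (.nd (nat_lit 6) 
(.nd (nat_lit 18) (.lf (nat_lit 8069542) (dlOf (nat_lit 1) (nat_lit 0x20018511001))) 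
(.lf (nat_lit 8331686) (dlOf (nat_lit 1) (nat_lit 0x400200020008511002)))) 
(.lf (nat_lit 54206694) (dlOf (nat_lit 1) (nat_lit 0x1c0019650a81)))))))) (.nd (nat_lit 31) 
(.nd (nat_lit 30) (.nd (nat_lit 8) (.nd (nat_lit 9) (.nd (nat_lit 6) (.nd (nat_lit 19) 
(.lf (nat_lit 1008934950) (dlOf (nat_lit 1) (nat_lit 0x3e0028ff0781))) 
(.lf (nat_lit 471539750) (dlOf (nat_lit 1) (nat_lit 0xc00400040008320782)))) 
(.lf (nat_lit 473899110) (dlOf (nat_lit 2) (nat_lit 0x4e0d900000018fc0980)))) (.nd (nat_lit 18) 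
(.lf (nat_lit 4630719014) (dlOf (nat_lit 1) (nat_lit 0xc00400020008095182))) 
(.lf (nat_lit 472328742) (dlOf (nat_lit 1) (nat_lit 0x800200020008985182))))) (.nd (nat_lit 7) 
(.nd (nat_lit 6) (.lf (nat_lit 4764935462) (dlOf (nat_lit 1) (nat_lit 0x400400020008093182))) 
(.lf (nat_lit 471802214) (dlOf (nat_lit 1) (nat_lit 0x400200020008520982)))) (.nd (nat_lit 9) 
(.nd (nat_lit 11) (.lf (nat_lit 872620454) (dlOf (nat_lit 1) (nat_lit 0x2f8002014a0008091002))) 
(.lf (nat_lit 472328614) (dlOf (nat_lit 1) (nat_lit 0x18008001000200040008984e83)))) 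
(.lf (nat_lit 4630719398) (dlOf (nat_lit 1) (nat_lit 0x400400020008095d02)))))) (.nd (nat_lit 27) 
(.nd (nat_lit 6) (.nd (nat_lit 8) (.nd (nat_lit 19) 
(.lf (nat_lit 6174220326) (dlOf (nat_lit 1) (nat_lit 0x3000200060008090202))) 
(.lf (nat_lit 1410015270) (dlOf (nat_lit 1) (nat_lit 0x1080080068002004200080d0903)))) 
(.lf (nat_lit 1409494310) (dlOf (nat_lit 1) (nat_lit 0x20028006801)))) (.nd (nat_lit 8) 
(.lf (nat_lit 1344480358) (dlOf (nat_lit 1) (nat_lit 0x20008802981))) 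
(.lf (nat_lit 1409497958) (dlOf (nat_lit 1) (nat_lit 0x6002800bc81))))) (.nd (nat_lit 6) 
(.nd (nat_lit 7) (.nd (nat_lit 18) 
(.lf (nat_lit 2080580902) (dlOf (nat_lit 1) (nat_lit 0x400200020008093182))) 
(.lf (nat_lit 5772354854) (dlOf (nat_lit 1) (nat_lit 0x400200020008093182)))) 
(.lf (nat_lit 1543711910) (dlOf (nat_lit 1) (nat_lit 0x140028146281)))) (.nd (nat_lit 10) 
(.lf (nat_lit 6376333542) (dlOf (nat_lit 2) (nat_lit 0x184800011c04000800200080008090a82))) 
(.lf (nat_lit 2080580838) (dlOf (nat_lit 1) (nat_lit 0x400400020008092e02))))))) (.nd (nat_lit 7) 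
(.nd (nat_lit 19) (.nd (nat_lit 29) (.nd (nat_lit 6) 
(.lf (nat_lit 3490914342) (dlOf (nat_lit 2) (nat_lit 0xa1ed0000e818030a00))) (.nd (nat_lit 11) 
(.lf (nat_lit 3494060390) (dlOf (nat_lit 1) (nat_lit 0x200281b0701))) 
(.lf (nat_lit 3624085862) (dlOf (nat_lit 1) (nat_lit 0x1f80028144e81))))) (.nd (nat_lit 18) 
(.nd (nat_lit 30) 
(.lf (nat_lit 2952994854) (dlOf (nat_lit 10) (nat_lit 0x21009c008c04a002a004001b001801d00000016e14009c008005e0030005b02002a0020017000c001660800dc008007e00300058820037002001f000c0001a0800d4008006a0030000502002b0020001800c000120800a40080058003000040200230020014000c0000008004000200020008080602))) 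
(.lf (nat_lit 4026736678) (dlOf (nat_lit 1) (nat_lit 0x20008001000200040008080983)))) 
(.lf (nat_lit 4228325414) (dlOf (nat_lit 1) (nat_lit 0x2a8008000400200540008090003))))) 
(.nd (nat_lit 11) (.nd (nat_lit 20) (.nd (nat_lit 27) 
(.lf (nat_lit 3557498918) (dlOf (nat_lit 4) (nat_lit 0x402d8001040800b016c0007c0400040b60003d02002c0028230881))) 
(.lf (nat_lit 4228587558) (dlOf (nat_lit 11) (nat_lit 0x4f804c0375020000100f80598064020202c0002305014002600c08100002806401d002c000228404280260004012800100880af2040000801f010b00c80900058006802400021880488026014f012800380880b7e040000b01f018600c8044c0580062024001800e001080240008428010009800040400002082002b02a82890130192408005aa0320001f8403e9025809380fc0180074048e0320001c04048a0258018812816a007e07f003e002101d019980c80006c1804ac0a808fe04b059c01f819280c8054c02e000340a014804b01c701f8000b010043000801dc00201ba0008100503)))) 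
(.lf (nat_lit 4095418406) (dlOf (nat_lit 1) (nat_lit 0x1400080b0c01)))) (.nd (nat_lit 9) 
(.lf (nat_lit 3492751398) (dlOf (nat_lit 1) (nat_lit 0xa00080014002000800080f4703))) 
(.lf (nat_lit 4094372390) (dlOf (nat_lit 1) (nat_lit 0x400400020008055182)))))) (.nd (nat_lit 6) 
(.nd (nat_lit 8) (.nd (nat_lit 9) 
(.lf (nat_lit 3490131110) (dlOf (nat_lit 1) (nat_lit 0x1c004000c0008006282))) 
(.lf (nat_lit 3492751014) (dlOf (nat_lit 1) (nat_lit 0x4004000a00180f3a82)))) (.nd (nat_lit 9) 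
(.lf (nat_lit 3556979110) (dlOf (nat_lit 1) (nat_lit 0xc00200020008128402))) (.nd (nat_lit 11) 
(.lf (nat_lit 2617455526) (dlOf (nat_lit 1) (nat_lit 0x1400080a9101))) 
(.lf (nat_lit 4094897062) (dlOf (nat_lit 1) (nat_lit 0x20028055d01)))))) (.nd (nat_lit 18) 
(.nd (nat_lit 8) (.lf (nat_lit 3490393318) (dlOf (nat_lit 1) (nat_lit 0x4002000a0008006502))) 
(.lf (nat_lit 3087213030) (dlOf (nat_lit 2) (nat_lit 0x50058012800800980080018002000a0008157d03)))) 
(.nd (nat_lit 19) (.nd (nat_lit 27) 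
(.lf (nat_lit 2416386534) (dlOf (nat_lit 1) (nat_lit 0x380080028002001000081b0c83))) 
(.lf (nat_lit 2550604262) (dlOf (nat_lit 1) (nat_lit 0x380080028002001000081b0c83)))) 
(.lf (nat_lit 3490652646) (dlOf (nat_lit 2) (nat_lit 0x61e600011018017300))))))))) 
(.nd (nat_lit 18) (.nd (nat_lit 26) (.nd (nat_lit 8) (.nd (nat_lit 30) (.nd (nat_lit 21) 
(.nd (nat_lit 7) (.nd (nat_lit 19) (.nd (nat_lit 23) 
(.lf (nat_lit 134422574) (dlOf (nat_lit 5) (nat_lit 0x2004a000108100fe0250000800802c81280003a0400040940001b0200020018020581))) 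
(.lf (nat_lit 25370670) (dlOf (nat_lit 6) (nat_lit 0x3561a0005202000cb0d000288100095868001a6180009e08008d2ec0003202001a00000018818c00600)))) 
(.nd (nat_lit 24) 
(.lf (nat_lit 1777710) (dlOf (nat_lit 3) (nat_lit 0x450000000940800080000002004000400200020008130802))) 
(.lf (nat_lit 18554926) (dlOf (nat_lit 1) (nat_lit 0x1400200020008950802))))) (.nd (nat_lit 6) 
(.lf (nat_lit 805514926) (dlOf (nat_lit 1) (nat_lit 0x20018117281))) 
(.lf (nat_lit 8595694) (dlOf (nat_lit 1) (nat_lit 0x40028514b81))))) (.nd (nat_lit 6) 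
(.nd (nat_lit 22) 
(.lf (nat_lit 52633646) (dlOf (nat_lit 1) (nat_lit 0x280080010002002c0009560a03))) 
(.lf (nat_lit 14884910) (dlOf (nat_lit 1) (nat_lit 0x80008790401)))) (.nd (nat_lit 9) 
(.lf (nat_lit 44245102) (dlOf (nat_lit 1) (nat_lit 0x80080004002000200092e0c03))) (.nd (nat_lit 12) 
(.lf (nat_lit 8070766) (dlOf (nat_lit 1) (nat_lit 0x2000400060018513982))) 
(.lf (nat_lit 20133486) (dlOf (nat_lit 1) (nat_lit 0x18002003200089d9c82))))))) (.nd (nat_lit 28) 
(.nd (nat_lit 9) (.nd (nat_lit 7) 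
(.lf (nat_lit 1073946670) (dlOf (nat_lit 3) (nat_lit 0x21000000024040024000000110200040008030c01))) 
(.lf (nat_lit 5905787054) (dlOf (nat_lit 1) (nat_lit 0x20028144901)))) (.nd (nat_lit 6) 
(.lf (nat_lit 1611342382) (dlOf (nat_lit 1) (nat_lit 0x40018138a81))) 
(.lf (nat_lit 3892525678) (dlOf (nat_lit 1) (nat_lit 0x10008004c0020002000815b683))))) 
(.nd (nat_lit 31) (.nd (nat_lit 20) 
(.lf (nat_lit 1342382126) (dlOf (nat_lit 1) (nat_lit 0x400400040008020582))) 
(.lf (nat_lit 1343430702) (dlOf (nat_lit 1) (nat_lit 0x60018240881)))) (.nd (nat_lit 9) 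
(.lf (nat_lit 3490914350) (dlOf (nat_lit 2) (nat_lit 0x38346001616900016028030c00))) 
(.lf (nat_lit 3491439150) (dlOf (nat_lit 2) (nat_lit 0x7800800000018090e80))))))) (.nd (nat_lit 10) 
(.nd (nat_lit 9) (.nd (nat_lit 6) (.nd (nat_lit 7) 
(.lf (nat_lit 8599854) (dlOf (nat_lit 1) (nat_lit 0x80040006000851ab82))) 
(.lf (nat_lit 57354670) (dlOf (nat_lit 1) (nat_lit 0x240029794e81)))) 
(.lf (nat_lit 8599918) (dlOf (nat_lit 1) (nat_lit 0x2002851ac81)))) (.nd (nat_lit 11) 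
(.lf (nat_lit 2281906990) (dlOf (nat_lit 1) (nat_lit 0x2200080a2201))) 
(.lf (nat_lit 54209326) (dlOf (nat_lit 1) (nat_lit 0x760029655c01))))) (.nd (nat_lit 6) 
(.nd (nat_lit 7) (.nd (nat_lit 9) 
(.lf (nat_lit 2818784558) (dlOf (nat_lit 1) (nat_lit 0x2001812c681))) 
(.lf (nat_lit 210734) (dlOf (nat_lit 1) (nat_lit 0x900020008000800a102)))) 
(.lf (nat_lit 537077678) (dlOf (nat_lit 1) (nat_lit 0x400400360008004382)))) (.nd (nat_lit 7) 
(.lf (nat_lit 3489869166) (dlOf (nat_lit 1) (nat_lit 0x8008000400200040008006b03))) 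
(.nd (nat_lit 11) (.lf (nat_lit 4160959982) (dlOf (nat_lit 1) (nat_lit 0x200280a9c01))) 
(.lf (nat_lit 3624087022) (dlOf (nat_lit 1) (nat_lit 0x160028146f01)))))))) (.nd (nat_lit 7) 
(.nd (nat_lit 27) (.nd (nat_lit 20) (.nd (nat_lit 8) 
(.lf (nat_lit 1946361902) (dlOf (nat_lit 3) (nat_lit 0x21000000024040024000000110200040008030c01))) 
(.lf (nat_lit 1409494318) (dlOf (nat_lit 1) (nat_lit 0x20028006881)))) (.nd (nat_lit 9) 
(.lf (nat_lit 2752716846) (dlOf (nat_lit 2) (nat_lit 0x38370001616100017828030c00))) 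
(.lf (nat_lit 2753241646) (dlOf (nat_lit 2) (nat_lit 0x7800800000018090e80))))) (.nd (nat_lit 9) 
(.nd (nat_lit 28) (.nd (nat_lit 32) 
(.lf (nat_lit 201531438) (dlOf (nat_lit 5) (nat_lit 0x2004a000108100fe0250000800802c81280003a0400040940001b0200020018020581))) 
(.lf (nat_lit 4496498734) (dlOf (nat_lit 1) (nat_lit 0x3100080054002012a0008090383)))) 
(.lf (nat_lit 469966894) (dlOf (nat_lit 1) (nat_lit 0x400400040008020582)))) (.nd (nat_lit 6) 
(.lf (nat_lit 6643982894) (dlOf (nat_lit 1) (nat_lit 0x4004000200080b1482))) 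
(.lf (nat_lit 3422762606) (dlOf (nat_lit 2) (nat_lit 0xe01d800578080008008000c002000e00080a9c83)))))) 
(.nd (nat_lit 8) (.nd (nat_lit 19) (.nd (nat_lit 9) 
(.lf (nat_lit 474161326) (dlOf (nat_lit 10) (nat_lit 0x102a4001014f000407b800138180028548002029e000c0f7000268300040a90003853c00141ee0004306000615200070a7800203dc000840c00182a4001414f000a07b8000f8180030548002029e00160f70001e0300030a90001853c000760800142a4001614f0001b8200030a78000cc080178008000c002001a00090e0603))) 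
(.lf (nat_lit 2754817710) (dlOf (nat_lit 1) (nat_lit 0x5c002001e00080f7282)))) (.nd (nat_lit 6) 
(.lf (nat_lit 6377119918) (dlOf (nat_lit 1) (nat_lit 0x200280a2d81))) 
(.lf (nat_lit 6378168558) (dlOf (nat_lit 1) (nat_lit 0x200080010002000e0008111e83))))) 
(.nd (nat_lit 9) (.nd (nat_lit 6) 
(.lf (nat_lit 5033370030) (dlOf (nat_lit 1) (nat_lit 0x20008091001))) 
(.lf (nat_lit 474161646) (dlOf (nat_lit 1) (nat_lit 0xc002002400090e1382)))) (.nd (nat_lit 10) 
(.lf (nat_lit 1141058478) (dlOf (nat_lit 1) (nat_lit 0x200080020002000c0008095d03))) 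
(.lf (nat_lit 2751670190) (dlOf (nat_lit 1) (nat_lit 0x400400020018004382)))))))) (.nd (nat_lit 19) 
(.nd (nat_lit 26) (.nd (nat_lit 31) (.nd (nat_lit 6) (.nd (nat_lit 9) 
(.lf (nat_lit 19341358) (dlOf (nat_lit 1) (nat_lit 0x5800400040018980e82))) (.nd (nat_lit 11) 
(.lf (nat_lit 8857134) (dlOf (nat_lit 1) (nat_lit 0x30008003000200020008513783))) 
(.lf (nat_lit 20393518) (dlOf (nat_lit 1) (nat_lit 0x4004000200089d7182))))) (.nd (nat_lit 7) 
(.nd (nat_lit 22) (.lf (nat_lit 1611079790) (dlOf (nat_lit 1) (nat_lit 0x4004000800080d0c02))) 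
(.lf (nat_lit 54993006) (dlOf (nat_lit 1) (nat_lit 0x1000200040009680a82)))) 
(.lf (nat_lit 34021614) (dlOf (nat_lit 1) (nat_lit 0x2c004000e0008f91e82))))) (.nd (nat_lit 7) 
(.nd (nat_lit 27) 
(.lf (nat_lit 3758563374) (dlOf (nat_lit 1) (nat_lit 0x9800080470002017e00082a0803))) 
(.nd (nat_lit 28) 
(.lf (nat_lit 3892781102) (dlOf (nat_lit 2) (nat_lit 0x10088000a8040048004002c0008260802))) 
(.lf (nat_lit 3624345646) (dlOf (nat_lit 9) (nat_lit 0x300000006004028005402d001d00cd00e0048801000c4006015c0000001786007401500b500740124038017400400017040002015001b0074000800800040000001684005c019808280a8040403a0100004004a001808000000005618001c03a001401c00150020004800c0003010000803a000120200c201d005f00e003c800c000220c019800400920008170c02))))) 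
(.nd (nat_lit 27) (.lf (nat_lit 2416386222) (dlOf (nat_lit 1) (nat_lit 0x6400181b0301))) 
(.lf (nat_lit 2550603950) (dlOf (nat_lit 1) (nat_lit 0x6400181b0301)))))) (.nd (nat_lit 28) 
(.nd (nat_lit 27) (.nd (nat_lit 32) 
(.lf (nat_lit 67575854) (dlOf (nat_lit 2) (nat_lit 0x200000012018220800))) 
(.lf (nat_lit 4362543150) (dlOf (nat_lit 1) (nat_lit 0x1c004000c0018090002)))) (.nd (nat_lit 6) 
(.lf (nat_lit 2886148142) (dlOf (nat_lit 9) (nat_lit 0x300000006604028005202d001c00cd00d8048801000c4006015c0000001906007401480b500700124036017400400018840002014801b0070000800800040000001804005c019808280a404040380100004004a001808000000005c18001c038001401b00150020004800c00030100008038000120200c201c005f00d803c800c000220c019800400920008170c02))) 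
(.lf (nat_lit 738664558) (dlOf (nat_lit 1) (nat_lit 0x4004000800080d0c02))))) (.nd (nat_lit 9) 
(.nd (nat_lit 8) 
(.lf (nat_lit 3020365870) (dlOf (nat_lit 1) (nat_lit 0x9800080470002017e00082a0803))) 
(.lf (nat_lit 4228325678) (dlOf (nat_lit 2) (nat_lit 0xc200000023018090500)))) (.nd (nat_lit 6) 
(.lf (nat_lit 472328750) (dlOf (nat_lit 1) (nat_lit 0x38008001000200040008985183))) 
(.lf (nat_lit 6377908974) (dlOf (nat_lit 1) (nat_lit 0x40004000200080e5a02))))))) (.nd (nat_lit 6) 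
(.nd (nat_lit 20) (.nd (nat_lit 7) (.nd (nat_lit 21) 
(.lf (nat_lit 470753326) (dlOf (nat_lit 1) (nat_lit 0x4d000400520008170402))) 
(.lf (nat_lit 11477038) (dlOf (nat_lit 4) (nat_lit 0x30af40002a020028000000128100293100008182000028080008002000800086a0802)))) 
(.lf (nat_lit 2754559150) (dlOf (nat_lit 1) (nat_lit 0x1c004000200080fc202)))) (.nd (nat_lit 24) 
(.nd (nat_lit 8) 
(.lf (nat_lit 473899054) (dlOf (nat_lit 10) (nat_lit 0x101e8000480400c8000000180203a420401d30d080d805a0068028a004014301aa06780e582c806f00e6035a017001a00a80002c500da081006dc342031c168018f0a280c6033c06bc1640370073018d00b8000284009f05a0050c28a027a0cf013f00b8000242003c8810061c2d003161450187067800101cc062002e000080c02ea145017a06780db01cc0000e0c04f802e0000502035020401b30d080c605a0061828a03000cf00fa063007302f000f416e0302073000403900c5005c000002c05e400404320008fc0282))) 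
(.lf (nat_lit 2040110) (dlOf (nat_lit 1) (nat_lit 0xa80080020002000e0008150503)))) 
(.nd (nat_lit 23) 
(.lf (nat_lit 52371502) (dlOf (nat_lit 2) (nat_lit 0x25dbe006e00000000029530280))) 
(.lf (nat_lit 27205678) (dlOf (nat_lit 1) (nat_lit 0x28008029800200900008cc0883)))))) 
(.nd (nat_lit 7) (.nd (nat_lit 10) (.nd (nat_lit 21) 
(.lf (nat_lit 471801966) (dlOf (nat_lit 1) (nat_lit 0x8008000400200020008520283))) 
(.lf (nat_lit 12525678) (dlOf (nat_lit 2) (nat_lit 0x244920004011000000286d1500)))) 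
(.nd (nat_lit 9) (.lf (nat_lit 2754554990) (dlOf (nat_lit 1) (nat_lit 0x200280f6081))) 
(.lf (nat_lit 19869294) (dlOf (nat_lit 1) (nat_lit 0x4600289d7181))))) (.nd (nat_lit 8) 
(.nd (nat_lit 9) (.lf (nat_lit 5772354798) (dlOf (nat_lit 1) (nat_lit 0x400200020008092e82))) 
(.lf (nat_lit 8333038) (dlOf (nat_lit 1) (nat_lit 0x4800200080008513b02)))) (.nd (nat_lit 9) 
(.lf (nat_lit 19869166) (dlOf (nat_lit 1) (nat_lit 0x800189d6f01))) (.nd (nat_lit 10) 
(.lf (nat_lit 56566766) (dlOf (nat_lit 1) (nat_lit 0x1a0029732881))) 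
(.lf (nat_lit 8333294) (dlOf (nat_lit 2) (nat_lit 0xeb1e80018dd00006408001000400080018514602)))))))))))) 
(.nd (nat_lit 3) (.nd (nat_lit 18) (.nd (nat_lit 17) (.nd (nat_lit 30) (.nd (nat_lit 8) 
(.nd (nat_lit 10) (.nd (nat_lit 24) (.nd (nat_lit 9) (.nd (nat_lit 27) (.nd (nat_lit 7) 
(.lf (nat_lit 6509666342) (dlOf (nat_lit 2) (nat_lit 0x97800000e2a0400b8002002000080b0002))) 
(.lf (nat_lit 44146854) (dlOf (nat_lit 1) (nat_lit 0x8004000200092d1382)))) (.nd (nat_lit 20) 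
(.lf (nat_lit 1006739494) (dlOf (nat_lit 2) (nat_lit 0xa0650000e818030a00))) 
(.lf (nat_lit 470917158) (dlOf (nat_lit 1) (nat_lit 0x80080004002000200081f0703))))) 
(.nd (nat_lit 6) (.nd (nat_lit 7) 
(.lf (nat_lit 41001510) (dlOf (nat_lit 1) (nat_lit 0x400400020009208802))) 
(.lf (nat_lit 68790950) (dlOf (nat_lit 1) (nat_lit 0x20008785601)))) 
(.lf (nat_lit 7971430) (dlOf (nat_lit 1) (nat_lit 0x180028511781))))) (.nd (nat_lit 22) 
(.nd (nat_lit 9) (.nd (nat_lit 23) 
(.lf (nat_lit 16883750) (dlOf (nat_lit 1) (nat_lit 0x80080004002000200088e0003))) 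
(.lf (nat_lit 25272358) (dlOf (nat_lit 1) (nat_lit 0x20018bf0901)))) 
(.lf (nat_lit 50962982) (dlOf (nat_lit 1) (nat_lit 0x4004000200194d8802)))) (.nd (nat_lit 19) 
(.nd (nat_lit 21) (.lf (nat_lit 21078054) (dlOf (nat_lit 2) (nat_lit 0x29630002f818a00900))) 
(.lf (nat_lit 23175206) (dlOf (nat_lit 1) (nat_lit 0x6a0008b60781)))) 
(.lf (nat_lit 21602342) (dlOf (nat_lit 1) (nat_lit 0x8008000800200020008a50a83)))))) 
(.nd (nat_lit 6) (.nd (nat_lit 11) 
(.lf (nat_lit 36807846) (dlOf (nat_lit 1) (nat_lit 0x1000400080009072c02))) (.nd (nat_lit 31) 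
(.lf (nat_lit 134327462) (dlOf (nat_lit 3) (nat_lit 0x802080011c0800281040007004001c004001e0018006282))) 
(.lf (nat_lit 6576778406) (dlOf (nat_lit 1) (nat_lit 0x400400020008146282))))) (.nd (nat_lit 11) 
(.nd (nat_lit 7) (.lf (nat_lit 636006) (dlOf (nat_lit 1) (nat_lit 0xc0028009401))) 
(.lf (nat_lit 5100381414) (dlOf (nat_lit 1) (nat_lit 0x4002001a0008052e02)))) (.nd (nat_lit 23) 
(.lf (nat_lit 469875814) (dlOf (nat_lit 4) (nat_lit 0xa14e0001101001405e80006c08000853800030040014004000c001800c082))) 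
(.lf (nat_lit 8502374) (dlOf (nat_lit 1) (nat_lit 0xe000851c081))))))) (.nd (nat_lit 6) 
(.nd (nat_lit 7) (.nd (nat_lit 9) (.nd (nat_lit 21) 
(.lf (nat_lit 2550243622) (dlOf (nat_lit 1) (nat_lit 0x40028014301))) 
(.lf (nat_lit 6398246) (dlOf (nat_lit 1) (nat_lit 0x40018420701)))) 
(.lf (nat_lit 113446) (dlOf (nat_lit 2) (nat_lit 0x7341000813a400aa2080028002000e000800bc82)))) 
(.nd (nat_lit 9) (.lf (nat_lit 8495526) (dlOf (nat_lit 1) (nat_lit 0x1400200120008511002))) 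
(.nd (nat_lit 11) (.lf (nat_lit 469870502) (dlOf (nat_lit 1) (nat_lit 0x20028004301))) 
(.lf (nat_lit 7974822) (dlOf (nat_lit 1) (nat_lit 0x20028517901)))))) (.nd (nat_lit 11) 
(.nd (nat_lit 7) (.lf (nat_lit 4301158) (dlOf (nat_lit 1) (nat_lit 0x20028290981))) 
(.lf (nat_lit 2550243814) (dlOf (nat_lit 1) (nat_lit 0x2a0008017301)))) (.nd (nat_lit 19) 
(.nd (nat_lit 23) (.lf (nat_lit 51489126) (dlOf (nat_lit 1) (nat_lit 0x160029514e81))) 
(.lf (nat_lit 59877734) (dlOf (nat_lit 1) (nat_lit 0x8008000800200020009844e83)))) 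
(.lf (nat_lit 57256294) (dlOf (nat_lit 3) (nat_lit 0x295de01508020014aef00000019794e80))))))) 
(.nd (nat_lit 26) (.nd (nat_lit 9) (.nd (nat_lit 7) (.nd (nat_lit 10) (.nd (nat_lit 19) 
(.lf (nat_lit 1879154726) (dlOf (nat_lit 2) (nat_lit 0xa0610000e818030a00))) 
(.lf (nat_lit 3221856294) (dlOf (nat_lit 2) (nat_lit 0x4801e0000740800a00080024002003400081a0b83)))) 
(.nd (nat_lit 6) (.lf (nat_lit 3490295078) (dlOf (nat_lit 1) (nat_lit 0x400400020008006802))) 
(.lf (nat_lit 1342288998) (dlOf (nat_lit 1) (nat_lit 0x800200280008009402))))) (.nd (nat_lit 6) 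
(.nd (nat_lit 8) 
(.lf (nat_lit 2013372582) (dlOf (nat_lit 2) (nat_lit 0x680340003a04001400200120008031482))) 
(.lf (nat_lit 1345429926) (dlOf (nat_lit 1) (nat_lit 0xee0008bb1001)))) 
(.lf (nat_lit 4026638822) (dlOf (nat_lit 1) (nat_lit 0xc0028017d01))))) (.nd (nat_lit 6) 
(.nd (nat_lit 11) (.lf (nat_lit 5774090790) (dlOf (nat_lit 1) (nat_lit 0xc002000200080f8802))) 
(.nd (nat_lit 19) (.lf (nat_lit 5771471398) (dlOf (nat_lit 1) (nat_lit 0x140018005181))) 
(.lf (nat_lit 1880730150) (dlOf (nat_lit 1) (nat_lit 0x400200020008b55182))))) (.nd (nat_lit 8) 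
(.lf (nat_lit 1208068710) (dlOf (nat_lit 1) (nat_lit 0x400400020008095382))) 
(.lf (nat_lit 1342290790) (dlOf (nat_lit 1) (nat_lit 0x40040002000800bc82)))))) (.nd (nat_lit 8) 
(.nd (nat_lit 6) (.nd (nat_lit 7) (.nd (nat_lit 9) 
(.lf (nat_lit 3960053798) (dlOf (nat_lit 2) (nat_lit 0x4801e00001c0800a00080024002003400081a0b83))) 
(.lf (nat_lit 6241232422) (dlOf (nat_lit 10) (nat_lit 0x2200a00010c0803b80500138008009c0030000b03001600a000400100002a08008c028000a0040000a02002d00a000100100002208003c02800080040000802001300200000c08008805000080080000204001a014000b002000000100018008003000200020008053703)))) 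
(.lf (nat_lit 1140957350) (dlOf (nat_lit 1) (nat_lit 0x400400020008031382)))) (.nd (nat_lit 10) 
(.nd (nat_lit 11) (.lf (nat_lit 1140957414) (dlOf (nat_lit 1) (nat_lit 0x5800200220008031b82))) 
(.lf (nat_lit 5972797670) (dlOf (nat_lit 1) (nat_lit 0x400400020008144b02)))) 
(.lf (nat_lit 1275176166) (dlOf (nat_lit 1) (nat_lit 0x400400020008092e02))))) (.nd (nat_lit 28) 
(.nd (nat_lit 7) (.nd (nat_lit 27) 
(.lf (nat_lit 1677828390) (dlOf (nat_lit 2) (nat_lit 0x2040a200ec03a0001c028090500))) 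
(.lf (nat_lit 3959529766) (dlOf (nat_lit 2) (nat_lit 0xa0200001c018090500)))) 
(.lf (nat_lit 3959529894) (dlOf (nat_lit 2) (nat_lit 0x1201e00431818090780)))) (.nd (nat_lit 6) 
(.nd (nat_lit 9) 
(.lf (nat_lit 2080482598) (dlOf (nat_lit 1) (nat_lit 0x8008000400200020008093183))) 
(.lf (nat_lit 5704362790) (dlOf (nat_lit 1) (nat_lit 0x20028055c01)))) 
(.lf (nat_lit 4227971942) (dlOf (nat_lit 1) (nat_lit 0x40040002000800bc82)))))))) (.nd (nat_lit 8) 
(.nd (nat_lit 19) (.nd (nat_lit 20) (.nd (nat_lit 26) (.nd (nat_lit 30) (.nd (nat_lit 7) 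
(.lf (nat_lit 37986342) (dlOf (nat_lit 1) (nat_lit 0x20019100781))) 
(.lf (nat_lit 8630950) (dlOf (nat_lit 1) (nat_lit 0x400200020008518c82)))) (.nd (nat_lit 27) 
(.lf (nat_lit 1073979430) (dlOf (nat_lit 1) (nat_lit 0x800200040008060582))) 
(.lf (nat_lit 3355680806) (dlOf (nat_lit 1) (nat_lit 0x28008002c002001c00080c0903))))) 
(.nd (nat_lit 28) (.nd (nat_lit 9) (.nd (nat_lit 27) 
(.lf (nat_lit 4362313766) (dlOf (nat_lit 3) (nat_lit 0x3202b00010010003015800074080008008000800200020008020583))) 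
(.lf (nat_lit 4496531494) (dlOf (nat_lit 1) (nat_lit 0xe00280d0481)))) 
(.lf (nat_lit 4899187238) (dlOf (nat_lit 1) (nat_lit 0x100080004002000200080d5183)))) 
(.nd (nat_lit 27) (.nd (nat_lit 29) 
(.lf (nat_lit 2483265574) (dlOf (nat_lit 3) (nat_lit 0x130078037d4080130040012c204000400400080008090002))) 
(.lf (nat_lit 1946394662) (dlOf (nat_lit 1) (nat_lit 0x800200040008060582)))) 
(.lf (nat_lit 4228096038) (dlOf (nat_lit 3) (nat_lit 0x3202a00010010003015000074080008008000800200020008020583)))))) 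
(.nd (nat_lit 6) (.nd (nat_lit 7) (.nd (nat_lit 26) 
(.lf (nat_lit 1343463462) (dlOf (nat_lit 1) (nat_lit 0x400400020018250882))) 
(.lf (nat_lit 471048230) (dlOf (nat_lit 1) (nat_lit 0x1e0008250881)))) (.nd (nat_lit 9) 
(.lf (nat_lit 20163750) (dlOf (nat_lit 1) (nat_lit 0x4002000200089d6282))) 
(.lf (nat_lit 20165286) (dlOf (nat_lit 1) (nat_lit 0x80080004002000200089d8c83))))) 
(.nd (nat_lit 7) (.nd (nat_lit 10) 
(.lf (nat_lit 24354918) (dlOf (nat_lit 1) (nat_lit 0x28004002a0018b91382))) 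
(.lf (nat_lit 45327462) (dlOf (nat_lit 1) (nat_lit 0x400200020009322982)))) 
(.lf (nat_lit 9674982) (dlOf (nat_lit 1) (nat_lit 0x6000800e400200280008571b83)))))) 
(.nd (nat_lit 6) (.nd (nat_lit 20) (.nd (nat_lit 21) (.nd (nat_lit 22) 
(.lf (nat_lit 59482150) (dlOf (nat_lit 5) (nat_lit 0x2433f0000999c00289a80002c06001267e000158100013330000640800499f80002c0400d000400100009800202))) 
(.lf (nat_lit 21733414) (dlOf (nat_lit 1) (nat_lit 0x2000400180008a60c02)))) 
(.lf (nat_lit 1345036326) (dlOf (nat_lit 2) (nat_lit 0x19007000000040058004001200089d0782)))) 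
(.nd (nat_lit 7) (.nd (nat_lit 9) 
(.lf (nat_lit 10199078) (dlOf (nat_lit 1) (nat_lit 0x98008007c002000a00085c0a03))) 
(.lf (nat_lit 41658918) (dlOf (nat_lit 1) (nat_lit 0xa0008000400200020009245183)))) 
(.lf (nat_lit 58434726) (dlOf (nat_lit 1) (nat_lit 0xa80080014002003600097e2c03))))) 
(.nd (nat_lit 12) (.nd (nat_lit 10) 
(.lf (nat_lit 59482214) (dlOf (nat_lit 2) (nat_lit 0x934c0000004000400400020019800982))) 
(.nd (nat_lit 22) 
(.lf (nat_lit 34317414) (dlOf (nat_lit 1) (nat_lit 0x20008001400200040008fb2983))) 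
(.lf (nat_lit 38511718) (dlOf (nat_lit 1) (nat_lit 0x400200f80009132982))))) (.nd (nat_lit 9) 
(.lf (nat_lit 67877990) (dlOf (nat_lit 1) (nat_lit 0x8008042800200ec000833c083))) 
(.lf (nat_lit 19641958) (dlOf (nat_lit 1) (nat_lit 0x600289d9c01))))))) (.nd (nat_lit 11) 
(.nd (nat_lit 6) (.nd (nat_lit 28) (.nd (nat_lit 7) 
(.lf (nat_lit 671326502) (dlOf (nat_lit 1) (nat_lit 0x20018154601))) 
(.lf (nat_lit 19642278) (dlOf (nat_lit 1) (nat_lit 0x200289da301)))) (.nd (nat_lit 26) 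
(.lf (nat_lit 5234730278) (dlOf (nat_lit 1) (nat_lit 0x400080074002001c00080d3183))) 
(.lf (nat_lit 6375580966) (dlOf (nat_lit 1) (nat_lit 0x400400020008003182))))) (.nd (nat_lit 26) 
(.nd (nat_lit 20) 
(.lf (nat_lit 671326694) (dlOf (nat_lit 2) (nat_lit 0xd802e000000200080028157d01))) 
(.lf (nat_lit 9675238) (dlOf (nat_lit 1) (nat_lit 0x194004007e0008577d02)))) (.nd (nat_lit 27) 
(.lf (nat_lit 1409524198) (dlOf (nat_lit 3) (nat_lit 0xd005f0001001006702f8000740801b800800a000200360008017303))) 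
(.lf (nat_lit 2349048294) (dlOf (nat_lit 1) (nat_lit 0xa8008005800200380008090c83)))))) 
(.nd (nat_lit 7) (.nd (nat_lit 9) (.nd (nat_lit 10) 
(.lf (nat_lit 2885921062) (dlOf (nat_lit 1) (nat_lit 0x80028144b81))) 
(.lf (nat_lit 3490426150) (dlOf (nat_lit 1) (nat_lit 0x800200020008006802)))) (.nd (nat_lit 22) 
(.lf (nat_lit 738437926) (dlOf (nat_lit 2) (nat_lit 0x100a80008012001210400040018095c01))) 
(.lf (nat_lit 54766374) (dlOf (nat_lit 1) (nat_lit 0x800200080009655c02))))) (.nd (nat_lit 6) 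
(.nd (nat_lit 9) 
(.lf (nat_lit 19643814) (dlOf (nat_lit 5) (nat_lit 0x32c0400196000001c04000ab010000d81000758080006008003ac0400028040014002001000089dcb82))) 
(.lf (nat_lit 4630752166) (dlOf (nat_lit 1) (nat_lit 0x20008095d01)))) (.nd (nat_lit 20) 
(.lf (nat_lit 738438118) (dlOf (nat_lit 1) (nat_lit 0x400200020008095e82))) 
(.lf (nat_lit 20163558) (dlOf (nat_lit 1) (nat_lit 0x3200289d5e81))))))))) (.nd (nat_lit 17) 
(.nd (nat_lit 28) (.nd (nat_lit 20) (.nd (nat_lit 26) (.nd (nat_lit 7) (.nd (nat_lit 19) 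
(.nd (nat_lit 8) (.nd (nat_lit 21) 
(.lf (nat_lit 671457318) (dlOf (nat_lit 6) (nat_lit 0x60240049011801d80840094040002a019004a0088007002401200000005a1001b80060002201000500d80010408058008c023404000bc009013c003006d000c022400201440000001f8700ba0030000d40800a0008018c002001e00081a0583))) 
(.lf (nat_lit 6660134) (dlOf (nat_lit 1) (nat_lit 0x400200020008440a82)))) 
(.lf (nat_lit 4295338278) (dlOf (nat_lit 1) (nat_lit 0x6e0018114b81)))) (.nd (nat_lit 6) 
(.nd (nat_lit 21) 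
(.lf (nat_lit 892966) (dlOf (nat_lit 2) (nat_lit 0x180000001404006c00400240018030a02))) 
(.lf (nat_lit 2990118) (dlOf (nat_lit 1) (nat_lit 0x4002000200081f0982)))) 
(.lf (nat_lit 42836070) (dlOf (nat_lit 2) (nat_lit 0x5a3f100000019280980))))) (.nd (nat_lit 6) 
(.nd (nat_lit 21) (.lf (nat_lit 54894758) (dlOf (nat_lit 1) (nat_lit 0x14002000c0009662c02))) 
(.lf (nat_lit 52797606) (dlOf (nat_lit 1) (nat_lit 0x2a0029570581)))) 
(.lf (nat_lit 21340646) (dlOf (nat_lit 1) (nat_lit 0x18008000c00200040008a37303))))) 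
(.nd (nat_lit 31) (.nd (nat_lit 6) (.nd (nat_lit 29) 
(.lf (nat_lit 4362444838) (dlOf (nat_lit 2) (nat_lit 0x501180002204002800400100008080982))) 
(.lf (nat_lit 1678090278) (dlOf (nat_lit 1) (nat_lit 0xc00200060008180782)))) 
(.lf (nat_lit 4899315814) (dlOf (nat_lit 1) (nat_lit 0xc0018100781)))) (.nd (nat_lit 6) 
(.nd (nat_lit 9) (.lf (nat_lit 2751834406) (dlOf (nat_lit 1) (nat_lit 0x80018004b81))) 
(.lf (nat_lit 2751833894) (dlOf (nat_lit 2) (nat_lit 0x815d000a0ae0000d0100060008004400200020008003d03)))) 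
(.lf (nat_lit 2754456806) (dlOf (nat_lit 1) (nat_lit 0x4002000200080f6502)))))) (.nd (nat_lit 22) 
(.nd (nat_lit 19) (.nd (nat_lit 9) (.nd (nat_lit 26) 
(.lf (nat_lit 1417254) (dlOf (nat_lit 1) (nat_lit 0x18004000200080c0a02))) 
(.lf (nat_lit 2752880678) (dlOf (nat_lit 1) (nat_lit 0xd0008000c00200080008060583)))) 
(.nd (nat_lit 7) (.lf (nat_lit 20294438) (dlOf (nat_lit 1) (nat_lit 0x1600289d5c01))) 
(.lf (nat_lit 20296358) (dlOf (nat_lit 1) (nat_lit 0x4002000200089d8c82))))) (.nd (nat_lit 7) 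
(.nd (nat_lit 21) 
(.lf (nat_lit 27107366) (dlOf (nat_lit 2) (nat_lit 0x2b07d80039c0801b800800cc002007e0008ca0603))) 
(.lf (nat_lit 29204518) (dlOf (nat_lit 1) (nat_lit 0x36000201e80008de0782)))) 
(.lf (nat_lit 43884966) (dlOf (nat_lit 1) (nat_lit 0x80080004002000200092a1003))))) 
(.nd (nat_lit 11) (.nd (nat_lit 7) (.nd (nat_lit 19) 
(.lf (nat_lit 7708710) (dlOf (nat_lit 1) (nat_lit 0x200284d0a81))) 
(.lf (nat_lit 22913062) (dlOf (nat_lit 2) (nat_lit 0x40000003002000c0008b40601)))) 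
(.lf (nat_lit 8233382) (dlOf (nat_lit 1) (nat_lit 0x1400200080008511002)))) (.nd (nat_lit 6) 
(.nd (nat_lit 8) 
(.lf (nat_lit 41789990) (dlOf (nat_lit 1) (nat_lit 0x120008000400200020009245183))) 
(.lf (nat_lit 8235302) (dlOf (nat_lit 2) (nat_lit 0xa2bc80038c080058008003400200060008514b83)))) 
(.lf (nat_lit 8239206) (dlOf (nat_lit 2) (nat_lit 0x8ae80013e020002001851a801))))))) 
(.nd (nat_lit 27) (.nd (nat_lit 6) (.nd (nat_lit 30) (.nd (nat_lit 29) 
(.lf (nat_lit 4563771430) (dlOf (nat_lit 2) (nat_lit 0x30160005340800080080010002002000080d0203))) 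
(.lf (nat_lit 805675046) (dlOf (nat_lit 1) (nat_lit 0xc00200060008180782)))) (.nd (nat_lit 7) 
(.nd (nat_lit 20) (.lf (nat_lit 1342545958) (dlOf (nat_lit 1) (nat_lit 0x400200020008050d82))) 
(.lf (nat_lit 3491078182) (dlOf (nat_lit 1) (nat_lit 0xd0008000c00200080008060583)))) 
(.lf (nat_lit 3490557094) (dlOf (nat_lit 1) (nat_lit 0x20028006281))))) (.nd (nat_lit 21) 
(.nd (nat_lit 26) (.lf (nat_lit 4563771494) (dlOf (nat_lit 1) (nat_lit 0xe00080d0781))) 
(.lf (nat_lit 1946525798) (dlOf (nat_lit 1) (nat_lit 0x80080004002000200080a1383)))) 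
(.nd (nat_lit 7) (.lf (nat_lit 1881514086) (dlOf (nat_lit 1) (nat_lit 0xf400400100018f40982))) 
(.lf (nat_lit 1345694438) (dlOf (nat_lit 1) (nat_lit 0x80028dd5981)))))) (.nd (nat_lit 30) 
(.nd (nat_lit 26) (.nd (nat_lit 6) 
(.lf (nat_lit 4697989158) (dlOf (nat_lit 2) (nat_lit 0x30160005780800080080010002002000080d0203))) 
(.lf (nat_lit 4697989222) (dlOf (nat_lit 1) (nat_lit 0xe00080d0781)))) (.nd (nat_lit 31) 
(.lf (nat_lit 470130726) (dlOf (nat_lit 1) (nat_lit 0x400200020008050d82))) 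
(.lf (nat_lit 2617614374) (dlOf (nat_lit 9) (nat_lit 0x40560005d02006a02b0002e01002201580016c0800500ac000b40400840560005602005802b00110150001501000400ac0008e040074056000460200160008100601))))) 
(.nd (nat_lit 29) (.nd (nat_lit 9) 
(.lf (nat_lit 1543872550) (dlOf (nat_lit 6) (nat_lit 0x60240049011801d80840094040002a01b004a0088007002401200000005a1001b80060002201000500c80010408058008c023404000bc009013c003006d000c022400201440000001f8700ba0030000d40800a0008018c002001e00081a0583))) 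
(.lf (nat_lit 5771733542) (dlOf (nat_lit 1) (nat_lit 0x8008000400200020008005183)))) 
(.nd (nat_lit 7) 
(.lf (nat_lit 4228227110) (dlOf (nat_lit 5) (nat_lit 0x1c020000200b000028080170080000130206b603200008810039019000040080228008022000200140008080983))) 
(.lf (nat_lit 6377283750) (dlOf (nat_lit 1) (nat_lit 0x8004000200080c1482)))))))) (.nd (nat_lit 28) 
(.nd (nat_lit 21) (.nd (nat_lit 29) (.nd (nat_lit 22) (.nd (nat_lit 7) (.nd (nat_lit 9) 
(.lf (nat_lit 9936934) (dlOf (nat_lit 1) (nat_lit 0x400200020008590982))) 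
(.lf (nat_lit 59222566) (dlOf (nat_lit 1) (nat_lit 0x600197e5181)))) 
(.lf (nat_lit 3221725606) (dlOf (nat_lit 1) (nat_lit 0x240018170781)))) (.nd (nat_lit 19) 
(.lf (nat_lit 13082662) (dlOf (nat_lit 2) (nat_lit 0x4a91800014080030008009c002000400086f0903))) 
(.lf (nat_lit 21995558) (dlOf (nat_lit 2) (nat_lit 0xc1f00001d0200020028a80a01))))) 
(.nd (nat_lit 6) (.nd (nat_lit 7) (.nd (nat_lit 26) 
(.lf (nat_lit 3892813862) (dlOf (nat_lit 1) (nat_lit 0xe0008280001))) 
(.lf (nat_lit 1678221350) (dlOf (nat_lit 1) (nat_lit 0x200281a0001)))) 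
(.lf (nat_lit 1678221478) (dlOf (nat_lit 1) (nat_lit 0x400281a0281)))) 
(.lf (nat_lit 1678221670) (dlOf (nat_lit 3) (nat_lit 0x12044000088100030220001810c00020080074004001600081a0702))))) 
(.nd (nat_lit 7) (.nd (nat_lit 8) (.nd (nat_lit 9) (.nd (nat_lit 10) 
(.lf (nat_lit 15704102) (dlOf (nat_lit 1) (nat_lit 0x20018820601))) 
(.lf (nat_lit 57123878) (dlOf (nat_lit 1) (nat_lit 0x100029792881)))) 
(.lf (nat_lit 41396774) (dlOf (nat_lit 1) (nat_lit 0x20019245181)))) (.nd (nat_lit 9) 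
(.lf (nat_lit 20426022) (dlOf (nat_lit 1) (nat_lit 0x80080004002000200089d6803))) 
(.lf (nat_lit 8365862) (dlOf (nat_lit 1) (nat_lit 0x20018513d01))))) (.nd (nat_lit 8) 
(.nd (nat_lit 20) (.lf (nat_lit 32482470) (dlOf (nat_lit 1) (nat_lit 0x400400020008ef2c02))) 
(.lf (nat_lit 37725350) (dlOf (nat_lit 3) (nat_lit 0x2b3a4000be0400219c00005d02002000090d2c01)))) 
(.lf (nat_lit 8364454) (dlOf (nat_lit 1) (nat_lit 0x20018511001)))))) (.nd (nat_lit 8) 
(.nd (nat_lit 27) (.nd (nat_lit 7) 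
(.lf (nat_lit 3557269542) (dlOf (nat_lit 1) (nat_lit 0x518008028c00200520008190703))) 
(.nd (nat_lit 21) (.lf (nat_lit 805806246) (dlOf (nat_lit 1) (nat_lit 0x400281a0281))) 
(.lf (nat_lit 1881645222) (dlOf (nat_lit 1) (nat_lit 0x400200020008f91482))))) (.nd (nat_lit 6) 
(.lf (nat_lit 473931814) (dlOf (nat_lit 1) (nat_lit 0xec00400420008fc0202))) (.nd (nat_lit 19) 
(.lf (nat_lit 1009229926) (dlOf (nat_lit 1) (nat_lit 0x18004001c00090a0982))) 
(.lf (nat_lit 473931878) (dlOf (nat_lit 4) (nat_lit 0x6616000390a6805e836400a41b0007208d000303e8000383001e058003241b20000c04001c160009606c80000010071800800d000200240008fc0983)))))) 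
(.nd (nat_lit 6) (.nd (nat_lit 7) (.nd (nat_lit 10) 
(.lf (nat_lit 805806374) (dlOf (nat_lit 2) (nat_lit 0x80b400070040014004003200081a0502))) 
(.lf (nat_lit 3490164006) (dlOf (nat_lit 2) (nat_lit 0x2022c0004804000400200020008006802)))) 
(.nd (nat_lit 20) (.lf (nat_lit 805806502) (dlOf (nat_lit 1) (nat_lit 0x200281a0781))) 
(.lf (nat_lit 5772911014) (dlOf (nat_lit 1) (nat_lit 0x1a0018091001))))) (.nd (nat_lit 7) 
(.nd (nat_lit 19) 
(.lf (nat_lit 805806438) (dlOf (nat_lit 3) (nat_lit 0x12044000088100030220001810c00020080074004001600081a0702))) 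
(.lf (nat_lit 3490685286) (dlOf (nat_lit 1) (nat_lit 0x8400201340008014f02)))) 
(.lf (nat_lit 3490685414) (dlOf (nat_lit 10) (nat_lit 0x12054001300140005a08003c150006000500015820020054000d8014000540800601500062005000140200930000000880801a02e00220000000200400680b800890000000741007b83000038164000809e0000c8300ff060000702c80002c0800d0002005a0008017302))))))))) 
(.nd (nat_lit 17) (.nd (nat_lit 30) (.nd (nat_lit 18) (.nd (nat_lit 8) (.nd (nat_lit 19) 
(.nd (nat_lit 6) (.nd (nat_lit 9) (.nd (nat_lit 20) 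
(.lf (nat_lit 23175214) (dlOf (nat_lit 9) (nat_lit 0x290d83006f6158000a810015b0ac0003c0406e585600018020702d7e0000801035665f8000380802d32fc0001a0402c5afc0000902016ad7e002b65f80000c100098008002c002000c0008b60903))) 
(.lf (nat_lit 13738030) (dlOf (nat_lit 2) (nat_lit 0xb451100018818740600)))) 
(.lf (nat_lit 41001518) (dlOf (nat_lit 1) (nat_lit 0x800400020019208a82)))) (.nd (nat_lit 10) 
(.nd (nat_lit 20) 
(.lf (nat_lit 44146798) (dlOf (nat_lit 1) (nat_lit 0x18008000c002000600092d0a83))) 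
(.lf (nat_lit 59875438) (dlOf (nat_lit 1) (nat_lit 0x20008000400200020009840183)))) 
(.nd (nat_lit 7) (.lf (nat_lit 6576778350) (dlOf (nat_lit 1) (nat_lit 0x400400020008146082))) 
(.lf (nat_lit 536979182) (dlOf (nat_lit 1) (nat_lit 0x240028003b01)))))) (.nd (nat_lit 21) 
(.nd (nat_lit 9) (.nd (nat_lit 22) 
(.lf (nat_lit 42573870) (dlOf (nat_lit 1) (nat_lit 0x20019260281))) 
(.lf (nat_lit 21602350) (dlOf (nat_lit 2) (nat_lit 0x75f2800158080010008001000200060008a50d03)))) 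
(.lf (nat_lit 2753143342) (dlOf (nat_lit 2) (nat_lit 0x21fd00000018090e80)))) (.nd (nat_lit 6) 
(.nd (nat_lit 7) (.lf (nat_lit 41526318) (dlOf (nat_lit 1) (nat_lit 0x40019242881))) 
(.lf (nat_lit 61448366) (dlOf (nat_lit 1) (nat_lit 0x400400020009920602)))) 
(.lf (nat_lit 61449838) (dlOf (nat_lit 2) (nat_lit 0x1577800154080010008000800200080009923983)))))) 
(.nd (nat_lit 28) (.nd (nat_lit 7) (.nd (nat_lit 19) 
(.lf (nat_lit 6509666606) (dlOf (nat_lit 2) (nat_lit 0x264000000378180b0500))) 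
(.lf (nat_lit 23699758) (dlOf (nat_lit 1) (nat_lit 0x400200020008b80502)))) (.nd (nat_lit 9) 
(.lf (nat_lit 37857710) (dlOf (nat_lit 1) (nat_lit 0x200090d4e81))) 
(.lf (nat_lit 7971758) (dlOf (nat_lit 1) (nat_lit 0xa0018512681))))) (.nd (nat_lit 9) 
(.nd (nat_lit 11) (.nd (nat_lit 27) 
(.lf (nat_lit 2416025902) (dlOf (nat_lit 1) (nat_lit 0x100018014901))) 
(.lf (nat_lit 2550243630) (dlOf (nat_lit 1) (nat_lit 0x100018014901)))) 
(.lf (nat_lit 939632942) (dlOf (nat_lit 1) (nat_lit 0x8008000400200020008144b83)))) 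
(.nd (nat_lit 6) (.lf (nat_lit 2617353006) (dlOf (nat_lit 1) (nat_lit 0x5e00280a2201))) 
(.lf (nat_lit 3020006382) (dlOf (nat_lit 1) (nat_lit 0x80080004002000200080d2883))))))) 
(.nd (nat_lit 7) (.nd (nat_lit 31) (.nd (nat_lit 8) (.nd (nat_lit 19) (.nd (nat_lit 28) 
(.lf (nat_lit 537239598) (dlOf (nat_lit 2) (nat_lit 0x1a00000012818070800))) 
(.lf (nat_lit 805675054) (dlOf (nat_lit 10) (nat_lit 0x37605500fd02a00ba814c02d40a403be04e010202600b1811404c007802de0370162018008780b4049c058005a02400b200b8082005804b0024026801100730050015001805b4000000102801ce05500f502980003c100f5015804380aa021805301590270064813006d8094036a03701e1019003a00c403ec0480454013011a00900de002805fc0000000e1c0024056004a029808c004c01140140000d08016c055001902980960138017c0940096037006000b00028048000121c00100aa000e0530000402001302b0042815400040a60000306000405500170298000041001e004c0000004000400200460008180902)))) 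
(.nd (nat_lit 6) (.lf (nat_lit 17670190) (dlOf (nat_lit 2) (nat_lit 0x69cf000078188f0e80))) 
(.lf (nat_lit 8234606) (dlOf (nat_lit 1) (nat_lit 0x8002001c0008513982))))) (.nd (nat_lit 9) 
(.lf (nat_lit 4429557038) (dlOf (nat_lit 1) (nat_lit 0x400200060008116882))) (.nd (nat_lit 10) 
(.lf (nat_lit 8237870) (dlOf (nat_lit 1) (nat_lit 0x20008518f81))) 
(.lf (nat_lit 471709486) (dlOf (nat_lit 1) (nat_lit 0x400283da101)))))) (.nd (nat_lit 29) 
(.nd (nat_lit 6) (.nd (nat_lit 27) 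
(.lf (nat_lit 6509928494) (dlOf (nat_lit 4) (nat_lit 0x404c00300170002282001800b8001100800e805c0006a0400b400400040008160582))) 
(.lf (nat_lit 2617614382) (dlOf (nat_lit 3) (nat_lit 0x602c00d9b8100c2017800000080098008002400200320008100783)))) 
(.lf (nat_lit 6442819694) (dlOf (nat_lit 1) (nat_lit 0x4002000c00081c1502)))) (.nd (nat_lit 6) 
(.nd (nat_lit 9) (.lf (nat_lit 2819465262) (dlOf (nat_lit 1) (nat_lit 0x11800082a0801))) 
(.lf (nat_lit 2754981422) (dlOf (nat_lit 2) (nat_lit 0x403a0005402000200180f7181)))) 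
(.lf (nat_lit 2753929326) (dlOf (nat_lit 2) (nat_lit 0x50438000380800080080014002001400080a1503)))))) 
(.nd (nat_lit 6) (.nd (nat_lit 8) (.nd (nat_lit 9) 
(.lf (nat_lit 52797614) (dlOf (nat_lit 1) (nat_lit 0x20008000400200020009570603))) 
(.lf (nat_lit 2754457262) (dlOf (nat_lit 1) (nat_lit 0x5200280f7281)))) (.nd (nat_lit 9) 
(.nd (nat_lit 19) 
(.lf (nat_lit 43361710) (dlOf (nat_lit 2) (nat_lit 0x1a898007525c0040c080044002004400092a3602))) 
(.lf (nat_lit 61711790) (dlOf (nat_lit 1) (nat_lit 0x20029923601)))) 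
(.lf (nat_lit 8759214) (dlOf (nat_lit 1) (nat_lit 0x20018514381))))) (.nd (nat_lit 9) 
(.nd (nat_lit 8) (.lf (nat_lit 18718958) (dlOf (nat_lit 1) (nat_lit 0x400200020008970602))) 
(.lf (nat_lit 8237550) (dlOf (nat_lit 1) (nat_lit 0x20018518681)))) (.nd (nat_lit 20) 
(.lf (nat_lit 38118382) (dlOf (nat_lit 1) (nat_lit 0x400200020009132882))) 
(.lf (nat_lit 43361262) (dlOf (nat_lit 4) (nat_lit 0x948c0046d010005a46001c5408002d23000d38040010002001200092a2882)))))))) 
(.nd (nat_lit 29) (.nd (nat_lit 31) (.nd (nat_lit 6) (.nd (nat_lit 8) (.nd (nat_lit 9) 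
(.lf (nat_lit 1409654830) (dlOf (nat_lit 1) (nat_lit 0xc00400060008070902))) 
(.lf (nat_lit 5774090798) (dlOf (nat_lit 1) (nat_lit 0xe00080f8a81)))) (.nd (nat_lit 9) 
(.nd (nat_lit 11) (.lf (nat_lit 5773567278) (dlOf (nat_lit 1) (nat_lit 0x200280e3201))) 
(.lf (nat_lit 1342287150) (dlOf (nat_lit 1) (nat_lit 0x60028006881)))) 
(.lf (nat_lit 1342289710) (dlOf (nat_lit 2) (nat_lit 0x21650001001800a100))))) (.nd (nat_lit 18) 
(.nd (nat_lit 19) (.nd (nat_lit 27) 
(.lf (nat_lit 5368815726) (dlOf (nat_lit 1) (nat_lit 0x5000400040008030a82))) 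
(.lf (nat_lit 5503033454) (dlOf (nat_lit 1) (nat_lit 0x5000400040008030a82)))) 
(.lf (nat_lit 5771993198) (dlOf (nat_lit 2) (nat_lit 0x20a02800000018030a80)))) (.nd (nat_lit 7) 
(.lf (nat_lit 5838839918) (dlOf (nat_lit 1) (nat_lit 0x4002000c00081c1502))) 
(.lf (nat_lit 1345694190) (dlOf (nat_lit 2) (nat_lit 0xb0490003c4080050008002c00200120008dd4f03)))))) 
(.nd (nat_lit 7) (.nd (nat_lit 18) (.nd (nat_lit 9) (.nd (nat_lit 10) 
(.lf (nat_lit 3557400622) (dlOf (nat_lit 1) (nat_lit 0x60004003000181e0882))) 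
(.lf (nat_lit 3489770542) (dlOf (nat_lit 1) (nat_lit 0x320028006081)))) 
(.lf (nat_lit 3491340846) (dlOf (nat_lit 2) (nat_lit 0x21eb00000018090e80)))) (.nd (nat_lit 6) 
(.nd (nat_lit 19) (.lf (nat_lit 3355811886) (dlOf (nat_lit 1) (nat_lit 0x1e0028120781))) 
(.lf (nat_lit 3557662766) (dlOf (nat_lit 1) (nat_lit 0x11800082a0801)))) 
(.lf (nat_lit 3492126830) (dlOf (nat_lit 2) (nat_lit 0x50450000380800080080014002001400080a1503))))) 
(.nd (nat_lit 6) (.nd (nat_lit 9) (.nd (nat_lit 11) 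
(.lf (nat_lit 3491602862) (dlOf (nat_lit 1) (nat_lit 0x400400020008090782))) 
(.lf (nat_lit 3490556334) (dlOf (nat_lit 1) (nat_lit 0x20018004e81)))) 
(.lf (nat_lit 3355550638) (dlOf (nat_lit 1) (nat_lit 0x5600280a2681)))) (.nd (nat_lit 9) 
(.lf (nat_lit 3493961966) (dlOf (nat_lit 1) (nat_lit 0xb000181b0481))) 
(.lf (nat_lit 3556879086) (dlOf (nat_lit 2) (nat_lit 0x1000000018040004002002800080d5a02))))))) 
(.nd (nat_lit 27) (.nd (nat_lit 18) (.nd (nat_lit 9) (.nd (nat_lit 19) (.nd (nat_lit 6) 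
(.lf (nat_lit 5905686574) (dlOf (nat_lit 2) (nat_lit 0x2100000197e0400ac002002000080b0002))) 
(.lf (nat_lit 1677828334) (dlOf (nat_lit 1) (nat_lit 0xc00400080008090482)))) (.nd (nat_lit 26) 
(.lf (nat_lit 1881776174) (dlOf (nat_lit 1) (nat_lit 0x400200020009010a02))) 
(.lf (nat_lit 4096368686) (dlOf (nat_lit 1) (nat_lit 0x8008002800200040008100403))))) 
(.nd (nat_lit 10) (.lf (nat_lit 1946264110) (dlOf (nat_lit 1) (nat_lit 0x40018018001))) 
(.lf (nat_lit 6241232430) (dlOf (nat_lit 8) (nat_lit 0x518050020400a0002c04014a01400820028006800c000540c01cc00a000290201180140082002800010100290050009000a00003040034014000c0028000081000600500000004010c00200080008053782))))) 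
(.nd (nat_lit 21) (.nd (nat_lit 26) 
(.lf (nat_lit 5905948718) (dlOf (nat_lit 4) (nat_lit 0x404a00300170002282001800b8001100800e805c0006a0400b400400040008160582))) 
(.lf (nat_lit 1678090286) (dlOf (nat_lit 7) (nat_lit 0x1702a8000480800c0154029c09c012604c009600900498000000201408480aa03aa0530000782009f02980d3004c012c0140000e06051401300f50050000341000381540000204020c004019e0008180802)))) 
(.nd (nat_lit 7) (.lf (nat_lit 1881514030) (dlOf (nat_lit 2) (nat_lit 0x220e100012018f40280))) 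
(.lf (nat_lit 4096107950) (dlOf (nat_lit 1) (nat_lit 0x80080008002000200080e3603)))))) 
(.nd (nat_lit 6) (.nd (nat_lit 8) (.nd (nat_lit 9) 
(.lf (nat_lit 3892944942) (dlOf (nat_lit 1) (nat_lit 0x80080004002000200082a0b83))) 
(.lf (nat_lit 6375450158) (dlOf (nat_lit 1) (nat_lit 0xe30008042c002019e0008003783)))) 
(.nd (nat_lit 7) (.nd (nat_lit 11) 
(.lf (nat_lit 3892421934) (dlOf (nat_lit 1) (nat_lit 0x2c0018103201))) 
(.lf (nat_lit 1812049198) (dlOf (nat_lit 1) (nat_lit 0x820028146881)))) 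
(.lf (nat_lit 2080481710) (dlOf (nat_lit 1) (nat_lit 0x400200020008091002))))) (.nd (nat_lit 8) 
(.nd (nat_lit 7) (.lf (nat_lit 6375972974) (dlOf (nat_lit 2) (nat_lit 0x20a02800000018030a80))) 
(.nd (nat_lit 10) (.lf (nat_lit 3959529710) (dlOf (nat_lit 2) (nat_lit 0x3a0200004c018090480))) 
(.lf (nat_lit 2080482542) (dlOf (nat_lit 1) (nat_lit 0x20008092e81))))) (.nd (nat_lit 18) 
(.lf (nat_lit 3892421614) (dlOf (nat_lit 1) (nat_lit 0x8008000400200020008102883))) 
(.lf (nat_lit 6377808878) (dlOf (nat_lit 1) (nat_lit 0x4004000200080e2882))))))))) 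
(.nd (nat_lit 26) (.nd (nat_lit 28) (.nd (nat_lit 21) (.nd (nat_lit 18) (.nd (nat_lit 19) 
(.nd (nat_lit 8) (.nd (nat_lit 11) 
(.lf (nat_lit 134455342) (dlOf (nat_lit 8) (nat_lit 0x700bc00044040070094007e02f000108200f20178000800800980bc0003c04008c05e0001d02008002f0000e01001801780006c0800d000800dc00200040008020583))) 
(.lf (nat_lit 5905819694) (dlOf (nat_lit 1) (nat_lit 0x20008144701)))) 
(.lf (nat_lit 22257966) (dlOf (nat_lit 1) (nat_lit 0x100008006400200260008ab7a03)))) 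
(.nd (nat_lit 20) (.nd (nat_lit 23) 
(.lf (nat_lit 537632814) (dlOf (nat_lit 3) (nat_lit 0x1e0290000180810481480000004027c004004200080e0602))) 
(.lf (nat_lit 59482158) (dlOf (nat_lit 1) (nat_lit 0x600080028002000a0009800283)))) 
(.nd (nat_lit 7) (.lf (nat_lit 10199086) (dlOf (nat_lit 1) (nat_lit 0x400285c0c01))) 
(.lf (nat_lit 39561646) (dlOf (nat_lit 1) (nat_lit 0x20019194e81)))))) (.nd (nat_lit 22) 
(.nd (nat_lit 7) (.lf (nat_lit 17801262) (dlOf (nat_lit 2) (nat_lit 0x544c0001f8188f0e80))) 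
(.nd (nat_lit 8) (.lf (nat_lit 42967214) (dlOf (nat_lit 1) (nat_lit 0x80080004002000200092a0603))) 
(.lf (nat_lit 1745330606) (dlOf (nat_lit 1) (nat_lit 0x2000400080018116e82))))) (.nd (nat_lit 20) 
(.nd (nat_lit 23) 
(.lf (nat_lit 21995566) (dlOf (nat_lit 4) (nat_lit 0x57035c000c034010c0000001603001806b80ad800000056080094000000110201580028a80c01))) 
(.lf (nat_lit 13606958) (dlOf (nat_lit 1) (nat_lit 0x8008000c00200060008730b03)))) 
(.lf (nat_lit 23044142) (dlOf (nat_lit 1) (nat_lit 0x20028b50681)))))) (.nd (nat_lit 7) 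
(.nd (nat_lit 6) (.nd (nat_lit 8) (.nd (nat_lit 18) 
(.lf (nat_lit 29073454) (dlOf (nat_lit 1) (nat_lit 0x5800400040018db0e82))) 
(.lf (nat_lit 28287022) (dlOf (nat_lit 1) (nat_lit 0x1400200020008d80802)))) 
(.lf (nat_lit 2335022) (dlOf (nat_lit 1) (nat_lit 0x20028150501)))) (.nd (nat_lit 9) 
(.nd (nat_lit 18) 
(.lf (nat_lit 24354926) (dlOf (nat_lit 1) (nat_lit 0x18008000400200020008b91503))) 
(.lf (nat_lit 46112878) (dlOf (nat_lit 1) (nat_lit 0x40029380181)))) (.nd (nat_lit 8) 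
(.lf (nat_lit 20166254) (dlOf (nat_lit 1) (nat_lit 0xc4004014800089d9c82))) 
(.lf (nat_lit 19639150) (dlOf (nat_lit 1) (nat_lit 0x10000289d5c01)))))) (.nd (nat_lit 20) 
(.nd (nat_lit 6) (.nd (nat_lit 10) 
(.lf (nat_lit 57387438) (dlOf (nat_lit 1) (nat_lit 0x40029794e81))) 
(.lf (nat_lit 61318574) (dlOf (nat_lit 1) (nat_lit 0x8008000c00200080009923603)))) 
(.lf (nat_lit 48734446) (dlOf (nat_lit 1) (nat_lit 0x40008004800200740009421e83)))) 
(.nd (nat_lit 8) (.lf (nat_lit 11772078) (dlOf (nat_lit 1) (nat_lit 0x880080270002023c00086c0303))) 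
(.nd (nat_lit 11) (.lf (nat_lit 8106414) (dlOf (nat_lit 1) (nat_lit 0x60028518481))) 
(.lf (nat_lit 36940206) (dlOf (nat_lit 1) (nat_lit 0x20019074e81)))))))) (.nd (nat_lit 31) 
(.nd (nat_lit 9) (.nd (nat_lit 30) (.nd (nat_lit 6) (.nd (nat_lit 27) 
(.lf (nat_lit 4563640366) (dlOf (nat_lit 1) (nat_lit 0x108004006c00080b0402))) 
(.lf (nat_lit 4697858094) (dlOf (nat_lit 1) (nat_lit 0x108004006c00080b0402)))) 
(.lf (nat_lit 805806318) (dlOf (nat_lit 2) (nat_lit 0x280b40013a040018004003200081a0482)))) 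
(.nd (nat_lit 19) (.nd (nat_lit 27) 
(.lf (nat_lit 1342414894) (dlOf (nat_lit 16) (nat_lit 0xc5048e026a23c00f00e28001541809c891c000a8040c7048e027823c008511b803287dc01803a201ee1cd00f80e2807a870400e437600053120650247013711e00838714000a40c096848e00c423c00490e28001441818d891c0194486024c23c009611b802d07dc00c83a201ee1cd00f50e280750704000a02400242a80004b020002247000248102fd123808f08f0037038a00037060130247004f11e0000d81018b091c006c486026e23c00e711b802d87dc03dc3a201ee1cd00f40e28075070401ac37600035140650247013c11e00838714000680c0a6048e014e23c00790e28000cc18186891c0060486023223c00130fb807b873403a038a01d01c10001907016e12380008408430000808e400211840008020583))) 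
(.lf (nat_lit 6308470830) (dlOf (nat_lit 1) (nat_lit 0x4004000200080d0002)))) 
(.lf (nat_lit 1345036334) (dlOf (nat_lit 1) (nat_lit 0x1780080084002004800089d0a03))))) 
(.nd (nat_lit 6) (.nd (nat_lit 7) 
(.lf (nat_lit 805544494) (dlOf (nat_lit 7) (nat_lit 0xa0144000480400680a2000404b000c01d00008c18001812c0004204005c0a2001203a000100200220288006812c00540740001e06002e051000901d000074100098008004800200120008128003))) 
(.nd (nat_lit 8) (.lf (nat_lit 6308473518) (dlOf (nat_lit 1) (nat_lit 0x4004000200080d5682))) 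
(.lf (nat_lit 268676014) (dlOf (nat_lit 1) (nat_lit 0x100080014002000400080e5d03))))) 
(.nd (nat_lit 7) (.lf (nat_lit 6308473710) (dlOf (nat_lit 1) (nat_lit 0x400280d5c01))) 
(.lf (nat_lit 1476897518) (dlOf (nat_lit 1) (nat_lit 0x11c004005e00182d5a02)))))) (.nd (nat_lit 8) 
(.nd (nat_lit 9) (.nd (nat_lit 18) 
(.lf (nat_lit 3087245358) (dlOf (nat_lit 3) (nat_lit 0x240160001702000200b0000b018160580))) 
(.lf (nat_lit 3491209262) (dlOf (nat_lit 4) (nat_lit 0x3c02dc0028000000280400320b70000f01002705c00003008000800800b000200040008070903)))) 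
(.nd (nat_lit 27) (.nd (nat_lit 29) 
(.lf (nat_lit 2416157230) (dlOf (nat_lit 3) (nat_lit 0x20000000f40800180800000004002c002000e0008090e82))) 
(.lf (nat_lit 4026769966) (dlOf (nat_lit 17) (nat_lit 0x10080800828016006c00a0001f8300430100000f8080ff80800834016000e00a0001e8301f50100104002c0006c0807f0040042200b0001a0201fb0100106002c000540807e0040040600b000118201fa0100107802c0004008081004003b600b0000f8202030100105802c0003a0807ec040041000b0000e02010601000a2002c00034080564040041000b0000c82001d0200028808000018080668040000090203e6020020f0058000001002c0008001c00203520008090e83)))) 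
(.lf (nat_lit 2550374958) (dlOf (nat_lit 3) (nat_lit 0x20000000f40800180800000004002c002000e0008090e82))))) 
(.nd (nat_lit 6) (.nd (nat_lit 7) (.nd (nat_lit 18) 
(.lf (nat_lit 3490947374) (dlOf (nat_lit 2) (nat_lit 0x5802f0001c818047a00))) 
(.lf (nat_lit 3624378670) (dlOf (nat_lit 2) (nat_lit 0x190020000390200040028187a01)))) 
(.lf (nat_lit 2416157102) (dlOf (nat_lit 1) (nat_lit 0x20028090781)))) (.nd (nat_lit 7) 
(.lf (nat_lit 4026769774) (dlOf (nat_lit 2) (nat_lit 0x105019006e64080090008000400200180008090783))) 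
(.lf (nat_lit 4026769902) (dlOf (nat_lit 5) (nat_lit 0xb20100005240801300800025c040020016000e902003202000072018090d80)))))))) 
(.nd (nat_lit 7) (.nd (nat_lit 30) (.nd (nat_lit 18) (.nd (nat_lit 8) (.nd (nat_lit 28) 
(.nd (nat_lit 32) 
(.lf (nat_lit 201564206) (dlOf (nat_lit 8) (nat_lit 0x700bc00044040070094007e02f000108200f20178000800800980bc0003c04008c05e0001d02008002f0000e01001801780006c0800d000800dc00200040008020583))) 
(.lf (nat_lit 4496531502) (dlOf (nat_lit 1) (nat_lit 0x1600280d0581)))) 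
(.lf (nat_lit 469999662) (dlOf (nat_lit 16) (nat_lit 0xc5048e026a23c00f00e28001541809c891c000a8040c7048e027823c008511b803287dc01803a201ee1cd00f80e2807a870400e437600053120650247013711e00838714000a40c096848e00c423c00490e28001441818d891c0194486024c23c009611b802d07dc00c83a201ee1cd00f50e280750704000a02400242a80004b020002247000248102fd123808f08f0037038a00037060130247004f11e0000d81018b091c006c486026e23c00e711b802d87dc03dc3a201ee1cd00f40e28075070401ac37600035140650247013c11e00838714000680c0a6048e014e23c00790e28000cc18186891c0060486023223c00130fb807b873403a038a01d01c10001907016e12380008408430000808e400211840008020583)))) 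
(.nd (nat_lit 6) (.lf (nat_lit 2752749870) (dlOf (nat_lit 1) (nat_lit 0x20028048401))) 
(.lf (nat_lit 67876718) (dlOf (nat_lit 1) (nat_lit 0x4001833a301))))) (.nd (nat_lit 21) 
(.nd (nat_lit 8) 
(.lf (nat_lit 2753011758) (dlOf (nat_lit 5) (nat_lit 0x59810e0002b0200020b104e2043800094101d7021c0003c04019010e000150200860018070801))) 
(.lf (nat_lit 2886181166) (dlOf (nat_lit 2) (nat_lit 0xb0000012fc080010008003800200420008188403)))) 
(.nd (nat_lit 9) (.lf (nat_lit 69705774) (dlOf (nat_lit 1) (nat_lit 0x1780018bc0a01))) 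
(.lf (nat_lit 472361518) (dlOf (nat_lit 1) (nat_lit 0x8008000800200020008985183)))))) 
(.nd (nat_lit 28) (.nd (nat_lit 8) (.nd (nat_lit 9) (.nd (nat_lit 27) 
(.lf (nat_lit 3825442862) (dlOf (nat_lit 3) (nat_lit 0x240160001702000200b0000b018160580))) 
(.lf (nat_lit 5570273326) (dlOf (nat_lit 1) (nat_lit 0x80080094002000200080d0003)))) 
(.lf (nat_lit 3288572462) (dlOf (nat_lit 17) (nat_lit 0x10080800828016006c00a0001f8300430100000f8080ff80800834016000e00a0001e8301f50100104002c0006c0807f0040042200b0001a0201fb0100106002c000540807e0040040600b000118201fa0100107802c0004008081004003b600b0000f8202030100105802c0003c0807ec040041000b0000e02010601000a2002c00034080564040041000b0000c82001d0200028808000018080668040000090203e6020020f0058000001002c0008001c00203520008090e83)))) 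
(.nd (nat_lit 6) (.lf (nat_lit 1678221614) (dlOf (nat_lit 1) (nat_lit 0x50004001400081a0502))) 
(.lf (nat_lit 3288572270) (dlOf (nat_lit 2) (nat_lit 0x1050190060ec080090008000400200180008090783))))) 
(.nd (nat_lit 18) (.nd (nat_lit 31) 
(.lf (nat_lit 1410048046) (dlOf (nat_lit 3) (nat_lit 0x1e0290000180810481480000004027c004004200080e0602))) 
(.lf (nat_lit 3557531694) (dlOf (nat_lit 6) (nat_lit 0x281bc00140b6000a036000601a00010420005816c001406c000e034000200300080378001816c00280680003e06000c06f000602d800180d800080680003d08000c06f000801a000000100058008008800200060008240883)))) 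
(.lf (nat_lit 4228358190) (dlOf (nat_lit 1) (nat_lit 0x40028090001)))))) (.nd (nat_lit 6) 
(.nd (nat_lit 8) (.nd (nat_lit 9) (.nd (nat_lit 27) 
(.lf (nat_lit 2483265710) (dlOf (nat_lit 3) (nat_lit 0xe00d000148100020080000a008002800800dc00200180008090303))) 
(.lf (nat_lit 2349047982) (dlOf (nat_lit 1) (nat_lit 0x34000400cc0008090302)))) 
(.lf (nat_lit 5570276014) (dlOf (nat_lit 1) (nat_lit 0x4004000200080d5682)))) (.nd (nat_lit 11) 
(.nd (nat_lit 9) (.lf (nat_lit 474195374) (dlOf (nat_lit 1) (nat_lit 0x4002000200090e3602))) 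
(.lf (nat_lit 2751965102) (dlOf (nat_lit 1) (nat_lit 0x400200020008004382)))) (.nd (nat_lit 10) 
(.lf (nat_lit 2754591662) (dlOf (nat_lit 3) (nat_lit 0x2001e40029c0401700f20014302000200280fbd81))) 
(.lf (nat_lit 67874734) (dlOf (nat_lit 1) (nat_lit 0x20018337981)))))) (.nd (nat_lit 8) 
(.nd (nat_lit 9) (.nd (nat_lit 18) 
(.lf (nat_lit 68395246) (dlOf (nat_lit 1) (nat_lit 0x80028570601))) 
(.lf (nat_lit 1009230062) (dlOf (nat_lit 1) (nat_lit 0x8c004003200090a1e82)))) 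
(.lf (nat_lit 67877614) (dlOf (nat_lit 1) (nat_lit 0x2001833b981)))) (.nd (nat_lit 10) 
(.nd (nat_lit 9) 
(.lf (nat_lit 3288572398) (dlOf (nat_lit 5) (nat_lit 0xb20100005240801300800025c040020016000f002003202000072018090d80))) 
(.lf (nat_lit 1275306990) (dlOf (nat_lit 1) (nat_lit 0x200280e2881)))) (.nd (nat_lit 18) 
(.lf (nat_lit 5704492526) (dlOf (nat_lit 1) (nat_lit 0x800280d3601))) 
(.lf (nat_lit 4095714798) (dlOf (nat_lit 1) (nat_lit 0x200280e3601))))))))))))

end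

end Pool.Agent.Lib.MP_5854e1_co.Cz

namespace Pool.Agent.Lib.MP_5854e1_co.Cz

noncomputable section

noncomputable def tz144 : DT := (.nd (nat_lit 2) (.nd (nat_lit 13) (.nd (nat_lit 28) 
(.nd (nat_lit 15) (.nd (nat_lit 18) (.nd (nat_lit 7) (.nd (nat_lit 19) (.nd (nat_lit 11) 
(.nd (nat_lit 6) (.nd (nat_lit 20) (.nd (nat_lit 21) 
(.lf (nat_lit 5502926851) (dlOf (nat_lit 1) (nat_lit 0x20028000001))) (.nd (nat_lit 22) 
(.lf (nat_lit 27262979) (dlOf (nat_lit 1) (nat_lit 0x80018cc0001))) 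
(.lf (nat_lit 14680067) (dlOf (nat_lit 1) (nat_lit 0xf8008000400200080008770003))))) 
(.nd (nat_lit 23) (.lf (nat_lit 68157443) (dlOf (nat_lit 1) (nat_lit 0x8008000800200020008400003))) 
(.lf (nat_lit 26214403) (dlOf (nat_lit 2) (nat_lit 0xb8000015250200260008c20001))))) 
(.nd (nat_lit 8) (.nd (nat_lit 21) (.nd (nat_lit 22) 
(.lf (nat_lit 3422552131) (dlOf (nat_lit 2) (nat_lit 0x301b805cf8080068008002c00200060008000003))) 
(.lf (nat_lit 12582979) (dlOf (nat_lit 1) (nat_lit 0x200186d0d01)))) 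
(.lf (nat_lit 52428867) (dlOf (nat_lit 2) (nat_lit 0x2e0500124819530600)))) 
(.lf (nat_lit 536872771) (dlOf (nat_lit 1) (nat_lit 0x400400040008003e02))))) (.nd (nat_lit 9) 
(.nd (nat_lit 6) (.nd (nat_lit 8) 
(.lf (nat_lit 67116035) (dlOf (nat_lit 1) (nat_lit 0xa002800bf01))) 
(.lf (nat_lit 134221059) (dlOf (nat_lit 1) (nat_lit 0x400400020008006602)))) 
(.lf (nat_lit 4362082371) (dlOf (nat_lit 1) (nat_lit 0x2000800140020006000800a683)))) 
(.nd (nat_lit 26) (.nd (nat_lit 12) 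
(.lf (nat_lit 39848451) (dlOf (nat_lit 1) (nat_lit 0x1400291f5001))) 
(.lf (nat_lit 3221232131) (dlOf (nat_lit 2) (nat_lit 0x2031005fe01800b280)))) (.nd (nat_lit 6) 
(.lf (nat_lit 603986691) (dlOf (nat_lit 1) (nat_lit 0x2000800b981))) 
(.lf (nat_lit 2751470147) (dlOf (nat_lit 8) (nat_lit 0x244140003002001220a00017810009105000380000005c0800244140002d02002420a00002810009105000008080048828000000400180040002001800b502))))))) 
(.nd (nat_lit 6) (.nd (nat_lit 20) (.nd (nat_lit 21) (.nd (nat_lit 22) 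
(.lf (nat_lit 3288858627) (dlOf (nat_lit 1) (nat_lit 0xc002001c00081c0002))) 
(.lf (nat_lit 4718595) (dlOf (nat_lit 1) (nat_lit 0x80080004002000200082b0003)))) (.nd (nat_lit 22) 
(.lf (nat_lit 2621443) (dlOf (nat_lit 1) (nat_lit 0x30008000800200020008180003))) 
(.lf (nat_lit 6815747) (dlOf (nat_lit 1) (nat_lit 0x18008001400200020008460003))))) 
(.nd (nat_lit 21) (.lf (nat_lit 18350083) (dlOf (nat_lit 1) (nat_lit 0x800200020008920002))) 
(.nd (nat_lit 23) (.lf (nat_lit 7864323) (dlOf (nat_lit 1) (nat_lit 0x180080014002000200084f0003))) 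
(.lf (nat_lit 16252931) (dlOf (nat_lit 1) (nat_lit 0x400400020008880002)))))) (.nd (nat_lit 26) 
(.nd (nat_lit 8) 
(.lf (nat_lit 134742083) (dlOf (nat_lit 3) (nat_lit 0x140760002002011a03b0000b0180a0e00))) 
(.lf (nat_lit 8918339) (dlOf (nat_lit 1) (nat_lit 0x400200020008519902)))) (.nd (nat_lit 27) 
(.lf (nat_lit 4362600515) (dlOf (nat_lit 2) (nat_lit 0x400000006004005c002001200080a0d02))) 
(.lf (nat_lit 201850947) (dlOf (nat_lit 2) (nat_lit 0x18803b000058180a0d00))))))) (.nd (nat_lit 8) 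
(.nd (nat_lit 10) (.nd (nat_lit 6) (.nd (nat_lit 11) 
(.lf (nat_lit 24117379) (dlOf (nat_lit 1) (nat_lit 0x400200280008b80102))) 
(.lf (nat_lit 4362078339) (dlOf (nat_lit 1) (nat_lit 0x20028004781)))) (.nd (nat_lit 12) 
(.lf (nat_lit 2684355267) (dlOf (nat_lit 2) (nat_lit 0xc060000130200060008001f01))) 
(.lf (nat_lit 19927747) (dlOf (nat_lit 1) (nat_lit 0x4002000200089d8c82))))) (.nd (nat_lit 26) 
(.nd (nat_lit 9) (.lf (nat_lit 134220931) (dlOf (nat_lit 1) (nat_lit 0x580018006101))) 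
(.lf (nat_lit 671092355) (dlOf (nat_lit 2) (nat_lit 0x1402c000b00e8001802000140000005608007c0028007181)))) 
(.nd (nat_lit 6) (.lf (nat_lit 3288337539) (dlOf (nat_lit 1) (nat_lit 0x560018006101))) 
(.lf (nat_lit 67114179) (dlOf (nat_lit 1) (nat_lit 0x400400020008009502)))))) (.nd (nat_lit 27) 
(.nd (nat_lit 6) (.nd (nat_lit 32) 
(.lf (nat_lit 1140851075) (dlOf (nat_lit 1) (nat_lit 0x400400020008001002))) 
(.lf (nat_lit 5435818371) (dlOf (nat_lit 1) (nat_lit 0x400400020008001002)))) (.nd (nat_lit 20) 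
(.lf (nat_lit 61342147) (dlOf (nat_lit 1) (nat_lit 0x400400020009921082))) (.nd (nat_lit 22) 
(.lf (nat_lit 12059075) (dlOf (nat_lit 4) (nat_lit 0x1cab0000510200025580001b8100092ac0000d40800100080024002001600086c0903))) 
(.lf (nat_lit 58196419) (dlOf (nat_lit 1) (nat_lit 0x4004000200097c7002)))))) (.nd (nat_lit 11) 
(.nd (nat_lit 26) (.nd (nat_lit 29) 
(.lf (nat_lit 5502927235) (dlOf (nat_lit 1) (nat_lit 0x3800200120008001002))) 
(.lf (nat_lit 4966056323) (dlOf (nat_lit 1) (nat_lit 0x10008000400200020008001003)))) 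
(.lf (nat_lit 6106907011) (dlOf (nat_lit 1) (nat_lit 0x10008001400200020008001003)))) 
(.nd (nat_lit 6) 
(.lf (nat_lit 134221187) (dlOf (nat_lit 2) (nat_lit 0x501300001804000400400020018006c02))) 
(.lf (nat_lit 134224835) (dlOf (nat_lit 1) (nat_lit 0x680020008000800be02)))))))) (.nd (nat_lit 19) 
(.nd (nat_lit 6) (.nd (nat_lit 31) (.nd (nat_lit 23) (.nd (nat_lit 26) 
(.lf (nat_lit 134479875) (dlOf (nat_lit 2) (nat_lit 0x2e02f00000018030000))) (.nd (nat_lit 27) 
(.lf (nat_lit 5436080131) (dlOf (nat_lit 2) (nat_lit 0x1e01100c380180c0000))) 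
(.lf (nat_lit 201588739) (dlOf (nat_lit 2) (nat_lit 0x2e02f00000018030000))))) (.nd (nat_lit 7) 
(.nd (nat_lit 20) (.lf (nat_lit 44302339) (dlOf (nat_lit 1) (nat_lit 0x4004000600092f0002))) 
(.lf (nat_lit 26476547) (dlOf (nat_lit 1) (nat_lit 0x400200020008c50002)))) 
(.lf (nat_lit 46401923) (dlOf (nat_lit 3) (nat_lit 0x2291800dca02000748c006cc819384e80))))) 
(.nd (nat_lit 26) (.nd (nat_lit 7) (.nd (nat_lit 29) 
(.lf (nat_lit 6442713091) (dlOf (nat_lit 1) (nat_lit 0x40028180001))) 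
(.lf (nat_lit 2684616707) (dlOf (nat_lit 2) (nat_lit 0x2a03a000101400008050016900c0004004000600080d0002)))) 
(.lf (nat_lit 2818838659) (dlOf (nat_lit 1) (nat_lit 0xe0028127d81)))) (.nd (nat_lit 9) 
(.lf (nat_lit 3422814211) (dlOf (nat_lit 2) (nat_lit 0x2a03a00010140000805000b5e0c0004004000600080d0002))) 
(.lf (nat_lit 3288596995) (dlOf (nat_lit 2) (nat_lit 0x301b0005a00800d0008008000200300008090d83)))))) 
(.nd (nat_lit 7) (.nd (nat_lit 9) (.nd (nat_lit 26) 
(.lf (nat_lit 134479939) (dlOf (nat_lit 2) (nat_lit 0x1403100000018030e00))) 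
(.lf (nat_lit 201588803) (dlOf (nat_lit 2) (nat_lit 0x1403100000018030e00)))) 
(.lf (nat_lit 1610876483) (dlOf (nat_lit 1) (nat_lit 0xe0028093801)))) (.nd (nat_lit 10) 
(.nd (nat_lit 8) (.nd (nat_lit 9) 
(.lf (nat_lit 3408067) (dlOf (nat_lit 1) (nat_lit 0x400402460008200402))) 
(.lf (nat_lit 20189891) (dlOf (nat_lit 1) (nat_lit 0x8002000200089d8c82)))) 
(.lf (nat_lit 2359747) (dlOf (nat_lit 1) (nat_lit 0xce0008150901)))) (.nd (nat_lit 20) 
(.lf (nat_lit 42206403) (dlOf (nat_lit 2) (nat_lit 0x936030000c019242d00))) 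
(.lf (nat_lit 51643587) (dlOf (nat_lit 1) (nat_lit 0x20009512d01))))))) (.nd (nat_lit 20) 
(.nd (nat_lit 6) (.nd (nat_lit 7) (.nd (nat_lit 8) (.nd (nat_lit 9) 
(.lf (nat_lit 2819358723) (dlOf (nat_lit 1) (nat_lit 0x20008250001))) 
(.lf (nat_lit 786947) (dlOf (nat_lit 1) (nat_lit 0x1800400260018017f82)))) 
(.lf (nat_lit 9175299) (dlOf (nat_lit 2) (nat_lit 0x306740148e040008004001c0008524802)))) 
(.lf (nat_lit 51118211) (dlOf (nat_lit 1) (nat_lit 0xc00400020019503a02)))) (.nd (nat_lit 8) 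
(.nd (nat_lit 26) (.lf (nat_lit 2883651) (dlOf (nat_lit 1) (nat_lit 0x200181c0c01))) 
(.lf (nat_lit 2754347075) (dlOf (nat_lit 2) (nat_lit 0x2880000004404007c002002800080d0c02)))) 
(.nd (nat_lit 21) (.lf (nat_lit 786755) (dlOf (nat_lit 1) (nat_lit 0xc0028014c01))) 
(.lf (nat_lit 19661123) (dlOf (nat_lit 1) (nat_lit 0x400080008002000400089d0c03)))))) 
(.nd (nat_lit 7) (.nd (nat_lit 6) (.nd (nat_lit 8) (.nd (nat_lit 9) 
(.lf (nat_lit 22806531) (dlOf (nat_lit 1) (nat_lit 0xc00400040008b30002))) 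
(.lf (nat_lit 12321283) (dlOf (nat_lit 1) (nat_lit 0x13200086c0d81)))) 
(.lf (nat_lit 50072323) (dlOf (nat_lit 2) (nat_lit 0x57bb6302a0da681506cdc000620c0008004002a00194c5a82)))) 
(.nd (nat_lit 9) (.lf (nat_lit 29098051) (dlOf (nat_lit 1) (nat_lit 0x48008000c002000c0008dc0e83))) 
(.lf (nat_lit 43779651) (dlOf (nat_lit 1) (nat_lit 0x200092a3801))))) (.nd (nat_lit 9) 
(.lf (nat_lit 12320899) (dlOf (nat_lit 1) (nat_lit 0x4002000200086c0102))) (.nd (nat_lit 21) 
(.lf (nat_lit 43779715) (dlOf (nat_lit 1) (nat_lit 0x7a00092a3a01))) 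
(.lf (nat_lit 8128131) (dlOf (nat_lit 1) (nat_lit 0x1020018513a01))))))))) (.nd (nat_lit 18) 
(.nd (nat_lit 26) (.nd (nat_lit 7) (.nd (nat_lit 6) (.nd (nat_lit 21) (.nd (nat_lit 22) 
(.lf (nat_lit 5906137091) (dlOf (nat_lit 1) (nat_lit 0x4002000200081d0002))) (.nd (nat_lit 24) 
(.lf (nat_lit 4751363) (dlOf (nat_lit 1) (nat_lit 0x80080004002000400082b0003))) 
(.lf (nat_lit 55083011) (dlOf (nat_lit 4) (nat_lit 0x9263000a93100018978000c4ba0005253800612940024926019160e00124c6000d262000312f0001897400024a7000724a8061c03000212f0001492a0186f04000e00296a0001))))) 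
(.nd (nat_lit 10) (.nd (nat_lit 20) 
(.lf (nat_lit 2654211) (dlOf (nat_lit 1) (nat_lit 0x20018180001))) 
(.lf (nat_lit 24674307) (dlOf (nat_lit 1) (nat_lit 0x40008bb0001)))) 
(.lf (nat_lit 19958787) (dlOf (nat_lit 1) (nat_lit 0x400289d5f81))))) (.nd (nat_lit 8) 
(.nd (nat_lit 21) (.lf (nat_lit 25198659) (dlOf (nat_lit 1) (nat_lit 0x20018bf0c01))) 
(.lf (nat_lit 14712899) (dlOf (nat_lit 5) (nat_lit 0x1a8fc004e0000001e02002ca87001ad1f80007208001aa1c001147e00003020006a3f00000008005000800b400200040008770583)))) 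
(.nd (nat_lit 9) (.lf (nat_lit 1074299203) (dlOf (nat_lit 1) (nat_lit 0x200181b0601))) 
(.lf (nat_lit 558915) (dlOf (nat_lit 1) (nat_lit 0x580008003e01)))))) (.nd (nat_lit 9) 
(.nd (nat_lit 6) (.nd (nat_lit 8) 
(.lf (nat_lit 24150147) (dlOf (nat_lit 1) (nat_lit 0x2e0008b80101))) 
(.lf (nat_lit 35686787) (dlOf (nat_lit 1) (nat_lit 0x5e0029014e81)))) (.nd (nat_lit 10) 
(.lf (nat_lit 1074299075) (dlOf (nat_lit 2) (nat_lit 0xc0000000d0181b0400))) (.nd (nat_lit 19) 
(.lf (nat_lit 32539843) (dlOf (nat_lit 2) (nat_lit 0x244ae00012818ef2d00))) 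
(.lf (nat_lit 59278531) (dlOf (nat_lit 2) (nat_lit 0x56000000000197e2d00)))))) (.nd (nat_lit 27) 
(.nd (nat_lit 20) (.lf (nat_lit 2147518083) (dlOf (nat_lit 1) (nat_lit 0xe0008003a01))) 
(.lf (nat_lit 61900419) (dlOf (nat_lit 1) (nat_lit 0x38004000e0009923a02)))) (.nd (nat_lit 12) 
(.lf (nat_lit 5502961283) (dlOf (nat_lit 1) (nat_lit 0x4004000c0008003a02))) 
(.lf (nat_lit 2281739907) (dlOf (nat_lit 2) (nat_lit 0x6014000280940000008000400400060008009d82))))))) 
(.nd (nat_lit 6) (.nd (nat_lit 7) (.nd (nat_lit 20) (.nd (nat_lit 9) 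
(.lf (nat_lit 6510116867) (dlOf (nat_lit 1) (nat_lit 0x4002000200081d0002))) 
(.lf (nat_lit 2751502851) (dlOf (nat_lit 1) (nat_lit 0x1000800100020030000800b283)))) 
(.nd (nat_lit 29) (.lf (nat_lit 68190211) (dlOf (nat_lit 1) (nat_lit 0x18002000a0008450002))) 
(.lf (nat_lit 2752544771) (dlOf (nat_lit 2) (nat_lit 0x3f0ae000000080018008000400200180008020003))))) 
(.nd (nat_lit 9) (.nd (nat_lit 8) 
(.lf (nat_lit 604019843) (dlOf (nat_lit 1) (nat_lit 0x80040008000800c182))) 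
(.lf (nat_lit 67147139) (dlOf (nat_lit 1) (nat_lit 0xa0008003000200140008009903)))) 
(.nd (nat_lit 11) (.lf (nat_lit 6106941059) (dlOf (nat_lit 1) (nat_lit 0x260018003a01))) 
(.lf (nat_lit 1677758083) (dlOf (nat_lit 1) (nat_lit 0x8008001800200020008007183)))))) 
(.nd (nat_lit 9) (.nd (nat_lit 21) (.nd (nat_lit 19) 
(.lf (nat_lit 3422584899) (dlOf (nat_lit 3) (nat_lit 0x500148055500803000a402a8c04001c00400020008000002))) 
(.lf (nat_lit 4362633283) (dlOf (nat_lit 1) (nat_lit 0x100080014002001000080b0d03)))) 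
(.nd (nat_lit 20) 
(.lf (nat_lit 2754117699) (dlOf (nat_lit 2) (nat_lit 0x3210880015008018800801cc002003000080c1883))) 
(.lf (nat_lit 2755166275) (dlOf (nat_lit 1) (nat_lit 0x60008120e01))))) (.nd (nat_lit 7) 
(.nd (nat_lit 8) 
(.lf (nat_lit 2751502915) (dlOf (nat_lit 9) (nat_lit 0x81050000c00800408280005e0400204140002e02001020a00016810010105000700000000a0800104140000402000e20a000a0ea00000810003882800283a800000040010001800b501))) 
(.lf (nat_lit 1275104067) (dlOf (nat_lit 1) (nat_lit 0xf0008000c002000c0008005c03)))) 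
(.nd (nat_lit 10) 
(.lf (nat_lit 1275104195) (dlOf (nat_lit 3) (nat_lit 0x10014001000000022040006005000500000002410001000800a000200020008005d83))) 
(.lf (nat_lit 2751502275) (dlOf (nat_lit 1) (nat_lit 0x2002800a601)))))))) (.nd (nat_lit 22) 
(.nd (nat_lit 6) (.nd (nat_lit 25) (.nd (nat_lit 26) (.nd (nat_lit 19) (.nd (nat_lit 27) 
(.lf (nat_lit 3758391299) (dlOf (nat_lit 1) (nat_lit 0x88008000c002000e0008170003))) 
(.lf (nat_lit 1208254467) (dlOf (nat_lit 1) (nat_lit 0x280080008002000a00080b0003)))) 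
(.lf (nat_lit 2819391491) (dlOf (nat_lit 5) (nat_lit 0x1206a0060f81001202180010104000c03800b0e06000a00000534010006023000f011400000080160004006e0018250002)))) 
(.nd (nat_lit 27) (.lf (nat_lit 67403779) (dlOf (nat_lit 1) (nat_lit 0x80080008002000200080f0003))) 
(.lf (nat_lit 1812234243) (dlOf (nat_lit 1) (nat_lit 0x120018190001))))) (.nd (nat_lit 19) 
(.nd (nat_lit 7) 
(.lf (nat_lit 33849347) (dlOf (nat_lit 3) (nat_lit 0x1066700b4a010001333805a48080018008001400200080008f60003))) 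
(.lf (nat_lit 52725379) (dlOf (nat_lit 1) (nat_lit 0x400400020009573a02)))) (.nd (nat_lit 20) 
(.lf (nat_lit 42762243) (dlOf (nat_lit 1) (nat_lit 0x680009280001))) 
(.lf (nat_lit 45907971) (dlOf (nat_lit 1) (nat_lit 0x3a0009360001)))))) (.nd (nat_lit 7) 
(.nd (nat_lit 9) 
(.lf (nat_lit 1208254531) (dlOf (nat_lit 1) (nat_lit 0x80080004002000200080b0583))) 
(.nd (nat_lit 21) (.lf (nat_lit 4832134723) (dlOf (nat_lit 1) (nat_lit 0x200080d3801))) 
(.lf (nat_lit 52725315) (dlOf (nat_lit 1) (nat_lit 0x400400020009573802))))) (.nd (nat_lit 9) 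
(.lf (nat_lit 42239171) (dlOf (nat_lit 1) (nat_lit 0x60009242d01))) (.nd (nat_lit 20) 
(.lf (nat_lit 8688323) (dlOf (nat_lit 1) (nat_lit 0x400200020008518c82))) 
(.lf (nat_lit 20222659) (dlOf (nat_lit 1) (nat_lit 0x4002000200089d8c82))))))) (.nd (nat_lit 20) 
(.nd (nat_lit 23) (.nd (nat_lit 25) 
(.lf (nat_lit 2755952643) (dlOf (nat_lit 5) (nat_lit 0x44540006229000210a8017b81800108ac00084540006229002f6830006115800188a80020452001021d000710a8017b02800208ac0014454000e229000610e8004085c001442a005e90c000600081c0001))) 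
(.lf (nat_lit 38043651) (dlOf (nat_lit 1) (nat_lit 0x20019110001)))) (.nd (nat_lit 7) 
(.nd (nat_lit 21) 
(.lf (nat_lit 12877827) (dlOf (nat_lit 1) (nat_lit 0x68008003c002000e00086e0003))) 
(.lf (nat_lit 14974979) (dlOf (nat_lit 1) (nat_lit 0x80080004002000200087a0003)))) 
(.lf (nat_lit 46434691) (dlOf (nat_lit 1) (nat_lit 0x1e0019384e81))))) (.nd (nat_lit 19) 
(.nd (nat_lit 9) (.lf (nat_lit 24412163) (dlOf (nat_lit 1) (nat_lit 0x20008001000200080008b90003))) 
(.lf (nat_lit 41189891) (dlOf (nat_lit 1) (nat_lit 0x100019227b01)))) (.nd (nat_lit 21) 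
(.lf (nat_lit 31227907) (dlOf (nat_lit 1) (nat_lit 0x8a0028e70001))) 
(.lf (nat_lit 16547843) (dlOf (nat_lit 1) (nat_lit 0x1000288b0001))))))))) (.nd (nat_lit 6) 
(.nd (nat_lit 18) (.nd (nat_lit 8) (.nd (nat_lit 15) (.nd (nat_lit 10) (.nd (nat_lit 19) 
(.nd (nat_lit 26) 
(.lf (nat_lit 1344274435) (dlOf (nat_lit 2) (nat_lit 0x204900225c080020008000800200160008560003))) 
(.lf (nat_lit 471859203) (dlOf (nat_lit 2) (nat_lit 0x2049003af0080020008000800200160008540003)))) 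
(.nd (nat_lit 20) (.lf (nat_lit 4027056131) (dlOf (nat_lit 1) (nat_lit 0xc002001c00081c0002))) 
(.lf (nat_lit 4095213571) (dlOf (nat_lit 1) (nat_lit 0x20028080001))))) (.nd (nat_lit 7) 
(.nd (nat_lit 9) (.lf (nat_lit 1344799747) (dlOf (nat_lit 1) (nat_lit 0x20028982881))) 
(.lf (nat_lit 4227862019) (dlOf (nat_lit 1) (nat_lit 0xc00400060008007002)))) 
(.lf (nat_lit 469769347) (dlOf (nat_lit 1) (nat_lit 0x40040002000800c182))))) (.nd (nat_lit 19) 
(.nd (nat_lit 9) (.nd (nat_lit 7) 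
(.lf (nat_lit 3490742275) (dlOf (nat_lit 2) (nat_lit 0x3e0ab800000080030008005000200220008020003))) 
(.lf (nat_lit 2952830083) (dlOf (nat_lit 1) (nat_lit 0x2000800080020014000800c183)))) 
(.nd (nat_lit 26) (.lf (nat_lit 4563437187) (dlOf (nat_lit 1) (nat_lit 0x16c00200480008003a02))) 
(.lf (nat_lit 335578755) (dlOf (nat_lit 1) (nat_lit 0x3b8002009a0008003a02))))) (.nd (nat_lit 9) 
(.lf (nat_lit 474513411) (dlOf (nat_lit 1) (nat_lit 0x800191a0001))) (.nd (nat_lit 26) 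
(.lf (nat_lit 1342734851) (dlOf (nat_lit 6) (nat_lit 0x18047800422370010c82006611e002e88dc004080800643dc000180200101ee0000b81005900180000008006000800c4002001800080c0d83))) 
(.nd (nat_lit 29) (.lf (nat_lit 1409843715) (dlOf (nat_lit 1) (nat_lit 0x60008090d81))) 
(.lf (nat_lit 1946714627) (dlOf (nat_lit 2) (nat_lit 0xa0048003640800280080058002001600081b0d83)))))))) 
(.nd (nat_lit 30) (.nd (nat_lit 10) (.nd (nat_lit 9) (.nd (nat_lit 15) 
(.lf (nat_lit 4630512003) (dlOf (nat_lit 1) (nat_lit 0x8008000400200020008001003))) 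
(.lf (nat_lit 268468611) (dlOf (nat_lit 1) (nat_lit 0x800400020008051002)))) 
(.lf (nat_lit 2483035011) (dlOf (nat_lit 1) (nat_lit 0xc001800bc81)))) (.nd (nat_lit 15) 
(.nd (nat_lit 26) (.lf (nat_lit 2550140291) (dlOf (nat_lit 1) (nat_lit 0x400400020008006c02))) 
(.lf (nat_lit 2483031427) (dlOf (nat_lit 2) (nat_lit 0x1d0140000cc080010008001000200060008006c03)))) 
(.nd (nat_lit 7) (.lf (nat_lit 469796611) (dlOf (nat_lit 1) (nat_lit 0x8400200040008003b82))) 
(.lf (nat_lit 2483064195) (dlOf (nat_lit 1) (nat_lit 0xc00200040008006c02)))))) (.nd (nat_lit 12) 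
(.nd (nat_lit 29) (.nd (nat_lit 10) 
(.lf (nat_lit 5704255875) (dlOf (nat_lit 1) (nat_lit 0xe0028004e81))) 
(.lf (nat_lit 1409289603) (dlOf (nat_lit 2) (nat_lit 0x3200000006818006c00)))) (.nd (nat_lit 26) 
(.lf (nat_lit 1879051651) (dlOf (nat_lit 1) (nat_lit 0x400400020008006c02))) 
(.lf (nat_lit 1946160515) (dlOf (nat_lit 2) (nat_lit 0xe03e00006818006c00))))) (.nd (nat_lit 9) 
(.nd (nat_lit 26) (.lf (nat_lit 1476400515) (dlOf (nat_lit 1) (nat_lit 0x400400020018009902))) 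
(.lf (nat_lit 3690993027) (dlOf (nat_lit 1) (nat_lit 0x20018009901)))) (.nd (nat_lit 11) 
(.lf (nat_lit 4160754563) (dlOf (nat_lit 1) (nat_lit 0x8480080260002021e0008009003))) 
(.lf (nat_lit 4227865475) (dlOf (nat_lit 1) (nat_lit 0x28002001a000800bc82)))))))) 
(.nd (nat_lit 15) (.nd (nat_lit 26) (.nd (nat_lit 9) (.nd (nat_lit 20) (.nd (nat_lit 7) 
(.lf (nat_lit 1342439427) (dlOf (nat_lit 1) (nat_lit 0x4000400140008030002))) 
(.lf (nat_lit 3624144003) (dlOf (nat_lit 1) (nat_lit 0x8008001c002000a0008146103)))) 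
(.nd (nat_lit 19) (.lf (nat_lit 1343488003) (dlOf (nat_lit 1) (nat_lit 0x1c00200040008260002))) 
(.lf (nat_lit 5773197315) (dlOf (nat_lit 1) (nat_lit 0x800280b0001))))) (.nd (nat_lit 7) 
(.nd (nat_lit 19) 
(.lf (nat_lit 3494117891) (dlOf (nat_lit 3) (nat_lit 0x82280028604003c10e0007c02000200281b0d81))) 
(.lf (nat_lit 3491496451) (dlOf (nat_lit 1) (nat_lit 0x8008000400200020008090d83)))) 
(.lf (nat_lit 5637408387) (dlOf (nat_lit 1) (nat_lit 0x4004000200080d3a02))))) (.nd (nat_lit 29) 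
(.nd (nat_lit 27) (.nd (nat_lit 7) 
(.lf (nat_lit 3557556227) (dlOf (nat_lit 8) (nat_lit 0x4072000e030800080fc017aa0c01dc0e400240610002021000200fc017a81001b00e4002c061000601f802f3c1800081e002240e4002e061000401f802f382000281e000900e400360610003021000580fc017901400300e400bbd020004072000101f802edc100260008009400200180008260003))) 
(.lf (nat_lit 5704517251) (dlOf (nat_lit 1) (nat_lit 0x3a00180d3a01)))) (.nd (nat_lit 30) 
(.lf (nat_lit 470024195) (dlOf (nat_lit 1) (nat_lit 0x4000400140008030002))) 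
(.lf (nat_lit 5838733315) (dlOf (nat_lit 1) (nat_lit 0x40028180001))))) (.nd (nat_lit 7) 
(.nd (nat_lit 19) (.lf (nat_lit 5301862403) (dlOf (nat_lit 2) (nat_lit 0x1e01100deb0180c0000))) 
(.lf (nat_lit 6377177091) (dlOf (nat_lit 1) (nat_lit 0x800280b0001)))) 
(.lf (nat_lit 6375605891) (dlOf (nat_lit 1) (nat_lit 0x20028003a01)))))) (.nd (nat_lit 26) 
(.nd (nat_lit 29) (.nd (nat_lit 31) (.nd (nat_lit 19) 
(.lf (nat_lit 5637439491) (dlOf (nat_lit 1) (nat_lit 0x200280e0001))) 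
(.lf (nat_lit 1342996483) (dlOf (nat_lit 1) (nat_lit 0x400400040018130002)))) (.nd (nat_lit 7) 
(.lf (nat_lit 3494150147) (dlOf (nat_lit 5) (nat_lit 0x442a00062140002100002df8180010858000842a0006214005be83000610b00018854002042800102080007100002df0280020858001442a000e214000610400040808001440000b790c000600081c0001))) 
(.lf (nat_lit 3624177027) (dlOf (nat_lit 2) (nat_lit 0x24036002e01400006828146c00))))) 
(.nd (nat_lit 27) (.nd (nat_lit 30) 
(.lf (nat_lit 2953084931) (dlOf (nat_lit 8) (nat_lit 0xc02800c1f0200040140060e01001300a0030640800480400161c04001c02000b07020012010004c381000300a000000080058008038c002000200080f0003))) 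
(.lf (nat_lit 1879343107) (dlOf (nat_lit 1) (nat_lit 0x9800800e4002004000080e0003)))) 
(.lf (nat_lit 939819011) (dlOf (nat_lit 1) (nat_lit 0x120018190001))))) (.nd (nat_lit 19) 
(.nd (nat_lit 27) 
(.lf (nat_lit 3020193795) (dlOf (nat_lit 2) (nat_lit 0x100600022022004d5828150000))) 
(.nd (nat_lit 29) 
(.lf (nat_lit 3691282435) (dlOf (nat_lit 2) (nat_lit 0x800d8006ac080010008000c00200080008110003))) 
(.lf (nat_lit 2080669699) (dlOf (nat_lit 1) (nat_lit 0x280080008002000a00080b0003))))) 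
(.nd (nat_lit 27) (.nd (nat_lit 21) 
(.lf (nat_lit 3557588995) (dlOf (nat_lit 1) (nat_lit 0x1c400200140008270002))) 
(.lf (nat_lit 4096557059) (dlOf (nat_lit 1) (nat_lit 0x8008000400200020008130003)))) 
(.nd (nat_lit 20) (.lf (nat_lit 470581251) (dlOf (nat_lit 1) (nat_lit 0x400400040018130002))) 
(.lf (nat_lit 471629827) (dlOf (nat_lit 2) (nat_lit 0x1011c00ae00200020008360001))))))))) 
(.nd (nat_lit 15) (.nd (nat_lit 26) (.nd (nat_lit 7) (.nd (nat_lit 8) (.nd (nat_lit 19) 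
(.nd (nat_lit 10) (.nd (nat_lit 12) 
(.lf (nat_lit 5771362371) (dlOf (nat_lit 1) (nat_lit 0x40018000001))) 
(.lf (nat_lit 1879052355) (dlOf (nat_lit 1) (nat_lit 0x20018007d81)))) 
(.lf (nat_lit 3489664067) (dlOf (nat_lit 1) (nat_lit 0x1c0028006081)))) (.nd (nat_lit 18) 
(.lf (nat_lit 805830723) (dlOf (nat_lit 1) (nat_lit 0x28008001c002000600081b0e03))) 
(.lf (nat_lit 3492544579) (dlOf (nat_lit 2) (nat_lit 0x2880000004404007c002002800080d0c02))))) 
(.nd (nat_lit 10) (.lf (nat_lit 1346371907) (dlOf (nat_lit 1) (nat_lit 0x340008f60c01))) 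
(.lf (nat_lit 268436803) (dlOf (nat_lit 1) (nat_lit 0x80018003301))))) (.nd (nat_lit 8) 
(.nd (nat_lit 10) (.lf (nat_lit 3494117571) (dlOf (nat_lit 1) (nat_lit 0x8004000400081b0402))) 
(.nd (nat_lit 11) 
(.lf (nat_lit 1881146563) (dlOf (nat_lit 1) (nat_lit 0x18008000400200080008e22d03))) 
(.lf (nat_lit 3624144067) (dlOf (nat_lit 1) (nat_lit 0xa0028146381))))) (.nd (nat_lit 11) 
(.nd (nat_lit 9) 
(.lf (nat_lit 5772149187) (dlOf (nat_lit 2) (nat_lit 0xa14d00090a1800b04700044000000380800240018091081))) 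
(.lf (nat_lit 3492812739) (dlOf (nat_lit 1) (nat_lit 0x4004000400080fa602)))) (.nd (nat_lit 27) 
(.lf (nat_lit 1342183875) (dlOf (nat_lit 1) (nat_lit 0x800800500020010000800af83))) 
(.lf (nat_lit 1476401603) (dlOf (nat_lit 1) (nat_lit 0x2000800040020010000800af83))))))) 
(.nd (nat_lit 12) (.nd (nat_lit 10) (.nd (nat_lit 18) (.nd (nat_lit 20) 
(.lf (nat_lit 4630511683) (dlOf (nat_lit 1) (nat_lit 0x20028000001))) 
(.lf (nat_lit 1007681603) (dlOf (nat_lit 1) (nat_lit 0x4002000200086d0e82)))) (.nd (nat_lit 21) 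
(.lf (nat_lit 1006895171) (dlOf (nat_lit 1) (nat_lit 0x80080014002000200080d0d03))) 
(.lf (nat_lit 472121411) (dlOf (nat_lit 1) (nat_lit 0x8008000400200020008840603))))) 
(.nd (nat_lit 7) (.nd (nat_lit 18) 
(.lf (nat_lit 335545923) (dlOf (nat_lit 1) (nat_lit 0x20008003801))) 
(.lf (nat_lit 6375605827) (dlOf (nat_lit 1) (nat_lit 0x20028003801)))) 
(.lf (nat_lit 1007944899) (dlOf (nat_lit 1) (nat_lit 0x4004000200088c2d02))))) (.nd (nat_lit 8) 
(.nd (nat_lit 7) (.nd (nat_lit 9) 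
(.lf (nat_lit 3690991683) (dlOf (nat_lit 1) (nat_lit 0x8008000400200020008007d83))) 
(.lf (nat_lit 1410079299) (dlOf (nat_lit 1) (nat_lit 0x400080fb501)))) 
(.lf (nat_lit 3557036739) (dlOf (nat_lit 1) (nat_lit 0xe0028128c81)))) (.nd (nat_lit 9) 
(.nd (nat_lit 18) (.lf (nat_lit 3690994115) (dlOf (nat_lit 1) (nat_lit 0x400040006000800af82))) 
(.lf (nat_lit 3557038531) (dlOf (nat_lit 1) (nat_lit 0x5c0040008000812af82)))) (.nd (nat_lit 10) 
(.lf (nat_lit 4227865539) (dlOf (nat_lit 2) (nat_lit 0x12408000240320010582800be00))) 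
(.lf (nat_lit 1410078659) (dlOf (nat_lit 4) (nat_lit 0x181dc002400000b010400120770057901000a03b802bc40800500080038002003e00080fa603)))))))) 
(.nd (nat_lit 7) (.nd (nat_lit 18) (.nd (nat_lit 19) (.nd (nat_lit 8) (.nd (nat_lit 9) 
(.lf (nat_lit 4630544451) (dlOf (nat_lit 1) (nat_lit 0x60008000001))) 
(.lf (nat_lit 4227894851) (dlOf (nat_lit 1) (nat_lit 0x48008003400200140008007183)))) 
(.lf (nat_lit 1006667587) (dlOf (nat_lit 2) (nat_lit 0x2007a000320200060008003e01)))) 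
(.nd (nat_lit 27) (.nd (nat_lit 8) 
(.lf (nat_lit 3493363779) (dlOf (nat_lit 1) (nat_lit 0x60008120e01))) 
(.lf (nat_lit 1946714435) (dlOf (nat_lit 1) (nat_lit 0x200181b0601)))) (.nd (nat_lit 22) 
(.lf (nat_lit 4228415555) (dlOf (nat_lit 1) (nat_lit 0x100080014002001000080b0d03))) 
(.lf (nat_lit 474513475) (dlOf (nat_lit 2) (nat_lit 0x3f855802d0198008e084002503a0008f02000080080004002000200091a0603)))))) 
(.nd (nat_lit 26) (.nd (nat_lit 9) (.nd (nat_lit 19) 
(.lf (nat_lit 1879343171) (dlOf (nat_lit 1) (nat_lit 0x280080054002000a00080e0d03))) 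
(.lf (nat_lit 1346142275) (dlOf (nat_lit 2) (nat_lit 0x340a6804103640048e08001000400040018e60602)))) 
(.lf (nat_lit 5234787907) (dlOf (nat_lit 1) (nat_lit 0x200080d3801)))) (.nd (nat_lit 30) 
(.nd (nat_lit 27) 
(.lf (nat_lit 3020193859) (dlOf (nat_lit 2) (nat_lit 0x405800040250001e028150580))) 
(.lf (nat_lit 1006927939) (dlOf (nat_lit 1) (nat_lit 0x280080054002000a00080e0d03)))) 
(.nd (nat_lit 8) 
(.lf (nat_lit 2080669763) (dlOf (nat_lit 1) (nat_lit 0x80080004002000200080b0583))) 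
(.lf (nat_lit 6376161603) (dlOf (nat_lit 8) (nat_lit 0x60880000b0080038440000560400242200002a0200101100001481000608800001408003044000004040008220000000200160018090c01))))))) 
(.nd (nat_lit 8) (.nd (nat_lit 9) (.nd (nat_lit 10) 
(.lf (nat_lit 1946714307) (dlOf (nat_lit 2) (nat_lit 0xc0000000d0181b0400))) (.nd (nat_lit 19) 
(.lf (nat_lit 1344570563) (dlOf (nat_lit 1) (nat_lit 0x220018862d01))) 
(.lf (nat_lit 1345094851) (dlOf (nat_lit 2) (nat_lit 0x1800e800000080030008004c002000e00089e2d03))))) 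
(.nd (nat_lit 26) (.nd (nat_lit 27) 
(.lf (nat_lit 1879085763) (dlOf (nat_lit 1) (nat_lit 0x800200020008008c82))) 
(.lf (nat_lit 1476432579) (dlOf (nat_lit 1) (nat_lit 0x8008000400200020008008c83)))) 
(.lf (nat_lit 3691025091) (dlOf (nat_lit 1) (nat_lit 0x1c000801ac002012c0008008c83))))) 
(.nd (nat_lit 26) (.nd (nat_lit 11) 
(.lf (nat_lit 2952827843) (dlOf (nat_lit 2) (nat_lit 0x3c0150000000800400080020002000c0008009203))) 
(.nd (nat_lit 32) 
(.lf (nat_lit 402688963) (dlOf (nat_lit 3) (nat_lit 0x6802600140120000c8200040048000000801c00080020002001c0008005d83))) 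
(.lf (nat_lit 4697656259) (dlOf (nat_lit 2) (nat_lit 0x1021000900000005c08001000400060018005d82))))) 
(.nd (nat_lit 9) (.lf (nat_lit 6375375299) (dlOf (nat_lit 1) (nat_lit 0x20018001081))) 
(.nd (nat_lit 27) (.lf (nat_lit 872451011) (dlOf (nat_lit 1) (nat_lit 0x20018005d81))) 
(.lf (nat_lit 2080410563) (dlOf (nat_lit 2) (nat_lit 0x3015800074080030008003000200040008005d83))))))))))) 
(.nd (nat_lit 18) (.nd (nat_lit 28) (.nd (nat_lit 6) (.nd (nat_lit 10) (.nd (nat_lit 20) 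
(.nd (nat_lit 22) (.nd (nat_lit 7) (.nd (nat_lit 15) 
(.lf (nat_lit 69214211) (dlOf (nat_lit 1) (nat_lit 0x600188f0001))) 
(.lf (nat_lit 1678286851) (dlOf (nat_lit 27) (nat_lit 0x770210078480803c010803c2004006c08001db802026404b00de021805e80f8007c03c005400000e310500f90258045810c024007c00e401e00720000071782805101100207c0402b008800fe00200b2044007ef8100f1022003f3c0804d011001f9404014408800fc902007e044007e40101b9022003f1c0807b811001f800403ac05a00f9b020324044007c981026b022003e3c080e2011001ef004030808800f760204e6044007b781023802200af010c01eb208000805a00f1f02039602d0078c810001016803c5c080c700b401e0c040038098028002d000000281d0000)))) 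
(.nd (nat_lit 26) 
(.lf (nat_lit 3221758083) (dlOf (nat_lit 7) (nat_lit 0x44053002c01b8016009000c4040000310800160370005012000680800005e0c0050078002001a000d0000000b01801080f0001c0340002a04000403700040100000441001000000000004005c004006e0018170102))) 
(.lf (nat_lit 3959955587) (dlOf (nat_lit 7) (nat_lit 0x44053002c01b8016009000c4040000310800160370005012000680800005e0c0050078002001a000d0000000b01801080f0001c0340002a04000403700040100000441001000000000004005c004006e0018170102))))) 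
(.nd (nat_lit 15) (.nd (nat_lit 24) 
(.lf (nat_lit 4726787) (dlOf (nat_lit 1) (nat_lit 0x780080004002000200082b0003))) 
(.lf (nat_lit 55058435) (dlOf (nat_lit 3) (nat_lit 0x2102000701e8064581000080f40322a040018004001400196a0002)))) 
(.lf (nat_lit 14721027) (dlOf (nat_lit 1) (nat_lit 0x20018770001))))) (.nd (nat_lit 15) 
(.nd (nat_lit 8) (.nd (nat_lit 19) 
(.lf (nat_lit 47194115) (dlOf (nat_lit 3) (nat_lit 0x16c4201aba02000562100d5c0193b0000))) 
(.lf (nat_lit 2755141635) (dlOf (nat_lit 1) (nat_lit 0xa0008120001)))) 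
(.lf (nat_lit 30417155) (dlOf (nat_lit 1) (nat_lit 0x14c0018e30701)))) (.nd (nat_lit 21) 
(.nd (nat_lit 23) 
(.lf (nat_lit 2753077251) (dlOf (nat_lit 3) (nat_lit 0x87e0004aa0400103f00021d02000a0018080001))) 
(.lf (nat_lit 10002435) (dlOf (nat_lit 3) (nat_lit 0x3f486001fa3f0074b020014d208038bc08007000800dc002007000085a0003)))) 
(.nd (nat_lit 7) (.lf (nat_lit 24682499) (dlOf (nat_lit 1) (nat_lit 0x20004000c0008bb0002))) 
(.lf (nat_lit 12099715) (dlOf (nat_lit 1) (nat_lit 0x4002003800086c0102))))))) (.nd (nat_lit 15) 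
(.nd (nat_lit 7) (.nd (nat_lit 19) (.nd (nat_lit 26) 
(.lf (nat_lit 5502936067) (dlOf (nat_lit 1) (nat_lit 0x400400020008002882))) 
(.lf (nat_lit 2751472643) (dlOf (nat_lit 1) (nat_lit 0x20018002881)))) 
(.lf (nat_lit 56108035) (dlOf (nat_lit 1) (nat_lit 0x100080460002000e0009732883)))) 
(.nd (nat_lit 32) (.nd (nat_lit 11) 
(.lf (nat_lit 2281715331) (dlOf (nat_lit 1) (nat_lit 0x3a0008009d81))) 
(.lf (nat_lit 671100547) (dlOf (nat_lit 2) (nat_lit 0xc00980008046002601d001200c00098040004800a002200200120000001584000f8008001400200020008007183)))) 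
(.nd (nat_lit 26) (.lf (nat_lit 4966065795) (dlOf (nat_lit 1) (nat_lit 0x400400020008003a02))) 
(.lf (nat_lit 6106916483) (dlOf (nat_lit 1) (nat_lit 0x20028003a01)))))) (.nd (nat_lit 7) 
(.nd (nat_lit 8) (.lf (nat_lit 19966979) (dlOf (nat_lit 1) (nat_lit 0x8002001c00089d5f82))) 
(.nd (nat_lit 26) (.lf (nat_lit 1073784579) (dlOf (nat_lit 1) (nat_lit 0x400400020008003b82))) 
(.lf (nat_lit 201369347) (dlOf (nat_lit 1) (nat_lit 0x78008001800200140008003b83))))) 
(.nd (nat_lit 9) (.nd (nat_lit 8) 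
(.lf (nat_lit 134261891) (dlOf (nat_lit 1) (nat_lit 0x400400020008006102))) 
(.lf (nat_lit 3288378755) (dlOf (nat_lit 2) (nat_lit 0x7003000030080118008000c002000e0008006c03)))) 
(.nd (nat_lit 26) (.lf (nat_lit 4966098563) (dlOf (nat_lit 1) (nat_lit 0xa0018003a01))) 
(.lf (nat_lit 5435860611) (dlOf (nat_lit 2) (nat_lit 0x80580002f0200040028003a01)))))))) 
(.nd (nat_lit 29) (.nd (nat_lit 7) (.nd (nat_lit 8) (.nd (nat_lit 27) (.nd (nat_lit 19) 
(.nd (nat_lit 20) 
(.lf (nat_lit 52437059) (dlOf (nat_lit 2) (nat_lit 0x138140049204000c00400040009530602))) 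
(.lf (nat_lit 13639747) (dlOf (nat_lit 1) (nat_lit 0x8008022000200fe0008730c03)))) 
(.lf (nat_lit 4726851) (dlOf (nat_lit 1) (nat_lit 0x200082b0581)))) (.nd (nat_lit 9) 
(.lf (nat_lit 134750275) (dlOf (nat_lit 1) (nat_lit 0x200180a0e01))) (.nd (nat_lit 32) 
(.lf (nat_lit 1207969347) (dlOf (nat_lit 1) (nat_lit 0x40028003801))) 
(.lf (nat_lit 5502936643) (dlOf (nat_lit 1) (nat_lit 0x400400020008003802)))))) (.nd (nat_lit 9) 
(.nd (nat_lit 11) (.lf (nat_lit 30417219) (dlOf (nat_lit 1) (nat_lit 0x20028e30701))) 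
(.lf (nat_lit 4362086723) (dlOf (nat_lit 1) (nat_lit 0x400200020008004d02)))) 
(.lf (nat_lit 67121987) (dlOf (nat_lit 1) (nat_lit 0x400200020008008f82))))) (.nd (nat_lit 8) 
(.nd (nat_lit 9) (.nd (nat_lit 15) 
(.lf (nat_lit 59253955) (dlOf (nat_lit 2) (nat_lit 0x989380002c02000400297e2d01))) 
(.lf (nat_lit 59286723) (dlOf (nat_lit 1) (nat_lit 0x7c002002800097e2d02)))) 
(.lf (nat_lit 19935939) (dlOf (nat_lit 1) (nat_lit 0x80080004002000200089d8c83)))) (.nd (nat_lit 9) 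
(.nd (nat_lit 15) (.lf (nat_lit 3154371) (dlOf (nat_lit 1) (nat_lit 0x8008000c00200060008200903))) 
(.lf (nat_lit 58237379) (dlOf (nat_lit 1) (nat_lit 0x2200297c7001)))) (.nd (nat_lit 12) 
(.lf (nat_lit 1275079619) (dlOf (nat_lit 1) (nat_lit 0x3c002000a0008005d82))) 
(.lf (nat_lit 19971011) (dlOf (nat_lit 2) (nat_lit 0x5160d8006e8080068008009c002000200089dbe03))))))) 
(.nd (nat_lit 27) (.nd (nat_lit 8) (.nd (nat_lit 19) (.nd (nat_lit 9) 
(.lf (nat_lit 2755698755) (dlOf (nat_lit 1) (nat_lit 0x74004003000081b0002))) 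
(.lf (nat_lit 2751511107) (dlOf (nat_lit 8) (nat_lit 0xc20a000180100061050000bc0800308280005c0400184140002d02001020a0000281000610500000808001882800000040010004000a001800b502)))) 
(.nd (nat_lit 15) 
(.lf (nat_lit 1678254147) (dlOf (nat_lit 1) (nat_lit 0x80080004002000200081c0d03))) 
(.nd (nat_lit 22) (.lf (nat_lit 1611178051) (dlOf (nat_lit 1) (nat_lit 0x1800200060008101102))) 
(.lf (nat_lit 2756223043) (dlOf (nat_lit 1) (nat_lit 0x680080004002001e0008220c03)))))) 
(.nd (nat_lit 7) (.lf (nat_lit 2755699011) (dlOf (nat_lit 2) (nat_lit 0xc40b2000288181b0600))) 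
(.nd (nat_lit 12) 
(.lf (nat_lit 1610656707) (dlOf (nat_lit 1) (nat_lit 0x98008002c00200020008005d83))) 
(.lf (nat_lit 2754624451) (dlOf (nat_lit 2) (nat_lit 0x1c000000dd0180fbe00)))))) (.nd (nat_lit 9) 
(.nd (nat_lit 7) (.nd (nat_lit 8) 
(.lf (nat_lit 738762819) (dlOf (nat_lit 1) (nat_lit 0x48008000800200040008101103))) 
(.lf (nat_lit 671129923) (dlOf (nat_lit 2) (nat_lit 0x602c000278180b0600)))) (.nd (nat_lit 8) 
(.lf (nat_lit 671129795) (dlOf (nat_lit 1) (nat_lit 0x10004001800080b0402))) 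
(.lf (nat_lit 2885691843) (dlOf (nat_lit 1) (nat_lit 0x1500008004e81))))) (.nd (nat_lit 15) 
(.nd (nat_lit 26) (.lf (nat_lit 4966065731) (dlOf (nat_lit 1) (nat_lit 0x400400020008003802))) 
(.lf (nat_lit 6106916419) (dlOf (nat_lit 1) (nat_lit 0x20028003801)))) 
(.lf (nat_lit 1744873027) (dlOf (nat_lit 1) (nat_lit 0x4a0018003801)))))))) (.nd (nat_lit 6) 
(.nd (nat_lit 15) (.nd (nat_lit 26) (.nd (nat_lit 10) (.nd (nat_lit 21) (.nd (nat_lit 7) 
(.lf (nat_lit 805838851) (dlOf (nat_lit 2) (nat_lit 0x800000000004001c002001000081c0002))) 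
(.lf (nat_lit 1342192515) (dlOf (nat_lit 1) (nat_lit 0x2002800bc81)))) (.nd (nat_lit 20) 
(.lf (nat_lit 1881677827) (dlOf (nat_lit 1) (nat_lit 0xa0028fd0001))) 
(.lf (nat_lit 3493339139) (dlOf (nat_lit 1) (nat_lit 0xa0008120001))))) (.nd (nat_lit 7) 
(.nd (nat_lit 29) 
(.lf (nat_lit 2415928323) (dlOf (nat_lit 1) (nat_lit 0x2d0008009000200040008002883))) 
(.lf (nat_lit 4026541059) (dlOf (nat_lit 1) (nat_lit 0x400400020008002882)))) 
(.lf (nat_lit 1342188675) (dlOf (nat_lit 1) (nat_lit 0x240018006101))))) (.nd (nat_lit 12) 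
(.nd (nat_lit 29) (.nd (nat_lit 22) 
(.lf (nat_lit 3557302275) (dlOf (nat_lit 3) (nat_lit 0x80720004030800400fc00c7e0c00180e40014061000801f8018cc1800b0008000c002001200081b0003))) 
(.lf (nat_lit 474488835) (dlOf (nat_lit 1) (nat_lit 0x400200020009180002)))) (.nd (nat_lit 10) 
(.lf (nat_lit 1009262595) (dlOf (nat_lit 1) (nat_lit 0x600190d0001))) 
(.lf (nat_lit 6375351299) (dlOf (nat_lit 2) (nat_lit 0x11014001fbc080060008000c002000a0008002883))))) 
(.nd (nat_lit 7) (.nd (nat_lit 9) 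
(.lf (nat_lit 3691000835) (dlOf (nat_lit 1) (nat_lit 0x20018009201))) 
(.lf (nat_lit 1543518723) (dlOf (nat_lit 1) (nat_lit 0x1f8000800b281)))) 
(.lf (nat_lit 4227873667) (dlOf (nat_lit 1) (nat_lit 0x80040016000800bc82)))))) (.nd (nat_lit 26) 
(.nd (nat_lit 29) (.nd (nat_lit 20) (.nd (nat_lit 7) 
(.lf (nat_lit 1346412803) (dlOf (nat_lit 1) (nat_lit 0x620008032400200b60008f60a83))) 
(.lf (nat_lit 4563445379) (dlOf (nat_lit 1) (nat_lit 0xa80008003a01)))) (.nd (nat_lit 19) 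
(.lf (nat_lit 1343266819) (dlOf (nat_lit 1) (nat_lit 0x6ac004033600081e0002))) 
(.lf (nat_lit 3491274755) (dlOf (nat_lit 3) (nat_lit 0x87980048a0400103cc0022f02000a0018080001))))) 
(.nd (nat_lit 7) (.nd (nat_lit 19) 
(.lf (nat_lit 1881186307) (dlOf (nat_lit 1) (nat_lit 0x2400400020018e40002))) 
(.lf (nat_lit 805871619) (dlOf (nat_lit 27) (nat_lit 0x77021006ae80803c01080357004006c08001a5502026404b00de021805e80f8007c03c005400000c8a8500f90258045810c024007c00e401e0072000006444280510110021820402b0088010690200b2044008338100f10220041580804d0110020a60401440880105202007e044008288101b90220041400807b8110020920403ac05a00f9d020324044007c081026b022003dfc080e2011001ee804030808800f720204e6044007b681023802200af010c01ea008000805a00f2c02039602d0078e810001016803c6c080c700b401e10040038098028002d000000281d0000)))) 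
(.lf (nat_lit 2952838275) (dlOf (nat_lit 1) (nat_lit 0x38008001c0020008000800c183))))) 
(.nd (nat_lit 7) (.nd (nat_lit 9) (.nd (nat_lit 10) 
(.lf (nat_lit 474521603) (dlOf (nat_lit 1) (nat_lit 0x4002000200091a0002))) 
(.lf (nat_lit 469804035) (dlOf (nat_lit 1) (nat_lit 0x40028002881)))) 
(.lf (nat_lit 1543545347) (dlOf (nat_lit 5) (nat_lit 0x2c05c0007d02001602e0003e0100100170001d40800880b8000e60400e800400b000180b0d82)))) 
(.nd (nat_lit 8) (.lf (nat_lit 1946201219) (dlOf (nat_lit 1) (nat_lit 0x800400020008006102))) 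
(.lf (nat_lit 4093684099) (dlOf (nat_lit 1) (nat_lit 0x360018004e81))))))) (.nd (nat_lit 8) 
(.nd (nat_lit 15) (.nd (nat_lit 30) (.nd (nat_lit 10) (.nd (nat_lit 19) 
(.lf (nat_lit 473964611) (dlOf (nat_lit 2) (nat_lit 0x550b4800544080018008000c00200020008fe0603))) 
(.lf (nat_lit 805838915) (dlOf (nat_lit 1) (nat_lit 0x80080004002000200081c0d03)))) 
(.nd (nat_lit 9) (.nd (nat_lit 11) 
(.lf (nat_lit 2952803395) (dlOf (nat_lit 1) (nat_lit 0x2e0018009301))) 
(.lf (nat_lit 2550148163) (dlOf (nat_lit 1) (nat_lit 0x80028006081)))) 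
(.lf (nat_lit 4630521411) (dlOf (nat_lit 1) (nat_lit 0x20028003801))))) (.nd (nat_lit 7) 
(.nd (nat_lit 19) 
(.lf (nat_lit 1346379843) (dlOf (nat_lit 2) (nat_lit 0x202d002f9a04001000400060008f60002))) 
(.lf (nat_lit 3492290627) (dlOf (nat_lit 1) (nat_lit 0x200180c1401)))) (.nd (nat_lit 11) 
(.lf (nat_lit 1476408003) (dlOf (nat_lit 1) (nat_lit 0x20028008c81))) 
(.lf (nat_lit 1342192323) (dlOf (nat_lit 1) (nat_lit 0x1280080020002000e000800b983)))))) 
(.nd (nat_lit 7) (.nd (nat_lit 21) (.nd (nat_lit 26) 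
(.lf (nat_lit 3494420547) (dlOf (nat_lit 1) (nat_lit 0x680080004002001e0008220c03))) 
(.lf (nat_lit 474521667) (dlOf (nat_lit 2) (nat_lit 0x8704b0057821000140e80023c06000400191a0601)))) 
(.nd (nat_lit 9) 
(.lf (nat_lit 1881186371) (dlOf (nat_lit 2) (nat_lit 0x1071800544080018008000800200060008e40603))) 
(.lf (nat_lit 472427075) (dlOf (nat_lit 1) (nat_lit 0x20028985201))))) (.nd (nat_lit 9) 
(.nd (nat_lit 19) (.lf (nat_lit 1543545027) (dlOf (nat_lit 1) (nat_lit 0x10004001800080b0402))) 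
(.lf (nat_lit 4095254723) (dlOf (nat_lit 1) (nat_lit 0x400200020008081b82)))) 
(.lf (nat_lit 1476440771) (dlOf (nat_lit 1) (nat_lit 0x400200020008008c82)))))) (.nd (nat_lit 9) 
(.nd (nat_lit 7) (.nd (nat_lit 10) (.nd (nat_lit 15) 
(.lf (nat_lit 1346380099) (dlOf (nat_lit 4) (nat_lit 0x410f00006c0800208780003404000443c000130200020028f60c01))) 
(.lf (nat_lit 1543545155) (dlOf (nat_lit 2) (nat_lit 0x602c0002b0180b0600)))) (.nd (nat_lit 26) 
(.lf (nat_lit 1342192963) (dlOf (nat_lit 1) (nat_lit 0xe800800340020014000800c903))) 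
(.lf (nat_lit 4227874115) (dlOf (nat_lit 2) (nat_lit 0x1006400662020004001800c901))))) 
(.nd (nat_lit 12) (.nd (nat_lit 11) 
(.lf (nat_lit 6375383491) (dlOf (nat_lit 1) (nat_lit 0x700018001081))) 
(.lf (nat_lit 1344809411) (dlOf (nat_lit 2) (nat_lit 0x1415500599018984e80)))) (.nd (nat_lit 26) 
(.lf (nat_lit 1476409795) (dlOf (nat_lit 3) (nat_lit 0x3010c00040740002035000401a00008048000401000a5a0c000203400050090028ec10008800800200020108000800af83))) 
(.lf (nat_lit 3691002307) (dlOf (nat_lit 3) (nat_lit 0x601d001a0020029441000080100148c0400100020006000800af82)))))) 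
(.nd (nat_lit 12) (.nd (nat_lit 7) (.nd (nat_lit 32) 
(.lf (nat_lit 402697027) (dlOf (nat_lit 1) (nat_lit 0x4004002e0008005c02))) 
(.lf (nat_lit 4697664323) (dlOf (nat_lit 1) (nat_lit 0x540008005c01)))) (.nd (nat_lit 32) 
(.lf (nat_lit 402697155) (dlOf (nat_lit 2) (nat_lit 0x14013000a00900008044000320c001c00200040008005d82))) 
(.lf (nat_lit 4697664451) (dlOf (nat_lit 3) (nat_lit 0x408200020000001702000202100000c080070008003c00200080008005d83))))) 
(.nd (nat_lit 10) (.nd (nat_lit 15) 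
(.lf (nat_lit 2483043267) (dlOf (nat_lit 2) (nat_lit 0x201200028070000c004001ba060004002800be01))) 
(.lf (nat_lit 1409334211) (dlOf (nat_lit 3) (nat_lit 0x140022001ba020002011000d301800be00)))) 
(.lf (nat_lit 3623892931) (dlOf (nat_lit 2) (nat_lit 0x5009002be808002000800140020018000800a603))))))))) 
(.nd (nat_lit 15) (.nd (nat_lit 28) (.nd (nat_lit 23) (.nd (nat_lit 7) (.nd (nat_lit 19) 
(.nd (nat_lit 26) (.nd (nat_lit 30) 
(.lf (nat_lit 6576939011) (dlOf (nat_lit 1) (nat_lit 0xc002000600081d0002))) 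
(.lf (nat_lit 3355713539) (dlOf (nat_lit 2) (nat_lit 0x210170016bc0800080080010002000600080d0003)))) 
(.nd (nat_lit 9) (.lf (nat_lit 5972959235) (dlOf (nat_lit 1) (nat_lit 0xc002000600081d0002))) 
(.lf (nat_lit 3288605187) (dlOf (nat_lit 2) (nat_lit 0x8e036000b4018090d80))))) (.nd (nat_lit 8) 
(.nd (nat_lit 20) (.lf (nat_lit 2819366915) (dlOf (nat_lit 1) (nat_lit 0x1c400200140008250002))) 
(.lf (nat_lit 2755403779) (dlOf (nat_lit 1) (nat_lit 0x8008000400200020008180003)))) 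
(.lf (nat_lit 8136451) (dlOf (nat_lit 1) (nat_lit 0x400400020018513b82))))) (.nd (nat_lit 6) 
(.nd (nat_lit 9) 
(.lf (nat_lit 2818849923) (dlOf (nat_lit 1) (nat_lit 0xc800800a400200cc000812c183))) 
(.nd (nat_lit 19) (.lf (nat_lit 1610884739) (dlOf (nat_lit 1) (nat_lit 0x80018093a01))) 
(.lf (nat_lit 8136323) (dlOf (nat_lit 2) (nat_lit 0x5a0d00019018513a00))))) (.nd (nat_lit 12) 
(.nd (nat_lit 9) (.lf (nat_lit 3416515) (dlOf (nat_lit 1) (nat_lit 0x820028200901))) 
(.lf (nat_lit 2885953475) (dlOf (nat_lit 1) (nat_lit 0x140028144401)))) (.nd (nat_lit 8) 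
(.lf (nat_lit 20198083) (dlOf (nat_lit 1) (nat_lit 0x4002000200089d8c82))) 
(.lf (nat_lit 2818847683) (dlOf (nat_lit 2) (nat_lit 0x5e07200000018129200))))))) (.nd (nat_lit 19) 
(.nd (nat_lit 24) (.nd (nat_lit 7) (.nd (nat_lit 20) 
(.lf (nat_lit 44310531) (dlOf (nat_lit 1) (nat_lit 0x20004001c00092f0002))) 
(.lf (nat_lit 9707523) (dlOf (nat_lit 1) (nat_lit 0xe0028570001)))) (.nd (nat_lit 6) 
(.lf (nat_lit 46410115) (dlOf (nat_lit 1) (nat_lit 0x80009384e81))) 
(.lf (nat_lit 42214595) (dlOf (nat_lit 1) (nat_lit 0x20019242d01))))) (.nd (nat_lit 6) 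
(.nd (nat_lit 7) (.lf (nat_lit 26484739) (dlOf (nat_lit 1) (nat_lit 0x20008c50001))) 
(.lf (nat_lit 29630595) (dlOf (nat_lit 1) (nat_lit 0x8008000400200020008e30483)))) 
(.nd (nat_lit 20) (.lf (nat_lit 29630531) (dlOf (nat_lit 1) (nat_lit 0x4800200020008e30002))) 
(.lf (nat_lit 26484803) (dlOf (nat_lit 1) (nat_lit 0x8004000a0018c50582)))))) (.nd (nat_lit 25) 
(.nd (nat_lit 6) (.lf (nat_lit 12329475) (dlOf (nat_lit 1) (nat_lit 0x4004005a00086c0d82))) 
(.nd (nat_lit 7) (.lf (nat_lit 33303107) (dlOf (nat_lit 1) (nat_lit 0x2c00400020008f55202))) 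
(.lf (nat_lit 12329155) (dlOf (nat_lit 1) (nat_lit 0x11200086c0401))))) (.nd (nat_lit 7) 
(.nd (nat_lit 8) 
(.lf (nat_lit 59514883) (dlOf (nat_lit 7) (nat_lit 0xa2c98064f80800f964c00289a80193304000867e003833e80181654011380c0010cfa007f002002467d003f701006233f000399f0001cb2a01885940001273006e93500000018026c00400160009800002))) 
(.lf (nat_lit 50080515) (dlOf (nat_lit 2) (nat_lit 0x59c8660110000000188294c5a80)))) 
(.lf (nat_lit 43787907) (dlOf (nat_lit 1) (nat_lit 0x400192a3a01))))))) (.nd (nat_lit 6) 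
(.nd (nat_lit 20) (.nd (nat_lit 26) (.nd (nat_lit 27) (.nd (nat_lit 30) 
(.lf (nat_lit 4563673091) (dlOf (nat_lit 5) (nat_lit 0x10034001d019000e80bc007403e003801500c8b0500030178064540803600bc000c0240187004001e02f00020090061bc1004000080004002002400080c0003))) 
(.lf (nat_lit 1342447619) (dlOf (nat_lit 1) (nat_lit 0x4c00200020008030002)))) 
(.lf (nat_lit 4697890819) (dlOf (nat_lit 5) (nat_lit 0x10034001d019000e80bc007403e003801500e318500030178071880803600bc000c02401bd604001e02f0002009006f541004000080004002002400080c0003)))) 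
(.nd (nat_lit 30) (.nd (nat_lit 31) 
(.lf (nat_lit 470032387) (dlOf (nat_lit 1) (nat_lit 0x4c00200020008030002))) 
(.lf (nat_lit 2617516035) (dlOf (nat_lit 2) (nat_lit 0x21015802d200800080080010002000600080d0003)))) 
(.lf (nat_lit 3691257859) (dlOf (nat_lit 1) (nat_lit 0x8008000800200020008100003))))) 
(.nd (nat_lit 27) (.nd (nat_lit 9) (.nd (nat_lit 19) 
(.lf (nat_lit 1343496195) (dlOf (nat_lit 1) (nat_lit 0x800400080018280002))) 
(.lf (nat_lit 3493601283) (dlOf (nat_lit 1) (nat_lit 0x8008000400200020008180003)))) 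
(.lf (nat_lit 3491504643) (dlOf (nat_lit 1) (nat_lit 0x400200120008090d82)))) (.nd (nat_lit 26) 
(.lf (nat_lit 5773205507) (dlOf (nat_lit 3) (nat_lit 0xf013000e698100480978032e80800480080078002000e00080b0003))) 
(.nd (nat_lit 29) (.lf (nat_lit 471605251) (dlOf (nat_lit 1) (nat_lit 0x800200380008350002))) 
(.lf (nat_lit 6377185283) (dlOf (nat_lit 3) (nat_lit 0xf012100cb7010048090001c440800480080078002000e00080b0003))))))) 
(.nd (nat_lit 8) (.nd (nat_lit 10) (.nd (nat_lit 19) (.nd (nat_lit 7) 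
(.lf (nat_lit 1879318595) (dlOf (nat_lit 1) (nat_lit 0x200280d0e01))) 
(.lf (nat_lit 4563673283) (dlOf (nat_lit 1) (nat_lit 0x200180c1b81)))) (.nd (nat_lit 26) 
(.lf (nat_lit 5773205571) (dlOf (nat_lit 1) (nat_lit 0x400080b0581))) 
(.lf (nat_lit 6377185347) (dlOf (nat_lit 1) (nat_lit 0x400080b0581))))) (.nd (nat_lit 7) 
(.nd (nat_lit 9) (.lf (nat_lit 5772682307) (dlOf (nat_lit 1) (nat_lit 0x400400020008092882))) 
(.lf (nat_lit 6375614019) (dlOf (nat_lit 1) (nat_lit 0x80018003801)))) 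
(.lf (nat_lit 3624152259) (dlOf (nat_lit 1) (nat_lit 0x20028146381))))) (.nd (nat_lit 27) 
(.nd (nat_lit 7) (.nd (nat_lit 9) 
(.lf (nat_lit 3490980163) (dlOf (nat_lit 1) (nat_lit 0x400200020008047f02))) 
(.lf (nat_lit 3493078851) (dlOf (nat_lit 5) (nat_lit 0xa216000710a80018850000c400000360800182080001a81000210b000288540028428000c20800071000000d0280010858001842a000421400021040004080000056140008004002600180f3e02)))) 
(.lf (nat_lit 1346644419) (dlOf (nat_lit 1) (nat_lit 0x1a0018fe4e81)))) (.nd (nat_lit 7) 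
(.nd (nat_lit 19) (.lf (nat_lit 2080645443) (dlOf (nat_lit 1) (nat_lit 0x4004000200080a5f82))) 
(.lf (nat_lit 6376137027) (dlOf (nat_lit 8) (nat_lit 0x181100001601000b08800038000000560800302200002a02001a11000100000000a4100090440007400000005040012110000d0000000081000804400004000000000400260018090c01)))) 
(.lf (nat_lit 5772157379) (dlOf (nat_lit 1) (nat_lit 0x400400020008091082)))))))) (.nd (nat_lit 29) 
(.nd (nat_lit 19) (.nd (nat_lit 31) (.nd (nat_lit 6) (.nd (nat_lit 21) (.nd (nat_lit 20) 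
(.lf (nat_lit 1476698115) (dlOf (nat_lit 1) (nat_lit 0x10008007c00200240008140003))) 
(.lf (nat_lit 22323203) (dlOf (nat_lit 1) (nat_lit 0xa0008ac0001)))) (.nd (nat_lit 22) 
(.nd (nat_lit 25) (.lf (nat_lit 10788867) (dlOf (nat_lit 1) (nat_lit 0x800400020018630002))) 
(.lf (nat_lit 44343299) (dlOf (nat_lit 3) (nat_lit 0x318f80010c4e01c6304000863e0004313806f581000880080040002000a00092f0003)))) 
(.lf (nat_lit 14983171) (dlOf (nat_lit 2) (nat_lit 0x46750046f8187a0000))))) (.nd (nat_lit 20) 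
(.nd (nat_lit 27) (.lf (nat_lit 4563706051) (dlOf (nat_lit 1) (nat_lit 0x600080c1b81))) 
(.lf (nat_lit 4697923779) (dlOf (nat_lit 1) (nat_lit 0x58008003c002001600080c1703)))) 
(.nd (nat_lit 7) (.lf (nat_lit 22323267) (dlOf (nat_lit 1) (nat_lit 0xc800400560008ac0d82))) 
(.lf (nat_lit 20230851) (dlOf (nat_lit 1) (nat_lit 0x4002000200089d8c82)))))) (.nd (nat_lit 26) 
(.nd (nat_lit 8) (.nd (nat_lit 22) 
(.lf (nat_lit 3355746307) (dlOf (nat_lit 1) (nat_lit 0x1400280f0001))) 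
(.lf (nat_lit 3494158339) (dlOf (nat_lit 5) (nat_lit 0x102980010140000809a000a03d005bf04000102a0002814c00100a0000a04d005be84000802a0003814c00080a20008050000402700058134002408a001603d005be08000b02e8004015000200a60012051000902800050138001409a000e045000401f800500f4001005c000a027000500e00020054016f2380024002000c00081c0002)))) 
(.nd (nat_lit 6) 
(.lf (nat_lit 3624185219) (dlOf (nat_lit 2) (nat_lit 0xd00280000d0200600018146c01))) 
(.lf (nat_lit 3221528899) (dlOf (nat_lit 2) (nat_lit 0x150210012f0080020008001800200040008124c03))))) 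
(.nd (nat_lit 28) (.nd (nat_lit 7) 
(.lf (nat_lit 6644080643) (dlOf (nat_lit 2) (nat_lit 0x40000033c8180e0000))) 
(.lf (nat_lit 6509863299) (dlOf (nat_lit 1) (nat_lit 0x184004007a0008155a82)))) (.nd (nat_lit 30) 
(.lf (nat_lit 2617548803) (dlOf (nat_lit 1) (nat_lit 0x80080004002000200080f0003))) 
(.lf (nat_lit 3691290627) (dlOf (nat_lit 8) (nat_lit 0xc02a0068a0200040150034381001300a801a1008004804000af004001c02000572020012010001f601000300a800000080058008038c00200020008110003))))))) 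
(.nd (nat_lit 20) (.nd (nat_lit 21) (.nd (nat_lit 23) (.nd (nat_lit 8) 
(.lf (nat_lit 4362903555) (dlOf (nat_lit 1) (nat_lit 0x4002002800081a0002))) 
(.lf (nat_lit 67941123) (dlOf (nat_lit 1) (nat_lit 0x10008000400200020008338f83)))) 
(.nd (nat_lit 6) (.lf (nat_lit 42770435) (dlOf (nat_lit 1) (nat_lit 0x20019280001))) 
(.lf (nat_lit 42770499) (dlOf (nat_lit 2) (nat_lit 0x6fab80009b7c000aa029280600))))) 
(.nd (nat_lit 6) (.nd (nat_lit 7) 
(.lf (nat_lit 11313155) (dlOf (nat_lit 1) (nat_lit 0xc00400040008690002))) 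
(.lf (nat_lit 36479107) (dlOf (nat_lit 1) (nat_lit 0x400200020009070302)))) (.nd (nat_lit 7) 
(.lf (nat_lit 36481603) (dlOf (nat_lit 1) (nat_lit 0x20019075201))) 
(.lf (nat_lit 19706563) (dlOf (nat_lit 1) (nat_lit 0x200189d8c81)))))) (.nd (nat_lit 22) 
(.nd (nat_lit 6) (.lf (nat_lit 1346150403) (dlOf (nat_lit 2) (nat_lit 0x2014c0070a018e60000))) 
(.lf (nat_lit 1346150467) (dlOf (nat_lit 12) (nat_lit 0xdc14d00a106c80300360019c0fa00c607c0012485000303e800401f0004900807e029a04680d9025506c00fe81f407e40f8002470a00b414d001903e000914100028364003e40401441b2005c07d00370180007c018146853007c029603b214200ac092006803bc09f41ae043a0d6007b065013b01ec02140e400ce046017801700ef00b402e0000001541c000614a0009b81003a0a60003d00800281f400280f80009404007814d002903e0000001027b0008032c0020a540008e60603)))) 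
(.nd (nat_lit 8) (.nd (nat_lit 21) 
(.lf (nat_lit 31236099) (dlOf (nat_lit 1) (nat_lit 0x800200020008e70002))) 
(.lf (nat_lit 24944643) (dlOf (nat_lit 1) (nat_lit 0x8008000400200020008bd0003)))) 
(.lf (nat_lit 8173315) (dlOf (nat_lit 1) (nat_lit 0x2002851a001))))))) (.nd (nat_lit 26) 
(.nd (nat_lit 7) (.nd (nat_lit 28) (.nd (nat_lit 6) (.nd (nat_lit 27) 
(.lf (nat_lit 3758399491) (dlOf (nat_lit 2) (nat_lit 0x10060002202200206828170000))) 
(.lf (nat_lit 6040100867) (dlOf (nat_lit 2) (nat_lit 0x800000cf2040048002000200080e0002)))) 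
(.nd (nat_lit 9) 
(.lf (nat_lit 3758399555) (dlOf (nat_lit 2) (nat_lit 0x405800040250001e028170580))) 
(.lf (nat_lit 1610917443) (dlOf (nat_lit 1) (nat_lit 0x40028093801))))) (.nd (nat_lit 27) 
(.nd (nat_lit 30) (.lf (nat_lit 2953093123) (dlOf (nat_lit 1) (nat_lit 0x4800400040008100002))) 
(.lf (nat_lit 1879351299) (dlOf (nat_lit 1) (nat_lit 0xb00080018002013000080f0003)))) 
(.lf (nat_lit 3087310851) (dlOf (nat_lit 1) (nat_lit 0x20018170001))))) (.nd (nat_lit 30) 
(.nd (nat_lit 27) 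
(.lf (nat_lit 4832142979) (dlOf (nat_lit 1) (nat_lit 0x600080008002001c00080d3a03))) 
(.lf (nat_lit 5234796163) (dlOf (nat_lit 1) (nat_lit 0x700080008002003e00080d3a03)))) 
(.nd (nat_lit 8) (.lf (nat_lit 1610917507) (dlOf (nat_lit 1) (nat_lit 0x40028093a01))) 
(.lf (nat_lit 5905883523) (dlOf (nat_lit 1) (nat_lit 0x184004007a0008155a82)))))) (.nd (nat_lit 27) 
(.nd (nat_lit 10) (.nd (nat_lit 28) (.nd (nat_lit 22) (.nd (nat_lit 30) 
(.lf (nat_lit 604282883) (dlOf (nat_lit 1) (nat_lit 0xa0018130001))) 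
(.lf (nat_lit 3825508355) (dlOf (nat_lit 1) (nat_lit 0x20018170001)))) 
(.lf (nat_lit 2755960835) (dlOf (nat_lit 5) (nat_lit 0x102980010140000809a000a03d002f704000102a0002814c00100a0000a04d002f684000802a0003814c00080a20008050000402700058134002408a001603d002f608000b02e8004015000200a60012051000902800050138001409a000e045000401f800500f4001005c000a027000500e0002005400bd2380024002000c00081c0002)))) 
(.nd (nat_lit 31) 
(.lf (nat_lit 5167685635) (dlOf (nat_lit 3) (nat_lit 0x40040093402000400200000018100000))) 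
(.lf (nat_lit 3020201987) (dlOf (nat_lit 1) (nat_lit 0x400200020008150002))))) (.nd (nat_lit 7) 
(.lf (nat_lit 2751767555) (dlOf (nat_lit 1) (nat_lit 0x400200020008002882))) 
(.lf (nat_lit 2751768451) (dlOf (nat_lit 1) (nat_lit 0x80018004181))))) (.nd (nat_lit 6) 
(.nd (nat_lit 9) 
(.lf (nat_lit 1006936067) (dlOf (nat_lit 1) (nat_lit 0xb00080018002013000080f0003))) 
(.lf (nat_lit 3959726595) (dlOf (nat_lit 1) (nat_lit 0x20018127f81)))) (.nd (nat_lit 9) 
(.nd (nat_lit 31) 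
(.lf (nat_lit 1812242755) (dlOf (nat_lit 1) (nat_lit 0x1e00080004002002e00081a7f03))) 
(.lf (nat_lit 3959726403) (dlOf (nat_lit 2) (nat_lit 0x15021002944080020008001800200040008124c03)))) 
(.lf (nat_lit 2885986115) (dlOf (nat_lit 1) (nat_lit 0x800400020018143e02))))))))))) 
(.nd (nat_lit 18) (.nd (nat_lit 26) (.nd (nat_lit 6) (.nd (nat_lit 19) (.nd (nat_lit 11) 
(.nd (nat_lit 10) (.nd (nat_lit 15) (.nd (nat_lit 22) (.nd (nat_lit 8) 
(.lf (nat_lit 27262983) (dlOf (nat_lit 1) (nat_lit 0x1e0018cc0281))) 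
(.lf (nat_lit 1048839) (dlOf (nat_lit 1) (nat_lit 0x960028067c01)))) (.nd (nat_lit 13) 
(.lf (nat_lit 22020103) (dlOf (nat_lit 1) (nat_lit 0x400200020008a90002))) 
(.lf (nat_lit 22028295) (dlOf (nat_lit 1) (nat_lit 0x20028a90001))))) (.nd (nat_lit 8) 
(.nd (nat_lit 22) (.lf (nat_lit 17858567) (dlOf (nat_lit 1) (nat_lit 0x18002000600088f0482))) 
(.lf (nat_lit 22052871) (dlOf (nat_lit 1) (nat_lit 0x400200020008a90002)))) 
(.lf (nat_lit 19960583) (dlOf (nat_lit 1) (nat_lit 0x7c00089d8f81))))) (.nd (nat_lit 31) 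
(.nd (nat_lit 13) (.nd (nat_lit 15) 
(.lf (nat_lit 39847047) (dlOf (nat_lit 1) (nat_lit 0x200291f2b01))) 
(.lf (nat_lit 39879815) (dlOf (nat_lit 1) (nat_lit 0x180080008002000600091f2b03)))) 
(.nd (nat_lit 7) (.lf (nat_lit 5637153799) (dlOf (nat_lit 1) (nat_lit 0x20018002881))) 
(.lf (nat_lit 8398727) (dlOf (nat_lit 1) (nat_lit 0x40018514181))))) (.nd (nat_lit 8) 
(.nd (nat_lit 13) 
(.lf (nat_lit 2147517447) (dlOf (nat_lit 2) (nat_lit 0x3005000e8604002c00200100008002882))) 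
(.lf (nat_lit 3221234695) (dlOf (nat_lit 1) (nat_lit 0x20008002881)))) (.nd (nat_lit 29) 
(.lf (nat_lit 2415920903) (dlOf (nat_lit 1) (nat_lit 0x2000400080018003b82))) 
(.lf (nat_lit 4026533639) (dlOf (nat_lit 1) (nat_lit 0x20018003b81))))))) (.nd (nat_lit 7) 
(.nd (nat_lit 13) (.nd (nat_lit 8) (.nd (nat_lit 28) 
(.lf (nat_lit 4294970887) (dlOf (nat_lit 1) (nat_lit 0x400400020008007002))) 
(.lf (nat_lit 1879051783) (dlOf (nat_lit 1) (nat_lit 0x400400020008007002)))) 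
(.lf (nat_lit 2952797447) (dlOf (nat_lit 1) (nat_lit 0x800800040020002000800c603)))) 
(.nd (nat_lit 30) (.nd (nat_lit 27) 
(.lf (nat_lit 4294978823) (dlOf (nat_lit 1) (nat_lit 0x400400020008006682))) 
(.lf (nat_lit 2550148359) (dlOf (nat_lit 1) (nat_lit 0x800400020008006682)))) (.nd (nat_lit 15) 
(.lf (nat_lit 1879059719) (dlOf (nat_lit 1) (nat_lit 0x400400020008006682))) 
(.lf (nat_lit 1342221575) (dlOf (nat_lit 1) (nat_lit 0x380028006681)))))) (.nd (nat_lit 8) 
(.nd (nat_lit 9) (.nd (nat_lit 13) 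
(.lf (nat_lit 1342184583) (dlOf (nat_lit 1) (nat_lit 0x40040002000800c202))) 
(.lf (nat_lit 1342192775) (dlOf (nat_lit 1) (nat_lit 0xc0020006000800c202)))) (.nd (nat_lit 13) 
(.lf (nat_lit 1476434567) (dlOf (nat_lit 2) (nat_lit 0x3180000098c040008002000e000800b682))) 
(.lf (nat_lit 1476442759) (dlOf (nat_lit 1) (nat_lit 0xc0020004000800b682))))) (.nd (nat_lit 9) 
(.nd (nat_lit 15) (.lf (nat_lit 3489671559) (dlOf (nat_lit 1) (nat_lit 0x20018004e81))) 
(.lf (nat_lit 1342220679) (dlOf (nat_lit 1) (nat_lit 0xa0028004e81)))) 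
(.lf (nat_lit 2952793991) (dlOf (nat_lit 4) (nat_lit 0x601c0025d01000b00e00129c0800080700094a04000400400060008007782))))))) 
(.nd (nat_lit 13) (.nd (nat_lit 20) (.nd (nat_lit 15) (.nd (nat_lit 8) (.nd (nat_lit 22) 
(.lf (nat_lit 1611137031) (dlOf (nat_lit 9) (nat_lit 0x4c0a600260350012010800a00740034014002050a002603d000d481001801d8002c80800300fc000fa04005007e0007c02000c03f0003d01000803400050178009807e002001400039840006010800000080c280080214002004a00080f0583))) 
(.lf (nat_lit 55050247) (dlOf (nat_lit 2) (nat_lit 0x42630037ac080060008001c00200100009690003)))) 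
(.lf (nat_lit 50856199) (dlOf (nat_lit 1) (nat_lit 0xce00294d3581)))) (.nd (nat_lit 7) 
(.nd (nat_lit 21) (.nd (nat_lit 27) 
(.lf (nat_lit 805863431) (dlOf (nat_lit 1) (nat_lit 0x1780080064002005400081d0003))) 
(.lf (nat_lit 3624435719) (dlOf (nat_lit 4) (nat_lit 0xd4036001d402000a040000e581000402000000008004000800c000200ac00081a0483)))) 
(.lf (nat_lit 11042823) (dlOf (nat_lit 2) (nat_lit 0x35612c0000004014400400e60018660002)))) 
(.nd (nat_lit 8) 
(.lf (nat_lit 537428103) (dlOf (nat_lit 2) (nat_lit 0x8702e000000080068008002000200180008090103))) 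
(.lf (nat_lit 57182599) (dlOf (nat_lit 1) (nat_lit 0x20029794e81)))))) (.nd (nat_lit 15) 
(.nd (nat_lit 23) (.nd (nat_lit 8) 
(.lf (nat_lit 3493330951) (dlOf (nat_lit 1) (nat_lit 0x1000400100008110002))) 
(.lf (nat_lit 1345847559) (dlOf (nat_lit 1) (nat_lit 0x3a0028e03a01)))) (.nd (nat_lit 7) 
(.lf (nat_lit 9961479) (dlOf (nat_lit 8) (nat_lit 0x2a56000b481000252b00059c0800193040018e0400394ae000bd0200084c20005b81000152b00007408000a95800038040070002000200085a0582))) 
(.lf (nat_lit 28835975) (dlOf (nat_lit 1) (nat_lit 0x400200020008da0482))))) (.nd (nat_lit 7) 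
(.nd (nat_lit 9) (.nd (nat_lit 22) 
(.lf (nat_lit 3702791) (dlOf (nat_lit 1) (nat_lit 0x2a0028210401))) 
(.lf (nat_lit 16285703) (dlOf (nat_lit 1) (nat_lit 0x800400020018880002)))) 
(.lf (nat_lit 58229255) (dlOf (nat_lit 2) (nat_lit 0x4bd200c0e02000400097c7b01)))) 
(.nd (nat_lit 21) (.lf (nat_lit 56134023) (dlOf (nat_lit 1) (nat_lit 0xe0009734e81))) 
(.lf (nat_lit 37259655) (dlOf (nat_lit 1) (nat_lit 0x1800090d4e81))))))) (.nd (nat_lit 15) 
(.nd (nat_lit 8) (.nd (nat_lit 9) (.nd (nat_lit 27) 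
(.lf (nat_lit 4027064327) (dlOf (nat_lit 1) (nat_lit 0x600081d0001))) 
(.lf (nat_lit 3624411143) (dlOf (nat_lit 2) (nat_lit 0xc8000014660400a4002000e0008190002)))) 
(.nd (nat_lit 10) (.lf (nat_lit 1345856007) (dlOf (nat_lit 1) (nat_lit 0x20018e07b01))) 
(.lf (nat_lit 61351431) (dlOf (nat_lit 1) (nat_lit 0x400400020009923682))))) (.nd (nat_lit 11) 
(.nd (nat_lit 20) (.lf (nat_lit 50864391) (dlOf (nat_lit 1) (nat_lit 0x200194d3581))) 
(.lf (nat_lit 1345855751) (dlOf (nat_lit 1) (nat_lit 0x4004000c0018e03a02)))) (.nd (nat_lit 10) 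
(.lf (nat_lit 8927495) (dlOf (nat_lit 1) (nat_lit 0x26001851aa01))) 
(.lf (nat_lit 20458759) (dlOf (nat_lit 1) (nat_lit 0x200289d6681)))))) (.nd (nat_lit 20) 
(.nd (nat_lit 7) (.nd (nat_lit 21) (.nd (nat_lit 27) 
(.lf (nat_lit 805871623) (dlOf (nat_lit 6) (nat_lit 0xdd022000680ec020e80800340760105e0200820440082c81000101a8040e0080aa811001f1604001800200c600081d0002))) 
(.lf (nat_lit 3892879367) (dlOf (nat_lit 1) (nat_lit 0x20028280001)))) 
(.lf (nat_lit 11051015) (dlOf (nat_lit 3) (nat_lit 0xba7cd00384010252c258000000800f8008000400200020008660003)))) 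
(.lf (nat_lit 537436295) (dlOf (nat_lit 1) (nat_lit 0x100018090101)))) (.nd (nat_lit 9) 
(.nd (nat_lit 7) (.lf (nat_lit 5808135) (dlOf (nat_lit 1) (nat_lit 0x4004000400083e0002))) 
(.lf (nat_lit 56142215) (dlOf (nat_lit 1) (nat_lit 0x400400020009734e82)))) (.nd (nat_lit 22) 
(.lf (nat_lit 1345888775) (dlOf (nat_lit 1) (nat_lit 0x1000400080008e07b02))) 
(.lf (nat_lit 58237447) (dlOf (nat_lit 3) (nat_lit 0xba914014f004002548a00a6602004000197c7b01))))))))) 
(.nd (nat_lit 15) (.nd (nat_lit 10) (.nd (nat_lit 8) (.nd (nat_lit 13) (.nd (nat_lit 19) 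
(.nd (nat_lit 7) (.lf (nat_lit 51380295) (dlOf (nat_lit 1) (nat_lit 0x920009510001))) 
(.lf (nat_lit 1476399815) (dlOf (nat_lit 1) (nat_lit 0x400200020008008c82)))) (.nd (nat_lit 27) 
(.lf (nat_lit 805830727) (dlOf (nat_lit 1) (nat_lit 0x28002002e00081b0e02))) 
(.lf (nat_lit 134742087) (dlOf (nat_lit 6) (nat_lit 0x1900ec000400400180760001602014603b0000901009f01d8000440805080ec0001e040094002009a00080a0e02))))) 
(.nd (nat_lit 9) (.nd (nat_lit 20) 
(.lf (nat_lit 134750279) (dlOf (nat_lit 2) (nat_lit 0x201b000048080208008004c002007c00080a0e03))) 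
(.lf (nat_lit 3678279) (dlOf (nat_lit 1) (nat_lit 0x28008000400200040008210e03)))) 
(.lf (nat_lit 1342710343) (dlOf (nat_lit 5) (nat_lit 0x4123803708f00009c0804044780004c02020223c0001c01007b11e0000dc08017800800b000200a200080c1103))))) 
(.nd (nat_lit 7) (.nd (nat_lit 9) (.nd (nat_lit 11) 
(.lf (nat_lit 3892846919) (dlOf (nat_lit 3) (nat_lit 0xc0a8000a014000ec82000401980020058003860800e400200100008280782))) 
(.nd (nat_lit 13) (.lf (nat_lit 536873287) (dlOf (nat_lit 1) (nat_lit 0x300028004d01))) 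
(.lf (nat_lit 536881479) (dlOf (nat_lit 1) (nat_lit 0x1020028004d01))))) 
(.lf (nat_lit 54537031) (dlOf (nat_lit 1) (nat_lit 0x100009655c01)))) (.nd (nat_lit 9) 
(.nd (nat_lit 11) (.lf (nat_lit 50856391) (dlOf (nat_lit 1) (nat_lit 0x800294d7a81))) 
(.lf (nat_lit 51390919) (dlOf (nat_lit 1) (nat_lit 0x18002000a0009514e82)))) (.nd (nat_lit 11) 
(.lf (nat_lit 1342182343) (dlOf (nat_lit 2) (nat_lit 0x808e0024b018009200))) 
(.lf (nat_lit 5368720327) (dlOf (nat_lit 2) (nat_lit 0x800500011018005d80))))))) (.nd (nat_lit 27) 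
(.nd (nat_lit 28) (.nd (nat_lit 8) (.nd (nat_lit 11) (.nd (nat_lit 29) 
(.lf (nat_lit 1073742919) (dlOf (nat_lit 1) (nat_lit 0x400400020008002882))) 
(.lf (nat_lit 536872007) (dlOf (nat_lit 1) (nat_lit 0x400400020008002882)))) 
(.lf (nat_lit 20458567) (dlOf (nat_lit 1) (nat_lit 0x400289d6081)))) 
(.lf (nat_lit 1863) (dlOf (nat_lit 1) (nat_lit 0x1000800ec00200200008003e03)))) (.nd (nat_lit 29) 
(.nd (nat_lit 7) (.lf (nat_lit 2415920199) (dlOf (nat_lit 1) (nat_lit 0x400400020008002882))) 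
(.lf (nat_lit 1342189255) (dlOf (nat_lit 1) (nat_lit 0x40008000c00200020008007303)))) 
(.nd (nat_lit 12) 
(.lf (nat_lit 4026532935) (dlOf (nat_lit 1) (nat_lit 0x8008000400200040008002883))) 
(.lf (nat_lit 2952795207) (dlOf (nat_lit 1) (nat_lit 0x1800201660008009302)))))) (.nd (nat_lit 32) 
(.nd (nat_lit 7) (.nd (nat_lit 8) 
(.lf (nat_lit 2281707079) (dlOf (nat_lit 1) (nat_lit 0x400400020018009c02))) 
(.lf (nat_lit 3623880519) (dlOf (nat_lit 3) (nat_lit 0x40080003102000602e00014018003e00)))) 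
(.lf (nat_lit 134225095) (dlOf (nat_lit 1) (nat_lit 0x8001800c201)))) (.nd (nat_lit 29) 
(.nd (nat_lit 30) (.lf (nat_lit 4429186119) (dlOf (nat_lit 1) (nat_lit 0x400400020008002882))) 
(.lf (nat_lit 5502927943) (dlOf (nat_lit 1) (nat_lit 0x400400020008002882)))) 
(.lf (nat_lit 4966057031) (dlOf (nat_lit 1) (nat_lit 0x400400020008002882))))))) (.nd (nat_lit 21) 
(.nd (nat_lit 7) (.nd (nat_lit 8) (.nd (nat_lit 10) (.nd (nat_lit 19) 
(.lf (nat_lit 3490742343) (dlOf (nat_lit 1) (nat_lit 0x20018020881))) (.nd (nat_lit 22) 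
(.lf (nat_lit 3221782599) (dlOf (nat_lit 1) (nat_lit 0x20008180e01))) 
(.lf (nat_lit 4751431) (dlOf (nat_lit 1) (nat_lit 0x4e00082b0601))))) (.nd (nat_lit 9) 
(.lf (nat_lit 268469319) (dlOf (nat_lit 1) (nat_lit 0x400400020008052882))) 
(.lf (nat_lit 4966098503) (dlOf (nat_lit 1) (nat_lit 0x100018003801))))) (.nd (nat_lit 9) 
(.nd (nat_lit 10) 
(.lf (nat_lit 536914247) (dlOf (nat_lit 4) (nat_lit 0x20000000681000d0290000300800080000000004000800200140008004d02))) 
(.lf (nat_lit 134257991) (dlOf (nat_lit 2) (nat_lit 0x101b00137c08022800801f00020148000800c903)))) 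
(.lf (nat_lit 402688839) (dlOf (nat_lit 1) (nat_lit 0x1000400060008005c02))))) (.nd (nat_lit 8) 
(.nd (nat_lit 10) (.nd (nat_lit 13) 
(.lf (nat_lit 1342734535) (dlOf (nat_lit 1) (nat_lit 0xc0004006600080c0402))) 
(.lf (nat_lit 1611178183) (dlOf (nat_lit 1) (nat_lit 0x3800400180008105882)))) 
(.lf (nat_lit 34112711) (dlOf (nat_lit 1) (nat_lit 0x120018fb2d01)))) (.nd (nat_lit 28) 
(.lf (nat_lit 5368744903) (dlOf (nat_lit 6) (nat_lit 0x11c02a00b0014004b00980268014000441000f402a009e014004000980058044011000a000090a00020150000281000400280000c0801f005400080280074013004100280000020004000800b4002001a0008005d83))) 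
(.lf (nat_lit 6710922183) (dlOf (nat_lit 6) (nat_lit 0x340280001d02003c0140000e01002100b000b8054004802800240050000c84000700a00000c080040058001802a001000500000038005d80)))))) 
(.nd (nat_lit 23) (.nd (nat_lit 8) (.nd (nat_lit 10) 
(.lf (nat_lit 3492315207) (dlOf (nat_lit 3) (nat_lit 0x10f38000b808005879c00058040014002003800080c1482))) 
(.lf (nat_lit 57189447) (dlOf (nat_lit 1) (nat_lit 0x10004000c0019792882)))) (.nd (nat_lit 9) 
(.nd (nat_lit 22) (.lf (nat_lit 5773493575) (dlOf (nat_lit 1) (nat_lit 0x200180e3301))) 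
(.lf (nat_lit 39880007) (dlOf (nat_lit 1) (nat_lit 0x3600291f3301)))) 
(.lf (nat_lit 19962695) (dlOf (nat_lit 1) (nat_lit 0xe00080004002003a00089dbc83))))) 
(.nd (nat_lit 13) (.nd (nat_lit 22) 
(.lf (nat_lit 44073031) (dlOf (nat_lit 1) (nat_lit 0x168002008800092c0602))) 
(.lf (nat_lit 14712903) (dlOf (nat_lit 1) (nat_lit 0x80080044002002a0008770603)))) (.nd (nat_lit 9) 
(.lf (nat_lit 44081223) (dlOf (nat_lit 3) (nat_lit 0x2ca580002001001d52c0000fc0800100080008002000200092c0603))) 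
(.lf (nat_lit 11575879) (dlOf (nat_lit 1) (nat_lit 0x80080004002000200086c1103))))))))) 
(.nd (nat_lit 28) (.nd (nat_lit 6) (.nd (nat_lit 29) (.nd (nat_lit 8) (.nd (nat_lit 9) 
(.nd (nat_lit 13) (.nd (nat_lit 10) 
(.lf (nat_lit 4362633223) (dlOf (nat_lit 1) (nat_lit 0x400280b0001))) 
(.lf (nat_lit 6509560839) (dlOf (nat_lit 1) (nat_lit 0x100028002881)))) (.nd (nat_lit 15) 
(.lf (nat_lit 3288866823) (dlOf (nat_lit 1) (nat_lit 0x600081d0001))) 
(.lf (nat_lit 4362641415) (dlOf (nat_lit 1) (nat_lit 0x700080014002001a00080c0003))))) 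
(.nd (nat_lit 7) (.nd (nat_lit 12) 
(.lf (nat_lit 1140852231) (dlOf (nat_lit 1) (nat_lit 0x8008000400200020008003683))) 
(.lf (nat_lit 6643791367) (dlOf (nat_lit 1) (nat_lit 0x2e0018009c01)))) (.nd (nat_lit 13) 
(.lf (nat_lit 1140852359) (dlOf (nat_lit 1) (nat_lit 0x7000400040018003a02))) 
(.lf (nat_lit 1140893319) (dlOf (nat_lit 1) (nat_lit 0x8008000400200020008003a03)))))) 
(.nd (nat_lit 7) (.nd (nat_lit 11) (.nd (nat_lit 13) 
(.lf (nat_lit 2348844807) (dlOf (nat_lit 4) (nat_lit 0x10050000510200020280002801000201400013c080080008000c00200060008003b83))) 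
(.lf (nat_lit 2348852999) (dlOf (nat_lit 3) (nat_lit 0x70140001440800280a00009e04001c004000c0008003b82)))) 
(.nd (nat_lit 9) (.lf (nat_lit 3288345863) (dlOf (nat_lit 1) (nat_lit 0x400400020008006682))) 
(.lf (nat_lit 67115783) (dlOf (nat_lit 1) (nat_lit 0x6001800b981))))) (.nd (nat_lit 9) 
(.nd (nat_lit 13) 
(.lf (nat_lit 5435819399) (dlOf (nat_lit 1) (nat_lit 0x38008000400200040008003603))) 
(.lf (nat_lit 1140893063) (dlOf (nat_lit 1) (nat_lit 0x10008000400200060008003603)))) 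
(.lf (nat_lit 2348853127) (dlOf (nat_lit 1) (nat_lit 0x10008003000200040008004183)))))) 
(.nd (nat_lit 10) (.nd (nat_lit 13) (.nd (nat_lit 15) (.nd (nat_lit 20) 
(.lf (nat_lit 738721799) (dlOf (nat_lit 9) (nat_lit 0x4c0a600260350012010800a00740034014002040a002603d000d081001801d8002c80800300fc000fa04005007e0007c02000c03f0003d01000803400050178009807e002001400039840006010800000080c280080214002004a00080f0583))) 
(.lf (nat_lit 2755133447) (dlOf (nat_lit 1) (nat_lit 0x1000400100008110002)))) (.nd (nat_lit 27) 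
(.lf (nat_lit 1678278663) (dlOf (nat_lit 1) (nat_lit 0x1780080064002005400081d0003))) 
(.lf (nat_lit 2886238215) (dlOf (nat_lit 4) (nat_lit 0xd40340014302000a0400009d01000402000000008004000800c000200ac00081a0483))))) 
(.nd (nat_lit 7) (.nd (nat_lit 15) 
(.lf (nat_lit 2886213639) (dlOf (nat_lit 2) (nat_lit 0xc80000093c0400a4002000e0008190002))) 
(.lf (nat_lit 1678286855) (dlOf (nat_lit 6) (nat_lit 0x101a8042ec0806e8110003407600fe704001a03b007eb810041022003f40080aa811001ef604001800200c600081d0002)))) 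
(.lf (nat_lit 2754619783) (dlOf (nat_lit 1) (nat_lit 0x2200180f4e81))))) (.nd (nat_lit 7) 
(.nd (nat_lit 8) (.nd (nat_lit 9) 
(.lf (nat_lit 2751472647) (dlOf (nat_lit 1) (nat_lit 0x400200020008002882))) 
(.lf (nat_lit 2754645511) (dlOf (nat_lit 1) (nat_lit 0x3080080004002005600080f7003)))) 
(.nd (nat_lit 12) 
(.lf (nat_lit 3959426311) (dlOf (nat_lit 1) (nat_lit 0x280008003c002002c0008006683))) 
(.lf (nat_lit 603987207) (dlOf (nat_lit 1) (nat_lit 0x300080004002000a000800c603))))) 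
(.nd (nat_lit 8) (.nd (nat_lit 9) 
(.lf (nat_lit 2885688455) (dlOf (nat_lit 1) (nat_lit 0x40040002000800c202))) 
(.lf (nat_lit 1677758087) (dlOf (nat_lit 1) (nat_lit 0x60028007181)))) 
(.lf (nat_lit 603983751) (dlOf (nat_lit 1) (nat_lit 0xc0008007781))))))) (.nd (nat_lit 10) 
(.nd (nat_lit 8) (.nd (nat_lit 9) (.nd (nat_lit 15) 
(.lf (nat_lit 201850951) (dlOf (nat_lit 1) (nat_lit 0x100080010002000400080a0d83))) 
(.nd (nat_lit 19) (.lf (nat_lit 2752544839) (dlOf (nat_lit 1) (nat_lit 0x20018020881))) 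
(.lf (nat_lit 2754117703) (dlOf (nat_lit 1) (nat_lit 0x200280c1881))))) (.nd (nat_lit 27) 
(.lf (nat_lit 4362091079) (dlOf (nat_lit 1) (nat_lit 0x4001800b581))) 
(.lf (nat_lit 201341511) (dlOf (nat_lit 1) (nat_lit 0x1800800040020002000800b583))))) 
(.nd (nat_lit 9) (.nd (nat_lit 11) 
(.lf (nat_lit 67121479) (dlOf (nat_lit 1) (nat_lit 0x20018008281))) (.nd (nat_lit 31) 
(.lf (nat_lit 201328967) (dlOf (nat_lit 1) (nat_lit 0x580008004d01))) 
(.lf (nat_lit 2348812615) (dlOf (nat_lit 2) (nat_lit 0x40000000b0200040018004d01))))) 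
(.nd (nat_lit 13) 
(.lf (nat_lit 1275104071) (dlOf (nat_lit 1) (nat_lit 0x30008000c00200080008005c03))) 
(.lf (nat_lit 1275079495) (dlOf (nat_lit 2) (nat_lit 0xa8050002ca04002000200020008005c02)))))) 
(.nd (nat_lit 29) (.nd (nat_lit 32) (.nd (nat_lit 15) (.nd (nat_lit 27) 
(.lf (nat_lit 1140851783) (dlOf (nat_lit 1) (nat_lit 0x400400020008002882))) 
(.lf (nat_lit 201327687) (dlOf (nat_lit 1) (nat_lit 0x8008000400200020008002883)))) 
(.lf (nat_lit 201360455) (dlOf (nat_lit 4) (nat_lit 0x1e046000e017805790100020128001008c015d404000a04600ae9818002880)))) 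
(.nd (nat_lit 13) (.nd (nat_lit 30) 
(.lf (nat_lit 4362077255) (dlOf (nat_lit 1) (nat_lit 0x400400020008002882))) 
(.lf (nat_lit 5435819079) (dlOf (nat_lit 1) (nat_lit 0x400400020008002882)))) 
(.lf (nat_lit 4362085447) (dlOf (nat_lit 1) (nat_lit 0x20028002881))))) (.nd (nat_lit 8) 
(.nd (nat_lit 7) (.nd (nat_lit 27) 
(.lf (nat_lit 2751464519) (dlOf (nat_lit 2) (nat_lit 0x422900e33818002880))) 
(.lf (nat_lit 6106907719) (dlOf (nat_lit 1) (nat_lit 0x8008000400200020008002883)))) 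
(.nd (nat_lit 9) (.lf (nat_lit 2885688519) (dlOf (nat_lit 1) (nat_lit 0x3c001800c201))) 
(.lf (nat_lit 2754621127) (dlOf (nat_lit 2) (nat_lit 0x2024000f01000006c1000600080058002000c00080f7303))))) 
(.nd (nat_lit 9) (.lf (nat_lit 603987399) (dlOf (nat_lit 1) (nat_lit 0x40020002000800cd02))) 
(.nd (nat_lit 13) (.lf (nat_lit 2751502279) (dlOf (nat_lit 1) (nat_lit 0x2002800a601))) 
(.lf (nat_lit 2751510471) (dlOf (nat_lit 2) (nat_lit 0x30748007de04000c0020002000800a602))))))))) 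
(.nd (nat_lit 11) (.nd (nat_lit 9) (.nd (nat_lit 30) (.nd (nat_lit 6) (.nd (nat_lit 7) 
(.nd (nat_lit 8) (.lf (nat_lit 1007198215) (dlOf (nat_lit 1) (nat_lit 0x40028240281))) 
(.lf (nat_lit 3154682119) (dlOf (nat_lit 1) (nat_lit 0x6c00200a80008310702)))) (.nd (nat_lit 21) 
(.lf (nat_lit 5167415431) (dlOf (nat_lit 1) (nat_lit 0x80008050381))) 
(.lf (nat_lit 471892103) (dlOf (nat_lit 1) (nat_lit 0x400286b0481))))) (.nd (nat_lit 7) 
(.nd (nat_lit 27) (.lf (nat_lit 4630512711) (dlOf (nat_lit 1) (nat_lit 0x400400020008002882))) 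
(.lf (nat_lit 1006634055) (dlOf (nat_lit 1) (nat_lit 0x8008000400200020008002883)))) 
(.lf (nat_lit 470319303) (dlOf (nat_lit 1) (nat_lit 0xc0004006600080c0402))))) (.nd (nat_lit 13) 
(.nd (nat_lit 6) (.nd (nat_lit 7) 
(.lf (nat_lit 4228415495) (dlOf (nat_lit 1) (nat_lit 0x400280b0001))) 
(.lf (nat_lit 4095772039) (dlOf (nat_lit 1) (nat_lit 0x1800280e3601)))) 
(.lf (nat_lit 4228382791) (dlOf (nat_lit 4) (nat_lit 0x80c4003400000032040022000000170100200000000b408001800800d8002001200080a0e03)))) 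
(.nd (nat_lit 6) (.nd (nat_lit 7) 
(.lf (nat_lit 4228423687) (dlOf (nat_lit 1) (nat_lit 0x700080014002001a00080c0003))) 
(.lf (nat_lit 1409818759) (dlOf (nat_lit 2) (nat_lit 0x8702e000000080068008002000200180008090103)))) 
(.lf (nat_lit 4228390983) (dlOf (nat_lit 1) (nat_lit 0x600180a0e01)))))) (.nd (nat_lit 13) 
(.nd (nat_lit 6) (.nd (nat_lit 7) (.nd (nat_lit 21) 
(.lf (nat_lit 4630513159) (dlOf (nat_lit 1) (nat_lit 0x8008000400200020008003683))) 
(.lf (nat_lit 4095739399) (dlOf (nat_lit 1) (nat_lit 0x4002000200080e3682)))) 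
(.lf (nat_lit 4095772295) (dlOf (nat_lit 1) (nat_lit 0x400180e3a01)))) (.nd (nat_lit 12) 
(.lf (nat_lit 1006634823) (dlOf (nat_lit 1) (nat_lit 0x1400400100008003e02))) 
(.lf (nat_lit 3690993479) (dlOf (nat_lit 1) (nat_lit 0x4001800a181))))) (.nd (nat_lit 10) 
(.nd (nat_lit 6) (.nd (nat_lit 15) 
(.lf (nat_lit 470295047) (dlOf (nat_lit 2) (nat_lit 0x7023c0010e0180c0d80))) 
(.lf (nat_lit 4094206471) (dlOf (nat_lit 1) (nat_lit 0x100028018001)))) 
(.lf (nat_lit 470295111) (dlOf (nat_lit 5) (nat_lit 0x4123803708f00009c0804044780004c02020223c0001c01007b11e0000dc08017800800b000200a200080c1103)))) 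
(.nd (nat_lit 6) (.nd (nat_lit 21) 
(.lf (nat_lit 4630521351) (dlOf (nat_lit 1) (nat_lit 0x8008000400200020008003683))) 
(.lf (nat_lit 4095747591) (dlOf (nat_lit 1) (nat_lit 0x4002000200080e3682)))) 
(.lf (nat_lit 469772103) (dlOf (nat_lit 1) (nat_lit 0x1000200060008003e02))))))) (.nd (nat_lit 6) 
(.nd (nat_lit 7) (.nd (nat_lit 12) (.nd (nat_lit 13) 
(.lf (nat_lit 4227894535) (dlOf (nat_lit 2) (nat_lit 0x40200000b80800a8008007c002000e0008006683))) 
(.nd (nat_lit 15) 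
(.lf (nat_lit 4227869959) (dlOf (nat_lit 5) (nat_lit 0x201900008c0800100c8000420400080640001f02000203200000018006680))) 
(.lf (nat_lit 4227902727) (dlOf (nat_lit 2) (nat_lit 0x203200000018006680))))) (.nd (nat_lit 29) 
(.lf (nat_lit 469769479) (dlOf (nat_lit 1) (nat_lit 0x40040002000800c602))) 
(.lf (nat_lit 1006640391) (dlOf (nat_lit 1) (nat_lit 0x40040002000800c602))))) (.nd (nat_lit 10) 
(.nd (nat_lit 8) (.nd (nat_lit 13) 
(.lf (nat_lit 3691027079) (dlOf (nat_lit 2) (nat_lit 0x15000000960040034002005c000800b682))) 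
(.lf (nat_lit 3691035271) (dlOf (nat_lit 2) (nat_lit 0x300000025801800b680)))) (.nd (nat_lit 12) 
(.lf (nat_lit 1409288583) (dlOf (nat_lit 1) (nat_lit 0x20008004e81))) 
(.lf (nat_lit 3690994055) (dlOf (nat_lit 1) (nat_lit 0x2000800040020002000800af83))))) 
(.nd (nat_lit 13) (.nd (nat_lit 30) 
(.lf (nat_lit 2483035271) (dlOf (nat_lit 1) (nat_lit 0x40040098000800c202))) 
(.lf (nat_lit 1409293447) (dlOf (nat_lit 1) (nat_lit 0x40040002000800c202)))) 
(.lf (nat_lit 1409301639) (dlOf (nat_lit 1) (nat_lit 0x72000800c201)))))) (.nd (nat_lit 9) 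
(.nd (nat_lit 7) (.nd (nat_lit 8) 
(.lf (nat_lit 2483063879) (dlOf (nat_lit 2) (nat_lit 0x20140005b8080030008001000200080008006083))) 
(.nd (nat_lit 30) (.lf (nat_lit 2483031367) (dlOf (nat_lit 1) (nat_lit 0x60028006981))) 
(.lf (nat_lit 1409289543) (dlOf (nat_lit 2) (nat_lit 0x817c0001c04000c002001a0008006982))))) 
(.nd (nat_lit 8) (.nd (nat_lit 29) 
(.lf (nat_lit 1409289415) (dlOf (nat_lit 1) (nat_lit 0x20018006381))) 
(.lf (nat_lit 1946160327) (dlOf (nat_lit 1) (nat_lit 0x20018006381)))) (.nd (nat_lit 13) 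
(.lf (nat_lit 1409289671) (dlOf (nat_lit 1) (nat_lit 0x20008006d01))) (.nd (nat_lit 15) 
(.lf (nat_lit 1409297863) (dlOf (nat_lit 1) (nat_lit 0x400200020008006d02))) 
(.lf (nat_lit 1409330631) (dlOf (nat_lit 1) (nat_lit 0x400200020008006d02))))))) (.nd (nat_lit 12) 
(.nd (nat_lit 8) 
(.lf (nat_lit 4227870407) (dlOf (nat_lit 1) (nat_lit 0x100080054002001c0008007303))) 
(.nd (nat_lit 13) 
(.lf (nat_lit 4764765127) (dlOf (nat_lit 5) (nat_lit 0x1802c0002014000d0028000b818003005800040280000404000a0160000181000100b000000080058008000400200240008005d83))) 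
(.lf (nat_lit 4764740551) (dlOf (nat_lit 1) (nat_lit 0x8008000400200020008005d83))))) 
(.nd (nat_lit 7) 
(.lf (nat_lit 4227865415) (dlOf (nat_lit 1) (nat_lit 0x980080034002000e000800bc83))) 
(.nd (nat_lit 8) (.lf (nat_lit 469777095) (dlOf (nat_lit 1) (nat_lit 0x2001800b981))) 
(.lf (nat_lit 4227865543) (dlOf (nat_lit 1) (nat_lit 0x80040004000800be82))))))))))) 
(.nd (nat_lit 13) (.nd (nat_lit 15) (.nd (nat_lit 28) (.nd (nat_lit 7) (.nd (nat_lit 21) 
(.nd (nat_lit 6) (.nd (nat_lit 26) (.nd (nat_lit 23) (.nd (nat_lit 27) 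
(.lf (nat_lit 537133063) (dlOf (nat_lit 1) (nat_lit 0x8008003000200120008020003))) 
(.lf (nat_lit 134479879) (dlOf (nat_lit 1) (nat_lit 0x40008030001)))) 
(.lf (nat_lit 25427975) (dlOf (nat_lit 1) (nat_lit 0x20028c00001)))) (.nd (nat_lit 8) 
(.lf (nat_lit 201588743) (dlOf (nat_lit 1) (nat_lit 0x40008030001))) 
(.lf (nat_lit 67900679) (dlOf (nat_lit 1) (nat_lit 0x1f80018339601))))) (.nd (nat_lit 8) 
(.lf (nat_lit 67371079) (dlOf (nat_lit 1) (nat_lit 0x900080008002000800080f0603))) (.nd (nat_lit 9) 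
(.lf (nat_lit 8656199) (dlOf (nat_lit 1) (nat_lit 0x18400400c60008519902))) 
(.lf (nat_lit 46402375) (dlOf (nat_lit 2) (nat_lit 0x1b41000757ec0040808004400200440009385c02)))))) 
(.nd (nat_lit 20) (.nd (nat_lit 19) (.nd (nat_lit 23) 
(.lf (nat_lit 19136519) (dlOf (nat_lit 1) (nat_lit 0x60028970001))) 
(.lf (nat_lit 10747911) (dlOf (nat_lit 3) (nat_lit 0xccd600024a00007d0200112bc8003a40800780080050002000e0008620483)))) 
(.lf (nat_lit 11272199) (dlOf (nat_lit 1) (nat_lit 0x40008680001)))) (.nd (nat_lit 8) 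
(.nd (nat_lit 11) (.lf (nat_lit 8128007) (dlOf (nat_lit 1) (nat_lit 0x20008001400200060008513683))) 
(.lf (nat_lit 20188679) (dlOf (nat_lit 1) (nat_lit 0x200289d7001)))) (.nd (nat_lit 11) 
(.lf (nat_lit 41156871) (dlOf (nat_lit 2) (nat_lit 0x565900037c0800380080008002000a0009223a03))) 
(.lf (nat_lit 20191495) (dlOf (nat_lit 1) (nat_lit 0x1a00080028002001000089daa03))))))) 
(.nd (nat_lit 6) (.nd (nat_lit 8) (.nd (nat_lit 20) (.nd (nat_lit 26) 
(.lf (nat_lit 1074004103) (dlOf (nat_lit 1) (nat_lit 0xc0028090101))) 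
(.lf (nat_lit 5436080263) (dlOf (nat_lit 2) (nat_lit 0x9202f000100180c0f00)))) 
(.lf (nat_lit 9699463) (dlOf (nat_lit 2) (nat_lit 0xd4f0800315500006408000400400020018570e02)))) 
(.nd (nat_lit 19) (.lf (nat_lit 1074004359) (dlOf (nat_lit 1) (nat_lit 0x20028090781))) 
(.lf (nat_lit 1835399) (dlOf (nat_lit 1) (nat_lit 0x20028150781))))) (.nd (nat_lit 8) 
(.nd (nat_lit 11) (.lf (nat_lit 20189895) (dlOf (nat_lit 1) (nat_lit 0x4002000200089d8c82))) 
(.lf (nat_lit 2818841287) (dlOf (nat_lit 1) (nat_lit 0x18800802a80020076000812b983)))) 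
(.nd (nat_lit 9) (.lf (nat_lit 2754874823) (dlOf (nat_lit 1) (nat_lit 0x200180f6d01))) 
(.nd (nat_lit 10) 
(.lf (nat_lit 4496559047) (dlOf (nat_lit 3) (nat_lit 0x120320000e8100030190000700800600080030002000e00080e5d83))) 
(.lf (nat_lit 8130503) (dlOf (nat_lit 1) (nat_lit 0x400200020008517a82)))))))) (.nd (nat_lit 7) 
(.nd (nat_lit 26) (.nd (nat_lit 6) (.nd (nat_lit 19) (.nd (nat_lit 21) 
(.lf (nat_lit 402915335) (dlOf (nat_lit 1) (nat_lit 0x200280a0001))) 
(.lf (nat_lit 1344536583) (dlOf (nat_lit 1) (nat_lit 0xe0018830001)))) 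
(.lf (nat_lit 5773197319) (dlOf (nat_lit 1) (nat_lit 0x30004000200180b0002)))) (.nd (nat_lit 21) 
(.lf (nat_lit 2550399047) (dlOf (nat_lit 1) (nat_lit 0x440018090001))) 
(.lf (nat_lit 3492020295) (dlOf (nat_lit 3) (nat_lit 0xc044000401000009c1000180800004c040014002000400080a0e02))))) 
(.nd (nat_lit 27) (.nd (nat_lit 6) (.nd (nat_lit 19) 
(.lf (nat_lit 1409548295) (dlOf (nat_lit 1) (nat_lit 0x8008003000200120008020003))) 
(.lf (nat_lit 3557556231) (dlOf (nat_lit 5) (nat_lit 0x2481c8017060401180de00a3402008c06f004c901004603780262c080190008018000200200008260003)))) 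
(.lf (nat_lit 5704517191) (dlOf (nat_lit 1) (nat_lit 0xc00180d3801)))) (.nd (nat_lit 19) 
(.nd (nat_lit 20) (.lf (nat_lit 3691249671) (dlOf (nat_lit 1) (nat_lit 0x7600080e0281))) 
(.lf (nat_lit 471072775) (dlOf (nat_lit 1) (nat_lit 0x17800800e0002009a0008260283)))) 
(.lf (nat_lit 6377177095) (dlOf (nat_lit 1) (nat_lit 0x30004000200180b0002)))))) (.nd (nat_lit 6) 
(.nd (nat_lit 30) (.nd (nat_lit 9) 
(.lf (nat_lit 5301862535) (dlOf (nat_lit 6) (nat_lit 0x300088000800800900440003e0403240220001e0202120110000901010a0088000440800080080044002000e00080c0e03))) 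
(.lf (nat_lit 268700295) (dlOf (nat_lit 1) (nat_lit 0x4004000200180e5482)))) (.nd (nat_lit 8) 
(.lf (nat_lit 1946419335) (dlOf (nat_lit 1) (nat_lit 0xc0028090101))) 
(.lf (nat_lit 1946419591) (dlOf (nat_lit 1) (nat_lit 0x20028090781))))) (.nd (nat_lit 8) 
(.nd (nat_lit 9) 
(.lf (nat_lit 1346634951) (dlOf (nat_lit 2) (nat_lit 0x82be000250200020018fe2d01))) 
(.lf (nat_lit 1410074311) (dlOf (nat_lit 1) (nat_lit 0x28002000a00080f3a82)))) 
(.lf (nat_lit 1410078663) (dlOf (nat_lit 1) (nat_lit 0x8004000a00080fa602))))))) (.nd (nat_lit 27) 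
(.nd (nat_lit 21) (.nd (nat_lit 28) (.nd (nat_lit 7) (.nd (nat_lit 8) (.nd (nat_lit 9) 
(.lf (nat_lit 18644999) (dlOf (nat_lit 1) (nat_lit 0x400400020008960282))) 
(.lf (nat_lit 3288629767) (dlOf (nat_lit 6) (nat_lit 0x1006c0012034000b482000501b0005a00800500d80008056001660400160340000c01000101a00005c0800c80080018002000a0008090d83)))) 
(.nd (nat_lit 6) (.lf (nat_lit 298247) (dlOf (nat_lit 1) (nat_lit 0x20028006681))) 
(.lf (nat_lit 2751760711) (dlOf (nat_lit 1) (nat_lit 0x4400400240008004d02))))) (.nd (nat_lit 6) 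
(.nd (nat_lit 8) (.lf (nat_lit 5369004167) (dlOf (nat_lit 1) (nat_lit 0xc004000600080c0e02))) 
(.lf (nat_lit 6442746247) (dlOf (nat_lit 1) (nat_lit 0x80080004002000200081b0783)))) 
(.nd (nat_lit 8) (.lf (nat_lit 5369004231) (dlOf (nat_lit 1) (nat_lit 0x200180c1781))) 
(.lf (nat_lit 47483335) (dlOf (nat_lit 1) (nat_lit 0x40029404e81)))))) (.nd (nat_lit 26) 
(.nd (nat_lit 29) (.nd (nat_lit 32) 
(.lf (nat_lit 268730375) (dlOf (nat_lit 1) (nat_lit 0x2c00400020008110002))) 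
(.lf (nat_lit 4563697671) (dlOf (nat_lit 1) (nat_lit 0x200280c0001)))) 
(.lf (nat_lit 1879343111) (dlOf (nat_lit 1) (nat_lit 0x1400080040002004e00080e0003)))) 
(.nd (nat_lit 29) (.nd (nat_lit 19) 
(.lf (nat_lit 335839239) (dlOf (nat_lit 1) (nat_lit 0x13000400fa00080b0002))) 
(.lf (nat_lit 3557588999) (dlOf (nat_lit 2) (nat_lit 0x3019400ae404001800200060008270002)))) 
(.nd (nat_lit 6) 
(.lf (nat_lit 3020193799) (dlOf (nat_lit 2) (nat_lit 0x2880c00094054000602300000038150000))) 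
(.lf (nat_lit 3020193863) (dlOf (nat_lit 2) (nat_lit 0x1002f0000d818150600))))))) (.nd (nat_lit 9) 
(.nd (nat_lit 20) (.nd (nat_lit 7) (.nd (nat_lit 8) 
(.lf (nat_lit 15499271) (dlOf (nat_lit 1) (nat_lit 0x40028800281))) 
(.lf (nat_lit 19698951) (dlOf (nat_lit 1) (nat_lit 0x18008000c002000600089d9603)))) 
(.lf (nat_lit 36473223) (dlOf (nat_lit 1) (nat_lit 0x40019074e81)))) (.nd (nat_lit 19) 
(.nd (nat_lit 22) (.lf (nat_lit 3440647) (dlOf (nat_lit 1) (nat_lit 0x40028200001))) 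
(.lf (nat_lit 16023559) (dlOf (nat_lit 1) (nat_lit 0x8004000a0018860282)))) (.nd (nat_lit 26) 
(.lf (nat_lit 3493625863) (dlOf (nat_lit 1) (nat_lit 0x1c0028180481))) 
(.lf (nat_lit 2755428359) (dlOf (nat_lit 1) (nat_lit 0x1c0028180481)))))) (.nd (nat_lit 7) 
(.nd (nat_lit 6) (.lf (nat_lit 8160775) (dlOf (nat_lit 1) (nat_lit 0x8008000400200020008513683))) 
(.lf (nat_lit 36473415) (dlOf (nat_lit 1) (nat_lit 0x20019075201)))) (.nd (nat_lit 19) 
(.lf (nat_lit 20222663) (dlOf (nat_lit 1) (nat_lit 0x500080004002001c00089d8c83))) 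
(.lf (nat_lit 20746951) (dlOf (nat_lit 1) (nat_lit 0x4002000200089d8c82))))))) (.nd (nat_lit 29) 
(.nd (nat_lit 26) (.nd (nat_lit 28) (.nd (nat_lit 6) (.nd (nat_lit 7) 
(.lf (nat_lit 1208254471) (dlOf (nat_lit 1) (nat_lit 0x180080004002000600080b0003))) 
(.lf (nat_lit 5503221895) (dlOf (nat_lit 1) (nat_lit 0x8004000600080c0f02)))) 
(.lf (nat_lit 1208254535) (dlOf (nat_lit 1) (nat_lit 0x800800d4002002e00080b0603)))) 
(.nd (nat_lit 6) (.nd (nat_lit 32) 
(.lf (nat_lit 402948103) (dlOf (nat_lit 1) (nat_lit 0x13000400fa00080b0002))) 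
(.lf (nat_lit 4697915399) (dlOf (nat_lit 1) (nat_lit 0x200280c0001)))) 
(.lf (nat_lit 5773230151) (dlOf (nat_lit 1) (nat_lit 0x4004000200080b0602))))) (.nd (nat_lit 20) 
(.nd (nat_lit 6) (.nd (nat_lit 7) 
(.lf (nat_lit 1543798791) (dlOf (nat_lit 2) (nat_lit 0x34028000000201100008170001))) 
(.lf (nat_lit 5838766471) (dlOf (nat_lit 1) (nat_lit 0x80080004002000200081b0783)))) 
(.lf (nat_lit 1543798855) (dlOf (nat_lit 3) (nat_lit 0x404a0003802001c0250000b818170f00)))) 
(.nd (nat_lit 19) 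
(.lf (nat_lit 471105543) (dlOf (nat_lit 3) (nat_lit 0x1303f0029f40800a01f8014d804001000400180008270002))) 
(.lf (nat_lit 471629831) (dlOf (nat_lit 10) (nat_lit 0x60274003011c001407e00308030008047001814080090274003011c002207e0030003000f04e80177008007827400b9c04003813a001c08e000c03f0016e418000827400040fc005b704000209d002d7010001047001694080288008012c002000e0008360283)))))) 
(.nd (nat_lit 28) (.nd (nat_lit 6) (.nd (nat_lit 7) 
(.lf (nat_lit 671383559) (dlOf (nat_lit 2) (nat_lit 0x34028000000201100008170001))) 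
(.nd (nat_lit 26) 
(.lf (nat_lit 4966350983) (dlOf (nat_lit 1) (nat_lit 0x200080004002000200080c0f03))) 
(.lf (nat_lit 5033459847) (dlOf (nat_lit 1) (nat_lit 0x8004000600080c0e02))))) (.nd (nat_lit 9) 
(.lf (nat_lit 671383623) (dlOf (nat_lit 3) (nat_lit 0x404a0003502001c0250000b818170f00))) 
(.lf (nat_lit 3959718471) (dlOf (nat_lit 10) (nat_lit 0x7403e00c70070067003002f80000002408005603e00bf007005f803002c80000002308001003e009f007000e8000000440c00a807c017000e00ae0000000801800700f80003e04008007c015c00e00a40000000781800d00f80010078016000e00a30000000742004f80000003804001c07c013c00e000100000006c180278008009000200440008128d03))))) 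
(.nd (nat_lit 6) (.nd (nat_lit 7) (.nd (nat_lit 30) 
(.lf (nat_lit 1006927879) (dlOf (nat_lit 1) (nat_lit 0x1400080040002004e00080e0003))) 
(.lf (nat_lit 2080669703) (dlOf (nat_lit 1) (nat_lit 0x180080004002000600080b0003)))) 
(.lf (nat_lit 6376688263) (dlOf (nat_lit 1) (nat_lit 0x400200020008095482)))) (.nd (nat_lit 19) 
(.lf (nat_lit 2080669767) (dlOf (nat_lit 1) (nat_lit 0x800800d4002002e00080b0603))) 
(.lf (nat_lit 6377209927) (dlOf (nat_lit 1) (nat_lit 0x4004000200080b0602))))))))) 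
(.nd (nat_lit 28) (.nd (nat_lit 15) (.nd (nat_lit 6) (.nd (nat_lit 26) (.nd (nat_lit 7) 
(.nd (nat_lit 31) (.nd (nat_lit 20) 
(.lf (nat_lit 671358983) (dlOf (nat_lit 1) (nat_lit 0xbc002004e0008160002))) 
(.lf (nat_lit 15998983) (dlOf (nat_lit 1) (nat_lit 0xa0018850281)))) (.nd (nat_lit 8) 
(.lf (nat_lit 2819366919) (dlOf (nat_lit 6) (nat_lit 0xa031002c380800601880160e04001000000a7d0200060000053581000503100261c0800100080070002000e0008250003))) 
(.lf (nat_lit 2818850055) (dlOf (nat_lit 1) (nat_lit 0xe8004002e000812c602))))) (.nd (nat_lit 8) 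
(.nd (nat_lit 10) 
(.lf (nat_lit 9707655) (dlOf (nat_lit 3) (nat_lit 0x254ae00160620001b02009652b8004295800b0984002c4b8003c0300000c82800780080004002002c0008570e03))) 
(.lf (nat_lit 8139911) (dlOf (nat_lit 1) (nat_lit 0x20018519501)))) 
(.lf (nat_lit 1074012551) (dlOf (nat_lit 1) (nat_lit 0x400400020008090782))))) (.nd (nat_lit 31) 
(.nd (nat_lit 7) (.nd (nat_lit 29) 
(.lf (nat_lit 5436088327) (dlOf (nat_lit 4) (nat_lit 0x80220191502001c01100c380100010088061bc0802a80080050002004000080c0003))) 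
(.lf (nat_lit 1677991943) (dlOf (nat_lit 1) (nat_lit 0x8008000400200020008130003)))) 
(.lf (nat_lit 67907719) (dlOf (nat_lit 1) (nat_lit 0x240018337d81)))) (.nd (nat_lit 7) 
(.nd (nat_lit 19) (.lf (nat_lit 3422822407) (dlOf (nat_lit 1) (nat_lit 0x50002003400080e0002))) 
(.lf (nat_lit 2755403783) (dlOf (nat_lit 1) (nat_lit 0x20028180481)))) 
(.lf (nat_lit 3288604807) (dlOf (nat_lit 1) (nat_lit 0x400400020008090102)))))) (.nd (nat_lit 9) 
(.nd (nat_lit 23) (.nd (nat_lit 26) (.nd (nat_lit 10) 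
(.lf (nat_lit 671359047) (dlOf (nat_lit 2) (nat_lit 0x60220001f018160880))) 
(.lf (nat_lit 2818847815) (dlOf (nat_lit 1) (nat_lit 0x3e0008129301)))) (.nd (nat_lit 8) 
(.lf (nat_lit 67379271) (dlOf (nat_lit 1) (nat_lit 0x500080004002000400080f0603))) 
(.lf (nat_lit 2751736135) (dlOf (nat_lit 2) (nat_lit 0x1064000082e00008148000200400006848004d00))))) 
(.nd (nat_lit 19) (.lf (nat_lit 26484807) (dlOf (nat_lit 1) (nat_lit 0xa0018c50601))) 
(.nd (nat_lit 24) (.lf (nat_lit 9183303) (dlOf (nat_lit 1) (nat_lit 0x20008000800200020008530603))) 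
(.lf (nat_lit 59514951) (dlOf (nat_lit 2) (nat_lit 0x70cf800024d4000ad029800600)))))) 
(.nd (nat_lit 11) (.nd (nat_lit 7) (.nd (nat_lit 21) 
(.lf (nat_lit 5905850951) (dlOf (nat_lit 3) (nat_lit 0x2a00a0000bc04001c04a002e0170002e028158d00))) 
(.lf (nat_lit 23339591) (dlOf (nat_lit 1) (nat_lit 0x400200020008b81102)))) 
(.lf (nat_lit 20198087) (dlOf (nat_lit 1) (nat_lit 0x4002000200089d8c82)))) (.nd (nat_lit 8) 
(.lf (nat_lit 19675847) (dlOf (nat_lit 1) (nat_lit 0x200189db981))) (.nd (nat_lit 10) 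
(.lf (nat_lit 4496567239) (dlOf (nat_lit 6) (nat_lit 0x16034000a0190000808c0003a0c0028068000a0230000e02000e01a000500c800340460001806000c0320000b01000101900000008005800800d8002001c00080e5d83))) 
(.lf (nat_lit 67907527) (dlOf (nat_lit 1) (nat_lit 0x120018337a81)))))))) (.nd (nat_lit 21) 
(.nd (nat_lit 26) (.nd (nat_lit 6) (.nd (nat_lit 7) (.nd (nat_lit 8) 
(.lf (nat_lit 3758399495) (dlOf (nat_lit 2) (nat_lit 0x2880c00094054000602300000038170000))) 
(.lf (nat_lit 306439) (dlOf (nat_lit 1) (nat_lit 0x20028006681)))) 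
(.lf (nat_lit 5369012359) (dlOf (nat_lit 1) (nat_lit 0x80080008002000200080c0e03)))) 
(.nd (nat_lit 19) (.nd (nat_lit 9) 
(.lf (nat_lit 3758399559) (dlOf (nat_lit 2) (nat_lit 0x1002f0000d018170600))) 
(.lf (nat_lit 1074045511) (dlOf (nat_lit 2) (nat_lit 0x1a02900012018091100)))) (.nd (nat_lit 7) 
(.lf (nat_lit 13410375) (dlOf (nat_lit 1) (nat_lit 0x3c004003e0018721882))) 
(.lf (nat_lit 1876167) (dlOf (nat_lit 1) (nat_lit 0x400400020008150402)))))) (.nd (nat_lit 27) 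
(.nd (nat_lit 6) (.nd (nat_lit 31) 
(.lf (nat_lit 1678024711) (dlOf (nat_lit 1) (nat_lit 0x260018140581))) 
(.lf (nat_lit 3825508359) (dlOf (nat_lit 1) (nat_lit 0x40018170001)))) 
(.lf (nat_lit 4899253063) (dlOf (nat_lit 1) (nat_lit 0x3c002001600080d5c02)))) (.nd (nat_lit 7) 
(.lf (nat_lit 6644080647) (dlOf (nat_lit 1) (nat_lit 0xc004000200080e0002))) (.nd (nat_lit 9) 
(.lf (nat_lit 5033468039) (dlOf (nat_lit 1) (nat_lit 0x8004000600080c0e02))) 
(.lf (nat_lit 738503303) (dlOf (nat_lit 1) (nat_lit 0x60028095481))))))) (.nd (nat_lit 20) 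
(.nd (nat_lit 22) (.nd (nat_lit 23) 
(.lf (nat_lit 2400263) (dlOf (nat_lit 1) (nat_lit 0x38002001e0008150002))) (.nd (nat_lit 25) 
(.lf (nat_lit 10788871) (dlOf (nat_lit 1) (nat_lit 0x1000400020008630482))) 
(.lf (nat_lit 44343303) (dlOf (nat_lit 1) (nat_lit 0x600092f0001))))) (.nd (nat_lit 6) 
(.lf (nat_lit 56928647) (dlOf (nat_lit 1) (nat_lit 0x400200020009794e82))) 
(.lf (nat_lit 23372359) (dlOf (nat_lit 1) (nat_lit 0x800200020008b81102))))) (.nd (nat_lit 6) 
(.nd (nat_lit 9) 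
(.lf (nat_lit 62169095) (dlOf (nat_lit 2) (nat_lit 0x452d80251c080060008001c00200100009960003))) 
(.lf (nat_lit 41198087) (dlOf (nat_lit 1) (nat_lit 0x800400060009227b02)))) (.nd (nat_lit 8) 
(.lf (nat_lit 20230855) (dlOf (nat_lit 1) (nat_lit 0x4002000200089d8c82))) 
(.lf (nat_lit 8171975) (dlOf (nat_lit 1) (nat_lit 0xe0028518681)))))))) (.nd (nat_lit 27) 
(.nd (nat_lit 15) (.nd (nat_lit 7) (.nd (nat_lit 6) (.nd (nat_lit 19) 
(.lf (nat_lit 805576711) (dlOf (nat_lit 1) (nat_lit 0x8008000400200020008130003))) 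
(.nd (nat_lit 20) (.lf (nat_lit 4096532487) (dlOf (nat_lit 1) (nat_lit 0x20028120001))) 
(.lf (nat_lit 3493601287) (dlOf (nat_lit 1) (nat_lit 0x20028180481))))) (.nd (nat_lit 8) 
(.nd (nat_lit 21) 
(.lf (nat_lit 335814727) (dlOf (nat_lit 1) (nat_lit 0x29000800bc002004c00080b0603))) 
(.lf (nat_lit 3492028487) (dlOf (nat_lit 1) (nat_lit 0x200180a0e01)))) 
(.lf (nat_lit 3490980167) (dlOf (nat_lit 1) (nat_lit 0x5400400380008047f02))))) (.nd (nat_lit 8) 
(.nd (nat_lit 6) (.nd (nat_lit 9) 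
(.lf (nat_lit 4026802311) (dlOf (nat_lit 1) (nat_lit 0x400400020008090102))) 
(.lf (nat_lit 3557046919) (dlOf (nat_lit 1) (nat_lit 0x40000812b681)))) 
(.lf (nat_lit 1346643143) (dlOf (nat_lit 2) (nat_lit 0x242be000250200020008fe2d01)))) 
(.nd (nat_lit 11) (.lf (nat_lit 1946427783) (dlOf (nat_lit 1) (nat_lit 0x400400020008090782))) 
(.lf (nat_lit 1881418119) (dlOf (nat_lit 1) (nat_lit 0x6800400060008f04e82)))))) (.nd (nat_lit 30) 
(.nd (nat_lit 26) (.nd (nat_lit 29) 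
(.lf (nat_lit 4563705863) (dlOf (nat_lit 1) (nat_lit 0x1b0008003c002002200080c0003))) 
(.lf (nat_lit 805609479) (dlOf (nat_lit 1) (nat_lit 0x260018140581)))) (.nd (nat_lit 6) 
(.lf (nat_lit 5167685639) (dlOf (nat_lit 4) (nat_lit 0x68050030960400100040093402000601300040010000001000080080014002000a0008100003))) 
(.lf (nat_lit 335847495) (dlOf (nat_lit 1) (nat_lit 0x6d000200dc00080b0602))))) (.nd (nat_lit 9) 
(.nd (nat_lit 7) (.lf (nat_lit 1346150407) (dlOf (nat_lit 2) (nat_lit 0x214c0070a018e60000))) 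
(.lf (nat_lit 5637447815) (dlOf (nat_lit 3) (nat_lit 0x201100050068003402e00036060092019004d0000000c81000100080004002000600080f0e03)))) 
(.nd (nat_lit 6) (.lf (nat_lit 1345628679) (dlOf (nat_lit 1) (nat_lit 0xc00401240008dd5002))) 
(.lf (nat_lit 1946460743) (dlOf (nat_lit 2) (nat_lit 0x1a02900012018091100))))))) (.nd (nat_lit 6) 
(.nd (nat_lit 29) (.nd (nat_lit 26) (.nd (nat_lit 15) 
(.lf (nat_lit 5773205511) (dlOf (nat_lit 3) (nat_lit 0x8c25e00cbf02001212f006550180b0000))) 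
(.lf (nat_lit 4697923591) (dlOf (nat_lit 1) (nat_lit 0x1b0008003c002002200080c0003)))) 
(.nd (nat_lit 21) (.nd (nat_lit 31) 
(.lf (nat_lit 1543774215) (dlOf (nat_lit 1) (nat_lit 0xbc002004e0008160002))) 
(.lf (nat_lit 3691257863) (dlOf (nat_lit 2) (nat_lit 0x840150008003002e0c1000b000800bc002000a0008100003)))) 
(.lf (nat_lit 472129543) (dlOf (nat_lit 1) (nat_lit 0xe0018850001))))) (.nd (nat_lit 7) 
(.nd (nat_lit 15) (.nd (nat_lit 19) 
(.lf (nat_lit 5301870599) (dlOf (nat_lit 4) (nat_lit 0x802201c6202001c01100deb010001008806f540802a80080050002004000080c0003))) 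
(.lf (nat_lit 6377185287) (dlOf (nat_lit 3) (nat_lit 0x8c24000715020012120003808180b0000)))) 
(.lf (nat_lit 3087310855) (dlOf (nat_lit 1) (nat_lit 0x40018170001)))) 
(.lf (nat_lit 5301870727) (dlOf (nat_lit 1) (nat_lit 0xe00180c0e01))))) (.nd (nat_lit 15) 
(.nd (nat_lit 19) (.nd (nat_lit 8) (.nd (nat_lit 26) 
(.lf (nat_lit 402923591) (dlOf (nat_lit 1) (nat_lit 0x29000800bc002004c00080b0603))) 
(.lf (nat_lit 1543774279) (dlOf (nat_lit 2) (nat_lit 0x60220001f018160880)))) 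
(.lf (nat_lit 5771635527) (dlOf (nat_lit 2) (nat_lit 0x1a039000b2818005c00)))) (.nd (nat_lit 26) 
(.lf (nat_lit 5773205575) (dlOf (nat_lit 3) (nat_lit 0x8c2620000f0200d4131000000180b0600))) 
(.lf (nat_lit 6377185351) (dlOf (nat_lit 3) (nat_lit 0x8c2440000f0200d4122000000180b0600))))) 
(.nd (nat_lit 19) (.nd (nat_lit 8) 
(.lf (nat_lit 402956359) (dlOf (nat_lit 1) (nat_lit 0x6d000200dc00080b0602))) 
(.lf (nat_lit 4228161863) (dlOf (nat_lit 1) (nat_lit 0x8008000400200020008047f03)))) 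
(.nd (nat_lit 26) (.lf (nat_lit 5773238343) (dlOf (nat_lit 1) (nat_lit 0x200180b0601))) 
(.lf (nat_lit 6377218119) (dlOf (nat_lit 1) (nat_lit 0x200180b0601))))))))))))

end

end Pool.Agent.Lib.MP_5854e1_co.Cz

namespace Pool.Agent.Lib.MP_5854e1_co.Cz

noncomputable section

noncomputable def tz145 : DT := (.nd (nat_lit 15) (.nd (nat_lit 18) (.nd (nat_lit 13) 
(.nd (nat_lit 27) (.nd (nat_lit 19) (.nd (nat_lit 2) (.nd (nat_lit 6) (.nd (nat_lit 7) 
(.nd (nat_lit 20) (.nd (nat_lit 9) (.nd (nat_lit 10) 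
(.lf (nat_lit 12648451) (dlOf (nat_lit 1) (nat_lit 0x2000086d0001))) 
(.lf (nat_lit 1342247939) (dlOf (nat_lit 1) (nat_lit 0x8008000c00200020008009203)))) 
(.lf (nat_lit 3491824131) (dlOf (nat_lit 1) (nat_lit 0x8008002000200020008090d83)))) 
(.nd (nat_lit 22) (.lf (nat_lit 26279939) (dlOf (nat_lit 1) (nat_lit 0x1c00400040008c30002))) 
(.lf (nat_lit 47251459) (dlOf (nat_lit 1) (nat_lit 0x8200093c0001))))) (.nd (nat_lit 11) 
(.nd (nat_lit 9) (.lf (nat_lit 872481155) (dlOf (nat_lit 1) (nat_lit 0x80080230002007a0008091003))) 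
(.lf (nat_lit 536938371) (dlOf (nat_lit 1) (nat_lit 0x1c0018004181)))) (.nd (nat_lit 20) 
(.lf (nat_lit 3489728899) (dlOf (nat_lit 1) (nat_lit 0x20018004e81))) 
(.lf (nat_lit 57739651) (dlOf (nat_lit 1) (nat_lit 0x2c0029794e81)))))) (.nd (nat_lit 10) 
(.nd (nat_lit 7) (.nd (nat_lit 20) 
(.lf (nat_lit 1881210947) (dlOf (nat_lit 2) (nat_lit 0x20c118002008b000aa028e60600))) 
(.lf (nat_lit 1345388611) (dlOf (nat_lit 2) (nat_lit 0x606c8002823400080fa002490600020018b90601)))) 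
(.nd (nat_lit 8) (.lf (nat_lit 16842947) (dlOf (nat_lit 1) (nat_lit 0x34800200d000088e0482))) 
(.lf (nat_lit 19995075) (dlOf (nat_lit 1) (nat_lit 0x80080004002000200089daf83))))) 
(.nd (nat_lit 8) (.nd (nat_lit 20) 
(.lf (nat_lit 37815491) (dlOf (nat_lit 1) (nat_lit 0x200190d2d01))) 
(.lf (nat_lit 55641283) (dlOf (nat_lit 2) (nat_lit 0x296750000000800e80080034002001000096d2d03)))) 
(.nd (nat_lit 7) (.lf (nat_lit 4026599235) (dlOf (nat_lit 1) (nat_lit 0x20008003e01))) 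
(.lf (nat_lit 4362143683) (dlOf (nat_lit 1) (nat_lit 0x400400020008004402))))))) (.nd (nat_lit 9) 
(.nd (nat_lit 29) (.nd (nat_lit 8) (.nd (nat_lit 20) 
(.lf (nat_lit 4563468295) (dlOf (nat_lit 1) (nat_lit 0x40028090001))) 
(.lf (nat_lit 28377095) (dlOf (nat_lit 1) (nat_lit 0x400400020008d90282)))) (.nd (nat_lit 6) 
(.lf (nat_lit 2483096839) (dlOf (nat_lit 1) (nat_lit 0x3000200120008006682))) 
(.lf (nat_lit 2483097031) (dlOf (nat_lit 2) (nat_lit 0xa0000001cc04001400200460008006d02))))) 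
(.nd (nat_lit 31) (.nd (nat_lit 6) 
(.lf (nat_lit 5167451143) (dlOf (nat_lit 2) (nat_lit 0x1002e000000200040018055f81))) 
(.lf (nat_lit 872481863) (dlOf (nat_lit 1) (nat_lit 0x400400020008092882)))) (.nd (nat_lit 7) 
(.lf (nat_lit 2751529991) (dlOf (nat_lit 1) (nat_lit 0x38008000400200060008002883))) 
(.lf (nat_lit 4093707399) (dlOf (nat_lit 1) (nat_lit 0x20018002b01)))))) (.nd (nat_lit 6) 
(.nd (nat_lit 8) (.nd (nat_lit 7) 
(.lf (nat_lit 43058695) (dlOf (nat_lit 1) (nat_lit 0x4004000200092a3682))) 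
(.lf (nat_lit 1610680967) (dlOf (nat_lit 1) (nat_lit 0x40028005481)))) (.nd (nat_lit 10) 
(.lf (nat_lit 19995399) (dlOf (nat_lit 1) (nat_lit 0x80080004002000200089db983))) 
(.lf (nat_lit 4026599175) (dlOf (nat_lit 2) (nat_lit 0x1802300023818003b80))))) (.nd (nat_lit 7) 
(.nd (nat_lit 8) (.lf (nat_lit 11600455) (dlOf (nat_lit 1) (nat_lit 0x14c00200b600086c1102))) 
(.nd (nat_lit 24) (.lf (nat_lit 1346440007) (dlOf (nat_lit 1) (nat_lit 0x400200020008f65c02))) 
(.lf (nat_lit 54594375) (dlOf (nat_lit 1) (nat_lit 0x9000400320009655c02))))) (.nd (nat_lit 8) 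
(.lf (nat_lit 3758164679) (dlOf (nat_lit 1) (nat_lit 0x1e00180d5801))) 
(.lf (nat_lit 4563471303) (dlOf (nat_lit 1) (nat_lit 0x8008000400200020008095d83)))))))) 
(.nd (nat_lit 22) (.nd (nat_lit 21) (.nd (nat_lit 25) (.nd (nat_lit 2) (.nd (nat_lit 6) 
(.lf (nat_lit 537461251) (dlOf (nat_lit 1) (nat_lit 0x14400400260008090d82))) 
(.lf (nat_lit 4094230851) (dlOf (nat_lit 1) (nat_lit 0x30008031400200020008028703)))) 
(.nd (nat_lit 9) (.lf (nat_lit 1611202567) (dlOf (nat_lit 1) (nat_lit 0x3a0028110001))) 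
(.lf (nat_lit 1880687111) (dlOf (nat_lit 1) (nat_lit 0x400400020008b37b02))))) (.nd (nat_lit 23) 
(.nd (nat_lit 2) (.lf (nat_lit 35192835) (dlOf (nat_lit 1) (nat_lit 0x8008000400200020008ff0003))) 
(.lf (nat_lit 50921735) (dlOf (nat_lit 1) (nat_lit 0x50002001a00094d3582)))) (.nd (nat_lit 6) 
(.lf (nat_lit 42532867) (dlOf (nat_lit 1) (nat_lit 0x20019260001))) 
(.lf (nat_lit 42532931) (dlOf (nat_lit 2) (nat_lit 0x6f3ee0009816000aa029260600)))))) 
(.nd (nat_lit 20) (.nd (nat_lit 2) (.nd (nat_lit 26) 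
(.lf (nat_lit 3492347907) (dlOf (nat_lit 1) (nat_lit 0x200280c0001))) 
(.lf (nat_lit 2754150403) (dlOf (nat_lit 1) (nat_lit 0x200280c0001)))) 
(.lf (nat_lit 61408327) (dlOf (nat_lit 1) (nat_lit 0x40029922881)))) (.nd (nat_lit 23) 
(.nd (nat_lit 2) 
(.lf (nat_lit 3735555) (dlOf (nat_lit 6) (nat_lit 0x1040c000807c0186504000613f00050970002040c000807c0186408000c13f00090970002040c001407c0186308000a13f00060970004040c002007c01862080006144000109c0021941000180080004002000a0008220003))) 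
(.lf (nat_lit 20518215) (dlOf (nat_lit 1) (nat_lit 0x2a00189d9901)))) (.nd (nat_lit 7) 
(.lf (nat_lit 12124675) (dlOf (nat_lit 1) (nat_lit 0x100080004002000200086c0d83))) 
(.lf (nat_lit 12124291) (dlOf (nat_lit 1) (nat_lit 0x23c00200ac00086c0102))))))) (.nd (nat_lit 6) 
(.nd (nat_lit 20) (.nd (nat_lit 31) (.nd (nat_lit 2) 
(.lf (nat_lit 4784131) (dlOf (nat_lit 1) (nat_lit 0x200282b0001))) 
(.lf (nat_lit 57215367) (dlOf (nat_lit 1) (nat_lit 0xe0029794e81)))) (.nd (nat_lit 26) 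
(.lf (nat_lit 3494445059) (dlOf (nat_lit 1) (nat_lit 0x4002001a0008220002))) 
(.lf (nat_lit 2756247555) (dlOf (nat_lit 1) (nat_lit 0x4002001a0008220002))))) (.nd (nat_lit 2) 
(.nd (nat_lit 21) 
(.lf (nat_lit 30998531) (dlOf (nat_lit 1) (nat_lit 0x118008000400200380008e60003))) 
(.lf (nat_lit 24707075) (dlOf (nat_lit 3) (nat_lit 0xd2f50005177a0191604002abd400125de8061c01007b8008051c002000e0008bb0003)))) 
(.lf (nat_lit 33098119) (dlOf (nat_lit 1) (nat_lit 0x1000400020008f54e82))))) (.nd (nat_lit 2) 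
(.nd (nat_lit 9) (.nd (nat_lit 26) 
(.lf (nat_lit 3494445123) (dlOf (nat_lit 6) (nat_lit 0x2401e0002481001b00f0001140800201a0001c084000c023003500f0000ec2000101a0000c084000c023002700f0000e42001201a000040c6004404200290118001008400fc03c001a00d00010000000e04000c8008009400200200008220c03))) 
(.lf (nat_lit 2756247619) (dlOf (nat_lit 6) (nat_lit 0x2401e0002301001b00f0001080800201a0001c084000c023003500f0000e42000101a0000c084000c023002700f0000dc2001201a000040c6004404200290118001008400fc03c001a00d00010000000d84000c8008009400200200008220c03)))) 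
(.lf (nat_lit 7936579) (dlOf (nat_lit 4) (nat_lit 0x45580000e0100182ac00006c080039560000300400080040006000851b502)))) 
(.nd (nat_lit 9) (.nd (nat_lit 26) 
(.lf (nat_lit 3494445127) (dlOf (nat_lit 2) (nat_lit 0x540d0001c0630013021000a008c00b403c001800d000e0040000983800180080054002002a0008220c83))) 
(.lf (nat_lit 2756247623) (dlOf (nat_lit 2) (nat_lit 0x540d0001c0630013021000a008c00b403c001800d000e0040000943800180080054002002a0008220c83)))) 
(.lf (nat_lit 7930439) (dlOf (nat_lit 1) (nat_lit 0x8008000400200020008511583)))))))) 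
(.nd (nat_lit 10) (.nd (nat_lit 8) (.nd (nat_lit 2) (.nd (nat_lit 6) (.nd (nat_lit 28) 
(.lf (nat_lit 1208025091) (dlOf (nat_lit 1) (nat_lit 0x2a0018090001))) 
(.lf (nat_lit 3087073283) (dlOf (nat_lit 3) (nat_lit 0x28036001201700080000076a418001005c03b4e0400a4002000e00080b0002)))) 
(.nd (nat_lit 11) (.nd (nat_lit 19) 
(.lf (nat_lit 2617311299) (dlOf (nat_lit 1) (nat_lit 0x600280a0001))) 
(.lf (nat_lit 474546243) (dlOf (nat_lit 2) (nat_lit 0x292084001203a000c0064004780c0004004000600191a0602)))) 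
(.lf (nat_lit 201398339) (dlOf (nat_lit 1) (nat_lit 0xb8008000c0020044000800a683))))) 
(.nd (nat_lit 19) (.nd (nat_lit 6) (.nd (nat_lit 7) 
(.lf (nat_lit 4697686023) (dlOf (nat_lit 1) (nat_lit 0x40028090001))) 
(.lf (nat_lit 3691059847) (dlOf (nat_lit 1) (nat_lit 0x300020006000800b682)))) (.nd (nat_lit 7) 
(.lf (nat_lit 1006699079) (dlOf (nat_lit 1) (nat_lit 0x2000400040008018d02))) 
(.lf (nat_lit 469834439) (dlOf (nat_lit 1) (nat_lit 0x780080030002000c000800b983))))) 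
(.nd (nat_lit 20) (.nd (nat_lit 26) 
(.lf (nat_lit 134807559) (dlOf (nat_lit 1) (nat_lit 0x4000280c0401))) (.nd (nat_lit 29) 
(.lf (nat_lit 201916423) (dlOf (nat_lit 1) (nat_lit 0x4000280c0401))) 
(.lf (nat_lit 738787335) (dlOf (nat_lit 1) (nat_lit 0x3a0028110001))))) 
(.lf (nat_lit 471400455) (dlOf (nat_lit 1) (nat_lit 0x2c00082f0481)))))) (.nd (nat_lit 6) 
(.nd (nat_lit 12) (.nd (nat_lit 7) 
(.lf (nat_lit 3892382467) (dlOf (nat_lit 2) (nat_lit 0x3811c0006204000400400120018105a82))) 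
(.nd (nat_lit 32) (.lf (nat_lit 402719107) (dlOf (nat_lit 1) (nat_lit 0x20028091001))) 
(.lf (nat_lit 4697686403) (dlOf (nat_lit 1) (nat_lit 0x400400020008091002))))) (.nd (nat_lit 2) 
(.nd (nat_lit 7) (.lf (nat_lit 3422622467) (dlOf (nat_lit 1) (nat_lit 0x1800400020018008f82))) 
(.lf (nat_lit 3422622595) (dlOf (nat_lit 1) (nat_lit 0x10004000c0008009002)))) 
(.lf (nat_lit 3355513735) (dlOf (nat_lit 1) (nat_lit 0x200280a9001))))) (.nd (nat_lit 2) 
(.nd (nat_lit 9) (.nd (nat_lit 26) 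
(.lf (nat_lit 939590083) (dlOf (nat_lit 2) (nat_lit 0x4024000300d0001141000080080014002000800080b0903))) 
(.lf (nat_lit 1812005315) (dlOf (nat_lit 2) (nat_lit 0x4024000300d0001141000080080014002000800080b0903)))) 
(.nd (nat_lit 7) (.lf (nat_lit 3355513667) (dlOf (nat_lit 1) (nat_lit 0x1a00280a8f81))) 
(.lf (nat_lit 134290371) (dlOf (nat_lit 2) (nat_lit 0xdd010c02c407e016c03b00ac009800000200868008002c00202bc000800be03))))) 
(.nd (nat_lit 9) (.nd (nat_lit 11) 
(.lf (nat_lit 1744896327) (dlOf (nat_lit 1) (nat_lit 0x8008000800200020008090c83))) 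
(.lf (nat_lit 671156551) (dlOf (nat_lit 1) (nat_lit 0x3000200020008144d02)))) 
(.lf (nat_lit 134290247) (dlOf (nat_lit 1) (nat_lit 0x2800800140020060000800bc83))))))) 
(.nd (nat_lit 26) (.nd (nat_lit 6) (.nd (nat_lit 2) (.nd (nat_lit 7) (.nd (nat_lit 9) 
(.lf (nat_lit 5772477443) (dlOf (nat_lit 1) (nat_lit 0x400400020008092882))) 
(.lf (nat_lit 6308300291) (dlOf (nat_lit 1) (nat_lit 0x40028053681)))) 
(.lf (nat_lit 134290819) (dlOf (nat_lit 3) (nat_lit 0x3603b0026a01000401d80134c08010000801b0002009a000800c903)))) 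
(.nd (nat_lit 7) (.nd (nat_lit 29) 
(.lf (nat_lit 4697687559) (dlOf (nat_lit 1) (nat_lit 0x2000800a400200320008093683))) 
(.lf (nat_lit 6308300295) (dlOf (nat_lit 1) (nat_lit 0x40028053681)))) 
(.lf (nat_lit 4697687687) (dlOf (nat_lit 1) (nat_lit 0x20018093a01))))) (.nd (nat_lit 8) 
(.nd (nat_lit 32) (.nd (nat_lit 28) 
(.lf (nat_lit 671155271) (dlOf (nat_lit 1) (nat_lit 0x8008000400200040008142883))) 
(.lf (nat_lit 402719815) (dlOf (nat_lit 1) (nat_lit 0x400400020008092882)))) (.nd (nat_lit 9) 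
(.lf (nat_lit 4697687111) (dlOf (nat_lit 1) (nat_lit 0x8008000400200020008092883))) 
(.lf (nat_lit 4697687623) (dlOf (nat_lit 1) (nat_lit 0x88008000c002002c0008093803))))) 
(.nd (nat_lit 2) (.nd (nat_lit 7) 
(.lf (nat_lit 671156035) (dlOf (nat_lit 1) (nat_lit 0x1800200060008143e02))) 
(.lf (nat_lit 671156163) (dlOf (nat_lit 1) (nat_lit 0x800400300008144402)))) 
(.lf (nat_lit 134286663) (dlOf (nat_lit 4) (nat_lit 0x180940001002004804a0000701002102500000c080140008013400200780008006983)))))) 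
(.nd (nat_lit 31) (.nd (nat_lit 9) (.nd (nat_lit 7) (.nd (nat_lit 30) 
(.lf (nat_lit 4496360451) (dlOf (nat_lit 1) (nat_lit 0x600080054002000c0008052883))) 
(.lf (nat_lit 5570102275) (dlOf (nat_lit 1) (nat_lit 0x3000400160018052882)))) 
(.lf (nat_lit 1543572867) (dlOf (nat_lit 1) (nat_lit 0x40008146c01)))) (.nd (nat_lit 2) 
(.nd (nat_lit 6) (.lf (nat_lit 5570102915) (dlOf (nat_lit 1) (nat_lit 0x400400020018053a02))) 
(.lf (nat_lit 4496361027) (dlOf (nat_lit 1) (nat_lit 0x25800800d000200720008053803)))) 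
(.lf (nat_lit 4496360967) (dlOf (nat_lit 1) (nat_lit 0x18008000800200020008053683))))) 
(.nd (nat_lit 2) (.nd (nat_lit 7) (.nd (nat_lit 8) 
(.lf (nat_lit 2617316931) (dlOf (nat_lit 1) (nat_lit 0xe00280a9c01))) 
(.lf (nat_lit 2348877635) (dlOf (nat_lit 1) (nat_lit 0x1400200020008003e02)))) (.nd (nat_lit 6) 
(.lf (nat_lit 2885750403) (dlOf (nat_lit 4) (nat_lit 0x401100020086001003e000801e000e00dc002006a00080000002987001b01b8001400800080f000050040048004001a0018007182))) 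
(.lf (nat_lit 2617316547) (dlOf (nat_lit 1) (nat_lit 0x4004000200080a9502))))) (.nd (nat_lit 6) 
(.nd (nat_lit 7) 
(.lf (nat_lit 2348877575) (dlOf (nat_lit 1) (nat_lit 0x180008017c002009a0008003b83))) 
(.lf (nat_lit 2348877703) (dlOf (nat_lit 2) (nat_lit 0x900a80002a040028004002e0008004182)))) 
(.lf (nat_lit 3691058503) (dlOf (nat_lit 2) (nat_lit 0x300000295008004000800e800200260008009903))))))))) 
(.nd (nat_lit 6) (.nd (nat_lit 7) (.nd (nat_lit 19) (.nd (nat_lit 10) (.nd (nat_lit 23) 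
(.nd (nat_lit 27) (.nd (nat_lit 2) 
(.lf (nat_lit 4563476483) (dlOf (nat_lit 1) (nat_lit 0x25000400480008090002))) 
(.lf (nat_lit 1122311) (dlOf (nat_lit 1) (nat_lit 0x8a0018070001)))) (.nd (nat_lit 9) 
(.lf (nat_lit 4697694211) (dlOf (nat_lit 1) (nat_lit 0x98008005000200080008090003))) 
(.lf (nat_lit 4429259267) (dlOf (nat_lit 1) (nat_lit 0xb20028017f81))))) (.nd (nat_lit 20) 
(.nd (nat_lit 21) (.lf (nat_lit 12656643) (dlOf (nat_lit 1) (nat_lit 0x4002000200086d0002))) 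
(.lf (nat_lit 14753795) (dlOf (nat_lit 1) (nat_lit 0x8008000400200020008770003)))) 
(.nd (nat_lit 22) (.lf (nat_lit 9510915) (dlOf (nat_lit 1) (nat_lit 0x38008002000200040008560003))) 
(.lf (nat_lit 47259651) (dlOf (nat_lit 1) (nat_lit 0x3680080010002000800093c0003)))))) 
(.nd (nat_lit 2) (.nd (nat_lit 28) 
(.lf (nat_lit 3892388867) (dlOf (nat_lit 1) (nat_lit 0xfc0008102881))) 
(.lf (nat_lit 4697695235) (dlOf (nat_lit 1) (nat_lit 0x100028092881)))) (.nd (nat_lit 8) 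
(.nd (nat_lit 9) 
(.lf (nat_lit 5167459335) (dlOf (nat_lit 2) (nat_lit 0x5009c0000004000400400020018055f82))) 
(.lf (nat_lit 1610688007) (dlOf (nat_lit 1) (nat_lit 0x8008001400200020008093683)))) 
(.lf (nat_lit 8469767) (dlOf (nat_lit 1) (nat_lit 0x40020002000851c602)))))) (.nd (nat_lit 20) 
(.nd (nat_lit 28) (.nd (nat_lit 23) (.nd (nat_lit 9) (.nd (nat_lit 26) 
(.lf (nat_lit 134815747) (dlOf (nat_lit 2) (nat_lit 0x8000000808180c0000))) 
(.lf (nat_lit 201924611) (dlOf (nat_lit 2) (nat_lit 0x8000000c90180c0000)))) 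
(.lf (nat_lit 2752068099) (dlOf (nat_lit 1) (nat_lit 0x2001800b281)))) (.nd (nat_lit 10) 
(.lf (nat_lit 42541059) (dlOf (nat_lit 1) (nat_lit 0x1400402da0019260002))) 
(.lf (nat_lit 61416451) (dlOf (nat_lit 1) (nat_lit 0x40029922881))))) (.nd (nat_lit 2) 
(.nd (nat_lit 8) (.nd (nat_lit 22) 
(.lf (nat_lit 1342775299) (dlOf (nat_lit 3) (nat_lit 0x11168076940800207cc03732040004004000200080c0002))) 
(.lf (nat_lit 474554371) (dlOf (nat_lit 1) (nat_lit 0x80080004002000200091a0003)))) 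
(.lf (nat_lit 470360323) (dlOf (nat_lit 1) (nat_lit 0x4002004200080c0482)))) (.nd (nat_lit 9) 
(.lf (nat_lit 1879646215) (dlOf (nat_lit 1) (nat_lit 0x20018290001))) 
(.lf (nat_lit 1342775815) (dlOf (nat_lit 3) (nat_lit 0x623c0010c81001111e0008100800480080030002002800080c0d83)))))) 
(.nd (nat_lit 23) (.nd (nat_lit 21) (.nd (nat_lit 2) 
(.lf (nat_lit 3491308035) (dlOf (nat_lit 1) (nat_lit 0x8008000400200020008090d83))) 
(.lf (nat_lit 1008279815) (dlOf (nat_lit 2) (nat_lit 0xe00000000018b27c00)))) (.nd (nat_lit 10) 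
(.nd (nat_lit 22) 
(.lf (nat_lit 3743747) (dlOf (nat_lit 5) (nat_lit 0x212a0000892c018650400044bd000225400011258030c80c003c98e001c4bd000725400059258030c610001498e000a4bd000d25400069258030c410001c00200160008220002))) 
(.lf (nat_lit 24715267) (dlOf (nat_lit 1) (nat_lit 0x580080054002000a0008bb0003)))) 
(.lf (nat_lit 37299203) (dlOf (nat_lit 1) (nat_lit 0x8008000c002000400090d2883))))) 
(.nd (nat_lit 2) (.nd (nat_lit 9) 
(.lf (nat_lit 45686787) (dlOf (nat_lit 1) (nat_lit 0x120009350001))) 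
(.lf (nat_lit 12132867) (dlOf (nat_lit 1) (nat_lit 0x200286c0d81)))) 
(.lf (nat_lit 28909575) (dlOf (nat_lit 1) (nat_lit 0x60028da0001))))))) (.nd (nat_lit 30) 
(.nd (nat_lit 32) (.nd (nat_lit 8) (.nd (nat_lit 12) (.nd (nat_lit 20) (.nd (nat_lit 27) 
(.lf (nat_lit 805380227) (dlOf (nat_lit 2) (nat_lit 0x1881300005e04000400400160008090102))) 
(.lf (nat_lit 939597955) (dlOf (nat_lit 2) (nat_lit 0x100440004a02000600280b0101)))) 
(.lf (nat_lit 3219587) (dlOf (nat_lit 1) (nat_lit 0x400200020008200102)))) 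
(.lf (nat_lit 2952867971) (dlOf (nat_lit 1) (nat_lit 0xd8008008800200660008007d83)))) 
(.nd (nat_lit 2) (.lf (nat_lit 872489347) (dlOf (nat_lit 1) (nat_lit 0x60028091001))) 
(.lf (nat_lit 2753110407) (dlOf (nat_lit 1) (nat_lit 0x800400020008090782))))) (.nd (nat_lit 10) 
(.nd (nat_lit 2) (.lf (nat_lit 4563479171) (dlOf (nat_lit 1) (nat_lit 0x7400200280008095482))) 
(.nd (nat_lit 11) (.lf (nat_lit 4697694599) (dlOf (nat_lit 1) (nat_lit 0x800200240008091002))) 
(.lf (nat_lit 4563478919) (dlOf (nat_lit 1) (nat_lit 0x800800b800200200008094e83))))) 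
(.nd (nat_lit 26) (.nd (nat_lit 27) 
(.lf (nat_lit 5100349059) (dlOf (nat_lit 1) (nat_lit 0x600018053a01))) 
(.lf (nat_lit 4966131331) (dlOf (nat_lit 1) (nat_lit 0x40008004c002000c0008003a03)))) 
(.lf (nat_lit 4496369283) (dlOf (nat_lit 1) (nat_lit 0x120028053a01)))))) (.nd (nat_lit 2) 
(.nd (nat_lit 8) (.nd (nat_lit 10) (.nd (nat_lit 27) 
(.lf (nat_lit 1677795459) (dlOf (nat_lit 2) (nat_lit 0x1881300005e04000400400160008090102))) 
(.lf (nat_lit 1812013187) (dlOf (nat_lit 2) (nat_lit 0x100440004a02000600280b0101)))) 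
(.nd (nat_lit 9) (.lf (nat_lit 1342254211) (dlOf (nat_lit 1) (nat_lit 0x20008006101))) 
(.lf (nat_lit 5503002243) (dlOf (nat_lit 1) (nat_lit 0x1000400040008003a02))))) (.nd (nat_lit 11) 
(.lf (nat_lit 1610686851) (dlOf (nat_lit 1) (nat_lit 0x80080204002007e0008091003))) 
(.nd (nat_lit 21) 
(.lf (nat_lit 5771438467) (dlOf (nat_lit 2) (nat_lit 0x40a3006d38080008008000800200020008004e83))) 
(.lf (nat_lit 6377515395) (dlOf (nat_lit 1) (nat_lit 0xc00180e4e81)))))) (.nd (nat_lit 9) 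
(.nd (nat_lit 8) (.nd (nat_lit 10) 
(.lf (nat_lit 1744904327) (dlOf (nat_lit 1) (nat_lit 0x38004000c0008090382))) 
(.lf (nat_lit 3892388999) (dlOf (nat_lit 1) (nat_lit 0x40018102b01)))) 
(.lf (nat_lit 3491307911) (dlOf (nat_lit 1) (nat_lit 0x800400020008090782)))) (.nd (nat_lit 10) 
(.lf (nat_lit 3691068039) (dlOf (nat_lit 1) (nat_lit 0xc80020042000800b682))) 
(.lf (nat_lit 1610688135) (dlOf (nat_lit 1) (nat_lit 0x8008003400200020008093a03)))))))) 
(.nd (nat_lit 9) (.nd (nat_lit 2) (.nd (nat_lit 19) (.nd (nat_lit 20) (.nd (nat_lit 7) 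
(.nd (nat_lit 26) 
(.lf (nat_lit 3221299523) (dlOf (nat_lit 3) (nat_lit 0x140400002d0200c202000016018090600))) 
(.lf (nat_lit 3959497027) (dlOf (nat_lit 3) (nat_lit 0x140400002c0200c202000015818090600)))) 
(.lf (nat_lit 4093716931) (dlOf (nat_lit 1) (nat_lit 0x84004008e0008004e82)))) (.nd (nat_lit 7) 
(.nd (nat_lit 8) (.lf (nat_lit 26288195) (dlOf (nat_lit 1) (nat_lit 0x30008001c00200020008c30583))) 
(.lf (nat_lit 59842883) (dlOf (nat_lit 1) (nat_lit 0x400400020009840c02)))) 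
(.lf (nat_lit 55649475) (dlOf (nat_lit 1) (nat_lit 0x1e00196d2d01))))) (.nd (nat_lit 7) 
(.nd (nat_lit 8) (.nd (nat_lit 23) 
(.lf (nat_lit 537468995) (dlOf (nat_lit 1) (nat_lit 0x80080024002000400080a0d03))) 
(.lf (nat_lit 42541123) (dlOf (nat_lit 4) (nat_lit 0x90fd200383d7000aa02002d0000004dc08003800000128040044002000c0009260602)))) 
(.lf (nat_lit 7943491) (dlOf (nat_lit 1) (nat_lit 0x8008000400200020008519903)))) (.nd (nat_lit 20) 
(.nd (nat_lit 26) (.lf (nat_lit 1342775747) (dlOf (nat_lit 1) (nat_lit 0x2c002002a00080c0902))) 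
(.lf (nat_lit 470360515) (dlOf (nat_lit 1) (nat_lit 0x2c002002a00080c0902)))) 
(.lf (nat_lit 1880695235) (dlOf (nat_lit 1) (nat_lit 0x60008b37001)))))) (.nd (nat_lit 8) 
(.nd (nat_lit 19) (.nd (nat_lit 26) 
(.lf (nat_lit 3490783303) (dlOf (nat_lit 1) (nat_lit 0xc0028020881))) 
(.lf (nat_lit 2752585799) (dlOf (nat_lit 1) (nat_lit 0xc0028020881)))) (.nd (nat_lit 10) 
(.lf (nat_lit 1409884231) (dlOf (nat_lit 1) (nat_lit 0x4200280a0e01))) 
(.lf (nat_lit 37299271) (dlOf (nat_lit 1) (nat_lit 0x200290d2881))))) (.nd (nat_lit 26) 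
(.nd (nat_lit 7) 
(.lf (nat_lit 2952869191) (dlOf (nat_lit 2) (nat_lit 0x300280146a040030002001c0008009902))) 
(.lf (nat_lit 4697694663) (dlOf (nat_lit 1) (nat_lit 0x14002001a0008091102)))) (.nd (nat_lit 29) 
(.lf (nat_lit 67188039) (dlOf (nat_lit 1) (nat_lit 0x400400060008009902))) 
(.lf (nat_lit 604058951) (dlOf (nat_lit 1) (nat_lit 0x40028009901))))))) (.nd (nat_lit 7) 
(.nd (nat_lit 27) (.nd (nat_lit 28) (.nd (nat_lit 2) (.nd (nat_lit 10) 
(.lf (nat_lit 5972763203) (dlOf (nat_lit 1) (nat_lit 0x1c00080b1101))) 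
(.lf (nat_lit 61417027) (dlOf (nat_lit 1) (nat_lit 0x800400020009923802)))) 
(.lf (nat_lit 54602567) (dlOf (nat_lit 1) (nat_lit 0x60008005400200040009655c03)))) 
(.nd (nat_lit 2) (.nd (nat_lit 10) 
(.lf (nat_lit 1342775875) (dlOf (nat_lit 1) (nat_lit 0x20004000200080c1102))) 
(.lf (nat_lit 5100348995) (dlOf (nat_lit 1) (nat_lit 0x80018053801)))) 
(.lf (nat_lit 1346448199) (dlOf (nat_lit 1) (nat_lit 0x40008000400200020008f65c03))))) 
(.nd (nat_lit 10) (.nd (nat_lit 2) (.nd (nat_lit 19) 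
(.lf (nat_lit 6576742979) (dlOf (nat_lit 1) (nat_lit 0x1c00080b1101))) 
(.lf (nat_lit 470360643) (dlOf (nat_lit 1) (nat_lit 0x20004000200080c1102)))) 
(.lf (nat_lit 3355517511) (dlOf (nat_lit 2) (nat_lit 0x501700011c0800180080010002000c00080a1583)))) 
(.nd (nat_lit 26) 
(.lf (nat_lit 6308308547) (dlOf (nat_lit 2) (nat_lit 0x2400c00009c080020008000800200020008053803))) 
(.lf (nat_lit 4496369219) (dlOf (nat_lit 1) (nat_lit 0x20028053801)))))) (.nd (nat_lit 2) 
(.nd (nat_lit 11) (.nd (nat_lit 19) (.nd (nat_lit 20) 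
(.lf (nat_lit 604058307) (dlOf (nat_lit 2) (nat_lit 0x301f801254080040008000800200020008008c83))) 
(.lf (nat_lit 20001475) (dlOf (nat_lit 1) (nat_lit 0x4002000200089d8c82)))) (.nd (nat_lit 22) 
(.lf (nat_lit 20525763) (dlOf (nat_lit 1) (nat_lit 0x80080004002000200089d8c83))) 
(.lf (nat_lit 7942851) (dlOf (nat_lit 1) (nat_lit 0x20018518c81))))) (.nd (nat_lit 8) 
(.nd (nat_lit 26) (.lf (nat_lit 3758172867) (dlOf (nat_lit 1) (nat_lit 0x1800080d5801))) 
(.lf (nat_lit 3154193091) (dlOf (nat_lit 1) (nat_lit 0x30008000800200200008105803)))) 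
(.lf (nat_lit 5368785859) (dlOf (nat_lit 1) (nat_lit 0x40008005d81))))) (.nd (nat_lit 26) 
(.nd (nat_lit 27) 
(.lf (nat_lit 4563479495) (dlOf (nat_lit 2) (nat_lit 0x300a40003a04015000400040008095d82))) 
(.lf (nat_lit 5234568135) (dlOf (nat_lit 6) (nat_lit 0xa0158000980800800ac0004a04002805e001002e000108200030178000100800400bc000060400c8004000a0008055d82)))) 
(.nd (nat_lit 8) (.lf (nat_lit 469842631) (dlOf (nat_lit 1) (nat_lit 0x80040096001800b982))) 
(.nd (nat_lit 27) 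
(.lf (nat_lit 5704330183) (dlOf (nat_lit 6) (nat_lit 0x601b001900c8002802c000580c00f8036003a01900410058000a81804f006c01e8032014400b0000203003800d8006806401040160000306002c01b00140058000081000f0008007000200020008055d83))) 
(.lf (nat_lit 738274247) (dlOf (nat_lit 2) (nat_lit 0xc01c0000e818095d80))))))))))) 
(.nd (nat_lit 13) (.nd (nat_lit 2) (.nd (nat_lit 6) (.nd (nat_lit 29) (.nd (nat_lit 19) 
(.nd (nat_lit 27) (.nd (nat_lit 20) (.nd (nat_lit 21) 
(.lf (nat_lit 67436547) (dlOf (nat_lit 1) (nat_lit 0x18002000a0008140002))) 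
(.lf (nat_lit 2424835) (dlOf (nat_lit 3) (nat_lit 0x257d00273408000abe80139404003000200080008160002)))) 
(.nd (nat_lit 22) 
(.lf (nat_lit 62193667) (dlOf (nat_lit 1) (nat_lit 0x18008000400200060009970003))) 
(.lf (nat_lit 24444931) (dlOf (nat_lit 1) (nat_lit 0x8008000c00200040008ba0003))))) 
(.nd (nat_lit 31) (.nd (nat_lit 22) 
(.lf (nat_lit 1476722691) (dlOf (nat_lit 2) (nat_lit 0x203a002bc018150000))) 
(.lf (nat_lit 474284035) (dlOf (nat_lit 1) (nat_lit 0x20019110001)))) (.nd (nat_lit 7) 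
(.lf (nat_lit 3355770883) (dlOf (nat_lit 1) (nat_lit 0x1120018110001))) 
(.lf (nat_lit 3624209795) (dlOf (nat_lit 2) (nat_lit 0x28020001c80000001a08017000200080008146c02)))))) 
(.nd (nat_lit 20) (.nd (nat_lit 11) (.nd (nat_lit 24) 
(.lf (nat_lit 42795011) (dlOf (nat_lit 1) (nat_lit 0xca0009280001))) 
(.lf (nat_lit 59572227) (dlOf (nat_lit 2) (nat_lit 0x14a028032b4040108004000c0009810002)))) 
(.nd (nat_lit 7) 
(.lf (nat_lit 1410144259) (dlOf (nat_lit 1) (nat_lit 0x80080004002000200080fa603))) 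
(.lf (nat_lit 49088899) (dlOf (nat_lit 1) (nat_lit 0x880019464e81))))) (.nd (nat_lit 21) 
(.nd (nat_lit 24) (.lf (nat_lit 69009411) (dlOf (nat_lit 1) (nat_lit 0x400400020008860002))) 
(.lf (nat_lit 18677763) (dlOf (nat_lit 1) (nat_lit 0x400400020018960002)))) 
(.lf (nat_lit 24969219) (dlOf (nat_lit 3) (nat_lit 0x193480087e02000299a00000018bd0000)))))) 
(.nd (nat_lit 26) (.nd (nat_lit 30) (.nd (nat_lit 7) (.nd (nat_lit 19) 
(.lf (nat_lit 939851779) (dlOf (nat_lit 1) (nat_lit 0x4002000600081d0002))) 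
(.lf (nat_lit 2819424259) (dlOf (nat_lit 8) (nat_lit 0xb01c800c800400540e4000204b000501f8018fc1800a01c8002007e0063c04005e0720006025800680fc00c720c003c0e4000406a000202f0001012c002c07e006330a0016072003140100040218015e80803a800801c000200100008280003)))) 
(.lf (nat_lit 2818904195) (dlOf (nat_lit 1) (nat_lit 0x400200020008127d82)))) (.nd (nat_lit 27) 
(.lf (nat_lit 1610940419) (dlOf (nat_lit 1) (nat_lit 0x80080004002000200080a0003))) 
(.lf (nat_lit 1745158147) (dlOf (nat_lit 1) (nat_lit 0x600080b0001))))) (.nd (nat_lit 31) 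
(.nd (nat_lit 27) (.nd (nat_lit 28) 
(.lf (nat_lit 604307459) (dlOf (nat_lit 6) (nat_lit 0x301e0030540800100f00180e04002c07800b8302000203a0058701000201d0029a0080290008004000200140008130003))) 
(.lf (nat_lit 872742915) (dlOf (nat_lit 1) (nat_lit 0x600080b0001)))) 
(.lf (nat_lit 1812267011) (dlOf (nat_lit 1) (nat_lit 0x4002000600081d0002)))) (.nd (nat_lit 7) 
(.nd (nat_lit 9) 
(.lf (nat_lit 4096589827) (dlOf (nat_lit 1) (nat_lit 0x2d0008000c00200420008130003))) 
(.lf (nat_lit 2752322051) (dlOf (nat_lit 1) (nat_lit 0x2000800b281)))) 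
(.lf (nat_lit 2754940547) (dlOf (nat_lit 1) (nat_lit 0x300080014002000800080f7183))))))) 
(.nd (nat_lit 26) (.nd (nat_lit 30) (.nd (nat_lit 24) (.nd (nat_lit 19) 
(.lf (nat_lit 4697948227) (dlOf (nat_lit 2) (nat_lit 0x280520008e02000600280d0481))) 
(.nd (nat_lit 20) (.nd (nat_lit 22) 
(.lf (nat_lit 42795075) (dlOf (nat_lit 4) (nat_lit 0x1fce96009b707007f33a404119c00070971000aa05001e0000004dc0800300000012804008c002004e0009280602))) 
(.lf (nat_lit 13434947) (dlOf (nat_lit 1) (nat_lit 0xa0018721881)))) 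
(.lf (nat_lit 10289219) (dlOf (nat_lit 1) (nat_lit 0x180080018002002800085c0e03))))) 
(.nd (nat_lit 12) (.nd (nat_lit 7) 
(.lf (nat_lit 19729219) (dlOf (nat_lit 1) (nat_lit 0xa00289d5c01))) 
(.lf (nat_lit 21299395) (dlOf (nat_lit 1) (nat_lit 0x8008030000201040008a31b83)))) 
(.nd (nat_lit 19) (.lf (nat_lit 20255427) (dlOf (nat_lit 1) (nat_lit 0x4002000200089d8c82))) 
(.lf (nat_lit 20779715) (dlOf (nat_lit 1) (nat_lit 0x400189d8c81)))))) (.nd (nat_lit 7) 
(.nd (nat_lit 27) (.nd (nat_lit 19) 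
(.lf (nat_lit 4026859587) (dlOf (nat_lit 14) (nat_lit 0x3f805c024402d001d0138000801807a80b8049005a0001f04018202e0000f010064017002580b40002c0800a405c01e802d000098200ff017000300b4004804e0001206020002e000088100080170000400808100b80001e04040805c000202d00060138000341808880b8049405a0000b0401dc02e000050100eb01700000008117800801ac002008000080a0d03))) 
(.lf (nat_lit 1343029315) (dlOf (nat_lit 1) (nat_lit 0x20008130c01)))) (.nd (nat_lit 29) 
(.lf (nat_lit 1208287299) (dlOf (nat_lit 2) (nat_lit 0x2e602900f4014007a00300002e0c0030004001e00080b0582))) 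
(.lf (nat_lit 3892641859) (dlOf (nat_lit 1) (nat_lit 0x60008180581))))) (.nd (nat_lit 8) 
(.lf (nat_lit 1880425667) (dlOf (nat_lit 1) (nat_lit 0x400400020008982d02))) (.nd (nat_lit 12) 
(.lf (nat_lit 5771692995) (dlOf (nat_lit 1) (nat_lit 0x20028005d81))) 
(.lf (nat_lit 3489995715) (dlOf (nat_lit 2) (nat_lit 0x704e00037404000c002000c000800be02))))))) 
(.nd (nat_lit 27) (.nd (nat_lit 7) (.nd (nat_lit 19) (.nd (nat_lit 28) 
(.lf (nat_lit 3288662083) (dlOf (nat_lit 2) (nat_lit 0x10168000800802b800800f400200d600080a0e03))) 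
(.lf (nat_lit 2483355715) (dlOf (nat_lit 5) (nat_lit 0xbc0140001940800180a0000c80400e0050000620200620280000e8180d0c00)))) 
(.lf (nat_lit 70058051) (dlOf (nat_lit 1) (nat_lit 0x10008000400200020008e80603)))) 
(.nd (nat_lit 8) (.nd (nat_lit 29) 
(.lf (nat_lit 335872195) (dlOf (nat_lit 1) (nat_lit 0x80080144002004600080c1b83))) 
(.lf (nat_lit 6241452227) (dlOf (nat_lit 1) (nat_lit 0x100080030002001000080f1b83)))) 
(.lf (nat_lit 2751793091) (dlOf (nat_lit 1) (nat_lit 0x400200020008004402))))) (.nd (nat_lit 8) 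
(.nd (nat_lit 19) (.nd (nat_lit 28) 
(.lf (nat_lit 2349137987) (dlOf (nat_lit 5) (nat_lit 0xbc0140001a00800180a0000ce0400e0050000650200620280000e8180d0c00))) 
(.lf (nat_lit 2080702531) (dlOf (nat_lit 2) (nat_lit 0x2e602900f4014007a00300002e0c0030004001e00080b0582)))) 
(.lf (nat_lit 470614083) (dlOf (nat_lit 1) (nat_lit 0x20008130c01)))) (.nd (nat_lit 7) 
(.lf (nat_lit 2886010691) (dlOf (nat_lit 1) (nat_lit 0x3800801b0002006e0008143e03))) 
(.lf (nat_lit 4496624579) (dlOf (nat_lit 2) (nat_lit 0x180c80003a040008002000400080e5d82)))))))) 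
(.nd (nat_lit 28) (.nd (nat_lit 21) (.nd (nat_lit 6) (.nd (nat_lit 20) (.nd (nat_lit 22) 
(.nd (nat_lit 19) (.nd (nat_lit 29) 
(.lf (nat_lit 3355770887) (dlOf (nat_lit 1) (nat_lit 0x78008000c002001a0008110003))) 
(.lf (nat_lit 671416327) (dlOf (nat_lit 2) (nat_lit 0x20000024f018190000)))) 
(.lf (nat_lit 2819424263) (dlOf (nat_lit 8) (nat_lit 0x3c0e4005f5020004043002d881000203780127c0800101140087e04002c08a004140200100450020981000b022801044080460008003000200420008280003)))) 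
(.nd (nat_lit 7) 
(.lf (nat_lit 54856711) (dlOf (nat_lit 3) (nat_lit 0x325e0001580800392f0000aa0400a8002002c0009655f82))) 
(.lf (nat_lit 21299335) (dlOf (nat_lit 6) (nat_lit 0x3f680002bb3c000dd430001a830006ed00001f6780006808001bb400009d430001502000eea180002c08006f50c0001404000c00400840018a30f02))))) 
(.nd (nat_lit 19) (.nd (nat_lit 7) 
(.lf (nat_lit 18153479) (dlOf (nat_lit 1) (nat_lit 0x20018910581))) 
(.lf (nat_lit 47516039) (dlOf (nat_lit 1) (nat_lit 0x800400060009404e82)))) (.nd (nat_lit 10) 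
(.lf (nat_lit 18677767) (dlOf (nat_lit 1) (nat_lit 0x6800400360008960282))) 
(.lf (nat_lit 56427527) (dlOf (nat_lit 1) (nat_lit 0x400200020009732882)))))) (.nd (nat_lit 27) 
(.nd (nat_lit 19) 
(.lf (nat_lit 3288662087) (dlOf (nat_lit 6) (nat_lit 0xb80b4000400400bc05a0001302020002e002f0168007809c000240c03f405c006802d000088200dc017001780b40001e08016400400b400080a0e02))) 
(.nd (nat_lit 22) 
(.lf (nat_lit 9240647) (dlOf (nat_lit 2) (nat_lit 0x101c640010dc00004b0400240018530601))) 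
(.lf (nat_lit 21823559) (dlOf (nat_lit 1) (nat_lit 0x20018a70881))))) (.nd (nat_lit 8) 
(.lf (nat_lit 1208287303) (dlOf (nat_lit 2) (nat_lit 0x120290000b8180b0600))) (.nd (nat_lit 9) 
(.lf (nat_lit 2818905415) (dlOf (nat_lit 1) (nat_lit 0xbc002000a0008129902))) 
(.lf (nat_lit 4496624455) (dlOf (nat_lit 1) (nat_lit 0x200080e5c01))))))) (.nd (nat_lit 19) 
(.nd (nat_lit 7) (.nd (nat_lit 20) (.nd (nat_lit 6) 
(.lf (nat_lit 40174599) (dlOf (nat_lit 1) (nat_lit 0x4004000200091f2882))) 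
(.lf (nat_lit 23396935) (dlOf (nat_lit 2) (nat_lit 0x14ee5e000560200020018b81101)))) 
(.nd (nat_lit 8) (.lf (nat_lit 16056327) (dlOf (nat_lit 1) (nat_lit 0x10008001c00200060008860283))) 
(.lf (nat_lit 41222407) (dlOf (nat_lit 1) (nat_lit 0x40029223a01))))) (.nd (nat_lit 6) 
(.nd (nat_lit 9) (.lf (nat_lit 11862151) (dlOf (nat_lit 1) (nat_lit 0x1800086c0101))) 
(.lf (nat_lit 52758151) (dlOf (nat_lit 1) (nat_lit 0xc00400060009573a02)))) 
(.lf (nat_lit 20255431) (dlOf (nat_lit 1) (nat_lit 0x4002000200089d8c82))))) (.nd (nat_lit 6) 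
(.nd (nat_lit 7) (.nd (nat_lit 24) 
(.lf (nat_lit 11337735) (dlOf (nat_lit 1) (nat_lit 0xf340040a540008690002))) 
(.lf (nat_lit 28114951) (dlOf (nat_lit 2) (nat_lit 0x252880134c080048008000800200040008d50003)))) 
(.lf (nat_lit 50136199) (dlOf (nat_lit 1) (nat_lit 0x800294c2b01)))) (.nd (nat_lit 7) 
(.nd (nat_lit 10) 
(.lf (nat_lit 70058055) (dlOf (nat_lit 1) (nat_lit 0x130008013c00200980008e80603))) 
(.lf (nat_lit 58524743) (dlOf (nat_lit 1) (nat_lit 0x4004000200197e2882)))) 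
(.lf (nat_lit 20779719) (dlOf (nat_lit 1) (nat_lit 0x2180080004002005600089d8c83))))))) 
(.nd (nat_lit 7) (.nd (nat_lit 26) (.nd (nat_lit 30) (.nd (nat_lit 8) (.nd (nat_lit 27) 
(.lf (nat_lit 5100601415) (dlOf (nat_lit 1) (nat_lit 0x8008007c002000800080f0603))) 
(.lf (nat_lit 2550464583) (dlOf (nat_lit 1) (nat_lit 0x600180c1481)))) 
(.lf (nat_lit 805634375) (dlOf (nat_lit 1) (nat_lit 0x20018157f01)))) (.nd (nat_lit 6) 
(.lf (nat_lit 4161077255) (dlOf (nat_lit 1) (nat_lit 0xc00400040008120002))) (.nd (nat_lit 8) 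
(.lf (nat_lit 4026859591) (dlOf (nat_lit 1) (nat_lit 0xe00080114002007800080a0d83))) 
(.lf (nat_lit 3489992007) (dlOf (nat_lit 1) (nat_lit 0xc00200020008006982)))))) (.nd (nat_lit 6) 
(.nd (nat_lit 19) (.nd (nat_lit 30) 
(.lf (nat_lit 2617573383) (dlOf (nat_lit 2) (nat_lit 0x15005e007080200020018100001))) 
(.lf (nat_lit 1543831559) (dlOf (nat_lit 2) (nat_lit 0x200000519818190000)))) 
(.lf (nat_lit 4096589831) (dlOf (nat_lit 1) (nat_lit 0x8008000400200020008130003)))) 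
(.nd (nat_lit 8) (.lf (nat_lit 2080702535) (dlOf (nat_lit 2) (nat_lit 0x120290000b8180b0600))) 
(.lf (nat_lit 1007490375) (dlOf (nat_lit 1) (nat_lit 0x200283d9901)))))) (.nd (nat_lit 29) 
(.nd (nat_lit 10) (.nd (nat_lit 19) (.nd (nat_lit 22) 
(.lf (nat_lit 5637472391) (dlOf (nat_lit 3) (nat_lit 0x1400d0001005c0006c080080038010801900150068009000000064100008004000600080f0e02))) 
(.lf (nat_lit 474284167) (dlOf (nat_lit 1) (nat_lit 0xc00400020019110e02)))) 
(.lf (nat_lit 5773262983) (dlOf (nat_lit 1) (nat_lit 0xa00280c0e01)))) (.nd (nat_lit 6) 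
(.lf (nat_lit 3489996167) (dlOf (nat_lit 1) (nat_lit 0x2001800c901))) 
(.lf (nat_lit 3624209607) (dlOf (nat_lit 2) (nat_lit 0xa00000008c080168008001400200040008146383))))) 
(.nd (nat_lit 26) (.nd (nat_lit 6) (.nd (nat_lit 27) 
(.lf (nat_lit 6174343303) (dlOf (nat_lit 1) (nat_lit 0x800400060008100e02))) 
(.lf (nat_lit 5234819207) (dlOf (nat_lit 3) (nat_lit 0x2003400080060001b02020e00b80fc805007dc0100003206005600180f0e01)))) 
(.lf (nat_lit 5234819271) (dlOf (nat_lit 1) (nat_lit 0x200180f1781)))) (.nd (nat_lit 6) 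
(.nd (nat_lit 21) 
(.lf (nat_lit 6241452167) (dlOf (nat_lit 2) (nat_lit 0x1404a0000c02000200180f0f01))) 
(.lf (nat_lit 1009057927) (dlOf (nat_lit 1) (nat_lit 0x180029030f01)))) 
(.lf (nat_lit 6377242823) (dlOf (nat_lit 1) (nat_lit 0x4004000200180c1b82))))))))) (.nd (nat_lit 2) 
(.nd (nat_lit 6) (.nd (nat_lit 28) (.nd (nat_lit 21) (.nd (nat_lit 26) (.nd (nat_lit 27) 
(.nd (nat_lit 10) 
(.lf (nat_lit 26550275) (dlOf (nat_lit 1) (nat_lit 0xf8008000400200080008c50003))) 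
(.lf (nat_lit 38085635) (dlOf (nat_lit 1) (nat_lit 0x400200100009132882)))) (.nd (nat_lit 19) 
(.lf (nat_lit 134553603) (dlOf (nat_lit 2) (nat_lit 0x1020800cb00800d00080038002001e0008070003))) 
(.lf (nat_lit 2819432451) (dlOf (nat_lit 8) (nat_lit 0x4072000e035000080fc00c800c01dc0e4002406a0002025800200fc00c7e1001b00e4002c06a000601f8018f01800081e002240e4002e06a000401f8018e42000281e000900e4003606a0003025800580fc00c661400300e400628020004072000101f801888100260008009400200180008280003))))) 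
(.nd (nat_lit 27) 
(.lf (nat_lit 604315651) (dlOf (nat_lit 1) (nat_lit 0x8008000400200080008140003))) 
(.nd (nat_lit 31) 
(.lf (nat_lit 201662467) (dlOf (nat_lit 2) (nat_lit 0x1020800eb00800d00080038002001e0008070003))) 
(.lf (nat_lit 2349146115) (dlOf (nat_lit 2) (nat_lit 0x8800f01c80068000001001380080048002009000080d0003)))))) 
(.nd (nat_lit 23) (.nd (nat_lit 7) (.nd (nat_lit 8) 
(.lf (nat_lit 2433027) (dlOf (nat_lit 2) (nat_lit 0x2523802734080068008015400200180008160003))) 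
(.lf (nat_lit 7151875) (dlOf (nat_lit 1) (nat_lit 0x400184b0701)))) (.nd (nat_lit 9) 
(.lf (nat_lit 3481731) (dlOf (nat_lit 1) (nat_lit 0x400200020008200102))) 
(.lf (nat_lit 52766339) (dlOf (nat_lit 1) (nat_lit 0x348008024000200100009573a03))))) 
(.nd (nat_lit 19) (.nd (nat_lit 20) 
(.lf (nat_lit 10821635) (dlOf (nat_lit 1) (nat_lit 0x8008006c00200020008630003))) 
(.lf (nat_lit 62201859) (dlOf (nat_lit 4) (nat_lit 0x952d800aa96400194a2000ca4f000551e000628e8002545001c630e0012a5b000d52c80032944001949e0002a3c0007515006f58300022944001545401bd504000e0029970001)))) 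
(.nd (nat_lit 10) (.lf (nat_lit 28123139) (dlOf (nat_lit 1) (nat_lit 0x400400020008d60002))) 
(.lf (nat_lit 50144259) (dlOf (nat_lit 1) (nat_lit 0x4004000200094c2882))))))) (.nd (nat_lit 26) 
(.nd (nat_lit 20) (.nd (nat_lit 7) (.nd (nat_lit 27) 
(.lf (nat_lit 2953125891) (dlOf (nat_lit 1) (nat_lit 0x20018150001))) 
(.lf (nat_lit 1476730883) (dlOf (nat_lit 6) (nat_lit 0x301e001a000800100f000ce404002c078005f502000203a002bc01000201d00134c080290008004000200140008150003)))) 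
(.nd (nat_lit 12) 
(.lf (nat_lit 3624217987) (dlOf (nat_lit 2) (nat_lit 0xbc080001200000006828146c00))) 
(.lf (nat_lit 3490004355) (dlOf (nat_lit 1) (nat_lit 0x2a002800c901))))) (.nd (nat_lit 9) 
(.nd (nat_lit 19) (.lf (nat_lit 1343561731) (dlOf (nat_lit 1) (nat_lit 0x20018290001))) 
(.nd (nat_lit 21) (.lf (nat_lit 5773271043) (dlOf (nat_lit 2) (nat_lit 0x413000d900180c0000))) 
(.lf (nat_lit 1346183171) (dlOf (nat_lit 5) (nat_lit 0x41ae00ebf02000215f0070a0100140af80384c0800202680192e040250004000e0008e60002))))) 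
(.lf (nat_lit 3491570179) (dlOf (nat_lit 2) (nat_lit 0x980bf000b4018090d80))))) (.nd (nat_lit 19) 
(.nd (nat_lit 30) (.nd (nat_lit 27) 
(.lf (nat_lit 2483363843) (dlOf (nat_lit 2) (nat_lit 0x8800f01c80068000001001380080048002009000080d0003))) 
(.lf (nat_lit 2617581571) (dlOf (nat_lit 1) (nat_lit 0x400400020008100002)))) (.nd (nat_lit 7) 
(.lf (nat_lit 5838807043) (dlOf (nat_lit 1) (nat_lit 0x380080084002004a00081b0003))) 
(.lf (nat_lit 6375679619) (dlOf (nat_lit 1) (nat_lit 0x40008003a01))))) (.nd (nat_lit 20) 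
(.nd (nat_lit 21) 
(.lf (nat_lit 3557629955) (dlOf (nat_lit 2) (nat_lit 0x2011800af404006c00400400018280002))) 
(.lf (nat_lit 4096598019) (dlOf (nat_lit 1) (nat_lit 0x20008130001)))) 
(.lf (nat_lit 6377250819) (dlOf (nat_lit 2) (nat_lit 0x412100bda8180c0000))))))) (.nd (nat_lit 19) 
(.nd (nat_lit 9) (.nd (nat_lit 26) (.nd (nat_lit 7) (.nd (nat_lit 20) (.nd (nat_lit 21) 
(.lf (nat_lit 5905915971) (dlOf (nat_lit 1) (nat_lit 0xb800200280008160802))) 
(.lf (nat_lit 2433091) (dlOf (nat_lit 2) (nat_lit 0x50000000c008007000800f800200300008160d03)))) 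
(.lf (nat_lit 9773123) (dlOf (nat_lit 1) (nat_lit 0x800400020008580482)))) 
(.lf (nat_lit 21307587) (dlOf (nat_lit 1) (nat_lit 0x8008000400200020008a31b83)))) 
(.nd (nat_lit 27) (.nd (nat_lit 28) 
(.lf (nat_lit 6509895747) (dlOf (nat_lit 1) (nat_lit 0xb800200280008160802))) 
(.lf (nat_lit 2483363907) (dlOf (nat_lit 8) (nat_lit 0xb015001c0040000ce0801740540056028002c008007180380168006000650a009e02a0003201004e01500140040006801c005a0030003104005b0150001809000800380076015003000800678038000c21801380540014010003d0070001801802700a800880500001d04001600280d0c01)))) 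
(.nd (nat_lit 28) 
(.lf (nat_lit 2349146179) (dlOf (nat_lit 8) (nat_lit 0xb015001c0040000d40801740540056028002c008007180380168006000680a009e02a0003381004e01500140040006801c005a0030003284005b0150001809000800380076015003000800678038000c81801380540014010003d00700018c1802700a800880500001d04001600280d0c01))) 
(.lf (nat_lit 3154452547) (dlOf (nat_lit 1) (nat_lit 0x600081a0581)))))) (.nd (nat_lit 7) 
(.nd (nat_lit 8) (.lf (nat_lit 52766275) (dlOf (nat_lit 1) (nat_lit 0x8008002c002000e0009573803))) 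
(.lf (nat_lit 5771701059) (dlOf (nat_lit 1) (nat_lit 0xf000400880008005c02)))) (.nd (nat_lit 8) 
(.nd (nat_lit 20) (.lf (nat_lit 8729283) (dlOf (nat_lit 1) (nat_lit 0x18008001c00200020008518c83))) 
(.lf (nat_lit 20263619) (dlOf (nat_lit 1) (nat_lit 0x80080004002000200089d8c83)))) 
(.lf (nat_lit 3490003907) (dlOf (nat_lit 2) (nat_lit 0x240b8000e081800be00)))))) (.nd (nat_lit 7) 
(.nd (nat_lit 21) (.nd (nat_lit 22) 
(.lf (nat_lit 42803267) (dlOf (nat_lit 1) (nat_lit 0x20029280601))) 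
(.lf (nat_lit 13443139) (dlOf (nat_lit 1) (nat_lit 0x20018721881)))) (.nd (nat_lit 9) 
(.nd (nat_lit 24) (.lf (nat_lit 70066243) (dlOf (nat_lit 1) (nat_lit 0x800400040008e80602))) 
(.lf (nat_lit 53289027) (dlOf (nat_lit 1) (nat_lit 0x20029581681)))) 
(.lf (nat_lit 12395075) (dlOf (nat_lit 1) (nat_lit 0x4002000200086c1102))))) (.nd (nat_lit 8) 
(.nd (nat_lit 9) 
(.lf (nat_lit 6377251011) (dlOf (nat_lit 1) (nat_lit 0x80080140002004200080c1b83))) 
(.lf (nat_lit 19739331) (dlOf (nat_lit 1) (nat_lit 0x200189d8c81)))) (.nd (nat_lit 11) 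
(.lf (nat_lit 12394947) (dlOf (nat_lit 1) (nat_lit 0x4002000200086c0902))) 
(.lf (nat_lit 50145731) (dlOf (nat_lit 1) (nat_lit 0x4004000200194c4e82)))))))) (.nd (nat_lit 28) 
(.nd (nat_lit 29) (.nd (nat_lit 20) (.nd (nat_lit 22) (.nd (nat_lit 6) (.nd (nat_lit 7) 
(.lf (nat_lit 2349146119) (dlOf (nat_lit 2) (nat_lit 0x1f003c0a9c01a0000004001000080d0001))) 
(.lf (nat_lit 1074077831) (dlOf (nat_lit 1) (nat_lit 0x100028090101)))) 
(.lf (nat_lit 6509895751) (dlOf (nat_lit 1) (nat_lit 0xa000200240008160882)))) (.nd (nat_lit 6) 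
(.nd (nat_lit 7) (.lf (nat_lit 38085639) (dlOf (nat_lit 1) (nat_lit 0x400200340009132882))) 
(.lf (nat_lit 21307527) (dlOf (nat_lit 6) (nat_lit 0xfb54001bda80007ed20001f50c0006a100027b540017da80003ed30000d018003f6a8003bb500005da60001ed20000f50c000541400c3b4c0000b020003daa0007ed30004750c000140c0030004000e0018a30f02)))) 
(.lf (nat_lit 56960327) (dlOf (nat_lit 2) (nat_lit 0x172f68000a80800b000800e800200060009793303))))) 
(.nd (nat_lit 6) (.nd (nat_lit 19) (.nd (nat_lit 21) 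
(.lf (nat_lit 30744583) (dlOf (nat_lit 1) (nat_lit 0x1800200060008e40482))) 
(.lf (nat_lit 24453127) (dlOf (nat_lit 1) (nat_lit 0x400400040008ba0002)))) 
(.lf (nat_lit 10297351) (dlOf (nat_lit 1) (nat_lit 0x4002000200085d0002)))) (.nd (nat_lit 7) 
(.lf (nat_lit 9773127) (dlOf (nat_lit 2) (nat_lit 0x190bc0001f00800b0008003000200180008580483))) 
(.nd (nat_lit 8) (.lf (nat_lit 20263623) (dlOf (nat_lit 1) (nat_lit 0x100080004002000200089d8c83))) 
(.lf (nat_lit 47524295) (dlOf (nat_lit 1) (nat_lit 0x1500080080002002a0009404e83))))))) 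
(.nd (nat_lit 27) (.nd (nat_lit 7) (.nd (nat_lit 6) 
(.lf (nat_lit 537206791) (dlOf (nat_lit 1) (nat_lit 0x8008000800200040008050003))) 
(.lf (nat_lit 5905915975) (dlOf (nat_lit 1) (nat_lit 0xa000200240008160882)))) (.nd (nat_lit 19) 
(.lf (nat_lit 4832174215) (dlOf (nat_lit 1) (nat_lit 0xc00400060008100e02))) 
(.lf (nat_lit 2753372295) (dlOf (nat_lit 1) (nat_lit 0x400400020008090102))))) (.nd (nat_lit 30) 
(.nd (nat_lit 19) (.lf (nat_lit 671424519) (dlOf (nat_lit 1) (nat_lit 0x480028190001))) 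
(.lf (nat_lit 2819432455) (dlOf (nat_lit 5) (nat_lit 0x2481c800bea0401180de0049f02008c06f001fc010046037800fc4080190008018000200200008280003)))) 
(.nd (nat_lit 7) (.lf (nat_lit 3892649991) (dlOf (nat_lit 1) (nat_lit 0x20018180001))) 
(.lf (nat_lit 1745166471) (dlOf (nat_lit 2) (nat_lit 0x2016000110180c0f00))))))) (.nd (nat_lit 26) 
(.nd (nat_lit 32) (.nd (nat_lit 6) (.nd (nat_lit 7) (.nd (nat_lit 29) 
(.lf (nat_lit 268771335) (dlOf (nat_lit 2) (nat_lit 0x401d00059018140580))) 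
(.lf (nat_lit 2953125895) (dlOf (nat_lit 3) (nat_lit 0x8a02e0049016002d00ac00500540024029006b013801580840094040005a01e001a00d0012005c03fc0260018011002e00480268020036800a004800200440000018fc9000300b80098058002002a0003013800080780024034004200200020000018cc4001a8008002800200100008150283)))) 
(.lf (nat_lit 1345661319) (dlOf (nat_lit 1) (nat_lit 0xa0008015c00200fe0008dd4e83)))) 
(.nd (nat_lit 7) (.nd (nat_lit 8) 
(.lf (nat_lit 1346183239) (dlOf (nat_lit 2) (nat_lit 0xc08b000ad018e60600))) 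
(.lf (nat_lit 3490000199) (dlOf (nat_lit 6) (nat_lit 0x1520d700a6063805602a00144140016008900a300280004430059835c02c418e00020b400ad054002e828002c41120002087000104280558210029000a0002000000080b00a306b8052831c0280150015808900a400280003c2800e03a002b01be015a0db00ac06a0056032c02b019401580c40031060005582ac000c15401580a500b5046005c822c012410c012e00a007c0048003000400080000000e2400420e800b506d8056032c012419401700ab0002055005b823002c4116013400a007f0048000345006c800804dc00204360008006983)))) 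
(.lf (nat_lit 3624217799) (dlOf (nat_lit 3) (nat_lit 0x603600020000000c81000200ec018c06c001c034000c00000008c200138008003c00200040008146383))))) 
(.nd (nat_lit 7) (.nd (nat_lit 6) 
(.lf (nat_lit 5773271047) (dlOf (nat_lit 1) (nat_lit 0x98002002200080c0002))) (.nd (nat_lit 8) 
(.lf (nat_lit 4563738695) (dlOf (nat_lit 3) (nat_lit 0x20050000c0220009c04000c0140004b0180d0480))) 
(.lf (nat_lit 5771701063) (dlOf (nat_lit 2) (nat_lit 0x4053c004029c000ba04000c0018005c01))))) 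
(.nd (nat_lit 27) (.nd (nat_lit 29) 
(.lf (nat_lit 5637480583) (dlOf (nat_lit 3) (nat_lit 0x20048001e022000d00d0000d8180a50064023c02c0002014005e009008d000000064140008002000600080f0e02))) 
(.lf (nat_lit 5100609671) (dlOf (nat_lit 1) (nat_lit 0x400400020008100f02)))) 
(.lf (nat_lit 5234827399) (dlOf (nat_lit 3) (nat_lit 0xb4c02e064a014001c00981448020000641000480280003002001400180f0e01)))))) 
(.nd (nat_lit 29) (.nd (nat_lit 31) (.nd (nat_lit 9) (.nd (nat_lit 27) 
(.lf (nat_lit 1409622023) (dlOf (nat_lit 1) (nat_lit 0x8008000800200040008050003))) 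
(.lf (nat_lit 1543839751) (dlOf (nat_lit 1) (nat_lit 0x480028190001)))) 
(.lf (nat_lit 5838807559) (dlOf (nat_lit 1) (nat_lit 0x2000281b0d81)))) (.nd (nat_lit 27) 
(.lf (nat_lit 2483363847) (dlOf (nat_lit 2) (nat_lit 0x1f003c0a9c01a0000004001000080d0001))) 
(.nd (nat_lit 30) 
(.lf (nat_lit 2617581575) (dlOf (nat_lit 2) (nat_lit 0xec02f00c5009001c20100010008000c002000e0008100003))) 
(.lf (nat_lit 3691323399) (dlOf (nat_lit 3) (nat_lit 0x8a02e0049016002d00ac00500540024029006b011001580840094040003401b002d00c807f805000900240018011002e00480268020036800a00480020044000002f509000300b80098058002002a00030110004806c000403200420020002000002f204001a8008002800200100008150283)))))) 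
(.nd (nat_lit 27) (.nd (nat_lit 6) (.nd (nat_lit 30) 
(.lf (nat_lit 872751239) (dlOf (nat_lit 1) (nat_lit 0x600080c0e01))) 
(.lf (nat_lit 1946493063) (dlOf (nat_lit 1) (nat_lit 0x100028090101)))) 
(.lf (nat_lit 872751303) (dlOf (nat_lit 1) (nat_lit 0x200280c1781)))) (.nd (nat_lit 6) 
(.nd (nat_lit 7) (.lf (nat_lit 6377250823) (dlOf (nat_lit 1) (nat_lit 0x98002002200080c0002))) 
(.lf (nat_lit 2080710791) (dlOf (nat_lit 1) (nat_lit 0xc004000600080c0e02)))) 
(.lf (nat_lit 2080710855) (dlOf (nat_lit 1) (nat_lit 0xb80080050002003200080c1783))))))))))) 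
(.nd (nat_lit 13) (.nd (nat_lit 2) (.nd (nat_lit 18) (.nd (nat_lit 29) (.nd (nat_lit 6) 
(.nd (nat_lit 11) (.nd (nat_lit 19) (.nd (nat_lit 20) (.nd (nat_lit 9) (.nd (nat_lit 21) 
(.lf (nat_lit 5435916291) (dlOf (nat_lit 1) (nat_lit 0x23c00400c40018030002))) 
(.lf (nat_lit 23166979) (dlOf (nat_lit 1) (nat_lit 0x8008000c00200040008b60003)))) 
(.lf (nat_lit 2416017923) (dlOf (nat_lit 1) (nat_lit 0x10008000c00200080008017f83)))) 
(.nd (nat_lit 7) (.nd (nat_lit 21) 
(.lf (nat_lit 26312707) (dlOf (nat_lit 1) (nat_lit 0x10008001000200020008c30003))) 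
(.lf (nat_lit 11632643) (dlOf (nat_lit 1) (nat_lit 0x600186c0001)))) 
(.lf (nat_lit 3244163) (dlOf (nat_lit 1) (nat_lit 0x400200020008200102))))) (.nd (nat_lit 20) 
(.nd (nat_lit 26) 
(.lf (nat_lit 1342799875) (dlOf (nat_lit 1) (nat_lit 0x100080004002000200080d0003))) 
(.lf (nat_lit 470384643) (dlOf (nat_lit 1) (nat_lit 0x100080004002000200080d0003)))) 
(.nd (nat_lit 23) (.nd (nat_lit 25) 
(.lf (nat_lit 68780035) (dlOf (nat_lit 1) (nat_lit 0x8008000400200020008770003))) 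
(.lf (nat_lit 35225603) (dlOf (nat_lit 1) (nat_lit 0x60029000001)))) 
(.lf (nat_lit 26836995) (dlOf (nat_lit 1) (nat_lit 0x800400040008c80002)))))) (.nd (nat_lit 8) 
(.nd (nat_lit 10) (.nd (nat_lit 7) 
(.lf (nat_lit 1073846275) (dlOf (nat_lit 1) (nat_lit 0x1c0020006000800a602))) 
(.lf (nat_lit 628867) (dlOf (nat_lit 1) (nat_lit 0x800800040020002000800a883)))) (.nd (nat_lit 23) 
(.lf (nat_lit 105603) (dlOf (nat_lit 1) (nat_lit 0x16000800940020052000800c183))) 
(.lf (nat_lit 8494211) (dlOf (nat_lit 1) (nat_lit 0x2000851c181))))) (.nd (nat_lit 7) 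
(.lf (nat_lit 57248515) (dlOf (nat_lit 3) (nat_lit 0x8e37e1046ebe680ef8000000620c008afc20001e0200f40019795a81))) 
(.nd (nat_lit 10) (.lf (nat_lit 3489761667) (dlOf (nat_lit 1) (nat_lit 0x20018004e81))) 
(.lf (nat_lit 134319491) (dlOf (nat_lit 2) (nat_lit 0xa026000030080018008000400200020008006c03))))))) 
(.nd (nat_lit 9) (.nd (nat_lit 19) (.nd (nat_lit 24) (.nd (nat_lit 8) 
(.lf (nat_lit 4697718851) (dlOf (nat_lit 1) (nat_lit 0x390008023000200220008090003))) 
(.lf (nat_lit 3288432963) (dlOf (nat_lit 2) (nat_lit 0xc00d40098c0400a000400300018014c02)))) 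
(.nd (nat_lit 7) (.lf (nat_lit 25264195) (dlOf (nat_lit 1) (nat_lit 0x800200020008bf0c02))) 
(.lf (nat_lit 20025539) (dlOf (nat_lit 1) (nat_lit 0x3000089d7f01))))) (.nd (nat_lit 7) 
(.nd (nat_lit 23) 
(.lf (nat_lit 3221848131) (dlOf (nat_lit 2) (nat_lit 0xa0230000000800680080008002001200081a1403))) 
(.lf (nat_lit 42565699) (dlOf (nat_lit 1) (nat_lit 0x20029260601)))) 
(.lf (nat_lit 50954691) (dlOf (nat_lit 1) (nat_lit 0x1600094d7a81))))) (.nd (nat_lit 7) 
(.nd (nat_lit 10) (.nd (nat_lit 19) 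
(.lf (nat_lit 5637245763) (dlOf (nat_lit 4) (nat_lit 0x3002a0024004001200180058418001805000400040009d0400060140010001000238100098008001000200020008055c03))) 
(.lf (nat_lit 20548419) (dlOf (nat_lit 2) (nat_lit 0x9d200011c040028004000400089d5c02)))) 
(.nd (nat_lit 31) (.lf (nat_lit 100163) (dlOf (nat_lit 1) (nat_lit 0x1520008003e01))) 
(.lf (nat_lit 6442551107) (dlOf (nat_lit 2) (nat_lit 0x300b8005401a0003604000c00080f3e01))))) 
(.nd (nat_lit 8) (.lf (nat_lit 20026051) (dlOf (nat_lit 1) (nat_lit 0x600080024002001400089d8c83))) 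
(.nd (nat_lit 12) 
(.lf (nat_lit 5637245891) (dlOf (nat_lit 4) (nat_lit 0x5002a001c0050001602000c00a800c80140005408000c02a003a01300150028000101800c000800c400200020008055d83))) 
(.lf (nat_lit 5838576579) (dlOf (nat_lit 1) (nat_lit 0x200180fbe01)))))))) (.nd (nat_lit 28) 
(.nd (nat_lit 30) (.nd (nat_lit 6) (.nd (nat_lit 7) (.nd (nat_lit 19) 
(.lf (nat_lit 2752610307) (dlOf (nat_lit 2) (nat_lit 0x630ae0000000801a0008005000200bc0008020003))) 
(.lf (nat_lit 2753134595) (dlOf (nat_lit 1) (nat_lit 0x1a0018090001)))) 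
(.lf (nat_lit 2753134979) (dlOf (nat_lit 4) (nat_lit 0x307e401d4e04017c3f200ea602005c1f900751018090780)))) 
(.nd (nat_lit 8) 
(.lf (nat_lit 537493571) (dlOf (nat_lit 1) (nat_lit 0x3e8008002c002008400080a0d03))) 
(.lf (nat_lit 2818671939) (dlOf (nat_lit 1) (nat_lit 0x800080d3301))))) (.nd (nat_lit 27) 
(.nd (nat_lit 7) 
(.lf (nat_lit 1678344195) (dlOf (nat_lit 5) (nat_lit 0x4c0440024021801300cc019d40c0040088000e04300040198033a418004013000300900014047000d01a800400d0006c01400580060065b0700190000000000801d80080044002005a00081f0003))) 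
(.nd (nat_lit 10) (.lf (nat_lit 1677820035) (dlOf (nat_lit 1) (nat_lit 0x400400020008090102))) 
(.lf (nat_lit 3825306755) (dlOf (nat_lit 1) (nat_lit 0x28008000400200080008146103))))) 
(.nd (nat_lit 6) (.lf (nat_lit 3892936707) (dlOf (nat_lit 1) (nat_lit 0xc8002005600082a0002))) 
(.nd (nat_lit 26) (.lf (nat_lit 3892936771) (dlOf (nat_lit 2) (nat_lit 0x6402c0000b0182a0e80))) 
(.lf (nat_lit 3960045635) (dlOf (nat_lit 1) (nat_lit 0x1980080134002002000081a1883))))))) 
(.nd (nat_lit 8) (.nd (nat_lit 7) (.nd (nat_lit 6) (.nd (nat_lit 19) 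
(.lf (nat_lit 5301698563) (dlOf (nat_lit 1) (nat_lit 0x23c00400c40018030002))) 
(.lf (nat_lit 805928963) (dlOf (nat_lit 5) (nat_lit 0x4c0440024021801300cc00e820c0040088000e0430004019801d0018004013000300900014047000d01a800400d0006c0140058006003848700190000000000801d80080044002005a00081f0003)))) 
(.lf (nat_lit 6375441987) (dlOf (nat_lit 1) (nat_lit 0x720018003801)))) (.nd (nat_lit 9) 
(.nd (nat_lit 19) (.lf (nat_lit 805404803) (dlOf (nat_lit 1) (nat_lit 0x400400020008090102))) 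
(.lf (nat_lit 1009352835) (dlOf (nat_lit 1) (nat_lit 0x20019110e01)))) 
(.lf (nat_lit 6241224323) (dlOf (nat_lit 1) (nat_lit 0x1940008053a01))))) (.nd (nat_lit 6) 
(.nd (nat_lit 9) (.lf (nat_lit 3154739459) (dlOf (nat_lit 1) (nat_lit 0xe60018310701))) 
(.nd (nat_lit 31) 
(.lf (nat_lit 939624195) (dlOf (nat_lit 2) (nat_lit 0x400e000060080098008002400200020008143b83))) 
(.lf (nat_lit 3087107843) (dlOf (nat_lit 1) (nat_lit 0x20008143b81))))) (.nd (nat_lit 7) 
(.lf (nat_lit 4026630467) (dlOf (nat_lit 2) (nat_lit 0xc00d4014b60400a000400300018014c02))) 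
(.lf (nat_lit 1881244099) (dlOf (nat_lit 1) (nat_lit 0x18002000a0008e81082)))))))) 
(.nd (nat_lit 28) (.nd (nat_lit 21) (.nd (nat_lit 30) (.nd (nat_lit 22) (.nd (nat_lit 9) 
(.nd (nat_lit 19) 
(.lf (nat_lit 604340227) (dlOf (nat_lit 2) (nat_lit 0x4003800000080040008000c00200260008180003))) 
(.lf (nat_lit 42827779) (dlOf (nat_lit 1) (nat_lit 0x2a0019280001)))) (.nd (nat_lit 6) 
(.lf (nat_lit 8750723) (dlOf (nat_lit 1) (nat_lit 0x40028513a01))) 
(.lf (nat_lit 8750659) (dlOf (nat_lit 1) (nat_lit 0x40028513801))))) (.nd (nat_lit 6) 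
(.nd (nat_lit 10) 
(.lf (nat_lit 2756018179) (dlOf (nat_lit 2) (nat_lit 0x2054001a029800d0140010ca0c0044002000400081d0002))) 
(.lf (nat_lit 47547395) (dlOf (nat_lit 1) (nat_lit 0x20019402881)))) (.nd (nat_lit 23) 
(.lf (nat_lit 55935043) (dlOf (nat_lit 2) (nat_lit 0x258260015102000400296f0601))) 
(.lf (nat_lit 30769219) (dlOf (nat_lit 1) (nat_lit 0x60028e50e81)))))) (.nd (nat_lit 31) 
(.nd (nat_lit 6) (.nd (nat_lit 7) 
(.lf (nat_lit 1208320003) (dlOf (nat_lit 1) (nat_lit 0x200280c0001))) 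
(.lf (nat_lit 1074102403) (dlOf (nat_lit 1) (nat_lit 0x60028090101)))) 
(.lf (nat_lit 1208320195) (dlOf (nat_lit 1) (nat_lit 0x80080130002005000080c1b83)))) 
(.nd (nat_lit 26) (.nd (nat_lit 27) 
(.lf (nat_lit 3221585923) (dlOf (nat_lit 1) (nat_lit 0x158008015800200ec0008150003))) 
(.lf (nat_lit 3355803651) (dlOf (nat_lit 1) (nat_lit 0x400400020008120002)))) 
(.lf (nat_lit 3959783427) (dlOf (nat_lit 1) (nat_lit 0x158008015800200ec0008150003)))))) 
(.nd (nat_lit 6) (.nd (nat_lit 20) (.nd (nat_lit 7) (.nd (nat_lit 19) 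
(.lf (nat_lit 2457603) (dlOf (nat_lit 5) (nat_lit 0x5a440001d200002e8e800133b600b7e080007a440003d200003e8e8001b3b600b7d08000ba440001d20000568e8002b3b600b7c08000fa440008d200004e8e800273b600b790800160018160001))) 
(.lf (nat_lit 53313539) (dlOf (nat_lit 2) (nat_lit 0x32628076a0080020008000c00200020009590003)))) 
(.lf (nat_lit 56985987) (dlOf (nat_lit 1) (nat_lit 0x1a0029794e81)))) (.nd (nat_lit 19) 
(.nd (nat_lit 22) 
(.lf (nat_lit 3506179) (dlOf (nat_lit 3) (nat_lit 0x61a0800209d201d9f04001268200082748003136003a840c0060004000a0008200002))) 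
(.lf (nat_lit 24477699) (dlOf (nat_lit 1) (nat_lit 0x8008000c00200040008ba0003)))) 
(.lf (nat_lit 45973507) (dlOf (nat_lit 1) (nat_lit 0x20029380001))))) (.nd (nat_lit 7) 
(.nd (nat_lit 8) (.nd (nat_lit 9) 
(.lf (nat_lit 2457667) (dlOf (nat_lit 2) (nat_lit 0x60000000600400ac00200180008160d02))) 
(.lf (nat_lit 12419651) (dlOf (nat_lit 1) (nat_lit 0x380080008002003000086c1103)))) 
(.lf (nat_lit 45973827) (dlOf (nat_lit 2) (nat_lit 0x1365100004c080010008000800200020009380c03)))) 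
(.nd (nat_lit 8) (.lf (nat_lit 20288195) (dlOf (nat_lit 1) (nat_lit 0x4002000200089d8c82))) 
(.lf (nat_lit 3506627) (dlOf (nat_lit 1) (nat_lit 0xce0008200901))))))) (.nd (nat_lit 27) 
(.nd (nat_lit 9) (.nd (nat_lit 6) (.nd (nat_lit 21) (.nd (nat_lit 7) (.nd (nat_lit 22) 
(.lf (nat_lit 2416279555) (dlOf (nat_lit 1) (nat_lit 0x200280d0001))) 
(.lf (nat_lit 1346732035) (dlOf (nat_lit 1) (nat_lit 0x80019000001)))) 
(.lf (nat_lit 1946517635) (dlOf (nat_lit 1) (nat_lit 0x60028090101)))) (.nd (nat_lit 19) 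
(.lf (nat_lit 1881505795) (dlOf (nat_lit 1) (nat_lit 0x60018f30001))) 
(.lf (nat_lit 1346207747) (dlOf (nat_lit 12) (nat_lit 0x1b8560010019e00ebe04006e1580075e0100380ac002b833c01d5c0800542b000e4e02004e1580072481000b0ac00391c080008560002c19e00e4604002215800050678039101001c056001c860400e02b000e410200741580043067803888100220008008c00200a20008e60003))))) 
(.nd (nat_lit 8) 
(.lf (nat_lit 1346732099) (dlOf (nat_lit 2) (nat_lit 0x3f855802d0198008e084002503a0008f0200008008000400200020009000603))) 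
(.lf (nat_lit 1344116035) (dlOf (nat_lit 1) (nat_lit 0x80080004002000200083d9903))))) 
(.nd (nat_lit 6) (.nd (nat_lit 7) 
(.lf (nat_lit 3493173763) (dlOf (nat_lit 2) (nat_lit 0xce0c0000000180fb280))) (.nd (nat_lit 19) 
(.lf (nat_lit 4096099971) (dlOf (nat_lit 1) (nat_lit 0x200280e3a01))) 
(.lf (nat_lit 4095575683) (dlOf (nat_lit 1) (nat_lit 0x4004000200080e3a02))))) (.nd (nat_lit 7) 
(.nd (nat_lit 19) (.lf (nat_lit 4096099907) (dlOf (nat_lit 1) (nat_lit 0x400280e3801))) 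
(.lf (nat_lit 4095575619) (dlOf (nat_lit 1) (nat_lit 0x4004000200080e3802)))) 
(.lf (nat_lit 1344115395) (dlOf (nat_lit 1) (nat_lit 0x12c004002e00083d8c82)))))) (.nd (nat_lit 26) 
(.nd (nat_lit 32) (.nd (nat_lit 7) (.nd (nat_lit 30) 
(.lf (nat_lit 2550497283) (dlOf (nat_lit 1) (nat_lit 0x200280d0001))) 
(.lf (nat_lit 1476755459) (dlOf (nat_lit 2) (nat_lit 0x4003800000080040008000c00200260008180003)))) 
(.lf (nat_lit 3624242563) (dlOf (nat_lit 2) (nat_lit 0xb020001700000001a08008800200380008146c02)))) 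
(.nd (nat_lit 6) (.nd (nat_lit 7) 
(.lf (nat_lit 5234851843) (dlOf (nat_lit 2) (nat_lit 0x44028009380200080008100001))) 
(.lf (nat_lit 5772247427) (dlOf (nat_lit 1) (nat_lit 0x8008006400200280008091003)))) 
(.lf (nat_lit 5772247107) (dlOf (nat_lit 1) (nat_lit 0x20018090001))))) (.nd (nat_lit 30) 
(.nd (nat_lit 6) (.nd (nat_lit 20) 
(.lf (nat_lit 3154477059) (dlOf (nat_lit 2) (nat_lit 0x16014003fe8181a0000))) 
(.lf (nat_lit 471171075) (dlOf (nat_lit 1) (nat_lit 0x2d80080094002001000082a0003)))) 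
(.lf (nat_lit 3154477123) (dlOf (nat_lit 2) (nat_lit 0x1602b0000c0181a0580)))) (.nd (nat_lit 19) 
(.lf (nat_lit 2080735235) (dlOf (nat_lit 1) (nat_lit 0x200280c0001))) 
(.lf (nat_lit 6376226819) (dlOf (nat_lit 1) (nat_lit 0x20028090001))))))))) (.nd (nat_lit 28) 
(.nd (nat_lit 18) (.nd (nat_lit 10) (.nd (nat_lit 6) (.nd (nat_lit 7) (.nd (nat_lit 21) 
(.nd (nat_lit 22) (.lf (nat_lit 51478535) (dlOf (nat_lit 1) (nat_lit 0x320019510001))) 
(.lf (nat_lit 47284231) (dlOf (nat_lit 1) (nat_lit 0x20002001a00093c0002)))) (.nd (nat_lit 19) 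
(.lf (nat_lit 28409863) (dlOf (nat_lit 1) (nat_lit 0x6800400360008d90282))) 
(.lf (nat_lit 16351239) (dlOf (nat_lit 1) (nat_lit 0x34004003e0008890002))))) (.nd (nat_lit 8) 
(.nd (nat_lit 27) 
(.lf (nat_lit 5435916423) (dlOf (nat_lit 3) (nat_lit 0x1007e000c03e000501d000100d40005c10001007e000c03e000601d000200d40005a10003000200040008030e02))) 
(.lf (nat_lit 2885779591) (dlOf (nat_lit 1) (nat_lit 0x260028063d01)))) (.nd (nat_lit 11) 
(.lf (nat_lit 2753134983) (dlOf (nat_lit 2) (nat_lit 0xe01f900752818090780))) 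
(.lf (nat_lit 39946631) (dlOf (nat_lit 1) (nat_lit 0x1c0004007000091f4e82)))))) (.nd (nat_lit 8) 
(.nd (nat_lit 9) (.nd (nat_lit 19) 
(.lf (nat_lit 1140949063) (dlOf (nat_lit 1) (nat_lit 0x20008020601))) 
(.lf (nat_lit 3960045639) (dlOf (nat_lit 1) (nat_lit 0x400181a1881)))) (.nd (nat_lit 19) 
(.lf (nat_lit 11633223) (dlOf (nat_lit 1) (nat_lit 0x4002000200086c1102))) 
(.lf (nat_lit 2753135175) (dlOf (nat_lit 2) (nat_lit 0x10224c00012018091100))))) (.nd (nat_lit 7) 
(.nd (nat_lit 19) (.lf (nat_lit 54627143) (dlOf (nat_lit 1) (nat_lit 0x20029655c01))) 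
(.lf (nat_lit 20548423) (dlOf (nat_lit 2) (nat_lit 0x1b838000a70189d5c00)))) 
(.lf (nat_lit 2753135047) (dlOf (nat_lit 2) (nat_lit 0x6907e40007c040004004000c0008090982)))))) 
(.nd (nat_lit 7) (.nd (nat_lit 6) (.nd (nat_lit 8) (.nd (nat_lit 19) 
(.lf (nat_lit 60916743) (dlOf (nat_lit 1) (nat_lit 0x200298c2881))) 
(.lf (nat_lit 56198151) (dlOf (nat_lit 1) (nat_lit 0x12400200020009732882)))) 
(.lf (nat_lit 201426695) (dlOf (nat_lit 2) (nat_lit 0x1802080011c0800d80080104002001a0008003b83)))) 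
(.nd (nat_lit 8) (.nd (nat_lit 19) 
(.lf (nat_lit 6442550343) (dlOf (nat_lit 1) (nat_lit 0x80080004002000200080f2883))) 
(.lf (nat_lit 49906759) (dlOf (nat_lit 1) (nat_lit 0x80080004002000200094c2883)))) 
(.lf (nat_lit 100167) (dlOf (nat_lit 1) (nat_lit 0x20018003e01))))) (.nd (nat_lit 9) 
(.nd (nat_lit 11) (.nd (nat_lit 20) 
(.lf (nat_lit 1611236487) (dlOf (nat_lit 1) (nat_lit 0x400200040008122b02))) 
(.lf (nat_lit 49906823) (dlOf (nat_lit 2) (nat_lit 0x177640002502000400194c2b01)))) 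
(.nd (nat_lit 6) (.lf (nat_lit 105607) (dlOf (nat_lit 1) (nat_lit 0x8008000c0020002000800c203))) 
(.lf (nat_lit 134319303) (dlOf (nat_lit 1) (nat_lit 0x40008008800200100008006383))))) 
(.nd (nat_lit 6) (.nd (nat_lit 8) 
(.lf (nat_lit 4496393863) (dlOf (nat_lit 1) (nat_lit 0x40028053a01))) 
(.lf (nat_lit 201426823) (dlOf (nat_lit 1) (nat_lit 0x20008003400200040008004183)))) 
(.lf (nat_lit 7968711) (dlOf (nat_lit 1) (nat_lit 0x2001851a601))))))) (.nd (nat_lit 19) 
(.nd (nat_lit 27) (.nd (nat_lit 22) (.nd (nat_lit 30) (.nd (nat_lit 6) 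
(.lf (nat_lit 537231367) (dlOf (nat_lit 2) (nat_lit 0x903300110000001f408011c00200340008060482))) 
(.lf (nat_lit 52790855) (dlOf (nat_lit 1) (nat_lit 0x40029573801)))) (.nd (nat_lit 26) 
(.lf (nat_lit 3221585927) (dlOf (nat_lit 1) (nat_lit 0x60008006c002007c0008150003))) 
(.lf (nat_lit 3288694791) (dlOf (nat_lit 2) (nat_lit 0x2402b003420180c0400))))) (.nd (nat_lit 6) 
(.nd (nat_lit 7) (.lf (nat_lit 38110215) (dlOf (nat_lit 1) (nat_lit 0x400200440009132882))) 
(.lf (nat_lit 21332103) (dlOf (nat_lit 2) (nat_lit 0x814500030748000d4100020008006400200020008a30f03)))) 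
(.lf (nat_lit 23429703) (dlOf (nat_lit 1) (nat_lit 0x20018b81101))))) (.nd (nat_lit 30) 
(.nd (nat_lit 26) (.nd (nat_lit 29) 
(.lf (nat_lit 134578183) (dlOf (nat_lit 1) (nat_lit 0x160028080001))) 
(.lf (nat_lit 671449095) (dlOf (nat_lit 1) (nat_lit 0x1c004000200181a0482)))) 
(.lf (nat_lit 201687047) (dlOf (nat_lit 1) (nat_lit 0x160028080001)))) (.nd (nat_lit 7) 
(.nd (nat_lit 26) (.lf (nat_lit 3355803655) (dlOf (nat_lit 1) (nat_lit 0x20018120001))) 
(.lf (nat_lit 3959783431) (dlOf (nat_lit 1) (nat_lit 0x60008006c002007c0008150003)))) 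
(.lf (nat_lit 1208320135) (dlOf (nat_lit 2) (nat_lit 0x701800008c0800200080010002000400080c0f03)))))) 
(.nd (nat_lit 23) (.nd (nat_lit 24) (.nd (nat_lit 27) 
(.lf (nat_lit 537755655) (dlOf (nat_lit 1) (nat_lit 0x8008000800200020008160003))) 
(.lf (nat_lit 2819457031) (dlOf (nat_lit 1) (nat_lit 0x220028290281)))) (.nd (nat_lit 20) 
(.lf (nat_lit 21856263) (dlOf (nat_lit 2) (nat_lit 0x80000016f804015800200cc0008a70002))) 
(.lf (nat_lit 52264967) (dlOf (nat_lit 1) (nat_lit 0xa0029520001))))) (.nd (nat_lit 20) 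
(.nd (nat_lit 22) (.lf (nat_lit 11370503) (dlOf (nat_lit 1) (nat_lit 0x60018690001))) 
(.lf (nat_lit 15564807) (dlOf (nat_lit 1) (nat_lit 0x1760028800281)))) 
(.lf (nat_lit 10321927) (dlOf (nat_lit 1) (nat_lit 0x200285d0001))))))) (.nd (nat_lit 18) 
(.nd (nat_lit 26) (.nd (nat_lit 6) (.nd (nat_lit 27) (.nd (nat_lit 7) 
(.lf (nat_lit 1344372743) (dlOf (nat_lit 1) (nat_lit 0x20028740001))) (.nd (nat_lit 11) 
(.lf (nat_lit 3491332487) (dlOf (nat_lit 2) (nat_lit 0xe01e700440018090780))) 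
(.lf (nat_lit 4563503495) (dlOf (nat_lit 2) (nat_lit 0x806800de702002a0008094e81))))) 
(.nd (nat_lit 7) 
(.lf (nat_lit 4697720327) (dlOf (nat_lit 2) (nat_lit 0x80280008a04003000200060008093682))) 
(.nd (nat_lit 19) (.lf (nat_lit 3623977095) (dlOf (nat_lit 1) (nat_lit 0x260028063d01))) 
(.lf (nat_lit 5771985031) (dlOf (nat_lit 1) (nat_lit 0x18008002c00200100008030f03)))))) 
(.nd (nat_lit 8) (.nd (nat_lit 9) (.nd (nat_lit 19) 
(.lf (nat_lit 2013364295) (dlOf (nat_lit 1) (nat_lit 0x20008020601))) 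
(.lf (nat_lit 1342799943) (dlOf (nat_lit 1) (nat_lit 0x88004004c00080d0e02)))) 
(.lf (nat_lit 3491332679) (dlOf (nat_lit 2) (nat_lit 0x10223400012018091100)))) (.nd (nat_lit 7) 
(.nd (nat_lit 27) 
(.lf (nat_lit 5637245767) (dlOf (nat_lit 2) (nat_lit 0x980080013a040028004001e0008055c02))) 
(.lf (nat_lit 5771463495) (dlOf (nat_lit 1) (nat_lit 0x5800200020008005c02)))) 
(.lf (nat_lit 3491332551) (dlOf (nat_lit 2) (nat_lit 0x69079c0007a040004004000c0008090982)))))) 
(.nd (nat_lit 29) (.nd (nat_lit 6) (.nd (nat_lit 7) 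
(.lf (nat_lit 471433223) (dlOf (nat_lit 1) (nat_lit 0x1c00182f0481))) (.nd (nat_lit 11) 
(.lf (nat_lit 2617349255) (dlOf (nat_lit 1) (nat_lit 0x70008002c002001000080a9503))) 
(.lf (nat_lit 1543605383) (dlOf (nat_lit 1) (nat_lit 0x20028146181))))) (.nd (nat_lit 7) 
(.nd (nat_lit 8) (.lf (nat_lit 335642695) (dlOf (nat_lit 1) (nat_lit 0x1c00200100008090002))) 
(.lf (nat_lit 1543605575) (dlOf (nat_lit 1) (nat_lit 0x8008000400200020008146983)))) 
(.lf (nat_lit 5838572743) (dlOf (nat_lit 1) (nat_lit 0x2c000801a0002004600080f6383))))) 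
(.nd (nat_lit 10) (.nd (nat_lit 7) 
(.lf (nat_lit 3154739207) (dlOf (nat_lit 1) (nat_lit 0x20028310001))) (.nd (nat_lit 21) 
(.lf (nat_lit 6375964807) (dlOf (nat_lit 4) (nat_lit 0xd709b8000d8080030500000c27e000813e000409b800284d00005c14000427e000213e000109b800284d00005a10000c00400040018030e02))) 
(.lf (nat_lit 1009352839) (dlOf (nat_lit 2) (nat_lit 0x2a014c0006404000400400020019110e02))))) 
(.nd (nat_lit 6) (.nd (nat_lit 8) 
(.lf (nat_lit 6375441415) (dlOf (nat_lit 1) (nat_lit 0x720018002881))) 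
(.lf (nat_lit 1946258695) (dlOf (nat_lit 1) (nat_lit 0x1c00200060008006682)))) 
(.lf (nat_lit 1946258503) (dlOf (nat_lit 1) (nat_lit 0x4002000a0008006082))))))) (.nd (nat_lit 26) 
(.nd (nat_lit 32) (.nd (nat_lit 7) (.nd (nat_lit 21) (.nd (nat_lit 29) 
(.lf (nat_lit 1342537735) (dlOf (nat_lit 1) (nat_lit 0x28008004c00200540008050583))) 
(.lf (nat_lit 4026892295) (dlOf (nat_lit 2) (nat_lit 0x2402b0060c8180c0400)))) (.nd (nat_lit 6) 
(.lf (nat_lit 1346207751) (dlOf (nat_lit 32) (nat_lit 0x88158005c067803b14100220560017019e00ec4040088158005c067803b08100220560017019e00ebf040088158005c067803af81000c856001d780401102b000b80cf0075d0200350ac002e033c01d720801102b000b80cf0075c0200440ac002e033c01d6a0801102b000b80cf000904b0005820c01d681000e82b000c40cf007570200090ac0003833c01d1c0801102b0000c0cf0073c0200130ac0039a8080220560017019e00e5604008815800480678039401001d0560017019e00e4e040088158005c067803934100220560017019e00e4c04004c1580022067803928100198560017019e00e47040088158005c067803918100140560007019e00e44040088158005c067803908100220560017019e00e410400881580031067803900100028560002819e00e3d04008c1580066067803888100220560017019e00e1a040048158004e067803844100198008004800200220008e60003)))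 
(.lf (nat_lit 3492118599) (dlOf (nat_lit 1) (nat_lit 0x1080080004002001000080a0e03))))) 
(.nd (nat_lit 6) (.nd (nat_lit 8) 
(.lf (nat_lit 3491594375) (dlOf (nat_lit 1) (nat_lit 0x400400020008090102))) 
(.lf (nat_lit 1880983943) (dlOf (nat_lit 1) (nat_lit 0x100018dd4e81)))) 
(.lf (nat_lit 3624242375) (dlOf (nat_lit 1) (nat_lit 0x6000200280008146382))))) (.nd (nat_lit 27) 
(.nd (nat_lit 30) (.lf (nat_lit 4563763207) (dlOf (nat_lit 1) (nat_lit 0x60002002200080d0002))) 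
(.lf (nat_lit 5637505031) (dlOf (nat_lit 1) (nat_lit 0x100018100001)))) (.nd (nat_lit 6) 
(.nd (nat_lit 29) (.lf (nat_lit 4697980935) (dlOf (nat_lit 1) (nat_lit 0x60002002200080d0002))) 
(.lf (nat_lit 5234851847) (dlOf (nat_lit 2) (nat_lit 0x300a80612c080050008002000200120008100003)))) 
(.lf (nat_lit 5772248135) (dlOf (nat_lit 1) (nat_lit 0x400400020008092882)))))) (.nd (nat_lit 27) 
(.nd (nat_lit 19) (.nd (nat_lit 29) 
(.lf (nat_lit 1409646599) (dlOf (nat_lit 2) (nat_lit 0x9033001100000031a08011c00200340008060482))) 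
(.lf (nat_lit 6241484807) (dlOf (nat_lit 1) (nat_lit 0x100018100001)))) (.nd (nat_lit 31) 
(.lf (nat_lit 1410170887) (dlOf (nat_lit 1) (nat_lit 0x8008000800200020008160003))) 
(.lf (nat_lit 3557654535) (dlOf (nat_lit 1) (nat_lit 0x220028290281))))) (.nd (nat_lit 6) 
(.nd (nat_lit 20) (.nd (nat_lit 30) 
(.lf (nat_lit 470122503) (dlOf (nat_lit 1) (nat_lit 0x28008004c00200540008050583))) 
(.lf (nat_lit 1543864327) (dlOf (nat_lit 1) (nat_lit 0x1c004000200181a0482)))) 
(.lf (nat_lit 471171079) (dlOf (nat_lit 2) (nat_lit 0x68238009a604021c00400e600182a0002)))) 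
(.nd (nat_lit 7) (.nd (nat_lit 8) 
(.lf (nat_lit 3154477127) (dlOf (nat_lit 3) (nat_lit 0x805c000140400040000000602000800081a0601))) 
(.lf (nat_lit 1007523143) (dlOf (nat_lit 1) (nat_lit 0x4002000200083d9902)))) 
(.lf (nat_lit 2080735431) (dlOf (nat_lit 5) (nat_lit 0x100c400080600003a04000403100030180000941000100b400080560001a04000402d00020158000601000300080034002000800080c1783)))))))))) 
(.nd (nat_lit 2) (.nd (nat_lit 6) (.nd (nat_lit 18) (.nd (nat_lit 27) (.nd (nat_lit 7) 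
(.nd (nat_lit 19) (.nd (nat_lit 21) (.nd (nat_lit 26) (.nd (nat_lit 10) 
(.lf (nat_lit 5349379) (dlOf (nat_lit 1) (nat_lit 0x400400040008350002))) 
(.lf (nat_lit 6442558467) (dlOf (nat_lit 1) (nat_lit 0x4004000200080f2882)))) (.nd (nat_lit 11) 
(.lf (nat_lit 1140957187) (dlOf (nat_lit 4) (nat_lit 0x1402500e31810009012807188080090094038bc04003400400180018030002))) 
(.lf (nat_lit 4362188803) (dlOf (nat_lit 1) (nat_lit 0x40040002000800a602))))) (.nd (nat_lit 22) 
(.lf (nat_lit 44146691) (dlOf (nat_lit 1) (nat_lit 0x200192d0001))) 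
(.lf (nat_lit 23175171) (dlOf (nat_lit 1) (nat_lit 0x20018b60001))))) (.nd (nat_lit 21) 
(.nd (nat_lit 26) 
(.lf (nat_lit 805937155) (dlOf (nat_lit 4) (nat_lit 0x1d022000d810c0080066007410600180440006021801d0010005813000280900012047000d01a800480d0001c020004800a0021003001c244001d80080058002002200081f0003))) 
(.lf (nat_lit 1678352387) (dlOf (nat_lit 4) (nat_lit 0x1d022000d810c008006600cea06001804400060218033a410005813000280900012047000d01a800480d0001c020004800a00210030032d84001d80080058002002200081f0003)))) 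
(.nd (nat_lit 8) (.lf (nat_lit 19505155) (dlOf (nat_lit 1) (nat_lit 0x400189b0001))) 
(.lf (nat_lit 57256707) (dlOf (nat_lit 4) (nat_lit 0x4e49ca03be0000000c41001500000003c0405955f2032aaf800008829795a80)))))) 
(.nd (nat_lit 10) (.nd (nat_lit 11) (.nd (nat_lit 26) 
(.lf (nat_lit 805412995) (dlOf (nat_lit 2) (nat_lit 0x202400018818090100))) 
(.lf (nat_lit 1677828227) (dlOf (nat_lit 2) (nat_lit 0x202400018818090100)))) 
(.lf (nat_lit 5972797571) (dlOf (nat_lit 1) (nat_lit 0x8008000400200020008144783)))) 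
(.nd (nat_lit 8) (.lf (nat_lit 7976579) (dlOf (nat_lit 2) (nat_lit 0x30ac2000770200100028519d81))) 
(.nd (nat_lit 9) 
(.lf (nat_lit 1409396099) (dlOf (nat_lit 2) (nat_lit 0x30038000034080018008006c00200020008006c03))) 
(.lf (nat_lit 108419) (dlOf (nat_lit 1) (nat_lit 0x1c0018004181))))))) (.nd (nat_lit 30) 
(.nd (nat_lit 8) (.nd (nat_lit 10) (.nd (nat_lit 11) 
(.lf (nat_lit 1009360899) (dlOf (nat_lit 1) (nat_lit 0x1b20009120001))) 
(.lf (nat_lit 469874691) (dlOf (nat_lit 1) (nat_lit 0x40040002000800a602)))) 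
(.lf (nat_lit 4697728003) (dlOf (nat_lit 1) (nat_lit 0x300028092881)))) (.nd (nat_lit 7) 
(.lf (nat_lit 3087116035) (dlOf (nat_lit 1) (nat_lit 0x8008000400200020008143b83))) 
(.nd (nat_lit 31) (.lf (nat_lit 134327683) (dlOf (nat_lit 1) (nat_lit 0x40018006c01))) 
(.lf (nat_lit 6576778627) (dlOf (nat_lit 1) (nat_lit 0x400400020008146c02)))))) (.nd (nat_lit 7) 
(.nd (nat_lit 19) 
(.lf (nat_lit 2013372419) (dlOf (nat_lit 4) (nat_lit 0x1402500c8b0100090128064540800900940322204003400400180018030002))) 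
(.nd (nat_lit 26) (.lf (nat_lit 5771993091) (dlOf (nat_lit 1) (nat_lit 0x200008030001))) 
(.lf (nat_lit 6375972867) (dlOf (nat_lit 1) (nat_lit 0x200008030001))))) (.nd (nat_lit 8) 
(.nd (nat_lit 9) 
(.lf (nat_lit 6375972995) (dlOf (nat_lit 3) (nat_lit 0x5404c00120230010010000880600005a10002c050000150200420008030e01))) 
(.lf (nat_lit 1208068739) (dlOf (nat_lit 1) (nat_lit 0x20008095481)))) 
(.lf (nat_lit 5771471235) (dlOf (nat_lit 1) (nat_lit 0x640018004e81))))))) (.nd (nat_lit 19) 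
(.nd (nat_lit 27) (.nd (nat_lit 29) (.nd (nat_lit 30) (.nd (nat_lit 20) 
(.lf (nat_lit 2465795) (dlOf (nat_lit 5) (nat_lit 0x103aa00041c900030e2000285dc016fc10001c3aa000e1c900040e2000305dc016fa1000283aa00161c900080e2000405dc016f81000103aa000a1c900080e2000485dc016f210000c00400140018160002))) 
(.lf (nat_lit 9805827) (dlOf (nat_lit 1) (nat_lit 0x20008580001)))) (.nd (nat_lit 22) 
(.lf (nat_lit 3221594115) (dlOf (nat_lit 1) (nat_lit 0x7180080420002024a0008160003))) 
(.lf (nat_lit 1346740227) (dlOf (nat_lit 1) (nat_lit 0x400200020009000002))))) (.nd (nat_lit 28) 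
(.nd (nat_lit 32) (.lf (nat_lit 1610981379) (dlOf (nat_lit 1) (nat_lit 0x200280b0001))) 
(.lf (nat_lit 5905948675) (dlOf (nat_lit 1) (nat_lit 0xc0018160001)))) 
(.lf (nat_lit 2953158659) (dlOf (nat_lit 7) (nat_lit 0x4017000100a800180520008027000401080030080001003c000c018000600b80058044001000000bd516000a029000401080020080000c03c000a018000500b80050044000c00000bd410000602e00050148002009c0008042000c020000300f00030060001402e00160110003000002f3c5000080b8000404e00bce04000602e0001015000200a4001404e00060210005010000180780014030000a017000a00880018000017922c000805c000c02a00010138000807801790100004002001e00081b0002))))) 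
(.nd (nat_lit 28) (.nd (nat_lit 26) 
(.lf (nat_lit 3892682755) (dlOf (nat_lit 1) (nat_lit 0x200080010002000600081b0003))) 
(.nd (nat_lit 30) (.lf (nat_lit 738566147) (dlOf (nat_lit 1) (nat_lit 0x200280b0001))) 
(.lf (nat_lit 3959791619) (dlOf (nat_lit 1) (nat_lit 0x7180080420002024a0008160003))))) 
(.nd (nat_lit 31) (.nd (nat_lit 22) 
(.lf (nat_lit 5234860035) (dlOf (nat_lit 2) (nat_lit 0x500a0024e0080018008000c00200040008100003))) 
(.lf (nat_lit 474324995) (dlOf (nat_lit 1) (nat_lit 0x520029150001)))) (.nd (nat_lit 30) 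
(.lf (nat_lit 2617614339) (dlOf (nat_lit 2) (nat_lit 0x1601600237c0800500080050002003e0008100003))) 
(.lf (nat_lit 3691356163) (dlOf (nat_lit 7) (nat_lit 0x4017000100a8001805200080220004010800300800010032000c01800060090005804400100000064016000a029000401080020080000c032000a018000500900050044000c0000063f10000602e0005014800200880008042000c020000300c800300600014024001601100030000018f05000080b800040440063904000602e0001015000200a4001404400060210005010000180640014030000a012000a0088001800000c6c2c000805c000c02a00010110000806400c66100004002001e00081b0002))))))) 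
(.nd (nat_lit 21) (.nd (nat_lit 7) (.nd (nat_lit 9) (.nd (nat_lit 26) 
(.lf (nat_lit 2819465219) (dlOf (nat_lit 1) (nat_lit 0x180080028002000600082a0003))) 
(.lf (nat_lit 3557662723) (dlOf (nat_lit 1) (nat_lit 0x180080028002000600082a0003)))) 
(.lf (nat_lit 2752363011) (dlOf (nat_lit 1) (nat_lit 0x2002800b281)))) (.nd (nat_lit 8) 
(.lf (nat_lit 18718851) (dlOf (nat_lit 1) (nat_lit 0x400200020008970482))) 
(.lf (nat_lit 5772255619) (dlOf (nat_lit 1) (nat_lit 0x40028091001))))) (.nd (nat_lit 8) 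
(.nd (nat_lit 9) (.nd (nat_lit 20) 
(.lf (nat_lit 2990083) (dlOf (nat_lit 3) (nat_lit 0x2cd04001866b00092748007136002a28100038d04001c66b000c274800a136002930100014004001600081f0002))) 
(.lf (nat_lit 45981699) (dlOf (nat_lit 1) (nat_lit 0x320029380001)))) 
(.lf (nat_lit 8237571) (dlOf (nat_lit 1) (nat_lit 0x400400020018518682)))) (.nd (nat_lit 7) 
(.lf (nat_lit 12427523) (dlOf (nat_lit 1) (nat_lit 0x17000086c0481))) 
(.lf (nat_lit 19772291) (dlOf (nat_lit 1) (nat_lit 0xbc800807b0002030200089d9003)))))))) 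
(.nd (nat_lit 18) (.nd (nat_lit 7) (.nd (nat_lit 8) (.nd (nat_lit 27) (.nd (nat_lit 19) 
(.lf (nat_lit 25272387) (dlOf (nat_lit 1) (nat_lit 0x400400020008bf0c02))) (.nd (nat_lit 20) 
(.nd (nat_lit 29) (.lf (nat_lit 3221856323) (dlOf (nat_lit 2) (nat_lit 0x1802f0009a0181a1400))) 
(.lf (nat_lit 537501763) (dlOf (nat_lit 1) (nat_lit 0x4002000400080a0d02)))) 
(.lf (nat_lit 3776579) (dlOf (nat_lit 1) (nat_lit 0x1e0008220d01))))) (.nd (nat_lit 19) 
(.lf (nat_lit 4697727043) (dlOf (nat_lit 1) (nat_lit 0x200080010002000c0008090003))) 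
(.nd (nat_lit 28) 
(.lf (nat_lit 3960053827) (dlOf (nat_lit 7) (nat_lit 0x1602f000ad01000b01780040c0800180fc000aa04004805c0005402002602f0002781000a01780001c0801c000800b8002005400081a1883))) 
(.lf (nat_lit 470392899) (dlOf (nat_lit 1) (nat_lit 0x200180d0d01)))))) (.nd (nat_lit 10) 
(.nd (nat_lit 9) (.nd (nat_lit 26) 
(.lf (nat_lit 3221332291) (dlOf (nat_lit 5) (nat_lit 0x140200001681009a012000400800005808004c0400002b02001002000014818090600))) 
(.lf (nat_lit 3959529795) (dlOf (nat_lit 5) (nat_lit 0x140200001601009a012000400800005608004c0400002a02001002000014018090600)))) 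
(.nd (nat_lit 11) 
(.lf (nat_lit 7975747) (dlOf (nat_lit 2) (nat_lit 0x82b0802830080098008007c00200180008518f83))) 
(.nd (nat_lit 19) 
(.lf (nat_lit 5637253955) (dlOf (nat_lit 5) (nat_lit 0x5e015000a0020007800c002c20c000402a001590200160020004e8100070010002380800680080008002000e0008055c03))) 
(.lf (nat_lit 20556611) (dlOf (nat_lit 2) (nat_lit 0x910c0008e02000200289d5c01)))))) 
(.nd (nat_lit 27) (.nd (nat_lit 23) 
(.lf (nat_lit 536979267) (dlOf (nat_lit 2) (nat_lit 0x808400002040004004001a0018003e02))) 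
(.lf (nat_lit 8496963) (dlOf (nat_lit 2) (nat_lit 0xa916000360200040008513e01)))) (.nd (nat_lit 9) 
(.lf (nat_lit 2818680131) (dlOf (nat_lit 1) (nat_lit 0x1c002001200080d3302))) 
(.lf (nat_lit 469870403) (dlOf (nat_lit 2) (nat_lit 0x4462000360200020018003e01))))))) 
(.nd (nat_lit 30) (.nd (nat_lit 9) (.nd (nat_lit 28) (.nd (nat_lit 11) 
(.lf (nat_lit 20033731) (dlOf (nat_lit 1) (nat_lit 0x2000289d7f01))) 
(.lf (nat_lit 108739) (dlOf (nat_lit 1) (nat_lit 0x240018004981)))) (.nd (nat_lit 26) 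
(.lf (nat_lit 805413059) (dlOf (nat_lit 2) (nat_lit 0x481440001c04004c002001e0008090402))) 
(.lf (nat_lit 5301706947) (dlOf (nat_lit 1) (nat_lit 0x20018031b81))))) (.nd (nat_lit 8) 
(.nd (nat_lit 19) (.lf (nat_lit 20034243) (dlOf (nat_lit 1) (nat_lit 0x80080004002000400089d8c83))) 
(.lf (nat_lit 9024195) (dlOf (nat_lit 1) (nat_lit 0x8008000400200020008518c83)))) 
(.lf (nat_lit 20556739) (dlOf (nat_lit 2) (nat_lit 0x1ce300002102000200089d5d81))))) 
(.nd (nat_lit 26) (.nd (nat_lit 8) 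
(.lf (nat_lit 3221332163) (dlOf (nat_lit 1) (nat_lit 0x1000400460018090402))) (.nd (nat_lit 9) 
(.lf (nat_lit 5773568451) (dlOf (nat_lit 1) (nat_lit 0x20004000800080e4e82))) 
(.lf (nat_lit 5637254083) (dlOf (nat_lit 8) (nat_lit 0x518054020400a0002c04014a01500820028006800c000540c01cc00a000290201180150082002800010100290054009000a00003040034015000c0028000081000600540000004010c00200080008055d82))))) 
(.nd (nat_lit 27) (.nd (nat_lit 29) 
(.lf (nat_lit 1140957379) (dlOf (nat_lit 1) (nat_lit 0x180018031701))) 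
(.lf (nat_lit 1677828291) (dlOf (nat_lit 2) (nat_lit 0x481440001c04004c002001e0008090402)))) 
(.lf (nat_lit 3959529667) (dlOf (nat_lit 1) (nat_lit 0x1000400460018090402))))))) (.nd (nat_lit 21) 
(.nd (nat_lit 30) (.nd (nat_lit 28) (.nd (nat_lit 8) 
(.lf (nat_lit 892995) (dlOf (nat_lit 1) (nat_lit 0x400400020008030e02))) 
(.lf (nat_lit 21340483) (dlOf (nat_lit 2) (nat_lit 0x11a8801318080018008000800200020008a34c03)))) 
(.nd (nat_lit 27) (.lf (nat_lit 2416287811) (dlOf (nat_lit 2) (nat_lit 0x4000000300180d0c00))) 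
(.lf (nat_lit 2550505539) (dlOf (nat_lit 2) (nat_lit 0x4000000348180d0c00))))) (.nd (nat_lit 7) 
(.nd (nat_lit 22) (.lf (nat_lit 4026900547) (dlOf (nat_lit 1) (nat_lit 0x4002000200080c1882))) 
(.lf (nat_lit 1346740291) (dlOf (nat_lit 2) (nat_lit 0x8704b0057821000140e80023c0600040019000601)))) 
(.lf (nat_lit 2080743619) (dlOf (nat_lit 1) (nat_lit 0x4002000200080c1702))))) (.nd (nat_lit 19) 
(.nd (nat_lit 25) (.nd (nat_lit 28) (.nd (nat_lit 7) 
(.lf (nat_lit 2753929283) (dlOf (nat_lit 2) (nat_lit 0x290440000800803580080020002008c00080a0d03))) 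
(.lf (nat_lit 20296387) (dlOf (nat_lit 1) (nat_lit 0x4002000200089d8c82)))) (.nd (nat_lit 29) 
(.lf (nat_lit 3492126787) (dlOf (nat_lit 1) (nat_lit 0x3880080014002007400080a0e03))) 
(.lf (nat_lit 1881514051) (dlOf (nat_lit 1) (nat_lit 0x2c00400040018f40602))))) (.nd (nat_lit 10) 
(.nd (nat_lit 20) (.lf (nat_lit 48603203) (dlOf (nat_lit 2) (nat_lit 0x63f4000a8819420600))) 
(.lf (nat_lit 37068867) (dlOf (nat_lit 2) (nat_lit 0x485c980232ccc013932e001540600060019090601)))) 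
(.lf (nat_lit 52798531) (dlOf (nat_lit 1) (nat_lit 0x400400020009572882))))) (.nd (nat_lit 7) 
(.nd (nat_lit 9) (.lf (nat_lit 8239171) (dlOf (nat_lit 1) (nat_lit 0x1c001851a681))) 
(.lf (nat_lit 36547139) (dlOf (nat_lit 1) (nat_lit 0x80019075201)))) (.nd (nat_lit 9) 
(.lf (nat_lit 12427715) (dlOf (nat_lit 1) (nat_lit 0x5c00086c0901))) 
(.lf (nat_lit 19772355) (dlOf (nat_lit 1) (nat_lit 0x80080004002000200089d9203))))))))) 
(.nd (nat_lit 18) (.nd (nat_lit 19) (.nd (nat_lit 30) (.nd (nat_lit 9) (.nd (nat_lit 7) 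
(.nd (nat_lit 8) (.nd (nat_lit 20) 
(.lf (nat_lit 10592263) (dlOf (nat_lit 1) (nat_lit 0x1b80018600001))) 
(.lf (nat_lit 2752618503) (dlOf (nat_lit 4) (nat_lit 0x20010010d80800482800009c0400181400004c0200160008020001)))) 
(.nd (nat_lit 6) (.lf (nat_lit 41001223) (dlOf (nat_lit 1) (nat_lit 0x80019203581))) 
(.lf (nat_lit 671197511) (dlOf (nat_lit 3) (nat_lit 0x2001b0000681000b00d800480000000008002800200120008144d02))))) 
(.nd (nat_lit 6) (.nd (nat_lit 26) 
(.lf (nat_lit 4966162567) (dlOf (nat_lit 2) (nat_lit 0x201300017018030e00))) 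
(.lf (nat_lit 5033271431) (dlOf (nat_lit 1) (nat_lit 0x60028030f01)))) 
(.lf (nat_lit 134327495) (dlOf (nat_lit 1) (nat_lit 0x5e0018006381))))) (.nd (nat_lit 6) 
(.nd (nat_lit 11) (.nd (nat_lit 23) 
(.lf (nat_lit 536979207) (dlOf (nat_lit 1) (nat_lit 0xe20008003b81))) 
(.lf (nat_lit 8496903) (dlOf (nat_lit 1) (nat_lit 0x58008000c00200060008513b83)))) (.nd (nat_lit 7) 
(.lf (nat_lit 6576778759) (dlOf (nat_lit 1) (nat_lit 0x400400020008147002))) 
(.lf (nat_lit 113543) (dlOf (nat_lit 1) (nat_lit 0x40020004000800bc82))))) (.nd (nat_lit 7) 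
(.nd (nat_lit 11) (.lf (nat_lit 11641415) (dlOf (nat_lit 1) (nat_lit 0x4002000200086c1102))) 
(.lf (nat_lit 51489351) (dlOf (nat_lit 1) (nat_lit 0x10008000800200060009515203)))) 
(.lf (nat_lit 4563512263) (dlOf (nat_lit 1) (nat_lit 0x400200020008095d82)))))) (.nd (nat_lit 32) 
(.nd (nat_lit 8) (.nd (nat_lit 20) (.nd (nat_lit 26) 
(.lf (nat_lit 2013372423) (dlOf (nat_lit 1) (nat_lit 0x9800400020008030002))) 
(.lf (nat_lit 1140957191) (dlOf (nat_lit 1) (nat_lit 0x9800400020008030002)))) 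
(.lf (nat_lit 3490816007) (dlOf (nat_lit 4) (nat_lit 0x20010027340800482800007a0400181400003c0200160008020001)))) 
(.nd (nat_lit 6) (.lf (nat_lit 4227968263) (dlOf (nat_lit 1) (nat_lit 0x400200020008006682))) 
(.lf (nat_lit 3691094343) (dlOf (nat_lit 1) (nat_lit 0x240018010781))))) (.nd (nat_lit 7) 
(.nd (nat_lit 6) (.lf (nat_lit 5972797191) (dlOf (nat_lit 1) (nat_lit 0x1000400060018143b82))) 
(.lf (nat_lit 5972796487) (dlOf (nat_lit 1) (nat_lit 0x400400020008142882)))) (.nd (nat_lit 26) 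
(.nd (nat_lit 27) 
(.lf (nat_lit 5368815751) (dlOf (nat_lit 4) (nat_lit 0x8054000402800020110026008000380380006a14000802800060130001008800180400006810001402800060130001008800300380005410009000400460018030f02))) 
(.lf (nat_lit 5503033479) (dlOf (nat_lit 3) (nat_lit 0x200540014028000c013000300880048040001801c0002e0c000a015000a00a0000804c001c022000801000060070000b4300008008009400200040008030e03)))) 
(.lf (nat_lit 5435924615) (dlOf (nat_lit 3) (nat_lit 0xa00f80005c04001407c0002d02005e0008030e01))))))) 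
(.nd (nat_lit 6) (.nd (nat_lit 27) (.nd (nat_lit 9) (.nd (nat_lit 20) 
(.lf (nat_lit 21602311) (dlOf (nat_lit 1) (nat_lit 0x220028a50001))) (.nd (nat_lit 22) 
(.lf (nat_lit 18456583) (dlOf (nat_lit 1) (nat_lit 0x100018940281))) 
(.lf (nat_lit 31039495) (dlOf (nat_lit 1) (nat_lit 0x20018e60581))))) (.nd (nat_lit 10) 
(.lf (nat_lit 4094272007) (dlOf (nat_lit 1) (nat_lit 0x20008000400200040008037b03))) 
(.lf (nat_lit 634375) (dlOf (nat_lit 1) (nat_lit 0x20018007001))))) (.nd (nat_lit 7) 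
(.nd (nat_lit 26) (.lf (nat_lit 134848519) (dlOf (nat_lit 1) (nat_lit 0xde00280c0401))) 
(.lf (nat_lit 201957383) (dlOf (nat_lit 1) (nat_lit 0xde00280c0401)))) (.nd (nat_lit 26) 
(.lf (nat_lit 5771993223) (dlOf (nat_lit 12) (nat_lit 0xb805000039020004028000d0128009008c0068040005e0180001a850002013000b809400680460002022003400c0000d02801580a00005a040034050000c026000b01280070060000541003cc050000150202ae0280000981002f0140000400800580a0001c04a0000c04019c028000058100ec014000028080968008007000200280008030f03))) 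
(.lf (nat_lit 6375972999) (dlOf (nat_lit 5) (nat_lit 0x3ac05000ce02500540110000d81801b01b4026805000f402600960128047808c024c0440136020009400d804b8060019402c0002e14022c028007a013003e008c01d004000ea0180001685000e0140000a0080718008000400200180008030e03)))))) 
(.nd (nat_lit 30) (.nd (nat_lit 7) (.nd (nat_lit 8) 
(.lf (nat_lit 134848583) (dlOf (nat_lit 2) (nat_lit 0x4037000301900028028000680c00b4002008800080c1482))) 
(.nd (nat_lit 9) (.lf (nat_lit 7975239) (dlOf (nat_lit 1) (nat_lit 0xc00400020018518282))) 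
(.lf (nat_lit 20556615) (dlOf (nat_lit 1) (nat_lit 0x200189d5c01))))) (.nd (nat_lit 8) 
(.lf (nat_lit 636615) (dlOf (nat_lit 1) (nat_lit 0x800800040020002000800a003))) 
(.lf (nat_lit 7976903) (dlOf (nat_lit 1) (nat_lit 0x4800800380020012000851a603))))) 
(.nd (nat_lit 26) (.nd (nat_lit 21) (.nd (nat_lit 28) 
(.lf (nat_lit 3221856327) (dlOf (nat_lit 2) (nat_lit 0x30178000340800a8008003c002001e00081a1483))) 
(.lf (nat_lit 1342808135) (dlOf (nat_lit 1) (nat_lit 0xa00080d0e01)))) 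
(.lf (nat_lit 3492388935) (dlOf (nat_lit 2) (nat_lit 0x1c17e0003402000200180c1481)))) 
(.nd (nat_lit 27) (.lf (nat_lit 1409916999) (dlOf (nat_lit 1) (nat_lit 0x4002007a00080a0e02))) 
(.lf (nat_lit 3960053831) (dlOf (nat_lit 1) (nat_lit 0x980080074002004e00081a1883)))))))) 
(.nd (nat_lit 28) (.nd (nat_lit 19) (.nd (nat_lit 29) (.nd (nat_lit 20) (.nd (nat_lit 6) 
(.nd (nat_lit 10) 
(.lf (nat_lit 3355811847) (dlOf (nat_lit 4) (nat_lit 0x1d00780343008007003c01a160400600400000002001a0028120001))) 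
(.lf (nat_lit 38118407) (dlOf (nat_lit 1) (nat_lit 0x400200400009132882)))) (.nd (nat_lit 9) 
(.lf (nat_lit 3288703047) (dlOf (nat_lit 2) (nat_lit 0x118024000680401bc00201be00080c1482))) 
(.lf (nat_lit 23437895) (dlOf (nat_lit 1) (nat_lit 0x400200020008b81102))))) (.nd (nat_lit 7) 
(.nd (nat_lit 22) (.lf (nat_lit 9805831) (dlOf (nat_lit 1) (nat_lit 0x440008580001))) 
(.lf (nat_lit 22388743) (dlOf (nat_lit 2) (nat_lit 0x2586802fa4080040008001400200040008ad0003)))) 
(.lf (nat_lit 20294279) (dlOf (nat_lit 1) (nat_lit 0x280080014002000800089d5483))))) 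
(.nd (nat_lit 6) (.nd (nat_lit 26) (.nd (nat_lit 27) 
(.lf (nat_lit 4832206855) (dlOf (nat_lit 1) (nat_lit 0x8800200080008110002))) 
(.lf (nat_lit 671457287) (dlOf (nat_lit 10) (nat_lit 0x20230094003001f800c0029e0c003c0460014502000402900010130001808c00580000014308002602300580030003800c002840c00600360013b0200b00060009d01001b0030000800c0026c08005003600120060007d0200120120003a40800c8008001c002003c00081a0483)))) 
(.lf (nat_lit 604348423) (dlOf (nat_lit 5) (nat_lit 0x6018002800b0006805400a0022001c010000d00780078038012c00e001c006001b001800e000800ac000006281800140000030d81000600c0007005800b0022001200f00150070021001c0090000006180e000e016003a0038016e41002200080028002003a0008190283)))) 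
(.nd (nat_lit 26) (.lf (nat_lit 1610981447) (dlOf (nat_lit 1) (nat_lit 0xdc004019600080b0602))) 
(.lf (nat_lit 738566215) (dlOf (nat_lit 1) (nat_lit 0xdc004019600080b0602)))))) (.nd (nat_lit 23) 
(.nd (nat_lit 6) (.nd (nat_lit 7) (.nd (nat_lit 10) 
(.lf (nat_lit 537763847) (dlOf (nat_lit 1) (nat_lit 0x20028170481))) 
(.lf (nat_lit 8240135) (dlOf (nat_lit 1) (nat_lit 0x800800080020002000851bf03)))) 
(.lf (nat_lit 18718855) (dlOf (nat_lit 1) (nat_lit 0x400200020008970482)))) (.nd (nat_lit 8) 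
(.nd (nat_lit 20) (.lf (nat_lit 892999) (dlOf (nat_lit 1) (nat_lit 0x20018030f01))) 
(.lf (nat_lit 4038727) (dlOf (nat_lit 1) (nat_lit 0x5000200380008270c82)))) 
(.lf (nat_lit 8235335) (dlOf (nat_lit 2) (nat_lit 0x393a40000e04000400400020018514d02))))) 
(.nd (nat_lit 20) (.nd (nat_lit 22) 
(.lf (nat_lit 28155911) (dlOf (nat_lit 1) (nat_lit 0x800400020018d60002))) 
(.lf (nat_lit 15572999) (dlOf (nat_lit 1) (nat_lit 0x8008000400200020008800283)))) (.nd (nat_lit 6) 
(.nd (nat_lit 21) (.lf (nat_lit 10330119) (dlOf (nat_lit 1) (nat_lit 0x80080004002000200085d0003))) 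
(.lf (nat_lit 12427271) (dlOf (nat_lit 1) (nat_lit 0x5c00086c0001)))) 
(.lf (nat_lit 45981767) (dlOf (nat_lit 1) (nat_lit 0x260029380001))))))) (.nd (nat_lit 26) 
(.nd (nat_lit 21) (.nd (nat_lit 27) (.nd (nat_lit 20) (.nd (nat_lit 29) 
(.lf (nat_lit 1342545927) (dlOf (nat_lit 5) (nat_lit 0x5123800408dc00082e60011b060002247000411b80046410005091c001c486000623c000511b800085cc001f414002448e000a23c000511b8003dc1800d80080054002000a0008050583))) 
(.lf (nat_lit 2953158663) (dlOf (nat_lit 1) (nat_lit 0x2800081b0001)))) 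
(.lf (nat_lit 1343594503) (dlOf (nat_lit 1) (nat_lit 0x680080048002001c00082b0283)))) 
(.nd (nat_lit 6) (.nd (nat_lit 29) 
(.lf (nat_lit 1476763655) (dlOf (nat_lit 5) (nat_lit 0x6018002800b8006805800a0022001c010000d00780078038012c00e001c006001b002000e000800ac00000bbd180014000005d701000600c0007005c00b0022001200f00150070021001c009000000bad0e000e017003a003802d141002200080028002003a0008190283))) 
(.lf (nat_lit 5234860039) (dlOf (nat_lit 2) (nat_lit 0x200c00612c080020008000800200040008100003)))) 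
(.lf (nat_lit 5773304007) (dlOf (nat_lit 1) (nat_lit 0x4002000200080c1782))))) (.nd (nat_lit 19) 
(.nd (nat_lit 6) (.nd (nat_lit 7) 
(.lf (nat_lit 1345694215) (dlOf (nat_lit 2) (nat_lit 0x2152000807b80080248000200c003c00400020018dd5002))) 
(.lf (nat_lit 1345694087) (dlOf (nat_lit 1) (nat_lit 0x20028dd4e81)))) 
(.lf (nat_lit 3492126791) (dlOf (nat_lit 1) (nat_lit 0x980080024002002600080a0e03)))) 
(.nd (nat_lit 6) (.nd (nat_lit 7) 
(.lf (nat_lit 3492653063) (dlOf (nat_lit 1) (nat_lit 0xe00280f4701))) 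
(.lf (nat_lit 3492653191) (dlOf (nat_lit 1) (nat_lit 0xa600280f4801)))) 
(.lf (nat_lit 3492652871) (dlOf (nat_lit 1) (nat_lit 0x4004000200180f3e02)))))) (.nd (nat_lit 27) 
(.nd (nat_lit 6) (.nd (nat_lit 19) 
(.lf (nat_lit 3020267527) (dlOf (nat_lit 1) (nat_lit 0x200281e0281))) (.nd (nat_lit 21) 
(.lf (nat_lit 1410179079) (dlOf (nat_lit 1) (nat_lit 0x20028170481))) 
(.lf (nat_lit 4096630791) (dlOf (nat_lit 2) (nat_lit 0x2580000000004002c00200080008140582))))) 
(.nd (nat_lit 7) (.nd (nat_lit 11) 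
(.lf (nat_lit 1946525767) (dlOf (nat_lit 3) (nat_lit 0x200a40004e0400780520002602004e00180a0e01))) 
(.lf (nat_lit 2483402823) (dlOf (nat_lit 1) (nat_lit 0x1c00180fa681)))) 
(.lf (nat_lit 4094536647) (dlOf (nat_lit 2) (nat_lit 0xa0850000e818055d80))))) (.nd (nat_lit 30) 
(.nd (nat_lit 19) (.nd (nat_lit 31) 
(.lf (nat_lit 470130695) (dlOf (nat_lit 5) (nat_lit 0x5123800408dc00082e200117060002247000411b80045410005091c001c486000623c000511b800085c4001f614002448e000a23c000511b8003dc1800d80080054002000a0008050583))) 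
(.lf (nat_lit 2617614343) (dlOf (nat_lit 2) (nat_lit 0x2e805e000c02e00384028100000)))) 
(.lf (nat_lit 470654983) (dlOf (nat_lit 1) (nat_lit 0x400400060008150002)))) (.nd (nat_lit 31) 
(.lf (nat_lit 1543872519) (dlOf (nat_lit 10) (nat_lit 0x20230094003001f800c003c00c003c046001d602000402900010130001808c0058000001d408002602300580030003800c003a60c0060032001cc0200b0006000e581001b0030000800c0038e0800500320012006000c68200120120005e00800c8008001c002003c00081a0483))) 
(.lf (nat_lit 3691356167) (dlOf (nat_lit 1) (nat_lit 0x2800081b0001))))))))))))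

end

end Pool.Agent.Lib.MP_5854e1_co.Cz

namespace Pool.Agent.Lib.MP_5854e1_co.Cz

noncomputable section

noncomputable def tz146 : DT := (.nd (nat_lit 15) (.nd (nat_lit 18) (.nd (nat_lit 6) 
(.nd (nat_lit 16) (.nd (nat_lit 19) (.nd (nat_lit 28) (.nd (nat_lit 26) (.nd (nat_lit 7) 
(.nd (nat_lit 21) (.nd (nat_lit 10) (.nd (nat_lit 32) (.nd (nat_lit 20) 
(.lf (nat_lit 1610743811) (dlOf (nat_lit 2) (nat_lit 0x6052006bf018090000))) 
(.lf (nat_lit 47316995) (dlOf (nat_lit 1) (nat_lit 0x20004001c00093d0002)))) (.nd (nat_lit 27) 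
(.lf (nat_lit 4295098371) (dlOf (nat_lit 1) (nat_lit 0x16e0008070001))) 
(.lf (nat_lit 4429316099) (dlOf (nat_lit 1) (nat_lit 0x16e0008070001))))) (.nd (nat_lit 8) 
(.lf (nat_lit 38929411) (dlOf (nat_lit 1) (nat_lit 0x8008000400200020009192883))) 
(.lf (nat_lit 671221507) (dlOf (nat_lit 1) (nat_lit 0x8008000c00200040008143b83))))) 
(.nd (nat_lit 9) (.nd (nat_lit 23) 
(.lf (nat_lit 52559875) (dlOf (nat_lit 4) (nat_lit 0x594d200ebf02001cc12000e5fd8002aca401c280c009d8220028bfb00085fd0001a9a40000010003c00400020009550002))) 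
(.lf (nat_lit 10616835) (dlOf (nat_lit 1) (nat_lit 0xa0008600001)))) 
(.lf (nat_lit 2228739) (dlOf (nat_lit 1) (nat_lit 0xac0028150d81))))) (.nd (nat_lit 9) 
(.nd (nat_lit 2) (.lf (nat_lit 2228355) (dlOf (nat_lit 1) (nat_lit 0x1000400020008150102))) 
(.nd (nat_lit 8) 
(.lf (nat_lit 3221363847) (dlOf (nat_lit 2) (nat_lit 0x1a023002a780800f800800240020048000811c203))) 
(.lf (nat_lit 1610744199) (dlOf (nat_lit 3) (nat_lit 0xac0420015602001002100067818091000))))) 
(.nd (nat_lit 8) (.nd (nat_lit 20) 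
(.lf (nat_lit 3355580035) (dlOf (nat_lit 4) (nat_lit 0x70178002c80800400c8000de0400080640006e02003e00080a9d81))) 
(.lf (nat_lit 20059779) (dlOf (nat_lit 1) (nat_lit 0x4004000200189d9d82)))) 
(.lf (nat_lit 8524675) (dlOf (nat_lit 1) (nat_lit 0x8008000400200040008519003)))))) 
(.nd (nat_lit 10) (.nd (nat_lit 21) (.nd (nat_lit 30) (.nd (nat_lit 27) 
(.lf (nat_lit 604110851) (dlOf (nat_lit 6) (nat_lit 0x300600010022000200f0007007005498200080060003802c0022011000e00780068038003800e003800000a9287000400c000300580018022000800f00030070003001c02a46180020030002a011000500780068038000c00e001200000a9106000a00b0003001c02a340800f000200020008020002))) 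
(.lf (nat_lit 2885812227) (dlOf (nat_lit 7) (nat_lit 0x10060001402f0008017000400b4001004a000401e000b00d00028060001002e001c013000900880030024003c00a004000200090000054987800300c0002805e000e02e0007016800680940018048000e01e000e00d00028060000c02e002601300080088002803c0014018000c00900050040006801400200000152524000e030000b017800400b8002005a0002025000200f00050068001003000080170011009800480440010012001c00500060010004800002a463c0018060001402e000b016800600940014048000801e000600b80028024004000a0004002000a00000548858000806800040040152004000401300130028054681000b80080094002000200080a0003)))) 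
(.nd (nat_lit 2) 
(.lf (nat_lit 1140981763) (dlOf (nat_lit 2) (nat_lit 0x15002801d4c080030008001400200220008040003))) 
(.lf (nat_lit 1677854855) (dlOf (nat_lit 1) (nat_lit 0x1000200060008114802))))) (.nd (nat_lit 9) 
(.lf (nat_lit 69337091) (dlOf (nat_lit 1) (nat_lit 0x60018930001))) 
(.lf (nat_lit 2753692163) (dlOf (nat_lit 1) (nat_lit 0xc8004015c0008090d82))))) (.nd (nat_lit 2) 
(.nd (nat_lit 9) 
(.lf (nat_lit 3825339523) (dlOf (nat_lit 2) (nat_lit 0x280000001b02002e0018146101))) 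
(.lf (nat_lit 4496426627) (dlOf (nat_lit 1) (nat_lit 0x4800400080008053a02)))) (.nd (nat_lit 9) 
(.lf (nat_lit 2754743559) (dlOf (nat_lit 1) (nat_lit 0x4002000200080f6682))) 
(.lf (nat_lit 201459463) (dlOf (nat_lit 1) (nat_lit 0x20018003b81))))))) (.nd (nat_lit 29) 
(.nd (nat_lit 10) (.nd (nat_lit 2) (.nd (nat_lit 9) (.nd (nat_lit 21) 
(.lf (nat_lit 3624009731) (dlOf (nat_lit 7) (nat_lit 0x10060001402f0008017000400b4001004a001601b000200c8002806000380280008012000900880030024003c00a00400020009000005a547800300c0002805e000e02e0007016800680940018048001c01b000700c80028060004c028000601200080088002803c0014018000c00900050040006801400200000169424000e030000b017800400b8002005a0002025000a00d80010064001003000220140004009000480440010012001c00500060010004800002d243c0018060001402e000b0168006009400140480008019000600900028024004000a0004002000a000005a4458000806c00040040168f0400040140013002805a241000b80080094002000200080a0003))) 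
(.lf (nat_lit 1344405507) (dlOf (nat_lit 1) (nat_lit 0x20028760001)))) 
(.lf (nat_lit 3493986819) (dlOf (nat_lit 1) (nat_lit 0x80080004002000200081b0d83)))) 
(.nd (nat_lit 27) (.lf (nat_lit 268566535) (dlOf (nat_lit 1) (nat_lit 0x2c00400020008080002))) 
(.lf (nat_lit 402784263) (dlOf (nat_lit 1) (nat_lit 0x20018090001))))) (.nd (nat_lit 2) 
(.nd (nat_lit 8) (.nd (nat_lit 9) 
(.lf (nat_lit 1543638147) (dlOf (nat_lit 1) (nat_lit 0xa0008000800200140008146103))) 
(.lf (nat_lit 4697753219) (dlOf (nat_lit 1) (nat_lit 0x20008093a01)))) 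
(.lf (nat_lit 1409420675) (dlOf (nat_lit 1) (nat_lit 0x400200020008006c02)))) (.nd (nat_lit 27) 
(.lf (nat_lit 5637277191) (dlOf (nat_lit 1) (nat_lit 0x80080004002000200080d3683))) 
(.lf (nat_lit 4697753095) (dlOf (nat_lit 1) (nat_lit 0x50008007400200020008093683)))))) 
(.nd (nat_lit 9) (.nd (nat_lit 27) (.nd (nat_lit 30) 
(.lf (nat_lit 2952921091) (dlOf (nat_lit 5) (nat_lit 0x7017000300a8001c04e001401e00030048054982800480b80040058001002a000e013800680780034012015250c001402e000c016000400a8002404e000e01e000300480548c3000700b8002c0540022027000f00f00548820004800800ac00200040008020003))) 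
(.lf (nat_lit 1879179267) (dlOf (nat_lit 1) (nat_lit 0x100018050001)))) (.nd (nat_lit 26) 
(.nd (nat_lit 31) 
(.lf (nat_lit 2013396995) (dlOf (nat_lit 2) (nat_lit 0x15002803338080030008001400200220008040003))) 
(.lf (nat_lit 4160880643) (dlOf (nat_lit 1) (nat_lit 0xa0008050001)))) 
(.lf (nat_lit 1006764035) (dlOf (nat_lit 1) (nat_lit 0x100018050001))))) (.nd (nat_lit 2) 
(.nd (nat_lit 7) (.lf (nat_lit 6377572867) (dlOf (nat_lit 1) (nat_lit 0x800180e5001))) 
(.lf (nat_lit 6308365955) (dlOf (nat_lit 1) (nat_lit 0x40018053a01)))) 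
(.lf (nat_lit 3154248199) (dlOf (nat_lit 1) (nat_lit 0x400200020008137b02))))))) (.nd (nat_lit 21) 
(.nd (nat_lit 2) (.nd (nat_lit 22) (.nd (nat_lit 26) (.nd (nat_lit 20) (.nd (nat_lit 27) 
(.lf (nat_lit 1342832643) (dlOf (nat_lit 1) (nat_lit 0x800080064002004400080e0003))) 
(.lf (nat_lit 3892969475) (dlOf (nat_lit 2) (nat_lit 0x18144000809e0008024000c011004d982000a00080044002000400082c0003)))) 
(.nd (nat_lit 10) (.lf (nat_lit 1703939) (dlOf (nat_lit 1) (nat_lit 0x8008000400200020008120003))) 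
(.lf (nat_lit 35259395) (dlOf (nat_lit 1) (nat_lit 0x8008000800200020009012883))))) 
(.nd (nat_lit 9) (.nd (nat_lit 27) 
(.lf (nat_lit 4362731523) (dlOf (nat_lit 4) (nat_lit 0x34064002e02c0067502000902d000481440014066001202d0065b04008502b0000000802b00080004002000200080e0003))) 
(.lf (nat_lit 4228513795) (dlOf (nat_lit 4) (nat_lit 0x34062002e02b003a0820009029800481280014064001202c003848400850278000000802b00080004002000200080e0003)))) 
(.lf (nat_lit 2752125443) (dlOf (nat_lit 1) (nat_lit 0x2001800b281))))) (.nd (nat_lit 24) 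
(.nd (nat_lit 23) (.lf (nat_lit 4849667) (dlOf (nat_lit 1) (nat_lit 0x80080004002000200082d0003))) 
(.lf (nat_lit 13238275) (dlOf (nat_lit 1) (nat_lit 0x8008000400200020008710003)))) 
(.nd (nat_lit 10) 
(.lf (nat_lit 21626883) (dlOf (nat_lit 3) (nat_lit 0xa96000ce2010005ebd005cbc0800880080050002003a0008a50003))) 
(.lf (nat_lit 55182339) (dlOf (nat_lit 1) (nat_lit 0x4002000200096d2882)))))) (.nd (nat_lit 26) 
(.nd (nat_lit 8) (.nd (nat_lit 20) 
(.lf (nat_lit 2819227655) (dlOf (nat_lit 1) (nat_lit 0x3c000201d800081f0282))) 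
(.lf (nat_lit 1703943) (dlOf (nat_lit 1) (nat_lit 0x20018120481)))) 
(.lf (nat_lit 3490319623) (dlOf (nat_lit 1) (nat_lit 0x5000400320008006682)))) (.nd (nat_lit 27) 
(.nd (nat_lit 32) (.lf (nat_lit 67764231) (dlOf (nat_lit 1) (nat_lit 0x4004000200082e0482))) 
(.lf (nat_lit 4362731527) (dlOf (nat_lit 2) (nat_lit 0x320560003f8180e0580)))) 
(.lf (nat_lit 4228513799) (dlOf (nat_lit 2) (nat_lit 0x3204f0003f8180e0580)))))) (.nd (nat_lit 23) 
(.nd (nat_lit 26) (.nd (nat_lit 2) (.nd (nat_lit 24) 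
(.lf (nat_lit 3492413443) (dlOf (nat_lit 1) (nat_lit 0xa00280c0001))) 
(.lf (nat_lit 19529731) (dlOf (nat_lit 8) (nat_lit 0x95a80004a7e000c476000723a805a542000115a000148ec001047500b4a03000523b000411d402d24080004ad6000456a00012460000922c00148ec000e47500b488600012b5805a380800415ac00209180168d04000656b0003246005a241000480080004002000200089b0003)))) 
(.lf (nat_lit 19529735) (dlOf (nat_lit 1) (nat_lit 0xa8002004400089b0002)))) (.nd (nat_lit 7) 
(.nd (nat_lit 27) (.lf (nat_lit 2754215939) (dlOf (nat_lit 1) (nat_lit 0xa00280c0001))) 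
(.lf (nat_lit 1009385475) (dlOf (nat_lit 1) (nat_lit 0xa0029150001)))) 
(.lf (nat_lit 6378094723) (dlOf (nat_lit 1) (nat_lit 0x400200040008103a02))))) (.nd (nat_lit 24) 
(.nd (nat_lit 20) (.lf (nat_lit 11141123) (dlOf (nat_lit 1) (nat_lit 0x640018660001))) 
(.lf (nat_lit 16384003) (dlOf (nat_lit 1) (nat_lit 0x2080080164002006400088a0003)))) 
(.nd (nat_lit 2) 
(.lf (nat_lit 27918339) (dlOf (nat_lit 4) (nat_lit 0x89b1c00bbd020044d8e00036a9002edc10000b6380175a040064004002c0008d40002))) 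
(.lf (nat_lit 27918343) (dlOf (nat_lit 3) (nat_lit 0x7db1c0004cc9005c182001d6c7002cb80800380080018002000e0008d40003)))))))) 
(.nd (nat_lit 30) (.nd (nat_lit 19) (.nd (nat_lit 7) (.nd (nat_lit 2) (.nd (nat_lit 8) 
(.nd (nat_lit 10) (.nd (nat_lit 20) 
(.lf (nat_lit 5100470275) (dlOf (nat_lit 1) (nat_lit 0xa0028090001))) 
(.lf (nat_lit 1007878147) (dlOf (nat_lit 1) (nat_lit 0x20004000a0008810002)))) 
(.lf (nat_lit 5033362435) (dlOf (nat_lit 1) (nat_lit 0x400400020008092882)))) (.nd (nat_lit 9) 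
(.lf (nat_lit 2294019) (dlOf (nat_lit 1) (nat_lit 0xa00008150481))) 
(.lf (nat_lit 2818772739) (dlOf (nat_lit 1) (nat_lit 0x40008024400200be0008127483))))) 
(.nd (nat_lit 21) (.nd (nat_lit 8) 
(.lf (nat_lit 2952986631) (dlOf (nat_lit 1) (nat_lit 0x38008000400200040008080003))) 
(.lf (nat_lit 805506311) (dlOf (nat_lit 1) (nat_lit 0x8008000400200020008116683)))) 
(.nd (nat_lit 23) (.lf (nat_lit 2753757191) (dlOf (nat_lit 2) (nat_lit 0x21d200392818090000))) 
(.lf (nat_lit 10682375) (dlOf (nat_lit 2) (nat_lit 0x22bd001950080040008001400200040008610003)))))) 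
(.nd (nat_lit 26) (.nd (nat_lit 23) (.nd (nat_lit 8) 
(.lf (nat_lit 4697818755) (dlOf (nat_lit 1) (nat_lit 0x400400020008093a02))) 
(.lf (nat_lit 6711083395) (dlOf (nat_lit 1) (nat_lit 0x18008001000200040008091003)))) 
(.nd (nat_lit 2) (.lf (nat_lit 8587395) (dlOf (nat_lit 1) (nat_lit 0x400400020008514782))) 
(.lf (nat_lit 9633927) (dlOf (nat_lit 3) (nat_lit 0x544e000036020014340000119b00058ac800104dc000320800020028570e01))))) 
(.nd (nat_lit 29) (.nd (nat_lit 32) 
(.lf (nat_lit 469959043) (dlOf (nat_lit 1) (nat_lit 0xc004000c0008015a82))) 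
(.lf (nat_lit 4764926339) (dlOf (nat_lit 1) (nat_lit 0x20028091001)))) (.nd (nat_lit 2) 
(.lf (nat_lit 2754808195) (dlOf (nat_lit 1) (nat_lit 0x200280f4e81))) 
(.lf (nat_lit 1006829959) (dlOf (nat_lit 1) (nat_lit 0x3f8002013e00080c0782))))))) (.nd (nat_lit 2) 
(.nd (nat_lit 7) (.nd (nat_lit 26) (.nd (nat_lit 10) 
(.lf (nat_lit 134938627) (dlOf (nat_lit 1) (nat_lit 0x200280e0001))) 
(.lf (nat_lit 35324931) (dlOf (nat_lit 1) (nat_lit 0x60019012881)))) (.nd (nat_lit 21) 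
(.lf (nat_lit 202047491) (dlOf (nat_lit 1) (nat_lit 0x200280e0001))) 
(.lf (nat_lit 472580099) (dlOf (nat_lit 2) (nat_lit 0x2829a001607d00cf03e0032c4180008008000c002000200089c0003))))) 
(.nd (nat_lit 8) (.lf (nat_lit 36372611) (dlOf (nat_lit 1) (nat_lit 0x400200020009070302))) 
(.nd (nat_lit 21) 
(.lf (nat_lit 2753233283) (dlOf (nat_lit 3) (nat_lit 0x25c3f000cb70200ae1f80065a818090780))) 
(.lf (nat_lit 8061315) (dlOf (nat_lit 1) (nat_lit 0x8008004c002000e0008511003)))))) 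
(.nd (nat_lit 9) (.nd (nat_lit 21) (.nd (nat_lit 22) 
(.lf (nat_lit 2819293191) (dlOf (nat_lit 1) (nat_lit 0xc0028220281))) 
(.lf (nat_lit 21692423) (dlOf (nat_lit 1) (nat_lit 0x78008007000200280008a60583)))) 
(.nd (nat_lit 8) (.lf (nat_lit 472580103) (dlOf (nat_lit 2) (nat_lit 0x3007c0065c8189c0000))) 
(.lf (nat_lit 8063239) (dlOf (nat_lit 2) (nat_lit 0x1caf2000e30200020028514b81))))) 
(.nd (nat_lit 8) (.nd (nat_lit 20) 
(.lf (nat_lit 51053063) (dlOf (nat_lit 3) (nat_lit 0x6b7d00035be00303810008ade4014f00400b8004000400194f7b02))) 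
(.lf (nat_lit 2753233415) (dlOf (nat_lit 2) (nat_lit 0xe1fd000a1818090d80)))) (.nd (nat_lit 7) 
(.lf (nat_lit 54201095) (dlOf (nat_lit 1) (nat_lit 0x400400020009655b02))) 
(.lf (nat_lit 8066951) (dlOf (nat_lit 1) (nat_lit 0x2002851a301)))))))) (.nd (nat_lit 2) 
(.nd (nat_lit 27) (.nd (nat_lit 26) (.nd (nat_lit 7) (.nd (nat_lit 9) (.nd (nat_lit 19) 
(.nd (nat_lit 20) (.nd (nat_lit 22) 
(.lf (nat_lit 4026728451) (dlOf (nat_lit 1) (nat_lit 0x40018070001))) 
(.lf (nat_lit 1346568195) (dlOf (nat_lit 1) (nat_lit 0x520028fd0001)))) 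
(.lf (nat_lit 1343422467) (dlOf (nat_lit 1) (nat_lit 0x80028230001)))) 
(.lf (nat_lit 1344995331) (dlOf (nat_lit 1) (nat_lit 0x180080004002000400089b0003)))) 
(.lf (nat_lit 5637342723) (dlOf (nat_lit 1) (nat_lit 0x100004000c00180d3682)))) 
(.lf (nat_lit 1342374275) (dlOf (nat_lit 1) (nat_lit 0xc004000c0008015a82)))) (.nd (nat_lit 8) 
(.nd (nat_lit 28) (.lf (nat_lit 3288530947) (dlOf (nat_lit 1) (nat_lit 0x40018070001))) 
(.lf (nat_lit 5704450051) (dlOf (nat_lit 2) (nat_lit 0x2700c8000000801b0008004400200780008080003)))) 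
(.lf (nat_lit 3556970243) (dlOf (nat_lit 1) (nat_lit 0x40008024400200be0008127483))))) 
(.nd (nat_lit 7) (.nd (nat_lit 26) (.nd (nat_lit 29) 
(.lf (nat_lit 1476591619) (dlOf (nat_lit 1) (nat_lit 0x54002000c0008090002))) 
(.lf (nat_lit 6308429827) (dlOf (nat_lit 2) (nat_lit 0x2700c8000000801b0008004400200780008080003)))) 
(.nd (nat_lit 10) 
(.lf (nat_lit 3691184131) (dlOf (nat_lit 1) (nat_lit 0x380080198002009c0008090003))) 
(.lf (nat_lit 3959620611) (dlOf (nat_lit 1) (nat_lit 0x10008000400200020008112883))))) 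
(.nd (nat_lit 8) 
(.lf (nat_lit 2013464195) (dlOf (nat_lit 6) (nat_lit 0xe90130000bc0803100980005c0401b804c0002c0201260260000f8100590130000780800100080018002000a0008093a03))) 
(.nd (nat_lit 26) 
(.lf (nat_lit 3624078723) (dlOf (nat_lit 2) (nat_lit 0x40000000d0200340018146c01))) 
(.lf (nat_lit 1543703939) (dlOf (nat_lit 3) (nat_lit 0x7901600388064008400200b200000006840012016000580640001608017000400160008146c02))))))) 
(.nd (nat_lit 10) (.nd (nat_lit 7) (.nd (nat_lit 22) (.nd (nat_lit 26) 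
(.lf (nat_lit 6308429831) (dlOf (nat_lit 1) (nat_lit 0x800400060008080002))) 
(.lf (nat_lit 5704450055) (dlOf (nat_lit 1) (nat_lit 0x800400060008080002)))) 
(.lf (nat_lit 3494051847) (dlOf (nat_lit 1) (nat_lit 0x800081b0001)))) (.nd (nat_lit 8) 
(.nd (nat_lit 11) (.lf (nat_lit 3556971143) (dlOf (nat_lit 1) (nat_lit 0x1400200020008128b82))) 
(.lf (nat_lit 5436017287) (dlOf (nat_lit 1) (nat_lit 0x20008095481)))) 
(.lf (nat_lit 1879245191) (dlOf (nat_lit 1) (nat_lit 0x3f8002013e00080c0782))))) (.nd (nat_lit 8) 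
(.nd (nat_lit 7) (.nd (nat_lit 19) 
(.lf (nat_lit 3493004295) (dlOf (nat_lit 1) (nat_lit 0x200180f2881))) 
(.lf (nat_lit 1346044935) (dlOf (nat_lit 1) (nat_lit 0x120018e22881)))) 
(.lf (nat_lit 2013464199) (dlOf (nat_lit 12) (nat_lit 0x3e804c0002e0201ea026000168100cf0130000b0080770098000560400b004c0002902000a026000138100ee013000094080770098000420403b004c0001e0201e40260000e8100ee0130000700801b8008012c00200280008093a03)))) 
(.nd (nat_lit 27) (.nd (nat_lit 9) 
(.lf (nat_lit 3490385159) (dlOf (nat_lit 1) (nat_lit 0x1000008006681))) 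
(.lf (nat_lit 5905778439) (dlOf (nat_lit 1) (nat_lit 0x500080034002000e0008143b83)))) 
(.nd (nat_lit 7) (.lf (nat_lit 3355645191) (dlOf (nat_lit 1) (nat_lit 0x600080a9601))) 
(.lf (nat_lit 2013463943) (dlOf (nat_lit 4) (nat_lit 0x37c04c001e60201c0026000e68100de01300072c080038008001000200260008093603)))))))))) 
(.nd (nat_lit 2) (.nd (nat_lit 26) (.nd (nat_lit 8) (.nd (nat_lit 19) (.nd (nat_lit 7) 
(.nd (nat_lit 16) (.nd (nat_lit 21) 
(.lf (nat_lit 25296963) (dlOf (nat_lit 4) (nat_lit 0x7b24201f191600f3c380001a8180236484016f22c00b187000034830045c8b0029e1c00004408009800400080008bf0c02))) 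
(.nd (nat_lit 23) 
(.lf (nat_lit 52559939) (dlOf (nat_lit 2) (nat_lit 0x13ec12008960880582fec02717f4014ab29008c594004fa9ec02ed4d20015410000c0029550601))) 
(.lf (nat_lit 10616899) (dlOf (nat_lit 1) (nat_lit 0xc800400560008600d82))))) (.nd (nat_lit 10) 
(.lf (nat_lit 14876739) (dlOf (nat_lit 1) (nat_lit 0x30008001c00200020008790583))) 
(.lf (nat_lit 2818774083) (dlOf (nat_lit 1) (nat_lit 0x20018129301))))) (.nd (nat_lit 9) 
(.nd (nat_lit 10) (.lf (nat_lit 20058307) (dlOf (nat_lit 1) (nat_lit 0x200289d7f01))) 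
(.nd (nat_lit 16) 
(.lf (nat_lit 33686723) (dlOf (nat_lit 2) (nat_lit 0xa595000000080018008000800200040008f52d03))) 
(.lf (nat_lit 33752259) (dlOf (nat_lit 1) (nat_lit 0x20028f52d01))))) (.nd (nat_lit 10) 
(.nd (nat_lit 16) (.lf (nat_lit 20058819) (dlOf (nat_lit 1) (nat_lit 0x80080004002000200089d8c83))) 
(.lf (nat_lit 20124355) (dlOf (nat_lit 1) (nat_lit 0x4002000200089d8c82)))) 
(.lf (nat_lit 3758298819) (dlOf (nat_lit 1) (nat_lit 0x40040006001812a002)))))) (.nd (nat_lit 16) 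
(.nd (nat_lit 28) (.nd (nat_lit 20) (.nd (nat_lit 22) 
(.lf (nat_lit 537526339) (dlOf (nat_lit 1) (nat_lit 0xe000080a0d01))) 
(.lf (nat_lit 21626947) (dlOf (nat_lit 1) (nat_lit 0x48008000400200340008a51803)))) 
(.lf (nat_lit 45744195) (dlOf (nat_lit 2) (nat_lit 0xf133e0008f0080028008000c00200040009360603)))) 
(.nd (nat_lit 21) (.nd (nat_lit 29) 
(.lf (nat_lit 1342832707) (dlOf (nat_lit 1) (nat_lit 0xc80080098002007a00080e0d03))) 
(.lf (nat_lit 805961795) (dlOf (nat_lit 3) (nat_lit 0x330028001dc0400040ac0000002000a0008201401)))) 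
(.lf (nat_lit 1344929859) (dlOf (nat_lit 3) (nat_lit 0x2104680150230004920802842c0010609c00940468007c01800b80080064002002600089a0603))))) 
(.nd (nat_lit 22) (.nd (nat_lit 23) 
(.lf (nat_lit 537591875) (dlOf (nat_lit 2) (nat_lit 0x1a0520002b8180c1880))) 
(.lf (nat_lit 9109571) (dlOf (nat_lit 1) (nat_lit 0x8008000400200020008521683)))) (.nd (nat_lit 7) 
(.lf (nat_lit 23790147) (dlOf (nat_lit 1) (nat_lit 0x400200020008b81102))) 
(.lf (nat_lit 5963971) (dlOf (nat_lit 1) (nat_lit 0xc00400020008420482))))))) (.nd (nat_lit 9) 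
(.nd (nat_lit 11) (.nd (nat_lit 7) (.nd (nat_lit 10) 
(.lf (nat_lit 9634115) (dlOf (nat_lit 2) (nat_lit 0x116880296c080018008000800200020008574c03))) 
(.lf (nat_lit 8000835) (dlOf (nat_lit 1) (nat_lit 0x20008519901)))) 
(.lf (nat_lit 1610745283) (dlOf (nat_lit 1) (nat_lit 0x20018093601)))) (.nd (nat_lit 7) 
(.nd (nat_lit 28) 
(.lf (nat_lit 3221364035) (dlOf (nat_lit 2) (nat_lit 0x8046000701c0019e410002800800040020026000811c903))) 
(.lf (nat_lit 805444931) (dlOf (nat_lit 2) (nat_lit 0xd02b0019880802a8008004400200ae000811c903)))) 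
(.lf (nat_lit 20060611) (dlOf (nat_lit 1) (nat_lit 0x13000800b4002001200089daf83))))) 
(.nd (nat_lit 10) (.nd (nat_lit 7) 
(.lf (nat_lit 3355579203) (dlOf (nat_lit 3) (nat_lit 0x200bc0142a04003805e00a1402000200280a8f81))) 
(.lf (nat_lit 20581315) (dlOf (nat_lit 1) (nat_lit 0x300080030002000200089d5d83)))) 
(.nd (nat_lit 16) (.nd (nat_lit 31) 
(.lf (nat_lit 132931) (dlOf (nat_lit 2) (nat_lit 0x10898001c16a0001b028003e00))) 
(.lf (nat_lit 6442583875) (dlOf (nat_lit 2) (nat_lit 0x1a0170001b0180f3e00)))) (.nd (nat_lit 23) 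
(.lf (nat_lit 671287107) (dlOf (nat_lit 1) (nat_lit 0x900080020002001c0008143e03))) 
(.lf (nat_lit 8587075) (dlOf (nat_lit 1) (nat_lit 0x400400020008513e02)))))))) (.nd (nat_lit 30) 
(.nd (nat_lit 7) (.nd (nat_lit 29) (.nd (nat_lit 8) (.nd (nat_lit 16) 
(.lf (nat_lit 470417475) (dlOf (nat_lit 1) (nat_lit 0xc80080098002007a00080e0d03))) 
(.lf (nat_lit 472580163) (dlOf (nat_lit 10) (nat_lit 0x1070a68078836402c01b002ae07d01d303e0009242805281f00048e0404080fa048c07c000f80200cf09d808684e4043019a0322075015f03980071c2800681d40038a0400b4286015207500870398006f4180c382f0002a804001c178000f4020008000000488189c0600)))) 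
(.lf (nat_lit 201459523) (dlOf (nat_lit 1) (nat_lit 0x40018003e01)))) (.nd (nat_lit 9) 
(.nd (nat_lit 27) 
(.lf (nat_lit 872546371) (dlOf (nat_lit 1) (nat_lit 0x4f0008027c00200720008090003))) 
(.lf (nat_lit 5301731395) (dlOf (nat_lit 5) (nat_lit 0x807e000403a000301b8007d41800100fc000807c000603a000501b8007d02000300fc001807c000e03a000701b8007cc2000280fc001407c000c03a000601b8007c82000100080068002000a0008051803)))) 
(.lf (nat_lit 2753757763) (dlOf (nat_lit 2) (nat_lit 0x41d900012018091100))))) (.nd (nat_lit 27) 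
(.nd (nat_lit 8) (.nd (nat_lit 9) 
(.lf (nat_lit 2755788995) (dlOf (nat_lit 1) (nat_lit 0x28004014000081b0402))) 
(.lf (nat_lit 3020100291) (dlOf (nat_lit 1) (nat_lit 0x1000200020008128c82)))) (.nd (nat_lit 16) 
(.lf (nat_lit 3020030403) (dlOf (nat_lit 2) (nat_lit 0x400e002470180e7a80))) 
(.lf (nat_lit 2753757635) (dlOf (nat_lit 5) (nat_lit 0x2c3a4000200200121d20000f81000c0e90000780800a07480000004000400400a00018090902))))) 
(.nd (nat_lit 9) (.nd (nat_lit 10) 
(.lf (nat_lit 1007288515) (dlOf (nat_lit 1) (nat_lit 0x8008042400200c200082e0483))) 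
(.lf (nat_lit 474088643) (dlOf (nat_lit 15) (nat_lit 0x68169000b0b4003500600004c0c002429800121420001182001d0b480007c0804885a400dc2cc00960180000e83007d0b48011059800c80300001c060094169001400c00006c1003805a400082d0002e166003300c0000602000585a0007c2cc00500180000803000900c0000380803c85a401182d00004142004600c0000142001485a4000060401042d2006a018000010200720b480158060000020801f42d20156168005200c000000180008008010000200020009082d03)))) 
(.lf (nat_lit 469897923) (dlOf (nat_lit 1) (nat_lit 0x400400020018008c82)))))) (.nd (nat_lit 8) 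
(.nd (nat_lit 10) (.nd (nat_lit 19) (.nd (nat_lit 11) 
(.lf (nat_lit 5435949123) (dlOf (nat_lit 5) (nat_lit 0x101f800180f8000c0740008035000100000047c2800080fc000807c000803a000301a8004782000300fc001c07c000c03a000501a8004742000280fc001c07c000e03a000701a8004702000100080004002000a0008051783))) 
(.lf (nat_lit 1677854787) (dlOf (nat_lit 2) (nat_lit 0x40038001c604002800400320008114702)))) 
(.nd (nat_lit 27) 
(.lf (nat_lit 1678377027) (dlOf (nat_lit 3) (nat_lit 0x600260004f02009c05600027018201880))) 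
(.lf (nat_lit 3960078403) (dlOf (nat_lit 3) (nat_lit 0x5c07e00280000002a820005020000144080188008006c002000c00081a1883))))) 
(.nd (nat_lit 27) (.nd (nat_lit 28) 
(.lf (nat_lit 1677853763) (dlOf (nat_lit 1) (nat_lit 0x400400020018112882))) 
(.lf (nat_lit 4093772867) (dlOf (nat_lit 1) (nat_lit 0x400400020008002882)))) (.nd (nat_lit 21) 
(.lf (nat_lit 3959555139) (dlOf (nat_lit 1) (nat_lit 0xe0018112881))) 
(.lf (nat_lit 6377571395) (dlOf (nat_lit 1) (nat_lit 0x4004000200080e2882)))))) (.nd (nat_lit 7) 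
(.nd (nat_lit 27) 
(.lf (nat_lit 1677855043) (dlOf (nat_lit 1) (nat_lit 0x22000800e400200560008114d03))) 
(.lf (nat_lit 3959556419) (dlOf (nat_lit 1) (nat_lit 0x1e80080004002002c0008114d03)))) 
(.nd (nat_lit 9) (.nd (nat_lit 11) 
(.lf (nat_lit 6378160579) (dlOf (nat_lit 1) (nat_lit 0x4004000e0008117002))) 
(.lf (nat_lit 3556972995) (dlOf (nat_lit 1) (nat_lit 0x1400040046000812af82)))) 
(.lf (nat_lit 5704387523) (dlOf (nat_lit 1) (nat_lit 0x58008002400200060008055d83)))))))) 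
(.nd (nat_lit 16) (.nd (nat_lit 28) (.nd (nat_lit 8) (.nd (nat_lit 26) (.nd (nat_lit 9) 
(.nd (nat_lit 19) (.lf (nat_lit 25296967) (dlOf (nat_lit 1) (nat_lit 0x840008bf0c81))) 
(.lf (nat_lit 3221880903) (dlOf (nat_lit 8) (nat_lit 0x47815000300a600fa03f0001019804680c0024005400080280013010000a8074024c0120120007009d002802800000005c3402bc0a8009603f0004014002f807402780120082007003000280328000000582000a4080002401600013820006020000380e0000480802280820002302000e0140001101000400f0000400800800080648002016200081a1483)))) 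
(.lf (nat_lit 11665991) (dlOf (nat_lit 1) (nat_lit 0x8002000200086c1102)))) (.nd (nat_lit 10) 
(.lf (nat_lit 1678377031) (dlOf (nat_lit 2) (nat_lit 0x470158017c026000000400100008201881))) 
(.nd (nat_lit 27) (.lf (nat_lit 1677853767) (dlOf (nat_lit 1) (nat_lit 0x20028112881))) 
(.lf (nat_lit 3959555143) (dlOf (nat_lit 1) (nat_lit 0xe0018112881)))))) (.nd (nat_lit 11) 
(.nd (nat_lit 7) 
(.lf (nat_lit 5905712967) (dlOf (nat_lit 3) (nat_lit 0x2b012800018080138094000000400c800200320008143e02))) 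
(.nd (nat_lit 31) (.lf (nat_lit 1610744263) (dlOf (nat_lit 1) (nat_lit 0x20028091101))) 
(.lf (nat_lit 3758227911) (dlOf (nat_lit 1) (nat_lit 0x40028107081))))) (.nd (nat_lit 7) 
(.lf (nat_lit 3221364039) (dlOf (nat_lit 1) (nat_lit 0x800800880020038000811c903))) 
(.nd (nat_lit 26) (.lf (nat_lit 3221359047) (dlOf (nat_lit 1) (nat_lit 0x2800200020008114e82))) 
(.lf (nat_lit 738331079) (dlOf (nat_lit 1) (nat_lit 0x20018094e81))))))) (.nd (nat_lit 11) 
(.nd (nat_lit 31) (.nd (nat_lit 10) (.nd (nat_lit 27) 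
(.lf (nat_lit 1409941575) (dlOf (nat_lit 1) (nat_lit 0x80080010002002200080a0e03))) 
(.lf (nat_lit 6375997511) (dlOf (nat_lit 1) (nat_lit 0x2a0018040481)))) 
(.lf (nat_lit 5637276743) (dlOf (nat_lit 1) (nat_lit 0x4004000200080d2882)))) (.nd (nat_lit 8) 
(.nd (nat_lit 26) 
(.lf (nat_lit 3492413511) (dlOf (nat_lit 3) (nat_lit 0x12068000703180040108000680c003c0d0001406300090210000c81801180080028002000600080c1483))) 
(.lf (nat_lit 4096393287) (dlOf (nat_lit 1) (nat_lit 0x180080044002000e0008100603)))) 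
(.lf (nat_lit 2483159367) (dlOf (nat_lit 1) (nat_lit 0x400400020008047f02))))) (.nd (nat_lit 8) 
(.nd (nat_lit 7) (.lf (nat_lit 3490319431) (dlOf (nat_lit 1) (nat_lit 0x20028006081))) 
(.nd (nat_lit 9) (.lf (nat_lit 1409420487) (dlOf (nat_lit 1) (nat_lit 0x400200020008006382))) 
(.lf (nat_lit 805441223) (dlOf (nat_lit 3) (nat_lit 0x300000000e040010000000000200100008117301))))) 
(.nd (nat_lit 7) 
(.lf (nat_lit 805444935) (dlOf (nat_lit 2) (nat_lit 0x102b0017f80801880080084002005a000811c903))) 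
(.nd (nat_lit 26) 
(.lf (nat_lit 4563536839) (dlOf (nat_lit 3) (nat_lit 0xa0290000e8100010148000600801d0008000800200040008095d83))) 
(.lf (nat_lit 6241258439) (dlOf (nat_lit 2) (nat_lit 0xc012000160180d5d80)))))))) (.nd (nat_lit 26) 
(.nd (nat_lit 20) (.nd (nat_lit 8) (.nd (nat_lit 30) (.nd (nat_lit 10) 
(.lf (nat_lit 37945415) (dlOf (nat_lit 1) (nat_lit 0xe00190f0601))) 
(.lf (nat_lit 6711084103) (dlOf (nat_lit 1) (nat_lit 0x400400020008092882)))) (.nd (nat_lit 7) 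
(.lf (nat_lit 1881342023) (dlOf (nat_lit 1) (nat_lit 0x8008000400200040008ea0603))) 
(.lf (nat_lit 5772083399) (dlOf (nat_lit 1) (nat_lit 0x70008000800200040008075903))))) 
(.nd (nat_lit 9) (.nd (nat_lit 11) 
(.lf (nat_lit 3758298439) (dlOf (nat_lit 2) (nat_lit 0x700d80148e04007800200020008129902))) 
(.lf (nat_lit 3624078663) (dlOf (nat_lit 2) (nat_lit 0x203700008818146980)))) 
(.lf (nat_lit 46336839) (dlOf (nat_lit 2) (nat_lit 0x19788001ad0200020009385c01))))) 
(.nd (nat_lit 9) (.nd (nat_lit 22) 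
(.lf (nat_lit 62062663) (dlOf (nat_lit 1) (nat_lit 0x8008000400200020009940603))) 
(.lf (nat_lit 24313927) (dlOf (nat_lit 1) (nat_lit 0x388008004800200500008b90e03)))) 
(.nd (nat_lit 19) (.nd (nat_lit 7) 
(.lf (nat_lit 11731527) (dlOf (nat_lit 1) (nat_lit 0x4002000200086c1102))) 
(.lf (nat_lit 20124359) (dlOf (nat_lit 1) (nat_lit 0x4002000200089d8c82)))) (.nd (nat_lit 8) 
(.lf (nat_lit 3491430983) (dlOf (nat_lit 3) (nat_lit 0x6c0f68000900803387b40000004005000400220008091102))) 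
(.lf (nat_lit 54201159) (dlOf (nat_lit 1) (nat_lit 0x8008000c00200080009655c03))))))) 
(.nd (nat_lit 27) (.nd (nat_lit 7) (.nd (nat_lit 8) (.nd (nat_lit 9) 
(.lf (nat_lit 1410007111) (dlOf (nat_lit 3) (nat_lit 0x1100520001a0100050290000c8080028008001c002000a00080c1483))) 
(.lf (nat_lit 2753233479) (dlOf (nat_lit 3) (nat_lit 0x6c0ff8000900803387fc0000004005000400220008091102)))) 
(.lf (nat_lit 4362273095) (dlOf (nat_lit 4) (nat_lit 0x100290028d00802281480146604000808e009d402000c0028014c01)))) 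
(.nd (nat_lit 9) (.lf (nat_lit 1409486279) (dlOf (nat_lit 1) (nat_lit 0xd40028006d01))) 
(.nd (nat_lit 29) (.lf (nat_lit 4630711239) (dlOf (nat_lit 1) (nat_lit 0x400200020008095d82))) 
(.lf (nat_lit 6241323975) (dlOf (nat_lit 2) (nat_lit 0xe007400058040078004001800180d5d82)))))) 
(.nd (nat_lit 10) (.nd (nat_lit 8) (.nd (nat_lit 21) 
(.lf (nat_lit 4764926023) (dlOf (nat_lit 1) (nat_lit 0x40018090001))) 
(.lf (nat_lit 1008926791) (dlOf (nat_lit 1) (nat_lit 0x1c0008fe0601)))) 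
(.lf (nat_lit 4228055367) (dlOf (nat_lit 4) (nat_lit 0x1002580127c08022812c0093c0400080800043f02000c0028014c01)))) 
(.nd (nat_lit 7) (.nd (nat_lit 28) 
(.lf (nat_lit 2885878855) (dlOf (nat_lit 1) (nat_lit 0x48008003000200140008142883))) 
(.lf (nat_lit 4764927047) (dlOf (nat_lit 1) (nat_lit 0x400400020008092882)))) 
(.lf (nat_lit 1543703751) (dlOf (nat_lit 5) (nat_lit 0x11807c00640260003404003402e00250060000cc1001d80b80010050005601f002900980148030002400e00220000001907000e00f8013004c000460800f000400160008146382)))))))))) 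
(.nd (nat_lit 19) (.nd (nat_lit 2) (.nd (nat_lit 26) (.nd (nat_lit 6) (.nd (nat_lit 30) 
(.nd (nat_lit 22) (.nd (nat_lit 20) (.nd (nat_lit 16) (.nd (nat_lit 27) 
(.lf (nat_lit 4563795971) (dlOf (nat_lit 4) (nat_lit 0x400a805d3c080008054000c0240174d04000c0140004008805cbc100010008005c002004e00080e0003))) 
(.lf (nat_lit 4698013699) (dlOf (nat_lit 4) (nat_lit 0x600a0002004402ba208001002a015c102000201500030090056fc100010008005c002004e00080e0003)))) 
(.lf (nat_lit 2819031043) (dlOf (nat_lit 1) (nat_lit 0xc0018150001)))) (.nd (nat_lit 21) 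
(.lf (nat_lit 18219011) (dlOf (nat_lit 1) (nat_lit 0x8008006c00200900008920003))) (.nd (nat_lit 25) 
(.lf (nat_lit 3538947) (dlOf (nat_lit 1) (nat_lit 0x400200120008200002))) 
(.lf (nat_lit 37093379) (dlOf (nat_lit 1) (nat_lit 0x20029090001)))))) (.nd (nat_lit 10) 
(.nd (nat_lit 7) (.nd (nat_lit 16) 
(.lf (nat_lit 54919171) (dlOf (nat_lit 1) (nat_lit 0x1a0009670001))) 
(.lf (nat_lit 54984707) (dlOf (nat_lit 2) (nat_lit 0x16129c023ee04002000400060009680002)))) 
(.lf (nat_lit 40241539) (dlOf (nat_lit 1) (nat_lit 0x1600191f4e81)))) (.nd (nat_lit 20) 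
(.lf (nat_lit 38142979) (dlOf (nat_lit 1) (nat_lit 0x120009132881))) 
(.lf (nat_lit 47580163) (dlOf (nat_lit 1) (nat_lit 0x8008002800200020009402883)))))) 
(.nd (nat_lit 29) (.nd (nat_lit 31) (.nd (nat_lit 16) 
(.lf (nat_lit 5637537795) (dlOf (nat_lit 1) (nat_lit 0xc0028100001))) 
(.lf (nat_lit 1074200579) (dlOf (nat_lit 1) (nat_lit 0x200180d0001)))) (.nd (nat_lit 27) 
(.lf (nat_lit 3221618691) (dlOf (nat_lit 3) (nat_lit 0xa03c00010060009141000280000045e04008800200100008160002))) 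
(.lf (nat_lit 3355836419) (dlOf (nat_lit 2) (nat_lit 0x160178036100800500080050002003e0008120003))))) 
(.nd (nat_lit 28) (.nd (nat_lit 27) 
(.lf (nat_lit 1611005955) (dlOf (nat_lit 2) (nat_lit 0x4052006b48180b0000))) 
(.lf (nat_lit 3892707331) (dlOf (nat_lit 1) (nat_lit 0x8000800b0002015e00081d0003)))) 
(.nd (nat_lit 21) (.lf (nat_lit 4026925059) (dlOf (nat_lit 1) (nat_lit 0x200180d0001))) 
(.lf (nat_lit 1881538563) (dlOf (nat_lit 2) (nat_lit 0x33c1c000e160200040028f40001))))))) 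
(.nd (nat_lit 20) (.nd (nat_lit 28) (.nd (nat_lit 16) (.nd (nat_lit 21) 
(.lf (nat_lit 1611006019) (dlOf (nat_lit 4) (nat_lit 0x77c0aa014c054011902780ed80dc022806c007602901250110008807c049403c000261200040550000f81002e01b8000780801200080050002001000080b0583))) 
(.lf (nat_lit 48627779) (dlOf (nat_lit 2) (nat_lit 0x1fb7c0011e019420600)))) 
(.lf (nat_lit 6442909763) (dlOf (nat_lit 1) (nat_lit 0xb8008006000200220008220c03)))) 
(.nd (nat_lit 30) (.nd (nat_lit 27) 
(.lf (nat_lit 2416312387) (dlOf (nat_lit 8) (nat_lit 0x100120001a8080088090000ca040040048000640200220240003181000a012000098080070090000440400280480002102000c00080d0c01))) 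
(.lf (nat_lit 2550530115) (dlOf (nat_lit 8) (nat_lit 0x1001300019c080088098000c404004004c000610200220260003001000a0130000980800700980004404002804c0002102000c00080d0c01)))) 
(.nd (nat_lit 22) 
(.lf (nat_lit 4026925123) (dlOf (nat_lit 9) (nat_lit 0x686020004f00f80390074002001600061080558020009e00f8005007400d4016000600800280350002c01022a0100000880801100d40004204005006a0001c0200280350000d81001401a80006408006800800c4002000e00080d0c03))) 
(.lf (nat_lit 1346764867) (dlOf (nat_lit 2) (nat_lit 0x292084001203a000c0078004780c000400400060019000602)))))) 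
(.nd (nat_lit 9) (.nd (nat_lit 21) 
(.lf (nat_lit 47579203) (dlOf (nat_lit 1) (nat_lit 0x340029400001))) 
(.lf (nat_lit 62259267) (dlOf (nat_lit 1) (nat_lit 0x600009990d81)))) (.nd (nat_lit 7) 
(.lf (nat_lit 51841603) (dlOf (nat_lit 1) (nat_lit 0xc00200020009515202))) 
(.lf (nat_lit 20320963) (dlOf (nat_lit 1) (nat_lit 0x4002000200089d8c82))))))) (.nd (nat_lit 27) 
(.nd (nat_lit 30) (.nd (nat_lit 6) (.nd (nat_lit 7) 
(.lf (nat_lit 4362469379) (dlOf (nat_lit 1) (nat_lit 0x8300080010002011e0008090003))) 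
(.lf (nat_lit 4362469763) (dlOf (nat_lit 1) (nat_lit 0x420008000c00200580008090783)))) 
(.nd (nat_lit 8) (.nd (nat_lit 21) 
(.lf (nat_lit 4362469443) (dlOf (nat_lit 1) (nat_lit 0x6c8008016400200940008090003))) 
(.lf (nat_lit 2753953859) (dlOf (nat_lit 2) (nat_lit 0x1c088000118180a0d00)))) 
(.lf (nat_lit 2751924035) (dlOf (nat_lit 1) (nat_lit 0xc0028003e01))))) (.nd (nat_lit 16) 
(.nd (nat_lit 6) (.nd (nat_lit 28) 
(.lf (nat_lit 3288727555) (dlOf (nat_lit 1) (nat_lit 0x200180d0001))) 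
(.lf (nat_lit 6241517571) (dlOf (nat_lit 1) (nat_lit 0xc0028100001)))) 
(.lf (nat_lit 3288727619) (dlOf (nat_lit 9) (nat_lit 0x686020004f00f8039007400200160006a080558020009e00f8005007400d4016000690800280350002c01022a0100000880801100d40004204005006a0001c0200280350000d81001401a80006408006800800c4002000e00080d0c03)))) 
(.nd (nat_lit 9) (.lf (nat_lit 1946615811) (dlOf (nat_lit 1) (nat_lit 0x200180d0001))) 
(.lf (nat_lit 1409745411) (dlOf (nat_lit 2) (nat_lit 0x78150002d004000400200020008090d82)))))) 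
(.nd (nat_lit 28) (.nd (nat_lit 31) (.nd (nat_lit 6) 
(.lf (nat_lit 738590723) (dlOf (nat_lit 2) (nat_lit 0x4052003e00180b0000))) 
(.lf (nat_lit 738590787) (dlOf (nat_lit 4) (nat_lit 0x77c0aa014c054011902780ed80dc022806c007602901250110008807c049403c000251200040550000f81002e01b8000780801200080050002001000080b0583)))) 
(.nd (nat_lit 9) 
(.lf (nat_lit 3959816195) (dlOf (nat_lit 3) (nat_lit 0xa03c00010060009541000280000043a04008800200100008160002))) 
(.lf (nat_lit 2349203971) (dlOf (nat_lit 1) (nat_lit 0x200181b0d81))))) (.nd (nat_lit 29) 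
(.nd (nat_lit 6) (.lf (nat_lit 5838864387) (dlOf (nat_lit 2) (nat_lit 0xc032004328181d0000))) 
(.nd (nat_lit 7) 
(.lf (nat_lit 5838929987) (dlOf (nat_lit 1) (nat_lit 0xb8008006000200220008220c03))) 
(.lf (nat_lit 474349763) (dlOf (nat_lit 1) (nat_lit 0x60019160781))))) (.nd (nat_lit 16) 
(.nd (nat_lit 20) (.lf (nat_lit 3154509827) (dlOf (nat_lit 1) (nat_lit 0x600181f0001))) 
(.lf (nat_lit 1008074755) (dlOf (nat_lit 1) (nat_lit 0x80080004002000800089b0003)))) 
(.lf (nat_lit 1007091715) (dlOf (nat_lit 1) (nat_lit 0x8008000400200020008170003)))))))) 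
(.nd (nat_lit 26) (.nd (nat_lit 28) (.nd (nat_lit 22) (.nd (nat_lit 27) (.nd (nat_lit 6) 
(.nd (nat_lit 7) (.lf (nat_lit 9895943) (dlOf (nat_lit 1) (nat_lit 0x220028590001))) 
(.lf (nat_lit 3221684615) (dlOf (nat_lit 1) (nat_lit 0x100008000400200020008170783)))) 
(.lf (nat_lit 37093447) (dlOf (nat_lit 1) (nat_lit 0x400200020009090602)))) (.nd (nat_lit 6) 
(.nd (nat_lit 7) (.lf (nat_lit 3355836423) (dlOf (nat_lit 2) (nat_lit 0x7803200616018120000))) 
(.lf (nat_lit 134611335) (dlOf (nat_lit 1) (nat_lit 0x400400300018090782)))) 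
(.lf (nat_lit 134611527) (dlOf (nat_lit 2) (nat_lit 0x581280004804000c00400100008091102))))) 
(.nd (nat_lit 21) (.nd (nat_lit 6) (.nd (nat_lit 23) 
(.lf (nat_lit 54984839) (dlOf (nat_lit 3) (nat_lit 0x72630000c408004131800060040004004007e0009680f02))) 
(.lf (nat_lit 29819015) (dlOf (nat_lit 1) (nat_lit 0x4400200140008e30482)))) 
(.lf (nat_lit 29753671) (dlOf (nat_lit 1) (nat_lit 0x20018e30781)))) (.nd (nat_lit 9) 
(.nd (nat_lit 20) (.lf (nat_lit 6750215) (dlOf (nat_lit 1) (nat_lit 0x3c0028450581))) 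
(.lf (nat_lit 7798791) (dlOf (nat_lit 1) (nat_lit 0x3c00284e0581)))) 
(.lf (nat_lit 58130951) (dlOf (nat_lit 1) (nat_lit 0x40002001400097c7b02)))))) (.nd (nat_lit 27) 
(.nd (nat_lit 6) (.nd (nat_lit 20) (.nd (nat_lit 29) 
(.lf (nat_lit 4563795975) (dlOf (nat_lit 1) (nat_lit 0x20004003c00080e0002))) 
(.lf (nat_lit 805699591) (dlOf (nat_lit 1) (nat_lit 0x80008190001)))) 
(.lf (nat_lit 3491102727) (dlOf (nat_lit 2) (nat_lit 0xb06e800a802c0031a08002c00400120018060482)))) 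
(.nd (nat_lit 29) 
(.lf (nat_lit 2416312391) (dlOf (nat_lit 2) (nat_lit 0x201200005c0800100080008002000200080d0c83))) 
(.lf (nat_lit 4026925127) (dlOf (nat_lit 3) (nat_lit 0x76c0400003502040e0200000b8180d0c80))))) 
(.nd (nat_lit 30) (.nd (nat_lit 6) 
(.lf (nat_lit 4698013703) (dlOf (nat_lit 1) (nat_lit 0x20004003c00080e0002))) 
(.lf (nat_lit 2550530119) (dlOf (nat_lit 2) (nat_lit 0x201300005c0800100080008002000200080d0c83)))) 
(.nd (nat_lit 7) 
(.lf (nat_lit 3624337415) (dlOf (nat_lit 1) (nat_lit 0x17800800c800200ae0008160003))) 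
(.lf (nat_lit 1476788359) (dlOf (nat_lit 1) (nat_lit 0x480080028002001e00081a0483))))))) 
(.nd (nat_lit 31) (.nd (nat_lit 6) (.nd (nat_lit 8) (.nd (nat_lit 7) 
(.lf (nat_lit 1678114823) (dlOf (nat_lit 1) (nat_lit 0x80008190001))) 
(.lf (nat_lit 2080768135) (dlOf (nat_lit 2) (nat_lit 0x71018800600c00004e080004004003400080c0e02)))) 
(.nd (nat_lit 27) (.lf (nat_lit 4362469767) (dlOf (nat_lit 1) (nat_lit 0x400200020008090782))) 
(.lf (nat_lit 201720199) (dlOf (nat_lit 1) (nat_lit 0x400400300018090782))))) (.nd (nat_lit 10) 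
(.nd (nat_lit 9) (.nd (nat_lit 28) 
(.lf (nat_lit 4362469447) (dlOf (nat_lit 1) (nat_lit 0x40018090001))) 
(.lf (nat_lit 1946550343) (dlOf (nat_lit 1) (nat_lit 0x4002000400080c1482)))) 
(.lf (nat_lit 201720391) (dlOf (nat_lit 2) (nat_lit 0x581280004804000c00400100008091102)))) 
(.nd (nat_lit 7) (.lf (nat_lit 474350663) (dlOf (nat_lit 1) (nat_lit 0x400400020009162882))) 
(.lf (nat_lit 1009124551) (dlOf (nat_lit 1) (nat_lit 0x23000800cc002005e0009082d03)))))) 
(.nd (nat_lit 27) (.nd (nat_lit 6) 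
(.lf (nat_lit 2752905223) (dlOf (nat_lit 2) (nat_lit 0xb067800a802c001f408002c00400120018060482))) 
(.nd (nat_lit 21) 
(.lf (nat_lit 3288727623) (dlOf (nat_lit 3) (nat_lit 0x76c0400003802040e0200000b8180d0c80))) 
(.lf (nat_lit 2753953863) (dlOf (nat_lit 1) (nat_lit 0x200280a0d81))))) (.nd (nat_lit 7) 
(.nd (nat_lit 16) (.nd (nat_lit 29) 
(.lf (nat_lit 2617638919) (dlOf (nat_lit 1) (nat_lit 0x30008001000200180008110003))) 
(.lf (nat_lit 3154509831) (dlOf (nat_lit 1) (nat_lit 0xa00281f0001)))) 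
(.lf (nat_lit 2886139911) (dlOf (nat_lit 1) (nat_lit 0x17800800c800200ae0008160003)))) 
(.nd (nat_lit 16) (.lf (nat_lit 4228252039) (dlOf (nat_lit 1) (nat_lit 0x400200020008090782))) 
(.lf (nat_lit 3959882119) (dlOf (nat_lit 1) (nat_lit 0x100008000400200020008170783))))))))) 
(.nd (nat_lit 2) (.nd (nat_lit 16) (.nd (nat_lit 24) (.nd (nat_lit 20) (.nd (nat_lit 28) 
(.nd (nat_lit 29) (.nd (nat_lit 6) 
(.lf (nat_lit 917507) (dlOf (nat_lit 1) (nat_lit 0xc00400060008030002))) 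
(.lf (nat_lit 917571) (dlOf (nat_lit 1) (nat_lit 0x1c00200140008030e02)))) (.nd (nat_lit 27) 
(.lf (nat_lit 537788419) (dlOf (nat_lit 5) (nat_lit 0xa075000500000547c1000381e000380ec001e075000e038800701c0004c0da0012066000f03100078184000c0c0001e00000a8f0b000c03c000381d800300e2001e07000110368006000002a341800380ec0149802000200281a0001))) 
(.lf (nat_lit 2819489795) (dlOf (nat_lit 1) (nat_lit 0xec002002400082b0002))))) (.nd (nat_lit 8) 
(.lf (nat_lit 1410203651) (dlOf (nat_lit 5) (nat_lit 0xa0760005000005a381000381e000380ee001e076000e038800701c0004c0da0012066000f03180078184000c0c0001e00000b468b000c03c000381dc00300e2001e07000110368006000002d121800380ee015fc02000200281a0001))) 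
(.lf (nat_lit 1345194755) (dlOf (nat_lit 17) (nat_lit 0x2058c000425e000a0bc00030140000c420002058c0003c0400682ca00016021732165096d0b200030284000280c0b602ca000130200ee165000090112f30b28000440802a859400020040a242ca0000f020012165000050100090b28000180809c059400a02c800005040028165000020100b90b280000c0807405940000204011c2ca000000200180018b05a81))))) 
(.nd (nat_lit 7) (.nd (nat_lit 6) (.nd (nat_lit 23) 
(.lf (nat_lit 2755527171) (dlOf (nat_lit 2) (nat_lit 0x210184022c07e0007304000200181b0d81))) 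
(.lf (nat_lit 12452355) (dlOf (nat_lit 1) (nat_lit 0x4002000200086c0d82)))) 
(.lf (nat_lit 4063299) (dlOf (nat_lit 4) (nat_lit 0xf40000004b0200500d9003e0000000f010005858000301c6001e071000e0328000d82000d8008006800200040008270c03)))) 
(.nd (nat_lit 6) (.nd (nat_lit 8) 
(.lf (nat_lit 12451971) (dlOf (nat_lit 1) (nat_lit 0x4002002800086c0102))) 
(.lf (nat_lit 4095607171) (dlOf (nat_lit 1) (nat_lit 0x8008007c002003600080e1003)))) 
(.lf (nat_lit 471733187) (dlOf (nat_lit 1) (nat_lit 0x200283d9201)))))) (.nd (nat_lit 6) 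
(.nd (nat_lit 8) (.nd (nat_lit 9) 
(.lf (nat_lit 23986307) (dlOf (nat_lit 1) (nat_lit 0x400200020008b80102))) (.nd (nat_lit 10) 
(.lf (nat_lit 19796611) (dlOf (nat_lit 1) (nat_lit 0x4002000400089d8b02))) 
(.lf (nat_lit 61736579) (dlOf (nat_lit 1) (nat_lit 0x80080040002000a0009923a03))))) 
(.nd (nat_lit 7) (.nd (nat_lit 9) 
(.lf (nat_lit 19798275) (dlOf (nat_lit 1) (nat_lit 0x200089da981))) 
(.lf (nat_lit 19798787) (dlOf (nat_lit 1) (nat_lit 0x200189db981)))) (.nd (nat_lit 9) 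
(.lf (nat_lit 19795331) (dlOf (nat_lit 1) (nat_lit 0x200080008002000200089d6c03))) 
(.lf (nat_lit 19794819) (dlOf (nat_lit 1) (nat_lit 0x4002000200089d5c02)))))) (.nd (nat_lit 7) 
(.nd (nat_lit 12) (.nd (nat_lit 22) 
(.lf (nat_lit 59637827) (dlOf (nat_lit 2) (nat_lit 0x46740000aa019820600))) 
(.lf (nat_lit 21889091) (dlOf (nat_lit 1) (nat_lit 0x2e0018a80e01)))) (.nd (nat_lit 8) 
(.lf (nat_lit 19796035) (dlOf (nat_lit 1) (nat_lit 0xc004000400089d7d82))) 
(.lf (nat_lit 19797827) (dlOf (nat_lit 1) (nat_lit 0x600189da181))))) (.nd (nat_lit 8) 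
(.lf (nat_lit 19796675) (dlOf (nat_lit 1) (nat_lit 0x80080004002000200089d8c83))) 
(.lf (nat_lit 19798467) (dlOf (nat_lit 1) (nat_lit 0x38008000c002000a00089daf83))))))) 
(.nd (nat_lit 20) (.nd (nat_lit 31) (.nd (nat_lit 6) (.nd (nat_lit 8) (.nd (nat_lit 21) 
(.lf (nat_lit 470745091) (dlOf (nat_lit 1) (nat_lit 0x40028170001))) 
(.lf (nat_lit 24051715) (dlOf (nat_lit 2) (nat_lit 0x16420074f80800780080090002003e0008b80003)))) 
(.lf (nat_lit 5772346627) (dlOf (nat_lit 1) (nat_lit 0x400200020008092f02)))) (.nd (nat_lit 22) 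
(.lf (nat_lit 470745155) (dlOf (nat_lit 16) (nat_lit 0xf10f38001080805800000007e04006849402241ec010f0f3808c85f804282f601e6179000b01a804800000007820017049401ca1ec00fb0f3804805ec031c2f201560000001d8600ec0f60077879c010c2fc01b217b00c70bc8000e82807587b004a43ce020817e010d0bd804d05e40140000000390c00021e700020bd8000e010003079c0006e0402e80000002d020150000000160100ad00000002c080638000000140403300000000702014a000000030100c20000000000800f000801d800200440008170583))) 
(.lf (nat_lit 13566019) (dlOf (nat_lit 1) (nat_lit 0x400400020008730c02))))) (.nd (nat_lit 8) 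
(.nd (nat_lit 7) (.nd (nat_lit 10) 
(.lf (nat_lit 3492743171) (dlOf (nat_lit 2) (nat_lit 0x100e8001440800500080028002000c00080f4703))) 
(.lf (nat_lit 3492742147) (dlOf (nat_lit 1) (nat_lit 0x200180f2881)))) 
(.lf (nat_lit 3492743299) (dlOf (nat_lit 2) (nat_lit 0x200e8000a00800180080010002000200080f4783)))) 
(.nd (nat_lit 6) 
(.lf (nat_lit 3492742915) (dlOf (nat_lit 3) (nat_lit 0x808800054020004044000198180f3b80))) 
(.lf (nat_lit 3492742979) (dlOf (nat_lit 1) (nat_lit 0x2200180f3e01)))))) (.nd (nat_lit 7) 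
(.nd (nat_lit 8) (.nd (nat_lit 6) 
(.lf (nat_lit 473890819) (dlOf (nat_lit 2) (nat_lit 0x6a14c003f8818fc0000))) (.nd (nat_lit 21) 
(.lf (nat_lit 52363331) (dlOf (nat_lit 2) (nat_lit 0xae0500124819530600))) 
(.lf (nat_lit 473890883) (dlOf (nat_lit 4) (nat_lit 0x9706c80091c0813a8530062829604ec0d7000aa03002d0a60012835c001e808000800400040008fc0602))))) 
(.nd (nat_lit 10) 
(.lf (nat_lit 46072131) (dlOf (nat_lit 1) (nat_lit 0x128800807a400203b80009380c03))) 
(.lf (nat_lit 50267459) (dlOf (nat_lit 1) (nat_lit 0xc002000200094c3302))))) (.nd (nat_lit 6) 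
(.nd (nat_lit 26) (.nd (nat_lit 28) 
(.lf (nat_lit 2031747) (dlOf (nat_lit 1) (nat_lit 0x400200020008150102))) 
(.lf (nat_lit 1344209027) (dlOf (nat_lit 1) (nat_lit 0x8008000400200020008490103)))) 
(.lf (nat_lit 471793795) (dlOf (nat_lit 1) (nat_lit 0x8008000400200020008490103)))) 
(.nd (nat_lit 8) (.lf (nat_lit 31392963) (dlOf (nat_lit 1) (nat_lit 0x400400020008e92d02))) 
(.lf (nat_lit 3491692995) (dlOf (nat_lit 2) (nat_lit 0x780000004004002000200120008090902)))))))) 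
(.nd (nat_lit 9) (.nd (nat_lit 21) (.nd (nat_lit 20) (.nd (nat_lit 6) (.nd (nat_lit 31) 
(.nd (nat_lit 16) (.lf (nat_lit 42860551) (dlOf (nat_lit 1) (nat_lit 0x380009280001))) 
(.lf (nat_lit 5177351) (dlOf (nat_lit 1) (nat_lit 0x100080004002002c0008320003)))) 
(.nd (nat_lit 26) 
(.lf (nat_lit 2819489799) (dlOf (nat_lit 3) (nat_lit 0x260420031f8100160210018cc08043000800a0002002a00082b0283))) 
(.lf (nat_lit 3557687303) (dlOf (nat_lit 3) (nat_lit 0x26045005ea010016022802f2008043000800a0002002a00082b0283))))) 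
(.nd (nat_lit 7) 
(.lf (nat_lit 470745159) (dlOf (nat_lit 4) (nat_lit 0x13c0000001802003c1ec00470000000541000187b0000220400f8002004a0008170602))) 
(.lf (nat_lit 51250375) (dlOf (nat_lit 1) (nat_lit 0xc0019512d01))))) (.nd (nat_lit 6) 
(.nd (nat_lit 7) (.nd (nat_lit 10) 
(.lf (nat_lit 23003143) (dlOf (nat_lit 2) (nat_lit 0xfbc400000018b40000))) 
(.lf (nat_lit 56493063) (dlOf (nat_lit 1) (nat_lit 0x20009732881)))) 
(.lf (nat_lit 18743431) (dlOf (nat_lit 1) (nat_lit 0x800400020008970482)))) (.nd (nat_lit 7) 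
(.lf (nat_lit 4095607879) (dlOf (nat_lit 1) (nat_lit 0x4004000200080e2882))) 
(.lf (nat_lit 69076167) (dlOf (nat_lit 1) (nat_lit 0x3000188a2d01)))))) (.nd (nat_lit 6) 
(.nd (nat_lit 7) (.nd (nat_lit 8) (.nd (nat_lit 10) 
(.lf (nat_lit 15663111) (dlOf (nat_lit 1) (nat_lit 0x68004004c0018810282))) 
(.lf (nat_lit 19794951) (dlOf (nat_lit 1) (nat_lit 0x200089d5f81)))) 
(.lf (nat_lit 2754481415) (dlOf (nat_lit 1) (nat_lit 0x200080f6681)))) (.nd (nat_lit 8) 
(.nd (nat_lit 16) (.lf (nat_lit 19799175) (dlOf (nat_lit 1) (nat_lit 0x8004000400089dc202))) 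
(.lf (nat_lit 2754550919) (dlOf (nat_lit 1) (nat_lit 0x4004000200080fc202)))) 
(.lf (nat_lit 2754480519) (dlOf (nat_lit 1) (nat_lit 0x1c00280f4e81))))) (.nd (nat_lit 7) 
(.nd (nat_lit 8) (.nd (nat_lit 16) 
(.lf (nat_lit 4063303) (dlOf (nat_lit 2) (nat_lit 0x60b000018578000c282000c0e300030708001837c00301b200100710007032800094480050008008800200080008270c83))) 
(.lf (nat_lit 473890887) (dlOf (nat_lit 2) (nat_lit 0x1300a60098035c002b408006800400060008fc0602)))) 
(.lf (nat_lit 3492743495) (dlOf (nat_lit 1) (nat_lit 0x7c80080148002026000080f4d03)))) 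
(.nd (nat_lit 10) (.nd (nat_lit 12) 
(.lf (nat_lit 3080391) (dlOf (nat_lit 1) (nat_lit 0x400400020008200402))) 
(.lf (nat_lit 19796167) (dlOf (nat_lit 1) (nat_lit 0x100080004002000400089d7f83)))) 
(.lf (nat_lit 2754550983) (dlOf (nat_lit 1) (nat_lit 0x3400180fc201))))))) (.nd (nat_lit 7) 
(.nd (nat_lit 10) (.nd (nat_lit 8) (.nd (nat_lit 11) (.nd (nat_lit 20) 
(.lf (nat_lit 24052231) (dlOf (nat_lit 5) (nat_lit 0xf85d0001be18005a410000e1740006f860016804002385d0003c2c80059810006e174000300400ac00400020018b80d82))) 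
(.lf (nat_lit 3491693063) (dlOf (nat_lit 1) (nat_lit 0x20018090d81)))) 
(.lf (nat_lit 3492682247) (dlOf (nat_lit 1) (nat_lit 0xa00080fb281)))) (.nd (nat_lit 11) 
(.lf (nat_lit 19796743) (dlOf (nat_lit 1) (nat_lit 0x480080004002001000089d8f83))) 
(.lf (nat_lit 19798791) (dlOf (nat_lit 1) (nat_lit 0x80080004002000200089db983))))) 
(.nd (nat_lit 8) (.nd (nat_lit 11) (.nd (nat_lit 21) 
(.lf (nat_lit 4095673863) (dlOf (nat_lit 1) (nat_lit 0x4002000200080e3682))) 
(.lf (nat_lit 8324615) (dlOf (nat_lit 2) (nat_lit 0x8cdc00045bd00022828513680)))) 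
(.lf (nat_lit 19795463) (dlOf (nat_lit 1) (nat_lit 0x200089d7001)))) (.nd (nat_lit 6) 
(.lf (nat_lit 3492742919) (dlOf (nat_lit 4) (nat_lit 0x302200015008000819800080800001904000405c0000a0180f3b80))) 
(.lf (nat_lit 3492742983) (dlOf (nat_lit 2) (nat_lit 0x300e0000300800400080004002000800080f3e03)))))) 
(.nd (nat_lit 10) (.nd (nat_lit 6) (.nd (nat_lit 8) 
(.lf (nat_lit 19798663) (dlOf (nat_lit 1) (nat_lit 0x200289db681))) 
(.lf (nat_lit 2754550663) (dlOf (nat_lit 1) (nat_lit 0xad80080168002002400080fbc83)))) 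
(.nd (nat_lit 20) (.lf (nat_lit 19796679) (dlOf (nat_lit 1) (nat_lit 0x80080004002000200089d8c83))) 
(.lf (nat_lit 1344148167) (dlOf (nat_lit 1) (nat_lit 0x200183d8c81))))) (.nd (nat_lit 8) 
(.nd (nat_lit 6) 
(.lf (nat_lit 4095608455) (dlOf (nat_lit 1) (nat_lit 0xc8008000c002001400080e3a03))) 
(.nd (nat_lit 11) 
(.lf (nat_lit 3492677319) (dlOf (nat_lit 1) (nat_lit 0x80080004002000200080f3a83))) 
(.lf (nat_lit 2754547399) (dlOf (nat_lit 1) (nat_lit 0x80080014002000200080f7303))))) 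
(.nd (nat_lit 11) (.lf (nat_lit 3492681671) (dlOf (nat_lit 1) (nat_lit 0xc004000200080fa602))) 
(.lf (nat_lit 8261575) (dlOf (nat_lit 1) (nat_lit 0x400200020008517a82))))))))))) (.nd (nat_lit 2) 
(.nd (nat_lit 16) (.nd (nat_lit 6) (.nd (nat_lit 28) (.nd (nat_lit 21) (.nd (nat_lit 26) 
(.nd (nat_lit 30) (.nd (nat_lit 18) (.nd (nat_lit 19) (.nd (nat_lit 10) 
(.lf (nat_lit 47349763) (dlOf (nat_lit 3) (nat_lit 0x32f4c001177801916040008bd300045de0061c01000880080040002000a00093d0003))) 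
(.lf (nat_lit 51545091) (dlOf (nat_lit 1) (nat_lit 0x20019512881)))) (.nd (nat_lit 22) 
(.lf (nat_lit 134905859) (dlOf (nat_lit 1) (nat_lit 0x5800800bc002006a00080d0003))) 
(.lf (nat_lit 4882435) (dlOf (nat_lit 1) (nat_lit 0x80080004002000400082d0003))))) 
(.nd (nat_lit 19) (.nd (nat_lit 20) 
(.lf (nat_lit 2818998275) (dlOf (nat_lit 1) (nat_lit 0x20028150001))) 
(.lf (nat_lit 26640387) (dlOf (nat_lit 1) (nat_lit 0x1a80080004002002e0008c50003)))) 
(.lf (nat_lit 537821187) (dlOf (nat_lit 4) (nat_lit 0x6078000903b000281d400200e2000c07000010330004818800200c2000c00000ed289000603b00768c0800601d803a84040028004000400081b0002))))) 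
(.nd (nat_lit 8) (.nd (nat_lit 9) (.nd (nat_lit 27) 
(.lf (nat_lit 5368872963) (dlOf (nat_lit 1) (nat_lit 0x8008000c002000c0008060003))) 
(.lf (nat_lit 5503090691) (dlOf (nat_lit 1) (nat_lit 0x8008000c002000c0008060003)))) 
(.lf (nat_lit 3355612675) (dlOf (nat_lit 1) (nat_lit 0x80080004002000200080a9c03)))) 
(.nd (nat_lit 7) 
(.lf (nat_lit 3758266627) (dlOf (nat_lit 1) (nat_lit 0x1380080050002002c000812a983))) 
(.lf (nat_lit 3221651843) (dlOf (nat_lit 2) (nat_lit 0xa004600432018170780)))))) (.nd (nat_lit 18) 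
(.nd (nat_lit 19) (.nd (nat_lit 8) (.nd (nat_lit 27) 
(.lf (nat_lit 3288498179) (dlOf (nat_lit 1) (nat_lit 0x80018030001))) 
(.lf (nat_lit 2885844995) (dlOf (nat_lit 3) (nat_lit 0xe0300007017800380b8001805a000601a000400c0002005c0020026001000200070000076a45000280c000040340004005000100100769c2000700080008002000400080b0003)))) 
(.lf (nat_lit 2751629059) (dlOf (nat_lit 2) (nat_lit 0x41b800016018003b80)))) (.nd (nat_lit 20) 
(.lf (nat_lit 202014723) (dlOf (nat_lit 1) (nat_lit 0x5800800bc002006a00080d0003))) 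
(.lf (nat_lit 2753200131) (dlOf (nat_lit 1) (nat_lit 0x120018090001))))) (.nd (nat_lit 7) 
(.nd (nat_lit 27) 
(.lf (nat_lit 4362502147) (dlOf (nat_lit 1) (nat_lit 0x10008000400200020008090003))) 
(.lf (nat_lit 201752579) (dlOf (nat_lit 1) (nat_lit 0x58008001c00200760008090003)))) 
(.nd (nat_lit 27) 
(.lf (nat_lit 1678147971) (dlOf (nat_lit 6) (nat_lit 0xa402b0038cc08033815801c6404024c0ac00e2e0201320560071301002e02b00388c0801800080030002001800081a0783))) 
(.lf (nat_lit 3959849347) (dlOf (nat_lit 1) (nat_lit 0x24004000c0008170782))))))) (.nd (nat_lit 23) 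
(.nd (nat_lit 19) (.nd (nat_lit 9) (.nd (nat_lit 22) 
(.lf (nat_lit 52592643) (dlOf (nat_lit 7) (nat_lit 0xa5940072840800faca000294d201c98040008c13003860900182ca801d7e0c001182400e16020024c12007098100626098003b044001d6540188b29000153d806ea9a40000018026c00400160009550002))) 
(.lf (nat_lit 23232515) (dlOf (nat_lit 1) (nat_lit 0x8008000400200020008b70003)))) 
(.lf (nat_lit 2261507) (dlOf (nat_lit 1) (nat_lit 0x400401360008150d82)))) (.nd (nat_lit 8) 
(.nd (nat_lit 22) (.lf (nat_lit 3833859) (dlOf (nat_lit 1) (nat_lit 0x400400040008230002))) 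
(.lf (nat_lit 24805379) (dlOf (nat_lit 1) (nat_lit 0x180080004002000c0008bb0003)))) 
(.nd (nat_lit 7) (.lf (nat_lit 19831555) (dlOf (nat_lit 1) (nat_lit 0x200189db981))) 
(.lf (nat_lit 36342147) (dlOf (nat_lit 1) (nat_lit 0x20019074e81)))))) (.nd (nat_lit 19) 
(.nd (nat_lit 7) (.nd (nat_lit 22) 
(.lf (nat_lit 27426819) (dlOf (nat_lit 1) (nat_lit 0x20004000c0008ce0002))) 
(.lf (nat_lit 14843907) (dlOf (nat_lit 2) (nat_lit 0x4689006c2018780000)))) 
(.lf (nat_lit 44204163) (dlOf (nat_lit 1) (nat_lit 0x600092d0e01)))) (.nd (nat_lit 20) 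
(.nd (nat_lit 25) 
(.lf (nat_lit 15368195) (dlOf (nat_lit 1) (nat_lit 0x100080008002000400087e0003))) 
(.lf (nat_lit 48922627) (dlOf (nat_lit 1) (nat_lit 0x120029450001)))) (.nd (nat_lit 18) 
(.lf (nat_lit 16416771) (dlOf (nat_lit 1) (nat_lit 0x40002000600088a0002))) 
(.lf (nat_lit 29261827) (dlOf (nat_lit 8) (nat_lit 0xab9400055a6000ca0c0007505805498200012b8c00154180010a0b00a928300055060004282c02a460800055cc0004ae5000150a8000a8500015418000ea0b00a9106000157300547c080042b98002142a0151e040006ae6000350a805468100048008000400200020008de0003)))))))) 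
(.nd (nat_lit 27) (.nd (nat_lit 29) (.nd (nat_lit 18) (.nd (nat_lit 7) (.nd (nat_lit 9) 
(.lf (nat_lit 3491921923) (dlOf (nat_lit 1) (nat_lit 0x20018090001))) 
(.lf (nat_lit 3494019587) (dlOf (nat_lit 1) (nat_lit 0x4004000a00081b0d82)))) (.nd (nat_lit 10) 
(.lf (nat_lit 1342341507) (dlOf (nat_lit 2) (nat_lit 0x9068c0147804000800400160008015a82))) 
(.lf (nat_lit 5637309827) (dlOf (nat_lit 1) (nat_lit 0x800280d3581))))) (.nd (nat_lit 19) 
(.nd (nat_lit 26) 
(.lf (nat_lit 4563828739) (dlOf (nat_lit 3) (nat_lit 0x800c801d0408006806400180260040010003a00380f0000))) 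
(.lf (nat_lit 3557195779) (dlOf (nat_lit 1) (nat_lit 0x3c00400040008160002)))) 
(.lf (nat_lit 3491659779) (dlOf (nat_lit 1) (nat_lit 0x40028090001))))) (.nd (nat_lit 26) 
(.nd (nat_lit 30) (.lf (nat_lit 2952953859) (dlOf (nat_lit 1) (nat_lit 0x6d000400dc0008030002))) 
(.nd (nat_lit 31) (.lf (nat_lit 1879212035) (dlOf (nat_lit 1) (nat_lit 0x400200020008090002))) 
(.lf (nat_lit 4026695683) (dlOf (nat_lit 1) (nat_lit 0x80018030001))))) (.nd (nat_lit 19) 
(.lf (nat_lit 5167546371) (dlOf (nat_lit 1) (nat_lit 0x3200080a0001))) 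
(.lf (nat_lit 4095377411) (dlOf (nat_lit 1) (nat_lit 0x680080004002000a00080a0003)))))) 
(.nd (nat_lit 7) (.nd (nat_lit 26) (.nd (nat_lit 32) (.nd (nat_lit 9) 
(.lf (nat_lit 1476558851) (dlOf (nat_lit 1) (nat_lit 0x800200240008050002))) 
(.lf (nat_lit 3624043011) (dlOf (nat_lit 1) (nat_lit 0x4002000200080b0d82)))) (.nd (nat_lit 18) 
(.lf (nat_lit 5773099011) (dlOf (nat_lit 1) (nat_lit 0xc004000400080a0002))) 
(.lf (nat_lit 4698046467) (dlOf (nat_lit 3) (nat_lit 0x800c8033a808006806400180260040010006748380f0000))))) 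
(.nd (nat_lit 19) (.nd (nat_lit 32) 
(.lf (nat_lit 1006796803) (dlOf (nat_lit 1) (nat_lit 0x400200020008090002))) 
(.lf (nat_lit 5301764099) (dlOf (nat_lit 1) (nat_lit 0x20018090001)))) 
(.lf (nat_lit 472547331) (dlOf (nat_lit 1) (nat_lit 0xe80080010002000200089b0003))))) 
(.nd (nat_lit 8) (.nd (nat_lit 9) 
(.lf (nat_lit 2550564995) (dlOf (nat_lit 1) (nat_lit 0x2a00180f4781))) 
(.lf (nat_lit 6375769731) (dlOf (nat_lit 1) (nat_lit 0x20028003a01)))) (.nd (nat_lit 9) 
(.nd (nat_lit 10) (.nd (nat_lit 29) 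
(.lf (nat_lit 469926275) (dlOf (nat_lit 2) (nat_lit 0x906cc0094e04000800400160008015a82))) 
(.lf (nat_lit 5301764483) (dlOf (nat_lit 1) (nat_lit 0x8008001c002000e0008091003)))) 
(.lf (nat_lit 1543671171) (dlOf (nat_lit 3) (nat_lit 0x1b016000d80180001a0800100580000c0200020028146c01)))) 
(.lf (nat_lit 2617414531) (dlOf (nat_lit 1) (nat_lit 0x480080034002002a00080a9003)))))))) 
(.nd (nat_lit 28) (.nd (nat_lit 18) (.nd (nat_lit 7) (.nd (nat_lit 19) (.nd (nat_lit 8) 
(.nd (nat_lit 9) 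
(.lf (nat_lit 3288498243) (dlOf (nat_lit 2) (nat_lit 0x180200008005800000100158008005000200360008030e03))) 
(.lf (nat_lit 4362240579) (dlOf (nat_lit 1) (nat_lit 0x340008018c81)))) (.nd (nat_lit 9) 
(.lf (nat_lit 57836867) (dlOf (nat_lit 1) (nat_lit 0x400200020009793302))) 
(.lf (nat_lit 671254339) (dlOf (nat_lit 2) (nat_lit 0x80b80004804001800400060018143e02))))) 
(.nd (nat_lit 21) (.nd (nat_lit 26) 
(.lf (nat_lit 134905923) (dlOf (nat_lit 3) (nat_lit 0x800c400080000005d04004c031002d0088000881000080080008002000c00080d0c03))) 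
(.nd (nat_lit 27) 
(.lf (nat_lit 4362764355) (dlOf (nat_lit 2) (nat_lit 0x901980013c0801b0008000c002002000080f1883))) 
(.lf (nat_lit 202014787) (dlOf (nat_lit 3) (nat_lit 0x800c400080000005d04004c031002d0088000881000080080008002000c00080d0c03))))) 
(.nd (nat_lit 9) (.lf (nat_lit 2754248771) (dlOf (nat_lit 1) (nat_lit 0x1600180d0c01))) 
(.lf (nat_lit 23757379) (dlOf (nat_lit 1) (nat_lit 0x8008000400200020008b81103)))))) 
(.nd (nat_lit 8) (.nd (nat_lit 21) (.nd (nat_lit 11) 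
(.lf (nat_lit 3758265027) (dlOf (nat_lit 1) (nat_lit 0x20028128c81))) 
(.lf (nat_lit 170691) (dlOf (nat_lit 1) (nat_lit 0x26001800b981)))) (.nd (nat_lit 9) 
(.lf (nat_lit 2261187) (dlOf (nat_lit 1) (nat_lit 0x400402460008150402))) 
(.lf (nat_lit 20091587) (dlOf (nat_lit 1) (nat_lit 0x4002000200089d8c82))))) (.nd (nat_lit 9) 
(.nd (nat_lit 12) (.lf (nat_lit 41585091) (dlOf (nat_lit 1) (nat_lit 0x40019244e81))) 
(.lf (nat_lit 170435) (dlOf (nat_lit 1) (nat_lit 0x2000800af81)))) (.nd (nat_lit 10) 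
(.lf (nat_lit 170947) (dlOf (nat_lit 1) (nat_lit 0x2001800be01))) 
(.lf (nat_lit 169923) (dlOf (nat_lit 3) (nat_lit 0x653f002be808002a9f8015e40400140040010000800a602))))))) 
(.nd (nat_lit 22) (.nd (nat_lit 26) (.nd (nat_lit 23) (.nd (nat_lit 27) 
(.lf (nat_lit 4295393347) (dlOf (nat_lit 1) (nat_lit 0x10008002c002001a00081c0d03))) 
(.nd (nat_lit 29) 
(.lf (nat_lit 4429611075) (dlOf (nat_lit 1) (nat_lit 0x10008002c002001a00081c0d03))) 
(.lf (nat_lit 2818998339) (dlOf (nat_lit 1) (nat_lit 0x400200020008150582))))) (.nd (nat_lit 8) 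
(.lf (nat_lit 26640451) (dlOf (nat_lit 2) (nat_lit 0x12b85400078040018004000e0008c50582))) 
(.lf (nat_lit 8820035) (dlOf (nat_lit 1) (nat_lit 0x400200020008519902))))) (.nd (nat_lit 7) 
(.nd (nat_lit 9) 
(.lf (nat_lit 4362502211) (dlOf (nat_lit 1) (nat_lit 0x10008000400200020008090003))) 
(.lf (nat_lit 2752414275) (dlOf (nat_lit 2) (nat_lit 0xb815900002018018c80)))) 
(.lf (nat_lit 2753462723) (dlOf (nat_lit 6) (nat_lit 0xa10e00009c0800588700004c0400384380002402000221c0001181000a10e0000880800700080088002001e0008090903))))) 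
(.nd (nat_lit 21) (.nd (nat_lit 7) 
(.lf (nat_lit 21397827) (dlOf (nat_lit 2) (nat_lit 0x40918013180800e800800c8002004a0008a34c03))) 
(.lf (nat_lit 21397699) (dlOf (nat_lit 2) (nat_lit 0x40a780037c0800500080004002002c0008a31b83)))) 
(.nd (nat_lit 20) (.lf (nat_lit 48660547) (dlOf (nat_lit 2) (nat_lit 0x1360f80011e019420600))) 
(.lf (nat_lit 24543299) (dlOf (nat_lit 1) (nat_lit 0x4002000e0008ba0d02))))))) (.nd (nat_lit 27) 
(.nd (nat_lit 31) (.nd (nat_lit 9) (.nd (nat_lit 18) (.nd (nat_lit 19) 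
(.lf (nat_lit 268599363) (dlOf (nat_lit 2) (nat_lit 0xf00a0000000800180080004002000400080a1783))) 
(.lf (nat_lit 1344962627) (dlOf (nat_lit 3) (nat_lit 0xda09c004d04680360230004920c005029a030209c01240468007c018018800800a0002001c00089a0603)))) 
(.nd (nat_lit 26) (.lf (nat_lit 5637570627) (dlOf (nat_lit 1) (nat_lit 0x400400020018111782))) 
(.lf (nat_lit 6241550403) (dlOf (nat_lit 1) (nat_lit 0x1c004000e0018111802))))) (.nd (nat_lit 7) 
(.lf (nat_lit 1342341699) (dlOf (nat_lit 1) (nat_lit 0x80028018801))) 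
(.lf (nat_lit 805473987) (dlOf (nat_lit 2) (nat_lit 0x180000001404000400200020008117282))))) 
(.nd (nat_lit 7) (.nd (nat_lit 9) (.nd (nat_lit 19) 
(.lf (nat_lit 4026695747) (dlOf (nat_lit 2) (nat_lit 0x180200008005800000100158008005000200360008030e03))) 
(.lf (nat_lit 3492446275) (dlOf (nat_lit 1) (nat_lit 0x1600180d0c01)))) 
(.lf (nat_lit 3491922499) (dlOf (nat_lit 2) (nat_lit 0x41c700012018091100)))) (.nd (nat_lit 8) 
(.lf (nat_lit 3494019267) (dlOf (nat_lit 1) (nat_lit 0x28004014000081b0402))) (.nd (nat_lit 18) 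
(.lf (nat_lit 3491922371) (dlOf (nat_lit 5) (nat_lit 0x2c380000200200121c00000f81000c0e00000780800a07000000004000400400a00018090902))) 
(.lf (nat_lit 3491660227) (dlOf (nat_lit 6) (nat_lit 0xa10380009c08005881c0004c04003840e000240200022070001181000a1038000880800700080088002001e0008090903))))))) 
(.nd (nat_lit 19) (.nd (nat_lit 26) (.nd (nat_lit 7) 
(.lf (nat_lit 2550564675) (dlOf (nat_lit 4) (nat_lit 0x3c024001401100370080007003c011c01c000c00d0008004000b000c0006c200040024001601100020080003003c002001a000340a001601200090088006003c003001a0002b08001200280f3e01))) 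
(.lf (nat_lit 5234655427) (dlOf (nat_lit 1) (nat_lit 0x400200020008071b82)))) (.nd (nat_lit 21) 
(.lf (nat_lit 4764893251) (dlOf (nat_lit 2) (nat_lit 0x100580021a04000400200040008051802))) 
(.lf (nat_lit 1008894019) (dlOf (nat_lit 2) (nat_lit 0x20c10e0020086000aa028fc0600))))) 
(.nd (nat_lit 7) (.nd (nat_lit 18) (.nd (nat_lit 20) 
(.lf (nat_lit 6376030275) (dlOf (nat_lit 3) (nat_lit 0x60130004740800380980023804004400400040008051782))) 
(.lf (nat_lit 1008369731) (dlOf (nat_lit 2) (nat_lit 0xb80dd00124818b70600)))) 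
(.lf (nat_lit 473858115) (dlOf (nat_lit 3) (nat_lit 0x505340048e0401e029800e814b00d406b800550180008008000400200020008fc0603)))) 
(.nd (nat_lit 8) (.lf (nat_lit 1008633027) (dlOf (nat_lit 1) (nat_lit 0x400200020008e92d02))) 
(.lf (nat_lit 6378127811) (dlOf (nat_lit 3) (nat_lit 0x803a0010d01000601d000820080100008000c002000c0008117003))))))))) 
(.nd (nat_lit 18) (.nd (nat_lit 19) (.nd (nat_lit 29) (.nd (nat_lit 6) (.nd (nat_lit 28) 
(.nd (nat_lit 9) (.nd (nat_lit 7) 
(.lf (nat_lit 24346627) (dlOf (nat_lit 1) (nat_lit 0x20018b90001))) 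
(.lf (nat_lit 2326659) (dlOf (nat_lit 1) (nat_lit 0x400200020008150102)))) (.nd (nat_lit 8) 
(.lf (nat_lit 2327043) (dlOf (nat_lit 2) (nat_lit 0xec2b0005e818150d80))) 
(.lf (nat_lit 2281935619) (dlOf (nat_lit 1) (nat_lit 0x4004000200080a8f82))))) (.nd (nat_lit 10) 
(.nd (nat_lit 27) (.lf (nat_lit 1342406659) (dlOf (nat_lit 2) (nat_lit 0x41e300000018020000))) 
(.lf (nat_lit 4697849859) (dlOf (nat_lit 1) (nat_lit 0x1200080008002002000080a0003)))) 
(.nd (nat_lit 7) (.lf (nat_lit 6711116803) (dlOf (nat_lit 1) (nat_lit 0x400400020008092882))) 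
(.lf (nat_lit 474187395) (dlOf (nat_lit 1) (nat_lit 0x1600190e3a01)))))) (.nd (nat_lit 24) 
(.nd (nat_lit 28) (.nd (nat_lit 7) 
(.lf (nat_lit 1141080131) (dlOf (nat_lit 1) (nat_lit 0x80080004002000200080b0583))) 
(.lf (nat_lit 42173635) (dlOf (nat_lit 1) (nat_lit 0x40019242d01)))) (.nd (nat_lit 27) 
(.lf (nat_lit 6711115843) (dlOf (nat_lit 1) (nat_lit 0x1c0028090001))) 
(.lf (nat_lit 4697849923) (dlOf (nat_lit 1) (nat_lit 0x400280a1681))))) (.nd (nat_lit 7) 
(.nd (nat_lit 20) 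
(.lf (nat_lit 63144003) (dlOf (nat_lit 2) (nat_lit 0x24cfc0015102000400299e0601))) 
(.lf (nat_lit 24346691) (dlOf (nat_lit 1) (nat_lit 0x120028b90e01)))) 
(.lf (nat_lit 20157123) (dlOf (nat_lit 1) (nat_lit 0x80080004002000200089d8c83)))))) 
(.nd (nat_lit 26) (.nd (nat_lit 27) (.nd (nat_lit 7) 
(.lf (nat_lit 1881374723) (dlOf (nat_lit 1) (nat_lit 0x60008ee0001))) (.nd (nat_lit 8) 
(.lf (nat_lit 5905811587) (dlOf (nat_lit 1) (nat_lit 0x400200020008144782))) 
(.lf (nat_lit 4832067971) (dlOf (nat_lit 1) (nat_lit 0x8008002c002000c00080d1003))))) 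
(.nd (nat_lit 6) (.nd (nat_lit 9) 
(.lf (nat_lit 939753475) (dlOf (nat_lit 2) (nat_lit 0xc01080199c080048008003800200320008160003))) 
(.lf (nat_lit 671318531) (dlOf (nat_lit 1) (nat_lit 0x10000800c800200600008157f83)))) 
(.nd (nat_lit 30) (.lf (nat_lit 939753539) (dlOf (nat_lit 2) (nat_lit 0xc02600002018160800))) 
(.lf (nat_lit 2013495363) (dlOf (nat_lit 1) (nat_lit 0x80080004002000200080b0583)))))) 
(.nd (nat_lit 6) (.nd (nat_lit 10) (.nd (nat_lit 7) 
(.lf (nat_lit 1008959747) (dlOf (nat_lit 1) (nat_lit 0x20029000a81))) 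
(.lf (nat_lit 4899176579) (dlOf (nat_lit 1) (nat_lit 0xf800801ac002008000080d0303)))) 
(.nd (nat_lit 11) (.lf (nat_lit 2751693827) (dlOf (nat_lit 1) (nat_lit 0x400200020008002882))) 
(.lf (nat_lit 4899179523) (dlOf (nat_lit 1) (nat_lit 0x200280d5f81))))) (.nd (nat_lit 7) 
(.nd (nat_lit 9) (.lf (nat_lit 1812168771) (dlOf (nat_lit 2) (nat_lit 0xc02600002018160800))) 
(.lf (nat_lit 1677951555) (dlOf (nat_lit 1) (nat_lit 0x380018128c81)))) (.nd (nat_lit 22) 
(.lf (nat_lit 3020128451) (dlOf (nat_lit 1) (nat_lit 0x400200020008130402))) 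
(.lf (nat_lit 2755887299) (dlOf (nat_lit 1) (nat_lit 0x8004000400081b0402)))))))) (.nd (nat_lit 21) 
(.nd (nat_lit 28) (.nd (nat_lit 23) (.nd (nat_lit 20) (.nd (nat_lit 22) 
(.lf (nat_lit 3893067779) (dlOf (nat_lit 1) (nat_lit 0x400400100018360002))) 
(.lf (nat_lit 4947971) (dlOf (nat_lit 1) (nat_lit 0x200282d0001)))) 
(.lf (nat_lit 1802243) (dlOf (nat_lit 3) (nat_lit 0x2d82e0018c00000953f000729b402d0610003982e001cc00000c53f000a29b402bf810001400400160008140002)))) 
(.nd (nat_lit 6) (.nd (nat_lit 25) 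
(.lf (nat_lit 9142275) (dlOf (nat_lit 1) (nat_lit 0x38008001c00200060008520003))) 
(.lf (nat_lit 42696707) (dlOf (nat_lit 1) (nat_lit 0x20009270001)))) 
(.lf (nat_lit 59473987) (dlOf (nat_lit 2) (nat_lit 0xa495c00523f3000aa029800600))))) 
(.nd (nat_lit 26) (.nd (nat_lit 9) 
(.lf (nat_lit 1342930947) (dlOf (nat_lit 4) (nat_lit 0x331188022000801f88c4001845a0087e040016233000a116802030100008008003c00200100008110003))) 
(.lf (nat_lit 3491463683) (dlOf (nat_lit 2) (nat_lit 0x43da002040200500018090d81)))) 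
(.nd (nat_lit 29) 
(.lf (nat_lit 470515715) (dlOf (nat_lit 4) (nat_lit 0x33118803a940801f88c4001845a00ea3040016233000a1168038c4100008008003c00200100008110003))) 
(.lf (nat_lit 3154870275) (dlOf (nat_lit 1) (nat_lit 0x78004000a0008360002)))))) (.nd (nat_lit 20) 
(.nd (nat_lit 6) (.nd (nat_lit 7) (.nd (nat_lit 10) 
(.lf (nat_lit 15433731) (dlOf (nat_lit 1) (nat_lit 0x8004000200187f0002))) 
(.lf (nat_lit 36406275) (dlOf (nat_lit 1) (nat_lit 0x40019072881)))) 
(.lf (nat_lit 23822467) (dlOf (nat_lit 1) (nat_lit 0x23c00200ac0008b80102)))) (.nd (nat_lit 29) 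
(.lf (nat_lit 472612931) (dlOf (nat_lit 41) (nat_lit 0x9c02c004be0d9025706c013e82700a3811a04aa08c027e03e813781f0004922001f01b2014608d0027046005381f400740f8002480a03b216001c606c80df836007cc138040608d01ba04600f801f407940f8002471000220d90028046005201f400740f800245080038160001218100a5046807081f4004460801100f80020e0200440d9000ff0100a5046807081f4003f40800400fa001f8020052160000e0a68020027000e40fa007407c000fb85005b0b000390270020c11a00fe07d006c03e0007d42800281f0003e40408a82c003e214d019106c81220270095411a00da08c024403e811b81f0003e02001f42c0014a08d00a203e804781f0003de1000dc000001e90204c0156026009d813084e4098819a04c60960264042805b820c09680ea04b6073000e38900be0ab001f84e400f812c02e0075015503980071828024055801302760094139004b066802d0258016410a00a607500520398007144001a055800e4272008a09600cc03a805b81cc003861401fc0ea00fe073000e082016403a807201cc0037e0807d82ac007213b003d0668015025808c40ea0460073000de8600150ab00a801d405380e6001bc06001007c000dd8100a903e800581f00036e0800800e600199020172075001a0398005e81003681d4002f20401500e600176020056073000ba01001503a800681cc002e60800040ea0028073000b782002d0b1800b84bc00b424c005a0e5002d05e001002dc004814e005c023000aa0800070930004dc08001008c001e60400e0000000940200700000004881002103a80000c08052823403840fa02c2075002c0398000002002b800800fc002009200089c0603)))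 
(.lf (nat_lit 1009483843) (dlOf (nat_lit 2) (nat_lit 0xa01dc00478040004004000400191a0602))))) 
(.nd (nat_lit 7) (.nd (nat_lit 10) 
(.lf (nat_lit 3899395) (dlOf (nat_lit 1) (nat_lit 0x28008005400200060008250003))) 
(.lf (nat_lit 50037763) (dlOf (nat_lit 1) (nat_lit 0x4004000200094c2882)))) (.nd (nat_lit 8) 
(.lf (nat_lit 8094339) (dlOf (nat_lit 1) (nat_lit 0x700018511981))) 
(.lf (nat_lit 58427779) (dlOf (nat_lit 1) (nat_lit 0x2400197e4e81)))))))) (.nd (nat_lit 6) 
(.nd (nat_lit 19) (.nd (nat_lit 20) (.nd (nat_lit 26) (.nd (nat_lit 9) (.nd (nat_lit 21) 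
(.lf (nat_lit 134709251) (dlOf (nat_lit 1) (nat_lit 0x1800200320008090002))) 
(.lf (nat_lit 27754499) (dlOf (nat_lit 1) (nat_lit 0x10008000400200040008d20003)))) 
(.lf (nat_lit 4027023875) (dlOf (nat_lit 1) (nat_lit 0x18c004000e00081b0d82)))) (.nd (nat_lit 21) 
(.nd (nat_lit 29) (.lf (nat_lit 470253571) (dlOf (nat_lit 1) (nat_lit 0x7e00180c0001))) 
(.lf (nat_lit 4228349955) (dlOf (nat_lit 1) (nat_lit 0x2180080004002003c0008090003)))) 
(.lf (nat_lit 1009221635) (dlOf (nat_lit 3) (nat_lit 0x1e0e0003f8010006075801c980802500080008002001400090a0003))))) 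
(.nd (nat_lit 22) (.nd (nat_lit 21) 
(.lf (nat_lit 3491201027) (dlOf (nat_lit 1) (nat_lit 0x20018070001))) (.nd (nat_lit 25) 
(.lf (nat_lit 3637251) (dlOf (nat_lit 1) (nat_lit 0x10008000800200040008210003))) 
(.lf (nat_lit 37191683) (dlOf (nat_lit 1) (nat_lit 0x200290b0001))))) (.nd (nat_lit 23) 
(.lf (nat_lit 24608771) (dlOf (nat_lit 6) (nat_lit 0x2bbd00065d28000ad14030ca0c000977a0010ba500065a280619018002aef4002974a0010b4500c318300015ea0002aef4002974a0010b4500c310400035e78021940800480080058002000c0008ba0003))) 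
(.lf (nat_lit 49774595) (dlOf (nat_lit 1) (nat_lit 0x4004000200094b0002)))))) (.nd (nat_lit 20) 
(.nd (nat_lit 7) (.nd (nat_lit 22) (.nd (nat_lit 10) 
(.lf (nat_lit 42958851) (dlOf (nat_lit 1) (nat_lit 0x40029290001))) 
(.lf (nat_lit 5772379139) (dlOf (nat_lit 1) (nat_lit 0x400400020008092882)))) (.nd (nat_lit 21) 
(.lf (nat_lit 47153155) (dlOf (nat_lit 1) (nat_lit 0x200193b0001))) 
(.lf (nat_lit 24084483) (dlOf (nat_lit 1) (nat_lit 0xc000402520008b80002))))) (.nd (nat_lit 9) 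
(.lf (nat_lit 19893379) (dlOf (nat_lit 1) (nat_lit 0x27400189d6101))) 
(.lf (nat_lit 6376360579) (dlOf (nat_lit 1) (nat_lit 0x400200020008095482))))) (.nd (nat_lit 21) 
(.nd (nat_lit 7) (.nd (nat_lit 9) 
(.lf (nat_lit 69173251) (dlOf (nat_lit 1) (nat_lit 0x400088c0001))) 
(.lf (nat_lit 2753528323) (dlOf (nat_lit 1) (nat_lit 0x400200020008090d82)))) 
(.lf (nat_lit 2753527939) (dlOf (nat_lit 1) (nat_lit 0x8008001000200020008090103)))) 
(.nd (nat_lit 24) 
(.lf (nat_lit 473923587) (dlOf (nat_lit 5) (nat_lit 0x2033c011320401942b000c80cf004448200650ac002f033c008812c007fd06000a16000382018fc0000))) 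
(.lf (nat_lit 20938755) (dlOf (nat_lit 1) (nat_lit 0xc00189f0001))))))) (.nd (nat_lit 19) 
(.nd (nat_lit 8) (.nd (nat_lit 20) (.nd (nat_lit 21) (.nd (nat_lit 7) (.nd (nat_lit 26) 
(.lf (nat_lit 1611104323) (dlOf (nat_lit 1) (nat_lit 0x1c8008004c002004000080e1783))) 
(.lf (nat_lit 738689091) (dlOf (nat_lit 2) (nat_lit 0x120280004040800700080068002002800080e1803)))) 
(.lf (nat_lit 8884931) (dlOf (nat_lit 1) (nat_lit 0x8008000c00200020008518c83)))) (.nd (nat_lit 24) 
(.lf (nat_lit 2588739) (dlOf (nat_lit 1) (nat_lit 0x1e0008170d01))) 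
(.lf (nat_lit 19365955) (dlOf (nat_lit 1) (nat_lit 0x48008000c002000c0008990e83))))) 
(.nd (nat_lit 23) (.lf (nat_lit 35094595) (dlOf (nat_lit 1) (nat_lit 0x6400400020018fd0602))) 
(.lf (nat_lit 9928771) (dlOf (nat_lit 5) (nat_lit 0x103a600061ca00040e2800205e00023e1000183ac000c1d300010e50002871400142f00011e0a00101d600070e50004071400202f00011d0800101d600060e500038714001c2f00011c0800260008591781))))) 
(.nd (nat_lit 31) (.nd (nat_lit 7) 
(.lf (nat_lit 493379) (dlOf (nat_lit 4) (nat_lit 0x56910006f484000fa400021d1f0004e8e8007f47000179db000bc1d800080000006c240023488000da400005ced8000d018003e91000174800019a3a000aced8000ac200008008001c00200140008003e03))) 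
(.lf (nat_lit 872907203) (dlOf (nat_lit 1) (nat_lit 0x20004000800180f7a82)))) (.nd (nat_lit 27) 
(.lf (nat_lit 2416410947) (dlOf (nat_lit 1) (nat_lit 0x8004000400181b0602))) 
(.lf (nat_lit 2550628675) (dlOf (nat_lit 1) (nat_lit 0x8004000400181b0602)))))) (.nd (nat_lit 9) 
(.nd (nat_lit 20) (.nd (nat_lit 22) 
(.lf (nat_lit 59736131) (dlOf (nat_lit 1) (nat_lit 0x1000200020009820602))) 
(.lf (nat_lit 13598787) (dlOf (nat_lit 6) (nat_lit 0x113e31808cef58000c20801eb8c600fdbd600030020002e318003ef58000500801d78c600f9bd600011020007e31800000080048008008c00200340008730c03)))) 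
(.nd (nat_lit 21) 
(.lf (nat_lit 14647363) (dlOf (nat_lit 3) (nat_lit 0x13d1be00066ef0001e0200013778000ec080198008011400200080008770583))) 
(.lf (nat_lit 12550211) (dlOf (nat_lit 1) (nat_lit 0x200286d0d01))))) (.nd (nat_lit 7) 
(.nd (nat_lit 8) (.lf (nat_lit 24085059) (dlOf (nat_lit 1) (nat_lit 0x38008000800200300008b81103))) 
(.lf (nat_lit 3492775747) (dlOf (nat_lit 1) (nat_lit 0xc002000e00080f3e02)))) 
(.lf (nat_lit 19894979) (dlOf (nat_lit 1) (nat_lit 0x4002000200089d8c82))))))))) (.nd (nat_lit 6) 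
(.nd (nat_lit 18) (.nd (nat_lit 16) (.nd (nat_lit 29) (.nd (nat_lit 21) (.nd (nat_lit 7) 
(.nd (nat_lit 10) (.nd (nat_lit 19) (.nd (nat_lit 20) 
(.lf (nat_lit 21135367) (dlOf (nat_lit 1) (nat_lit 0x8008000800200020008a10003))) 
(.lf (nat_lit 47349767) (dlOf (nat_lit 1) (nat_lit 0x600093d0001)))) 
(.lf (nat_lit 21659655) (dlOf (nat_lit 2) (nat_lit 0x29550002d0040044002000a0008a60582)))) 
(.nd (nat_lit 9) (.lf (nat_lit 38437895) (dlOf (nat_lit 1) (nat_lit 0x400200020009132882))) 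
(.lf (nat_lit 474121735) (dlOf (nat_lit 1) (nat_lit 0x4004000200190e3682))))) (.nd (nat_lit 8) 
(.nd (nat_lit 20) (.lf (nat_lit 5435981959) (dlOf (nat_lit 1) (nat_lit 0x20008090381))) 
(.lf (nat_lit 9601159) (dlOf (nat_lit 2) (nat_lit 0x18f3c0006404001800200040008570e02)))) 
(.nd (nat_lit 19) (.lf (nat_lit 4362240391) (dlOf (nat_lit 2) (nat_lit 0x1603300034018015b80))) 
(.lf (nat_lit 3491398023) (dlOf (nat_lit 1) (nat_lit 0x400400020008090782)))))) (.nd (nat_lit 19) 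
(.nd (nat_lit 22) (.nd (nat_lit 9) 
(.lf (nat_lit 3491921927) (dlOf (nat_lit 2) (nat_lit 0x21c00064b018090000))) 
(.lf (nat_lit 3491922439) (dlOf (nat_lit 3) (nat_lit 0x30710002d0040014388000170200020028090d81)))) 
(.nd (nat_lit 7) (.lf (nat_lit 15892487) (dlOf (nat_lit 1) (nat_lit 0x20018840281))) 
(.lf (nat_lit 40010887) (dlOf (nat_lit 1) (nat_lit 0x1400091f2b01))))) (.nd (nat_lit 10) 
(.nd (nat_lit 20) (.lf (nat_lit 27951111) (dlOf (nat_lit 1) (nat_lit 0x400400040008d40002))) 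
(.nd (nat_lit 22) (.lf (nat_lit 3833863) (dlOf (nat_lit 1) (nat_lit 0x400200020008230002))) 
(.lf (nat_lit 16416775) (dlOf (nat_lit 1) (nat_lit 0x10004000200088a0002))))) (.nd (nat_lit 20) 
(.lf (nat_lit 36340743) (dlOf (nat_lit 1) (nat_lit 0x800200020009072882))) 
(.lf (nat_lit 8029191) (dlOf (nat_lit 1) (nat_lit 0x120018512881))))))) (.nd (nat_lit 27) 
(.nd (nat_lit 7) (.nd (nat_lit 26) (.nd (nat_lit 28) 
(.lf (nat_lit 2684518407) (dlOf (nat_lit 3) (nat_lit 0xf806600cc902001403300664018080000))) 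
(.lf (nat_lit 2952953863) (dlOf (nat_lit 1) (nat_lit 0x8000200340008030002)))) 
(.lf (nat_lit 5167546375) (dlOf (nat_lit 1) (nat_lit 0x4002000200080a0582)))) (.nd (nat_lit 8) 
(.nd (nat_lit 30) 
(.lf (nat_lit 5100437639) (dlOf (nat_lit 1) (nat_lit 0x8008001400200040008080e03))) 
(.lf (nat_lit 6174179463) (dlOf (nat_lit 1) (nat_lit 0x1000400020008080f02)))) 
(.lf (nat_lit 2753200519) (dlOf (nat_lit 1) (nat_lit 0x400400020008090782))))) (.nd (nat_lit 8) 
(.nd (nat_lit 7) (.nd (nat_lit 26) 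
(.lf (nat_lit 2818736647) (dlOf (nat_lit 2) (nat_lit 0x600b00038054001c01c001000c00040030002801000300000012d0e000200280e8001))) 
(.lf (nat_lit 2885845511) (dlOf (nat_lit 2) (nat_lit 0x40380007302000200280b0d81)))) 
(.lf (nat_lit 6308397191) (dlOf (nat_lit 2) (nat_lit 0x43403a000e01a000200a0000c8180010008001000200300008070e03)))) 
(.nd (nat_lit 9) (.lf (nat_lit 2818736391) (dlOf (nat_lit 1) (nat_lit 0x21800080e3581))) 
(.lf (nat_lit 671254279) (dlOf (nat_lit 1) (nat_lit 0x180080030002000a0008143b83))))))) 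
(.nd (nat_lit 7) (.nd (nat_lit 19) (.nd (nat_lit 8) (.nd (nat_lit 10) 
(.lf (nat_lit 4697849863) (dlOf (nat_lit 4) (nat_lit 0xc03300e0b0100060198070540800400cc0381a040050004000c00080a0002))) 
(.lf (nat_lit 474186759) (dlOf (nat_lit 1) (nat_lit 0xc004000600090e2882)))) (.nd (nat_lit 10) 
(.nd (nat_lit 20) (.lf (nat_lit 1008959751) (dlOf (nat_lit 1) (nat_lit 0x20029000a81))) 
(.lf (nat_lit 22249735) (dlOf (nat_lit 1) (nat_lit 0x220028ab7281)))) 
(.lf (nat_lit 3422786823) (dlOf (nat_lit 2) (nat_lit 0xe03b0002d0180a9600))))) (.nd (nat_lit 21) 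
(.nd (nat_lit 9) (.nd (nat_lit 22) 
(.lf (nat_lit 2819325959) (dlOf (nat_lit 3) (nat_lit 0x2042005ea010002021002f200802a800801f800200820008240283))) 
(.lf (nat_lit 21725191) (dlOf (nat_lit 1) (nat_lit 0x400200020008a60582)))) 
(.lf (nat_lit 51085831) (dlOf (nat_lit 4) (nat_lit 0xe5be80022df00181c0800996f200229ca0053c02000a5bc8000a728014cc080068004000200094f7b02)))) 
(.nd (nat_lit 8) 
(.lf (nat_lit 472612871) (dlOf (nat_lit 2) (nat_lit 0x1011a003807c0065c8289c0000))) 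
(.lf (nat_lit 36406535) (dlOf (nat_lit 1) (nat_lit 0x20019072f81)))))) (.nd (nat_lit 8) 
(.nd (nat_lit 11) (.nd (nat_lit 21) 
(.lf (nat_lit 9666695) (dlOf (nat_lit 3) (nat_lit 0x129350001b010015451800621c000a50680042748007c1e78000c82800180080004002000a0008570e03))) 
(.lf (nat_lit 62095495) (dlOf (nat_lit 1) (nat_lit 0x40029950e01)))) (.nd (nat_lit 9) 
(.lf (nat_lit 3624111239) (dlOf (nat_lit 2) (nat_lit 0x700e800000080108008006000200140008146183))) 
(.lf (nat_lit 5436050055) (dlOf (nat_lit 1) (nat_lit 0xa8008002c002005e0008095483))))) 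
(.nd (nat_lit 28) (.nd (nat_lit 19) 
(.lf (nat_lit 3288564103) (dlOf (nat_lit 1) (nat_lit 0x400400020008090782))) 
(.lf (nat_lit 8094087) (dlOf (nat_lit 1) (nat_lit 0x400200020008511002)))) (.nd (nat_lit 10) 
(.lf (nat_lit 4026761607) (dlOf (nat_lit 1) (nat_lit 0x400400020008090782))) 
(.lf (nat_lit 5234722183) (dlOf (nat_lit 1) (nat_lit 0x200180d3601)))))))) (.nd (nat_lit 30) 
(.nd (nat_lit 16) (.nd (nat_lit 7) (.nd (nat_lit 23) (.nd (nat_lit 9) (.nd (nat_lit 22) 
(.nd (nat_lit 27) 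
(.lf (nat_lit 4563828743) (dlOf (nat_lit 3) (nat_lit 0x640188008100802480c400164040124004007e00080f0582))) 
(.lf (nat_lit 4698046471) (dlOf (nat_lit 3) (nat_lit 0x640188008140802480c400164040124004007e00080f0582)))) 
(.lf (nat_lit 21397511) (dlOf (nat_lit 1) (nat_lit 0x20018a30001)))) (.nd (nat_lit 19) 
(.lf (nat_lit 201753095) (dlOf (nat_lit 2) (nat_lit 0xf6031000a1818090d80))) 
(.lf (nat_lit 537821703) (dlOf (nat_lit 2) (nat_lit 0x24056000cf02000200181b0d81))))) 
(.nd (nat_lit 8) (.nd (nat_lit 19) 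
(.lf (nat_lit 10911751) (dlOf (nat_lit 1) (nat_lit 0x600008640001))) 
(.lf (nat_lit 29261831) (dlOf (nat_lit 1) (nat_lit 0xa800200440008de0002)))) 
(.lf (nat_lit 8819975) (dlOf (nat_lit 1) (nat_lit 0xc40008519601))))) (.nd (nat_lit 21) 
(.nd (nat_lit 26) 
(.lf (nat_lit 805732743) (dlOf (nat_lit 2) (nat_lit 0x6c0ac000c013004050281a0780))) 
(.lf (nat_lit 4362502535) (dlOf (nat_lit 1) (nat_lit 0x20028090781)))) (.nd (nat_lit 8) 
(.lf (nat_lit 40273031) (dlOf (nat_lit 1) (nat_lit 0x600291f2b01))) 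
(.lf (nat_lit 3047815) (dlOf (nat_lit 1) (nat_lit 0x80080598002014c0008200783)))))) 
(.nd (nat_lit 26) (.nd (nat_lit 7) (.nd (nat_lit 8) 
(.lf (nat_lit 134709767) (dlOf (nat_lit 5) (nat_lit 0x2204a00102010005020800580fc002d208002408200018020054041002101e80005c100448008012c00200080008090d83))) 
(.lf (nat_lit 46107399) (dlOf (nat_lit 1) (nat_lit 0x20019385b01)))) 
(.lf (nat_lit 47153287) (dlOf (nat_lit 1) (nat_lit 0xa00293b0f01)))) (.nd (nat_lit 7) 
(.nd (nat_lit 21) (.nd (nat_lit 27) 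
(.lf (nat_lit 4362567687) (dlOf (nat_lit 1) (nat_lit 0x60028090001))) 
(.lf (nat_lit 738689031) (dlOf (nat_lit 1) (nat_lit 0x8000800a0002004e00080e0003)))) 
(.lf (nat_lit 1009221639) (dlOf (nat_lit 1) (nat_lit 0x400290a0001)))) 
(.lf (nat_lit 2886172807) (dlOf (nat_lit 2) (nat_lit 0x403d0052b818183d00)))))) (.nd (nat_lit 7) 
(.nd (nat_lit 16) (.nd (nat_lit 26) (.nd (nat_lit 19) 
(.lf (nat_lit 1343651847) (dlOf (nat_lit 10) (nat_lit 0x60274003011c001407e005d2830008047002e68080090274003011c002207e005ca83000f04e802e1c080078274016c604000413a00b4702001c09d000e047000601f80168a0c000413a000207e005a1820001047002ce8080288008012c002000e00082d0283))) 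
(.lf (nat_lit 5773361159) (dlOf (nat_lit 1) (nat_lit 0xa00080c0001)))) (.nd (nat_lit 8) 
(.lf (nat_lit 6377340935) (dlOf (nat_lit 1) (nat_lit 0xa00080c0001))) 
(.lf (nat_lit 4094593799) (dlOf (nat_lit 1) (nat_lit 0x40018055b01))))) (.nd (nat_lit 9) 
(.nd (nat_lit 21) (.nd (nat_lit 26) 
(.lf (nat_lit 1611104263) (dlOf (nat_lit 1) (nat_lit 0x8000800a0002004e00080e0003))) 
(.lf (nat_lit 4228349959) (dlOf (nat_lit 1) (nat_lit 0x60028090001)))) 
(.lf (nat_lit 1344765959) (dlOf (nat_lit 1) (nat_lit 0x1c0018980001)))) (.nd (nat_lit 8) 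
(.lf (nat_lit 1345815047) (dlOf (nat_lit 1) (nat_lit 0x7800400060008e07b02))) 
(.lf (nat_lit 3492775687) (dlOf (nat_lit 2) (nat_lit 0x2502f0000500800400080010002000600080f3b83)))))) 
(.nd (nat_lit 8) (.nd (nat_lit 28) (.nd (nat_lit 26) 
(.lf (nat_lit 3221717127) (dlOf (nat_lit 2) (nat_lit 0x1600000000004004c00200040008170102))) 
(.lf (nat_lit 3959914631) (dlOf (nat_lit 2) (nat_lit 0x1600000000004004c00200040008170102)))) 
(.nd (nat_lit 16) 
(.lf (nat_lit 5773361287) (dlOf (nat_lit 1) (nat_lit 0x80080004002000200080c0e03))) 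
(.lf (nat_lit 3624370311) (dlOf (nat_lit 2) (nat_lit 0x403d00261018183d00))))) (.nd (nat_lit 26) 
(.nd (nat_lit 19) 
(.lf (nat_lit 3221651847) (dlOf (nat_lit 5) (nat_lit 0x14604600740228020301003481140101604008408c01400450040502000a022802024080238008003000200320008170783))) 
(.lf (nat_lit 5772312967) (dlOf (nat_lit 3) (nat_lit 0x2d04c4002c004008c25e0009c02000c0008091001)))) 
(.nd (nat_lit 27) 
(.lf (nat_lit 1678147975) (dlOf (nat_lit 2) (nat_lit 0x6c0ac000c013007178281a0780))) 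
(.nd (nat_lit 28) 
(.lf (nat_lit 3959849351) (dlOf (nat_lit 5) (nat_lit 0x14604600740228038c410034811401c6004008408c01400450071782000a0228038b8080238008003000200320008170783))) 
(.lf (nat_lit 4228284807) (dlOf (nat_lit 1) (nat_lit 0x20028090781)))))))))) (.nd (nat_lit 18) 
(.nd (nat_lit 16) (.nd (nat_lit 26) (.nd (nat_lit 19) (.nd (nat_lit 9) (.nd (nat_lit 27) 
(.nd (nat_lit 7) (.nd (nat_lit 21) 
(.lf (nat_lit 4026695751) (dlOf (nat_lit 1) (nat_lit 0x1e0028030f01))) 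
(.lf (nat_lit 52592711) (dlOf (nat_lit 2) (nat_lit 0x718220002a69000ad029550600)))) 
(.lf (nat_lit 167111) (dlOf (nat_lit 1) (nat_lit 0xea0018006381)))) (.nd (nat_lit 8) 
(.lf (nat_lit 1476558919) (dlOf (nat_lit 3) (nat_lit 0x40160000680800080000000004001000200140008050602))) 
(.lf (nat_lit 2550300999) (dlOf (nat_lit 1) (nat_lit 0x400400020008047f02))))) (.nd (nat_lit 7) 
(.nd (nat_lit 8) (.lf (nat_lit 134382151) (dlOf (nat_lit 1) (nat_lit 0x420018018801))) 
(.lf (nat_lit 165703) (dlOf (nat_lit 1) (nat_lit 0x320018003e01)))) (.nd (nat_lit 8) 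
(.lf (nat_lit 20091591) (dlOf (nat_lit 1) (nat_lit 0x4002000200089d8c82))) 
(.lf (nat_lit 169927) (dlOf (nat_lit 2) (nat_lit 0x353f002bcc080010008000c002000a000800a603)))))) 
(.nd (nat_lit 20) (.nd (nat_lit 21) (.nd (nat_lit 22) 
(.lf (nat_lit 134905927) (dlOf (nat_lit 2) (nat_lit 0xd018800880440002e080050004002800080d0c82))) 
(.lf (nat_lit 4882503) (dlOf (nat_lit 1) (nat_lit 0x4e00082d0601)))) 
(.lf (nat_lit 3492446279) (dlOf (nat_lit 1) (nat_lit 0x4004000200180d0c82)))) (.nd (nat_lit 7) 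
(.lf (nat_lit 1880784967) (dlOf (nat_lit 1) (nat_lit 0x400400ac0018b90602))) 
(.lf (nat_lit 58361031) (dlOf (nat_lit 1) (nat_lit 0xa80080038002004200097e2d03)))))) 
(.nd (nat_lit 27) (.nd (nat_lit 29) (.nd (nat_lit 9) (.nd (nat_lit 21) 
(.lf (nat_lit 3288498247) (dlOf (nat_lit 1) (nat_lit 0x1e0028030f01))) 
(.lf (nat_lit 69369927) (dlOf (nat_lit 1) (nat_lit 0xbc0018940601)))) 
(.lf (nat_lit 4362240583) (dlOf (nat_lit 5) (nat_lit 0x15e0320001201008301900008c0801c00c80003c0400640640001d0200040028018d01)))) 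
(.nd (nat_lit 10) (.nd (nat_lit 19) 
(.lf (nat_lit 604143687) (dlOf (nat_lit 1) (nat_lit 0x18002000c0008030602))) 
(.lf (nat_lit 2754248775) (dlOf (nat_lit 1) (nat_lit 0x4004000200180d0c82)))) 
(.lf (nat_lit 2751628359) (dlOf (nat_lit 1) (nat_lit 0x180080010002000a0008002883))))) 
(.nd (nat_lit 9) (.nd (nat_lit 10) 
(.lf (nat_lit 202014791) (dlOf (nat_lit 2) (nat_lit 0xd018800880440002e080050004002800080d0c82))) 
(.lf (nat_lit 5301765191) (dlOf (nat_lit 1) (nat_lit 0x8008000400200020008092883)))) 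
(.nd (nat_lit 28) 
(.lf (nat_lit 201491015) (dlOf (nat_lit 2) (nat_lit 0xe81280008404000800200020008018d02))) 
(.lf (nat_lit 469926471) (dlOf (nat_lit 1) (nat_lit 0xa0008018d01))))))) (.nd (nat_lit 8) 
(.nd (nat_lit 20) (.nd (nat_lit 29) (.nd (nat_lit 19) (.nd (nat_lit 27) 
(.lf (nat_lit 4295196743) (dlOf (nat_lit 1) (nat_lit 0x180080008002000400080a0e03))) 
(.lf (nat_lit 4697849927) (dlOf (nat_lit 1) (nat_lit 0x94002022c00080a1682)))) 
(.lf (nat_lit 2850887) (dlOf (nat_lit 1) (nat_lit 0x50002003800081c0c82)))) (.nd (nat_lit 9) 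
(.lf (nat_lit 4832068679) (dlOf (nat_lit 1) (nat_lit 0x80080004002000200080d2883))) 
(.nd (nat_lit 26) (.lf (nat_lit 671318599) (dlOf (nat_lit 2) (nat_lit 0x200500035018158d00))) 
(.lf (nat_lit 1677951559) (dlOf (nat_lit 2) (nat_lit 0xd0288000740800c8008005000200100008128d03)))))) 
(.nd (nat_lit 7) (.nd (nat_lit 19) 
(.lf (nat_lit 24346695) (dlOf (nat_lit 4) (nat_lit 0x4a7e0001701000253f0000b408001ac4c0002204003800200040008b90e02))) 
(.nd (nat_lit 26) 
(.lf (nat_lit 5773164615) (dlOf (nat_lit 1) (nat_lit 0x80080004002000200080b0603))) 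
(.lf (nat_lit 6377144391) (dlOf (nat_lit 1) (nat_lit 0x80080004002000200080b0603))))) 
(.nd (nat_lit 12) (.lf (nat_lit 8094407) (dlOf (nat_lit 1) (nat_lit 0x480018511f01))) 
(.lf (nat_lit 20157127) (dlOf (nat_lit 1) (nat_lit 0x80080004002000200089d8c83)))))) 
(.nd (nat_lit 27) (.nd (nat_lit 7) (.nd (nat_lit 9) (.nd (nat_lit 10) 
(.lf (nat_lit 3825434951) (dlOf (nat_lit 2) (nat_lit 0x5c00d80273c0801880080208002005c0008154c03))) 
(.lf (nat_lit 3489897799) (dlOf (nat_lit 1) (nat_lit 0x8008001c0020002000800c903)))) 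
(.lf (nat_lit 8094535) (dlOf (nat_lit 1) (nat_lit 0x700018512381)))) (.nd (nat_lit 9) 
(.lf (nat_lit 3489892807) (dlOf (nat_lit 1) (nat_lit 0x20028004e81))) 
(.lf (nat_lit 8094663) (dlOf (nat_lit 1) (nat_lit 0x760018512801))))) (.nd (nat_lit 29) 
(.nd (nat_lit 10) (.lf (nat_lit 1543733575) (dlOf (nat_lit 1) (nat_lit 0x400400020018154c02))) 
(.lf (nat_lit 3624111431) (dlOf (nat_lit 1) (nat_lit 0x8008000400200020008146983)))) 
(.nd (nat_lit 28) (.lf (nat_lit 671318343) (dlOf (nat_lit 1) (nat_lit 0x400400020018154c02))) 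
(.lf (nat_lit 3087237447) (dlOf (nat_lit 2) (nat_lit 0x5c00d8010e00801880080208002005c0008154c03)))))))) 
(.nd (nat_lit 19) (.nd (nat_lit 16) (.nd (nat_lit 7) (.nd (nat_lit 9) (.nd (nat_lit 21) 
(.nd (nat_lit 20) 
(.lf (nat_lit 54952007) (dlOf (nat_lit 1) (nat_lit 0x10008000400200020009670603))) 
(.lf (nat_lit 26640455) (dlOf (nat_lit 3) (nat_lit 0x2c860000a01000470a8000400800380080018002000e0008c50603)))) 
(.nd (nat_lit 8) (.lf (nat_lit 49709127) (dlOf (nat_lit 1) (nat_lit 0x1040019480601))) 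
(.lf (nat_lit 20354375) (dlOf (nat_lit 1) (nat_lit 0x200089d9901))))) (.nd (nat_lit 22) 
(.nd (nat_lit 26) 
(.lf (nat_lit 134644295) (dlOf (nat_lit 3) (nat_lit 0x10c094017c02f000120200b90178000000800c00080018002006a0008091103))) 
(.lf (nat_lit 201753159) (dlOf (nat_lit 3) (nat_lit 0x10c094017c02f000120200b90178000000800c00080018002006a0008091103)))) 
(.lf (nat_lit 21398087) (dlOf (nat_lit 3) (nat_lit 0x4123002568100020918012900800280080038002001c0008a38803))))) 
(.nd (nat_lit 26) (.nd (nat_lit 8) 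
(.lf (nat_lit 1611038919) (dlOf (nat_lit 1) (nat_lit 0x4004000200080c1782))) (.nd (nat_lit 28) 
(.lf (nat_lit 3221651911) (dlOf (nat_lit 5) (nat_lit 0x801180001004001008c00006020008046000020100080230000000801f0008002c002002c0008170983))) 
(.lf (nat_lit 805732807) (dlOf (nat_lit 8) (nat_lit 0x10048000440401580ac000080200b00560000381005802b0000180802c01580000a0401600ac000040200ae056005e0098000001002480080050002004a00081a0983))))) 
(.nd (nat_lit 27) 
(.lf (nat_lit 1678148039) (dlOf (nat_lit 8) (nat_lit 0x10048000440401580ac000080200b00560000381005802b0000180802c01580000a0401600ac000040200ae056005e0098000001002480080050002004a00081a0983))) 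
(.lf (nat_lit 3959849415) (dlOf (nat_lit 5) (nat_lit 0x801180001004001008c00006020008046000020100080230000000801f0008002c002002c0008170983)))))) 
(.nd (nat_lit 11) (.nd (nat_lit 21) (.nd (nat_lit 8) 
(.lf (nat_lit 35094599) (dlOf (nat_lit 1) (nat_lit 0xb400400140008fd0602))) 
(.lf (nat_lit 3624370503) (dlOf (nat_lit 1) (nat_lit 0x8008000400200020008187f03)))) 
(.nd (nat_lit 23) (.lf (nat_lit 37191751) (dlOf (nat_lit 1) (nat_lit 0x4002000200090b0602))) 
(.lf (nat_lit 12025927) (dlOf (nat_lit 1) (nat_lit 0x200286c0001))))) (.nd (nat_lit 7) 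
(.nd (nat_lit 26) (.lf (nat_lit 1344768583) (dlOf (nat_lit 1) (nat_lit 0x1400200020008985202))) 
(.lf (nat_lit 472353351) (dlOf (nat_lit 1) (nat_lit 0x70008000400200100008985203)))) 
(.nd (nat_lit 8) (.lf (nat_lit 3490155719) (dlOf (nat_lit 1) (nat_lit 0x120018006381))) 
(.lf (nat_lit 20417991) (dlOf (nat_lit 1) (nat_lit 0x800289d6d01))))))) (.nd (nat_lit 16) 
(.nd (nat_lit 7) (.nd (nat_lit 26) (.nd (nat_lit 10) 
(.lf (nat_lit 47087687) (dlOf (nat_lit 3) (nat_lit 0x2c4c30002381001d2618001180800100080008002000200093a0603))) 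
(.lf (nat_lit 5772313671) (dlOf (nat_lit 1) (nat_lit 0x8008000400200020008092883)))) 
(.nd (nat_lit 9) (.lf (nat_lit 473858119) (dlOf (nat_lit 1) (nat_lit 0x80008fc0601))) 
(.lf (nat_lit 2752414279) (dlOf (nat_lit 28) (nat_lit 0x1c492005a248000360200590ff81320574000d208008448a00a61ff007f0ff000a87d403303d202c81e800010ef812d057408c42b8017215601700a100a8050401b426802c2000000340e004c0ff8130057400e42b8000670600961ff02620ae801e8570000cc0c01683fe008a1e902630ae8015057000f8284000440a016e15d00021810054101802907fc01fc3fc001a1f5002b0f9805b87a403903d000281df00200b4012d857408c02b8003415601550a100a7050400b0000000421e00941ff00390f48130857400fc284000410800901ff00340f48130057407d82b8017c14200150a08001003000b8920000780400b44900003b02005a2480001c81002e124000108c40007008029440804061f800830f0005285a40a382b204aa15700a309d005284d40294000000241201c220401f00fc001c87d800403e801481e2007f0f0007085a402a42b404fc15902440ab805384e8028826a01c2000000118d01c60fc00088788097c2b20322157007c09d001104b8000441807cc3f000801f600720f0013e856409102ae000200a03741f800280f1012a856401b42ae004e13a0000f850044108000407ec07943f000741f6001d0f10036078000142be001615a026f0ac811b855c0074274011e1350000f0c01d90fc000e07dc00a43ec00b61e002700ac8115055c01f426a0001d0e001c1f601f10ab800070100df87e0095c2b20001b0400242480000781002d12400002c0801009200000e0400e0498007024b003709e800000180c8000805e000208600008018d03)))))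 
(.nd (nat_lit 8) (.nd (nat_lit 10) (.nd (nat_lit 26) 
(.lf (nat_lit 5773361351) (dlOf (nat_lit 1) (nat_lit 0x4002001600080c1782))) 
(.lf (nat_lit 6377341127) (dlOf (nat_lit 1) (nat_lit 0x4002000200080c1b82)))) 
(.lf (nat_lit 31360199) (dlOf (nat_lit 1) (nat_lit 0x400200020008e92d02)))) (.nd (nat_lit 9) 
(.lf (nat_lit 5772313031) (dlOf (nat_lit 1) (nat_lit 0x280080004002006c0008091103))) 
(.lf (nat_lit 4094593991) (dlOf (nat_lit 1) (nat_lit 0x60002007c0008055d82)))))) (.nd (nat_lit 21) 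
(.nd (nat_lit 8) (.nd (nat_lit 20) (.nd (nat_lit 22) 
(.lf (nat_lit 68124743) (dlOf (nat_lit 1) (nat_lit 0x90008000800200080008400603))) 
(.lf (nat_lit 13598791) (dlOf (nat_lit 3) (nat_lit 0x9c630001a810039e31801eef580002e080040004005e0008730c82)))) 
(.lf (nat_lit 14647367) (dlOf (nat_lit 2) (nat_lit 0x3046f80009bbc0002a080108002006c0008770602)))) 
(.nd (nat_lit 26) (.lf (nat_lit 3490677063) (dlOf (nat_lit 2) (nat_lit 0xc1e80021f818014c00))) 
(.lf (nat_lit 2752479559) (dlOf (nat_lit 2) (nat_lit 0xc1fa004ea018014c00))))) (.nd (nat_lit 26) 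
(.nd (nat_lit 7) (.nd (nat_lit 10) 
(.lf (nat_lit 20938823) (dlOf (nat_lit 2) (nat_lit 0x32c8a000e63e0001481000380080004002003200089f0603))) 
(.lf (nat_lit 1345291335) (dlOf (nat_lit 1) (nat_lit 0x18008000400200020008b52883)))) 
(.lf (nat_lit 19893191) (dlOf (nat_lit 2) (nat_lit 0x8ccd0000e8189d5d80)))) (.nd (nat_lit 9) 
(.nd (nat_lit 10) 
(.lf (nat_lit 473923655) (dlOf (nat_lit 3) (nat_lit 0x5a02be004815e017306b80050358013413600a208b000ad06001e0ae8002f4080548008005400200b40008fc0603))) 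
(.lf (nat_lit 472876103) (dlOf (nat_lit 1) (nat_lit 0x20028b52881)))) 
(.lf (nat_lit 472877639) (dlOf (nat_lit 1) (nat_lit 0x20018b55201))))))))))))

end

end Pool.Agent.Lib.MP_5854e1_co.Cz

namespace Pool.Agent.Lib.MP_5854e1_co.Cz

noncomputable section

noncomputable def tz147 : DT := (.nd (nat_lit 15) (.nd (nat_lit 2) (.nd (nat_lit 6) 
(.nd (nat_lit 18) (.nd (nat_lit 16) (.nd (nat_lit 19) (.nd (nat_lit 30) (.nd (nat_lit 26) 
(.nd (nat_lit 10) (.nd (nat_lit 7) 
(.lf (nat_lit 2952929283) (dlOf (nat_lit 1) (nat_lit 0x240028030001))) 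
(.lf (nat_lit 8530051) (dlOf (nat_lit 1) (nat_lit 0x20028514781)))) (.nd (nat_lit 8) 
(.lf (nat_lit 38937603) (dlOf (nat_lit 1) (nat_lit 0xc00400020009192882))) 
(.lf (nat_lit 671229699) (dlOf (nat_lit 1) (nat_lit 0x20028143b81))))) (.nd (nat_lit 9) 
(.nd (nat_lit 21) 
(.lf (nat_lit 604119043) (dlOf (nat_lit 1) (nat_lit 0x8008001c00200320008030003))) 
(.lf (nat_lit 69345283) (dlOf (nat_lit 1) (nat_lit 0x400400020008940002)))) 
(.lf (nat_lit 2753700355) (dlOf (nat_lit 1) (nat_lit 0x800401200008090d82))))) (.nd (nat_lit 27) 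
(.nd (nat_lit 7) (.nd (nat_lit 8) 
(.lf (nat_lit 5905721347) (dlOf (nat_lit 1) (nat_lit 0x400200020008144702))) 
(.lf (nat_lit 5905721091) (dlOf (nat_lit 3) (nat_lit 0xe0250003401000101280019c0800080080004002000c0008143b83)))) 
(.nd (nat_lit 9) (.lf (nat_lit 6241263747) (dlOf (nat_lit 1) (nat_lit 0x3600180d0301))) 
(.lf (nat_lit 1610753667) (dlOf (nat_lit 1) (nat_lit 0xc00200020008093a02))))) (.nd (nat_lit 26) 
(.nd (nat_lit 28) 
(.lf (nat_lit 6039937027) (dlOf (nat_lit 1) (nat_lit 0x8008000800200080008060003))) 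
(.lf (nat_lit 1476534275) (dlOf (nat_lit 3) (nat_lit 0xa00f0006c0720042036006c703000501f80361008037000800e000200040008040003)))) 
(.nd (nat_lit 7) (.lf (nat_lit 3691126787) (dlOf (nat_lit 1) (nat_lit 0x800200080008040002))) 
(.lf (nat_lit 1543646339) (dlOf (nat_lit 1) (nat_lit 0x3400400060008146102))))))) (.nd (nat_lit 21) 
(.nd (nat_lit 20) (.nd (nat_lit 27) (.nd (nat_lit 22) (.nd (nat_lit 23) 
(.lf (nat_lit 1342840835) (dlOf (nat_lit 1) (nat_lit 0x4004000200180e0002))) 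
(.lf (nat_lit 42606595) (dlOf (nat_lit 1) (nat_lit 0x400400020009260002)))) 
(.lf (nat_lit 4857859) (dlOf (nat_lit 1) (nat_lit 0x80080008002000200082d0003)))) (.nd (nat_lit 26) 
(.lf (nat_lit 134881283) (dlOf (nat_lit 1) (nat_lit 0xe0002006800080d0002))) 
(.lf (nat_lit 201990147) (dlOf (nat_lit 1) (nat_lit 0xe0002006800080d0002))))) (.nd (nat_lit 23) 
(.lf (nat_lit 1712131) (dlOf (nat_lit 1) (nat_lit 0x8008000400200020008120003))) 
(.lf (nat_lit 60432387) (dlOf (nat_lit 2) (nat_lit 0x352d00690c080020008000c00200020009860003))))) 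
(.nd (nat_lit 20) (.nd (nat_lit 7) (.nd (nat_lit 10) (.nd (nat_lit 22) 
(.lf (nat_lit 472522755) (dlOf (nat_lit 1) (nat_lit 0x54004004200089b0002))) 
(.lf (nat_lit 15343619) (dlOf (nat_lit 1) (nat_lit 0x8004000400087e0002)))) 
(.lf (nat_lit 36316163) (dlOf (nat_lit 1) (nat_lit 0x20019072881)))) (.nd (nat_lit 25) 
(.lf (nat_lit 5774123139) (dlOf (nat_lit 1) (nat_lit 0x420018103a01))) 
(.lf (nat_lit 36315267) (dlOf (nat_lit 1) (nat_lit 0xc00200020009070302))))) (.nd (nat_lit 31) 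
(.nd (nat_lit 8) (.lf (nat_lit 3809283) (dlOf (nat_lit 1) (nat_lit 0x30008000800200020008230003))) 
(.lf (nat_lit 49949443) (dlOf (nat_lit 1) (nat_lit 0x14004000400094c5a82)))) (.nd (nat_lit 26) 
(.lf (nat_lit 3493470211) (dlOf (nat_lit 1) (nat_lit 0x220028140001))) 
(.lf (nat_lit 2755272707) (dlOf (nat_lit 1) (nat_lit 0x220028140001)))))))) (.nd (nat_lit 26) 
(.nd (nat_lit 29) (.nd (nat_lit 21) (.nd (nat_lit 10) (.nd (nat_lit 9) 
(.lf (nat_lit 26943491) (dlOf (nat_lit 5) (nat_lit 0x5bf80002d8e00016a90018fc1800137f00011b1c0004d5200026a00000b3680005992006330c0006d5100016640018a010001b7ec00c30040014002001e0008c90002))) 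
(.lf (nat_lit 3494060547) (dlOf (nat_lit 1) (nat_lit 0x200181b0d81)))) (.nd (nat_lit 19) 
(.lf (nat_lit 5637350403) (dlOf (nat_lit 1) (nat_lit 0x200280d2881))) 
(.lf (nat_lit 35333123) (dlOf (nat_lit 1) (nat_lit 0x400200020009012882))))) (.nd (nat_lit 23) 
(.nd (nat_lit 19) 
(.lf (nat_lit 52633603) (dlOf (nat_lit 2) (nat_lit 0x27178072d4080148008001800200860009560003))) 
(.lf (nat_lit 19603459) (dlOf (nat_lit 1) (nat_lit 0x200289c0001)))) (.nd (nat_lit 20) 
(.nd (nat_lit 22) (.lf (nat_lit 44244995) (dlOf (nat_lit 1) (nat_lit 0x8200092e0001))) 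
(.lf (nat_lit 14884867) (dlOf (nat_lit 1) (nat_lit 0x16800400880008790002)))) 
(.lf (nat_lit 11739139) (dlOf (nat_lit 1) (nat_lit 0x80080004002000200086c0003)))))) 
(.nd (nat_lit 31) (.nd (nat_lit 9) (.nd (nat_lit 11) 
(.lf (nat_lit 537600003) (dlOf (nat_lit 1) (nat_lit 0x200280d0001))) 
(.lf (nat_lit 537081859) (dlOf (nat_lit 1) (nat_lit 0x6002800a601)))) 
(.lf (nat_lit 537082371) (dlOf (nat_lit 1) (nat_lit 0x2002800b281)))) (.nd (nat_lit 7) 
(.lf (nat_lit 2818782979) (dlOf (nat_lit 1) (nat_lit 0x40040060000812a002))) (.nd (nat_lit 8) 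
(.lf (nat_lit 4160960131) (dlOf (nat_lit 2) (nat_lit 0x6c0560000002000800080a9d81))) 
(.lf (nat_lit 2684564355) (dlOf (nat_lit 3) (nat_lit 0x380ec0008072000c037000301a800180c0001804e0010b0c000c03b000201800040810000800800a4002002e00080a9003))))))) 
(.nd (nat_lit 30) (.nd (nat_lit 9) (.nd (nat_lit 20) (.nd (nat_lit 27) 
(.lf (nat_lit 604184579) (dlOf (nat_lit 2) (nat_lit 0x400d800cc404000400400040008080002))) 
(.lf (nat_lit 4496498691) (dlOf (nat_lit 2) (nat_lit 0x1d00e0001006c0000008015400400d20008090002)))) 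
(.lf (nat_lit 1007886339) (dlOf (nat_lit 1) (nat_lit 0x8008001800200020008830003)))) 
(.nd (nat_lit 7) 
(.lf (nat_lit 2483233283) (dlOf (nat_lit 1) (nat_lit 0x8008000400200020008090d83))) 
(.lf (nat_lit 4764935811) (dlOf (nat_lit 1) (nat_lit 0x400400020008093a02))))) (.nd (nat_lit 7) 
(.nd (nat_lit 8) (.nd (nat_lit 9) 
(.lf (nat_lit 1410015235) (dlOf (nat_lit 1) (nat_lit 0x200280d0001))) 
(.lf (nat_lit 1677933059) (dlOf (nat_lit 1) (nat_lit 0x16002811b281)))) 
(.lf (nat_lit 3556980483) (dlOf (nat_lit 1) (nat_lit 0x40040002000812a002)))) (.nd (nat_lit 10) 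
(.lf (nat_lit 3556979075) (dlOf (nat_lit 1) (nat_lit 0x47800800e800201140008128383))) 
(.lf (nat_lit 1543712131) (dlOf (nat_lit 2) (nat_lit 0x1880b00190032005c0060068000000034200708008083800200760008146c03)))))))) 
(.nd (nat_lit 16) (.nd (nat_lit 26) (.nd (nat_lit 20) (.nd (nat_lit 28) (.nd (nat_lit 8) 
(.nd (nat_lit 27) (.nd (nat_lit 22) 
(.lf (nat_lit 537272323) (dlOf (nat_lit 1) (nat_lit 0x140028070001))) 
(.lf (nat_lit 12984323) (dlOf (nat_lit 1) (nat_lit 0x400086f0001)))) (.nd (nat_lit 19) 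
(.lf (nat_lit 3355844611) (dlOf (nat_lit 1) (nat_lit 0x290008004c002013e0008120003))) 
(.lf (nat_lit 2819497987) (dlOf (nat_lit 3) (nat_lit 0x200360003016002b801003500b00000004007c004000a00082b0002))))) 
(.nd (nat_lit 7) (.nd (nat_lit 12) 
(.lf (nat_lit 57027331) (dlOf (nat_lit 1) (nat_lit 0x10000800c800200480009795a83))) 
(.lf (nat_lit 19806979) (dlOf (nat_lit 1) (nat_lit 0x200289db981)))) (.nd (nat_lit 9) 
(.nd (nat_lit 11) (.lf (nat_lit 134619523) (dlOf (nat_lit 1) (nat_lit 0x20018090781))) 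
(.lf (nat_lit 40249731) (dlOf (nat_lit 1) (nat_lit 0x600191f4e81)))) 
(.lf (nat_lit 19803011) (dlOf (nat_lit 1) (nat_lit 0x4002000200089d5c02)))))) (.nd (nat_lit 32) 
(.nd (nat_lit 22) (.nd (nat_lit 27) 
(.lf (nat_lit 4026933251) (dlOf (nat_lit 2) (nat_lit 0x3200f002480000000008017400200fa00080d0002))) 
(.lf (nat_lit 1476796419) (dlOf (nat_lit 2) (nat_lit 0xa01100010078018cc1000180080004002000200081f0003)))) 
(.nd (nat_lit 31) 
(.lf (nat_lit 1346772995) (dlOf (nat_lit 1) (nat_lit 0x8008000400200020009000003))) 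
(.lf (nat_lit 3494256643) (dlOf (nat_lit 3) (nat_lit 0x403900af481000401c8057700800180080010002000c00081e0003))))) 
(.nd (nat_lit 27) (.nd (nat_lit 30) 
(.lf (nat_lit 4563804163) (dlOf (nat_lit 8) (nat_lit 0x900c8001805c0174704003c032001c018800100b8000c056000201e00b9d050012018805cbc0801900a402360040088064010ce02004c032008280100080128000000802180080018002004e00080e0003))) 
(.lf (nat_lit 5637545987) (dlOf (nat_lit 2) (nat_lit 0x40000049c018100000)))) 
(.lf (nat_lit 4698021891) (dlOf (nat_lit 8) (nat_lit 0x900c8001805c015e904003c032001c018800100b8000c056000201e00aee0500120188057440801900a4023780400880640103102004c032007e38100080128000000802180080018002004e00080e0003)))))) 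
(.nd (nat_lit 19) (.nd (nat_lit 23) (.nd (nat_lit 21) 
(.lf (nat_lit 1343627267) (dlOf (nat_lit 1) (nat_lit 0x8002003800082c0002))) 
(.lf (nat_lit 3547139) (dlOf (nat_lit 4) (nat_lit 0x2496401d9f0200184b200ece81000a259007508080058008002400200100008200003)))) 
(.nd (nat_lit 10) (.lf (nat_lit 9838595) (dlOf (nat_lit 2) (nat_lit 0xc1e0004a8818580000))) 
(.lf (nat_lit 47588355) (dlOf (nat_lit 1) (nat_lit 0x48008002800200020009402883))))) 
(.nd (nat_lit 7) (.nd (nat_lit 8) (.nd (nat_lit 21) 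
(.lf (nat_lit 52305923) (dlOf (nat_lit 1) (nat_lit 0x400200020009520002))) 
(.lf (nat_lit 29237251) (dlOf (nat_lit 1) (nat_lit 0x40018de0001)))) 
(.lf (nat_lit 8267523) (dlOf (nat_lit 1) (nat_lit 0x400400020008513b82)))) (.nd (nat_lit 9) 
(.lf (nat_lit 18751619) (dlOf (nat_lit 1) (nat_lit 0x400200020008970482))) 
(.lf (nat_lit 8267395) (dlOf (nat_lit 1) (nat_lit 0x20018513a01))))))) (.nd (nat_lit 28) 
(.nd (nat_lit 29) (.nd (nat_lit 7) (.nd (nat_lit 27) (.nd (nat_lit 30) 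
(.lf (nat_lit 4362477571) (dlOf (nat_lit 1) (nat_lit 0x4004002a0008090002))) 
(.lf (nat_lit 3288735747) (dlOf (nat_lit 2) (nat_lit 0x3200f002480000000008017400200fa00080d0002)))) 
(.lf (nat_lit 4496695299) (dlOf (nat_lit 2) (nat_lit 0x1d01a000100cc0000008015400400d20008120002)))) 
(.nd (nat_lit 27) (.lf (nat_lit 4362477955) (dlOf (nat_lit 2) (nat_lit 0x803300719818090780))) 
(.lf (nat_lit 201728387) (dlOf (nat_lit 3) (nat_lit 0xb407600ceb02003c03b00670018090780))))) 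
(.nd (nat_lit 9) (.nd (nat_lit 22) 
(.lf (nat_lit 604381187) (dlOf (nat_lit 2) (nat_lit 0xa0110001007802f201000180080004002000200081f0003))) 
(.lf (nat_lit 2756059139) (dlOf (nat_lit 3) (nat_lit 0x403900ba381000401c805ce80800180080010002000c00081e0003)))) 
(.lf (nat_lit 2755535363) (dlOf (nat_lit 4) (nat_lit 0x3b00840014502017e042000678100ec02e805f8170000e6080048004000e00081b0d82))))) 
(.nd (nat_lit 29) (.nd (nat_lit 9) (.nd (nat_lit 27) 
(.lf (nat_lit 1409687555) (dlOf (nat_lit 1) (nat_lit 0x140028070001))) 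
(.lf (nat_lit 2617647107) (dlOf (nat_lit 1) (nat_lit 0x1120018130001)))) 
(.lf (nat_lit 1410212355) (dlOf (nat_lit 2) (nat_lit 0x3816c0029a040008004000400181b0d82)))) 
(.nd (nat_lit 7) (.nd (nat_lit 27) 
(.lf (nat_lit 6241525763) (dlOf (nat_lit 2) (nat_lit 0x4000006ee018100000))) 
(.lf (nat_lit 3154518019) (dlOf (nat_lit 1) (nat_lit 0x8000800b0002015e00081f0003)))) 
(.lf (nat_lit 4095615363) (dlOf (nat_lit 1) (nat_lit 0x400280e1001))))))) (.nd (nat_lit 20) 
(.nd (nat_lit 28) (.nd (nat_lit 9) (.nd (nat_lit 29) (.nd (nat_lit 19) (.nd (nat_lit 22) 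
(.lf (nat_lit 6510026755) (dlOf (nat_lit 1) (nat_lit 0x120018190001))) 
(.lf (nat_lit 54992899) (dlOf (nat_lit 1) (nat_lit 0x400200020009680002)))) 
(.lf (nat_lit 11476995) (dlOf (nat_lit 1) (nat_lit 0x8008000c002000400086a0003)))) 
(.nd (nat_lit 27) (.lf (nat_lit 5906046979) (dlOf (nat_lit 1) (nat_lit 0x120018190001))) 
(.lf (nat_lit 2819039235) (dlOf (nat_lit 1) (nat_lit 0x1c00200020008160002))))) (.nd (nat_lit 7) 
(.lf (nat_lit 134685187) (dlOf (nat_lit 1) (nat_lit 0x120018090d81))) (.nd (nat_lit 10) 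
(.lf (nat_lit 19870339) (dlOf (nat_lit 1) (nat_lit 0x9a00289d8b01))) 
(.lf (nat_lit 8857219) (dlOf (nat_lit 1) (nat_lit 0x10008002000200040008513a03)))))) 
(.nd (nat_lit 9) (.nd (nat_lit 10) (.nd (nat_lit 26) 
(.lf (nat_lit 1879515139) (dlOf (nat_lit 1) (nat_lit 0x8008000400200020008190003))) 
(.lf (nat_lit 3557236739) (dlOf (nat_lit 1) (nat_lit 0x2300080048002003c0008170003)))) 
(.nd (nat_lit 19) (.lf (nat_lit 1344742403) (dlOf (nat_lit 2) (nat_lit 0x207c00274018982880))) 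
(.lf (nat_lit 3492750339) (dlOf (nat_lit 1) (nat_lit 0x80080008002000400080f2883))))) 
(.nd (nat_lit 8) (.nd (nat_lit 26) 
(.lf (nat_lit 2416386563) (dlOf (nat_lit 1) (nat_lit 0x200181b0d81))) 
(.lf (nat_lit 1409753603) (dlOf (nat_lit 2) (nat_lit 0x18054000b4018090d80)))) 
(.lf (nat_lit 3492751107) (dlOf (nat_lit 3) (nat_lit 0x381000003204000c0800001602000200180f3b81)))))) 
(.nd (nat_lit 19) (.nd (nat_lit 21) (.nd (nat_lit 23) (.nd (nat_lit 26) 
(.lf (nat_lit 3491176451) (dlOf (nat_lit 1) (nat_lit 0x20018070001))) 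
(.lf (nat_lit 2752978947) (dlOf (nat_lit 1) (nat_lit 0x20018070001)))) 
(.lf (nat_lit 9904131) (dlOf (nat_lit 2) (nat_lit 0x97452015d10200080008590001)))) (.nd (nat_lit 7) 
(.lf (nat_lit 3612675) (dlOf (nat_lit 3) (nat_lit 0x22a88010d80800095440086604003000200080008210002))) 
(.lf (nat_lit 28778627) (dlOf (nat_lit 1) (nat_lit 0x400200020008da0482))))) (.nd (nat_lit 24) 
(.nd (nat_lit 7) (.lf (nat_lit 4095681795) (dlOf (nat_lit 1) (nat_lit 0x4004000200080e2f02))) 
(.lf (nat_lit 2039939) (dlOf (nat_lit 1) (nat_lit 0x400200020008150102)))) (.nd (nat_lit 22) 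
(.lf (nat_lit 52371459) (dlOf (nat_lit 2) (nat_lit 0x4e0e00393019530000))) 
(.lf (nat_lit 23011331) (dlOf (nat_lit 1) (nat_lit 0x640018b40001))))))))) (.nd (nat_lit 16) 
(.nd (nat_lit 19) (.nd (nat_lit 28) (.nd (nat_lit 7) (.nd (nat_lit 23) (.nd (nat_lit 30) 
(.nd (nat_lit 20) (.nd (nat_lit 27) 
(.lf (nat_lit 604119107) (dlOf (nat_lit 1) (nat_lit 0xa0018030581))) 
(.lf (nat_lit 2885820483) (dlOf (nat_lit 1) (nat_lit 0xa00280b0001)))) 
(.lf (nat_lit 2752651331) (dlOf (nat_lit 1) (nat_lit 0x300080018002001a0008030e03)))) 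
(.nd (nat_lit 8) (.nd (nat_lit 10) 
(.lf (nat_lit 3288735811) (dlOf (nat_lit 5) (nat_lit 0x112004000c201d00020070015802c000d4100e980400006902018002000034010017010000088080e58008001800205ca00080d0c03))) 
(.lf (nat_lit 3959563331) (dlOf (nat_lit 6) (nat_lit 0x1a003802bc804000801c015d502006800e00ae981003400700574808006003802ba204000800400020018112882)))) 
(.lf (nat_lit 3221372227) (dlOf (nat_lit 2) (nat_lit 0x14038000600b0019e41000e80080020002001e000811c903))))) 
(.nd (nat_lit 18) (.nd (nat_lit 22) 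
(.lf (nat_lit 25305155) (dlOf (nat_lit 6) (nat_lit 0x113c8b008ce1c0000d40801eb22c00fd87000034820002c8b0003e1c0000500801d722c00f987000011020007c8b000000080048008008c00200340008bf0c03))) 
(.lf (nat_lit 12722243) (dlOf (nat_lit 1) (nat_lit 0x80080004002000200086e0d03)))) (.nd (nat_lit 9) 
(.nd (nat_lit 20) 
(.lf (nat_lit 48635971) (dlOf (nat_lit 7) (nat_lit 0xfdd5c007e6be803f34ec01f92e20023c08004000000119010183000000544080050000002a0040264000001370200440000007a019420600))) 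
(.lf (nat_lit 26615875) (dlOf (nat_lit 5) (nat_lit 0x1abda004e0000001e02002cb3e801ad7b40007208001acfa00115ed00003020006af680000008005000800b400200040008c50583)))) 
(.lf (nat_lit 43394627) (dlOf (nat_lit 1) (nat_lit 0x1a00192a3801)))))) (.nd (nat_lit 8) 
(.nd (nat_lit 9) 
(.lf (nat_lit 48374979) (dlOf (nat_lit 12) (nat_lit 0xc741000140100e8406002c1d040004c080008e820001f0200367410000e81000540600049d0400038080014e820001b02012c80c00133a0800060100011d0400020040008e820000e02013280c00002810055000000000080030008008400200920009402d03))) 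
(.nd (nat_lit 18) (.lf (nat_lit 20067011) (dlOf (nat_lit 1) (nat_lit 0x80080004002000200089d8c83))) 
(.lf (nat_lit 20329155) (dlOf (nat_lit 1) (nat_lit 0x4002000200089d8c82))))) (.nd (nat_lit 11) 
(.nd (nat_lit 9) 
(.lf (nat_lit 3758236099) (dlOf (nat_lit 2) (nat_lit 0x300600020000002220801c000400060008107002))) 
(.lf (nat_lit 671229891) (dlOf (nat_lit 2) (nat_lit 0x180140005604000800200020008144402)))) 
(.nd (nat_lit 12) (.lf (nat_lit 39987651) (dlOf (nat_lit 1) (nat_lit 0x3200191f4e81))) 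
(.lf (nat_lit 20068803) (dlOf (nat_lit 2) (nat_lit 0x5b570051d0189daf80))))))) (.nd (nat_lit 27) 
(.nd (nat_lit 9) (.nd (nat_lit 18) (.nd (nat_lit 20) 
(.lf (nat_lit 6711025731) (dlOf (nat_lit 1) (nat_lit 0x400400020008040482))) 
(.lf (nat_lit 3490848835) (dlOf (nat_lit 1) (nat_lit 0x300080018002001a0008030e03)))) 
(.nd (nat_lit 29) (.lf (nat_lit 4563804227) (dlOf (nat_lit 1) (nat_lit 0x1200080e1801))) 
(.lf (nat_lit 4026933315) (dlOf (nat_lit 5) (nat_lit 0x112004000c201d00020070015802c000c2100e98040000600201800200002f810017010000088080e58008001800205ca00080d0c03))))) 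
(.nd (nat_lit 7) (.nd (nat_lit 11) 
(.lf (nat_lit 5637285443) (dlOf (nat_lit 1) (nat_lit 0xa00180d3801))) 
(.lf (nat_lit 805449283) (dlOf (nat_lit 1) (nat_lit 0x8800400140008117182)))) 
(.lf (nat_lit 805449411) (dlOf (nat_lit 1) (nat_lit 0xa0008117281))))) (.nd (nat_lit 7) 
(.nd (nat_lit 32) (.nd (nat_lit 8) 
(.lf (nat_lit 2013405251) (dlOf (nat_lit 2) (nat_lit 0x580000021a04002c00200140008051802))) 
(.lf (nat_lit 403055939) (dlOf (nat_lit 1) (nat_lit 0xa00180e3301)))) (.nd (nat_lit 26) 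
(.lf (nat_lit 4697759811) (dlOf (nat_lit 1) (nat_lit 0x12000400100008090002))) 
(.lf (nat_lit 4764868675) (dlOf (nat_lit 1) (nat_lit 0x400400020008040482))))) (.nd (nat_lit 8) 
(.nd (nat_lit 11) 
(.lf (nat_lit 474096835) (dlOf (nat_lit 20) (nat_lit 0x482d200340180001402008c0b4800d85a0010028a017c018000900b8000982803f05a401dc0300001f04011c169007a00c0000741003c05a4002428a00e40180000e0300790b4800a8514002c18e00dc0180000d8400690b4800c051401a403000018060006169005c00c00005c1001185a4003c030000140400b4169002400c00004c1000985a400c8030000100400300180000781002500c000038080068060000180401e42d2001e168007900c0000141803a05a400282d000f2018000018300230b480178060000040800442d20002018000008200090b4001900600000008005c00200200009082d02))) 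
(.lf (nat_lit 1543646403) (dlOf (nat_lit 1) (nat_lit 0xb800200020008146382)))) 
(.lf (nat_lit 3154256323) (dlOf (nat_lit 3) (nat_lit 0x381a000240cc000e000000808300080340003f40801f0008001c002000e0008137003))))))) 
(.nd (nat_lit 18) (.nd (nat_lit 26) (.nd (nat_lit 21) (.nd (nat_lit 24) (.nd (nat_lit 7) 
(.nd (nat_lit 27) (.lf (nat_lit 537534531) (dlOf (nat_lit 1) (nat_lit 0x2200280a0d01))) 
(.lf (nat_lit 134881347) (dlOf (nat_lit 4) (nat_lit 0x10054000c20400100280005d02002c031000110180d0c00)))) 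
(.lf (nat_lit 9053891) (dlOf (nat_lit 1) (nat_lit 0x3e0018513a81)))) (.nd (nat_lit 8) 
(.lf (nat_lit 21635139) (dlOf (nat_lit 5) (nat_lit 0x2145000109c800104d000201d2001f508000e145000709c800204d000281d2001f4080016145000909c800684d0002c1d2001f308000a145000909c800604d0002c1d2001f208000a0008a51801))) 
(.lf (nat_lit 50995523) (dlOf (nat_lit 1) (nat_lit 0xc002000800094e8702))))) (.nd (nat_lit 31) 
(.lf (nat_lit 1344938051) (dlOf (nat_lit 1) (nat_lit 0x1000080034002000600089a0603))) 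
(.lf (nat_lit 3492421699) (dlOf (nat_lit 1) (nat_lit 0x200280d0c01))))) (.nd (nat_lit 29) 
(.nd (nat_lit 27) (.lf (nat_lit 1409949763) (dlOf (nat_lit 1) (nat_lit 0x2c002001800080a0e02))) 
(.lf (nat_lit 201990211) (dlOf (nat_lit 4) (nat_lit 0x10058000c80400100280005d02002c031000110180d0c00)))) 
(.nd (nat_lit 21) 
(.lf (nat_lit 1678385219) (dlOf (nat_lit 2) (nat_lit 0x12056000900980013c1001600080024002001a0008201883))) 
(.lf (nat_lit 2754224195) (dlOf (nat_lit 1) (nat_lit 0x200280d0c01)))))) (.nd (nat_lit 21) 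
(.nd (nat_lit 9) (.nd (nat_lit 8) 
(.lf (nat_lit 59646019) (dlOf (nat_lit 2) (nat_lit 0xa7e000124819820600))) (.nd (nat_lit 26) 
(.lf (nat_lit 3490586947) (dlOf (nat_lit 1) (nat_lit 0x2a0008014c01))) 
(.lf (nat_lit 2752389443) (dlOf (nat_lit 1) (nat_lit 0x2a0008014c01))))) (.nd (nat_lit 7) 
(.nd (nat_lit 26) (.lf (nat_lit 3491635779) (dlOf (nat_lit 1) (nat_lit 0x7a0002033e0008091102))) 
(.lf (nat_lit 2753438275) (dlOf (nat_lit 1) (nat_lit 0x7a0002033e0008091102)))) 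
(.lf (nat_lit 1344156355) (dlOf (nat_lit 1) (nat_lit 0xa00283d8c81))))) (.nd (nat_lit 7) 
(.nd (nat_lit 8) (.lf (nat_lit 4071491) (dlOf (nat_lit 1) (nat_lit 0x20018270c01))) 
(.nd (nat_lit 9) 
(.lf (nat_lit 472786243) (dlOf (nat_lit 2) (nat_lit 0x182f800054040030004000a0008b03302))) 
(.lf (nat_lit 19800899) (dlOf (nat_lit 1) (nat_lit 0xa00189d2381))))) (.nd (nat_lit 8) 
(.nd (nat_lit 10) (.lf (nat_lit 23994563) (dlOf (nat_lit 1) (nat_lit 0x1120008b80401))) 
(.lf (nat_lit 19805379) (dlOf (nat_lit 1) (nat_lit 0x200289d9501)))) 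
(.lf (nat_lit 19807171) (dlOf (nat_lit 2) (nat_lit 0x6d836001ba02000200089dbe01)))))))) 
(.nd (nat_lit 18) (.nd (nat_lit 9) (.nd (nat_lit 8) (.nd (nat_lit 21) (.nd (nat_lit 20) 
(.nd (nat_lit 27) (.nd (nat_lit 22) 
(.lf (nat_lit 6442655811) (dlOf (nat_lit 1) (nat_lit 0x120008120e01))) 
(.lf (nat_lit 1346576451) (dlOf (nat_lit 1) (nat_lit 0x20018fd0d81)))) (.nd (nat_lit 12) 
(.lf (nat_lit 5838676035) (dlOf (nat_lit 1) (nat_lit 0x120008120e01))) 
(.lf (nat_lit 2818781251) (dlOf (nat_lit 1) (nat_lit 0x20018127d81))))) (.nd (nat_lit 7) 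
(.lf (nat_lit 39003203) (dlOf (nat_lit 1) (nat_lit 0x8008001400200020009192883))) 
(.lf (nat_lit 68362435) (dlOf (nat_lit 1) (nat_lit 0x3cc00200c60008570482))))) (.nd (nat_lit 19) 
(.nd (nat_lit 23) (.lf (nat_lit 56827971) (dlOf (nat_lit 1) (nat_lit 0x800400020009770602))) 
(.lf (nat_lit 14884931) (dlOf (nat_lit 1) (nat_lit 0x20018790581)))) (.nd (nat_lit 26) 
(.lf (nat_lit 2826307) (dlOf (nat_lit 1) (nat_lit 0x480080010002000a00081c0c03))) 
(.lf (nat_lit 472588355) (dlOf (nat_lit 3) (nat_lit 0xda09c004d04680360230004920c005029a030209c01240468007c018018800800a0002001c00089c0603)))))) 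
(.nd (nat_lit 7) (.nd (nat_lit 10) 
(.lf (nat_lit 8595779) (dlOf (nat_lit 1) (nat_lit 0xc0018514d01))) (.nd (nat_lit 12) 
(.lf (nat_lit 3624086851) (dlOf (nat_lit 1) (nat_lit 0x380028146981))) 
(.lf (nat_lit 3489873219) (dlOf (nat_lit 1) (nat_lit 0x38004000a000800c902))))) (.nd (nat_lit 10) 
(.nd (nat_lit 11) (.lf (nat_lit 2753765827) (dlOf (nat_lit 1) (nat_lit 0x3400400040008090902))) 
(.lf (nat_lit 36383171) (dlOf (nat_lit 1) (nat_lit 0x400400020019074e82)))) 
(.lf (nat_lit 3758306755) (dlOf (nat_lit 1) (nat_lit 0x400200040008129a02)))))) (.nd (nat_lit 10) 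
(.nd (nat_lit 7) (.nd (nat_lit 8) (.nd (nat_lit 11) 
(.lf (nat_lit 2753765955) (dlOf (nat_lit 1) (nat_lit 0xe0018091101))) 
(.lf (nat_lit 58927683) (dlOf (nat_lit 1) (nat_lit 0x4004000200097e5202)))) 
(.lf (nat_lit 54209347) (dlOf (nat_lit 1) (nat_lit 0x20019655c01)))) (.nd (nat_lit 20) 
(.nd (nat_lit 26) 
(.lf (nat_lit 3758305987) (dlOf (nat_lit 1) (nat_lit 0x18008000400200020008128c83))) 
(.lf (nat_lit 3020108483) (dlOf (nat_lit 1) (nat_lit 0x1800400080018128c82)))) 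
(.lf (nat_lit 20132547) (dlOf (nat_lit 1) (nat_lit 0x4002000200089d8c82))))) (.nd (nat_lit 8) 
(.nd (nat_lit 27) (.lf (nat_lit 5167588931) (dlOf (nat_lit 1) (nat_lit 0x400180d3801))) 
(.nd (nat_lit 29) (.lf (nat_lit 4764935747) (dlOf (nat_lit 1) (nat_lit 0x400400020008093802))) 
(.lf (nat_lit 6375548483) (dlOf (nat_lit 1) (nat_lit 0x8008000400200020008003803))))) 
(.nd (nat_lit 12) (.nd (nat_lit 27) 
(.lf (nat_lit 5905786691) (dlOf (nat_lit 1) (nat_lit 0x20028143e01))) 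
(.lf (nat_lit 671295299) (dlOf (nat_lit 1) (nat_lit 0x8008000800200020008143e03)))) 
(.lf (nat_lit 3556980547) (dlOf (nat_lit 1) (nat_lit 0x2001812a181))))))) (.nd (nat_lit 19) 
(.nd (nat_lit 20) (.nd (nat_lit 30) (.nd (nat_lit 25) 
(.lf (nat_lit 6442917955) (dlOf (nat_lit 2) (nat_lit 0x480e8002404a001001a000900c0000e0200078008000800200020008220c03))) 
(.lf (nat_lit 34021443) (dlOf (nat_lit 1) (nat_lit 0x6400400020018f90602)))) (.nd (nat_lit 26) 
(.lf (nat_lit 1611079747) (dlOf (nat_lit 1) (nat_lit 0x880080004002000e00080d0483))) 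
(.lf (nat_lit 5838938179) (dlOf (nat_lit 2) (nat_lit 0x480e8002404a001001a000900c0000d8200078008000800200020008220c03))))) 
(.nd (nat_lit 7) (.nd (nat_lit 21) 
(.lf (nat_lit 9904195) (dlOf (nat_lit 5) (nat_lit 0x1e90c000b4820013a3f0005d1d8002e7700023e14000b48a0009a430002d208003e8ec00273b80011e0a000fa450009d20800568ec002b3b80011d080011a450009d20800568ec002f3b80011c0800d40008591781))) 
(.lf (nat_lit 37167171) (dlOf (nat_lit 2) (nat_lit 0x482fe8023167401387f80015406000600190b0601)))) 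
(.lf (nat_lit 58139075) (dlOf (nat_lit 1) (nat_lit 0x400297c7001))))) (.nd (nat_lit 21) 
(.nd (nat_lit 23) (.nd (nat_lit 7) 
(.lf (nat_lit 470753347) (dlOf (nat_lit 1) (nat_lit 0x8008000400200020008170583))) 
(.lf (nat_lit 2753503683) (dlOf (nat_lit 5) (nat_lit 0x1a0e9000106f800c0000000200600300000000f81000a0e90000780800787480000004022000200180008090902)))) 
(.nd (nat_lit 22) (.lf (nat_lit 59711555) (dlOf (nat_lit 2) (nat_lit 0x27e000124819820600))) 
(.lf (nat_lit 13574211) (dlOf (nat_lit 1) (nat_lit 0x8008000800200020008730c03))))) 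
(.nd (nat_lit 7) (.nd (nat_lit 9) 
(.lf (nat_lit 473899075) (dlOf (nat_lit 5) (nat_lit 0x26414d029406c808d836002fc0fa01a207c0012385001906c8007c00811988080410340001e163026b0a600d2852c029028400660ec027006b81450358092416e002a0af026703d803000a408a80500462000000aa0f00140000003d00801e8008015400200340008fc0603))) 
(.lf (nat_lit 24060483) (dlOf (nat_lit 1) (nat_lit 0x400200020008b81102)))) 
(.lf (nat_lit 24060355) (dlOf (nat_lit 1) (nat_lit 0x400200020008b80902))))))))) (.nd (nat_lit 16) 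
(.nd (nat_lit 18) (.nd (nat_lit 6) (.nd (nat_lit 30) (.nd (nat_lit 21) (.nd (nat_lit 27) 
(.nd (nat_lit 20) (.nd (nat_lit 28) (.nd (nat_lit 22) 
(.lf (nat_lit 4295106567) (dlOf (nat_lit 1) (nat_lit 0x400400060008080002))) 
(.lf (nat_lit 12722183) (dlOf (nat_lit 1) (nat_lit 0x2200186e0001)))) (.nd (nat_lit 8) 
(.lf (nat_lit 2483167239) (dlOf (nat_lit 1) (nat_lit 0x11c00400820008050002))) 
(.lf (nat_lit 805448967) (dlOf (nat_lit 2) (nat_lit 0x5009800090080170008003800200080008116683))))) 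
(.nd (nat_lit 7) (.nd (nat_lit 23) 
(.lf (nat_lit 1712135) (dlOf (nat_lit 1) (nat_lit 0x2b8008002000200d20008120483))) 
(.lf (nat_lit 26877959) (dlOf (nat_lit 1) (nat_lit 0x2c00400020008c80002)))) 
(.lf (nat_lit 9576583) (dlOf (nat_lit 3) (nat_lit 0x142700001b010053451803499c40534ca000ea643004627f000393ec04d09bc003c4db007325180488d0003c866c01ee322007617180828ac803d04dc000321e00020028570e01))))) 
(.nd (nat_lit 10) (.nd (nat_lit 26) (.nd (nat_lit 29) 
(.lf (nat_lit 4429324295) (dlOf (nat_lit 1) (nat_lit 0x400400060008080002))) 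
(.lf (nat_lit 4966195207) (dlOf (nat_lit 1) (nat_lit 0x340018040001)))) (.nd (nat_lit 20) 
(.nd (nat_lit 29) (.lf (nat_lit 2348949511) (dlOf (nat_lit 1) (nat_lit 0x11c00400820008050002))) 
(.lf (nat_lit 5033304071) (dlOf (nat_lit 1) (nat_lit 0x340018040001)))) 
(.lf (nat_lit 470949895) (dlOf (nat_lit 1) (nat_lit 0x800400020008210282))))) (.nd (nat_lit 8) 
(.lf (nat_lit 201466887) (dlOf (nat_lit 2) (nat_lit 0x4094015d30200020018002881))) (.nd (nat_lit 9) 
(.lf (nat_lit 2617390343) (dlOf (nat_lit 1) (nat_lit 0x2200180a9601))) 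
(.lf (nat_lit 3087148807) (dlOf (nat_lit 1) (nat_lit 0x400200020008143b82))))))) (.nd (nat_lit 8) 
(.nd (nat_lit 19) (.nd (nat_lit 7) 
(.lf (nat_lit 10625031) (dlOf (nat_lit 1) (nat_lit 0x400400020008600002))) 
(.lf (nat_lit 44179591) (dlOf (nat_lit 2) (nat_lit 0x15131f007a189c0006408001c004001400092d0e02)))) 
(.nd (nat_lit 9) (.nd (nat_lit 24) 
(.lf (nat_lit 11149319) (dlOf (nat_lit 2) (nat_lit 0x27156c00e1004001000200080008660002))) 
(.lf (nat_lit 27926535) (dlOf (nat_lit 2) (nat_lit 0xb3240170604001400400140018d40002)))) 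
(.lf (nat_lit 57289223) (dlOf (nat_lit 1) (nat_lit 0x8008000400200020009795003))))) 
(.nd (nat_lit 7) (.nd (nat_lit 9) (.nd (nat_lit 12) 
(.lf (nat_lit 36316423) (dlOf (nat_lit 1) (nat_lit 0x20019072f81))) 
(.lf (nat_lit 8008967) (dlOf (nat_lit 1) (nat_lit 0x1560008519601)))) 
(.lf (nat_lit 20069127) (dlOf (nat_lit 1) (nat_lit 0x200189db981)))) (.nd (nat_lit 11) 
(.lf (nat_lit 11673991) (dlOf (nat_lit 1) (nat_lit 0x40008053c002018600086c0783))) 
(.lf (nat_lit 36317575) (dlOf (nat_lit 1) (nat_lit 0x40019074e81))))))) (.nd (nat_lit 28) 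
(.nd (nat_lit 32) (.nd (nat_lit 10) (.nd (nat_lit 31) 
(.lf (nat_lit 1140989959) (dlOf (nat_lit 1) (nat_lit 0x400200040008050002))) 
(.lf (nat_lit 3288473607) (dlOf (nat_lit 1) (nat_lit 0x3960008020001)))) (.nd (nat_lit 7) 
(.lf (nat_lit 1610753543) (dlOf (nat_lit 1) (nat_lit 0x1ec00200a80008093682))) 
(.lf (nat_lit 3221372039) (dlOf (nat_lit 1) (nat_lit 0x2001811c201))))) (.nd (nat_lit 11) 
(.nd (nat_lit 27) (.lf (nat_lit 5368848391) (dlOf (nat_lit 1) (nat_lit 0xc0008040001))) 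
(.lf (nat_lit 5503066119) (dlOf (nat_lit 1) (nat_lit 0xc0008040001)))) 
(.lf (nat_lit 5905721351) (dlOf (nat_lit 1) (nat_lit 0x400200020008144702))))) (.nd (nat_lit 9) 
(.nd (nat_lit 7) (.nd (nat_lit 27) 
(.lf (nat_lit 4026671111) (dlOf (nat_lit 1) (nat_lit 0x3960008020001))) 
(.lf (nat_lit 2013405191) (dlOf (nat_lit 1) (nat_lit 0x400200040008050002)))) 
(.lf (nat_lit 1345988999) (dlOf (nat_lit 5) (nat_lit 0x2c1b200c0402003208d005aa8100020b0002d400800b82580151c0400c0004003a0008e24e82)))) 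
(.nd (nat_lit 11) (.nd (nat_lit 10) 
(.lf (nat_lit 4094304775) (dlOf (nat_lit 1) (nat_lit 0x8008000400200020008037b03))) 
(.lf (nat_lit 5637285383) (dlOf (nat_lit 1) (nat_lit 0x300080008002000200080d3683)))) 
(.nd (nat_lit 7) (.lf (nat_lit 6377581063) (dlOf (nat_lit 1) (nat_lit 0x4002007c00080e5002))) 
(.lf (nat_lit 6376532615) (dlOf (nat_lit 1) (nat_lit 0x400200020008095482)))))))) (.nd (nat_lit 23) 
(.nd (nat_lit 28) (.nd (nat_lit 10) (.nd (nat_lit 8) 
(.lf (nat_lit 3288473671) (dlOf (nat_lit 2) (nat_lit 0x440160003202002c0008020881))) 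
(.nd (nat_lit 19) (.lf (nat_lit 3892453703) (dlOf (nat_lit 1) (nat_lit 0x20018128701))) 
(.lf (nat_lit 50995527) (dlOf (nat_lit 1) (nat_lit 0x18004000400094e8702))))) (.nd (nat_lit 7) 
(.nd (nat_lit 8) 
(.lf (nat_lit 3959563335) (dlOf (nat_lit 9) (nat_lit 0x6c00e00af201003600700578c0801b003802bba0400bc01c002e00000aea8200360070057500801b003802ba60400d801c015d202006c00e00a26018112880))) 
(.lf (nat_lit 39986503) (dlOf (nat_lit 1) (nat_lit 0x400291f3301)))) 
(.lf (nat_lit 20590023) (dlOf (nat_lit 1) (nat_lit 0x30004001800189d6d02))))) (.nd (nat_lit 30) 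
(.nd (nat_lit 26) (.nd (nat_lit 27) 
(.lf (nat_lit 2416058439) (dlOf (nat_lit 1) (nat_lit 0x8008000c00200020008030f03))) 
(.lf (nat_lit 2550276167) (dlOf (nat_lit 1) (nat_lit 0x8008000c00200020008030f03)))) 
(.lf (nat_lit 4764868679) (dlOf (nat_lit 1) (nat_lit 0x20028040481)))) (.nd (nat_lit 19) 
(.nd (nat_lit 22) 
(.lf (nat_lit 4026671175) (dlOf (nat_lit 2) (nat_lit 0x440160003202002c0008020881))) 
(.lf (nat_lit 1346510919) (dlOf (nat_lit 1) (nat_lit 0x20018f80601)))) (.nd (nat_lit 10) 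
(.lf (nat_lit 1409949767) (dlOf (nat_lit 14) (nat_lit 0x190260000fc08030017c0004e0401840be0002602013c05f0001201004d02f80008c08027817c03480b20002004009c05f0000f81006902f802c81640003c0800980b20001a0200d405f006502c8003012c0050060000120800ce05f006d02c8008812c00180600001108023c059002d01800003c10003017c000000401a8002003800080a0e02))) 
(.lf (nat_lit 3490327623) (dlOf (nat_lit 1) (nat_lit 0x20028006081))))))) (.nd (nat_lit 9) 
(.nd (nat_lit 19) (.nd (nat_lit 7) (.nd (nat_lit 20) 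
(.lf (nat_lit 25305159) (dlOf (nat_lit 3) (nat_lit 0x99160001c010039c8b001ee1c00002e080040004005e0008bf0c82))) 
(.lf (nat_lit 11673671) (dlOf (nat_lit 1) (nat_lit 0x24004000600186c0002)))) 
(.lf (nat_lit 28451015) (dlOf (nat_lit 1) (nat_lit 0x6e0028da0481)))) (.nd (nat_lit 11) 
(.lf (nat_lit 10100807) (dlOf (nat_lit 1) (nat_lit 0x200285b0881))) 
(.lf (nat_lit 9058375) (dlOf (nat_lit 1) (nat_lit 0x800800040020002000851a683))))) (.nd (nat_lit 7) 
(.nd (nat_lit 21) (.lf (nat_lit 9577031) (dlOf (nat_lit 1) (nat_lit 0x10008000400200020008578d03))) 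
(.lf (nat_lit 11674183) (dlOf (nat_lit 1) (nat_lit 0x80080004002000200086c1103)))) 
(.lf (nat_lit 9056967) (dlOf (nat_lit 1) (nat_lit 0x400200020008518c82))))))) (.nd (nat_lit 26) 
(.nd (nat_lit 21) (.nd (nat_lit 27) (.nd (nat_lit 6) (.nd (nat_lit 19) (.nd (nat_lit 20) 
(.nd (nat_lit 28) 
(.lf (nat_lit 6442852359) (dlOf (nat_lit 1) (nat_lit 0x980080048002002e00081e0003))) 
(.lf (nat_lit 5637545991) (dlOf (nat_lit 3) (nat_lit 0x1c0000093802000c01900000018100000)))) 
(.lf (nat_lit 9838599) (dlOf (nat_lit 2) (nat_lit 0xc1e0004a8818580000)))) (.nd (nat_lit 20) 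
(.lf (nat_lit 9314311) (dlOf (nat_lit 1) (nat_lit 0x360008540281))) 
(.lf (nat_lit 3491635207) (dlOf (nat_lit 1) (nat_lit 0x50008000800200020008090003))))) 
(.nd (nat_lit 20) (.nd (nat_lit 22) 
(.lf (nat_lit 4026933319) (dlOf (nat_lit 3) (nat_lit 0x1f4040000350200fa0200000b8180d0c80))) 
(.lf (nat_lit 54927431) (dlOf (nat_lit 1) (nat_lit 0x1c00200040009670602)))) 
(.lf (nat_lit 26615879) (dlOf (nat_lit 1) (nat_lit 0x80080044002002a0008c50603))))) 
(.nd (nat_lit 30) (.nd (nat_lit 6) (.nd (nat_lit 7) 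
(.lf (nat_lit 2819497991) (dlOf (nat_lit 12) (nat_lit 0x481e000980e4025e06a00430348032818401300bc005605d001902580380108007407e00b201b0031f8b000a0348018f00805001a800c720402c80d40063602000c0720125035001701a400cc0c2003605e0017025802d8108003c07e005e01b003198900180350018b40800481b800380b6002805a000f01e000280ec011806c0078034001d019800280b00010056000802a00ae0110018a060018016c00c00780074036003501a0053808800c30140030058005dc02006a03600ad0110016e41000500d800b4a040268004004200182b0282))) 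
(.lf (nat_lit 134619527) (dlOf (nat_lit 2) (nat_lit 0xde03b003a0818090780)))) 
(.lf (nat_lit 134619719) (dlOf (nat_lit 2) (nat_lit 0x4094000240200020018091101)))) 
(.nd (nat_lit 6) (.nd (nat_lit 7) 
(.lf (nat_lit 3355844615) (dlOf (nat_lit 24) (nat_lit 0x1301a000280bc01bf8080018068007e02f006fd8200230178036380800480d0005805e00d8d04008803400320178036101000700c001a2a04000401e00d0c0201f80310065d810040019808c00c803f006200cb80601a40320065a010031019808d80c8043c06200ca70601d60320064f8101240190032180808800c802f806200c4c04015e032006258101320190030d40809500c80185804043806400c24020002034004c38100c40190025e80803400c8012f204002005e009770200020340005019000200b8000000c025c00400500008120002))) 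
(.lf (nat_lit 5773336711) (dlOf (nat_lit 1) (nat_lit 0x180080004002000600080c0e03)))) 
(.lf (nat_lit 3624283207) (dlOf (nat_lit 1) (nat_lit 0x20028146081)))))) (.nd (nat_lit 19) 
(.nd (nat_lit 6) (.nd (nat_lit 8) (.nd (nat_lit 9) 
(.lf (nat_lit 3547143) (dlOf (nat_lit 1) (nat_lit 0x38002001e0008200002))) 
(.lf (nat_lit 3547655) (dlOf (nat_lit 1) (nat_lit 0x20018200d81)))) 
(.lf (nat_lit 58073351) (dlOf (nat_lit 2) (nat_lit 0x2e19000110ca001c604001600097b7c01)))) 
(.nd (nat_lit 7) (.nd (nat_lit 20) 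
(.lf (nat_lit 1881546823) (dlOf (nat_lit 4) (nat_lit 0x403c0005940800681ec002920400d01c600040e2003503d80051c1800e8008000800200120008f40603))) 
(.lf (nat_lit 37101639) (dlOf (nat_lit 1) (nat_lit 0x10008000400200060009090603)))) 
(.lf (nat_lit 20327879) (dlOf (nat_lit 1) (nat_lit 0x400289d6d01))))) (.nd (nat_lit 7) 
(.nd (nat_lit 6) (.nd (nat_lit 22) 
(.lf (nat_lit 28188679) (dlOf (nat_lit 1) (nat_lit 0x100018d70281))) 
(.lf (nat_lit 15605767) (dlOf (nat_lit 1) (nat_lit 0x18008002000200020008810283)))) 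
(.lf (nat_lit 58598471) (dlOf (nat_lit 1) (nat_lit 0x800297e2881)))) (.nd (nat_lit 8) 
(.lf (nat_lit 19807367) (dlOf (nat_lit 1) (nat_lit 0x4004007800089dc202))) 
(.lf (nat_lit 3023239) (dlOf (nat_lit 1) (nat_lit 0x20028200781))))))) (.nd (nat_lit 27) 
(.nd (nat_lit 31) (.nd (nat_lit 6) (.nd (nat_lit 7) (.nd (nat_lit 28) 
(.lf (nat_lit 4899348487) (dlOf (nat_lit 1) (nat_lit 0x800400020018140002))) 
(.lf (nat_lit 6241525767) (dlOf (nat_lit 3) (nat_lit 0x1c00000ddc02000c01900000018100000)))) 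
(.lf (nat_lit 4362477959) (dlOf (nat_lit 4) (nat_lit 0x200cc01c6204002806600e3002006203300717818090780)))) 
(.nd (nat_lit 7) 
(.lf (nat_lit 1946558535) (dlOf (nat_lit 2) (nat_lit 0x2809c00068040010004001800180c1482))) 
(.lf (nat_lit 4362478023) (dlOf (nat_lit 2) (nat_lit 0x2a80660000002001c0008090981))))) 
(.nd (nat_lit 6) (.nd (nat_lit 9) (.nd (nat_lit 20) 
(.lf (nat_lit 3557695495) (dlOf (nat_lit 12) (nat_lit 0x481e000980e400ca064012f0308021818001300bc005605d0070022800c8108007407e00b201b005ea0b000a030002f3c0805001840179c0402c80c200bc902000c07200330320092818400b80c0003605e005b022800b8108003c07e005e01b005e4090018030802f080800481b800380b6002805a004601c000780d8001406a0078034001d019800280b00010056000802a00ae011002ef460018016c00e80700060036003501a005380880175a14003005800b8702006a03800ad011002d141000500e001674040268004004200182b0282))) 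
(.lf (nat_lit 2753437703) (dlOf (nat_lit 1) (nat_lit 0x50008000800200020008090003)))) 
(.lf (nat_lit 2755014151) (dlOf (nat_lit 1) (nat_lit 0x4002000200080f7002)))) (.nd (nat_lit 9) 
(.lf (nat_lit 3288735815) (dlOf (nat_lit 3) (nat_lit 0x1f4040000380200fa0200000b8180d0c80))) 
(.lf (nat_lit 2752389703) (dlOf (nat_lit 1) (nat_lit 0x10004000a0008018d02)))))) (.nd (nat_lit 29) 
(.nd (nat_lit 28) (.nd (nat_lit 6) (.nd (nat_lit 7) 
(.lf (nat_lit 4496695303) (dlOf (nat_lit 2) (nat_lit 0x2c01a0000000800b800800b4002009e0008120003))) 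
(.lf (nat_lit 201728391) (dlOf (nat_lit 2) (nat_lit 0xde03b00675018090780)))) 
(.lf (nat_lit 201728583) (dlOf (nat_lit 2) (nat_lit 0x4094000240200020018091101)))) 
(.nd (nat_lit 30) 
(.lf (nat_lit 2617647111) (dlOf (nat_lit 1) (nat_lit 0x78008000c002001a0008130003))) 
(.lf (nat_lit 5838872583) (dlOf (nat_lit 1) (nat_lit 0x980080048002002e00081e0003))))) 
(.nd (nat_lit 6) (.nd (nat_lit 8) 
(.lf (nat_lit 6376794759) (dlOf (nat_lit 1) (nat_lit 0x20018095481))) (.nd (nat_lit 11) 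
(.lf (nat_lit 4228260231) (dlOf (nat_lit 4) (nat_lit 0x200c8010180400280640080b02006203200405018090780))) 
(.lf (nat_lit 6376270215) (dlOf (nat_lit 1) (nat_lit 0x180018094e81))))) (.nd (nat_lit 8) 
(.lf (nat_lit 1009132743) (dlOf (nat_lit 3) (nat_lit 0xd80ec000280200160e3000e03b00007c1001f0008000c002000a0009082d03))) 
(.lf (nat_lit 4228260295) (dlOf (nat_lit 2) (nat_lit 0x2a80640000002001c0008090981))))))))) 
(.nd (nat_lit 28) (.nd (nat_lit 18) (.nd (nat_lit 20) (.nd (nat_lit 26) (.nd (nat_lit 7) 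
(.nd (nat_lit 8) (.nd (nat_lit 19) 
(.lf (nat_lit 2301959) (dlOf (nat_lit 1) (nat_lit 0x80008150001))) (.nd (nat_lit 27) 
(.lf (nat_lit 537600007) (dlOf (nat_lit 1) (nat_lit 0x200180d0001))) 
(.lf (nat_lit 134946823) (dlOf (nat_lit 2) (nat_lit 0xd806c0071202001000280e0001))))) 
(.nd (nat_lit 12) (.lf (nat_lit 36381959) (dlOf (nat_lit 1) (nat_lit 0x20019072f81))) 
(.lf (nat_lit 3355653383) (dlOf (nat_lit 1) (nat_lit 0x14004000200080a9602))))) (.nd (nat_lit 10) 
(.nd (nat_lit 6) (.lf (nat_lit 1208167047) (dlOf (nat_lit 1) (nat_lit 0x400200020008095482))) 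
(.lf (nat_lit 8598215) (dlOf (nat_lit 1) (nat_lit 0x20018518c81)))) (.nd (nat_lit 8) 
(.lf (nat_lit 2281911431) (dlOf (nat_lit 1) (nat_lit 0x200180a9501))) 
(.lf (nat_lit 2818781063) (dlOf (nat_lit 1) (nat_lit 0xc00400040008127782)))))) (.nd (nat_lit 27) 
(.nd (nat_lit 9) (.nd (nat_lit 29) 
(.lf (nat_lit 3288539143) (dlOf (nat_lit 1) (nat_lit 0x2000400020008080002))) 
(.lf (nat_lit 604184583) (dlOf (nat_lit 2) (nat_lit 0xd80d800cce04004800400080008080002)))) 
(.lf (nat_lit 6509768199) (dlOf (nat_lit 1) (nat_lit 0x400018147001)))) (.nd (nat_lit 6) 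
(.nd (nat_lit 7) (.nd (nat_lit 19) 
(.lf (nat_lit 4496498695) (dlOf (nat_lit 2) (nat_lit 0x2c00e0000000800b800800b4002009e0008090003))) 
(.lf (nat_lit 202055687) (dlOf (nat_lit 2) (nat_lit 0xd806c00cbb02001000280e0001)))) 
(.lf (nat_lit 1275273351) (dlOf (nat_lit 1) (nat_lit 0x8004000600080c0e02)))) (.nd (nat_lit 11) 
(.lf (nat_lit 738926919) (dlOf (nat_lit 1) (nat_lit 0x3f8008000400200180008148703))) 
(.lf (nat_lit 2885888327) (dlOf (nat_lit 1) (nat_lit 0x400400020008144d02))))))) (.nd (nat_lit 6) 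
(.nd (nat_lit 11) (.nd (nat_lit 7) (.nd (nat_lit 21) 
(.lf (nat_lit 22749191) (dlOf (nat_lit 1) (nat_lit 0x4002000c0008b20002))) 
(.lf (nat_lit 16457735) (dlOf (nat_lit 1) (nat_lit 0x4004000400088a0002)))) 
(.lf (nat_lit 9642119) (dlOf (nat_lit 2) (nat_lit 0x50ca0000a64300452ea002d0340018c194000320a002c0008570e01)))) 
(.nd (nat_lit 8) (.lf (nat_lit 20130823) (dlOf (nat_lit 1) (nat_lit 0x38008001c002000e00089d5f83))) 
(.lf (nat_lit 54209287) (dlOf (nat_lit 1) (nat_lit 0x48004003c0009655b02))))) (.nd (nat_lit 9) 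
(.nd (nat_lit 10) 
(.lf (nat_lit 62070855) (dlOf (nat_lit 1) (nat_lit 0x10008000400200020009940603))) 
(.lf (nat_lit 39003207) (dlOf (nat_lit 1) (nat_lit 0x38008000c00200020009192883)))) 
(.nd (nat_lit 7) (.nd (nat_lit 8) 
(.lf (nat_lit 11739719) (dlOf (nat_lit 1) (nat_lit 0x4002000200086c1102))) 
(.lf (nat_lit 54209351) (dlOf (nat_lit 2) (nat_lit 0x593180035a04001000400080019655c02)))) 
(.lf (nat_lit 20132551) (dlOf (nat_lit 1) (nat_lit 0x4002000200089d8c82))))))) (.nd (nat_lit 6) 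
(.nd (nat_lit 7) (.nd (nat_lit 20) (.nd (nat_lit 21) (.nd (nat_lit 26) 
(.lf (nat_lit 1611079687) (dlOf (nat_lit 1) (nat_lit 0x380080054002003000080d0003))) 
(.lf (nat_lit 738664455) (dlOf (nat_lit 1) (nat_lit 0x380080054002003000080d0003)))) 
(.lf (nat_lit 6758407) (dlOf (nat_lit 1) (nat_lit 0x100018450581)))) (.nd (nat_lit 21) 
(.lf (nat_lit 9904135) (dlOf (nat_lit 2) (nat_lit 0x3a2900aed818590000))) 
(.lf (nat_lit 7806983) (dlOf (nat_lit 1) (nat_lit 0x1000184e0581))))) (.nd (nat_lit 8) 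
(.nd (nat_lit 9) (.lf (nat_lit 1678188679) (dlOf (nat_lit 1) (nat_lit 0x200281a0101))) 
(.lf (nat_lit 61810311) (dlOf (nat_lit 1) (nat_lit 0x1000400040009923a02)))) (.nd (nat_lit 9) 
(.lf (nat_lit 61810055) (dlOf (nat_lit 2) (nat_lit 0x852d8005cc080018008001800200120009923603))) 
(.lf (nat_lit 19871623) (dlOf (nat_lit 1) (nat_lit 0x1000289da301)))))) (.nd (nat_lit 21) 
(.nd (nat_lit 26) (.nd (nat_lit 25) 
(.lf (nat_lit 6442917959) (dlOf (nat_lit 2) (nat_lit 0x1003a0008012800400680020030000260800040028220c81))) 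
(.lf (nat_lit 34021447) (dlOf (nat_lit 1) (nat_lit 0xb400400140008f90602)))) (.nd (nat_lit 7) 
(.nd (nat_lit 8) 
(.lf (nat_lit 738664519) (dlOf (nat_lit 4) (nat_lit 0x200540009c02001402a0004b0100030150000680800980080044002002200080d0483))) 
(.lf (nat_lit 1678188871) (dlOf (nat_lit 1) (nat_lit 0x1200181a0601)))) 
(.lf (nat_lit 1678188743) (dlOf (nat_lit 1) (nat_lit 0x200281a0401))))) (.nd (nat_lit 7) 
(.nd (nat_lit 19) (.lf (nat_lit 3612743) (dlOf (nat_lit 1) (nat_lit 0x20008210e01))) 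
(.lf (nat_lit 19865671) (dlOf (nat_lit 1) (nat_lit 0x100080050002000800089d0003)))) 
(.lf (nat_lit 19871175) (dlOf (nat_lit 1) (nat_lit 0x80080028002000200089d9a83))))))) 
(.nd (nat_lit 31) (.nd (nat_lit 6) (.nd (nat_lit 10) (.nd (nat_lit 18) (.nd (nat_lit 19) 
(.lf (nat_lit 1346576391) (dlOf (nat_lit 1) (nat_lit 0x400400020008fd0002))) 
(.lf (nat_lit 1410015239) (dlOf (nat_lit 1) (nat_lit 0x200180d0001)))) (.nd (nat_lit 7) 
(.lf (nat_lit 472850951) (dlOf (nat_lit 2) (nat_lit 0x202ca0003d0200280018b18001))) 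
(.lf (nat_lit 805773447) (dlOf (nat_lit 1) (nat_lit 0x200281a0101))))) (.nd (nat_lit 9) 
(.nd (nat_lit 8) (.lf (nat_lit 1346053127) (dlOf (nat_lit 1) (nat_lit 0x680028e22881))) 
(.lf (nat_lit 1409494279) (dlOf (nat_lit 1) (nat_lit 0x20028006681)))) (.nd (nat_lit 7) 
(.lf (nat_lit 5167588871) (dlOf (nat_lit 1) (nat_lit 0x4004000200180d3682))) 
(.lf (nat_lit 6375810695) (dlOf (nat_lit 1) (nat_lit 0x3800400160008003a02)))))) (.nd (nat_lit 7) 
(.nd (nat_lit 8) (.nd (nat_lit 10) 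
(.lf (nat_lit 5838938183) (dlOf (nat_lit 2) (nat_lit 0x1003a0008012800400680020030000250800040028220c81))) 
(.lf (nat_lit 1409494087) (dlOf (nat_lit 1) (nat_lit 0x20028006081)))) (.nd (nat_lit 18) 
(.lf (nat_lit 268640583) (dlOf (nat_lit 1) (nat_lit 0x124002004a00080e0c82))) 
(.lf (nat_lit 805773639) (dlOf (nat_lit 1) (nat_lit 0x1200181a0601))))) (.nd (nat_lit 8) 
(.nd (nat_lit 10) (.nd (nat_lit 18) 
(.lf (nat_lit 6376071367) (dlOf (nat_lit 1) (nat_lit 0x164004000c0008075882))) 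
(.lf (nat_lit 805773511) (dlOf (nat_lit 1) (nat_lit 0x200281a0401)))) 
(.lf (nat_lit 1543711943) (dlOf (nat_lit 5) (nat_lit 0x2025000e0098000d01000680b8008001800033040034025000600f8011804c00cc01800040000001905000f01280008c080020008003000200160008146383)))) 
(.nd (nat_lit 10) (.lf (nat_lit 6376335815) (dlOf (nat_lit 1) (nat_lit 0x140018094e81))) 
(.lf (nat_lit 1409494471) (dlOf (nat_lit 1) (nat_lit 0x10e0028006d01))))))) (.nd (nat_lit 7) 
(.nd (nat_lit 6) (.nd (nat_lit 8) (.nd (nat_lit 11) (.nd (nat_lit 26) 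
(.lf (nat_lit 4026736647) (dlOf (nat_lit 1) (nat_lit 0x2000400020008080002))) 
(.lf (nat_lit 3691192327) (dlOf (nat_lit 1) (nat_lit 0x380080004002000400080a0003)))) 
(.lf (nat_lit 3492751367) (dlOf (nat_lit 3) (nat_lit 0x1401d0002a81000c00e8001440800e80080070002000c00080f4703)))) 
(.nd (nat_lit 11) 
(.lf (nat_lit 2617455879) (dlOf (nat_lit 1) (nat_lit 0x480080060002001200080a9603))) 
(.lf (nat_lit 3489869063) (dlOf (nat_lit 1) (nat_lit 0x400400020008006682))))) (.nd (nat_lit 12) 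
(.nd (nat_lit 27) 
(.lf (nat_lit 3557236807) (dlOf (nat_lit 2) (nat_lit 0xec00a0001a0200240028170601))) 
(.lf (nat_lit 4228325447) (dlOf (nat_lit 1) (nat_lit 0x30004000a0018090002)))) 
(.lf (nat_lit 3556978759) (dlOf (nat_lit 1) (nat_lit 0x13c0018127d81))))) (.nd (nat_lit 8) 
(.nd (nat_lit 9) (.nd (nat_lit 12) 
(.lf (nat_lit 3624086663) (dlOf (nat_lit 1) (nat_lit 0x400400020008146182))) 
(.lf (nat_lit 3489873031) (dlOf (nat_lit 1) (nat_lit 0x6002800c201)))) 
(.lf (nat_lit 4027002503) (dlOf (nat_lit 1) (nat_lit 0xa00180f7181)))) (.nd (nat_lit 10) 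
(.nd (nat_lit 11) (.nd (nat_lit 27) 
(.lf (nat_lit 2416124295) (dlOf (nat_lit 1) (nat_lit 0x400400020008090782))) 
(.lf (nat_lit 2550342023) (dlOf (nat_lit 1) (nat_lit 0x400400020008090782)))) 
(.lf (nat_lit 3556981127) (dlOf (nat_lit 1) (nat_lit 0xa0008004c0020006000812af83)))) 
(.nd (nat_lit 6) (.lf (nat_lit 3489869191) (dlOf (nat_lit 1) (nat_lit 0x300008006c81))) 
(.lf (nat_lit 3556980167) (dlOf (nat_lit 1) (nat_lit 0x20028129a81))))))))))) (.nd (nat_lit 16) 
(.nd (nat_lit 2) (.nd (nat_lit 6) (.nd (nat_lit 18) (.nd (nat_lit 28) (.nd (nat_lit 20) 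
(.nd (nat_lit 19) (.nd (nat_lit 26) (.nd (nat_lit 21) 
(.lf (nat_lit 2281873411) (dlOf (nat_lit 1) (nat_lit 0x200280a0001))) 
(.lf (nat_lit 56795139) (dlOf (nat_lit 1) (nat_lit 0x8008003800200020009760003)))) 
(.nd (nat_lit 10) 
(.lf (nat_lit 1677899779) (dlOf (nat_lit 1) (nat_lit 0x400080054002000c000811a603))) 
(.lf (nat_lit 3959596035) (dlOf (nat_lit 1) (nat_lit 0x200018112881))))) (.nd (nat_lit 21) 
(.nd (nat_lit 22) (.lf (nat_lit 3893010435) (dlOf (nat_lit 1) (nat_lit 0x78004000a00082d0002))) 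
(.lf (nat_lit 4890627) (dlOf (nat_lit 1) (nat_lit 0x200282d0001)))) (.nd (nat_lit 8) 
(.nd (nat_lit 22) 
(.lf (nat_lit 2754256899) (dlOf (nat_lit 3) (nat_lit 0x444980184702001a1fe00140ae0000001000a00080088002001200080d0003))) 
(.lf (nat_lit 48930819) (dlOf (nat_lit 1) (nat_lit 0x40019450001)))) 
(.lf (nat_lit 69905155) (dlOf (nat_lit 2) (nat_lit 0x10a00000018818e15a80)))))) (.nd (nat_lit 19) 
(.nd (nat_lit 21) (.nd (nat_lit 23) 
(.lf (nat_lit 2752684035) (dlOf (nat_lit 2) (nat_lit 0x130ae000000080008008005c002001e0008030003))) 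
(.lf (nat_lit 26386435) (dlOf (nat_lit 1) (nat_lit 0x8008000400200020008c40003)))) 
(.nd (nat_lit 24) (.lf (nat_lit 11706371) (dlOf (nat_lit 1) (nat_lit 0x1200286c0001))) 
(.lf (nat_lit 62038019) (dlOf (nat_lit 1) (nat_lit 0x1a0009940001))))) (.nd (nat_lit 21) 
(.nd (nat_lit 22) (.lf (nat_lit 68853763) (dlOf (nat_lit 1) (nat_lit 0x80080004002000200087b0003))) 
(.lf (nat_lit 31105027) (dlOf (nat_lit 1) (nat_lit 0x8008006c00200900008e70003)))) 
(.nd (nat_lit 22) (.nd (nat_lit 23) 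
(.lf (nat_lit 3842051) (dlOf (nat_lit 1) (nat_lit 0x20018230001))) 
(.lf (nat_lit 45785091) (dlOf (nat_lit 2) (nat_lit 0x270900000019360000)))) 
(.lf (nat_lit 16424963) (dlOf (nat_lit 4) (nat_lit 0x891d4006280200448ea00033eb80188810000a3a800c30040064004002c00088a0002))))))) 
(.nd (nat_lit 8) (.nd (nat_lit 20) (.nd (nat_lit 21) (.nd (nat_lit 7) (.nd (nat_lit 22) 
(.lf (nat_lit 3691159555) (dlOf (nat_lit 1) (nat_lit 0x6d000400dc0008050002))) 
(.lf (nat_lit 1346543619) (dlOf (nat_lit 1) (nat_lit 0x200080020002004e0008fb0003)))) 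
(.lf (nat_lit 2013439619) (dlOf (nat_lit 1) (nat_lit 0x800400020008093a02)))) (.nd (nat_lit 19) 
(.lf (nat_lit 3491930115) (dlOf (nat_lit 1) (nat_lit 0x9800400040018090002))) 
(.lf (nat_lit 3492454403) (dlOf (nat_lit 3) (nat_lit 0x4446801bc002001a1ec00140ab8000001000a00080088002001200080d0003))))) 
(.nd (nat_lit 19) (.nd (nat_lit 26) 
(.lf (nat_lit 3490881539) (dlOf (nat_lit 2) (nat_lit 0x130ab800000080008008005c002001e0008030003))) 
(.lf (nat_lit 470982659) (dlOf (nat_lit 1) (nat_lit 0x80028220001)))) 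
(.lf (nat_lit 4095385603) (dlOf (nat_lit 1) (nat_lit 0x700080004002000a00080a0003))))) 
(.nd (nat_lit 11) (.nd (nat_lit 26) (.nd (nat_lit 7) 
(.lf (nat_lit 3624050947) (dlOf (nat_lit 1) (nat_lit 0x200080b0481))) 
(.lf (nat_lit 1342349699) (dlOf (nat_lit 1) (nat_lit 0x1c00200100008015a82)))) (.nd (nat_lit 9) 
(.lf (nat_lit 469934467) (dlOf (nat_lit 1) (nat_lit 0x1c00200100008015a82))) 
(.lf (nat_lit 2617422723) (dlOf (nat_lit 1) (nat_lit 0x18002000200080a9002))))) (.nd (nat_lit 7) 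
(.lf (nat_lit 3154295043) (dlOf (nat_lit 1) (nat_lit 0x1c001815a981))) (.nd (nat_lit 26) 
(.lf (nat_lit 805481859) (dlOf (nat_lit 3) (nat_lit 0x102a0000b008002015400044040034004000e0008116c02))) 
(.lf (nat_lit 1543679363) (dlOf (nat_lit 2) (nat_lit 0x740000000d0200040008146c01)))))))) 
(.nd (nat_lit 32) (.nd (nat_lit 20) (.nd (nat_lit 26) (.nd (nat_lit 21) (.nd (nat_lit 19) 
(.nd (nat_lit 22) 
(.lf (nat_lit 2819006467) (dlOf (nat_lit 11) (nat_lit 0x2b701c8000407e01d8b04002c07200ec48100150390075780801a000001d7804001403800d83020052072001500e0035f41003300fc01a1e04001007e000c021004d582000301f802684082b381c800780d40108042000a01f800f80d8002c042002a01c002000d800000405db80080d6c00200040008150003))) 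
(.lf (nat_lit 13017091) (dlOf (nat_lit 3) (nat_lit 0xd18fc0050c5001c6304002a63f0012314006f581007b8008051c002000e00086f0003)))) 
(.lf (nat_lit 17735683) (dlOf (nat_lit 1) (nat_lit 0xc004000200088f0002)))) (.nd (nat_lit 23) 
(.lf (nat_lit 36085763) (dlOf (nat_lit 1) (nat_lit 0x8008000800200020009020003))) 
(.lf (nat_lit 27697155) (dlOf (nat_lit 1) (nat_lit 0x180018d10001))))) (.nd (nat_lit 9) 
(.nd (nat_lit 19) 
(.lf (nat_lit 3557203971) (dlOf (nat_lit 3) (nat_lit 0x818c01b0804001007e00d400200180028160001))) 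
(.lf (nat_lit 470720515) (dlOf (nat_lit 1) (nat_lit 0x26000400e00008160002)))) 
(.lf (nat_lit 2886115843) (dlOf (nat_lit 1) (nat_lit 0x1800400200008157f82))))) (.nd (nat_lit 21) 
(.nd (nat_lit 19) (.nd (nat_lit 22) 
(.lf (nat_lit 9871363) (dlOf (nat_lit 1) (nat_lit 0x40018590001))) 
(.lf (nat_lit 5677059) (dlOf (nat_lit 1) (nat_lit 0x4004000200083c0002)))) 
(.lf (nat_lit 14589955) (dlOf (nat_lit 1) (nat_lit 0x8008000c00200020008770003)))) (.nd (nat_lit 7) 
(.lf (nat_lit 62301187) (dlOf (nat_lit 1) (nat_lit 0x4002000200099a2882))) (.nd (nat_lit 19) 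
(.lf (nat_lit 3580035) (dlOf (nat_lit 1) (nat_lit 0x1000400020008200102))) 
(.lf (nat_lit 12492931) (dlOf (nat_lit 1) (nat_lit 0x200086c0101))))))) (.nd (nat_lit 26) 
(.nd (nat_lit 27) (.nd (nat_lit 28) 
(.lf (nat_lit 5906014211) (dlOf (nat_lit 1) (nat_lit 0x20028180001))) (.nd (nat_lit 30) 
(.lf (nat_lit 4563836931) (dlOf (nat_lit 3) (nat_lit 0xa0030000100d801d041001f00c000e8004007c004008200080f0002))) 
(.lf (nat_lit 5637578755) (dlOf (nat_lit 2) (nat_lit 0x1001e000600100e8f828110000))))) 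
(.nd (nat_lit 19) 
(.lf (nat_lit 4698054659) (dlOf (nat_lit 3) (nat_lit 0xa0030000100d8033a81001f00c0019d204007c004008200080f0002))) 
(.lf (nat_lit 5773369347) (dlOf (nat_lit 1) (nat_lit 0xc00280c0001))))) (.nd (nat_lit 28) 
(.nd (nat_lit 31) (.lf (nat_lit 4362510339) (dlOf (nat_lit 1) (nat_lit 0xa8004003a0008090002))) 
(.lf (nat_lit 6509993987) (dlOf (nat_lit 1) (nat_lit 0x20028180001)))) (.nd (nat_lit 19) 
(.lf (nat_lit 6241558531) (dlOf (nat_lit 2) (nat_lit 0x1001e000600100ce2028110000))) 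
(.lf (nat_lit 6377349123) (dlOf (nat_lit 1) (nat_lit 0xc00280c0001)))))))) (.nd (nat_lit 8) 
(.nd (nat_lit 19) (.nd (nat_lit 7) (.nd (nat_lit 9) (.nd (nat_lit 18) 
(.lf (nat_lit 5234663491) (dlOf (nat_lit 1) (nat_lit 0x400400020008080482))) (.nd (nat_lit 26) 
(.lf (nat_lit 2819006531) (dlOf (nat_lit 6) (nat_lit 0x11a000000058100ba0000000280807c80000000e0403340000000602000807400c103980768000000000c01e8002005c0008150582))) 
(.lf (nat_lit 4362510403) (dlOf (nat_lit 1) (nat_lit 0xd400400400008090002))))) (.nd (nat_lit 21) 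
(.lf (nat_lit 5972861507) (dlOf (nat_lit 1) (nat_lit 0x120018158c81))) 
(.lf (nat_lit 3491930691) (dlOf (nat_lit 1) (nat_lit 0xe0018091101))))) (.nd (nat_lit 12) 
(.nd (nat_lit 18) 
(.lf (nat_lit 2885853379) (dlOf (nat_lit 2) (nat_lit 0x28000000340400a4002002e00080b0402))) 
(.nd (nat_lit 26) 
(.lf (nat_lit 1611047107) (dlOf (nat_lit 2) (nat_lit 0x80fc001c40400c8002000600080c1702))) 
(.lf (nat_lit 738631875) (dlOf (nat_lit 2) (nat_lit 0x301f80070000001be080040002002000080c1b82))))) 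
(.nd (nat_lit 9) (.nd (nat_lit 10) 
(.lf (nat_lit 3154292931) (dlOf (nat_lit 1) (nat_lit 0xc00400020008157f02))) 
(.lf (nat_lit 2214769859) (dlOf (nat_lit 1) (nat_lit 0x4000080008002001c00080a9503)))) 
(.lf (nat_lit 20099779) (dlOf (nat_lit 1) (nat_lit 0x4002000200089d8c82)))))) (.nd (nat_lit 18) 
(.nd (nat_lit 20) (.nd (nat_lit 26) (.nd (nat_lit 31) 
(.lf (nat_lit 1344970819) (dlOf (nat_lit 3) (nat_lit 0x7009c0038046801a8230004920c04842c001e609c00fa0468007c01800600080048002000400089a0603))) 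
(.lf (nat_lit 3492454467) (dlOf (nat_lit 2) (nat_lit 0xe1e3000308180d0c00)))) (.nd (nat_lit 27) 
(.lf (nat_lit 2754256963) (dlOf (nat_lit 2) (nat_lit 0xe1f5000320180d0c00))) 
(.lf (nat_lit 472555587) (dlOf (nat_lit 3) (nat_lit 0x2104680150230004920802842c0010609c00940468007c01800b80080064002002600089c0603))))) 
(.nd (nat_lit 7) (.nd (nat_lit 21) 
(.lf (nat_lit 1880793155) (dlOf (nat_lit 2) (nat_lit 0xb80dd00124818b90600))) 
(.lf (nat_lit 45785155) (dlOf (nat_lit 2) (nat_lit 0x18e82000470900013748008f01801d800800f800200640009360603)))) 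
(.lf (nat_lit 20624067) (dlOf (nat_lit 1) (nat_lit 0x200189d8c81))))) (.nd (nat_lit 7) 
(.nd (nat_lit 10) (.nd (nat_lit 20) 
(.lf (nat_lit 13541443) (dlOf (nat_lit 1) (nat_lit 0x20018730c01))) 
(.lf (nat_lit 473866307) (dlOf (nat_lit 2) (nat_lit 0x980d900123818fc0600)))) 
(.lf (nat_lit 5772321859) (dlOf (nat_lit 1) (nat_lit 0x80080004002000c0008092883)))) 
(.nd (nat_lit 27) 
(.lf (nat_lit 537829571) (dlOf (nat_lit 3) (nat_lit 0x503800009008002000000034040028004000c00081b0402))) 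
(.lf (nat_lit 5772320963) (dlOf (nat_lit 1) (nat_lit 0x8008003c002000e0008090783))))))) 
(.nd (nat_lit 7) (.nd (nat_lit 31) (.nd (nat_lit 18) (.nd (nat_lit 9) (.nd (nat_lit 10) 
(.lf (nat_lit 51028291) (dlOf (nat_lit 1) (nat_lit 0xc004000600094e8702))) 
(.lf (nat_lit 69903683) (dlOf (nat_lit 1) (nat_lit 0x400400020008e13302)))) 
(.lf (nat_lit 46312259) (dlOf (nat_lit 1) (nat_lit 0x400400020009385c02)))) (.nd (nat_lit 10) 
(.nd (nat_lit 20) 
(.lf (nat_lit 537829699) (dlOf (nat_lit 3) (nat_lit 0x190000000fc0800200000007c04004c004000400181b0602))) 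
(.lf (nat_lit 46047555) (dlOf (nat_lit 2) (nat_lit 0x865100004c080028008001c00200060009380c03)))) 
(.lf (nat_lit 40281411) (dlOf (nat_lit 1) (nat_lit 0x4004000200091f3302))))) (.nd (nat_lit 26) 
(.nd (nat_lit 10) (.nd (nat_lit 18) 
(.lf (nat_lit 2818744643) (dlOf (nat_lit 1) (nat_lit 0x400280f8701))) 
(.lf (nat_lit 3624313155) (dlOf (nat_lit 1) (nat_lit 0x2800800bc002007c0008154c03)))) 
(.lf (nat_lit 3489840451) (dlOf (nat_lit 1) (nat_lit 0xa002800c901)))) (.nd (nat_lit 11) 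
(.nd (nat_lit 18) 
(.lf (nat_lit 2885853507) (dlOf (nat_lit 1) (nat_lit 0x280080024002000e00080b0603))) 
(.lf (nat_lit 2886115651) (dlOf (nat_lit 1) (nat_lit 0x2800800bc002007c0008154c03)))) 
(.lf (nat_lit 2751637827) (dlOf (nat_lit 1) (nat_lit 0x20028004d01)))))) (.nd (nat_lit 9) 
(.nd (nat_lit 18) (.nd (nat_lit 21) 
(.lf (nat_lit 3556942275) (dlOf (nat_lit 1) (nat_lit 0xa0008107001))) (.nd (nat_lit 28) 
(.lf (nat_lit 2269635) (dlOf (nat_lit 1) (nat_lit 0x820028150901))) 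
(.lf (nat_lit 3491930563) (dlOf (nat_lit 1) (nat_lit 0x3400400040008090902))))) (.nd (nat_lit 26) 
(.lf (nat_lit 3491668419) (dlOf (nat_lit 1) (nat_lit 0x8008000400200020008090903))) 
(.lf (nat_lit 2753470915) (dlOf (nat_lit 1) (nat_lit 0x8008000400200020008090903))))) 
(.nd (nat_lit 11) (.nd (nat_lit 18) 
(.lf (nat_lit 3959596995) (dlOf (nat_lit 1) (nat_lit 0x800400040018114402))) 
(.lf (nat_lit 8300483) (dlOf (nat_lit 1) (nat_lit 0x60018514401)))) (.nd (nat_lit 10) 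
(.lf (nat_lit 19839939) (dlOf (nat_lit 2) (nat_lit 0x9b06c00374040034004000400189dbe02))) 
(.lf (nat_lit 3892490179) (dlOf (nat_lit 1) (nat_lit 0xa0018157a81))))))))) (.nd (nat_lit 18) 
(.nd (nat_lit 6) (.nd (nat_lit 28) (.nd (nat_lit 19) (.nd (nat_lit 7) (.nd (nat_lit 26) 
(.nd (nat_lit 8) (.lf (nat_lit 5905754119) (dlOf (nat_lit 1) (nat_lit 0x400200020008144702))) 
(.lf (nat_lit 2818744583) (dlOf (nat_lit 1) (nat_lit 0x3200080f7c01)))) (.nd (nat_lit 20) 
(.lf (nat_lit 6643949575) (dlOf (nat_lit 1) (nat_lit 0x20018090001))) 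
(.lf (nat_lit 2752684039) (dlOf (nat_lit 1) (nat_lit 0x1900080034002010c0008030003))))) 
(.nd (nat_lit 26) (.nd (nat_lit 9) 
(.lf (nat_lit 9609351) (dlOf (nat_lit 5) (nat_lit 0x843ac000360201424de00a90fc00a8878002382da01100d600aa065000b83100010004000321000101d600040e50003071400202f00002e08000e1d600030e50001071400102f00002d0800020018570e01))) 
(.lf (nat_lit 1745005191) (dlOf (nat_lit 1) (nat_lit 0x400400240008095482)))) (.nd (nat_lit 8) 
(.lf (nat_lit 5570207879) (dlOf (nat_lit 1) (nat_lit 0x10008002000200100008080e03))) 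
(.lf (nat_lit 4362248583) (dlOf (nat_lit 2) (nat_lit 0x100a200ca04500034028015b80)))))) 
(.nd (nat_lit 21) (.nd (nat_lit 27) (.nd (nat_lit 23) (.nd (nat_lit 22) 
(.lf (nat_lit 3221921799) (dlOf (nat_lit 1) (nat_lit 0x3a00081b0001))) 
(.lf (nat_lit 21667847) (dlOf (nat_lit 8) (nat_lit 0x24c1000b481000226080059c08001a9580018e040038984000bc020008a570005b8100012608000600800093040002e04007000200020008a60582)))) 
(.nd (nat_lit 20) (.lf (nat_lit 42639367) (dlOf (nat_lit 1) (nat_lit 0x400200040009260002))) 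
(.lf (nat_lit 10133511) (dlOf (nat_lit 1) (nat_lit 0x9800085b0001))))) (.nd (nat_lit 26) 
(.lf (nat_lit 134914055) (dlOf (nat_lit 1) (nat_lit 0x54002006200080e0002))) (.nd (nat_lit 29) 
(.lf (nat_lit 202022919) (dlOf (nat_lit 1) (nat_lit 0x54002006200080e0002))) 
(.lf (nat_lit 3960119303) (dlOf (nat_lit 1) (nat_lit 0x3a00081b0001)))))) (.nd (nat_lit 10) 
(.nd (nat_lit 20) (.lf (nat_lit 2754256903) (dlOf (nat_lit 2) (nat_lit 0x615c000000180d0000))) 
(.lf (nat_lit 16424967) (dlOf (nat_lit 3) (nat_lit 0x7d1d40004733002fa82001d4750016640800380080018002000e00088a0003)))) 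
(.nd (nat_lit 7) (.lf (nat_lit 36348935) (dlOf (nat_lit 1) (nat_lit 0x20019072881))) 
(.lf (nat_lit 53126791) (dlOf (nat_lit 1) (nat_lit 0x50008000c00200040009573a03))))))) 
(.nd (nat_lit 30) (.nd (nat_lit 26) (.nd (nat_lit 7) (.nd (nat_lit 8) 
(.lf (nat_lit 268607495) (dlOf (nat_lit 2) (nat_lit 0x400a000590180b0580))) 
(.lf (nat_lit 805481735) (dlOf (nat_lit 1) (nat_lit 0xb8008004800200020008116683)))) 
(.lf (nat_lit 805482119) (dlOf (nat_lit 2) (nat_lit 0x8000001c6040238002003a0008117182)))) 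
(.nd (nat_lit 7) (.nd (nat_lit 27) 
(.lf (nat_lit 4630683655) (dlOf (nat_lit 1) (nat_lit 0xa0008060581))) 
(.lf (nat_lit 4764901383) (dlOf (nat_lit 1) (nat_lit 0xa0008060581)))) 
(.lf (nat_lit 469934471) (dlOf (nat_lit 1) (nat_lit 0x8008000400200020008015b83))))) 
(.nd (nat_lit 7) (.nd (nat_lit 19) (.nd (nat_lit 9) (.nd (nat_lit 20) 
(.lf (nat_lit 3691159559) (dlOf (nat_lit 1) (nat_lit 0x8000200340008050002))) 
(.lf (nat_lit 3490881543) (dlOf (nat_lit 1) (nat_lit 0x1900080034002010c0008030003)))) 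
(.lf (nat_lit 3491930631) (dlOf (nat_lit 2) (nat_lit 0x10d68005a0080048008009c00200100008090d83)))) 
(.nd (nat_lit 20) (.lf (nat_lit 3492454407) (dlOf (nat_lit 2) (nat_lit 0x6157000000180d0000))) 
(.lf (nat_lit 1343922183) (dlOf (nat_lit 1) (nat_lit 0x20028380481))))) (.nd (nat_lit 9) 
(.nd (nat_lit 10) 
(.lf (nat_lit 6308405383) (dlOf (nat_lit 2) (nat_lit 0xee00e80030070031403601b601a00a700c006c005c014802800180130003007002d802002c000e001400400160000000c86802e0008000c00200020008070e03))) 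
(.lf (nat_lit 3489840263) (dlOf (nat_lit 1) (nat_lit 0x40040002000800c202)))) 
(.lf (nat_lit 2013439623) (dlOf (nat_lit 1) (nat_lit 0x8008002000200020008093a03))))))) 
(.nd (nat_lit 9) (.nd (nat_lit 10) (.nd (nat_lit 21) (.nd (nat_lit 26) (.nd (nat_lit 27) 
(.lf (nat_lit 2147655751) (dlOf (nat_lit 1) (nat_lit 0x80080004002000200080b0603))) 
(.lf (nat_lit 1476567111) (dlOf (nat_lit 1) (nat_lit 0x18002000c0008050602)))) (.nd (nat_lit 27) 
(.lf (nat_lit 1141022791) (dlOf (nat_lit 1) (nat_lit 0x20008090001))) 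
(.lf (nat_lit 1275240519) (dlOf (nat_lit 1) (nat_lit 0x80080004002000200080b0603))))) 
(.nd (nat_lit 7) (.nd (nat_lit 19) 
(.lf (nat_lit 52600903) (dlOf (nat_lit 3) (nat_lit 0xf5824004ac11005d5948007aca001094f6006ea69000ad060007534000238080100008001400200140009550603))) 
(.lf (nat_lit 1344970823) (dlOf (nat_lit 1) (nat_lit 0x1e00289a0601)))) 
(.lf (nat_lit 49981895) (dlOf (nat_lit 1) (nat_lit 0x14002000600094c4e82))))) (.nd (nat_lit 7) 
(.nd (nat_lit 21) (.nd (nat_lit 27) 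
(.lf (nat_lit 173127) (dlOf (nat_lit 1) (nat_lit 0x20028002881))) 
(.lf (nat_lit 2013439047) (dlOf (nat_lit 1) (nat_lit 0x8008000400200020008092883)))) 
(.lf (nat_lit 472032327) (dlOf (nat_lit 1) (nat_lit 0x400400020008802882)))) (.nd (nat_lit 8) 
(.nd (nat_lit 20) (.lf (nat_lit 55223495) (dlOf (nat_lit 1) (nat_lit 0xc00196d2d01))) 
(.lf (nat_lit 58369223) (dlOf (nat_lit 2) (nat_lit 0x8cfc000a67c001c26a0000b81800980080064002002800097e2d03)))) 
(.lf (nat_lit 805481927) (dlOf (nat_lit 1) (nat_lit 0x8008005c00200060008116d03)))))) 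
(.nd (nat_lit 7) (.nd (nat_lit 27) (.nd (nat_lit 8) 
(.lf (nat_lit 4362248775) (dlOf (nat_lit 3) (nat_lit 0x302800009008006015000040580001e0400020008018d01))) 
(.lf (nat_lit 2751637319) (dlOf (nat_lit 1) (nat_lit 0xfe800802cc00201100008003e03)))) 
(.nd (nat_lit 26) (.lf (nat_lit 939696711) (dlOf (nat_lit 2) (nat_lit 0x400000002f018158d00))) 
(.nd (nat_lit 28) 
(.lf (nat_lit 201499207) (dlOf (nat_lit 9) (nat_lit 0x8804a00560178001a41001c0128004c092009002f00034030040025002a80bc000ce0800ac094008a02f00033020046025000c0118015405e004a02a0002204003902500010124004408c009202f001f015000108280210128015805e0004104004c04a003f0178001001000f0008030800200040008018d03))) 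
(.lf (nat_lit 469934663) (dlOf (nat_lit 2) (nat_lit 0x30714000ce04000400400060008018d02)))))) 
(.nd (nat_lit 8) (.nd (nat_lit 10) 
(.lf (nat_lit 20099783) (dlOf (nat_lit 1) (nat_lit 0x4002000200089d8c82))) 
(.lf (nat_lit 175815) (dlOf (nat_lit 1) (nat_lit 0x20018007301)))) (.nd (nat_lit 10) 
(.lf (nat_lit 1141025735) (dlOf (nat_lit 2) (nat_lit 0x80240000e818095d80))) 
(.lf (nat_lit 2751637447) (dlOf (nat_lit 1) (nat_lit 0x400200020008004402)))))))) (.nd (nat_lit 7) 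
(.nd (nat_lit 6) (.nd (nat_lit 28) (.nd (nat_lit 19) (.nd (nat_lit 20) (.nd (nat_lit 10) 
(.nd (nat_lit 26) 
(.lf (nat_lit 1611046919) (dlOf (nat_lit 1) (nat_lit 0x30008003c002001400080c0003))) 
(.lf (nat_lit 738631687) (dlOf (nat_lit 1) (nat_lit 0x30008003c002001400080c0003)))) 
(.lf (nat_lit 8823815) (dlOf (nat_lit 1) (nat_lit 0x20028512881)))) (.nd (nat_lit 22) 
(.lf (nat_lit 68591623) (dlOf (nat_lit 1) (nat_lit 0x400085f0281))) 
(.lf (nat_lit 22454279) (dlOf (nat_lit 3) (nat_lit 0xd8000002a35000c68200115878005e00800780080050002000e0008ae0483))))) 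
(.nd (nat_lit 20) (.nd (nat_lit 21) 
(.lf (nat_lit 17735687) (dlOf (nat_lit 1) (nat_lit 0x2e00088f0481))) 
(.lf (nat_lit 15638535) (dlOf (nat_lit 3) (nat_lit 0x73a20018000800b9d0c00b7204000400400140008810282)))) 
(.lf (nat_lit 22978567) (dlOf (nat_lit 1) (nat_lit 0x280080018002000c0008b40003))))) 
(.nd (nat_lit 10) (.nd (nat_lit 30) (.nd (nat_lit 27) 
(.lf (nat_lit 4563836935) (dlOf (nat_lit 1) (nat_lit 0x400080f0581))) 
(.lf (nat_lit 4698054663) (dlOf (nat_lit 1) (nat_lit 0x400080f0581)))) (.nd (nat_lit 26) 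
(.lf (nat_lit 5637578759) (dlOf (nat_lit 1) (nat_lit 0x40018110001))) 
(.lf (nat_lit 6241558535) (dlOf (nat_lit 1) (nat_lit 0x40018110001))))) (.nd (nat_lit 19) 
(.lf (nat_lit 1880531975) (dlOf (nat_lit 1) (nat_lit 0x1400289e2881))) 
(.lf (nat_lit 3492717575) (dlOf (nat_lit 1) (nat_lit 0x8002000200080f2882)))))) (.nd (nat_lit 27) 
(.nd (nat_lit 26) (.nd (nat_lit 8) 
(.lf (nat_lit 537305671) (dlOf (nat_lit 1) (nat_lit 0x20028091101))) 
(.lf (nat_lit 20362567) (dlOf (nat_lit 1) (nat_lit 0x1a000400d200089d9902)))) (.nd (nat_lit 19) 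
(.lf (nat_lit 1409720903) (dlOf (nat_lit 1) (nat_lit 0x20028091101))) 
(.lf (nat_lit 2752422471) (dlOf (nat_lit 2) (nat_lit 0x1608800000018018d00))))) (.nd (nat_lit 9) 
(.nd (nat_lit 10) 
(.lf (nat_lit 2819006535) (dlOf (nat_lit 2) (nat_lit 0x2c038000900f40003608000400400040008150602))) 
(.lf (nat_lit 5772321863) (dlOf (nat_lit 1) (nat_lit 0x35800800e0002012c0008092883)))) 
(.nd (nat_lit 26) (.lf (nat_lit 134652487) (dlOf (nat_lit 1) (nat_lit 0x40028091101))) 
(.lf (nat_lit 201761351) (dlOf (nat_lit 1) (nat_lit 0x40028091101))))))) (.nd (nat_lit 30) 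
(.nd (nat_lit 11) (.nd (nat_lit 8) (.nd (nat_lit 22) 
(.lf (nat_lit 537305223) (dlOf (nat_lit 1) (nat_lit 0x28008002c00200100008090103))) 
(.lf (nat_lit 21405831) (dlOf (nat_lit 1) (nat_lit 0x20028a30f01)))) (.nd (nat_lit 26) 
(.nd (nat_lit 27) (.lf (nat_lit 805740935) (dlOf (nat_lit 1) (nat_lit 0x4004000200181a0782))) 
(.lf (nat_lit 134652295) (dlOf (nat_lit 1) (nat_lit 0x400400020008090782)))) 
(.lf (nat_lit 201761159) (dlOf (nat_lit 1) (nat_lit 0x400400020008090782))))) (.nd (nat_lit 6) 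
(.lf (nat_lit 41331079) (dlOf (nat_lit 1) (nat_lit 0x180019244e81))) (.nd (nat_lit 23) 
(.lf (nat_lit 472295879) (dlOf (nat_lit 2) (nat_lit 0x50a1802fdc080020008000c00200040008984e83))) 
(.lf (nat_lit 44476871) (dlOf (nat_lit 1) (nat_lit 0x20029324e81)))))) (.nd (nat_lit 26) 
(.nd (nat_lit 6) (.nd (nat_lit 8) 
(.lf (nat_lit 5773369479) (dlOf (nat_lit 1) (nat_lit 0x300080080002000600080c0e03))) 
(.lf (nat_lit 3221660039) (dlOf (nat_lit 2) (nat_lit 0x10118010fe04000800200020008170782)))) 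
(.lf (nat_lit 1344711111) (dlOf (nat_lit 1) (nat_lit 0x20008984e81)))) (.nd (nat_lit 8) 
(.lf (nat_lit 1409720455) (dlOf (nat_lit 1) (nat_lit 0x28008002c00200100008090103))) 
(.nd (nat_lit 27) (.lf (nat_lit 1678156167) (dlOf (nat_lit 1) (nat_lit 0x4004000200181a0782))) 
(.lf (nat_lit 3959857543) (dlOf (nat_lit 2) (nat_lit 0x1011801d4804000800200020008170782)))))))))) 
(.nd (nat_lit 6) (.nd (nat_lit 28) (.nd (nat_lit 2) (.nd (nat_lit 21) (.nd (nat_lit 18) 
(.nd (nat_lit 23) (.nd (nat_lit 7) (.nd (nat_lit 10) 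
(.lf (nat_lit 604217347) (dlOf (nat_lit 1) (nat_lit 0x54002000c00080b0002))) 
(.lf (nat_lit 4832076803) (dlOf (nat_lit 1) (nat_lit 0x200280d2881)))) 
(.lf (nat_lit 1677959555) (dlOf (nat_lit 2) (nat_lit 0x5c0760043f0200020028125a81)))) 
(.nd (nat_lit 9) (.nd (nat_lit 24) 
(.lf (nat_lit 42704899) (dlOf (nat_lit 1) (nat_lit 0x40029270001))) 
(.lf (nat_lit 59482115) (dlOf (nat_lit 4) (nat_lit 0x589a80089c02001c67d000e3330002965000fe20c009ccf800286660008332800193500000010003c00400020009800002)))) 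
(.lf (nat_lit 9675267) (dlOf (nat_lit 1) (nat_lit 0x1c0008577f81))))) (.nd (nat_lit 26) 
(.nd (nat_lit 20) (.nd (nat_lit 23) 
(.lf (nat_lit 1611112451) (dlOf (nat_lit 1) (nat_lit 0x58008000c002000200080e0003))) 
(.lf (nat_lit 42442755) (dlOf (nat_lit 1) (nat_lit 0x400400020009250002)))) 
(.lf (nat_lit 9936899) (dlOf (nat_lit 1) (nat_lit 0xc400400220008590002)))) (.nd (nat_lit 7) 
(.nd (nat_lit 20) 
(.lf (nat_lit 738697219) (dlOf (nat_lit 1) (nat_lit 0x58008000c002000200080e0003))) 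
(.lf (nat_lit 2753011715) (dlOf (nat_lit 1) (nat_lit 0x1400400020018070002)))) 
(.lf (nat_lit 1678221443) (dlOf (nat_lit 2) (nat_lit 0xa6051009601d0000bc1005200080138002004400081a0103)))))) 
(.nd (nat_lit 19) (.nd (nat_lit 18) (.nd (nat_lit 20) (.nd (nat_lit 7) 
(.lf (nat_lit 52666371) (dlOf (nat_lit 1) (nat_lit 0xe0029560001))) 
(.lf (nat_lit 2334851) (dlOf (nat_lit 1) (nat_lit 0x800400080018150102)))) (.nd (nat_lit 22) 
(.lf (nat_lit 62103555) (dlOf (nat_lit 2) (nat_lit 0x1628f0024ca04002000400060009950002))) 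
(.lf (nat_lit 24354819) (dlOf (nat_lit 1) (nat_lit 0x200008b90001))))) (.nd (nat_lit 20) 
(.nd (nat_lit 22) 
(.lf (nat_lit 10985475) (dlOf (nat_lit 2) (nat_lit 0x280000168302002c0018650001))) 
(.lf (nat_lit 48734211) (dlOf (nat_lit 2) (nat_lit 0x95de003f8019420000)))) 
(.lf (nat_lit 3645443) (dlOf (nat_lit 1) (nat_lit 0x400400020008210002))))) (.nd (nat_lit 7) 
(.nd (nat_lit 18) (.nd (nat_lit 20) 
(.lf (nat_lit 2859011) (dlOf (nat_lit 1) (nat_lit 0x200181c0001))) 
(.lf (nat_lit 45850627) (dlOf (nat_lit 1) (nat_lit 0x10000400080009360002)))) 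
(.lf (nat_lit 29335555) (dlOf (nat_lit 1) (nat_lit 0x20028df0001)))) (.nd (nat_lit 9) 
(.nd (nat_lit 11) (.lf (nat_lit 19641475) (dlOf (nat_lit 1) (nat_lit 0x8004002a00089d9502))) 
(.lf (nat_lit 19901571) (dlOf (nat_lit 1) (nat_lit 0x2a00189d6101)))) 
(.lf (nat_lit 61580931) (dlOf (nat_lit 1) (nat_lit 0x20019923a01))))))) (.nd (nat_lit 19) 
(.nd (nat_lit 7) (.nd (nat_lit 21) (.nd (nat_lit 8) (.nd (nat_lit 18) 
(.lf (nat_lit 1141088263) (dlOf (nat_lit 1) (nat_lit 0x4c004000400080c0002))) 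
(.lf (nat_lit 13082631) (dlOf (nat_lit 1) (nat_lit 0xc002000400086f0002)))) 
(.lf (nat_lit 3422795015) (dlOf (nat_lit 2) (nat_lit 0x40720005a02001600180a9601)))) 
(.nd (nat_lit 9) (.nd (nat_lit 22) 
(.lf (nat_lit 44277767) (dlOf (nat_lit 1) (nat_lit 0x20002001a00092e0002))) 
(.lf (nat_lit 14917639) (dlOf (nat_lit 1) (nat_lit 0x260028790001)))) 
(.lf (nat_lit 58171911) (dlOf (nat_lit 3) (nat_lit 0xd4c88029e0080232be0014cc040128004068e00197c7b02))))) 
(.nd (nat_lit 18) (.nd (nat_lit 8) (.nd (nat_lit 21) 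
(.lf (nat_lit 9674887) (dlOf (nat_lit 5) (nat_lit 0x27a48008fd22802ee90c018b482005ba3f000dd18001ce77c01773b800b1957005cc270008df14004d288005893500183e60000d87000864e401ed29a0032944000549a800ba45801ed18201068a3006e4380007a12c021d06800f67c0001922a801e0f5001ec79e000321c012da45004ad21801de90400d747e00679dc00017050098d22801fe90c00cf482005ba3f002fcee0000b42809680080494002011e0008570e03))) 
(.lf (nat_lit 62103687) (dlOf (nat_lit 3) (nat_lit 0xfb296c00bd4a20040a4f0001903000552d8000b8080098008006c002005e0009950e03)))) 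
(.nd (nat_lit 20) 
(.lf (nat_lit 1677959559) (dlOf (nat_lit 3) (nat_lit 0xe03500034810001022000500ec00180360003f0600020028125b81))) 
(.lf (nat_lit 9675143) (dlOf (nat_lit 1) (nat_lit 0x20028575b81))))) (.nd (nat_lit 21) 
(.nd (nat_lit 26) 
(.lf (nat_lit 3221725319) (dlOf (nat_lit 2) (nat_lit 0x1100000000004004c00200420008170102))) 
(.lf (nat_lit 3959922823) (dlOf (nat_lit 2) (nat_lit 0x1100000000004004c00200420008170102)))) 
(.lf (nat_lit 23568519) (dlOf (nat_lit 1) (nat_lit 0x180008b80101)))))) (.nd (nat_lit 8) 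
(.nd (nat_lit 18) (.nd (nat_lit 7) (.nd (nat_lit 9) 
(.lf (nat_lit 2755371015) (dlOf (nat_lit 1) (nat_lit 0x20018170481))) 
(.lf (nat_lit 51094023) (dlOf (nat_lit 1) (nat_lit 0x200080004002000600094f7b03)))) 
(.lf (nat_lit 19641479) (dlOf (nat_lit 1) (nat_lit 0x2800089d9501)))) (.nd (nat_lit 9) 
(.nd (nat_lit 21) (.lf (nat_lit 51355655) (dlOf (nat_lit 1) (nat_lit 0x8008000400200020009510003))) 
(.lf (nat_lit 24092679) (dlOf (nat_lit 1) (nat_lit 0x5c0008b80001)))) 
(.lf (nat_lit 42968583) (dlOf (nat_lit 1) (nat_lit 0x200292a3681))))) (.nd (nat_lit 7) 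
(.nd (nat_lit 11) 
(.lf (nat_lit 20690183) (dlOf (nat_lit 1) (nat_lit 0x100080004002000200089d9603))) 
(.nd (nat_lit 12) (.lf (nat_lit 4362841351) (dlOf (nat_lit 1) (nat_lit 0x20028116681))) 
(.lf (nat_lit 67878151) (dlOf (nat_lit 1) (nat_lit 0x40040002000833c602))))) (.nd (nat_lit 10) 
(.lf (nat_lit 19639175) (dlOf (nat_lit 1) (nat_lit 0x4004000200189d5c02))) 
(.lf (nat_lit 19640199) (dlOf (nat_lit 1) (nat_lit 0x40004000400189d7782)))))))) (.nd (nat_lit 30) 
(.nd (nat_lit 29) (.nd (nat_lit 19) (.nd (nat_lit 27) (.nd (nat_lit 9) (.nd (nat_lit 18) 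
(.lf (nat_lit 4563640323) (dlOf (nat_lit 4) (nat_lit 0x405e01a3b02002002d00d148100010178067700800a00080054002008400080b0003))) 
(.lf (nat_lit 2416418819) (dlOf (nat_lit 4) (nat_lit 0x401200020088000803c000401a005ed08000201200050088003003c001801a005ec08000a01200050088003003c001801a005e908000a00081c0001)))) 
(.lf (nat_lit 2483266051) (dlOf (nat_lit 58) (nat_lit 0x5200780085808010003c004240400ac01e0020402007600f0010101003000780069808004803c003480404ec01e001a102002400f000d001013900780065c08094003c0032804001c01e0019202001a00f000c801004d007803a0034011c00000169060002010000e00680030000002d00c001001a001670201da00f014f0068005981003d803c032001a0016304012e00f000a681013600780053008016803c00294040028020000200f000a2820062007800510080020040006001e001430401f400f000a1010006015000300400027a08011c0200013c02028c0100009d8100650080004e40809d80400025e040504020001260202440100009201014500800047c080170040002380400bc02000240000008b8200120080003ac080258040004c01e000e50402720100006e010139008000364080a48040001b0040150020000d60200260100006a81003e0080005003c0019e08009801e000ca02001c0100006381002c0080003180800700400018a0400dc020000c402039c010003b0070002f0100a180400016e04001001a0003f02000200d0001f0100010068000b80800100340005604051002000023020118025002600e8006004001dc0000001808001c0100000781001c0080000000802980080440002094a0008090d83))))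 
(.nd (nat_lit 18) (.nd (nat_lit 26) 
(.lf (nat_lit 4697858051) (dlOf (nat_lit 4) (nat_lit 0x405e01da002002002d00ebd01000101780750c0800a00080054002008400080b0003))) 
(.lf (nat_lit 469999619) (dlOf (nat_lit 1) (nat_lit 0x20018020001)))) 
(.lf (nat_lit 2550636547) (dlOf (nat_lit 4) (nat_lit 0x401200020088000803c000401a00b7d08000201200050088003003c001801a00b7c08000a01200050088003003c001801a00b7908000a00081c0001))))) 
(.nd (nat_lit 2) (.nd (nat_lit 21) 
(.lf (nat_lit 470523907) (dlOf (nat_lit 4) (nat_lit 0x3038c00ea50200481c600050de003a8c10006000001d2c04003000200140008110002))) 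
(.lf (nat_lit 472621059) (dlOf (nat_lit 1) (nat_lit 0x180080004002000400089d0003)))) 
(.nd (nat_lit 20) (.lf (nat_lit 470523911) (dlOf (nat_lit 1) (nat_lit 0x1000400120008110582))) 
(.lf (nat_lit 471572487) (dlOf (nat_lit 1) (nat_lit 0x680080048002001c0008340283)))))) 
(.nd (nat_lit 7) (.nd (nat_lit 10) (.nd (nat_lit 18) 
(.lf (nat_lit 2953027587) (dlOf (nat_lit 1) (nat_lit 0x380080198002009c00080b0003))) 
(.lf (nat_lit 1009229827) (dlOf (nat_lit 2) (nat_lit 0x33c1c0007f002000400290a0001)))) 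
(.nd (nat_lit 2) 
(.lf (nat_lit 5234729987) (dlOf (nat_lit 1) (nat_lit 0x80080014002000400080d2883))) 
(.lf (nat_lit 5234730503) (dlOf (nat_lit 1) (nat_lit 0x80080044002000c00080d3683))))) 
(.nd (nat_lit 8) (.nd (nat_lit 9) 
(.lf (nat_lit 805806211) (dlOf (nat_lit 2) (nat_lit 0xa6051009601d0000bc1005200080138002004400081a0103))) 
(.lf (nat_lit 5234730627) (dlOf (nat_lit 1) (nat_lit 0x4004000200080d3a02)))) (.nd (nat_lit 2) 
(.lf (nat_lit 805544323) (dlOf (nat_lit 2) (nat_lit 0x5c076009d40200020028125a81))) 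
(.lf (nat_lit 805544327) (dlOf (nat_lit 2) (nat_lit 0x1200000004004007000200b40008125c02))))))) 
(.nd (nat_lit 19) (.nd (nat_lit 2) (.nd (nat_lit 32) (.nd (nat_lit 9) 
(.lf (nat_lit 1344775171) (dlOf (nat_lit 1) (nat_lit 0x800400020008982882))) 
(.lf (nat_lit 3494093315) (dlOf (nat_lit 1) (nat_lit 0x4002000400081b0d82)))) (.nd (nat_lit 7) 
(.lf (nat_lit 5704491011) (dlOf (nat_lit 1) (nat_lit 0x400280d0001))) 
(.lf (nat_lit 6174253443) (dlOf (nat_lit 1) (nat_lit 0x200280d1001))))) (.nd (nat_lit 9) 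
(.nd (nat_lit 7) (.nd (nat_lit 18) 
(.lf (nat_lit 2013503495) (dlOf (nat_lit 1) (nat_lit 0x4c004000400080c0002))) 
(.lf (nat_lit 4095188999) (dlOf (nat_lit 1) (nat_lit 0x400200020008070002)))) 
(.lf (nat_lit 1881645191) (dlOf (nat_lit 1) (nat_lit 0x2c00400020008f90f02)))) (.nd (nat_lit 18) 
(.nd (nat_lit 31) 
(.lf (nat_lit 1879286279) (dlOf (nat_lit 1) (nat_lit 0x680080004002000e00080c0d83))) 
(.lf (nat_lit 4026769927) (dlOf (nat_lit 3) (nat_lit 0x340400014d02012400b0006e818090d80)))) 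
(.lf (nat_lit 1345823239) (dlOf (nat_lit 1) (nat_lit 0x1e0028e07b01)))))) (.nd (nat_lit 20) 
(.nd (nat_lit 2) (.nd (nat_lit 7) (.nd (nat_lit 21) 
(.lf (nat_lit 1342939139) (dlOf (nat_lit 4) (nat_lit 0x3038c008800200481c600050de0021f8100060000010e204003000200140008110002))) 
(.lf (nat_lit 1345036291) (dlOf (nat_lit 1) (nat_lit 0x88008005c002002000089d0003)))) 
(.lf (nat_lit 6376368771) (dlOf (nat_lit 1) (nat_lit 0x400200020008095482)))) (.nd (nat_lit 21) 
(.lf (nat_lit 1342939143) (dlOf (nat_lit 1) (nat_lit 0x1000400120008110582))) 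
(.lf (nat_lit 1345036295) (dlOf (nat_lit 1) (nat_lit 0x400189d0001))))) (.nd (nat_lit 21) 
(.nd (nat_lit 27) (.nd (nat_lit 7) 
(.lf (nat_lit 3491471875) (dlOf (nat_lit 1) (nat_lit 0x400200020008090d82))) 
(.lf (nat_lit 3491733635) (dlOf (nat_lit 1) (nat_lit 0x30008000400200020008090103)))) 
(.nd (nat_lit 26) (.lf (nat_lit 5773172739) (dlOf (nat_lit 1) (nat_lit 0xb8004003800080b0002))) 
(.lf (nat_lit 6377152515) (dlOf (nat_lit 1) (nat_lit 0xb8004003800080b0002))))) (.nd (nat_lit 2) 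
(.nd (nat_lit 9) (.lf (nat_lit 1346084867) (dlOf (nat_lit 1) (nat_lit 0x20018e30001))) 
(.lf (nat_lit 3493831171) (dlOf (nat_lit 1) (nat_lit 0x200181b0d81)))) 
(.lf (nat_lit 3493568519) (dlOf (nat_lit 1) (nat_lit 0x20018170481))))))))) (.nd (nat_lit 2) 
(.nd (nat_lit 18) (.nd (nat_lit 28) (.nd (nat_lit 9) (.nd (nat_lit 25) (.nd (nat_lit 8) 
(.nd (nat_lit 19) (.nd (nat_lit 27) 
(.lf (nat_lit 4295204931) (dlOf (nat_lit 1) (nat_lit 0x4004000200080b0d02))) 
(.lf (nat_lit 4429422659) (dlOf (nat_lit 1) (nat_lit 0x4004000200080b0d02)))) 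
(.lf (nat_lit 2754322499) (dlOf (nat_lit 2) (nat_lit 0x887f400044040004004000400180d0c02)))) 
(.nd (nat_lit 26) 
(.lf (nat_lit 537108803) (dlOf (nat_lit 2) (nat_lit 0x10150014b404000400400100018014c02))) 
(.lf (nat_lit 1677959491) (dlOf (nat_lit 1) (nat_lit 0x1a0028124c01))))) (.nd (nat_lit 10) 
(.nd (nat_lit 7) 
(.lf (nat_lit 59482179) (dlOf (nat_lit 2) (nat_lit 0x13e67d008933e005819980270cca014a594008c2c9804f939802ec9a80015410000c0029800601))) 
(.lf (nat_lit 41132483) (dlOf (nat_lit 1) (nat_lit 0x400400020009227002)))) (.nd (nat_lit 19) 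
(.lf (nat_lit 51619011) (dlOf (nat_lit 1) (nat_lit 0x400400020009512d02))) 
(.lf (nat_lit 58434755) (dlOf (nat_lit 2) (nat_lit 0x84ae000040197e2d00)))))) (.nd (nat_lit 10) 
(.nd (nat_lit 7) (.nd (nat_lit 11) 
(.lf (nat_lit 1677959747) (dlOf (nat_lit 1) (nat_lit 0x400200020008128c82))) 
(.lf (nat_lit 32221763) (dlOf (nat_lit 1) (nat_lit 0x60018ef5201)))) 
(.lf (nat_lit 20165315) (dlOf (nat_lit 1) (nat_lit 0x80080004002000200089d8c83)))) 
(.nd (nat_lit 20) (.nd (nat_lit 30) 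
(.lf (nat_lit 4832077379) (dlOf (nat_lit 1) (nat_lit 0x200280d3801))) 
(.lf (nat_lit 1610851907) (dlOf (nat_lit 1) (nat_lit 0x80028093801)))) 
(.lf (nat_lit 43230787) (dlOf (nat_lit 1) (nat_lit 0xa00192a3801)))))) (.nd (nat_lit 29) 
(.nd (nat_lit 30) (.nd (nat_lit 9) (.nd (nat_lit 27) 
(.lf (nat_lit 4563640387) (dlOf (nat_lit 1) (nat_lit 0x200080010002000e00080b0583))) 
(.lf (nat_lit 4697858115) (dlOf (nat_lit 1) (nat_lit 0x200080010002000e00080b0583)))) 
(.lf (nat_lit 4764968515) (dlOf (nat_lit 1) (nat_lit 0x20028093801)))) (.nd (nat_lit 8) 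
(.nd (nat_lit 20) 
(.lf (nat_lit 3492520003) (dlOf (nat_lit 2) (nat_lit 0x887ac00044040004004000400180d0c02))) 
(.lf (nat_lit 1343987779) (dlOf (nat_lit 1) (nat_lit 0xa0028390e81)))) 
(.lf (nat_lit 1409524035) (dlOf (nat_lit 2) (nat_lit 0x101500098a04000400400100018014c02))))) 
(.nd (nat_lit 8) (.nd (nat_lit 7) (.nd (nat_lit 26) 
(.lf (nat_lit 1879286339) (dlOf (nat_lit 2) (nat_lit 0x140b00004a02000200280c1101))) 
(.lf (nat_lit 1006871107) (dlOf (nat_lit 2) (nat_lit 0x140b00004a02000200280c1101)))) 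
(.lf (nat_lit 1880335555) (dlOf (nat_lit 1) (nat_lit 0x20018862d01)))) (.nd (nat_lit 21) 
(.lf (nat_lit 805544259) (dlOf (nat_lit 1) (nat_lit 0x1a0028124c01))) 
(.lf (nat_lit 1008968003) (dlOf (nat_lit 5) (nat_lit 0x2780c80002702013e0640000481009d0320000140804d01900000004005400400100009000c02))))))) 
(.nd (nat_lit 8) (.nd (nat_lit 24) (.nd (nat_lit 19) (.nd (nat_lit 9) 
(.lf (nat_lit 4228358211) (dlOf (nat_lit 1) (nat_lit 0x80028090001))) 
(.lf (nat_lit 12034627) (dlOf (nat_lit 1) (nat_lit 0x4002000200086c1102)))) (.nd (nat_lit 22) 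
(.lf (nat_lit 1343201347) (dlOf (nat_lit 1) (nat_lit 0x20028190581))) 
(.lf (nat_lit 13606979) (dlOf (nat_lit 9) (nat_lit 0x20b8dc030bc63014adeb00076f5401f6e12000610a01c9c6300b1deb0007dc24000c00c00437ac0005f0200f9c63008ddeb0000a010071718c000480403438c6017fbd60001102001ce3180006c08061718c02c37ac000000400100018730c01))))) 
(.nd (nat_lit 7) (.nd (nat_lit 20) 
(.lf (nat_lit 21995587) (dlOf (nat_lit 1) (nat_lit 0x18008001800200280008a80e03))) 
(.lf (nat_lit 52404291) (dlOf (nat_lit 1) (nat_lit 0x800200040009530602)))) 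
(.lf (nat_lit 19903171) (dlOf (nat_lit 1) (nat_lit 0x4002000200089d8c82))))) (.nd (nat_lit 19) 
(.nd (nat_lit 7) (.nd (nat_lit 9) (.nd (nat_lit 26) 
(.lf (nat_lit 805806403) (dlOf (nat_lit 2) (nat_lit 0x38024001e811c004804a0002a06000200281a0601))) 
(.lf (nat_lit 1678221635) (dlOf (nat_lit 2) (nat_lit 0x38024001e811c004804a0002b06000200281a0601)))) 
(.lf (nat_lit 501571) (dlOf (nat_lit 4) (nat_lit 0x181d5000d0e48006871000342ee000360800121d5000b0e48004871000282ee000340800121d500090e48005071000282ee0002b0800040028003e01)))) 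
(.nd (nat_lit 11) 
(.lf (nat_lit 1745330627) (dlOf (nat_lit 4) (nat_lit 0x60430009000000868100008114001008600160000010a830003022800100f80041008016000400180008117002))) 
(.lf (nat_lit 473409987) (dlOf (nat_lit 1) (nat_lit 0x5000400440018f54e82))))) (.nd (nat_lit 7) 
(.nd (nat_lit 9) (.nd (nat_lit 26) 
(.lf (nat_lit 3490685251) (dlOf (nat_lit 2) (nat_lit 0x1605c0012f00800c0008001000200060008014c03))) 
(.lf (nat_lit 2752487747) (dlOf (nat_lit 2) (nat_lit 0x160740029440800c0008001000200060008014c03)))) 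
(.lf (nat_lit 2754591555) (dlOf (nat_lit 1) (nat_lit 0x100080008002000200080fbc83)))) 
(.nd (nat_lit 9) (.lf (nat_lit 24093123) (dlOf (nat_lit 1) (nat_lit 0x5c0008b80901))) 
(.lf (nat_lit 3492788163) (dlOf (nat_lit 1) (nat_lit 0x80080018002001600080fa603)))))))) 
(.nd (nat_lit 19) (.nd (nat_lit 28) (.nd (nat_lit 21) (.nd (nat_lit 8) (.nd (nat_lit 7) 
(.nd (nat_lit 9) (.lf (nat_lit 2751702087) (dlOf (nat_lit 1) (nat_lit 0x20018002881))) 
(.lf (nat_lit 1677959751) (dlOf (nat_lit 10) (nat_lit 0x3e409e01b403800f00130003d418088814403e0096020403a00f500d000090200bc8144055809602ca03a015100d00008c200320144013409600ae03a003a00d0000882005181440230096012c03a008900d000080200578144003c096013e03a007500d00007c200ba0144054009602f403a013c00d000078200b181440520096023a046014d01d009800cc04c00340001d0c002e051000901d00006c100500008064c00203960008128d03)))) 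
(.lf (nat_lit 22257863) (dlOf (nat_lit 1) (nat_lit 0x140008ab5901)))) (.nd (nat_lit 11) 
(.lf (nat_lit 1677959495) (dlOf (nat_lit 3) (nat_lit 0x74014009d402003000a004e9018124c00))) 
(.lf (nat_lit 2885921095) (dlOf (nat_lit 3) (nat_lit 0x140400008009800200000001a0c0010080003401a001a0098002800000000100020004000e0018144d02))))) 
(.nd (nat_lit 9) (.nd (nat_lit 20) 
(.lf (nat_lit 48734279) (dlOf (nat_lit 2) (nat_lit 0x235e00014aa480051c100028008003000200300009420603))) 
(.lf (nat_lit 37199943) (dlOf (nat_lit 1) (nat_lit 0x100080004002000600090b0603)))) 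
(.nd (nat_lit 7) (.lf (nat_lit 23306823) (dlOf (nat_lit 1) (nat_lit 0x14c00200b60008b81102))) 
(.lf (nat_lit 20165319) (dlOf (nat_lit 1) (nat_lit 0x80080004002000200089d8c83)))))) 
(.nd (nat_lit 10) (.nd (nat_lit 29) (.nd (nat_lit 27) 
(.lf (nat_lit 4563640391) (dlOf (nat_lit 2) (nat_lit 0x9a02d000198180b0600))) 
(.lf (nat_lit 4697858119) (dlOf (nat_lit 2) (nat_lit 0x9a02d000190180b0600)))) (.nd (nat_lit 8) 
(.lf (nat_lit 4026769479) (dlOf (nat_lit 1) (nat_lit 0x660018090001))) 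
(.lf (nat_lit 805544263) (dlOf (nat_lit 3) (nat_lit 0x740140043f02003000a0021d818124c00))))) 
(.nd (nat_lit 7) (.nd (nat_lit 26) 
(.lf (nat_lit 6174254151) (dlOf (nat_lit 1) (nat_lit 0x100080004002000200080d2883))) 
(.lf (nat_lit 5704492103) (dlOf (nat_lit 1) (nat_lit 0x4004000200080d2882)))) 
(.lf (nat_lit 1346610375) (dlOf (nat_lit 1) (nat_lit 0x14c0018fe2d01)))))) (.nd (nat_lit 20) 
(.nd (nat_lit 9) (.nd (nat_lit 23) (.nd (nat_lit 7) 
(.lf (nat_lit 68132935) (dlOf (nat_lit 1) (nat_lit 0x50008000400200040008400603))) 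
(.lf (nat_lit 202091975) (dlOf (nat_lit 1) (nat_lit 0x4004000200180f6d02)))) (.nd (nat_lit 22) 
(.lf (nat_lit 42967111) (dlOf (nat_lit 1) (nat_lit 0x1600292a0001))) 
(.lf (nat_lit 13606983) (dlOf (nat_lit 3) (nat_lit 0x24718c006f7ac0003504012fc630063deb00005c100298008006000200c20008730c83))))) 
(.nd (nat_lit 7) (.nd (nat_lit 8) 
(.lf (nat_lit 3490685511) (dlOf (nat_lit 1) (nat_lit 0x20028018801))) 
(.lf (nat_lit 3492783943) (dlOf (nat_lit 2) (nat_lit 0x2903d8000d408005000800c4002000200080f3e03)))) 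
(.nd (nat_lit 8) (.lf (nat_lit 67877575) (dlOf (nat_lit 1) (nat_lit 0x6001833b981))) 
(.lf (nat_lit 19901383) (dlOf (nat_lit 2) (nat_lit 0xcccd0000e8189d5d80)))))) (.nd (nat_lit 28) 
(.nd (nat_lit 21) (.nd (nat_lit 22) 
(.lf (nat_lit 69181511) (dlOf (nat_lit 1) (nat_lit 0xbc00188c0601))) 
(.lf (nat_lit 31432775) (dlOf (nat_lit 1) (nat_lit 0xc00200020008e90002)))) (.nd (nat_lit 10) 
(.lf (nat_lit 20947015) (dlOf (nat_lit 2) (nat_lit 0x10322800118f80005204002400189f0601))) 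
(.lf (nat_lit 8102983) (dlOf (nat_lit 1) (nat_lit 0x400400020008512882))))) (.nd (nat_lit 26) 
(.nd (nat_lit 7) (.lf (nat_lit 5773434951) (dlOf (nat_lit 1) (nat_lit 0x8000280d1301))) 
(.lf (nat_lit 1881121991) (dlOf (nat_lit 1) (nat_lit 0x3400400060008e22d02)))) (.nd (nat_lit 21) 
(.lf (nat_lit 6377414727) (dlOf (nat_lit 1) (nat_lit 0x8000280d1301))) 
(.lf (nat_lit 473931847) (dlOf (nat_lit 2) (nat_lit 0x160d7000ad018fc0600))))))))))))

end

end Pool.Agent.Lib.MP_5854e1_co.Cz
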