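import Pool.Agent.Lib.MP_5854e1_co.DecRow

/-!
# Sparse corrections
-/

set_option autoImplicit false
set_option maxRecDepth 100000

namespace Pool.Agent.Lib.MP_5854e1_co.Cz

noncomputable section

noncomputable def tz214 : DT := (.nd (nat_lit 16) (.nd (nat_lit 17) (.nd (nat_lit 5) 
(.nd (nat_lit 18) (.nd (nat_lit 29) (.nd (nat_lit 6) (.nd (nat_lit 19) (.nd (nat_lit 28) 
(.nd (nat_lit 23) (.nd (nat_lit 7) 
(.lf (nat_lit 16826390) (dlOf (nat_lit 1) (nat_lit 0x4002000200088e0002))) (.nd (nat_lit 8) 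
(.lf (nat_lit 134270102) (dlOf (nat_lit 1) (nat_lit 0x28c00200440008006202))) 
(.lf (nat_lit 37800342) (dlOf (nat_lit 1) (nat_lit 0x700080004002001200090d4e83))))) 
(.nd (nat_lit 8) (.nd (nat_lit 20) 
(.lf (nat_lit 27312150) (dlOf (nat_lit 1) (nat_lit 0x400400020008cd0402))) 
(.lf (nat_lit 47235094) (dlOf (nat_lit 1) (nat_lit 0x200080038002001000093c0003)))) 
(.lf (nat_lit 8442134) (dlOf (nat_lit 1) (nat_lit 0x60018518081))))) (.nd (nat_lit 26) 
(.nd (nat_lit 20) 
(.lf (nat_lit 3493904406) (dlOf (nat_lit 3) (nat_lit 0x801c000100a8069141004700700348604000c002000600081b0002))) 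
(.lf (nat_lit 3490758678) (dlOf (nat_lit 1) (nat_lit 0x400200020008020482)))) (.nd (nat_lit 8) 
(.nd (nat_lit 32) 
(.lf (nat_lit 1543553046) (dlOf (nat_lit 3) (nat_lit 0x72400001a4502038000000d218180b0000))) 
(.lf (nat_lit 5838520342) (dlOf (nat_lit 1) (nat_lit 0x400400020008090002)))) 
(.lf (nat_lit 469813014) (dlOf (nat_lit 1) (nat_lit 0x6f000800e000200240008003c83)))))) 
(.nd (nat_lit 22) (.nd (nat_lit 26) (.nd (nat_lit 7) (.nd (nat_lit 27) 
(.lf (nat_lit 3221798934) (dlOf (nat_lit 4) (nat_lit 0x2202300100114006408600340420001020000080e002b5a18003008c001004300ad602000d02700050134028d20801bc004004e0018190902))) 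
(.lf (nat_lit 134791190) (dlOf (nat_lit 7) (nat_lit 0x701a800b00cc005c0260191d06001c03a001c01a800b004c032380c00080260191b02000401300c4681004e00980620808001004c03100040038004001a00180b0902)))) 
(.lf (nat_lit 54053270) (dlOf (nat_lit 1) (nat_lit 0x1800195f4e81)))) (.nd (nat_lit 27) 
(.lf (nat_lit 4362649622) (dlOf (nat_lit 2) (nat_lit 0x5900cc000080400c8002004600080c0302))) 
(.lf (nat_lit 201900054) (dlOf (nat_lit 7) (nat_lit 0x701a800b00cc005c02601c6a06001c03a001c01a800b004c038d20c000802601c6802000401300dfc81004e009806fb008001004c037d4040038004001a00180b0902))))) 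
(.nd (nat_lit 20) (.nd (nat_lit 23) 
(.lf (nat_lit 474529814) (dlOf (nat_lit 1) (nat_lit 0x40008002c002000c00091a0083))) 
(.lf (nat_lit 13156374) (dlOf (nat_lit 2) (nat_lit 0x6c9f005758080008008000800200020008700903)))) 
(.lf (nat_lit 16302102) (dlOf (nat_lit 1) (nat_lit 0x60028880401)))))) (.nd (nat_lit 7) 
(.nd (nat_lit 19) (.nd (nat_lit 12) (.nd (nat_lit 22) 
(.lf (nat_lit 44089430) (dlOf (nat_lit 1) (nat_lit 0x580080024002002800092c0703))) 
(.lf (nat_lit 14729302) (dlOf (nat_lit 2) (nat_lit 0xb9f5c005ce66000400400020028770781)))) 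
(.nd (nat_lit 8) 
(.lf (nat_lit 1342231638) (dlOf (nat_lit 2) (nat_lit 0x1011c000660200040018009301))) 
(.lf (nat_lit 3288390486) (dlOf (nat_lit 1) (nat_lit 0x36002800bc81))))) (.nd (nat_lit 9) 
(.nd (nat_lit 22) 
(.lf (nat_lit 67682390) (dlOf (nat_lit 1) (nat_lit 0x300080008002002600082d0303))) 
(.lf (nat_lit 21545046) (dlOf (nat_lit 6) (nat_lit 0x11614500a20a1000483a400041b40004c08017c14500a20a1001484e400cc1d20004b080190145005209c802a03a4000800c02e028a00980e90001f8200c30a28000f80800e8008002c002009c0008a40603)))) 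
(.lf (nat_lit 62442070) (dlOf (nat_lit 1) (nat_lit 0x200199a5301))))) (.nd (nat_lit 8) 
(.nd (nat_lit 20) (.nd (nat_lit 21) 
(.lf (nat_lit 6576718038) (dlOf (nat_lit 1) (nat_lit 0x1400280b0481))) 
(.lf (nat_lit 2146518) (dlOf (nat_lit 1) (nat_lit 0x20028150481)))) 
(.lf (nat_lit 3195094) (dlOf (nat_lit 1) (nat_lit 0x400200020008200482)))) (.nd (nat_lit 20) 
(.nd (nat_lit 11) 
(.lf (nat_lit 268485590) (dlOf (nat_lit 1) (nat_lit 0x38008001c002000a0008052883))) 
(.lf (nat_lit 5704305622) (dlOf (nat_lit 1) (nat_lit 0x400400020008055e02)))) (.nd (nat_lit 19) 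
(.lf (nat_lit 61916118) (dlOf (nat_lit 1) (nat_lit 0x40009922881))) 
(.lf (nat_lit 56148950) (dlOf (nat_lit 1) (nat_lit 0x400200020009732882)))))))) (.nd (nat_lit 28) 
(.nd (nat_lit 7) (.nd (nat_lit 8) (.nd (nat_lit 19) (.nd (nat_lit 20) 
(.lf (nat_lit 3825254422) (dlOf (nat_lit 3) (nat_lit 0x35c01401a4502019c00a00d218180b0000))) 
(.lf (nat_lit 2752561174) (dlOf (nat_lit 1) (nat_lit 0x400200020008020482)))) 
(.lf (nat_lit 3959996438) (dlOf (nat_lit 4) (nat_lit 0x2202300100114006408600340420001020000080e002e2818003008c001004300b8982000d02700050134028980801bc004004e0018190902)))) 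
(.nd (nat_lit 9) 
(.lf (nat_lit 4898997526) (dlOf (nat_lit 1) (nat_lit 0x8008000400200020008053083))) 
(.nd (nat_lit 10) (.lf (nat_lit 6039847702) (dlOf (nat_lit 1) (nat_lit 0x800400020008002102))) 
(.lf (nat_lit 536921878) (dlOf (nat_lit 1) (nat_lit 0x60028003c81)))))) (.nd (nat_lit 6) 
(.nd (nat_lit 10) (.nd (nat_lit 9) 
(.lf (nat_lit 2754660758) (dlOf (nat_lit 1) (nat_lit 0x200280f4e81))) 
(.lf (nat_lit 4831890326) (dlOf (nat_lit 1) (nat_lit 0x20018055c81)))) (.nd (nat_lit 8) 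
(.lf (nat_lit 2751514262) (dlOf (nat_lit 1) (nat_lit 0x420008003a81))) 
(.lf (nat_lit 2751514518) (dlOf (nat_lit 1) (nat_lit 0xc0008000400200040008004203))))) 
(.nd (nat_lit 26) (.nd (nat_lit 11) 
(.lf (nat_lit 3892364246) (dlOf (nat_lit 1) (nat_lit 0x60028082881))) 
(.lf (nat_lit 4831890390) (dlOf (nat_lit 1) (nat_lit 0x8008000800200020008055e03)))) 
(.nd (nat_lit 8) (.lf (nat_lit 5972738262) (dlOf (nat_lit 1) (nat_lit 0x1400280b0481))) 
(.lf (nat_lit 2751513558) (dlOf (nat_lit 1) (nat_lit 0x2000200060008002882))))))) (.nd (nat_lit 6) 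
(.nd (nat_lit 7) (.nd (nat_lit 8) (.nd (nat_lit 19) 
(.lf (nat_lit 5167431702) (dlOf (nat_lit 2) (nat_lit 0x80500091d0200040018050001))) 
(.lf (nat_lit 4228431894) (dlOf (nat_lit 1) (nat_lit 0x1c00180c0301)))) (.nd (nat_lit 9) 
(.lf (nat_lit 6375392534) (dlOf (nat_lit 1) (nat_lit 0x20028003081))) 
(.lf (nat_lit 4160799510) (dlOf (nat_lit 1) (nat_lit 0x20028002101))))) (.nd (nat_lit 8) 
(.nd (nat_lit 20) (.lf (nat_lit 5234543254) (dlOf (nat_lit 1) (nat_lit 0x20008055501))) 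
(.lf (nat_lit 4094741142) (dlOf (nat_lit 3) (nat_lit 0xc0fe0001001000507f00007c080048008004400200180008055503)))) 
(.lf (nat_lit 4094741398) (dlOf (nat_lit 1) (nat_lit 0x18008001400200080008055c83))))) 
(.nd (nat_lit 9) (.nd (nat_lit 7) (.nd (nat_lit 8) 
(.lf (nat_lit 3154690134) (dlOf (nat_lit 21) (nat_lit 0x6140c8031406000b902d00c38154014809a030a03400a4017804a80b80178058009402b017e01400c50050003c00c018a003007c0010000a0780c9819006680c001ba05a019602a802901340650068018a02f00c501700c680a00660028003e00600c5001804700080004c3403140b4017802f00ba00180007c1807c8168039805e01c20030000e8300a30178000700804f019003c00b401ee05500da017804200b003bc02801bc0030000c07004001600005c0806480b00002c040178058000150200ea05a009e017803580b0000280c02f00c8019005a00ba02a806580bc017c058017601400bd00180004c3803800b0000240403f00b401c802f00dc0018000401800281680001e0403300b401a802f00be001800030180060168000140400f40b4002402f00130160000241809c818003500b4001405900df017803200b80368058000602b001a014006780000000a2400d80b4018402c000010200be0320050816800540b2010a03900f5017803400b80368058017c0280071001800000480e600080630002002c0008310303)))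 
(.lf (nat_lit 4026583382) (dlOf (nat_lit 1) (nat_lit 0x10c002001c0008004e02)))) 
(.lf (nat_lit 5100324054) (dlOf (nat_lit 2) (nat_lit 0x200640008204000400400240018052d82)))) 
(.nd (nat_lit 10) (.nd (nat_lit 27) 
(.lf (nat_lit 6174067670) (dlOf (nat_lit 1) (nat_lit 0x400400020008055e02))) 
(.lf (nat_lit 5234543574) (dlOf (nat_lit 1) (nat_lit 0x400400020008055e02)))) 
(.lf (nat_lit 4026582998) (dlOf (nat_lit 1) (nat_lit 0x8008006400200560008004503)))))))) 
(.nd (nat_lit 6) (.nd (nat_lit 20) (.nd (nat_lit 28) (.nd (nat_lit 29) (.nd (nat_lit 7) 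
(.nd (nat_lit 19) 
(.lf (nat_lit 3355754518) (dlOf (nat_lit 3) (nat_lit 0x1602e00a92810004017800b440801680080084002002c00080f0503))) 
(.nd (nat_lit 21) (.lf (nat_lit 21807126) (dlOf (nat_lit 1) (nat_lit 0x8008000400200020008a70483))) 
(.lf (nat_lit 28098582) (dlOf (nat_lit 2) (nat_lit 0x4af90055e818d50480))))) (.nd (nat_lit 24) 
(.lf (nat_lit 1074053270) (dlOf (nat_lit 1) (nat_lit 0x400400020008090182))) 
(.lf (nat_lit 17088662) (dlOf (nat_lit 1) (nat_lit 0x800288e0481))))) (.nd (nat_lit 31) 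
(.nd (nat_lit 30) 
(.lf (nat_lit 604291094) (dlOf (nat_lit 2) (nat_lit 0x200d8000380800a8008002400200100008130483))) 
(.lf (nat_lit 1678032918) (dlOf (nat_lit 2) (nat_lit 0xfc01c0015d0200060008140a81)))) 
(.nd (nat_lit 7) 
(.lf (nat_lit 3892625430) (dlOf (nat_lit 1) (nat_lit 0x8008005400200020008170503))) 
(.lf (nat_lit 3825516694) (dlOf (nat_lit 1) (nat_lit 0x8008000400200020008184003)))))) 
(.nd (nat_lit 27) (.nd (nat_lit 30) (.nd (nat_lit 31) 
(.lf (nat_lit 805617686) (dlOf (nat_lit 2) (nat_lit 0xfc01c001580200060008140a81))) 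
(.lf (nat_lit 2953101334) (dlOf (nat_lit 2) (nat_lit 0x601400340030000d0100008008004400200060008120403)))) 
(.nd (nat_lit 7) 
(.lf (nat_lit 1343012886) (dlOf (nat_lit 1) (nat_lit 0x8008000400200020008130883))) 
(.lf (nat_lit 1946468502) (dlOf (nat_lit 1) (nat_lit 0x400400020008090182))))) (.nd (nat_lit 7) 
(.nd (nat_lit 19) 
(.lf (nat_lit 4161060886) (dlOf (nat_lit 3) (nat_lit 0x30056000c01b00a8a02000600d805260080078008000c002001a00080f0503))) 
(.lf (nat_lit 470597654) (dlOf (nat_lit 1) (nat_lit 0x8008000400200020008130883)))) 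
(.nd (nat_lit 8) 
(.lf (nat_lit 3087319190) (dlOf (nat_lit 1) (nat_lit 0x8008000400200020008184003))) 
(.lf (nat_lit 4697932182) (dlOf (nat_lit 3) (nat_lit 0x6e02e003b00f00304c1000500b8018240400ec00400b800180c6482))))))) 
(.nd (nat_lit 21) (.nd (nat_lit 23) (.nd (nat_lit 19) (.nd (nat_lit 26) 
(.lf (nat_lit 1343537174) (dlOf (nat_lit 2) (nat_lit 0x4c13a000208e000403f000000180228008001000200400008290483))) 
(.lf (nat_lit 68468758) (dlOf (nat_lit 1) (nat_lit 0x40008580881)))) 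
(.lf (nat_lit 22855702) (dlOf (nat_lit 1) (nat_lit 0x20028b30301)))) (.nd (nat_lit 10) 
(.nd (nat_lit 22) (.lf (nat_lit 26525718) (dlOf (nat_lit 1) (nat_lit 0x60008c50081))) 
(.lf (nat_lit 47497238) (dlOf (nat_lit 1) (nat_lit 0x8008000400200020009400003)))) 
(.lf (nat_lit 43303958) (dlOf (nat_lit 1) (nat_lit 0x4004000200092a2882))))) (.nd (nat_lit 7) 
(.nd (nat_lit 19) (.nd (nat_lit 22) 
(.lf (nat_lit 62177302) (dlOf (nat_lit 1) (nat_lit 0x20009970301))) 
(.lf (nat_lit 24428566) (dlOf (nat_lit 1) (nat_lit 0x40008ba0581)))) (.nd (nat_lit 8) 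
(.lf (nat_lit 12370454) (dlOf (nat_lit 1) (nat_lit 0x4002000200086c0d82))) 
(.lf (nat_lit 12370198) (dlOf (nat_lit 1) (nat_lit 0x24002003600086c0482))))) (.nd (nat_lit 8) 
(.lf (nat_lit 473744534) (dlOf (nat_lit 2) (nat_lit 0x281b2000880200020018fa2b81))) 
(.nd (nat_lit 9) (.lf (nat_lit 473221526) (dlOf (nat_lit 1) (nat_lit 0x400400020008dd4e82))) 
(.lf (nat_lit 20761494) (dlOf (nat_lit 1) (nat_lit 0xc002000600089d5c82)))))))) (.nd (nat_lit 7) 
(.nd (nat_lit 30) (.nd (nat_lit 8) (.nd (nat_lit 19) (.nd (nat_lit 20) 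
(.lf (nat_lit 29671510) (dlOf (nat_lit 1) (nat_lit 0x800400020008e30302))) 
(.lf (nat_lit 9748566) (dlOf (nat_lit 5) (nat_lit 0x5a430002d2080014c10001e90c001f48200052040005a4500023810002d2280011808006800801d000200680008580603)))) 
(.nd (nat_lit 25) 
(.lf (nat_lit 9224278) (dlOf (nat_lit 3) (nat_lit 0x747a00059ee0001a02000c49c800048080010008001000200080008530703))) 
(.lf (nat_lit 42778710) (dlOf (nat_lit 2) (nat_lit 0x6de0000080000004c08000800200520009280802))))) 
(.nd (nat_lit 9) (.nd (nat_lit 20) 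
(.lf (nat_lit 3087319382) (dlOf (nat_lit 1) (nat_lit 0x8008000400200020008188b03))) 
(.lf (nat_lit 3457366) (dlOf (nat_lit 1) (nat_lit 0xe0008200681)))) 
(.lf (nat_lit 20241238) (dlOf (nat_lit 1) (nat_lit 0x4004000200089dbc82))))) (.nd (nat_lit 27) 
(.nd (nat_lit 8) (.nd (nat_lit 19) 
(.lf (nat_lit 3492069462) (dlOf (nat_lit 1) (nat_lit 0x4004000200080a1102))) 
(.lf (nat_lit 1346158678) (dlOf (nat_lit 2) (nat_lit 0x9c000000260200100008e60801)))) 
(.lf (nat_lit 3221537110) (dlOf (nat_lit 4) (nat_lit 0x2200a0003181001700500011008007002800084040014004001c0008124d02)))) 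
(.nd (nat_lit 8) (.nd (nat_lit 26) 
(.lf (nat_lit 1208270934) (dlOf (nat_lit 1) (nat_lit 0x2400180b0701))) 
(.lf (nat_lit 2080686166) (dlOf (nat_lit 1) (nat_lit 0x2400180b0701)))) 
(.lf (nat_lit 3959734614) (dlOf (nat_lit 4) (nat_lit 0x15c014000610200d400a000200100670050000fc0801680080090002003c0008124e03)))))) 
(.nd (nat_lit 19) (.nd (nat_lit 20) (.nd (nat_lit 22) (.nd (nat_lit 9) 
(.lf (nat_lit 3221537238) (dlOf (nat_lit 2) (nat_lit 0x3800000249018127100))) 
(.lf (nat_lit 2818887638) (dlOf (nat_lit 1) (nat_lit 0xc00200020008127a82)))) (.nd (nat_lit 21) 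
(.lf (nat_lit 1346683862) (dlOf (nat_lit 1) (nat_lit 0xc00200020008fe2882))) 
(.lf (nat_lit 56935382) (dlOf (nat_lit 1) (nat_lit 0x20019792881))))) (.nd (nat_lit 23) 
(.lf (nat_lit 1007993814) (dlOf (nat_lit 2) (nat_lit 0x201c6001780200020018922881))) 
(.lf (nat_lit 43303894) (dlOf (nat_lit 1) (nat_lit 0x4004000200092a2882))))) (.nd (nat_lit 8) 
(.nd (nat_lit 20) (.nd (nat_lit 27) 
(.lf (nat_lit 4362911958) (dlOf (nat_lit 1) (nat_lit 0x180080004002000200081a0483))) 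
(.lf (nat_lit 4228694230) (dlOf (nat_lit 1) (nat_lit 0x180080004002000200081a0483)))) 
(.lf (nat_lit 471646422) (dlOf (nat_lit 2) (nat_lit 0x204e8005e00800f00080054002004e0008370503)))) 
(.nd (nat_lit 20) (.lf (nat_lit 472695766) (dlOf (nat_lit 1) (nat_lit 0x120028a42881))) 
(.lf (nat_lit 41731030) (dlOf (nat_lit 1) (nat_lit 0x140029242881))))))))) (.nd (nat_lit 29) 
(.nd (nat_lit 18) (.nd (nat_lit 7) (.nd (nat_lit 28) (.nd (nat_lit 6) (.nd (nat_lit 8) 
(.lf (nat_lit 19972662) (dlOf (nat_lit 1) (nat_lit 0x18002000400089d1482))) 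
(.lf (nat_lit 8443190) (dlOf (nat_lit 1) (nat_lit 0x2e8008000400200840008519903)))) 
(.nd (nat_lit 8) (.nd (nat_lit 12) 
(.lf (nat_lit 47235190) (dlOf (nat_lit 2) (nat_lit 0x6bd30000c0193c0d80))) 
(.lf (nat_lit 67162230) (dlOf (nat_lit 1) (nat_lit 0x4002002a0008007d82)))) 
(.lf (nat_lit 3288385910) (dlOf (nat_lit 2) (nat_lit 0x30158047dc0800280080048002001a0008004e83))))) 
(.nd (nat_lit 8) (.nd (nat_lit 9) (.nd (nat_lit 20) 
(.lf (nat_lit 3494428726) (dlOf (nat_lit 6) (nat_lit 0x2e023001a00f00071c1000a01a000580840048023002000f0007805c0010010001c50c0006068001201180070c1000b80780034604000c0d00026023001f00f0000001800b800800ec002002e0008220b83))) 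
(.lf (nat_lit 3493380150) (dlOf (nat_lit 32) (nat_lit 0xcb00d206a0044034b01201a58080051403e001c70a073a06903c502201d280900f04040001c608078806903ce02201de00900ef4040044c01f000e2850291034815501100a280480530020000e1840292022000d80800038208037c088001bf0206ba04400e0012012080800037a0c0a50088008c024000de02001e034800e011000b4048001b50600800690021022000c0090003620c000c0d2000e0440004012000500800034a100a2c0d205280440289012014800800034610005c088000a024000d0820004034801501100018048008c020000cf8402870348068011009a80480504020000cc84001402200020090003120800600880030024000c4020017022000700900030e0801140d200e0024000be8200640348027809000580400017c06000406900020120005ec1002201a401ec04800b0020000bd030069034801001100290048001790600be06900670120005e01003381a4001808800bc02400710100005d82002401a401840480017404016c06900bd0120005cc1003601a4000408800e2024000b78300ca0340043018c031c084019a02300c500f0043805c021c010001c000000aa08000201000478000001280800480d2003e044028b012014780800000010005400400380018120d02))))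 
(.lf (nat_lit 268486198) (dlOf (nat_lit 1) (nat_lit 0x18008000800200020008053783)))) 
(.nd (nat_lit 6) (.lf (nat_lit 3623929654) (dlOf (nat_lit 1) (nat_lit 0x24002001c0008003e02))) 
(.lf (nat_lit 5704305014) (dlOf (nat_lit 1) (nat_lit 0x400400020008054e82)))))) (.nd (nat_lit 8) 
(.nd (nat_lit 10) (.nd (nat_lit 6) (.nd (nat_lit 20) 
(.lf (nat_lit 1543553206) (dlOf (nat_lit 2) (nat_lit 0x50120000ac080038008004c002000600080b0383))) 
(.lf (nat_lit 3195062) (dlOf (nat_lit 1) (nat_lit 0x30008000800200040008200383)))) 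
(.lf (nat_lit 8444150) (dlOf (nat_lit 1) (nat_lit 0x800800140020002000851a983)))) (.nd (nat_lit 26) 
(.nd (nat_lit 11) (.lf (nat_lit 33080502) (dlOf (nat_lit 1) (nat_lit 0x7800400020008f52c82))) 
(.lf (nat_lit 2550189238) (dlOf (nat_lit 1) (nat_lit 0x400400020008006282)))) (.nd (nat_lit 12) 
(.lf (nat_lit 2483080374) (dlOf (nat_lit 1) (nat_lit 0x60028006281))) 
(.lf (nat_lit 3288390838) (dlOf (nat_lit 1) (nat_lit 0x400020006000800c202)))))) (.nd (nat_lit 9) 
(.nd (nat_lit 10) (.lf (nat_lit 58245622) (dlOf (nat_lit 1) (nat_lit 0x80080004002000200097c7403))) 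
(.nd (nat_lit 30) (.lf (nat_lit 4496344566) (dlOf (nat_lit 1) (nat_lit 0x400400020008053682))) 
(.lf (nat_lit 5570086390) (dlOf (nat_lit 1) (nat_lit 0x400400020008053682))))) (.nd (nat_lit 6) 
(.nd (nat_lit 11) (.lf (nat_lit 19973046) (dlOf (nat_lit 1) (nat_lit 0x200189d2701))) 
(.lf (nat_lit 5704305590) (dlOf (nat_lit 1) (nat_lit 0x380018055d01)))) 
(.lf (nat_lit 8439798) (dlOf (nat_lit 1) (nat_lit 0x20028514681))))))) (.nd (nat_lit 21) 
(.nd (nat_lit 28) (.nd (nat_lit 7) (.nd (nat_lit 8) (.nd (nat_lit 20) (.nd (nat_lit 26) 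
(.lf (nat_lit 1208270902) (dlOf (nat_lit 2) (nat_lit 0x6009c0044c04000c004000200180b0482))) 
(.lf (nat_lit 5570347062) (dlOf (nat_lit 1) (nat_lit 0x4004000200080f0482)))) 
(.lf (nat_lit 26525750) (dlOf (nat_lit 1) (nat_lit 0x400400020008c50482)))) (.nd (nat_lit 9) 
(.lf (nat_lit 51167542) (dlOf (nat_lit 1) (nat_lit 0x400200020009507b02))) 
(.lf (nat_lit 313142) (dlOf (nat_lit 1) (nat_lit 0xa0008003e01))))) (.nd (nat_lit 6) 
(.lf (nat_lit 5503238326) (dlOf (nat_lit 2) (nat_lit 0x3c804e000e302000e00080c1701))) 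
(.nd (nat_lit 8) (.lf (nat_lit 317686) (dlOf (nat_lit 1) (nat_lit 0x2002800a981))) 
(.lf (nat_lit 317942) (dlOf (nat_lit 1) (nat_lit 0x40040002000800b282)))))) (.nd (nat_lit 30) 
(.nd (nat_lit 7) (.nd (nat_lit 26) 
(.lf (nat_lit 268746806) (dlOf (nat_lit 1) (nat_lit 0x20018120481))) 
(.lf (nat_lit 470073398) (dlOf (nat_lit 1) (nat_lit 0x20028040701)))) 
(.lf (nat_lit 4563714230) (dlOf (nat_lit 8) (nat_lit 0x2701a800280d0005005e004002d00230158003807c00900360038016001000900010024001c628001805e004202d001500f80008048001c410001c05a001001f000708200020168001d80800100bc002405a000601f00020090001d42000880bc005405a002a01f00040090001d02000a80bc006005a003201f00010090001cc2005680080250002049400080c1703)))) 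
(.nd (nat_lit 6) (.lf (nat_lit 1342488630) (dlOf (nat_lit 1) (nat_lit 0x20028040701))) 
(.lf (nat_lit 3491545206) (dlOf (nat_lit 1) (nat_lit 0x8008000400200020008090083)))))) 
(.nd (nat_lit 8) (.nd (nat_lit 6) (.nd (nat_lit 9) (.nd (nat_lit 19) 
(.lf (nat_lit 24428598) (dlOf (nat_lit 1) (nat_lit 0x60018ba0b01))) 
(.lf (nat_lit 36487222) (dlOf (nat_lit 1) (nat_lit 0x20019070001)))) 
(.lf (nat_lit 23380534) (dlOf (nat_lit 1) (nat_lit 0x58008000400200140008b80f83)))) 
(.nd (nat_lit 7) (.lf (nat_lit 19715702) (dlOf (nat_lit 1) (nat_lit 0x15600089d9d01))) 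
(.lf (nat_lit 20240630) (dlOf (nat_lit 1) (nat_lit 0x200189da981))))) (.nd (nat_lit 7) 
(.nd (nat_lit 9) (.lf (nat_lit 50119990) (dlOf (nat_lit 1) (nat_lit 0x11000194c3201))) 
(.nd (nat_lit 19) (.lf (nat_lit 20237110) (dlOf (nat_lit 1) (nat_lit 0x4002000200089d5c02))) 
(.lf (nat_lit 20761398) (dlOf (nat_lit 1) (nat_lit 0x4002000200089d5c02))))) (.nd (nat_lit 6) 
(.lf (nat_lit 8177078) (dlOf (nat_lit 1) (nat_lit 0x400200020008513602))) 
(.lf (nat_lit 19713014) (dlOf (nat_lit 2) (nat_lit 0x4afd000160189d5f00)))))))) (.nd (nat_lit 26) 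
(.nd (nat_lit 7) (.nd (nat_lit 32) (.nd (nat_lit 18) (.nd (nat_lit 6) 
(.lf (nat_lit 1880145974) (dlOf (nat_lit 1) (nat_lit 0x400200020008760c02))) 
(.lf (nat_lit 4026582902) (dlOf (nat_lit 1) (nat_lit 0x380080034002004a0008004083)))) 
(.nd (nat_lit 27) (.nd (nat_lit 30) 
(.lf (nat_lit 2684665910) (dlOf (nat_lit 2) (nat_lit 0x403b000501b805f841000e8008003c00200140008130783))) 
(.lf (nat_lit 3758407734) (dlOf (nat_lit 2) (nat_lit 0x14000000a8818170480)))) 
(.lf (nat_lit 1745141814) (dlOf (nat_lit 9) (nat_lit 0x23006c00fc031009501100428064026802801620000011e06006c01b002d00c40154032002330600a4036003a01880128064004620c018c06c00ca031005c00c8027005002200000022f0a01420000011681000701b000180640045808001006c00b2019003900a0008ac1802d8000003e4040030004000600180b0482))))) 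
(.nd (nat_lit 6) (.nd (nat_lit 9) 
(.lf (nat_lit 6174326838) (dlOf (nat_lit 1) (nat_lit 0x4004000200080f0482))) 
(.lf (nat_lit 6308283958) (dlOf (nat_lit 1) (nat_lit 0x400400020008053782)))) (.nd (nat_lit 27) 
(.nd (nat_lit 28) (.lf (nat_lit 4831889782) (dlOf (nat_lit 1) (nat_lit 0x400400020008054e82))) 
(.lf (nat_lit 6174067062) (dlOf (nat_lit 1) (nat_lit 0x400400020008054e82)))) 
(.lf (nat_lit 5234542966) (dlOf (nat_lit 1) (nat_lit 0x400400020008054e82)))))) (.nd (nat_lit 8) 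
(.nd (nat_lit 27) (.nd (nat_lit 9) 
(.lf (nat_lit 1879101622) (dlOf (nat_lit 1) (nat_lit 0x8008000c00200020008007e83))) 
(.nd (nat_lit 28) (.lf (nat_lit 4831890102) (dlOf (nat_lit 1) (nat_lit 0x400400020008055702))) 
(.lf (nat_lit 6174067382) (dlOf (nat_lit 1) (nat_lit 0x400400020008055702))))) (.nd (nat_lit 28) 
(.lf (nat_lit 671137974) (dlOf (nat_lit 2) (nat_lit 0x50120000b8080038008004c002000600080b0383))) 
(.nd (nat_lit 31) 
(.lf (nat_lit 939573430) (dlOf (nat_lit 2) (nat_lit 0x402500040100000b81000a000800dc002002a00080b0383))) 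
(.lf (nat_lit 3087057078) (dlOf (nat_lit 1) (nat_lit 0x80080010002000200080b0383)))))) 
(.nd (nat_lit 9) (.nd (nat_lit 10) 
(.lf (nat_lit 4026587638) (dlOf (nat_lit 1) (nat_lit 0xa001800b281))) (.nd (nat_lit 27) 
(.lf (nat_lit 5100324342) (dlOf (nat_lit 1) (nat_lit 0x8008000400200020008053683))) 
(.lf (nat_lit 6308283894) (dlOf (nat_lit 1) (nat_lit 0x8008000400200020008053683))))) 
(.nd (nat_lit 6) 
(.lf (nat_lit 5234543542) (dlOf (nat_lit 1) (nat_lit 0x138008015800200460008055d03))) 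
(.lf (nat_lit 2818887670) (dlOf (nat_lit 1) (nat_lit 0x100018127a81))))))) (.nd (nat_lit 31) 
(.nd (nat_lit 7) (.nd (nat_lit 18) (.nd (nat_lit 6) (.nd (nat_lit 8) 
(.lf (nat_lit 5167431734) (dlOf (nat_lit 1) (nat_lit 0x400400020018050002))) 
(.lf (nat_lit 5301652278) (dlOf (nat_lit 1) (nat_lit 0x400200020008005c02)))) 
(.lf (nat_lit 4898997622) (dlOf (nat_lit 1) (nat_lit 0x640018053501)))) (.nd (nat_lit 27) 
(.nd (nat_lit 32) 
(.lf (nat_lit 872726582) (dlOf (nat_lit 9) (nat_lit 0x23006c00fc031009501100428064026802801620000011e06006c01b002d00c40154032002330600a4036003a01880128064004620c018c06c00ca031005c00c8027005002200000022f0a01420000011681000701b000180640045808001006c00b2019003900a0008ac1802d8000003e6040030004000600180b0482))) 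
(.lf (nat_lit 5167693878) (dlOf (nat_lit 2) (nat_lit 0x500a002c1c0800280080008002000e0008111003)))) 
(.lf (nat_lit 2080686134) (dlOf (nat_lit 2) (nat_lit 0x6009c0044c04000c004000200180b0482))))) 
(.nd (nat_lit 6) (.nd (nat_lit 10) (.nd (nat_lit 18) 
(.lf (nat_lit 1811988662) (dlOf (nat_lit 2) (nat_lit 0x402500040100000ac1000a000800dc002002a00080b0383))) 
(.lf (nat_lit 6107218102) (dlOf (nat_lit 2) (nat_lit 0x6201c000718180c1700)))) 
(.lf (nat_lit 1946209462) (dlOf (nat_lit 1) (nat_lit 0x400400020008006282)))) (.nd (nat_lit 8) 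
(.lf (nat_lit 4898997494) (dlOf (nat_lit 1) (nat_lit 0x400200020008052e82))) 
(.lf (nat_lit 4898997750) (dlOf (nat_lit 1) (nat_lit 0x400400020008053682)))))) (.nd (nat_lit 30) 
(.nd (nat_lit 19) (.nd (nat_lit 8) 
(.lf (nat_lit 2751518774) (dlOf (nat_lit 1) (nat_lit 0x800800040020002000800a603))) 
(.nd (nat_lit 10) (.lf (nat_lit 2754927414) (dlOf (nat_lit 1) (nat_lit 0x400180fbc81))) 
(.lf (nat_lit 2751514422) (dlOf (nat_lit 1) (nat_lit 0x30008004400200080008003e03))))) 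
(.nd (nat_lit 6) (.nd (nat_lit 20) 
(.lf (nat_lit 2756231222) (dlOf (nat_lit 6) (nat_lit 0x2e023001a00f00071c1000a01a000580840048023002000f0007805c0010010001c50c0006068001201180070c1000b80780036604000c0d00026023001f00f0000001800b800800ec002002e0008220b83))) 
(.lf (nat_lit 2755182646) (dlOf (nat_lit 32) (nat_lit 0xcb00d206a0044034b01201a58080051403e001c70a073a06903c502201d280900f04040001c608078806903ce02201de00900ef4040044c01f000e2850291034815501100a280480530020000e1840292022000d80800038208037c088001bf0206ba04400e0012012080800037a0c0a50088008c024000de0200030348003811000100480014020000da84028b034814a01100a240480520020000d984001702200028090003620800100d200540440006012002300800035e1000780d20038044002d0120006b81802001a400840880030024000d50302870348068011009a80480504020000ce84001402200020090003140800600880030024000c4020017022000700900030e0801900d2009e02400160100006181802281a401c00480018504000406900020120006101002201a401ec04800b0020000c1830069034801001100290048001820600ce0690006022002f009001c4040001780800be06900670120005d81002401a401840480017404016c06900bd0120005c41003601a4000408800e2024000b78300ca0340043018c031c084019a02300c500f0043805c021c010001c000000aa08000201000478000001280800480d2003e044028b012014780800000010005400400380018120d02))))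 
(.lf (nat_lit 3154690294) (dlOf (nat_lit 2) (nat_lit 0x4058000c00200260008310601))))) 
(.nd (nat_lit 7) (.nd (nat_lit 8) (.nd (nat_lit 9) 
(.lf (nat_lit 4095524918) (dlOf (nat_lit 1) (nat_lit 0x30004000e00180d0682))) 
(.lf (nat_lit 3959734838) (dlOf (nat_lit 1) (nat_lit 0xc002001c0008128b02)))) 
(.lf (nat_lit 4094741302) (dlOf (nat_lit 1) (nat_lit 0xa8008000400200180008055c03)))) 
(.nd (nat_lit 6) (.nd (nat_lit 19) 
(.lf (nat_lit 3825254582) (dlOf (nat_lit 1) (nat_lit 0x80080010002000200080b0383))) 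
(.lf (nat_lit 4095262902) (dlOf (nat_lit 2) (nat_lit 0x20a00000071818081700)))) 
(.lf (nat_lit 3959734774) (dlOf (nat_lit 7) (nat_lit 0x1c80380004804000c01c0002302017a00e00c9006004b0000000440c00cc01c007800c000e0000000741801c8038000380400a401c0001b02007c0028127e01)))))))))) 
(.nd (nat_lit 5) (.nd (nat_lit 6) (.nd (nat_lit 20) (.nd (nat_lit 26) (.nd (nat_lit 7) 
(.nd (nat_lit 31) (.nd (nat_lit 18) (.nd (nat_lit 10) (.nd (nat_lit 19) 
(.lf (nat_lit 12763158) (dlOf (nat_lit 1) (nat_lit 0x400286e0581))) 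
(.lf (nat_lit 4898838) (dlOf (nat_lit 1) (nat_lit 0x80080004002000200082d0083)))) 
(.lf (nat_lit 38454294) (dlOf (nat_lit 1) (nat_lit 0x8008000400200020009132883)))) (.nd (nat_lit 9) 
(.nd (nat_lit 25) (.lf (nat_lit 2539542) (dlOf (nat_lit 1) (nat_lit 0xc00400080008170582))) 
(.lf (nat_lit 36093974) (dlOf (nat_lit 1) (nat_lit 0x400200020009020502)))) 
(.lf (nat_lit 8832534) (dlOf (nat_lit 1) (nat_lit 0x8008000400200020008513703))))) (.nd (nat_lit 8) 
(.nd (nat_lit 18) 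
(.lf (nat_lit 3624058902) (dlOf (nat_lit 3) (nat_lit 0x4c20300282017813a00b809c805a04d8024026100d812f006009ac02804da01202660088067803c06c401804d600b0261004813b001409d400404bc00102740000069149012580c009e005e04e802e027101681350090095803604ba018026800a013480480980022018000f002e0060129802c098001204ec00502730010100800409a400001a4324000e00280b0001))) 
(.lf (nat_lit 3624321046) (dlOf (nat_lit 1) (nat_lit 0x1400400060018160482)))) (.nd (nat_lit 9) 
(.lf (nat_lit 3624059158) (dlOf (nat_lit 2) (nat_lit 0x1a01b000e80180b0480))) (.nd (nat_lit 12) 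
(.lf (nat_lit 2684535574) (dlOf (nat_lit 1) (nat_lit 0x800800f4002004200080a2103))) 
(.lf (nat_lit 2684539670) (dlOf (nat_lit 1) (nat_lit 0x7c002007e00080a8f82))))))) (.nd (nat_lit 10) 
(.nd (nat_lit 8) (.nd (nat_lit 9) 
(.lf (nat_lit 16957590) (dlOf (nat_lit 1) (nat_lit 0xa00288e0481))) 
(.lf (nat_lit 1745013398) (dlOf (nat_lit 1) (nat_lit 0x400200020008095502)))) (.nd (nat_lit 21) 
(.lf (nat_lit 5771544982) (dlOf (nat_lit 1) (nat_lit 0x800200060008004e82))) 
(.lf (nat_lit 61000086) (dlOf (nat_lit 1) (nat_lit 0x80080004002000200098c4e83))))) 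
(.nd (nat_lit 11) 
(.lf (nat_lit 8836246) (dlOf (nat_lit 2) (nat_lit 0x7e57801360080120008003000200200008519503))) 
(.nd (nat_lit 18) (.lf (nat_lit 183446) (dlOf (nat_lit 1) (nat_lit 0x160008006201))) 
(.lf (nat_lit 19844246) (dlOf (nat_lit 1) (nat_lit 0x2400189d6201))))))) (.nd (nat_lit 27) 
(.nd (nat_lit 18) (.nd (nat_lit 29) (.nd (nat_lit 7) 
(.lf (nat_lit 5435998230) (dlOf (nat_lit 2) (nat_lit 0x540220071a0200060008090001))) 
(.lf (nat_lit 1141033878) (dlOf (nat_lit 2) (nat_lit 0x404c000600200040028095c81)))) 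
(.nd (nat_lit 10) 
(.lf (nat_lit 4899127318) (dlOf (nat_lit 1) (nat_lit 0xd000800d400200220008080003))) 
(.lf (nat_lit 2752168982) (dlOf (nat_lit 1) (nat_lit 0x1a0008002881))))) (.nd (nat_lit 7) 
(.nd (nat_lit 19) 
(.lf (nat_lit 3557212182) (dlOf (nat_lit 1) (nat_lit 0xda8008055c00202380008170083))) 
(.lf (nat_lit 1410252822) (dlOf (nat_lit 16) (nat_lit 0x681c0034a00401380e001a4d02029600000d228101fe03c00f101dc07980ec03e60710239038004701bc07340cc03c8065021c03180fc018405500c003b600000d208c00e103c009901dc03f00ec024e07100e40380091019802780ca014e0630085030808c80000347e28015c0cc01a0d02008a07700400330067fc100170000033ca0400380ee019e302007a077004603300677c100ae01dc05400cc019dc04020207700ca0330067681000b80000309c040268000009400201bc077005b03800528198000000c00ec004002200081b0002)))) 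
(.lf (nat_lit 4094085526) (dlOf (nat_lit 1) (nat_lit 0x400400700008004e82))))) (.nd (nat_lit 7) 
(.nd (nat_lit 18) 
(.lf (nat_lit 3154821142) (dlOf (nat_lit 3) (nat_lit 0x4051000f68100010288007a0080010008001c00200040008340a83))) 
(.nd (nat_lit 31) (.lf (nat_lit 738639894) (dlOf (nat_lit 1) (nat_lit 0x800280d0001))) 
(.lf (nat_lit 2886123542) (dlOf (nat_lit 1) (nat_lit 0x1400400060018160482))))) (.nd (nat_lit 9) 
(.nd (nat_lit 11) (.lf (nat_lit 5570216342) (dlOf (nat_lit 2) (nat_lit 0x201700608818086480))) 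
(.lf (nat_lit 738904470) (dlOf (nat_lit 1) (nat_lit 0x300008124e81)))) 
(.lf (nat_lit 2617430934) (dlOf (nat_lit 1) (nat_lit 0x200280a9081))))))) (.nd (nat_lit 8) 
(.nd (nat_lit 21) (.nd (nat_lit 10) (.nd (nat_lit 18) (.nd (nat_lit 19) 
(.lf (nat_lit 68337686) (dlOf (nat_lit 1) (nat_lit 0x40028550681))) 
(.lf (nat_lit 1008386070) (dlOf (nat_lit 1) (nat_lit 0xb80018ba0581)))) 
(.lf (nat_lit 9879574) (dlOf (nat_lit 2) (nat_lit 0x12a8c00068040010004000c0008590302)))) 
(.nd (nat_lit 7) (.lf (nat_lit 39240726) (dlOf (nat_lit 1) (nat_lit 0x8008000c00200040009192883))) 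
(.nd (nat_lit 19) (.lf (nat_lit 43173014) (dlOf (nat_lit 2) (nat_lit 0x3f4ae000ae8192a2b80))) 
(.lf (nat_lit 35308694) (dlOf (nat_lit 1) (nat_lit 0x20029012b81)))))) (.nd (nat_lit 22) 
(.nd (nat_lit 9) (.lf (nat_lit 3850262) (dlOf (nat_lit 2) (nat_lit 0x10ab0000648800b9a028240900))) 
(.lf (nat_lit 473612822) (dlOf (nat_lit 1) (nat_lit 0x4000400080008f68702)))) (.nd (nat_lit 23) 
(.nd (nat_lit 10) (.lf (nat_lit 24821782) (dlOf (nat_lit 1) (nat_lit 0x400200020008bc0902))) 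
(.lf (nat_lit 8049686) (dlOf (nat_lit 1) (nat_lit 0x20028519201)))) (.nd (nat_lit 19) 
(.lf (nat_lit 15908886) (dlOf (nat_lit 1) (nat_lit 0x400400020018840482))) 
(.lf (nat_lit 16433174) (dlOf (nat_lit 2) (nat_lit 0x911d40003402000400288a0401))))))) 
(.nd (nat_lit 7) (.nd (nat_lit 9) (.nd (nat_lit 10) 
(.lf (nat_lit 8046870) (dlOf (nat_lit 1) (nat_lit 0x40018514b81))) (.nd (nat_lit 11) 
(.lf (nat_lit 8049942) (dlOf (nat_lit 1) (nat_lit 0xe0008519701))) 
(.lf (nat_lit 8051990) (dlOf (nat_lit 1) (nat_lit 0x800800280020004000851c603))))) 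
(.nd (nat_lit 10) (.lf (nat_lit 8045334) (dlOf (nat_lit 1) (nat_lit 0x400400020008512102))) 
(.lf (nat_lit 8048406) (dlOf (nat_lit 1) (nat_lit 0x20008517481))))) (.nd (nat_lit 22) 
(.nd (nat_lit 9) (.nd (nat_lit 21) 
(.lf (nat_lit 4094871958) (dlOf (nat_lit 1) (nat_lit 0x400400040008054e82))) 
(.lf (nat_lit 36882838) (dlOf (nat_lit 1) (nat_lit 0x1b000400c20009074e82)))) 
(.lf (nat_lit 20106134) (dlOf (nat_lit 1) (nat_lit 0x680080004002000200089d5c83)))) 
(.nd (nat_lit 11) (.lf (nat_lit 8049046) (dlOf (nat_lit 1) (nat_lit 0x8008000400200020008518383))) 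
(.lf (nat_lit 57854358) (dlOf (nat_lit 1) (nat_lit 0x60019794e81)))))))) (.nd (nat_lit 7) 
(.nd (nat_lit 18) (.nd (nat_lit 8) (.nd (nat_lit 21) (.nd (nat_lit 10) (.nd (nat_lit 19) 
(.lf (nat_lit 5234671702) (dlOf (nat_lit 1) (nat_lit 0x1e0028080601))) 
(.lf (nat_lit 4362780758) (dlOf (nat_lit 3) (nat_lit 0x4c02d0000d8100260168000680800880080034002000e00080f1a03)))) 
(.nd (nat_lit 9) (.lf (nat_lit 3020086358) (dlOf (nat_lit 1) (nat_lit 0x2001812bf81))) 
(.lf (nat_lit 2684540502) (dlOf (nat_lit 1) (nat_lit 0x200280a9c01))))) (.nd (nat_lit 19) 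
(.nd (nat_lit 25) (.lf (nat_lit 28491862) (dlOf (nat_lit 2) (nat_lit 0x22ae400012818da0300))) 
(.lf (nat_lit 62046294) (dlOf (nat_lit 1) (nat_lit 0x80080004002002e0009940703)))) 
(.lf (nat_lit 472563798) (dlOf (nat_lit 1) (nat_lit 0x8004001600189c0802))))) (.nd (nat_lit 26) 
(.nd (nat_lit 10) (.nd (nat_lit 27) 
(.lf (nat_lit 537053526) (dlOf (nat_lit 1) (nat_lit 0x400200020008004e02))) 
(.lf (nat_lit 671271254) (dlOf (nat_lit 4) (nat_lit 0x140380001602001a01c0000281000300e000010080098008002c00200020008144e03)))) 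
(.lf (nat_lit 40027478) (dlOf (nat_lit 1) (nat_lit 0x4004000200091f3382)))) (.nd (nat_lit 10) 
(.nd (nat_lit 27) 
(.lf (nat_lit 4362256726) (dlOf (nat_lit 4) (nat_lit 0xc405a0006602006802d000200100360168000fc080018008007c002002c0008014e03))) 
(.lf (nat_lit 4228038998) (dlOf (nat_lit 5) (nat_lit 0x740580006902003a02c000340100270160001100800e80b00008404004c00200540008014d02)))) 
(.lf (nat_lit 69911894) (dlOf (nat_lit 1) (nat_lit 0xc0008e13381)))))) (.nd (nat_lit 26) 
(.nd (nat_lit 8) (.nd (nat_lit 23) (.nd (nat_lit 9) 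
(.lf (nat_lit 2819014742) (dlOf (nat_lit 2) (nat_lit 0x1101b000130080280008001c00200080008150783))) 
(.lf (nat_lit 1344719446) (dlOf (nat_lit 4) (nat_lit 0x4c0380002e02001e1680000f8100070b48000640800d000800b800200020008985303)))) 
(.nd (nat_lit 19) (.lf (nat_lit 26656854) (dlOf (nat_lit 1) (nat_lit 0x20028c50781))) 
(.lf (nat_lit 47104086) (dlOf (nat_lit 2) (nat_lit 0x1a460000cc0800300080020002000a00093a0703))))) 
(.nd (nat_lit 9) (.lf (nat_lit 17219926) (dlOf (nat_lit 1) (nat_lit 0xa00188e0881))) 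
(.lf (nat_lit 2416368470) (dlOf (nat_lit 1) (nat_lit 0x4002000200080fbc82))))) (.nd (nat_lit 20) 
(.nd (nat_lit 9) (.nd (nat_lit 27) 
(.lf (nat_lit 3557212246) (dlOf (nat_lit 1) (nat_lit 0xdc0028170781))) 
(.lf (nat_lit 1007075414) (dlOf (nat_lit 1) (nat_lit 0x400400020008170782)))) 
(.lf (nat_lit 472304214) (dlOf (nat_lit 2) (nat_lit 0x802f000380460000604001c0028985301)))) 
(.nd (nat_lit 8) 
(.lf (nat_lit 473874518) (dlOf (nat_lit 2) (nat_lit 0x260000000940801d00080030002009a0008fc0803))) 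
(.lf (nat_lit 2755051862) (dlOf (nat_lit 2) (nat_lit 0x4c02400012018104d00))))))) (.nd (nat_lit 8) 
(.nd (nat_lit 26) (.nd (nat_lit 18) (.nd (nat_lit 9) (.nd (nat_lit 10) 
(.lf (nat_lit 6471894) (dlOf (nat_lit 1) (nat_lit 0x20028420501))) 
(.lf (nat_lit 8045782) (dlOf (nat_lit 2) (nat_lit 0x11ae000307c80009408000800200060008512d82)))) 
(.lf (nat_lit 2281882326) (dlOf (nat_lit 1) (nat_lit 0x200280a2081)))) (.nd (nat_lit 19) 
(.lf (nat_lit 1343668438) (dlOf (nat_lit 1) (nat_lit 0x200182e0501))) 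
(.lf (nat_lit 2015446) (dlOf (nat_lit 1) (nat_lit 0x20018150481))))) (.nd (nat_lit 28) 
(.nd (nat_lit 9) 
(.lf (nat_lit 5435998422) (dlOf (nat_lit 1) (nat_lit 0x1200080064002007e0008090983))) 
(.lf (nat_lit 2214773462) (dlOf (nat_lit 1) (nat_lit 0xf400200bc00080a2082)))) (.nd (nat_lit 10) 
(.lf (nat_lit 1410253014) (dlOf (nat_lit 1) (nat_lit 0x60002001600081b0482))) 
(.lf (nat_lit 1543687382) (dlOf (nat_lit 1) (nat_lit 0x20028146481)))))) (.nd (nat_lit 25) 
(.nd (nat_lit 10) (.nd (nat_lit 19) (.nd (nat_lit 21) 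
(.lf (nat_lit 3087188950) (dlOf (nat_lit 1) (nat_lit 0x20028142881))) 
(.lf (nat_lit 31638486) (dlOf (nat_lit 1) (nat_lit 0x38008000400200020008e92883)))) 
(.nd (nat_lit 18) (.lf (nat_lit 2752168918) (dlOf (nat_lit 1) (nat_lit 0xc0008002881))) 
(.lf (nat_lit 1008649174) (dlOf (nat_lit 1) (nat_lit 0x400200020008ef2882))))) (.nd (nat_lit 18) 
(.nd (nat_lit 27) (.lf (nat_lit 537053142) (dlOf (nat_lit 1) (nat_lit 0x400400020008004502))) 
(.lf (nat_lit 671270870) (dlOf (nat_lit 4) (nat_lit 0x160030000150200a20180000981004c00c0000140800280080020002000e0008144503)))) 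
(.lf (nat_lit 2751907798) (dlOf (nat_lit 2) (nat_lit 0x34248003211980004c100048008003400200020008004503))))) 
(.nd (nat_lit 20) (.nd (nat_lit 19) (.nd (nat_lit 22) 
(.lf (nat_lit 60998614) (dlOf (nat_lit 1) (nat_lit 0x80080038002000200098c2883))) 
(.lf (nat_lit 48415702) (dlOf (nat_lit 1) (nat_lit 0xe0019402881)))) 
(.lf (nat_lit 36357078) (dlOf (nat_lit 1) (nat_lit 0x40019072881)))) (.nd (nat_lit 18) 
(.lf (nat_lit 38978518) (dlOf (nat_lit 1) (nat_lit 0x400200020009192882))) (.nd (nat_lit 19) 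
(.lf (nat_lit 39240662) (dlOf (nat_lit 1) (nat_lit 0x8008001800200080009192883))) 
(.lf (nat_lit 56542166) (dlOf (nat_lit 1) (nat_lit 0x400200020009732882)))))))))) (.nd (nat_lit 8) 
(.nd (nat_lit 26) (.nd (nat_lit 6) (.nd (nat_lit 9) (.nd (nat_lit 20) (.nd (nat_lit 18) 
(.nd (nat_lit 19) (.nd (nat_lit 7) 
(.lf (nat_lit 1073922102) (dlOf (nat_lit 1) (nat_lit 0x400400040018020682))) 
(.lf (nat_lit 184502) (dlOf (nat_lit 1) (nat_lit 0x20008007e81)))) (.nd (nat_lit 27) 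
(.lf (nat_lit 1342881846) (dlOf (nat_lit 1) (nat_lit 0x3000201520008101382))) 
(.lf (nat_lit 134922294) (dlOf (nat_lit 2) (nat_lit 0x5a03b000000180e0780))))) (.nd (nat_lit 7) 
(.nd (nat_lit 10) 
(.lf (nat_lit 2819014710) (dlOf (nat_lit 2) (nat_lit 0xb8000002a204000800400100018150482))) 
(.lf (nat_lit 50775094) (dlOf (nat_lit 3) (nat_lit 0x224e800a8981000d274001713580292e080108004007a00194c2882)))) 
(.lf (nat_lit 1344718006) (dlOf (nat_lit 1) (nat_lit 0x40018982c81))))) (.nd (nat_lit 19) 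
(.nd (nat_lit 18) (.nd (nat_lit 22) 
(.lf (nat_lit 62046262) (dlOf (nat_lit 1) (nat_lit 0x100009940481))) 
(.lf (nat_lit 24297526) (dlOf (nat_lit 1) (nat_lit 0x20018b90b81)))) 
(.lf (nat_lit 26656822) (dlOf (nat_lit 1) (nat_lit 0x1000400100018c50482)))) (.nd (nat_lit 23) 
(.lf (nat_lit 5773115446) (dlOf (nat_lit 1) (nat_lit 0x4004000200080a0f82))) 
(.lf (nat_lit 10141750) (dlOf (nat_lit 1) (nat_lit 0xa00085b0681)))))) (.nd (nat_lit 27) 
(.nd (nat_lit 10) (.nd (nat_lit 18) 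
(.lf (nat_lit 3491414582) (dlOf (nat_lit 3) (nat_lit 0xb01ea00260e88000441000b07a800343b2003e1d100050c1800000200080008015800200120008090f83))) 
(.lf (nat_lit 537313846) (dlOf (nat_lit 1) (nat_lit 0x2a0008090f81)))) 
(.lf (nat_lit 1610794550) (dlOf (nat_lit 2) (nat_lit 0x2015000050080068008001c002004a0008093783)))) 
(.nd (nat_lit 18) (.nd (nat_lit 28) 
(.lf (nat_lit 134398518) (dlOf (nat_lit 1) (nat_lit 0xa8002003a0008018102))) 
(.lf (nat_lit 939704886) (dlOf (nat_lit 2) (nat_lit 0x3100000000004008000200460008158b02)))) 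
(.lf (nat_lit 134660662) (dlOf (nat_lit 3) (nat_lit 0x80300012000000044100390150017007e00c403d004601d002600d4010c06600a8013004000180000040029000800fc002000e0008090f83)))))) 
(.nd (nat_lit 21) (.nd (nat_lit 7) (.nd (nat_lit 18) (.nd (nat_lit 19) 
(.lf (nat_lit 2818752630) (dlOf (nat_lit 1) (nat_lit 0x180028112901))) 
(.lf (nat_lit 60473462) (dlOf (nat_lit 1) (nat_lit 0x180029870b01)))) 
(.lf (nat_lit 21414006) (dlOf (nat_lit 1) (nat_lit 0x80018a30b01)))) (.nd (nat_lit 9) 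
(.lf (nat_lit 3494035702) (dlOf (nat_lit 2) (nat_lit 0x1067800082d6000214d000e20381b0480))) 
(.lf (nat_lit 3355628278) (dlOf (nat_lit 1) (nat_lit 0x2e00280a8f81))))) (.nd (nat_lit 7) 
(.nd (nat_lit 10) (.nd (nat_lit 19) 
(.lf (nat_lit 24297590) (dlOf (nat_lit 1) (nat_lit 0x400200020008b91882))) 
(.lf (nat_lit 29016182) (dlOf (nat_lit 1) (nat_lit 0x400200020008da0482)))) 
(.lf (nat_lit 40027254) (dlOf (nat_lit 1) (nat_lit 0x400291f2a01)))) (.nd (nat_lit 18) 
(.lf (nat_lit 2277622) (dlOf (nat_lit 2) (nat_lit 0x28e1600046770005c0100140008002800200060008150483))) 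
(.lf (nat_lit 19841270) (dlOf (nat_lit 1) (nat_lit 0x4002000200089d0a82))))))) (.nd (nat_lit 28) 
(.nd (nat_lit 9) (.nd (nat_lit 27) (.nd (nat_lit 20) (.nd (nat_lit 29) 
(.lf (nat_lit 5435998262) (dlOf (nat_lit 1) (nat_lit 0xc0002002e0008090002))) 
(.lf (nat_lit 4899127350) (dlOf (nat_lit 1) (nat_lit 0x8002000c0008080482)))) 
(.lf (nat_lit 68337718) (dlOf (nat_lit 1) (nat_lit 0x60008550881)))) (.nd (nat_lit 6) 
(.lf (nat_lit 202031158) (dlOf (nat_lit 2) (nat_lit 0x5a03b000000180e0780))) 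
(.lf (nat_lit 3422737654) (dlOf (nat_lit 1) (nat_lit 0x200280a9501))))) (.nd (nat_lit 10) 
(.nd (nat_lit 18) (.nd (nat_lit 19) 
(.lf (nat_lit 2348991030) (dlOf (nat_lit 2) (nat_lit 0x12014000048080018008000c00200040008090f83))) 
(.lf (nat_lit 2753217078) (dlOf (nat_lit 3) (nat_lit 0xb01fc00260f30000481000b07f000343dc003e1e600050c1800000200080008015800200120008090f83)))) 
(.lf (nat_lit 201769526) (dlOf (nat_lit 3) (nat_lit 0x80300012000000048100390154017007e00c403d004601d002600d4010c06600a8013004000200000040029000800fc002000e0008090f83)))) 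
(.lf (nat_lit 3422737974) (dlOf (nat_lit 1) (nat_lit 0x200080a9c01))))) (.nd (nat_lit 7) 
(.nd (nat_lit 9) (.nd (nat_lit 6) (.nd (nat_lit 18) 
(.lf (nat_lit 1946337334) (dlOf (nat_lit 1) (nat_lit 0x400400040018020682))) 
(.lf (nat_lit 3557212214) (dlOf (nat_lit 2) (nat_lit 0x186000000a8818170480)))) 
(.lf (nat_lit 5704433782) (dlOf (nat_lit 1) (nat_lit 0x188008010000200ca0008080d83)))) 
(.nd (nat_lit 18) 
(.lf (nat_lit 2483208758) (dlOf (nat_lit 2) (nat_lit 0x12014000044080018008000c00200040008090f83))) 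
(.lf (nat_lit 1409729078) (dlOf (nat_lit 1) (nat_lit 0x2a0008090f81))))) (.nd (nat_lit 6) 
(.nd (nat_lit 10) 
(.lf (nat_lit 1410252982) (dlOf (nat_lit 2) (nat_lit 0xc0308000ac0800180080014002001800081b0383))) 
(.lf (nat_lit 1543687350) (dlOf (nat_lit 1) (nat_lit 0x1800400040018146282)))) (.nd (nat_lit 11) 
(.lf (nat_lit 2617430774) (dlOf (nat_lit 1) (nat_lit 0x2e00280a8f81))) 
(.lf (nat_lit 4093823734) (dlOf (nat_lit 1) (nat_lit 0x800200020008005a02)))))))) (.nd (nat_lit 7) 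
(.nd (nat_lit 18) (.nd (nat_lit 6) (.nd (nat_lit 10) (.nd (nat_lit 12) 
(.lf (nat_lit 20106038) (dlOf (nat_lit 1) (nat_lit 0x200189d5c01))) 
(.lf (nat_lit 3221412662) (dlOf (nat_lit 1) (nat_lit 0x3800800200020024000811bc83)))) 
(.nd (nat_lit 9) (.lf (nat_lit 8049974) (dlOf (nat_lit 1) (nat_lit 0x400200020008519902))) 
(.nd (nat_lit 19) 
(.lf (nat_lit 671270710) (dlOf (nat_lit 1) (nat_lit 0x20008001000200100008143e03))) 
(.lf (nat_lit 2752169782) (dlOf (nat_lit 1) (nat_lit 0x40008000400200020008003e03)))))) 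
(.nd (nat_lit 9) (.nd (nat_lit 10) 
(.lf (nat_lit 37407094) (dlOf (nat_lit 1) (nat_lit 0x58800201c600090d4e82))) 
(.lf (nat_lit 805490038) (dlOf (nat_lit 1) (nat_lit 0x5a0018116b81)))) (.nd (nat_lit 10) 
(.lf (nat_lit 8045430) (dlOf (nat_lit 1) (nat_lit 0x400400020008512582))) 
(.lf (nat_lit 8050550) (dlOf (nat_lit 1) (nat_lit 0x4000800040020006000851a303)))))) 
(.nd (nat_lit 29) (.nd (nat_lit 6) (.nd (nat_lit 9) (.nd (nat_lit 20) 
(.lf (nat_lit 4362518838) (dlOf (nat_lit 4) (nat_lit 0x3009e0002402000402c000110100270230000000800c800800c400200140008090583))) 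
(.lf (nat_lit 3493249334) (dlOf (nat_lit 1) (nat_lit 0x1400200060008104c02)))) 
(.lf (nat_lit 8832822) (dlOf (nat_lit 1) (nat_lit 0x1400200020008513e02)))) (.nd (nat_lit 21) 
(.lf (nat_lit 3490105718) (dlOf (nat_lit 4) (nat_lit 0x7022c025e6040038116012f202001c08b00978818004e80))) 
(.lf (nat_lit 57067894) (dlOf (nat_lit 1) (nat_lit 0x20009794e81))))) (.nd (nat_lit 26) 
(.nd (nat_lit 6) 
(.lf (nat_lit 805749046) (dlOf (nat_lit 4) (nat_lit 0x100880002c0200220440001481003c0050000000800080080134002000200081a0583))) 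
(.lf (nat_lit 1745275254) (dlOf (nat_lit 1) (nat_lit 0x1000280e4e81)))) (.nd (nat_lit 20) 
(.nd (nat_lit 27) 
(.lf (nat_lit 1678164278) (dlOf (nat_lit 4) (nat_lit 0x100880002b0200220440001481003c0050000000800080080134002000200081a0583))) 
(.lf (nat_lit 4228301110) (dlOf (nat_lit 4) (nat_lit 0x300900002502000402b0001101002701f8000000800c800800c400200140008090583)))) 
(.lf (nat_lit 2755051830) (dlOf (nat_lit 1) (nat_lit 0x1400200060008104c02))))))) (.nd (nat_lit 6) 
(.nd (nat_lit 20) (.nd (nat_lit 18) (.nd (nat_lit 9) 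
(.lf (nat_lit 1610794422) (dlOf (nat_lit 1) (nat_lit 0x120008005c002005c0008093603))) 
(.lf (nat_lit 3758281654) (dlOf (nat_lit 2) (nat_lit 0x404c0009a0200020028129201)))) 
(.nd (nat_lit 27) 
(.lf (nat_lit 4362518966) (dlOf (nat_lit 1) (nat_lit 0x100080014002000a0008090803))) 
(.lf (nat_lit 4228301238) (dlOf (nat_lit 1) (nat_lit 0x100080014002000a0008090803))))) 
(.nd (nat_lit 10) (.nd (nat_lit 12) 
(.lf (nat_lit 9617846) (dlOf (nat_lit 1) (nat_lit 0x20018577781))) 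
(.lf (nat_lit 8049078) (dlOf (nat_lit 1) (nat_lit 0x10008000400200020008518503)))) (.nd (nat_lit 9) 
(.lf (nat_lit 8308150) (dlOf (nat_lit 1) (nat_lit 0x400200020008513602))) 
(.lf (nat_lit 8048566) (dlOf (nat_lit 1) (nat_lit 0xc00400040008517a82)))))) (.nd (nat_lit 9) 
(.nd (nat_lit 19) (.nd (nat_lit 10) (.nd (nat_lit 26) 
(.lf (nat_lit 939704822) (dlOf (nat_lit 5) (nat_lit 0xb8060030801601320090018002001f800802480000005e0c001800b001d0048001741005c002c029c012003c00400ad0000001702001c002c000a004013400400020018157e02))) 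
(.lf (nat_lit 4362256886) (dlOf (nat_lit 9) (nat_lit 0x38056000690201ce02b0003401010501580019c0809b80ac000cc0403e8056000420201f202b000208100ee0158001000807c80ac0007e040070004000a0018017e02)))) 
(.lf (nat_lit 183798) (dlOf (nat_lit 1) (nat_lit 0x240018006f81)))) (.nd (nat_lit 10) 
(.nd (nat_lit 26) 
(.lf (nat_lit 3491414518) (dlOf (nat_lit 3) (nat_lit 0x4c3da0022a0200261ed00113818090d80))) 
(.lf (nat_lit 2753217014) (dlOf (nat_lit 3) (nat_lit 0x4c3fe0022a0200261ff00113818090d80)))) 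
(.lf (nat_lit 8046070) (dlOf (nat_lit 1) (nat_lit 0x8008000400200020008513683))))) 
(.nd (nat_lit 10) (.nd (nat_lit 11) (.nd (nat_lit 21) 
(.lf (nat_lit 537052150) (dlOf (nat_lit 1) (nat_lit 0x20028002881))) 
(.lf (nat_lit 35832822) (dlOf (nat_lit 1) (nat_lit 0x20019012881)))) 
(.lf (nat_lit 1881590774) (dlOf (nat_lit 2) (nat_lit 0x1c80000009804005400200460008f65f02)))) 
(.nd (nat_lit 12) (.lf (nat_lit 8046582) (dlOf (nat_lit 1) (nat_lit 0x20008514681))) 
(.lf (nat_lit 2550585334) (dlOf (nat_lit 1) (nat_lit 0x5200080fa601))))))))))) (.nd (nat_lit 17) 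
(.nd (nat_lit 5) (.nd (nat_lit 7) (.nd (nat_lit 18) (.nd (nat_lit 19) (.nd (nat_lit 11) 
(.nd (nat_lit 6) (.nd (nat_lit 20) (.nd (nat_lit 21) 
(.lf (nat_lit 16891926) (dlOf (nat_lit 1) (nat_lit 0x4002000200088e0002))) 
(.lf (nat_lit 10600470) (dlOf (nat_lit 1) (nat_lit 0xa0008600101)))) 
(.lf (nat_lit 470925334) (dlOf (nat_lit 1) (nat_lit 0x17c0018200481)))) (.nd (nat_lit 31) 
(.nd (nat_lit 8) 
(.lf (nat_lit 4563517526) (dlOf (nat_lit 1) (nat_lit 0x88008003000200300008090003))) 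
(.lf (nat_lit 1073856854) (dlOf (nat_lit 1) (nat_lit 0x40028014e01)))) (.nd (nat_lit 26) 
(.lf (nat_lit 4026646870) (dlOf (nat_lit 1) (nat_lit 0x8008001000200060008014e03))) 
(.lf (nat_lit 3691102550) (dlOf (nat_lit 2) (nat_lit 0x201d000b9018010880)))))) (.nd (nat_lit 12) 
(.nd (nat_lit 6) (.lf (nat_lit 39963158) (dlOf (nat_lit 1) (nat_lit 0x3600291f5081))) 
(.nd (nat_lit 9) 
(.lf (nat_lit 1677838678) (dlOf (nat_lit 1) (nat_lit 0x540008089400203cc0008114e03))) 
(.lf (nat_lit 4563520342) (dlOf (nat_lit 1) (nat_lit 0x20028095c01))))) (.nd (nat_lit 10) 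
(.nd (nat_lit 27) (.lf (nat_lit 2751584598) (dlOf (nat_lit 1) (nat_lit 0x60004002c001800ab82))) 
(.lf (nat_lit 3959544150) (dlOf (nat_lit 1) (nat_lit 0x10c004004e001811ab82)))) (.nd (nat_lit 28) 
(.lf (nat_lit 3221347670) (dlOf (nat_lit 1) (nat_lit 0x40040002001811c902))) 
(.lf (nat_lit 805428566) (dlOf (nat_lit 1) (nat_lit 0x800800040020002000811c903))))))) 
(.nd (nat_lit 20) (.nd (nat_lit 21) (.nd (nat_lit 22) (.nd (nat_lit 26) (.nd (nat_lit 29) 
(.lf (nat_lit 134856726) (dlOf (nat_lit 1) (nat_lit 0xc004000200080d0882))) 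
(.lf (nat_lit 3892953110) (dlOf (nat_lit 1) (nat_lit 0x400282a0a01)))) 
(.lf (nat_lit 201965590) (dlOf (nat_lit 1) (nat_lit 0xc004000200080d0882)))) 
(.lf (nat_lit 29999126) (dlOf (nat_lit 1) (nat_lit 0x400200020008e30002)))) (.nd (nat_lit 6) 
(.nd (nat_lit 9) (.lf (nat_lit 27901974) (dlOf (nat_lit 1) (nat_lit 0x400200020008d40402))) 
(.lf (nat_lit 5774098966) (dlOf (nat_lit 1) (nat_lit 0x100080008002000200080f8703)))) 
(.lf (nat_lit 4096376918) (dlOf (nat_lit 2) (nat_lit 0x2800000000040008002000a0008100702))))) 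
(.nd (nat_lit 9) (.nd (nat_lit 28) (.nd (nat_lit 8) 
(.lf (nat_lit 2755248150) (dlOf (nat_lit 11) (nat_lit 0x1405e000a02d000501100028074003da10000c05e000402d00040110007b0180038178000c05e000e02d002401100130074003d614000c05e000601d000f402000201100030074003ce0800200bc000a0570023017801400b4000403a001e60a0002022000f281000d01680078c080008100002c05e001802d000400d8007482000300bc003a2040004004000e0008140a82))) 
(.lf (nat_lit 7980310) (dlOf (nat_lit 1) (nat_lit 0x20028513081)))) (.nd (nat_lit 21) 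
(.lf (nat_lit 1343864854) (dlOf (nat_lit 1) (nat_lit 0xa0028370001))) 
(.lf (nat_lit 3493445654) (dlOf (nat_lit 11) (nat_lit 0x1405e000a02d000501100028074003fe10000c05e000402d00040110007f8180038178000c05e000e02d002401100130074003fa14000c05e000601d000fd02000201100030074003f20800200bc000a0570023017801400b4000403a001f80a0002022000fb81000d0168007d4080008100002c05e001802d000400d80079c2000300bc003cc040004004000e0008140a82))))) 
(.nd (nat_lit 6) (.nd (nat_lit 10) 
(.lf (nat_lit 473547286) (dlOf (nat_lit 1) (nat_lit 0x1600080024002000a0008f68703))) 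
(.lf (nat_lit 20567574) (dlOf (nat_lit 1) (nat_lit 0xa00089d9c01)))) 
(.lf (nat_lit 7980630) (dlOf (nat_lit 1) (nat_lit 0x400200020008513882))))))) (.nd (nat_lit 30) 
(.nd (nat_lit 26) (.nd (nat_lit 24) (.nd (nat_lit 21) (.nd (nat_lit 29) (.nd (nat_lit 27) 
(.lf (nat_lit 4295344150) (dlOf (nat_lit 1) (nat_lit 0x4004000200081a0002))) 
(.lf (nat_lit 134594582) (dlOf (nat_lit 2) (nat_lit 0x2009800d44080018008000800200080008080503)))) 
(.nd (nat_lit 19) (.lf (nat_lit 4832215062) (dlOf (nat_lit 1) (nat_lit 0x26000200dc0008110002))) 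
(.lf (nat_lit 537772054) (dlOf (nat_lit 1) (nat_lit 0x7800400020008180602))))) (.nd (nat_lit 6) 
(.lf (nat_lit 44417046) (dlOf (nat_lit 1) (nat_lit 0x740019310101))) 
(.lf (nat_lit 3522902) (dlOf (nat_lit 1) (nat_lit 0x1600080070002001e0008200683))))) 
(.nd (nat_lit 6) (.nd (nat_lit 10) (.nd (nat_lit 19) 
(.lf (nat_lit 32882710) (dlOf (nat_lit 1) (nat_lit 0x400200020008f30082))) 
(.lf (nat_lit 22921238) (dlOf (nat_lit 3) (nat_lit 0x2779600249020013bcb00047018b40480)))) 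
(.lf (nat_lit 56476694) (dlOf (nat_lit 1) (nat_lit 0x20009732881)))) (.nd (nat_lit 19) 
(.lf (nat_lit 29737046) (dlOf (nat_lit 13) (nat_lit 0x4323a0002802001d91d0001301000ec8e80007c08006e47400371e80001d04000f91d0004c4100006010004e4740002604004323a0001002001f91d00006010006c8e80001408004e4740000404002b23a0000102001191d0007c7a0007e208000000c005800200040008e30302))) 
(.lf (nat_lit 53330006) (dlOf (nat_lit 1) (nat_lit 0x20019590701)))))) (.nd (nat_lit 27) 
(.nd (nat_lit 6) (.nd (nat_lit 20) 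
(.lf (nat_lit 4362453014) (dlOf (nat_lit 2) (nat_lit 0x900cc0291604002800400300008080502))) 
(.lf (nat_lit 68534294) (dlOf (nat_lit 1) (nat_lit 0x4002000200085b0502)))) 
(.lf (nat_lit 2753937494) (dlOf (nat_lit 1) (nat_lit 0x200080020002000200080a1103)))) 
(.nd (nat_lit 28) (.nd (nat_lit 6) (.nd (nat_lit 29) 
(.lf (nat_lit 201703446) (dlOf (nat_lit 2) (nat_lit 0x2009800b44080018008000800200080008080503))) 
(.lf (nat_lit 738574358) (dlOf (nat_lit 9) (nat_lit 0x11a052008801a000c8080010c0360024c08005e034000601000092c10044014802200680088020005a00d80092820044814802200680088020000200d80092420055014802a406800dc020009b00d800920200470148023406800d0020009500d80091c2004401480220068002460400c6052008801a0001006c0048a0c003c004000c00080b0082)))) 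
(.lf (nat_lit 2886060374) (dlOf (nat_lit 2) (nat_lit 0x800000002818144e00)))) (.nd (nat_lit 22) 
(.lf (nat_lit 2617622550) (dlOf (nat_lit 3) (nat_lit 0x40290011901001c0000007c80803e0008006800201ba0008100483))) 
(.lf (nat_lit 474333206) (dlOf (nat_lit 2) (nat_lit 0x800000094040014002003c0009150102))))))) 
(.nd (nat_lit 31) (.nd (nat_lit 10) (.nd (nat_lit 9) (.nd (nat_lit 19) (.nd (nat_lit 22) 
(.lf (nat_lit 1610989590) (dlOf (nat_lit 9) (nat_lit 0x11a052008801a000c8080010c0360023408005e03400060100008cc10044014802200680088020005a00d8008c820044814802200680088020000200d8008c420055014802a406800dc020009b00d8008c0200470148023406800d0020009500d8008bc20044014802200680022e0400c6052008801a0001006c0045a0c003c004000c00080b0082))) 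
(.lf (nat_lit 1346748438) (dlOf (nat_lit 1) (nat_lit 0x40008002c002000c0009000083)))) 
(.lf (nat_lit 1410187286) (dlOf (nat_lit 1) (nat_lit 0x7800400020008180602)))) 
(.lf (nat_lit 1345702422) (dlOf (nat_lit 1) (nat_lit 0x400200020008dd5082)))) (.nd (nat_lit 8) 
(.lf (nat_lit 1344652310) (dlOf (nat_lit 1) (nat_lit 0x260028922881))) 
(.lf (nat_lit 5772789014) (dlOf (nat_lit 1) (nat_lit 0x20028093081))))) (.nd (nat_lit 26) 
(.nd (nat_lit 28) (.nd (nat_lit 27) 
(.lf (nat_lit 3221602326) (dlOf (nat_lit 1) (nat_lit 0x20028160501))) 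
(.lf (nat_lit 3355820054) (dlOf (nat_lit 2) (nat_lit 0x8000003e604002000400160008120482)))) 
(.nd (nat_lit 10) 
(.lf (nat_lit 4026908694) (dlOf (nat_lit 3) (nat_lit 0x580900231804000c024010c102000200280c0a81))) 
(.lf (nat_lit 3492660246) (dlOf (nat_lit 1) (nat_lit 0x10002000400080f2882))))) (.nd (nat_lit 27) 
(.lf (nat_lit 3288711190) (dlOf (nat_lit 3) (nat_lit 0x580900233804000c0240103e02000200280c0a81))) 
(.nd (nat_lit 28) (.lf (nat_lit 3959799830) (dlOf (nat_lit 1) (nat_lit 0x20028160501))) 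
(.lf (nat_lit 4228235286) (dlOf (nat_lit 2) (nat_lit 0x900c802be204002800400300008080502))))))))) 
(.nd (nat_lit 26) (.nd (nat_lit 6) (.nd (nat_lit 11) (.nd (nat_lit 9) (.nd (nat_lit 18) 
(.lf (nat_lit 4563517590) (dlOf (nat_lit 1) (nat_lit 0x20028090481))) (.nd (nat_lit 19) 
(.lf (nat_lit 11911318) (dlOf (nat_lit 4) (nat_lit 0x41aa28020f49800023020005a8a000452600008a080012a28000b4980001c0286c0180))) 
(.lf (nat_lit 1343078550) (dlOf (nat_lit 2) (nat_lit 0x2800000bab0200360008150281))))) 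
(.nd (nat_lit 10) (.lf (nat_lit 20042390) (dlOf (nat_lit 1) (nat_lit 0x4002000200089d8c82))) 
(.nd (nat_lit 12) (.lf (nat_lit 7980694) (dlOf (nat_lit 1) (nat_lit 0x80080134002014e0008513a83))) 
(.lf (nat_lit 3355563670) (dlOf (nat_lit 1) (nat_lit 0x80080008002000200080a9f03)))))) 
(.nd (nat_lit 29) (.nd (nat_lit 18) 
(.lf (nat_lit 56740246) (dlOf (nat_lit 1) (nat_lit 0x180019734e81))) (.nd (nat_lit 19) 
(.lf (nat_lit 34982294) (dlOf (nat_lit 1) (nat_lit 0x180018fb4e81))) 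
(.lf (nat_lit 32360854) (dlOf (nat_lit 1) (nat_lit 0x1400200040008ef4e82))))) (.nd (nat_lit 8) 
(.nd (nat_lit 27) (.lf (nat_lit 5905696918) (dlOf (nat_lit 1) (nat_lit 0x400200020008144802))) 
(.lf (nat_lit 939640982) (dlOf (nat_lit 1) (nat_lit 0x5400400040008144802)))) 
(.lf (nat_lit 805424534) (dlOf (nat_lit 1) (nat_lit 0x20028116d01)))))) (.nd (nat_lit 9) 
(.nd (nat_lit 8) (.nd (nat_lit 20) (.nd (nat_lit 10) 
(.lf (nat_lit 2212054) (dlOf (nat_lit 1) (nat_lit 0x400200020008150482))) 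
(.lf (nat_lit 3355563222) (dlOf (nat_lit 1) (nat_lit 0x200280a9501)))) (.nd (nat_lit 18) 
(.lf (nat_lit 3260630) (dlOf (nat_lit 1) (nat_lit 0x400200020008200482))) 
(.lf (nat_lit 3522774) (dlOf (nat_lit 2) (nat_lit 0x726c00068c080018008013c00200220008200483))))) 
(.nd (nat_lit 10) 
(.lf (nat_lit 4697735638) (dlOf (nat_lit 1) (nat_lit 0x700080030002002a0008091203))) 
(.nd (nat_lit 12) (.lf (nat_lit 61457878) (dlOf (nat_lit 1) (nat_lit 0x400400020009923602))) 
(.lf (nat_lit 7984598) (dlOf (nat_lit 2) (nat_lit 0x625e0004129c00048080010004000c0018519b02)))))) 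
(.nd (nat_lit 28) (.nd (nat_lit 22) (.nd (nat_lit 18) 
(.lf (nat_lit 115670) (dlOf (nat_lit 1) (nat_lit 0x400400020008002882))) 
(.lf (nat_lit 8766422) (dlOf (nat_lit 1) (nat_lit 0xa0018512881)))) (.nd (nat_lit 19) 
(.lf (nat_lit 38126550) (dlOf (nat_lit 1) (nat_lit 0x1a0009132881))) 
(.lf (nat_lit 56476630) (dlOf (nat_lit 1) (nat_lit 0x20009732881))))) (.nd (nat_lit 18) 
(.lf (nat_lit 939639766) (dlOf (nat_lit 2) (nat_lit 0x7002c0206204000400400040018142882))) 
(.nd (nat_lit 20) (.lf (nat_lit 1344652246) (dlOf (nat_lit 1) (nat_lit 0x2a0028922881))) 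
(.lf (nat_lit 5772788694) (dlOf (nat_lit 1) (nat_lit 0x20028092881)))))))) (.nd (nat_lit 31) 
(.nd (nat_lit 11) (.nd (nat_lit 9) (.nd (nat_lit 8) 
(.lf (nat_lit 470663382) (dlOf (nat_lit 2) (nat_lit 0x140000000002009a0008150501))) 
(.nd (nat_lit 10) (.lf (nat_lit 872530390) (dlOf (nat_lit 1) (nat_lit 0x400200020008091202))) 
(.lf (nat_lit 6375458262) (dlOf (nat_lit 1) (nat_lit 0x400400020008003602))))) (.nd (nat_lit 10) 
(.nd (nat_lit 18) (.lf (nat_lit 6377554902) (dlOf (nat_lit 1) (nat_lit 0x18004000c00180e2882))) 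
(.lf (nat_lit 1009107926) (dlOf (nat_lit 3) (nat_lit 0x181c6006540200080e300328019082880)))) 
(.lf (nat_lit 1677838294) (dlOf (nat_lit 1) (nat_lit 0x50008008c00200500008114503))))) 
(.nd (nat_lit 8) (.nd (nat_lit 10) (.nd (nat_lit 32) 
(.lf (nat_lit 1677838486) (dlOf (nat_lit 1) (nat_lit 0x20018114801))) 
(.lf (nat_lit 5972805782) (dlOf (nat_lit 1) (nat_lit 0x2800200020008144802)))) 
(.lf (nat_lit 1812057238) (dlOf (nat_lit 1) (nat_lit 0x1c00400060008146202)))) (.nd (nat_lit 6) 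
(.nd (nat_lit 10) (.lf (nat_lit 69585302) (dlOf (nat_lit 1) (nat_lit 0x80018b44e81))) 
(.lf (nat_lit 1543622038) (dlOf (nat_lit 1) (nat_lit 0x20028146d01)))) 
(.lf (nat_lit 738314710) (dlOf (nat_lit 1) (nat_lit 0x40028094e81)))))) (.nd (nat_lit 6) 
(.nd (nat_lit 8) (.nd (nat_lit 9) (.nd (nat_lit 29) 
(.lf (nat_lit 6509677718) (dlOf (nat_lit 1) (nat_lit 0x340018146201))) 
(.lf (nat_lit 3825323158) (dlOf (nat_lit 1) (nat_lit 0x800400020008146202)))) 
(.lf (nat_lit 6509678230) (dlOf (nat_lit 1) (nat_lit 0x400400020008147202)))) (.nd (nat_lit 9) 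
(.lf (nat_lit 2754988438) (dlOf (nat_lit 1) (nat_lit 0x1600080f4e81))) 
(.lf (nat_lit 2751580054) (dlOf (nat_lit 1) (nat_lit 0x4c00400100008004202))))) (.nd (nat_lit 18) 
(.nd (nat_lit 8) (.nd (nat_lit 11) 
(.lf (nat_lit 2617365718) (dlOf (nat_lit 1) (nat_lit 0xe00280a9501))) 
(.lf (nat_lit 6509677782) (dlOf (nat_lit 1) (nat_lit 0x400400020008146482)))) (.nd (nat_lit 10) 
(.lf (nat_lit 2752103382) (dlOf (nat_lit 1) (nat_lit 0x20028002881))) 
(.lf (nat_lit 3959539670) (dlOf (nat_lit 1) (nat_lit 0x400400020008114502))))) (.nd (nat_lit 10) 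
(.lf (nat_lit 2751841238) (dlOf (nat_lit 1) (nat_lit 0x800200020008002882))) (.nd (nat_lit 27) 
(.lf (nat_lit 2751842262) (dlOf (nat_lit 3) (nat_lit 0x683240002604000819a000c0a800008028004500))) 
(.lf (nat_lit 2886059990) (dlOf (nat_lit 2) (nat_lit 0x300a00004c080018008002800200120008144503)))))))))) 
(.nd (nat_lit 8) (.nd (nat_lit 18) (.nd (nat_lit 31) (.nd (nat_lit 9) (.nd (nat_lit 23) 
(.nd (nat_lit 6) (.nd (nat_lit 11) (.nd (nat_lit 22) 
(.lf (nat_lit 537509942) (dlOf (nat_lit 1) (nat_lit 0x30004000600080a0a82))) 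
(.lf (nat_lit 21610550) (dlOf (nat_lit 10) (nat_lit 0x10ed50003f6a0002bb4c0013da4000ced0000476780013b340015d430033f080008ed50004f6a0001fb4c000fda40004ed00003f678001ba860067d0e000bdaa0007ed40001f69800cf80c002fb500015da6000bed200067680002fb3c001dd430033d86000aed50007f6a00027b4c001dda4000aed00005750c00b2a18002bb54001dda80007ed30000f690001bb40000fd43002ca060010ed50004f6980027b400015d43002c984000eed50004f698001fb400019d43002c9040001e5e00139808001800800b400200c40008a51003)))) 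
(.lf (nat_lit 120886) (dlOf (nat_lit 1) (nat_lit 0x3c0040002001800a602)))) (.nd (nat_lit 27) 
(.lf (nat_lit 5435932790) (dlOf (nat_lit 1) (nat_lit 0x20008040d81))) 
(.lf (nat_lit 5301715062) (dlOf (nat_lit 1) (nat_lit 0x20028040d81))))) (.nd (nat_lit 20) 
(.nd (nat_lit 21) (.lf (nat_lit 12697654) (dlOf (nat_lit 1) (nat_lit 0x4004000200186d0a82))) 
(.lf (nat_lit 10600502) (dlOf (nat_lit 1) (nat_lit 0x8008000400200020008600683)))) 
(.lf (nat_lit 26329142) (dlOf (nat_lit 2) (nat_lit 0x7e000000de818c30480))))) (.nd (nat_lit 6) 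
(.nd (nat_lit 10) (.nd (nat_lit 19) 
(.lf (nat_lit 5771479606) (dlOf (nat_lit 1) (nat_lit 0x400400020008005182))) 
(.lf (nat_lit 56216118) (dlOf (nat_lit 1) (nat_lit 0x400400020009735182)))) 
(.lf (nat_lit 7980598) (dlOf (nat_lit 1) (nat_lit 0x8008000400200020008513783)))) (.nd (nat_lit 26) 
(.lf (nat_lit 1208076918) (dlOf (nat_lit 1) (nat_lit 0x8008000400200860008095403))) 
(.lf (nat_lit 335661686) (dlOf (nat_lit 1) (nat_lit 0x400400020008095402)))))) (.nd (nat_lit 27) 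
(.nd (nat_lit 19) (.nd (nat_lit 7) (.nd (nat_lit 26) 
(.lf (nat_lit 2416033846) (dlOf (nat_lit 1) (nat_lit 0x8008000400200020008020683))) 
(.lf (nat_lit 2483142710) (dlOf (nat_lit 4) (nat_lit 0x180a8005c0500013704003a02800090810002015000280a0001e808000400400020008030d02)))) 
(.lf (nat_lit 3221347510) (dlOf (nat_lit 1) (nat_lit 0x40040002000811c202)))) (.nd (nat_lit 9) 
(.lf (nat_lit 4096376886) (dlOf (nat_lit 2) (nat_lit 0x2409a00090c080188008001000200180008100483))) 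
(.nd (nat_lit 26) 
(.lf (nat_lit 3491349046) (dlOf (nat_lit 3) (nat_lit 0x607a8000220403803d4000000200460018090f81))) 
(.lf (nat_lit 2753151542) (dlOf (nat_lit 3) (nat_lit 0x607f0000240403803f8000000200460018090f81)))))) 
(.nd (nat_lit 9) (.nd (nat_lit 19) (.nd (nat_lit 26) 
(.lf (nat_lit 2550251574) (dlOf (nat_lit 1) (nat_lit 0x8008000400200020008020683))) 
(.lf (nat_lit 2348924982) (dlOf (nat_lit 4) (nat_lit 0x180a8005c0500013704003a02800090810002015000280a0001e808000400400020008030d02)))) 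
(.lf (nat_lit 3892953142) (dlOf (nat_lit 3) (nat_lit 0xdc047000a022001b0108002808200029080076007000138182a0c00)))) 
(.nd (nat_lit 6) (.lf (nat_lit 3355558454) (dlOf (nat_lit 1) (nat_lit 0x4004000200080a1482))) 
(.nd (nat_lit 26) (.lf (nat_lit 3355562742) (dlOf (nat_lit 1) (nat_lit 0x7c00280a8f81))) 
(.lf (nat_lit 2617365238) (dlOf (nat_lit 1) (nat_lit 0x7c00280a8f81)))))))) (.nd (nat_lit 30) 
(.nd (nat_lit 22) (.nd (nat_lit 20) (.nd (nat_lit 26) 
(.lf (nat_lit 5234868278) (dlOf (nat_lit 2) (nat_lit 0x401800583818111000))) (.nd (nat_lit 27) 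
(.lf (nat_lit 6509936694) (dlOf (nat_lit 1) (nat_lit 0x1800400040008170d02))) 
(.lf (nat_lit 738574390) (dlOf (nat_lit 7) (nat_lit 0x4c0a600100350009010800980000049210001c000002480200080560010029800e00d40024042002601d000f00c000800000048e1c000c0a6001a0180010f82000400c0007c808001814c003e0040098002002600080b0482))))) 
(.nd (nat_lit 7) (.nd (nat_lit 9) 
(.lf (nat_lit 1425462) (dlOf (nat_lit 2) (nat_lit 0x180b0000c038c00341b2003e071001d032800550280258008001c002000600080c0d03))) 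
(.lf (nat_lit 2754989622) (dlOf (nat_lit 1) (nat_lit 0x200280f7181)))) 
(.lf (nat_lit 20303030) (dlOf (nat_lit 1) (nat_lit 0x200089d6281))))) (.nd (nat_lit 19) 
(.nd (nat_lit 6) (.nd (nat_lit 7) 
(.lf (nat_lit 2756034614) (dlOf (nat_lit 2) (nat_lit 0xb8000000000400c8002003000081d0b02))) 
(.lf (nat_lit 21348534) (dlOf (nat_lit 2) (nat_lit 0x1202380084110000c01600071838a31700)))) 
(.lf (nat_lit 29737206) (dlOf (nat_lit 3) (nat_lit 0x1591a0006181000ac8d0003000800f8008002800200020008e30603)))) 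
(.nd (nat_lit 20) (.nd (nat_lit 6) 
(.lf (nat_lit 13484086) (dlOf (nat_lit 1) (nat_lit 0x20018730b81))) 
(.lf (nat_lit 47038582) (dlOf (nat_lit 1) (nat_lit 0x2c0009391f01)))) (.nd (nat_lit 11) 
(.lf (nat_lit 16629814) (dlOf (nat_lit 1) (nat_lit 0x1c004001c00088c0882))) 
(.lf (nat_lit 8247350) (dlOf (nat_lit 1) (nat_lit 0x40020002000851a602))))))) (.nd (nat_lit 29) 
(.nd (nat_lit 7) (.nd (nat_lit 21) (.nd (nat_lit 22) 
(.lf (nat_lit 3288711222) (dlOf (nat_lit 2) (nat_lit 0x80000000a8180c1180))) 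
(.lf (nat_lit 3494232118) (dlOf (nat_lit 2) (nat_lit 0xb8000000000400c8002003000081d0b02)))) 
(.nd (nat_lit 11) 
(.lf (nat_lit 3492134966) (dlOf (nat_lit 1) (nat_lit 0x100080038002002600080a0b83))) 
(.lf (nat_lit 3492665398) (dlOf (nat_lit 1) (nat_lit 0x400180fa601))))) (.nd (nat_lit 10) 
(.lf (nat_lit 1476772022) (dlOf (nat_lit 1) (nat_lit 0x4002000a00081a0482))) 
(.lf (nat_lit 3624258742) (dlOf (nat_lit 2) (nat_lit 0x2807400058040098004000c0008146282))))) 
(.nd (nat_lit 28) (.nd (nat_lit 32) 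
(.lf (nat_lit 1610989622) (dlOf (nat_lit 7) (nat_lit 0x4c0a600100350009010800980000049210001c000002480200080560010029800e00d40024042002601d000f00c000800000048e1c000c0a6001a0180011182000400c0007cc08001814c003e0040098002002600080b0482))) 
(.lf (nat_lit 5905956918) (dlOf (nat_lit 1) (nat_lit 0x1800400040008170d02)))) (.nd (nat_lit 6) 
(.lf (nat_lit 4026908726) (dlOf (nat_lit 2) (nat_lit 0x401a0002402000200280c1181))) 
(.lf (nat_lit 6241501302) (dlOf (nat_lit 2) (nat_lit 0x1a026000b00c0008101000b0008003800200400008100d83)))))))) 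
(.nd (nat_lit 7) (.nd (nat_lit 28) (.nd (nat_lit 10) (.nd (nat_lit 31) (.nd (nat_lit 11) 
(.lf (nat_lit 1140965750) (dlOf (nat_lit 1) (nat_lit 0x120008035801))) 
(.lf (nat_lit 58837366) (dlOf (nat_lit 1) (nat_lit 0x7200197e4e81)))) (.nd (nat_lit 6) 
(.lf (nat_lit 2349194038) (dlOf (nat_lit 2) (nat_lit 0x802a0002014002c101000200080004002000400080fbc83))) 
(.lf (nat_lit 6509676918) (dlOf (nat_lit 1) (nat_lit 0x400400020008144e82))))) (.nd (nat_lit 6) 
(.nd (nat_lit 26) (.lf (nat_lit 116534) (dlOf (nat_lit 1) (nat_lit 0x20028003e01))) 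
(.lf (nat_lit 5972805430) (dlOf (nat_lit 1) (nat_lit 0x400400020008143e02)))) (.nd (nat_lit 26) 
(.lf (nat_lit 3221343606) (dlOf (nat_lit 1) (nat_lit 0x400400020008116b82))) 
(.lf (nat_lit 6509677942) (dlOf (nat_lit 1) (nat_lit 0x400400020008146b82)))))) (.nd (nat_lit 9) 
(.nd (nat_lit 11) (.nd (nat_lit 21) 
(.lf (nat_lit 2013380982) (dlOf (nat_lit 1) (nat_lit 0x120008035801))) 
(.lf (nat_lit 1881260406) (dlOf (nat_lit 2) (nat_lit 0x18398002d6040018004000e0008e81002)))) 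
(.nd (nat_lit 10) (.lf (nat_lit 805423478) (dlOf (nat_lit 1) (nat_lit 0x400400020008114e82))) 
(.lf (nat_lit 805424502) (dlOf (nat_lit 1) (nat_lit 0x400400020008116b82))))) (.nd (nat_lit 6) 
(.nd (nat_lit 10) (.lf (nat_lit 805428022) (dlOf (nat_lit 1) (nat_lit 0x40040002000811bc82))) 
(.lf (nat_lit 3492923190) (dlOf (nat_lit 1) (nat_lit 0x4004000200080f3e02)))) 
(.lf (nat_lit 5771479926) (dlOf (nat_lit 1) (nat_lit 0x400400020008005c02)))))) (.nd (nat_lit 9) 
(.nd (nat_lit 21) (.nd (nat_lit 26) (.nd (nat_lit 27) 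
(.lf (nat_lit 1073857014) (dlOf (nat_lit 1) (nat_lit 0x78008000800200040008017e03))) 
(.lf (nat_lit 4697735670) (dlOf (nat_lit 1) (nat_lit 0x40008091401)))) 
(.lf (nat_lit 6375457270) (dlOf (nat_lit 2) (nat_lit 0x80000006404002400200220008001402)))) 
(.nd (nat_lit 6) (.nd (nat_lit 10) 
(.lf (nat_lit 23445942) (dlOf (nat_lit 1) (nat_lit 0x420018b80801))) 
(.lf (nat_lit 7980470) (dlOf (nat_lit 1) (nat_lit 0x18008000400200020008513603)))) 
(.lf (nat_lit 61457910) (dlOf (nat_lit 1) (nat_lit 0x400400020009923682))))) (.nd (nat_lit 29) 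
(.nd (nat_lit 11) (.nd (nat_lit 6) 
(.lf (nat_lit 644022) (dlOf (nat_lit 1) (nat_lit 0x8c0018009201))) (.nd (nat_lit 18) 
(.lf (nat_lit 35767286) (dlOf (nat_lit 1) (nat_lit 0x20019012881))) 
(.lf (nat_lit 34456566) (dlOf (nat_lit 1) (nat_lit 0x20018fb2881))))) (.nd (nat_lit 18) 
(.lf (nat_lit 20564982) (dlOf (nat_lit 1) (nat_lit 0x10002000200089d5f02))) 
(.lf (nat_lit 60148726) (dlOf (nat_lit 2) (nat_lit 0x12c86e0004002000c0009845f01))))) 
(.nd (nat_lit 6) (.nd (nat_lit 30) 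
(.lf (nat_lit 2751580086) (dlOf (nat_lit 1) (nat_lit 0xc0028004381))) 
(.lf (nat_lit 5972805558) (dlOf (nat_lit 1) (nat_lit 0xa0018144381)))) (.nd (nat_lit 10) 
(.lf (nat_lit 536986614) (dlOf (nat_lit 1) (nat_lit 0x20008002881))) 
(.lf (nat_lit 1677838326) (dlOf (nat_lit 1) (nat_lit 0x40028114681)))))))))) (.nd (nat_lit 5) 
(.nd (nat_lit 28) (.nd (nat_lit 18) (.nd (nat_lit 7) (.nd (nat_lit 29) (.nd (nat_lit 20) 
(.nd (nat_lit 21) (.nd (nat_lit 9) 
(.lf (nat_lit 25411606) (dlOf (nat_lit 1) (nat_lit 0x20018c00281))) 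
(.lf (nat_lit 770582) (dlOf (nat_lit 1) (nat_lit 0x20028018701)))) (.nd (nat_lit 10) 
(.lf (nat_lit 15450134) (dlOf (nat_lit 1) (nat_lit 0x2800087f0381))) 
(.lf (nat_lit 19647510) (dlOf (nat_lit 1) (nat_lit 0x200289d5f81))))) (.nd (nat_lit 19) 
(.nd (nat_lit 25) (.lf (nat_lit 13877270) (dlOf (nat_lit 1) (nat_lit 0x400400020008750002))) 
(.lf (nat_lit 47431702) (dlOf (nat_lit 1) (nat_lit 0x4004000200093f0102)))) (.nd (nat_lit 6) 
(.lf (nat_lit 68927510) (dlOf (nat_lit 1) (nat_lit 0xa400200660008840002))) 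
(.lf (nat_lit 8114518) (dlOf (nat_lit 1) (nat_lit 0x1a0028518381)))))) (.nd (nat_lit 8) 
(.nd (nat_lit 19) (.nd (nat_lit 26) 
(.lf (nat_lit 537116694) (dlOf (nat_lit 2) (nat_lit 0xc05f0017012002ad8100088008002400200180008020483))) 
(.nd (nat_lit 30) (.lf (nat_lit 604225558) (dlOf (nat_lit 1) (nat_lit 0xe400180c0481))) 
(.lf (nat_lit 3825451030) (dlOf (nat_lit 2) (nat_lit 0x10120015e8080048008000c00200120008160483))))) 
(.nd (nat_lit 21) 
(.lf (nat_lit 2819342358) (dlOf (nat_lit 1) (nat_lit 0x9000800b000200400008250483))) 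
(.lf (nat_lit 2754330646) (dlOf (nat_lit 3) (nat_lit 0xe81fc00390f3006f101000304680369c040048004002200180d0882))))) 
(.nd (nat_lit 9) (.nd (nat_lit 20) 
(.lf (nat_lit 671334742) (dlOf (nat_lit 1) (nat_lit 0x4000800d000200360008154e03))) 
(.lf (nat_lit 2752758102) (dlOf (nat_lit 1) (nat_lit 0x400400020008048b02)))) (.nd (nat_lit 6) 
(.lf (nat_lit 2885928726) (dlOf (nat_lit 1) (nat_lit 0x20028143c81))) 
(.lf (nat_lit 2885928790) (dlOf (nat_lit 1) (nat_lit 0x10008000400200120008143f03))))))) 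
(.nd (nat_lit 8) (.nd (nat_lit 26) (.nd (nat_lit 6) (.nd (nat_lit 10) 
(.lf (nat_lit 6576914582) (dlOf (nat_lit 1) (nat_lit 0x4004000200081a4002))) 
(.lf (nat_lit 49005718) (dlOf (nat_lit 1) (nat_lit 0x3c0019462b81)))) 
(.lf (nat_lit 23838934) (dlOf (nat_lit 1) (nat_lit 0x20008b80481)))) (.nd (nat_lit 9) 
(.nd (nat_lit 20) (.lf (nat_lit 5972934806) (dlOf (nat_lit 1) (nat_lit 0x4004000200081a4002))) 
(.lf (nat_lit 2752757910) (dlOf (nat_lit 1) (nat_lit 0x400400020008044002)))) (.nd (nat_lit 29) 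
(.lf (nat_lit 4496542358) (dlOf (nat_lit 1) (nat_lit 0x10004000400180e5502))) 
(.lf (nat_lit 738445974) (dlOf (nat_lit 1) (nat_lit 0x60028095501)))))) (.nd (nat_lit 6) 
(.nd (nat_lit 11) (.nd (nat_lit 20) 
(.lf (nat_lit 2349056406) (dlOf (nat_lit 1) (nat_lit 0x100028090781))) 
(.lf (nat_lit 9683350) (dlOf (nat_lit 2) (nat_lit 0x1b41a00c110200020018576481)))) (.nd (nat_lit 9) 
(.nd (nat_lit 21) 
(.lf (nat_lit 52152726) (dlOf (nat_lit 1) (nat_lit 0x20008000c00200060009514e83))) 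
(.lf (nat_lit 37472662) (dlOf (nat_lit 1) (nat_lit 0x200190d4e81)))) 
(.lf (nat_lit 8114070) (dlOf (nat_lit 1) (nat_lit 0x20018517781))))) (.nd (nat_lit 19) 
(.nd (nat_lit 27) (.lf (nat_lit 2751710166) (dlOf (nat_lit 1) (nat_lit 0x20008002881))) 
(.lf (nat_lit 3959669718) (dlOf (nat_lit 2) (nat_lit 0x2000002bac04000c00200020008112882)))) 
(.nd (nat_lit 20) (.lf (nat_lit 36422614) (dlOf (nat_lit 1) (nat_lit 0x20019072881))) 
(.lf (nat_lit 41665494) (dlOf (nat_lit 1) (nat_lit 0x180029242881)))))))) (.nd (nat_lit 6) 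
(.nd (nat_lit 21) (.nd (nat_lit 27) (.nd (nat_lit 22) (.nd (nat_lit 20) 
(.lf (nat_lit 1611120662) (dlOf (nat_lit 1) (nat_lit 0x18008003c002002a00080e0303))) 
(.lf (nat_lit 2753019926) (dlOf (nat_lit 1) (nat_lit 0x20028080501)))) (.nd (nat_lit 19) 
(.lf (nat_lit 13090838) (dlOf (nat_lit 3) (nat_lit 0x4c6c000861b0001a82000131b0000000800e80080014002002000086f0303))) 
(.lf (nat_lit 13615126) (dlOf (nat_lit 1) (nat_lit 0x8008000400200020008730883))))) 
(.nd (nat_lit 8) (.nd (nat_lit 26) 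
(.lf (nat_lit 2819080214) (dlOf (nat_lit 4) (nat_lit 0x36046000668100190218003140800c810c0017a04004000400200008190402))) 
(.lf (nat_lit 201834518) (dlOf (nat_lit 2) (nat_lit 0x3a01040128c04001400400180008090002)))) 
(.lf (nat_lit 3892822294) (dlOf (nat_lit 3) (nat_lit 0x4805800a2102001c02c0001003802870100160008029c00200420008280703))))) 
(.nd (nat_lit 19) (.nd (nat_lit 20) (.nd (nat_lit 23) 
(.lf (nat_lit 19382294) (dlOf (nat_lit 1) (nat_lit 0x38008001c00200020008990a03))) 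
(.lf (nat_lit 27770902) (dlOf (nat_lit 2) (nat_lit 0x6cb70002e018d20400)))) 
(.lf (nat_lit 3653654) (dlOf (nat_lit 5) (nat_lit 0x5da90001ed28000f67c0007a8400110080005da50001ecf8001f5080021e0c0023b520009da50006ecf8003f5080021c10001bb520009da50006ecf800375080021a10000400200020008210882)))) 
(.nd (nat_lit 9) (.nd (nat_lit 10) 
(.lf (nat_lit 15712278) (dlOf (nat_lit 1) (nat_lit 0x20028820401))) 
(.lf (nat_lit 36684822) (dlOf (nat_lit 1) (nat_lit 0x20019072881)))) 
(.lf (nat_lit 19907094) (dlOf (nat_lit 1) (nat_lit 0x20008002c002000c00089d1483)))))) 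
(.nd (nat_lit 7) (.nd (nat_lit 19) (.nd (nat_lit 8) (.nd (nat_lit 22) 
(.lf (nat_lit 3892822102) (dlOf (nat_lit 15) (nat_lit 0x11819000c80c0010c05a0023023801c000c0060004000280c000206400af02d002a000c0098004000260800f605a003500180007c10057816801700060001d04011005a0030001800068100088168000320402980b400a60030000c02007302d0017000c000280801cc0b40056003000098200a902d002d800c000200802380b4008a00300006020009030004c8168004c0000000506014605a000010100a202d0017000c00000080018002013c0008280302))) 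
(.lf (nat_lit 21479510) (dlOf (nat_lit 1) (nat_lit 0x800080004002000c0008a40603)))) 
(.lf (nat_lit 4362584406) (dlOf (nat_lit 2) (nat_lit 0x5680000000004018800200500008090682)))) 
(.nd (nat_lit 9) 
(.lf (nat_lit 20955222) (dlOf (nat_lit 2) (nat_lit 0x17aaec000556600f496c000090389f0700))) 
(.lf (nat_lit 51366486) (dlOf (nat_lit 1) (nat_lit 0x20029515301))))) (.nd (nat_lit 9) 
(.nd (nat_lit 8) (.lf (nat_lit 2080982) (dlOf (nat_lit 1) (nat_lit 0x400200020008150482))) 
(.lf (nat_lit 43501014) (dlOf (nat_lit 1) (nat_lit 0x1c002000600092a3602)))) (.nd (nat_lit 19) 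
(.nd (nat_lit 20) (.lf (nat_lit 61326294) (dlOf (nat_lit 1) (nat_lit 0x4e0009922881))) 
(.lf (nat_lit 39306198) (dlOf (nat_lit 1) (nat_lit 0x8008001400200080009192883)))) 
(.lf (nat_lit 57656278) (dlOf (nat_lit 1) (nat_lit 0x2a0019792881)))))))) (.nd (nat_lit 6) 
(.nd (nat_lit 29) (.nd (nat_lit 8) (.nd (nat_lit 20) (.nd (nat_lit 26) (.nd (nat_lit 7) 
(.nd (nat_lit 19) 
(.lf (nat_lit 1342423062) (dlOf (nat_lit 3) (nat_lit 0xe03a201161c5000d782002b0e6800000080778008023800200020008020483))) 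
(.lf (nat_lit 3492528150) (dlOf (nat_lit 3) (nat_lit 0xe81ea00390e880612c10003046802fc4040048004002200180d0882)))) 
(.lf (nat_lit 268683926) (dlOf (nat_lit 1) (nat_lit 0x200280e5501)))) (.nd (nat_lit 27) 
(.lf (nat_lit 1409531926) (dlOf (nat_lit 2) (nat_lit 0xc05f0017012001484100088008002400200180008020483))) 
(.lf (nat_lit 470007830) (dlOf (nat_lit 3) (nat_lit 0xe03a201161c50009182002b0e6800000080778008023800200020008020483))))) 
(.nd (nat_lit 7) (.nd (nat_lit 19) 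
(.lf (nat_lit 3491217430) (dlOf (nat_lit 1) (nat_lit 0x20028080501))) 
(.lf (nat_lit 473939990) (dlOf (nat_lit 3) (nat_lit 0x10258003fe04002c2cc00260c4001705500118054003ce10000c00400060018fc0082)))) 
(.lf (nat_lit 3490955414) (dlOf (nat_lit 1) (nat_lit 0x400400020008044002))))) (.nd (nat_lit 10) 
(.nd (nat_lit 7) 
(.lf (nat_lit 268684054) (dlOf (nat_lit 1) (nat_lit 0x280080004002000200080e5b83))) 
(.lf (nat_lit 5771872662) (dlOf (nat_lit 2) (nat_lit 0x480a001c2a04000800200040008004e82)))) 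
(.nd (nat_lit 18) (.lf (nat_lit 5704500502) (dlOf (nat_lit 1) (nat_lit 0x200280d3081))) 
(.lf (nat_lit 5772920086) (dlOf (nat_lit 1) (nat_lit 0x20028093081)))))) (.nd (nat_lit 27) 
(.nd (nat_lit 8) (.nd (nat_lit 10) (.nd (nat_lit 19) 
(.lf (nat_lit 5100519446) (dlOf (nat_lit 1) (nat_lit 0x200180d0001))) 
(.lf (nat_lit 1879818262) (dlOf (nat_lit 1) (nat_lit 0xc00400040008380882)))) 
(.lf (nat_lit 1880605718) (dlOf (nat_lit 1) (nat_lit 0x800400020008aa2882)))) (.nd (nat_lit 26) 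
(.lf (nat_lit 6174262550) (dlOf (nat_lit 1) (nat_lit 0x4004000200080d3082))) 
(.lf (nat_lit 872662294) (dlOf (nat_lit 1) (nat_lit 0x60002002a0008093082))))) (.nd (nat_lit 26) 
(.nd (nat_lit 30) 
(.lf (nat_lit 3087253526) (dlOf (nat_lit 2) (nat_lit 0x1012002c34080048008000c00200120008160483))) 
(.lf (nat_lit 2013511702) (dlOf (nat_lit 1) (nat_lit 0x400280d0001)))) (.nd (nat_lit 7) 
(.nd (nat_lit 18) (.lf (nat_lit 1007403030) (dlOf (nat_lit 1) (nat_lit 0xa800400080008320502))) 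
(.lf (nat_lit 1009238038) (dlOf (nat_lit 1) (nat_lit 0x100080024002001800090a0083)))) 
(.lf (nat_lit 1007929750) (dlOf (nat_lit 1) (nat_lit 0x400400020008864e82))))))) (.nd (nat_lit 7) 
(.nd (nat_lit 8) (.nd (nat_lit 9) (.nd (nat_lit 18) (.nd (nat_lit 27) 
(.lf (nat_lit 4563648598) (dlOf (nat_lit 5) (nat_lit 0xca00d005c405e032601f002c0028000542038080c8049005a0e0c01506e10090000482003f80d00000a0405440680000302000200280b0701))) 
(.lf (nat_lit 4697866326) (dlOf (nat_lit 5) (nat_lit 0xca00d005c405e032601f002c0028000542038080c8049005a0e0c01506e10090000482003f80d00000a0405440680000302000200280b0701)))) 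
(.lf (nat_lit 473940054) (dlOf (nat_lit 2) (nat_lit 0x30238006600000012828fc0800)))) 
(.nd (nat_lit 19) (.lf (nat_lit 1881393750) (dlOf (nat_lit 1) (nat_lit 0x400200060008f05302))) 
(.lf (nat_lit 473680470) (dlOf (nat_lit 2) (nat_lit 0x216900000018fa5300))))) (.nd (nat_lit 29) 
(.nd (nat_lit 9) (.lf (nat_lit 3490693462) (dlOf (nat_lit 1) (nat_lit 0xbc00400740008014d02))) 
(.lf (nat_lit 3490175830) (dlOf (nat_lit 1) (nat_lit 0x40040002000800bc82)))) (.nd (nat_lit 18) 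
(.lf (nat_lit 805552470) (dlOf (nat_lit 9) (nat_lit 0x8b02a80128138004406e0328012000b00800cc8028025400c000690e01060550022027000780dc062c024032c00a00920030001a0300840048006c0140006504010a055000602980118138005006e032c012001000800cc0028024c00c0004410000200a0002181008802a80138138004c06e0324012019d005004a8018000841800740140003d020002054000101b0000901009e000807f800209180008124d03))) 
(.lf (nat_lit 4228366678) (dlOf (nat_lit 2) (nat_lit 0x5680000000004018800200500008090682)))))) 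
(.nd (nat_lit 20) (.nd (nat_lit 29) (.nd (nat_lit 18) (.nd (nat_lit 21) 
(.lf (nat_lit 6711133142) (dlOf (nat_lit 1) (nat_lit 0x1000400060018092882))) 
(.lf (nat_lit 5773706198) (dlOf (nat_lit 1) (nat_lit 0x80080004002000200080e2883)))) 
(.lf (nat_lit 1344783318) (dlOf (nat_lit 1) (nat_lit 0x1800400040008982882)))) (.nd (nat_lit 8) 
(.lf (nat_lit 5100519638) (dlOf (nat_lit 1) (nat_lit 0x68004000200180d0982))) (.nd (nat_lit 26) 
(.lf (nat_lit 6174262230) (dlOf (nat_lit 1) (nat_lit 0x200280d2881))) 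
(.lf (nat_lit 4093887446) (dlOf (nat_lit 1) (nat_lit 0x8008000400200020008002883)))))) 
(.nd (nat_lit 8) (.nd (nat_lit 10) 
(.lf (nat_lit 3493839062) (dlOf (nat_lit 1) (nat_lit 0x4002000200081b0482))) 
(.lf (nat_lit 5772657878) (dlOf (nat_lit 1) (nat_lit 0x40028092d81)))) (.nd (nat_lit 18) 
(.lf (nat_lit 3493053398) (dlOf (nat_lit 1) (nat_lit 0x4004000600080f2882))) (.nd (nat_lit 27) 
(.lf (nat_lit 1880605654) (dlOf (nat_lit 1) (nat_lit 0x8008000400200020008aa2883))) 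
(.lf (nat_lit 5772919766) (dlOf (nat_lit 1) (nat_lit 0x400400200008092882)))))))))) 
(.nd (nat_lit 6) (.nd (nat_lit 28) (.nd (nat_lit 21) (.nd (nat_lit 26) (.nd (nat_lit 27) 
(.nd (nat_lit 23) (.nd (nat_lit 8) 
(.lf (nat_lit 4295213110) (dlOf (nat_lit 1) (nat_lit 0x800800f4002002c00080b0b03))) 
(.lf (nat_lit 51102006) (dlOf (nat_lit 1) (nat_lit 0x8002000a0009507b02)))) (.nd (nat_lit 9) 
(.lf (nat_lit 25411638) (dlOf (nat_lit 1) (nat_lit 0x15000200020008c00782))) 
(.lf (nat_lit 9683510) (dlOf (nat_lit 1) (nat_lit 0x20028578b01))))) (.nd (nat_lit 8) 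
(.nd (nat_lit 32) (.lf (nat_lit 134463542) (dlOf (nat_lit 1) (nat_lit 0x80004009c0008030d02))) 
(.lf (nat_lit 4429430838) (dlOf (nat_lit 1) (nat_lit 0x800800f4002002c00080b0b03)))) 
(.lf (nat_lit 671334710) (dlOf (nat_lit 2) (nat_lit 0x400d801308080028008002000200120008154c03))))) 
(.nd (nat_lit 18) (.nd (nat_lit 7) (.nd (nat_lit 27) 
(.lf (nat_lit 1141096502) (dlOf (nat_lit 1) (nat_lit 0x4002000200080d0482))) 
(.lf (nat_lit 201572406) (dlOf (nat_lit 1) (nat_lit 0x80004009c0008030d02)))) 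
(.lf (nat_lit 4496542390) (dlOf (nat_lit 1) (nat_lit 0x4004000200080e5702)))) (.nd (nat_lit 8) 
(.lf (nat_lit 68141110) (dlOf (nat_lit 3) (nat_lit 0x96000000de8100e702800430040002a80800c800400200018400482))) 
(.lf (nat_lit 2752495926) (dlOf (nat_lit 3) (nat_lit 0x24441400a4a0200201d4004b0018014c00)))))) 
(.nd (nat_lit 10) (.nd (nat_lit 19) (.nd (nat_lit 7) (.nd (nat_lit 8) 
(.lf (nat_lit 14925878) (dlOf (nat_lit 2) (nat_lit 0x7e000000de818790480))) 
(.lf (nat_lit 20171574) (dlOf (nat_lit 1) (nat_lit 0x4002000200089d5c02)))) 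
(.lf (nat_lit 2343094) (dlOf (nat_lit 1) (nat_lit 0x20008006c00200740008150383)))) 
(.nd (nat_lit 18) (.lf (nat_lit 29081654) (dlOf (nat_lit 1) (nat_lit 0x8004009c0008dc0c02))) 
(.nd (nat_lit 23) (.lf (nat_lit 20955190) (dlOf (nat_lit 1) (nat_lit 0x1c002000200089f0482))) 
(.lf (nat_lit 12566582) (dlOf (nat_lit 1) (nat_lit 0x200286d0a81)))))) (.nd (nat_lit 12) 
(.nd (nat_lit 8) (.nd (nat_lit 18) 
(.lf (nat_lit 48481334) (dlOf (nat_lit 1) (nat_lit 0x400200020009402882))) 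
(.lf (nat_lit 61850678) (dlOf (nat_lit 1) (nat_lit 0x80019922881)))) 
(.lf (nat_lit 8113974) (dlOf (nat_lit 3) (nat_lit 0x88df0052d81000146f8029680808480080348002023c0008517483)))) 
(.nd (nat_lit 7) (.lf (nat_lit 19650358) (dlOf (nat_lit 1) (nat_lit 0x200289da101))) 
(.nd (nat_lit 18) (.lf (nat_lit 19650230) (dlOf (nat_lit 1) (nat_lit 0x4002000200089da002))) 
(.lf (nat_lit 19912374) (dlOf (nat_lit 1) (nat_lit 0x200189da001)))))))) (.nd (nat_lit 18) 
(.nd (nat_lit 27) (.nd (nat_lit 9) (.nd (nat_lit 19) 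
(.lf (nat_lit 4563648566) (dlOf (nat_lit 2) (nat_lit 0x290090006cc0800280080018002001000080b0483))) 
(.lf (nat_lit 4096507958) (dlOf (nat_lit 2) (nat_lit 0x402b000e3018120480)))) (.nd (nat_lit 7) 
(.lf (nat_lit 3493054262) (dlOf (nat_lit 1) (nat_lit 0x200280f3e01))) 
(.lf (nat_lit 268683958) (dlOf (nat_lit 1) (nat_lit 0xf84004021200080e5702))))) (.nd (nat_lit 32) 
(.nd (nat_lit 8) (.nd (nat_lit 29) 
(.lf (nat_lit 402898998) (dlOf (nat_lit 1) (nat_lit 0x4004000200080a0f82))) 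
(.lf (nat_lit 2013511734) (dlOf (nat_lit 1) (nat_lit 0x4002000200080d0482)))) 
(.lf (nat_lit 1543749942) (dlOf (nat_lit 2) (nat_lit 0x400c80295c080028008002000200120008154c03)))) 
(.nd (nat_lit 19) 
(.lf (nat_lit 4697866294) (dlOf (nat_lit 2) (nat_lit 0x2900900068c0800280080018002001000080b0483))) 
(.nd (nat_lit 26) 
(.lf (nat_lit 5773180982) (dlOf (nat_lit 2) (nat_lit 0x30648008dc0800580080088002000400080b0483))) 
(.lf (nat_lit 6377160758) (dlOf (nat_lit 2) (nat_lit 0x30650008dc0800580080088002000400080b0483))))))) 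
(.nd (nat_lit 7) (.nd (nat_lit 8) (.nd (nat_lit 26) 
(.lf (nat_lit 1342685750) (dlOf (nat_lit 1) (nat_lit 0x200280c0f81))) 
(.lf (nat_lit 470270518) (dlOf (nat_lit 1) (nat_lit 0x200280c0f81)))) (.nd (nat_lit 19) 
(.nd (nat_lit 26) (.lf (nat_lit 1342685494) (dlOf (nat_lit 2) (nat_lit 0xe42260001d8180c0580))) 
(.lf (nat_lit 470270262) (dlOf (nat_lit 2) (nat_lit 0xe42260001d8180c0580)))) 
(.lf (nat_lit 3490693430) (dlOf (nat_lit 3) (nat_lit 0x2443ea004b50200201c2001e7818014c00))))) 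
(.nd (nat_lit 8) (.nd (nat_lit 20) 
(.lf (nat_lit 1007665334) (dlOf (nat_lit 1) (nat_lit 0x400186b0481))) 
(.lf (nat_lit 4095721654) (dlOf (nat_lit 1) (nat_lit 0x4004000200180e0682)))) (.nd (nat_lit 26) 
(.lf (nat_lit 1342685622) (dlOf (nat_lit 2) (nat_lit 0x68247000ac8180c0800))) 
(.lf (nat_lit 470270390) (dlOf (nat_lit 2) (nat_lit 0x68247000aa0180c0800)))))))) (.nd (nat_lit 8) 
(.nd (nat_lit 30) (.nd (nat_lit 7) (.nd (nat_lit 9) (.nd (nat_lit 25) 
(.lf (nat_lit 21479542) (dlOf (nat_lit 2) (nat_lit 0x115260008a9000045398001853c00408100040002000c0008a40d82))) 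
(.lf (nat_lit 55033974) (dlOf (nat_lit 9) (nat_lit 0x8263000213100074978001c4ba000525380051294000892a0006493000b4880001263001112f0000492a001680600064c6000225e00029254002ce0c001498c00104a7000224a8005981800093180004988001c4ba00092528005124c0003014002498c00124c4000e25d00049294001c926000170a00044c60005262000512e8001094a000e4930000b05000126300009310002497400184a500042498000542802c8008000800200060009690d83)))) 
(.nd (nat_lit 10) (.lf (nat_lit 8114806) (dlOf (nat_lit 2) (nat_lit 0x4dfa00a3002000c0008518981))) 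
(.lf (nat_lit 8902262) (dlOf (nat_lit 1) (nat_lit 0xc60008519d01))))) (.nd (nat_lit 20) 
(.nd (nat_lit 10) 
(.lf (nat_lit 2755903734) (dlOf (nat_lit 2) (nat_lit 0x180a2000a050000e60281b0480))) 
(.lf (nat_lit 872662262) (dlOf (nat_lit 1) (nat_lit 0x8008000400200020008092e83)))) 
(.nd (nat_lit 11) (.nd (nat_lit 18) 
(.lf (nat_lit 2752758006) (dlOf (nat_lit 1) (nat_lit 0x40028047781))) 
(.lf (nat_lit 1556726) (dlOf (nat_lit 1) (nat_lit 0x9400280f6f01)))) 
(.lf (nat_lit 20175094) (dlOf (nat_lit 1) (nat_lit 0x4002000200089da982)))))) (.nd (nat_lit 28) 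
(.nd (nat_lit 7) (.nd (nat_lit 26) 
(.lf (nat_lit 3221733494) (dlOf (nat_lit 1) (nat_lit 0xc0028170081))) 
(.lf (nat_lit 3959930998) (dlOf (nat_lit 1) (nat_lit 0xc0028170081)))) (.nd (nat_lit 10) 
(.nd (nat_lit 26) (.lf (nat_lit 3892822262) (dlOf (nat_lit 2) (nat_lit 0x4c0180003c818280600))) 
(.lf (nat_lit 3288842486) (dlOf (nat_lit 2) (nat_lit 0x2000000e00181b0480)))) 
(.lf (nat_lit 5368956150) (dlOf (nat_lit 1) (nat_lit 0x14004000e0008092e82))))) (.nd (nat_lit 7) 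
(.nd (nat_lit 19) 
(.lf (nat_lit 1881653366) (dlOf (nat_lit 6) (nat_lit 0x302b0003814c00100a0000c04d000b484000302b00006008003015800140a60014050000802680005c20005015800180a60004050000302680005820004815800240a60016050000b026800054200028008003c00200040008fa0d83))) 
(.lf (nat_lit 1344258166) (dlOf (nat_lit 1) (nat_lit 0x10008000400200020008520283)))) 
(.nd (nat_lit 9) (.lf (nat_lit 4027039990) (dlOf (nat_lit 2) (nat_lit 0x2000000e00181b0480))) 
(.nd (nat_lit 10) (.lf (nat_lit 4161000182) (dlOf (nat_lit 1) (nat_lit 0x200280a8f81))) 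
(.lf (nat_lit 3493054198) (dlOf (nat_lit 1) (nat_lit 0x200280f3b81)))))))) (.nd (nat_lit 9) 
(.nd (nat_lit 7) (.nd (nat_lit 11) (.nd (nat_lit 10) (.nd (nat_lit 19) 
(.lf (nat_lit 9683318) (dlOf (nat_lit 1) (nat_lit 0x20028575801))) 
(.lf (nat_lit 5772132726) (dlOf (nat_lit 4) (nat_lit 0x4c23c002811d00040000005841800d04700013a040030238000411b000a000000238180058008000c002000c0008091003)))) 
(.lf (nat_lit 61326710) (dlOf (nat_lit 1) (nat_lit 0xdc00400660009923502)))) (.nd (nat_lit 18) 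
(.nd (nat_lit 19) (.lf (nat_lit 4496542070) (dlOf (nat_lit 1) (nat_lit 0x4004000200080e4e82))) 
(.lf (nat_lit 57395574) (dlOf (nat_lit 1) (nat_lit 0x1e0009794e81)))) 
(.lf (nat_lit 3490171254) (dlOf (nat_lit 1) (nat_lit 0xc00200020008004e82))))) (.nd (nat_lit 10) 
(.nd (nat_lit 26) (.lf (nat_lit 4026778102) (dlOf (nat_lit 2) (nat_lit 0x92024000b1018090d80))) 
(.lf (nat_lit 3288580598) (dlOf (nat_lit 2) (nat_lit 0x92024000b1018090d80)))) (.nd (nat_lit 18) 
(.lf (nat_lit 8111606) (dlOf (nat_lit 1) (nat_lit 0x400400020008513682))) 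
(.lf (nat_lit 43501046) (dlOf (nat_lit 1) (nat_lit 0x4004000200092a3682)))))) (.nd (nat_lit 19) 
(.nd (nat_lit 18) (.nd (nat_lit 23) 
(.lf (nat_lit 35898358) (dlOf (nat_lit 1) (nat_lit 0x20019012881))) 
(.lf (nat_lit 61064182) (dlOf (nat_lit 2) (nat_lit 0x16199c00d0c0400a0004001e00098c2882)))) 
(.nd (nat_lit 26) 
(.lf (nat_lit 4698129398) (dlOf (nat_lit 1) (nat_lit 0x300080014002003a0008122883))) 
(.lf (nat_lit 2751972342) (dlOf (nat_lit 1) (nat_lit 0x400200020008002882))))) (.nd (nat_lit 21) 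
(.nd (nat_lit 7) 
(.lf (nat_lit 4094413686) (dlOf (nat_lit 1) (nat_lit 0x8008000400200020008055c03))) 
(.lf (nat_lit 1008454646) (dlOf (nat_lit 1) (nat_lit 0x40008c95f01)))) (.nd (nat_lit 11) 
(.lf (nat_lit 37733366) (dlOf (nat_lit 1) (nat_lit 0x4002000400090d2882))) 
(.lf (nat_lit 54250486) (dlOf (nat_lit 2) (nat_lit 0x1b258000212780006408000400400580019655f02))))))))))))

end

end Pool.Agent.Lib.MP_5854e1_co.Cz

namespace Pool.Agent.Lib.MP_5854e1_co.Cz

noncomputable section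

noncomputable def tz215 : DT := (.nd (nat_lit 17) (.nd (nat_lit 16) (.nd (nat_lit 28) 
(.nd (nat_lit 5) (.nd (nat_lit 7) (.nd (nat_lit 19) (.nd (nat_lit 18) (.nd (nat_lit 8) 
(.nd (nat_lit 32) (.nd (nat_lit 6) (.nd (nat_lit 20) 
(.lf (nat_lit 14729246) (dlOf (nat_lit 1) (nat_lit 0x400400020018770102))) (.nd (nat_lit 21) 
(.lf (nat_lit 13680670) (dlOf (nat_lit 2) (nat_lit 0xf638a80068c080020008001800200060008740483))) 
(.lf (nat_lit 28360734) (dlOf (nat_lit 1) (nat_lit 0x8008000400200020008d90683))))) 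
(.nd (nat_lit 10) (.nd (nat_lit 11) 
(.lf (nat_lit 19972190) (dlOf (nat_lit 1) (nat_lit 0x7e00189d0081))) 
(.lf (nat_lit 3221280862) (dlOf (nat_lit 1) (nat_lit 0x8008001c0020002000800a803)))) 
(.lf (nat_lit 50381918) (dlOf (nat_lit 1) (nat_lit 0x1e00194c2901))))) (.nd (nat_lit 27) 
(.nd (nat_lit 26) 
(.lf (nat_lit 4831887390) (dlOf (nat_lit 1) (nat_lit 0x8008000400200020008050003))) 
(.lf (nat_lit 4898996254) (dlOf (nat_lit 1) (nat_lit 0x400400020008050002)))) (.nd (nat_lit 30) 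
(.lf (nat_lit 4496343070) (dlOf (nat_lit 1) (nat_lit 0x8008000400200020008050003))) 
(.lf (nat_lit 5570084894) (dlOf (nat_lit 1) (nat_lit 0x400400020008050002)))))) (.nd (nat_lit 10) 
(.nd (nat_lit 6) (.nd (nat_lit 21) 
(.lf (nat_lit 1811988766) (dlOf (nat_lit 1) (nat_lit 0xc00180b0481))) 
(.lf (nat_lit 2146590) (dlOf (nat_lit 2) (nat_lit 0x4af90000960200020028150481)))) 
(.lf (nat_lit 4831889758) (dlOf (nat_lit 1) (nat_lit 0x8008000800200020008054e83)))) 
(.nd (nat_lit 11) (.nd (nat_lit 26) 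
(.lf (nat_lit 3892364574) (dlOf (nat_lit 1) (nat_lit 0x4004005a0018083102))) 
(.lf (nat_lit 6106957086) (dlOf (nat_lit 1) (nat_lit 0x140018003101)))) 
(.lf (nat_lit 134270238) (dlOf (nat_lit 1) (nat_lit 0x20018006781)))))) (.nd (nat_lit 6) 
(.nd (nat_lit 26) (.nd (nat_lit 20) (.nd (nat_lit 22) 
(.lf (nat_lit 1208270878) (dlOf (nat_lit 2) (nat_lit 0x30025000230180b0180))) 
(.lf (nat_lit 12894238) (dlOf (nat_lit 1) (nat_lit 0x8008001c002000200086e0a03)))) 
(.lf (nat_lit 9748510) (dlOf (nat_lit 1) (nat_lit 0x13c002005c0008580102)))) (.nd (nat_lit 22) 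
(.nd (nat_lit 30) 
(.lf (nat_lit 604291102) (dlOf (nat_lit 2) (nat_lit 0x200000014c080060008002c00200020008130503))) 
(.lf (nat_lit 1678032926) (dlOf (nat_lit 3) (nat_lit 0x1c0a80010011001700500007c1800380280003c040100004001e0008140b82)))) 
(.lf (nat_lit 2755969054) (dlOf (nat_lit 1) (nat_lit 0x4002000200081c0902))))) (.nd (nat_lit 8) 
(.nd (nat_lit 21) 
(.lf (nat_lit 9748574) (dlOf (nat_lit 6) (nat_lit 0x2691400174820013a3f0004cef8001e770004b2e600039720001a070006d218000cc08008e91400534860001e04002ba450002d2180007410015e83c00233b8003f9610021c06001460240002a14002000400a00008580702))) 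
(.lf (nat_lit 37011550) (dlOf (nat_lit 1) (nat_lit 0xc00200060009081982)))) 
(.lf (nat_lit 21283166) (dlOf (nat_lit 1) (nat_lit 0xa0008a34e81)))))) (.nd (nat_lit 22) 
(.nd (nat_lit 18) (.nd (nat_lit 21) (.nd (nat_lit 20) (.nd (nat_lit 26) 
(.lf (nat_lit 3221798942) (dlOf (nat_lit 1) (nat_lit 0x480008190981))) 
(.lf (nat_lit 3959996446) (dlOf (nat_lit 1) (nat_lit 0x480008190981)))) 
(.lf (nat_lit 10010654) (dlOf (nat_lit 3) (nat_lit 0x603ac00161780010782000a0e60005480801580080028002004400085a0a83)))) 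
(.nd (nat_lit 20) (.nd (nat_lit 24) 
(.lf (nat_lit 36225054) (dlOf (nat_lit 2) (nat_lit 0x8403c0001d819050100))) 
(.lf (nat_lit 19447838) (dlOf (nat_lit 1) (nat_lit 0x4002000200089a0d02)))) 
(.lf (nat_lit 2755182622) (dlOf (nat_lit 5) (nat_lit 0x580cc002c05e000702b80138100000c05e0034022000d00e80098058003fe2000380cc001e0610017020000580880010040002e01d000fe86000300e8007f0080008080003ce04007800400040018120902))))) 
(.nd (nat_lit 6) (.nd (nat_lit 24) 
(.lf (nat_lit 42778654) (dlOf (nat_lit 1) (nat_lit 0x144002000e0009280102))) 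
(.lf (nat_lit 59555870) (dlOf (nat_lit 3) (nat_lit 0x8c87f0006c8100013a00002700800e8008006400200300009810603)))) 
(.lf (nat_lit 4362912094) (dlOf (nat_lit 2) (nat_lit 0x40000000602001c00181a0681))))) 
(.nd (nat_lit 18) (.nd (nat_lit 6) (.nd (nat_lit 8) (.nd (nat_lit 24) 
(.lf (nat_lit 2756231198) (dlOf (nat_lit 2) (nat_lit 0x405c00208818220880))) 
(.lf (nat_lit 21544990) (dlOf (nat_lit 2) (nat_lit 0x3549805f04ec02e0254011210d003f0000000ec2800080080024002000c0008a40103)))) 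
(.lf (nat_lit 29933854) (dlOf (nat_lit 1) (nat_lit 0x20018e30701)))) 
(.lf (nat_lit 21545054) (dlOf (nat_lit 10) (nat_lit 0x25b5800d0544027428a008c143007d0a1001904e4008426e0046136001c099000983d000601d2001e0e5000e07100048368000683802e028a0152142000198200e70a28000850c017827200ac137005a0748000c82800404e4000620401cc2840002f0201b0145009e0a1003584e4001026800e60e90000f8500d80a28053050801702720012134004f074800583680003c18028028a0156142006109c800084d001981d20001d0a00da142000809c8000701002d800803b400200640008a40703)))) 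
(.nd (nat_lit 9) (.lf (nat_lit 21807134) (dlOf (nat_lit 1) (nat_lit 0x20028a70481))) 
(.lf (nat_lit 8183326) (dlOf (nat_lit 1) (nat_lit 0x40020002000851cf02))))))) (.nd (nat_lit 6) 
(.nd (nat_lit 9) (.nd (nat_lit 11) (.nd (nat_lit 8) (.nd (nat_lit 29) 
(.lf (nat_lit 5502977182) (dlOf (nat_lit 1) (nat_lit 0x20008002b81))) 
(.lf (nat_lit 4966106270) (dlOf (nat_lit 1) (nat_lit 0x20018002b81)))) 
(.lf (nat_lit 6509871518) (dlOf (nat_lit 1) (nat_lit 0x800400020008156b82)))) (.nd (nat_lit 12) 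
(.lf (nat_lit 3288386718) (dlOf (nat_lit 2) (nat_lit 0x203400023818006280))) 
(.lf (nat_lit 3288390814) (dlOf (nat_lit 1) (nat_lit 0xa001800c201))))) (.nd (nat_lit 8) 
(.nd (nat_lit 18) (.nd (nat_lit 19) 
(.lf (nat_lit 4831890078) (dlOf (nat_lit 1) (nat_lit 0x400400020008055582))) 
(.lf (nat_lit 60344990) (dlOf (nat_lit 1) (nat_lit 0x40008007c00200160009845583)))) 
(.lf (nat_lit 35965598) (dlOf (nat_lit 1) (nat_lit 0x800200020009015582)))) (.nd (nat_lit 11) 
(.lf (nat_lit 20239262) (dlOf (nat_lit 1) (nat_lit 0x200189d9101))) 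
(.lf (nat_lit 4831890334) (dlOf (nat_lit 1) (nat_lit 0x480018055c81)))))) (.nd (nat_lit 10) 
(.nd (nat_lit 11) (.nd (nat_lit 8) (.nd (nat_lit 18) 
(.lf (nat_lit 29933790) (dlOf (nat_lit 1) (nat_lit 0x20008e30581))) 
(.lf (nat_lit 17088734) (dlOf (nat_lit 1) (nat_lit 0x200088e0581)))) 
(.lf (nat_lit 3959734750) (dlOf (nat_lit 1) (nat_lit 0x1400200280008127d02)))) (.nd (nat_lit 8) 
(.nd (nat_lit 18) (.lf (nat_lit 575710) (dlOf (nat_lit 1) (nat_lit 0x20018004a81))) 
(.lf (nat_lit 2885994718) (dlOf (nat_lit 2) (nat_lit 0x3000000034080020008002c00200100008144a83)))) 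
(.lf (nat_lit 4831889886) (dlOf (nat_lit 1) (nat_lit 0x30008000400200020008054e83))))) 
(.nd (nat_lit 9) (.nd (nat_lit 8) 
(.lf (nat_lit 43304158) (dlOf (nat_lit 1) (nat_lit 0x4004000200092a2e02))) (.nd (nat_lit 11) 
(.lf (nat_lit 67950046) (dlOf (nat_lit 1) (nat_lit 0x400400020008339b02))) 
(.lf (nat_lit 19975646) (dlOf (nat_lit 1) (nat_lit 0x6c800802d8002020600089d6e03))))) 
(.nd (nat_lit 20) (.nd (nat_lit 27) 
(.lf (nat_lit 1677774558) (dlOf (nat_lit 1) (nat_lit 0x20028007381))) 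
(.lf (nat_lit 2885734110) (dlOf (nat_lit 2) (nat_lit 0x34014002a00300002c1000c8008004c00200280008007383)))) 
(.lf (nat_lit 2754662110) (dlOf (nat_lit 1) (nat_lit 0x4004000200080f7382)))))))) (.nd (nat_lit 10) 
(.nd (nat_lit 18) (.nd (nat_lit 26) (.nd (nat_lit 8) (.nd (nat_lit 19) (.nd (nat_lit 6) 
(.lf (nat_lit 14729278) (dlOf (nat_lit 1) (nat_lit 0x40028770481))) 
(.lf (nat_lit 18923646) (dlOf (nat_lit 1) (nat_lit 0x400200020008970482)))) (.nd (nat_lit 9) 
(.lf (nat_lit 3719230) (dlOf (nat_lit 1) (nat_lit 0x8004001a0018220c02))) 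
(.lf (nat_lit 44616254) (dlOf (nat_lit 1) (nat_lit 0x8008000400200020009325203))))) 
(.nd (nat_lit 7) (.nd (nat_lit 12) 
(.lf (nat_lit 4831890238) (dlOf (nat_lit 1) (nat_lit 0x4a0018055c01))) 
(.lf (nat_lit 580414) (dlOf (nat_lit 1) (nat_lit 0x100040108000800bc82)))) 
(.lf (nat_lit 1744880062) (dlOf (nat_lit 1) (nat_lit 0x20018001081))))) (.nd (nat_lit 9) 
(.nd (nat_lit 19) (.nd (nat_lit 11) 
(.lf (nat_lit 68206654) (dlOf (nat_lit 1) (nat_lit 0x400400020018450902))) 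
(.lf (nat_lit 2348865598) (dlOf (nat_lit 1) (nat_lit 0x4002800a681)))) (.nd (nat_lit 20) 
(.lf (nat_lit 2756231230) (dlOf (nat_lit 2) (nat_lit 0x6034000181080014046003001e0004c048220b80))) 
(.lf (nat_lit 2755182654) (dlOf (nat_lit 1) (nat_lit 0x98004005e0008120d82))))) (.nd (nat_lit 6) 
(.lf (nat_lit 69257790) (dlOf (nat_lit 1) (nat_lit 0x40018905201))) (.nd (nat_lit 7) 
(.lf (nat_lit 3288390526) (dlOf (nat_lit 1) (nat_lit 0x5a001800bc81))) 
(.lf (nat_lit 2751513598) (dlOf (nat_lit 1) (nat_lit 0x20018002881))))))) (.nd (nat_lit 29) 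
(.nd (nat_lit 7) (.nd (nat_lit 30) (.nd (nat_lit 19) 
(.lf (nat_lit 4295278654) (dlOf (nat_lit 2) (nat_lit 0x38026000270180f1400))) 
(.lf (nat_lit 11321406) (dlOf (nat_lit 1) (nat_lit 0x20028690e81)))) (.nd (nat_lit 26) 
(.lf (nat_lit 1208270910) (dlOf (nat_lit 10) (nat_lit 0x270140002c80800f80a0000f80401a8052002202800400060001d41803900a40120018000740400ce0290023014001e8030000e60c00640520002b02007e0290000d0100260140000600800e00a40002c0402c8004001200080b0482))) 
(.lf (nat_lit 3288645694) (dlOf (nat_lit 9) (nat_lit 0x14a02e0001b010466017002a80a00006808108c05a0003202062602e03a901680618098000460c0f1405c076c02d002d013000088181e200b4003c04c0002104059a02e0000f81035d017000000080aa800813d8002001200080a0c83))))) 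
(.nd (nat_lit 6) (.nd (nat_lit 20) 
(.lf (nat_lit 21283006) (dlOf (nat_lit 1) (nat_lit 0x20018a31a81))) 
(.lf (nat_lit 13942974) (dlOf (nat_lit 1) (nat_lit 0x400200020008750382)))) 
(.lf (nat_lit 20240638) (dlOf (nat_lit 1) (nat_lit 0x80080004002000200089da983))))) 
(.nd (nat_lit 6) (.nd (nat_lit 8) 
(.lf (nat_lit 2684665918) (dlOf (nat_lit 2) (nat_lit 0x60250001e818130e80))) (.nd (nat_lit 27) 
(.lf (nat_lit 537182526) (dlOf (nat_lit 1) (nat_lit 0x10008000400200060008048503))) 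
(.lf (nat_lit 671400254) (dlOf (nat_lit 1) (nat_lit 0x10008000c00200100008188503))))) 
(.nd (nat_lit 7) (.lf (nat_lit 738511486) (dlOf (nat_lit 1) (nat_lit 0x20008095481))) 
(.nd (nat_lit 26) 
(.lf (nat_lit 5905891838) (dlOf (nat_lit 5) (nat_lit 0x10025000e00b800174100010094001802e0005c04001c01700028010025012801e805c0008408001c004000e0008157e02))) 
(.lf (nat_lit 3959734782) (dlOf (nat_lit 8) (nat_lit 0xaa0038054801802200000001183016c00700b4803004dc000000220601c000e00aa00000008410017003800ac01800020000000f03014c00700a5803004540000001c06028e00e0000d810130007000068080220008009c00200080008127e03)))))))) 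
(.nd (nat_lit 26) (.nd (nat_lit 6) (.nd (nat_lit 7) (.nd (nat_lit 8) 
(.lf (nat_lit 1073792062) (dlOf (nat_lit 1) (nat_lit 0x400400140018002882))) 
(.lf (nat_lit 8181054) (dlOf (nat_lit 1) (nat_lit 0x400200020008519902)))) (.nd (nat_lit 11) 
(.nd (nat_lit 12) (.lf (nat_lit 56149182) (dlOf (nat_lit 1) (nat_lit 0x20029732c81))) 
(.lf (nat_lit 19977406) (dlOf (nat_lit 1) (nat_lit 0x300080024002000c00089d9503)))) 
(.lf (nat_lit 134270142) (dlOf (nat_lit 2) (nat_lit 0xbc041006f01e800380e0000460c001400200040008006302))))) 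
(.nd (nat_lit 7) (.nd (nat_lit 8) (.lf (nat_lit 314494) (dlOf (nat_lit 1) (nat_lit 0x20028006101))) 
(.nd (nat_lit 11) (.lf (nat_lit 8439678) (dlOf (nat_lit 1) (nat_lit 0x20028514101))) 
(.lf (nat_lit 2818887550) (dlOf (nat_lit 1) (nat_lit 0x100018127781))))) (.nd (nat_lit 18) 
(.lf (nat_lit 61392382) (dlOf (nat_lit 1) (nat_lit 0x400200020009923682))) 
(.lf (nat_lit 61654526) (dlOf (nat_lit 1) (nat_lit 0x60009923681)))))) (.nd (nat_lit 27) 
(.nd (nat_lit 11) (.nd (nat_lit 29) 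
(.lf (nat_lit 1140900926) (dlOf (nat_lit 1) (nat_lit 0x60018002881))) 
(.lf (nat_lit 4898997310) (dlOf (nat_lit 1) (nat_lit 0x400400020008052882)))) (.nd (nat_lit 6) 
(.lf (nat_lit 3288386622) (dlOf (nat_lit 1) (nat_lit 0x8008000400200660008006083))) 
(.lf (nat_lit 3288386686) (dlOf (nat_lit 1) (nat_lit 0x120018006101))))) (.nd (nat_lit 9) 
(.nd (nat_lit 30) (.lf (nat_lit 4496344126) (dlOf (nat_lit 1) (nat_lit 0x20008052881))) 
(.lf (nat_lit 5570085950) (dlOf (nat_lit 1) (nat_lit 0x400400020008052882)))) 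
(.lf (nat_lit 4496344638) (dlOf (nat_lit 2) (nat_lit 0x401a0000d018053780)))))))) (.nd (nat_lit 29) 
(.nd (nat_lit 5) (.nd (nat_lit 26) (.nd (nat_lit 18) (.nd (nat_lit 7) (.nd (nat_lit 8) 
(.nd (nat_lit 20) (.lf (nat_lit 3494428702) (dlOf (nat_lit 2) (nat_lit 0x405c004d7818220880))) 
(.lf (nat_lit 3493380126) (dlOf (nat_lit 5) (nat_lit 0x580cc002c05e000702b80138100000c05e0034022000d00e80098058003da2000380cc001e0610017020000580880010040002e01d000f586000300e8007a8080008080003a404007800400040018120902)))) 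
(.nd (nat_lit 6) (.lf (nat_lit 6710938398) (dlOf (nat_lit 1) (nat_lit 0xe0018005c01))) 
(.lf (nat_lit 1343799646) (dlOf (nat_lit 1) (nat_lit 0x17a0018370901))))) (.nd (nat_lit 8) 
(.nd (nat_lit 21) 
(.lf (nat_lit 1346946206) (dlOf (nat_lit 2) (nat_lit 0x140e8000870200020009102b81))) 
(.lf (nat_lit 1344849054) (dlOf (nat_lit 3) (nat_lit 0x20160000a04e000502340008118003407c0004405000204e00021c080010008003000200020008982b83)))) 
(.lf (nat_lit 3489717662) (dlOf (nat_lit 2) (nat_lit 0x507c8000f204002c0020008000800ca82))))) 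
(.nd (nat_lit 6) (.nd (nat_lit 20) (.nd (nat_lit 7) 
(.lf (nat_lit 3494166558) (dlOf (nat_lit 1) (nat_lit 0x4002000200081c0902))) 
(.lf (nat_lit 3489975710) (dlOf (nat_lit 1) (nat_lit 0xa000401540008006d02)))) (.nd (nat_lit 19) 
(.lf (nat_lit 1343537182) (dlOf (nat_lit 2) (nat_lit 0x704700021c0802380080008002008e0008290503))) 
(.lf (nat_lit 1346158622) (dlOf (nat_lit 13) (nat_lit 0xe14300070668000d8100ad850c0274276008c139010c0668000bc20105850c0005c04006028600220cd0001682003c0a1800084080bd850c0003c0400342860001b020010143000a09d800403340002e0c05f0286018e13b010b0668000541801b850c033c27602480cd0000783003f09d802e83340001608000428600020cd00005028e60100))))) 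
(.nd (nat_lit 19) (.nd (nat_lit 22) 
(.lf (nat_lit 268746846) (dlOf (nat_lit 3) (nat_lit 0x1a016000d00a80068052003402800060138000542809780a804b8052027802800030138000482000c0008006400200040008120703))) 
(.lf (nat_lit 3494166622) (dlOf (nat_lit 1) (nat_lit 0x4002000200081c1282)))) 
(.lf (nat_lit 1346158686) (dlOf (nat_lit 5) (nat_lit 0x1214c0000581005e0a6002a835c000120804c01ae0000802015614c00ae06b8000001000880080004002000a0008e60883)))))) 
(.nd (nat_lit 11) (.nd (nat_lit 30) (.nd (nat_lit 6) (.nd (nat_lit 18) (.nd (nat_lit 19) 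
(.lf (nat_lit 470859806) (dlOf (nat_lit 2) (nat_lit 0x3305e8001480802100080054002004a00081c0583))) 
(.lf (nat_lit 474529822) (dlOf (nat_lit 2) (nat_lit 0x34c0960142046800081d407dc0e60003b08000200291a0101)))) 
(.lf (nat_lit 470073374) (dlOf (nat_lit 1) (nat_lit 0x1800400020008040482)))) 
(.lf (nat_lit 471908446) (dlOf (nat_lit 2) (nat_lit 0x588ec00392040028004001a00086b0482)))) 
(.nd (nat_lit 8) (.nd (nat_lit 19) 
(.lf (nat_lit 5704302622) (dlOf (nat_lit 1) (nat_lit 0x8008000400200020008050003))) 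
(.lf (nat_lit 3557343262) (dlOf (nat_lit 4) (nat_lit 0xf4070000410200360380001f81006b01c0000d40803a00080038002005000081c0583)))) 
(.lf (nat_lit 1543553310) (dlOf (nat_lit 1) (nat_lit 0x200280b0481))))) (.nd (nat_lit 7) 
(.nd (nat_lit 6) (.lf (nat_lit 3557084958) (dlOf (nat_lit 1) (nat_lit 0x100018127481))) 
(.nd (nat_lit 8) (.lf (nat_lit 3556821598) (dlOf (nat_lit 1) (nat_lit 0x20028085381))) 
(.lf (nat_lit 5704304990) (dlOf (nat_lit 1) (nat_lit 0x400400020008054e82))))) (.nd (nat_lit 6) 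
(.lf (nat_lit 5704305310) (dlOf (nat_lit 1) (nat_lit 0x400400020008055582))) (.nd (nat_lit 10) 
(.lf (nat_lit 5704305118) (dlOf (nat_lit 1) (nat_lit 0x400400020018054e82))) 
(.lf (nat_lit 1409338846) (dlOf (nat_lit 1) (nat_lit 0x2e0028006e01)))))))) (.nd (nat_lit 7) 
(.nd (nat_lit 19) (.nd (nat_lit 6) (.nd (nat_lit 18) (.nd (nat_lit 8) 
(.lf (nat_lit 268486206) (dlOf (nat_lit 2) (nat_lit 0x80140000c018053780))) 
(.lf (nat_lit 1346421054) (dlOf (nat_lit 1) (nat_lit 0x60008f60b81)))) (.nd (nat_lit 21) 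
(.lf (nat_lit 2483339326) (dlOf (nat_lit 2) (nat_lit 0xb00a00022e040008004002200180c1402))) 
(.lf (nat_lit 3492069438) (dlOf (nat_lit 1) (nat_lit 0x4c004000e00180a0c82))))) (.nd (nat_lit 8) 
(.nd (nat_lit 20) 
(.lf (nat_lit 3623929982) (dlOf (nat_lit 2) (nat_lit 0x490188000a8080108008009000200ae0008004783))) 
(.lf (nat_lit 3492857982) (dlOf (nat_lit 2) (nat_lit 0x12803a0002a02001200180f4781)))) 
(.nd (nat_lit 9) 
(.lf (nat_lit 268486014) (dlOf (nat_lit 3) (nat_lit 0x240140000201000500a0000080800400080014002000e0008053583))) 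
(.lf (nat_lit 1476448126) (dlOf (nat_lit 1) (nat_lit 0x20018007781)))))) (.nd (nat_lit 20) 
(.nd (nat_lit 10) (.nd (nat_lit 26) 
(.lf (nat_lit 3494428734) (dlOf (nat_lit 2) (nat_lit 0x6034000181080014046003001e0004c048220b80))) 
(.lf (nat_lit 474529854) (dlOf (nat_lit 3) (nat_lit 0x4504b001e8210015c0e8009c0730011e04000804b0008c4080118008000c002002400091a0603)))) 
(.lf (nat_lit 1344848958) (dlOf (nat_lit 3) (nat_lit 0x305800034138000c08d0033e8300040b00003827000cf8080088004008a0018982882)))) 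
(.nd (nat_lit 6) (.nd (nat_lit 18) 
(.lf (nat_lit 3493380158) (dlOf (nat_lit 1) (nat_lit 0x98004005e0008120d82))) 
(.lf (nat_lit 1346158654) (dlOf (nat_lit 2) (nat_lit 0x94853405ac1b200ee0d800123838e60600)))) 
(.lf (nat_lit 471646334) (dlOf (nat_lit 1) (nat_lit 0x30008000c002002a0008370483)))))) 
(.nd (nat_lit 8) (.nd (nat_lit 10) (.nd (nat_lit 9) (.nd (nat_lit 11) 
(.lf (nat_lit 4563714238) (dlOf (nat_lit 2) (nat_lit 0xe301a807180c0010805601ce02900eb012807100840390036018e01900e000b0073804c039402001c600d00e30038000c86801680080330002041400080c1a83))) 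
(.lf (nat_lit 469813438) (dlOf (nat_lit 1) (nat_lit 0x20028004901)))) 
(.lf (nat_lit 5704305342) (dlOf (nat_lit 1) (nat_lit 0x400400020008055782)))) (.nd (nat_lit 6) 
(.nd (nat_lit 9) 
(.lf (nat_lit 473744574) (dlOf (nat_lit 2) (nat_lit 0x190af80098234000260800a0004002e0008fa2c82))) 
(.lf (nat_lit 1476449982) (dlOf (nat_lit 1) (nat_lit 0x3000800100020004000800a003)))) 
(.lf (nat_lit 5772723454) (dlOf (nat_lit 1) (nat_lit 0x400400020008092f02))))) (.nd (nat_lit 9) 
(.nd (nat_lit 10) 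
(.lf (nat_lit 1346423230) (dlOf (nat_lit 2) (nat_lit 0x403e40194604000400400020008f64e82))) 
(.nd (nat_lit 11) (.lf (nat_lit 3557086654) (dlOf (nat_lit 1) (nat_lit 0x20028129a01))) 
(.lf (nat_lit 3489713598) (dlOf (nat_lit 1) (nat_lit 0x840028006d01))))) (.nd (nat_lit 11) 
(.lf (nat_lit 469816254) (dlOf (nat_lit 1) (nat_lit 0x40028009201))) 
(.lf (nat_lit 5704305598) (dlOf (nat_lit 1) (nat_lit 0x8008000400200020008055d03)))))))) 
(.nd (nat_lit 27) (.nd (nat_lit 31) (.nd (nat_lit 11) (.nd (nat_lit 18) (.nd (nat_lit 5) 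
(.nd (nat_lit 30) 
(.lf (nat_lit 5100322846) (dlOf (nat_lit 1) (nat_lit 0x8008000400200020008050003))) 
(.lf (nat_lit 6174064670) (dlOf (nat_lit 1) (nat_lit 0x400400020008050002)))) 
(.lf (nat_lit 5100323902) (dlOf (nat_lit 1) (nat_lit 0x400400020008052882)))) (.nd (nat_lit 5) 
(.nd (nat_lit 30) 
(.lf (nat_lit 805617694) (dlOf (nat_lit 3) (nat_lit 0x1c0a80010011001700500007c1800380280003c040100004001e0008140b82))) 
(.lf (nat_lit 1879359518) (dlOf (nat_lit 1) (nat_lit 0x400080f0601)))) 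
(.lf (nat_lit 6241435838) (dlOf (nat_lit 1) (nat_lit 0x100080008002000400080f1a83))))) 
(.nd (nat_lit 5) (.nd (nat_lit 6) (.nd (nat_lit 8) 
(.lf (nat_lit 6174067358) (dlOf (nat_lit 1) (nat_lit 0x400400020008055582))) 
(.lf (nat_lit 6174067614) (dlOf (nat_lit 1) (nat_lit 0x360018055c81)))) 
(.lf (nat_lit 6174067038) (dlOf (nat_lit 1) (nat_lit 0x400400020008054e82)))) (.nd (nat_lit 6) 
(.lf (nat_lit 6174067518) (dlOf (nat_lit 1) (nat_lit 0x400018055c01))) 
(.lf (nat_lit 6174067710) (dlOf (nat_lit 1) (nat_lit 0x400200060008055f02)))))) (.nd (nat_lit 6) 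
(.nd (nat_lit 8) (.nd (nat_lit 5) 
(.lf (nat_lit 4094741534) (dlOf (nat_lit 1) (nat_lit 0x40008056001))) (.nd (nat_lit 7) 
(.lf (nat_lit 4026843198) (dlOf (nat_lit 9) (nat_lit 0x14a02e0000f010466017002a80a00003808108c05a0001a02062602e03a901680618098000160c0f1405c076c02d002d013000028181e200b4003c04c0000904059a02e0000381035d017000000080aa800813d8002001200080a0c83))) 
(.lf (nat_lit 4095262910) (dlOf (nat_lit 1) (nat_lit 0x20028081a81))))) (.nd (nat_lit 9) 
(.nd (nat_lit 10) 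
(.lf (nat_lit 4026583326) (dlOf (nat_lit 2) (nat_lit 0x1806a000560200060008004b81))) 
(.lf (nat_lit 3019949342) (dlOf (nat_lit 1) (nat_lit 0x4a0018083101)))) 
(.lf (nat_lit 4094741278) (dlOf (nat_lit 1) (nat_lit 0x800200020008055c02))))) (.nd (nat_lit 7) 
(.nd (nat_lit 8) (.lf (nat_lit 4093690974) (dlOf (nat_lit 1) (nat_lit 0x8004000c0018002902))) 
(.lf (nat_lit 4093691230) (dlOf (nat_lit 1) (nat_lit 0x2a8008006000200040008003403)))) 
(.nd (nat_lit 8) 
(.lf (nat_lit 4026583262) (dlOf (nat_lit 6) (nat_lit 0x3806a000380200020350000c81000101a8000440800100180001804002c06a0000002000a0028004a81))) 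
(.nd (nat_lit 21) 
(.lf (nat_lit 4026581982) (dlOf (nat_lit 1) (nat_lit 0x1000800a4002005e0008002883))) 
(.lf (nat_lit 4095787998) (dlOf (nat_lit 1) (nat_lit 0x2000180e2881)))))))) (.nd (nat_lit 26) 
(.nd (nat_lit 7) (.nd (nat_lit 5) (.nd (nat_lit 6) (.nd (nat_lit 30) 
(.lf (nat_lit 5234540574) (dlOf (nat_lit 1) (nat_lit 0x400400020008050002))) 
(.lf (nat_lit 6308282398) (dlOf (nat_lit 1) (nat_lit 0x8008000400200020008050003)))) 
(.lf (nat_lit 5234542942) (dlOf (nat_lit 1) (nat_lit 0x20008001000200040008054e83)))) 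
(.nd (nat_lit 8) (.nd (nat_lit 9) 
(.lf (nat_lit 6308283454) (dlOf (nat_lit 1) (nat_lit 0x20008052881))) 
(.lf (nat_lit 6308283966) (dlOf (nat_lit 2) (nat_lit 0x10002c0002c0200240028053781)))) 
(.lf (nat_lit 3087319358) (dlOf (nat_lit 2) (nat_lit 0x60150001c818188500))))) (.nd (nat_lit 6) 
(.nd (nat_lit 5) (.nd (nat_lit 8) 
(.lf (nat_lit 5234543262) (dlOf (nat_lit 1) (nat_lit 0x400400020008055582))) 
(.lf (nat_lit 5234543518) (dlOf (nat_lit 1) (nat_lit 0xc00400080018055c82)))) 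
(.lf (nat_lit 5234543294) (dlOf (nat_lit 1) (nat_lit 0x400400020008055782)))) (.nd (nat_lit 10) 
(.lf (nat_lit 5234543070) (dlOf (nat_lit 1) (nat_lit 0x800400020008054e82))) 
(.lf (nat_lit 6308283870) (dlOf (nat_lit 2) (nat_lit 0x80600013804001800200040008053602)))))) 
(.nd (nat_lit 6) (.nd (nat_lit 30) (.nd (nat_lit 7) 
(.lf (nat_lit 1006944286) (dlOf (nat_lit 1) (nat_lit 0x400080f0601))) 
(.lf (nat_lit 1009041566) (dlOf (nat_lit 1) (nat_lit 0x1000200060009012b82)))) (.nd (nat_lit 5) 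
(.nd (nat_lit 8) (.lf (nat_lit 2080686110) (dlOf (nat_lit 2) (nat_lit 0x30025000230180b0180))) 
(.lf (nat_lit 6375392542) (dlOf (nat_lit 1) (nat_lit 0x20028003101)))) 
(.lf (nat_lit 2080686142) (dlOf (nat_lit 10) (nat_lit 0x270140002c80800f80a0000f80401a8052002202800400060001d41803900a40120018000740400ce0290023014001e8030000e60c00640520003002007e0290000f8100260140000740800e00a4000360402c8004001200080b0482))))) 
(.nd (nat_lit 8) (.nd (nat_lit 5) (.nd (nat_lit 7) 
(.lf (nat_lit 6376180318) (dlOf (nat_lit 1) (nat_lit 0x100028095381))) 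
(.lf (nat_lit 6375392478) (dlOf (nat_lit 1) (nat_lit 0x400400020008002e02)))) 
(.lf (nat_lit 6375392510) (dlOf (nat_lit 1) (nat_lit 0x20028002f01)))) (.nd (nat_lit 9) 
(.nd (nat_lit 18) (.lf (nat_lit 3154690398) (dlOf (nat_lit 2) (nat_lit 0x14402c00000018310900))) 
(.lf (nat_lit 4228694366) (dlOf (nat_lit 2) (nat_lit 0x40000000602001c00181a0681)))) 
(.lf (nat_lit 4227914590) (dlOf (nat_lit 1) (nat_lit 0x2001800bc81)))))))))) (.nd (nat_lit 18) 
(.nd (nat_lit 30) (.nd (nat_lit 5) (.nd (nat_lit 19) (.nd (nat_lit 6) (.nd (nat_lit 7) 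
(.nd (nat_lit 8) (.nd (nat_lit 20) (.nd (nat_lit 21) 
(.lf (nat_lit 63029278) (dlOf (nat_lit 1) (nat_lit 0x4002000200099c0102))) 
(.lf (nat_lit 52543518) (dlOf (nat_lit 1) (nat_lit 0x28008000400200080009550103)))) 
(.lf (nat_lit 1163294) (dlOf (nat_lit 1) (nat_lit 0x10008000400200040008080483)))) 
(.nd (nat_lit 10) (.lf (nat_lit 536987934) (dlOf (nat_lit 1) (nat_lit 0x400200020008004b82))) 
(.lf (nat_lit 805424414) (dlOf (nat_lit 1) (nat_lit 0x400400020018116782))))) (.nd (nat_lit 9) 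
(.nd (nat_lit 22) 
(.lf (nat_lit 4496409758) (dlOf (nat_lit 1) (nat_lit 0x80080004002000e0008052b83))) 
(.lf (nat_lit 474072222) (dlOf (nat_lit 4) (nat_lit 0x50b30002c4080008598001120400342ce002216600020a2000083140010188001c016000d00a80021c3800100080004002000c0009082b83)))) 
(.lf (nat_lit 58837662) (dlOf (nat_lit 1) (nat_lit 0x7a00197e5581))))) (.nd (nat_lit 7) 
(.nd (nat_lit 8) (.nd (nat_lit 9) 
(.lf (nat_lit 5301715038) (dlOf (nat_lit 4) (nat_lit 0x901f800c80f800640740030037000b0000000d02800480fc005007c003203a001701b800900000003e1400140000001d0200020018040701))) 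
(.lf (nat_lit 4831955550) (dlOf (nat_lit 1) (nat_lit 0x40028055381)))) 
(.lf (nat_lit 6509676894) (dlOf (nat_lit 1) (nat_lit 0x400400020008144e82)))) (.nd (nat_lit 8) 
(.nd (nat_lit 9) (.lf (nat_lit 5100389598) (dlOf (nat_lit 1) (nat_lit 0x40028052e01))) 
(.lf (nat_lit 2754727646) (dlOf (nat_lit 1) (nat_lit 0xa00280f7381)))) (.nd (nat_lit 11) 
(.lf (nat_lit 4697735646) (dlOf (nat_lit 3) (nat_lit 0x80bc0003a04001c05e0001a02002c0008091281))) 
(.lf (nat_lit 6509677022) (dlOf (nat_lit 1) (nat_lit 0x240018144e81))))))) (.nd (nat_lit 21) 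
(.nd (nat_lit 20) (.nd (nat_lit 23) (.nd (nat_lit 26) 
(.lf (nat_lit 805945374) (dlOf (nat_lit 6) (nat_lit 0x1a40000004a02005202d0001b0100120168000500801200b40002604002c05a0001202000a00181f0b01))) 
(.lf (nat_lit 4362715166) (dlOf (nat_lit 1) (nat_lit 0x1400180e0b01)))) 
(.lf (nat_lit 42582046) (dlOf (nat_lit 2) (nat_lit 0x68af600000019260100)))) (.nd (nat_lit 6) 
(.lf (nat_lit 1008321694) (dlOf (nat_lit 1) (nat_lit 0x6c00400120008b52b82))) 
(.lf (nat_lit 56215902) (dlOf (nat_lit 1) (nat_lit 0x400400020009734e82))))) (.nd (nat_lit 6) 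
(.nd (nat_lit 8) (.nd (nat_lit 20) 
(.lf (nat_lit 2736158) (dlOf (nat_lit 8) (nat_lit 0x2954c0004a020038a47000230100025530000f408009aa980007604004554c0003a020022aa60001c81002f5238000d80800680080068002001600081a0b03))) 
(.nd (nat_lit 23) 
(.lf (nat_lit 2755248158) (dlOf (nat_lit 5) (nat_lit 0x3c056001e02a000601200058080001c03e000c019000200c0000383800280ac0001804000c04800060200000502000a015800580a80004048000c020000300c800000280038008001c002002c0008140b83))) 
(.lf (nat_lit 45727774) (dlOf (nat_lit 1) (nat_lit 0x1800400020009360102))))) 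
(.lf (nat_lit 7980318) (dlOf (nat_lit 1) (nat_lit 0x20028513101)))) 
(.lf (nat_lit 20564574) (dlOf (nat_lit 1) (nat_lit 0x400089d5381)))))) (.nd (nat_lit 10) 
(.nd (nat_lit 28) (.nd (nat_lit 22) (.nd (nat_lit 11) (.nd (nat_lit 20) 
(.lf (nat_lit 2348924990) (dlOf (nat_lit 2) (nat_lit 0x3300a80134050000000400040008030d81))) 
(.lf (nat_lit 17940542) (dlOf (nat_lit 1) (nat_lit 0xe0018900d01)))) 
(.lf (nat_lit 201447486) (dlOf (nat_lit 1) (nat_lit 0x3a002800a681)))) (.nd (nat_lit 8) 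
(.lf (nat_lit 12697662) (dlOf (nat_lit 2) (nat_lit 0x58000000058186d0c80))) 
(.lf (nat_lit 29999422) (dlOf (nat_lit 1) (nat_lit 0x1000400080018e30702))))) (.nd (nat_lit 8) 
(.nd (nat_lit 6) 
(.lf (nat_lit 2483142718) (dlOf (nat_lit 2) (nat_lit 0x3300a80134050000000400040008030d81))) 
(.lf (nat_lit 5234608766) (dlOf (nat_lit 1) (nat_lit 0x20028055481)))) (.nd (nat_lit 11) 
(.lf (nat_lit 2617365374) (dlOf (nat_lit 1) (nat_lit 0xbe00280a9001))) (.nd (nat_lit 12) 
(.lf (nat_lit 4563520382) (dlOf (nat_lit 1) (nat_lit 0x40028095c01))) 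
(.lf (nat_lit 805428094) (dlOf (nat_lit 1) (nat_lit 0x2000811bc81))))))) (.nd (nat_lit 7) 
(.nd (nat_lit 26) (.nd (nat_lit 6) (.nd (nat_lit 8) 
(.lf (nat_lit 36815934) (dlOf (nat_lit 1) (nat_lit 0x400200020009072882))) 
(.lf (nat_lit 7984446) (dlOf (nat_lit 1) (nat_lit 0x8008001400200020008519903)))) (.nd (nat_lit 9) 
(.lf (nat_lit 6576786558) (dlOf (nat_lit 1) (nat_lit 0x20028146101))) 
(.lf (nat_lit 8504958) (dlOf (nat_lit 1) (nat_lit 0x20028513981))))) (.nd (nat_lit 8) 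
(.nd (nat_lit 27) (.lf (nat_lit 2751579198) (dlOf (nat_lit 1) (nat_lit 0x5c00400060008002882))) 
(.lf (nat_lit 201442366) (dlOf (nat_lit 1) (nat_lit 0x140018002881)))) 
(.lf (nat_lit 6509677886) (dlOf (nat_lit 1) (nat_lit 0x21c0028146901))))) (.nd (nat_lit 6) 
(.nd (nat_lit 8) (.nd (nat_lit 9) 
(.lf (nat_lit 6576786622) (dlOf (nat_lit 1) (nat_lit 0x40018146301))) 
(.lf (nat_lit 6509678270) (dlOf (nat_lit 1) (nat_lit 0x8008000400200020008147283)))) 
(.lf (nat_lit 20567486) (dlOf (nat_lit 1) (nat_lit 0x2000189d9a01)))) (.nd (nat_lit 9) 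
(.lf (nat_lit 7980286) (dlOf (nat_lit 1) (nat_lit 0x40028512f01))) (.nd (nat_lit 31) 
(.lf (nat_lit 939640574) (dlOf (nat_lit 1) (nat_lit 0x40028143b81))) 
(.lf (nat_lit 3087124222) (dlOf (nat_lit 1) (nat_lit 0x8008000400200020008143b83))))))))) 
(.nd (nat_lit 5) (.nd (nat_lit 28) (.nd (nat_lit 8) (.nd (nat_lit 6) (.nd (nat_lit 10) 
(.nd (nat_lit 7) 
(.lf (nat_lit 1678360606) (dlOf (nat_lit 6) (nat_lit 0x1a40000004a02005202d0001b0100120168000500801200b40002604002c05a0001202000a00181f0b01))) 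
(.lf (nat_lit 1610727582) (dlOf (nat_lit 1) (nat_lit 0x80028090501)))) (.nd (nat_lit 27) 
(.lf (nat_lit 3825323166) (dlOf (nat_lit 1) (nat_lit 0x8008000400200020008146283))) 
(.lf (nat_lit 1812057246) (dlOf (nat_lit 1) (nat_lit 0x8004000a0008146282))))) (.nd (nat_lit 7) 
(.nd (nat_lit 10) 
(.lf (nat_lit 5435932766) (dlOf (nat_lit 4) (nat_lit 0x901f800c80f800640740030035000b0000000d02800480fc005007c003203a001701a800900000003e1400140000001d0200020018040701))) 
(.lf (nat_lit 1611252830) (dlOf (nat_lit 2) (nat_lit 0x4815c001c604000400400060018122902)))) 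
(.lf (nat_lit 3959539934) (dlOf (nat_lit 1) (nat_lit 0x20028114a81))))) (.nd (nat_lit 9) 
(.nd (nat_lit 7) 
(.lf (nat_lit 3221347678) (dlOf (nat_lit 1) (nat_lit 0x6000800d00020030000811c903))) 
(.nd (nat_lit 11) 
(.lf (nat_lit 1610727902) (dlOf (nat_lit 6) (nat_lit 0x10154002806c00026040004055000401b800400d8000480c00080aa000c0300001102000402a800280dc0003e08000c0a6001a04c000a01a80078084001403a000000a00200028091281))) 
(.lf (nat_lit 3959544286) (dlOf (nat_lit 1) (nat_lit 0x800800400020002000811b283))))) 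
(.nd (nat_lit 10) 
(.lf (nat_lit 1677837278) (dlOf (nat_lit 1) (nat_lit 0x2b000801bc002009a0008112883))) 
(.nd (nat_lit 26) (.lf (nat_lit 5905696734) (dlOf (nat_lit 1) (nat_lit 0x14004000c0008144582))) 
(.lf (nat_lit 1677838302) (dlOf (nat_lit 1) (nat_lit 0x20028114581))))))) (.nd (nat_lit 6) 
(.nd (nat_lit 19) (.nd (nat_lit 8) (.nd (nat_lit 26) 
(.lf (nat_lit 5771477022) (dlOf (nat_lit 1) (nat_lit 0x400400020008000002))) 
(.lf (nat_lit 6375456798) (dlOf (nat_lit 1) (nat_lit 0x400400020008000002)))) 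
(.lf (nat_lit 2080490782) (dlOf (nat_lit 1) (nat_lit 0x960018093101)))) (.nd (nat_lit 20) 
(.nd (nat_lit 21) (.lf (nat_lit 4228497438) (dlOf (nat_lit 1) (nat_lit 0x1400180e0b01))) 
(.lf (nat_lit 1881784350) (dlOf (nat_lit 1) (nat_lit 0x4000200060009020102)))) 
(.lf (nat_lit 3493445662) (dlOf (nat_lit 5) (nat_lit 0x3c056001e02a000601200058080001c03e000c019000200c0000383800280ac0001804000c04800060200000502000a015800580a80004048000c020000300c800000280038008001c002002c0008140b83))))) 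
(.nd (nat_lit 8) (.nd (nat_lit 7) (.nd (nat_lit 9) 
(.lf (nat_lit 1344913502) (dlOf (nat_lit 1) (nat_lit 0x4400200020008991982))) 
(.lf (nat_lit 1346488926) (dlOf (nat_lit 1) (nat_lit 0x5c00200480008f65382)))) 
(.lf (nat_lit 1343865054) (dlOf (nat_lit 1) (nat_lit 0x100018370581)))) (.nd (nat_lit 7) 
(.nd (nat_lit 11) (.lf (nat_lit 4026646878) (dlOf (nat_lit 1) (nat_lit 0x60028014e81))) 
(.lf (nat_lit 3489778014) (dlOf (nat_lit 1) (nat_lit 0x40018004e81)))) 
(.lf (nat_lit 4026647006) (dlOf (nat_lit 1) (nat_lit 0x20008001800200080008017d03))))))) 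
(.nd (nat_lit 28) (.nd (nat_lit 11) (.nd (nat_lit 7) (.nd (nat_lit 8) (.nd (nat_lit 9) 
(.lf (nat_lit 3221864510) (dlOf (nat_lit 4) (nat_lit 0x200024000aa0401c808a0154042007201f803300cc010404a000540a0028046000b0200001441000580080094002009600081a1403))) 
(.lf (nat_lit 3355558462) (dlOf (nat_lit 2) (nat_lit 0x601700011c0800080080008002000200080a1583)))) 
(.lf (nat_lit 5972805438) (dlOf (nat_lit 1) (nat_lit 0xa0018143e01)))) (.nd (nat_lit 6) 
(.nd (nat_lit 10) (.lf (nat_lit 5368823998) (dlOf (nat_lit 1) (nat_lit 0x20018031a81))) 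
(.lf (nat_lit 3355563198) (dlOf (nat_lit 2) (nat_lit 0x80c800038040004004000200180a9502)))) 
(.lf (nat_lit 1073857022) (dlOf (nat_lit 6) (nat_lit 0x1680a40005c0400a80520002d02002e0290001181002b0148000780806c80a40000004004800400120018017e02))))) 
(.nd (nat_lit 6) (.nd (nat_lit 27) (.nd (nat_lit 7) 
(.lf (nat_lit 1677842494) (dlOf (nat_lit 1) (nat_lit 0x40040002000811a682))) 
(.lf (nat_lit 3825323198) (dlOf (nat_lit 1) (nat_lit 0x10008000800200020008146303)))) 
(.nd (nat_lit 9) (.lf (nat_lit 3959543870) (dlOf (nat_lit 1) (nat_lit 0x40040002000811a682))) 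
(.lf (nat_lit 3959544382) (dlOf (nat_lit 1) (nat_lit 0x800800080020002000811b483))))) 
(.nd (nat_lit 7) 
(.lf (nat_lit 3221347198) (dlOf (nat_lit 1) (nat_lit 0x10008009c0020026000811bc83))) 
(.lf (nat_lit 3221343742) (dlOf (nat_lit 1) (nat_lit 0x400400020008116f82)))))) (.nd (nat_lit 6) 
(.nd (nat_lit 7) (.nd (nat_lit 8) (.nd (nat_lit 9) 
(.lf (nat_lit 3492397118) (dlOf (nat_lit 6) (nat_lit 0x1510580298814000b008002c416008c2050002b8200020fa001b8704000aa08011c41e00221f400160e0800886c80044354002610f0002a06000d1078001440800c00080094002004a00080c1403))) 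
(.lf (nat_lit 1345964606) (dlOf (nat_lit 2) (nat_lit 0x806c800000080010008000800200060008e25203)))) 
(.lf (nat_lit 1342297918) (dlOf (nat_lit 1) (nat_lit 0x2001800a101)))) (.nd (nat_lit 8) 
(.nd (nat_lit 19) 
(.lf (nat_lit 2013380798) (dlOf (nat_lit 2) (nat_lit 0x106003008380000006408001000400180008031a82))) 
(.lf (nat_lit 5772001470) (dlOf (nat_lit 2) (nat_lit 0x1da0140000c80803b800802e800200100008031a83)))) 
(.lf (nat_lit 5771479998) (dlOf (nat_lit 1) (nat_lit 0x400400020008005d02))))) (.nd (nat_lit 21) 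
(.nd (nat_lit 7) (.nd (nat_lit 26) 
(.lf (nat_lit 5772001406) (dlOf (nat_lit 1) (nat_lit 0x220018030d01))) 
(.lf (nat_lit 6375981182) (dlOf (nat_lit 1) (nat_lit 0x8008000400200020008030d03)))) 
(.lf (nat_lit 6174133246) (dlOf (nat_lit 1) (nat_lit 0xc00200060008055f02)))) (.nd (nat_lit 10) 
(.nd (nat_lit 11) (.lf (nat_lit 3491872894) (dlOf (nat_lit 1) (nat_lit 0x20018090081))) 
(.lf (nat_lit 3492923518) (dlOf (nat_lit 2) (nat_lit 0x380a000054040004004000800180f4782)))) 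
(.lf (nat_lit 6377555070) (dlOf (nat_lit 1) (nat_lit 0x8004000200080e2a82))))))))) (.nd (nat_lit 5) 
(.nd (nat_lit 6) (.nd (nat_lit 22) (.nd (nat_lit 26) (.nd (nat_lit 30) (.nd (nat_lit 20) 
(.nd (nat_lit 7) (.nd (nat_lit 8) 
(.lf (nat_lit 134594590) (dlOf (nat_lit 1) (nat_lit 0x800200080008080582))) 
(.lf (nat_lit 19775774) (dlOf (nat_lit 1) (nat_lit 0x8004003000089d0a82)))) 
(.lf (nat_lit 8766878) (dlOf (nat_lit 2) (nat_lit 0xc6030002f4080020008003c00200020008513603)))) 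
(.nd (nat_lit 19) (.nd (nat_lit 21) 
(.lf (nat_lit 1425438) (dlOf (nat_lit 3) (nat_lit 0xe0d9000ff81000706c8007f40800200080004002000200080c0903))) 
(.lf (nat_lit 3522590) (dlOf (nat_lit 1) (nat_lit 0x20028200001)))) 
(.lf (nat_lit 27115550) (dlOf (nat_lit 1) (nat_lit 0x40028ca0581))))) (.nd (nat_lit 27) 
(.nd (nat_lit 7) (.nd (nat_lit 28) 
(.lf (nat_lit 1610989598) (dlOf (nat_lit 4) (nat_lit 0xe050002d01900018080004c0380000e0800040500013019000f808000700380000a080068050003a0100000001000a8008001c002003e00080b0183))) 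
(.lf (nat_lit 5637521438) (dlOf (nat_lit 1) (nat_lit 0x234002004a0008100102)))) 
(.lf (nat_lit 1879949470) (dlOf (nat_lit 1) (nat_lit 0xc0018490201)))) (.nd (nat_lit 8) 
(.lf (nat_lit 3355820062) (dlOf (nat_lit 3) (nat_lit 0xe02b0003d010013015800e00a8000e608000400400200008120482))) 
(.lf (nat_lit 5772789022) (dlOf (nat_lit 1) (nat_lit 0x20028093101)))))) (.nd (nat_lit 27) 
(.nd (nat_lit 7) (.nd (nat_lit 21) 
(.lf (nat_lit 6241501214) (dlOf (nat_lit 1) (nat_lit 0x234002004a0008100102))) 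
(.lf (nat_lit 2753937438) (dlOf (nat_lit 1) (nat_lit 0x20004001000080a0902)))) (.nd (nat_lit 8) 
(.lf (nat_lit 2754989214) (dlOf (nat_lit 1) (nat_lit 0x8000080f6281))) 
(.lf (nat_lit 2754464158) (dlOf (nat_lit 1) (nat_lit 0x200180f4e81))))) (.nd (nat_lit 28) 
(.nd (nat_lit 8) (.nd (nat_lit 29) 
(.lf (nat_lit 201703454) (dlOf (nat_lit 1) (nat_lit 0x800200080008080582))) 
(.lf (nat_lit 738574366) (dlOf (nat_lit 4) (nat_lit 0xe050002d01900018080004c0380000e0800040500013019000f808000700380000a080068050003a0100000001000a8008001c002003e00080b0183)))) 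
(.lf (nat_lit 2886060318) (dlOf (nat_lit 1) (nat_lit 0x40028144b81)))) (.nd (nat_lit 7) 
(.lf (nat_lit 2617622558) (dlOf (nat_lit 1) (nat_lit 0x100008003000200680008100483))) 
(.lf (nat_lit 1007534238) (dlOf (nat_lit 1) (nat_lit 0xc0018490201))))))) (.nd (nat_lit 20) 
(.nd (nat_lit 7) (.nd (nat_lit 28) (.nd (nat_lit 21) 
(.lf (nat_lit 2756034590) (dlOf (nat_lit 1) (nat_lit 0x4004000200181d0a02))) 
(.lf (nat_lit 48611358) (dlOf (nat_lit 2) (nat_lit 0x232e5e016cc1200c06088006aca400076100054004000e0009420102)))) 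
(.nd (nat_lit 31) 
(.lf (nat_lit 1346748446) (dlOf (nat_lit 2) (nat_lit 0x34c0960142046800081d407dc0e60003b0800020029000101))) 
(.lf (nat_lit 3494232094) (dlOf (nat_lit 1) (nat_lit 0x4004000200181d0a02))))) (.nd (nat_lit 8) 
(.lf (nat_lit 47038622) (dlOf (nat_lit 1) (nat_lit 0x20019392b81))) 
(.lf (nat_lit 21348766) (dlOf (nat_lit 1) (nat_lit 0x400200020008a36b82))))) (.nd (nat_lit 12) 
(.nd (nat_lit 19) (.nd (nat_lit 23) 
(.lf (nat_lit 22396958) (dlOf (nat_lit 1) (nat_lit 0x400200020008ad0682))) 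
(.lf (nat_lit 47562782) (dlOf (nat_lit 1) (nat_lit 0x800400020009400002)))) 
(.lf (nat_lit 25018398) (dlOf (nat_lit 1) (nat_lit 0x70008000400200020008bd0b03)))) 
(.nd (nat_lit 7) (.lf (nat_lit 8248606) (dlOf (nat_lit 1) (nat_lit 0x800800040020002000851c603))) 
(.lf (nat_lit 8245918) (dlOf (nat_lit 1) (nat_lit 0x400400020008518c82))))))) (.nd (nat_lit 20) 
(.nd (nat_lit 26) (.nd (nat_lit 8) (.nd (nat_lit 28) (.nd (nat_lit 7) 
(.lf (nat_lit 383070) (dlOf (nat_lit 3) (nat_lit 0x36770004f808002b3b80026804001c004002a001800a802))) 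
(.lf (nat_lit 17154270) (dlOf (nat_lit 1) (nat_lit 0x200188e0581)))) (.nd (nat_lit 21) 
(.lf (nat_lit 1476771934) (dlOf (nat_lit 3) (nat_lit 0x20060000c02e0014016000700880038040002001c000e0040007001000280000039224002c02e0017702000600181a0481))) 
(.lf (nat_lit 1881522270) (dlOf (nat_lit 5) (nat_lit 0x13038c0003a0402881c60001c0201900e30000d0100b4071800000080338008001400200880008f40883))))) 
(.nd (nat_lit 27) (.lf (nat_lit 4295344478) (dlOf (nat_lit 1) (nat_lit 0x78004002800081a0682))) 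
(.lf (nat_lit 4429562206) (dlOf (nat_lit 1) (nat_lit 0x78004002800081a0682))))) (.nd (nat_lit 7) 
(.nd (nat_lit 8) 
(.lf (nat_lit 604356702) (dlOf (nat_lit 3) (nat_lit 0x20060000c02c0014015000700880038040002001c000e0030007001000280000027024002c02c000e802000600181a0481))) 
(.lf (nat_lit 2886059870) (dlOf (nat_lit 1) (nat_lit 0x18008002c00200080008143f83)))) 
(.nd (nat_lit 8) (.nd (nat_lit 11) 
(.lf (nat_lit 4496670942) (dlOf (nat_lit 1) (nat_lit 0x8008000400200020008111d03))) 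
(.lf (nat_lit 2886060254) (dlOf (nat_lit 2) (nat_lit 0x1400000000d0202420018144a81)))) 
(.lf (nat_lit 2751841246) (dlOf (nat_lit 1) (nat_lit 0x400200020008002882)))))) (.nd (nat_lit 28) 
(.nd (nat_lit 21) (.nd (nat_lit 22) 
(.lf (nat_lit 9814110) (dlOf (nat_lit 2) (nat_lit 0x5085f0000a818580700))) 
(.lf (nat_lit 55951454) (dlOf (nat_lit 1) (nat_lit 0x200196f0881)))) (.nd (nat_lit 8) 
(.lf (nat_lit 20305502) (dlOf (nat_lit 1) (nat_lit 0x200089d9c01))) 
(.lf (nat_lit 3522910) (dlOf (nat_lit 2) (nat_lit 0x13430000380800500080030002000a0008200683))))) 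
(.nd (nat_lit 7) (.nd (nat_lit 9) 
(.lf (nat_lit 3493189726) (dlOf (nat_lit 1) (nat_lit 0x200280fa801))) 
(.lf (nat_lit 6376770142) (dlOf (nat_lit 1) (nat_lit 0x20028095381)))) (.nd (nat_lit 8) 
(.lf (nat_lit 5772788958) (dlOf (nat_lit 1) (nat_lit 0x20028092e01))) 
(.lf (nat_lit 471717342) (dlOf (nat_lit 1) (nat_lit 0x80080028002000400083d9b03)))))))) 
(.nd (nat_lit 28) (.nd (nat_lit 20) (.nd (nat_lit 7) (.nd (nat_lit 31) (.nd (nat_lit 6) 
(.nd (nat_lit 9) (.lf (nat_lit 901182) (dlOf (nat_lit 1) (nat_lit 0x240028030d81))) 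
(.lf (nat_lit 51235390) (dlOf (nat_lit 1) (nat_lit 0x100029515201)))) 
(.lf (nat_lit 54902910) (dlOf (nat_lit 1) (nat_lit 0x1600080004002000c0009662003)))) 
(.nd (nat_lit 22) (.nd (nat_lit 26) 
(.lf (nat_lit 6442827838) (dlOf (nat_lit 2) (nat_lit 0x200620012f02000c00281d0c01))) 
(.lf (nat_lit 3288711230) (dlOf (nat_lit 8) (nat_lit 0xf403c0005802007601e0002b810021000000154080268060007800a003c004002c0000001502000b0000000a40400480000005102000a000000000180c1400)))) 
(.lf (nat_lit 2756034622) (dlOf (nat_lit 5) (nat_lit 0x2205400080298001014400180a0001204e0005026800400f4002461c007c0a80056053001402880130140003409c002a04d001901e8004883800d815000740a6003a050000c026800d80f40024214007c0a80046053001202880078140005009c002c04d001501e80048038014800800f4002000400081d0c03))))) 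
(.nd (nat_lit 11) (.nd (nat_lit 22) 
(.lf (nat_lit 4496670910) (dlOf (nat_lit 3) (nat_lit 0x58088000580400080440002b02000a0008111a81))) 
(.lf (nat_lit 4571326) (dlOf (nat_lit 1) (nat_lit 0x1c00400060008290382)))) (.nd (nat_lit 6) 
(.lf (nat_lit 2754465214) (dlOf (nat_lit 1) (nat_lit 0x8004001000180f6d02))) 
(.lf (nat_lit 40225534) (dlOf (nat_lit 1) (nat_lit 0x20002000800091f5a82)))))) (.nd (nat_lit 19) 
(.nd (nat_lit 21) (.nd (nat_lit 7) 
(.lf (nat_lit 1425470) (dlOf (nat_lit 1) (nat_lit 0x20008001c002001800080c0d83))) 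
(.lf (nat_lit 14008510) (dlOf (nat_lit 1) (nat_lit 0x400200020008750382)))) (.nd (nat_lit 8) 
(.nd (nat_lit 23) (.lf (nat_lit 24494142) (dlOf (nat_lit 1) (nat_lit 0x8008000400200020008ba0c03))) 
(.lf (nat_lit 32882750) (dlOf (nat_lit 1) (nat_lit 0x1400400040008f30602)))) 
(.lf (nat_lit 41271614) (dlOf (nat_lit 1) (nat_lit 0x400200020009237d02))))) (.nd (nat_lit 7) 
(.nd (nat_lit 8) (.lf (nat_lit 58575422) (dlOf (nat_lit 1) (nat_lit 0x20004004400097e5202))) 
(.lf (nat_lit 50185534) (dlOf (nat_lit 1) (nat_lit 0x4004000200194c3282)))) 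
(.lf (nat_lit 69059774) (dlOf (nat_lit 1) (nat_lit 0x4004000400088a2c82)))))) (.nd (nat_lit 7) 
(.nd (nat_lit 26) (.nd (nat_lit 21) (.nd (nat_lit 31) 
(.lf (nat_lit 1346748478) (dlOf (nat_lit 3) (nat_lit 0x4504b001e8210015c0e8009c0730011e04000804b0008c4080118008000c00200240009000603))) 
(.lf (nat_lit 3494232126) (dlOf (nat_lit 5) (nat_lit 0x2205400080298001014400180a0001204e0005026800400f4002641c007c0a80056053001402880130140003409c002a04d001901e8004c43800d815000740a6003a050000c026800d80f40026014007c0a80046053001202880078140005009c002c04d001501e8004bc38014800800f4002000400081d0c03)))) 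
(.nd (nat_lit 29) 
(.lf (nat_lit 3492134974) (dlOf (nat_lit 3) (nat_lit 0x524118026408b000198200050460000c80803a0008015c002000400080a0c83))) 
(.lf (nat_lit 1881522238) (dlOf (nat_lit 5) (nat_lit 0x11038c002a20401b01c60011f0200e60e30008281007d0718004080800e00080038002004a0008f40603))))) 
(.nd (nat_lit 11) (.nd (nat_lit 27) 
(.lf (nat_lit 872792126) (dlOf (nat_lit 2) (nat_lit 0x480b400000040008004001000180d0e02))) 
(.lf (nat_lit 5838848062) (dlOf (nat_lit 2) (nat_lit 0x200620012002000c00281d0c01)))) 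
(.nd (nat_lit 6) (.lf (nat_lit 2483411006) (dlOf (nat_lit 1) (nat_lit 0x400180fa681))) 
(.lf (nat_lit 6376770174) (dlOf (nat_lit 1) (nat_lit 0x20028095481)))))) (.nd (nat_lit 6) 
(.nd (nat_lit 11) 
(.lf (nat_lit 1009108158) (dlOf (nat_lit 6) (nat_lit 0x2981d4000880400b80ea0003b0200160e9007d0710000836000381ac000407a008303a801001cc0006c1c01d81c4012c0750001a02004209c003f8388002c1b0001807a00aa03a800000280178008001c00200620009082c83))) 
(.lf (nat_lit 3490041022) (dlOf (nat_lit 2) (nat_lit 0x3803d401be1d900de0e880008c18006000800a000200020008006303)))) 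
(.nd (nat_lit 8) (.nd (nat_lit 10) 
(.lf (nat_lit 1344133374) (dlOf (nat_lit 1) (nat_lit 0x200283da981))) 
(.lf (nat_lit 5772788990) (dlOf (nat_lit 1) (nat_lit 0x20028092f01)))) 
(.lf (nat_lit 3492660222) (dlOf (nat_lit 1) (nat_lit 0x200180f2881)))))))))) (.nd (nat_lit 5) 
(.nd (nat_lit 16) (.nd (nat_lit 19) (.nd (nat_lit 29) (.nd (nat_lit 18) (.nd (nat_lit 31) 
(.nd (nat_lit 20) (.nd (nat_lit 7) (.nd (nat_lit 9) 
(.lf (nat_lit 37928990) (dlOf (nat_lit 1) (nat_lit 0x80080124002002200090f0103))) 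
(.lf (nat_lit 5773642270) (dlOf (nat_lit 1) (nat_lit 0x200180e5101)))) (.nd (nat_lit 6) 
(.lf (nat_lit 35832990) (dlOf (nat_lit 1) (nat_lit 0x40019012b81))) 
(.lf (nat_lit 4362256862) (dlOf (nat_lit 1) (nat_lit 0x800200260008017d02))))) (.nd (nat_lit 6) 
(.nd (nat_lit 21) 
(.lf (nat_lit 22200350) (dlOf (nat_lit 2) (nat_lit 0x56bf0000d4080010008001400200080008aa0b83))) 
(.lf (nat_lit 24297502) (dlOf (nat_lit 1) (nat_lit 0x1800200020008b90902)))) (.nd (nat_lit 9) 
(.lf (nat_lit 24297566) (dlOf (nat_lit 2) (nat_lit 0xe65f800040080088008009c00200160008b91303))) 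
(.lf (nat_lit 1345505886) (dlOf (nat_lit 1) (nat_lit 0x20028c95381)))))) (.nd (nat_lit 6) 
(.nd (nat_lit 27) (.nd (nat_lit 10) 
(.lf (nat_lit 2483208606) (dlOf (nat_lit 1) (nat_lit 0x100008090781))) 
(.lf (nat_lit 3221409182) (dlOf (nat_lit 2) (nat_lit 0x803700032018116d00)))) (.nd (nat_lit 7) 
(.lf (nat_lit 3422732318) (dlOf (nat_lit 1) (nat_lit 0x200280a0001))) 
(.lf (nat_lit 3422737310) (dlOf (nat_lit 1) (nat_lit 0x200080a9101))))) (.nd (nat_lit 7) 
(.nd (nat_lit 8) 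
(.lf (nat_lit 2281882206) (dlOf (nat_lit 1) (nat_lit 0x800800fc002001400080a1703))) 
(.lf (nat_lit 6576849246) (dlOf (nat_lit 1) (nat_lit 0x2a0028154e81)))) 
(.lf (nat_lit 3489844702) (dlOf (nat_lit 1) (nat_lit 0x40028006e01)))))) (.nd (nat_lit 28) 
(.nd (nat_lit 20) (.nd (nat_lit 7) (.nd (nat_lit 8) 
(.lf (nat_lit 201769502) (dlOf (nat_lit 3) (nat_lit 0x4a02f0010401001001e8000040800f8008003c00200260008090d83))) 
(.lf (nat_lit 3288779038) (dlOf (nat_lit 2) (nat_lit 0x5809000000040004004000400180f4b82)))) 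
(.nd (nat_lit 6) (.lf (nat_lit 8832414) (dlOf (nat_lit 1) (nat_lit 0x40018513601))) 
(.lf (nat_lit 57068254) (dlOf (nat_lit 1) (nat_lit 0x20029795901))))) (.nd (nat_lit 21) 
(.nd (nat_lit 22) (.lf (nat_lit 1490974) (dlOf (nat_lit 1) (nat_lit 0x4004000200180d0482))) 
(.lf (nat_lit 56016926) (dlOf (nat_lit 1) (nat_lit 0x400200020009710102)))) 
(.lf (nat_lit 37142558) (dlOf (nat_lit 1) (nat_lit 0x4002001e00090a0602))))) (.nd (nat_lit 21) 
(.nd (nat_lit 6) (.nd (nat_lit 22) 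
(.lf (nat_lit 5637586974) (dlOf (nat_lit 1) (nat_lit 0x20018110601))) 
(.lf (nat_lit 1346813982) (dlOf (nat_lit 2) (nat_lit 0x160750001d819020100)))) 
(.lf (nat_lit 5772854494) (dlOf (nat_lit 1) (nat_lit 0x400400020008092e02)))) (.nd (nat_lit 26) 
(.lf (nat_lit 1344716830) (dlOf (nat_lit 1) (nat_lit 0x20008980001))) 
(.lf (nat_lit 472301598) (dlOf (nat_lit 1) (nat_lit 0x20008980001))))))) (.nd (nat_lit 6) 
(.nd (nat_lit 8) (.nd (nat_lit 18) (.nd (nat_lit 30) (.nd (nat_lit 26) 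
(.lf (nat_lit 2684534814) (dlOf (nat_lit 1) (nat_lit 0x200280a0001))) 
(.lf (nat_lit 4899127326) (dlOf (nat_lit 1) (nat_lit 0x20008080101)))) (.nd (nat_lit 9) 
(.lf (nat_lit 4160929822) (dlOf (nat_lit 1) (nat_lit 0x4004000200080a0002))) 
(.lf (nat_lit 1610794526) (dlOf (nat_lit 1) (nat_lit 0x400400160008093702))))) (.nd (nat_lit 26) 
(.nd (nat_lit 9) (.nd (nat_lit 27) 
(.lf (nat_lit 5906022430) (dlOf (nat_lit 1) (nat_lit 0x20018180481))) 
(.lf (nat_lit 2819014686) (dlOf (nat_lit 1) (nat_lit 0x360028150101)))) 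
(.lf (nat_lit 537313822) (dlOf (nat_lit 1) (nat_lit 0x18004000e0018090d82)))) (.nd (nat_lit 27) 
(.lf (nat_lit 6241566750) (dlOf (nat_lit 1) (nat_lit 0x20018110601))) 
(.lf (nat_lit 1007075358) (dlOf (nat_lit 1) (nat_lit 0x800800b800200260008170103)))))) 
(.nd (nat_lit 7) (.nd (nat_lit 26) (.nd (nat_lit 10) 
(.lf (nat_lit 805749022) (dlOf (nat_lit 2) (nat_lit 0x2a000000468181a0480))) 
(.lf (nat_lit 1610794270) (dlOf (nat_lit 1) (nat_lit 0x800200280008093102)))) (.nd (nat_lit 9) 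
(.lf (nat_lit 5301781790) (dlOf (nat_lit 3) (nat_lit 0x480110001481000a0088000300802000080078002004a0008093103))) 
(.lf (nat_lit 2751645470) (dlOf (nat_lit 1) (nat_lit 0x40028003c81))))) (.nd (nat_lit 9) 
(.nd (nat_lit 11) (.lf (nat_lit 805749150) (dlOf (nat_lit 2) (nat_lit 0x11e0420037c8181a0780))) 
(.lf (nat_lit 738380190) (dlOf (nat_lit 1) (nat_lit 0x100028094e81)))) (.nd (nat_lit 11) 
(.lf (nat_lit 4160930718) (dlOf (nat_lit 1) (nat_lit 0x200280a2581))) 
(.lf (nat_lit 738380702) (dlOf (nat_lit 1) (nat_lit 0xa0008095c81))))))) (.nd (nat_lit 7) 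
(.nd (nat_lit 18) (.nd (nat_lit 8) (.nd (nat_lit 26) 
(.lf (nat_lit 5234671710) (dlOf (nat_lit 3) (nat_lit 0x900ac000340401080560001902001e0008080701))) 
(.lf (nat_lit 4899127390) (dlOf (nat_lit 1) (nat_lit 0x8008001800200020008080703)))) 
(.nd (nat_lit 27) 
(.lf (nat_lit 537053022) (dlOf (nat_lit 1) (nat_lit 0x48008005800200020008003f83))) 
(.lf (nat_lit 671270750) (dlOf (nat_lit 2) (nat_lit 0x80500000a04003800200120008143f82))))) 
(.nd (nat_lit 30) (.nd (nat_lit 26) 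
(.lf (nat_lit 537313374) (dlOf (nat_lit 1) (nat_lit 0xc0028090001))) 
(.lf (nat_lit 738639966) (dlOf (nat_lit 2) (nat_lit 0x17020800b810000024080044002003e00080d0702)))) 
(.nd (nat_lit 9) 
(.lf (nat_lit 1611055198) (dlOf (nat_lit 2) (nat_lit 0x17020800b810000024080044002003e00080d0702))) 
(.lf (nat_lit 1881590366) (dlOf (nat_lit 1) (nat_lit 0xa0028f65381)))))) (.nd (nat_lit 8) 
(.nd (nat_lit 10) (.nd (nat_lit 27) 
(.lf (nat_lit 537053406) (dlOf (nat_lit 2) (nat_lit 0x3c00000006818004a80))) 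
(.lf (nat_lit 671271134) (dlOf (nat_lit 2) (nat_lit 0x2f806c0001a04005800400720018144a82)))) 
(.lf (nat_lit 6375523550) (dlOf (nat_lit 1) (nat_lit 0x20008002e01)))) (.nd (nat_lit 9) 
(.lf (nat_lit 2751650270) (dlOf (nat_lit 2) (nat_lit 0x1c71088030380800f000800280020060000800b283))) 
(.nd (nat_lit 27) 
(.lf (nat_lit 537052126) (dlOf (nat_lit 1) (nat_lit 0x8008000400200020008002883))) 
(.lf (nat_lit 671269854) (dlOf (nat_lit 1) (nat_lit 0xe8008002c002001c0008142883))))))))) 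
(.nd (nat_lit 21) (.nd (nat_lit 28) (.nd (nat_lit 20) (.nd (nat_lit 22) (.nd (nat_lit 26) 
(.lf (nat_lit 134922270) (dlOf (nat_lit 3) (nat_lit 0x13881740c980b8063204f013a02600238024019c000002260c0b28000000f90180e0480))) 
(.nd (nat_lit 27) (.lf (nat_lit 4362780702) (dlOf (nat_lit 1) (nat_lit 0x200280f0a81))) 
(.lf (nat_lit 202031134) (dlOf (nat_lit 3) (nat_lit 0x193017409c40b4063204e013a02600238024019c000002260c0b28000000f98180e0480))))) 
(.nd (nat_lit 23) 
(.lf (nat_lit 21676062) (dlOf (nat_lit 3) (nat_lit 0x1a4b8000af0100822608005700800c8008005000200600008a60a83))) 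
(.lf (nat_lit 13287454) (dlOf (nat_lit 1) (nat_lit 0x8008000400200020008710b03))))) 
(.nd (nat_lit 18) (.nd (nat_lit 9) (.nd (nat_lit 22) 
(.lf (nat_lit 35307550) (dlOf (nat_lit 1) (nat_lit 0x400400020009010002))) 
(.lf (nat_lit 5947422) (dlOf (nat_lit 2) (nat_lit 0x667900093310018fc100128008004000200340008410683)))) 
(.lf (nat_lit 2753217054) (dlOf (nat_lit 3) (nat_lit 0x40ff8008940800707f00000204000c002001e0008090d82)))) 
(.nd (nat_lit 6) (.lf (nat_lit 14598174) (dlOf (nat_lit 1) (nat_lit 0x80080004002000c0008770103))) 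
(.lf (nat_lit 2015582) (dlOf (nat_lit 1) (nat_lit 0x60018150681)))))) (.nd (nat_lit 29) 
(.nd (nat_lit 6) (.nd (nat_lit 7) (.nd (nat_lit 8) 
(.lf (nat_lit 5772066846) (dlOf (nat_lit 5) (nat_lit 0x600280034013002180940104046005e022003001000200060003fa1c000c050000402600030128005808c0020044000e020000100c0007f03800180a0004c04c000a022000301000018060003f61400e0050006e0260033012801c008c00e4044006c020002d00c0007e83800d00080014002000c0008060a83))) 
(.lf (nat_lit 5772330270) (dlOf (nat_lit 1) (nat_lit 0x120018093101)))) 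
(.lf (nat_lit 3490627998) (dlOf (nat_lit 1) (nat_lit 0x400200020008016b82)))) (.nd (nat_lit 8) 
(.lf (nat_lit 3491676254) (dlOf (nat_lit 1) (nat_lit 0x20028090001))) 
(.lf (nat_lit 3490368862) (dlOf (nat_lit 1) (nat_lit 0x118008000400200260008006a83))))) 
(.nd (nat_lit 6) (.nd (nat_lit 18) (.nd (nat_lit 31) 
(.lf (nat_lit 6376046622) (dlOf (nat_lit 5) (nat_lit 0x600280034013002180940104046005e022003001000200060004241c000c050000402600030128005808c0020044000e020000100c0008443800180a0004c04c000a022000301000018060004201400e0050006e0260033012801c008c00e4044006c020002d00c00083c3800d00080014002000c0008060a83))) 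
(.lf (nat_lit 4228562974) (dlOf (nat_lit 1) (nat_lit 0x200280f0a81)))) 
(.lf (nat_lit 4095655966) (dlOf (nat_lit 1) (nat_lit 0x200080e0001)))) (.nd (nat_lit 7) 
(.lf (nat_lit 1879753054) (dlOf (nat_lit 1) (nat_lit 0x1180018370901))) 
(.lf (nat_lit 1879752926) (dlOf (nat_lit 2) (nat_lit 0x201be0002102000a0008370581))))))) 
(.nd (nat_lit 7) (.nd (nat_lit 12) (.nd (nat_lit 18) (.nd (nat_lit 20) (.nd (nat_lit 22) 
(.lf (nat_lit 1344978974) (dlOf (nat_lit 1) (nat_lit 0x200289a0101))) 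
(.lf (nat_lit 6995998) (dlOf (nat_lit 2) (nat_lit 0x6c0e00095fb802f501001280080040002003400084a0683)))) 
(.lf (nat_lit 8044574) (dlOf (nat_lit 1) (nat_lit 0x8008000400200020008510003)))) (.nd (nat_lit 20) 
(.nd (nat_lit 24) (.lf (nat_lit 45006878) (dlOf (nat_lit 1) (nat_lit 0x8008000400200020009320003))) 
(.lf (nat_lit 28229662) (dlOf (nat_lit 1) (nat_lit 0x400200020008d70682)))) 
(.lf (nat_lit 473874462) (dlOf (nat_lit 1) (nat_lit 0xc0004003c0008fc0102))))) (.nd (nat_lit 9) 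
(.nd (nat_lit 11) (.nd (nat_lit 6) 
(.lf (nat_lit 8312094) (dlOf (nat_lit 2) (nat_lit 0x23096000780200280028519701))) 
(.lf (nat_lit 8048990) (dlOf (nat_lit 1) (nat_lit 0x10008001c00200080008518383)))) 
(.nd (nat_lit 18) (.lf (nat_lit 8051998) (dlOf (nat_lit 1) (nat_lit 0x38008000c002000a000851c603))) 
(.lf (nat_lit 8314142) (dlOf (nat_lit 1) (nat_lit 0x13000800b40020012000851c603))))) 
(.nd (nat_lit 6) (.nd (nat_lit 10) 
(.lf (nat_lit 8049182) (dlOf (nat_lit 2) (nat_lit 0x4719c0005004000400200060008518802))) 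
(.lf (nat_lit 8052254) (dlOf (nat_lit 1) (nat_lit 0x2000851cf01)))) 
(.lf (nat_lit 8049502) (dlOf (nat_lit 1) (nat_lit 0x18008000800200060008518f83)))))) 
(.nd (nat_lit 9) (.nd (nat_lit 6) (.nd (nat_lit 8) 
(.lf (nat_lit 37667998) (dlOf (nat_lit 1) (nat_lit 0x600190d2b81))) (.nd (nat_lit 11) 
(.lf (nat_lit 8049054) (dlOf (nat_lit 1) (nat_lit 0x800400020008518382))) 
(.lf (nat_lit 37407134) (dlOf (nat_lit 1) (nat_lit 0x400090d4e81))))) (.nd (nat_lit 8) 
(.lf (nat_lit 8046814) (dlOf (nat_lit 1) (nat_lit 0x20008000800200020008514a83))) 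
(.lf (nat_lit 8046046) (dlOf (nat_lit 1) (nat_lit 0x400200020008513602))))) (.nd (nat_lit 12) 
(.nd (nat_lit 11) (.nd (nat_lit 18) 
(.lf (nat_lit 8045214) (dlOf (nat_lit 1) (nat_lit 0x400200020008511c02))) 
(.lf (nat_lit 8307358) (dlOf (nat_lit 1) (nat_lit 0x400200020008511c02)))) 
(.lf (nat_lit 62835358) (dlOf (nat_lit 1) (nat_lit 0x4002000200099a5582)))) (.nd (nat_lit 18) 
(.lf (nat_lit 8049310) (dlOf (nat_lit 1) (nat_lit 0x8008000400200020008518c83))) 
(.lf (nat_lit 8311454) (dlOf (nat_lit 1) (nat_lit 0x8008000400200020008518c83))))))))) 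
(.nd (nat_lit 28) (.nd (nat_lit 18) (.nd (nat_lit 6) (.nd (nat_lit 26) (.nd (nat_lit 19) 
(.nd (nat_lit 7) (.nd (nat_lit 10) 
(.lf (nat_lit 1294622) (dlOf (nat_lit 1) (nat_lit 0x600180a4081))) 
(.lf (nat_lit 2818825502) (dlOf (nat_lit 1) (nat_lit 0x18004000c000812c602)))) 
(.lf (nat_lit 42189982) (dlOf (nat_lit 2) (nat_lit 0x1d521000220080010008000c002003e0009242b83)))) 
(.nd (nat_lit 20) (.nd (nat_lit 21) (.nd (nat_lit 23) 
(.lf (nat_lit 537640990) (dlOf (nat_lit 12) (nat_lit 0x11c0b400f0057001e02000030088001c03e007801c0011e06008c02d0032815c185c0a4000204a0021020003800cc02ac04a015e022000e00f801e807003700240202008001198c00570040008c808002017402300b400d0057061a0290011010001a80660156025008601100200070030c02401f8008001188b005a035801c81a004d80ba033e05a01a102b83c38148023406c0352033008e01280ee808807d803e001801c001f009000b002000d800202b40000011790017e035802201a003ec0000022d06020a06b001118100ea0358007e80811f81ac003e60404c00d6001f002007003300370040000001005c800821f8002008e00080e0483)))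 
(.lf (nat_lit 59490334) (dlOf (nat_lit 1) (nat_lit 0x400400020009800102)))) 
(.lf (nat_lit 28033054) (dlOf (nat_lit 1) (nat_lit 0x160028d50501)))) (.nd (nat_lit 22) 
(.lf (nat_lit 3915806) (dlOf (nat_lit 6) (nat_lit 0x12ac000091c80009408002491000124720001d8200012ac00031220001c8e40003a0600025580006244000311c8000720c0014ab0000380200160018250b01))) 
(.lf (nat_lit 8110110) (dlOf (nat_lit 1) (nat_lit 0x400400020008510002)))))) (.nd (nat_lit 7) 
(.nd (nat_lit 10) (.nd (nat_lit 29) 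
(.lf (nat_lit 4496539678) (dlOf (nat_lit 1) (nat_lit 0x80080004002000200080e0003))) 
(.lf (nat_lit 1812185118) (dlOf (nat_lit 12) (nat_lit 0x3f009801ec042011601c0012603015401300a5008405300380024a060278026002000e80a98070004920c04b004c027c02200e70108070007404b4038002480a036002601b101100d90084053003a049801c0012385005701300a40088038003a028c01c0012304013b0130001808802cc03a029801c0012284000700e8008c8080478098032c044019a01d00a200e0007f4200370088001803a001fc0400b0022007200e8007d410079800800b800200040008170903)))) 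
(.lf (nat_lit 738446366) (dlOf (nat_lit 1) (nat_lit 0x400200020008096002)))) (.nd (nat_lit 8) 
(.nd (nat_lit 29) (.lf (nat_lit 4496542366) (dlOf (nat_lit 1) (nat_lit 0x4004000200080e5582))) 
(.lf (nat_lit 738445982) (dlOf (nat_lit 1) (nat_lit 0xc00400060008095582)))) 
(.lf (nat_lit 1677967774) (dlOf (nat_lit 2) (nat_lit 0x6056004d8018126b80)))))) (.nd (nat_lit 7) 
(.nd (nat_lit 20) (.nd (nat_lit 9) (.nd (nat_lit 21) 
(.lf (nat_lit 63160414) (dlOf (nat_lit 1) (nat_lit 0x200199e0881))) 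
(.lf (nat_lit 19120222) (dlOf (nat_lit 2) (nat_lit 0x1d744001d004001c00400020008970482)))) 
(.lf (nat_lit 5570284126) (dlOf (nat_lit 1) (nat_lit 0x4004000200080d5382)))) (.nd (nat_lit 8) 
(.lf (nat_lit 28557406) (dlOf (nat_lit 1) (nat_lit 0x80008da0481))) 
(.lf (nat_lit 8114526) (dlOf (nat_lit 1) (nat_lit 0x160028518381))))) (.nd (nat_lit 10) 
(.nd (nat_lit 12) (.lf (nat_lit 17023198) (dlOf (nat_lit 1) (nat_lit 0x200288e0581))) 
(.lf (nat_lit 2818822366) (dlOf (nat_lit 1) (nat_lit 0x5a0028128081)))) (.nd (nat_lit 8) 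
(.lf (nat_lit 8115422) (dlOf (nat_lit 1) (nat_lit 0x400400020008519502))) 
(.lf (nat_lit 8111582) (dlOf (nat_lit 1) (nat_lit 0x80080018002000a0008513603))))))) 
(.nd (nat_lit 20) (.nd (nat_lit 23) (.nd (nat_lit 25) (.nd (nat_lit 27) 
(.lf (nat_lit 537378846) (dlOf (nat_lit 1) (nat_lit 0x400400020018090002))) (.nd (nat_lit 29) 
(.lf (nat_lit 134725662) (dlOf (nat_lit 1) (nat_lit 0x12000800e000200420008090003))) 
(.lf (nat_lit 2819080222) (dlOf (nat_lit 1) (nat_lit 0xc8008006400200120008190703))))) 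
(.nd (nat_lit 9) 
(.lf (nat_lit 36159518) (dlOf (nat_lit 2) (nat_lit 0x17c0980003b0200220019030101))) 
(.lf (nat_lit 50840094) (dlOf (nat_lit 1) (nat_lit 0x580080048002003200094d8703))))) 
(.nd (nat_lit 6) (.nd (nat_lit 8) 
(.lf (nat_lit 27770910) (dlOf (nat_lit 2) (nat_lit 0x2cc70026c018d20680))) 
(.lf (nat_lit 8898846) (dlOf (nat_lit 2) (nat_lit 0x21d14000be04008000400300008514b82)))) 
(.lf (nat_lit 8902110) (dlOf (nat_lit 4) (nat_lit 0x87390002101000739c8000fc080051d1000038040030004000e0008519b02))))) 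
(.nd (nat_lit 19) (.nd (nat_lit 21) (.nd (nat_lit 24) 
(.lf (nat_lit 43499550) (dlOf (nat_lit 1) (nat_lit 0x4004000200092a0002))) 
(.lf (nat_lit 26722334) (dlOf (nat_lit 2) (nat_lit 0x3d61c0003c0200040008c60581)))) 
(.nd (nat_lit 6) (.nd (nat_lit 25) 
(.lf (nat_lit 3653662) (dlOf (nat_lit 1) (nat_lit 0x20008210901))) 
(.lf (nat_lit 37208094) (dlOf (nat_lit 1) (nat_lit 0x4004000400190c0602)))) 
(.lf (nat_lit 3653726) (dlOf (nat_lit 1) (nat_lit 0x22800800b8002032c0008211303))))) 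
(.nd (nat_lit 21) (.nd (nat_lit 7) 
(.lf (nat_lit 27246622) (dlOf (nat_lit 1) (nat_lit 0x17c0028cc0681))) 
(.lf (nat_lit 56607902) (dlOf (nat_lit 1) (nat_lit 0x80029732b81)))) (.nd (nat_lit 6) 
(.lf (nat_lit 58706334) (dlOf (nat_lit 1) (nat_lit 0x200197e4e81))) 
(.lf (nat_lit 46121182) (dlOf (nat_lit 1) (nat_lit 0x520009380a01)))))))) (.nd (nat_lit 27) 
(.nd (nat_lit 18) (.nd (nat_lit 26) (.nd (nat_lit 8) (.nd (nat_lit 6) (.nd (nat_lit 7) 
(.lf (nat_lit 4026778142) (dlOf (nat_lit 5) (nat_lit 0x601000098048005c01f00310068005b020009810000040400014f040006040000801200140088000080c00580800034024003b0110005007c0000210000800400c40018090d82))) 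
(.lf (nat_lit 3493054110) (dlOf (nat_lit 1) (nat_lit 0x400400a800080f3a82)))) 
(.lf (nat_lit 5100522078) (dlOf (nat_lit 2) (nat_lit 0x40000003b02000200180d5381)))) 
(.nd (nat_lit 6) (.nd (nat_lit 7) 
(.lf (nat_lit 3490955550) (dlOf (nat_lit 1) (nat_lit 0x400400020008047802))) 
(.lf (nat_lit 5100522398) (dlOf (nat_lit 1) (nat_lit 0x2200280d5c81)))) 
(.lf (nat_lit 1879294302) (dlOf (nat_lit 2) (nat_lit 0x604f0000b8180c0680))))) (.nd (nat_lit 6) 
(.nd (nat_lit 8) (.nd (nat_lit 29) 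
(.lf (nat_lit 1410056222) (dlOf (nat_lit 12) (nat_lit 0x11c0b400f0057001e02000030088001c03e007801c0011e06008c02d0032815c185c0a4000204a0021020003800cc02ac04a015e022000e00f801e807003700240202008001198c00570040008c808002017402300b400d0057061a0290011010001a80660156025008601100200070030c02401f8008001188b005a035801c81a004d80ba033e05a01a102b83c38148023406c0352033008e01280ee808807d803e001801c001f009000b002000d800202b40000011790017e035802201a003ec0000022d06020a06b0010f8100ea0358007f00811f81ac003e40404c00d6001f002007003300370040000001005c800821f8002008e00080e0483))) 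
(.lf (nat_lit 4094410782) (dlOf (nat_lit 1) (nat_lit 0x400400020008050002)))) 
(.lf (nat_lit 872662302) (dlOf (nat_lit 1) (nat_lit 0x10008005000200460008093103)))) 
(.nd (nat_lit 7) (.nd (nat_lit 8) 
(.lf (nat_lit 4095459422) (dlOf (nat_lit 1) (nat_lit 0x4004000200080c1c02))) 
(.lf (nat_lit 3557021534) (dlOf (nat_lit 1) (nat_lit 0x580040020000812a302)))) 
(.lf (nat_lit 872662238) (dlOf (nat_lit 1) (nat_lit 0x20008003c00200220008092e03)))))) 
(.nd (nat_lit 8) (.nd (nat_lit 26) (.nd (nat_lit 9) (.nd (nat_lit 30) 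
(.lf (nat_lit 2416427038) (dlOf (nat_lit 4) (nat_lit 0x40240002011000b0080001803c001401a00d4b0a0002010000300680352010000803c000401a00d4604000200281d0a01))) 
(.lf (nat_lit 5637652510) (dlOf (nat_lit 1) (nat_lit 0xd60028140381)))) 
(.lf (nat_lit 3490693662) (dlOf (nat_lit 1) (nat_lit 0x20028017f01)))) (.nd (nat_lit 20) 
(.nd (nat_lit 29) 
(.lf (nat_lit 3557277726) (dlOf (nat_lit 4) (nat_lit 0x6c81c8002807e00be9040062038005f2810001022802f3c080020008001000200160008190703))) 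
(.lf (nat_lit 6241632286) (dlOf (nat_lit 1) (nat_lit 0xd60028140381)))) 
(.lf (nat_lit 4095197214) (dlOf (nat_lit 1) (nat_lit 0x20028070181))))) (.nd (nat_lit 6) 
(.nd (nat_lit 7) 
(.lf (nat_lit 1342685470) (dlOf (nat_lit 2) (nat_lit 0x61889802243e60007c04000800080c0481))) 
(.lf (nat_lit 3490693534) (dlOf (nat_lit 1) (nat_lit 0x20018016b81)))) (.nd (nat_lit 7) 
(.lf (nat_lit 3490693470) (dlOf (nat_lit 3) (nat_lit 0x6e2130039108801a8808000500c00d842600722110035101000098180088008001c002000a0008014e83))) 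
(.lf (nat_lit 1342685662) (dlOf (nat_lit 1) (nat_lit 0xa00180c0b81))))))) (.nd (nat_lit 18) 
(.nd (nat_lit 6) (.nd (nat_lit 26) (.nd (nat_lit 7) 
(.lf (nat_lit 939769886) (dlOf (nat_lit 12) (nat_lit 0x3f009801ec042011601c0011a03015401300a50084053003800232060278026002000e80a98070004620c04b004c027c02200e70108070007404b4038002300a036002601b101100d90084053003a049801c0011785005701300a40088038003a028c01c0011704013b0130001808802cc03a029801c0011684000700e800874080478098032c044019a01d00a200e0007ac200370088001803a001ea0400b0022007200e80078c10079800800b800200040008170903))) 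
(.nd (nat_lit 8) (.lf (nat_lit 5772657822) (dlOf (nat_lit 1) (nat_lit 0x4c0028092b81))) 
(.lf (nat_lit 4161000350) (dlOf (nat_lit 1) (nat_lit 0xc002000800080a9102))))) (.nd (nat_lit 8) 
(.nd (nat_lit 30) (.lf (nat_lit 2617491486) (dlOf (nat_lit 1) (nat_lit 0x28002000200080c0702))) 
(.lf (nat_lit 3691233310) (dlOf (nat_lit 1) (nat_lit 0x600080c0681)))) 
(.lf (nat_lit 4764976414) (dlOf (nat_lit 1) (nat_lit 0x240018093101))))) (.nd (nat_lit 8) 
(.nd (nat_lit 7) (.nd (nat_lit 9) 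
(.lf (nat_lit 3624127582) (dlOf (nat_lit 1) (nat_lit 0x1a0028146081))) 
(.lf (nat_lit 6308481630) (dlOf (nat_lit 1) (nat_lit 0x200280d5381)))) 
(.lf (nat_lit 5234738398) (dlOf (nat_lit 1) (nat_lit 0x200280d2e01)))) (.nd (nat_lit 29) 
(.lf (nat_lit 1543749982) (dlOf (nat_lit 3) (nat_lit 0x6000c8027000c013000000028060026029001901000368064015400c00ba0030052000000098300298008008400200860008154e83))) 
(.lf (nat_lit 1006879070) (dlOf (nat_lit 2) (nat_lit 0x604f0000b8180c0680)))))) (.nd (nat_lit 30) 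
(.nd (nat_lit 6) (.nd (nat_lit 7) (.nd (nat_lit 9) 
(.lf (nat_lit 2550644766) (dlOf (nat_lit 4) (nat_lit 0x40240002011000b0080001803c001401a007d00a00020100003006801f3410000803c000401a007cb04000200281d0a01))) 
(.lf (nat_lit 470270494) (dlOf (nat_lit 2) (nat_lit 0x3a094001170180c0d80)))) 
(.lf (nat_lit 472369566) (dlOf (nat_lit 1) (nat_lit 0x1c00400060008984e82)))) (.nd (nat_lit 7) 
(.lf (nat_lit 472892510) (dlOf (nat_lit 1) (nat_lit 0x2600018b52901))) 
(.lf (nat_lit 470270430) (dlOf (nat_lit 1) (nat_lit 0xa00180c0b81))))) (.nd (nat_lit 6) 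
(.nd (nat_lit 7) (.nd (nat_lit 10) 
(.lf (nat_lit 3624386846) (dlOf (nat_lit 2) (nat_lit 0x3c07c00a4e0200080008187801))) 
(.lf (nat_lit 5772920094) (dlOf (nat_lit 1) (nat_lit 0x20028093101)))) 
(.lf (nat_lit 3624386718) (dlOf (nat_lit 1) (nat_lit 0x1f80080034002001a0008184303)))) 
(.nd (nat_lit 7) (.lf (nat_lit 5771872862) (dlOf (nat_lit 1) (nat_lit 0x120018005381))) 
(.lf (nat_lit 5772920030) (dlOf (nat_lit 1) (nat_lit 0x40028092e01)))))))))) (.nd (nat_lit 16) 
(.nd (nat_lit 6) (.nd (nat_lit 18) (.nd (nat_lit 26) (.nd (nat_lit 9) (.nd (nat_lit 20) 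
(.nd (nat_lit 23) (.nd (nat_lit 10) (.nd (nat_lit 27) 
(.lf (nat_lit 1610793022) (dlOf (nat_lit 1) (nat_lit 0x60008090001))) 
(.lf (nat_lit 5234671678) (dlOf (nat_lit 2) (nat_lit 0x350158001f8080108008001000200220008080483)))) 
(.lf (nat_lit 402834494) (dlOf (nat_lit 1) (nat_lit 0x8008003000200060008092883)))) 
(.nd (nat_lit 19) 
(.lf (nat_lit 12763198) (dlOf (nat_lit 4) (nat_lit 0x1aa460013e02001352300098810006a918004bc080050008008c002002a00086e0c03))) 
(.lf (nat_lit 11190334) (dlOf (nat_lit 1) (nat_lit 0x8008000400200020008670e83))))) 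
(.nd (nat_lit 19) (.nd (nat_lit 21) 
(.lf (nat_lit 43171902) (dlOf (nat_lit 2) (nat_lit 0x214ae00de10192a0000))) (.nd (nat_lit 22) 
(.lf (nat_lit 62046270) (dlOf (nat_lit 1) (nat_lit 0x10008016000200020009940483))) 
(.lf (nat_lit 24297534) (dlOf (nat_lit 3) (nat_lit 0x19d8b00019010007e5e80008c080028008003800200060008b90c83))))) 
(.nd (nat_lit 8) (.nd (nat_lit 23) 
(.lf (nat_lit 35307582) (dlOf (nat_lit 1) (nat_lit 0x80019010001))) 
(.lf (nat_lit 10141758) (dlOf (nat_lit 4) (nat_lit 0xe47080039fc401e80000001c06009a8e100313f880388000000360c00280000001402006800185b0701)))) 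
(.lf (nat_lit 8049982) (dlOf (nat_lit 1) (nat_lit 0x400200040008519902)))))) (.nd (nat_lit 7) 
(.nd (nat_lit 8) (.nd (nat_lit 10) 
(.lf (nat_lit 2684535358) (dlOf (nat_lit 1) (nat_lit 0x800800a8002000e00080a1583))) 
(.lf (nat_lit 1610794558) (dlOf (nat_lit 2) (nat_lit 0x2d01500004c0800c8008000400200560008093783)))) 
(.lf (nat_lit 3758282558) (dlOf (nat_lit 2) (nat_lit 0x51019002380980000008001c0040002000812a102)))) 
(.nd (nat_lit 8) (.nd (nat_lit 10) 
(.lf (nat_lit 1208142526) (dlOf (nat_lit 1) (nat_lit 0x400200020008095782))) 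
(.lf (nat_lit 183998) (dlOf (nat_lit 1) (nat_lit 0x20008007281)))) 
(.lf (nat_lit 186302) (dlOf (nat_lit 1) (nat_lit 0x40020004000800a602)))))) (.nd (nat_lit 27) 
(.nd (nat_lit 11) (.nd (nat_lit 8) (.nd (nat_lit 19) 
(.lf (nat_lit 4899127358) (dlOf (nat_lit 1) (nat_lit 0x400400020018080482))) 
(.lf (nat_lit 1409990718) (dlOf (nat_lit 4) (nat_lit 0x6180ba02be057016802900b180cc001803e02b60000002c06019e02e8029816806780ae036205201a5019800800ac04bc044028a01f018b00000015c4806b00cc0000004018c004001a00180c1402)))) 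
(.lf (nat_lit 3556950334) (dlOf (nat_lit 1) (nat_lit 0x20028117d01)))) (.nd (nat_lit 7) 
(.lf (nat_lit 2751650366) (dlOf (nat_lit 9) (nat_lit 0x3fb10880bc084003082d20007706077c2110003b0103ef1088001c4081a70844000e0040d60422000630206ae21100030810009109000f05500005a080fac42200121f900b10b48000001804a800800140020044000800b483))) 
(.nd (nat_lit 9) (.lf (nat_lit 6509743294) (dlOf (nat_lit 1) (nat_lit 0x1400400040008146302))) 
(.lf (nat_lit 6509743806) (dlOf (nat_lit 1) (nat_lit 0x20008147281)))))) (.nd (nat_lit 19) 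
(.nd (nat_lit 8) (.nd (nat_lit 28) 
(.lf (nat_lit 6643957822) (dlOf (nat_lit 1) (nat_lit 0x200280a0e81))) 
(.lf (nat_lit 5301780542) (dlOf (nat_lit 1) (nat_lit 0x1400400460008090002)))) 
(.lf (nat_lit 1543687486) (dlOf (nat_lit 3) (nat_lit 0x1a0170001701000500b800080080098008002800200340008146903)))) 
(.nd (nat_lit 21) 
(.lf (nat_lit 4228563006) (dlOf (nat_lit 2) (nat_lit 0x4c0510026025001300c80009c0c000c004000200080f1402))) 
(.lf (nat_lit 472563774) (dlOf (nat_lit 7) (nat_lit 0xb429a00a20d9003b06c002e81f4017c0f8002490a000407c001238100500a6802301f401280f8003602a000f80400180a1802684ec0108272006e0cd003a03a801e81cc0038e1801080ea001bf02011a075008d0398006f41003c00080058002000600089c0603))))))) 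
(.nd (nat_lit 26) (.nd (nat_lit 8) (.nd (nat_lit 9) (.nd (nat_lit 19) (.nd (nat_lit 21) 
(.nd (nat_lit 27) (.lf (nat_lit 1611055166) (dlOf (nat_lit 1) (nat_lit 0x400180d0481))) 
(.lf (nat_lit 2819014718) (dlOf (nat_lit 1) (nat_lit 0x320018150481)))) 
(.lf (nat_lit 3492200510) (dlOf (nat_lit 1) (nat_lit 0x280080008002000600080b1883)))) 
(.nd (nat_lit 21) (.lf (nat_lit 52346942) (dlOf (nat_lit 2) (nat_lit 0x2d2700124819530600))) 
(.lf (nat_lit 25083966) (dlOf (nat_lit 6) (nat_lit 0x501a880045c08000885c000b00401429c401660000002a02003d0000001440801a00000009c04001000400060008be1402))))) 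
(.nd (nat_lit 21) (.nd (nat_lit 27) 
(.lf (nat_lit 537313854) (dlOf (nat_lit 2) (nat_lit 0x1080c40000004001000200100008091082))) 
(.lf (nat_lit 134660670) (dlOf (nat_lit 2) (nat_lit 0x16401e000c00b006e00000000018024000800a4002002a0008091083)))) 
(.nd (nat_lit 10) (.lf (nat_lit 44485182) (dlOf (nat_lit 1) (nat_lit 0xe0029325201))) 
(.lf (nat_lit 8308286) (dlOf (nat_lit 1) (nat_lit 0x48008000c00200060008513783)))))) 
(.nd (nat_lit 19) (.nd (nat_lit 27) (.nd (nat_lit 28) 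
(.lf (nat_lit 3221668286) (dlOf (nat_lit 2) (nat_lit 0x80f00000004001c00400060018170882))) 
(.lf (nat_lit 805749182) (dlOf (nat_lit 2) (nat_lit 0x1780420001c8181a0880)))) 
(.lf (nat_lit 134660542) (dlOf (nat_lit 2) (nat_lit 0x1880000000004008c00200120008090882)))) 
(.nd (nat_lit 7) (.lf (nat_lit 19845438) (dlOf (nat_lit 1) (nat_lit 0x4002000200089d8182))) 
(.lf (nat_lit 1881063870) (dlOf (nat_lit 1) (nat_lit 0x180018de7a81)))))) (.nd (nat_lit 29) 
(.nd (nat_lit 9) (.nd (nat_lit 7) 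
(.lf (nat_lit 473874494) (dlOf (nat_lit 2) (nat_lit 0x14d05340a701b204d40d8000e03e00091c200208008001000200920008fc0603))) 
(.lf (nat_lit 201769406) (dlOf (nat_lit 2) (nat_lit 0x1880000000004008c00200120008090882)))) 
(.nd (nat_lit 11) (.nd (nat_lit 27) 
(.lf (nat_lit 1409729086) (dlOf (nat_lit 2) (nat_lit 0x1080c40000004001000200100008091082))) 
(.lf (nat_lit 201769534) (dlOf (nat_lit 2) (nat_lit 0x16401c000c00b006e00000000018024000800a4002002a0008091083)))) 
(.lf (nat_lit 474401342) (dlOf (nat_lit 1) (nat_lit 0x20029165201))))) (.nd (nat_lit 7) 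
(.nd (nat_lit 21) (.lf (nat_lit 738639934) (dlOf (nat_lit 1) (nat_lit 0x400180d0481))) 
(.lf (nat_lit 2754003006) (dlOf (nat_lit 1) (nat_lit 0x280080008002000600080b1883)))) 
(.nd (nat_lit 27) (.lf (nat_lit 1678164414) (dlOf (nat_lit 2) (nat_lit 0x1780420001c8181a0880))) 
(.lf (nat_lit 3959865790) (dlOf (nat_lit 2) (nat_lit 0x80f00000004001c00400060018170882)))))))) 
(.nd (nat_lit 7) (.nd (nat_lit 31) (.nd (nat_lit 29) (.nd (nat_lit 11) (.nd (nat_lit 8) 
(.lf (nat_lit 21414014) (dlOf (nat_lit 1) (nat_lit 0xc00400040008a30d02))) (.nd (nat_lit 9) 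
(.lf (nat_lit 4362256766) (dlOf (nat_lit 1) (nat_lit 0x640018015a81))) 
(.lf (nat_lit 8046462) (dlOf (nat_lit 1) (nat_lit 0x20008514101))))) (.nd (nat_lit 18) 
(.lf (nat_lit 37407102) (dlOf (nat_lit 1) (nat_lit 0x2c00090d4e81))) 
(.lf (nat_lit 57067902) (dlOf (nat_lit 1) (nat_lit 0x400400020019794e82))))) (.nd (nat_lit 9) 
(.nd (nat_lit 10) (.nd (nat_lit 26) 
(.lf (nat_lit 939704702) (dlOf (nat_lit 1) (nat_lit 0x20004001a0018155a82))) 
(.lf (nat_lit 1812119934) (dlOf (nat_lit 1) (nat_lit 0x20004001a0018155a82)))) 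
(.lf (nat_lit 1610794366) (dlOf (nat_lit 2) (nat_lit 0x902b800074080008008000400200660008093583)))) 
(.nd (nat_lit 8) 
(.lf (nat_lit 738380414) (dlOf (nat_lit 1) (nat_lit 0x10008000800200060008095483))) 
(.lf (nat_lit 537053054) (dlOf (nat_lit 1) (nat_lit 0x400200020008004102)))))) (.nd (nat_lit 8) 
(.nd (nat_lit 12) (.nd (nat_lit 18) 
(.lf (nat_lit 3491938430) (dlOf (nat_lit 1) (nat_lit 0x400400020018090082))) (.nd (nat_lit 26) 
(.lf (nat_lit 3491676286) (dlOf (nat_lit 1) (nat_lit 0xf00080020002000a0008090083))) 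
(.lf (nat_lit 2753478782) (dlOf (nat_lit 1) (nat_lit 0xf00080020002000a0008090083))))) 
(.nd (nat_lit 9) 
(.lf (nat_lit 2684540030) (dlOf (nat_lit 1) (nat_lit 0x40008001c002000c00080a9503))) 
(.lf (nat_lit 3758283390) (dlOf (nat_lit 2) (nat_lit 0x300350026181812b680))))) (.nd (nat_lit 9) 
(.nd (nat_lit 18) (.lf (nat_lit 4228039038) (dlOf (nat_lit 1) (nat_lit 0x640018015a81))) 
(.nd (nat_lit 26) 
(.lf (nat_lit 3493249406) (dlOf (nat_lit 1) (nat_lit 0xa0008003400200240008105a83))) 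
(.lf (nat_lit 2755051902) (dlOf (nat_lit 1) (nat_lit 0xa0008003400200240008105a83))))) 
(.nd (nat_lit 10) 
(.lf (nat_lit 3422733182) (dlOf (nat_lit 1) (nat_lit 0x80080008002000200080a2583))) 
(.nd (nat_lit 11) (.lf (nat_lit 2751907710) (dlOf (nat_lit 1) (nat_lit 0x3e0018004101))) 
(.lf (nat_lit 3758280574) (dlOf (nat_lit 2) (nat_lit 0x803500521018127780)))))))) (.nd (nat_lit 26) 
(.nd (nat_lit 9) (.nd (nat_lit 8) (.nd (nat_lit 10) 
(.lf (nat_lit 19841278) (dlOf (nat_lit 1) (nat_lit 0x4002000200089d0a82))) 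
(.lf (nat_lit 805489918) (dlOf (nat_lit 1) (nat_lit 0x560018116601)))) (.nd (nat_lit 10) 
(.nd (nat_lit 11) 
(.lf (nat_lit 939704830) (dlOf (nat_lit 7) (nat_lit 0x5c002c01c001200fc004006f0000001742005b802c021c01200fc00400980000001702003e8000000a4040104016000a009000c00200014018019002c0008e0403ac0160022009008e00200618000000841000d000400540018157e02))) 
(.lf (nat_lit 37407230) (dlOf (nat_lit 1) (nat_lit 0x800200a200090d4f82)))) 
(.lf (nat_lit 8052222) (dlOf (nat_lit 1) (nat_lit 0x2000851cd01))))) (.nd (nat_lit 11) 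
(.nd (nat_lit 8) (.nd (nat_lit 12) 
(.lf (nat_lit 8045310) (dlOf (nat_lit 1) (nat_lit 0x400400020008512102))) 
(.lf (nat_lit 8049406) (dlOf (nat_lit 1) (nat_lit 0x48008000400200100008518f83)))) 
(.lf (nat_lit 1610793982) (dlOf (nat_lit 1) (nat_lit 0x100028092881)))) (.nd (nat_lit 18) 
(.lf (nat_lit 57854718) (dlOf (nat_lit 1) (nat_lit 0xc00400020009795a82))) (.nd (nat_lit 20) 
(.lf (nat_lit 57068286) (dlOf (nat_lit 1) (nat_lit 0x40008001c002003c0009795a83))) 
(.lf (nat_lit 1345768190) (dlOf (nat_lit 1) (nat_lit 0x8008000400200020008dd5a83))))))) 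
(.nd (nat_lit 27) (.nd (nat_lit 9) (.nd (nat_lit 31) (.nd (nat_lit 29) 
(.lf (nat_lit 4362256894) (dlOf (nat_lit 10) (nat_lit 0xeb80ac000d00406dc0560006702036202b0003301018d0158001940800f80ac000c60407640560004202035a02b000208101bc0158000fc080c680ac0007c0400a000400980008017e02))) 
(.lf (nat_lit 5972869630) (dlOf (nat_lit 2) (nat_lit 0x9008800108080008008000800200040008157e03)))) 
(.nd (nat_lit 11) 
(.lf (nat_lit 2752430590) (dlOf (nat_lit 5) (nat_lit 0x1081920002e0200d20c9000168100e405900005c0803e02c80002a04000400400620018017e02))) 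
(.lf (nat_lit 2751650302) (dlOf (nat_lit 2) (nat_lit 0xac211002d108003044100030008000c002000e000800b283))))) 
(.nd (nat_lit 10) 
(.lf (nat_lit 69911550) (dlOf (nat_lit 1) (nat_lit 0x70008007c00200320008e12883))) 
(.lf (nat_lit 1677903870) (dlOf (nat_lit 1) (nat_lit 0x180018114701))))) (.nd (nat_lit 28) 
(.nd (nat_lit 10) (.nd (nat_lit 31) 
(.lf (nat_lit 201507326) (dlOf (nat_lit 2) (nat_lit 0x860000000f018017e00))) 
(.lf (nat_lit 2348990974) (dlOf (nat_lit 1) (nat_lit 0x40008090d81)))) 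
(.lf (nat_lit 3422737918) (dlOf (nat_lit 1) (nat_lit 0x35800800f8002000800080a9c03)))) 
(.nd (nat_lit 8) (.lf (nat_lit 473612542) (dlOf (nat_lit 1) (nat_lit 0x3c00400080008f62902))) 
(.nd (nat_lit 9) 
(.lf (nat_lit 469942782) (dlOf (nat_lit 2) (nat_lit 0x1a247001311e0020887000ec3340004208000c0028017e01))) 
(.lf (nat_lit 5301781502) (dlOf (nat_lit 1) (nat_lit 0x1e0008007400200600008092883)))))))))) 
(.nd (nat_lit 18) (.nd (nat_lit 28) (.nd (nat_lit 7) (.nd (nat_lit 21) (.nd (nat_lit 8) 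
(.nd (nat_lit 6) (.nd (nat_lit 9) (.nd (nat_lit 27) 
(.lf (nat_lit 3825451070) (dlOf (nat_lit 1) (nat_lit 0x28008000400200040008160703))) 
(.lf (nat_lit 1812185150) (dlOf (nat_lit 1) (nat_lit 0x2000200020008170d82)))) 
(.lf (nat_lit 3288580670) (dlOf (nat_lit 2) (nat_lit 0x2300000000004004800200060008091082)))) 
(.lf (nat_lit 2755903614) (dlOf (nat_lit 2) (nat_lit 0x60f900110260007a0100058008000c002001c00081b0083)))) 
(.nd (nat_lit 6) (.nd (nat_lit 9) 
(.lf (nat_lit 2752758078) (dlOf (nat_lit 3) (nat_lit 0x50430001200800182200000204002000400300008048502))) 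
(.lf (nat_lit 4899195710) (dlOf (nat_lit 2) (nat_lit 0x2029000470180d5c00)))) (.nd (nat_lit 19) 
(.lf (nat_lit 1294718) (dlOf (nat_lit 1) (nat_lit 0x1e00280a5a81))) 
(.lf (nat_lit 770430) (dlOf (nat_lit 1) (nat_lit 0x240028015a81)))))) (.nd (nat_lit 20) 
(.nd (nat_lit 10) (.nd (nat_lit 22) 
(.lf (nat_lit 2342974) (dlOf (nat_lit 1) (nat_lit 0x18008004c00200020008150003))) 
(.lf (nat_lit 56868926) (dlOf (nat_lit 1) (nat_lit 0xc00400060009770602)))) 
(.lf (nat_lit 36422718) (dlOf (nat_lit 1) (nat_lit 0x40019072881)))) (.nd (nat_lit 6) 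
(.lf (nat_lit 45858878) (dlOf (nat_lit 2) (nat_lit 0x3aef000557440047808001800400180009360602))) 
(.nd (nat_lit 8) (.lf (nat_lit 20695678) (dlOf (nat_lit 1) (nat_lit 0x200189d5481))) 
(.lf (nat_lit 8116606) (dlOf (nat_lit 1) (nat_lit 0x800800040020002000851af03))))))) 
(.nd (nat_lit 6) (.nd (nat_lit 8) (.nd (nat_lit 9) (.nd (nat_lit 10) 
(.lf (nat_lit 2755903678) (dlOf (nat_lit 1) (nat_lit 0x900080078002005000081b0403))) 
(.lf (nat_lit 49005758) (dlOf (nat_lit 1) (nat_lit 0x40029462c81)))) 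
(.lf (nat_lit 4496542398) (dlOf (nat_lit 1) (nat_lit 0x4004000200080e5782)))) (.nd (nat_lit 9) 
(.nd (nat_lit 10) (.lf (nat_lit 1294782) (dlOf (nat_lit 1) (nat_lit 0x3d8002007000080a7002))) 
(.lf (nat_lit 67884478) (dlOf (nat_lit 1) (nat_lit 0x400400020008339a02)))) 
(.lf (nat_lit 4496542654) (dlOf (nat_lit 1) (nat_lit 0x80080004002000200080e5d03))))) 
(.nd (nat_lit 8) (.nd (nat_lit 9) (.nd (nat_lit 10) 
(.lf (nat_lit 20175102) (dlOf (nat_lit 1) (nat_lit 0x4002000200089da982))) 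
(.lf (nat_lit 8635646) (dlOf (nat_lit 1) (nat_lit 0x400400020008512f02)))) 
(.lf (nat_lit 8116990) (dlOf (nat_lit 1) (nat_lit 0x800800100020008000851b983)))) (.nd (nat_lit 20) 
(.lf (nat_lit 1677967870) (dlOf (nat_lit 10) (nat_lit 0xc4021001b01000558044027c00e008e0060099801003c0000000680e016e04201320070050803003d0000000670801440420003020009b008804d001c012000c010a00200720000000cc1c031008400300400156011009e80380238018026600400de0010074000000084200280084025a00e0002082009b0210094008804b001c00e800c0113002005a8008038c0000003f0e0012051001c02100008c10018814400ac074000220400a8051004e01d000078100498008091c00204c40008127e03))) 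
(.lf (nat_lit 9683454) (dlOf (nat_lit 6) (nat_lit 0xf3f8000174080030f94000b8040060fe00006779000e1f2800108180099ff00084fe00002e0400127fc001c3f80000b410034800801b800200040008577e03))))))) 
(.nd (nat_lit 32) (.nd (nat_lit 27) (.nd (nat_lit 6) (.nd (nat_lit 9) 
(.lf (nat_lit 1342423102) (dlOf (nat_lit 2) (nat_lit 0xa21e40000d018020700))) 
(.lf (nat_lit 4026778174) (dlOf (nat_lit 2) (nat_lit 0x2300000000004004800200060008091082)))) 
(.nd (nat_lit 7) (.lf (nat_lit 3489909118) (dlOf (nat_lit 1) (nat_lit 0x800400020008004e82))) 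
(.lf (nat_lit 4026778110) (dlOf (nat_lit 1) (nat_lit 0x130008008000200100008090d83))))) 
(.nd (nat_lit 21) (.nd (nat_lit 26) (.nd (nat_lit 31) 
(.lf (nat_lit 939769918) (dlOf (nat_lit 1) (nat_lit 0x2000200020008170d82))) 
(.lf (nat_lit 3087253566) (dlOf (nat_lit 1) (nat_lit 0x28008000400200040008160703)))) 
(.lf (nat_lit 470007870) (dlOf (nat_lit 2) (nat_lit 0xa21e40000d818020700)))) (.nd (nat_lit 6) 
(.lf (nat_lit 1008976190) (dlOf (nat_lit 8) (nat_lit 0xa0640001f8100040320000f4080020190000680400080c80002a020002064000100100010320000300800084100000004000800400260019000b82))) 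
(.lf (nat_lit 1008975998) (dlOf (nat_lit 1) (nat_lit 0x1000200060009000282)))))) (.nd (nat_lit 6) 
(.nd (nat_lit 9) (.nd (nat_lit 27) 
(.lf (nat_lit 4563648574) (dlOf (nat_lit 6) (nat_lit 0x2c80cc002806400aa01e000100e8002582000380cc0010a0400c8068000750200020340003a01000101a0001cc0802e000800c8002009e00080b0483))) 
(.lf (nat_lit 4697866302) (dlOf (nat_lit 6) (nat_lit 0x2c80cc002806400aa01e000100e8002582000380cc0010a0400c8068000750200020340003a01000101a0001cc0802e000800c8002009e00080b0483)))) 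
(.nd (nat_lit 8) (.nd (nat_lit 26) 
(.lf (nat_lit 5234738750) (dlOf (nat_lit 1) (nat_lit 0xc004000600080d3782))) 
(.lf (nat_lit 5704500798) (dlOf (nat_lit 2) (nat_lit 0x120120000b0080010008000c002000200080d3783)))) 
(.lf (nat_lit 5100522302) (dlOf (nat_lit 1) (nat_lit 0xb0004000200180d5c02))))) (.nd (nat_lit 9) 
(.nd (nat_lit 26) (.lf (nat_lit 5234738430) (dlOf (nat_lit 1) (nat_lit 0x30004003400080d2f02))) 
(.lf (nat_lit 5704500478) (dlOf (nat_lit 1) (nat_lit 0x200280d2f01)))) (.nd (nat_lit 7) 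
(.lf (nat_lit 6308481662) (dlOf (nat_lit 1) (nat_lit 0x200280d5481))) 
(.lf (nat_lit 6377687806) (dlOf (nat_lit 1) (nat_lit 0x200080e5a81)))))))) (.nd (nat_lit 21) 
(.nd (nat_lit 8) (.nd (nat_lit 28) (.nd (nat_lit 22) (.nd (nat_lit 24) (.nd (nat_lit 10) 
(.nd (nat_lit 20) (.lf (nat_lit 1678229566) (dlOf (nat_lit 1) (nat_lit 0x60004001800181b0c82))) 
(.lf (nat_lit 35110974) (dlOf (nat_lit 1) (nat_lit 0x400400020008fd0602)))) 
(.lf (nat_lit 604488766) (dlOf (nat_lit 1) (nat_lit 0x700080110002001e00082d2883)))) 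
(.nd (nat_lit 6) (.lf (nat_lit 59752510) (dlOf (nat_lit 1) (nat_lit 0x60029820601))) 
(.lf (nat_lit 50839806) (dlOf (nat_lit 1) (nat_lit 0x4002000200094d2902))))) (.nd (nat_lit 24) 
(.nd (nat_lit 26) (.lf (nat_lit 4702270) (dlOf (nat_lit 1) (nat_lit 0x400080018002000a00082b0483))) 
(.lf (nat_lit 2756165694) (dlOf (nat_lit 1) (nat_lit 0xc0008211401)))) 
(.lf (nat_lit 21479486) (dlOf (nat_lit 1) (nat_lit 0x100028a40481))))) (.nd (nat_lit 27) 
(.nd (nat_lit 9) (.nd (nat_lit 29) 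
(.lf (nat_lit 2416427070) (dlOf (nat_lit 15) (nat_lit 0xba0090004cc0803d804801f002200fe010000990300020080004c4080010040002600403780200012e020028012000c00880049c1000f0048004802200126040022012000700880049010076804803b802201f001000f70078003803803cc01a001230c07b401203d900881eb803c0f7c01a00122080698012034c008819a803c0cd001a001210807b201203da00881ed003c0f6c01a0012008002a012000b00880047c1002f800c001d2040088002000200081d0c02))) 
(.lf (nat_lit 805814334) (dlOf (nat_lit 1) (nat_lit 0x60004001800181b0c82)))) 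
(.lf (nat_lit 1342685758) (dlOf (nat_lit 3) (nat_lit 0xa2470002a01000111b80001c0800c0008004000200b600080c1083)))) 
(.nd (nat_lit 6) (.nd (nat_lit 9) 
(.lf (nat_lit 2550644798) (dlOf (nat_lit 15) (nat_lit 0xba0090005000803d804801f002200fe0100009f8300020080004f80800100400027a0403780200013b020028012000c0088004d81000f004800480220013504002201200070088004cc10076804803b802201f001000f70078003803803cc01a001320c07b401203d900881eb803c0f7c01a00131080698012034c008819a803c0cd001a001300807b201203da00881ed003c0f6c01a0012f08002a012000b0088004b81002f800c001f4040088002000200081d0c02))) 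
(.lf (nat_lit 470270526) (dlOf (nat_lit 3) (nat_lit 0xa2470002681000111b80001c0800c0008004000200b600080c1083)))) 
(.lf (nat_lit 5772920062) (dlOf (nat_lit 1) (nat_lit 0x20028092f01)))))) (.nd (nat_lit 7) 
(.nd (nat_lit 26) (.nd (nat_lit 20) 
(.lf (nat_lit 5906088254) (dlOf (nat_lit 1) (nat_lit 0x600281a8501))) 
(.lf (nat_lit 1556798) (dlOf (nat_lit 1) (nat_lit 0x4002000200080f7d02)))) (.nd (nat_lit 6) 
(.lf (nat_lit 2886189374) (dlOf (nat_lit 14) (nat_lit 0x1320140002e8100b200a000170080060068000a804003003400053020054024002a00d0015005c01a802800051080060024003000b80380050000a00c004407c0004e02004c0140002601003700a0001280801c80500009004001807c0004502010c0140002101000a0050000e408054800800f4002009e0008188503))) 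
(.lf (nat_lit 470270334) (dlOf (nat_lit 1) (nat_lit 0x800080c0781))))) (.nd (nat_lit 25) 
(.nd (nat_lit 6) (.nd (nat_lit 26) 
(.lf (nat_lit 1342685630) (dlOf (nat_lit 4) (nat_lit 0x7f04a001982040009408003c128000490200ec094000208180c0880))) 
(.lf (nat_lit 470270398) (dlOf (nat_lit 4) (nat_lit 0x7f04a001982040009408003c128000490200ec094000208180c0880)))) 
(.lf (nat_lit 2752496126) (dlOf (nat_lit 3) (nat_lit 0x11222800201130000b81000208600005a040078004001e0008017e02)))) 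
(.nd (nat_lit 20) 
(.lf (nat_lit 50839998) (dlOf (nat_lit 1) (nat_lit 0x40008001c002001800094d7a83))) 
(.lf (nat_lit 43499966) (dlOf (nat_lit 1) (nat_lit 0x100080020002000600092a1083))))))) 
(.nd (nat_lit 19) (.nd (nat_lit 7) (.nd (nat_lit 20) (.nd (nat_lit 22) 
(.lf (nat_lit 2605118) (dlOf (nat_lit 1) (nat_lit 0x2c00400120008170c02))) 
(.lf (nat_lit 48742462) (dlOf (nat_lit 1) (nat_lit 0x1800400060009420602)))) 
(.lf (nat_lit 24625214) (dlOf (nat_lit 1) (nat_lit 0x62400402380008ba0c02)))) (.nd (nat_lit 6) 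
(.nd (nat_lit 8) (.lf (nat_lit 1344782526) (dlOf (nat_lit 1) (nat_lit 0x1c00400060008980782))) 
(.lf (nat_lit 473418174) (dlOf (nat_lit 1) (nat_lit 0x4000400300008f54e82)))) 
(.lf (nat_lit 49793790) (dlOf (nat_lit 1) (nat_lit 0x4002000200094c5a82))))) (.nd (nat_lit 24) 
(.nd (nat_lit 6) (.nd (nat_lit 23) 
(.lf (nat_lit 473940030) (dlOf (nat_lit 12) (nat_lit 0x92160065206c8313036000dc138008a08d002d046001d01f400e80f8002491003e20d9003e06c000920100850580018429a0e140d9075806c007f8270043811a016a08c010303e808181f00048e2401d01b2018c0d80012282003204d0008fc0800282680047c0404e41b2001f3020c3c0d90006046800081f4003e00c00ec1b2001ef02001615d000e38100030ae8006f40803f00080684002003c0008fc0603))) 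
(.lf (nat_lit 12566590) (dlOf (nat_lit 2) (nat_lit 0xe000000058186d0c80)))) 
(.lf (nat_lit 8377598) (dlOf (nat_lit 1) (nat_lit 0x70008002800200040008519583)))) (.nd (nat_lit 6) 
(.nd (nat_lit 8) 
(.lf (nat_lit 25149502) (dlOf (nat_lit 2) (nat_lit 0x2d76001a6948075347c0009c0c000400200080008be1402))) 
(.lf (nat_lit 19909438) (dlOf (nat_lit 1) (nat_lit 0x4002000200089d5c02)))) 
(.lf (nat_lit 19911294) (dlOf (nat_lit 1) (nat_lit 0x200289d8a81)))))))))))

end

end Pool.Agent.Lib.MP_5854e1_co.Cz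

namespace Pool.Agent.Lib.MP_5854e1_co.Cz

noncomputable section

noncomputable def tz216 : DT := (.nd (nat_lit 18) (.nd (nat_lit 3) (.nd (nat_lit 15) 
(.nd (nat_lit 26) (.nd (nat_lit 5) (.nd (nat_lit 10) (.nd (nat_lit 28) (.nd (nat_lit 23) 
(.nd (nat_lit 21) (.nd (nat_lit 6) (.nd (nat_lit 20) 
(.lf (nat_lit 2819121170) (dlOf (nat_lit 2) (nat_lit 0x7406c0000002000400181a0481))) 
(.lf (nat_lit 5791762) (dlOf (nat_lit 3) (nat_lit 0x209a80002f8100034d400350000000bc080004004001200083e0202)))) 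
(.lf (nat_lit 4743250) (dlOf (nat_lit 1) (nat_lit 0x4004000200082b0782)))) (.nd (nat_lit 19) 
(.lf (nat_lit 23093266) (dlOf (nat_lit 1) (nat_lit 0xc0008b50181))) 
(.lf (nat_lit 2646034) (dlOf (nat_lit 3) (nat_lit 0x43e2000660200160bd000b00a80020000000000c000c00200320008180182))))) 
(.nd (nat_lit 19) (.nd (nat_lit 6) 
(.lf (nat_lit 26238994) (dlOf (nat_lit 1) (nat_lit 0x800400020018c20302))) 
(.lf (nat_lit 30433362) (dlOf (nat_lit 11) (nat_lit 0x230c80004402001186400021810006c3200010408001e190000800400230c80003e0200038640001e810008c320000f008002619000270c4000370400178640001a810006c32000000080008008000c00200020008e30283)))) 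
(.nd (nat_lit 8) (.nd (nat_lit 20) 
(.lf (nat_lit 15228946) (dlOf (nat_lit 1) (nat_lit 0x200287c0481))) 
(.lf (nat_lit 45637650) (dlOf (nat_lit 1) (nat_lit 0x400400020019340082)))) 
(.lf (nat_lit 46689042) (dlOf (nat_lit 1) (nat_lit 0x400400020009385b82)))))) (.nd (nat_lit 9) 
(.nd (nat_lit 11) (.nd (nat_lit 6) (.nd (nat_lit 29) 
(.lf (nat_lit 3492306962) (dlOf (nat_lit 1) (nat_lit 0x280080004002003c00080c0a03))) 
(.lf (nat_lit 1881694226) (dlOf (nat_lit 1) (nat_lit 0x20018fe0001)))) 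
(.lf (nat_lit 3493355602) (dlOf (nat_lit 5) (nat_lit 0x9081c0005804005040e0002b02002020700020840000a810005081c0005204000c004001c0018121002)))) 
(.nd (nat_lit 6) (.nd (nat_lit 27) 
(.lf (nat_lit 1342208274) (dlOf (nat_lit 1) (nat_lit 0x200040010000800aa82))) 
(.lf (nat_lit 1476426002) (dlOf (nat_lit 1) (nat_lit 0x300040002000800aa82)))) 
(.lf (nat_lit 3623909458) (dlOf (nat_lit 1) (nat_lit 0x800800080020004000800a703))))) 
(.nd (nat_lit 7) (.nd (nat_lit 11) 
(.lf (nat_lit 1345872402) (dlOf (nat_lit 4) (nat_lit 0x1c22a000c1140003402000508a8001980800084540000004017c004000e0008e07c02))) 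
(.lf (nat_lit 5774010898) (dlOf (nat_lit 1) (nat_lit 0x4004000200080e5082)))) (.nd (nat_lit 6) 
(.nd (nat_lit 27) (.lf (nat_lit 1342206610) (dlOf (nat_lit 1) (nat_lit 0x20018008c81))) 
(.lf (nat_lit 1476424338) (dlOf (nat_lit 1) (nat_lit 0x20028008c81)))) 
(.lf (nat_lit 2952821714) (dlOf (nat_lit 5) (nat_lit 0x1403c01bc018019f0098053003c0098e100020026004c302036c01a00bf0098012c81004e804c0000004015c0040018000800bf02))))))) 
(.nd (nat_lit 6) (.nd (nat_lit 7) (.nd (nat_lit 24) (.nd (nat_lit 8) 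
(.lf (nat_lit 1342205458) (dlOf (nat_lit 3) (nat_lit 0xa1130000dc0800508dc0006c04004c00400240008007082))) 
(.lf (nat_lit 3355473170) (dlOf (nat_lit 2) (nat_lit 0x94032005700180250000000f20c0018004001e0018009682)))) 
(.nd (nat_lit 19) 
(.lf (nat_lit 54553618) (dlOf (nat_lit 2) (nat_lit 0x10ae9800853fc00429000020102001001e8000b4280018008000c00200020009655f83))) 
(.lf (nat_lit 60320786) (dlOf (nat_lit 1) (nat_lit 0x260019845f81))))) (.nd (nat_lit 9) 
(.nd (nat_lit 8) (.lf (nat_lit 134249618) (dlOf (nat_lit 1) (nat_lit 0x800801b00020002000800c203))) 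
(.lf (nat_lit 61891986) (dlOf (nat_lit 2) (nat_lit 0x1abbc0044c04000400400400019923602)))) 
(.nd (nat_lit 27) (.lf (nat_lit 4026558098) (dlOf (nat_lit 1) (nat_lit 0x20018003a81))) 
(.lf (nat_lit 6576694930) (dlOf (nat_lit 1) (nat_lit 0x20018003a81)))))) (.nd (nat_lit 9) 
(.nd (nat_lit 8) 
(.lf (nat_lit 61891794) (dlOf (nat_lit 2) (nat_lit 0x45770000ec080108008002800200240009922d83))) 
(.nd (nat_lit 19) (.lf (nat_lit 8418770) (dlOf (nat_lit 1) (nat_lit 0x400400020008519b02))) 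
(.lf (nat_lit 8943058) (dlOf (nat_lit 2) (nat_lit 0x52530001a0080008008001000200020008519b03))))) 
(.nd (nat_lit 7) 
(.lf (nat_lit 536897362) (dlOf (nat_lit 2) (nat_lit 0x3c062000300200040018003f01))) 
(.nd (nat_lit 8) (.lf (nat_lit 28370) (dlOf (nat_lit 1) (nat_lit 0x20028007381))) 
(.lf (nat_lit 3623909330) (dlOf (nat_lit 1) (nat_lit 0x800800100020008000800a603)))))))) 
(.nd (nat_lit 6) (.nd (nat_lit 10) (.nd (nat_lit 21) (.nd (nat_lit 8) (.nd (nat_lit 7) 
(.lf (nat_lit 3221774386) (dlOf (nat_lit 2) (nat_lit 0x6800000007818180a00))) 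
(.lf (nat_lit 47210674) (dlOf (nat_lit 1) (nat_lit 0xa00293b1681)))) (.nd (nat_lit 19) 
(.lf (nat_lit 5771387186) (dlOf (nat_lit 1) (nat_lit 0x20018000b01))) 
(.lf (nat_lit 17326386) (dlOf (nat_lit 1) (nat_lit 0x4004000200088e0702))))) (.nd (nat_lit 9) 
(.nd (nat_lit 19) (.nd (nat_lit 20) 
(.lf (nat_lit 14704690) (dlOf (nat_lit 2) (nat_lit 0x1843f000e3818770480))) 
(.lf (nat_lit 28336178) (dlOf (nat_lit 3) (nat_lit 0x75b080028c2c000c4c380016c18013b6100006e04000400400220018d80802)))) 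
(.lf (nat_lit 11034674) (dlOf (nat_lit 1) (nat_lit 0x8008000400200020008660e03)))) 
(.nd (nat_lit 20) 
(.lf (nat_lit 56650290) (dlOf (nat_lit 1) (nat_lit 0xa0008004800200240009735183))) 
(.lf (nat_lit 1345350194) (dlOf (nat_lit 1) (nat_lit 0x760018b55181)))))) (.nd (nat_lit 28) 
(.nd (nat_lit 23) (.nd (nat_lit 9) (.nd (nat_lit 21) 
(.lf (nat_lit 4831863858) (dlOf (nat_lit 1) (nat_lit 0x60018002881))) 
(.lf (nat_lit 56648754) (dlOf (nat_lit 1) (nat_lit 0x88008004c00200220009732883)))) 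
(.lf (nat_lit 5502953010) (dlOf (nat_lit 3) (nat_lit 0x8004c003402000027040020013000800800010038000120c014400400220008003782)))) 
(.nd (nat_lit 8) (.lf (nat_lit 43541554) (dlOf (nat_lit 1) (nat_lit 0x200292a2881))) 
(.lf (nat_lit 8418610) (dlOf (nat_lit 1) (nat_lit 0x10008001000200060008519883))))) 
(.nd (nat_lit 11) (.lf (nat_lit 5100299314) (dlOf (nat_lit 1) (nat_lit 0xa0018002881))) 
(.nd (nat_lit 12) (.lf (nat_lit 2550164530) (dlOf (nat_lit 1) (nat_lit 0xa0018006081))) 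
(.lf (nat_lit 2952821810) (dlOf (nat_lit 2) (nat_lit 0x3a0130026181800bf00))))))) (.nd (nat_lit 8) 
(.nd (nat_lit 7) (.nd (nat_lit 11) 
(.lf (nat_lit 3493879922) (dlOf (nat_lit 4) (nat_lit 0x50034c02280ea00d2012002f0000009202009d834c051417001ae075013b0090007e820009034c00401700018075000d0090007e02000380080010002001a00081b0083))) 
(.lf (nat_lit 4429211762) (dlOf (nat_lit 1) (nat_lit 0x20018004781)))) (.nd (nat_lit 10) 
(.nd (nat_lit 19) (.lf (nat_lit 7364850) (dlOf (nat_lit 1) (nat_lit 0x20004000200084b0602))) 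
(.lf (nat_lit 1342726386) (dlOf (nat_lit 2) (nat_lit 0x82a80002151000f98280c0480)))) 
(.lf (nat_lit 27890) (dlOf (nat_lit 1) (nat_lit 0x20028006581))))) (.nd (nat_lit 11) 
(.nd (nat_lit 10) (.nd (nat_lit 20) 
(.lf (nat_lit 1476944370) (dlOf (nat_lit 2) (nat_lit 0x1c07a0012034000801500040080001c018000e0090008000000740380008008000c00200060008307403))) 
(.lf (nat_lit 58221042) (dlOf (nat_lit 4) (nat_lit 0x62bbc0037e0400195de00194020024af9000357c0001381000f000803f4002000200097c7403)))) 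
(.lf (nat_lit 43542002) (dlOf (nat_lit 1) (nat_lit 0x2000192a3601)))) (.nd (nat_lit 7) 
(.lf (nat_lit 37251442) (dlOf (nat_lit 1) (nat_lit 0x4002008e00090d4e82))) 
(.lf (nat_lit 1345350130) (dlOf (nat_lit 1) (nat_lit 0x320018b54f01)))))))) (.nd (nat_lit 5) 
(.nd (nat_lit 7) (.nd (nat_lit 30) (.nd (nat_lit 6) (.nd (nat_lit 8) (.nd (nat_lit 19) 
(.lf (nat_lit 473980946) (dlOf (nat_lit 1) (nat_lit 0x60008ff0381))) 
(.lf (nat_lit 4362625042) (dlOf (nat_lit 1) (nat_lit 0x208002007600080b0582)))) 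
(.lf (nat_lit 2617275666) (dlOf (nat_lit 2) (nat_lit 0x9a02f0003c818009680)))) (.nd (nat_lit 12) 
(.nd (nat_lit 10) 
(.lf (nat_lit 2755158098) (dlOf (nat_lit 5) (nat_lit 0x908700005a0400504380002c02002021c00020810000ac1000508700005404000c004001c0018121002))) 
(.lf (nat_lit 201352274) (dlOf (nat_lit 1) (nat_lit 0x1800400080018002882)))) (.nd (nat_lit 8) 
(.lf (nat_lit 469791314) (dlOf (nat_lit 1) (nat_lit 0x800200160008008982))) 
(.lf (nat_lit 2752018770) (dlOf (nat_lit 1) (nat_lit 0x16001800ab81)))))) (.nd (nat_lit 8) 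
(.nd (nat_lit 27) (.nd (nat_lit 6) 
(.lf (nat_lit 3557318674) (dlOf (nat_lit 1) (nat_lit 0x4004000200181c0482))) 
(.lf (nat_lit 4094713938) (dlOf (nat_lit 1) (nat_lit 0x400400020008050002)))) (.nd (nat_lit 9) 
(.lf (nat_lit 4228407314) (dlOf (nat_lit 1) (nat_lit 0x208002007600080b0582))) 
(.lf (nat_lit 6377990674) (dlOf (nat_lit 1) (nat_lit 0x18004000400080e5082))))) (.nd (nat_lit 9) 
(.lf (nat_lit 3691018514) (dlOf (nat_lit 7) (nat_lit 0x3ac03600040140002a0200f300d800e0050000a608001002800051020008014000280100d100d8001140800500500007204002c0040038000800aa82))) 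
(.nd (nat_lit 10) (.lf (nat_lit 1275095826) (dlOf (nat_lit 1) (nat_lit 0x560018005b81))) 
(.lf (nat_lit 3691015954) (dlOf (nat_lit 3) (nat_lit 0x300e800fcc080018074007e4040168004001e0008007482))))))) 
(.nd (nat_lit 6) (.nd (nat_lit 9) (.nd (nat_lit 8) (.nd (nat_lit 10) 
(.lf (nat_lit 4362102930) (dlOf (nat_lit 1) (nat_lit 0x4f800401ee0008004802))) 
(.lf (nat_lit 472933522) (dlOf (nat_lit 1) (nat_lit 0x60018b52b81)))) (.nd (nat_lit 28) 
(.lf (nat_lit 3288361362) (dlOf (nat_lit 1) (nat_lit 0x40028004e81))) 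
(.lf (nat_lit 1946184082) (dlOf (nat_lit 1) (nat_lit 0x170008002800200380008004e83))))) 
(.nd (nat_lit 12) (.nd (nat_lit 8) 
(.lf (nat_lit 5838497426) (dlOf (nat_lit 1) (nat_lit 0x20018003a81))) 
(.lf (nat_lit 604008338) (dlOf (nat_lit 1) (nat_lit 0x400200020008007782)))) (.nd (nat_lit 10) 
(.lf (nat_lit 3691016850) (dlOf (nat_lit 4) (nat_lit 0x140150023481000d00a8011a0080280054008c604003000200420008008c82))) 
(.lf (nat_lit 2617276050) (dlOf (nat_lit 8) (nat_lit 0x28006000180100140030000bc0800c00180005c04005000c0002d020026006000028100140030000080800900180000004003400400020018009e82)))))) 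
(.nd (nat_lit 8) (.nd (nat_lit 10) 
(.lf (nat_lit 3691018450) (dlOf (nat_lit 2) (nat_lit 0x660140052c01800a880))) (.nd (nat_lit 11) 
(.lf (nat_lit 5435843794) (dlOf (nat_lit 2) (nat_lit 0x100c00007604002000400020008002d82))) 
(.lf (nat_lit 1409314002) (dlOf (nat_lit 1) (nat_lit 0x400400060018006402))))) (.nd (nat_lit 12) 
(.nd (nat_lit 28) 
(.lf (nat_lit 1275096018) (dlOf (nat_lit 2) (nat_lit 0xc000000050200040008005d81))) 
(.lf (nat_lit 2080402386) (dlOf (nat_lit 2) (nat_lit 0x60110000a018005d80)))) (.nd (nat_lit 27) 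
(.lf (nat_lit 604011474) (dlOf (nat_lit 4) (nat_lit 0xa2018005100b00288038027800e004c708008a01600410038012c8100110000000000400fc0040028000800bf02))) 
(.lf (nat_lit 469793746) (dlOf (nat_lit 2) (nat_lit 0x804e8025823800964080018004000c000800bf02)))))))) 
(.nd (nat_lit 6) (.nd (nat_lit 27) (.nd (nat_lit 9) (.nd (nat_lit 11) (.nd (nat_lit 10) 
(.lf (nat_lit 2754109490) (dlOf (nat_lit 2) (nat_lit 0xb441e0002d02000400180c0f81))) 
(.lf (nat_lit 3556795442) (dlOf (nat_lit 2) (nat_lit 0x1000a00040030016000001c14180038008000800200060008002883)))) 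
(.nd (nat_lit 7) (.lf (nat_lit 3288362034) (dlOf (nat_lit 1) (nat_lit 0x20018006081))) 
(.lf (nat_lit 3288362162) (dlOf (nat_lit 1) (nat_lit 0x140018006281))))) (.nd (nat_lit 10) 
(.lf (nat_lit 4094716466) (dlOf (nat_lit 1) (nat_lit 0x10008000800200020008055183))) 
(.nd (nat_lit 11) 
(.lf (nat_lit 4630537778) (dlOf (nat_lit 2) (nat_lit 0x200b000380500005c080050004000a0008003782))) 
(.lf (nat_lit 2754637362) (dlOf (nat_lit 1) (nat_lit 0x600280f7181)))))) (.nd (nat_lit 10) 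
(.nd (nat_lit 8) (.nd (nat_lit 9) 
(.lf (nat_lit 3959971890) (dlOf (nat_lit 2) (nat_lit 0x6800000012018180a00))) 
(.lf (nat_lit 472410674) (dlOf (nat_lit 2) (nat_lit 0xc29a000607c00045828985180)))) 
(.lf (nat_lit 469793074) (dlOf (nat_lit 2) (nat_lit 0x3a1130019f00806180080008002005e000800ab83)))) 
(.nd (nat_lit 32) (.nd (nat_lit 7) 
(.lf (nat_lit 3154142258) (dlOf (nat_lit 1) (nat_lit 0x8008000400200020008002883))) 
(.lf (nat_lit 738223538) (dlOf (nat_lit 1) (nat_lit 0x94004000c0008003602)))) (.nd (nat_lit 9) 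
(.lf (nat_lit 4496319538) (dlOf (nat_lit 1) (nat_lit 0x60018002881))) 
(.lf (nat_lit 6106932786) (dlOf (nat_lit 5) (nat_lit 0x30016001100a800480140003c0c002c02c002c0140000e02000f00a00006c080028010000060400a8004001e0018003782))))))) 
(.nd (nat_lit 8) (.nd (nat_lit 28) (.nd (nat_lit 7) 
(.lf (nat_lit 2755682418) (dlOf (nat_lit 9) (nat_lit 0x430424020c1fa01160aa809184e0004681005bc4240328155000c09c0008c4180fe084807ec3f40412155020c09c0008c0200bb884805f43f4030c155018709c0008bc200b7884806602aa0022e04018e212010b0aa8008b410014884800a43f4000e154000f4030001109000107e800642a8001e606000400181b0081))) 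
(.nd (nat_lit 9) (.lf (nat_lit 5972716786) (dlOf (nat_lit 1) (nat_lit 0x40018006581))) 
(.lf (nat_lit 201352946) (dlOf (nat_lit 1) (nat_lit 0x18008001800200020008003b83))))) 
(.nd (nat_lit 7) (.lf (nat_lit 474505330) (dlOf (nat_lit 1) (nat_lit 0x400400020009192502))) 
(.nd (nat_lit 9) (.lf (nat_lit 470311154) (dlOf (nat_lit 2) (nat_lit 0x82a80002151000f90280c0480))) 
(.lf (nat_lit 3691016946) (dlOf (nat_lit 1) (nat_lit 0x10004000e0018008f02)))))) (.nd (nat_lit 7) 
(.nd (nat_lit 9) (.nd (nat_lit 12) 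
(.lf (nat_lit 1946184050) (dlOf (nat_lit 1) (nat_lit 0x8008000400200020008004e83))) 
(.lf (nat_lit 201357682) (dlOf (nat_lit 1) (nat_lit 0xa000800ad01)))) 
(.lf (nat_lit 6643807090) (dlOf (nat_lit 2) (nat_lit 0x200400577018008f80)))) (.nd (nat_lit 9) 
(.lf (nat_lit 470311410) (dlOf (nat_lit 4) (nat_lit 0xd0aa000818080068550004060400342a80020202000200080c0d81))) 
(.nd (nat_lit 28) (.lf (nat_lit 6509585394) (dlOf (nat_lit 1) (nat_lit 0x80028002881))) 
(.lf (nat_lit 5167408114) (dlOf (nat_lit 1) (nat_lit 0x220008002881)))))))))) (.nd (nat_lit 5) 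
(.nd (nat_lit 6) (.nd (nat_lit 28) (.nd (nat_lit 9) (.nd (nat_lit 19) (.nd (nat_lit 10) 
(.nd (nat_lit 20) (.lf (nat_lit 21028882) (dlOf (nat_lit 1) (nat_lit 0x400200020008a00482))) 
(.lf (nat_lit 15786002) (dlOf (nat_lit 2) (nat_lit 0xc37e80017c080048008004000200060008830203)))) 
(.nd (nat_lit 7) (.nd (nat_lit 27) 
(.lf (nat_lit 1073800210) (dlOf (nat_lit 1) (nat_lit 0x400400020008002882))) 
(.lf (nat_lit 5502985234) (dlOf (nat_lit 2) (nat_lit 0x804000e86040050004001e0008002882)))) 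
(.lf (nat_lit 8451218) (dlOf (nat_lit 1) (nat_lit 0x6a0018519501))))) (.nd (nat_lit 20) 
(.nd (nat_lit 21) (.nd (nat_lit 26) 
(.lf (nat_lit 2819153938) (dlOf (nat_lit 1) (nat_lit 0x800181b0201))) 
(.lf (nat_lit 4362657810) (dlOf (nat_lit 2) (nat_lit 0x6009e0002c02000600280c0181)))) 
(.nd (nat_lit 7) (.lf (nat_lit 15261714) (dlOf (nat_lit 1) (nat_lit 0x80080004002000200087c0483))) 
(.lf (nat_lit 57207186) (dlOf (nat_lit 1) (nat_lit 0x20009794e81))))) (.nd (nat_lit 22) 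
(.nd (nat_lit 23) (.lf (nat_lit 18407442) (dlOf (nat_lit 1) (nat_lit 0x400400020008930202))) 
(.lf (nat_lit 10018834) (dlOf (nat_lit 1) (nat_lit 0x800085a0a01)))) 
(.lf (nat_lit 5824530) (dlOf (nat_lit 2) (nat_lit 0x280000002f8183e0200)))))) (.nd (nat_lit 7) 
(.nd (nat_lit 11) (.nd (nat_lit 27) 
(.lf (nat_lit 3825263122) (dlOf (nat_lit 1) (nat_lit 0x8002000200080b0d82))) 
(.lf (nat_lit 1811997202) (dlOf (nat_lit 1) (nat_lit 0x800080b0d81)))) (.nd (nat_lit 8) 
(.lf (nat_lit 2348874258) (dlOf (nat_lit 2) (nat_lit 0x18040016f20400180040004000800b282))) 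
(.lf (nat_lit 4831898386) (dlOf (nat_lit 1) (nat_lit 0x20028055b81))))) (.nd (nat_lit 20) 
(.nd (nat_lit 23) 
(.lf (nat_lit 2348869266) (dlOf (nat_lit 1) (nat_lit 0xf8008018400200740008003a83))) 
(.lf (nat_lit 8447634) (dlOf (nat_lit 1) (nat_lit 0x100028513a81)))) (.nd (nat_lit 11) 
(.lf (nat_lit 20510354) (dlOf (nat_lit 1) (nat_lit 0xe8004005e00189d9e82))) 
(.lf (nat_lit 19984018) (dlOf (nat_lit 1) (nat_lit 0x4c00189d7201))))))) (.nd (nat_lit 8) 
(.nd (nat_lit 7) (.nd (nat_lit 9) (.nd (nat_lit 19) 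
(.lf (nat_lit 1343283218) (dlOf (nat_lit 2) (nat_lit 0x7a204017d0d68017d4100970008039c002024400081e0483))) 
(.lf (nat_lit 3557351442) (dlOf (nat_lit 1) (nat_lit 0x200281c0481)))) (.nd (nat_lit 26) 
(.lf (nat_lit 4563461650) (dlOf (nat_lit 1) (nat_lit 0x1ac0028003701))) 
(.lf (nat_lit 335603218) (dlOf (nat_lit 1) (nat_lit 0x20028003701))))) (.nd (nat_lit 27) 
(.nd (nat_lit 21) (.lf (nat_lit 268493970) (dlOf (nat_lit 1) (nat_lit 0x400400020008052b82))) 
(.lf (nat_lit 4095796370) (dlOf (nat_lit 1) (nat_lit 0x80080008002000200080e2b83)))) 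
(.nd (nat_lit 10) 
(.lf (nat_lit 469821586) (dlOf (nat_lit 1) (nat_lit 0x8008000c00200060008004803))) 
(.lf (nat_lit 2080433298) (dlOf (nat_lit 1) (nat_lit 0x64004001c0018092b82)))))) (.nd (nat_lit 9) 
(.nd (nat_lit 7) (.nd (nat_lit 11) 
(.lf (nat_lit 469823762) (dlOf (nat_lit 1) (nat_lit 0xe0028008081))) 
(.lf (nat_lit 1342241042) (dlOf (nat_lit 5) (nat_lit 0x90b080040274003011c0004e060010161000604e800202380009a0c00102c200020be000504e800482380008a1000182c2000c09d00050470000f418003000800300020008000800aa83)))) 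
(.nd (nat_lit 12) 
(.lf (nat_lit 5234551186) (dlOf (nat_lit 1) (nat_lit 0xa0008006400200380008054e83))) 
(.lf (nat_lit 1342241170) (dlOf (nat_lit 1) (nat_lit 0x80040004001800af82))))) (.nd (nat_lit 26) 
(.nd (nat_lit 27) (.lf (nat_lit 6174075666) (dlOf (nat_lit 1) (nat_lit 0x20028055b81))) 
(.lf (nat_lit 5234551570) (dlOf (nat_lit 1) (nat_lit 0x400400020008055b82)))) 
(.lf (nat_lit 5704313618) (dlOf (nat_lit 1) (nat_lit 0x400400020008055b82))))))) (.nd (nat_lit 7) 
(.nd (nat_lit 19) (.nd (nat_lit 24) (.nd (nat_lit 10) (.nd (nat_lit 27) 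
(.lf (nat_lit 2147541074) (dlOf (nat_lit 1) (nat_lit 0x400400020008090002))) 
(.lf (nat_lit 1208016978) (dlOf (nat_lit 1) (nat_lit 0x400400020008090002)))) (.nd (nat_lit 8) 
(.lf (nat_lit 1140909650) (dlOf (nat_lit 1) (nat_lit 0x37000800a4002003c0008003883))) 
(.lf (nat_lit 4093699410) (dlOf (nat_lit 1) (nat_lit 0x20008003301))))) (.nd (nat_lit 8) 
(.nd (nat_lit 20) 
(.lf (nat_lit 25223250) (dlOf (nat_lit 2) (nat_lit 0x1680000006604000400400020018bf0d82))) 
(.lf (nat_lit 26271826) (dlOf (nat_lit 1) (nat_lit 0x30000200b00008c30782)))) 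
(.lf (nat_lit 19981138) (dlOf (nat_lit 1) (nat_lit 0x100080010002000800089d2503))))) 
(.nd (nat_lit 8) (.nd (nat_lit 21) (.nd (nat_lit 10) 
(.lf (nat_lit 201908306) (dlOf (nat_lit 2) (nat_lit 0x1203c0001a0180c1900))) 
(.lf (nat_lit 8975442) (dlOf (nat_lit 1) (nat_lit 0xe0028519301)))) (.nd (nat_lit 20) 
(.lf (nat_lit 4096319570) (dlOf (nat_lit 1) (nat_lit 0x4004000200080f1702))) 
(.lf (nat_lit 28893266) (dlOf (nat_lit 1) (nat_lit 0x8008000400200020008da0283))))) 
(.nd (nat_lit 20) (.lf (nat_lit 25747794) (dlOf (nat_lit 1) (nat_lit 0x8008000400200020008c10883))) 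
(.lf (nat_lit 14213458) (dlOf (nat_lit 1) (nat_lit 0x20028750881)))))) (.nd (nat_lit 8) 
(.nd (nat_lit 26) (.nd (nat_lit 29) 
(.lf (nat_lit 5502985426) (dlOf (nat_lit 2) (nat_lit 0x240120034007800000100020008017000200020008002d83))) 
(.lf (nat_lit 4966114514) (dlOf (nat_lit 1) (nat_lit 0x8008001000200020008002d83)))) 
(.nd (nat_lit 11) (.nd (nat_lit 28) 
(.lf (nat_lit 5435876562) (dlOf (nat_lit 3) (nat_lit 0x980e4000940400040200003f0200480028002d81))) 
(.lf (nat_lit 335602898) (dlOf (nat_lit 1) (nat_lit 0x760028002d81)))) 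
(.lf (nat_lit 1409346770) (dlOf (nat_lit 2) (nat_lit 0x205900002018006400))))) (.nd (nat_lit 9) 
(.nd (nat_lit 10) 
(.lf (nat_lit 2080432594) (dlOf (nat_lit 2) (nat_lit 0x14014800000080018008006400200060008091183))) 
(.nd (nat_lit 19) (.lf (nat_lit 8451538) (dlOf (nat_lit 1) (nat_lit 0x20018519b01))) 
(.lf (nat_lit 8975826) (dlOf (nat_lit 2) (nat_lit 0x24c60000e818519b00))))) (.nd (nat_lit 12) 
(.lf (nat_lit 5771422674) (dlOf (nat_lit 2) (nat_lit 0x214300000018005d80))) 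
(.lf (nat_lit 469826514) (dlOf (nat_lit 2) (nat_lit 0x142c200080bd000604e800502380096410000c0020008000800bf02)))))))) 
(.nd (nat_lit 27) (.nd (nat_lit 21) (.nd (nat_lit 7) (.nd (nat_lit 19) (.nd (nat_lit 30) 
(.nd (nat_lit 8) (.lf (nat_lit 6442508338) (dlOf (nat_lit 1) (nat_lit 0x180018090001))) 
(.lf (nat_lit 8451378) (dlOf (nat_lit 1) (nat_lit 0x8002000c0008519882)))) (.nd (nat_lit 6) 
(.lf (nat_lit 5972746290) (dlOf (nat_lit 1) (nat_lit 0x1a00180b0001))) 
(.lf (nat_lit 3493912690) (dlOf (nat_lit 5) (nat_lit 0x2e03ea00ee1c200460000009201800107d40020384002470400e020f002d0f9800286ac003f40c003441e001f802002200281b0081))))) 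
(.nd (nat_lit 8) (.nd (nat_lit 20) (.nd (nat_lit 22) 
(.lf (nat_lit 1611194418) (dlOf (nat_lit 1) (nat_lit 0x400400020008110602))) 
(.lf (nat_lit 21553202) (dlOf (nat_lit 2) (nat_lit 0x283cc00017818a40380)))) 
(.lf (nat_lit 26796082) (dlOf (nat_lit 8) (nat_lit 0x637f00079b1c003cd52000966d00010420008b7f00099b1c004cd52000d66d00010020008b7f00075b1c0044d52000c66d0000f82000737f0007db1c0042d52001666d0000f42001036380071aa40003704000adfc00226c70014b5480006c0c003dbf80014d8e001a6a900000018016800800a0002001e0008c70983)))) 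
(.lf (nat_lit 17359154) (dlOf (nat_lit 1) (nat_lit 0x1000188e0701))))) (.nd (nat_lit 6) 
(.nd (nat_lit 8) (.lf (nat_lit 8452274) (dlOf (nat_lit 1) (nat_lit 0x8000851a881))) 
(.lf (nat_lit 5704313778) (dlOf (nat_lit 1) (nat_lit 0x280008055d01)))) (.nd (nat_lit 20) 
(.lf (nat_lit 2147541234) (dlOf (nat_lit 1) (nat_lit 0x20028090a81))) 
(.lf (nat_lit 30466290) (dlOf (nat_lit 1) (nat_lit 0x400400020008e30602)))))) (.nd (nat_lit 22) 
(.nd (nat_lit 19) (.nd (nat_lit 6) (.nd (nat_lit 7) 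
(.lf (nat_lit 19984178) (dlOf (nat_lit 1) (nat_lit 0x4002000200089d7482))) 
(.lf (nat_lit 11592114) (dlOf (nat_lit 3) (nat_lit 0x1343a00ce3020037a1d006710186c0780)))) 
(.lf (nat_lit 11592050) (dlOf (nat_lit 2) (nat_lit 0x5d0e806e64080008008000c002000600086c0783)))) 
(.nd (nat_lit 6) (.nd (nat_lit 10) 
(.lf (nat_lit 2754142258) (dlOf (nat_lit 1) (nat_lit 0x8002000600080c0f82))) 
(.lf (nat_lit 1344857138) (dlOf (nat_lit 1) (nat_lit 0x20018982881)))) 
(.lf (nat_lit 44624242) (dlOf (nat_lit 1) (nat_lit 0x40019324e81))))) (.nd (nat_lit 6) 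
(.nd (nat_lit 7) (.nd (nat_lit 19) 
(.lf (nat_lit 14737458) (dlOf (nat_lit 2) (nat_lit 0x133f78003d0080028008001400200120008770483))) 
(.lf (nat_lit 15261746) (dlOf (nat_lit 1) (nat_lit 0x400087c0781)))) 
(.lf (nat_lit 57207218) (dlOf (nat_lit 1) (nat_lit 0xe0029794e81)))) (.nd (nat_lit 7) 
(.lf (nat_lit 57207154) (dlOf (nat_lit 1) (nat_lit 0xc0029794e81))) (.nd (nat_lit 8) 
(.lf (nat_lit 49867506) (dlOf (nat_lit 2) (nat_lit 0x24e50000400800680080040002001000094c5a03))) 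
(.lf (nat_lit 31515634) (dlOf (nat_lit 1) (nat_lit 0x3800801e800200140008e92883)))))))) 
(.nd (nat_lit 26) (.nd (nat_lit 7) (.nd (nat_lit 6) (.nd (nat_lit 8) (.nd (nat_lit 10) 
(.lf (nat_lit 2013325874) (dlOf (nat_lit 3) (nat_lit 0x200680079c080098094002b804001800400360018005182))) 
(.lf (nat_lit 6308292146) (dlOf (nat_lit 5) (nat_lit 0x1400c800e0058000c0160002c06002e019000c0058000a81003b006401a001600004040026019000200580000c100310008013400200060008053783)))) 
(.lf (nat_lit 5773518130) (dlOf (nat_lit 1) (nat_lit 0x40004002000180e3202)))) (.nd (nat_lit 8) 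
(.lf (nat_lit 671146098) (dlOf (nat_lit 4) (nat_lit 0x16405000158020064028000ab8100500140001007c002a8080028004006e00180b0082))) 
(.lf (nat_lit 134277490) (dlOf (nat_lit 1) (nat_lit 0x20028004e81))))) (.nd (nat_lit 12) 
(.nd (nat_lit 6) 
(.lf (nat_lit 1744889266) (dlOf (nat_lit 2) (nat_lit 0x20034002ca04000800200060008003602))) 
(.lf (nat_lit 1208017138) (dlOf (nat_lit 1) (nat_lit 0x20028090a81)))) (.nd (nat_lit 28) 
(.lf (nat_lit 6039860402) (dlOf (nat_lit 1) (nat_lit 0x400400020008009502))) 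
(.lf (nat_lit 4160812210) (dlOf (nat_lit 1) (nat_lit 0x8008000400200020008009503)))))) 
(.nd (nat_lit 19) (.nd (nat_lit 7) (.nd (nat_lit 6) (.nd (nat_lit 10) 
(.lf (nat_lit 470868018) (dlOf (nat_lit 5) (nat_lit 0x1eb04c40004a04035c262000230207c41310001101008b0988000800802600080368002046200081c0783))) 
(.lf (nat_lit 738255922) (dlOf (nat_lit 1) (nat_lit 0x20018002881)))) 
(.lf (nat_lit 1543561330) (dlOf (nat_lit 4) (nat_lit 0x1640500015d020064028000ae0100500140001007c002b2080028004006e00180b0082)))) 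
(.nd (nat_lit 8) 
(.lf (nat_lit 3422614706) (dlOf (nat_lit 1) (nat_lit 0x8008000400200020008009503))) 
(.lf (nat_lit 469823922) (dlOf (nat_lit 1) (nat_lit 0x20018008501))))) (.nd (nat_lit 28) 
(.nd (nat_lit 29) 
(.lf (nat_lit 201908274) (dlOf (nat_lit 6) (nat_lit 0x1020000100f001040760003606000203b0001a01028f01d8000b80810300ec022c06c00b2017000168300dc01d8000ac0800300080068002013200080c0f83))) 
(.lf (nat_lit 738779186) (dlOf (nat_lit 1) (nat_lit 0x400400020008110602)))) (.nd (nat_lit 9) 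
(.lf (nat_lit 471392306) (dlOf (nat_lit 1) (nat_lit 0x8004000e00082f0f02))) 
(.lf (nat_lit 472443442) (dlOf (nat_lit 2) (nat_lit 0x216000045818985180)))))))))) (.nd (nat_lit 5) 
(.nd (nat_lit 15) (.nd (nat_lit 9) (.nd (nat_lit 19) (.nd (nat_lit 11) (.nd (nat_lit 7) 
(.nd (nat_lit 8) (.nd (nat_lit 20) (.nd (nat_lit 26) 
(.lf (nat_lit 3493879834) (dlOf (nat_lit 1) (nat_lit 0x200281b0001))) 
(.lf (nat_lit 2755682330) (dlOf (nat_lit 3) (nat_lit 0x3024700ed50100181238076a00800080080014002000200081b0003)))) 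
(.lf (nat_lit 26239002) (dlOf (nat_lit 2) (nat_lit 0x21814016940200240018c20501)))) 
(.nd (nat_lit 10) (.lf (nat_lit 19947802) (dlOf (nat_lit 1) (nat_lit 0x4002000200089d0a82))) 
(.lf (nat_lit 4160779546) (dlOf (nat_lit 1) (nat_lit 0xc004002c0008009702))))) (.nd (nat_lit 6) 
(.nd (nat_lit 20) (.lf (nat_lit 738223258) (dlOf (nat_lit 1) (nat_lit 0x280018002b81))) 
(.lf (nat_lit 61891738) (dlOf (nat_lit 1) (nat_lit 0x2c00200040009922b82)))) 
(.lf (nat_lit 469790938) (dlOf (nat_lit 1) (nat_lit 0x8008001000200020008008083))))) 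
(.nd (nat_lit 7) (.nd (nat_lit 26) (.nd (nat_lit 28) 
(.lf (nat_lit 5368736794) (dlOf (nat_lit 1) (nat_lit 0x19400200080008006002))) 
(.lf (nat_lit 6710914074) (dlOf (nat_lit 1) (nat_lit 0x1860018006001)))) (.nd (nat_lit 6) 
(.lf (nat_lit 5033192474) (dlOf (nat_lit 1) (nat_lit 0x100018006001))) 
(.lf (nat_lit 2751494234) (dlOf (nat_lit 1) (nat_lit 0x2001800a781))))) (.nd (nat_lit 8) 
(.lf (nat_lit 469788826) (dlOf (nat_lit 1) (nat_lit 0x60008004400200220008004803))) 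
(.nd (nat_lit 20) (.lf (nat_lit 4294994330) (dlOf (nat_lit 1) (nat_lit 0xc00400020008004e82))) 
(.lf (nat_lit 2754636186) (dlOf (nat_lit 1) (nat_lit 0x4002000200080f4e82))))))) (.nd (nat_lit 21) 
(.nd (nat_lit 31) (.nd (nat_lit 20) (.nd (nat_lit 22) 
(.lf (nat_lit 5906128922) (dlOf (nat_lit 1) (nat_lit 0x200181d0601))) 
(.lf (nat_lit 55074842) (dlOf (nat_lit 6) (nat_lit 0xa101000301e00008010003040400140780000f04000c101000601e00003410007040400380780000c040010101000701e00002c1000400080038002001200096a0503)))) 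
(.nd (nat_lit 22) 
(.lf (nat_lit 9986074) (dlOf (nat_lit 3) (nat_lit 0x1348a000fa430003d208000e8ec001b47200059dc003eb860005d228003690c00fac080004004001c00085a0a02))) 
(.lf (nat_lit 5791770) (dlOf (nat_lit 1) (nat_lit 0x400183e0481))))) (.nd (nat_lit 27) 
(.nd (nat_lit 26) (.lf (nat_lit 3221774362) (dlOf (nat_lit 1) (nat_lit 0x14800400600008180902))) 
(.lf (nat_lit 6510108698) (dlOf (nat_lit 1) (nat_lit 0x200181d0601)))) (.nd (nat_lit 6) 
(.lf (nat_lit 3959971866) (dlOf (nat_lit 1) (nat_lit 0x14800400600008180902))) 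
(.lf (nat_lit 3154665562) (dlOf (nat_lit 1) (nat_lit 0x800400040018310382)))))) (.nd (nat_lit 7) 
(.nd (nat_lit 20) (.nd (nat_lit 22) 
(.lf (nat_lit 2646042) (dlOf (nat_lit 2) (nat_lit 0x6028c0000804000400200180008180402))) 
(.lf (nat_lit 15228954) (dlOf (nat_lit 1) (nat_lit 0x200187c0501)))) (.nd (nat_lit 6) 
(.nd (nat_lit 23) (.lf (nat_lit 3694618) (dlOf (nat_lit 1) (nat_lit 0x20008000c00200020008210903))) 
(.lf (nat_lit 45637658) (dlOf (nat_lit 1) (nat_lit 0x1e0019340101)))) 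
(.lf (nat_lit 3694682) (dlOf (nat_lit 1) (nat_lit 0xa40008211181))))) (.nd (nat_lit 6) 
(.nd (nat_lit 8) (.lf (nat_lit 1344824474) (dlOf (nat_lit 1) (nat_lit 0x400400040008982b82))) 
(.lf (nat_lit 54028698) (dlOf (nat_lit 1) (nat_lit 0x118008003c002000400095f4e83)))) 
(.lf (nat_lit 20477402) (dlOf (nat_lit 1) (nat_lit 0x80080004002000200089d9b03))))))) 
(.nd (nat_lit 11) (.nd (nat_lit 6) (.nd (nat_lit 7) (.nd (nat_lit 26) 
(.lf (nat_lit 4966082074) (dlOf (nat_lit 1) (nat_lit 0x400400020008003702))) (.nd (nat_lit 27) 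
(.lf (nat_lit 4630537754) (dlOf (nat_lit 1) (nat_lit 0x800400040008003702))) 
(.lf (nat_lit 6106932762) (dlOf (nat_lit 3) (nat_lit 0x48058000402a0000e040010016000200a800000100060008002000200200008003703))))) 
(.nd (nat_lit 26) (.nd (nat_lit 27) 
(.lf (nat_lit 4026558362) (dlOf (nat_lit 1) (nat_lit 0x60018004281))) 
(.lf (nat_lit 6576695194) (dlOf (nat_lit 1) (nat_lit 0x20018004281)))) 
(.lf (nat_lit 5838497690) (dlOf (nat_lit 1) (nat_lit 0x20018004281))))) (.nd (nat_lit 7) 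
(.nd (nat_lit 10) (.nd (nat_lit 27) 
(.lf (nat_lit 1342206554) (dlOf (nat_lit 1) (nat_lit 0x1580080008002000a0008008983))) 
(.lf (nat_lit 1476424282) (dlOf (nat_lit 1) (nat_lit 0x20028008981)))) 
(.lf (nat_lit 4563428954) (dlOf (nat_lit 1) (nat_lit 0x20028003901)))) (.nd (nat_lit 8) 
(.nd (nat_lit 19) (.lf (nat_lit 8418010) (dlOf (nat_lit 1) (nat_lit 0x8008000400200020008518c83))) 
(.lf (nat_lit 8942298) (dlOf (nat_lit 1) (nat_lit 0x400200020008518c82)))) 
(.lf (nat_lit 4630537178) (dlOf (nat_lit 1) (nat_lit 0x1a0018002881)))))) (.nd (nat_lit 8) 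
(.nd (nat_lit 6) (.nd (nat_lit 7) 
(.lf (nat_lit 4362107418) (dlOf (nat_lit 1) (nat_lit 0x8800800440020044000800b283))) 
(.lf (nat_lit 4294995610) (dlOf (nat_lit 1) (nat_lit 0x8008000400200020008007203)))) 
(.nd (nat_lit 7) (.nd (nat_lit 20) 
(.lf (nat_lit 472410714) (dlOf (nat_lit 3) (nat_lit 0x27059c005c2c600ac12600610170000b82000282dc0000e04003c00200080008985302))) 
(.lf (nat_lit 54028890) (dlOf (nat_lit 2) (nat_lit 0x97200002802000400095f5301)))) 
(.lf (nat_lit 1342205658) (dlOf (nat_lit 1) (nat_lit 0x3c004001a0008007382))))) (.nd (nat_lit 12) 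
(.nd (nat_lit 10) (.lf (nat_lit 54553370) (dlOf (nat_lit 1) (nat_lit 0x60029655c01))) 
(.nd (nat_lit 26) (.lf (nat_lit 1476423450) (dlOf (nat_lit 1) (nat_lit 0x8800400020018007482))) 
(.lf (nat_lit 3691015962) (dlOf (nat_lit 1) (nat_lit 0x3f800400220008007482))))) (.nd (nat_lit 26) 
(.nd (nat_lit 6) (.lf (nat_lit 2952821530) (dlOf (nat_lit 1) (nat_lit 0x2002800bb81))) 
(.lf (nat_lit 2952821722) (dlOf (nat_lit 2) (nat_lit 0x580130026181800bf00)))) (.nd (nat_lit 27) 
(.lf (nat_lit 604011290) (dlOf (nat_lit 2) (nat_lit 0xc00000061020008000800bb81))) 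
(.lf (nat_lit 469793562) (dlOf (nat_lit 2) (nat_lit 0x411c00064020006002800bb81))))))))) 
(.nd (nat_lit 27) (.nd (nat_lit 6) (.nd (nat_lit 20) (.nd (nat_lit 11) (.nd (nat_lit 19) 
(.nd (nat_lit 7) (.lf (nat_lit 25223194) (dlOf (nat_lit 1) (nat_lit 0x2c002001a0008bf0882))) 
(.lf (nat_lit 4563461274) (dlOf (nat_lit 1) (nat_lit 0x1b8008004000200560008002b83)))) 
(.nd (nat_lit 21) (.lf (nat_lit 42524698) (dlOf (nat_lit 1) (nat_lit 0x12c002001e0009260102))) 
(.lf (nat_lit 48816154) (dlOf (nat_lit 1) (nat_lit 0xe0029430601))))) (.nd (nat_lit 9) 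
(.nd (nat_lit 7) 
(.lf (nat_lit 6174075930) (dlOf (nat_lit 3) (nat_lit 0x802e000320200040190000a818056000))) 
(.lf (nat_lit 1409346970) (dlOf (nat_lit 1) (nat_lit 0x40018006d01)))) (.nd (nat_lit 22) 
(.lf (nat_lit 5704313626) (dlOf (nat_lit 1) (nat_lit 0x1c00200060008055c02))) 
(.lf (nat_lit 1346431770) (dlOf (nat_lit 4) (nat_lit 0x16446c0023c0201862360011681001b0b80001f8080028008003c00200120008f65c03)))))) 
(.nd (nat_lit 19) (.nd (nat_lit 7) (.nd (nat_lit 8) (.nd (nat_lit 21) 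
(.lf (nat_lit 43048986) (dlOf (nat_lit 1) (nat_lit 0x3000292a0001))) 
(.lf (nat_lit 1345380378) (dlOf (nat_lit 1) (nat_lit 0x400200020008b80602)))) 
(.lf (nat_lit 19980570) (dlOf (nat_lit 1) (nat_lit 0x4002000200089d0a82)))) 
(.lf (nat_lit 3203226) (dlOf (nat_lit 1) (nat_lit 0x20018200181)))) (.nd (nat_lit 7) 
(.nd (nat_lit 21) 
(.lf (nat_lit 30990362) (dlOf (nat_lit 2) (nat_lit 0xba75000000040004002000a0008e60b82))) 
(.lf (nat_lit 24698906) (dlOf (nat_lit 1) (nat_lit 0xa0028bb0501)))) 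
(.lf (nat_lit 12116122) (dlOf (nat_lit 1) (nat_lit 0x4004000200086c0182)))))) (.nd (nat_lit 7) 
(.nd (nat_lit 9) (.nd (nat_lit 8) 
(.lf (nat_lit 41477210) (dlOf (nat_lit 1) (nat_lit 0x260029242901))) 
(.lf (nat_lit 23650650) (dlOf (nat_lit 2) (nat_lit 0x426d0601e55fc0002a028b80680)))) 
(.nd (nat_lit 10) 
(.lf (nat_lit 58780250) (dlOf (nat_lit 1) (nat_lit 0x100080004002000600097e5303))) 
(.nd (nat_lit 19) (.lf (nat_lit 4899006042) (dlOf (nat_lit 1) (nat_lit 0x400400020018053902))) 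
(.lf (nat_lit 61400666) (dlOf (nat_lit 1) (nat_lit 0xc0019923901)))))) (.nd (nat_lit 8) 
(.nd (nat_lit 19) (.lf (nat_lit 8450778) (dlOf (nat_lit 1) (nat_lit 0x10008000400200040008518c83))) 
(.lf (nat_lit 8975066) (dlOf (nat_lit 1) (nat_lit 0x298008001000200640008518c83)))) 
(.nd (nat_lit 19) (.nd (nat_lit 26) 
(.lf (nat_lit 62938) (dlOf (nat_lit 1) (nat_lit 0x80018009b01))) 
(.lf (nat_lit 604042714) (dlOf (nat_lit 1) (nat_lit 0x20018009b01)))) 
(.lf (nat_lit 20510170) (dlOf (nat_lit 1) (nat_lit 0x4004000400189d9b02))))))) (.nd (nat_lit 8) 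
(.nd (nat_lit 9) (.nd (nat_lit 19) (.nd (nat_lit 7) (.nd (nat_lit 11) 
(.lf (nat_lit 671146010) (dlOf (nat_lit 3) (nat_lit 0x68098000c036003800300190000076a82000580980010036003200300160000076a02000180080054002000e00080b0003))) 
(.lf (nat_lit 469821466) (dlOf (nat_lit 1) (nat_lit 0x400400040008004702)))) 
(.lf (nat_lit 3892372634) (dlOf (nat_lit 1) (nat_lit 0x800200180008082b82)))) (.nd (nat_lit 22) 
(.lf (nat_lit 4228440090) (dlOf (nat_lit 3) (nat_lit 0x4004b001201f803180c800040580002308003e000000100180c0500))) 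
(.lf (nat_lit 474538010) (dlOf (nat_lit 4) (nat_lit 0x6704b003b821400c40fa00ec075007a039801180680009418009c12c00580730002482000403e0000000800b80080040002001200091a0103))))) 
(.nd (nat_lit 26) (.nd (nat_lit 6) 
(.lf (nat_lit 6308292122) (dlOf (nat_lit 1) (nat_lit 0x800200060008053702))) 
(.lf (nat_lit 6308292186) (dlOf (nat_lit 1) (nat_lit 0x8008000400200020008053903)))) 
(.nd (nat_lit 30) (.lf (nat_lit 4496352858) (dlOf (nat_lit 1) (nat_lit 0x20028053901))) 
(.lf (nat_lit 5570094682) (dlOf (nat_lit 1) (nat_lit 0x400400020008053902)))))) (.nd (nat_lit 26) 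
(.nd (nat_lit 28) (.nd (nat_lit 10) 
(.lf (nat_lit 6576726426) (dlOf (nat_lit 1) (nat_lit 0x34002000a00080b0782))) 
(.lf (nat_lit 3892372890) (dlOf (nat_lit 1) (nat_lit 0x400400020008083602)))) (.nd (nat_lit 6) 
(.lf (nat_lit 5234551578) (dlOf (nat_lit 1) (nat_lit 0xc00400020008055c02))) 
(.lf (nat_lit 939581914) (dlOf (nat_lit 1) (nat_lit 0x6000280b0b01))))) (.nd (nat_lit 6) 
(.nd (nat_lit 7) (.nd (nat_lit 9) 
(.lf (nat_lit 1811996954) (dlOf (nat_lit 3) (nat_lit 0x18090000c03e0023b04000c024000500f8008b81000e8008010c002004600080b0483))) 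
(.lf (nat_lit 469826330) (dlOf (nat_lit 2) (nat_lit 0x304700019008003800800100020022000800bb83)))) 
(.lf (nat_lit 2348869530) (dlOf (nat_lit 1) (nat_lit 0x1e0018004281)))) (.nd (nat_lit 10) 
(.lf (nat_lit 1811997146) (dlOf (nat_lit 1) (nat_lit 0x6000280b0b01))) 
(.lf (nat_lit 3691050458) (dlOf (nat_lit 3) (nat_lit 0x301480060008000a208001805a0004502002c0018009b01))))))))) 
(.nd (nat_lit 6) (.nd (nat_lit 10) (.nd (nat_lit 19) (.nd (nat_lit 7) (.nd (nat_lit 8) 
(.nd (nat_lit 11) (.nd (nat_lit 15) 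
(.lf (nat_lit 25190458) (dlOf (nat_lit 1) (nat_lit 0x2e0028bf0b81))) 
(.lf (nat_lit 13688890) (dlOf (nat_lit 1) (nat_lit 0x94002002e0008740782)))) (.nd (nat_lit 9) 
(.lf (nat_lit 30778) (dlOf (nat_lit 1) (nat_lit 0x200040020001800a602))) 
(.lf (nat_lit 201357882) (dlOf (nat_lit 2) (nat_lit 0x8603b001801b0001ec10005800800300020004000800b403))))) 
(.nd (nat_lit 15) (.nd (nat_lit 26) 
(.lf (nat_lit 3493880122) (dlOf (nat_lit 3) (nat_lit 0x24a0600000dc0802883000006a040020004000e00081b0582))) 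
(.lf (nat_lit 2755682618) (dlOf (nat_lit 2) (nat_lit 0x6c422002e1f900180a980009818008800800c0002005e00081b0583)))) 
(.lf (nat_lit 1208017210) (dlOf (nat_lit 4) (nat_lit 0x1c0290001b01004a0148000a80801680a40004604000400200040008090b82))))) 
(.nd (nat_lit 8) (.nd (nat_lit 12) (.nd (nat_lit 15) 
(.lf (nat_lit 471883962) (dlOf (nat_lit 1) (nat_lit 0x5c002000800086b0482))) 
(.lf (nat_lit 2080432314) (dlOf (nat_lit 1) (nat_lit 0x10008000c00200020008090703)))) 
(.lf (nat_lit 2952851642) (dlOf (nat_lit 2) (nat_lit 0x200700005404001c004000c0008007e82)))) 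
(.nd (nat_lit 11) (.lf (nat_lit 40919482) (dlOf (nat_lit 1) (nat_lit 0x480019207a81))) 
(.nd (nat_lit 22) (.lf (nat_lit 3489687994) (dlOf (nat_lit 1) (nat_lit 0x20028004e81))) 
(.lf (nat_lit 1346398650) (dlOf (nat_lit 1) (nat_lit 0xe000200700008f64e82))))))) (.nd (nat_lit 15) 
(.nd (nat_lit 9) (.nd (nat_lit 30) (.nd (nat_lit 32) 
(.lf (nat_lit 67657786) (dlOf (nat_lit 1) (nat_lit 0x200082d0001))) 
(.lf (nat_lit 4362625082) (dlOf (nat_lit 3) (nat_lit 0x12019000180c40005e080008000000140200e200280b0b81)))) 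
(.nd (nat_lit 26) 
(.lf (nat_lit 3221774394) (dlOf (nat_lit 2) (nat_lit 0x300f80002804000c002000a0008180b82))) 
(.lf (nat_lit 4228407354) (dlOf (nat_lit 3) (nat_lit 0x12018800180c00005e080008000000140200e200280b0b81))))) 
(.nd (nat_lit 20) (.lf (nat_lit 472410682) (dlOf (nat_lit 1) (nat_lit 0x20018985201))) 
(.lf (nat_lit 54028858) (dlOf (nat_lit 2) (nat_lit 0x360900022ca4000a808000c004000800095f5202))))) 
(.nd (nat_lit 7) (.nd (nat_lit 22) (.nd (nat_lit 27) 
(.lf (nat_lit 1342758970) (dlOf (nat_lit 1) (nat_lit 0x4004000200180c0002))) 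
(.lf (nat_lit 134799418) (dlOf (nat_lit 1) (nat_lit 0x400180c1381)))) 
(.lf (nat_lit 55107642) (dlOf (nat_lit 1) (nat_lit 0x4004000200096b0c82)))) (.nd (nat_lit 8) 
(.lf (nat_lit 23650490) (dlOf (nat_lit 1) (nat_lit 0x400200100008b80382))) 
(.lf (nat_lit 50913722) (dlOf (nat_lit 1) (nat_lit 0x1200194d7a81))))))) (.nd (nat_lit 28) 
(.nd (nat_lit 7) (.nd (nat_lit 11) (.nd (nat_lit 8) 
(.lf (nat_lit 40395834) (dlOf (nat_lit 1) (nat_lit 0x400291f2881))) 
(.lf (nat_lit 39871802) (dlOf (nat_lit 1) (nat_lit 0x1000191f3281)))) (.nd (nat_lit 26) 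
(.lf (nat_lit 27962) (dlOf (nat_lit 1) (nat_lit 0x20028006901))) 
(.lf (nat_lit 3288362298) (dlOf (nat_lit 1) (nat_lit 0x1c0018006901))))) (.nd (nat_lit 9) 
(.nd (nat_lit 11) (.lf (nat_lit 32531642) (dlOf (nat_lit 1) (nat_lit 0x20018ef2c81))) 
(.lf (nat_lit 27834) (dlOf (nat_lit 1) (nat_lit 0x400400020008006302)))) (.nd (nat_lit 11) 
(.nd (nat_lit 12) (.lf (nat_lit 1073768122) (dlOf (nat_lit 1) (nat_lit 0xd20018003a81))) 
(.lf (nat_lit 554682) (dlOf (nat_lit 1) (nat_lit 0x8000800a001)))) 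
(.lf (nat_lit 28346) (dlOf (nat_lit 1) (nat_lit 0x20008007281)))))) (.nd (nat_lit 11) 
(.nd (nat_lit 15) (.nd (nat_lit 7) (.nd (nat_lit 19) 
(.lf (nat_lit 1345348666) (dlOf (nat_lit 1) (nat_lit 0x20028b52881))) 
(.lf (nat_lit 472409146) (dlOf (nat_lit 1) (nat_lit 0x20028982881)))) 
(.lf (nat_lit 1344824506) (dlOf (nat_lit 1) (nat_lit 0x20018982c81)))) (.nd (nat_lit 19) 
(.lf (nat_lit 6241182778) (dlOf (nat_lit 1) (nat_lit 0x400400020008002882))) 
(.lf (nat_lit 1346954298) (dlOf (nat_lit 1) (nat_lit 0x400200020009102882))))) (.nd (nat_lit 8) 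
(.nd (nat_lit 7) (.lf (nat_lit 1342204986) (dlOf (nat_lit 1) (nat_lit 0xc00400560018006082))) 
(.lf (nat_lit 2483088570) (dlOf (nat_lit 3) (nat_lit 0x2501500008c0801580a800042040078004004e0008006302)))) 
(.nd (nat_lit 26) (.lf (nat_lit 1879076154) (dlOf (nat_lit 1) (nat_lit 0x40018006901))) 
(.lf (nat_lit 4227886394) (dlOf (nat_lit 1) (nat_lit 0xb8002017c0008006902)))))))) (.nd (nat_lit 8) 
(.nd (nat_lit 10) (.nd (nat_lit 7) (.nd (nat_lit 9) (.nd (nat_lit 19) (.nd (nat_lit 20) 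
(.lf (nat_lit 2753585274) (dlOf (nat_lit 1) (nat_lit 0x10004000c0018090082))) 
(.lf (nat_lit 47210618) (dlOf (nat_lit 2) (nat_lit 0xafdc0008c040004004000400093b0c82)))) 
(.lf (nat_lit 604528762) (dlOf (nat_lit 1) (nat_lit 0x8002000800082f2b02)))) (.nd (nat_lit 19) 
(.lf (nat_lit 3758156410) (dlOf (nat_lit 1) (nat_lit 0x400200020008085402))) 
(.lf (nat_lit 46721658) (dlOf (nat_lit 1) (nat_lit 0x4004007c0009385402))))) (.nd (nat_lit 9) 
(.nd (nat_lit 30) 
(.lf (nat_lit 939581690) (dlOf (nat_lit 2) (nat_lit 0xc024000700f8008ec1000b000800a0002001400080b0483))) 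
(.lf (nat_lit 2013323514) (dlOf (nat_lit 1) (nat_lit 0x400400020018000a82)))) 
(.lf (nat_lit 2281763578) (dlOf (nat_lit 1) (nat_lit 0x400400020008008f82))))) (.nd (nat_lit 15) 
(.nd (nat_lit 9) (.lf (nat_lit 8420474) (dlOf (nat_lit 1) (nat_lit 0x1800800040020002000851c103))) 
(.nd (nat_lit 20) (.nd (nat_lit 23) 
(.lf (nat_lit 1744856698) (dlOf (nat_lit 1) (nat_lit 0x400200020008003982))) 
(.lf (nat_lit 8414842) (dlOf (nat_lit 1) (nat_lit 0x40028513981)))) 
(.lf (nat_lit 61892218) (dlOf (nat_lit 2) (nat_lit 0x3577800148080048008002800200100009923983))))) 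
(.nd (nat_lit 27) (.nd (nat_lit 7) 
(.lf (nat_lit 335603322) (dlOf (nat_lit 1) (nat_lit 0x7e800804d8002008c0008003983))) 
(.lf (nat_lit 2751522554) (dlOf (nat_lit 1) (nat_lit 0x20028003b81)))) (.nd (nat_lit 9) 
(.lf (nat_lit 6377497722) (dlOf (nat_lit 2) (nat_lit 0x180a00004c040008002000400080e2a82))) 
(.lf (nat_lit 4966114938) (dlOf (nat_lit 1) (nat_lit 0x440018003981))))))) (.nd (nat_lit 7) 
(.nd (nat_lit 15) (.nd (nat_lit 21) (.nd (nat_lit 11) 
(.lf (nat_lit 47210874) (dlOf (nat_lit 1) (nat_lit 0x80080014002001200093b5983))) 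
(.lf (nat_lit 201357690) (dlOf (nat_lit 1) (nat_lit 0x40040002000800ae82)))) (.nd (nat_lit 19) 
(.lf (nat_lit 2754636154) (dlOf (nat_lit 1) (nat_lit 0xf00080004002001a00080f4e83))) 
(.lf (nat_lit 54028666) (dlOf (nat_lit 1) (nat_lit 0xe00080040002000200095f4e83))))) 
(.nd (nat_lit 9) (.nd (nat_lit 11) 
(.lf (nat_lit 6576726394) (dlOf (nat_lit 1) (nat_lit 0x200180b0781))) 
(.lf (nat_lit 2013325690) (dlOf (nat_lit 1) (nat_lit 0x160028004e81)))) 
(.lf (nat_lit 2952851322) (dlOf (nat_lit 1) (nat_lit 0x1400400060008007782))))) (.nd (nat_lit 10) 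
(.nd (nat_lit 11) (.nd (nat_lit 9) 
(.lf (nat_lit 8417786) (dlOf (nat_lit 1) (nat_lit 0x800400020018518682))) 
(.lf (nat_lit 469791738) (dlOf (nat_lit 1) (nat_lit 0x40028009201)))) (.nd (nat_lit 26) 
(.lf (nat_lit 4026563066) (dlOf (nat_lit 1) (nat_lit 0x8001800b281))) 
(.lf (nat_lit 4362107386) (dlOf (nat_lit 1) (nat_lit 0x4800800240020012000800b283))))) 
(.nd (nat_lit 11) (.nd (nat_lit 26) 
(.lf (nat_lit 3355473402) (dlOf (nat_lit 2) (nat_lit 0x530190029f8080048008000400200060008009c03))) 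
(.lf (nat_lit 2617275898) (dlOf (nat_lit 4) (nat_lit 0x1d800a00e0004004e00000305c1802800bc01cc00600ac0000053f03004a00180198000014da0800c400400040018009c02)))) 
(.nd (nat_lit 15) (.lf (nat_lit 1879076346) (dlOf (nat_lit 1) (nat_lit 0x20018006f81))) 
(.lf (nat_lit 2483088890) (dlOf (nat_lit 7) (nat_lit 0x1300a80004c0400480540002102002402a0000d81001201500000c0800900a800002040024054000000200220028006f81))))))))))) 
(.nd (nat_lit 5) (.nd (nat_lit 15) (.nd (nat_lit 6) (.nd (nat_lit 3) (.nd (nat_lit 19) 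
(.nd (nat_lit 28) (.nd (nat_lit 20) (.nd (nat_lit 27) (.nd (nat_lit 8) (.nd (nat_lit 30) 
(.lf (nat_lit 604266514) (dlOf (nat_lit 5) (nat_lit 0x280600028022000800e000100380058000000661400180300012011000c007800300380006410000c030000c01100070078003803800062100014030001e011000500780028038003c000000300a003c0018110401))) 
(.lf (nat_lit 1678008338) (dlOf (nat_lit 1) (nat_lit 0x4400200060008130482)))) 
(.lf (nat_lit 2751752466) (dlOf (nat_lit 2) (nat_lit 0x1a0790006f818004b80)))) (.nd (nat_lit 7) 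
(.nd (nat_lit 8) 
(.lf (nat_lit 3422838802) (dlOf (nat_lit 1) (nat_lit 0x80080094002000a0008110183))) 
(.lf (nat_lit 201613586) (dlOf (nat_lit 1) (nat_lit 0x80018047d01)))) 
(.lf (nat_lit 2885969554) (dlOf (nat_lit 1) (nat_lit 0x80018143a81))))) (.nd (nat_lit 22) 
(.nd (nat_lit 7) (.lf (nat_lit 18112530) (dlOf (nat_lit 1) (nat_lit 0x8008000400200020008910a03))) 
(.nd (nat_lit 8) (.lf (nat_lit 51668114) (dlOf (nat_lit 1) (nat_lit 0x20009512b81))) 
(.lf (nat_lit 20214162) (dlOf (nat_lit 1) (nat_lit 0x4004000200189d8382))))) (.nd (nat_lit 21) 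
(.nd (nat_lit 23) (.lf (nat_lit 22306834) (dlOf (nat_lit 1) (nat_lit 0x400200020008ac0102))) 
(.lf (nat_lit 30695442) (dlOf (nat_lit 3) (nat_lit 0x3f91a003f481005bc8d001cf80808c00080548002004c0008e40783)))) 
(.lf (nat_lit 16015378) (dlOf (nat_lit 1) (nat_lit 0xe0028860381)))))) (.nd (nat_lit 27) 
(.nd (nat_lit 29) (.nd (nat_lit 7) (.nd (nat_lit 20) 
(.lf (nat_lit 1342464018) (dlOf (nat_lit 1) (nat_lit 0x80028030881))) 
(.lf (nat_lit 1343512594) (dlOf (nat_lit 3) (nat_lit 0x1601180017c080100000000bc04000c002005e0008280202)))) 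
(.lf (nat_lit 4563689618) (dlOf (nat_lit 1) (nat_lit 0x4000280c1081)))) (.nd (nat_lit 30) 
(.nd (nat_lit 31) (.lf (nat_lit 805593106) (dlOf (nat_lit 1) (nat_lit 0x4400200060008130482))) 
(.lf (nat_lit 2953076754) (dlOf (nat_lit 1) (nat_lit 0x1a80080064002004600080f0383)))) 
(.lf (nat_lit 1879334930) (dlOf (nat_lit 1) (nat_lit 0x100080030002002a00080e0583))))) 
(.nd (nat_lit 7) (.nd (nat_lit 29) (.nd (nat_lit 31) 
(.lf (nat_lit 470048786) (dlOf (nat_lit 1) (nat_lit 0x80028030881))) 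
(.lf (nat_lit 2617532434) (dlOf (nat_lit 1) (nat_lit 0xc004000200080e0402)))) 
(.lf (nat_lit 1006919698) (dlOf (nat_lit 1) (nat_lit 0x100080030002002a00080e0583)))) 
(.lf (nat_lit 4697907346) (dlOf (nat_lit 1) (nat_lit 0x4000280c1081)))))) (.nd (nat_lit 21) 
(.nd (nat_lit 26) (.nd (nat_lit 20) (.nd (nat_lit 27) 
(.lf (nat_lit 1879859218) (dlOf (nat_lit 1) (nat_lit 0x80080004002000200083a0a03))) 
(.lf (nat_lit 2819383314) (dlOf (nat_lit 1) (nat_lit 0x160018250381)))) 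
(.lf (nat_lit 22831122) (dlOf (nat_lit 1) (nat_lit 0x400200020008b30182)))) (.nd (nat_lit 8) 
(.lf (nat_lit 3557580818) (dlOf (nat_lit 1) (nat_lit 0x140008270381))) 
(.lf (nat_lit 4362887442) (dlOf (nat_lit 1) (nat_lit 0x4600181a0481))))) (.nd (nat_lit 8) 
(.nd (nat_lit 10) (.nd (nat_lit 20) 
(.lf (nat_lit 11296786) (dlOf (nat_lit 1) (nat_lit 0x950008008c002056e0008680303))) 
(.lf (nat_lit 45899794) (dlOf (nat_lit 1) (nat_lit 0x8008000400200020009360083)))) (.nd (nat_lit 7) 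
(.lf (nat_lit 36463634) (dlOf (nat_lit 1) (nat_lit 0x20019072881))) 
(.lf (nat_lit 36463762) (dlOf (nat_lit 1) (nat_lit 0x40029072b81))))) (.nd (nat_lit 7) 
(.nd (nat_lit 9) (.lf (nat_lit 19685650) (dlOf (nat_lit 1) (nat_lit 0x80080004002000200089d0a83))) 
(.lf (nat_lit 20736786) (dlOf (nat_lit 1) (nat_lit 0x1600089d5b81)))) 
(.lf (nat_lit 20736914) (dlOf (nat_lit 1) (nat_lit 0x2600089d5c81))))))) (.nd (nat_lit 31) 
(.nd (nat_lit 7) (.nd (nat_lit 8) (.nd (nat_lit 19) (.nd (nat_lit 21) 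
(.lf (nat_lit 4362362906) (dlOf (nat_lit 2) (nat_lit 0x60460001b018030b00))) 
(.lf (nat_lit 44326938) (dlOf (nat_lit 1) (nat_lit 0xca00092f0401)))) 
(.lf (nat_lit 1879859226) (dlOf (nat_lit 1) (nat_lit 0x80080004002000200083a0b83)))) 
(.nd (nat_lit 9) (.lf (nat_lit 20209946) (dlOf (nat_lit 1) (nat_lit 0x200089d0a81))) 
(.nd (nat_lit 19) (.lf (nat_lit 20212506) (dlOf (nat_lit 1) (nat_lit 0x4002000200089d5c02))) 
(.lf (nat_lit 20736794) (dlOf (nat_lit 1) (nat_lit 0x58800401c600089d5c02)))))) (.nd (nat_lit 27) 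
(.nd (nat_lit 8) (.nd (nat_lit 10) 
(.lf (nat_lit 4563689626) (dlOf (nat_lit 1) (nat_lit 0x4a00280c1201))) 
(.lf (nat_lit 42230938) (dlOf (nat_lit 1) (nat_lit 0x1c0029242b81)))) (.nd (nat_lit 11) 
(.lf (nat_lit 11821466) (dlOf (nat_lit 1) (nat_lit 0x3d80080004002004a00086c0783))) 
(.lf (nat_lit 57436570) (dlOf (nat_lit 1) (nat_lit 0x1a0008001000200140009794e83))))) 
(.nd (nat_lit 19) (.nd (nat_lit 28) 
(.lf (nat_lit 1745117338) (dlOf (nat_lit 1) (nat_lit 0x400280a2b81))) 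
(.lf (nat_lit 4697907354) (dlOf (nat_lit 1) (nat_lit 0x4a00280c1201)))) 
(.lf (nat_lit 5772173466) (dlOf (nat_lit 1) (nat_lit 0x40018090501)))))) (.nd (nat_lit 19) 
(.nd (nat_lit 26) (.nd (nat_lit 7) 
(.lf (nat_lit 3221512730) (dlOf (nat_lit 1) (nat_lit 0x20028127f01))) (.nd (nat_lit 8) 
(.lf (nat_lit 3490996378) (dlOf (nat_lit 1) (nat_lit 0x20028044181))) 
(.lf (nat_lit 6442738074) (dlOf (nat_lit 1) (nat_lit 0x4004000200081b0782))))) (.nd (nat_lit 8) 
(.nd (nat_lit 9) (.lf (nat_lit 4228145178) (dlOf (nat_lit 2) (nat_lit 0x603f0001b018030b00))) 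
(.lf (nat_lit 6509847066) (dlOf (nat_lit 1) (nat_lit 0x40018157f01)))) 
(.lf (nat_lit 3557062938) (dlOf (nat_lit 4) (nat_lit 0xe0380001281000501c00008c0800580e000030040014004000c001812ab02))))) 
(.nd (nat_lit 21) (.nd (nat_lit 7) (.nd (nat_lit 9) 
(.lf (nat_lit 4094454810) (dlOf (nat_lit 1) (nat_lit 0x40008056001))) 
(.lf (nat_lit 2753323546) (dlOf (nat_lit 2) (nat_lit 0x1a0440000000801b80080020002001c0008090d83)))) 
(.lf (nat_lit 2753323418) (dlOf (nat_lit 2) (nat_lit 0x1d0440032d8080088008000c002000a0008090783)))) 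
(.nd (nat_lit 26) 
(.lf (nat_lit 3493617690) (dlOf (nat_lit 4) (nat_lit 0x140400008902001202400010100002201000200800010e040004004000a0008180602))) 
(.lf (nat_lit 2755420186) (dlOf (nat_lit 4) (nat_lit 0x140400008c020012024000101000022c10002008000114040004004000a0008180602)))))))) 
(.nd (nat_lit 3) (.nd (nat_lit 29) (.nd (nat_lit 19) (.nd (nat_lit 30) (.nd (nat_lit 23) 
(.nd (nat_lit 26) (.lf (nat_lit 402939986) (dlOf (nat_lit 2) (nat_lit 0x18e00a0002b0180b0680))) 
(.lf (nat_lit 335831122) (dlOf (nat_lit 2) (nat_lit 0x18e0090002b0180b0680)))) (.nd (nat_lit 7) 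
(.lf (nat_lit 25452882) (dlOf (nat_lit 1) (nat_lit 0x8008000400200020008c10883))) 
(.lf (nat_lit 25452754) (dlOf (nat_lit 1) (nat_lit 0x20008c10501))))) (.nd (nat_lit 8) 
(.nd (nat_lit 27) (.lf (nat_lit 5368995922) (dlOf (nat_lit 1) (nat_lit 0x200280b0681))) 
(.lf (nat_lit 5503213650) (dlOf (nat_lit 1) (nat_lit 0x200280b0681)))) (.nd (nat_lit 7) 
(.lf (nat_lit 3221512530) (dlOf (nat_lit 2) (nat_lit 0xa00a00020018124d00))) 
(.lf (nat_lit 3221512658) (dlOf (nat_lit 1) (nat_lit 0x60018127101)))))) (.nd (nat_lit 20) 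
(.nd (nat_lit 23) (.nd (nat_lit 24) 
(.lf (nat_lit 470573138) (dlOf (nat_lit 1) (nat_lit 0x8008001000200020008121903))) 
(.lf (nat_lit 17588306) (dlOf (nat_lit 11) (nat_lit 0x2376200045020011bb100022010006dd880010408001eec4000800400237620003e020003bb10001e810008dd88000f0080026ec4002775e00037040017bb10001a810006dd8800000080008008000c002000200088e0283)))) 
(.nd (nat_lit 7) (.lf (nat_lit 42754130) (dlOf (nat_lit 1) (nat_lit 0x400400020009280782))) 
(.lf (nat_lit 61629650) (dlOf (nat_lit 1) (nat_lit 0x20029922d81))))) (.nd (nat_lit 7) 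
(.nd (nat_lit 21) 
(.lf (nat_lit 5773221970) (dlOf (nat_lit 2) (nat_lit 0x8c0c8005a0550002b0280b0680))) 
(.lf (nat_lit 45899858) (dlOf (nat_lit 1) (nat_lit 0x20009360781)))) 
(.lf (nat_lit 58485202) (dlOf (nat_lit 1) (nat_lit 0x4002000200097e4e82)))))) (.nd (nat_lit 28) 
(.nd (nat_lit 8) (.nd (nat_lit 9) 
(.lf (nat_lit 3825492050) (dlOf (nat_lit 1) (nat_lit 0x20018171001))) 
(.lf (nat_lit 1610901074) (dlOf (nat_lit 1) (nat_lit 0x400200020008093882)))) (.nd (nat_lit 9) 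
(.nd (nat_lit 20) (.lf (nat_lit 3959710034) (dlOf (nat_lit 1) (nat_lit 0x400400020008124d82))) 
(.lf (nat_lit 2752799058) (dlOf (nat_lit 1) (nat_lit 0x20008048b01)))) 
(.lf (nat_lit 2751752018) (dlOf (nat_lit 1) (nat_lit 0xf000800b0002003a0008003f03))))) 
(.nd (nat_lit 19) (.nd (nat_lit 7) (.nd (nat_lit 26) 
(.lf (nat_lit 3087294546) (dlOf (nat_lit 1) (nat_lit 0x20018171001))) 
(.lf (nat_lit 872702034) (dlOf (nat_lit 1) (nat_lit 0x8002000400080a1702)))) 
(.lf (nat_lit 5234779346) (dlOf (nat_lit 2) (nat_lit 0x1200a8000000800080080044002000600080d2d83)))) 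
(.nd (nat_lit 20) (.lf (nat_lit 4094451794) (dlOf (nat_lit 1) (nat_lit 0x400400020008050002))) 
(.lf (nat_lit 6377201746) (dlOf (nat_lit 2) (nat_lit 0xb40b800460500002b0280b0680))))))) 
(.nd (nat_lit 19) (.nd (nat_lit 29) (.nd (nat_lit 26) (.nd (nat_lit 7) (.nd (nat_lit 8) 
(.lf (nat_lit 24404058) (dlOf (nat_lit 4) (nat_lit 0x1a279000130100030000000900800257c00010000000230400020018b91181))) 
(.lf (nat_lit 3221512538) (dlOf (nat_lit 1) (nat_lit 0x20008124e81)))) 
(.lf (nat_lit 4563689690) (dlOf (nat_lit 2) (nat_lit 0x40310000d0180c1c00)))) (.nd (nat_lit 27) 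
(.lf (nat_lit 2483314778) (dlOf (nat_lit 3) (nat_lit 0xc01200009c0800300900020038000c01500070010000982000d0008002c002002000080a1183))) 
(.lf (nat_lit 2349097050) (dlOf (nat_lit 3) (nat_lit 0xc0120000500800300900020038000c015000700100004c2000d0008002c002002000080a1183))))) 
(.nd (nat_lit 8) (.nd (nat_lit 7) 
(.lf (nat_lit 1610901082) (dlOf (nat_lit 2) (nat_lit 0x581680008e04003400400020018093902))) 
(.lf (nat_lit 3892601050) (dlOf (nat_lit 1) (nat_lit 0x78008000400200400008160583)))) 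
(.nd (nat_lit 9) (.lf (nat_lit 2752799066) (dlOf (nat_lit 1) (nat_lit 0x20018048c01))) 
(.lf (nat_lit 6308522842) (dlOf (nat_lit 2) (nat_lit 0x806c002be040004002000200080d5c02)))))) 
(.nd (nat_lit 9) (.nd (nat_lit 7) (.nd (nat_lit 8) 
(.lf (nat_lit 470573146) (dlOf (nat_lit 1) (nat_lit 0x20018121a81))) 
(.lf (nat_lit 50095450) (dlOf (nat_lit 2) (nat_lit 0x4280000003102000400294c3381)))) 
(.lf (nat_lit 19689690) (dlOf (nat_lit 1) (nat_lit 0x200189d8081)))) (.nd (nat_lit 10) 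
(.lf (nat_lit 52193882) (dlOf (nat_lit 2) (nat_lit 0xaa8c40005c040004004000e0019515302))) 
(.lf (nat_lit 53241434) (dlOf (nat_lit 1) (nat_lit 0x10800400100009573902)))))))) (.nd (nat_lit 3) 
(.nd (nat_lit 19) (.nd (nat_lit 6) (.nd (nat_lit 20) (.nd (nat_lit 27) (.nd (nat_lit 7) 
(.nd (nat_lit 26) (.lf (nat_lit 2953109522) (dlOf (nat_lit 1) (nat_lit 0x20028130301))) 
(.lf (nat_lit 4630831122) (dlOf (nat_lit 1) (nat_lit 0x100080004002000200080f0a03)))) 
(.lf (nat_lit 2751784594) (dlOf (nat_lit 1) (nat_lit 0x80028003a81)))) (.nd (nat_lit 7) 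
(.nd (nat_lit 26) (.lf (nat_lit 2550456338) (dlOf (nat_lit 1) (nat_lit 0x4004000200080c0a02))) 
(.nd (nat_lit 30) (.nd (nat_lit 31) 
(.lf (nat_lit 4765048850) (dlOf (nat_lit 1) (nat_lit 0x100080004002000200080f0a03))) 
(.lf (nat_lit 2617565202) (dlOf (nat_lit 1) (nat_lit 0x24002000c00080f0402)))) 
(.lf (nat_lit 3691307026) (dlOf (nat_lit 1) (nat_lit 0x20028130301))))) 
(.lf (nat_lit 2886002322) (dlOf (nat_lit 1) (nat_lit 0x80028143a81))))) (.nd (nat_lit 22) 
(.nd (nat_lit 8) (.nd (nat_lit 10) 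
(.lf (nat_lit 1343545362) (dlOf (nat_lit 1) (nat_lit 0x80008290381))) 
(.lf (nat_lit 60091410) (dlOf (nat_lit 3) (nat_lit 0xf6752007730d0001a82003bc25001ddfa800ee7560000a06000c0019845f81)))) 
(.lf (nat_lit 60091154) (dlOf (nat_lit 1) (nat_lit 0x20029845b81)))) (.nd (nat_lit 21) 
(.nd (nat_lit 23) (.lf (nat_lit 22339602) (dlOf (nat_lit 1) (nat_lit 0x20018ac0101))) 
(.lf (nat_lit 30728210) (dlOf (nat_lit 1) (nat_lit 0xc00400020018e40782)))) (.nd (nat_lit 9) 
(.lf (nat_lit 16048146) (dlOf (nat_lit 1) (nat_lit 0x20028860381))) 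
(.lf (nat_lit 41214482) (dlOf (nat_lit 1) (nat_lit 0x228004005a0009227c02))))))) (.nd (nat_lit 26) 
(.nd (nat_lit 30) (.nd (nat_lit 7) (.nd (nat_lit 8) 
(.lf (nat_lit 2416238674) (dlOf (nat_lit 1) (nat_lit 0x200180c1901))) 
(.lf (nat_lit 671408466) (dlOf (nat_lit 1) (nat_lit 0x8400400600008188b02)))) 
(.lf (nat_lit 25485522) (dlOf (nat_lit 1) (nat_lit 0x340028c10501)))) (.nd (nat_lit 7) 
(.nd (nat_lit 29) 
(.lf (nat_lit 1208279122) (dlOf (nat_lit 8) (nat_lit 0x7920390044019807b809805ac0120005608061c03900380130001541010780e4000a8040ab807200260260002982000701c80014808067009c0404014000220401ca02700cc00500004c10091800803ac002004800080b0683))) 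
(.lf (nat_lit 1745150034) (dlOf (nat_lit 2) (nat_lit 0xb701b000b80c4063c0440004206001200280b0681)))) 
(.lf (nat_lit 5771684818) (dlOf (nat_lit 2) (nat_lit 0x5613e0000a018005d80))))) (.nd (nat_lit 27) 
(.nd (nat_lit 28) (.nd (nat_lit 7) 
(.lf (nat_lit 1678041426) (dlOf (nat_lit 1) (nat_lit 0x500080004002000a0008158b03))) 
(.lf (nat_lit 2754932434) (dlOf (nat_lit 2) (nat_lit 0x681640000502003400080f7381)))) 
(.nd (nat_lit 29) 
(.lf (nat_lit 2483347538) (dlOf (nat_lit 7) (nat_lit 0x2080a8000c0300082010001100180009c2001900400003c04000405400020100000d020004015001b8040001c006000180600fa0100000381000e0080000000801a8008008c002001400080c1603))) 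
(.lf (nat_lit 872734802) (dlOf (nat_lit 2) (nat_lit 0xb701b000b80c4063c0440004206001200280b0681))))) 
(.nd (nat_lit 7) (.nd (nat_lit 28) 
(.lf (nat_lit 2349129810) (dlOf (nat_lit 23) (nat_lit 0xe8018000100b80f5005a00f202c047101582b280a4148804e0946021016600c82a9005c14580280348013042f009001c004417a801e0c0600d046800580d700101588002000342600120330011017809080b8008805804d602901ba01380a00084094802e057000f02d50068139802c004401404ea00100140000000c87009500b807c8000000310401aa03101fb017016780000005e0c02c40000002a02000402e0001481033800780009c08007803c0004c040020000000250201a200f003d0000000901003080380002c04005401c00015020ac4010052500700004c1002c0040004c01c0001204002400e0000881018b01502e6004016a401c005600c000080405a000802b380380001e080a18020043000e0000702058e00802ba00380001a0808b402001e000e0000282012000800090038000020805280540a84010042d0070000001801a00080828002074000080c1903))) 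
(.lf (nat_lit 2080694354) (dlOf (nat_lit 8) (nat_lit 0x7920390044019807b809805ac0120005608061c03900380130001541010780e4000a8040ab807200260260002982000701c80014808067009c0404014000220401ca02700cc00500004c10091800803ac002004800080b0683)))) 
(.lf (nat_lit 2886002898) (dlOf (nat_lit 1) (nat_lit 0x400400020008144a02))))))) (.nd (nat_lit 21) 
(.nd (nat_lit 6) (.nd (nat_lit 8) (.nd (nat_lit 24) (.nd (nat_lit 26) (.nd (nat_lit 27) 
(.lf (nat_lit 1343021074) (dlOf (nat_lit 6) (nat_lit 0x5118800087bc011838e00a41bd00d1d840002126009a89240528490000e23e004511e80a308c403d045602881f200350f800a307bc04fc3dc02801e900260ed003f071c054c38c02341bd014a0de007705e40347248001848a00453020028245002268100090fd0010740800100080020002004e0008130883))) 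
(.lf (nat_lit 2819416082) (dlOf (nat_lit 2) (nat_lit 0xe00000017c080018008000800200020008280203)))) 
(.lf (nat_lit 470605842) (dlOf (nat_lit 6) (nat_lit 0x5118800087bc011838e00a41bd00ed0040002126009a89240528490000e23e004511e80a308c403d045602881f300350f800a307bc04fc3dc02801e900260ed003f071c054c38c02341bd014a0de0077060803b3c48001848a009e1020028245004ed8100090fe0025c00800100080020002004e0008130883)))) 
(.nd (nat_lit 20) 
(.lf (nat_lit 59564050) (dlOf (nat_lit 1) (nat_lit 0x880080008002001a0009810383))) 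
(.lf (nat_lit 22863890) (dlOf (nat_lit 2) (nat_lit 0x6a7100000018b30180))))) (.nd (nat_lit 7) 
(.nd (nat_lit 27) 
(.lf (nat_lit 4362920210) (dlOf (nat_lit 2) (nat_lit 0x9800000484040020002008800081a0482))) 
(.lf (nat_lit 202170642) (dlOf (nat_lit 1) (nat_lit 0x48008001c002007a00081b0483)))) 
(.lf (nat_lit 43836818) (dlOf (nat_lit 1) (nat_lit 0x10004000a00192a3602))))) (.nd (nat_lit 20) 
(.nd (nat_lit 26) 
(.lf (nat_lit 1343021138) (dlOf (nat_lit 3) (nat_lit 0x28000000340201a424900004818130d80))) 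
(.lf (nat_lit 470605906) (dlOf (nat_lit 3) (nat_lit 0x28000000340201a424900004818130d80)))) 
(.nd (nat_lit 7) (.lf (nat_lit 6086994) (dlOf (nat_lit 1) (nat_lit 0x2a0018420801))) 
(.lf (nat_lit 43836626) (dlOf (nat_lit 3) (nat_lit 0x133100010408001138c00076040024004000800092a2d82)))))) 
(.nd (nat_lit 24) (.nd (nat_lit 31) (.nd (nat_lit 23) 
(.lf (nat_lit 2940946) (dlOf (nat_lit 1) (nat_lit 0x80080004002000200081e0503))) 
(.lf (nat_lit 11329554) (dlOf (nat_lit 1) (nat_lit 0xc00400060008690182)))) (.nd (nat_lit 26) 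
(.lf (nat_lit 3492601874) (dlOf (nat_lit 4) (nat_lit 0x4b83f4000460202a21fa0002281016c0fd0000e00800080080028002005600080e0183))) 
(.lf (nat_lit 2754404370) (dlOf (nat_lit 4) (nat_lit 0x4b841e000460202a220f0002281016c1078000e00800080080028002005600080e0183))))) 
(.nd (nat_lit 8) (.lf (nat_lit 57469458) (dlOf (nat_lit 1) (nat_lit 0x20029795081))) 
(.lf (nat_lit 19723538) (dlOf (nat_lit 1) (nat_lit 0x4004000200089d9682))))))) (.nd (nat_lit 19) 
(.nd (nat_lit 27) (.nd (nat_lit 24) (.nd (nat_lit 6) (.nd (nat_lit 26) (.nd (nat_lit 21) 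
(.lf (nat_lit 4026851354) (dlOf (nat_lit 1) (nat_lit 0x118008000c002005c00080a0903))) 
(.lf (nat_lit 14999578) (dlOf (nat_lit 1) (nat_lit 0x1200287a0501)))) (.nd (nat_lit 28) 
(.nd (nat_lit 29) 
(.lf (nat_lit 3288653850) (dlOf (nat_lit 1) (nat_lit 0x118008000c002005c00080a0903))) 
(.lf (nat_lit 604299290) (dlOf (nat_lit 2) (nat_lit 0x203c0024f018130480)))) 
(.lf (nat_lit 5167702042) (dlOf (nat_lit 3) (nat_lit 0x500a0004801400f5808001802800120050001001801eac1800200080018002000c0008120a03))))) 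
(.nd (nat_lit 32) (.nd (nat_lit 7) 
(.lf (nat_lit 45410906) (dlOf (nat_lit 2) (nat_lit 0xca6380004000000280400480029325301))) 
(.lf (nat_lit 325082) (dlOf (nat_lit 1) (nat_lit 0x20004004a0008009b02)))) (.nd (nat_lit 26) 
(.lf (nat_lit 4563722330) (dlOf (nat_lit 1) (nat_lit 0x4004000200080d0682))) 
(.lf (nat_lit 6509879386) (dlOf (nat_lit 1) (nat_lit 0x400400020008160982)))))) (.nd (nat_lit 8) 
(.nd (nat_lit 21) (.nd (nat_lit 22) 
(.lf (nat_lit 18145306) (dlOf (nat_lit 1) (nat_lit 0x20028910b81))) 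
(.lf (nat_lit 22339610) (dlOf (nat_lit 1) (nat_lit 0xc00400020008ac0182)))) (.nd (nat_lit 6) 
(.lf (nat_lit 62185498) (dlOf (nat_lit 4) (nat_lit 0x1aa46000851a00004810007a918002946800011040022a46001551a00003c100078008001800200080009970403))) 
(.lf (nat_lit 56943706) (dlOf (nat_lit 1) (nat_lit 0x8008000400200020009792903))))) 
(.nd (nat_lit 6) (.nd (nat_lit 9) 
(.lf (nat_lit 20242714) (dlOf (nat_lit 1) (nat_lit 0x200089d0a81))) (.nd (nat_lit 21) 
(.lf (nat_lit 60091162) (dlOf (nat_lit 1) (nat_lit 0x60029845c01))) 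
(.lf (nat_lit 20245274) (dlOf (nat_lit 1) (nat_lit 0x4002000200089d5c02))))) (.nd (nat_lit 7) 
(.lf (nat_lit 21291354) (dlOf (nat_lit 1) (nat_lit 0x180028a34e81))) 
(.lf (nat_lit 20245466) (dlOf (nat_lit 1) (nat_lit 0x4002000800089d5e02))))))) (.nd (nat_lit 26) 
(.nd (nat_lit 6) (.nd (nat_lit 7) (.nd (nat_lit 28) 
(.lf (nat_lit 1208279066) (dlOf (nat_lit 2) (nat_lit 0x80380001d8180b0100))) 
(.lf (nat_lit 4161069082) (dlOf (nat_lit 2) (nat_lit 0x14056001c50200060028110481)))) 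
(.lf (nat_lit 671408282) (dlOf (nat_lit 3) (nat_lit 0x390094001f20401a004a000f50200060028184201)))) 
(.nd (nat_lit 8) (.lf (nat_lit 4697940058) (dlOf (nat_lit 1) (nat_lit 0x4004000200080d0682))) 
(.lf (nat_lit 3624201562) (dlOf (nat_lit 1) (nat_lit 0x380028146a81))))) (.nd (nat_lit 29) 
(.nd (nat_lit 6) (.nd (nat_lit 8) 
(.lf (nat_lit 2617565210) (dlOf (nat_lit 1) (nat_lit 0xc004000a00180f0502))) 
(.lf (nat_lit 4496616218) (dlOf (nat_lit 1) (nat_lit 0x200280e5c01)))) 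
(.lf (nat_lit 2349129818) (dlOf (nat_lit 2) (nat_lit 0x1b8054000601000080070000981800d00080118002004400080c1a83)))) 
(.nd (nat_lit 30) (.nd (nat_lit 31) 
(.lf (nat_lit 1006952474) (dlOf (nat_lit 3) (nat_lit 0x20000000901003200000003c08002000800f800200ae00080f0403))) 
(.lf (nat_lit 3154436122) (dlOf (nat_lit 1) (nat_lit 0x2000400300008190502)))) 
(.lf (nat_lit 2080694298) (dlOf (nat_lit 2) (nat_lit 0x80380001d8180b0100))))))) (.nd (nat_lit 20) 
(.nd (nat_lit 21) (.nd (nat_lit 24) (.nd (nat_lit 7) (.nd (nat_lit 23) 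
(.lf (nat_lit 4228702234) (dlOf (nat_lit 2) (nat_lit 0xa80000000004009c002002e00081a0002))) 
(.lf (nat_lit 9232410) (dlOf (nat_lit 1) (nat_lit 0x20008530101)))) 
(.lf (nat_lit 67957146) (dlOf (nat_lit 1) (nat_lit 0x400200020008338382)))) (.nd (nat_lit 6) 
(.nd (nat_lit 22) (.lf (nat_lit 59564058) (dlOf (nat_lit 1) (nat_lit 0xc00200020009810602))) 
(.lf (nat_lit 21815322) (dlOf (nat_lit 1) (nat_lit 0x20028a70481)))) 
(.lf (nat_lit 21815386) (dlOf (nat_lit 2) (nat_lit 0xda1e0021c0200020028a70981))))) 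
(.nd (nat_lit 6) (.nd (nat_lit 23) (.nd (nat_lit 26) 
(.lf (nat_lit 3492601882) (dlOf (nat_lit 8) (nat_lit 0x1fe0fe0008dc080f707f00044c0406d03f8001e702002015c000b98100060ae0002c40803807f401f82be00741380003f0301980fe000000080078008001000200dc00080e0483))) 
(.lf (nat_lit 2754404378) (dlOf (nat_lit 8) (nat_lit 0x1fe1088008dc080f708440044c0406d0422001e7020020152000b88100060a90002c408038084801f82aa00741380003f030198108800000080078008001000200dc00080e0483)))) 
(.lf (nat_lit 11329562) (dlOf (nat_lit 1) (nat_lit 0x8008000400200020008690483)))) 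
(.nd (nat_lit 10) 
(.lf (nat_lit 472705626) (dlOf (nat_lit 3) (nat_lit 0x102ac00020cf00015820001067800282580004408000400400020008a45302))) 
(.lf (nat_lit 61662810) (dlOf (nat_lit 1) (nat_lit 0x400400020009923902)))))) (.nd (nat_lit 7) 
(.nd (nat_lit 6) (.nd (nat_lit 9) 
(.lf (nat_lit 1346166810) (dlOf (nat_lit 2) (nat_lit 0x62c286030c13b019109c80ef03340005e10012400400aa0008e60102))) 
(.lf (nat_lit 8185370) (dlOf (nat_lit 1) (nat_lit 0x2c0018513701)))) (.nd (nat_lit 9) 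
(.lf (nat_lit 473751642) (dlOf (nat_lit 1) (nat_lit 0x20018fa0081))) 
(.lf (nat_lit 52226650) (dlOf (nat_lit 3) (nat_lit 0xb00000001701013700000007c080610008001400200040009515303))))) 
(.nd (nat_lit 25) (.nd (nat_lit 6) 
(.lf (nat_lit 471654554) (dlOf (nat_lit 1) (nat_lit 0x18008001000200160008370483))) 
(.lf (nat_lit 6377234650) (dlOf (nat_lit 1) (nat_lit 0x4200080c1c01)))) (.nd (nat_lit 8) 
(.lf (nat_lit 35446938) (dlOf (nat_lit 1) (nat_lit 0x3400200140009010502))) 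
(.lf (nat_lit 43836826) (dlOf (nat_lit 1) (nat_lit 0x4004000200092a3602)))))))))) (.nd (nat_lit 3) 
(.nd (nat_lit 15) (.nd (nat_lit 28) (.nd (nat_lit 21) (.nd (nat_lit 26) (.nd (nat_lit 19) 
(.nd (nat_lit 7) (.nd (nat_lit 20) (.nd (nat_lit 9) 
(.lf (nat_lit 537157682) (dlOf (nat_lit 4) (nat_lit 0x881500026204011c0a80012d0200140580005f018030d00))) 
(.lf (nat_lit 3221512754) (dlOf (nat_lit 3) (nat_lit 0x9e00e0001101002b00700007008002800800d800200840008128003)))) 
(.nd (nat_lit 23) 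
(.lf (nat_lit 22306866) (dlOf (nat_lit 1) (nat_lit 0x1000800c400200020008ac0603))) 
(.lf (nat_lit 30695474) (dlOf (nat_lit 1) (nat_lit 0x40028e40f01))))) (.nd (nat_lit 10) 
(.lf (nat_lit 1074028978) (dlOf (nat_lit 2) (nat_lit 0x3c02900671018090780))) 
(.lf (nat_lit 8676786) (dlOf (nat_lit 1) (nat_lit 0x400200020008513602))))) (.nd (nat_lit 6) 
(.nd (nat_lit 10) 
(.lf (nat_lit 13393970) (dlOf (nat_lit 5) (nat_lit 0x7e7c6003e4e2f01f5ef4c00637a001af9c000218e080a8c6cc03862ca03ac0000001b0903c2e3001dbf1780efb7a60031bd00006ce0003246cc06bc000000340e0143c60009de2f004aef4c02f37a00181ac8000bd0e8008e7000005c1c022ba3e01a9c5e0026de8001500000005a100038004000c0018720f82))) 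
(.lf (nat_lit 52192306) (dlOf (nat_lit 1) (nat_lit 0x20019512881)))) 
(.lf (nat_lit 135028850) (dlOf (nat_lit 3) (nat_lit 0x7f0014003f4040030062001f802000800281b0081))))) 
(.nd (nat_lit 6) (.nd (nat_lit 8) (.nd (nat_lit 9) 
(.lf (nat_lit 67395634) (dlOf (nat_lit 2) (nat_lit 0x3400000037a0400cc002000c00080f0482))) 
(.lf (nat_lit 3959710258) (dlOf (nat_lit 2) (nat_lit 0x3600e004cf018128b00)))) 
(.lf (nat_lit 2885969714) (dlOf (nat_lit 3) (nat_lit 0x1c00000006808007000000016040050002000a0008143d82)))) 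
(.nd (nat_lit 19) (.nd (nat_lit 22) 
(.lf (nat_lit 3288621170) (dlOf (nat_lit 1) (nat_lit 0x4004000c0018090082))) 
(.lf (nat_lit 2755944562) (dlOf (nat_lit 3) (nat_lit 0xa03e400781ee001e804002a0f9000f30181b0080)))) 
(.nd (nat_lit 27) 
(.lf (nat_lit 4362887282) (dlOf (nat_lit 5) (nat_lit 0xf7029807a011c03d406601e802d0011a04020102980ff811c080006603fe02d0011804010f0298085011c0420066021402d001178400010198007980800480080078002000a00081a0083))) 
(.lf (nat_lit 202137714) (dlOf (nat_lit 3) (nat_lit 0x7f0014003d0040030062001e602000800281b0081))))))) 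
(.nd (nat_lit 19) (.nd (nat_lit 6) (.nd (nat_lit 8) (.nd (nat_lit 20) 
(.lf (nat_lit 6578226) (dlOf (nat_lit 1) (nat_lit 0x8008000400200020008430f03))) 
(.lf (nat_lit 7626802) (dlOf (nat_lit 1) (nat_lit 0x80080004002000200084c0f03)))) 
(.lf (nat_lit 11821362) (dlOf (nat_lit 1) (nat_lit 0x400186c0501)))) (.nd (nat_lit 7) 
(.nd (nat_lit 10) (.lf (nat_lit 62152818) (dlOf (nat_lit 1) (nat_lit 0xa0029960d81))) 
(.lf (nat_lit 20214898) (dlOf (nat_lit 1) (nat_lit 0x200189d9401)))) (.nd (nat_lit 8) 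
(.lf (nat_lit 20210418) (dlOf (nat_lit 1) (nat_lit 0x600089d2101))) 
(.lf (nat_lit 23355890) (dlOf (nat_lit 2) (nat_lit 0xd848c0017a04000c004002e0008b80d82)))))) 
(.nd (nat_lit 9) (.nd (nat_lit 20) (.nd (nat_lit 23) 
(.lf (nat_lit 2754371634) (dlOf (nat_lit 2) (nat_lit 0xf85c40002e040048002002a00080e0682))) 
(.lf (nat_lit 11296818) (dlOf (nat_lit 9) (nat_lit 0x3158c0002c04001cac60001502000e563000070100062b180003008002958c0010abe0000604000c563000028100062b180001008003958c0000004003000400020018680e02)))) 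
(.lf (nat_lit 29122610) (dlOf (nat_lit 1) (nat_lit 0x400400020018dc0c02)))) (.nd (nat_lit 8) 
(.lf (nat_lit 8152626) (dlOf (nat_lit 2) (nat_lit 0xc7520000e018513780))) (.nd (nat_lit 11) 
(.lf (nat_lit 19686194) (dlOf (nat_lit 1) (nat_lit 0x4200089d2201))) 
(.lf (nat_lit 20736818) (dlOf (nat_lit 1) (nat_lit 0xac00089d5c01)))))))) (.nd (nat_lit 6) 
(.nd (nat_lit 26) (.nd (nat_lit 19) (.nd (nat_lit 7) (.nd (nat_lit 8) 
(.lf (nat_lit 1342464050) (dlOf (nat_lit 4) (nat_lit 0x9a1c700490de80058410023871c007437a000da0400e41c7004a0de80027410006000800b800200380008030d03))) 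
(.lf (nat_lit 3490996530) (dlOf (nat_lit 1) (nat_lit 0x40008047a81)))) 
(.lf (nat_lit 4563689650) (dlOf (nat_lit 8) (nat_lit 0xe01a0000680800280d0001c064000e01f0000c83000201a000300c8001803e0001806000c032000400f80002c1000300d00024064000e01f0000503000401a000400c8001c03e0000906000a03400070190003807c000100c0124004006400080c1682)))) 
(.nd (nat_lit 7) (.nd (nat_lit 21) 
(.lf (nat_lit 1342988338) (dlOf (nat_lit 1) (nat_lit 0x88008003800200100008120f03))) 
(.lf (nat_lit 3492569138) (dlOf (nat_lit 2) (nat_lit 0xf85c40002e040048002002a00080e0682)))) 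
(.lf (nat_lit 5772173490) (dlOf (nat_lit 1) (nat_lit 0x520008090681))))) (.nd (nat_lit 10) 
(.nd (nat_lit 19) (.nd (nat_lit 27) 
(.lf (nat_lit 1409572914) (dlOf (nat_lit 4) (nat_lit 0x881500026004011c0a80012d0200140580005e818030d00))) 
(.lf (nat_lit 470048818) (dlOf (nat_lit 4) (nat_lit 0x9a1c700490de80058410023871c007437a000da0400e41c7004a0de80027410006000800b800200380008030d03)))) 
(.nd (nat_lit 8) 
(.lf (nat_lit 470573106) (dlOf (nat_lit 5) (nat_lit 0x7b4000000360201c60000001a0100090d80000b80800c86c00005a040034002000c0008120f82))) 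
(.lf (nat_lit 6376153394) (dlOf (nat_lit 2) (nat_lit 0x120868000d8080020008003400200160008090b03))))) 
(.nd (nat_lit 22) 
(.lf (nat_lit 5301888050) (dlOf (nat_lit 2) (nat_lit 0x70188052b80800480080028002002c00080e2883))) 
(.lf (nat_lit 474244146) (dlOf (nat_lit 1) (nat_lit 0x68008002c002003800090e2883)))))) 
(.nd (nat_lit 7) (.nd (nat_lit 29) (.nd (nat_lit 22) (.nd (nat_lit 27) 
(.lf (nat_lit 2416205938) (dlOf (nat_lit 1) (nat_lit 0x400400040008090082))) 
(.lf (nat_lit 2550423666) (dlOf (nat_lit 1) (nat_lit 0x400400040008090082)))) 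
(.lf (nat_lit 3494142066) (dlOf (nat_lit 2) (nat_lit 0x700f9000fd0181b0080)))) (.nd (nat_lit 8) 
(.nd (nat_lit 19) (.lf (nat_lit 4026818674) (dlOf (nat_lit 1) (nat_lit 0x4004000c0018090082))) 
(.lf (nat_lit 4228669554) (dlOf (nat_lit 5) (nat_lit 0xf7026007a010003d406401e802c0012604020102600ff8100080006403fe02c0012404010f026008501000420064021402c001238400010190007e00800480080078002000a00081a0083)))) 
(.lf (nat_lit 5167669618) (dlOf (nat_lit 1) (nat_lit 0x200180f5801))))) (.nd (nat_lit 11) 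
(.nd (nat_lit 8) 
(.lf (nat_lit 4094451954) (dlOf (nat_lit 1) (nat_lit 0x8008007c00200360008050a83))) 
(.lf (nat_lit 1946444274) (dlOf (nat_lit 2) (nat_lit 0x45009c023803e000200100150000002f42000100080078002000c0008090d83)))) 
(.nd (nat_lit 9) 
(.lf (nat_lit 3557062898) (dlOf (nat_lit 1) (nat_lit 0x1000800780020024000812a903))) 
(.lf (nat_lit 4093930226) (dlOf (nat_lit 1) (nat_lit 0x20008000800200060008005a03)))))))) 
(.nd (nat_lit 19) (.nd (nat_lit 27) (.nd (nat_lit 6) (.nd (nat_lit 9) (.nd (nat_lit 26) 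
(.nd (nat_lit 30) (.nd (nat_lit 31) 
(.lf (nat_lit 268754994) (dlOf (nat_lit 12) (nat_lit 0xb002a0049014803800a000d804e000200800040280000b81002b0140000580800980a00002404000805000011020018028000078100090140000380800580a00001a0400480500000b0200240280000501000d0140000000802c8008009400200320008120383))) 
(.lf (nat_lit 2416238642) (dlOf (nat_lit 1) (nat_lit 0xc004000200080c0f82)))) 
(.lf (nat_lit 1342496818) (dlOf (nat_lit 1) (nat_lit 0x400400020018040702)))) 
(.lf (nat_lit 872734770) (dlOf (nat_lit 1) (nat_lit 0x400280b0481)))) (.nd (nat_lit 11) 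
(.lf (nat_lit 23388722) (dlOf (nat_lit 5) (nat_lit 0x79160004c3800009c1000e645800670e00000904001b916000bc380000141000ce458005b0e00000004000a0008b80f01))) 
(.lf (nat_lit 45410866) (dlOf (nat_lit 1) (nat_lit 0xd8008001000200020009325183))))) 
(.nd (nat_lit 7) (.nd (nat_lit 20) (.nd (nat_lit 26) 
(.lf (nat_lit 4026851442) (dlOf (nat_lit 1) (nat_lit 0xb8004006600080a1602))) 
(.lf (nat_lit 3288653938) (dlOf (nat_lit 1) (nat_lit 0xb8004006600080a1602)))) 
(.lf (nat_lit 3465330) (dlOf (nat_lit 2) (nat_lit 0x255800118018200080)))) (.nd (nat_lit 8) 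
(.lf (nat_lit 19194098) (dlOf (nat_lit 1) (nat_lit 0x20018970601))) 
(.lf (nat_lit 20245490) (dlOf (nat_lit 1) (nat_lit 0x200189d5f01)))))) (.nd (nat_lit 8) 
(.nd (nat_lit 26) (.nd (nat_lit 28) (.nd (nat_lit 29) 
(.lf (nat_lit 1208279090) (dlOf (nat_lit 2) (nat_lit 0x36039001130180b0480))) 
(.lf (nat_lit 1745150002) (dlOf (nat_lit 1) (nat_lit 0x400280b0481)))) 
(.lf (nat_lit 2550456370) (dlOf (nat_lit 1) (nat_lit 0x200180c0f01)))) (.nd (nat_lit 28) 
(.lf (nat_lit 2349129778) (dlOf (nat_lit 28) (nat_lit 0x57c030065801683f780b00b90056149802905d9013859600880e10040059c01a08e300b848c80500a2802618cc0120e1f00785268034143001603c20050960000851f80000006c4c04bc01e01dc00d0001a8200a0016818700b02894052024e0270bdd01101030068145802e0602014093600906a3803c276c01a05ca00b0800002823c800413ec000000341e0a5200f05ab0068000cc10108003c003401a0003204008002e00f60078000c01001980cc061805a06f602c0d2501103518068050402e00280140019007809400341c4400a00ca001077d0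000000b86003b80cc023c05e014202d048e016002d00a435d8044025c021062f00d00aa0064022802e0108014000c007802180281d2c00a038200407120000000b480097003c03d001a0002c04019002c02cd011003b0068008002413be00f08e300680bb0014006000203d60000001589006a007802580340005408001001e000200d0001482006b007800380340003008004401e0001702001a00f0000b0100150078000540805a003c015001a0001404012400f000098101f500780d580340002408084001e040600d000088200ac007802680340001e08017401e0000e02093c00f043500680003410008803c008801a0000b04050c00f01d800680002810016003c015c01a00009040f9a00f07eb006800000100a100080f1800217b400080c0f83))) 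
(.lf (nat_lit 2080694322) (dlOf (nat_lit 2) (nat_lit 0x36039001130180b0480))))) (.nd (nat_lit 9) 
(.nd (nat_lit 26) (.lf (nat_lit 671408434) (dlOf (nat_lit 1) (nat_lit 0xc400400a40008188402))) 
(.lf (nat_lit 1543823666) (dlOf (nat_lit 3) (nat_lit 0x192023000140100bf01180009408008000800d400200c80008187a83)))) 
(.nd (nat_lit 6) (.nd (nat_lit 10) 
(.lf (nat_lit 4496616242) (dlOf (nat_lit 1) (nat_lit 0x4004000600080e5c02))) 
(.lf (nat_lit 2886002482) (dlOf (nat_lit 1) (nat_lit 0x40028143d81)))) 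
(.lf (nat_lit 473228274) (dlOf (nat_lit 2) (nat_lit 0x301380060002001a0028dd2881))))))) 
(.nd (nat_lit 26) (.nd (nat_lit 6) (.nd (nat_lit 21) (.nd (nat_lit 20) (.nd (nat_lit 22) 
(.lf (nat_lit 1343021106) (dlOf (nat_lit 2) (nat_lit 0x10de800274080028008009000200fe0008130b83))) 
(.lf (nat_lit 13426738) (dlOf (nat_lit 4) (nat_lit 0x1700000000d80804b8000000680402cc0000002d0200080018720f81)))) 
(.lf (nat_lit 10281010) (dlOf (nat_lit 1) (nat_lit 0x10002001800085c0d02)))) (.nd (nat_lit 7) 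
(.nd (nat_lit 28) 
(.lf (nat_lit 2940978) (dlOf (nat_lit 2) (nat_lit 0x1d05a000062040004004000c00081e0982))) 
(.lf (nat_lit 3492601906) (dlOf (nat_lit 7) (nat_lit 0x5b0fd0056078c02983c202d01e001260eb0093072804b42c8002a15b00bd0a88093051003b027a01a213401530000000b46800187f000038040ec43f8046e1e700710f100b5057404202b8008a13d00a409d80cb84d80002e2007fc3f8000110203f61fc000080101db0fe00003c0815b00080a34002056a00080e0683)))) 
(.lf (nat_lit 8188338) (dlOf (nat_lit 1) (nat_lit 0x28008000400200020008518503))))) 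
(.nd (nat_lit 8) (.nd (nat_lit 7) 
(.lf (nat_lit 135061618) (dlOf (nat_lit 2) (nat_lit 0x2cc00a001fa02000200281b0081))) 
(.lf (nat_lit 17621234) (dlOf (nat_lit 1) (nat_lit 0x4004000200088e0602)))) (.nd (nat_lit 9) 
(.lf (nat_lit 33352178) (dlOf (nat_lit 1) (nat_lit 0x40028f54f01))) 
(.lf (nat_lit 43836402) (dlOf (nat_lit 1) (nat_lit 0x4004000200092a2882)))))) (.nd (nat_lit 27) 
(.nd (nat_lit 10) (.nd (nat_lit 6) (.nd (nat_lit 20) 
(.lf (nat_lit 2754404402) (dlOf (nat_lit 7) (nat_lit 0x5b1078053080c05a040401581f501260f58093077c04b42d0017a15600150a88093051003b027a01a213401530000000b468001884400038040ec442200e220402370fc80b5054c04202a4008a13d00a409d80cb84d80002e2007fc422000110203f6211000080101db10880003c0815b00080a34002056a00080e0683))) 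
(.lf (nat_lit 2753355826) (dlOf (nat_lit 1) (nat_lit 0x8008000800200020008090003)))) 
(.lf (nat_lit 4362920050) (dlOf (nat_lit 1) (nat_lit 0x200181a0081)))) (.nd (nat_lit 7) 
(.lf (nat_lit 2752308274) (dlOf (nat_lit 1) (nat_lit 0x680028002881))) 
(.lf (nat_lit 67958450) (dlOf (nat_lit 1) (nat_lit 0x46001833a001))))) (.nd (nat_lit 6) 
(.nd (nat_lit 10) 
(.lf (nat_lit 470605874) (dlOf (nat_lit 2) (nat_lit 0x10de800274080028008009000200fe0008130b83))) 
(.lf (nat_lit 472704050) (dlOf (nat_lit 1) (nat_lit 0x30002001e0008a42882)))) (.nd (nat_lit 7) 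
(.nd (nat_lit 28) 
(.lf (nat_lit 202170482) (dlOf (nat_lit 2) (nat_lit 0x2cc00a001e802000200281b0081))) 
(.lf (nat_lit 4228702322) (dlOf (nat_lit 1) (nat_lit 0x200181a0081)))) 
(.lf (nat_lit 471654642) (dlOf (nat_lit 2) (nat_lit 0x1c2ca0008b0200020008370601))))))))) 
(.nd (nat_lit 19) (.nd (nat_lit 6) (.nd (nat_lit 15) (.nd (nat_lit 28) (.nd (nat_lit 20) 
(.nd (nat_lit 7) (.nd (nat_lit 26) 
(.lf (nat_lit 537157690) (dlOf (nat_lit 2) (nat_lit 0x200580005f018030d00))) 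
(.lf (nat_lit 3825492026) (dlOf (nat_lit 1) (nat_lit 0x560028170d01)))) (.nd (nat_lit 9) 
(.lf (nat_lit 6442737850) (dlOf (nat_lit 1) (nat_lit 0x200281b0381))) 
(.lf (nat_lit 8681146) (dlOf (nat_lit 1) (nat_lit 0x2002851a001))))) (.nd (nat_lit 9) 
(.nd (nat_lit 10) 
(.lf (nat_lit 1335354) (dlOf (nat_lit 3) (nat_lit 0xa98000000a40400307dc0028000000258280b0680))) 
(.lf (nat_lit 45376570) (dlOf (nat_lit 1) (nat_lit 0x100019322881)))) 
(.lf (nat_lit 3433018) (dlOf (nat_lit 1) (nat_lit 0x400200020008201002))))) (.nd (nat_lit 7) 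
(.nd (nat_lit 8) (.nd (nat_lit 26) 
(.lf (nat_lit 3087294522) (dlOf (nat_lit 1) (nat_lit 0x560028170d01))) 
(.lf (nat_lit 1409572922) (dlOf (nat_lit 2) (nat_lit 0x200580005e818030d00)))) 
(.lf (nat_lit 5301888314) (dlOf (nat_lit 3) (nat_lit 0x802200014020026011000098180e3280)))) 
(.nd (nat_lit 10) (.lf (nat_lit 5838758074) (dlOf (nat_lit 1) (nat_lit 0x200281b0381))) 
(.lf (nat_lit 3624168634) (dlOf (nat_lit 1) (nat_lit 0x1a0028146301)))))) (.nd (nat_lit 27) 
(.nd (nat_lit 21) (.nd (nat_lit 26) 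
(.lf (nat_lit 5905899578) (dlOf (nat_lit 1) (nat_lit 0xc00400060008160682))) 
(.lf (nat_lit 6509879354) (dlOf (nat_lit 1) (nat_lit 0xc00400060008160682)))) (.nd (nat_lit 8) 
(.lf (nat_lit 45410874) (dlOf (nat_lit 1) (nat_lit 0x40029325201))) 
(.lf (nat_lit 56943930) (dlOf (nat_lit 1) (nat_lit 0x20019793281))))) (.nd (nat_lit 28) 
(.nd (nat_lit 7) (.nd (nat_lit 8) 
(.lf (nat_lit 1208279098) (dlOf (nat_lit 2) (nat_lit 0xc014801d0030000f0080030004004600080b0482))) 
(.lf (nat_lit 671408442) (dlOf (nat_lit 10) (nat_lit 0xb0000000be0402080460005e02010c0230002e8100790118001500803e008c000a60401ec0460005102005e00500022810001002800110080028014000800400a800400540008188502)))) 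
(.lf (nat_lit 2818897594) (dlOf (nat_lit 5) (nat_lit 0x500c40026043001400e0012c81800c8194006408c00320450019010800c80800094014002808c000e0450024b82001402300124808006000800d8002000a000812a003)))) 
(.nd (nat_lit 7) (.nd (nat_lit 26) 
(.lf (nat_lit 2550456378) (dlOf (nat_lit 1) (nat_lit 0x200180c1381))) 
(.lf (nat_lit 2080694330) (dlOf (nat_lit 2) (nat_lit 0xc014801d0030000f0080030004004600080b0482)))) 
(.lf (nat_lit 3624201402) (dlOf (nat_lit 1) (nat_lit 0xe0028146301))))))) (.nd (nat_lit 8) 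
(.nd (nat_lit 28) (.nd (nat_lit 7) (.nd (nat_lit 15) 
(.lf (nat_lit 3288621178) (dlOf (nat_lit 1) (nat_lit 0x800400060008090082))) 
(.lf (nat_lit 5570355322) (dlOf (nat_lit 1) (nat_lit 0x20018100c81)))) (.nd (nat_lit 11) 
(.nd (nat_lit 15) (.lf (nat_lit 57958650) (dlOf (nat_lit 1) (nat_lit 0x4004000200097a2902))) 
(.lf (nat_lit 20242682) (dlOf (nat_lit 2) (nat_lit 0xc35c0004e0189d0a80)))) 
(.lf (nat_lit 2751752442) (dlOf (nat_lit 3) (nat_lit 0x401fc000ca0400400fe000640200020028004b81))))) 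
(.nd (nat_lit 9) (.nd (nat_lit 15) (.nd (nat_lit 26) 
(.lf (nat_lit 4026818682) (dlOf (nat_lit 1) (nat_lit 0x800400060008090082))) 
(.lf (nat_lit 5167669370) (dlOf (nat_lit 1) (nat_lit 0x4004000200080f0b82)))) 
(.lf (nat_lit 6241443962) (dlOf (nat_lit 1) (nat_lit 0x400180f0c81)))) (.nd (nat_lit 26) 
(.lf (nat_lit 5234779770) (dlOf (nat_lit 1) (nat_lit 0x100080014002000400080d3983))) 
(.lf (nat_lit 6375630458) (dlOf (nat_lit 1) (nat_lit 0x8008000400200020008003983)))))) 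
(.nd (nat_lit 7) (.nd (nat_lit 11) (.nd (nat_lit 26) 
(.lf (nat_lit 6442738042) (dlOf (nat_lit 1) (nat_lit 0x2200181b0781))) 
(.lf (nat_lit 5167669626) (dlOf (nat_lit 1) (nat_lit 0x1680080188002024600080f5903)))) 
(.nd (nat_lit 9) (.lf (nat_lit 54815098) (dlOf (nat_lit 1) (nat_lit 0x20019654e81))) 
(.lf (nat_lit 323450) (dlOf (nat_lit 1) (nat_lit 0x200028007781))))) (.nd (nat_lit 9) 
(.nd (nat_lit 10) (.lf (nat_lit 3959710202) (dlOf (nat_lit 2) (nat_lit 0x1a00e00011018127e00))) 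
(.nd (nat_lit 15) 
(.lf (nat_lit 3624168954) (dlOf (nat_lit 2) (nat_lit 0x580000000a04000800200040008146f82))) 
(.lf (nat_lit 3624201722) (dlOf (nat_lit 1) (nat_lit 0x400200020008146f82))))) (.nd (nat_lit 11) 
(.lf (nat_lit 52749306) (dlOf (nat_lit 1) (nat_lit 0x400200020009572882))) 
(.lf (nat_lit 60091386) (dlOf (nat_lit 1) (nat_lit 0x20029845f01)))))))) (.nd (nat_lit 15) 
(.nd (nat_lit 8) (.nd (nat_lit 6) (.nd (nat_lit 21) (.nd (nat_lit 9) (.nd (nat_lit 20) 
(.nd (nat_lit 22) (.lf (nat_lit 811066) (dlOf (nat_lit 1) (nat_lit 0x240018020681))) 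
(.lf (nat_lit 21782586) (dlOf (nat_lit 2) (nat_lit 0x1012300025818a70680)))) 
(.lf (nat_lit 3491520570) (dlOf (nat_lit 2) (nat_lit 0x1e08b00671018090000)))) 
(.lf (nat_lit 67925562) (dlOf (nat_lit 2) (nat_lit 0x42ca00c110200020018339c01)))) (.nd (nat_lit 9) 
(.nd (nat_lit 7) (.lf (nat_lit 29122618) (dlOf (nat_lit 1) (nat_lit 0x28008000800200060008dc0c83))) 
(.lf (nat_lit 1345086650) (dlOf (nat_lit 2) (nat_lit 0x2158000000189e2c80)))) (.nd (nat_lit 10) 
(.lf (nat_lit 19685946) (dlOf (nat_lit 1) (nat_lit 0x400289d1501))) 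
(.lf (nat_lit 8152634) (dlOf (nat_lit 1) (nat_lit 0x60008513781)))))) (.nd (nat_lit 28) 
(.nd (nat_lit 22) 
(.lf (nat_lit 4362887290) (dlOf (nat_lit 2) (nat_lit 0x8c08e000c02d0011a0281a0080))) 
(.lf (nat_lit 30171258) (dlOf (nat_lit 1) (nat_lit 0x20028e30481)))) (.nd (nat_lit 7) 
(.lf (nat_lit 4228669562) (dlOf (nat_lit 2) (nat_lit 0x8c080000c02c001260281a0080))) 
(.lf (nat_lit 4094451962) (dlOf (nat_lit 1) (nat_lit 0x400400020008050a82)))))) (.nd (nat_lit 26) 
(.nd (nat_lit 11) (.nd (nat_lit 22) 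
(.lf (nat_lit 135029050) (dlOf (nat_lit 1) (nat_lit 0x80080074002000c00081b0583))) 
(.lf (nat_lit 30171450) (dlOf (nat_lit 1) (nat_lit 0x240028e30701)))) (.nd (nat_lit 6) 
(.lf (nat_lit 20737338) (dlOf (nat_lit 1) (nat_lit 0xe00089d6901))) 
(.lf (nat_lit 35416570) (dlOf (nat_lit 1) (nat_lit 0x60019014f81))))) (.nd (nat_lit 27) 
(.nd (nat_lit 6) 
(.lf (nat_lit 4362887482) (dlOf (nat_lit 2) (nat_lit 0x19013c0108064006403100320160000982000100080044002001600081a0583))) 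
(.lf (nat_lit 2753323386) (dlOf (nat_lit 2) (nat_lit 0xe08800ecc818090780)))) (.nd (nat_lit 28) 
(.lf (nat_lit 202137914) (dlOf (nat_lit 1) (nat_lit 0x80080074002000c00081b0583))) 
(.lf (nat_lit 4228669754) (dlOf (nat_lit 2) (nat_lit 0x1901200108062006403000320158000942000100080044002001600081a0583))))))) 
(.nd (nat_lit 8) (.nd (nat_lit 20) (.nd (nat_lit 28) (.nd (nat_lit 22) 
(.lf (nat_lit 843834) (dlOf (nat_lit 2) (nat_lit 0x2200000025818020680))) 
(.lf (nat_lit 21815354) (dlOf (nat_lit 12) (nat_lit 0x72645801ab0e00005f040187916002ec3800017410046e458032b0e0000590400f3916006dc3800015c10004f2fc00ab97a02b391601aec8a80bd644403931d602a7870018fc378060e1ac07ea3ee013ac980002642806cb0ac079c000000521c00c1aad013ec8b0067645400af22601e3911013fc380061e1bc014b0da004d86b0044bd0005b47dc02c9d780100e4400037110070b2c40109876019a9a1000600000012c9004764580006604025322c000320201df9160002c380000c01004ae4580005c04000dc420000002000a0008a70681)))) 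
(.nd (nat_lit 6) (.nd (nat_lit 26) 
(.lf (nat_lit 1343021114) (dlOf (nat_lit 1) (nat_lit 0x30008013400200f40008130b83))) 
(.lf (nat_lit 470605882) (dlOf (nat_lit 1) (nat_lit 0x30008013400200f40008130b83)))) 
(.lf (nat_lit 1879894138) (dlOf (nat_lit 1) (nat_lit 0x4002000200083d4782))))) (.nd (nat_lit 6) 
(.nd (nat_lit 22) (.lf (nat_lit 1346166842) (dlOf (nat_lit 1) (nat_lit 0x3000400240008e60582))) 
(.lf (nat_lit 16572474) (dlOf (nat_lit 1) (nat_lit 0x5400088c0901)))) (.nd (nat_lit 29) 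
(.lf (nat_lit 471654522) (dlOf (nat_lit 2) (nat_lit 0x14805e8003a4080470008055c00201360008370483))) 
(.lf (nat_lit 6377234554) (dlOf (nat_lit 3) (nat_lit 0x603a0003201000e01d0000000800600080070002001400080c0c83)))))) 
(.nd (nat_lit 24) (.nd (nat_lit 26) 
(.lf (nat_lit 135061818) (dlOf (nat_lit 2) (nat_lit 0xc902d8000940801a0008038c002002400081b0583))) 
(.nd (nat_lit 27) 
(.lf (nat_lit 4362920250) (dlOf (nat_lit 3) (nat_lit 0xa0000000fc0800101000004c040140002005800081a0582))) 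
(.nd (nat_lit 28) 
(.lf (nat_lit 202170682) (dlOf (nat_lit 2) (nat_lit 0xc902e0000980801a0008038c002002400081b0583))) 
(.lf (nat_lit 4228702522) (dlOf (nat_lit 3) (nat_lit 0xa0000000fc0800100e40004a040140002005800081a0582)))))) 
(.nd (nat_lit 6) (.nd (nat_lit 9) 
(.lf (nat_lit 30204218) (dlOf (nat_lit 1) (nat_lit 0x400400020008e30702))) 
(.lf (nat_lit 20772666) (dlOf (nat_lit 1) (nat_lit 0x4002000200089da102)))) 
(.lf (nat_lit 33352058) (dlOf (nat_lit 1) (nat_lit 0x20018f54e81)))))))))))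

end

end Pool.Agent.Lib.MP_5854e1_co.Cz

namespace Pool.Agent.Lib.MP_5854e1_co.Cz

noncomputable section

noncomputable def tz217 : DT := (.nd (nat_lit 3) (.nd (nat_lit 15) (.nd (nat_lit 28) 
(.nd (nat_lit 18) (.nd (nat_lit 5) (.nd (nat_lit 7) (.nd (nat_lit 19) (.nd (nat_lit 10) 
(.nd (nat_lit 6) (.nd (nat_lit 21) 
(.lf (nat_lit 26238998) (dlOf (nat_lit 1) (nat_lit 0x60008003000200160008c20503))) 
(.lf (nat_lit 11558934) (dlOf (nat_lit 1) (nat_lit 0x1800186b0501)))) 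
(.lf (nat_lit 14704726) (dlOf (nat_lit 2) (nat_lit 0x3c68a00020018770780)))) (.nd (nat_lit 8) 
(.nd (nat_lit 9) (.lf (nat_lit 36725782) (dlOf (nat_lit 1) (nat_lit 0x20019072881))) 
(.lf (nat_lit 2147509782) (dlOf (nat_lit 1) (nat_lit 0x800200060008003702)))) (.nd (nat_lit 9) 
(.lf (nat_lit 2147509526) (dlOf (nat_lit 1) (nat_lit 0x480018003081))) 
(.lf (nat_lit 604008214) (dlOf (nat_lit 1) (nat_lit 0x8800400020018007482)))))) (.nd (nat_lit 26) 
(.nd (nat_lit 21) (.nd (nat_lit 6) (.nd (nat_lit 20) (.nd (nat_lit 22) 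
(.lf (nat_lit 134766614) (dlOf (nat_lit 4) (nat_lit 0x7010c003c0820191d0400320430012020800280fc004c0740191c080028043000f01f8004004c031040c0090004003600180b0902))) 
(.lf (nat_lit 4743190) (dlOf (nat_lit 1) (nat_lit 0x80080004002000200082b0083)))) 
(.lf (nat_lit 9986070) (dlOf (nat_lit 1) (nat_lit 0x480080010002001200085a0a03)))) 
(.lf (nat_lit 3221774422) (dlOf (nat_lit 2) (nat_lit 0x404600009818181100)))) (.nd (nat_lit 20) 
(.nd (nat_lit 22) (.lf (nat_lit 44589078) (dlOf (nat_lit 1) (nat_lit 0x40029320001))) 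
(.lf (nat_lit 48783382) (dlOf (nat_lit 1) (nat_lit 0x400400020009430582)))) 
(.lf (nat_lit 3694614) (dlOf (nat_lit 1) (nat_lit 0x148008002c00200200008210883))))) 
(.nd (nat_lit 27) (.nd (nat_lit 20) 
(.lf (nat_lit 4362625046) (dlOf (nat_lit 1) (nat_lit 0x1cc002004600080b0582))) 
(.lf (nat_lit 2753060886) (dlOf (nat_lit 1) (nat_lit 0x400200020008080502)))) (.nd (nat_lit 6) 
(.lf (nat_lit 201875478) (dlOf (nat_lit 4) (nat_lit 0x7010c003c08201c6a0400320430012020800280fc004c07401c69080028043000f01f8004004c037d80c0090004003600180b0902))) 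
(.lf (nat_lit 3959971926) (dlOf (nat_lit 2) (nat_lit 0x404600014818181100))))))) (.nd (nat_lit 6) 
(.nd (nat_lit 30) (.nd (nat_lit 11) (.nd (nat_lit 19) 
(.lf (nat_lit 47210646) (dlOf (nat_lit 1) (nat_lit 0x4002010a00093b1102))) 
(.lf (nat_lit 23617686) (dlOf (nat_lit 1) (nat_lit 0x20018b80181)))) (.nd (nat_lit 8) 
(.lf (nat_lit 4362102934) (dlOf (nat_lit 3) (nat_lit 0xa0330001e8100060090000b40800b0008005c002003a0008004803))) 
(.lf (nat_lit 37775766) (dlOf (nat_lit 1) (nat_lit 0x4004000200190d4e82))))) (.nd (nat_lit 26) 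
(.nd (nat_lit 10) (.lf (nat_lit 3892863126) (dlOf (nat_lit 1) (nat_lit 0x400400020008280482))) 
(.lf (nat_lit 3355473046) (dlOf (nat_lit 4) (nat_lit 0x1d800a00e0004004e000001a081802800c801cc00600ac0000027483004a00180198000009b00800c400400040018009502)))) 
(.nd (nat_lit 8) (.lf (nat_lit 3288362134) (dlOf (nat_lit 1) (nat_lit 0xe80018006201))) 
(.lf (nat_lit 5435843990) (dlOf (nat_lit 1) (nat_lit 0x40008006400200060008003603)))))) 
(.nd (nat_lit 30) (.nd (nat_lit 25) (.nd (nat_lit 8) 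
(.lf (nat_lit 8414422) (dlOf (nat_lit 1) (nat_lit 0x120028512d81))) 
(.lf (nat_lit 4362101718) (dlOf (nat_lit 1) (nat_lit 0x400400020018002882)))) (.nd (nat_lit 21) 
(.lf (nat_lit 50357206) (dlOf (nat_lit 1) (nat_lit 0x4002000200094c2882))) 
(.lf (nat_lit 39871446) (dlOf (nat_lit 1) (nat_lit 0xe00191f2881))))) (.nd (nat_lit 8) 
(.lf (nat_lit 1074290902) (dlOf (nat_lit 2) (nat_lit 0x9c000000e68181b0480))) (.nd (nat_lit 27) 
(.lf (nat_lit 3221251030) (dlOf (nat_lit 1) (nat_lit 0x68008002c00200100008002883))) 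
(.lf (nat_lit 1744856022) (dlOf (nat_lit 1) (nat_lit 0x400400020008002882)))))))) (.nd (nat_lit 10) 
(.nd (nat_lit 26) (.nd (nat_lit 6) (.nd (nat_lit 22) (.nd (nat_lit 7) 
(.lf (nat_lit 25190454) (dlOf (nat_lit 1) (nat_lit 0x20018bf0b81))) 
(.lf (nat_lit 5368736694) (dlOf (nat_lit 1) (nat_lit 0x20008005d01)))) (.nd (nat_lit 20) 
(.lf (nat_lit 14704694) (dlOf (nat_lit 2) (nat_lit 0x564e5000aa018770480))) 
(.lf (nat_lit 13656118) (dlOf (nat_lit 1) (nat_lit 0x180018740781))))) (.nd (nat_lit 7) 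
(.nd (nat_lit 8) (.lf (nat_lit 47210614) (dlOf (nat_lit 2) (nat_lit 0x1027a0002b02001000093b0b01))) 
(.lf (nat_lit 54028662) (dlOf (nat_lit 1) (nat_lit 0x8004000200095f4e82)))) 
(.lf (nat_lit 8418038) (dlOf (nat_lit 1) (nat_lit 0x20028518f81))))) (.nd (nat_lit 7) 
(.nd (nat_lit 30) (.nd (nat_lit 11) 
(.lf (nat_lit 2755158070) (dlOf (nat_lit 6) (nat_lit 0xd10e00071c0800588700038c0400044380004102000e282000e0000005500800787140012804000400400100018120d02))) 
(.lf (nat_lit 4362106934) (dlOf (nat_lit 2) (nat_lit 0x1280cc0086e0400200040010001800a602)))) 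
(.nd (nat_lit 27) 
(.lf (nat_lit 1678270518) (dlOf (nat_lit 3) (nat_lit 0x602d0001b01000801680004c0801380080024002000c00081c0b03))) 
(.lf (nat_lit 3959971894) (dlOf (nat_lit 5) (nat_lit 0xe00dc000d004012807c000e0000000c82000501f00010038000c0000001806009203e0002007000050100020008000400200200008180a83))))) 
(.nd (nat_lit 6) (.lf (nat_lit 3825232054) (dlOf (nat_lit 1) (nat_lit 0x20028004901))) 
(.nd (nat_lit 29) 
(.lf (nat_lit 4362107382) (dlOf (nat_lit 1) (nat_lit 0x800800040020002000800b283))) 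
(.lf (nat_lit 3825236470) (dlOf (nat_lit 1) (nat_lit 0x800800540020020000800b283))))))) 
(.nd (nat_lit 8) (.nd (nat_lit 6) (.nd (nat_lit 7) 
(.lf (nat_lit 40395830) (dlOf (nat_lit 1) (nat_lit 0x4004000200091f2882))) 
(.lf (nat_lit 3355473078) (dlOf (nat_lit 1) (nat_lit 0x28008000400200060008009503)))) 
(.nd (nat_lit 26) (.lf (nat_lit 3355473526) (dlOf (nat_lit 2) (nat_lit 0x40000002d018009d00))) 
(.nd (nat_lit 31) (.lf (nat_lit 67139190) (dlOf (nat_lit 1) (nat_lit 0x1f80018009d01))) 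
(.lf (nat_lit 2214622838) (dlOf (nat_lit 1) (nat_lit 0x80018009d01)))))) (.nd (nat_lit 9) 
(.nd (nat_lit 7) (.nd (nat_lit 19) 
(.lf (nat_lit 8418614) (dlOf (nat_lit 1) (nat_lit 0x10008000400200020008519903))) 
(.lf (nat_lit 8942902) (dlOf (nat_lit 1) (nat_lit 0x400200020008519902)))) 
(.lf (nat_lit 8943030) (dlOf (nat_lit 1) (nat_lit 0xc0028519981)))) (.nd (nat_lit 6) 
(.nd (nat_lit 26) (.lf (nat_lit 6576695094) (dlOf (nat_lit 1) (nat_lit 0x80028003e01))) 
(.lf (nat_lit 3825231670) (dlOf (nat_lit 1) (nat_lit 0x9000200120008003e02)))) 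
(.lf (nat_lit 4429211510) (dlOf (nat_lit 1) (nat_lit 0x20028004081)))))))) (.nd (nat_lit 6) 
(.nd (nat_lit 5) (.nd (nat_lit 7) (.nd (nat_lit 20) (.nd (nat_lit 26) (.nd (nat_lit 8) 
(.nd (nat_lit 21) (.lf (nat_lit 671375382) (dlOf (nat_lit 1) (nat_lit 0x20028170881))) 
(.lf (nat_lit 10772502) (dlOf (nat_lit 1) (nat_lit 0x10008003400200300008620483)))) 
(.lf (nat_lit 2818866454) (dlOf (nat_lit 1) (nat_lit 0x24004001c001812c602)))) (.nd (nat_lit 9) 
(.lf (nat_lit 3825491990) (dlOf (nat_lit 1) (nat_lit 0x400400020008170882))) (.nd (nat_lit 19) 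
(.lf (nat_lit 3288621590) (dlOf (nat_lit 2) (nat_lit 0xf01b0005b0080218008006c002000e0008090d83))) 
(.lf (nat_lit 202138134) (dlOf (nat_lit 1) (nat_lit 0x2ec004003200081b0d82)))))) (.nd (nat_lit 21) 
(.nd (nat_lit 23) (.lf (nat_lit 22306838) (dlOf (nat_lit 1) (nat_lit 0xa0008ac0101))) 
(.lf (nat_lit 47472662) (dlOf (nat_lit 1) (nat_lit 0x800293f0101)))) 
(.lf (nat_lit 32792598) (dlOf (nat_lit 1) (nat_lit 0x400200020008f10082))))) (.nd (nat_lit 19) 
(.nd (nat_lit 8) 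
(.lf (nat_lit 1208246422) (dlOf (nat_lit 5) (nat_lit 0x200a40006e040004052000360200080290001a8100040148000c8080048008000c002001a00080a2a83))) 
(.nd (nat_lit 9) (.lf (nat_lit 34892182) (dlOf (nat_lit 1) (nat_lit 0x400400020008fb4e82))) 
(.lf (nat_lit 54815638) (dlOf (nat_lit 2) (nat_lit 0x82740000fc080018008002800200040009655c83))))) 
(.nd (nat_lit 20) (.lf (nat_lit 38562198) (dlOf (nat_lit 1) (nat_lit 0x400400020009134e82))) 
(.lf (nat_lit 20736406) (dlOf (nat_lit 1) (nat_lit 0x35000401c000089d4e82)))))) (.nd (nat_lit 24) 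
(.nd (nat_lit 30) (.nd (nat_lit 23) (.nd (nat_lit 9) 
(.lf (nat_lit 671375414) (dlOf (nat_lit 2) (nat_lit 0x400f8007340800300080024002000e0008170d03))) 
(.lf (nat_lit 6442738230) (dlOf (nat_lit 1) (nat_lit 0x200181b0f81)))) (.nd (nat_lit 19) 
(.lf (nat_lit 12869686) (dlOf (nat_lit 1) (nat_lit 0x200086e0b01))) 
(.lf (nat_lit 9199670) (dlOf (nat_lit 1) (nat_lit 0x4400200020008530482))))) (.nd (nat_lit 8) 
(.nd (nat_lit 9) (.nd (nat_lit 26) 
(.lf (nat_lit 3758383158) (dlOf (nat_lit 1) (nat_lit 0x8008000800200020008170483))) 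
(.lf (nat_lit 3422838838) (dlOf (nat_lit 5) (nat_lit 0x8016000080ac019da08000405600cec02000202b00671810002015803388080008008001000200040008110783)))) 
(.lf (nat_lit 3221512758) (dlOf (nat_lit 3) (nat_lit 0x200b80154040000200400160200000f818128100)))) 
(.nd (nat_lit 26) 
(.lf (nat_lit 3221512502) (dlOf (nat_lit 3) (nat_lit 0x2001140097004007c014004b50200080028124c01))) 
(.lf (nat_lit 3959710006) (dlOf (nat_lit 3) (nat_lit 0x2001140149a04007c01400a4a0200080028124c01)))))) 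
(.nd (nat_lit 19) (.nd (nat_lit 7) (.nd (nat_lit 8) 
(.lf (nat_lit 22306870) (dlOf (nat_lit 1) (nat_lit 0x8008000400200020008ac0683))) 
(.lf (nat_lit 20212534) (dlOf (nat_lit 1) (nat_lit 0x4002000200089d5c02)))) 
(.lf (nat_lit 19161270) (dlOf (nat_lit 1) (nat_lit 0x1c0018970481)))) (.nd (nat_lit 21) 
(.nd (nat_lit 8) 
(.lf (nat_lit 22831158) (dlOf (nat_lit 4) (nat_lit 0x36a40001b518019da080031a90001ad46006760200056a40002b518019c6080030004000e0018b30782))) 
(.lf (nat_lit 51142966) (dlOf (nat_lit 2) (nat_lit 0xe7420030380801380080008002000a0009507b03)))) 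
(.nd (nat_lit 9) (.lf (nat_lit 29122614) (dlOf (nat_lit 1) (nat_lit 0x400400020018dc0c02))) 
(.lf (nat_lit 20737590) (dlOf (nat_lit 1) (nat_lit 0x4004000200089d7182)))))))) (.nd (nat_lit 9) 
(.nd (nat_lit 5) (.nd (nat_lit 26) (.nd (nat_lit 23) (.nd (nat_lit 8) 
(.lf (nat_lit 2818866262) (dlOf (nat_lit 1) (nat_lit 0x1000800780020024000812bf83))) 
(.lf (nat_lit 3221512534) (dlOf (nat_lit 6) (nat_lit 0xdc08c0066031000e00800df8028000c81007040140006302009a046006902280013410034815800a40aa00d2052007f0278011813401bc06c00fe032007f018801280b80020056000c01e00850088019004006f4014004a008003700300011080031015801880a400d40360009015803f00440094020037800a0037003000108400f0800802700020cbc0008124d03)))) 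
(.nd (nat_lit 19) (.lf (nat_lit 9723990) (dlOf (nat_lit 1) (nat_lit 0x400400020008580602))) 
(.lf (nat_lit 9199702) (dlOf (nat_lit 2) (nat_lit 0x4cafa001251e00009028530700))))) 
(.nd (nat_lit 8) (.nd (nat_lit 7) 
(.lf (nat_lit 67395670) (dlOf (nat_lit 1) (nat_lit 0x200180f0781))) 
(.lf (nat_lit 4362887382) (dlOf (nat_lit 2) (nat_lit 0x12c032001238181a0480)))) (.nd (nat_lit 11) 
(.lf (nat_lit 3959710038) (dlOf (nat_lit 8) (nat_lit 0x2a0118002006203b200a0003203004d01881190028000c208014408c0004e0200420460002681000d00500011008003015800740aa00120520019026800700d8002c06400c602b006500f0012004400ec020045e00a0006004004f8018000803400480ac003a055001b029000d8134007006c00380340016019004600c401d005600de01e0033008801d004008f0014001000800ad0030000fc7811d000808e80020dd80008124e03))) 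
(.lf (nat_lit 2885970262) (dlOf (nat_lit 2) (nat_lit 0x580000000a04000800200040008144e02)))))) 
(.nd (nat_lit 7) (.nd (nat_lit 8) (.nd (nat_lit 20) 
(.lf (nat_lit 1208246390) (dlOf (nat_lit 1) (nat_lit 0x400080a1f01))) 
(.lf (nat_lit 62152822) (dlOf (nat_lit 1) (nat_lit 0xc00400080009960d82)))) 
(.lf (nat_lit 8152438) (dlOf (nat_lit 1) (nat_lit 0x5000200160008513502)))) (.nd (nat_lit 10) 
(.lf (nat_lit 2752798966) (dlOf (nat_lit 1) (nat_lit 0x20018047781))) 
(.lf (nat_lit 1610900726) (dlOf (nat_lit 1) (nat_lit 0x400400020008092e82)))))) (.nd (nat_lit 19) 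
(.nd (nat_lit 26) (.nd (nat_lit 5) 
(.lf (nat_lit 287702) (dlOf (nat_lit 1) (nat_lit 0x20028002881))) (.nd (nat_lit 11) 
(.lf (nat_lit 4832125942) (dlOf (nat_lit 1) (nat_lit 0x200180d2881))) 
(.lf (nat_lit 46427126) (dlOf (nat_lit 1) (nat_lit 0x120019385f01))))) (.nd (nat_lit 7) 
(.lf (nat_lit 2751752022) (dlOf (nat_lit 1) (nat_lit 0x400400020018003f02))) (.nd (nat_lit 10) 
(.lf (nat_lit 1141138390) (dlOf (nat_lit 1) (nat_lit 0xc0028122881))) 
(.lf (nat_lit 2885969878) (dlOf (nat_lit 2) (nat_lit 0xe000000028040054002000a0008144502)))))) 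
(.nd (nat_lit 22) (.nd (nat_lit 21) (.nd (nat_lit 5) 
(.lf (nat_lit 2752275414) (dlOf (nat_lit 1) (nat_lit 0x20018002881))) 
(.lf (nat_lit 2752275446) (dlOf (nat_lit 1) (nat_lit 0x20018002881)))) (.nd (nat_lit 24) 
(.lf (nat_lit 36463574) (dlOf (nat_lit 1) (nat_lit 0x20019072881))) 
(.lf (nat_lit 53240790) (dlOf (nat_lit 1) (nat_lit 0x840029572881))))) (.nd (nat_lit 5) 
(.nd (nat_lit 24) (.lf (nat_lit 39609302) (dlOf (nat_lit 1) (nat_lit 0x8008001000200020009192883))) 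
(.lf (nat_lit 56386518) (dlOf (nat_lit 1) (nat_lit 0x400400020019732882)))) 
(.lf (nat_lit 55337974) (dlOf (nat_lit 1) (nat_lit 0x1200296d2881))))))))) (.nd (nat_lit 5) 
(.nd (nat_lit 7) (.nd (nat_lit 27) (.nd (nat_lit 29) (.nd (nat_lit 19) (.nd (nat_lit 8) 
(.nd (nat_lit 10) 
(.lf (nat_lit 3493879830) (dlOf (nat_lit 4) (nat_lit 0x20608800d2281012304400690c0800302280347204000c002003600081b0002))) 
(.lf (nat_lit 6710914070) (dlOf (nat_lit 1) (nat_lit 0x800200020008005f82)))) (.nd (nat_lit 6) 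
(.lf (nat_lit 3493880086) (dlOf (nat_lit 3) (nat_lit 0x48180000a402004a0c0000008181b0480))) 
(.lf (nat_lit 2483059542) (dlOf (nat_lit 1) (nat_lit 0x800800040020002000800bc83))))) 
(.nd (nat_lit 18) (.lf (nat_lit 3491258390) (dlOf (nat_lit 1) (nat_lit 0x400200020008080502))) 
(.nd (nat_lit 26) (.lf (nat_lit 1342988310) (dlOf (nat_lit 1) (nat_lit 0x40018120a81))) 
(.lf (nat_lit 3557580822) (dlOf (nat_lit 29) (nat_lit 0x30c037809080d00156c080ad00de00300340055a82026f037803380d00156808004c0de009aa02001806f004d4810065037800080d0013480800d00de009a102002e06f004cd0102b60378026640812501bc013260407cc0de0098a02050a06f004101a0026181015f01bc0130a040ae00de003c034004bb0202bd0378025d40815e81bc012e80403180de0096034004b98202be037800c00d0012e408098c0de0097102030206f006801a00048c1001a01bc00222040a7c0de000fa02011806f0007c81029e037804380d0001ba0804840de000d702001e0210000b8100050108000540802101c804fc0de003a03f003b01a000000200068008005800200100008270483))))))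 
(.nd (nat_lit 26) (.nd (nat_lit 8) 
(.lf (nat_lit 2953076758) (dlOf (nat_lit 1) (nat_lit 0xc004000800080f0482))) (.nd (nat_lit 9) 
(.lf (nat_lit 5100560662) (dlOf (nat_lit 1) (nat_lit 0x10004002400080d0a82))) 
(.lf (nat_lit 2952818454) (dlOf (nat_lit 1) (nat_lit 0x3f800400220008007482))))) (.nd (nat_lit 6) 
(.nd (nat_lit 10) 
(.lf (nat_lit 3020185622) (dlOf (nat_lit 2) (nat_lit 0x101b000550080008008000800200040008150083))) 
(.lf (nat_lit 4093928470) (dlOf (nat_lit 1) (nat_lit 0x100018002881)))) (.nd (nat_lit 31) 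
(.lf (nat_lit 872702038) (dlOf (nat_lit 1) (nat_lit 0x80080004002000200080a1803))) 
(.lf (nat_lit 3020185686) (dlOf (nat_lit 2) (nat_lit 0xd80f00060076000c03500027838150780))))))) 
(.nd (nat_lit 19) (.nd (nat_lit 29) (.nd (nat_lit 31) (.nd (nat_lit 20) 
(.lf (nat_lit 1543790614) (dlOf (nat_lit 1) (nat_lit 0x20028170881))) 
(.lf (nat_lit 471097366) (dlOf (nat_lit 2) (nat_lit 0x4c13a000208e000403f000000180228008001000200400008270483)))) 
(.nd (nat_lit 6) 
(.lf (nat_lit 3691274262) (dlOf (nat_lit 2) (nat_lit 0x19c000000000200020028110481))) 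
(.lf (nat_lit 3691016022) (dlOf (nat_lit 1) (nat_lit 0x18000200020008007782))))) (.nd (nat_lit 6) 
(.nd (nat_lit 26) (.lf (nat_lit 3087294486) (dlOf (nat_lit 1) (nat_lit 0x400400020008170882))) 
(.lf (nat_lit 1006919702) (dlOf (nat_lit 1) (nat_lit 0x700080018002002000080e0583)))) 
(.lf (nat_lit 1006659926) (dlOf (nat_lit 1) (nat_lit 0x20018004e01))))) (.nd (nat_lit 20) 
(.nd (nat_lit 29) (.nd (nat_lit 26) 
(.lf (nat_lit 5772173334) (dlOf (nat_lit 1) (nat_lit 0xc0008090001))) 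
(.lf (nat_lit 470573078) (dlOf (nat_lit 1) (nat_lit 0x40018120a81)))) (.nd (nat_lit 8) 
(.lf (nat_lit 4228407318) (dlOf (nat_lit 2) (nat_lit 0x52000000000040460002003a00080b0582))) 
(.lf (nat_lit 4228669718) (dlOf (nat_lit 1) (nat_lit 0x4600181a0481))))) (.nd (nat_lit 6) 
(.lf (nat_lit 471621654) (dlOf (nat_lit 1) (nat_lit 0x3000200080008360402))) (.nd (nat_lit 26) 
(.lf (nat_lit 5773221974) (dlOf (nat_lit 1) (nat_lit 0x200280b0701))) 
(.lf (nat_lit 6377201750) (dlOf (nat_lit 1) (nat_lit 0x200280b0701)))))))) (.nd (nat_lit 27) 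
(.nd (nat_lit 31) (.nd (nat_lit 8) (.nd (nat_lit 6) (.nd (nat_lit 9) (.nd (nat_lit 10) 
(.lf (nat_lit 4563689622) (dlOf (nat_lit 1) (nat_lit 0x5000280c1101))) 
(.lf (nat_lit 1342205078) (dlOf (nat_lit 3) (nat_lit 0x211b8000840800987cc0004004000c004001e0008006202)))) 
(.lf (nat_lit 1342206614) (dlOf (nat_lit 1) (nat_lit 0x20018008c81)))) 
(.lf (nat_lit 1946706134) (dlOf (nat_lit 2) (nat_lit 0x9c000000e68181b0480)))) (.nd (nat_lit 6) 
(.nd (nat_lit 11) (.lf (nat_lit 5167669654) (dlOf (nat_lit 1) (nat_lit 0x200180f6481))) 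
(.lf (nat_lit 1880385942) (dlOf (nat_lit 1) (nat_lit 0x4004000200088c4e82)))) 
(.lf (nat_lit 1344562134) (dlOf (nat_lit 1) (nat_lit 0x8008000400200020008862883))))) 
(.nd (nat_lit 6) (.nd (nat_lit 11) (.nd (nat_lit 18) 
(.lf (nat_lit 3493880214) (dlOf (nat_lit 2) (nat_lit 0x24e060000000080078008003c002003000081b0783))) 
(.lf (nat_lit 4026818966) (dlOf (nat_lit 1) (nat_lit 0x110008003000200020008090783)))) 
(.nd (nat_lit 8) 
(.lf (nat_lit 3489950870) (dlOf (nat_lit 1) (nat_lit 0x8008000400200020008006203))) 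
(.lf (nat_lit 4094716822) (dlOf (nat_lit 1) (nat_lit 0x40028055c81))))) (.nd (nat_lit 9) 
(.lf (nat_lit 4094190038) (dlOf (nat_lit 1) (nat_lit 0x400400020008017b02))) (.nd (nat_lit 11) 
(.lf (nat_lit 4026557398) (dlOf (nat_lit 1) (nat_lit 0x8004008c0018002882))) 
(.lf (nat_lit 2952821718) (dlOf (nat_lit 2) (nat_lit 0x840130026181800bf00))))))) (.nd (nat_lit 6) 
(.nd (nat_lit 8) (.nd (nat_lit 9) (.nd (nat_lit 10) 
(.lf (nat_lit 469788822) (dlOf (nat_lit 1) (nat_lit 0x4800400480018004802))) 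
(.lf (nat_lit 2617275542) (dlOf (nat_lit 2) (nat_lit 0x530178013a4080048008000400200060008009503)))) 
(.nd (nat_lit 11) (.lf (nat_lit 1476424342) (dlOf (nat_lit 1) (nat_lit 0x800200020008008c82))) 
(.lf (nat_lit 3691018902) (dlOf (nat_lit 2) (nat_lit 0x260140026301800b680))))) (.nd (nat_lit 9) 
(.nd (nat_lit 19) 
(.lf (nat_lit 4697907606) (dlOf (nat_lit 6) (nat_lit 0xdc033002300f00304c1001d00cc0182404008406600c1102005203300608010029019802ca8080168008003c002004600080c6483))) 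
(.lf (nat_lit 4228669846) (dlOf (nat_lit 1) (nat_lit 0x800081a0781)))) (.nd (nat_lit 12) 
(.lf (nat_lit 5301627798) (dlOf (nat_lit 2) (nat_lit 0x40300000d818005c80))) 
(.lf (nat_lit 4227890070) (dlOf (nat_lit 1) (nat_lit 0x2000800100020006000800bc83)))))) 
(.nd (nat_lit 18) (.nd (nat_lit 8) (.nd (nat_lit 12) 
(.lf (nat_lit 471359702) (dlOf (nat_lit 1) (nat_lit 0xc00282e0501))) 
(.lf (nat_lit 469790934) (dlOf (nat_lit 1) (nat_lit 0x400400040018008082)))) 
(.lf (nat_lit 469792214) (dlOf (nat_lit 4) (nat_lit 0x1811c0002002000208e0000f8100030470000700800b00080008002001a0008009b03)))) 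
(.nd (nat_lit 8) (.nd (nat_lit 10) 
(.lf (nat_lit 4228669654) (dlOf (nat_lit 2) (nat_lit 0x12c031001238181a0480))) 
(.lf (nat_lit 5234779350) (dlOf (nat_lit 1) (nat_lit 0x200080010002000600080d2d83)))) 
(.lf (nat_lit 5301887958) (dlOf (nat_lit 2) (nat_lit 0x318044005a2040024004000200080e2882)))))))) 
(.nd (nat_lit 8) (.nd (nat_lit 18) (.nd (nat_lit 10) (.nd (nat_lit 6) (.nd (nat_lit 9) 
(.nd (nat_lit 7) (.nd (nat_lit 20) 
(.lf (nat_lit 805855286) (dlOf (nat_lit 3) (nat_lit 0x602d0001b01000801680004c0801380080024002000c00081c0b03))) 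
(.lf (nat_lit 3493355574) (dlOf (nat_lit 6) (nat_lit 0xd10380071c08005881c0038c04000440e0004108000e282000e0000005500800786c00012804000400400100018120d02)))) 
(.lf (nat_lit 3493879990) (dlOf (nat_lit 4) (nat_lit 0x81800002f0202f00c00001601010f0600000ac0801b000800b0002005400081b0383)))) 
(.nd (nat_lit 26) (.lf (nat_lit 1342726710) (dlOf (nat_lit 1) (nat_lit 0x200180c0f81))) 
(.lf (nat_lit 470311478) (dlOf (nat_lit 1) (nat_lit 0x200180c0f81))))) (.nd (nat_lit 11) 
(.lf (nat_lit 1409835126) (dlOf (nat_lit 1) (nat_lit 0x400400020008090082))) (.nd (nat_lit 26) 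
(.lf (nat_lit 1476425846) (dlOf (nat_lit 2) (nat_lit 0x120000000001800a880))) 
(.lf (nat_lit 3691018358) (dlOf (nat_lit 4) (nat_lit 0x29402800a580201480140051c81008e00a00000008004800800200020094000800a883)))))) 
(.nd (nat_lit 7) (.nd (nat_lit 6) (.nd (nat_lit 11) 
(.lf (nat_lit 6375892022) (dlOf (nat_lit 2) (nat_lit 0x2028003f4818002880))) 
(.lf (nat_lit 2952821814) (dlOf (nat_lit 2) (nat_lit 0x3300980130c0801000080010002008c000800bf03)))) 
(.lf (nat_lit 2617276022) (dlOf (nat_lit 1) (nat_lit 0x58008000400200060008009d03)))) 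
(.nd (nat_lit 11) (.nd (nat_lit 6) 
(.lf (nat_lit 1476425398) (dlOf (nat_lit 1) (nat_lit 0x6002800a001))) 
(.lf (nat_lit 5772961014) (dlOf (nat_lit 1) (nat_lit 0x40028092e81)))) (.nd (nat_lit 12) 
(.lf (nat_lit 3490213046) (dlOf (nat_lit 1) (nat_lit 0x400400020008006282))) 
(.lf (nat_lit 1879080118) (dlOf (nat_lit 1) (nat_lit 0x40020002000800c202))))))) (.nd (nat_lit 29) 
(.nd (nat_lit 26) (.nd (nat_lit 7) (.nd (nat_lit 19) 
(.lf (nat_lit 268722230) (dlOf (nat_lit 2) (nat_lit 0x1c00800090c080160008005400200120008100483))) 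
(.lf (nat_lit 1342988342) (dlOf (nat_lit 1) (nat_lit 0x400200020008121182)))) 
(.lf (nat_lit 4563689654) (dlOf (nat_lit 10) (nat_lit 0x640680030032004d018003480bc005405600a6023001800f801b806c00a4024006400f000718a000b01a000e00c8011005e002601f00010090003882800480d00020064006802f000600f8003842000f00bc001c0040004068000d902000403400330178003007c00100240007608000c03400070190002807c000ea0c004c0680028032001400f8001d01800a80d0005c064006802f001600f8001cc2030a800800c400200b000080c1703)))) 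
(.nd (nat_lit 27) (.nd (nat_lit 7) 
(.lf (nat_lit 2483314742) (dlOf (nat_lit 1) (nat_lit 0x80080004002000200080a0b83))) 
(.lf (nat_lit 3557060790) (dlOf (nat_lit 2) (nat_lit 0x301c0003e4080010008000800200080008127e83)))) 
(.nd (nat_lit 9) 
(.lf (nat_lit 1543790646) (dlOf (nat_lit 2) (nat_lit 0x400f8007340800300080024002000e0008170d03))) 
(.lf (nat_lit 5838758454) (dlOf (nat_lit 1) (nat_lit 0x200181b0f81)))))) (.nd (nat_lit 19) 
(.nd (nat_lit 26) (.nd (nat_lit 6) 
(.lf (nat_lit 1879334966) (dlOf (nat_lit 1) (nat_lit 0x4004000200080e0b02))) 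
(.lf (nat_lit 5234779382) (dlOf (nat_lit 2) (nat_lit 0x2c0560002902001400180d2e81)))) 
(.nd (nat_lit 27) 
(.lf (nat_lit 3020185654) (dlOf (nat_lit 3) (nat_lit 0x110076001d1020030000000a8818150480))) 
(.lf (nat_lit 1006919734) (dlOf (nat_lit 1) (nat_lit 0x4004000200080e0b02))))) (.nd (nat_lit 7) 
(.nd (nat_lit 21) 
(.lf (nat_lit 4228669494) (dlOf (nat_lit 2) (nat_lit 0x29025801c9c080038008004c002002000081a0003))) 
(.lf (nat_lit 4096548918) (dlOf (nat_lit 1) (nat_lit 0x400400020008120482)))) 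
(.lf (nat_lit 4094454454) (dlOf (nat_lit 1) (nat_lit 0x400400020008055702))))))) (.nd (nat_lit 9) 
(.nd (nat_lit 7) (.nd (nat_lit 18) (.nd (nat_lit 6) (.nd (nat_lit 26) 
(.lf (nat_lit 1342726454) (dlOf (nat_lit 6) (nat_lit 0x21510001e0100080aa0000ec08007073c00443860003404000c1c50001901000d0e7800f870c00000080164004005a00080c0582))) 
(.lf (nat_lit 470311222) (dlOf (nat_lit 6) (nat_lit 0x21510001e0100080aa0000ec08007073c00443860003404000c1c50001901000d0e7800f870c00000080164004005a00080c0582)))) 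
(.lf (nat_lit 4227890550) (dlOf (nat_lit 1) (nat_lit 0x2000020064000800c902)))) (.nd (nat_lit 11) 
(.nd (nat_lit 19) (.lf (nat_lit 5167669622) (dlOf (nat_lit 1) (nat_lit 0x2e800401ca00080f5802))) 
(.lf (nat_lit 5772173686) (dlOf (nat_lit 4) (nat_lit 0x2823c002011d000b082001608e0002740800684700011c04001400400060018091002)))) 
(.lf (nat_lit 4094454134) (dlOf (nat_lit 1) (nat_lit 0x400400020008054e82))))) (.nd (nat_lit 27) 
(.nd (nat_lit 6) 
(.lf (nat_lit 1342726582) (dlOf (nat_lit 3) (nat_lit 0x185500035c0400c42a80018151000d60280c0800))) 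
(.nd (nat_lit 12) 
(.lf (nat_lit 1342726646) (dlOf (nat_lit 4) (nat_lit 0x90a88008f4080178544004600400382a20022c02000200080c0d81))) 
(.lf (nat_lit 1342206454) (dlOf (nat_lit 2) (nat_lit 0x4c33a004b10205400028008681))))) 
(.nd (nat_lit 6) 
(.lf (nat_lit 470311350) (dlOf (nat_lit 3) (nat_lit 0x18550004920400c42a80018151001238280c0800))) 
(.nd (nat_lit 12) 
(.lf (nat_lit 470311414) (dlOf (nat_lit 4) (nat_lit 0x90a88008f4080178544004600400382a20022c02000200080c0d81))) 
(.lf (nat_lit 1476424182) (dlOf (nat_lit 2) (nat_lit 0x701d8012c0080048008008400200260008008683))))))) 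
(.nd (nat_lit 6) (.nd (nat_lit 10) (.nd (nat_lit 7) 
(.lf (nat_lit 5301627702) (dlOf (nat_lit 1) (nat_lit 0x20018005c01))) (.nd (nat_lit 18) 
(.lf (nat_lit 6710913974) (dlOf (nat_lit 3) (nat_lit 0x1802c0000e020006016000100a8000001000580080028002001a0008005d03))) 
(.lf (nat_lit 4094454710) (dlOf (nat_lit 2) (nat_lit 0x810e000000200020028055d01))))) 
(.nd (nat_lit 12) (.nd (nat_lit 18) 
(.lf (nat_lit 4026558262) (dlOf (nat_lit 1) (nat_lit 0x580018003e01))) 
(.lf (nat_lit 1410098998) (dlOf (nat_lit 1) (nat_lit 0xc002001c00080f3e02)))) 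
(.lf (nat_lit 1342207798) (dlOf (nat_lit 1) (nat_lit 0x40004000c000800a102))))) (.nd (nat_lit 11) 
(.nd (nat_lit 12) (.nd (nat_lit 26) 
(.lf (nat_lit 2013553654) (dlOf (nat_lit 1) (nat_lit 0x120018122881))) 
(.lf (nat_lit 5301887990) (dlOf (nat_lit 3) (nat_lit 0xb4011001688100550088009ac080268008001c002005600080e2883)))) 
(.nd (nat_lit 26) 
(.lf (nat_lit 2952819702) (dlOf (nat_lit 2) (nat_lit 0x8030000c013004e7828009200))) 
(.lf (nat_lit 469791734) (dlOf (nat_lit 2) (nat_lit 0x811c009d60200040028009201))))) 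
(.nd (nat_lit 10) (.nd (nat_lit 18) 
(.lf (nat_lit 4697648118) (dlOf (nat_lit 4) (nat_lit 0x980bc000aa0400240000002c02000602e000200f000000100020008005400200080008005f03))) 
(.lf (nat_lit 6308522998) (dlOf (nat_lit 1) (nat_lit 0x4002000200080d5f02)))) 
(.lf (nat_lit 1476423670) (dlOf (nat_lit 1) (nat_lit 0x3000200200008007a82)))))))))) 
(.nd (nat_lit 18) (.nd (nat_lit 7) (.nd (nat_lit 19) (.nd (nat_lit 5) (.nd (nat_lit 28) 
(.nd (nat_lit 6) (.nd (nat_lit 10) (.nd (nat_lit 21) (.nd (nat_lit 22) 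
(.lf (nat_lit 16834582) (dlOf (nat_lit 1) (nat_lit 0x4002000200088e0002))) 
(.lf (nat_lit 21028886) (dlOf (nat_lit 1) (nat_lit 0x1140008a00601)))) 
(.lf (nat_lit 27320342) (dlOf (nat_lit 1) (nat_lit 0x1800200060008cd0402)))) (.nd (nat_lit 8) 
(.lf (nat_lit 59829270) (dlOf (nat_lit 1) (nat_lit 0x400009845f81))) (.nd (nat_lit 27) 
(.lf (nat_lit 4899005718) (dlOf (nat_lit 1) (nat_lit 0x20018053081))) 
(.lf (nat_lit 5570094358) (dlOf (nat_lit 1) (nat_lit 0x20028053081)))))) (.nd (nat_lit 9) 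
(.nd (nat_lit 21) (.lf (nat_lit 16834646) (dlOf (nat_lit 1) (nat_lit 0x4002000200088e0302))) 
(.lf (nat_lit 44097622) (dlOf (nat_lit 2) (nat_lit 0x1aff0000cc0800300080020002000a00092c0703)))) 
(.nd (nat_lit 11) (.lf (nat_lit 19984982) (dlOf (nat_lit 1) (nat_lit 0x800289d8981))) 
(.lf (nat_lit 51440214) (dlOf (nat_lit 2) (nat_lit 0x2698d00000019515300)))))) (.nd (nat_lit 8) 
(.nd (nat_lit 26) (.nd (nat_lit 9) 
(.lf (nat_lit 3493912598) (dlOf (nat_lit 7) (nat_lit 0x280868030c430005c2130184108829488080348a14000843404c621804f310100690c1820a8850117041008a620000d2083029010a015808200ad040001a3f0601d820800cee01001b1040067680804b800801b8002004200081b0003))) 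
(.lf (nat_lit 3491815958) (dlOf (nat_lit 1) (nat_lit 0x20008000400200020008090d83)))) 
(.nd (nat_lit 10) 
(.lf (nat_lit 1543561238) (dlOf (nat_lit 3) (nat_lit 0x123009808e4032049c003024700000691420121009808f4032004e0090249001812180000348614000c002000800080b0002))) 
(.lf (nat_lit 5704313878) (dlOf (nat_lit 1) (nat_lit 0xc0018055f81))))) (.nd (nat_lit 10) 
(.nd (nat_lit 6) 
(.lf (nat_lit 939581718) (dlOf (nat_lit 3) (nat_lit 0x18090000c03e0023b04000c024000500f8008b81000e8008010c002004600080b0483))) 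
(.lf (nat_lit 2550201174) (dlOf (nat_lit 1) (nat_lit 0xf000800540020022000800bc83)))) 
(.nd (nat_lit 27) (.lf (nat_lit 5100332310) (dlOf (nat_lit 1) (nat_lit 0x400400020008053082))) 
(.lf (nat_lit 6308291862) (dlOf (nat_lit 1) (nat_lit 0x400400020008053082))))))) (.nd (nat_lit 30) 
(.nd (nat_lit 8) (.nd (nat_lit 6) (.nd (nat_lit 9) 
(.lf (nat_lit 14737462) (dlOf (nat_lit 2) (nat_lit 0x533f78004dc080010008000c00200080008770483))) 
(.lf (nat_lit 11592246) (dlOf (nat_lit 2) (nat_lit 0xfa1d000000186c0f80)))) (.nd (nat_lit 9) 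
(.lf (nat_lit 67170422) (dlOf (nat_lit 2) (nat_lit 0x380000098a040058002001e0008007d82))) 
(.lf (nat_lit 43050614) (dlOf (nat_lit 1) (nat_lit 0x4004000200092a3982))))) (.nd (nat_lit 10) 
(.nd (nat_lit 26) (.lf (nat_lit 2147543414) (dlOf (nat_lit 1) (nat_lit 0x400400020008094e82))) 
(.lf (nat_lit 2483087734) (dlOf (nat_lit 2) (nat_lit 0x8015005ee4080040008000c002002a0008004e83)))) 
(.lf (nat_lit 5100332406) (dlOf (nat_lit 1) (nat_lit 0x8008000400200020008053503))))) 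
(.nd (nat_lit 6) (.nd (nat_lit 9) 
(.lf (nat_lit 1543561270) (dlOf (nat_lit 2) (nat_lit 0x2009800000040004004001200080b0002))) 
(.nd (nat_lit 10) (.lf (nat_lit 1208019510) (dlOf (nat_lit 1) (nat_lit 0x20028095181))) 
(.lf (nat_lit 6308292150) (dlOf (nat_lit 1) (nat_lit 0xfc0008053781))))) (.nd (nat_lit 10) 
(.nd (nat_lit 8) (.lf (nat_lit 1342240886) (dlOf (nat_lit 1) (nat_lit 0x2001800a881))) 
(.lf (nat_lit 1208019318) (dlOf (nat_lit 1) (nat_lit 0x20028094e81)))) (.nd (nat_lit 26) 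
(.lf (nat_lit 6308291958) (dlOf (nat_lit 1) (nat_lit 0x20018053501))) 
(.lf (nat_lit 5570094454) (dlOf (nat_lit 1) (nat_lit 0x400400020018053502)))))))) (.nd (nat_lit 22) 
(.nd (nat_lit 26) (.nd (nat_lit 5) (.nd (nat_lit 20) (.nd (nat_lit 27) (.nd (nat_lit 28) 
(.lf (nat_lit 3221807126) (dlOf (nat_lit 5) (nat_lit 0x811c02d7a04015008c00a20450047021802301080110080015ad0a0012046000f0228002810c0014084015ac08008a04e00430268051a4100538008012400200640008190903))) 
(.lf (nat_lit 805888022) (dlOf (nat_lit 2) (nat_lit 0x400ac015ad02000600181e0901)))) 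
(.lf (nat_lit 134799382) (dlOf (nat_lit 3) (nat_lit 0x3203f008ce81000e01f8046700800100080004002000600080c0a83)))) 
(.lf (nat_lit 3727382) (dlOf (nat_lit 2) (nat_lit 0x2897e0016902001e0018220581)))) (.nd (nat_lit 9) 
(.nd (nat_lit 10) (.lf (nat_lit 1345904950) (dlOf (nat_lit 1) (nat_lit 0x800400b40008e17b02))) 
(.lf (nat_lit 8975670) (dlOf (nat_lit 1) (nat_lit 0x400400040018519902)))) 
(.lf (nat_lit 8972086) (dlOf (nat_lit 1) (nat_lit 0x400400020008513e02))))) (.nd (nat_lit 30) 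
(.nd (nat_lit 6) (.nd (nat_lit 28) 
(.lf (nat_lit 201908246) (dlOf (nat_lit 3) (nat_lit 0x3203f008c681000e01f8046300800100080004002000600080c0a83))) 
(.lf (nat_lit 1007214614) (dlOf (nat_lit 2) (nat_lit 0xc00000004804000800200260008260402)))) 
(.lf (nat_lit 201908310) (dlOf (nat_lit 1) (nat_lit 0x400180c1a01)))) (.nd (nat_lit 9) 
(.nd (nat_lit 27) 
(.lf (nat_lit 1678303254) (dlOf (nat_lit 2) (nat_lit 0x400ac0171402000600181e0901))) 
(.lf (nat_lit 3960004630) (dlOf (nat_lit 5) (nat_lit 0x2a0118014408a008e04300460210022010002e2814002408c001e04500050218002810802e2610000408e0154b02008a04e0043026805130100538008012400200640008190903)))) 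
(.lf (nat_lit 4094222870) (dlOf (nat_lit 1) (nat_lit 0x40028018701)))))) (.nd (nat_lit 5) 
(.nd (nat_lit 25) (.nd (nat_lit 26) (.nd (nat_lit 23) 
(.lf (nat_lit 3494436886) (dlOf (nat_lit 1) (nat_lit 0x8008000400200020008220883))) 
(.lf (nat_lit 13164566) (dlOf (nat_lit 1) (nat_lit 0x10008001000200020008700903)))) 
(.nd (nat_lit 6) 
(.lf (nat_lit 2756239382) (dlOf (nat_lit 1) (nat_lit 0x8008000400200020008220883))) 
(.lf (nat_lit 474538070) (dlOf (nat_lit 1) (nat_lit 0x500080034002000e00091a0803))))) 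
(.nd (nat_lit 9) (.nd (nat_lit 21) 
(.lf (nat_lit 56157206) (dlOf (nat_lit 1) (nat_lit 0x400200020009732882))) 
(.lf (nat_lit 49865750) (dlOf (nat_lit 1) (nat_lit 0x1600294c2881)))) 
(.lf (nat_lit 57207318) (dlOf (nat_lit 1) (nat_lit 0x640029795081))))) (.nd (nat_lit 24) 
(.nd (nat_lit 26) 
(.lf (nat_lit 3494436918) (dlOf (nat_lit 2) (nat_lit 0x781080038a04003c00200120008220b82))) 
(.lf (nat_lit 2756239414) (dlOf (nat_lit 2) (nat_lit 0x781080038a04003c00200120008220b82)))) 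
(.nd (nat_lit 6) (.lf (nat_lit 55107638) (dlOf (nat_lit 1) (nat_lit 0x4004000200096b0c02))) 
(.lf (nat_lit 21553270) (dlOf (nat_lit 1) (nat_lit 0xc0008a40d81)))))))) (.nd (nat_lit 5) 
(.nd (nat_lit 8) (.nd (nat_lit 26) (.nd (nat_lit 6) (.nd (nat_lit 24) (.nd (nat_lit 10) 
(.lf (nat_lit 1342759062) (dlOf (nat_lit 1) (nat_lit 0x178002007a00080c0182))) 
(.lf (nat_lit 134278294) (dlOf (nat_lit 1) (nat_lit 0x8008001c00200020008006203)))) 
(.nd (nat_lit 21) (.lf (nat_lit 25747606) (dlOf (nat_lit 1) (nat_lit 0x400400020008c10282))) 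
(.lf (nat_lit 23650454) (dlOf (nat_lit 4) (nat_lit 0x41ad06020f5fc00023020005b41800457f00008a080012d06000b5fc0001c028b80180))))) 
(.nd (nat_lit 10) (.nd (nat_lit 19) 
(.lf (nat_lit 3203286) (dlOf (nat_lit 1) (nat_lit 0x20018200481))) 
(.lf (nat_lit 12116182) (dlOf (nat_lit 1) (nat_lit 0x200086c0481)))) 
(.lf (nat_lit 5502985430) (dlOf (nat_lit 1) (nat_lit 0x30008000800200060008002d83))))) 
(.nd (nat_lit 11) (.nd (nat_lit 6) (.nd (nat_lit 19) 
(.lf (nat_lit 6376448150) (dlOf (nat_lit 1) (nat_lit 0x700028090481))) 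
(.lf (nat_lit 470343830) (dlOf (nat_lit 1) (nat_lit 0x178002007a00080c0182)))) (.nd (nat_lit 10) 
(.lf (nat_lit 469823702) (dlOf (nat_lit 1) (nat_lit 0x300028008081))) 
(.lf (nat_lit 5435876566) (dlOf (nat_lit 2) (nat_lit 0x30098000fc080020008000800200140008002d83))))) 
(.nd (nat_lit 9) (.nd (nat_lit 27) 
(.lf (nat_lit 4362135702) (dlOf (nat_lit 1) (nat_lit 0x400400020008004802))) 
(.lf (nat_lit 469821590) (dlOf (nat_lit 2) (nat_lit 0x848e0000d0200020008004801)))) 
(.lf (nat_lit 5301660310) (dlOf (nat_lit 1) (nat_lit 0x15800800f0002009e0008005503)))))) 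
(.nd (nat_lit 28) (.nd (nat_lit 22) (.nd (nat_lit 26) (.nd (nat_lit 19) (.nd (nat_lit 20) 
(.lf (nat_lit 3221283798) (dlOf (nat_lit 1) (nat_lit 0x400400020018002882))) 
(.lf (nat_lit 36758486) (dlOf (nat_lit 1) (nat_lit 0x20009072881)))) 
(.lf (nat_lit 582614) (dlOf (nat_lit 1) (nat_lit 0x4e0008002881)))) (.nd (nat_lit 27) 
(.lf (nat_lit 4899005398) (dlOf (nat_lit 1) (nat_lit 0x400400020018052882))) 
(.lf (nat_lit 4496352214) (dlOf (nat_lit 1) (nat_lit 0x20028052881))))) (.nd (nat_lit 19) 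
(.nd (nat_lit 6) (.lf (nat_lit 37808534) (dlOf (nat_lit 1) (nat_lit 0x200290d4e81))) 
(.lf (nat_lit 37807062) (dlOf (nat_lit 1) (nat_lit 0x1600190d2881)))) (.nd (nat_lit 21) 
(.lf (nat_lit 56157142) (dlOf (nat_lit 1) (nat_lit 0x400200020009732882))) 
(.lf (nat_lit 49865686) (dlOf (nat_lit 1) (nat_lit 0x1600294c2881)))))) (.nd (nat_lit 9) 
(.nd (nat_lit 6) (.lf (nat_lit 1543561622) (dlOf (nat_lit 1) (nat_lit 0x200280b0781))) 
(.nd (nat_lit 21) 
(.lf (nat_lit 4094222806) (dlOf (nat_lit 1) (nat_lit 0x10008000800200040008017b03))) 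
(.lf (nat_lit 5774041558) (dlOf (nat_lit 1) (nat_lit 0x10002000400080f7b02))))) (.nd (nat_lit 10) 
(.lf (nat_lit 6308291542) (dlOf (nat_lit 1) (nat_lit 0x8008000400200020008052883))) 
(.nd (nat_lit 27) (.lf (nat_lit 2952851414) (dlOf (nat_lit 1) (nat_lit 0x1400400080008007a82))) 
(.lf (nat_lit 1476456406) (dlOf (nat_lit 1) (nat_lit 0x400200320008007a82)))))))) (.nd (nat_lit 28) 
(.nd (nat_lit 6) (.nd (nat_lit 9) (.nd (nat_lit 10) (.nd (nat_lit 19) 
(.lf (nat_lit 671146166) (dlOf (nat_lit 2) (nat_lit 0x2000c0005c04001c004000a00080b0382))) 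
(.lf (nat_lit 28893366) (dlOf (nat_lit 1) (nat_lit 0x7c0018da0481)))) (.nd (nat_lit 8) 
(.nd (nat_lit 11) (.lf (nat_lit 20509878) (dlOf (nat_lit 1) (nat_lit 0x400189d9501))) 
(.lf (nat_lit 3288394934) (dlOf (nat_lit 1) (nat_lit 0x400400020008006282)))) 
(.lf (nat_lit 4899005878) (dlOf (nat_lit 1) (nat_lit 0x18c00200740008053602))))) (.nd (nat_lit 8) 
(.nd (nat_lit 27) (.lf (nat_lit 2147543734) (dlOf (nat_lit 1) (nat_lit 0x400400020008095702))) 
(.lf (nat_lit 1208019638) (dlOf (nat_lit 1) (nat_lit 0x20028095701)))) 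
(.lf (nat_lit 19981238) (dlOf (nat_lit 1) (nat_lit 0x4004000200189d2702))))) (.nd (nat_lit 8) 
(.nd (nat_lit 10) (.nd (nat_lit 11) 
(.lf (nat_lit 1811996918) (dlOf (nat_lit 2) (nat_lit 0xe024000700f8008ec1000d80080080002002e00080b0483))) 
(.lf (nat_lit 536930550) (dlOf (nat_lit 1) (nat_lit 0x40018004b81)))) 
(.lf (nat_lit 5502985462) (dlOf (nat_lit 1) (nat_lit 0x60018002e81)))) (.nd (nat_lit 11) 
(.nd (nat_lit 10) (.lf (nat_lit 11592182) (dlOf (nat_lit 1) (nat_lit 0x400286c0d81))) 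
(.lf (nat_lit 43050486) (dlOf (nat_lit 1) (nat_lit 0x10004000200092a3682)))) (.nd (nat_lit 9) 
(.lf (nat_lit 2348874230) (dlOf (nat_lit 2) (nat_lit 0x140100007007002e4c1000b000800240020030000800b283))) 
(.lf (nat_lit 20507638) (dlOf (nat_lit 2) (nat_lit 0x3a9280005804000c002000200089d5f02))))))) 
(.nd (nat_lit 8) (.nd (nat_lit 12) (.nd (nat_lit 10) (.nd (nat_lit 6) 
(.lf (nat_lit 1543561398) (dlOf (nat_lit 2) (nat_lit 0x2000c0005604001c004000a00080b0382))) 
(.lf (nat_lit 939581686) (dlOf (nat_lit 2) (nat_lit 0xe024000700f8008ec1000d80080080002002e00080b0483)))) 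
(.nd (nat_lit 26) (.lf (nat_lit 2550197430) (dlOf (nat_lit 1) (nat_lit 0x400400020008006282))) 
(.lf (nat_lit 1946217654) (dlOf (nat_lit 1) (nat_lit 0x400400020008006282))))) (.nd (nat_lit 26) 
(.nd (nat_lit 29) (.lf (nat_lit 1342238902) (dlOf (nat_lit 1) (nat_lit 0x1800200040008007e82))) 
(.lf (nat_lit 2952851638) (dlOf (nat_lit 1) (nat_lit 0x800400040008007e82)))) 
(.lf (nat_lit 3691049142) (dlOf (nat_lit 1) (nat_lit 0x20028007e81))))) (.nd (nat_lit 6) 
(.nd (nat_lit 9) (.lf (nat_lit 6308292022) (dlOf (nat_lit 1) (nat_lit 0x60028053601))) 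
(.nd (nat_lit 26) (.lf (nat_lit 5234551734) (dlOf (nat_lit 1) (nat_lit 0x20028055d01))) 
(.lf (nat_lit 5704313782) (dlOf (nat_lit 1) (nat_lit 0x20018055d01))))) (.nd (nat_lit 9) 
(.lf (nat_lit 1342239222) (dlOf (nat_lit 1) (nat_lit 0x80018008681))) (.nd (nat_lit 10) 
(.lf (nat_lit 1346431990) (dlOf (nat_lit 5) (nat_lit 0xdd0000000980402c40000004b020158000000240100b60000000c8080028008044800200320008f65f03))) 
(.lf (nat_lit 2952851446) (dlOf (nat_lit 1) (nat_lit 0x160008007a81)))))))))) (.nd (nat_lit 28) 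
(.nd (nat_lit 6) (.nd (nat_lit 5) (.nd (nat_lit 19) (.nd (nat_lit 26) (.nd (nat_lit 20) 
(.nd (nat_lit 7) (.lf (nat_lit 3355762710) (dlOf (nat_lit 1) (nat_lit 0x400280f0501))) 
(.lf (nat_lit 1074061462) (dlOf (nat_lit 1) (nat_lit 0x20028090181)))) (.nd (nat_lit 21) 
(.lf (nat_lit 22339606) (dlOf (nat_lit 1) (nat_lit 0xc0018ac0101))) 
(.lf (nat_lit 62185494) (dlOf (nat_lit 2) (nat_lit 0x20000001a819970300))))) (.nd (nat_lit 7) 
(.nd (nat_lit 27) (.nd (nat_lit 30) 
(.lf (nat_lit 604299286) (dlOf (nat_lit 1) (nat_lit 0x400400020008130482))) 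
(.lf (nat_lit 3825524758) (dlOf (nat_lit 1) (nat_lit 0xc0028190481)))) 
(.lf (nat_lit 2349129750) (dlOf (nat_lit 1) (nat_lit 0x4002000e00080c0a82)))) 
(.lf (nat_lit 2754931094) (dlOf (nat_lit 1) (nat_lit 0xce800800c4002015a00080f4e83))))) 
(.nd (nat_lit 23) (.nd (nat_lit 7) (.nd (nat_lit 8) 
(.lf (nat_lit 21815318) (dlOf (nat_lit 1) (nat_lit 0x5e0008a70481))) 
(.lf (nat_lit 135061782) (dlOf (nat_lit 1) (nat_lit 0x48008001c002007a00081b0483)))) 
(.lf (nat_lit 19723414) (dlOf (nat_lit 1) (nat_lit 0x200289d9501)))) (.nd (nat_lit 20) 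
(.nd (nat_lit 21) 
(.lf (nat_lit 59564054) (dlOf (nat_lit 1) (nat_lit 0x2c8008008c002007e0009810583))) 
(.lf (nat_lit 11329558) (dlOf (nat_lit 1) (nat_lit 0x200008690301)))) 
(.lf (nat_lit 10280982) (dlOf (nat_lit 1) (nat_lit 0xf4004000c00085c0882)))))) (.nd (nat_lit 20) 
(.nd (nat_lit 27) (.nd (nat_lit 22) (.nd (nat_lit 7) 
(.lf (nat_lit 321334) (dlOf (nat_lit 2) (nat_lit 0xd8e70001a818003e00))) 
(.lf (nat_lit 8710326) (dlOf (nat_lit 1) (nat_lit 0x20018514901)))) (.nd (nat_lit 21) 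
(.lf (nat_lit 21291574) (dlOf (nat_lit 1) (nat_lit 0x7e0028a38101))) 
(.lf (nat_lit 23388726) (dlOf (nat_lit 1) (nat_lit 0x8008001800200240008b80f83))))) 
(.nd (nat_lit 8) (.nd (nat_lit 26) (.nd (nat_lit 30) 
(.lf (nat_lit 134537270) (dlOf (nat_lit 1) (nat_lit 0xa0018060701))) 
(.lf (nat_lit 1208279094) (dlOf (nat_lit 3) (nat_lit 0x9800a0011b81023c01c80089808049800800b4002001200080b0483)))) 
(.lf (nat_lit 201646134) (dlOf (nat_lit 1) (nat_lit 0xa0018060701)))) 
(.lf (nat_lit 671408438) (dlOf (nat_lit 1) (nat_lit 0xb800401660008188402))))) (.nd (nat_lit 19) 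
(.nd (nat_lit 8) (.nd (nat_lit 21) 
(.lf (nat_lit 9756726) (dlOf (nat_lit 1) (nat_lit 0x18004002a0008580482))) 
(.lf (nat_lit 24436790) (dlOf (nat_lit 1) (nat_lit 0x8008001800200060008ba0b03)))) 
(.lf (nat_lit 20245302) (dlOf (nat_lit 1) (nat_lit 0x200189d5c01)))) (.nd (nat_lit 7) 
(.nd (nat_lit 11) (.lf (nat_lit 10281014) (dlOf (nat_lit 1) (nat_lit 0x200185c0d01))) 
(.lf (nat_lit 8190006) (dlOf (nat_lit 1) (nat_lit 0x2000851a601)))) 
(.lf (nat_lit 8185270) (dlOf (nat_lit 1) (nat_lit 0x400200020008513602))))))) (.nd (nat_lit 8) 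
(.nd (nat_lit 19) (.nd (nat_lit 5) (.nd (nat_lit 27) (.nd (nat_lit 7) 
(.lf (nat_lit 26533974) (dlOf (nat_lit 2) (nat_lit 0x6a2800023818c50780))) 
(.lf (nat_lit 2416854) (dlOf (nat_lit 1) (nat_lit 0x400200020008150482)))) (.nd (nat_lit 26) 
(.lf (nat_lit 1208279126) (dlOf (nat_lit 2) (nat_lit 0x840520000502000200180b0701))) 
(.lf (nat_lit 2349129814) (dlOf (nat_lit 4) (nat_lit 0x480400003a0400240200001c02000e010003c0070000441000c800800d0002003a00080c1a03))))) 
(.nd (nat_lit 26) (.lf (nat_lit 1074061430) (dlOf (nat_lit 1) (nat_lit 0x20018090081))) 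
(.lf (nat_lit 4899266678) (dlOf (nat_lit 1) (nat_lit 0x200280e1f01))))) (.nd (nat_lit 7) 
(.nd (nat_lit 5) (.lf (nat_lit 9232470) (dlOf (nat_lit 1) (nat_lit 0x400200320008530702))) 
(.lf (nat_lit 2753355894) (dlOf (nat_lit 1) (nat_lit 0x400400020008090082)))) (.nd (nat_lit 26) 
(.lf (nat_lit 135061718) (dlOf (nat_lit 6) (nat_lit 0x2602d803a80000038208008c000001bc020046000000c10100080000005e0080118000002de0403d4002000200081b0482))) 
(.nd (nat_lit 27) 
(.lf (nat_lit 4362920150) (dlOf (nat_lit 4) (nat_lit 0x20000004980406e40240090000001218200050000007e808010800801f4002054a00081a0483))) 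
(.lf (nat_lit 202170582) (dlOf (nat_lit 6) (nat_lit 0x2602e003a80000038208008c000001bc020046000000bc8100080000005d8080118000002de0403d4002000200081b0482))))))) 
(.nd (nat_lit 7) (.nd (nat_lit 19) (.nd (nat_lit 11) (.nd (nat_lit 20) 
(.lf (nat_lit 3959742806) (dlOf (nat_lit 1) (nat_lit 0x8008000400200020008138b03))) 
(.lf (nat_lit 3465558) (dlOf (nat_lit 1) (nat_lit 0x8008000400200020008200683)))) 
(.lf (nat_lit 2886003030) (dlOf (nat_lit 1) (nat_lit 0x400200020008144e02)))) (.nd (nat_lit 5) 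
(.nd (nat_lit 10) 
(.lf (nat_lit 4362920278) (dlOf (nat_lit 4) (nat_lit 0x3ec02400006020032012000028100d80090000000800480080044002006800081a0683))) 
(.lf (nat_lit 50128214) (dlOf (nat_lit 1) (nat_lit 0x80080008002000200094c3383)))) 
(.lf (nat_lit 33352054) (dlOf (nat_lit 1) (nat_lit 0x20018f54e81))))) (.nd (nat_lit 19) 
(.nd (nat_lit 10) (.nd (nat_lit 20) 
(.lf (nat_lit 69526486) (dlOf (nat_lit 1) (nat_lit 0x400400020008ae2882))) 
(.lf (nat_lit 39117782) (dlOf (nat_lit 1) (nat_lit 0xc00200020009192882)))) 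
(.lf (nat_lit 323542) (dlOf (nat_lit 1) (nat_lit 0x80018007a81)))) (.nd (nat_lit 5) 
(.nd (nat_lit 20) (.lf (nat_lit 32302038) (dlOf (nat_lit 1) (nat_lit 0x400400040008ef2882))) 
(.lf (nat_lit 60613590) (dlOf (nat_lit 1) (nat_lit 0x18008007c002002200098c2883)))) 
(.lf (nat_lit 34399222) (dlOf (nat_lit 1) (nat_lit 0x20018fb2881)))))))) (.nd (nat_lit 27) 
(.nd (nat_lit 26) (.nd (nat_lit 30) (.nd (nat_lit 5) (.nd (nat_lit 6) 
(.lf (nat_lit 2953109526) (dlOf (nat_lit 1) (nat_lit 0x8008003c00200260008130403))) 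
(.nd (nat_lit 31) 
(.lf (nat_lit 268755030) (dlOf (nat_lit 3) (nat_lit 0x13c054007e029005e0140014009c000641000cc054004c02900230138000c4180048008006c002002c0008120603))) 
(.lf (nat_lit 2416238678) (dlOf (nat_lit 1) (nat_lit 0x80080004002000200080c1a03))))) 
(.nd (nat_lit 31) 
(.lf (nat_lit 268754998) (dlOf (nat_lit 2) (nat_lit 0xa202a004c014801a009c003460c0044004001e0008120482))) 
(.lf (nat_lit 2416238646) (dlOf (nat_lit 1) (nat_lit 0x200180c1181))))) (.nd (nat_lit 19) 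
(.nd (nat_lit 7) (.nd (nat_lit 5) 
(.lf (nat_lit 1343545366) (dlOf (nat_lit 2) (nat_lit 0x209d002403f000000100070008009400200060008290483))) 
(.lf (nat_lit 3493127222) (dlOf (nat_lit 1) (nat_lit 0x4004000a00180f2882)))) (.nd (nat_lit 6) 
(.lf (nat_lit 5637464470) (dlOf (nat_lit 1) (nat_lit 0x5000280f6481))) 
(.lf (nat_lit 1346692054) (dlOf (nat_lit 1) (nat_lit 0x40008fe2881))))) (.nd (nat_lit 5) 
(.nd (nat_lit 6) (.lf (nat_lit 1343021078) (dlOf (nat_lit 2) (nat_lit 0x7a1bd00cad818130880))) 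
(.lf (nat_lit 1346166870) (dlOf (nat_lit 2) (nat_lit 0x4e21a012a000000098100058008005c00200b40008e60803)))) 
(.lf (nat_lit 1343021110) (dlOf (nat_lit 2) (nat_lit 0x20de80024c080030008006c00200ca0008130b83)))))) 
(.nd (nat_lit 29) (.nd (nat_lit 19) (.nd (nat_lit 5) 
(.lf (nat_lit 2483347478) (dlOf (nat_lit 1) (nat_lit 0x4002000e00080c0a82))) 
(.lf (nat_lit 2483347510) (dlOf (nat_lit 2) (nat_lit 0x1803c00026040008004000800080c1182)))) 
(.nd (nat_lit 9) 
(.lf (nat_lit 3557613590) (dlOf (nat_lit 2) (nat_lit 0xa0308000000800100080004002000c0008270483))) 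
(.lf (nat_lit 1410136598) (dlOf (nat_lit 1) (nat_lit 0x200280fb281))))) (.nd (nat_lit 5) 
(.nd (nat_lit 7) (.lf (nat_lit 5167702038) (dlOf (nat_lit 1) (nat_lit 0x20028120a01))) 
(.lf (nat_lit 1946476694) (dlOf (nat_lit 1) (nat_lit 0x20028090181)))) (.nd (nat_lit 6) 
(.lf (nat_lit 4096581686) (dlOf (nat_lit 2) (nat_lit 0x402a00534818131000))) 
(.lf (nat_lit 1946476662) (dlOf (nat_lit 1) (nat_lit 0x20018090081))))))) (.nd (nat_lit 29) 
(.nd (nat_lit 5) (.nd (nat_lit 6) (.nd (nat_lit 26) (.nd (nat_lit 30) 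
(.lf (nat_lit 4697939990) (dlOf (nat_lit 1) (nat_lit 0x1380080044002001600080d0003))) 
(.lf (nat_lit 1476714518) (dlOf (nat_lit 2) (nat_lit 0x200d80005c0800a8008002400200100008150483)))) 
(.nd (nat_lit 19) 
(.lf (nat_lit 3691307030) (dlOf (nat_lit 1) (nat_lit 0x8008003c00200260008130403))) 
(.lf (nat_lit 470605846) (dlOf (nat_lit 2) (nat_lit 0x7a1bd00e5b018130880))))) (.nd (nat_lit 8) 
(.lf (nat_lit 471654614) (dlOf (nat_lit 1) (nat_lit 0x10004000e0008370502))) 
(.lf (nat_lit 473228246) (dlOf (nat_lit 2) (nat_lit 0x181f000b5004000c00200020008dd2882))))) 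
(.nd (nat_lit 6) (.nd (nat_lit 19) (.nd (nat_lit 22) 
(.lf (nat_lit 2550456374) (dlOf (nat_lit 1) (nat_lit 0x200180c1181))) 
(.lf (nat_lit 474275894) (dlOf (nat_lit 1) (nat_lit 0x128008004c00200140009100483)))) 
(.lf (nat_lit 470605878) (dlOf (nat_lit 2) (nat_lit 0x20de80024c080030008006c00200ca0008130b83)))) 
(.nd (nat_lit 7) (.nd (nat_lit 10) 
(.lf (nat_lit 3624200566) (dlOf (nat_lit 1) (nat_lit 0x13000400540008144e82))) 
(.lf (nat_lit 3624201590) (dlOf (nat_lit 1) (nat_lit 0x400400020008146b82)))) 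
(.lf (nat_lit 5771684854) (dlOf (nat_lit 1) (nat_lit 0x28008000400200060008005f03)))))) 
(.nd (nat_lit 6) (.nd (nat_lit 19) (.nd (nat_lit 31) (.nd (nat_lit 5) 
(.lf (nat_lit 1006952470) (dlOf (nat_lit 2) (nat_lit 0xe80420000002003c00080f0301))) 
(.lf (nat_lit 2080694326) (dlOf (nat_lit 3) (nat_lit 0x9800a0011b81023c01c80089808049800800b4002001200080b0483)))) 
(.nd (nat_lit 26) (.lf (nat_lit 3087327254) (dlOf (nat_lit 1) (nat_lit 0xc0028190481))) 
(.lf (nat_lit 3154436118) (dlOf (nat_lit 1) (nat_lit 0x400400020008190482))))) (.nd (nat_lit 5) 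
(.nd (nat_lit 8) (.lf (nat_lit 4228702230) (dlOf (nat_lit 1) (nat_lit 0x70002002000081a0002))) 
(.lf (nat_lit 4228702486) (dlOf (nat_lit 2) (nat_lit 0x9800000484040020002008800081a0482)))) 
(.lf (nat_lit 4228702262) (dlOf (nat_lit 2) (nat_lit 0xb800000000040088002003c00081a0002))))) 
(.nd (nat_lit 7) (.nd (nat_lit 8) (.nd (nat_lit 21) 
(.lf (nat_lit 2080694358) (dlOf (nat_lit 2) (nat_lit 0x840520000502000200180b0701))) 
(.lf (nat_lit 1009049686) (dlOf (nat_lit 2) (nat_lit 0x4017c0006804001800400100009020702)))) 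
(.lf (nat_lit 4228702550) (dlOf (nat_lit 4) (nat_lit 0x3ec02200006020032011000028100d80088000000800480080044002006800081a0683)))) 
(.nd (nat_lit 8) 
(.lf (nat_lit 4228702422) (dlOf (nat_lit 4) (nat_lit 0x20000004980406e40220090000001218200050000007f008010800801f4002054a00081a0483))) 
(.lf (nat_lit 1008002006) (dlOf (nat_lit 1) (nat_lit 0x80028922881))))))))))) (.nd (nat_lit 18) 
(.nd (nat_lit 5) (.nd (nat_lit 15) (.nd (nat_lit 10) (.nd (nat_lit 19) (.nd (nat_lit 11) 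
(.nd (nat_lit 21) (.nd (nat_lit 26) (.nd (nat_lit 8) 
(.lf (nat_lit 13656094) (dlOf (nat_lit 2) (nat_lit 0x15a715000d1818740480))) 
(.lf (nat_lit 3493880094) (dlOf (nat_lit 2) (nat_lit 0x24e0600001d408012800800a0002005200081b0483)))) 
(.nd (nat_lit 7) (.lf (nat_lit 2755682334) (dlOf (nat_lit 2) (nat_lit 0x88155006a10181b0000))) 
(.lf (nat_lit 2755682462) (dlOf (nat_lit 2) (nat_lit 0x9c155000a60181b0200))))) (.nd (nat_lit 7) 
(.nd (nat_lit 20) 
(.lf (nat_lit 14704670) (dlOf (nat_lit 2) (nat_lit 0xe8000000520400d800200020008770102))) 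
(.lf (nat_lit 11558942) (dlOf (nat_lit 1) (nat_lit 0xe00186b0581)))) 
(.lf (nat_lit 2121886) (dlOf (nat_lit 1) (nat_lit 0xc0018150201))))) (.nd (nat_lit 6) 
(.nd (nat_lit 20) (.nd (nat_lit 7) 
(.lf (nat_lit 469788702) (dlOf (nat_lit 1) (nat_lit 0x360018004701))) 
(.lf (nat_lit 134249374) (dlOf (nat_lit 1) (nat_lit 0x40040002000800bc82)))) (.nd (nat_lit 21) 
(.lf (nat_lit 4094716574) (dlOf (nat_lit 1) (nat_lit 0x18008000400200060008055583))) 
(.lf (nat_lit 1345350302) (dlOf (nat_lit 1) (nat_lit 0x60028b55581))))) (.nd (nat_lit 8) 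
(.nd (nat_lit 26) 
(.lf (nat_lit 4429211870) (dlOf (nat_lit 2) (nat_lit 0x8054000402400080090004002000030200128008000c00200020008004a83))) 
(.lf (nat_lit 2348837086) (dlOf (nat_lit 4) (nat_lit 0x80140000cc0800880a000064040028050000310200860028004a81)))) 
(.lf (nat_lit 201357790) (dlOf (nat_lit 1) (nat_lit 0x2c004000c000800b282)))))) (.nd (nat_lit 20) 
(.nd (nat_lit 27) (.nd (nat_lit 6) (.nd (nat_lit 8) (.nd (nat_lit 21) 
(.lf (nat_lit 42491934) (dlOf (nat_lit 1) (nat_lit 0x1000400020009260102))) 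
(.lf (nat_lit 15228958) (dlOf (nat_lit 1) (nat_lit 0x3c004001800187c0582)))) 
(.lf (nat_lit 604528926) (dlOf (nat_lit 4) (nat_lit 0x14086000603d000401a000180a80018040001440a0004043000301e800080d000140540006020000100a000100000027e1c000c0000013802003200282f8001)))) 
(.nd (nat_lit 7) (.nd (nat_lit 22) 
(.lf (nat_lit 3221774430) (dlOf (nat_lit 1) (nat_lit 0x340008181301))) 
(.lf (nat_lit 21520478) (dlOf (nat_lit 2) (nat_lit 0x50e7f0000a818a40700)))) 
(.lf (nat_lit 29909214) (dlOf (nat_lit 1) (nat_lit 0x20028e30581))))) (.nd (nat_lit 26) 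
(.nd (nat_lit 29) 
(.lf (nat_lit 134766622) (dlOf (nat_lit 2) (nat_lit 0x10128002c4040098004004a00080b0982))) 
(.lf (nat_lit 2819121182) (dlOf (nat_lit 4) (nat_lit 0xf406c000410200360360001f81006b01b0000d40803a00080038002005000081a0583)))) 
(.nd (nat_lit 9) 
(.lf (nat_lit 201875486) (dlOf (nat_lit 2) (nat_lit 0x10128001a0040098004004a00080b0982))) 
(.lf (nat_lit 470311454) (dlOf (nat_lit 3) (nat_lit 0x370aa002a05440047608012c2a800c4151001170280c0d80)))))) 
(.nd (nat_lit 21) (.nd (nat_lit 6) 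
(.lf (nat_lit 9986078) (dlOf (nat_lit 2) (nat_lit 0x9a450008d2080083c10017800800ac002007800085a0a83))) 
(.nd (nat_lit 7) (.lf (nat_lit 60320350) (dlOf (nat_lit 1) (nat_lit 0x20019845381))) 
(.lf (nat_lit 1343774942) (dlOf (nat_lit 2) (nat_lit 0x205940004204002c00200020008370582))))) 
(.nd (nat_lit 7) (.nd (nat_lit 26) 
(.lf (nat_lit 3493355550) (dlOf (nat_lit 3) (nat_lit 0x208680010426000a203000f0888007b42000188680018222001eb0400380028120901))) 
(.lf (nat_lit 2755158046) (dlOf (nat_lit 3) (nat_lit 0x208bc0010450000a218000f0858007fc2000188bc0018216001fd0400380028120901)))) 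
(.lf (nat_lit 37251486) (dlOf (nat_lit 1) (nat_lit 0x4002000a00090d4e82))))))) (.nd (nat_lit 8) 
(.nd (nat_lit 7) (.nd (nat_lit 9) (.nd (nat_lit 6) 
(.lf (nat_lit 5301627934) (dlOf (nat_lit 2) (nat_lit 0x50188000b0080178008004400200320008006003))) 
(.nd (nat_lit 11) (.lf (nat_lit 472933470) (dlOf (nat_lit 1) (nat_lit 0x320018b52901))) 
(.lf (nat_lit 6442478686) (dlOf (nat_lit 1) (nat_lit 0x360018006081))))) (.nd (nat_lit 26) 
(.nd (nat_lit 11) (.lf (nat_lit 2684384798) (dlOf (nat_lit 1) (nat_lit 0x40008009c01))) 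
(.lf (nat_lit 2952822302) (dlOf (nat_lit 9) (nat_lit 0xd00d80178054000b808002c030000e0130002a02001300c00098000000a6080030036000500200700150002601002800a80012c08014806c00b802a0004504005a01b002f00a80010810036000800a00020018000800cf03)))) 
(.nd (nat_lit 27) 
(.lf (nat_lit 604012062) (dlOf (nat_lit 2) (nat_lit 0x2c0000005d020014000800cf01))) 
(.lf (nat_lit 469794334) (dlOf (nat_lit 3) (nat_lit 0x80470000b80800202380005a04000c0040002000800cf02)))))) 
(.nd (nat_lit 29) (.nd (nat_lit 11) 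
(.lf (nat_lit 1344824478) (dlOf (nat_lit 1) (nat_lit 0x60028982b81))) (.nd (nat_lit 12) 
(.lf (nat_lit 27806) (dlOf (nat_lit 1) (nat_lit 0x20008006281))) 
(.lf (nat_lit 3288366238) (dlOf (nat_lit 1) (nat_lit 0x18001800c201))))) (.nd (nat_lit 6) 
(.lf (nat_lit 1879080094) (dlOf (nat_lit 1) (nat_lit 0x2000800080020002000800c203))) 
(.nd (nat_lit 9) (.lf (nat_lit 6106932446) (dlOf (nat_lit 1) (nat_lit 0x5c0008002e01))) 
(.lf (nat_lit 5905608414) (dlOf (nat_lit 1) (nat_lit 0x8008000400200040008007383))))))) 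
(.nd (nat_lit 11) (.nd (nat_lit 9) (.nd (nat_lit 26) (.nd (nat_lit 28) 
(.lf (nat_lit 6039827742) (dlOf (nat_lit 2) (nat_lit 0x80d400000040028004000e0008009702))) 
(.lf (nat_lit 4160779550) (dlOf (nat_lit 1) (nat_lit 0x28008006400200120008009703)))) 
(.nd (nat_lit 12) (.lf (nat_lit 738223390) (dlOf (nat_lit 1) (nat_lit 0x4c0018003101))) 
(.lf (nat_lit 3422582046) (dlOf (nat_lit 3) (nat_lit 0x400d0003a81000a006800000080040008005c00200040008009703))))) 
(.nd (nat_lit 6) (.nd (nat_lit 12) 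
(.lf (nat_lit 201352990) (dlOf (nat_lit 1) (nat_lit 0xa0008003c81))) 
(.lf (nat_lit 2952820510) (dlOf (nat_lit 2) (nat_lit 0x540140021b01800a000)))) 
(.lf (nat_lit 3691018078) (dlOf (nat_lit 2) (nat_lit 0xbc0140025001800a300))))) (.nd (nat_lit 12) 
(.nd (nat_lit 9) (.nd (nat_lit 26) (.lf (nat_lit 27934) (dlOf (nat_lit 1) (nat_lit 0x20028006781))) 
(.lf (nat_lit 1946184990) (dlOf (nat_lit 1) (nat_lit 0x8008000400200020008006783)))) 
(.nd (nat_lit 6) (.lf (nat_lit 2952818462) (dlOf (nat_lit 1) (nat_lit 0xe0028007481))) 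
(.lf (nat_lit 2952818654) (dlOf (nat_lit 1) (nat_lit 0x40008007a81))))) (.nd (nat_lit 7) 
(.nd (nat_lit 26) 
(.lf (nat_lit 2952822046) (dlOf (nat_lit 2) (nat_lit 0x1004c008ba0400040040008000800c602))) 
(.lf (nat_lit 604011806) (dlOf (nat_lit 6) (nat_lit 0x40074004c602002e03b001201d000800e00098a0c006c076002e03a001001c0013101800800ec0094e040050076002003a001301c00129818028000800e8002002c000800c603)))) 
(.lf (nat_lit 3489693086) (dlOf (nat_lit 2) (nat_lit 0x6107000387c8000f20800300040002001800ca82)))))))) 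
(.nd (nat_lit 30) (.nd (nat_lit 19) (.nd (nat_lit 26) (.nd (nat_lit 6) (.nd (nat_lit 9) 
(.nd (nat_lit 24) (.nd (nat_lit 27) 
(.lf (nat_lit 2147541022) (dlOf (nat_lit 1) (nat_lit 0x400400020008090002))) 
(.lf (nat_lit 671146014) (dlOf (nat_lit 1) (nat_lit 0x200180b0001)))) (.nd (nat_lit 20) 
(.lf (nat_lit 27320350) (dlOf (nat_lit 1) (nat_lit 0x10008000400200020008cd0683))) 
(.lf (nat_lit 51437598) (dlOf (nat_lit 1) (nat_lit 0x20029510001))))) (.nd (nat_lit 7) 
(.lf (nat_lit 11592222) (dlOf (nat_lit 1) (nat_lit 0x4004000200186c0d82))) 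
(.lf (nat_lit 2147543710) (dlOf (nat_lit 1) (nat_lit 0x400400020008095582))))) (.nd (nat_lit 8) 
(.nd (nat_lit 9) (.nd (nat_lit 11) 
(.lf (nat_lit 10543198) (dlOf (nat_lit 1) (nat_lit 0x28004002000185f1902))) 
(.lf (nat_lit 536934494) (dlOf (nat_lit 1) (nat_lit 0x6001800a801)))) 
(.lf (nat_lit 4831898206) (dlOf (nat_lit 1) (nat_lit 0x20028055381)))) (.nd (nat_lit 11) 
(.lf (nat_lit 3203422) (dlOf (nat_lit 1) (nat_lit 0x60018200681))) 
(.lf (nat_lit 2147543390) (dlOf (nat_lit 1) (nat_lit 0x400400020008094e82)))))) (.nd (nat_lit 7) 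
(.nd (nat_lit 8) (.nd (nat_lit 21) 
(.lf (nat_lit 470867998) (dlOf (nat_lit 2) (nat_lit 0x24024000290181c0580))) 
(.lf (nat_lit 472965150) (dlOf (nat_lit 2) (nat_lit 0x4308f800000080018008001000200040008b70103)))) 
(.nd (nat_lit 10) 
(.lf (nat_lit 2348869918) (dlOf (nat_lit 2) (nat_lit 0xa0000001cc04001400200460008004b82))) 
(.lf (nat_lit 4496352542) (dlOf (nat_lit 1) (nat_lit 0x20028053101))))) (.nd (nat_lit 10) 
(.nd (nat_lit 8) (.lf (nat_lit 469821598) (dlOf (nat_lit 1) (nat_lit 0x8008000800200060008004803))) 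
(.lf (nat_lit 469823902) (dlOf (nat_lit 1) (nat_lit 0x8008000400200020008008383)))) 
(.nd (nat_lit 6) 
(.lf (nat_lit 2483088542) (dlOf (nat_lit 1) (nat_lit 0x140008004c002005e0008006283))) 
(.lf (nat_lit 4899005662) (dlOf (nat_lit 1) (nat_lit 0x400400020018052e02))))))) (.nd (nat_lit 21) 
(.nd (nat_lit 6) (.nd (nat_lit 20) 
(.lf (nat_lit 474538014) (dlOf (nat_lit 2) (nat_lit 0x7609c01cb04b00490234045010a0134083013f03e804f01f005100ea03a807300d20158000ec5000a800800ac002005800091a0103))) 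
(.nd (nat_lit 24) 
(.lf (nat_lit 10018846) (dlOf (nat_lit 5) (nat_lit 0x1e1d6001b0bc0008481002305e0004220400ec3ac00241780010782012d0e6000206ec002a4080238004000200085a0a82))) 
(.lf (nat_lit 26796062) (dlOf (nat_lit 1) (nat_lit 0xd8008004800200160008c70703))))) 
(.nd (nat_lit 9) (.lf (nat_lit 21553246) (dlOf (nat_lit 1) (nat_lit 0x40028a40701))) 
(.lf (nat_lit 46721630) (dlOf (nat_lit 1) (nat_lit 0x820009385381))))) (.nd (nat_lit 23) 
(.nd (nat_lit 7) (.nd (nat_lit 20) 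
(.lf (nat_lit 36233246) (dlOf (nat_lit 2) (nat_lit 0x178202009203c0001d829050100))) 
(.lf (nat_lit 24698910) (dlOf (nat_lit 1) (nat_lit 0x80028bb0601)))) 
(.lf (nat_lit 57207198) (dlOf (nat_lit 1) (nat_lit 0xa0029794e81)))) (.nd (nat_lit 6) 
(.lf (nat_lit 27844638) (dlOf (nat_lit 1) (nat_lit 0x3c0008d30501))) (.nd (nat_lit 7) 
(.lf (nat_lit 28893278) (dlOf (nat_lit 2) (nat_lit 0x1dcbc002ee04001c00400020008da0482))) 
(.lf (nat_lit 61400286) (dlOf (nat_lit 1) (nat_lit 0x10008000c00200080009922e03)))))))) 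
(.nd (nat_lit 29) (.nd (nat_lit 26) (.nd (nat_lit 7) (.nd (nat_lit 28) (.nd (nat_lit 6) 
(.lf (nat_lit 1208016926) (dlOf (nat_lit 1) (nat_lit 0x400400020008090002))) 
(.lf (nat_lit 3221289054) (dlOf (nat_lit 1) (nat_lit 0x2002800a801)))) (.nd (nat_lit 8) 
(.lf (nat_lit 1346431582) (dlOf (nat_lit 3) (nat_lit 0x920b40002081001205a0000ec080010008011400200640008f65383))) 
(.lf (nat_lit 3489721694) (dlOf (nat_lit 1) (nat_lit 0x400200020008006a82))))) (.nd (nat_lit 6) 
(.nd (nat_lit 19) (.lf (nat_lit 5502985374) (dlOf (nat_lit 1) (nat_lit 0x4400200160008002b82))) 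
(.lf (nat_lit 1344857246) (dlOf (nat_lit 2) (nat_lit 0x1814d00044018982b80)))) (.nd (nat_lit 8) 
(.lf (nat_lit 1344331998) (dlOf (nat_lit 5) (nat_lit 0x1039c000530200081ce000280100050e20000d40800187100006404005000400020008740582))) 
(.lf (nat_lit 1208019422) (dlOf (nat_lit 1) (nat_lit 0x400400020018094e82)))))) (.nd (nat_lit 8) 
(.nd (nat_lit 6) (.nd (nat_lit 19) 
(.lf (nat_lit 1275125790) (dlOf (nat_lit 1) (nat_lit 0x400400020008090002))) 
(.lf (nat_lit 3557351454) (dlOf (nat_lit 2) (nat_lit 0x8a03080015c0801c80080024002006e00081c0583)))) 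
(.nd (nat_lit 7) 
(.lf (nat_lit 5704313438) (dlOf (nat_lit 1) (nat_lit 0x8008000400200020008055383))) 
(.lf (nat_lit 5570094302) (dlOf (nat_lit 1) (nat_lit 0x20028052e01))))) (.nd (nat_lit 10) 
(.nd (nat_lit 7) 
(.lf (nat_lit 1543561502) (dlOf (nat_lit 2) (nat_lit 0x20000000e6040020002000200080b0482))) 
(.lf (nat_lit 1275126174) (dlOf (nat_lit 1) (nat_lit 0x400400020008091002)))) (.nd (nat_lit 9) 
(.lf (nat_lit 5570094366) (dlOf (nat_lit 1) (nat_lit 0x20028053101))) 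
(.lf (nat_lit 3691048734) (dlOf (nat_lit 1) (nat_lit 0x240008007481))))))) (.nd (nat_lit 9) 
(.nd (nat_lit 7) (.nd (nat_lit 10) (.nd (nat_lit 19) 
(.lf (nat_lit 2080432158) (dlOf (nat_lit 1) (nat_lit 0x400400020008090002))) 
(.lf (nat_lit 6375923742) (dlOf (nat_lit 1) (nat_lit 0x20028010601)))) 
(.lf (nat_lit 4094749726) (dlOf (nat_lit 1) (nat_lit 0x800400020008056002)))) (.nd (nat_lit 6) 
(.nd (nat_lit 10) 
(.lf (nat_lit 2080432542) (dlOf (nat_lit 1) (nat_lit 0x8008000400200020008091003))) 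
(.lf (nat_lit 6375400862) (dlOf (nat_lit 1) (nat_lit 0x20008000800200080008003603)))) 
(.nd (nat_lit 8) 
(.lf (nat_lit 6308291806) (dlOf (nat_lit 1) (nat_lit 0x8008000c00200020008052e03))) 
(.lf (nat_lit 2080432606) (dlOf (nat_lit 1) (nat_lit 0x8008000400200040008091283)))))) 
(.nd (nat_lit 6) (.nd (nat_lit 8) (.nd (nat_lit 10) 
(.lf (nat_lit 4094222878) (dlOf (nat_lit 1) (nat_lit 0xc0028018701))) 
(.lf (nat_lit 6308292126) (dlOf (nat_lit 1) (nat_lit 0x280008053701)))) 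
(.lf (nat_lit 2013326110) (dlOf (nat_lit 1) (nat_lit 0x8004001c0018005c02)))) (.nd (nat_lit 7) 
(.nd (nat_lit 19) (.lf (nat_lit 6174075486) (dlOf (nat_lit 1) (nat_lit 0x400400020008055382))) 
(.lf (nat_lit 6376974942) (dlOf (nat_lit 1) (nat_lit 0x20018095381)))) (.nd (nat_lit 27) 
(.lf (nat_lit 1677782750) (dlOf (nat_lit 1) (nat_lit 0x14c0028007381))) 
(.lf (nat_lit 3959484126) (dlOf (nat_lit 1) (nat_lit 0x20008007381)))))))))) (.nd (nat_lit 28) 
(.nd (nat_lit 10) (.nd (nat_lit 19) (.nd (nat_lit 7) (.nd (nat_lit 6) (.nd (nat_lit 11) 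
(.nd (nat_lit 15) (.lf (nat_lit 5502951486) (dlOf (nat_lit 1) (nat_lit 0x40018000001))) 
(.lf (nat_lit 12640318) (dlOf (nat_lit 1) (nat_lit 0x600186d0c81)))) (.nd (nat_lit 9) 
(.lf (nat_lit 2348873790) (dlOf (nat_lit 1) (nat_lit 0x6000800a681))) 
(.lf (nat_lit 201357886) (dlOf (nat_lit 1) (nat_lit 0x2002800b481))))) (.nd (nat_lit 9) 
(.nd (nat_lit 11) (.lf (nat_lit 47210622) (dlOf (nat_lit 1) (nat_lit 0x4002000200093b0d02))) 
(.lf (nat_lit 3825231998) (dlOf (nat_lit 2) (nat_lit 0x348000000540400a0002002e0008004782)))) 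
(.nd (nat_lit 8) (.lf (nat_lit 1275095678) (dlOf (nat_lit 1) (nat_lit 0x400400020018005482))) 
(.lf (nat_lit 8418174) (dlOf (nat_lit 1) (nat_lit 0x3c00400120018519002)))))) (.nd (nat_lit 9) 
(.nd (nat_lit 8) (.nd (nat_lit 20) 
(.lf (nat_lit 4219070) (dlOf (nat_lit 1) (nat_lit 0x280018290381))) 
(.lf (nat_lit 1073342) (dlOf (nat_lit 1) (nat_lit 0x400400020008065502)))) 
(.lf (nat_lit 39872958) (dlOf (nat_lit 1) (nat_lit 0x4800091f4e81)))) (.nd (nat_lit 6) 
(.nd (nat_lit 27) (.lf (nat_lit 2147543742) (dlOf (nat_lit 1) (nat_lit 0x400400020008095782))) 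
(.lf (nat_lit 1208019646) (dlOf (nat_lit 1) (nat_lit 0x400400020008095782)))) 
(.lf (nat_lit 27390) (dlOf (nat_lit 1) (nat_lit 0x400400020008005a82)))))) (.nd (nat_lit 21) 
(.nd (nat_lit 26) (.nd (nat_lit 15) (.nd (nat_lit 27) 
(.lf (nat_lit 3221774398) (dlOf (nat_lit 1) (nat_lit 0xc0028180c81))) 
(.lf (nat_lit 134766654) (dlOf (nat_lit 2) (nat_lit 0x40000001402000a00080b1881)))) 
(.nd (nat_lit 22) 
(.lf (nat_lit 134799422) (dlOf (nat_lit 2) (nat_lit 0x11802401a80000005404000200080c1401))) 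
(.lf (nat_lit 55107646) (dlOf (nat_lit 1) (nat_lit 0x4004000200096b0f02))))) (.nd (nat_lit 27) 
(.nd (nat_lit 6) 
(.lf (nat_lit 4362625086) (dlOf (nat_lit 4) (nat_lit 0xc064000a10200c60310004a01003b00000024c0801c00080134002007200080b0c03))) 
(.lf (nat_lit 2752014590) (dlOf (nat_lit 1) (nat_lit 0x40018004b81)))) (.nd (nat_lit 29) 
(.lf (nat_lit 201875518) (dlOf (nat_lit 2) (nat_lit 0x40000001402000a00080b1881))) 
(.lf (nat_lit 3959971902) (dlOf (nat_lit 1) (nat_lit 0xc0028180c81)))))) (.nd (nat_lit 8) 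
(.nd (nat_lit 6) (.lf (nat_lit 3694654) (dlOf (nat_lit 1) (nat_lit 0x8008004800200800008210c83))) 
(.nd (nat_lit 20) (.lf (nat_lit 57174782) (dlOf (nat_lit 1) (nat_lit 0x20019795a81))) 
(.lf (nat_lit 49834750) (dlOf (nat_lit 1) (nat_lit 0x34002005600094c5a82))))) (.nd (nat_lit 6) 
(.lf (nat_lit 58220990) (dlOf (nat_lit 1) (nat_lit 0x400097c7001))) (.nd (nat_lit 7) 
(.lf (nat_lit 37251454) (dlOf (nat_lit 1) (nat_lit 0x3800090d4e81))) 
(.lf (nat_lit 37251582) (dlOf (nat_lit 1) (nat_lit 0xc00200dc00090d4f82)))))))) (.nd (nat_lit 6) 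
(.nd (nat_lit 7) (.nd (nat_lit 9) (.nd (nat_lit 30) (.nd (nat_lit 8) 
(.lf (nat_lit 55632958) (dlOf (nat_lit 1) (nat_lit 0x4002000200096d2882))) 
(.lf (nat_lit 134249790) (dlOf (nat_lit 3) (nat_lit 0xa015002bc81000201b0013a40802b000800500020040000800c903)))) 
(.nd (nat_lit 26) 
(.lf (nat_lit 5502985278) (dlOf (nat_lit 2) (nat_lit 0x804000e80040044004001a0008002882))) 
(.lf (nat_lit 1275126846) (dlOf (nat_lit 1) (nat_lit 0x400400020008092882))))) (.nd (nat_lit 15) 
(.nd (nat_lit 26) 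
(.lf (nat_lit 5502953022) (dlOf (nat_lit 5) (nat_lit 0x500980009c08003804c00340200000904000a01300002810008009800000080050008000c00200120008003783))) 
(.lf (nat_lit 6106932798) (dlOf (nat_lit 5) (nat_lit 0x20058001002800080050000f03000700b000180540014028000a0040000d04000500b000500140002e08004002c000c01500100028000001800a8008002400200020008003783)))) 
(.lf (nat_lit 4496352830) (dlOf (nat_lit 1) (nat_lit 0x400200060008053782))))) (.nd (nat_lit 15) 
(.nd (nat_lit 8) (.nd (nat_lit 11) 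
(.lf (nat_lit 41444542) (dlOf (nat_lit 1) (nat_lit 0x4400200040009242c82))) 
(.lf (nat_lit 3288362174) (dlOf (nat_lit 2) (nat_lit 0x4806201e402300011828006300)))) 
(.lf (nat_lit 604009918) (dlOf (nat_lit 2) (nat_lit 0xc072000190200040008009a01)))) 
(.nd (nat_lit 8) (.nd (nat_lit 11) 
(.lf (nat_lit 41477310) (dlOf (nat_lit 1) (nat_lit 0x400200020009242c82))) 
(.lf (nat_lit 134278334) (dlOf (nat_lit 2) (nat_lit 0x7800f4000c074018603800e301980008c200018008001400200020008006303)))) 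
(.lf (nat_lit 20510142) (dlOf (nat_lit 1) (nat_lit 0x400289d9a01)))))) (.nd (nat_lit 7) 
(.nd (nat_lit 11) (.nd (nat_lit 12) (.nd (nat_lit 29) 
(.lf (nat_lit 5502985854) (dlOf (nat_lit 1) (nat_lit 0x8008003400200100008003983))) 
(.lf (nat_lit 4966114942) (dlOf (nat_lit 1) (nat_lit 0x400400020008003982)))) 
(.lf (nat_lit 2684384894) (dlOf (nat_lit 2) (nat_lit 0x2c03300041018009d80)))) (.nd (nat_lit 8) 
(.nd (nat_lit 19) (.lf (nat_lit 27774) (dlOf (nat_lit 1) (nat_lit 0x20028006101))) 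
(.lf (nat_lit 20475006) (dlOf (nat_lit 1) (nat_lit 0xe00189d6101)))) 
(.lf (nat_lit 604041086) (dlOf (nat_lit 1) (nat_lit 0x6000200020008007782))))) (.nd (nat_lit 26) 
(.nd (nat_lit 12) (.lf (nat_lit 5502985470) (dlOf (nat_lit 1) (nat_lit 0x20028002f01))) 
(.lf (nat_lit 8418558) (dlOf (nat_lit 1) (nat_lit 0xc400401480008519582)))) (.nd (nat_lit 27) 
(.nd (nat_lit 29) (.lf (nat_lit 1140909310) (dlOf (nat_lit 1) (nat_lit 0xa0018002f01))) 
(.lf (nat_lit 4899005694) (dlOf (nat_lit 1) (nat_lit 0x400400020018052f02)))) 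
(.lf (nat_lit 4496352510) (dlOf (nat_lit 1) (nat_lit 0x20028052f01)))))))) (.nd (nat_lit 7) 
(.nd (nat_lit 26) (.nd (nat_lit 11) (.nd (nat_lit 19) (.nd (nat_lit 22) (.nd (nat_lit 9) 
(.lf (nat_lit 4160774206) (dlOf (nat_lit 1) (nat_lit 0x8004000a0008000002))) 
(.lf (nat_lit 6308292158) (dlOf (nat_lit 8) (nat_lit 0xb8064000402c001200b0001603000a0058000ac0800a806400054040050032003a00b0001482001700c8025802c0000a080174032009c00b0000102000f005800000080788008002400200040008053783)))) 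
(.nd (nat_lit 8) 
(.lf (nat_lit 3493879870) (dlOf (nat_lit 2) (nat_lit 0x11030003432040014004000600081b0002))) 
(.lf (nat_lit 1346396478) (dlOf (nat_lit 1) (nat_lit 0x4a0018f60b81))))) (.nd (nat_lit 9) 
(.nd (nat_lit 10) 
(.lf (nat_lit 3492307006) (dlOf (nat_lit 2) (nat_lit 0xe00fe00015008009800800fc002001000080c1403))) 
(.lf (nat_lit 1346954302) (dlOf (nat_lit 1) (nat_lit 0x400200020009102882)))) 
(.lf (nat_lit 1342726718) (dlOf (nat_lit 2) (nat_lit 0x108154000000180c1080))))) (.nd (nat_lit 8) 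
(.nd (nat_lit 6) (.lf (nat_lit 3623909438) (dlOf (nat_lit 1) (nat_lit 0xc000800a681))) 
(.lf (nat_lit 3492866174) (dlOf (nat_lit 2) (nat_lit 0x80500002a02000600180f4781)))) 
(.nd (nat_lit 9) (.lf (nat_lit 1342204286) (dlOf (nat_lit 1) (nat_lit 0xc002001c0008004e82))) 
(.nd (nat_lit 15) (.lf (nat_lit 1476423550) (dlOf (nat_lit 1) (nat_lit 0x20028007781))) 
(.lf (nat_lit 1476456318) (dlOf (nat_lit 1) (nat_lit 0x60018007781))))))) (.nd (nat_lit 9) 
(.nd (nat_lit 15) (.nd (nat_lit 6) (.nd (nat_lit 10) 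
(.lf (nat_lit 4228407358) (dlOf (nat_lit 4) (nat_lit 0xc062000a00200c60300004a01003b00000024c0801c00080134002007200080b0c03))) 
(.lf (nat_lit 472933438) (dlOf (nat_lit 1) (nat_lit 0xc00200060008b52882)))) 
(.lf (nat_lit 1543530622) (dlOf (nat_lit 1) (nat_lit 0x580080008002000e0008004783)))) 
(.nd (nat_lit 27) (.nd (nat_lit 8) 
(.lf (nat_lit 3557351486) (dlOf (nat_lit 2) (nat_lit 0x1d03080153c0803d0008003400200ec00081c0903))) 
(.lf (nat_lit 2483088702) (dlOf (nat_lit 2) (nat_lit 0x880000005c0400d800200260008006902)))) 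
(.nd (nat_lit 20) (.lf (nat_lit 1543561278) (dlOf (nat_lit 1) (nat_lit 0xc004000a00080b0002))) 
(.lf (nat_lit 472965182) (dlOf (nat_lit 3) (nat_lit 0xa41b2004608d001c03e8009241800b823400ac0fa002470400020018b70601)))))) 
(.nd (nat_lit 6) (.nd (nat_lit 8) (.nd (nat_lit 10) 
(.lf (nat_lit 470311486) (dlOf (nat_lit 2) (nat_lit 0x108154000000180c1080))) 
(.lf (nat_lit 4630537790) (dlOf (nat_lit 2) (nat_lit 0x200b000a80500005c080054004000a0008003782)))) 
(.lf (nat_lit 469788478) (dlOf (nat_lit 1) (nat_lit 0x2800400060008003e02)))) (.nd (nat_lit 8) 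
(.lf (nat_lit 5704313470) (dlOf (nat_lit 1) (nat_lit 0x8008000400200020008055483))) 
(.nd (nat_lit 10) 
(.lf (nat_lit 2617308030) (dlOf (nat_lit 1) (nat_lit 0x8008000c00200020008009003))) 
(.lf (nat_lit 3691016062) (dlOf (nat_lit 1) (nat_lit 0x60008007781)))))))) (.nd (nat_lit 10) 
(.nd (nat_lit 6) (.nd (nat_lit 15) (.nd (nat_lit 19) 
(.lf (nat_lit 3154141630) (dlOf (nat_lit 1) (nat_lit 0x30008000400200020008001083))) 
(.nd (nat_lit 26) 
(.lf (nat_lit 1342726590) (dlOf (nat_lit 4) (nat_lit 0x9c15400870a88001281001205440009204013c2a80004102000600280c0881))) 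
(.lf (nat_lit 470311358) (dlOf (nat_lit 4) (nat_lit 0x9c15400870a88001281001205440009204013c2a80004102000600280c0881))))) 
(.nd (nat_lit 12) (.lf (nat_lit 5774041534) (dlOf (nat_lit 1) (nat_lit 0x1800280f7a81))) 
(.lf (nat_lit 1342239166) (dlOf (nat_lit 1) (nat_lit 0x20018008601))))) (.nd (nat_lit 8) 
(.nd (nat_lit 9) (.lf (nat_lit 1476944126) (dlOf (nat_lit 2) (nat_lit 0x403f00067018302900))) 
(.lf (nat_lit 6241151742) (dlOf (nat_lit 1) (nat_lit 0x40018005a81)))) (.nd (nat_lit 30) 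
(.nd (nat_lit 26) (.lf (nat_lit 2415944702) (dlOf (nat_lit 1) (nat_lit 0xa0018002881))) 
(.lf (nat_lit 4630537214) (dlOf (nat_lit 1) (nat_lit 0xe0018002881)))) (.nd (nat_lit 9) 
(.lf (nat_lit 1342726654) (dlOf (nat_lit 2) (nat_lit 0x941540010c8180c0d80))) 
(.lf (nat_lit 4026557438) (dlOf (nat_lit 1) (nat_lit 0x200018002881))))))) (.nd (nat_lit 11) 
(.nd (nat_lit 8) (.nd (nat_lit 15) 
(.lf (nat_lit 4563428606) (dlOf (nat_lit 1) (nat_lit 0x1e0008002f01))) (.nd (nat_lit 26) 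
(.lf (nat_lit 6308291838) (dlOf (nat_lit 1) (nat_lit 0x400400020008052f02))) 
(.lf (nat_lit 335602942) (dlOf (nat_lit 1) (nat_lit 0x20018002f01))))) (.nd (nat_lit 6) 
(.lf (nat_lit 1006663102) (dlOf (nat_lit 1) (nat_lit 0x60028009a01))) 
(.lf (nat_lit 6375400958) (dlOf (nat_lit 1) (nat_lit 0x400200020008003682))))) (.nd (nat_lit 9) 
(.nd (nat_lit 12) (.nd (nat_lit 8) 
(.lf (nat_lit 1342237886) (dlOf (nat_lit 1) (nat_lit 0x800200060008006302))) 
(.lf (nat_lit 3489689022) (dlOf (nat_lit 1) (nat_lit 0x20028006d01)))) (.nd (nat_lit 26) 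
(.lf (nat_lit 1342209214) (dlOf (nat_lit 1) (nat_lit 0xa000800c201))) 
(.lf (nat_lit 4227890366) (dlOf (nat_lit 1) (nat_lit 0x2000040064000800c202))))) (.nd (nat_lit 15) 
(.lf (nat_lit 1342205630) (dlOf (nat_lit 3) (nat_lit 0x911b8000ec0800088980006c04013c004000c0008007282))) 
(.lf (nat_lit 1342238398) (dlOf (nat_lit 2) (nat_lit 0x2123800034080008008003000200060008007283)))))))))) 
(.nd (nat_lit 15) (.nd (nat_lit 5) (.nd (nat_lit 28) (.nd (nat_lit 6) (.nd (nat_lit 30) 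
(.nd (nat_lit 19) (.nd (nat_lit 7) (.nd (nat_lit 9) (.nd (nat_lit 26) 
(.lf (nat_lit 537157662) (dlOf (nat_lit 3) (nat_lit 0x5805f000ac01002d02f80055c0802b000800d000200920008030903))) 
(.lf (nat_lit 4362362910) (dlOf (nat_lit 7) (nat_lit 0x10110000800400180a00003502005c05a00e80290015814405c808c0001f0801c6052001202880b501180003c0c000408c0001d0200100520084023000058100058008000400200160008030b83)))) 
(.lf (nat_lit 20213278) (dlOf (nat_lit 1) (nat_lit 0x28002000400089d7102)))) (.nd (nat_lit 8) 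
(.lf (nat_lit 54815390) (dlOf (nat_lit 1) (nat_lit 0x20019655581))) 
(.lf (nat_lit 6509846942) (dlOf (nat_lit 1) (nat_lit 0x400400020018156b82))))) (.nd (nat_lit 20) 
(.nd (nat_lit 8) (.nd (nat_lit 21) 
(.lf (nat_lit 4362887198) (dlOf (nat_lit 2) (nat_lit 0x814801934040010004000600081a0002))) 
(.lf (nat_lit 7102494) (dlOf (nat_lit 1) (nat_lit 0xb4004000600084b0002)))) 
(.lf (nat_lit 19692318) (dlOf (nat_lit 1) (nat_lit 0x200189dbb81)))) (.nd (nat_lit 7) 
(.nd (nat_lit 22) (.lf (nat_lit 35414046) (dlOf (nat_lit 1) (nat_lit 0x400400020009010002))) 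
(.lf (nat_lit 6053918) (dlOf (nat_lit 1) (nat_lit 0xb400400060008420002)))) 
(.lf (nat_lit 20737182) (dlOf (nat_lit 1) (nat_lit 0x7400089d6281)))))) (.nd (nat_lit 26) 
(.nd (nat_lit 9) (.nd (nat_lit 7) 
(.lf (nat_lit 3758383134) (dlOf (nat_lit 1) (nat_lit 0x8008009c00200200008170103))) 
(.lf (nat_lit 1610900638) (dlOf (nat_lit 1) (nat_lit 0x400400020008092b82)))) (.nd (nat_lit 31) 
(.lf (nat_lit 1074029086) (dlOf (nat_lit 1) (nat_lit 0x400400020008090d82))) 
(.lf (nat_lit 3221512734) (dlOf (nat_lit 2) (nat_lit 0x3600e00202018127f00))))) (.nd (nat_lit 27) 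
(.nd (nat_lit 31) 
(.lf (nat_lit 1678008350) (dlOf (nat_lit 1) (nat_lit 0x28008006c00200180008130483))) 
(.lf (nat_lit 3825491998) (dlOf (nat_lit 3) (nat_lit 0x1200b000b004800b8000002ba0c00100120008002000e0000005701800f000800ec002003c0008170903)))) 
(.lf (nat_lit 1812226078) (dlOf (nat_lit 2) (nat_lit 0x10130028cc080068008007800200200008180483)))))) 
(.nd (nat_lit 19) (.nd (nat_lit 26) (.nd (nat_lit 23) (.nd (nat_lit 7) 
(.lf (nat_lit 3221512542) (dlOf (nat_lit 2) (nat_lit 0xb604500011018124e80))) 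
(.lf (nat_lit 17064158) (dlOf (nat_lit 1) (nat_lit 0x200088e0581)))) (.nd (nat_lit 9) 
(.lf (nat_lit 9723998) (dlOf (nat_lit 3) (nat_lit 0x2e8fc000b2f0000471b000112d0000d02001a720000e24ee00691bd000749700091d480030d94000150c00280008580701))) 
(.lf (nat_lit 46426718) (dlOf (nat_lit 1) (nat_lit 0x1400400060009385382))))) (.nd (nat_lit 7) 
(.nd (nat_lit 8) (.lf (nat_lit 2349097054) (dlOf (nat_lit 1) (nat_lit 0x8004000400080a1282))) 
(.lf (nat_lit 3959710046) (dlOf (nat_lit 3) (nat_lit 0xc01140004404004c08a000200200020008124e81)))) 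
(.lf (nat_lit 2885970142) (dlOf (nat_lit 2) (nat_lit 0x19020001600000001a08008000200020008144a82))))) 
(.nd (nat_lit 7) (.nd (nat_lit 8) (.nd (nat_lit 9) 
(.lf (nat_lit 36463710) (dlOf (nat_lit 1) (nat_lit 0x20029072901))) 
(.lf (nat_lit 67925598) (dlOf (nat_lit 2) (nat_lit 0xc2ca00c110200040018339c01)))) 
(.nd (nat_lit 10) 
(.lf (nat_lit 4362887518) (dlOf (nat_lit 2) (nat_lit 0x900000000c040014002000c00081a0682))) 
(.lf (nat_lit 50095454) (dlOf (nat_lit 2) (nat_lit 0x1648a0001a0194c3400))))) (.nd (nat_lit 9) 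
(.nd (nat_lit 10) (.lf (nat_lit 19685598) (dlOf (nat_lit 1) (nat_lit 0x400289d0a01))) 
(.lf (nat_lit 61629662) (dlOf (nat_lit 1) (nat_lit 0x800400160019922e02)))) (.nd (nat_lit 8) 
(.lf (nat_lit 19690206) (dlOf (nat_lit 1) (nat_lit 0x80080004002000200089d8c83))) 
(.lf (nat_lit 70018014) (dlOf (nat_lit 1) (nat_lit 0x40018e62881)))))))) (.nd (nat_lit 27) 
(.nd (nat_lit 26) (.nd (nat_lit 7) (.nd (nat_lit 29) (.nd (nat_lit 9) 
(.lf (nat_lit 1342464030) (dlOf (nat_lit 6) (nat_lit 0x687440049404001c39e0024802007a1d100320e780091c1001e85440034102001fd04000e15400320a880079c100048008003c002008e0008030903))) 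
(.lf (nat_lit 3491521054) (dlOf (nat_lit 2) (nat_lit 0x1a0458000000801b80080020002001c0008090d83)))) 
(.nd (nat_lit 8) (.lf (nat_lit 805593118) (dlOf (nat_lit 1) (nat_lit 0xa0008130481))) 
(.lf (nat_lit 6174303518) (dlOf (nat_lit 1) (nat_lit 0x400180d3101))))) (.nd (nat_lit 8) 
(.nd (nat_lit 20) 
(.lf (nat_lit 4563689630) (dlOf (nat_lit 4) (nat_lit 0x3e034000178100100198000ac0800800cc00054040038004002a00080c1302))) 
(.lf (nat_lit 3490996382) (dlOf (nat_lit 1) (nat_lit 0x20028044301)))) 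
(.lf (nat_lit 3489950110) (dlOf (nat_lit 1) (nat_lit 0x20008004e81))))) (.nd (nat_lit 19) 
(.nd (nat_lit 8) 
(.lf (nat_lit 1409572894) (dlOf (nat_lit 3) (nat_lit 0x5805f000ae81002d02f8005700802b000800d000200920008030903))) 
(.lf (nat_lit 4094976286) (dlOf (nat_lit 1) (nat_lit 0x780018050a81)))) (.nd (nat_lit 10) 
(.nd (nat_lit 29) 
(.lf (nat_lit 3557580830) (dlOf (nat_lit 3) (nat_lit 0x2c0e000040370005482000f0248003808400000080068004005a0008270502))) 
(.lf (nat_lit 4094451742) (dlOf (nat_lit 1) (nat_lit 0x400400020008050002)))) 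
(.lf (nat_lit 4094454814) (dlOf (nat_lit 1) (nat_lit 0x20028056001)))))) (.nd (nat_lit 26) 
(.nd (nat_lit 7) (.nd (nat_lit 29) 
(.lf (nat_lit 1476681758) (dlOf (nat_lit 1) (nat_lit 0x60028110681))) (.nd (nat_lit 31) 
(.lf (nat_lit 939810846) (dlOf (nat_lit 1) (nat_lit 0x58008003000200020008180483))) 
(.lf (nat_lit 3087294494) (dlOf (nat_lit 3) (nat_lit 0x1200b000b004800b8000002b00c00100120008002000e00000055c1800f000800ec002003c0008170903))))) 
(.nd (nat_lit 6) (.nd (nat_lit 10) 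
(.lf (nat_lit 4697907358) (dlOf (nat_lit 4) (nat_lit 0x3e0340000c8100100198000540800800cc00028040038004002a00080c1302))) 
(.lf (nat_lit 5234779294) (dlOf (nat_lit 1) (nat_lit 0x10002000c00080d2b82)))) 
(.lf (nat_lit 4697907422) (dlOf (nat_lit 1) (nat_lit 0x1b8008006c002008a00080c1a03))))) 
(.nd (nat_lit 8) (.nd (nat_lit 20) (.nd (nat_lit 29) 
(.lf (nat_lit 470048798) (dlOf (nat_lit 6) (nat_lit 0x687440046404001c39e0023002007a1d100320e78008bc1001e85440034102001eb04000e15400320a8800748100048008003c002008e0008030903))) 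
(.lf (nat_lit 4228145182) (dlOf (nat_lit 7) (nat_lit 0x100f4000800400180920003502005c05300e80258015812805c807e0001f0801c604b001202500b500fc0003c0c000407e0001d02001004b008401f800058100058008000400200160008030b83)))) 
(.lf (nat_lit 471097374) (dlOf (nat_lit 2) (nat_lit 0x70470000ac0802380080008002008e0008270503)))) 
(.nd (nat_lit 6) 
(.lf (nat_lit 4228669726) (dlOf (nat_lit 1) (nat_lit 0x80080018002000600081a0483))) 
(.lf (nat_lit 4228669790) (dlOf (nat_lit 2) (nat_lit 0x900000000c040014002000c00081a0682)))))))) 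
(.nd (nat_lit 26) (.nd (nat_lit 19) (.nd (nat_lit 6) (.nd (nat_lit 20) (.nd (nat_lit 28) 
(.nd (nat_lit 29) (.nd (nat_lit 9) 
(.lf (nat_lit 12869694) (dlOf (nat_lit 1) (nat_lit 0x4002000200086e0c02))) 
(.lf (nat_lit 6442738238) (dlOf (nat_lit 1) (nat_lit 0x7e00281b1081)))) (.nd (nat_lit 10) 
(.lf (nat_lit 671375422) (dlOf (nat_lit 1) (nat_lit 0x20008000c002000e0008170d83))) 
(.lf (nat_lit 1610900542) (dlOf (nat_lit 1) (nat_lit 0x180028092881))))) (.nd (nat_lit 7) 
(.lf (nat_lit 1342464062) (dlOf (nat_lit 3) (nat_lit 0x43c800161d2000210200030e900010724026038e013a1bd0001b048030d80))) 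
(.lf (nat_lit 4563689662) (dlOf (nat_lit 5) (nat_lit 0x2dc0520003302003803500b801800eb00a4030804a0172021004800d803b004c006c00e000321001b6029000180100160148000bc081d580080494002089400080c1a83))))) 
(.nd (nat_lit 22) (.nd (nat_lit 8) 
(.lf (nat_lit 1335358) (dlOf (nat_lit 1) (nat_lit 0x4002000200080b0702))) 
(.lf (nat_lit 20213054) (dlOf (nat_lit 1) (nat_lit 0x3800289d6901)))) (.nd (nat_lit 23) 
(.lf (nat_lit 24404030) (dlOf (nat_lit 2) (nat_lit 0x5800000011818b90c80))) 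
(.lf (nat_lit 32792638) (dlOf (nat_lit 1) (nat_lit 0x1400400040008f10602)))))) (.nd (nat_lit 7) 
(.nd (nat_lit 8) (.nd (nat_lit 9) 
(.lf (nat_lit 1208246398) (dlOf (nat_lit 1) (nat_lit 0x5000080008002012c00080a2003))) 
(.lf (nat_lit 4832126590) (dlOf (nat_lit 1) (nat_lit 0x44002000c00080d3982)))) 
(.lf (nat_lit 3489950078) (dlOf (nat_lit 1) (nat_lit 0x20008004e81)))) (.nd (nat_lit 8) 
(.lf (nat_lit 20216062) (dlOf (nat_lit 1) (nat_lit 0x100080004002000200089da983))) 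
(.lf (nat_lit 5905867262) (dlOf (nat_lit 7) (nat_lit 0xb60128055005c000ba0802e804a013a0170002e0200a3012800c805c000a008028c04a0004702019802500d200b8001081003480940007a0400a8004006a0008157e02)))))) 
(.nd (nat_lit 8) (.nd (nat_lit 21) (.nd (nat_lit 7) (.nd (nat_lit 20) 
(.lf (nat_lit 1342988350) (dlOf (nat_lit 1) (nat_lit 0x400400220018121402))) 
(.lf (nat_lit 22831166) (dlOf (nat_lit 18) (nat_lit 0xb352c0007e040055a960003d02000ed4b0001b01000e6a58000d008004352c0005a040019a960002a02000ed4b000148100066a580008c08003352c00040040015a960001f020012d4b0000e8100046a580007008001b52c0001804000da960000b02000ad4b000048100026a580002008005352c00000040048002000e0008b30e82)))) 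
(.lf (nat_lit 6054078) (dlOf (nat_lit 1) (nat_lit 0x400400020008420482)))) (.nd (nat_lit 10) 
(.nd (nat_lit 23) 
(.lf (nat_lit 1346134078) (dlOf (nat_lit 2) (nat_lit 0x7214d012306c800a036003e40f8002470800020008e60601))) 
(.lf (nat_lit 45899838) (dlOf (nat_lit 1) (nat_lit 0x20029360601)))) (.nd (nat_lit 9) 
(.lf (nat_lit 36463678) (dlOf (nat_lit 1) (nat_lit 0x20019072881))) 
(.lf (nat_lit 8152638) (dlOf (nat_lit 2) (nat_lit 0x588ed00009818513780)))))) (.nd (nat_lit 10) 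
(.nd (nat_lit 6) (.nd (nat_lit 21) 
(.lf (nat_lit 51142974) (dlOf (nat_lit 8) (nat_lit 0xc7420005ba0c000ee080021d0800076020010e84000388100087420001c0080043a10000c6040021d0800061020012e8400000019507d00))) 
(.lf (nat_lit 19685694) (dlOf (nat_lit 1) (nat_lit 0x4002000200089d0b82)))) 
(.lf (nat_lit 1860094) (dlOf (nat_lit 1) (nat_lit 0x10400200440008150d82)))) (.nd (nat_lit 6) 
(.nd (nat_lit 7) (.lf (nat_lit 8156478) (dlOf (nat_lit 1) (nat_lit 0x400200020008519902))) 
(.lf (nat_lit 19690942) (dlOf (nat_lit 1) (nat_lit 0x200189d9a01)))) 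
(.lf (nat_lit 8157054) (dlOf (nat_lit 1) (nat_lit 0x2001851a301))))))) (.nd (nat_lit 27) 
(.nd (nat_lit 8) (.nd (nat_lit 11) (.nd (nat_lit 10) 
(.lf (nat_lit 2483314750) (dlOf (nat_lit 6) (nat_lit 0x5d0110000d00804780880006404012804400023020036022000110100040110000840800600080050002000a00080a0c83))) 
(.lf (nat_lit 2752275518) (dlOf (nat_lit 1) (nat_lit 0x20018002881)))) (.nd (nat_lit 6) 
(.nd (nat_lit 7) (.lf (nat_lit 2751756350) (dlOf (nat_lit 1) (nat_lit 0x2002800a681))) 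
(.lf (nat_lit 4094454462) (dlOf (nat_lit 1) (nat_lit 0x400400020008055782)))) 
(.lf (nat_lit 3557062782) (dlOf (nat_lit 1) (nat_lit 0x40040002000812a882))))) (.nd (nat_lit 6) 
(.nd (nat_lit 7) (.nd (nat_lit 9) 
(.lf (nat_lit 2752799038) (dlOf (nat_lit 4) (nat_lit 0x8860000442c000390400041d2000f0df0000781000407480003804000800200060008048502))) 
(.lf (nat_lit 3557062462) (dlOf (nat_lit 1) (nat_lit 0x40040002000812a102)))) 
(.lf (nat_lit 4094454718) (dlOf (nat_lit 1) (nat_lit 0x400400020008055d02)))) (.nd (nat_lit 7) 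
(.lf (nat_lit 3557060478) (dlOf (nat_lit 2) (nat_lit 0x501c0029600800f80080014002002c0008127783))) 
(.lf (nat_lit 4899236862) (dlOf (nat_lit 1) (nat_lit 0x400180d5f01)))))) (.nd (nat_lit 28) 
(.nd (nat_lit 6) (.nd (nat_lit 8) (.nd (nat_lit 30) 
(.lf (nat_lit 2349097022) (dlOf (nat_lit 6) (nat_lit 0x5d011000070080478088000340401280440000b020036022000050100040110000240800600080050002000a00080a0c83))) 
(.lf (nat_lit 3422838846) (dlOf (nat_lit 2) (nat_lit 0x60250001e818110e80)))) 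
(.lf (nat_lit 201613630) (dlOf (nat_lit 1) (nat_lit 0x400400020008048502)))) (.nd (nat_lit 8) 
(.lf (nat_lit 6644064510) (dlOf (nat_lit 2) (nat_lit 0x27011800150080018008000c002000600080c4603))) 
(.lf (nat_lit 3959710206) (dlOf (nat_lit 6) (nat_lit 0x6101f000480f001f001c001000c000c00000008c2803d00f8027001c005a00c002e0000000882005080f800ec03801a400e004c001003000000003c14013007c00b000e0000e02004801f002e00380003608012000400540018127e02))))) 
(.nd (nat_lit 30) (.nd (nat_lit 10) 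
(.lf (nat_lit 470048830) (dlOf (nat_lit 3) (nat_lit 0x43c800161d2000228200030e900010724026038e013a1bd0001c048030d80))) 
(.lf (nat_lit 5301888062) (dlOf (nat_lit 2) (nat_lit 0xe40220000002000600080e2881)))) 
(.nd (nat_lit 9) 
(.lf (nat_lit 1543790654) (dlOf (nat_lit 1) (nat_lit 0x20008000c002000e0008170d83))) 
(.lf (nat_lit 5838758462) (dlOf (nat_lit 1) (nat_lit 0x7e00281b1081))))))))) (.nd (nat_lit 28) 
(.nd (nat_lit 19) (.nd (nat_lit 27) (.nd (nat_lit 6) (.nd (nat_lit 26) (.nd (nat_lit 8) 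
(.nd (nat_lit 5) (.nd (nat_lit 7) 
(.lf (nat_lit 537190430) (dlOf (nat_lit 1) (nat_lit 0x8008000400200020008050683))) 
(.lf (nat_lit 35973790) (dlOf (nat_lit 1) (nat_lit 0xc00200020009015582)))) 
(.lf (nat_lit 21291198) (dlOf (nat_lit 1) (nat_lit 0x20008a31a81)))) (.nd (nat_lit 9) 
(.nd (nat_lit 11) (.lf (nat_lit 23388446) (dlOf (nat_lit 1) (nat_lit 0x800803a8002009e0008b80483))) 
(.lf (nat_lit 8710430) (dlOf (nat_lit 1) (nat_lit 0x80028514b81)))) 
(.lf (nat_lit 20245278) (dlOf (nat_lit 1) (nat_lit 0x180080004002000200089d5c03))))) 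
(.nd (nat_lit 5) (.nd (nat_lit 29) 
(.lf (nat_lit 3288653854) (dlOf (nat_lit 1) (nat_lit 0x14004004200180a0902))) 
(.lf (nat_lit 604299294) (dlOf (nat_lit 1) (nat_lit 0xc00200100008130502)))) (.nd (nat_lit 8) 
(.nd (nat_lit 30) 
(.lf (nat_lit 2214912062) (dlOf (nat_lit 3) (nat_lit 0x1c0100003f02000c0080001e818130e80))) 
(.lf (nat_lit 3288653886) (dlOf (nat_lit 6) (nat_lit 0x2e405c0003402007402d0001901003d016801480980004608006805a000c0260001102000d01680060098000420803ac004000c00180a0c82)))) 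
(.lf (nat_lit 1678041406) (dlOf (nat_lit 2) (nat_lit 0x40000000230200100008158501)))))) 
(.nd (nat_lit 7) (.nd (nat_lit 9) (.nd (nat_lit 21) 
(.lf (nat_lit 9756766) (dlOf (nat_lit 4) (nat_lit 0x201d600130ea00088728002c38a002417800030570000d030008075800143a600221ca000e0e2800985e00003e140074884002e41e001720d80138684003404e000150a00060018580701))) 
(.lf (nat_lit 37019742) (dlOf (nat_lit 1) (nat_lit 0x400200260009081982)))) 
(.lf (nat_lit 60090974) (dlOf (nat_lit 1) (nat_lit 0x40029845381)))) (.nd (nat_lit 5) 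
(.nd (nat_lit 9) (.lf (nat_lit 17096926) (dlOf (nat_lit 1) (nat_lit 0x600088e0581))) 
(.lf (nat_lit 2754932446) (dlOf (nat_lit 6) (nat_lit 0xe40590000980806482c800030040398164000070200300b20000101000505900000008005000800dc002007000080f7383)))) 
(.lf (nat_lit 57991422) (dlOf (nat_lit 1) (nat_lit 0x2a00197a2901)))))) (.nd (nat_lit 5) 
(.nd (nat_lit 29) (.nd (nat_lit 26) (.nd (nat_lit 30) 
(.lf (nat_lit 134537246) (dlOf (nat_lit 1) (nat_lit 0x4004000a0018060482))) 
(.lf (nat_lit 1208279070) (dlOf (nat_lit 4) (nat_lit 0x134070000460201680390000901001101c8000400800300080058002009000080b0183)))) 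
(.lf (nat_lit 201646110) (dlOf (nat_lit 1) (nat_lit 0x4004000a0018060482)))) (.nd (nat_lit 6) 
(.nd (nat_lit 7) (.lf (nat_lit 3892633630) (dlOf (nat_lit 1) (nat_lit 0xb000400b40008180102))) 
(.lf (nat_lit 671408286) (dlOf (nat_lit 1) (nat_lit 0x1c00200160008184302)))) 
(.lf (nat_lit 738517342) (dlOf (nat_lit 1) (nat_lit 0x4002000200080a7182))))) (.nd (nat_lit 26) 
(.nd (nat_lit 8) (.nd (nat_lit 29) 
(.lf (nat_lit 1208279102) (dlOf (nat_lit 8) (nat_lit 0x2101c8008100800500a400340180007d04003a02900670060001d41001480a401640180007404007a02900760060001cc1000b00a400a00180001a0400040290000a8180b0480))) 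
(.nd (nat_lit 31) (.lf (nat_lit 1745150014) (dlOf (nat_lit 1) (nat_lit 0x200280b0481))) 
(.lf (nat_lit 3892633662) (dlOf (nat_lit 1) (nat_lit 0x800400460008180482))))) 
(.lf (nat_lit 671408446) (dlOf (nat_lit 13) (nat_lit 0x199011800a0020003800a00380000002e84006101180080020003800a002c0000002e040006011800154080d0008c008403000054040380023000401000130060000a60c06b00460020008000a002800c0000000a210004401000160050002001000c0000000a0100080010002c0050027000000130180050000000960400c401000500050037000000128180110020005800a00048040054008002000280010810020000804b000200080008188503)))) 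
(.nd (nat_lit 6) (.lf (nat_lit 6107226302) (dlOf (nat_lit 1) (nat_lit 0x4004000200080c1a82))) 
(.lf (nat_lit 4496616062) (dlOf (nat_lit 1) (nat_lit 0x200280e5481))))))) (.nd (nat_lit 21) 
(.nd (nat_lit 24) (.nd (nat_lit 20) (.nd (nat_lit 6) 
(.lf (nat_lit 42786846) (dlOf (nat_lit 2) (nat_lit 0x1b80000000004001800400140009280102))) 
(.lf (nat_lit 4362920286) (dlOf (nat_lit 3) (nat_lit 0x6d4024008a0000000302000500000000c0800f000801e8002053e00081a0683)))) 
(.nd (nat_lit 5) 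
(.lf (nat_lit 10280990) (dlOf (nat_lit 6) (nat_lit 0x7f3bc8008c8080311de400462040424ef20022f0200a67790011681004d3bc8007ac0800800080014002000200085c0903))) 
(.lf (nat_lit 10281022) (dlOf (nat_lit 5) (nat_lit 0x188e1002e00000012410004238400300000004804001600000023010011470800c00000008a0800cc002003200085c0d82))))) 
(.nd (nat_lit 5) (.nd (nat_lit 22) 
(.lf (nat_lit 59564062) (dlOf (nat_lit 2) (nat_lit 0x280b0006c819810600))) 
(.lf (nat_lit 21815326) (dlOf (nat_lit 1) (nat_lit 0x20028a70481)))) (.nd (nat_lit 7) 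
(.lf (nat_lit 21815358) (dlOf (nat_lit 4) (nat_lit 0x142645806ab0e00004104009ee140000d81002c70a000068080018008004400200180008a70703))) 
(.lf (nat_lit 60613822) (dlOf (nat_lit 1) (nat_lit 0x12000800cc002001600098c2c83)))))) 
(.nd (nat_lit 7) (.nd (nat_lit 8) (.nd (nat_lit 5) (.nd (nat_lit 9) 
(.lf (nat_lit 24961054) (dlOf (nat_lit 1) (nat_lit 0x2300080004002004a0008bd0b03))) 
(.lf (nat_lit 8191518) (dlOf (nat_lit 1) (nat_lit 0x40020002000851cf02)))) 
(.lf (nat_lit 11329598) (dlOf (nat_lit 19) (nat_lit 0x127d00001f8100163e80000f4080059f400006c040050fa0000340200267d0000180100063e80000a8080049f4000052040008fa00002302000a7d0000100100063e800007c080061f400003c040014fa00001c02000e7d0000060100053e800002c080021f4000014040028fa0000090200047d00000401000f3e8000000080028008006400200080008690e83)))) 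
(.nd (nat_lit 6) (.lf (nat_lit 54321438) (dlOf (nat_lit 1) (nat_lit 0x10008000400200020009650a83))) 
(.lf (nat_lit 12378462) (dlOf (nat_lit 1) (nat_lit 0x180080004002000200086c0683))))) 
(.nd (nat_lit 6) (.nd (nat_lit 9) 
(.lf (nat_lit 8189086) (dlOf (nat_lit 1) (nat_lit 0x2800200080008519502))) 
(.lf (nat_lit 8188574) (dlOf (nat_lit 1) (nat_lit 0x8008000400200020008518c83)))) (.nd (nat_lit 9) 
(.lf (nat_lit 53273822) (dlOf (nat_lit 1) (nat_lit 0x400400040009572e02))) 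
(.lf (nat_lit 8188638) (dlOf (nat_lit 1) (nat_lit 0xc0018518c81)))))))) (.nd (nat_lit 27) 
(.nd (nat_lit 5) (.nd (nat_lit 30) (.nd (nat_lit 6) (.nd (nat_lit 26) 
(.lf (nat_lit 4563722270) (dlOf (nat_lit 1) (nat_lit 0x200280d0101))) 
(.lf (nat_lit 5167702046) (dlOf (nat_lit 2) (nat_lit 0x100340040404000c004000a0008120a82)))) 
(.nd (nat_lit 32) 
(.lf (nat_lit 268755038) (dlOf (nat_lit 7) (nat_lit 0x4a00540274029019401400a5009c0002a1000a80540052029000a014000050180ce80a8069005203b602801930138000482000a80a80040052002802700008830023015001380a4002c04e0001006000802a00050148001009c0000a0c00e4004004e0018120702))) 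
(.lf (nat_lit 4563722334) (dlOf (nat_lit 2) (nat_lit 0x1c035000f0148003009c000240c0008004000200080d0702))))) 
(.nd (nat_lit 31) (.nd (nat_lit 19) (.nd (nat_lit 20) 
(.lf (nat_lit 1409605662) (dlOf (nat_lit 1) (nat_lit 0x8008000400200020008050683))) 
(.lf (nat_lit 1343545374) (dlOf (nat_lit 1) (nat_lit 0x1780080118002004c0008290503)))) 
(.lf (nat_lit 1346166814) (dlOf (nat_lit 7) (nat_lit 0x17a14300720668000c41000b03340006004031428602460cd0001702001e066800078080d4050c090419a0001704001e1430018066800054100cb0008028400206bc0008e60103)))) 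
(.nd (nat_lit 7) (.nd (nat_lit 19) 
(.lf (nat_lit 4026851358) (dlOf (nat_lit 1) (nat_lit 0x14004004200180a0902))) 
(.lf (nat_lit 3557613598) (dlOf (nat_lit 1) (nat_lit 0x48008001000200020008270503)))) 
(.lf (nat_lit 3489983902) (dlOf (nat_lit 1) (nat_lit 0x130008015c002015c0008006d03)))))) 
(.nd (nat_lit 26) (.nd (nat_lit 20) (.nd (nat_lit 29) 
(.lf (nat_lit 268755006) (dlOf (nat_lit 3) (nat_lit 0xd0148002740800280b000800540002029000e00f800238200010008004c00200100008120483))) 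
(.lf (nat_lit 4026851390) (dlOf (nat_lit 6) (nat_lit 0x2e405c0001c02007402d0000d01003d016801480980001608006805a000c0260000502000d01680060098000120803ac004000c00180a0c82)))) 
(.nd (nat_lit 6) 
(.lf (nat_lit 1346166846) (dlOf (nat_lit 2) (nat_lit 0x148534004c1b2003c0d800123838e60600))) 
(.lf (nat_lit 1345645310) (dlOf (nat_lit 1) (nat_lit 0x800805e000200020008dd5a83))))) 
(.nd (nat_lit 6) (.nd (nat_lit 29) 
(.lf (nat_lit 2483347518) (dlOf (nat_lit 5) (nat_lit 0x2000a80078020001a00e0008b83000d008003c00380009e080138020006600e000270200190078000000800f00080158002006800080c1403))) 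
(.lf (nat_lit 872734782) (dlOf (nat_lit 1) (nat_lit 0x200280b0481)))) 
(.lf (nat_lit 3557093246) (dlOf (nat_lit 1) (nat_lit 0x400400020008127782)))))) (.nd (nat_lit 5) 
(.nd (nat_lit 30) (.nd (nat_lit 26) (.nd (nat_lit 6) 
(.lf (nat_lit 4697939998) (dlOf (nat_lit 1) (nat_lit 0x200280d0101))) 
(.lf (nat_lit 4697940062) (dlOf (nat_lit 2) (nat_lit 0x1c035000f0148003009c000240c0008004000200080d0702)))) 
(.nd (nat_lit 20) (.nd (nat_lit 31) 
(.lf (nat_lit 470081566) (dlOf (nat_lit 1) (nat_lit 0xbc00200020008040482))) 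
(.lf (nat_lit 2617565214) (dlOf (nat_lit 1) (nat_lit 0x5000280f0501)))) 
(.lf (nat_lit 471130142) (dlOf (nat_lit 1) (nat_lit 0x800400040008270502))))) (.nd (nat_lit 8) 
(.nd (nat_lit 7) (.nd (nat_lit 26) 
(.lf (nat_lit 1476714526) (dlOf (nat_lit 2) (nat_lit 0x20000002a4080060008002c00200020008150503))) 
(.lf (nat_lit 2080694302) (dlOf (nat_lit 4) (nat_lit 0x134070000460201680390000901001101c8000400800300080058002009000080b0183)))) 
(.lf (nat_lit 1543823518) (dlOf (nat_lit 1) (nat_lit 0x1800200180008184302)))) (.nd (nat_lit 6) 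
(.lf (nat_lit 1543823646) (dlOf (nat_lit 3) (nat_lit 0x6023005238100a7011800000080108008005c00200980008187803))) 
(.lf (nat_lit 4228702558) (dlOf (nat_lit 3) (nat_lit 0x6d4022008a0000000302000500000000c0800f000801e8002053e00081a0683)))))) 
(.nd (nat_lit 6) (.nd (nat_lit 19) (.nd (nat_lit 22) 
(.lf (nat_lit 2080694334) (dlOf (nat_lit 8) (nat_lit 0x2101c8008140800500a400340180007d04003a02900670060001d41001480a401640180007404007a02900760060001cc1000b00a400a00180001f0400040290000d0180b0480))) 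
(.lf (nat_lit 474275902) (dlOf (nat_lit 1) (nat_lit 0x280080008002000a0009100483)))) 
(.nd (nat_lit 20) 
(.lf (nat_lit 4228702270) (dlOf (nat_lit 2) (nat_lit 0x1a8000000000400b8002003800081a0002))) 
(.lf (nat_lit 473751614) (dlOf (nat_lit 1) (nat_lit 0x400400020018fa0002))))) (.nd (nat_lit 7) 
(.nd (nat_lit 9) 
(.lf (nat_lit 471654526) (dlOf (nat_lit 2) (nat_lit 0x7829c000fc0200120008370481))) 
(.lf (nat_lit 6376188542) (dlOf (nat_lit 1) (nat_lit 0x400400020008095482)))) (.nd (nat_lit 8) 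
(.lf (nat_lit 5772207358) (dlOf (nat_lit 1) (nat_lit 0x400400020008092f02))) 
(.lf (nat_lit 6375663102) (dlOf (nat_lit 1) (nat_lit 0x3c00400280018003682))))))))))))

end

end Pool.Agent.Lib.MP_5854e1_co.Cz

namespace Pool.Agent.Lib.MP_5854e1_co.Cz

noncomputable section

noncomputable def tz218 : DT := (.nd (nat_lit 2) (.nd (nat_lit 15) (.nd (nat_lit 18) 
(.nd (nat_lit 6) (.nd (nat_lit 5) (.nd (nat_lit 7) (.nd (nat_lit 19) (.nd (nat_lit 10) 
(.nd (nat_lit 26) (.nd (nat_lit 20) 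
(.lf (nat_lit 16867346) (dlOf (nat_lit 1) (nat_lit 0x800088e0001))) 
(.lf (nat_lit 1343315986) (dlOf (nat_lit 2) (nat_lit 0x9402a000d58181e0480)))) (.nd (nat_lit 8) 
(.lf (nat_lit 6509650450) (dlOf (nat_lit 2) (nat_lit 0x8800000000040024002001800080b0d82))) 
(.lf (nat_lit 3959513362) (dlOf (nat_lit 1) (nat_lit 0x10008001400200040008090483))))) 
(.nd (nat_lit 8) (.nd (nat_lit 11) 
(.lf (nat_lit 4362167314) (dlOf (nat_lit 1) (nat_lit 0x720028002881))) (.nd (nat_lit 24) 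
(.lf (nat_lit 474049554) (dlOf (nat_lit 1) (nat_lit 0x800400020019005f82))) 
(.lf (nat_lit 54619154) (dlOf (nat_lit 2) (nat_lit 0x17e4c500412620000b4100028008030800200040009655f83))))) 
(.nd (nat_lit 26) (.lf (nat_lit 1342270738) (dlOf (nat_lit 1) (nat_lit 0x440018006701))) 
(.lf (nat_lit 4227951890) (dlOf (nat_lit 1) (nat_lit 0x560018006701)))))) (.nd (nat_lit 22) 
(.nd (nat_lit 26) (.nd (nat_lit 21) (.nd (nat_lit 29) 
(.lf (nat_lit 134832146) (dlOf (nat_lit 2) (nat_lit 0x4041000a00180c0a00))) 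
(.lf (nat_lit 3892928530) (dlOf (nat_lit 3) (nat_lit 0x4405800e0e02002405700a901b807100640320030015200a000100480339c300048008004800200240008290783)))) 
(.lf (nat_lit 27877394) (dlOf (nat_lit 2) (nat_lit 0x15679002a6050001b020002956e0014a80000a53a800529800029450001021e000a07d80017c5000a80080028002000a0008d40203)))) 
(.nd (nat_lit 27) (.lf (nat_lit 4362690578) (dlOf (nat_lit 1) (nat_lit 0x1400180d0881))) 
(.lf (nat_lit 1007247378) (dlOf (nat_lit 2) (nat_lit 0x601e0002f0182a0200))))) (.nd (nat_lit 24) 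
(.nd (nat_lit 10) (.lf (nat_lit 474570770) (dlOf (nat_lit 1) (nat_lit 0x200191a0081))) 
(.lf (nat_lit 46754834) (dlOf (nat_lit 2) (nat_lit 0x10ca4000016819385f80)))) (.nd (nat_lit 8) 
(.lf (nat_lit 21585938) (dlOf (nat_lit 1) (nat_lit 0xa0008a50281))) 
(.lf (nat_lit 58286354) (dlOf (nat_lit 1) (nat_lit 0xce00097d7401))))))) (.nd (nat_lit 9) 
(.nd (nat_lit 10) (.nd (nat_lit 19) (.nd (nat_lit 8) 
(.lf (nat_lit 4563493010) (dlOf (nat_lit 2) (nat_lit 0x98066000000200f00018090481))) 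
(.lf (nat_lit 1677812114) (dlOf (nat_lit 1) (nat_lit 0xa0008090781)))) (.nd (nat_lit 26) 
(.lf (nat_lit 3491324050) (dlOf (nat_lit 2) (nat_lit 0x15c23400017818090180))) 
(.lf (nat_lit 2753126546) (dlOf (nat_lit 2) (nat_lit 0x15c24c00017818090180))))) (.nd (nat_lit 8) 
(.nd (nat_lit 11) (.lf (nat_lit 4899038354) (dlOf (nat_lit 1) (nat_lit 0x40028052b81))) 
(.lf (nat_lit 97426) (dlOf (nat_lit 1) (nat_lit 0x2a001800c201)))) 
(.lf (nat_lit 43607442) (dlOf (nat_lit 1) (nat_lit 0x18008001c002001a00092a3603))))) 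
(.nd (nat_lit 11) (.nd (nat_lit 10) (.nd (nat_lit 12) 
(.lf (nat_lit 2617336466) (dlOf (nat_lit 1) (nat_lit 0x200080008002000200080a1b03))) 
(.lf (nat_lit 20017810) (dlOf (nat_lit 1) (nat_lit 0x4002000200089d8c82)))) 
(.lf (nat_lit 3623970450) (dlOf (nat_lit 2) (nat_lit 0xc03d000b5818003a80)))) (.nd (nat_lit 8) 
(.lf (nat_lit 1208052370) (dlOf (nat_lit 2) (nat_lit 0x3009c0003e04000800400020008095502))) 
(.lf (nat_lit 97170) (dlOf (nat_lit 1) (nat_lit 0x900080054002001a000800bc83))))))) 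
(.nd (nat_lit 19) (.nd (nat_lit 26) (.nd (nat_lit 21) (.nd (nat_lit 27) (.nd (nat_lit 7) 
(.nd (nat_lit 9) 
(.lf (nat_lit 6442541106) (dlOf (nat_lit 1) (nat_lit 0x2000801b4002000800080a0a03))) 
(.lf (nat_lit 2416009778) (dlOf (nat_lit 1) (nat_lit 0x38008000400200060008018b03)))) 
(.lf (nat_lit 43081906) (dlOf (nat_lit 1) (nat_lit 0x1c00292a0681)))) (.nd (nat_lit 10) 
(.lf (nat_lit 6576758834) (dlOf (nat_lit 1) (nat_lit 0x4002008c00080c0a02))) 
(.lf (nat_lit 134310962) (dlOf (nat_lit 1) (nat_lit 0x200018006081))))) (.nd (nat_lit 7) 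
(.nd (nat_lit 9) (.lf (nat_lit 14770226) (dlOf (nat_lit 2) (nat_lit 0xa43f000e3818770480))) 
(.lf (nat_lit 56715826) (dlOf (nat_lit 2) (nat_lit 0x993980031e04001c00200040009735182)))) 
(.lf (nat_lit 10576050) (dlOf (nat_lit 1) (nat_lit 0x200285f4e01))))) (.nd (nat_lit 10) 
(.nd (nat_lit 9) (.nd (nat_lit 27) 
(.lf (nat_lit 5972779058) (dlOf (nat_lit 1) (nat_lit 0x4002008c00080c0a02))) 
(.lf (nat_lit 5838561330) (dlOf (nat_lit 1) (nat_lit 0x2000801b4002000800080a0a03)))) 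
(.lf (nat_lit 2617336370) (dlOf (nat_lit 1) (nat_lit 0x200180a1481)))) (.nd (nat_lit 7) 
(.nd (nat_lit 11) (.lf (nat_lit 472998962) (dlOf (nat_lit 1) (nat_lit 0xa0018bb2881))) 
(.lf (nat_lit 469859378) (dlOf (nat_lit 1) (nat_lit 0xc002800bf01)))) 
(.lf (nat_lit 3825298610) (dlOf (nat_lit 1) (nat_lit 0x60028146281)))))) (.nd (nat_lit 31) 
(.nd (nat_lit 20) (.nd (nat_lit 8) (.nd (nat_lit 10) 
(.lf (nat_lit 201941042) (dlOf (nat_lit 6) (nat_lit 0x92020004900f0020c06e00c400a0001b04000300b8000d00822a80ec00e806c05d80170001703040c01d814c00d80b9c02e0002d06048003b01000178000ac1008c80080a240020b0400080c0f83))) 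
(.lf (nat_lit 9004082) (dlOf (nat_lit 1) (nat_lit 0x70008002000200100008512883)))) 
(.lf (nat_lit 23683378) (dlOf (nat_lit 1) (nat_lit 0x20008000c00200020008b80503)))) 
(.nd (nat_lit 9) (.lf (nat_lit 10051634) (dlOf (nat_lit 1) (nat_lit 0xc002000400085b0602))) 
(.lf (nat_lit 60385842) (dlOf (nat_lit 1) (nat_lit 0x400200040009845182))))) (.nd (nat_lit 20) 
(.nd (nat_lit 21) (.nd (nat_lit 26) 
(.lf (nat_lit 3892928562) (dlOf (nat_lit 2) (nat_lit 0x4202d000000080030008003000200100008290f03))) 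
(.lf (nat_lit 3960037426) (dlOf (nat_lit 2) (nat_lit 0x1a000000120181a0f80)))) 
(.lf (nat_lit 2754175026) (dlOf (nat_lit 3) (nat_lit 0x740fa8000b8080ea083c06743ea0002d04000200080c0f81)))) 
(.nd (nat_lit 7) (.lf (nat_lit 3493421106) (dlOf (nat_lit 1) (nat_lit 0x1a0018130701))) 
(.lf (nat_lit 2753126834) (dlOf (nat_lit 2) (nat_lit 0x224c00676018090780)))))))) (.nd (nat_lit 27) 
(.nd (nat_lit 5) (.nd (nat_lit 7) (.nd (nat_lit 28) (.nd (nat_lit 9) (.nd (nat_lit 19) 
(.lf (nat_lit 25256018) (dlOf (nat_lit 3) (nat_lit 0x50000000340200fa00000019818bf0d80))) 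
(.lf (nat_lit 3221839954) (dlOf (nat_lit 2) (nat_lit 0x18e0460000b8181a1600)))) 
(.lf (nat_lit 53570130) (dlOf (nat_lit 1) (nat_lit 0x80080004002000200095f5283)))) (.nd (nat_lit 8) 
(.lf (nat_lit 3492372562) (dlOf (nat_lit 2) (nat_lit 0x120f380001c0800900080074002002c00080c1603))) 
(.nd (nat_lit 26) 
(.lf (nat_lit 2416009554) (dlOf (nat_lit 1) (nat_lit 0x8008000400200020008014d83))) 
(.lf (nat_lit 2483118418) (dlOf (nat_lit 3) (nat_lit 0xc05c003a010000500780018038001401200040030002f060002001800114080568008009400200120008014d03)))))) 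
(.nd (nat_lit 10) (.nd (nat_lit 9) (.nd (nat_lit 8) 
(.lf (nat_lit 4362168530) (dlOf (nat_lit 1) (nat_lit 0x580018004a01))) 
(.lf (nat_lit 1610703314) (dlOf (nat_lit 2) (nat_lit 0x1e0550000a818091180)))) (.nd (nat_lit 19) 
(.lf (nat_lit 5637237714) (dlOf (nat_lit 8) (nat_lit 0x4c005402a000a0002c0400100050001581002300a800f80140005408003402a002e0050001482000800a800680140000a08005802a002c0050000102000b0028000000800b0008006c002000a0008055d83))) 
(.lf (nat_lit 20540370) (dlOf (nat_lit 1) (nat_lit 0x20002000a00089d5d82))))) (.nd (nat_lit 21) 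
(.nd (nat_lit 26) 
(.lf (nat_lit 5100365010) (dlOf (nat_lit 2) (nat_lit 0x401c000200d80018064000c02e0004016000200a0001004c00080240003b1000040008052d81))) 
(.lf (nat_lit 4899038418) (dlOf (nat_lit 1) (nat_lit 0x1000400040018052d82)))) (.nd (nat_lit 9) 
(.lf (nat_lit 61433042) (dlOf (nat_lit 1) (nat_lit 0x4004000c0019922d82))) 
(.lf (nat_lit 2754703058) (dlOf (nat_lit 1) (nat_lit 0x4200280f7381))))))) (.nd (nat_lit 8) 
(.nd (nat_lit 9) (.nd (nat_lit 10) (.nd (nat_lit 20) 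
(.lf (nat_lit 18964722) (dlOf (nat_lit 1) (nat_lit 0x400200020008970602))) 
(.lf (nat_lit 40984818) (dlOf (nat_lit 1) (nat_lit 0x800400020009201e82)))) 
(.lf (nat_lit 268526834) (dlOf (nat_lit 1) (nat_lit 0x400400020018052e82)))) (.nd (nat_lit 7) 
(.lf (nat_lit 8480370) (dlOf (nat_lit 1) (nat_lit 0x20018513981))) 
(.lf (nat_lit 93938) (dlOf (nat_lit 1) (nat_lit 0x2c0018007481))))) (.nd (nat_lit 20) 
(.nd (nat_lit 9) (.nd (nat_lit 10) 
(.lf (nat_lit 50424306) (dlOf (nat_lit 2) (nat_lit 0xd2538003e0080018008001c002003000094c4f03))) 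
(.lf (nat_lit 9004530) (dlOf (nat_lit 1) (nat_lit 0x400200020008513602)))) 
(.lf (nat_lit 4831931378) (dlOf (nat_lit 1) (nat_lit 0x400400020008055f02)))) (.nd (nat_lit 7) 
(.nd (nat_lit 26) 
(.lf (nat_lit 3491324274) (dlOf (nat_lit 2) (nat_lit 0x9811a001d140802100080020002003e0008090783))) 
(.lf (nat_lit 2753126770) (dlOf (nat_lit 1) (nat_lit 0x8004002e0008090782)))) (.nd (nat_lit 26) 
(.lf (nat_lit 3491324402) (dlOf (nat_lit 2) (nat_lit 0x90c45a000bd0200020018090d81))) 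
(.lf (nat_lit 2753126898) (dlOf (nat_lit 2) (nat_lit 0x17224c00103018090d80)))))))) 
(.nd (nat_lit 29) (.nd (nat_lit 8) (.nd (nat_lit 10) (.nd (nat_lit 5) (.nd (nat_lit 7) 
(.lf (nat_lit 201941074) (dlOf (nat_lit 6) (nat_lit 0x7007800034020020000000148100010000000a00800480000004e0400b00000002402000600080c1901))) 
(.lf (nat_lit 469854418) (dlOf (nat_lit 1) (nat_lit 0x4a0018004a01)))) 
(.lf (nat_lit 474570994) (dlOf (nat_lit 1) (nat_lit 0x34004002400091a1e82)))) (.nd (nat_lit 5) 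
(.nd (nat_lit 7) (.lf (nat_lit 4496385618) (dlOf (nat_lit 1) (nat_lit 0x220028053881))) 
(.lf (nat_lit 1543597266) (dlOf (nat_lit 4) (nat_lit 0x8040000060200020140000281000100a000000080070008002800200060008146403)))) 
(.lf (nat_lit 5772502258) (dlOf (nat_lit 1) (nat_lit 0x400200020008092e82))))) (.nd (nat_lit 7) 
(.nd (nat_lit 5) (.nd (nat_lit 10) 
(.lf (nat_lit 3691077970) (dlOf (nat_lit 1) (nat_lit 0x1080080054002000a0008010883))) 
(.lf (nat_lit 5773550930) (dlOf (nat_lit 1) (nat_lit 0x4004000200080e3302)))) 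
(.lf (nat_lit 134310258) (dlOf (nat_lit 1) (nat_lit 0x400400020008004e82)))) (.nd (nat_lit 5) 
(.nd (nat_lit 10) (.lf (nat_lit 402743762) (dlOf (nat_lit 1) (nat_lit 0x20018091181))) 
(.lf (nat_lit 1543597522) (dlOf (nat_lit 1) (nat_lit 0x69000803a000200a00008146d03)))) 
(.lf (nat_lit 4697711090) (dlOf (nat_lit 2) (nat_lit 0x500480005e04001400200260008091402)))))) 
(.nd (nat_lit 26) (.nd (nat_lit 9) (.nd (nat_lit 10) (.nd (nat_lit 31) 
(.lf (nat_lit 939616466) (dlOf (nat_lit 1) (nat_lit 0x400400020008144a02))) 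
(.lf (nat_lit 3087100114) (dlOf (nat_lit 1) (nat_lit 0x400400020008144a02)))) 
(.lf (nat_lit 6308324562) (dlOf (nat_lit 1) (nat_lit 0x10008000800200020008052d83)))) 
(.nd (nat_lit 5) 
(.lf (nat_lit 671180626) (dlOf (nat_lit 2) (nat_lit 0x80a00004604000800400100008143f02))) 
(.nd (nat_lit 31) 
(.lf (nat_lit 939615986) (dlOf (nat_lit 1) (nat_lit 0x8008001400200080008143b83))) 
(.lf (nat_lit 3087099634) (dlOf (nat_lit 1) (nat_lit 0x8008000400200020008143b83)))))) 
(.nd (nat_lit 5) (.nd (nat_lit 7) (.nd (nat_lit 9) 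
(.lf (nat_lit 3960037458) (dlOf (nat_lit 7) (nat_lit 0x1dc09801c60450022021000780cc05840120002e0a01c0045002202100b18024000580c060c08c01a00430062020003780e0000541000c007000029020096046000138100f90230000900800f0008002c002003600081a1903))) 
(.lf (nat_lit 1008822866) (dlOf (nat_lit 1) (nat_lit 0x400400120018fa5282)))) 
(.lf (nat_lit 2080465362) (dlOf (nat_lit 8) (nat_lit 0x1202800070058000b410007002c00056040050052002e00c00015020008014800a00300005208004c052000e02800100060000181800400a400680180000204001e028001000580000010011000800e000200160008091183)))) 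
(.nd (nat_lit 7) (.nd (nat_lit 11) 
(.lf (nat_lit 2080465266) (dlOf (nat_lit 2) (nat_lit 0x2301c800584080090008004000200180008091003))) 
(.lf (nat_lit 6376483186) (dlOf (nat_lit 1) (nat_lit 0x400400020008094e82)))) 
(.lf (nat_lit 738287858) (dlOf (nat_lit 1) (nat_lit 0x60008090a81))))))))) (.nd (nat_lit 5) 
(.nd (nat_lit 19) (.nd (nat_lit 26) (.nd (nat_lit 20) (.nd (nat_lit 27) (.nd (nat_lit 29) 
(.nd (nat_lit 6) (.nd (nat_lit 21) 
(.lf (nat_lit 3221577746) (dlOf (nat_lit 1) (nat_lit 0x1c0028150501))) 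
(.lf (nat_lit 23420946) (dlOf (nat_lit 1) (nat_lit 0x280018b80001)))) 
(.lf (nat_lit 6442803282) (dlOf (nat_lit 1) (nat_lit 0x80080004002000200081c1003)))) 
(.nd (nat_lit 28) (.lf (nat_lit 5905932306) (dlOf (nat_lit 1) (nat_lit 0x20018160481))) 
(.lf (nat_lit 6174367762) (dlOf (nat_lit 1) (nat_lit 0x1c00400020008120182))))) (.nd (nat_lit 6) 
(.nd (nat_lit 30) (.lf (nat_lit 5234843666) (dlOf (nat_lit 1) (nat_lit 0x400400020008100002))) 
(.lf (nat_lit 6308585490) (dlOf (nat_lit 2) (nat_lit 0x4804200d3f0200120018120a01)))) 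
(.lf (nat_lit 3892666450) (dlOf (nat_lit 2) (nat_lit 0x15a03700016018180780))))) (.nd (nat_lit 10) 
(.nd (nat_lit 6) (.nd (nat_lit 24) 
(.lf (nat_lit 5595154) (dlOf (nat_lit 1) (nat_lit 0x14004000400183a0382))) 
(.lf (nat_lit 22372370) (dlOf (nat_lit 1) (nat_lit 0xc00400040018ad0302)))) 
(.lf (nat_lit 32858194) (dlOf (nat_lit 1) (nat_lit 0x8008000400200020008f30783)))) 
(.nd (nat_lit 11) (.lf (nat_lit 51733522) (dlOf (nat_lit 1) (nat_lit 0x20019512881))) 
(.lf (nat_lit 60124178) (dlOf (nat_lit 1) (nat_lit 0x4000400020009845f82)))))) (.nd (nat_lit 27) 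
(.nd (nat_lit 8) (.nd (nat_lit 30) (.nd (nat_lit 31) 
(.lf (nat_lit 4362428434) (dlOf (nat_lit 5) (nat_lit 0x980cc029f8040514066014b10201b603300a3f0100830198000000801580080014002004c0008070503))) 
(.lf (nat_lit 6509912082) (dlOf (nat_lit 1) (nat_lit 0x20018160481)))) (.nd (nat_lit 28) 
(.lf (nat_lit 3288686610) (dlOf (nat_lit 2) (nat_lit 0x100360009a0180c0a00))) 
(.lf (nat_lit 5704605714) (dlOf (nat_lit 2) (nat_lit 0x48042007ab0200120018120a01))))) 
(.nd (nat_lit 6) (.nd (nat_lit 7) 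
(.lf (nat_lit 4095044370) (dlOf (nat_lit 1) (nat_lit 0x20028055b81))) 
(.lf (nat_lit 4095044498) (dlOf (nat_lit 1) (nat_lit 0x20028055c81)))) 
(.lf (nat_lit 3557122386) (dlOf (nat_lit 1) (nat_lit 0x180080038002001a0008130883))))) 
(.nd (nat_lit 6) (.nd (nat_lit 29) (.nd (nat_lit 20) 
(.lf (nat_lit 2617597970) (dlOf (nat_lit 2) (nat_lit 0x3000000000018100300))) 
(.lf (nat_lit 471162898) (dlOf (nat_lit 3) (nat_lit 0x18888000c3180005f0400220000002f0182a0200)))) 
(.nd (nat_lit 28) (.lf (nat_lit 3959775250) (dlOf (nat_lit 1) (nat_lit 0x1c0028150501))) 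
(.nd (nat_lit 30) 
(.lf (nat_lit 3154468882) (dlOf (nat_lit 2) (nat_lit 0x158144003f00400f000400b000081a0082))) 
(.lf (nat_lit 4228210706) (dlOf (nat_lit 5) (nat_lit 0x980c802cc2040514064016240201b603200af68100830190000000801580080014002004c0008070503)))))) 
(.nd (nat_lit 8) (.nd (nat_lit 28) 
(.lf (nat_lit 4496646226) (dlOf (nat_lit 1) (nat_lit 0x40008100681))) 
(.lf (nat_lit 5838823506) (dlOf (nat_lit 1) (nat_lit 0x8002000200081c1002)))) 
(.lf (nat_lit 2349169490) (dlOf (nat_lit 1) (nat_lit 0x80080038002000e00080fbc83))))))) 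
(.nd (nat_lit 24) (.nd (nat_lit 20) (.nd (nat_lit 7) (.nd (nat_lit 6) 
(.lf (nat_lit 15556626) (dlOf (nat_lit 1) (nat_lit 0xa0018800381))) (.nd (nat_lit 22) 
(.lf (nat_lit 9265234) (dlOf (nat_lit 2) (nat_lit 0x1829c00002b018530680))) 
(.lf (nat_lit 13459538) (dlOf (nat_lit 1) (nat_lit 0x20018721901))))) (.nd (nat_lit 6) 
(.lf (nat_lit 34432146) (dlOf (nat_lit 1) (nat_lit 0x400400020008fb2b82))) (.nd (nat_lit 26) 
(.lf (nat_lit 537747666) (dlOf (nat_lit 1) (nat_lit 0x400400040018155b02))) 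
(.lf (nat_lit 1410162898) (dlOf (nat_lit 1) (nat_lit 0x400400040018155b02)))))) (.nd (nat_lit 6) 
(.nd (nat_lit 21) (.lf (nat_lit 14508050) (dlOf (nat_lit 1) (nat_lit 0x400200020008760302))) 
(.nd (nat_lit 26) 
(.lf (nat_lit 3493683218) (dlOf (nat_lit 2) (nat_lit 0x1803d8000a80800500080078002001200081a0403))) 
(.lf (nat_lit 2755485714) (dlOf (nat_lit 3) (nat_lit 0x3a03c8000a80800281e40005204001c004007000181a0302))))) 
(.nd (nat_lit 7) (.lf (nat_lit 471692626) (dlOf (nat_lit 1) (nat_lit 0x1400183d9901))) 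
(.nd (nat_lit 8) 
(.lf (nat_lit 43869394) (dlOf (nat_lit 2) (nat_lit 0xafdc0006c040004004000200192a2d82))) 
(.lf (nat_lit 8218066) (dlOf (nat_lit 1) (nat_lit 0x20008513601))))))) (.nd (nat_lit 8) 
(.nd (nat_lit 10) (.nd (nat_lit 20) 
(.lf (nat_lit 21848082) (dlOf (nat_lit 1) (nat_lit 0x20028a70481))) (.nd (nat_lit 21) 
(.lf (nat_lit 27090962) (dlOf (nat_lit 2) (nat_lit 0x3636380031604003c00400960008ca0482))) 
(.lf (nat_lit 24993810) (dlOf (nat_lit 1) (nat_lit 0x80080114002003c0008bd0a03))))) 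
(.nd (nat_lit 6) (.lf (nat_lit 60646546) (dlOf (nat_lit 1) (nat_lit 0x10002000c00098c2b82))) 
(.nd (nat_lit 9) (.lf (nat_lit 58549330) (dlOf (nat_lit 1) (nat_lit 0x600297e2881))) 
(.lf (nat_lit 19756626) (dlOf (nat_lit 1) (nat_lit 0x80080004002000200089d9c03)))))) 
(.nd (nat_lit 7) (.nd (nat_lit 6) (.nd (nat_lit 10) 
(.lf (nat_lit 19757842) (dlOf (nat_lit 2) (nat_lit 0x14ea000074080020008000c002000a00089dba83))) 
(.lf (nat_lit 19756818) (dlOf (nat_lit 1) (nat_lit 0x4800289da001)))) 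
(.lf (nat_lit 19755346) (dlOf (nat_lit 1) (nat_lit 0x1000289d8381)))) (.nd (nat_lit 6) 
(.nd (nat_lit 11) (.lf (nat_lit 61695378) (dlOf (nat_lit 1) (nat_lit 0x140019923601))) 
(.lf (nat_lit 19754386) (dlOf (nat_lit 1) (nat_lit 0x400289d6d01)))) 
(.lf (nat_lit 19755986) (dlOf (nat_lit 1) (nat_lit 0x80080008002000200089d9203)))))))) 
(.nd (nat_lit 31) (.nd (nat_lit 21) (.nd (nat_lit 19) (.nd (nat_lit 32) (.nd (nat_lit 28) 
(.nd (nat_lit 8) (.lf (nat_lit 1400882) (dlOf (nat_lit 1) (nat_lit 0x4004000200080c0d02))) 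
(.lf (nat_lit 1610965298) (dlOf (nat_lit 1) (nat_lit 0x400080044002001e00080a5b83)))) 
(.nd (nat_lit 26) (.lf (nat_lit 268787762) (dlOf (nat_lit 1) (nat_lit 0x60028160601))) 
(.lf (nat_lit 1006985266) (dlOf (nat_lit 1) (nat_lit 0x100018120f81))))) (.nd (nat_lit 6) 
(.nd (nat_lit 26) (.lf (nat_lit 5905932338) (dlOf (nat_lit 1) (nat_lit 0x800200080008160602))) 
(.lf (nat_lit 4362428466) (dlOf (nat_lit 3) (nat_lit 0x8c0660001402002a05b000202900008118000220c01a800400040008070982)))) 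
(.nd (nat_lit 8) (.lf (nat_lit 5100626034) (dlOf (nat_lit 1) (nat_lit 0x400200020008100a82))) 
(.lf (nat_lit 4832190834) (dlOf (nat_lit 1) (nat_lit 0x180008105801)))))) (.nd (nat_lit 22) 
(.nd (nat_lit 6) (.nd (nat_lit 9) 
(.lf (nat_lit 27090994) (dlOf (nat_lit 1) (nat_lit 0x18008034800201580008ca0783))) 
(.lf (nat_lit 1925682) (dlOf (nat_lit 1) (nat_lit 0x480008150f01)))) 
(.lf (nat_lit 17653874) (dlOf (nat_lit 1) (nat_lit 0x14004000200088e0482)))) (.nd (nat_lit 9) 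
(.nd (nat_lit 23) (.lf (nat_lit 21848114) (dlOf (nat_lit 1) (nat_lit 0x20028a70601))) 
(.lf (nat_lit 13459506) (dlOf (nat_lit 5) (nat_lit 0x15b0000000d80803f0000000680401400000002e0201a000000016818720f80)))) 
(.lf (nat_lit 38627890) (dlOf (nat_lit 1) (nat_lit 0x10004000a0019135182)))))) (.nd (nat_lit 8) 
(.nd (nat_lit 11) (.nd (nat_lit 6) (.nd (nat_lit 7) 
(.lf (nat_lit 23421490) (dlOf (nat_lit 2) (nat_lit 0x6c8500009818b80f00))) 
(.lf (nat_lit 8217266) (dlOf (nat_lit 1) (nat_lit 0x90002002a0008511d82)))) 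
(.lf (nat_lit 28663922) (dlOf (nat_lit 1) (nat_lit 0x18008000400200020008da0483)))) 
(.nd (nat_lit 20) (.lf (nat_lit 36006450) (dlOf (nat_lit 1) (nat_lit 0x18002000a0009015182))) 
(.lf (nat_lit 45443634) (dlOf (nat_lit 4) (nat_lit 0x2f675000532d8001180800ad9d40010cb60004582000e65b000228080080008006400200280009325183))))) 
(.nd (nat_lit 6) (.nd (nat_lit 9) 
(.lf (nat_lit 28664114) (dlOf (nat_lit 1) (nat_lit 0xe0028da0701))) 
(.lf (nat_lit 8220466) (dlOf (nat_lit 1) (nat_lit 0x2400400020008517482)))) (.nd (nat_lit 9) 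
(.lf (nat_lit 23421426) (dlOf (nat_lit 2) (nat_lit 0x100000029c04003400200060008b80d82))) 
(.nd (nat_lit 19) 
(.lf (nat_lit 31810546) (dlOf (nat_lit 1) (nat_lit 0x108008008800200080008e92883))) 
(.lf (nat_lit 40723442) (dlOf (nat_lit 1) (nat_lit 0x4004000200091f2882)))))))) (.nd (nat_lit 27) 
(.nd (nat_lit 26) (.nd (nat_lit 7) (.nd (nat_lit 19) (.nd (nat_lit 29) 
(.lf (nat_lit 2416271410) (dlOf (nat_lit 1) (nat_lit 0x500080004002000c00080c0f83))) 
(.lf (nat_lit 4026884146) (dlOf (nat_lit 15) (nat_lit 0x480b80007404040c0820eda03f034901c803f80dc41c8066018802f1cad01700ce80b444280501b1202706b501085fe807804800361e98012018900481b400042f28000000362200160331402017009c809c001402400035080cee03f005c0198e5600b8069805a01280280e8c013850980783ccc024000a0110074004809e00042060000000341822d602e011d0138000cc101f300b868c805a175c026007600f0335804820000220320000000170700e001e808380ec681005a10ee02600e300c84350044036c00e0342000000168806fb0168000b0082ae00b83ff805a0044027015a013000e807816e0024012a01100480000000ac408c200b40005404016405a000290224c002d00014010064017000500b40001a081fec05c000000200b400080c0f81))))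 
(.lf (nat_lit 3492634674) (dlOf (nat_lit 17) (nat_lit 0xd883c000a604004441e000520204b220b000278102b410580013008125882c000960405ac4160004002000620b0001c0101b610700150834087037401021b201600d3013500000005a18007c0000002c02003c1f40001101000f0fa0000840800f87d0000400400d83e80001c02018020d01040fa0065070403fc0000001708006e1f4000088100370fa00004008038800806c4002020200080e0683)))) 
(.lf (nat_lit 3490016434) (dlOf (nat_lit 1) (nat_lit 0x400400020008006282)))) (.nd (nat_lit 6) 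
(.nd (nat_lit 8) (.nd (nat_lit 19) 
(.lf (nat_lit 6509912114) (dlOf (nat_lit 1) (nat_lit 0x800200080008160602))) 
(.lf (nat_lit 2754437170) (dlOf (nat_lit 17) (nat_lit 0xd8890000a6040044448000520204b2220000278102b4110000130081258880000960405ac440000400200062200001c0101b61118015088808703b801021c701600dd813500000005a18007c0000002c02003c2090001101000f1048000840800f8824000400400d84120001c02018022201041048065074c03fc0000001708006e2090000881003710480004008038800806c4002020200080e0683)))) 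
(.lf (nat_lit 4095044402) (dlOf (nat_lit 1) (nat_lit 0x20028055c01)))) (.nd (nat_lit 7) 
(.lf (nat_lit 2483382386) (dlOf (nat_lit 1) (nat_lit 0x400180f4781))) 
(.lf (nat_lit 4096091122) (dlOf (nat_lit 1) (nat_lit 0x200280e2881)))))) (.nd (nat_lit 28) 
(.nd (nat_lit 10) (.nd (nat_lit 26) 
(.lf (nat_lit 3892666418) (dlOf (nat_lit 10) (nat_lit 0x2940b0027005702a001b813200d803f803e0420019023500c008780280064012001c7120140037004001b001c8064002c030001c6080148058019902b818380dc0c4806c00b401f024900c813e806004a001402fc009000e289005e01b80440060003860800e806e001c102003e05702f201b807e00640048030026a00a000de85011801b8006f0080010158000c06a0002017000aa03004f00000025008007800800a400200180008180483))) 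
(.lf (nat_lit 3959775282) (dlOf (nat_lit 1) (nat_lit 0x80080044002001a0008150983)))) 
(.lf (nat_lit 2886034482) (dlOf (nat_lit 1) (nat_lit 0x14a0028142881)))) (.nd (nat_lit 29) 
(.nd (nat_lit 6) (.nd (nat_lit 8) 
(.lf (nat_lit 2617598002) (dlOf (nat_lit 1) (nat_lit 0xc00400020008100e02))) 
(.lf (nat_lit 3691340082) (dlOf (nat_lit 3) (nat_lit 0xa00000153c08006807000a8c0400d0002007a0008160702)))) 
(.lf (nat_lit 3691339890) (dlOf (nat_lit 2) (nat_lit 0x3602c001e015800e00a80098052005c01b002600c000a005000980220008008001e002801280080078000001d61800500018160481)))) 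
(.nd (nat_lit 30) 
(.lf (nat_lit 3154468914) (dlOf (nat_lit 4) (nat_lit 0x10e01b808900d80038e0804d006e031c036000e282017401b8006f40803b00080008002005000081a0483))) 
(.lf (nat_lit 4228210738) (dlOf (nat_lit 4) (nat_lit 0x7a80aa024204c011b020000050180928154041c0980288040000098303e301900004408013000801e000200080008070983)))))))))) 
(.nd (nat_lit 5) (.nd (nat_lit 6) (.nd (nat_lit 18) (.nd (nat_lit 27) (.nd (nat_lit 21) 
(.nd (nat_lit 30) (.nd (nat_lit 19) (.nd (nat_lit 10) (.nd (nat_lit 22) 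
(.lf (nat_lit 25288722) (dlOf (nat_lit 3) (nat_lit 0x55645402c30de01a4104013991500a2c378068fc1001f0008002800200260008bf0883))) 
(.lf (nat_lit 21094418) (dlOf (nat_lit 1) (nat_lit 0xc0028a10481)))) 
(.lf (nat_lit 6442574866) (dlOf (nat_lit 1) (nat_lit 0x100080010002000e00080f2883)))) 
(.nd (nat_lit 22) 
(.lf (nat_lit 59367442) (dlOf (nat_lit 4) (nat_lit 0x149a80002e02000a67d0007333000296500003c0c0004cf6001049b0000a0297f0400))) 
(.lf (nat_lit 21618706) (dlOf (nat_lit 1) (nat_lit 0x2000200020008a50282))))) (.nd (nat_lit 8) 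
(.nd (nat_lit 7) (.lf (nat_lit 1342824466) (dlOf (nat_lit 1) (nat_lit 0x4004000200080e0582))) 
(.lf (nat_lit 3221355666) (dlOf (nat_lit 1) (nat_lit 0x1e001811c201)))) (.nd (nat_lit 9) 
(.lf (nat_lit 3825330578) (dlOf (nat_lit 1) (nat_lit 0x300028144e81))) (.nd (nat_lit 10) 
(.lf (nat_lit 3221355410) (dlOf (nat_lit 1) (nat_lit 0x44001811bc81))) 
(.lf (nat_lit 1677846418) (dlOf (nat_lit 1) (nat_lit 0x20028114201))))))) (.nd (nat_lit 10) 
(.nd (nat_lit 19) (.nd (nat_lit 7) (.nd (nat_lit 20) 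
(.lf (nat_lit 10608658) (dlOf (nat_lit 1) (nat_lit 0x20008600101))) 
(.lf (nat_lit 15851538) (dlOf (nat_lit 1) (nat_lit 0x320028840381)))) 
(.lf (nat_lit 11657362) (dlOf (nat_lit 1) (nat_lit 0x200286c0181)))) (.nd (nat_lit 23) 
(.lf (nat_lit 1344921618) (dlOf (nat_lit 3) (nat_lit 0x305e800100a40006208002417a000300200240018990401))) 
(.lf (nat_lit 27910162) (dlOf (nat_lit 23) (nat_lit 0x366a88023b53c000be080011a9e0005e0200c8d51004f6a78001741002fb548000b20400bdaa40005802008cd520002b81001a6a900015408050b5480159a8000054040044d52000290100246a90001440800ab548000980401b1aa40006d40000258200246a90001080800cb5480007e040015aa20003302000ed51000190100056a88000c40800cb54400060040005aa20000802000cd51000038100036a88000140800335440000804000400400240018d40202))))) 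
(.nd (nat_lit 7) (.nd (nat_lit 8) 
(.lf (nat_lit 7988754) (dlOf (nat_lit 1) (nat_lit 0x1b60028513701))) 
(.lf (nat_lit 7992594) (dlOf (nat_lit 2) (nat_lit 0x855b0003c818519680)))) (.nd (nat_lit 8) 
(.lf (nat_lit 3492931218) (dlOf (nat_lit 1) (nat_lit 0x4002000200080f3a82))) 
(.lf (nat_lit 1345447314) (dlOf (nat_lit 2) (nat_lit 0x2e0b28006cc080128008007c00200220008bb3603))))))) 
(.nd (nat_lit 31) (.nd (nat_lit 19) (.nd (nat_lit 7) (.nd (nat_lit 10) 
(.lf (nat_lit 4697743378) (dlOf (nat_lit 1) (nat_lit 0x10008003800200100008090003))) 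
(.lf (nat_lit 939648018) (dlOf (nat_lit 1) (nat_lit 0x400400020008142882)))) 
(.lf (nat_lit 474080402) (dlOf (nat_lit 5) (nat_lit 0x10b30002c808004059c00142cc000c016000600a80022420006059c00242cc0008016000500a80022020004859c00102cc0010016000600a800218200018008009800200100009082b83)))) 
(.nd (nat_lit 28) (.nd (nat_lit 26) 
(.lf (nat_lit 134864914) (dlOf (nat_lit 4) (nat_lit 0x2ca041009101e804f00e0001c06601a45080268041003201e801e00e0034860c004407401a3f02004c00280d0881))) 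
(.lf (nat_lit 201973778) (dlOf (nat_lit 4) (nat_lit 0x2ca041009101e804f00e0001c06601daa080268041003201e801e00e003b500c004407401da402004c00280d0881)))) 
(.nd (nat_lit 21) (.lf (nat_lit 470409234) (dlOf (nat_lit 1) (nat_lit 0x4004000200080e0582))) 
(.lf (nat_lit 472506386) (dlOf (nat_lit 2) (nat_lit 0x802f0007416e000310400020018990401)))))) 
(.nd (nat_lit 9) (.nd (nat_lit 19) (.nd (nat_lit 26) 
(.lf (nat_lit 4160872466) (dlOf (nat_lit 3) (nat_lit 0x30028000400800180500001c040128004000a0008040402))) 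
(.lf (nat_lit 3422674962) (dlOf (nat_lit 1) (nat_lit 0x400400020008040402)))) 
(.lf (nat_lit 3154763794) (dlOf (nat_lit 1) (nat_lit 0x20018320781)))) (.nd (nat_lit 7) 
(.lf (nat_lit 3087132434) (dlOf (nat_lit 1) (nat_lit 0x400200020008143c02))) (.nd (nat_lit 8) 
(.lf (nat_lit 2617369234) (dlOf (nat_lit 1) (nat_lit 0x4004000200080a1b02))) 
(.lf (nat_lit 3959547794) (dlOf (nat_lit 1) (nat_lit 0x8008002c00200020008114203)))))))) 
(.nd (nat_lit 29) (.nd (nat_lit 19) (.nd (nat_lit 28) (.nd (nat_lit 22) (.nd (nat_lit 21) 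
(.lf (nat_lit 3288719378) (dlOf (nat_lit 9) (nat_lit 0x4380680222030010f0148069041808100d0040c06001fc02900d1f8300010158068300807000d8038006401a0a04001403600cff8100e901b0067700804d80d8033b404008c06c0000002000200180d0881))) 
(.lf (nat_lit 44425234) (dlOf (nat_lit 1) (nat_lit 0x38008001c00200020009310103)))) 
(.nd (nat_lit 20) 
(.lf (nat_lit 12967954) (dlOf (nat_lit 1) (nat_lit 0x500080024002000800086f0183))) 
(.lf (nat_lit 22405138) (dlOf (nat_lit 1) (nat_lit 0x400200040008ad0302))))) (.nd (nat_lit 26) 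
(.nd (nat_lit 10) 
(.lf (nat_lit 4698005522) (dlOf (nat_lit 11) (nat_lit 0x1e00a8001980802b0078000500400480000001d02043403300c6019008a8078018803a01360120000c850040019805380c802c403c0001806043c03300c0019008b8078030003a01aa01500db0090000583006d80c8041403c021a0120000a0300a30198000280804d80cc00e403c000050402ec03300e1019005b007803c803a01cc01500db009000000301928008070c002037c00080e0183))) 
(.lf (nat_lit 5771750418) (dlOf (nat_lit 3) (nat_lit 0xe075800882fc0006a08011019c010e0ab00016828005f80)))) 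
(.nd (nat_lit 27) 
(.lf (nat_lit 1409671186) (dlOf (nat_lit 13) (nat_lit 0x3281480180066014f50400b6052005f0198053d01002b81480168066014f3040002032009ca810035028801700c8026fe08000c0640137a0200540320099181000f019004c64080208144010c064012f70401dc031001c501000102f800958080ba812c04ec060000000400560028070501))) 
(.lf (nat_lit 2617630738) (dlOf (nat_lit 2) (nat_lit 0x980bc0000004002c00400020008110182)))))) 
(.nd (nat_lit 7) (.nd (nat_lit 8) 
(.lf (nat_lit 28172306) (dlOf (nat_lit 1) (nat_lit 0x28008000800200020008d60203))) 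
(.lf (nat_lit 20832530) (dlOf (nat_lit 1) (nat_lit 0xe00289e4a01)))) (.nd (nat_lit 8) 
(.lf (nat_lit 60679314) (dlOf (nat_lit 1) (nat_lit 0x1000298c2b81))) (.nd (nat_lit 20) 
(.lf (nat_lit 51243410) (dlOf (nat_lit 3) (nat_lit 0x23534002e8c08007a9e80167a040024004001c0009514e82))) 
(.lf (nat_lit 46000530) (dlOf (nat_lit 1) (nat_lit 0x20029384e81))))))) (.nd (nat_lit 26) 
(.nd (nat_lit 27) (.nd (nat_lit 28) 
(.lf (nat_lit 537255954) (dlOf (nat_lit 13) (nat_lit 0x32814801800660165c0400b6052005f01980596c1002b814801680660165a040002032009da010035028801700c80273808000c064013690200540320099281000f019004c6c080208144010c064012f70401dc0310018881000102f80090c080ba812c04ec060000000400560028070501))) 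
(.lf (nat_lit 4026916882) (dlOf (nat_lit 9) (nat_lit 0x4380680222030010f0148076981808100d0040c06001fc02900ed20300010158075cc0807000d8038006401d7104001403600eb20100e901b00750c0804d80d803a7e04008c06c0000002000200180d0881)))) 
(.nd (nat_lit 7) (.nd (nat_lit 28) 
(.lf (nat_lit 3892699154) (dlOf (nat_lit 1) (nat_lit 0x50004000200181d0482))) 
(.lf (nat_lit 5234876434) (dlOf (nat_lit 3) (nat_lit 0x4034000200b003d602000400c001eac080028008004400200040008120a03)))) 
(.lf (nat_lit 1745217938) (dlOf (nat_lit 1) (nat_lit 0xf800280e4e81))))) (.nd (nat_lit 10) 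
(.nd (nat_lit 20) (.lf (nat_lit 1678106642) (dlOf (nat_lit 1) (nat_lit 0x60008190401))) 
(.lf (nat_lit 1008066578) (dlOf (nat_lit 1) (nat_lit 0x400200020008990402)))) (.nd (nat_lit 7) 
(.lf (nat_lit 2751849490) (dlOf (nat_lit 1) (nat_lit 0x20018002881))) 
(.lf (nat_lit 2752374418) (dlOf (nat_lit 1) (nat_lit 0x60028003a81)))))))) (.nd (nat_lit 30) 
(.nd (nat_lit 19) (.nd (nat_lit 8) (.nd (nat_lit 7) (.nd (nat_lit 10) (.nd (nat_lit 18) 
(.lf (nat_lit 25288786) (dlOf (nat_lit 5) (nat_lit 0x23c888002e1ac003e37e000340600cd8eb00058fb8000cc10006645400430de0001f0400239150019c37800078100048008005000200160008bf0d83))) 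
(.lf (nat_lit 738582610) (dlOf (nat_lit 3) (nat_lit 0x53029800600d401380420000e060106053007c0108000281001e80080080002007a00080b0683)))) 
(.lf (nat_lit 474342482) (dlOf (nat_lit 1) (nat_lit 0x1c0019162881)))) (.nd (nat_lit 10) 
(.lf (nat_lit 536996050) (dlOf (nat_lit 1) (nat_lit 0x400400140008004a02))) 
(.lf (nat_lit 8512722) (dlOf (nat_lit 2) (nat_lit 0xe7c00007604001000400020008512d82))))) 
(.nd (nat_lit 7) (.nd (nat_lit 9) (.nd (nat_lit 20) 
(.lf (nat_lit 604102994) (dlOf (nat_lit 2) (nat_lit 0x901e000080e4001c608004400400020008010882))) 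
(.lf (nat_lit 11657554) (dlOf (nat_lit 1) (nat_lit 0x200286c0681)))) 
(.lf (nat_lit 671213394) (dlOf (nat_lit 2) (nat_lit 0x1b00a00004604000400400020018143f02)))) 
(.nd (nat_lit 11) (.lf (nat_lit 3020022226) (dlOf (nat_lit 1) (nat_lit 0x4c00280e7b01))) 
(.lf (nat_lit 38922706) (dlOf (nat_lit 1) (nat_lit 0x40019194e81)))))) (.nd (nat_lit 9) 
(.nd (nat_lit 18) (.nd (nat_lit 26) 
(.lf (nat_lit 134864978) (dlOf (nat_lit 6) (nat_lit 0xc0008200b603d003701c011780c00060006000290a000c043006d01f8000941003f00e80004604021808600020030001082001101d00006c0802200080050002004600080d0d83))) 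
(.lf (nat_lit 201973842) (dlOf (nat_lit 6) (nat_lit 0xc0008200b603d003701c011780c00060008000290a000c043006d01f8000941003f00e80004604021808600020040001082001101d00006c0802200080050002004600080d0d83)))) 
(.nd (nat_lit 10) (.nd (nat_lit 22) 
(.lf (nat_lit 42852434) (dlOf (nat_lit 1) (nat_lit 0x40009280781))) 
(.lf (nat_lit 13492306) (dlOf (nat_lit 2) (nat_lit 0x7800000019818730d80)))) 
(.lf (nat_lit 472769618) (dlOf (nat_lit 1) (nat_lit 0x20028b02881))))) (.nd (nat_lit 7) 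
(.nd (nat_lit 10) 
(.lf (nat_lit 51243602) (dlOf (nat_lit 1) (nat_lit 0x780080020002006e0009515283))) 
(.lf (nat_lit 8255058) (dlOf (nat_lit 1) (nat_lit 0x20018519c01)))) (.nd (nat_lit 11) 
(.lf (nat_lit 49931218) (dlOf (nat_lit 1) (nat_lit 0x1000294c2881))) 
(.lf (nat_lit 20573138) (dlOf (nat_lit 1) (nat_lit 0x800289d5d81))))))) (.nd (nat_lit 7) 
(.nd (nat_lit 18) (.nd (nat_lit 8) (.nd (nat_lit 27) 
(.lf (nat_lit 1678368850) (dlOf (nat_lit 2) (nat_lit 0x680ac000130200580028201901))) 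
(.lf (nat_lit 3960070226) (dlOf (nat_lit 3) (nat_lit 0x1680240005c0400080700002a02000600181a1901)))) 
(.nd (nat_lit 10) (.nd (nat_lit 11) 
(.lf (nat_lit 3691110738) (dlOf (nat_lit 1) (nat_lit 0x4000200020008010882))) 
(.lf (nat_lit 1677846866) (dlOf (nat_lit 1) (nat_lit 0x20018114e01)))) 
(.lf (nat_lit 1342305618) (dlOf (nat_lit 1) (nat_lit 0x40028009901))))) (.nd (nat_lit 28) 
(.nd (nat_lit 26) 
(.lf (nat_lit 1610997842) (dlOf (nat_lit 3) (nat_lit 0x53029800600d401380420000e060106053007c0108000281001e80080080002007a00080b0683))) 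
(.lf (nat_lit 3288719442) (dlOf (nat_lit 3) (nat_lit 0x350158000d00801a80d8000640404f0004003400180d0d82)))) 
(.nd (nat_lit 21) 
(.lf (nat_lit 4026916946) (dlOf (nat_lit 3) (nat_lit 0x350158000d00801a80d8000640404f0004003400180d0d82))) 
(.lf (nat_lit 1881530450) (dlOf (nat_lit 1) (nat_lit 0x60008000400200080008f40783)))))) 
(.nd (nat_lit 28) (.nd (nat_lit 18) (.nd (nat_lit 8) (.nd (nat_lit 10) 
(.lf (nat_lit 5368832210) (dlOf (nat_lit 1) (nat_lit 0x1d20008031b81))) 
(.lf (nat_lit 1275192530) (dlOf (nat_lit 1) (nat_lit 0xa0018092d81)))) 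
(.lf (nat_lit 1610736082) (dlOf (nat_lit 2) (nat_lit 0x3c0aa001e0370000a828091180)))) 
(.nd (nat_lit 9) 
(.lf (nat_lit 1208344786) (dlOf (nat_lit 2) (nat_lit 0x60188003ac0800200080008002000200080c1b83))) 
(.lf (nat_lit 1745218258) (dlOf (nat_lit 1) (nat_lit 0x2400280e5881))))) (.nd (nat_lit 10) 
(.nd (nat_lit 9) (.lf (nat_lit 1343873234) (dlOf (nat_lit 1) (nat_lit 0x1e0028370501))) 
(.lf (nat_lit 6377564882) (dlOf (nat_lit 1) (nat_lit 0xe00180e5881)))) (.nd (nat_lit 11) 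
(.nd (nat_lit 20) (.lf (nat_lit 6375728338) (dlOf (nat_lit 1) (nat_lit 0x8000400020008002d82))) 
(.lf (nat_lit 5772797138) (dlOf (nat_lit 1) (nat_lit 0x400400040008092d82)))) 
(.lf (nat_lit 1543630034) (dlOf (nat_lit 7) (nat_lit 0x3c0500001a0200080280000b01000300a0000180800080500000a040014028000a0000000202000300a000400000000008004800400080018146402))))))))) 
(.nd (nat_lit 18) (.nd (nat_lit 30) (.nd (nat_lit 6) (.nd (nat_lit 26) (.nd (nat_lit 20) 
(.nd (nat_lit 23) (.nd (nat_lit 9) (.nd (nat_lit 19) 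
(.lf (nat_lit 4697743410) (dlOf (nat_lit 1) (nat_lit 0x18008007400200620008090003))) 
(.lf (nat_lit 134864946) (dlOf (nat_lit 2) (nat_lit 0x3c062001d102000600180d0b81)))) 
(.lf (nat_lit 2147609138) (dlOf (nat_lit 1) (nat_lit 0xa0028095181)))) (.nd (nat_lit 7) 
(.lf (nat_lit 25288754) (dlOf (nat_lit 2) (nat_lit 0x23916001ec380001f81000180080094002002a0008bf0b83))) 
(.lf (nat_lit 8516786) (dlOf (nat_lit 1) (nat_lit 0x400400020008519502))))) (.nd (nat_lit 10) 
(.nd (nat_lit 7) 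
(.lf (nat_lit 11657778) (dlOf (nat_lit 2) (nat_lit 0x60b440001204000c002000400086c0f02))) 
(.lf (nat_lit 11657650) (dlOf (nat_lit 4) (nat_lit 0x160000019da04006800000ce302004e000006710186c0780)))) 
(.nd (nat_lit 19) (.lf (nat_lit 55698482) (dlOf (nat_lit 1) (nat_lit 0xa00196d2881))) 
(.lf (nat_lit 49931314) (dlOf (nat_lit 1) (nat_lit 0x1200294c2881)))))) (.nd (nat_lit 28) 
(.nd (nat_lit 19) (.nd (nat_lit 7) 
(.lf (nat_lit 2348933170) (dlOf (nat_lit 3) (nat_lit 0x4020001330200b601000650070004941000900080004002002c0008030d03))) 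
(.lf (nat_lit 738323378) (dlOf (nat_lit 1) (nat_lit 0x20028095d01)))) (.nd (nat_lit 21) 
(.lf (nat_lit 201973810) (dlOf (nat_lit 2) (nat_lit 0x3c062001d102000600180d0b81))) 
(.lf (nat_lit 2754207794) (dlOf (nat_lit 2) (nat_lit 0x4044000168180c0f80))))) (.nd (nat_lit 31) 
(.nd (nat_lit 10) 
(.lf (nat_lit 5301723186) (dlOf (nat_lit 2) (nat_lit 0x701f800e00f80070074003c037001b0000000ac28027800800d0002002e0008040383))) 
(.lf (nat_lit 473031730) (dlOf (nat_lit 1) (nat_lit 0x2c0018c32881)))) (.nd (nat_lit 8) 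
(.lf (nat_lit 2483150898) (dlOf (nat_lit 3) (nat_lit 0x4020001330200b601000650070004941000900080004002002c0008030d03))) 
(.lf (nat_lit 2617369394) (dlOf (nat_lit 1) (nat_lit 0xa00280a2201))))))) (.nd (nat_lit 7) 
(.nd (nat_lit 11) (.nd (nat_lit 19) 
(.lf (nat_lit 2952913010) (dlOf (nat_lit 2) (nat_lit 0x4025000100e002c341000480080004002000a0008010283))) 
(.nd (nat_lit 20) (.lf (nat_lit 472506482) (dlOf (nat_lit 1) (nat_lit 0x20028991d81))) 
(.lf (nat_lit 28958834) (dlOf (nat_lit 1) (nat_lit 0x400200020008da0482))))) (.nd (nat_lit 8) 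
(.lf (nat_lit 6442575986) (dlOf (nat_lit 1) (nat_lit 0x600180f4781))) (.nd (nat_lit 10) 
(.lf (nat_lit 20048242) (dlOf (nat_lit 1) (nat_lit 0x600189d4e81))) 
(.lf (nat_lit 805436786) (dlOf (nat_lit 1) (nat_lit 0x2c0040032001811c902)))))) (.nd (nat_lit 8) 
(.nd (nat_lit 10) (.lf (nat_lit 671213810) (dlOf (nat_lit 2) (nat_lit 0x560280002a818144b80))) 
(.lf (nat_lit 8512754) (dlOf (nat_lit 1) (nat_lit 0x28008001400200080008512e83)))) 
(.nd (nat_lit 19) (.nd (nat_lit 20) 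
(.lf (nat_lit 50455538) (dlOf (nat_lit 1) (nat_lit 0x4004000200094c2882))) 
(.lf (nat_lit 57795570) (dlOf (nat_lit 1) (nat_lit 0x400400340009792882)))) 
(.lf (nat_lit 38396914) (dlOf (nat_lit 1) (nat_lit 0x20009132881))))))) (.nd (nat_lit 26) 
(.nd (nat_lit 10) (.nd (nat_lit 6) (.nd (nat_lit 7) (.nd (nat_lit 19) 
(.lf (nat_lit 4026654770) (dlOf (nat_lit 1) (nat_lit 0x6c004000a0008020602))) 
(.lf (nat_lit 5772009522) (dlOf (nat_lit 1) (nat_lit 0x40008040381)))) 
(.lf (nat_lit 3355567026) (dlOf (nat_lit 1) (nat_lit 0xa00280a2681)))) (.nd (nat_lit 8) 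
(.nd (nat_lit 27) (.lf (nat_lit 5368832114) (dlOf (nat_lit 1) (nat_lit 0x2400200020008030a82))) 
(.lf (nat_lit 5503049842) (dlOf (nat_lit 1) (nat_lit 0x2400200020008030a82)))) 
(.lf (nat_lit 3355571058) (dlOf (nat_lit 1) (nat_lit 0x9a00280a8f81))))) (.nd (nat_lit 7) 
(.nd (nat_lit 9) (.lf (nat_lit 1611260978) (dlOf (nat_lit 1) (nat_lit 0x400200020008122882))) 
(.lf (nat_lit 1610737202) (dlOf (nat_lit 2) (nat_lit 0x1001c0000e018093780)))) (.nd (nat_lit 6) 
(.nd (nat_lit 8) (.lf (nat_lit 3221355698) (dlOf (nat_lit 1) (nat_lit 0x14001811c201))) 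
(.lf (nat_lit 3221355954) (dlOf (nat_lit 1) (nat_lit 0x2001811cc81)))) 
(.lf (nat_lit 5905704690) (dlOf (nat_lit 1) (nat_lit 0x400400020008143b82)))))) (.nd (nat_lit 6) 
(.nd (nat_lit 19) (.nd (nat_lit 31) 
(.lf (nat_lit 5435940914) (dlOf (nat_lit 2) (nat_lit 0x701f800e00f80070074003c035001b0000000d028027800800d0002002e0008040383))) 
(.lf (nat_lit 3288457266) (dlOf (nat_lit 1) (nat_lit 0x6c004000a0008020602)))) (.nd (nat_lit 27) 
(.lf (nat_lit 1678368818) (dlOf (nat_lit 1) (nat_lit 0x3c00400300008200f82))) (.nd (nat_lit 28) 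
(.lf (nat_lit 3960070194) (dlOf (nat_lit 5) (nat_lit 0x2b8000000270200c80000001301009200000009008046000000044040060002001c00081a0f82))) 
(.lf (nat_lit 6375989298) (dlOf (nat_lit 1) (nat_lit 0x40008040381)))))) (.nd (nat_lit 12) 
(.nd (nat_lit 7) (.nd (nat_lit 8) 
(.lf (nat_lit 5972813938) (dlOf (nat_lit 1) (nat_lit 0x400200020008144782))) 
(.lf (nat_lit 3825330546) (dlOf (nat_lit 1) (nat_lit 0x7e0028144e81)))) 
(.lf (nat_lit 4093766130) (dlOf (nat_lit 1) (nat_lit 0x8004000c0018004f02)))) (.nd (nat_lit 27) 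
(.lf (nat_lit 1677850994) (dlOf (nat_lit 1) (nat_lit 0x80008001c0020010000811ad03))) 
(.lf (nat_lit 3959552370) (dlOf (nat_lit 1) (nat_lit 0x500040002000811ad02)))))))) 
(.nd (nat_lit 20) (.nd (nat_lit 8) (.nd (nat_lit 30) (.nd (nat_lit 9) (.nd (nat_lit 26) 
(.lf (nat_lit 537255986) (dlOf (nat_lit 1) (nat_lit 0x1400080078002002a0008070983))) 
(.nd (nat_lit 27) 
(.lf (nat_lit 6509944882) (dlOf (nat_lit 1) (nat_lit 0x8008000400200020008170d03))) 
(.lf (nat_lit 738582578) (dlOf (nat_lit 2) (nat_lit 0x5a029802c80840048e08002400400c000080b0482))))) 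
(.nd (nat_lit 7) (.lf (nat_lit 36563506) (dlOf (nat_lit 1) (nat_lit 0x400200040009075182))) 
(.lf (nat_lit 8779442) (dlOf (nat_lit 1) (nat_lit 0x4002851a001))))) (.nd (nat_lit 28) 
(.nd (nat_lit 29) 
(.lf (nat_lit 1074126898) (dlOf (nat_lit 3) (nat_lit 0x910148000c80800f00a400060040004004000400080c0f82))) 
(.nd (nat_lit 32) 
(.lf (nat_lit 1610997810) (dlOf (nat_lit 2) (nat_lit 0x5a029802c80840048e08002400400c000080b0482))) 
(.lf (nat_lit 5905965106) (dlOf (nat_lit 1) (nat_lit 0x8008000400200020008170d03))))) 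
(.nd (nat_lit 6) (.nd (nat_lit 7) 
(.lf (nat_lit 3492143154) (dlOf (nat_lit 1) (nat_lit 0xc00180a0a01))) 
(.lf (nat_lit 1476780210) (dlOf (nat_lit 2) (nat_lit 0x5a017000c48181a0480)))) 
(.lf (nat_lit 1476780146) (dlOf (nat_lit 11) (nat_lit 0x8000000f001001400c000c005c005c02c002e0110017008000680380058008002e00200190000007284800f005c0037204006802e000a007000da02000a00b80068408002005c0031e04007c02e0018c020036017000c481001900b8008001c0031008009802e0017802000c00281a0481)))))) 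
(.nd (nat_lit 6) (.nd (nat_lit 9) (.nd (nat_lit 26) 
(.lf (nat_lit 1476780338) (dlOf (nat_lit 2) (nat_lit 0x4e03a002a28181a0700))) (.nd (nat_lit 27) 
(.lf (nat_lit 4362461490) (dlOf (nat_lit 1) (nat_lit 0x8008001800200020008090503))) 
(.lf (nat_lit 4228243762) (dlOf (nat_lit 1) (nat_lit 0x8008001800200020008090503))))) 
(.nd (nat_lit 27) 
(.lf (nat_lit 2751850290) (dlOf (nat_lit 1) (nat_lit 0x8008000400200020008003d83))) 
(.lf (nat_lit 2886068018) (dlOf (nat_lit 3) (nat_lit 0xec038003c01b001e0000000681800300000001604003c00400540018143d82))))) 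
(.nd (nat_lit 26) (.nd (nat_lit 7) 
(.lf (nat_lit 134603122) (dlOf (nat_lit 1) (nat_lit 0xf0008003800200040008090783))) 
(.lf (nat_lit 134603250) (dlOf (nat_lit 2) (nat_lit 0x1d2042000901f0002f4100098008004800200a40008090d83)))) 
(.nd (nat_lit 27) (.lf (nat_lit 4362461554) (dlOf (nat_lit 1) (nat_lit 0x20018090781))) 
(.lf (nat_lit 4228243826) (dlOf (nat_lit 1) (nat_lit 0x120004003e0008090782))))))) 
(.nd (nat_lit 31) (.nd (nat_lit 24) (.nd (nat_lit 19) (.nd (nat_lit 22) 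
(.lf (nat_lit 9822258) (dlOf (nat_lit 5) (nat_lit 0x5f48a0045a430001a02000fc188008a518003d26e001e935000f47a000f0f30003c7940002c0e004184e00009010030c270000340801b80080078002008c0008580383))) 
(.lf (nat_lit 47570994) (dlOf (nat_lit 1) (nat_lit 0x5c0029400001)))) (.nd (nat_lit 7) 
(.lf (nat_lit 16638002) (dlOf (nat_lit 3) (nat_lit 0xa86ac007834a004e02b007a0000001502001300000008a0404d400200ac00088c0802))) 
(.lf (nat_lit 8253874) (dlOf (nat_lit 1) (nat_lit 0x20018518501))))) (.nd (nat_lit 9) 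
(.nd (nat_lit 7) (.lf (nat_lit 28696690) (dlOf (nat_lit 1) (nat_lit 0x10008000400200020008da0483))) 
(.lf (nat_lit 28696818) (dlOf (nat_lit 1) (nat_lit 0x1c8008000400200340008da0603)))) 
(.nd (nat_lit 6) (.lf (nat_lit 54389298) (dlOf (nat_lit 1) (nat_lit 0x20019655181))) 
(.lf (nat_lit 20312690) (dlOf (nat_lit 1) (nat_lit 0x200289d8981)))))) (.nd (nat_lit 6) 
(.nd (nat_lit 7) (.nd (nat_lit 26) 
(.lf (nat_lit 3493716530) (dlOf (nat_lit 2) (nat_lit 0x501a00024084000a023000500f0000502000580080088002000600081b0f03))) 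
(.lf (nat_lit 2755519026) (dlOf (nat_lit 2) (nat_lit 0x501a00024084000a023000500f00004c2000580080088002000600081b0f03)))) 
(.nd (nat_lit 8) (.lf (nat_lit 2753421490) (dlOf (nat_lit 1) (nat_lit 0x180028090301))) 
(.lf (nat_lit 3493716402) (dlOf (nat_lit 2) (nat_lit 0x401c00ddc0181b0780))))) (.nd (nat_lit 7) 
(.lf (nat_lit 2755518834) (dlOf (nat_lit 2) (nat_lit 0xe0390046d0181b0780))) (.nd (nat_lit 26) 
(.lf (nat_lit 3493716466) (dlOf (nat_lit 1) (nat_lit 0x180080014002000a00081b0d83))) 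
(.lf (nat_lit 2755518962) (dlOf (nat_lit 4) (nat_lit 0x403c000da0204040000005e81000201f80008070000fc080050002000600081b0d82))))))))))) 
(.nd (nat_lit 6) (.nd (nat_lit 15) (.nd (nat_lit 18) (.nd (nat_lit 26) (.nd (nat_lit 19) 
(.nd (nat_lit 28) (.nd (nat_lit 8) (.nd (nat_lit 7) (.nd (nat_lit 24) (.nd (nat_lit 25) 
(.lf (nat_lit 9527318) (dlOf (nat_lit 1) (nat_lit 0x200018560481))) 
(.lf (nat_lit 43081750) (dlOf (nat_lit 2) (nat_lit 0xf5fe006740192a0000)))) (.nd (nat_lit 5) 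
(.lf (nat_lit 16867350) (dlOf (nat_lit 1) (nat_lit 0x80080004002000200088e0003))) 
(.lf (nat_lit 32597046) (dlOf (nat_lit 1) (nat_lit 0x400200040008ef2882))))) (.nd (nat_lit 9) 
(.lf (nat_lit 92310) (dlOf (nat_lit 1) (nat_lit 0x400200020008004802))) (.nd (nat_lit 11) 
(.lf (nat_lit 20017814) (dlOf (nat_lit 1) (nat_lit 0x80080004002000200089d8c83))) 
(.lf (nat_lit 20019862) (dlOf (nat_lit 1) (nat_lit 0x50004000200189db682)))))) (.nd (nat_lit 11) 
(.nd (nat_lit 10) (.nd (nat_lit 29) 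
(.lf (nat_lit 3221315862) (dlOf (nat_lit 1) (nat_lit 0x10008001400200040008090483))) 
(.lf (nat_lit 5905670422) (dlOf (nat_lit 3) (nat_lit 0x4004400100000023604001401100070000008941000a00080278002000600080b0483)))) 
(.nd (nat_lit 5) 
(.lf (nat_lit 671180566) (dlOf (nat_lit 1) (nat_lit 0x480080070002003a0008143c83))) 
(.lf (nat_lit 8484150) (dlOf (nat_lit 1) (nat_lit 0x400200020008519902))))) (.nd (nat_lit 5) 
(.nd (nat_lit 7) (.lf (nat_lit 97558) (dlOf (nat_lit 1) (nat_lit 0x40040002000800c602))) 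
(.lf (nat_lit 93590) (dlOf (nat_lit 1) (nat_lit 0x280008006d01)))) 
(.lf (nat_lit 97590) (dlOf (nat_lit 1) (nat_lit 0x2c001800c801)))))) (.nd (nat_lit 7) 
(.nd (nat_lit 5) (.nd (nat_lit 20) (.nd (nat_lit 29) 
(.lf (nat_lit 4563492886) (dlOf (nat_lit 5) (nat_lit 0xa01f001000a80008048030bc0c001c03e0010015001000900617418008005400080240185b04001e01500020090061641000080080564002007e0008090003))) 
(.lf (nat_lit 1879138326) (dlOf (nat_lit 1) (nat_lit 0x2ca0008020481)))) 
(.lf (nat_lit 3490799638) (dlOf (nat_lit 2) (nat_lit 0x210ac0006bc08002800800e000200460008020483)))) 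
(.nd (nat_lit 10) (.lf (nat_lit 2416009782) (dlOf (nat_lit 1) (nat_lit 0x20018018b01))) 
(.lf (nat_lit 4697712182) (dlOf (nat_lit 1) (nat_lit 0x34002005a0008093782))))) (.nd (nat_lit 30) 
(.nd (nat_lit 5) (.lf (nat_lit 4697711766) (dlOf (nat_lit 2) (nat_lit 0x803300126018092b80))) 
(.lf (nat_lit 4563495862) (dlOf (nat_lit 2) (nat_lit 0xc022000000200180028095d01)))) 
(.nd (nat_lit 29) 
(.lf (nat_lit 1476485270) (dlOf (nat_lit 1) (nat_lit 0xb0008001c00200160008010283))) 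
(.lf (nat_lit 2013356182) (dlOf (nat_lit 1) (nat_lit 0x10008000400200040008012a83))))))) 
(.nd (nat_lit 20) (.nd (nat_lit 22) (.nd (nat_lit 27) (.nd (nat_lit 5) 
(.lf (nat_lit 621078) (dlOf (nat_lit 1) (nat_lit 0x12001800b281))) 
(.lf (nat_lit 615478) (dlOf (nat_lit 1) (nat_lit 0x100018002881)))) (.nd (nat_lit 30) 
(.lf (nat_lit 2819186710) (dlOf (nat_lit 1) (nat_lit 0x8008014c002000200081e0483))) 
(.lf (nat_lit 3892928534) (dlOf (nat_lit 2) (nat_lit 0xae00000000018290880))))) (.nd (nat_lit 24) 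
(.nd (nat_lit 5) (.lf (nat_lit 48848918) (dlOf (nat_lit 1) (nat_lit 0x20019440081))) 
(.lf (nat_lit 1346987062) (dlOf (nat_lit 1) (nat_lit 0x20019162881)))) (.nd (nat_lit 25) 
(.lf (nat_lit 21585942) (dlOf (nat_lit 1) (nat_lit 0x18008000800200040008a50303))) 
(.lf (nat_lit 55140374) (dlOf (nat_lit 1) (nat_lit 0x4004000200096c0102)))))) (.nd (nat_lit 5) 
(.nd (nat_lit 7) (.nd (nat_lit 8) 
(.lf (nat_lit 56189974) (dlOf (nat_lit 1) (nat_lit 0x8008000400200020009732883))) 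
(.lf (nat_lit 1343840534) (dlOf (nat_lit 1) (nat_lit 0x920018370701)))) 
(.lf (nat_lit 39414166) (dlOf (nat_lit 1) (nat_lit 0x20009194e81)))) (.nd (nat_lit 21) 
(.nd (nat_lit 9) (.lf (nat_lit 10051638) (dlOf (nat_lit 1) (nat_lit 0x1a8002005600085b0682))) 
(.lf (nat_lit 3491324470) (dlOf (nat_lit 2) (nat_lit 0x61119000000080090008008800200280008090f83)))) 
(.nd (nat_lit 7) (.nd (nat_lit 8) 
(.lf (nat_lit 3760182) (dlOf (nat_lit 3) (nat_lit 0x44a220003b0200584b20001b018220b00))) 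
(.lf (nat_lit 58286390) (dlOf (nat_lit 1) (nat_lit 0x680080010002004400097d7b03)))) 
(.lf (nat_lit 28926134) (dlOf (nat_lit 1) (nat_lit 0x20028da0481)))))))) (.nd (nat_lit 30) 
(.nd (nat_lit 27) (.nd (nat_lit 20) (.nd (nat_lit 28) (.nd (nat_lit 10) 
(.lf (nat_lit 4362690582) (dlOf (nat_lit 14) (nat_lit 0x700cc02e2804008805a015ea02004402d00af48100160238057880801100b402bc204008008e015d602004402d00aea81000b023801100b402ba608008805a015d202003004700220168057441000580b402a9404002408e012dd02007804700430168000001002380080104002000a00080d0903))) 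
(.lf (nat_lit 2751554582) (dlOf (nat_lit 1) (nat_lit 0x400200020008002882)))) (.nd (nat_lit 5) 
(.lf (nat_lit 5167475350) (dlOf (nat_lit 1) (nat_lit 0x400400020008055502))) 
(.lf (nat_lit 2483118390) (dlOf (nat_lit 3) (nat_lit 0xe02c0003000002a8c1000080a00004030002a01000060070002000c009841401c800400060008014c02))))) 
(.nd (nat_lit 5) (.nd (nat_lit 7) 
(.lf (nat_lit 2752602134) (dlOf (nat_lit 2) (nat_lit 0x210ae80048c08002800800e000200460008020483))) 
(.lf (nat_lit 2754701718) (dlOf (nat_lit 1) (nat_lit 0x200280f4e81)))) 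
(.lf (nat_lit 2753126966) (dlOf (nat_lit 2) (nat_lit 0x61125000000080090008008800200280008090f83))))) 
(.nd (nat_lit 8) (.nd (nat_lit 19) (.nd (nat_lit 21) 
(.lf (nat_lit 1006723094) (dlOf (nat_lit 1) (nat_lit 0x2ca0008020481))) 
(.lf (nat_lit 1008820246) (dlOf (nat_lit 1) (nat_lit 0x50800402540008fa0002)))) 
(.lf (nat_lit 474570774) (dlOf (nat_lit 1) (nat_lit 0x200191a0081)))) (.nd (nat_lit 5) 
(.lf (nat_lit 4496385430) (dlOf (nat_lit 1) (nat_lit 0x8008000400200020008053603))) 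
(.nd (nat_lit 9) 
(.lf (nat_lit 2348900662) (dlOf (nat_lit 3) (nat_lit 0x2028000100c000a8040001801c00080030052b8500070170001800000a1c0801c800400060008014c02))) 
(.lf (nat_lit 201418550) (dlOf (nat_lit 1) (nat_lit 0x300018003e01))))))) (.nd (nat_lit 28) 
(.nd (nat_lit 7) (.nd (nat_lit 8) 
(.lf (nat_lit 5972779030) (dlOf (nat_lit 1) (nat_lit 0x14004000600080c0882))) (.nd (nat_lit 27) 
(.lf (nat_lit 1677811990) (dlOf (nat_lit 4) (nat_lit 0x14038001a013000780000048c0c000804c0024402003004f003001300000010005000801a000200140008090483))) 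
(.lf (nat_lit 3959513366) (dlOf (nat_lit 2) (nat_lit 0x2014c001406e000c024000f010000800000038814019800200460008090482))))) 
(.nd (nat_lit 5) (.nd (nat_lit 27) 
(.lf (nat_lit 3825298582) (dlOf (nat_lit 1) (nat_lit 0x60018146201))) 
(.lf (nat_lit 1812032662) (dlOf (nat_lit 1) (nat_lit 0x158008004000200100008146203)))) 
(.lf (nat_lit 3825298614) (dlOf (nat_lit 1) (nat_lit 0x60028146281))))) (.nd (nat_lit 5) 
(.nd (nat_lit 7) (.nd (nat_lit 9) 
(.lf (nat_lit 4228472854) (dlOf (nat_lit 14) (nat_lit 0x1100b002e920400880580174702002c04000ba0010022016005cfc08010010002e68040088058017330200160400022016005cc41001100b002e60040060080004402c00b9782000b016005af00800700c802b5a040024080012c902007804000430160000001002380080104002000a00080d0903))) 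
(.lf (nat_lit 6241216022) (dlOf (nat_lit 1) (nat_lit 0x20018053701)))) 
(.lf (nat_lit 3691077782) (dlOf (nat_lit 1) (nat_lit 0x17c00400280018010282)))) (.nd (nat_lit 20) 
(.nd (nat_lit 21) (.lf (nat_lit 4228472886) (dlOf (nat_lit 1) (nat_lit 0x10002000200080d1382))) 
(.lf (nat_lit 4096352310) (dlOf (nat_lit 1) (nat_lit 0x28008001000200040008100483)))) 
(.lf (nat_lit 4095303734) (dlOf (nat_lit 2) (nat_lit 0x1010e001c60200040008090481)))))))) 
(.nd (nat_lit 5) (.nd (nat_lit 28) (.nd (nat_lit 19) (.nd (nat_lit 8) (.nd (nat_lit 26) 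
(.nd (nat_lit 20) (.nd (nat_lit 27) 
(.lf (nat_lit 5905932310) (dlOf (nat_lit 2) (nat_lit 0x15004a000000200020028160481))) 
(.lf (nat_lit 3892666390) (dlOf (nat_lit 1) (nat_lit 0x100008180081)))) (.nd (nat_lit 21) 
(.lf (nat_lit 18178070) (dlOf (nat_lit 1) (nat_lit 0x400200020008910a82))) 
(.lf (nat_lit 24469526) (dlOf (nat_lit 1) (nat_lit 0x8008000400200020008ba0583))))) 
(.nd (nat_lit 29) (.nd (nat_lit 30) 
(.lf (nat_lit 6509912086) (dlOf (nat_lit 2) (nat_lit 0x15004c000000200020028160481))) 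
(.lf (nat_lit 3288686614) (dlOf (nat_lit 1) (nat_lit 0x600080c0a81)))) 
(.lf (nat_lit 604332054) (dlOf (nat_lit 1) (nat_lit 0xd80080058002000c0008170403))))) 
(.nd (nat_lit 21) (.nd (nat_lit 11) 
(.lf (nat_lit 4832190870) (dlOf (nat_lit 1) (nat_lit 0xc400200280008106482))) 
(.lf (nat_lit 42297750) (dlOf (nat_lit 1) (nat_lit 0x400400020009244e82)))) (.nd (nat_lit 7) 
(.lf (nat_lit 20281622) (dlOf (nat_lit 1) (nat_lit 0x38008005c002001e00089dab03))) 
(.lf (nat_lit 31811990) (dlOf (nat_lit 1) (nat_lit 0x400400020008e94e82)))))) (.nd (nat_lit 20) 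
(.nd (nat_lit 21) (.nd (nat_lit 22) 
(.lf (nat_lit 2819448854) (dlOf (nat_lit 2) (nat_lit 0x406c001900200080028290401))) 
(.lf (nat_lit 30236694) (dlOf (nat_lit 1) (nat_lit 0xe000400120008e30002)))) 
(.lf (nat_lit 11362326) (dlOf (nat_lit 1) (nat_lit 0x20028690301)))) (.nd (nat_lit 7) 
(.nd (nat_lit 8) 
(.lf (nat_lit 27090966) (dlOf (nat_lit 2) (nat_lit 0x1eb6380035604005c00400580008ca0482))) 
(.lf (nat_lit 8218390) (dlOf (nat_lit 1) (nat_lit 0x1e0018513c81)))) 
(.lf (nat_lit 8222358) (dlOf (nat_lit 1) (nat_lit 0x380080020002000c0008519f03)))))) 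
(.nd (nat_lit 27) (.nd (nat_lit 7) (.nd (nat_lit 19) 
(.lf (nat_lit 4026884118) (dlOf (nat_lit 1) (nat_lit 0x600080c0a81))) (.nd (nat_lit 20) 
(.lf (nat_lit 3557646358) (dlOf (nat_lit 2) (nat_lit 0x4070001980200080028290401))) 
(.lf (nat_lit 1346199574) (dlOf (nat_lit 1) (nat_lit 0x20028e60081))))) (.nd (nat_lit 8) 
(.nd (nat_lit 10) (.lf (nat_lit 3557122198) (dlOf (nat_lit 1) (nat_lit 0x5000200060008130282))) 
(.lf (nat_lit 3490016406) (dlOf (nat_lit 1) (nat_lit 0x400200020008006202)))) (.nd (nat_lit 11) 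
(.lf (nat_lit 5637497238) (dlOf (nat_lit 1) (nat_lit 0x18000800e8002004a00080f6483))) 
(.lf (nat_lit 4095043990) (dlOf (nat_lit 1) (nat_lit 0x400400020008054e82)))))) (.nd (nat_lit 8) 
(.nd (nat_lit 30) (.nd (nat_lit 20) 
(.lf (nat_lit 2617597974) (dlOf (nat_lit 2) (nat_lit 0x8000003e404002000400160008100482))) 
(.lf (nat_lit 471162902) (dlOf (nat_lit 1) (nat_lit 0x400282a0401)))) (.nd (nat_lit 26) 
(.lf (nat_lit 1476747286) (dlOf (nat_lit 1) (nat_lit 0xd80080058002000c0008170403))) 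
(.lf (nat_lit 5838823446) (dlOf (nat_lit 1) (nat_lit 0x2400181c0881))))) (.nd (nat_lit 7) 
(.lf (nat_lit 1007515926) (dlOf (nat_lit 1) (nat_lit 0x3000183dab01))) 
(.lf (nat_lit 472738198) (dlOf (nat_lit 1) (nat_lit 0xc00200020008aa4e82))))))) (.nd (nat_lit 29) 
(.nd (nat_lit 19) (.nd (nat_lit 26) (.nd (nat_lit 7) (.nd (nat_lit 20) 
(.lf (nat_lit 268787766) (dlOf (nat_lit 1) (nat_lit 0x40018160681))) 
(.lf (nat_lit 1400886) (dlOf (nat_lit 2) (nat_lit 0x4c000001bd02000400080c0d01)))) 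
(.lf (nat_lit 21323958) (dlOf (nat_lit 2) (nat_lit 0x2c2c6005c08800071828a31700)))) 
(.nd (nat_lit 8) (.lf (nat_lit 4496646198) (dlOf (nat_lit 1) (nat_lit 0x20028100481))) 
(.nd (nat_lit 10) 
(.lf (nat_lit 2349169462) (dlOf (nat_lit 2) (nat_lit 0x5016000100a8001c050000c018000400800038038001c018000e0030006000002c104800580080024002003600080fbc83))) 
(.lf (nat_lit 2483382070) (dlOf (nat_lit 2) (nat_lit 0x140620003502000200280f3e01)))))) 
(.nd (nat_lit 7) (.nd (nat_lit 8) (.nd (nat_lit 20) 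
(.lf (nat_lit 21848118) (dlOf (nat_lit 1) (nat_lit 0xa0008a70681))) 
(.lf (nat_lit 27090998) (dlOf (nat_lit 1) (nat_lit 0x5400400620008ca0802)))) 
(.lf (nat_lit 8217398) (dlOf (nat_lit 1) (nat_lit 0x20018512281)))) (.nd (nat_lit 10) 
(.lf (nat_lit 1344106678) (dlOf (nat_lit 1) (nat_lit 0xa00183d7e81))) 
(.lf (nat_lit 58549430) (dlOf (nat_lit 7) (nat_lit 0xb9d040007c040070e80000160200387400000a8100173a00000500800fa2dc0080e800001204006274100013a00000001001d00080020002002600097e2c83)))))) 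
(.nd (nat_lit 26) (.nd (nat_lit 7) (.nd (nat_lit 27) 
(.lf (nat_lit 4026884150) (dlOf (nat_lit 2) (nat_lit 0x4406c0001c02000200280c1181))) 
(.lf (nat_lit 3892666422) (dlOf (nat_lit 6) (nat_lit 0x9405f000102b806f80dc02e006c00e801900a100c004500280278012001c510003e037000de81014d02b00a280d404c005602ae017000aa04017a0158005440802300000012804000400400a40018180482)))) 
(.nd (nat_lit 27) (.lf (nat_lit 5100626102) (dlOf (nat_lit 1) (nat_lit 0x4a0008101701))) 
(.lf (nat_lit 2818924726) (dlOf (nat_lit 1) (nat_lit 0x94004022c0008130302))))) (.nd (nat_lit 27) 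
(.nd (nat_lit 10) (.nd (nat_lit 21) 
(.lf (nat_lit 4899299382) (dlOf (nat_lit 1) (nat_lit 0x40008009c00200260008100483))) 
(.lf (nat_lit 2753912886) (dlOf (nat_lit 1) (nat_lit 0x20002001000080a0a82)))) 
(.lf (nat_lit 2752341046) (dlOf (nat_lit 1) (nat_lit 0x400200020008002882)))) (.nd (nat_lit 7) 
(.lf (nat_lit 3154468918) (dlOf (nat_lit 1) (nat_lit 0x28004000c00081a0482))) 
(.lf (nat_lit 2080727222) (dlOf (nat_lit 1) (nat_lit 0x200180c1701))))))))) (.nd (nat_lit 5) 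
(.nd (nat_lit 18) (.nd (nat_lit 19) (.nd (nat_lit 27) (.nd (nat_lit 7) (.nd (nat_lit 26) 
(.nd (nat_lit 22) 
(.lf (nat_lit 2416042006) (dlOf (nat_lit 1) (nat_lit 0x5800800a000200240008020483))) 
(.lf (nat_lit 63037462) (dlOf (nat_lit 3) (nat_lit 0x659500072730007fc10000999c003f0040008004000200199c0082)))) 
(.nd (nat_lit 20) (.lf (nat_lit 5435940886) (dlOf (nat_lit 2) (nat_lit 0x800000c28018040000))) 
(.lf (nat_lit 68280342) (dlOf (nat_lit 1) (nat_lit 0x80080004002000200084f0403))))) 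
(.nd (nat_lit 10) 
(.lf (nat_lit 5905705110) (dlOf (nat_lit 1) (nat_lit 0x8008000800200020008144803))) 
(.nd (nat_lit 20) (.lf (nat_lit 3825331350) (dlOf (nat_lit 1) (nat_lit 0x98002008a0008146202))) 
(.lf (nat_lit 20049046) (dlOf (nat_lit 1) (nat_lit 0x1800289d6201)))))) (.nd (nat_lit 9) 
(.nd (nat_lit 7) (.nd (nat_lit 26) 
(.lf (nat_lit 2550259734) (dlOf (nat_lit 1) (nat_lit 0x5800800a000200240008020483))) 
(.lf (nat_lit 5301723158) (dlOf (nat_lit 1) (nat_lit 0x280080048002001a0008040003)))) 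
(.lf (nat_lit 1543630230) (dlOf (nat_lit 2) (nat_lit 0x560280002a818146d00)))) (.nd (nat_lit 7) 
(.nd (nat_lit 29) (.lf (nat_lit 3355566614) (dlOf (nat_lit 1) (nat_lit 0x70004001200180a1482))) 
(.lf (nat_lit 3892437526) (dlOf (nat_lit 2) (nat_lit 0x200000057818118700)))) 
(.lf (nat_lit 6576795286) (dlOf (nat_lit 1) (nat_lit 0x400200020008147202)))))) (.nd (nat_lit 21) 
(.nd (nat_lit 26) (.nd (nat_lit 22) (.nd (nat_lit 27) 
(.lf (nat_lit 1342824470) (dlOf (nat_lit 10) (nat_lit 0x911780070898004041c00161a3000b484000b11780080898004441c00241a3000b404001011780090898004841c00241a3000b3840009123800708f0004446e0014506000c247000e11e000788dc001038a000a1c100080b980033c3000988bc002044c001e20e000c0d18000602000488bc002044c002420e00120d180005c2000888bc004044c002020e00100d18000582000908bc004444c002020e00100d1800054200168008000c00200c400080e0583))) 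
(.lf (nat_lit 3892961302) (dlOf (nat_lit 3) (nat_lit 0x4051000ff8100010288007e8080010008001c002000400082b0a83)))) 
(.nd (nat_lit 20) (.lf (nat_lit 55173142) (dlOf (nat_lit 1) (nat_lit 0x4002000200096c0102))) 
(.lf (nat_lit 31055894) (dlOf (nat_lit 1) (nat_lit 0x400200020008e60a82))))) (.nd (nat_lit 7) 
(.nd (nat_lit 9) (.lf (nat_lit 3154763798) (dlOf (nat_lit 1) (nat_lit 0x20008320881))) 
(.lf (nat_lit 4094288406) (dlOf (nat_lit 1) (nat_lit 0x20018037e01)))) 
(.lf (nat_lit 738847126) (dlOf (nat_lit 1) (nat_lit 0x80008003c00200040008124e83))))) 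
(.nd (nat_lit 20) (.nd (nat_lit 23) (.nd (nat_lit 24) 
(.lf (nat_lit 1344921622) (dlOf (nat_lit 1) (nat_lit 0x20028990501))) 
(.lf (nat_lit 19521558) (dlOf (nat_lit 2) (nat_lit 0x52b5800392300003c080004004000c00089b0502)))) 
(.nd (nat_lit 22) 
(.lf (nat_lit 27910166) (dlOf (nat_lit 1) (nat_lit 0x90008002400200300008d40403))) 
(.lf (nat_lit 48881686) (dlOf (nat_lit 1) (nat_lit 0x400200040009440082))))) (.nd (nat_lit 7) 
(.nd (nat_lit 26) 
(.lf (nat_lit 3493453846) (dlOf (nat_lit 13) (nat_lit 0x10e3800086ec00043600024c0600021c600010d8000106bc004940c000438e0023502000c21a0006109800304440018202001ff08000221a000210980030444001c20200080f1000ff05000610d0003084c000c2220010101000fe84000710d0006084c0014222000e101000fe04000810d0004084c0018222000c101000fd04000110d0003084c0018222000c101000fc840005109800284440018202001f806000221a000b109800384440018202001f708001221a000a10980040444003ea0c002400400020018140a82))) 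
(.lf (nat_lit 2755256342) (dlOf (nat_lit 13) (nat_lit 0x10ee80008764000438a002340600021d800010e280010710004640c00043b20022002000c22f00061140003042c0018202001ed08000222f00021140003042c001c20200080f1000f6050006117800308a0000c2160010101000f5840007117800608a00014216000e101000f5040008117800408a00018216000c101000f4040001117800308a00018216000c101000f38400051140002842c0018202001e606000222f000b1140003842c0018202001e508001222f000a1140004042c003c60c002400400020018140a82)))) 
(.lf (nat_lit 7992470) (dlOf (nat_lit 2) (nat_lit 0x682ad8013600800c0008015400200040008519503))))))) 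
(.nd (nat_lit 28) (.nd (nat_lit 20) (.nd (nat_lit 30) (.nd (nat_lit 19) (.nd (nat_lit 21) 
(.lf (nat_lit 134602774) (dlOf (nat_lit 2) (nat_lit 0xb021800580fc00f007a00dec0600020018090001))) 
(.lf (nat_lit 44425238) (dlOf (nat_lit 1) (nat_lit 0x400400020009310102)))) 
(.lf (nat_lit 28172310) (dlOf (nat_lit 1) (nat_lit 0x60028d60401)))) (.nd (nat_lit 26) 
(.lf (nat_lit 3221610518) (dlOf (nat_lit 1) (nat_lit 0x20008000c00200060008160503))) 
(.nd (nat_lit 27) (.lf (nat_lit 3288719382) (dlOf (nat_lit 1) (nat_lit 0x64004005600080d0882))) 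
(.lf (nat_lit 3959808022) (dlOf (nat_lit 1) (nat_lit 0x20008000c00200060008160503)))))) 
(.nd (nat_lit 7) (.nd (nat_lit 10) (.nd (nat_lit 19) 
(.lf (nat_lit 16113686) (dlOf (nat_lit 1) (nat_lit 0x400400020008870482))) 
(.lf (nat_lit 45998102) (dlOf (nat_lit 1) (nat_lit 0x80029380001)))) 
(.lf (nat_lit 56484886) (dlOf (nat_lit 1) (nat_lit 0x400200020009732882)))) (.nd (nat_lit 9) 
(.lf (nat_lit 45476246) (dlOf (nat_lit 1) (nat_lit 0x400400020009324e82))) 
(.lf (nat_lit 54389654) (dlOf (nat_lit 1) (nat_lit 0x3800200160009655c82)))))) (.nd (nat_lit 27) 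
(.nd (nat_lit 7) (.nd (nat_lit 30) (.nd (nat_lit 26) 
(.lf (nat_lit 2416304150) (dlOf (nat_lit 2) (nat_lit 0x3000000da70180d0880))) 
(.lf (nat_lit 2483413014) (dlOf (nat_lit 9) (nat_lit 0x1602a0006014001e641000100a80014050007900400100280020d810008014000f580800400a0007a8040020050003cf020010028001e6010008014000f280800180080004002000400081b0003)))) 
(.nd (nat_lit 9) (.lf (nat_lit 4026916886) (dlOf (nat_lit 1) (nat_lit 0x64004005600080d0882))) 
(.lf (nat_lit 1345710614) (dlOf (nat_lit 2) (nat_lit 0x207d800088080008008000c00200140008dd5083))))) 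
(.nd (nat_lit 10) (.lf (nat_lit 3557154966) (dlOf (nat_lit 1) (nat_lit 0x2400200020008130282))) 
(.lf (nat_lit 3490049174) (dlOf (nat_lit 1) (nat_lit 0x1000400180008006202))))) (.nd (nat_lit 8) 
(.nd (nat_lit 29) (.nd (nat_lit 31) 
(.lf (nat_lit 4698005526) (dlOf (nat_lit 2) (nat_lit 0xb00cc00008040008002002200080e0302))) 
(.lf (nat_lit 2550521878) (dlOf (nat_lit 2) (nat_lit 0x3000000bf10180d0880)))) (.nd (nat_lit 26) 
(.lf (nat_lit 5234876438) (dlOf (nat_lit 3) (nat_lit 0x1403400020180007005801eb018003006000f5604000c00400100008120a02))) 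
(.lf (nat_lit 4228243478) (dlOf (nat_lit 1) (nat_lit 0x80080020002000a0008090003))))) 
(.nd (nat_lit 7) (.lf (nat_lit 5772797206) (dlOf (nat_lit 1) (nat_lit 0x20008093081))) 
(.lf (nat_lit 4765116822) (dlOf (nat_lit 1) (nat_lit 0x400400020008124e82)))))))) (.nd (nat_lit 18) 
(.nd (nat_lit 26) (.nd (nat_lit 21) (.nd (nat_lit 22) (.nd (nat_lit 10) (.nd (nat_lit 28) 
(.nd (nat_lit 19) (.lf (nat_lit 26337334) (dlOf (nat_lit 2) (nat_lit 0x7c000000de818c30480))) 
(.lf (nat_lit 134864950) (dlOf (nat_lit 3) (nat_lit 0x15a031000e88100a601880073c0800b000800b4002002800080d0b83)))) 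
(.nd (nat_lit 32) 
(.lf (nat_lit 268558390) (dlOf (nat_lit 2) (nat_lit 0x1c01200090c080160008005400200120008070483))) 
(.lf (nat_lit 4563525686) (dlOf (nat_lit 1) (nat_lit 0x18008007400200620008090003))))) 
(.nd (nat_lit 7) (.lf (nat_lit 6442575670) (dlOf (nat_lit 1) (nat_lit 0x200280f3e01))) 
(.lf (nat_lit 134343862) (dlOf (nat_lit 2) (nat_lit 0x34082000470200060018006281))))) 
(.nd (nat_lit 19) (.nd (nat_lit 24) 
(.lf (nat_lit 12705846) (dlOf (nat_lit 1) (nat_lit 0x580080024002000600086d0a83))) 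
(.lf (nat_lit 29483062) (dlOf (nat_lit 1) (nat_lit 0xe0028e10881)))) 
(.lf (nat_lit 21618742) (dlOf (nat_lit 1) (nat_lit 0x400400020008a51002))))) (.nd (nat_lit 7) 
(.nd (nat_lit 9) (.nd (nat_lit 22) 
(.lf (nat_lit 10608694) (dlOf (nat_lit 1) (nat_lit 0xa0028600681))) 
(.lf (nat_lit 14802998) (dlOf (nat_lit 2) (nat_lit 0x3843f000aa018770480)))) 
(.lf (nat_lit 11657782) (dlOf (nat_lit 2) (nat_lit 0x178b440000004000c002000400086c0f82)))) 
(.nd (nat_lit 9) (.nd (nat_lit 10) 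
(.lf (nat_lit 6414518) (dlOf (nat_lit 1) (nat_lit 0x120008420481))) 
(.lf (nat_lit 32105654) (dlOf (nat_lit 1) (nat_lit 0x400200020008ef2c82)))) (.nd (nat_lit 8) 
(.lf (nat_lit 20051638) (dlOf (nat_lit 1) (nat_lit 0x1400289da001))) 
(.lf (nat_lit 20048822) (dlOf (nat_lit 1) (nat_lit 0x8008004c002001000089d5d03))))))) 
(.nd (nat_lit 30) (.nd (nat_lit 19) (.nd (nat_lit 27) 
(.lf (nat_lit 2483150902) (dlOf (nat_lit 3) (nat_lit 0xa0054004e028000908200120150003d0080110008008c002007c0008030d03))) 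
(.nd (nat_lit 28) 
(.lf (nat_lit 2348933174) (dlOf (nat_lit 3) (nat_lit 0xa0054004e028000908200120150003d0080110008008c002007c0008030d03))) 
(.lf (nat_lit 5301723190) (dlOf (nat_lit 2) (nat_lit 0x400740032037000e6828040480))))) 
(.nd (nat_lit 10) 
(.lf (nat_lit 201973814) (dlOf (nat_lit 3) (nat_lit 0x15a031000e88100a601880073c0800b000800b4002002800080d0b83))) 
(.lf (nat_lit 68805686) (dlOf (nat_lit 1) (nat_lit 0x60008782881))))) (.nd (nat_lit 12) 
(.nd (nat_lit 7) 
(.lf (nat_lit 5435940918) (dlOf (nat_lit 2) (nat_lit 0x400740032035000e6828040480))) 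
(.lf (nat_lit 1812065462) (dlOf (nat_lit 1) (nat_lit 0x8008000400200020008146283)))) 
(.nd (nat_lit 8) 
(.lf (nat_lit 3959552054) (dlOf (nat_lit 1) (nat_lit 0x800800040020002000811a603))) 
(.lf (nat_lit 5838601014) (dlOf (nat_lit 1) (nat_lit 0x9800080fbc81))))))) (.nd (nat_lit 27) 
(.nd (nat_lit 20) (.nd (nat_lit 28) (.nd (nat_lit 26) (.nd (nat_lit 29) 
(.lf (nat_lit 6442836022) (dlOf (nat_lit 1) (nat_lit 0x4004000200081d0b02))) 
(.lf (nat_lit 1610997814) (dlOf (nat_lit 3) (nat_lit 0x7602980398084004920801800a6004a035005f01080091c1801f0008004c002004c00080b0483)))) 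
(.lf (nat_lit 3288719414) (dlOf (nat_lit 2) (nat_lit 0xc040001000b000e68280d0b80)))) 
(.nd (nat_lit 8) (.nd (nat_lit 29) 
(.lf (nat_lit 4563787830) (dlOf (nat_lit 6) (nat_lit 0xf018001480a400a404e003e021000100d800980640054026003601000110038013984800500c000900520050027000300d800500640044026002c0100027287002b0148015809c009a80800880520014027002698200090128000000800a800800b0002000600080e1003))) 
(.lf (nat_lit 4026916918) (dlOf (nat_lit 2) (nat_lit 0xc040001000b000e68280d0b80)))) 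
(.lf (nat_lit 872801590) (dlOf (nat_lit 1) (nat_lit 0x2e00280e3201))))) (.nd (nat_lit 9) 
(.nd (nat_lit 19) (.nd (nat_lit 23) 
(.lf (nat_lit 1433654) (dlOf (nat_lit 1) (nat_lit 0x20002000600080c0d02))) 
(.lf (nat_lit 26599478) (dlOf (nat_lit 2) (nat_lit 0x389d4000aa018c50480)))) (.nd (nat_lit 7) 
(.lf (nat_lit 16638006) (dlOf (nat_lit 2) (nat_lit 0x384d30000e0188c0880))) 
(.lf (nat_lit 8250806) (dlOf (nat_lit 1) (nat_lit 0x400200020008513602))))) (.nd (nat_lit 26) 
(.lf (nat_lit 3493716534) (dlOf (nat_lit 2) (nat_lit 0x5008800028040024004001000181b0f82))) 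
(.lf (nat_lit 2755519030) (dlOf (nat_lit 2) (nat_lit 0x5008800028040024004001000181b0f82)))))) 
(.nd (nat_lit 26) (.nd (nat_lit 7) (.nd (nat_lit 9) 
(.lf (nat_lit 4698005558) (dlOf (nat_lit 6) (nat_lit 0xf018001480a400a404e003e021000100d800980640054026003601000110038029ec4800500c000900520050027000300d800500640044026002c0100053d07002b0148015809c014d20800880520014027005340200090128000000800a800800b0002000600080e1003))) 
(.lf (nat_lit 134603318) (dlOf (nat_lit 2) (nat_lit 0x5f01e800000080040008009800200620008090f83)))) 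
(.nd (nat_lit 8) (.lf (nat_lit 1208344758) (dlOf (nat_lit 1) (nat_lit 0x600280c1701))) 
(.lf (nat_lit 134603190) (dlOf (nat_lit 1) (nat_lit 0x40028090801))))) (.nd (nat_lit 28) 
(.nd (nat_lit 7) (.nd (nat_lit 9) 
(.lf (nat_lit 738582582) (dlOf (nat_lit 3) (nat_lit 0x7602980398084004920801800a6004a035005f01080091c1801f0008004c002004c00080b0483))) 
(.lf (nat_lit 201712182) (dlOf (nat_lit 2) (nat_lit 0x5f01e800000080040008009800200620008090f83)))) 
(.lf (nat_lit 201712054) (dlOf (nat_lit 1) (nat_lit 0x40028090801)))) (.nd (nat_lit 30) 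
(.lf (nat_lit 2617630774) (dlOf (nat_lit 2) (nat_lit 0x14805801b4b0200020018110781))) 
(.lf (nat_lit 5838856246) (dlOf (nat_lit 1) (nat_lit 0x4004000200081d0b02)))))))))) 
(.nd (nat_lit 8) (.nd (nat_lit 30) (.nd (nat_lit 18) (.nd (nat_lit 5) (.nd (nat_lit 15) 
(.nd (nat_lit 19) (.nd (nat_lit 28) (.nd (nat_lit 9) (.nd (nat_lit 24) 
(.lf (nat_lit 6509650006) (dlOf (nat_lit 1) (nat_lit 0x24002000a00080b0002))) 
(.lf (nat_lit 16867414) (dlOf (nat_lit 16) (nat_lit 0x161c6a0086df6003f5c50020a898000280801a1c6a00abdf6004bdc50026689800026080163c6a0086df600007c10068f1a802af7d80001d040119c6a0000d0100c7e3500506fb0025ae28002344c0000c040018e3500005008048f1a801ef7d8010f714000098300d7e3500596fb00002008030b8d40147bec00006020025e3500002408062f1a802837d80129714000028300c4e3500506fb00000408025f8d40051bec000008200c1e350046f1a4027b7d8011f7140025a260000002801b00080004002000800088e0303)))) 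
(.lf (nat_lit 93782) (dlOf (nat_lit 1) (nat_lit 0x8002002a0008007182)))) (.nd (nat_lit 7) 
(.lf (nat_lit 805396566) (dlOf (nat_lit 1) (nat_lit 0x58008002000200040008090003))) 
(.lf (nat_lit 4563493078) (dlOf (nat_lit 5) (nat_lit 0x200d0012802a00140120000303002101a0031005400e402400005060004034005300a802a8048000080c004c06800aa015004900900000c18000800801a800200560008090983))))) 
(.nd (nat_lit 21) 
(.lf (nat_lit 42557526) (dlOf (nat_lit 2) (nat_lit 0x7000000094080060008008400200480009260803))) 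
(.nd (nat_lit 27) (.lf (nat_lit 2754175062) (dlOf (nat_lit 2) (nat_lit 0xa1fa0000b0180c1a00))) 
(.lf (nat_lit 1009344598) (dlOf (nat_lit 1) (nat_lit 0x20029100701)))))) (.nd (nat_lit 7) 
(.nd (nat_lit 9) (.nd (nat_lit 19) 
(.lf (nat_lit 5301723222) (dlOf (nat_lit 5) (nat_lit 0x300000002601001d00000012c0800180fc005807c000a03a000c01b8001002000080fc007407c001403a000301b8000fc200088008010800200320008040603))) 
(.lf (nat_lit 42590294) (dlOf (nat_lit 1) (nat_lit 0x3c00400180009260802)))) 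
(.lf (nat_lit 34204246) (dlOf (nat_lit 1) (nat_lit 0x8008001c002000a0008fb5303)))) 
(.nd (nat_lit 10) (.lf (nat_lit 4563525846) (dlOf (nat_lit 1) (nat_lit 0x60008090981))) 
(.nd (nat_lit 11) (.lf (nat_lit 8512726) (dlOf (nat_lit 1) (nat_lit 0x1c00400020008512d82))) 
(.lf (nat_lit 805436630) (dlOf (nat_lit 1) (nat_lit 0x780080004002000a000811c383))))))) 
(.nd (nat_lit 7) (.nd (nat_lit 9) (.nd (nat_lit 20) 
(.lf (nat_lit 5033255030) (dlOf (nat_lit 1) (nat_lit 0x400400020008011f02))) 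
(.lf (nat_lit 47276150) (dlOf (nat_lit 7) (nat_lit 0x25a300022d04000d5fb000b4830004b4600008c080035a4c001ed04000180400056930002b460002da080002e0c001ed26000368c000ab41000457ec0002c10001ed26000568c0005b410004d7ec0002a100058002000200093c0d82)))) 
(.nd (nat_lit 15) (.lf (nat_lit 20543094) (dlOf (nat_lit 1) (nat_lit 0xc400089d9d01))) 
(.nd (nat_lit 20) (.lf (nat_lit 9041526) (dlOf (nat_lit 1) (nat_lit 0x10008000400200020008519d03))) 
(.lf (nat_lit 7992950) (dlOf (nat_lit 1) (nat_lit 0x18008000c00200060008519d03)))))) 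
(.nd (nat_lit 15) (.nd (nat_lit 19) (.nd (nat_lit 26) 
(.lf (nat_lit 805396726) (dlOf (nat_lit 2) (nat_lit 0x4813c003007000160260014000000918200008008010400200140008090483))) 
(.lf (nat_lit 6509650166) (dlOf (nat_lit 2) (nat_lit 0x13009000780000046c080074004009a00180b0482)))) 
(.lf (nat_lit 48849142) (dlOf (nat_lit 1) (nat_lit 0x8008001000200020009442483)))) 
(.nd (nat_lit 10) (.lf (nat_lit 16900342) (dlOf (nat_lit 1) (nat_lit 0x200188e0601))) 
(.lf (nat_lit 8512758) (dlOf (nat_lit 1) (nat_lit 0x18008001400200080008512e83))))))) 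
(.nd (nat_lit 21) (.nd (nat_lit 15) (.nd (nat_lit 19) (.nd (nat_lit 7) (.nd (nat_lit 26) 
(.lf (nat_lit 2416271446) (dlOf (nat_lit 1) (nat_lit 0x20008001c002000200080c1a03))) 
(.lf (nat_lit 3154468950) (dlOf (nat_lit 3) (nat_lit 0x12801b809980d80005a0807a006e03d4036000158281a0780)))) 
(.lf (nat_lit 2953142486) (dlOf (nat_lit 1) (nat_lit 0x6c00200640008160502)))) (.nd (nat_lit 23) 
(.nd (nat_lit 5) (.lf (nat_lit 51210838) (dlOf (nat_lit 1) (nat_lit 0x1a0009515301))) 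
(.lf (nat_lit 17653878) (dlOf (nat_lit 1) (nat_lit 0x200288e0481)))) (.nd (nat_lit 7) 
(.lf (nat_lit 9265238) (dlOf (nat_lit 2) (nat_lit 0x28255500009018530700))) 
(.lf (nat_lit 30236886) (dlOf (nat_lit 1) (nat_lit 0x2e0018e30501)))))) (.nd (nat_lit 7) 
(.nd (nat_lit 20) (.nd (nat_lit 22) 
(.lf (nat_lit 738582614) (dlOf (nat_lit 3) (nat_lit 0x2101b8000e00801a01500002a040004002000c00080b0702))) 
(.lf (nat_lit 29745238) (dlOf (nat_lit 13) (nat_lit 0xef23a004b8820001402005ac8e80276208005e8d20002606006791d001dc4100007c1002ae474000b1e800938820000e83004cc8e802062080003008001b1040001402004591d0011c4100004c1002b6474012b1040001004008791d002ec4100003010025e47400ff1040000504009b91d0042c41000008100266474001723800838820004ad68000002002c8008000c00200de0008e30303)))) 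
(.lf (nat_lit 9822294) (dlOf (nat_lit 5) (nat_lit 0x274860033a410003cee000c60f0000a610001348a0019a43000bd208001e7700007078000520a0005a4500023810001d2280011808014800800bc00200200008580603)))) 
(.nd (nat_lit 5) 
(.lf (nat_lit 604365014) (dlOf (nat_lit 2) (nat_lit 0x4000000158040048002001200081a0502))) 
(.lf (nat_lit 1958134) (dlOf (nat_lit 1) (nat_lit 0x80028150481)))))) (.nd (nat_lit 5) 
(.nd (nat_lit 7) (.nd (nat_lit 9) (.nd (nat_lit 20) 
(.lf (nat_lit 2449494) (dlOf (nat_lit 1) (nat_lit 0x400200020008161102))) 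
(.lf (nat_lit 37052502) (dlOf (nat_lit 1) (nat_lit 0x2000200020009090802)))) 
(.lf (nat_lit 58550870) (dlOf (nat_lit 2) (nat_lit 0xa1c40004e800000604001400097e5301)))) 
(.nd (nat_lit 10) (.lf (nat_lit 3498198) (dlOf (nat_lit 1) (nat_lit 0x400400020008200482))) 
(.lf (nat_lit 19758294) (dlOf (nat_lit 1) (nat_lit 0x200289dc381))))) (.nd (nat_lit 7) 
(.nd (nat_lit 12) (.nd (nat_lit 15) 
(.lf (nat_lit 28663926) (dlOf (nat_lit 1) (nat_lit 0x18008000400200020008da0483))) 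
(.lf (nat_lit 28696694) (dlOf (nat_lit 1) (nat_lit 0x18008000400200020008da0483)))) 
(.lf (nat_lit 20279414) (dlOf (nat_lit 1) (nat_lit 0x280080004002000200089d7d83)))) 
(.nd (nat_lit 9) (.nd (nat_lit 15) 
(.lf (nat_lit 12411126) (dlOf (nat_lit 1) (nat_lit 0x4004000200186c0482))) 
(.lf (nat_lit 12443894) (dlOf (nat_lit 1) (nat_lit 0x4004000200086c0482)))) 
(.lf (nat_lit 19790582) (dlOf (nat_lit 1) (nat_lit 0x4002000200089db982)))))))) (.nd (nat_lit 15) 
(.nd (nat_lit 27) (.nd (nat_lit 7) (.nd (nat_lit 19) (.nd (nat_lit 29) 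
(.lf (nat_lit 3221315670) (dlOf (nat_lit 1) (nat_lit 0x8008002800200060008090003))) 
(.lf (nat_lit 5905670230) (dlOf (nat_lit 1) (nat_lit 0x20002000600080b0002)))) (.nd (nat_lit 9) 
(.lf (nat_lit 1346199638) (dlOf (nat_lit 1) (nat_lit 0x90004008e0008e60802))) 
(.lf (nat_lit 1880713814) (dlOf (nat_lit 1) (nat_lit 0x8008000c00200020008b55303))))) 
(.nd (nat_lit 5) (.nd (nat_lit 26) 
(.lf (nat_lit 1342270678) (dlOf (nat_lit 1) (nat_lit 0x440018006481))) 
(.lf (nat_lit 3825298646) (dlOf (nat_lit 1) (nat_lit 0x400400020008146482)))) (.nd (nat_lit 26) 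
(.nd (nat_lit 29) 
(.lf (nat_lit 3221315830) (dlOf (nat_lit 2) (nat_lit 0x16053000b01b8008009000600400008015000700000071030007800800f000200060008090483))) 
(.lf (nat_lit 5905670390) (dlOf (nat_lit 2) (nat_lit 0x13008800780000046c080074004009a00180b0482)))) 
(.lf (nat_lit 1677811958) (dlOf (nat_lit 2) (nat_lit 0x4813c003007000160260014000000918200008008010400200140008090483)))))) 
(.nd (nat_lit 5) (.nd (nat_lit 7) (.nd (nat_lit 10) (.nd (nat_lit 18) 
(.lf (nat_lit 3960037462) (dlOf (nat_lit 3) (nat_lit 0x1b40140001702013200a0000b0181a1a00))) 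
(.lf (nat_lit 3892666454) (dlOf (nat_lit 3) (nat_lit 0x5300dc01b006c0074019006c00c0000b02004c8160016c0ae0272037010001b0066006403e8030013200a009b0048000a8400108008016400200060008180783)))) 
(.lf (nat_lit 5773550678) (dlOf (nat_lit 1) (nat_lit 0x600180e2901)))) (.nd (nat_lit 10) 
(.lf (nat_lit 1208312022) (dlOf (nat_lit 1) (nat_lit 0x2600280c1c01))) 
(.lf (nat_lit 1812032726) (dlOf (nat_lit 1) (nat_lit 0x400400020008146482))))) (.nd (nat_lit 9) 
(.nd (nat_lit 26) 
(.lf (nat_lit 1208049910) (dlOf (nat_lit 3) (nat_lit 0x20039000b0010011013800364080020008001000200060008090a83))) 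
(.nd (nat_lit 28) 
(.lf (nat_lit 3959513334) (dlOf (nat_lit 2) (nat_lit 0x16053000b01b8008009000600400008015000700000071030007800800f000200060008090483))) 
(.lf (nat_lit 3691077878) (dlOf (nat_lit 2) (nat_lit 0x401d002ba018010700))))) (.nd (nat_lit 7) 
(.lf (nat_lit 3355533942) (dlOf (nat_lit 7) (nat_lit 0x7a0100000d80807b00800006a04038404000034020084020000168100010100000ac0803a00800005404002c004000200180a1902))) 
(.lf (nat_lit 3623970550) (dlOf (nat_lit 1) (nat_lit 0x10008009000200220008003b83))))))) 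
(.nd (nat_lit 18) (.nd (nat_lit 19) (.nd (nat_lit 7) (.nd (nat_lit 5) (.nd (nat_lit 9) 
(.lf (nat_lit 5435940950) (dlOf (nat_lit 5) (nat_lit 0x300000002981001d0000001480800180fc005807c000a03a000c01a80011c2000080fc007407c001403a000301a800118200088008010800200320008040603))) 
(.lf (nat_lit 1610737238) (dlOf (nat_lit 1) (nat_lit 0x400200020008093882)))) 
(.lf (nat_lit 3691110518) (dlOf (nat_lit 1) (nat_lit 0xc00200040008010282)))) (.nd (nat_lit 9) 
(.nd (nat_lit 11) (.lf (nat_lit 5772534998) (dlOf (nat_lit 1) (nat_lit 0x1800400040018092d82))) 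
(.lf (nat_lit 1409412310) (dlOf (nat_lit 1) (nat_lit 0x400400020008006482)))) 
(.lf (nat_lit 6377564886) (dlOf (nat_lit 1) (nat_lit 0x19400280e5881))))) (.nd (nat_lit 26) 
(.nd (nat_lit 5) 
(.lf (nat_lit 5772009558) (dlOf (nat_lit 1) (nat_lit 0x18008001000200020008040603))) 
(.lf (nat_lit 5774106742) (dlOf (nat_lit 1) (nat_lit 0x400400040008102902)))) (.nd (nat_lit 20) 
(.lf (nat_lit 6375989334) (dlOf (nat_lit 1) (nat_lit 0x18008001000200020008040603))) 
(.lf (nat_lit 4095336534) (dlOf (nat_lit 1) (nat_lit 0x18008008c002005c0008090603)))))) 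
(.nd (nat_lit 5) (.nd (nat_lit 28) (.nd (nat_lit 7) (.nd (nat_lit 29) 
(.lf (nat_lit 1074126934) (dlOf (nat_lit 1) (nat_lit 0x200180c1a01))) 
(.lf (nat_lit 1610997846) (dlOf (nat_lit 3) (nat_lit 0x2101b8000e80801a01500002a040004002000c00080b0702)))) 
(.lf (nat_lit 1745218262) (dlOf (nat_lit 1) (nat_lit 0x2c00280e5881)))) (.nd (nat_lit 7) 
(.nd (nat_lit 21) 
(.lf (nat_lit 1346756694) (dlOf (nat_lit 1) (nat_lit 0x500080034002000e0009000803))) 
(.lf (nat_lit 3492143190) (dlOf (nat_lit 1) (nat_lit 0x200080020002000200080a1103)))) 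
(.lf (nat_lit 1476780246) (dlOf (nat_lit 1) (nat_lit 0x18008001c002001200081a0503))))) 
(.nd (nat_lit 7) (.nd (nat_lit 26) 
(.lf (nat_lit 1476780150) (dlOf (nat_lit 3) (nat_lit 0x5c017000c601003100b8006240800080080004002000200081a0483))) 
(.lf (nat_lit 6241509494) (dlOf (nat_lit 2) (nat_lit 0x20026001200c000810100110008001c00200100008100d83)))) 
(.lf (nat_lit 1343086838) (dlOf (nat_lit 1) (nat_lit 0x400200020008150702)))))))) (.nd (nat_lit 9) 
(.nd (nat_lit 26) (.nd (nat_lit 19) (.nd (nat_lit 11) (.nd (nat_lit 5) (.nd (nat_lit 7) 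
(.lf (nat_lit 2550227286) (dlOf (nat_lit 1) (nat_lit 0x80028014d01))) 
(.lf (nat_lit 95702) (dlOf (nat_lit 1) (nat_lit 0x8008000400200020008009b03)))) (.nd (nat_lit 15) 
(.lf (nat_lit 5637497206) (dlOf (nat_lit 1) (nat_lit 0x200280f5801))) (.nd (nat_lit 27) 
(.lf (nat_lit 5368832374) (dlOf (nat_lit 1) (nat_lit 0x1040008035801))) 
(.lf (nat_lit 5503050102) (dlOf (nat_lit 1) (nat_lit 0x1040008035801)))))) (.nd (nat_lit 7) 
(.nd (nat_lit 5) (.lf (nat_lit 536963414) (dlOf (nat_lit 1) (nat_lit 0x800200580008004e02))) 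
(.nd (nat_lit 10) (.lf (nat_lit 1342269814) (dlOf (nat_lit 1) (nat_lit 0x520018004e81))) 
(.lf (nat_lit 1342270838) (dlOf (nat_lit 1) (nat_lit 0x4a0018006b81))))) (.nd (nat_lit 10) 
(.lf (nat_lit 1073838582) (dlOf (nat_lit 1) (nat_lit 0x40040002000800b282))) 
(.lf (nat_lit 805432822) (dlOf (nat_lit 1) (nat_lit 0x20018116f81)))))) (.nd (nat_lit 28) 
(.nd (nat_lit 5) (.nd (nat_lit 7) 
(.lf (nat_lit 1611228502) (dlOf (nat_lit 1) (nat_lit 0x580028123381))) 
(.lf (nat_lit 50946518) (dlOf (nat_lit 1) (nat_lit 0x200294d7b01)))) (.nd (nat_lit 7) 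
(.nd (nat_lit 11) 
(.lf (nat_lit 12411254) (dlOf (nat_lit 1) (nat_lit 0x18008000c002002400086c0783))) 
(.lf (nat_lit 36530550) (dlOf (nat_lit 1) (nat_lit 0x1400200020009074e82)))) 
(.lf (nat_lit 9010678) (dlOf (nat_lit 1) (nat_lit 0x18008000c0020002000851cd03))))) 
(.nd (nat_lit 5) (.nd (nat_lit 7) 
(.lf (nat_lit 1342792022) (dlOf (nat_lit 1) (nat_lit 0x20008002c002000200080c0683))) 
(.lf (nat_lit 1345186262) (dlOf (nat_lit 1) (nat_lit 0x20008b04e81)))) (.nd (nat_lit 15) 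
(.lf (nat_lit 3490539894) (dlOf (nat_lit 1) (nat_lit 0xa00080010002000a0008004e83))) 
(.nd (nat_lit 21) 
(.lf (nat_lit 3490572662) (dlOf (nat_lit 1) (nat_lit 0x130008000c002001a0008004e83))) 
(.lf (nat_lit 1345186166) (dlOf (nat_lit 1) (nat_lit 0x400400020008b04e82)))))))) (.nd (nat_lit 5) 
(.nd (nat_lit 15) (.nd (nat_lit 27) (.nd (nat_lit 7) 
(.lf (nat_lit 2483118422) (dlOf (nat_lit 2) (nat_lit 0x25008000e803800088080044004002c0008014d02))) 
(.lf (nat_lit 3556862422) (dlOf (nat_lit 1) (nat_lit 0x8004000600180d4e82)))) (.nd (nat_lit 18) 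
(.lf (nat_lit 470376790) (dlOf (nat_lit 1) (nat_lit 0x20008002c002000200080c0683))) 
(.lf (nat_lit 738550102) (dlOf (nat_lit 1) (nat_lit 0x200080a7081))))) (.nd (nat_lit 11) 
(.nd (nat_lit 7) 
(.lf (nat_lit 472769878) (dlOf (nat_lit 3) (nat_lit 0x80b28000440800205940002004001c00400400008b03382))) 
(.lf (nat_lit 872538582) (dlOf (nat_lit 1) (nat_lit 0x4004000c0018091202)))) (.nd (nat_lit 12) 
(.lf (nat_lit 2886068566) (dlOf (nat_lit 3) (nat_lit 0x481040020000000050400020410002000000010100040008003000200200008144e03))) 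
(.lf (nat_lit 1677850966) (dlOf (nat_lit 1) (nat_lit 0x4002811ab81)))))) (.nd (nat_lit 28) 
(.nd (nat_lit 10) (.nd (nat_lit 15) (.nd (nat_lit 27) 
(.lf (nat_lit 3825297782) (dlOf (nat_lit 1) (nat_lit 0x400400020008144e82))) 
(.lf (nat_lit 1812031862) (dlOf (nat_lit 1) (nat_lit 0x400400020008144e82)))) 
(.lf (nat_lit 2754996598) (dlOf (nat_lit 1) (nat_lit 0x400180f4e81)))) (.nd (nat_lit 27) 
(.lf (nat_lit 3825298806) (dlOf (nat_lit 1) (nat_lit 0x400400020008146b82))) 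
(.lf (nat_lit 1812032886) (dlOf (nat_lit 1) (nat_lit 0x400400020008146b82))))) (.nd (nat_lit 10) 
(.nd (nat_lit 7) (.nd (nat_lit 11) 
(.lf (nat_lit 6241476982) (dlOf (nat_lit 1) (nat_lit 0x200280f5801))) 
(.lf (nat_lit 1409411446) (dlOf (nat_lit 1) (nat_lit 0x400400020008004e82)))) 
(.lf (nat_lit 872505846) (dlOf (nat_lit 1) (nat_lit 0x400400020018091402)))) (.nd (nat_lit 15) 
(.lf (nat_lit 4227951990) (dlOf (nat_lit 1) (nat_lit 0x580018006b81))) 
(.lf (nat_lit 1409412470) (dlOf (nat_lit 1) (nat_lit 0x400400140008006b82)))))))) (.nd (nat_lit 18) 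
(.nd (nat_lit 29) (.nd (nat_lit 5) (.nd (nat_lit 15) (.nd (nat_lit 25) (.nd (nat_lit 10) 
(.nd (nat_lit 20) (.lf (nat_lit 4697711574) (dlOf (nat_lit 1) (nat_lit 0x80028092881))) 
(.lf (nat_lit 3492897750) (dlOf (nat_lit 1) (nat_lit 0x4004000200080f2882)))) 
(.lf (nat_lit 8480726) (dlOf (nat_lit 1) (nat_lit 0x240018514501)))) (.nd (nat_lit 19) 
(.lf (nat_lit 36791254) (dlOf (nat_lit 1) (nat_lit 0x9c00200380009072882))) (.nd (nat_lit 24) 
(.lf (nat_lit 39412694) (dlOf (nat_lit 1) (nat_lit 0xc0019192881))) 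
(.lf (nat_lit 56189910) (dlOf (nat_lit 1) (nat_lit 0x8008000400200020009732883)))))) 
(.nd (nat_lit 19) (.nd (nat_lit 20) (.nd (nat_lit 22) 
(.lf (nat_lit 4496417750) (dlOf (nat_lit 1) (nat_lit 0x8008000400200040008052883))) 
(.lf (nat_lit 474080214) (dlOf (nat_lit 1) (nat_lit 0xe0019082881)))) 
(.lf (nat_lit 1345446870) (dlOf (nat_lit 1) (nat_lit 0xe0028bb2881)))) (.nd (nat_lit 21) 
(.lf (nat_lit 38396886) (dlOf (nat_lit 1) (nat_lit 0x20009132881))) 
(.lf (nat_lit 40494038) (dlOf (nat_lit 1) (nat_lit 0x300080004002000800091f2883)))))) 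
(.nd (nat_lit 10) (.nd (nat_lit 11) (.nd (nat_lit 20) 
(.lf (nat_lit 4362167286) (dlOf (nat_lit 1) (nat_lit 0x40018002881))) 
(.lf (nat_lit 36791286) (dlOf (nat_lit 1) (nat_lit 0x20019072881)))) (.nd (nat_lit 12) 
(.nd (nat_lit 19) 
(.lf (nat_lit 5637237750) (dlOf (nat_lit 2) (nat_lit 0xc015002400a0010804c000580c008000400140018055f02))) 
(.lf (nat_lit 20540406) (dlOf (nat_lit 2) (nat_lit 0x4afd000160189d5f00)))) 
(.lf (nat_lit 621558) (dlOf (nat_lit 2) (nat_lit 0x4afd80000008002000800340020002000800bf03))))) 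
(.nd (nat_lit 7) (.nd (nat_lit 15) 
(.lf (nat_lit 8480630) (dlOf (nat_lit 1) (nat_lit 0x400200020008514082))) 
(.lf (nat_lit 6442575734) (dlOf (nat_lit 2) (nat_lit 0x9804000044040008004000400080f4082)))) 
(.lf (nat_lit 620534) (dlOf (nat_lit 2) (nat_lit 0xf85e801514080010008000c0020002000800a603)))))) 
(.nd (nat_lit 10) (.nd (nat_lit 27) (.nd (nat_lit 15) (.nd (nat_lit 31) 
(.lf (nat_lit 4899038166) (dlOf (nat_lit 1) (nat_lit 0x40028052881))) 
(.lf (nat_lit 2751554518) (dlOf (nat_lit 1) (nat_lit 0x40018002881)))) 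
(.lf (nat_lit 1611260886) (dlOf (nat_lit 1) (nat_lit 0x20018122881)))) (.nd (nat_lit 20) 
(.lf (nat_lit 6377530326) (dlOf (nat_lit 1) (nat_lit 0x200280e2881))) 
(.lf (nat_lit 1007772630) (dlOf (nat_lit 2) (nat_lit 0x18076002810187a2880))))) (.nd (nat_lit 7) 
(.nd (nat_lit 15) (.nd (nat_lit 28) 
(.lf (nat_lit 671180630) (dlOf (nat_lit 3) (nat_lit 0x20140000301001200a0000000800b0008000c00200240008143f03))) 
(.lf (nat_lit 3087099734) (dlOf (nat_lit 1) (nat_lit 0x400400020008143f02)))) 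
(.lf (nat_lit 671213398) (dlOf (nat_lit 4) (nat_lit 0x180a00004604000c0280000602000e01400030000000001000b8008005800200160008143f03)))) 
(.lf (nat_lit 536963030) (dlOf (nat_lit 3) (nat_lit 0x3205f00400028000401001e017c0001c04000400200020008004502)))))) 
(.nd (nat_lit 15) (.nd (nat_lit 28) (.nd (nat_lit 20) (.nd (nat_lit 22) (.nd (nat_lit 24) 
(.lf (nat_lit 6107259862) (dlOf (nat_lit 1) (nat_lit 0xe00180e2881))) 
(.lf (nat_lit 50684886) (dlOf (nat_lit 1) (nat_lit 0x200094c2881)))) 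
(.lf (nat_lit 38101974) (dlOf (nat_lit 1) (nat_lit 0x400200060009132882)))) (.nd (nat_lit 5) 
(.nd (nat_lit 19) (.lf (nat_lit 51733462) (dlOf (nat_lit 1) (nat_lit 0x20019512881))) 
(.lf (nat_lit 41771990) (dlOf (nat_lit 1) (nat_lit 0x120029242881)))) 
(.lf (nat_lit 8222582) (dlOf (nat_lit 1) (nat_lit 0x800800040020002000851a303))))) 
(.nd (nat_lit 21) (.nd (nat_lit 5) (.nd (nat_lit 26) 
(.lf (nat_lit 6711239638) (dlOf (nat_lit 1) (nat_lit 0x1200180e2881))) 
(.lf (nat_lit 4630864854) (dlOf (nat_lit 1) (nat_lit 0x180018122881)))) 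
(.lf (nat_lit 4093993974) (dlOf (nat_lit 1) (nat_lit 0x20008002881)))) (.nd (nat_lit 19) 
(.lf (nat_lit 4096091094) (dlOf (nat_lit 1) (nat_lit 0x200280e2881))) 
(.lf (nat_lit 1345151958) (dlOf (nat_lit 1) (nat_lit 0x38800200300008aa2882)))))) (.nd (nat_lit 20) 
(.nd (nat_lit 10) (.nd (nat_lit 5) (.nd (nat_lit 22) 
(.lf (nat_lit 403039190) (dlOf (nat_lit 1) (nat_lit 0x800280e2881))) 
(.lf (nat_lit 38134742) (dlOf (nat_lit 1) (nat_lit 0x800200060009132882)))) 
(.lf (nat_lit 872801270) (dlOf (nat_lit 1) (nat_lit 0x9c00280e2881)))) (.nd (nat_lit 27) 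
(.lf (nat_lit 2751850454) (dlOf (nat_lit 4) (nat_lit 0x160324000260400281100001002000608800007018004500))) 
(.lf (nat_lit 2886068182) (dlOf (nat_lit 3) (nat_lit 0x18810c012c07c0028035004700000005020008810c017007c009e014002000500004c200048008005400200020008144503))))) 
(.nd (nat_lit 7) (.lf (nat_lit 20314966) (dlOf (nat_lit 1) (nat_lit 0x200189dbc81))) 
(.nd (nat_lit 19) (.lf (nat_lit 5772796886) (dlOf (nat_lit 1) (nat_lit 0x20008092881))) 
(.lf (nat_lit 56484822) (dlOf (nat_lit 1) (nat_lit 0x800200020009732882))))))))))))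

end

end Pool.Agent.Lib.MP_5854e1_co.Cz

namespace Pool.Agent.Lib.MP_5854e1_co.Cz

noncomputable section

noncomputable def tz219 : DT := (.nd (nat_lit 2) (.nd (nat_lit 5) (.nd (nat_lit 15) 
(.nd (nat_lit 18) (.nd (nat_lit 6) (.nd (nat_lit 8) (.nd (nat_lit 26) (.nd (nat_lit 22) 
(.nd (nat_lit 9) (.nd (nat_lit 27) (.nd (nat_lit 23) 
(.lf (nat_lit 1342791706) (dlOf (nat_lit 1) (nat_lit 0x60008007c002000400080c0003))) 
(.lf (nat_lit 42557466) (dlOf (nat_lit 1) (nat_lit 0x8008004800200180009260103)))) 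
(.nd (nat_lit 30) (.lf (nat_lit 2819186714) (dlOf (nat_lit 1) (nat_lit 0x200181e0581))) 
(.lf (nat_lit 3892928538) (dlOf (nat_lit 1) (nat_lit 0x10008001800200020008290983))))) 
(.nd (nat_lit 7) (.lf (nat_lit 2187802) (dlOf (nat_lit 1) (nat_lit 0x98008007800200200008150d83))) 
(.lf (nat_lit 94874) (dlOf (nat_lit 1) (nat_lit 0x400200020008008c82))))) (.nd (nat_lit 20) 
(.nd (nat_lit 24) (.lf (nat_lit 3494469658) (dlOf (nat_lit 1) (nat_lit 0x400200020008230482))) 
(.lf (nat_lit 21585946) (dlOf (nat_lit 1) (nat_lit 0x20008a50501)))) 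
(.lf (nat_lit 24731674) (dlOf (nat_lit 1) (nat_lit 0x400200020008bb0502))))) (.nd (nat_lit 28) 
(.nd (nat_lit 7) (.nd (nat_lit 22) 
(.lf (nat_lit 4362690586) (dlOf (nat_lit 1) (nat_lit 0x10002000200080d0902))) 
(.lf (nat_lit 2756272154) (dlOf (nat_lit 1) (nat_lit 0x400200020008230482)))) 
(.lf (nat_lit 738290330) (dlOf (nat_lit 1) (nat_lit 0x20018095581)))) (.nd (nat_lit 7) 
(.nd (nat_lit 22) (.lf (nat_lit 4228472858) (dlOf (nat_lit 1) (nat_lit 0x10002000200080d0902))) 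
(.lf (nat_lit 474570778) (dlOf (nat_lit 5) (nat_lit 0x7615600410a1801384ec00f819a008a085000250500090ab0001850c000920800242ac0004102001215600020a18000e810033000800ac002002c00091a0103)))) 
(.lf (nat_lit 1008820378) (dlOf (nat_lit 1) (nat_lit 0x5d0008000400201a40008fa0503)))))) 
(.nd (nat_lit 28) (.nd (nat_lit 21) (.nd (nat_lit 7) (.nd (nat_lit 26) 
(.lf (nat_lit 3221315866) (dlOf (nat_lit 2) (nat_lit 0x2014c001406e000c024000f010000800000038814019800200460008090482))) 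
(.nd (nat_lit 27) 
(.lf (nat_lit 6509650202) (dlOf (nat_lit 3) (nat_lit 0x4004800100000023604001401200070000008941000a00080278002000600080b0483))) 
(.lf (nat_lit 2348900634) (dlOf (nat_lit 1) (nat_lit 0x158008001000200020008014003))))) 
(.lf (nat_lit 2755748250) (dlOf (nat_lit 1) (nat_lit 0x80080024002000400081b0783)))) 
(.nd (nat_lit 7) (.nd (nat_lit 9) 
(.lf (nat_lit 20020506) (dlOf (nat_lit 1) (nat_lit 0x4004000200089dc602))) 
(.lf (nat_lit 20015898) (dlOf (nat_lit 1) (nat_lit 0x4002000200089d5c02)))) (.nd (nat_lit 10) 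
(.lf (nat_lit 2187674) (dlOf (nat_lit 1) (nat_lit 0xe400400020008150782))) 
(.lf (nat_lit 53044634) (dlOf (nat_lit 1) (nat_lit 0x950008021800200540009573603)))))) 
(.nd (nat_lit 7) (.nd (nat_lit 9) (.nd (nat_lit 26) 
(.lf (nat_lit 805396762) (dlOf (nat_lit 4) (nat_lit 0x14038001a013000780000048c0c000804c0024402003004f003001300000010005000801a000200140008090483))) 
(.lf (nat_lit 2483118362) (dlOf (nat_lit 1) (nat_lit 0x158008001000200020008014003)))) 
(.nd (nat_lit 22) 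
(.lf (nat_lit 5637237530) (dlOf (nat_lit 5) (nat_lit 0x1200a8008001000540060016106001c015000e00200055010008805000440040009d04002601400240010002381000500080010002000e0008055c03))) 
(.lf (nat_lit 1346464538) (dlOf (nat_lit 1) (nat_lit 0x1c0028f65c01))))) (.nd (nat_lit 9) 
(.lf (nat_lit 4227951002) (dlOf (nat_lit 1) (nat_lit 0x3e0028004e81))) (.nd (nat_lit 26) 
(.lf (nat_lit 939616154) (dlOf (nat_lit 1) (nat_lit 0x2e0028144281))) 
(.lf (nat_lit 469854106) (dlOf (nat_lit 1) (nat_lit 0xa0028004281)))))))) (.nd (nat_lit 9) 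
(.nd (nat_lit 30) (.nd (nat_lit 8) (.nd (nat_lit 21) (.nd (nat_lit 22) 
(.lf (nat_lit 537485402) (dlOf (nat_lit 3) (nat_lit 0x20510000a81001102880004c0800280080070002003800080a1183))) 
(.lf (nat_lit 474570842) (dlOf (nat_lit 2) (nat_lit 0x782be000c14c000110291a0880)))) 
(.lf (nat_lit 2754175066) (dlOf (nat_lit 2) (nat_lit 0x3e1f9000038180c1a80)))) (.nd (nat_lit 10) 
(.nd (nat_lit 7) (.lf (nat_lit 10576218) (dlOf (nat_lit 1) (nat_lit 0xc00285f8c01))) 
(.lf (nat_lit 7961050) (dlOf (nat_lit 1) (nat_lit 0xa001851b281)))) (.nd (nat_lit 19) 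
(.lf (nat_lit 2818663770) (dlOf (nat_lit 3) (nat_lit 0x6e000000160100370000000a8080020008004c002001800080d3383))) 
(.lf (nat_lit 738813274) (dlOf (nat_lit 1) (nat_lit 0x18008000c00200040008123383)))))) 
(.nd (nat_lit 19) (.nd (nat_lit 7) (.nd (nat_lit 20) 
(.lf (nat_lit 5905670234) (dlOf (nat_lit 1) (nat_lit 0x24002000400080b0002))) 
(.lf (nat_lit 3490799706) (dlOf (nat_lit 2) (nat_lit 0x185600000004001000400080008020982)))) 
(.lf (nat_lit 3825297882) (dlOf (nat_lit 1) (nat_lit 0x180018144e81)))) (.nd (nat_lit 10) 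
(.nd (nat_lit 27) 
(.lf (nat_lit 1409900634) (dlOf (nat_lit 3) (nat_lit 0x2051000140100110288000980800280080070002003800080a1183))) 
(.lf (nat_lit 3960037466) (dlOf (nat_lit 3) (nat_lit 0x1a02f000090100020178000440801f80080194002000200081a1a83)))) 
(.nd (nat_lit 8) (.lf (nat_lit 1611228250) (dlOf (nat_lit 1) (nat_lit 0x80028122901))) 
(.lf (nat_lit 1611228506) (dlOf (nat_lit 1) (nat_lit 0x1000400020008123382))))))) (.nd (nat_lit 7) 
(.nd (nat_lit 8) (.nd (nat_lit 10) (.nd (nat_lit 20) 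
(.lf (nat_lit 58813018) (dlOf (nat_lit 1) (nat_lit 0x200197e5301))) 
(.lf (nat_lit 1880189530) (dlOf (nat_lit 1) (nat_lit 0x400287a5301)))) 
(.lf (nat_lit 1812033114) (dlOf (nat_lit 1) (nat_lit 0x8008000400200020008147183)))) 
(.nd (nat_lit 11) 
(.lf (nat_lit 3355534170) (dlOf (nat_lit 3) (nat_lit 0x25e0200002c01016401000015c0800680080054002001800080a2583))) 
(.nd (nat_lit 19) 
(.lf (nat_lit 5637237594) (dlOf (nat_lit 3) (nat_lit 0x40060015e020004015000ae818055c00))) 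
(.lf (nat_lit 20540250) (dlOf (nat_lit 1) (nat_lit 0x6c002004600089d5c02)))))) (.nd (nat_lit 12) 
(.nd (nat_lit 8) (.nd (nat_lit 11) 
(.lf (nat_lit 2617336538) (dlOf (nat_lit 3) (nat_lit 0x25e0200002c01016401000015c0800680080054002001800080a2103))) 
(.lf (nat_lit 92890) (dlOf (nat_lit 2) (nat_lit 0xc3760002a0200060018005901)))) 
(.lf (nat_lit 671180762) (dlOf (nat_lit 1) (nat_lit 0x1c0018144501)))) (.nd (nat_lit 23) 
(.nd (nat_lit 26) (.lf (nat_lit 94938) (dlOf (nat_lit 1) (nat_lit 0xf40018008c81))) 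
(.lf (nat_lit 469856986) (dlOf (nat_lit 1) (nat_lit 0x4002005e0008008c82)))) 
(.lf (nat_lit 8483546) (dlOf (nat_lit 1) (nat_lit 0x8008000400200020008518c83)))))))) 
(.nd (nat_lit 6) (.nd (nat_lit 20) (.nd (nat_lit 28) (.nd (nat_lit 31) (.nd (nat_lit 7) 
(.nd (nat_lit 19) (.lf (nat_lit 604332058) (dlOf (nat_lit 1) (nat_lit 0x20002000c0008170502))) 
(.lf (nat_lit 15556634) (dlOf (nat_lit 1) (nat_lit 0x140018800581)))) (.nd (nat_lit 9) 
(.lf (nat_lit 36530586) (dlOf (nat_lit 1) (nat_lit 0x20019074e81))) 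
(.lf (nat_lit 4295321498) (dlOf (nat_lit 1) (nat_lit 0x400200060008114282))))) (.nd (nat_lit 26) 
(.nd (nat_lit 27) 
(.lf (nat_lit 6442803226) (dlOf (nat_lit 1) (nat_lit 0x80080040002000c00081c0903))) 
(.lf (nat_lit 3892666394) (dlOf (nat_lit 2) (nat_lit 0xe030000b8154005c068000290600140008180101)))) 
(.lf (nat_lit 3288686618) (dlOf (nat_lit 4) (nat_lit 0x1780b401fd804000405a00fea0200f402d007e00180c0a80))))) 
(.nd (nat_lit 26) (.nd (nat_lit 7) (.nd (nat_lit 27) 
(.lf (nat_lit 4026884122) (dlOf (nat_lit 4) (nat_lit 0x1780b4020f204000405a010770200f402d008248180c0a80))) 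
(.lf (nat_lit 1476747290) (dlOf (nat_lit 1) (nat_lit 0x20002000c0008170502)))) (.nd (nat_lit 8) 
(.lf (nat_lit 2953142426) (dlOf (nat_lit 1) (nat_lit 0x40018160481))) 
(.lf (nat_lit 3490539930) (dlOf (nat_lit 1) (nat_lit 0x1a0008002c002001e0008004e83))))) 
(.nd (nat_lit 19) (.nd (nat_lit 29) 
(.lf (nat_lit 5838823450) (dlOf (nat_lit 1) (nat_lit 0x80080040002000c00081c0903))) 
(.lf (nat_lit 3154468890) (dlOf (nat_lit 1) (nat_lit 0x580080004002000600081a0103)))) 
(.lf (nat_lit 4096614426) (dlOf (nat_lit 1) (nat_lit 0x34004000a0008140a02)))))) (.nd (nat_lit 19) 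
(.nd (nat_lit 8) (.nd (nat_lit 7) 
(.lf (nat_lit 68509722) (dlOf (nat_lit 1) (nat_lit 0x40018590a01))) (.nd (nat_lit 10) 
(.lf (nat_lit 28663962) (dlOf (nat_lit 1) (nat_lit 0x10008000400200020008da0483))) 
(.lf (nat_lit 51733658) (dlOf (nat_lit 1) (nat_lit 0x20019512b81))))) (.nd (nat_lit 9) 
(.nd (nat_lit 22) (.lf (nat_lit 20275482) (dlOf (nat_lit 1) (nat_lit 0x14002001200089d0a82))) 
(.lf (nat_lit 58024218) (dlOf (nat_lit 1) (nat_lit 0x1200297b8001)))) (.nd (nat_lit 21) 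
(.lf (nat_lit 4095044378) (dlOf (nat_lit 1) (nat_lit 0xc00400020008055c02))) 
(.lf (nat_lit 20278042) (dlOf (nat_lit 1) (nat_lit 0x4002000200089d5c02)))))) (.nd (nat_lit 24) 
(.nd (nat_lit 7) (.nd (nat_lit 23) 
(.lf (nat_lit 1346199578) (dlOf (nat_lit 2) (nat_lit 0x77055803e4286020a13b00f909c809b8334003810a01ce07500fa0398000bc400bc0008009c002008c0008e60103))) 
(.lf (nat_lit 45965338) (dlOf (nat_lit 1) (nat_lit 0xe0029370601)))) 
(.lf (nat_lit 8216986) (dlOf (nat_lit 1) (nat_lit 0x104002000e0008511002)))) (.nd (nat_lit 10) 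
(.nd (nat_lit 23) 
(.lf (nat_lit 18702362) (dlOf (nat_lit 3) (nat_lit 0x8418b000170100080c58000b00800a0008001c00200060008960503))) 
(.lf (nat_lit 27090970) (dlOf (nat_lit 1) (nat_lit 0x160008007400200020008ca0503)))) 
(.lf (nat_lit 58549274) (dlOf (nat_lit 1) (nat_lit 0x40002001200097e2882))))))) (.nd (nat_lit 28) 
(.nd (nat_lit 7) (.nd (nat_lit 9) (.nd (nat_lit 8) (.nd (nat_lit 10) 
(.lf (nat_lit 6442803290) (dlOf (nat_lit 1) (nat_lit 0x200281c1181))) 
(.lf (nat_lit 38102106) (dlOf (nat_lit 1) (nat_lit 0x20019132901)))) 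
(.lf (nat_lit 29712730) (dlOf (nat_lit 1) (nat_lit 0x400400020008e30902)))) (.nd (nat_lit 19) 
(.lf (nat_lit 45443674) (dlOf (nat_lit 13) (nat_lit 0x2bddbe0174ea50001751808138c403c99d400aace0010865b0085263803c1318016e000000140a002b67500009c0801bb3a80004c0405c59d40001f020068cea0000e81000967500006808001b3a80002804001dc620086cea000c00000004c1801cb3a80001a0400b99d40000c02004e00000002010035000000000080008008002400200dc0009325303))) 
(.lf (nat_lit 38627930) (dlOf (nat_lit 2) (nat_lit 0xbc74000014019135300))))) (.nd (nat_lit 9) 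
(.nd (nat_lit 10) (.nd (nat_lit 30) 
(.lf (nat_lit 2818924762) (dlOf (nat_lit 1) (nat_lit 0x48008002c00200120008130583))) 
(.lf (nat_lit 1745182938) (dlOf (nat_lit 3) (nat_lit 0x40260001d01000100a0000680800100080018002000a00080c1c03)))) 
(.lf (nat_lit 19758298) (dlOf (nat_lit 1) (nat_lit 0x4004000200089dc402)))) (.nd (nat_lit 8) 
(.lf (nat_lit 19755738) (dlOf (nat_lit 1) (nat_lit 0x200189d8c81))) 
(.lf (nat_lit 2751816666) (dlOf (nat_lit 1) (nat_lit 0x20008002881)))))) (.nd (nat_lit 10) 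
(.nd (nat_lit 26) (.nd (nat_lit 27) 
(.lf (nat_lit 2416271450) (dlOf (nat_lit 1) (nat_lit 0x400280c1a81))) 
(.lf (nat_lit 5234843738) (dlOf (nat_lit 1) (nat_lit 0x90008005c00200140008100683)))) 
(.nd (nat_lit 9) (.lf (nat_lit 5838823514) (dlOf (nat_lit 1) (nat_lit 0x200281c1181))) 
(.lf (nat_lit 473262682) (dlOf (nat_lit 3) (nat_lit 0x160b18008032800881780002806001411f00012818e35300))))) 
(.nd (nat_lit 7) (.nd (nat_lit 8) 
(.lf (nat_lit 4096091738) (dlOf (nat_lit 1) (nat_lit 0x400280e3901))) 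
(.lf (nat_lit 3624234330) (dlOf (nat_lit 1) (nat_lit 0x20028146a81)))) 
(.lf (nat_lit 1344107994) (dlOf (nat_lit 1) (nat_lit 0x10a00083d9b01)))))))) (.nd (nat_lit 18) 
(.nd (nat_lit 30) (.nd (nat_lit 19) (.nd (nat_lit 26) (.nd (nat_lit 11) (.nd (nat_lit 22) 
(.nd (nat_lit 6) 
(.lf (nat_lit 28434458) (dlOf (nat_lit 3) (nat_lit 0x840fb0001701000807d8000b00800a0008001c00200060008d90503))) 
(.lf (nat_lit 2550259802) (dlOf (nat_lit 1) (nat_lit 0x1b60008020981)))) (.nd (nat_lit 7) 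
(.lf (nat_lit 12705882) (dlOf (nat_lit 2) (nat_lit 0x800000020040014002000c00086d1182))) 
(.lf (nat_lit 4317402) (dlOf (nat_lit 1) (nat_lit 0x20028290581))))) (.nd (nat_lit 7) 
(.nd (nat_lit 8) (.lf (nat_lit 20048922) (dlOf (nat_lit 1) (nat_lit 0x400089d6001))) 
(.lf (nat_lit 20048666) (dlOf (nat_lit 1) (nat_lit 0x4002000200089d5c02)))) (.nd (nat_lit 9) 
(.lf (nat_lit 805436570) (dlOf (nat_lit 1) (nat_lit 0x200080020002000a000811c203))) 
(.lf (nat_lit 6576795290) (dlOf (nat_lit 1) (nat_lit 0x400200020008147202)))))) (.nd (nat_lit 7) 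
(.nd (nat_lit 31) (.nd (nat_lit 6) 
(.lf (nat_lit 738323482) (dlOf (nat_lit 1) (nat_lit 0x60018096001))) 
(.lf (nat_lit 4496418394) (dlOf (nat_lit 1) (nat_lit 0x400400020008053902)))) (.nd (nat_lit 10) 
(.lf (nat_lit 2885804058) (dlOf (nat_lit 1) (nat_lit 0x28008000c002000c0008090583))) 
(.lf (nat_lit 2751587354) (dlOf (nat_lit 1) (nat_lit 0x400200020008002882))))) (.nd (nat_lit 6) 
(.nd (nat_lit 8) 
(.lf (nat_lit 474080410) (dlOf (nat_lit 2) (nat_lit 0x185980011204001000200060009082b82))) 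
(.lf (nat_lit 4899071386) (dlOf (nat_lit 1) (nat_lit 0x400400020008053602)))) (.nd (nat_lit 10) 
(.lf (nat_lit 3020022234) (dlOf (nat_lit 1) (nat_lit 0x600280e7b81))) 
(.lf (nat_lit 469890522) (dlOf (nat_lit 3) (nat_lit 0x10594000460400342ca0001e0200140018009b01))))))) 
(.nd (nat_lit 20) (.nd (nat_lit 25) (.nd (nat_lit 26) (.nd (nat_lit 29) 
(.lf (nat_lit 134864922) (dlOf (nat_lit 2) (nat_lit 0x1880820000002000200080d0881))) 
(.lf (nat_lit 2819219482) (dlOf (nat_lit 1) (nat_lit 0x400281f0581)))) (.nd (nat_lit 28) 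
(.lf (nat_lit 201973786) (dlOf (nat_lit 2) (nat_lit 0x1880820000002000200080d0881))) 
(.lf (nat_lit 470409242) (dlOf (nat_lit 1) (nat_lit 0x4004000200080e0a02))))) (.nd (nat_lit 8) 
(.lf (nat_lit 42590234) (dlOf (nat_lit 1) (nat_lit 0x6e0019260101))) 
(.lf (nat_lit 50979098) (dlOf (nat_lit 2) (nat_lit 0xe74400063a18000181000180080018002004800094e8003))))) 
(.nd (nat_lit 21) (.nd (nat_lit 23) 
(.lf (nat_lit 35250202) (dlOf (nat_lit 1) (nat_lit 0x400400020009000602))) 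
(.lf (nat_lit 26861594) (dlOf (nat_lit 1) (nat_lit 0x60018c80501)))) (.nd (nat_lit 6) 
(.nd (nat_lit 22) 
(.lf (nat_lit 2755256346) (dlOf (nat_lit 5) (nat_lit 0x3c4380001502000821c0000881000c10e00003c0800588700001a04000c004001a0018140b02))) 
(.lf (nat_lit 24764442) (dlOf (nat_lit 3) (nat_lit 0xc132fc0004604006dafc000200200020018bb0501)))) 
(.lf (nat_lit 7992794) (dlOf (nat_lit 2) (nat_lit 0x10a8a000420200040018519b01))))))) 
(.nd (nat_lit 28) (.nd (nat_lit 10) (.nd (nat_lit 7) (.nd (nat_lit 11) (.nd (nat_lit 19) 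
(.lf (nat_lit 3288457242) (dlOf (nat_lit 1) (nat_lit 0x8f0008000800201580008020483))) 
(.lf (nat_lit 3892961306) (dlOf (nat_lit 2) (nat_lit 0x800c8000000800a00080018002001800082b0b83)))) 
(.lf (nat_lit 1677846554) (dlOf (nat_lit 1) (nat_lit 0x800200200008114702)))) (.nd (nat_lit 6) 
(.lf (nat_lit 1677846682) (dlOf (nat_lit 1) (nat_lit 0xc00200160008114802))) 
(.lf (nat_lit 5368832218) (dlOf (nat_lit 1) (nat_lit 0x38008006c00200360008031c03))))) 
(.nd (nat_lit 26) (.nd (nat_lit 8) 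
(.lf (nat_lit 1610737178) (dlOf (nat_lit 1) (nat_lit 0x20028093701))) 
(.lf (nat_lit 5905704730) (dlOf (nat_lit 1) (nat_lit 0xc004000a0018143c82)))) (.nd (nat_lit 6) 
(.lf (nat_lit 1275192474) (dlOf (nat_lit 1) (nat_lit 0x5c004002e0018092b82))) 
(.lf (nat_lit 5570160218) (dlOf (nat_lit 1) (nat_lit 0x20028053901)))))) (.nd (nat_lit 7) 
(.nd (nat_lit 19) (.nd (nat_lit 6) (.nd (nat_lit 27) 
(.lf (nat_lit 4026654746) (dlOf (nat_lit 1) (nat_lit 0x8f0008000800201580008020483))) 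
(.lf (nat_lit 3624001562) (dlOf (nat_lit 1) (nat_lit 0x28008000c002000c0008090583)))) 
(.lf (nat_lit 1345447514) (dlOf (nat_lit 1) (nat_lit 0x30008001c00200160008bb3903)))) 
(.nd (nat_lit 20) (.lf (nat_lit 1342824474) (dlOf (nat_lit 1) (nat_lit 0x4004000200080e0a02))) 
(.nd (nat_lit 21) (.lf (nat_lit 1343873050) (dlOf (nat_lit 1) (nat_lit 0xc0028370001))) 
(.lf (nat_lit 3493453850) (dlOf (nat_lit 5) (nat_lit 0x3c40e000160200082070000881000c10380003808005881c0001a04000c004001a0018140b02)))))) 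
(.nd (nat_lit 6) (.nd (nat_lit 8) (.nd (nat_lit 10) 
(.lf (nat_lit 1881268378) (dlOf (nat_lit 1) (nat_lit 0x300008e80501))) 
(.lf (nat_lit 1345447066) (dlOf (nat_lit 1) (nat_lit 0x1000400060008bb2b82)))) 
(.lf (nat_lit 5838596506) (dlOf (nat_lit 1) (nat_lit 0x4004000200080f4e82)))) (.nd (nat_lit 10) 
(.lf (nat_lit 1881268698) (dlOf (nat_lit 1) (nat_lit 0x1b40008e81201))) 
(.lf (nat_lit 1342305754) (dlOf (nat_lit 1) (nat_lit 0x8008000400200020008009b03)))))))) 
(.nd (nat_lit 28) (.nd (nat_lit 8) (.nd (nat_lit 27) (.nd (nat_lit 22) (.nd (nat_lit 25) 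
(.nd (nat_lit 7) (.nd (nat_lit 30) 
(.lf (nat_lit 4832223258) (dlOf (nat_lit 1) (nat_lit 0x60008120401))) 
(.lf (nat_lit 1610997786) (dlOf (nat_lit 2) (nat_lit 0x1980a000aa032000800e0000bc1801300080088002000200080b0103)))) 
(.lf (nat_lit 604364954) (dlOf (nat_lit 2) (nat_lit 0x140160007d8181a0480)))) (.nd (nat_lit 21) 
(.lf (nat_lit 33939482) (dlOf (nat_lit 1) (nat_lit 0x11000400340008f80602))) 
(.lf (nat_lit 44425242) (dlOf (nat_lit 1) (nat_lit 0x40029310181))))) (.nd (nat_lit 6) 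
(.nd (nat_lit 21) 
(.lf (nat_lit 12967962) (dlOf (nat_lit 2) (nat_lit 0xd6606e05a0fc9000120286f0400))) 
(.lf (nat_lit 15065114) (dlOf (nat_lit 1) (nat_lit 0x55800806b0002024600087b0503)))) 
(.lf (nat_lit 21356762) (dlOf (nat_lit 1) (nat_lit 0x40008a31c01))))) (.nd (nat_lit 6) 
(.nd (nat_lit 19) (.nd (nat_lit 26) 
(.lf (nat_lit 3355828250) (dlOf (nat_lit 1) (nat_lit 0x380080004002000a0008120483))) 
(.lf (nat_lit 738582554) (dlOf (nat_lit 2) (nat_lit 0x1980a000aa032000800e0000bc1801300080088002000200080b0103)))) 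
(.lf (nat_lit 2819481626) (dlOf (nat_lit 2) (nat_lit 0x2301b0000200800d00080004002001000082b0503)))) 
(.nd (nat_lit 7) (.lf (nat_lit 4496679002) (dlOf (nat_lit 1) (nat_lit 0x20018120681))) 
(.lf (nat_lit 1208344794) (dlOf (nat_lit 5) (nat_lit 0x806200040300001d020002018800100c00004a08000805a000402b0000d020002016800180ac00030080040004009e00180c1c02)))))) 
(.nd (nat_lit 20) (.nd (nat_lit 7) (.nd (nat_lit 9) 
(.lf (nat_lit 21356826) (dlOf (nat_lit 1) (nat_lit 0x40018a34001))) 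
(.lf (nat_lit 19788570) (dlOf (nat_lit 1) (nat_lit 0x24004002200089d8f82)))) 
(.lf (nat_lit 201712026) (dlOf (nat_lit 1) (nat_lit 0x6c00200060008090782)))) (.nd (nat_lit 11) 
(.nd (nat_lit 22) (.lf (nat_lit 20308250) (dlOf (nat_lit 1) (nat_lit 0x200089d0a81))) 
(.lf (nat_lit 58056986) (dlOf (nat_lit 1) (nat_lit 0x800097b8001)))) (.nd (nat_lit 7) 
(.lf (nat_lit 20310810) (dlOf (nat_lit 1) (nat_lit 0x4002000200089d5c02))) 
(.lf (nat_lit 2754996634) (dlOf (nat_lit 1) (nat_lit 0x4002000200080f4e82))))))) (.nd (nat_lit 6) 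
(.nd (nat_lit 31) (.nd (nat_lit 21) (.nd (nat_lit 22) (.nd (nat_lit 27) 
(.lf (nat_lit 4563787802) (dlOf (nat_lit 16) (nat_lit 0x6600c401540380100014001f008803a00000006414000405001300000001802000201f000980700005c08001007a005e01c00040000000b41800580f8001007a003e03a001f0120029807000140000002b0c01000330001381001f0198000980806600cc0004804015406600a6032001300a801780480004410000403c0001d020016032000200a8000201000200c800100240000404003e0320000181001f0190000080803a00cc0014064013001e0004009000000200008008018c002003000080e0503))) 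
(.lf (nat_lit 5234876442) (dlOf (nat_lit 3) (nat_lit 0x700d000480600020016007ac0600120180007005801eac1000c8008005800200100008120a03)))) 
(.lf (nat_lit 1346756634) (dlOf (nat_lit 4) (nat_lit 0x6704b003b821400c40fa00ec075007a0398011807c0009418009c12c00580730002482000403e0000000800b8008004000200120009000103)))) 
(.nd (nat_lit 7) 
(.lf (nat_lit 1881530394) (dlOf (nat_lit 1) (nat_lit 0x10008000800200060008f40103))) 
(.lf (nat_lit 473293978) (dlOf (nat_lit 1) (nat_lit 0x40008002400200020008e32b83))))) 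
(.nd (nat_lit 19) (.nd (nat_lit 26) (.nd (nat_lit 27) 
(.lf (nat_lit 2416304154) (dlOf (nat_lit 1) (nat_lit 0x100080004002000400080d0883))) 
(.lf (nat_lit 2550521882) (dlOf (nat_lit 1) (nat_lit 0x100080004002000400080d0883)))) 
(.lf (nat_lit 2617630746) (dlOf (nat_lit 4) (nat_lit 0xf402d0011e0100520000007c80804a00ac003a204002c00200420008110482)))) 
(.nd (nat_lit 21) 
(.lf (nat_lit 3557679130) (dlOf (nat_lit 2) (nat_lit 0x2301c0000200800d00080004002001000082b0503))) 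
(.lf (nat_lit 4096647194) (dlOf (nat_lit 1) (nat_lit 0xe0008140a01)))))) (.nd (nat_lit 8) 
(.nd (nat_lit 27) (.nd (nat_lit 26) 
(.lf (nat_lit 5637529690) (dlOf (nat_lit 1) (nat_lit 0x200080014002000c0008100683))) 
(.lf (nat_lit 6241509466) (dlOf (nat_lit 1) (nat_lit 0x200080014002000c0008100683)))) 
(.nd (nat_lit 7) (.lf (nat_lit 1009116250) (dlOf (nat_lit 1) (nat_lit 0x1400400160019082902))) 
(.lf (nat_lit 6377300186) (dlOf (nat_lit 1) (nat_lit 0x4004000400080c1c02))))) (.nd (nat_lit 7) 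
(.nd (nat_lit 19) (.lf (nat_lit 872801626) (dlOf (nat_lit 1) (nat_lit 0x1c00280e3381))) 
(.lf (nat_lit 472769882) (dlOf (nat_lit 2) (nat_lit 0x542ca000110200200008b03381)))) 
(.nd (nat_lit 9) (.lf (nat_lit 3492674010) (dlOf (nat_lit 1) (nat_lit 0x200180fb281))) 
(.lf (nat_lit 472769498) (dlOf (nat_lit 1) (nat_lit 0x400200020008b02882)))))))))) 
(.nd (nat_lit 15) (.nd (nat_lit 18) (.nd (nat_lit 26) (.nd (nat_lit 30) (.nd (nat_lit 8) 
(.nd (nat_lit 19) (.nd (nat_lit 6) (.nd (nat_lit 7) 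
(.lf (nat_lit 17915962) (dlOf (nat_lit 2) (nat_lit 0x238ce000000200020008900c81))) 
(.lf (nat_lit 55665850) (dlOf (nat_lit 1) (nat_lit 0x4002000200096d2c82)))) (.nd (nat_lit 9) 
(.lf (nat_lit 91258) (dlOf (nat_lit 1) (nat_lit 0x100028002a81))) 
(.lf (nat_lit 6710979194) (dlOf (nat_lit 1) (nat_lit 0x400400020008005402))))) (.nd (nat_lit 20) 
(.nd (nat_lit 7) 
(.lf (nat_lit 537485370) (dlOf (nat_lit 1) (nat_lit 0x280080004002000c00080a0c03))) 
(.lf (nat_lit 17391802) (dlOf (nat_lit 1) (nat_lit 0x4004000200088e0482)))) (.nd (nat_lit 6) 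
(.lf (nat_lit 10051642) (dlOf (nat_lit 1) (nat_lit 0x80080004002000200085b0683))) 
(.lf (nat_lit 58286202) (dlOf (nat_lit 1) (nat_lit 0x100080004002000200097d2b03)))))) 
(.nd (nat_lit 10) (.nd (nat_lit 9) (.nd (nat_lit 6) 
(.lf (nat_lit 30499130) (dlOf (nat_lit 1) (nat_lit 0xc00400060008e30702))) 
(.lf (nat_lit 8483322) (dlOf (nat_lit 1) (nat_lit 0x8008000400200020008518683)))) (.nd (nat_lit 12) 
(.lf (nat_lit 20015930) (dlOf (nat_lit 1) (nat_lit 0x4002000200089d5c02))) 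
(.lf (nat_lit 97082) (dlOf (nat_lit 1) (nat_lit 0x2002800bc81))))) (.nd (nat_lit 6) 
(.nd (nat_lit 11) (.lf (nat_lit 8484154) (dlOf (nat_lit 1) (nat_lit 0x400200020008519902))) 
(.lf (nat_lit 134311226) (dlOf (nat_lit 1) (nat_lit 0x160018006901)))) 
(.lf (nat_lit 20542970) (dlOf (nat_lit 2) (nat_lit 0x4d56d0029f80800180080004002000400089d9c03)))))) 
(.nd (nat_lit 28) (.nd (nat_lit 6) (.nd (nat_lit 7) 
(.lf (nat_lit 1208049978) (dlOf (nat_lit 16) (nat_lit 0x218050010a00b00120048001141801e00a000c00160010009000218300020148000fc0800100a40007a04024405200d202800900060032802c0006c100234052010202800890060034002c00068100214052010a00c00510058000a81804600a40150050011800c000118300830140040002c000400801a405000d200b0000f82009b014004e002c000380801a405000d200b0000d0200530140029002c0003208032c07200300270000a02003301c8033809c0194014000000603660028090b81))) 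
(.lf (nat_lit 1208052410) (dlOf (nat_lit 2) (nat_lit 0x603900000018095780)))) (.nd (nat_lit 7) 
(.lf (nat_lit 1744920698) (dlOf (nat_lit 1) (nat_lit 0x20028090281))) (.nd (nat_lit 9) 
(.lf (nat_lit 5905670394) (dlOf (nat_lit 2) (nat_lit 0x7008800400000046c08002400400b800180b0482))) 
(.lf (nat_lit 1611229946) (dlOf (nat_lit 2) (nat_lit 0xa02d0000a0080058008003c002000e0008125a03)))))) 
(.nd (nat_lit 20) (.nd (nat_lit 8) (.nd (nat_lit 10) 
(.lf (nat_lit 1879138362) (dlOf (nat_lit 1) (nat_lit 0xc00400060008020682))) 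
(.lf (nat_lit 1346987066) (dlOf (nat_lit 1) (nat_lit 0x20029162881)))) 
(.lf (nat_lit 1342791994) (dlOf (nat_lit 2) (nat_lit 0x8422a00420f980005c10020000800a0002002800080c0583)))) 
(.nd (nat_lit 10) (.nd (nat_lit 31) 
(.lf (nat_lit 1343316026) (dlOf (nat_lit 1) (nat_lit 0x90002002e00081e0902))) 
(.lf (nat_lit 3490799674) (dlOf (nat_lit 7) (nat_lit 0x1600f580aa874800142ac0030151001d0a000288000000b21804a43d602241d200150a000010000000ae101d7849a043c24c052811d00ce07e81dbc3d4001c1e1003e0f0033e07641d683a2009a19f03000c180cb85a808082cc004414c00ba0a381d204fc02e000000052220080238005711900b987a804583b200101d7011f0e8801f860c03e8302000e168000d0b20006056c02b82aa001215100670a38085851400080000004b2000041eb000200100780f58000d808144800804640020b040008020683)))) 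
(.lf (nat_lit 1880187962) (dlOf (nat_lit 1) (nat_lit 0x1200287a2881))))))) (.nd (nat_lit 7) 
(.nd (nat_lit 6) (.nd (nat_lit 27) (.nd (nat_lit 10) (.nd (nat_lit 20) 
(.lf (nat_lit 5972779066) (dlOf (nat_lit 1) (nat_lit 0xc002000e00080c0b82))) 
(.lf (nat_lit 2752602170) (dlOf (nat_lit 7) (nat_lit 0x1600fe80aa879c00142b60030156001d0a000288000000b21804a43fa02241e700150a000010000000ae10067041e001c203003e10103b787f019f03dc0eb41e6004d0da03af06c808783620a5019f03000c1810105a8065c2c4004414c00ba0a381d204fc02e0000000522200ae24a004012180b987f004583dc00101ec011f0f3001f860c03e8302001a16800070b00057056800242ac001815100670a38085851400080000004b2000041fd000200100780fe8000d808144800804640020b040008020683)))) 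
(.lf (nat_lit 3556860986) (dlOf (nat_lit 1) (nat_lit 0x200280d2881)))) (.nd (nat_lit 8) 
(.lf (nat_lit 1006723130) (dlOf (nat_lit 1) (nat_lit 0xc00400060008020682))) (.nd (nat_lit 10) 
(.lf (nat_lit 470376762) (dlOf (nat_lit 2) (nat_lit 0x8422a00420f900005c10020000800a0002002800080c0583))) 
(.lf (nat_lit 1812032826) (dlOf (nat_lit 1) (nat_lit 0x2a0028146901)))))) (.nd (nat_lit 9) 
(.nd (nat_lit 27) (.lf (nat_lit 67723386) (dlOf (nat_lit 1) (nat_lit 0x4004000200182d0482))) 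
(.lf (nat_lit 3154731130) (dlOf (nat_lit 1) (nat_lit 0x1800200140008310482)))) (.nd (nat_lit 10) 
(.lf (nat_lit 474049146) (dlOf (nat_lit 1) (nat_lit 0x1c00400040019005402))) (.nd (nat_lit 27) 
(.lf (nat_lit 4899038842) (dlOf (nat_lit 1) (nat_lit 0xe800400120018053982))) 
(.lf (nat_lit 6106998394) (dlOf (nat_lit 1) (nat_lit 0x400200020008003982))))))) (.nd (nat_lit 8) 
(.nd (nat_lit 6) (.nd (nat_lit 10) 
(.lf (nat_lit 872505530) (dlOf (nat_lit 2) (nat_lit 0x80cc0002e04000800400120018090702))) 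
(.lf (nat_lit 1409379514) (dlOf (nat_lit 1) (nat_lit 0xe0028006301)))) (.nd (nat_lit 27) 
(.nd (nat_lit 9) 
(.lf (nat_lit 1677811962) (dlOf (nat_lit 2) (nat_lit 0x1809e000e038000d013000400000048c10015000200020008090482))) 
(.lf (nat_lit 3556862714) (dlOf (nat_lit 2) (nat_lit 0x1000000050040070002001400080d5a02)))) 
(.nd (nat_lit 10) 
(.lf (nat_lit 3959513338) (dlOf (nat_lit 2) (nat_lit 0x200a6000203700080120004800000388100124002003a0008090482))) 
(.lf (nat_lit 2080466170) (dlOf (nat_lit 2) (nat_lit 0x4203900000018092e80)))))) (.nd (nat_lit 27) 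
(.nd (nat_lit 9) (.nd (nat_lit 10) 
(.lf (nat_lit 2483118586) (dlOf (nat_lit 2) (nat_lit 0x48000014b604000800200180008017802))) 
(.lf (nat_lit 1409379834) (dlOf (nat_lit 1) (nat_lit 0x800200580008006f82)))) 
(.lf (nat_lit 2751554554) (dlOf (nat_lit 1) (nat_lit 0x400200020008002882)))) (.nd (nat_lit 6) 
(.lf (nat_lit 2080465338) (dlOf (nat_lit 6) (nat_lit 0x1c809c00c00140004904008c027002a00500012010016009c00a80140004704002803900230138000e81000a00a40002e0401ac00400060008091082))) 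
(.lf (nat_lit 469856762) (dlOf (nat_lit 1) (nat_lit 0x2c0028008681)))))))) (.nd (nat_lit 6) 
(.nd (nat_lit 19) (.nd (nat_lit 26) (.nd (nat_lit 24) (.nd (nat_lit 28) (.nd (nat_lit 27) 
(.lf (nat_lit 5905932346) (dlOf (nat_lit 2) (nat_lit 0x10068000000200040028160681))) 
(.lf (nat_lit 671440954) (dlOf (nat_lit 2) (nat_lit 0xcc0000000002002200081a0701)))) 
(.nd (nat_lit 8) (.lf (nat_lit 3494207546) (dlOf (nat_lit 1) (nat_lit 0x4002000200081d0b82))) 
(.lf (nat_lit 2953142586) (dlOf (nat_lit 3) (nat_lit 0xa000002be008006806c015de0400d0002007a0008160702))))) 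
(.nd (nat_lit 8) (.nd (nat_lit 7) 
(.lf (nat_lit 51733562) (dlOf (nat_lit 1) (nat_lit 0x20019512881))) 
(.lf (nat_lit 20278458) (dlOf (nat_lit 1) (nat_lit 0x100080004002000200089d6303)))) 
(.nd (nat_lit 10) (.lf (nat_lit 19226938) (dlOf (nat_lit 1) (nat_lit 0xc00400080018970702))) 
(.lf (nat_lit 50685242) (dlOf (nat_lit 1) (nat_lit 0x4004000200094c3282)))))) (.nd (nat_lit 7) 
(.nd (nat_lit 31) (.nd (nat_lit 20) 
(.lf (nat_lit 1543856186) (dlOf (nat_lit 2) (nat_lit 0xcc0000000002002200081a0701))) 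
(.lf (nat_lit 68509754) (dlOf (nat_lit 1) (nat_lit 0xc00400020018590c82)))) (.nd (nat_lit 22) 
(.lf (nat_lit 6509912122) (dlOf (nat_lit 2) (nat_lit 0x10068000000200040028160681))) 
(.lf (nat_lit 2756010042) (dlOf (nat_lit 1) (nat_lit 0x4002000200081d0b82))))) (.nd (nat_lit 8) 
(.nd (nat_lit 27) 
(.lf (nat_lit 872767674) (dlOf (nat_lit 1) (nat_lit 0x180080010002000600080c1703))) 
(.lf (nat_lit 2080727226) (dlOf (nat_lit 1) (nat_lit 0x200180c1701)))) 
(.lf (nat_lit 2349169594) (dlOf (nat_lit 4) (nat_lit 0x1801c0021a02003002a001070100030070006b8080078008005c002000800080fbe03)))))) 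
(.nd (nat_lit 20) (.nd (nat_lit 22) (.nd (nat_lit 9) 
(.lf (nat_lit 9265210) (dlOf (nat_lit 1) (nat_lit 0xc000200380008530482))) 
(.lf (nat_lit 36530746) (dlOf (nat_lit 1) (nat_lit 0x1800200040009075202)))) (.nd (nat_lit 10) 
(.lf (nat_lit 21848122) (dlOf (nat_lit 1) (nat_lit 0x1c00400120008a70682))) 
(.lf (nat_lit 38626362) (dlOf (nat_lit 1) (nat_lit 0x20009132881))))) (.nd (nat_lit 7) 
(.nd (nat_lit 8) 
(.lf (nat_lit 12411450) (dlOf (nat_lit 4) (nat_lit 0x56eac000380400277560005b2a0000d020008dd58000000800700080074002005e00086c1003))) 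
(.lf (nat_lit 8218938) (dlOf (nat_lit 1) (nat_lit 0x6c800802d800202060008514c83)))) 
(.nd (nat_lit 10) (.lf (nat_lit 8216762) (dlOf (nat_lit 1) (nat_lit 0x400400020018510702))) 
(.lf (nat_lit 60646586) (dlOf (nat_lit 1) (nat_lit 0x4002000200098c2c82))))))) (.nd (nat_lit 8) 
(.nd (nat_lit 29) (.nd (nat_lit 7) (.nd (nat_lit 21) 
(.lf (nat_lit 1208311930) (dlOf (nat_lit 2) (nat_lit 0x10014000c8040008004001600180c0c82))) 
(.lf (nat_lit 19226746) (dlOf (nat_lit 1) (nat_lit 0x800200040008970482)))) (.nd (nat_lit 9) 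
(.lf (nat_lit 3557122298) (dlOf (nat_lit 1) (nat_lit 0x20018130701))) 
(.lf (nat_lit 1344104186) (dlOf (nat_lit 1) (nat_lit 0x200183d3b81))))) (.nd (nat_lit 26) 
(.nd (nat_lit 28) 
(.lf (nat_lit 4832190586) (dlOf (nat_lit 1) (nat_lit 0x8008000800200020008100b83))) 
(.lf (nat_lit 2953142394) (dlOf (nat_lit 6) (nat_lit 0x2202a0082009804c801400940000014f08003002e00c5016006200ac031c05401ae029008c00f005880680244030016001300c2008804b8020034000a01a20020025000806080000028a3c0280058014002b00a0015005900a4021803400f601800860098051804400a0010015600500ab001004f000000284300250058012c02a008700c003f004c025c00a011e0000009d86008d0000004e408072000800c000200040008160483)))) 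
(.nd (nat_lit 19) 
(.lf (nat_lit 872767610) (dlOf (nat_lit 2) (nat_lit 0x301c8002806c00028080008002000200080c0b82))) 
(.lf (nat_lit 6377267322) (dlOf (nat_lit 1) (nat_lit 0x80080004002000200080c0c83)))))) 
(.nd (nat_lit 7) (.nd (nat_lit 11) (.nd (nat_lit 26) 
(.lf (nat_lit 5100626298) (dlOf (nat_lit 1) (nat_lit 0xb0008001000200020008105983))) 
(.lf (nat_lit 3557122426) (dlOf (nat_lit 2) (nat_lit 0xc0000003102007a0008130b01)))) 
(.nd (nat_lit 21) 
(.lf (nat_lit 3490539898) (dlOf (nat_lit 1) (nat_lit 0x1a00080004002002e0008004e83))) 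
(.lf (nat_lit 36530554) (dlOf (nat_lit 1) (nat_lit 0x40019074e81))))) (.nd (nat_lit 10) 
(.nd (nat_lit 12) 
(.lf (nat_lit 12411386) (dlOf (nat_lit 2) (nat_lit 0x8eea80000e040174004000200186c0d82))) 
(.lf (nat_lit 1007514106) (dlOf (nat_lit 1) (nat_lit 0x3200183d8681)))) 
(.lf (nat_lit 3624234490) (dlOf (nat_lit 2) (nat_lit 0x800000002818146f80)))))))) (.nd (nat_lit 26) 
(.nd (nat_lit 19) (.nd (nat_lit 28) (.nd (nat_lit 18) (.nd (nat_lit 27) (.nd (nat_lit 6) 
(.lf (nat_lit 20048698) (dlOf (nat_lit 1) (nat_lit 0x4002000200089d5c02))) (.nd (nat_lit 8) 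
(.lf (nat_lit 7463034) (dlOf (nat_lit 1) (nat_lit 0x600084b0481))) 
(.lf (nat_lit 5368832378) (dlOf (nat_lit 1) (nat_lit 0x228008000c00201cc0008035983))))) 
(.nd (nat_lit 6) (.lf (nat_lit 134343866) (dlOf (nat_lit 2) (nat_lit 0x404100011818006300))) 
(.nd (nat_lit 30) (.lf (nat_lit 4966178938) (dlOf (nat_lit 1) (nat_lit 0x60018030b81))) 
(.lf (nat_lit 1744953466) (dlOf (nat_lit 2) (nat_lit 0x100cc0003004000800400140018090282)))))) 
(.nd (nat_lit 21) (.nd (nat_lit 7) 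
(.lf (nat_lit 1433658) (dlOf (nat_lit 1) (nat_lit 0x2400280c0d01))) (.nd (nat_lit 27) 
(.lf (nat_lit 4295352506) (dlOf (nat_lit 1) (nat_lit 0x2e000181a0381))) 
(.lf (nat_lit 4429570234) (dlOf (nat_lit 1) (nat_lit 0x2e000181a0381))))) (.nd (nat_lit 6) 
(.nd (nat_lit 24) (.lf (nat_lit 11919546) (dlOf (nat_lit 1) (nat_lit 0x600286c0381))) 
(.lf (nat_lit 28696762) (dlOf (nat_lit 1) (nat_lit 0x40018da0481)))) 
(.lf (nat_lit 58056826) (dlOf (nat_lit 1) (nat_lit 0x800800c0002003600097b2b03)))))) 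
(.nd (nat_lit 29) (.nd (nat_lit 30) (.nd (nat_lit 27) 
(.lf (nat_lit 2416042042) (dlOf (nat_lit 5) (nat_lit 0x220070000a80401cc03a00e6017007300200014818048809002cc04401b2020008300f80eb007004cc02e00a0015012100000012c40000807c000840401c800400d80018020682))) 
(.lf (nat_lit 2550259770) (dlOf (nat_lit 5) (nat_lit 0x220074000a80401cc03800e6017007300200014818048809802cc04401b2020008300f80eb007404cc02e00a0015012100000012c40000807c0008a0401c800400d80018020682)))) 
(.nd (nat_lit 7) (.lf (nat_lit 3490832442) (dlOf (nat_lit 2) (nat_lit 0x9a03800025818020680))) 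
(.lf (nat_lit 1342303418) (dlOf (nat_lit 1) (nat_lit 0x10008000400200020008006303))))) 
(.nd (nat_lit 7) (.nd (nat_lit 6) (.nd (nat_lit 18) 
(.lf (nat_lit 4026654778) (dlOf (nat_lit 3) (nat_lit 0x1f680d4116006808840310461018020c00a81194052069e02300b90060001484003100d40304068013e03100c3018006180a802e4052017a0230007011005680300009624004400400120018020682))) 
(.lf (nat_lit 1881530426) (dlOf (nat_lit 1) (nat_lit 0x580080050002000a0008f40583)))) 
(.lf (nat_lit 6174141050) (dlOf (nat_lit 1) (nat_lit 0x20028055401)))) (.nd (nat_lit 11) 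
(.lf (nat_lit 2952913082) (dlOf (nat_lit 1) (nat_lit 0x30004004a0008010382))) 
(.lf (nat_lit 939649210) (dlOf (nat_lit 1) (nat_lit 0x400400020008144902))))))) (.nd (nat_lit 6) 
(.nd (nat_lit 20) (.nd (nat_lit 10) (.nd (nat_lit 11) (.nd (nat_lit 27) 
(.lf (nat_lit 537518138) (dlOf (nat_lit 1) (nat_lit 0x2400280a0c01))) 
(.lf (nat_lit 134864954) (dlOf (nat_lit 2) (nat_lit 0x154031000000180d0b80)))) 
(.lf (nat_lit 3492673594) (dlOf (nat_lit 2) (nat_lit 0xa216000110a0007882000e400000aef08000800080fa601)))) 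
(.lf (nat_lit 648250) (dlOf (nat_lit 1) (nat_lit 0x4004000e0018002882)))) (.nd (nat_lit 18) 
(.nd (nat_lit 10) 
(.lf (nat_lit 3792954) (dlOf (nat_lit 2) (nat_lit 0x1d968000000800080080014002000e0008220b83))) 
(.lf (nat_lit 49931322) (dlOf (nat_lit 1) (nat_lit 0x1000294c2881)))) (.nd (nat_lit 7) 
(.lf (nat_lit 16638010) (dlOf (nat_lit 3) (nat_lit 0x14000000280200020000000f8188c0900))) 
(.lf (nat_lit 5773320378) (dlOf (nat_lit 1) (nat_lit 0x4002000200080c1702)))))) (.nd (nat_lit 8) 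
(.nd (nat_lit 11) (.nd (nat_lit 18) 
(.lf (nat_lit 50978938) (dlOf (nat_lit 1) (nat_lit 0x3000194e2b01))) 
(.lf (nat_lit 7200890) (dlOf (nat_lit 2) (nat_lit 0xebda000e902000200184b0481)))) 
(.lf (nat_lit 7989370) (dlOf (nat_lit 1) (nat_lit 0x400200020008514782)))) (.nd (nat_lit 7) 
(.nd (nat_lit 9) 
(.lf (nat_lit 3490572666) (dlOf (nat_lit 1) (nat_lit 0x2200080004002003c0008004e83))) 
(.lf (nat_lit 651130) (dlOf (nat_lit 1) (nat_lit 0x40018007781)))) (.nd (nat_lit 12) 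
(.lf (nat_lit 61728250) (dlOf (nat_lit 1) (nat_lit 0x400400020009923682))) 
(.lf (nat_lit 20575738) (dlOf (nat_lit 2) (nat_lit 0x9aadc0053f0189d9c00)))))))) (.nd (nat_lit 27) 
(.nd (nat_lit 31) (.nd (nat_lit 18) (.nd (nat_lit 11) (.nd (nat_lit 7) 
(.lf (nat_lit 1409933370) (dlOf (nat_lit 1) (nat_lit 0x400180a0b81))) 
(.lf (nat_lit 872538298) (dlOf (nat_lit 1) (nat_lit 0x40028090701)))) (.nd (nat_lit 6) 
(.lf (nat_lit 1677851194) (dlOf (nat_lit 1) (nat_lit 0x10008000c0020004000811b403))) 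
(.lf (nat_lit 4362201210) (dlOf (nat_lit 1) (nat_lit 0xc00200020008004782))))) (.nd (nat_lit 8) 
(.nd (nat_lit 6) (.lf (nat_lit 1946542138) (dlOf (nat_lit 1) (nat_lit 0x200180c1381))) 
(.lf (nat_lit 604364922) (dlOf (nat_lit 18) (nat_lit 0x60016001700a80128000002a20c00c402c004a010004900000053c180148060012802c005601500550088004801c000800c006200300420000004ec4001a806001a402c0094015005a00880258040004400e0032006003b00180280008012000000139140004020000900b0004a81000d8058001400e001280400ba01600050038004981001c8058001400e0011504008a0160008a01002e00b0001001c00240000010f0600800160021003800100000021a0c00ac02c000e0070008002004600b0003ac0803b0058008400e000e904001e0160007281004700b000390080140058001c404015c004015600081a0482)))) 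
(.nd (nat_lit 10) (.lf (nat_lit 604365114) (dlOf (nat_lit 2) (nat_lit 0x4e03a005770181a0700))) 
(.lf (nat_lit 872801594) (dlOf (nat_lit 1) (nat_lit 0x1200280e3281)))))) (.nd (nat_lit 8) 
(.nd (nat_lit 10) (.nd (nat_lit 20) (.nd (nat_lit 28) 
(.lf (nat_lit 3288457274) (dlOf (nat_lit 3) (nat_lit 0x1f680d4116006808840310461018020c00a81194052069e02300b90060001484003100d40304068013e03100c3018006180a802e4052017a0230007011005680300009624004400400120018020682))) 
(.lf (nat_lit 2483150906) (dlOf (nat_lit 3) (nat_lit 0xc9008004300380024a0800ac020000200e00072028030d00)))) 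
(.lf (nat_lit 2752634938) (dlOf (nat_lit 2) (nat_lit 0x9a03800025818020680)))) 
(.lf (nat_lit 6509685818) (dlOf (nat_lit 1) (nat_lit 0x200018146081)))) (.nd (nat_lit 6) 
(.nd (nat_lit 7) (.lf (nat_lit 6509686074) (dlOf (nat_lit 1) (nat_lit 0xfc0028146901))) 
(.lf (nat_lit 4094288314) (dlOf (nat_lit 1) (nat_lit 0xc00400020008036f82)))) 
(.lf (nat_lit 2754996602) (dlOf (nat_lit 1) (nat_lit 0x4002000200080f4e82)))))) (.nd (nat_lit 28) 
(.nd (nat_lit 8) (.nd (nat_lit 31) (.nd (nat_lit 18) 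
(.lf (nat_lit 201973818) (dlOf (nat_lit 2) (nat_lit 0x154031000000180d0b80))) 
(.lf (nat_lit 4496678970) (dlOf (nat_lit 1) (nat_lit 0x400200020008120482)))) (.nd (nat_lit 9) 
(.lf (nat_lit 2348933178) (dlOf (nat_lit 3) (nat_lit 0xc9008004300380024a0800ac020000200e00072028030d00))) 
(.lf (nat_lit 3959552570) (dlOf (nat_lit 1) (nat_lit 0x2001811b401))))) (.nd (nat_lit 6) 
(.nd (nat_lit 10) 
(.lf (nat_lit 738320698) (dlOf (nat_lit 1) (nat_lit 0x800804f000203ae0008090b83))) 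
(.lf (nat_lit 1812065594) (dlOf (nat_lit 1) (nat_lit 0xc0028146901)))) 
(.lf (nat_lit 3959552506) (dlOf (nat_lit 1) (nat_lit 0x180040002000811b282))))) (.nd (nat_lit 6) 
(.nd (nat_lit 10) (.nd (nat_lit 18) 
(.lf (nat_lit 3691110586) (dlOf (nat_lit 1) (nat_lit 0x40008010381))) 
(.lf (nat_lit 2080759994) (dlOf (nat_lit 1) (nat_lit 0x800180c1701)))) (.nd (nat_lit 7) 
(.lf (nat_lit 472769850) (dlOf (nat_lit 1) (nat_lit 0x20018b03281))) 
(.lf (nat_lit 474080442) (dlOf (nat_lit 4) (nat_lit 0x1e168001500b800300540006c0c002c2d00003402001a168001200b8000001001d0008007c00200160009082c83))))) 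
(.nd (nat_lit 9) (.nd (nat_lit 7) 
(.lf (nat_lit 2080759930) (dlOf (nat_lit 1) (nat_lit 0x600080c0b81))) 
(.lf (nat_lit 6376513786) (dlOf (nat_lit 1) (nat_lit 0x400200020008090a82)))) (.nd (nat_lit 10) 
(.lf (nat_lit 6376778362) (dlOf (nat_lit 1) (nat_lit 0x400200da0008095402))) 
(.lf (nat_lit 6375728762) (dlOf (nat_lit 1) (nat_lit 0x38008000400200080008003983))))))))))) 
(.nd (nat_lit 15) (.nd (nat_lit 5) (.nd (nat_lit 18) (.nd (nat_lit 6) (.nd (nat_lit 19) 
(.nd (nat_lit 11) (.nd (nat_lit 8) (.nd (nat_lit 24) (.nd (nat_lit 20) (.nd (nat_lit 26) 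
(.lf (nat_lit 402743326) (dlOf (nat_lit 1) (nat_lit 0x400400020008090002))) 
(.lf (nat_lit 335634462) (dlOf (nat_lit 1) (nat_lit 0x400400020008090002)))) 
(.lf (nat_lit 1343315998) (dlOf (nat_lit 2) (nat_lit 0x2d201500014808008000802d0002009400081e0583)))) 
(.nd (nat_lit 21) 
(.lf (nat_lit 21061662) (dlOf (nat_lit 2) (nat_lit 0x86a5802fa408014800800e000200220008a00703))) 
(.lf (nat_lit 27353118) (dlOf (nat_lit 1) (nat_lit 0x20018cd0681))))) (.nd (nat_lit 27) 
(.nd (nat_lit 7) (.lf (nat_lit 3493945630) (dlOf (nat_lit 1) (nat_lit 0x30004000200181b0482))) 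
(.lf (nat_lit 6241215902) (dlOf (nat_lit 2) (nat_lit 0x4014000ad018053600)))) (.nd (nat_lit 9) 
(.lf (nat_lit 4697711902) (dlOf (nat_lit 4) (nat_lit 0xa0090000a00800a00480004e040024024000080200080028093101))) 
(.lf (nat_lit 939616030) (dlOf (nat_lit 1) (nat_lit 0x20018143c81)))))) (.nd (nat_lit 7) 
(.nd (nat_lit 8) (.nd (nat_lit 12) 
(.lf (nat_lit 1812033054) (dlOf (nat_lit 1) (nat_lit 0x60008147101))) 
(.lf (nat_lit 97822) (dlOf (nat_lit 1) (nat_lit 0x12000800840020016000800cf03)))) (.nd (nat_lit 10) 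
(.lf (nat_lit 536963358) (dlOf (nat_lit 1) (nat_lit 0x400200020008004b82))) 
(.lf (nat_lit 97566) (dlOf (nat_lit 1) (nat_lit 0x2000800c601))))) (.nd (nat_lit 21) 
(.nd (nat_lit 26) (.lf (nat_lit 134311070) (dlOf (nat_lit 1) (nat_lit 0x7e0018006281))) 
(.nd (nat_lit 27) (.lf (nat_lit 3825298590) (dlOf (nat_lit 1) (nat_lit 0x60028146281))) 
(.lf (nat_lit 2885774494) (dlOf (nat_lit 4) (nat_lit 0x100000000c8100030000000540800c00000002804018400200260008006282))))) 
(.nd (nat_lit 9) 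
(.lf (nat_lit 2754702494) (dlOf (nat_lit 2) (nat_lit 0x282b400046040008002000200080f6282))) 
(.lf (nat_lit 56715934) (dlOf (nat_lit 1) (nat_lit 0x8008000400200020009735583))))))) 
(.nd (nat_lit 21) (.nd (nat_lit 26) (.nd (nat_lit 20) (.nd (nat_lit 23) 
(.lf (nat_lit 805920798) (dlOf (nat_lit 2) (nat_lit 0x600000004a02003600181f0b01))) 
(.lf (nat_lit 42557470) (dlOf (nat_lit 2) (nat_lit 0x54000000000080010008011000200700009260103)))) 
(.lf (nat_lit 5857310) (dlOf (nat_lit 1) (nat_lit 0x400183f0681)))) (.nd (nat_lit 27) 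
(.lf (nat_lit 1678336030) (dlOf (nat_lit 2) (nat_lit 0x600000004a02003600181f0b01))) 
(.lf (nat_lit 1007247390) (dlOf (nat_lit 1) (nat_lit 0x800182a0481))))) (.nd (nat_lit 20) 
(.nd (nat_lit 7) (.nd (nat_lit 22) (.nd (nat_lit 28) 
(.lf (nat_lit 2711582) (dlOf (nat_lit 1) (nat_lit 0x4004000200181a0b02))) 
(.lf (nat_lit 1881759774) (dlOf (nat_lit 2) (nat_lit 0x3b8384000c11c003c0780001d839000100)))) 
(.lf (nat_lit 6905886) (dlOf (nat_lit 1) (nat_lit 0x40018480681)))) 
(.lf (nat_lit 61432990) (dlOf (nat_lit 1) (nat_lit 0x20029922b81)))) (.nd (nat_lit 26) 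
(.nd (nat_lit 28) (.lf (nat_lit 3760158) (dlOf (nat_lit 1) (nat_lit 0x60028220a01))) 
(.lf (nat_lit 3493421086) (dlOf (nat_lit 1) (nat_lit 0x140028130481)))) 
(.lf (nat_lit 2755223582) (dlOf (nat_lit 1) (nat_lit 0x400400020018130482))))))) (.nd (nat_lit 29) 
(.nd (nat_lit 26) (.nd (nat_lit 9) (.nd (nat_lit 10) (.nd (nat_lit 7) 
(.lf (nat_lit 1342792030) (dlOf (nat_lit 1) (nat_lit 0x4002000200080c0682))) 
(.lf (nat_lit 1342271966) (dlOf (nat_lit 2) (nat_lit 0x308840095c040044004003e0008008682)))) 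
(.nd (nat_lit 11) 
(.lf (nat_lit 91486) (dlOf (nat_lit 3) (nat_lit 0x40d1c00206700010336800819080040b78002057c00102928008147400409ba00204da00102510000a85800285a40005004001c00200060008003402))) 
(.lf (nat_lit 3489754462) (dlOf (nat_lit 1) (nat_lit 0x400200020008006a82))))) (.nd (nat_lit 7) 
(.nd (nat_lit 12) (.lf (nat_lit 8480606) (dlOf (nat_lit 1) (nat_lit 0x20018513f81))) 
(.lf (nat_lit 7960414) (dlOf (nat_lit 1) (nat_lit 0x2001851a301)))) 
(.lf (nat_lit 620254) (dlOf (nat_lit 1) (nat_lit 0x2002800a001))))) (.nd (nat_lit 8) 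
(.nd (nat_lit 11) (.nd (nat_lit 9) 
(.lf (nat_lit 5838561374) (dlOf (nat_lit 1) (nat_lit 0x80080004002000200080a1283))) 
(.lf (nat_lit 2617336414) (dlOf (nat_lit 1) (nat_lit 0x4002000400080a1702)))) (.nd (nat_lit 7) 
(.lf (nat_lit 69823070) (dlOf (nat_lit 1) (nat_lit 0x20028cd5381))) 
(.lf (nat_lit 3556862686) (dlOf (nat_lit 3) (nat_lit 0x4805c002002c000e00e00090060004001800240080010000000198700060030000c40800700080024002000a00080d5903))))) 
(.nd (nat_lit 19) (.nd (nat_lit 27) 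
(.lf (nat_lit 2483118430) (dlOf (nat_lit 3) (nat_lit 0x1000000012810003016000074080030008006800200220008014e83))) 
(.lf (nat_lit 2348900702) (dlOf (nat_lit 1) (nat_lit 0x98008002c00200160008014e83)))) 
(.lf (nat_lit 470376798) (dlOf (nat_lit 1) (nat_lit 0x4002000200080c0682)))))) (.nd (nat_lit 11) 
(.nd (nat_lit 7) (.nd (nat_lit 8) 
(.lf (nat_lit 4095303774) (dlOf (nat_lit 2) (nat_lit 0x140860000a818090700))) (.nd (nat_lit 19) 
(.lf (nat_lit 2818663774) (dlOf (nat_lit 5) (nat_lit 0x540ae000340200ae016005a00a802c8038016c01800ae0060057002002a8000000661c000401c0088006000188200120000000300800800080074002000200080d3403))) 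
(.lf (nat_lit 1611228510) (dlOf (nat_lit 1) (nat_lit 0x360028123401))))) (.nd (nat_lit 8) 
(.lf (nat_lit 6241215710) (dlOf (nat_lit 2) (nat_lit 0x401200013818052e00))) (.nd (nat_lit 27) 
(.lf (nat_lit 536962014) (dlOf (nat_lit 1) (nat_lit 0x400200020008002882))) 
(.lf (nat_lit 3892405214) (dlOf (nat_lit 1) (nat_lit 0xc0008102881)))))) (.nd (nat_lit 8) 
(.nd (nat_lit 9) (.lf (nat_lit 3087100126) (dlOf (nat_lit 2) (nat_lit 0x2000000006818144a80))) 
(.nd (nat_lit 10) (.lf (nat_lit 738814686) (dlOf (nat_lit 1) (nat_lit 0x2e4004015e0008125902))) 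
(.lf (nat_lit 2885775070) (dlOf (nat_lit 1) (nat_lit 0x1980080118002005e0008007383))))) 
(.nd (nat_lit 7) (.nd (nat_lit 27) 
(.lf (nat_lit 3825297758) (dlOf (nat_lit 1) (nat_lit 0x400400020008144e82))) 
(.lf (nat_lit 1812031838) (dlOf (nat_lit 1) (nat_lit 0x400400020008144e82)))) (.nd (nat_lit 27) 
(.lf (nat_lit 3825297886) (dlOf (nat_lit 1) (nat_lit 0x880018144e81))) 
(.lf (nat_lit 1812031966) (dlOf (nat_lit 1) (nat_lit 0x260018144e81))))))))) (.nd (nat_lit 21) 
(.nd (nat_lit 28) (.nd (nat_lit 20) (.nd (nat_lit 31) (.nd (nat_lit 19) (.nd (nat_lit 6) 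
(.lf (nat_lit 46489886) (dlOf (nat_lit 1) (nat_lit 0x780029380a81))) 
(.lf (nat_lit 4429541086) (dlOf (nat_lit 1) (nat_lit 0x20008117381)))) (.nd (nat_lit 22) 
(.lf (nat_lit 42819614) (dlOf (nat_lit 2) (nat_lit 0x6854d00000019280100))) 
(.lf (nat_lit 21848094) (dlOf (nat_lit 1) (nat_lit 0x20028a70481))))) (.nd (nat_lit 26) 
(.nd (nat_lit 27) (.lf (nat_lit 3758448670) (dlOf (nat_lit 1) (nat_lit 0x9800281c0581))) 
(.lf (nat_lit 3892666398) (dlOf (nat_lit 6) (nat_lit 0x2f019001780c000da05a007002a803780d0004805e00bc028005d00a003d000c000522401240280002802014206400020310052018002300b4014205500a101a000700bc02880500158014009900180009c500148168000340400a40b4000130200660018180101)))) 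
(.nd (nat_lit 8) (.lf (nat_lit 3288686622) (dlOf (nat_lit 2) (nat_lit 0x8a02d007f58180c0a80))) 
(.lf (nat_lit 2886035742) (dlOf (nat_lit 1) (nat_lit 0x2e0028144b81)))))) (.nd (nat_lit 19) 
(.nd (nat_lit 6) (.nd (nat_lit 7) 
(.lf (nat_lit 2752864286) (dlOf (nat_lit 1) (nat_lit 0xf8008000400200020008050683))) 
(.lf (nat_lit 51733662) (dlOf (nat_lit 1) (nat_lit 0x800200020009512b82)))) (.nd (nat_lit 7) 
(.lf (nat_lit 9789534) (dlOf (nat_lit 2) (nat_lit 0xce5e80000a818580700))) 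
(.lf (nat_lit 43345118) (dlOf (nat_lit 1) (nat_lit 0x1480080044002000200092a2e03))))) 
(.nd (nat_lit 24) (.nd (nat_lit 8) 
(.lf (nat_lit 14508062) (dlOf (nat_lit 1) (nat_lit 0x2800200320008760502))) 
(.lf (nat_lit 43869470) (dlOf (nat_lit 2) (nat_lit 0x106070000980801780080018002002600092a3103)))) 
(.nd (nat_lit 23) (.lf (nat_lit 18702366) (dlOf (nat_lit 1) (nat_lit 0x400400020018960682))) 
(.lf (nat_lit 27090974) (dlOf (nat_lit 2) (nat_lit 0xb6380009604008c004004a0008ca0582))))))) 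
(.nd (nat_lit 27) (.nd (nat_lit 31) (.nd (nat_lit 6) (.nd (nat_lit 7) 
(.lf (nat_lit 1342529566) (dlOf (nat_lit 1) (nat_lit 0x2a0018050b81))) 
(.lf (nat_lit 5100626078) (dlOf (nat_lit 1) (nat_lit 0x60018101301)))) 
(.lf (nat_lit 4563755102) (dlOf (nat_lit 2) (nat_lit 0x80a400024040010004001200180d0702)))) 
(.nd (nat_lit 6) (.nd (nat_lit 20) 
(.lf (nat_lit 4026884126) (dlOf (nat_lit 2) (nat_lit 0x8a02d0083c0180c0a80))) 
(.lf (nat_lit 3491061790) (dlOf (nat_lit 1) (nat_lit 0xf8008000400200020008050683)))) 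
(.lf (nat_lit 3557122398) (dlOf (nat_lit 1) (nat_lit 0x70008001400200380008130903))))) 
(.nd (nat_lit 6) (.nd (nat_lit 29) (.nd (nat_lit 31) 
(.lf (nat_lit 470114334) (dlOf (nat_lit 1) (nat_lit 0x2a0018050b81))) 
(.lf (nat_lit 2617597982) (dlOf (nat_lit 3) (nat_lit 0xe0340003d01001301a000e00cc000e608000400400200008100482)))) 
(.lf (nat_lit 3154468894) (dlOf (nat_lit 1) (nat_lit 0xd0008000c002006800081a0103)))) 
(.nd (nat_lit 29) 
(.lf (nat_lit 4697972830) (dlOf (nat_lit 2) (nat_lit 0x80a400024040010004001200180d0702))) 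
(.lf (nat_lit 5234843742) (dlOf (nat_lit 1) (nat_lit 0x20018100701))))))) (.nd (nat_lit 19) 
(.nd (nat_lit 7) (.nd (nat_lit 6) (.nd (nat_lit 8) (.nd (nat_lit 20) 
(.lf (nat_lit 48586782) (dlOf (nat_lit 1) (nat_lit 0x2000400020009420102))) 
(.lf (nat_lit 37052446) (dlOf (nat_lit 1) (nat_lit 0x28008009800200700009090103)))) 
(.lf (nat_lit 4096091422) (dlOf (nat_lit 1) (nat_lit 0x200280e3101)))) (.nd (nat_lit 8) 
(.nd (nat_lit 28) (.lf (nat_lit 2449502) (dlOf (nat_lit 1) (nat_lit 0xb00080004002000c0008161283))) 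
(.lf (nat_lit 3492110430) (dlOf (nat_lit 1) (nat_lit 0x4004000200080a1302)))) 
(.lf (nat_lit 3498334) (dlOf (nat_lit 1) (nat_lit 0x400400020008200682))))) (.nd (nat_lit 8) 
(.nd (nat_lit 9) (.lf (nat_lit 20282526) (dlOf (nat_lit 1) (nat_lit 0x200289dc201))) 
(.lf (nat_lit 36006558) (dlOf (nat_lit 1) (nat_lit 0xc00200060009015582)))) (.nd (nat_lit 9) 
(.lf (nat_lit 69560734) (dlOf (nat_lit 1) (nat_lit 0x12800800c800200540008b44e83))) 
(.lf (nat_lit 20280222) (dlOf (nat_lit 1) (nat_lit 0x1c002000400089d9102)))))) (.nd (nat_lit 20) 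
(.nd (nat_lit 7) (.nd (nat_lit 24) (.nd (nat_lit 26) 
(.lf (nat_lit 3492634654) (dlOf (nat_lit 11) (nat_lit 0x2f420b0011781005b1058008b408032883c0a0841a060a1f402b30e0815106a80a98000002260c001020f012f0fa006380000043e0c007041e0020c02009a20b000fe0100041058007e008006082c003ea0405f041602c81ba01250000007c818028882c003e00401f400200c400080e0482))) 
(.lf (nat_lit 2754437150) (dlOf (nat_lit 11) (nat_lit 0x2f42200011781005b1100008b40803288900a08444060a20902b30e9815106fc0a98000002260c0010224012f10480638000004460c00704480020e02009a220000fd0100041100007e0080060880003ea0405f044002c81dc01250000007cc180288880003e00401f400200c400080e0482)))) 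
(.lf (nat_lit 19750942) (dlOf (nat_lit 1) (nat_lit 0x200289d0001)))) (.nd (nat_lit 6) 
(.lf (nat_lit 36530846) (dlOf (nat_lit 1) (nat_lit 0x1000200040009075582))) 
(.lf (nat_lit 19755742) (dlOf (nat_lit 1) (nat_lit 0x80080004002000200089d8c83))))) 
(.nd (nat_lit 22) (.nd (nat_lit 28) (.nd (nat_lit 8) 
(.lf (nat_lit 2755485726) (dlOf (nat_lit 1) (nat_lit 0x1000281a0581))) 
(.lf (nat_lit 54354206) (dlOf (nat_lit 1) (nat_lit 0x18008000400200020009650a83)))) 
(.nd (nat_lit 6) (.lf (nat_lit 3493683230) (dlOf (nat_lit 1) (nat_lit 0x1000281a0581))) 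
(.lf (nat_lit 1346199646) (dlOf (nat_lit 4) (nat_lit 0x3057c000120400241ae0000802001415f00000018e60880))))) 
(.nd (nat_lit 7) (.lf (nat_lit 24993822) (dlOf (nat_lit 1) (nat_lit 0x8008000400200020008bd0b03))) 
(.lf (nat_lit 8216734) (dlOf (nat_lit 1) (nat_lit 0x200018510501))))))))) (.nd (nat_lit 28) 
(.nd (nat_lit 19) (.nd (nat_lit 18) (.nd (nat_lit 7) (.nd (nat_lit 26) (.nd (nat_lit 8) 
(.nd (nat_lit 9) 
(.lf (nat_lit 3221315710) (dlOf (nat_lit 2) (nat_lit 0x2c051000c02700020134004006a001602700090130000808c0004044002e01f001f00f00028048003f42c006000400660018090082))) 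
(.lf (nat_lit 3355539070) (dlOf (nat_lit 1) (nat_lit 0x4004000200080a9d82)))) (.nd (nat_lit 6) 
(.lf (nat_lit 20015934) (dlOf (nat_lit 2) (nat_lit 0x398d000470189d5c00))) (.nd (nat_lit 11) 
(.lf (nat_lit 20017534) (dlOf (nat_lit 1) (nat_lit 0x400289d8381))) 
(.lf (nat_lit 53569918) (dlOf (nat_lit 1) (nat_lit 0x400080018002000c00095f4e83)))))) 
(.nd (nat_lit 6) (.nd (nat_lit 10) 
(.lf (nat_lit 2348900670) (dlOf (nat_lit 1) (nat_lit 0x128008000800200060008014c03))) 
(.nd (nat_lit 27) 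
(.lf (nat_lit 3825298750) (dlOf (nat_lit 1) (nat_lit 0x98008000400200100008146903))) 
(.lf (nat_lit 1812032830) (dlOf (nat_lit 1) (nat_lit 0x220028146901))))) (.nd (nat_lit 8) 
(.lf (nat_lit 3959513214) (dlOf (nat_lit 2) (nat_lit 0x2c051000c02700020134004006a001602700090130000808c0004044002e01f001f00f00028048003d02c006000400660018090082))) 
(.lf (nat_lit 4362168190) (dlOf (nat_lit 1) (nat_lit 0x520018004101)))))) (.nd (nat_lit 6) 
(.nd (nat_lit 20) (.nd (nat_lit 10) 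
(.lf (nat_lit 604070078) (dlOf (nat_lit 2) (nat_lit 0x300d80000004001800400220018010382))) 
(.nd (nat_lit 26) 
(.lf (nat_lit 134311102) (dlOf (nat_lit 2) (nat_lit 0x1402a001180f4024c0700002306001c0028006301))) 
(.lf (nat_lit 3825298622) (dlOf (nat_lit 1) (nat_lit 0x60028146301))))) (.nd (nat_lit 9) 
(.lf (nat_lit 20016318) (dlOf (nat_lit 2) (nat_lit 0xc19150060c378006bff8000460c0138004005600189d6302))) 
(.lf (nat_lit 20016830) (dlOf (nat_lit 1) (nat_lit 0x1000189d7281))))) (.nd (nat_lit 9) 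
(.nd (nat_lit 10) (.lf (nat_lit 1208049918) (dlOf (nat_lit 1) (nat_lit 0x400400080018090a82))) 
(.lf (nat_lit 8484094) (dlOf (nat_lit 1) (nat_lit 0xe000401240008519582)))) (.nd (nat_lit 8) 
(.nd (nat_lit 11) (.lf (nat_lit 8479486) (dlOf (nat_lit 1) (nat_lit 0x800400020018512102))) 
(.lf (nat_lit 97022) (dlOf (nat_lit 1) (nat_lit 0x2001800b981)))) 
(.lf (nat_lit 4362168318) (dlOf (nat_lit 1) (nat_lit 0x140018004701))))))) (.nd (nat_lit 29) 
(.nd (nat_lit 20) (.nd (nat_lit 6) (.nd (nat_lit 11) (.nd (nat_lit 23) 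
(.lf (nat_lit 6509912126) (dlOf (nat_lit 2) (nat_lit 0x580b0001c030000130400020018160701))) 
(.lf (nat_lit 25518142) (dlOf (nat_lit 1) (nat_lit 0x20028c10001)))) 
(.lf (nat_lit 4295325758) (dlOf (nat_lit 1) (nat_lit 0x800800040020002000811a683)))) 
(.nd (nat_lit 7) (.lf (nat_lit 52782718) (dlOf (nat_lit 1) (nat_lit 0x8008002000200120009573983))) 
(.lf (nat_lit 38102014) (dlOf (nat_lit 1) (nat_lit 0xc0009132881))))) (.nd (nat_lit 7) 
(.nd (nat_lit 10) (.lf (nat_lit 24469566) (dlOf (nat_lit 1) (nat_lit 0x400400020008ba0c02))) 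
(.lf (nat_lit 51733566) (dlOf (nat_lit 1) (nat_lit 0x1400200020009512882)))) (.nd (nat_lit 6) 
(.lf (nat_lit 13983934) (dlOf (nat_lit 1) (nat_lit 0x8008000400200020008750383))) 
(.lf (nat_lit 20278270) (dlOf (nat_lit 1) (nat_lit 0x44002003c00089d5f02)))))) (.nd (nat_lit 26) 
(.nd (nat_lit 30) (.nd (nat_lit 7) 
(.lf (nat_lit 2818924862) (dlOf (nat_lit 1) (nat_lit 0x38008000c002000a0008130703))) 
(.lf (nat_lit 2818924734) (dlOf (nat_lit 1) (nat_lit 0x58008002000200160008130383)))) 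
(.nd (nat_lit 27) 
(.lf (nat_lit 5905932350) (dlOf (nat_lit 2) (nat_lit 0x580ac001c030000140400020018160701))) 
(.lf (nat_lit 3892666430) (dlOf (nat_lit 1) (nat_lit 0x60008180481))))) (.nd (nat_lit 10) 
(.lf (nat_lit 4899299390) (dlOf (nat_lit 1) (nat_lit 0x20028100481))) 
(.lf (nat_lit 2886034494) (dlOf (nat_lit 1) (nat_lit 0x6e0028142881))))))) (.nd (nat_lit 20) 
(.nd (nat_lit 7) (.nd (nat_lit 11) (.nd (nat_lit 22) (.nd (nat_lit 29) (.nd (nat_lit 27) 
(.lf (nat_lit 3221839934) (dlOf (nat_lit 4) (nat_lit 0x78c08a01fa0420048004800154181578114049008400740330002a0302490230000810c000a20801a8004003200081a1402))) 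
(.lf (nat_lit 134832190) (dlOf (nat_lit 2) (nat_lit 0xc09e015a0000002a0280c1400)))) 
(.nd (nat_lit 10) 
(.lf (nat_lit 537485374) (dlOf (nat_lit 7) (nat_lit 0x3940960001c0202500300000d81011f025807500c00003408031c0960000b0200c004b0000501000802580002408014000800a4002001e00080a0c83))) 
(.lf (nat_lit 1611228222) (dlOf (nat_lit 1) (nat_lit 0x400400020008122882))))) (.nd (nat_lit 18) 
(.lf (nat_lit 55140414) (dlOf (nat_lit 1) (nat_lit 0x200296c0781))) 
(.lf (nat_lit 21848126) (dlOf (nat_lit 4) (nat_lit 0x770a0007360c01e80000001b060062e14004d6c180388000000340c0028000000130200680018a70701))))) 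
(.nd (nat_lit 6) (.lf (nat_lit 44657214) (dlOf (nat_lit 1) (nat_lit 0x1440009325201))) 
(.nd (nat_lit 10) (.lf (nat_lit 44657022) (dlOf (nat_lit 1) (nat_lit 0x80029324e81))) 
(.lf (nat_lit 621950) (dlOf (nat_lit 1) (nat_lit 0x76001800c901)))))) (.nd (nat_lit 9) 
(.nd (nat_lit 10) (.lf (nat_lit 537747646) (dlOf (nat_lit 1) (nat_lit 0xc00200020008155502))) 
(.lf (nat_lit 32072894) (dlOf (nat_lit 1) (nat_lit 0x60028ef2c81)))) (.nd (nat_lit 8) 
(.lf (nat_lit 620222) (dlOf (nat_lit 1) (nat_lit 0x2002800a001))) 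
(.lf (nat_lit 19753918) (dlOf (nat_lit 1) (nat_lit 0x200289d5d01)))))) (.nd (nat_lit 18) 
(.nd (nat_lit 8) (.nd (nat_lit 9) (.nd (nat_lit 21) 
(.lf (nat_lit 10051646) (dlOf (nat_lit 1) (nat_lit 0x80080074002000e00085b0703))) 
(.lf (nat_lit 3760190) (dlOf (nat_lit 2) (nat_lit 0x44c900000018220c00)))) 
(.lf (nat_lit 2753126974) (dlOf (nat_lit 2) (nat_lit 0x1c1fe00000018091080)))) (.nd (nat_lit 6) 
(.nd (nat_lit 7) (.lf (nat_lit 58286398) (dlOf (nat_lit 1) (nat_lit 0x80080004002004000097d7d03))) 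
(.lf (nat_lit 2753126846) (dlOf (nat_lit 1) (nat_lit 0x4a0028090881)))) 
(.lf (nat_lit 60386302) (dlOf (nat_lit 1) (nat_lit 0x39800801b0002005a0009845f03))))) 
(.nd (nat_lit 21) (.nd (nat_lit 23) 
(.lf (nat_lit 69034046) (dlOf (nat_lit 1) (nat_lit 0xc00400020018880602))) 
(.lf (nat_lit 27091006) (dlOf (nat_lit 1) (nat_lit 0x19400200960008ca0902)))) (.nd (nat_lit 6) 
(.lf (nat_lit 8217278) (dlOf (nat_lit 1) (nat_lit 0x178002004c0008511e82))) 
(.lf (nat_lit 12411006) (dlOf (nat_lit 3) (nat_lit 0x3baa000aa010004dcc8005480800080080008002001c00086c0083)))))))) 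
(.nd (nat_lit 30) (.nd (nat_lit 10) (.nd (nat_lit 31) (.nd (nat_lit 9) (.nd (nat_lit 7) 
(.nd (nat_lit 19) (.lf (nat_lit 1006723134) (dlOf (nat_lit 1) (nat_lit 0x20028020701))) 
(.lf (nat_lit 474570814) (dlOf (nat_lit 6) (nat_lit 0x4f0ab0028850c000c1980023d06028e15601530a1808904e8054419800fe0cb003d04b0097821001900e800fa073000d00c8008f05001c055801d8286002330401c815600f10a18008c410001850c004560400c4004000800091a0602)))) 
(.lf (nat_lit 4697710782) (dlOf (nat_lit 2) (nat_lit 0x40198000000800c0008011000200160008090783)))) 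
(.nd (nat_lit 6) 
(.lf (nat_lit 4563495742) (dlOf (nat_lit 2) (nat_lit 0x200660008e0200160028095c01))) 
(.lf (nat_lit 4563495550) (dlOf (nat_lit 1) (nat_lit 0x20028095481))))) (.nd (nat_lit 6) 
(.nd (nat_lit 7) (.nd (nat_lit 8) 
(.lf (nat_lit 2550489150) (dlOf (nat_lit 1) (nat_lit 0x800080c1401))) 
(.lf (nat_lit 2483118398) (dlOf (nat_lit 1) (nat_lit 0x128008000800200060008014c03)))) 
(.lf (nat_lit 2952880318) (dlOf (nat_lit 1) (nat_lit 0x2c00200080008010382)))) (.nd (nat_lit 7) 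
(.lf (nat_lit 2953142398) (dlOf (nat_lit 1) (nat_lit 0x60002005e0008160482))) 
(.lf (nat_lit 2416009726) (dlOf (nat_lit 1) (nat_lit 0x20028017e01)))))) (.nd (nat_lit 9) 
(.nd (nat_lit 20) (.nd (nat_lit 27) 
(.lf (nat_lit 268526654) (dlOf (nat_lit 1) (nat_lit 0x8008000400200020008052883))) 
(.nd (nat_lit 31) (.lf (nat_lit 939615294) (dlOf (nat_lit 1) (nat_lit 0x400400020008142882))) 
(.lf (nat_lit 3087098942) (dlOf (nat_lit 1) (nat_lit 0xc00400020008142882))))) (.nd (nat_lit 7) 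
(.lf (nat_lit 1007772734) (dlOf (nat_lit 1) (nat_lit 0x200287a2881))) 
(.lf (nat_lit 471692734) (dlOf (nat_lit 1) (nat_lit 0xa00183d9a01))))) (.nd (nat_lit 6) 
(.nd (nat_lit 7) (.lf (nat_lit 4697712190) (dlOf (nat_lit 2) (nat_lit 0xa01100009818093780))) 
(.lf (nat_lit 3087099838) (dlOf (nat_lit 1) (nat_lit 0x140018144381)))) (.nd (nat_lit 7) 
(.lf (nat_lit 469854078) (dlOf (nat_lit 1) (nat_lit 0x3e0018004101))) (.nd (nat_lit 8) 
(.lf (nat_lit 3087099646) (dlOf (nat_lit 1) (nat_lit 0x60028143b81))) 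
(.lf (nat_lit 469854206) (dlOf (nat_lit 1) (nat_lit 0x240018004701)))))))) (.nd (nat_lit 11) 
(.nd (nat_lit 7) (.nd (nat_lit 18) (.nd (nat_lit 31) (.nd (nat_lit 19) 
(.lf (nat_lit 1879138366) (dlOf (nat_lit 1) (nat_lit 0x20028020701))) 
(.lf (nat_lit 1409900606) (dlOf (nat_lit 7) (nat_lit 0x394096000340202500300001981011f025807500c00006408031c096000230200c004b0001101000802580008408014000800a4002001e00080a0c83)))) 
(.nd (nat_lit 9) 
(.lf (nat_lit 3492372542) (dlOf (nat_lit 3) (nat_lit 0x21e70002a81007c0fe0001500800c00080060002003800080c1403))) 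
(.lf (nat_lit 3491324478) (dlOf (nat_lit 2) (nat_lit 0x1c1ec00000018091080))))) (.nd (nat_lit 19) 
(.lf (nat_lit 1879400510) (dlOf (nat_lit 1) (nat_lit 0x400400020008121402))) 
(.lf (nat_lit 1346199614) (dlOf (nat_lit 4) (nat_lit 0x4206c80092408036858000e429a02020d9002806c001b8234001c0fa000e07c001238700350180007c00806a800800a000200320008e60603))))) 
(.nd (nat_lit 6) (.nd (nat_lit 8) (.nd (nat_lit 19) 
(.lf (nat_lit 6241476798) (dlOf (nat_lit 2) (nat_lit 0x46027002400d0000c81001980080128002001600080f1a83))) 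
(.lf (nat_lit 1410162878) (dlOf (nat_lit 1) (nat_lit 0xc00200020008155502)))) 
(.lf (nat_lit 3491324350) (dlOf (nat_lit 1) (nat_lit 0x4a0028090881)))) (.nd (nat_lit 18) 
(.lf (nat_lit 6241215742) (dlOf (nat_lit 1) (nat_lit 0x48008001400200100008052f03))) 
(.lf (nat_lit 4096091390) (dlOf (nat_lit 1) (nat_lit 0x400280e2f01)))))) (.nd (nat_lit 6) 
(.nd (nat_lit 7) (.nd (nat_lit 8) (.nd (nat_lit 9) 
(.lf (nat_lit 4026628158) (dlOf (nat_lit 1) (nat_lit 0x40020002000800a682))) 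
(.lf (nat_lit 1345940030) (dlOf (nat_lit 1) (nat_lit 0x20018e25201)))) 
(.lf (nat_lit 3624234302) (dlOf (nat_lit 1) (nat_lit 0x20008146901)))) (.nd (nat_lit 9) 
(.lf (nat_lit 3490016446) (dlOf (nat_lit 1) (nat_lit 0x60008006301))) 
(.lf (nat_lit 6377007806) (dlOf (nat_lit 1) (nat_lit 0x400200020008095782))))) (.nd (nat_lit 20) 
(.nd (nat_lit 7) 
(.lf (nat_lit 3623970942) (dlOf (nat_lit 2) (nat_lit 0x36406e001a03500990000000a8180170008014c002001c0008004783))) 
(.nd (nat_lit 26) (.lf (nat_lit 1342270718) (dlOf (nat_lit 1) (nat_lit 0x4c0018006601))) 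
(.lf (nat_lit 4227951870) (dlOf (nat_lit 1) (nat_lit 0x580018006601))))) (.nd (nat_lit 9) 
(.nd (nat_lit 18) (.lf (nat_lit 3492898942) (dlOf (nat_lit 1) (nat_lit 0x200180f4781))) 
(.lf (nat_lit 3493161086) (dlOf (nat_lit 1) (nat_lit 0x4002000400080f4782)))) 
(.lf (nat_lit 4095044222) (dlOf (nat_lit 1) (nat_lit 0x20028055481)))))))))) (.nd (nat_lit 5) 
(.nd (nat_lit 28) (.nd (nat_lit 6) (.nd (nat_lit 19) (.nd (nat_lit 29) (.nd (nat_lit 18) 
(.nd (nat_lit 7) (.nd (nat_lit 8) (.nd (nat_lit 9) (.nd (nat_lit 20) 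
(.lf (nat_lit 63037470) (dlOf (nat_lit 2) (nat_lit 0x849ca00861890001d8299c0100))) 
(.lf (nat_lit 28434462) (dlOf (nat_lit 1) (nat_lit 0x400400020018d90682)))) 
(.lf (nat_lit 11657758) (dlOf (nat_lit 1) (nat_lit 0x4004000200086c0d82)))) 
(.lf (nat_lit 20049182) (dlOf (nat_lit 1) (nat_lit 0x600189d6781)))) (.nd (nat_lit 9) 
(.nd (nat_lit 11) 
(.lf (nat_lit 8512670) (dlOf (nat_lit 1) (nat_lit 0x200008003c002000c0008512b83))) 
(.lf (nat_lit 134343838) (dlOf (nat_lit 2) (nat_lit 0x404100023818006280)))) 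
(.lf (nat_lit 6509686430) (dlOf (nat_lit 1) (nat_lit 0x400200020008147202))))) (.nd (nat_lit 26) 
(.nd (nat_lit 7) (.nd (nat_lit 20) 
(.lf (nat_lit 6442835998) (dlOf (nat_lit 1) (nat_lit 0x1c004003c00181d0a02))) 
(.lf (nat_lit 9822238) (dlOf (nat_lit 2) (nat_lit 0xf0000000760400c800200040008580102)))) 
(.lf (nat_lit 21356958) (dlOf (nat_lit 1) (nat_lit 0x800200020008a36b82)))) (.nd (nat_lit 9) 
(.lf (nat_lit 4362461214) (dlOf (nat_lit 1) (nat_lit 0x36000401000008090002))) 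
(.lf (nat_lit 201712158) (dlOf (nat_lit 1) (nat_lit 0x1e0008090d81)))))) (.nd (nat_lit 26) 
(.nd (nat_lit 9) (.nd (nat_lit 11) (.nd (nat_lit 18) 
(.lf (nat_lit 1610735646) (dlOf (nat_lit 1) (nat_lit 0x20008090001))) 
(.lf (nat_lit 537255966) (dlOf (nat_lit 2) (nat_lit 0x3604b0000b018070600)))) 
(.lf (nat_lit 5905704990) (dlOf (nat_lit 1) (nat_lit 0x100018144701)))) 
(.lf (nat_lit 1610737182) (dlOf (nat_lit 1) (nat_lit 0x20028093701)))) (.nd (nat_lit 7) 
(.nd (nat_lit 11) (.nd (nat_lit 18) 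
(.lf (nat_lit 738320414) (dlOf (nat_lit 1) (nat_lit 0x20008090001))) 
(.lf (nat_lit 4899332126) (dlOf (nat_lit 1) (nat_lit 0x400400020008120a82)))) 
(.lf (nat_lit 1677846558) (dlOf (nat_lit 1) (nat_lit 0xc00200240008114702)))) (.nd (nat_lit 8) 
(.lf (nat_lit 3825331358) (dlOf (nat_lit 1) (nat_lit 0x400200020008146282))) 
(.lf (nat_lit 4899071390) (dlOf (nat_lit 1) (nat_lit 0x1800200080008053602))))))) (.nd (nat_lit 20) 
(.nd (nat_lit 23) (.nd (nat_lit 21) (.nd (nat_lit 8) 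
(.lf (nat_lit 2819481630) (dlOf (nat_lit 1) (nat_lit 0x4002000200082b0682))) 
(.lf (nat_lit 50979102) (dlOf (nat_lit 4) (nat_lit 0x40e740012e02001e73a000818100063a200049d0c0007c080030004000600194e8002)))) 
(.nd (nat_lit 7) (.lf (nat_lit 2744350) (dlOf (nat_lit 1) (nat_lit 0x400281a0b01))) 
(.lf (nat_lit 53077150) (dlOf (nat_lit 1) (nat_lit 0x30008001c00200080009572b83))))) 
(.nd (nat_lit 22) (.nd (nat_lit 7) 
(.lf (nat_lit 42590238) (dlOf (nat_lit 2) (nat_lit 0x374d80025000000000080028004000e0009260102))) 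
(.lf (nat_lit 9040798) (dlOf (nat_lit 1) (nat_lit 0x400200020008519102)))) (.nd (nat_lit 21) 
(.lf (nat_lit 13230110) (dlOf (nat_lit 1) (nat_lit 0xb80080014002001e0008710b03))) 
(.lf (nat_lit 48881694) (dlOf (nat_lit 1) (nat_lit 0x50008002400200140009440103)))))) 
(.nd (nat_lit 18) (.nd (nat_lit 21) (.nd (nat_lit 23) 
(.lf (nat_lit 18472990) (dlOf (nat_lit 1) (nat_lit 0x8008000400200020008940683))) 
(.lf (nat_lit 26861598) (dlOf (nat_lit 1) (nat_lit 0x400400140008c80582)))) (.nd (nat_lit 22) 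
(.lf (nat_lit 2755256350) (dlOf (nat_lit 2) (nat_lit 0x388700000004000800400060018140b82))) 
(.lf (nat_lit 16375838) (dlOf (nat_lit 1) (nat_lit 0x8008000400200020008890503))))) 
(.nd (nat_lit 7) (.nd (nat_lit 9) 
(.lf (nat_lit 39706654) (dlOf (nat_lit 2) (nat_lit 0x14c5c600762110035865801b40a00003b08000200191d0101))) 
(.lf (nat_lit 8257054) (dlOf (nat_lit 1) (nat_lit 0x40020002000851cf02)))) 
(.lf (nat_lit 8254110) (dlOf (nat_lit 1) (nat_lit 0x400200020008518c82))))))) (.nd (nat_lit 8) 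
(.nd (nat_lit 18) (.nd (nat_lit 7) (.nd (nat_lit 25) (.nd (nat_lit 32) 
(.lf (nat_lit 1140973662) (dlOf (nat_lit 3) (nat_lit 0x1e00880002a040090038000000200020018040701))) 
(.lf (nat_lit 5435940958) (dlOf (nat_lit 9) (nat_lit 0x100fc000c07a000803c000401d800480e8005006a000800b00040050000d04000700d4000660400b807e002203b001601d000900d8008406a000320a000a03a000c01a8000c41000100f80004a04001407e001803e000101d000300d40003e10003007e003803500040000000781800680fc001007c00260350006000000074200140008000c00200100008040703)))) 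
(.nd (nat_lit 9) (.lf (nat_lit 37348446) (dlOf (nat_lit 1) (nat_lit 0x80080004002000200090d2903))) 
(.lf (nat_lit 46262878) (dlOf (nat_lit 2) (nat_lit 0x36590001040800280080018002003a0009385383))))) 
(.nd (nat_lit 11) (.lf (nat_lit 30007518) (dlOf (nat_lit 1) (nat_lit 0x20008e30581))) 
(.lf (nat_lit 6442576094) (dlOf (nat_lit 1) (nat_lit 0x100080004002000200080f4a83))))) 
(.nd (nat_lit 7) (.nd (nat_lit 10) (.nd (nat_lit 20) 
(.lf (nat_lit 4496679006) (dlOf (nat_lit 3) (nat_lit 0x2100d003c004e022402300e60000000542009e80d0049c066027803200d8018005500840002414006800400160018120702))) 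
(.lf (nat_lit 9822302) (dlOf (nat_lit 10) (nat_lit 0x9a45000ad208001e8fc000f3b800059da0009c930002e0f0002306200034100011a450002d218009e904002b47e00099dc0005c1e0000cc30024e914011748600dfa410046cef8028e770011f062000320c0005a450003d218005e904000b47e00031080021a450001d218009e904002b3b80001f08001fa450004d21800c690400333b80001e080023a450001d218006690400233b80001d08000ba450005d21800ae904000380c00132c000098090004497000054180028008027800200200008580703)))) 
(.lf (nat_lit 38134878) (dlOf (nat_lit 1) (nat_lit 0x800200020009132902)))) (.nd (nat_lit 9) 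
(.lf (nat_lit 2886068446) (dlOf (nat_lit 2) (nat_lit 0xb020001700000001a08008800200380008144a82))) 
(.lf (nat_lit 1745218270) (dlOf (nat_lit 1) (nat_lit 0x13e00280e5901)))))) (.nd (nat_lit 11) 
(.nd (nat_lit 19) (.nd (nat_lit 9) 
(.lf (nat_lit 3268958) (dlOf (nat_lit 1) (nat_lit 0x1000400040008200682))) 
(.lf (nat_lit 2886068062) (dlOf (nat_lit 4) (nat_lit 0x807a0001602000e0000000a81000501e8000140800400080040002000a0008143f83)))) 
(.nd (nat_lit 7) 
(.lf (nat_lit 49931614) (dlOf (nat_lit 3) (nat_lit 0x122450000d008003151800066040004002000400094c3402))) 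
(.lf (nat_lit 652766) (dlOf (nat_lit 1) (nat_lit 0x20028009b01))))) (.nd (nat_lit 7) 
(.nd (nat_lit 18) (.lf (nat_lit 738322782) (dlOf (nat_lit 1) (nat_lit 0x240018094e81))) 
(.lf (nat_lit 1745217886) (dlOf (nat_lit 1) (nat_lit 0xd000280e4e81)))) (.nd (nat_lit 27) 
(.lf (nat_lit 1677851102) (dlOf (nat_lit 1) (nat_lit 0x7800800040020008000811b283))) 
(.lf (nat_lit 3959552478) (dlOf (nat_lit 2) (nat_lit 0x300b0030380800380080008002000a000811b283)))))))) 
(.nd (nat_lit 26) (.nd (nat_lit 6) (.nd (nat_lit 18) (.nd (nat_lit 8) (.nd (nat_lit 19) 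
(.lf (nat_lit 4026654750) (dlOf (nat_lit 1) (nat_lit 0x4b800401860008020482))) (.nd (nat_lit 20) 
(.lf (nat_lit 1342824478) (dlOf (nat_lit 1) (nat_lit 0x7200180e0a01))) 
(.lf (nat_lit 3493453854) (dlOf (nat_lit 2) (nat_lit 0x3881c0000004000800400060018140b82))))) 
(.nd (nat_lit 11) (.nd (nat_lit 27) 
(.lf (nat_lit 5100397854) (dlOf (nat_lit 1) (nat_lit 0x260018053101))) 
(.lf (nat_lit 402777374) (dlOf (nat_lit 1) (nat_lit 0x6000400480008093102)))) 
(.lf (nat_lit 805432606) (dlOf (nat_lit 2) (nat_lit 0x2804c0004804008400400040008116782))))) 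
(.nd (nat_lit 20) (.nd (nat_lit 32) (.nd (nat_lit 21) 
(.lf (nat_lit 1346756638) (dlOf (nat_lit 2) (nat_lit 0x7609c01cb04b00490234045010a0134083013f03e804f01f005100ea03a807300d20180000ec5000a800800ac00200580009000103))) 
(.lf (nat_lit 3492143134) (dlOf (nat_lit 1) (nat_lit 0x20004001000080a0902)))) (.nd (nat_lit 27) 
(.lf (nat_lit 5637529630) (dlOf (nat_lit 1) (nat_lit 0x800200220008100102))) 
(.lf (nat_lit 5234876446) (dlOf (nat_lit 9) (nat_lit 0x5002c00404040018034001eb02000a01a000f501000200d00079c080010068003cc040004034001e302000601a000f081000200d00077c080068008003800200300008120a83))))) 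
(.nd (nat_lit 7) (.nd (nat_lit 8) 
(.lf (nat_lit 3493716510) (dlOf (nat_lit 3) (nat_lit 0x201e000a781000c00e0001fc080220008001c002000c00081b0d83))) 
(.lf (nat_lit 5772797214) (dlOf (nat_lit 1) (nat_lit 0x20008093101)))) (.nd (nat_lit 8) 
(.lf (nat_lit 3491618974) (dlOf (nat_lit 1) (nat_lit 0x20018090201))) 
(.lf (nat_lit 1345710494) (dlOf (nat_lit 1) (nat_lit 0x20018dd4e81))))))) (.nd (nat_lit 10) 
(.nd (nat_lit 11) (.nd (nat_lit 7) (.nd (nat_lit 19) 
(.lf (nat_lit 2013388894) (dlOf (nat_lit 3) (nat_lit 0x1e00880002a040090038000000200020018040701))) 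
(.lf (nat_lit 5772009566) (dlOf (nat_lit 4) (nat_lit 0x1214f00080a700070534003028c001414500080a18000d03000185180006404002029e000a14e00080a180007c180090008000400200020008040703)))) 
(.lf (nat_lit 1343873246) (dlOf (nat_lit 2) (nat_lit 0x85940004204000800200060008370582)))) 
(.nd (nat_lit 8) (.lf (nat_lit 6174141022) (dlOf (nat_lit 1) (nat_lit 0x20028055381))) 
(.lf (nat_lit 805431646) (dlOf (nat_lit 1) (nat_lit 0x54002001c0008114e82))))) (.nd (nat_lit 7) 
(.nd (nat_lit 8) (.lf (nat_lit 805432926) (dlOf (nat_lit 1) (nat_lit 0xac002001a0008117182))) 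
(.lf (nat_lit 1345185118) (dlOf (nat_lit 2) (nat_lit 0x6216500008018b03400)))) (.nd (nat_lit 11) 
(.nd (nat_lit 18) (.lf (nat_lit 6308357342) (dlOf (nat_lit 1) (nat_lit 0x20028052e01))) 
(.lf (nat_lit 5772797150) (dlOf (nat_lit 1) (nat_lit 0x8008001000200020008092e03)))) 
(.lf (nat_lit 805436638) (dlOf (nat_lit 1) (nat_lit 0x2002811c481))))))) (.nd (nat_lit 29) 
(.nd (nat_lit 8) (.nd (nat_lit 18) (.nd (nat_lit 6) (.nd (nat_lit 7) 
(.lf (nat_lit 470409246) (dlOf (nat_lit 1) (nat_lit 0x7200180e0a01))) 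
(.lf (nat_lit 474080414) (dlOf (nat_lit 1) (nat_lit 0x400400060009082b82)))) (.nd (nat_lit 21) 
(.lf (nat_lit 1409933406) (dlOf (nat_lit 1) (nat_lit 0x3c00280a1301))) 
(.lf (nat_lit 472506462) (dlOf (nat_lit 1) (nat_lit 0x4000400020008991982))))) (.nd (nat_lit 19) 
(.nd (nat_lit 27) (.lf (nat_lit 1409671198) (dlOf (nat_lit 2) (nat_lit 0x3604b00015018070600))) 
(.lf (nat_lit 5838856222) (dlOf (nat_lit 1) (nat_lit 0x1c004003c00181d0a02)))) 
(.lf (nat_lit 3557679134) (dlOf (nat_lit 1) (nat_lit 0x4002000200082b0682))))) (.nd (nat_lit 6) 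
(.nd (nat_lit 7) (.nd (nat_lit 9) 
(.lf (nat_lit 2617373982) (dlOf (nat_lit 1) (nat_lit 0x1c004000200180a9702))) 
(.lf (nat_lit 2617369374) (dlOf (nat_lit 1) (nat_lit 0x200280a2101)))) 
(.lf (nat_lit 474343838) (dlOf (nat_lit 1) (nat_lit 0x20009164e81)))) (.nd (nat_lit 11) 
(.lf (nat_lit 472769886) (dlOf (nat_lit 2) (nat_lit 0xb02ca0001002000c0008b03401))) 
(.lf (nat_lit 1409416542) (dlOf (nat_lit 1) (nat_lit 0x40040002000800c902)))))) (.nd (nat_lit 19) 
(.nd (nat_lit 18) (.nd (nat_lit 7) 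
(.lf (nat_lit 5301723230) (dlOf (nat_lit 9) (nat_lit 0x100fc000c07a000803c000401d800480e8005006e000800b00040050000d04000700dc000660400b807e002203b001601d000900e0008406e000320a000a03a000c01b8000c41000100f80004a04001407e001803e000101d000300dc0003e10003007e003803700040000000781800680fc001007c00260370006000000074200140008000c00200100008040703))) 
(.nd (nat_lit 8) (.lf (nat_lit 4093766366) (dlOf (nat_lit 1) (nat_lit 0x4a000400e40008005902))) 
(.lf (nat_lit 872538590) (dlOf (nat_lit 1) (nat_lit 0x10002000c0008091282))))) (.nd (nat_lit 6) 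
(.lf (nat_lit 6241509406) (dlOf (nat_lit 1) (nat_lit 0x800200220008100102))) (.nd (nat_lit 8) 
(.lf (nat_lit 6376778334) (dlOf (nat_lit 1) (nat_lit 0x800200020008095382))) 
(.lf (nat_lit 872801630) (dlOf (nat_lit 2) (nat_lit 0x19c000000280200be00280e3401)))))) 
(.nd (nat_lit 6) (.nd (nat_lit 8) 
(.lf (nat_lit 4095336478) (dlOf (nat_lit 1) (nat_lit 0xa800200620008090102))) 
(.lf (nat_lit 6376251678) (dlOf (nat_lit 1) (nat_lit 0x160008090a81)))) (.nd (nat_lit 30) 
(.nd (nat_lit 7) (.lf (nat_lit 1007280478) (dlOf (nat_lit 1) (nat_lit 0x11e00182e0901))) 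
(.lf (nat_lit 1007280350) (dlOf (nat_lit 2) (nat_lit 0x201be0002102000a00082e0581)))) 
(.nd (nat_lit 20) 
(.lf (nat_lit 6375989342) (dlOf (nat_lit 4) (nat_lit 0x12140000809f800704f8003026e0014136000809a0000d03000184dc00064040020280000a13f000809a00007c180090008000400200020008040703))) 
(.lf (nat_lit 4095336542) (dlOf (nat_lit 3) (nat_lit 0x5b025c0002a04021012e000120200460028090701)))))))))) 
(.nd (nat_lit 18) (.nd (nat_lit 11) (.nd (nat_lit 28) (.nd (nat_lit 20) (.nd (nat_lit 30) 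
(.nd (nat_lit 6) (.nd (nat_lit 22) 
(.lf (nat_lit 2348933182) (dlOf (nat_lit 2) (nat_lit 0xdc01500a500a00000008000c00400200008030d82))) 
(.lf (nat_lit 12705854) (dlOf (nat_lit 2) (nat_lit 0xf40000001a02000200086d0c81)))) 
(.nd (nat_lit 8) (.lf (nat_lit 44163198) (dlOf (nat_lit 1) (nat_lit 0x3b0004004c00092d0d02))) 
(.lf (nat_lit 536995710) (dlOf (nat_lit 1) (nat_lit 0x400400020008004102))))) (.nd (nat_lit 26) 
(.nd (nat_lit 7) (.nd (nat_lit 9) 
(.lf (nat_lit 3221872702) (dlOf (nat_lit 3) (nat_lit 0x2800a8013e03f00820198001501801e0100000a2040004004001600181a1402))) 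
(.lf (nat_lit 1610737214) (dlOf (nat_lit 2) (nat_lit 0xaa01c0000d018093780)))) 
(.lf (nat_lit 5368832190) (dlOf (nat_lit 3) (nat_lit 0xa08026000330207fc01301440080000c81000d8008002c002000a0008031a83)))) 
(.nd (nat_lit 31) 
(.lf (nat_lit 5435940926) (dlOf (nat_lit 2) (nat_lit 0x501f8001f8080028008007800200160008040483))) 
(.lf (nat_lit 3288457278) (dlOf (nat_lit 1) (nat_lit 0x28008000800200040008020703)))))) 
(.nd (nat_lit 19) (.nd (nat_lit 9) 
(.lf (nat_lit 24240190) (dlOf (nat_lit 4) (nat_lit 0x53388000230200139c40001101000ace20000840800d0008000c00200020008b90c83))) 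
(.lf (nat_lit 11657790) (dlOf (nat_lit 1) (nat_lit 0x200286c1081)))) (.nd (nat_lit 7) 
(.nd (nat_lit 21) (.lf (nat_lit 10084414) (dlOf (nat_lit 1) (nat_lit 0x6a00185b0701))) 
(.lf (nat_lit 3792958) (dlOf (nat_lit 3) (nat_lit 0x1ed48005f50800242080013b52000fda50003ecf8001f50800240100034004000a0008220c02)))) 
(.lf (nat_lit 41542846) (dlOf (nat_lit 1) (nat_lit 0xa0019242c81)))))) (.nd (nat_lit 26) 
(.nd (nat_lit 10) (.nd (nat_lit 19) 
(.lf (nat_lit 4026654782) (dlOf (nat_lit 1) (nat_lit 0x28008000800200040008020703))) 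
(.nd (nat_lit 29) (.lf (nat_lit 1342824510) (dlOf (nat_lit 1) (nat_lit 0xe00080e0c01))) 
(.lf (nat_lit 805953598) (dlOf (nat_lit 2) (nat_lit 0xf0056005b0298034804c0009c0c004000400080008201402))))) 
(.nd (nat_lit 6) (.nd (nat_lit 9) 
(.lf (nat_lit 939648062) (dlOf (nat_lit 1) (nat_lit 0x800400040018142882))) 
(.lf (nat_lit 4697744958) (dlOf (nat_lit 2) (nat_lit 0x3c022000200e00009828093780)))) 
(.lf (nat_lit 3087132414) (dlOf (nat_lit 1) (nat_lit 0x400200020008143b82))))) (.nd (nat_lit 7) 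
(.nd (nat_lit 19) (.nd (nat_lit 27) 
(.lf (nat_lit 2483150910) (dlOf (nat_lit 2) (nat_lit 0xdc01500a500a00000008000c00400200008030d82))) 
(.lf (nat_lit 5301723198) (dlOf (nat_lit 2) (nat_lit 0x501f8001f8080028008007800200160008040483)))) 
(.lf (nat_lit 470409278) (dlOf (nat_lit 1) (nat_lit 0xe00080e0c01)))) (.nd (nat_lit 6) 
(.nd (nat_lit 8) (.lf (nat_lit 5167505598) (dlOf (nat_lit 1) (nat_lit 0xba0028071a81))) 
(.lf (nat_lit 4094288318) (dlOf (nat_lit 3) (nat_lit 0xe07f0010981000503f80080c0801a0008000400200020008037003)))) 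
(.lf (nat_lit 3020022014) (dlOf (nat_lit 1) (nat_lit 0x4002000200080e2902))))))) (.nd (nat_lit 8) 
(.nd (nat_lit 6) (.nd (nat_lit 26) (.nd (nat_lit 9) 
(.lf (nat_lit 20049086) (dlOf (nat_lit 1) (nat_lit 0x600189d6301))) (.nd (nat_lit 20) 
(.lf (nat_lit 805433022) (dlOf (nat_lit 1) (nat_lit 0xa0028117281))) 
(.lf (nat_lit 20049598) (dlOf (nat_lit 1) (nat_lit 0x80080004002000200089d7283))))) 
(.nd (nat_lit 7) (.nd (nat_lit 27) 
(.lf (nat_lit 1677851198) (dlOf (nat_lit 4) (nat_lit 0x98158004c0260006604001e0560003281000902b0002004c000000800840040018001811b482))) 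
(.lf (nat_lit 3959552574) (dlOf (nat_lit 6) (nat_lit 0x38118004407000340160003b83000b0230001d80800580bc000e204001804e0002d02000a046000202280000010000800800100020018000811b483)))) 
(.lf (nat_lit 3825331390) (dlOf (nat_lit 1) (nat_lit 0x1c0018146301))))) (.nd (nat_lit 7) 
(.nd (nat_lit 9) (.nd (nat_lit 29) 
(.lf (nat_lit 6509685886) (dlOf (nat_lit 1) (nat_lit 0x80018146101))) 
(.lf (nat_lit 3825331326) (dlOf (nat_lit 1) (nat_lit 0x8008000800200020008146103)))) 
(.lf (nat_lit 5234616958) (dlOf (nat_lit 1) (nat_lit 0x80028055481)))) (.nd (nat_lit 9) 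
(.lf (nat_lit 1409412350) (dlOf (nat_lit 1) (nat_lit 0x400400020008006602))) 
(.lf (nat_lit 40495870) (dlOf (nat_lit 1) (nat_lit 0x80080004002000200091f5a83)))))) 
(.nd (nat_lit 9) (.nd (nat_lit 6) (.nd (nat_lit 10) 
(.lf (nat_lit 1677846846) (dlOf (nat_lit 1) (nat_lit 0x400200020008114c82))) (.nd (nat_lit 28) 
(.lf (nat_lit 3221355838) (dlOf (nat_lit 1) (nat_lit 0x180080010002000a000811c903))) 
(.lf (nat_lit 805436734) (dlOf (nat_lit 1) (nat_lit 0x2800800080020002000811c903))))) 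
(.nd (nat_lit 7) (.lf (nat_lit 805431678) (dlOf (nat_lit 1) (nat_lit 0x1c00400200008114e82))) 
(.lf (nat_lit 3959552510) (dlOf (nat_lit 1) (nat_lit 0x1800800040020006000811b283))))) 
(.nd (nat_lit 6) (.nd (nat_lit 7) (.nd (nat_lit 12) 
(.lf (nat_lit 20048702) (dlOf (nat_lit 1) (nat_lit 0x4002000200089d5c02))) 
(.lf (nat_lit 129854) (dlOf (nat_lit 1) (nat_lit 0x144001800bc81)))) 
(.lf (nat_lit 738323390) (dlOf (nat_lit 1) (nat_lit 0x400400020008095d02)))) (.nd (nat_lit 7) 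
(.lf (nat_lit 1409416062) (dlOf (nat_lit 1) (nat_lit 0x40040002000800bc82))) 
(.lf (nat_lit 8518654) (dlOf (nat_lit 1) (nat_lit 0x40020002000851bf02)))))))) (.nd (nat_lit 20) 
(.nd (nat_lit 26) (.nd (nat_lit 25) (.nd (nat_lit 27) (.nd (nat_lit 22) (.nd (nat_lit 28) 
(.nd (nat_lit 29) (.lf (nat_lit 6442836030) (dlOf (nat_lit 1) (nat_lit 0x4004000a00181d0c02))) 
(.lf (nat_lit 1610997822) (dlOf (nat_lit 2) (nat_lit 0x3e055002f02a001100dc00a40440009608000800180b0481)))) 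
(.lf (nat_lit 4563787838) (dlOf (nat_lit 1) (nat_lit 0x400180e1681)))) (.nd (nat_lit 7) 
(.lf (nat_lit 3494240318) (dlOf (nat_lit 3) (nat_lit 0x806a0009881000e0350004bc0800180080014002001400081d0c03))) 
(.lf (nat_lit 21356734) (dlOf (nat_lit 1) (nat_lit 0x400400020008a31a82))))) (.nd (nat_lit 6) 
(.nd (nat_lit 7) (.lf (nat_lit 4698005566) (dlOf (nat_lit 1) (nat_lit 0x400180e1681))) 
(.lf (nat_lit 134603198) (dlOf (nat_lit 1) (nat_lit 0x400400040008090882)))) 
(.lf (nat_lit 1745217918) (dlOf (nat_lit 1) (nat_lit 0x5000280e4e81))))) (.nd (nat_lit 9) 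
(.nd (nat_lit 24) (.lf (nat_lit 42852414) (dlOf (nat_lit 1) (nat_lit 0x400400040009280602))) 
(.lf (nat_lit 59629630) (dlOf (nat_lit 2) (nat_lit 0x279100124819820600)))) (.nd (nat_lit 6) 
(.lf (nat_lit 51243582) (dlOf (nat_lit 7) (nat_lit 0x553480016c080052ca000314f60005a040002c130002401001c53d0000cc0800329e801314d000023040002b27004c53400007c100158008003000200400009515203))) 
(.lf (nat_lit 38134782) (dlOf (nat_lit 1) (nat_lit 0x4002000c0009132882)))))) (.nd (nat_lit 27) 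
(.nd (nat_lit 10) (.nd (nat_lit 6) (.nd (nat_lit 21) 
(.lf (nat_lit 2756042814) (dlOf (nat_lit 3) (nat_lit 0x806a0009101000e0350004800800180080014002001400081d0c03))) 
(.lf (nat_lit 2753945662) (dlOf (nat_lit 1) (nat_lit 0x800180a0c81)))) 
(.lf (nat_lit 604364926) (dlOf (nat_lit 3) (nat_lit 0x640160007e01003400b0003e00800400080014002000a00081a0483)))) 
(.nd (nat_lit 7) (.lf (nat_lit 872801598) (dlOf (nat_lit 1) (nat_lit 0x2400280e3281))) 
(.lf (nat_lit 2754473150) (dlOf (nat_lit 1) (nat_lit 0x4800080f6301))))) (.nd (nat_lit 7) 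
(.nd (nat_lit 10) (.nd (nat_lit 28) 
(.lf (nat_lit 738582590) (dlOf (nat_lit 2) (nat_lit 0x3e055002f02a001100dc00a40440009608000800180b0481))) 
(.lf (nat_lit 5838856254) (dlOf (nat_lit 1) (nat_lit 0x4004000a00181d0c02)))) 
(.lf (nat_lit 472769598) (dlOf (nat_lit 1) (nat_lit 0x20008b02881)))) (.nd (nat_lit 6) 
(.lf (nat_lit 201712062) (dlOf (nat_lit 1) (nat_lit 0x400400040008090882))) 
(.lf (nat_lit 201712126) (dlOf (nat_lit 1) (nat_lit 0x400400020008090d82))))))) (.nd (nat_lit 6) 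
(.nd (nat_lit 19) (.nd (nat_lit 25) (.nd (nat_lit 7) 
(.lf (nat_lit 9822270) (dlOf (nat_lit 1) (nat_lit 0x400400160018580482))) 
(.lf (nat_lit 14016702) (dlOf (nat_lit 1) (nat_lit 0xc00200020008750382)))) (.nd (nat_lit 21) 
(.lf (nat_lit 55959614) (dlOf (nat_lit 1) (nat_lit 0xa00296f0601))) 
(.lf (nat_lit 49668158) (dlOf (nat_lit 1) (nat_lit 0x40019480601))))) (.nd (nat_lit 7) 
(.nd (nat_lit 23) 
(.lf (nat_lit 25026622) (dlOf (nat_lit 2) (nat_lit 0x19bba800cdc0e0066df800336bb0019b5b40025a520066cfe001c67a8019b31400cd97e0066c820033614000138600060008003000200300008be1403))) 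
(.lf (nat_lit 16638014) (dlOf (nat_lit 1) (nat_lit 0x2a00088c0a01)))) 
(.lf (nat_lit 43901374) (dlOf (nat_lit 1) (nat_lit 0x34002000400092a1082))))) (.nd (nat_lit 8) 
(.nd (nat_lit 7) (.nd (nat_lit 9) 
(.lf (nat_lit 20314238) (dlOf (nat_lit 1) (nat_lit 0x4004000200189da882))) 
(.lf (nat_lit 6376778366) (dlOf (nat_lit 1) (nat_lit 0x800200020008095482)))) (.nd (nat_lit 9) 
(.lf (nat_lit 5772797182) (dlOf (nat_lit 1) (nat_lit 0x20008092f01))) 
(.lf (nat_lit 1345710846) (dlOf (nat_lit 1) (nat_lit 0x40008dd5a81))))) (.nd (nat_lit 9) 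
(.nd (nat_lit 26) (.lf (nat_lit 3493716478) (dlOf (nat_lit 1) (nat_lit 0x34004000600081b0d82))) 
(.lf (nat_lit 2755518974) (dlOf (nat_lit 1) (nat_lit 0xa00080048002002000081b0d83)))) 
(.lf (nat_lit 54389758) (dlOf (nat_lit 1) (nat_lit 0x20029655f01)))))))))))

end

end Pool.Agent.Lib.MP_5854e1_co.Cz

namespace Pool.Agent.Lib.MP_5854e1_co.Cz

noncomputable section

noncomputable def tz220 : DT := (.nd (nat_lit 5) (.nd (nat_lit 16) (.nd (nat_lit 3) 
(.nd (nat_lit 6) (.nd (nat_lit 19) (.nd (nat_lit 18) (.nd (nat_lit 28) (.nd (nat_lit 23) 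
(.nd (nat_lit 26) (.nd (nat_lit 10) (.nd (nat_lit 21) 
(.lf (nat_lit 2684510226) (dlOf (nat_lit 1) (nat_lit 0x27000800c8002017a0008080303))) 
(.lf (nat_lit 23224338) (dlOf (nat_lit 1) (nat_lit 0x40028b70301)))) 
(.lf (nat_lit 38954002) (dlOf (nat_lit 1) (nat_lit 0x8008000400200020009192883)))) (.nd (nat_lit 8) 
(.nd (nat_lit 20) 
(.lf (nat_lit 3422707730) (dlOf (nat_lit 1) (nat_lit 0x20008002000200040008060303))) 
(.lf (nat_lit 2752667666) (dlOf (nat_lit 2) (nat_lit 0xbc0ce00d0f0200020028030881)))) 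
(.nd (nat_lit 30) (.lf (nat_lit 2751621394) (dlOf (nat_lit 1) (nat_lit 0x1000400020018004b82))) 
(.lf (nat_lit 1677879570) (dlOf (nat_lit 1) (nat_lit 0x240018114b81)))))) (.nd (nat_lit 21) 
(.nd (nat_lit 8) (.lf (nat_lit 25321490) (dlOf (nat_lit 2) (nat_lit 0x5930001ac8500d1c828bf0880))) 
(.lf (nat_lit 59927314) (dlOf (nat_lit 1) (nat_lit 0x800801b000200640009845b83)))) (.nd (nat_lit 7) 
(.lf (nat_lit 27418642) (dlOf (nat_lit 1) (nat_lit 0x40018ce0201))) 
(.lf (nat_lit 48391314) (dlOf (nat_lit 6) (nat_lit 0x180e82000b20200ba741003038480022410002a1f8017ce8200567090004403000645c002e1d0400bce12000860600be74100133848002141000e8008004c002001a0009402b83)))))) 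
(.nd (nat_lit 26) (.nd (nat_lit 7) (.nd (nat_lit 10) (.nd (nat_lit 20) 
(.lf (nat_lit 1476550674) (dlOf (nat_lit 1) (nat_lit 0x80018050081))) 
(.lf (nat_lit 3490865170) (dlOf (nat_lit 2) (nat_lit 0xbc0ce007790200020028030881)))) 
(.lf (nat_lit 5771521042) (dlOf (nat_lit 2) (nat_lit 0x6e02e00016818005f80)))) (.nd (nat_lit 8) 
(.lf (nat_lit 5100429458) (dlOf (nat_lit 1) (nat_lit 0x8008000400200020008081083))) 
(.nd (nat_lit 10) 
(.lf (nat_lit 1342333330) (dlOf (nat_lit 4) (nat_lit 0x891c014b404000c38a00a5902000e1c500523018016180))) 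
(.lf (nat_lit 805469586) (dlOf (nat_lit 1) (nat_lit 0x2c001811c981)))))) (.nd (nat_lit 8) 
(.nd (nat_lit 10) (.nd (nat_lit 27) 
(.lf (nat_lit 5167538194) (dlOf (nat_lit 2) (nat_lit 0xe01c0001c018090280))) 
(.lf (nat_lit 3691143186) (dlOf (nat_lit 3) (nat_lit 0x402d000ae0100060168005640800c00080050002007c0008050083)))) 
(.lf (nat_lit 3154279442) (dlOf (nat_lit 1) (nat_lit 0x1c001815bf01)))) (.nd (nat_lit 7) 
(.lf (nat_lit 6241282834) (dlOf (nat_lit 1) (nat_lit 0x8600180d5b81))) (.nd (nat_lit 12) 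
(.lf (nat_lit 4228014482) (dlOf (nat_lit 5) (nat_lit 0x13016002a7c0803500b00153804007c05800a3402000a02c004ea018016180))) 
(.lf (nat_lit 3154276754) (dlOf (nat_lit 1) (nat_lit 0x400400020008158382)))))))) (.nd (nat_lit 27) 
(.nd (nat_lit 22) (.nd (nat_lit 10) (.nd (nat_lit 20) (.nd (nat_lit 28) 
(.lf (nat_lit 6442868754) (dlOf (nat_lit 2) (nat_lit 0x700000002c040038002001400081e0182))) 
(.lf (nat_lit 5637562386) (dlOf (nat_lit 1) (nat_lit 0x800200020008110182)))) 
(.lf (nat_lit 35020818) (dlOf (nat_lit 1) (nat_lit 0x200018fc0401)))) (.nd (nat_lit 7) 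
(.lf (nat_lit 20343826) (dlOf (nat_lit 2) (nat_lit 0x2960000000189d5f80))) (.nd (nat_lit 9) 
(.lf (nat_lit 1344693394) (dlOf (nat_lit 3) (nat_lit 0x214d000448100020a6800102700011008000800200040008982b82))) 
(.lf (nat_lit 419474) (dlOf (nat_lit 1) (nat_lit 0x20028003a81)))))) (.nd (nat_lit 23) 
(.nd (nat_lit 26) (.lf (nat_lit 1346789394) (dlOf (nat_lit 1) (nat_lit 0x20019000081))) 
(.lf (nat_lit 2756075538) (dlOf (nat_lit 1) (nat_lit 0x1600281f0881)))) (.nd (nat_lit 8) 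
(.lf (nat_lit 16146450) (dlOf (nat_lit 1) (nat_lit 0x400200060008870382))) 
(.lf (nat_lit 46557970) (dlOf (nat_lit 1) (nat_lit 0x800400020009385b82)))))) (.nd (nat_lit 26) 
(.nd (nat_lit 31) (.nd (nat_lit 7) 
(.lf (nat_lit 134635538) (dlOf (nat_lit 1) (nat_lit 0x4400200600008090002))) 
(.lf (nat_lit 134635666) (dlOf (nat_lit 1) (nat_lit 0x4800400300008090182)))) (.nd (nat_lit 29) 
(.lf (nat_lit 3355861010) (dlOf (nat_lit 1) (nat_lit 0x28008004c002001a0008130183))) 
(.lf (nat_lit 2818990098) (dlOf (nat_lit 2) (nat_lit 0x1807200b401f8000a01001f8008003800200020008140303))))) 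
(.nd (nat_lit 28) (.nd (nat_lit 7) 
(.lf (nat_lit 4496711698) (dlOf (nat_lit 5) (nat_lit 0x20320067101000e01a002a00cc01dc06400a20230066484002f01a003280cc028c06400c20230066404004a0190032180800e8008003400200020008140a03))) 
(.lf (nat_lit 201744530) (dlOf (nat_lit 1) (nat_lit 0x4800400300008090182)))) (.nd (nat_lit 29) 
(.lf (nat_lit 5838888978) (dlOf (nat_lit 2) (nat_lit 0x6e0000000c0181e0280))) 
(.lf (nat_lit 4228276242) (dlOf (nat_lit 1) (nat_lit 0x400080020002003e0008090003)))))))) 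
(.nd (nat_lit 21) (.nd (nat_lit 18) (.nd (nat_lit 27) (.nd (nat_lit 23) (.nd (nat_lit 22) 
(.nd (nat_lit 28) 
(.lf (nat_lit 3221905426) (dlOf (nat_lit 5) (nat_lit 0x78022801280ec0004e08001008a003203b0001302005d00700007c08014000000024040128002010400081b0182))) 
(.lf (nat_lit 1342857234) (dlOf (nat_lit 1) (nat_lit 0x200180f0281)))) 
(.lf (nat_lit 4874258) (dlOf (nat_lit 1) (nat_lit 0x30008000c002000200082d0083)))) 
(.nd (nat_lit 20) 
(.lf (nat_lit 59400210) (dlOf (nat_lit 3) (nat_lit 0x38a9a0002f02001854c00011f88000501000100080024002000a00097f0403))) 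
(.lf (nat_lit 10117138) (dlOf (nat_lit 1) (nat_lit 0x500080020002002400085b0483))))) 
(.nd (nat_lit 29) (.nd (nat_lit 26) 
(.lf (nat_lit 134897682) (dlOf (nat_lit 3) (nat_lit 0x1080a800b203d004401c002280cc005006001a450a008a054007001e802980cc00b006001a4308003a00180d0881))) 
(.nd (nat_lit 28) 
(.lf (nat_lit 202006546) (dlOf (nat_lit 3) (nat_lit 0x1080aa00b203d004401c002280cc005006001daa0a008a055007001e802980cc00b006001da808003a00180d0881))) 
(.lf (nat_lit 470442002) (dlOf (nat_lit 2) (nat_lit 0x1c0ae0002c0180f0180))))) (.nd (nat_lit 26) 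
(.lf (nat_lit 3892994066) (dlOf (nat_lit 2) (nat_lit 0x3000000068040004004001200082c0382))) 
(.nd (nat_lit 28) 
(.lf (nat_lit 3960102930) (dlOf (nat_lit 5) (nat_lit 0x78022801280ec0004e08001008a003203b0001302005d00700007c08014000000024040128002010400081b0182))) 
(.lf (nat_lit 3154796562) (dlOf (nat_lit 3) (nat_lit 0x40160038840800200b001c2c04002800400140008330a02))))))) 
(.nd (nat_lit 20) (.nd (nat_lit 23) 
(.lf (nat_lit 17719314) (dlOf (nat_lit 1) (nat_lit 0x200288f0781))) (.nd (nat_lit 25) 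
(.lf (nat_lit 9330706) (dlOf (nat_lit 1) (nat_lit 0x20028540481))) 
(.lf (nat_lit 42885138) (dlOf (nat_lit 1) (nat_lit 0x20019280081))))) (.nd (nat_lit 9) 
(.lf (nat_lit 52322322) (dlOf (nat_lit 2) (nat_lit 0x6ba580006204000400401020019520402))) 
(.nd (nat_lit 11) 
(.lf (nat_lit 3491652114) (dlOf (nat_lit 1) (nat_lit 0x980080038002000e0008090d83))) 
(.lf (nat_lit 1881041426) (dlOf (nat_lit 1) (nat_lit 0x60008dd5081))))))) (.nd (nat_lit 20) 
(.nd (nat_lit 28) (.nd (nat_lit 8) (.nd (nat_lit 23) 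
(.lf (nat_lit 2754240530) (dlOf (nat_lit 3) (nat_lit 0x281a003b540400100d001da802003a00080d0881))) 
(.lf (nat_lit 27942930) (dlOf (nat_lit 2) (nat_lit 0x141f60005e0200020018d40201)))) 
(.lf (nat_lit 36332818) (dlOf (nat_lit 1) (nat_lit 0x400200be0009073002)))) (.nd (nat_lit 26) 
(.nd (nat_lit 31) (.lf (nat_lit 1344954386) (dlOf (nat_lit 1) (nat_lit 0x200189a0081))) 
(.lf (nat_lit 3492438034) (dlOf (nat_lit 3) (nat_lit 0x281a00348a0400100d001a4302003a00080d0881)))) 
(.lf (nat_lit 472539154) (dlOf (nat_lit 1) (nat_lit 0x680080024002003600089b0383))))) 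
(.nd (nat_lit 10) (.nd (nat_lit 23) (.nd (nat_lit 7) 
(.lf (nat_lit 2755551250) (dlOf (nat_lit 1) (nat_lit 0x600281b0001))) 
(.lf (nat_lit 20865170) (dlOf (nat_lit 1) (nat_lit 0x600289e2801)))) (.nd (nat_lit 18) 
(.lf (nat_lit 16408594) (dlOf (nat_lit 24) (nat_lit 0x231f5800d4fa80014794003a39900017c2000664f00014fac0005e04015c7d600ad3ea00539cc8000ba0c01c0fae00b67330002c8200653eb80199ccc000b0080164fae005e7330002b8200193eb800b9ccc000aa0802c92b0025e7d700a03d600929ccc00607c0000540a004c7d70006399800148100261f5c006ce66000510400127d70002601001d3eb80079ccc000960800291d400867d7002e399800114180159f5c0007e040038fac00607320001902000f3eb00181cc8000620800f0fac006a732000180200043eb0000bc080049f5800010040050fac0000702000a7d60000301001d3eb000010080021f5800004040008004000800188a0202))) 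
(.lf (nat_lit 29253650) (dlOf (nat_lit 2) (nat_lit 0x4ab980003004004400200300008de0382))))) 
(.nd (nat_lit 12) (.nd (nat_lit 18) 
(.lf (nat_lit 20605970) (dlOf (nat_lit 2) (nat_lit 0x1c764000e396400712c00000006000400289d5f81))) 
(.lf (nat_lit 54422546) (dlOf (nat_lit 1) (nat_lit 0x38008002000200060009655f83)))) 
(.lf (nat_lit 20610066) (dlOf (nat_lit 1) (nat_lit 0x180080008002000200089dbf03)))))))) 
(.nd (nat_lit 26) (.nd (nat_lit 28) (.nd (nat_lit 7) (.nd (nat_lit 18) (.nd (nat_lit 19) 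
(.nd (nat_lit 20) (.nd (nat_lit 21) 
(.lf (nat_lit 3355598930) (dlOf (nat_lit 1) (nat_lit 0x1c00180a0001))) 
(.lf (nat_lit 52584530) (dlOf (nat_lit 1) (nat_lit 0x20009550781)))) 
(.lf (nat_lit 62021714) (dlOf (nat_lit 1) (nat_lit 0x800400040009931702)))) (.nd (nat_lit 8) 
(.lf (nat_lit 134897746) (dlOf (nat_lit 2) (nat_lit 0x2c80600002902000600080d0d81))) 
(.lf (nat_lit 8025426) (dlOf (nat_lit 1) (nat_lit 0x80028519901))))) (.nd (nat_lit 19) 
(.nd (nat_lit 25) 
(.lf (nat_lit 1074159698) (dlOf (nat_lit 4) (nat_lit 0xbc809c01c003400440100001a030063015007c009c0090034009c010000190400ed0138000c40801700080154002000600080c1903))) 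
(.lf (nat_lit 33972306) (dlOf (nat_lit 1) (nat_lit 0x20018f90781)))) (.nd (nat_lit 8) 
(.lf (nat_lit 59662418) (dlOf (nat_lit 1) (nat_lit 0x400200020009820782))) 
(.lf (nat_lit 3039570) (dlOf (nat_lit 1) (nat_lit 0x20018200681)))))) (.nd (nat_lit 8) 
(.nd (nat_lit 10) (.lf (nat_lit 3758256850) (dlOf (nat_lit 1) (nat_lit 0xc0018128c81))) 
(.nd (nat_lit 19) (.lf (nat_lit 6576828114) (dlOf (nat_lit 1) (nat_lit 0x100018147381))) 
(.lf (nat_lit 20606674) (dlOf (nat_lit 1) (nat_lit 0x580080034002000a00089d7383))))) 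
(.nd (nat_lit 11) (.lf (nat_lit 21389778) (dlOf (nat_lit 1) (nat_lit 0xb80028a37101))) 
(.nd (nat_lit 12) 
(.lf (nat_lit 41839058) (dlOf (nat_lit 2) (nat_lit 0x593940182604001400400260019244e82))) 
(.lf (nat_lit 3758258642) (dlOf (nat_lit 1) (nat_lit 0x40040002000812b182))))))) (.nd (nat_lit 31) 
(.nd (nat_lit 7) (.nd (nat_lit 8) (.nd (nat_lit 20) 
(.lf (nat_lit 1344954450) (dlOf (nat_lit 2) (nat_lit 0x460dd000160189a0780))) 
(.lf (nat_lit 5773090898) (dlOf (nat_lit 1) (nat_lit 0x4004002600080a1702)))) 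
(.lf (nat_lit 805469522) (dlOf (nat_lit 1) (nat_lit 0x280040084000811c902)))) (.nd (nat_lit 8) 
(.lf (nat_lit 5234647250) (dlOf (nat_lit 1) (nat_lit 0x3800800a8002001c0008071b83))) 
(.lf (nat_lit 5772304850) (dlOf (nat_lit 3) (nat_lit 0x30990000a80800a84c80000004005400400260018091182))))) 
(.nd (nat_lit 29) (.nd (nat_lit 30) (.nd (nat_lit 27) 
(.lf (nat_lit 2416074834) (dlOf (nat_lit 1) (nat_lit 0x8c00200980008031002))) 
(.lf (nat_lit 2550292562) (dlOf (nat_lit 1) (nat_lit 0x8c00200980008031002)))) (.nd (nat_lit 19) 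
(.lf (nat_lit 3490865234) (dlOf (nat_lit 11) (nat_lit 0x2280cc0005702014e066008a030800d816001d407e000560800f80660060030804400fc000aa0c02200cc00dc061006e01f8001501803601840009a0400180cc0004b02003006600080308001181000c819800480c20004404007a0610002181008903300360184002807e000000600200018031001))) 
(.lf (nat_lit 3492438098) (dlOf (nat_lit 2) (nat_lit 0x44068001a0318000bc100078008000c002001600080d0d83))))) 
(.nd (nat_lit 18) 
(.lf (nat_lit 4026687570) (dlOf (nat_lit 2) (nat_lit 0x1701a800000080088008000400200360008031003))) 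
(.lf (nat_lit 4026949714) (dlOf (nat_lit 17) (nat_lit 0x220100000ec0800600800006e04030004801de00d001f0000000d01808e0090056401a01b4000000198300b4012006480340006408005c048001400d000188200050120000c00800c007c0004a0402d80800030022034800f8000841807e810011b003e004400a0000f8300c40200203007c0060038000400a0000f04013200f8000740809a007c000380400700400000f02024a0230000381011e011800004081550008282c002006a00080d0d83))))))) 
(.nd (nat_lit 27) (.nd (nat_lit 31) (.nd (nat_lit 18) (.nd (nat_lit 8) (.nd (nat_lit 19) 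
(.lf (nat_lit 69361746) (dlOf (nat_lit 1) (nat_lit 0x8008000400200020008940783))) 
(.lf (nat_lit 4362756178) (dlOf (nat_lit 6) (nat_lit 0x3201980004c0801b00cc000240400c00660001002003c033000068100010198000000800b00080058002004c00080f1903)))) 
(.lf (nat_lit 4362232146) (dlOf (nat_lit 1) (nat_lit 0x400200020008014d82)))) (.nd (nat_lit 8) 
(.nd (nat_lit 28) (.lf (nat_lit 4362494034) (dlOf (nat_lit 1) (nat_lit 0x20018090001))) 
(.lf (nat_lit 1946574930) (dlOf (nat_lit 1) (nat_lit 0x300080008002000600080c1603)))) 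
(.lf (nat_lit 4362494290) (dlOf (nat_lit 2) (nat_lit 0x780000000002004c0008090681))))) 
(.nd (nat_lit 7) (.nd (nat_lit 29) (.nd (nat_lit 18) 
(.lf (nat_lit 3288490066) (dlOf (nat_lit 2) (nat_lit 0x1701a800000080088008000400200360008031003))) 
(.lf (nat_lit 3288752210) (dlOf (nat_lit 17) (nat_lit 0x220100000e40800600800006e04030004801de00d001f0000000d01808e0090056401a01b4000000198300b4012006480340006408005c048001400d000188200050120000c00800c007c0004a0402d80800030022034800f8000841807e810011b003e004400a0000f8300c40200203007c0060038000400a0000f04013200f8000740809a007c000380400700400000f02024a0230000381011e011800004081550008282c002006a00080d0d83)))) 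
(.nd (nat_lit 19) 
(.lf (nat_lit 2752667730) (dlOf (nat_lit 11) (nat_lit 0x2280cc0005002014e066008a030800d816001d407e0004f0800f80660060030804400fc0009c0c02200cc00dc061006e01f8001341803601840008c0400180cc0004402003006600080308000fc1000c819800480c20003d04007a0610001e01008903300360184002807e000000600200018031001))) 
(.lf (nat_lit 2754240594) (dlOf (nat_lit 2) (nat_lit 0x44068001a0318000bc100078008000c002001600080d0d83))))) 
(.nd (nat_lit 8) (.nd (nat_lit 9) 
(.lf (nat_lit 3557712082) (dlOf (nat_lit 2) (nat_lit 0xcc01c000000080140008006c002005000082c0503))) 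
(.lf (nat_lit 3020059346) (dlOf (nat_lit 1) (nat_lit 0x20018128c81)))) 
(.lf (nat_lit 3020061650) (dlOf (nat_lit 1) (nat_lit 0x800800140020002000812bf03)))))) 
(.nd (nat_lit 8) (.nd (nat_lit 28) (.nd (nat_lit 7) (.nd (nat_lit 19) 
(.lf (nat_lit 4496449618) (dlOf (nat_lit 1) (nat_lit 0x40008070681))) 
(.lf (nat_lit 202006610) (dlOf (nat_lit 2) (nat_lit 0x2c80600002902000600080d0d81)))) 
(.lf (nat_lit 1275225298) (dlOf (nat_lit 1) (nat_lit 0x8008000c00200100008092d83)))) 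
(.nd (nat_lit 7) (.nd (nat_lit 18) 
(.lf (nat_lit 3691143250) (dlOf (nat_lit 1) (nat_lit 0x900080074002005e0008050783))) 
(.lf (nat_lit 4228276306) (dlOf (nat_lit 1) (nat_lit 0x20018090001)))) 
(.lf (nat_lit 3154278610) (dlOf (nat_lit 1) (nat_lit 0x4001815a881))))) (.nd (nat_lit 29) 
(.nd (nat_lit 7) (.lf (nat_lit 470704466) (dlOf (nat_lit 1) (nat_lit 0x20008150881))) 
(.lf (nat_lit 472279506) (dlOf (nat_lit 2) (nat_lit 0x604e00304c080070008001400200040008984e83)))) 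
(.nd (nat_lit 18) 
(.lf (nat_lit 4228014418) (dlOf (nat_lit 5) (nat_lit 0x110130003c0580006704004404c000f01600019810011013000480580004004004404c000f0160000fc100080008006000200b60008014d03))) 
(.nd (nat_lit 28) 
(.lf (nat_lit 2886099282) (dlOf (nat_lit 3) (nat_lit 0x48034005c00000014020004022000098080010008001000200120008154d83))) 
(.lf (nat_lit 4228276562) (dlOf (nat_lit 2) (nat_lit 0x780000000002004c0008090681)))))))))) 
(.nd (nat_lit 18) (.nd (nat_lit 19) (.nd (nat_lit 8) (.nd (nat_lit 26) (.nd (nat_lit 23) 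
(.nd (nat_lit 28) (.nd (nat_lit 7) (.nd (nat_lit 20) 
(.lf (nat_lit 2684510234) (dlOf (nat_lit 1) (nat_lit 0xe40028080481))) 
(.lf (nat_lit 22175770) (dlOf (nat_lit 2) (nat_lit 0x24ab60001e818aa0b00)))) (.nd (nat_lit 6) 
(.lf (nat_lit 35808410) (dlOf (nat_lit 1) (nat_lit 0x40019012b81))) 
(.lf (nat_lit 160474) (dlOf (nat_lit 1) (nat_lit 0x400200020008008c82))))) (.nd (nat_lit 31) 
(.nd (nat_lit 6) 
(.lf (nat_lit 1476550682) (dlOf (nat_lit 1) (nat_lit 0x198008004c002002e0008050103))) 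
(.lf (nat_lit 1345481306) (dlOf (nat_lit 4) (nat_lit 0x40f60002802003014a00a003d0000941004a01e80004404000400400040018c35302)))) 
(.nd (nat_lit 29) 
(.lf (nat_lit 3624034330) (dlOf (nat_lit 2) (nat_lit 0x406c0000002000a00080b0001))) 
(.lf (nat_lit 4160905242) (dlOf (nat_lit 1) (nat_lit 0x800200380008060482)))))) (.nd (nat_lit 11) 
(.nd (nat_lit 7) (.nd (nat_lit 20) 
(.lf (nat_lit 29515802) (dlOf (nat_lit 2) (nat_lit 0xae0c014d004002800400060008e10682))) 
(.lf (nat_lit 47341594) (dlOf (nat_lit 13) (nat_lit 0xd78a0004baa000200204d35e20001af08135975209c8b91000100400175e2000eaea4002d7220001f060028bc4001a5d4800078100032f10005d7520008b91000098300085e20000aea4004972200012060004bc400065d480012e44000220c000d7220001002000ebc400025d480003c10269af1013557520962b91000058301525e200a92ea404f17220000a060004ba9000000193d0500)))) 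
(.lf (nat_lit 48391322) (dlOf (nat_lit 2) (nat_lit 0x241c240011204000800400220019402b82)))) 
(.nd (nat_lit 6) (.lf (nat_lit 59927578) (dlOf (nat_lit 1) (nat_lit 0x20019846001))) 
(.nd (nat_lit 20) (.lf (nat_lit 58878554) (dlOf (nat_lit 1) (nat_lit 0x10004000400097e5302))) 
(.lf (nat_lit 32664154) (dlOf (nat_lit 2) (nat_lit 0xd8af600012818ef5300))))))) (.nd (nat_lit 27) 
(.nd (nat_lit 32) (.nd (nat_lit 21) 
(.lf (nat_lit 604135450) (dlOf (nat_lit 3) (nat_lit 0x380fc0005a04002c07e0002c0200340008030101))) 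
(.lf (nat_lit 69361690) (dlOf (nat_lit 1) (nat_lit 0x140018940101)))) (.nd (nat_lit 6) 
(.lf (nat_lit 6509719066) (dlOf (nat_lit 1) (nat_lit 0x20008147101))) 
(.lf (nat_lit 4630667354) (dlOf (nat_lit 1) (nat_lit 0x500080030002000e0008040683))))) 
(.nd (nat_lit 6) (.nd (nat_lit 7) 
(.lf (nat_lit 2885836826) (dlOf (nat_lit 3) (nat_lit 0x3f01b0002800003b54080004080006c03600050000076a01800d800800bc002003600080b0003))) 
(.lf (nat_lit 1275225242) (dlOf (nat_lit 1) (nat_lit 0x18008002800200020008092b83)))) 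
(.nd (nat_lit 7) 
(.lf (nat_lit 4764885082) (dlOf (nat_lit 1) (nat_lit 0x500080030002000e0008040683))) 
(.lf (nat_lit 3154279130) (dlOf (nat_lit 1) (nat_lit 0x31000800040020056000815b983))))))) 
(.nd (nat_lit 28) (.nd (nat_lit 7) (.nd (nat_lit 9) (.nd (nat_lit 22) 
(.lf (nat_lit 20078874) (dlOf (nat_lit 1) (nat_lit 0x4002000200089d0a82))) 
(.lf (nat_lit 41050394) (dlOf (nat_lit 1) (nat_lit 0x140029218001)))) (.nd (nat_lit 21) 
(.lf (nat_lit 59927322) (dlOf (nat_lit 1) (nat_lit 0x1000801e0002004e0009845c03))) 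
(.lf (nat_lit 20081434) (dlOf (nat_lit 1) (nat_lit 0x4002000200089d5c02))))) (.nd (nat_lit 9) 
(.nd (nat_lit 20) 
(.lf (nat_lit 4362232218) (dlOf (nat_lit 5) (nat_lit 0x130168014280803500b400a0e04007c05a0049f02000a02d0021f818016880))) 
(.lf (nat_lit 3301786) (dlOf (nat_lit 1) (nat_lit 0x20028200781)))) 
(.lf (nat_lit 3892475802) (dlOf (nat_lit 1) (nat_lit 0x2001815a301))))) (.nd (nat_lit 6) 
(.nd (nat_lit 27) (.nd (nat_lit 26) 
(.lf (nat_lit 4563560858) (dlOf (nat_lit 1) (nat_lit 0x1e0028094e81))) 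
(.lf (nat_lit 1409444250) (dlOf (nat_lit 1) (nat_lit 0x8008000400200020008004e83)))) 
(.nd (nat_lit 7) (.lf (nat_lit 3154276122) (dlOf (nat_lit 1) (nat_lit 0x400400020008157482))) 
(.lf (nat_lit 469918106) (dlOf (nat_lit 4) (nat_lit 0x891c0098a04000c38a004c402000e1c500258818016880))))) 
(.nd (nat_lit 9) (.lf (nat_lit 1409445210) (dlOf (nat_lit 1) (nat_lit 0x400400020008006a82))) 
(.nd (nat_lit 12) (.lf (nat_lit 4094847834) (dlOf (nat_lit 1) (nat_lit 0x180018055c01))) 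
(.lf (nat_lit 805469018) (dlOf (nat_lit 1) (nat_lit 0x800800040020002000811bc83)))))))) 
(.nd (nat_lit 20) (.nd (nat_lit 26) (.nd (nat_lit 22) (.nd (nat_lit 29) (.nd (nat_lit 21) 
(.lf (nat_lit 3221905434) (dlOf (nat_lit 9) (nat_lit 0x1e408c0020f0200ce046001060100700230007dc080338118003e604001408c001f20200dc046000f80100670230007bc08000813800f804e006a02600170090002c42002100080020002000200081b0483))) 
(.lf (nat_lit 1344954394) (dlOf (nat_lit 1) (nat_lit 0xc4002009800089a0102)))) (.nd (nat_lit 6) 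
(.lf (nat_lit 537550874) (dlOf (nat_lit 9) (nat_lit 0x27817000b40aa0078031000b01200787c20002815403c3a0400f00aa002203100edc02000902a0071880800b8150038bc04002c0a801bd602003005400dea81000202d005c2408024800801d8002002000080a0903))) 
(.lf (nat_lit 537550938) (dlOf (nat_lit 3) (nat_lit 0x7816c01740a2000603f000501180005420000816c016c0a2000603f000401180004c2002a000800c8002003000080a1183))))) 
(.nd (nat_lit 21) (.nd (nat_lit 23) 
(.lf (nat_lit 21651482) (dlOf (nat_lit 3) (nat_lit 0xa94e60002702000ca930027539800098100008008003800200140008a50503))) 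
(.lf (nat_lit 30040090) (dlOf (nat_lit 1) (nat_lit 0x400200020008e30002)))) 
(.lf (nat_lit 6971418) (dlOf (nat_lit 3) (nat_lit 0xc0000002e020030000000160184a0500))))) 
(.nd (nat_lit 27) (.nd (nat_lit 6) 
(.lf (nat_lit 1409966106) (dlOf (nat_lit 9) (nat_lit 0x27817000b40aa0078031000b012006abc2000281540355a0400f00aa002203100d2a82000902a0064540800b81500322204002c0a80187002003005400c3781000202d00568808024800801d8002002000080a0903))) 
(.lf (nat_lit 1409966170) (dlOf (nat_lit 3) (nat_lit 0x7816c01740a2000603f00050118000a020000816c016c0a2000603f00040118000982002a000800c8002003000080a1183)))) 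
(.nd (nat_lit 21) (.nd (nat_lit 28) 
(.lf (nat_lit 3960102938) (dlOf (nat_lit 9) (nat_lit 0x19c08c0020e0200f2046001058100700230007dc080028118003e604019c08c001f20200dc046000f80100670230007bc08000813800f804e006a02600170090002c42002100080020002000200081b0483))) 
(.lf (nat_lit 470442010) (dlOf (nat_lit 6) (nat_lit 0x15810f805006740007e0800ac47e004c1f0000120200801190000140805308c8004c37a000040400fe23200020de80000c1005100080380002002200080f0403)))) 
(.lf (nat_lit 472539162) (dlOf (nat_lit 3) (nat_lit 0x10124000650100100650002f408020800800ac002004600089b0603)))))) 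
(.nd (nat_lit 7) (.nd (nat_lit 22) (.nd (nat_lit 8) 
(.lf (nat_lit 45768730) (dlOf (nat_lit 1) (nat_lit 0x18008001800200020009360103))) 
(.lf (nat_lit 20605722) (dlOf (nat_lit 1) (nat_lit 0x200080008002000400089d5c03)))) 
(.nd (nat_lit 21) 
(.lf (nat_lit 5922842) (dlOf (nat_lit 3) (nat_lit 0xc0000002e02003000000016018410500))) 
(.lf (nat_lit 24797210) (dlOf (nat_lit 12) (nat_lit 0x82f24000d75c0004004000cbc90001f8100014bb00008c08002b068006182e008ac00000a5f300272f20015575a00c2b95002c59a80132cbc007d6360036b08003253f0001266400d12e6000201c0022bc80000d01000f5e4000c2eb4004d72a00012060024bc8001e5d6800cae54000220c001d7900026bad00075ca80003c18004af20003975a0020b95000068300515e4002faeb4016d72a0000b060020bc8001f5d68000281001b0008001c002000a0008bb0503))))) 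
(.nd (nat_lit 6) (.nd (nat_lit 8) (.nd (nat_lit 10) 
(.lf (nat_lit 1346003098) (dlOf (nat_lit 2) (nat_lit 0xe15700090670004001000100080014002000c0008e20503))) 
(.lf (nat_lit 37381274) (dlOf (nat_lit 2) (nat_lit 0xea58000448190d2b80)))) 
(.lf (nat_lit 43672986) (dlOf (nat_lit 1) (nat_lit 0x1400192a3601)))) (.nd (nat_lit 8) 
(.lf (nat_lit 14311642) (dlOf (nat_lit 1) (nat_lit 0x180028750581))) 
(.lf (nat_lit 8025562) (dlOf (nat_lit 1) (nat_lit 0x20028519b01)))))))) (.nd (nat_lit 28) 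
(.nd (nat_lit 21) (.nd (nat_lit 23) (.nd (nat_lit 27) (.nd (nat_lit 31) (.nd (nat_lit 6) 
(.lf (nat_lit 537813018) (dlOf (nat_lit 1) (nat_lit 0x600181b0001))) 
(.lf (nat_lit 423386) (dlOf (nat_lit 1) (nat_lit 0x40018009b01)))) (.nd (nat_lit 26) 
(.lf (nat_lit 6442868762) (dlOf (nat_lit 5) (nat_lit 0x2880000004e04012c0000002602045202902c100182e68000000480c00140660108030007101680003c1800080080068002001600081e0403))) 
(.lf (nat_lit 3288752154) (dlOf (nat_lit 15) (nat_lit 0x69020000b00900e8003e00ae00d00d0c84001b02001c9007c00cc01a01a150600bc04000d601101cd807c034260c004403e019f902004202000caf01002101000617c08189808c0f0c03e018500406a202303c600f8060fc101cf007c0300c04011003e0180402013802303ba00f805fe41002f01000b48046076e01f00bf183026700f805f340802d8100004004801c2022001501001cf807c020003a001a00b0046005000b002400000240874004020600080d0882))))) 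
(.nd (nat_lit 7) (.nd (nat_lit 26) 
(.lf (nat_lit 3355861018) (dlOf (nat_lit 2) (nat_lit 0x12e0300011e018130480))) 
(.lf (nat_lit 4496711706) (dlOf (nat_lit 1) (nat_lit 0x1000200060008140a02)))) 
(.lf (nat_lit 2819514522) (dlOf (nat_lit 3) (nat_lit 0x1de0360007d8100d301b0003e00801180080164002007e00082c0483))))) 
(.nd (nat_lit 6) (.nd (nat_lit 8) (.nd (nat_lit 10) 
(.lf (nat_lit 13000730) (dlOf (nat_lit 2) (nat_lit 0x58b38a8000900801000080238002000e00086f0403))) 
(.lf (nat_lit 46558234) (dlOf (nat_lit 1) (nat_lit 0x400400020009386002)))) 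
(.lf (nat_lit 46557978) (dlOf (nat_lit 1) (nat_lit 0x200080050002000a0009385c03)))) 
(.nd (nat_lit 7) (.lf (nat_lit 9855066) (dlOf (nat_lit 1) (nat_lit 0x10008001400200080008580683))) 
(.lf (nat_lit 8811994) (dlOf (nat_lit 2) (nat_lit 0x32a3000070080060008000400200020008519b03)))))) 
(.nd (nat_lit 19) (.nd (nat_lit 6) (.nd (nat_lit 20) (.nd (nat_lit 26) 
(.lf (nat_lit 2514970) (dlOf (nat_lit 2) (nat_lit 0x7291c024ca04002400400360008160902))) 
(.lf (nat_lit 2753978394) (dlOf (nat_lit 1) (nat_lit 0x400280a0901)))) 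
(.lf (nat_lit 37117978) (dlOf (nat_lit 1) (nat_lit 0x10002000200090a0602)))) 
(.lf (nat_lit 31877722) (dlOf (nat_lit 2) (nat_lit 0x66930c01b497201004a400012838e95300)))) 
(.nd (nat_lit 8) (.nd (nat_lit 6) 
(.lf (nat_lit 20865178) (dlOf (nat_lit 1) (nat_lit 0x54004000c00089e2b82))) 
(.lf (nat_lit 19823322) (dlOf (nat_lit 1) (nat_lit 0x2880080004002003e00089db983)))) 
(.nd (nat_lit 7) (.lf (nat_lit 19816730) (dlOf (nat_lit 1) (nat_lit 0x200189d0a81))) 
(.lf (nat_lit 61760922) (dlOf (nat_lit 1) (nat_lit 0xc00400020009923602))))))) (.nd (nat_lit 32) 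
(.nd (nat_lit 31) (.nd (nat_lit 6) (.nd (nat_lit 7) 
(.lf (nat_lit 1346789402) (dlOf (nat_lit 5) (nat_lit 0x7615600410a1801384ec00f819a008a085000250500090ab0001850c000920800242ac0004102001215600020a18000e810033000800ac002002c0009000103))) 
(.lf (nat_lit 1344693402) (dlOf (nat_lit 1) (nat_lit 0x20028982b81)))) (.nd (nat_lit 7) 
(.nd (nat_lit 9) 
(.lf (nat_lit 1346789466) (dlOf (nat_lit 2) (nat_lit 0x782be000c14c00011029000880))) 
(.lf (nat_lit 472279642) (dlOf (nat_lit 2) (nat_lit 0xbc2ce00aa126005406e00028210000805c0002e0a00040018985301)))) 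
(.lf (nat_lit 1343119578) (dlOf (nat_lit 1) (nat_lit 0x140028150581))))) (.nd (nat_lit 19) 
(.nd (nat_lit 21) (.nd (nat_lit 26) 
(.lf (nat_lit 4026949658) (dlOf (nat_lit 15) (nat_lit 0x69020000b00900e8003e00ae00d00ec284001b02001c9007c00cc01a01d830600bc04000d601101cd807c03afe0c004403e01d5f02004202000e5b81031301181e1807c03792080d44046078c01f00ddc020021010006eb0081cf007c036d204011003e01b6702013802303ba00f806d841002f01000b48046076e01f00da583026700f806cdc0802d8100004004801c2022001501001cf807c020003a001a00b0046005000b002400000240874004020600080d0882))) 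
(.lf (nat_lit 3557187610) (dlOf (nat_lit 16) (nat_lit 0x881e0001c0e4002e06f0014032000c018400480bc001205b000d02280080108003007e000e038001501b000c00d00034036003001a00b4a8f001303c000a01c800280de003a0640017031800a818800680bc003005b000102c000581140050086000a042000801f800400e0001c06c0006035001601a000a00a80070044003e01b000100d00090064004c030016942e0024078000a037800a019000280c2002805e000a02d800501140088084001a03f000a01c000d80d8005c0680036022001300d8001806802d243c00740f00018072001f037800f819000640c2001a05e000702d800401140038084002803f000901c000a80d800800680058022000900d800a006802d224000080700168e02002e072001f01f805a341000100e000140440168b0400080380015011005a281000181c800440440168904000a02200b43810013030005a1008006817402d0204002c07e0161902003a072001101f8057f0100100174026e804014000400160008140502)))) 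
(.lf (nat_lit 3492175898) (dlOf (nat_lit 1) (nat_lit 0x400280a0901)))) (.nd (nat_lit 9) 
(.lf (nat_lit 4094585882) (dlOf (nat_lit 1) (nat_lit 0x40028056001))) 
(.lf (nat_lit 3490603546) (dlOf (nat_lit 1) (nat_lit 0x8008000400200020008017f03)))))) 
(.nd (nat_lit 10) (.nd (nat_lit 26) (.nd (nat_lit 27) 
(.lf (nat_lit 4563820570) (dlOf (nat_lit 2) (nat_lit 0x40029006768180f0a00))) 
(.lf (nat_lit 4698038298) (dlOf (nat_lit 19) (nat_lit 0x4c025004ac01000201280255c0802280a400e88040030058027e02900c00108001801c00e861001140520074002002e0290039d010011014801ce40801b80a400e6e0400e8052009a0270021009801ccc1801b80a4011404e007320400220290039801004a014801cb40801a80b000e2404005c062037c02c0046014800a8070009c028003c01100385860046014801bf40801680a400dde040118052003f7020004029001ee8180f0a00)))) 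
(.nd (nat_lit 8) 
(.lf (nat_lit 6241542170) (dlOf (nat_lit 2) (nat_lit 0x100a0000ac080010008000800200020008110503))) 
(.lf (nat_lit 6376808730) (dlOf (nat_lit 1) (nat_lit 0x1a0018090a81))))) (.nd (nat_lit 6) 
(.lf (nat_lit 5772305434) (dlOf (nat_lit 1) (nat_lit 0x10008000800200080008092883))) 
(.lf (nat_lit 5772305626) (dlOf (nat_lit 1) (nat_lit 0x1680008092d81))))))))) (.nd (nat_lit 3) 
(.nd (nat_lit 28) (.nd (nat_lit 19) (.nd (nat_lit 6) (.nd (nat_lit 18) (.nd (nat_lit 30) 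
(.nd (nat_lit 20) (.nd (nat_lit 26) (.nd (nat_lit 8) 
(.lf (nat_lit 228370) (dlOf (nat_lit 1) (nat_lit 0x40040002001800bf02))) 
(.lf (nat_lit 2281923346) (dlOf (nat_lit 1) (nat_lit 0x200280a2101)))) (.nd (nat_lit 27) 
(.lf (nat_lit 604200978) (dlOf (nat_lit 2) (nat_lit 0x10802c007a007001000300098000000001000c000200a60008080482))) 
(.lf (nat_lit 4496515090) (dlOf (nat_lit 5) (nat_lit 0x201a0039c81000e00e002a006c01dc03400a200b0039984002f00e0032806c028c03400c200b0039904004a00d001bbc0800e80080034002000200080b0a03))))) 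
(.nd (nat_lit 7) (.nd (nat_lit 22) 
(.lf (nat_lit 18046994) (dlOf (nat_lit 1) (nat_lit 0x200028900a01))) 
(.lf (nat_lit 30629906) (dlOf (nat_lit 1) (nat_lit 0x400200020008e40782)))) 
(.lf (nat_lit 20148626) (dlOf (nat_lit 1) (nat_lit 0x4002000200089d8382))))) (.nd (nat_lit 10) 
(.nd (nat_lit 7) (.lf (nat_lit 1812160530) (dlOf (nat_lit 1) (nat_lit 0xc00400020008160482))) 
(.lf (nat_lit 1073963154) (dlOf (nat_lit 1) (nat_lit 0x80018044001)))) (.nd (nat_lit 8) 
(.lf (nat_lit 5905802258) (dlOf (nat_lit 1) (nat_lit 0x20008142881))) 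
(.lf (nat_lit 3221450002) (dlOf (nat_lit 1) (nat_lit 0x80018116701)))))) (.nd (nat_lit 9) 
(.nd (nat_lit 10) (.nd (nat_lit 22) 
(.lf (nat_lit 738680850) (dlOf (nat_lit 1) (nat_lit 0x80080004002000200080e0283))) 
(.lf (nat_lit 13066258) (dlOf (nat_lit 4) (nat_lit 0x2d89b00005702018a4d80002a0100b226c0000cc0802e00080044002000600086f0183)))) 
(.lf (nat_lit 20409362) (dlOf (nat_lit 3) (nat_lit 0x12c8a00002d0200260ac000128189d5f80)))) 
(.nd (nat_lit 8) (.nd (nat_lit 11) 
(.lf (nat_lit 58155538) (dlOf (nat_lit 1) (nat_lit 0x18008000c002000200097c7c03))) 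
(.lf (nat_lit 490002) (dlOf (nat_lit 1) (nat_lit 0x76001800b281)))) 
(.lf (nat_lit 489234) (dlOf (nat_lit 5) (nat_lit 0x6d66004b102000b6b300258010008b5980129c08000dacc0094a0400040040004001800a002)))))) 
(.nd (nat_lit 8) (.nd (nat_lit 18) (.nd (nat_lit 7) 
(.lf (nat_lit 1812160594) (dlOf (nat_lit 1) (nat_lit 0xf000200240008160902))) 
(.lf (nat_lit 5033387218) (dlOf (nat_lit 1) (nat_lit 0x400400080018092d82)))) (.nd (nat_lit 20) 
(.lf (nat_lit 48717906) (dlOf (nat_lit 1) (nat_lit 0x1180009420781))) 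
(.lf (nat_lit 35086418) (dlOf (nat_lit 1) (nat_lit 0x8008000400200060008fd0783))))) 
(.nd (nat_lit 7) (.nd (nat_lit 20) 
(.lf (nat_lit 3825426770) (dlOf (nat_lit 2) (nat_lit 0x880100000bc0801480080120002002a0008154d03))) 
(.nd (nat_lit 23) (.lf (nat_lit 1270098) (dlOf (nat_lit 1) (nat_lit 0x2400280a4d01))) 
(.lf (nat_lit 9658706) (dlOf (nat_lit 1) (nat_lit 0x40008574d81))))) (.nd (nat_lit 9) 
(.lf (nat_lit 3825426898) (dlOf (nat_lit 1) (nat_lit 0x8c00400120008157102))) 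
(.lf (nat_lit 2818800594) (dlOf (nat_lit 3) (nat_lit 0xb00d40116042009601b004500880098e1000080d200bc03600030110012c81800380080040002005e000812bf03))))))) 
(.nd (nat_lit 6) (.nd (nat_lit 11) (.nd (nat_lit 29) (.nd (nat_lit 7) (.nd (nat_lit 18) 
(.lf (nat_lit 22765586) (dlOf (nat_lit 1) (nat_lit 0x80028b20301))) 
(.lf (nat_lit 13590546) (dlOf (nat_lit 3) (nat_lit 0x1b9e3100ddef54018655a01da6060359c6201b0dea80344ab403b480c00a800400080008730882)))) 
(.lf (nat_lit 134964882) (dlOf (nat_lit 1) (nat_lit 0x1200280f3a81)))) (.nd (nat_lit 20) 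
(.nd (nat_lit 21) 
(.lf (nat_lit 537616402) (dlOf (nat_lit 6) (nat_lit 0x7c0348068017400700ae030a05400e402280710094030800001daa0e011a06900bf02e80a5015002c408a002001700b00000076a030007015003b480401f40a8001e04500eb882008202a0075200801b000804c0002013600080d0883))) 
(.lf (nat_lit 2754306066) (dlOf (nat_lit 3) (nat_lit 0x6032e02360b10143043805481f803f40f4008007600b303a001501b4020c02201daa12012819700010c6802b05d8036c16201c8087009403f006201e8026c0e8000606d00230088076a0500008008015c002001800080d0883)))) 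
(.lf (nat_lit 2755354642) (dlOf (nat_lit 1) (nat_lit 0x8008001000200020008160303))))) 
(.nd (nat_lit 9) (.nd (nat_lit 7) (.nd (nat_lit 8) 
(.lf (nat_lit 20671506) (dlOf (nat_lit 3) (nat_lit 0x141ea00110f00000941000407800004804000c002000200089d5f82))) 
(.lf (nat_lit 8087826) (dlOf (nat_lit 1) (nat_lit 0x400200020008514b82)))) 
(.lf (nat_lit 54225298) (dlOf (nat_lit 2) (nat_lit 0x8498a001a4bb002724a0032fc180198008000800200100009654e83)))) 
(.nd (nat_lit 7) (.nd (nat_lit 18) 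
(.lf (nat_lit 54225682) (dlOf (nat_lit 1) (nat_lit 0x400400020009655b82))) 
(.lf (nat_lit 19884818) (dlOf (nat_lit 1) (nat_lit 0x68004005c00189d5b82)))) 
(.lf (nat_lit 54487954) (dlOf (nat_lit 1) (nat_lit 0x10008000400200020009655c83)))))) 
(.nd (nat_lit 18) (.nd (nat_lit 21) (.nd (nat_lit 8) (.nd (nat_lit 23) 
(.lf (nat_lit 537616466) (dlOf (nat_lit 6) (nat_lit 0x2805a001402b800a00f0005006c00440220001785022a02e81a181500ab008a000290600e4054000a0228000a010004015000d408a0002704009e054009e0228000841003a000801fc002006000080d0d83))) 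
(.lf (nat_lit 59465810) (dlOf (nat_lit 1) (nat_lit 0x200029800781)))) 
(.lf (nat_lit 25911634) (dlOf (nat_lit 1) (nat_lit 0x800400020008c10882)))) (.nd (nat_lit 7) 
(.nd (nat_lit 9) 
(.lf (nat_lit 2754306130) (dlOf (nat_lit 2) (nat_lit 0xa810e0002902000600180d0d81))) 
(.lf (nat_lit 48982610) (dlOf (nat_lit 1) (nat_lit 0x20019465281)))) 
(.lf (nat_lit 8086994) (dlOf (nat_lit 1) (nat_lit 0x400200020008513602))))) (.nd (nat_lit 20) 
(.nd (nat_lit 8) (.nd (nat_lit 22) 
(.lf (nat_lit 59727954) (dlOf (nat_lit 1) (nat_lit 0xc00200040009820782))) 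
(.lf (nat_lit 13590610) (dlOf (nat_lit 4) (nat_lit 0x2e7178001800000034040007c5000019810066e310033ef540003e080054002000e0008730d82)))) 
(.lf (nat_lit 2752471378) (dlOf (nat_lit 1) (nat_lit 0x400400020018014d82)))) (.nd (nat_lit 22) 
(.lf (nat_lit 20930642) (dlOf (nat_lit 2) (nat_lit 0x26baec0105ba00002b0289f0680))) 
(.lf (nat_lit 25124946) (dlOf (nat_lit 1) (nat_lit 0x20008be1601)))))))) (.nd (nat_lit 6) 
(.nd (nat_lit 31) (.nd (nat_lit 19) (.nd (nat_lit 26) (.nd (nat_lit 27) (.nd (nat_lit 18) 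
(.lf (nat_lit 5100494866) (dlOf (nat_lit 1) (nat_lit 0x28002000800080c0102))) 
(.lf (nat_lit 1342660626) (dlOf (nat_lit 1) (nat_lit 0x400280b0301)))) (.nd (nat_lit 29) 
(.lf (nat_lit 1476616210) (dlOf (nat_lit 1) (nat_lit 0x4002001a00080a0482))) 
(.lf (nat_lit 939745298) (dlOf (nat_lit 1) (nat_lit 0xc00400020008160482))))) (.nd (nat_lit 7) 
(.nd (nat_lit 10) (.lf (nat_lit 1007116306) (dlOf (nat_lit 1) (nat_lit 0x4a00281a0481))) 
(.lf (nat_lit 5301822482) (dlOf (nat_lit 1) (nat_lit 0xa0008092881)))) (.nd (nat_lit 10) 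
(.lf (nat_lit 1946378386) (dlOf (nat_lit 1) (nat_lit 0x80018044001))) 
(.lf (nat_lit 4764951698) (dlOf (nat_lit 1) (nat_lit 0x8004003a0018092b82)))))) (.nd (nat_lit 26) 
(.nd (nat_lit 18) (.nd (nat_lit 21) 
(.lf (nat_lit 1342922770) (dlOf (nat_lit 1) (nat_lit 0x400400020008110a02))) 
(.lf (nat_lit 1345019922) (dlOf (nat_lit 1) (nat_lit 0x18008000c002001600089d0383)))) 
(.nd (nat_lit 7) (.lf (nat_lit 1343184914) (dlOf (nat_lit 1) (nat_lit 0x800400060008190082))) 
(.lf (nat_lit 1344233618) (dlOf (nat_lit 1) (nat_lit 0x1e0028520281))))) (.nd (nat_lit 9) 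
(.nd (nat_lit 27) 
(.lf (nat_lit 1410031634) (dlOf (nat_lit 6) (nat_lit 0x7c0348068017400700ae030a05400e402100710094030800001a450e011a06900bf02e80a5015002c4084002001400b000000690c3000701500347e0401f40a8001e04200d0502008202a0067840801b000804c0002013600080d0883))) 
(.lf (nat_lit 470507538) (dlOf (nat_lit 1) (nat_lit 0x400400020008110a02)))) 
(.lf (nat_lit 473653778) (dlOf (nat_lit 2) (nat_lit 0x800000000004003400200180008f87c02)))))) 
(.nd (nat_lit 10) (.nd (nat_lit 26) (.nd (nat_lit 18) (.nd (nat_lit 19) 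
(.lf (nat_lit 2953011218) (dlOf (nat_lit 3) (nat_lit 0x2001c0008e81001200c0000000800b0008000400200e40008080483))) 
(.nd (nat_lit 20) 
(.lf (nat_lit 3492503570) (dlOf (nat_lit 3) (nat_lit 0x6031e02360bf0143045007e81f002a40f0008007600b303a001501b4020c02201a4512000219900940c7802b05d8036c17e01c808a00c403e004a01e0026c0e8000606d002300880690c500008008015c002001800080d0883))) 
(.lf (nat_lit 3493552146) (dlOf (nat_lit 1) (nat_lit 0x8008001000200020008160303))))) 
(.nd (nat_lit 9) 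
(.lf (nat_lit 3491192850) (dlOf (nat_lit 1) (nat_lit 0xa580080ab40020a500008070503))) 
(.lf (nat_lit 2550620690) (dlOf (nat_lit 1) (nat_lit 0x4002000200081b0d82))))) (.nd (nat_lit 12) 
(.nd (nat_lit 19) (.lf (nat_lit 3691208722) (dlOf (nat_lit 1) (nat_lit 0x14002008800080a0482))) 
(.lf (nat_lit 3154862098) (dlOf (nat_lit 1) (nat_lit 0x2400200140008350402)))) (.nd (nat_lit 7) 
(.lf (nat_lit 3556997394) (dlOf (nat_lit 4) (nat_lit 0x1022800100e0000a208003007000100220002802000c01c0001140801a000800b000200d6000812aa83))) 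
(.lf (nat_lit 3556995730) (dlOf (nat_lit 1) (nat_lit 0x20008043400200900008128c83)))))) 
(.nd (nat_lit 7) (.nd (nat_lit 8) 
(.lf (nat_lit 3492766738) (dlOf (nat_lit 1) (nat_lit 0x4002000200080f2882))) 
(.lf (nat_lit 3490147602) (dlOf (nat_lit 1) (nat_lit 0x60018006701)))) (.nd (nat_lit 8) 
(.lf (nat_lit 3489889426) (dlOf (nat_lit 1) (nat_lit 0x12001800c201))) 
(.lf (nat_lit 3489885586) (dlOf (nat_lit 2) (nat_lit 0xa2200002b818006d00))))))) (.nd (nat_lit 10) 
(.nd (nat_lit 19) (.nd (nat_lit 26) (.nd (nat_lit 8) (.nd (nat_lit 27) 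
(.lf (nat_lit 1342398546) (dlOf (nat_lit 1) (nat_lit 0x700080064002001c0008020903))) 
(.lf (nat_lit 939745362) (dlOf (nat_lit 1) (nat_lit 0xf000200240008160902)))) 
(.lf (nat_lit 3087229266) (dlOf (nat_lit 1) (nat_lit 0x50008005c00200280008154d83)))) 
(.nd (nat_lit 18) 
(.lf (nat_lit 469983314) (dlOf (nat_lit 1) (nat_lit 0x700080064002001c0008020903))) 
(.lf (nat_lit 1009213522) (dlOf (nat_lit 5) (nat_lit 0xce07180009c0800c038c000120407c01c6003607600002820223071800000081d900080270002004200090a0783))))) 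
(.nd (nat_lit 26) (.nd (nat_lit 18) (.nd (nat_lit 20) 
(.lf (nat_lit 3492503634) (dlOf (nat_lit 2) (nat_lit 0xa81140002902000600180d0d81))) 
(.lf (nat_lit 5773156434) (dlOf (nat_lit 4) (nat_lit 0x1bc0de01fe0000002b020006015004e8098000840803040000001302000200180b0681)))) 
(.nd (nat_lit 8) 
(.lf (nat_lit 1343184978) (dlOf (nat_lit 1) (nat_lit 0x18008000400200020008190783))) 
(.lf (nat_lit 3490668882) (dlOf (nat_lit 2) (nat_lit 0x83d0000400200480028014d01))))) 
(.nd (nat_lit 20) (.nd (nat_lit 21) 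
(.lf (nat_lit 1410031698) (dlOf (nat_lit 6) (nat_lit 0x2805a001402b800a00f0005006c00440220001785022a02e81a181500ab0084000290600e4054000a0210000a010004015000d40840002704009e054009e0210000841003a000801fc002006000080d0d83))) 
(.lf (nat_lit 472604754) (dlOf (nat_lit 2) (nat_lit 0x306e000080b800058080008004000200189c0782)))) 
(.lf (nat_lit 6377136210) (dlOf (nat_lit 4) (nat_lit 0x1bc0de01fe0000002b020006015004e8098000840803040000001302000200180b0681)))))) 
(.nd (nat_lit 26) (.nd (nat_lit 31) (.nd (nat_lit 7) (.nd (nat_lit 11) 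
(.lf (nat_lit 5637367378) (dlOf (nat_lit 1) (nat_lit 0x1e00180d3881))) 
(.lf (nat_lit 805531218) (dlOf (nat_lit 2) (nat_lit 0xa8000001be04001000200100008117182)))) 
(.lf (nat_lit 1880843474) (dlOf (nat_lit 1) (nat_lit 0x800200020008bb2d82)))) (.nd (nat_lit 8) 
(.nd (nat_lit 12) 
(.lf (nat_lit 3624103122) (dlOf (nat_lit 4) (nat_lit 0x580f40000c04000407a0000502001603d0002000000000100008008000c00200040008146403))) 
(.lf (nat_lit 3489889490) (dlOf (nat_lit 1) (nat_lit 0x40040002000800c302)))) 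
(.lf (nat_lit 3624103378) (dlOf (nat_lit 1) (nat_lit 0x80028146d01))))) (.nd (nat_lit 27) 
(.nd (nat_lit 32) 
(.lf (nat_lit 872637650) (dlOf (nat_lit 2) (nat_lit 0x80700003b0200080028092d81))) 
(.lf (nat_lit 5167604946) (dlOf (nat_lit 2) (nat_lit 0x80280000002001000080d2d81)))) 
(.nd (nat_lit 7) (.lf (nat_lit 473392466) (dlOf (nat_lit 1) (nat_lit 0x8008000400200020008f53303))) 
(.nd (nat_lit 30) 
(.lf (nat_lit 5301822674) (dlOf (nat_lit 3) (nat_lit 0x26000000070100080088000000802b8008002c00200700008092d83))) 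
(.lf (nat_lit 2080597202) (dlOf (nat_lit 1) (nat_lit 0x400200020008092d82)))))))))) 
(.nd (nat_lit 18) (.nd (nat_lit 26) (.nd (nat_lit 21) (.nd (nat_lit 29) (.nd (nat_lit 28) 
(.nd (nat_lit 8) (.nd (nat_lit 19) 
(.lf (nat_lit 25387034) (dlOf (nat_lit 1) (nat_lit 0x8008003400200020008c00483))) 
(.lf (nat_lit 22765594) (dlOf (nat_lit 1) (nat_lit 0x400400020008b20482)))) (.nd (nat_lit 6) 
(.nd (nat_lit 11) (.lf (nat_lit 9658650) (dlOf (nat_lit 1) (nat_lit 0x20018574001))) 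
(.lf (nat_lit 227610) (dlOf (nat_lit 1) (nat_lit 0x800800040020002000800ab03)))) 
(.lf (nat_lit 3221450074) (dlOf (nat_lit 1) (nat_lit 0x20028116a81))))) (.nd (nat_lit 7) 
(.nd (nat_lit 6) 
(.lf (nat_lit 1342922778) (dlOf (nat_lit 2) (nat_lit 0x20113000570080080008000800200020008110a83))) 
(.lf (nat_lit 4697841754) (dlOf (nat_lit 1) (nat_lit 0x9a00080a1881)))) (.nd (nat_lit 10) 
(.lf (nat_lit 4563624090) (dlOf (nat_lit 1) (nat_lit 0x800080a2b81))) 
(.lf (nat_lit 3489885338) (dlOf (nat_lit 1) (nat_lit 0x10008000400200020008006203)))))) 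
(.nd (nat_lit 31) (.nd (nat_lit 27) (.nd (nat_lit 19) 
(.lf (nat_lit 4832059418) (dlOf (nat_lit 1) (nat_lit 0x200280c0181))) 
(.lf (nat_lit 537616410) (dlOf (nat_lit 1) (nat_lit 0x1c00180d0881)))) (.nd (nat_lit 8) 
(.lf (nat_lit 5234712602) (dlOf (nat_lit 1) (nat_lit 0x1600080c0181))) 
(.lf (nat_lit 4966277402) (dlOf (nat_lit 1) (nat_lit 0x20018090a81))))) (.nd (nat_lit 6) 
(.nd (nat_lit 7) 
(.lf (nat_lit 2953011226) (dlOf (nat_lit 2) (nat_lit 0x2ac038000000200560018080501))) 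
(.lf (nat_lit 3892541594) (dlOf (nat_lit 2) (nat_lit 0x401680098a040060004003a001815a882)))) 
(.nd (nat_lit 7) (.lf (nat_lit 2818797402) (dlOf (nat_lit 1) (nat_lit 0x60018127781))) 
(.lf (nat_lit 2818797786) (dlOf (nat_lit 1) (nat_lit 0x300028128081))))))) (.nd (nat_lit 7) 
(.nd (nat_lit 25) (.nd (nat_lit 8) (.nd (nat_lit 19) 
(.lf (nat_lit 27484186) (dlOf (nat_lit 1) (nat_lit 0x2000400080018cf0482))) 
(.lf (nat_lit 1345019930) (dlOf (nat_lit 4) (nat_lit 0x18260016a0bd000ae02000e05e8005540800404900019404000c002005a00089d0602)))) 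
(.nd (nat_lit 9) 
(.lf (nat_lit 20144410) (dlOf (nat_lit 1) (nat_lit 0x1080080004002000200089d0a83))) 
(.lf (nat_lit 20146970) (dlOf (nat_lit 1) (nat_lit 0x4002000200089d5c02))))) (.nd (nat_lit 10) 
(.nd (nat_lit 6) 
(.lf (nat_lit 52650010) (dlOf (nat_lit 3) (nat_lit 0x4e2f000ae010003675000554080220008000400200340009560603))) 
(.lf (nat_lit 36923994) (dlOf (nat_lit 2) (nat_lit 0x14630000d30a80280ff00005c0c000c002000e0009075302)))) 
(.nd (nat_lit 11) 
(.lf (nat_lit 50029594) (dlOf (nat_lit 1) (nat_lit 0x280080004002000200094c2883))) 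
(.lf (nat_lit 54225946) (dlOf (nat_lit 4) (nat_lit 0x290000000d00801892c0008c93c000150400484b100412580016927c00a493c000120801340019656001)))))) 
(.nd (nat_lit 11) (.nd (nat_lit 10) (.nd (nat_lit 6) 
(.lf (nat_lit 3367322) (dlOf (nat_lit 1) (nat_lit 0x1d0008007800200e00008200783))) 
(.lf (nat_lit 36398042) (dlOf (nat_lit 1) (nat_lit 0x400200900009072882)))) (.nd (nat_lit 23) 
(.lf (nat_lit 53175706) (dlOf (nat_lit 1) (nat_lit 0x1800400020019573602))) 
(.lf (nat_lit 61564314) (dlOf (nat_lit 1) (nat_lit 0x20019923601))))) (.nd (nat_lit 6) 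
(.nd (nat_lit 19) (.lf (nat_lit 36923802) (dlOf (nat_lit 1) (nat_lit 0x5c00400020009074e82))) 
(.lf (nat_lit 57371034) (dlOf (nat_lit 1) (nat_lit 0xc8008003800200140009794e83)))) 
(.lf (nat_lit 50031322) (dlOf (nat_lit 1) (nat_lit 0x58008002c002000200094c5903))))))) 
(.nd (nat_lit 30) (.nd (nat_lit 28) (.nd (nat_lit 9) (.nd (nat_lit 7) (.nd (nat_lit 27) 
(.lf (nat_lit 4899168282) (dlOf (nat_lit 3) (nat_lit 0x200e0001140800380700007c040034004002800180c0182))) 
(.lf (nat_lit 4496515098) (dlOf (nat_lit 5) (nat_lit 0x140340074302002e01c001900d801280680030030006c00b0039985001500e0007806c0060034000a0180034005801cc828013006800dde0401d0004000e00180b0a02)))) 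
(.lf (nat_lit 2349031834) (dlOf (nat_lit 1) (nat_lit 0x20028090781)))) (.nd (nat_lit 6) 
(.lf (nat_lit 2349031962) (dlOf (nat_lit 1) (nat_lit 0xc000402b80008090d82))) 
(.lf (nat_lit 2214819418) (dlOf (nat_lit 1) (nat_lit 0x1600280a9c01))))) (.nd (nat_lit 7) 
(.nd (nat_lit 29) 
(.lf (nat_lit 470507546) (dlOf (nat_lit 2) (nat_lit 0x20113000548080080008000800200020008110a83))) 
(.lf (nat_lit 3154862106) (dlOf (nat_lit 4) (nat_lit 0x280580037402000402c001b801000c0160000000800f00080498002002e0008350583)))) 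
(.nd (nat_lit 27) (.lf (nat_lit 872637594) (dlOf (nat_lit 1) (nat_lit 0x20028092b81))) 
(.nd (nat_lit 29) 
(.lf (nat_lit 4764951706) (dlOf (nat_lit 1) (nat_lit 0x8008000400200040008092b83))) 
(.lf (nat_lit 5301822618) (dlOf (nat_lit 3) (nat_lit 0x24011000aa01001000880050c080258008012c00200400008092b83))))))) 
(.nd (nat_lit 6) (.nd (nat_lit 8) (.nd (nat_lit 19) 
(.lf (nat_lit 3691208730) (dlOf (nat_lit 2) (nat_lit 0x11c03a0000002006600180a0501))) 
(.lf (nat_lit 1410031642) (dlOf (nat_lit 1) (nat_lit 0x1c00180d0881)))) (.nd (nat_lit 7) 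
(.nd (nat_lit 10) (.lf (nat_lit 6241348378) (dlOf (nat_lit 1) (nat_lit 0xe0004000200180d5c02))) 
(.lf (nat_lit 3556994842) (dlOf (nat_lit 1) (nat_lit 0x40018127481)))) 
(.lf (nat_lit 1677944730) (dlOf (nat_lit 1) (nat_lit 0xc00400040008114282))))) (.nd (nat_lit 8) 
(.nd (nat_lit 9) (.nd (nat_lit 19) 
(.lf (nat_lit 1812160602) (dlOf (nat_lit 2) (nat_lit 0x10026000d01100008084004380c00a000400900018160982))) 
(.lf (nat_lit 4096483418) (dlOf (nat_lit 1) (nat_lit 0x8008000400200020008120683)))) 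
(.lf (nat_lit 3556995674) (dlOf (nat_lit 1) (nat_lit 0x1c0008000400200020008128983)))) 
(.nd (nat_lit 9) 
(.lf (nat_lit 3825426778) (dlOf (nat_lit 1) (nat_lit 0x248008003c002001a0008154e83))) 
(.lf (nat_lit 3556996954) (dlOf (nat_lit 1) (nat_lit 0x100040006000812a282)))))))) 
(.nd (nat_lit 19) (.nd (nat_lit 8) (.nd (nat_lit 28) (.nd (nat_lit 6) (.nd (nat_lit 10) 
(.nd (nat_lit 20) (.lf (nat_lit 19357722) (dlOf (nat_lit 1) (nat_lit 0x20008990a01))) 
(.lf (nat_lit 9920538) (dlOf (nat_lit 5) (nat_lit 0x2253c00047980002e0400063cc000168100061e780009c080020f3c0004c040058004002e0008590402)))) 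
(.lf (nat_lit 44524570) (dlOf (nat_lit 1) (nat_lit 0xb80019322881)))) (.nd (nat_lit 9) 
(.nd (nat_lit 22) (.lf (nat_lit 3892797530) (dlOf (nat_lit 1) (nat_lit 0x20018280381))) 
(.lf (nat_lit 21454938) (dlOf (nat_lit 1) (nat_lit 0x80008013c00200500008a40683)))) 
(.lf (nat_lit 43476570) (dlOf (nat_lit 1) (nat_lit 0x400192a3901))))) (.nd (nat_lit 27) 
(.nd (nat_lit 6) (.nd (nat_lit 20) 
(.lf (nat_lit 3557253146) (dlOf (nat_lit 1) (nat_lit 0x8008000400200020008180503))) 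
(.lf (nat_lit 1343709210) (dlOf (nat_lit 2) (nat_lit 0x305940003a04000400400040018340502)))) 
(.lf (nat_lit 2416402522) (dlOf (nat_lit 1) (nat_lit 0x200181b0001)))) (.nd (nat_lit 6) 
(.nd (nat_lit 21) (.lf (nat_lit 1007116314) (dlOf (nat_lit 1) (nat_lit 0x400281a0501))) 
(.lf (nat_lit 1009213466) (dlOf (nat_lit 2) (nat_lit 0x10758000180800a800800a8002004a00090a0103)))) 
(.lf (nat_lit 1009213530) (dlOf (nat_lit 2) (nat_lit 0xf838c00038040028004002400090a0882)))))) 
(.nd (nat_lit 26) (.nd (nat_lit 11) (.nd (nat_lit 10) (.nd (nat_lit 29) 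
(.lf (nat_lit 3221709210) (dlOf (nat_lit 2) (nat_lit 0x801f001c14080068008002400200040008170783))) 
(.lf (nat_lit 537354650) (dlOf (nat_lit 1) (nat_lit 0x8008000800200b40008090783)))) 
(.lf (nat_lit 52913562) (dlOf (nat_lit 1) (nat_lit 0x40029573601)))) (.nd (nat_lit 24) 
(.lf (nat_lit 3490146714) (dlOf (nat_lit 1) (nat_lit 0x8008000400200020008004e83))) 
(.lf (nat_lit 50817434) (dlOf (nat_lit 1) (nat_lit 0x800080004002000a00094c4e83))))) 
(.nd (nat_lit 7) 
(.lf (nat_lit 1678205210) (dlOf (nat_lit 2) (nat_lit 0x8005a0009202000200181a0481))) 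
(.nd (nat_lit 27) (.lf (nat_lit 1409769882) (dlOf (nat_lit 1) (nat_lit 0x400400020018090782))) 
(.lf (nat_lit 3959906714) (dlOf (nat_lit 2) (nat_lit 0x201f0032d80801d000800c0002004a0008170783))))))) 
(.nd (nat_lit 20) (.nd (nat_lit 8) (.nd (nat_lit 28) (.nd (nat_lit 6) (.nd (nat_lit 26) 
(.lf (nat_lit 1007642) (dlOf (nat_lit 1) (nat_lit 0xc00200020008050b02))) 
(.lf (nat_lit 68116506) (dlOf (nat_lit 1) (nat_lit 0x14002000600083f0502)))) 
(.lf (nat_lit 26173658) (dlOf (nat_lit 1) (nat_lit 0x20008c10581)))) (.nd (nat_lit 9) 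
(.lf (nat_lit 1343184922) (dlOf (nat_lit 1) (nat_lit 0x800200040008190102))) 
(.lf (nat_lit 3490669082) (dlOf (nat_lit 2) (nat_lit 0x215400202018017f00))))) (.nd (nat_lit 6) 
(.nd (nat_lit 11) 
(.lf (nat_lit 19882778) (dlOf (nat_lit 2) (nat_lit 0x13b0c000e302000200089d2101))) 
(.lf (nat_lit 19884826) (dlOf (nat_lit 1) (nat_lit 0x4002000200089d5c02)))) 
(.lf (nat_lit 3490668890) (dlOf (nat_lit 1) (nat_lit 0x9800200580008014e82))))) (.nd (nat_lit 6) 
(.nd (nat_lit 25) (.nd (nat_lit 26) (.nd (nat_lit 21) 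
(.lf (nat_lit 10444826) (dlOf (nat_lit 3) (nat_lit 0xb0ab00003d02003a5490001b0185e0b00))) 
(.lf (nat_lit 20930586) (dlOf (nat_lit 1) (nat_lit 0x8002000200089f0102)))) (.nd (nat_lit 9) 
(.lf (nat_lit 473915418) (dlOf (nat_lit 2) (nat_lit 0x1330ab003b850c04dc276025013901330668000bc280308008007c00200380008fc0103))) 
(.lf (nat_lit 2755617306) (dlOf (nat_lit 2) (nat_lit 0x702100050c0800200080014002000e00081b0d83))))) 
(.nd (nat_lit 7) (.nd (nat_lit 8) 
(.lf (nat_lit 46099482) (dlOf (nat_lit 1) (nat_lit 0x20029386001))) 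
(.lf (nat_lit 54485274) (dlOf (nat_lit 1) (nat_lit 0x20019650a81)))) 
(.lf (nat_lit 41903258) (dlOf (nat_lit 1) (nat_lit 0x400400060009242b82))))) (.nd (nat_lit 7) 
(.nd (nat_lit 9) (.lf (nat_lit 12542042) (dlOf (nat_lit 2) (nat_lit 0x69140004000000080286d1180))) 
(.lf (nat_lit 1346333274) (dlOf (nat_lit 12) (nat_lit 0x1fc2d201d816800f00b3007c051404042860052142008709e805f833c03d418e01520c600c705e802200a4020c03a00da01c000140e001a00e8000980802405300004284000a0d7000128301af0b480ab059805c003a0001f06004a169000500e8000681003705a4007c2d0003e166003d0a28011831c00c403a000130c0012168000b0b3000f0514007c03a0000c08001a145000058100100b4801e85a0004c03a00004060086169001a00e8000081003705a400b803a0000004000e0018f05301)))) 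
(.lf (nat_lit 8352474) (dlOf (nat_lit 1) (nat_lit 0x400200020008518c82)))))))))) (.nd (nat_lit 3) 
(.nd (nat_lit 28) (.nd (nat_lit 18) (.nd (nat_lit 16) (.nd (nat_lit 29) (.nd (nat_lit 6) 
(.nd (nat_lit 23) (.nd (nat_lit 30) (.nd (nat_lit 9) (.nd (nat_lit 19) 
(.lf (nat_lit 2348965938) (dlOf (nat_lit 2) (nat_lit 0x100380000a040088004000a0008070982))) 
(.lf (nat_lit 2777138) (dlOf (nat_lit 1) (nat_lit 0x200281b0f81)))) 
(.lf (nat_lit 4362232370) (dlOf (nat_lit 1) (nat_lit 0x1000200300008018b02)))) (.nd (nat_lit 19) 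
(.nd (nat_lit 31) (.lf (nat_lit 5435973682) (dlOf (nat_lit 1) (nat_lit 0xa0028080601))) 
(.lf (nat_lit 3288490034) (dlOf (nat_lit 1) (nat_lit 0xd8008003c002003c0008030d03)))) 
(.lf (nat_lit 3221905458) (dlOf (nat_lit 7) (nat_lit 0x14070000540204b0046007902180014c1012e0118000c086000520401ba05400dd0280081813002d009003880450103021007600fc005806601a4030009c017007d00a8019001e021800900210038081801404000000001720001004500007810212023000000080bd00080188002053600081b0683))))) 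
(.nd (nat_lit 9) (.nd (nat_lit 7) 
(.lf (nat_lit 29515826) (dlOf (nat_lit 1) (nat_lit 0x10008000400200020008e10803))) 
(.lf (nat_lit 11690418) (dlOf (nat_lit 5) (nat_lit 0x10ee8f805b71b8048b8c00243c5e00b5ded807c6f4c04437a001ad3f4010a8e08063c6e000ae350001116500ac0000033b468086747c045b8c00235c5e00fbde98086ef40005e37000cec0c012bd1f0120e300090717803db7a60221bd000308dc001446a002c000000ce3100219d1f0111e300086717803ff7a6021dbd000480000033883015b0008027c002026600086c0783)))) 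
(.nd (nat_lit 11) 
(.lf (nat_lit 11690546) (dlOf (nat_lit 6) (nat_lit 0x239e31811eef580004408093b8c60493bd600004820246e3181216f580000a08009f7ac0000102048fc630243deb0000001001c00080008002012e00086c0f03))) 
(.lf (nat_lit 58878514) (dlOf (nat_lit 2) (nat_lit 0x135f40009a5e0004c24000458397e5180)))))) 
(.nd (nat_lit 8) (.nd (nat_lit 7) (.nd (nat_lit 20) 
(.lf (nat_lit 19030130) (dlOf (nat_lit 1) (nat_lit 0x400200020008970482))) 
(.lf (nat_lit 24273010) (dlOf (nat_lit 1) (nat_lit 0x7000803e000201f80008b91603)))) 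
(.lf (nat_lit 1275225330) (dlOf (nat_lit 1) (nat_lit 0x18008001400200020008092e83)))) 
(.nd (nat_lit 9) (.lf (nat_lit 61498866) (dlOf (nat_lit 1) (nat_lit 0x10c00200620009923602))) 
(.nd (nat_lit 20) (.lf (nat_lit 38429682) (dlOf (nat_lit 1) (nat_lit 0x20009132881))) 
(.lf (nat_lit 39478258) (dlOf (nat_lit 1) (nat_lit 0x2a0019192881))))))) (.nd (nat_lit 19) 
(.nd (nat_lit 8) (.nd (nat_lit 6) (.nd (nat_lit 9) (.nd (nat_lit 27) 
(.lf (nat_lit 604135474) (dlOf (nat_lit 2) (nat_lit 0xa01a000544080048008016400200e40008030483))) 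
(.lf (nat_lit 6107062322) (dlOf (nat_lit 4) (nat_lit 0x40016001200a0000481000680500002204008002c0012015001100a0000341801c0008014c00200040008040383)))) 
(.lf (nat_lit 1610769970) (dlOf (nat_lit 1) (nat_lit 0x20008093781)))) 
(.lf (nat_lit 1677879538) (dlOf (nat_lit 1) (nat_lit 0x58008003800200100008114b83)))) 
(.nd (nat_lit 6) (.nd (nat_lit 9) 
(.lf (nat_lit 3959585074) (dlOf (nat_lit 1) (nat_lit 0x88008006c0020012000811ab83))) 
(.lf (nat_lit 671246130) (dlOf (nat_lit 7) (nat_lit 0x50110005004c000380800580180001b02002e0250017011000d007c006c026003200c000500000006830003809400380260000b04000801300005010008009800024080008008002c00200240008143d83)))) 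
(.nd (nat_lit 7) (.lf (nat_lit 4831994226) (dlOf (nat_lit 1) (nat_lit 0x20018085801))) 
(.lf (nat_lit 3758256626) (dlOf (nat_lit 1) (nat_lit 0xa0018128681)))))) (.nd (nat_lit 31) 
(.nd (nat_lit 6) (.nd (nat_lit 26) 
(.lf (nat_lit 537550898) (dlOf (nat_lit 1) (nat_lit 0x500080068002002400080a0a03))) 
(.lf (nat_lit 1678401586) (dlOf (nat_lit 2) (nat_lit 0x7a02880005c0800f8008000800200100008210683)))) 
(.lf (nat_lit 537550962) (dlOf (nat_lit 1) (nat_lit 0x200280a1601)))) (.nd (nat_lit 9) 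
(.nd (nat_lit 10) (.nd (nat_lit 21) 
(.lf (nat_lit 3960102962) (dlOf (nat_lit 7) (nat_lit 0x14070000540204b0046007902180014c1012e0118000c086000520401ba05400dd0280081813002d009003880450103021007600fc005806601a4030009c017007d00a8019001e021800900210038081801404000000001720001004500007810212023000000080bd00080188002053600081b0683))) 
(.lf (nat_lit 2754240562) (dlOf (nat_lit 1) (nat_lit 0xc004000600080d0b82)))) 
(.lf (nat_lit 2752144434) (dlOf (nat_lit 1) (nat_lit 0x400200020008002882)))) (.nd (nat_lit 6) 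
(.lf (nat_lit 2753192498) (dlOf (nat_lit 2) (nat_lit 0xe4000000050200020008090f01))) 
(.lf (nat_lit 2752144370) (dlOf (nat_lit 1) (nat_lit 0x20008002881)))))))) (.nd (nat_lit 26) 
(.nd (nat_lit 19) (.nd (nat_lit 9) (.nd (nat_lit 21) (.nd (nat_lit 7) 
(.lf (nat_lit 25387058) (dlOf (nat_lit 1) (nat_lit 0x8008000400200020008c00683))) (.nd (nat_lit 8) 
(.lf (nat_lit 2281927858) (dlOf (nat_lit 1) (nat_lit 0x4004000200080a9502))) 
(.lf (nat_lit 2818798002) (dlOf (nat_lit 1) (nat_lit 0x300080034002005c0008128503))))) 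
(.nd (nat_lit 6) 
(.lf (nat_lit 14901298) (dlOf (nat_lit 3) (nat_lit 0xa9ce005900000071c1001f80000037a04000800200040008790482))) 
(.nd (nat_lit 8) (.lf (nat_lit 2318450) (dlOf (nat_lit 2) (nat_lit 0x2b0100124018150080))) 
(.lf (nat_lit 23290226) (dlOf (nat_lit 1) (nat_lit 0x20028b80781)))))) (.nd (nat_lit 11) 
(.nd (nat_lit 6) 
(.lf (nat_lit 671311666) (dlOf (nat_lit 7) (nat_lit 0x4404a00320130000e020019017001c8030000c0000001b06005602e000b01400190094005803e0062013002e006000068300100094004003e001a0130000583000f0128003007c003c0260000a06000a02500004818143d80))) 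
(.lf (nat_lit 20148850) (dlOf (nat_lit 1) (nat_lit 0x4002000200089d8982)))) (.nd (nat_lit 20) 
(.lf (nat_lit 1745054258) (dlOf (nat_lit 3) (nat_lit 0x2037000fe01000901200079c0802e0008001000200020008095183))) 
(.lf (nat_lit 55798322) (dlOf (nat_lit 1) (nat_lit 0x180080014002000600096d5183)))))) 
(.nd (nat_lit 7) (.nd (nat_lit 22) (.nd (nat_lit 21) 
(.lf (nat_lit 537616434) (dlOf (nat_lit 1) (nat_lit 0x4002000200080d0b82))) 
(.lf (nat_lit 36397106) (dlOf (nat_lit 1) (nat_lit 0x20019070001)))) (.nd (nat_lit 20) 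
(.lf (nat_lit 13328434) (dlOf (nat_lit 4) (nat_lit 0x40000000360201a3a1d00017010010d0e8000b4080010008000c00200040008720f83))) 
(.lf (nat_lit 22765618) (dlOf (nat_lit 8) (nat_lit 0x42b780002e0400255bc00016020014ade0000701000956f000225ac0001808001d6080010ade000356d000018180042b780000804000d6080014ade000c4b58000001800c00080018002001c0008b20e03))))) 
(.nd (nat_lit 6) (.nd (nat_lit 10) 
(.lf (nat_lit 48982450) (dlOf (nat_lit 1) (nat_lit 0x20019464e81))) 
(.lf (nat_lit 61564338) (dlOf (nat_lit 1) (nat_lit 0x60029923601)))) 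
(.lf (nat_lit 14377202) (dlOf (nat_lit 1) (nat_lit 0xa0028750701)))))) (.nd (nat_lit 29) 
(.nd (nat_lit 8) (.nd (nat_lit 10) (.nd (nat_lit 11) 
(.lf (nat_lit 3288556082) (dlOf (nat_lit 4) (nat_lit 0xf80400002702004e020000048100270100000140800800080004002003c0008090f03))) 
(.lf (nat_lit 5436041778) (dlOf (nat_lit 2) (nat_lit 0x400c0000403a001e70400480018095181)))) 
(.lf (nat_lit 6509784626) (dlOf (nat_lit 1) (nat_lit 0x400200020008147182)))) (.nd (nat_lit 6) 
(.lf (nat_lit 3288555954) (dlOf (nat_lit 2) (nat_lit 0x3403600bf0818090780))) (.nd (nat_lit 7) 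
(.lf (nat_lit 3288555890) (dlOf (nat_lit 4) (nat_lit 0x800c80306e04019001e007f002003202e001b016801d14100668008012000200040008090783))) 
(.lf (nat_lit 3288556018) (dlOf (nat_lit 3) (nat_lit 0xa602b000b201020801a8002f40805c000802c4002020e0008090d83)))))) 
(.nd (nat_lit 6) (.nd (nat_lit 9) (.nd (nat_lit 10) (.nd (nat_lit 20) 
(.lf (nat_lit 4899168306) (dlOf (nat_lit 1) (nat_lit 0x2800280c0601))) 
(.lf (nat_lit 2752733234) (dlOf (nat_lit 2) (nat_lit 0x10fe80053808005800800c4002001c0008030d03)))) 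
(.lf (nat_lit 2885903410) (dlOf (nat_lit 1) (nat_lit 0x40028142881)))) 
(.lf (nat_lit 3825426994) (dlOf (nat_lit 1) (nat_lit 0x4c00400040008158002)))) 
(.lf (nat_lit 2753781874) (dlOf (nat_lit 2) (nat_lit 0xa2154000fc018090080))))))) (.nd (nat_lit 19) 
(.nd (nat_lit 8) (.nd (nat_lit 16) (.nd (nat_lit 9) (.nd (nat_lit 20) (.nd (nat_lit 30) 
(.nd (nat_lit 27) (.lf (nat_lit 4295385138) (dlOf (nat_lit 1) (nat_lit 0x8200081b0a01))) 
(.lf (nat_lit 4429602866) (dlOf (nat_lit 1) (nat_lit 0x8200081b0a01)))) (.nd (nat_lit 26) 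
(.lf (nat_lit 1074159666) (dlOf (nat_lit 9) (nat_lit 0x8301600c2804c0006c0806cc058036a0130001a0203bc0148000c80820300a4004005001a400c000180301f60148000b80801b00b00778052015c013000168300700148000ac0807d80a40005204004c002001600080c0f82))) 
(.lf (nat_lit 3288752178) (dlOf (nat_lit 10) (nat_lit 0xe80800039a040064040001a802032e02000dd005800284100c5808001d403a021200b0003f0301b4010006b802c00048080058040000220200d20200000a0100920100001002c00024080004040000100201f200180d0b81))))) 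
(.nd (nat_lit 22) (.lf (nat_lit 26632242) (dlOf (nat_lit 2) (nat_lit 0x129d4000e3818c50480))) 
(.lf (nat_lit 22437938) (dlOf (nat_lit 1) (nat_lit 0x8008000400200080008ae0683))))) 
(.nd (nat_lit 22) (.nd (nat_lit 26) 
(.lf (nat_lit 134636082) (dlOf (nat_lit 2) (nat_lit 0x403a00000018090f00))) 
(.lf (nat_lit 201744946) (dlOf (nat_lit 2) (nat_lit 0x403a00000018090f00)))) 
(.lf (nat_lit 21389874) (dlOf (nat_lit 3) (nat_lit 0x76e600039020002d1f0000f018a38000))))) 
(.nd (nat_lit 21) (.nd (nat_lit 6) (.nd (nat_lit 27) 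
(.lf (nat_lit 4362559538) (dlOf (nat_lit 1) (nat_lit 0x140028090001))) 
(.lf (nat_lit 2886164530) (dlOf (nat_lit 2) (nat_lit 0x20000000000200040008170d01)))) 
(.lf (nat_lit 3288817778) (dlOf (nat_lit 1) (nat_lit 0x400281b0081)))) (.nd (nat_lit 9) 
(.lf (nat_lit 19357746) (dlOf (nat_lit 1) (nat_lit 0x20008990c01))) 
(.lf (nat_lit 12018226) (dlOf (nat_lit 1) (nat_lit 0x2800086c0f01)))))) (.nd (nat_lit 6) 
(.nd (nat_lit 26) (.nd (nat_lit 10) 
(.lf (nat_lit 134635954) (dlOf (nat_lit 1) (nat_lit 0x4800400300008090782))) 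
(.lf (nat_lit 8873394) (dlOf (nat_lit 1) (nat_lit 0x400200020008513602)))) (.nd (nat_lit 27) 
(.lf (nat_lit 1678139826) (dlOf (nat_lit 2) (nat_lit 0xd015801d3004004c004000200081a0782))) 
(.nd (nat_lit 29) 
(.lf (nat_lit 201744818) (dlOf (nat_lit 5) (nat_lit 0x17807600a4036000c00b8033b41803b00ec028806c00260170067603005001d802100d8019c60800380760016036000600b8033881802c8008023400200bc0008090783))) 
(.lf (nat_lit 3959841202) (dlOf (nat_lit 2) (nat_lit 0xf00f80194e040050004000a0008170782)))))) 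
(.nd (nat_lit 9) (.nd (nat_lit 7) 
(.lf (nat_lit 134635890) (dlOf (nat_lit 2) (nat_lit 0x7e03b016501b0078005c00e8a0c00c000200020008090782))) 
(.lf (nat_lit 134636018) (dlOf (nat_lit 2) (nat_lit 0xdf80480017a04000800200040008090d82)))) 
(.nd (nat_lit 16) (.lf (nat_lit 45507570) (dlOf (nat_lit 1) (nat_lit 0x20029322881))) 
(.lf (nat_lit 51864562) (dlOf (nat_lit 1) (nat_lit 0x20029512881))))))) (.nd (nat_lit 6) 
(.nd (nat_lit 20) (.nd (nat_lit 21) (.nd (nat_lit 16) (.nd (nat_lit 9) 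
(.lf (nat_lit 21913650) (dlOf (nat_lit 1) (nat_lit 0x20008a80d01))) 
(.lf (nat_lit 2752406066) (dlOf (nat_lit 1) (nat_lit 0x8008000400200020008018b03)))) 
(.nd (nat_lit 23) (.lf (nat_lit 5201970) (dlOf (nat_lit 1) (nat_lit 0x8008000400200020008320783))) 
(.lf (nat_lit 13590578) (dlOf (nat_lit 1) (nat_lit 0x200080004002003a0008730b83))))) 
(.nd (nat_lit 7) (.nd (nat_lit 9) 
(.lf (nat_lit 11427890) (dlOf (nat_lit 2) (nat_lit 0x28319800050080070008001c002002000086a0983))) 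
(.lf (nat_lit 3039794) (dlOf (nat_lit 4) (nat_lit 0x30388000780800201940002e0400141c60012071000203280004c1800380080044002000a0008200f03)))) 
(.lf (nat_lit 3039666) (dlOf (nat_lit 1) (nat_lit 0x320018200781))))) (.nd (nat_lit 8) 
(.nd (nat_lit 9) (.nd (nat_lit 10) 
(.lf (nat_lit 4087858) (dlOf (nat_lit 1) (nat_lit 0x20008000400200040008280683))) 
(.lf (nat_lit 35546162) (dlOf (nat_lit 1) (nat_lit 0x4a0019012881)))) 
(.lf (nat_lit 2753454642) (dlOf (nat_lit 2) (nat_lit 0x804200000018090f00)))) (.nd (nat_lit 10) 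
(.lf (nat_lit 6185266) (dlOf (nat_lit 1) (nat_lit 0x2a0008420701))) 
(.lf (nat_lit 8353074) (dlOf (nat_lit 1) (nat_lit 0x260018519881)))))) (.nd (nat_lit 7) 
(.nd (nat_lit 16) (.nd (nat_lit 8) 
(.lf (nat_lit 52322418) (dlOf (nat_lit 1) (nat_lit 0x2000400300009521d82))) 
(.lf (nat_lit 3039602) (dlOf (nat_lit 1) (nat_lit 0x400400080018200782)))) (.nd (nat_lit 11) 
(.nd (nat_lit 12) (.lf (nat_lit 7299186) (dlOf (nat_lit 1) (nat_lit 0x800184b0481))) 
(.lf (nat_lit 19886194) (dlOf (nat_lit 1) (nat_lit 0x800089d7d81)))) 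
(.lf (nat_lit 8349810) (dlOf (nat_lit 1) (nat_lit 0x20018514781))))) (.nd (nat_lit 8) 
(.nd (nat_lit 20) (.lf (nat_lit 3039474) (dlOf (nat_lit 1) (nat_lit 0x20018200481))) 
(.lf (nat_lit 6185202) (dlOf (nat_lit 1) (nat_lit 0xc0018420601)))) (.nd (nat_lit 16) 
(.nd (nat_lit 20) 
(.lf (nat_lit 3039730) (dlOf (nat_lit 2) (nat_lit 0x13900000017a04029c00200100008200d82))) 
(.lf (nat_lit 2755551730) (dlOf (nat_lit 2) (nat_lit 0x401d70005e8181b0d80)))) 
(.lf (nat_lit 3105266) (dlOf (nat_lit 2) (nat_lit 0x8fc000000bd02000e0018200d81))))))))) 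
(.nd (nat_lit 26) (.nd (nat_lit 31) (.nd (nat_lit 19) (.nd (nat_lit 18) (.nd (nat_lit 30) 
(.nd (nat_lit 6) (.nd (nat_lit 8) 
(.lf (nat_lit 268591154) (dlOf (nat_lit 12) (nat_lit 0xb0016004900a8038005000d8026000200800040140000b81002b00a00005808009805000024040008028000110200180140000781000900a0000380800580500001a0400480280000b0200240140000501000d00a0000000802c8008009400200320008090383))) 
(.lf (nat_lit 4697841970) (dlOf (nat_lit 1) (nat_lit 0x84004000c00180a5b82)))) 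
(.lf (nat_lit 5234647410) (dlOf (nat_lit 1) (nat_lit 0x400400020008075802)))) (.nd (nat_lit 6) 
(.nd (nat_lit 9) 
(.lf (nat_lit 1476550706) (dlOf (nat_lit 7) (nat_lit 0x3cc0220042002000e882000200000073c0800700440039204005c086001b702000201f00040000004dc1004b80440010204008c004003c0008050482))) 
(.lf (nat_lit 1345481266) (dlOf (nat_lit 2) (nat_lit 0x211a000b8818c35180)))) 
(.lf (nat_lit 5772633330) (dlOf (nat_lit 1) (nat_lit 0x400200020008092e82))))) (.nd (nat_lit 6) 
(.nd (nat_lit 7) (.nd (nat_lit 8) 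
(.lf (nat_lit 1476813874) (dlOf (nat_lit 3) (nat_lit 0x7022800300f00014072000e0230038284000601e001ac4080048008001800200140008202883))) 
(.lf (nat_lit 1881563442) (dlOf (nat_lit 1) (nat_lit 0x18008001000200080008f60b03)))) 
(.lf (nat_lit 1344693426) (dlOf (nat_lit 1) (nat_lit 0x18008000800200020008982c03)))) 
(.nd (nat_lit 8) (.nd (nat_lit 9) 
(.lf (nat_lit 1346789618) (dlOf (nat_lit 1) (nat_lit 0x3400400240009001e82))) 
(.lf (nat_lit 4698106610) (dlOf (nat_lit 1) (nat_lit 0x8008000400200020008125a03)))) 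
(.lf (nat_lit 1476814322) (dlOf (nat_lit 1) (nat_lit 0x80028203601)))))) (.nd (nat_lit 16) 
(.nd (nat_lit 6) (.nd (nat_lit 10) 
(.lf (nat_lit 805986354) (dlOf (nat_lit 2) (nat_lit 0x7a02880005c0800f8008000800200100008210683))) 
(.lf (nat_lit 1346266162) (dlOf (nat_lit 1) (nat_lit 0x1e80008e82881)))) (.nd (nat_lit 7) 
(.nd (nat_lit 8) (.lf (nat_lit 1344168050) (dlOf (nat_lit 1) (nat_lit 0x20028490081))) 
(.lf (nat_lit 5772304754) (dlOf (nat_lit 1) (nat_lit 0x400200020008091002)))) 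
(.lf (nat_lit 1346266610) (dlOf (nat_lit 1) (nat_lit 0x18008000800200260008e83603))))) 
(.nd (nat_lit 20) (.nd (nat_lit 18) 
(.lf (nat_lit 5772107826) (dlOf (nat_lit 1) (nat_lit 0x40028080601))) 
(.lf (nat_lit 1343184946) (dlOf (nat_lit 3) (nat_lit 0xa155000e38100040aa8006f40800200080010002000e0008190483)))) 
(.nd (nat_lit 9) (.lf (nat_lit 1346331698) (dlOf (nat_lit 1) (nat_lit 0x2e0008f02881))) 
(.lf (nat_lit 1346333234) (dlOf (nat_lit 4) (nat_lit 0x482ce0026166000b0a1800283100088036004401a000460600080b380060598004c036001601a000458400070668001e0080008008004000200080008f05183))))))) 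
(.nd (nat_lit 16) (.nd (nat_lit 19) (.nd (nat_lit 29) (.nd (nat_lit 6) 
(.lf (nat_lit 6711042098) (dlOf (nat_lit 4) (nat_lit 0x40016001200a0000481000680500002204008002c0012015001100a0000341801c0008014c00200040008040383))) 
(.lf (nat_lit 3494010994) (dlOf (nat_lit 3) (nat_lit 0xa03e400781ee001fa04002a0f9000fc0181b0080)))) 
(.nd (nat_lit 18) (.nd (nat_lit 30) 
(.lf (nat_lit 2952945714) (dlOf (nat_lit 11) (nat_lit 0x1e4000001e4020024000000f181001300480120000003a408002c026001800900260000007441801c8024014c000001cf040136027000e681000a004800b0000003920800b4000001c802005a000000be0100330000005e408045800802a000201ee0008030483))) 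
(.lf (nat_lit 4026687538) (dlOf (nat_lit 1) (nat_lit 0xd8008003c002003c0008030d03)))) 
(.lf (nat_lit 4026949682) (dlOf (nat_lit 10) (nat_lit 0xe80800039a040064040001ad02032e02000dd005800284100c5808001d403a021200b0003f0301b4010006b802c00054080058040000270200d20200000c0100920100001002c0002e080004040000150201f200180d0b81))))) 
(.nd (nat_lit 9) (.nd (nat_lit 6) 
(.lf (nat_lit 3492438066) (dlOf (nat_lit 1) (nat_lit 0xc004000600080d0b82))) (.nd (nat_lit 18) 
(.lf (nat_lit 3491389938) (dlOf (nat_lit 2) (nat_lit 0x1a06e00160248003401a000bd0600020018090d81))) 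
(.lf (nat_lit 3491652082) (dlOf (nat_lit 2) (nat_lit 0x12701a00017a04009000400040008090d82))))) 
(.nd (nat_lit 18) 
(.lf (nat_lit 3491390002) (dlOf (nat_lit 2) (nat_lit 0xe4000000050200020008090f01))) 
(.nd (nat_lit 20) (.lf (nat_lit 3490603570) (dlOf (nat_lit 2) (nat_lit 0xa2300001c818018000))) 
(.lf (nat_lit 3491652146) (dlOf (nat_lit 2) (nat_lit 0x804200000018090f00))))))) (.nd (nat_lit 6) 
(.nd (nat_lit 7) (.nd (nat_lit 9) (.nd (nat_lit 18) 
(.lf (nat_lit 3490930738) (dlOf (nat_lit 2) (nat_lit 0x10f580053808005800800c4002001c0008030d03))) 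
(.lf (nat_lit 3624362034) (dlOf (nat_lit 2) (nat_lit 0x20000000000200040008170d01)))) 
(.nd (nat_lit 18) 
(.lf (nat_lit 4026753586) (dlOf (nat_lit 4) (nat_lit 0xf80400002202004e020000048100270100000140800800080004002003c0008090f03))) 
(.lf (nat_lit 3490669106) (dlOf (nat_lit 10) (nat_lit 0x16158000340100110ac00019c0802f0560000cc04009c2b00004202004a1580001f8100210aa00008c080468550000440400c42a800481520000f0200320aa0024054800038080084004002c0008018002))))) 
(.nd (nat_lit 10) (.nd (nat_lit 29) 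
(.lf (nat_lit 2416140722) (dlOf (nat_lit 1) (nat_lit 0x40028090781))) 
(.lf (nat_lit 4026753458) (dlOf (nat_lit 5) (nat_lit 0x26805c00fc02d00280140033b41804680b801e005a000401100676030098017003e00b4000804e00ce30600e402e006b01680338810080000800e800200900008090783)))) 
(.lf (nat_lit 3489889714) (dlOf (nat_lit 1) (nat_lit 0xd800800180020070000800cc83))))) 
(.nd (nat_lit 8) (.nd (nat_lit 18) (.nd (nat_lit 21) 
(.lf (nat_lit 3494076530) (dlOf (nat_lit 2) (nat_lit 0x1ee15e00160a7800a04dc003f40c0008002000600081b0082))) 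
(.lf (nat_lit 3491979378) (dlOf (nat_lit 2) (nat_lit 0x2183ea00d61ab000f3028090080)))) 
(.lf (nat_lit 4027015282) (dlOf (nat_lit 1) (nat_lit 0x400281b0081)))) (.nd (nat_lit 7) 
(.lf (nat_lit 4026753394) (dlOf (nat_lit 2) (nat_lit 0x55019006e64080158008033000201080008090783))) 
(.nd (nat_lit 27) (.lf (nat_lit 4026753522) (dlOf (nat_lit 2) (nat_lit 0x70036000b2818090d80))) 
(.lf (nat_lit 2550358514) (dlOf (nat_lit 2) (nat_lit 0x140000005e818090d80))))))))) 
(.nd (nat_lit 6) (.nd (nat_lit 29) (.nd (nat_lit 27) (.nd (nat_lit 16) (.nd (nat_lit 7) 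
(.nd (nat_lit 19) 
(.lf (nat_lit 4630667314) (dlOf (nat_lit 4) (nat_lit 0x38058009000a0002304000400500011010004002800034080158008007000200280008040383))) 
(.lf (nat_lit 1409966130) (dlOf (nat_lit 1) (nat_lit 0x500080068002002400080a0a03)))) 
(.lf (nat_lit 3557712050) (dlOf (nat_lit 2) (nat_lit 0xd301c0006240800080080048002001600082c0483)))) 
(.nd (nat_lit 9) (.lf (nat_lit 1410031666) (dlOf (nat_lit 1) (nat_lit 0x4002000200080d0b82))) 
(.lf (nat_lit 1409507890) (dlOf (nat_lit 1) (nat_lit 0x20028018001))))) (.nd (nat_lit 18) 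
(.nd (nat_lit 8) (.nd (nat_lit 30) 
(.lf (nat_lit 4764885042) (dlOf (nat_lit 4) (nat_lit 0x38058009000a0002304000400500011010004002800034080158008007000200280008040383))) 
(.lf (nat_lit 3691143218) (dlOf (nat_lit 26) (nat_lit 0x2540520042012002400880ad8000003c8100414000001e302015c004000eb810151002000754080230010003a804047405802b2000000e902014e016004e00a4016802800520050115000000744280bd00b004e0000001cf04000e02a000e6810066016003f0000003920803d8000001c8020112004000dd8100bc0020006dc0809300100036c040168000001a9020138004001e0000006181002380b0012c00e000a004002400000060c20004801003640000018204007400700130020005c41001d00100014a04001003a029e0040004082004e0020002000801c00100009e040474008000070202cc02c013b000000000100290008013400205c60008050483)))) 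
(.lf (nat_lit 2617406770) (dlOf (nat_lit 1) (nat_lit 0x200280a9881)))) (.nd (nat_lit 9) 
(.nd (nat_lit 16) 
(.lf (nat_lit 2617663538) (dlOf (nat_lit 1) (nat_lit 0x190008007400200220008130783))) 
(.lf (nat_lit 470769714) (dlOf (nat_lit 1) (nat_lit 0x400200020008170482)))) 
(.lf (nat_lit 472279602) (dlOf (nat_lit 2) (nat_lit 0x10a6800302700011608000800200060008985182)))))) 
(.nd (nat_lit 16) (.nd (nat_lit 18) (.nd (nat_lit 12) (.nd (nat_lit 19) 
(.lf (nat_lit 5301755954) (dlOf (nat_lit 1) (nat_lit 0xa0028080601))) 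
(.lf (nat_lit 3154796594) (dlOf (nat_lit 2) (nat_lit 0x7002c00013818330c00)))) 
(.lf (nat_lit 3020058674) (dlOf (nat_lit 1) (nat_lit 0xe0018127c01)))) (.nd (nat_lit 7) 
(.lf (nat_lit 872834098) (dlOf (nat_lit 1) (nat_lit 0x3400280e2881))) 
(.lf (nat_lit 6377332914) (dlOf (nat_lit 1) (nat_lit 0x6200080c1681))))) (.nd (nat_lit 30) 
(.nd (nat_lit 8) 
(.lf (nat_lit 5301822514) (dlOf (nat_lit 1) (nat_lit 0xe000800b400200860008092883))) 
(.lf (nat_lit 1008951602) (dlOf (nat_lit 1) (nat_lit 0x18002000a0009000b02)))) (.nd (nat_lit 18) 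
(.lf (nat_lit 6376087602) (dlOf (nat_lit 1) (nat_lit 0x40028080601))) 
(.lf (nat_lit 4228341810) (dlOf (nat_lit 1) (nat_lit 0xc0028090001))))))) (.nd (nat_lit 7) 
(.nd (nat_lit 29) (.nd (nat_lit 18) (.nd (nat_lit 8) 
(.lf (nat_lit 1409966194) (dlOf (nat_lit 1) (nat_lit 0x200280a1601))) 
(.lf (nat_lit 335702386) (dlOf (nat_lit 1) (nat_lit 0x400400020008094e82)))) (.nd (nat_lit 20) 
(.lf (nat_lit 3557711986) (dlOf (nat_lit 14) (nat_lit 0xda01c0007280804e00e000372040124070001b702008a038000db01002c01c0006d40802a00e0003600401600700019102007c038000c68100e101c0006300802b00e0003140403480700018902004a038000c40100ed01c0005e00800480080080002003a00082c0483))) 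
(.lf (nat_lit 471752818) (dlOf (nat_lit 1) (nat_lit 0x20028490081))))) (.nd (nat_lit 10) 
(.nd (nat_lit 16) (.lf (nat_lit 3154276978) (dlOf (nat_lit 1) (nat_lit 0x20008158981))) 
(.lf (nat_lit 3154342514) (dlOf (nat_lit 1) (nat_lit 0x60008003c00200220008158983)))) 
(.nd (nat_lit 9) 
(.lf (nat_lit 3020061810) (dlOf (nat_lit 1) (nat_lit 0x10008001c002000e000812c103))) 
(.lf (nat_lit 5167605362) (dlOf (nat_lit 2) (nat_lit 0x100040000002000400180d3981)))))) 
(.nd (nat_lit 8) (.nd (nat_lit 10) (.nd (nat_lit 16) 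
(.lf (nat_lit 6376284402) (dlOf (nat_lit 1) (nat_lit 0x8008039400200b60008090a83))) 
(.lf (nat_lit 1007640818) (dlOf (nat_lit 1) (nat_lit 0x4002000200086b0602)))) (.nd (nat_lit 29) 
(.lf (nat_lit 4764951794) (dlOf (nat_lit 2) (nat_lit 0x4801400052040028002000a0008092e82))) 
(.nd (nat_lit 30) 
(.lf (nat_lit 5301822706) (dlOf (nat_lit 1) (nat_lit 0xa8008002c002005e0008092e83))) 
(.lf (nat_lit 2080597234) (dlOf (nat_lit 1) (nat_lit 0x400200020008092e82)))))) (.nd (nat_lit 16) 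
(.nd (nat_lit 11) 
(.lf (nat_lit 6375760882) (dlOf (nat_lit 2) (nat_lit 0x20050007f10200040018002881))) 
(.lf (nat_lit 3154279410) (dlOf (nat_lit 1) (nat_lit 0x32001815bf01)))) (.nd (nat_lit 9) 
(.lf (nat_lit 472082930) (dlOf (nat_lit 1) (nat_lit 0x60018804f01))) 
(.lf (nat_lit 6241348594) (dlOf (nat_lit 1) (nat_lit 0x1e00280d5f01)))))))))) (.nd (nat_lit 16) 
(.nd (nat_lit 30) (.nd (nat_lit 19) (.nd (nat_lit 8) (.nd (nat_lit 21) (.nd (nat_lit 9) 
(.nd (nat_lit 18) (.nd (nat_lit 22) 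
(.lf (nat_lit 5301755962) (dlOf (nat_lit 1) (nat_lit 0x1e0028080781))) 
(.lf (nat_lit 29515834) (dlOf (nat_lit 2) (nat_lit 0xb00000000004003800200160008e10902)))) 
(.nd (nat_lit 6) 
(.lf (nat_lit 2617663546) (dlOf (nat_lit 1) (nat_lit 0x1c80080048002000e0008130d83))) 
(.lf (nat_lit 8808570) (dlOf (nat_lit 1) (nat_lit 0x400200020008514782))))) (.nd (nat_lit 6) 
(.nd (nat_lit 7) (.lf (nat_lit 2755813946) (dlOf (nat_lit 1) (nat_lit 0x200081b1001))) 
(.lf (nat_lit 3020059322) (dlOf (nat_lit 1) (nat_lit 0x400400020008128c82)))) 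
(.lf (nat_lit 2147641978) (dlOf (nat_lit 2) (nat_lit 0xc01400040000000001000180080058002002c0008095403))))) 
(.nd (nat_lit 18) (.nd (nat_lit 6) (.nd (nat_lit 7) 
(.lf (nat_lit 69361722) (dlOf (nat_lit 1) (nat_lit 0x100018940581))) 
(.lf (nat_lit 48391354) (dlOf (nat_lit 1) (nat_lit 0xa00080070002005a0009402c83)))) 
(.lf (nat_lit 19030266) (dlOf (nat_lit 1) (nat_lit 0x400200020008970682)))) (.nd (nat_lit 9) 
(.nd (nat_lit 22) (.lf (nat_lit 19292218) (dlOf (nat_lit 1) (nat_lit 0x6400400040008981182))) 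
(.lf (nat_lit 48652346) (dlOf (nat_lit 1) (nat_lit 0x20019420581)))) 
(.lf (nat_lit 472279610) (dlOf (nat_lit 1) (nat_lit 0xc00400020018985202)))))) (.nd (nat_lit 18) 
(.nd (nat_lit 6) (.nd (nat_lit 10) (.nd (nat_lit 27) 
(.lf (nat_lit 4362232122) (dlOf (nat_lit 2) (nat_lit 0x6605200513818014c00))) 
(.lf (nat_lit 2885837114) (dlOf (nat_lit 2) (nat_lit 0x9480000002e040018002001c00080b0582)))) 
(.lf (nat_lit 6509718842) (dlOf (nat_lit 1) (nat_lit 0x1ce0028146901)))) (.nd (nat_lit 7) 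
(.lf (nat_lit 44196218) (dlOf (nat_lit 1) (nat_lit 0x1a400092d5901))) 
(.lf (nat_lit 4362232314) (dlOf (nat_lit 3) (nat_lit 0x640560006602003402b0001f818017e00))))) 
(.nd (nat_lit 6) (.nd (nat_lit 7) 
(.lf (nat_lit 872834362) (dlOf (nat_lit 1) (nat_lit 0x124004000200080e3282))) (.nd (nat_lit 26) 
(.lf (nat_lit 134635962) (dlOf (nat_lit 2) (nat_lit 0x28013000d3018090800))) 
(.lf (nat_lit 201744826) (dlOf (nat_lit 2) (nat_lit 0x2801300120818090800))))) (.nd (nat_lit 11) 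
(.lf (nat_lit 738615674) (dlOf (nat_lit 1) (nat_lit 0x4002000200080c5982))) 
(.lf (nat_lit 472279418) (dlOf (nat_lit 1) (nat_lit 0x18008001400200040008984e83))))))) 
(.nd (nat_lit 20) (.nd (nat_lit 18) (.nd (nat_lit 26) (.nd (nat_lit 22) (.nd (nat_lit 27) 
(.lf (nat_lit 537550906) (dlOf (nat_lit 1) (nat_lit 0xb800800f4002004800080a0c03))) 
(.lf (nat_lit 134897722) (dlOf (nat_lit 1) (nat_lit 0x10004000a00080d0b82)))) 
(.lf (nat_lit 21651514) (dlOf (nat_lit 1) (nat_lit 0x50008003000200240008a51683)))) 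
(.nd (nat_lit 21) (.nd (nat_lit 28) 
(.lf (nat_lit 202006586) (dlOf (nat_lit 1) (nat_lit 0x10004000a00080d0b82))) 
(.lf (nat_lit 3154796602) (dlOf (nat_lit 2) (nat_lit 0x130160000000800080080064002004e0008330c83)))) 
(.lf (nat_lit 2754240570) (dlOf (nat_lit 2) (nat_lit 0xc01a000140c6003004200180118000002000880080148002000e00080d0b83))))) 
(.nd (nat_lit 6) (.nd (nat_lit 8) (.nd (nat_lit 22) 
(.lf (nat_lit 17719354) (dlOf (nat_lit 1) (nat_lit 0x480080024002006e00088f1183))) 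
(.lf (nat_lit 47079482) (dlOf (nat_lit 1) (nat_lit 0x80080008002015c00093a0483)))) 
(.lf (nat_lit 537813306) (dlOf (nat_lit 2) (nat_lit 0x610198000980800100080008002000400081b0583)))) 
(.nd (nat_lit 7) 
(.lf (nat_lit 2819514490) (dlOf (nat_lit 16) (nat_lit 0x2bc06c0013b0201b80360009c81002d01b0004a80803700d80024c0400f806c001150201300360008a01002e01b0004400806180d80021e04034406c0010d0200980360008001002701b0003d80802500d8001e80403bc06c000e902007e0360007281008a01b000388080300008001c002003a00082c0483))) 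
(.nd (nat_lit 10) 
(.lf (nat_lit 2752406010) (dlOf (nat_lit 1) (nat_lit 0x118008000c00200020008017e03))) 
(.lf (nat_lit 61761018) (dlOf (nat_lit 1) (nat_lit 0x40029923681))))))) (.nd (nat_lit 8) 
(.nd (nat_lit 7) (.nd (nat_lit 21) 
(.lf (nat_lit 10117178) (dlOf (nat_lit 11) (nat_lit 0x88718c04af7ac00c9bd50002f83002ce8f80bff18c063b7ac0041bd50002e840160e3180c36f58000b20805238c602bdbd60002b8201e2e8f8003f218009b8dc0405c630220e3100fff17809fb8a00445bd6023bdea811d6f400926e1204132ad0247932800746e0088c000000521e0161e240116f0f807ef8740427b7001d1db6000fe8f807771b803838c601b5c6200c7e300064717803d38a001fdbd600dadea80856f4c03eb7a001fdb0c0100b84800256fc03fa4ca0138f5e00eb00000012cb00ae718c05ab7ac0003304018fc6300bbdeb0000c810089718c04c77ac0003004006dc63003bdeb0000b81005c00080084002003e00085b0683))) 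
(.lf (nat_lit 45768762) (dlOf (nat_lit 2) (nat_lit 0x1b0000000240400a4002001e0009360582)))) 
(.nd (nat_lit 6) (.lf (nat_lit 41837754) (dlOf (nat_lit 1) (nat_lit 0x400400020009242c82))) 
(.lf (nat_lit 473587962) (dlOf (nat_lit 1) (nat_lit 0x10008000800200040008f62903))))) 
(.nd (nat_lit 6) (.nd (nat_lit 7) 
(.lf (nat_lit 20608826) (dlOf (nat_lit 1) (nat_lit 0x400189da101))) 
(.lf (nat_lit 41576890) (dlOf (nat_lit 1) (nat_lit 0x20029244e81)))) (.nd (nat_lit 9) 
(.lf (nat_lit 43673082) (dlOf (nat_lit 1) (nat_lit 0x1200192a3681))) 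
(.lf (nat_lit 20605946) (dlOf (nat_lit 1) (nat_lit 0x8004000400189d5f02)))))))) (.nd (nat_lit 6) 
(.nd (nat_lit 26) (.nd (nat_lit 28) (.nd (nat_lit 9) (.nd (nat_lit 32) (.nd (nat_lit 19) 
(.lf (nat_lit 1073897530) (dlOf (nat_lit 3) (nat_lit 0x304027000700f80014810020009c0009604006c00400260018020682))) 
(.lf (nat_lit 3221905466) (dlOf (nat_lit 3) (nat_lit 0x12c08c00dc8020076046000000181b0780)))) 
(.nd (nat_lit 27) 
(.lf (nat_lit 5368864826) (dlOf (nat_lit 3) (nat_lit 0x100a802b70080030054015b404001c00200220008051682))) 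
(.lf (nat_lit 5503082554) (dlOf (nat_lit 3) (nat_lit 0x100a80158408003005400abe04001c00200220008051682))))) 
(.nd (nat_lit 7) 
(.lf (nat_lit 1610769978) (dlOf (nat_lit 1) (nat_lit 0x18008001800200040008093783))) 
(.lf (nat_lit 3758256826) (dlOf (nat_lit 1) (nat_lit 0x40018128c81))))) (.nd (nat_lit 18) 
(.nd (nat_lit 19) (.nd (nat_lit 8) 
(.lf (nat_lit 3491914298) (dlOf (nat_lit 1) (nat_lit 0x194002006e0008091002))) 
(.lf (nat_lit 3624034618) (dlOf (nat_lit 2) (nat_lit 0x9480000002e040018002001c00080b0582)))) 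
(.nd (nat_lit 21) (.lf (nat_lit 5772042298) (dlOf (nat_lit 1) (nat_lit 0x1c00200060008051682))) 
(.nd (nat_lit 31) 
(.lf (nat_lit 1344954426) (dlOf (nat_lit 2) (nat_lit 0xf01f00001e040098002008200089a0582))) 
(.lf (nat_lit 3492438074) (dlOf (nat_lit 2) (nat_lit 0xc01a000140c6003004200180118000002000880080148002000e00080d0b83)))))) 
(.nd (nat_lit 7) (.nd (nat_lit 10) 
(.lf (nat_lit 4026949690) (dlOf (nat_lit 26) (nat_lit 0x20c020000f10100d30200006bc0809501000544040001ad0401a604001340100006ac1008400800035004046c0800200020000ce82001501000066c0803200800031a04003c040001850200160200005181003302000780080001003e00ac00b0004f8400b5010002b802c000f20801d00400007802020802000830058001c81000d0080000a204041004002a001d00760058000f018059808001240160003b0400040200001c0100040100000dc080c8008003dc0160002a0401ee02000720058000a010091008001a001600027040154020004c00580008c100860080016801600014040208020006b0058000001002700082974002009600080d0b83))) 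
(.lf (nat_lit 1344693306) (dlOf (nat_lit 1) (nat_lit 0x20018982881)))) (.nd (nat_lit 10) 
(.lf (nat_lit 5773353146) (dlOf (nat_lit 1) (nat_lit 0x4002000200080c1702))) 
(.lf (nat_lit 1344693434) (dlOf (nat_lit 1) (nat_lit 0x800400040018982c82))))))) (.nd (nat_lit 29) 
(.nd (nat_lit 18) (.nd (nat_lit 7) 
(.lf (nat_lit 5435973690) (dlOf (nat_lit 1) (nat_lit 0x1e0028080781))) 
(.lf (nat_lit 1409445050) (dlOf (nat_lit 1) (nat_lit 0x3000400020008006302)))) (.nd (nat_lit 8) 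
(.lf (nat_lit 3288752186) (dlOf (nat_lit 26) (nat_lit 0x20c020000f101012a02000a880800035008034c080001a70201a604001340100006901008400800034604046c0800200020000cd8200150100006640803200800031804003c0400017e0200160200005181003302000780080001003e00ac00b0004f8400b5010002b802c000f20801d00400007802020802000830058001c81000d0080000a204041004002a001d00760058000e41805980800124016000360400040200001a0100040100000c80807b808001c80160002504032002000f700580009010091008001a001600022040154020004c00580007810086008001680160000f040208020006b0058000001002700082974002009600080d0b83))) 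
(.lf (nat_lit 1410228538) (dlOf (nat_lit 2) (nat_lit 0x610198000940800100080008002000400081b0583))))) 
(.nd (nat_lit 8) (.nd (nat_lit 19) 
(.lf (nat_lit 1946312762) (dlOf (nat_lit 3) (nat_lit 0x304027000700e00014810020009c0009604006c00400260018020682))) 
(.nd (nat_lit 28) 
(.lf (nat_lit 3960102970) (dlOf (nat_lit 2) (nat_lit 0x5408c0091f02002e00281b0781))) 
(.lf (nat_lit 6376022074) (dlOf (nat_lit 1) (nat_lit 0x1c00200060008051682))))) (.nd (nat_lit 9) 
(.lf (nat_lit 4228014394) (dlOf (nat_lit 2) (nat_lit 0x6604b00249018014c00))) 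
(.lf (nat_lit 6241282874) (dlOf (nat_lit 1) (nat_lit 0x5800280d5c01))))))) (.nd (nat_lit 29) 
(.nd (nat_lit 18) (.nd (nat_lit 7) (.nd (nat_lit 8) 
(.lf (nat_lit 1346527354) (dlOf (nat_lit 6) (nat_lit 0x901f20005002001222e000911280068834003c3440004708001422e000611280070834007841000281b4000a0d10001183000500100008804000c4760014236000f11700030894003c41a003c1f9000c0d1001285c00040000000381200020018f90c81))) 
(.nd (nat_lit 11) 
(.lf (nat_lit 1346527610) (dlOf (nat_lit 1) (nat_lit 0x800802f800201600008f95983))) 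
(.lf (nat_lit 1409444218) (dlOf (nat_lit 1) (nat_lit 0x20028004e81))))) (.nd (nat_lit 27) 
(.lf (nat_lit 1409445370) (dlOf (nat_lit 1) (nat_lit 0x400200020008006f82))) 
(.lf (nat_lit 1543663098) (dlOf (nat_lit 4) (nat_lit 0x18034000c00d0007000000058180028068001801a000c00000002830001006800100000000808000400200120008146f82))))) 
(.nd (nat_lit 7) (.nd (nat_lit 8) (.nd (nat_lit 10) 
(.lf (nat_lit 5773353082) (dlOf (nat_lit 1) (nat_lit 0x10008000c002000400080c0b83))) 
(.lf (nat_lit 1208378490) (dlOf (nat_lit 1) (nat_lit 0x4002000200080e2a82)))) 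
(.lf (nat_lit 3221643642) (dlOf (nat_lit 1) (nat_lit 0x50008002400200120008170783)))) 
(.nd (nat_lit 8) (.lf (nat_lit 5772305658) (dlOf (nat_lit 1) (nat_lit 0x400200020008092e82))) 
(.lf (nat_lit 3624296954) (dlOf (nat_lit 9) (nat_lit 0x6a0370052881002002280018110008c0780118037001c01a80118000014a01800cc08a006804400bb01f001b00f0022c06e0040035001b00000293c3804380dc0148c04011806e00a450200940370051e01009201b8028ec0804780dc0147404025c004020e0018157802)))))) 
(.nd (nat_lit 7) (.nd (nat_lit 8) (.nd (nat_lit 10) 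
(.lf (nat_lit 6376811130) (dlOf (nat_lit 2) (nat_lit 0x80140000380800900080018002000c0008095403))) 
(.nd (nat_lit 18) (.lf (nat_lit 6375499386) (dlOf (nat_lit 1) (nat_lit 0x400200020008003982))) 
(.lf (nat_lit 6375761530) (dlOf (nat_lit 1) (nat_lit 0x400200020008003982))))) (.nd (nat_lit 9) 
(.lf (nat_lit 4228276602) (dlOf (nat_lit 1) (nat_lit 0xd8008000400200200008090783))) 
(.lf (nat_lit 3892475770) (dlOf (nat_lit 1) (nat_lit 0x2001815a301))))) (.nd (nat_lit 8) 
(.nd (nat_lit 11) (.lf (nat_lit 1744986362) (dlOf (nat_lit 1) (nat_lit 0x20018090a81))) 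
(.lf (nat_lit 1677879546) (dlOf (nat_lit 1) (nat_lit 0x80028114b81)))) (.nd (nat_lit 9) 
(.lf (nat_lit 3959585274) (dlOf (nat_lit 1) (nat_lit 0x20008002c002000a000811b283))) 
(.nd (nat_lit 18) (.lf (nat_lit 5972845562) (dlOf (nat_lit 1) (nat_lit 0x80018142881))) 
(.lf (nat_lit 2080793594) (dlOf (nat_lit 1) (nat_lit 0x400280e2881)))))))))) (.nd (nat_lit 6) 
(.nd (nat_lit 19) (.nd (nat_lit 26) (.nd (nat_lit 23) (.nd (nat_lit 20) (.nd (nat_lit 7) 
(.nd (nat_lit 28) 
(.lf (nat_lit 134438970) (dlOf (nat_lit 3) (nat_lit 0x173c082099c03d051001c00014818001810400096040008002000a0008020682))) 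
(.lf (nat_lit 939745338) (dlOf (nat_lit 8) (nat_lit 0x202600690110034008401a803a00ea007007300000009030029008800a400e0002304027e026015d01100a00084057403a0218011015100380178014037c000000221002720260126010800084100330098004804200c60000000f83010b01300004808002809400000040004004006e0018160682)))) 
(.lf (nat_lit 4026753466) (dlOf (nat_lit 2) (nat_lit 0x4202e0008c018090800)))) (.nd (nat_lit 18) 
(.lf (nat_lit 18047034) (dlOf (nat_lit 2) (nat_lit 0x1134c0003604004800400220008900c82))) 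
(.lf (nat_lit 3493290042) (dlOf (nat_lit 4) (nat_lit 0x180340001018c0064084002e023001700f0001702800281a0001c0840008023000400f0001682002700000009604000c00200240008110682))))) 
(.nd (nat_lit 7) (.nd (nat_lit 8) (.nd (nat_lit 20) 
(.lf (nat_lit 48717882) (dlOf (nat_lit 1) (nat_lit 0xc0019420581))) 
(.lf (nat_lit 9920570) (dlOf (nat_lit 3) (nat_lit 0x4348a00561020019a450001d2080157c100278008004000200320008591683)))) 
(.lf (nat_lit 28533050) (dlOf (nat_lit 1) (nat_lit 0x800400060008da0702)))) (.nd (nat_lit 8) 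
(.lf (nat_lit 61039802) (dlOf (nat_lit 1) (nat_lit 0x4002000200098c2c82))) 
(.lf (nat_lit 8614842) (dlOf (nat_lit 1) (nat_lit 0x8008000400200020008519203)))))) 
(.nd (nat_lit 18) (.nd (nat_lit 8) (.nd (nat_lit 28) (.nd (nat_lit 29) 
(.lf (nat_lit 201547834) (dlOf (nat_lit 3) (nat_lit 0x173c082099c03d051001c00014818001810400096040008002000a0008020682))) 
(.lf (nat_lit 1812160570) (dlOf (nat_lit 8) (nat_lit 0x202600690110034008401a803a00ea007007300000009030029008800a400e0002304027e026015d01100a00084057403a0218011015100380178014037c000000221002720260126010800084100330098004804200c60000000f83010b01300004808002809400000040004004006e0018160682)))) 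
(.lf (nat_lit 3691208762) (dlOf (nat_lit 1) (nat_lit 0x400180a0901)))) (.nd (nat_lit 7) 
(.lf (nat_lit 6509784378) (dlOf (nat_lit 1) (nat_lit 0x3880028146901))) 
(.lf (nat_lit 3288555962) (dlOf (nat_lit 2) (nat_lit 0x4202e0008c018090800))))) (.nd (nat_lit 28) 
(.nd (nat_lit 7) (.nd (nat_lit 20) 
(.lf (nat_lit 4362559546) (dlOf (nat_lit 1) (nat_lit 0x1c0028090001))) 
(.lf (nat_lit 2755092538) (dlOf (nat_lit 4) (nat_lit 0x180340001018c0064084002e023001700f0001702800281a0001c0840008023000400f0001682002700000009604000c00200240008110682)))) 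
(.lf (nat_lit 2751948730) (dlOf (nat_lit 1) (nat_lit 0x400200020008004382)))) (.nd (nat_lit 27) 
(.lf (nat_lit 1409769530) (dlOf (nat_lit 1) (nat_lit 0x60028090001))) 
(.lf (nat_lit 4228341818) (dlOf (nat_lit 1) (nat_lit 0x120028090001))))))) (.nd (nat_lit 21) 
(.nd (nat_lit 26) (.nd (nat_lit 22) (.nd (nat_lit 8) (.nd (nat_lit 9) (.nd (nat_lit 18) 
(.lf (nat_lit 537616442) (dlOf (nat_lit 2) (nat_lit 0x28817400000040030004001400080d0b82))) 
(.lf (nat_lit 26173498) (dlOf (nat_lit 1) (nat_lit 0xa0028c10001)))) 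
(.lf (nat_lit 34564666) (dlOf (nat_lit 1) (nat_lit 0x20028fb5201)))) 
(.lf (nat_lit 3490668858) (dlOf (nat_lit 1) (nat_lit 0x20018014c01)))) (.nd (nat_lit 23) 
(.lf (nat_lit 21979194) (dlOf (nat_lit 1) (nat_lit 0x1000400040008a80d02))) 
(.lf (nat_lit 13590586) (dlOf (nat_lit 1) (nat_lit 0x400400040008730b82))))) (.nd (nat_lit 7) 
(.nd (nat_lit 8) 
(.lf (nat_lit 1410031674) (dlOf (nat_lit 2) (nat_lit 0x28817400000040030004001400080d0b82))) 
(.lf (nat_lit 2752471354) (dlOf (nat_lit 1) (nat_lit 0x20018014c01)))) 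
(.lf (nat_lit 471818426) (dlOf (nat_lit 1) (nat_lit 0x8008000400200020008520383))))) 
(.nd (nat_lit 9) (.nd (nat_lit 18) 
(.lf (nat_lit 7036986) (dlOf (nat_lit 1) (nat_lit 0x200284b0001))) (.nd (nat_lit 24) 
(.lf (nat_lit 473915450) (dlOf (nat_lit 1) (nat_lit 0x20028fc0581))) 
(.lf (nat_lit 20930618) (dlOf (nat_lit 1) (nat_lit 0x1c00089f0481))))) (.nd (nat_lit 11) 
(.nd (nat_lit 20) 
(.lf (nat_lit 24076858) (dlOf (nat_lit 4) (nat_lit 0x56178000380400270bc00057c40000d020008c2f0000000800700080074002005e0008b81003))) 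
(.lf (nat_lit 2755617338) (dlOf (nat_lit 1) (nat_lit 0x40008000c002000200081b1003)))) 
(.nd (nat_lit 8) (.lf (nat_lit 45050426) (dlOf (nat_lit 1) (nat_lit 0x20019325201))) 
(.lf (nat_lit 19884858) (dlOf (nat_lit 1) (nat_lit 0x4002000200089d5c02)))))))) (.nd (nat_lit 8) 
(.nd (nat_lit 7) (.nd (nat_lit 9) (.nd (nat_lit 11) (.nd (nat_lit 18) 
(.lf (nat_lit 1879793786) (dlOf (nat_lit 1) (nat_lit 0x400400020008370482))) (.nd (nat_lit 20) 
(.lf (nat_lit 1745313914) (dlOf (nat_lit 1) (nat_lit 0x120028102b01))) 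
(.lf (nat_lit 1345806458) (dlOf (nat_lit 2) (nat_lit 0x60020000e00800400080004002000c0008df2b03))))) 
(.lf (nat_lit 1946642554) (dlOf (nat_lit 1) (nat_lit 0x4002000200080f4782)))) (.nd (nat_lit 19) 
(.nd (nat_lit 18) (.nd (nat_lit 27) 
(.lf (nat_lit 5167605370) (dlOf (nat_lit 1) (nat_lit 0x200280d3981))) 
(.lf (nat_lit 6375564922) (dlOf (nat_lit 1) (nat_lit 0x400200020008003982)))) 
(.lf (nat_lit 6375827066) (dlOf (nat_lit 1) (nat_lit 0x400200020008003982)))) (.nd (nat_lit 10) 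
(.lf (nat_lit 8086138) (dlOf (nat_lit 1) (nat_lit 0xe0004003c0008511902))) 
(.lf (nat_lit 61564538) (dlOf (nat_lit 1) (nat_lit 0x20019923981)))))) (.nd (nat_lit 29) 
(.nd (nat_lit 9) (.nd (nat_lit 10) 
(.lf (nat_lit 5436039418) (dlOf (nat_lit 2) (nat_lit 0x2004c0011a04001400400020008090a82))) 
(.lf (nat_lit 5772371194) (dlOf (nat_lit 1) (nat_lit 0x8008000400200020008092e83)))) 
(.nd (nat_lit 10) (.lf (nat_lit 1476881146) (dlOf (nat_lit 1) (nat_lit 0x200282d5a01))) 
(.lf (nat_lit 134964986) (dlOf (nat_lit 2) (nat_lit 0x10000001000800080080018002000c00080f3b83))))) 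
(.nd (nat_lit 26) (.nd (nat_lit 18) (.nd (nat_lit 30) 
(.lf (nat_lit 4966277370) (dlOf (nat_lit 2) (nat_lit 0x3003000580080008008000400200040008090a83))) 
(.lf (nat_lit 1745051898) (dlOf (nat_lit 3) (nat_lit 0x100e4007c0360009c040008039002200d800234100050008014400200040008090a83)))) 
(.lf (nat_lit 805789946) (dlOf (nat_lit 3) (nat_lit 0xf80b40012404002805a0005902000200181a0481)))) 
(.nd (nat_lit 22) (.lf (nat_lit 738418938) (dlOf (nat_lit 1) (nat_lit 0x40018090a81))) 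
(.lf (nat_lit 2755879162) (dlOf (nat_lit 1) (nat_lit 0x4002000200081b0482))))))) (.nd (nat_lit 11) 
(.nd (nat_lit 26) (.nd (nat_lit 10) (.nd (nat_lit 7) 
(.lf (nat_lit 537354618) (dlOf (nat_lit 1) (nat_lit 0x20008005800200020008090783))) 
(.lf (nat_lit 3493028858) (dlOf (nat_lit 1) (nat_lit 0x200280f2881)))) (.nd (nat_lit 23) 
(.lf (nat_lit 53175802) (dlOf (nat_lit 1) (nat_lit 0x1400400020019573682))) 
(.lf (nat_lit 61564410) (dlOf (nat_lit 1) (nat_lit 0x20019923681))))) (.nd (nat_lit 27) 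
(.nd (nat_lit 18) 
(.lf (nat_lit 1409507834) (dlOf (nat_lit 3) (nat_lit 0xb02f8028a408004817c01450040030002001a0008017802))) 
(.lf (nat_lit 2752471546) (dlOf (nat_lit 5) (nat_lit 0x1230fc0000880807c87e00003c0400e43f00001c0200281f80000d818017e00)))) 
(.nd (nat_lit 7) 
(.lf (nat_lit 2349031802) (dlOf (nat_lit 1) (nat_lit 0x160008008400201500008090783))) 
(.lf (nat_lit 3154342394) (dlOf (nat_lit 1) (nat_lit 0x20028158681)))))) (.nd (nat_lit 7) 
(.nd (nat_lit 19) (.nd (nat_lit 24) 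
(.lf (nat_lit 3490146682) (dlOf (nat_lit 1) (nat_lit 0x8008000400200020008004e83))) 
(.lf (nat_lit 50817402) (dlOf (nat_lit 1) (nat_lit 0x80008004c002001a00094c4e83)))) 
(.nd (nat_lit 9) (.lf (nat_lit 33253754) (dlOf (nat_lit 1) (nat_lit 0x20018f54e81))) 
(.lf (nat_lit 19885946) (dlOf (nat_lit 1) (nat_lit 0x8004000400189d7782))))) (.nd (nat_lit 19) 
(.nd (nat_lit 10) (.lf (nat_lit 55798266) (dlOf (nat_lit 1) (nat_lit 0x94002004800096d4f82))) 
(.lf (nat_lit 3490147834) (dlOf (nat_lit 1) (nat_lit 0x800400060008006f82)))) (.nd (nat_lit 9) 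
(.lf (nat_lit 1346333178) (dlOf (nat_lit 1) (nat_lit 0x40008f04f81))) 
(.lf (nat_lit 54488058) (dlOf (nat_lit 1) (nat_lit 0x8008000400200020009655f03))))))))))))

end

end Pool.Agent.Lib.MP_5854e1_co.Cz

namespace Pool.Agent.Lib.MP_5854e1_co.Cz

noncomputable section

noncomputable def tz221 : DT := (.nd (nat_lit 5) (.nd (nat_lit 16) (.nd (nat_lit 3) 
(.nd (nat_lit 6) (.nd (nat_lit 18) (.nd (nat_lit 19) (.nd (nat_lit 10) (.nd (nat_lit 7) 
(.nd (nat_lit 23) (.nd (nat_lit 26) 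
(.lf (nat_lit 3490897938) (dlOf (nat_lit 1) (nat_lit 0x1a0008030881))) (.nd (nat_lit 27) 
(.lf (nat_lit 2752700434) (dlOf (nat_lit 1) (nat_lit 0x1a0008030881))) 
(.lf (nat_lit 470999058) (dlOf (nat_lit 1) (nat_lit 0xc00400100008230202))))) (.nd (nat_lit 20) 
(.lf (nat_lit 44228626) (dlOf (nat_lit 1) (nat_lit 0x4004000200092e0002))) 
(.lf (nat_lit 30597138) (dlOf (nat_lit 2) (nat_lit 0xb1d850039f018e40780))))) (.nd (nat_lit 8) 
(.nd (nat_lit 9) (.lf (nat_lit 5905770642) (dlOf (nat_lit 1) (nat_lit 0xa0008144801))) 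
(.lf (nat_lit 3556962962) (dlOf (nat_lit 1) (nat_lit 0x400200020008128c82)))) (.nd (nat_lit 11) 
(.lf (nat_lit 1812128146) (dlOf (nat_lit 2) (nat_lit 0xa0220051d018156180))) 
(.lf (nat_lit 190866) (dlOf (nat_lit 1) (nat_lit 0x400200020008004e82)))))) (.nd (nat_lit 30) 
(.nd (nat_lit 11) (.nd (nat_lit 7) (.nd (nat_lit 8) 
(.lf (nat_lit 402842642) (dlOf (nat_lit 1) (nat_lit 0x400400020008092882))) 
(.lf (nat_lit 2617439506) (dlOf (nat_lit 2) (nat_lit 0x13805e009e02e00370148001e41801f00080058002000200080a9683)))) 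
(.lf (nat_lit 3087197842) (dlOf (nat_lit 1) (nat_lit 0x280080014002000a0008143a83)))) 
(.nd (nat_lit 21) 
(.lf (nat_lit 59960338) (dlOf (nat_lit 2) (nat_lit 0x1114f40002d0200280019845f81))) 
(.lf (nat_lit 473099282) (dlOf (nat_lit 4) (nat_lit 0x614e000120100010b280005c0800f059400028040034002000a0008c95f82))))) 
(.nd (nat_lit 9) (.nd (nat_lit 8) (.nd (nat_lit 11) 
(.lf (nat_lit 1677911058) (dlOf (nat_lit 1) (nat_lit 0x400400020008112882))) 
(.lf (nat_lit 5771553810) (dlOf (nat_lit 2) (nat_lit 0x241d600360bf0001a828005f80)))) 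
(.lf (nat_lit 3355637010) (dlOf (nat_lit 2) (nat_lit 0x802f000740180a9680)))) (.nd (nat_lit 26) 
(.lf (nat_lit 4160943634) (dlOf (nat_lit 1) (nat_lit 0x200080a9c01))) 
(.lf (nat_lit 3422746130) (dlOf (nat_lit 1) (nat_lit 0x4004000200080a9c02))))))) (.nd (nat_lit 21) 
(.nd (nat_lit 26) (.nd (nat_lit 23) (.nd (nat_lit 22) 
(.lf (nat_lit 134930450) (dlOf (nat_lit 4) (nat_lit 0x6140760004602035603b000228101ca01d8000e00800e8008003400200a400080e0183))) 
(.lf (nat_lit 21684242) (dlOf (nat_lit 2) (nat_lit 0x213f003500080040008001400200120008a60a03)))) 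
(.nd (nat_lit 7) (.lf (nat_lit 59432978) (dlOf (nat_lit 1) (nat_lit 0x20004001a00097f0402))) 
(.lf (nat_lit 43705746) (dlOf (nat_lit 1) (nat_lit 0x80080008002000200092a3603))))) 
(.nd (nat_lit 27) (.nd (nat_lit 31) 
(.lf (nat_lit 1409998866) (dlOf (nat_lit 1) (nat_lit 0x15200080c0a01))) 
(.lf (nat_lit 3557482514) (dlOf (nat_lit 1) (nat_lit 0x20008220381)))) 
(.lf (nat_lit 202039314) (dlOf (nat_lit 4) (nat_lit 0x6140760004602035603b000228101ca01d8000e00800e8008003400200a400080e0183))))) 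
(.nd (nat_lit 10) (.nd (nat_lit 20) (.nd (nat_lit 9) 
(.lf (nat_lit 11198482) (dlOf (nat_lit 3) (nat_lit 0x132e080013808013970400000040090004001c0018670182))) 
(.lf (nat_lit 6378152466) (dlOf (nat_lit 1) (nat_lit 0x80018117c01)))) (.nd (nat_lit 7) 
(.nd (nat_lit 22) (.lf (nat_lit 3858450) (dlOf (nat_lit 1) (nat_lit 0x10008004c00200040008240883))) 
(.lf (nat_lit 16441362) (dlOf (nat_lit 1) (nat_lit 0xc004000200088a0202)))) 
(.lf (nat_lit 37415314) (dlOf (nat_lit 1) (nat_lit 0x200190d4e81))))) (.nd (nat_lit 7) 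
(.nd (nat_lit 11) (.lf (nat_lit 36365330) (dlOf (nat_lit 1) (nat_lit 0x20019072881))) 
(.lf (nat_lit 20638738) (dlOf (nat_lit 1) (nat_lit 0x200289d5f81)))) (.nd (nat_lit 8) 
(.lf (nat_lit 36365458) (dlOf (nat_lit 1) (nat_lit 0x20009072b81))) 
(.lf (nat_lit 61531538) (dlOf (nat_lit 1) (nat_lit 0x30008001400200180009923603)))))))) 
(.nd (nat_lit 31) (.nd (nat_lit 20) (.nd (nat_lit 19) (.nd (nat_lit 10) (.nd (nat_lit 26) 
(.lf (nat_lit 1342627858) (dlOf (nat_lit 1) (nat_lit 0xc004002200180a0502))) 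
(.lf (nat_lit 470212626) (dlOf (nat_lit 1) (nat_lit 0xc004002200180a0502)))) (.nd (nat_lit 8) 
(.lf (nat_lit 46590994) (dlOf (nat_lit 2) (nat_lit 0x16a4000016819385f80))) 
(.lf (nat_lit 8844562) (dlOf (nat_lit 2) (nat_lit 0x1576580067ae00028e5a001e66800010000000f2140044002000e0008519682))))) 
(.nd (nat_lit 7) (.nd (nat_lit 21) 
(.lf (nat_lit 9363474) (dlOf (nat_lit 2) (nat_lit 0x23cd0002f818540480))) 
(.lf (nat_lit 15654930) (dlOf (nat_lit 1) (nat_lit 0x40018810381)))) 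
(.lf (nat_lit 6376319634) (dlOf (nat_lit 1) (nat_lit 0x20018095501))))) (.nd (nat_lit 11) 
(.nd (nat_lit 7) (.nd (nat_lit 22) 
(.lf (nat_lit 9887762) (dlOf (nat_lit 5) (nat_lit 0x153d2003c4c2001125c000412d4000a210004d4ac0004602001e0620001b81000352b800058080020008010000200020008590183))) 
(.lf (nat_lit 5693458) (dlOf (nat_lit 1) (nat_lit 0x400083c0201)))) 
(.lf (nat_lit 69133458) (dlOf (nat_lit 1) (nat_lit 0xc00188a2b81)))) (.nd (nat_lit 7) 
(.nd (nat_lit 8) 
(.lf (nat_lit 20376594) (dlOf (nat_lit 3) (nat_lit 0x2f4920007a33000ad170000b41801087b801903c000180ac000128389d5f80))) 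
(.lf (nat_lit 54455058) (dlOf (nat_lit 1) (nat_lit 0x400400020009655b82)))) 
(.lf (nat_lit 20376466) (dlOf (nat_lit 2) (nat_lit 0x8c978000e00800080080008002000200089d5c83)))))) 
(.nd (nat_lit 27) (.nd (nat_lit 20) (.nd (nat_lit 7) (.nd (nat_lit 10) 
(.lf (nat_lit 3020349458) (dlOf (nat_lit 2) (nat_lit 0xd807a006c0360030015801b009000d80260005f0a00140028280201))) 
(.lf (nat_lit 2751915026) (dlOf (nat_lit 1) (nat_lit 0x20018002881)))) 
(.lf (nat_lit 3221676178) (dlOf (nat_lit 2) (nat_lit 0xd80380003c04008800200180008170182)))) 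
(.nd (nat_lit 26) (.lf (nat_lit 3491160082) (dlOf (nat_lit 1) (nat_lit 0x1800400040008070502))) 
(.lf (nat_lit 2752962578) (dlOf (nat_lit 1) (nat_lit 0x1800400040008070502))))) (.nd (nat_lit 26) 
(.nd (nat_lit 28) (.lf (nat_lit 3892764690) (dlOf (nat_lit 1) (nat_lit 0x40018240201))) 
(.lf (nat_lit 3624329234) (dlOf (nat_lit 2) (nat_lit 0xa00e8015e4080058008001c00200060008160483)))) 
(.nd (nat_lit 7) (.nd (nat_lit 28) 
(.lf (nat_lit 2886131730) (dlOf (nat_lit 2) (nat_lit 0xa00e002c3c080058008001c00200060008160483))) 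
(.lf (nat_lit 3154567186) (dlOf (nat_lit 2) (nat_lit 0x201600012c080018008001000200060008240203)))) 
(.lf (nat_lit 3959873682) (dlOf (nat_lit 2) (nat_lit 0xd80380003c04008800200180008170182)))))))) 
(.nd (nat_lit 29) (.nd (nat_lit 7) (.nd (nat_lit 18) (.nd (nat_lit 28) (.nd (nat_lit 19) 
(.nd (nat_lit 21) (.lf (nat_lit 5503115346) (dlOf (nat_lit 1) (nat_lit 0x400400020008090002))) 
(.lf (nat_lit 14868562) (dlOf (nat_lit 1) (nat_lit 0x20018790781)))) 
(.lf (nat_lit 45801554) (dlOf (nat_lit 1) (nat_lit 0x400200020009360782)))) (.nd (nat_lit 20) 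
(.nd (nat_lit 31) 
(.lf (nat_lit 1344987218) (dlOf (nat_lit 2) (nat_lit 0x101a0000b00800080080004002000200089a0783))) 
(.lf (nat_lit 3492470866) (dlOf (nat_lit 3) (nat_lit 0x9643d40002902001215b000118180d0d80)))) 
(.lf (nat_lit 5773123666) (dlOf (nat_lit 1) (nat_lit 0x1e00180a1701))))) (.nd (nat_lit 22) 
(.nd (nat_lit 19) (.nd (nat_lit 20) 
(.lf (nat_lit 3557220434) (dlOf (nat_lit 6) (nat_lit 0x801f800148082df81c80008e0416c00e400046020b6c072000228101db0390001100802a8008011800200580008170783))) 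
(.lf (nat_lit 35053650) (dlOf (nat_lit 1) (nat_lit 0x20028fd0781)))) 
(.lf (nat_lit 20897874) (dlOf (nat_lit 2) (nat_lit 0x89ba00002b0189f0680)))) (.nd (nat_lit 8) 
(.nd (nat_lit 9) (.lf (nat_lit 13557842) (dlOf (nat_lit 1) (nat_lit 0x400200020008730d82))) 
(.lf (nat_lit 8320594) (dlOf (nat_lit 2) (nat_lit 0x1f00600c130200260018519c01)))) 
(.lf (nat_lit 39773522) (dlOf (nat_lit 1) (nat_lit 0xa00291f3301)))))) (.nd (nat_lit 8) 
(.nd (nat_lit 9) (.nd (nat_lit 19) (.nd (nat_lit 26) 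
(.lf (nat_lit 2147672274) (dlOf (nat_lit 1) (nat_lit 0x6400080c1b81))) 
(.lf (nat_lit 67297490) (dlOf (nat_lit 1) (nat_lit 0x4004000200080b0502)))) (.nd (nat_lit 10) 
(.lf (nat_lit 19853522) (dlOf (nat_lit 1) (nat_lit 0xc00289d8081))) 
(.lf (nat_lit 53142738) (dlOf (nat_lit 1) (nat_lit 0x28008000c00200060009572d83))))) 
(.nd (nat_lit 10) (.lf (nat_lit 3556963026) (dlOf (nat_lit 1) (nat_lit 0x400200020008128c82))) 
(.lf (nat_lit 192210) (dlOf (nat_lit 1) (nat_lit 0x400400020008007382))))) (.nd (nat_lit 11) 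
(.nd (nat_lit 10) (.lf (nat_lit 134406610) (dlOf (nat_lit 1) (nat_lit 0x1e0018017101))) 
(.lf (nat_lit 8054226) (dlOf (nat_lit 1) (nat_lit 0x400200020008513602)))) (.nd (nat_lit 9) 
(.lf (nat_lit 3556964818) (dlOf (nat_lit 1) (nat_lit 0x40040002000812b182))) 
(.lf (nat_lit 8322002) (dlOf (nat_lit 1) (nat_lit 0x800800280020002000851bf03))))))) 
(.nd (nat_lit 30) (.nd (nat_lit 26) (.nd (nat_lit 9) (.nd (nat_lit 7) (.nd (nat_lit 19) 
(.lf (nat_lit 4966244434) (dlOf (nat_lit 1) (nat_lit 0x400400020008090002))) 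
(.lf (nat_lit 537583698) (dlOf (nat_lit 3) (nat_lit 0x35016800740a400d204a000101b003780cc0178044005a01f0001a07000602d000301480040066000c022000600f8000c82801a00080040002003200080c1903)))) 
(.lf (nat_lit 805757138) (dlOf (nat_lit 1) (nat_lit 0x18004000a00081a0482)))) (.nd (nat_lit 7) 
(.nd (nat_lit 8) (.lf (nat_lit 2684548690) (dlOf (nat_lit 1) (nat_lit 0x200080a9c01))) 
(.lf (nat_lit 2818764626) (dlOf (nat_lit 1) (nat_lit 0x20002000c0008127782)))) 
(.lf (nat_lit 2818767826) (dlOf (nat_lit 3) (nat_lit 0x22806c004c70200140360025901812bf00))))) 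
(.nd (nat_lit 7) (.nd (nat_lit 18) (.nd (nat_lit 19) 
(.lf (nat_lit 1008918610) (dlOf (nat_lit 1) (nat_lit 0x8008000800200020008fe0783))) 
(.lf (nat_lit 2754273362) (dlOf (nat_lit 3) (nat_lit 0x9643f800029020012151000118180d0d80)))) 
(.lf (nat_lit 738648146) (dlOf (nat_lit 1) (nat_lit 0x200080d0501)))) (.nd (nat_lit 18) 
(.lf (nat_lit 1008395474) (dlOf (nat_lit 1) (nat_lit 0x18004000a0008bb2d82))) 
(.lf (nat_lit 604431570) (dlOf (nat_lit 1) (nat_lit 0x1c00400020008282d82)))))) (.nd (nat_lit 7) 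
(.nd (nat_lit 26) (.nd (nat_lit 32) (.nd (nat_lit 9) 
(.lf (nat_lit 1611063378) (dlOf (nat_lit 1) (nat_lit 0x200080d0501))) 
(.lf (nat_lit 1610802770) (dlOf (nat_lit 1) (nat_lit 0x400200020008093882)))) (.nd (nat_lit 11) 
(.lf (nat_lit 6039986258) (dlOf (nat_lit 1) (nat_lit 0x4004000200080b0002))) 
(.lf (nat_lit 5905770578) (dlOf (nat_lit 1) (nat_lit 0x180008144701))))) (.nd (nat_lit 8) 
(.lf (nat_lit 6376579154) (dlOf (nat_lit 1) (nat_lit 0x120008090001))) (.nd (nat_lit 28) 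
(.lf (nat_lit 1812128082) (dlOf (nat_lit 2) (nat_lit 0x40260000e018154d00))) 
(.lf (nat_lit 4228047186) (dlOf (nat_lit 6) (nat_lit 0x6c02000019c080310100000cc04003c08000044020168040000200100690200000fc080628008006400200260008014d03)))))) 
(.nd (nat_lit 10) (.nd (nat_lit 8) 
(.lf (nat_lit 1678172370) (dlOf (nat_lit 1) (nat_lit 0x18004000a00081a0482))) 
(.lf (nat_lit 1812128210) (dlOf (nat_lit 1) (nat_lit 0xe800401300008157102)))) (.nd (nat_lit 18) 
(.lf (nat_lit 2080564434) (dlOf (nat_lit 1) (nat_lit 0x700018092d81))) 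
(.lf (nat_lit 6375793874) (dlOf (nat_lit 1) (nat_lit 0x400200020008002d82))))))))) (.nd (nat_lit 8) 
(.nd (nat_lit 19) (.nd (nat_lit 6) (.nd (nat_lit 26) (.nd (nat_lit 22) (.nd (nat_lit 18) 
(.lf (nat_lit 2952978458) (dlOf (nat_lit 6) (nat_lit 0x202500bb00e014400100006e0c030c038050e0040001b02011e00d8000d408037806c0006804033c048015801c012300d813f00100830006000000a00d40018070501))) 
(.nd (nat_lit 23) (.lf (nat_lit 18276378) (dlOf (nat_lit 1) (nat_lit 0x400400020008920582))) 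
(.lf (nat_lit 9887770) (dlOf (nat_lit 5) (nat_lit 0xca5700019010028261001e12e00050946000270600084c2002225c0004128c0004c0c0048984000110201360028590401))))) 
(.nd (nat_lit 7) (.nd (nat_lit 18) 
(.lf (nat_lit 5431322) (dlOf (nat_lit 1) (nat_lit 0x60028370481))) 
(.lf (nat_lit 15130650) (dlOf (nat_lit 1) (nat_lit 0x4002000200087c0502)))) 
(.lf (nat_lit 41345178) (dlOf (nat_lit 1) (nat_lit 0x800400060009240502))))) (.nd (nat_lit 7) 
(.nd (nat_lit 10) 
(.lf (nat_lit 3557220378) (dlOf (nat_lit 2) (nat_lit 0x10000000190200020008170101))) 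
(.nd (nat_lit 18) (.lf (nat_lit 2751652890) (dlOf (nat_lit 1) (nat_lit 0x400200020008002882))) 
(.lf (nat_lit 472310810) (dlOf (nat_lit 1) (nat_lit 0x20018982881))))) (.nd (nat_lit 9) 
(.lf (nat_lit 604431514) (dlOf (nat_lit 1) (nat_lit 0x40028282b81))) 
(.lf (nat_lit 3556962970) (dlOf (nat_lit 1) (nat_lit 0x1b8008000400200280008128c83)))))) 
(.nd (nat_lit 9) (.nd (nat_lit 26) (.nd (nat_lit 7) 
(.lf (nat_lit 6308421722) (dlOf (nat_lit 3) (nat_lit 0x720190002b01000100c800154080108008009000200340008080683))) 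
(.lf (nat_lit 2147672282) (dlOf (nat_lit 2) (nat_lit 0x200b0000e80800180080008002000600080c1c03)))) 
(.nd (nat_lit 18) (.nd (nat_lit 27) 
(.lf (nat_lit 5704441946) (dlOf (nat_lit 3) (nat_lit 0x720190002b01000100c800154080108008009000200340008080683))) 
(.lf (nat_lit 4496482394) (dlOf (nat_lit 1) (nat_lit 0x20018090681)))) 
(.lf (nat_lit 3557220442) (dlOf (nat_lit 2) (nat_lit 0x2c03f006be818170880))))) (.nd (nat_lit 7) 
(.nd (nat_lit 23) (.nd (nat_lit 27) 
(.lf (nat_lit 1610802778) (dlOf (nat_lit 1) (nat_lit 0x10008000800200020008093903))) 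
(.lf (nat_lit 2013455962) (dlOf (nat_lit 1) (nat_lit 0x28008000800200020008093903)))) 
(.nd (nat_lit 10) 
(.lf (nat_lit 32696922) (dlOf (nat_lit 2) (nat_lit 0xa6340004a04010800400040008ef5302))) 
(.lf (nat_lit 8578650) (dlOf (nat_lit 1) (nat_lit 0xc0028513901))))) (.nd (nat_lit 12) 
(.lf (nat_lit 2684543706) (dlOf (nat_lit 1) (nat_lit 0x200180a2101))) (.nd (nat_lit 23) 
(.lf (nat_lit 2818765530) (dlOf (nat_lit 1) (nat_lit 0x8008000c00200020008128c83))) 
(.lf (nat_lit 8581850) (dlOf (nat_lit 1) (nat_lit 0x400200020008518c82)))))))) (.nd (nat_lit 21) 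
(.nd (nat_lit 26) (.nd (nat_lit 20) (.nd (nat_lit 27) (.nd (nat_lit 6) 
(.lf (nat_lit 537845786) (dlOf (nat_lit 1) (nat_lit 0x800400020008230482))) 
(.lf (nat_lit 25878746) (dlOf (nat_lit 1) (nat_lit 0x2000200560008c10582)))) (.nd (nat_lit 28) 
(.nd (nat_lit 30) (.lf (nat_lit 2819285018) (dlOf (nat_lit 1) (nat_lit 0x400200020008220582))) 
(.lf (nat_lit 3893026842) (dlOf (nat_lit 1) (nat_lit 0xc00182f0681)))) 
(.lf (nat_lit 5772075034) (dlOf (nat_lit 2) (nat_lit 0x280a001ac2040044004000a0008060a02))))) 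
(.nd (nat_lit 6) (.nd (nat_lit 10) 
(.lf (nat_lit 5955610) (dlOf (nat_lit 2) (nat_lit 0x7200000016018410500))) 
(.lf (nat_lit 39773210) (dlOf (nat_lit 1) (nat_lit 0xa00291f2881)))) 
(.lf (nat_lit 10149978) (dlOf (nat_lit 1) (nat_lit 0xa4002004800085b0a82))))) (.nd (nat_lit 18) 
(.nd (nat_lit 27) (.nd (nat_lit 20) 
(.lf (nat_lit 4362788890) (dlOf (nat_lit 2) (nat_lit 0x281180013a04004c004008a0018100482))) 
(.lf (nat_lit 4095402010) (dlOf (nat_lit 2) (nat_lit 0x50560000c0080018008002c002001000080a0503)))) 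
(.nd (nat_lit 31) 
(.lf (nat_lit 6376054810) (dlOf (nat_lit 3) (nat_lit 0x180a0000404c0008023003eb83000101400040098002004a001002300030110003006000fac180070004001e0018060a02))) 
(.lf (nat_lit 4228571162) (dlOf (nat_lit 2) (nat_lit 0x280fc0013a04004c004008a0018100482))))) 
(.nd (nat_lit 7) (.lf (nat_lit 1410261018) (dlOf (nat_lit 1) (nat_lit 0x800400020008230482))) 
(.nd (nat_lit 27) 
(.lf (nat_lit 69133466) (dlOf (nat_lit 2) (nat_lit 0x8021c0011204002c004000400088a2b82))) 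
(.lf (nat_lit 1008657562) (dlOf (nat_lit 1) (nat_lit 0x20018ef2b81))))))) (.nd (nat_lit 18) 
(.nd (nat_lit 10) (.nd (nat_lit 22) (.nd (nat_lit 6) 
(.lf (nat_lit 11198490) (dlOf (nat_lit 3) (nat_lit 0x1877c0045a04001c3960022602001e0008670481))) 
(.lf (nat_lit 1881860698) (dlOf (nat_lit 1) (nat_lit 0x40002000200090a5302)))) (.nd (nat_lit 23) 
(.lf (nat_lit 7004186) (dlOf (nat_lit 2) (nat_lit 0x72000000160184a0500))) 
(.lf (nat_lit 15392794) (dlOf (nat_lit 1) (nat_lit 0xc004000c00087e0502))))) (.nd (nat_lit 7) 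
(.lf (nat_lit 36365338) (dlOf (nat_lit 1) (nat_lit 0x20019072881))) 
(.lf (nat_lit 53142682) (dlOf (nat_lit 1) (nat_lit 0x20009572b81))))) (.nd (nat_lit 6) 
(.nd (nat_lit 7) (.nd (nat_lit 24) 
(.lf (nat_lit 473882650) (dlOf (nat_lit 2) (nat_lit 0x1bc0a180db84ec06b427203620cd018d06580eb81d4007c0e803b2073018d00d0000bc483488008052c00204fa0008fc0103))) 
(.lf (nat_lit 20897818) (dlOf (nat_lit 1) (nat_lit 0x80080008002000200089f0103)))) 
(.lf (nat_lit 41870490) (dlOf (nat_lit 2) (nat_lit 0x329080011004000400400120009242b82)))) 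
(.nd (nat_lit 7) (.lf (nat_lit 473882714) (dlOf (nat_lit 2) (nat_lit 0x207b00005818fc0880))) 
(.lf (nat_lit 19856602) (dlOf (nat_lit 1) (nat_lit 0x48002003e00089dc402)))))))) (.nd (nat_lit 7) 
(.nd (nat_lit 6) (.nd (nat_lit 20) (.nd (nat_lit 11) (.nd (nat_lit 9) 
(.lf (nat_lit 4966244634) (dlOf (nat_lit 1) (nat_lit 0x20008090a81))) 
(.lf (nat_lit 6039986970) (dlOf (nat_lit 1) (nat_lit 0xc004000400180b2102)))) (.nd (nat_lit 10) 
(.lf (nat_lit 5771815706) (dlOf (nat_lit 1) (nat_lit 0x2540028005c01))) 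
(.lf (nat_lit 3556962074) (dlOf (nat_lit 1) (nat_lit 0x10008000400200020008127483))))) 
(.nd (nat_lit 9) (.lf (nat_lit 20111642) (dlOf (nat_lit 1) (nat_lit 0x200089d0a81))) 
(.nd (nat_lit 18) (.nd (nat_lit 19) (.nd (nat_lit 24) 
(.lf (nat_lit 473099034) (dlOf (nat_lit 1) (nat_lit 0x20018c95c01))) 
(.lf (nat_lit 20114202) (dlOf (nat_lit 1) (nat_lit 0x4002000200089d5c02)))) 
(.lf (nat_lit 20638490) (dlOf (nat_lit 1) (nat_lit 0x4002000200089d5c02)))) 
(.lf (nat_lit 20376346) (dlOf (nat_lit 1) (nat_lit 0x80080004002000200089d5c03)))))) 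
(.nd (nat_lit 27) (.nd (nat_lit 26) (.nd (nat_lit 9) 
(.lf (nat_lit 805757274) (dlOf (nat_lit 2) (nat_lit 0x440000000002002400081a0681))) 
(.lf (nat_lit 20376410) (dlOf (nat_lit 1) (nat_lit 0x200189d5c01)))) (.nd (nat_lit 29) 
(.lf (nat_lit 4362527066) (dlOf (nat_lit 2) (nat_lit 0x14010002b000000000100010008000400200380008090683))) 
(.lf (nat_lit 1678172506) (dlOf (nat_lit 2) (nat_lit 0x440000000002002400081a0681))))) 
(.nd (nat_lit 29) (.nd (nat_lit 9) 
(.lf (nat_lit 1543695706) (dlOf (nat_lit 2) (nat_lit 0x550028000980800b80080080002001a0008146a83))) 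
(.lf (nat_lit 3422741338) (dlOf (nat_lit 1) (nat_lit 0x200180a2581)))) (.nd (nat_lit 18) 
(.lf (nat_lit 4228047194) (dlOf (nat_lit 3) (nat_lit 0x80000005c04002008c0001902001c0008014e81))) 
(.lf (nat_lit 4228309338) (dlOf (nat_lit 2) (nat_lit 0x14013002b000000000100010008000400200380008090683))))))) 
(.nd (nat_lit 18) (.nd (nat_lit 27) (.nd (nat_lit 6) (.nd (nat_lit 9) (.nd (nat_lit 11) 
(.lf (nat_lit 20640154) (dlOf (nat_lit 1) (nat_lit 0x18008001c002000200089d8383))) 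
(.lf (nat_lit 20113818) (dlOf (nat_lit 1) (nat_lit 0x8002000200089d4e82)))) 
(.lf (nat_lit 8058778) (dlOf (nat_lit 1) (nat_lit 0x2002851a301)))) (.nd (nat_lit 9) 
(.lf (nat_lit 5167572442) (dlOf (nat_lit 1) (nat_lit 0x4004000200080d3602))) 
(.lf (nat_lit 36365274) (dlOf (nat_lit 1) (nat_lit 0x20019072881))))) (.nd (nat_lit 9) 
(.nd (nat_lit 12) (.nd (nat_lit 26) 
(.lf (nat_lit 939712922) (dlOf (nat_lit 2) (nat_lit 0xa02200252818156880))) 
(.lf (nat_lit 5033353626) (dlOf (nat_lit 1) (nat_lit 0x20008091001)))) 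
(.lf (nat_lit 3892507034) (dlOf (nat_lit 2) (nat_lit 0x80560098b0200020008158381)))) 
(.nd (nat_lit 26) 
(.lf (nat_lit 3087198106) (dlOf (nat_lit 1) (nat_lit 0x50008003c002001c0008144283))) 
(.lf (nat_lit 3959613338) (dlOf (nat_lit 1) (nat_lit 0x20018114281)))))) (.nd (nat_lit 26) 
(.nd (nat_lit 20) (.nd (nat_lit 27) 
(.lf (nat_lit 805757338) (dlOf (nat_lit 2) (nat_lit 0x6056004038181a0780))) 
(.lf (nat_lit 134668698) (dlOf (nat_lit 1) (nat_lit 0x90008000c00200180008090783)))) 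
(.nd (nat_lit 6) (.lf (nat_lit 11985306) (dlOf (nat_lit 1) (nat_lit 0x200186c0781))) 
(.lf (nat_lit 8318938) (dlOf (nat_lit 1) (nat_lit 0x400200020008517a82))))) (.nd (nat_lit 27) 
(.nd (nat_lit 6) (.nd (nat_lit 29) 
(.lf (nat_lit 4362527130) (dlOf (nat_lit 2) (nat_lit 0x100198038c4080120008020000200920008090783))) 
(.lf (nat_lit 1678172570) (dlOf (nat_lit 2) (nat_lit 0x1180ac003c05300340098038c418007800800b4002004600081a0783)))) 
(.lf (nat_lit 4095665626) (dlOf (nat_lit 1) (nat_lit 0x48002001400080e3602)))) (.nd (nat_lit 28) 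
(.lf (nat_lit 201777562) (dlOf (nat_lit 1) (nat_lit 0x20008090781))) 
(.lf (nat_lit 4228309402) (dlOf (nat_lit 2) (nat_lit 0xc03200403818090780)))))))))) 
(.nd (nat_lit 3) (.nd (nat_lit 28) (.nd (nat_lit 19) (.nd (nat_lit 6) (.nd (nat_lit 23) 
(.nd (nat_lit 26) (.nd (nat_lit 7) (.nd (nat_lit 18) 
(.lf (nat_lit 671342610) (dlOf (nat_lit 2) (nat_lit 0x402800587818160480))) 
(.lf (nat_lit 3892830226) (dlOf (nat_lit 2) (nat_lit 0x3100b00000004003400200020008280002)))) 
(.lf (nat_lit 20181394) (dlOf (nat_lit 1) (nat_lit 0x4002000200089d8382)))) (.nd (nat_lit 8) 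
(.nd (nat_lit 29) (.lf (nat_lit 67362834) (dlOf (nat_lit 1) (nat_lit 0x7e00280e0481))) 
(.lf (nat_lit 3825459218) (dlOf (nat_lit 2) (nat_lit 0x12020000700e80040070002c032001201800060038015e4300178008005800200140008160483)))) 
(.lf (nat_lit 4496550674) (dlOf (nat_lit 1) (nat_lit 0x200280e5b81))))) (.nd (nat_lit 18) 
(.nd (nat_lit 7) (.lf (nat_lit 60025618) (dlOf (nat_lit 1) (nat_lit 0x8008000400200020009845b83))) 
(.lf (nat_lit 61072530) (dlOf (nat_lit 1) (nat_lit 0x8004000800098c2b82)))) (.nd (nat_lit 20) 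
(.nd (nat_lit 21) (.lf (nat_lit 13099026) (dlOf (nat_lit 1) (nat_lit 0x400186f0181))) 
(.lf (nat_lit 27779090) (dlOf (nat_lit 1) (nat_lit 0x760008d20381)))) 
(.lf (nat_lit 47702034) (dlOf (nat_lit 1) (nat_lit 0x400400020009400002)))))) (.nd (nat_lit 18) 
(.nd (nat_lit 31) (.nd (nat_lit 8) (.nd (nat_lit 20) 
(.lf (nat_lit 5436072018) (dlOf (nat_lit 2) (nat_lit 0x1004c00088040004004000200180b0682))) 
(.lf (nat_lit 28565586) (dlOf (nat_lit 1) (nat_lit 0x400400020008da0282)))) (.nd (nat_lit 23) 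
(.lf (nat_lit 1302866) (dlOf (nat_lit 2) (nat_lit 0x70a220005902004000180a4d01))) 
(.lf (nat_lit 9691474) (dlOf (nat_lit 1) (nat_lit 0x40028574d81))))) (.nd (nat_lit 9) 
(.nd (nat_lit 26) (.lf (nat_lit 3892568146) (dlOf (nat_lit 1) (nat_lit 0x40028160181))) 
(.lf (nat_lit 3825459282) (dlOf (nat_lit 1) (nat_lit 0x40028160901)))) (.nd (nat_lit 7) 
(.lf (nat_lit 6509817426) (dlOf (nat_lit 1) (nat_lit 0x48004001e0008147182))) 
(.lf (nat_lit 2818833362) (dlOf (nat_lit 3) (nat_lit 0x11006a002202d80448108009c06c0176022008900d80131c3000281a800240d200100220025903812bf00)))))) 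
(.nd (nat_lit 10) (.nd (nat_lit 20) (.nd (nat_lit 21) 
(.lf (nat_lit 4710482) (dlOf (nat_lit 1) (nat_lit 0x200182b0781))) 
(.lf (nat_lit 69722194) (dlOf (nat_lit 1) (nat_lit 0x400200020008bd0782)))) 
(.lf (nat_lit 33022034) (dlOf (nat_lit 1) (nat_lit 0x400400020008f50002)))) (.nd (nat_lit 7) 
(.nd (nat_lit 8) (.lf (nat_lit 57140306) (dlOf (nat_lit 1) (nat_lit 0x800400020019792882))) 
(.lf (nat_lit 57140562) (dlOf (nat_lit 2) (nat_lit 0x6219000054040030004001c0009793302)))) 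
(.lf (nat_lit 52946130) (dlOf (nat_lit 1) (nat_lit 0xc000800f0002004a0009572d83))))))) 
(.nd (nat_lit 21) (.nd (nat_lit 6) (.nd (nat_lit 20) (.nd (nat_lit 10) (.nd (nat_lit 18) 
(.lf (nat_lit 4972562) (dlOf (nat_lit 1) (nat_lit 0xe00282e0481))) 
(.lf (nat_lit 17817618) (dlOf (nat_lit 2) (nat_lit 0x1e3380383808024000800e8002004600088f0783)))) 
(.lf (nat_lit 46918674) (dlOf (nat_lit 2) (nat_lit 0x68af300016819385f80)))) (.nd (nat_lit 22) 
(.nd (nat_lit 23) (.lf (nat_lit 68935698) (dlOf (nat_lit 1) (nat_lit 0x200018840001))) 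
(.lf (nat_lit 26992658) (dlOf (nat_lit 1) (nat_lit 0x20028ca0481)))) (.nd (nat_lit 18) 
(.lf (nat_lit 22798354) (dlOf (nat_lit 2) (nat_lit 0x2c0400000018b30180))) 
(.lf (nat_lit 23060498) (dlOf (nat_lit 1) (nat_lit 0x2e0028b50181)))))) (.nd (nat_lit 23) 
(.nd (nat_lit 7) (.nd (nat_lit 9) 
(.lf (nat_lit 17555538) (dlOf (nat_lit 10) (nat_lit 0x1f7620004502000fbb100022010008dd880010408003eec40007c0400137620003d02000fbb10001e010003dd88005eebc0006e08002b7620003502000bbb1000000188e0280))) 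
(.lf (nat_lit 67892818) (dlOf (nat_lit 1) (nat_lit 0x1400400240008339c02)))) 
(.lf (nat_lit 778706) (dlOf (nat_lit 1) (nat_lit 0x8008000400200020008017b03)))) (.nd (nat_lit 18) 
(.nd (nat_lit 22) 
(.lf (nat_lit 59498578) (dlOf (nat_lit 9) (nat_lit 0x4333800299940038b2a00044e6000160400082ca8000ac08011999c0068cca00345950001503000d2ca8000a40800b19f80110cce0066595000028300063338002965400008080018cfc006c6670024332801016540000410004cb2a000000200e20029800781))) 
(.lf (nat_lit 30138450) (dlOf (nat_lit 1) (nat_lit 0x40008e30281)))) 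
(.lf (nat_lit 30400594) (dlOf (nat_lit 10) (nat_lit 0x1f0c80004402000f86400021810008c3200010408003e1900007c0400130c80003d02000f8640001e010003c320005e1880006e08002b0c80003502000b86400000018e30280)))))) 
(.nd (nat_lit 24) (.nd (nat_lit 6) (.nd (nat_lit 8) (.nd (nat_lit 10) 
(.lf (nat_lit 2754338834) (dlOf (nat_lit 17) (nat_lit 0x93125004988f800b847a01f023a0063101028d87f004003ea01fc1ee010b0f3007186d000ec36401101b100ca0cf801706740044322003e189001e0c38080860c03882fa009816c002a0b50020857800342b6005c15a00c00a6003d851c01c427e00d4134008d096800d000003b54780224494009623e008911d0078883c0094406015e20204950fe007f87d400a03e601f61ee00e40f30063077c02d036800021b200260d8807006ac029433e003a19d00f70c1802205f400842d800a215e00120ad800e055800302a2017c14c00520a3803704fc01bc268006a12d00200000076a0f8003051c03b4c04006441e011a16800020af0020855802202a2007c13400ed206002e0fe80723808005057401bd00403182ba00dde02018c15d006ee8100cc0ae80376408027057401b340400e82ba00d9802009e15d006c98100350ae8036480800d057001af80400502b800d730200221ff00470ae8000001014180080a84002160c00080d0883)))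 
(.lf (nat_lit 36430866) (dlOf (nat_lit 1) (nat_lit 0x20019072881)))) 
(.lf (nat_lit 8386322) (dlOf (nat_lit 1) (nat_lit 0x68008001c0020014000851a003)))) 
(.nd (nat_lit 20) (.nd (nat_lit 26) 
(.lf (nat_lit 2875474) (dlOf (nat_lit 2) (nat_lit 0x100000000002000800081c0d81))) 
(.lf (nat_lit 2754338898) (dlOf (nat_lit 3) (nat_lit 0x62a1fc0001481000f0fe000084080098008005800200de00080d0d83)))) 
(.nd (nat_lit 18) 
(.lf (nat_lit 45867090) (dlOf (nat_lit 5) (nat_lit 0x6173e002db5d8000881000bdcf800b6d760000904000d6bb0000401000cb9f0006daec0000008003000400180009360782))) 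
(.lf (nat_lit 12574802) (dlOf (nat_lit 1) (nat_lit 0x200286d1001)))))) (.nd (nat_lit 7) 
(.nd (nat_lit 6) (.lf (nat_lit 19655442) (dlOf (nat_lit 1) (nat_lit 0x4004000200089d5b82))) 
(.nd (nat_lit 8) (.lf (nat_lit 33284178) (dlOf (nat_lit 1) (nat_lit 0x400400020008f50002))) 
(.lf (nat_lit 19919186) (dlOf (nat_lit 1) (nat_lit 0x10004000200089d8382))))) (.nd (nat_lit 18) 
(.nd (nat_lit 6) (.lf (nat_lit 19658642) (dlOf (nat_lit 1) (nat_lit 0x400289da301))) 
(.lf (nat_lit 20706258) (dlOf (nat_lit 1) (nat_lit 0x1b000400e600089d9202)))) (.nd (nat_lit 8) 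
(.lf (nat_lit 19919570) (dlOf (nat_lit 1) (nat_lit 0x600289d8c81))) 
(.lf (nat_lit 19921362) (dlOf (nat_lit 1) (nat_lit 0x4004000200089db182))))))))) (.nd (nat_lit 27) 
(.nd (nat_lit 6) (.nd (nat_lit 30) (.nd (nat_lit 7) (.nd (nat_lit 8) (.nd (nat_lit 29) 
(.lf (nat_lit 4563656722) (dlOf (nat_lit 2) (nat_lit 0x27c034005f00f8002005403f00240000008000e00080b0001))) 
(.lf (nat_lit 2953043986) (dlOf (nat_lit 7) (nat_lit 0x602e000301380028078000aa0c000c03c0005402000602e00060150001807800100000005208000202e00020150002809c001403c0005108000202a000200f0001301000300b800200540004027000500f0002000000096140004004002e00180d0402)))) 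
(.lf (nat_lit 5100530450) (dlOf (nat_lit 1) (nat_lit 0x600180d5b81)))) (.nd (nat_lit 8) 
(.nd (nat_lit 10) (.lf (nat_lit 335798418) (dlOf (nat_lit 1) (nat_lit 0x10004000200080a2802))) 
(.lf (nat_lit 872670354) (dlOf (nat_lit 1) (nat_lit 0xc0018092b81)))) 
(.lf (nat_lit 5100530066) (dlOf (nat_lit 1) (nat_lit 0x400180d4e81))))) (.nd (nat_lit 21) 
(.nd (nat_lit 8) (.nd (nat_lit 19) 
(.lf (nat_lit 1342431250) (dlOf (nat_lit 4) (nat_lit 0x30e68006300800187340031404000c39a001890200020018020481))) 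
(.lf (nat_lit 3557548050) (dlOf (nat_lit 14) (nat_lit 0x8e072001303600320194020008c0028044001501b80330070000be1c004408c000e037001100e0001781804c8194035c08c016601c0002e83001603900010108007007e00055060050078012b039008b81bc00240c2023c05e012c021009c80fc045c06800054100060072001c02f00070108011c07e00052080072072002502f000a8108010407e00051080026072001802f000d010800a807e0004c080042072003302f0011810800cc07e0004b08007c0720031030802100fc000840c000407e00040020068072004001f8000fc1000980e0000660400f000404c80018260202)))) 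
(.lf (nat_lit 3557030162) (dlOf (nat_lit 7) (nat_lit 0xe0320004018400300c00016045000700d80015028005819000100c2000c06000080228005006c000a614001008a002a02200028820013011000140080058184001c0c0001c0220002283000e0110000f40800200080004002001e000812aa83)))) 
(.nd (nat_lit 7) (.nd (nat_lit 9) 
(.lf (nat_lit 3492536338) (dlOf (nat_lit 17) (nat_lit 0x3b12680440930032847401262320093114801708a003e044a0a361ea01000f18031878003f83b202161d100e30cf8008867400b832a003e18a001e0c38080860c03882fa009816c002a0b30020856400342ac005c15500c00a6003d851c01c427e00d4134008d096800d00000348a78000449a004c24c00e0123005288e8022446400962290089112807887e812543d401fe1e300250f08057878000a03bc01f61d900e40e88063072802d033e003a19500f70c1802205f400842d8001815b00510ac8009055800702a2017c14c00520a3803704fc01bc268006a12d002000000690cf8003051c034820400643f4011a16400880ad8001056401042a2007c13400d1f86002e0f58064b8080050560012880403182b00093a02018c1580049c8100cc0ac0024d4080270560011ec0400e82b0008f402009e158004778100350ac0023b80800d055c011b00400502ae008cf0200221ed00470ac0000001014180080a84002160c00080d0883)))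 
(.lf (nat_lit 1345839634) (dlOf (nat_lit 4) (nat_lit 0x584540020228000680400161150003301000808a800000080208008000400200140008e07c03)))) 
(.lf (nat_lit 1881401746) (dlOf (nat_lit 2) (nat_lit 0xe071802edc080018008000400200060008f04e83)))))) 
(.nd (nat_lit 8) (.nd (nat_lit 19) (.nd (nat_lit 21) (.nd (nat_lit 7) 
(.lf (nat_lit 4563656786) (dlOf (nat_lit 2) (nat_lit 0x1a031000000180b0680))) 
(.lf (nat_lit 5704508626) (dlOf (nat_lit 1) (nat_lit 0x4004000200080d2d82)))) (.nd (nat_lit 9) 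
(.lf (nat_lit 1344528466) (dlOf (nat_lit 2) (nat_lit 0x210e000084680003408001000200040008820782))) 
(.lf (nat_lit 1881401938) (dlOf (nat_lit 1) (nat_lit 0xe800800d0002007c0008f05283))))) 
(.nd (nat_lit 18) (.nd (nat_lit 20) 
(.lf (nat_lit 3492536402) (dlOf (nat_lit 3) (nat_lit 0x62a1ea0001481000f0f5000084080098008005800200de00080d0d83))) 
(.lf (nat_lit 1346101330) (dlOf (nat_lit 1) (nat_lit 0xb0008001400200040008e40783)))) 
(.lf (nat_lit 1344266322) (dlOf (nat_lit 1) (nat_lit 0x8008000800200020008560783))))) 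
(.nd (nat_lit 7) (.nd (nat_lit 11) (.nd (nat_lit 18) 
(.lf (nat_lit 805560658) (dlOf (nat_lit 8) (nat_lit 0x94014000680200ec00a00033810073005000198080070028000880400040140004202011a00a0002001003c0050000fc0805500080008002001e0008124d03))) 
(.lf (nat_lit 1342693714) (dlOf (nat_lit 3) (nat_lit 0x4346000560200121c50001d8180c0680)))) 
(.lf (nat_lit 1410070866) (dlOf (nat_lit 1) (nat_lit 0x3800180fab81)))) (.nd (nat_lit 9) 
(.lf (nat_lit 805560786) (dlOf (nat_lit 2) (nat_lit 0x1e00e004e1018127100))) 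
(.lf (nat_lit 6241381330) (dlOf (nat_lit 2) (nat_lit 0x4a012000160180d5d80))))))) (.nd (nat_lit 30) 
(.nd (nat_lit 6) (.nd (nat_lit 26) (.nd (nat_lit 29) 
(.lf (nat_lit 4697874450) (dlOf (nat_lit 2) (nat_lit 0x27c034005f00f8002005403f00240000008000e00080b0001))) 
(.lf (nat_lit 3087261714) (dlOf (nat_lit 2) (nat_lit 0x12020000700e80040070002c03200120180006003802c3c300178008005800200140008160483)))) 
(.nd (nat_lit 7) (.nd (nat_lit 20) (.nd (nat_lit 31) 
(.lf (nat_lit 470016018) (dlOf (nat_lit 4) (nat_lit 0x30e68003f0080018734001f204000c39a000f80200020018020481))) 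
(.lf (nat_lit 2617499666) (dlOf (nat_lit 3) (nat_lit 0x1780680004023009c01000017c180280080000b204000c004006000180c0482)))) 
(.lf (nat_lit 471064594) (dlOf (nat_lit 1) (nat_lit 0x2d0008012400200e40008260383)))) 
(.lf (nat_lit 472377746) (dlOf (nat_lit 1) (nat_lit 0x50008001c00200140008984e83))))) 
(.nd (nat_lit 29) (.nd (nat_lit 8) (.nd (nat_lit 18) 
(.lf (nat_lit 4697874514) (dlOf (nat_lit 2) (nat_lit 0x1a031000000180b0680))) 
(.lf (nat_lit 471851090) (dlOf (nat_lit 1) (nat_lit 0x8008000800200020008540783)))) 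
(.lf (nat_lit 470278482) (dlOf (nat_lit 3) (nat_lit 0x4366000560200121c50001d8180c0680)))) 
(.nd (nat_lit 7) (.nd (nat_lit 26) 
(.lf (nat_lit 3087261778) (dlOf (nat_lit 1) (nat_lit 0x40028160901))) 
(.lf (nat_lit 5301854290) (dlOf (nat_lit 2) (nat_lit 0x1004c00088040004004000200180b0682)))) 
(.lf (nat_lit 3154370770) (dlOf (nat_lit 2) (nat_lit 0x10044000000200020028160501)))))) 
(.nd (nat_lit 6) (.nd (nat_lit 7) (.nd (nat_lit 9) (.nd (nat_lit 26) 
(.lf (nat_lit 2013519890) (dlOf (nat_lit 1) (nat_lit 0x4002000200080e0182))) 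
(.lf (nat_lit 1543757842) (dlOf (nat_lit 2) (nat_lit 0x4028002bc818160480)))) 
(.lf (nat_lit 1476913682) (dlOf (nat_lit 1) (nat_lit 0xc004001a00082d5082)))) (.nd (nat_lit 8) 
(.lf (nat_lit 6376382610) (dlOf (nat_lit 1) (nat_lit 0x4a20028090481))) 
(.lf (nat_lit 5771881362) (dlOf (nat_lit 1) (nat_lit 0xb60008000400201d40008005c83))))) 
(.nd (nat_lit 7) (.nd (nat_lit 26) (.nd (nat_lit 8) 
(.lf (nat_lit 5773189202) (dlOf (nat_lit 3) (nat_lit 0x28c2600005602001213e006709880004c1000100080008002000400080b0683))) 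
(.lf (nat_lit 5773452626) (dlOf (nat_lit 1) (nat_lit 0x400280e3301)))) (.nd (nat_lit 19) 
(.lf (nat_lit 2080628818) (dlOf (nat_lit 1) (nat_lit 0x380080010002000c00080a1703))) 
(.lf (nat_lit 6377168978) (dlOf (nat_lit 3) (nat_lit 0x28c24200056020012131006709100004c1000100080008002000400080b0683))))) 
(.nd (nat_lit 8) (.nd (nat_lit 9) 
(.lf (nat_lit 3624135890) (dlOf (nat_lit 5) (nat_lit 0x701e800180000000c08002807a0000502000803d0000201000401e800980000000008002000400040018146402))) 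
(.lf (nat_lit 1476913874) (dlOf (nat_lit 3) (nat_lit 0x500a4002c03e0002804000203500030148002807c000320c0040004000400182d5882)))) 
(.lf (nat_lit 4228642770) (dlOf (nat_lit 2) (nat_lit 0x201600155008000800800080020004000811a603))))))))) 
(.nd (nat_lit 18) (.nd (nat_lit 19) (.nd (nat_lit 8) (.nd (nat_lit 29) (.nd (nat_lit 26) 
(.nd (nat_lit 6) 
(.lf (nat_lit 3355697178) (dlOf (nat_lit 19) (nat_lit 0x2080000183604001005600bd202000402e0009015800500a000440460002020000a009800a00300179e1c00100560006028005e7020002015800080940179808005005a001402b000f014000a80940070046004200c005e4860012006002f200800d00ac017840400100560004020005da820001015802e740800100ac0168a04000404a00b400200020250059b010018013802c5008013009c0161404006c04e00b0802002a02f0055f010004013802618080108008015c002000c00080c0703))) 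
(.lf (nat_lit 5637400154) (dlOf (nat_lit 1) (nat_lit 0x400280d3901)))) (.nd (nat_lit 7) 
(.lf (nat_lit 471064602) (dlOf (nat_lit 1) (nat_lit 0x5000400240008260582))) 
(.lf (nat_lit 335798426) (dlOf (nat_lit 1) (nat_lit 0x4004000200080a2b82))))) (.nd (nat_lit 9) 
(.nd (nat_lit 6) (.lf (nat_lit 2013519898) (dlOf (nat_lit 1) (nat_lit 0x40002000200080e0402))) 
(.lf (nat_lit 3892568282) (dlOf (nat_lit 1) (nat_lit 0x800400040018160582)))) (.nd (nat_lit 10) 
(.lf (nat_lit 4026786330) (dlOf (nat_lit 1) (nat_lit 0x2f400400120008090d82))) 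
(.lf (nat_lit 5234746906) (dlOf (nat_lit 3) (nat_lit 0x60180001b01000a00c000000080048008000c002000400080d3703)))))) 
(.nd (nat_lit 9) (.nd (nat_lit 28) (.nd (nat_lit 7) 
(.lf (nat_lit 20177178) (dlOf (nat_lit 1) (nat_lit 0x1280080004002000200089d0a83))) 
(.lf (nat_lit 738453914) (dlOf (nat_lit 1) (nat_lit 0x3a0028094e81)))) (.nd (nat_lit 22) 
(.lf (nat_lit 268689690) (dlOf (nat_lit 1) (nat_lit 0x400280e0a81))) 
(.lf (nat_lit 3494109466) (dlOf (nat_lit 1) (nat_lit 0x80080004002000200081b0483))))) 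
(.nd (nat_lit 6) (.nd (nat_lit 20) (.nd (nat_lit 27) 
(.lf (nat_lit 4899203866) (dlOf (nat_lit 1) (nat_lit 0x130002005400080d5c02))) 
(.lf (nat_lit 4496550682) (dlOf (nat_lit 1) (nat_lit 0xc004000200080e5c02)))) 
(.lf (nat_lit 20179738) (dlOf (nat_lit 1) (nat_lit 0x80080004002000200089d5c03)))) 
(.nd (nat_lit 11) (.lf (nat_lit 2751718362) (dlOf (nat_lit 1) (nat_lit 0x20018002881))) 
(.lf (nat_lit 738454490) (dlOf (nat_lit 1) (nat_lit 0xc0028095e01))))))) (.nd (nat_lit 20) 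
(.nd (nat_lit 7) (.nd (nat_lit 8) (.nd (nat_lit 26) 
(.lf (nat_lit 3492536346) (dlOf (nat_lit 1) (nat_lit 0xe00080d0881))) 
(.lf (nat_lit 2754338842) (dlOf (nat_lit 1) (nat_lit 0xe00080d0881)))) (.nd (nat_lit 6) 
(.lf (nat_lit 19655450) (dlOf (nat_lit 1) (nat_lit 0x1700080028002000400089d5c03))) 
(.lf (nat_lit 19653466) (dlOf (nat_lit 1) (nat_lit 0x5c00401a200089d2582))))) (.nd (nat_lit 21) 
(.nd (nat_lit 6) (.lf (nat_lit 537652378) (dlOf (nat_lit 1) (nat_lit 0x400280f6201))) 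
(.lf (nat_lit 537656538) (dlOf (nat_lit 1) (nat_lit 0x4004000200080fc402)))) (.nd (nat_lit 8) 
(.lf (nat_lit 36431002) (dlOf (nat_lit 1) (nat_lit 0x40019072b81))) 
(.lf (nat_lit 57403802) (dlOf (nat_lit 1) (nat_lit 0x100080038002003e0009794e83)))))) 
(.nd (nat_lit 21) (.nd (nat_lit 10) (.nd (nat_lit 26) 
(.lf (nat_lit 5773189146) (dlOf (nat_lit 1) (nat_lit 0x80080008002000200080b0103))) 
(.lf (nat_lit 6377168922) (dlOf (nat_lit 1) (nat_lit 0x80080008002000200080b0103)))) 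
(.nd (nat_lit 6) (.lf (nat_lit 43771290) (dlOf (nat_lit 1) (nat_lit 0x800292a3601))) 
(.lf (nat_lit 43771482) (dlOf (nat_lit 1) (nat_lit 0x200292a3901))))) (.nd (nat_lit 23) 
(.nd (nat_lit 6) (.lf (nat_lit 1346101274) (dlOf (nat_lit 1) (nat_lit 0x400400020008e40102))) 
(.lf (nat_lit 20706010) (dlOf (nat_lit 1) (nat_lit 0x80080004002000200089d8c83)))) 
(.nd (nat_lit 24) (.lf (nat_lit 45867034) (dlOf (nat_lit 1) (nat_lit 0x400400060009360102))) 
(.lf (nat_lit 29089818) (dlOf (nat_lit 1) (nat_lit 0x20008dc0a01)))))))) (.nd (nat_lit 21) 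
(.nd (nat_lit 27) (.nd (nat_lit 29) (.nd (nat_lit 20) (.nd (nat_lit 22) (.nd (nat_lit 7) 
(.nd (nat_lit 9) 
(.lf (nat_lit 4362592282) (dlOf (nat_lit 2) (nat_lit 0x1e019800000080108008004c002004000080a0903))) 
(.lf (nat_lit 50848282) (dlOf (nat_lit 1) (nat_lit 0x4004000200094d8702)))) 
(.lf (nat_lit 4563921306) (dlOf (nat_lit 1) (nat_lit 0x160028124e81)))) (.nd (nat_lit 6) 
(.lf (nat_lit 13099034) (dlOf (nat_lit 4) (nat_lit 0x1431b0000fc08080800000048040024c660012618000130000003c180158008002c002002800086f0403))) 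
(.lf (nat_lit 21487706) (dlOf (nat_lit 2) (nat_lit 0xea0c000560200040018a40681))))) 
(.nd (nat_lit 23) (.nd (nat_lit 22) 
(.lf (nat_lit 1343741978) (dlOf (nat_lit 2) (nat_lit 0x82c40163e04002000200300008350682))) 
(.lf (nat_lit 22536218) (dlOf (nat_lit 1) (nat_lit 0x8008000400200020008af0603)))) 
(.nd (nat_lit 19) (.lf (nat_lit 9953306) (dlOf (nat_lit 1) (nat_lit 0x400185a0a01))) 
(.lf (nat_lit 10477594) (dlOf (nat_lit 2) (nat_lit 0x14efc00100000001e8285e0b00)))))) 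
(.nd (nat_lit 6) (.nd (nat_lit 9) (.nd (nat_lit 26) 
(.lf (nat_lit 805822490) (dlOf (nat_lit 2) (nat_lit 0x5004c00000040144004005c00081b0902))) 
(.lf (nat_lit 1678237722) (dlOf (nat_lit 2) (nat_lit 0x5004c00000040144004005c00081b0902)))) 
(.lf (nat_lit 537387546) (dlOf (nat_lit 1) (nat_lit 0x8008000800201620008090d83)))) 
(.nd (nat_lit 26) 
(.lf (nat_lit 805822554) (dlOf (nat_lit 1) (nat_lit 0xc00080030002005c00081b1183))) 
(.lf (nat_lit 1678237786) (dlOf (nat_lit 1) (nat_lit 0xc00080030002005c00081b1183)))))) 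
(.nd (nat_lit 26) (.nd (nat_lit 30) (.nd (nat_lit 6) (.nd (nat_lit 29) 
(.lf (nat_lit 134733850) (dlOf (nat_lit 6) (nat_lit 0x8082000803f000101e8064581800c810c002c07e01915040006043000301f8064441000c010c000407e018e7040012043000c01f8061c010017800800a4002002000080a0903))) 
(.lf (nat_lit 2819088410) (dlOf (nat_lit 1) (nat_lit 0x2e00281a0501)))) 
(.lf (nat_lit 134733914) (dlOf (nat_lit 2) (nat_lit 0xa015000130180a1180)))) (.nd (nat_lit 6) 
(.nd (nat_lit 7) (.lf (nat_lit 5771881242) (dlOf (nat_lit 1) (nat_lit 0x3c00400120008005c02))) 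
(.lf (nat_lit 1476913562) (dlOf (nat_lit 1) (nat_lit 0xe00082d4e81)))) 
(.lf (nat_lit 3892830298) (dlOf (nat_lit 2) (nat_lit 0x6180b0000aa04000800200220008280382))))) 
(.nd (nat_lit 28) (.nd (nat_lit 6) 
(.lf (nat_lit 201842714) (dlOf (nat_lit 6) (nat_lit 0x8082000803f000101e80718c1800c810c002c07e01c62040006043000301f8071781000c010c000407e01c45040012043000c01f806f5810017800800a4002002000080a0903))) 
(.lf (nat_lit 201842778) (dlOf (nat_lit 2) (nat_lit 0xa016000098180a1180)))) (.nd (nat_lit 19) 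
(.lf (nat_lit 4228374554) (dlOf (nat_lit 2) (nat_lit 0x1e019000000080108008004c002004000080a0903))) 
(.lf (nat_lit 470802458) (dlOf (nat_lit 2) (nat_lit 0x200bd0000e0181b0500))))))) (.nd (nat_lit 19) 
(.nd (nat_lit 20) (.nd (nat_lit 10) (.nd (nat_lit 23) 
(.lf (nat_lit 1881661466) (dlOf (nat_lit 1) (nat_lit 0x10008001000200100008fb0503))) 
(.lf (nat_lit 27779098) (dlOf (nat_lit 1) (nat_lit 0x4f8008003800200200008d20583)))) 
(.lf (nat_lit 57140250) (dlOf (nat_lit 1) (nat_lit 0x800200040009792882)))) (.nd (nat_lit 6) 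
(.nd (nat_lit 10) (.lf (nat_lit 37216282) (dlOf (nat_lit 1) (nat_lit 0x10002000200090c0602))) 
(.lf (nat_lit 49800218) (dlOf (nat_lit 1) (nat_lit 0x8002000200094c2882)))) (.nd (nat_lit 9) 
(.lf (nat_lit 2755125338) (dlOf (nat_lit 8) (nat_lit 0x610c0007640800088bc00042160002101000ec03000111400038860000442c001d606000c2180001080800750100028860003a6040004450000e21800010808007481800088bc0004450000e218000108580008404003a214001000400020018110982))) 
(.lf (nat_lit 53996122) (dlOf (nat_lit 2) (nat_lit 0x40572000140195f5300)))))) (.nd (nat_lit 7) 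
(.nd (nat_lit 20) (.nd (nat_lit 6) 
(.lf (nat_lit 53469210) (dlOf (nat_lit 1) (nat_lit 0x4002000200095e0182))) 
(.lf (nat_lit 3492804698) (dlOf (nat_lit 4) (nat_lit 0x1e07b0010a81000603d8008200800281ec00400040004004001800180fa782)))) 
(.nd (nat_lit 23) 
(.lf (nat_lit 20963354) (dlOf (nat_lit 1) (nat_lit 0x100080004002000200089f0103))) 
(.lf (nat_lit 12574746) (dlOf (nat_lit 3) (nat_lit 0xcc7801c8602000401100e2f0186d0900))))) 
(.nd (nat_lit 9) (.nd (nat_lit 10) 
(.lf (nat_lit 58712218) (dlOf (nat_lit 2) (nat_lit 0x1a028003e004002c004003800097e0502))) 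
(.lf (nat_lit 37741722) (dlOf (nat_lit 2) (nat_lit 0x5d2c0008ce9000448290d2b80)))) (.nd (nat_lit 6) 
(.lf (nat_lit 19919514) (dlOf (nat_lit 1) (nat_lit 0x280080004002000200089d8c83))) 
(.lf (nat_lit 8385242) (dlOf (nat_lit 1) (nat_lit 0x120008002800200520008518c83))))))))))) 
(.nd (nat_lit 3) (.nd (nat_lit 16) (.nd (nat_lit 26) (.nd (nat_lit 6) (.nd (nat_lit 27) 
(.nd (nat_lit 19) (.nd (nat_lit 8) (.nd (nat_lit 23) (.nd (nat_lit 10) (.nd (nat_lit 18) 
(.nd (nat_lit 28) (.lf (nat_lit 6442639410) (dlOf (nat_lit 1) (nat_lit 0x460008110601))) 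
(.lf (nat_lit 268623922) (dlOf (nat_lit 1) (nat_lit 0x600280d0601)))) 
(.lf (nat_lit 1611063346) (dlOf (nat_lit 1) (nat_lit 0x2400080d0381)))) (.nd (nat_lit 9) 
(.lf (nat_lit 1344463922) (dlOf (nat_lit 1) (nat_lit 0x48008000c00200100008802883))) 
(.lf (nat_lit 5637334578) (dlOf (nat_lit 2) (nat_lit 0xe013000160180d3780))))) (.nd (nat_lit 20) 
(.lf (nat_lit 25354290) (dlOf (nat_lit 1) (nat_lit 0x400400020008c00682))) (.nd (nat_lit 22) 
(.lf (nat_lit 26402866) (dlOf (nat_lit 1) (nat_lit 0x2c00200280008c40d02))) 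
(.lf (nat_lit 30597170) (dlOf (nat_lit 1) (nat_lit 0x400400080008e40f02)))))) (.nd (nat_lit 7) 
(.nd (nat_lit 9) (.nd (nat_lit 10) 
(.lf (nat_lit 805757234) (dlOf (nat_lit 2) (nat_lit 0x590168000e00800580080004002002000081a0503))) 
(.lf (nat_lit 8582450) (dlOf (nat_lit 1) (nat_lit 0x10002000a0008519882)))) 
(.lf (nat_lit 537061170) (dlOf (nat_lit 1) (nat_lit 0x20028003d81)))) (.nd (nat_lit 18) 
(.lf (nat_lit 11723186) (dlOf (nat_lit 1) (nat_lit 0x4002000200086c0782))) 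
(.lf (nat_lit 537321906) (dlOf (nat_lit 1) (nat_lit 0x20008090781)))))) (.nd (nat_lit 20) 
(.nd (nat_lit 21) (.nd (nat_lit 18) 
(.lf (nat_lit 537583666) (dlOf (nat_lit 9) (nat_lit 0x9802e02a1012c0c1404805dc0210001b0403c902e0266012c1280048092e0210001a04016b01800c600b4000640807a806003aa02d000180200e402e009d812c0568060027202d00590120000b828055017c02d40b8019205900cb025807180c0034805a001a0240001687002b02e001700c0008805a00560240001584001f0168000a40803d0008076c002001c00080c0f83))) 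
(.lf (nat_lit 21946418) (dlOf (nat_lit 1) (nat_lit 0x3c002002c0008a80d02)))) (.nd (nat_lit 7) 
(.lf (nat_lit 3492470834) (dlOf (nat_lit 1) (nat_lit 0x8e00080d0b81))) 
(.lf (nat_lit 36365490) (dlOf (nat_lit 1) (nat_lit 0x20019072c01))))) (.nd (nat_lit 8) 
(.nd (nat_lit 9) (.lf (nat_lit 14606386) (dlOf (nat_lit 2) (nat_lit 0x862e001c70200020018770481))) 
(.lf (nat_lit 3491422770) (dlOf (nat_lit 2) (nat_lit 0xe43d600761d200002828090f00)))) 
(.nd (nat_lit 7) (.lf (nat_lit 12247346) (dlOf (nat_lit 1) (nat_lit 0x280080014002000200086c0503))) 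
(.lf (nat_lit 43967922) (dlOf (nat_lit 1) (nat_lit 0x200292a3601))))))) (.nd (nat_lit 28) 
(.nd (nat_lit 9) (.nd (nat_lit 18) (.nd (nat_lit 19) 
(.lf (nat_lit 2281889842) (dlOf (nat_lit 1) (nat_lit 0x2a00180a0001))) 
(.lf (nat_lit 134930482) (dlOf (nat_lit 2) (nat_lit 0x600800080000000b41000400080090002000200080e0683)))) 
(.nd (nat_lit 10) (.nd (nat_lit 29) 
(.lf (nat_lit 134668338) (dlOf (nat_lit 1) (nat_lit 0x20018090001))) 
(.lf (nat_lit 2819022898) (dlOf (nat_lit 2) (nat_lit 0x2a4000000a8818150480)))) 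
(.lf (nat_lit 1208411186) (dlOf (nat_lit 1) (nat_lit 0x4002000200080e2882))))) (.nd (nat_lit 8) 
(.nd (nat_lit 11) 
(.lf (nat_lit 134406706) (dlOf (nat_lit 2) (nat_lit 0x170178001980801a0008006c002004a0008018003))) 
(.lf (nat_lit 1745021490) (dlOf (nat_lit 1) (nat_lit 0x60008000400200020008095183)))) 
(.lf (nat_lit 671278898) (dlOf (nat_lit 11) (nat_lit 0x6400f80007808038007c01840260001c04007c028007e00600008000000360c00cc050000c0130007006000e801000340000001a0a0022028002c00f80006010020007c0001e04010c03e00900130000582006300f8035004c0001408018003e00c20130000482001000f80001c0801700080320002000a0008143d83))))) 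
(.nd (nat_lit 29) (.nd (nat_lit 10) (.nd (nat_lit 18) 
(.lf (nat_lit 5773123634) (dlOf (nat_lit 1) (nat_lit 0x8002000200080a0e02))) 
(.lf (nat_lit 3624329266) (dlOf (nat_lit 1) (nat_lit 0x8008000c00200400008160603)))) 
(.lf (nat_lit 5772862514) (dlOf (nat_lit 1) (nat_lit 0x400200020008092882)))) (.nd (nat_lit 7) 
(.nd (nat_lit 30) 
(.lf (nat_lit 5234679858) (dlOf (nat_lit 8) (nat_lit 0x580bc002805c000802b0004014000400800006414002c064002402f0009017000680ac004004400140200010006000100000005e20009405c003002000014020005017000180800004e08001005c0002602002402e00012810006017000090080070008004400200180008080383))) 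
(.lf (nat_lit 6308421682) (dlOf (nat_lit 5) (nat_lit 0x980740060030002e008000c0038000bc2000c00b80068058003602a001a00f000d007400080340036018001d0040000801c004c0000002c1400060190000901000300c8000340800f00080014002001c0008080383)))) 
(.lf (nat_lit 3087197874) (dlOf (nat_lit 1) (nat_lit 0x20008007400200340008143a83))))))) 
(.nd (nat_lit 8) (.nd (nat_lit 27) (.nd (nat_lit 7) (.nd (nat_lit 19) (.nd (nat_lit 18) 
(.lf (nat_lit 3491946610) (dlOf (nat_lit 2) (nat_lit 0xa215e000f3018090080))) 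
(.lf (nat_lit 1343676530) (dlOf (nat_lit 2) (nat_lit 0x8368002817c0017804000200182e0481)))) 
(.nd (nat_lit 21) (.lf (nat_lit 17490034) (dlOf (nat_lit 1) (nat_lit 0xfa00088e0481))) 
(.lf (nat_lit 48947314) (dlOf (nat_lit 1) (nat_lit 0xa0019452501))))) (.nd (nat_lit 9) 
(.lf (nat_lit 1343676658) (dlOf (nat_lit 2) (nat_lit 0x1c2ca0008802000200082e0601))) 
(.nd (nat_lit 18) 
(.lf (nat_lit 40561394) (dlOf (nat_lit 1) (nat_lit 0x90008004c002002200091f5a03))) 
(.lf (nat_lit 453362) (dlOf (nat_lit 1) (nat_lit 0x160028005a01)))))) (.nd (nat_lit 9) 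
(.nd (nat_lit 10) (.nd (nat_lit 29) 
(.lf (nat_lit 5503115506) (dlOf (nat_lit 1) (nat_lit 0x18008000400200020008090a83))) 
(.lf (nat_lit 4966244594) (dlOf (nat_lit 1) (nat_lit 0x20008001c00200080008090a83)))) 
(.lf (nat_lit 402842866) (dlOf (nat_lit 1) (nat_lit 0x80018092e81)))) (.nd (nat_lit 7) 
(.lf (nat_lit 3892509298) (dlOf (nat_lit 1) (nat_lit 0x6002815b681))) (.nd (nat_lit 11) 
(.lf (nat_lit 2818766578) (dlOf (nat_lit 1) (nat_lit 0x2002812a001))) 
(.lf (nat_lit 2818764530) (dlOf (nat_lit 1) (nat_lit 0xa0018127481))))))) (.nd (nat_lit 18) 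
(.nd (nat_lit 20) (.nd (nat_lit 9) 
(.lf (nat_lit 1879237106) (dlOf (nat_lit 1) (nat_lit 0x800180c0d81))) (.nd (nat_lit 24) 
(.lf (nat_lit 3087197170) (dlOf (nat_lit 1) (nat_lit 0x800200020008142882))) 
(.lf (nat_lit 50521074) (dlOf (nat_lit 1) (nat_lit 0x400294c2881))))) (.nd (nat_lit 7) 
(.lf (nat_lit 37415282) (dlOf (nat_lit 1) (nat_lit 0x7200090d4e81))) (.nd (nat_lit 11) 
(.lf (nat_lit 43180530) (dlOf (nat_lit 1) (nat_lit 0x4004000200092a1402))) 
(.lf (nat_lit 8059378) (dlOf (nat_lit 1) (nat_lit 0x4002851b281)))))) (.nd (nat_lit 20) 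
(.nd (nat_lit 7) (.nd (nat_lit 10) 
(.lf (nat_lit 3221676402) (dlOf (nat_lit 27) (nat_lit 0x1013c00d80140089704003a04f00360050022541000a8028011240400d80140089102006c00a004448100070230021e40801d0114010f004011008c00d2043001d02100200100011007e001203300408860041023000c8114000c0660080606006c046000d022800100cc010080c011c08c0044045003002100178100012c07e008030a00500560022019001fc01002380e000fce04011c070007e202021603e0069007001c401009500f801a401c0070d04020c03e001f007001c301008780f801cc01c0070404009e00e0038181003c01f0039803800e0408003407c00e600e0038002014101f0039803800dfe08047007c00e600e0037f02013f01f0039803800df80800c407c00e600e0037b02001301e001bb00800b8008015c00200b60008170783))) 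
(.lf (nat_lit 19856754) (dlOf (nat_lit 1) (nat_lit 0x580080034002000e00089dc903)))) 
(.lf (nat_lit 537321970) (dlOf (nat_lit 2) (nat_lit 0x1c0a80016b0200060018090d81)))) 
(.nd (nat_lit 9) (.nd (nat_lit 11) 
(.lf (nat_lit 58122738) (dlOf (nat_lit 4) (nat_lit 0xcce3000df8100066718006500800433b400399d80004e04000a00197c7401))) 
(.lf (nat_lit 51833330) (dlOf (nat_lit 1) (nat_lit 0x20029514f01)))) 
(.lf (nat_lit 1345774578) (dlOf (nat_lit 1) (nat_lit 0x400400040008dd2882)))))))) (.nd (nat_lit 29) 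
(.nd (nat_lit 30) (.nd (nat_lit 7) (.nd (nat_lit 9) (.nd (nat_lit 8) (.nd (nat_lit 18) 
(.lf (nat_lit 202039346) (dlOf (nat_lit 2) (nat_lit 0x600800080000000b41000400080090002000200080e0683))) 
(.lf (nat_lit 470212658) (dlOf (nat_lit 1) (nat_lit 0x200180a0981)))) 
(.lf (nat_lit 4362527026) (dlOf (nat_lit 4) (nat_lit 0x4500000004202002c0320001f8100660190000d8080160008008800200420008090503)))) 
(.nd (nat_lit 11) (.nd (nat_lit 27) 
(.lf (nat_lit 2483216946) (dlOf (nat_lit 4) (nat_lit 0x580000004e04003801c0002602000802e000b0000000241000d0008001800200220008090f03))) 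
(.lf (nat_lit 2348999218) (dlOf (nat_lit 4) (nat_lit 0x700380004e04002c0000002202000802c000b0000000241000d0008001800200220008090f03)))) 
(.lf (nat_lit 335735346) (dlOf (nat_lit 1) (nat_lit 0x400400020008095182))))) (.nd (nat_lit 6) 
(.nd (nat_lit 10) 
(.lf (nat_lit 2348999090) (dlOf (nat_lit 4) (nat_lit 0xbc044004400d0067682005e00680338c080028034019c404000c00400040008090782))) 
(.lf (nat_lit 70182322) (dlOf (nat_lit 1) (nat_lit 0xb18004024c0008fa3602)))) (.nd (nat_lit 8) 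
(.lf (nat_lit 473882866) (dlOf (nat_lit 1) (nat_lit 0x20018fc1e81))) (.nd (nat_lit 27) 
(.lf (nat_lit 2483216882) (dlOf (nat_lit 2) (nat_lit 0x18a015011c0040096c01c0060003023a0000002f4280860008001400200160008090d83))) 
(.lf (nat_lit 2348999154) (dlOf (nat_lit 1) (nat_lit 0x58008004c00200160008090d83))))))) 
(.nd (nat_lit 6) (.nd (nat_lit 10) (.nd (nat_lit 27) (.nd (nat_lit 18) 
(.lf (nat_lit 5704441906) (dlOf (nat_lit 5) (nat_lit 0x980740060030002e008000c0038000c82000c00b80068058003602a001a00f000d007400080340036018001d0040000801c004c0000002f1400060190000901000300c8000340800f00080014002001c0008080383))) 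
(.lf (nat_lit 3557220402) (dlOf (nat_lit 2) (nat_lit 0xcea07200b601f800734100038008002000200140008170483)))) 
(.nd (nat_lit 31) (.lf (nat_lit 5838659634) (dlOf (nat_lit 1) (nat_lit 0x460008110601))) 
(.lf (nat_lit 3691175986) (dlOf (nat_lit 6) (nat_lit 0x202600bb00e814400100006e0c030c03a050e0040001b02011e00e0000d40803780700006804033c04a015801d012300e013f00100830006000000a00d40018070981))))) 
(.nd (nat_lit 8) (.lf (nat_lit 3288785970) (dlOf (nat_lit 1) (nat_lit 0xc00180f2881))) 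
(.lf (nat_lit 3556962098) (dlOf (nat_lit 1) (nat_lit 0x800200060008127482))))) (.nd (nat_lit 7) 
(.nd (nat_lit 9) (.lf (nat_lit 1409737074) (dlOf (nat_lit 2) (nat_lit 0xde04b003a2818090780))) 
(.lf (nat_lit 3422745458) (dlOf (nat_lit 1) (nat_lit 0x200180a8f81)))) (.nd (nat_lit 8) 
(.lf (nat_lit 3556962034) (dlOf (nat_lit 1) (nat_lit 0xa0018127481))) (.nd (nat_lit 9) 
(.lf (nat_lit 1409737202) (dlOf (nat_lit 2) (nat_lit 0x80b6021e05800eb022805c80dc002c046000bd0a00060018090d81))) 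
(.lf (nat_lit 3556962290) (dlOf (nat_lit 1) (nat_lit 0x20018127a81)))))))) (.nd (nat_lit 18) 
(.nd (nat_lit 7) (.nd (nat_lit 9) (.nd (nat_lit 6) 
(.lf (nat_lit 2754273330) (dlOf (nat_lit 1) (nat_lit 0x8e00080d0b81))) (.nd (nat_lit 8) 
(.lf (nat_lit 2755846258) (dlOf (nat_lit 5) (nat_lit 0x4507500046004003c3a80022f02005e1c00091088806b042403f41f600200ef000f405000a07d8007980800200080008002000a00081b0083))) 
(.lf (nat_lit 5033353586) (dlOf (nat_lit 1) (nat_lit 0x18002000a0008091002))))) (.nd (nat_lit 19) 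
(.nd (nat_lit 28) (.lf (nat_lit 1812128306) (dlOf (nat_lit 2) (nat_lit 0xc20000002e818158000))) 
(.lf (nat_lit 4228047410) (dlOf (nat_lit 1) (nat_lit 0x20018018001)))) 
(.lf (nat_lit 2753225266) (dlOf (nat_lit 2) (nat_lit 0xe43fa00761e700002828090f00))))) 
(.nd (nat_lit 8) (.nd (nat_lit 9) (.nd (nat_lit 11) 
(.lf (nat_lit 2080564466) (dlOf (nat_lit 1) (nat_lit 0x9a0018092e81))) 
(.lf (nat_lit 3825396978) (dlOf (nat_lit 1) (nat_lit 0x58008001c00200140008146583)))) 
(.lf (nat_lit 2751653618) (dlOf (nat_lit 2) (nat_lit 0x61b800016018003b80)))) (.nd (nat_lit 11) 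
(.lf (nat_lit 2753225202) (dlOf (nat_lit 1) (nat_lit 0x20028090d81))) 
(.lf (nat_lit 2751658482) (dlOf (nat_lit 1) (nat_lit 0x20002800b281)))))) (.nd (nat_lit 8) 
(.nd (nat_lit 27) (.nd (nat_lit 10) 
(.lf (nat_lit 4096712754) (dlOf (nat_lit 1) (nat_lit 0x20028160601))) (.nd (nat_lit 21) 
(.lf (nat_lit 604431410) (dlOf (nat_lit 1) (nat_lit 0x320028282881))) 
(.lf (nat_lit 4096189490) (dlOf (nat_lit 1) (nat_lit 0x200280e2881))))) (.nd (nat_lit 6) 
(.nd (nat_lit 31) (.lf (nat_lit 738648114) (dlOf (nat_lit 1) (nat_lit 0x2400080d0381))) 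
(.lf (nat_lit 2886131762) (dlOf (nat_lit 1) (nat_lit 0x8008000c00200400008160603)))) 
(.lf (nat_lit 6376319602) (dlOf (nat_lit 1) (nat_lit 0x2c00200020008095402))))) (.nd (nat_lit 7) 
(.nd (nat_lit 9) (.nd (nat_lit 27) 
(.lf (nat_lit 1678172466) (dlOf (nat_lit 2) (nat_lit 0x590168000d80800580080004002002000081a0503))) 
(.lf (nat_lit 4228309298) (dlOf (nat_lit 4) (nat_lit 0x4500000004502002c0310001f8100660188000e0080160008008800200420008090503)))) 
(.lf (nat_lit 2751915826) (dlOf (nat_lit 2) (nat_lit 0x183200001604000400400100018003d82)))) 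
(.nd (nat_lit 6) 
(.lf (nat_lit 3959873970) (dlOf (nat_lit 2) (nat_lit 0x25803e002500700329c1004e0008028c00200d60008170783))) 
(.lf (nat_lit 604431346) (dlOf (nat_lit 1) (nat_lit 0x20028282881))))))))) (.nd (nat_lit 18) 
(.nd (nat_lit 6) (.nd (nat_lit 28) (.nd (nat_lit 19) (.nd (nat_lit 26) (.nd (nat_lit 9) 
(.nd (nat_lit 22) (.lf (nat_lit 671342642) (dlOf (nat_lit 1) (nat_lit 0x7800400080008160602))) 
(.lf (nat_lit 21225522) (dlOf (nat_lit 1) (nat_lit 0x20018a20701)))) 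
(.lf (nat_lit 1745087026) (dlOf (nat_lit 1) (nat_lit 0x48008000400200020008095183)))) 
(.nd (nat_lit 27) (.nd (nat_lit 7) 
(.lf (nat_lit 3825459250) (dlOf (nat_lit 1) (nat_lit 0x8008000c00200020008160603))) 
(.lf (nat_lit 3288588466) (dlOf (nat_lit 1) (nat_lit 0x20028090301)))) (.nd (nat_lit 9) 
(.lf (nat_lit 1812193330) (dlOf (nat_lit 3) (nat_lit 0x10098001c042001c50400200260001010800238100018008000400200200008170d03))) 
(.lf (nat_lit 738454066) (dlOf (nat_lit 1) (nat_lit 0x400400020008095182)))))) (.nd (nat_lit 21) 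
(.nd (nat_lit 7) (.nd (nat_lit 20) 
(.lf (nat_lit 13361202) (dlOf (nat_lit 4) (nat_lit 0x3620000001b0100d20000000d00807800000005a04006400200380008720f82))) 
(.lf (nat_lit 18604082) (dlOf (nat_lit 2) (nat_lit 0x61f600016c080020008000800200080008950803)))) 
(.lf (nat_lit 67891634) (dlOf (nat_lit 1) (nat_lit 0x20018338501)))) (.nd (nat_lit 20) 
(.nd (nat_lit 26) (.lf (nat_lit 2875442) (dlOf (nat_lit 2) (nat_lit 0x1015e00060a3000e08281c0b80))) 
(.lf (nat_lit 2754338866) (dlOf (nat_lit 2) (nat_lit 0x303fa001d102000600080d0b81)))) 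
(.lf (nat_lit 29089842) (dlOf (nat_lit 1) (nat_lit 0x20008dc0c01)))))) (.nd (nat_lit 29) 
(.nd (nat_lit 30) (.nd (nat_lit 9) (.nd (nat_lit 27) 
(.lf (nat_lit 4563656754) (dlOf (nat_lit 8) (nat_lit 0x16e0090006cc0803d005405e00240018f040138012000c401013900900060c0807e0054067c0240017104013e012000b781000100900025008017000802b000200d800080b0483))) 
(.lf (nat_lit 4697874482) (dlOf (nat_lit 8) (nat_lit 0x16e00900068c0803d005405e00240018f040138012000c40101390090005e80807e0054067c0240017304013e012000b781000100900025008017000802b000200d800080b0483)))) 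
(.lf (nat_lit 268692018) (dlOf (nat_lit 1) (nat_lit 0x200080e5181)))) (.nd (nat_lit 9) 
(.nd (nat_lit 19) (.lf (nat_lit 1543757874) (dlOf (nat_lit 1) (nat_lit 0x7800400080008160602))) 
(.lf (nat_lit 3492536370) (dlOf (nat_lit 2) (nat_lit 0x303d6001d102000600080d0b81)))) 
(.lf (nat_lit 1410071090) (dlOf (nat_lit 1) (nat_lit 0x4004000200080fb382))))) (.nd (nat_lit 27) 
(.nd (nat_lit 7) (.nd (nat_lit 10) 
(.lf (nat_lit 4096516146) (dlOf (nat_lit 1) (nat_lit 0x8008000400200020008120383))) 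
(.lf (nat_lit 1880876082) (dlOf (nat_lit 1) (nat_lit 0x400400020008c32882)))) 
(.lf (nat_lit 4026785970) (dlOf (nat_lit 1) (nat_lit 0x20028090301)))) (.nd (nat_lit 9) 
(.nd (nat_lit 31) 
(.lf (nat_lit 939778098) (dlOf (nat_lit 3) (nat_lit 0x10098001c042001c50400200260001010800238100018008000400200200008170d03))) 
(.lf (nat_lit 3087261746) (dlOf (nat_lit 1) (nat_lit 0x8008000c00200020008160603)))) 
(.lf (nat_lit 5234746930) (dlOf (nat_lit 6) (nat_lit 0xa00a8000940800800540004804002803200100180001082000300c800010080040064000060400c8004000a00080d3782))))))) 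
(.nd (nat_lit 21) (.nd (nat_lit 26) (.nd (nat_lit 20) (.nd (nat_lit 7) 
(.lf (nat_lit 4448370) (dlOf (nat_lit 1) (nat_lit 0x800400040008290282))) 
(.lf (nat_lit 50588402) (dlOf (nat_lit 2) (nat_lit 0x1de48000400800080080004002000200094c5a03)))) 
(.nd (nat_lit 8) 
(.lf (nat_lit 9691250) (dlOf (nat_lit 2) (nat_lit 0x10f00002f4080030008000400200260008570a83))) 
(.lf (nat_lit 9691506) (dlOf (nat_lit 1) (nat_lit 0x7800800c000200320008575803))))) 
(.nd (nat_lit 7) (.nd (nat_lit 9) 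
(.lf (nat_lit 2755911794) (dlOf (nat_lit 2) (nat_lit 0x700f9000f40181b0080))) 
(.lf (nat_lit 5704509042) (dlOf (nat_lit 1) (nat_lit 0x200180d3981)))) (.nd (nat_lit 19) 
(.lf (nat_lit 2885937394) (dlOf (nat_lit 1) (nat_lit 0x20018144b81))) 
(.lf (nat_lit 1410066674) (dlOf (nat_lit 1) (nat_lit 0xc200080f4b81)))))) (.nd (nat_lit 7) 
(.nd (nat_lit 19) (.nd (nat_lit 9) 
(.lf (nat_lit 2351218) (dlOf (nat_lit 2) (nat_lit 0x54b0100124018150080))) 
(.lf (nat_lit 20181618) (dlOf (nat_lit 1) (nat_lit 0x4002000200089d8982)))) (.nd (nat_lit 8) 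
(.lf (nat_lit 8124530) (dlOf (nat_lit 1) (nat_lit 0x8002851a881))) 
(.lf (nat_lit 19657074) (dlOf (nat_lit 1) (nat_lit 0x400289d8381))))) (.nd (nat_lit 8) 
(.nd (nat_lit 10) (.lf (nat_lit 41148658) (dlOf (nat_lit 1) (nat_lit 0x20004002e0019221e82))) 
(.lf (nat_lit 19655922) (dlOf (nat_lit 1) (nat_lit 0x200289d6581)))) (.nd (nat_lit 9) 
(.lf (nat_lit 23323122) (dlOf (nat_lit 1) (nat_lit 0x60028b80d81))) 
(.lf (nat_lit 36955122) (dlOf (nat_lit 1) (nat_lit 0x8008000400200020009072883)))))))) 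
(.nd (nat_lit 28) (.nd (nat_lit 20) (.nd (nat_lit 19) (.nd (nat_lit 6) (.nd (nat_lit 8) 
(.lf (nat_lit 19390514) (dlOf (nat_lit 1) (nat_lit 0x400400020018990c02))) 
(.lf (nat_lit 17293618) (dlOf (nat_lit 1) (nat_lit 0x2400288e0701)))) (.nd (nat_lit 10) 
(.nd (nat_lit 26) (.lf (nat_lit 134733938) (dlOf (nat_lit 1) (nat_lit 0x200180a1601))) 
(.lf (nat_lit 201842802) (dlOf (nat_lit 1) (nat_lit 0x200180a1601)))) 
(.lf (nat_lit 604497010) (dlOf (nat_lit 1) (nat_lit 0x200282d2a01))))) (.nd (nat_lit 22) 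
(.nd (nat_lit 24) 
(.lf (nat_lit 68149298) (dlOf (nat_lit 2) (nat_lit 0x3400000037a0400cc002000c0008400482))) 
(.lf (nat_lit 17817650) (dlOf (nat_lit 1) (nat_lit 0x80080060002001a00088f0f03)))) (.nd (nat_lit 7) 
(.lf (nat_lit 22011954) (dlOf (nat_lit 1) (nat_lit 0x20028a90701))) 
(.lf (nat_lit 47177906) (dlOf (nat_lit 1) (nat_lit 0x6c00293b1681)))))) (.nd (nat_lit 6) 
(.nd (nat_lit 8) (.nd (nat_lit 9) (.nd (nat_lit 21) 
(.lf (nat_lit 26730546) (dlOf (nat_lit 1) (nat_lit 0x2400400720008c70982))) 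
(.lf (nat_lit 3661874) (dlOf (nat_lit 1) (nat_lit 0x1b20008210a01)))) 
(.lf (nat_lit 53996082) (dlOf (nat_lit 2) (nat_lit 0x45fd000458195f5180)))) (.nd (nat_lit 9) 
(.lf (nat_lit 8385842) (dlOf (nat_lit 1) (nat_lit 0x20008519881))) 
(.lf (nat_lit 8382258) (dlOf (nat_lit 1) (nat_lit 0x8008000400200020008513d83))))) (.nd (nat_lit 7) 
(.nd (nat_lit 19) (.lf (nat_lit 3661938) (dlOf (nat_lit 1) (nat_lit 0x58008006000200200008211603))) 
(.lf (nat_lit 2755649650) (dlOf (nat_lit 2) (nat_lit 0x3a0f9000f40181b0080)))) (.nd (nat_lit 8) 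
(.lf (nat_lit 28827890) (dlOf (nat_lit 1) (nat_lit 0x4b8008018c002008c0008da0603))) 
(.lf (nat_lit 33024498) (dlOf (nat_lit 2) (nat_lit 0x133f000000080018008000400200020008f54f03))))))) 
(.nd (nat_lit 6) (.nd (nat_lit 27) (.nd (nat_lit 19) (.nd (nat_lit 9) 
(.lf (nat_lit 1343742002) (dlOf (nat_lit 5) (nat_lit 0x901f8000e40400300f20005b0200280180001201003c058801a81f80000008004c00200580008350802))) 
(.lf (nat_lit 1342693938) (dlOf (nat_lit 2) (nat_lit 0x8871c00026040004002000c00080c0f02)))) 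
(.nd (nat_lit 20) (.lf (nat_lit 1343217714) (dlOf (nat_lit 2) (nat_lit 0x200be0000e8181b0980))) 
(.lf (nat_lit 4095729714) (dlOf (nat_lit 1) (nat_lit 0x4004000200080e0002))))) (.nd (nat_lit 8) 
(.nd (nat_lit 9) (.lf (nat_lit 4698137650) (dlOf (nat_lit 2) (nat_lit 0x6403300a46018122880))) 
(.lf (nat_lit 470278706) (dlOf (nat_lit 2) (nat_lit 0x8871c00028040004002000c00080c0f02)))) 
(.nd (nat_lit 7) (.lf (nat_lit 5771881266) (dlOf (nat_lit 1) (nat_lit 0x400400020008005c02))) 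
(.lf (nat_lit 472377778) (dlOf (nat_lit 6) (nat_lit 0x84138002e08d0060b0200180468030540801d0234018280400e4138007608d0060802003a04680301c080038008002c00200140008984e83)))))) 
(.nd (nat_lit 11) (.nd (nat_lit 8) (.nd (nat_lit 26) 
(.lf (nat_lit 1342693618) (dlOf (nat_lit 1) (nat_lit 0x880080040002002a00080c0483))) 
(.lf (nat_lit 470278386) (dlOf (nat_lit 1) (nat_lit 0x880080040002002a00080c0483)))) 
(.nd (nat_lit 19) 
(.lf (nat_lit 470278642) (dlOf (nat_lit 1) (nat_lit 0xd00080080002005800080c0d83))) 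
(.lf (nat_lit 4095730162) (dlOf (nat_lit 1) (nat_lit 0x80080004002000200080e1403))))) 
(.nd (nat_lit 20) (.nd (nat_lit 8) 
(.lf (nat_lit 6376385138) (dlOf (nat_lit 1) (nat_lit 0x2a0018095401))) 
(.lf (nat_lit 472377714) (dlOf (nat_lit 1) (nat_lit 0x100080018002001c0008984e83)))) 
(.nd (nat_lit 7) (.lf (nat_lit 1346366066) (dlOf (nat_lit 1) (nat_lit 0x640008f65401))) 
(.lf (nat_lit 6377433842) (dlOf (nat_lit 1) (nat_lit 0x800280e5a01)))))))))) (.nd (nat_lit 16) 
(.nd (nat_lit 26) (.nd (nat_lit 8) (.nd (nat_lit 7) (.nd (nat_lit 18) (.nd (nat_lit 20) 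
(.nd (nat_lit 9) (.nd (nat_lit 19) 
(.lf (nat_lit 6442639418) (dlOf (nat_lit 4) (nat_lit 0x37007401ba02500dd00d006e8060000b8100334074019c02500cc00d00670060000b4100020074000220200020028110681))) 
(.lf (nat_lit 1879760954) (dlOf (nat_lit 1) (nat_lit 0x20028370001)))) (.nd (nat_lit 6) 
(.lf (nat_lit 23781946) (dlOf (nat_lit 1) (nat_lit 0x18008000400200020008b81003))) 
(.lf (nat_lit 53143162) (dlOf (nat_lit 1) (nat_lit 0x1400200040009573982))))) (.nd (nat_lit 6) 
(.nd (nat_lit 21) 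
(.lf (nat_lit 10149946) (dlOf (nat_lit 9) (nat_lit 0x4206b40ee80000005f0401081ad0375000000174102480000000b2041098000000570200a65e105cb0d7822b86b404d82dc01c4168006801a809d804404e401c00d200c05100000001485019198dc00f8c5a068062003c1304002097380770b5001ac407026a0f980be06bc0f0435a096416e05890b40292034403e017e0084035055b00883168038146c01809a60000002593000a0000001000800100000007204000c002004200085b0682))) 
(.lf (nat_lit 29024314) (dlOf (nat_lit 1) (nat_lit 0x6400400040008db1182)))) 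
(.lf (nat_lit 60481658) (dlOf (nat_lit 1) (nat_lit 0xa0019870c81))))) (.nd (nat_lit 6) 
(.nd (nat_lit 27) (.nd (nat_lit 20) 
(.lf (nat_lit 805756986) (dlOf (nat_lit 1) (nat_lit 0x38002002a00081a0002))) 
(.lf (nat_lit 9887802) (dlOf (nat_lit 1) (nat_lit 0x10008000400200820008591683)))) 
(.nd (nat_lit 28) 
(.lf (nat_lit 134668346) (dlOf (nat_lit 1) (nat_lit 0xa800800ac00200260008090003))) 
(.lf (nat_lit 3624329274) (dlOf (nat_lit 2) (nat_lit 0xe00000000002000a0018160681))))) 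
(.nd (nat_lit 9) (.nd (nat_lit 25) 
(.lf (nat_lit 21422202) (dlOf (nat_lit 3) (nat_lit 0x394ae0008a4d00055250000a580000461000094ae0002a4d000c5250000a5800004410014800400220018a30c82))) 
(.lf (nat_lit 54976634) (dlOf (nat_lit 4) (nat_lit 0x109f000384b4002807a0004706002212d000401e800118100028408000807a000380400480019680c81)))) 
(.nd (nat_lit 22) (.lf (nat_lit 1476848250) (dlOf (nat_lit 1) (nat_lit 0x2000200040008285402))) 
(.lf (nat_lit 46590586) (dlOf (nat_lit 1) (nat_lit 0x2400400020009385402))))))) (.nd (nat_lit 30) 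
(.nd (nat_lit 10) (.nd (nat_lit 18) (.nd (nat_lit 6) 
(.lf (nat_lit 25878714) (dlOf (nat_lit 1) (nat_lit 0x100018c10381))) 
(.lf (nat_lit 4966244602) (dlOf (nat_lit 2) (nat_lit 0x402400046018090a80)))) (.nd (nat_lit 19) 
(.lf (nat_lit 805757114) (dlOf (nat_lit 2) (nat_lit 0x84044002b0168000801000800080004002003200081a0383))) 
(.lf (nat_lit 6217914) (dlOf (nat_lit 1) (nat_lit 0x10008000800200020008420483))))) 
(.nd (nat_lit 11) (.lf (nat_lit 35841210) (dlOf (nat_lit 1) (nat_lit 0x400200020009012c82))) 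
(.lf (nat_lit 191674) (dlOf (nat_lit 1) (nat_lit 0xb800200260008006302))))) (.nd (nat_lit 6) 
(.nd (nat_lit 11) (.lf (nat_lit 1344464058) (dlOf (nat_lit 1) (nat_lit 0x3400200060008802c82))) 
(.lf (nat_lit 3490376890) (dlOf (nat_lit 1) (nat_lit 0x120028006301)))) (.nd (nat_lit 29) 
(.nd (nat_lit 32) 
(.lf (nat_lit 1208148218) (dlOf (nat_lit 2) (nat_lit 0xe027000a0130005801000a8008005800200060008090a83))) 
(.lf (nat_lit 5503115514) (dlOf (nat_lit 1) (nat_lit 0x400400020008090a82)))) 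
(.lf (nat_lit 1745019130) (dlOf (nat_lit 1) (nat_lit 0x11000400040008090a82))))))) 
(.nd (nat_lit 18) (.nd (nat_lit 10) (.nd (nat_lit 6) (.nd (nat_lit 29) 
(.lf (nat_lit 134406458) (dlOf (nat_lit 1) (nat_lit 0x60008014c01))) 
(.lf (nat_lit 4966244666) (dlOf (nat_lit 1) (nat_lit 0x30008000400200020008090b83)))) 
(.nd (nat_lit 7) (.lf (nat_lit 33220986) (dlOf (nat_lit 1) (nat_lit 0x400200020008f54e82))) 
(.nd (nat_lit 21) (.lf (nat_lit 39512570) (dlOf (nat_lit 1) (nat_lit 0xa0029194f81))) 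
(.lf (nat_lit 33221114) (dlOf (nat_lit 1) (nat_lit 0x400200060008f54f82)))))) (.nd (nat_lit 11) 
(.nd (nat_lit 6) (.nd (nat_lit 9) 
(.lf (nat_lit 8582458) (dlOf (nat_lit 1) (nat_lit 0x400200020008519902))) 
(.lf (nat_lit 3758290746) (dlOf (nat_lit 1) (nat_lit 0x14004001c000812a102)))) 
(.lf (nat_lit 3355637242) (dlOf (nat_lit 3) (nat_lit 0x4b019003280c400a405800900120053f04002501780035c0800a8008005c002002400080a9c03)))) 
(.nd (nat_lit 19) (.lf (nat_lit 3221417274) (dlOf (nat_lit 1) (nat_lit 0x60028116901))) 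
(.lf (nat_lit 3490377018) (dlOf (nat_lit 1) (nat_lit 0x16000800d800200480008006903)))))) 
(.nd (nat_lit 6) (.nd (nat_lit 7) (.nd (nat_lit 12) (.nd (nat_lit 20) 
(.lf (nat_lit 19849530) (dlOf (nat_lit 1) (nat_lit 0x4002000200089d0b82))) 
(.lf (nat_lit 1344201018) (dlOf (nat_lit 1) (nat_lit 0xe0028490581)))) 
(.lf (nat_lit 19853626) (dlOf (nat_lit 1) (nat_lit 0x200080004002000200089d8183)))) 
(.nd (nat_lit 9) (.nd (nat_lit 12) 
(.lf (nat_lit 58122682) (dlOf (nat_lit 1) (nat_lit 0xdc004008000097c6f82))) 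
(.lf (nat_lit 19853754) (dlOf (nat_lit 1) (nat_lit 0x600289d8581)))) 
(.lf (nat_lit 4026989498) (dlOf (nat_lit 2) (nat_lit 0x2e0350010b0180fbe00))))) (.nd (nat_lit 7) 
(.nd (nat_lit 11) (.nd (nat_lit 20) 
(.lf (nat_lit 3221676410) (dlOf (nat_lit 4) (nat_lit 0xee01f001c280807700f800e1004018807c0070702000a0028170781))) 
(.lf (nat_lit 11985274) (dlOf (nat_lit 1) (nat_lit 0x19000086c0781)))) 
(.lf (nat_lit 3490113914) (dlOf (nat_lit 1) (nat_lit 0x400200020008004e82)))) (.nd (nat_lit 19) 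
(.lf (nat_lit 8840186) (dlOf (nat_lit 1) (nat_lit 0x20008000400200020008512883))) 
(.lf (nat_lit 3492733946) (dlOf (nat_lit 1) (nat_lit 0x4002000200080f2882)))))))) (.nd (nat_lit 28) 
(.nd (nat_lit 29) (.nd (nat_lit 8) (.nd (nat_lit 7) (.nd (nat_lit 6) (.nd (nat_lit 18) 
(.lf (nat_lit 4496482362) (dlOf (nat_lit 1) (nat_lit 0x400200020008090482))) 
(.lf (nat_lit 4362526778) (dlOf (nat_lit 1) (nat_lit 0xc0018090001)))) 
(.lf (nat_lit 70182522) (dlOf (nat_lit 2) (nat_lit 0x106e0001580800400080004002000a0008fa3983)))) 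
(.nd (nat_lit 10) 
(.lf (nat_lit 4362526906) (dlOf (nat_lit 4) (nat_lit 0x14e01900120040008c00000020060002033000068100010198000300807b0008023c00203540008090383))) 
(.lf (nat_lit 69133498) (dlOf (nat_lit 2) (nat_lit 0x5043800000080038008000c002000600088a2c83))))) 
(.nd (nat_lit 6) (.nd (nat_lit 10) (.nd (nat_lit 27) 
(.lf (nat_lit 4362264890) (dlOf (nat_lit 2) (nat_lit 0x1205200040230028b4100098008007800200ae0008014c03))) 
(.lf (nat_lit 201515322) (dlOf (nat_lit 1) (nat_lit 0x60008014c01)))) 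
(.lf (nat_lit 6509751610) (dlOf (nat_lit 1) (nat_lit 0x400400020008146902)))) (.nd (nat_lit 7) 
(.nd (nat_lit 27) (.lf (nat_lit 4362527098) (dlOf (nat_lit 2) (nat_lit 0xa0330073d018090780))) 
(.lf (nat_lit 201777530) (dlOf (nat_lit 1) (nat_lit 0x57000802ec002015a0008090783)))) 
(.lf (nat_lit 4362265082) (dlOf (nat_lit 4) (nat_lit 0xd02b008000ac000cc0800840560004102009c02b0001f818017e00)))))) 
(.nd (nat_lit 11) (.nd (nat_lit 18) (.nd (nat_lit 6) (.nd (nat_lit 8) 
(.lf (nat_lit 2753749562) (dlOf (nat_lit 1) (nat_lit 0x194002006e0008091002))) 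
(.lf (nat_lit 2755846458) (dlOf (nat_lit 2) (nat_lit 0x4a1d3000130181b0580)))) 
(.lf (nat_lit 738386170) (dlOf (nat_lit 1) (nat_lit 0xc00200060008090a82)))) (.nd (nat_lit 7) 
(.nd (nat_lit 9) 
(.lf (nat_lit 2886131770) (dlOf (nat_lit 2) (nat_lit 0xe00000000002000a0018160681))) 
(.lf (nat_lit 2753487418) (dlOf (nat_lit 1) (nat_lit 0x40028091001)))) 
(.lf (nat_lit 1678172346) (dlOf (nat_lit 2) (nat_lit 0x84044002b0168000801000800080004002003200081a0383))))) 
(.nd (nat_lit 8) (.nd (nat_lit 7) 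
(.lf (nat_lit 2751658554) (dlOf (nat_lit 2) (nat_lit 0x831078001ec08005800800280020020000800b403))) 
(.lf (nat_lit 1677912250) (dlOf (nat_lit 1) (nat_lit 0x400400020008114902)))) (.nd (nat_lit 6) 
(.lf (nat_lit 3825397050) (dlOf (nat_lit 2) (nat_lit 0x807c0004004005000200400008146902))) 
(.lf (nat_lit 2751658362) (dlOf (nat_lit 1) (nat_lit 0x92000800ae81))))))) (.nd (nat_lit 8) 
(.nd (nat_lit 29) (.nd (nat_lit 9) (.nd (nat_lit 7) (.nd (nat_lit 18) 
(.lf (nat_lit 5838659642) (dlOf (nat_lit 4) (nat_lit 0x37007401ba02500dd00d006e8060000b8100334074019c02500cc00d00670060000b4100020074000220200020028110681))) 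
(.lf (nat_lit 473882682) (dlOf (nat_lit 1) (nat_lit 0x8002000c0008fc0582)))) 
(.lf (nat_lit 1543695546) (dlOf (nat_lit 2) (nat_lit 0x1c03e0001d0200020028146301)))) 
(.nd (nat_lit 6) (.lf (nat_lit 472050234) (dlOf (nat_lit 1) (nat_lit 0x48002000e0008805202))) 
(.lf (nat_lit 473098874) (dlOf (nat_lit 2) (nat_lit 0x7858c0008c04004c00200400008c95402))))) 
(.nd (nat_lit 6) (.nd (nat_lit 7) 
(.lf (nat_lit 4228309050) (dlOf (nat_lit 6) (nat_lit 0x140190035480800300c801a5804001406400d2b02002a032006938100020190025e0080540008013c00200180008090003))) 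
(.lf (nat_lit 4228309178) (dlOf (nat_lit 4) (nat_lit 0x14e0188012004c008c00000020060002032000068100010190000300807b0008023c00203540008090383)))) 
(.nd (nat_lit 7) (.nd (nat_lit 18) 
(.lf (nat_lit 6375532154) (dlOf (nat_lit 1) (nat_lit 0x8008000400200020008003983))) 
(.lf (nat_lit 6375794298) (dlOf (nat_lit 1) (nat_lit 0x20018003981)))) 
(.lf (nat_lit 6376579322) (dlOf (nat_lit 2) (nat_lit 0x28000001600200080008090a81)))))) 
(.nd (nat_lit 6) (.nd (nat_lit 10) (.nd (nat_lit 9) (.nd (nat_lit 18) 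
(.lf (nat_lit 4228047162) (dlOf (nat_lit 2) (nat_lit 0x1204b000401f801260100098008007800200ae0008014c03))) 
(.lf (nat_lit 471785786) (dlOf (nat_lit 1) (nat_lit 0xe0028490581)))) 
(.lf (nat_lit 6241315642) (dlOf (nat_lit 1) (nat_lit 0x4a00280d5c01)))) (.nd (nat_lit 19) 
(.lf (nat_lit 872867130) (dlOf (nat_lit 1) (nat_lit 0x2400280e3281))) 
(.lf (nat_lit 472835386) (dlOf (nat_lit 1) (nat_lit 0x400400020008b03282))))) (.nd (nat_lit 10) 
(.nd (nat_lit 9) 
(.lf (nat_lit 473360890) (dlOf (nat_lit 2) (nat_lit 0x304b0001680800b0008004000200180008ef4f83))) 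
(.lf (nat_lit 473099258) (dlOf (nat_lit 3) (nat_lit 0x86165000190100180b28000c40800f800800e800200160008c95f03)))) 
(.nd (nat_lit 11) 
(.lf (nat_lit 2617439738) (dlOf (nat_lit 4) (nat_lit 0xa005800ab602007402c0009181002801600035c0800400080024002001400080a9c03))) 
(.lf (nat_lit 1543695866) (dlOf (nat_lit 6) (nat_lit 0x20068002801a00200000000b03000500f80005408002807c00100340001404000e01f000400d0002803400400000000508000601f00060000000101000e80080080002001c0008146f83))))))))) 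
(.nd (nat_lit 26) (.nd (nat_lit 18) (.nd (nat_lit 19) (.nd (nat_lit 32) (.nd (nat_lit 6) 
(.nd (nat_lit 7) (.nd (nat_lit 27) (.nd (nat_lit 28) 
(.lf (nat_lit 537124922) (dlOf (nat_lit 3) (nat_lit 0x1c102a01678000000a40800040d20004b0200060028020681))) 
(.lf (nat_lit 1342431290) (dlOf (nat_lit 2) (nat_lit 0x22c24400c210b00025828020680)))) 
(.lf (nat_lit 671342650) (dlOf (nat_lit 23) (nat_lit 0x20380940d3c0440cf201f0003583026200f8001a8081a2807c000d204017c04a04b401f0003402003200f80019c0811a00a0015404a05ae01f01cb00000009c20088807c0004c040c6c05002a6025000b01101e0007c01f0000000250a023402502f600f812d80000003c0c00a804a02e801f0000e0201eb0140107009407a004403e601f00ca0000000482801a80a000c003e0000f04057a02802f6012815600880b1403e011001200b900000002c30001000000012040a6404a009802204a400f800020181b8807c0000e04012004a067c01f0000282002b0128130007c000080800ec0500000302040e01f000010100650128170007c0000208001c04a010c01f002b000000000180830008002800200020008160683))))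 
(.nd (nat_lit 9) (.lf (nat_lit 49538234) (dlOf (nat_lit 1) (nat_lit 0x8008000400200020009462c83))) 
(.lf (nat_lit 8648378) (dlOf (nat_lit 1) (nat_lit 0x16000800980020050000851a003))))) 
(.nd (nat_lit 8) (.nd (nat_lit 10) 
(.lf (nat_lit 9691258) (dlOf (nat_lit 3) (nat_lit 0x16194000303c00002404001c65000010f00000881001300080104002004e0008570b83))) 
(.lf (nat_lit 2147738746) (dlOf (nat_lit 1) (nat_lit 0x70004000200180e2a82)))) 
(.lf (nat_lit 4026786170) (dlOf (nat_lit 2) (nat_lit 0x400d80365204003800400100008090782))))) 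
(.nd (nat_lit 27) (.nd (nat_lit 28) 
(.lf (nat_lit 4295221306) (dlOf (nat_lit 1) (nat_lit 0x180080008002000200080b0b83))) 
(.lf (nat_lit 4563656762) (dlOf (nat_lit 4) (nat_lit 0x50012000d401036f019801800c80f0803c025001d013600a80aa80480013018063006603b601e000470280b0480)))) 
(.nd (nat_lit 6) (.nd (nat_lit 28) 
(.lf (nat_lit 4429439034) (dlOf (nat_lit 1) (nat_lit 0x180080008002000200080b0b83))) 
(.lf (nat_lit 4697874490) (dlOf (nat_lit 4) (nat_lit 0x50012000d681036f019801800c80f0803c025001d013600a80aa80480013018063006603b601e000470280b0480)))) 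
(.lf (nat_lit 5503183482) (dlOf (nat_lit 3) (nat_lit 0x600400003808001004c0000004001000200060008095402)))))) 
(.nd (nat_lit 20) (.nd (nat_lit 10) (.nd (nat_lit 8) (.nd (nat_lit 28) 
(.lf (nat_lit 2875450) (dlOf (nat_lit 2) (nat_lit 0x85d000c02e400120a30004a8381c0b80))) 
(.lf (nat_lit 3492536378) (dlOf (nat_lit 2) (nat_lit 0x3083d60000002000200080d0b81)))) 
(.lf (nat_lit 537656122) (dlOf (nat_lit 1) (nat_lit 0x1a00080fbc81)))) (.nd (nat_lit 7) 
(.nd (nat_lit 8) (.lf (nat_lit 36430906) (dlOf (nat_lit 1) (nat_lit 0x20019072881))) 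
(.lf (nat_lit 19655994) (dlOf (nat_lit 1) (nat_lit 0x200089d6901)))) (.nd (nat_lit 11) 
(.lf (nat_lit 36431034) (dlOf (nat_lit 1) (nat_lit 0x240029072c81))) 
(.lf (nat_lit 19655866) (dlOf (nat_lit 1) (nat_lit 0x400289d6301)))))) (.nd (nat_lit 8) 
(.nd (nat_lit 9) (.nd (nat_lit 23) 
(.lf (nat_lit 5773189178) (dlOf (nat_lit 1) (nat_lit 0x28004000600180b0482))) 
(.lf (nat_lit 10215482) (dlOf (nat_lit 1) (nat_lit 0x5400085c0d01)))) 
(.lf (nat_lit 8124986) (dlOf (nat_lit 1) (nat_lit 0x10002851b401)))) (.nd (nat_lit 6) 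
(.lf (nat_lit 8118714) (dlOf (nat_lit 1) (nat_lit 0x18008007400200060008511083))) (.nd (nat_lit 7) 
(.lf (nat_lit 33286522) (dlOf (nat_lit 1) (nat_lit 0x400200020008f54e82))) 
(.lf (nat_lit 43771386) (dlOf (nat_lit 1) (nat_lit 0x600292a3681)))))))) (.nd (nat_lit 8) 
(.nd (nat_lit 21) (.nd (nat_lit 10) (.nd (nat_lit 20) (.nd (nat_lit 27) 
(.lf (nat_lit 805822522) (dlOf (nat_lit 3) (nat_lit 0x1004f00200258003810c000480c00a00a2001003a0000a0281b0b80))) 
(.lf (nat_lit 134733882) (dlOf (nat_lit 1) (nat_lit 0x80080004002000800080a0b83)))) 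
(.lf (nat_lit 1343742010) (dlOf (nat_lit 1) (nat_lit 0x60008350901)))) (.nd (nat_lit 6) 
(.nd (nat_lit 7) (.lf (nat_lit 517178) (dlOf (nat_lit 1) (nat_lit 0x4004000e0018002882))) 
(.lf (nat_lit 8910522) (dlOf (nat_lit 1) (nat_lit 0x2002851a001)))) 
(.lf (nat_lit 4698137722) (dlOf (nat_lit 1) (nat_lit 0x400200060008122a82))))) (.nd (nat_lit 23) 
(.nd (nat_lit 11) (.nd (nat_lit 24) 
(.lf (nat_lit 2613306) (dlOf (nat_lit 1) (nat_lit 0x180018170b81))) 
(.lf (nat_lit 19390522) (dlOf (nat_lit 1) (nat_lit 0x28008000800200060008990c83)))) 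
(.lf (nat_lit 3492804666) (dlOf (nat_lit 1) (nat_lit 0x30002001c00080fa602)))) (.nd (nat_lit 9) 
(.lf (nat_lit 48750650) (dlOf (nat_lit 1) (nat_lit 0x160019420581))) 
(.lf (nat_lit 12051002) (dlOf (nat_lit 2) (nat_lit 0x80000001c02009000186c1001)))))) 
(.nd (nat_lit 21) (.nd (nat_lit 9) (.nd (nat_lit 6) 
(.lf (nat_lit 4698137914) (dlOf (nat_lit 1) (nat_lit 0xc00200060008123282))) (.nd (nat_lit 27) 
(.lf (nat_lit 4563921274) (dlOf (nat_lit 3) (nat_lit 0x4b01a005a340805480d0006a20400b8004001c0008124e82))) 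
(.lf (nat_lit 1476913530) (dlOf (nat_lit 1) (nat_lit 0xd800082d4e81))))) (.nd (nat_lit 7) 
(.lf (nat_lit 520058) (dlOf (nat_lit 1) (nat_lit 0x20018007781))) 
(.lf (nat_lit 60287994) (dlOf (nat_lit 1) (nat_lit 0x400400020009845f02))))) (.nd (nat_lit 6) 
(.nd (nat_lit 7) (.lf (nat_lit 20442426) (dlOf (nat_lit 1) (nat_lit 0x4004000200089d6902))) 
(.lf (nat_lit 19919290) (dlOf (nat_lit 1) (nat_lit 0x600289d8581)))) (.nd (nat_lit 7) 
(.lf (nat_lit 53995898) (dlOf (nat_lit 1) (nat_lit 0x108002001000095f4e82))) (.nd (nat_lit 19) 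
(.lf (nat_lit 12050938) (dlOf (nat_lit 1) (nat_lit 0xc004000200186c0d82))) 
(.lf (nat_lit 24109562) (dlOf (nat_lit 1) (nat_lit 0x60018b80d81))))))))) (.nd (nat_lit 29) 
(.nd (nat_lit 28) (.nd (nat_lit 7) (.nd (nat_lit 6) (.nd (nat_lit 8) 
(.lf (nat_lit 5436071994) (dlOf (nat_lit 1) (nat_lit 0x200180b0481))) 
(.lf (nat_lit 1275323706) (dlOf (nat_lit 1) (nat_lit 0x1200280e3281)))) 
(.lf (nat_lit 1275323514) (dlOf (nat_lit 1) (nat_lit 0x200280e2a81)))) (.nd (nat_lit 8) 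
(.lf (nat_lit 6509817018) (dlOf (nat_lit 1) (nat_lit 0x20028146301))) (.nd (nat_lit 27) 
(.lf (nat_lit 4362861498) (dlOf (nat_lit 7) (nat_lit 0x1a0530011023800600b4004260c000c0a60020502001c053000d023800080cc002405a0020308001a053000e023800080cc003c05a0020208001e05200080810002029000000080048008002c002001c000811be03))) 
(.lf (nat_lit 202111930) (dlOf (nat_lit 1) (nat_lit 0x200180fbe01)))))) (.nd (nat_lit 6) 
(.nd (nat_lit 27) (.nd (nat_lit 11) (.nd (nat_lit 30) 
(.lf (nat_lit 2483281978) (dlOf (nat_lit 1) (nat_lit 0x2a00080a0b81))) 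
(.lf (nat_lit 1409540154) (dlOf (nat_lit 3) (nat_lit 0x1c102a01678000000a40800040d20004b0200060028020681)))) 
(.lf (nat_lit 1410070586) (dlOf (nat_lit 1) (nat_lit 0xc002000600080fa602)))) (.nd (nat_lit 30) 
(.lf (nat_lit 470016058) (dlOf (nat_lit 2) (nat_lit 0x22c24400c210900025828020680))) 
(.lf (nat_lit 1543757882) (dlOf (nat_lit 23) (nat_lit 0x20380940d3c0440cf201f0003583026200f8001a8081a2807c000d204017c04a04b401f0003402003200f80019c0811a00a0015404a05ae01f01cb00000009c20088807c0004c040c6c05002a6025000b01101e0007c01f0000000250a023402502f600f812d80000003c0c00a804a02e801f0000e0201eb0140107009407a004403e601f00ca0000000482801a80a000c003e0000f04057a02802f6012815600880b1403e011001200b900000002c30001000000012040a6404a009802204a400f800020181b8807c0000e04012004a067c01f0000302002b0128130007c000080800ec0500000302040e01f000010100650128170007c0000208001c04a010c01f002b000000000180830008002800200020008160683))))) 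
(.nd (nat_lit 7) (.lf (nat_lit 5704509050) (dlOf (nat_lit 1) (nat_lit 0x18002003c00080d3982))) 
(.lf (nat_lit 1410066682) (dlOf (nat_lit 1) (nat_lit 0x4004000200080f4b82)))))) (.nd (nat_lit 31) 
(.nd (nat_lit 8) (.nd (nat_lit 30) (.nd (nat_lit 6) 
(.lf (nat_lit 5301854266) (dlOf (nat_lit 1) (nat_lit 0x200180b0481))) 
(.lf (nat_lit 738451706) (dlOf (nat_lit 1) (nat_lit 0xc00200020008090a82)))) (.nd (nat_lit 10) 
(.lf (nat_lit 6377168954) (dlOf (nat_lit 1) (nat_lit 0x28004000600180b0482))) 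
(.lf (nat_lit 6377956410) (dlOf (nat_lit 1) (nat_lit 0x4004000200080e2882))))) (.nd (nat_lit 6) 
(.nd (nat_lit 9) (.lf (nat_lit 604497210) (dlOf (nat_lit 1) (nat_lit 0x2c004001000082d3282))) 
(.lf (nat_lit 4899203898) (dlOf (nat_lit 1) (nat_lit 0x4002000200080d5c02)))) 
(.lf (nat_lit 1677976058) (dlOf (nat_lit 7) (nat_lit 0xc801c000680200c600e000338100640070001980803200380008404018c01c000410200c600e0001f818127e00))))) 
(.nd (nat_lit 7) (.nd (nat_lit 8) (.nd (nat_lit 10) 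
(.lf (nat_lit 2754338874) (dlOf (nat_lit 2) (nat_lit 0x3083fa0000002000200080d0b81))) 
(.lf (nat_lit 2885936186) (dlOf (nat_lit 1) (nat_lit 0x18004000a0008142882)))) 
(.lf (nat_lit 2751719226) (dlOf (nat_lit 1) (nat_lit 0x120028003e01)))) (.nd (nat_lit 6) 
(.nd (nat_lit 8) (.lf (nat_lit 3020153018) (dlOf (nat_lit 1) (nat_lit 0x80018130381))) 
(.lf (nat_lit 2754870202) (dlOf (nat_lit 1) (nat_lit 0x10002000400080fbe02)))) (.nd (nat_lit 8) 
(.lf (nat_lit 2752766202) (dlOf (nat_lit 1) (nat_lit 0x20008047781))) 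
(.lf (nat_lit 3959677946) (dlOf (nat_lit 1) (nat_lit 0x1000200020008112882))))))))))))

end

end Pool.Agent.Lib.MP_5854e1_co.Cz
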