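import Pool.Agent.Lib.MP_5854e1_co.DecRow

/-!
# Sparse corrections
-/

set_option autoImplicit false
set_option maxRecDepth 100000

namespace Pool.Agent.Lib.MP_5854e1_co.Cz

noncomputable section

noncomputable def tz65 : DT := (.nd (nat_lit 17) (.nd (nat_lit 16) (.nd (nat_lit 3) 
(.nd (nat_lit 18) (.nd (nat_lit 26) (.nd (nat_lit 19) (.nd (nat_lit 28) (.nd (nat_lit 9) 
(.nd (nat_lit 6) (.nd (nat_lit 8) 
(.lf (nat_lit 47202464) (dlOf (nat_lit 1) (nat_lit 0x2600193b1301))) 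
(.lf (nat_lit 8406432) (dlOf (nat_lit 1) (nat_lit 0x400200020008513602)))) 
(.lf (nat_lit 134241504) (dlOf (nat_lit 1) (nat_lit 0x36001800c501)))) (.nd (nat_lit 7) 
(.nd (nat_lit 10) (.lf (nat_lit 2281718304) (dlOf (nat_lit 1) (nat_lit 0x20028001481))) 
(.lf (nat_lit 3355465248) (dlOf (nat_lit 2) (nat_lit 0x73406400a780200020008009c01)))) 
(.lf (nat_lit 8406944) (dlOf (nat_lit 1) (nat_lit 0x5c0028514281))))) (.nd (nat_lit 8) 
(.nd (nat_lit 6) (.nd (nat_lit 7) 
(.lf (nat_lit 4563420704) (dlOf (nat_lit 1) (nat_lit 0x400400020018003702))) 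
(.lf (nat_lit 5772428448) (dlOf (nat_lit 1) (nat_lit 0x20018092b81)))) 
(.lf (nat_lit 1346388192) (dlOf (nat_lit 1) (nat_lit 0x800200080008f60a82)))) (.nd (nat_lit 10) 
(.nd (nat_lit 12) (.lf (nat_lit 3489679776) (dlOf (nat_lit 1) (nat_lit 0x20018004e81))) 
(.lf (nat_lit 1476417952) (dlOf (nat_lit 1) (nat_lit 0x40020002000800af82)))) 
(.lf (nat_lit 1342201248) (dlOf (nat_lit 1) (nat_lit 0x16a001800cb01)))))) (.nd (nat_lit 6) 
(.nd (nat_lit 22) (.nd (nat_lit 28) (.nd (nat_lit 29) 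
(.lf (nat_lit 3221766176) (dlOf (nat_lit 1) (nat_lit 0x58002001c0008180902))) 
(.lf (nat_lit 1611153440) (dlOf (nat_lit 6) (nat_lit 0x7e0150000d80803300a80002e0400c0054000140200ba02a000098100450150000480802780080110002002a00080f0b03)))) 
(.lf (nat_lit 805847072) (dlOf (nat_lit 1) (nat_lit 0x18002001200081c0a02)))) (.nd (nat_lit 21) 
(.lf (nat_lit 21512224) (dlOf (nat_lit 2) (nat_lit 0x3674c00040000003b0400420018a40101))) 
(.lf (nat_lit 48775200) (dlOf (nat_lit 1) (nat_lit 0x36c00200da0009420182))))) (.nd (nat_lit 10) 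
(.nd (nat_lit 9) (.nd (nat_lit 20) 
(.lf (nat_lit 3221766240) (dlOf (nat_lit 7) (nat_lit 0x401180002e04005008a002204200110198000501800f8118005c0860034040000e01c000380580002614004008c0001202000604600008810001023000010080580008009800200020008181303))) 
(.lf (nat_lit 3686496) (dlOf (nat_lit 1) (nat_lit 0x8c00400060008211302)))) 
(.lf (nat_lit 5771905632) (dlOf (nat_lit 1) (nat_lit 0x20018005381)))) (.nd (nat_lit 7) 
(.nd (nat_lit 9) (.lf (nat_lit 44581984) (dlOf (nat_lit 2) (nat_lit 0x44e500015019322900))) 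
(.lf (nat_lit 61359712) (dlOf (nat_lit 1) (nat_lit 0x580080078002000a0009923903)))) 
(.lf (nat_lit 61359328) (dlOf (nat_lit 1) (nat_lit 0x180080008002000a0009922e03))))))) 
(.nd (nat_lit 29) (.nd (nat_lit 7) (.nd (nat_lit 8) (.nd (nat_lit 19) (.nd (nat_lit 9) 
(.lf (nat_lit 473972768) (dlOf (nat_lit 1) (nat_lit 0x20018ff0681))) 
(.lf (nat_lit 2617267744) (dlOf (nat_lit 17) (nat_lit 0xfc016805300a400d4048134201a028700c0174805806600102810005110e00202e6000c31e800000c0e160236005011600200301c1001a00180ca000a00bf704055e006005d2010335003002e780807c00180172804087400c00b92020820006005c8810040003002e400801000180171e04004000a00b480200640060059f0101a601680c500181be400a0038004010f000002c942800280a401616040ef005e003c02e00520018029e0181f680bc09c405c003c012001c008802d800c014cc14006400400e00008009c02)))) 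
(.nd (nat_lit 6) 
(.lf (nat_lit 4362616864) (dlOf (nat_lit 1) (nat_lit 0x800800ec002001000080b0a03))) 
(.lf (nat_lit 471351392) (dlOf (nat_lit 1) (nat_lit 0x4600082e0481))))) (.nd (nat_lit 10) 
(.lf (nat_lit 3691010336) (dlOf (nat_lit 2) (nat_lit 0x300d8000a00803e000801140020148000800ab03))) 
(.nd (nat_lit 32) 
(.lf (nat_lit 1140868384) (dlOf (nat_lit 3) (nat_lit 0xb0128000440800300940001204001c002000c0008003102))) 
(.lf (nat_lit 5435835680) (dlOf (nat_lit 1) (nat_lit 0x2f800800c0002009a0008003103)))))) 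
(.nd (nat_lit 9) (.nd (nat_lit 8) 
(.lf (nat_lit 2348828896) (dlOf (nat_lit 2) (nat_lit 0x500a8000c050001a018000300800068038001c018000a00300030000000cc400280008014000200180008004a83))) 
(.nd (nat_lit 27) 
(.lf (nat_lit 4362099168) (dlOf (nat_lit 1) (nat_lit 0x18000800200020052000800b283))) 
(.lf (nat_lit 201349600) (dlOf (nat_lit 1) (nat_lit 0x40040006000800b282))))) (.nd (nat_lit 6) 
(.nd (nat_lit 8) 
(.lf (nat_lit 2617267872) (dlOf (nat_lit 2) (nat_lit 0x1801680220014000000800e000400380018009f82))) 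
(.lf (nat_lit 1409309600) (dlOf (nat_lit 1) (nat_lit 0x800803ac00200f6000800bc83)))) 
(.lf (nat_lit 469785568) (dlOf (nat_lit 2) (nat_lit 0x404e8012c40800680080004002000c000800bf03)))))) 
(.nd (nat_lit 6) (.nd (nat_lit 19) (.nd (nat_lit 7) (.nd (nat_lit 9) 
(.lf (nat_lit 604001312) (dlOf (nat_lit 1) (nat_lit 0x10004000c0018009202))) 
(.lf (nat_lit 2751486496) (dlOf (nat_lit 2) (nat_lit 0xb8770018260400a4004000c000800b282)))) 
(.nd (nat_lit 9) (.lf (nat_lit 1946180768) (dlOf (nat_lit 1) (nat_lit 0x4001800c201))) 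
(.lf (nat_lit 2754629280) (dlOf (nat_lit 3) (nat_lit 0x700e8000b80800500740004e040004004001e00180f7202))))) 
(.nd (nat_lit 31) (.nd (nat_lit 27) 
(.lf (nat_lit 1678262304) (dlOf (nat_lit 1) (nat_lit 0x18002001200081c0a02))) 
(.lf (nat_lit 738738208) (dlOf (nat_lit 6) (nat_lit 0x7e0150000d80803300a80002e0400c0054000140200ba02a000098100450150000480802780080110002002a00080f0b03)))) 
(.nd (nat_lit 28) (.lf (nat_lit 3959963680) (dlOf (nat_lit 1) (nat_lit 0x58002001c0008180902))) 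
(.lf (nat_lit 4228399136) (dlOf (nat_lit 1) (nat_lit 0x800800ec002001000080b0a03)))))) 
(.nd (nat_lit 7) (.nd (nat_lit 8) (.nd (nat_lit 28) 
(.lf (nat_lit 3959963744) (dlOf (nat_lit 6) (nat_lit 0x100460009021800880bc000480c00400ac002204e000e01a80008418000811c004405e0000e04007202f0000181000401700000008014000800a4002005e0008181283))) 
(.lf (nat_lit 3154657376) (dlOf (nat_lit 1) (nat_lit 0x10008000800200040008310483)))) 
(.lf (nat_lit 4227882336) (dlOf (nat_lit 1) (nat_lit 0x800800040020002000800c903)))) 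
(.nd (nat_lit 8) 
(.lf (nat_lit 4227882208) (dlOf (nat_lit 1) (nat_lit 0x800800040020002000800c503))) 
(.nd (nat_lit 9) 
(.lf (nat_lit 6106924512) (dlOf (nat_lit 1) (nat_lit 0x18008000400200020008003603))) 
(.lf (nat_lit 4898964448) (dlOf (nat_lit 1) (nat_lit 0x400200020008002882))))))))) 
(.nd (nat_lit 28) (.nd (nat_lit 19) (.nd (nat_lit 31) (.nd (nat_lit 21) (.nd (nat_lit 8) 
(.nd (nat_lit 7) (.lf (nat_lit 29638688) (dlOf (nat_lit 1) (nat_lit 0x400200020008e30002))) 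
(.lf (nat_lit 134496416) (dlOf (nat_lit 1) (nat_lit 0x400400020008044302)))) (.nd (nat_lit 27) 
(.lf (nat_lit 5905858848) (dlOf (nat_lit 1) (nat_lit 0x8008005c00200180008154203))) 
(.lf (nat_lit 134496544) (dlOf (nat_lit 1) (nat_lit 0x120028047801))))) (.nd (nat_lit 6) 
(.nd (nat_lit 7) (.lf (nat_lit 62144544) (dlOf (nat_lit 1) (nat_lit 0x20009960101))) 
(.lf (nat_lit 2376096) (dlOf (nat_lit 1) (nat_lit 0x20018150781)))) (.nd (nat_lit 22) 
(.lf (nat_lit 62144608) (dlOf (nat_lit 1) (nat_lit 0x1a0029960781))) 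
(.lf (nat_lit 24395872) (dlOf (nat_lit 2) (nat_lit 0x36d836004897600008028b91300)))))) 
(.nd (nat_lit 27) (.nd (nat_lit 6) (.nd (nat_lit 7) 
(.lf (nat_lit 3221504544) (dlOf (nat_lit 1) (nat_lit 0x1980080004002004a0008127f03))) 
(.lf (nat_lit 6509838752) (dlOf (nat_lit 1) (nat_lit 0x160028156b81)))) 
(.lf (nat_lit 6509838816) (dlOf (nat_lit 1) (nat_lit 0x100028157281)))) (.nd (nat_lit 6) 
(.nd (nat_lit 30) (.lf (nat_lit 2349088800) (dlOf (nat_lit 1) (nat_lit 0x400180a0901))) 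
(.lf (nat_lit 3422830624) (dlOf (nat_lit 1) (nat_lit 0xa00280f0581)))) 
(.lf (nat_lit 2349088864) (dlOf (nat_lit 2) (nat_lit 0x60280000b8180a1280)))))) (.nd (nat_lit 6) 
(.nd (nat_lit 21) (.nd (nat_lit 7) (.nd (nat_lit 8) 
(.lf (nat_lit 9191456) (dlOf (nat_lit 4) (nat_lit 0x4bbe400252f6001297680094b98004a536000460a0051ce800022810093e740000f808007000800e800200060008530183))) 
(.lf (nat_lit 1851680) (dlOf (nat_lit 1) (nat_lit 0x400400020008150502)))) 
(.lf (nat_lit 2753314976) (dlOf (nat_lit 1) (nat_lit 0x8008000400200020008090203)))) 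
(.nd (nat_lit 7) (.nd (nat_lit 11) (.nd (nat_lit 20) 
(.lf (nat_lit 2754363424) (dlOf (nat_lit 2) (nat_lit 0x1207b001108180e0480))) 
(.lf (nat_lit 16531488) (dlOf (nat_lit 1) (nat_lit 0x400288b0681)))) 
(.lf (nat_lit 8144928) (dlOf (nat_lit 1) (nat_lit 0x2740018514701)))) 
(.lf (nat_lit 8147360) (dlOf (nat_lit 1) (nat_lit 0x1e0028518381))))) (.nd (nat_lit 20) 
(.nd (nat_lit 23) 
(.lf (nat_lit 17580128) (dlOf (nat_lit 5) (nat_lit 0x200000078408001ed50005c00000174040007bb900056810017ddc80016d1000000080058004007200088e0482))) 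
(.lf (nat_lit 59523168) (dlOf (nat_lit 1) (nat_lit 0x148004005a0009800902)))) (.nd (nat_lit 7) 
(.nd (nat_lit 8) (.lf (nat_lit 45891680) (dlOf (nat_lit 1) (nat_lit 0x8008000400200020009360903))) 
(.lf (nat_lit 50087264) (dlOf (nat_lit 6) (nat_lit 0x3b1ce8000660401c0e74000310200e6744004a3a18000b0100281d1000020040158e880066743004e39d000000180108008008c002000400094c3403)))) 
(.lf (nat_lit 8147680) (dlOf (nat_lit 1) (nat_lit 0x400200020008518c82))))))) (.nd (nat_lit 30) 
(.nd (nat_lit 7) (.nd (nat_lit 27) (.nd (nat_lit 6) (.nd (nat_lit 26) 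
(.lf (nat_lit 2953068576) (dlOf (nat_lit 1) (nat_lit 0x100002003600080f0602))) 
(.lf (nat_lit 2483306528) (dlOf (nat_lit 1) (nat_lit 0x400180a0901)))) 
(.lf (nat_lit 2483306592) (dlOf (nat_lit 1) (nat_lit 0x200080004002000c00080a1303)))) 
(.nd (nat_lit 19) (.lf (nat_lit 1006911520) (dlOf (nat_lit 1) (nat_lit 0x4004000200080e0a02))) 
(.lf (nat_lit 1007435808) (dlOf (nat_lit 1) (nat_lit 0x400400020018360682))))) (.nd (nat_lit 27) 
(.nd (nat_lit 26) 
(.lf (nat_lit 4563681440) (dlOf (nat_lit 10) (nat_lit 0x30033000188100020090000b00813700cc0005604097c0660002a02044a0330001481000a01a010480cc00042080698066000200201220330000f0100540198000000805f0008047400203b800080c1303))) 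
(.lf (nat_lit 5167661216) (dlOf (nat_lit 1) (nat_lit 0xc00080f1301)))) (.nd (nat_lit 6) 
(.lf (nat_lit 4697899168) (dlOf (nat_lit 10) (nat_lit 0x300330000d8100020090000580813700cc0002a04097c0660001402044a0330000981000a01a010480cc000160806980660000a020122033000040100540198000000805f0008047400203b800080c1303))) 
(.lf (nat_lit 4697899232) (dlOf (nat_lit 5) (nat_lit 0x1002a00080120000702000600a800300480001a08001402a000c0120000602000200a80020048000160800a4004009200080c1a82)))))) 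
(.nd (nat_lit 19) (.nd (nat_lit 20) (.nd (nat_lit 26) (.nd (nat_lit 29) 
(.lf (nat_lit 5637423136) (dlOf (nat_lit 1) (nat_lit 0x4004000200080e0782))) 
(.lf (nat_lit 1879326752) (dlOf (nat_lit 1) (nat_lit 0x4004000200080e0a02)))) 
(.lf (nat_lit 3691266080) (dlOf (nat_lit 1) (nat_lit 0x1c0008110601)))) (.nd (nat_lit 6) 
(.nd (nat_lit 7) (.lf (nat_lit 3490988320) (dlOf (nat_lit 2) (nat_lit 0xa08c00515818047800))) 
(.lf (nat_lit 3490988192) (dlOf (nat_lit 1) (nat_lit 0x8008000400200020008044303)))) 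
(.lf (nat_lit 3493086176) (dlOf (nat_lit 1) (nat_lit 0x2600280f2881))))) (.nd (nat_lit 20) 
(.nd (nat_lit 21) (.lf (nat_lit 1879851040) (dlOf (nat_lit 1) (nat_lit 0x40018390a81))) 
(.lf (nat_lit 3492560928) (dlOf (nat_lit 2) (nat_lit 0x1207d0010e8180e0480)))) (.nd (nat_lit 7) 
(.nd (nat_lit 26) 
(.lf (nat_lit 5773213728) (dlOf (nat_lit 13) (nat_lit 0x100978001440806704bc0009c0410d425e0004702001613c072a0978001181039784bc0008a0400b02b40036153001809b800c02e8006017200640a400190518000f83826184bc0007004002425e0003702013e12f0001a81002e0978000cc0801182880003e0400d41440001e02001800080b0181))) 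
(.lf (nat_lit 6377193504) (dlOf (nat_lit 13) (nat_lit 0x100900001440806704800009c0410d42400004702001612f072a0900001181039784800008a0400b029600361440018094000c02dc006016c006409f001904f0000f8382618480000700400242400003702013e1200001a81002e0900000cc0801182840003e0400d41420001e02001800080b0181)))) 
(.lf (nat_lit 3491512480) (dlOf (nat_lit 1) (nat_lit 0x8008000400200020008090203))))))))) 
(.nd (nat_lit 26) (.nd (nat_lit 18) (.nd (nat_lit 6) (.nd (nat_lit 19) (.nd (nat_lit 7) 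
(.nd (nat_lit 8) (.nd (nat_lit 9) 
(.lf (nat_lit 22036520) (dlOf (nat_lit 1) (nat_lit 0x20018a90581))) 
(.lf (nat_lit 41962024) (dlOf (nat_lit 1) (nat_lit 0x8008000400200020009245183)))) 
(.nd (nat_lit 29) (.nd (nat_lit 10) 
(.lf (nat_lit 4210984) (dlOf (nat_lit 1) (nat_lit 0x4400200060008290702))) 
(.lf (nat_lit 3489680680) (dlOf (nat_lit 2) (nat_lit 0x140800000b0200320028006801)))) 
(.nd (nat_lit 9) (.lf (nat_lit 536893736) (dlOf (nat_lit 1) (nat_lit 0xa001800ab81))) 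
(.lf (nat_lit 1610631976) (dlOf (nat_lit 1) (nat_lit 0x20018005c01)))))) (.nd (nat_lit 8) 
(.nd (nat_lit 9) (.lf (nat_lit 2113704) (dlOf (nat_lit 1) (nat_lit 0x140008150281))) 
(.nd (nat_lit 10) (.lf (nat_lit 8409768) (dlOf (nat_lit 1) (nat_lit 0x8008000400200020008518c83))) 
(.lf (nat_lit 2415937192) (dlOf (nat_lit 1) (nat_lit 0x1a0028003a81))))) (.nd (nat_lit 9) 
(.lf (nat_lit 2147501480) (dlOf (nat_lit 1) (nat_lit 0x400400020018003602))) 
(.lf (nat_lit 8406952) (dlOf (nat_lit 1) (nat_lit 0x4a0028514301)))))) (.nd (nat_lit 29) 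
(.nd (nat_lit 21) (.nd (nat_lit 27) 
(.lf (nat_lit 3221766184) (dlOf (nat_lit 2) (nat_lit 0x110230055240802c000800b800200c60008180903))) 
(.lf (nat_lit 3624419368) (dlOf (nat_lit 3) (nat_lit 0xe0110036c068012e0000001503003701b0000240800a80080010002002600081a0583)))) 
(.nd (nat_lit 7) 
(.lf (nat_lit 3492298792) (dlOf (nat_lit 2) (nat_lit 0x388d000044040024004002a00080c0c02))) 
(.lf (nat_lit 20469928) (dlOf (nat_lit 1) (nat_lit 0x4004000200089da882))))) (.nd (nat_lit 30) 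
(.nd (nat_lit 27) (.lf (nat_lit 805847080) (dlOf (nat_lit 2) (nat_lit 0x18054006718181c0a00))) 
(.lf (nat_lit 2819113000) (dlOf (nat_lit 1) (nat_lit 0x168008055800200b800081a0683)))) 
(.nd (nat_lit 32) 
(.lf (nat_lit 1611153448) (dlOf (nat_lit 3) (nat_lit 0x60150000580800100a400000040038004001400080f0c82))) 
(.lf (nat_lit 5906120744) (dlOf (nat_lit 1) (nat_lit 0x2000181c0581))))))) (.nd (nat_lit 8) 
(.nd (nat_lit 7) (.nd (nat_lit 19) (.nd (nat_lit 21) 
(.lf (nat_lit 12599400) (dlOf (nat_lit 2) (nat_lit 0x123db000080186d1400))) 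
(.lf (nat_lit 52445288) (dlOf (nat_lit 1) (nat_lit 0x400200020009530982)))) (.nd (nat_lit 9) 
(.lf (nat_lit 1476935784) (dlOf (nat_lit 1) (nat_lit 0x400282f1e81))) 
(.lf (nat_lit 20466280) (dlOf (nat_lit 1) (nat_lit 0x6400400a800089d5382))))) (.nd (nat_lit 9) 
(.nd (nat_lit 11) 
(.lf (nat_lit 61359336) (dlOf (nat_lit 4) (nat_lit 0x8a96800494b20026a50000f5278008a8ec0029474001ea29001151400011840006a96800314b20022a50000d527800ba8ec0031474001ea2900115140001144000ba968005d4b2002aa500011527800f28ec00414740020a2900155140000e04000080080010002000e0009922e03))) 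
(.lf (nat_lit 671108328) (dlOf (nat_lit 1) (nat_lit 0x100080044002000c0008006503)))) 
(.lf (nat_lit 2415937256) (dlOf (nat_lit 1) (nat_lit 0x20028003b01))))) (.nd (nat_lit 28) 
(.nd (nat_lit 7) (.nd (nat_lit 11) 
(.lf (nat_lit 4831855976) (dlOf (nat_lit 1) (nat_lit 0x100018003481))) 
(.lf (nat_lit 134237544) (dlOf (nat_lit 1) (nat_lit 0x20028006a81)))) (.nd (nat_lit 9) 
(.lf (nat_lit 1744848360) (dlOf (nat_lit 2) (nat_lit 0x2405a0016c0200040018003601))) 
(.lf (nat_lit 8931304) (dlOf (nat_lit 1) (nat_lit 0x1c0008514601))))) (.nd (nat_lit 30) 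
(.nd (nat_lit 11) (.lf (nat_lit 5234509160) (dlOf (nat_lit 1) (nat_lit 0x500018003481))) 
(.lf (nat_lit 939548008) (dlOf (nat_lit 1) (nat_lit 0x40040002000800c902)))) (.nd (nat_lit 7) 
(.lf (nat_lit 6308250984) (dlOf (nat_lit 2) (nat_lit 0x400d8000c0080010008000800200020008003483))) 
(.lf (nat_lit 1342718440) (dlOf (nat_lit 1) (nat_lit 0xc004001800080c0c82)))))))) (.nd (nat_lit 28) 
(.nd (nat_lit 7) (.nd (nat_lit 22) (.nd (nat_lit 19) (.nd (nat_lit 6) (.nd (nat_lit 20) 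
(.lf (nat_lit 671367208) (dlOf (nat_lit 1) (nat_lit 0xd8008002400200b40008170a83))) 
(.lf (nat_lit 1327144) (dlOf (nat_lit 1) (nat_lit 0xba00080b0501)))) 
(.lf (nat_lit 2376040) (dlOf (nat_lit 10) (nat_lit 0x75878000640804e305c017d8000132a7e006f53680005020039305c019180000e8a7e006e53680004c2003eb05c020d80000fea7e007953680004420037b05c01b180000e8a7e006f5368000402003db05c01e180000f4a7e0000583006b60b803bb00001b14fc00cea6d0000384007453f00000808028a9f800002040044004002e0018150702)))) 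
(.nd (nat_lit 21) 
(.lf (nat_lit 27017256) (dlOf (nat_lit 2) (nat_lit 0x3300000017c080010008019800200160008ca0683))) 
(.lf (nat_lit 3948584) (dlOf (nat_lit 1) (nat_lit 0x20008260c01))))) (.nd (nat_lit 8) 
(.nd (nat_lit 23) 
(.lf (nat_lit 22298664) (dlOf (nat_lit 1) (nat_lit 0x18008001400200060008ac0483))) 
(.lf (nat_lit 30687272) (dlOf (nat_lit 1) (nat_lit 0x20018e40d81)))) 
(.lf (nat_lit 13910312) (dlOf (nat_lit 1) (nat_lit 0x8008000400200020008750703))))) 
(.nd (nat_lit 10) (.nd (nat_lit 6) 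
(.lf (nat_lit 1208238248) (dlOf (nat_lit 1) (nat_lit 0x80080004002000200080a2c03))) 
(.nd (nat_lit 8) (.lf (nat_lit 13910248) (dlOf (nat_lit 1) (nat_lit 0x40028750681))) 
(.lf (nat_lit 5905859048) (dlOf (nat_lit 1) (nat_lit 0x40018157d01))))) (.nd (nat_lit 6) 
(.lf (nat_lit 8148136) (dlOf (nat_lit 1) (nat_lit 0x2640018519501))) (.nd (nat_lit 8) 
(.lf (nat_lit 52708584) (dlOf (nat_lit 1) (nat_lit 0x580009572e01))) 
(.lf (nat_lit 8668648) (dlOf (nat_lit 1) (nat_lit 0x400200020008513602))))))) (.nd (nat_lit 7) 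
(.nd (nat_lit 29) (.nd (nat_lit 20) (.nd (nat_lit 21) 
(.lf (nat_lit 1342980136) (dlOf (nat_lit 1) (nat_lit 0x20008007c00200080008120c03))) 
(.lf (nat_lit 3492560936) (dlOf (nat_lit 2) (nat_lit 0x60c3d0046415f012c09c0001c81800080080008002000800080e0503)))) 
(.nd (nat_lit 6) 
(.lf (nat_lit 5773213736) (dlOf (nat_lit 3) (nat_lit 0x120b1000170100780990000000800c00080048002003000080b0383))) 
(.lf (nat_lit 1346125928) (dlOf (nat_lit 2) (nat_lit 0x5014d002106c800038100030008000400200260008e60983))))) 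
(.nd (nat_lit 8) (.nd (nat_lit 27) 
(.lf (nat_lit 805584936) (dlOf (nat_lit 3) (nat_lit 0x1c0000002102000400e0003000000074100020008001400200280008130583))) 
(.lf (nat_lit 939802664) (dlOf (nat_lit 9) (nat_lit 0xd01180016808001008c000b0040044046001e0130002b02000e0120001240800100900006a0400400000002f02001c0000001681000e00c000700000005408013800200360008180582)))) 
(.nd (nat_lit 19) (.lf (nat_lit 6308514600) (dlOf (nat_lit 1) (nat_lit 0x4002000200080d5c02))) 
(.lf (nat_lit 1880902440) (dlOf (nat_lit 1) (nat_lit 0x20028c95c01)))))) (.nd (nat_lit 6) 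
(.nd (nat_lit 30) (.nd (nat_lit 27) 
(.lf (nat_lit 4563681448) (dlOf (nat_lit 6) (nat_lit 0x5601a0000800802c00cc0003e040030068000160200480340000a8101620198000000800b00080030002001a00080c1483))) 
(.lf (nat_lit 4697899176) (dlOf (nat_lit 2) (nat_lit 0x1040660002302000c00280c1401)))) 
(.nd (nat_lit 8) (.lf (nat_lit 4026810536) (dlOf (nat_lit 1) (nat_lit 0xc004000c0008090282))) 
(.lf (nat_lit 3489946536) (dlOf (nat_lit 1) (nat_lit 0x9000800880020016000800bd03))))) 
(.nd (nat_lit 8) 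
(.lf (nat_lit 3490988264) (dlOf (nat_lit 1) (nat_lit 0x848008000400200c20008046b83))) 
(.lf (nat_lit 3489941992) (dlOf (nat_lit 1) (nat_lit 0x20018004e81)))))))) (.nd (nat_lit 29) 
(.nd (nat_lit 27) (.nd (nat_lit 10) (.nd (nat_lit 32) (.nd (nat_lit 6) (.nd (nat_lit 7) 
(.lf (nat_lit 3557310504) (dlOf (nat_lit 1) (nat_lit 0x78008003c002001a00081c0683))) 
(.lf (nat_lit 3288613032) (dlOf (nat_lit 1) (nat_lit 0xc004000c0008090282)))) 
(.lf (nat_lit 2483306600) (dlOf (nat_lit 1) (nat_lit 0x1c004001c00080a1402)))) (.nd (nat_lit 8) 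
(.nd (nat_lit 9) (.lf (nat_lit 6510100520) (dlOf (nat_lit 1) (nat_lit 0x2000181c0581))) 
(.lf (nat_lit 4362099240) (dlOf (nat_lit 12) (nat_lit 0x1b406600bff020008033005fc810014019802fc80803100cc017e204006006600bf002005e033005ee010035019802e5c0801c80cc0165c04011406600b1e0200100330058e810003019802c700801480080054002006a000800b283)))) 
(.lf (nat_lit 4362098984) (dlOf (nat_lit 1) (nat_lit 0x2001800ab81))))) (.nd (nat_lit 6) 
(.nd (nat_lit 7) 
(.lf (nat_lit 5435835944) (dlOf (nat_lit 3) (nat_lit 0x3203e0000781002c01f0000000800d8008001000200480008003703))) 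
(.lf (nat_lit 3288353960) (dlOf (nat_lit 1) (nat_lit 0x8008000400200020008006283)))) 
(.nd (nat_lit 7) (.lf (nat_lit 5704271208) (dlOf (nat_lit 2) (nat_lit 0x201900017818003480))) 
(.nd (nat_lit 8) 
(.lf (nat_lit 5435835624) (dlOf (nat_lit 3) (nat_lit 0x401c80010c08000804c0008004001400400020008002e02))) 
(.lf (nat_lit 3556787688) (dlOf (nat_lit 4) (nat_lit 0xa0060010581000500300081c0800f00180090000000b40400540018003601))))))) 
(.nd (nat_lit 9) (.nd (nat_lit 7) (.nd (nat_lit 18) (.nd (nat_lit 20) 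
(.lf (nat_lit 472399912) (dlOf (nat_lit 1) (nat_lit 0x20018980001))) 
(.lf (nat_lit 471351336) (dlOf (nat_lit 1) (nat_lit 0x10002000200082e0002)))) 
(.lf (nat_lit 1543782440) (dlOf (nat_lit 1) (nat_lit 0xd8008002400200b40008170a83)))) 
(.nd (nat_lit 6) (.nd (nat_lit 8) 
(.lf (nat_lit 3422573736) (dlOf (nat_lit 1) (nat_lit 0x8008000400200020008009503))) 
(.lf (nat_lit 4496574888) (dlOf (nat_lit 1) (nat_lit 0x800180e4e81)))) 
(.lf (nat_lit 470303208) (dlOf (nat_lit 1) (nat_lit 0xc004001800080c0c82))))) (.nd (nat_lit 28) 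
(.nd (nat_lit 6) (.nd (nat_lit 7) 
(.lf (nat_lit 201349672) (dlOf (nat_lit 1) (nat_lit 0x78008008c002000e000800b283))) 
(.lf (nat_lit 1275087784) (dlOf (nat_lit 1) (nat_lit 0x200008005d01)))) 
(.lf (nat_lit 5570316904) (dlOf (nat_lit 1) (nat_lit 0x80080004002000200080d5383)))) 
(.nd (nat_lit 6) (.nd (nat_lit 12) 
(.lf (nat_lit 472402472) (dlOf (nat_lit 1) (nat_lit 0x100018985181))) 
(.lf (nat_lit 469785128) (dlOf (nat_lit 1) (nat_lit 0x1400020046000800b282)))) 
(.lf (nat_lit 1543522280) (dlOf (nat_lit 2) (nat_lit 0x1a00f00019818004600))))))) (.nd (nat_lit 19) 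
(.nd (nat_lit 8) (.nd (nat_lit 18) (.nd (nat_lit 6) (.nd (nat_lit 7) 
(.lf (nat_lit 2751485992) (dlOf (nat_lit 1) (nat_lit 0x48001800a601))) 
(.lf (nat_lit 2754628776) (dlOf (nat_lit 2) (nat_lit 0x201d0000a0180f6280)))) 
(.lf (nat_lit 3019917928) (dlOf (nat_lit 1) (nat_lit 0xc00080088002001e0008005383)))) 
(.nd (nat_lit 6) (.nd (nat_lit 27) 
(.lf (nat_lit 1678000168) (dlOf (nat_lit 3) (nat_lit 0x1c0000002102000400e0003000000074100020008001400200280008130583))) 
(.lf (nat_lit 1812217896) (dlOf (nat_lit 9) (nat_lit 0xd01180016808001008c000b0040044046001e0130002b02000e0120001240800100900006a0400400000002f02001c0000001681000e00c000700000005408013800200360008180582)))) 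
(.lf (nat_lit 2885961960) (dlOf (nat_lit 1) (nat_lit 0x240028144b01))))) (.nd (nat_lit 6) 
(.nd (nat_lit 7) 
(.lf (nat_lit 3019918120) (dlOf (nat_lit 2) (nat_lit 0x2700000044c04005c00200100008005c02))) 
(.nd (nat_lit 12) (.lf (nat_lit 2080394152) (dlOf (nat_lit 1) (nat_lit 0x60008005d01))) 
(.lf (nat_lit 4227881896) (dlOf (nat_lit 1) (nat_lit 0xd0004002a000800bd02))))) (.nd (nat_lit 7) 
(.nd (nat_lit 11) (.lf (nat_lit 4898964840) (dlOf (nat_lit 1) (nat_lit 0x400200020008003482))) 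
(.lf (nat_lit 4227878248) (dlOf (nat_lit 1) (nat_lit 0x60008006a81)))) 
(.lf (nat_lit 2751748584) (dlOf (nat_lit 1) (nat_lit 0x1400020014000800b282)))))) (.nd (nat_lit 30) 
(.nd (nat_lit 21) (.nd (nat_lit 31) 
(.lf (nat_lit 738738216) (dlOf (nat_lit 3) (nat_lit 0x60150000580800100a400000040038004001400080f0c82))) 
(.lf (nat_lit 2886221864) (dlOf (nat_lit 3) (nat_lit 0xe010c036c068012e0000001503003701b0000240800a80080010002002600081a0583)))) 
(.nd (nat_lit 6) (.nd (nat_lit 18) 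
(.lf (nat_lit 2754101288) (dlOf (nat_lit 1) (nat_lit 0x80080014002005600080c0d03))) 
(.lf (nat_lit 2754363432) (dlOf (nat_lit 2) (nat_lit 0x60c3f40464155012c09c0001c81800080080008002000800080e0503)))) 
(.lf (nat_lit 1009272040) (dlOf (nat_lit 5) (nat_lit 0x380ac001e053000d028000781340008c1000380ac001e053000c028000781340078000000450a0036061000b02f80010c10008053800380ac0024053001002800088134000c002000380c000400190e2e01))))) 
(.nd (nat_lit 28) (.nd (nat_lit 6) (.nd (nat_lit 27) 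
(.lf (nat_lit 1678262312) (dlOf (nat_lit 2) (nat_lit 0x180540039d0181c0a00))) 
(.lf (nat_lit 3959963688) (dlOf (nat_lit 2) (nat_lit 0x11023005aec0802c000800b800200c60008180903)))) 
(.lf (nat_lit 3959963752) (dlOf (nat_lit 5) (nat_lit 0x8114001408400200330000a03001e0230005010c007808000120380000984001d023000044080008118000080401d0004002e0018181402)))) 
(.nd (nat_lit 7) 
(.lf (nat_lit 6377193512) (dlOf (nat_lit 3) (nat_lit 0x120b4000158100780918000000800c00080048002003000080b0383))) 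
(.nd (nat_lit 21) 
(.lf (nat_lit 6375883176) (dlOf (nat_lit 1) (nat_lit 0x20008000800200080008001003))) 
(.lf (nat_lit 4096278952) (dlOf (nat_lit 1) (nat_lit 0x80080008002000200080e1003))))))))))) 
(.nd (nat_lit 28) (.nd (nat_lit 6) (.nd (nat_lit 18) (.nd (nat_lit 3) (.nd (nat_lit 10) 
(.nd (nat_lit 19) (.nd (nat_lit 7) (.nd (nat_lit 21) (.nd (nat_lit 24) 
(.lf (nat_lit 1744912416) (dlOf (nat_lit 1) (nat_lit 0x1000801c000200680008090003))) 
(.lf (nat_lit 16859168) (dlOf (nat_lit 1) (nat_lit 0x80080004002000200088e0003)))) 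
(.lf (nat_lit 52510752) (dlOf (nat_lit 1) (nat_lit 0xc0019540681)))) (.nd (nat_lit 8) 
(.lf (nat_lit 20005536) (dlOf (nat_lit 1) (nat_lit 0x4002000200089d1c02))) 
(.lf (nat_lit 3825287584) (dlOf (nat_lit 10) (nat_lit 0x15300e80b080640378608053003a02be0190002000006f081809f808005cc03a02bc019015a00c000400000377614004003a01bba020280020017300e80af80640568030001000000ddc85001700e806d34080008074004c03201b420400d201d00d9f01000100e806cf40800d000802f000200e400080b0783))))) 
(.nd (nat_lit 22) (.nd (nat_lit 26) 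
(.lf (nat_lit 134823968) (dlOf (nat_lit 1) (nat_lit 0x200280c0b01))) 
(.lf (nat_lit 201932832) (dlOf (nat_lit 1) (nat_lit 0x200280c0b01)))) 
(.lf (nat_lit 4800544) (dlOf (nat_lit 1) (nat_lit 0x3000282b0181))))) (.nd (nat_lit 29) 
(.nd (nat_lit 7) (.nd (nat_lit 19) 
(.lf (nat_lit 6643865120) (dlOf (nat_lit 2) (nat_lit 0x5800000bf70200060018009c01))) 
(.lf (nat_lit 20534816) (dlOf (nat_lit 2) (nat_lit 0x1255b400a6602000a00089d9c01)))) 
(.lf (nat_lit 8471968) (dlOf (nat_lit 1) (nat_lit 0x400200020008513602)))) (.nd (nat_lit 7) 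
(.nd (nat_lit 27) (.lf (nat_lit 2684442144) (dlOf (nat_lit 1) (nat_lit 0x40018009c01))) 
(.lf (nat_lit 6039885344) (dlOf (nat_lit 2) (nat_lit 0x40023009601080018078017ee0c001400200040008009c02)))) 
(.lf (nat_lit 4899030432) (dlOf (nat_lit 1) (nat_lit 0x4002007e0008053602)))))) (.nd (nat_lit 26) 
(.nd (nat_lit 19) (.nd (nat_lit 10) (.nd (nat_lit 20) 
(.lf (nat_lit 21053480) (dlOf (nat_lit 8) (nat_lit 0x6b7d4000dbd8001ad4b000766980010420002b7d40011bd8001cd4b00016698001002000ab7d40019bd80022d4b00046698000f82000437d40011bd80020d4b00066698000f42000537d00019bd8001cd4b0001b8300036fa800337d00019bd8001cd4b0001b0400096fa800e352c000000800f000400020008a00982))) 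
(.lf (nat_lit 22102056) (dlOf (nat_lit 3) (nat_lit 0x2d1f0001000000084100043aa80015a3e0001d0400180008a90581)))) 
(.lf (nat_lit 2818655272) (dlOf (nat_lit 1) (nat_lit 0x1800280d2881)))) (.nd (nat_lit 20) 
(.nd (nat_lit 21) (.nd (nat_lit 27) 
(.lf (nat_lit 3221831720) (dlOf (nat_lit 1) (nat_lit 0x8002000600081a0c02))) 
(.lf (nat_lit 134823976) (dlOf (nat_lit 1) (nat_lit 0x11c004037c00080c0c02)))) 
(.lf (nat_lit 11092008) (dlOf (nat_lit 1) (nat_lit 0x80008660681)))) 
(.lf (nat_lit 1654824) (dlOf (nat_lit 1) (nat_lit 0x1c00400020008110582))))) (.nd (nat_lit 29) 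
(.nd (nat_lit 7) (.nd (nat_lit 8) (.nd (nat_lit 9) 
(.lf (nat_lit 4362160168) (dlOf (nat_lit 1) (nat_lit 0x100018004701))) 
(.lf (nat_lit 4496377384) (dlOf (nat_lit 2) (nat_lit 0xe00e000e00680000008002800400360008053702)))) 
(.lf (nat_lit 4496377128) (dlOf (nat_lit 1) (nat_lit 0x1800200020008053182)))) (.nd (nat_lit 8) 
(.lf (nat_lit 4362160296) (dlOf (nat_lit 1) (nat_lit 0x20018004881))) 
(.lf (nat_lit 4362160040) (dlOf (nat_lit 1) (nat_lit 0x160018004301))))) (.nd (nat_lit 19) 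
(.nd (nat_lit 7) 
(.lf (nat_lit 3825287208) (dlOf (nat_lit 2) (nat_lit 0x18080011b6040014004000600080b0002))) 
(.lf (nat_lit 2753642664) (dlOf (nat_lit 1) (nat_lit 0xc0018090281)))) (.nd (nat_lit 9) 
(.lf (nat_lit 2754166824) (dlOf (nat_lit 1) (nat_lit 0x80080004002000600080c0d03))) 
(.lf (nat_lit 2753118760) (dlOf (nat_lit 1) (nat_lit 0x1c0028090e01)))))))) (.nd (nat_lit 19) 
(.nd (nat_lit 20) (.nd (nat_lit 26) (.nd (nat_lit 3) (.nd (nat_lit 10) 
(.lf (nat_lit 21315744) (dlOf (nat_lit 1) (nat_lit 0x20018a31301))) 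
(.lf (nat_lit 347296) (dlOf (nat_lit 1) (nat_lit 0xc00201240008006282)))) (.nd (nat_lit 29) 
(.lf (nat_lit 3221569576) (dlOf (nat_lit 2) (nat_lit 0x380000001204001000200440008140582))) 
(.lf (nat_lit 537215016) (dlOf (nat_lit 11) (nat_lit 0xa80ec00c400000029820066000000144080548000000a00400a80ec0052000000278200080000000f40800680000006a040204000000330201ae000000190100840000000c4080040000000600400b000400020008060582))))) 
(.nd (nat_lit 27) 
(.lf (nat_lit 4362420264) (dlOf (nat_lit 3) (nat_lit 0x14047000080100100198000380800e8008008800200220008070803))) 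
(.nd (nat_lit 29) 
(.lf (nat_lit 2349154344) (dlOf (nat_lit 5) (nat_lit 0x1e405400c801000750070001781803200a801f402001a400e0002e8300640150032004001ac01c0005b0600ce02a00640080001681002c00080058002006c00080e0503))) 
(.lf (nat_lit 3959767080) (dlOf (nat_lit 2) (nat_lit 0x380000001204001000200440008140582)))))) 
(.nd (nat_lit 9) (.lf (nat_lit 55918632) (dlOf (nat_lit 1) (nat_lit 0x18004000800196f0202))) 
(.nd (nat_lit 11) 
(.lf (nat_lit 58016296) (dlOf (nat_lit 2) (nat_lit 0x165e900032198001e41000100080038002000400097a8883))) 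
(.lf (nat_lit 45435432) (dlOf (nat_lit 3) (nat_lit 0x16cea00045010001675000220080040008002400200520009325183)))))) 
(.nd (nat_lit 23) (.nd (nat_lit 3) (.nd (nat_lit 9) (.nd (nat_lit 21) 
(.lf (nat_lit 2819440672) (dlOf (nat_lit 1) (nat_lit 0x8008000400200020008290683))) 
(.lf (nat_lit 2754428960) (dlOf (nat_lit 1) (nat_lit 0x9800180e0481)))) 
(.lf (nat_lit 19748384) (dlOf (nat_lit 1) (nat_lit 0x1c00189d9c01)))) (.nd (nat_lit 20) 
(.nd (nat_lit 21) (.lf (nat_lit 5062696) (dlOf (nat_lit 2) (nat_lit 0xde6620002f818300680))) 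
(.lf (nat_lit 2754428968) (dlOf (nat_lit 2) (nat_lit 0x5f06280008048000e408000c004000400180e0502)))) 
(.lf (nat_lit 18694184) (dlOf (nat_lit 1) (nat_lit 0x80028960801))))) (.nd (nat_lit 20) 
(.nd (nat_lit 3) 
(.lf (nat_lit 9256992) (dlOf (nat_lit 3) (nat_lit 0x2506dc0008c04015001e005200000022828530180))) 
(.nd (nat_lit 21) (.lf (nat_lit 9257000) (dlOf (nat_lit 1) (nat_lit 0x4004000a0018530382))) 
(.lf (nat_lit 11354152) (dlOf (nat_lit 1) (nat_lit 0x8008000400200020008690603))))) 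
(.nd (nat_lit 22) (.nd (nat_lit 24) 
(.lf (nat_lit 10305576) (dlOf (nat_lit 2) (nat_lit 0x69c540003a040004004000c00185d0582))) 
(.lf (nat_lit 27082792) (dlOf (nat_lit 1) (nat_lit 0x800200020008ca0682)))) 
(.lf (nat_lit 14499880) (dlOf (nat_lit 1) (nat_lit 0x60028760901)))))))) (.nd (nat_lit 8) 
(.nd (nat_lit 24) (.nd (nat_lit 7) (.nd (nat_lit 3) (.nd (nat_lit 18) (.nd (nat_lit 19) 
(.lf (nat_lit 12664928) (dlOf (nat_lit 1) (nat_lit 0x4002000200086d1282))) 
(.lf (nat_lit 537477216) (dlOf (nat_lit 6) (nat_lit 0x3940d600380520001202001b02c000d00fc000400800fc0b0000e0320000e02000902c00268144003c07e001c0320000b84000b0288000000802f000801b4002005000080a1283)))) 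
(.lf (nat_lit 2818916448) (dlOf (nat_lit 1) (nat_lit 0x10c0028130281)))) (.nd (nat_lit 19) 
(.nd (nat_lit 20) 
(.lf (nat_lit 12664936) (dlOf (nat_lit 2) (nat_lit 0x4138a80059a5800020080008004001a00186d1402))) 
(.lf (nat_lit 47267944) (dlOf (nat_lit 1) (nat_lit 0xa00293c0781)))) 
(.lf (nat_lit 537477224) (dlOf (nat_lit 7) (nat_lit 0xc60570000b81009302e8031015c029c0a401760330000a84009002e8033815c02840a400fa0330000984008f02e802e815c01c80a400b40330000204006202e8018015c01ac0a400a20330000184006202b800004080290008003c002001800080a1403))))) 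
(.nd (nat_lit 11) (.nd (nat_lit 26) (.nd (nat_lit 29) 
(.lf (nat_lit 1208041704) (dlOf (nat_lit 4) (nat_lit 0x112039000b08100fd01c002480a803f404a017002000f7004001e00000017a1800f80700008e0200a60028090a81))) 
(.lf (nat_lit 1744912616) (dlOf (nat_lit 2) (nat_lit 0x6403300160120002f4100008008001400200020008090a83)))) 
(.lf (nat_lit 738279656) (dlOf (nat_lit 2) (nat_lit 0xe00300047018090a80)))) (.nd (nat_lit 10) 
(.lf (nat_lit 4362160360) (dlOf (nat_lit 1) (nat_lit 0x220018004b01))) (.nd (nat_lit 20) 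
(.lf (nat_lit 2885766376) (dlOf (nat_lit 1) (nat_lit 0x4002000c0008006502))) 
(.lf (nat_lit 2754694376) (dlOf (nat_lit 1) (nat_lit 0x8004000200080f6502))))))) (.nd (nat_lit 21) 
(.nd (nat_lit 18) (.nd (nat_lit 7) 
(.lf (nat_lit 54610536) (dlOf (nat_lit 2) (nat_lit 0x202a28000ec080010008000c00200040009655383))) 
(.lf (nat_lit 30490856) (dlOf (nat_lit 1) (nat_lit 0x180018e30601)))) (.nd (nat_lit 3) 
(.lf (nat_lit 52248672) (dlOf (nat_lit 1) (nat_lit 0x800400060019521982))) (.nd (nat_lit 19) 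
(.lf (nat_lit 55918696) (dlOf (nat_lit 1) (nat_lit 0x4002000200096f0982))) 
(.lf (nat_lit 52248680) (dlOf (nat_lit 1) (nat_lit 0x20029521981)))))) (.nd (nat_lit 3) 
(.nd (nat_lit 9) (.nd (nat_lit 10) 
(.lf (nat_lit 20009056) (dlOf (nat_lit 1) (nat_lit 0x4002000200089d7d82))) 
(.lf (nat_lit 20270176) (dlOf (nat_lit 1) (nat_lit 0x100080004002000400089d6083)))) 
(.lf (nat_lit 20272736) (dlOf (nat_lit 1) (nat_lit 0x200089d9c01)))) (.nd (nat_lit 18) 
(.lf (nat_lit 18956520) (dlOf (nat_lit 1) (nat_lit 0x20018970601))) 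
(.lf (nat_lit 19218664) (dlOf (nat_lit 1) (nat_lit 0x10008001400200040008970603))))))) 
(.nd (nat_lit 21) (.nd (nat_lit 9) (.nd (nat_lit 7) (.nd (nat_lit 3) 
(.lf (nat_lit 2818655584) (dlOf (nat_lit 1) (nat_lit 0xc002000200080d3402))) (.nd (nat_lit 27) 
(.lf (nat_lit 3825287528) (dlOf (nat_lit 3) (nat_lit 0x9007c003c036000c0170001483001700f8011006c0004e0800ec002001c00080b0702))) 
(.lf (nat_lit 2348892520) (dlOf (nat_lit 1) (nat_lit 0x400200020008015202))))) (.nd (nat_lit 10) 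
(.lf (nat_lit 1208044008) (dlOf (nat_lit 1) (nat_lit 0x400400020008094e82))) 
(.lf (nat_lit 43599336) (dlOf (nat_lit 1) (nat_lit 0x380080014002000200092a3603))))) 
(.nd (nat_lit 10) (.nd (nat_lit 3) 
(.lf (nat_lit 536953824) (dlOf (nat_lit 1) (nat_lit 0x400400080018002882))) 
(.lf (nat_lit 47530984) (dlOf (nat_lit 1) (nat_lit 0x400400020019402882)))) (.nd (nat_lit 18) 
(.lf (nat_lit 4362160104) (dlOf (nat_lit 1) (nat_lit 0x120018004601))) 
(.lf (nat_lit 4295313384) (dlOf (nat_lit 1) (nat_lit 0x400400020018114602)))))) (.nd (nat_lit 19) 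
(.nd (nat_lit 3) (.nd (nat_lit 7) 
(.lf (nat_lit 69551456) (dlOf (nat_lit 1) (nat_lit 0x400200020008b43402))) 
(.lf (nat_lit 36783072) (dlOf (nat_lit 1) (nat_lit 0x20019072881)))) (.nd (nat_lit 7) 
(.nd (nat_lit 9) 
(.lf (nat_lit 3490152) (dlOf (nat_lit 2) (nat_lit 0xb33f8000064080008008000c00200100008200703))) 
(.lf (nat_lit 20270952) (dlOf (nat_lit 1) (nat_lit 0xb0004005400089d7782)))) 
(.lf (nat_lit 61949416) (dlOf (nat_lit 3) (nat_lit 0x160b00024808000b0580000204000400400060009923602))))) 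
(.nd (nat_lit 11) (.nd (nat_lit 10) 
(.lf (nat_lit 23937376) (dlOf (nat_lit 1) (nat_lit 0x400200020008b80682))) 
(.lf (nat_lit 57230688) (dlOf (nat_lit 2) (nat_lit 0xa6ced00008019793400)))) (.nd (nat_lit 3) 
(.nd (nat_lit 20) (.lf (nat_lit 57231712) (dlOf (nat_lit 1) (nat_lit 0x8008000800200060009794e83))) 
(.lf (nat_lit 37308768) (dlOf (nat_lit 1) (nat_lit 0x200190d4e81)))) 
(.lf (nat_lit 57231720) (dlOf (nat_lit 2) (nat_lit 0x1359da016820200020009794e81))))))))) 
(.nd (nat_lit 27) (.nd (nat_lit 3) (.nd (nat_lit 18) (.nd (nat_lit 6) (.nd (nat_lit 9) 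
(.nd (nat_lit 8) (.nd (nat_lit 19) 
(.lf (nat_lit 1343307808) (dlOf (nat_lit 1) (nat_lit 0x78008005000200ac00081e0603))) 
(.lf (nat_lit 1343832096) (dlOf (nat_lit 1) (nat_lit 0x20028370001)))) 
(.lf (nat_lit 5100356896) (dlOf (nat_lit 2) (nat_lit 0x13014800094080060008000c002000a0008053103)))) 
(.nd (nat_lit 10) (.nd (nat_lit 21) 
(.lf (nat_lit 2483110432) (dlOf (nat_lit 1) (nat_lit 0x20018017f01))) 
(.lf (nat_lit 3491840544) (dlOf (nat_lit 1) (nat_lit 0x8008000400200020008090d83)))) 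
(.lf (nat_lit 6241207840) (dlOf (nat_lit 2) (nat_lit 0x4002000044080008008001c00200100008053703))))) 
(.nd (nat_lit 11) (.nd (nat_lit 19) 
(.lf (nat_lit 2952872032) (dlOf (nat_lit 1) (nat_lit 0x30008005400200d80008010283))) 
(.nd (nat_lit 20) 
(.lf (nat_lit 1409892448) (dlOf (nat_lit 9) (nat_lit 0x6f02b80005c08087017402fc0ae0152052014d019800400200002a1401d00ba01cc05700e8029008000cc000261002740a40001102023c05d00ca02b802c0148003c0800284033000200400001430079817403c40ae01aa052008001980001020076017403cc0ae01f405200da01980000c20034815c0000204000800408ea00180a1302))) 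
(.lf (nat_lit 1343832160) (dlOf (nat_lit 2) (nat_lit 0x28594001f804002800400120008370482))))) 
(.nd (nat_lit 7) (.lf (nat_lit 1342262368) (dlOf (nat_lit 1) (nat_lit 0x800400240008006082))) 
(.lf (nat_lit 3556854240) (dlOf (nat_lit 1) (nat_lit 0x200280d4e81)))))) (.nd (nat_lit 31) 
(.nd (nat_lit 6) (.nd (nat_lit 19) (.nd (nat_lit 20) 
(.lf (nat_lit 4563746848) (dlOf (nat_lit 8) (nat_lit 0x14032000300f0000d81002100c8000803c0003104008403200017010042019002700780002a0801100640001102008403200007810004019803300c800fc046011a01e004100e8000002804100080104002003400080d0103))) 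
(.lf (nat_lit 1343569952) (dlOf (nat_lit 2) (nat_lit 0x3b0b280035c080008008001000200020008290603)))) 
(.lf (nat_lit 1346191392) (dlOf (nat_lit 5) (nat_lit 0x1f858003001b2000809c000904680009c2000103640004c04001410a0000e02017415600000018e60180)))) 
(.nd (nat_lit 19) 
(.lf (nat_lit 4563746912) (dlOf (nat_lit 2) (nat_lit 0x14033000701900188078000000c0004002000600080d0782))) 
(.lf (nat_lit 1346191456) (dlOf (nat_lit 2) (nat_lit 0x11016000b206c80408270000000c011c00400560008e60902))))) 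
(.nd (nat_lit 7) (.nd (nat_lit 19) 
(.lf (nat_lit 2416263200) (dlOf (nat_lit 1) (nat_lit 0x9800180c0b01))) (.nd (nat_lit 21) 
(.lf (nat_lit 3557638176) (dlOf (nat_lit 1) (nat_lit 0x8008000400200020008290683))) 
(.lf (nat_lit 3492626464) (dlOf (nat_lit 1) (nat_lit 0x9800180e0481))))) (.nd (nat_lit 8) 
(.lf (nat_lit 3490012320) (dlOf (nat_lit 1) (nat_lit 0x90001800c201))) 
(.lf (nat_lit 3490007456) (dlOf (nat_lit 1) (nat_lit 0x800200020008004e82))))))) (.nd (nat_lit 7) 
(.nd (nat_lit 18) (.nd (nat_lit 8) (.nd (nat_lit 19) (.nd (nat_lit 6) 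
(.lf (nat_lit 1343307816) (dlOf (nat_lit 1) (nat_lit 0x60004005400081e0682))) 
(.lf (nat_lit 1342264424) (dlOf (nat_lit 4) (nat_lit 0x103540005c02008808e000603f0000901000582c4000c13a00ae08e002803f000088201b180080104002000e0008009403)))) 
(.nd (nat_lit 9) (.lf (nat_lit 3492364328) (dlOf (nat_lit 1) (nat_lit 0x8004000600080c0c02))) 
(.lf (nat_lit 3491316264) (dlOf (nat_lit 1) (nat_lit 0x1c0028090e01))))) (.nd (nat_lit 6) 
(.nd (nat_lit 12) (.lf (nat_lit 2952872232) (dlOf (nat_lit 1) (nat_lit 0x400200020008010702))) 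
(.lf (nat_lit 1342263592) (dlOf (nat_lit 1) (nat_lit 0x60018008081)))) 
(.lf (nat_lit 1342266216) (dlOf (nat_lit 1) (nat_lit 0xc001800bc81))))) (.nd (nat_lit 19) 
(.nd (nat_lit 26) (.nd (nat_lit 6) 
(.lf (nat_lit 1342521384) (dlOf (nat_lit 13) (nat_lit 0x181cf00150e280015410002873c001438a000540400b21d100710e280014c100010744001439e000520400741d100420e280014010006073c005838a000370400101d100040e7800307140006c0c01543a2000a1cf003b0e6803687140006a1000043a2000e1cf00090e28000d0180040744001838a000330400741d100070e780198734010838a00601c1000190500020e88006871400062080094004008c0018040582))) 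
(.lf (nat_lit 4563746920) (dlOf (nat_lit 2) (nat_lit 0x2000f0000000800a80080058002006e00080d0783)))) 
(.nd (nat_lit 30) 
(.lf (nat_lit 2483372072) (dlOf (nat_lit 5) (nat_lit 0x1e405400c801000750070001781803200a801f402001a400e0002e8300640150032004001ac01c0005b0600ce02a00640080001681002c00080058002006c00080e0503))) 
(.lf (nat_lit 1409630248) (dlOf (nat_lit 11) (nat_lit 0xa80ee00c400000029820066000000144080548000000a00400a80ee0052000000278200080000000f40800680000006a040204000000330201ae000000190100840000000c4080040000000600400b000400020008060582))))) 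
(.nd (nat_lit 20) 
(.lf (nat_lit 3492626472) (dlOf (nat_lit 2) (nat_lit 0x5f06980008048000e408000c004000400180e0502))) 
(.lf (nat_lit 1346191400) (dlOf (nat_lit 3) (nat_lit 0x92856001bc2ac024c0cf00e004b007c820c000521404942b000c41560126067807f825803f8106000270a00060028e60201)))))) 
(.nd (nat_lit 6) (.nd (nat_lit 29) (.nd (nat_lit 9) (.nd (nat_lit 18) 
(.lf (nat_lit 5704337832) (dlOf (nat_lit 1) (nat_lit 0x24002000c0008054e82))) 
(.lf (nat_lit 3490007464) (dlOf (nat_lit 1) (nat_lit 0x400200020008004e82)))) 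
(.lf (nat_lit 5637229480) (dlOf (nat_lit 3) (nat_lit 0x1300a8006001000400060001706001c015000d002000044100218008001000200020008055d03)))) 
(.nd (nat_lit 8) 
(.lf (nat_lit 1879922856) (dlOf (nat_lit 1) (nat_lit 0x8008000c002000200083da883))) 
(.nd (nat_lit 10) (.lf (nat_lit 6174099880) (dlOf (nat_lit 1) (nat_lit 0x8e0018054e81))) 
(.lf (nat_lit 6241207720) (dlOf (nat_lit 4) (nat_lit 0x300200058408001804c000c0040009d04001c0130002001000238100088008001000200120008053603)))))) 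
(.nd (nat_lit 10) (.nd (nat_lit 26) 
(.lf (nat_lit 4563484904) (dlOf (nat_lit 9) (nat_lit 0xb00a801f8048002ca080a5402a0936012000a702004400a806380480028e0800a8024001460200520150069009000508100188048001b40411a406802f2032021601780ea007c011000a000bd0a0180015007c009000090101028008066400200360008090a83))) 
(.lf (nat_lit 335626472) (dlOf (nat_lit 2) (nat_lit 0x150068002f4080008008001800200040008090a83)))) 
(.nd (nat_lit 11) 
(.lf (nat_lit 5100356840) (dlOf (nat_lit 3) (nat_lit 0x100e0001140800200500007004000c004000c0018052e02))) 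
(.nd (nat_lit 26) 
(.lf (nat_lit 1342262504) (dlOf (nat_lit 4) (nat_lit 0x3c1f30001b0100180b88000c80802608dc0000004000800200080008006502))) 
(.lf (nat_lit 1409371368) (dlOf (nat_lit 1) (nat_lit 0x400400020018006502))))))))) 
(.nd (nat_lit 29) (.nd (nat_lit 18) (.nd (nat_lit 6) (.nd (nat_lit 9) (.nd (nat_lit 3) 
(.lf (nat_lit 4697702816) (dlOf (nat_lit 3) (nat_lit 0xc4012000a681006200900052c08036000800d8002013e0008091003))) 
(.nd (nat_lit 7) (.lf (nat_lit 469846056) (dlOf (nat_lit 2) (nat_lit 0x5c2470006f818004700))) 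
(.lf (nat_lit 1543589288) (dlOf (nat_lit 1) (nat_lit 0x400200020008146d02))))) (.nd (nat_lit 7) 
(.lf (nat_lit 474041128) (dlOf (nat_lit 1) (nat_lit 0x20029005c01))) (.nd (nat_lit 8) 
(.lf (nat_lit 469848744) (dlOf (nat_lit 1) (nat_lit 0x40018008c81))) 
(.lf (nat_lit 4764814248) (dlOf (nat_lit 1) (nat_lit 0x100008005d01)))))) (.nd (nat_lit 3) 
(.nd (nat_lit 8) (.lf (nat_lit 474562656) (dlOf (nat_lit 1) (nat_lit 0xa00291a0901))) 
(.lf (nat_lit 1476477280) (dlOf (nat_lit 1) (nat_lit 0x800200020008010902)))) (.nd (nat_lit 7) 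
(.lf (nat_lit 469851240) (dlOf (nat_lit 1) (nat_lit 0xc000800780020024000800c083))) 
(.nd (nat_lit 10) 
(.lf (nat_lit 469851112) (dlOf (nat_lit 1) (nat_lit 0x1380080094002007e000800bf03))) 
(.lf (nat_lit 469845992) (dlOf (nat_lit 1) (nat_lit 0x170008000400200200008004603))))))) 
(.nd (nat_lit 3) (.nd (nat_lit 6) (.nd (nat_lit 19) (.nd (nat_lit 31) 
(.lf (nat_lit 4697964576) (dlOf (nat_lit 8) (nat_lit 0x14032000300f0000d81002100c8000803c0003104008403200017010042019002700780002c0801100640001102008403200007010004019803300c800fc046011a01e004100e8000002804100080104002003400080d0103))) 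
(.lf (nat_lit 2550480928) (dlOf (nat_lit 1) (nat_lit 0x9800180c0b01)))) 
(.lf (nat_lit 471679008) (dlOf (nat_lit 1) (nat_lit 0x4000283c0481)))) (.nd (nat_lit 26) 
(.lf (nat_lit 4697964640) (dlOf (nat_lit 2) (nat_lit 0x14033000701900188078000000c0004002000600080d0782))) 
(.lf (nat_lit 3691331680) (dlOf (nat_lit 2) (nat_lit 0x14058000c02b0006015000300a4001c044000c01b000100a00040024001000a00100020009000000754580068008000800200100008160483))))) 
(.nd (nat_lit 6) (.nd (nat_lit 19) (.nd (nat_lit 22) (.nd (nat_lit 31) 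
(.lf (nat_lit 470106152) (dlOf (nat_lit 13) (nat_lit 0x181cf00150e280015410002873c001438a000540400b21d100710e280014c100010744001439e000520400741d100420e280014010006073c005838a000370400101d100040e7800307140006c0c01543a2000a1cf003b0e6803687140006a1000043a2000e1cf00090e28000d0180040744001838a000330400741d100070e780198734010838a00601c1000190500020e88006871400062080094004008c0018040582))) 
(.lf (nat_lit 2617589800) (dlOf (nat_lit 1) (nat_lit 0x60028100681)))) 
(.lf (nat_lit 474300456) (dlOf (nat_lit 1) (nat_lit 0x280080004002000e0009130983)))) 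
(.lf (nat_lit 471679016) (dlOf (nat_lit 1) (nat_lit 0x10004000200183c0602)))) 
(.lf (nat_lit 4697964648) (dlOf (nat_lit 2) (nat_lit 0x2000f0000000800a80080058002006e00080d0783)))))) 
(.nd (nat_lit 8) (.nd (nat_lit 3) (.nd (nat_lit 18) (.nd (nat_lit 19) 
(.lf (nat_lit 3087089696) (dlOf (nat_lit 2) (nat_lit 0x2020006bf8180b0000))) 
(.lf (nat_lit 1009336352) (dlOf (nat_lit 1) (nat_lit 0xc002000200090f0782)))) (.nd (nat_lit 6) 
(.lf (nat_lit 4161093664) (dlOf (nat_lit 1) (nat_lit 0xa0018120501))) 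
(.lf (nat_lit 6377259232) (dlOf (nat_lit 1) (nat_lit 0x1200280c1d01))))) (.nd (nat_lit 18) 
(.nd (nat_lit 9) (.lf (nat_lit 3087089704) (dlOf (nat_lit 2) (nat_lit 0x27a01f00da70180b0000))) 
(.lf (nat_lit 6308316712) (dlOf (nat_lit 2) (nat_lit 0xe00280000004002800200180008053702)))) 
(.nd (nat_lit 21) (.nd (nat_lit 26) 
(.lf (nat_lit 4161093672) (dlOf (nat_lit 2) (nat_lit 0x40520002b0200040008120681))) 
(.lf (nat_lit 4228202536) (dlOf (nat_lit 2) (nat_lit 0x300320000a018070880)))) 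
(.lf (nat_lit 1009074216) (dlOf (nat_lit 1) (nat_lit 0x180029050a81)))))) (.nd (nat_lit 6) 
(.nd (nat_lit 11) (.nd (nat_lit 3) 
(.lf (nat_lit 2080457120) (dlOf (nat_lit 2) (nat_lit 0x4039000af018091000))) (.nd (nat_lit 10) 
(.lf (nat_lit 3087090088) (dlOf (nat_lit 10) (nat_lit 0x15300e80b080640309408053003a02be01900020000061241809f808005cc03a02bc019015a00c000400000308414004003a01841020280020017300e80af80640568030001000000c2005001700e805f84080008074004c032017d80400d201d00bea01000100e805f4c0800d000802f000200e400080b0783))) 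
(.lf (nat_lit 6375425448) (dlOf (nat_lit 1) (nat_lit 0x3a0018003601))))) (.nd (nat_lit 7) 
(.lf (nat_lit 2013350696) (dlOf (nat_lit 1) (nat_lit 0x1800200040008005c02))) 
(.lf (nat_lit 5234575784) (dlOf (nat_lit 1) (nat_lit 0x220028054e81))))) (.nd (nat_lit 3) 
(.nd (nat_lit 9) (.lf (nat_lit 4227943776) (dlOf (nat_lit 1) (nat_lit 0x3c00200200008006a82))) 
(.lf (nat_lit 4227947360) (dlOf (nat_lit 7) (nat_lit 0x1c0320057c810010019002bbc0800400c8015cc04003806400ae502000803200572010009019002b8c08012000800040020040000800bc83)))) 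
(.nd (nat_lit 9) 
(.lf (nat_lit 3087090024) (dlOf (nat_lit 3) (nat_lit 0x9007c003c036000c0170001483001700f8011006c0004e0800ec002001c00080b0702))) 
(.lf (nat_lit 4227947368) (dlOf (nat_lit 3) (nat_lit 0x300c8015fe04000c06400aec0200f0002800bc81))))))))))) 
(.nd (nat_lit 3) (.nd (nat_lit 16) (.nd (nat_lit 18) (.nd (nat_lit 19) (.nd (nat_lit 30) 
(.nd (nat_lit 21) (.nd (nat_lit 27) (.nd (nat_lit 8) (.nd (nat_lit 9) 
(.lf (nat_lit 604127264) (dlOf (nat_lit 1) (nat_lit 0x80018030181))) 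
(.lf (nat_lit 6509710880) (dlOf (nat_lit 1) (nat_lit 0x1000400060008147102)))) 
(.lf (nat_lit 4295115040) (dlOf (nat_lit 1) (nat_lit 0x1400400020008090502)))) (.nd (nat_lit 8) 
(.nd (nat_lit 10) (.lf (nat_lit 2885828640) (dlOf (nat_lit 1) (nat_lit 0x4e00280b0001))) 
(.lf (nat_lit 738348064) (dlOf (nat_lit 2) (nat_lit 0xc02d0000b0080048008000c00200040008096003)))) 
(.lf (nat_lit 4429332768) (dlOf (nat_lit 1) (nat_lit 0x1400400020008090502))))) (.nd (nat_lit 6) 
(.nd (nat_lit 23) (.nd (nat_lit 7) 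
(.lf (nat_lit 52576288) (dlOf (nat_lit 1) (nat_lit 0x3400400060009550182))) 
(.lf (nat_lit 20076192) (dlOf (nat_lit 1) (nat_lit 0x10004002000189d9f82)))) (.nd (nat_lit 22) 
(.lf (nat_lit 62013472) (dlOf (nat_lit 1) (nat_lit 0xa0019930781))) 
(.lf (nat_lit 15876128) (dlOf (nat_lit 2) (nat_lit 0x3862c0156c04002000400160018840682))))) 
(.nd (nat_lit 20) (.nd (nat_lit 7) 
(.lf (nat_lit 39994464) (dlOf (nat_lit 1) (nat_lit 0x400291f2901))) 
(.lf (nat_lit 44187872) (dlOf (nat_lit 4) (nat_lit 0x695c000330200054ae00019010002a570000c40800100080008002000400092d1a83)))) 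
(.nd (nat_lit 8) (.lf (nat_lit 24264800) (dlOf (nat_lit 2) (nat_lit 0x304e00008018b91300))) 
(.lf (nat_lit 3293536) (dlOf (nat_lit 1) (nat_lit 0x60028200681))))))) (.nd (nat_lit 26) 
(.nd (nat_lit 6) (.nd (nat_lit 7) (.nd (nat_lit 9) 
(.lf (nat_lit 2013413408) (dlOf (nat_lit 1) (nat_lit 0x40028060b01))) 
(.lf (nat_lit 1342325280) (dlOf (nat_lit 1) (nat_lit 0xf4004007c0008017f02)))) 
(.lf (nat_lit 3355595680) (dlOf (nat_lit 3) (nat_lit 0x80bc0022204002005e0010d02002c00080a9101)))) 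
(.nd (nat_lit 7) (.nd (nat_lit 8) 
(.lf (nat_lit 3355596384) (dlOf (nat_lit 2) (nat_lit 0x100188029a40801a8008003c002005600080a9c03))) 
(.lf (nat_lit 5905729376) (dlOf (nat_lit 1) (nat_lit 0x40028143f81)))) 
(.lf (nat_lit 3221375456) (dlOf (nat_lit 3) (nat_lit 0x4a814c001406e0144c04001205300a24818114e80))))) 
(.nd (nat_lit 11) (.nd (nat_lit 9) (.nd (nat_lit 10) 
(.lf (nat_lit 1140998176) (dlOf (nat_lit 1) (nat_lit 0x40028060b01))) 
(.lf (nat_lit 3959571488) (dlOf (nat_lit 5) (nat_lit 0x4400000b9e01005301f002980380134000015e00600a200000aef0100650000055240800300080004002003c0008112883)))) 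
(.lf (nat_lit 4228006432) (dlOf (nat_lit 1) (nat_lit 0x400400020008017f02)))) (.nd (nat_lit 6) 
(.lf (nat_lit 5838621856) (dlOf (nat_lit 1) (nat_lit 0x1800180f6281))) (.nd (nat_lit 7) 
(.lf (nat_lit 3959576928) (dlOf (nat_lit 1) (nat_lit 0x4000811ab81))) 
(.lf (nat_lit 3959577056) (dlOf (nat_lit 2) (nat_lit 0xc00bc01668040070002008c000811b282)))))))) 
(.nd (nat_lit 6) (.nd (nat_lit 20) (.nd (nat_lit 27) (.nd (nat_lit 26) (.nd (nat_lit 28) 
(.lf (nat_lit 3221897248) (dlOf (nat_lit 14) (nat_lit 0x14c0460056021800c80e00043a0c023408c0021b0200260460010281029301780138050003d808028005e0017b02002a02f000bc81000301a800700780016608007c06a0044027001f00f800f80480015e1000280ac0003502000e04e00012810002028800e0138000403e0002406000a0100000f0100130230000000805a00080040002009400081b0483))) 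
(.lf (nat_lit 1342849056) (dlOf (nat_lit 2) (nat_lit 0x224100030e58000841000200080024002001200080f0703)))) 
(.lf (nat_lit 3557441568) (dlOf (nat_lit 1) (nat_lit 0x6c004000e0018200482)))) (.nd (nat_lit 28) 
(.lf (nat_lit 3960094752) (dlOf (nat_lit 14) (nat_lit 0x14c0460056021800c80e0004420c023408c0021f0200260460010301029301780138050003d808028005e0018002002a02f000bf01000301a800700780016608007c06a0044027001f00f800f80480015e1000280ac0003a020004051001c0270000807c000540c001c09c0002802000a010000118100130230000000805a00080040002009400081b0483))) 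
(.nd (nat_lit 29) 
(.lf (nat_lit 470433824) (dlOf (nat_lit 2) (nat_lit 0x224100030e580002c1000200080024002001200080f0703))) 
(.lf (nat_lit 3154788384) (dlOf (nat_lit 2) (nat_lit 0x2a03500000018320c00)))))) (.nd (nat_lit 21) 
(.nd (nat_lit 23) (.lf (nat_lit 18497568) (dlOf (nat_lit 1) (nat_lit 0x400400020008940682))) 
(.lf (nat_lit 10108960) (dlOf (nat_lit 1) (nat_lit 0x200285b0481)))) (.nd (nat_lit 9) 
(.lf (nat_lit 24789024) (dlOf (nat_lit 1) (nat_lit 0x2400400040008bb0702))) 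
(.lf (nat_lit 8013344) (dlOf (nat_lit 1) (nat_lit 0xe0028513701)))))) (.nd (nat_lit 21) 
(.nd (nat_lit 20) (.nd (nat_lit 10) (.nd (nat_lit 23) 
(.lf (nat_lit 537542752) (dlOf (nat_lit 2) (nat_lit 0x2a0358000900800d00080078002000200080a1283))) 
(.lf (nat_lit 42614880) (dlOf (nat_lit 1) (nat_lit 0x40009260901)))) 
(.lf (nat_lit 34227296) (dlOf (nat_lit 1) (nat_lit 0x40028fb2901)))) (.nd (nat_lit 7) 
(.lf (nat_lit 1880768608) (dlOf (nat_lit 1) (nat_lit 0x20018b61981))) 
(.lf (nat_lit 1343897824) (dlOf (nat_lit 2) (nat_lit 0x102620002a0200040008370581))))) 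
(.nd (nat_lit 7) (.nd (nat_lit 10) (.nd (nat_lit 20) 
(.lf (nat_lit 1344946272) (dlOf (nat_lit 2) (nat_lit 0x170668000ac080170008005c002003600089a0903))) 
(.lf (nat_lit 45760608) (dlOf (nat_lit 1) (nat_lit 0x118004007a0009360902)))) 
(.lf (nat_lit 58344544) (dlOf (nat_lit 1) (nat_lit 0x14c00197e2901)))) (.nd (nat_lit 8) 
(.lf (nat_lit 28983520) (dlOf (nat_lit 1) (nat_lit 0x10008000800200020008da0583))) (.nd (nat_lit 9) 
(.lf (nat_lit 49957344) (dlOf (nat_lit 1) (nat_lit 0x4002000200094c4e82))) 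
(.lf (nat_lit 8015840) (dlOf (nat_lit 1) (nat_lit 0x1940018517a81))))))))) (.nd (nat_lit 6) 
(.nd (nat_lit 30) (.nd (nat_lit 22) (.nd (nat_lit 8) (.nd (nat_lit 9) (.nd (nat_lit 21) 
(.lf (nat_lit 42876960) (dlOf (nat_lit 1) (nat_lit 0x400400020009280182))) 
(.lf (nat_lit 19808288) (dlOf (nat_lit 1) (nat_lit 0x80080158002004a00089d0003)))) (.nd (nat_lit 7) 
(.lf (nat_lit 8803872) (dlOf (nat_lit 2) (nat_lit 0x346e00607018519c00))) 
(.lf (nat_lit 19815072) (dlOf (nat_lit 1) (nat_lit 0x80080008002000400089db683))))) 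
(.nd (nat_lit 7) (.nd (nat_lit 19) 
(.lf (nat_lit 805716256) (dlOf (nat_lit 1) (nat_lit 0x200181a0501))) 
(.lf (nat_lit 3031328) (dlOf (nat_lit 1) (nat_lit 0x40028200501)))) 
(.lf (nat_lit 19815328) (dlOf (nat_lit 1) (nat_lit 0x800801f0002007c00089dbc83))))) 
(.nd (nat_lit 24) (.nd (nat_lit 26) (.nd (nat_lit 20) 
(.lf (nat_lit 12992544) (dlOf (nat_lit 4) (nat_lit 0x4c720001a0200086220000c01000131c80002c0800980080048002001400086f0703))) 
(.lf (nat_lit 5652512) (dlOf (nat_lit 1) (nat_lit 0x4004000200083b0602)))) (.nd (nat_lit 7) 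
(.lf (nat_lit 2756067360) (dlOf (nat_lit 1) (nat_lit 0x200181e0701))) 
(.lf (nat_lit 474368416) (dlOf (nat_lit 1) (nat_lit 0x20029164e81))))) (.nd (nat_lit 7) 
(.nd (nat_lit 19) (.nd (nat_lit 20) 
(.lf (nat_lit 29769760) (dlOf (nat_lit 1) (nat_lit 0x8008000400200020008e30003))) 
(.lf (nat_lit 24526880) (dlOf (nat_lit 1) (nat_lit 0x400200020008ba0a02)))) 
(.lf (nat_lit 21905440) (dlOf (nat_lit 1) (nat_lit 0x8008000400200020008a80983)))) 
(.lf (nat_lit 21381536) (dlOf (nat_lit 1) (nat_lit 0x1000200020008a36b82)))))) (.nd (nat_lit 26) 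
(.nd (nat_lit 7) (.nd (nat_lit 9) (.nd (nat_lit 22) (.nd (nat_lit 29) 
(.lf (nat_lit 5637554208) (dlOf (nat_lit 2) (nat_lit 0xc0020003b0200020008100101))) 
(.lf (nat_lit 4026941472) (dlOf (nat_lit 2) (nat_lit 0x1e040000000180d0880)))) 
(.lf (nat_lit 3494264864) (dlOf (nat_lit 1) (nat_lit 0x200181e0701)))) 
(.lf (nat_lit 3490595360) (dlOf (nat_lit 1) (nat_lit 0x8008000400200020008017f03)))) 
(.nd (nat_lit 8) 
(.lf (nat_lit 3221635232) (dlOf (nat_lit 2) (nat_lit 0x4046000301c000488100200008007c002001a0008170203))) 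
(.lf (nat_lit 5772296608) (dlOf (nat_lit 1) (nat_lit 0x20008000800200060008091003))))) 
(.nd (nat_lit 27) (.nd (nat_lit 8) (.nd (nat_lit 28) 
(.lf (nat_lit 3288743968) (dlOf (nat_lit 2) (nat_lit 0x1e040000000180d0880))) 
(.lf (nat_lit 6241533984) (dlOf (nat_lit 2) (nat_lit 0xc0020003b0200020008100101)))) 
(.lf (nat_lit 1678131488) (dlOf (nat_lit 1) (nat_lit 0x200181a0501)))) (.nd (nat_lit 7) 
(.lf (nat_lit 6376276000) (dlOf (nat_lit 1) (nat_lit 0x40028090001))) 
(.lf (nat_lit 3959832736) (dlOf (nat_lit 2) (nat_lit 0x4046000301c0004c4100200008007c002001a0008170203))))))) 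
(.nd (nat_lit 28) (.nd (nat_lit 7) (.nd (nat_lit 21) (.nd (nat_lit 8) 
(.lf (nat_lit 46549600) (dlOf (nat_lit 1) (nat_lit 0x20019385381))) 
(.lf (nat_lit 1678131552) (dlOf (nat_lit 3) (nat_lit 0x60000000d0100030000000180800300080040002002e00081a0683)))) 
(.nd (nat_lit 19) (.lf (nat_lit 11944288) (dlOf (nat_lit 1) (nat_lit 0x400186c0681))) 
(.lf (nat_lit 3031392) (dlOf (nat_lit 1) (nat_lit 0x60008200681))))) (.nd (nat_lit 8) 
(.nd (nat_lit 9) 
(.lf (nat_lit 2755022048) (dlOf (nat_lit 2) (nat_lit 0x802f00009c0800280080084002001800080f6503))) 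
(.lf (nat_lit 8278752) (dlOf (nat_lit 1) (nat_lit 0x8008000400200020008518c83)))) (.nd (nat_lit 19) 
(.nd (nat_lit 22) (.lf (nat_lit 1678131680) (dlOf (nat_lit 1) (nat_lit 0x1200181a0b81))) 
(.lf (nat_lit 21381600) (dlOf (nat_lit 1) (nat_lit 0x4a0028a37281)))) 
(.lf (nat_lit 2752397792) (dlOf (nat_lit 1) (nat_lit 0x20008017d01)))))) (.nd (nat_lit 8) 
(.nd (nat_lit 19) (.nd (nat_lit 21) 
(.lf (nat_lit 1346781280) (dlOf (nat_lit 1) (nat_lit 0xa0029000901))) 
(.lf (nat_lit 3492167776) (dlOf (nat_lit 2) (nat_lit 0x20000000a0180a1300)))) (.nd (nat_lit 20) 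
(.lf (nat_lit 3557703776) (dlOf (nat_lit 3) (nat_lit 0x301c0007240800880e0002ee040010004002c00182c0482))) 
(.lf (nat_lit 473841760) (dlOf (nat_lit 1) (nat_lit 0x20018fb1981))))) (.nd (nat_lit 7) 
(.nd (nat_lit 30) 
(.lf (nat_lit 805716320) (dlOf (nat_lit 3) (nat_lit 0x60000000d0100030000000180800300080040002002e00081a0683))) 
(.lf (nat_lit 1879458144) (dlOf (nat_lit 1) (nat_lit 0x20018150901)))) (.nd (nat_lit 9) 
(.lf (nat_lit 805716448) (dlOf (nat_lit 1) (nat_lit 0x1200181a0b81))) 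
(.lf (nat_lit 872825824) (dlOf (nat_lit 1) (nat_lit 0x7200280e2881))))))))) (.nd (nat_lit 30) 
(.nd (nat_lit 21) (.nd (nat_lit 18) (.nd (nat_lit 6) (.nd (nat_lit 22) (.nd (nat_lit 27) 
(.nd (nat_lit 7) (.nd (nat_lit 26) 
(.lf (nat_lit 2953003040) (dlOf (nat_lit 4) (nat_lit 0x4600e0002d4080228070001660401200380000002006c0018080601))) 
(.lf (nat_lit 604192800) (dlOf (nat_lit 1) (nat_lit 0x220002005c0008080602)))) 
(.lf (nat_lit 4563615904) (dlOf (nat_lit 1) (nat_lit 0x400180a2b81)))) (.nd (nat_lit 28) 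
(.lf (nat_lit 134430752) (dlOf (nat_lit 1) (nat_lit 0x400400020008020482))) 
(.lf (nat_lit 939737120) (dlOf (nat_lit 1) (nat_lit 0xc0018160481))))) (.nd (nat_lit 8) 
(.nd (nat_lit 19) (.lf (nat_lit 21184544) (dlOf (nat_lit 1) (nat_lit 0x980018a20501))) 
(.lf (nat_lit 4931616) (dlOf (nat_lit 1) (nat_lit 0x3000282d0181)))) 
(.lf (nat_lit 5980448) (dlOf (nat_lit 1) (nat_lit 0x20018420701))))) (.nd (nat_lit 7) 
(.nd (nat_lit 8) (.nd (nat_lit 27) 
(.lf (nat_lit 4295180384) (dlOf (nat_lit 1) (nat_lit 0x200080a1301))) 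
(.lf (nat_lit 4429398112) (dlOf (nat_lit 1) (nat_lit 0x4002000200080a1282)))) 
(.lf (nat_lit 2617459040) (dlOf (nat_lit 2) (nat_lit 0x402b002630180b7300)))) (.nd (nat_lit 8) 
(.lf (nat_lit 6509776608) (dlOf (nat_lit 1) (nat_lit 0x400400020008147382))) 
(.lf (nat_lit 9650656) (dlOf (nat_lit 1) (nat_lit 0x20018577d01)))))) (.nd (nat_lit 26) 
(.nd (nat_lit 20) (.nd (nat_lit 7) (.nd (nat_lit 19) 
(.lf (nat_lit 21446688) (dlOf (nat_lit 1) (nat_lit 0x50002001c0008a40102))) 
(.lf (nat_lit 9388064) (dlOf (nat_lit 1) (nat_lit 0x20018550501)))) 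
(.lf (nat_lit 537346208) (dlOf (nat_lit 1) (nat_lit 0x8008000400200020008090203)))) 
(.nd (nat_lit 24) (.lf (nat_lit 9912352) (dlOf (nat_lit 1) (nat_lit 0xb8008000400200140008590703))) 
(.lf (nat_lit 26689568) (dlOf (nat_lit 1) (nat_lit 0x60018c60601))))) (.nd (nat_lit 6) 
(.nd (nat_lit 20) (.nd (nat_lit 27) 
(.lf (nat_lit 3020374048) (dlOf (nat_lit 1) (nat_lit 0x600282b0681))) 
(.lf (nat_lit 738672672) (dlOf (nat_lit 3) (nat_lit 0x1604e0001b01003a027001880dc0000008016400200b400080d0102)))) 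
(.lf (nat_lit 2752987168) (dlOf (nat_lit 1) (nat_lit 0x20018070681)))) (.nd (nat_lit 10) 
(.lf (nat_lit 604457312) (dlOf (nat_lit 1) (nat_lit 0x2200282d4e81))) 
(.lf (nat_lit 604456288) (dlOf (nat_lit 2) (nat_lit 0x1401d000080a800068080044004000e00082d3402))))))) 
(.nd (nat_lit 8) (.nd (nat_lit 20) (.nd (nat_lit 6) (.nd (nat_lit 19) 
(.lf (nat_lit 52641824) (dlOf (nat_lit 1) (nat_lit 0x170008007400200340009560683))) 
(.lf (nat_lit 472596512) (dlOf (nat_lit 1) (nat_lit 0x20004000e00189c0182)))) (.nd (nat_lit 19) 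
(.lf (nat_lit 56836192) (dlOf (nat_lit 2) (nat_lit 0x54ccc000459400020029770900))) 
(.lf (nat_lit 7028832) (dlOf (nat_lit 1) (nat_lit 0x2400284b0481))))) (.nd (nat_lit 18) 
(.nd (nat_lit 9) (.nd (nat_lit 10) 
(.lf (nat_lit 2755346464) (dlOf (nat_lit 1) (nat_lit 0x140028160781))) 
(.lf (nat_lit 54217760) (dlOf (nat_lit 1) (nat_lit 0xf400200220009656002)))) 
(.lf (nat_lit 3359264) (dlOf (nat_lit 1) (nat_lit 0x40018200d81)))) (.nd (nat_lit 23) 
(.lf (nat_lit 20922400) (dlOf (nat_lit 3) (nat_lit 0x21baec0004602000a000000228189f0180))) 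
(.lf (nat_lit 29311008) (dlOf (nat_lit 1) (nat_lit 0x480080008002000a0008df0483)))))) 
(.nd (nat_lit 7) (.nd (nat_lit 18) (.nd (nat_lit 6) (.nd (nat_lit 19) 
(.lf (nat_lit 23281952) (dlOf (nat_lit 1) (nat_lit 0x8008000800200020008b80503))) 
(.lf (nat_lit 7029024) (dlOf (nat_lit 1) (nat_lit 0x200184b0701)))) 
(.lf (nat_lit 23282016) (dlOf (nat_lit 1) (nat_lit 0x10008001000200060008b80683)))) 
(.nd (nat_lit 9) 
(.lf (nat_lit 2755084576) (dlOf (nat_lit 2) (nat_lit 0x200700005004000400400040018104182))) 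
(.lf (nat_lit 19876640) (dlOf (nat_lit 1) (nat_lit 0x4002000200089d5c02))))) (.nd (nat_lit 9) 
(.nd (nat_lit 10) (.lf (nat_lit 19880352) (dlOf (nat_lit 1) (nat_lit 0x200189daf81))) 
(.lf (nat_lit 8340896) (dlOf (nat_lit 1) (nat_lit 0x400200020008513602)))) (.nd (nat_lit 6) 
(.lf (nat_lit 20138912) (dlOf (nat_lit 1) (nat_lit 0x200289d5c81))) 
(.lf (nat_lit 61031392) (dlOf (nat_lit 1) (nat_lit 0x108002001000098c2882)))))))) (.nd (nat_lit 18) 
(.nd (nat_lit 26) (.nd (nat_lit 7) (.nd (nat_lit 8) (.nd (nat_lit 9) (.nd (nat_lit 21) 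
(.lf (nat_lit 1343963168) (dlOf (nat_lit 1) (nat_lit 0x20028380c01))) 
(.lf (nat_lit 3493543968) (dlOf (nat_lit 1) (nat_lit 0x140028160781)))) 
(.lf (nat_lit 4026745376) (dlOf (nat_lit 1) (nat_lit 0x2460008090d81)))) (.nd (nat_lit 6) 
(.lf (nat_lit 3355656480) (dlOf (nat_lit 2) (nat_lit 0x202f005218180b5100))) 
(.lf (nat_lit 3221445472) (dlOf (nat_lit 5) (nat_lit 0x5008c001e04500573020013023000a0114015ca08002008c00140450057202000f02300080114015c60800a8004002a001811bc82))))) 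
(.nd (nat_lit 6) (.nd (nat_lit 8) (.nd (nat_lit 9) 
(.lf (nat_lit 4026744992) (dlOf (nat_lit 2) (nat_lit 0x401a8004ec0800b8008000400200260008090203))) 
(.lf (nat_lit 4160968352) (dlOf (nat_lit 1) (nat_lit 0x4004000200180a9f82)))) 
(.lf (nat_lit 5637359008) (dlOf (nat_lit 1) (nat_lit 0x400280d3601)))) (.nd (nat_lit 8) 
(.lf (nat_lit 3489881312) (dlOf (nat_lit 1) (nat_lit 0x3c001800c501))) 
(.lf (nat_lit 1346587104) (dlOf (nat_lit 1) (nat_lit 0x1c0018fe4e81)))))) (.nd (nat_lit 8) 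
(.nd (nat_lit 7) (.nd (nat_lit 9) (.nd (nat_lit 21) 
(.lf (nat_lit 1812152352) (dlOf (nat_lit 1) (nat_lit 0xc0018160481))) 
(.lf (nat_lit 4095950880) (dlOf (nat_lit 1) (nat_lit 0x4004000200080e0002)))) 
(.lf (nat_lit 3288547872) (dlOf (nat_lit 1) (nat_lit 0x800200180008090d82)))) (.nd (nat_lit 9) 
(.lf (nat_lit 3288547488) (dlOf (nat_lit 2) (nat_lit 0x401a8004b80800b8008000400200260008090203))) 
(.lf (nat_lit 3422770848) (dlOf (nat_lit 1) (nat_lit 0xd600280a9f81))))) (.nd (nat_lit 6) 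
(.nd (nat_lit 7) 
(.lf (nat_lit 3556989216) (dlOf (nat_lit 2) (nat_lit 0xd01f8000a008004000800c00020052000812ab03))) 
(.lf (nat_lit 3422770080) (dlOf (nat_lit 1) (nat_lit 0xc00280a9101)))) (.nd (nat_lit 9) 
(.lf (nat_lit 1543720288) (dlOf (nat_lit 2) (nat_lit 0x100200004c04001000200040008146a82))) 
(.lf (nat_lit 3556988768) (dlOf (nat_lit 1) (nat_lit 0x2002812a301))))))) (.nd (nat_lit 31) 
(.nd (nat_lit 7) (.nd (nat_lit 9) (.nd (nat_lit 20) 
(.lf (nat_lit 1611087904) (dlOf (nat_lit 3) (nat_lit 0x1604e0001b01003a027001880dc0000008016400200b400080d0102))) 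
(.lf (nat_lit 1343701024) (dlOf (nat_lit 1) (nat_lit 0x400028330481)))) 
(.lf (nat_lit 1409761824) (dlOf (nat_lit 1) (nat_lit 0x400400520008090d82)))) (.nd (nat_lit 6) 
(.lf (nat_lit 1409761440) (dlOf (nat_lit 1) (nat_lit 0x8008000400200020008090203))) 
(.nd (nat_lit 9) 
(.lf (nat_lit 6376344032) (dlOf (nat_lit 1) (nat_lit 0x50008002c00200240008094e83))) 
(.lf (nat_lit 5773935584) (dlOf (nat_lit 1) (nat_lit 0x3000280e2881)))))) (.nd (nat_lit 8) 
(.nd (nat_lit 29) (.nd (nat_lit 9) (.nd (nat_lit 20) 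
(.lf (nat_lit 3557244960) (dlOf (nat_lit 1) (nat_lit 0xe0018170181))) 
(.lf (nat_lit 3491184672) (dlOf (nat_lit 1) (nat_lit 0x20018070681)))) 
(.lf (nat_lit 3490660896) (dlOf (nat_lit 1) (nat_lit 0x400400020018017f02)))) (.nd (nat_lit 20) 
(.nd (nat_lit 27) (.lf (nat_lit 3758571552) (dlOf (nat_lit 1) (nat_lit 0x600282b0681))) 
(.lf (nat_lit 3892789280) (dlOf (nat_lit 1) (nat_lit 0x400200020008270682)))) 
(.lf (nat_lit 4095164448) (dlOf (nat_lit 1) (nat_lit 0x80008070181))))) (.nd (nat_lit 6) 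
(.nd (nat_lit 7) 
(.lf (nat_lit 3493282080) (dlOf (nat_lit 2) (nat_lit 0x4038000530200020018104201))) 
(.lf (nat_lit 3490660768) (dlOf (nat_lit 1) (nat_lit 0x400200020008016b82)))) 
(.lf (nat_lit 3492758496) (dlOf (nat_lit 1) (nat_lit 0xf00080004002001a00080f2883))))))))) 
(.nd (nat_lit 18) (.nd (nat_lit 16) (.nd (nat_lit 26) (.nd (nat_lit 6) (.nd (nat_lit 19) 
(.nd (nat_lit 9) (.nd (nat_lit 27) (.nd (nat_lit 28) 
(.lf (nat_lit 2684502056) (dlOf (nat_lit 1) (nat_lit 0x20028080681))) 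
(.lf (nat_lit 4026679336) (dlOf (nat_lit 1) (nat_lit 0x940008030a81)))) (.nd (nat_lit 28) 
(.nd (nat_lit 30) 
(.lf (nat_lit 2281848872) (dlOf (nat_lit 1) (nat_lit 0x10008001000200060008080683))) 
(.lf (nat_lit 3355590696) (dlOf (nat_lit 1) (nat_lit 0xac00280a0001)))) 
(.lf (nat_lit 3624026152) (dlOf (nat_lit 1) (nat_lit 0x4200280b0001))))) (.nd (nat_lit 8) 
(.nd (nat_lit 7) (.lf (nat_lit 58870312) (dlOf (nat_lit 1) (nat_lit 0x3600197e5181))) 
(.lf (nat_lit 8540840) (dlOf (nat_lit 1) (nat_lit 0x400200020008518c82)))) (.nd (nat_lit 10) 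
(.nd (nat_lit 11) 
(.lf (nat_lit 3355595688) (dlOf (nat_lit 1) (nat_lit 0x580080020002002a00080a9103))) 
(.lf (nat_lit 3221380008) (dlOf (nat_lit 1) (nat_lit 0x1800800300020010000811bd03)))) 
(.lf (nat_lit 671238056) (dlOf (nat_lit 2) (nat_lit 0x80900002e040028004000c0008144302)))))) 
(.nd (nat_lit 20) (.nd (nat_lit 7) (.nd (nat_lit 28) 
(.lf (nat_lit 3221897256) (dlOf (nat_lit 10) (nat_lit 0x1cc027001e80d4083004e0416023020e00f81058048000e81813800ac05d205502470190253804402e8014000720a025c05500b4015804d0040000de0c00280200002202009c05600d7029005a00d8000c02001200060001085008c00800007c08031815800e00a4011c036005700880438040000800c0001c0c00e6056008f01b001500c404300560066011016c00800940028000361c04540aa026805100c8027008a8134028c094022a049013201a808a80d0000c04e025e02601150110093807c04b403c01d4010012400300000078126000808c0002084c00081b0503))) 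
(.nd (nat_lit 29) 
(.lf (nat_lit 1342849064) (dlOf (nat_lit 5) (nat_lit 0x708bc002044c000e20e00080d18000382000808bc002044c001420e00060d18000342000888bc003044c001a20e000c0d18000302000808bc002844c001020e000c0d180002c2000500080010002001800080f0a03))) 
(.lf (nat_lit 805978152) (dlOf (nat_lit 8) (nat_lit 0x90084000400e0002b820027007000150080010038000a60400780840003802004804200020070000dc1001001080024018024c000000198300220210005003803000000003206004c0028200c01))))) 
(.nd (nat_lit 8) (.lf (nat_lit 678056) (dlOf (nat_lit 1) (nat_lit 0x1a002800a881))) 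
(.lf (nat_lit 61489576) (dlOf (nat_lit 1) (nat_lit 0x10008001000200080009921003))))) 
(.nd (nat_lit 22) (.nd (nat_lit 24) 
(.lf (nat_lit 3817512) (dlOf (nat_lit 6) (nat_lit 0x931c000c97a0000e04000e4c7000625e8000341000292f40001804001c97a0000b0200044c9000525f800000100048008000800200320008230a03))) 
(.lf (nat_lit 54149160) (dlOf (nat_lit 1) (nat_lit 0x300080010002000c0009630203)))) 
(.nd (nat_lit 21) (.lf (nat_lit 22691880) (dlOf (nat_lit 1) (nat_lit 0x60018b10881))) 
(.lf (nat_lit 24789032) (dlOf (nat_lit 6) (nat_lit 0x15a34001ad06000f5fc00007030006b4a0002da340026d06000d5fc00006840007b4a0004da34001ed0600135fc00006040007b4a0002da34001ed0600135fc00005840003b46800000080080008000400200020008bb0a03))))))) 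
(.nd (nat_lit 10) (.nd (nat_lit 7) (.nd (nat_lit 9) (.nd (nat_lit 19) 
(.lf (nat_lit 24264808) (dlOf (nat_lit 1) (nat_lit 0x80018b91401))) 
(.lf (nat_lit 537542760) (dlOf (nat_lit 1) (nat_lit 0x200280a1401)))) 
(.lf (nat_lit 46811752) (dlOf (nat_lit 2) (nat_lit 0x2a33c800a99880006c08000400400540019385382)))) 
(.nd (nat_lit 8) 
(.lf (nat_lit 671238376) (dlOf (nat_lit 4) (nat_lit 0x8006c00400060001904001a01b000800180006010001000c00010040108002004a0008144b02))) 
(.lf (nat_lit 3221375464) (dlOf (nat_lit 10) (nat_lit 0x5c000005d080802e000002e76040170000017330200cc00000b9901005d000005cc40802e000002e600401700000172f0200b603e00a3381000201f005198080018008000c002002e0008114e83))))) 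
(.nd (nat_lit 8) (.nd (nat_lit 20) (.nd (nat_lit 7) (.nd (nat_lit 9) 
(.lf (nat_lit 9065576) (dlOf (nat_lit 2) (nat_lit 0x7098c000690200060018519401))) 
(.lf (nat_lit 4697769576) (dlOf (nat_lit 1) (nat_lit 0x3400400040008093902)))) 
(.lf (nat_lit 134368488) (dlOf (nat_lit 1) (nat_lit 0x20028006501)))) (.nd (nat_lit 22) 
(.lf (nat_lit 1880245352) (dlOf (nat_lit 2) (nat_lit 0x80e200015018802980))) 
(.lf (nat_lit 38945896) (dlOf (nat_lit 1) (nat_lit 0x38008001c00200080009192983))))) 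
(.nd (nat_lit 7) (.nd (nat_lit 11) 
(.lf (nat_lit 1611285864) (dlOf (nat_lit 1) (nat_lit 0x3a0008123481))) 
(.lf (nat_lit 3221376360) (dlOf (nat_lit 6) (nat_lit 0x6701f0000880802d80f80004204023c0000000e0200b40000000681002c00000000c0800f00080030002005a0008116a83)))) 
(.lf (nat_lit 6442600424) (dlOf (nat_lit 2) (nat_lit 0xc4068000e03200080178000c81800c8008000c002001000080f4603))))))) 
(.nd (nat_lit 28) (.nd (nat_lit 27) (.nd (nat_lit 31) (.nd (nat_lit 29) (.nd (nat_lit 6) 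
(.lf (nat_lit 67256360) (dlOf (nat_lit 1) (nat_lit 0x20018080601))) 
(.lf (nat_lit 4362223976) (dlOf (nat_lit 1) (nat_lit 0x400400020018015202)))) (.nd (nat_lit 19) 
(.lf (nat_lit 604127272) (dlOf (nat_lit 1) (nat_lit 0x80018030301))) 
(.lf (nat_lit 1678393384) (dlOf (nat_lit 2) (nat_lit 0x2a8038000a804004800200420008200d02))))) 
(.nd (nat_lit 11) (.nd (nat_lit 30) 
(.lf (nat_lit 2214740008) (dlOf (nat_lit 2) (nat_lit 0x20030001440800b8008005c00200180008080683))) 
(.lf (nat_lit 3288481832) (dlOf (nat_lit 1) (nat_lit 0x940008030a81)))) (.nd (nat_lit 7) 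
(.lf (nat_lit 6509710888) (dlOf (nat_lit 1) (nat_lit 0x400200020008147182))) 
(.lf (nat_lit 6509709736) (dlOf (nat_lit 1) (nat_lit 0x580018144e81)))))) (.nd (nat_lit 29) 
(.nd (nat_lit 30) (.lf (nat_lit 2348957736) (dlOf (nat_lit 1) (nat_lit 0x400400020008060582))) 
(.lf (nat_lit 3422699560) (dlOf (nat_lit 1) (nat_lit 0xc00200100008060682)))) (.nd (nat_lit 9) 
(.nd (nat_lit 19) (.lf (nat_lit 2885828648) (dlOf (nat_lit 1) (nat_lit 0x2c002000200080b0002))) 
(.lf (nat_lit 3960094760) (dlOf (nat_lit 10) (nat_lit 0x1cc027001e80d4083004e0416023020e00f81058048000e81813800ac05d205502470190253804402e8014000720a025c05500b4015804d0040000de0c00280200002202009c05600d7029005a00d8000c02001200060001085008c00800007c08031815800e00a4011c036005700880438040000800c0001c0c00e6056008f01b001500c404300560066011016c00800940028000361c04540aa026805100c8027008a8134028c094022a049013201a808a80d0000c04e025e02601150110093807c04b403c01d4010012400300000078126000808c0002084c00081b0503))))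 
(.lf (nat_lit 3959577128) (dlOf (nat_lit 5) (nat_lit 0x405e00bf902000202f005f9010007017802fc40800680bc0163a0400040020008000811b282)))))) 
(.nd (nat_lit 7) (.nd (nat_lit 9) (.nd (nat_lit 19) (.nd (nat_lit 8) 
(.lf (nat_lit 2483175464) (dlOf (nat_lit 1) (nat_lit 0x400400020008060582))) 
(.lf (nat_lit 2080523560) (dlOf (nat_lit 1) (nat_lit 0x400200020008093182)))) (.nd (nat_lit 29) 
(.lf (nat_lit 470433832) (dlOf (nat_lit 5) (nat_lit 0x708bc002044c000e20c00080d98000382000808bc002044c001420c00060d98000342000888bc003044c001a20c000c0d98000302000808bc002844c001020c000c0d980002c2000500080010002001800080f0a03))) 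
(.lf (nat_lit 3154788392) (dlOf (nat_lit 2) (nat_lit 0x18066001690200020028320d81))))) 
(.nd (nat_lit 6) (.nd (nat_lit 11) 
(.lf (nat_lit 473580072) (dlOf (nat_lit 1) (nat_lit 0x3a0008f68881))) 
(.lf (nat_lit 6376540712) (dlOf (nat_lit 1) (nat_lit 0x900028095181)))) 
(.lf (nat_lit 2617398120) (dlOf (nat_lit 1) (nat_lit 0x400080a8f81))))) (.nd (nat_lit 6) 
(.nd (nat_lit 8) (.lf (nat_lit 6377062568) (dlOf (nat_lit 1) (nat_lit 0x4004002600080a2c02))) 
(.nd (nat_lit 21) (.lf (nat_lit 4093790632) (dlOf (nat_lit 1) (nat_lit 0xc00400020018004e82))) 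
(.lf (nat_lit 6377589160) (dlOf (nat_lit 1) (nat_lit 0x18004000200180e4e82))))) (.nd (nat_lit 8) 
(.lf (nat_lit 1543654632) (dlOf (nat_lit 2) (nat_lit 0x60128000800800400080004002000e0008146503))) 
(.lf (nat_lit 6241274344) (dlOf (nat_lit 1) (nat_lit 0x4004000200080d4e82)))))))) (.nd (nat_lit 6) 
(.nd (nat_lit 30) (.nd (nat_lit 23) (.nd (nat_lit 7) (.nd (nat_lit 26) (.nd (nat_lit 21) 
(.lf (nat_lit 939737128) (dlOf (nat_lit 2) (nat_lit 0x300e000274080118008000c002000e0008160503))) 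
(.lf (nat_lit 52641832) (dlOf (nat_lit 1) (nat_lit 0x7c00400200009560802)))) (.nd (nat_lit 8) 
(.lf (nat_lit 4362289192) (dlOf (nat_lit 3) (nat_lit 0xe056000702a000380ac002c050000210800100560007018800280ac0003a0c0034004000a0018020582))) 
(.lf (nat_lit 1006846248) (dlOf (nat_lit 1) (nat_lit 0x200280c0501))))) (.nd (nat_lit 8) 
(.lf (nat_lit 3358888) (dlOf (nat_lit 1) (nat_lit 0x20018200281))) (.nd (nat_lit 19) 
(.lf (nat_lit 1261992) (dlOf (nat_lit 1) (nat_lit 0x7a0004033e00080a6e82))) 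
(.lf (nat_lit 738935208) (dlOf (nat_lit 1) (nat_lit 0x8008000400200020008156e83)))))) 
(.nd (nat_lit 22) (.nd (nat_lit 19) 
(.lf (nat_lit 25378856) (dlOf (nat_lit 1) (nat_lit 0x400400020008c00502))) 
(.lf (nat_lit 9125928) (dlOf (nat_lit 1) (nat_lit 0x400400020008520a02)))) (.nd (nat_lit 24) 
(.lf (nat_lit 12795944) (dlOf (nat_lit 1) (nat_lit 0x1400086e0a01))) (.nd (nat_lit 25) 
(.lf (nat_lit 29573160) (dlOf (nat_lit 1) (nat_lit 0xc0028e20801))) 
(.lf (nat_lit 63127592) (dlOf (nat_lit 1) (nat_lit 0x18004000800199e0202))))))) (.nd (nat_lit 31) 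
(.nd (nat_lit 8) (.nd (nat_lit 19) (.nd (nat_lit 26) 
(.lf (nat_lit 1476608040) (dlOf (nat_lit 4) (nat_lit 0x808a0006602004a045000308100040228000840802a000801d000200e000080a0683))) 
(.lf (nat_lit 1812152360) (dlOf (nat_lit 2) (nat_lit 0x300e00011c080118008000c002000e0008160503)))) 
(.lf (nat_lit 5773148200) (dlOf (nat_lit 1) (nat_lit 0x200280a0a01)))) (.nd (nat_lit 10) 
(.lf (nat_lit 1879261480) (dlOf (nat_lit 1) (nat_lit 0x200280c0501))) 
(.lf (nat_lit 5368923432) (dlOf (nat_lit 2) (nat_lit 0x3004c0002c040098002000c0008093182))))) 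
(.nd (nat_lit 7) (.nd (nat_lit 10) 
(.lf (nat_lit 4228071464) (dlOf (nat_lit 3) (nat_lit 0xe04f0007026800580b8001c0540002108001004f0007018000280a80003a0c0034004000a0018020582))) 
(.lf (nat_lit 3490401320) (dlOf (nat_lit 1) (nat_lit 0x180008006081)))) (.nd (nat_lit 9) 
(.nd (nat_lit 26) (.lf (nat_lit 4026745000) (dlOf (nat_lit 1) (nat_lit 0x5c00200540008090282))) 
(.lf (nat_lit 3288547496) (dlOf (nat_lit 1) (nat_lit 0x5c00200540008090282)))) 
(.lf (nat_lit 3556988584) (dlOf (nat_lit 1) (nat_lit 0x6001812a001))))))) (.nd (nat_lit 7) 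
(.nd (nat_lit 8) (.nd (nat_lit 24) (.nd (nat_lit 9) (.nd (nat_lit 10) 
(.lf (nat_lit 472596584) (dlOf (nat_lit 3) (nat_lit 0x402c000120d9006f04e0035023401b00fa0000e0a00a8160006904e00308234000000c0158004001800089c0982))) 
(.lf (nat_lit 1344488552) (dlOf (nat_lit 2) (nat_lit 0x142d00002a0200280028802981)))) 
(.lf (nat_lit 3154334312) (dlOf (nat_lit 1) (nat_lit 0x180028158981)))) (.nd (nat_lit 10) 
(.nd (nat_lit 21) (.lf (nat_lit 63127656) (dlOf (nat_lit 1) (nat_lit 0x4002000200099e0982))) 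
(.lf (nat_lit 56836200) (dlOf (nat_lit 1) (nat_lit 0x20019770981)))) 
(.lf (nat_lit 20141160) (dlOf (nat_lit 3) (nat_lit 0x48000000b80400280000004302000600189d9401))))) 
(.nd (nat_lit 11) (.nd (nat_lit 21) (.nd (nat_lit 22) 
(.lf (nat_lit 3087221096) (dlOf (nat_lit 1) (nat_lit 0x400200020008155202))) 
(.lf (nat_lit 3494068584) (dlOf (nat_lit 2) (nat_lit 0x104040002502000400181b0701)))) 
(.lf (nat_lit 2310504) (dlOf (nat_lit 2) (nat_lit 0xb8580003204000c00200040008150702)))) 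
(.nd (nat_lit 9) (.lf (nat_lit 3489877352) (dlOf (nat_lit 1) (nat_lit 0x400200020008006a82))) 
(.lf (nat_lit 3221445480) (dlOf (nat_lit 1) (nat_lit 0x2000800200020002000811bc83)))))) 
(.nd (nat_lit 8) (.nd (nat_lit 11) (.nd (nat_lit 9) (.nd (nat_lit 12) 
(.lf (nat_lit 9126120) (dlOf (nat_lit 1) (nat_lit 0x40018524301))) 
(.lf (nat_lit 3556987112) (dlOf (nat_lit 1) (nat_lit 0x8008000400200020008128083)))) 
(.lf (nat_lit 8606440) (dlOf (nat_lit 2) (nat_lit 0xca140001f0200020018518d81)))) (.nd (nat_lit 10) 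
(.lf (nat_lit 671303912) (dlOf (nat_lit 3) (nat_lit 0xc02c0000c81000a016000060080048008005400200300008144b03))) 
(.lf (nat_lit 2754825448) (dlOf (nat_lit 2) (nat_lit 0x4703c8000d40800180080110002011a00080f6503))))) 
(.nd (nat_lit 29) (.nd (nat_lit 10) (.nd (nat_lit 11) 
(.lf (nat_lit 23282152) (dlOf (nat_lit 1) (nat_lit 0x8008000800200020008b80c83))) 
(.lf (nat_lit 1346587112) (dlOf (nat_lit 1) (nat_lit 0x400400020008fe4e82)))) 
(.lf (nat_lit 53167592) (dlOf (nat_lit 1) (nat_lit 0x2a0029573601)))) (.nd (nat_lit 9) 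
(.nd (nat_lit 10) 
(.lf (nat_lit 2818789864) (dlOf (nat_lit 1) (nat_lit 0x8008000400200020008128683))) 
(.lf (nat_lit 1880835560) (dlOf (nat_lit 1) (nat_lit 0x8008000400200060008bb3603)))) 
(.lf (nat_lit 738413544) (dlOf (nat_lit 1) (nat_lit 0x400200020008095e82))))))))) (.nd (nat_lit 6) 
(.nd (nat_lit 20) (.nd (nat_lit 26) (.nd (nat_lit 19) (.nd (nat_lit 16) (.nd (nat_lit 29) 
(.nd (nat_lit 22) (.lf (nat_lit 3355852840) (dlOf (nat_lit 2) (nat_lit 0xba02e00027818130600))) 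
(.lf (nat_lit 12992552) (dlOf (nat_lit 1) (nat_lit 0x800286f0a01)))) (.nd (nat_lit 28) 
(.lf (nat_lit 5905989672) (dlOf (nat_lit 1) (nat_lit 0x400400020008180582))) 
(.lf (nat_lit 4026941480) (dlOf (nat_lit 1) (nat_lit 0x200280d0981))))) (.nd (nat_lit 8) 
(.nd (nat_lit 22) 
(.lf (nat_lit 3492233256) (dlOf (nat_lit 2) (nat_lit 0x208d000064040044004000600080b0c82))) 
(.lf (nat_lit 15155240) (dlOf (nat_lit 2) (nat_lit 0x240000002f8187c0680)))) 
(.lf (nat_lit 5771840296) (dlOf (nat_lit 1) (nat_lit 0x400400020008005c02))))) (.nd (nat_lit 23) 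
(.nd (nat_lit 28) (.nd (nat_lit 24) (.nd (nat_lit 29) 
(.lf (nat_lit 933928) (dlOf (nat_lit 1) (nat_lit 0x3400400020008040582))) 
(.lf (nat_lit 537804840) (dlOf (nat_lit 1) (nat_lit 0x800281b0001)))) 
(.lf (nat_lit 17711144) (dlOf (nat_lit 1) (nat_lit 0x1000288f0d81)))) (.nd (nat_lit 8) 
(.lf (nat_lit 1879982120) (dlOf (nat_lit 1) (nat_lit 0xa00184a0901))) 
(.lf (nat_lit 5772297512) (dlOf (nat_lit 1) (nat_lit 0x400200020008093182))))) (.nd (nat_lit 7) 
(.lf (nat_lit 42876968) (dlOf (nat_lit 1) (nat_lit 0x8008000400200020009280203))) 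
(.lf (nat_lit 47071400) (dlOf (nat_lit 1) (nat_lit 0xc00400060009392c02)))))) (.nd (nat_lit 28) 
(.nd (nat_lit 16) (.nd (nat_lit 7) (.nd (nat_lit 30) 
(.lf (nat_lit 6509969448) (dlOf (nat_lit 1) (nat_lit 0x400400020008180582))) 
(.lf (nat_lit 3288743976) (dlOf (nat_lit 1) (nat_lit 0x200280d0981)))) 
(.lf (nat_lit 69616040) (dlOf (nat_lit 1) (nat_lit 0x400400020008b76e82)))) (.nd (nat_lit 8) 
(.nd (nat_lit 10) 
(.lf (nat_lit 2754035752) (dlOf (nat_lit 2) (nat_lit 0x2093000034040044004000600080b0c82))) 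
(.lf (nat_lit 604455976) (dlOf (nat_lit 1) (nat_lit 0x400182d2881)))) 
(.lf (nat_lit 2754566952) (dlOf (nat_lit 2) (nat_lit 0x401e400200de0055104002e00180fbc81))))) 
(.nd (nat_lit 27) (.nd (nat_lit 29) 
(.lf (nat_lit 3557179432) (dlOf (nat_lit 1) (nat_lit 0x3c00400580008140902))) 
(.lf (nat_lit 1946566696) (dlOf (nat_lit 2) (nat_lit 0x2029000110180c0c00)))) (.nd (nat_lit 19) 
(.lf (nat_lit 3154526248) (dlOf (nat_lit 4) (nat_lit 0x1a80c800ca060020302d0044016401fc0aa005c04d00b701a005280bc00d005c00ca028008600a00f2000c00c80040005f1a003e02c000220100900160000fc080fe80080200002006600081f0683))) 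
(.lf (nat_lit 1007566888) (dlOf (nat_lit 1) (nat_lit 0xa00184a0901))))))) (.nd (nat_lit 16) 
(.nd (nat_lit 19) (.nd (nat_lit 22) (.nd (nat_lit 21) (.nd (nat_lit 26) 
(.lf (nat_lit 3491119144) (dlOf (nat_lit 3) (nat_lit 0xc81ec000a6040004180000490200040008060581))) 
(.lf (nat_lit 2752921640) (dlOf (nat_lit 3) (nat_lit 0xc81e4000a6040004164000490200040008060581)))) 
(.lf (nat_lit 37109800) (dlOf (nat_lit 1) (nat_lit 0x400290a0801)))) (.nd (nat_lit 8) 
(.nd (nat_lit 21) 
(.lf (nat_lit 22429736) (dlOf (nat_lit 3) (nat_lit 0x4e4c40000a808024291c0003a04002400400040008ae0582))) 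
(.lf (nat_lit 24526888) (dlOf (nat_lit 1) (nat_lit 0x8008000400200020008ba0a03)))) 
(.lf (nat_lit 14041384) (dlOf (nat_lit 1) (nat_lit 0x400400020008750702))))) (.nd (nat_lit 8) 
(.nd (nat_lit 22) 
(.lf (nat_lit 10371112) (dlOf (nat_lit 2) (nat_lit 0x674500053860000841000080080014002000a00085d0583))) 
(.lf (nat_lit 22954024) (dlOf (nat_lit 1) (nat_lit 0x5000800d400200060008b40683)))) 
(.nd (nat_lit 7) (.lf (nat_lit 54414120) (dlOf (nat_lit 1) (nat_lit 0x18008000400200040009655c03))) 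
(.lf (nat_lit 43925928) (dlOf (nat_lit 1) (nat_lit 0x1a00192a1001)))))) (.nd (nat_lit 21) 
(.nd (nat_lit 22) (.nd (nat_lit 28) (.nd (nat_lit 23) 
(.lf (nat_lit 35078184) (dlOf (nat_lit 1) (nat_lit 0x40008fd0201))) 
(.lf (nat_lit 9912360) (dlOf (nat_lit 1) (nat_lit 0x20028590981)))) (.nd (nat_lit 26) 
(.lf (nat_lit 1343701032) (dlOf (nat_lit 1) (nat_lit 0x1000400020018330602))) 
(.lf (nat_lit 4095164456) (dlOf (nat_lit 1) (nat_lit 0x670008020000201ae0008070383))))) 
(.nd (nat_lit 7) 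
(.lf (nat_lit 23019560) (dlOf (nat_lit 2) (nat_lit 0x118000000ac04001c002000e0008b40682))) 
(.lf (nat_lit 47662248) (dlOf (nat_lit 1) (nat_lit 0x20029402c01))))) (.nd (nat_lit 11) 
(.nd (nat_lit 7) (.lf (nat_lit 3620904) (dlOf (nat_lit 1) (nat_lit 0x30002001a0008210902))) 
(.lf (nat_lit 8344232) (dlOf (nat_lit 1) (nat_lit 0x400200020008518c82)))) (.nd (nat_lit 8) 
(.lf (nat_lit 1346325032) (dlOf (nat_lit 3) (nat_lit 0x5059c00402cc001c01b000f00d00022820004059c000c2cc000e01b000600d000220200020008007800200220008f05183))) 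
(.lf (nat_lit 20400936) (dlOf (nat_lit 1) (nat_lit 0x200189d5c01)))))))) (.nd (nat_lit 7) 
(.nd (nat_lit 19) (.nd (nat_lit 16) (.nd (nat_lit 21) (.nd (nat_lit 26) 
(.lf (nat_lit 5637554280) (dlOf (nat_lit 1) (nat_lit 0x78008002800200120008100783))) 
(.lf (nat_lit 6241534056) (dlOf (nat_lit 1) (nat_lit 0x78008002800200120008100783)))) 
(.nd (nat_lit 8) (.lf (nat_lit 48644200) (dlOf (nat_lit 2) (nat_lit 0x16d5800009819420980))) 
(.lf (nat_lit 5773870440) (dlOf (nat_lit 1) (nat_lit 0xc00180e3481))))) (.nd (nat_lit 22) 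
(.nd (nat_lit 21) (.nd (nat_lit 26) 
(.lf (nat_lit 1611087976) (dlOf (nat_lit 3) (nat_lit 0xc0570071881000802b8038c00800080080014002001400080d0783))) 
(.lf (nat_lit 738672744) (dlOf (nat_lit 3) (nat_lit 0xc0570040601000802b80202c0800080080014002001400080d0783)))) 
(.lf (nat_lit 1009205352) (dlOf (nat_lit 1) (nat_lit 0x200290a0981)))) (.nd (nat_lit 9) 
(.lf (nat_lit 21446760) (dlOf (nat_lit 1) (nat_lit 0x700080054002002e0008a40783))) 
(.lf (nat_lit 46615144) (dlOf (nat_lit 1) (nat_lit 0x260029385381)))))) (.nd (nat_lit 8) 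
(.nd (nat_lit 20) (.nd (nat_lit 10) 
(.lf (nat_lit 19877992) (dlOf (nat_lit 1) (nat_lit 0x4002000200089d7d82))) 
(.lf (nat_lit 34554984) (dlOf (nat_lit 1) (nat_lit 0x1000400060008fb2982)))) (.nd (nat_lit 16) 
(.lf (nat_lit 20856936) (dlOf (nat_lit 1) (nat_lit 0x200189e1981))) 
(.lf (nat_lit 69156968) (dlOf (nat_lit 1) (nat_lit 0x4004000200088c0982))))) (.nd (nat_lit 21) 
(.nd (nat_lit 26) (.lf (nat_lit 5772296552) (dlOf (nat_lit 1) (nat_lit 0x20018090f01))) 
(.lf (nat_lit 2752397672) (dlOf (nat_lit 2) (nat_lit 0x1412380296c080090008009c00200440008015203)))) 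
(.nd (nat_lit 9) (.nd (nat_lit 10) 
(.lf (nat_lit 12468584) (dlOf (nat_lit 1) (nat_lit 0x14600086c0701))) 
(.lf (nat_lit 472794472) (dlOf (nat_lit 2) (nat_lit 0x150b28000d4080040008003000200080008b03483)))) 
(.lf (nat_lit 19811176) (dlOf (nat_lit 1) (nat_lit 0x4002000200089d5c02))))))) (.nd (nat_lit 8) 
(.nd (nat_lit 10) (.nd (nat_lit 16) (.nd (nat_lit 19) 
(.lf (nat_lit 19284200) (dlOf (nat_lit 1) (nat_lit 0x8008002000200100008970603))) (.nd (nat_lit 21) 
(.lf (nat_lit 6376276200) (dlOf (nat_lit 1) (nat_lit 0x40002001c0008090a82))) 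
(.lf (nat_lit 19808488) (dlOf (nat_lit 1) (nat_lit 0x810008000400200fe00089d0a83))))) 
(.nd (nat_lit 12) 
(.lf (nat_lit 6376341736) (dlOf (nat_lit 9) (nat_lit 0x4fd098828f048814c0242001610601fe13003dc097803184b8002424000080a9001205000b600000017a1c13702400009d0206281200004c010198097824104800011c080020240000870202641200001601001d090800584800004808006c004006c0018090a82))) 
(.lf (nat_lit 19878120) (dlOf (nat_lit 1) (nat_lit 0x4004000400189d8082))))) (.nd (nat_lit 9) 
(.nd (nat_lit 11) (.lf (nat_lit 5772362984) (dlOf (nat_lit 1) (nat_lit 0x60008092e01))) 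
(.lf (nat_lit 2755022056) (dlOf (nat_lit 2) (nat_lit 0x181740005a040178002000e00080f6502)))) 
(.nd (nat_lit 16) (.lf (nat_lit 3492693736) (dlOf (nat_lit 1) (nat_lit 0x200080f3b01))) 
(.lf (nat_lit 476904) (dlOf (nat_lit 1) (nat_lit 0x20028003b01)))))) (.nd (nat_lit 10) 
(.nd (nat_lit 16) (.nd (nat_lit 9) (.nd (nat_lit 26) 
(.lf (nat_lit 3490595304) (dlOf (nat_lit 2) (nat_lit 0x641e600011018017300))) 
(.lf (nat_lit 2752397800) (dlOf (nat_lit 1) (nat_lit 0x80018017d01)))) 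
(.lf (nat_lit 3492692968) (dlOf (nat_lit 1) (nat_lit 0x200080f2881)))) (.nd (nat_lit 11) 
(.lf (nat_lit 3490660840) (dlOf (nat_lit 3) (nat_lit 0x58798000440400143cc0001e0200040018017301))) 
(.nd (nat_lit 19) 
(.lf (nat_lit 604457448) (dlOf (nat_lit 1) (nat_lit 0x80080004002000200082d4e83))) 
(.lf (nat_lit 6376344040) (dlOf (nat_lit 1) (nat_lit 0x35800800e0002012c0008094e83)))))) 
(.nd (nat_lit 9) (.nd (nat_lit 12) 
(.lf (nat_lit 52839912) (dlOf (nat_lit 1) (nat_lit 0x10008000400200020009573603))) 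
(.lf (nat_lit 8279528) (dlOf (nat_lit 1) (nat_lit 0xa40018519b81)))) (.nd (nat_lit 16) 
(.nd (nat_lit 19) (.lf (nat_lit 8800232) (dlOf (nat_lit 2) (nat_lit 0x5d6d00019018514600))) 
(.lf (nat_lit 3492693992) (dlOf (nat_lit 1) (nat_lit 0x1c00180f4601)))) 
(.lf (nat_lit 477160) (dlOf (nat_lit 1) (nat_lit 0x240008004601))))))))))))

end

end Pool.Agent.Lib.MP_5854e1_co.Cz

namespace Pool.Agent.Lib.MP_5854e1_co.Cz

noncomputable section

noncomputable def tz66 : DT := (.nd (nat_lit 3) (.nd (nat_lit 17) (.nd (nat_lit 5) (.nd (nat_lit 6) 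
(.nd (nat_lit 18) (.nd (nat_lit 19) (.nd (nat_lit 7) (.nd (nat_lit 22) (.nd (nat_lit 8) 
(.nd (nat_lit 10) (.lf (nat_lit 470827009) (dlOf (nat_lit 1) (nat_lit 0xa00281c0001))) 
(.lf (nat_lit 469783553) (dlOf (nat_lit 2) (nat_lit 0x40470028c00800b8008000400200120008009203)))) 
(.nd (nat_lit 9) (.lf (nat_lit 2751482113) (dlOf (nat_lit 1) (nat_lit 0x1260008004b81))) 
(.lf (nat_lit 5167401729) (dlOf (nat_lit 1) (nat_lit 0x1e0018005a81))))) (.nd (nat_lit 20) 
(.nd (nat_lit 21) (.lf (nat_lit 12599297) (dlOf (nat_lit 1) (nat_lit 0x200186d0001))) 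
(.lf (nat_lit 14696449) (dlOf (nat_lit 1) (nat_lit 0x8008000400200020008770003)))) (.nd (nat_lit 8) 
(.lf (nat_lit 22036481) (dlOf (nat_lit 1) (nat_lit 0x8008000400200020008a90003))) 
(.lf (nat_lit 40911105) (dlOf (nat_lit 1) (nat_lit 0x1000400020009203582)))))) (.nd (nat_lit 10) 
(.nd (nat_lit 20) (.nd (nat_lit 27) 
(.lf (nat_lit 3489679745) (dlOf (nat_lit 1) (nat_lit 0x30008004c00200080008004e83))) 
(.lf (nat_lit 5771381121) (dlOf (nat_lit 2) (nat_lit 0x340280012013003858100478008009c00200020008004e83)))) 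
(.nd (nat_lit 8) (.lf (nat_lit 24133761) (dlOf (nat_lit 1) (nat_lit 0x8008000400200020008b80103))) 
(.lf (nat_lit 6376409473) (dlOf (nat_lit 1) (nat_lit 0x800400020018094e82))))) (.nd (nat_lit 12) 
(.nd (nat_lit 9) 
(.lf (nat_lit 3288353921) (dlOf (nat_lit 1) (nat_lit 0x1280080050002001a0008006103))) 
(.lf (nat_lit 6106924673) (dlOf (nat_lit 1) (nat_lit 0x400200020008003982)))) (.nd (nat_lit 26) 
(.lf (nat_lit 3355465345) (dlOf (nat_lit 2) (nat_lit 0xee0320003d818009d80))) 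
(.lf (nat_lit 2617267841) (dlOf (nat_lit 2) (nat_lit 0x15802f004b017000180a4012c024000601100600018001ec300118008008400200040008009d83))))))) 
(.nd (nat_lit 21) (.nd (nat_lit 29) (.nd (nat_lit 24) (.nd (nat_lit 22) 
(.lf (nat_lit 3624419329) (dlOf (nat_lit 1) (nat_lit 0x3000081a0001))) 
(.lf (nat_lit 13123585) (dlOf (nat_lit 1) (nat_lit 0x10008001000200040008700003)))) 
(.nd (nat_lit 7) 
(.lf (nat_lit 55066625) (dlOf (nat_lit 5) (nat_lit 0x1898800024bc000625d0064581800093180322a04004898c000c4c4000125e000212e8001894e000649500c3806000a263000412f0030de080018002001800096a0002))) 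
(.lf (nat_lit 56117633) (dlOf (nat_lit 1) (nat_lit 0x40009734e81))))) (.nd (nat_lit 8) 
(.nd (nat_lit 26) 
(.lf (nat_lit 805847041) (dlOf (nat_lit 2) (nat_lit 0x7000001a3402001200081c0001))) 
(.nd (nat_lit 27) 
(.lf (nat_lit 1678262273) (dlOf (nat_lit 2) (nat_lit 0x7000001d9902001200081c0001))) 
(.lf (nat_lit 2886221825) (dlOf (nat_lit 1) (nat_lit 0x3000081a0001))))) 
(.lf (nat_lit 604520705) (dlOf (nat_lit 1) (nat_lit 0x15c00082e3581))))) (.nd (nat_lit 22) 
(.nd (nat_lit 7) (.lf (nat_lit 37240833) (dlOf (nat_lit 1) (nat_lit 0x200190c0001))) 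
(.nd (nat_lit 23) 
(.lf (nat_lit 1009272449) (dlOf (nat_lit 3) (nat_lit 0x50158002c0a60010050000a02680040028000ac14001c0ac001405300090280005013400026100028002000800090e3982))) 
(.lf (nat_lit 61359745) (dlOf (nat_lit 4) (nat_lit 0x2f52d8011a96400b94a2003ea4f002151e000f28e800794540048a2800044be000225dc000ac2800bd4b60046a3c002451500014c18014a96c007d4b2003ca4f001751d000f28a00002614002c002000a0009923982))))) 
(.nd (nat_lit 7) 
(.lf (nat_lit 48775169) (dlOf (nat_lit 2) (nat_lit 0x6840400fe004000c00200300009420002))) 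
(.nd (nat_lit 8) (.lf (nat_lit 23609473) (dlOf (nat_lit 1) (nat_lit 0x8008000400200020008b80103))) 
(.lf (nat_lit 57166209) (dlOf (nat_lit 1) (nat_lit 0x20009794e81)))))))) (.nd (nat_lit 28) 
(.nd (nat_lit 20) (.nd (nat_lit 7) (.nd (nat_lit 26) (.nd (nat_lit 21) 
(.lf (nat_lit 6442729473) (dlOf (nat_lit 1) (nat_lit 0x7200081a0001))) 
(.lf (nat_lit 44318721) (dlOf (nat_lit 3) (nat_lit 0x10c7c000862700e3182000131f006f580800d00080014002000c00092f0003)))) 
(.nd (nat_lit 31) (.lf (nat_lit 67387393) (dlOf (nat_lit 1) (nat_lit 0x80080024002001e00080f0003))) 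
(.lf (nat_lit 2214871041) (dlOf (nat_lit 1) (nat_lit 0x2400080e0001))))) (.nd (nat_lit 9) 
(.nd (nat_lit 21) (.lf (nat_lit 51134593) (dlOf (nat_lit 1) (nat_lit 0x20029503a01))) 
(.lf (nat_lit 23871617) (dlOf (nat_lit 1) (nat_lit 0x20018b80101)))) 
(.lf (nat_lit 52708993) (dlOf (nat_lit 1) (nat_lit 0x400009573981))))) (.nd (nat_lit 19) 
(.nd (nat_lit 7) (.nd (nat_lit 9) 
(.lf (nat_lit 1327105) (dlOf (nat_lit 1) (nat_lit 0x74002025400080b0002))) 
(.lf (nat_lit 41173505) (dlOf (nat_lit 1) (nat_lit 0x400400020009227b02)))) 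
(.lf (nat_lit 11812993) (dlOf (nat_lit 1) (nat_lit 0x8002000200086c0102)))) (.nd (nat_lit 7) 
(.nd (nat_lit 23) (.lf (nat_lit 1851393) (dlOf (nat_lit 1) (nat_lit 0x20018150001))) 
(.lf (nat_lit 27017217) (dlOf (nat_lit 1) (nat_lit 0x40018ca0001)))) 
(.lf (nat_lit 8148865) (dlOf (nat_lit 1) (nat_lit 0x40020002000851a302)))))) (.nd (nat_lit 26) 
(.nd (nat_lit 20) (.nd (nat_lit 29) (.nd (nat_lit 27) (.nd (nat_lit 30) 
(.lf (nat_lit 4563681281) (dlOf (nat_lit 5) (nat_lit 0x8024017b002010403300b9c010084019805cb80800080cc0286e04001c004006600080c0002))) 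
(.lf (nat_lit 1342455809) (dlOf (nat_lit 2) (nat_lit 0x224700e54018030000)))) 
(.lf (nat_lit 4697899009) (dlOf (nat_lit 5) (nat_lit 0x802401b1b02010403300aed0100840198057400800080cc0284e04001c004006600080c0002)))) 
(.nd (nat_lit 7) 
(.lf (nat_lit 1879326721) (dlOf (nat_lit 5) (nat_lit 0x40ae0002054000602880018138030bc1000140ae000a055000702a00020144001809c0185d0a0016057000602a00038144001c09c0185b08000c057000702a00048144002009c0185908000a00080e0001))) 
(.lf (nat_lit 1881426305) (dlOf (nat_lit 1) (nat_lit 0x300080020002002a0008f04e83))))) 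
(.nd (nat_lit 19) (.lf (nat_lit 1343504385) (dlOf (nat_lit 1) (nat_lit 0x3000400080008280002))) 
(.nd (nat_lit 21) 
(.lf (nat_lit 5773213697) (dlOf (nat_lit 8) (nat_lit 0x4612f0065f8100080978032f40801084bc0197804000425e00cb30200a412f006558100750978032a80800084bc0194c040010004000400080b0002))) 
(.lf (nat_lit 1346125825) (dlOf (nat_lit 1) (nat_lit 0x120028e60001)))))) (.nd (nat_lit 29) 
(.nd (nat_lit 20) (.nd (nat_lit 30) 
(.lf (nat_lit 470040577) (dlOf (nat_lit 2) (nat_lit 0x224700ca1818030000))) 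
(.lf (nat_lit 5838749697) (dlOf (nat_lit 1) (nat_lit 0x7200081a0001)))) 
(.lf (nat_lit 471089153) (dlOf (nat_lit 1) (nat_lit 0x1020008270001)))) (.nd (nat_lit 8) 
(.nd (nat_lit 19) 
(.lf (nat_lit 1006911489) (dlOf (nat_lit 5) (nat_lit 0x40ae0002054000602880018138037561000140ae000a055000702a00020144001809c01baa0a0016057000602a00038144001c09c01ba808000c057000702a00048144002009c01ba608000a00080e0001))) 
(.lf (nat_lit 6377193473) (dlOf (nat_lit 8) (nat_lit 0x461200038a810008090001c5008010848000e26040004240007060200a412000381810075090001c0408000848000dfe040010004000400080b0002)))) 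
(.nd (nat_lit 19) (.lf (nat_lit 3154395393) (dlOf (nat_lit 1) (nat_lit 0x400200020008160702))) 
(.lf (nat_lit 4094443777) (dlOf (nat_lit 1) (nat_lit 0x400400020008050a82))))))))) (.nd (nat_lit 8) 
(.nd (nat_lit 19) (.nd (nat_lit 9) (.nd (nat_lit 18) (.nd (nat_lit 10) (.nd (nat_lit 7) 
(.nd (nat_lit 21) (.lf (nat_lit 12599361) (dlOf (nat_lit 1) (nat_lit 0x200286d0d01))) 
(.lf (nat_lit 52445249) (dlOf (nat_lit 1) (nat_lit 0x400200020009530602)))) 
(.lf (nat_lit 24133825) (dlOf (nat_lit 1) (nat_lit 0x38008000400200080008b80403)))) 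
(.nd (nat_lit 7) (.nd (nat_lit 11) 
(.lf (nat_lit 604001345) (dlOf (nat_lit 1) (nat_lit 0x8008000400200020008009283))) 
(.lf (nat_lit 469785665) (dlOf (nat_lit 2) (nat_lit 0x1027400a2404004c0020010000800bf02)))) 
(.lf (nat_lit 134237377) (dlOf (nat_lit 1) (nat_lit 0x40028006381))))) (.nd (nat_lit 26) 
(.nd (nat_lit 20) 
(.lf (nat_lit 1342455873) (dlOf (nat_lit 4) (nat_lit 0x48449202441f000c00e3804b86f40002c10023c38e000150202762490012118809f07c000483d201641c700860de8000003000a800801e800201b20008030e03))) 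
(.lf (nat_lit 26492993) (dlOf (nat_lit 1) (nat_lit 0x240008c50501)))) (.nd (nat_lit 27) 
(.lf (nat_lit 2483306561) (dlOf (nat_lit 3) (nat_lit 0x260230000b010008011800014080008008005c002000600080a0d83))) 
(.lf (nat_lit 470040641) (dlOf (nat_lit 4) (nat_lit 0x48449202441f000c00e3804b86f40002e10023c38e000160202762490012118809f07c000483d201641c700860de8000003000a800801e800201b20008030e03)))))) 
(.nd (nat_lit 11) (.nd (nat_lit 7) (.nd (nat_lit 18) 
(.lf (nat_lit 3355460161) (dlOf (nat_lit 1) (nat_lit 0x78008006400200260008001583))) 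
(.lf (nat_lit 5905859137) (dlOf (nat_lit 1) (nat_lit 0x17800200440008158c02)))) 
(.lf (nat_lit 469783233) (dlOf (nat_lit 1) (nat_lit 0x70008001c00200160008008c83)))) 
(.nd (nat_lit 12) (.nd (nat_lit 18) 
(.lf (nat_lit 33573441) (dlOf (nat_lit 1) (nat_lit 0x20018f55201))) 
(.lf (nat_lit 53758529) (dlOf (nat_lit 1) (nat_lit 0x480080004002000600095f5203)))) 
(.lf (nat_lit 2751486529) (dlOf (nat_lit 5) (nat_lit 0x20828000600400044140002d02000c20a000030100020ea0000100800c000800040020010000800b503)))))) 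
(.nd (nat_lit 20) (.nd (nat_lit 28) (.nd (nat_lit 23) (.nd (nat_lit 26) 
(.lf (nat_lit 3221766209) (dlOf (nat_lit 2) (nat_lit 0xc03c0000a818180d80))) (.nd (nat_lit 27) 
(.lf (nat_lit 1678262337) (dlOf (nat_lit 4) (nat_lit 0x1f01680ba805c0003408002402e000170200620170000b0181c0c80))) 
(.lf (nat_lit 3959963713) (dlOf (nat_lit 2) (nat_lit 0xf00000008c0800f0008009000200280008180d03))))) 
(.nd (nat_lit 18) (.lf (nat_lit 48775233) (dlOf (nat_lit 1) (nat_lit 0x40019420601))) 
(.lf (nat_lit 59523137) (dlOf (nat_lit 3) (nat_lit 0x8733e803099f00004ccc014e59400332c98041939801f09a8001540e001667d00272ca0003d0100270008003000200200009800603))))) 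
(.nd (nat_lit 29) (.nd (nat_lit 9) 
(.lf (nat_lit 3492298817) (dlOf (nat_lit 31) (nat_lit 0x2160f3801a0570002940807843ce001480202561e80007e8100220f40003a00800387a0001a60405fc3d0000a00202fe1e80004f81017f0f40002640808707a0001300404fc3d0000970202fe1e80004b0100980f40002500805607a0001260405fc3d0000920202fe1e80004881017f0f4000240080c087a00011e0405783d00008e0202dc1e80004681011a0f40002100803987a0001060405183d00008202011c1e8000400101660f40001fc0808107a0000fc0402d83d00007d02007a1e80003e01017f0f40001ec080c987a0000da040524464001822000cd0fe010f079c00883ac001c1ce00080b28004057400a42760000012141e00180c1401))) 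
(.lf (nat_lit 1346914881) (dlOf (nat_lit 2) (nat_lit 0x41380002202001000290a5201)))) 
(.nd (nat_lit 18) 
(.lf (nat_lit 805847105) (dlOf (nat_lit 4) (nat_lit 0x1f01680ba805c0003208002402e000170200620170000b0181c0c80))) 
(.lf (nat_lit 1879851073) (dlOf (nat_lit 1) (nat_lit 0x80018390e01)))))) (.nd (nat_lit 28) 
(.nd (nat_lit 9) (.nd (nat_lit 18) 
(.lf (nat_lit 2755149889) (dlOf (nat_lit 2) (nat_lit 0x981a0001c046000801e0000b038120e00))) 
(.lf (nat_lit 10240065) (dlOf (nat_lit 5) (nat_lit 0x41688000ec080078b440007404004c64e006426b0001c82000e1938000dc0801a00080040002004200085c0e03)))) 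
(.nd (nat_lit 18) (.lf (nat_lit 20464193) (dlOf (nat_lit 1) (nat_lit 0x4002000200089d1582))) 
(.lf (nat_lit 20726337) (dlOf (nat_lit 1) (nat_lit 0x4002000200089d1582))))) (.nd (nat_lit 21) 
(.nd (nat_lit 26) 
(.lf (nat_lit 5773213761) (dlOf (nat_lit 10) (nat_lit 0x8484fc052c2640007504029213f01950990001c81009a04fc06a42640006f0402a413f019b0990000941005d84fc064c26400021040368132000100100b109f80c104c8000380800082640001b02029013f018009900000010075000800a4002002200080b0503))) 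
(.lf (nat_lit 6377193537) (dlOf (nat_lit 10) (nat_lit 0x8484c8052c2460007504029213201950918001c81009a04c806a42460006f0402a4132019b0918000941005d84c8064c24600021040368123000100100b109900c1048c000380800082460001b020290132018009180000010075000800a4002002200080b0503)))) 
(.nd (nat_lit 18) 
(.lf (nat_lit 3493347393) (dlOf (nat_lit 2) (nat_lit 0x981a0001c046000801e0000b838120e00))) 
(.lf (nat_lit 1346125889) (dlOf (nat_lit 2) (nat_lit 0xc29a002470200020028e60601)))))))) 
(.nd (nat_lit 26) (.nd (nat_lit 7) (.nd (nat_lit 10) (.nd (nat_lit 9) (.nd (nat_lit 18) 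
(.lf (nat_lit 3493871937) (dlOf (nat_lit 1) (nat_lit 0x4002000200081b0602))) 
(.lf (nat_lit 2376001) (dlOf (nat_lit 1) (nat_lit 0x3c00200020008150602)))) 
(.lf (nat_lit 19942209) (dlOf (nat_lit 1) (nat_lit 0x4002000200089d5c02)))) (.nd (nat_lit 12) 
(.nd (nat_lit 20) (.lf (nat_lit 3489680705) (dlOf (nat_lit 1) (nat_lit 0x800200020008006902))) 
(.lf (nat_lit 19942721) (dlOf (nat_lit 1) (nat_lit 0x4a00289d6901)))) 
(.lf (nat_lit 19684673) (dlOf (nat_lit 1) (nat_lit 0xc002000200089dc902))))) (.nd (nat_lit 18) 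
(.nd (nat_lit 9) (.nd (nat_lit 11) 
(.lf (nat_lit 1345864129) (dlOf (nat_lit 1) (nat_lit 0x20008e07001))) 
(.lf (nat_lit 6710905281) (dlOf (nat_lit 1) (nat_lit 0xb000201240008004e82)))) (.nd (nat_lit 10) 
(.lf (nat_lit 5771381697) (dlOf (nat_lit 1) (nat_lit 0x20028005d81))) 
(.lf (nat_lit 2952810433) (dlOf (nat_lit 1) (nat_lit 0x11800400de0008007a82))))) (.nd (nat_lit 19) 
(.nd (nat_lit 10) (.lf (nat_lit 6308514753) (dlOf (nat_lit 1) (nat_lit 0x1a00180d5d81))) 
(.lf (nat_lit 280513) (dlOf (nat_lit 1) (nat_lit 0x20028004401)))) (.nd (nat_lit 9) 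
(.lf (nat_lit 58476993) (dlOf (nat_lit 1) (nat_lit 0x4002000200097e4e82))) 
(.lf (nat_lit 3490470849) (dlOf (nat_lit 1) (nat_lit 0x80020008000800be02))))))) (.nd (nat_lit 11) 
(.nd (nat_lit 7) (.nd (nat_lit 9) (.nd (nat_lit 10) 
(.lf (nat_lit 2755674433) (dlOf (nat_lit 1) (nat_lit 0x4002000200081b0602))) 
(.lf (nat_lit 604001601) (dlOf (nat_lit 1) (nat_lit 0x400200020008009902)))) (.nd (nat_lit 12) 
(.lf (nat_lit 2752005953) (dlOf (nat_lit 1) (nat_lit 0x80028003e01))) 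
(.lf (nat_lit 3557054273) (dlOf (nat_lit 1) (nat_lit 0x40040002000812a102))))) (.nd (nat_lit 12) 
(.lf (nat_lit 2752006081) (dlOf (nat_lit 1) (nat_lit 0x20018004401))) (.nd (nat_lit 27) 
(.lf (nat_lit 4362098625) (dlOf (nat_lit 1) (nat_lit 0xe80040024000800a602))) 
(.lf (nat_lit 201349057) (dlOf (nat_lit 1) (nat_lit 0xc000800a601)))))) (.nd (nat_lit 28) 
(.nd (nat_lit 12) (.nd (nat_lit 18) 
(.lf (nat_lit 1275087809) (dlOf (nat_lit 1) (nat_lit 0x2000200280008005d82))) 
(.lf (nat_lit 4496575425) (dlOf (nat_lit 2) (nat_lit 0x40320000d8180e5d80)))) (.nd (nat_lit 7) 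
(.lf (nat_lit 2885704513) (dlOf (nat_lit 1) (nat_lit 0xc000800bc81))) 
(.lf (nat_lit 2885704641) (dlOf (nat_lit 2) (nat_lit 0x60040008781800be00))))) (.nd (nat_lit 9) 
(.lf (nat_lit 2483046849) (dlOf (nat_lit 1) (nat_lit 0x10008000c00200040008004e83))) 
(.nd (nat_lit 29) (.lf (nat_lit 4764748737) (dlOf (nat_lit 1) (nat_lit 0x400400020008005d82))) 
(.lf (nat_lit 5301619649) (dlOf (nat_lit 1) (nat_lit 0x2000800c000200820008005d83)))))))))) 
(.nd (nat_lit 18) (.nd (nat_lit 30) (.nd (nat_lit 6) (.nd (nat_lit 29) (.nd (nat_lit 21) 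
(.nd (nat_lit 19) (.nd (nat_lit 7) 
(.lf (nat_lit 17842209) (dlOf (nat_lit 1) (nat_lit 0x8600288f0c81))) 
(.lf (nat_lit 8409505) (dlOf (nat_lit 1) (nat_lit 0x40018518381)))) (.nd (nat_lit 20) 
(.lf (nat_lit 21512225) (dlOf (nat_lit 2) (nat_lit 0x400000022818a40180))) 
(.lf (nat_lit 26755105) (dlOf (nat_lit 1) (nat_lit 0x1c004000a0018c70702))))) (.nd (nat_lit 22) 
(.nd (nat_lit 19) 
(.lf (nat_lit 28327969) (dlOf (nat_lit 1) (nat_lit 0x18008000400200020008d80683))) 
(.lf (nat_lit 11026465) (dlOf (nat_lit 1) (nat_lit 0x400400020008660502)))) (.nd (nat_lit 25) 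
(.lf (nat_lit 15220769) (dlOf (nat_lit 2) (nat_lit 0x2a23a8000000400ec004005c00087c0602))) 
(.lf (nat_lit 48775201) (dlOf (nat_lit 2) (nat_lit 0x41f000020500001f029420180)))))) 
(.nd (nat_lit 27) (.nd (nat_lit 20) (.nd (nat_lit 21) 
(.lf (nat_lit 805847073) (dlOf (nat_lit 3) (nat_lit 0x4600b8032fc08009005c019720400ac004002c00081c0a02))) 
(.lf (nat_lit 2754101281) (dlOf (nat_lit 3) (nat_lit 0x1d61f7002a0ac0001141002d0560000000400ac004007c00180c0b02)))) 
(.nd (nat_lit 9) (.lf (nat_lit 2755149857) (dlOf (nat_lit 1) (nat_lit 0x400400040008120982))) 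
(.lf (nat_lit 2754629153) (dlOf (nat_lit 2) (nat_lit 0x20074000a204000c004002600180f7182))))) 
(.nd (nat_lit 26) (.nd (nat_lit 9) 
(.lf (nat_lit 2819112993) (dlOf (nat_lit 8) (nat_lit 0x2e406a01180348002d41008081a802a00d2000b204012606a004303480002c1007701a8027c0d20000a04017606a006b0348000241005f01a801c40d2000050400bc06a006303480001010024000801d4002000c00081a0603))) 
(.lf (nat_lit 4966073889) (dlOf (nat_lit 1) (nat_lit 0x1400400080008003702)))) (.nd (nat_lit 31) 
(.lf (nat_lit 738738209) (dlOf (nat_lit 5) (nat_lit 0x4a00a80006c040180054000170200b802a0000981000b0150000280800d00080004002001600080f0b03))) 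
(.lf (nat_lit 2886221857) (dlOf (nat_lit 2) (nat_lit 0x8040000000181a0500))))))) (.nd (nat_lit 7) 
(.nd (nat_lit 8) (.nd (nat_lit 9) (.nd (nat_lit 10) 
(.lf (nat_lit 30425185) (dlOf (nat_lit 5) (nat_lit 0x200000054008001dfa8005c000000e304000784000037810017c2000015f680000008005800400720008e30482))) 
(.lf (nat_lit 2952813665) (dlOf (nat_lit 4) (nat_lit 0xec01a0002a01005a00d00014c0802c80680008a04004000200e2000800c002)))) 
(.lf (nat_lit 4563420769) (dlOf (nat_lit 2) (nat_lit 0x60330002017000000100050008003000200080008003903)))) 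
(.nd (nat_lit 10) (.nd (nat_lit 11) 
(.lf (nat_lit 5033181537) (dlOf (nat_lit 1) (nat_lit 0x400200020008000e82))) 
(.lf (nat_lit 2348833121) (dlOf (nat_lit 1) (nat_lit 0x10008000c0020004000800ab83)))) 
(.lf (nat_lit 20467041) (dlOf (nat_lit 1) (nat_lit 0x4004000200089d6a82))))) (.nd (nat_lit 8) 
(.nd (nat_lit 9) (.nd (nat_lit 21) 
(.lf (nat_lit 4210913) (dlOf (nat_lit 1) (nat_lit 0x40028290601))) 
(.lf (nat_lit 18890977) (dlOf (nat_lit 1) (nat_lit 0x20008970581)))) (.nd (nat_lit 10) 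
(.nd (nat_lit 11) (.lf (nat_lit 8409825) (dlOf (nat_lit 1) (nat_lit 0x8008000400200020008518c83))) 
(.lf (nat_lit 19946209) (dlOf (nat_lit 1) (nat_lit 0x8002000200089db982)))) 
(.lf (nat_lit 536889057) (dlOf (nat_lit 1) (nat_lit 0x40028003a81))))) (.nd (nat_lit 9) 
(.lf (nat_lit 2114017) (dlOf (nat_lit 1) (nat_lit 0x120028150c01))) (.nd (nat_lit 19) 
(.lf (nat_lit 4898964449) (dlOf (nat_lit 1) (nat_lit 0x400200020008002882))) 
(.lf (nat_lit 2752005089) (dlOf (nat_lit 1) (nat_lit 0x20018002881)))))))) (.nd (nat_lit 28) 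
(.nd (nat_lit 10) (.nd (nat_lit 27) (.nd (nat_lit 26) (.nd (nat_lit 29) 
(.lf (nat_lit 3221766177) (dlOf (nat_lit 7) (nat_lit 0xc2023005b811402c8086016c042002b01c005e00cc02b5a1802b408c0142045008b021804d81080050070011c03300ad606008c0230041011401bc08600e604200830198056ac280130138007809a0146904001e04e00a3401000a023004b1c08032000801b4002008c0008180903))) 
(.lf (nat_lit 1611153441) (dlOf (nat_lit 5) (nat_lit 0x4a00a80006c040180054000170200b802a0000981000b0150000280800d00080004002001600080f0b03)))) 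
(.lf (nat_lit 1678262305) (dlOf (nat_lit 3) (nat_lit 0x4600b801c5408009005c00e180400ac004002c00081c0a02)))) 
(.nd (nat_lit 6) (.nd (nat_lit 7) 
(.lf (nat_lit 3959963681) (dlOf (nat_lit 7) (nat_lit 0xc2023005b811402c8086016c042002b01c005e00cc02e281802b408c0142045008b021804d81080050070011c03300b8986008c0230041011401bc08600e60420083019805c48280130138007809a0144c04001e04e00a2581000a023004b6c08032000801b4002008c0008180903))) 
(.lf (nat_lit 1275087265) (dlOf (nat_lit 2) (nat_lit 0x40050019d8040008004000e0018004e82)))) 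
(.lf (nat_lit 3959963745) (dlOf (nat_lit 1) (nat_lit 0x98008003800200060008181283))))) 
(.nd (nat_lit 9) (.nd (nat_lit 8) (.nd (nat_lit 26) 
(.lf (nat_lit 1744847905) (dlOf (nat_lit 1) (nat_lit 0x180018002881))) 
(.lf (nat_lit 1811956769) (dlOf (nat_lit 1) (nat_lit 0x400400020008002882)))) 
(.lf (nat_lit 3422573857) (dlOf (nat_lit 1) (nat_lit 0x20018009781)))) (.nd (nat_lit 6) 
(.nd (nat_lit 27) 
(.lf (nat_lit 5435835937) (dlOf (nat_lit 3) (nat_lit 0x2801f00003c0801c80f8000000400d800400260008003702))) 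
(.lf (nat_lit 6106924577) (dlOf (nat_lit 1) (nat_lit 0x400400020008003702)))) 
(.lf (nat_lit 1207977569) (dlOf (nat_lit 1) (nat_lit 0x20018003901)))))) (.nd (nat_lit 8) 
(.nd (nat_lit 21) (.nd (nat_lit 6) (.nd (nat_lit 26) 
(.lf (nat_lit 3624419361) (dlOf (nat_lit 2) (nat_lit 0x8040000000181a0500))) 
(.lf (nat_lit 3557310497) (dlOf (nat_lit 1) (nat_lit 0x78008001c002001000081c0603)))) 
(.lf (nat_lit 3623901281) (dlOf (nat_lit 1) (nat_lit 0x5c002800a801)))) (.nd (nat_lit 6) 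
(.nd (nat_lit 20) 
(.lf (nat_lit 3492298785) (dlOf (nat_lit 3) (nat_lit 0x1d61e5002a0a98001401002d054c000000400ac004007c00180c0b02))) 
(.lf (nat_lit 3493347361) (dlOf (nat_lit 1) (nat_lit 0x400400040008120982)))) 
(.lf (nat_lit 3492829281) (dlOf (nat_lit 1) (nat_lit 0x200280fa801))))) (.nd (nat_lit 7) 
(.nd (nat_lit 6) (.lf (nat_lit 4160771361) (dlOf (nat_lit 1) (nat_lit 0xc00400020008009782))) 
(.nd (nat_lit 12) 
(.lf (nat_lit 4227877217) (dlOf (nat_lit 2) (nat_lit 0x40190046700803a0008001000200400008004e83))) 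
(.lf (nat_lit 4026554721) (dlOf (nat_lit 1) (nat_lit 0xe002800ab81))))) (.nd (nat_lit 9) 
(.nd (nat_lit 11) 
(.lf (nat_lit 3691009441) (dlOf (nat_lit 2) (nat_lit 0x3400d80296c080110008006c00200ea0008009903))) 
(.lf (nat_lit 1409310113) (dlOf (nat_lit 1) (nat_lit 0x5e002800cb01)))) (.nd (nat_lit 10) 
(.lf (nat_lit 4227881889) (dlOf (nat_lit 1) (nat_lit 0x9000800ec002006e000800bc83))) 
(.lf (nat_lit 3691009953) (dlOf (nat_lit 1) (nat_lit 0x78002800a301))))))))) (.nd (nat_lit 26) 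
(.nd (nat_lit 19) (.nd (nat_lit 27) (.nd (nat_lit 28) (.nd (nat_lit 6) (.nd (nat_lit 9) 
(.lf (nat_lit 26492961) (dlOf (nat_lit 2) (nat_lit 0x580000001604001c004000c0018c50182))) 
(.lf (nat_lit 3221504545) (dlOf (nat_lit 1) (nat_lit 0x400400020018127f02)))) (.nd (nat_lit 7) 
(.lf (nat_lit 33833057) (dlOf (nat_lit 1) (nat_lit 0x8008000400200020008f61983))) 
(.lf (nat_lit 20208353) (dlOf (nat_lit 1) (nat_lit 0x900080004002000c00089db983))))) 
(.nd (nat_lit 29) (.nd (nat_lit 6) 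
(.lf (nat_lit 5637423137) (dlOf (nat_lit 1) (nat_lit 0xa00180e0781))) 
(.lf (nat_lit 4563681505) (dlOf (nat_lit 2) (nat_lit 0x220082010003a00ca00000001c1800080080008002003800080c1d03)))) 
(.nd (nat_lit 31) (.lf (nat_lit 805584929) (dlOf (nat_lit 1) (nat_lit 0x60008130481))) 
(.lf (nat_lit 2953068577) (dlOf (nat_lit 1) (nat_lit 0x8800800a8002002800080f0603)))))) 
(.nd (nat_lit 7) (.nd (nat_lit 8) (.nd (nat_lit 30) 
(.lf (nat_lit 2281979937) (dlOf (nat_lit 2) (nat_lit 0x4026000290180d0580))) 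
(.lf (nat_lit 3355721761) (dlOf (nat_lit 1) (nat_lit 0x1800180d0581)))) 
(.lf (nat_lit 3892592929) (dlOf (nat_lit 1) (nat_lit 0x20018160701)))) (.nd (nat_lit 6) 
(.lf (nat_lit 4697899169) (dlOf (nat_lit 6) (nat_lit 0x140340001001004901980007c0800100d00002c0400340680001502009a033000000180c1380))) 
(.nd (nat_lit 9) 
(.lf (nat_lit 4697899233) (dlOf (nat_lit 2) (nat_lit 0x1400a800280480001a080034004000400080c1a82))) 
(.lf (nat_lit 2818855649) (dlOf (nat_lit 1) (nat_lit 0x18c00400600008128c82))))))) 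
(.nd (nat_lit 22) (.nd (nat_lit 20) (.nd (nat_lit 21) (.nd (nat_lit 23) 
(.lf (nat_lit 2819375137) (dlOf (nat_lit 2) (nat_lit 0x1b80180010e04002800200020008250602))) 
(.lf (nat_lit 59523105) (dlOf (nat_lit 1) (nat_lit 0x148004005a0009800182)))) 
(.lf (nat_lit 28065825) (dlOf (nat_lit 1) (nat_lit 0x400200020008d50602)))) (.nd (nat_lit 21) 
(.lf (nat_lit 27017249) (dlOf (nat_lit 1) (nat_lit 0x40028ca0601))) 
(.lf (nat_lit 1346125857) (dlOf (nat_lit 3) (nat_lit 0x1882ac00c2143006b09d803704e4029419a000e096005c0468018821401400ea0000e12001c14300010668000281001000080034002003a0008e60183))))) 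
(.nd (nat_lit 7) (.nd (nat_lit 9) 
(.lf (nat_lit 24920097) (dlOf (nat_lit 1) (nat_lit 0x20008bd0b01))) 
(.lf (nat_lit 8144417) (dlOf (nat_lit 1) (nat_lit 0x21c0018513701)))) (.nd (nat_lit 6) 
(.nd (nat_lit 10) (.lf (nat_lit 49039777) (dlOf (nat_lit 1) (nat_lit 0x20009464e81))) 
(.lf (nat_lit 8144289) (dlOf (nat_lit 1) (nat_lit 0x400200020008513602)))) 
(.lf (nat_lit 8146913) (dlOf (nat_lit 1) (nat_lit 0x20018517a81))))))) (.nd (nat_lit 28) 
(.nd (nat_lit 6) (.nd (nat_lit 31) (.nd (nat_lit 7) (.nd (nat_lit 29) 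
(.lf (nat_lit 67387425) (dlOf (nat_lit 1) (nat_lit 0x200080f0181))) 
(.lf (nat_lit 1678000161) (dlOf (nat_lit 1) (nat_lit 0x60008130481)))) 
(.lf (nat_lit 201605281) (dlOf (nat_lit 1) (nat_lit 0x400400020008044602)))) (.nd (nat_lit 7) 
(.nd (nat_lit 8) (.lf (nat_lit 2349088801) (dlOf (nat_lit 2) (nat_lit 0x202500e350180a0900))) 
(.lf (nat_lit 6509838625) (dlOf (nat_lit 1) (nat_lit 0x400080020002003e0008154283)))) 
(.lf (nat_lit 2752790689) (dlOf (nat_lit 1) (nat_lit 0x8008000400200020008044603))))) 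
(.nd (nat_lit 7) (.nd (nat_lit 8) 
(.lf (nat_lit 2349088865) (dlOf (nat_lit 1) (nat_lit 0x3c002001e00080a1282))) 
(.lf (nat_lit 6509838689) (dlOf (nat_lit 1) (nat_lit 0x40028154f01)))) (.nd (nat_lit 9) 
(.lf (nat_lit 3959701985) (dlOf (nat_lit 1) (nat_lit 0x400400020008127d02))) 
(.lf (nat_lit 2751748065) (dlOf (nat_lit 4) (nat_lit 0x7108801584080c388480200422003a1f901510d700be855402402a0004c14f00250a7000405100080278035c13801b109b808c84d800abe3400543f4000815200150a8000c8500006c270005520a003c001800a601)))))) 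
(.nd (nat_lit 6) (.nd (nat_lit 27) (.nd (nat_lit 29) 
(.lf (nat_lit 2483306529) (dlOf (nat_lit 2) (nat_lit 0x202500c8e8180a0900))) 
(.lf (nat_lit 3020177441) (dlOf (nat_lit 1) (nat_lit 0x40008000c00200020008150183)))) 
(.nd (nat_lit 7) (.nd (nat_lit 30) 
(.lf (nat_lit 2617524257) (dlOf (nat_lit 1) (nat_lit 0x1800180d0581))) 
(.lf (nat_lit 3691266081) (dlOf (nat_lit 1) (nat_lit 0x40008110601)))) 
(.lf (nat_lit 1009011105) (dlOf (nat_lit 1) (nat_lit 0x240019004e81))))) (.nd (nat_lit 19) 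
(.nd (nat_lit 9) (.nd (nat_lit 29) 
(.lf (nat_lit 2483306593) (dlOf (nat_lit 1) (nat_lit 0x1c004001c00080a1382))) 
(.lf (nat_lit 6241402977) (dlOf (nat_lit 1) (nat_lit 0x200280e1981)))) 
(.lf (nat_lit 6375622241) (dlOf (nat_lit 1) (nat_lit 0x100018003901)))) (.nd (nat_lit 11) 
(.lf (nat_lit 4096540769) (dlOf (nat_lit 1) (nat_lit 0x200028120781))) 
(.lf (nat_lit 1410095201) (dlOf (nat_lit 3) (nat_lit 0x281dc00240ec000c07100060380003018c00180c200060000009f87000b03b8004d0080008008002c002000600080fa803)))))))))) 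
(.nd (nat_lit 18) (.nd (nat_lit 5) (.nd (nat_lit 6) (.nd (nat_lit 30) (.nd (nat_lit 27) 
(.nd (nat_lit 20) (.nd (nat_lit 29) (.nd (nat_lit 9) 
(.lf (nat_lit 2214739969) (dlOf (nat_lit 2) (nat_lit 0x400980378804001800400060008080002))) 
(.lf (nat_lit 4362224129) (dlOf (nat_lit 1) (nat_lit 0x18008000400200060008017f03)))) 
(.nd (nat_lit 26) 
(.lf (nat_lit 2952937473) (dlOf (nat_lit 5) (nat_lit 0xc00000ed501000f016001700a8002000001da806005e00400ea181004b00e000080100374408000400400180008030002))) 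
(.lf (nat_lit 604127233) (dlOf (nat_lit 4) (nat_lit 0x6d00b0120804403b540800f402c03c001100ed402005000b0076900804a0008000800200020008030003))))) 
(.nd (nat_lit 19) (.nd (nat_lit 7) 
(.lf (nat_lit 47333377) (dlOf (nat_lit 5) (nat_lit 0x12d26001168c000cb410002d7ec0322c10001ad26000d68c0002b41000257ec0322a100022d26000f68c0004b41000357ec03226100026d26000f68c0002b410003d7ec03222100058002000400093d0002))) 
(.lf (nat_lit 20073601) (dlOf (nat_lit 1) (nat_lit 0x200080038002000a00089d6103)))) 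
(.nd (nat_lit 22) 
(.lf (nat_lit 3817473) (dlOf (nat_lit 2) (nat_lit 0x1263800092f40322c08007800400160008230002))) 
(.lf (nat_lit 24788993) (dlOf (nat_lit 7) (nat_lit 0x368300c8b010005b4a0002da34001ed06000b5fc00c8a840006b4a0003da34001ed06000d5fc00c89840008b41800457f003222080006d28000768d0008b418061c018004da50001ad1a00096830002afe0061bc200058008000400200040008bb0003)))))) 
(.nd (nat_lit 19) (.nd (nat_lit 12) (.nd (nat_lit 26) 
(.lf (nat_lit 2281848833) (dlOf (nat_lit 2) (nat_lit 0x7012006f10080010008000c002000a0008080003))) 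
(.lf (nat_lit 1006780417) (dlOf (nat_lit 1) (nat_lit 0x20018070001)))) (.nd (nat_lit 7) 
(.lf (nat_lit 2617398017) (dlOf (nat_lit 1) (nat_lit 0x200280a8f81))) 
(.lf (nat_lit 2617398401) (dlOf (nat_lit 1) (nat_lit 0x200180a9501))))) (.nd (nat_lit 8) 
(.nd (nat_lit 21) 
(.lf (nat_lit 470433793) (dlOf (nat_lit 9) (nat_lit 0xd1130071b80800408bc003c44c001e20c000c0d980718c2000208bc002844c001620c000a0d98071882000388bc003044c001a20c000c0d98071802000388bc003444c001c20c000d0d98071782000308bc004044c002220c00100d9806f582000288bc003044c001620c00050d9806f542000388bc003044c001820c000c0d9806f4c200028008008c002001c00080f0003))) 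
(.lf (nat_lit 472530945) (dlOf (nat_lit 1) (nat_lit 0x600289b0001)))) 
(.lf (nat_lit 473579777) (dlOf (nat_lit 1) (nat_lit 0x3a0028f63581)))))) (.nd (nat_lit 19) 
(.nd (nat_lit 27) (.nd (nat_lit 28) (.nd (nat_lit 7) (.nd (nat_lit 26) 
(.lf (nat_lit 5368856577) (dlOf (nat_lit 2) (nat_lit 0xde0150002007006d38100048008002400200360008040003))) 
(.lf (nat_lit 1140998145) (dlOf (nat_lit 1) (nat_lit 0x8008000800200040008060003)))) 
(.lf (nat_lit 3221379969) (dlOf (nat_lit 2) (nat_lit 0x10c02f0057b01811bc80)))) (.nd (nat_lit 22) 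
(.lf (nat_lit 1879195649) (dlOf (nat_lit 1) (nat_lit 0x20018070001))) 
(.lf (nat_lit 1346519041) (dlOf (nat_lit 1) (nat_lit 0x400400020008f80002))))) (.nd (nat_lit 28) 
(.nd (nat_lit 7) 
(.lf (nat_lit 5503074305) (dlOf (nat_lit 2) (nat_lit 0xde0150002007005f88100048008002400200360008040003))) 
(.lf (nat_lit 3892461697) (dlOf (nat_lit 1) (nat_lit 0x400200020008143a02)))) (.nd (nat_lit 8) 
(.lf (nat_lit 2013413377) (dlOf (nat_lit 1) (nat_lit 0x8008000800200040008060003))) 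
(.lf (nat_lit 5771510017) (dlOf (nat_lit 1) (nat_lit 0x400400020008000a82)))))) (.nd (nat_lit 31) 
(.nd (nat_lit 20) (.nd (nat_lit 21) 
(.lf (nat_lit 1342849025) (dlOf (nat_lit 9) (nat_lit 0xd1130064840800408bc003c44c001e20e000c0d18064582000208bc002844c001620e000a0d18064542000388bc003044c001a20e000c0d180644c2000388bc003444c001c20e000d0d18064442000308bc004044c002220e00100d18061c02000288bc003044c001620e00050d18061bc2000388bc003044c001820e000c0d18061b4200028008008c002001c00080f0003))) 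
(.lf (nat_lit 1344946177) (dlOf (nat_lit 1) (nat_lit 0x4004000200089a0002)))) 
(.lf (nat_lit 5773082625) (dlOf (nat_lit 1) (nat_lit 0x80080004002000200080a0003)))) 
(.nd (nat_lit 9) (.nd (nat_lit 26) 
(.lf (nat_lit 3892985857) (dlOf (nat_lit 1) (nat_lit 0x8004000400082c0002))) 
(.lf (nat_lit 3557441537) (dlOf (nat_lit 1) (nat_lit 0x20028200001)))) 
(.lf (nat_lit 4094312961) (dlOf (nat_lit 1) (nat_lit 0x40028037b01))))))) (.nd (nat_lit 26) 
(.nd (nat_lit 19) (.nd (nat_lit 20) (.nd (nat_lit 21) (.nd (nat_lit 28) (.nd (nat_lit 23) 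
(.lf (nat_lit 5368856641) (dlOf (nat_lit 2) (nat_lit 0x9e015008300a002b004c01c40220110010007c0070001f8300218008009c00200260008040483))) 
(.lf (nat_lit 25313345) (dlOf (nat_lit 2) (nat_lit 0xb9160004c380001d4100068008004c00200720008bf0b83)))) 
(.nd (nat_lit 27) 
(.lf (nat_lit 2416066625) (dlOf (nat_lit 1) (nat_lit 0x40008001800200040008030e03))) 
(.lf (nat_lit 2550284353) (dlOf (nat_lit 1) (nat_lit 0x40008001800200040008030e03))))) 
(.nd (nat_lit 8) (.nd (nat_lit 9) 
(.lf (nat_lit 52576321) (dlOf (nat_lit 2) (nat_lit 0x42fec00057f40014b29000aa039550600))) 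
(.lf (nat_lit 3491906113) (dlOf (nat_lit 2) (nat_lit 0x787b00000004000400400240008091082)))) 
(.lf (nat_lit 39994689) (dlOf (nat_lit 1) (nat_lit 0x10004000200191f3282))))) (.nd (nat_lit 7) 
(.nd (nat_lit 9) (.lf (nat_lit 5772558401) (dlOf (nat_lit 1) (nat_lit 0x120008090001))) 
(.lf (nat_lit 9585217) (dlOf (nat_lit 1) (nat_lit 0x7e0028578c01)))) (.nd (nat_lit 21) 
(.lf (nat_lit 13779137) (dlOf (nat_lit 1) (nat_lit 0x8008000400200020008750403))) 
(.lf (nat_lit 28459201) (dlOf (nat_lit 1) (nat_lit 0x400200020008da0482)))))) (.nd (nat_lit 20) 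
(.nd (nat_lit 28) (.nd (nat_lit 27) 
(.lf (nat_lit 537542721) (dlOf (nat_lit 2) (nat_lit 0x40024000100180a0d00))) 
(.lf (nat_lit 134889537) (dlOf (nat_lit 7) (nat_lit 0x1c00c4003420400280620007d02010e058008f02a0020012c00140820028031009101600278050030c0220008010007500180480000000ea2c01380b000ae0540015025800181040064062012402c005300a00610044000402000dc00300920000001d05800280c001f40580164011008e0000001cc2006d80c400000040a80004005c00180d0b82)))) 
(.nd (nat_lit 21) 
(.lf (nat_lit 805978177) (dlOf (nat_lit 2) (nat_lit 0x5001580000004003800400140008201402))) 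
(.lf (nat_lit 1344946241) (dlOf (nat_lit 1) (nat_lit 0x600089a0601))))) (.nd (nat_lit 7) 
(.nd (nat_lit 21) 
(.lf (nat_lit 10108993) (dlOf (nat_lit 1) (nat_lit 0x280080010002000800085b0783))) 
(.lf (nat_lit 45760577) (dlOf (nat_lit 2) (nat_lit 0x9a4c0047804000c00200020009360602)))) 
(.lf (nat_lit 1345997249) (dlOf (nat_lit 2) (nat_lit 0x383640165204000400200020008e24e82)))))) 
(.nd (nat_lit 8) (.nd (nat_lit 28) (.nd (nat_lit 10) (.nd (nat_lit 19) 
(.lf (nat_lit 5033312321) (dlOf (nat_lit 1) (nat_lit 0x20018040481))) 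
(.lf (nat_lit 201998401) (dlOf (nat_lit 7) (nat_lit 0x1c00c4003520400280620007d02010e059008f02a8020012c00140820028031009101600278050030c0220008010007500200480000000ea2c01380b200ae0550015025800181040064062012402c005300a00610044000402000dc00400920000001d05800280c001f40580164011008e0000001cc2006d80c400000040a80004005c00180d0b82)))) 
(.lf (nat_lit 3959571521) (dlOf (nat_lit 1) (nat_lit 0x60008112881)))) (.nd (nat_lit 27) 
(.nd (nat_lit 32) (.lf (nat_lit 872562753) (dlOf (nat_lit 1) (nat_lit 0x120018090001))) 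
(.lf (nat_lit 5167530049) (dlOf (nat_lit 2) (nat_lit 0x28028000f00d0001f8100008008001c002000e0008080483)))) 
(.lf (nat_lit 2617393217) (dlOf (nat_lit 1) (nat_lit 0x200180a0001))))) (.nd (nat_lit 7) 
(.nd (nat_lit 10) 
(.lf (nat_lit 3959572801) (dlOf (nat_lit 2) (nat_lit 0x48100004405e000202e0001e038114c80))) 
(.lf (nat_lit 6509710657) (dlOf (nat_lit 2) (nat_lit 0x580980002e04002c00400140018146902)))) 
(.nd (nat_lit 10) (.lf (nat_lit 4094839745) (dlOf (nat_lit 1) (nat_lit 0x1560028055d81))) 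
(.nd (nat_lit 12) (.lf (nat_lit 201476033) (dlOf (nat_lit 1) (nat_lit 0x20028004401))) 
(.lf (nat_lit 3959576513) (dlOf (nat_lit 1) (nat_lit 0x500080060002002e000811a603))))))))) 
(.nd (nat_lit 19) (.nd (nat_lit 26) (.nd (nat_lit 21) (.nd (nat_lit 27) (.nd (nat_lit 6) 
(.nd (nat_lit 9) (.nd (nat_lit 22) 
(.lf (nat_lit 2684502049) (dlOf (nat_lit 1) (nat_lit 0x8008009400200020008080503))) 
(.lf (nat_lit 21119009) (dlOf (nat_lit 1) (nat_lit 0x3c00200040008a10582)))) 
(.lf (nat_lit 805457441) (dlOf (nat_lit 1) (nat_lit 0x400400020018117182)))) (.nd (nat_lit 8) 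
(.lf (nat_lit 268583009) (dlOf (nat_lit 1) (nat_lit 0x12c00401320018090782))) 
(.lf (nat_lit 3221375329) (dlOf (nat_lit 5) (nat_lit 0x880178046700800480bc022de04005005e0116d02002c02f008b5818114e80))))) 
(.nd (nat_lit 28) (.nd (nat_lit 29) 
(.lf (nat_lit 2281848865) (dlOf (nat_lit 4) (nat_lit 0x12c0480005e0200220240002e81004c01200016c08011800800f8002004a0008080503))) 
(.lf (nat_lit 6039945249) (dlOf (nat_lit 1) (nat_lit 0x10008000800200020008070503)))) 
(.nd (nat_lit 8) (.nd (nat_lit 31) 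
(.lf (nat_lit 2013413409) (dlOf (nat_lit 2) (nat_lit 0x59008800076040044004000a0008060b02))) 
(.lf (nat_lit 4160897057) (dlOf (nat_lit 2) (nat_lit 0x360050001f818060500)))) 
(.lf (nat_lit 4697769249) (dlOf (nat_lit 1) (nat_lit 0x60008093101)))))) (.nd (nat_lit 6) 
(.nd (nat_lit 7) (.nd (nat_lit 9) 
(.lf (nat_lit 52576289) (dlOf (nat_lit 1) (nat_lit 0x400400020009550182))) 
(.lf (nat_lit 20076065) (dlOf (nat_lit 1) (nat_lit 0x20008006c002000400089d9c03)))) 
(.lf (nat_lit 44187809) (dlOf (nat_lit 1) (nat_lit 0x4002000200092d1382)))) (.nd (nat_lit 9) 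
(.nd (nat_lit 10) 
(.lf (nat_lit 44187873) (dlOf (nat_lit 3) (nat_lit 0x8a570000cc08004d2b80006404007c004000200092d1a82))) 
(.lf (nat_lit 20075745) (dlOf (nat_lit 1) (nat_lit 0x1c002000200089d9502)))) 
(.lf (nat_lit 20077281) (dlOf (nat_lit 1) (nat_lit 0xb80080008002002600089db983)))))) 
(.nd (nat_lit 7) (.nd (nat_lit 29) (.nd (nat_lit 27) (.nd (nat_lit 30) 
(.lf (nat_lit 2214740001) (dlOf (nat_lit 4) (nat_lit 0x288098002402e0005e0400080260002e81005401300016c0801080080064002001c0008080503))) 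
(.lf (nat_lit 1140998177) (dlOf (nat_lit 2) (nat_lit 0x59008800076040044004000a0008060b02)))) 
(.lf (nat_lit 3422699553) (dlOf (nat_lit 1) (nat_lit 0x18002000c0008060502)))) (.nd (nat_lit 9) 
(.nd (nat_lit 28) 
(.lf (nat_lit 604127265) (dlOf (nat_lit 11) (nat_lit 0x10a022800a80780004008040008a002e01e0000f8200d702280007808068811400e003c00100000000d8300a60228000540806801140002604023c08a00140000000882001d022800200000001a08013808a0000c0200600450013021800300d8000000c021800400360018030182))) 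
(.lf (nat_lit 5167530017) (dlOf (nat_lit 2) (nat_lit 0x110138000e00800100080010002000a0008080183)))) 
(.lf (nat_lit 3959577121) (dlOf (nat_lit 3) (nat_lit 0x12002f005fe01003e017802fe40801b800800d00020052000811b283))))) 
(.nd (nat_lit 10) (.nd (nat_lit 8) 
(.lf (nat_lit 3959572705) (dlOf (nat_lit 1) (nat_lit 0x2400200040008114a82))) (.nd (nat_lit 27) 
(.lf (nat_lit 4362224097) (dlOf (nat_lit 1) (nat_lit 0x400400020008017d02))) 
(.lf (nat_lit 469909985) (dlOf (nat_lit 1) (nat_lit 0x5c00400180008017d02))))) (.nd (nat_lit 6) 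
(.lf (nat_lit 1677871009) (dlOf (nat_lit 1) (nat_lit 0xbc0028114281))) (.nd (nat_lit 8) 
(.lf (nat_lit 1543654625) (dlOf (nat_lit 2) (nat_lit 0xa0250001009800080100188008006000200200008146503))) 
(.lf (nat_lit 2751616993) (dlOf (nat_lit 1) (nat_lit 0x3c0020004000800a602)))))))) 
(.nd (nat_lit 28) (.nd (nat_lit 20) (.nd (nat_lit 23) (.nd (nat_lit 26) (.nd (nat_lit 8) 
(.lf (nat_lit 134889505) (dlOf (nat_lit 2) (nat_lit 0x1e008600ce041005b01f803480c000000100038004001800180d0882))) 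
(.lf (nat_lit 51003681) (dlOf (nat_lit 1) (nat_lit 0xce00094e8001)))) (.nd (nat_lit 27) 
(.lf (nat_lit 1678393377) (dlOf (nat_lit 1) (nat_lit 0x20018200b01))) 
(.lf (nat_lit 201998369) (dlOf (nat_lit 2) (nat_lit 0x1e008600ce041005b01f803480c000000100038004001800180d0882))))) 
(.nd (nat_lit 21) (.lf (nat_lit 42614817) (dlOf (nat_lit 1) (nat_lit 0x400200040009260182))) 
(.lf (nat_lit 11157537) (dlOf (nat_lit 1) (nat_lit 0x3c00400bc0008660502))))) (.nd (nat_lit 21) 
(.nd (nat_lit 22) (.lf (nat_lit 10108961) (dlOf (nat_lit 1) (nat_lit 0x200285b0481))) 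
(.lf (nat_lit 22691873) (dlOf (nat_lit 1) (nat_lit 0x800200060008b10602)))) (.nd (nat_lit 6) 
(.lf (nat_lit 24789025) (dlOf (nat_lit 2) (nat_lit 0x4b49000014080030008009c00200040008bb0803))) 
(.lf (nat_lit 28983521) (dlOf (nat_lit 1) (nat_lit 0x8008000800200040008da0583)))))) 
(.nd (nat_lit 21) (.nd (nat_lit 7) (.nd (nat_lit 29) 
(.lf (nat_lit 1342849057) (dlOf (nat_lit 4) (nat_lit 0x3c466001022d0000a8200181188000140800708b400000040004002001c00080f0802))) 
(.lf (nat_lit 805978145) (dlOf (nat_lit 1) (nat_lit 0x20018200b01)))) (.nd (nat_lit 6) 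
(.lf (nat_lit 3490335137) (dlOf (nat_lit 1) (nat_lit 0x400200020008004e82))) 
(.lf (nat_lit 1343897825) (dlOf (nat_lit 2) (nat_lit 0x260b2800074080028008000800200100008370583))))) 
(.nd (nat_lit 6) (.nd (nat_lit 10) 
(.lf (nat_lit 472530977) (dlOf (nat_lit 1) (nat_lit 0x800189b0681))) 
(.lf (nat_lit 1345995809) (dlOf (nat_lit 1) (nat_lit 0x28008000800200060008e22883)))) 
(.lf (nat_lit 1344946273) (dlOf (nat_lit 1) (nat_lit 0xa00089a0901)))))))) (.nd (nat_lit 5) 
(.nd (nat_lit 19) (.nd (nat_lit 26) (.nd (nat_lit 22) (.nd (nat_lit 21) (.nd (nat_lit 28) 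
(.nd (nat_lit 20) 
(.lf (nat_lit 1611022337) (dlOf (nat_lit 1) (nat_lit 0x480080004002000800080c0003))) 
(.lf (nat_lit 26624001) (dlOf (nat_lit 1) (nat_lit 0x20018c50001)))) (.nd (nat_lit 6) 
(.lf (nat_lit 4026941441) (dlOf (nat_lit 2) (nat_lit 0x240000000002009200080d0001))) 
(.lf (nat_lit 4026941505) (dlOf (nat_lit 7) (nat_lit 0x1002c001440400340160007d02002602000180058001f010018008000c40160007304000800b000148100020058000500800e80080060002001c00080d0b83))))) 
(.nd (nat_lit 6) (.nd (nat_lit 7) 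
(.lf (nat_lit 37109761) (dlOf (nat_lit 1) (nat_lit 0x600190a0001))) 
(.lf (nat_lit 11944065) (dlOf (nat_lit 1) (nat_lit 0x4002000200086c0102)))) (.nd (nat_lit 9) 
(.lf (nat_lit 2506817) (dlOf (nat_lit 3) (nat_lit 0x140000003002000800000015018160d00))) 
(.lf (nat_lit 1344686657) (dlOf (nat_lit 1) (nat_lit 0x28008001800200020008925203)))))) 
(.nd (nat_lit 6) (.nd (nat_lit 23) (.nd (nat_lit 7) 
(.lf (nat_lit 3494264833) (dlOf (nat_lit 1) (nat_lit 0x1800080068002008200081e0003))) 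
(.lf (nat_lit 23478401) (dlOf (nat_lit 1) (nat_lit 0x8008000400200020008b80103)))) 
(.nd (nat_lit 10) (.lf (nat_lit 12992513) (dlOf (nat_lit 1) (nat_lit 0x600286f0001))) 
(.lf (nat_lit 46550017) (dlOf (nat_lit 1) (nat_lit 0x400400020009385f02))))) (.nd (nat_lit 7) 
(.nd (nat_lit 20) 
(.lf (nat_lit 1346781249) (dlOf (nat_lit 2) (nat_lit 0x42ac0023c0200080019000601))) 
(.lf (nat_lit 49692737) (dlOf (nat_lit 1) (nat_lit 0x20019480601)))) 
(.lf (nat_lit 14041281) (dlOf (nat_lit 1) (nat_lit 0x8008000400200020008750403)))))) 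
(.nd (nat_lit 29) (.nd (nat_lit 8) (.nd (nat_lit 6) (.nd (nat_lit 30) 
(.lf (nat_lit 4362485761) (dlOf (nat_lit 1) (nat_lit 0x60800802b400200360008090003))) 
(.lf (nat_lit 3288743937) (dlOf (nat_lit 2) (nat_lit 0x240000000002009200080d0001)))) 
(.lf (nat_lit 3288744001) (dlOf (nat_lit 7) (nat_lit 0x1002c001440400340160007d02002602000180058001f010018008000c40160007304000800b0001181000200580003c0800e80080060002001c00080d0b83)))) 
(.nd (nat_lit 7) (.lf (nat_lit 4362486017) (dlOf (nat_lit 1) (nat_lit 0x20018090481))) 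
(.lf (nat_lit 4362486145) (dlOf (nat_lit 3) (nat_lit 0xc05300764010014023803af00800c8008005c002003a0008090783))))) 
(.nd (nat_lit 27) (.nd (nat_lit 6) 
(.lf (nat_lit 2756067329) (dlOf (nat_lit 1) (nat_lit 0x1800080068002008200081e0003))) 
(.nd (nat_lit 21) 
(.lf (nat_lit 6241534017) (dlOf (nat_lit 3) (nat_lit 0x8024000b102000402700010128001f81002380080154002003c0008100483))) 
(.lf (nat_lit 2753970241) (dlOf (nat_lit 3) (nat_lit 0x2aa0880001001001604400002c08017800800bc002000c00080a0d03))))) 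
(.nd (nat_lit 8) (.nd (nat_lit 28) 
(.lf (nat_lit 738607105) (dlOf (nat_lit 1) (nat_lit 0x480080004002000800080c0003))) 
(.lf (nat_lit 4228268033) (dlOf (nat_lit 1) (nat_lit 0x60800802b400200360008090003)))) 
(.lf (nat_lit 4228268289) (dlOf (nat_lit 1) (nat_lit 0x20018090481))))))) (.nd (nat_lit 8) 
(.nd (nat_lit 21) (.nd (nat_lit 6) (.nd (nat_lit 20) (.nd (nat_lit 26) 
(.lf (nat_lit 5772296193) (dlOf (nat_lit 1) (nat_lit 0xb800200100008090002))) 
(.lf (nat_lit 68042753) (dlOf (nat_lit 1) (nat_lit 0xc00183b0001)))) (.nd (nat_lit 22) 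
(.lf (nat_lit 10371073) (dlOf (nat_lit 1) (nat_lit 0x80080004002000200085d0003))) 
(.lf (nat_lit 14565377) (dlOf (nat_lit 1) (nat_lit 0x8008000c00200020008770003))))) 
(.nd (nat_lit 24) (.lf (nat_lit 42876993) (dlOf (nat_lit 1) (nat_lit 0x400200040009280602))) 
(.lf (nat_lit 59654209) (dlOf (nat_lit 1) (nat_lit 0x1000200020009820602))))) (.nd (nat_lit 7) 
(.nd (nat_lit 9) (.lf (nat_lit 3492692993) (dlOf (nat_lit 1) (nat_lit 0x200080f2881))) 
(.lf (nat_lit 3493741057) (dlOf (nat_lit 4) (nat_lit 0xa01080029a04022c084001430200c0042000668181b0d80)))) 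
(.nd (nat_lit 6) (.nd (nat_lit 20) 
(.lf (nat_lit 19808385) (dlOf (nat_lit 1) (nat_lit 0x1c00289d0301))) 
(.lf (nat_lit 12468353) (dlOf (nat_lit 1) (nat_lit 0xc00086c0101)))) 
(.lf (nat_lit 19815105) (dlOf (nat_lit 1) (nat_lit 0x100080004002000200089db983)))))) 
(.nd (nat_lit 6) (.nd (nat_lit 7) (.nd (nat_lit 9) 
(.lf (nat_lit 18759937) (dlOf (nat_lit 1) (nat_lit 0x960018970701))) (.nd (nat_lit 10) 
(.lf (nat_lit 1345211137) (dlOf (nat_lit 2) (nat_lit 0x4785940002204010c00200040008b05a82))) 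
(.lf (nat_lit 3492693761) (dlOf (nat_lit 1) (nat_lit 0x200280f3b81))))) (.nd (nat_lit 9) 
(.nd (nat_lit 10) 
(.lf (nat_lit 19814785) (dlOf (nat_lit 1) (nat_lit 0x1300080060002000400089daf83))) 
(.lf (nat_lit 1344165249) (dlOf (nat_lit 1) (nat_lit 0x1200283d9901)))) 
(.lf (nat_lit 8279937) (dlOf (nat_lit 1) (nat_lit 0xc00008077c0020208000851a303))))) 
(.nd (nat_lit 28) (.nd (nat_lit 21) (.nd (nat_lit 26) 
(.lf (nat_lit 537805121) (dlOf (nat_lit 1) (nat_lit 0x400081b0601))) 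
(.lf (nat_lit 2752397633) (dlOf (nat_lit 6) (nat_lit 0x281fa0051c8100010fd0027080800a07e8013460400503f4009710200281fa00000018014c00)))) 
(.lf (nat_lit 3031361) (dlOf (nat_lit 1) (nat_lit 0xe0018200601)))) (.nd (nat_lit 31) 
(.nd (nat_lit 7) (.lf (nat_lit 1410220353) (dlOf (nat_lit 1) (nat_lit 0x400081b0601))) 
(.lf (nat_lit 5772296641) (dlOf (nat_lit 1) (nat_lit 0x20018091081)))) (.nd (nat_lit 20) 
(.lf (nat_lit 3490595137) (dlOf (nat_lit 6) (nat_lit 0x281e8002520100010f40010b40800a07a0008120400503d0003d70200281e800000018014c00))) 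
(.lf (nat_lit 3493740865) (dlOf (nat_lit 2) (nat_lit 0x23014c0008c0400a0004005c00081b0602))))))))) 
(.nd (nat_lit 6) (.nd (nat_lit 28) (.nd (nat_lit 19) (.nd (nat_lit 21) (.nd (nat_lit 30) 
(.nd (nat_lit 9) (.nd (nat_lit 22) 
(.lf (nat_lit 537280545) (dlOf (nat_lit 2) (nat_lit 0x2c05500003018070680))) 
(.lf (nat_lit 2756067361) (dlOf (nat_lit 6) (nat_lit 0x9814c00040a0000140400260540008028800c013800a408a001000b000098500a002a004c8144000c08a0001206000405400050288000441000700e40000a04003c004003800181e0802)))) 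
(.lf (nat_lit 21381665) (dlOf (nat_lit 2) (nat_lit 0x4d32001f6818a37f00)))) (.nd (nat_lit 27) 
(.nd (nat_lit 29) 
(.lf (nat_lit 3288743969) (dlOf (nat_lit 2) (nat_lit 0x1102000000008020800800c400200a200080d0883))) 
(.lf (nat_lit 1678131233) (dlOf (nat_lit 1) (nat_lit 0x80080004002000200081a0003)))) 
(.lf (nat_lit 3959832609) (dlOf (nat_lit 2) (nat_lit 0x4046003e8018170000))))) (.nd (nat_lit 20) 
(.nd (nat_lit 22) 
(.lf (nat_lit 2753970209) (dlOf (nat_lit 2) (nat_lit 0x831c000800000b8a0280a0900))) 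
(.nd (nat_lit 23) (.lf (nat_lit 6701089) (dlOf (nat_lit 1) (nat_lit 0x800200020008440a82))) 
(.lf (nat_lit 48644129) (dlOf (nat_lit 1) (nat_lit 0x40019420181))))) (.nd (nat_lit 7) 
(.lf (nat_lit 7749665) (dlOf (nat_lit 1) (nat_lit 0x8002000200084d0a82))) 
(.lf (nat_lit 11944353) (dlOf (nat_lit 1) (nat_lit 0x200186c0781)))))) (.nd (nat_lit 24) 
(.nd (nat_lit 7) (.nd (nat_lit 23) 
(.lf (nat_lit 933921) (dlOf (nat_lit 1) (nat_lit 0x20018040481))) 
(.lf (nat_lit 42876961) (dlOf (nat_lit 2) (nat_lit 0x19d460000e0200020009280181)))) 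
(.lf (nat_lit 37636513) (dlOf (nat_lit 1) (nat_lit 0x4002000200090d4e82)))) (.nd (nat_lit 7) 
(.nd (nat_lit 20) (.nd (nat_lit 23) 
(.lf (nat_lit 17711137) (dlOf (nat_lit 1) (nat_lit 0x600288f0c81))) 
(.lf (nat_lit 59654177) (dlOf (nat_lit 1) (nat_lit 0x18008000400200020009820183)))) 
(.lf (nat_lit 22954017) (dlOf (nat_lit 2) (nat_lit 0x1b38f0003c018b40500)))) 
(.lf (nat_lit 19815841) (dlOf (nat_lit 1) (nat_lit 0x400080010002000c00089dcb03)))))) 
(.nd (nat_lit 29) (.nd (nat_lit 32) (.nd (nat_lit 31) (.nd (nat_lit 22) 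
(.lf (nat_lit 1409695777) (dlOf (nat_lit 2) (nat_lit 0x2c05500003018070680))) 
(.lf (nat_lit 1346781217) (dlOf (nat_lit 2) (nat_lit 0x8d0ab001e050c01d827600e60cd000e04b001281d400040e60003e0e00ca0029000181)))) 
(.nd (nat_lit 9) 
(.lf (nat_lit 3492167713) (dlOf (nat_lit 2) (nat_lit 0x8334000800000ad68280a0900))) 
(.lf (nat_lit 3490595361) (dlOf (nat_lit 1) (nat_lit 0x400400020008017f02))))) (.nd (nat_lit 27) 
(.nd (nat_lit 30) 
(.lf (nat_lit 4563812385) (dlOf (nat_lit 3) (nat_lit 0x61c0580003b020078029001b0138000001004700080080002000e00080f0b03))) 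
(.lf (nat_lit 5637554209) (dlOf (nat_lit 1) (nat_lit 0xa0008100181)))) (.nd (nat_lit 26) 
(.lf (nat_lit 4698030113) (dlOf (nat_lit 3) (nat_lit 0x61c0580003b020078029001b0138000001004700080080002000e00080f0b03))) 
(.lf (nat_lit 5838880801) (dlOf (nat_lit 1) (nat_lit 0xe00081e0801)))))) (.nd (nat_lit 26) 
(.nd (nat_lit 21) (.nd (nat_lit 30) 
(.lf (nat_lit 805716001) (dlOf (nat_lit 1) (nat_lit 0x80080004002000200081a0003))) 
(.lf (nat_lit 4026941473) (dlOf (nat_lit 2) (nat_lit 0x1102000000008020800800c400200a200080d0883)))) 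
(.lf (nat_lit 1881554977) (dlOf (nat_lit 1) (nat_lit 0x2400400040008f50682)))) (.nd (nat_lit 27) 
(.lf (nat_lit 6241533985) (dlOf (nat_lit 1) (nat_lit 0xa0008100181))) 
(.lf (nat_lit 3154526241) (dlOf (nat_lit 2) (nat_lit 0x1e702a004301440230098014c03300290028002c82804080080234002000400081f0603))))))) 
(.nd (nat_lit 7) (.nd (nat_lit 19) (.nd (nat_lit 9) (.nd (nat_lit 23) (.nd (nat_lit 27) 
(.lf (nat_lit 4362485857) (dlOf (nat_lit 1) (nat_lit 0x120028090001))) 
(.lf (nat_lit 2349219937) (dlOf (nat_lit 1) (nat_lit 0x200281c1381)))) (.nd (nat_lit 20) 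
(.lf (nat_lit 48644193) (dlOf (nat_lit 1) (nat_lit 0x80019420901))) 
(.lf (nat_lit 9846881) (dlOf (nat_lit 1) (nat_lit 0x620018580781))))) (.nd (nat_lit 8) 
(.lf (nat_lit 8799841) (dlOf (nat_lit 2) (nat_lit 0x146c8000a2a800048c100016838513900))) 
(.lf (nat_lit 8803169) (dlOf (nat_lit 1) (nat_lit 0x1e0028518f81))))) (.nd (nat_lit 8) 
(.nd (nat_lit 9) (.nd (nat_lit 20) 
(.lf (nat_lit 2819506273) (dlOf (nat_lit 3) (nat_lit 0x301b0004e00800880d8001d0040010004002c00182c0482))) 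
(.lf (nat_lit 473841761) (dlOf (nat_lit 1) (nat_lit 0x20018fb1981)))) 
(.lf (nat_lit 2754498145) (dlOf (nat_lit 1) (nat_lit 0x14004001600080f7182)))) (.nd (nat_lit 26) 
(.lf (nat_lit 1343111521) (dlOf (nat_lit 1) (nat_lit 0x400200020008150902))) 
(.lf (nat_lit 4094574945) (dlOf (nat_lit 1) (nat_lit 0x8008000400200020008050e83)))))) 
(.nd (nat_lit 21) (.nd (nat_lit 19) (.nd (nat_lit 8) 
(.lf (nat_lit 1611022561) (dlOf (nat_lit 2) (nat_lit 0xe052000201a0000881000180080010002000600080c1a83))) 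
(.nd (nat_lit 9) (.lf (nat_lit 21381601) (dlOf (nat_lit 1) (nat_lit 0x1c0008a37281))) 
(.lf (nat_lit 872825825) (dlOf (nat_lit 1) (nat_lit 0x6e00280e2881))))) (.nd (nat_lit 26) 
(.lf (nat_lit 3490595297) (dlOf (nat_lit 2) (nat_lit 0xb1178000a00800b8008005400200740008017283))) 
(.lf (nat_lit 2752397793) (dlOf (nat_lit 1) (nat_lit 0x180080028002003a0008017d03))))) 
(.nd (nat_lit 8) (.nd (nat_lit 9) 
(.lf (nat_lit 2755022049) (dlOf (nat_lit 8) (nat_lit 0x500a60004051001802800010138007009a0018045002301e800200e0002801600035120044054001102980108144004c0a0003c04e0017026801c8114008007a0003410000e003000180100010328001817c001c0ba000805c001c02a000b014c00940a2002a05000170270006013400b008a001e03f001d01e800180b80008042001401c000200d0002002c00080000002a26000605e0001381000602f00008c08002015000018040084004000800080f6502))) 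
(.lf (nat_lit 20339425) (dlOf (nat_lit 1) (nat_lit 0x40008000c002000c00089db983)))) 
(.nd (nat_lit 9) (.lf (nat_lit 23478753) (dlOf (nat_lit 1) (nat_lit 0x40028b80c01))) 
(.lf (nat_lit 3492693985) (dlOf (nat_lit 3) (nat_lit 0x10100000280400080800000b02000200180f4581))))))))))) 
(.nd (nat_lit 18) (.nd (nat_lit 5) (.nd (nat_lit 17) (.nd (nat_lit 6) (.nd (nat_lit 26) 
(.nd (nat_lit 28) (.nd (nat_lit 22) (.nd (nat_lit 7) 
(.lf (nat_lit 2819112969) (dlOf (nat_lit 11) (nat_lit 0x3f40d40015102002a036007e01100053c1000081a8002920400780d40066022000a28200fb0350004e40807d81a80021404032c0d4000e902019e06a000738100fb0350003900803b81a8001c404012000400a600181a0482))) 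
(.nd (nat_lit 10) (.lf (nat_lit 8931465) (dlOf (nat_lit 1) (nat_lit 0x800400020008514802))) 
(.lf (nat_lit 6039819401) (dlOf (nat_lit 1) (nat_lit 0x20028009501))))) (.nd (nat_lit 20) 
(.nd (nat_lit 21) 
(.lf (nat_lit 55066633) (dlOf (nat_lit 2) (nat_lit 0x192c401f1604000c002000e00096a0002))) 
(.lf (nat_lit 15220745) (dlOf (nat_lit 1) (nat_lit 0x60004003c00087c0482)))) (.nd (nat_lit 9) 
(.lf (nat_lit 30949385) (dlOf (nat_lit 1) (nat_lit 0x400400020018e50582))) 
(.lf (nat_lit 58212873) (dlOf (nat_lit 1) (nat_lit 0x14002002400097c7b02)))))) (.nd (nat_lit 10) 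
(.nd (nat_lit 21) (.nd (nat_lit 22) (.nd (nat_lit 27) 
(.lf (nat_lit 805847049) (dlOf (nat_lit 1) (nat_lit 0x380080028002001a00081c0003))) 
(.lf (nat_lit 3624419337) (dlOf (nat_lit 2) (nat_lit 0x4014000f00181a0480)))) 
(.lf (nat_lit 3494395913) (dlOf (nat_lit 1) (nat_lit 0x800400120008210802)))) 
(.lf (nat_lit 3492298761) (dlOf (nat_lit 1) (nat_lit 0x8004000600080c0802)))) (.nd (nat_lit 7) 
(.lf (nat_lit 1342198793) (dlOf (nat_lit 2) (nat_lit 0xc0470012700800600080014002001a0008009203))) 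
(.lf (nat_lit 4160771209) (dlOf (nat_lit 1) (nat_lit 0x78008000c00200040008009503)))))) 
(.nd (nat_lit 19) (.nd (nat_lit 11) (.nd (nat_lit 7) (.nd (nat_lit 9) 
(.lf (nat_lit 470827017) (dlOf (nat_lit 1) (nat_lit 0x680080004002000200081c0483))) 
(.lf (nat_lit 2617267721) (dlOf (nat_lit 3) (nat_lit 0xc00500607010012003002e48080010008000400200040008009c03)))) 
(.lf (nat_lit 471875721) (dlOf (nat_lit 1) (nat_lit 0x200286b0481)))) (.nd (nat_lit 7) 
(.nd (nat_lit 9) 
(.lf (nat_lit 1543522313) (dlOf (nat_lit 2) (nat_lit 0x6018001500000015c100030008005c002000e0008004703))) 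
(.lf (nat_lit 4362099209) (dlOf (nat_lit 2) (nat_lit 0x20019802fdc08026000801d80020074000800b283)))) 
(.lf (nat_lit 2754627977) (dlOf (nat_lit 1) (nat_lit 0x400080004002000400080f4e83))))) 
(.nd (nat_lit 31) (.nd (nat_lit 9) (.nd (nat_lit 27) 
(.lf (nat_lit 1678262281) (dlOf (nat_lit 1) (nat_lit 0x380080028002001a00081c0003))) 
(.lf (nat_lit 1007173641) (dlOf (nat_lit 1) (nat_lit 0x20028210281)))) 
(.lf (nat_lit 604520969) (dlOf (nat_lit 2) (nat_lit 0xe03d000801a000480a80020040000c00c0007004800480000027c1c0008004000a00182e8002)))) 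
(.nd (nat_lit 10) (.nd (nat_lit 21) (.nd (nat_lit 22) 
(.lf (nat_lit 2886221833) (dlOf (nat_lit 2) (nat_lit 0x4013000a78181a0480))) 
(.lf (nat_lit 2756198409) (dlOf (nat_lit 1) (nat_lit 0x800400120008210802)))) 
(.lf (nat_lit 2754101257) (dlOf (nat_lit 1) (nat_lit 0x8004000600080c0802)))) 
(.lf (nat_lit 2752005129) (dlOf (nat_lit 1) (nat_lit 0x20018002881))))))) (.nd (nat_lit 8) 
(.nd (nat_lit 7) (.nd (nat_lit 19) (.nd (nat_lit 20) (.nd (nat_lit 10) 
(.lf (nat_lit 52445257) (dlOf (nat_lit 1) (nat_lit 0x18008000800200060009530603))) 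
(.lf (nat_lit 939543625) (dlOf (nat_lit 1) (nat_lit 0x20018006081)))) (.nd (nat_lit 26) 
(.lf (nat_lit 3490725961) (dlOf (nat_lit 10) (nat_lit 0xbf07ac033c3a4000340400141eb000198101550f5805c87480080280000310600fc1eb0001801010a0fd00b987ac011c3d401421d2000130400120f58000940800487ac000480402cc3f402901eb00860e90000881800387ac000420400b800200240008020882))) 
(.lf (nat_lit 2752528457) (dlOf (nat_lit 10) (nat_lit 0xbf07f4033c3ce000340400141fd000198101550fe805c879c0080280000310600fc1fd0001801010a10780b987f4011c3f801421e7000130400120fe8000940800487f4000480402cc41e02901fd00860f38000881800387f4000420400b800200240008020882))))) 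
(.nd (nat_lit 26) (.nd (nat_lit 10) 
(.lf (nat_lit 3492298825) (dlOf (nat_lit 4) (nat_lit 0xfc464000340201301e7000170100390f38000b008015000800d8002021a00080c1483))) 
(.lf (nat_lit 20466761) (dlOf (nat_lit 1) (nat_lit 0x400400bc00089d6082)))) (.nd (nat_lit 21) 
(.lf (nat_lit 2756198473) (dlOf (nat_lit 3) (nat_lit 0x9c0000001702003400000008018211480))) 
(.lf (nat_lit 2754101321) (dlOf (nat_lit 3) (nat_lit 0x83f20001b0200221f9000000180c1880)))))) 
(.nd (nat_lit 21) (.nd (nat_lit 12) (.nd (nat_lit 26) 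
(.lf (nat_lit 5502944457) (dlOf (nat_lit 1) (nat_lit 0x20018002d81))) 
(.lf (nat_lit 6106924233) (dlOf (nat_lit 1) (nat_lit 0x20028002d81)))) (.nd (nat_lit 9) 
(.lf (nat_lit 67130569) (dlOf (nat_lit 2) (nat_lit 0x350208019f0080398008002c002001e0008009503))) 
(.lf (nat_lit 2952813257) (dlOf (nat_lit 1) (nat_lit 0xe800800f4002004a000800b983))))) 
(.nd (nat_lit 10) (.nd (nat_lit 9) 
(.lf (nat_lit 24133833) (dlOf (nat_lit 1) (nat_lit 0x30008000c00200040008b80483))) 
(.lf (nat_lit 19944137) (dlOf (nat_lit 1) (nat_lit 0x4002000200089d8c82)))) (.nd (nat_lit 24) 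
(.lf (nat_lit 1009272009) (dlOf (nat_lit 1) (nat_lit 0x80080004002000200090e2d83))) 
(.lf (nat_lit 52970697) (dlOf (nat_lit 1) (nat_lit 0x40029572d81))))))) (.nd (nat_lit 10) 
(.nd (nat_lit 9) (.nd (nat_lit 27) (.nd (nat_lit 19) 
(.lf (nat_lit 4831857097) (dlOf (nat_lit 1) (nat_lit 0x60018004e81))) 
(.lf (nat_lit 1344817609) (dlOf (nat_lit 1) (nat_lit 0xb8008001000200460008984e83)))) 
(.nd (nat_lit 28) 
(.lf (nat_lit 2818591177) (dlOf (nat_lit 2) (nat_lit 0x600280028000019640800bc00200080008004e82))) 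
(.lf (nat_lit 6308252105) (dlOf (nat_lit 1) (nat_lit 0x20018004e81))))) (.nd (nat_lit 7) 
(.lf (nat_lit 20466505) (dlOf (nat_lit 1) (nat_lit 0x200289d5c01))) (.nd (nat_lit 11) 
(.lf (nat_lit 4362093513) (dlOf (nat_lit 1) (nat_lit 0xc00400040018002882))) 
(.lf (nat_lit 5771905993) (dlOf (nat_lit 1) (nat_lit 0x400200020008005d82)))))) (.nd (nat_lit 7) 
(.nd (nat_lit 11) 
(.lf (nat_lit 57689417) (dlOf (nat_lit 1) (nat_lit 0x98008004800200220009793303))) 
(.nd (nat_lit 27) (.lf (nat_lit 1409310025) (dlOf (nat_lit 1) (nat_lit 0x2000800c901))) 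
(.lf (nat_lit 4227882313) (dlOf (nat_lit 2) (nat_lit 0x1c0190019ac08027000800080020016000800c903))))) 
(.nd (nat_lit 9) (.lf (nat_lit 43009481) (dlOf (nat_lit 1) (nat_lit 0x100080008002000400092a3603))) 
(.nd (nat_lit 26) 
(.lf (nat_lit 536889289) (dlOf (nat_lit 1) (nat_lit 0x28008000c00200080008004483))) 
(.lf (nat_lit 4362094537) (dlOf (nat_lit 1) (nat_lit 0xe800400180008004482))))))))) 
(.nd (nat_lit 29) (.nd (nat_lit 8) (.nd (nat_lit 19) (.nd (nat_lit 7) (.nd (nat_lit 6) 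
(.nd (nat_lit 22) 
(.lf (nat_lit 25313289) (dlOf (nat_lit 4) (nat_lit 0x12e7400176b7000a6820007ac100036008004dee40146ec600a32e900699498028ca40000f8140170002005c0008bf0482))) 
(.nd (nat_lit 23) 
(.lf (nat_lit 1346519049) (dlOf (nat_lit 1) (nat_lit 0x8008000400200020008f80003))) 
(.lf (nat_lit 12730377) (dlOf (nat_lit 1) (nat_lit 0x22000186e0001))))) (.nd (nat_lit 20) 
(.lf (nat_lit 52576329) (dlOf (nat_lit 1) (nat_lit 0x400400020019550602))) 
(.lf (nat_lit 24264777) (dlOf (nat_lit 1) (nat_lit 0x40018b90e81))))) (.nd (nat_lit 9) 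
(.nd (nat_lit 10) (.lf (nat_lit 2244745) (dlOf (nat_lit 1) (nat_lit 0x400200020008150102))) 
(.lf (nat_lit 3221380233) (dlOf (nat_lit 2) (nat_lit 0x603e0003881811c200)))) 
(.lf (nat_lit 4563552905) (dlOf (nat_lit 2) (nat_lit 0x60000000a40800a8008005400200040008095483))))) 
(.nd (nat_lit 23) (.nd (nat_lit 20) (.nd (nat_lit 26) 
(.lf (nat_lit 134889481) (dlOf (nat_lit 5) (nat_lit 0xee025007980bc000fa08044009401ec046010d017804c0030000f81003a009401ee02f0003a8200ee025007a80bc000e6080060004009200180d0482))) 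
(.lf (nat_lit 201998345) (dlOf (nat_lit 5) (nat_lit 0xee025007980bc000fa08044009401ec046010d017804c0030000f81003a009401ee02f0003a8200ee025007a80bc000e6080060004009200180d0482)))) 
(.lf (nat_lit 3817481) (dlOf (nat_lit 2) (nat_lit 0x10fa00000004001800400020008230002)))) 
(.nd (nat_lit 6) (.nd (nat_lit 7) 
(.lf (nat_lit 10108937) (dlOf (nat_lit 1) (nat_lit 0x200285b0481))) 
(.lf (nat_lit 12206217) (dlOf (nat_lit 1) (nat_lit 0x80080008002000200086c0103)))) (.nd (nat_lit 7) 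
(.lf (nat_lit 10109001) (dlOf (nat_lit 8) (nat_lit 0x7138c60369bd60001a0200b7e318008ef58000660805ff8c60121bd6000190201aee3180d56f58000620800638c600030020365c6301a7deb0002ec300024e08000260800267f1000110185b0880))) 
(.lf (nat_lit 43664585) (dlOf (nat_lit 1) (nat_lit 0x200292a2d81))))))) (.nd (nat_lit 6) 
(.nd (nat_lit 20) (.nd (nat_lit 7) (.nd (nat_lit 10) 
(.lf (nat_lit 4295115017) (dlOf (nat_lit 1) (nat_lit 0x20028090481))) 
(.lf (nat_lit 35800329) (dlOf (nat_lit 1) (nat_lit 0x800200020009012f82)))) 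
(.lf (nat_lit 3355591561) (dlOf (nat_lit 2) (nat_lit 0x40100001580800700080064002003c00080a2583)))) 
(.nd (nat_lit 9) (.nd (nat_lit 10) 
(.lf (nat_lit 473579785) (dlOf (nat_lit 1) (nat_lit 0x2400400040008f63682))) 
(.lf (nat_lit 5772559625) (dlOf (nat_lit 1) (nat_lit 0x1400400040008092f82)))) 
(.lf (nat_lit 20077321) (dlOf (nat_lit 1) (nat_lit 0x2200080004002007400089db983))))) 
(.nd (nat_lit 7) (.nd (nat_lit 10) 
(.lf (nat_lit 473058121) (dlOf (nat_lit 1) (nat_lit 0xc0028c95c01))) 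
(.lf (nat_lit 6442600265) (dlOf (nat_lit 1) (nat_lit 0xe00180f3e81)))) (.nd (nat_lit 9) 
(.nd (nat_lit 20) 
(.lf (nat_lit 54675913) (dlOf (nat_lit 2) (nat_lit 0x9ce40196404004000200180009654e82))) 
(.lf (nat_lit 38947273) (dlOf (nat_lit 1) (nat_lit 0x20009194e81)))) 
(.lf (nat_lit 676809) (dlOf (nat_lit 1) (nat_lit 0x1a0028009201))))))) (.nd (nat_lit 26) 
(.nd (nat_lit 6) (.nd (nat_lit 8) (.nd (nat_lit 19) 
(.lf (nat_lit 2952937481) (dlOf (nat_lit 6) (nat_lit 0x280a800d003800f800400ec5830034002006e5c08001800c0372a040208008003800300db982006a016004680a802140380014014008e002002d800c0000018002000400680008030002))) 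
(.nd (nat_lit 30) (.lf (nat_lit 2819244041) (dlOf (nat_lit 1) (nat_lit 0x120028200001))) 
(.lf (nat_lit 3892985865) (dlOf (nat_lit 2) (nat_lit 0x4012004dfc0800100080018002000a00082c0003))))) 
(.nd (nat_lit 7) (.lf (nat_lit 671237897) (dlOf (nat_lit 1) (nat_lit 0x1800400020008143b82))) 
(.lf (nat_lit 1610760585) (dlOf (nat_lit 1) (nat_lit 0x1c00400080008091002))))) (.nd (nat_lit 7) 
(.nd (nat_lit 8) (.nd (nat_lit 19) 
(.lf (nat_lit 2952937545) (dlOf (nat_lit 3) (nat_lit 0x5c0040001901005200200005c080138008003400200480008030683))) 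
(.lf (nat_lit 805978185) (dlOf (nat_lit 2) (nat_lit 0x24009800040080118008002400200b00008201483)))) 
(.lf (nat_lit 671237961) (dlOf (nat_lit 1) (nat_lit 0x20028143e81)))) (.nd (nat_lit 8) 
(.lf (nat_lit 5234639049) (dlOf (nat_lit 1) (nat_lit 0x18008000400200020008071b83))) 
(.lf (nat_lit 1611286985) (dlOf (nat_lit 1) (nat_lit 0x400400020008124e82)))))) (.nd (nat_lit 9) 
(.nd (nat_lit 30) (.nd (nat_lit 6) (.nd (nat_lit 28) 
(.lf (nat_lit 604127241) (dlOf (nat_lit 3) (nat_lit 0xc01100ec581001901b0002005800140220000006001e0008030001))) 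
(.lf (nat_lit 5167529993) (dlOf (nat_lit 1) (nat_lit 0x800200020008080002)))) 
(.lf (nat_lit 604127305) (dlOf (nat_lit 1) (nat_lit 0x1c00200260008030682)))) (.nd (nat_lit 6) 
(.nd (nat_lit 7) (.lf (nat_lit 4096409609) (dlOf (nat_lit 1) (nat_lit 0x400400020008110002))) 
(.lf (nat_lit 5972838537) (dlOf (nat_lit 1) (nat_lit 0x40018144801)))) 
(.lf (nat_lit 1678393417) (dlOf (nat_lit 1) (nat_lit 0x1000028201881))))) (.nd (nat_lit 7) 
(.nd (nat_lit 8) (.nd (nat_lit 11) 
(.lf (nat_lit 4094312969) (dlOf (nat_lit 1) (nat_lit 0xc0028037b01))) 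
(.lf (nat_lit 3959577097) (dlOf (nat_lit 4) (nat_lit 0x12205400be020005600e0001805c016e0160060705001c017802fdc0800300bc000000403d80040002000811b282)))) 
(.lf (nat_lit 738347785) (dlOf (nat_lit 2) (nat_lit 0x3814800140680002e0400040008095b01)))) 
(.nd (nat_lit 6) (.lf (nat_lit 6241274761) (dlOf (nat_lit 1) (nat_lit 0x3000180d5c01))) 
(.lf (nat_lit 3959571401) (dlOf (nat_lit 1) (nat_lit 0x60008000800200400008112883))))))))) 
(.nd (nat_lit 17) (.nd (nat_lit 26) (.nd (nat_lit 7) (.nd (nat_lit 19) (.nd (nat_lit 23) 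
(.nd (nat_lit 8) (.nd (nat_lit 20) 
(.lf (nat_lit 20987945) (dlOf (nat_lit 1) (nat_lit 0x420004009c0008a00a02))) 
(.lf (nat_lit 3490725929) (dlOf (nat_lit 1) (nat_lit 0xf8008001000200080008020503)))) 
(.nd (nat_lit 6) (.lf (nat_lit 3892333353) (dlOf (nat_lit 1) (nat_lit 0x20018005c01))) 
(.lf (nat_lit 1342199657) (dlOf (nat_lit 1) (nat_lit 0xa002800a301))))) (.nd (nat_lit 20) 
(.nd (nat_lit 6) (.lf (nat_lit 27279401) (dlOf (nat_lit 1) (nat_lit 0x20018cc0801))) 
(.lf (nat_lit 12599401) (dlOf (nat_lit 2) (nat_lit 0x1dcd0c00f23db000080286d1400)))) 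
(.nd (nat_lit 21) (.lf (nat_lit 13647913) (dlOf (nat_lit 1) (nat_lit 0x4c0018740581))) 
(.lf (nat_lit 28327977) (dlOf (nat_lit 3) (nat_lit 0x314d80008902000ca7d000b536000220100048008002400200140008d80783)))))) 
(.nd (nat_lit 21) (.nd (nat_lit 27) (.nd (nat_lit 20) 
(.lf (nat_lit 21512233) (dlOf (nat_lit 1) (nat_lit 0x58008002000200120008a40283))) 
(.lf (nat_lit 1343766569) (dlOf (nat_lit 2) (nat_lit 0x10d68000cc0800e8008002800200040008360803)))) 
(.nd (nat_lit 28) (.nd (nat_lit 29) 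
(.lf (nat_lit 134758441) (dlOf (nat_lit 1) (nat_lit 0x5400080b0d81))) 
(.lf (nat_lit 2819113001) (dlOf (nat_lit 4) (nat_lit 0x3022800300e40004808000408c000a021000108200080228000380800d00080148002006c00081a0683)))) 
(.lf (nat_lit 3624419369) (dlOf (nat_lit 1) (nat_lit 0x6c002005400081a0602))))) (.nd (nat_lit 23) 
(.nd (nat_lit 28) (.lf (nat_lit 2637865) (dlOf (nat_lit 1) (nat_lit 0x60008180a81))) 
(.lf (nat_lit 3492298793) (dlOf (nat_lit 20) (nat_lit 0x22511a003888cc01b445a00c422200621108000902811708d001d446600d822d006111100290884000441408a8468007222d0061111003080000004010089846800a822d006111100007c180f708d00003c0407884680001d0203882340000d81003111a0000680800087ec00243de004e1e600040f2000c078800703be000c15a00f90aa00310548001829a00401350000c8b002e0f3008085500003008008c3f600c21ef00370f3000e878801bc3be00021cd01050aa00328534002827400aa135001709200005c5800507ec00143de00761e6001e0ef807c0550017c2a400bc14d000a09d0000584001d87980002a04011c3cc02041540000a02002e0f300158550000260800b43cc0000b0200a22340000281000611a0000080801e07b402403cc0244154000809d0000002011c80082180002118400080c0c03))))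 
(.lf (nat_lit 11026473) (dlOf (nat_lit 3) (nat_lit 0x1ab4f000ccc9c006a47a00343a9001a1c1000d089c0068000000560e000752f00019018660680)))))) 
(.nd (nat_lit 6) (.nd (nat_lit 8) (.nd (nat_lit 9) 
(.lf (nat_lit 51397801) (dlOf (nat_lit 1) (nat_lit 0x1380009512c01))) (.nd (nat_lit 11) 
(.lf (nat_lit 2415937193) (dlOf (nat_lit 1) (nat_lit 0x1a0028003a81))) 
(.lf (nat_lit 20137) (dlOf (nat_lit 1) (nat_lit 0x40018007201))))) (.nd (nat_lit 9) 
(.nd (nat_lit 10) (.lf (nat_lit 3489679785) (dlOf (nat_lit 1) (nat_lit 0x20018004e81))) 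
(.lf (nat_lit 1342201257) (dlOf (nat_lit 2) (nat_lit 0xc49200009020002001800cb81)))) 
(.lf (nat_lit 8406953) (dlOf (nat_lit 1) (nat_lit 0x480028514301))))) (.nd (nat_lit 19) 
(.nd (nat_lit 10) 
(.lf (nat_lit 1476415721) (dlOf (nat_lit 1) (nat_lit 0x10008000400200020008008083))) 
(.nd (nat_lit 28) 
(.lf (nat_lit 671108329) (dlOf (nat_lit 10) (nat_lit 0x52012800a007c01a80260003606008602500390110033007c0190026000340800b602e004d0060000c81001b0030000620401ac05c000402d006c0060000c01802880b800c005000a0025000d00f802a804c0005c14022c05c0114028008b0128049007c023c026011400c000168600230170002009400a003e005000c0001584001f00f8000480802b0008008c00200020008006503))) 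
(.lf (nat_lit 939543785) (dlOf (nat_lit 2) (nat_lit 0x2a0250001b018006500))))) (.nd (nat_lit 20) 
(.lf (nat_lit 543977) (dlOf (nat_lit 1) (nat_lit 0x400400020008006502))) 
(.lf (nat_lit 20466921) (dlOf (nat_lit 1) (nat_lit 0xc200089d6501))))))) (.nd (nat_lit 11) 
(.nd (nat_lit 27) (.nd (nat_lit 19) (.nd (nat_lit 6) 
(.lf (nat_lit 2752528425) (dlOf (nat_lit 1) (nat_lit 0xf8008001000200080008020503))) 
(.lf (nat_lit 67130601) (dlOf (nat_lit 2) (nat_lit 0x1810400bd804002400200120008009502)))) 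
(.nd (nat_lit 21) (.nd (nat_lit 31) 
(.lf (nat_lit 1409826857) (dlOf (nat_lit 1) (nat_lit 0x400200020008090002))) 
(.lf (nat_lit 3557310505) (dlOf (nat_lit 1) (nat_lit 0xa00080090002002400081c0683)))) 
(.lf (nat_lit 2754101289) (dlOf (nat_lit 2) (nat_lit 0x3893000044040024004002a00080c0d02))))) 
(.nd (nat_lit 6) (.nd (nat_lit 7) 
(.lf (nat_lit 2886221865) (dlOf (nat_lit 1) (nat_lit 0x6c002005400081a0602))) 
(.lf (nat_lit 2348828329) (dlOf (nat_lit 1) (nat_lit 0x10008000c00200040008003a83)))) 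
(.nd (nat_lit 8) (.nd (nat_lit 19) 
(.lf (nat_lit 473972841) (dlOf (nat_lit 1) (nat_lit 0x20018ff1e81))) 
(.lf (nat_lit 3959963753) (dlOf (nat_lit 7) (nat_lit 0x401180002e04005008a002204200110198000501800f8118005c0860034040000e01c000380580002614004008c0001202000604600008810001023000010080580008009800200020008181403)))) 
(.lf (nat_lit 1009271145) (dlOf (nat_lit 1) (nat_lit 0x600080034002000c00090e0f03)))))) 
(.nd (nat_lit 7) (.nd (nat_lit 6) (.nd (nat_lit 8) (.nd (nat_lit 9) 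
(.lf (nat_lit 201349161) (dlOf (nat_lit 1) (nat_lit 0x2001800a601))) 
(.lf (nat_lit 4094708265) (dlOf (nat_lit 1) (nat_lit 0x20028055181)))) 
(.lf (nat_lit 3019918121) (dlOf (nat_lit 1) (nat_lit 0x60008005c01)))) (.nd (nat_lit 12) 
(.lf (nat_lit 4227877225) (dlOf (nat_lit 1) (nat_lit 0x20008004e81))) 
(.lf (nat_lit 201349481) (dlOf (nat_lit 1) (nat_lit 0x88008002c0020008000800ac03))))) 
(.nd (nat_lit 6) (.nd (nat_lit 8) (.nd (nat_lit 9) 
(.lf (nat_lit 2754628777) (dlOf (nat_lit 2) (nat_lit 0x80800001502003200180f6281))) 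
(.lf (nat_lit 2754629289) (dlOf (nat_lit 1) (nat_lit 0xa80080018002000800080f7203)))) 
(.nd (nat_lit 9) 
(.lf (nat_lit 4227882409) (dlOf (nat_lit 8) (nat_lit 0x1102600008128000807c010a03200380160000702800780c8000360400ac0980068040005e019000c80b00003410000c0aa007604c003f020003000c8000301000440a6005204b003001f802c80c80004062000402c001100b00004c3800a015000d4096007603f006301900004420000812c000180401280040024001800cb82))) 
(.lf (nat_lit 2080394153) (dlOf (nat_lit 2) (nat_lit 0x120170001c818005d00))))) (.nd (nat_lit 10) 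
(.lf (nat_lit 4227877353) (dlOf (nat_lit 1) (nat_lit 0x8800804e4002009a0008004e83))) 
(.lf (nat_lit 4227878377) (dlOf (nat_lit 1) (nat_lit 0xc004000a0018006e82)))))))) (.nd (nat_lit 26) 
(.nd (nat_lit 6) (.nd (nat_lit 19) (.nd (nat_lit 29) (.nd (nat_lit 11) (.nd (nat_lit 20) 
(.nd (nat_lit 27) (.lf (nat_lit 1073889321) (dlOf (nat_lit 1) (nat_lit 0x400400020008020502))) 
(.lf (nat_lit 2281848873) (dlOf (nat_lit 3) (nat_lit 0x1201700090050004801400140000004e08000a025000301180010c100030008000c00200040008080683)))) 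
(.lf (nat_lit 62013481) (dlOf (nat_lit 1) (nat_lit 0x8008000c002004e0009930a03)))) (.nd (nat_lit 7) 
(.lf (nat_lit 58870313) (dlOf (nat_lit 1) (nat_lit 0x4004000200097e5182))) 
(.lf (nat_lit 3221380521) (dlOf (nat_lit 9) (nat_lit 0x1b8055007602880300128018c092019c035008301a0041807c004803c01740120067003003b8000000602c01100aa001e035000178200b702b0024815400f80a4016c03200b70088000b82802c815801bc0aa01220320077018800080bc014402200900100001687006502b0051015400a40a200880320083018802d8044016402000400060000288008302b0045015401ac0a4004a051006001b000200d401000620116011007a00800001048048815801980aa00c2052002b028802300d800d40640166031009c00880480040008400c00002140062055005c028800a0124000c06a001003400300030000003003f000803a0002064e000811cb83))))) 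
(.nd (nat_lit 7) (.nd (nat_lit 28) 
(.lf (nat_lit 2684502057) (dlOf (nat_lit 5) (nat_lit 0x11a02200db0060014801000dc004011a0000002b05000601f001e807800200220004e0600bc00d0000981000f006800048080160008018800202580008080683))) 
(.lf (nat_lit 5100421161) (dlOf (nat_lit 1) (nat_lit 0x40028070381)))) (.nd (nat_lit 9) 
(.lf (nat_lit 5234639017) (dlOf (nat_lit 1) (nat_lit 0x18008000400200020008071483))) 
(.lf (nat_lit 805457577) (dlOf (nat_lit 1) (nat_lit 0x20028117201)))))) (.nd (nat_lit 20) 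
(.nd (nat_lit 28) (.nd (nat_lit 21) 
(.lf (nat_lit 21643305) (dlOf (nat_lit 1) (nat_lit 0x400200020008a50a82))) 
(.lf (nat_lit 11157545) (dlOf (nat_lit 3) (nat_lit 0x3d0000001580800aa954000260400b800400100008660682)))) 
(.nd (nat_lit 29) 
(.lf (nat_lit 1342849065) (dlOf (nat_lit 7) (nat_lit 0x4c45e004e226001e1070014868c0003210001845e0034226001b107000d068c0003010005445e000222600011070003068c0001610001445e002e22600151070005868c0001410006444c003620e001a0d18000241800288bc006844c003620e00180d18000202000300080094002001400080f0a83))) 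
(.lf (nat_lit 805978153) (dlOf (nat_lit 12) (nat_lit 0x12e81080ad801c024a0000002b8302680210138803802fc0000005606052604202dc00700488000000aa0c0f8c084083c00e00f30000001501800a8108012801c0005304036c0420211007011480300e680000003708012204200d70070000d810132010809c001c018a0000001a830293021016e803800068080d6c084071a00e0378006003900101230000000330a0026042003f0070000c4100048008041800201260008200c03))))) 
(.nd (nat_lit 21) (.nd (nat_lit 22) 
(.lf (nat_lit 5773082665) (dlOf (nat_lit 1) (nat_lit 0x80080004002000200080a0a03))) 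
(.lf (nat_lit 22691881) (dlOf (nat_lit 1) (nat_lit 0x60018b10981)))) (.nd (nat_lit 22) 
(.lf (nat_lit 3817513) (dlOf (nat_lit 4) (nat_lit 0x19324000360400109500000b0200064c7000325e8000281000c0008000c00200080008230a83))) 
(.lf (nat_lit 24789033) (dlOf (nat_lit 7) (nat_lit 0x5ad28002b68d0018b418006d7f00003210003ed28000d68d0009b41800357f000030100016d28000968d00005820002b468004da0c0001408000ed28000368d0009b41800357f000012100016d1a00136830006afe000020180028008002800200020008bb0a83))))))) 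
(.nd (nat_lit 30) (.nd (nat_lit 8) (.nd (nat_lit 7) 
(.lf (nat_lit 56770665) (dlOf (nat_lit 2) (nat_lit 0x412480006804001000200040009750a02))) 
(.lf (nat_lit 671238377) (dlOf (nat_lit 6) (nat_lit 0x8020004d00d8022000c01040000001b08009601b0040001801d0000000320c000404c008e01b003d001801f000000016100160036009e003000200000002818005800c00012040f0c00200b20008144b02)))) 
(.nd (nat_lit 9) (.lf (nat_lit 9585129) (dlOf (nat_lit 1) (nat_lit 0x1c0028577d01))) 
(.lf (nat_lit 4563553257) (dlOf (nat_lit 1) (nat_lit 0x20028095e81))))) (.nd (nat_lit 7) 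
(.nd (nat_lit 10) (.lf (nat_lit 3221375337) (dlOf (nat_lit 2) (nat_lit 0x8800000b97818114e80))) 
(.lf (nat_lit 3221376361) (dlOf (nat_lit 1) (nat_lit 0x28002000e0008116b02)))) (.nd (nat_lit 11) 
(.lf (nat_lit 1342325225) (dlOf (nat_lit 1) (nat_lit 0x18008000400200060008017303))) 
(.lf (nat_lit 3221375465) (dlOf (nat_lit 2) (nat_lit 0x4e00000b97818114e80))))))) (.nd (nat_lit 28) 
(.nd (nat_lit 27) (.nd (nat_lit 11) (.nd (nat_lit 19) (.nd (nat_lit 31) 
(.lf (nat_lit 67256361) (dlOf (nat_lit 1) (nat_lit 0x1400400020008080602))) 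
(.lf (nat_lit 2214740009) (dlOf (nat_lit 5) (nat_lit 0x60068000802c001c00c0004e0600060060002601000100300012c0800280340006e04000400400040008080682)))) 
(.lf (nat_lit 1678393385) (dlOf (nat_lit 8) (nat_lit 0x90084000400e0002b820027007000150080010038000a60400780840003802004804200020070000dc1001001080024018024c000000198300220210005003803000000003206004c0028200d01)))) 
(.nd (nat_lit 7) (.lf (nat_lit 6509710889) (dlOf (nat_lit 1) (nat_lit 0x20008147181))) 
(.lf (nat_lit 1677871273) (dlOf (nat_lit 1) (nat_lit 0x20008114881))))) (.nd (nat_lit 6) 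
(.nd (nat_lit 30) (.nd (nat_lit 32) 
(.lf (nat_lit 2348957737) (dlOf (nat_lit 1) (nat_lit 0x80008060601))) 
(.lf (nat_lit 6643925033) (dlOf (nat_lit 1) (nat_lit 0x60008080601)))) (.nd (nat_lit 11) 
(.lf (nat_lit 3422699561) (dlOf (nat_lit 7) (nat_lit 0x5a0110011804004b80180048004000900100150000000ac1800640000003202059e00d000098101a70068000480801e00340002204023001a000100200ac0028060681))) 
(.lf (nat_lit 3959576617) (dlOf (nat_lit 2) (nat_lit 0x80bc00a94040010004002a000811a602))))) 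
(.nd (nat_lit 7) (.lf (nat_lit 3959576937) (dlOf (nat_lit 2) (nat_lit 0x203e0001201811ac00))) 
(.lf (nat_lit 1275217129) (dlOf (nat_lit 1) (nat_lit 0x20028092e81)))))) (.nd (nat_lit 7) 
(.nd (nat_lit 19) (.nd (nat_lit 8) (.nd (nat_lit 29) 
(.lf (nat_lit 2483175465) (dlOf (nat_lit 1) (nat_lit 0x80008060601))) 
(.lf (nat_lit 1946304553) (dlOf (nat_lit 1) (nat_lit 0x400400020008020502)))) 
(.lf (nat_lit 872564009) (dlOf (nat_lit 1) (nat_lit 0x400200020008093182)))) (.nd (nat_lit 9) 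
(.nd (nat_lit 29) 
(.lf (nat_lit 470433833) (dlOf (nat_lit 7) (nat_lit 0x4c45e004e226001e106001486cc0003210001845e0034226001b106000d06cc0003010005445e00022260001106000306cc0001610001445e002e2260015106000586cc0001410006444c003620c001a0d98000241800288bc006844c003620c00180d98000202000300080094002001400080f0a83))) 
(.lf (nat_lit 3154788393) (dlOf (nat_lit 4) (nat_lit 0x500640044a0403a00c8047c06001d802c80750130097006604bc0160261002811f0000002d82000c00a80260031017200a000100000000210008400400060008320d82)))) 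
(.lf (nat_lit 473580073) (dlOf (nat_lit 1) (nat_lit 0x20028f68901))))) (.nd (nat_lit 6) 
(.nd (nat_lit 8) (.lf (nat_lit 2617398441) (dlOf (nat_lit 1) (nat_lit 0x200180a9501))) 
(.lf (nat_lit 6378111401) (dlOf (nat_lit 1) (nat_lit 0x180028116e81)))) (.nd (nat_lit 11) 
(.nd (nat_lit 29) (.lf (nat_lit 469909993) (dlOf (nat_lit 1) (nat_lit 0x20004000a0008017d02))) 
(.lf (nat_lit 4228006377) (dlOf (nat_lit 2) (nat_lit 0x50150000fc080080008002000200060008017303)))) 
(.lf (nat_lit 6241274345) (dlOf (nat_lit 1) (nat_lit 0x180080004002000400080d4e83)))))))))) 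
(.nd (nat_lit 28) (.nd (nat_lit 17) (.nd (nat_lit 6) (.nd (nat_lit 5) (.nd (nat_lit 20) 
(.nd (nat_lit 26) (.nd (nat_lit 21) (.nd (nat_lit 27) 
(.lf (nat_lit 537149449) (dlOf (nat_lit 1) (nat_lit 0x20028030481))) 
(.lf (nat_lit 671367177) (dlOf (nat_lit 1) (nat_lit 0x98008003400200720008170483)))) 
(.nd (nat_lit 7) (.lf (nat_lit 44318729) (dlOf (nat_lit 1) (nat_lit 0x90004003800092f0002))) 
(.lf (nat_lit 23871625) (dlOf (nat_lit 1) (nat_lit 0xd8008001400200140008b80103))))) 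
(.nd (nat_lit 8) (.nd (nat_lit 27) 
(.lf (nat_lit 4362354697) (dlOf (nat_lit 4) (nat_lit 0x381040013404002406c000e0310004682000701b000100c4001160800ac00400880018030582))) 
(.lf (nat_lit 1812217865) (dlOf (nat_lit 2) (nat_lit 0x8000001d204000c00200040008180482)))) 
(.lf (nat_lit 4496575241) (dlOf (nat_lit 1) (nat_lit 0x10004000e00080e5b02))))) (.nd (nat_lit 10) 
(.nd (nat_lit 23) (.nd (nat_lit 7) 
(.lf (nat_lit 2755411977) (dlOf (nat_lit 1) (nat_lit 0x9800400a20008180482))) 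
(.lf (nat_lit 8143241) (dlOf (nat_lit 1) (nat_lit 0x8008000400200020008511003)))) (.nd (nat_lit 19) 
(.lf (nat_lit 62144521) (dlOf (nat_lit 1) (nat_lit 0x20019960001))) 
(.lf (nat_lit 10240009) (dlOf (nat_lit 4) (nat_lit 0x1e91a001600200122330006c8100051198003600801080080034002000600085c0483))))) 
(.nd (nat_lit 21) (.nd (nat_lit 8) 
(.lf (nat_lit 51659785) (dlOf (nat_lit 1) (nat_lit 0x400200020009512882))) 
(.lf (nat_lit 51660041) (dlOf (nat_lit 1) (nat_lit 0x7a0019512f81)))) (.nd (nat_lit 9) 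
(.lf (nat_lit 20204553) (dlOf (nat_lit 1) (nat_lit 0x1180080048002001000089d5f83))) 
(.lf (nat_lit 8144393) (dlOf (nat_lit 1) (nat_lit 0x26a0018513681))))))) (.nd (nat_lit 23) 
(.nd (nat_lit 21) (.nd (nat_lit 26) (.nd (nat_lit 20) 
(.lf (nat_lit 671367209) (dlOf (nat_lit 2) (nat_lit 0x201d0000c018170b00))) 
(.lf (nat_lit 1327145) (dlOf (nat_lit 1) (nat_lit 0x1000180b0501)))) (.nd (nat_lit 27) 
(.lf (nat_lit 1678000169) (dlOf (nat_lit 2) (nat_lit 0x8022000790200020008130601))) 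
(.lf (nat_lit 2349088809) (dlOf (nat_lit 1) (nat_lit 0x1c004001c00080a0982))))) (.nd (nat_lit 7) 
(.nd (nat_lit 8) 
(.lf (nat_lit 2375721) (dlOf (nat_lit 2) (nat_lit 0x8c17001b6000068741000500080014002000e0008150003))) 
(.lf (nat_lit 19153193) (dlOf (nat_lit 1) (nat_lit 0x800200020008970702)))) (.nd (nat_lit 8) 
(.lf (nat_lit 20207273) (dlOf (nat_lit 1) (nat_lit 0x1f000800c4002004000089da003))) 
(.lf (nat_lit 19684265) (dlOf (nat_lit 1) (nat_lit 0x4004000200089dbd02)))))) (.nd (nat_lit 19) 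
(.nd (nat_lit 21) (.nd (nat_lit 20) 
(.lf (nat_lit 12861481) (dlOf (nat_lit 1) (nat_lit 0x380080018002000c00086e0a03))) 
(.lf (nat_lit 30687273) (dlOf (nat_lit 1) (nat_lit 0x8008000400200020008e40d83)))) (.nd (nat_lit 8) 
(.lf (nat_lit 28590121) (dlOf (nat_lit 1) (nat_lit 0x120018da0001))) 
(.lf (nat_lit 28590377) (dlOf (nat_lit 1) (nat_lit 0x20028da0701))))) (.nd (nat_lit 8) 
(.nd (nat_lit 20) (.nd (nat_lit 21) 
(.lf (nat_lit 9191465) (dlOf (nat_lit 3) (nat_lit 0x21d2f40002404000697a000110200040018530381))) 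
(.lf (nat_lit 11288617) (dlOf (nat_lit 2) (nat_lit 0x1a7480004876000560400060018680681)))) 
(.lf (nat_lit 27017257) (dlOf (nat_lit 7) (nat_lit 0x68000000be0400400000005d0200020000002c81000200000016008019f614007fafe002fbc90012ddc000a6d84006f6960025b3700194ea00110000000a82400bfb0a0035d7f0013de480086ee000476c2002db4b0006000000114380018008019800200300008ca0683)))) 
(.lf (nat_lit 46943017) (dlOf (nat_lit 1) (nat_lit 0x20029385c01))))))) (.nd (nat_lit 8) 
(.nd (nat_lit 5) (.nd (nat_lit 19) (.nd (nat_lit 20) (.nd (nat_lit 29) (.nd (nat_lit 7) 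
(.lf (nat_lit 67387465) (dlOf (nat_lit 1) (nat_lit 0x200080008002000400080f0683))) 
(.lf (nat_lit 4473033) (dlOf (nat_lit 1) (nat_lit 0x400200020008290482)))) (.nd (nat_lit 9) 
(.lf (nat_lit 671367241) (dlOf (nat_lit 3) (nat_lit 0x1980a0000640401fc03e000170200080008170f01))) 
(.lf (nat_lit 5905859145) (dlOf (nat_lit 1) (nat_lit 0x100080198002005e0008158d03))))) 
(.nd (nat_lit 7) (.nd (nat_lit 23) 
(.lf (nat_lit 1327177) (dlOf (nat_lit 6) (nat_lit 0x6bc2c003600e3015c06c80d881c406bc0ca000390a00120e10001c0101a00b000d1038c05441b2034407101a20328000d8280d9058006c41c60002604034c16001a50718000881001000080004002000200080b0883))) 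
(.lf (nat_lit 26493001) (dlOf (nat_lit 1) (nat_lit 0x10008000800200020008c50683)))) 
(.lf (nat_lit 13910217) (dlOf (nat_lit 1) (nat_lit 0x20018750481))))) (.nd (nat_lit 22) 
(.nd (nat_lit 23) 
(.lf (nat_lit 802889) (dlOf (nat_lit 3) (nat_lit 0x30ba0001828c000720800243e2000260200060028020881))) 
(.lf (nat_lit 59523145) (dlOf (nat_lit 5) (nat_lit 0xd8cfa006667c005e2ca0002964c01909cc00b24d4000a906004e33e80399650001ee080130cfa00e85940007a820005269800248080308008001400200180009800603)))) 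
(.lf (nat_lit 21774409) (dlOf (nat_lit 1) (nat_lit 0xc00400020008a70882))))) (.nd (nat_lit 26) 
(.nd (nat_lit 9) (.lf (nat_lit 59523177) (dlOf (nat_lit 1) (nat_lit 0x18002000e0009800a02))) 
(.lf (nat_lit 1610892905) (dlOf (nat_lit 2) (nat_lit 0x100b4000470200020018093901)))) 
(.nd (nat_lit 7) 
(.lf (nat_lit 2349088873) (dlOf (nat_lit 1) (nat_lit 0x200080004002000c00080a1403))) 
(.lf (nat_lit 2885961961) (dlOf (nat_lit 5) (nat_lit 0xbc08000480360000d82002e020001280d80001608015c080000e036000050200020200000240800c000800c000200100008144b03)))))) 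
(.nd (nat_lit 9) (.nd (nat_lit 7) (.nd (nat_lit 32) (.nd (nat_lit 10) 
(.lf (nat_lit 2376009) (dlOf (nat_lit 1) (nat_lit 0x7800200060008150602))) 
(.lf (nat_lit 50611529) (dlOf (nat_lit 1) (nat_lit 0x80080004002000600094c3303)))) 
(.nd (nat_lit 26) (.lf (nat_lit 5905858889) (dlOf (nat_lit 1) (nat_lit 0x40028154c01))) 
(.lf (nat_lit 6509838665) (dlOf (nat_lit 1) (nat_lit 0x40028154c01))))) (.nd (nat_lit 5) 
(.lf (nat_lit 6509838793) (dlOf (nat_lit 1) (nat_lit 0x1000800ac002002c0008157103))) 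
(.nd (nat_lit 20) 
(.lf (nat_lit 6509838825) (dlOf (nat_lit 8) (nat_lit 0x340260002e810027013000a005c000b808005004c001c01700028820028013000a805c000a008008c04c0004c020008026000240100280130009805c0008a080118002000a0008157302))) 
(.lf (nat_lit 3424745) (dlOf (nat_lit 1) (nat_lit 0x1b00028200d01)))))) (.nd (nat_lit 10) 
(.nd (nat_lit 19) (.nd (nat_lit 20) 
(.lf (nat_lit 4899228489) (dlOf (nat_lit 2) (nat_lit 0x380000011c040014002000400080d5c02))) 
(.lf (nat_lit 20204361) (dlOf (nat_lit 1) (nat_lit 0x4002000200089d5c02)))) 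
(.lf (nat_lit 46943049) (dlOf (nat_lit 1) (nat_lit 0x1800200020009385c02)))) (.nd (nat_lit 5) 
(.nd (nat_lit 7) (.lf (nat_lit 280393) (dlOf (nat_lit 1) (nat_lit 0x20028003e81))) 
(.lf (nat_lit 8146889) (dlOf (nat_lit 1) (nat_lit 0x20018517a81)))) 
(.lf (nat_lit 67915753) (dlOf (nat_lit 2) (nat_lit 0x20000014b404005400200040008337a82)))))))) 
(.nd (nat_lit 21) (.nd (nat_lit 5) (.nd (nat_lit 29) (.nd (nat_lit 7) (.nd (nat_lit 19) 
(.nd (nat_lit 20) (.lf (nat_lit 6442860553) (dlOf (nat_lit 1) (nat_lit 0x200081e0001))) 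
(.lf (nat_lit 30818313) (dlOf (nat_lit 1) (nat_lit 0x20008e50581)))) 
(.lf (nat_lit 21905417) (dlOf (nat_lit 2) (nat_lit 0x1951f800534080030008000800200040008a80483)))) 
(.nd (nat_lit 6) (.nd (nat_lit 8) 
(.lf (nat_lit 21381257) (dlOf (nat_lit 7) (nat_lit 0x8ed50000d80800ef6a801b3b500007da6000fed20000d42000ef6a800068040073b540002e020007da80002ed20000b41000ef6a800056040040002000a0008a30f02))) 
(.lf (nat_lit 8804233) (dlOf (nat_lit 1) (nat_lit 0x1800800040020002000851a303)))) 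
(.lf (nat_lit 21381321) (dlOf (nat_lit 2) (nat_lit 0x5cde00028818a31b80))))) (.nd (nat_lit 26) 
(.nd (nat_lit 30) 
(.lf (nat_lit 537280521) (dlOf (nat_lit 2) (nat_lit 0x780c00000004001000400060008070502))) 
(.nd (nat_lit 31) (.lf (nat_lit 1611022345) (dlOf (nat_lit 1) (nat_lit 0x14004000200180c0002))) 
(.lf (nat_lit 3758505993) (dlOf (nat_lit 1) (nat_lit 0x400400020008230282))))) (.nd (nat_lit 20) 
(.nd (nat_lit 10) (.lf (nat_lit 738607113) (dlOf (nat_lit 1) (nat_lit 0x14004000200180c0002))) 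
(.lf (nat_lit 2751874057) (dlOf (nat_lit 1) (nat_lit 0x20018002881)))) (.nd (nat_lit 6) 
(.lf (nat_lit 2752921609) (dlOf (nat_lit 1) (nat_lit 0x20018060481))) 
(.lf (nat_lit 2753446345) (dlOf (nat_lit 1) (nat_lit 0x8008003c00200020008090983))))))) 
(.nd (nat_lit 22) (.nd (nat_lit 30) (.nd (nat_lit 26) 
(.lf (nat_lit 537280553) (dlOf (nat_lit 2) (nat_lit 0x2c0b0000280200040018070801))) 
(.lf (nat_lit 67518505) (dlOf (nat_lit 1) (nat_lit 0x20008007c002000800081c0783)))) 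
(.nd (nat_lit 27) (.nd (nat_lit 31) 
(.lf (nat_lit 1074151465) (dlOf (nat_lit 2) (nat_lit 0x2029000110180c0d00))) 
(.lf (nat_lit 3221635113) (dlOf (nat_lit 3) (nat_lit 0x39c08c01ae04500d6021806b8108035c08000f803f00da019803520380700118035808a01ac04300d6021006b010001f007e006603800d7019803518400388008015400200080008170003)))) 
(.lf (nat_lit 3355852841) (dlOf (nat_lit 2) (nat_lit 0x4300b8007405a0004f0400020018130601))))) 
(.nd (nat_lit 7) (.nd (nat_lit 19) 
(.lf (nat_lit 12992553) (dlOf (nat_lit 8) (nat_lit 0xacc5000705b90000d82000d31f802b98a000a8b720001906001863f0059314000216e4000300c0004c7e00a262800202dc80002c1800c18fc00f8c50002c5b90000503000231f802198a000012080038c7e00b262800022dc8000201800c000805dc002001200086f0a83))) 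
(.lf (nat_lit 22954025) (dlOf (nat_lit 4) (nat_lit 0x1c000000560200074c400029810002b4f0000c80800e000800f400200040008b40683)))) 
(.nd (nat_lit 6) (.lf (nat_lit 47071401) (dlOf (nat_lit 1) (nat_lit 0x180019392c81))) 
(.lf (nat_lit 21381609) (dlOf (nat_lit 2) (nat_lit 0x6ad8500017018a37300))))))) (.nd (nat_lit 6) 
(.nd (nat_lit 8) (.nd (nat_lit 7) (.nd (nat_lit 19) 
(.lf (nat_lit 15089673) (dlOf (nat_lit 12) (nat_lit 0x104ac001e23a803d0fae0064006000495800124ab808223a800191d201f07d700453eb00259f500120f8a00227ac001b3d580091ea40050ebe002a733004e3990018fc70008a56004251d401f07d700503eb00239f500090f58002675f000f39980271cc800c782400191d401427d70031c8200e8475000223a403a4fae00967d600463ea00031eb00038f56000275e000239980241cc800c662800d8fae00629020060958011b475008e1f5c0090ebe009c733003140500c13eb80021ccc00c440800112b000d08ea00ec3eb80069ccc00c3010008d2b000e48ea013b3eb802f9ccc00b72100018dde0057a0200d400287b0281))) 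
(.lf (nat_lit 15613961) (dlOf (nat_lit 1) (nat_lit 0x60008810281)))) (.nd (nat_lit 10) 
(.nd (nat_lit 19) (.lf (nat_lit 19284105) (dlOf (nat_lit 1) (nat_lit 0x400200020008970482))) 
(.lf (nat_lit 12468361) (dlOf (nat_lit 1) (nat_lit 0x400200fa00086c0102)))) 
(.lf (nat_lit 19811465) (dlOf (nat_lit 1) (nat_lit 0x60004000800189d6182))))) (.nd (nat_lit 5) 
(.nd (nat_lit 7) (.lf (nat_lit 19808521) (dlOf (nat_lit 1) (nat_lit 0x4004000200189d0a82))) 
(.lf (nat_lit 19811209) (dlOf (nat_lit 1) (nat_lit 0x4002000200089d5c02)))) (.nd (nat_lit 9) 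
(.lf (nat_lit 19811753) (dlOf (nat_lit 2) (nat_lit 0x1d61e000e302000200289d6d01))) 
(.lf (nat_lit 2754501545) (dlOf (nat_lit 1) (nat_lit 0x80080004002000200080fbd03)))))) 
(.nd (nat_lit 7) (.nd (nat_lit 10) (.nd (nat_lit 8) 
(.lf (nat_lit 2753970281) (dlOf (nat_lit 2) (nat_lit 0x20000000a0180a1400))) (.nd (nat_lit 9) 
(.lf (nat_lit 2755543401) (dlOf (nat_lit 1) (nat_lit 0x200181b0701))) 
(.lf (nat_lit 19811177) (dlOf (nat_lit 1) (nat_lit 0x800800e0002003200089d5c03))))) 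
(.nd (nat_lit 5) (.lf (nat_lit 19815753) (dlOf (nat_lit 1) (nat_lit 0x400189dc901))) 
(.lf (nat_lit 2754501993) (dlOf (nat_lit 1) (nat_lit 0x80080004002000200080fc903))))) 
(.nd (nat_lit 5) (.nd (nat_lit 8) 
(.lf (nat_lit 2755022537) (dlOf (nat_lit 1) (nat_lit 0x4000800c4002002800080f7303))) 
(.nd (nat_lit 20) 
(.lf (nat_lit 57559497) (dlOf (nat_lit 1) (nat_lit 0x88008002800200280009794e83))) 
(.lf (nat_lit 33442249) (dlOf (nat_lit 1) (nat_lit 0x1c00400020008f54e82))))) (.nd (nat_lit 9) 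
(.lf (nat_lit 19284201) (dlOf (nat_lit 1) (nat_lit 0x400200020008970602))) 
(.lf (nat_lit 19813097) (dlOf (nat_lit 1) (nat_lit 0xc00289d8d81))))))))) (.nd (nat_lit 26) 
(.nd (nat_lit 5) (.nd (nat_lit 19) (.nd (nat_lit 30) (.nd (nat_lit 27) (.nd (nat_lit 29) 
(.nd (nat_lit 31) (.lf (nat_lit 4563681289) (dlOf (nat_lit 2) (nat_lit 0x603300b978180c0000))) 
(.lf (nat_lit 2416197641) (dlOf (nat_lit 1) (nat_lit 0x400400020008090002)))) (.nd (nat_lit 8) 
(.lf (nat_lit 2953068553) (dlOf (nat_lit 1) (nat_lit 0xa00080f0001))) 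
(.lf (nat_lit 805716233) (dlOf (nat_lit 1) (nat_lit 0x128004005a00081a0482))))) (.nd (nat_lit 29) 
(.nd (nat_lit 31) (.lf (nat_lit 4697899017) (dlOf (nat_lit 2) (nat_lit 0x603300ae88180c0000))) 
(.lf (nat_lit 2550415369) (dlOf (nat_lit 1) (nat_lit 0x400400020008090002)))) 
(.lf (nat_lit 939802633) (dlOf (nat_lit 2) (nat_lit 0x8000002f004000c00200040008180482))))) 
(.nd (nat_lit 20) (.nd (nat_lit 6) (.nd (nat_lit 22) 
(.lf (nat_lit 1342455817) (dlOf (nat_lit 12) (nat_lit 0x448e00160020014247000af81000b12380057408008091c002b004005c48e0015602001c2470006c81000912380033c08004891c0019c04002448e000cd0200102470006601000c11e000270080228008006c00200280008030483))) 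
(.lf (nat_lit 3494133769) (dlOf (nat_lit 1) (nat_lit 0x4004000200181b0002)))) (.nd (nat_lit 8) 
(.lf (nat_lit 1342455881) (dlOf (nat_lit 1) (nat_lit 0x88008007400200cc0008030f03))) 
(.lf (nat_lit 6308514633) (dlOf (nat_lit 1) (nat_lit 0x2c00280d5c01))))) (.nd (nat_lit 21) 
(.nd (nat_lit 31) 
(.lf (nat_lit 1343635465) (dlOf (nat_lit 4) (nat_lit 0x702c2003414e001704e800d8238002406200ba50a0042161001a0a7000f8274007c11c0012031005ca8500350b08017853800cc13a006608e0009018802d1428003800800a8002001a00082d0283))) 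
(.lf (nat_lit 3491119113) (dlOf (nat_lit 1) (nat_lit 0x20018060481)))) (.nd (nat_lit 6) 
(.lf (nat_lit 3493086217) (dlOf (nat_lit 1) (nat_lit 0x4002000200080f2882))) 
(.lf (nat_lit 3493222473) (dlOf (nat_lit 1) (nat_lit 0x4002000200080fa682))))))) (.nd (nat_lit 7) 
(.nd (nat_lit 6) (.nd (nat_lit 20) 
(.lf (nat_lit 1879851017) (dlOf (nat_lit 2) (nat_lit 0x201e80009c02000e0018390581))) 
(.nd (nat_lit 21) 
(.lf (nat_lit 5773213705) (dlOf (nat_lit 2) (nat_lit 0x130978032fc0800a00080060002007c00080b0003))) 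
(.lf (nat_lit 3493609481) (dlOf (nat_lit 1) (nat_lit 0x9800400a20008180482))))) (.nd (nat_lit 8) 
(.lf (nat_lit 5773213769) (dlOf (nat_lit 2) (nat_lit 0x2c27c002e131000098280b0600))) 
(.nd (nat_lit 10) (.lf (nat_lit 1880902473) (dlOf (nat_lit 1) (nat_lit 0x800400020008c95c02))) 
(.lf (nat_lit 3492693833) (dlOf (nat_lit 1) (nat_lit 0x200080f3e81)))))) (.nd (nat_lit 6) 
(.lf (nat_lit 5772296585) (dlOf (nat_lit 1) (nat_lit 0x8008000400200040008091003))) 
(.nd (nat_lit 8) (.lf (nat_lit 5772296393) (dlOf (nat_lit 1) (nat_lit 0x3c00200020008090802))) 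
(.nd (nat_lit 9) (.nd (nat_lit 20) 
(.lf (nat_lit 5772296649) (dlOf (nat_lit 8) (nat_lit 0x2384c40120260000170400181310000b01000f0988000440800784c4000200400242620000402001a13100001010009098800000080160008015400200400008091103))) 
(.lf (nat_lit 3491643849) (dlOf (nat_lit 1) (nat_lit 0x8008003c00200020008090983)))) 
(.lf (nat_lit 5772297161) (dlOf (nat_lit 1) (nat_lit 0xa0018092881)))))))) (.nd (nat_lit 6) 
(.nd (nat_lit 27) (.nd (nat_lit 17) (.nd (nat_lit 7) (.nd (nat_lit 19) 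
(.lf (nat_lit 805584937) (dlOf (nat_lit 2) (nat_lit 0x80220007b0200020008130601))) 
(.lf (nat_lit 1342980137) (dlOf (nat_lit 5) (nat_lit 0x13e15400880a88045825000400060005108013e15400860a8800384dc00141e80116094004d00180013c300310550017c2a2001a0f4002a04a0000dc20047855002302a200080f4006404a0000d820013800800ec00200020008120c03)))) 
(.lf (nat_lit 4563681449) (dlOf (nat_lit 5) (nat_lit 0x601a0000800800280cc0003e0400180680001502001e033000030180c1480)))) 
(.nd (nat_lit 19) (.nd (nat_lit 29) 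
(.lf (nat_lit 5637554217) (dlOf (nat_lit 1) (nat_lit 0x20028100281))) 
(.lf (nat_lit 805716009) (dlOf (nat_lit 3) (nat_lit 0x13c0560098029804c004c01a900c03200ac015c05300af0098035181801100080010002000200081a0003)))) 
(.lf (nat_lit 1879982121) (dlOf (nat_lit 1) (nat_lit 0x8002000200084a0982))))) (.nd (nat_lit 7) 
(.nd (nat_lit 8) (.nd (nat_lit 19) 
(.lf (nat_lit 1476673577) (dlOf (nat_lit 1) (nat_lit 0x400200140008100802))) 
(.lf (nat_lit 5773213737) (dlOf (nat_lit 19) (nat_lit 0xb415e00710ae8000857006642ae000c15600190aa0017054c062c2a4020a14201d00a0025804f007b8276002c13a027e09c006704d4020c266002a12f037209700598468105423200fc118000208b0111045400cc22800c411300ae0890014843c028821c004810d028608600a3042c09e81f400880f9010d07c000e82f0080c17600300b9041e05c002582d4001016800620b30014059026f82c4013c15a00b60ac002d055016782a401cc14e008a0a60017052000d028c06541440a680a1005e04f80008270003c136045c097008a04b000f8250019c12601b6092000104780018238028411600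44089003704402bc8000000650c01042bc004815d00250ae0008054c05142a402ee14004e509e00db84ec090427000021350015099802c04bc0c3025c001c11a02ed08c800d844c010c224000410d014b086000303e802781f000dc0bb000e05d002002e4014017000220b2046d058800502b4020015200620a7000f052000c828c0c90142008409f000604b000a82500074126007209200010458007022011e80000003152000215900410a9003c04f00c14270005411a000708c00838454003c224000c10d0096085805c83e800c017802ae0bb000905d000102dc001816800260b30023059023a02c403f015200140a0000104e800082580078126000a08e03420000000bcd008704e008f41620002d0404a4138006108d00eb845403ec216001e0bc01b905d800482d000e816408540b10282054806482580ec00000002c18021c13f0221099000074100f884c80003804064427e05741320000d82007409f819184f401a426400441310048098022500000002418022027e00f41320000882002909f802704c80001e0802942640000d02041813f02b509900001c1013304fc00b82640000504098c13f054a099000010102a104fc1808264000030404401320000081056409f800a84f4191026407fe130013e0460000002835c00080a2c002050e00080b0383))))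 
(.lf (nat_lit 6308514601) (dlOf (nat_lit 1) (nat_lit 0x2080080004002001a00080d5c03)))) 
(.nd (nat_lit 17) 
(.lf (nat_lit 4697899177) (dlOf (nat_lit 5) (nat_lit 0x40340001201004f01980008c0800b80d0000300400480660000902000400280c1401))) 
(.lf (nat_lit 5772296361) (dlOf (nat_lit 1) (nat_lit 0x20008004800200060008090603)))))) 
(.nd (nat_lit 7) (.nd (nat_lit 9) (.nd (nat_lit 11) 
(.lf (nat_lit 3493740905) (dlOf (nat_lit 2) (nat_lit 0x470288000d00801200080064002001c00081b0703))) 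
(.lf (nat_lit 3489941865) (dlOf (nat_lit 1) (nat_lit 0x60028004e81)))) 
(.lf (nat_lit 3492693865) (dlOf (nat_lit 1) (nat_lit 0x300080008002000600080f4003)))) 
(.nd (nat_lit 11) (.nd (nat_lit 8) 
(.lf (nat_lit 3490988265) (dlOf (nat_lit 1) (nat_lit 0x20018046b81))) 
(.lf (nat_lit 3490595305) (dlOf (nat_lit 4) (nat_lit 0x3408c00005c0401244600002d02007a1e60000e018017300)))) 
(.nd (nat_lit 10) 
(.lf (nat_lit 3489941993) (dlOf (nat_lit 1) (nat_lit 0xf8008039c00201200008004e83))) 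
(.lf (nat_lit 3489943017) (dlOf (nat_lit 1) (nat_lit 0x160018006e81)))))))) (.nd (nat_lit 5) 
(.nd (nat_lit 6) (.nd (nat_lit 29) (.nd (nat_lit 27) (.nd (nat_lit 7) (.nd (nat_lit 17) 
(.lf (nat_lit 1409564681) (dlOf (nat_lit 1) (nat_lit 0x20028030481))) 
(.lf (nat_lit 1409695753) (dlOf (nat_lit 2) (nat_lit 0x780c00000004001000400060008070502)))) 
(.lf (nat_lit 3557054345) (dlOf (nat_lit 1) (nat_lit 0x2001812a301)))) (.nd (nat_lit 30) 
(.nd (nat_lit 19) 
(.lf (nat_lit 470040585) (dlOf (nat_lit 12) (nat_lit 0x448e00160020014247000af81000b12380057408008091c002b004005c48e0015602001c2470006c81000912380033c08004891c0019c04002448e000cd0200102470006601000c11e000270080228008006c00200280008030483))) 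
(.lf (nat_lit 471613449) (dlOf (nat_lit 4) (nat_lit 0x702c2003414e001704e800d82380024058006100a0042161001a0a7000f8274007c11c001202c003000500350b08017853800cc13a006608e00090160016e428003800800a8002001a0008360283)))) 
(.nd (nat_lit 17) 
(.lf (nat_lit 1543782409) (dlOf (nat_lit 1) (nat_lit 0x98008003400200720008170483))) 
(.lf (nat_lit 5838880777) (dlOf (nat_lit 1) (nat_lit 0x200081e0001)))))) (.nd (nat_lit 17) 
(.nd (nat_lit 19) (.nd (nat_lit 27) 
(.lf (nat_lit 5167661065) (dlOf (nat_lit 1) (nat_lit 0x4004000200080f0002))) 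
(.lf (nat_lit 4228136969) (dlOf (nat_lit 4) (nat_lit 0x380e80013404002406c000e0300004682000701b000100c0001160800ac00400880018030582)))) 
(.lf (nat_lit 6377193481) (dlOf (nat_lit 2) (nat_lit 0x13090001c540800a00080060002007c00080b0003)))) 
(.nd (nat_lit 7) (.lf (nat_lit 3154526217) (dlOf (nat_lit 1) (nat_lit 0x1e00181f0481))) 
(.lf (nat_lit 6377324681) (dlOf (nat_lit 1) (nat_lit 0xa00180c0f01)))))) (.nd (nat_lit 7) 
(.nd (nat_lit 17) (.nd (nat_lit 19) (.nd (nat_lit 30) 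
(.lf (nat_lit 470040649) (dlOf (nat_lit 1) (nat_lit 0x88008007400200cc0008030f03))) 
(.lf (nat_lit 1543782473) (dlOf (nat_lit 3) (nat_lit 0x1980a0000640401fc03e000170200080008170f01)))) 
(.lf (nat_lit 6377193545) (dlOf (nat_lit 2) (nat_lit 0x2c262002e122000080280b0600)))) 
(.nd (nat_lit 19) (.lf (nat_lit 1946566729) (dlOf (nat_lit 1) (nat_lit 0x80004000200080c1482))) 
(.lf (nat_lit 4096671817) (dlOf (nat_lit 1) (nat_lit 0x80018151381))))) (.nd (nat_lit 20) 
(.nd (nat_lit 10) 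
(.lf (nat_lit 4630790345) (dlOf (nat_lit 1) (nat_lit 0x100080004002000200080c1b83))) 
(.lf (nat_lit 474236105) (dlOf (nat_lit 1) (nat_lit 0x14004000800090e2d82)))) (.nd (nat_lit 8) 
(.lf (nat_lit 6377324745) (dlOf (nat_lit 1) (nat_lit 0x4002001400080c1b82))) 
(.lf (nat_lit 473188809) (dlOf (nat_lit 1) (nat_lit 0xc0028d74e81))))))) (.nd (nat_lit 17) 
(.nd (nat_lit 27) (.nd (nat_lit 12) (.nd (nat_lit 7) 
(.lf (nat_lit 2483306537) (dlOf (nat_lit 1) (nat_lit 0x1c004001c00080a0982))) (.nd (nat_lit 29) 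
(.lf (nat_lit 4630790313) (dlOf (nat_lit 1) (nat_lit 0x8004000200080c1482))) 
(.lf (nat_lit 6241403049) (dlOf (nat_lit 1) (nat_lit 0xc00280e2c81))))) (.nd (nat_lit 6) 
(.lf (nat_lit 3557054633) (dlOf (nat_lit 1) (nat_lit 0x30002812a881))) 
(.lf (nat_lit 1410095081) (dlOf (nat_lit 1) (nat_lit 0x4002000200080fa602))))) (.nd (nat_lit 19) 
(.nd (nat_lit 6) (.nd (nat_lit 29) 
(.lf (nat_lit 1543782441) (dlOf (nat_lit 2) (nat_lit 0x201d0000c018170b00))) 
(.lf (nat_lit 2080653353) (dlOf (nat_lit 1) (nat_lit 0x7200080a0a01)))) 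
(.lf (nat_lit 6376671849) (dlOf (nat_lit 1) (nat_lit 0x8008000800200020008095383)))) 
(.nd (nat_lit 20) 
(.lf (nat_lit 470564905) (dlOf (nat_lit 1) (nat_lit 0x20008007c00200080008120d03))) 
(.lf (nat_lit 6377193513) (dlOf (nat_lit 19) (nat_lit 0x2150005a0a6803885300664290000c14700190a280170510062c28603a013304b009780f704b8041425a002c12b027e09480670498020c248002a120037208f80010428088821201661080415083803f041800cc20a00c410200ae0808051040000a41fe050c0fe002407e80a303f001101d8021a0eb027a074802582e8007417204060b8001805b020f02d4137c16800080b30031059000a02c4013c15a00b60ab002d055016782a401cc14e008a0a6005e05180ca828414d0140002e09f001a04f0000826c003c134045c097008a04b000f8250019c12601b609000010478001823802841160044089003704402bc80000005f0c00942a0008214d00240a600080510051428602ee13304e509780db84b8090425200021260015092002c04800c3023e001c10802ed083800d8408010c20202960fe000207e804f03ac00181d200dc0b8000e05b802002d8014016a08da0b40011058800502b402001520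0620a7004205181920280003c13e003209e000604b000a82500074126007209000010458007022011e80000002e52000214a00410a1803c04bc0c14252020e109002a08400038418003c202000c0fd009607e005c83a4000817800600b9015705c000482dc11d0168000c0b30013059001182c403f015200020a2000a04e800082580078126000a08e03420000000b0d008704a408f41680002a0404a412901d70848030842003ec1f8001e0b901b905c021502d0002416600740b10282054806482580ec00000002918021c1320221091800074100f8848c0003804064426405741230000d820074099019184c001a424600441220048090822500000002418022026400f4123000088200290990027048c0001e0802942460000d02041813202b509180001c1013304c800b82460000504098c132054a091800010102a104c818082460000304044012300000810564099000a84c0191024607fe121013e0460000002835c00080a2c002050e00080b0383)))))) 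
(.nd (nat_lit 6) (.nd (nat_lit 27) (.nd (nat_lit 19) (.nd (nat_lit 29) 
(.lf (nat_lit 1409695785) (dlOf (nat_lit 1) (nat_lit 0xa000800ac00200380008070883))) 
(.lf (nat_lit 6241533993) (dlOf (nat_lit 1) (nat_lit 0x20028100281)))) 
(.lf (nat_lit 3557703721) (dlOf (nat_lit 2) (nat_lit 0x201c0000000801800080004002003600082c0003)))) 
(.nd (nat_lit 10) (.nd (nat_lit 19) 
(.lf (nat_lit 3154526249) (dlOf (nat_lit 2) (nat_lit 0x1e502a00ce00e0000a8080004004000c00081f0682))) 
(.lf (nat_lit 1007566889) (dlOf (nat_lit 1) (nat_lit 0x8002000200084a0982)))) 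
(.lf (nat_lit 474367017) (dlOf (nat_lit 1) (nat_lit 0x6e0019162881))))) (.nd (nat_lit 7) 
(.nd (nat_lit 8) (.lf (nat_lit 470696041) (dlOf (nat_lit 1) (nat_lit 0x400200020008150282))) 
(.lf (nat_lit 472794473) (dlOf (nat_lit 4) (nat_lit 0x882ca00035020006165000088100110b28000180800800080054002000e0008b03483)))) 
(.nd (nat_lit 10) (.lf (nat_lit 1410220265) (dlOf (nat_lit 1) (nat_lit 0x1800281b0481))) 
(.lf (nat_lit 471747817) (dlOf (nat_lit 2) (nat_lit 0x6848e00121c5000000283d6500))))))))))))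

end

end Pool.Agent.Lib.MP_5854e1_co.Cz

namespace Pool.Agent.Lib.MP_5854e1_co.Cz

noncomputable section

noncomputable def tz67 : DT := (.nd (nat_lit 17) (.nd (nat_lit 3) (.nd (nat_lit 5) (.nd (nat_lit 6) 
(.nd (nat_lit 28) (.nd (nat_lit 18) (.nd (nat_lit 19) (.nd (nat_lit 7) (.nd (nat_lit 23) 
(.nd (nat_lit 24) (.nd (nat_lit 9) 
(.lf (nat_lit 5570118657) (dlOf (nat_lit 1) (nat_lit 0x800018052881))) 
(.lf (nat_lit 3825287681) (dlOf (nat_lit 6) (nat_lit 0x15807400580320007d04004a01d001600c8001f01001780740078032000750400120190003a01002e00e800c8064000e6080018004001000080b0d82)))) 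
(.nd (nat_lit 20) (.lf (nat_lit 16859137) (dlOf (nat_lit 1) (nat_lit 0x200088e0001))) 
(.lf (nat_lit 22102017) (dlOf (nat_lit 1) (nat_lit 0x238008012400200500008a90003))))) 
(.nd (nat_lit 8) (.nd (nat_lit 22) 
(.lf (nat_lit 44122113) (dlOf (nat_lit 1) (nat_lit 0x44004017a00092c0002))) 
(.lf (nat_lit 14761985) (dlOf (nat_lit 1) (nat_lit 0x400200020008770002)))) 
(.lf (nat_lit 8471809) (dlOf (nat_lit 1) (nat_lit 0x40008512f01))))) (.nd (nat_lit 9) 
(.nd (nat_lit 11) (.lf (nat_lit 3227777) (dlOf (nat_lit 1) (nat_lit 0x8008000400200020008200103))) 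
(.lf (nat_lit 4362160257) (dlOf (nat_lit 1) (nat_lit 0xc0008004781)))) (.nd (nat_lit 26) 
(.lf (nat_lit 2684442241) (dlOf (nat_lit 1) (nat_lit 0x400200020008009d82))) 
(.lf (nat_lit 6643865217) (dlOf (nat_lit 1) (nat_lit 0x4004000a0018009d82)))))) (.nd (nat_lit 24) 
(.nd (nat_lit 26) (.nd (nat_lit 27) 
(.lf (nat_lit 1611218945) (dlOf (nat_lit 1) (nat_lit 0x40028110001))) (.nd (nat_lit 29) 
(.lf (nat_lit 134823937) (dlOf (nat_lit 2) (nat_lit 0x1800000202040008002003a00080c0002))) 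
(.lf (nat_lit 2819178497) (dlOf (nat_lit 1) (nat_lit 0x200181d0001))))) (.nd (nat_lit 29) 
(.lf (nat_lit 201932801) (dlOf (nat_lit 2) (nat_lit 0x1800000324040008002003a00080c0002))) 
(.lf (nat_lit 738803713) (dlOf (nat_lit 1) (nat_lit 0x40028110001))))) (.nd (nat_lit 8) 
(.nd (nat_lit 7) (.lf (nat_lit 21577729) (dlOf (nat_lit 2) (nat_lit 0x2afd00ce2018a50000))) 
(.lf (nat_lit 23675009) (dlOf (nat_lit 1) (nat_lit 0x400200580008b80102)))) (.nd (nat_lit 23) 
(.lf (nat_lit 50938113) (dlOf (nat_lit 1) (nat_lit 0x200194d3581))) 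
(.lf (nat_lit 25772289) (dlOf (nat_lit 1) (nat_lit 0x20028c10701))))))) (.nd (nat_lit 20) 
(.nd (nat_lit 21) (.nd (nat_lit 26) (.nd (nat_lit 27) 
(.lf (nat_lit 537214977) (dlOf (nat_lit 1) (nat_lit 0x20028060001))) 
(.lf (nat_lit 671432705) (dlOf (nat_lit 2) (nat_lit 0x10046000000200040018190001)))) 
(.lf (nat_lit 604323841) (dlOf (nat_lit 1) (nat_lit 0x10008001800200040008160003)))) 
(.nd (nat_lit 7) (.nd (nat_lit 22) 
(.lf (nat_lit 44384257) (dlOf (nat_lit 1) (nat_lit 0x400200020009300002))) 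
(.lf (nat_lit 23412737) (dlOf (nat_lit 1) (nat_lit 0x160028b80001)))) 
(.lf (nat_lit 19748481) (dlOf (nat_lit 2) (nat_lit 0x31ab7001215b40007b04001000089d9d81))))) 
(.nd (nat_lit 23) (.nd (nat_lit 7) (.nd (nat_lit 8) 
(.lf (nat_lit 37044225) (dlOf (nat_lit 1) (nat_lit 0x800200020009080002))) 
(.lf (nat_lit 20273409) (dlOf (nat_lit 2) (nat_lit 0x54d60004402000200189da981)))) 
(.lf (nat_lit 3489921) (dlOf (nat_lit 1) (nat_lit 0x980080004002000e0008200103)))) 
(.nd (nat_lit 21) (.nd (nat_lit 19) 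
(.lf (nat_lit 26558465) (dlOf (nat_lit 1) (nat_lit 0x8008000400200020008c50003))) 
(.lf (nat_lit 10305537) (dlOf (nat_lit 1) (nat_lit 0x4002000200085d0002)))) (.nd (nat_lit 7) 
(.lf (nat_lit 62210049) (dlOf (nat_lit 1) (nat_lit 0x8008000400200020009970003))) 
(.lf (nat_lit 11878529) (dlOf (nat_lit 1) (nat_lit 0x1000800fc002005400086c0103)))))))) 
(.nd (nat_lit 26) (.nd (nat_lit 7) (.nd (nat_lit 18) (.nd (nat_lit 8) (.nd (nat_lit 9) 
(.lf (nat_lit 1343832065) (dlOf (nat_lit 1) (nat_lit 0x20028370001))) 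
(.lf (nat_lit 3087090177) (dlOf (nat_lit 6) (nat_lit 0x15807400580320007d04004a01d001600c8001f01001780740078032000750400120190003a01002e00e800c8064000e6080018004001000080b0d82)))) 
(.lf (nat_lit 268518657) (dlOf (nat_lit 1) (nat_lit 0x20028052f01)))) (.nd (nat_lit 8) 
(.nd (nat_lit 27) 
(.lf (nat_lit 2416263169) (dlOf (nat_lit 1) (nat_lit 0x8008039c002000200080c0003))) 
(.lf (nat_lit 2550480897) (dlOf (nat_lit 1) (nat_lit 0x8008039c002000200080c0003)))) 
(.lf (nat_lit 2953134337) (dlOf (nat_lit 2) (nat_lit 0x1c00000afa0200160008160701))))) 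
(.nd (nat_lit 10) (.nd (nat_lit 8) (.nd (nat_lit 11) 
(.lf (nat_lit 1342783617) (dlOf (nat_lit 1) (nat_lit 0xf0004002200080c0102))) 
(.lf (nat_lit 1342265473) (dlOf (nat_lit 9) (nat_lit 0x1504e802aa80800c02740154604006413a001208e0052682001704e800482380149808005c13a001208e00090150029281800b0274002811c00a4904001a1e70026101000d0f380130408028000802ac0020056000800a883)))) 
(.lf (nat_lit 1345669505) (dlOf (nat_lit 1) (nat_lit 0x20028dd4e81)))) (.nd (nat_lit 8) 
(.nd (nat_lit 12) (.lf (nat_lit 5100357249) (dlOf (nat_lit 1) (nat_lit 0x128002000e0008053982))) 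
(.lf (nat_lit 4160837249) (dlOf (nat_lit 1) (nat_lit 0x240018009d81)))) 
(.lf (nat_lit 268518785) (dlOf (nat_lit 1) (nat_lit 0x28008000400200020008053583)))))) 
(.nd (nat_lit 18) (.nd (nat_lit 11) (.nd (nat_lit 7) (.nd (nat_lit 10) 
(.lf (nat_lit 3691069697) (dlOf (nat_lit 1) (nat_lit 0x20028010701))) 
(.lf (nat_lit 4095821057) (dlOf (nat_lit 1) (nat_lit 0x4002000400080e2f02)))) 
(.lf (nat_lit 470368385) (dlOf (nat_lit 1) (nat_lit 0xf0004002200080c0102)))) (.nd (nat_lit 7) 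
(.nd (nat_lit 27) (.lf (nat_lit 3556854529) (dlOf (nat_lit 1) (nat_lit 0x200280d5a81))) 
(.lf (nat_lit 3154201345) (dlOf (nat_lit 1) (nat_lit 0xc0028105a81)))) 
(.lf (nat_lit 469846145) (dlOf (nat_lit 1) (nat_lit 0x7400400280008004782))))) (.nd (nat_lit 29) 
(.nd (nat_lit 22) (.nd (nat_lit 27) 
(.lf (nat_lit 1409630209) (dlOf (nat_lit 1) (nat_lit 0x20028060001))) 
(.lf (nat_lit 1543847937) (dlOf (nat_lit 2) (nat_lit 0x10046000000200040018190001)))) 
(.lf (nat_lit 474300417) (dlOf (nat_lit 5) (nat_lit 0xa22e00071128005082c002836401c6308000a22e00071128005882c001436401c6208000e22e00091128005882c003436401c6008001222e00041128004882c002036401c5e0800020029130001)))) 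
(.nd (nat_lit 21) 
(.lf (nat_lit 3154460673) (dlOf (nat_lit 2) (nat_lit 0xa00a001ff40800400080004002001c00081a0003))) 
(.lf (nat_lit 1009074177) (dlOf (nat_lit 1) (nat_lit 0xc0019050001)))))))) (.nd (nat_lit 19) 
(.nd (nat_lit 28) (.nd (nat_lit 8) (.nd (nat_lit 7) (.nd (nat_lit 9) (.nd (nat_lit 18) 
(.lf (nat_lit 8470593) (dlOf (nat_lit 1) (nat_lit 0x80018510001))) 
(.lf (nat_lit 2756001857) (dlOf (nat_lit 1) (nat_lit 0x18002000e00081d0c82)))) (.nd (nat_lit 11) 
(.lf (nat_lit 6039880257) (dlOf (nat_lit 2) (nat_lit 0x2011800180880007008003c002000a0008001582))) 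
(.lf (nat_lit 45435457) (dlOf (nat_lit 2) (nat_lit 0x34e310002f819325200))))) (.nd (nat_lit 18) 
(.nd (nat_lit 26) (.lf (nat_lit 6576750785) (dlOf (nat_lit 1) (nat_lit 0x28004000200180b0402))) 
(.lf (nat_lit 5972771009) (dlOf (nat_lit 1) (nat_lit 0x28004000200180b0402)))) 
(.lf (nat_lit 1208303809) (dlOf (nat_lit 1) (nat_lit 0x5c00080c1b01))))) (.nd (nat_lit 27) 
(.nd (nat_lit 26) (.nd (nat_lit 7) 
(.lf (nat_lit 3227969) (dlOf (nat_lit 2) (nat_lit 0x2ce8a000320200080028200601))) 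
(.lf (nat_lit 1074086337) (dlOf (nat_lit 1) (nat_lit 0x100028090901)))) (.nd (nat_lit 22) 
(.lf (nat_lit 5972771137) (dlOf (nat_lit 1) (nat_lit 0x2a00280b0601))) 
(.lf (nat_lit 2755739969) (dlOf (nat_lit 1) (nat_lit 0x4004000200081b0602))))) (.nd (nat_lit 7) 
(.nd (nat_lit 30) (.lf (nat_lit 6576750913) (dlOf (nat_lit 1) (nat_lit 0x2a00280b0601))) 
(.lf (nat_lit 1208041793) (dlOf (nat_lit 9) (nat_lit 0xc072000602600180058000b41800b802c00056040084052003e00c00015020003014800f00300005208000c052003600c000d00580001818005803000008040008052004800c00120058000081800d00a40008050001400c001b00580000020003800803c800205a40008090c03)))) 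
(.lf (nat_lit 3355526081) (dlOf (nat_lit 1) (nat_lit 0x98004000a00080a2782)))))) (.nd (nat_lit 27) 
(.nd (nat_lit 7) (.nd (nat_lit 8) (.nd (nat_lit 22) 
(.lf (nat_lit 4563746881) (dlOf (nat_lit 3) (nat_lit 0x27018804b00c003e405801bc02900b20140050009c01f8042001601c0010003806780000013a280070062011c03000e7016007600a4028404e00f202100030100001807000100360022007004e000000238580e4000803bc002064c00080d0483))) 
(.lf (nat_lit 3494199361) (dlOf (nat_lit 1) (nat_lit 0x18002000e00081d0c82)))) (.nd (nat_lit 22) 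
(.lf (nat_lit 4563484993) (dlOf (nat_lit 9) (nat_lit 0x5201a000200c8010c03e00a0015008b0090000702801c807c000360400500680050032006600f80068054007c02601240120000d06006a01a0032007c015402a011e0120000c04005b019801180c801ac03c00a2015008b00900005028018005402280240001304009a0330028019001b00b801b003c01140120000885000200f00003408013800802a400201340008090c03))) 
(.lf (nat_lit 3493937473) (dlOf (nat_lit 1) (nat_lit 0x40008001c002000800081b0603))))) 
(.nd (nat_lit 9) (.nd (nat_lit 18) 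
(.lf (nat_lit 872497601) (dlOf (nat_lit 1) (nat_lit 0x20028091081))) 
(.lf (nat_lit 1946501569) (dlOf (nat_lit 1) (nat_lit 0x100028090901)))) 
(.lf (nat_lit 5167467457) (dlOf (nat_lit 1) (nat_lit 0x4004000a0008055d82))))) (.nd (nat_lit 7) 
(.nd (nat_lit 8) (.nd (nat_lit 10) 
(.lf (nat_lit 471941185) (dlOf (nat_lit 1) (nat_lit 0x4002000200086d0e02))) 
(.lf (nat_lit 2080457793) (dlOf (nat_lit 1) (nat_lit 0x2400200280008092882)))) (.nd (nat_lit 10) 
(.lf (nat_lit 2617328449) (dlOf (nat_lit 1) (nat_lit 0x98004000a00080a2302))) 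
(.lf (nat_lit 469845825) (dlOf (nat_lit 3) (nat_lit 0x50f90000b80802387c80005a0400a0004003e0008003e02))))) 
(.nd (nat_lit 9) (.nd (nat_lit 26) 
(.lf (nat_lit 4697702849) (dlOf (nat_lit 2) (nat_lit 0x3006800220150099009000000180118008004000200b00008091083))) 
(.lf (nat_lit 2080457153) (dlOf (nat_lit 1) (nat_lit 0x110008002c00200ae0008091083)))) 
(.lf (nat_lit 5771447233) (dlOf (nat_lit 1) (nat_lit 0x1400200080008005d82))))))) (.nd (nat_lit 18) 
(.nd (nat_lit 21) (.nd (nat_lit 26) (.nd (nat_lit 20) (.nd (nat_lit 29) 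
(.lf (nat_lit 3221831745) (dlOf (nat_lit 2) (nat_lit 0x808c0000002000200181a1401))) 
(.lf (nat_lit 537477185) (dlOf (nat_lit 27) (nat_lit 0x64c0be0004202005405f0002081000102f8005013c04e80980004006006004c0001f81010d02f8000e008020017c0004e040b500be000260200f605f0001281006c02f8000900814d817c000460406800be00440590001102029702f800084080a881a807ac0be04f405e028702c8056815c0f98096009804a016c01c800e80d8024806a0584030011a017807200a4031004c003a00b002200280c70010058c004000202403b605f01b302c80007c10088017c062c0b20001e04027005f021002c8000741001b8164000320402480be02a4059033002580004c180da017c04ec0b200aa04b002701800003c2005f817c0001c0403e00be025c05902ef025807200c0000181005a40be03ac059036d02580c480c0000161004b00be000e04b0000502017502f803f016401bc0960000906004405f0000101017302f8000000826380083c6c00206d000080a0d03)))) 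
(.lf (nat_lit 10043457) (dlOf (nat_lit 1) (nat_lit 0x2b4002013800085b0782)))) (.nd (nat_lit 22) 
(.nd (nat_lit 27) 
(.lf (nat_lit 1409892417) (dlOf (nat_lit 5) (nat_lit 0x2a05700e3026004b80e80002c0c03480ba006405700fc026001f80e80150018000140a022004c00002810082026000010080d1800800d8002001a00080a0d83))) 
(.lf (nat_lit 3960029249) (dlOf (nat_lit 1) (nat_lit 0x200181a1801)))) 
(.lf (nat_lit 474562625) (dlOf (nat_lit 2) (nat_lit 0x42ac0023c02000800191a0601))))) 
(.nd (nat_lit 9) (.nd (nat_lit 7) (.nd (nat_lit 20) 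
(.lf (nat_lit 3492364353) (dlOf (nat_lit 1) (nat_lit 0x6400180c1401))) 
(.lf (nat_lit 3752001) (dlOf (nat_lit 2) (nat_lit 0xb00000001a040010002002a0008220c82)))) 
(.lf (nat_lit 1345930433) (dlOf (nat_lit 1) (nat_lit 0x1ec00400ac0008e22d02)))) (.nd (nat_lit 12) 
(.lf (nat_lit 472468033) (dlOf (nat_lit 1) (nat_lit 0x260028985201))) 
(.lf (nat_lit 7952961) (dlOf (nat_lit 2) (nat_lit 0x12ac00007408003000800040020016000851b503)))))) 
(.nd (nat_lit 9) (.nd (nat_lit 7) (.nd (nat_lit 10) (.nd (nat_lit 20) 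
(.lf (nat_lit 21839937) (dlOf (nat_lit 1) (nat_lit 0x5000200dc0008a70782))) 
(.lf (nat_lit 1346191425) (dlOf (nat_lit 33) (nat_lit 0x376160027e06c80e6827006f411a0024908034e16001a706c80b6827005bc11a002480807e616003f306c81dd82700ee811a0024708021e16001a806c8073827001ec11a002450800e41600011f8100f40b0006b836400e0138004208d001118400080b000090364004220800442c0004a0d90010802000c0b0006303640028138006c08d001070400120b000180364002011a0020c0600081600010581003d06c80082808002058000e01b20020904002e160001906c80081c10002858000341b200201040046160002006c80080010000858000141b2001ff0400260d9000ff0100380b0005183640018138001e08d000fe0400740b000d3836400ec138009e08d000fd0400470b0006e0364006c11a001f80602f816001a806c8007dc100270364003ea0405482c0034e0d9011804e00b20234003e610004c2c0023e0d9006204e005d8234003e41000281b2001208d000f882028806c8007c0080d40364008411a001ef04041415f01140af010a035c03701ac015809b00aa0458005503004d857c02a01ae000f404002a08d0004a0100c90b0000000080588008007400201560008e60603))))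 
(.lf (nat_lit 58541121) (dlOf (nat_lit 1) (nat_lit 0xc8004002800097e2882)))) (.nd (nat_lit 21) 
(.lf (nat_lit 48055489) (dlOf (nat_lit 1) (nat_lit 0x20019402d01))) 
(.lf (nat_lit 58541249) (dlOf (nat_lit 1) (nat_lit 0x68004001a00097e2d02))))) (.nd (nat_lit 20) 
(.nd (nat_lit 11) (.lf (nat_lit 19743297) (dlOf (nat_lit 1) (nat_lit 0x18002000200089d1582))) 
(.nd (nat_lit 21) 
(.lf (nat_lit 38619713) (dlOf (nat_lit 1) (nat_lit 0x10008004800200040009135203))) 
(.lf (nat_lit 32328257) (dlOf (nat_lit 1) (nat_lit 0x160018ef5201))))) (.nd (nat_lit 22) 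
(.lf (nat_lit 1880967745) (dlOf (nat_lit 1) (nat_lit 0x240028d75201))) 
(.lf (nat_lit 56445505) (dlOf (nat_lit 1) (nat_lit 0xe0019735201))))))))) (.nd (nat_lit 28) 
(.nd (nat_lit 6) (.nd (nat_lit 18) (.nd (nat_lit 19) (.nd (nat_lit 20) (.nd (nat_lit 7) 
(.nd (nat_lit 9) (.lf (nat_lit 14762017) (dlOf (nat_lit 1) (nat_lit 0x4000400280018770182))) 
(.lf (nat_lit 4496377377) (dlOf (nat_lit 2) (nat_lit 0x48070007c036002401a000f00c0000002000b8008000c002002a0008053703)))) 
(.nd (nat_lit 8) (.lf (nat_lit 3825287329) (dlOf (nat_lit 2) (nat_lit 0x6020000590180b0200))) 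
(.lf (nat_lit 8475041) (dlOf (nat_lit 1) (nat_lit 0x20018518381))))) (.nd (nat_lit 9) 
(.nd (nat_lit 22) 
(.lf (nat_lit 9519137) (dlOf (nat_lit 5) (nat_lit 0x224ec000aa04000d2760005202001893b0001b81000249d8000d00801c000801b800200040008560583))) 
(.lf (nat_lit 47267873) (dlOf (nat_lit 1) (nat_lit 0x1200293c0181)))) 
(.lf (nat_lit 20008481) (dlOf (nat_lit 1) (nat_lit 0x200089d7181))))) (.nd (nat_lit 20) 
(.nd (nat_lit 9) (.nd (nat_lit 23) (.nd (nat_lit 27) 
(.lf (nat_lit 537477153) (dlOf (nat_lit 21) (nat_lit 0x65017c0a100aa01e003100efc83000802f8071c80805f817c038e20400140be01c7002032a05d025802a00f20114038d40c050c0ba043a05401a20228071a41801c817401ec0a801c680403ce05d022f02a00f48114038ce0c08700a8037c04500df602002a02a006fac080020174046c0ae01ca052000202000b080cc0064010017140c011405d00f802b8067014800d00660171308012605d007702b8011814802e240c00140a2013f0020064051009f7810032028804f90080198144027b40403080be00fea02000805f007f181000102f803e440801400080574002000400080a0903)))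 
(.lf (nat_lit 3892920353) (dlOf (nat_lit 2) (nat_lit 0x480900000004002000400220008290c82)))) 
(.lf (nat_lit 42549281) (dlOf (nat_lit 2) (nat_lit 0x833a08000380801b8008000400200540009260183)))) 
(.nd (nat_lit 10) 
(.lf (nat_lit 50938401) (dlOf (nat_lit 2) (nat_lit 0x12a30001380800680080014002004400094d8703))) 
(.lf (nat_lit 609825) (dlOf (nat_lit 1) (nat_lit 0x380008007181))))) (.nd (nat_lit 21) 
(.nd (nat_lit 23) (.lf (nat_lit 35209249) (dlOf (nat_lit 1) (nat_lit 0x400400020009000682))) 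
(.lf (nat_lit 26820641) (dlOf (nat_lit 2) (nat_lit 0x181f600bcf0200060008c70701)))) 
(.lf (nat_lit 16334881) (dlOf (nat_lit 1) (nat_lit 0x40018890601)))))) (.nd (nat_lit 19) 
(.nd (nat_lit 27) (.nd (nat_lit 29) (.nd (nat_lit 21) 
(.lf (nat_lit 67452961) (dlOf (nat_lit 1) (nat_lit 0x100080008002000a0008140603))) 
(.lf (nat_lit 27607073) (dlOf (nat_lit 2) (nat_lit 0x5a1400a680200020018d00681)))) 
(.nd (nat_lit 30) (.lf (nat_lit 537215009) (dlOf (nat_lit 1) (nat_lit 0x20028060501))) 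
(.lf (nat_lit 5905924129) (dlOf (nat_lit 1) (nat_lit 0x20028160481))))) (.nd (nat_lit 30) 
(.lf (nat_lit 671432737) (dlOf (nat_lit 3) (nat_lit 0x5c04a000da02003402500000018190800))) 
(.lf (nat_lit 3892658209) (dlOf (nat_lit 4) (nat_lit 0x3e032001d0168008c0a40000b060016064000050100050320011011c00280880014038000a017000000280110008002c00200040008180183))))) 
(.nd (nat_lit 21) (.nd (nat_lit 22) (.nd (nat_lit 7) (.nd (nat_lit 24) 
(.lf (nat_lit 42811425) (dlOf (nat_lit 1) (nat_lit 0x800200060009280182))) 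
(.lf (nat_lit 59588641) (dlOf (nat_lit 1) (nat_lit 0x340029810681)))) 
(.lf (nat_lit 2753380769) (dlOf (nat_lit 1) (nat_lit 0x400400020008090782)))) (.nd (nat_lit 23) 
(.lf (nat_lit 5062689) (dlOf (nat_lit 1) (nat_lit 0x40018300601))) 
(.lf (nat_lit 13451297) (dlOf (nat_lit 1) (nat_lit 0x5800200140008720b02))))) (.nd (nat_lit 10) 
(.nd (nat_lit 7) (.lf (nat_lit 29179937) (dlOf (nat_lit 1) (nat_lit 0x20018dd0e81))) 
(.lf (nat_lit 19745185) (dlOf (nat_lit 1) (nat_lit 0x1200189d4e81)))) (.nd (nat_lit 9) 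
(.lf (nat_lit 33375265) (dlOf (nat_lit 1) (nat_lit 0x400200020008f52882))) 
(.lf (nat_lit 19746337) (dlOf (nat_lit 1) (nat_lit 0x5000189d7181)))))))) (.nd (nat_lit 20) 
(.nd (nat_lit 8) (.nd (nat_lit 21) (.nd (nat_lit 9) (.nd (nat_lit 7) 
(.lf (nat_lit 12664929) (dlOf (nat_lit 1) (nat_lit 0x4002000200086d1282))) 
(.lf (nat_lit 1208041697) (dlOf (nat_lit 1) (nat_lit 0xb80080004002005e0008090a83)))) 
(.nd (nat_lit 10) (.lf (nat_lit 8475361) (dlOf (nat_lit 1) (nat_lit 0x400200020008518c82))) 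
(.lf (nat_lit 671172321) (dlOf (nat_lit 1) (nat_lit 0x10008000400200020008143a83))))) 
(.nd (nat_lit 7) (.lf (nat_lit 44384353) (dlOf (nat_lit 1) (nat_lit 0x400400280019301a82))) 
(.nd (nat_lit 18) 
(.lf (nat_lit 18956513) (dlOf (nat_lit 1) (nat_lit 0x20008000800200020008970583))) 
(.lf (nat_lit 19218657) (dlOf (nat_lit 2) (nat_lit 0x474300000018970580)))))) (.nd (nat_lit 7) 
(.nd (nat_lit 9) (.lf (nat_lit 25772385) (dlOf (nat_lit 1) (nat_lit 0x20018c10901))) 
(.lf (nat_lit 6039884641) (dlOf (nat_lit 3) (nat_lit 0x14023002a3010007011801514080010008004800200060008008f83)))) 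
(.nd (nat_lit 9) (.lf (nat_lit 2348892641) (dlOf (nat_lit 1) (nat_lit 0x20008017d01))) 
(.nd (nat_lit 30) (.lf (nat_lit 4295312353) (dlOf (nat_lit 1) (nat_lit 0x40018112881))) 
(.lf (nat_lit 5369054177) (dlOf (nat_lit 1) (nat_lit 0xc00280e2881))))))) (.nd (nat_lit 12) 
(.nd (nat_lit 8) (.nd (nat_lit 7) 
(.lf (nat_lit 52248673) (dlOf (nat_lit 3) (nat_lit 0x24a6900b1e8100025348058e4080058008000800200140009521983))) 
(.nd (nat_lit 18) (.lf (nat_lit 30490849) (dlOf (nat_lit 1) (nat_lit 0x1a0018e30581))) 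
(.lf (nat_lit 28655841) (dlOf (nat_lit 2) (nat_lit 0x409f300020818da0580))))) (.nd (nat_lit 7) 
(.lf (nat_lit 1917281) (dlOf (nat_lit 1) (nat_lit 0x400400020008150702))) (.nd (nat_lit 19) 
(.lf (nat_lit 36783073) (dlOf (nat_lit 1) (nat_lit 0x20019072881))) 
(.lf (nat_lit 39404513) (dlOf (nat_lit 1) (nat_lit 0x9ac00408460009192882)))))) (.nd (nat_lit 9) 
(.nd (nat_lit 7) (.lf (nat_lit 20009057) (dlOf (nat_lit 1) (nat_lit 0xc002000600089d7d82))) 
(.nd (nat_lit 19) (.lf (nat_lit 20010209) (dlOf (nat_lit 1) (nat_lit 0x80080004002000200089d9503))) 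
(.lf (nat_lit 7951585) (dlOf (nat_lit 1) (nat_lit 0x8008000400200020008519503))))) 
(.nd (nat_lit 18) 
(.lf (nat_lit 20011745) (dlOf (nat_lit 1) (nat_lit 0x680080034002000200089db983))) 
(.lf (nat_lit 20273889) (dlOf (nat_lit 1) (nat_lit 0x48008000c002000e00089db983)))))))) 
(.nd (nat_lit 30) (.nd (nat_lit 26) (.nd (nat_lit 7) (.nd (nat_lit 6) (.nd (nat_lit 8) 
(.nd (nat_lit 27) 
(.lf (nat_lit 4563746849) (dlOf (nat_lit 4) (nat_lit 0xa401980007c0800780cc004c03c00012040060033001001900050078000000c0014004009600180d0182))) 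
(.lf (nat_lit 4697964577) (dlOf (nat_lit 4) (nat_lit 0xa401980007c0800780cc004c03c00012040060033001001900050078000000c0014004009600180d0182)))) 
(.lf (nat_lit 268518689) (dlOf (nat_lit 1) (nat_lit 0xf8400402120008053102)))) (.nd (nat_lit 27) 
(.lf (nat_lit 2953134177) (dlOf (nat_lit 2) (nat_lit 0x14058000c02b0006015000300a4001c04e000c01a000100980040024001000a00100020009000000510580068008000800200100008160483))) 
(.lf (nat_lit 4697964641) (dlOf (nat_lit 2) (nat_lit 0x80cc01d0a040030004001200080d0782))))) 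
(.nd (nat_lit 6) (.nd (nat_lit 10) (.nd (nat_lit 18) 
(.lf (nat_lit 3087089825) (dlOf (nat_lit 2) (nat_lit 0x6020000588180b0200))) 
(.lf (nat_lit 5234835617) (dlOf (nat_lit 1) (nat_lit 0x4004000200180f1382)))) 
(.lf (nat_lit 402736289) (dlOf (nat_lit 1) (nat_lit 0x20028092b81)))) (.nd (nat_lit 8) 
(.lf (nat_lit 4563484897) (dlOf (nat_lit 1) (nat_lit 0x100008004c00200f80008090a83))) 
(.lf (nat_lit 4697702881) (dlOf (nat_lit 2) (nat_lit 0x7b009000000080160008007000200d20008091283)))))) 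
(.nd (nat_lit 31) (.nd (nat_lit 6) (.nd (nat_lit 20) 
(.lf (nat_lit 474562593) (dlOf (nat_lit 2) (nat_lit 0x8d0ab001e050c01d827600e60cd000e04b001281d400040e60003e0e00ca00291a0181))) 
(.lf (nat_lit 471416865) (dlOf (nat_lit 1) (nat_lit 0x200282f0c81)))) (.nd (nat_lit 8) 
(.lf (nat_lit 469848801) (dlOf (nat_lit 1) (nat_lit 0x40018008c81))) (.nd (nat_lit 10) 
(.lf (nat_lit 872497633) (dlOf (nat_lit 1) (nat_lit 0x400200020008091282))) 
(.lf (nat_lit 469849569) (dlOf (nat_lit 1) (nat_lit 0x3400400360008009b02)))))) (.nd (nat_lit 18) 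
(.nd (nat_lit 8) (.lf (nat_lit 2483110433) (dlOf (nat_lit 1) (nat_lit 0x20018017f01))) 
(.lf (nat_lit 2483110177) (dlOf (nat_lit 1) (nat_lit 0x20028014281)))) (.nd (nat_lit 6) 
(.nd (nat_lit 29) 
(.lf (nat_lit 2617589793) (dlOf (nat_lit 3) (nat_lit 0x7f0100001a80802c8080000c204000c00400180008100502))) 
(.lf (nat_lit 3154460705) (dlOf (nat_lit 6) (nat_lit 0x380640001702011c062009a02d004a0164025c0aa003004d009701a004a00980040036011c014004d003004d800c00700040000b1800080140000501004002a800f80d000d8028000070600d402e006400a00320008000000c0098004002600081a0182)))) 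
(.lf (nat_lit 3154460769) (dlOf (nat_lit 1) (nat_lit 0x3c002001400081a0882))))))) (.nd (nat_lit 26) 
(.nd (nat_lit 20) (.nd (nat_lit 6) (.nd (nat_lit 9) (.nd (nat_lit 18) 
(.lf (nat_lit 5771968545) (dlOf (nat_lit 1) (nat_lit 0x18008000400200020008020183))) 
(.lf (nat_lit 4161093665) (dlOf (nat_lit 5) (nat_lit 0x154056010001b002f00c8001141802500ac01e803600380000001f8300560158044806800f0032000380600a602b008a00d0000d010031800802a400200da0008120503)))) 
(.lf (nat_lit 6308316705) (dlOf (nat_lit 3) (nat_lit 0x70032001a00a0000882001c0050000000800a8008005000200120008053703)))) 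
(.nd (nat_lit 7) (.nd (nat_lit 8) 
(.lf (nat_lit 1476477025) (dlOf (nat_lit 1) (nat_lit 0x2c0018010281))) 
(.lf (nat_lit 4160836449) (dlOf (nat_lit 1) (nat_lit 0xe0018008f81)))) 
(.lf (nat_lit 1342264289) (dlOf (nat_lit 1) (nat_lit 0x40004000e0008009202))))) (.nd (nat_lit 7) 
(.nd (nat_lit 10) (.nd (nat_lit 19) 
(.lf (nat_lit 1343569953) (dlOf (nat_lit 2) (nat_lit 0x330b2800364080008008001000200020008290603))) 
(.lf (nat_lit 1346191393) (dlOf (nat_lit 7) (nat_lit 0xdc0558016828601ea139008506c80db8334016019803ee096017a04680fa021401c810800a0073000070b02010ab01008334085c10a0000c06010c156000058101210ab008f0334050812c027808d01450428000282801882140001204076c2ac004e13b01d9066800c8258078410a000000a04660028e60181)))) 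
(.lf (nat_lit 1880179745) (dlOf (nat_lit 1) (nat_lit 0xf80080004002000200087a2883)))) 
(.nd (nat_lit 10) (.lf (nat_lit 5773279393) (dlOf (nat_lit 1) (nat_lit 0x4004000200180c1382))) 
(.lf (nat_lit 1345930401) (dlOf (nat_lit 1) (nat_lit 0x20018e22b81)))))) (.nd (nat_lit 18) 
(.nd (nat_lit 6) (.nd (nat_lit 7) (.nd (nat_lit 27) 
(.lf (nat_lit 1409892385) (dlOf (nat_lit 21) (nat_lit 0x65017c0a100aa01e003100d4483019502e812c015007900840191d06028605d021d02a00d10108032380c00e40ba00f605400c8d8201e702e8117815007a40840191a06001005f00c7c8100bf02f8063e008002817c031ee0408700a8037c04200c4102002a02a006204080020174046c0ae01ca052000202000b080cc0064010015ad0c011405d00f802b8067014800d0066015ac08012605d007702b8011814802b560c00140a2013e9020064051009f4010032028804f88080198144027b00403080be0107702000805f0083681000102f803e080801400080574002000400080a0903))) 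
(.lf (nat_lit 6375948321) (dlOf (nat_lit 1) (nat_lit 0x18008000400200020008020183)))) 
(.lf (nat_lit 1946242209) (dlOf (nat_lit 1) (nat_lit 0x60018006281)))) (.nd (nat_lit 9) 
(.lf (nat_lit 3691069537) (dlOf (nat_lit 1) (nat_lit 0xac00200640008010282))) 
(.lf (nat_lit 6241207905) (dlOf (nat_lit 2) (nat_lit 0x3004c0005a04008400400060008053902))))) 
(.nd (nat_lit 29) (.nd (nat_lit 27) 
(.lf (nat_lit 1409630241) (dlOf (nat_lit 1) (nat_lit 0x20028060501))) 
(.lf (nat_lit 1543847969) (dlOf (nat_lit 3) (nat_lit 0x5c04a000e002003402500000018190800)))) 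
(.nd (nat_lit 7) 
(.lf (nat_lit 4096606241) (dlOf (nat_lit 2) (nat_lit 0x200980004c0800080080008002000c0008140b03))) 
(.lf (nat_lit 1946501537) (dlOf (nat_lit 1) (nat_lit 0xc0028090781)))))))))) (.nd (nat_lit 5) 
(.nd (nat_lit 18) (.nd (nat_lit 8) (.nd (nat_lit 7) (.nd (nat_lit 20) (.nd (nat_lit 19) 
(.nd (nat_lit 26) (.nd (nat_lit 9) (.nd (nat_lit 22) 
(.lf (nat_lit 3221307401) (dlOf (nat_lit 1) (nat_lit 0x400200020008090002))) 
(.lf (nat_lit 21053449) (dlOf (nat_lit 2) (nat_lit 0x2e6a5800000080158008001400200280008a00283)))) 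
(.lf (nat_lit 6308316681) (dlOf (nat_lit 5) (nat_lit 0x30806000074040018030000380200a60080001b01000800c0000d4080090008002000200460008053683)))) 
(.nd (nat_lit 9) (.nd (nat_lit 10) 
(.lf (nat_lit 3959504905) (dlOf (nat_lit 1) (nat_lit 0x400200020008090002))) 
(.lf (nat_lit 469845001) (dlOf (nat_lit 1) (nat_lit 0x40028002881)))) 
(.lf (nat_lit 3556854281) (dlOf (nat_lit 1) (nat_lit 0x4004000200080d5002))))) (.nd (nat_lit 29) 
(.nd (nat_lit 6) (.lf (nat_lit 50938377) (dlOf (nat_lit 1) (nat_lit 0xe80080064002006e00094d8003))) 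
(.lf (nat_lit 3221831753) (dlOf (nat_lit 2) (nat_lit 0x10043000138181a1480)))) (.nd (nat_lit 26) 
(.lf (nat_lit 1611218953) (dlOf (nat_lit 1) (nat_lit 0x80028110001))) 
(.lf (nat_lit 738803721) (dlOf (nat_lit 1) (nat_lit 0x80028110001)))))) (.nd (nat_lit 6) 
(.nd (nat_lit 19) (.nd (nat_lit 10) (.nd (nat_lit 24) 
(.lf (nat_lit 1343307785) (dlOf (nat_lit 2) (nat_lit 0x96025e0065002000400281e0481))) 
(.lf (nat_lit 17907721) (dlOf (nat_lit 1) (nat_lit 0x20028900581)))) 
(.lf (nat_lit 36783113) (dlOf (nat_lit 1) (nat_lit 0x20019072881)))) (.nd (nat_lit 21) 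
(.lf (nat_lit 1654793) (dlOf (nat_lit 1) (nat_lit 0x1000400060008110482))) 
(.lf (nat_lit 24723465) (dlOf (nat_lit 1) (nat_lit 0x800200020008bb0002))))) (.nd (nat_lit 19) 
(.nd (nat_lit 26) 
(.lf (nat_lit 3490791497) (dlOf (nat_lit 12) (nat_lit 0xe507ac07143a4000340400981eb004c0e90000cc1000587ac00243a4000320403781eb01b60e90000c41000b87ac005c3a4000300403761eb01b60e90000981009507ac04a83a4000250402961eb014b0e90000901004607ac02443a4000230403581eb01a80e90000881000187ac0004204004000200020008020882))) 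
(.lf (nat_lit 2752593993) (dlOf (nat_lit 12) (nat_lit 0xe507f407143ce000340400981fd004c0f38000cc1000587f400243ce000320403781fd01b60f38000c41000b87f4005c3ce000300403761fd01b60f38000981009507f404a83ce000250402961fd014b0f38000901004607f402443ce000230403581fd01a80f38000881000187f40004204004000200020008020882)))) 
(.lf (nat_lit 10043465) (dlOf (nat_lit 4) (nat_lit 0x4a0000001a0100030000000c40802880000004c040010004000400085b0882)))))) 
(.nd (nat_lit 6) (.nd (nat_lit 21) (.nd (nat_lit 10) (.nd (nat_lit 26) 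
(.lf (nat_lit 939606153) (dlOf (nat_lit 2) (nat_lit 0x20130001808800094080064004000c00080b0102))) 
(.lf (nat_lit 1812021385) (dlOf (nat_lit 2) (nat_lit 0x20130001808800094080064004000c00080b0102)))) 
(.nd (nat_lit 9) (.lf (nat_lit 1543589001) (dlOf (nat_lit 1) (nat_lit 0x20028146181))) 
(.lf (nat_lit 1342262921) (dlOf (nat_lit 1) (nat_lit 0x14004001a0008007182))))) (.nd (nat_lit 20) 
(.lf (nat_lit 18956425) (dlOf (nat_lit 1) (nat_lit 0x20018970481))) (.nd (nat_lit 22) 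
(.lf (nat_lit 3227785) (dlOf (nat_lit 1) (nat_lit 0x80080010002000a0008200103))) 
(.lf (nat_lit 24199305) (dlOf (nat_lit 1) (nat_lit 0x800200020008b80102)))))) (.nd (nat_lit 26) 
(.nd (nat_lit 10) (.nd (nat_lit 22) 
(.lf (nat_lit 6576750793) (dlOf (nat_lit 1) (nat_lit 0x4800280b0481))) 
(.lf (nat_lit 4276425) (dlOf (nat_lit 1) (nat_lit 0x8008000800200020008290483)))) 
(.lf (nat_lit 61949129) (dlOf (nat_lit 1) (nat_lit 0xa0002001e0009922d82)))) (.nd (nat_lit 10) 
(.nd (nat_lit 30) (.lf (nat_lit 604061897) (dlOf (nat_lit 1) (nat_lit 0x400200020008010482))) 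
(.lf (nat_lit 5972771017) (dlOf (nat_lit 1) (nat_lit 0x4800280b0481)))) 
(.lf (nat_lit 472990921) (dlOf (nat_lit 1) (nat_lit 0x20028bb2d81))))))) (.nd (nat_lit 6) 
(.nd (nat_lit 9) (.nd (nat_lit 20) (.nd (nat_lit 10) 
(.lf (nat_lit 1744912649) (dlOf (nat_lit 1) (nat_lit 0x8008000400200020008090a83))) 
(.nd (nat_lit 27) 
(.lf (nat_lit 1409371401) (dlOf (nat_lit 1) (nat_lit 0x800800a400200240008006683))) 
(.lf (nat_lit 4227943689) (dlOf (nat_lit 1) (nat_lit 0x8000400420008006682))))) (.nd (nat_lit 10) 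
(.lf (nat_lit 40976649) (dlOf (nat_lit 1) (nat_lit 0x60029203681))) (.nd (nat_lit 21) 
(.lf (nat_lit 55657737) (dlOf (nat_lit 1) (nat_lit 0x4002000200096d2f82))) 
(.lf (nat_lit 36783369) (dlOf (nat_lit 1) (nat_lit 0xa0019072f81)))))) (.nd (nat_lit 20) 
(.nd (nat_lit 7) (.nd (nat_lit 27) 
(.lf (nat_lit 6174100233) (dlOf (nat_lit 1) (nat_lit 0x420018055b01))) 
(.lf (nat_lit 5234576137) (dlOf (nat_lit 2) (nat_lit 0xb017000018080060008008c00200340008055b03)))) 
(.lf (nat_lit 4563487625) (dlOf (nat_lit 1) (nat_lit 0xe8002002e0008095c02)))) (.nd (nat_lit 12) 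
(.lf (nat_lit 20007689) (dlOf (nat_lit 2) (nat_lit 0x1fc8a000170189d5b00))) 
(.lf (nat_lit 20011785) (dlOf (nat_lit 1) (nat_lit 0x1a80080094002001000089db983)))))) 
(.nd (nat_lit 26) (.nd (nat_lit 28) (.nd (nat_lit 7) 
(.lf (nat_lit 60377929) (dlOf (nat_lit 1) (nat_lit 0x20029845c01))) (.nd (nat_lit 11) 
(.lf (nat_lit 1610695113) (dlOf (nat_lit 1) (nat_lit 0xa0008091101))) 
(.lf (nat_lit 57231817) (dlOf (nat_lit 3) (nat_lit 0x1419da0168202009aced00346760057ec100188008001c00200580009794e83))))) 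
(.nd (nat_lit 7) 
(.lf (nat_lit 3087089993) (dlOf (nat_lit 3) (nat_lit 0xd00f8001006c000402e0004f060026017000268180b0600))) 
(.nd (nat_lit 27) (.lf (nat_lit 805388745) (dlOf (nat_lit 1) (nat_lit 0x640028090981))) 
(.lf (nat_lit 4697702857) (dlOf (nat_lit 5) (nat_lit 0x17a01500ef00900001c1001c005403d0024000060401000120000081007900a806b8048000000800c800400fe0008091102)))))) 
(.nd (nat_lit 7) (.nd (nat_lit 9) 
(.lf (nat_lit 3825287497) (dlOf (nat_lit 3) (nat_lit 0xd00f8001006c000402e000560600260170002a0180b0600))) 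
(.lf (nat_lit 474041161) (dlOf (nat_lit 1) (nat_lit 0x400400020009005c02)))) (.nd (nat_lit 9) 
(.nd (nat_lit 27) (.lf (nat_lit 1677803977) (dlOf (nat_lit 1) (nat_lit 0x640028090981))) 
(.lf (nat_lit 2080457161) (dlOf (nat_lit 4) (nat_lit 0x3640720001702001a0390000b01009901c80000008064000800b000200d60008091103)))) 
(.lf (nat_lit 6377522121) (dlOf (nat_lit 1) (nat_lit 0x280080004002000800080e2883)))))))) 
(.nd (nat_lit 28) (.nd (nat_lit 20) (.nd (nat_lit 27) (.nd (nat_lit 19) (.nd (nat_lit 26) 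
(.nd (nat_lit 6) (.nd (nat_lit 29) 
(.lf (nat_lit 3221569545) (dlOf (nat_lit 1) (nat_lit 0x400200020008140482))) 
(.lf (nat_lit 537214985) (dlOf (nat_lit 1) (nat_lit 0x10008000800200020008060483)))) 
(.lf (nat_lit 21315785) (dlOf (nat_lit 1) (nat_lit 0x20028a31b81)))) (.nd (nat_lit 30) 
(.lf (nat_lit 4362420233) (dlOf (nat_lit 1) (nat_lit 0xac004004c0008070502))) 
(.lf (nat_lit 3288678409) (dlOf (nat_lit 1) (nat_lit 0xa4004004800080c0802))))) (.nd (nat_lit 6) 
(.nd (nat_lit 21) (.lf (nat_lit 21839881) (dlOf (nat_lit 1) (nat_lit 0x20028a70481))) 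
(.lf (nat_lit 15548425) (dlOf (nat_lit 1) (nat_lit 0x1b20028800281)))) (.nd (nat_lit 10) 
(.lf (nat_lit 21839945) (dlOf (nat_lit 3) (nat_lit 0x234740004c040045a3a000220200020008a70881))) 
(.lf (nat_lit 537742409) (dlOf (nat_lit 1) (nat_lit 0x1c002003200080f6082)))))) (.nd (nat_lit 6) 
(.nd (nat_lit 31) (.nd (nat_lit 7) 
(.lf (nat_lit 671432713) (dlOf (nat_lit 2) (nat_lit 0x1808c0000004002400400140008190002))) 
(.lf (nat_lit 1745174665) (dlOf (nat_lit 2) (nat_lit 0x6016000130180c0f00)))) (.nd (nat_lit 26) 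
(.lf (nat_lit 3355787273) (dlOf (nat_lit 1) (nat_lit 0x1f0008003400200180008110003))) 
(.lf (nat_lit 3959767049) (dlOf (nat_lit 1) (nat_lit 0x400200020008140482))))) (.nd (nat_lit 29) 
(.nd (nat_lit 30) (.lf (nat_lit 4429531593) (dlOf (nat_lit 1) (nat_lit 0xa0018114e81))) 
(.lf (nat_lit 5503273417) (dlOf (nat_lit 1) (nat_lit 0x4000180e4e81)))) 
(.lf (nat_lit 4966402505) (dlOf (nat_lit 1) (nat_lit 0x2400180e4e81)))))) (.nd (nat_lit 22) 
(.nd (nat_lit 7) (.nd (nat_lit 6) (.nd (nat_lit 29) 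
(.lf (nat_lit 68501513) (dlOf (nat_lit 1) (nat_lit 0x400400020008590582))) 
(.lf (nat_lit 2752856073) (dlOf (nat_lit 1) (nat_lit 0xa800200080008050002)))) 
(.lf (nat_lit 3490121) (dlOf (nat_lit 2) (nat_lit 0x273a28000c808007000800b4002000e0008200603)))) 
(.nd (nat_lit 6) (.nd (nat_lit 9) 
(.lf (nat_lit 3489929) (dlOf (nat_lit 1) (nat_lit 0x128008000400200260008200103))) 
(.lf (nat_lit 20270729) (dlOf (nat_lit 1) (nat_lit 0xa00289d7181)))) 
(.lf (nat_lit 3489993) (dlOf (nat_lit 1) (nat_lit 0x120018200481))))) (.nd (nat_lit 19) 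
(.nd (nat_lit 9) (.nd (nat_lit 21) 
(.lf (nat_lit 5586953) (dlOf (nat_lit 1) (nat_lit 0x4004000200083a0282))) (.nd (nat_lit 23) 
(.lf (nat_lit 24461321) (dlOf (nat_lit 1) (nat_lit 0x28008001400200020008ba0003))) 
(.lf (nat_lit 16072713) (dlOf (nat_lit 7) (nat_lit 0x8958000247500011f5c0008f58000475f0004399802f5430002256000091d400027d700013d600011d7c0010e6600bd40c0008958000247500011f5c0008ebe0006733005e78500013eb80011d7c0179c0800192b000088ea00043eb80021d7c000ce6600bc90a0006958000347500021f5c0010ebe00bc80800500018860281))))) 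
(.lf (nat_lit 41239049) (dlOf (nat_lit 1) (nat_lit 0xa0029227b01)))) (.nd (nat_lit 6) 
(.nd (nat_lit 7) (.lf (nat_lit 24985609) (dlOf (nat_lit 1) (nat_lit 0x120028bd0581))) 
(.lf (nat_lit 8215177) (dlOf (nat_lit 1) (nat_lit 0x6002851b681)))) (.nd (nat_lit 7) 
(.lf (nat_lit 58542665) (dlOf (nat_lit 1) (nat_lit 0x200297e5201))) 
(.lf (nat_lit 8212937) (dlOf (nat_lit 1) (nat_lit 0x400200020008518682)))))))) (.nd (nat_lit 26) 
(.nd (nat_lit 27) (.nd (nat_lit 6) (.nd (nat_lit 7) (.nd (nat_lit 29) 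
(.lf (nat_lit 4563746825) (dlOf (nat_lit 2) (nat_lit 0x480320067a8180d0000))) 
(.lf (nat_lit 4026875913) (dlOf (nat_lit 1) (nat_lit 0xa4004004800080c0802)))) 
(.lf (nat_lit 3490007433) (dlOf (nat_lit 1) (nat_lit 0xc00200020008004e82)))) (.nd (nat_lit 19) 
(.lf (nat_lit 4563746889) (dlOf (nat_lit 3) (nat_lit 0x1c029000248100110148001140801d000800b0002002600080d0503))) 
(.lf (nat_lit 1346191433) (dlOf (nat_lit 13) (nat_lit 0x4602c002360d9010804e008382340048c1002fc2c001680d9009404e004b0234004881000881380020f02016c160009d04e002b0234004100c00241b2009a08d000fb02000406c8007d0080cc057c00b42bc034e0d7000806b0037026c01b0116001520c035815f01af06b8003dc100d4057c06ac1ae000f504000215f0007901003f06c8002d00805d058002d41b2013409c009b0468000002005e0008006800200e40008e60603))))) 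
(.nd (nat_lit 6) (.nd (nat_lit 29) (.nd (nat_lit 30) 
(.lf (nat_lit 4697964553) (dlOf (nat_lit 2) (nat_lit 0x48032003a60180d0000))) 
(.lf (nat_lit 1476739081) (dlOf (nat_lit 1) (nat_lit 0x400400020008160002)))) 
(.lf (nat_lit 5234835465) (dlOf (nat_lit 1) (nat_lit 0x200180f0001)))) (.nd (nat_lit 7) 
(.lf (nat_lit 4697964617) (dlOf (nat_lit 3) (nat_lit 0x1c029000230100110148001080801d000800b0002002600080d0503))) 
(.lf (nat_lit 5773279433) (dlOf (nat_lit 1) (nat_lit 0x200180c1781)))))) (.nd (nat_lit 27) 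
(.nd (nat_lit 7) (.nd (nat_lit 11) 
(.lf (nat_lit 1409630217) (dlOf (nat_lit 1) (nat_lit 0x10008000800200020008060483))) 
(.lf (nat_lit 1410156553) (dlOf (nat_lit 2) (nat_lit 0x1d02f8001380800980080014002006600080f4703)))) 
(.nd (nat_lit 29) (.lf (nat_lit 335888521) (dlOf (nat_lit 1) (nat_lit 0x400180c0f01))) 
(.nd (nat_lit 30) (.lf (nat_lit 872759433) (dlOf (nat_lit 1) (nat_lit 0x4400280c0e81))) 
(.lf (nat_lit 6241468553) (dlOf (nat_lit 3) (nat_lit 0x2c013800580940006808004803a000e019000600c000c000000064100040002001a00080f0f02)))))) 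
(.nd (nat_lit 30) (.nd (nat_lit 6) 
(.lf (nat_lit 3154460681) (dlOf (nat_lit 1) (nat_lit 0x380080054002003e00081a0003))) 
(.lf (nat_lit 3154460745) (dlOf (nat_lit 1) (nat_lit 0x400080088002011a00081a0683)))) 
(.nd (nat_lit 29) 
(.lf (nat_lit 1543847945) (dlOf (nat_lit 2) (nat_lit 0x14046000000200480018190001))) 
(.lf (nat_lit 4228202505) (dlOf (nat_lit 1) (nat_lit 0xac004004c0008070502))))))))) 
(.nd (nat_lit 18) (.nd (nat_lit 6) (.nd (nat_lit 19) (.nd (nat_lit 28) (.nd (nat_lit 8) 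
(.nd (nat_lit 20) (.nd (nat_lit 22) 
(.lf (nat_lit 6576750633) (dlOf (nat_lit 1) (nat_lit 0x200180b0001))) 
(.lf (nat_lit 21053481) (dlOf (nat_lit 7) (nat_lit 0x7b7d4001dbd8001ad4b000a66980006820008b7d40025bd8001cd4b000766980006420005b7d40021bd80010d4b00066698000602000737d40029bd80012d4b00076698000502000637b00041a9600005040006dec000d6a58001b34c000060c00f800400080008a00a02)))) 
(.nd (nat_lit 7) (.nd (nat_lit 22) 
(.lf (nat_lit 9519145) (dlOf (nat_lit 1) (nat_lit 0x20018560601))) 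
(.lf (nat_lit 47267881) (dlOf (nat_lit 1) (nat_lit 0xc004000e00093c0282)))) 
(.lf (nat_lit 20008105) (dlOf (nat_lit 1) (nat_lit 0x200089d6281))))) (.nd (nat_lit 7) 
(.nd (nat_lit 9) (.lf (nat_lit 1208041769) (dlOf (nat_lit 2) (nat_lit 0x3e0390001c018090b00))) 
(.lf (nat_lit 54610729) (dlOf (nat_lit 3) (nat_lit 0x104a8c0022602000854600107019655c00)))) 
(.lf (nat_lit 4496377257) (dlOf (nat_lit 3) (nat_lit 0x601c001600d0005381000280700028e040028002000c0008053602))))) 
(.nd (nat_lit 8) (.nd (nat_lit 7) (.nd (nat_lit 20) 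
(.lf (nat_lit 1344356393) (dlOf (nat_lit 1) (nat_lit 0x400200020008740002))) 
(.lf (nat_lit 1343307817) (dlOf (nat_lit 3) (nat_lit 0x23212f0002a01015e0978001140801a0008002000200da00081e0683)))) 
(.nd (nat_lit 26) 
(.lf (nat_lit 1476477097) (dlOf (nat_lit 1) (nat_lit 0x200080004002001e0008010283))) 
(.lf (nat_lit 3691069609) (dlOf (nat_lit 1) (nat_lit 0xc00400020008010282))))) (.nd (nat_lit 10) 
(.nd (nat_lit 9) 
(.lf (nat_lit 4563484969) (dlOf (nat_lit 9) (nat_lit 0x8400a806700480001c08003002a00320120000682001200900002c0801100d0000405e004601f004200a800280480000c14008c068000802f002300f8036805402d8024000050a0052034002600f8000101001300d0000060400a0068004c01f009a00a806b80480000010014c00401220018090b02))) 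
(.lf (nat_lit 474041129) (dlOf (nat_lit 1) (nat_lit 0x20004001e0009005c02)))) (.nd (nat_lit 7) 
(.lf (nat_lit 1409371433) (dlOf (nat_lit 7) (nat_lit 0xa05f0001201000402f80008c08006017c000420400340be0002002000205f0000e81000102f800000080128008010000200460008006803))) 
(.lf (nat_lit 6308316585) (dlOf (nat_lit 2) (nat_lit 0x3a018003b004000238100038008001800200260008053603))))))) 
(.nd (nat_lit 31) (.nd (nat_lit 21) (.nd (nat_lit 26) (.nd (nat_lit 22) (.nd (nat_lit 23) 
(.nd (nat_lit 27) 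
(.lf (nat_lit 537477161) (dlOf (nat_lit 2) (nat_lit 0x4302c8000d408019000800a0002010c00080a0983))) 
(.lf (nat_lit 134823977) (dlOf (nat_lit 1) (nat_lit 0x4004002800080c0c02)))) 
(.lf (nat_lit 42549289) (dlOf (nat_lit 3) (nat_lit 0x93a08000a4080029d040004e04004400400040009260202)))) 
(.lf (nat_lit 21577769) (dlOf (nat_lit 1) (nat_lit 0x140018a50a81)))) (.nd (nat_lit 27) 
(.lf (nat_lit 1409892393) (dlOf (nat_lit 2) (nat_lit 0x4302c80010408019000800a0002010c00080a0983))) 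
(.lf (nat_lit 201932841) (dlOf (nat_lit 1) (nat_lit 0x11c004037c00080c0d02))))) (.nd (nat_lit 20) 
(.lf (nat_lit 23674921) (dlOf (nat_lit 3) (nat_lit 0x40197e00d4802020ccbf006a3018b80000))) 
(.lf (nat_lit 3751977) (dlOf (nat_lit 4) (nat_lit 0x105510066481000a2a88033200800395440198e04004c00400060008220a02))))) 
(.nd (nat_lit 26) (.nd (nat_lit 21) (.nd (nat_lit 27) 
(.lf (nat_lit 3221831721) (dlOf (nat_lit 2) (nat_lit 0x603e0000b0181a0c00))) 
(.lf (nat_lit 3892920361) (dlOf (nat_lit 8) (nat_lit 0x6c0460012101010e01b800480240044a0801cc0000017002008606400890300110016411440a2064204c0428023009c810c05a0080089c03300ac01802020090115403a094001604b5002820f8000002d83c00e80a200b604f005b0110027006c00a002800b6000000020600de03001ab81440d6809e003604a000901881c380900ec0044068c01b02c100a015b801403ac0040596000000008c000102d0000000814a80080bc0002058c0008290d83)))) 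
(.lf (nat_lit 3492364329) (dlOf (nat_lit 6) (nat_lit 0x160798000320400b43cc0001802004a1e60000b8100090f300005808015079800028040008004000e00080c0c02)))) 
(.nd (nat_lit 7) (.nd (nat_lit 21) 
(.lf (nat_lit 3960029225) (dlOf (nat_lit 1) (nat_lit 0x8002000600081a0d02))) 
(.lf (nat_lit 2754166825) (dlOf (nat_lit 1) (nat_lit 0x8004000600080c0d02)))) 
(.lf (nat_lit 2753118633) (dlOf (nat_lit 1) (nat_lit 0x8008000400200020008090783))))))) 
(.nd (nat_lit 8) (.nd (nat_lit 7) (.nd (nat_lit 22) (.nd (nat_lit 19) (.nd (nat_lit 9) 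
(.lf (nat_lit 469851241) (dlOf (nat_lit 6) (nat_lit 0x1604e800f023800180fc0002206005409d003b047000301f8000400c006013a0001f02004809d0008047000201f80003c0c009013a007008e001003f00006018099000807e80020092000800c083))) 
(.lf (nat_lit 3355525737) (dlOf (nat_lit 1) (nat_lit 0xa00180a1801)))) (.nd (nat_lit 26) 
(.lf (nat_lit 537477225) (dlOf (nat_lit 9) (nat_lit 0x6f02b80005c08087017402fc0ae0152052014d019800400200002a1401d00ba01cc05700e8029008000cc000261002740a40001102023c05d00ca02b802c0148003c0800284033000200400001430079817403c40ae01aa052008001980001020076017403cc0ae01f405200da01980000c20034815c0000204000800408ea00180a1402))) 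
(.lf (nat_lit 1409892457) (dlOf (nat_lit 1) (nat_lit 0x8004000400080a1402))))) (.nd (nat_lit 20) 
(.lf (nat_lit 12664937) (dlOf (nat_lit 2) (nat_lit 0xeb38a80081bac03bcd2c0001006003000186d1401))) 
(.nd (nat_lit 21) (.lf (nat_lit 47267945) (dlOf (nat_lit 1) (nat_lit 0x400293c0781))) 
(.lf (nat_lit 7422057) (dlOf (nat_lit 1) (nat_lit 0xa00284b0481)))))) (.nd (nat_lit 11) 
(.nd (nat_lit 20) (.lf (nat_lit 18956521) (dlOf (nat_lit 1) (nat_lit 0x400200020008970602))) 
(.lf (nat_lit 30490857) (dlOf (nat_lit 1) (nat_lit 0xb800200320008e30602)))) (.nd (nat_lit 10) 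
(.nd (nat_lit 26) 
(.lf (nat_lit 536955113) (dlOf (nat_lit 5) (nat_lit 0x520620000d81004f02e800380cc00180100001a06004c0660000c810010030000201740001608000800200020008004b02))) 
(.lf (nat_lit 4362160361) (dlOf (nat_lit 2) (nat_lit 0x48c0000001602079e0018004b01)))) 
(.lf (nat_lit 2885766377) (dlOf (nat_lit 2) (nat_lit 0x380000005a040174002001a0008006502)))))) 
(.nd (nat_lit 11) (.nd (nat_lit 9) (.nd (nat_lit 7) 
(.lf (nat_lit 7946601) (dlOf (nat_lit 2) (nat_lit 0x4afe00017818510f00))) (.nd (nat_lit 32) 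
(.lf (nat_lit 402735593) (dlOf (nat_lit 1) (nat_lit 0x20028091301))) 
(.lf (nat_lit 4697702889) (dlOf (nat_lit 1) (nat_lit 0x210004008e0008091302))))) (.nd (nat_lit 12) 
(.lf (nat_lit 1073824745) (dlOf (nat_lit 1) (nat_lit 0x3400200020008002882))) 
(.lf (nat_lit 1342264297) (dlOf (nat_lit 1) (nat_lit 0xc0018009201))))) (.nd (nat_lit 26) 
(.nd (nat_lit 27) 
(.lf (nat_lit 4563487209) (dlOf (nat_lit 1) (nat_lit 0x8008049c00200d40008094e83))) 
(.lf (nat_lit 1208044009) (dlOf (nat_lit 1) (nat_lit 0x400400020008094e82)))) (.nd (nat_lit 9) 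
(.nd (nat_lit 21) 
(.lf (nat_lit 335628777) (dlOf (nat_lit 1) (nat_lit 0x800801b8002006e0008094e83))) 
(.lf (nat_lit 6377523689) (dlOf (nat_lit 1) (nat_lit 0x4004000200080e4e82)))) 
(.lf (nat_lit 469851113) (dlOf (nat_lit 1) (nat_lit 0x4800800800020064000800bf03)))))))) 
(.nd (nat_lit 20) (.nd (nat_lit 28) (.nd (nat_lit 7) (.nd (nat_lit 21) (.nd (nat_lit 26) 
(.lf (nat_lit 3221569577) (dlOf (nat_lit 1) (nat_lit 0x20018140601))) (.nd (nat_lit 27) 
(.lf (nat_lit 4362420265) (dlOf (nat_lit 4) (nat_lit 0x1fc0470024016801400600098000000100801ee03300007010071019800034080228008017000200400008070803))) 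
(.lf (nat_lit 3959767081) (dlOf (nat_lit 1) (nat_lit 0x20018140601))))) (.nd (nat_lit 6) 
(.nd (nat_lit 9) (.lf (nat_lit 53297193) (dlOf (nat_lit 1) (nat_lit 0x11000200300009580a02))) 
(.lf (nat_lit 23413289) (dlOf (nat_lit 1) (nat_lit 0x160018b80e01)))) 
(.lf (nat_lit 19746921) (dlOf (nat_lit 1) (nat_lit 0x2c00189d7d81))))) (.nd (nat_lit 6) 
(.nd (nat_lit 22) (.lf (nat_lit 1208303785) (dlOf (nat_lit 1) (nat_lit 0x4004000200080c1482))) 
(.lf (nat_lit 21315753) (dlOf (nat_lit 1) (nat_lit 0x8008000400200020008a31483)))) (.nd (nat_lit 8) 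
(.nd (nat_lit 10) (.lf (nat_lit 19218665) (dlOf (nat_lit 1) (nat_lit 0x100028970601))) 
(.lf (nat_lit 537742569) (dlOf (nat_lit 4) (nat_lit 0x3080000005c0400100ae000405300220000000b41800281500004c040258002007800080f6502)))) 
(.lf (nat_lit 40190953) (dlOf (nat_lit 1) (nat_lit 0x600191f2881)))))) (.nd (nat_lit 27) 
(.nd (nat_lit 7) (.nd (nat_lit 29) 
(.lf (nat_lit 4563746857) (dlOf (nat_lit 2) (nat_lit 0x2033000070180d0280))) 
(.lf (nat_lit 1879392297) (dlOf (nat_lit 2) (nat_lit 0x2606100028818120c00)))) (.nd (nat_lit 6) 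
(.lf (nat_lit 3490007465) (dlOf (nat_lit 1) (nat_lit 0x400200020008004e82))) 
(.lf (nat_lit 4094511593) (dlOf (nat_lit 1) (nat_lit 0x8008029000200b60008054e83))))) 
(.nd (nat_lit 26) (.nd (nat_lit 29) (.nd (nat_lit 31) 
(.lf (nat_lit 4697964585) (dlOf (nat_lit 2) (nat_lit 0x2033000070180d0280))) 
(.lf (nat_lit 2550480937) (dlOf (nat_lit 1) (nat_lit 0x800180c0c01)))) 
(.lf (nat_lit 4161093673) (dlOf (nat_lit 2) (nat_lit 0x540520002b0200020028120681)))) 
(.nd (nat_lit 21) 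
(.lf (nat_lit 2617589801) (dlOf (nat_lit 24) (nat_lit 0x2e021021900f00878064008402a02240100150000000158300cc8078043c0000005504004e01e000288100e1010819a807800c80120004e0600d401e000260101340168062008406d803c025201b000700a8094004001000120004a0e000402d0002481005d01900e000a4013004203f801e024f00d811880240008a18024005201fc01b00f50048001101804800a4000c03c028001b012900480010c200cd8040000840406100200003c02019401e002900d802500400006e0c048005a002001b00a000c80d80060043002000a800702c0001813080000006420036405a040a01e00fc00c0057804000b400603be0000001886007500c00538000000600803000000002f0204ec018039a0000000b410180800000058040a64000000170200b002d00c000f005580680308030006e01000830028055800c0228000000131000a8000000090100ef00d0073005800000080c7000202f20008100682))) 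
(.lf (nat_lit 1009074217) (dlOf (nat_lit 1) (nat_lit 0x180029050a81))))))) (.nd (nat_lit 19) 
(.nd (nat_lit 9) (.nd (nat_lit 7) (.nd (nat_lit 10) 
(.lf (nat_lit 9781289) (dlOf (nat_lit 1) (nat_lit 0x2a0008580281))) 
(.lf (nat_lit 1345668137) (dlOf (nat_lit 1) (nat_lit 0x400400140008dd2882)))) 
(.lf (nat_lit 47531177) (dlOf (nat_lit 1) (nat_lit 0x800400040009402c02)))) (.nd (nat_lit 11) 
(.lf (nat_lit 58016297) (dlOf (nat_lit 8) (nat_lit 0xe5ed00092f6000090d8000ec0c0034bda000750200125ed0003881000f2f68001c00800497b4000c4040024bda0006102001a5ed00070d18000001000080080014002000400097a8903))) 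
(.nd (nat_lit 21) (.lf (nat_lit 1008028201) (dlOf (nat_lit 1) (nat_lit 0x400400020008985182))) 
(.lf (nat_lit 45435433) (dlOf (nat_lit 3) (nat_lit 0xa2cea0004501004f6750002200800200080020002002c0009325183)))))) 
(.nd (nat_lit 11) (.nd (nat_lit 7) (.nd (nat_lit 24) (.nd (nat_lit 26) 
(.lf (nat_lit 3491577897) (dlOf (nat_lit 1) (nat_lit 0x8002000c0008090002))) 
(.lf (nat_lit 69025833) (dlOf (nat_lit 1) (nat_lit 0x400400020008880202)))) 
(.lf (nat_lit 18694185) (dlOf (nat_lit 1) (nat_lit 0x60028960801)))) 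
(.lf (nat_lit 8208809) (dlOf (nat_lit 1) (nat_lit 0x800200020008511002)))) (.nd (nat_lit 7) 
(.nd (nat_lit 21) (.lf (nat_lit 1880967721) (dlOf (nat_lit 1) (nat_lit 0x20008d75181))) 
(.lf (nat_lit 33376809) (dlOf (nat_lit 1) (nat_lit 0x400400020008f55182)))) 
(.lf (nat_lit 8214953) (dlOf (nat_lit 1) (nat_lit 0x2001851af81)))))))))) (.nd (nat_lit 5) 
(.nd (nat_lit 3) (.nd (nat_lit 6) (.nd (nat_lit 18) (.nd (nat_lit 27) (.nd (nat_lit 22) 
(.nd (nat_lit 28) (.nd (nat_lit 20) (.nd (nat_lit 9) (.nd (nat_lit 7) 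
(.lf (nat_lit 25378817) (dlOf (nat_lit 1) (nat_lit 0x30008000c00200040008c00003))) 
(.lf (nat_lit 2310273) (dlOf (nat_lit 1) (nat_lit 0x400200020008150102)))) (.nd (nat_lit 19) 
(.lf (nat_lit 3288547841) (dlOf (nat_lit 1) (nat_lit 0x480008090d81))) 
(.lf (nat_lit 737793) (dlOf (nat_lit 1) (nat_lit 0x40028017f01))))) (.nd (nat_lit 21) 
(.nd (nat_lit 9) (.lf (nat_lit 18038785) (dlOf (nat_lit 1) (nat_lit 0x400400020008900002))) 
(.lf (nat_lit 9650689) (dlOf (nat_lit 1) (nat_lit 0x318008023400200b40008577f03)))) 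
(.nd (nat_lit 7) (.lf (nat_lit 3883009) (dlOf (nat_lit 1) (nat_lit 0x20028240001))) 
(.lf (nat_lit 11747457) (dlOf (nat_lit 1) (nat_lit 0x400200b800086c0102)))))) (.nd (nat_lit 29) 
(.nd (nat_lit 9) (.nd (nat_lit 26) 
(.lf (nat_lit 2416132097) (dlOf (nat_lit 1) (nat_lit 0x1c0018090001))) 
(.lf (nat_lit 5704466433) (dlOf (nat_lit 3) (nat_lit 0x200a00c32810001005006190080088008003c002000800080a0003)))) 
(.lf (nat_lit 2483241473) (dlOf (nat_lit 1) (nat_lit 0x20028090d81)))) (.nd (nat_lit 7) 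
(.nd (nat_lit 9) (.nd (nat_lit 30) 
(.lf (nat_lit 2953003009) (dlOf (nat_lit 1) (nat_lit 0x3c0008080001))) 
(.lf (nat_lit 6174228481) (dlOf (nat_lit 1) (nat_lit 0x200280a0001)))) 
(.lf (nat_lit 4026745345) (dlOf (nat_lit 1) (nat_lit 0x480008090d81)))) 
(.lf (nat_lit 4026745217) (dlOf (nat_lit 1) (nat_lit 0x1100080010002000a0008090783)))))) 
(.nd (nat_lit 7) (.nd (nat_lit 19) (.nd (nat_lit 20) 
(.lf (nat_lit 12795905) (dlOf (nat_lit 1) (nat_lit 0x4004000400086e0002))) 
(.lf (nat_lit 32718849) (dlOf (nat_lit 1) (nat_lit 0x8008000400200020008f00003)))) (.nd (nat_lit 8) 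
(.lf (nat_lit 21708801) (dlOf (nat_lit 1) (nat_lit 0x800080024002003a0008a60003))) 
(.lf (nat_lit 46874881) (dlOf (nat_lit 3) (nat_lit 0x41cf8002ca040020e7c001640200360029380a81))))) 
(.nd (nat_lit 8) (.nd (nat_lit 19) 
(.lf (nat_lit 23281793) (dlOf (nat_lit 1) (nat_lit 0x8008003000200180008b80103))) 
(.lf (nat_lit 23806081) (dlOf (nat_lit 1) (nat_lit 0x400200020008b80102)))) 
(.lf (nat_lit 39012737) (dlOf (nat_lit 1) (nat_lit 0x18008000400200020009194e83)))))) 
(.nd (nat_lit 26) (.nd (nat_lit 30) (.nd (nat_lit 19) (.nd (nat_lit 29) 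
(.lf (nat_lit 2550349825) (dlOf (nat_lit 1) (nat_lit 0x1c0018090001))) 
(.lf (nat_lit 939737089) (dlOf (nat_lit 2) (nat_lit 0xa00e00199c080040008006000200220008160003)))) 
(.lf (nat_lit 2819309569) (dlOf (nat_lit 1) (nat_lit 0x640018230001)))) (.nd (nat_lit 7) 
(.nd (nat_lit 29) 
(.lf (nat_lit 1476608001) (dlOf (nat_lit 2) (nat_lit 0x680d801726040004004000200080a0002))) 
(.lf (nat_lit 6308446209) (dlOf (nat_lit 3) (nat_lit 0x200a00dd9010001005006ec4080088008003c002000800080a0003)))) 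
(.lf (nat_lit 1745046145) (dlOf (nat_lit 1) (nat_lit 0x400200020008095482))))) (.nd (nat_lit 9) 
(.nd (nat_lit 19) (.nd (nat_lit 29) 
(.lf (nat_lit 5570248705) (dlOf (nat_lit 1) (nat_lit 0x200280a0001))) 
(.lf (nat_lit 1812152321) (dlOf (nat_lit 2) (nat_lit 0xa00e002ff0080040008006000200220008160003)))) 
(.lf (nat_lit 3154853889) (dlOf (nat_lit 2) (nat_lit 0x18000004aa04002000400040008350002)))) 
(.nd (nat_lit 7) (.nd (nat_lit 19) 
(.lf (nat_lit 2349023745) (dlOf (nat_lit 1) (nat_lit 0x20028090d81))) 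
(.lf (nat_lit 738935297) (dlOf (nat_lit 1) (nat_lit 0x400400020008157b02)))) 
(.lf (nat_lit 738413185) (dlOf (nat_lit 1) (nat_lit 0x400200020008095482))))))) (.nd (nat_lit 30) 
(.nd (nat_lit 7) (.nd (nat_lit 20) (.nd (nat_lit 8) (.nd (nat_lit 27) 
(.lf (nat_lit 6510034945) (dlOf (nat_lit 1) (nat_lit 0x40018190001))) 
(.lf (nat_lit 738672641) (dlOf (nat_lit 1) (nat_lit 0x210008013400200ce00080d0003)))) 
(.lf (nat_lit 50809601) (dlOf (nat_lit 1) (nat_lit 0x90002003200094c5a82)))) (.nd (nat_lit 9) 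
(.nd (nat_lit 19) (.lf (nat_lit 9912321) (dlOf (nat_lit 2) (nat_lit 0x83cf00e8f818590000))) 
(.lf (nat_lit 14630913) (dlOf (nat_lit 2) (nat_lit 0x199c2003858080100008002c002000e0008770003)))) 
(.lf (nat_lit 58147329) (dlOf (nat_lit 5) (nat_lit 0xb0940003849000b0020003c2500016124001c6080023084001784000038820008c210005e100000ca080090004009000197c7b02))))) 
(.nd (nat_lit 20) (.nd (nat_lit 21) 
(.lf (nat_lit 537346177) (dlOf (nat_lit 1) (nat_lit 0x400400020018090102))) 
(.lf (nat_lit 23543937) (dlOf (nat_lit 1) (nat_lit 0x800200020008b80102)))) (.nd (nat_lit 8) 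
(.nd (nat_lit 9) (.lf (nat_lit 2048129) (dlOf (nat_lit 1) (nat_lit 0x8008000400200020008150103))) 
(.lf (nat_lit 43468417) (dlOf (nat_lit 1) (nat_lit 0x8a00192a3981)))) 
(.lf (nat_lit 473385345) (dlOf (nat_lit 1) (nat_lit 0x2e0008f54e81)))))) (.nd (nat_lit 29) 
(.nd (nat_lit 7) (.nd (nat_lit 9) (.nd (nat_lit 10) 
(.lf (nat_lit 1343176705) (dlOf (nat_lit 1) (nat_lit 0x40008190001))) 
(.lf (nat_lit 1344750593) (dlOf (nat_lit 1) (nat_lit 0x20018982881)))) 
(.lf (nat_lit 1345274369) (dlOf (nat_lit 1) (nat_lit 0x300008000800200260008b37b03)))) 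
(.nd (nat_lit 26) 
(.lf (nat_lit 3221700737) (dlOf (nat_lit 2) (nat_lit 0xf00000000004003800200180008170102))) 
(.lf (nat_lit 1409761409) (dlOf (nat_lit 1) (nat_lit 0x400400020018090102))))) (.nd (nat_lit 26) 
(.nd (nat_lit 32) 
(.lf (nat_lit 1611087873) (dlOf (nat_lit 1) (nat_lit 0x210008013400200ce00080d0003))) 
(.lf (nat_lit 5906055169) (dlOf (nat_lit 1) (nat_lit 0x40018190001)))) (.nd (nat_lit 7) 
(.nd (nat_lit 8) 
(.lf (nat_lit 6376341505) (dlOf (nat_lit 1) (nat_lit 0x8008000800200020008090003))) 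
(.lf (nat_lit 6377917185) (dlOf (nat_lit 1) (nat_lit 0x80080020002000200080e5a83)))) 
(.lf (nat_lit 3959898241) (dlOf (nat_lit 2) (nat_lit 0xf00000000004003800200180008170102)))))))) 
(.nd (nat_lit 18) (.nd (nat_lit 29) (.nd (nat_lit 8) (.nd (nat_lit 19) (.nd (nat_lit 30) 
(.nd (nat_lit 23) 
(.lf (nat_lit 4429398081) (dlOf (nat_lit 1) (nat_lit 0x280080044002000600080a0d03))) 
(.lf (nat_lit 25378881) (dlOf (nat_lit 4) (nat_lit 0x6561a00039020038b0d0001c01001b5868000dc0800e8008001c00200100008c00e83)))) 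
(.nd (nat_lit 20) 
(.lf (nat_lit 1073954881) (dlOf (nat_lit 1) (nat_lit 0x280080064002003e0008030e03))) 
(.lf (nat_lit 3490922561) (dlOf (nat_lit 4) (nat_lit 0xa0f5800207480000e0800083d6000060200341eb00150e9000000100008008002400200160008030e03))))) 
(.nd (nat_lit 10) (.nd (nat_lit 20) 
(.lf (nat_lit 472596545) (dlOf (nat_lit 3) (nat_lit 0x13a09c009d04680470230004920c04082c001f609c00bd0468007c01800b800800d8002000400089c0603))) 
(.lf (nat_lit 45826113) (dlOf (nat_lit 2) (nat_lit 0x9b5080008a7f0017523c00605fa000622c0011e059360600)))) 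
(.lf (nat_lit 202067009) (dlOf (nat_lit 1) (nat_lit 0x200180f6081))))) (.nd (nat_lit 7) 
(.nd (nat_lit 20) (.lf (nat_lit 3494068545) (dlOf (nat_lit 1) (nat_lit 0x4002000200081b0602))) 
(.nd (nat_lit 21) (.lf (nat_lit 9650497) (dlOf (nat_lit 1) (nat_lit 0x80080020002000e0008574c03))) 
(.lf (nat_lit 11747649) (dlOf (nat_lit 1) (nat_lit 0x200186c0601))))) (.nd (nat_lit 28) 
(.nd (nat_lit 20) (.lf (nat_lit 1141066689) (dlOf (nat_lit 1) (nat_lit 0x400400020008095d82))) 
(.lf (nat_lit 20138945) (dlOf (nat_lit 1) (nat_lit 0x4002000200089d5d82)))) (.nd (nat_lit 27) 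
(.lf (nat_lit 268651457) (dlOf (nat_lit 2) (nat_lit 0x30140000600800880080130002001800080e5d83))) 
(.lf (nat_lit 5771578305) (dlOf (nat_lit 1) (nat_lit 0x94002042a0008005d82))))))) (.nd (nat_lit 7) 
(.nd (nat_lit 8) (.nd (nat_lit 9) (.nd (nat_lit 20) 
(.lf (nat_lit 1946370113) (dlOf (nat_lit 1) (nat_lit 0x280080064002003e0008030e03))) 
(.lf (nat_lit 2752725057) (dlOf (nat_lit 4) (nat_lit 0xa0fe8002079c0000e0800083fa000060200341fd00150f3800000100008008002400200160008030e03)))) 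
(.lf (nat_lit 2753774145) (dlOf (nat_lit 3) (nat_lit 0x101d8000088100030ec000107100000008014400200060008091082)))) 
(.nd (nat_lit 9) 
(.lf (nat_lit 2818790721) (dlOf (nat_lit 1) (nat_lit 0x10008000c002000c0008129903))) 
(.lf (nat_lit 5905794881) (dlOf (nat_lit 1) (nat_lit 0x400400020008143e02))))) (.nd (nat_lit 9) 
(.nd (nat_lit 19) (.nd (nat_lit 10) 
(.lf (nat_lit 2753774017) (dlOf (nat_lit 1) (nat_lit 0x20008002000200060008090903))) 
(.lf (nat_lit 2818790849) (dlOf (nat_lit 1) (nat_lit 0x800400060018129a02)))) (.nd (nat_lit 26) 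
(.lf (nat_lit 1611350465) (dlOf (nat_lit 2) (nat_lit 0x80d0005510200020018137a81))) 
(.lf (nat_lit 738935233) (dlOf (nat_lit 1) (nat_lit 0x900028157001))))) (.nd (nat_lit 10) 
(.lf (nat_lit 4094905281) (dlOf (nat_lit 1) (nat_lit 0x20028055d81))) 
(.lf (nat_lit 2751678401) (dlOf (nat_lit 1) (nat_lit 0x400200020008004402))))))) (.nd (nat_lit 19) 
(.nd (nat_lit 21) (.nd (nat_lit 26) (.nd (nat_lit 29) (.nd (nat_lit 20) (.nd (nat_lit 22) 
(.lf (nat_lit 6442926145) (dlOf (nat_lit 1) (nat_lit 0x80080028002000a0008230e83))) 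
(.lf (nat_lit 21446721) (dlOf (nat_lit 2) (nat_lit 0x5bb400033d9e0003ea40011750c000fc10000400200040008a40482)))) 
(.lf (nat_lit 35078209) (dlOf (nat_lit 1) (nat_lit 0x20018fd0601)))) (.nd (nat_lit 8) 
(.lf (nat_lit 1611087937) (dlOf (nat_lit 2) (nat_lit 0x8005400100090004e8280d0480))) 
(.lf (nat_lit 805781825) (dlOf (nat_lit 1) (nat_lit 0x200181a0601))))) (.nd (nat_lit 27) 
(.nd (nat_lit 8) (.lf (nat_lit 3557244993) (dlOf (nat_lit 1) (nat_lit 0xc0028170501))) 
(.lf (nat_lit 1678197057) (dlOf (nat_lit 1) (nat_lit 0x200181a0601)))) (.nd (nat_lit 28) 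
(.lf (nat_lit 738672705) (dlOf (nat_lit 2) (nat_lit 0x98015000a00240013a080024004014600080d0482))) 
(.lf (nat_lit 5838946369) (dlOf (nat_lit 1) (nat_lit 0x80080028002000a0008230e83)))))) 
(.nd (nat_lit 20) (.nd (nat_lit 22) 
(.lf (nat_lit 2572353) (dlOf (nat_lit 2) (nat_lit 0x180000000d0200420008170c81))) 
(.lf (nat_lit 48709697) (dlOf (nat_lit 1) (nat_lit 0x10008000c00200040009420603)))) 
(.nd (nat_lit 7) (.lf (nat_lit 37175361) (dlOf (nat_lit 1) (nat_lit 0x200090b0601))) 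
(.lf (nat_lit 32982209) (dlOf (nat_lit 1) (nat_lit 0x8008000400200020008f52d03)))))) 
(.nd (nat_lit 20) (.nd (nat_lit 9) (.nd (nat_lit 8) (.nd (nat_lit 22) 
(.lf (nat_lit 1343176769) (dlOf (nat_lit 2) (nat_lit 0x720000000000800d8008001000200440008190503))) 
(.lf (nat_lit 21971009) (dlOf (nat_lit 4) (nat_lit 0x161c00000e04003722c000387000003020012c8b0009e1c00000008006400400300008a80e02)))) 
(.nd (nat_lit 7) 
(.lf (nat_lit 6376341825) (dlOf (nat_lit 10) (nat_lit 0x30c2640176123000168200330990019848c000580802bc2640176123000158200bf099005c048c000540802cc2640176123000148200c5099005d048c0000c0800102460000402014e13200bf0918000081006304c802f02460000004009c0018090c01))) 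
(.lf (nat_lit 1345274305) (dlOf (nat_lit 2) (nat_lit 0x40b28000000800e80080038002005e0008b37003))))) 
(.nd (nat_lit 7) (.nd (nat_lit 11) 
(.lf (nat_lit 2752463425) (dlOf (nat_lit 3) (nat_lit 0x143f00002302000a1f800011018018c00))) 
(.lf (nat_lit 36653633) (dlOf (nat_lit 1) (nat_lit 0x400200040009075202)))) 
(.lf (nat_lit 6376344257) (dlOf (nat_lit 1) (nat_lit 0x20008095781))))) (.nd (nat_lit 30) 
(.nd (nat_lit 8) (.nd (nat_lit 21) 
(.lf (nat_lit 14630977) (dlOf (nat_lit 1) (nat_lit 0x400400040008770502))) 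
(.lf (nat_lit 473907265) (dlOf (nat_lit 1) (nat_lit 0x800400060008fc0602)))) 
(.lf (nat_lit 2048321) (dlOf (nat_lit 2) (nat_lit 0x2d9dc000330200080028150601)))) (.nd (nat_lit 7) 
(.nd (nat_lit 11) 
(.lf (nat_lit 3491709505) (dlOf (nat_lit 3) (nat_lit 0x121c60000901000a0e3000000080108008018c002002c0008091083))) 
(.lf (nat_lit 1346325057) (dlOf (nat_lit 1) (nat_lit 0x20028f05201)))) 
(.lf (nat_lit 3491709377) (dlOf (nat_lit 1) (nat_lit 0x8008000c00200060008090903))))))))) 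
(.nd (nat_lit 28) (.nd (nat_lit 18) (.nd (nat_lit 7) (.nd (nat_lit 29) (.nd (nat_lit 19) 
(.nd (nat_lit 6) (.nd (nat_lit 9) (.nd (nat_lit 21) (.nd (nat_lit 26) 
(.lf (nat_lit 1073954825) (dlOf (nat_lit 3) (nat_lit 0x100290004e0100050148002340800200080004002001c0008030483))) 
(.lf (nat_lit 4362289161) (dlOf (nat_lit 1) (nat_lit 0x400400020008020482)))) 
(.lf (nat_lit 44253193) (dlOf (nat_lit 1) (nat_lit 0x80080004002000200092e0003)))) 
(.lf (nat_lit 1262089) (dlOf (nat_lit 1) (nat_lit 0x200180a7b01)))) (.nd (nat_lit 26) 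
(.lf (nat_lit 134430793) (dlOf (nat_lit 7) (nat_lit 0x3b603100c20088000d01000300c4000660407300620146011000188200770188000c0080e800c4012c05801f4011000130301bc018805180440004408007800200180008020882))) 
(.lf (nat_lit 201539657) (dlOf (nat_lit 7) (nat_lit 0x3b603100c20088000d01000300c4000660407300620146011000188200770188000c0080e800c4012c05801f4011000130301bc018805180440004408007800200180008020882))))) 
(.nd (nat_lit 9) (.nd (nat_lit 21) 
(.lf (nat_lit 21708809) (dlOf (nat_lit 1) (nat_lit 0xa0008a60a01))) 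
(.lf (nat_lit 11223049) (dlOf (nat_lit 2) (nat_lit 0x656100382818670000)))) 
(.lf (nat_lit 57362953) (dlOf (nat_lit 1) (nat_lit 0x40029795001))))) (.nd (nat_lit 26) 
(.nd (nat_lit 6) (.nd (nat_lit 8) (.nd (nat_lit 27) 
(.lf (nat_lit 537608201) (dlOf (nat_lit 3) (nat_lit 0xc02d0003a8100060168001cc0800200080008002000800080d0483))) 
(.lf (nat_lit 2819309577) (dlOf (nat_lit 2) (nat_lit 0x5037802c380800f0008000400200200008230283)))) 
(.lf (nat_lit 5905794825) (dlOf (nat_lit 1) (nat_lit 0x400400020008143b82)))) 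
(.lf (nat_lit 537608265) (dlOf (nat_lit 1) (nat_lit 0x1800180d0c81)))) (.nd (nat_lit 31) 
(.nd (nat_lit 6) (.lf (nat_lit 604192777) (dlOf (nat_lit 1) (nat_lit 0xc0028080481))) 
(.lf (nat_lit 1812152393) (dlOf (nat_lit 5) (nat_lit 0x2980000002e0400040000001602000800800540000000501000880000001e0400c0002005c0008160882)))) 
(.nd (nat_lit 20) (.lf (nat_lit 2753773577) (dlOf (nat_lit 1) (nat_lit 0x20018090001))) 
(.lf (nat_lit 2752725001) (dlOf (nat_lit 5) (nat_lit 0xa0ff8002700800a87fc0012c0400283fe0008d0200161ff00042818030480))))))) 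
(.nd (nat_lit 6) (.nd (nat_lit 21) (.nd (nat_lit 9) (.nd (nat_lit 20) 
(.lf (nat_lit 2147696777) (dlOf (nat_lit 2) (nat_lit 0xc00a000000080030008000c002000600080c0f03))) 
(.lf (nat_lit 22233225) (dlOf (nat_lit 1) (nat_lit 0x20028ab3d01)))) 
(.lf (nat_lit 6509776521) (dlOf (nat_lit 1) (nat_lit 0xe0028147181)))) (.nd (nat_lit 19) 
(.lf (nat_lit 2310281) (dlOf (nat_lit 1) (nat_lit 0x40008150101))) 
(.lf (nat_lit 23806089) (dlOf (nat_lit 1) (nat_lit 0x10008008800200600008b80103))))) 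
(.nd (nat_lit 8) (.nd (nat_lit 10) (.nd (nat_lit 20) 
(.lf (nat_lit 25903305) (dlOf (nat_lit 1) (nat_lit 0x8008000400200020008c10483))) 
(.lf (nat_lit 14368969) (dlOf (nat_lit 1) (nat_lit 0x80028750481)))) 
(.lf (nat_lit 61555913) (dlOf (nat_lit 1) (nat_lit 0x20029922d81)))) (.nd (nat_lit 10) 
(.nd (nat_lit 11) (.lf (nat_lit 2753774025) (dlOf (nat_lit 1) (nat_lit 0x24004000e0008090982))) 
(.lf (nat_lit 3221440969) (dlOf (nat_lit 1) (nat_lit 0x800400860018114e82)))) 
(.lf (nat_lit 2818790857) (dlOf (nat_lit 1) (nat_lit 0x20008129a81))))))) (.nd (nat_lit 6) 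
(.nd (nat_lit 20) (.nd (nat_lit 29) (.nd (nat_lit 9) (.nd (nat_lit 7) 
(.lf (nat_lit 999433) (dlOf (nat_lit 1) (nat_lit 0xa8008001400200060008050583))) 
(.lf (nat_lit 477321) (dlOf (nat_lit 1) (nat_lit 0x800400020008004802)))) (.nd (nat_lit 8) 
(.lf (nat_lit 50809353) (dlOf (nat_lit 1) (nat_lit 0xa00094c5001))) 
(.lf (nat_lit 19880713) (dlOf (nat_lit 1) (nat_lit 0x28004001c00089db982))))) (.nd (nat_lit 26) 
(.nd (nat_lit 31) (.lf (nat_lit 1611087881) (dlOf (nat_lit 1) (nat_lit 0x2600180d0001))) 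
(.lf (nat_lit 3758571529) (dlOf (nat_lit 1) (nat_lit 0x30004000200182b0282)))) (.nd (nat_lit 7) 
(.lf (nat_lit 738672649) (dlOf (nat_lit 1) (nat_lit 0x2600180d0001))) 
(.lf (nat_lit 604456073) (dlOf (nat_lit 1) (nat_lit 0x200182d2b01)))))) (.nd (nat_lit 19) 
(.nd (nat_lit 9) (.nd (nat_lit 25) 
(.lf (nat_lit 3620873) (dlOf (nat_lit 1) (nat_lit 0xc00200080008210402))) 
(.lf (nat_lit 37175305) (dlOf (nat_lit 1) (nat_lit 0x200090b0001)))) 
(.lf (nat_lit 58147337) (dlOf (nat_lit 1) (nat_lit 0x3000800c4002000600097c7b03)))) 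
(.nd (nat_lit 7) (.nd (nat_lit 22) 
(.lf (nat_lit 2755608585) (dlOf (nat_lit 1) (nat_lit 0xc004000200081b0002))) 
(.lf (nat_lit 25116681) (dlOf (nat_lit 1) (nat_lit 0x400200020008be0802)))) 
(.lf (nat_lit 2048137) (dlOf (nat_lit 1) (nat_lit 0x80080010002000a0008150103)))))) 
(.nd (nat_lit 19) (.nd (nat_lit 20) (.nd (nat_lit 22) (.nd (nat_lit 26) 
(.lf (nat_lit 1611087945) (dlOf (nat_lit 4) (nat_lit 0x1020320002301008d0190001140801e80a80007004021400201aa00080d0502))) 
(.lf (nat_lit 738672713) (dlOf (nat_lit 4) (nat_lit 0x1020320002481008d0190001200801e80a80007404021400201aa00080d0502)))) 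
(.lf (nat_lit 21446729) (dlOf (nat_lit 1) (nat_lit 0x178008011c00200620008a40503)))) 
(.nd (nat_lit 7) (.lf (nat_lit 35078217) (dlOf (nat_lit 1) (nat_lit 0x180018fd0601))) 
(.lf (nat_lit 43467977) (dlOf (nat_lit 1) (nat_lit 0x200292a2d81))))) (.nd (nat_lit 7) 
(.nd (nat_lit 8) (.lf (nat_lit 21971017) (dlOf (nat_lit 1) (nat_lit 0x1400400080018a80f02))) 
(.lf (nat_lit 54479689) (dlOf (nat_lit 1) (nat_lit 0x20029655c01)))) (.nd (nat_lit 8) 
(.lf (nat_lit 19878601) (dlOf (nat_lit 1) (nat_lit 0x4002000200089d8c82))) (.nd (nat_lit 20) 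
(.lf (nat_lit 32459209) (dlOf (nat_lit 1) (nat_lit 0x10002001c0008ef4e82))) 
(.lf (nat_lit 37702089) (dlOf (nat_lit 1) (nat_lit 0x80080004002000200090d4e83))))))))) 
(.nd (nat_lit 26) (.nd (nat_lit 7) (.nd (nat_lit 6) (.nd (nat_lit 31) (.nd (nat_lit 9) 
(.nd (nat_lit 19) 
(.lf (nat_lit 1476608009) (dlOf (nat_lit 4) (nat_lit 0xa0017000f001001f00b811d8044002c01e00fc00e000eb04017f00880074c080020008003c00200dc00080a0483))) 
(.lf (nat_lit 1343963145) (dlOf (nat_lit 1) (nat_lit 0x20028380481)))) (.nd (nat_lit 8) 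
(.lf (nat_lit 1476872713) (dlOf (nat_lit 1) (nat_lit 0x200182d5001))) 
(.lf (nat_lit 268651273) (dlOf (nat_lit 2) (nat_lit 0x80140000180800100080014002001000080e5b03))))) 
(.nd (nat_lit 10) (.nd (nat_lit 20) 
(.lf (nat_lit 2953003017) (dlOf (nat_lit 3) (nat_lit 0x5601c000868100bd00e0000000800680080194002017c0008080483))) 
(.lf (nat_lit 3490922505) (dlOf (nat_lit 5) (nat_lit 0xa0f68002700800a87b40012c0400283da0008d0200161ed00042818030480)))) 
(.lf (nat_lit 3492758537) (dlOf (nat_lit 1) (nat_lit 0x4002000200080f2882))))) (.nd (nat_lit 27) 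
(.nd (nat_lit 18) 
(.lf (nat_lit 1342390345) (dlOf (nat_lit 7) (nat_lit 0x32824900f10f800c3871c039437a0003908030224900e20f800bc871c034037a000360802c024901540e38000d4100c88924003447e02601f001840e3809506f40004c14061049201b81f0017d0e3806906f4000441001844920002102001c0018020881))) 
(.lf (nat_lit 1343176777) (dlOf (nat_lit 2) (nat_lit 0x83d800061e700000028190680)))) 
(.nd (nat_lit 9) 
(.lf (nat_lit 939737161) (dlOf (nat_lit 5) (nat_lit 0x2980000002e0400040000001602000800800540000000501000880000001e0400c0002005c0008160882))) 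
(.lf (nat_lit 3087221321) (dlOf (nat_lit 1) (nat_lit 0x80018158d01)))))) (.nd (nat_lit 6) 
(.nd (nat_lit 8) (.nd (nat_lit 9) 
(.lf (nat_lit 3624094857) (dlOf (nat_lit 1) (nat_lit 0x400400020008146182))) (.nd (nat_lit 12) 
(.lf (nat_lit 5637359241) (dlOf (nat_lit 1) (nat_lit 0x4004000200180d3a02))) 
(.lf (nat_lit 4160968329) (dlOf (nat_lit 2) (nat_lit 0xe0158000900800280080198002002200080a9e03))))) 
(.nd (nat_lit 10) 
(.lf (nat_lit 4026745225) (dlOf (nat_lit 1) (nat_lit 0x50008002c00200160008090783))) 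
(.lf (nat_lit 5637358985) (dlOf (nat_lit 2) (nat_lit 0x80940048e040004002000400080d3602))))) 
(.nd (nat_lit 8) (.nd (nat_lit 10) 
(.lf (nat_lit 1879261385) (dlOf (nat_lit 2) (nat_lit 0x405500020278007cc1000080080024002000800080c0483))) 
(.lf (nat_lit 6711100617) (dlOf (nat_lit 1) (nat_lit 0x400400020008092d82)))) (.nd (nat_lit 9) 
(.lf (nat_lit 3491709385) (dlOf (nat_lit 2) (nat_lit 0xd082c0000004001400400300018090982))) 
(.lf (nat_lit 1476871113) (dlOf (nat_lit 1) (nat_lit 0x1c00282d2881))))))) (.nd (nat_lit 27) 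
(.nd (nat_lit 29) (.nd (nat_lit 6) (.nd (nat_lit 7) 
(.lf (nat_lit 1410023433) (dlOf (nat_lit 3) (nat_lit 0xc02d0003a8100060168001cc0800200080008002000800080d0483))) 
(.lf (nat_lit 3556988809) (dlOf (nat_lit 1) (nat_lit 0x2001812a301)))) (.nd (nat_lit 7) 
(.lf (nat_lit 1410023497) (dlOf (nat_lit 1) (nat_lit 0x1800180d0c81))) 
(.lf (nat_lit 4630727625) (dlOf (nat_lit 1) (nat_lit 0x400400020008095d82))))) (.nd (nat_lit 11) 
(.nd (nat_lit 18) 
(.lf (nat_lit 1946370057) (dlOf (nat_lit 3) (nat_lit 0x100290004e0100050148002340800200080004002001c0008030483))) 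
(.lf (nat_lit 3020374025) (dlOf (nat_lit 1) (nat_lit 0x30004000200182b0282)))) (.nd (nat_lit 6) 
(.lf (nat_lit 1946634377) (dlOf (nat_lit 1) (nat_lit 0x400180f4801))) 
(.lf (nat_lit 4094905161) (dlOf (nat_lit 1) (nat_lit 0x1000400040008055c02)))))) (.nd (nat_lit 6) 
(.nd (nat_lit 30) (.nd (nat_lit 8) 
(.lf (nat_lit 470761481) (dlOf (nat_lit 1) (nat_lit 0x60028170001))) 
(.lf (nat_lit 473122057) (dlOf (nat_lit 1) (nat_lit 0x1800400020008d12f82)))) (.nd (nat_lit 29) 
(.lf (nat_lit 3691200521) (dlOf (nat_lit 2) (nat_lit 0x20016001000a8003ac0800dc002005e00080a0482))) 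
(.lf (nat_lit 4228071433) (dlOf (nat_lit 1) (nat_lit 0x400400020008020482))))) (.nd (nat_lit 29) 
(.nd (nat_lit 18) 
(.lf (nat_lit 469975113) (dlOf (nat_lit 7) (nat_lit 0x32824900f10f800c3871c039437a0003908030224900e20f800bc871c034037a000360802c024901540e38000d4100c88924003447e02601f001840e3809506f40004c14061049201b81f0017d0e3806906f4000441001844920002102001c0018020881))) 
(.lf (nat_lit 470761545) (dlOf (nat_lit 1) (nat_lit 0x20018170681)))) (.nd (nat_lit 7) 
(.lf (nat_lit 1007894601) (dlOf (nat_lit 1) (nat_lit 0x20018840601))) 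
(.lf (nat_lit 1006846153) (dlOf (nat_lit 2) (nat_lit 0x405500020278007c81000080080024002000800080c0483)))))))))) 
(.nd (nat_lit 18) (.nd (nat_lit 3) (.nd (nat_lit 28) (.nd (nat_lit 6) (.nd (nat_lit 19) 
(.nd (nat_lit 27) (.nd (nat_lit 23) (.nd (nat_lit 24) (.nd (nat_lit 26) (.nd (nat_lit 9) 
(.nd (nat_lit 30) 
(.lf (nat_lit 4295180321) (dlOf (nat_lit 1) (nat_lit 0x80080004002000200080a0903))) 
(.lf (nat_lit 1073954849) (dlOf (nat_lit 1) (nat_lit 0x1c00200160008030982)))) 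
(.lf (nat_lit 216609) (dlOf (nat_lit 1) (nat_lit 0x3400200080008007182)))) (.nd (nat_lit 30) 
(.lf (nat_lit 4362289185) (dlOf (nat_lit 1) (nat_lit 0x400400020008020482))) 
(.lf (nat_lit 3288547361) (dlOf (nat_lit 1) (nat_lit 0x80080028002002c0008090003))))) 
(.nd (nat_lit 20) 
(.lf (nat_lit 52641825) (dlOf (nat_lit 1) (nat_lit 0x1380080014002002e0009560683))) 
(.lf (nat_lit 18038817) (dlOf (nat_lit 1) (nat_lit 0x20018900a81))))) (.nd (nat_lit 9) 
(.nd (nat_lit 20) 
(.lf (nat_lit 14893089) (dlOf (nat_lit 2) (nat_lit 0x626280006c080020008000800200060008790183))) 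
(.lf (nat_lit 26427425) (dlOf (nat_lit 1) (nat_lit 0x980028c40601)))) 
(.lf (nat_lit 8607265) (dlOf (nat_lit 1) (nat_lit 0x400400020008519c02))))) (.nd (nat_lit 31) 
(.nd (nat_lit 32) 
(.lf (nat_lit 134430753) (dlOf (nat_lit 1) (nat_lit 0x70008004400200100008020483))) 
(.lf (nat_lit 4429398049) (dlOf (nat_lit 1) (nat_lit 0x80080004002000200080a0903)))) 
(.nd (nat_lit 8) 
(.lf (nat_lit 2349023265) (dlOf (nat_lit 1) (nat_lit 0x70008006c002003a0008090003))) 
(.lf (nat_lit 3355656481) (dlOf (nat_lit 1) (nat_lit 0x200180b5101)))))) (.nd (nat_lit 10) 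
(.nd (nat_lit 21) (.nd (nat_lit 22) 
(.lf (nat_lit 2819309601) (dlOf (nat_lit 1) (nat_lit 0x1400400060018230702))) 
(.lf (nat_lit 21708833) (dlOf (nat_lit 8) (nat_lit 0x32f7520195b280001882000c6f200005c0804c6f1c0000e04007b78e00006020117bc70000281002ade380000808001f5e802f778e0191bc600c5d9300236c94000001401c800400100008a60b02)))) 
(.nd (nat_lit 20) (.lf (nat_lit 28000289) (dlOf (nat_lit 1) (nat_lit 0x40018d50601))) 
(.lf (nat_lit 29048865) (dlOf (nat_lit 1) (nat_lit 0x58008001400200460008db0c83))))) 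
(.nd (nat_lit 7) (.nd (nat_lit 9) 
(.lf (nat_lit 58410017) (dlOf (nat_lit 1) (nat_lit 0x3e00297e2881))) 
(.lf (nat_lit 4362817057) (dlOf (nat_lit 1) (nat_lit 0x40028117181)))) 
(.lf (nat_lit 202067105) (dlOf (nat_lit 1) (nat_lit 0x1400080f6281)))))) (.nd (nat_lit 7) 
(.nd (nat_lit 8) (.nd (nat_lit 10) 
(.lf (nat_lit 5980257) (dlOf (nat_lit 1) (nat_lit 0x20028420481))) 
(.lf (nat_lit 2818792545) (dlOf (nat_lit 13) (nat_lit 0x200d8000ba04002c06c0005c020026042004f01f8001501000b0108005c07e0005304000a0720012021000080d800800360005108001603600090110001401000100d800300440004c04000e072000301f800500d80038044000450800020360001f81000a01b0000f40800080d80001604000c06c00004020094000812c001)))) 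
(.nd (nat_lit 20) (.lf (nat_lit 67322209) (dlOf (nat_lit 1) (nat_lit 0x1d400080b0901))) 
(.lf (nat_lit 9650529) (dlOf (nat_lit 1) (nat_lit 0x40028574f01))))) (.nd (nat_lit 11) 
(.nd (nat_lit 8) (.lf (nat_lit 6504673) (dlOf (nat_lit 2) (nat_lit 0x14b9400014818420580))) 
(.nd (nat_lit 9) (.lf (nat_lit 737761) (dlOf (nat_lit 1) (nat_lit 0x20008017d01))) 
(.lf (nat_lit 61031393) (dlOf (nat_lit 1) (nat_lit 0x12c002000400098c2882))))) (.nd (nat_lit 8) 
(.lf (nat_lit 20142817) (dlOf (nat_lit 1) (nat_lit 0x8002000200089db982))) (.nd (nat_lit 10) 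
(.lf (nat_lit 54217697) (dlOf (nat_lit 1) (nat_lit 0xaa0019655e01))) 
(.lf (nat_lit 2818789345) (dlOf (nat_lit 2) (nat_lit 0x1180fc013f60400e400200280008127a82)))))))) 
(.nd (nat_lit 29) (.nd (nat_lit 19) (.nd (nat_lit 7) (.nd (nat_lit 26) 
(.lf (nat_lit 1476608033) (dlOf (nat_lit 4) (nat_lit 0x1200d80014a04007406c000a0020084045001a01f8000001000c80080138002003c00080a0603))) 
(.lf (nat_lit 3691200545) (dlOf (nat_lit 14) (nat_lit 0xa280100508006000e50400e8004000720100a40020052000c001c4080460000000a5020098000000520100380000002840805d80000013c04037400801c0003000058200680020032800c0001408015400800a60030000482005e002002e000c0000a08035400801b80030000202000c013000a8088008c03a000600400010018006000000000180260002001000080a0602)))) 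
(.nd (nat_lit 10) 
(.lf (nat_lit 402866593) (dlOf (nat_lit 1) (nat_lit 0x28008000c00200080008091003))) 
(.lf (nat_lit 3556988321) (dlOf (nat_lit 3) (nat_lit 0x20490021b0100010390000000803b0008013000200740008129903))))) 
(.nd (nat_lit 20) (.nd (nat_lit 21) (.nd (nat_lit 26) 
(.lf (nat_lit 1342914593) (dlOf (nat_lit 2) (nat_lit 0xe824900018818110b00))) 
(.lf (nat_lit 470499361) (dlOf (nat_lit 2) (nat_lit 0xe824900018818110b00)))) 
(.lf (nat_lit 1345011745) (dlOf (nat_lit 2) (nat_lit 0x415f000028189d0680)))) (.nd (nat_lit 27) 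
(.lf (nat_lit 1343963169) (dlOf (nat_lit 1) (nat_lit 0x1000400060008380c82))) 
(.lf (nat_lit 5773148193) (dlOf (nat_lit 1) (nat_lit 0x4004000200080a0782)))))) (.nd (nat_lit 9) 
(.nd (nat_lit 26) (.nd (nat_lit 7) (.nd (nat_lit 30) 
(.lf (nat_lit 2953003041) (dlOf (nat_lit 10) (nat_lit 0x1d806c0016a04028c038000b20200260000005381002200e00002c080b5007000014040318038000090202ea01c0000281010e00e000010080a48070000000400d000400fe0008080602))) 
(.lf (nat_lit 4026744865) (dlOf (nat_lit 1) (nat_lit 0xb80008090001)))) 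
(.lf (nat_lit 4026745249) (dlOf (nat_lit 1) (nat_lit 0x190008005400200420008090783)))) 
(.nd (nat_lit 27) (.lf (nat_lit 1946370081) (dlOf (nat_lit 1) (nat_lit 0x1c00200160008030982))) 
(.lf (nat_lit 4228071457) (dlOf (nat_lit 1) (nat_lit 0x400400020008020482))))) (.nd (nat_lit 7) 
(.nd (nat_lit 10) (.lf (nat_lit 4026745377) (dlOf (nat_lit 1) (nat_lit 0x1ac00200ba0008090d82))) 
(.lf (nat_lit 4160968225) (dlOf (nat_lit 1) (nat_lit 0x4c004002000080a9c02)))) (.nd (nat_lit 6) 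
(.lf (nat_lit 805523105) (dlOf (nat_lit 1) (nat_lit 0x3000400040008117202))) 
(.lf (nat_lit 3154336481) (dlOf (nat_lit 1) (nat_lit 0x7d8008002400200c4000815b983)))))))) 
(.nd (nat_lit 30) (.nd (nat_lit 6) (.nd (nat_lit 21) (.nd (nat_lit 28) (.nd (nat_lit 19) 
(.nd (nat_lit 22) (.lf (nat_lit 6442663977) (dlOf (nat_lit 1) (nat_lit 0x20018130601))) 
(.lf (nat_lit 29573161) (dlOf (nat_lit 1) (nat_lit 0xc0028e20801)))) 
(.lf (nat_lit 22757417) (dlOf (nat_lit 2) (nat_lit 0x210cc0020000000560400020018b20681)))) 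
(.nd (nat_lit 19) (.nd (nat_lit 26) 
(.lf (nat_lit 939737129) (dlOf (nat_lit 1) (nat_lit 0x20018160501))) 
(.lf (nat_lit 2483241001) (dlOf (nat_lit 2) (nat_lit 0x800001b3e04001000200180008090002)))) 
(.lf (nat_lit 1007370281) (dlOf (nat_lit 1) (nat_lit 0x80008300b01))))) (.nd (nat_lit 19) 
(.nd (nat_lit 9) (.nd (nat_lit 22) 
(.lf (nat_lit 52641833) (dlOf (nat_lit 1) (nat_lit 0x1700080008002003a0009560883))) 
(.lf (nat_lit 23281705) (dlOf (nat_lit 3) (nat_lit 0xb2fc01a9004001197e00d460200020028b80001)))) 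
(.lf (nat_lit 472074793) (dlOf (nat_lit 1) (nat_lit 0x400400020018805182)))) (.nd (nat_lit 7) 
(.lf (nat_lit 11223081) (dlOf (nat_lit 2) (nat_lit 0x2a0ac6000560200020028670601))) 
(.lf (nat_lit 8077737) (dlOf (nat_lit 1) (nat_lit 0x400200020008511002)))))) (.nd (nat_lit 11) 
(.nd (nat_lit 7) (.nd (nat_lit 19) 
(.lf (nat_lit 4429398121) (dlOf (nat_lit 1) (nat_lit 0x200080a1401))) 
(.lf (nat_lit 48971881) (dlOf (nat_lit 1) (nat_lit 0xc0009451e81)))) (.nd (nat_lit 8) 
(.lf (nat_lit 402867433) (dlOf (nat_lit 1) (nat_lit 0x20028092e81))) 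
(.lf (nat_lit 1262057) (dlOf (nat_lit 2) (nat_lit 0x296bc000c9bb000228280a7300))))) 
(.nd (nat_lit 8) (.nd (nat_lit 10) 
(.lf (nat_lit 671303913) (dlOf (nat_lit 7) (nat_lit 0x8a01b004b003000a0000000360c01f8058007201b003900300208000000321001cc058008201b003f0030020800000016100234058008601b0043003002200000001410001c05800020000000482002e00000001c0800c0008000800200100008144b03))) 
(.lf (nat_lit 2754825449) (dlOf (nat_lit 6) (nat_lit 0x12b03c8000d80807b81e40006a0404a80f2000340202a00790001701019503c8000b40801780080444002014000080f6503)))) 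
(.lf (nat_lit 738413545) (dlOf (nat_lit 1) (nat_lit 0x400200020008095e82)))))) (.nd (nat_lit 26) 
(.nd (nat_lit 6) (.nd (nat_lit 9) (.nd (nat_lit 7) 
(.lf (nat_lit 1476608041) (dlOf (nat_lit 2) (nat_lit 0x1701f8000000800480080138002003600080a0683))) 
(.lf (nat_lit 3489881513) (dlOf (nat_lit 9) (nat_lit 0x461fd000b0af0000c01000d87f40005e0400ac3fa0002e0200641fd00030af8000b41001a07f40000a0400c03fa0000402004e1fd000c0f40000081000907f4000000400a40040010001800cb82)))) 
(.nd (nat_lit 11) (.nd (nat_lit 19) 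
(.lf (nat_lit 4026745385) (dlOf (nat_lit 1) (nat_lit 0x40018090e01))) 
(.lf (nat_lit 1611350569) (dlOf (nat_lit 2) (nat_lit 0x1800000048040010002000c0008138902)))) 
(.lf (nat_lit 1745046057) (dlOf (nat_lit 1) (nat_lit 0x440028095181))))) (.nd (nat_lit 7) 
(.nd (nat_lit 8) (.lf (nat_lit 1610827369) (dlOf (nat_lit 1) (nat_lit 0x800400040018093902))) 
(.lf (nat_lit 3489877353) (dlOf (nat_lit 1) (nat_lit 0x400200020008006b02)))) (.nd (nat_lit 9) 
(.nd (nat_lit 10) (.lf (nat_lit 3489876457) (dlOf (nat_lit 1) (nat_lit 0x400400020008004e82))) 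
(.lf (nat_lit 3489877481) (dlOf (nat_lit 1) (nat_lit 0x10008000400200020008006e83)))) 
(.lf (nat_lit 3493020649) (dlOf (nat_lit 1) (nat_lit 0x200280f2881)))))) (.nd (nat_lit 7) 
(.nd (nat_lit 27) (.nd (nat_lit 9) (.nd (nat_lit 19) 
(.lf (nat_lit 3288547369) (dlOf (nat_lit 1) (nat_lit 0x20028090001))) 
(.lf (nat_lit 3557507113) (dlOf (nat_lit 1) (nat_lit 0x100018230a01)))) 
(.lf (nat_lit 3288547881) (dlOf (nat_lit 1) (nat_lit 0x40018090e01)))) (.nd (nat_lit 28) 
(.lf (nat_lit 1812152361) (dlOf (nat_lit 1) (nat_lit 0x20018160501))) 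
(.lf (nat_lit 5838684201) (dlOf (nat_lit 1) (nat_lit 0x20018130601))))) (.nd (nat_lit 8) 
(.nd (nat_lit 10) 
(.lf (nat_lit 3556987113) (dlOf (nat_lit 1) (nat_lit 0x8008000400200020008128083))) 
(.lf (nat_lit 1409502441) (dlOf (nat_lit 1) (nat_lit 0x400400020008006502)))) (.nd (nat_lit 6) 
(.lf (nat_lit 3288547753) (dlOf (nat_lit 1) (nat_lit 0x190008005400200420008090783))) 
(.lf (nat_lit 3825418729) (dlOf (nat_lit 3) (nat_lit 0x2401600bc00900ab0000000b81802a802404c0004015c00000016838157300))))))))) 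
(.nd (nat_lit 3) (.nd (nat_lit 26) (.nd (nat_lit 21) (.nd (nat_lit 30) (.nd (nat_lit 20) 
(.nd (nat_lit 6) (.nd (nat_lit 22) 
(.lf (nat_lit 805781537) (dlOf (nat_lit 1) (nat_lit 0x2600080004002005000081a0003))) 
(.lf (nat_lit 21446689) (dlOf (nat_lit 1) (nat_lit 0x38008003c002001a0008a40183)))) 
(.lf (nat_lit 537346529) (dlOf (nat_lit 1) (nat_lit 0x31800400ec0008090c02)))) (.nd (nat_lit 19) 
(.nd (nat_lit 23) (.lf (nat_lit 1523745) (dlOf (nat_lit 1) (nat_lit 0x200180e0c01))) 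
(.lf (nat_lit 26689569) (dlOf (nat_lit 1) (nat_lit 0x20028c60601)))) 
(.lf (nat_lit 14630945) (dlOf (nat_lit 4) (nat_lit 0x2e708007e0000000582000a9c20000240800bce1000000040150002000a0008770182))))) 
(.nd (nat_lit 28) (.nd (nat_lit 6) (.nd (nat_lit 31) 
(.lf (nat_lit 1611087905) (dlOf (nat_lit 6) (nat_lit 0x1c0980018048003901a80009c1800700ec008806a0002304004604e0005026800100dc0003e0c001409a0001e02004204e000901b8000001000f8008015400200c600080d0183))) 
(.lf (nat_lit 3758571553) (dlOf (nat_lit 1) (nat_lit 0x1000282b0681)))) (.nd (nat_lit 7) 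
(.lf (nat_lit 1074220641) (dlOf (nat_lit 1) (nat_lit 0x1800280f7181))) 
(.lf (nat_lit 3221701089) (dlOf (nat_lit 1) (nat_lit 0x4e00080064002008a0008170c03))))) 
(.nd (nat_lit 6) (.nd (nat_lit 19) (.nd (nat_lit 20) 
(.lf (nat_lit 3494330401) (dlOf (nat_lit 1) (nat_lit 0x20018200b01))) 
(.lf (nat_lit 3491184673) (dlOf (nat_lit 3) (nat_lit 0xd0458000c808000822c0000c04008000400180008070682)))) 
(.lf (nat_lit 1343176737) (dlOf (nat_lit 5) (nat_lit 0x211108000880804002bc0004004000c4040001d020138202007e0d5804b069c023c15e0016095001001380006c300030008001400200100008190183)))) 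
(.lf (nat_lit 3490139361) (dlOf (nat_lit 2) (nat_lit 0x982800004004000c00400060008006502)))))) 
(.nd (nat_lit 20) (.nd (nat_lit 6) (.nd (nat_lit 7) (.nd (nat_lit 8) 
(.lf (nat_lit 3492233249) (dlOf (nat_lit 2) (nat_lit 0xa08d000056040014004000400080b0a02))) 
(.lf (nat_lit 19876641) (dlOf (nat_lit 1) (nat_lit 0x4002000200089d5c02)))) 
(.lf (nat_lit 19876769) (dlOf (nat_lit 1) (nat_lit 0x200289d5c81)))) (.nd (nat_lit 8) 
(.nd (nat_lit 9) (.lf (nat_lit 19879137) (dlOf (nat_lit 1) (nat_lit 0x4002000200089d9502))) 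
(.lf (nat_lit 19880673) (dlOf (nat_lit 1) (nat_lit 0x80080004002000200089db983)))) (.nd (nat_lit 7) 
(.lf (nat_lit 19874145) (dlOf (nat_lit 1) (nat_lit 0x1800089d0e81))) 
(.lf (nat_lit 5773935585) (dlOf (nat_lit 1) (nat_lit 0x2000280e2881)))))) (.nd (nat_lit 6) 
(.nd (nat_lit 8) (.nd (nat_lit 10) 
(.lf (nat_lit 16203809) (dlOf (nat_lit 1) (nat_lit 0x20018870601))) 
(.lf (nat_lit 41370657) (dlOf (nat_lit 1) (nat_lit 0x400200020009242882)))) 
(.lf (nat_lit 3493282081) (dlOf (nat_lit 2) (nat_lit 0x200700005004000400400040018104282)))) 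
(.nd (nat_lit 7) (.nd (nat_lit 19) 
(.lf (nat_lit 45564001) (dlOf (nat_lit 1) (nat_lit 0x120019331981))) 
(.lf (nat_lit 12533857) (dlOf (nat_lit 1) (nat_lit 0x80080004002000200086d1283)))) (.nd (nat_lit 8) 
(.lf (nat_lit 8344289) (dlOf (nat_lit 1) (nat_lit 0x400200020008518c82))) 
(.lf (nat_lit 8345057) (dlOf (nat_lit 1) (nat_lit 0x800200040008519b02)))))))) (.nd (nat_lit 28) 
(.nd (nat_lit 27) (.nd (nat_lit 6) (.nd (nat_lit 20) (.nd (nat_lit 21) (.nd (nat_lit 22) 
(.lf (nat_lit 4362551329) (dlOf (nat_lit 1) (nat_lit 0x10008000400200020008090003))) 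
(.lf (nat_lit 2756132897) (dlOf (nat_lit 1) (nat_lit 0x20018200b01)))) 
(.lf (nat_lit 2754035745) (dlOf (nat_lit 2) (nat_lit 0xa093000028040014004000400080b0a02)))) 
(.lf (nat_lit 2752987169) (dlOf (nat_lit 3) (nat_lit 0xd0440000c80800082200000c04008000400180008070682)))) 
(.nd (nat_lit 8) (.lf (nat_lit 2754563681) (dlOf (nat_lit 1) (nat_lit 0x200180f7181))) 
(.lf (nat_lit 604457313) (dlOf (nat_lit 1) (nat_lit 0x2000282d4e81))))) (.nd (nat_lit 7) 
(.nd (nat_lit 29) 
(.lf (nat_lit 201801761) (dlOf (nat_lit 1) (nat_lit 0x8008000400200020008090003))) 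
(.nd (nat_lit 30) 
(.lf (nat_lit 738672673) (dlOf (nat_lit 6) (nat_lit 0x1c0980018048003901a80009c1800700ec008806a0002304004604e0005026800100dc0003e0c001409a0001e02004204e000901b8000001000f8008015400200c600080d0183))) 
(.lf (nat_lit 3959898145) (dlOf (nat_lit 2) (nat_lit 0x120460007022801f401002c0008000c00200600008170003))))) 
(.nd (nat_lit 6) (.lf (nat_lit 201802145) (dlOf (nat_lit 1) (nat_lit 0x5400200160008090782))) 
(.lf (nat_lit 3959898593) (dlOf (nat_lit 1) (nat_lit 0x4e00080064002008a0008170c03)))))) 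
(.nd (nat_lit 7) (.nd (nat_lit 19) (.nd (nat_lit 21) (.nd (nat_lit 27) 
(.lf (nat_lit 3020374049) (dlOf (nat_lit 1) (nat_lit 0x1000282b0681))) 
(.lf (nat_lit 4228333601) (dlOf (nat_lit 1) (nat_lit 0x10008000400200020008090003)))) 
(.lf (nat_lit 1009205281) (dlOf (nat_lit 1) (nat_lit 0x300080038002000a00090a0183)))) 
(.nd (nat_lit 20) 
(.lf (nat_lit 470761505) (dlOf (nat_lit 2) (nat_lit 0x130b180006c080108008000400200020008170183))) 
(.lf (nat_lit 473907233) (dlOf (nat_lit 2) (nat_lit 0x2105580108286008413b004709c80210334010812c0084085004203a802101cc0001c24000c00200080008fc0182))))) 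
(.nd (nat_lit 9) (.nd (nat_lit 8) 
(.lf (nat_lit 6376341729) (dlOf (nat_lit 4) (nat_lit 0x2ec2400009d02006a1200004c8100bc090000238080048008004c00200500008090a83))) 
(.lf (nat_lit 1409761761) (dlOf (nat_lit 1) (nat_lit 0x31800400ec0008090c02)))) (.nd (nat_lit 6) 
(.lf (nat_lit 6376344225) (dlOf (nat_lit 1) (nat_lit 0x20008095581))) 
(.lf (nat_lit 473385697) (dlOf (nat_lit 1) (nat_lit 0x140018f55981)))))))) (.nd (nat_lit 19) 
(.nd (nat_lit 8) (.nd (nat_lit 21) (.nd (nat_lit 20) (.nd (nat_lit 28) 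
(.lf (nat_lit 3221700649) (dlOf (nat_lit 3) (nat_lit 0x160046009c022800e810c0078084003a033006a40500af023004e81140078086003c042001d01980351828066000800b400204140008170003))) 
(.lf (nat_lit 805781545) (dlOf (nat_lit 3) (nat_lit 0x2220560009029800f804c01a900c044c0ac0012053001b0098035181800b00080020002001000081a0003)))) 
(.nd (nat_lit 7) (.nd (nat_lit 23) 
(.lf (nat_lit 35078185) (dlOf (nat_lit 2) (nat_lit 0x5a488000a4080008008000800200040008fd0203))) 
(.lf (nat_lit 9912361) (dlOf (nat_lit 1) (nat_lit 0x20028590a01)))) 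
(.lf (nat_lit 47662249) (dlOf (nat_lit 1) (nat_lit 0x20029402c01))))) (.nd (nat_lit 28) 
(.nd (nat_lit 23) (.nd (nat_lit 26) 
(.lf (nat_lit 2572329) (dlOf (nat_lit 6) (nat_lit 0x54a5e003352e0019a608011d40c013948e007330200a4a4700399010057523801cc40800129780000004000400400120018170a02))) 
(.lf (nat_lit 2754035753) (dlOf (nat_lit 2) (nat_lit 0x409300004c040020004007c00180b0d02)))) 
(.lf (nat_lit 27738153) (dlOf (nat_lit 1) (nat_lit 0x10008000800200040008d20783)))) 
(.nd (nat_lit 7) 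
(.lf (nat_lit 3492233257) (dlOf (nat_lit 1) (nat_lit 0x108008007c002002c00080b0d83))) 
(.lf (nat_lit 1344750761) (dlOf (nat_lit 3) (nat_lit 0x2c0fa0007602000214d0003a818982c00)))))) 
(.nd (nat_lit 6) (.nd (nat_lit 9) (.nd (nat_lit 7) 
(.lf (nat_lit 3493282089) (dlOf (nat_lit 1) (nat_lit 0x20018104601))) 
(.lf (nat_lit 134693289) (dlOf (nat_lit 1) (nat_lit 0x5400200160008090782)))) (.nd (nat_lit 21) 
(.lf (nat_lit 46615337) (dlOf (nat_lit 1) (nat_lit 0x220029385c01))) 
(.lf (nat_lit 1881623337) (dlOf (nat_lit 1) (nat_lit 0x1e0028f65c01))))) (.nd (nat_lit 10) 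
(.nd (nat_lit 27) (.lf (nat_lit 4362551657) (dlOf (nat_lit 1) (nat_lit 0x20028090701))) 
(.lf (nat_lit 4228333929) (dlOf (nat_lit 1) (nat_lit 0x20028090701)))) 
(.lf (nat_lit 604456297) (dlOf (nat_lit 2) (nat_lit 0x20340001f8182d3480)))))) (.nd (nat_lit 6) 
(.nd (nat_lit 8) (.nd (nat_lit 20) (.nd (nat_lit 22) 
(.lf (nat_lit 59719721) (dlOf (nat_lit 1) (nat_lit 0x4000400060009820202))) 
(.lf (nat_lit 5193769) (dlOf (nat_lit 1) (nat_lit 0x20028320681)))) (.nd (nat_lit 10) 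
(.nd (nat_lit 22) (.lf (nat_lit 69156905) (dlOf (nat_lit 1) (nat_lit 0x8008000c002000800088c0203))) 
(.lf (nat_lit 23019561) (dlOf (nat_lit 15) (nat_lit 0xcd5f600fa55b00a12a9005e8f4802e879202020000002b0600162af803c956c0078aa400943d20002a8400362ad80140f4800080000005306001055b0002701000b5820000956c0009408001d6080004502001655b0001e0100082ad8000dc080052c10000d5f6001aaea001556d000b259400252bc006c55f000f2ad8017954800180000003214001655b000188100025820005abec0005a0800155f60002c02002455b00052a900004c10005956c0002404005400200020008b40682)))) 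
(.lf (nat_lit 39797801) (dlOf (nat_lit 1) (nat_lit 0x4800091f2881))))) (.nd (nat_lit 7) 
(.nd (nat_lit 9) 
(.lf (nat_lit 6376341801) (dlOf (nat_lit 9) (nat_lit 0x19c262012c1220002302007d098804884880008a08004c2620042122000220200dc0900000e80802884800007204019026201ae12201530900000e01801984800006a04000826400341310046090801004800000010116c004014a0008090b02))) 
(.lf (nat_lit 2754566953) (dlOf (nat_lit 2) (nat_lit 0x203c8015600800080080060002001000080fbc83)))) 
(.nd (nat_lit 9) (.lf (nat_lit 19878313) (dlOf (nat_lit 1) (nat_lit 0x2000289d8401))) 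
(.lf (nat_lit 2754567081) (dlOf (nat_lit 4) (nat_lit 0x240790011501000803c8008740800901e40042a040028004000600180fbd02)))))) 
(.nd (nat_lit 21) (.nd (nat_lit 7) 
(.lf (nat_lit 59719785) (dlOf (nat_lit 1) (nat_lit 0x80029820a01))) (.nd (nat_lit 20) 
(.lf (nat_lit 3490660841) (dlOf (nat_lit 5) (nat_lit 0x1543cc000220200901e60000e0100300f300006c0800a079800016040048004000e0018017302))) 
(.lf (nat_lit 3491709417) (dlOf (nat_lit 1) (nat_lit 0x20018090d01))))) (.nd (nat_lit 7) 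
(.lf (nat_lit 12533865) (dlOf (nat_lit 3) (nat_lit 0x10c00000009810002d77802dc45001e5f8800d6000000080486d1400))) 
(.nd (nat_lit 10) (.lf (nat_lit 19878121) (dlOf (nat_lit 1) (nat_lit 0x4004000400189d8082))) 
(.lf (nat_lit 19879145) (dlOf (nat_lit 1) (nat_lit 0x18008000c002000400089d9503))))))))))))

end

end Pool.Agent.Lib.MP_5854e1_co.Cz

namespace Pool.Agent.Lib.MP_5854e1_co.Cz

noncomputable section

noncomputable def tz68 : DT := (.nd (nat_lit 5) (.nd (nat_lit 3) (.nd (nat_lit 18) (.nd (nat_lit 6) 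
(.nd (nat_lit 10) (.nd (nat_lit 19) (.nd (nat_lit 27) (.nd (nat_lit 24) (.nd (nat_lit 7) 
(.nd (nat_lit 16) (.nd (nat_lit 22) 
(.lf (nat_lit 1140867088) (dlOf (nat_lit 1) (nat_lit 0x3c0018000001))) 
(.lf (nat_lit 46153744) (dlOf (nat_lit 1) (nat_lit 0x380080048002000c0009380003)))) 
(.lf (nat_lit 1343307792) (dlOf (nat_lit 2) (nat_lit 0x20054001af02000200281e0481)))) 
(.nd (nat_lit 8) (.lf (nat_lit 47202448) (dlOf (nat_lit 1) (nat_lit 0x74004001a00093b1002))) 
(.lf (nat_lit 5637229456) (dlOf (nat_lit 2) (nat_lit 0x5401400130010000e0100260008000c002000a0008055c83))))) 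
(.nd (nat_lit 16) (.nd (nat_lit 7) (.nd (nat_lit 20) 
(.lf (nat_lit 23085072) (dlOf (nat_lit 2) (nat_lit 0xc80000001d818b50100))) 
(.lf (nat_lit 26230800) (dlOf (nat_lit 1) (nat_lit 0x80028c20281)))) 
(.lf (nat_lit 19943824) (dlOf (nat_lit 1) (nat_lit 0x200189d8381)))) (.nd (nat_lit 22) 
(.lf (nat_lit 52510736) (dlOf (nat_lit 1) (nat_lit 0x2980080004002002c0009540283))) 
(.lf (nat_lit 23150608) (dlOf (nat_lit 2) (nat_lit 0x68000004f204000400200020008b60502)))))) 
(.nd (nat_lit 30) (.nd (nat_lit 8) (.nd (nat_lit 7) 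
(.lf (nat_lit 2348892688) (dlOf (nat_lit 2) (nat_lit 0xb00000098c0400b800200040008018402))) 
(.nd (nat_lit 11) (.lf (nat_lit 469783184) (dlOf (nat_lit 1) (nat_lit 0x800200020008008c82))) 
(.lf (nat_lit 469850768) (dlOf (nat_lit 1) (nat_lit 0x14004001a000800b682))))) (.nd (nat_lit 9) 
(.lf (nat_lit 4697702800) (dlOf (nat_lit 2) (nat_lit 0xa01500cb009000534100170008007000200f60008091003))) 
(.lf (nat_lit 4697639824) (dlOf (nat_lit 2) (nat_lit 0x780780006c04001400200040008005c82))))) 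
(.nd (nat_lit 7) (.nd (nat_lit 8) 
(.lf (nat_lit 1476476944) (dlOf (nat_lit 1) (nat_lit 0x400200020008010002))) (.nd (nat_lit 26) 
(.lf (nat_lit 1476417808) (dlOf (nat_lit 13) (nat_lit 0x700380030000000bc08003000e00120000002e82000900380048000000b808003000e00140000002882000900380030000000a008000c00e000450200040070002201000300380010c08001801c0008404001800e0004002000c0070001e81000100000009c08015000800340020002000800aa83))) 
(.lf (nat_lit 3691010320) (dlOf (nat_lit 7) (nat_lit 0xa000d80018060000a80802840360006018000200a00014c1804e806c0008a04000403a0002e02000201d0001681000100e800054080308008024c00200f6000800aa83))))) 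
(.nd (nat_lit 28) (.lf (nat_lit 1275087760) (dlOf (nat_lit 1) (nat_lit 0x400400020008005c82))) 
(.lf (nat_lit 2080394128) (dlOf (nat_lit 1) (nat_lit 0x60018005c81))))))) (.nd (nat_lit 21) 
(.nd (nat_lit 26) (.nd (nat_lit 22) (.nd (nat_lit 16) (.nd (nat_lit 28) 
(.lf (nat_lit 1611153424) (dlOf (nat_lit 3) (nat_lit 0xc02a00386010001015001c040800080080044002002400080f0a03))) 
(.lf (nat_lit 805847056) (dlOf (nat_lit 1) (nat_lit 0x4c00181c0501)))) 
(.lf (nat_lit 134823952) (dlOf (nat_lit 1) (nat_lit 0x120004005000180c0882)))) (.nd (nat_lit 16) 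
(.nd (nat_lit 25) (.lf (nat_lit 21512208) (dlOf (nat_lit 1) (nat_lit 0x54004004c0008a40002))) 
(.lf (nat_lit 55066640) (dlOf (nat_lit 4) (nat_lit 0x7258800f12c0003893c0002b06000e4b1000625800129278000360c000c962000a4b0002324f0000681805580080048002000400096a0103)))) 
(.lf (nat_lit 22626320) (dlOf (nat_lit 1) (nat_lit 0x5000400340008b00382))))) (.nd (nat_lit 27) 
(.nd (nat_lit 22) (.nd (nat_lit 28) 
(.lf (nat_lit 1678262288) (dlOf (nat_lit 1) (nat_lit 0x4c00181c0501))) 
(.lf (nat_lit 3557310480) (dlOf (nat_lit 1) (nat_lit 0x4002000200081c0482)))) 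
(.lf (nat_lit 2756198416) (dlOf (nat_lit 12) (nat_lit 0x8819c0054082001a022001100d8008702000a019c00680820022022001500d80086820008019800040ba000605c001401f800500b40034044001c01c000ec87001103300030170005407e001602d000d01100078070003b01800540cc000805d000d02e000c80fc002805a0022022001200e00075c3800d019800040ba000e05c001c01f800200b40054044002c01c000eb07000b03300040170003007e001602d000a01100040070003a818005c0cc000405d000302e000c80fc003805a0026022001400e00074c380080198005007e001002d000e01100078070003a41400300cc001005c000c01f800500b40034044001001c000e886000802e80070c08063000804fc00204ac0008210883)))) 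
(.nd (nat_lit 8) (.nd (nat_lit 16) 
(.lf (nat_lit 738738192) (dlOf (nat_lit 3) (nat_lit 0xc02a0065c8100010150032a80800080080044002002400080f0a03))) 
(.lf (nat_lit 201932816) (dlOf (nat_lit 1) (nat_lit 0x60004000600080c0982)))) 
(.lf (nat_lit 3154657552) (dlOf (nat_lit 1) (nat_lit 0x8008000c00200020008310703)))))) 
(.nd (nat_lit 22) (.nd (nat_lit 16) (.nd (nat_lit 23) (.nd (nat_lit 28) 
(.lf (nat_lit 2637840) (dlOf (nat_lit 1) (nat_lit 0x20028180101))) 
(.lf (nat_lit 3492298768) (dlOf (nat_lit 1) (nat_lit 0x200280c0881)))) 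
(.lf (nat_lit 44580880) (dlOf (nat_lit 1) (nat_lit 0x160029320001)))) (.nd (nat_lit 8) 
(.lf (nat_lit 27869200) (dlOf (nat_lit 13) (nat_lit 0x255ca00045020014ae5000c50a00011010003ab9400195a60018a14001a505800104200062b9400355a60024a14000e50580010020004ab9400215a6001aa1400125058000f8200052b94001d5a60020a1400155058000f4200052b940007804001d5ca000eae3000e5058000a8240006e1000295ca0002ae300025688005a850003d416000360a0020ae5000550a0000d4100042b94000542800034040018ae5001050a000000100128008005c00200020008d30283))) 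
(.lf (nat_lit 6378045712) (dlOf (nat_lit 1) (nat_lit 0xc004000600080f3a02))))) (.nd (nat_lit 20) 
(.nd (nat_lit 23) (.lf (nat_lit 6832144) (dlOf (nat_lit 1) (nat_lit 0x140018470181))) 
(.lf (nat_lit 15220752) (dlOf (nat_lit 3) (nat_lit 0x148ea0055b0100cc47500048c0800d800803e400200fe00087c0483)))) 
(.nd (nat_lit 16) (.lf (nat_lit 7880720) (dlOf (nat_lit 1) (nat_lit 0x140018500181))) 
(.lf (nat_lit 16334864) (dlOf (nat_lit 13) (nat_lit 0x315a80008804001cad40004302000e56a000329f800791d4000820c0018ad40012475000200200052b5000194fc0007c080004ad400124750001e8200052b50000f00800315a80004ad00002559000229e800791d40006e14000cab20003602000a56a0001a8100022b50000d00800395a80000004001400200160008890282)))))))) 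
(.nd (nat_lit 26) (.nd (nat_lit 8) (.nd (nat_lit 16) (.nd (nat_lit 27) (.nd (nat_lit 9) 
(.lf (nat_lit 3489680528) (dlOf (nat_lit 1) (nat_lit 0x28008001c00200040008006203))) 
(.lf (nat_lit 2684376720) (dlOf (nat_lit 1) (nat_lit 0x20018009e81)))) (.nd (nat_lit 28) 
(.lf (nat_lit 671108240) (dlOf (nat_lit 1) (nat_lit 0x20028006201))) 
(.lf (nat_lit 2550156432) (dlOf (nat_lit 1) (nat_lit 0x20028006201))))) (.nd (nat_lit 11) 
(.nd (nat_lit 9) (.lf (nat_lit 36783120) (dlOf (nat_lit 1) (nat_lit 0xa000400020019072882))) 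
(.lf (nat_lit 6308316688) (dlOf (nat_lit 3) (nat_lit 0x1000300003a020032018003c0040000d8100070008003c00200280008053683)))) 
(.nd (nat_lit 7) (.lf (nat_lit 54610960) (dlOf (nat_lit 1) (nat_lit 0xe0019655f81))) 
(.lf (nat_lit 1342262416) (dlOf (nat_lit 1) (nat_lit 0x30008001c00200320008006203)))))) 
(.nd (nat_lit 7) (.nd (nat_lit 27) (.nd (nat_lit 11) 
(.lf (nat_lit 536889104) (dlOf (nat_lit 2) (nat_lit 0x80a80002302000a0028003c01))) 
(.lf (nat_lit 2952810256) (dlOf (nat_lit 2) (nat_lit 0x40380098d0200140008007481)))) 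
(.nd (nat_lit 9) (.lf (nat_lit 4160771344) (dlOf (nat_lit 1) (nat_lit 0xa0028009681))) 
(.lf (nat_lit 671172368) (dlOf (nat_lit 1) (nat_lit 0x3a8008008c00200400008143c03))))) 
(.nd (nat_lit 16) (.nd (nat_lit 12) 
(.lf (nat_lit 8931216) (dlOf (nat_lit 1) (nat_lit 0x4004000a0008514202))) 
(.lf (nat_lit 22416) (dlOf (nat_lit 1) (nat_lit 0xa6001800a301)))) (.nd (nat_lit 9) 
(.lf (nat_lit 6308316560) (dlOf (nat_lit 3) (nat_lit 0x34019000aa01003200c80054c080068008006000200380008053603))) 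
(.lf (nat_lit 536954768) (dlOf (nat_lit 1) (nat_lit 0xa80080030002000c0008004203))))))) 
(.nd (nat_lit 29) (.nd (nat_lit 8) (.nd (nat_lit 7) 
(.lf (nat_lit 4362159120) (dlOf (nat_lit 4) (nat_lit 0x90080071a8080058000037d80400080ac0144c0200080018002881))) 
(.nd (nat_lit 9) (.lf (nat_lit 3288353936) (dlOf (nat_lit 1) (nat_lit 0x6400400020018006202))) 
(.lf (nat_lit 2214614672) (dlOf (nat_lit 1) (nat_lit 0x40018009e81))))) (.nd (nat_lit 9) 
(.nd (nat_lit 16) 
(.lf (nat_lit 1140868496) (dlOf (nat_lit 1) (nat_lit 0x380080014002000a0008003603))) 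
(.lf (nat_lit 5570119056) (dlOf (nat_lit 1) (nat_lit 0x780018053601)))) (.nd (nat_lit 7) 
(.lf (nat_lit 201344784) (dlOf (nat_lit 1) (nat_lit 0x20008001400200080008003c03))) 
(.lf (nat_lit 469845904) (dlOf (nat_lit 1) (nat_lit 0x100018004201)))))) (.nd (nat_lit 7) 
(.nd (nat_lit 9) (.nd (nat_lit 11) 
(.lf (nat_lit 2752005136) (dlOf (nat_lit 1) (nat_lit 0x20018002881))) 
(.lf (nat_lit 3019918352) (dlOf (nat_lit 1) (nat_lit 0x400400020008005f82)))) 
(.lf (nat_lit 2754629136) (dlOf (nat_lit 1) (nat_lit 0x80080010002000400080f7083)))) 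
(.nd (nat_lit 16) (.nd (nat_lit 8) 
(.lf (nat_lit 2754628752) (dlOf (nat_lit 1) (nat_lit 0x4004000200080f6202))) 
(.lf (nat_lit 4227878288) (dlOf (nat_lit 1) (nat_lit 0xc00400140008006c82)))) (.nd (nat_lit 11) 
(.lf (nat_lit 6377522320) (dlOf (nat_lit 1) (nat_lit 0x4004000200080e2b02))) 
(.lf (nat_lit 2885766288) (dlOf (nat_lit 1) (nat_lit 0x5c0028006201))))))))) (.nd (nat_lit 28) 
(.nd (nat_lit 16) (.nd (nat_lit 9) (.nd (nat_lit 21) (.nd (nat_lit 19) (.nd (nat_lit 7) 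
(.lf (nat_lit 16793680) (dlOf (nat_lit 2) (nat_lit 0x1a643f00d50d580017c100008008000c002000600088e0203))) 
(.lf (nat_lit 604001744) (dlOf (nat_lit 1) (nat_lit 0xc002001a0008009b02)))) (.nd (nat_lit 22) 
(.lf (nat_lit 67649616) (dlOf (nat_lit 2) (nat_lit 0x3300000005f02000800082d0201))) 
(.lf (nat_lit 21512272) (dlOf (nat_lit 2) (nat_lit 0xe88c00073f50001b028a40500))))) 
(.nd (nat_lit 20) (.nd (nat_lit 22) 
(.lf (nat_lit 2754101328) (dlOf (nat_lit 4) (nat_lit 0xfc494000340201301f9000170100390fc8000b008015000800d8002021a00080c1903))) 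
(.lf (nat_lit 48775248) (dlOf (nat_lit 3) (nat_lit 0xb0808000fc0800484040001e04006400200280009420702)))) 
(.lf (nat_lit 2755149904) (dlOf (nat_lit 2) (nat_lit 0x2f034802901100080086006801f000300c8000ac2800a00080020002002a0008121003))))) 
(.nd (nat_lit 8) (.nd (nat_lit 7) (.nd (nat_lit 27) 
(.lf (nat_lit 5435835984) (dlOf (nat_lit 2) (nat_lit 0x1001f000000080010008000800200200008003883))) 
(.lf (nat_lit 738215504) (dlOf (nat_lit 1) (nat_lit 0x3800200020008003882)))) 
(.lf (nat_lit 3422569168) (dlOf (nat_lit 2) (nat_lit 0x580d80000004001000400100018002002)))) 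
(.nd (nat_lit 7) (.nd (nat_lit 26) (.nd (nat_lit 27) 
(.lf (nat_lit 2684371792) (dlOf (nat_lit 2) (nat_lit 0x580d80000004001000400100018002482))) 
(.lf (nat_lit 2281718608) (dlOf (nat_lit 2) (nat_lit 0x1c048000320200020018002481)))) 
(.lf (nat_lit 2214609744) (dlOf (nat_lit 1) (nat_lit 0x20008002481)))) 
(.lf (nat_lit 8931280) (dlOf (nat_lit 1) (nat_lit 0x4004000c0008514502)))))) (.nd (nat_lit 8) 
(.nd (nat_lit 24) (.nd (nat_lit 19) (.nd (nat_lit 7) 
(.lf (nat_lit 14762064) (dlOf (nat_lit 3) (nat_lit 0x1746f8000940800c237c0004004000800400320018770702))) 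
(.lf (nat_lit 604061904) (dlOf (nat_lit 1) (nat_lit 0x400400020008010482)))) (.nd (nat_lit 26) 
(.lf (nat_lit 3221831760) (dlOf (nat_lit 1) (nat_lit 0x200181a1601))) 
(.lf (nat_lit 3960029264) (dlOf (nat_lit 2) (nat_lit 0x10043000138181a1900))))) (.nd (nat_lit 12) 
(.nd (nat_lit 23) 
(.lf (nat_lit 16859216) (dlOf (nat_lit 2) (nat_lit 0x1a1d17015ee34808a719c01ba780009709200d77b580017c300530008010c00200c200088e0203))) 
(.lf (nat_lit 25247824) (dlOf (nat_lit 2) (nat_lit 0x280000009e04002400200060008bf0d02)))) 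
(.lf (nat_lit 20009040) (dlOf (nat_lit 1) (nat_lit 0x4002000200089d7d82))))) (.nd (nat_lit 7) 
(.nd (nat_lit 9) (.lf (nat_lit 1744912720) (dlOf (nat_lit 1) (nat_lit 0x400200020008090d02))) 
(.nd (nat_lit 19) 
(.lf (nat_lit 20005712) (dlOf (nat_lit 2) (nat_lit 0x16d3800064040208004000400189d2482))) 
(.lf (nat_lit 7947088) (dlOf (nat_lit 1) (nat_lit 0x38008003400200140008512483))))) 
(.nd (nat_lit 11) (.nd (nat_lit 20) 
(.lf (nat_lit 50938320) (dlOf (nat_lit 1) (nat_lit 0x400094d7b01))) 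
(.lf (nat_lit 2753118672) (dlOf (nat_lit 1) (nat_lit 0x800400100018090a02)))) 
(.lf (nat_lit 57231824) (dlOf (nat_lit 3) (nat_lit 0x25d9da016820200aaced00896760057ec1005500080618002092e0009794e83))))))) 
(.nd (nat_lit 8) (.nd (nat_lit 7) (.nd (nat_lit 9) (.nd (nat_lit 21) (.nd (nat_lit 22) 
(.lf (nat_lit 3154657360) (dlOf (nat_lit 2) (nat_lit 0xd100e806f0058000be08002400200080008310202))) 
(.lf (nat_lit 3494395984) (dlOf (nat_lit 3) (nat_lit 0x9c0000001702003400000008018211900)))) 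
(.nd (nat_lit 20) 
(.lf (nat_lit 3492298832) (dlOf (nat_lit 3) (nat_lit 0x3079c000120400043ce0000702000400080c1601))) 
(.lf (nat_lit 3493347408) (dlOf (nat_lit 2) (nat_lit 0x2f034802901100080086006801f000300c8000a82800a00080020002002a0008121003))))) 
(.nd (nat_lit 10) (.lf (nat_lit 3691010640) (dlOf (nat_lit 1) (nat_lit 0x180020006000800b682))) 
(.nd (nat_lit 12) 
(.lf (nat_lit 6241207888) (dlOf (nat_lit 1) (nat_lit 0xd8008002400200080008053883))) 
(.lf (nat_lit 4160771664) (dlOf (nat_lit 1) (nat_lit 0x80028009c01)))))) (.nd (nat_lit 11) 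
(.nd (nat_lit 9) (.nd (nat_lit 16) 
(.lf (nat_lit 1009272016) (dlOf (nat_lit 1) (nat_lit 0x200190e2d81))) 
(.lf (nat_lit 6241207504) (dlOf (nat_lit 1) (nat_lit 0x80028052d81)))) 
(.lf (nat_lit 4160766672) (dlOf (nat_lit 3) (nat_lit 0x1401400050020000b01000d80100005604002400400080008002002)))) 
(.nd (nat_lit 9) (.nd (nat_lit 12) 
(.lf (nat_lit 1342196944) (dlOf (nat_lit 1) (nat_lit 0x10008003800200080008006403))) 
(.lf (nat_lit 1342201040) (dlOf (nat_lit 1) (nat_lit 0x4002800c281)))) 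
(.lf (nat_lit 3556854480) (dlOf (nat_lit 1) (nat_lit 0x8004000200080d5882)))))) (.nd (nat_lit 10) 
(.nd (nat_lit 16) (.nd (nat_lit 7) (.nd (nat_lit 26) 
(.lf (nat_lit 1342718288) (dlOf (nat_lit 7) (nat_lit 0x221c60002601005f0e300012c0800687180009404001038c000490200221c6000240100070000000c808016000800d4002004600080c0603))) 
(.lf (nat_lit 470303056) (dlOf (nat_lit 7) (nat_lit 0x221c60002981005f0e3000148080068718000a204001038c000500200221c6000278100070000000cc08016000800d4002004600080c0603)))) 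
(.lf (nat_lit 5771381712) (dlOf (nat_lit 1) (nat_lit 0x4004000c0018005d82)))) (.nd (nat_lit 7) 
(.nd (nat_lit 26) 
(.lf (nat_lit 4563485008) (dlOf (nat_lit 2) (nat_lit 0x7b009000000080160008007000200d20008090d03))) 
(.lf (nat_lit 3691069776) (dlOf (nat_lit 1) (nat_lit 0x668008031800202260008010803)))) 
(.lf (nat_lit 3491316176) (dlOf (nat_lit 1) (nat_lit 0x800400100018090a02))))) (.nd (nat_lit 11) 
(.nd (nat_lit 7) (.nd (nat_lit 12) 
(.lf (nat_lit 473449808) (dlOf (nat_lit 2) (nat_lit 0x10213000108d8000a8100068008000800200160008f53303))) 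
(.lf (nat_lit 2952811856) (dlOf (nat_lit 2) (nat_lit 0x70060008d60400c000200480008009902)))) 
(.lf (nat_lit 469849552) (dlOf (nat_lit 1) (nat_lit 0x9c00200040008009b02)))) (.nd (nat_lit 12) 
(.lf (nat_lit 1409371472) (dlOf (nat_lit 3) (nat_lit 0x2102f800e009c006400c00380030000804004502f80003808002000800a400200120008006a03))) 
(.lf (nat_lit 1342201168) (dlOf (nat_lit 1) (nat_lit 0x2002800c901))))))))) (.nd (nat_lit 6) 
(.nd (nat_lit 16) (.nd (nat_lit 29) (.nd (nat_lit 19) (.nd (nat_lit 32) (.nd (nat_lit 23) 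
(.nd (nat_lit 7) (.nd (nat_lit 27) 
(.lf (nat_lit 1141129232) (dlOf (nat_lit 1) (nat_lit 0x40028110081))) 
(.lf (nat_lit 1543782416) (dlOf (nat_lit 12) (nat_lit 0x18401300d228100be00980690c08051807c034820402cc03e01a3f02009201f00d1481001e00980678408002007c033be0400cc050016801f00cee02007400f8067680800080a00309a0400a0050017c50200080028170881)))) 
(.lf (nat_lit 35932560) (dlOf (nat_lit 1) (nat_lit 0x20019014e81)))) (.nd (nat_lit 9) 
(.nd (nat_lit 20) 
(.lf (nat_lit 44318736) (dlOf (nat_lit 4) (nat_lit 0x4462f002330a0000501000418bc0024c280000504001e62f000f30a0000101000080080050002000800092f0103))) 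
(.lf (nat_lit 26492944) (dlOf (nat_lit 1) (nat_lit 0x20018c50001)))) 
(.lf (nat_lit 9716240) (dlOf (nat_lit 1) (nat_lit 0x20028578401))))) (.nd (nat_lit 27) 
(.nd (nat_lit 28) (.lf (nat_lit 4295245840) (dlOf (nat_lit 2) (nat_lit 0x10026000138180c0100))) 
(.lf (nat_lit 4563681296) (dlOf (nat_lit 7) (nat_lit 0xb00660173e02002c03300b9e81000901a004b00cc02bc00800200660154902001603400a2901003c019804f440801700080040002000200080c0003)))) 
(.nd (nat_lit 28) (.lf (nat_lit 4429463568) (dlOf (nat_lit 2) (nat_lit 0x10027000088180c0100))) 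
(.lf (nat_lit 4697899024) (dlOf (nat_lit 7) (nat_lit 0x24068012c03300b9f020008019805aec0801600cc02bc0040058066015df02001603400a3781003c019804f280801700080040002000200080c0003)))))) 
(.nd (nat_lit 25) (.nd (nat_lit 20) (.nd (nat_lit 21) 
(.lf (nat_lit 802832) (dlOf (nat_lit 1) (nat_lit 0x20018020481))) 
(.lf (nat_lit 3492560912) (dlOf (nat_lit 3) (nat_lit 0x701180003f02003808c000b0458000f41002680080118002009c00080e0103)))) 
(.nd (nat_lit 22) (.lf (nat_lit 10240016) (dlOf (nat_lit 1) (nat_lit 0x10002001000085c0882))) 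
(.lf (nat_lit 22822928) (dlOf (nat_lit 1) (nat_lit 0xc00400060008b30102))))) (.nd (nat_lit 21) 
(.nd (nat_lit 8) (.lf (nat_lit 46943248) (dlOf (nat_lit 2) (nat_lit 0x1511400206f70002b029385f80))) 
(.lf (nat_lit 51134736) (dlOf (nat_lit 1) (nat_lit 0x100080130002007c0009507403)))) 
(.nd (nat_lit 22) (.lf (nat_lit 36455440) (dlOf (nat_lit 1) (nat_lit 0x1000200060009072882))) 
(.lf (nat_lit 40649744) (dlOf (nat_lit 1) (nat_lit 0x1800291f2881))))))) (.nd (nat_lit 26) 
(.nd (nat_lit 30) (.nd (nat_lit 27) (.nd (nat_lit 31) 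
(.lf (nat_lit 805584912) (dlOf (nat_lit 1) (nat_lit 0x1000400020008130482))) 
(.lf (nat_lit 2953068560) (dlOf (nat_lit 1) (nat_lit 0x200280f0281)))) 
(.lf (nat_lit 671367184) (dlOf (nat_lit 12) (nat_lit 0x18401300ed50100be0098076a008051807c03b4c0402cc03e01da402009201f00ebd01001e00980752008002007c03a880400cc050016801f00ea182007400f8074fc0800080a00378c0400a005001b260200080028170881)))) 
(.nd (nat_lit 10) (.nd (nat_lit 27) 
(.lf (nat_lit 1879326736) (dlOf (nat_lit 8) (nat_lit 0x1815c0002c0400f00b0002a057000202a8001013c0002a1000040ae0001402006a058000502b80d3815006380a2033004e0007007000980080000a1c00a80b00352054019302880d181380068004000040a002a05701aa02a00d00144069409c00060020000185001002b80d1815006a40a2035404e000400100000828072800806340020aaa00080e0503))) 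
(.lf (nat_lit 2013544464) (dlOf (nat_lit 1) (nat_lit 0x40028110081)))) (.nd (nat_lit 11) 
(.lf (nat_lit 1610892304) (dlOf (nat_lit 1) (nat_lit 0xc0028092881))) 
(.lf (nat_lit 1880902672) (dlOf (nat_lit 2) (nat_lit 0x8278000ac04001000200080008c95f82)))))) 
(.nd (nat_lit 27) (.nd (nat_lit 19) 
(.lf (nat_lit 1678000144) (dlOf (nat_lit 1) (nat_lit 0x1000400020008130482))) 
(.lf (nat_lit 2754363408) (dlOf (nat_lit 3) (nat_lit 0x701120003f020038089000b0440000f41002680080118002009c00080e0103)))) 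
(.nd (nat_lit 7) (.nd (nat_lit 10) 
(.lf (nat_lit 1006911504) (dlOf (nat_lit 8) (nat_lit 0x1815c0002a0400f00b0002a057000202a8001013c000281000040ae0001302006a058000502b80d3815006380a2033004e0007005800980080000a1c00a80b00352054019302880d181380068004000040a002a05701aa02a00d00144069409c00060020000185001002b80d1815006a40a2035404e000400100000828072800806340020aaa00080e0503))) 
(.lf (nat_lit 2885960720) (dlOf (nat_lit 1) (nat_lit 0x20004007a0018142882)))) 
(.lf (nat_lit 3154395280) (dlOf (nat_lit 1) (nat_lit 0x20018160281))))))) (.nd (nat_lit 28) 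
(.nd (nat_lit 26) (.nd (nat_lit 7) (.nd (nat_lit 31) (.nd (nat_lit 21) 
(.lf (nat_lit 5905924112) (dlOf (nat_lit 5) (nat_lit 0x232025010e00b80053c1001300e0048004a0226017000a2830128012808e805c002840801380700220025010300b8004ec1800100080090002034c0008160483))) 
(.lf (nat_lit 2441232) (dlOf (nat_lit 1) (nat_lit 0x1a0018160681)))) (.nd (nat_lit 27) 
(.lf (nat_lit 3221569552) (dlOf (nat_lit 2) (nat_lit 0x18118009f804001000200060008140482))) 
(.lf (nat_lit 3355787280) (dlOf (nat_lit 3) (nat_lit 0xa0310001b0100280000000000801b8008001400200100008110103))))) 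
(.nd (nat_lit 23) (.nd (nat_lit 8) 
(.lf (nat_lit 23412880) (dlOf (nat_lit 1) (nat_lit 0xe0018b80101))) 
(.lf (nat_lit 35998096) (dlOf (nat_lit 1) (nat_lit 0x20019014e81)))) (.nd (nat_lit 9) 
(.lf (nat_lit 12403088) (dlOf (nat_lit 1) (nat_lit 0x70004000200186c0782))) 
(.lf (nat_lit 8734608) (dlOf (nat_lit 1) (nat_lit 0x8008000400200020008514203)))))) 
(.nd (nat_lit 29) (.nd (nat_lit 27) (.nd (nat_lit 31) 
(.lf (nat_lit 4362420240) (dlOf (nat_lit 3) (nat_lit 0xe03300a4c81003b019800000080018008003400200120008070503))) 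
(.lf (nat_lit 6509903888) (dlOf (nat_lit 5) (nat_lit 0x232026010e00b8007801001300d4048004c0226017000eb030128013008e805c003a608013806a0220026010300b8007301800100080090002034c0008160483)))) 
(.lf (nat_lit 5570379792) (dlOf (nat_lit 1) (nat_lit 0x400200020008110002)))) (.nd (nat_lit 27) 
(.nd (nat_lit 30) (.lf (nat_lit 604323856) (dlOf (nat_lit 1) (nat_lit 0x80008160201))) 
(.lf (nat_lit 1678065680) (dlOf (nat_lit 1) (nat_lit 0x60018160481)))) 
(.lf (nat_lit 3959767056) (dlOf (nat_lit 2) (nat_lit 0x181180152204001000200060008140482)))))) 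
(.nd (nat_lit 20) (.nd (nat_lit 26) (.nd (nat_lit 8) (.nd (nat_lit 30) 
(.lf (nat_lit 805650448) (dlOf (nat_lit 1) (nat_lit 0x60018160481))) 
(.lf (nat_lit 6174359568) (dlOf (nat_lit 1) (nat_lit 0x400200020008110002)))) 
(.lf (nat_lit 3490008336) (dlOf (nat_lit 1) (nat_lit 0x80018006701)))) (.nd (nat_lit 27) 
(.lf (nat_lit 3557113872) (dlOf (nat_lit 2) (nat_lit 0x11030802bbc080060008003c00200040008130003))) 
(.lf (nat_lit 4228202512) (dlOf (nat_lit 3) (nat_lit 0xe03200afe81003b019000000080018008003400200120008070503))))) 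
(.nd (nat_lit 7) (.nd (nat_lit 9) (.nd (nat_lit 19) 
(.lf (nat_lit 1343569936) (dlOf (nat_lit 1) (nat_lit 0x40008290281))) 
(.lf (nat_lit 1344094224) (dlOf (nat_lit 1) (nat_lit 0x800283c0181)))) 
(.lf (nat_lit 1345669648) (dlOf (nat_lit 1) (nat_lit 0x28004000c0008dd5082)))) (.nd (nat_lit 26) 
(.lf (nat_lit 1880967568) (dlOf (nat_lit 1) (nat_lit 0x480080004002000c0008d74e83))) 
(.lf (nat_lit 1008552336) (dlOf (nat_lit 1) (nat_lit 0x400400020018d74e82)))))))) (.nd (nat_lit 16) 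
(.nd (nat_lit 30) (.nd (nat_lit 7) (.nd (nat_lit 23) (.nd (nat_lit 26) (.nd (nat_lit 9) 
(.nd (nat_lit 28) 
(.lf (nat_lit 671367248) (dlOf (nat_lit 32) (nat_lit 0x11807c000aa04023c03e000540200bc01f0002981004300e0018800c002000201040000002784005d000000134080f7007c0009604005404a04b801f000250201e200f800124080a1007c00090040c8403e0004602023401f0002281013b012829d007c0008408078c03e00041020356025058a00f800100100568094140403e0003f04062e01f0001f01032100f8000f408082807c000780400f80000003b02028e0000001d0100420140000e40802100a00003c0400a80500001c0201d40280000d0100310000000640807300a0000300402380500001702000401f0000b0100050140000540807700a0000280400a803e02d000000000028171000))) 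
(.lf (nat_lit 3087286352) (dlOf (nat_lit 1) (nat_lit 0x14004001a0008171002)))) 
(.lf (nat_lit 35932752) (dlOf (nat_lit 1) (nat_lit 0x20019015281)))) (.nd (nat_lit 8) 
(.nd (nat_lit 27) 
(.lf (nat_lit 67387472) (dlOf (nat_lit 3) (nat_lit 0x3a0ff0001301005502280002c0800200080078002001200080f0703))) 
(.lf (nat_lit 470040656) (dlOf (nat_lit 3) (nat_lit 0x9e0be0001000802c871c00ac0000002a04001a0008031001)))) 
(.lf (nat_lit 6509838672) (dlOf (nat_lit 1) (nat_lit 0x140028154d01))))) (.nd (nat_lit 19) 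
(.nd (nat_lit 20) (.lf (nat_lit 29638736) (dlOf (nat_lit 2) (nat_lit 0xfc9d40002f818e30200))) 
(.lf (nat_lit 26493008) (dlOf (nat_lit 2) (nat_lit 0x2c62c0004404003800400160018c50702)))) 
(.nd (nat_lit 20) 
(.lf (nat_lit 59523152) (dlOf (nat_lit 10) (nat_lit 0x1a33f002296540008a08008cb2a000430200505950000f0100232ca8000680801619f40028cf8009a594004b2c98028139800dc9a8000160c001667d00472ca0000541000219f400d0cf800ee66600422ca0012139800589a800c4000000088700282ca0000080802d99f401d8b28000000400240019800701))) 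
(.lf (nat_lit 45891664) (dlOf (nat_lit 1) (nat_lit 0x1c00200120009360702)))))) (.nd (nat_lit 8) 
(.nd (nat_lit 9) (.lf (nat_lit 43271376) (dlOf (nat_lit 1) (nat_lit 0x4002000200092a2d82))) 
(.nd (nat_lit 11) 
(.lf (nat_lit 19677904) (dlOf (nat_lit 2) (nat_lit 0x1a2200000c80800480080024002000e00089d2003))) 
(.lf (nat_lit 57428688) (dlOf (nat_lit 1) (nat_lit 0x10008001000200020009795883))))) 
(.nd (nat_lit 9) 
(.lf (nat_lit 6509838800) (dlOf (nat_lit 2) (nat_lit 0x12026000500b80291c100018008010c00200240008157103))) 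
(.lf (nat_lit 280528) (dlOf (nat_lit 1) (nat_lit 0x20028004501)))))) (.nd (nat_lit 26) 
(.nd (nat_lit 10) (.nd (nat_lit 19) (.nd (nat_lit 8) 
(.lf (nat_lit 1342455888) (dlOf (nat_lit 3) (nat_lit 0x9e0c080011c0802c871c00ac0000002b04001a0008031001))) 
(.lf (nat_lit 5905858896) (dlOf (nat_lit 1) (nat_lit 0x100028154d81)))) (.nd (nat_lit 21) 
(.lf (nat_lit 5773213776) (dlOf (nat_lit 11) (nat_lit 0x1a0980001500800084f800e82620002204008c131000100100440988000780802204c4000380401202620001b02000813e00590988000441002804c40002004010c2620000f02003013e001e0988000001001c8008014800200aa00080b0683))) 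
(.lf (nat_lit 1346125904) (dlOf (nat_lit 5) (nat_lit 0x45829801c614b014d06b80005c180570530001829602040d70000b03001d0a6000f835c000240803b0298009a14b016b06b8000001801a80080038002001e0008e60703))))) 
(.nd (nat_lit 7) (.nd (nat_lit 8) 
(.lf (nat_lit 1610892880) (dlOf (nat_lit 1) (nat_lit 0x400200020008093882))) 
(.lf (nat_lit 3624160592) (dlOf (nat_lit 4) (nat_lit 0x6807c0018037000801a80080000000281000c807c002e0370000982001001b80004408001000800f000200700008146a03)))) 
(.lf (nat_lit 3489946832) (dlOf (nat_lit 1) (nat_lit 0xc4800801b40020346000800c283))))) 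
(.nd (nat_lit 27) (.nd (nat_lit 29) 
(.lf (nat_lit 5436096592) (dlOf (nat_lit 1) (nat_lit 0x1400280d1701))) 
(.lf (nat_lit 3825483856) (dlOf (nat_lit 1) (nat_lit 0x14004001a0008171002)))) (.nd (nat_lit 19) 
(.lf (nat_lit 1543782480) (dlOf (nat_lit 32) (nat_lit 0x11807c000b804023c03e0005b0200bc01f0002d01004300d0018800c002000201040000002b04005d000000150080f7007c000a404005404a04b801f000288201e200f800140080a1007c0009e040c8403e0004d02023401f0002601013b012829d007c0009208078c03e00048020356025058a00f80011c100568094140403e0004604062e01f0002281032100f80011008082807c000860400f80000004202028e000000208100420140001000802100a00003c0400a80500001c0201d40280000d0100310000000640807300a0000300402380500001702000401f0000b0100050140000540807700a0000280400a803e02d000000000028171000))) 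
(.lf (nat_lit 6377193552) (dlOf (nat_lit 11) (nat_lit 0x1a0908001500800084c400e82440002204008c12200010010044091000078080220488000380401202440001b02000813100590910000441002804880002004010c2440000f020030131001e0910000001001c8008014800200aa00080b0683))))))) 
(.nd (nat_lit 20) (.nd (nat_lit 7) (.nd (nat_lit 22) (.nd (nat_lit 27) (.nd (nat_lit 19) 
(.nd (nat_lit 28) (.lf (nat_lit 1610956880) (dlOf (nat_lit 1) (nat_lit 0x4004000a00180a1702))) 
(.lf (nat_lit 4563746896) (dlOf (nat_lit 1) (nat_lit 0xd80080034002003400080d0503)))) 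
(.lf (nat_lit 868432) (dlOf (nat_lit 1) (nat_lit 0x1c00400020008031002)))) (.nd (nat_lit 26) 
(.nd (nat_lit 28) 
(.lf (nat_lit 3892658256) (dlOf (nat_lit 2) (nat_lit 0x8008c004003500005828180700))) 
(.lf (nat_lit 4697964624) (dlOf (nat_lit 1) (nat_lit 0xd80080034002003400080d0503)))) 
(.lf (nat_lit 3154460752) (dlOf (nat_lit 6) (nat_lit 0x4a000000074080250000000380401280000001b0200940000000c81002b02c0063015800980a6004e046000b021801b0100032c0740186035002501800088094019c042008a01e001600d0048805c001802600f400d00cb004000d000000016480068002001400081a0702))))) 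
(.nd (nat_lit 19) (.nd (nat_lit 8) 
(.lf (nat_lit 29704272) (dlOf (nat_lit 2) (nat_lit 0x70275002fc23a0005f0400140018e30201))) 
(.lf (nat_lit 23413072) (dlOf (nat_lit 1) (nat_lit 0x40028b80601)))) (.nd (nat_lit 23) 
(.lf (nat_lit 21839952) (dlOf (nat_lit 1) (nat_lit 0x20028a70901))) 
(.lf (nat_lit 13451344) (dlOf (nat_lit 1) (nat_lit 0x20018721901)))))) (.nd (nat_lit 8) 
(.nd (nat_lit 10) (.nd (nat_lit 23) 
(.lf (nat_lit 6241468624) (dlOf (nat_lit 1) (nat_lit 0x12c004001e00180f1b82))) 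
(.lf (nat_lit 25510096) (dlOf (nat_lit 1) (nat_lit 0x80018c10481)))) 
(.lf (nat_lit 5772231888) (dlOf (nat_lit 1) (nat_lit 0x400400020008092d82)))) (.nd (nat_lit 9) 
(.lf (nat_lit 8738256) (dlOf (nat_lit 1) (nat_lit 0x20028519b01))) 
(.lf (nat_lit 2751809488) (dlOf (nat_lit 2) (nat_lit 0x4490000130200020028004501)))))) 
(.nd (nat_lit 19) (.nd (nat_lit 9) (.nd (nat_lit 7) (.nd (nat_lit 23) 
(.lf (nat_lit 1392720) (dlOf (nat_lit 2) (nat_lit 0x880000002b02000200180c1001))) 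
(.lf (nat_lit 9781328) (dlOf (nat_lit 2) (nat_lit 0x53400001e018580500)))) 
(.lf (nat_lit 43336912) (dlOf (nat_lit 1) (nat_lit 0x4004000400192a2d82)))) (.nd (nat_lit 21) 
(.lf (nat_lit 34949712) (dlOf (nat_lit 1) (nat_lit 0x400400020008fb5282))) (.nd (nat_lit 23) 
(.lf (nat_lit 473254480) (dlOf (nat_lit 2) (nat_lit 0x1833000000040004004000a0008e35282))) 
(.lf (nat_lit 45435472) (dlOf (nat_lit 6) (nat_lit 0xa2e31000208100517188000f408028b8c401159d40003704013ce3100416750000d81001100000000004002c00200100009325282)))))) 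
(.nd (nat_lit 21) (.nd (nat_lit 7) (.nd (nat_lit 8) 
(.lf (nat_lit 69025872) (dlOf (nat_lit 1) (nat_lit 0x400400020008880702))) 
(.lf (nat_lit 1917264) (dlOf (nat_lit 2) (nat_lit 0x46a4700019818150600)))) 
(.lf (nat_lit 6377259216) (dlOf (nat_lit 1) (nat_lit 0x200180c1b81)))) (.nd (nat_lit 9) 
(.lf (nat_lit 1346191440) (dlOf (nat_lit 6) (nat_lit 0x77c2be004615e01e606b800b8358017013600b608b0000b8601ae0af80e0835c0002c0800602be00080d70000a8200b10af80f4035c00141360001206043215f021b06b800000100450008009c00201460008e60703))) 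
(.lf (nat_lit 33376848) (dlOf (nat_lit 2) (nat_lit 0x17b9e800b5ae80003a08000800400160008f55282)))))))))) 
(.nd (nat_lit 16) (.nd (nat_lit 6) (.nd (nat_lit 19) (.nd (nat_lit 18) (.nd (nat_lit 27) 
(.nd (nat_lit 8) (.nd (nat_lit 10) (.nd (nat_lit 9) (.nd (nat_lit 20) 
(.lf (nat_lit 20987928) (dlOf (nat_lit 1) (nat_lit 0xa0028a00701))) 
(.lf (nat_lit 59785240) (dlOf (nat_lit 1) (nat_lit 0x20019830601)))) 
(.lf (nat_lit 3493872152) (dlOf (nat_lit 1) (nat_lit 0x400181b0d81)))) (.nd (nat_lit 29) 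
(.lf (nat_lit 5368728600) (dlOf (nat_lit 1) (nat_lit 0x8008000400200020008006003))) 
(.lf (nat_lit 1610632216) (dlOf (nat_lit 1) (nat_lit 0x240018006001))))) (.nd (nat_lit 7) 
(.nd (nat_lit 9) 
(.lf (nat_lit 5435835672) (dlOf (nat_lit 5) (nat_lit 0x200e80002a0400100740001202000203a0000881000101d00002008013000800d800200400008003083))) 
(.lf (nat_lit 2952810264) (dlOf (nat_lit 5) (nat_lit 0x3a80700131c0401280380098d02004e01c004c601000200e00262c08028800800a400200180008007483)))) 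
(.nd (nat_lit 9) (.lf (nat_lit 3489679768) (dlOf (nat_lit 1) (nat_lit 0x20018004e81))) 
(.lf (nat_lit 5368728472) (dlOf (nat_lit 1) (nat_lit 0x8008000400200020008005c83)))))) 
(.nd (nat_lit 12) (.nd (nat_lit 26) (.nd (nat_lit 7) 
(.lf (nat_lit 5771381784) (dlOf (nat_lit 1) (nat_lit 0x400400020008006002))) 
(.lf (nat_lit 2550155672) (dlOf (nat_lit 1) (nat_lit 0x20028004e81)))) (.nd (nat_lit 29) 
(.lf (nat_lit 1275087896) (dlOf (nat_lit 1) (nat_lit 0x20028006001))) 
(.lf (nat_lit 5033184280) (dlOf (nat_lit 1) (nat_lit 0xc00400020008006002))))) (.nd (nat_lit 7) 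
(.nd (nat_lit 8) 
(.lf (nat_lit 469783576) (dlOf (nat_lit 1) (nat_lit 0x70008001c002001c0008009203))) 
(.lf (nat_lit 3422573848) (dlOf (nat_lit 1) (nat_lit 0x40028009701)))) (.nd (nat_lit 9) 
(.lf (nat_lit 4160771224) (dlOf (nat_lit 1) (nat_lit 0x40028009501))) 
(.lf (nat_lit 3691010712) (dlOf (nat_lit 2) (nat_lit 0x200e000080440000008003800400a6000800b682))))))) 
(.nd (nat_lit 20) (.nd (nat_lit 26) (.nd (nat_lit 10) (.nd (nat_lit 21) 
(.lf (nat_lit 12861464) (dlOf (nat_lit 1) (nat_lit 0x400286e0a01))) 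
(.lf (nat_lit 44318744) (dlOf (nat_lit 1) (nat_lit 0x600292f0401)))) 
(.lf (nat_lit 54807576) (dlOf (nat_lit 1) (nat_lit 0x400400500009656002)))) (.nd (nat_lit 27) 
(.nd (nat_lit 28) (.nd (nat_lit 29) 
(.lf (nat_lit 67387416) (dlOf (nat_lit 2) (nat_lit 0x126097000fe0180f0080))) 
(.lf (nat_lit 604258328) (dlOf (nat_lit 1) (nat_lit 0x180080040002000c0008100483)))) 
(.lf (nat_lit 2483306520) (dlOf (nat_lit 1) (nat_lit 0x40002001e00080a0902)))) (.nd (nat_lit 30) 
(.lf (nat_lit 2349088792) (dlOf (nat_lit 1) (nat_lit 0x40002001e00080a0902))) 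
(.lf (nat_lit 3422830616) (dlOf (nat_lit 1) (nat_lit 0x400280f0501)))))) (.nd (nat_lit 7) 
(.nd (nat_lit 21) (.nd (nat_lit 22) 
(.lf (nat_lit 26492952) (dlOf (nat_lit 2) (nat_lit 0xd3ada000fe018c50080))) 
(.lf (nat_lit 47464472) (dlOf (nat_lit 1) (nat_lit 0x4004000200093f0182)))) (.nd (nat_lit 8) 
(.lf (nat_lit 32784408) (dlOf (nat_lit 1) (nat_lit 0x20028f10081))) 
(.lf (nat_lit 3424536) (dlOf (nat_lit 1) (nat_lit 0x800200020008200482))))) (.nd (nat_lit 21) 
(.nd (nat_lit 23) (.lf (nat_lit 5772689560) (dlOf (nat_lit 1) (nat_lit 0x20008090501))) 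
(.lf (nat_lit 9715864) (dlOf (nat_lit 1) (nat_lit 0x10008000400200020008571183)))) 
(.lf (nat_lit 11813016) (dlOf (nat_lit 1) (nat_lit 0x200286c0181))))))) (.nd (nat_lit 29) 
(.nd (nat_lit 21) (.nd (nat_lit 20) (.nd (nat_lit 9) (.nd (nat_lit 26) 
(.lf (nat_lit 3221766168) (dlOf (nat_lit 1) (nat_lit 0x50008005000200100008180903))) 
(.lf (nat_lit 3557310488) (dlOf (nat_lit 1) (nat_lit 0x94004002e00081c0482)))) 
(.lf (nat_lit 1074283032) (dlOf (nat_lit 2) (nat_lit 0x804800040090008c0281b0d80)))) 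
(.nd (nat_lit 18) (.nd (nat_lit 22) 
(.lf (nat_lit 1343766552) (dlOf (nat_lit 2) (nat_lit 0x1809500018018360400))) 
(.lf (nat_lit 22560792) (dlOf (nat_lit 1) (nat_lit 0x400400020008b00502)))) (.nd (nat_lit 24) 
(.lf (nat_lit 471613464) (dlOf (nat_lit 10) (nat_lit 0x22817a00300240001982001405e8000c80801202f40006004003817a0002f02000809d000150100e00b080728538037813a01c408e00b80160000902805f0584030c29c017809d00c1047005700b0000441402fc2c2019214e00c204e80648238000421002c42c2016214e00b004e805502380003e10001000400040018360402))) 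
(.lf (nat_lit 18628632) (dlOf (nat_lit 1) (nat_lit 0xc00400040008960402)))))) (.nd (nat_lit 18) 
(.nd (nat_lit 8) (.nd (nat_lit 22) 
(.lf (nat_lit 45629464) (dlOf (nat_lit 2) (nat_lit 0xa594000ff819340080))) 
(.lf (nat_lit 24657944) (dlOf (nat_lit 1) (nat_lit 0x400200020008bb0482)))) 
(.lf (nat_lit 12075288) (dlOf (nat_lit 1) (nat_lit 0x80080004002000600086c0483)))) (.nd (nat_lit 9) 
(.nd (nat_lit 20) (.lf (nat_lit 3492560920) (dlOf (nat_lit 2) (nat_lit 0x3008a000178180e0380))) 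
(.lf (nat_lit 3493609496) (dlOf (nat_lit 1) (nat_lit 0x38000400f00008180602)))) (.nd (nat_lit 7) 
(.lf (nat_lit 50088472) (dlOf (nat_lit 2) (nat_lit 0x8e6fd000130194c5080))) 
(.lf (nat_lit 19684248) (dlOf (nat_lit 1) (nat_lit 0xc004000600089dbc82))))))) (.nd (nat_lit 27) 
(.nd (nat_lit 30) (.nd (nat_lit 18) 
(.lf (nat_lit 805847064) (dlOf (nat_lit 3) (nat_lit 0x840170065a81000101680b8005c0194e080010004002c00081c0a02))) 
(.nd (nat_lit 20) (.lf (nat_lit 2754363416) (dlOf (nat_lit 2) (nat_lit 0x30087000190180e0380))) 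
(.lf (nat_lit 2755411992) (dlOf (nat_lit 1) (nat_lit 0x38000400f00008180602))))) (.nd (nat_lit 8) 
(.nd (nat_lit 26) 
(.lf (nat_lit 1611153432) (dlOf (nat_lit 2) (nat_lit 0x100a800e14040018002000a00080f0a02))) 
(.lf (nat_lit 1678262296) (dlOf (nat_lit 3) (nat_lit 0x840170038401000101680b8005c00dfa080010004002c00081c0a02)))) 
(.lf (nat_lit 1946698008) (dlOf (nat_lit 5) (nat_lit 0x200f80034000001cc040004000000cb0100020000002900800a0000000fe04026c002002000081b0482))))) 
(.nd (nat_lit 28) (.nd (nat_lit 26) 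
(.lf (nat_lit 2819112984) (dlOf (nat_lit 1) (nat_lit 0x28004001800081a0482))) (.nd (nat_lit 30) 
(.lf (nat_lit 738738200) (dlOf (nat_lit 7) (nat_lit 0x1f0050008c01c009e80c800f405401d601c00030068033b03002c010401b8080000403000664830054020803601000199008011805400cb802003202a006538100040208032180802c80080178002006200080f0a03))) 
(.lf (nat_lit 3959963672) (dlOf (nat_lit 1) (nat_lit 0x50008005000200100008180903))))) 
(.nd (nat_lit 7) (.nd (nat_lit 18) 
(.lf (nat_lit 1007173656) (dlOf (nat_lit 1) (nat_lit 0x80008003400200060008210483))) 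
(.lf (nat_lit 1007435800) (dlOf (nat_lit 1) (nat_lit 0xc00200020008360402)))) 
(.lf (nat_lit 6375883160) (dlOf (nat_lit 1) (nat_lit 0x300018001001)))))))) (.nd (nat_lit 7) 
(.nd (nat_lit 18) (.nd (nat_lit 29) (.nd (nat_lit 22) (.nd (nat_lit 23) (.nd (nat_lit 31) 
(.lf (nat_lit 1074282584) (dlOf (nat_lit 2) (nat_lit 0x201e8000000800400080020002000800081b0003))) 
(.lf (nat_lit 3221766232) (dlOf (nat_lit 1) (nat_lit 0x4000200080008181102)))) (.nd (nat_lit 8) 
(.lf (nat_lit 12075096) (dlOf (nat_lit 1) (nat_lit 0x3c00186c0001))) 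
(.lf (nat_lit 8931160) (dlOf (nat_lit 1) (nat_lit 0x800400020008513f82))))) (.nd (nat_lit 8) 
(.nd (nat_lit 19) (.lf (nat_lit 12599384) (dlOf (nat_lit 1) (nat_lit 0x2a00086d1101))) 
(.lf (nat_lit 21512280) (dlOf (nat_lit 3) (nat_lit 0x14f5a000260100077ad00012c080070008000800200240008a40603)))) 
(.lf (nat_lit 30425432) (dlOf (nat_lit 3) (nat_lit 0x161900038a0400230c8001c20200ca0028e30881))))) 
(.nd (nat_lit 10) (.nd (nat_lit 21) (.nd (nat_lit 28) 
(.lf (nat_lit 3959963736) (dlOf (nat_lit 1) (nat_lit 0x4000200080008181102))) 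
(.lf (nat_lit 3154657368) (dlOf (nat_lit 1) (nat_lit 0xc0018310381)))) 
(.lf (nat_lit 2754101336) (dlOf (nat_lit 1) (nat_lit 0x10002004200080c1a82)))) (.nd (nat_lit 8) 
(.lf (nat_lit 4093658200) (dlOf (nat_lit 1) (nat_lit 0x20028002901))) (.nd (nat_lit 11) 
(.lf (nat_lit 6308250968) (dlOf (nat_lit 1) (nat_lit 0x20008003381))) 
(.lf (nat_lit 4227882328) (dlOf (nat_lit 1) (nat_lit 0x800800040020002000800c903))))))) 
(.nd (nat_lit 28) (.nd (nat_lit 9) (.nd (nat_lit 8) 
(.lf (nat_lit 2349088856) (dlOf (nat_lit 1) (nat_lit 0x5e00080a1101))) (.nd (nat_lit 27) 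
(.lf (nat_lit 6509838680) (dlOf (nat_lit 1) (nat_lit 0xa0028154d81))) 
(.lf (nat_lit 3959701848) (dlOf (nat_lit 2) (nat_lit 0x1400a00020018124e00))))) (.nd (nat_lit 10) 
(.lf (nat_lit 537680728) (dlOf (nat_lit 1) (nat_lit 0x14004002200080fbc82))) (.nd (nat_lit 11) 
(.lf (nat_lit 280408) (dlOf (nat_lit 1) (nat_lit 0x20028003f81))) 
(.lf (nat_lit 19681112) (dlOf (nat_lit 1) (nat_lit 0x8002000400089d7782)))))) (.nd (nat_lit 20) 
(.nd (nat_lit 26) (.lf (nat_lit 402931800) (dlOf (nat_lit 1) (nat_lit 0x200180b0701))) 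
(.nd (nat_lit 31) (.lf (nat_lit 335822936) (dlOf (nat_lit 1) (nat_lit 0x200180b0701))) 
(.lf (nat_lit 2483306584) (dlOf (nat_lit 1) (nat_lit 0x5e00080a1101))))) (.nd (nat_lit 9) 
(.nd (nat_lit 10) (.lf (nat_lit 1346125912) (dlOf (nat_lit 2) (nat_lit 0x1e00000013018e60800))) 
(.lf (nat_lit 473187416) (dlOf (nat_lit 2) (nat_lit 0x1411a000470200020018d72901)))) 
(.lf (nat_lit 1007962712) (dlOf (nat_lit 1) (nat_lit 0x200188c5301))))))) (.nd (nat_lit 9) 
(.nd (nat_lit 26) (.nd (nat_lit 18) (.nd (nat_lit 11) (.nd (nat_lit 23) 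
(.lf (nat_lit 1346388184) (dlOf (nat_lit 2) (nat_lit 0x303680002c02007c0018f60981))) 
(.lf (nat_lit 46153944) (dlOf (nat_lit 2) (nat_lit 0x1d5980000004002000200100009380982)))) 
(.lf (nat_lit 8931544) (dlOf (nat_lit 1) (nat_lit 0x79400402f60008514a82)))) (.nd (nat_lit 21) 
(.nd (nat_lit 10) 
(.lf (nat_lit 4563681496) (dlOf (nat_lit 2) (nat_lit 0x1005000034040020002000e00080c1c02))) 
(.lf (nat_lit 3624160472) (dlOf (nat_lit 1) (nat_lit 0x30008003800200140008146483)))) 
(.nd (nat_lit 12) (.lf (nat_lit 2375896) (dlOf (nat_lit 2) (nat_lit 0x1cbf50011b818150480))) 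
(.lf (nat_lit 19681496) (dlOf (nat_lit 1) (nat_lit 0x400289d8081)))))) (.nd (nat_lit 11) 
(.nd (nat_lit 8) 
(.lf (nat_lit 604000472) (dlOf (nat_lit 1) (nat_lit 0x20008000400200020008008083))) 
(.nd (nat_lit 18) (.lf (nat_lit 604520920) (dlOf (nat_lit 1) (nat_lit 0x5c00082e7b01))) 
(.lf (nat_lit 6509838808) (dlOf (nat_lit 1) (nat_lit 0x280080074002000e0008157103))))) 
(.nd (nat_lit 8) (.lf (nat_lit 4227882200) (dlOf (nat_lit 1) (nat_lit 0x2001800c401))) 
(.nd (nat_lit 10) 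
(.lf (nat_lit 2751486424) (dlOf (nat_lit 2) (nat_lit 0x110a802c3c08017800800180020034000800b283))) 
(.lf (nat_lit 4227878360) (dlOf (nat_lit 1) (nat_lit 0x180080008002000c0008006d83))))))) 
(.nd (nat_lit 18) (.nd (nat_lit 26) (.nd (nat_lit 12) 
(.lf (nat_lit 5771381720) (dlOf (nat_lit 1) (nat_lit 0x400400020008005e02))) 
(.lf (nat_lit 2952813528) (dlOf (nat_lit 1) (nat_lit 0x10c00400f2000800bf02)))) (.nd (nat_lit 11) 
(.lf (nat_lit 5435835352) (dlOf (nat_lit 1) (nat_lit 0x9800800a0002005e0008002883))) 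
(.nd (nat_lit 30) (.lf (nat_lit 5301619672) (dlOf (nat_lit 2) (nat_lit 0xe03e00009018005e00))) 
(.lf (nat_lit 2080394200) (dlOf (nat_lit 1) (nat_lit 0x20018005e01)))))) (.nd (nat_lit 10) 
(.nd (nat_lit 12) (.nd (nat_lit 29) 
(.lf (nat_lit 5570317272) (dlOf (nat_lit 1) (nat_lit 0x400280d5e01))) 
(.lf (nat_lit 738479064) (dlOf (nat_lit 1) (nat_lit 0xe0028095e01)))) 
(.lf (nat_lit 19684312) (dlOf (nat_lit 1) (nat_lit 0x4002001200089dbf02)))) (.nd (nat_lit 11) 
(.lf (nat_lit 1410095064) (dlOf (nat_lit 1) (nat_lit 0x200280fa601))) 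
(.lf (nat_lit 67915736) (dlOf (nat_lit 2) (nat_lit 0x10000014b4040034002002a0008337a82))))))))) 
(.nd (nat_lit 6) (.nd (nat_lit 19) (.nd (nat_lit 18) (.nd (nat_lit 8) (.nd (nat_lit 9) 
(.nd (nat_lit 20) (.nd (nat_lit 10) (.nd (nat_lit 21) 
(.lf (nat_lit 3825287192) (dlOf (nat_lit 1) (nat_lit 0x200080b0001))) 
(.lf (nat_lit 14762008) (dlOf (nat_lit 2) (nat_lit 0x5c92b000f5018770080)))) 
(.lf (nat_lit 6710971416) (dlOf (nat_lit 1) (nat_lit 0x60008002800200360008006003)))) 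
(.nd (nat_lit 21) 
(.lf (nat_lit 470892568) (dlOf (nat_lit 1) (nat_lit 0x80080004002000200081d0483))) 
(.lf (nat_lit 28393496) (dlOf (nat_lit 1) (nat_lit 0x90002000c0008d90402))))) (.nd (nat_lit 12) 
(.nd (nat_lit 10) (.lf (nat_lit 2818656792) (dlOf (nat_lit 1) (nat_lit 0x200280d5081))) 
(.lf (nat_lit 4899030552) (dlOf (nat_lit 1) (nat_lit 0x400400020008053702)))) (.nd (nat_lit 27) 
(.lf (nat_lit 4362164760) (dlOf (nat_lit 10) (nat_lit 0xb019802ff00800580cc017f604004806600bfa02001a033005fc810012019802ca80800380cc0165204003006600b280200220330059381000101980000008040800800100020058000800b283))) 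
(.lf (nat_lit 469850648) (dlOf (nat_lit 3) (nat_lit 0x1b1078030440800307b8017f8040004004000c000800b282)))))) 
(.nd (nat_lit 10) (.nd (nat_lit 29) (.nd (nat_lit 21) 
(.lf (nat_lit 6509642008) (dlOf (nat_lit 3) (nat_lit 0x40000011b0100070000008600800100080010002000200080b0483))) 
(.lf (nat_lit 10567960) (dlOf (nat_lit 1) (nat_lit 0x2f400285f7f01)))) (.nd (nat_lit 28) 
(.lf (nat_lit 5905662232) (dlOf (nat_lit 1) (nat_lit 0x200280b0481))) 
(.lf (nat_lit 805388568) (dlOf (nat_lit 1) (nat_lit 0x1000200020008090482))))) (.nd (nat_lit 9) 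
(.nd (nat_lit 20) 
(.lf (nat_lit 1275151640) (dlOf (nat_lit 1) (nat_lit 0x8008000400200020008093083))) 
(.lf (nat_lit 43074840) (dlOf (nat_lit 1) (nat_lit 0x10004001000092a3082)))) 
(.lf (nat_lit 671172376) (dlOf (nat_lit 1) (nat_lit 0x20028143c81)))))) (.nd (nat_lit 31) 
(.nd (nat_lit 21) (.nd (nat_lit 20) (.nd (nat_lit 24) 
(.lf (nat_lit 1543847960) (dlOf (nat_lit 44) (nat_lit 0x24c04a009a022005400f8034004c00580000068a0a01a40250034481004a0128010008800d1008015804a006870201360250016011001a1010066809401c40440066904019e02500710110019a010069009401c40440066404019e025007001100197810038009400cba04013004a0065c020142025003401100196c1001d809400c8c04015004a006450201c2025003058100ef01280180408066809400bf404034804a005f50201a4025002f88100d20128017a408069009400b6804034804a005b20201a4025002d88100d10128016ac0803a009400b4204031404a0059702018a025002cb0100da01280164808037009400b1604016004a0058a0200ee025002c401005b01280161c0803b809400b0c0400c80000058302014e02e00c3015801980a0000404a001000c001f005804f001c00400080057810009002e00680158015c81000300b8012804a004000400a802b001f601003c012800f84080330094007c004008c04a003de020024025001ee810010012800f5c0802300080a8800200240008190483)))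 
(.lf (nat_lit 17121304) (dlOf (nat_lit 1) (nat_lit 0x4002000200088e0002)))) 
(.lf (nat_lit 22364184) (dlOf (nat_lit 1) (nat_lit 0x36000401e80008ad0482)))) (.nd (nat_lit 9) 
(.nd (nat_lit 7) (.lf (nat_lit 16072728) (dlOf (nat_lit 1) (nat_lit 0x20028860481))) 
(.lf (nat_lit 11878552) (dlOf (nat_lit 1) (nat_lit 0x200186c0181)))) (.nd (nat_lit 8) 
(.lf (nat_lit 41239064) (dlOf (nat_lit 1) (nat_lit 0x20029227e81))) 
(.lf (nat_lit 20272920) (dlOf (nat_lit 1) (nat_lit 0x200089da001)))))) (.nd (nat_lit 27) 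
(.nd (nat_lit 7) (.nd (nat_lit 28) 
(.lf (nat_lit 3221569560) (dlOf (nat_lit 1) (nat_lit 0x20018140481))) 
(.lf (nat_lit 2416263192) (dlOf (nat_lit 1) (nat_lit 0xa000180c0a81)))) 
(.lf (nat_lit 3490007448) (dlOf (nat_lit 1) (nat_lit 0x400200020008004e82)))) (.nd (nat_lit 26) 
(.nd (nat_lit 28) 
(.lf (nat_lit 3892658200) (dlOf (nat_lit 6) (nat_lit 0x6300a202a404f000f68200e70288060013c003d80809940a2045604f000f58200ad02a000d0144006c09e014804c00a602500510118021006601420310169012005b008802b003a013e01b00b100b004c8050029400a001ea1e000a051000e8818180080))) 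
(.lf (nat_lit 2550480920) (dlOf (nat_lit 1) (nat_lit 0xa000180c0a81)))) (.nd (nat_lit 28) 
(.lf (nat_lit 3959767064) (dlOf (nat_lit 1) (nat_lit 0x20018140481))) 
(.lf (nat_lit 3154460696) (dlOf (nat_lit 10) (nat_lit 0x12205401c602880e4813c018809800b204a009201980798090038004400ea01d009e00b004c8050003fe2c022c0a8011a033008b012004600880020036011a016008900a0007f8380a18150085c0a2043804f019e026008f8128050c0660340024018d01100180074010c03601fe019013e00b009d8050003fa340c0c0a8060a03301a400e819680580ca0028001fc0a00560540021019802b8088003f60c002802c0006014000fa82004d02a00038050003dc0800680a8020e051007b026001a00cc01d4048000201d003200b00079c3800b80cc003cc04004c002001a00081a0082)))))))) 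
(.nd (nat_lit 26) (.nd (nat_lit 21) (.nd (nat_lit 27) (.nd (nat_lit 29) (.nd (nat_lit 20) 
(.lf (nat_lit 42549272) (dlOf (nat_lit 5) (nat_lit 0x1ce82001fd020004741000fe0100073a080079c080011d04003cc0400b000400020009260082))) 
(.lf (nat_lit 5849112) (dlOf (nat_lit 1) (nat_lit 0x18004000c00183f0482)))) (.nd (nat_lit 28) 
(.lf (nat_lit 537477144) (dlOf (nat_lit 1) (nat_lit 0x168008004c002006200080a0903))) 
(.lf (nat_lit 805912600) (dlOf (nat_lit 1) (nat_lit 0x480080004002000200081e0903))))) 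
(.nd (nat_lit 18) (.nd (nat_lit 28) 
(.lf (nat_lit 3892920344) (dlOf (nat_lit 2) (nat_lit 0x90064000460400ac004001a0008290902))) 
(.lf (nat_lit 5771968536) (dlOf (nat_lit 1) (nat_lit 0x40008004000200120008020083)))) 
(.lf (nat_lit 2819440664) (dlOf (nat_lit 1) (nat_lit 0x10008001400200060008290483))))) 
(.nd (nat_lit 7) (.nd (nat_lit 8) (.nd (nat_lit 18) 
(.lf (nat_lit 6897688) (dlOf (nat_lit 1) (nat_lit 0x18004000c0018480482))) 
(.lf (nat_lit 11354136) (dlOf (nat_lit 1) (nat_lit 0x340008690401)))) 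
(.lf (nat_lit 58278168) (dlOf (nat_lit 1) (nat_lit 0x4004000200197d7502)))) (.nd (nat_lit 10) 
(.lf (nat_lit 23675032) (dlOf (nat_lit 1) (nat_lit 0x20018b80181))) 
(.lf (nat_lit 41763992) (dlOf (nat_lit 1) (nat_lit 0x80009242b81)))))) (.nd (nat_lit 27) 
(.nd (nat_lit 28) (.nd (nat_lit 29) 
(.lf (nat_lit 4362682392) (dlOf (nat_lit 1) (nat_lit 0x2000180d0901))) 
(.lf (nat_lit 1678327832) (dlOf (nat_lit 1) (nat_lit 0x480080004002000200081e0903)))) 
(.nd (nat_lit 18) 
(.lf (nat_lit 1409892376) (dlOf (nat_lit 1) (nat_lit 0x168008004c002006200080a0903))) 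
(.lf (nat_lit 3557638168) (dlOf (nat_lit 1) (nat_lit 0x10008001400200060008290483))))) 
(.nd (nat_lit 20) (.nd (nat_lit 31) 
(.lf (nat_lit 6375948312) (dlOf (nat_lit 1) (nat_lit 0x40008004000200120008020083))) 
(.lf (nat_lit 4228464664) (dlOf (nat_lit 1) (nat_lit 0x2000180d0901)))) 
(.lf (nat_lit 471416856) (dlOf (nat_lit 1) (nat_lit 0x4002000200082f0902))))))) (.nd (nat_lit 7) 
(.nd (nat_lit 28) (.nd (nat_lit 18) (.nd (nat_lit 24) (.nd (nat_lit 26) (.nd (nat_lit 8) 
(.nd (nat_lit 29) (.lf (nat_lit 3221307480) (dlOf (nat_lit 1) (nat_lit 0x20018090001))) 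
(.lf (nat_lit 1610694744) (dlOf (nat_lit 1) (nat_lit 0x40028090001)))) 
(.lf (nat_lit 2818655576) (dlOf (nat_lit 1) (nat_lit 0x200280d3381)))) (.nd (nat_lit 19) 
(.lf (nat_lit 3959504984) (dlOf (nat_lit 1) (nat_lit 0x20018090001))) 
(.lf (nat_lit 201932888) (dlOf (nat_lit 1) (nat_lit 0x8004000200180c1a82))))) (.nd (nat_lit 9) 
(.nd (nat_lit 8) (.lf (nat_lit 16859224) (dlOf (nat_lit 1) (nat_lit 0x1200188e0381))) 
(.lf (nat_lit 23675224) (dlOf (nat_lit 1) (nat_lit 0x400400020008b80682)))) (.nd (nat_lit 20) 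
(.lf (nat_lit 58804824) (dlOf (nat_lit 1) (nat_lit 0x200097e5301))) 
(.lf (nat_lit 32590424) (dlOf (nat_lit 1) (nat_lit 0x40018ef5301)))))) (.nd (nat_lit 19) 
(.nd (nat_lit 9) (.nd (nat_lit 20) 
(.lf (nat_lit 29704280) (dlOf (nat_lit 1) (nat_lit 0x240028e30381))) 
(.lf (nat_lit 9781336) (dlOf (nat_lit 3) (nat_lit 0xb89e0000a60400640000003302003c0008580601)))) 
(.lf (nat_lit 45435480) (dlOf (nat_lit 12) (nat_lit 0xccea000140100e8718802c33a80004c0800099d40001f020036cea0000e8100057188004b3a8000340800159d40001902012ce3100136750000601000133a8000200400099d40000d020132e3100002810055000000000080030008008400200920009325303)))) 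
(.nd (nat_lit 10) (.lf (nat_lit 69025880) (dlOf (nat_lit 1) (nat_lit 0x8008000400200020008880803))) 
(.lf (nat_lit 34423896) (dlOf (nat_lit 1) (nat_lit 0xc0028fb2901)))))) (.nd (nat_lit 18) 
(.nd (nat_lit 30) (.nd (nat_lit 26) 
(.lf (nat_lit 4563485016) (dlOf (nat_lit 1) (nat_lit 0x210004008e0008090d82))) (.nd (nat_lit 31) 
(.lf (nat_lit 335626584) (dlOf (nat_lit 1) (nat_lit 0x20028090d81))) 
(.lf (nat_lit 2483110232) (dlOf (nat_lit 1) (nat_lit 0x540008014d81))))) (.nd (nat_lit 8) 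
(.lf (nat_lit 4095295576) (dlOf (nat_lit 2) (nat_lit 0x408600019018090600))) (.nd (nat_lit 10) 
(.lf (nat_lit 1476477272) (dlOf (nat_lit 2) (nat_lit 0x400e0000002006c0008010881))) 
(.lf (nat_lit 4227943768) (dlOf (nat_lit 1) (nat_lit 0x20018006a81)))))) (.nd (nat_lit 26) 
(.nd (nat_lit 8) (.nd (nat_lit 27) 
(.lf (nat_lit 4563746904) (dlOf (nat_lit 2) (nat_lit 0x570060024602901900138078006c00064100090004009600080d0602))) 
(.lf (nat_lit 4697964632) (dlOf (nat_lit 2) (nat_lit 0x570060024602901900138078006c00066100090004009600080d0602)))) 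
(.lf (nat_lit 2953134424) (dlOf (nat_lit 2) (nat_lit 0x9000000858080020008002c002001e0008160883)))) 
(.nd (nat_lit 8) (.nd (nat_lit 10) 
(.lf (nat_lit 3154460760) (dlOf (nat_lit 1) (nat_lit 0x44002001600081a0802))) 
(.lf (nat_lit 4093985880) (dlOf (nat_lit 1) (nat_lit 0x400400020008002902)))) 
(.lf (nat_lit 3691331928) (dlOf (nat_lit 1) (nat_lit 0x1480008160881))))))) (.nd (nat_lit 26) 
(.nd (nat_lit 27) (.nd (nat_lit 20) (.nd (nat_lit 8) (.nd (nat_lit 11) 
(.lf (nat_lit 25510104) (dlOf (nat_lit 2) (nat_lit 0x480000000004002400200340008c10582))) 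
(.lf (nat_lit 4026616024) (dlOf (nat_lit 2) (nat_lit 0x3406a0003b0200020018004a81)))) 
(.lf (nat_lit 46222296) (dlOf (nat_lit 1) (nat_lit 0xa0019385e01)))) (.nd (nat_lit 9) 
(.nd (nat_lit 18) (.lf (nat_lit 3227864) (dlOf (nat_lit 1) (nat_lit 0x68008002800200100008200483))) 
(.lf (nat_lit 3490008) (dlOf (nat_lit 3) (nat_lit 0x268fe001c2745000b982004b3a28002500800680080080002003a0008200483)))) 
(.lf (nat_lit 20535000) (dlOf (nat_lit 1) (nat_lit 0x18004000c00089da002))))) (.nd (nat_lit 28) 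
(.nd (nat_lit 10) (.lf (nat_lit 6576750808) (dlOf (nat_lit 1) (nat_lit 0x5000280b0481))) 
(.lf (nat_lit 3355530456) (dlOf (nat_lit 1) (nat_lit 0x200280a9501)))) (.nd (nat_lit 31) 
(.lf (nat_lit 939606232) (dlOf (nat_lit 25) (nat_lit 0x2940000023d020026027041b01201f6007c100803400cc01202b00068002001400400000023c1001180000011d0100160090008c8080460000004600402fc0000022f02011e000001168100890000008b00806800000045604023000000224020118000001118100360000008500804600000041604016c000002090200020000010001008b0000007fc080460000003fc04022c000001fa0200f4000000f981008b0000007c8080368000003e204008c000001f0020118000000f78100030000000000803b0008145c002168400080b0483))) 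
(.lf (nat_lit 3087089880) (dlOf (nat_lit 10) (nat_lit 0x4700d8037805c003a408024c03e00da01b009b00b806f8000003a210018403e006a01b003700b80073c18021007c00cc02e001c904007001f000a00d8001005c002e60c03cc000000810201b40000004001002f00f80000c08002006c003c02e0000004046600180b0481)))))) 
(.nd (nat_lit 27) (.nd (nat_lit 28) (.nd (nat_lit 30) 
(.lf (nat_lit 604061912) (dlOf (nat_lit 1) (nat_lit 0x400400020008010582))) (.nd (nat_lit 31) 
(.lf (nat_lit 5972771032) (dlOf (nat_lit 1) (nat_lit 0x5000280b0481))) 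
(.lf (nat_lit 3825287384) (dlOf (nat_lit 10) (nat_lit 0x4700d8037805c003a408024c03e00da01b009b00b806f8000003a210018403e006a01b003700b80073c18021007c00cc02e001c904007001f000a00d8001005c002e20c03cc000000810201b40000004001002f00f80001c08002006c003c02e0000004046600180b0481))))) 
(.nd (nat_lit 10) 
(.lf (nat_lit 6241468632) (dlOf (nat_lit 1) (nat_lit 0xd00080044002004400080f1c03))) 
(.lf (nat_lit 1409371352) (dlOf (nat_lit 1) (nat_lit 0x10008000800200020008006483))))) 
(.nd (nat_lit 11) (.nd (nat_lit 18) 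
(.lf (nat_lit 1812021464) (dlOf (nat_lit 25) (nat_lit 0x2940000023d020026027041b01201f6007c100803400cc01202b00068002001400400000023c1001180000011d0100160090008c8080460000004600402fc0000022f02011e000001168100890000008b0080680000004560400d8000002240201180000011001008c00000087c0804600000041e04016c00000208020116000001000100010000007fc080460000003fc04022c000001fc020116000000f981007a0000007c8080368000003e204008c000001f0020118000000f78100030000000000803b0008145c002168400080b0483))) 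
(.lf (nat_lit 6377259224) (dlOf (nat_lit 1) (nat_lit 0x80080004002008c00080c1c03)))) 
(.nd (nat_lit 9) (.lf (nat_lit 201410776) (dlOf (nat_lit 1) (nat_lit 0x58002000e0008004a82))) 
(.lf (nat_lit 6377523928) (dlOf (nat_lit 1) (nat_lit 0x80080004002000200080e5903))))))))))) 
(.nd (nat_lit 16) (.nd (nat_lit 3) (.nd (nat_lit 8) (.nd (nat_lit 18) (.nd (nat_lit 11) 
(.nd (nat_lit 19) (.nd (nat_lit 22) (.nd (nat_lit 10) (.nd (nat_lit 24) 
(.lf (nat_lit 470827056) (dlOf (nat_lit 1) (nat_lit 0x80080004002000200081c0703))) 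
(.lf (nat_lit 17842224) (dlOf (nat_lit 3) (nat_lit 0x27c0000000f020076000000038188f0e80)))) 
(.nd (nat_lit 7) (.lf (nat_lit 1476416560) (dlOf (nat_lit 1) (nat_lit 0x10004000c0018009202))) 
(.lf (nat_lit 472925360) (dlOf (nat_lit 1) (nat_lit 0x1c0028b52c01))))) (.nd (nat_lit 6) 
(.nd (nat_lit 7) (.lf (nat_lit 13647920) (dlOf (nat_lit 1) (nat_lit 0x400200020008740682))) 
(.lf (nat_lit 47202480) (dlOf (nat_lit 1) (nat_lit 0x34004003200093b1602)))) (.nd (nat_lit 20) 
(.lf (nat_lit 1346388080) (dlOf (nat_lit 10) (nat_lit 0x6024800380fe0004e040008092000403f80013410000824800100fe00043040006092000503f80010810002024800140fe0003e040008092000503f8000f010002024800200fe0003b04000c092000703f8000dc1000201fc0006604003400200100008f60182))) 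
(.lf (nat_lit 38813808) (dlOf (nat_lit 1) (nat_lit 0xec00200520009162482)))))) (.nd (nat_lit 26) 
(.nd (nat_lit 27) (.nd (nat_lit 21) 
(.lf (nat_lit 55066672) (dlOf (nat_lit 13) (nat_lit 0x204c6000b26280009310004c97800644ba00071850023263001112f0004894e00060000007104000c25380018000001c008001c98c00024bc00072538002681800293180012a04001098c00044bc00046020006263000224080029318000f404000c98c000790200084c60003c0100092630001dc080059318001898a001c4c4003d25d0001d820077800801ac002017800096a0d03))) 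
(.lf (nat_lit 3492298800) (dlOf (nat_lit 7) (nat_lit 0x88d0000640400044680003002003a23400380f18000b810012078c0005a04008846800821e30001582000511a0000a40800180080024002002600080c0e83)))) 
(.nd (nat_lit 28) 
(.lf (nat_lit 2819113008) (dlOf (nat_lit 6) (nat_lit 0x580000001501000201b80009c0801001a000a80ca0034046002d0228014008400f40000001d0c002e000000020100010340000819400280c8000a045000201000000028002000802fc002001a00081a0703))) 
(.lf (nat_lit 3624419376) (dlOf (nat_lit 1) (nat_lit 0x11c00401a000081a0602))))) (.nd (nat_lit 21) 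
(.nd (nat_lit 27) 
(.lf (nat_lit 3557310512) (dlOf (nat_lit 1) (nat_lit 0x600080098002001200081c0703))) 
(.lf (nat_lit 2886221872) (dlOf (nat_lit 1) (nat_lit 0x11c00401a000081a0602)))) 
(.lf (nat_lit 2754101296) (dlOf (nat_lit 8) (nat_lit 0xb8930000640400f84980003102005024c000180100110fa8000b40801e89300005604018449800181f5000150200191260000a40800a00080028002000200080c0f83)))))) 
(.nd (nat_lit 9) (.nd (nat_lit 7) (.nd (nat_lit 12) (.nd (nat_lit 26) 
(.lf (nat_lit 805324912) (dlOf (nat_lit 1) (nat_lit 0x400400020008004782))) 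
(.lf (nat_lit 1543522416) (dlOf (nat_lit 2) (nat_lit 0xa00000006804007800200160008004782)))) 
(.nd (nat_lit 6) 
(.lf (nat_lit 4362098736) (dlOf (nat_lit 1) (nat_lit 0x9000800ec002006e000800a603))) 
(.lf (nat_lit 8412272) (dlOf (nat_lit 1) (nat_lit 0x40020006000851c102))))) (.nd (nat_lit 28) 
(.nd (nat_lit 20) 
(.lf (nat_lit 3288353968) (dlOf (nat_lit 1) (nat_lit 0x80080068002000c0008006283))) 
(.lf (nat_lit 2754628784) (dlOf (nat_lit 3) (nat_lit 0x381000003204000c0800001602000200180f6281)))) 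
(.nd (nat_lit 26) (.lf (nat_lit 2550156464) (dlOf (nat_lit 1) (nat_lit 0x400400020008006282))) 
(.lf (nat_lit 2483047600) (dlOf (nat_lit 1) (nat_lit 0x10008000c00200040008006283)))))) 
(.nd (nat_lit 10) (.nd (nat_lit 6) (.nd (nat_lit 19) 
(.lf (nat_lit 45107760) (dlOf (nat_lit 1) (nat_lit 0x400200060009325182))) 
(.lf (nat_lit 1346914864) (dlOf (nat_lit 1) (nat_lit 0x80080004002000200090a5183)))) 
(.lf (nat_lit 6377458416) (dlOf (nat_lit 1) (nat_lit 0x200180e5a01)))) (.nd (nat_lit 28) 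
(.lf (nat_lit 671108656) (dlOf (nat_lit 3) (nat_lit 0xc50160053807402fc030016601000c30040019801402bc004018c0000002c0800ba0160002008c02fc03a017001800bb008005d802000cc00a017600200bc00000015c480040008001c002000c0008007183))) 
(.nd (nat_lit 31) (.lf (nat_lit 939544112) (dlOf (nat_lit 2) (nat_lit 0x120000006e018007180))) 
(.lf (nat_lit 3087027760) (dlOf (nat_lit 1) (nat_lit 0x8008000400200020008007183)))))))) 
(.nd (nat_lit 19) (.nd (nat_lit 28) (.nd (nat_lit 30) (.nd (nat_lit 6) (.nd (nat_lit 20) 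
(.nd (nat_lit 21) 
(.lf (nat_lit 671367216) (dlOf (nat_lit 6) (nat_lit 0xcc028000138100180140000680803f80a00003204015c050000170200cc02800000018170c80))) 
(.lf (nat_lit 44318768) (dlOf (nat_lit 4) (nat_lit 0x98b4001c604001cc5a00025af0007102000531f0002989c000f60800e8004000200092f0d02)))) 
(.lf (nat_lit 30687280) (dlOf (nat_lit 7) (nat_lit 0x1674690001f810040a348000f408009d1a40006c0400300000000f02001920000003810007a34800000080008008002800200140008e40e83)))) 
(.nd (nat_lit 20) 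
(.lf (nat_lit 2349088880) (dlOf (nat_lit 1) (nat_lit 0x170008007c002000e00080a1583))) 
(.lf (nat_lit 62144624) (dlOf (nat_lit 1) (nat_lit 0x1280080034002000e0009960d03))))) 
(.nd (nat_lit 9) (.nd (nat_lit 7) 
(.lf (nat_lit 3825483824) (dlOf (nat_lit 1) (nat_lit 0x20008170c81))) 
(.lf (nat_lit 3288613040) (dlOf (nat_lit 3) (nat_lit 0x30120000980800200900001004000800400020008090302)))) 
(.nd (nat_lit 26) (.nd (nat_lit 31) 
(.lf (nat_lit 1074020912) (dlOf (nat_lit 1) (nat_lit 0x8008000400200020008090f03))) 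
(.lf (nat_lit 3221504560) (dlOf (nat_lit 1) (nat_lit 0x1000200040008128002)))) 
(.lf (nat_lit 3959702064) (dlOf (nat_lit 1) (nat_lit 0x400400020018128b02)))))) (.nd (nat_lit 7) 
(.nd (nat_lit 26) (.nd (nat_lit 29) 
(.lf (nat_lit 1476673584) (dlOf (nat_lit 1) (nat_lit 0x2a0018100981))) 
(.lf (nat_lit 3087286320) (dlOf (nat_lit 1) (nat_lit 0x20008170c81)))) (.nd (nat_lit 6) 
(.nd (nat_lit 9) 
(.lf (nat_lit 1543782448) (dlOf (nat_lit 6) (nat_lit 0xcc028000130100180140000680803f80a00003204015c050000170200cc02800000018170c80))) 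
(.lf (nat_lit 1946436144) (dlOf (nat_lit 1) (nat_lit 0x8008000400200020008090f03)))) 
(.lf (nat_lit 2483306608) (dlOf (nat_lit 1) (nat_lit 0x170008007c002000e00080a1583))))) 
(.nd (nat_lit 29) (.nd (nat_lit 27) 
(.lf (nat_lit 4563681456) (dlOf (nat_lit 5) (nat_lit 0x1002a00080120000702000600a800300480001a08001402a000c0120000602000200a80020048000160800a4004009200080c1602))) 
(.lf (nat_lit 4697899184) (dlOf (nat_lit 2) (nat_lit 0x30014800900840424026021401000c90038000c828021000813c0002009e00080c1603)))) 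
(.nd (nat_lit 26) 
(.lf (nat_lit 4026810544) (dlOf (nat_lit 3) (nat_lit 0x30120000980800200900001004000800400020008090302))) 
(.lf (nat_lit 5167661232) (dlOf (nat_lit 1) (nat_lit 0xba00280f1601))))))) (.nd (nat_lit 20) 
(.nd (nat_lit 25) (.nd (nat_lit 26) (.nd (nat_lit 23) (.nd (nat_lit 28) 
(.lf (nat_lit 2900016) (dlOf (nat_lit 2) (nat_lit 0x1a04d0002b0181d0680))) 
(.lf (nat_lit 3492560944) (dlOf (nat_lit 1) (nat_lit 0x8002000800080e0682)))) 
(.lf (nat_lit 11288624) (dlOf (nat_lit 2) (nat_lit 0x1158c000cabe0016504000e0008680d81)))) 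
(.nd (nat_lit 21) (.lf (nat_lit 470564912) (dlOf (nat_lit 1) (nat_lit 0x20018120f81))) 
(.lf (nat_lit 2754363440) (dlOf (nat_lit 1) (nat_lit 0x8002000800080e0682))))) (.nd (nat_lit 7) 
(.lf (nat_lit 36454448) (dlOf (nat_lit 1) (nat_lit 0x20029070001))) 
(.lf (nat_lit 36455600) (dlOf (nat_lit 1) (nat_lit 0x1000400040009072c02))))) (.nd (nat_lit 24) 
(.nd (nat_lit 9) (.nd (nat_lit 26) 
(.lf (nat_lit 5773213744) (dlOf (nat_lit 4) (nat_lit 0x1027c002370200161310011301000109880081c0800280080040002001000080b0483))) 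
(.lf (nat_lit 6377193520) (dlOf (nat_lit 4) (nat_lit 0x1026200237020016122001130100010910008240800280080040002001000080b0483)))) 
(.lf (nat_lit 1851952) (dlOf (nat_lit 3) (nat_lit 0x20f8800185d0002815e000c0a30000a8400030518000000801d8008002000200060008150f03)))) 
(.nd (nat_lit 21) (.nd (nat_lit 22) 
(.lf (nat_lit 27017264) (dlOf (nat_lit 6) (nat_lit 0x20ec2805400000006e0800380000003602001e0000001a81000c0000000d00800300000000004000c00400520018ca0702))) 
(.lf (nat_lit 22822960) (dlOf (nat_lit 1) (nat_lit 0x3000400020018b30682)))) 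
(.lf (nat_lit 29114416) (dlOf (nat_lit 1) (nat_lit 0x400200020008dc0b82)))))))) (.nd (nat_lit 7) 
(.nd (nat_lit 28) (.nd (nat_lit 18) (.nd (nat_lit 23) (.nd (nat_lit 29) (.nd (nat_lit 25) 
(.lf (nat_lit 3288353136) (dlOf (nat_lit 1) (nat_lit 0x40028004e81))) 
(.lf (nat_lit 33573232) (dlOf (nat_lit 1) (nat_lit 0x38800400300008f54e82)))) (.nd (nat_lit 6) 
(.lf (nat_lit 2751482160) (dlOf (nat_lit 1) (nat_lit 0x20028004b81))) 
(.lf (nat_lit 2754627952) (dlOf (nat_lit 1) (nat_lit 0x20004000600080f4e82))))) (.nd (nat_lit 6) 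
(.lf (nat_lit 8406832) (dlOf (nat_lit 1) (nat_lit 0x20028513d81))) (.nd (nat_lit 11) 
(.lf (nat_lit 47202672) (dlOf (nat_lit 1) (nat_lit 0x50008001c002001000093b5803))) 
(.lf (nat_lit 46680432) (dlOf (nat_lit 1) (nat_lit 0x20019384e81)))))) (.nd (nat_lit 19) 
(.nd (nat_lit 22) (.nd (nat_lit 11) 
(.lf (nat_lit 52707696) (dlOf (nat_lit 1) (nat_lit 0x60029570f81))) 
(.lf (nat_lit 738478448) (dlOf (nat_lit 1) (nat_lit 0x60018094e81)))) (.nd (nat_lit 20) 
(.lf (nat_lit 54806896) (dlOf (nat_lit 1) (nat_lit 0x14004000a0009654e82))) 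
(.lf (nat_lit 39078256) (dlOf (nat_lit 1) (nat_lit 0x8008000c00200020009194e83))))) 
(.nd (nat_lit 11) (.lf (nat_lit 1851760) (dlOf (nat_lit 1) (nat_lit 0x400400080018150782))) 
(.nd (nat_lit 20) (.lf (nat_lit 49039728) (dlOf (nat_lit 1) (nat_lit 0x400200020009464e82))) 
(.lf (nat_lit 41699696) (dlOf (nat_lit 1) (nat_lit 0x140029244e81))))))) (.nd (nat_lit 26) 
(.nd (nat_lit 18) (.nd (nat_lit 31) (.nd (nat_lit 6) 
(.lf (nat_lit 1342201136) (dlOf (nat_lit 1) (nat_lit 0x2000800c701))) (.nd (nat_lit 19) 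
(.lf (nat_lit 5773478256) (dlOf (nat_lit 1) (nat_lit 0x4004000200080e4e82))) 
(.lf (nat_lit 1346914672) (dlOf (nat_lit 2) (nat_lit 0x181f00167a04000c002000200090a4e82))))) 
(.nd (nat_lit 9) (.nd (nat_lit 19) 
(.lf (nat_lit 3489679728) (dlOf (nat_lit 1) (nat_lit 0x2000200060008004e82))) 
(.lf (nat_lit 3490204016) (dlOf (nat_lit 1) (nat_lit 0x400200020008004e82)))) 
(.lf (nat_lit 6710905712) (dlOf (nat_lit 1) (nat_lit 0x18008000400200020008005c03))))) 
(.nd (nat_lit 19) (.nd (nat_lit 6) 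
(.lf (nat_lit 3490988336) (dlOf (nat_lit 2) (nat_lit 0x203000000404000c00200040008047a02))) 
(.lf (nat_lit 1881426288) (dlOf (nat_lit 1) (nat_lit 0xc0018f04e81)))) (.nd (nat_lit 20) 
(.lf (nat_lit 1345079664) (dlOf (nat_lit 1) (nat_lit 0x1200289e4e81))) 
(.lf (nat_lit 1880902000) (dlOf (nat_lit 1) (nat_lit 0x20028c94e81)))))) (.nd (nat_lit 10) 
(.nd (nat_lit 21) (.nd (nat_lit 27) 
(.lf (nat_lit 6241143152) (dlOf (nat_lit 1) (nat_lit 0x800400040008004e82))) 
(.lf (nat_lit 5301619056) (dlOf (nat_lit 1) (nat_lit 0x400400120008004e82)))) 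
(.lf (nat_lit 6377458032) (dlOf (nat_lit 1) (nat_lit 0x4004000200080e4e82)))) (.nd (nat_lit 6) 
(.lf (nat_lit 469785904) (dlOf (nat_lit 1) (nat_lit 0xc0020006000800c702))) (.nd (nat_lit 9) 
(.lf (nat_lit 4227882352) (dlOf (nat_lit 2) (nat_lit 0x2001900198808026000801d80020074000800c903))) 
(.lf (nat_lit 3691009904) (dlOf (nat_lit 1) (nat_lit 0xd4000800a301)))))))) (.nd (nat_lit 11) 
(.nd (nat_lit 6) (.nd (nat_lit 9) (.nd (nat_lit 26) (.nd (nat_lit 19) 
(.lf (nat_lit 8406448) (dlOf (nat_lit 1) (nat_lit 0x400200020008513602))) 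
(.lf (nat_lit 52970928) (dlOf (nat_lit 1) (nat_lit 0xa0029573601)))) (.nd (nat_lit 10) 
(.lf (nat_lit 469782960) (dlOf (nat_lit 1) (nat_lit 0x20028008481))) 
(.lf (nat_lit 5704533424) (dlOf (nat_lit 1) (nat_lit 0x2c00280d3601))))) (.nd (nat_lit 23) 
(.lf (nat_lit 6576687024) (dlOf (nat_lit 1) (nat_lit 0x100018004381))) 
(.lf (nat_lit 8406960) (dlOf (nat_lit 1) (nat_lit 0x19400400960008514382))))) (.nd (nat_lit 19) 
(.nd (nat_lit 9) (.nd (nat_lit 10) 
(.lf (nat_lit 43008496) (dlOf (nat_lit 1) (nat_lit 0x4002000200092a1382))) 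
(.lf (nat_lit 8406512) (dlOf (nat_lit 1) (nat_lit 0x400200020008513602)))) (.nd (nat_lit 26) 
(.lf (nat_lit 5637161968) (dlOf (nat_lit 1) (nat_lit 0x1c002000a0008002882))) 
(.lf (nat_lit 4898964464) (dlOf (nat_lit 1) (nat_lit 0x400200020008002882))))) (.nd (nat_lit 18) 
(.lf (nat_lit 2752005104) (dlOf (nat_lit 1) (nat_lit 0x40018002881))) (.nd (nat_lit 20) 
(.lf (nat_lit 36455408) (dlOf (nat_lit 1) (nat_lit 0xc8002005a0009072882))) 
(.lf (nat_lit 68961264) (dlOf (nat_lit 2) (nat_lit 0x100b68009859c002c2a60060006000e0018842881))))))) 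
(.nd (nat_lit 30) (.nd (nat_lit 12) (.nd (nat_lit 6) (.nd (nat_lit 9) 
(.lf (nat_lit 39078320) (dlOf (nat_lit 1) (nat_lit 0x400200020009194e82))) 
(.lf (nat_lit 5301619632) (dlOf (nat_lit 3) (nat_lit 0x2e03e0001f81000901f0000d80800280080008002001e0008005d03)))) 
(.lf (nat_lit 20204528) (dlOf (nat_lit 1) (nat_lit 0x200289d5f01)))) (.nd (nat_lit 18) 
(.nd (nat_lit 26) (.lf (nat_lit 6442474416) (dlOf (nat_lit 1) (nat_lit 0x40040002000800bd82))) 
(.lf (nat_lit 2885704624) (dlOf (nat_lit 3) (nat_lit 0x4a80c0025405e012e02e0097016804c0068026002601280050099001004a80000029e2400080000011f020010002800bd81)))) 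
(.lf (nat_lit 2754894768) (dlOf (nat_lit 2) (nat_lit 0x60cf000a30180fbd80))))) (.nd (nat_lit 9) 
(.nd (nat_lit 6) (.nd (nat_lit 19) 
(.lf (nat_lit 1345341872) (dlOf (nat_lit 1) (nat_lit 0x20028b54e81))) 
(.lf (nat_lit 3490204080) (dlOf (nat_lit 1) (nat_lit 0x400200020008004e82)))) 
(.lf (nat_lit 1342197232) (dlOf (nat_lit 1) (nat_lit 0x60018006f01)))) (.nd (nat_lit 12) 
(.lf (nat_lit 5368728496) (dlOf (nat_lit 1) (nat_lit 0x8008000400200020008005d03))) 
(.nd (nat_lit 18) 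
(.lf (nat_lit 5972712368) (dlOf (nat_lit 1) (nat_lit 0xd000800d800200c8000800bd83))) 
(.lf (nat_lit 3490470832) (dlOf (nat_lit 1) (nat_lit 0x40040002000800bd82)))))))))) 
(.nd (nat_lit 6) (.nd (nat_lit 26) (.nd (nat_lit 28) (.nd (nat_lit 18) (.nd (nat_lit 8) 
(.nd (nat_lit 9) (.nd (nat_lit 19) (.nd (nat_lit 27) 
(.lf (nat_lit 2684371000) (dlOf (nat_lit 2) (nat_lit 0x501b805780080030008001400200040008000003))) 
(.lf (nat_lit 2281717816) (dlOf (nat_lit 1) (nat_lit 0x26e0008000001)))) (.nd (nat_lit 21) 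
(.lf (nat_lit 5906120760) (dlOf (nat_lit 1) (nat_lit 0x1000181c0701))) 
(.lf (nat_lit 48775224) (dlOf (nat_lit 1) (nat_lit 0x1c00400120009420502))))) (.nd (nat_lit 10) 
(.lf (nat_lit 36719160) (dlOf (nat_lit 1) (nat_lit 0x20019075201))) 
(.lf (nat_lit 5502944824) (dlOf (nat_lit 1) (nat_lit 0x400200020008003782))))) (.nd (nat_lit 9) 
(.nd (nat_lit 10) (.lf (nat_lit 536889656) (dlOf (nat_lit 1) (nat_lit 0x2400200080008004c02))) 
(.lf (nat_lit 8410424) (dlOf (nat_lit 1) (nat_lit 0x10008000400200020008519903)))) 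
(.nd (nat_lit 10) (.lf (nat_lit 5368728376) (dlOf (nat_lit 1) (nat_lit 0x400400020008005c02))) 
(.lf (nat_lit 8406840) (dlOf (nat_lit 1) (nat_lit 0x1b0004009c0008513e02)))))) (.nd (nat_lit 19) 
(.nd (nat_lit 7) (.nd (nat_lit 8) (.nd (nat_lit 9) 
(.lf (nat_lit 671367224) (dlOf (nat_lit 3) (nat_lit 0x801f0005081000600f8000a8080018008000400200060008170d03))) 
(.lf (nat_lit 53758520) (dlOf (nat_lit 1) (nat_lit 0x4002000200095f5202)))) 
(.lf (nat_lit 2375992) (dlOf (nat_lit 2) (nat_lit 0x70c1700406000015a9f800814da000250800060028150581)))) 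
(.nd (nat_lit 11) (.lf (nat_lit 19153080) (dlOf (nat_lit 1) (nat_lit 0x20028970481))) 
(.lf (nat_lit 280760) (dlOf (nat_lit 1) (nat_lit 0x20028004901))))) (.nd (nat_lit 10) 
(.nd (nat_lit 20) 
(.lf (nat_lit 59523128) (dlOf (nat_lit 1) (nat_lit 0x48008001400200100009800503))) 
(.lf (nat_lit 22822968) (dlOf (nat_lit 1) (nat_lit 0x80028b30d81)))) (.nd (nat_lit 7) 
(.lf (nat_lit 8144440) (dlOf (nat_lit 1) (nat_lit 0x19c0018513781))) 
(.lf (nat_lit 8144312) (dlOf (nat_lit 1) (nat_lit 0x400200020008513602))))))) (.nd (nat_lit 7) 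
(.nd (nat_lit 18) (.nd (nat_lit 19) (.nd (nat_lit 10) 
(.lf (nat_lit 2013282360) (dlOf (nat_lit 1) (nat_lit 0x20018000001))) 
(.lf (nat_lit 2550156344) (dlOf (nat_lit 1) (nat_lit 0x1a0028006081)))) (.nd (nat_lit 27) 
(.lf (nat_lit 805847096) (dlOf (nat_lit 10) (nat_lit 0x500a4000460200120520001f8100110290000ec0801c015005bc0a403ba0450124021809a80f007cc05a023c02c012000e00b7005c0080000000361403c602d015b00b80005c100038148007005a000150402ec02d018800b80004c1002780b4000140400c40a8036602d010f0160080803c000001002cc004006600181c0b02))) 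
(.lf (nat_lit 3624419384) (dlOf (nat_lit 2) (nat_lit 0x18902080153c080db8008039c002021a00081a0703))))) 
(.nd (nat_lit 8) (.nd (nat_lit 19) 
(.lf (nat_lit 805584952) (dlOf (nat_lit 1) (nat_lit 0x1000400020008130702))) 
(.lf (nat_lit 5773213752) (dlOf (nat_lit 16) (nat_lit 0x7a04c40043e04031827c01f4131001090200ea098802f04c00040c08002827c00a2131001018200c309f007404c401782600020206018613e010b0988007b0100c084fc0774264000b104031213f01e00990001f81008084fc06b8264000780402f613f01e70990000a8100bd84fc0738264000270402061320001181017609f80e584c80003008035427e01be1320000b8200270988000000802d000800d0002006800080b0483)))) 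
(.lf (nat_lit 3493087032) (dlOf (nat_lit 8) (nat_lit 0x500a60004051001802800010138007009a0018045002301e800200e0002801600035120044054001102980108144004c0a0003c04e0017026801c8114008007a0003410000e003000180100010328001817c001c0ba000805c001c02a000b014c00940a2002a05000170270006013400b008a001e03f001d01e800180b80008042001401c000200d0002002c00080000002a26000605e0001381000602f00008c08002015000018040084004000800080f3e02))))) 
(.nd (nat_lit 30) (.nd (nat_lit 18) (.nd (nat_lit 9) 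
(.lf (nat_lit 805324984) (dlOf (nat_lit 1) (nat_lit 0x100028004901))) 
(.lf (nat_lit 2415937208) (dlOf (nat_lit 1) (nat_lit 0x1c0028003a81)))) (.nd (nat_lit 27) 
(.lf (nat_lit 268714168) (dlOf (nat_lit 1) (nat_lit 0xc00180f3001))) 
(.lf (nat_lit 4697899192) (dlOf (nat_lit 3) (nat_lit 0x880500009e0400900280000302001c00080c1701))))) 
(.nd (nat_lit 10) (.nd (nat_lit 11) 
(.lf (nat_lit 5772427448) (dlOf (nat_lit 1) (nat_lit 0x780028090701))) 
(.lf (nat_lit 1342199992) (dlOf (nat_lit 2) (nat_lit 0x404e8029180800680080004002000c000800a883)))) 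
(.nd (nat_lit 8) (.lf (nat_lit 1344816312) (dlOf (nat_lit 1) (nat_lit 0x480018982c81))) 
(.lf (nat_lit 1476417464) (dlOf (nat_lit 1) (nat_lit 0x2000800a501)))))))) (.nd (nat_lit 27) 
(.nd (nat_lit 9) (.nd (nat_lit 18) (.nd (nat_lit 22) (.nd (nat_lit 29) 
(.lf (nat_lit 6510100536) (dlOf (nat_lit 1) (nat_lit 0x1000181c0701))) 
(.lf (nat_lit 1678262328) (dlOf (nat_lit 10) (nat_lit 0x500a4000460200120520001f8100110290000ec0801c015005bc0a403ba0450124021809a80f007cc05a023c02c012000e00b7005c0080000000361403c602d015b00b80005c100038148007005a000160402ec02d018800b80004c1002780b4000140400c40a8036602d010f0160080803c000001002cc004006600181c0b02)))) 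
(.lf (nat_lit 2756198456) (dlOf (nat_lit 1) (nat_lit 0x20028211281)))) (.nd (nat_lit 29) 
(.lf (nat_lit 67387448) (dlOf (nat_lit 1) (nat_lit 0x80080008002000400080f0483))) 
(.lf (nat_lit 1678000184) (dlOf (nat_lit 1) (nat_lit 0x1000400020008130702))))) (.nd (nat_lit 11) 
(.nd (nat_lit 19) (.nd (nat_lit 32) 
(.lf (nat_lit 1140868664) (dlOf (nat_lit 1) (nat_lit 0x5c00200100008003782))) 
(.lf (nat_lit 5435835960) (dlOf (nat_lit 2) (nat_lit 0x2f80f80004e04007400400260008003782)))) 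
(.nd (nat_lit 8) (.lf (nat_lit 67917368) (dlOf (nat_lit 1) (nat_lit 0x400200020008339c02))) 
(.lf (nat_lit 2752005944) (dlOf (nat_lit 1) (nat_lit 0x60028003e01))))) (.nd (nat_lit 7) 
(.lf (nat_lit 4362099256) (dlOf (nat_lit 2) (nat_lit 0x2a01980063c0801e00080174002005c000800b403))) 
(.lf (nat_lit 2754629304) (dlOf (nat_lit 1) (nat_lit 0x400080060002000a00080f7283)))))) 
(.nd (nat_lit 7) (.nd (nat_lit 19) (.nd (nat_lit 9) 
(.lf (nat_lit 1543782456) (dlOf (nat_lit 3) (nat_lit 0x801f0005081000600f800090080018008000400200060008170d03))) 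
(.nd (nat_lit 10) 
(.lf (nat_lit 201349688) (dlOf (nat_lit 2) (nat_lit 0x19c07600060360003d82800b400))) 
(.lf (nat_lit 6106924600) (dlOf (nat_lit 1) (nat_lit 0x20028003781))))) (.nd (nat_lit 18) 
(.nd (nat_lit 30) 
(.lf (nat_lit 2886221880) (dlOf (nat_lit 2) (nat_lit 0x189020802be0080db8008039c002021a00081a0703))) 
(.lf (nat_lit 3959963704) (dlOf (nat_lit 1) (nat_lit 0x20008180a81)))) 
(.lf (nat_lit 6377193528) (dlOf (nat_lit 16) (nat_lit 0x6304c403e8244002220401e81220010d8100ea091002f04840040a08002826200a2122001018200c309880740488017824200202060186131010b0910007b0100c084c80774246000b104031213201e00918001f81008084c806b8246000780402f613201e7091800090100bd84c80738246000220402061230000f01017609900e5848c0002808035426401be123000090200270910000000802d000800d0002006800080b0483))))) 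
(.nd (nat_lit 8) (.nd (nat_lit 10) 
(.lf (nat_lit 1543522488) (dlOf (nat_lit 1) (nat_lit 0xf0008000c00200360008004903))) 
(.nd (nat_lit 11) (.lf (nat_lit 473711800) (dlOf (nat_lit 1) (nat_lit 0x80018fa2c81))) 
(.lf (nat_lit 2885704888) (dlOf (nat_lit 1) (nat_lit 0x2001800c201))))) (.nd (nat_lit 9) 
(.lf (nat_lit 473450936) (dlOf (nat_lit 1) (nat_lit 0x5d000402900008f54e82))) 
(.lf (nat_lit 469782456) (dlOf (nat_lit 1) (nat_lit 0x16c0018007a81)))))))) (.nd (nat_lit 7) 
(.nd (nat_lit 8) (.nd (nat_lit 31) (.nd (nat_lit 9) (.nd (nat_lit 10) (.nd (nat_lit 18) 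
(.lf (nat_lit 14172280) (dlOf (nat_lit 1) (nat_lit 0x400400060008750282))) 
(.lf (nat_lit 9715832) (dlOf (nat_lit 3) (nat_lit 0x3898400084b8000525a80008f3c0004610000898400024b8000c25a80008f3c0004410014800400220018570b82)))) 
(.lf (nat_lit 8412280) (dlOf (nat_lit 1) (nat_lit 0x2002851c101)))) (.nd (nat_lit 12) 
(.lf (nat_lit 69748344) (dlOf (nat_lit 2) (nat_lit 0x5602e00009818bf3980))) 
(.lf (nat_lit 20207224) (dlOf (nat_lit 1) (nat_lit 0x1a0008000c002014800089d9d03))))) 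
(.nd (nat_lit 11) (.nd (nat_lit 26) (.nd (nat_lit 27) 
(.lf (nat_lit 2684371576) (dlOf (nat_lit 2) (nat_lit 0x5c80000006404000400400020018001902))) 
(.lf (nat_lit 2281718392) (dlOf (nat_lit 2) (nat_lit 0x5f809401c0046017201800019038001900)))) 
(.lf (nat_lit 2214609528) (dlOf (nat_lit 2) (nat_lit 0xc10128025806002ec02a000320600040018001901)))) 
(.lf (nat_lit 6710905464) (dlOf (nat_lit 1) (nat_lit 0x400200020008005402))))) (.nd (nat_lit 9) 
(.nd (nat_lit 10) (.nd (nat_lit 18) 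
(.lf (nat_lit 1345341816) (dlOf (nat_lit 2) (nat_lit 0x104e003018080008008000800200040008b54e83))) 
(.nd (nat_lit 19) 
(.lf (nat_lit 3624159608) (dlOf (nat_lit 1) (nat_lit 0x280080018002000e0008144e83))) 
(.lf (nat_lit 33311096) (dlOf (nat_lit 1) (nat_lit 0x19c0018f54e81))))) (.nd (nat_lit 11) 
(.lf (nat_lit 61359480) (dlOf (nat_lit 2) (nat_lit 0x2152d0000bc0800b8008000c00200080009923503))) 
(.lf (nat_lit 19684728) (dlOf (nat_lit 1) (nat_lit 0x4002004400089dc902))))) (.nd (nat_lit 18) 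
(.nd (nat_lit 26) 
(.lf (nat_lit 2818591608) (dlOf (nat_lit 4) (nat_lit 0xa006001068100050030008200800f00180090000000b40400540018005c01))) 
(.lf (nat_lit 872434552) (dlOf (nat_lit 2) (nat_lit 0x2405a0016c0200040018005c01)))) 
(.nd (nat_lit 10) (.nd (nat_lit 20) 
(.lf (nat_lit 738478968) (dlOf (nat_lit 1) (nat_lit 0x20018095c01))) 
(.lf (nat_lit 60050296) (dlOf (nat_lit 1) (nat_lit 0x340019845c01)))) 
(.lf (nat_lit 8144760) (dlOf (nat_lit 1) (nat_lit 0x400400020008514082))))))) (.nd (nat_lit 9) 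
(.nd (nat_lit 18) (.nd (nat_lit 19) (.nd (nat_lit 10) (.nd (nat_lit 20) 
(.lf (nat_lit 471875832) (dlOf (nat_lit 1) (nat_lit 0x100080010002000400086b0683))) 
(.lf (nat_lit 19939576) (dlOf (nat_lit 1) (nat_lit 0x4002000200089d0a82)))) 
(.lf (nat_lit 5772428536) (dlOf (nat_lit 1) (nat_lit 0x400200020008092e82)))) (.nd (nat_lit 8) 
(.lf (nat_lit 1074282744) (dlOf (nat_lit 1) (nat_lit 0x24004000600081b0482))) 
(.lf (nat_lit 1074283000) (dlOf (nat_lit 1) (nat_lit 0x60004001a00181b0d82))))) (.nd (nat_lit 8) 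
(.nd (nat_lit 21) (.lf (nat_lit 2752790776) (dlOf (nat_lit 1) (nat_lit 0x20018047781))) 
(.lf (nat_lit 3424504) (dlOf (nat_lit 1) (nat_lit 0x9000400260008200482)))) (.nd (nat_lit 20) 
(.nd (nat_lit 26) 
(.lf (nat_lit 2550415864) (dlOf (nat_lit 1) (nat_lit 0x660008003000201780008090d83))) 
(.lf (nat_lit 3959702008) (dlOf (nat_lit 4) (nat_lit 0x14c01c0002202002200e00010010005007000074080010008000800200020008127e03)))) 
(.lf (nat_lit 3424760) (dlOf (nat_lit 1) (nat_lit 0x20028200d81)))))) (.nd (nat_lit 28) 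
(.nd (nat_lit 19) (.nd (nat_lit 10) (.nd (nat_lit 11) 
(.lf (nat_lit 1073759224) (dlOf (nat_lit 1) (nat_lit 0x8008000400200020008002883))) 
(.lf (nat_lit 54807544) (dlOf (nat_lit 1) (nat_lit 0x220019655f01)))) 
(.lf (nat_lit 6576691192) (dlOf (nat_lit 1) (nat_lit 0x2c001800a601)))) (.nd (nat_lit 8) 
(.lf (nat_lit 8931064) (dlOf (nat_lit 1) (nat_lit 0x80080004002005c0008513b83))) (.nd (nat_lit 24) 
(.lf (nat_lit 44581880) (dlOf (nat_lit 1) (nat_lit 0x80019322881))) 
(.lf (nat_lit 61359096) (dlOf (nat_lit 2) (nat_lit 0x854b4001aa500027514801c54180198008000800200100009922883)))))) 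
(.nd (nat_lit 8) (.nd (nat_lit 10) 
(.lf (nat_lit 1008749304) (dlOf (nat_lit 1) (nat_lit 0x800800d800200920008f55a03))) 
(.lf (nat_lit 1543522040) (dlOf (nat_lit 2) (nat_lit 0xf017000090080128008000c00200320008003b83)))) 
(.nd (nat_lit 11) 
(.lf (nat_lit 2952811512) (dlOf (nat_lit 3) (nat_lit 0x80600139e040040030009ce02006c0008009201))) 
(.lf (nat_lit 5100555256) (dlOf (nat_lit 1) (nat_lit 0x2200180d5f01)))))))))) (.nd (nat_lit 3) 
(.nd (nat_lit 18) (.nd (nat_lit 6) (.nd (nat_lit 8) (.nd (nat_lit 19) (.nd (nat_lit 9) 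
(.nd (nat_lit 10) (.nd (nat_lit 20) 
(.lf (nat_lit 23150640) (dlOf (nat_lit 1) (nat_lit 0x20028b60901))) 
(.lf (nat_lit 13713456) (dlOf (nat_lit 1) (nat_lit 0xc00200040008740682)))) (.nd (nat_lit 7) 
(.lf (nat_lit 3556852784) (dlOf (nat_lit 1) (nat_lit 0x1c004000200080d2882))) 
(.lf (nat_lit 36783280) (dlOf (nat_lit 2) (nat_lit 0x4bc60002e019072c00))))) (.nd (nat_lit 7) 
(.nd (nat_lit 10) (.lf (nat_lit 48319024) (dlOf (nat_lit 1) (nat_lit 0x320019405181))) 
(.lf (nat_lit 2617333296) (dlOf (nat_lit 1) (nat_lit 0x500080008002000a00080a9c03)))) 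
(.lf (nat_lit 2751547056) (dlOf (nat_lit 1) (nat_lit 0x20028003a81))))) (.nd (nat_lit 27) 
(.nd (nat_lit 10) (.nd (nat_lit 23) (.nd (nat_lit 26) 
(.lf (nat_lit 537477168) (dlOf (nat_lit 2) (nat_lit 0xb502c8000b0080118008004400200a400080a0983))) 
(.lf (nat_lit 1409892400) (dlOf (nat_lit 2) (nat_lit 0xb502c8000e0080118008004400200a400080a0983)))) 
(.lf (nat_lit 42549296) (dlOf (nat_lit 1) (nat_lit 0x20029260301)))) 
(.lf (nat_lit 609328) (dlOf (nat_lit 1) (nat_lit 0x800400cc0008006082)))) (.nd (nat_lit 26) 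
(.nd (nat_lit 29) 
(.lf (nat_lit 134823984) (dlOf (nat_lit 4) (nat_lit 0xa40760002e0200da0360001681005401d800500d80005608012c004001200180c0e82))) 
(.lf (nat_lit 3892920368) (dlOf (nat_lit 10) (nat_lit 0x2c0c002c405a0015026800200d0005c028016600300090010000fc380c08168038c0060003604002605a0001a81002102d0000d00808481680005a0404980b400300030001602003a02d00007c08099016802200060001d0401c605a006e00180003c100040008010800200700008290e83)))) 
(.nd (nat_lit 9) 
(.lf (nat_lit 201932848) (dlOf (nat_lit 7) (nat_lit 0x2d01d8000b80800300ec018406c00080170001683001601d8000ac0803100ec008c06c00560170001503001901b0000300800100d8000140401e0004000a00180c0f82))) 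
(.lf (nat_lit 472468016) (dlOf (nat_lit 2) (nat_lit 0x101380008b0200260018985181))))))) 
(.nd (nat_lit 7) (.nd (nat_lit 27) (.nd (nat_lit 9) (.nd (nat_lit 12) 
(.lf (nat_lit 4563484976) (dlOf (nat_lit 2) (nat_lit 0x3006800220150099009000000180118008004000200b00008090b03))) 
(.lf (nat_lit 1342263600) (dlOf (nat_lit 1) (nat_lit 0x40018008081)))) (.nd (nat_lit 10) 
(.lf (nat_lit 5637229360) (dlOf (nat_lit 3) (nat_lit 0x40080015c02000201400043018055c00))) 
(.lf (nat_lit 536954672) (dlOf (nat_lit 1) (nat_lit 0x8008000400200020008003d83))))) 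
(.nd (nat_lit 10) (.nd (nat_lit 29) 
(.lf (nat_lit 1208041776) (dlOf (nat_lit 1) (nat_lit 0x110008002c00200ae0008090b03))) 
(.lf (nat_lit 1744912688) (dlOf (nat_lit 1) (nat_lit 0x20028090b01)))) 
(.lf (nat_lit 5773542704) (dlOf (nat_lit 1) (nat_lit 0xf000280e3201))))) (.nd (nat_lit 20) 
(.nd (nat_lit 9) (.nd (nat_lit 23) 
(.lf (nat_lit 4899030448) (dlOf (nat_lit 2) (nat_lit 0x200d000300000011c08001000200040008053602))) 
(.lf (nat_lit 8471984) (dlOf (nat_lit 1) (nat_lit 0x400200020008513602)))) 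
(.lf (nat_lit 4362160048) (dlOf (nat_lit 1) (nat_lit 0x20018004381)))) (.nd (nat_lit 10) 
(.lf (nat_lit 3491316144) (dlOf (nat_lit 1) (nat_lit 0x8008000400200020008090783))) 
(.nd (nat_lit 26) (.lf (nat_lit 1345406384) (dlOf (nat_lit 1) (nat_lit 0xc0028bb3601))) 
(.lf (nat_lit 472991152) (dlOf (nat_lit 1) (nat_lit 0x1c00400080008bb3602)))))))) (.nd (nat_lit 7) 
(.nd (nat_lit 28) (.nd (nat_lit 19) (.nd (nat_lit 8) 
(.lf (nat_lit 4362160240) (dlOf (nat_lit 1) (nat_lit 0x60018004781))) (.nd (nat_lit 9) 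
(.lf (nat_lit 46221680) (dlOf (nat_lit 1) (nat_lit 0xc0019384e81))) 
(.lf (nat_lit 20007792) (dlOf (nat_lit 1) (nat_lit 0xb00080004002001200089d5c03))))) 
(.nd (nat_lit 8) 
(.lf (nat_lit 537477232) (dlOf (nat_lit 1) (nat_lit 0xa8008009800200b800080a1583))) 
(.nd (nat_lit 20) (.lf (nat_lit 608624) (dlOf (nat_lit 1) (nat_lit 0xc0008004e81))) 
(.lf (nat_lit 60377456) (dlOf (nat_lit 1) (nat_lit 0x20029844e81)))))) (.nd (nat_lit 8) 
(.nd (nat_lit 10) 
(.lf (nat_lit 1409892464) (dlOf (nat_lit 1) (nat_lit 0xa8008009800200b800080a1583))) 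
(.nd (nat_lit 11) (.lf (nat_lit 1342264432) (dlOf (nat_lit 1) (nat_lit 0x800400440008009402))) 
(.lf (nat_lit 469851248) (dlOf (nat_lit 1) (nat_lit 0xb0008001c0020048000800c103))))) 
(.nd (nat_lit 27) (.nd (nat_lit 19) 
(.lf (nat_lit 3489745264) (dlOf (nat_lit 1) (nat_lit 0x20018004e81))) 
(.lf (nat_lit 3490269552) (dlOf (nat_lit 1) (nat_lit 0x10008000400200020008004e83)))) 
(.nd (nat_lit 26) (.lf (nat_lit 5771446640) (dlOf (nat_lit 1) (nat_lit 0x18004000c0018004e82))) 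
(.lf (nat_lit 4227942768) (dlOf (nat_lit 1) (nat_lit 0x80018004e81))))))) (.nd (nat_lit 9) 
(.nd (nat_lit 8) (.nd (nat_lit 21) (.nd (nat_lit 19) 
(.lf (nat_lit 4276464) (dlOf (nat_lit 1) (nat_lit 0x400400040008290702))) 
(.lf (nat_lit 42549488) (dlOf (nat_lit 1) (nat_lit 0x11c0029261e81)))) (.nd (nat_lit 24) 
(.lf (nat_lit 1344356592) (dlOf (nat_lit 1) (nat_lit 0x8008000400200020008740603))) 
(.lf (nat_lit 18956528) (dlOf (nat_lit 1) (nat_lit 0x10008000400200020008970603))))) 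
(.nd (nat_lit 10) 
(.lf (nat_lit 50416112) (dlOf (nat_lit 2) (nat_lit 0x3a2538003e00800700080020002000a00094c4f03))) 
(.nd (nat_lit 23) (.lf (nat_lit 4899030512) (dlOf (nat_lit 1) (nat_lit 0x20008053601))) 
(.lf (nat_lit 8472048) (dlOf (nat_lit 1) (nat_lit 0x400200020008513602)))))) (.nd (nat_lit 20) 
(.nd (nat_lit 21) (.nd (nat_lit 12) (.nd (nat_lit 26) 
(.lf (nat_lit 3892397040) (dlOf (nat_lit 1) (nat_lit 0x400200020008102882))) 
(.lf (nat_lit 4362159088) (dlOf (nat_lit 1) (nat_lit 0x100018002881)))) 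
(.lf (nat_lit 469849072) (dlOf (nat_lit 1) (nat_lit 0xc0018009201)))) (.nd (nat_lit 8) 
(.lf (nat_lit 39930608) (dlOf (nat_lit 1) (nat_lit 0x400291f5a01))) 
(.lf (nat_lit 31540208) (dlOf (nat_lit 1) (nat_lit 0x60028e92881))))) (.nd (nat_lit 23) 
(.nd (nat_lit 25) (.lf (nat_lit 472990704) (dlOf (nat_lit 1) (nat_lit 0x80028bb2881))) 
(.lf (nat_lit 36783088) (dlOf (nat_lit 2) (nat_lit 0x1af1800c5004000c00200060009072882)))) 
(.lf (nat_lit 61948912) (dlOf (nat_lit 1) (nat_lit 0x50004001a0009922882)))))))) (.nd (nat_lit 28) 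
(.nd (nat_lit 6) (.nd (nat_lit 26) (.nd (nat_lit 9) (.nd (nat_lit 19) (.nd (nat_lit 29) 
(.lf (nat_lit 3221569584) (dlOf (nat_lit 5) (nat_lit 0x30158001c0a4000c0360004015800200780018022000600a000500300033440003015800180a4000c0360006015800300780014022000c00a000600300032c4000080c40017a0400100a2000b102000c0028140601))) 
(.lf (nat_lit 5905924144) (dlOf (nat_lit 13) (nat_lit 0x3a0000002d010088012804b805c0008a08021c04a012c0170002202000500b80010c0800c8094000840400a40700106025008100b800104180478094023002e000400400f6025009200b8000fc1003f8094026002e0003d0400fe025009300b8000ec1003e009401a403c01420170001a83000a0128000c00801a000800a000201380008160583)))) 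
(.nd (nat_lit 7) (.nd (nat_lit 24) 
(.lf (nat_lit 5062704) (dlOf (nat_lit 1) (nat_lit 0x60018300701))) 
(.lf (nat_lit 21839920) (dlOf (nat_lit 2) (nat_lit 0x1697f0001a818a70580)))) 
(.lf (nat_lit 36522416) (dlOf (nat_lit 1) (nat_lit 0x40019074e81))))) (.nd (nat_lit 7) 
(.nd (nat_lit 10) (.lf (nat_lit 23413296) (dlOf (nat_lit 1) (nat_lit 0x800800d800200020008b80f03))) 
(.lf (nat_lit 537742896) (dlOf (nat_lit 3) (nat_lit 0x260530002a01017402f8001380801600080d60002011c00080f7183)))) 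
(.nd (nat_lit 8) (.lf (nat_lit 345776) (dlOf (nat_lit 1) (nat_lit 0x400200020008003a82))) 
(.lf (nat_lit 4429536176) (dlOf (nat_lit 1) (nat_lit 0x2b8008001c0020084000811bd83)))))) 
(.nd (nat_lit 29) (.nd (nat_lit 30) (.nd (nat_lit 31) 
(.lf (nat_lit 4362420272) (dlOf (nat_lit 3) (nat_lit 0x342033000088100090198000400803c80080004002000e0008070883))) 
(.lf (nat_lit 6509903920) (dlOf (nat_lit 13) (nat_lit 0x3a0000002d010088013004b805c0008a08021c04c012c0170002202000500b80010c0800c8098000840400a406a0106026008100b800104180478098023002e000400400f6026009200b8000fc1003f8098026002e0003d0400fe026009300b8000ec1003e009801a403c01420170001a83000a0130000c00801a000800a000201380008160583)))) 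
(.lf (nat_lit 3288678448) (dlOf (nat_lit 3) (nat_lit 0x70405c000360201d002e0001a0180c0e80)))) 
(.nd (nat_lit 19) (.nd (nat_lit 27) 
(.lf (nat_lit 1678065712) (dlOf (nat_lit 4) (nat_lit 0x30154001c09c000e0370005015800200900018024000a00a000500300036c400030154001409c000c0370006015800300900014024000c00a00060030003644000081580019604000400400040018160602))) 
(.lf (nat_lit 3959767088) (dlOf (nat_lit 5) (nat_lit 0x30158001c0a4000c0360004015800200780018022000600a000500300036c40003015800180a4000c0360006015800300780014022000c00a00060030003644000080c4001960400100a2000bf02000c0028140601)))) 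
(.lf (nat_lit 2754428976) (dlOf (nat_lit 3) (nat_lit 0x281ec000a20400380f60003a02002c00280e0681)))))) 
(.nd (nat_lit 20) (.nd (nat_lit 23) (.nd (nat_lit 8) 
(.lf (nat_lit 346224) (dlOf (nat_lit 1) (nat_lit 0x2e0008004781))) (.nd (nat_lit 19) 
(.lf (nat_lit 38095216) (dlOf (nat_lit 1) (nat_lit 0x20029134e81))) 
(.lf (nat_lit 36522352) (dlOf (nat_lit 1) (nat_lit 0x20019074e81))))) (.nd (nat_lit 8) 
(.lf (nat_lit 8734832) (dlOf (nat_lit 1) (nat_lit 0x8008000c00200020008514783))) (.nd (nat_lit 19) 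
(.lf (nat_lit 42289520) (dlOf (nat_lit 1) (nat_lit 0x400400020009244e82))) 
(.lf (nat_lit 32328048) (dlOf (nat_lit 1) (nat_lit 0x8008000400200020008ef4e83)))))) 
(.nd (nat_lit 7) (.nd (nat_lit 8) 
(.lf (nat_lit 20271728) (dlOf (nat_lit 1) (nat_lit 0x14004002000189d8982))) (.nd (nat_lit 19) 
(.lf (nat_lit 39143792) (dlOf (nat_lit 1) (nat_lit 0x8008000400200020009194e83))) 
(.lf (nat_lit 37570928) (dlOf (nat_lit 1) (nat_lit 0x200190d4e81))))) (.nd (nat_lit 8) 
(.lf (nat_lit 20273392) (dlOf (nat_lit 1) (nat_lit 0x200089da901))) (.nd (nat_lit 10) 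
(.lf (nat_lit 8212976) (dlOf (nat_lit 1) (nat_lit 0x20018518681))) 
(.lf (nat_lit 8209904) (dlOf (nat_lit 1) (nat_lit 0x400200020008513602)))))))) (.nd (nat_lit 31) 
(.nd (nat_lit 7) (.nd (nat_lit 29) (.nd (nat_lit 27) 
(.lf (nat_lit 4563746864) (dlOf (nat_lit 2) (nat_lit 0x27c0520002027000100280d0380))) 
(.lf (nat_lit 4697964592) (dlOf (nat_lit 2) (nat_lit 0x27c0520002027000100280d0380)))) 
(.nd (nat_lit 6) (.nd (nat_lit 30) 
(.lf (nat_lit 805650480) (dlOf (nat_lit 4) (nat_lit 0x30154001c09c000e0370005015800200900018024000a00a0005003000334400030154001409c000c0370006015800300900014024000c00a000600300032c4000081580017a04000400400040018160602))) 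
(.lf (nat_lit 1879392304) (dlOf (nat_lit 2) (nat_lit 0x1220000001b018120e80)))) 
(.lf (nat_lit 1880967536) (dlOf (nat_lit 1) (nat_lit 0x8008001000200020008d74e83))))) 
(.nd (nat_lit 19) (.nd (nat_lit 27) 
(.lf (nat_lit 5637488816) (dlOf (nat_lit 1) (nat_lit 0x1c80080028002004c00080f1603))) 
(.lf (nat_lit 5234835632) (dlOf (nat_lit 2) (nat_lit 0x1100a8000cc0800880080048002002000080f1603)))) 
(.nd (nat_lit 6) (.lf (nat_lit 5773279408) (dlOf (nat_lit 1) (nat_lit 0x400280c1601))) 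
(.lf (nat_lit 1346191600) (dlOf (nat_lit 1) (nat_lit 0x1000200080008e61e82)))))) (.nd (nat_lit 6) 
(.nd (nat_lit 27) (.nd (nat_lit 19) (.nd (nat_lit 29) 
(.lf (nat_lit 2416263216) (dlOf (nat_lit 1) (nat_lit 0x800280c0f81))) 
(.lf (nat_lit 4026875952) (dlOf (nat_lit 3) (nat_lit 0x1d300b80006a040e9005c0003402000400080c0f81)))) 
(.nd (nat_lit 10) 
(.lf (nat_lit 3492626480) (dlOf (nat_lit 3) (nat_lit 0x281f4000a20400380fa0003a02002c00280e0681))) 
(.lf (nat_lit 3490532400) (dlOf (nat_lit 1) (nat_lit 0x400400a80008006082))))) (.nd (nat_lit 26) 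
(.lf (nat_lit 2550480944) (dlOf (nat_lit 2) (nat_lit 0xa40420003602000800080c0e81))) 
(.nd (nat_lit 30) 
(.lf (nat_lit 3154460720) (dlOf (nat_lit 2) (nat_lit 0x1e80dc0038a040030004001800081a0482))) 
(.lf (nat_lit 4228202544) (dlOf (nat_lit 5) (nat_lit 0xe04000008010041020003a80c802480580000f060496032000070102240190000340800300080030002002a0008070903)))))) 
(.nd (nat_lit 7) (.nd (nat_lit 19) 
(.lf (nat_lit 3490007408) (dlOf (nat_lit 1) (nat_lit 0xc00200020008004e82))) 
(.lf (nat_lit 3490531696) (dlOf (nat_lit 1) (nat_lit 0x120008004e81)))) 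
(.lf (nat_lit 3493151728) (dlOf (nat_lit 1) (nat_lit 0x200180f2881)))))))) (.nd (nat_lit 28) 
(.nd (nat_lit 8) (.nd (nat_lit 18) (.nd (nat_lit 21) (.nd (nat_lit 6) (.nd (nat_lit 19) 
(.nd (nat_lit 9) 
(.lf (nat_lit 2752593976) (dlOf (nat_lit 1) (nat_lit 0x8008000400200020008020683))) 
(.lf (nat_lit 4496377400) (dlOf (nat_lit 5) (nat_lit 0x400e0009806800034080020038001601b001600d000680600034016000180a002401a000088100090050000000800d0008001400200280008053783)))) 
(.nd (nat_lit 20) (.nd (nat_lit 29) 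
(.lf (nat_lit 3221831736) (dlOf (nat_lit 1) (nat_lit 0x200181a1281))) 
(.lf (nat_lit 537477176) (dlOf (nat_lit 2) (nat_lit 0x6f02f8000b00800e00080038002004200080a0a83)))) 
(.lf (nat_lit 1654840) (dlOf (nat_lit 1) (nat_lit 0x3c00200060008110702))))) (.nd (nat_lit 7) 
(.nd (nat_lit 9) (.lf (nat_lit 2755739768) (dlOf (nat_lit 1) (nat_lit 0x2800281b0081))) 
(.lf (nat_lit 6106990200) (dlOf (nat_lit 1) (nat_lit 0x28008000400200020008003983)))) 
(.lf (nat_lit 1677803768) (dlOf (nat_lit 1) (nat_lit 0x2400400120008090482))))) (.nd (nat_lit 19) 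
(.nd (nat_lit 6) (.nd (nat_lit 7) 
(.lf (nat_lit 10567736) (dlOf (nat_lit 1) (nat_lit 0xa00085f0b81))) 
(.lf (nat_lit 36783288) (dlOf (nat_lit 1) (nat_lit 0x20019072c81)))) (.nd (nat_lit 9) 
(.lf (nat_lit 18956408) (dlOf (nat_lit 1) (nat_lit 0x400200020008970482))) 
(.lf (nat_lit 20005496) (dlOf (nat_lit 1) (nat_lit 0x400189d1901))))) (.nd (nat_lit 20) 
(.nd (nat_lit 9) (.lf (nat_lit 36257848) (dlOf (nat_lit 1) (nat_lit 0xa0019050501))) 
(.lf (nat_lit 32066104) (dlOf (nat_lit 1) (nat_lit 0x20028ef5201)))) (.nd (nat_lit 6) 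
(.lf (nat_lit 3751992) (dlOf (nat_lit 3) (nat_lit 0x415600007604002caa2000150200040018220b01))) 
(.lf (nat_lit 58278136) (dlOf (nat_lit 1) (nat_lit 0xe600297d7001))))))) (.nd (nat_lit 20) 
(.nd (nat_lit 22) (.nd (nat_lit 21) (.nd (nat_lit 25) (.nd (nat_lit 27) 
(.lf (nat_lit 537215032) (dlOf (nat_lit 1) (nat_lit 0x8008000400200020008060703))) 
(.lf (nat_lit 3355787320) (dlOf (nat_lit 1) (nat_lit 0x68008001c00200260008110d83)))) 
(.lf (nat_lit 33898552) (dlOf (nat_lit 1) (nat_lit 0x1000400100008f70502)))) (.nd (nat_lit 6) 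
(.lf (nat_lit 36522552) (dlOf (nat_lit 1) (nat_lit 0x20019075201))) 
(.lf (nat_lit 19218552) (dlOf (nat_lit 1) (nat_lit 0x8008000400200020008970483))))) 
(.nd (nat_lit 9) (.nd (nat_lit 19) 
(.lf (nat_lit 2756001848) (dlOf (nat_lit 2) (nat_lit 0x1c00000000002013600181d0b01))) 
(.lf (nat_lit 13451320) (dlOf (nat_lit 1) (nat_lit 0x800804b8002019c0008721283)))) 
(.lf (nat_lit 38095416) (dlOf (nat_lit 1) (nat_lit 0x20029135201))))) (.nd (nat_lit 7) 
(.nd (nat_lit 9) (.nd (nat_lit 24) 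
(.lf (nat_lit 13975608) (dlOf (nat_lit 1) (nat_lit 0x40018750001))) 
(.lf (nat_lit 30752824) (dlOf (nat_lit 1) (nat_lit 0xa0008e50c01)))) 
(.lf (nat_lit 45435448) (dlOf (nat_lit 2) (nat_lit 0x229c620014cea0002f829325200)))) 
(.nd (nat_lit 6) (.lf (nat_lit 37569720) (dlOf (nat_lit 1) (nat_lit 0x4002000200090d2c82))) 
(.nd (nat_lit 12) (.lf (nat_lit 8210680) (dlOf (nat_lit 1) (nat_lit 0x40028514b81))) 
(.lf (nat_lit 20273400) (dlOf (nat_lit 2) (nat_lit 0x8a7d00015358001981000200080014002000400089da983)))))))) 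
(.nd (nat_lit 7) (.nd (nat_lit 10) (.nd (nat_lit 18) (.nd (nat_lit 26) (.nd (nat_lit 19) 
(.lf (nat_lit 1208041784) (dlOf (nat_lit 4) (nat_lit 0x3640720001602001a0390000a81009901c80000008064000800b000200d60008090b83))) 
(.lf (nat_lit 58278200) (dlOf (nat_lit 1) (nat_lit 0x18004000400097d7b02)))) (.nd (nat_lit 27) 
(.lf (nat_lit 3825287480) (dlOf (nat_lit 2) (nat_lit 0x1e01f000b00b82f780000002e0c0f14002147e00080b0582))) 
(.lf (nat_lit 738279736) (dlOf (nat_lit 1) (nat_lit 0xa0008090b81))))) (.nd (nat_lit 6) 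
(.lf (nat_lit 3490104) (dlOf (nat_lit 2) (nat_lit 0xc73a28000980801b80080158002001c0008200583))) 
(.nd (nat_lit 11) (.lf (nat_lit 738541944) (dlOf (nat_lit 1) (nat_lit 0x200180a7d01))) 
(.lf (nat_lit 36522360) (dlOf (nat_lit 1) (nat_lit 0x20019074e81)))))) (.nd (nat_lit 9) 
(.nd (nat_lit 6) (.lf (nat_lit 8475960) (dlOf (nat_lit 1) (nat_lit 0x400200020008519902))) 
(.lf (nat_lit 43074936) (dlOf (nat_lit 1) (nat_lit 0x5200192a3501)))) (.nd (nat_lit 18) 
(.lf (nat_lit 20535096) (dlOf (nat_lit 2) (nat_lit 0x35778000700800600080004002000200089da103))) 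
(.lf (nat_lit 350008) (dlOf (nat_lit 1) (nat_lit 0x7a000800a101)))))) (.nd (nat_lit 6) 
(.nd (nat_lit 19) (.nd (nat_lit 30) 
(.lf (nat_lit 4496377272) (dlOf (nat_lit 2) (nat_lit 0x280700068036002001a000b00c000538200170008001000200380008053603))) 
(.lf (nat_lit 5570119096) (dlOf (nat_lit 1) (nat_lit 0x2c0018053601)))) (.nd (nat_lit 9) 
(.lf (nat_lit 37308856) (dlOf (nat_lit 1) (nat_lit 0x200190d4e81))) 
(.lf (nat_lit 7952312) (dlOf (nat_lit 1) (nat_lit 0x40040006000851a502))))) (.nd (nat_lit 9) 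
(.nd (nat_lit 11) (.lf (nat_lit 2348892664) (dlOf (nat_lit 1) (nat_lit 0xc00400040008017e02))) 
(.lf (nat_lit 4362164728) (dlOf (nat_lit 1) (nat_lit 0x10001800b281)))) (.nd (nat_lit 10) 
(.lf (nat_lit 2818655224) (dlOf (nat_lit 1) (nat_lit 0x14004000200080d2882))) (.nd (nat_lit 18) 
(.lf (nat_lit 4362164216) (dlOf (nat_lit 7) (nat_lit 0x10033002b581000e0198015a80800200cc00ad20400240660056802001c033002a801001001980151808012000800040020040000800a603))) 
(.lf (nat_lit 4295317496) (dlOf (nat_lit 1) (nat_lit 0x28001811a601))))))))) (.nd (nat_lit 6) 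
(.nd (nat_lit 27) (.nd (nat_lit 18) (.nd (nat_lit 8) (.nd (nat_lit 10) (.nd (nat_lit 19) 
(.lf (nat_lit 3490791480) (dlOf (nat_lit 1) (nat_lit 0x8008000400200020008020683))) 
(.lf (nat_lit 1409892408) (dlOf (nat_lit 2) (nat_lit 0xcc02f8000b00800a000800c0002005c00080a0b83)))) 
(.lf (nat_lit 1342264376) (dlOf (nat_lit 2) (nat_lit 0x20470012700800080080008002000c0008009203)))) 
(.nd (nat_lit 7) 
(.lf (nat_lit 4563484984) (dlOf (nat_lit 5) (nat_lit 0x17a01500ef00900001c1001c005403d0024000060401000120000081007900a806b8048000000800c800400fe0008090b82))) 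
(.lf (nat_lit 5100357048) (dlOf (nat_lit 1) (nat_lit 0x180018053601))))) (.nd (nat_lit 19) 
(.nd (nat_lit 21) (.nd (nat_lit 22) 
(.lf (nat_lit 1409630264) (dlOf (nat_lit 1) (nat_lit 0x8008000400200020008060703))) 
(.lf (nat_lit 3494199352) (dlOf (nat_lit 2) (nat_lit 0x1c00000000002013600181d0b01)))) 
(.lf (nat_lit 3492102200) (dlOf (nat_lit 1) (nat_lit 0x20002001000080a0b82)))) (.nd (nat_lit 21) 
(.lf (nat_lit 3491577912) (dlOf (nat_lit 1) (nat_lit 0x8008000800200020008090003))) 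
(.lf (nat_lit 1346191416) (dlOf (nat_lit 2) (nat_lit 0xdd0af8079835c00000080078004000c0008e60502)))))) 
(.nd (nat_lit 7) (.nd (nat_lit 8) (.nd (nat_lit 9) 
(.lf (nat_lit 474562616) (dlOf (nat_lit 7) (nat_lit 0x50ac0000cc0800e85600006404000c2b00003102000416600020ac0000b0100018560000300400142b00001202003000291a0501))) 
(.nd (nat_lit 12) 
(.lf (nat_lit 6308316728) (dlOf (nat_lit 2) (nat_lit 0x13003600a201900580058000a81801d8008002400200160008053783))) 
(.lf (nat_lit 4160837176) (dlOf (nat_lit 1) (nat_lit 0xc0018009c01))))) (.nd (nat_lit 10) 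
(.lf (nat_lit 3087089976) (dlOf (nat_lit 2) (nat_lit 0x1e01f000b00b82f780000002e0c0f14002147e00080b0582))) 
(.lf (nat_lit 5773542712) (dlOf (nat_lit 1) (nat_lit 0x19000280e3281))))) (.nd (nat_lit 29) 
(.nd (nat_lit 8) (.lf (nat_lit 3623962808) (dlOf (nat_lit 1) (nat_lit 0x1c0028004901))) 
(.lf (nat_lit 4697702840) (dlOf (nat_lit 2) (nat_lit 0x3001500660090005341000e0008001c002009a0008091003)))) 
(.nd (nat_lit 10) 
(.lf (nat_lit 2080457144) (dlOf (nat_lit 2) (nat_lit 0x3201c8005800801200080004002003e0008091003))) 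
(.lf (nat_lit 6308316600) (dlOf (nat_lit 4) (nat_lit 0x164032008e00a005800480058418026006001380100009d04009a018004d0040002381002a8008002800200160008053603))))))) 
(.nd (nat_lit 7) (.nd (nat_lit 26) (.nd (nat_lit 10) (.nd (nat_lit 18) 
(.lf (nat_lit 3491840120) (dlOf (nat_lit 2) (nat_lit 0x70078002b804001000200020008090082))) 
(.lf (nat_lit 5773279352) (dlOf (nat_lit 3) (nat_lit 0x50000001900800585740000004000c004000a00180c0b82)))) 
(.lf (nat_lit 1342264440) (dlOf (nat_lit 1) (nat_lit 0xe0018009481)))) (.nd (nat_lit 8) 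
(.nd (nat_lit 9) 
(.lf (nat_lit 2080718968) (dlOf (nat_lit 1) (nat_lit 0x28008000c002000400080c0b83))) 
(.lf (nat_lit 6241207928) (dlOf (nat_lit 2) (nat_lit 0x7004c000000400e000400260018053982)))) 
(.nd (nat_lit 27) 
(.lf (nat_lit 1409370488) (dlOf (nat_lit 3) (nat_lit 0xa05f0097901000102f804bc4080168008006000200020008004e83))) 
(.lf (nat_lit 3154200952) (dlOf (nat_lit 1) (nat_lit 0xc0008104e81)))))) (.nd (nat_lit 9) 
(.nd (nat_lit 8) (.nd (nat_lit 20) 
(.lf (nat_lit 3691069688) (dlOf (nat_lit 1) (nat_lit 0x560028010701))) 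
(.lf (nat_lit 6376472824) (dlOf (nat_lit 1) (nat_lit 0x1000400060018090a82)))) (.nd (nat_lit 11) 
(.lf (nat_lit 4697703928) (dlOf (nat_lit 1) (nat_lit 0x20018093681))) 
(.lf (nat_lit 469851640) (dlOf (nat_lit 1) (nat_lit 0x50008007c0020056000800cd03))))) 
(.nd (nat_lit 11) (.nd (nat_lit 10) 
(.lf (nat_lit 4160832248) (dlOf (nat_lit 1) (nat_lit 0xe0018002101))) 
(.lf (nat_lit 1410156280) (dlOf (nat_lit 1) (nat_lit 0xa0008005c002009600080f3b83)))) 
(.nd (nat_lit 8) (.lf (nat_lit 3154201336) (dlOf (nat_lit 1) (nat_lit 0x140018105a01))) 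
(.lf (nat_lit 469851128) (dlOf (nat_lit 1) (nat_lit 0x8800800700020062000800bf03))))))))))))

end

end Pool.Agent.Lib.MP_5854e1_co.Cz

namespace Pool.Agent.Lib.MP_5854e1_co.Cz

noncomputable section

noncomputable def tz69 : DT := (.nd (nat_lit 18) (.nd (nat_lit 5) (.nd (nat_lit 6) (.nd (nat_lit 3) 
(.nd (nat_lit 16) (.nd (nat_lit 19) (.nd (nat_lit 26) (.nd (nat_lit 20) (.nd (nat_lit 23) 
(.nd (nat_lit 10) (.nd (nat_lit 27) 
(.lf (nat_lit 4026679312) (dlOf (nat_lit 1) (nat_lit 0x40028030881))) 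
(.lf (nat_lit 4966203408) (dlOf (nat_lit 1) (nat_lit 0x380018040001)))) 
(.lf (nat_lit 4697768976) (dlOf (nat_lit 1) (nat_lit 0x90008012000200060008092883)))) 
(.nd (nat_lit 22) 
(.lf (nat_lit 25313296) (dlOf (nat_lit 4) (nat_lit 0x37391501acc37806904100dde45406c30de01a3f0400c39150068c378067d01001d8008019400200360008bf0883))) 
(.lf (nat_lit 12730384) (dlOf (nat_lit 1) (nat_lit 0x4002000200086e0502))))) (.nd (nat_lit 8) 
(.nd (nat_lit 7) (.nd (nat_lit 22) 
(.lf (nat_lit 3490856976) (dlOf (nat_lit 1) (nat_lit 0x20028030881))) 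
(.lf (nat_lit 47333392) (dlOf (nat_lit 1) (nat_lit 0x80080030002000200093d0103)))) 
(.lf (nat_lit 11681936) (dlOf (nat_lit 1) (nat_lit 0x200186c0101)))) (.nd (nat_lit 10) 
(.nd (nat_lit 11) (.lf (nat_lit 20070672) (dlOf (nat_lit 1) (nat_lit 0x4002000200089d0a82))) 
(.lf (nat_lit 20076816) (dlOf (nat_lit 1) (nat_lit 0x4e00189daa81)))) 
(.lf (nat_lit 51528976) (dlOf (nat_lit 1) (nat_lit 0x400200020009513002)))))) (.nd (nat_lit 27) 
(.nd (nat_lit 31) (.nd (nat_lit 9) 
(.lf (nat_lit 67256336) (dlOf (nat_lit 4) (nat_lit 0x602d800128080060590000820400101b200100d30001d828080100))) 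
(.lf (nat_lit 4362224144) (dlOf (nat_lit 1) (nat_lit 0x400400020018018402)))) (.nd (nat_lit 20) 
(.lf (nat_lit 3288481808) (dlOf (nat_lit 1) (nat_lit 0x40028030881))) 
(.lf (nat_lit 2752659472) (dlOf (nat_lit 1) (nat_lit 0x20028030881))))) (.nd (nat_lit 8) 
(.nd (nat_lit 11) (.lf (nat_lit 5033312272) (dlOf (nat_lit 1) (nat_lit 0x380018040001))) 
(.lf (nat_lit 3959576592) (dlOf (nat_lit 2) (nat_lit 0x3802f002a681811a600)))) (.nd (nat_lit 7) 
(.lf (nat_lit 2617393936) (dlOf (nat_lit 2) (nat_lit 0x40100001580800700080064002003c00080a2103))) 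
(.lf (nat_lit 201475984) (dlOf (nat_lit 1) (nat_lit 0x20028004201))))))) (.nd (nat_lit 10) 
(.nd (nat_lit 27) (.nd (nat_lit 21) (.nd (nat_lit 22) (.nd (nat_lit 26) 
(.lf (nat_lit 3221897232) (dlOf (nat_lit 1) (nat_lit 0x200081b0101))) 
(.lf (nat_lit 3557441552) (dlOf (nat_lit 1) (nat_lit 0x20028200201)))) 
(.lf (nat_lit 13254672) (dlOf (nat_lit 1) (nat_lit 0x8008000c00200020008710a03)))) (.nd (nat_lit 9) 
(.lf (nat_lit 3817488) (dlOf (nat_lit 4) (nat_lit 0xd49640002b0200104b20000d810008259000068080018008003c002001c0008230103))) 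
(.lf (nat_lit 57297424) (dlOf (nat_lit 1) (nat_lit 0x80029795081))))) (.nd (nat_lit 26) 
(.nd (nat_lit 29) 
(.lf (nat_lit 134889488) (dlOf (nat_lit 3) (nat_lit 0x8c08201a4502004404100d218180d0880))) 
(.lf (nat_lit 3892985872) (dlOf (nat_lit 1) (nat_lit 0x24004000e00082c0282)))) (.nd (nat_lit 29) 
(.lf (nat_lit 201998352) (dlOf (nat_lit 3) (nat_lit 0x8c08201daa02004404100ed40180d0880))) 
(.lf (nat_lit 3960094736) (dlOf (nat_lit 1) (nat_lit 0x200081b0101)))))) (.nd (nat_lit 20) 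
(.nd (nat_lit 7) (.lf (nat_lit 32130320) (dlOf (nat_lit 2) (nat_lit 0x1249c00019018ef3000))) 
(.nd (nat_lit 26) (.lf (nat_lit 673680) (dlOf (nat_lit 1) (nat_lit 0x10008000400200040008004203))) 
(.lf (nat_lit 2752137104) (dlOf (nat_lit 1) (nat_lit 0x60018004201))))) (.nd (nat_lit 7) 
(.lf (nat_lit 58344720) (dlOf (nat_lit 1) (nat_lit 0xa00297e3001))) (.nd (nat_lit 12) 
(.lf (nat_lit 49955984) (dlOf (nat_lit 1) (nat_lit 0xdc00294c2b01))) 
(.lf (nat_lit 20599952) (dlOf (nat_lit 1) (nat_lit 0x2400189d9501)))))))) (.nd (nat_lit 27) 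
(.nd (nat_lit 20) (.nd (nat_lit 26) (.nd (nat_lit 21) (.nd (nat_lit 22) 
(.lf (nat_lit 2953003024) (dlOf (nat_lit 8) (nat_lit 0x17e01c0055b01017900e00048c0804880700008036001210401ee01c000700d800374100418070001ae04024c0380003902023801c001600c000000103820008047800203200008080483))) 
(.lf (nat_lit 12795920) (dlOf (nat_lit 6) (nat_lit 0x118fc0018c500001404000263f000028100023140000100800118fc0010c500000304000a63f0003314000008100010008000c002001000086e0503)))) 
(.nd (nat_lit 19) 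
(.lf (nat_lit 52641808) (dlOf (nat_lit 1) (nat_lit 0x88008000800200160009560283))) 
(.lf (nat_lit 11223056) (dlOf (nat_lit 3) (nat_lit 0x12915840930abe022455b01261e580c90f24000821401b4abe011c55b00471e48000ec183c18008011c00201380008670103))))) 
(.nd (nat_lit 8) (.nd (nat_lit 9) 
(.lf (nat_lit 604192784) (dlOf (nat_lit 4) (nat_lit 0x8064004802400c1b040074016000918100c100b000b8054001c00e0010006000a0000000002803c8008059400200b60008080483))) 
(.lf (nat_lit 3288547856) (dlOf (nat_lit 1) (nat_lit 0x2460008090d81)))) 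
(.lf (nat_lit 3556989200) (dlOf (nat_lit 17) (nat_lit 0xa00e0000bc04001807e0005d0200340380002e010001022800900fc000a808001008a000203f00029820009022800100e0001c0360005106000e03800020110001401000181c8003807e001a03800040110001142000180fc00084040004070000400200060380001f81000901c0000f40800200fc0005e04005407e0002e02000a03f0001681000401f80009c08004000800b0002003e000812aa83))))) 
(.nd (nat_lit 19) (.nd (nat_lit 21) (.nd (nat_lit 9) (.nd (nat_lit 26) 
(.lf (nat_lit 3490922512) (dlOf (nat_lit 1) (nat_lit 0x8008000400200020008030883))) 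
(.lf (nat_lit 2752725008) (dlOf (nat_lit 1) (nat_lit 0x8008000400200020008030883)))) 
(.lf (nat_lit 9650704) (dlOf (nat_lit 4) (nat_lit 0x176c6c0096204006f636004a7020067b1b00252818578400)))) 
(.nd (nat_lit 7) (.lf (nat_lit 24330256) (dlOf (nat_lit 1) (nat_lit 0x60018b90681))) 
(.lf (nat_lit 36915600) (dlOf (nat_lit 1) (nat_lit 0x40019074e81))))) (.nd (nat_lit 7) 
(.nd (nat_lit 23) (.lf (nat_lit 1343963152) (dlOf (nat_lit 1) (nat_lit 0x20028380781))) 
(.lf (nat_lit 10174480) (dlOf (nat_lit 1) (nat_lit 0x80080008002000200085b0483)))) 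
(.lf (nat_lit 37439888) (dlOf (nat_lit 1) (nat_lit 0x400200c400090d4e82)))))) (.nd (nat_lit 26) 
(.nd (nat_lit 30) (.nd (nat_lit 9) (.nd (nat_lit 19) 
(.lf (nat_lit 939737104) (dlOf (nat_lit 8) (nat_lit 0x86002c036001201d400400bb00000053c2002e0060043401601ce00400e200000051420090802c03e800801ca000000a103008c00c007d002c032c012019c00400d20000004ec2802080000026c0401380000010d02003800b00060020000001000f0008005400201ae0008160483))) 
(.lf (nat_lit 2819309584) (dlOf (nat_lit 2) (nat_lit 0x10230002808400000080024004000c0008230382)))) 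
(.lf (nat_lit 3087221264) (dlOf (nat_lit 1) (nat_lit 0x20008000800200160008158403)))) 
(.nd (nat_lit 7) (.nd (nat_lit 10) 
(.lf (nat_lit 1476608016) (dlOf (nat_lit 4) (nat_lit 0x700c8003004800d0c080038022001af02002a017000600b00020000000000c0020004002800080a0482))) 
(.lf (nat_lit 5771578384) (dlOf (nat_lit 1) (nat_lit 0x400200020008005f82)))) 
(.lf (nat_lit 4160968336) (dlOf (nat_lit 6) (nat_lit 0x1006c0003a0400280360001b02003202b000e00d8000601000280ac00040340001504003602b001300d0000441000800080098002001400080a9e83))))) 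
(.nd (nat_lit 19) (.nd (nat_lit 10) (.nd (nat_lit 28) 
(.lf (nat_lit 1812152336) (dlOf (nat_lit 8) (nat_lit 0x86002c036001201d400400bb0000007802002e0060043401601ce00400e200000075820090802c03e800801ca000000e983008c00c007d002c032c012019c00400d20000007302802080000038e0401380000019c02003800b00060020000001000f0008005400201ae0008160483))) 
(.lf (nat_lit 3691200528) (dlOf (nat_lit 6) (nat_lit 0x180080052102000401d00270020013000c0035e0c00240080006003000d682000e0020006800c002dc080048054001200300030000000001800080080070002002600080a0483)))) 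
(.lf (nat_lit 3959637008) (dlOf (nat_lit 4) (nat_lit 0x800002bc8040004000015e202000200000ae8818112880)))) 
(.nd (nat_lit 9) (.nd (nat_lit 20) 
(.lf (nat_lit 3154853904) (dlOf (nat_lit 1) (nat_lit 0x50008002c00200140008350283))) 
(.lf (nat_lit 471547920) (dlOf (nat_lit 1) (nat_lit 0x1800400060008330182)))) 
(.lf (nat_lit 738935312) (dlOf (nat_lit 1) (nat_lit 0x4004000e0018157b82)))))))) (.nd (nat_lit 16) 
(.nd (nat_lit 19) (.nd (nat_lit 30) (.nd (nat_lit 11) (.nd (nat_lit 22) (.nd (nat_lit 9) 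
(.nd (nat_lit 26) 
(.lf (nat_lit 2952937496) (dlOf (nat_lit 19) (nat_lit 0x23c0080024d0200020040012601000700200090808003000c0048204022005a011a0060041000000564183a300b403040140dae000000ac0304d20168007002812900000015706032602d01c10000005581004680b4002aa04070005a0354000000a88201f00000005200802700b400fc052000e00a0008003001780000028e14014800c00142020002000000a081003e0148032801807c4000001400600a002d0009f81003e016801f00a401a800c00820000009a0400020150069001000c0006000000600180008030081))) 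
(.lf (nat_lit 604127256) (dlOf (nat_lit 12) (nat_lit 0x4008a000a036000ad82003e0228005640818a0114032c07e04e6000000ac0301f102280055c080470114002ac04024808a0015102002c039007401b00051c1005f0114002406c0014004001c0450009f8100810228004d00801780d8000000401d8004000a0008030082)))) 
(.lf (nat_lit 20076056) (dlOf (nat_lit 1) (nat_lit 0xa8002000800089d9c02)))) (.nd (nat_lit 8) 
(.lf (nat_lit 12730392) (dlOf (nat_lit 1) (nat_lit 0x4004000200186e0a02))) 
(.lf (nat_lit 54673688) (dlOf (nat_lit 1) (nat_lit 0x20019650a81))))) (.nd (nat_lit 10) 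
(.nd (nat_lit 7) (.lf (nat_lit 537025048) (dlOf (nat_lit 1) (nat_lit 0x2000800b281))) 
(.lf (nat_lit 805456280) (dlOf (nat_lit 1) (nat_lit 0x80018114e81)))) (.nd (nat_lit 26) 
(.lf (nat_lit 4563553304) (dlOf (nat_lit 1) (nat_lit 0x20028096001))) 
(.lf (nat_lit 738348056) (dlOf (nat_lit 1) (nat_lit 0x400200020008096002)))))) (.nd (nat_lit 26) 
(.nd (nat_lit 8) (.nd (nat_lit 29) 
(.lf (nat_lit 3624026136) (dlOf (nat_lit 1) (nat_lit 0x4e00280b0001))) 
(.lf (nat_lit 2013413400) (dlOf (nat_lit 3) (nat_lit 0x20030037f0080020018000800000dfb0400120028060a01)))) 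
(.nd (nat_lit 7) (.lf (nat_lit 3355595544) (dlOf (nat_lit 1) (nat_lit 0x400080a8f81))) 
(.lf (nat_lit 1208109464) (dlOf (nat_lit 1) (nat_lit 0x1c004000c0008094e82))))) (.nd (nat_lit 7) 
(.nd (nat_lit 27) (.lf (nat_lit 1140998168) (dlOf (nat_lit 1) (nat_lit 0x20018060a01))) 
(.lf (nat_lit 3691135000) (dlOf (nat_lit 1) (nat_lit 0x40028050081)))) (.nd (nat_lit 10) 
(.lf (nat_lit 1677871256) (dlOf (nat_lit 2) (nat_lit 0x280000001404002800400160018114802))) 
(.lf (nat_lit 1543654552) (dlOf (nat_lit 1) (nat_lit 0x10002000e0008146202))))))) (.nd (nat_lit 20) 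
(.nd (nat_lit 26) (.nd (nat_lit 21) (.nd (nat_lit 27) 
(.lf (nat_lit 1342849048) (dlOf (nat_lit 2) (nat_lit 0x171118000500801680080100002001400080f0483))) 
(.lf (nat_lit 134889496) (dlOf (nat_lit 2) (nat_lit 0x56041000000180d0880)))) 
(.lf (nat_lit 27934744) (dlOf (nat_lit 1) (nat_lit 0xc0008000800200280008d40483)))) 
(.nd (nat_lit 28) (.lf (nat_lit 201998360) (dlOf (nat_lit 2) (nat_lit 0x56041000000180d0880))) 
(.lf (nat_lit 3154788376) (dlOf (nat_lit 2) (nat_lit 0x3201900011818320900))))) (.nd (nat_lit 22) 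
(.nd (nat_lit 7) (.nd (nat_lit 24) 
(.lf (nat_lit 3817496) (dlOf (nat_lit 1) (nat_lit 0x1800200020008230482))) 
(.lf (nat_lit 54149144) (dlOf (nat_lit 1) (nat_lit 0x30008001c00200060009630083)))) 
(.lf (nat_lit 1345994904) (dlOf (nat_lit 1) (nat_lit 0x20018e20501)))) (.nd (nat_lit 21) 
(.lf (nat_lit 22691864) (dlOf (nat_lit 5) (nat_lit 0xcdf500066f60003352c00199a60152608000adf500066f60001352c00199a60152508000cdf500066f60003352c00199a60152308000adf500066f60002b52c00199a6015220800060018b10501))) 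
(.nd (nat_lit 23) 
(.lf (nat_lit 24789016) (dlOf (nat_lit 3) (nat_lit 0x236910015b44800054100065a440002804000800400800018bb0482))) 
(.lf (nat_lit 16400408) (dlOf (nat_lit 1) (nat_lit 0x4004000200088a0482)))))))) (.nd (nat_lit 28) 
(.nd (nat_lit 31) (.nd (nat_lit 7) (.nd (nat_lit 19) (.nd (nat_lit 22) 
(.lf (nat_lit 1812152344) (dlOf (nat_lit 2) (nat_lit 0x208016006e00400140000000001808880080934002006a0008160483))) 
(.lf (nat_lit 29573144) (dlOf (nat_lit 2) (nat_lit 0xd9658000a99000018028e20400)))) 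
(.lf (nat_lit 537608216) (dlOf (nat_lit 1) (nat_lit 0x1e00080d0881)))) (.nd (nat_lit 8) 
(.lf (nat_lit 23281816) (dlOf (nat_lit 1) (nat_lit 0x800400060008b80182))) 
(.lf (nat_lit 4966271384) (dlOf (nat_lit 1) (nat_lit 0x100018094e81))))) (.nd (nat_lit 8) 
(.nd (nat_lit 7) (.nd (nat_lit 9) 
(.lf (nat_lit 3288547352) (dlOf (nat_lit 1) (nat_lit 0x2340008090001))) 
(.lf (nat_lit 3959642648) (dlOf (nat_lit 11) (nat_lit 0x2f0230014811400bc07000c1306005c04600609010021023001180e00182208007808c00480380060802000402300301c080118118007c08a00b2a04003e046001e022802ca41000f0118005c08a00b28040048046001e022802c9c10002011801636040004004006a001811b282)))) 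
(.lf (nat_lit 2751678104) (dlOf (nat_lit 1) (nat_lit 0x1580018003a81)))) (.nd (nat_lit 7) 
(.nd (nat_lit 9) (.lf (nat_lit 2755871000) (dlOf (nat_lit 1) (nat_lit 0x2a00281b0481))) 
(.lf (nat_lit 2885895960) (dlOf (nat_lit 1) (nat_lit 0x400400020008143c82)))) 
(.lf (nat_lit 3288547736) (dlOf (nat_lit 1) (nat_lit 0x1e0028090781)))))) (.nd (nat_lit 27) 
(.nd (nat_lit 26) (.nd (nat_lit 7) (.nd (nat_lit 19) 
(.lf (nat_lit 2953003032) (dlOf (nat_lit 2) (nat_lit 0xb00700020204011000400d20008080482))) 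
(.lf (nat_lit 1345011736) (dlOf (nat_lit 2) (nat_lit 0x40a680091c0800280080008002000400089d0603)))) 
(.lf (nat_lit 4026745240) (dlOf (nat_lit 1) (nat_lit 0x1000200140008090782)))) (.nd (nat_lit 10) 
(.nd (nat_lit 19) 
(.lf (nat_lit 5704466456) (dlOf (nat_lit 3) (nat_lit 0x3c0360010019000900580363818014802c01b08040004004004c00180a0a02))) 
(.lf (nat_lit 1410023448) (dlOf (nat_lit 1) (nat_lit 0x1e00080d0881)))) (.nd (nat_lit 20) 
(.lf (nat_lit 6241340440) (dlOf (nat_lit 1) (nat_lit 0x1e00180d6001))) 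
(.lf (nat_lit 4094905368) (dlOf (nat_lit 1) (nat_lit 0x20028056001)))))) (.nd (nat_lit 7) 
(.nd (nat_lit 9) (.nd (nat_lit 8) 
(.lf (nat_lit 6308446232) (dlOf (nat_lit 1) (nat_lit 0xa00180a0a01))) 
(.lf (nat_lit 6378176792) (dlOf (nat_lit 1) (nat_lit 0x400200020008127502)))) (.nd (nat_lit 12) 
(.lf (nat_lit 4764943896) (dlOf (nat_lit 1) (nat_lit 0x400400020008093702))) 
(.lf (nat_lit 4160968216) (dlOf (nat_lit 2) (nat_lit 0x80ac01690040018002001a00080a9c02))))) 
(.nd (nat_lit 8) (.lf (nat_lit 6377128088) (dlOf (nat_lit 1) (nat_lit 0xc00180a2b81))) 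
(.lf (nat_lit 1006846360) (dlOf (nat_lit 1) (nat_lit 0x400180c0781))))))))) (.nd (nat_lit 30) 
(.nd (nat_lit 8) (.nd (nat_lit 3) (.nd (nat_lit 20) (.nd (nat_lit 27) (.nd (nat_lit 28) 
(.nd (nat_lit 9) (.nd (nat_lit 21) 
(.lf (nat_lit 604127312) (dlOf (nat_lit 8) (nat_lit 0x980480004c0401f004c0016000000110200050090000840803b8000000300402d80000000402000c0000000101000a017806b00000000008009400400020008030702))) 
(.lf (nat_lit 52576336) (dlOf (nat_lit 6) (nat_lit 0x660880062fe800316540016b28001553d800114280142fec00b57f4004ab290017594000629ec0002e1400197f60010b290000b0200f15948000440801fafec00d9652000000400120019550701)))) 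
(.lf (nat_lit 58870352) (dlOf (nat_lit 1) (nat_lit 0x4004000200097e5282)))) (.nd (nat_lit 26) 
(.nd (nat_lit 31) (.lf (nat_lit 268582992) (dlOf (nat_lit 1) (nat_lit 0x40028090501))) 
(.lf (nat_lit 6711033936) (dlOf (nat_lit 1) (nat_lit 0x400400020008040502)))) 
(.lf (nat_lit 5167530064) (dlOf (nat_lit 5) (nat_lit 0xc028000e00d0001781000600a000240340005d04000c0280002d810006014000168080040008004c00200100008080503))))) 
(.nd (nat_lit 26) (.nd (nat_lit 7) (.nd (nat_lit 19) 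
(.lf (nat_lit 4966203472) (dlOf (nat_lit 1) (nat_lit 0x400018040501))) 
(.lf (nat_lit 134889552) (dlOf (nat_lit 2) (nat_lit 0x430188001580800080080110002002c00080d0d03)))) 
(.lf (nat_lit 402800848) (dlOf (nat_lit 1) (nat_lit 0x8008000400200020008090903)))) 
(.nd (nat_lit 9) (.nd (nat_lit 19) 
(.lf (nat_lit 5033312336) (dlOf (nat_lit 1) (nat_lit 0x400018040501))) 
(.lf (nat_lit 201998416) (dlOf (nat_lit 2) (nat_lit 0x4301880013c0800080080110002002c00080d0d03)))) 
(.lf (nat_lit 472074832) (dlOf (nat_lit 1) (nat_lit 0x400400020018805282)))))) (.nd (nat_lit 16) 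
(.nd (nat_lit 19) (.nd (nat_lit 23) 
(.lf (nat_lit 2752659536) (dlOf (nat_lit 2) (nat_lit 0xb80fc0009e04002c00400060008031002))) 
(.lf (nat_lit 43139152) (dlOf (nat_lit 1) (nat_lit 0x8400192a0001)))) (.nd (nat_lit 9) 
(.lf (nat_lit 45760592) (dlOf (nat_lit 1) (nat_lit 0x3000400040009360702))) 
(.lf (nat_lit 39471696) (dlOf (nat_lit 1) (nat_lit 0x20019195281))))) (.nd (nat_lit 9) 
(.nd (nat_lit 19) 
(.lf (nat_lit 68370512) (dlOf (nat_lit 2) (nat_lit 0x168040019c0000002f828570200))) 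
(.lf (nat_lit 45826128) (dlOf (nat_lit 3) (nat_lit 0x536030001f810013b01800980000001e08005400400220009360702)))) 
(.lf (nat_lit 36915792) (dlOf (nat_lit 1) (nat_lit 0x20019075281)))))) (.nd (nat_lit 7) 
(.nd (nat_lit 10) (.nd (nat_lit 26) (.nd (nat_lit 9) (.nd (nat_lit 29) 
(.lf (nat_lit 268583000) (dlOf (nat_lit 1) (nat_lit 0x600080004002001e0008090603))) 
(.lf (nat_lit 2952937560) (dlOf (nat_lit 5) (nat_lit 0xb900e00ac80100006a0800600540002902005402a0001401000c01500009c080088008003c002001c0008030803)))) 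
(.lf (nat_lit 58870360) (dlOf (nat_lit 1) (nat_lit 0x200297e5301)))) (.nd (nat_lit 22) 
(.lf (nat_lit 604127320) (dlOf (nat_lit 4) (nat_lit 0x1c4011000148100fc00880009c0802680000003604009000200b60008030802))) 
(.lf (nat_lit 2755805272) (dlOf (nat_lit 1) (nat_lit 0x400281b0001))))) (.nd (nat_lit 16) 
(.nd (nat_lit 19) (.lf (nat_lit 38945880) (dlOf (nat_lit 1) (nat_lit 0x60019192901))) 
(.lf (nat_lit 34227288) (dlOf (nat_lit 1) (nat_lit 0x40028fb2901)))) (.nd (nat_lit 19) 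
(.lf (nat_lit 42157144) (dlOf (nat_lit 1) (nat_lit 0x20029242901))) 
(.lf (nat_lit 34292824) (dlOf (nat_lit 1) (nat_lit 0x40028fb2901)))))) (.nd (nat_lit 16) 
(.nd (nat_lit 11) (.nd (nat_lit 19) 
(.lf (nat_lit 2885828824) (dlOf (nat_lit 3) (nat_lit 0x260000001d1020180000000408180b0480))) 
(.lf (nat_lit 28983512) (dlOf (nat_lit 1) (nat_lit 0xe0008da0501)))) 
(.lf (nat_lit 6442600664) (dlOf (nat_lit 1) (nat_lit 0xa00180f4a81)))) (.nd (nat_lit 12) 
(.lf (nat_lit 2310360) (dlOf (nat_lit 2) (nat_lit 0x370b0005c4080048008001c002000c0008150483))) 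
(.lf (nat_lit 2818789592) (dlOf (nat_lit 1) (nat_lit 0x8008000400200020008128083))))))) 
(.nd (nat_lit 7) (.nd (nat_lit 3) (.nd (nat_lit 16) (.nd (nat_lit 19) (.nd (nat_lit 21) 
(.lf (nat_lit 9584976) (dlOf (nat_lit 1) (nat_lit 0x180028574d81))) 
(.lf (nat_lit 11682128) (dlOf (nat_lit 1) (nat_lit 0x1680080130002006c00086c0603)))) 
(.lf (nat_lit 1007305040) (dlOf (nat_lit 1) (nat_lit 0x2c00182e0801)))) (.nd (nat_lit 10) 
(.lf (nat_lit 3087221072) (dlOf (nat_lit 2) (nat_lit 0x680000005004001000200100008154d82))) 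
(.lf (nat_lit 20139344) (dlOf (nat_lit 1) (nat_lit 0x200189d6a01))))) (.nd (nat_lit 9) 
(.nd (nat_lit 27) 
(.lf (nat_lit 4362223960) (dlOf (nat_lit 3) (nat_lit 0x3902380010008006811c0007e04000400200020008014e02))) 
(.lf (nat_lit 469909848) (dlOf (nat_lit 1) (nat_lit 0x4400400180008014e02)))) (.nd (nat_lit 11) 
(.nd (nat_lit 26) (.lf (nat_lit 6442600280) (dlOf (nat_lit 1) (nat_lit 0xc00180f3f81))) 
(.lf (nat_lit 201475928) (dlOf (nat_lit 1) (nat_lit 0x20028003f81)))) 
(.lf (nat_lit 2818789208) (dlOf (nat_lit 1) (nat_lit 0x180080024002000c0008127783)))))) 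
(.nd (nat_lit 10) (.nd (nat_lit 16) (.nd (nat_lit 20) (.nd (nat_lit 27) 
(.lf (nat_lit 4295115216) (dlOf (nat_lit 1) (nat_lit 0x400400020008090a02))) 
(.lf (nat_lit 4429332944) (dlOf (nat_lit 1) (nat_lit 0x400400020008090a02)))) 
(.lf (nat_lit 43139536) (dlOf (nat_lit 1) (nat_lit 0x4004000200192a1102)))) (.nd (nat_lit 27) 
(.lf (nat_lit 2416132560) (dlOf (nat_lit 3) (nat_lit 0xac02e0002402006001700011018090a00))) 
(.lf (nat_lit 2550350288) (dlOf (nat_lit 3) (nat_lit 0xac02e0002402006001700011018090a00))))) 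
(.nd (nat_lit 16) (.nd (nat_lit 9) 
(.lf (nat_lit 153040) (dlOf (nat_lit 1) (nat_lit 0x9000200080008009b02))) (.nd (nat_lit 26) 
(.lf (nat_lit 671238096) (dlOf (nat_lit 1) (nat_lit 0x80028144501))) 
(.lf (nat_lit 201476048) (dlOf (nat_lit 1) (nat_lit 0x20028004501))))) (.nd (nat_lit 9) 
(.lf (nat_lit 2818790864) (dlOf (nat_lit 1) (nat_lit 0x14004000c0008129b02))) (.nd (nat_lit 11) 
(.lf (nat_lit 671303632) (dlOf (nat_lit 1) (nat_lit 0x34000800e400200020008144503))) 
(.lf (nat_lit 2818789328) (dlOf (nat_lit 3) (nat_lit 0xe01f8027e40800400fc013f004000c00200140008127a82))))))))) 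
(.nd (nat_lit 26) (.nd (nat_lit 3) (.nd (nat_lit 29) (.nd (nat_lit 28) (.nd (nat_lit 32) 
(.nd (nat_lit 7) (.lf (nat_lit 1073954896) (dlOf (nat_lit 1) (nat_lit 0x1400200040008031002))) 
(.lf (nat_lit 3221380304) (dlOf (nat_lit 7) (nat_lit 0x2a0200002740801480f8001020400c007c0008002004e03e0003f81002701f0001f80801380f8000fa0400300040042000811c282)))) 
(.nd (nat_lit 27) 
(.lf (nat_lit 5368856656) (dlOf (nat_lit 3) (nat_lit 0xa2015002b00a0038804c010002200c6010005700700210014000c21c00ac02a004601400880098015004401b0020008800e001900280018038018000800fc00200500008040503))) 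
(.lf (nat_lit 5503074384) (dlOf (nat_lit 3) (nat_lit 0xa2015002b00a0038804c010002200c6010005700700210014000d41c00ac02a004601400880098015004401b0020008800e00190028001a438018000800fc00200500008040503))))) 
(.nd (nat_lit 19) 
(.lf (nat_lit 3490857040) (dlOf (nat_lit 2) (nat_lit 0xb80fc000ac04002c00400060008031002))) 
(.lf (nat_lit 1344946256) (dlOf (nat_lit 1) (nat_lit 0x4004000400089a0702))))) (.nd (nat_lit 9) 
(.nd (nat_lit 7) 
(.lf (nat_lit 4026679376) (dlOf (nat_lit 2) (nat_lit 0xf00d40000004002800400340008031002))) 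
(.lf (nat_lit 1611350480) (dlOf (nat_lit 3) (nat_lit 0x6068000203300008000004500c00140d000080660003000000860180350008005000200260008137b03)))) 
(.nd (nat_lit 16) (.lf (nat_lit 1610761808) (dlOf (nat_lit 1) (nat_lit 0x400200020008093882))) 
(.lf (nat_lit 1610827344) (dlOf (nat_lit 1) (nat_lit 0x400200020008093882)))))) (.nd (nat_lit 19) 
(.nd (nat_lit 27) (.nd (nat_lit 7) (.nd (nat_lit 9) 
(.lf (nat_lit 5368856664) (dlOf (nat_lit 11) (nat_lit 0x12700a80018038044800a0004c060062015002e0098008004000b801c01e4005000258500640028001280803500140009204017c00a000480200020140001008800200380008c0c042402a01d60140032008806700380008010048802a020a014003a009805e004403e401c0003f0a014a01500a600a00330044027801c0003e080036015002200a0000f01000c000802b400203640008040603))) 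
(.lf (nat_lit 1345473112) (dlOf (nat_lit 2) (nat_lit 0x5f04d001d822800700f4000230600020018c35301)))) 
(.lf (nat_lit 3221376472) (dlOf (nat_lit 2) (nat_lit 0x4201440003a040008004001c0008116d82)))) 
(.nd (nat_lit 7) (.nd (nat_lit 8) 
(.lf (nat_lit 5503074392) (dlOf (nat_lit 11) (nat_lit 0x12700a80018038044800a00053060062015002e0098008004000b801c01e400500029050064002800144080350014000a004017c00a0004f0200020140001008800200380009a0c042402a01d60140032008806700380008e10048802a020a014003a009805e004403e401c000460a014a01500a600a00330044027801c00045080036015002200a00010c1000c000802b400203640008040603))) 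
(.lf (nat_lit 5773608280) (dlOf (nat_lit 1) (nat_lit 0x58004000200080e3382)))) 
(.lf (nat_lit 3624026328) (dlOf (nat_lit 3) (nat_lit 0x260000001d1020180000000408180b0480))))) 
(.nd (nat_lit 16) (.nd (nat_lit 20) 
(.lf (nat_lit 1344946264) (dlOf (nat_lit 2) (nat_lit 0x4320001a163000b057801e80000004a100188004005000089a0802))) 
(.lf (nat_lit 5773082712) (dlOf (nat_lit 1) (nat_lit 0x80080004002000200080a1883)))) 
(.nd (nat_lit 7) (.nd (nat_lit 9) 
(.lf (nat_lit 5773148248) (dlOf (nat_lit 1) (nat_lit 0x200280a1881))) 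
(.lf (nat_lit 1346062936) (dlOf (nat_lit 1) (nat_lit 0x3400400020008e25302)))) 
(.lf (nat_lit 1611350488) (dlOf (nat_lit 4) (nat_lit 0x16068000903300048000004500c00380d00018066000401f80068000004341000400d0001c066000e00000085c180388008013c00200260008137b03))))))) 
(.nd (nat_lit 8) (.nd (nat_lit 16) (.nd (nat_lit 3) (.nd (nat_lit 19) (.nd (nat_lit 27) 
(.lf (nat_lit 3288481872) (dlOf (nat_lit 2) (nat_lit 0xf00d40000004002800400340008031002))) 
(.lf (nat_lit 6107054160) (dlOf (nat_lit 1) (nat_lit 0x400400020008040502)))) 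
(.lf (nat_lit 1678393424) (dlOf (nat_lit 2) (nat_lit 0x24009800040080118008002400200b00008201903)))) 
(.nd (nat_lit 7) (.lf (nat_lit 3691135064) (dlOf (nat_lit 1) (nat_lit 0x20028050801))) 
(.lf (nat_lit 1543654616) (dlOf (nat_lit 3) (nat_lit 0x700a0000500800100500000a04002800200360008146482))))) 
(.nd (nat_lit 3) (.nd (nat_lit 7) (.nd (nat_lit 9) 
(.lf (nat_lit 1946370128) (dlOf (nat_lit 1) (nat_lit 0x1400200040008031002))) 
(.lf (nat_lit 3556989520) (dlOf (nat_lit 5) (nat_lit 0x3280fc009920400dc07e004c702013c03f0026101009e01f80130408012000800480020046000812b683)))) 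
(.lf (nat_lit 3556988624) (dlOf (nat_lit 1) (nat_lit 0x240040040000812a002)))) (.nd (nat_lit 11) 
(.lf (nat_lit 1275281624) (dlOf (nat_lit 1) (nat_lit 0xc00180c1901))) 
(.lf (nat_lit 3959638232) (dlOf (nat_lit 1) (nat_lit 0x20028114a81)))))) (.nd (nat_lit 7) 
(.nd (nat_lit 27) (.nd (nat_lit 3) (.nd (nat_lit 9) 
(.lf (nat_lit 1409437008) (dlOf (nat_lit 2) (nat_lit 0x1e00600008018006a00))) 
(.lf (nat_lit 3556988752) (dlOf (nat_lit 1) (nat_lit 0x140040006001812a202)))) 
(.lf (nat_lit 1677871448) (dlOf (nat_lit 1) (nat_lit 0x400200020008114e02)))) (.nd (nat_lit 3) 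
(.nd (nat_lit 10) 
(.lf (nat_lit 3959576912) (dlOf (nat_lit 1) (nat_lit 0x1b0008059c002004c000811ab83))) 
(.lf (nat_lit 1543654736) (dlOf (nat_lit 4) (nat_lit 0x1440230041010000a00740104030000a0050000a85007a01180068080007403000320050000984009e011801c0080005803a007c018000300280001428001800800b800200480008146a03)))) 
(.lf (nat_lit 1543654744) (dlOf (nat_lit 2) (nat_lit 0xe00500001818146a80))))) (.nd (nat_lit 3) 
(.nd (nat_lit 9) 
(.lf (nat_lit 4228006352) (dlOf (nat_lit 1) (nat_lit 0x98008002000200080008017103))) 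
(.nd (nat_lit 10) 
(.lf (nat_lit 3959571408) (dlOf (nat_lit 3) (nat_lit 0x70000057440800880000286204002400400300008112882))) 
(.lf (nat_lit 1677871056) (dlOf (nat_lit 1) (nat_lit 0x580028114501))))) (.nd (nat_lit 9) 
(.lf (nat_lit 4228006360) (dlOf (nat_lit 1) (nat_lit 0x78008001c00200060008017103))) 
(.lf (nat_lit 4094905304) (dlOf (nat_lit 1) (nat_lit 0x40028055e01)))))))))) (.nd (nat_lit 6) 
(.nd (nat_lit 16) (.nd (nat_lit 26) (.nd (nat_lit 9) (.nd (nat_lit 23) (.nd (nat_lit 27) 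
(.nd (nat_lit 28) (.nd (nat_lit 10) (.nd (nat_lit 30) (.nd (nat_lit 3) 
(.lf (nat_lit 2684502064) (dlOf (nat_lit 1) (nat_lit 0x18008000400200040008080d83))) 
(.lf (nat_lit 52576312) (dlOf (nat_lit 2) (nat_lit 0x96098000000800c80080014002000e0009550503)))) 
(.nd (nat_lit 19) 
(.lf (nat_lit 5368856624) (dlOf (nat_lit 6) (nat_lit 0x4d00a801d80500094022008200e00460028000ac2801800140003004002002a000160200840150000981002000a80000008013800800cc00200240008040383))) 
(.lf (nat_lit 3221897264) (dlOf (nat_lit 4) (nat_lit 0x46e038000400b0001581011b8118000a604001008c0005202000800181b0681))))) 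
(.nd (nat_lit 8) (.lf (nat_lit 676912) (dlOf (nat_lit 1) (nat_lit 0x1c0028009201))) 
(.lf (nat_lit 20073776) (dlOf (nat_lit 1) (nat_lit 0x5600289d6881))))) (.nd (nat_lit 20) 
(.nd (nat_lit 29) (.lf (nat_lit 268582960) (dlOf (nat_lit 1) (nat_lit 0x40018090381))) 
(.lf (nat_lit 2952937520) (dlOf (nat_lit 1) (nat_lit 0x80008001400200100008030483)))) 
(.lf (nat_lit 1343373360) (dlOf (nat_lit 1) (nat_lit 0x60028210981))))) (.nd (nat_lit 3) 
(.nd (nat_lit 8) (.nd (nat_lit 28) (.nd (nat_lit 29) 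
(.lf (nat_lit 5503074352) (dlOf (nat_lit 6) (nat_lit 0x4d00a801d80500094022008200e00460028000d02801800140003004002002a000160200840150000981002000a80000008013800800cc00200240008040383))) 
(.lf (nat_lit 4966203440) (dlOf (nat_lit 1) (nat_lit 0x48004001c0018040382)))) 
(.lf (nat_lit 4697767984) (dlOf (nat_lit 2) (nat_lit 0x28054037580400a8004003c0008090002)))) 
(.lf (nat_lit 4429332784) (dlOf (nat_lit 1) (nat_lit 0x20800200720008090502)))) 
(.lf (nat_lit 134889528) (dlOf (nat_lit 2) (nat_lit 0x49018800744080038008008c002001a00080d0b83))))) 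
(.nd (nat_lit 7) (.nd (nat_lit 3) (.nd (nat_lit 19) 
(.lf (nat_lit 14827568) (dlOf (nat_lit 1) (nat_lit 0x400400020008780d02))) 
(.lf (nat_lit 15351856) (dlOf (nat_lit 2) (nat_lit 0x22a2800070080008008000c002000200087e0703)))) 
(.nd (nat_lit 8) (.lf (nat_lit 10633272) (dlOf (nat_lit 1) (nat_lit 0x10008000800200040008600683))) 
(.lf (nat_lit 13779256) (dlOf (nat_lit 1) (nat_lit 0x40028750701))))) (.nd (nat_lit 8) 
(.nd (nat_lit 10) (.nd (nat_lit 22) 
(.lf (nat_lit 9584816) (dlOf (nat_lit 1) (nat_lit 0x20008571601))) 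
(.lf (nat_lit 13779120) (dlOf (nat_lit 1) (nat_lit 0x400400020018750282)))) 
(.lf (nat_lit 48383152) (dlOf (nat_lit 5) (nat_lit 0x1fbe680129d040034e1200026b5001100000017c280091d04000ce1200060000002e83001a3a08001500800f1d040008a04001c002000a0009402c02)))) 
(.nd (nat_lit 19) (.lf (nat_lit 8537520) (dlOf (nat_lit 1) (nat_lit 0x400200020008513602))) 
(.lf (nat_lit 43664816) (dlOf (nat_lit 1) (nat_lit 0x600292a3601))))))) (.nd (nat_lit 11) 
(.nd (nat_lit 19) (.nd (nat_lit 3) (.nd (nat_lit 7) 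
(.lf (nat_lit 671237936) (dlOf (nat_lit 2) (nat_lit 0x120250003011000068100068008002400200120008143d83))) 
(.lf (nat_lit 671238064) (dlOf (nat_lit 2) (nat_lit 0x1c00280009008023800800ec002002e0008144383)))) 
(.lf (nat_lit 671237944) (dlOf (nat_lit 2) (nat_lit 0xa0250001009800080100188008006000200200008143e03)))) 
(.nd (nat_lit 8) (.nd (nat_lit 10) 
(.lf (nat_lit 3491381808) (dlOf (nat_lit 1) (nat_lit 0x140018090f01))) 
(.lf (nat_lit 8013360) (dlOf (nat_lit 1) (nat_lit 0x400200020008513782)))) 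
(.lf (nat_lit 9066288) (dlOf (nat_lit 1) (nat_lit 0x2001851a101))))) (.nd (nat_lit 20) 
(.nd (nat_lit 3) 
(.lf (nat_lit 46811696) (dlOf (nat_lit 3) (nat_lit 0x333c8005780800419e4002b80400b0002000c0009385182))) 
(.nd (nat_lit 19) (.lf (nat_lit 42093112) (dlOf (nat_lit 1) (nat_lit 0xa0019245201))) 
(.lf (nat_lit 36325944) (dlOf (nat_lit 1) (nat_lit 0x20029075201))))) (.nd (nat_lit 3) 
(.lf (nat_lit 36850224) (dlOf (nat_lit 1) (nat_lit 0x20029075181))) (.nd (nat_lit 24) 
(.lf (nat_lit 36850232) (dlOf (nat_lit 1) (nat_lit 0x8008000400200020009075203))) 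
(.lf (nat_lit 53627448) (dlOf (nat_lit 1) (nat_lit 0x4002000200095f5202)))))))) (.nd (nat_lit 30) 
(.nd (nat_lit 19) (.nd (nat_lit 27) (.nd (nat_lit 28) 
(.lf (nat_lit 67256368) (dlOf (nat_lit 4) (nat_lit 0xc16c000c0b58003036800041a40002d08001216c000160100020b60006836800141a8000170600260018080681))) 
(.lf (nat_lit 5167530032) (dlOf (nat_lit 2) (nat_lit 0x1c028000400c8000a01000d0008007800200260008080383)))) 
(.nd (nat_lit 3) (.nd (nat_lit 7) 
(.lf (nat_lit 5033312304) (dlOf (nat_lit 1) (nat_lit 0x48004001c0018040382))) 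
(.lf (nat_lit 2617398448) (dlOf (nat_lit 2) (nat_lit 0x4c017001344080b08008076c002005a00080a9503)))) 
(.lf (nat_lit 3154264376) (dlOf (nat_lit 1) (nat_lit 0x20018147b01))))) (.nd (nat_lit 3) 
(.nd (nat_lit 9) (.nd (nat_lit 27) 
(.lf (nat_lit 67780656) (dlOf (nat_lit 3) (nat_lit 0x285a400142a2000a14b000507d8000f02001580000001e0400d0002003a00082e0e82))) 
(.lf (nat_lit 3154788400) (dlOf (nat_lit 13) (nat_lit 0x118180049c0b402ba055001502680af00d0007c05000ac01400f50018000fc400bf8168002405e01f80030001b0300a502d0000d4080340168000600401080b40002f02012805a0000f81012802d006b800c0003c0800dc0b4000190201b402c0000781000f02c808000b001280560000706025202c0000301012601600000008003000800ec00200220008320e83)))) 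
(.lf (nat_lit 2753184304) (dlOf (nat_lit 1) (nat_lit 0x140018090f01)))) (.nd (nat_lit 9) 
(.nd (nat_lit 28) 
(.lf (nat_lit 201998392) (dlOf (nat_lit 2) (nat_lit 0x49018800744080038008008c002001a00080d0b83))) 
(.lf (nat_lit 3154788408) (dlOf (nat_lit 2) (nat_lit 0x5c02b00000018321100)))) 
(.lf (nat_lit 1009404472) (dlOf (nat_lit 1) (nat_lit 0x400400020009165202)))))) (.nd (nat_lit 11) 
(.nd (nat_lit 19) (.nd (nat_lit 3) (.nd (nat_lit 21) 
(.lf (nat_lit 3422699568) (dlOf (nat_lit 1) (nat_lit 0x4004000a0018060d82))) 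
(.lf (nat_lit 4095885360) (dlOf (nat_lit 1) (nat_lit 0x200280e0001)))) 
(.lf (nat_lit 5435965496) (dlOf (nat_lit 1) (nat_lit 0x20028070b81)))) (.nd (nat_lit 3) 
(.nd (nat_lit 27) (.lf (nat_lit 1678393392) (dlOf (nat_lit 1) (nat_lit 0x120028200f81))) 
(.lf (nat_lit 3960094768) (dlOf (nat_lit 4) (nat_lit 0x46e038000400b0001581011b8118000a604001008c0005202000800181b0681)))) 
(.lf (nat_lit 3960094776) (dlOf (nat_lit 2) (nat_lit 0x3408c0091f02000e00081b0781))))) 
(.nd (nat_lit 7) (.nd (nat_lit 3) (.nd (nat_lit 8) 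
(.lf (nat_lit 4094839344) (dlOf (nat_lit 1) (nat_lit 0xe800400080008055182))) 
(.lf (nat_lit 3959576880) (dlOf (nat_lit 1) (nat_lit 0x1c0040008001811ab82)))) 
(.lf (nat_lit 3959577144) (dlOf (nat_lit 6) (nat_lit 0xc40a801e20530109028000d8120035406e008e0330003018001b00b80264040002a01d002300780023058015014c00bc0a0005c0370004583008402980400140018006e008a0200004484003e0298021014000dc06e000e020000800a8002202800800b8000f604015c0020018000811b402)))) 
(.nd (nat_lit 8) (.lf (nat_lit 5838622384) (dlOf (nat_lit 1) (nat_lit 0x6400180f7281))) 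
(.lf (nat_lit 3825355184) (dlOf (nat_lit 1) (nat_lit 0x400400020008144e82)))))))) (.nd (nat_lit 29) 
(.nd (nat_lit 23) (.nd (nat_lit 7) (.nd (nat_lit 9) (.nd (nat_lit 3) (.nd (nat_lit 8) 
(.lf (nat_lit 1476608048) (dlOf (nat_lit 1) (nat_lit 0x1800080358002008600080a0703))) 
(.lf (nat_lit 22233392) (dlOf (nat_lit 1) (nat_lit 0x400400020008ab7a02)))) 
(.lf (nat_lit 3288547384) (dlOf (nat_lit 1) (nat_lit 0x60028090001)))) (.nd (nat_lit 11) 
(.lf (nat_lit 3288547888) (dlOf (nat_lit 2) (nat_lit 0xa02000013818090f00))) 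
(.lf (nat_lit 5771577904) (dlOf (nat_lit 1) (nat_lit 0x7400400140008005182))))) (.nd (nat_lit 20) 
(.nd (nat_lit 8) 
(.lf (nat_lit 3288547504) (dlOf (nat_lit 6) (nat_lit 0xa0360010019000500ac0004e0c0060056002800d0001282001c01b0000600800980d80002204001806c001c03200040158000201802080080098002004e0008090303))) 
(.nd (nat_lit 11) 
(.lf (nat_lit 474169776) (dlOf (nat_lit 1) (nat_lit 0x80080004002000200090e1003))) 
(.lf (nat_lit 6509775280) (dlOf (nat_lit 1) (nat_lit 0x400400020008144e82))))) (.nd (nat_lit 8) 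
(.lf (nat_lit 473121968) (dlOf (nat_lit 2) (nat_lit 0x904d000601e8000a808002c004004a0018d12c02))) 
(.nd (nat_lit 9) (.lf (nat_lit 37439920) (dlOf (nat_lit 1) (nat_lit 0x200190d4e81))) 
(.lf (nat_lit 20140976) (dlOf (nat_lit 1) (nat_lit 0x400189d9181))))))) (.nd (nat_lit 19) 
(.nd (nat_lit 20) (.nd (nat_lit 22) (.nd (nat_lit 3) 
(.lf (nat_lit 25378864) (dlOf (nat_lit 2) (nat_lit 0x315dd80498000000ac080098002001e0008c00682))) 
(.lf (nat_lit 42157240) (dlOf (nat_lit 1) (nat_lit 0x20029242c81)))) (.nd (nat_lit 9) 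
(.lf (nat_lit 12795960) (dlOf (nat_lit 2) (nat_lit 0x8d04002a66b00012748000001800600080044002000200086e0b03))) 
(.lf (nat_lit 31672888) (dlOf (nat_lit 1) (nat_lit 0x1c00200060008e95202))))) (.nd (nat_lit 3) 
(.nd (nat_lit 7) (.lf (nat_lit 30621744) (dlOf (nat_lit 1) (nat_lit 0x20028e40e81))) 
(.lf (nat_lit 9650352) (dlOf (nat_lit 1) (nat_lit 0x400400020008571602)))) (.nd (nat_lit 7) 
(.lf (nat_lit 11747384) (dlOf (nat_lit 1) (nat_lit 0x200186c0001))) 
(.lf (nat_lit 9650616) (dlOf (nat_lit 1) (nat_lit 0x800200020008577782)))))) (.nd (nat_lit 21) 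
(.nd (nat_lit 20) (.nd (nat_lit 22) 
(.lf (nat_lit 9125936) (dlOf (nat_lit 1) (nat_lit 0x10002000c0008520d02))) 
(.lf (nat_lit 30097456) (dlOf (nat_lit 1) (nat_lit 0x600028e30001)))) 
(.lf (nat_lit 10174512) (dlOf (nat_lit 1) (nat_lit 0x600185b0581)))) (.nd (nat_lit 7) 
(.nd (nat_lit 10) 
(.lf (nat_lit 11223088) (dlOf (nat_lit 14) (nat_lit 0x78000000a80400692ce00ac000000290200022b080012408001958400090040028ac20004402000a561000218100012b080010808001958400080040008ac2000380200065610001a810014582001a2bec008d5b4001e96500182af8015956c00d0aa400223d000241e48000b448019954800947920002c04006aafb003c56d000a957c00bcaa400303d000241e480005c301c78008079c00203120008670683))) 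
(.lf (nat_lit 32195632) (dlOf (nat_lit 1) (nat_lit 0x20028ef2881)))) 
(.lf (nat_lit 61556144) (dlOf (nat_lit 1) (nat_lit 0x60029923601))))))) (.nd (nat_lit 3) 
(.nd (nat_lit 9) (.nd (nat_lit 27) (.nd (nat_lit 7) 
(.lf (nat_lit 4026744880) (dlOf (nat_lit 1) (nat_lit 0x60028090001))) 
(.lf (nat_lit 4026745008) (dlOf (nat_lit 6) (nat_lit 0xa0360010019000500ac0004e0c0060056002800d0001282001c01b0000600800980d80002204001806c001c03200040158000201802080080098002004e0008090303)))) 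
(.nd (nat_lit 26) 
(.lf (nat_lit 939737136) (dlOf (nat_lit 17) (nat_lit 0xfb0000000b40404ec03003f800b01bf00200d680000008a1004ec03003f800b01bf00200d580000008810008c0160004302026c00b010e00200708000000840c02fc030047e00b020c002010b000000082100800016039a00401dc0000001001810f002c07d000803b00000001f830007005800080100007c0807fc01603840040001e8201f500580dc801001240000003b0603fe0000001c8100780058000e00809d006007f8016038c00401870000000d4200f700000006004018003e015a01a00ad0000000a81800c8008009800202260008160583))) 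
(.lf (nat_lit 1812152368) (dlOf (nat_lit 17) (nat_lit 0xfb0000000b40404ec03003f800b01bf00200d680000008a1004ec03003f800b01bf00200d580000008810008c0160004302026c00b010e00200708000000840c02fc030047e00b020c002010b000000082100800016039a00401dc0000001001810f002c07d000803b00000001f830007005800080100007c0807fc01603840040001e8201f500580dc801001240000003b0603fe0000001c8100780058000e00809d006007f8016038c00401870000000d4200f700000006004018003e015a01a00ad0000000a81800c8008009800202260008160583))))) 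
(.nd (nat_lit 10) (.nd (nat_lit 11) 
(.lf (nat_lit 4026745392) (dlOf (nat_lit 2) (nat_lit 0xa02000011018090f00))) 
(.lf (nat_lit 4094904880) (dlOf (nat_lit 1) (nat_lit 0x20028055181)))) (.nd (nat_lit 7) 
(.lf (nat_lit 2754825776) (dlOf (nat_lit 5) (nat_lit 0x19c14a00f40860002a8200790528006028c024c10c0005406010a0860002881016a044809a82200009c0801e000403a600180f7182))) 
(.lf (nat_lit 671303600) (dlOf (nat_lit 2) (nat_lit 0x1b0040000900800e8008001c002000e0008144383)))))) 
(.nd (nat_lit 26) (.nd (nat_lit 8) (.nd (nat_lit 12) 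
(.lf (nat_lit 5100486712) (dlOf (nat_lit 1) (nat_lit 0x28002000200080b0b82))) 
(.lf (nat_lit 2818789432) (dlOf (nat_lit 1) (nat_lit 0xe800200180008127c82)))) 
(.lf (nat_lit 671303480) (dlOf (nat_lit 2) (nat_lit 0x1100f8004804c00040080010004000c0008143e02)))) 
(.nd (nat_lit 7) (.nd (nat_lit 9) 
(.lf (nat_lit 4899160120) (dlOf (nat_lit 1) (nat_lit 0x200180b0b81))) 
(.lf (nat_lit 2753774136) (dlOf (nat_lit 1) (nat_lit 0x20018091001)))) (.nd (nat_lit 11) 
(.lf (nat_lit 4095951032) (dlOf (nat_lit 1) (nat_lit 0x600180e0701))) 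
(.lf (nat_lit 1677936824) (dlOf (nat_lit 1) (nat_lit 0x3c00400060008114902))))))))) 
(.nd (nat_lit 16) (.nd (nat_lit 3) (.nd (nat_lit 31) (.nd (nat_lit 19) (.nd (nat_lit 27) 
(.nd (nat_lit 7) (.nd (nat_lit 8) 
(.lf (nat_lit 149616) (dlOf (nat_lit 1) (nat_lit 0x3a0018004781))) 
(.lf (nat_lit 31607152) (dlOf (nat_lit 1) (nat_lit 0x20008e94e81)))) 
(.lf (nat_lit 8537584) (dlOf (nat_lit 1) (nat_lit 0x400200020008513602)))) (.nd (nat_lit 7) 
(.nd (nat_lit 21) (.lf (nat_lit 134367600) (dlOf (nat_lit 1) (nat_lit 0x20028004e81))) 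
(.lf (nat_lit 6377589104) (dlOf (nat_lit 1) (nat_lit 0x400280e4e81)))) 
(.lf (nat_lit 671237104) (dlOf (nat_lit 2) (nat_lit 0x160250081d018142880))))) (.nd (nat_lit 21) 
(.nd (nat_lit 7) (.lf (nat_lit 39471472) (dlOf (nat_lit 1) (nat_lit 0x8008001400200080009194e83))) 
(.nd (nat_lit 20) (.lf (nat_lit 38421488) (dlOf (nat_lit 1) (nat_lit 0x20019132881))) 
(.lf (nat_lit 52052976) (dlOf (nat_lit 1) (nat_lit 0x60019512881))))) (.nd (nat_lit 22) 
(.lf (nat_lit 69880176) (dlOf (nat_lit 1) (nat_lit 0x400400020008db4e82))) (.nd (nat_lit 24) 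
(.lf (nat_lit 40520048) (dlOf (nat_lit 1) (nat_lit 0x100080004002000400091f4e83))) 
(.lf (nat_lit 57297264) (dlOf (nat_lit 1) (nat_lit 0x20029794e81))))))) (.nd (nat_lit 26) 
(.nd (nat_lit 10) (.nd (nat_lit 8) 
(.lf (nat_lit 6442600560) (dlOf (nat_lit 1) (nat_lit 0x200080f4781))) 
(.lf (nat_lit 2147633520) (dlOf (nat_lit 1) (nat_lit 0x20028094e81)))) (.nd (nat_lit 7) 
(.lf (nat_lit 3221380464) (dlOf (nat_lit 4) (nat_lit 0x12205400be020005600e0001805c016e0160033c85001c0178019880800300bc000000403d80040002000811c902))) 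
(.lf (nat_lit 3221376496) (dlOf (nat_lit 1) (nat_lit 0x300080010002002e0008116f03))))) 
(.nd (nat_lit 11) (.nd (nat_lit 9) 
(.lf (nat_lit 4096409968) (dlOf (nat_lit 1) (nat_lit 0x8008000400200020008115803))) 
(.lf (nat_lit 3959572336) (dlOf (nat_lit 3) (nat_lit 0x6405e0001602004002f00008818114080)))) 
(.nd (nat_lit 29) (.lf (nat_lit 3556919664) (dlOf (nat_lit 1) (nat_lit 0xc004000400080d4e82))) 
(.lf (nat_lit 4093790576) (dlOf (nat_lit 1) (nat_lit 0x40028004e81))))))) (.nd (nat_lit 30) 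
(.nd (nat_lit 7) (.nd (nat_lit 11) (.nd (nat_lit 20) (.nd (nat_lit 21) 
(.lf (nat_lit 4899094648) (dlOf (nat_lit 1) (nat_lit 0x88008017400200020008070b83))) 
(.lf (nat_lit 44187768) (dlOf (nat_lit 10) (nat_lit 0x94ae0003a4600014010000d2300009e040016a48000d51d0007a898003525c0008e100006a48000b5200008a8e8005d4600022a2600054ae0008a4b8000d230001c0000004612000b5320001a90000152b80006918000e32c00022050004a99000554900012a40001351d0003a570004525c0014658000380e000551d00017810001a4b8000b008006525c00006040004004001c00192d0b82)))) 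
(.lf (nat_lit 59916408) (dlOf (nat_lit 2) (nat_lit 0x2a3c00000019840200)))) (.nd (nat_lit 8) 
(.lf (nat_lit 678008) (dlOf (nat_lit 1) (nat_lit 0x1a002800a881))) 
(.lf (nat_lit 54676344) (dlOf (nat_lit 7) (nat_lit 0x8e740022502000a73a0010681000239d000820080051d100020e86001b404001a74400083a1800688100009fbc0000204001400400020019655c02))))) 
(.nd (nat_lit 21) (.nd (nat_lit 9) (.nd (nat_lit 28) 
(.lf (nat_lit 738345208) (dlOf (nat_lit 1) (nat_lit 0x1c00400080008090a82))) 
(.lf (nat_lit 3154264312) (dlOf (nat_lit 1) (nat_lit 0x14c0028147001)))) 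
(.lf (nat_lit 738872056) (dlOf (nat_lit 1) (nat_lit 0xc00400040018125a02)))) (.nd (nat_lit 8) 
(.nd (nat_lit 20) (.lf (nat_lit 69353720) (dlOf (nat_lit 1) (nat_lit 0x40028942481))) 
(.lf (nat_lit 20070648) (dlOf (nat_lit 1) (nat_lit 0x4002000200089d0a82)))) 
(.lf (nat_lit 58344440) (dlOf (nat_lit 1) (nat_lit 0x8c00097e2881)))))) (.nd (nat_lit 9) 
(.nd (nat_lit 11) (.nd (nat_lit 7) (.nd (nat_lit 8) 
(.lf (nat_lit 1343897720) (dlOf (nat_lit 2) (nat_lit 0x2826200140be00074828370480))) 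
(.lf (nat_lit 1610761592) (dlOf (nat_lit 10) (nat_lit 0x816800140ae001605200010280003812c003408e00040340003017000080100005e2400040ae001605200090258001811c001000a0002e0a001605700200290000b4100058148009808e0030034000160300040290003011c004c0680002b06000403400015010006029000060080008168000408e0001204000c0520017023800400d0000000c004000400400018093502)))) 
(.lf (nat_lit 3758244088) (dlOf (nat_lit 1) (nat_lit 0x380028117001)))) (.nd (nat_lit 26) 
(.lf (nat_lit 5905729656) (dlOf (nat_lit 1) (nat_lit 0x20008144781))) 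
(.lf (nat_lit 1677871224) (dlOf (nat_lit 1) (nat_lit 0x20008114781))))) (.nd (nat_lit 7) 
(.nd (nat_lit 8) (.nd (nat_lit 12) 
(.lf (nat_lit 1881294456) (dlOf (nat_lit 1) (nat_lit 0x4000200020008e83982))) 
(.lf (nat_lit 3355596408) (dlOf (nat_lit 1) (nat_lit 0x200180a9d01)))) 
(.lf (nat_lit 1677870968) (dlOf (nat_lit 1) (nat_lit 0x80008114081)))) (.nd (nat_lit 8) 
(.nd (nat_lit 10) (.lf (nat_lit 3355595512) (dlOf (nat_lit 1) (nat_lit 0x200280a8f81))) 
(.lf (nat_lit 5972838136) (dlOf (nat_lit 1) (nat_lit 0x8008000400200020008143b83)))) 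
(.lf (nat_lit 1610761208) (dlOf (nat_lit 1) (nat_lit 0x20018092881)))))))) (.nd (nat_lit 26) 
(.nd (nat_lit 11) (.nd (nat_lit 3) (.nd (nat_lit 19) (.nd (nat_lit 7) (.nd (nat_lit 8) 
(.lf (nat_lit 2550349936) (dlOf (nat_lit 1) (nat_lit 0x800803a800200d60008090003))) 
(.lf (nat_lit 4026745200) (dlOf (nat_lit 5) (nat_lit 0x780d80372a0402b805c00cee02012602e0067301008b0170033900800a0008003000200340008090783)))) 
(.lf (nat_lit 4160968176) (dlOf (nat_lit 1) (nat_lit 0x7c002002800080a9c02)))) (.nd (nat_lit 8) 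
(.lf (nat_lit 25903344) (dlOf (nat_lit 1) (nat_lit 0x400400020008c10702))) (.nd (nat_lit 9) 
(.lf (nat_lit 8078832) (dlOf (nat_lit 1) (nat_lit 0x400200020008513602))) 
(.lf (nat_lit 53167088) (dlOf (nat_lit 1) (nat_lit 0x48008001c002000a0009572883)))))) 
(.nd (nat_lit 9) (.nd (nat_lit 7) (.nd (nat_lit 8) 
(.lf (nat_lit 4026744952) (dlOf (nat_lit 1) (nat_lit 0x400080464002025e0008090083))) 
(.lf (nat_lit 4026745208) (dlOf (nat_lit 2) (nat_lit 0x301b006ca4080180008003c002002e0008090783)))) 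
(.lf (nat_lit 268648696) (dlOf (nat_lit 1) (nat_lit 0x200080014002000600080e0a83)))) 
(.nd (nat_lit 12) (.lf (nat_lit 43206264) (dlOf (nat_lit 2) (nat_lit 0x51497000098192a3980))) 
(.lf (nat_lit 20141688) (dlOf (nat_lit 1) (nat_lit 0x14002000200089d9d02)))))) (.nd (nat_lit 25) 
(.nd (nat_lit 28) (.nd (nat_lit 3) (.nd (nat_lit 21) 
(.lf (nat_lit 215408) (dlOf (nat_lit 1) (nat_lit 0xa0018004e81))) 
(.lf (nat_lit 31672688) (dlOf (nat_lit 1) (nat_lit 0x38008000400200020008e94e83)))) 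
(.lf (nat_lit 33245560) (dlOf (nat_lit 1) (nat_lit 0x20008f54e81)))) (.nd (nat_lit 7) 
(.nd (nat_lit 10) 
(.lf (nat_lit 268650864) (dlOf (nat_lit 1) (nat_lit 0x38008001c002000a00080e4e83))) 
(.lf (nat_lit 3489877360) (dlOf (nat_lit 1) (nat_lit 0x400200020008006b02)))) 
(.lf (nat_lit 3489877232) (dlOf (nat_lit 1) (nat_lit 0xfe800802cc00201100008006503))))) 
(.nd (nat_lit 19) (.nd (nat_lit 20) 
(.lf (nat_lit 50547056) (dlOf (nat_lit 1) (nat_lit 0x80080004002000200094c4e83))) (.nd (nat_lit 21) 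
(.lf (nat_lit 39012720) (dlOf (nat_lit 1) (nat_lit 0x400200020009194e82))) 
(.lf (nat_lit 36915568) (dlOf (nat_lit 1) (nat_lit 0x20019074e81))))) (.nd (nat_lit 3) 
(.nd (nat_lit 7) (.lf (nat_lit 37439856) (dlOf (nat_lit 1) (nat_lit 0x4002002000090d4e82))) 
(.lf (nat_lit 39537136) (dlOf (nat_lit 1) (nat_lit 0x20019194f01)))) 
(.lf (nat_lit 57363192) (dlOf (nat_lit 1) (nat_lit 0x400200020009795a02))))))) (.nd (nat_lit 3) 
(.nd (nat_lit 11) (.nd (nat_lit 7) (.nd (nat_lit 9) (.nd (nat_lit 19) 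
(.lf (nat_lit 3288547696) (dlOf (nat_lit 2) (nat_lit 0x4e036000d019000480c0030760c016800400520008090782))) 
(.lf (nat_lit 4096475504) (dlOf (nat_lit 1) (nat_lit 0xc00400060018115802)))) 
(.lf (nat_lit 3556988784) (dlOf (nat_lit 1) (nat_lit 0x180020010000812a302)))) (.nd (nat_lit 8) 
(.lf (nat_lit 738935024) (dlOf (nat_lit 2) (nat_lit 0x5c0ae0146702000c0018151e81))) 
(.lf (nat_lit 474169840) (dlOf (nat_lit 1) (nat_lit 0x200290e1381))))) (.nd (nat_lit 28) 
(.nd (nat_lit 21) (.lf (nat_lit 738412912) (dlOf (nat_lit 1) (nat_lit 0x20018094e81))) 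
(.lf (nat_lit 69421424) (dlOf (nat_lit 1) (nat_lit 0x10008000c00200020008964e83)))) 
(.nd (nat_lit 20) (.nd (nat_lit 29) 
(.lf (nat_lit 335759728) (dlOf (nat_lit 1) (nat_lit 0x20028094e81))) 
(.lf (nat_lit 6241339760) (dlOf (nat_lit 1) (nat_lit 0x4800180d4e81)))) 
(.lf (nat_lit 4094904688) (dlOf (nat_lit 1) (nat_lit 0x20028054e81)))))) (.nd (nat_lit 27) 
(.nd (nat_lit 7) (.nd (nat_lit 8) 
(.lf (nat_lit 3288547448) (dlOf (nat_lit 1) (nat_lit 0x400080464002025e0008090083))) 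
(.nd (nat_lit 9) 
(.lf (nat_lit 3288547704) (dlOf (nat_lit 1) (nat_lit 0x1100080010002000a0008090783))) 
(.lf (nat_lit 2751678328) (dlOf (nat_lit 1) (nat_lit 0x400400020008004082))))) (.nd (nat_lit 10) 
(.lf (nat_lit 2755871224) (dlOf (nat_lit 1) (nat_lit 0x1000081b0d81))) 
(.lf (nat_lit 4095952376) (dlOf (nat_lit 1) (nat_lit 0x4004000200080e3682))))) (.nd (nat_lit 7) 
(.nd (nat_lit 8) (.lf (nat_lit 6378176632) (dlOf (nat_lit 1) (nat_lit 0x400400040008122902))) 
(.nd (nat_lit 11) (.lf (nat_lit 1006846328) (dlOf (nat_lit 1) (nat_lit 0x200280c0781))) 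
(.lf (nat_lit 472074616) (dlOf (nat_lit 1) (nat_lit 0x74400201480008804e82))))) (.nd (nat_lit 8) 
(.lf (nat_lit 1007894776) (dlOf (nat_lit 2) (nat_lit 0x101c60014d0200020018842481))) 
(.lf (nat_lit 3959642104) (dlOf (nat_lit 5) (nat_lit 0x5008c001e045002b5820013023000a011400ad408002008c0014045002b482000f0230008011400ad00800a8004002a001811a602))))))))))) 
(.nd (nat_lit 6) (.nd (nat_lit 5) (.nd (nat_lit 21) (.nd (nat_lit 16) (.nd (nat_lit 30) 
(.nd (nat_lit 29) (.nd (nat_lit 19) (.nd (nat_lit 22) (.nd (nat_lit 3) 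
(.lf (nat_lit 2617655312) (dlOf (nat_lit 3) (nat_lit 0x2005e003602e00010090000d81800200b80002a0400b800400100008130102))) 
(.lf (nat_lit 26624024) (dlOf (nat_lit 2) (nat_lit 0x110b83005c4ea002e00bc0068052001fc0800020018c50081)))) 
(.nd (nat_lit 10) (.lf (nat_lit 12992528) (dlOf (nat_lit 1) (nat_lit 0x1600286f0101))) 
(.lf (nat_lit 38159376) (dlOf (nat_lit 1) (nat_lit 0x20019132881))))) (.nd (nat_lit 22) 
(.nd (nat_lit 24) (.lf (nat_lit 68042768) (dlOf (nat_lit 1) (nat_lit 0x54002000200083b0102))) 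
(.lf (nat_lit 17711120) (dlOf (nat_lit 1) (nat_lit 0x100080004002000400088f0783)))) 
(.lf (nat_lit 21905424) (dlOf (nat_lit 1) (nat_lit 0x20018a80881))))) (.nd (nat_lit 7) 
(.nd (nat_lit 22) (.nd (nat_lit 9) (.nd (nat_lit 26) 
(.lf (nat_lit 537280528) (dlOf (nat_lit 3) (nat_lit 0x1404c00135810007018000000080168008002c00200420008070503))) 
(.lf (nat_lit 3154526224) (dlOf (nat_lit 11) (nat_lit 0xa05a0031c8100c90160018940804b80b000c400401ac0580061f02012c02c0030e0100d601600186c0804b80b000c300402c80580061202000c02c002d80100130160016a808010800801c4002007e00081f0483)))) 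
(.lf (nat_lit 2752397840) (dlOf (nat_lit 6) (nat_lit 0xf62480025e0100e61240012e80801f89200096204004c490004b002009024800253818018400)))) 
(.nd (nat_lit 3) (.lf (nat_lit 2756067344) (dlOf (nat_lit 2) (nat_lit 0x4048000120181e0100))) 
(.lf (nat_lit 2756067352) (dlOf (nat_lit 1) (nat_lit 0x580080018002002200081e0483))))) 
(.nd (nat_lit 8) (.lf (nat_lit 738607248) (dlOf (nat_lit 1) (nat_lit 0x200180c1001))) 
(.lf (nat_lit 2751874960) (dlOf (nat_lit 2) (nat_lit 0x182200001c04000400200020008004202)))))) 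
(.nd (nat_lit 31) (.nd (nat_lit 3) (.nd (nat_lit 7) (.nd (nat_lit 10) 
(.lf (nat_lit 1409695760) (dlOf (nat_lit 3) (nat_lit 0x1404c0013c810007018000000080168008002c00200420008070503))) 
(.lf (nat_lit 5771774992) (dlOf (nat_lit 1) (nat_lit 0x400200020008005f82)))) (.nd (nat_lit 8) 
(.lf (nat_lit 1611022480) (dlOf (nat_lit 1) (nat_lit 0x200180c1001))) 
(.lf (nat_lit 5772296592) (dlOf (nat_lit 1) (nat_lit 0x20018091001))))) (.nd (nat_lit 29) 
(.lf (nat_lit 1343635480) (dlOf (nat_lit 10) (nat_lit 0x22817c003002a0001982001405f0000c80801202f80006004003817c0002f02000809d000150100e00b080728538037813a01c408e00b80188000902805f0584030c29c017809d00c1047005700c4000441402fc2c2019214e00c204e80648238000421002c42c2016214e00b004e805502380003e100010004000400182d0402))) 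
(.lf (nat_lit 1880506392) (dlOf (nat_lit 1) (nat_lit 0x1800289b0601))))) (.nd (nat_lit 28) 
(.nd (nat_lit 3) (.nd (nat_lit 26) 
(.lf (nat_lit 3355852816) (dlOf (nat_lit 7) (nat_lit 0x2a403200025010166019000200b00008608055406400042020440032000701601200048000820c054c06400040020220031011e0088000ec101ee8008009000206180008130103))) 
(.lf (nat_lit 3288743952) (dlOf (nat_lit 3) (nat_lit 0x4204000d2081001d0200068fc080348008012c00200c800080d0883)))) 
(.lf (nat_lit 3892723736) (dlOf (nat_lit 1) (nat_lit 0xe00181e0481)))) (.nd (nat_lit 3) 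
(.nd (nat_lit 22) 
(.lf (nat_lit 4026941456) (dlOf (nat_lit 3) (nat_lit 0x4204000ed301001d020007690080348008012c00200c800080d0883))) 
(.lf (nat_lit 3494264848) (dlOf (nat_lit 2) (nat_lit 0x4048000078181e0100)))) 
(.lf (nat_lit 3557179416) (dlOf (nat_lit 1) (nat_lit 0x20018140501))))))) (.nd (nat_lit 3) 
(.nd (nat_lit 10) (.nd (nat_lit 25) (.nd (nat_lit 7) (.nd (nat_lit 26) 
(.lf (nat_lit 1342652432) (dlOf (nat_lit 1) (nat_lit 0x8002000800080b0282))) 
(.lf (nat_lit 470237200) (dlOf (nat_lit 1) (nat_lit 0x8002000800080b0282)))) 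
(.lf (nat_lit 1476872592) (dlOf (nat_lit 1) (nat_lit 0x400082d4e81)))) (.nd (nat_lit 7) 
(.nd (nat_lit 9) (.lf (nat_lit 59719696) (dlOf (nat_lit 1) (nat_lit 0x400400020019820002))) 
(.lf (nat_lit 39799312) (dlOf (nat_lit 1) (nat_lit 0x4004000200091f5082)))) 
(.lf (nat_lit 55001232) (dlOf (nat_lit 1) (nat_lit 0x1c8004005e0009681002))))) (.nd (nat_lit 7) 
(.nd (nat_lit 8) (.nd (nat_lit 22) 
(.lf (nat_lit 5771840528) (dlOf (nat_lit 1) (nat_lit 0x400200020008005f82))) 
(.lf (nat_lit 46615568) (dlOf (nat_lit 2) (nat_lit 0x66f70002b019385f80)))) 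
(.lf (nat_lit 47662352) (dlOf (nat_lit 8) (nat_lit 0x22bc000155490001a0200bbaf00060d52400066080186bc000af54900019020009af00007552400062080092bc0000300200055e000013010001af00000900800d8008003800200020009403003)))) 
(.nd (nat_lit 26) (.lf (nat_lit 477072) (dlOf (nat_lit 1) (nat_lit 0x400400100008004202))) 
(.lf (nat_lit 2751940496) (dlOf (nat_lit 2) (nat_lit 0x208800007018004200)))))) (.nd (nat_lit 28) 
(.nd (nat_lit 30) (.nd (nat_lit 19) 
(.lf (nat_lit 34029592) (dlOf (nat_lit 1) (nat_lit 0x20028f90081))) (.nd (nat_lit 22) 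
(.lf (nat_lit 10436632) (dlOf (nat_lit 1) (nat_lit 0x200285d0481))) 
(.lf (nat_lit 14630936) (dlOf (nat_lit 2) (nat_lit 0x13a708014730500ce9808007a8180040008000400200140008770083))))) 
(.nd (nat_lit 7) 
(.lf (nat_lit 3758571544) (dlOf (nat_lit 4) (nat_lit 0x600500017c080028028000a80402740140005202000200282b0401))) 
(.nd (nat_lit 26) 
(.lf (nat_lit 3221700760) (dlOf (nat_lit 2) (nat_lit 0x401c0001e0200080018170181))) 
(.lf (nat_lit 3959898264) (dlOf (nat_lit 2) (nat_lit 0x401c0001e0200080018170181)))))) 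
(.nd (nat_lit 26) (.nd (nat_lit 7) 
(.lf (nat_lit 1342652440) (dlOf (nat_lit 1) (nat_lit 0x700080010002002000080b0503))) 
(.lf (nat_lit 3490139288) (dlOf (nat_lit 1) (nat_lit 0x20018006201)))) (.nd (nat_lit 19) 
(.nd (nat_lit 27) 
(.lf (nat_lit 3020374040) (dlOf (nat_lit 4) (nat_lit 0x600500017c080028028000a80402740140005202000200282b0401))) 
(.lf (nat_lit 470237208) (dlOf (nat_lit 1) (nat_lit 0x700080010002002000080b0503)))) 
(.lf (nat_lit 470761496) (dlOf (nat_lit 1) (nat_lit 0x400400020018170082)))))))) (.nd (nat_lit 3) 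
(.nd (nat_lit 22) (.nd (nat_lit 20) (.nd (nat_lit 7) (.nd (nat_lit 10) (.nd (nat_lit 9) 
(.lf (nat_lit 3492694032) (dlOf (nat_lit 8) (nat_lit 0x3302000180074000aa0800780800005402003c0400002901002a02000120074000a20800a80400004f0200540200002701001e0200000840800380080040002001000080f4703))) 
(.lf (nat_lit 1345274384) (dlOf (nat_lit 1) (nat_lit 0x40018b37b81)))) (.nd (nat_lit 8) 
(.lf (nat_lit 3492758544) (dlOf (nat_lit 1) (nat_lit 0x4002000200080f2882))) 
(.lf (nat_lit 1344750864) (dlOf (nat_lit 3) (nat_lit 0x2880000002e04011c000000140200020008983001))))) 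
(.nd (nat_lit 8) (.nd (nat_lit 9) 
(.lf (nat_lit 3492694160) (dlOf (nat_lit 2) (nat_lit 0x20200000880800280080004002000a00080f4803))) 
(.lf (nat_lit 19813008) (dlOf (nat_lit 1) (nat_lit 0x80080008002000400089d8c83)))) 
(.lf (nat_lit 36063632) (dlOf (nat_lit 1) (nat_lit 0x20019014e81))))) (.nd (nat_lit 24) 
(.nd (nat_lit 8) (.nd (nat_lit 28) 
(.lf (nat_lit 4079632) (dlOf (nat_lit 1) (nat_lit 0xc00200020008280102))) 
(.lf (nat_lit 3493740560) (dlOf (nat_lit 1) (nat_lit 0x1e00281b0001)))) 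
(.lf (nat_lit 3493740816) (dlOf (nat_lit 1) (nat_lit 0x200281b0481)))) (.nd (nat_lit 7) 
(.lf (nat_lit 54414352) (dlOf (nat_lit 1) (nat_lit 0x50008000c002000c0009655f83))) 
(.lf (nat_lit 20856976) (dlOf (nat_lit 1) (nat_lit 0x200189e2801)))))) (.nd (nat_lit 16) 
(.nd (nat_lit 10) (.nd (nat_lit 19) (.nd (nat_lit 20) 
(.lf (nat_lit 6701072) (dlOf (nat_lit 1) (nat_lit 0x400400020008440a02))) 
(.lf (nat_lit 7749648) (dlOf (nat_lit 1) (nat_lit 0x4004000200084d0a02)))) 
(.lf (nat_lit 25051152) (dlOf (nat_lit 1) (nat_lit 0x20018be0881)))) (.nd (nat_lit 9) 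
(.lf (nat_lit 50218000) (dlOf (nat_lit 1) (nat_lit 0x400294c2881))) 
(.lf (nat_lit 8275472) (dlOf (nat_lit 1) (nat_lit 0x20018513681))))) (.nd (nat_lit 23) 
(.nd (nat_lit 8) 
(.lf (nat_lit 58147344) (dlOf (nat_lit 3) (nat_lit 0x138420004081001bd088010e108008b08000077d80005be98001fc2801c00080028002000400097c7b83))) 
(.lf (nat_lit 58147088) (dlOf (nat_lit 2) (nat_lit 0x70ca0000c02000200297c3b01)))) 
(.nd (nat_lit 10) 
(.lf (nat_lit 16203792) (dlOf (nat_lit 1) (nat_lit 0x250008012000200a20008870283))) 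
(.lf (nat_lit 50283536) (dlOf (nat_lit 1) (nat_lit 0xe00294c2881))))))) (.nd (nat_lit 16) 
(.nd (nat_lit 19) (.nd (nat_lit 20) (.nd (nat_lit 22) (.nd (nat_lit 24) 
(.lf (nat_lit 44449816) (dlOf (nat_lit 1) (nat_lit 0x400400020009310182))) 
(.lf (nat_lit 27672600) (dlOf (nat_lit 1) (nat_lit 0x40018d10681)))) 
(.lf (nat_lit 15089688) (dlOf (nat_lit 2) (nat_lit 0x23eb8001640801a00080010002001600087b0483)))) 
(.nd (nat_lit 7) (.lf (nat_lit 62275608) (dlOf (nat_lit 1) (nat_lit 0x300009990181))) 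
(.lf (nat_lit 2755022488) (dlOf (nat_lit 1) (nat_lit 0x88008000c002000800080f7203))))) 
(.nd (nat_lit 7) (.nd (nat_lit 10) (.nd (nat_lit 9) (.nd (nat_lit 20) 
(.lf (nat_lit 3031064) (dlOf (nat_lit 1) (nat_lit 0xc00200040008200002))) 
(.lf (nat_lit 16662552) (dlOf (nat_lit 1) (nat_lit 0x400088d0401)))) 
(.lf (nat_lit 24003096) (dlOf (nat_lit 1) (nat_lit 0x20028b80d81)))) (.nd (nat_lit 20) 
(.lf (nat_lit 3492693016) (dlOf (nat_lit 1) (nat_lit 0x200080f2881))) 
(.lf (nat_lit 8274968) (dlOf (nat_lit 1) (nat_lit 0x1800200700008512882))))) (.nd (nat_lit 8) 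
(.lf (nat_lit 3031192) (dlOf (nat_lit 1) (nat_lit 0x800400080018200182))) (.nd (nat_lit 9) 
(.lf (nat_lit 2754502040) (dlOf (nat_lit 1) (nat_lit 0xc002000200080fca02))) 
(.lf (nat_lit 2754501528) (dlOf (nat_lit 2) (nat_lit 0x20054000102980030144001008a000601a00080058015183000400080020002000400080fbc83))))))) 
(.nd (nat_lit 11) (.nd (nat_lit 9) (.nd (nat_lit 26) 
(.lf (nat_lit 2572312) (dlOf (nat_lit 1) (nat_lit 0x100018170a01))) 
(.lf (nat_lit 1009205272) (dlOf (nat_lit 1) (nat_lit 0x380080030002000c00090a0083)))) 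
(.nd (nat_lit 7) (.lf (nat_lit 24068632) (dlOf (nat_lit 1) (nat_lit 0x60028b80d81))) 
(.lf (nat_lit 19878552) (dlOf (nat_lit 1) (nat_lit 0x4002000200089d8c82))))) (.nd (nat_lit 7) 
(.nd (nat_lit 20) (.lf (nat_lit 19876888) (dlOf (nat_lit 1) (nat_lit 0x10200189d6001))) 
(.lf (nat_lit 54479896) (dlOf (nat_lit 1) (nat_lit 0x20019656001)))) (.nd (nat_lit 9) 
(.lf (nat_lit 2754567576) (dlOf (nat_lit 2) (nat_lit 0xc0a0000270180fca00))) 
(.lf (nat_lit 2754567064) (dlOf (nat_lit 1) (nat_lit 0x30002001c00080fbc82))))))))) 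
(.nd (nat_lit 16) (.nd (nat_lit 30) (.nd (nat_lit 19) (.nd (nat_lit 26) (.nd (nat_lit 3) 
(.nd (nat_lit 7) (.nd (nat_lit 20) 
(.lf (nat_lit 537280560) (dlOf (nat_lit 1) (nat_lit 0x1b0008014800200200008070883))) 
(.lf (nat_lit 30818352) (dlOf (nat_lit 1) (nat_lit 0x18008000800200060008e50b83)))) 
(.lf (nat_lit 8799920) (dlOf (nat_lit 1) (nat_lit 0xb8008009800200940008513a83)))) (.nd (nat_lit 7) 
(.nd (nat_lit 23) (.lf (nat_lit 415544) (dlOf (nat_lit 1) (nat_lit 0x1800800100020002000800a103))) 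
(.lf (nat_lit 8804152) (dlOf (nat_lit 1) (nat_lit 0x2002851a101)))) (.nd (nat_lit 8) 
(.lf (nat_lit 39208120) (dlOf (nat_lit 1) (nat_lit 0x1c0019192c81))) 
(.lf (nat_lit 134627768) (dlOf (nat_lit 1) (nat_lit 0x40018090801)))))) (.nd (nat_lit 28) 
(.nd (nat_lit 3) (.lf (nat_lit 2752921648) (dlOf (nat_lit 1) (nat_lit 0x20028060601))) 
(.nd (nat_lit 7) (.lf (nat_lit 2752921656) (dlOf (nat_lit 2) (nat_lit 0x560a10057c018060700))) 
(.lf (nat_lit 201736632) (dlOf (nat_lit 1) (nat_lit 0x40018090801))))) (.nd (nat_lit 3) 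
(.lf (nat_lit 3154526256) (dlOf (nat_lit 5) (nat_lit 0x5581680007a0400b40b4000370200a605a0001b01008802d0000000800f0008009c002006c00081f0703))) 
(.nd (nat_lit 7) 
(.lf (nat_lit 2617655352) (dlOf (nat_lit 3) (nat_lit 0x201600058c0800080b000000040008004002a0008130d82))) 
(.lf (nat_lit 1009140920) (dlOf (nat_lit 1) (nat_lit 0xe0029082c81))))))) (.nd (nat_lit 20) 
(.nd (nat_lit 3) (.nd (nat_lit 7) (.nd (nat_lit 9) 
(.lf (nat_lit 17711152) (dlOf (nat_lit 3) (nat_lit 0x968640007e0400780000000f02005800088f0e81))) 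
(.lf (nat_lit 2752397872) (dlOf (nat_lit 1) (nat_lit 0x1c00200040008018b02)))) 
(.lf (nat_lit 19809200) (dlOf (nat_lit 1) (nat_lit 0xb0008003c002000200089d2683)))) 
(.nd (nat_lit 7) (.lf (nat_lit 2752397624) (dlOf (nat_lit 1) (nat_lit 0x800200040008014c02))) 
(.nd (nat_lit 9) (.lf (nat_lit 3031224) (dlOf (nat_lit 1) (nat_lit 0x80028200381))) 
(.lf (nat_lit 19813048) (dlOf (nat_lit 1) (nat_lit 0x48800800e8002008600089d8c83)))))) 
(.nd (nat_lit 10) (.nd (nat_lit 3) (.nd (nat_lit 8) 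
(.lf (nat_lit 4079664) (dlOf (nat_lit 2) (nat_lit 0x4e4ca0002b018280680))) 
(.lf (nat_lit 2755543344) (dlOf (nat_lit 1) (nat_lit 0x14002000400081b0502)))) (.nd (nat_lit 9) 
(.lf (nat_lit 14565432) (dlOf (nat_lit 1) (nat_lit 0x40028770481))) 
(.lf (nat_lit 2753446456) (dlOf (nat_lit 2) (nat_lit 0x240840000002001e0028091001))))) 
(.nd (nat_lit 7) (.lf (nat_lit 8275512) (dlOf (nat_lit 1) (nat_lit 0x20008513781))) 
(.nd (nat_lit 8) 
(.lf (nat_lit 33440952) (dlOf (nat_lit 1) (nat_lit 0x3d0008001c00200140008f52c83))) 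
(.lf (nat_lit 8275384) (dlOf (nat_lit 1) (nat_lit 0xe0028513601)))))))) (.nd (nat_lit 3) 
(.nd (nat_lit 31) (.nd (nat_lit 29) (.nd (nat_lit 27) (.nd (nat_lit 26) 
(.lf (nat_lit 5637554224) (dlOf (nat_lit 1) (nat_lit 0x60018100381))) 
(.lf (nat_lit 1409695792) (dlOf (nat_lit 2) (nat_lit 0x198058000702a00008810007000800d8002000e0008070903)))) 
(.nd (nat_lit 7) (.lf (nat_lit 1208369200) (dlOf (nat_lit 1) (nat_lit 0x1e00180d0a81))) 
(.lf (nat_lit 5773344944) (dlOf (nat_lit 1) (nat_lit 0x40004003600180c1602))))) (.nd (nat_lit 8) 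
(.nd (nat_lit 27) (.nd (nat_lit 32) 
(.lf (nat_lit 1946566704) (dlOf (nat_lit 2) (nat_lit 0x80148009000000064080068002003800080c0e82))) 
(.lf (nat_lit 6241534000) (dlOf (nat_lit 1) (nat_lit 0x60018100381)))) 
(.lf (nat_lit 2080784432) (dlOf (nat_lit 1) (nat_lit 0x1e00180d0a81)))) 
(.lf (nat_lit 1678131504) (dlOf (nat_lit 1) (nat_lit 0x4002000400081a0502))))) (.nd (nat_lit 8) 
(.nd (nat_lit 28) (.nd (nat_lit 27) 
(.lf (nat_lit 3221635120) (dlOf (nat_lit 1) (nat_lit 0x20028170001))) 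
(.lf (nat_lit 3355852848) (dlOf (nat_lit 3) (nat_lit 0x358060018400600dc0000001683001a00c003080000002e08000800400580008130682)))) 
(.nd (nat_lit 9) (.lf (nat_lit 3491119152) (dlOf (nat_lit 1) (nat_lit 0x20028060601))) 
(.lf (nat_lit 3490595376) (dlOf (nat_lit 5) (nat_lit 0x13a15400bd0a90000901004e855003ec2a40002004011c1540000f8101020a9000074080088008003c002001e0008018003))))) 
(.nd (nat_lit 7) (.lf (nat_lit 3493740848) (dlOf (nat_lit 1) (nat_lit 0x4004000e00181b0502))) 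
(.lf (nat_lit 3490073008) (dlOf (nat_lit 1) (nat_lit 0x20018004e81)))))) (.nd (nat_lit 31) 
(.nd (nat_lit 27) (.nd (nat_lit 9) (.nd (nat_lit 22) 
(.lf (nat_lit 1678131256) (dlOf (nat_lit 1) (nat_lit 0xf000281a0001))) 
(.lf (nat_lit 1346781240) (dlOf (nat_lit 7) (nat_lit 0x50ac0000c00800e85600005e04000c2b00002e02000416600020ac0000a4100018560000300400142b0000120200300029000501)))) 
(.lf (nat_lit 1344686648) (dlOf (nat_lit 1) (nat_lit 0xc00200020008925202)))) (.nd (nat_lit 7) 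
(.nd (nat_lit 26) (.lf (nat_lit 1208369208) (dlOf (nat_lit 1) (nat_lit 0x2a00180d0c81))) 
(.lf (nat_lit 2080784440) (dlOf (nat_lit 1) (nat_lit 0x1000280d0b81)))) 
(.lf (nat_lit 5772296632) (dlOf (nat_lit 2) (nat_lit 0x14131000a0980005801000b8008007000200080008091003))))) 
(.nd (nat_lit 7) (.nd (nat_lit 8) (.nd (nat_lit 9) 
(.lf (nat_lit 3491119160) (dlOf (nat_lit 2) (nat_lit 0x560a1002a7818060700))) 
(.lf (nat_lit 3491643960) (dlOf (nat_lit 2) (nat_lit 0x240840000002001e0028091001)))) 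
(.lf (nat_lit 3490595128) (dlOf (nat_lit 1) (nat_lit 0x800200040008014c02)))) (.nd (nat_lit 26) 
(.lf (nat_lit 3221635512) (dlOf (nat_lit 1) (nat_lit 0x400400080018170802))) 
(.lf (nat_lit 3959833016) (dlOf (nat_lit 1) (nat_lit 0x400400080018170802)))))))) (.nd (nat_lit 3) 
(.nd (nat_lit 19) (.nd (nat_lit 29) (.nd (nat_lit 7) (.nd (nat_lit 21) (.nd (nat_lit 23) 
(.nd (nat_lit 8) 
(.lf (nat_lit 3491184688) (dlOf (nat_lit 2) (nat_lit 0x4822800044040078004002e0018070902))) 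
(.lf (nat_lit 4362551600) (dlOf (nat_lit 2) (nat_lit 0x4380000008604000400400020008090502)))) 
(.nd (nat_lit 22) (.lf (nat_lit 60244016) (dlOf (nat_lit 1) (nat_lit 0x8008000400200020009840003))) 
(.lf (nat_lit 30883888) (dlOf (nat_lit 1) (nat_lit 0x20018e50b81))))) (.nd (nat_lit 10) 
(.nd (nat_lit 20) (.lf (nat_lit 19349552) (dlOf (nat_lit 1) (nat_lit 0x400200020008990b82))) 
(.lf (nat_lit 3620912) (dlOf (nat_lit 1) (nat_lit 0x10800200400008210982)))) 
(.lf (nat_lit 41370672) (dlOf (nat_lit 1) (nat_lit 0x400200020009242882))))) (.nd (nat_lit 8) 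
(.nd (nat_lit 26) (.nd (nat_lit 22) 
(.lf (nat_lit 134693040) (dlOf (nat_lit 1) (nat_lit 0x60008090301))) 
(.lf (nat_lit 55001264) (dlOf (nat_lit 2) (nat_lit 0x49314000760400a400400020009681602)))) 
(.nd (nat_lit 27) 
(.lf (nat_lit 1409761456) (dlOf (nat_lit 1) (nat_lit 0x10008000400200020008090303))) 
(.lf (nat_lit 201801904) (dlOf (nat_lit 1) (nat_lit 0x60008090301))))) (.nd (nat_lit 10) 
(.lf (nat_lit 3490138544) (dlOf (nat_lit 1) (nat_lit 0xe80080020002001c0008004e83))) 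
(.lf (nat_lit 8865200) (dlOf (nat_lit 2) (nat_lit 0x1723c0011c04000400200020008513602)))))) 
(.nd (nat_lit 28) (.nd (nat_lit 26) (.nd (nat_lit 7) (.nd (nat_lit 30) 
(.lf (nat_lit 537346096) (dlOf (nat_lit 1) (nat_lit 0x8008000400200020008090003))) 
(.lf (nat_lit 1611087920) (dlOf (nat_lit 2) (nat_lit 0x170208000800800900080030002001c00080d0383)))) 
(.lf (nat_lit 537346224) (dlOf (nat_lit 1) (nat_lit 0x10008000400200020008090303)))) 
(.nd (nat_lit 8) 
(.lf (nat_lit 738672688) (dlOf (nat_lit 2) (nat_lit 0x170208000800800900080030002001c00080d0383))) 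
(.lf (nat_lit 1678197040) (dlOf (nat_lit 1) (nat_lit 0x100080008002000400081a0503))))) 
(.nd (nat_lit 8) (.nd (nat_lit 9) 
(.lf (nat_lit 805781552) (dlOf (nat_lit 1) (nat_lit 0x1880080004002002e00081a0003))) 
(.lf (nat_lit 1880574512) (dlOf (nat_lit 1) (nat_lit 0x800400020008a45182)))) 
(.lf (nat_lit 805781808) (dlOf (nat_lit 1) (nat_lit 0x8008000c002000200081a0503)))))) 
(.nd (nat_lit 9) (.nd (nat_lit 21) (.nd (nat_lit 7) (.nd (nat_lit 8) 
(.lf (nat_lit 17776688) (dlOf (nat_lit 3) (nat_lit 0x1d65c0001f810099b2e004c80000001e08003c002000800088f0e82))) 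
(.lf (nat_lit 6376341808) (dlOf (nat_lit 2) (nat_lit 0x530900000d8080050008005000200740008090b03)))) 
(.lf (nat_lit 43992496) (dlOf (nat_lit 1) (nat_lit 0x20004000200092a3602)))) (.nd (nat_lit 7) 
(.nd (nat_lit 20) 
(.lf (nat_lit 4096737328) (dlOf (nat_lit 2) (nat_lit 0x100ac0005a04003800400560008160602))) 
(.lf (nat_lit 25116720) (dlOf (nat_lit 6) (nat_lit 0x432260045911000fc368000d818008e44c0077222001d86d0009c358000d020008e44c007b222000b86d00017030016c888000b408009644c0077222001f86d0006c358000ac200118008003400200020008be0e83)))) 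
(.lf (nat_lit 32457904) (dlOf (nat_lit 1) (nat_lit 0x20018ef2c01))))) (.nd (nat_lit 25) 
(.nd (nat_lit 11) (.lf (nat_lit 3097136) (dlOf (nat_lit 1) (nat_lit 0xc00200020008200f02))) 
(.lf (nat_lit 70208048) (dlOf (nat_lit 1) (nat_lit 0x10008000800200040009025183)))) 
(.nd (nat_lit 20) (.lf (nat_lit 36653616) (dlOf (nat_lit 1) (nat_lit 0x400400040009075182))) 
(.lf (nat_lit 54479408) (dlOf (nat_lit 1) (nat_lit 0x240019655181))))))) (.nd (nat_lit 19) 
(.nd (nat_lit 20) (.nd (nat_lit 29) (.nd (nat_lit 21) (.nd (nat_lit 9) 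
(.lf (nat_lit 34029624) (dlOf (nat_lit 1) (nat_lit 0xc0018f90501))) 
(.lf (nat_lit 1074220600) (dlOf (nat_lit 1) (nat_lit 0x2400280f7181)))) (.nd (nat_lit 22) 
(.lf (nat_lit 2572344) (dlOf (nat_lit 4) (nat_lit 0x4554c0003b020044a470001b010003000000000080030008003c00200080008170b03))) 
(.lf (nat_lit 48709688) (dlOf (nat_lit 1) (nat_lit 0x8a0029420501))))) (.nd (nat_lit 27) 
(.nd (nat_lit 26) 
(.lf (nat_lit 1611087928) (dlOf (nat_lit 1) (nat_lit 0x4c00080314002022e00080d0483))) 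
(.lf (nat_lit 1678196792) (dlOf (nat_lit 2) (nat_lit 0x4026007d602000c00281a0001)))) 
(.nd (nat_lit 30) 
(.lf (nat_lit 738672696) (dlOf (nat_lit 1) (nat_lit 0x4c00080314002022e00080d0483))) 
(.lf (nat_lit 3959898168) (dlOf (nat_lit 5) (nat_lit 0x30118004008a007d70400240460012022801f58100070118004008a007d504001a0460010022801f501000080080020002001c0008170003)))))) 
(.nd (nat_lit 7) (.nd (nat_lit 21) 
(.lf (nat_lit 30883896) (dlOf (nat_lit 1) (nat_lit 0x20018e50c01))) 
(.lf (nat_lit 3620920) (dlOf (nat_lit 1) (nat_lit 0x40008210b81)))) (.nd (nat_lit 8) 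
(.lf (nat_lit 20403896) (dlOf (nat_lit 1) (nat_lit 0xc00289da001))) 
(.lf (nat_lit 43468216) (dlOf (nat_lit 1) (nat_lit 0x1300080004002000e00092a3603)))))) 
(.nd (nat_lit 8) (.nd (nat_lit 9) (.nd (nat_lit 7) 
(.lf (nat_lit 1343176760) (dlOf (nat_lit 1) (nat_lit 0xd800800b400200260008190483))) 
(.lf (nat_lit 48186552) (dlOf (nat_lit 1) (nat_lit 0x2a0029402c81)))) (.nd (nat_lit 10) 
(.lf (nat_lit 3491709496) (dlOf (nat_lit 1) (nat_lit 0x680080004002000e0008091003))) 
(.lf (nat_lit 8345144) (dlOf (nat_lit 1) (nat_lit 0x20018519c01))))) (.nd (nat_lit 10) 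
(.nd (nat_lit 9) 
(.lf (nat_lit 6376341816) (dlOf (nat_lit 8) (nat_lit 0x24a131012209100a704840002c0c034c262020c1220000a8200f1098807b848800022080318262020c122000080200f3098807b8488000060800bc262021412200001020109098808b04880000008013c00200220008090b82))) 
(.lf (nat_lit 19876664) (dlOf (nat_lit 1) (nat_lit 0x4002000200089d5c02)))) (.nd (nat_lit 7) 
(.lf (nat_lit 3492759352) (dlOf (nat_lit 1) (nat_lit 0x2000180f3e01))) 
(.lf (nat_lit 19879864) (dlOf (nat_lit 1) (nat_lit 0x200189da501)))))))))) (.nd (nat_lit 8) 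
(.nd (nat_lit 3) (.nd (nat_lit 19) (.nd (nat_lit 16) (.nd (nat_lit 21) (.nd (nat_lit 23) 
(.nd (nat_lit 5) (.lf (nat_lit 1074151504) (dlOf (nat_lit 1) (nat_lit 0x80004000200080c1902))) 
(.lf (nat_lit 3221635184) (dlOf (nat_lit 1) (nat_lit 0x400400020008170002)))) (.nd (nat_lit 7) 
(.lf (nat_lit 29769808) (dlOf (nat_lit 2) (nat_lit 0x1dae8a00916308069a750000be0c000c004001c0018e30202))) 
(.lf (nat_lit 43402448) (dlOf (nat_lit 1) (nat_lit 0x4002000200092a2d82))))) (.nd (nat_lit 9) 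
(.nd (nat_lit 5) (.nd (nat_lit 22) 
(.lf (nat_lit 2506832) (dlOf (nat_lit 1) (nat_lit 0x400200020008160f82))) 
(.lf (nat_lit 48644176) (dlOf (nat_lit 1) (nat_lit 0x160019420701)))) 
(.lf (nat_lit 69615856) (dlOf (nat_lit 1) (nat_lit 0x400200020008b71e82)))) (.nd (nat_lit 22) 
(.lf (nat_lit 36063824) (dlOf (nat_lit 1) (nat_lit 0x4002000c0009015282))) 
(.lf (nat_lit 31869520) (dlOf (nat_lit 1) (nat_lit 0x4004001e0008e95282)))))) (.nd (nat_lit 26) 
(.nd (nat_lit 24) (.nd (nat_lit 25) (.nd (nat_lit 27) 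
(.lf (nat_lit 1611087952) (dlOf (nat_lit 1) (nat_lit 0x250008008c00200f400080d0503))) 
(.lf (nat_lit 3624353872) (dlOf (nat_lit 2) (nat_lit 0x140000002b018171000)))) 
(.lf (nat_lit 34029648) (dlOf (nat_lit 1) (nat_lit 0x20028f90701)))) (.nd (nat_lit 5) 
(.lf (nat_lit 21446736) (dlOf (nat_lit 1) (nat_lit 0x10002000a0008a40502))) 
(.lf (nat_lit 61292656) (dlOf (nat_lit 1) (nat_lit 0x4f000800f4002009e0009912483))))) 
(.nd (nat_lit 28) (.nd (nat_lit 5) (.nd (nat_lit 31) 
(.lf (nat_lit 738672720) (dlOf (nat_lit 1) (nat_lit 0x250008008c00200f400080d0503))) 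
(.lf (nat_lit 2886156368) (dlOf (nat_lit 2) (nat_lit 0x1400000027818171000)))) 
(.lf (nat_lit 604456048) (dlOf (nat_lit 1) (nat_lit 0x200282d2a01)))) (.nd (nat_lit 20) 
(.nd (nat_lit 21) 
(.lf (nat_lit 3557245008) (dlOf (nat_lit 4) (nat_lit 0x12a000000020100310000000080800e80000000004002c00200040008170702))) 
(.lf (nat_lit 1009205328) (dlOf (nat_lit 3) (nat_lit 0xf81c600b00e200de03b0000fc18002838c0006c040048004000800090a0702)))) 
(.lf (nat_lit 471285840) (dlOf (nat_lit 1) (nat_lit 0x200182e0201))))))) (.nd (nat_lit 16) 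
(.nd (nat_lit 5) (.nd (nat_lit 7) (.nd (nat_lit 20) (.nd (nat_lit 23) 
(.lf (nat_lit 21905488) (dlOf (nat_lit 2) (nat_lit 0x6a89c0005604000c00400020018a81002))) 
(.lf (nat_lit 13516880) (dlOf (nat_lit 2) (nat_lit 0x600000024018730d00)))) 
(.lf (nat_lit 18759760) (dlOf (nat_lit 1) (nat_lit 0x400200020008970202)))) (.nd (nat_lit 9) 
(.lf (nat_lit 6377324752) (dlOf (nat_lit 1) (nat_lit 0x4002000200080c1b82))) 
(.lf (nat_lit 1345211088) (dlOf (nat_lit 2) (nat_lit 0x70b2800088080078008006c00200240008b05883))))) 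
(.nd (nat_lit 7) (.nd (nat_lit 9) (.nd (nat_lit 20) 
(.lf (nat_lit 3492694128) (dlOf (nat_lit 1) (nat_lit 0x200080f4781))) 
(.lf (nat_lit 8276080) (dlOf (nat_lit 1) (nat_lit 0x1620018514781)))) 
(.lf (nat_lit 19811952) (dlOf (nat_lit 1) (nat_lit 0x80080210002007000089d7183)))) (.nd (nat_lit 9) 
(.lf (nat_lit 1343111408) (dlOf (nat_lit 1) (nat_lit 0x20008150701))) 
(.lf (nat_lit 471750384) (dlOf (nat_lit 1) (nat_lit 0x1200283da001)))))) (.nd (nat_lit 20) 
(.nd (nat_lit 28) (.nd (nat_lit 5) (.nd (nat_lit 12) 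
(.lf (nat_lit 13582416) (dlOf (nat_lit 3) (nat_lit 0x3f18c00077ac0003f040011c630003deb0000f81000200080044002000a0008730d03))) 
(.lf (nat_lit 19877968) (dlOf (nat_lit 1) (nat_lit 0x4002000200089d7d82)))) 
(.lf (nat_lit 19878000) (dlOf (nat_lit 1) (nat_lit 0x4002000200089d7d82)))) (.nd (nat_lit 7) 
(.nd (nat_lit 26) 
(.lf (nat_lit 1343176784) (dlOf (nat_lit 7) (nat_lit 0x1c83d801801e7000130200020f60036079c0004a08001c3d8000200200a00000000c0100b60000000100802a8000000000400ac00200240008190702))) 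
(.lf (nat_lit 470761552) (dlOf (nat_lit 2) (nat_lit 0x482f80000004003c00400140008170702)))) 
(.lf (nat_lit 5772361936) (dlOf (nat_lit 1) (nat_lit 0x4a20028090901))))) (.nd (nat_lit 23) 
(.nd (nat_lit 9) (.lf (nat_lit 473907280) (dlOf (nat_lit 1) (nat_lit 0x20008fc0701))) 
(.lf (nat_lit 1346325072) (dlOf (nat_lit 1) (nat_lit 0x88008008800200140008f05283)))) 
(.nd (nat_lit 21) 
(.lf (nat_lit 14630992) (dlOf (nat_lit 2) (nat_lit 0xca624000260200020008770701))) 
(.nd (nat_lit 25) (.lf (nat_lit 12533840) (dlOf (nat_lit 1) (nat_lit 0x8004000200086d0f82))) 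
(.lf (nat_lit 46088272) (dlOf (nat_lit 2) (nat_lit 0x962100be6819380000))))))))) (.nd (nat_lit 19) 
(.nd (nat_lit 16) (.nd (nat_lit 7) (.nd (nat_lit 9) (.nd (nat_lit 10) (.nd (nat_lit 22) 
(.lf (nat_lit 1208369240) (dlOf (nat_lit 1) (nat_lit 0x2000180d1b81))) 
(.lf (nat_lit 54935640) (dlOf (nat_lit 1) (nat_lit 0x60019670701)))) 
(.lf (nat_lit 38159448) (dlOf (nat_lit 1) (nat_lit 0xc00200020009132902)))) (.nd (nat_lit 5) 
(.lf (nat_lit 42355288) (dlOf (nat_lit 1) (nat_lit 0x20029245301))) 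
(.lf (nat_lit 8799864) (dlOf (nat_lit 1) (nat_lit 0x14002002a0008513982))))) (.nd (nat_lit 11) 
(.nd (nat_lit 27) (.lf (nat_lit 4295377112) (dlOf (nat_lit 1) (nat_lit 0x8004000600081a0482))) 
(.lf (nat_lit 4429594840) (dlOf (nat_lit 1) (nat_lit 0x8004000600081a0482)))) (.nd (nat_lit 5) 
(.lf (nat_lit 8800472) (dlOf (nat_lit 1) (nat_lit 0x8008000400200020008514a83))) 
(.lf (nat_lit 1745242872) (dlOf (nat_lit 1) (nat_lit 0x4002000200080e5a02)))))) (.nd (nat_lit 5) 
(.nd (nat_lit 26) (.nd (nat_lit 7) (.nd (nat_lit 22) 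
(.lf (nat_lit 1611087960) (dlOf (nat_lit 12) (nat_lit 0x1eb8158192c090091e0410415020019600c009b8054046002900019870036024001e8104014408000032060102056007d024002c0100000620c0bf00ae050a04902ee02281a301100a8c0640002d0a027204902030220000b010042815c05d409200700450001583008a02b8060012409c00880002a0604ac057026902481280110000520c011c082000180200be0410000b81003b0000000000806900080a00002040e00080d0603))) 
(.lf (nat_lit 21446744) (dlOf (nat_lit 7) (nat_lit 0x43da00008ea18017f4fc000980c007fb400004b020005da00002ea18001281003976800203a86000400400b3da00042ea18000fc100117680007fa860003e0400300028a40601)))) 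
(.lf (nat_lit 477400) (dlOf (nat_lit 1) (nat_lit 0xe0008004a81)))) (.nd (nat_lit 10) 
(.nd (nat_lit 20) 
(.lf (nat_lit 738672728) (dlOf (nat_lit 12) (nat_lit 0x1eb8158192c090091e0410415020019600c009b8054046002900019070036024001e8104014408000031060102056007d024002c0100000600c0bf00ae050a04902ee02281a301100a8c0640002c0a027204902030220000ac10042815c05d409200700450001503008a02b8060012409c0088000290604ac057026902481280110000500c011c082000180200be0410000b81003b0000000000806900080a00002040e00080d0603))) 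
(.lf (nat_lit 471285848) (dlOf (nat_lit 1) (nat_lit 0x400082e0381)))) 
(.lf (nat_lit 474432600) (dlOf (nat_lit 1) (nat_lit 0x1e0029162901))))) (.nd (nat_lit 7) 
(.nd (nat_lit 26) 
(.lf (nat_lit 3221700728) (dlOf (nat_lit 1) (nat_lit 0x30008000400200140008170083))) 
(.lf (nat_lit 3959898232) (dlOf (nat_lit 1) (nat_lit 0x30008000400200140008170083)))) 
(.nd (nat_lit 10) (.nd (nat_lit 21) 
(.lf (nat_lit 50809592) (dlOf (nat_lit 1) (nat_lit 0x480080048002001000094c5a03))) 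
(.lf (nat_lit 6377917176) (dlOf (nat_lit 2) (nat_lit 0x204c800282460002504000200180e5a01)))) 
(.lf (nat_lit 476920) (dlOf (nat_lit 1) (nat_lit 0x400400be0008003b82))))))) (.nd (nat_lit 16) 
(.nd (nat_lit 7) (.nd (nat_lit 24) (.nd (nat_lit 10) 
(.lf (nat_lit 3491643480) (dlOf (nat_lit 1) (nat_lit 0xc00400020008090002))) 
(.lf (nat_lit 34489432) (dlOf (nat_lit 1) (nat_lit 0x60028fb2901)))) (.nd (nat_lit 5) 
(.lf (nat_lit 59654232) (dlOf (nat_lit 2) (nat_lit 0x780000004c04006000200020009820802))) 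
(.lf (nat_lit 53362808) (dlOf (nat_lit 1) (nat_lit 0xa00195a0b81))))) (.nd (nat_lit 9) 
(.nd (nat_lit 11) (.nd (nat_lit 25) 
(.lf (nat_lit 12468440) (dlOf (nat_lit 1) (nat_lit 0x800286c0481))) 
(.lf (nat_lit 46022872) (dlOf (nat_lit 1) (nat_lit 0x400200020009380982)))) 
(.lf (nat_lit 3492694232) (dlOf (nat_lit 1) (nat_lit 0x200080f4a81)))) (.nd (nat_lit 5) 
(.lf (nat_lit 8278744) (dlOf (nat_lit 1) (nat_lit 0x8008000400200020008518c83))) 
(.lf (nat_lit 1345211128) (dlOf (nat_lit 1) (nat_lit 0x60008008c00200100008b05a03)))))) 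
(.nd (nat_lit 21) (.nd (nat_lit 7) (.nd (nat_lit 31) (.nd (nat_lit 20) 
(.lf (nat_lit 1343176792) (dlOf (nat_lit 2) (nat_lit 0x700870001a018190800))) 
(.lf (nat_lit 5773410392) (dlOf (nat_lit 1) (nat_lit 0x4002000200080d1782)))) (.nd (nat_lit 9) 
(.lf (nat_lit 3491709016) (dlOf (nat_lit 1) (nat_lit 0x20008090001))) 
(.lf (nat_lit 4095690328) (dlOf (nat_lit 1) (nat_lit 0x4004000200080e3882))))) (.nd (nat_lit 5) 
(.lf (nat_lit 2048216) (dlOf (nat_lit 1) (nat_lit 0x68008002800200100008150483))) 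
(.lf (nat_lit 6242552) (dlOf (nat_lit 1) (nat_lit 0x100018420681))))) (.nd (nat_lit 5) 
(.nd (nat_lit 9) (.nd (nat_lit 11) 
(.lf (nat_lit 37700696) (dlOf (nat_lit 1) (nat_lit 0x3400080004002007000090d2903))) 
(.lf (nat_lit 2754563160) (dlOf (nat_lit 1) (nat_lit 0x4002011200080f6082)))) 
(.lf (nat_lit 1346325080) (dlOf (nat_lit 12) (nat_lit 0xc201d0001301000c0b480070598001803a0001d0600041690000d01000300e8000640800285a4000403a0001804000c166000f00e8000401000180740001a0400302d20006168001400e800014180080074000040400042d2000201d0000082002300e800000080008008004000200160008f05303)))) 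
(.nd (nat_lit 7) 
(.lf (nat_lit 19874424) (dlOf (nat_lit 2) (nat_lit 0x3b7d00009a94000ccd20001b0389d1900))) 
(.lf (nat_lit 7291128) (dlOf (nat_lit 1) (nat_lit 0x400184b0681))))))))) (.nd (nat_lit 5) 
(.nd (nat_lit 3) (.nd (nat_lit 7) (.nd (nat_lit 16) (.nd (nat_lit 11) (.nd (nat_lit 24) 
(.nd (nat_lit 19) (.nd (nat_lit 27) 
(.lf (nat_lit 4362486096) (dlOf (nat_lit 4) (nat_lit 0x6340580003302011002c00019010024029003d0144006408c0006045005c0168000b4280910008036400200420008090603))) 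
(.lf (nat_lit 4228268368) (dlOf (nat_lit 4) (nat_lit 0x6340560003202011002b00018810024025803d0128006407e000603e005c0160000b0280910008036400200420008090603)))) 
(.lf (nat_lit 3031376) (dlOf (nat_lit 2) (nat_lit 0x24b200019018200600)))) (.nd (nat_lit 22) 
(.lf (nat_lit 25575760) (dlOf (nat_lit 1) (nat_lit 0x8008000400200020008c10803))) 
(.lf (nat_lit 21381456) (dlOf (nat_lit 1) (nat_lit 0x4e0018a34d01))))) (.nd (nat_lit 9) 
(.lf (nat_lit 3490073936) (dlOf (nat_lit 2) (nat_lit 0xc08600008018006a00))) 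
(.lf (nat_lit 46549840) (dlOf (nat_lit 1) (nat_lit 0x400400020009385c02))))) (.nd (nat_lit 10) 
(.nd (nat_lit 9) 
(.lf (nat_lit 6376341840) (dlOf (nat_lit 4) (nat_lit 0x802440000b0200601220000481000609100001c080030008007800200180008090d03))) 
(.lf (nat_lit 19874640) (dlOf (nat_lit 2) (nat_lit 0xabbc4005ada70000c81000a80080044002000400089d2483)))) 
(.nd (nat_lit 11) 
(.lf (nat_lit 604456272) (dlOf (nat_lit 1) (nat_lit 0x80080010002000200082d3303))) 
(.lf (nat_lit 3490139472) (dlOf (nat_lit 1) (nat_lit 0x20028006a01)))))) (.nd (nat_lit 26) 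
(.nd (nat_lit 10) (.nd (nat_lit 24) (.nd (nat_lit 27) (.nd (nat_lit 28) 
(.lf (nat_lit 3221635536) (dlOf (nat_lit 2) (nat_lit 0x43028801b80d4009803e000000600240028170a01))) 
(.lf (nat_lit 805716432) (dlOf (nat_lit 1) (nat_lit 0x200281a0a01)))) 
(.lf (nat_lit 134627792) (dlOf (nat_lit 1) (nat_lit 0x20018090a01)))) (.nd (nat_lit 11) 
(.lf (nat_lit 21381584) (dlOf (nat_lit 1) (nat_lit 0xc40028a37101))) 
(.lf (nat_lit 19814864) (dlOf (nat_lit 1) (nat_lit 0x200289db101))))) (.nd (nat_lit 9) 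
(.lf (nat_lit 8279504) (dlOf (nat_lit 2) (nat_lit 0x8aea000080080070008005400200140008519b03))) 
(.nd (nat_lit 16) 
(.lf (nat_lit 1344161744) (dlOf (nat_lit 1) (nat_lit 0x80080004002000200083d4503))) 
(.lf (nat_lit 477136) (dlOf (nat_lit 1) (nat_lit 0x400400120008004502)))))) (.nd (nat_lit 30) 
(.nd (nat_lit 9) (.nd (nat_lit 27) 
(.lf (nat_lit 4362486224) (dlOf (nat_lit 21) (nat_lit 0x1b023800098081b8814c0de008e000e046039b016800080201bf814c0e5008e001c04603ab01680007c200e6014c06e408e035802d0000f03036b02981b9811c0e9805a0001d06066a0530370023800070101ba814c0e3408e073e02d0000d83003301680006808009014c009008e0001904001c0470000c0100110298009811c0002e0800d00a600c00470000a02000402380004c08037011c0002004006008e0000f0204bc053029802380003810193014c0d7808e0000d040034047000060100040230000040800c8118000000400bc00200060008090a02))) 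
(.lf (nat_lit 201736656) (dlOf (nat_lit 1) (nat_lit 0x20018090a01)))) 
(.lf (nat_lit 2886092752) (dlOf (nat_lit 1) (nat_lit 0x100028144501)))) (.nd (nat_lit 27) 
(.lf (nat_lit 1678131664) (dlOf (nat_lit 1) (nat_lit 0x200281a0a01))) (.nd (nat_lit 28) 
(.lf (nat_lit 3959833040) (dlOf (nat_lit 2) (nat_lit 0x43028801b80d4009803e000000600240028170a01))) 
(.lf (nat_lit 4228268496) (dlOf (nat_lit 21) (nat_lit 0x1b020000098081b881300de0080000e03f039b016000080201bf81300e50080001c03f03ab01600007c200e6013006e4080035802c0000f03036b02601b981000e980580001d06066a04c0370020000070101ba81300e34080073e02c0000d83003301600006808009013000900800001904001c0400000c010011026000981000002e0800d009800c00400000a02000402000004c080370100000200400600800000f0204bc04c02980200000381019301300d780800000d0400340400000601000401f8000040800c80fc000000400bc00200060008090a02)))))))) 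
(.nd (nat_lit 16) (.nd (nat_lit 7) (.nd (nat_lit 10) (.nd (nat_lit 19) 
(.lf (nat_lit 21381464) (dlOf (nat_lit 1) (nat_lit 0x15000800f4002003c0008a34d83))) 
(.nd (nat_lit 20) 
(.lf (nat_lit 2752397656) (dlOf (nat_lit 13) (nat_lit 0xfe87e8000c80405103f4000630203e21fa0003101000e109010387e8000c20800d03f4000600200d41fa000228101690fd0001100809b87e8000840400d03f400041020082212021c0fd0052055402c027000081370002005003f109010707e802942aa015c1380001f84009d0fd0000f80803e0008039c002052e0008014e03))) 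
(.lf (nat_lit 18760024) (dlOf (nat_lit 1) (nat_lit 0x940018970881))))) (.nd (nat_lit 9) 
(.nd (nat_lit 19) 
(.lf (nat_lit 5773870424) (dlOf (nat_lit 1) (nat_lit 0x80080020002000200080e3383))) 
(.lf (nat_lit 472794456) (dlOf (nat_lit 2) (nat_lit 0x4785940002204010c00200040008b03382)))) 
(.lf (nat_lit 3492693848) (dlOf (nat_lit 1) (nat_lit 0x200080f3f81))))) (.nd (nat_lit 27) 
(.nd (nat_lit 9) (.nd (nat_lit 22) 
(.lf (nat_lit 3221635544) (dlOf (nat_lit 1) (nat_lit 0x20018170b01))) 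
(.lf (nat_lit 21381592) (dlOf (nat_lit 1) (nat_lit 0x2400400080018a37102)))) 
(.lf (nat_lit 3492692952) (dlOf (nat_lit 1) (nat_lit 0x4004000200080f2882)))) (.nd (nat_lit 26) 
(.lf (nat_lit 134627800) (dlOf (nat_lit 1) (nat_lit 0x184002007a0008090b02))) (.nd (nat_lit 29) 
(.lf (nat_lit 201736664) (dlOf (nat_lit 1) (nat_lit 0x184002007a0008090b02))) 
(.lf (nat_lit 3959833048) (dlOf (nat_lit 1) (nat_lit 0x20018170b01))))))) (.nd (nat_lit 26) 
(.nd (nat_lit 9) (.nd (nat_lit 19) 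
(.lf (nat_lit 805781848) (dlOf (nat_lit 1) (nat_lit 0x10002000800081a0682))) 
(.lf (nat_lit 18825560) (dlOf (nat_lit 1) (nat_lit 0x30008000400200020008970883)))) 
(.nd (nat_lit 7) (.nd (nat_lit 10) 
(.lf (nat_lit 19874648) (dlOf (nat_lit 1) (nat_lit 0x280080054002001200089d2583))) 
(.lf (nat_lit 477016) (dlOf (nat_lit 1) (nat_lit 0x400400060008003f82)))) 
(.lf (nat_lit 47662040) (dlOf (nat_lit 1) (nat_lit 0x1400200020009402882))))) (.nd (nat_lit 19) 
(.nd (nat_lit 27) (.nd (nat_lit 29) 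
(.lf (nat_lit 4362551640) (dlOf (nat_lit 2) (nat_lit 0xb0000000000200260018090681))) 
(.lf (nat_lit 1678197080) (dlOf (nat_lit 1) (nat_lit 0x10002000800081a0682)))) 
(.lf (nat_lit 4228333912) (dlOf (nat_lit 2) (nat_lit 0xb0000000000200260018090681)))) 
(.nd (nat_lit 27) 
(.lf (nat_lit 2752463192) (dlOf (nat_lit 7) (nat_lit 0x6c1fa000320100520fd0001880803807e8000c20400103f4000440200ce1fa000200100710fd0000fc0802000080090002006c0008014e03))) 
(.lf (nat_lit 6376341848) (dlOf (nat_lit 2) (nat_lit 0x3820e001c0fe00016828090d80)))))))) 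
(.nd (nat_lit 11) (.nd (nat_lit 9) (.nd (nat_lit 3) (.nd (nat_lit 22) (.nd (nat_lit 27) 
(.lf (nat_lit 4362486128) (dlOf (nat_lit 2) (nat_lit 0x18023803858080040008006c002004e0008090783))) 
(.nd (nat_lit 28) 
(.lf (nat_lit 201736560) (dlOf (nat_lit 2) (nat_lit 0x30c07600cee02004e0018090781))) 
(.lf (nat_lit 4228268400) (dlOf (nat_lit 1) (nat_lit 0x8008000400200020008090783))))) 
(.nd (nat_lit 7) (.lf (nat_lit 21381488) (dlOf (nat_lit 2) (nat_lit 0x177520005b2800582028a35800))) 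
(.lf (nat_lit 8340976) (dlOf (nat_lit 1) (nat_lit 0x400200020008513602))))) (.nd (nat_lit 16) 
(.nd (nat_lit 7) 
(.lf (nat_lit 4228268408) (dlOf (nat_lit 3) (nat_lit 0xc04c0045181001402000225c0800c8008005c002003a0008090783))) 
(.lf (nat_lit 2752397816) (dlOf (nat_lit 4) (nat_lit 0x4703f0000220202581f80001001013a0fc00007408030000800e400200d40008017e03)))) 
(.nd (nat_lit 21) 
(.lf (nat_lit 2752463352) (dlOf (nat_lit 8) (nat_lit 0x161f8000120100150fc0000880800407e0000400400243f00001f0200181f80000e8100160fc00006c0800707e00003404014c004000e0018017e02))) 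
(.lf (nat_lit 19874296) (dlOf (nat_lit 1) (nat_lit 0x4002000200089d1482)))))) (.nd (nat_lit 19) 
(.nd (nat_lit 16) (.nd (nat_lit 22) (.nd (nat_lit 28) 
(.lf (nat_lit 2751874032) (dlOf (nat_lit 1) (nat_lit 0x800200020008002882))) 
(.lf (nat_lit 872825840) (dlOf (nat_lit 1) (nat_lit 0x1400280e2881)))) 
(.lf (nat_lit 38159344) (dlOf (nat_lit 1) (nat_lit 0x1400200020009132882)))) (.nd (nat_lit 3) 
(.lf (nat_lit 68633584) (dlOf (nat_lit 1) (nat_lit 0x5a0028662881))) 
(.lf (nat_lit 473383928) (dlOf (nat_lit 1) (nat_lit 0x120028f52881))))) (.nd (nat_lit 3) 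
(.nd (nat_lit 10) (.lf (nat_lit 3492758512) (dlOf (nat_lit 1) (nat_lit 0x4002000200080f2882))) 
(.lf (nat_lit 8275952) (dlOf (nat_lit 2) (nat_lit 0x56f500019018514600)))) (.nd (nat_lit 7) 
(.lf (nat_lit 3492693880) (dlOf (nat_lit 1) (nat_lit 0x8002000200080f4082))) (.nd (nat_lit 20) 
(.lf (nat_lit 3492692984) (dlOf (nat_lit 1) (nat_lit 0x80080004002000200080f2883))) 
(.lf (nat_lit 8274936) (dlOf (nat_lit 1) (nat_lit 0x8008000400200020008512883)))))))) 
(.nd (nat_lit 21) (.nd (nat_lit 20) (.nd (nat_lit 26) (.nd (nat_lit 3) 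
(.lf (nat_lit 50809328) (dlOf (nat_lit 2) (nat_lit 0x18408001f0040004002000200094c4f02))) 
(.lf (nat_lit 5771774840) (dlOf (nat_lit 1) (nat_lit 0x8008000400200020008005c03)))) 
(.nd (nat_lit 22) (.lf (nat_lit 2080852336) (dlOf (nat_lit 1) (nat_lit 0x4004000200080e4e82))) 
(.lf (nat_lit 474433904) (dlOf (nat_lit 1) (nat_lit 0x400200020009164e82))))) (.nd (nat_lit 19) 
(.nd (nat_lit 22) (.nd (nat_lit 27) 
(.lf (nat_lit 68634992) (dlOf (nat_lit 1) (nat_lit 0x30008000400200020008664e83))) 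
(.lf (nat_lit 6376868208) (dlOf (nat_lit 1) (nat_lit 0x8008000400200040008094e83)))) 
(.lf (nat_lit 39274864) (dlOf (nat_lit 1) (nat_lit 0x400200020009194e82)))) (.nd (nat_lit 16) 
(.lf (nat_lit 471746928) (dlOf (nat_lit 1) (nat_lit 0x80080004002000200083d4e83))) 
(.lf (nat_lit 39799152) (dlOf (nat_lit 1) (nat_lit 0xe00191f4e81)))))) (.nd (nat_lit 22) 
(.nd (nat_lit 9) (.nd (nat_lit 16) 
(.lf (nat_lit 37636464) (dlOf (nat_lit 1) (nat_lit 0x200090d4e81))) (.nd (nat_lit 24) 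
(.lf (nat_lit 1346324848) (dlOf (nat_lit 1) (nat_lit 0xe0018f04e81))) 
(.lf (nat_lit 54479216) (dlOf (nat_lit 1) (nat_lit 0x20008000400200020009654e83))))) 
(.nd (nat_lit 3) (.lf (nat_lit 19876720) (dlOf (nat_lit 1) (nat_lit 0x4002000200089d5c02))) 
(.lf (nat_lit 54414328) (dlOf (nat_lit 1) (nat_lit 0x20029655f01))))) (.nd (nat_lit 24) 
(.nd (nat_lit 7) (.lf (nat_lit 41830768) (dlOf (nat_lit 1) (nat_lit 0x120029244e81))) 
(.lf (nat_lit 8278000) (dlOf (nat_lit 1) (nat_lit 0x8008000400200020008517a83)))) (.nd (nat_lit 20) 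
(.lf (nat_lit 57559408) (dlOf (nat_lit 1) (nat_lit 0x8008001c00200020009794e83))) 
(.lf (nat_lit 33442160) (dlOf (nat_lit 1) (nat_lit 0x180018f54e81))))))))))))

end

end Pool.Agent.Lib.MP_5854e1_co.Cz

namespace Pool.Agent.Lib.MP_5854e1_co.Cz

noncomputable section

noncomputable def tz70 : DT := (.nd (nat_lit 3) (.nd (nat_lit 17) (.nd (nat_lit 5) 
(.nd (nat_lit 18) (.nd (nat_lit 19) (.nd (nat_lit 9) (.nd (nat_lit 6) (.nd (nat_lit 7) 
(.nd (nat_lit 8) (.nd (nat_lit 10) 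
(.lf (nat_lit 12599313) (dlOf (nat_lit 1) (nat_lit 0x8008014400200b600086d0683))) 
(.lf (nat_lit 3019918353) (dlOf (nat_lit 1) (nat_lit 0x400400020008005f82)))) (.nd (nat_lit 12) 
(.lf (nat_lit 472925457) (dlOf (nat_lit 2) (nat_lit 0x204e00011408009000800e400200120008b53003))) 
(.lf (nat_lit 4160771345) (dlOf (nat_lit 1) (nat_lit 0xa0028009681))))) (.nd (nat_lit 8) 
(.nd (nat_lit 10) (.lf (nat_lit 3162257) (dlOf (nat_lit 2) (nat_lit 0x424c700023018200180))) 
(.nd (nat_lit 11) (.lf (nat_lit 472925329) (dlOf (nat_lit 1) (nat_lit 0xc0028b52b81))) 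
(.lf (nat_lit 2754628753) (dlOf (nat_lit 1) (nat_lit 0x4200080f6201))))) (.nd (nat_lit 10) 
(.lf (nat_lit 3758113169) (dlOf (nat_lit 1) (nat_lit 0x80018001001))) 
(.lf (nat_lit 134237585) (dlOf (nat_lit 1) (nat_lit 0x480028006d01)))))) (.nd (nat_lit 11) 
(.nd (nat_lit 23) (.nd (nat_lit 8) 
(.lf (nat_lit 3691008081) (dlOf (nat_lit 3) (nat_lit 0x100e801184080020074008c0040004004000c0008007d82))) 
(.lf (nat_lit 3162449) (dlOf (nat_lit 1) (nat_lit 0x20018200681)))) (.nd (nat_lit 22) 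
(.lf (nat_lit 25182289) (dlOf (nat_lit 1) (nat_lit 0x34004000a0018be1602))) 
(.lf (nat_lit 12599377) (dlOf (nat_lit 1) (nat_lit 0x4002000200086d1002))))) (.nd (nat_lit 7) 
(.nd (nat_lit 27) 
(.lf (nat_lit 4362094673) (dlOf (nat_lit 1) (nat_lit 0x18008074800200fe0008004703))) 
(.lf (nat_lit 469780561) (dlOf (nat_lit 1) (nat_lit 0x34002000e0008004702)))) (.nd (nat_lit 8) 
(.nd (nat_lit 10) 
(.lf (nat_lit 2348828881) (dlOf (nat_lit 1) (nat_lit 0x10008000c00200040008004a03))) 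
(.lf (nat_lit 134241489) (dlOf (nat_lit 1) (nat_lit 0x40040002000800c302)))) 
(.lf (nat_lit 6442469841) (dlOf (nat_lit 1) (nat_lit 0xa0028004e81))))))) (.nd (nat_lit 7) 
(.nd (nat_lit 8) (.nd (nat_lit 26) (.nd (nat_lit 11) 
(.lf (nat_lit 5502944785) (dlOf (nat_lit 1) (nat_lit 0x8008000400200020008003703))) 
(.lf (nat_lit 2952814097) (dlOf (nat_lit 3) (nat_lit 0x5100e0024806c0002e08012403800015020002001800ce01)))) 
(.nd (nat_lit 27) (.nd (nat_lit 28) 
(.lf (nat_lit 5435835921) (dlOf (nat_lit 2) (nat_lit 0x101f00000008013000800e800200a40008003703))) 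
(.lf (nat_lit 4630529553) (dlOf (nat_lit 1) (nat_lit 0x400400020008003702)))) 
(.lf (nat_lit 6106924561) (dlOf (nat_lit 1) (nat_lit 0x400400020008003702))))) (.nd (nat_lit 6) 
(.nd (nat_lit 29) (.lf (nat_lit 2415937297) (dlOf (nat_lit 1) (nat_lit 0x1c00400020008003c02))) 
(.lf (nat_lit 4026550033) (dlOf (nat_lit 1) (nat_lit 0x7800400020018003c02)))) (.nd (nat_lit 26) 
(.lf (nat_lit 536889169) (dlOf (nat_lit 3) (nat_lit 0x302c0000d80800380c40006004001000400120008003f02))) 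
(.lf (nat_lit 469780305) (dlOf (nat_lit 1) (nat_lit 0x400200020008003f02)))))) (.nd (nat_lit 8) 
(.nd (nat_lit 12) (.nd (nat_lit 26) 
(.lf (nat_lit 536888977) (dlOf (nat_lit 1) (nat_lit 0x90008009400200060008003a83))) 
(.lf (nat_lit 469780113) (dlOf (nat_lit 1) (nat_lit 0x14800800a800200440008003a83)))) 
(.nd (nat_lit 27) (.lf (nat_lit 67131025) (dlOf (nat_lit 1) (nat_lit 0x1020018009e81))) 
(.lf (nat_lit 6643799697) (dlOf (nat_lit 1) (nat_lit 0x800400140008009e82))))) (.nd (nat_lit 6) 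
(.nd (nat_lit 11) (.lf (nat_lit 6039819153) (dlOf (nat_lit 1) (nat_lit 0x20008009081))) 
(.nd (nat_lit 22) (.lf (nat_lit 2080394129) (dlOf (nat_lit 1) (nat_lit 0x20018005c81))) 
(.lf (nat_lit 54545297) (dlOf (nat_lit 1) (nat_lit 0x60009655c81))))) (.nd (nat_lit 10) 
(.lf (nat_lit 5301619665) (dlOf (nat_lit 2) (nat_lit 0x1d01f0000000800980080020002004c0008005d83))) 
(.lf (nat_lit 2952810449) (dlOf (nat_lit 3) (nat_lit 0x200e0027e8080008070013dc04001400400ec0008007a82)))))))) 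
(.nd (nat_lit 21) (.nd (nat_lit 26) (.nd (nat_lit 22) (.nd (nat_lit 23) (.nd (nat_lit 27) 
(.nd (nat_lit 6) (.lf (nat_lit 805847057) (dlOf (nat_lit 1) (nat_lit 0x2c002001e00081c0582))) 
(.lf (nat_lit 50872785) (dlOf (nat_lit 1) (nat_lit 0x100080008002000600094d7b03)))) 
(.nd (nat_lit 28) 
(.lf (nat_lit 2819112977) (dlOf (nat_lit 1) (nat_lit 0x80080004002000200081a0483))) 
(.lf (nat_lit 3624419345) (dlOf (nat_lit 2) (nat_lit 0x8040000000181a0480))))) (.nd (nat_lit 6) 
(.nd (nat_lit 7) (.lf (nat_lit 8931345) (dlOf (nat_lit 1) (nat_lit 0x400400020008514702))) 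
(.lf (nat_lit 8930449) (dlOf (nat_lit 1) (nat_lit 0x2b800400b40008512b82)))) 
(.lf (nat_lit 8931665) (dlOf (nat_lit 1) (nat_lit 0x60008514e01))))) (.nd (nat_lit 24) 
(.lf (nat_lit 3494395921) (dlOf (nat_lit 12) (nat_lit 0x8819c0054082001a022001100d80081c2000a019c00680820022022001500d80081420008019800040ba000605c001401f800500b40034044001c01c000e387001103300030170005407e001602d000d011000780700038c1800540cc000805d000d02e000c80fc002805a0022022001200e0007143800d019800040ba000e05c001c01f800200b40054044002c01c000e207000b03300040170003007e001602d000a011000400700038418005c0cc000405d000302e000c80fc003805a0026022001400e000704380080198005007e001002d000e01100078070003801400300cc001005c000c01f800500b40034044001001c000df86000802e8006b808063000804fc00204ac0008210983))) 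
(.nd (nat_lit 25) (.lf (nat_lit 21512209) (dlOf (nat_lit 1) (nat_lit 0x580008a40001))) 
(.lf (nat_lit 55066641) (dlOf (nat_lit 2) (nat_lit 0x20000001a8196a0200)))))) (.nd (nat_lit 8) 
(.nd (nat_lit 7) (.nd (nat_lit 27) 
(.lf (nat_lit 1678262289) (dlOf (nat_lit 1) (nat_lit 0x2c002001e00081c0582))) 
(.lf (nat_lit 2886221841) (dlOf (nat_lit 2) (nat_lit 0x8040000000181a0480)))) 
(.lf (nat_lit 4095230097) (dlOf (nat_lit 1) (nat_lit 0x20008081081)))) (.nd (nat_lit 6) 
(.nd (nat_lit 10) (.lf (nat_lit 67649809) (dlOf (nat_lit 1) (nat_lit 0x1e00182d0701))) 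
(.lf (nat_lit 68699409) (dlOf (nat_lit 1) (nat_lit 0x20008723001)))) 
(.lf (nat_lit 604520913) (dlOf (nat_lit 1) (nat_lit 0x600082e7b01)))))) (.nd (nat_lit 6) 
(.nd (nat_lit 20) (.nd (nat_lit 7) (.nd (nat_lit 22) 
(.lf (nat_lit 2754101265) (dlOf (nat_lit 1) (nat_lit 0x200280c0981))) 
(.lf (nat_lit 15220753) (dlOf (nat_lit 3) (nat_lit 0xd88ea0009181009c4750003e00800580080278002013c00087c0483)))) 
(.lf (nat_lit 52970641) (dlOf (nat_lit 1) (nat_lit 0xc00400060009572b82)))) (.nd (nat_lit 10) 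
(.nd (nat_lit 22) (.lf (nat_lit 3686417) (dlOf (nat_lit 1) (nat_lit 0x40028210681))) 
(.lf (nat_lit 24657937) (dlOf (nat_lit 1) (nat_lit 0x680008bb0201)))) 
(.lf (nat_lit 20466705) (dlOf (nat_lit 3) (nat_lit 0x19a8e0004d2c00000e04001c960000000189d5f80))))) 
(.nd (nat_lit 20) (.nd (nat_lit 7) (.nd (nat_lit 26) 
(.lf (nat_lit 3492298833) (dlOf (nat_lit 1) (nat_lit 0x10002004200080c1602))) 
(.lf (nat_lit 2754101329) (dlOf (nat_lit 6) (nat_lit 0x25049400382450001a0200c5125003f0914000640807943f20002e0205161f90001601011a1088000a808034000800d400201e200080c1903)))) 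
(.nd (nat_lit 8) (.lf (nat_lit 1009272017) (dlOf (nat_lit 1) (nat_lit 0x200190e2d81))) 
(.lf (nat_lit 1009271249) (dlOf (nat_lit 1) (nat_lit 0x200080008002000800090e1183))))) 
(.nd (nat_lit 8) (.nd (nat_lit 26) 
(.lf (nat_lit 3493347409) (dlOf (nat_lit 1) (nat_lit 0x5000400380008121002))) 
(.lf (nat_lit 2755149905) (dlOf (nat_lit 1) (nat_lit 0x5000400380008121002)))) 
(.lf (nat_lit 12075345) (dlOf (nat_lit 1) (nat_lit 0x4002000200086c0682)))))))) (.nd (nat_lit 30) 
(.nd (nat_lit 19) (.nd (nat_lit 23) (.nd (nat_lit 26) (.nd (nat_lit 27) (.nd (nat_lit 7) 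
(.lf (nat_lit 537149457) (dlOf (nat_lit 1) (nat_lit 0x80080018002000c0008030883))) 
(.lf (nat_lit 52708497) (dlOf (nat_lit 1) (nat_lit 0x120029572b81)))) (.nd (nat_lit 6) 
(.nd (nat_lit 29) (.lf (nat_lit 4429463569) (dlOf (nat_lit 2) (nat_lit 0x4027000160180c0180))) 
(.lf (nat_lit 671367185) (dlOf (nat_lit 13) (nat_lit 0xd007c03aea04004803e01d600200a201f00eaf010024014006e5c08021800001b0604013805000d210200a60280068e81005201400343c0802880a001a1c04012405000d0802002a01f0067e0100360118012007c023003a0004005008800000000028008000800e400202820008170883)))) 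
(.lf (nat_lit 671367249) (dlOf (nat_lit 7) (nat_lit 0xc0000002781000400000013408005807c0008c0400c003e0003f02001201f0001f01001d00f8000f40800c0008014c00200c20008171003))))) 
(.nd (nat_lit 6) (.nd (nat_lit 10) 
(.lf (nat_lit 470040593) (dlOf (nat_lit 2) (nat_lit 0x5891c00b8478017e154003b0a980440544016c26e00f40f4007a04a003af0400080008006000200640008030883))) 
(.lf (nat_lit 474235921) (dlOf (nat_lit 1) (nat_lit 0x200190e2881)))) (.nd (nat_lit 7) 
(.nd (nat_lit 10) (.lf (nat_lit 67387473) (dlOf (nat_lit 1) (nat_lit 0x400280f0701))) 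
(.lf (nat_lit 2751743057) (dlOf (nat_lit 1) (nat_lit 0x60018002881)))) 
(.lf (nat_lit 6509838801) (dlOf (nat_lit 5) (nat_lit 0x12026001200b802a98100080098005002e00a5e040012026000500b80297010006805c0148e040004004002c0018157102)))))) 
(.nd (nat_lit 21) (.nd (nat_lit 6) (.nd (nat_lit 7) 
(.lf (nat_lit 60050449) (dlOf (nat_lit 1) (nat_lit 0x360019845f81))) 
(.lf (nat_lit 8667537) (dlOf (nat_lit 1) (nat_lit 0x400200020008511002)))) 
(.lf (nat_lit 9716049) (dlOf (nat_lit 1) (nat_lit 0x3000400040008574d82)))) (.nd (nat_lit 20) 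
(.lf (nat_lit 44318737) (dlOf (nat_lit 1) (nat_lit 0x400192f0181))) (.nd (nat_lit 22) 
(.lf (nat_lit 62144529) (dlOf (nat_lit 1) (nat_lit 0x6c0009960001))) 
(.lf (nat_lit 16007185) (dlOf (nat_lit 1) (nat_lit 0x80018850401))))))) (.nd (nat_lit 10) 
(.nd (nat_lit 20) (.nd (nat_lit 6) (.nd (nat_lit 23) 
(.lf (nat_lit 2754363409) (dlOf (nat_lit 5) (nat_lit 0xb00112054c0880001f8203ec044822782200007a0805a449803b020f01580448000ec180b5822400bc1100001504005e00280e0101))) 
(.lf (nat_lit 28065809) (dlOf (nat_lit 1) (nat_lit 0x40028d50301)))) 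
(.lf (nat_lit 59523153) (dlOf (nat_lit 1) (nat_lit 0x38008001c00200140009800703)))) 
(.nd (nat_lit 6) (.nd (nat_lit 22) 
(.lf (nat_lit 10240017) (dlOf (nat_lit 1) (nat_lit 0x600185c0881))) 
(.lf (nat_lit 22822929) (dlOf (nat_lit 1) (nat_lit 0xa0018b30181)))) 
(.lf (nat_lit 50086865) (dlOf (nat_lit 2) (nat_lit 0x269d100292e040004002000200094c2882))))) 
(.nd (nat_lit 11) (.nd (nat_lit 6) (.nd (nat_lit 7) 
(.lf (nat_lit 39601169) (dlOf (nat_lit 1) (nat_lit 0x20019192881))) 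
(.lf (nat_lit 41698449) (dlOf (nat_lit 1) (nat_lit 0x130008000400200020009242b83)))) 
(.lf (nat_lit 50087249) (dlOf (nat_lit 6) (nat_lit 0x12df8c0005404012ce8800010020090744000078100653a2000038080149d1000006040058004004800094c3302)))) 
(.nd (nat_lit 9) (.lf (nat_lit 20728849) (dlOf (nat_lit 1) (nat_lit 0x4002000200089d5f82))) 
(.lf (nat_lit 19684881) (dlOf (nat_lit 1) (nat_lit 0x16c00189dce01))))))) (.nd (nat_lit 27) 
(.nd (nat_lit 6) (.nd (nat_lit 26) (.nd (nat_lit 19) 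
(.lf (nat_lit 1342455825) (dlOf (nat_lit 2) (nat_lit 0x5891c00b8478017e154003b0a980440544016c26e00f40f4007a04a00225c400080008006000200640008030883))) 
(.lf (nat_lit 3492560913) (dlOf (nat_lit 5) (nat_lit 0xb00118054c08b0001f8203ec0460227822c0007a0805a446803b01fa01580460000ec180b5823000bc1160001604005e00280e0101)))) 
(.nd (nat_lit 7) (.nd (nat_lit 28) 
(.lf (nat_lit 1141129233) (dlOf (nat_lit 1) (nat_lit 0x10008000c00200060008110083))) 
(.lf (nat_lit 1409564689) (dlOf (nat_lit 1) (nat_lit 0x80080018002000c0008030883)))) 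
(.lf (nat_lit 5704533393) (dlOf (nat_lit 1) (nat_lit 0x4002000200080d3602))))) (.nd (nat_lit 9) 
(.nd (nat_lit 7) 
(.lf (nat_lit 5436096593) (dlOf (nat_lit 2) (nat_lit 0x40044001c6040010004000800180d1702))) 
(.lf (nat_lit 3489946833) (dlOf (nat_lit 1) (nat_lit 0x400040050000800c302)))) (.nd (nat_lit 10) 
(.lf (nat_lit 1881426513) (dlOf (nat_lit 12) (nat_lit 0x901e80008a0400600f4000440200180e2000c03d00010410006038800300f40004004036e0e201af03d0000f810006038800300f40003d04003007a0001e01000b071000581e8000760800441c4001607a000503c0000dc1800101e80006a040004276000207a00000028f05280))) 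
(.lf (nat_lit 1610892881) (dlOf (nat_lit 1) (nat_lit 0x400200020008093882)))))) (.nd (nat_lit 26) 
(.nd (nat_lit 6) (.nd (nat_lit 19) (.nd (nat_lit 29) 
(.lf (nat_lit 1476673553) (dlOf (nat_lit 1) (nat_lit 0x80018100301))) 
(.lf (nat_lit 2013544465) (dlOf (nat_lit 1) (nat_lit 0x10008000c00200060008110083)))) 
(.lf (nat_lit 5773213713) (dlOf (nat_lit 6) (nat_lit 0x160978032ec0808c04bc019640403a425e00ca202013212f006508100e409780328008020000800a4002005e00080b0003)))) 
(.nd (nat_lit 7) 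
(.lf (nat_lit 3624160593) (dlOf (nat_lit 4) (nat_lit 0x1900f800bc06e003403500370000000502002e80f8012806e00120350000983002a01b800044080010008009800200180008146a03))) 
(.lf (nat_lit 5772165585) (dlOf (nat_lit 5) (nat_lit 0x1847c0005a04002823e0000602001611f0000101000508f800000080198008002400200660008091183))))) 
(.nd (nat_lit 32) (.nd (nat_lit 6) 
(.lf (nat_lit 1543782417) (dlOf (nat_lit 13) (nat_lit 0xd007c0344804014403e019fb02002401f00cfd0100240140060e4080218000011c2040138050007800200a6028003be010052014001de40802880a000ef00401240500077202002a01f003b40100360118012007c023003a0004005008800000000028008000800e400202820008170883))) 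
(.lf (nat_lit 1543782481) (dlOf (nat_lit 7) (nat_lit 0xc0000002b01000400000015008005807c0009a0400c003e0004602001201f0002281001d00f8001100800c0008014c00200c20008171003)))) 
(.nd (nat_lit 19) 
(.lf (nat_lit 5838749713) (dlOf (nat_lit 2) (nat_lit 0x100b8002404e0002a04000200281a0301))) 
(.lf (nat_lit 6377193489) (dlOf (nat_lit 6) (nat_lit 0x16090001c480808c048000e0a0403a4240006fb0201321200037c0100e4090001bdc08020000800a4002005e00080b0003))))))))) 
(.nd (nat_lit 18) (.nd (nat_lit 8) (.nd (nat_lit 19) (.nd (nat_lit 7) (.nd (nat_lit 6) 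
(.nd (nat_lit 20) (.nd (nat_lit 9) 
(.lf (nat_lit 25182257) (dlOf (nat_lit 5) (nat_lit 0xf2c0000003602047e0000001a01011a0000000b8080bb80000005a04000c00400240008be0e82))) 
(.lf (nat_lit 2147501617) (dlOf (nat_lit 2) (nat_lit 0x600000000018003780)))) (.nd (nat_lit 22) 
(.lf (nat_lit 470827057) (dlOf (nat_lit 1) (nat_lit 0x80080004002000200081c0703))) 
(.lf (nat_lit 13647921) (dlOf (nat_lit 2) (nat_lit 0xcc948002a4630002b028740680))))) 
(.nd (nat_lit 9) (.lf (nat_lit 38813809) (dlOf (nat_lit 1) (nat_lit 0x400200020009162482))) 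
(.nd (nat_lit 26) (.lf (nat_lit 5502944881) (dlOf (nat_lit 1) (nat_lit 0x20018003981))) 
(.lf (nat_lit 6106924657) (dlOf (nat_lit 1) (nat_lit 0x20028003981)))))) (.nd (nat_lit 9) 
(.nd (nat_lit 6) (.lf (nat_lit 1342201009) (dlOf (nat_lit 1) (nat_lit 0x8002800c201))) 
(.nd (nat_lit 11) 
(.lf (nat_lit 40911089) (dlOf (nat_lit 1) (nat_lit 0x17800800e0002003a0009201e83))) 
(.lf (nat_lit 536889585) (dlOf (nat_lit 1) (nat_lit 0xc00200020008004b82))))) (.nd (nat_lit 10) 
(.lf (nat_lit 1476416177) (dlOf (nat_lit 1) (nat_lit 0x20018008c81))) (.nd (nat_lit 12) 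
(.lf (nat_lit 2415937201) (dlOf (nat_lit 1) (nat_lit 0x1c0028003a81))) 
(.lf (nat_lit 19945137) (dlOf (nat_lit 1) (nat_lit 0x4002000200089da002))))))) (.nd (nat_lit 21) 
(.nd (nat_lit 29) (.nd (nat_lit 7) (.nd (nat_lit 20) 
(.lf (nat_lit 3624419377) (dlOf (nat_lit 1) (nat_lit 0x180080028002000c00081a0683))) 
(.lf (nat_lit 26755121) (dlOf (nat_lit 5) (nat_lit 0x18dcd0000be040005b1c000590201b2c0a0002901000a60500012c0800a8008005400200100008c70903)))) 
(.lf (nat_lit 34096305) (dlOf (nat_lit 1) (nat_lit 0x10008000800200140008fb2c03)))) 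
(.nd (nat_lit 26) 
(.lf (nat_lit 805847089) (dlOf (nat_lit 2) (nat_lit 0x22800b8032d80800380080028002001600081c0a03))) 
(.nd (nat_lit 27) 
(.lf (nat_lit 1678262321) (dlOf (nat_lit 2) (nat_lit 0x22800b801c240800380080028002001600081c0a03))) 
(.lf (nat_lit 2886221873) (dlOf (nat_lit 1) (nat_lit 0x180080028002000c00081a0683)))))) 
(.nd (nat_lit 10) (.nd (nat_lit 22) (.nd (nat_lit 26) 
(.lf (nat_lit 3492298801) (dlOf (nat_lit 10) (nat_lit 0x5bc22d0001b0102bd1168000d0081d588d000064040fe0468000300202ec234009e11680c2078c0005c0c0660468025822d02540fd016c878c02542b60442151000168600bd11a0000b0080e988d000056040ad04680002902005000280c0e81))) 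
(.lf (nat_lit 2754101297) (dlOf (nat_lit 7) (nat_lit 0x8930000640400044980003002003a24c00380fa8000b81001207d40005a04008849800821f5000158200051260000a40800180080024002002600080c0f83)))) 
(.lf (nat_lit 15220785) (dlOf (nat_lit 8) (nat_lit 0x4b00000006e040248000000360200300000001a8100800000000d008027e01800df008001e8e5000445b80021ee00008f52002c4100000e8700032000000100805480000000004001800400ec00087c0702)))) 
(.nd (nat_lit 6) (.lf (nat_lit 1881687217) (dlOf (nat_lit 1) (nat_lit 0x400200020008fe2c02))) 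
(.nd (nat_lit 9) 
(.lf (nat_lit 473449585) (dlOf (nat_lit 2) (nat_lit 0x2152000807b80080248000480c003c00400020018f52a02))) 
(.lf (nat_lit 52971121) (dlOf (nat_lit 1) (nat_lit 0x20029573981)))))))) (.nd (nat_lit 26) 
(.nd (nat_lit 10) (.nd (nat_lit 6) (.nd (nat_lit 7) (.nd (nat_lit 19) 
(.lf (nat_lit 1344291121) (dlOf (nat_lit 1) (nat_lit 0x80080004002000200086b0703))) 
(.lf (nat_lit 23609649) (dlOf (nat_lit 1) (nat_lit 0x1c00400020008b80502)))) (.nd (nat_lit 9) 
(.lf (nat_lit 3490204081) (dlOf (nat_lit 1) (nat_lit 0x400200020008004e82))) 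
(.lf (nat_lit 6442474417) (dlOf (nat_lit 1) (nat_lit 0xf48008094400203b8000800bd83))))) 
(.nd (nat_lit 7) 
(.lf (nat_lit 5771381105) (dlOf (nat_lit 1) (nat_lit 0x28008005c00200020008004e83))) 
(.nd (nat_lit 9) (.lf (nat_lit 536893937) (dlOf (nat_lit 1) (nat_lit 0x1b80020076000800b282))) 
(.lf (nat_lit 62931953) (dlOf (nat_lit 1) (nat_lit 0x4004000200099a2882)))))) (.nd (nat_lit 6) 
(.nd (nat_lit 7) (.nd (nat_lit 11) 
(.lf (nat_lit 3355465009) (dlOf (nat_lit 2) (nat_lit 0x1801800220014000000800e000400380018009882))) 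
(.lf (nat_lit 3489680689) (dlOf (nat_lit 2) (nat_lit 0x24080000070200020008006881)))) 
(.nd (nat_lit 9) (.lf (nat_lit 8406449) (dlOf (nat_lit 1) (nat_lit 0x400200020008513602))) 
(.lf (nat_lit 1476417457) (dlOf (nat_lit 1) (nat_lit 0xa000800a401))))) (.nd (nat_lit 9) 
(.nd (nat_lit 19) (.lf (nat_lit 2147501425) (dlOf (nat_lit 1) (nat_lit 0x20028003501))) 
(.lf (nat_lit 52970865) (dlOf (nat_lit 1) (nat_lit 0x4004000e0009573502)))) 
(.lf (nat_lit 8931185) (dlOf (nat_lit 1) (nat_lit 0x400400260008514082)))))) (.nd (nat_lit 6) 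
(.nd (nat_lit 7) (.nd (nat_lit 29) (.nd (nat_lit 28) 
(.lf (nat_lit 3288354097) (dlOf (nat_lit 1) (nat_lit 0x400400020008006882))) 
(.lf (nat_lit 2483047729) (dlOf (nat_lit 2) (nat_lit 0xe02c00013018006880)))) (.nd (nat_lit 9) 
(.lf (nat_lit 1946176817) (dlOf (nat_lit 1) (nat_lit 0xe4002005a0008006882))) 
(.lf (nat_lit 4227881777) (dlOf (nat_lit 1) (nat_lit 0x48008000c002000c000800bc83))))) 
(.nd (nat_lit 9) (.lf (nat_lit 4227882417) (dlOf (nat_lit 1) (nat_lit 0x40040008001800cc82))) 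
(.nd (nat_lit 10) 
(.lf (nat_lit 2885704625) (dlOf (nat_lit 3) (nat_lit 0x1018000100b8000405a000a0130004002800200080029e18000400000108020016002800bd81))) 
(.lf (nat_lit 3691009969) (dlOf (nat_lit 2) (nat_lit 0x201d0007a81800a400)))))) (.nd (nat_lit 10) 
(.nd (nat_lit 12) (.nd (nat_lit 20) 
(.lf (nat_lit 5301619057) (dlOf (nat_lit 1) (nat_lit 0x80008010c002005a0008004e83))) 
(.lf (nat_lit 2754627953) (dlOf (nat_lit 1) (nat_lit 0x6000800ac002000c00080f4e83)))) 
(.lf (nat_lit 469784945) (dlOf (nat_lit 1) (nat_lit 0x8c0020036000800ad02)))) (.nd (nat_lit 9) 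
(.nd (nat_lit 12) 
(.lf (nat_lit 5435835761) (dlOf (nat_lit 2) (nat_lit 0x1d00a0000ac080070008009400200500008003503))) 
(.lf (nat_lit 469783921) (dlOf (nat_lit 1) (nat_lit 0x400400020008009902)))) 
(.lf (nat_lit 3691007857) (dlOf (nat_lit 3) (nat_lit 0xc803a00a4002002001d0051c818007780)))))))) 
(.nd (nat_lit 28) (.nd (nat_lit 20) (.nd (nat_lit 26) (.nd (nat_lit 21) (.nd (nat_lit 6) 
(.nd (nat_lit 19) (.nd (nat_lit 7) (.nd (nat_lit 23) 
(.lf (nat_lit 671367217) (dlOf (nat_lit 7) (nat_lit 0x8b80a00004e040288050000260201ae02e006a0140000941004f00a00003a0401700500001a0201dc02800000018170c80))) 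
(.lf (nat_lit 25444401) (dlOf (nat_lit 2) (nat_lit 0x920000002b018c00680)))) 
(.lf (nat_lit 282289) (dlOf (nat_lit 1) (nat_lit 0x400400020008007282)))) (.nd (nat_lit 23) 
(.lf (nat_lit 4997169) (dlOf (nat_lit 1) (nat_lit 0x200082f0901))) 
(.lf (nat_lit 13385777) (dlOf (nat_lit 1) (nat_lit 0x8008000400200020008720f83))))) 
(.nd (nat_lit 7) (.lf (nat_lit 280433) (dlOf (nat_lit 1) (nat_lit 0x20028004081))) 
(.lf (nat_lit 1074020849) (dlOf (nat_lit 2) (nat_lit 0x7c01c0005f018090d80))))) (.nd (nat_lit 24) 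
(.nd (nat_lit 19) 
(.lf (nat_lit 44318769) (dlOf (nat_lit 2) (nat_lit 0x984c00008040018004000800092f0f82))) 
(.lf (nat_lit 2900017) (dlOf (nat_lit 2) (nat_lit 0x12c09a00760000002b0281d0680)))) 
(.nd (nat_lit 6) (.lf (nat_lit 19152945) (dlOf (nat_lit 1) (nat_lit 0x800400040008970002))) 
(.lf (nat_lit 23347697) (dlOf (nat_lit 1) (nat_lit 0x120018b80d81)))))) (.nd (nat_lit 9) 
(.nd (nat_lit 6) (.nd (nat_lit 19) 
(.lf (nat_lit 67387441) (dlOf (nat_lit 1) (nat_lit 0x3c002001200080f0482))) 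
(.lf (nat_lit 2754363441) (dlOf (nat_lit 6) (nat_lit 0x19c42000e01f600790d60033857c01b82ae000a152006709a8001583801f01ec000a20400040f60004e02002e07b0002581003503d8000e80800e000800c8002001c00080e0683)))) 
(.lf (nat_lit 2349088881) (dlOf (nat_lit 6) (nat_lit 0x300160023009400036080108056009a025000800980100000000161000ec04a0000a02004a0250000481004101280002008007000800e8002002200080a1583)))) 
(.nd (nat_lit 8) (.nd (nat_lit 27) 
(.lf (nat_lit 6509838897) (dlOf (nat_lit 1) (nat_lit 0x100080198002005e0008158003))) 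
(.lf (nat_lit 3959702065) (dlOf (nat_lit 1) (nat_lit 0x400400020018128b02)))) 
(.lf (nat_lit 2885961521) (dlOf (nat_lit 3) (nat_lit 0xb01b000080000003408002c06c0002034000c00000002c180028008000400200500008143d83)))))) 
(.nd (nat_lit 19) (.nd (nat_lit 9) (.nd (nat_lit 7) (.nd (nat_lit 23) 
(.lf (nat_lit 22298673) (dlOf (nat_lit 1) (nat_lit 0x400400020018ac0602))) 
(.lf (nat_lit 30687281) (dlOf (nat_lit 5) (nat_lit 0xe68d2000270200d94690000501006ea348000240803cd1a4000000401ac00200060008e40f02)))) 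
(.lf (nat_lit 9715889) (dlOf (nat_lit 1) (nat_lit 0x20018571601)))) (.nd (nat_lit 6) 
(.nd (nat_lit 8) (.lf (nat_lit 20205105) (dlOf (nat_lit 1) (nat_lit 0x1a00089d7181))) 
(.lf (nat_lit 20207409) (dlOf (nat_lit 4) (nat_lit 0x1d81000024020002c08000118100076040000880800200080004002000400089da103)))) 
(.lf (nat_lit 20204529) (dlOf (nat_lit 1) (nat_lit 0x200289d5f01))))) (.nd (nat_lit 6) 
(.nd (nat_lit 21) (.nd (nat_lit 24) 
(.lf (nat_lit 10240049) (dlOf (nat_lit 4) (nat_lit 0x562d10000b01000716880004c080100b4400024040050004001e00085c0c82))) 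
(.lf (nat_lit 27017265) (dlOf (nat_lit 2) (nat_lit 0x50000000d8080010008007c00200100008ca0703)))) 
(.lf (nat_lit 29114417) (dlOf (nat_lit 1) (nat_lit 0x400200020008dc0b82)))) (.nd (nat_lit 11) 
(.lf (nat_lit 1851889) (dlOf (nat_lit 2) (nat_lit 0x13900000017c04029c00200100008150d82))) 
(.lf (nat_lit 33311217) (dlOf (nat_lit 1) (nat_lit 0x1e60018f54f01))))))) (.nd (nat_lit 30) 
(.nd (nat_lit 26) (.nd (nat_lit 6) (.nd (nat_lit 7) (.nd (nat_lit 27) 
(.lf (nat_lit 805584945) (dlOf (nat_lit 1) (nat_lit 0x140028130701))) 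
(.lf (nat_lit 402931761) (dlOf (nat_lit 2) (nat_lit 0x1400d0011b8180b0480)))) 
(.lf (nat_lit 4563681457) (dlOf (nat_lit 2) (nat_lit 0x1400a800280480001a080034004000400080c1602)))) 
(.lf (nat_lit 2416198001) (dlOf (nat_lit 1) (nat_lit 0x640008090781)))) (.nd (nat_lit 6) 
(.nd (nat_lit 7) (.lf (nat_lit 335822897) (dlOf (nat_lit 2) (nat_lit 0x1400d0011b8180b0480))) 
(.nd (nat_lit 10) (.lf (nat_lit 5167661233) (dlOf (nat_lit 1) (nat_lit 0x2c002001000080f1602))) 
(.lf (nat_lit 473711793) (dlOf (nat_lit 1) (nat_lit 0x7c002000a0008fa2c02))))) (.nd (nat_lit 9) 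
(.lf (nat_lit 2483306609) (dlOf (nat_lit 6) (nat_lit 0x300170023009400036080108056009a025000800980100000000161000ec04a0000a02004a0250000481004101280002008007000800e8002002200080a1583))) 
(.lf (nat_lit 474236529) (dlOf (nat_lit 1) (nat_lit 0x1400290e3981)))))) (.nd (nat_lit 19) 
(.nd (nat_lit 7) (.nd (nat_lit 6) 
(.lf (nat_lit 1543782449) (dlOf (nat_lit 7) (nat_lit 0x8b80a00004c040288050000250201ae02e006a0140000901004f00a00003a0401700500001a0201dc02800000018170c80))) 
(.nd (nat_lit 8) (.lf (nat_lit 3493087345) (dlOf (nat_lit 1) (nat_lit 0x9c002000800080f4782))) 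
(.lf (nat_lit 1881426289) (dlOf (nat_lit 1) (nat_lit 0xa60008f04e81))))) (.nd (nat_lit 8) 
(.nd (nat_lit 10) 
(.lf (nat_lit 6241403057) (dlOf (nat_lit 1) (nat_lit 0x100080004002000200080e2d83))) 
(.lf (nat_lit 3489946801) (dlOf (nat_lit 1) (nat_lit 0x70008000c0020002000800c203)))) 
(.lf (nat_lit 3494134193) (dlOf (nat_lit 1) (nat_lit 0x800181b0781))))) (.nd (nat_lit 20) 
(.nd (nat_lit 21) 
(.lf (nat_lit 1342980145) (dlOf (nat_lit 5) (nat_lit 0xf20000001b01005a0000000d00804708c001b444e011c20b000170300c21180061082c0005a080014004001a0008120e82))) 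
(.lf (nat_lit 3492560945) (dlOf (nat_lit 6) (nat_lit 0x1e448e00ce1fb00700f200028570019c2b400dc152006709a8001583801f01f4000a20400040fa0004e02002e07d0002581003503e8000e80800e000800c8002001c00080e0683)))) 
(.nd (nat_lit 26) 
(.lf (nat_lit 5773213745) (dlOf (nat_lit 12) (nat_lit 0xe01310011c0101b709f00e804c40046e0805c826200235020194131001150100520988008a4080a804f80610262002280402f2131001118100750988008880805004c40040e040120262001ee02012213e00990988007b4100040008018c002000400080b0483))) 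
(.lf (nat_lit 6377193521) (dlOf (nat_lit 12) (nat_lit 0xe01220011c0101b709880e804880046e0805c824400235020194122001150100520910008a4080a804c40610244002280402f21220010f81007509100087808050048800412040120244001ee02012213100990910007b4100040008018c002000400080b0483)))))))))) 
(.nd (nat_lit 5) (.nd (nat_lit 6) (.nd (nat_lit 18) (.nd (nat_lit 19) (.nd (nat_lit 30) 
(.nd (nat_lit 20) (.nd (nat_lit 10) (.nd (nat_lit 21) (.nd (nat_lit 22) 
(.lf (nat_lit 5167530001) (dlOf (nat_lit 2) (nat_lit 0x805c0000004000400400060018080002))) 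
(.lf (nat_lit 12730385) (dlOf (nat_lit 1) (nat_lit 0x1d000186e0581)))) 
(.lf (nat_lit 27410449) (dlOf (nat_lit 1) (nat_lit 0x40008001800200160008ce0203)))) 
(.nd (nat_lit 7) 
(.lf (nat_lit 671237905) (dlOf (nat_lit 2) (nat_lit 0x1004a0001d0200020028143c01))) 
(.lf (nat_lit 48383121) (dlOf (nat_lit 3) (nat_lit 0x2384800224080091d040011004002400400080009402b82))))) 
(.nd (nat_lit 9) (.nd (nat_lit 21) 
(.lf (nat_lit 22167569) (dlOf (nat_lit 1) (nat_lit 0x4004000e0008aa0a02))) 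
(.lf (nat_lit 24264721) (dlOf (nat_lit 1) (nat_lit 0xc00200020008b90682)))) (.nd (nat_lit 10) 
(.lf (nat_lit 9585169) (dlOf (nat_lit 1) (nat_lit 0x20028578401))) 
(.lf (nat_lit 20076049) (dlOf (nat_lit 1) (nat_lit 0xb0002000800089d9c02)))))) (.nd (nat_lit 7) 
(.nd (nat_lit 11) (.nd (nat_lit 8) (.nd (nat_lit 26) 
(.lf (nat_lit 4026679313) (dlOf (nat_lit 1) (nat_lit 0x2800400060018030882))) 
(.lf (nat_lit 3288481809) (dlOf (nat_lit 1) (nat_lit 0x2800400060018030882)))) 
(.lf (nat_lit 1880245521) (dlOf (nat_lit 1) (nat_lit 0x400200020008803002)))) (.nd (nat_lit 8) 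
(.nd (nat_lit 12) (.lf (nat_lit 5972838417) (dlOf (nat_lit 1) (nat_lit 0x60018144701))) 
(.lf (nat_lit 3959576593) (dlOf (nat_lit 2) (nat_lit 0xb01780153408009000802dc0020016000811a603)))) 
(.lf (nat_lit 6241274641) (dlOf (nat_lit 1) (nat_lit 0x600180d5b81))))) (.nd (nat_lit 10) 
(.nd (nat_lit 11) 
(.lf (nat_lit 3491905681) (dlOf (nat_lit 1) (nat_lit 0x300080014002000c0008090183))) 
(.lf (nat_lit 5905729681) (dlOf (nat_lit 1) (nat_lit 0x400400020008144802)))) (.nd (nat_lit 8) 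
(.lf (nat_lit 3221380241) (dlOf (nat_lit 1) (nat_lit 0x1c0040008001811c202))) 
(.lf (nat_lit 3221376401) (dlOf (nat_lit 3) (nat_lit 0x240a20004302003605100020818116d00))))))) 
(.nd (nat_lit 26) (.nd (nat_lit 20) (.nd (nat_lit 31) (.nd (nat_lit 7) (.nd (nat_lit 27) 
(.lf (nat_lit 1342849041) (dlOf (nat_lit 2) (nat_lit 0x7111800000080008008005c002003a00080f0203))) 
(.lf (nat_lit 134889489) (dlOf (nat_lit 3) (nat_lit 0x1f2041001301e800500c00348a0c03dc082003c03d000a01800690c1805f8008016c00200ba00080d0883)))) 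
(.lf (nat_lit 678033) (dlOf (nat_lit 1) (nat_lit 0x1e002800a881)))) (.nd (nat_lit 21) 
(.nd (nat_lit 27) 
(.lf (nat_lit 3221897233) (dlOf (nat_lit 2) (nat_lit 0x401c0003502002e00281b0101))) 
(.lf (nat_lit 3892985873) (dlOf (nat_lit 1) (nat_lit 0x100080004002000400082c0303)))) 
(.lf (nat_lit 3492429841) (dlOf (nat_lit 3) (nat_lit 0x3c03c01a4502002801e00d218180d0880))))) 
(.nd (nat_lit 21) (.nd (nat_lit 22) 
(.lf (nat_lit 10108945) (dlOf (nat_lit 1) (nat_lit 0x200285b0481))) 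
(.lf (nat_lit 31080465) (dlOf (nat_lit 1) (nat_lit 0x1c0028e70301)))) (.nd (nat_lit 22) 
(.lf (nat_lit 3817489) (dlOf (nat_lit 2) (nat_lit 0x60000001a818230200))) 
(.lf (nat_lit 24789009) (dlOf (nat_lit 2) (nat_lit 0x36910003b448000d01000a00080060002001a0008bb0203)))))) 
(.nd (nat_lit 29) (.nd (nat_lit 27) 
(.lf (nat_lit 67780625) (dlOf (nat_lit 1) (nat_lit 0x200182e0781))) (.nd (nat_lit 28) 
(.lf (nat_lit 201998353) (dlOf (nat_lit 3) (nat_lit 0x1f2041001301e800500c003b540c03dc082003c03d000a0180076a01805f8008016c00200ba00080d0883))) 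
(.lf (nat_lit 470433809) (dlOf (nat_lit 1) (nat_lit 0x800280f0181))))) (.nd (nat_lit 21) 
(.nd (nat_lit 28) 
(.lf (nat_lit 3960094737) (dlOf (nat_lit 2) (nat_lit 0x401c0003502002e00281b0101))) 
(.lf (nat_lit 3154788369) (dlOf (nat_lit 3) (nat_lit 0x138058007e9020090018003a0818320780)))) 
(.lf (nat_lit 2754232337) (dlOf (nat_lit 3) (nat_lit 0x3c03c01daa02002801e00ed40180d0880))))))) 
(.nd (nat_lit 7) (.nd (nat_lit 26) (.nd (nat_lit 8) (.nd (nat_lit 22) (.nd (nat_lit 10) 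
(.nd (nat_lit 27) 
(.lf (nat_lit 537280529) (dlOf (nat_lit 4) (nat_lit 0x31a054014b022800b4410049815c03200980026b04000804b001701800000010012000801ac00200280008070503))) 
(.lf (nat_lit 2818981905) (dlOf (nat_lit 1) (nat_lit 0x3c00400580008140302)))) 
(.lf (nat_lit 5771774993) (dlOf (nat_lit 1) (nat_lit 0x400200020008005f82)))) (.nd (nat_lit 19) 
(.lf (nat_lit 1346781201) (dlOf (nat_lit 1) (nat_lit 0x1400400020009000002))) 
(.lf (nat_lit 13516817) (dlOf (nat_lit 2) (nat_lit 0x60d3801d9e0200020018730881))))) 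
(.nd (nat_lit 9) (.lf (nat_lit 20857105) (dlOf (nat_lit 1) (nat_lit 0x4002000200089e4a02))) 
(.nd (nat_lit 19) (.lf (nat_lit 8800017) (dlOf (nat_lit 1) (nat_lit 0xf0008004c00200160008513c03))) 
(.lf (nat_lit 3492693777) (dlOf (nat_lit 1) (nat_lit 0x4002000200080f3c02)))))) (.nd (nat_lit 28) 
(.nd (nat_lit 9) (.nd (nat_lit 10) (.nd (nat_lit 22) 
(.lf (nat_lit 3959832593) (dlOf (nat_lit 4) (nat_lit 0x1021801f4008000810c00f9a040004086007cb0200040018170001))) 
(.lf (nat_lit 2756067345) (dlOf (nat_lit 2) (nat_lit 0x30250000000802200080098002008000081e0203)))) 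
(.lf (nat_lit 604392465) (dlOf (nat_lit 1) (nat_lit 0x80028205f81)))) 
(.lf (nat_lit 2752397841) (dlOf (nat_lit 8) (nat_lit 0x438920002c48c004bc0400022480025d8100a7124001389180097408020c490004b10200f82480025801006112400129c0801989200094a04006c00200200008018402)))) 
(.nd (nat_lit 27) (.nd (nat_lit 29) 
(.lf (nat_lit 1409695761) (dlOf (nat_lit 4) (nat_lit 0x31a054014b021000d4410049815c03200980027904000804b001701800000010012000801ac00200280008070503))) 
(.lf (nat_lit 1946566673) (dlOf (nat_lit 1) (nat_lit 0x400180c0901)))) (.nd (nat_lit 29) 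
(.lf (nat_lit 5838880785) (dlOf (nat_lit 1) (nat_lit 0x4002003e00081e0202))) 
(.lf (nat_lit 3154526225) (dlOf (nat_lit 10) (nat_lit 0x60040031f8100030020018f00800481680008008006390400060040031b0100030020018b40800100b000c4a0400080580062202000402c0030d8100020160018480801b800801f000200e400081f0483))))))) 
(.nd (nat_lit 8) (.nd (nat_lit 19) (.nd (nat_lit 10) (.nd (nat_lit 26) 
(.lf (nat_lit 1611022481) (dlOf (nat_lit 1) (nat_lit 0xf80080004002002e00080c1083))) 
(.lf (nat_lit 738607249) (dlOf (nat_lit 1) (nat_lit 0xf80080004002002e00080c1083)))) 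
(.lf (nat_lit 45499537) (dlOf (nat_lit 1) (nat_lit 0xa0029322b81)))) (.nd (nat_lit 10) 
(.nd (nat_lit 11) (.lf (nat_lit 7225489) (dlOf (nat_lit 1) (nat_lit 0x4004000200084b0482))) 
(.lf (nat_lit 3492694161) (dlOf (nat_lit 2) (nat_lit 0x2e040000110180f4800)))) 
(.lf (nat_lit 41829521) (dlOf (nat_lit 1) (nat_lit 0x1d8008000400200020009242b83))))) 
(.nd (nat_lit 10) (.nd (nat_lit 19) 
(.lf (nat_lit 8798609) (dlOf (nat_lit 1) (nat_lit 0x400200020008511002))) (.nd (nat_lit 21) 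
(.lf (nat_lit 43925905) (dlOf (nat_lit 1) (nat_lit 0x34004000200092a1002))) 
(.lf (nat_lit 1346257297) (dlOf (nat_lit 1) (nat_lit 0x3800200140008e81002))))) (.nd (nat_lit 9) 
(.lf (nat_lit 19813777) (dlOf (nat_lit 1) (nat_lit 0xc004000200089d9902))) 
(.lf (nat_lit 8804241) (dlOf (nat_lit 1) (nat_lit 0x1800800040020002000851a303)))))))) 
(.nd (nat_lit 8) (.nd (nat_lit 26) (.nd (nat_lit 30) (.nd (nat_lit 19) (.nd (nat_lit 24) 
(.nd (nat_lit 31) 
(.lf (nat_lit 268582993) (dlOf (nat_lit 1) (nat_lit 0xc0008003000200200008090503))) 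
(.lf (nat_lit 6711033937) (dlOf (nat_lit 1) (nat_lit 0x400400060008040502)))) (.nd (nat_lit 21) 
(.lf (nat_lit 25313361) (dlOf (nat_lit 7) (nat_lit 0x3a7222013786b00e0ad100053ff8008c000000340a01c15a200019810001ad20000c8080876454040b0de0001f0402239150103c3780007810087e45403fb0de0001d0400d80018bf0d81))) 
(.lf (nat_lit 52576337) (dlOf (nat_lit 1) (nat_lit 0xa4002001a0009550702))))) (.nd (nat_lit 18) 
(.lf (nat_lit 134889553) (dlOf (nat_lit 3) (nat_lit 0x1c0180000a40800300c00004e040004002001000080d0d82))) 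
(.lf (nat_lit 42877009) (dlOf (nat_lit 1) (nat_lit 0x8008000400200020009280703))))) 
(.nd (nat_lit 28) (.nd (nat_lit 18) (.nd (nat_lit 27) 
(.lf (nat_lit 5368856657) (dlOf (nat_lit 5) (nat_lit 0x2e01300040080001a01001d004c000ca0401b402a002201400a0009800700440210020002600e00760028001843802a005400480260036010003b0028001802002f8008015c00200580008040503))) 
(.lf (nat_lit 5503074385) (dlOf (nat_lit 5) (nat_lit 0xda015001100a0050004c003802201080100013007003b0014000d41c015002a0024013001b008001d8014000d210005c02600080100003282003a0098001880802f8008015c00200580008040503)))) 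
(.lf (nat_lit 1074151505) (dlOf (nat_lit 3) (nat_lit 0x7000000031020032000000178180c1900)))) 
(.nd (nat_lit 9) (.nd (nat_lit 18) 
(.lf (nat_lit 1344946257) (dlOf (nat_lit 1) (nat_lit 0x1400289a0701))) 
(.lf (nat_lit 4026941521) (dlOf (nat_lit 5) (nat_lit 0x3802b004f0120012803400140000003408005602400370068000cc1000e009000040000003204002003200010120000c41005380080c3c002000600080d0d83)))) 
(.lf (nat_lit 1345997393) (dlOf (nat_lit 1) (nat_lit 0xb00008e25281)))))) (.nd (nat_lit 19) 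
(.nd (nat_lit 18) (.nd (nat_lit 27) (.nd (nat_lit 28) 
(.lf (nat_lit 604127313) (dlOf (nat_lit 2) (nat_lit 0x11c02600011018030700))) 
(.lf (nat_lit 5167530065) (dlOf (nat_lit 5) (nat_lit 0x200a0001403400068040002028000f00d0001941002d80a001740340005e040006028000300d000174100048008005c00200040008080503)))) 
(.lf (nat_lit 6107054161) (dlOf (nat_lit 1) (nat_lit 0x400400060008040502)))) (.nd (nat_lit 27) 
(.lf (nat_lit 3288744017) (dlOf (nat_lit 5) (nat_lit 0x3802b004f0120012803400140000003408005602400370068000cc1000e009000040000003204002003200010120000c41005380080c3c002000600080d0d83))) 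
(.lf (nat_lit 2080784465) (dlOf (nat_lit 1) (nat_lit 0x2000180d1701))))) (.nd (nat_lit 21) 
(.nd (nat_lit 27) (.nd (nat_lit 29) 
(.lf (nat_lit 4362747985) (dlOf (nat_lit 4) (nat_lit 0x900640002a0201540330000981001e0198000340800e80080004002000e00080f1903))) 
(.lf (nat_lit 1678393425) (dlOf (nat_lit 3) (nat_lit 0x15004b013001c0000a81004501580002604002000400660008201902)))) 
(.lf (nat_lit 201998417) (dlOf (nat_lit 3) (nat_lit 0x1c0180000a40800300c00004e040004002001000080d0d82)))) 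
(.nd (nat_lit 7) (.lf (nat_lit 1009404497) (dlOf (nat_lit 1) (nat_lit 0x800400040009165282))) 
(.lf (nat_lit 2755543249) (dlOf (nat_lit 1) (nat_lit 0x4004000200081b0482))))))) (.nd (nat_lit 11) 
(.nd (nat_lit 7) (.nd (nat_lit 18) (.nd (nat_lit 19) 
(.lf (nat_lit 4362223953) (dlOf (nat_lit 1) (nat_lit 0x140018014d81))) (.nd (nat_lit 20) 
(.lf (nat_lit 23740753) (dlOf (nat_lit 1) (nat_lit 0x400200020008b80682))) 
(.lf (nat_lit 2755281233) (dlOf (nat_lit 1) (nat_lit 0x6c0018158201))))) (.nd (nat_lit 9) 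
(.nd (nat_lit 26) 
(.lf (nat_lit 3490595153) (dlOf (nat_lit 5) (nat_lit 0x7083d00006402041a1e8000308100380fe810807a0000800800c43fa042a1e800010af8000fc180620008042400205f00008014d03))) 
(.lf (nat_lit 2752397649) (dlOf (nat_lit 2) (nat_lit 0x7d848e000280200100008014d81)))) 
(.lf (nat_lit 19809105) (dlOf (nat_lit 1) (nat_lit 0x14004000e00189d2482))))) (.nd (nat_lit 18) 
(.nd (nat_lit 9) (.lf (nat_lit 473579985) (dlOf (nat_lit 1) (nat_lit 0x400008f67b01))) 
(.lf (nat_lit 2751616977) (dlOf (nat_lit 1) (nat_lit 0x2002800a601)))) (.nd (nat_lit 22) 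
(.nd (nat_lit 27) 
(.lf (nat_lit 4362486225) (dlOf (nat_lit 6) (nat_lit 0x56047003b01680008010019011c002805a0001f040026053004e023800100b40003a0c00f008e0001c020078047000a01680006c10006800800e800200880008090a03))) 
(.lf (nat_lit 4228268497) (dlOf (nat_lit 6) (nat_lit 0x56040003b01600008010019010000280580001f04002604c004e020000100b00003a0c00f00800001c020078040000a01600006c10006800800e800200880008090a03)))) 
(.lf (nat_lit 21381585) (dlOf (nat_lit 1) (nat_lit 0x194004007e0008a37102)))))) (.nd (nat_lit 30) 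
(.nd (nat_lit 7) (.nd (nat_lit 9) (.nd (nat_lit 26) 
(.lf (nat_lit 6442600785) (dlOf (nat_lit 1) (nat_lit 0xa00180f4e01))) 
(.lf (nat_lit 201476433) (dlOf (nat_lit 1) (nat_lit 0x20028004e01)))) 
(.lf (nat_lit 59919185) (dlOf (nat_lit 1) (nat_lit 0x20019845c01)))) (.nd (nat_lit 9) 
(.lf (nat_lit 54675921) (dlOf (nat_lit 1) (nat_lit 0x60019654e81))) 
(.lf (nat_lit 20073425) (dlOf (nat_lit 1) (nat_lit 0x74004001e00089d5d82))))) (.nd (nat_lit 18) 
(.nd (nat_lit 12) 
(.lf (nat_lit 1543654737) (dlOf (nat_lit 4) (nat_lit 0x60230018010000700740048030000600500040000000543000a8080002003a0034018001300280004c20001808c0014040001801d000400c000a00140000a140920002000e0008146a02))) 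
(.lf (nat_lit 3221380433) (dlOf (nat_lit 2) (nat_lit 0x202f002f601811c900)))) (.nd (nat_lit 10) 
(.lf (nat_lit 3492694353) (dlOf (nat_lit 1) (nat_lit 0x200080f4e01))) 
(.lf (nat_lit 3490073937) (dlOf (nat_lit 4) (nat_lit 0x16035c000260400281160001002000608b00007018006a00))))))))) 
(.nd (nat_lit 18) (.nd (nat_lit 7) (.nd (nat_lit 27) (.nd (nat_lit 8) (.nd (nat_lit 28) 
(.nd (nat_lit 19) (.nd (nat_lit 6) 
(.lf (nat_lit 5368856625) (dlOf (nat_lit 3) (nat_lit 0x96015002300a000c804400c001c00840050001585002a00a800000080190008015000200300008040383))) 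
(.lf (nat_lit 24264817) (dlOf (nat_lit 2) (nat_lit 0xee0a00001a0200020018b91581)))) 
(.nd (nat_lit 21) (.nd (nat_lit 26) 
(.lf (nat_lit 3221897265) (dlOf (nat_lit 8) (nat_lit 0x176c0700796016028c000000158180bf010c018808006ae038003700b0001542000f010c08dc07000054040d98046017802180358100000a60c193408c0244043003d020015800e0000a410009c0a8000a045001601700004c182d9011800f40800000004002000181b0681))) 
(.lf (nat_lit 67780657) (dlOf (nat_lit 2) (nat_lit 0x48151002c0a580004c1000b80080030002001000082e0f03)))) 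
(.lf (nat_lit 15351857) (dlOf (nat_lit 2) (nat_lit 0x5ca8a0001c02000400287e0701))))) 
(.nd (nat_lit 29) (.nd (nat_lit 9) 
(.lf (nat_lit 1343373361) (dlOf (nat_lit 1) (nat_lit 0x60028210a01))) 
(.lf (nat_lit 4563552817) (dlOf (nat_lit 1) (nat_lit 0x3000400040008095182)))) (.nd (nat_lit 26) 
(.lf (nat_lit 2952937521) (dlOf (nat_lit 1) (nat_lit 0x400200040008030482))) 
(.lf (nat_lit 5167530033) (dlOf (nat_lit 5) (nat_lit 0x601400060064000500800200500002702000c02800012810007014000090080058008006800200200008080383)))))) 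
(.nd (nat_lit 6) (.nd (nat_lit 9) (.nd (nat_lit 20) 
(.lf (nat_lit 805457201) (dlOf (nat_lit 1) (nat_lit 0xf40028116881))) 
(.lf (nat_lit 20073777) (dlOf (nat_lit 1) (nat_lit 0x5c00289d6881)))) 
(.lf (nat_lit 3221379889) (dlOf (nat_lit 2) (nat_lit 0x8017802bf40800780080094002004c000811bc83)))) 
(.nd (nat_lit 9) (.nd (nat_lit 23) 
(.lf (nat_lit 2753708401) (dlOf (nat_lit 1) (nat_lit 0x8008014000200fa0008090783))) 
(.lf (nat_lit 44188017) (dlOf (nat_lit 1) (nat_lit 0x200192d5801)))) (.nd (nat_lit 20) 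
(.lf (nat_lit 6442600305) (dlOf (nat_lit 1) (nat_lit 0xa00180f4081))) 
(.lf (nat_lit 3492956017) (dlOf (nat_lit 1) (nat_lit 0x4002000200080f4082))))))) (.nd (nat_lit 29) 
(.nd (nat_lit 9) (.nd (nat_lit 19) 
(.lf (nat_lit 5503074353) (dlOf (nat_lit 3) (nat_lit 0x96015002300a000c804400c001c00840050001a05002a00a800000080190008015000200300008040383))) 
(.nd (nat_lit 26) 
(.lf (nat_lit 134889521) (dlOf (nat_lit 2) (nat_lit 0x380c000034040060004000200080d0b02))) 
(.lf (nat_lit 201998385) (dlOf (nat_lit 2) (nat_lit 0x380c000034040060004000200080d0b02))))) 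
(.nd (nat_lit 6) (.nd (nat_lit 8) 
(.lf (nat_lit 2617393713) (dlOf (nat_lit 1) (nat_lit 0x200180a1481))) 
(.lf (nat_lit 2617398065) (dlOf (nat_lit 1) (nat_lit 0x200180a8f81)))) 
(.lf (nat_lit 201475953) (dlOf (nat_lit 1) (nat_lit 0x20028004081))))) (.nd (nat_lit 19) 
(.nd (nat_lit 8) (.nd (nat_lit 26) 
(.lf (nat_lit 4966203441) (dlOf (nat_lit 1) (nat_lit 0x360018040381))) 
(.lf (nat_lit 5033312305) (dlOf (nat_lit 1) (nat_lit 0x360018040381)))) 
(.lf (nat_lit 671237937) (dlOf (nat_lit 4) (nat_lit 0x202500050110006804c000380c00180560014025000a009800080000003410002c04a0014022000e00980002c1800d80080020002005a0008143d83)))) 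
(.nd (nat_lit 28) 
(.lf (nat_lit 3960094769) (dlOf (nat_lit 8) (nat_lit 0x176c0700796016028c000000158180bf010c018808006ae038003700b0001542000f010c08dc07000054040d98046017802180358100000a60c193408c0244043003d020015800e0000a410009c0a8000a045001601700004c182d9011800f40800000004002000181b0681))) 
(.nd (nat_lit 30) 
(.lf (nat_lit 3154788401) (dlOf (nat_lit 11) (nat_lit 0x22702d00848154073805e000602c01e600a0105800c0004e1806e805800bc02b0001182003c016000088080fd8190095c0c003e205a023802a801b013408d0068002602c0236014012e0050076c0060000a14047806401ee03001118168083c0aa002a04d020e01a010500a007f0028042000300004890009032008b816803540aa01ac034004a017000180b0018c0500052014003f001800020480e88168021005e03780030000303022e02d00e480bc08540060000506009805a008d01600000810118019008240b40086059017502a800500d0070005e010802e0015016002400ac061c05003d401402040018000006000c8008003400200060008320f03))) 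
(.lf (nat_lit 4228530225) (dlOf (nat_lit 1) (nat_lit 0x80080004002000200080f0e83)))))))) 
(.nd (nat_lit 10) (.nd (nat_lit 20) (.nd (nat_lit 27) (.nd (nat_lit 11) 
(.lf (nat_lit 4899094705) (dlOf (nat_lit 1) (nat_lit 0x40028071601))) 
(.lf (nat_lit 1677871281) (dlOf (nat_lit 1) (nat_lit 0x400400020008114902)))) (.nd (nat_lit 26) 
(.lf (nat_lit 3624026289) (dlOf (nat_lit 1) (nat_lit 0xbc00280b0301))) 
(.lf (nat_lit 2885828785) (dlOf (nat_lit 1) (nat_lit 0xbc00280b0301))))) (.nd (nat_lit 6) 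
(.nd (nat_lit 8) (.nd (nat_lit 9) 
(.lf (nat_lit 9584817) (dlOf (nat_lit 2) (nat_lit 0x1da430002d208000e8fc000640c006800400060018571602))) 
(.lf (nat_lit 20075185) (dlOf (nat_lit 1) (nat_lit 0x80080004002000200089d8c83)))) 
(.lf (nat_lit 39471537) (dlOf (nat_lit 1) (nat_lit 0x8008000400200020009194e83)))) 
(.nd (nat_lit 21) (.lf (nat_lit 1343897841) (dlOf (nat_lit 1) (nat_lit 0x40028370601))) 
(.lf (nat_lit 3493478641) (dlOf (nat_lit 1) (nat_lit 0x1120018157181)))))) (.nd (nat_lit 8) 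
(.nd (nat_lit 20) (.nd (nat_lit 11) 
(.lf (nat_lit 32130225) (dlOf (nat_lit 2) (nat_lit 0x84ae00025818ef2c00))) 
(.lf (nat_lit 3490335921) (dlOf (nat_lit 1) (nat_lit 0x20018006281)))) (.nd (nat_lit 24) 
(.lf (nat_lit 41567409) (dlOf (nat_lit 2) (nat_lit 0x5e00000029019242c00))) 
(.lf (nat_lit 58344625) (dlOf (nat_lit 9) (nat_lit 0x4333000b199400f4b28000e5930002e04000e33e800499f00064ccc003666500372ca0012164c00309cc0005a0e021467e000833380019994008cb2a000520800e467e000633e0004199c0078b2a0004b08000c66400062c90000901000299ec0064cc80042592000a1f88000882000319ec0040cc8000e59200062728003934c001c7e2000210c0026664000a2c900007c10088800800bc002014000097e2c03))))) 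
(.nd (nat_lit 11) (.nd (nat_lit 23) 
(.lf (nat_lit 4697769393) (dlOf (nat_lit 1) (nat_lit 0x60008093601))) 
(.lf (nat_lit 8537521) (dlOf (nat_lit 1) (nat_lit 0x400200020008513602)))) 
(.lf (nat_lit 3221380529) (dlOf (nat_lit 2) (nat_lit 0x2c02f0001f81811cc80))))))) (.nd (nat_lit 6) 
(.nd (nat_lit 28) (.nd (nat_lit 19) (.nd (nat_lit 29) (.nd (nat_lit 8) (.nd (nat_lit 22) 
(.lf (nat_lit 1074151473) (dlOf (nat_lit 2) (nat_lit 0x80148009000000064080068002003800080c0f82))) 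
(.lf (nat_lit 54935601) (dlOf (nat_lit 3) (nat_lit 0x2800000382040240000001bd02000a0019670481)))) 
(.lf (nat_lit 23478577) (dlOf (nat_lit 1) (nat_lit 0x8008000400200020008b80503)))) (.nd (nat_lit 7) 
(.lf (nat_lit 1678131505) (dlOf (nat_lit 1) (nat_lit 0x200281a0501))) (.nd (nat_lit 26) 
(.lf (nat_lit 1611022513) (dlOf (nat_lit 2) (nat_lit 0x180000000002002e00080c1601))) 
(.lf (nat_lit 738607281) (dlOf (nat_lit 2) (nat_lit 0xe052000201a0000881000180080010002000600080c1603)))))) 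
(.nd (nat_lit 21) (.nd (nat_lit 7) 
(.lf (nat_lit 2819506225) (dlOf (nat_lit 1) (nat_lit 0x200182c0001))) 
(.lf (nat_lit 31343793) (dlOf (nat_lit 1) (nat_lit 0x3e0028e92c01)))) (.nd (nat_lit 22) 
(.lf (nat_lit 4079665) (dlOf (nat_lit 2) (nat_lit 0x8426f802d9328007007e000560600080008280681))) 
(.lf (nat_lit 25051185) (dlOf (nat_lit 2) (nat_lit 0x4080000005a04000800200040008be0e82)))))) 
(.nd (nat_lit 29) (.nd (nat_lit 26) (.nd (nat_lit 7) 
(.lf (nat_lit 5637554225) (dlOf (nat_lit 2) (nat_lit 0x202500017018100380))) 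
(.lf (nat_lit 2416331953) (dlOf (nat_lit 1) (nat_lit 0x4004000200080f6282)))) (.nd (nat_lit 19) 
(.lf (nat_lit 1409695793) (dlOf (nat_lit 18) (nat_lit 0x228816000040ae04f8051038d01f81b280c804c800e0002b0c05d6058000502b8000a01002201600004e0400ec0ba000260205e607200a2034832701741aec0b00494057061802a000a8128180408401a8032027d017001a80ac003004a001401c0010000800e00000004a3c06f40b0000240205cc0580001101010b02c0000840803301600004004145c0ba0a8e0580000e82015302c0000700802181600002e040d0c0b004f005100b301e012480c80002a10006009c016403c0000a02008602880001408064016007e80a202740320000103000803a0000000802a8008033c00200020008070903))) 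
(.lf (nat_lit 3557703729) (dlOf (nat_lit 1) (nat_lit 0x200182c0001))))) (.nd (nat_lit 27) 
(.nd (nat_lit 8) (.nd (nat_lit 32) 
(.lf (nat_lit 1946566705) (dlOf (nat_lit 5) (nat_lit 0x6b2029000190102a00148000c00801400a4000804c0002e040136029000168180c0e80))) 
(.lf (nat_lit 6241534001) (dlOf (nat_lit 2) (nat_lit 0x202600018818100380)))) 
(.lf (nat_lit 805716273) (dlOf (nat_lit 1) (nat_lit 0x200281a0501)))) (.nd (nat_lit 9) 
(.lf (nat_lit 3154526257) (dlOf (nat_lit 12) (nat_lit 0x8e40b4008c02f0201001800104180da016806100060003e0404c205a00640178112000c0007a0c00f00b400140030001d82013d032007081800aa80b4019e059012102a8027815000840a4011204d013301a004a00bc036805001a801400870030131800c0006e3805500c801e0060028202d0071016403f80aa00640540084026808880d0023405e01d402800e100a0126800c0006c30010c0b400460540001a02003b02a00008808015015001680580000404006e0540000181010b03200490188099c0b4017005900c002a80008148021808a000e04200c801a003280bc062805c010e02c00ac0140019009808940060310002009b0000000008814980080204002001e00081f0703)))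 
(.lf (nat_lit 6375753265) (dlOf (nat_lit 1) (nat_lit 0xe0028003781))))))) (.nd (nat_lit 19) 
(.nd (nat_lit 21) (.nd (nat_lit 32) (.nd (nat_lit 7) 
(.lf (nat_lit 8799601) (dlOf (nat_lit 1) (nat_lit 0xc004000c0018513502))) 
(.lf (nat_lit 1346781425) (dlOf (nat_lit 1) (nat_lit 0x1400400020009001e82)))) (.nd (nat_lit 26) 
(.lf (nat_lit 5637554289) (dlOf (nat_lit 2) (nat_lit 0x580940040a04003c00200300008100d82))) 
(.lf (nat_lit 6241534065) (dlOf (nat_lit 2) (nat_lit 0x580980040804003c00200300008100d82))))) 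
(.nd (nat_lit 24) (.nd (nat_lit 26) 
(.lf (nat_lit 3492167793) (dlOf (nat_lit 5) (nat_lit 0x1c3320001b02001608a000b03e0000641000601f00003004014c0f80000a02000400280a1581))) 
(.lf (nat_lit 2753970289) (dlOf (nat_lit 5) (nat_lit 0x1c31a0001b020016087000b03d0000641000601e80003004014c0f40000a02000400280a1581)))) 
(.nd (nat_lit 7) (.lf (nat_lit 19284081) (dlOf (nat_lit 1) (nat_lit 0x400200020008970482))) 
(.lf (nat_lit 19284209) (dlOf (nat_lit 1) (nat_lit 0x400200020008970602)))))) (.nd (nat_lit 7) 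
(.nd (nat_lit 8) (.nd (nat_lit 9) 
(.lf (nat_lit 6376276081) (dlOf (nat_lit 1) (nat_lit 0x60008090181))) (.nd (nat_lit 10) 
(.lf (nat_lit 19808881) (dlOf (nat_lit 1) (nat_lit 0x200289d1881))) 
(.lf (nat_lit 61752945) (dlOf (nat_lit 1) (nat_lit 0x1e0019923981))))) (.nd (nat_lit 10) 
(.lf (nat_lit 19811185) (dlOf (nat_lit 1) (nat_lit 0x200289d5c01))) 
(.lf (nat_lit 3492693873) (dlOf (nat_lit 1) (nat_lit 0x200080f4081))))) (.nd (nat_lit 8) 
(.nd (nat_lit 10) (.lf (nat_lit 6177009) (dlOf (nat_lit 1) (nat_lit 0x8008000400200040008420603))) 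
(.lf (nat_lit 5772297457) (dlOf (nat_lit 1) (nat_lit 0x20018092e81)))) (.nd (nat_lit 9) 
(.lf (nat_lit 2753446385) (dlOf (nat_lit 2) (nat_lit 0x340680005f018090d80))) 
(.lf (nat_lit 35537905) (dlOf (nat_lit 1) (nat_lit 0x400200020009012882))))))))))) (.nd (nat_lit 5) 
(.nd (nat_lit 17) (.nd (nat_lit 28) (.nd (nat_lit 21) (.nd (nat_lit 26) (.nd (nat_lit 18) 
(.nd (nat_lit 11) (.nd (nat_lit 10) (.nd (nat_lit 6) 
(.lf (nat_lit 2684370969) (dlOf (nat_lit 1) (nat_lit 0x60028000001))) 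
(.lf (nat_lit 4735065) (dlOf (nat_lit 1) (nat_lit 0x4004000200082b0802)))) (.nd (nat_lit 7) 
(.lf (nat_lit 536888345) (dlOf (nat_lit 2) (nat_lit 0x4017c025d204000400400040018002882))) 
(.lf (nat_lit 3355464857) (dlOf (nat_lit 2) (nat_lit 0x2c0028019e4080018008000800200060008009503))))) 
(.nd (nat_lit 6) (.nd (nat_lit 8) 
(.lf (nat_lit 6576687257) (dlOf (nat_lit 1) (nat_lit 0x20018004801))) 
(.lf (nat_lit 134241689) (dlOf (nat_lit 1) (nat_lit 0x2002800ca01)))) (.nd (nat_lit 24) 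
(.lf (nat_lit 41962073) (dlOf (nat_lit 2) (nat_lit 0xf09e800400000002608001400200060009245302))) 
(.lf (nat_lit 58739289) (dlOf (nat_lit 2) (nat_lit 0x73ac800026040018004000e00197e5302)))))) 
(.nd (nat_lit 19) (.nd (nat_lit 6) (.nd (nat_lit 8) (.nd (nat_lit 20) 
(.lf (nat_lit 4429463577) (dlOf (nat_lit 2) (nat_lit 0xe027000100180c0400))) 
(.lf (nat_lit 18104345) (dlOf (nat_lit 1) (nat_lit 0x40008910b81)))) 
(.lf (nat_lit 5905858841) (dlOf (nat_lit 1) (nat_lit 0x130008008800200160008154003)))) 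
(.nd (nat_lit 8) (.lf (nat_lit 26493017) (dlOf (nat_lit 1) (nat_lit 0x50004002e0018c50802))) 
(.lf (nat_lit 5905858905) (dlOf (nat_lit 1) (nat_lit 0x20028154e01))))) (.nd (nat_lit 6) 
(.nd (nat_lit 20) (.nd (nat_lit 22) 
(.lf (nat_lit 9191449) (dlOf (nat_lit 1) (nat_lit 0x8008000800200020008530103))) 
(.lf (nat_lit 4997145) (dlOf (nat_lit 1) (nat_lit 0x200082f0481)))) 
(.lf (nat_lit 60571673) (dlOf (nat_lit 1) (nat_lit 0x400098b0181)))) 
(.lf (nat_lit 9191513) (dlOf (nat_lit 4) (nat_lit 0x3747a00031020003a3d00018010005cb18000640800f00080054002000a0008530703)))))) 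
(.nd (nat_lit 8) (.nd (nat_lit 27) (.nd (nat_lit 7) (.nd (nat_lit 29) 
(.lf (nat_lit 4362616857) (dlOf (nat_lit 1) (nat_lit 0x80080014002000600080b0a03))) 
(.lf (nat_lit 1678262297) (dlOf (nat_lit 1) (nat_lit 0x200181c0a01)))) (.nd (nat_lit 6) 
(.lf (nat_lit 604000921) (dlOf (nat_lit 1) (nat_lit 0x400200020008008c82))) 
(.lf (nat_lit 604000985) (dlOf (nat_lit 1) (nat_lit 0x30008000c00200020008008c83))))) 
(.nd (nat_lit 6) (.nd (nat_lit 10) 
(.lf (nat_lit 738738201) (dlOf (nat_lit 3) (nat_lit 0x240320067681009002080332408078800804f8002005c00080f0a03))) 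
(.lf (nat_lit 4496575513) (dlOf (nat_lit 1) (nat_lit 0x1000200ec00080e6002)))) (.nd (nat_lit 7) 
(.lf (nat_lit 2349088857) (dlOf (nat_lit 1) (nat_lit 0xc004000200080a1182))) 
(.lf (nat_lit 2348828889) (dlOf (nat_lit 5) (nat_lit 0x80b0000c0540002018000100800010038000c018000600300020000000ec4000080400007204000c054000200e0001b8200010080000c008040000802fc002000e0008004a83)))))) 
(.nd (nat_lit 6) (.nd (nat_lit 10) (.nd (nat_lit 18) 
(.lf (nat_lit 2755674393) (dlOf (nat_lit 1) (nat_lit 0x4002000200081b0482))) 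
(.lf (nat_lit 6509838617) (dlOf (nat_lit 1) (nat_lit 0x130008008800200160008154003)))) 
(.nd (nat_lit 7) 
(.lf (nat_lit 2751481625) (dlOf (nat_lit 2) (nat_lit 0x208b4000160400b400400240008003c82))) 
(.lf (nat_lit 1140868505) (dlOf (nat_lit 3) (nat_lit 0x8005000e381000a0028006f40800880080028002000e0008003603))))) 
(.nd (nat_lit 7) (.lf (nat_lit 67649881) (dlOf (nat_lit 1) (nat_lit 0x1200182d0881))) 
(.nd (nat_lit 27) (.lf (nat_lit 4362099161) (dlOf (nat_lit 1) (nat_lit 0x160002002a000800b282))) 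
(.lf (nat_lit 201349593) (dlOf (nat_lit 2) (nat_lit 0x280ec014fc0400040040008000800b282)))))))) 
(.nd (nat_lit 7) (.nd (nat_lit 20) (.nd (nat_lit 19) (.nd (nat_lit 6) (.nd (nat_lit 23) 
(.lf (nat_lit 2375705) (dlOf (nat_lit 1) (nat_lit 0x20028150001))) 
(.lf (nat_lit 44318745) (dlOf (nat_lit 3) (nat_lit 0x318bc0018c280002004001862f000c30a00002c100038008002c002000200092f0403)))) 
(.lf (nat_lit 14696537) (dlOf (nat_lit 1) (nat_lit 0x400400020008770802)))) (.nd (nat_lit 6) 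
(.nd (nat_lit 25) 
(.lf (nat_lit 15220761) (dlOf (nat_lit 2) (nat_lit 0x37a3a8001f0040080004009400087c0482))) 
(.lf (nat_lit 48775193) (dlOf (nat_lit 1) (nat_lit 0x40019420101)))) 
(.lf (nat_lit 2754101337) (dlOf (nat_lit 2) (nat_lit 0x5387e40000e040020004006e00080c1a82))))) 
(.nd (nat_lit 10) (.nd (nat_lit 25) (.nd (nat_lit 19) 
(.lf (nat_lit 24133657) (dlOf (nat_lit 1) (nat_lit 0x20008b80001))) 
(.lf (nat_lit 2755149849) (dlOf (nat_lit 1) (nat_lit 0x1c00200020008120882)))) (.nd (nat_lit 23) 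
(.lf (nat_lit 37240857) (dlOf (nat_lit 1) (nat_lit 0x1000090c0601))) 
(.lf (nat_lit 45629465) (dlOf (nat_lit 1) (nat_lit 0x20029340101))))) (.nd (nat_lit 9) 
(.lf (nat_lit 20470809) (dlOf (nat_lit 1) (nat_lit 0x4004000200089dbf02))) (.nd (nat_lit 11) 
(.lf (nat_lit 8144409) (dlOf (nat_lit 1) (nat_lit 0x3e0028513701))) 
(.lf (nat_lit 2754629145) (dlOf (nat_lit 1) (nat_lit 0x200280f7101))))))) (.nd (nat_lit 6) 
(.nd (nat_lit 18) (.nd (nat_lit 8) (.nd (nat_lit 20) 
(.lf (nat_lit 2753577113) (dlOf (nat_lit 2) (nat_lit 0x30100000bc080038008001800200060008090183))) 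
(.lf (nat_lit 24133785) (dlOf (nat_lit 2) (nat_lit 0x17620002b9300008c08000400400080008b80182)))) 
(.lf (nat_lit 61359513) (dlOf (nat_lit 3) (nat_lit 0x14a5a000f901000752d8007b8080108008001400200180009923603)))) 
(.nd (nat_lit 8) (.nd (nat_lit 9) 
(.lf (nat_lit 2375833) (dlOf (nat_lit 2) (nat_lit 0x34bf500023018150180))) 
(.lf (nat_lit 19681945) (dlOf (nat_lit 1) (nat_lit 0x4002000200089d8c82)))) 
(.lf (nat_lit 52708761) (dlOf (nat_lit 1) (nat_lit 0x2280080054002000a0009573603))))) 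
(.nd (nat_lit 8) (.nd (nat_lit 9) 
(.lf (nat_lit 2113753) (dlOf (nat_lit 1) (nat_lit 0x20028150481))) (.nd (nat_lit 11) 
(.lf (nat_lit 8147673) (dlOf (nat_lit 1) (nat_lit 0x8008000400200040008518c83))) 
(.lf (nat_lit 50088665) (dlOf (nat_lit 2) (nat_lit 0x240e880001002000400294c5901))))) 
(.nd (nat_lit 9) (.lf (nat_lit 19682777) (dlOf (nat_lit 1) (nat_lit 0x80080008002000200089d9b03))) 
(.lf (nat_lit 8146905) (dlOf (nat_lit 1) (nat_lit 0x20018517a81)))))))) (.nd (nat_lit 26) 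
(.nd (nat_lit 7) (.nd (nat_lit 18) (.nd (nat_lit 11) (.nd (nat_lit 20) 
(.lf (nat_lit 805847065) (dlOf (nat_lit 1) (nat_lit 0x200181c0a01))) (.nd (nat_lit 21) 
(.lf (nat_lit 1343766553) (dlOf (nat_lit 1) (nat_lit 0x8000400360018360482))) 
(.lf (nat_lit 3493347353) (dlOf (nat_lit 1) (nat_lit 0x1c00200020008120882))))) (.nd (nat_lit 6) 
(.nd (nat_lit 8) (.lf (nat_lit 5771381785) (dlOf (nat_lit 1) (nat_lit 0x80018006001))) 
(.lf (nat_lit 5771381529) (dlOf (nat_lit 1) (nat_lit 0x4004001a0018005b82)))) 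
(.lf (nat_lit 1342201177) (dlOf (nat_lit 1) (nat_lit 0xfc002003c000800c902))))) (.nd (nat_lit 29) 
(.nd (nat_lit 19) (.lf (nat_lit 5637423129) (dlOf (nat_lit 1) (nat_lit 0x8004000200080e0582))) 
(.lf (nat_lit 5773213721) (dlOf (nat_lit 2) (nat_lit 0x2b425e0003b02006a00080b0101)))) 
(.nd (nat_lit 21) (.nd (nat_lit 30) 
(.lf (nat_lit 2953068569) (dlOf (nat_lit 2) (nat_lit 0x4800000000040010004000400080f0482))) 
(.lf (nat_lit 1879326745) (dlOf (nat_lit 1) (nat_lit 0x80080004002000200080e0a03)))) 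
(.lf (nat_lit 1881423897) (dlOf (nat_lit 1) (nat_lit 0x20008f00001)))))) (.nd (nat_lit 11) 
(.nd (nat_lit 9) (.nd (nat_lit 27) 
(.lf (nat_lit 4563681433) (dlOf (nat_lit 2) (nat_lit 0x4034000168180c1200))) 
(.lf (nat_lit 4697899161) (dlOf (nat_lit 2) (nat_lit 0x40340000b8180c1200)))) (.nd (nat_lit 6) 
(.lf (nat_lit 2952811161) (dlOf (nat_lit 1) (nat_lit 0x10002000a0008008c82))) 
(.lf (nat_lit 2952811225) (dlOf (nat_lit 3) (nat_lit 0x2a014004fd81001500a0027e008008800800f800200340008008c83))))) 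
(.nd (nat_lit 6) (.nd (nat_lit 8) 
(.lf (nat_lit 3489680537) (dlOf (nat_lit 1) (nat_lit 0x20008000400200040008006203))) 
(.nd (nat_lit 9) (.lf (nat_lit 3489679769) (dlOf (nat_lit 1) (nat_lit 0x20018004e81))) 
(.lf (nat_lit 1342200729) (dlOf (nat_lit 2) (nat_lit 0x3116800407cc00a8c0800880040058001800bc82))))) 
(.nd (nat_lit 10) 
(.lf (nat_lit 4026550489) (dlOf (nat_lit 1) (nat_lit 0x40008000400200060008004a83))) 
(.lf (nat_lit 3624160473) (dlOf (nat_lit 3) (nat_lit 0x1403d0000b01000301e80001408010800800bc002001e0008146483))))))) 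
(.nd (nat_lit 6) (.nd (nat_lit 19) (.nd (nat_lit 7) (.nd (nat_lit 10) 
(.lf (nat_lit 1006911513) (dlOf (nat_lit 1) (nat_lit 0x80080004002000200080e0a03))) 
(.nd (nat_lit 11) (.lf (nat_lit 469779481) (dlOf (nat_lit 1) (nat_lit 0x3c00200040008002882))) 
(.lf (nat_lit 5301619737) (dlOf (nat_lit 2) (nat_lit 0x701d0001080800a8008019c002005a0008006003))))) 
(.nd (nat_lit 8) (.lf (nat_lit 2617267865) (dlOf (nat_lit 1) (nat_lit 0x20008009f01))) 
(.lf (nat_lit 4227881881) (dlOf (nat_lit 3) (nat_lit 0x54031002a301001501880151408028000802a00020006000800bc83))))) 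
(.nd (nat_lit 18) (.nd (nat_lit 8) (.nd (nat_lit 27) 
(.lf (nat_lit 3557310489) (dlOf (nat_lit 2) (nat_lit 0x101840039c0400a8004003c00081c0482))) 
(.lf (nat_lit 4228399129) (dlOf (nat_lit 1) (nat_lit 0x80080014002000600080b0a03)))) 
(.lf (nat_lit 1946698009) (dlOf (nat_lit 1) (nat_lit 0x50002000a00081b0482)))) (.nd (nat_lit 29) 
(.lf (nat_lit 471613465) (dlOf (nat_lit 1) (nat_lit 0x740008002c00200ec0008360483))) 
(.lf (nat_lit 6377193497) (dlOf (nat_lit 2) (nat_lit 0x2b42400003b02006a00080b0101)))))) 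
(.nd (nat_lit 18) (.nd (nat_lit 8) (.nd (nat_lit 7) (.nd (nat_lit 9) 
(.lf (nat_lit 471351385) (dlOf (nat_lit 1) (nat_lit 0xce00082e0381))) 
(.lf (nat_lit 472402521) (dlOf (nat_lit 3) (nat_lit 0x741b80002e02001e0bc00003818985300)))) 
(.lf (nat_lit 1009272025) (dlOf (nat_lit 1) (nat_lit 0x200190e2d81)))) (.nd (nat_lit 7) 
(.nd (nat_lit 11) (.lf (nat_lit 473449817) (dlOf (nat_lit 1) (nat_lit 0x80028f53381))) 
(.lf (nat_lit 4227882329) (dlOf (nat_lit 2) (nat_lit 0x6f01900196c0801400080060002005a000800c903)))) 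
(.lf (nat_lit 473449433) (dlOf (nat_lit 1) (nat_lit 0x1cc00402820008f52882))))) (.nd (nat_lit 7) 
(.nd (nat_lit 27) (.nd (nat_lit 29) 
(.lf (nat_lit 2483306585) (dlOf (nat_lit 1) (nat_lit 0xc004000200080a1182))) 
(.lf (nat_lit 3020177497) (dlOf (nat_lit 2) (nat_lit 0x1101a80009c080038008000400200020008150803)))) 
(.lf (nat_lit 2080653401) (dlOf (nat_lit 1) (nat_lit 0x4004000200080a1882)))) (.nd (nat_lit 27) 
(.lf (nat_lit 5167661273) (dlOf (nat_lit 1) (nat_lit 0x4004000200080f1902))) 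
(.lf (nat_lit 4765008089) (dlOf (nat_lit 1) (nat_lit 0x80080004002000200080c1903))))))))) 
(.nd (nat_lit 6) (.nd (nat_lit 18) (.nd (nat_lit 27) (.nd (nat_lit 20) (.nd (nat_lit 11) 
(.nd (nat_lit 24) (.nd (nat_lit 26) 
(.lf (nat_lit 2416066585) (dlOf (nat_lit 1) (nat_lit 0xa400400060018030882))) (.nd (nat_lit 29) 
(.lf (nat_lit 1140998169) (dlOf (nat_lit 1) (nat_lit 0x600008060a01))) 
(.lf (nat_lit 604127257) (dlOf (nat_lit 1) (nat_lit 0x40018030101))))) (.nd (nat_lit 19) 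
(.lf (nat_lit 52576281) (dlOf (nat_lit 1) (nat_lit 0x2800400020009550102))) 
(.lf (nat_lit 17448985) (dlOf (nat_lit 1) (nat_lit 0x4002000200088e0002))))) (.nd (nat_lit 7) 
(.nd (nat_lit 8) (.nd (nat_lit 9) 
(.lf (nat_lit 5905729561) (dlOf (nat_lit 1) (nat_lit 0x400400020008144702))) 
(.lf (nat_lit 2751617561) (dlOf (nat_lit 2) (nat_lit 0x3832e00c13020028001800b281)))) 
(.lf (nat_lit 9066777) (dlOf (nat_lit 1) (nat_lit 0x38002851ab01)))) (.nd (nat_lit 9) 
(.lf (nat_lit 3221376409) (dlOf (nat_lit 3) (nat_lit 0x840a20004302005a05100020818116d00))) 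
(.lf (nat_lit 3221379993) (dlOf (nat_lit 10) (nat_lit 0x360178011740801c80bc008b804015c05e0045902006c02f001fc01002a017800fb00800280bc007c404004c05e003e102006602f001ee810036017800f5c0801a80080110002005a000811bc83)))))) 
(.nd (nat_lit 24) (.nd (nat_lit 22) (.nd (nat_lit 19) 
(.lf (nat_lit 68304921) (dlOf (nat_lit 1) (nat_lit 0x80018500481))) 
(.lf (nat_lit 10108953) (dlOf (nat_lit 1) (nat_lit 0x200285b0481)))) (.nd (nat_lit 25) 
(.lf (nat_lit 13778969) (dlOf (nat_lit 1) (nat_lit 0x20028750001))) 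
(.lf (nat_lit 47333401) (dlOf (nat_lit 1) (nat_lit 0x6800093d0501))))) (.nd (nat_lit 19) 
(.nd (nat_lit 8) (.lf (nat_lit 30556185) (dlOf (nat_lit 1) (nat_lit 0x180008e40901))) 
(.lf (nat_lit 28459289) (dlOf (nat_lit 1) (nat_lit 0x20008da0701)))) (.nd (nat_lit 23) 
(.lf (nat_lit 18497561) (dlOf (nat_lit 1) (nat_lit 0x400400020008940482))) 
(.lf (nat_lit 26886169) (dlOf (nat_lit 2) (nat_lit 0x4d5cc00a8902009c0018c80481))))))) 
(.nd (nat_lit 19) (.nd (nat_lit 10) (.nd (nat_lit 29) (.nd (nat_lit 30) 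
(.lf (nat_lit 2550284313) (dlOf (nat_lit 1) (nat_lit 0xa400400060018030882))) 
(.lf (nat_lit 3624026137) (dlOf (nat_lit 1) (nat_lit 0x4e00280b0001)))) 
(.lf (nat_lit 2013413401) (dlOf (nat_lit 2) (nat_lit 0x400c00dfb0200100028060a01)))) 
(.nd (nat_lit 7) (.nd (nat_lit 9) 
(.lf (nat_lit 3959571481) (dlOf (nat_lit 7) (nat_lit 0xc0298051cc08032014c028d20400840a60146702001602f008b08100030178045800800500bc022bc04004400200060008112882))) 
(.lf (nat_lit 3355596313) (dlOf (nat_lit 1) (nat_lit 0x200180a9c01)))) 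
(.lf (nat_lit 3959572377) (dlOf (nat_lit 2) (nat_lit 0x600000008818114280))))) (.nd (nat_lit 26) 
(.nd (nat_lit 29) 
(.lf (nat_lit 134889497) (dlOf (nat_lit 2) (nat_lit 0x12010400000040008002001000080d0882))) 
(.lf (nat_lit 3892985881) (dlOf (nat_lit 1) (nat_lit 0x10004000400082c0582)))) (.nd (nat_lit 21) 
(.nd (nat_lit 28) 
(.lf (nat_lit 201998361) (dlOf (nat_lit 2) (nat_lit 0x12010400000040008002001000080d0882))) 
(.lf (nat_lit 470433817) (dlOf (nat_lit 2) (nat_lit 0x3502280008008015800800bc002007800080f0403)))) 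
(.lf (nat_lit 1009401881) (dlOf (nat_lit 1) (nat_lit 0x20019160001))))))) (.nd (nat_lit 21) 
(.nd (nat_lit 28) (.nd (nat_lit 8) (.nd (nat_lit 19) (.nd (nat_lit 22) 
(.lf (nat_lit 2818981913) (dlOf (nat_lit 1) (nat_lit 0x400200020008140502))) 
(.lf (nat_lit 12992537) (dlOf (nat_lit 1) (nat_lit 0xa00286f0401)))) 
(.lf (nat_lit 42876953) (dlOf (nat_lit 1) (nat_lit 0x400400020009280102)))) (.nd (nat_lit 7) 
(.lf (nat_lit 537805081) (dlOf (nat_lit 1) (nat_lit 0x14002000200081b0482))) (.nd (nat_lit 22) 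
(.lf (nat_lit 4362486169) (dlOf (nat_lit 1) (nat_lit 0x10008005800200420008090783))) 
(.lf (nat_lit 21381529) (dlOf (nat_lit 1) (nat_lit 0x200028a36481)))))) (.nd (nat_lit 26) 
(.nd (nat_lit 20) 
(.lf (nat_lit 3494264857) (dlOf (nat_lit 1) (nat_lit 0x28800800d4002008e00081e0403))) 
(.lf (nat_lit 1343635481) (dlOf (nat_lit 1) (nat_lit 0x740008002c00200ec00082d0483)))) 
(.nd (nat_lit 27) 
(.lf (nat_lit 3557179417) (dlOf (nat_lit 4) (nat_lit 0x80700169402000403800b4901000801c005a44080190008007400200300008140503))) 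
(.lf (nat_lit 3154526233) (dlOf (nat_lit 2) (nat_lit 0x8802c003098181f0480)))))) (.nd (nat_lit 20) 
(.nd (nat_lit 10) 
(.lf (nat_lit 15089689) (dlOf (nat_lit 25) (nat_lit 0xaf256005092ae07088ea015f47480c19f5c0050f5801c875f002739980017c40001256002351d402527d70002f0300114ac00c0a3a80688fae0005d0618c69580e1947507aa1f5c1338f5806ec75f0e973998001643001523a80340fae006c7330002c0300c34ac0092a3a80934fae03267330002b8400e64ac003fa3a80670fae01527ac00583af80741ccc000aa18024d2b000be95700da47500e09f5c0248fac00e27d400653e2804e1eb0024cf5601127a900663af80009d7801ace6600cc732007c398000e9c9c02347ba0005422040e958016c4ab80b2a3a802651d2054c7d701c93eb00e51f5008a0f58042e7ab00653d480b91d7c024cebc035e733023739900070f7c02647ba00052200202958009d47500da9f5c02b4f58010875f00cd39980014430067256001791d403527d7007e3d600149d7c0314e660004c0c029a95801044ab809c23a800551d204047d7010d3eb00039f540350fa8031c7ac01b03d580699ea403acebe008075e010c399809e1cc801b07ba0004b2000227d7000250101754ac001b255c034d1d404207d700e33af80969ccc0006618025d2b0006e8ea01523eb80141d7c0006410033d2b0010a8ea018a3eb80309d7c000621007ad2b000c0957018247501391f5c0200f5802ae75f01683998000c03800e9f5c0004e04004d1d400a67d7000050200203eb800020080069f5c0000c0400d0fae0000302031c7d70000101001337e80000008036800800c4002008200087b0483)))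 
(.lf (nat_lit 19813401) (dlOf (nat_lit 1) (nat_lit 0x200289d9201)))) (.nd (nat_lit 23) 
(.lf (nat_lit 37109785) (dlOf (nat_lit 1) (nat_lit 0x600090a0601))) 
(.lf (nat_lit 62275609) (dlOf (nat_lit 1) (nat_lit 0xa0009990181))))))) (.nd (nat_lit 28) 
(.nd (nat_lit 18) (.nd (nat_lit 29) (.nd (nat_lit 19) (.nd (nat_lit 7) 
(.lf (nat_lit 3221380441) (dlOf (nat_lit 2) (nat_lit 0x1a00bc00cce0400a40040048000811c902))) 
(.nd (nat_lit 22) (.lf (nat_lit 9584857) (dlOf (nat_lit 1) (nat_lit 0x400400020008571902))) 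
(.lf (nat_lit 13779161) (dlOf (nat_lit 3) (nat_lit 0x61bbc0004a040024dde000240200460028750581))))) 
(.nd (nat_lit 10) (.nd (nat_lit 20) 
(.lf (nat_lit 4866137) (dlOf (nat_lit 1) (nat_lit 0x4004000200082d0802))) 
(.lf (nat_lit 60440665) (dlOf (nat_lit 3) (nat_lit 0x252f600029020004a2900012819860700)))) 
(.lf (nat_lit 34227289) (dlOf (nat_lit 1) (nat_lit 0x60028fb2901))))) (.nd (nat_lit 8) 
(.nd (nat_lit 26) (.nd (nat_lit 19) 
(.lf (nat_lit 4831985753) (dlOf (nat_lit 1) (nat_lit 0x40028070701))) 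
(.lf (nat_lit 537542745) (dlOf (nat_lit 1) (nat_lit 0x2c00280a1181)))) (.nd (nat_lit 7) 
(.lf (nat_lit 604127321) (dlOf (nat_lit 4) (nat_lit 0x830060076002c010a01503420088080001c0634000000290c010201800e500b00440054091c02201240000001385002300000006c0807b000802fc0020db40008030803))) 
(.lf (nat_lit 4899094745) (dlOf (nat_lit 1) (nat_lit 0x800400020008071902))))) (.nd (nat_lit 7) 
(.nd (nat_lit 12) (.lf (nat_lit 1677871449) (dlOf (nat_lit 1) (nat_lit 0x400200020008114e02))) 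
(.lf (nat_lit 537024857) (dlOf (nat_lit 1) (nat_lit 0x26002800ab81)))) 
(.lf (nat_lit 3959577049) (dlOf (nat_lit 3) (nat_lit 0x1c02a00138100007407000660160060b840009017802d20080068008004c002002e000811b283)))))) 
(.nd (nat_lit 9) (.nd (nat_lit 21) (.nd (nat_lit 20) (.nd (nat_lit 22) 
(.lf (nat_lit 1208369241) (dlOf (nat_lit 1) (nat_lit 0x4002000200080d1b82))) 
(.lf (nat_lit 54935641) (dlOf (nat_lit 3) (nat_lit 0x1b00000000e04003c0000000002007c0019670701)))) 
(.lf (nat_lit 26624089) (dlOf (nat_lit 1) (nat_lit 0x14004000a0008c50802)))) (.nd (nat_lit 7) 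
(.lf (nat_lit 48644185) (dlOf (nat_lit 1) (nat_lit 0x80019420801))) (.nd (nat_lit 10) 
(.lf (nat_lit 2755543257) (dlOf (nat_lit 2) (nat_lit 0x407e001d102000200181b0481))) 
(.lf (nat_lit 19813593) (dlOf (nat_lit 1) (nat_lit 0x8004000200189d9502)))))) (.nd (nat_lit 7) 
(.nd (nat_lit 8) (.nd (nat_lit 21) 
(.lf (nat_lit 42355289) (dlOf (nat_lit 2) (nat_lit 0x84f40040258000130400240029245301))) 
(.lf (nat_lit 31869529) (dlOf (nat_lit 1) (nat_lit 0x1c0028e95301)))) 
(.lf (nat_lit 19809113) (dlOf (nat_lit 1) (nat_lit 0x1400289d2581)))) (.nd (nat_lit 8) 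
(.nd (nat_lit 11) (.lf (nat_lit 8278745) (dlOf (nat_lit 1) (nat_lit 0x8008000400200020008518c83))) 
(.lf (nat_lit 20339417) (dlOf (nat_lit 1) (nat_lit 0x20008000c002000400089db983)))) 
(.lf (nat_lit 57033689) (dlOf (nat_lit 1) (nat_lit 0x20019792881))))))) (.nd (nat_lit 26) 
(.nd (nat_lit 18) (.nd (nat_lit 29) (.nd (nat_lit 9) (.nd (nat_lit 22) 
(.lf (nat_lit 1476542553) (dlOf (nat_lit 2) (nat_lit 0x174030011000e00014828050800))) 
(.lf (nat_lit 1346519129) (dlOf (nat_lit 1) (nat_lit 0x400200020008f80702)))) 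
(.lf (nat_lit 1345473113) (dlOf (nat_lit 3) (nat_lit 0x230a5002b02680128114009a07a0001284005204d000081e80004408000400400020018c35302)))) 
(.nd (nat_lit 19) (.nd (nat_lit 31) 
(.lf (nat_lit 5100421209) (dlOf (nat_lit 1) (nat_lit 0x4000400020008070702))) 
(.lf (nat_lit 2952937561) (dlOf (nat_lit 6) (nat_lit 0xb400e001f00100006a0806a0058032202b01f50150001009c000c03001400130057004802380140690004041a000000148a001b0150000a00805a00b0038805402620000001383000200200001c0800f8008031800200140008030803)))) 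
(.lf (nat_lit 805978201) (dlOf (nat_lit 1) (nat_lit 0xa0008001800200220008201883))))) 
(.nd (nat_lit 21) (.nd (nat_lit 7) 
(.lf (nat_lit 5637554265) (dlOf (nat_lit 1) (nat_lit 0x9800200420008100682))) 
(.lf (nat_lit 5772297433) (dlOf (nat_lit 1) (nat_lit 0x60018092d81)))) (.nd (nat_lit 8) 
(.nd (nat_lit 11) 
(.lf (nat_lit 3493740761) (dlOf (nat_lit 2) (nat_lit 0x81300038a040084002001600081b0482))) 
(.lf (nat_lit 3492694233) (dlOf (nat_lit 3) (nat_lit 0x80840003b0200920420001d0180f4a80)))) 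
(.lf (nat_lit 3492692953) (dlOf (nat_lit 1) (nat_lit 0x200080f2881)))))) (.nd (nat_lit 7) 
(.nd (nat_lit 10) (.nd (nat_lit 18) (.nd (nat_lit 19) 
(.lf (nat_lit 3691135065) (dlOf (nat_lit 1) (nat_lit 0x28008000400200020008050803))) 
(.lf (nat_lit 1409957977) (dlOf (nat_lit 1) (nat_lit 0x2c00280a1181)))) 
(.lf (nat_lit 6241534041) (dlOf (nat_lit 1) (nat_lit 0x9800200420008100682)))) (.nd (nat_lit 8) 
(.lf (nat_lit 2617398873) (dlOf (nat_lit 6) (nat_lit 0x40100004f80800500b00025a0400100580010202003e02f0001e8100140178000f00800c80080094002001c00080a9c03))) 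
(.lf (nat_lit 1543654745) (dlOf (nat_lit 2) (nat_lit 0x1c00280009808023800800ec002002e0008146a83))))) 
(.nd (nat_lit 19) (.nd (nat_lit 10) 
(.lf (nat_lit 5301747929) (dlOf (nat_lit 1) (nat_lit 0x400400020008075d82))) 
(.lf (nat_lit 1543654617) (dlOf (nat_lit 4) (nat_lit 0x1a0140000b0100010118000805000028080018046000a020000600a000080000000a10002800200320008146482)))) 
(.nd (nat_lit 18) (.lf (nat_lit 4096409817) (dlOf (nat_lit 1) (nat_lit 0x400400380008111902))) 
(.lf (nat_lit 6377324761) (dlOf (nat_lit 1) (nat_lit 0x4c004000400080c1c02)))))))))) 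
(.nd (nat_lit 17) (.nd (nat_lit 6) (.nd (nat_lit 28) (.nd (nat_lit 18) (.nd (nat_lit 26) 
(.nd (nat_lit 24) (.nd (nat_lit 8) (.nd (nat_lit 7) (.nd (nat_lit 19) 
(.lf (nat_lit 12599353) (dlOf (nat_lit 1) (nat_lit 0x8004000400086d0b02))) 
(.lf (nat_lit 3221766201) (dlOf (nat_lit 1) (nat_lit 0x5c00400300018180b82)))) 
(.lf (nat_lit 134237369) (dlOf (nat_lit 1) (nat_lit 0x20008001400200080008006303)))) 
(.nd (nat_lit 10) 
(.lf (nat_lit 536889657) (dlOf (nat_lit 1) (nat_lit 0x28008000c00200080008004c03))) 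
(.lf (nat_lit 8410425) (dlOf (nat_lit 1) (nat_lit 0x10008000400200020008519903))))) 
(.nd (nat_lit 20) (.nd (nat_lit 21) 
(.lf (nat_lit 25182265) (dlOf (nat_lit 1) (nat_lit 0x40008be1301))) 
(.lf (nat_lit 52445241) (dlOf (nat_lit 1) (nat_lit 0x2400200a00009530582)))) (.nd (nat_lit 8) 
(.lf (nat_lit 17842233) (dlOf (nat_lit 1) (nat_lit 0x4002000200088f1102))) 
(.lf (nat_lit 19942201) (dlOf (nat_lit 1) (nat_lit 0x4002000200089d5c02)))))) (.nd (nat_lit 7) 
(.nd (nat_lit 31) (.nd (nat_lit 29) 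
(.lf (nat_lit 4362616889) (dlOf (nat_lit 2) (nat_lit 0x30190000bc0800080080010002000400080b0b83))) 
(.lf (nat_lit 1678262329) (dlOf (nat_lit 3) (nat_lit 0xbc05a05dc017000178200130168000b8080030008010c002004e00081c0b83)))) 
(.nd (nat_lit 9) 
(.lf (nat_lit 2756198457) (dlOf (nat_lit 2) (nat_lit 0x700000004e04003000200160008211302))) 
(.lf (nat_lit 2751486521) (dlOf (nat_lit 2) (nat_lit 0x61118003881c000f60800300040002001800b402))))) 
(.nd (nat_lit 8) (.lf (nat_lit 6509578425) (dlOf (nat_lit 1) (nat_lit 0x100028004901))) 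
(.nd (nat_lit 9) (.lf (nat_lit 604003769) (dlOf (nat_lit 1) (nat_lit 0x1b000200a6000800cd02))) 
(.lf (nat_lit 2752006073) (dlOf (nat_lit 1) (nat_lit 0x100028004381))))))) (.nd (nat_lit 19) 
(.nd (nat_lit 22) (.nd (nat_lit 8) 
(.lf (nat_lit 2349088825) (dlOf (nat_lit 1) (nat_lit 0x380080018002002200080a0b03))) 
(.nd (nat_lit 26) (.lf (nat_lit 3221504313) (dlOf (nat_lit 1) (nat_lit 0x400400020008124c02))) 
(.lf (nat_lit 3959701817) (dlOf (nat_lit 1) (nat_lit 0x400400020008124c02))))) (.nd (nat_lit 20) 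
(.nd (nat_lit 21) (.lf (nat_lit 12861497) (dlOf (nat_lit 1) (nat_lit 0x200286e0b81))) 
(.lf (nat_lit 6570041) (dlOf (nat_lit 1) (nat_lit 0x400200020008431102)))) (.nd (nat_lit 21) 
(.lf (nat_lit 30687289) (dlOf (nat_lit 1) (nat_lit 0x478008041c00200c40008e41103))) 
(.lf (nat_lit 7618617) (dlOf (nat_lit 1) (nat_lit 0x4002000200084c1102)))))) (.nd (nat_lit 24) 
(.nd (nat_lit 7) 
(.lf (nat_lit 50086969) (dlOf (nat_lit 3) (nat_lit 0x25ce88015130200aa74400893a180525c1005500080618002092e00094c2883))) 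
(.nd (nat_lit 10) (.lf (nat_lit 40651193) (dlOf (nat_lit 1) (nat_lit 0x400291f4e81))) 
(.lf (nat_lit 8144313) (dlOf (nat_lit 1) (nat_lit 0x400200020008513602))))) (.nd (nat_lit 12) 
(.nd (nat_lit 22) (.lf (nat_lit 27017273) (dlOf (nat_lit 1) (nat_lit 0x1d00008ca0881))) 
(.lf (nat_lit 22822969) (dlOf (nat_lit 2) (nat_lit 0xa6a500053518002ca08000800400040008b30d82)))) 
(.lf (nat_lit 19681337) (dlOf (nat_lit 1) (nat_lit 0x98004009600089d7c82))))))) (.nd (nat_lit 26) 
(.nd (nat_lit 21) (.nd (nat_lit 12) (.nd (nat_lit 19) (.nd (nat_lit 10) 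
(.lf (nat_lit 1342455865) (dlOf (nat_lit 4) (nat_lit 0x230e380056c0800d07c0003437a0015a04004424900069818030d00))) 
(.lf (nat_lit 3489680441) (dlOf (nat_lit 1) (nat_lit 0x38008005c002000a0008006083)))) 
(.nd (nat_lit 9) 
(.lf (nat_lit 805847097) (dlOf (nat_lit 3) (nat_lit 0xbc05a05dc017000178200130168000b8080030008010c002004e00081c0b83))) 
(.lf (nat_lit 1342718521) (dlOf (nat_lit 1) (nat_lit 0x9c00180c1001))))) (.nd (nat_lit 8) 
(.lf (nat_lit 2952810553) (dlOf (nat_lit 6) (nat_lit 0x801c0007c81000700e0003e0080060070001ee04001c038000f602001001c001000d80008060000000c00f000400060018007c82))) 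
(.nd (nat_lit 9) (.lf (nat_lit 4026554681) (dlOf (nat_lit 1) (nat_lit 0x80040002001800ab82))) 
(.lf (nat_lit 1476417337) (dlOf (nat_lit 1) (nat_lit 0x40040002000800a102)))))) (.nd (nat_lit 9) 
(.nd (nat_lit 7) 
(.lf (nat_lit 3492298809) (dlOf (nat_lit 5) (nat_lit 0x8c1e30001981006c0f18000c808014078c0006004001c3c60002f02001c00080c1301))) 
(.nd (nat_lit 18) 
(.lf (nat_lit 1344816313) (dlOf (nat_lit 2) (nat_lit 0xf833400080ea0001a0400060018982c81))) 
(.lf (nat_lit 1345602745) (dlOf (nat_lit 2) (nat_lit 0x2e04e000068080008008001c00200020008d72c83))))) 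
(.nd (nat_lit 8) (.nd (nat_lit 20) 
(.lf (nat_lit 1881164345) (dlOf (nat_lit 1) (nat_lit 0x140028e25201))) 
(.lf (nat_lit 1345342009) (dlOf (nat_lit 2) (nat_lit 0x104e00030234000ec08002400400080018b55202)))) 
(.lf (nat_lit 3493087033) (dlOf (nat_lit 8) (nat_lit 0xa40a800540510029027000581140006c1000e80a8005c05300320288016014000d009c006404d003a022801b80f4005c072001403800200058000d45801b015000bc0a60068051002c0280018013800c409a006e045003801e8007002c0006824002c0780003002001c05d003602a0017014c00dc0a2005805000350270015813400e408a000a041000801f801c00f4003805c0006021000200e000080680030016003a0000001511000902f00009c0800601780004604002c004000a00080f3e02)))))) 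
(.nd (nat_lit 7) (.nd (nat_lit 9) (.nd (nat_lit 18) 
(.lf (nat_lit 4228399161) (dlOf (nat_lit 2) (nat_lit 0x30188000bc0800080080010002000400080b0b83))) 
(.lf (nat_lit 470040633) (dlOf (nat_lit 4) (nat_lit 0x230e380056c0800d07c0003437a0015a04004424900069818030d00)))) 
(.nd (nat_lit 8) (.nd (nat_lit 11) 
(.lf (nat_lit 470303289) (dlOf (nat_lit 1) (nat_lit 0x9c00180c1001))) 
(.lf (nat_lit 472402489) (dlOf (nat_lit 1) (nat_lit 0x3a800201380008985202)))) 
(.lf (nat_lit 3691009849) (dlOf (nat_lit 2) (nat_lit 0x380540009c0400180020016000800a102))))) 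
(.nd (nat_lit 10) (.nd (nat_lit 8) (.nd (nat_lit 9) 
(.lf (nat_lit 1543522489) (dlOf (nat_lit 2) (nat_lit 0x15004000000080030008005c00200080008004903))) 
(.lf (nat_lit 3691010745) (dlOf (nat_lit 3) (nat_lit 0x5100e802480700002e08012403a00015020002001800b881)))) 
(.lf (nat_lit 472926649) (dlOf (nat_lit 1) (nat_lit 0x40008b54e81)))) (.nd (nat_lit 11) 
(.lf (nat_lit 472925369) (dlOf (nat_lit 1) (nat_lit 0x120028b52c81))) 
(.lf (nat_lit 1409305785) (dlOf (nat_lit 2) (nat_lit 0x80a80002302000a0028006301)))))))) 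
(.nd (nat_lit 7) (.nd (nat_lit 8) (.nd (nat_lit 9) (.nd (nat_lit 18) (.nd (nat_lit 19) 
(.nd (nat_lit 24) 
(.lf (nat_lit 2753577081) (dlOf (nat_lit 1) (nat_lit 0x8008000c002000a0008090083))) 
(.lf (nat_lit 18890873) (dlOf (nat_lit 1) (nat_lit 0x4004000a0008970482)))) 
(.lf (nat_lit 1476935801) (dlOf (nat_lit 1) (nat_lit 0x1c00282f2a01)))) (.nd (nat_lit 22) 
(.lf (nat_lit 51134585) (dlOf (nat_lit 1) (nat_lit 0x800800c000200360009502a03))) 
(.lf (nat_lit 30163065) (dlOf (nat_lit 1) (nat_lit 0x6c0008e30481))))) (.nd (nat_lit 10) 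
(.nd (nat_lit 20) 
(.lf (nat_lit 46942841) (dlOf (nat_lit 1) (nat_lit 0x50008000c00200060009385403))) 
(.lf (nat_lit 1880902265) (dlOf (nat_lit 1) (nat_lit 0x20028c95401)))) (.nd (nat_lit 19) 
(.lf (nat_lit 5502944889) (dlOf (nat_lit 1) (nat_lit 0x400200020008003982))) 
(.lf (nat_lit 1009272441) (dlOf (nat_lit 1) (nat_lit 0x1000090e3981)))))) (.nd (nat_lit 12) 
(.nd (nat_lit 9) (.nd (nat_lit 10) (.nd (nat_lit 18) 
(.lf (nat_lit 1345341817) (dlOf (nat_lit 1) (nat_lit 0x1c00400040008b54e82))) 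
(.lf (nat_lit 33311097) (dlOf (nat_lit 1) (nat_lit 0x80018f54e81)))) 
(.lf (nat_lit 5435835769) (dlOf (nat_lit 3) (nat_lit 0x46014000a008800300380005e0c00a007a004e03c002901c800b80dc00d002e0052015004600a0018004400c401c0068008002f0000000b05800f800800b4002002c0008003503)))) 
(.nd (nat_lit 27) (.lf (nat_lit 67126137) (dlOf (nat_lit 1) (nat_lit 0x400400020008002582))) 
(.lf (nat_lit 6643794809) (dlOf (nat_lit 1) (nat_lit 0x400400020008002582))))) (.nd (nat_lit 10) 
(.nd (nat_lit 9) 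
(.lf (nat_lit 4362099065) (dlOf (nat_lit 1) (nat_lit 0x800800040020002000800ae03))) 
(.lf (nat_lit 4227881849) (dlOf (nat_lit 1) (nat_lit 0x800800040020002000800bc83)))) 
(.nd (nat_lit 26) (.nd (nat_lit 27) 
(.lf (nat_lit 1342201209) (dlOf (nat_lit 1) (nat_lit 0x1400020046000800c902))) 
(.lf (nat_lit 134241657) (dlOf (nat_lit 1) (nat_lit 0x78008008c002000e000800c903)))) 
(.lf (nat_lit 4227882361) (dlOf (nat_lit 12) (nat_lit 0x1b40640066a020008032003320100140190019740803100c800cb80400600640065b02005e032003238100350190018040801c80c800b3204011406400589020010032002c401000301900161c0801480080054002006a000800c903))))))) 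
(.nd (nat_lit 30) (.nd (nat_lit 19) (.nd (nat_lit 8) (.nd (nat_lit 9) (.nd (nat_lit 18) 
(.lf (nat_lit 19939577) (dlOf (nat_lit 1) (nat_lit 0x4002000200089d0a82))) 
(.lf (nat_lit 2752790777) (dlOf (nat_lit 1) (nat_lit 0x848008000400200c20008047783)))) 
(.lf (nat_lit 19193) (dlOf (nat_lit 1) (nat_lit 0x400400020008005a02)))) (.nd (nat_lit 10) 
(.lf (nat_lit 9716217) (dlOf (nat_lit 1) (nat_lit 0x10008000400200080008577e03))) 
(.lf (nat_lit 2147501561) (dlOf (nat_lit 1) (nat_lit 0xb60028003681))))) (.nd (nat_lit 9) 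
(.nd (nat_lit 21) (.lf (nat_lit 8930809) (dlOf (nat_lit 1) (nat_lit 0x120008513681))) 
(.nd (nat_lit 23) (.lf (nat_lit 52971001) (dlOf (nat_lit 1) (nat_lit 0x100029573681))) 
(.lf (nat_lit 61359609) (dlOf (nat_lit 1) (nat_lit 0x4c00401880009923682))))) (.nd (nat_lit 8) 
(.lf (nat_lit 49826553) (dlOf (nat_lit 4) (nat_lit 0x256fa004eb7c000150200045bf00008808010ade400153940001004007a00294c5a01))) 
(.lf (nat_lit 8930297) (dlOf (nat_lit 1) (nat_lit 0x800400020008512882)))))) (.nd (nat_lit 26) 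
(.nd (nat_lit 9) (.nd (nat_lit 8) 
(.lf (nat_lit 3494134009) (dlOf (nat_lit 2) (nat_lit 0x40a20006050000e50281b0480))) 
(.lf (nat_lit 1881426425) (dlOf (nat_lit 1) (nat_lit 0x100018f04f81)))) (.nd (nat_lit 12) 
(.lf (nat_lit 6174295033) (dlOf (nat_lit 1) (nat_lit 0x400180d2881))) 
(.lf (nat_lit 1342198777) (dlOf (nat_lit 3) (nat_lit 0x1a04700127c0800482380093c04010800400380008009202))))) 
(.nd (nat_lit 10) (.nd (nat_lit 8) 
(.lf (nat_lit 1946697977) (dlOf (nat_lit 2) (nat_lit 0xa01f0004000000398080158002002400081b0482))) 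
(.lf (nat_lit 3959702009) (dlOf (nat_lit 2) (nat_lit 0x8c0000002202000a0008127e01)))) 
(.nd (nat_lit 18) 
(.lf (nat_lit 5435835897) (dlOf (nat_lit 2) (nat_lit 0xc80f80000004000400400120008003682))) 
(.lf (nat_lit 4096017913) (dlOf (nat_lit 1) (nat_lit 0x800280e3681))))))))) (.nd (nat_lit 8) 
(.nd (nat_lit 19) (.nd (nat_lit 7) (.nd (nat_lit 18) (.nd (nat_lit 6) (.nd (nat_lit 20) 
(.nd (nat_lit 22) (.lf (nat_lit 5301747769) (dlOf (nat_lit 1) (nat_lit 0x20028070c81))) 
(.lf (nat_lit 12730425) (dlOf (nat_lit 1) (nat_lit 0x80080034002000a00086e0b83)))) 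
(.lf (nat_lit 30556217) (dlOf (nat_lit 1) (nat_lit 0x400200020008e41102)))) (.nd (nat_lit 9) 
(.lf (nat_lit 44187769) (dlOf (nat_lit 1) (nat_lit 0x18004000c00192d0b82))) (.nd (nat_lit 27) 
(.lf (nat_lit 2147633785) (dlOf (nat_lit 1) (nat_lit 0x800400020008095402))) 
(.lf (nat_lit 1744980601) (dlOf (nat_lit 2) (nat_lit 0x30168000000800080080004002000e0008095403)))))) 
(.nd (nat_lit 26) (.nd (nat_lit 30) (.nd (nat_lit 21) 
(.lf (nat_lit 29769785) (dlOf (nat_lit 1) (nat_lit 0x400200020008e30002))) 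
(.lf (nat_lit 2506809) (dlOf (nat_lit 1) (nat_lit 0x88008008800200180008160b03)))) 
(.nd (nat_lit 27) (.lf (nat_lit 3221635129) (dlOf (nat_lit 2) (nat_lit 0x2040006a7818170000))) 
(.lf (nat_lit 1208369209) (dlOf (nat_lit 1) (nat_lit 0x1000280d0c81))))) (.nd (nat_lit 27) 
(.lf (nat_lit 1946566713) (dlOf (nat_lit 1) (nat_lit 0x100080004002000200080c1303))) 
(.nd (nat_lit 29) 
(.lf (nat_lit 2617655353) (dlOf (nat_lit 2) (nat_lit 0x7402c000500680059410002800800ac00200160008130d83))) 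
(.lf (nat_lit 3154526265) (dlOf (nat_lit 2) (nat_lit 0x12038000168181f0880))))))) (.nd (nat_lit 21) 
(.nd (nat_lit 10) (.nd (nat_lit 9) (.nd (nat_lit 26) 
(.lf (nat_lit 3758244089) (dlOf (nat_lit 1) (nat_lit 0x3c0028117001))) 
(.lf (nat_lit 738345209) (dlOf (nat_lit 2) (nat_lit 0x1280d4002b004005000400220008090a82)))) 
(.lf (nat_lit 2617393913) (dlOf (nat_lit 1) (nat_lit 0x400180a2101)))) (.nd (nat_lit 6) 
(.lf (nat_lit 1880245433) (dlOf (nat_lit 1) (nat_lit 0x20028802c81))) 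
(.lf (nat_lit 3355596025) (dlOf (nat_lit 1) (nat_lit 0x880080020002001e00080a9503))))) 
(.nd (nat_lit 6) (.nd (nat_lit 10) 
(.lf (nat_lit 3293369) (dlOf (nat_lit 1) (nat_lit 0x20028200381))) (.nd (nat_lit 22) 
(.lf (nat_lit 35800249) (dlOf (nat_lit 1) (nat_lit 0x78008001c00200060009012c83))) 
(.lf (nat_lit 48383161) (dlOf (nat_lit 7) (nat_lit 0xc00000004402011680c000208100f8440010ca0300007c080118e82001670900350000000dc1801e1d04001ce1200040000001b03002a000000000080860008006800200120009402c83))))) 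
(.nd (nat_lit 12) (.lf (nat_lit 20070649) (dlOf (nat_lit 1) (nat_lit 0x4002000200089d0a82))) 
(.lf (nat_lit 20074745) (dlOf (nat_lit 1) (nat_lit 0xc00289d8081))))))) (.nd (nat_lit 27) 
(.nd (nat_lit 18) (.nd (nat_lit 20) (.nd (nat_lit 6) (.nd (nat_lit 26) 
(.lf (nat_lit 3221897273) (dlOf (nat_lit 2) (nat_lit 0x4e046004c88181b0780))) 
(.lf (nat_lit 67780665) (dlOf (nat_lit 1) (nat_lit 0x4002000200082e1102)))) (.nd (nat_lit 9) 
(.lf (nat_lit 51003513) (dlOf (nat_lit 1) (nat_lit 0x100080004002000200094e2a03))) 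
(.lf (nat_lit 46811769) (dlOf (nat_lit 2) (nat_lit 0x919e40002004003000200060009385402))))) 
(.nd (nat_lit 9) (.nd (nat_lit 23) 
(.lf (nat_lit 4095361081) (dlOf (nat_lit 1) (nat_lit 0xc002000800080a1402))) 
(.lf (nat_lit 10108985) (dlOf (nat_lit 2) (nat_lit 0xf8c60005d02000800085b0681)))) 
(.lf (nat_lit 33180217) (dlOf (nat_lit 1) (nat_lit 0x400400020008f55202))))) (.nd (nat_lit 7) 
(.nd (nat_lit 23) (.lf (nat_lit 21905465) (dlOf (nat_lit 1) (nat_lit 0x400400020008a80d02))) 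
(.lf (nat_lit 13516857) (dlOf (nat_lit 1) (nat_lit 0x4002000a0008730b82)))) (.nd (nat_lit 6) 
(.nd (nat_lit 9) 
(.lf (nat_lit 3493740729) (dlOf (nat_lit 1) (nat_lit 0x80080004002000200081b0383))) 
(.lf (nat_lit 19813049) (dlOf (nat_lit 1) (nat_lit 0x200289d8c81)))) 
(.lf (nat_lit 19815161) (dlOf (nat_lit 1) (nat_lit 0x200289db981)))))) (.nd (nat_lit 26) 
(.nd (nat_lit 6) (.nd (nat_lit 28) 
(.lf (nat_lit 134889529) (dlOf (nat_lit 2) (nat_lit 0x3401880074408004000800d0002004a00080d0b83))) 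
(.lf (nat_lit 5772034105) (dlOf (nat_lit 1) (nat_lit 0x20018051401)))) 
(.lf (nat_lit 5772297465) (dlOf (nat_lit 1) (nat_lit 0x60018092e81)))) (.nd (nat_lit 28) 
(.nd (nat_lit 29) 
(.lf (nat_lit 201998393) (dlOf (nat_lit 2) (nat_lit 0x3401880074408004000800d0002004a00080d0b83))) 
(.lf (nat_lit 3960094777) (dlOf (nat_lit 2) (nat_lit 0x4046004918181b0780)))) (.nd (nat_lit 30) 
(.lf (nat_lit 3154788409) (dlOf (nat_lit 2) (nat_lit 0x1c056000000200220018321101))) 
(.lf (nat_lit 6376013881) (dlOf (nat_lit 1) (nat_lit 0x20018051401)))))))) (.nd (nat_lit 30) 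
(.nd (nat_lit 6) (.nd (nat_lit 9) (.nd (nat_lit 11) (.nd (nat_lit 18) (.nd (nat_lit 29) 
(.lf (nat_lit 469909817) (dlOf (nat_lit 1) (nat_lit 0x3c00400140008014c02))) 
(.lf (nat_lit 3154264377) (dlOf (nat_lit 1) (nat_lit 0x20018147b01)))) 
(.lf (nat_lit 2752397625) (dlOf (nat_lit 9) (nat_lit 0x887e8015500401683f400a3f0200b41fa004e10100130fd0026a40800987e8013480400043f4009a102007c1fa004cd0100270fd00260008016000800bc00200a20008014c03)))) 
(.nd (nat_lit 7) (.lf (nat_lit 6442604857) (dlOf (nat_lit 1) (nat_lit 0x1000180fab81))) 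
(.lf (nat_lit 54675897) (dlOf (nat_lit 1) (nat_lit 0x80019654e81))))) (.nd (nat_lit 7) 
(.nd (nat_lit 10) (.lf (nat_lit 20073273) (dlOf (nat_lit 1) (nat_lit 0x4002000200089d5c02))) 
(.nd (nat_lit 12) (.lf (nat_lit 149305) (dlOf (nat_lit 1) (nat_lit 0x20008003e01))) 
(.lf (nat_lit 20076345) (dlOf (nat_lit 1) (nat_lit 0x4002002a00089da102))))) (.nd (nat_lit 11) 
(.lf (nat_lit 19809209) (dlOf (nat_lit 1) (nat_lit 0xe00289d2701))) 
(.lf (nat_lit 154553) (dlOf (nat_lit 1) (nat_lit 0x2001800be01)))))) (.nd (nat_lit 19) 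
(.nd (nat_lit 26) (.nd (nat_lit 7) 
(.lf (nat_lit 134627705) (dlOf (nat_lit 1) (nat_lit 0x8008000c00200060008090783))) 
(.lf (nat_lit 21381625) (dlOf (nat_lit 7) (nat_lit 0xe6c2802944080073614005000000a5004000ad85005278100166c8000180000148a08009c00000a3c0200100000051d818a37800)))) 
(.nd (nat_lit 10) (.lf (nat_lit 469910009) (dlOf (nat_lit 1) (nat_lit 0x60008017e01))) 
(.lf (nat_lit 2755022329) (dlOf (nat_lit 1) (nat_lit 0x800080f6f81))))) (.nd (nat_lit 7) 
(.nd (nat_lit 11) 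
(.lf (nat_lit 8275321) (dlOf (nat_lit 2) (nat_lit 0x136120009aff0004b9180024ae400224c20002c0a00340028513501))) 
(.lf (nat_lit 19815801) (dlOf (nat_lit 1) (nat_lit 0x200189dc901)))) (.nd (nat_lit 9) 
(.lf (nat_lit 2752397817) (dlOf (nat_lit 11) (nat_lit 0x414248009b1230000bc1010a092002a048c0002d040158248000158100aa1240000a80808a0920000500403704900002602002a24c003610800278810003c40207741f8001b0fa003d87880020360004216900bb0af80de856405902a4001214d016f09d001084d4000483c00e047e004a21400c610800d38810028c40207e61f801a80fb006e07d006a03c4009c1e000200da800c86cc00c0360000a1a000d70b4808f857c09f82b2051015701a70a900050534069c2740350135001309700090490003423c007a115000111a000a108001d8810001840207761f800e70f1001c05a401882be039a15901180a900b684e80004028001047e0022214000c108003a081000e040207e61f8017c0fb002387d0043c3c400461b500170d9800906c0001035800021a000f40b48009857c06ec2b200e415801520a900d384e80020248000a11e00c9000000074b80ff0008070c0020f2c0008017e03)))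 
(.lf (nat_lit 38421497) (dlOf (nat_lit 1) (nat_lit 0x20019132881))))))) (.nd (nat_lit 27) 
(.nd (nat_lit 10) (.nd (nat_lit 6) (.nd (nat_lit 18) 
(.lf (nat_lit 1342325049) (dlOf (nat_lit 1) (nat_lit 0x3c00400140008014c02))) 
(.lf (nat_lit 3490595129) (dlOf (nat_lit 9) (nat_lit 0x887a000a260401683d0004aa0200b41e8002168100130f40010600800987a0008180400043d00040702007c1e8002010100270f4000f9808016000800bc00200a20008014c03)))) 
(.nd (nat_lit 7) 
(.lf (nat_lit 1345210745) (dlOf (nat_lit 2) (nat_lit 0x30b280540c080028008002400200100008b04e83))) 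
(.nd (nat_lit 9) 
(.lf (nat_lit 3490595321) (dlOf (nat_lit 7) (nat_lit 0x1446000a510200102300052801005611800293c0801608c00148c0400b846000a4502009e2300051d818017800))) 
(.lf (nat_lit 5972837369) (dlOf (nat_lit 1) (nat_lit 0x40018142881)))))) (.nd (nat_lit 11) 
(.nd (nat_lit 7) 
(.lf (nat_lit 1610761593) (dlOf (nat_lit 1) (nat_lit 0x8008000800200020008093503))) 
(.lf (nat_lit 1610761721) (dlOf (nat_lit 1) (nat_lit 0x400200020008093682)))) (.nd (nat_lit 6) 
(.lf (nat_lit 3221376313) (dlOf (nat_lit 1) (nat_lit 0x40008116901))) 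
(.lf (nat_lit 3221380473) (dlOf (nat_lit 5) (nat_lit 0x405e0066402000202f0032e8100070178019700800680bc00b100400040020008000811c902)))))) 
(.nd (nat_lit 9) (.nd (nat_lit 11) (.nd (nat_lit 28) 
(.lf (nat_lit 3959832953) (dlOf (nat_lit 1) (nat_lit 0x20018170781))) 
(.lf (nat_lit 4228268409) (dlOf (nat_lit 11) (nat_lit 0x258100000c058008a004009e040000a01600227c1002c0100002c0580089c04001402c0044c81004b020000500b00112e08002008000894020096040000a01600224810025810000280580088f040094040000a0160022241002c810000fe20400dc002004e0008090782)))) 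
(.nd (nat_lit 6) (.lf (nat_lit 3959572793) (dlOf (nat_lit 2) (nat_lit 0xfe0510000e818114c00))) 
(.lf (nat_lit 1543654905) (dlOf (nat_lit 4) (nat_lit 0x180680002c04001804a00040220000a02000100d0000100801100080038002003c0008146f83))))) 
(.nd (nat_lit 7) (.nd (nat_lit 10) 
(.lf (nat_lit 3355595641) (dlOf (nat_lit 1) (nat_lit 0x400080a8f81))) 
(.lf (nat_lit 3959572345) (dlOf (nat_lit 2) (nat_lit 0x1602f00007818114080)))) (.nd (nat_lit 26) 
(.lf (nat_lit 1476805625) (dlOf (nat_lit 1) (nat_lit 0x20018202881))) 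
(.lf (nat_lit 6375752697) (dlOf (nat_lit 2) (nat_lit 0x680a000fde04006400400260018002882))))))))))))

end

end Pool.Agent.Lib.MP_5854e1_co.Cz

namespace Pool.Agent.Lib.MP_5854e1_co.Cz

noncomputable section

noncomputable def tz71 : DT := (.nd (nat_lit 5) (.nd (nat_lit 3) (.nd (nat_lit 17) 
(.nd (nat_lit 28) (.nd (nat_lit 19) (.nd (nat_lit 18) (.nd (nat_lit 26) (.nd (nat_lit 6) 
(.nd (nat_lit 23) (.nd (nat_lit 7) (.nd (nat_lit 9) 
(.lf (nat_lit 36783377) (dlOf (nat_lit 1) (nat_lit 0x8008000400200020009073003))) 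
(.lf (nat_lit 536954641) (dlOf (nat_lit 2) (nat_lit 0x1202a00008c080138008004000200160008003c03)))) 
(.lf (nat_lit 5905662097) (dlOf (nat_lit 3) (nat_lit 0x890000001180800d00000008a040020002000200080b0182)))) 
(.nd (nat_lit 7) (.nd (nat_lit 8) 
(.lf (nat_lit 47267857) (dlOf (nat_lit 1) (nat_lit 0x3800802c8002014200093c0003))) 
(.lf (nat_lit 10567953) (dlOf (nat_lit 1) (nat_lit 0x200085f7d01)))) 
(.lf (nat_lit 46222225) (dlOf (nat_lit 1) (nat_lit 0x100029385c81))))) (.nd (nat_lit 8) 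
(.nd (nat_lit 10) 
(.lf (nat_lit 16859217) (dlOf (nat_lit 2) (nat_lit 0xfc6a000cdf60001601000480080004002006000088e0203))) 
(.lf (nat_lit 2818655313) (dlOf (nat_lit 1) (nat_lit 0x6000201b800080d2882)))) (.nd (nat_lit 7) 
(.lf (nat_lit 5905662289) (dlOf (nat_lit 3) (nat_lit 0x800000053020002000000098180b0680))) 
(.lf (nat_lit 48318929) (dlOf (nat_lit 1) (nat_lit 0x100019404e81)))))) (.nd (nat_lit 8) 
(.nd (nat_lit 7) (.nd (nat_lit 10) (.nd (nat_lit 27) 
(.lf (nat_lit 3825287697) (dlOf (nat_lit 2) (nat_lit 0x23007400640320000004000200280b0d81))) 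
(.lf (nat_lit 2348892689) (dlOf (nat_lit 1) (nat_lit 0x20008000c00200040008018403)))) 
(.lf (nat_lit 4496377361) (dlOf (nat_lit 2) (nat_lit 0x601c00000018053700)))) (.nd (nat_lit 29) 
(.lf (nat_lit 6509641873) (dlOf (nat_lit 3) (nat_lit 0x890000001180800d00000008a040020002000200080b0182))) 
(.lf (nat_lit 1677803665) (dlOf (nat_lit 2) (nat_lit 0xc0130004806a0000a0400080028090181))))) 
(.nd (nat_lit 27) (.nd (nat_lit 29) 
(.lf (nat_lit 6509642065) (dlOf (nat_lit 3) (nat_lit 0x800000053020002000000098180b0680))) 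
(.nd (nat_lit 30) (.lf (nat_lit 604062033) (dlOf (nat_lit 1) (nat_lit 0x1400200120008010802))) 
(.lf (nat_lit 1677803857) (dlOf (nat_lit 2) (nat_lit 0x40380002013000028100030008000400200060008090683))))) 
(.nd (nat_lit 6) (.lf (nat_lit 201410321) (dlOf (nat_lit 1) (nat_lit 0x20028003c01))) 
(.lf (nat_lit 2348892497) (dlOf (nat_lit 1) (nat_lit 0x10008005000200140008014d83))))))) 
(.nd (nat_lit 7) (.nd (nat_lit 26) (.nd (nat_lit 20) (.nd (nat_lit 21) (.nd (nat_lit 27) 
(.lf (nat_lit 3221569553) (dlOf (nat_lit 1) (nat_lit 0x20018140481))) 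
(.lf (nat_lit 1208303633) (dlOf (nat_lit 1) (nat_lit 0x200280c0001)))) 
(.lf (nat_lit 2441233) (dlOf (nat_lit 1) (nat_lit 0x1800200320008160682)))) (.nd (nat_lit 9) 
(.lf (nat_lit 9781265) (dlOf (nat_lit 1) (nat_lit 0x8008000400200020008580003))) 
(.lf (nat_lit 41239057) (dlOf (nat_lit 1) (nat_lit 0x400400020009227c02))))) (.nd (nat_lit 27) 
(.nd (nat_lit 29) 
(.lf (nat_lit 4362420241) (dlOf (nat_lit 2) (nat_lit 0x600cc0000004004000400760008070502))) 
(.lf (nat_lit 604323857) (dlOf (nat_lit 2) (nat_lit 0x40000005f0200560018160201)))) 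
(.nd (nat_lit 29) (.nd (nat_lit 30) 
(.lf (nat_lit 2349154321) (dlOf (nat_lit 4) (nat_lit 0x60004400043020032022000208102500110000ec08043000807f0002008800080e0103))) 
(.lf (nat_lit 5570379793) (dlOf (nat_lit 1) (nat_lit 0x400200020008110002)))) 
(.lf (nat_lit 3959767057) (dlOf (nat_lit 1) (nat_lit 0x20018140481)))))) (.nd (nat_lit 6) 
(.nd (nat_lit 8) (.nd (nat_lit 10) 
(.lf (nat_lit 1074086033) (dlOf (nat_lit 2) (nat_lit 0x100980005e04000400200040008090182))) 
(.lf (nat_lit 61162641) (dlOf (nat_lit 1) (nat_lit 0x1400198c2b81)))) 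
(.lf (nat_lit 45435281) (dlOf (nat_lit 2) (nat_lit 0x118e31005db819324e80)))) (.nd (nat_lit 23) 
(.lf (nat_lit 2818916561) (dlOf (nat_lit 1) (nat_lit 0x8008000400200020008130483))) 
(.lf (nat_lit 25510097) (dlOf (nat_lit 2) (nat_lit 0x660a8000acb00000008001400400020008c10482))))))) 
(.nd (nat_lit 6) (.nd (nat_lit 18) (.nd (nat_lit 20) (.nd (nat_lit 24) (.nd (nat_lit 26) 
(.lf (nat_lit 2819178513) (dlOf (nat_lit 1) (nat_lit 0x50008003c002000a00081d0203))) 
(.lf (nat_lit 201932817) (dlOf (nat_lit 1) (nat_lit 0x120004005000180c0982)))) (.nd (nat_lit 21) 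
(.lf (nat_lit 21577745) (dlOf (nat_lit 1) (nat_lit 0x400200020008a50202))) 
(.lf (nat_lit 27869201) (dlOf (nat_lit 15) (nat_lit 0x95730000a008002ab980004c0400215cc0018a15000650600007418000ab98003d42a0026a0c0000d03000457300042b50004942a00019060006ae6000356a0006285400194180001808000cae6000456a000a2854002541800014080010ae6001850a80004010004ab98005942a0024a0c0000683000750a800030080012b98000542a001ca0c0000283000357300000c08004ab98000542a0000204000cae6001450a800000100108008007c00200020008d30303))))) 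
(.nd (nat_lit 7) 
(.lf (nat_lit 16334865) (dlOf (nat_lit 15) (nat_lit 0x20ad60002802000e56b000130100052b580007c0800595ac00048ec0001d04000e56b000823b0000701000415ac002c8ec0001b0400204760000c0100082b5800591d800028080030ad60001002001856b000070100072b5800791d80000a080010ad600164760000182000c2b58000080800495ac0000004002c00200200008890302))) 
(.nd (nat_lit 8) (.lf (nat_lit 43598993) (dlOf (nat_lit 1) (nat_lit 0x5a00192a2b81))) 
(.lf (nat_lit 43598225) (dlOf (nat_lit 1) (nat_lit 0xd00080058002000200092a1003)))))) 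
(.nd (nat_lit 20) (.nd (nat_lit 7) (.nd (nat_lit 10) 
(.lf (nat_lit 21839889) (dlOf (nat_lit 1) (nat_lit 0x40028a70481))) 
(.lf (nat_lit 61686801) (dlOf (nat_lit 1) (nat_lit 0x6c00400040009922882)))) 
(.lf (nat_lit 61686161) (dlOf (nat_lit 1) (nat_lit 0x120029921001)))) (.nd (nat_lit 21) 
(.lf (nat_lit 14499857) (dlOf (nat_lit 1) (nat_lit 0x1800400040018760302))) (.nd (nat_lit 22) 
(.lf (nat_lit 2755477521) (dlOf (nat_lit 1) (nat_lit 0xa00281a0301))) 
(.lf (nat_lit 16597009) (dlOf (nat_lit 1) (nat_lit 0xa00088c0681))))))) (.nd (nat_lit 21) 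
(.nd (nat_lit 27) (.nd (nat_lit 7) (.nd (nat_lit 18) 
(.lf (nat_lit 42549329) (dlOf (nat_lit 1) (nat_lit 0x120019260701))) 
(.lf (nat_lit 13451345) (dlOf (nat_lit 1) (nat_lit 0x10008001400200040008721903)))) 
(.lf (nat_lit 50938321) (dlOf (nat_lit 1) (nat_lit 0x200194d7b01)))) (.nd (nat_lit 26) 
(.lf (nat_lit 134824017) (dlOf (nat_lit 1) (nat_lit 0x8004000200180c1602))) (.nd (nat_lit 29) 
(.lf (nat_lit 201932881) (dlOf (nat_lit 1) (nat_lit 0xc0008004c002002c00080c1903))) 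
(.lf (nat_lit 3960029265) (dlOf (nat_lit 4) (nat_lit 0x3d0054020602300f3010c087008003ca0380001505000f021800181000004e08000808c0002402006800281a1901)))))) 
(.nd (nat_lit 7) (.nd (nat_lit 22) (.nd (nat_lit 18) 
(.lf (nat_lit 2754166865) (dlOf (nat_lit 2) (nat_lit 0x6c4220002a02000600180c1901))) 
(.lf (nat_lit 53297233) (dlOf (nat_lit 1) (nat_lit 0x1860009581701)))) (.nd (nat_lit 8) 
(.lf (nat_lit 32066129) (dlOf (nat_lit 1) (nat_lit 0x4000400060018ef5282))) 
(.lf (nat_lit 57230673) (dlOf (nat_lit 2) (nat_lit 0x75d850028da5801432d4000540c001c00400060009793302))))) 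
(.nd (nat_lit 8) (.lf (nat_lit 8213201) (dlOf (nat_lit 1) (nat_lit 0x400200020008518c82))) 
(.nd (nat_lit 18) 
(.lf (nat_lit 57231825) (dlOf (nat_lit 1) (nat_lit 0x10008000c00200080009794e83))) 
(.lf (nat_lit 36522449) (dlOf (nat_lit 1) (nat_lit 0x20019074e81))))))))) (.nd (nat_lit 26) 
(.nd (nat_lit 6) (.nd (nat_lit 7) (.nd (nat_lit 20) (.nd (nat_lit 8) (.nd (nat_lit 29) 
(.lf (nat_lit 5637488657) (dlOf (nat_lit 1) (nat_lit 0x1180080120002009c00080f0003))) 
(.lf (nat_lit 6174359569) (dlOf (nat_lit 1) (nat_lit 0x400200020008110002)))) 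
(.lf (nat_lit 4563487505) (dlOf (nat_lit 1) (nat_lit 0x200008095b81)))) (.nd (nat_lit 18) 
(.lf (nat_lit 1343307793) (dlOf (nat_lit 5) (nat_lit 0xd425e0065102024612f003110100200978018480800900a80035e040014004004e00081e0482))) 
(.nd (nat_lit 19) (.lf (nat_lit 1343569937) (dlOf (nat_lit 1) (nat_lit 0x10004006c0018290302))) 
(.lf (nat_lit 1346191377) (dlOf (nat_lit 1) (nat_lit 0x1800200100008e60002)))))) (.nd (nat_lit 32) 
(.nd (nat_lit 10) 
(.lf (nat_lit 805388433) (dlOf (nat_lit 2) (nat_lit 0xc0130004806a0000a0400080028090181))) 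
(.lf (nat_lit 268518545) (dlOf (nat_lit 1) (nat_lit 0x540028052b81)))) (.nd (nat_lit 9) 
(.nd (nat_lit 18) (.lf (nat_lit 4563484817) (dlOf (nat_lit 1) (nat_lit 0x400200420008090402))) 
(.lf (nat_lit 5637488785) (dlOf (nat_lit 1) (nat_lit 0x80080004002000200080f1083)))) 
(.lf (nat_lit 4563487377) (dlOf (nat_lit 1) (nat_lit 0x300080038002001c0008095503)))))) 
(.nd (nat_lit 10) (.nd (nat_lit 8) (.nd (nat_lit 18) (.nd (nat_lit 19) 
(.lf (nat_lit 1476477009) (dlOf (nat_lit 1) (nat_lit 0x20028010181))) 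
(.lf (nat_lit 1343832145) (dlOf (nat_lit 2) (nat_lit 0x7828e000000200040028370201)))) 
(.nd (nat_lit 19) (.lf (nat_lit 4026875985) (dlOf (nat_lit 1) (nat_lit 0x1c004001600080c1902))) 
(.lf (nat_lit 1346191441) (dlOf (nat_lit 2) (nat_lit 0x790af8041835c00000080008004000c0008e60702))))) 
(.nd (nat_lit 7) 
(.lf (nat_lit 805388625) (dlOf (nat_lit 2) (nat_lit 0x40380002013000028100030008000400200060008090683))) 
(.lf (nat_lit 1342261713) (dlOf (nat_lit 1) (nat_lit 0x10008000800200180008004e83))))) 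
(.nd (nat_lit 7) (.nd (nat_lit 8) (.nd (nat_lit 11) 
(.lf (nat_lit 268518993) (dlOf (nat_lit 1) (nat_lit 0x2400400020018053882))) 
(.lf (nat_lit 1342262865) (dlOf (nat_lit 2) (nat_lit 0x5c2470006f818007180)))) 
(.lf (nat_lit 1342262609) (dlOf (nat_lit 1) (nat_lit 0x4000200100008006a02)))) (.nd (nat_lit 8) 
(.lf (nat_lit 5100356817) (dlOf (nat_lit 1) (nat_lit 0x20018052d81))) 
(.lf (nat_lit 1342262737) (dlOf (nat_lit 1) (nat_lit 0x80008001400200360008006d03))))))) 
(.nd (nat_lit 29) (.nd (nat_lit 10) (.nd (nat_lit 27) (.nd (nat_lit 6) (.nd (nat_lit 9) 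
(.lf (nat_lit 2483372049) (dlOf (nat_lit 4) (nat_lit 0x60004400043020032022000208102500110000ec08043000807f0002008800080e0103))) 
(.lf (nat_lit 3556854289) (dlOf (nat_lit 1) (nat_lit 0x400280d5081)))) 
(.lf (nat_lit 2483110225) (dlOf (nat_lit 1) (nat_lit 0x320028014d01)))) (.nd (nat_lit 20) 
(.nd (nat_lit 6) (.lf (nat_lit 474562577) (dlOf (nat_lit 1) (nat_lit 0x14004000200091a0002))) 
(.lf (nat_lit 2617328209) (dlOf (nat_lit 1) (nat_lit 0x8004000200180a1682)))) (.nd (nat_lit 7) 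
(.lf (nat_lit 471154705) (dlOf (nat_lit 1) (nat_lit 0x100080010002003200082a0203))) 
(.lf (nat_lit 472990097) (dlOf (nat_lit 1) (nat_lit 0x18008000400200120008bb1003)))))) 
(.nd (nat_lit 6) (.nd (nat_lit 7) (.nd (nat_lit 8) 
(.lf (nat_lit 474041361) (dlOf (nat_lit 1) (nat_lit 0x20029005f81))) 
(.lf (nat_lit 469849873) (dlOf (nat_lit 3) (nat_lit 0x111100129c0800388880094a040030004000c000800a002)))) 
(.lf (nat_lit 472990865) (dlOf (nat_lit 1) (nat_lit 0x20028bb2b81)))) (.nd (nat_lit 8) 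
(.lf (nat_lit 469849169) (dlOf (nat_lit 1) (nat_lit 0x74004003a0008009302))) 
(.lf (nat_lit 1409371473) (dlOf (nat_lit 3) (nat_lit 0xb005f0000801005e02f800038080040008016000200100008006a03)))))) 
(.nd (nat_lit 31) (.nd (nat_lit 7) (.nd (nat_lit 27) 
(.lf (nat_lit 6241468433) (dlOf (nat_lit 1) (nat_lit 0x1180080120002009c00080f0003))) 
(.lf (nat_lit 2080718865) (dlOf (nat_lit 1) (nat_lit 0x200280c0001)))) (.nd (nat_lit 6) 
(.nd (nat_lit 32) 
(.lf (nat_lit 1946501265) (dlOf (nat_lit 2) (nat_lit 0x100980005e04000400200040008090182))) 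
(.lf (nat_lit 6241468561) (dlOf (nat_lit 1) (nat_lit 0x80080004002000200080f1083)))) 
(.lf (nat_lit 1007765969) (dlOf (nat_lit 1) (nat_lit 0x3400287a4e81))))) (.nd (nat_lit 6) 
(.nd (nat_lit 27) (.lf (nat_lit 3020242961) (dlOf (nat_lit 1) (nat_lit 0x164002002400081a0482))) 
(.lf (nat_lit 4228202513) (dlOf (nat_lit 2) (nat_lit 0x600c80000004004000400760008070502)))) 
(.nd (nat_lit 7) (.nd (nat_lit 9) 
(.lf (nat_lit 3154460753) (dlOf (nat_lit 2) (nat_lit 0x8800000034040038002003e00081a0702))) 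
(.lf (nat_lit 4227944017) (dlOf (nat_lit 1) (nat_lit 0x100018007181)))) 
(.lf (nat_lit 4227943889) (dlOf (nat_lit 1) (nat_lit 0x10008015800200020008006d03))))))))) 
(.nd (nat_lit 19) (.nd (nat_lit 30) (.nd (nat_lit 29) (.nd (nat_lit 18) (.nd (nat_lit 8) 
(.nd (nat_lit 27) (.nd (nat_lit 7) (.nd (nat_lit 21) 
(.lf (nat_lit 25378833) (dlOf (nat_lit 4) (nat_lit 0xa091800108081e4848c0a600000004104005e162026e091808e8000000760c014000400e40018c00102))) 
(.lf (nat_lit 52641809) (dlOf (nat_lit 1) (nat_lit 0x80004001c0009560302)))) 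
(.lf (nat_lit 42157201) (dlOf (nat_lit 1) (nat_lit 0x20029242b81)))) (.nd (nat_lit 26) 
(.lf (nat_lit 134430737) (dlOf (nat_lit 1) (nat_lit 0x28008000800200040008020483))) 
(.nd (nat_lit 28) 
(.lf (nat_lit 201539601) (dlOf (nat_lit 1) (nat_lit 0x28008000800200040008020483))) 
(.lf (nat_lit 469975057) (dlOf (nat_lit 1) (nat_lit 0x2000400020008020482)))))) (.nd (nat_lit 11) 
(.nd (nat_lit 6) 
(.lf (nat_lit 4764943761) (dlOf (nat_lit 1) (nat_lit 0x10008000400200020008093603))) 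
(.nd (nat_lit 7) (.lf (nat_lit 9650513) (dlOf (nat_lit 1) (nat_lit 0x60008001800200060008574d83))) 
(.lf (nat_lit 1262033) (dlOf (nat_lit 1) (nat_lit 0x80080004002000200080a7103))))) (.nd (nat_lit 7) 
(.lf (nat_lit 20139345) (dlOf (nat_lit 1) (nat_lit 0x4002000200089d6a02))) (.nd (nat_lit 9) 
(.lf (nat_lit 54741457) (dlOf (nat_lit 1) (nat_lit 0x18008000c00200060009654e83))) 
(.lf (nat_lit 268651473) (dlOf (nat_lit 1) (nat_lit 0x180080008002000200080e5d83))))))) 
(.nd (nat_lit 20) (.nd (nat_lit 11) (.nd (nat_lit 21) 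
(.lf (nat_lit 470237201) (dlOf (nat_lit 1) (nat_lit 0x38008000c002000400080b0383))) 
(.lf (nat_lit 2572305) (dlOf (nat_lit 1) (nat_lit 0xc004000e0008170582)))) (.nd (nat_lit 6) 
(.lf (nat_lit 477201) (dlOf (nat_lit 1) (nat_lit 0x400400020008004702))) 
(.lf (nat_lit 477521) (dlOf (nat_lit 1) (nat_lit 0x4004000c0008004e02))))) (.nd (nat_lit 21) 
(.nd (nat_lit 7) (.lf (nat_lit 9912337) (dlOf (nat_lit 1) (nat_lit 0x2000200020008590182))) 
(.lf (nat_lit 47662225) (dlOf (nat_lit 3) (nat_lit 0x26a8e0008902001154700043019402b80)))) 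
(.nd (nat_lit 6) (.lf (nat_lit 16203793) (dlOf (nat_lit 1) (nat_lit 0x40028870301))) 
(.lf (nat_lit 41372241) (dlOf (nat_lit 1) (nat_lit 0xca0019245281))))))) (.nd (nat_lit 26) 
(.nd (nat_lit 8) (.nd (nat_lit 9) (.nd (nat_lit 27) 
(.lf (nat_lit 2953003025) (dlOf (nat_lit 13) (nat_lit 0x18803800ab402021801c000918100e600e0005806c00242080368038000601b0006e8200dd00e0004806c001ae08036c0380003902018e01c0001b8100d200e00009408068807000080360001c0401a801c000300d80005c1006300700002a0403d8038000401b002e00c0000001838f0008055800201b80008080483))) 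
(.lf (nat_lit 939737105) (dlOf (nat_lit 1) (nat_lit 0x1a000802e000200660008160483)))) 
(.lf (nat_lit 2818792977) (dlOf (nat_lit 2) (nat_lit 0x3980fc0002e0400d0002002a000812ce02)))) 
(.nd (nat_lit 6) (.nd (nat_lit 7) 
(.lf (nat_lit 671303441) (dlOf (nat_lit 2) (nat_lit 0xc807c0003a040010004000c0008143c02))) 
(.lf (nat_lit 2818789265) (dlOf (nat_lit 2) (nat_lit 0x203f00257018127780)))) 
(.lf (nat_lit 3087221073) (dlOf (nat_lit 2) (nat_lit 0x13007c0288036019001700b40000000a02000f00080008002000c0008154d83))))) 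
(.nd (nat_lit 18) (.nd (nat_lit 7) (.nd (nat_lit 20) 
(.lf (nat_lit 604192785) (dlOf (nat_lit 3) (nat_lit 0x40016000918100a800b00078054003800e00180060006000000000280358008073400200920008080483))) 
(.lf (nat_lit 2752725009) (dlOf (nat_lit 2) (nat_lit 0x61ff0075e018030880)))) (.nd (nat_lit 8) 
(.lf (nat_lit 2753773713) (dlOf (nat_lit 2) (nat_lit 0x1f10e000504000005e08000400400040018090182))) 
(.lf (nat_lit 2751678353) (dlOf (nat_lit 1) (nat_lit 0x400200020008004202))))) (.nd (nat_lit 6) 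
(.nd (nat_lit 20) 
(.lf (nat_lit 738672657) (dlOf (nat_lit 6) (nat_lit 0x1805a000c02b800100bc003000a00d5208001005a000802b800d00bc01aa20c00140b40014057000b0178004801401aa010002c0b4000c057000b00280353c18000815c01a7e040004002000a00080d0002))) 
(.lf (nat_lit 2752987153) (dlOf (nat_lit 2) (nat_lit 0x702e40026b0200040008070501)))) 
(.lf (nat_lit 738672721) (dlOf (nat_lit 19) (nat_lit 0xb01f000200f4000f00801b80b0006c057003002b002a814402d00a0011a04a004e02480230120011808c003e045004a0220022010803840820006040002c01c005a00cc0c0c064003a031000a016800d00b0006c052000c0260012012000b0080029003800be017004300b0049803400040120174006006500180528008000928001880b0005c057002802b0020014402f00a0010e04a004702480238120008c08c00540450040022007581040150080004003800a7019817e00c8008006200460300010016800f00b0006c052003a0240016010004b8070018c02e007e016009800680550018015800601360020025000000120f807201040008e0400940c0010a058006402b8029815801ac0a201b8050001c027805f012803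84092007c0480013023003081140194088005a042012402080448100012c07001ce03302af019005580c40178060002c02d0061016011f00a800c00520012026005a012000b008002c80380148017009400b0062003400a80120198006007d00180598008004c002012a0000002326002302080011008028016000580ae002a041004b00180010c200b081580960082041604001b40180000fc2000d81040007a0400540ac017802a00dd0048000ec1804100a802980120003a0401d802a00b30048000e01000100240006e040444082018602a00190048000d0180188104000807e00021040022048000401a800800c0000400c0330082000203f0000e02001202080006008b9d0008160c00200c800080d0503))))))) 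
(.nd (nat_lit 31) (.nd (nat_lit 27) (.nd (nat_lit 6) (.nd (nat_lit 8) (.nd (nat_lit 18) 
(.lf (nat_lit 1342390289) (dlOf (nat_lit 1) (nat_lit 0x2000400020008020482))) 
(.lf (nat_lit 1611087889) (dlOf (nat_lit 6) (nat_lit 0x1805a000c02b800100bc003000a007d708001005a000802b800d00bc00fac0c00140b40014057000b0178004801400faa10002c0b4000c057000b002801f5018000815c00f56040004002000a00080d0002)))) 
(.lf (nat_lit 1344488721) (dlOf (nat_lit 1) (nat_lit 0x20028803001)))) (.nd (nat_lit 9) 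
(.lf (nat_lit 1611087953) (dlOf (nat_lit 19) (nat_lit 0xb01f000200f4000f00801b80b0006c057003002b002a814402d00a0011a04a004e02480230120011808c003e045004a0220022010803840820006040002c01c005a00cc0c0c064003a031000a016800d00b0006c052000c0260012012000b0080029003800be017004300b00498034000401201740060065001805280080008c8001880b0005c057002802b0020014402f00a0010e04a004702480238120008c08c00540450040022007581040150080004003800a7019817e00c8008006200460300010016800f00b0006c052003a0240016010004b8070018c02e007e016009800680550018015800601360020025000000114f80720104000880400940c0010a058006402b8029815801ac0a201b8050001c027805f01280384092007c0480013023003081140194088005a042012402080448100012c07001ce03302af019005580c40178060002c02d0061016011f00a800c00520012026005a012000b008002c80380148017009400b0062003400a80120198006007d00180598008004c002012a00000021a6002302080010408028016000580ae002a041004b001800100200b081580960082041604001b40180000fc2000d81040007a0400540ac017802a00dd0048000e41804100a80298012000380401d802a00b30048000d81000100240006a040444082018602a00190048000d0180188104000807e00021040022048000401a800800c0000400c0330082000203f0000e02001202080006008b9d0008160c00200c800080d0503)))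 
(.lf (nat_lit 1610827345) (dlOf (nat_lit 1) (nat_lit 0x400200020008093882))))) (.nd (nat_lit 11) 
(.nd (nat_lit 28) (.nd (nat_lit 6) 
(.lf (nat_lit 1812152337) (dlOf (nat_lit 1) (nat_lit 0x1a000802e000200660008160483))) 
(.lf (nat_lit 5503139921) (dlOf (nat_lit 1) (nat_lit 0x180018090001)))) (.nd (nat_lit 7) 
(.lf (nat_lit 1476608017) (dlOf (nat_lit 3) (nat_lit 0x240088006bc08022005c00dc02c000e01100330000000002000500080004002005600080a0483))) 
(.lf (nat_lit 5772886417) (dlOf (nat_lit 1) (nat_lit 0x8008000400200020008091003))))) 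
(.nd (nat_lit 6) (.nd (nat_lit 9) 
(.lf (nat_lit 5771578385) (dlOf (nat_lit 1) (nat_lit 0x400200020008005f82))) 
(.lf (nat_lit 1476872721) (dlOf (nat_lit 1) (nat_lit 0x200082d5081)))) 
(.lf (nat_lit 1543720401) (dlOf (nat_lit 1) (nat_lit 0x2000200100008146d02)))))) (.nd (nat_lit 6) 
(.nd (nat_lit 20) (.nd (nat_lit 7) (.nd (nat_lit 9) 
(.lf (nat_lit 3691200529) (dlOf (nat_lit 8) (nat_lit 0x802a000700e803f00100214006001af0800d4004006f0018006b41002e801001a00060016e0400cc004006c0018005a010031001001a8006000110400b800400660018000381003880b001a4054000e0220062002002e800c00000140048002006800080a0482))) 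
(.lf (nat_lit 3288547857) (dlOf (nat_lit 1) (nat_lit 0x1ac00200ba0008090d82)))) 
(.lf (nat_lit 4160968337) (dlOf (nat_lit 5) (nat_lit 0x1c056001a01b0000d82000f015800b006c0003008000c056001001a0000a820004015800500680002208003c004005200180a9e82)))) 
(.nd (nat_lit 7) (.nd (nat_lit 18) 
(.lf (nat_lit 3490922513) (dlOf (nat_lit 2) (nat_lit 0x61ed0044b818030880))) 
(.lf (nat_lit 3491184657) (dlOf (nat_lit 2) (nat_lit 0x702e4002790200040008070501)))) 
(.lf (nat_lit 3493282193) (dlOf (nat_lit 1) (nat_lit 0x20028106181))))) (.nd (nat_lit 10) 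
(.nd (nat_lit 7) (.lf (nat_lit 3493282129) (dlOf (nat_lit 1) (nat_lit 0x20028104d81))) 
(.nd (nat_lit 26) (.lf (nat_lit 4026745297) (dlOf (nat_lit 1) (nat_lit 0x2800400660008090a02))) 
(.lf (nat_lit 3288547793) (dlOf (nat_lit 1) (nat_lit 0x2800400660008090a02))))) (.nd (nat_lit 8) 
(.lf (nat_lit 3758314577) (dlOf (nat_lit 1) (nat_lit 0x30008000800200080008129303))) 
(.nd (nat_lit 9) 
(.lf (nat_lit 3490139473) (dlOf (nat_lit 3) (nat_lit 0x1d0458000400801d822c0001c040060002000c0008006a02))) 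
(.lf (nat_lit 3556986705) (dlOf (nat_lit 1) (nat_lit 0xc0018127781))))))))) (.nd (nat_lit 6) 
(.nd (nat_lit 21) (.nd (nat_lit 20) (.nd (nat_lit 26) (.nd (nat_lit 22) (.nd (nat_lit 27) 
(.lf (nat_lit 537608209) (dlOf (nat_lit 3) (nat_lit 0x1a815000cc00001daa04005c054002d0000076a01000c80080010002003800080d0883))) 
(.lf (nat_lit 2819309585) (dlOf (nat_lit 1) (nat_lit 0x400400060018230402)))) (.nd (nat_lit 18) 
(.lf (nat_lit 21708817) (dlOf (nat_lit 1) (nat_lit 0x70008006400200020008a60a03))) 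
(.lf (nat_lit 13582353) (dlOf (nat_lit 3) (nat_lit 0x17c6200ed3010001dea807690080018008000800200040008730883))))) 
(.nd (nat_lit 9) (.nd (nat_lit 27) 
(.lf (nat_lit 1410023441) (dlOf (nat_lit 3) (nat_lit 0x1a815000cc00001a4504005c054002d00000690c1000c80080010002003800080d0883))) 
(.lf (nat_lit 3154853905) (dlOf (nat_lit 2) (nat_lit 0x10058000280400a4004000e0008350302)))) 
(.lf (nat_lit 4362817041) (dlOf (nat_lit 1) (nat_lit 0x400200140008117082))))) (.nd (nat_lit 10) 
(.nd (nat_lit 7) (.lf (nat_lit 18563089) (dlOf (nat_lit 1) (nat_lit 0x40004000e0018950682))) 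
(.lf (nat_lit 3491709073) (dlOf (nat_lit 2) (nat_lit 0x201038000bc0800180080014002001a0008090183)))) 
(.nd (nat_lit 8) (.lf (nat_lit 56312849) (dlOf (nat_lit 1) (nat_lit 0x20009732881))) 
(.lf (nat_lit 52118801) (dlOf (nat_lit 1) (nat_lit 0x20029513001)))))) (.nd (nat_lit 20) 
(.nd (nat_lit 18) (.nd (nat_lit 22) (.nd (nat_lit 23) 
(.lf (nat_lit 2834449) (dlOf (nat_lit 1) (nat_lit 0x200281c0881))) 
(.lf (nat_lit 11223057) (dlOf (nat_lit 2) (nat_lit 0x6158400070040004004001a0008670182)))) 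
(.lf (nat_lit 15417361) (dlOf (nat_lit 1) (nat_lit 0x200287f0201)))) (.nd (nat_lit 8) 
(.lf (nat_lit 36652049) (dlOf (nat_lit 1) (nat_lit 0x8008000400200040009072883))) 
(.lf (nat_lit 7291153) (dlOf (nat_lit 1) (nat_lit 0x4400284b0701))))) (.nd (nat_lit 7) 
(.nd (nat_lit 31) (.nd (nat_lit 8) 
(.lf (nat_lit 12533777) (dlOf (nat_lit 1) (nat_lit 0x280080004002000200086d0683))) 
(.lf (nat_lit 20666129) (dlOf (nat_lit 1) (nat_lit 0x300080008002000600089da003)))) 
(.nd (nat_lit 26) 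
(.lf (nat_lit 3493543953) (dlOf (nat_lit 1) (nat_lit 0x28008000c00200020008160283))) 
(.lf (nat_lit 2755346449) (dlOf (nat_lit 1) (nat_lit 0x28008000c00200020008160283))))) 
(.nd (nat_lit 8) 
(.lf (nat_lit 41632913) (dlOf (nat_lit 1) (nat_lit 0x1c0008000400200020009242b83))) 
(.lf (nat_lit 37439889) (dlOf (nat_lit 1) (nat_lit 0x400190d4e81))))))) (.nd (nat_lit 18) 
(.nd (nat_lit 7) (.nd (nat_lit 20) (.nd (nat_lit 21) (.nd (nat_lit 26) 
(.lf (nat_lit 537608273) (dlOf (nat_lit 2) (nat_lit 0x1005400080228000a4100148008005c002004800080d0d83))) 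
(.lf (nat_lit 1410023505) (dlOf (nat_lit 2) (nat_lit 0x1005400080210000a4100148008005c002004800080d0d83)))) 
(.lf (nat_lit 7028817) (dlOf (nat_lit 2) (nat_lit 0xcbf70001f8184b0200)))) (.nd (nat_lit 22) 
(.lf (nat_lit 10174545) (dlOf (nat_lit 1) (nat_lit 0x800085b0901))) 
(.lf (nat_lit 5980241) (dlOf (nat_lit 2) (nat_lit 0xc6620001f818420200))))) (.nd (nat_lit 8) 
(.lf (nat_lit 9126097) (dlOf (nat_lit 1) (nat_lit 0x60018523c01))) 
(.lf (nat_lit 1611350481) (dlOf (nat_lit 4) (nat_lit 0x10068000703300030000004500c00280d00010066000201f800400000043810001c0d0000c06600060000008601803c0008005000200360008137b03))))) 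
(.nd (nat_lit 23) (.nd (nat_lit 8) (.nd (nat_lit 26) 
(.lf (nat_lit 1343176785) (dlOf (nat_lit 1) (nat_lit 0xe400200320008190702))) 
(.lf (nat_lit 470761553) (dlOf (nat_lit 1) (nat_lit 0x20018170701)))) (.nd (nat_lit 26) 
(.lf (nat_lit 3490660689) (dlOf (nat_lit 4) (nat_lit 0xa43d0000610200681e8000200100410f40000fc08002000800c4002007a0008014d03))) 
(.lf (nat_lit 2752463185) (dlOf (nat_lit 2) (nat_lit 0x1085840005004001000400020018014d82))))) 
(.nd (nat_lit 20) 
(.lf (nat_lit 13582417) (dlOf (nat_lit 5) (nat_lit 0xbe2f00037140001611800034060009c620008dea80007c10003f18800237aa0001e04000fc620008dea8000741000c00080010002000e0008730d83))) 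
(.nd (nat_lit 21) (.lf (nat_lit 14630993) (dlOf (nat_lit 1) (nat_lit 0x60028770701))) 
(.lf (nat_lit 46088273) (dlOf (nat_lit 2) (nat_lit 0x1562100be6819380000)))))))))) 
(.nd (nat_lit 17) (.nd (nat_lit 6) (.nd (nat_lit 26) (.nd (nat_lit 18) (.nd (nat_lit 19) 
(.nd (nat_lit 7) (.nd (nat_lit 8) (.nd (nat_lit 9) (.nd (nat_lit 20) 
(.lf (nat_lit 3087089689) (dlOf (nat_lit 3) (nat_lit 0x21007c00a8036001601700ed503003c00f8012806c00a802e01da806009c00180b0001))) 
(.lf (nat_lit 28393497) (dlOf (nat_lit 1) (nat_lit 0x1000400040018d90482)))) 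
(.lf (nat_lit 3087090201) (dlOf (nat_lit 3) (nat_lit 0x9c03a00a20190003a82000800e80018064000e8080010002000400080b0d82)))) 
(.nd (nat_lit 12) (.lf (nat_lit 671172889) (dlOf (nat_lit 1) (nat_lit 0x60018144b81))) 
(.lf (nat_lit 1342265625) (dlOf (nat_lit 4) (nat_lit 0x6c09d001a04700008810022827401b811c0002004009809d007804700006010054000803340020006000800ab03))))) 
(.nd (nat_lit 8) (.nd (nat_lit 10) (.nd (nat_lit 28) 
(.lf (nat_lit 6576750745) (dlOf (nat_lit 1) (nat_lit 0x4002000400080b0182))) 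
(.lf (nat_lit 939606169) (dlOf (nat_lit 1) (nat_lit 0xd4004005a00080b0182)))) 
(.lf (nat_lit 4160836761) (dlOf (nat_lit 1) (nat_lit 0x560018009501)))) (.nd (nat_lit 10) 
(.lf (nat_lit 6174099865) (dlOf (nat_lit 1) (nat_lit 0x800018054e81))) 
(.lf (nat_lit 6308316569) (dlOf (nat_lit 2) (nat_lit 0xb8064002a6040088002002c0008053602)))))) 
(.nd (nat_lit 9) (.nd (nat_lit 23) (.nd (nat_lit 7) (.nd (nat_lit 27) 
(.lf (nat_lit 537477145) (dlOf (nat_lit 1) (nat_lit 0x21000800d4002009600080a0903))) 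
(.lf (nat_lit 134823961) (dlOf (nat_lit 2) (nat_lit 0x700980466c0801a00080070002004a00080c0a83)))) 
(.lf (nat_lit 1345929369) (dlOf (nat_lit 1) (nat_lit 0x20018e20501)))) (.nd (nat_lit 20) 
(.nd (nat_lit 21) (.lf (nat_lit 42549273) (dlOf (nat_lit 1) (nat_lit 0xb400400900009260102))) 
(.lf (nat_lit 27869209) (dlOf (nat_lit 1) (nat_lit 0x280080008002000c0008d30483)))) 
(.lf (nat_lit 31014937) (dlOf (nat_lit 1) (nat_lit 0x80008e60b81))))) (.nd (nat_lit 8) 
(.nd (nat_lit 10) (.lf (nat_lit 50938393) (dlOf (nat_lit 1) (nat_lit 0x200294d8701))) 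
(.lf (nat_lit 609817) (dlOf (nat_lit 1) (nat_lit 0x4004000c0008007102)))) 
(.lf (nat_lit 7948057) (dlOf (nat_lit 2) (nat_lit 0x45430001c018513c80)))))) (.nd (nat_lit 21) 
(.nd (nat_lit 30) (.nd (nat_lit 19) 
(.lf (nat_lit 671432729) (dlOf (nat_lit 44) (nat_lit 0x24c04a009a022005400f8034004c005800000c1f0a01a40250060f01004a012801000880183a08015804a00c1c020136025001601100306410066809401c404400bfe04019e0250071011002ff410069009401c404400bf904019e0250070011002fcc100380094017e404013004a00bf10201420250034011002fc01001d8094017b604015004a00bda0201c2025005d08100ef012802e5c0806680940171e04034804a00b830201a4025005c08100d2012802de40806900940169a04034804a00b4b0201a4025005a50100d1012802d040803a00940166e04031404a00b2c02018a025005958100da012802c9c0803700940164004016004a00b1f0200ee0250058e81005b012802c700803b8094016360400c800000b1802014e02e00c3015801980a0000404a001000c001f005804f001c004000800b0e10009002e0068015802c1c1000300b8012804a0099b0400a802b004c381003c0128025ec080330094012f404008c04a00978020024025004bb8100100128025c40802300080a8800200240008190483)))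 
(.nd (nat_lit 23) 
(.lf (nat_lit 2819440665) (dlOf (nat_lit 2) (nat_lit 0x401a000210200040028290481))) 
(.lf (nat_lit 9256985) (dlOf (nat_lit 1) (nat_lit 0x400200020008530102))))) (.nd (nat_lit 7) 
(.nd (nat_lit 22) (.lf (nat_lit 3221569561) (dlOf (nat_lit 1) (nat_lit 0x20018140481))) 
(.lf (nat_lit 3494199321) (dlOf (nat_lit 1) (nat_lit 0xdc00181d0a01)))) 
(.lf (nat_lit 3490007449) (dlOf (nat_lit 1) (nat_lit 0x400200020008004e82))))) (.nd (nat_lit 22) 
(.nd (nat_lit 8) (.lf (nat_lit 3489817) (dlOf (nat_lit 2) (nat_lit 0xc7f0006ef018200000))) 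
(.nd (nat_lit 11) (.lf (nat_lit 12402969) (dlOf (nat_lit 1) (nat_lit 0x14002000400086c0482))) 
(.lf (nat_lit 20273433) (dlOf (nat_lit 3) (nat_lit 0xec1e00046050001b02000117e60008bde000459000022c60007962e0002a6000044bd000225e4000502c00218100002a60000128289dab00))))) 
(.nd (nat_lit 20) (.nd (nat_lit 7) 
(.lf (nat_lit 15024153) (dlOf (nat_lit 2) (nat_lit 0x448c00be23b0001641000080080010002000400087b0483))) 
(.lf (nat_lit 49104025) (dlOf (nat_lit 2) (nat_lit 0x3290c003300400ac00400880009462b82)))) 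
(.nd (nat_lit 9) 
(.lf (nat_lit 16072729) (dlOf (nat_lit 5) (nat_lit 0x87d70004399800068100019f5c0003204000cfae000180200047d70000a018860500))) 
(.lf (nat_lit 41239065) (dlOf (nat_lit 1) (nat_lit 0x800400020019227e82)))))))) (.nd (nat_lit 27) 
(.nd (nat_lit 18) (.nd (nat_lit 30) (.nd (nat_lit 8) (.nd (nat_lit 19) 
(.lf (nat_lit 68239385) (dlOf (nat_lit 1) (nat_lit 0xc00284a0501))) 
(.lf (nat_lit 4362682393) (dlOf (nat_lit 1) (nat_lit 0x4004000600080d0902)))) 
(.lf (nat_lit 6509642009) (dlOf (nat_lit 2) (nat_lit 0xe000000168040088002000400080b0482)))) 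
(.nd (nat_lit 28) (.nd (nat_lit 7) 
(.lf (nat_lit 3825287193) (dlOf (nat_lit 4) (nat_lit 0x7a020000100c0023801000180740081604000802e0000002000800080b0001))) 
(.lf (nat_lit 5972770969) (dlOf (nat_lit 1) (nat_lit 0x4002000400080b0182)))) (.nd (nat_lit 10) 
(.lf (nat_lit 1409892377) (dlOf (nat_lit 1) (nat_lit 0x21000800d4002009600080a0903))) 
(.lf (nat_lit 5704338457) (dlOf (nat_lit 1) (nat_lit 0x10400200380008056002)))))) (.nd (nat_lit 28) 
(.nd (nat_lit 22) (.lf (nat_lit 4362420249) (dlOf (nat_lit 1) (nat_lit 0x40018070501))) 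
(.lf (nat_lit 2756001817) (dlOf (nat_lit 1) (nat_lit 0xdc00181d0a01)))) (.nd (nat_lit 7) 
(.nd (nat_lit 19) (.lf (nat_lit 5704597529) (dlOf (nat_lit 1) (nat_lit 0x8004000c0008110402))) 
(.lf (nat_lit 3557638169) (dlOf (nat_lit 2) (nat_lit 0x401a000210200040028290481)))) 
(.lf (nat_lit 6241468825) (dlOf (nat_lit 1) (nat_lit 0x2000080148002009e00080f6483)))))) 
(.nd (nat_lit 28) (.nd (nat_lit 7) (.nd (nat_lit 18) 
(.lf (nat_lit 201932825) (dlOf (nat_lit 2) (nat_lit 0x700980462c0801a00080070002004a00080c0a83))) 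
(.lf (nat_lit 3959767065) (dlOf (nat_lit 1) (nat_lit 0x20018140481)))) (.nd (nat_lit 8) 
(.nd (nat_lit 10) (.lf (nat_lit 1812021401) (dlOf (nat_lit 1) (nat_lit 0xd4004005a00080b0182))) 
(.lf (nat_lit 6643864729) (dlOf (nat_lit 1) (nat_lit 0x100018009501)))) 
(.lf (nat_lit 4496377241) (dlOf (nat_lit 2) (nat_lit 0xa01c000a8818053600))))) (.nd (nat_lit 18) 
(.nd (nat_lit 7) (.nd (nat_lit 20) 
(.lf (nat_lit 4228464665) (dlOf (nat_lit 1) (nat_lit 0x4004000600080d0902))) 
(.lf (nat_lit 471416857) (dlOf (nat_lit 9) (nat_lit 0x30568001828e0004e04000c15a00070a3800134100028568001028e0004304000a15a00060a3800108100030568001828e0003e04000a15a00060a38000f0100030568001828e0003b04000c15a00060a38000dc1000200080034002000200082f0903)))) 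
(.lf (nat_lit 3154722969) (dlOf (nat_lit 1) (nat_lit 0x400400020008310482)))) (.nd (nat_lit 22) 
(.nd (nat_lit 30) 
(.lf (nat_lit 3154460697) (dlOf (nat_lit 2) (nat_lit 0xb40aa0046034002000a0000a4180048008001c002001400081a0103))) 
(.lf (nat_lit 4228202521) (dlOf (nat_lit 1) (nat_lit 0x40018070501)))) 
(.lf (nat_lit 474300441) (dlOf (nat_lit 1) (nat_lit 0x10008000800200040009130403)))))))) 
(.nd (nat_lit 28) (.nd (nat_lit 18) (.nd (nat_lit 21) (.nd (nat_lit 23) (.nd (nat_lit 19) 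
(.nd (nat_lit 26) (.lf (nat_lit 5905662041) (dlOf (nat_lit 1) (nat_lit 0x10002000200080b0002))) 
(.lf (nat_lit 6509641817) (dlOf (nat_lit 1) (nat_lit 0x1c000800bc002003a00080b0003)))) 
(.lf (nat_lit 537477209) (dlOf (nat_lit 1) (nat_lit 0x3c002004000080a1182)))) (.nd (nat_lit 20) 
(.lf (nat_lit 12664921) (dlOf (nat_lit 1) (nat_lit 0x1600186d1181))) 
(.lf (nat_lit 26296409) (dlOf (nat_lit 1) (nat_lit 0xac00200220008c30802))))) (.nd (nat_lit 7) 
(.nd (nat_lit 9) (.nd (nat_lit 22) 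
(.lf (nat_lit 44122201) (dlOf (nat_lit 2) (nat_lit 0xc37a00041920004026000e8000000621000fc002002800092c0702))) 
(.lf (nat_lit 14762073) (dlOf (nat_lit 2) (nat_lit 0x9a4750000b0080020008000800200040008770803)))) 
(.lf (nat_lit 62474841) (dlOf (nat_lit 1) (nat_lit 0x1800299a5301)))) (.nd (nat_lit 8) 
(.lf (nat_lit 57232089) (dlOf (nat_lit 6) (nat_lit 0xc4ce30001981006e6718000c408033b3b400d99d80002e04012eced00008010025676800f33b00001e08000c00400300019795902))) 
(.lf (nat_lit 37308889) (dlOf (nat_lit 1) (nat_lit 0x200190d4e81)))))) (.nd (nat_lit 9) 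
(.nd (nat_lit 23) (.nd (nat_lit 7) (.nd (nat_lit 19) 
(.lf (nat_lit 2818916441) (dlOf (nat_lit 1) (nat_lit 0x3400080004002007c0008130283))) 
(.lf (nat_lit 53297241) (dlOf (nat_lit 1) (nat_lit 0x10008003800200080009581883)))) 
(.lf (nat_lit 2818916569) (dlOf (nat_lit 1) (nat_lit 0x7c004000c0008130582)))) (.nd (nat_lit 7) 
(.nd (nat_lit 19) (.lf (nat_lit 26558553) (dlOf (nat_lit 1) (nat_lit 0x400400020008c50802))) 
(.lf (nat_lit 9257049) (dlOf (nat_lit 1) (nat_lit 0x1000400020018530702)))) 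
(.lf (nat_lit 25510105) (dlOf (nat_lit 1) (nat_lit 0xa0008c10581))))) (.nd (nat_lit 7) 
(.nd (nat_lit 19) 
(.lf (nat_lit 45435481) (dlOf (nat_lit 5) (nat_lit 0x1e0e3100026750000a010050b3a80003e040385c620006cea000098200337188000000800380080038002003c0009325303))) 
(.nd (nat_lit 20) (.lf (nat_lit 38619737) (dlOf (nat_lit 1) (nat_lit 0x11c00400100019135302))) 
(.lf (nat_lit 33376857) (dlOf (nat_lit 1) (nat_lit 0x20028f55301))))) (.nd (nat_lit 12) 
(.lf (nat_lit 69552857) (dlOf (nat_lit 2) (nat_lit 0x142b80000c0200060028b45901))) 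
(.lf (nat_lit 20273881) (dlOf (nat_lit 1) (nat_lit 0x380080010002000800089db983))))))) 
(.nd (nat_lit 7) (.nd (nat_lit 30) (.nd (nat_lit 18) (.nd (nat_lit 9) 
(.lf (nat_lit 2952872025) (dlOf (nat_lit 2) (nat_lit 0x200700161204000400400020008010282))) 
(.lf (nat_lit 2617328217) (dlOf (nat_lit 2) (nat_lit 0x100ac0008e040014002000a00080a1682)))) 
(.nd (nat_lit 26) (.nd (nat_lit 27) 
(.lf (nat_lit 4563746905) (dlOf (nat_lit 1) (nat_lit 0xa8004000e00080d0682))) 
(.lf (nat_lit 4697964633) (dlOf (nat_lit 1) (nat_lit 0xa8004000e00080d0682)))) 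
(.lf (nat_lit 3154460761) (dlOf (nat_lit 1) (nat_lit 0x24002000200081a0802))))) (.nd (nat_lit 11) 
(.nd (nat_lit 18) (.nd (nat_lit 20) (.nd (nat_lit 21) 
(.lf (nat_lit 1409892441) (dlOf (nat_lit 1) (nat_lit 0x3c002004000080a1182))) 
(.lf (nat_lit 4096344153) (dlOf (nat_lit 1) (nat_lit 0x80080004002000200080f1883)))) 
(.lf (nat_lit 4095295577) (dlOf (nat_lit 1) (nat_lit 0x1000400040018090682)))) 
(.lf (nat_lit 4094509145) (dlOf (nat_lit 1) (nat_lit 0x220018050001)))) (.nd (nat_lit 8) 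
(.lf (nat_lit 1880181337) (dlOf (nat_lit 1) (nat_lit 0x200187a5301))) 
(.lf (nat_lit 4227943769) (dlOf (nat_lit 1) (nat_lit 0x20018006a81)))))) (.nd (nat_lit 26) 
(.nd (nat_lit 32) (.nd (nat_lit 10) (.nd (nat_lit 18) 
(.lf (nat_lit 3493937369) (dlOf (nat_lit 1) (nat_lit 0x200081b0481))) 
(.lf (nat_lit 268779737) (dlOf (nat_lit 1) (nat_lit 0x400400020008155d82)))) 
(.lf (nat_lit 1342262489) (dlOf (nat_lit 1) (nat_lit 0x20018006481)))) (.nd (nat_lit 8) 
(.lf (nat_lit 4563484889) (dlOf (nat_lit 1) (nat_lit 0xc00200940008090982))) (.nd (nat_lit 10) 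
(.lf (nat_lit 4697702873) (dlOf (nat_lit 2) (nat_lit 0x17806800bc01f00d200a808180480000010050000400680008091202))) 
(.lf (nat_lit 4697703897) (dlOf (nat_lit 1) (nat_lit 0x30008005800200240008093603)))))) 
(.nd (nat_lit 9) (.nd (nat_lit 10) (.nd (nat_lit 19) 
(.lf (nat_lit 335888601) (dlOf (nat_lit 1) (nat_lit 0x1000180c1c01))) 
(.lf (nat_lit 6377259225) (dlOf (nat_lit 1) (nat_lit 0x200180c1c01)))) 
(.lf (nat_lit 1409371353) (dlOf (nat_lit 1) (nat_lit 0x38008000c00200060008006483)))) 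
(.nd (nat_lit 8) (.nd (nat_lit 21) 
(.lf (nat_lit 3556854489) (dlOf (nat_lit 4) (nat_lit 0x3811c0006804002402e001201600090070004803000240080014000000198600090000000300800600080090002002000080d5903))) 
(.lf (nat_lit 6377523929) (dlOf (nat_lit 1) (nat_lit 0x200180e5901)))) 
(.lf (nat_lit 469849049) (dlOf (nat_lit 1) (nat_lit 0x3a0018009201))))))))) (.nd (nat_lit 18) 
(.nd (nat_lit 19) (.nd (nat_lit 31) (.nd (nat_lit 21) (.nd (nat_lit 26) (.nd (nat_lit 28) 
(.nd (nat_lit 6) (.lf (nat_lit 29573145) (dlOf (nat_lit 1) (nat_lit 0xa80008e20481))) 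
(.lf (nat_lit 4832051417) (dlOf (nat_lit 1) (nat_lit 0x4004000200080b5d82)))) (.nd (nat_lit 10) 
(.lf (nat_lit 939737113) (dlOf (nat_lit 2) (nat_lit 0x208016006e00400140000000001808880080934002006a0008160483))) 
(.lf (nat_lit 268651545) (dlOf (nat_lit 1) (nat_lit 0x380080024002003000080e6003))))) 
(.nd (nat_lit 27) (.nd (nat_lit 28) 
(.lf (nat_lit 604192793) (dlOf (nat_lit 2) (nat_lit 0x400580027a04001800400040008080482))) 
(.lf (nat_lit 5704466457) (dlOf (nat_lit 3) (nat_lit 0x34036000801900100058036381800c802c000800000d8404001800180a0a01)))) 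
(.lf (nat_lit 5570248729) (dlOf (nat_lit 1) (nat_lit 0x400080a0401))))) (.nd (nat_lit 6) 
(.nd (nat_lit 8) (.nd (nat_lit 9) 
(.lf (nat_lit 52641817) (dlOf (nat_lit 1) (nat_lit 0x120008002400200440009560603))) 
(.lf (nat_lit 20141593) (dlOf (nat_lit 1) (nat_lit 0x4002000200089d9c02)))) 
(.lf (nat_lit 20142361) (dlOf (nat_lit 2) (nat_lit 0xe69f8000a00800700080028002001000089dab03)))) 
(.nd (nat_lit 7) (.lf (nat_lit 36915801) (dlOf (nat_lit 1) (nat_lit 0x800200080009075302))) 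
(.lf (nat_lit 20142809) (dlOf (nat_lit 1) (nat_lit 0x4002000200089db982)))))) (.nd (nat_lit 6) 
(.nd (nat_lit 8) (.nd (nat_lit 21) (.nd (nat_lit 26) 
(.lf (nat_lit 2953003033) (dlOf (nat_lit 3) (nat_lit 0x5400e0004b00803b00700020204010800401240008080482))) 
(.lf (nat_lit 3691200537) (dlOf (nat_lit 2) (nat_lit 0x4e02a000e70180a0480)))) 
(.lf (nat_lit 3491971097) (dlOf (nat_lit 1) (nat_lit 0x20008090001)))) (.nd (nat_lit 7) 
(.lf (nat_lit 3355656473) (dlOf (nat_lit 1) (nat_lit 0x200180b4b01))) 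
(.lf (nat_lit 3288547737) (dlOf (nat_lit 1) (nat_lit 0x30008001c00200160008090783))))) 
(.nd (nat_lit 11) (.nd (nat_lit 7) 
(.lf (nat_lit 3556986969) (dlOf (nat_lit 3) (nat_lit 0xe01f8011900800400fc008c604000c00200140008127d82))) 
(.nd (nat_lit 8) (.lf (nat_lit 2147696857) (dlOf (nat_lit 1) (nat_lit 0x44004000c00080c1c02))) 
(.lf (nat_lit 2818790873) (dlOf (nat_lit 1) (nat_lit 0x20028129b01))))) (.nd (nat_lit 7) 
(.lf (nat_lit 3959642457) (dlOf (nat_lit 1) (nat_lit 0x17c0020014000811ab82))) (.nd (nat_lit 9) 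
(.lf (nat_lit 2751678681) (dlOf (nat_lit 1) (nat_lit 0x6c00200540008004a82))) 
(.lf (nat_lit 3154336473) (dlOf (nat_lit 1) (nat_lit 0x728008000400200b6000815b983)))))))) 
(.nd (nat_lit 20) (.nd (nat_lit 26) (.nd (nat_lit 10) (.nd (nat_lit 22) (.nd (nat_lit 9) 
(.lf (nat_lit 537608217) (dlOf (nat_lit 1) (nat_lit 0xc600080d0881))) 
(.lf (nat_lit 1611350553) (dlOf (nat_lit 1) (nat_lit 0x400080078002000a0008138703)))) 
(.nd (nat_lit 8) 
(.lf (nat_lit 21708825) (dlOf (nat_lit 3) (nat_lit 0x1aed5000af6a001aa4080053b540025da8006a8828a60a00))) 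
(.lf (nat_lit 7029017) (dlOf (nat_lit 1) (nat_lit 0x200284b0701))))) (.nd (nat_lit 6) 
(.lf (nat_lit 36390041) (dlOf (nat_lit 1) (nat_lit 0x20019072b81))) 
(.lf (nat_lit 34292825) (dlOf (nat_lit 2) (nat_lit 0x25fe000000080280008004c002004e0008fb2903))))) 
(.nd (nat_lit 27) (.nd (nat_lit 31) 
(.lf (nat_lit 1410023449) (dlOf (nat_lit 1) (nat_lit 0xc600080d0881))) 
(.lf (nat_lit 3557507097) (dlOf (nat_lit 1) (nat_lit 0x1400400060018230682)))) (.nd (nat_lit 9) 
(.lf (nat_lit 3154853913) (dlOf (nat_lit 1) (nat_lit 0x100008350581))) 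
(.lf (nat_lit 738935321) (dlOf (nat_lit 1) (nat_lit 0x40018157e81)))))) (.nd (nat_lit 8) 
(.nd (nat_lit 21) (.nd (nat_lit 26) 
(.lf (nat_lit 1343963161) (dlOf (nat_lit 9) (nat_lit 0xc15a00060a3800138100038568001c28e0004d04000a15a00050a380010c100028568001828e0004204000c15a00060a38000f8100030568001828e0003c04000c15a00060a38000ec100030568001828e0003704000c0018380901))) 
(.lf (nat_lit 4095426585) (dlOf (nat_lit 1) (nat_lit 0x4004000200080b0a02)))) (.nd (nat_lit 9) 
(.lf (nat_lit 45826073) (dlOf (nat_lit 1) (nat_lit 0x12000200720009360102))) 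
(.lf (nat_lit 8083993) (dlOf (nat_lit 1) (nat_lit 0x80040006001851b282))))) (.nd (nat_lit 6) 
(.nd (nat_lit 9) (.lf (nat_lit 5980441) (dlOf (nat_lit 1) (nat_lit 0x20028420701))) 
(.lf (nat_lit 54217497) (dlOf (nat_lit 1) (nat_lit 0xe80009655b81)))) (.nd (nat_lit 11) 
(.lf (nat_lit 5980505) (dlOf (nat_lit 1) (nat_lit 0x400400020018420882))) 
(.lf (nat_lit 8083801) (dlOf (nat_lit 1) (nat_lit 0x40040002001851ab82)))))))) (.nd (nat_lit 6) 
(.nd (nat_lit 21) (.nd (nat_lit 22) (.nd (nat_lit 26) (.nd (nat_lit 10) 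
(.lf (nat_lit 3624353817) (dlOf (nat_lit 1) (nat_lit 0xe0008170881))) 
(.lf (nat_lit 1476871193) (dlOf (nat_lit 1) (nat_lit 0x2000282d2881)))) (.nd (nat_lit 27) 
(.lf (nat_lit 6241599513) (dlOf (nat_lit 1) (nat_lit 0x10008002000200020008120a03))) 
(.lf (nat_lit 2886156313) (dlOf (nat_lit 1) (nat_lit 0xe0008170881))))) (.nd (nat_lit 23) 
(.nd (nat_lit 26) 
(.lf (nat_lit 3494330393) (dlOf (nat_lit 12) (nat_lit 0x12215000b10a0008481000308540030428002110400122150010781000610d0003084c001c222000c101000ff84000510d0002084c0030222001fe06000e21a0005109800284440010202001fd08000e21a0006109800304440014202001fc08000c21a0005109800384440004202001fa08000a21a000610980030444003f20c001c434000a213000708880020404003f0100018434000c213000a08880048404003ee10000400400120018200a82))) 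
(.lf (nat_lit 2756132889) (dlOf (nat_lit 12) (nat_lit 0x1222a000b1148007f41000308a80030452001fc04001222a000fd010006117800308a0001c216000c101000f6840005117800208a00030216001ec06000e22f00051140002842c0010202001eb08000e22f00061140003042c0014202001ea08000c22f00051140003842c0004202001e808000a22f00061140003042c003ce0c001c45e000a228000708580020404003cc10001845e000c228000a08580048404003ca10000400400120018200a82)))) 
(.lf (nat_lit 13058073) (dlOf (nat_lit 2) (nat_lit 0x404e9000100186f0400))))) (.nd (nat_lit 19) 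
(.nd (nat_lit 20) (.nd (nat_lit 7) (.nd (nat_lit 22) 
(.lf (nat_lit 2572313) (dlOf (nat_lit 1) (nat_lit 0x120028170a01))) 
(.lf (nat_lit 6766617) (dlOf (nat_lit 1) (nat_lit 0x140028460581)))) 
(.lf (nat_lit 472336793) (dlOf (nat_lit 1) (nat_lit 0x20018984e81)))) (.nd (nat_lit 9) 
(.lf (nat_lit 7815193) (dlOf (nat_lit 1) (nat_lit 0x1400284f0581))) 
(.lf (nat_lit 58147353) (dlOf (nat_lit 2) (nat_lit 0x16fc20004502000200297c7e81))))) 
(.nd (nat_lit 20) (.nd (nat_lit 8) 
(.lf (nat_lit 15679513) (dlOf (nat_lit 1) (nat_lit 0x400400020008820482))) 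
(.lf (nat_lit 19876633) (dlOf (nat_lit 1) (nat_lit 0x600189d5b81)))) (.nd (nat_lit 23) 
(.lf (nat_lit 20922393) (dlOf (nat_lit 1) (nat_lit 0x8002000200089f0102))) 
(.lf (nat_lit 46088217) (dlOf (nat_lit 3) (nat_lit 0xfac420184a02005162100c24819380000))))))) 
(.nd (nat_lit 26) (.nd (nat_lit 19) (.nd (nat_lit 9) (.nd (nat_lit 8) 
(.lf (nat_lit 1611087961) (dlOf (nat_lit 7) (nat_lit 0x14c0760002b02004003f0001201003f026002b00d40001c0800f409800ae0350000502001401e8000180801a013001f409000500350028000000000200008008011400200e400080d0683))) 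
(.lf (nat_lit 805781849) (dlOf (nat_lit 5) (nat_lit 0x100f8000560400140840002402000c03800005010008020000018080088008000c002001000081a0683)))) 
(.nd (nat_lit 7) (.lf (nat_lit 38226521) (dlOf (nat_lit 1) (nat_lit 0x8008001800200020009135303))) 
(.lf (nat_lit 1476872921) (dlOf (nat_lit 2) (nat_lit 0x3e043001f01e801a80e8007c06e0036034000b015000f80800080028003e00c001500480108000000682c00ec004002a00082d5902))))) 
(.nd (nat_lit 21) (.nd (nat_lit 20) 
(.lf (nat_lit 1343176793) (dlOf (nat_lit 1) (nat_lit 0x900080044002000c0008190803))) 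
(.lf (nat_lit 14631001) (dlOf (nat_lit 1) (nat_lit 0x8008000400200140008770803)))) (.nd (nat_lit 9) 
(.lf (nat_lit 20922457) (dlOf (nat_lit 3) (nat_lit 0x1bb4400030020018dff000d6c98008351400419ba0064c8f000080589f0700))) 
(.lf (nat_lit 1346325081) (dlOf (nat_lit 5) (nat_lit 0x1003a0002802015216900ac0b3005280740003e0c001c2d20014166000800e80004c1800085a4002003a000050400380018f05301)))))) 
(.nd (nat_lit 8) (.nd (nat_lit 27) (.nd (nat_lit 20) 
(.lf (nat_lit 3557245017) (dlOf (nat_lit 2) (nat_lit 0xa8070000290200020028170801))) 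
(.lf (nat_lit 4095164505) (dlOf (nat_lit 1) (nat_lit 0xa0008070701)))) (.nd (nat_lit 19) 
(.lf (nat_lit 738672729) (dlOf (nat_lit 7) (nat_lit 0x14c0760002b02004003f0001201003f026002b00d40001c0800f409800ae0350000502001401e8000180801a013001f409000500350028000000000200008008011400200e400080d0683))) 
(.lf (nat_lit 470761561) (dlOf (nat_lit 2) (nat_lit 0x82f40006204000400400020008170802))))) 
(.nd (nat_lit 27) (.nd (nat_lit 29) 
(.lf (nat_lit 4362551641) (dlOf (nat_lit 2) (nat_lit 0x88000000000200260018090681))) 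
(.lf (nat_lit 1678197081) (dlOf (nat_lit 5) (nat_lit 0x100f8000560400140840002402000c03800005010008020000018080088008000c002001000081a0683)))) 
(.nd (nat_lit 20) 
(.lf (nat_lit 4228333913) (dlOf (nat_lit 2) (nat_lit 0x88000000000200260018090681))) 
(.lf (nat_lit 471286105) (dlOf (nat_lit 1) (nat_lit 0x200080010002000800082e0883))))))))))) 
(.nd (nat_lit 3) (.nd (nat_lit 18) (.nd (nat_lit 17) (.nd (nat_lit 26) (.nd (nat_lit 21) 
(.nd (nat_lit 19) (.nd (nat_lit 8) (.nd (nat_lit 30) (.nd (nat_lit 6) 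
(.lf (nat_lit 3087089841) (dlOf (nat_lit 5) (nat_lit 0x378080052003a027c019005a00c0000c4200a4007404f803200b40180001803014800e809f006400480300002d06029001d013d00c8000ac1000a800802a400200b400080b0303))) 
(.lf (nat_lit 62996593) (dlOf (nat_lit 1) (nat_lit 0x200199b1d01)))) (.nd (nat_lit 9) 
(.lf (nat_lit 1343307825) (dlOf (nat_lit 6) (nat_lit 0x258788014433a0096185000148300ac0d58053069c02e02c6009215c00390aa8062852400b428401481380055099807004b801d024800840ec002d0748168039002c01a8010a0ca00af061006182ec02b416e00960a700b604f80468264001012a0008089009f03c805081c800d0086019c03b009e0158077809c02d8028006c0000000e20007e0b18027055401f829200180e40000d8400150998000540810404bc0000004128c0040ab800081e0702))) 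
(.lf (nat_lit 1342262833) (dlOf (nat_lit 1) (nat_lit 0x7800400420008007182))))) (.nd (nat_lit 7) 
(.nd (nat_lit 10) 
(.lf (nat_lit 4563484977) (dlOf (nat_lit 2) (nat_lit 0x60090000000800a000800f000200400008090b03))) 
(.lf (nat_lit 4160836913) (dlOf (nat_lit 1) (nat_lit 0x100018009881)))) 
(.lf (nat_lit 4697702833) (dlOf (nat_lit 5) (nat_lit 0x100f802c005402cc0240016c06001a015009300900053c1000a80d0007c03e012801500990090000102000680d0004c03e0128015009500900000420024800800e0002007c0008091003))))) 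
(.nd (nat_lit 27) (.nd (nat_lit 6) (.nd (nat_lit 7) (.nd (nat_lit 20) 
(.lf (nat_lit 3221831729) (dlOf (nat_lit 5) (nat_lit 0x1bc0000002702001e0000001301006d0000000900802200000004404001c002001200081a0e82))) 
(.lf (nat_lit 26820657) (dlOf (nat_lit 3) (nat_lit 0x4029d400301f60005404019ea7500d207d800148100038008001400200080008c70903)))) 
(.lf (nat_lit 609969) (dlOf (nat_lit 1) (nat_lit 0x960008007281)))) 
(.lf (nat_lit 537477233) (dlOf (nat_lit 8) (nat_lit 0x15a054005102280006c100dd817403c40b003bc05401ad022800064200dd817403240b003e005401a202280006020073817403440a801480450000583013d02e80bf8150057408a0000a06037205d01b402a00b40114000120c06f80ba03e005401a50228000201800680080bfc002004e00080a1583)))) 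
(.nd (nat_lit 29) 
(.lf (nat_lit 134823985) (dlOf (nat_lit 2) (nat_lit 0x23803b01cb01b00af805c0005a0c00dc004000200180c0e82))) 
(.lf (nat_lit 3892920369) (dlOf (nat_lit 9) (nat_lit 0x2ac05a007400a0090800c000440c02700c801c2060012502d00070134002408e013402800eb00a0077800c000c0040000a120134064008703000a681680258050011201401190018000243005f8168000100403dc0b401860030000302015302d0090000c0000a08053c0b400002020104064013802d000d811c012c05000da01401100018000003000180080088002009c0008290f03)))))) 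
(.nd (nat_lit 20) (.nd (nat_lit 6) (.nd (nat_lit 19) (.nd (nat_lit 22) 
(.lf (nat_lit 27344945) (dlOf (nat_lit 1) (nat_lit 0x480080018002000c0008cd0a03))) 
(.lf (nat_lit 23150641) (dlOf (nat_lit 2) (nat_lit 0x2c1a8800094080048008001800200020008b60903)))) 
(.lf (nat_lit 3492364337) (dlOf (nat_lit 3) (nat_lit 0x7e078c01e82460002e040002234016e0fd00cf878c027c394013819f01390a880bc048c0005a1c004c004003600180c0e82)))) 
(.nd (nat_lit 8) (.nd (nat_lit 24) 
(.lf (nat_lit 1344356593) (dlOf (nat_lit 1) (nat_lit 0x800200640008740602))) 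
(.lf (nat_lit 18956529) (dlOf (nat_lit 1) (nat_lit 0x10008000800200020008970603)))) 
(.nd (nat_lit 7) (.lf (nat_lit 39930225) (dlOf (nat_lit 1) (nat_lit 0x4004000200091f4e82))) 
(.lf (nat_lit 31540209) (dlOf (nat_lit 1) (nat_lit 0x80028e92881)))))) (.nd (nat_lit 9) 
(.nd (nat_lit 7) (.lf (nat_lit 20009073) (dlOf (nat_lit 1) (nat_lit 0x4002000200089d7d82))) 
(.nd (nat_lit 8) (.lf (nat_lit 58278129) (dlOf (nat_lit 1) (nat_lit 0x2000297d6e81))) 
(.lf (nat_lit 11616753) (dlOf (nat_lit 1) (nat_lit 0x600286c0d81))))) (.nd (nat_lit 6) 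
(.nd (nat_lit 19) (.lf (nat_lit 20009649) (dlOf (nat_lit 1) (nat_lit 0x4002000200089d8c82))) 
(.lf (nat_lit 7951025) (dlOf (nat_lit 1) (nat_lit 0x20028518c81)))) 
(.lf (nat_lit 61948913) (dlOf (nat_lit 1) (nat_lit 0x8008000400200020009922883))))))) 
(.nd (nat_lit 8) (.nd (nat_lit 7) (.nd (nat_lit 27) (.nd (nat_lit 6) (.nd (nat_lit 19) 
(.lf (nat_lit 68239409) (dlOf (nat_lit 1) (nat_lit 0x280080008002000200084a0a03))) 
(.lf (nat_lit 4362682417) (dlOf (nat_lit 2) (nat_lit 0x60198000380801c00080078002001000080d1103)))) 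
(.lf (nat_lit 1409892465) (dlOf (nat_lit 8) (nat_lit 0x15a054005102100006c100dd817403c40b003bc05401ad021000064200dd817403240b003e005401a202100006020073817403440a801480420000583013d02e80bf815005740840000a06037205d01b402a00b40108000120c06f80ba03e005401a50210000201800680080bfc002004e00080a1583)))) 
(.nd (nat_lit 19) (.lf (nat_lit 471941169) (dlOf (nat_lit 1) (nat_lit 0x14004003c00086d0b82))) 
(.nd (nat_lit 28) 
(.lf (nat_lit 201932849) (dlOf (nat_lit 4) (nat_lit 0xa40760002e0200da0360001681005401d800500d80005608012c004001200180c0f82))) 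
(.lf (nat_lit 4228464689) (dlOf (nat_lit 2) (nat_lit 0x60190000900801c00080078002001000080d1103)))))) 
(.nd (nat_lit 6) (.nd (nat_lit 10) 
(.lf (nat_lit 3825287345) (dlOf (nat_lit 5) (nat_lit 0x378080052003a027c019005a00c0000c4200a4007404f803200b40180001803014800e809f006400480300002d06029001d013d00c8000ac1000a800802a400200b400080b0303))) 
(.nd (nat_lit 28) 
(.lf (nat_lit 3288419505) (dlOf (nat_lit 2) (nat_lit 0x2806a002203400050150001808c0008e100140004000e0018006282))) 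
(.lf (nat_lit 1946242225) (dlOf (nat_lit 2) (nat_lit 0x40000002d018006280))))) (.nd (nat_lit 9) 
(.lf (nat_lit 474562801) (dlOf (nat_lit 1) (nat_lit 0x14004000200091a1e82))) 
(.lf (nat_lit 3556854513) (dlOf (nat_lit 1) (nat_lit 0xa00280d5a01)))))) (.nd (nat_lit 6) 
(.nd (nat_lit 28) (.nd (nat_lit 7) (.nd (nat_lit 22) 
(.lf (nat_lit 604062001) (dlOf (nat_lit 1) (nat_lit 0x400400020008010702))) 
(.lf (nat_lit 2755739953) (dlOf (nat_lit 1) (nat_lit 0x3400081b0501)))) 
(.lf (nat_lit 4899030449) (dlOf (nat_lit 1) (nat_lit 0x20018053601)))) (.nd (nat_lit 10) 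
(.nd (nat_lit 27) 
(.lf (nat_lit 872497585) (dlOf (nat_lit 1) (nat_lit 0x100080004002006a0008091003))) 
(.lf (nat_lit 2080457137) (dlOf (nat_lit 1) (nat_lit 0x2000400020008091002)))) 
(.lf (nat_lit 1543589297) (dlOf (nat_lit 1) (nat_lit 0x1400400020008146d02))))) (.nd (nat_lit 9) 
(.nd (nat_lit 7) (.lf (nat_lit 6241207665) (dlOf (nat_lit 1) (nat_lit 0x20028053501))) 
(.lf (nat_lit 2753118705) (dlOf (nat_lit 2) (nat_lit 0x262450005f018090d80)))) (.nd (nat_lit 10) 
(.lf (nat_lit 6643864433) (dlOf (nat_lit 3) (nat_lit 0x1402300577810007011802bb8080010008004800200060008008f83))) 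
(.nd (nat_lit 27) (.lf (nat_lit 4362159985) (dlOf (nat_lit 1) (nat_lit 0xc0018004081))) 
(.lf (nat_lit 469845873) (dlOf (nat_lit 1) (nat_lit 0x160018004081))))))))) (.nd (nat_lit 7) 
(.nd (nat_lit 31) (.nd (nat_lit 23) (.nd (nat_lit 19) (.nd (nat_lit 8) (.nd (nat_lit 26) 
(.lf (nat_lit 1476608049) (dlOf (nat_lit 3) (nat_lit 0x248114063807e002803c007701b0025807400980380038013002b000000070400118114004007e00ba036000100000006c2014680080ad8002056a00080a0703))) 
(.lf (nat_lit 604192817) (dlOf (nat_lit 6) (nat_lit 0x90090000a80802501140018084007803f007c01e003200e4005006c00ac0300007016800a008c00c803c002201c00020098003802c00cc0000001d1c004403c0000e01002d0220000640800380bc0000804037000400880008080702)))) 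
(.nd (nat_lit 6) 
(.lf (nat_lit 671303473) (dlOf (nat_lit 5) (nat_lit 0x11807c00640260001c04003402e002500600006c1001d80b80010050005601f002900980148030002400e00220000000d07000e00f8013004c000160800f000400160008143d82))) 
(.lf (nat_lit 268650865) (dlOf (nat_lit 1) (nat_lit 0x3800800cc002000800080e4e83))))) 
(.nd (nat_lit 20) (.nd (nat_lit 26) 
(.lf (nat_lit 537608241) (dlOf (nat_lit 2) (nat_lit 0x702d8000740800680080030002000800080d0b03))) 
(.lf (nat_lit 1410023473) (dlOf (nat_lit 2) (nat_lit 0x702d8000740800680080030002000800080d0b03)))) 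
(.lf (nat_lit 1343963185) (dlOf (nat_lit 1) (nat_lit 0x200008380f01))))) (.nd (nat_lit 6) 
(.nd (nat_lit 19) (.nd (nat_lit 21) 
(.lf (nat_lit 25378865) (dlOf (nat_lit 2) (nat_lit 0x27ac19014b5f800b22f480585784030ebbb015f5d380b6ae8c05e168602beb1b016958380afaad0057d4fe0212a27015f4d38001587000b000800a8002008c0008c00683))) 
(.lf (nat_lit 14893105) (dlOf (nat_lit 2) (nat_lit 0xc000001bd02002c0018790481)))) 
(.lf (nat_lit 11223089) (dlOf (nat_lit 2) (nat_lit 0x4656400017818670700)))) (.nd (nat_lit 21) 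
(.lf (nat_lit 9650289) (dlOf (nat_lit 1) (nat_lit 0x60018570a81))) 
(.lf (nat_lit 32718961) (dlOf (nat_lit 1) (nat_lit 0x1800200020008f01d02)))))) (.nd (nat_lit 26) 
(.nd (nat_lit 8) (.nd (nat_lit 6) 
(.lf (nat_lit 4026744881) (dlOf (nat_lit 1) (nat_lit 0x60028090001))) 
(.lf (nat_lit 4026744945) (dlOf (nat_lit 1) (nat_lit 0x20028090081)))) (.nd (nat_lit 9) 
(.lf (nat_lit 2684572977) (dlOf (nat_lit 1) (nat_lit 0xd600280a9881))) (.nd (nat_lit 11) 
(.lf (nat_lit 2684572465) (dlOf (nat_lit 1) (nat_lit 0x7000180a8f81))) 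
(.lf (nat_lit 3489880881) (dlOf (nat_lit 1) (nat_lit 0x2000800bc81)))))) (.nd (nat_lit 6) 
(.nd (nat_lit 10) (.lf (nat_lit 3825418801) (dlOf (nat_lit 1) (nat_lit 0x80018158001))) 
(.lf (nat_lit 6509776433) (dlOf (nat_lit 1) (nat_lit 0x400200020008147182)))) (.nd (nat_lit 27) 
(.nd (nat_lit 28) (.lf (nat_lit 3288547441) (dlOf (nat_lit 1) (nat_lit 0x20028090081))) 
(.lf (nat_lit 2483241073) (dlOf (nat_lit 1) (nat_lit 0x8008000c00200020008090083)))) 
(.lf (nat_lit 2349023345) (dlOf (nat_lit 1) (nat_lit 0x8008000c00200020008090083))))))) 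
(.nd (nat_lit 6) (.nd (nat_lit 11) (.nd (nat_lit 8) (.nd (nat_lit 9) 
(.lf (nat_lit 36390065) (dlOf (nat_lit 1) (nat_lit 0x31000201060009072c02))) 
(.lf (nat_lit 3556987569) (dlOf (nat_lit 1) (nat_lit 0xa10008013c002008a0008128c83)))) 
(.nd (nat_lit 9) (.nd (nat_lit 10) 
(.lf (nat_lit 2753774001) (dlOf (nat_lit 2) (nat_lit 0x4873c019d80400a800200160008090782))) 
(.lf (nat_lit 5637359025) (dlOf (nat_lit 1) (nat_lit 0x4004000200080d3602)))) 
(.lf (nat_lit 671303601) (dlOf (nat_lit 2) (nat_lit 0x1000800012018144380))))) (.nd (nat_lit 19) 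
(.nd (nat_lit 20) (.lf (nat_lit 69421489) (dlOf (nat_lit 1) (nat_lit 0x8008000400200020008964e83))) 
(.lf (nat_lit 36915633) (dlOf (nat_lit 1) (nat_lit 0x20019074e81)))) (.nd (nat_lit 8) 
(.lf (nat_lit 3490401457) (dlOf (nat_lit 1) (nat_lit 0xc00200040008006282))) (.nd (nat_lit 21) 
(.lf (nat_lit 39537073) (dlOf (nat_lit 1) (nat_lit 0xc00200020009194e82))) 
(.lf (nat_lit 37439921) (dlOf (nat_lit 1) (nat_lit 0x200190d4e81))))))) (.nd (nat_lit 9) 
(.nd (nat_lit 19) (.nd (nat_lit 26) (.nd (nat_lit 29) 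
(.lf (nat_lit 2416132593) (dlOf (nat_lit 1) (nat_lit 0x1800400020008090d82))) 
(.lf (nat_lit 4026745329) (dlOf (nat_lit 2) (nat_lit 0x21201a8002f80805f00080088002001e0008090d83)))) 
(.lf (nat_lit 3288547825) (dlOf (nat_lit 1) (nat_lit 0x1b80080030002002e0008090d83)))) 
(.nd (nat_lit 8) (.lf (nat_lit 1611350257) (dlOf (nat_lit 2) (nat_lit 0x4064009e8818131e80))) 
(.lf (nat_lit 8078833) (dlOf (nat_lit 1) (nat_lit 0x400200020008513602))))) (.nd (nat_lit 8) 
(.nd (nat_lit 28) 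
(.lf (nat_lit 6040011505) (dlOf (nat_lit 1) (nat_lit 0x20008001c002000600080b2103))) 
(.lf (nat_lit 4160963313) (dlOf (nat_lit 1) (nat_lit 0x740008034800200a000080a2103)))) 
(.nd (nat_lit 19) (.lf (nat_lit 6375556081) (dlOf (nat_lit 1) (nat_lit 0x240028002881))) 
(.lf (nat_lit 53167089) (dlOf (nat_lit 1) (nat_lit 0x28008000c00200020009572883))))))))) 
(.nd (nat_lit 17) (.nd (nat_lit 28) (.nd (nat_lit 7) (.nd (nat_lit 26) (.nd (nat_lit 23) 
(.nd (nat_lit 19) (.nd (nat_lit 27) 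
(.lf (nat_lit 3221569585) (dlOf (nat_lit 1) (nat_lit 0x20018140681))) 
(.lf (nat_lit 3892658225) (dlOf (nat_lit 1) (nat_lit 0x60018180481)))) (.nd (nat_lit 21) 
(.lf (nat_lit 5062705) (dlOf (nat_lit 13) (nat_lit 0x7bccc4000370204c66620001b0100263310000d408060998800068040618cc400033020006000000150100703310000880809799e40030c1e011060900102d7803a96a40028b2000f85760046271801d0fa8012c07800b80000000e8b00ec33c8000700800519880001e040300cc4000010203f067902f8331000000100d8800801c400202020008300703))) 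
(.lf (nat_lit 2965553) (dlOf (nat_lit 3) (nat_lit 0x4500000009408000800000020040004002000200081e0902))))) 
(.nd (nat_lit 21) (.nd (nat_lit 20) 
(.lf (nat_lit 13451313) (dlOf (nat_lit 1) (nat_lit 0x20028720f81))) 
(.lf (nat_lit 10305585) (dlOf (nat_lit 1) (nat_lit 0x200285d0701)))) (.nd (nat_lit 8) 
(.lf (nat_lit 62210097) (dlOf (nat_lit 1) (nat_lit 0x134002007a0009970f82))) 
(.lf (nat_lit 50152753) (dlOf (nat_lit 1) (nat_lit 0x4800294c3201)))))) (.nd (nat_lit 31) 
(.nd (nat_lit 6) (.nd (nat_lit 32) 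
(.lf (nat_lit 67452977) (dlOf (nat_lit 2) (nat_lit 0x9217200290b7801805b800a42d40052168001a0af8013857400a42ac005215400290a38018844400e01fc00360fa0027078801000b4000383c00c000400100008140702))) 
(.lf (nat_lit 4362420273) (dlOf (nat_lit 2) (nat_lit 0x300330000a018070980)))) 
(.lf (nat_lit 4899291505) (dlOf (nat_lit 1) (nat_lit 0x2600180f5801)))) (.nd (nat_lit 27) 
(.lf (nat_lit 3288678449) (dlOf (nat_lit 8) (nat_lit 0x19007e053c0330d44017024300a014e804e07e001e0001b06079b0170000d40868580b814b004e011a01e0001a0305450170000cc081e880b4097804c002801e00d1009005c80440005c140d8405a053202600a20088000b41802f80b40005604000c004004200080c0e82))) 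
(.nd (nat_lit 29) 
(.lf (nat_lit 2349154353) (dlOf (nat_lit 1) (nat_lit 0x100080010002000c00080e0683))) 
(.lf (nat_lit 3959767089) (dlOf (nat_lit 1) (nat_lit 0x20018140681))))))) (.nd (nat_lit 6) 
(.nd (nat_lit 26) (.nd (nat_lit 8) 
(.lf (nat_lit 3489969) (dlOf (nat_lit 2) (nat_lit 0xb8fe0000050200080008200301))) 
(.lf (nat_lit 1074086321) (dlOf (nat_lit 1) (nat_lit 0xc0028090781)))) (.nd (nat_lit 9) 
(.lf (nat_lit 738541745) (dlOf (nat_lit 2) (nat_lit 0x240aa0000b02000600180a2d81))) 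
(.lf (nat_lit 2751809201) (dlOf (nat_lit 1) (nat_lit 0x20028003a81))))) (.nd (nat_lit 8) 
(.nd (nat_lit 9) (.nd (nat_lit 19) 
(.lf (nat_lit 19218673) (dlOf (nat_lit 1) (nat_lit 0x1800200120008970602))) 
(.lf (nat_lit 20791537) (dlOf (nat_lit 1) (nat_lit 0x100080008002001000089e4503)))) 
(.lf (nat_lit 69552881) (dlOf (nat_lit 1) (nat_lit 0x400400020008b45a02)))) (.nd (nat_lit 10) 
(.lf (nat_lit 1917425) (dlOf (nat_lit 2) (nat_lit 0x8fc000000be02000e0018150d81))) 
(.lf (nat_lit 8209905) (dlOf (nat_lit 1) (nat_lit 0x38008000400200060008513603))))))) 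
(.nd (nat_lit 29) (.nd (nat_lit 30) (.nd (nat_lit 27) (.nd (nat_lit 26) (.nd (nat_lit 31) 
(.lf (nat_lit 4563746865) (dlOf (nat_lit 2) (nat_lit 0xa4052003e027000f00d8000801800600080060002005c00080d0383))) 
(.lf (nat_lit 2416263217) (dlOf (nat_lit 2) (nat_lit 0xa40420003602000800080c0f81)))) 
(.lf (nat_lit 2483372081) (dlOf (nat_lit 1) (nat_lit 0x100080010002000c00080e0683)))) 
(.nd (nat_lit 19) (.nd (nat_lit 31) 
(.lf (nat_lit 4697964593) (dlOf (nat_lit 2) (nat_lit 0xa4052003e027000f00d8000801800600080060002005c00080d0383))) 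
(.lf (nat_lit 2550480945) (dlOf (nat_lit 1) (nat_lit 0xa00280c0e81)))) 
(.lf (nat_lit 470630449) (dlOf (nat_lit 2) (nat_lit 0x11e118000a089c01a441e00ae1b00002b048140680))))) 
(.nd (nat_lit 6) (.nd (nat_lit 8) 
(.lf (nat_lit 1343045681) (dlOf (nat_lit 2) (nat_lit 0x11e118000a089c01a441600ae1a00002b048140680))) 
(.lf (nat_lit 3557114161) (dlOf (nat_lit 1) (nat_lit 0x1800400020018130702)))) (.nd (nat_lit 7) 
(.lf (nat_lit 3490007409) (dlOf (nat_lit 1) (nat_lit 0x20018004e81))) 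
(.lf (nat_lit 3493151729) (dlOf (nat_lit 1) (nat_lit 0x200180f2881)))))) (.nd (nat_lit 26) 
(.nd (nat_lit 6) (.nd (nat_lit 7) (.nd (nat_lit 31) 
(.lf (nat_lit 1879392305) (dlOf (nat_lit 2) (nat_lit 0x4960000001b018120e80))) 
(.lf (nat_lit 4026875953) (dlOf (nat_lit 3) (nat_lit 0x70405c000360201d002e0001a0180c0f80)))) 
(.lf (nat_lit 1880967601) (dlOf (nat_lit 1) (nat_lit 0x8008000400200020008d74e83)))) 
(.nd (nat_lit 8) (.lf (nat_lit 5234835569) (dlOf (nat_lit 1) (nat_lit 0x200280f0a81))) 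
(.lf (nat_lit 5234835825) (dlOf (nat_lit 1) (nat_lit 0x1c004000200080f5802))))) (.nd (nat_lit 30) 
(.nd (nat_lit 27) 
(.lf (nat_lit 3020242993) (dlOf (nat_lit 1) (nat_lit 0x80080004002000200081a0703))) 
(.nd (nat_lit 31) (.lf (nat_lit 1006977073) (dlOf (nat_lit 2) (nat_lit 0x1220000001b018120f80))) 
(.lf (nat_lit 3154460721) (dlOf (nat_lit 1) (nat_lit 0x2c004008200081a0482))))) (.nd (nat_lit 6) 
(.nd (nat_lit 7) 
(.lf (nat_lit 4228202545) (dlOf (nat_lit 6) (nat_lit 0x5a019000048081bb0100058c058007200000008030170020000580c8087005800e0024000600000003c2831100c80001c041dd80640000d0200740008070901))) 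
(.lf (nat_lit 2080719025) (dlOf (nat_lit 2) (nat_lit 0x20168000a40801a80080020002000400080c1603)))) 
(.lf (nat_lit 1946501489) (dlOf (nat_lit 1) (nat_lit 0x100028090781)))))))) (.nd (nat_lit 6) 
(.nd (nat_lit 28) (.nd (nat_lit 21) (.nd (nat_lit 29) (.nd (nat_lit 7) 
(.lf (nat_lit 17776689) (dlOf (nat_lit 3) (nat_lit 0x42cb80000a02001165c000048188f0f00))) 
(.nd (nat_lit 10) (.lf (nat_lit 55001265) (dlOf (nat_lit 1) (nat_lit 0x400400020009681602))) 
(.lf (nat_lit 47662257) (dlOf (nat_lit 10) (nat_lit 0x475780016abbc01275490073aa40004d51c000be14015abc000595de005aaa48027d520000ba100206bc0010b5490002c82004daf00028d524000ae08010abc0008b5490051aa400014818043d7800232a920004b0400795e00040aa48000cc10013d78000062040246bc0012b549006faa40000c0180118008015800200020009402c03))))) 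
(.nd (nat_lit 8) (.nd (nat_lit 26) 
(.lf (nat_lit 1611087921) (dlOf (nat_lit 2) (nat_lit 0x52041005f0200000801000b80080038002002c00080d0383))) 
(.lf (nat_lit 738672689) (dlOf (nat_lit 2) (nat_lit 0x52041005f0200000801000b80080038002002c00080d0383)))) 
(.lf (nat_lit 604456241) (dlOf (nat_lit 1) (nat_lit 0xc00082d3201))))) (.nd (nat_lit 7) 
(.nd (nat_lit 19) (.nd (nat_lit 20) 
(.lf (nat_lit 19349553) (dlOf (nat_lit 1) (nat_lit 0x400200020008990b82))) 
(.lf (nat_lit 3620913) (dlOf (nat_lit 1) (nat_lit 0xa0018210981)))) 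
(.lf (nat_lit 25116721) (dlOf (nat_lit 5) (nat_lit 0x5dcc8982c6644417470da0b0186b002a8df800b46d40c0c000000360e0b7591305d3c8882e3e1b4169b0d60003408015791100017010133ce200a164440005a08013c00400040008be0e82)))) 
(.nd (nat_lit 8) (.lf (nat_lit 19878577) (dlOf (nat_lit 1) (nat_lit 0x5c004004200089d8c82))) 
(.lf (nat_lit 8340913) (dlOf (nat_lit 1) (nat_lit 0x20018513601)))))) (.nd (nat_lit 7) 
(.nd (nat_lit 19) (.nd (nat_lit 20) 
(.lf (nat_lit 805781553) (dlOf (nat_lit 1) (nat_lit 0x200281a0001))) 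
(.lf (nat_lit 3491184689) (dlOf (nat_lit 3) (nat_lit 0x902280004a04005c1140001d02002a0028070901)))) 
(.nd (nat_lit 8) (.nd (nat_lit 26) 
(.lf (nat_lit 1343176753) (dlOf (nat_lit 5) (nat_lit 0x40000016d02002a000000a88100160000005400801100000000004009c00200140008190482))) 
(.lf (nat_lit 470761521) (dlOf (nat_lit 1) (nat_lit 0x8008000400200020008170483)))) 
(.lf (nat_lit 6376341809) (dlOf (nat_lit 2) (nat_lit 0x9e0900000d80800200080014002000e0008090b03))))) 
(.nd (nat_lit 8) (.nd (nat_lit 9) 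
(.lf (nat_lit 1344750769) (dlOf (nat_lit 1) (nat_lit 0x20028982c01))) (.nd (nat_lit 10) 
(.lf (nat_lit 6376344241) (dlOf (nat_lit 1) (nat_lit 0x20008095681))) 
(.lf (nat_lit 4027010737) (dlOf (nat_lit 1) (nat_lit 0x138008000c002000400080f7283))))) 
(.nd (nat_lit 11) (.lf (nat_lit 1345274289) (dlOf (nat_lit 1) (nat_lit 0x60028b36e81))) 
(.lf (nat_lit 3490138545) (dlOf (nat_lit 1) (nat_lit 0x400200020008004e82))))))) (.nd (nat_lit 20) 
(.nd (nat_lit 22) (.nd (nat_lit 27) (.nd (nat_lit 7) (.nd (nat_lit 8) 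
(.lf (nat_lit 3221700721) (dlOf (nat_lit 5) (nat_lit 0x10118000c08a001fd04001e046000a0228007f0100048118002c08a001fb040016046000d0228007e81000100080090002000c0008170083))) 
(.lf (nat_lit 477041) (dlOf (nat_lit 1) (nat_lit 0x400400360008004082)))) 
(.lf (nat_lit 1345274353) (dlOf (nat_lit 2) (nat_lit 0x282ca0004e02004c0018b37401)))) 
(.nd (nat_lit 26) 
(.lf (nat_lit 134692977) (dlOf (nat_lit 1) (nat_lit 0x4a000800a800200280008090083))) 
(.nd (nat_lit 29) 
(.lf (nat_lit 201801841) (dlOf (nat_lit 1) (nat_lit 0x4a000800a800200280008090083))) 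
(.lf (nat_lit 3959898225) (dlOf (nat_lit 5) (nat_lit 0x10118000c08a0021204001e046000a022800844100048118002c08a00210040016046000d02280083c1000100080090002000c0008170083)))))) 
(.nd (nat_lit 19) (.nd (nat_lit 8) 
(.lf (nat_lit 21446769) (dlOf (nat_lit 1) (nat_lit 0x20008002800200140008a40d83))) 
(.lf (nat_lit 55001457) (dlOf (nat_lit 2) (nat_lit 0x325800282c080058008003400200020009685803)))) 
(.nd (nat_lit 21) (.lf (nat_lit 38748273) (dlOf (nat_lit 1) (nat_lit 0xc0019141d01))) 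
(.lf (nat_lit 7290993) (dlOf (nat_lit 1) (nat_lit 0x600184b0481)))))) (.nd (nat_lit 9) 
(.nd (nat_lit 8) (.nd (nat_lit 10) (.nd (nat_lit 19) 
(.lf (nat_lit 45564017) (dlOf (nat_lit 1) (nat_lit 0xe0019331d01))) 
(.lf (nat_lit 12533873) (dlOf (nat_lit 3) (nat_lit 0x1bc5a20000b0200042d1000040186d1580)))) 
(.lf (nat_lit 473384049) (dlOf (nat_lit 1) (nat_lit 0xc00401240008f52a02)))) (.nd (nat_lit 21) 
(.lf (nat_lit 3491709297) (dlOf (nat_lit 3) (nat_lit 0x686f4002c34c007f00400121f200010de801d14100040008015000200080008090783))) 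
(.lf (nat_lit 2755608945) (dlOf (nat_lit 2) (nat_lit 0x4c000007f002007600181b0781))))) 
(.nd (nat_lit 11) (.nd (nat_lit 7) 
(.lf (nat_lit 43468401) (dlOf (nat_lit 1) (nat_lit 0x800800b8002002800092a3983))) 
(.lf (nat_lit 56574961) (dlOf (nat_lit 1) (nat_lit 0x80029732881)))) (.nd (nat_lit 19) 
(.lf (nat_lit 473385713) (dlOf (nat_lit 1) (nat_lit 0xac00200d80008f55a02))) 
(.lf (nat_lit 39799537) (dlOf (nat_lit 1) (nat_lit 0x80080004002000200091f5a03)))))))))) 
(.nd (nat_lit 28) (.nd (nat_lit 17) (.nd (nat_lit 21) (.nd (nat_lit 6) (.nd (nat_lit 18) 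
(.nd (nat_lit 10) (.nd (nat_lit 8) (.nd (nat_lit 19) 
(.lf (nat_lit 2752593977) (dlOf (nat_lit 1) (nat_lit 0x58008000400200040008020683))) 
(.nd (nat_lit 27) (.lf (nat_lit 537477177) (dlOf (nat_lit 1) (nat_lit 0x24002009e00080a0b02))) 
(.lf (nat_lit 134823993) (dlOf (nat_lit 4) (nat_lit 0x3a0150001981002f00a8000c80800a005400060040104004006000180c1302))))) 
(.nd (nat_lit 7) 
(.lf (nat_lit 671172921) (dlOf (nat_lit 2) (nat_lit 0x9012800200880005c080124004000a0018144c02))) 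
(.lf (nat_lit 2818656697) (dlOf (nat_lit 1) (nat_lit 0x200280d4e81))))) (.nd (nat_lit 7) 
(.nd (nat_lit 8) (.lf (nat_lit 609849) (dlOf (nat_lit 1) (nat_lit 0xc00400dc0008007182))) 
(.lf (nat_lit 8475961) (dlOf (nat_lit 1) (nat_lit 0x400200020008519902)))) (.nd (nat_lit 8) 
(.nd (nat_lit 12) (.lf (nat_lit 55657657) (dlOf (nat_lit 1) (nat_lit 0x200196d2c81))) 
(.lf (nat_lit 3355530425) (dlOf (nat_lit 1) (nat_lit 0x8004000400080a9502)))) 
(.lf (nat_lit 4362160057) (dlOf (nat_lit 1) (nat_lit 0x20018004381)))))) (.nd (nat_lit 22) 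
(.nd (nat_lit 26) (.nd (nat_lit 27) 
(.lf (nat_lit 5905924153) (dlOf (nat_lit 1) (nat_lit 0x4004000e0008160682))) 
(.lf (nat_lit 3355787321) (dlOf (nat_lit 2) (nat_lit 0x2c02f000c00680059410036800800f800200100008110d83)))) 
(.nd (nat_lit 30) (.lf (nat_lit 6509903929) (dlOf (nat_lit 1) (nat_lit 0x4004000e0008160682))) 
(.lf (nat_lit 3288678457) (dlOf (nat_lit 2) (nat_lit 0x1400f000190180c1300))))) (.nd (nat_lit 8) 
(.nd (nat_lit 19) (.lf (nat_lit 29704249) (dlOf (nat_lit 1) (nat_lit 0x400200020008e30002))) 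
(.lf (nat_lit 21839929) (dlOf (nat_lit 1) (nat_lit 0x6c002004c0008a70682)))) 
(.lf (nat_lit 21315897) (dlOf (nat_lit 1) (nat_lit 0x400400020008a34c02)))))) (.nd (nat_lit 7) 
(.nd (nat_lit 8) (.nd (nat_lit 9) 
(.lf (nat_lit 4832182393) (dlOf (nat_lit 1) (nat_lit 0x2800400020008100b82))) 
(.lf (nat_lit 47008377) (dlOf (nat_lit 1) (nat_lit 0x38008001800200080009385403)))) 
(.nd (nat_lit 30) (.lf (nat_lit 4496377209) (dlOf (nat_lit 1) (nat_lit 0x180028053501))) 
(.lf (nat_lit 5570119033) (dlOf (nat_lit 1) (nat_lit 0x40008053501))))) (.nd (nat_lit 8) 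
(.nd (nat_lit 9) (.nd (nat_lit 26) 
(.lf (nat_lit 3221307641) (dlOf (nat_lit 2) (nat_lit 0x180dc0038804000400400040018090482))) 
(.lf (nat_lit 6509641977) (dlOf (nat_lit 1) (nat_lit 0x64002002200080b0482)))) 
(.lf (nat_lit 8471289) (dlOf (nat_lit 1) (nat_lit 0x80018512101)))) (.nd (nat_lit 9) 
(.lf (nat_lit 2348892665) (dlOf (nat_lit 1) (nat_lit 0x28008003000200100008017e03))) 
(.lf (nat_lit 5503009785) (dlOf (nat_lit 1) (nat_lit 0x100028002881))))))) (.nd (nat_lit 6) 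
(.nd (nat_lit 18) (.nd (nat_lit 12) (.nd (nat_lit 8) (.nd (nat_lit 9) 
(.lf (nat_lit 3751993) (dlOf (nat_lit 8) (nat_lit 0x105510002b0100042ac0000e00800095600006c04001cab00003402001c551000090100182a88000440800c154400020040028004000c0018220b82))) 
(.lf (nat_lit 32590393) (dlOf (nat_lit 1) (nat_lit 0x20018ef5201)))) 
(.lf (nat_lit 20007737) (dlOf (nat_lit 1) (nat_lit 0x4002000200089d5c02)))) (.nd (nat_lit 7) 
(.lf (nat_lit 7952953) (dlOf (nat_lit 2) (nat_lit 0x395600031c0400dc004001c000851b402))) 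
(.lf (nat_lit 20011705) (dlOf (nat_lit 1) (nat_lit 0x200189db881))))) (.nd (nat_lit 9) 
(.nd (nat_lit 19) (.lf (nat_lit 24461369) (dlOf (nat_lit 1) (nat_lit 0xe0028ba0b81))) 
(.nd (nat_lit 20) 
(.lf (nat_lit 11354169) (dlOf (nat_lit 3) (nat_lit 0x44f9e00287cb000b28200033ac000524080108008003000200100008690d83))) 
(.lf (nat_lit 16597049) (dlOf (nat_lit 1) (nat_lit 0x8004000400088c0902))))) (.nd (nat_lit 7) 
(.lf (nat_lit 45435449) (dlOf (nat_lit 3) (nat_lit 0x4338c401199d40002ce90002f8300777188001640800f8008000400200400009325203))) 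
(.lf (nat_lit 2754960313) (dlOf (nat_lit 1) (nat_lit 0x80080004002000200080fbe03)))))) 
(.nd (nat_lit 20) (.nd (nat_lit 7) (.nd (nat_lit 8) (.nd (nat_lit 24) 
(.lf (nat_lit 2179193) (dlOf (nat_lit 1) (nat_lit 0x20008000c00200060008150083))) 
(.lf (nat_lit 18956409) (dlOf (nat_lit 1) (nat_lit 0x400200020008970482)))) 
(.lf (nat_lit 36522361) (dlOf (nat_lit 1) (nat_lit 0x20019074e81)))) (.nd (nat_lit 8) 
(.lf (nat_lit 69552889) (dlOf (nat_lit 1) (nat_lit 0x800200020008b45a02))) 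
(.lf (nat_lit 44648953) (dlOf (nat_lit 1) (nat_lit 0x400400020009324f82))))) (.nd (nat_lit 12) 
(.nd (nat_lit 7) (.lf (nat_lit 58278009) (dlOf (nat_lit 1) (nat_lit 0x800080014002000800097d2a03))) 
(.nd (nat_lit 18) (.lf (nat_lit 20005113) (dlOf (nat_lit 1) (nat_lit 0x4002000200089d0a82))) 
(.lf (nat_lit 12402937) (dlOf (nat_lit 1) (nat_lit 0x4004000200086c0482))))) (.nd (nat_lit 10) 
(.lf (nat_lit 20009209) (dlOf (nat_lit 1) (nat_lit 0x6c00289d8081))) 
(.lf (nat_lit 20272377) (dlOf (nat_lit 1) (nat_lit 0x200089d9501)))))))) (.nd (nat_lit 18) 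
(.nd (nat_lit 6) (.nd (nat_lit 7) (.nd (nat_lit 8) (.nd (nat_lit 20) (.nd (nat_lit 26) 
(.lf (nat_lit 4832051257) (dlOf (nat_lit 1) (nat_lit 0x400080b0c81))) 
(.lf (nat_lit 1812152377) (dlOf (nat_lit 1) (nat_lit 0x300080068002003a0008160683)))) 
(.nd (nat_lit 22) (.lf (nat_lit 2752725049) (dlOf (nat_lit 1) (nat_lit 0x8e0018030d01))) 
(.lf (nat_lit 30621753) (dlOf (nat_lit 1) (nat_lit 0x3480080004002006c0008e41103))))) 
(.nd (nat_lit 12) 
(.lf (nat_lit 671303481) (dlOf (nat_lit 2) (nat_lit 0xf00f8001804c00040080010004000c0008143e02))) 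
(.lf (nat_lit 8607545) (dlOf (nat_lit 1) (nat_lit 0x2b00040048000851a102))))) (.nd (nat_lit 8) 
(.nd (nat_lit 9) (.nd (nat_lit 19) 
(.lf (nat_lit 51594425) (dlOf (nat_lit 1) (nat_lit 0xc00200060009512c82))) 
(.lf (nat_lit 52118713) (dlOf (nat_lit 1) (nat_lit 0x80029512c81)))) 
(.lf (nat_lit 134956729) (dlOf (nat_lit 1) (nat_lit 0x200180f3a81)))) (.nd (nat_lit 11) 
(.lf (nat_lit 41107897) (dlOf (nat_lit 1) (nat_lit 0x280008000400200fa0009226f03))) 
(.lf (nat_lit 54741433) (dlOf (nat_lit 1) (nat_lit 0x19c00400820009654e82)))))) (.nd (nat_lit 8) 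
(.nd (nat_lit 7) (.nd (nat_lit 19) 
(.lf (nat_lit 9650297) (dlOf (nat_lit 1) (nat_lit 0x20008000400200040008570b83))) 
(.lf (nat_lit 12271737) (dlOf (nat_lit 1) (nat_lit 0x200086c0081)))) (.nd (nat_lit 10) 
(.nd (nat_lit 29) (.lf (nat_lit 5503140089) (dlOf (nat_lit 1) (nat_lit 0x120018090a81))) 
(.lf (nat_lit 4966269177) (dlOf (nat_lit 1) (nat_lit 0x3b000202460008090a82)))) 
(.lf (nat_lit 3422770425) (dlOf (nat_lit 1) (nat_lit 0x180080078002002200080a9503))))) 
(.nd (nat_lit 7) (.nd (nat_lit 11) 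
(.lf (nat_lit 67322233) (dlOf (nat_lit 1) (nat_lit 0x4002000200080b0b02))) 
(.lf (nat_lit 215417) (dlOf (nat_lit 1) (nat_lit 0x1400400020008004e82)))) (.nd (nat_lit 9) 
(.nd (nat_lit 19) (.lf (nat_lit 9650681) (dlOf (nat_lit 1) (nat_lit 0x20008577e01))) 
(.lf (nat_lit 737785) (dlOf (nat_lit 1) (nat_lit 0x60008017e01)))) 
(.lf (nat_lit 8083449) (dlOf (nat_lit 1) (nat_lit 0x2001851a601))))))) (.nd (nat_lit 19) 
(.nd (nat_lit 7) (.nd (nat_lit 20) (.nd (nat_lit 22) (.nd (nat_lit 26) 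
(.lf (nat_lit 2572345) (dlOf (nat_lit 16) (nat_lit 0x25291c000ac04001d48e00055020050aa60002901002a5530001440800d2a98000780400c954c0003802001caa60001b8100225530000d808015aa980006a04008154c0003402001caa60001981004b52380005808002291c0002404010148e0001102008aa4700008018170b80))) 
(.lf (nat_lit 2754035769) (dlOf (nat_lit 1) (nat_lit 0x24004000800080b1502)))) 
(.lf (nat_lit 48709689) (dlOf (nat_lit 1) (nat_lit 0x8008000400200020009420583)))) 
(.nd (nat_lit 22) 
(.lf (nat_lit 3620921) (dlOf (nat_lit 6) (nat_lit 0x22888001900800e931c0008e04002c98e0004602000a51100032648000901000093240002c04009400400980018210b82))) 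
(.lf (nat_lit 24592441) (dlOf (nat_lit 1) (nat_lit 0x40028ba0b81))))) (.nd (nat_lit 6) 
(.lf (nat_lit 3288811705) (dlOf (nat_lit 1) (nat_lit 0x4004000200080f4902))) 
(.lf (nat_lit 476153) (dlOf (nat_lit 1) (nat_lit 0x800400020008002882))))) (.nd (nat_lit 24) 
(.nd (nat_lit 6) (.nd (nat_lit 7) (.nd (nat_lit 8) 
(.lf (nat_lit 13582393) (dlOf (nat_lit 2) (nat_lit 0x4718c0039a04003800400040008730b82))) 
(.lf (nat_lit 7291193) (dlOf (nat_lit 1) (nat_lit 0x8002006200084b0702)))) 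
(.lf (nat_lit 41895097) (dlOf (nat_lit 1) (nat_lit 0x22c0019242c81)))) (.nd (nat_lit 7) 
(.lf (nat_lit 2754563705) (dlOf (nat_lit 2) (nat_lit 0x81100004d02000200180f7181))) 
(.lf (nat_lit 2752463353) (dlOf (nat_lit 8) (nat_lit 0xb4a1f80001201058b0fc000088082db87e00004004016c3f00001e020af81f80000e8100150fc0000700802007e00003604003000400040018017e02))))) 
(.nd (nat_lit 6) (.nd (nat_lit 21) (.nd (nat_lit 23) 
(.lf (nat_lit 17776697) (dlOf (nat_lit 2) (nat_lit 0xe9260005602000200188f1101))) 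
(.lf (nat_lit 59719737) (dlOf (nat_lit 1) (nat_lit 0x40029820581)))) (.nd (nat_lit 8) 
(.lf (nat_lit 25116729) (dlOf (nat_lit 2) (nat_lit 0x461ac0006404000400400040018be1302))) 
(.lf (nat_lit 19876665) (dlOf (nat_lit 1) (nat_lit 0x4002000200089d5c02))))) (.nd (nat_lit 12) 
(.lf (nat_lit 19874041) (dlOf (nat_lit 1) (nat_lit 0x4002000200089d0a82))) 
(.lf (nat_lit 19878137) (dlOf (nat_lit 1) (nat_lit 0x4004000400189d8082))))))))) (.nd (nat_lit 7) 
(.nd (nat_lit 30) (.nd (nat_lit 26) (.nd (nat_lit 8) (.nd (nat_lit 6) (.nd (nat_lit 9) 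
(.lf (nat_lit 939737145) (dlOf (nat_lit 1) (nat_lit 0x300080068002003a0008160683))) 
(.lf (nat_lit 268518969) (dlOf (nat_lit 1) (nat_lit 0x3c004000e0018053782)))) (.nd (nat_lit 17) 
(.lf (nat_lit 5234835577) (dlOf (nat_lit 1) (nat_lit 0x380080014002000600080f0b83))) 
(.nd (nat_lit 27) (.lf (nat_lit 2416394361) (dlOf (nat_lit 1) (nat_lit 0x4c004001600081b0082))) 
(.lf (nat_lit 2550612089) (dlOf (nat_lit 1) (nat_lit 0x4c004001600081b0082)))))) (.nd (nat_lit 6) 
(.lf (nat_lit 5234576185) (dlOf (nat_lit 1) (nat_lit 0x20008001000200100008055c03))) 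
(.nd (nat_lit 10) (.nd (nat_lit 18) 
(.lf (nat_lit 4697702777) (dlOf (nat_lit 1) (nat_lit 0x148008006400200cc0008091003))) 
(.lf (nat_lit 5234835833) (dlOf (nat_lit 1) (nat_lit 0xd800080f5881)))) 
(.lf (nat_lit 5100356985) (dlOf (nat_lit 1) (nat_lit 0x20018053501)))))) (.nd (nat_lit 6) 
(.nd (nat_lit 19) (.nd (nat_lit 9) (.nd (nat_lit 27) 
(.lf (nat_lit 3020243001) (dlOf (nat_lit 1) (nat_lit 0x2bc002010200081a0882))) 
(.lf (nat_lit 3154460729) (dlOf (nat_lit 1) (nat_lit 0x200181a0481)))) 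
(.lf (nat_lit 473254457) (dlOf (nat_lit 1) (nat_lit 0x20028e35201)))) (.nd (nat_lit 17) 
(.lf (nat_lit 471416889) (dlOf (nat_lit 11) (nat_lit 0x616b0002b0100020ad0003051c000900800142b4000a147000238200050ad0003051c000880800142b4000c147000218200060ad0003051c000840800182b4000c147000200200050ad0003051c0007c0800182b4000c1470001c02000605e8000d40800100080044002000200082f1103))) 
(.lf (nat_lit 473907257) (dlOf (nat_lit 1) (nat_lit 0x400400020008fc0582))))) (.nd (nat_lit 8) 
(.lf (nat_lit 335759993) (dlOf (nat_lit 1) (nat_lit 0x800400020008095402))) (.nd (nat_lit 11) 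
(.lf (nat_lit 872497529) (dlOf (nat_lit 1) (nat_lit 0x10002003c0008091002))) (.nd (nat_lit 27) 
(.lf (nat_lit 5167466873) (dlOf (nat_lit 1) (nat_lit 0x4002000a0008054e82))) 
(.lf (nat_lit 3154200953) (dlOf (nat_lit 1) (nat_lit 0x20018104e81)))))))) (.nd (nat_lit 17) 
(.nd (nat_lit 6) (.nd (nat_lit 18) (.nd (nat_lit 8) (.nd (nat_lit 31) 
(.lf (nat_lit 1343307833) (dlOf (nat_lit 2) (nat_lit 0x16984bc0005a0400e4004005600081e0882))) 
(.lf (nat_lit 3490791481) (dlOf (nat_lit 1) (nat_lit 0x58008000400200040008020683)))) 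
(.lf (nat_lit 5773542713) (dlOf (nat_lit 1) (nat_lit 0x19400280e3281)))) (.nd (nat_lit 19) 
(.lf (nat_lit 3492102201) (dlOf (nat_lit 1) (nat_lit 0x1c004000600080a0b82))) 
(.lf (nat_lit 1343045689) (dlOf (nat_lit 1) (nat_lit 0x8008000400200020008140783))))) 
(.nd (nat_lit 11) (.nd (nat_lit 8) 
(.lf (nat_lit 6308316793) (dlOf (nat_lit 1) (nat_lit 0x100008005c002001a0008053983))) 
(.lf (nat_lit 5637489017) (dlOf (nat_lit 1) (nat_lit 0x5600180f5881)))) (.nd (nat_lit 27) 
(.lf (nat_lit 1409370489) (dlOf (nat_lit 3) (nat_lit 0x1205f0097901000102f8000000801100080058002000a0008004e83))) 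
(.lf (nat_lit 4227942777) (dlOf (nat_lit 2) (nat_lit 0x20032008d2818004e80)))))) (.nd (nat_lit 8) 
(.nd (nat_lit 18) (.nd (nat_lit 19) (.nd (nat_lit 20) 
(.lf (nat_lit 1879261241) (dlOf (nat_lit 1) (nat_lit 0x8008007c002002e00080c0003))) 
(.lf (nat_lit 3490922553) (dlOf (nat_lit 1) (nat_lit 0x8e0018030d01)))) 
(.lf (nat_lit 1343963193) (dlOf (nat_lit 11) (nat_lit 0x82d60005602000c15a00060a3800120100028568001828e0004704000c15a00060a3800110100030568001428e0004304000c15a00060a3800108100030568001828e0004004000c15a00060a38000f8100030568001828e0003804000a15b00040698000b4100008008002400200020008381103)))) 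
(.nd (nat_lit 9) (.lf (nat_lit 3492233273) (dlOf (nat_lit 1) (nat_lit 0x24004000800080b1502))) 
(.nd (nat_lit 10) 
(.lf (nat_lit 1346325049) (dlOf (nat_lit 2) (nat_lit 0x505a000142cc003201c000900d00017c2000f8008009400200220008f05203))) 
(.lf (nat_lit 4027010617) (dlOf (nat_lit 1) (nat_lit 0x200080f7181)))))) (.nd (nat_lit 10) 
(.nd (nat_lit 11) 
(.lf (nat_lit 4026745209) (dlOf (nat_lit 1) (nat_lit 0x110008002c00200260008090783))) 
(.lf (nat_lit 6241339769) (dlOf (nat_lit 1) (nat_lit 0x4004000200180d4e82)))) (.nd (nat_lit 6) 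
(.lf (nat_lit 3556988729) (dlOf (nat_lit 1) (nat_lit 0x6000812a101))) 
(.lf (nat_lit 3489881465) (dlOf (nat_lit 1) (nat_lit 0x18002000c000800c902)))))))) (.nd (nat_lit 6) 
(.nd (nat_lit 27) (.nd (nat_lit 12) (.nd (nat_lit 17) (.nd (nat_lit 9) (.nd (nat_lit 18) 
(.lf (nat_lit 1344356537) (dlOf (nat_lit 1) (nat_lit 0x80028740481))) 
(.lf (nat_lit 3557114041) (dlOf (nat_lit 1) (nat_lit 0x40028130381)))) 
(.lf (nat_lit 4563487417) (dlOf (nat_lit 2) (nat_lit 0x80240002802003c0008095701)))) 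
(.nd (nat_lit 8) (.lf (nat_lit 1344488633) (dlOf (nat_lit 1) (nat_lit 0x800400020018802c82))) 
(.lf (nat_lit 1345274297) (dlOf (nat_lit 2) (nat_lit 0xc05940000004000400400680018b36f02))))) 
(.nd (nat_lit 8) (.nd (nat_lit 9) 
(.lf (nat_lit 3556987065) (dlOf (nat_lit 2) (nat_lit 0x2e03f0007a818127e80))) (.nd (nat_lit 10) 
(.lf (nat_lit 3556989625) (dlOf (nat_lit 2) (nat_lit 0x3980fc0002e0400d0002002a000812b882))) 
(.lf (nat_lit 1879922361) (dlOf (nat_lit 1) (nat_lit 0x4002000200083da002))))) (.nd (nat_lit 9) 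
(.lf (nat_lit 1342265785) (dlOf (nat_lit 1) (nat_lit 0x400080050002001e000800af83))) 
(.lf (nat_lit 1342264249) (dlOf (nat_lit 1) (nat_lit 0x80080014002001e0008009203)))))) 
(.nd (nat_lit 10) (.nd (nat_lit 32) (.nd (nat_lit 11) (.nd (nat_lit 26) 
(.lf (nat_lit 1476477113) (dlOf (nat_lit 1) (nat_lit 0xc00400020008010382))) 
(.lf (nat_lit 2080456889) (dlOf (nat_lit 1) (nat_lit 0x10000200400008090702)))) 
(.lf (nat_lit 3623962809) (dlOf (nat_lit 1) (nat_lit 0x300028004901)))) (.nd (nat_lit 18) 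
(.lf (nat_lit 4697702585) (dlOf (nat_lit 2) (nat_lit 0x1501a000090080048008005c002002c0008090703))) 
(.lf (nat_lit 5773279417) (dlOf (nat_lit 1) (nat_lit 0x200180c1701))))) (.nd (nat_lit 8) 
(.lf (nat_lit 1543589049) (dlOf (nat_lit 1) (nat_lit 0x3a8008008c00200400008146303))) 
(.nd (nat_lit 9) 
(.lf (nat_lit 6308316601) (dlOf (nat_lit 3) (nat_lit 0xb00320015a0200140180003004000238100038008003c002002c0008053603))) 
(.lf (nat_lit 469845945) (dlOf (nat_lit 1) (nat_lit 0x7400400280008004382))))))) (.nd (nat_lit 9) 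
(.nd (nat_lit 10) (.nd (nat_lit 29) (.nd (nat_lit 8) 
(.lf (nat_lit 3556987129) (dlOf (nat_lit 1) (nat_lit 0x8008000400200020008128083))) 
(.lf (nat_lit 3490660857) (dlOf (nat_lit 1) (nat_lit 0x1c002000a0008017802)))) (.nd (nat_lit 27) 
(.lf (nat_lit 4026745337) (dlOf (nat_lit 1) (nat_lit 0x60018090d81))) 
(.lf (nat_lit 3087221241) (dlOf (nat_lit 1) (nat_lit 0x1000200040008157e02))))) (.nd (nat_lit 8) 
(.lf (nat_lit 4697703673) (dlOf (nat_lit 2) (nat_lit 0xc80000005204000400200020008092e82))) 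
(.nd (nat_lit 17) (.nd (nat_lit 27) 
(.lf (nat_lit 6241207801) (dlOf (nat_lit 1) (nat_lit 0xd80080050002001e0008053683))) 
(.lf (nat_lit 6375425529) (dlOf (nat_lit 1) (nat_lit 0x400200020008003682)))) 
(.lf (nat_lit 6375556601) (dlOf (nat_lit 1) (nat_lit 0x4c00401f80008003682)))))) (.nd (nat_lit 11) 
(.nd (nat_lit 18) (.nd (nat_lit 20) 
(.lf (nat_lit 2013479929) (dlOf (nat_lit 1) (nat_lit 0x40018092881))) 
(.lf (nat_lit 3493020665) (dlOf (nat_lit 1) (nat_lit 0x200280f2881)))) (.nd (nat_lit 17) 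
(.lf (nat_lit 4093985785) (dlOf (nat_lit 1) (nat_lit 0x400400020008002882))) 
(.lf (nat_lit 2080850937) (dlOf (nat_lit 1) (nat_lit 0x1e00180e2881))))) (.nd (nat_lit 21) 
(.nd (nat_lit 8) 
(.lf (nat_lit 1476872953) (dlOf (nat_lit 1) (nat_lit 0x80080010002000200082d5a03))) 
(.lf (nat_lit 4094905337) (dlOf (nat_lit 1) (nat_lit 0x1800400040008055f02)))) (.nd (nat_lit 17) 
(.lf (nat_lit 1345669881) (dlOf (nat_lit 1) (nat_lit 0x20028dd5a01))) 
(.lf (nat_lit 473385721) (dlOf (nat_lit 1) (nat_lit 0x8008000400200020008f55a03))))))))))))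

end

end Pool.Agent.Lib.MP_5854e1_co.Cz
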